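import Mathlib

set_option autoImplicit false

open Set Filter Topology

namespace Pool.Agent.H312Bourgin

/-- A linear order of type `ω₁`. -/
def L : Type := (Cardinal.aleph 1).ord.ToType

noncomputable instance : LinearOrder L :=
  inferInstanceAs (LinearOrder (Cardinal.aleph 1).ord.ToType)

lemma countable_Iio (i : L) : (Set.Iio i).Countable := by
  rw [Cardinal.countable_iff_lt_aleph_one]
  exact Cardinal.mk_Iio_toType_ord_lt i

lemma not_countable_univ : ¬ (Set.univ : Set L).Countable := by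
  rw [Cardinal.countable_iff_lt_aleph_one, Cardinal.mk_univ]
  have : Cardinal.mk L = Cardinal.aleph 1 := Cardinal.mk_ord_toType _
  rw [this]
  exact lt_irrefl _

lemma uncountable_upper (A : Set L) (hA : A.Countable) : ¬ {b : L | ∀ a ∈ A, a < b}.Countable := by
  intro h
  apply not_countable_univ
  have h1 : (⋃ a ∈ A, (Set.Iio a ∪ {a})).Countable :=
    hA.biUnion fun a _ => (countable_Iio a).union (countable_singleton a)
  refine (h.union h1).mono ?_
  intro b _
  by_cases hb : ∀ a ∈ A, a < b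
  · exact Or.inl hb
  · push Not at hb
    obtain ⟨a, ha, hba⟩ := hb
    refine Or.inr ?_
    simp only [mem_iUnion]
    refine ⟨a, ha, ?_⟩
    rcases lt_or_eq_of_le hba with h | h
    · exact Or.inl h
    · exact Or.inr h

/-- The tree: countable subsets of `L`. -/
def T : Type := {A : Set L // A.Countable}

instance : TopologicalSpace T := ⊥
instance : DiscreteTopology T := ⟨rfl⟩

/-- The Banach space of bounded real functions on the tree. -/
def Xb : Type := BoundedContinuousFunction T ℝ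

noncomputable instance : NormedAddCommGroup Xb :=
  inferInstanceAs (NormedAddCommGroup (BoundedContinuousFunction T ℝ))
noncomputable instance : NormedSpace ℝ Xb :=
  inferInstanceAs (NormedSpace ℝ (BoundedContinuousFunction T ℝ))
instance : CompleteSpace Xb :=
  inferInstanceAs (CompleteSpace (BoundedContinuousFunction T ℝ))

/-- the value of an element of `Xb` at a node -/
def val (f : Xb) (t : T) : ℝ := BoundedContinuousFunction.toContinuousMap f t

instance : CoeFun Xb (fun _ => T → ℝ) := ⟨val⟩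

lemma sub_val (f g : Xb) (t : T) : (f - g) t = f t - g t := rfl
lemma add_val (f g : Xb) (t : T) : (f + g) t = f t + g t := rfl
lemma smul_val (c : ℝ) (g : Xb) (t : T) : (c • g) t = c * g t := rfl
lemma zero_val (t : T) : (0 : Xb) t = 0 := rfl
lemma sum_val (F : Finset L) (g : L → Xb) (t : T) : (∑ b ∈ F, g b) t = ∑ b ∈ F, g b t := by
  classical
  induction F using Finset.induction_on with
  | empty => rfl
  | insert b F hb ih => rw [Finset.sum_insert hb, Finset.sum_insert hb, add_val, ih]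
lemma norm_le_iff {f : Xb} {C : ℝ} (h : 0 ≤ C) : ‖f‖ ≤ C ↔ ∀ t, ‖f t‖ ≤ C :=
  BoundedContinuousFunction.norm_le h
lemma norm_val_le (f : Xb) (t : T) : ‖f t‖ ≤ ‖f‖ :=
  BoundedContinuousFunction.norm_coe_le_norm (α := T) (β := ℝ) f t

/-- `Ext A B`: `B` is an end extension of `A`. -/
def Ext (A B : T) : Prop := A.1 ⊆ B.1 ∧ ∀ b ∈ B.1, b ∉ A.1 → ∀ a ∈ A.1, a < b

lemma Ext.refl (A : T) : Ext A A := ⟨Subset.rfl, fun _ hb hb' => absurd hb hb'⟩

lemma Ext.trans {A B C : T} (h1 : Ext A B) (h2 : Ext B C) : Ext A C := by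
  refine ⟨h1.1.trans h2.1, fun c hc hcA a ha => ?_⟩
  by_cases hcB : c ∈ B.1
  · exact h1.2 c hcB hcA a ha
  · exact h2.2 c hc hcB a (h1.1 ha)

lemma Ext.antisymm {A B : T} (h1 : Ext A B) (h2 : Ext B A) : A = B :=
  Subtype.ext (Subset.antisymm h1.1 h2.1)

lemma Ext.tree {A B C : T} (h1 : Ext A C) (h2 : Ext B C) : Ext A B ∨ Ext B A := by
  by_cases h : A.1 ⊆ B.1
  · left
    exact ⟨h, fun b hb hbA a ha => h1.2 b (h2.1 hb) hbA a ha⟩
  · right
    rw [not_subset] at h
    obtain ⟨a, haA, haB⟩ := h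
    have hBA : B.1 ⊆ A.1 := by
      intro b hb
      by_contra hbA
      have h3 := h1.2 b (h2.1 hb) hbA a haA
      have h4 := h2.2 a (h1.1 haA) haB b hb
      exact lt_asymm h3 h4
    exact ⟨hBA, fun a' ha' ha'B b hb => h2.2 a' (h1.1 ha') ha'B b hb⟩

/-- child of `A` obtained by adding `b` on top -/
def child (A : T) (b : L) : T := ⟨insert b A.1, A.2.insert b⟩

lemma ext_child (A : T) (b : L) (hb : ∀ a ∈ A.1, a < b) : Ext A (child A b) := by
  refine ⟨subset_insert _ _, ?_⟩
  intro c hc hcA a ha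
  rcases hc with rfl | hc
  · exact hb a ha
  · exact absurd hc hcA

lemma child_disjoint (A : T) (b b' : L) (hb : ∀ a ∈ A.1, a < b) (hb' : ∀ a ∈ A.1, a < b') (u : T)
    (h1 : Ext (child A b) u) (h2 : Ext (child A b') u) : b = b' := by
  rcases Ext.tree h1 h2 with h | h
  · have : b ∈ (child A b').1 := h.1 (mem_insert _ _)
    rcases this with h3 | h3
    · exact h3
    · exact absurd (hb b h3) (lt_irrefl _)
  · have : b' ∈ (child A b).1 := h.1 (mem_insert _ _)
    rcases this with h3 | h3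
    · exact h3.symm
    · exact absurd (hb' b' h3) (lt_irrefl _)

lemma child_ne (A : T) (b : L) (hb : ∀ a ∈ A.1, a < b) : child A b ≠ A := by
  intro h
  have : b ∈ A.1 := by
    rw [← h]; exact mem_insert _ _
  exact lt_irrefl _ (hb b this)

open Classical in
/-- indicator of the set of initial segments of `t` -/
noncomputable def x (t : T) : Xb :=
  BoundedContinuousFunction.ofNormedAddCommGroupDiscrete (fun s => if Ext s t then 1 else 0) 1
    (by intro s; split_ifs <;> simp)

open Classical in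
lemma x_apply (t s : T) : x t s = if Ext s t then 1 else 0 := rfl

lemma norm_x_le (t : T) : ‖x t‖ ≤ 1 := by
  rw [norm_le_iff zero_le_one]
  intro s
  rw [x_apply]
  split_ifs <;> simp

lemma supp_sub {t s : T} (h : Ext t s) (u : T) (hu : (x s - x t) u ≠ 0) : Ext t u ∧ u ≠ t := by
  rw [sub_val, x_apply, x_apply] at hu
  by_cases h1 : Ext u t
  · rw [if_pos h1, if_pos (h1.trans h)] at hu
    exact absurd (sub_self _) hu
  · rw [if_neg h1] at hu
    by_cases h2 : Ext u s
    · refine ⟨(Ext.tree h h2).resolve_right h1, ?_⟩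
      rintro rfl
      exact h1 (Ext.refl _)
    · rw [if_neg h2] at hu
      exact absurd (sub_self _) hu

/-- For every functional and node there is a child whose cone is not charged by the functional. -/
lemma exists_fresh (f : Xb →L[ℝ] ℝ) (t : T) :
    ∃ b : L, (∀ a ∈ t.1, a < b) ∧ ∀ g : Xb,
      (∀ u, g u ≠ 0 → Ext (child t b) u) → f g = 0 := by
  by_contra hcon
  push Not at hcon
  have hch : ∀ b : L, ∃ g : Xb, ‖g‖ ≤ 1 ∧ 0 ≤ f g ∧
      (g ≠ 0 → ∀ a ∈ t.1, a < b) ∧
      (∀ u, g u ≠ 0 → Ext (child t b) u) ∧ ((∀ a ∈ t.1, a < b) → 0 < f g) := by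
    intro b
    by_cases hb : ∀ a ∈ t.1, a < b
    · obtain ⟨g, hg1, hg2⟩ := hcon b hb
      have hg0 : g ≠ 0 := by
        rintro rfl
        exact hg2 (map_zero f)
      have hn : 0 < ‖g‖ := norm_pos_iff.mpr hg0
      set c : ℝ := (if 0 < f g then 1 else -1) * ‖g‖⁻¹ with hc
      have hfc : 0 < c * f g := by
        rw [hc]
        split_ifs with h
        · positivity
        · have : f g < 0 := lt_of_le_of_ne (not_lt.mp h) hg2
          have h2 : 0 < ‖g‖⁻¹ := inv_pos.mpr hn
          nlinarith [mul_pos h2 (neg_pos.mpr this)]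
      refine ⟨c • g, ?_, ?_, fun _ => hb, ?_, ?_⟩
      · rw [norm_smul, hc, norm_mul, norm_inv, norm_norm, mul_assoc, inv_mul_cancel₀ hn.ne']
        split_ifs <;> simp
      · rw [map_smul, smul_eq_mul]
        exact hfc.le
      · intro u hu
        apply hg1 u
        intro h0
        apply hu
        rw [smul_val, h0, mul_zero]
      · intro _
        rw [map_smul, smul_eq_mul]
        exact hfc
    · refine ⟨0, by simp, by simp, fun h => absurd rfl h, fun u hu => absurd rfl hu,
        fun h => absurd h hb⟩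
  choose g hg1 hg2 hg3 hg4 hg5 using hch
  have hsum : Summable fun b => f (g b) := by
    refine summable_of_sum_le (c := ‖f‖) hg2 fun F => ?_
    rw [← map_sum]
    have hn : ‖∑ b ∈ F, g b‖ ≤ 1 := by
      rw [norm_le_iff zero_le_one]
      intro u
      rw [sum_val]
      by_cases h : ∃ b ∈ F, g b u ≠ 0
      · obtain ⟨b, hbF, hb⟩ := h
        rw [Finset.sum_eq_single b]
        · exact (norm_val_le (g b) u).trans (hg1 b)
        · intro b' _ hb'
          by_contra hne
          have hgb : g b ≠ 0 := by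
            intro h0; rw [h0] at hb; exact hb rfl
          have hgb' : g b' ≠ 0 := by
            intro h0; rw [h0] at hne; exact hne rfl
          exact hb' (child_disjoint t b' b (hg3 b' hgb') (hg3 b hgb) u (hg4 b' u hne) (hg4 b u hb))
        · intro h; exact absurd hbF h
      · push Not at h
        rw [Finset.sum_eq_zero h]
        simp
    calc f (∑ b ∈ F, g b) ≤ ‖f (∑ b ∈ F, g b)‖ := le_abs_self _
      _ ≤ ‖f‖ * ‖∑ b ∈ F, g b‖ := f.le_opNorm _
      _ ≤ ‖f‖ * 1 := mul_le_mul_of_nonneg_left hn (norm_nonneg f)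
      _ = ‖f‖ := mul_one _
  apply uncountable_upper t.1 t.2
  refine hsum.countable_support.mono ?_
  intro b hb
  exact (hg5 b hb).ne'

/-- evaluation at a node, as a linear map -/
def evLin (t : T) : Xb →ₗ[ℝ] ℝ where
  toFun g := val g t
  map_add' _ _ := rfl
  map_smul' _ _ := rfl

/-- evaluation at a node -/
noncomputable def ev (t : T) : Xb →L[ℝ] ℝ :=
  (evLin t).mkContinuous 1 (fun g => by rw [one_mul]; exact norm_val_le g t)

lemma ev_apply (t : T) (g : Xb) : ev t g = g t := rfl

lemma norm_ev_le (t : T) : ‖ev t‖ ≤ 1 := by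
  refine ContinuousLinearMap.opNorm_le_bound _ zero_le_one fun g => ?_
  rw [ev_apply, one_mul]
  exact norm_val_le g t

/-- The convex set. -/
noncomputable def K : Set (Xb) :=
  closure (convexHull ℝ (range x))

lemma x_mem_K (t : T) : x t ∈ K := subset_closure (subset_convexHull ℝ _ (mem_range_self t))

lemma K_subset_halfspace (f : Xb →L[ℝ] ℝ) (c : ℝ)
    (h : ∀ t, f (x t) ≤ c) : ∀ y ∈ K, f y ≤ c := by
  have h1 : convexHull ℝ (range x) ⊆ {y | f y ≤ c} := by
    refine convexHull_min ?_ ?_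
    · rintro _ ⟨t, rfl⟩
      exact h t
    · exact convex_halfSpace_le f.isLinear c
  have h2 : K ⊆ {y | f y ≤ c} :=
    closure_minimal h1 (isClosed_le f.continuous continuous_const)
  exact fun y hy => h2 hy

lemma K_closed : IsClosed K := isClosed_closure

lemma K_convex : Convex ℝ K := (convex_convexHull ℝ _).closure

lemma K_bounded : Bornology.IsBounded K := by
  have h : K ⊆ Metric.closedBall 0 1 := by
    refine closure_minimal (convexHull_min ?_ (convex_closedBall 0 1)) Metric.isClosed_closedBall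
    rintro _ ⟨t, rfl⟩
    rw [mem_closedBall_zero_iff]
    exact norm_x_le t
  exact Metric.isBounded_closedBall.subset h

lemma fresh_eq (f : Xb →L[ℝ] ℝ) (t : T) (b : L)
    (hb : ∀ a ∈ t.1, a < b) (hf : ∀ g : Xb,
      (∀ u, g u ≠ 0 → Ext (child t b) u) → f g = 0) : f (x (child t b)) = f (x t) := by
  have h1 : f (x (child t b) - x t) = 0 := by
    apply hf
    intro u hu
    have h2 := supp_sub (ext_child t b hb) u hu
    rw [sub_val, x_apply, x_apply] at hu
    have h3 : ¬ Ext u t := fun h => h2.2 (h.antisymm h2.1)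
    rw [if_neg h3] at hu
    have h4 : Ext u (child t b) := by
      by_contra h
      rw [if_neg h] at hu
      exact hu (sub_self _)
    -- `u` lies strictly between `t` and its child
    have h5 : b ∈ u.1 := by
      by_contra hbu
      apply h2.2
      refine Subtype.ext (Subset.antisymm ?_ h2.1.1)
      intro a ha
      rcases h4.1 ha with rfl | h
      · exact absurd ha hbu
      · exact h
    refine ⟨?_, ?_⟩
    · intro a ha
      rcases ha with rfl | ha
      · exact h5
      · exact h2.1.1 ha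
    · intro c hc hc' a _
      exact absurd (h4.1 hc) hc'
  rw [map_sub] at h1
  linarith

lemma not_dentable : ∀ y ∈ K, y ∈ closure (convexHull ℝ (K \ Metric.ball y (1/2))) := by
  intro y hy
  by_contra hcon
  obtain ⟨f, u, hu1, hu2⟩ := geometric_hahn_banach_closed_point
    ((convex_convexHull ℝ (K \ Metric.ball y (1/2))).closure) isClosed_closure hcon
  have h1 : ∃ t, u < f (x t) := by
    by_contra h
    push Not at h
    exact absurd (K_subset_halfspace f u h y hy) (not_le.mpr hu2)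
  obtain ⟨t, ht⟩ := h1
  obtain ⟨b, hb, hfb⟩ := exists_fresh f t
  have h2 : f (x (child t b)) = f (x t) := fresh_eq f t b hb hfb
  have hball : ∀ z ∈ K, u < f z → z ∈ Metric.ball y (1/2) := by
    intro z hz hfz
    by_contra hz'
    exact absurd (hu1 z (subset_closure (subset_convexHull ℝ _ ⟨hz, hz'⟩))) (not_lt.mpr hfz.le)
  have h3 := hball _ (x_mem_K t) ht
  have h4 := hball _ (x_mem_K (child t b)) (by rw [h2]; exact ht)
  have h5 : dist (x (child t b)) (x t) < 1 := by
    have := dist_triangle_right (x (child t b)) (x t) y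
    rw [Metric.mem_ball] at h3 h4
    linarith
  have h6 : ‖(x (child t b) - x t) (child t b)‖ ≤ dist (x (child t b)) (x t) := by
    rw [dist_eq_norm]
    exact norm_val_le _ _
  rw [sub_val, x_apply, x_apply, if_pos (Ext.refl _), if_neg (fun h =>
    child_ne t b hb (h.antisymm (ext_child t b hb)))] at h6
  norm_num at h6
  linarith

/-- the open dense sets -/
def O (n : ℕ) : Set (Xb →L[ℝ] ℝ) :=
  {f | ∃ t : T, (∃ c > 0, ∀ s, ¬ Ext t s → f (x s) ≤ f (x t) - c) ∧
    ∃ η < 1/((n:ℝ)+1), ∀ g : Xb,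
      (∀ u, g u ≠ 0 → Ext t u ∧ u ≠ t) → |f g| ≤ η * ‖g‖}

lemma isOpen_O (n : ℕ) : IsOpen (O n) := by
  rw [Metric.isOpen_iff]
  rintro f ⟨t, ⟨c, hc, h1⟩, η, hη, h2⟩
  refine ⟨min (c/4) ((1/((n:ℝ)+1) - η)/2), lt_min (by positivity) (by linarith), ?_⟩
  intro f' hf'
  rw [Metric.mem_ball, dist_eq_norm] at hf'
  have hd1 : ‖f' - f‖ < c/4 := lt_of_lt_of_le hf' (min_le_left _ _)
  have hd2 : ‖f' - f‖ < (1/((n:ℝ)+1) - η)/2 := lt_of_lt_of_le hf' (min_le_right _ _)
  have hx : ∀ s, |f' (x s) - f (x s)| ≤ c/4 := by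
    intro s
    have h3 : |(f' - f) (x s)| ≤ ‖f' - f‖ * ‖x s‖ := (f' - f).le_opNorm (x s)
    have h4 : ‖f' - f‖ * ‖x s‖ ≤ ‖f' - f‖ * 1 :=
      mul_le_mul_of_nonneg_left (norm_x_le s) (norm_nonneg (f' - f))
    have h5 : (f' - f) (x s) = f' (x s) - f (x s) := rfl
    rw [h5] at h3
    linarith
  refine ⟨t, ⟨c/2, by positivity, ?_⟩, (η + 1/((n:ℝ)+1))/2, by linarith, ?_⟩
  · intro s hs
    have h3 := h1 s hs
    have h4 := abs_le.mp (hx s)
    have h5 := abs_le.mp (hx t)
    linarith [h4.2, h5.1]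
  · intro g hg
    have h3 := h2 g hg
    have h4 : |(f' - f) g| ≤ ‖f' - f‖ * ‖g‖ := (f' - f).le_opNorm g
    have h5 : (f' - f) g = f' g - f g := rfl
    rw [h5] at h4
    have h6 : ‖f' - f‖ * ‖g‖ ≤ (1/((n:ℝ)+1) - η)/2 * ‖g‖ :=
      mul_le_mul_of_nonneg_right hd2.le (norm_nonneg g)
    have h7 : |f' g| ≤ |f g| + |f' g - f g| := by
      have := abs_add_le (f g) (f' g - f g)
      rw [add_sub_cancel] at this
      exact this
    calc |f' g| ≤ |f g| + |f' g - f g| := h7
      _ ≤ η * ‖g‖ + (1/((n:ℝ)+1) - η)/2 * ‖g‖ := by linarith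
      _ = (η + 1/((n:ℝ)+1))/2 * ‖g‖ := by ring

lemma dense_O (n : ℕ) : Dense (O n) := by
  rw [Metric.dense_iff]
  intro f r hr
  set ρ : ℝ := r/2 with hρ
  have hρ0 : 0 < ρ := by rw [hρ]; positivity
  set M : ℝ := sSup (range fun s => f (x s)) with hM
  have hbd : BddAbove (range fun s => f (x s)) := by
    refine ⟨‖f‖, ?_⟩
    rintro _ ⟨s, rfl⟩
    calc f (x s) ≤ |f (x s)| := le_abs_self _
      _ ≤ ‖f‖ * ‖x s‖ := f.le_opNorm _
      _ ≤ ‖f‖ * 1 := mul_le_mul_of_nonneg_left (norm_x_le s) (norm_nonneg f)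
      _ = ‖f‖ := mul_one _
  have hne : (range fun s => f (x s)).Nonempty := ⟨_, ⟨∅, countable_empty⟩, rfl⟩
  obtain ⟨_, ⟨t, rfl⟩, ht⟩ := exists_lt_of_lt_csSup hne (show M - ρ/2 < sSup _ by linarith)
  obtain ⟨b, hb, hfb⟩ := exists_fresh f t
  have h2 : f (x (child t b)) = f (x t) := fresh_eq f t b hb hfb
  refine ⟨f + ρ • ev (child t b), ?_, child t b, ⟨ρ/2, by positivity, ?_⟩, 0, by positivity, ?_⟩
  · rw [Metric.mem_ball, dist_eq_norm, add_sub_cancel_left, norm_smul, Real.norm_of_nonneg hρ0.le]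
    have := norm_ev_le (child t b)
    nlinarith
  · intro s hs
    have e1 : (f + ρ • ev (child t b)) (x s) = f (x s) + ρ * (x s (child t b)) := rfl
    have e2 : (f + ρ • ev (child t b)) (x (child t b)) =
      f (x (child t b)) + ρ * (x (child t b) (child t b)) := rfl
    rw [e1, e2, x_apply, x_apply, if_neg hs, if_pos (Ext.refl _), h2]
    have h3 : f (x s) ≤ M := le_csSup hbd ⟨s, rfl⟩
    have h4 : M - ρ/2 < f (x t) := ht
    linarith
  · intro g hg
    have e1 : (f + ρ • ev (child t b)) g = f g + ρ * (g (child t b)) := rfl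
    have h3 : f g = 0 := hfb g fun u hu => (hg u hu).1
    have h4 : g (child t b) = 0 := by
      by_contra h
      exact (hg _ h).2 rfl
    rw [e1, h3, h4]
    simp

lemma attains_of_mem (f : Xb →L[ℝ] ℝ) (hf : ∀ n, f ∈ O n) :
    ∃ y ∈ K, ∀ z ∈ K, f z ≤ f y := by
  choose t hc hη using hf
  choose c hc0 hc using hc
  choose η hη1 hη2 using hη
  have hcomp : ∀ n m, Ext (t n) (t m) ∨ Ext (t m) (t n) := by
    intro n m
    by_contra h
    push Not at h
    have h1 := hc n (t m) h.1
    have h2 := hc m (t n) h.2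
    linarith [hc0 n, hc0 m]
  let tinf : T := ⟨⋃ n, (t n).1, countable_iUnion fun n => (t n).2⟩
  have hext : ∀ n, Ext (t n) tinf := by
    intro n
    refine ⟨subset_iUnion (fun n => (t n).1) n, ?_⟩
    intro b hb hbn a ha
    obtain ⟨m, hm⟩ := mem_iUnion.mp hb
    rcases hcomp n m with h | h
    · exact h.2 b hm hbn a ha
    · exact absurd (h.1 hm) hbn
  have hest : ∀ n s, Ext (t n) s → |f (x s) - f (x (t n))| ≤ 2/((n:ℝ)+1) := by
    intro n s hs
    have h1 := hη2 n (x s - x (t n)) (supp_sub hs)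
    rw [map_sub] at h1
    have h2 : ‖x s - x (t n)‖ ≤ 2 := by
      have := norm_sub_le (x s) (x (t n))
      linarith [norm_x_le s, norm_x_le (t n)]
    have h3 : η n * ‖x s - x (t n)‖ ≤ 1/((n:ℝ)+1) * ‖x s - x (t n)‖ :=
      mul_le_mul_of_nonneg_right (hη1 n).le (norm_nonneg _)
    have h4 : 1/((n:ℝ)+1) * ‖x s - x (t n)‖ ≤ 1/((n:ℝ)+1) * 2 :=
      mul_le_mul_of_nonneg_left h2 (by positivity)
    calc |f (x s) - f (x (t n))| ≤ 1/((n:ℝ)+1) * 2 := by linarith
      _ = 2/((n:ℝ)+1) := by ring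
  refine ⟨x tinf, x_mem_K _, K_subset_halfspace f _ fun s => ?_⟩
  have key : ∀ n : ℕ, f (x s) - f (x tinf) ≤ 4/((n:ℝ)+1) := by
    intro n
    have h1 := (abs_le.mp (hest n tinf (hext n))).1
    have hpos : 0 ≤ 2/((n:ℝ)+1) := by positivity
    have h4 : 4/((n:ℝ)+1) = 2/((n:ℝ)+1) + 2/((n:ℝ)+1) := by ring
    by_cases hs : Ext (t n) s
    · have h2 := (abs_le.mp (hest n s hs)).2
      linarith
    · have h2 := hc n s hs
      linarith [hc0 n]
  have hlim : Tendsto (fun n : ℕ => 4/((n:ℝ)+1)) atTop (𝓝 0) := by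
    have h1 := (tendsto_one_div_add_atTop_nhds_zero_nat (𝕜 := ℝ)).const_mul 4
    rw [mul_zero] at h1
    refine h1.congr fun n => ?_
    ring
  have := ge_of_tendsto' hlim key
  linarith

lemma not_meagre : ¬ IsMeagre {f : Xb →L[ℝ] ℝ |
    ∃ y ∈ K, ∀ z ∈ K, f z ≤ f y} := by
  apply not_isMeagre_of_mem_residual
  have h1 : (⋂ n, O n) ∈ residual (Xb →L[ℝ] ℝ) := by
    rw [countable_iInter_mem]
    intro n
    exact residual_of_dense_open (isOpen_O n) (dense_O n)
  refine mem_of_superset h1 ?_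
  intro f hf
  rw [mem_iInter] at hf
  exact attains_of_mem f hf

end Pool.Agent.H312Bourgin
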