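import Mathlib

set_option autoImplicit false

open Set Filter Topology Metric

namespace Pool.Agent.H312Support

variable {X : Type*} [NormedAddCommGroup X] [NormedSpace ℝ X]

/-- support functionals of the norm at `x` -/
def F (x : X) : Set (X →L[ℝ] ℝ) := {f | ‖f‖ ≤ 1 ∧ f x = ‖x‖}

lemma F_le {x : X} {f : X →L[ℝ] ℝ} (hf : f ∈ F x) (y : X) : f y ≤ ‖y‖ := by
  have h1 := f.le_opNorm y
  have h2 : ‖f‖ * ‖y‖ ≤ 1 * ‖y‖ := mul_le_mul_of_nonneg_right hf.1 (norm_nonneg y)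
  have h3 := le_abs_self (f y)
  rw [Real.norm_eq_abs] at h1
  linarith

lemma F_abs_le {x : X} {f : X →L[ℝ] ℝ} (hf : f ∈ F x) (y : X) : |f y| ≤ ‖y‖ := by
  have h1 := f.le_opNorm y
  have h2 : ‖f‖ * ‖y‖ ≤ 1 * ‖y‖ := mul_le_mul_of_nonneg_right hf.1 (norm_nonneg y)
  rw [Real.norm_eq_abs] at h1
  linarith

lemma F_nonempty (x : X) : (F x).Nonempty := by
  obtain ⟨g, hg1, hg2⟩ := exists_dual_vector'' ℝ x
  exact ⟨g, hg1, by simpa using hg2⟩

/-- Cluster lemma along an ultrafilter -/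
lemma cluster {ι : Type*} (l : Ultrafilter ι) (x : ι → X) (f : ι → X →L[ℝ] ℝ) (x0 : X)
    (hx : Tendsto x l (𝓝 x0)) (hf : ∀ᶠ i in (l : Filter ι), f i ∈ F (x i)) :
    ∃ g ∈ F x0, ∀ v, Tendsto (fun i => f i v) l (𝓝 (g v)) := by
  have hK := WeakDual.isCompact_closedBall (𝕜 := ℝ) (E := X) 0 1
  have hmem : (l.map (fun i => StrongDual.toWeakDual (f i)) : Filter (WeakDual ℝ X)) ≤
      𝓟 (WeakDual.toStrongDual ⁻¹' closedBall (0 : StrongDual ℝ X) 1) := by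
    rw [le_principal_iff]
    change ∀ᶠ i in (l : Filter ι), _
    filter_upwards [hf] with i hi
    simpa using hi.1
  obtain ⟨g, hg, hlg⟩ := hK.ultrafilter_le_nhds _ hmem
  have hev : ∀ v, Tendsto (fun i => f i v) l (𝓝 (g v)) := by
    intro v
    have h1 : Tendsto (fun x : WeakDual ℝ X => x v) (𝓝 g) (𝓝 (g v)) :=
      (WeakDual.eval_continuous (𝕜 := ℝ) v).continuousAt
    have h2 : Tendsto (fun i => StrongDual.toWeakDual (f i)) l (𝓝 g) := hlg
    exact h1.comp h2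
  refine ⟨WeakDual.toStrongDual g, ⟨?_, ?_⟩, hev⟩
  · simpa using hg
  · have h1 : Tendsto (fun i => f i (x i)) l (𝓝 (‖x0‖)) := by
      have : Tendsto (fun i => ‖x i‖) l (𝓝 ‖x0‖) := hx.norm
      refine this.congr' ?_
      filter_upwards [hf] with i hi
      exact hi.2.symm
    have h2 : Tendsto (fun i => f i (x i) - f i x0) l (𝓝 0) := by
      have h3 : Tendsto (fun i => ‖x i - x0‖) l (𝓝 0) := by
        have := (hx.sub_const x0).norm
        simpa using this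
      refine squeeze_zero_norm' ?_ h3
      filter_upwards [hf] with i hi
      rw [← map_sub, Real.norm_eq_abs]
      exact F_abs_le hi _
    have h4 : Tendsto (fun i => f i x0) l (𝓝 (‖x0‖ - 0)) := by
      have := h1.sub h2
      simpa using this
    rw [sub_zero] at h4
    exact tendsto_nhds_unique (hev x0) h4

lemma isClosed_E (h : X) (ε : ℝ) :
    IsClosed {x : X | ∃ f₁ ∈ F x, ∃ f₂ ∈ F x, ε ≤ f₁ h - f₂ h} := by
  rw [isClosed_iff_ultrafilter]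
  intro x u hux hu
  have hu' : ∀ᶠ y in (u : Filter X), ∃ f₁ ∈ F y, ∃ f₂ ∈ F y, ε ≤ f₁ h - f₂ h := hu
  have hch : ∀ y : X, ∃ p : (X →L[ℝ] ℝ) × (X →L[ℝ] ℝ),
      (∃ f₁ ∈ F y, ∃ f₂ ∈ F y, ε ≤ f₁ h - f₂ h) → (p.1 ∈ F y ∧ p.2 ∈ F y ∧ ε ≤ p.1 h - p.2 h) := by
    intro y
    by_cases hy : ∃ f₁ ∈ F y, ∃ f₂ ∈ F y, ε ≤ f₁ h - f₂ h
    · obtain ⟨f₁, h1, f₂, h2, h3⟩ := hy
      exact ⟨(f₁, f₂), fun _ => ⟨h1, h2, h3⟩⟩
    · exact ⟨(0, 0), fun h => absurd h hy⟩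
  choose p hp using hch
  have hx : Tendsto (fun y : X => y) u (𝓝 x) := hux
  have hE : ∀ᶠ y in (u : Filter X), (p y).1 ∈ F y ∧ (p y).2 ∈ F y ∧ ε ≤ (p y).1 h - (p y).2 h := by
    filter_upwards [hu'] with y hy using hp y hy
  obtain ⟨g₁, hg₁, hl₁⟩ := cluster u (fun y => y) (fun y => (p y).1) x hx
    (hE.mono fun y hy => hy.1)
  obtain ⟨g₂, hg₂, hl₂⟩ := cluster u (fun y => y) (fun y => (p y).2) x hx
    (hE.mono fun y hy => hy.2.1)
  refine ⟨g₁, hg₁, g₂, hg₂, ?_⟩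
  exact ge_of_tendsto ((hl₁ h).sub (hl₂ h)) (hE.mono fun y hy => hy.2.2)

/-- pointwise limits of functionals in a norm ball stay in the norm ball -/
lemma norm_sub_le_of_tendsto {ι : Type*} (l : Ultrafilter ι) (f g : ι → X →L[ℝ] ℝ)
    (f0 g0 : X →L[ℝ] ℝ) (hf : ∀ v, Tendsto (fun i => f i v) l (𝓝 (f0 v)))
    (hg : ∀ v, Tendsto (fun i => g i v) l (𝓝 (g0 v))) (r : ℝ) (hr : 0 ≤ r)
    (h : ∀ᶠ i in (l : Filter ι), ‖f i - g i‖ ≤ r) : ‖f0 - g0‖ ≤ r := by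
  refine ContinuousLinearMap.opNorm_le_bound _ hr fun v => ?_
  have h1 : Tendsto (fun i => ‖(f i - g i) v‖) l (𝓝 ‖(f0 - g0) v‖) := by
    have := ((hf v).sub (hg v)).norm
    simpa using this
  refine le_of_tendsto h1 ?_
  filter_upwards [h] with i hi
  exact (ContinuousLinearMap.le_opNorm _ _).trans (mul_le_mul_of_nonneg_right hi (norm_nonneg v))

lemma isClosed_A (d : X →L[ℝ] ℝ) (r : ℝ) (hr : 0 ≤ r) :
    IsClosed {x : X | ∃ f ∈ F x, ‖f - d‖ ≤ r} := by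
  rw [isClosed_iff_ultrafilter]
  intro x u hux hu
  have hu' : ∀ᶠ y in (u : Filter X), ∃ f ∈ F y, ‖f - d‖ ≤ r := hu
  have hch : ∀ y : X, ∃ p : (X →L[ℝ] ℝ), (∃ f ∈ F y, ‖f - d‖ ≤ r) → (p ∈ F y ∧ ‖p - d‖ ≤ r) := by
    intro y
    by_cases hy : ∃ f ∈ F y, ‖f - d‖ ≤ r
    · obtain ⟨f, h1, h2⟩ := hy
      exact ⟨f, fun _ => ⟨h1, h2⟩⟩
    · exact ⟨0, fun h => absurd h hy⟩
  choose p hp using hch
  have hx : Tendsto (fun y : X => y) u (𝓝 x) := hux
  have hE : ∀ᶠ y in (u : Filter X), p y ∈ F y ∧ ‖p y - d‖ ≤ r := by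
    filter_upwards [hu'] with y hy using hp y hy
  obtain ⟨g, hg, hl⟩ := cluster u (fun y => y) p x hx (hE.mono fun y hy => hy.1)
  refine ⟨g, hg, ?_⟩
  exact norm_sub_le_of_tendsto u p (fun _ => d) g d hl (fun v => tendsto_const_nhds) r hr
    (hE.mono fun y hy => hy.2)

/-- the relation (some pair of support functionals is `r`-close) is closed -/
lemma isClosed_R (r : ℝ) (hr : 0 ≤ r) :
    IsClosed {p : X × X | ∃ f ∈ F p.1, ∃ g ∈ F p.2, ‖f - g‖ ≤ r} := by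
  rw [isClosed_iff_ultrafilter]
  intro x u hux hu
  have hu' : ∀ᶠ y in (u : Filter (X × X)), ∃ f ∈ F y.1, ∃ g ∈ F y.2, ‖f - g‖ ≤ r := hu
  have hch : ∀ y : X × X, ∃ p : (X →L[ℝ] ℝ) × (X →L[ℝ] ℝ),
      (∃ f ∈ F y.1, ∃ g ∈ F y.2, ‖f - g‖ ≤ r) → (p.1 ∈ F y.1 ∧ p.2 ∈ F y.2 ∧ ‖p.1 - p.2‖ ≤ r) := by
    intro y
    by_cases hy : ∃ f ∈ F y.1, ∃ g ∈ F y.2, ‖f - g‖ ≤ r
    · obtain ⟨f, h1, g, h2, h3⟩ := hy
      exact ⟨(f, g), fun _ => ⟨h1, h2, h3⟩⟩
    · exact ⟨(0, 0), fun h => absurd h hy⟩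
  choose p hp using hch
  have hx : Tendsto (fun y : X × X => y) u (𝓝 x) := hux
  have hx1 : Tendsto (fun y : X × X => y.1) u (𝓝 x.1) := (continuous_fst.tendsto x).comp hx
  have hx2 : Tendsto (fun y : X × X => y.2) u (𝓝 x.2) := (continuous_snd.tendsto x).comp hx
  have hE : ∀ᶠ y in (u : Filter (X × X)),
      (p y).1 ∈ F y.1 ∧ (p y).2 ∈ F y.2 ∧ ‖(p y).1 - (p y).2‖ ≤ r := by
    filter_upwards [hu'] with y hy using hp y hy
  obtain ⟨g₁, hg₁, hl₁⟩ := cluster u (fun y : X × X => y.1) (fun y => (p y).1) x.1 hx1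
    (hE.mono fun y hy => hy.1)
  obtain ⟨g₂, hg₂, hl₂⟩ := cluster u (fun y : X × X => y.2) (fun y => (p y).2) x.2 hx2
    (hE.mono fun y hy => hy.2.1)
  exact ⟨g₁, hg₁, g₂, hg₂, norm_sub_le_of_tendsto u _ _ g₁ g₂ hl₁ hl₂ r hr
    (hE.mono fun y hy => hy.2.2)⟩

/-- If the support functional at `x` is unique, the norm is line differentiable at `x`. -/
lemma hasLineDeriv_of_unique (x : X) (f : X →L[ℝ] ℝ) (hf : f ∈ F x) (hu : ∀ g ∈ F x, g = f)
    (v : X) : HasLineDerivAt ℝ (fun y : X => ‖y‖) (f v) x v := by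
  rw [HasLineDerivAt, hasDerivAt_iff_tendsto_slope_zero]
  choose φ hφ using (fun y : X => F_nonempty y)
  have hlim : Tendsto (fun t : ℝ => φ (x + t • v) v) (𝓝 0) (𝓝 (f v)) := by
    rw [tendsto_iff_ultrafilter]
    intro u hu0
    have hx : Tendsto (fun t : ℝ => x + t • v) u (𝓝 x) := by
      have h1 : Tendsto (fun t : ℝ => x + t • v) (𝓝 0) (𝓝 (x + (0:ℝ) • v)) :=
        (Continuous.tendsto (by fun_prop) 0)
      rw [zero_smul, add_zero] at h1
      exact h1.mono_left hu0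
    obtain ⟨g, hg, hl⟩ := cluster u (fun t : ℝ => x + t • v) (fun t => φ (x + t • v)) x hx
      (Eventually.of_forall fun t => hφ _)
    rw [← hu g hg]
    exact hl v
  have hlim' : Tendsto (fun t : ℝ => |φ (x + t • v) v - f v|) (𝓝[≠] 0) (𝓝 0) := by
    have := ((hlim.mono_left nhdsWithin_le_nhds).sub_const (f v)).abs (l := 𝓝[≠] (0:ℝ))
    simpa using this
  rw [← tendsto_sub_nhds_zero_iff]
  refine squeeze_zero_norm' ?_ hlim'
  filter_upwards [self_mem_nhdsWithin] with t ht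
  have ht : t ≠ 0 := ht
  rw [Real.norm_eq_abs]
  have e1 : φ (x + t • v) (x + t • v) = ‖x + t • v‖ := (hφ _).2
  have e2 : φ (x + t • v) x ≤ ‖x‖ := F_le (hφ _) x
  have e3 : f (x + t • v) ≤ ‖x + t • v‖ := F_le hf _
  have e4 : f x = ‖x‖ := hf.2
  rw [map_add, map_smul, smul_eq_mul] at e1 e3
  have e5 : t * f v ≤ ‖x + t • v‖ - ‖x‖ := by linarith
  have e6 : ‖x + t • v‖ - ‖x‖ ≤ t * φ (x + t • v) v := by linarith
  simp only [zero_add, zero_smul, add_zero, smul_eq_mul]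
  rcases lt_or_gt_of_ne ht with h | h
  · have h5 : t⁻¹ * (‖x + t • v‖ - ‖x‖) ≤ f v := by
      have h9 := mul_le_mul_of_nonpos_left e5 (inv_nonpos.mpr h.le)
      rwa [inv_mul_cancel_left₀ ht] at h9
    have h6 : φ (x + t • v) v ≤ t⁻¹ * (‖x + t • v‖ - ‖x‖) := by
      have h9 := mul_le_mul_of_nonpos_left e6 (inv_nonpos.mpr h.le)
      rwa [inv_mul_cancel_left₀ ht] at h9
    rw [abs_le]
    have h7 := le_abs_self (φ (x + t • v) v - f v)
    have h8 := neg_abs_le (φ (x + t • v) v - f v)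
    constructor <;> linarith
  · have h5 : f v ≤ t⁻¹ * (‖x + t • v‖ - ‖x‖) := by
      rw [le_inv_mul_iff₀ h]; exact e5
    have h6 : t⁻¹ * (‖x + t • v‖ - ‖x‖) ≤ φ (x + t • v) v := by
      rw [inv_mul_le_iff₀ h]; exact e6
    rw [abs_le]
    have h7 := le_abs_self (φ (x + t • v) v - f v)
    have h8 := neg_abs_le (φ (x + t • v) v - f v)
    constructor <;> linarith

/-- Conversely, line differentiability forces uniqueness of the support functional. -/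
lemma unique_of_hasLineDeriv (x : X) (f : X →L[ℝ] ℝ)
    (h : ∀ v : X, HasLineDerivAt ℝ (fun y : X => ‖y‖) (f v) x v) (g : X →L[ℝ] ℝ) (hg : g ∈ F x) :
    g = f := by
  have key : ∀ v, g v ≤ f v := by
    intro v
    have h1 := h v
    rw [HasLineDerivAt, hasDerivAt_iff_tendsto_slope_zero] at h1
    have h2 : Tendsto (fun t : ℝ => t⁻¹ • (‖x + (0 + t) • v‖ - ‖x + (0:ℝ) • v‖)) (𝓝[>] 0)
        (𝓝 (f v)) := h1.mono_left (nhdsWithin_mono _ (fun t ht => ne_of_gt ht))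
    refine ge_of_tendsto h2 ?_
    filter_upwards [self_mem_nhdsWithin] with t ht
    have ht : 0 < t := ht
    have e3 : g (x + t • v) ≤ ‖x + t • v‖ := F_le hg _
    have e4 : g x = ‖x‖ := hg.2
    rw [map_add, map_smul, smul_eq_mul] at e3
    simp only [zero_add, zero_smul, add_zero, smul_eq_mul]
    rw [le_inv_mul_iff₀ ht]
    linarith
  ext v
  refine le_antisymm (key v) ?_
  have := key (-v)
  rw [map_neg, map_neg] at this
  linarith


/-- Simons-type lemma for a decreasing sequence of bounded closed convex sets. -/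
lemma simons [CompleteSpace X] (C : ℕ → Set X) (hconv : ∀ n, Convex ℝ (C n))
    (hcl : ∀ n, IsClosed (C n)) (hne : ∀ n, (C n).Nonempty) (hanti : Antitone C)
    (M : ℝ) (hM : ∀ v ∈ C 0, ‖v‖ ≤ M) (β : ℝ) (hβ : ∀ v ∈ C 0, β ≤ ‖v‖)
    (B : Set (X →L[ℝ] ℝ)) (hB1 : ∀ b ∈ B, ‖b‖ ≤ 1) (hB : ∀ v ∈ C 0, ∃ b ∈ B, b v = ‖v‖)
    (ε : ℝ) (hε : 0 < ε) :
    ∃ b ∈ B, ∀ n, ∃ w ∈ C n, β - 2 * ε ≤ b w := by
  -- selection
  have hsel : ∀ (n : ℕ) (U : X), ∃ v ∈ C n, ∀ w ∈ C n,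
      ‖U + (2 * (1/2 : ℝ)^n) • v‖ ≤ ‖U + (2 * (1/2 : ℝ)^n) • w‖ + ε * (1/4 : ℝ)^n := by
    intro n U
    set S : Set ℝ := (fun v => ‖U + (2 * (1/2 : ℝ)^n) • v‖) '' C n with hS
    have hSne : S.Nonempty := (hne n).image _
    have hSbd : BddBelow S := ⟨0, by rintro _ ⟨v, _, rfl⟩; exact norm_nonneg _⟩
    have hpos : 0 < ε * (1/4 : ℝ)^n := by positivity
    obtain ⟨_, ⟨v, hv, rfl⟩, hlt⟩ := Real.lt_sInf_add_pos hSne hpos
    refine ⟨v, hv, fun w hw => ?_⟩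
    have h1 : sInf S ≤ ‖U + (2 * (1/2 : ℝ)^n) • w‖ := csInf_le hSbd ⟨w, hw, rfl⟩
    have h2 : ‖U + (2 * (1/2 : ℝ)^n) • v‖ < sInf S + ε * (1/4 : ℝ)^n := hlt
    linarith
  choose sel hselC hselm using hsel
  -- recursion
  obtain ⟨U, hU0, hU1⟩ : ∃ U : ℕ → X, U 0 = 0 ∧ ∀ n, U (n+1) = U n + (1/2 : ℝ)^n • sel n (U n) :=
    ⟨fun n => Nat.rec 0 (fun n U => U + (1/2 : ℝ)^n • sel n U) n, rfl, fun n => rfl⟩
  set V : ℕ → X := fun n => sel n (U n) with hV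
  have hVC : ∀ n, V n ∈ C n := fun n => hselC n (U n)
  have hVm : ∀ n, ∀ w ∈ C n,
      ‖U n + (2 * (1/2 : ℝ)^n) • V n‖ ≤ ‖U n + (2 * (1/2 : ℝ)^n) • w‖ + ε * (1/4 : ℝ)^n :=
    fun n w hw => hselm n (U n) w hw
  have hUs : ∀ n, U (n+1) = U n + (1/2 : ℝ)^n • V n := hU1
  have hVM : ∀ n, ‖V n‖ ≤ M := fun n => hM _ (hanti (Nat.zero_le n) (hVC n))
  set a : ℕ → ℝ := fun n => ‖U n + (2 * (1/2 : ℝ)^n) • V n‖ with ha
  -- a n ≤ a (n+1) + e n
  have hstep : ∀ n, a n ≤ a (n+1) + ε * (1/4 : ℝ)^n := by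
    intro n
    have hmem : (1/2 : ℝ) • V n + (1/2 : ℝ) • V (n+1) ∈ C n :=
      hconv n (hVC n) (hanti (Nat.le_succ n) (hVC (n+1))) (by norm_num) (by norm_num) (by norm_num)
    have h1 := hVm n _ hmem
    have h2 : U n + (2 * (1/2 : ℝ)^n) • ((1/2 : ℝ) • V n + (1/2 : ℝ) • V (n+1)) =
        U (n+1) + (2 * (1/2 : ℝ)^(n+1)) • V (n+1) := by
      rw [hUs n, pow_succ]
      module
    rw [h2] at h1
    exact h1
  -- ‖U (n+1)‖ ≤ ...
  have hUn : ∀ n, ‖U (n+1)‖ ≤ (1/2) * ‖U n‖ + (1/2) * a n := by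
    intro n
    have h1 : U (n+1) = (1/2 : ℝ) • U n + (1/2 : ℝ) • (U n + (2 * (1/2 : ℝ)^n) • V n) := by
      rw [hUs n]
      module
    calc ‖U (n+1)‖ = ‖(1/2 : ℝ) • U n + (1/2 : ℝ) • (U n + (2 * (1/2 : ℝ)^n) • V n)‖ := by rw [h1]
      _ ≤ ‖(1/2 : ℝ) • U n‖ + ‖(1/2 : ℝ) • (U n + (2 * (1/2 : ℝ)^n) • V n)‖ := norm_add_le _ _
      _ = (1/2) * ‖U n‖ + (1/2) * a n := by
        rw [norm_smul, norm_smul]
        simp [ha]
  have hd : ∀ n : ℕ, 2 * β - 4 * ε + 4 * ε * (1/2 : ℝ)^n ≤ 2^n * (a n - ‖U n‖) := by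
    intro n
    induction n with
    | zero =>
      have h1 : a 0 = 2 * ‖V 0‖ := by
        simp only [ha, hU0, pow_zero, mul_one, zero_add, norm_smul]
        norm_num
      have h2 := hβ _ (hVC 0)
      rw [h1, hU0]
      simp only [pow_zero, norm_zero]
      linarith
    | succ n ih =>
      have h1 := hstep n
      have h2 := hUn n
      have h3 : a (n+1) - ‖U (n+1)‖ ≥ (1/2) * (a n - ‖U n‖) - ε * (1/4 : ℝ)^n := by linarith
      have h4 : (2:ℝ)^(n+1) * (a (n+1) - ‖U (n+1)‖) ≥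
          (2:ℝ)^(n+1) * ((1/2) * (a n - ‖U n‖) - ε * (1/4 : ℝ)^n) :=
        mul_le_mul_of_nonneg_left h3 (by positivity)
      have h5 : (2:ℝ)^(n+1) * ((1/2) * (a n - ‖U n‖) - ε * (1/4 : ℝ)^n) =
          2^n * (a n - ‖U n‖) - 2 * ε * (1/2 : ℝ)^n := by
        have h6 : (2:ℝ)^n * (1/4 : ℝ)^n = (1/2 : ℝ)^n := by
          rw [← mul_pow]; norm_num
        rw [pow_succ, ← h6]
        ring
      rw [pow_succ (1/2 : ℝ) n]
      linarith
  -- Cauchy
  have hM0 : 0 ≤ M := (norm_nonneg _).trans (hVM 0)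
  have hcau : CauchySeq U := by
    refine cauchySeq_of_le_geometric (1/2 : ℝ) M (by norm_num) fun n => ?_
    rw [dist_eq_norm, hUs n]
    have : U n - (U n + (1/2 : ℝ)^n • V n) = -((1/2 : ℝ)^n • V n) := by abel
    rw [this, norm_neg, norm_smul]
    have h1 : ‖(1/2 : ℝ)^n‖ = (1/2 : ℝ)^n := by
      rw [Real.norm_eq_abs, abs_of_nonneg (by positivity)]
    rw [h1, mul_comm]
    exact mul_le_mul_of_nonneg_right (hVM n) (by positivity)
  obtain ⟨Vt, hVt⟩ := cauchySeq_tendsto_of_complete hcau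
  -- tails
  have htail : ∀ n k : ℕ, ∀ p ∈ C n,
      ((2:ℝ)^n / 2) • (U (n+k) - U n) + ((2:ℝ)^n * (1/2 : ℝ)^(n+k)) • p ∈ C n := by
    intro n k
    induction k with
    | zero =>
      intro p hp
      have h1 : (2:ℝ)^n * (1/2 : ℝ)^n = 1 := by rw [← mul_pow]; norm_num
      simp only [add_zero, sub_self, smul_zero, zero_add, h1, one_smul]
      exact hp
    | succ k ih =>
      intro p hp
      have hmem : (1/2 : ℝ) • V (n+k) + (1/2 : ℝ) • p ∈ C n :=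
        hconv n (hanti (Nat.le_add_right n k) (hVC (n+k))) hp (by norm_num) (by norm_num)
          (by norm_num)
      have h1 := ih _ hmem
      have h2 : ((2:ℝ)^n / 2) • (U (n+(k+1)) - U n) + ((2:ℝ)^n * (1/2 : ℝ)^(n+(k+1))) • p =
          ((2:ℝ)^n / 2) • (U (n+k) - U n) + ((2:ℝ)^n * (1/2 : ℝ)^(n+k)) •
            ((1/2 : ℝ) • V (n+k) + (1/2 : ℝ) • p) := by
        rw [← add_assoc, hUs (n+k), pow_succ]
        module
      rw [h2]
      exact h1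
  have hW : ∀ n : ℕ, ((2:ℝ)^n / 2) • (Vt - U n) ∈ C n := by
    intro n
    obtain ⟨p, hp⟩ := hne n
    have hlim : Tendsto (fun k : ℕ => ((2:ℝ)^n / 2) • (U (n+k) - U n) +
        ((2:ℝ)^n * (1/2 : ℝ)^(n+k)) • p) atTop (𝓝 (((2:ℝ)^n / 2) • (Vt - U n) +
          ((2:ℝ)^n * 0) • p)) := by
      have h1 : Tendsto (fun k : ℕ => n + k) atTop atTop :=
        tendsto_atTop_mono (fun k => Nat.le_add_left k n) tendsto_id
      have h2 : Tendsto (fun k : ℕ => U (n+k)) atTop (𝓝 Vt) := hVt.comp h1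
      have h3 : Tendsto (fun k : ℕ => (1/2 : ℝ)^(n+k)) atTop (𝓝 0) :=
        (tendsto_pow_atTop_nhds_zero_of_lt_one (by norm_num) (by norm_num)).comp h1
      exact ((h2.sub_const (U n)).const_smul _).add ((h3.const_mul _).smul_const p)
    rw [mul_zero, zero_smul, add_zero] at hlim
    exact (hcl n).mem_of_tendsto hlim (Eventually.of_forall fun k => htail n k p hp)
  -- attaining functional
  obtain ⟨b, hbB, hb⟩ := hB _ (hW 0)
  have hbV : b Vt = ‖Vt‖ := by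
    rw [hU0, sub_zero, pow_zero, map_smul, norm_smul, smul_eq_mul] at hb
    have h1 : ‖(1 / 2 : ℝ)‖ = 1/2 := by rw [Real.norm_eq_abs, abs_of_nonneg (by norm_num)]
    rw [h1] at hb
    linarith
  refine ⟨b, hbB, fun n => ⟨_, hW n, ?_⟩⟩
  have h1 : U n + (2 * (1/2 : ℝ)^n) • (((2:ℝ)^n / 2) • (Vt - U n)) = Vt := by
    have h2 : (2 * (1/2 : ℝ)^n) * ((2:ℝ)^n / 2) = 1 := by
      have : (1/2 : ℝ)^n * (2:ℝ)^n = 1 := by rw [← mul_pow]; norm_num
      linear_combination this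
    rw [smul_smul, h2, one_smul]
    abel
  have h2 := hVm n _ (hW n)
  rw [h1] at h2
  have h2' : a n ≤ ‖Vt‖ + ε * (1/4 : ℝ)^n := h2
  have h3 : b (U n) ≤ ‖U n‖ := by
    have h4 := b.le_opNorm (U n)
    have h5 : ‖b‖ * ‖U n‖ ≤ 1 * ‖U n‖ := mul_le_mul_of_nonneg_right (hB1 b hbB) (norm_nonneg _)
    have h6 := le_abs_self (b (U n))
    rw [Real.norm_eq_abs] at h4
    linarith
  have h4 := hd n
  rw [map_smul, map_sub, hbV, smul_eq_mul]
  have h5 : (2:ℝ)^n * (a n - ‖U n‖) ≤ (2:ℝ)^n * (‖Vt‖ + ε * (1/4 : ℝ)^n - b (U n)) :=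
    mul_le_mul_of_nonneg_left (by linarith) (by positivity)
  have h6 : (2:ℝ)^n * (‖Vt‖ + ε * (1/4 : ℝ)^n - b (U n)) =
      (2:ℝ)^n * (‖Vt‖ - b (U n)) + ε * (1/2 : ℝ)^n := by
    have h6 : (2:ℝ)^n * (1/4 : ℝ)^n = (1/2 : ℝ)^n := by
      rw [← mul_pow]; norm_num
    rw [← h6]
    ring
  have h7 : 0 ≤ ε * (1/2 : ℝ)^n := by positivity
  linarith


/-- vectors in a finite codimensional subspace almost realising the distance to `Z` -/
lemma exists_vec (Z : Submodule ℝ (X →L[ℝ] ℝ)) (z : ℕ → X →L[ℝ] ℝ) (hz : ∀ i, z i ∈ Z)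
    (f : X →L[ℝ] ℝ) (r : ℝ) (hr : r < infDist f (Z : Set (X →L[ℝ] ℝ))) (n : ℕ) :
    ∃ w : X, ‖w‖ ≤ 1 ∧ (∀ i < n, z i w = 0) ∧ r ≤ f w := by
  by_contra hcon
  push Not at hcon
  have hr0 : 0 < r := by
    have := hcon 0 (by simp) (by simp)
    simpa using this
  set N : Submodule ℝ X := ⨅ i : Fin n, LinearMap.ker (z i : X →ₗ[ℝ] ℝ) with hN
  have hNmem : ∀ v ∈ N, ∀ i < n, z i v = 0 := by
    intro v hv i hi
    rw [hN, Submodule.mem_iInf] at hv
    exact hv ⟨i, hi⟩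
  obtain ⟨g, hg1, hg2⟩ := exists_extension_norm_eq N (f.comp N.subtypeL)
  have hn : ‖f.comp N.subtypeL‖ ≤ r := by
    refine ContinuousLinearMap.opNorm_le_of_unit_norm hr0.le fun v hv => ?_
    have hv' : ‖(v : X)‖ = 1 := hv
    have h1 := hcon (v : X) hv'.le (hNmem v v.2)
    have h2 := hcon (-(v : X)) (by rw [norm_neg]; exact hv'.le)
      (hNmem (-(v : X)) (N.neg_mem v.2))
    rw [map_neg] at h2
    rw [ContinuousLinearMap.comp_apply, Submodule.subtypeL_apply, Real.norm_eq_abs, abs_le]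
    constructor <;> linarith
  have hvan : ∀ v ∈ N, (f - g) v = 0 := by
    intro v hv
    have := hg1 ⟨v, hv⟩
    rw [ContinuousLinearMap.comp_apply, Submodule.subtypeL_apply] at this
    rw [sub_apply]
    simp only at this
    rw [this, sub_self]
  have hspan : ((f - g : X →L[ℝ] ℝ) : X →ₗ[ℝ] ℝ) ∈
      Submodule.span ℝ (range fun i : Fin n => (z i : X →ₗ[ℝ] ℝ)) := by
    refine mem_span_of_iInf_ker_le_ker fun v hv => ?_
    exact hvan v hv
  have himg : (range fun i : Fin n => (z i : X →ₗ[ℝ] ℝ)) =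
      (ContinuousLinearMap.coeLM ℝ : (X →L[ℝ] ℝ) →ₗ[ℝ] (X →ₗ[ℝ] ℝ)) ''
        (range fun i : Fin n => z i) := by
    rw [← range_comp]; rfl
  rw [himg, Submodule.span_image] at hspan
  obtain ⟨z', hz', he⟩ := hspan
  have he' : z' = f - g := by
    ext v
    have := congrArg (fun L : X →ₗ[ℝ] ℝ => L v) he
    simpa using this
  have hZ : f - g ∈ Z := by
    rw [← he']
    refine Submodule.span_le.mpr ?_ hz'
    rintro _ ⟨i, rfl⟩
    exact hz i
  have h1 : infDist f (Z : Set (X →L[ℝ] ℝ)) ≤ dist f (f - g) := infDist_le_dist_of_mem hZ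
  rw [dist_eq_norm, sub_sub_cancel, hg2] at h1
  linarith

/-- `x` is good when some support functional at `x` is within `1/2` of `Z`. -/
def Good (Z : Submodule ℝ (X →L[ℝ] ℝ)) (x : X) : Prop :=
  ∃ b ∈ F x, infDist b (Z : Set (X →L[ℝ] ℝ)) ≤ 1/2

lemma lemma2 [CompleteSpace X] (Z : Submodule ℝ (X →L[ℝ] ℝ)) (z : ℕ → X →L[ℝ] ℝ)
    (hz : ∀ i, z i ∈ Z) (hzd : ∀ g ∈ Z, g ∈ closure (range z))
    (x : X) (c : ℝ) (hc : 0 < c) (hgood : ∀ w : X, ‖w‖ ≤ 1 → Good Z (x + c • w))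
    (f : X →L[ℝ] ℝ) (hf : ‖f‖ ≤ 1) :
    f x + c * (infDist f (Z : Set (X →L[ℝ] ℝ)) - 1/2) ≤ ‖x‖ := by
  have hfle : ∀ y, f y ≤ ‖y‖ := by
    intro y
    have h4 := f.le_opNorm y
    have h5 : ‖f‖ * ‖y‖ ≤ 1 * ‖y‖ := mul_le_mul_of_nonneg_right hf (norm_nonneg _)
    have h6 := le_abs_self (f y)
    rw [Real.norm_eq_abs] at h4
    linarith
  by_contra hcon
  push Not at hcon
  set δ : ℝ := infDist f (Z : Set (X →L[ℝ] ℝ)) with hδ
  set ρ : ℝ := f x + c * (δ - 1/2) - ‖x‖ with hρ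
  have hρ0 : 0 < ρ := by rw [hρ]; linarith
  set η : ℝ := ρ / (4 * c) with hη
  have hη0 : 0 < η := by rw [hη]; positivity
  have hcη : c * η = ρ / 4 := by rw [hη]; field_simp
  set r : ℝ := δ - η with hr
  have hrδ : r < infDist f (Z : Set (X →L[ℝ] ℝ)) := by rw [← hδ, hr]; linarith
  set C : ℕ → Set X := fun n => {y | ‖y - x‖ ≤ c ∧ (∀ i < n, z i (y - x) = 0) ∧
    f x + c * r ≤ f y} with hC
  have hconv : ∀ n, Convex ℝ (C n) := by
    intro n y1 hy1 y2 hy2 a b ha hb hab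
    have hxy : a • y1 + b • y2 - x = a • (y1 - x) + b • (y2 - x) := by
      have : x = a • x + b • x := by rw [← add_smul, hab, one_smul]
      calc a • y1 + b • y2 - x = a • y1 + b • y2 - (a • x + b • x) := by rw [← this]
        _ = a • (y1 - x) + b • (y2 - x) := by module
    refine ⟨?_, ?_, ?_⟩
    · rw [hxy]
      calc ‖a • (y1 - x) + b • (y2 - x)‖ ≤ ‖a • (y1 - x)‖ + ‖b • (y2 - x)‖ := norm_add_le _ _
        _ = a * ‖y1 - x‖ + b * ‖y2 - x‖ := by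
          rw [norm_smul, norm_smul, Real.norm_of_nonneg ha, Real.norm_of_nonneg hb]
        _ ≤ a * c + b * c := add_le_add (mul_le_mul_of_nonneg_left hy1.1 ha)
          (mul_le_mul_of_nonneg_left hy2.1 hb)
        _ = c := by rw [← add_mul, hab, one_mul]
    · intro i hi
      rw [hxy, map_add, map_smul, map_smul, hy1.2.1 i hi, hy2.2.1 i hi]
      simp
    · rw [map_add, map_smul, map_smul, smul_eq_mul, smul_eq_mul]
      have h1 := mul_le_mul_of_nonneg_left hy1.2.2 ha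
      have h2 := mul_le_mul_of_nonneg_left hy2.2.2 hb
      calc f x + c * r = a * (f x + c * r) + b * (f x + c * r) := by rw [← add_mul, hab, one_mul]
        _ ≤ _ := add_le_add h1 h2
  have hcl : ∀ n, IsClosed (C n) := by
    intro n
    have h1 : IsClosed {y : X | ‖y - x‖ ≤ c} := isClosed_le (by fun_prop) (by fun_prop)
    have h2 : IsClosed {y : X | ∀ i < n, z i (y - x) = 0} := by
      have : {y : X | ∀ i < n, z i (y - x) = 0} = ⋂ i, ⋂ (_ : i < n), {y : X | z i (y - x) = 0} := by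
        ext y; simp
      rw [this]
      exact isClosed_iInter fun i => isClosed_iInter fun _ => isClosed_eq (by fun_prop) (by fun_prop)
    have h3 : IsClosed {y : X | f x + c * r ≤ f y} := isClosed_le (by fun_prop) (by fun_prop)
    exact h1.inter (h2.inter h3)
  have hne : ∀ n, (C n).Nonempty := by
    intro n
    obtain ⟨w, hw1, hw2, hw3⟩ := exists_vec Z z hz f r hrδ n
    refine ⟨x + c • w, ?_, ?_, ?_⟩
    · rw [add_sub_cancel_left, norm_smul, Real.norm_of_nonneg hc.le]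
      nlinarith
    · intro i hi
      rw [add_sub_cancel_left, map_smul, hw2 i hi, smul_zero]
    · rw [map_add, map_smul, smul_eq_mul]
      have := mul_le_mul_of_nonneg_left hw3 hc.le
      linarith
  have hanti : Antitone C := by
    intro m n hmn y hy
    exact ⟨hy.1, fun i hi => hy.2.1 i (lt_of_lt_of_le hi hmn), hy.2.2⟩
  have hM : ∀ v ∈ C 0, ‖v‖ ≤ ‖x‖ + c := by
    intro v hv
    have h1 : ‖v‖ ≤ ‖x‖ + ‖v - x‖ := by
      calc ‖v‖ = ‖x + (v - x)‖ := by rw [add_sub_cancel]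
        _ ≤ _ := norm_add_le _ _
    linarith [hv.1]
  have hβ : ∀ v ∈ C 0, f x + c * r ≤ ‖v‖ := fun v hv => hv.2.2.trans (hfle v)
  obtain ⟨b, hbB, hb⟩ := simons C hconv hcl hne hanti (‖x‖ + c) hM (f x + c * r) hβ
    {b | ‖b‖ ≤ 1 ∧ infDist b (Z : Set (X →L[ℝ] ℝ)) ≤ 1/2} (fun b hb => hb.1)
    (by
      intro v hv
      have h1 : ‖c⁻¹ • (v - x)‖ ≤ 1 := by
        rw [norm_smul, norm_inv, Real.norm_of_nonneg hc.le, inv_mul_le_iff₀ hc, mul_one]
        exact hv.1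
      obtain ⟨b, hb1, hb2⟩ := hgood _ h1
      have h2 : x + c • c⁻¹ • (v - x) = v := by
        rw [smul_smul, mul_inv_cancel₀ hc.ne', one_smul, add_sub_cancel]
      rw [h2] at hb1
      exact ⟨b, ⟨hb1.1, hb2⟩, hb1.2⟩) (ρ / 8) (by positivity)
  obtain ⟨hb1, hb2⟩ := hbB
  have h3 : infDist b (Z : Set (X →L[ℝ] ℝ)) < 1/2 + η := by linarith
  rw [infDist_lt_iff ⟨0, Z.zero_mem⟩] at h3
  obtain ⟨z', hz'Z, hz'⟩ := h3
  have h4 : ∃ i, dist b (z i) < 1/2 + η := by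
    have h5 := hzd z' hz'Z
    rw [Metric.mem_closure_iff] at h5
    obtain ⟨_, ⟨i, rfl⟩, hi⟩ := h5 (1/2 + η - dist b z') (by linarith)
    refine ⟨i, ?_⟩
    have := dist_triangle b z' (z i)
    linarith
  obtain ⟨i, hi⟩ := h4
  obtain ⟨y, hyC, hy⟩ := hb (i+1)
  have h5 : z i (y - x) = 0 := hyC.2.1 i (Nat.lt_succ_self i)
  have h6 : b y = b x + (b - z i) (y - x) := by
    have : (b - z i) (y - x) = b (y - x) - z i (y - x) := rfl
    rw [this, h5, map_sub]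
    ring
  have h7 : (b - z i) (y - x) ≤ (1/2 + η) * c := by
    have h8 := (b - z i).le_opNorm (y - x)
    rw [dist_eq_norm] at hi
    have h9 : ‖b - z i‖ * ‖y - x‖ ≤ (1/2 + η) * c :=
      mul_le_mul hi.le hyC.1 (norm_nonneg _) (by positivity)
    have h10 := le_abs_self ((b - z i) (y - x))
    rw [Real.norm_eq_abs] at h8
    linarith
  have h8 : b x ≤ ‖x‖ := by
    have h4 := b.le_opNorm x
    have h5 : ‖b‖ * ‖x‖ ≤ 1 * ‖x‖ := mul_le_mul_of_nonneg_right hb1 (norm_nonneg _)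
    have h6 := le_abs_self (b x)
    rw [Real.norm_eq_abs] at h4
    linarith
  have h9 : f x + c * r - 2 * (ρ / 8) ≤ ‖x‖ + (1/2 + η) * c := by linarith
  have h10 : c * r = c * δ - ρ / 4 := by rw [hr, mul_sub, hcη]
  have h11 : (1/2 + η) * c = c / 2 + ρ / 4 := by rw [add_mul, mul_comm η c, hcη]; ring
  have h12 : c * (δ - 1/2) = c * δ - c / 2 := by ring
  rw [h10, h11] at h9
  rw [h12] at hρ
  linarith

lemma claimB [CompleteSpace X] (Z : Submodule ℝ (X →L[ℝ] ℝ)) (z : ℕ → X →L[ℝ] ℝ)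
    (hz : ∀ i, z i ∈ Z) (hzd : ∀ g ∈ Z, g ∈ closure (range z))
    (x h : X) (θ s0 : ℝ) (hθ : 0 < θ) (hs0 : 0 < s0)
    (hgood : ∀ s, 0 < s → s < s0 → ∀ w : X, ‖w‖ ≤ 1 → Good Z (x + s • (h + θ • w))) :
    Good Z x := by
  choose φ hφ using (fun y : X => F_nonempty y)
  set u : Ultrafilter ℝ := Ultrafilter.of (𝓝[>] (0:ℝ)) with hu
  have hule : (u : Filter ℝ) ≤ 𝓝[>] (0:ℝ) := Ultrafilter.of_le _
  have hx : Tendsto (fun s : ℝ => x + s • h) u (𝓝 x) := by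
    have h1 : Tendsto (fun t : ℝ => x + t • h) (𝓝 0) (𝓝 (x + (0:ℝ) • h)) :=
      (Continuous.tendsto (by fun_prop) 0)
    rw [zero_smul, add_zero] at h1
    exact h1.mono_left (hule.trans nhdsWithin_le_nhds)
  obtain ⟨f, hf, hl⟩ := cluster u (fun s : ℝ => x + s • h) (fun s => φ (x + s • h)) x hx
    (Eventually.of_forall fun t => hφ _)
  refine ⟨f, hf, ?_⟩
  have hev : ∀ᶠ s in (u : Filter ℝ),
      f h + θ * (infDist f (Z : Set (X →L[ℝ] ℝ)) - 1/2) ≤ φ (x + s • h) h := by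
    have h1 : ∀ᶠ s in 𝓝[>] (0:ℝ), s < s0 :=
      (eventually_lt_nhds hs0).filter_mono nhdsWithin_le_nhds
    have h2 : ∀ᶠ s in 𝓝[>] (0:ℝ), 0 < s := self_mem_nhdsWithin
    filter_upwards [hule h1, hule h2] with s hs1 hs2
    have hs1 : s < s0 := hs1
    have hs2 : 0 < s := hs2
    have h3 := lemma2 Z z hz hzd (x + s • h) (s * θ) (by positivity)
      (by
        intro w hw
        have h4 := hgood s hs2 hs1 w hw
        have h5 : x + s • h + (s * θ) • w = x + s • (h + θ • w) := by module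
        rw [h5]
        exact h4) f hf.1
    have h4 : φ (x + s • h) (x + s • h) = ‖x + s • h‖ := (hφ _).2
    have h5 : φ (x + s • h) x ≤ ‖x‖ := F_le (hφ _) x
    have h6 : f x = ‖x‖ := hf.2
    rw [map_add, map_smul, smul_eq_mul] at h3 h4
    have h7 : s * (f h + θ * (infDist f (Z : Set (X →L[ℝ] ℝ)) - 1/2)) ≤ s * φ (x + s • h) h := by
      have h8 : s * (f h + θ * (infDist f (Z : Set (X →L[ℝ] ℝ)) - 1/2)) =
        s * f h + s * θ * (infDist f (Z : Set (X →L[ℝ] ℝ)) - 1/2) := by ring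
      rw [h8]
      linarith
    exact le_of_mul_le_mul_left h7 hs2
  have h1 := ge_of_tendsto (hl h) hev
  have h2 : θ * (infDist f (Z : Set (X →L[ℝ] ℝ)) - 1/2) ≤ 0 := by linarith
  have h3 : infDist f (Z : Set (X →L[ℝ] ℝ)) - 1/2 ≤ 0 := by
    by_contra hcon
    push Not at hcon
    have := mul_pos hθ hcon
    linarith
  linarith

lemma claimC [CompleteSpace X] (Z : Submodule ℝ (X →L[ℝ] ℝ)) (z : ℕ → X →L[ℝ] ℝ)
    (hz : ∀ i, z i ∈ Z) (hzd : ∀ g ∈ Z, g ∈ closure (range z))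
    (U : Set X) (hU : IsOpen U) (h : X) (ε : ℝ) (hε : 0 < ε)
    (hE : ∀ x ∈ U, ¬ Good Z x → ∃ f₁ ∈ F x, ∃ f₂ ∈ F x, ε ≤ f₁ h - f₂ h) :
    ∀ x ∈ U, Good Z x := by
  by_contra hcon
  push Not at hcon
  obtain ⟨x0, hx0U, hx0⟩ := hcon
  set S : Set ℝ := {r | ∃ x ∈ U, ¬ Good Z x ∧ ∃ f ∈ F x, f h = r} with hS
  have hSne : S.Nonempty := by
    obtain ⟨f₁, hf₁, -⟩ := hE x0 hx0U hx0
    exact ⟨f₁ h, x0, hx0U, hx0, f₁, hf₁, rfl⟩
  have hSb : BddAbove S := by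
    refine ⟨‖h‖, ?_⟩
    rintro _ ⟨x, _, _, f, hf, rfl⟩
    exact F_le hf h
  obtain ⟨_, ⟨x, hxU, hx, f, hf, rfl⟩, hlt⟩ := exists_lt_of_lt_csSup hSne
    (show sSup S - ε/4 < sSup S by linarith)
  apply hx
  obtain ⟨r, hr, hrU⟩ := Metric.isOpen_iff.mp hU x hxU
  have hden : 0 < ‖h‖ + ε/4 + 1 := by positivity
  refine claimB Z z hz hzd x h (ε/4) (r / (‖h‖ + ε/4 + 1)) (by positivity) (by positivity) ?_
  intro s hs hsr w hw
  by_contra hbad
  have hnv : ‖h + (ε/4) • w‖ ≤ ‖h‖ + ε/4 := by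
    refine (norm_add_le _ _).trans ?_
    rw [norm_smul, Real.norm_of_nonneg (by positivity)]
    nlinarith
  have hx'U : x + s • (h + (ε/4) • w) ∈ U := by
    apply hrU
    rw [mem_ball, dist_eq_norm, add_sub_cancel_left, norm_smul, Real.norm_of_nonneg hs.le]
    rw [lt_div_iff₀ hden] at hsr
    have : s * ‖h + (ε/4) • w‖ ≤ s * (‖h‖ + ε/4) := mul_le_mul_of_nonneg_left hnv hs.le
    nlinarith
  obtain ⟨f₁, hf₁, f₂, hf₂, hff⟩ := hE _ hx'U hbad
  have h1 : f₁ h ≤ sSup S := le_csSup hSb ⟨_, hx'U, hbad, f₁, hf₁, rfl⟩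
  have h2 : f₂ h ≤ sSup S - ε := by linarith
  -- monotonicity
  have e1 : f₂ (x + s • (h + (ε/4) • w)) = ‖x + s • (h + (ε/4) • w)‖ := hf₂.2
  have e2 : f (x + s • (h + (ε/4) • w)) ≤ ‖x + s • (h + (ε/4) • w)‖ := F_le hf _
  have e3 : f x = ‖x‖ := hf.2
  have e4 : f₂ x ≤ ‖x‖ := F_le hf₂ _
  rw [map_add, map_smul, smul_eq_mul, map_add, map_smul, smul_eq_mul] at e1 e2
  have e5 : s * (f h + (ε/4) * f w) ≤ s * (f₂ h + (ε/4) * f₂ w) := by linarith
  have e6 := le_of_mul_le_mul_left e5 hs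
  have e7 := abs_le.mp ((F_abs_le hf w).trans hw)
  have e8 := abs_le.mp ((F_abs_le hf₂ w).trans hw)
  have e9 : (ε/4) * (-1) ≤ (ε/4) * f w := mul_le_mul_of_nonneg_left e7.1 (by positivity)
  have e10 : (ε/4) * f₂ w ≤ (ε/4) * 1 := mul_le_mul_of_nonneg_left e8.2 (by positivity)
  linarith

lemma F_smul (x : X) (c : ℝ) (hc : 0 < c) : F (c • x) = F x := by
  ext f
  constructor
  · rintro ⟨h1, h2⟩
    refine ⟨h1, ?_⟩
    rw [map_smul, smul_eq_mul, norm_smul, Real.norm_of_nonneg hc.le] at h2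
    exact mul_left_cancel₀ hc.ne' h2
  · rintro ⟨h1, h2⟩
    refine ⟨h1, ?_⟩
    rw [map_smul, smul_eq_mul, norm_smul, Real.norm_of_nonneg hc.le, h2]

lemma all_good [CompleteSpace X] [TopologicalSpace.SeparableSpace X]
    (Z : Submodule ℝ (X →L[ℝ] ℝ)) (z : ℕ → X →L[ℝ] ℝ)
    (hz : ∀ i, z i ∈ Z) (hzd : ∀ g ∈ Z, g ∈ closure (range z))
    (hD : ∀ (x : X) (f : X →L[ℝ] ℝ), ‖x‖ = 1 →
      (∀ v : X, HasLineDerivAt ℝ (fun y : X => ‖y‖) (f v) x v) → f ∈ Z) :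
    ∀ x, Good Z x := by
  by_contra hcon
  push Not at hcon
  obtain ⟨x0, hx0⟩ := hcon
  have : Nonempty (closure {x : X | ¬ Good Z x}) := ⟨⟨x0, subset_closure hx0⟩⟩
  have : CompleteSpace (closure {x : X | ¬ Good Z x}) := isClosed_closure.completeSpace_coe
  set e : ((ℕ × ℕ) ⊕ ℕ) → Set X := Sum.elim
    (fun p => {x | ∃ f₁ ∈ F x, ∃ f₂ ∈ F x, 1/((p.2:ℝ)+1) ≤
      f₁ (TopologicalSpace.denseSeq X p.1) - f₂ (TopologicalSpace.denseSeq X p.1)})
    (fun i => {x | ∃ f ∈ F x, ‖f - z i‖ ≤ 1/2}) with he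
  have hecl : ∀ i, IsClosed (e i) := by
    rintro (p | i)
    · exact isClosed_E _ _
    · exact isClosed_A _ _ (by norm_num)
  have hAZ : ∀ (x : X) (f : X →L[ℝ] ℝ), f ∈ F x → f ∈ Z → ∃ i, x ∈ e i := by
    intro x f hf hfZ
    have h5 := hzd f hfZ
    rw [Metric.mem_closure_iff] at h5
    obtain ⟨_, ⟨i, rfl⟩, hi⟩ := h5 (1/2) (by norm_num)
    refine ⟨Sum.inr i, f, hf, ?_⟩
    rw [← dist_eq_norm]
    exact hi.le
  have hcov : ∀ x : X, ∃ i, x ∈ e i := by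
    intro x
    by_cases hu : ∃ f₁ ∈ F x, ∃ f₂ ∈ F x, ∃ v, f₂ v < f₁ v
    · obtain ⟨f₁, hf₁, f₂, hf₂, v, hv⟩ := hu
      have hop : IsOpen {y : X | f₂ y < f₁ y} := isOpen_lt (by fun_prop) (by fun_prop)
      obtain ⟨_, hj, ⟨j, rfl⟩⟩ := (TopologicalSpace.denseRange_denseSeq X).inter_open_nonempty _ hop
        ⟨v, hv⟩
      have hj' : 0 < f₁ (TopologicalSpace.denseSeq X j) - f₂ (TopologicalSpace.denseSeq X j) :=
        sub_pos.mpr hj
      obtain ⟨k, hk⟩ := exists_nat_one_div_lt hj'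
      exact ⟨Sum.inl (j, k), f₁, hf₁, f₂, hf₂, hk.le⟩
    · push Not at hu
      obtain ⟨f, hf⟩ := F_nonempty x
      have huniq : ∀ g ∈ F x, g = f := by
        intro g hg
        ext v
        exact le_antisymm (hu g hg f hf v) (hu f hf g hg v)
      by_cases hx : x = 0
      · refine hAZ x 0 ⟨by simp, by simp [hx]⟩ Z.zero_mem
      · have hxn : 0 < ‖x‖ := norm_pos_iff.mpr hx
        have hn : ‖‖x‖⁻¹ • x‖ = 1 := by
          rw [norm_smul, norm_inv, norm_norm, inv_mul_cancel₀ hxn.ne']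
        have hF : F (‖x‖⁻¹ • x) = F x := F_smul x _ (inv_pos.mpr hxn)
        have hfZ : f ∈ Z := hD (‖x‖⁻¹ • x) f hn
          (hasLineDeriv_of_unique _ f (by rw [hF]; exact hf) (by rw [hF]; exact huniq))
        exact hAZ x f hf hfZ
  obtain ⟨i, hi⟩ := nonempty_interior_of_iUnion_of_closed
    (X := closure {x : X | ¬ Good Z x}) (f := fun i => Subtype.val ⁻¹' e i)
    (fun i => (hecl i).preimage continuous_subtype_val)
    (by
      ext y
      simpa using hcov y.1)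
  have hopen := isOpen_interior (s := (Subtype.val ⁻¹' e i : Set (closure {x : X | ¬ Good Z x})))
  rw [isOpen_induced_iff] at hopen
  obtain ⟨V, hV, hVe⟩ := hopen
  obtain ⟨y, hy⟩ := hi
  have hyV : y.1 ∈ V := by
    have : y ∈ Subtype.val ⁻¹' V := by rw [hVe]; exact hy
    exact this
  have hVbad : ∀ x ∈ V, ¬ Good Z x → x ∈ e i := by
    intro x hxV hx
    have h1 : (⟨x, subset_closure hx⟩ : closure {x : X | ¬ Good Z x}) ∈
        (Subtype.val ⁻¹' V : Set (closure {x : X | ¬ Good Z x})) := hxV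
    rw [hVe] at h1
    have h2 := interior_subset h1
    exact h2
  obtain ⟨x, hxV, hx⟩ := (_root_.mem_closure_iff.mp y.2) V hV hyV
  rcases i with (⟨j, k⟩ | i)
  · refine hx (claimC Z z hz hzd V hV (TopologicalSpace.denseSeq X j) (1/((k:ℝ)+1)) (by positivity)
      ?_ x hxV)
    intro x' hx' hb'
    exact hVbad x' hx' hb'
  · obtain ⟨f, hf, hfi⟩ := hVbad x hxV hx
    refine hx ⟨f, hf, ?_⟩
    refine (infDist_le_dist_of_mem (hz i)).trans ?_
    rw [dist_eq_norm]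
    exact hfi

/-- Main theorem: if the Gateaux derivatives of the norm span a norm separable space, then the dual
is separable. -/
theorem separable_dual [CompleteSpace X] [TopologicalSpace.SeparableSpace X]
    (hsep : TopologicalSpace.IsSeparable
      {f : X →L[ℝ] ℝ | ∃ x : X, ‖x‖ = 1 ∧
        ∀ v : X, HasLineDerivAt ℝ (fun y : X => ‖y‖) (f v) x v}) :
    TopologicalSpace.SeparableSpace (X →L[ℝ] ℝ) := by
  set D : Set (X →L[ℝ] ℝ) := {f : X →L[ℝ] ℝ | ∃ x : X, ‖x‖ = 1 ∧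
        ∀ v : X, HasLineDerivAt ℝ (fun y : X => ‖y‖) (f v) x v} with hDdef
  set Z : Submodule ℝ (X →L[ℝ] ℝ) := Submodule.span ℝ D with hZ
  have hZs : TopologicalSpace.IsSeparable (Z : Set (X →L[ℝ] ℝ)) := hsep.span
  obtain ⟨t, htZ, htc, htd⟩ := hZs.exists_countable_dense_subset
  have htne : t.Nonempty := by
    by_contra h
    rw [not_nonempty_iff_eq_empty] at h
    rw [h, closure_empty] at htd
    exact htd Z.zero_mem
  obtain ⟨z, rfl⟩ := htc.exists_eq_range htne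
  have hz : ∀ i, z i ∈ Z := fun i => htZ (mem_range_self i)
  have hzd : ∀ g ∈ Z, g ∈ closure (range z) := fun g hg => htd hg
  have hgood := all_good Z z hz hzd (by
    intro x f hx hf
    exact Submodule.subset_span ⟨x, hx, hf⟩)
  have hdist : ∀ g : X →L[ℝ] ℝ, ‖g‖ ≤ 1 → infDist g (Z : Set (X →L[ℝ] ℝ)) ≤ 1/2 := by
    intro g hg
    have := lemma2 Z z hz hzd 0 1 one_pos (fun w _ => hgood _) g hg
    simp only [map_zero, norm_zero, zero_add, one_mul] at this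
    linarith
  have htop : ∀ g : X →L[ℝ] ℝ, g ∈ Z.topologicalClosure := by
    by_contra hcon
    push Not at hcon
    obtain ⟨g, hg, hg1, hgd⟩ := riesz_lemma_of_lt_one (𝕜 := ℝ) Z.isClosed_topologicalClosure hcon
      (show (3/4 : ℝ) < 1 by norm_num)
    have h1 := hdist g hg1.le
    have h2 : (3/4 : ℝ) ≤ infDist g (Z : Set (X →L[ℝ] ℝ)) := by
      rw [le_infDist ⟨0, Z.zero_mem⟩]
      intro y hy
      rw [dist_eq_norm]
      exact hgd y (Z.le_topologicalClosure hy)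
    linarith
  rw [← TopologicalSpace.isSeparable_univ_iff]
  refine hZs.closure.mono ?_
  intro g _
  exact htop g

end Pool.Agent.H312Support
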