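import Mathlib
import Pool.Agent.H312SupportMap

set_option autoImplicit false

open Set Filter Topology Metric

namespace Pool.Agent.H312Support

lemma exists_maximal_separated {E : Type*} [MetricSpace E] (D : Set E) (ε : ℝ) :
    ∃ S ⊆ D, (∀ f ∈ S, ∀ g ∈ S, f ≠ g → ε < dist f g) ∧ ∀ f ∈ D, ∃ g ∈ S, f = g ∨ dist f g ≤ ε := by
  obtain ⟨S, hS⟩ := zorn_subset {S : Set E | S ⊆ D ∧ ∀ f ∈ S, ∀ g ∈ S, f ≠ g → ε < dist f g}
    (by
      intro c hc hchain
      refine ⟨⋃₀ c, ⟨sUnion_subset fun s hs => (hc hs).1, ?_⟩, fun s hs => subset_sUnion_of_mem hs⟩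
      rintro f ⟨s, hs, hf⟩ g ⟨t, ht, hg⟩ hne
      rcases hchain.total hs ht with h | h
      · exact (hc ht).2 f (h hf) g hg hne
      · exact (hc hs).2 f hf g (h hg) hne)
  refine ⟨S, hS.prop.1, hS.prop.2, ?_⟩
  intro f hf
  by_contra hcon
  push Not at hcon
  have hins : insert f S ∈ {S : Set E | S ⊆ D ∧ ∀ f ∈ S, ∀ g ∈ S, f ≠ g → ε < dist f g} := by
    refine ⟨insert_subset hf hS.prop.1, ?_⟩
    intro a ha b hb hab
    rcases ha with rfl | ha
    · rcases hb with rfl | hb
      · exact absurd rfl hab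
      · exact (hcon b hb).2
    · rcases hb with rfl | hb
      · rw [dist_comm]; exact (hcon a ha).2
      · exact hS.prop.2 a ha b hb hab
  have hfS : f ∈ S := hS.le_of_ge hins (subset_insert f S) (mem_insert f S)
  exact (hcon f hfS).1 rfl

lemma exists_uncountable_separated {E : Type*} [MetricSpace E] (D : Set E)
    (hD : ¬ TopologicalSpace.IsSeparable D) :
    ∃ ε : ℝ, 0 < ε ∧ ∃ S ⊆ D, ¬ S.Countable ∧ ∀ f ∈ S, ∀ g ∈ S, f ≠ g → ε < dist f g := by
  by_contra hcon
  push Not at hcon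
  apply hD
  choose S hSD hSs hSm using fun n : ℕ => exists_maximal_separated D (1/((n:ℝ)+1))
  refine ⟨⋃ n, S n, countable_iUnion fun n => ?_, ?_⟩
  · by_contra hc
    obtain ⟨f, hf, g, hg, hne, hle⟩ := hcon (1/((n:ℝ)+1)) (by positivity) (S n) (hSD n) hc
    exact absurd (hSs n f hf g hg hne) (not_lt.mpr hle)
  · intro f hf
    rw [Metric.mem_closure_iff]
    intro ε hε
    obtain ⟨n, hn⟩ := exists_nat_one_div_lt hε
    obtain ⟨g, hg, h⟩ := hSm n f hf
    refine ⟨g, mem_iUnion.mpr ⟨n, hg⟩, ?_⟩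
    rcases h with rfl | h
    · rw [dist_self]; exact hε
    · exact lt_of_le_of_lt h hn

/-- condensation points -/
lemma condensation {X : Type*} [TopologicalSpace X] [SecondCountableTopology X] (A : Set X)
    (hA : ¬ A.Countable) : ∃ A' ⊆ A, A'.Nonempty ∧
      ∀ x ∈ A', ∀ U : Set X, IsOpen U → x ∈ U → ∃ y ∈ A', y ∈ U ∧ y ≠ x := by
  set A' : Set X := {x ∈ A | ∀ U : Set X, IsOpen U → x ∈ U → ¬ (U ∩ A).Countable} with hA'
  have hc : (A \ A').Countable := by
    have h1 : (⋃ b ∈ {b ∈ TopologicalSpace.countableBasis X | (b ∩ A).Countable}, b ∩ A).Countable :=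
      ((TopologicalSpace.countable_countableBasis X).mono (sep_subset _ _)).biUnion
        fun b hb => hb.2
    refine h1.mono ?_
    rintro x ⟨hxA, hx⟩
    have h2 : ∃ U : Set X, IsOpen U ∧ x ∈ U ∧ (U ∩ A).Countable := by
      by_contra hcon
      push Not at hcon
      exact hx ⟨hxA, hcon⟩
    obtain ⟨U, hU, hxU, hUc⟩ := h2
    obtain ⟨b, hb, hxb, hbU⟩ :=
      (TopologicalSpace.isBasis_countableBasis X).exists_subset_of_mem_open hxU hU
    simp only [mem_iUnion]
    exact ⟨b, ⟨hb, hUc.mono (inter_subset_inter_left A hbU)⟩, hxb, hxA⟩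
  refine ⟨A', sep_subset _ _, ?_, ?_⟩
  · by_contra h
    rw [not_nonempty_iff_eq_empty] at h
    rw [h, sdiff_empty] at hc
    exact hA hc
  · intro x hx U hU hxU
    by_contra hcon
    push Not at hcon
    apply hx.2 U hU hxU
    refine (hc.union (countable_singleton x)).mono ?_
    rintro y ⟨hyU, hyA⟩
    by_cases hy : y ∈ A'
    · exact Or.inr (hcon y hy hyU)
    · exact Or.inl ⟨hyA, hy⟩

open CantorScheme PiNat in
/-- Cantor scheme inside an open irreflexive relation. -/
lemma cantor_of_relation {X : Type*} [MetricSpace X] [CompleteSpace X]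
    [SecondCountableTopology X] (R : Set (X × X)) (hR : IsOpen R) (hirr : ∀ x, (x, x) ∉ R)
    (A : Set X) (hA : ¬ A.Countable) (hAR : ∀ x ∈ A, ∀ y ∈ A, x ≠ y → (x, y) ∈ R) :
    ∃ φ : (ℕ → Bool) → X, Continuous φ ∧ Function.Injective φ ∧ (∀ p, φ p ∈ closure A) ∧
      ∀ p q, p ≠ q → (φ p, φ q) ∈ R := by
  obtain ⟨A', hA'A, hA'ne, hA'c⟩ := condensation A hA
  have hsplit : ∀ (p : {p : X × ℝ // p.1 ∈ A' ∧ 0 < p.2}) (n : ℕ),
      ∃ q : Bool → {p : X × ℝ // p.1 ∈ A' ∧ 0 < p.2},
        (∀ b, closedBall (q b).1.1 (q b).1.2 ⊆ closedBall p.1.1 p.1.2) ∧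
        (∀ b, (q b).1.2 ≤ (1/2 : ℝ)^n) ∧
        (∀ b c, b ≠ c → ∀ u ∈ closedBall (q b).1.1 (q b).1.2, ∀ v ∈ closedBall (q c).1.1 (q c).1.2,
          (u, v) ∈ R) := by
    rintro ⟨⟨x, r⟩, hx, hr⟩ n
    simp only at hx hr
    obtain ⟨y, hy, hyU, hyx⟩ := hA'c x hx (ball x r) isOpen_ball (mem_ball_self hr)
    obtain ⟨ε₁, hε₁, h₁⟩ := Metric.isOpen_iff.mp hR _ (hAR x (hA'A hx) y (hA'A hy) hyx.symm)
    obtain ⟨ε₂, hε₂, h₂⟩ := Metric.isOpen_iff.mp hR _ (hAR y (hA'A hy) x (hA'A hx) hyx)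
    rw [mem_ball] at hyU
    set ρ : ℝ := min (min (ε₁/2) (ε₂/2)) (min (r - dist y x) ((1/2 : ℝ)^n)) with hρ
    have hρ0 : 0 < ρ := by
      rw [hρ]
      refine lt_min (lt_min (by positivity) (by positivity)) (lt_min (by linarith) (by positivity))
    have hρ1 : ρ ≤ ε₁/2 := (min_le_left _ _).trans (min_le_left _ _)
    have hρ2 : ρ ≤ ε₂/2 := (min_le_left _ _).trans (min_le_right _ _)
    have hρ3 : ρ ≤ r - dist y x := (min_le_right _ _).trans (min_le_left _ _)
    have hρ4 : ρ ≤ (1/2 : ℝ)^n := (min_le_right _ _).trans (min_le_right _ _)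
    refine ⟨fun b => if b then ⟨(x, ρ), hx, hρ0⟩ else ⟨(y, ρ), hy, hρ0⟩, ?_, ?_, ?_⟩
    · rintro (_ | _)
      · simp only [Bool.false_eq_true, if_false]
        exact closedBall_subset_closedBall' (by linarith)
      · simp only [if_true]
        exact closedBall_subset_closedBall (by linarith [dist_nonneg (x := y) (y := x)])
    · rintro (_ | _) <;> simpa using hρ4
    · have key1 : ∀ u ∈ closedBall x ρ, ∀ v ∈ closedBall y ρ, (u, v) ∈ R := by
        intro u hu v hv
        apply h₁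
        rw [mem_ball, Prod.dist_eq]
        rw [mem_closedBall] at hu hv
        exact max_lt (by linarith) (by linarith)
      have key2 : ∀ u ∈ closedBall y ρ, ∀ v ∈ closedBall x ρ, (u, v) ∈ R := by
        intro u hu v hv
        apply h₂
        rw [mem_ball, Prod.dist_eq]
        rw [mem_closedBall] at hu hv
        exact max_lt (by linarith) (by linarith)
      rintro (_ | _) (_ | _) hbc
      · exact absurd rfl hbc
      · simpa using key2
      · simpa using key1
      · exact absurd rfl hbc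
  choose ch hch1 hch2 hch3 using hsplit
  obtain ⟨x0, hx0⟩ := hA'ne
  let node : List Bool → {p : X × ℝ // p.1 ∈ A' ∧ 0 < p.2} := fun l =>
    List.rec ⟨(x0, 1), hx0, one_pos⟩ (fun b l ih => ch ih l.length b) l
  have hnode : ∀ (b : Bool) (l : List Bool), node (b :: l) = ch (node l) l.length b := fun b l => rfl
  let S : List Bool → Set X := fun l => closedBall (node l).1.1 (node l).1.2
  have hanti : ClosureAntitone S := by
    refine Antitone.closureAntitone ?_ fun l => isClosed_closedBall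
    intro l b
    change closedBall (node (b :: l)).1.1 (node (b :: l)).1.2 ⊆ closedBall (node l).1.1 (node l).1.2
    rw [hnode]
    exact hch1 _ _ _
  have hrad : ∀ (x : ℕ → Bool) (n : ℕ), (node (res x (n+1))).1.2 ≤ (1/2 : ℝ)^n := by
    intro x n
    rw [res_succ, hnode]
    refine (hch2 _ _ _).trans ?_
    rw [res_length]
  have hdiam : VanishingDiam S := by
    intro x
    have h1 : Tendsto (fun n : ℕ => ENNReal.ofReal (2 * (1/2 : ℝ)^n)) atTop (𝓝 0) := by
      have h2 : Tendsto (fun n : ℕ => 2 * (1/2 : ℝ)^n) atTop (𝓝 0) := by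
        have := (tendsto_pow_atTop_nhds_zero_of_lt_one (r := (1/2 : ℝ)) (by norm_num)
          (by norm_num)).const_mul 2
        simpa using this
      have h3 := ENNReal.tendsto_ofReal h2
      simpa using h3
    have h4 : Tendsto (fun n : ℕ => Metric.ediam (S (res x (n+1)))) atTop (𝓝 0) := by
      refine tendsto_of_tendsto_of_tendsto_of_le_of_le tendsto_const_nhds h1
        (fun n => zero_le) (fun n => ?_)
      change Metric.ediam (closedBall _ _) ≤ _
      rw [← Metric.closedEBall_ofReal (node (res x (n+1))).2.2.le]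
      refine Metric.ediam_closedEBall_le.trans ?_
      rw [ENNReal.ofReal_mul (by norm_num : (0:ℝ) ≤ 2)]
      simp only [ENNReal.ofReal_ofNat]
      gcongr
      exact hrad x n
    exact (tendsto_add_atTop_iff_nat 1).mp h4
  have hne : ∀ l, (S l).Nonempty := fun l => ⟨(node l).1.1, mem_closedBall_self (node l).2.2.le⟩
  have hdom : ∀ x : ℕ → Bool, x ∈ (inducedMap S).1 := by
    intro x
    rw [hanti.map_of_vanishingDiam hdiam hne]
    exact mem_univ x
  let φ : (ℕ → Bool) → X := fun x => (inducedMap S).2 ⟨x, hdom x⟩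
  have hφmem : ∀ x n, φ x ∈ S (res x n) := fun x n => map_mem ⟨x, hdom x⟩ n
  have hφR : ∀ p q : ℕ → Bool, p ≠ q → (φ p, φ q) ∈ R := by
    intro p q hpq
    obtain ⟨n, hn⟩ : ∃ n, p n ≠ q n ∧ ∀ m < n, p m = q m := by
      have h1 : ∃ n, p n ≠ q n := by
        by_contra hcon
        push Not at hcon
        exact hpq (funext hcon)
      classical
      exact ⟨Nat.find h1, Nat.find_spec h1, fun m hm => by
        have := Nat.find_min h1 hm
        push Not at this
        exact this⟩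
    have hres : res p n = res q n := by
      rw [res_eq_res]
      exact fun {m} hm => hn.2 m hm
    have h1 := hφmem p (n+1)
    have h2 := hφmem q (n+1)
    rw [res_succ] at h1 h2
    rw [← hres] at h2
    change φ p ∈ closedBall (node (p n :: res p n)).1.1 (node (p n :: res p n)).1.2 at h1
    change φ q ∈ closedBall (node (q n :: res p n)).1.1 (node (q n :: res p n)).1.2 at h2
    rw [hnode] at h1 h2
    exact hch3 _ _ _ _ hn.1 _ h1 _ h2
  refine ⟨φ, ?_, ?_, ?_, hφR⟩
  · exact hdiam.map_continuous.comp (by fun_prop)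
  · intro p q hpq
    by_contra hne'
    have := hφR p q hne'
    rw [hpq] at this
    exact hirr _ this
  · intro p
    rw [Metric.mem_closure_iff]
    intro ε hε
    obtain ⟨n, hn⟩ := exists_pow_lt_of_lt_one hε (show (1/2 : ℝ) < 1 by norm_num)
    refine ⟨(node (res p (n+1))).1.1, hA'A (node (res p (n+1))).2.1, ?_⟩
    have h1 : φ p ∈ closedBall _ _ := hφmem p (n+1)
    rw [mem_closedBall] at h1
    exact lt_of_le_of_lt (h1.trans (hrad p n)) hn

/-- Main theorem: Cantor sets of points with uniformly separated support functionals. -/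
theorem cantor_support {X : Type*} [NormedAddCommGroup X] [NormedSpace ℝ X] [CompleteSpace X]
    [TopologicalSpace.SeparableSpace X] (hns : ¬ TopologicalSpace.SeparableSpace (X →L[ℝ] ℝ)) :
    ∃ K : Set X, K ⊆ Metric.sphere (0 : X) 1 ∧ Nonempty (K ≃ₜ (ℕ → Bool)) ∧
      ∃ ε : ℝ, 0 < ε ∧
        ∀ x ∈ K, ∀ y ∈ K, x ≠ y →
          ∀ f g : X →L[ℝ] ℝ, ‖f‖ = 1 → f x = 1 → ‖g‖ = 1 → g y = 1 → ε ≤ ‖f - g‖ := by
  have hD : ¬ TopologicalSpace.IsSeparable
      {f : X →L[ℝ] ℝ | ∃ x : X, ‖x‖ = 1 ∧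
        ∀ v : X, HasLineDerivAt ℝ (fun y : X => ‖y‖) (f v) x v} := fun h => hns (separable_dual h)
  obtain ⟨ε, hε, S, hSD, hSc, hSsep⟩ := exists_uncountable_separated _ hD
  have hch : ∀ f : S, ∃ x : X, ‖x‖ = 1 ∧
      ∀ v : X, HasLineDerivAt ℝ (fun y : X => ‖y‖) ((f : X →L[ℝ] ℝ) v) x v := fun f => hSD f.2
  choose pt hpt1 hpt2 using hch
  have huniq : ∀ f : S, ∀ g ∈ F (pt f), g = f := fun f g hg => unique_of_hasLineDeriv _ _ (hpt2 f) g hg
  have hinj : Function.Injective pt := by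
    intro f g hfg
    obtain ⟨b, hb⟩ := F_nonempty (pt f)
    have h1 := huniq f b hb
    rw [hfg] at hb
    have h2 := huniq g b hb
    exact Subtype.ext (h1.symm.trans h2)
  have hSc' : ¬ Countable S := fun h => hSc (countable_coe_iff.mp h)
  have hA : ¬ (range pt).Countable := by
    intro h
    apply hSc'
    have : Countable (range pt) := countable_coe_iff.mpr h
    exact (rangeFactorization_injective.mpr hinj).countable
  have : SecondCountableTopology X := UniformSpace.secondCountable_of_separable X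
  obtain ⟨φ, hφc, hφi, hφA, hφR⟩ := cantor_of_relation
    ({p : X × X | ∃ f ∈ F p.1, ∃ g ∈ F p.2, ‖f - g‖ ≤ ε}ᶜ) (isClosed_R ε hε.le).isOpen_compl
    (by
      intro x hx
      obtain ⟨b, hb⟩ := F_nonempty x
      exact hx ⟨b, hb, b, hb, by rw [sub_self, norm_zero]; exact hε.le⟩)
    (range pt) hA
    (by
      rintro _ ⟨f, rfl⟩ _ ⟨g, rfl⟩ hne
      rintro ⟨a, ha, b, hb, hab⟩
      have h1 : a = f := huniq f a ha
      have h2 : b = g := huniq g b hb
      have hfg : (f : X →L[ℝ] ℝ) ≠ g := by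
        intro h
        exact hne (congrArg pt (Subtype.ext h))
      have h3 := hSsep f f.2 g g.2 hfg
      rw [dist_eq_norm] at h3
      rw [h1, h2] at hab
      exact absurd h3 (not_lt.mpr hab))
  have hsph : ∀ p, φ p ∈ Metric.sphere (0 : X) 1 := by
    intro p
    have h1 : closure (range pt) ⊆ Metric.sphere (0 : X) 1 := by
      refine closure_minimal ?_ isClosed_sphere
      rintro _ ⟨f, rfl⟩
      simp [hpt1 f]
    exact h1 (hφA p)
  refine ⟨range φ, ?_, ?_, ε, hε, ?_⟩
  · rintro _ ⟨p, rfl⟩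
    exact hsph p
  · have he : IsClosedEmbedding φ := hφc.isClosedEmbedding hφi
    exact ⟨he.isEmbedding.toHomeomorph.symm⟩
  · rintro _ ⟨p, rfl⟩ _ ⟨q, rfl⟩ hne f g hf1 hf2 hg1 hg2
    have hpq : p ≠ q := fun h => hne (by rw [h])
    have hR := hφR p q hpq
    by_contra hcon
    push Not at hcon
    apply hR
    have hn : ∀ p, ‖φ p‖ = 1 := fun p => by simpa using hsph p
    exact ⟨f, ⟨hf1.le, by rw [hf2]; exact (hn p).symm⟩, g, ⟨hg1.le, by rw [hg2]; exact (hn q).symm⟩,
      hcon.le⟩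

end Pool.Agent.H312Support
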