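import Pool.Statements.S08053
import Pool.Agent.H963CF.H

set_option autoImplicit false
open Pool Pool.MP_05c474_gt

namespace Pool.Agent.S08053

/-- For metric continua X, Y: if X admits, for every ε>0, a continuous map into [0,1] with all fibers of diameter <ε, and f maps X onto Y confluently, then Y admits such ε-maps too. -/
theorem result :
    ∀ (X Y : Type) [MetricSpace X] [CompactSpace X] [ConnectedSpace X]
      [MetricSpace Y] [CompactSpace Y] [ConnectedSpace Y] (f : X → Y),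
      (∀ ε : ℝ, 0 < ε → ∃ g : X → ℝ, Continuous g ∧ Set.range g ⊆ Set.Icc 0 1 ∧
          ∀ t : ℝ, Metric.diam (g ⁻¹' {t}) < ε) →
      Continuous f →
      Function.Surjective f →
      (∀ K : Set Y, IsCompact K → IsConnected K →
          ∀ x ∈ f ⁻¹' K, f '' connectedComponentIn (f ⁻¹' K) x = K) →
      (∀ ε : ℝ, 0 < ε → ∃ h : Y → ℝ, Continuous h ∧ Set.range h ⊆ Set.Icc 0 1 ∧
          ∀ t : ℝ, Metric.diam (h ⁻¹' {t}) < ε) := by
  intro X Y _ _ _ _ _ _ f hg hf hs hc
  have hX : Pool.Agent.H963CF.L739.CT.SpanZero X :=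
    Pool.Agent.H963CF.L648.spanZero_of_arcLike (fun ε hε => by
      obtain ⟨g, h1, -, h3⟩ := hg ε hε
      exact ⟨g, h1, h3⟩)
  have hY := Pool.Agent.H963CF.L648.final X Y f hf hs
    (fun K hK hKc x hx => hc K hK.isCompact hKc x hx)
    (fun Z hZ hZc he => by
      obtain ⟨p, hp, hpe⟩ := hX Z hZ.isCompact hZc he
      refine ⟨p.1, ?_⟩
      have : (p.1, p.1) = p := Prod.ext rfl hpe
      rw [this]; exact hp)
  have hY' : Pool.Agent.H963CF.L739.CT.SpanZero Y := fun Z hZ hZc he => by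
    obtain ⟨y, hy⟩ := hY Z hZ.isClosed hZc he
    exact ⟨(y, y), hy, rfl⟩
  exact Pool.Agent.H963CF.top_level X Y f
    (Pool.Agent.H963CF.L648.good_of_spanZero hY') hg hf hs hc

end Pool.Agent.S08053
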