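import Pool.Statements.S09562
-- import your own Pool.Agent.* helpers here

set_option autoImplicit false
open Pool Pool.MP_8bf454_lc

namespace Pool.Agent.S09562

open MeasureTheory Measure Set
open scoped ENNReal

/-- the free group on two generators -/
abbrev Gam : Type := FreeGroup Bool

/-- the configuration space -/
abbrev Y : Type := Gam → ℝ

/-- shift by `g` -/
def sh (g : Gam) (x : Y) : Y := fun h => x (g * h)

lemma sh_sh (g s : Gam) (x : Y) : sh g (sh s x) = sh (s * g) x := by
  funext h
  simp [sh, mul_assoc]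

lemma sh_one (x : Y) : sh 1 x = x := by
  funext h
  simp [sh]

lemma measurable_sh (g : Gam) : Measurable (sh g) := by
  unfold sh
  fun_prop

/-- the base measure -/
noncomputable def nu : Measure ℝ := volume.restrict (Set.Icc (0 : ℝ) 1)

instance : IsProbabilityMeasure nu := ⟨by simp [nu]⟩

instance : NullSingletonClass nu := by unfold nu; infer_instance

/-- the Bernoulli measure -/
noncomputable def mu : Measure Y := infinitePi (fun _ : Gam => nu)

instance : IsProbabilityMeasure mu := by unfold mu; infer_instance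

lemma mp_sh (g : Gam) : MeasurePreserving (sh g) mu mu := by
  refine ⟨measurable_sh g, ?_⟩
  have := MeasureTheory.Measure.map_infinitePi_infinitePi_of_inj (P := fun _ : Gam => nu)
    (f := fun h => g * h) (mul_right_injective g)
  exact this

lemma mu_eq_null {g h : Gam} (hgh : g ≠ h) : mu {x : Y | x g = x h} = 0 := by
  have h1 := MeasureTheory.Measure.infinitePi_map_eval_prod (P := fun _ : Gam => nu) hgh
  have hm : MeasurableSet {p : ℝ × ℝ | p.1 = p.2} := measurableSet_eq_fun measurable_fst measurable_snd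
  have h2 : mu {x : Y | x g = x h} = (mu.map (fun ω => (ω g, ω h))) {p : ℝ × ℝ | p.1 = p.2} := by
    rw [Measure.map_apply (by fun_prop) hm]
    rfl
  rw [h2]
  unfold mu
  rw [h1, Measure.prod_apply hm]
  simp

/-- for almost every `x` the shift orbit map is injective -/
lemma ae_free : ∀ᵐ x ∂mu, Function.Injective (fun g => sh g x) := by
  have : ∀ᵐ x ∂mu, ∀ g h : Gam, g ≠ h → x g ≠ x h := by
    rw [ae_all_iff]
    intro g
    rw [ae_all_iff]
    intro h
    by_cases hgh : g = h
    · simp [hgh]
    · have := mu_eq_null hgh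
      rw [ae_iff]
      simpa [hgh] using this
  filter_upwards [this] with x hx g h hgh
  by_contra hne
  have := congrFun hgh 1
  simp only [sh, mul_one] at this
  exact hx g h hne this

/-- the first generator -/
def al : Gam := FreeGroup.mk [(false, true)]
/-- the second generator -/
def be : Gam := FreeGroup.mk [(true, true)]

/-- vertex set of the graph -/
abbrev X : Type := Y × Fin 3

/-- The directed graph: a midpoint `(y,1)` points to `(y,0)` and `(sh al y, 0)`, and a midpoint
`(y,2)` points to `(y,0)` and `(sh be y, 0)`. -/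
def G : Digraph X where
  Adj p q := (p.2 = 1 ∧ q.2 = 0 ∧ (q.1 = p.1 ∨ q.1 = sh al p.1)) ∨
    (p.2 = 2 ∧ q.2 = 0 ∧ (q.1 = p.1 ∨ q.1 = sh be p.1))

lemma meas_G : MeasurableSet {p : X × X | G.Adj p.1 p.2} := by
  have h1 := measurable_sh al
  have h2 := measurable_sh be
  have e : {p : X × X | G.Adj p.1 p.2} =
      (({p : X × X | p.1.2 = 1} ∩ ({p : X × X | p.2.2 = 0} ∩
        ({p : X × X | p.2.1 = p.1.1} ∪ {p : X × X | p.2.1 = sh al p.1.1}))) ∪
      ({p : X × X | p.1.2 = 2} ∩ ({p : X × X | p.2.2 = 0} ∩
        ({p : X × X | p.2.1 = p.1.1} ∪ {p : X × X | p.2.1 = sh be p.1.1})))) := by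
    ext p
    simp [G]
  rw [e]
  have a1 : MeasurableSet {p : X × X | p.1.2 = 1} :=
    measurableSet_eq_fun (by fun_prop) (by fun_prop)
  have a2 : MeasurableSet {p : X × X | p.1.2 = 2} :=
    measurableSet_eq_fun (by fun_prop) (by fun_prop)
  have a3 : MeasurableSet {p : X × X | p.2.2 = 0} :=
    measurableSet_eq_fun (by fun_prop) (by fun_prop)
  have a4 : MeasurableSet {p : X × X | p.2.1 = p.1.1} :=
    measurableSet_eq_fun (by fun_prop) (by fun_prop)
  have a5 : MeasurableSet {p : X × X | p.2.1 = sh al p.1.1} :=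
    measurableSet_eq_fun (by fun_prop) (h1.comp (by fun_prop))
  have a6 : MeasurableSet {p : X × X | p.2.1 = sh be p.1.1} :=
    measurableSet_eq_fun (by fun_prop) (h2.comp (by fun_prop))
  exact (a1.inter (a3.inter (a4.union a5))).union (a2.inter (a3.inter (a4.union a6)))

lemma out_sub (x : X) : {y : X | G.Adj x y} ⊆ {(x.1, 0), (sh al x.1, 0)} ∪ {(sh be x.1, 0)} := by
  intro y hy
  rcases hy with ⟨_, h2, h3⟩ | ⟨_, h2, h3⟩
  · rcases h3 with h3 | h3
    · left; left; exact Prod.ext h3 h2
    · left; right; exact Prod.ext h3 h2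
  · rcases h3 with h3 | h3
    · left; left; exact Prod.ext h3 h2
    · right; exact Prod.ext h3 h2

lemma in_sub (x : X) : {y : X | G.Adj y x} ⊆
    {(x.1, 1), (sh al⁻¹ x.1, 1), (x.1, 2), (sh be⁻¹ x.1, 2)} := by
  intro y hy
  rcases hy with ⟨h1, h2, h3⟩ | ⟨h1, h2, h3⟩
  · rcases h3 with h3 | h3
    · left; exact Prod.ext h3.symm h1
    · right; left
      refine Prod.ext ?_ h1
      simp only [h3, sh_sh]
      simp [sh_one]
  · rcases h3 with h3 | h3
    · right; right; left; exact Prod.ext h3.symm h1
    · right; right; right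
      refine Prod.ext ?_ h1
      simp only [h3, sh_sh]
      simp [sh_one]

lemma ball_sub (x : X) (n : ℕ) :
    {y : X | ∃ m ≤ n, ∃ f : ℕ → X, f 0 = x ∧ f m = y ∧
            ∀ i < m, G.Adj (f i) (f (i + 1))} ⊆
      {x, (x.1, 0), (sh al x.1, 0), (sh be x.1, 0)} := by
  rintro y ⟨m, _, f, h0, hm, hf⟩
  rcases m with _ | _ | m
  · left
    rw [← hm, h0]
  · right
    have := hf 0 (by norm_num)
    rw [h0] at this
    simp only [zero_add] at this hm
    rw [hm] at this
    have := out_sub x this
    simp only [Set.mem_union, Set.mem_insert_iff, Set.mem_singleton_iff] at this ⊢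
    tauto
  · exfalso
    have e0 := hf 0 (by omega)
    have e1 := hf 1 (by omega)
    have z : (f 1).2 = 0 := by
      rcases e0 with ⟨_, h2, _⟩ | ⟨_, h2, _⟩ <;> simpa using h2
    rcases e1 with ⟨h1, _, _⟩ | ⟨h1, _, _⟩ <;> rw [z] at h1 <;> exact absurd h1 (by decide)

lemma ncard4 {α : Type} (a b c d : α) : ({a, b, c, d} : Set α).ncard ≤ 4 := by
  refine (Set.ncard_insert_le _ _).trans ?_
  have := Set.ncard_insert_le b {c, d}
  have := Set.ncard_insert_le c {d}
  have := Set.ncard_singleton d
  omega

/-- the edge relation connects `(x,0)` with its two neighbours -/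
lemma conn_al (x : Y) : Relation.EqvGen G.Adj (x, 0) (sh al x, 0) := by
  refine Relation.EqvGen.trans _ (x, 1) _ ?_ ?_
  · exact Relation.EqvGen.symm _ _ (Relation.EqvGen.rel _ _ (by simp [G]))
  · exact Relation.EqvGen.rel _ _ (by simp [G])

lemma conn_be (x : Y) : Relation.EqvGen G.Adj (x, 0) (sh be x, 0) := by
  refine Relation.EqvGen.trans _ (x, 2) _ ?_ ?_
  · exact Relation.EqvGen.symm _ _ (Relation.EqvGen.rel _ _ (by simp [G]))
  · exact Relation.EqvGen.rel _ _ (by simp [G])

lemma conn_inv {s : Gam} (h : ∀ x : Y, Relation.EqvGen G.Adj (x, 0) (sh s x, 0)) (x : Y) :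
    Relation.EqvGen G.Adj (x, 0) (sh s⁻¹ x, 0) := by
  have := h (sh s⁻¹ x)
  rw [sh_sh, inv_mul_cancel, sh_one] at this
  exact Relation.EqvGen.symm _ _ this

section main

variable (F : ℕ → X → X → Prop)

/-- the set of group elements keeping `x` in its `F n` class -/
def P (n : ℕ) (x : Y) : Set Gam := {g | F n (x, 0) (sh g x, 0)}

open Classical in
/-- number of elements of `S ∩ P n x` -/
noncomputable def num (n : ℕ) (S : Set Gam) (x : Y) : ℝ≥0∞ :=
  ∑' g : Gam, if g ∈ S ∧ g ∈ P F n x then 1 else 0

/-- the proportion -/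
noncomputable def phi (n : ℕ) (S : Set Gam) (x : Y) : ℝ≥0∞ :=
  num F n S x / num F n univ x

/-- the averaged proportion -/
noncomputable def avg (n : ℕ) (S : Set Gam) : ℝ≥0∞ := ∫⁻ x, phi F n S x ∂mu

variable {F}

lemma meas_P (hM : ∀ n, MeasurableSet {p : X × X | F n p.1 p.2}) (n : ℕ) (g : Gam) :
    MeasurableSet {x : Y | g ∈ P F n x} := by
  have : Measurable (fun x : Y => (((x, 0), (sh g x, 0)) : X × X)) := by
    have := measurable_sh g
    fun_prop
  exact this (hM n)

lemma meas_num (hM : ∀ n, MeasurableSet {p : X × X | F n p.1 p.2}) (n : ℕ) (S : Set Gam) :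
    Measurable (num F n S) := by
  classical
  unfold num
  refine Measurable.tsum fun g => ?_
  by_cases hg : g ∈ S
  · simp only [hg, true_and]
    refine Measurable.ite (meas_P hM n g) measurable_const measurable_const
  · simp [hg]

lemma meas_phi (hM : ∀ n, MeasurableSet {p : X × X | F n p.1 p.2}) (n : ℕ) (S : Set Gam) :
    Measurable (phi F n S) := by
  unfold phi
  exact (meas_num hM n S).div (meas_num hM n univ)

lemma num_mono (n : ℕ) {S T : Set Gam} (h : S ⊆ T) (x : Y) : num F n S x ≤ num F n T x := by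
  classical
  unfold num
  refine ENNReal.tsum_le_tsum fun g => ?_
  by_cases h1 : g ∈ S ∧ g ∈ P F n x
  · have h2 : g ∈ T ∧ g ∈ P F n x := ⟨h h1.1, h1.2⟩
    simp [h1, h2]
  · simp [h1]

lemma phi_le_one (n : ℕ) (S : Set Gam) (x : Y) : phi F n S x ≤ 1 := by
  unfold phi
  exact ENNReal.div_le_of_le_mul (by simpa using num_mono n (subset_univ S) x)

lemma num_union_le (n : ℕ) (S T : Set Gam) (x : Y) :
    num F n (S ∪ T) x ≤ num F n S x + num F n T x := by
  classical
  unfold num
  rw [← ENNReal.tsum_add]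
  refine ENNReal.tsum_le_tsum fun g => ?_
  by_cases h1 : g ∈ S <;> by_cases h2 : g ∈ T <;> by_cases h3 : g ∈ P F n x <;>
    simp [h1, h2, h3]

lemma num_disj (n : ℕ) {S T : Set Gam} (h : Disjoint S T) (x : Y) :
    num F n S x + num F n T x = num F n (S ∪ T) x := by
  classical
  unfold num
  rw [← ENNReal.tsum_add]
  refine tsum_congr fun g => ?_
  by_cases h1 : g ∈ S <;> by_cases h2 : g ∈ T <;> by_cases h3 : g ∈ P F n x <;>
    simp [h1, h2, h3]
  exact (Set.disjoint_left.1 h h1 h2).elim

lemma avg_union_le (hM : ∀ n, MeasurableSet {p : X × X | F n p.1 p.2}) (n : ℕ) (S T : Set Gam) :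
    avg F n (S ∪ T) ≤ avg F n S + avg F n T := by
  unfold avg
  rw [← lintegral_add_left (meas_phi hM n S)]
  refine lintegral_mono fun x => ?_
  unfold phi
  rw [← ENNReal.add_div]
  exact ENNReal.div_le_div_right (num_union_le n S T x) _

lemma avg_disj (hM : ∀ n, MeasurableSet {p : X × X | F n p.1 p.2}) (n : ℕ) {S T : Set Gam}
    (h : Disjoint S T) : avg F n S + avg F n T = avg F n (S ∪ T) := by
  unfold avg
  rw [← lintegral_add_left (meas_phi hM n S)]
  refine lintegral_congr fun x => ?_
  unfold phi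
  rw [← ENNReal.add_div, num_disj n h]

lemma avg_le_one (n : ℕ) (S : Set Gam) : avg F n S ≤ 1 := by
  unfold avg
  calc ∫⁻ x, phi F n S x ∂mu ≤ ∫⁻ _, 1 ∂mu := lintegral_mono fun x => phi_le_one n S x
    _ = 1 := by simp

lemma avg_univ (hE : ∀ n, Equivalence (F n)) (hF : ∀ n x, {y : X | F n x y}.Finite) (n : ℕ) :
    avg F n univ = 1 := by
  classical
  unfold avg
  have : ∀ᵐ x ∂mu, phi F n univ x = 1 := by
    filter_upwards [ae_free] with x hx
    unfold phi
    refine ENNReal.div_self ?_ ?_
    · have h1 : (1 : Gam) ∈ P F n x := by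
        simp only [P, mem_ofPred_eq, sh_one]
        exact (hE n).refl _
      intro h0
      unfold num at h0
      rw [ENNReal.tsum_eq_zero] at h0
      simpa [h1] using h0 1
    · have hfin : (P F n x).Finite := by
        have hinj : Function.Injective (fun g : Gam => ((sh g x, 0) : X)) := by
          intro g h hgh
          exact hx (Prod.ext_iff.1 hgh).1
        exact (hF n (x, 0)).preimage hinj.injOn
      unfold num
      rw [tsum_eq_sum (L := SummationFilter.unconditional _) (s := hfin.toFinset) (by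
        intro g hg
        simp only [Set.Finite.mem_toFinset] at hg
        simp [hg])]
      refine (ENNReal.sum_lt_top.2 fun g _ => ?_).ne
      split_ifs <;> simp
  rw [lintegral_congr_ae this]
  simp

/-- translation lemma -/
lemma phi_translate (hE : ∀ n, Equivalence (F n)) (n : ℕ) (s : Gam) (S : Set Gam) (x : Y)
    (hs : s ∈ P F n x) : phi F n S (sh s x) = phi F n ((fun g => s * g) '' S) x := by
  classical
  have key : ∀ g, g ∈ P F n (sh s x) ↔ s * g ∈ P F n x := by
    intro g
    simp only [P, mem_ofPred_eq, sh_sh] at hs ⊢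
    exact ⟨fun h => (hE n).trans hs h, fun h => (hE n).trans ((hE n).symm hs) h⟩
  have hnum : ∀ T : Set Gam, num F n T (sh s x) = num F n ((fun g => s * g) '' T) x := by
    intro T
    unfold num
    rw [← (Equiv.mulLeft s).tsum_eq
      (fun g => if g ∈ ((fun g => s * g) '' T) ∧ g ∈ P F n x then (1 : ℝ≥0∞) else 0)]
    refine tsum_congr fun g => ?_
    have hmem : (s * g ∈ (fun g => s * g) '' T) ↔ g ∈ T := by simp
    simp only [key, Equiv.coe_mulLeft, hmem]
  have huniv : ((fun g => s * g) '' (univ : Set Gam)) = univ := by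
    rw [Set.image_univ]
    exact (Equiv.mulLeft s).surjective.range_eq
  unfold phi
  rw [hnum S, hnum univ, huniv]

lemma avg_translate (hE : ∀ n, Equivalence (F n))
    (hM : ∀ n, MeasurableSet {p : X × X | F n p.1 p.2}) (n : ℕ) (s : Gam) (S : Set Gam) :
    avg F n S ≤ avg F n ((fun g => s * g) '' S) + mu {x : Y | s ∉ P F n x} := by
  have hA : MeasurableSet {x : Y | s ∉ P F n x} := (meas_P hM n s).compl
  have h1 : avg F n S = ∫⁻ x, phi F n S (sh s x) ∂mu := by
    unfold avg
    exact ((mp_sh s).lintegral_comp (meas_phi hM n S)).symm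
  rw [h1]
  calc ∫⁻ x, phi F n S (sh s x) ∂mu
      ≤ ∫⁻ x, (phi F n ((fun g => s * g) '' S) x +
          ({x : Y | s ∉ P F n x}.indicator (fun _ => 1) x)) ∂mu := by
        refine lintegral_mono fun x => ?_
        by_cases hx : s ∈ P F n x
        · rw [phi_translate hE n s S x hx]
          exact le_self_add
        · have : x ∈ {x : Y | s ∉ P F n x} := hx
          simp only [this, indicator_of_mem]
          exact (phi_le_one n S _).trans le_add_self
    _ = avg F n ((fun g => s * g) '' S) + mu {x : Y | s ∉ P F n x} := by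
        rw [lintegral_add_left (meas_phi hM n _), lintegral_indicator_const hA]
        simp [avg]

lemma tendsto_bad (hM : ∀ n, MeasurableSet {p : X × X | F n p.1 p.2})
    (hmono : ∀ n x y, F n x y → F (n + 1) x y)
    (hU : ∀ x y, Relation.EqvGen G.Adj x y ↔ ∃ n, F n x y)
    {s : Gam} (hs : ∀ x : Y, Relation.EqvGen G.Adj (x, 0) (sh s x, 0)) :
    Filter.Tendsto (fun n => mu {x : Y | s ∉ P F n x}) Filter.atTop (nhds 0) := by
  have hanti : Antitone (fun n => {x : Y | s ∉ P F n x}) := by
    refine antitone_nat_of_succ_le fun n x hx h => hx (hmono n _ _ h)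
  have := tendsto_measure_iInter_atTop (μ := mu) (s := fun n => {x : Y | s ∉ P F n x})
    (fun n => ((meas_P hM n s).compl).nullMeasurableSet) hanti ⟨0, measure_ne_top _ _⟩
  have he : (⋂ n, {x : Y | s ∉ P F n x}) = ∅ := by
    ext x
    simp only [mem_iInter, mem_ofPred_eq, mem_empty_iff_false, iff_false, not_forall, not_not]
    exact (hU _ _).1 (hs x)
  rwa [he, measure_empty] at this

lemma cover (b : Bool) : (univ : Set Gam) ⊆ FreeGroup.startsWith (b, true) ∪
    ((fun g => (FreeGroup.mk [(b, true)] : Gam) * g) '' (FreeGroup.startsWith (b, false))) := by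
  intro g _
  by_cases hg : g ∈ FreeGroup.startsWith (b, true)
  · exact Or.inl hg
  · right
    refine ⟨FreeGroup.mk [(b, false)] * g, FreeGroup.startsWith_mk_mul (w := (b, false)) g hg, ?_⟩
    simp only [← mul_assoc, FreeGroup.mul_mk]
    have : (FreeGroup.mk ([(b, true)] ++ [(b, false)]) : Gam) = 1 := by
      rw [← FreeGroup.toWord_inj]
      simp
    rw [this, one_mul]

lemma half (hE : ∀ n, Equivalence (F n))
    (hM : ∀ n, MeasurableSet {p : X × X | F n p.1 p.2})
    (hF : ∀ n x, {y : X | F n x y}.Finite) (n : ℕ) (b : Bool) :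
    1 ≤ avg F n (FreeGroup.startsWith (b, true)) + avg F n (FreeGroup.startsWith (b, false)) +
      mu {x : Y | (FreeGroup.mk [(b, true)] : Gam)⁻¹ ∉ P F n x} := by
  have h1 := avg_univ hE hF n
  have h2 : avg F n univ ≤ avg F n (FreeGroup.startsWith (b, true) ∪
    ((fun g => (FreeGroup.mk [(b, true)] : Gam) * g) '' (FreeGroup.startsWith (b, false)))) := by
    unfold avg
    refine lintegral_mono fun x => ?_
    unfold phi
    exact ENNReal.div_le_div_right (num_mono n (cover b) x) _
  have h3 := avg_union_le hM n (FreeGroup.startsWith (b, true))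
    ((fun g => (FreeGroup.mk [(b, true)] : Gam) * g) '' (FreeGroup.startsWith (b, false)))
  have h4 := avg_translate hE hM n (FreeGroup.mk [(b, true)] : Gam)⁻¹
    ((fun g => (FreeGroup.mk [(b, true)] : Gam) * g) '' (FreeGroup.startsWith (b, false)))
  have h5 : (fun g => (FreeGroup.mk [(b, true)] : Gam)⁻¹ * g) ''
      ((fun g => (FreeGroup.mk [(b, true)] : Gam) * g) '' (FreeGroup.startsWith (b, false))) =
      FreeGroup.startsWith (b, false) := by
    rw [Set.image_image]
    simp only [inv_mul_cancel_left, Set.image_id']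
  rw [h5] at h4
  calc (1 : ℝ≥0∞) = avg F n univ := h1.symm
    _ ≤ _ := h2
    _ ≤ _ := h3
    _ ≤ avg F n (FreeGroup.startsWith (b, true)) + (avg F n (FreeGroup.startsWith (b, false)) +
      mu {x : Y | (FreeGroup.mk [(b, true)] : Gam)⁻¹ ∉ P F n x}) := by gcongr
    _ = _ := by rw [add_assoc]

lemma total (hM : ∀ n, MeasurableSet {p : X × X | F n p.1 p.2}) (n : ℕ) :
    (avg F n (FreeGroup.startsWith (false, true)) + avg F n (FreeGroup.startsWith (false, false))) +
    (avg F n (FreeGroup.startsWith (true, true)) + avg F n (FreeGroup.startsWith (true, false)))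
      ≤ 1 := by
  have d1 : Disjoint (FreeGroup.startsWith (false, true)) (FreeGroup.startsWith (false, false)) := by
    rw [FreeGroup.startsWith.disjoint_iff_ne]; simp
  have d2 : Disjoint (FreeGroup.startsWith (true, true)) (FreeGroup.startsWith (true, false)) := by
    rw [FreeGroup.startsWith.disjoint_iff_ne]; simp
  have d3 : Disjoint (FreeGroup.startsWith (false, true) ∪ FreeGroup.startsWith (false, false))
      (FreeGroup.startsWith (true, true) ∪ FreeGroup.startsWith (true, false)) := by
    simp [Set.disjoint_union_left, Set.disjoint_union_right]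
  rw [avg_disj hM n d1, avg_disj hM n d2, avg_disj hM n d3]
  exact avg_le_one n _

theorem not_hyperfinite (hE : ∀ n, Equivalence (F n))
    (hM : ∀ n, MeasurableSet {p : X × X | F n p.1 p.2})
    (hF : ∀ n x, {y : X | F n x y}.Finite)
    (hmono : ∀ n x y, F n x y → F (n + 1) x y)
    (hU : ∀ x y, Relation.EqvGen G.Adj x y ↔ ∃ n, F n x y) : False := by
  have t1 := tendsto_bad hM hmono hU (s := (FreeGroup.mk [(false, true)] : Gam)⁻¹)
    (conn_inv conn_al)
  have t2 := tendsto_bad hM hmono hU (s := (FreeGroup.mk [(true, true)] : Gam)⁻¹)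
    (conn_inv conn_be)
  have e1 := (ENNReal.tendsto_nhds_zero.1 t1) (1/4) (by norm_num)
  have e2 := (ENNReal.tendsto_nhds_zero.1 t2) (1/4) (by norm_num)
  obtain ⟨n, hn1, hn2⟩ := (e1.and e2).exists
  have h1 := half hE hM hF n false
  have h2 := half hE hM hF n true
  have h3 := total hM (F := F) n
  have h4 : (2 : ℝ≥0∞) ≤ 1 + (1/4 + 1/4) := by
    calc (2 : ℝ≥0∞) = 1 + 1 := by norm_num
      _ ≤ _ := add_le_add h1 h2
      _ = ((avg F n (FreeGroup.startsWith (false, true)) +
          avg F n (FreeGroup.startsWith (false, false))) +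
          (avg F n (FreeGroup.startsWith (true, true)) +
          avg F n (FreeGroup.startsWith (true, false)))) +
          (mu {x : Y | (FreeGroup.mk [(false, true)] : Gam)⁻¹ ∉ P F n x} +
          mu {x : Y | (FreeGroup.mk [(true, true)] : Gam)⁻¹ ∉ P F n x}) := by ring
      _ ≤ _ := by gcongr
  have h5 : (1 : ℝ≥0∞) + (1/4 + 1/4) < 2 := by
    have : (1/4 : ℝ≥0∞) = ENNReal.ofReal (1/4) := by
      rw [ENNReal.ofReal_div_of_pos (by norm_num)]
      simp
    rw [this, ← ENNReal.ofReal_add (by norm_num) (by norm_num),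
      show (1 : ℝ≥0∞) = ENNReal.ofReal 1 by simp,
      ← ENNReal.ofReal_add (by norm_num) (by norm_num),
      show (2 : ℝ≥0∞) = ENNReal.ofReal 2 by simp,
      ENNReal.ofReal_lt_ofReal_iff (by norm_num)]
    norm_num
  exact absurd h4 (not_le.2 h5)

end main

/-- The negation of the preceding statement: For a Borel locally finite directed graph on a standard Borel space with bounded in-degrees and out-balls of size at most C(n+1)^k, its connectedness relation is an increasing union of Borel equivalence relations with finite classes. -/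
theorem result :
    ¬ (∀ (X : Type) [MeasurableSpace X] [StandardBorelSpace X] (G : Digraph X),
      MeasurableSet {p : X × X | G.Adj p.1 p.2} →
      (∀ x : X, {y : X | G.Adj x y}.Finite) →
      (∀ x : X, {y : X | G.Adj y x}.Finite) →
      (∃ d : ℕ, ∀ x : X, {y : X | G.Adj y x}.ncard ≤ d) →
      (∃ C k : ℕ, ∀ (x : X) (n : ℕ),
        {y : X | ∃ m ≤ n, ∃ f : ℕ → X, f 0 = x ∧ f m = y ∧
            ∀ i < m, G.Adj (f i) (f (i + 1))}.ncard ≤ C * (n + 1) ^ k) →
      ∃ F : ℕ → X → X → Prop,
        (∀ n, Equivalence (F n)) ∧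
        (∀ n, MeasurableSet {p : X × X | F n p.1 p.2}) ∧
        (∀ n x, {y : X | F n x y}.Finite) ∧
        (∀ n x y, F n x y → F (n + 1) x y) ∧
        (∀ x y, Relation.EqvGen G.Adj x y ↔ ∃ n, F n x y)) := by
  intro H
  obtain ⟨F, hE, hM, hF, hmono, hU⟩ := H X G meas_G
    (fun x => Set.Finite.subset (by simp [Set.toFinite]) (out_sub x))
    (fun x => Set.Finite.subset (by simp [Set.toFinite]) (in_sub x))
    ⟨4, fun x => (Set.ncard_le_ncard (in_sub x) (by simp [Set.toFinite])).trans (ncard4 _ _ _ _)⟩
    ⟨4, 0, fun x n => by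
      simpa using (Set.ncard_le_ncard (ball_sub x n) (by simp [Set.toFinite])).trans
        (ncard4 _ _ _ _)⟩
  exact not_hyperfinite hE hM hF hmono hU

end Pool.Agent.S09562
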