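import Pool.Statements.S03661
-- import your own Pool.Agent.* helpers here

set_option autoImplicit false
open MeasureTheory
open Pool Pool.MP_98de44_an

namespace Pool.Agent.S03661

section

/-- invariant functions of the product map are constant -/
lemma inv_const {α : Type} [MeasurableSpace α] (μ : Measure α) [SigmaFinite μ] (T : α → α)
    (hR : Ergodic (Prod.map T T) (μ.prod μ)) (g : α × α → ℂ) (hg : Measurable g)
    (h : ∀ᵐ p ∂(μ.prod μ), g (Prod.map T T p) = g p) :
    ∃ a : ℂ, ∀ᵐ p ∂(μ.prod μ), g p = a := by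
  obtain ⟨c, hc⟩ := hR.ae_eq_const_of_ae_eq_comp_ae (g := g) hg.aestronglyMeasurable h
  exact ⟨c, hc⟩

/-- a nowhere vanishing eigenfunction of T has eigenvalue one -/
lemma eig_one {α : Type} [MeasurableSpace α] (μ : Measure α) [SigmaFinite μ] (T : α → α)
    (hT : MeasurePreserving T μ μ) (hμ : μ ≠ 0)
    (hR : Ergodic (Prod.map T T) (μ.prod μ)) (φ : α → ℂ) (hφ : Measurable φ) (s : ℂ)
    (h0 : ∀ᵐ x ∂μ, φ x ≠ 0) (h : ∀ᵐ x ∂μ, φ (T x) = s * φ x) : s = 1 := by
  have hne : (ae μ).NeBot := ae_neBot.2 hμ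
  have h0T : ∀ᵐ x ∂μ, φ (T x) ≠ 0 := hT.quasiMeasurePreserving.ae h0
  have hs : s ≠ 0 := by
    rintro rfl
    obtain ⟨x, h1, h2⟩ := (h.and h0T).exists
    rw [zero_mul] at h1
    exact h2 h1
  have q1 : Measure.QuasiMeasurePreserving (Prod.fst : α × α → α) (μ.prod μ) μ :=
    Measure.quasiMeasurePreserving_fst
  have q2 : Measure.QuasiMeasurePreserving (Prod.snd : α × α → α) (μ.prod μ) μ :=
    Measure.quasiMeasurePreserving_snd
  obtain ⟨k, hk⟩ := inv_const μ T hR (fun p => φ p.1 / φ p.2)
    ((hφ.comp measurable_fst).div (hφ.comp measurable_snd)) (by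
      filter_upwards [q1.ae h, q2.ae h] with p h1 h2
      simp only [Prod.map_fst, Prod.map_snd]
      rw [h1, h2, mul_div_mul_left _ _ hs])
  have hk2 := Measure.ae_ae_of_ae_prod hk
  obtain ⟨x, h1, h2⟩ := (hk2.and h0).exists
  -- phi is constant
  have h3 : ∀ᵐ y ∂μ, φ x = k * φ y := by
    filter_upwards [h1, h0] with y h4 h5
    rw [← h4]
    field_simp
  have hk0 : k ≠ 0 := by
    rintro rfl
    obtain ⟨y, hy⟩ := h3.exists
    rw [zero_mul] at hy
    exact h2 hy
  have h4 : ∀ᵐ y ∂μ, φ y = φ x / k := by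
    filter_upwards [h3] with y hy
    rw [hy]
    field_simp
  have h5 : ∀ᵐ y ∂μ, φ (T y) = φ x / k := hT.quasiMeasurePreserving.ae h4
  obtain ⟨y, h6, h7, h8, h9⟩ := (h4.and (h5.and (h.and h0))).exists
  rw [h7, ← h6] at h8
  have : (1 - s) * φ y = 0 := by rw [sub_mul, one_mul, ← h8, sub_self]
  rcases mul_eq_zero.1 this with h | h
  · exact (sub_eq_zero.1 h).symm
  · exact absurd h h9

/-- the main argument, with no conservativity or infiniteness needed -/
lemma core {α : Type} [MeasurableSpace α] (μ : Measure α) [SigmaFinite μ] (T : α → α)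
    (hT : MeasurePreserving T μ μ)
    (hR : Ergodic (Prod.map T T) (μ.prod μ)) (f : α × α → ℂ) (hf : Measurable f) (c : ℂ)
    (h : ∀ᵐ p ∂(μ.prod μ), f (Prod.map T T p) = c * f p) :
    ∃ a : ℂ, ∀ᵐ p ∂(μ.prod μ), f p = a := by
  by_cases hμ : μ = 0
  · refine ⟨0, ?_⟩
    subst hμ
    simp
  have hRp : MeasurePreserving (Prod.map T T) (μ.prod μ) (μ.prod μ) := hR.toMeasurePreserving
  have hne : (ae μ).NeBot := ae_neBot.2 hμ
  by_cases hc : c = 0
  · subst hc
    have h1 : (μ.prod μ) ((Prod.map T T) ⁻¹' {p | f p = 0}ᶜ) = 0 := by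
      rw [measure_eq_zero_iff_ae_notMem]
      filter_upwards [h] with p hp
      rw [zero_mul] at hp
      simpa using hp
    rw [hRp.measure_preimage (measurableSet_eq_fun hf measurable_const).compl.nullMeasurableSet,
      measure_eq_zero_iff_ae_notMem] at h1
    refine ⟨0, ?_⟩
    filter_upwards [h1] with p hp
    simpa using hp
  -- the zero set
  have hZ : (∀ᵐ p ∂(μ.prod μ), f p = 0) ∨ (∀ᵐ p ∂(μ.prod μ), f p ≠ 0) := by
    obtain ⟨a, ha⟩ := inv_const μ T hR ({p | f p = 0}.indicator (fun _ => (1 : ℂ)))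
      (measurable_const.indicator (measurableSet_eq_fun hf measurable_const)) (by
        filter_upwards [h] with p hp
        have : f (Prod.map T T p) = 0 ↔ f p = 0 := by rw [hp]; simp [hc]
        by_cases h0 : f p = 0
        · simp [this, h0]
        · simp [this, h0])
    by_cases ha1 : a = 1
    · left
      filter_upwards [ha] with p hp
      by_contra h0
      rw [ha1] at hp
      simp [h0] at hp
    · right
      filter_upwards [ha] with p hp
      intro h0
      apply ha1
      rw [← hp]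
      simp [h0]
  rcases hZ with hZ | hZ
  · exact ⟨0, hZ⟩
  have pT1 : MeasurePreserving (Prod.map T id) (μ.prod μ) (μ.prod μ) :=
    hT.prod (MeasurePreserving.id μ)
  have pT2 : MeasurePreserving (Prod.map id T) (μ.prod μ) (μ.prod μ) :=
    (MeasurePreserving.id μ).prod hT
  have pS : MeasurePreserving Prod.swap (μ.prod μ) (μ.prod μ) := Measure.measurePreserving_swap
  have mT : Measurable T := hT.measurable
  -- eigenvalue along the first factor
  obtain ⟨s, hs⟩ := inv_const μ T hR (fun p => f (Prod.map T id p) / f p)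
    ((hf.comp pT1.measurable).div hf) (by
      filter_upwards [pT1.quasiMeasurePreserving.ae h, h] with p h1 h2
      have e : Prod.map T id (Prod.map T T p) = Prod.map T T (Prod.map T id p) := rfl
      rw [e, h1, h2, mul_div_mul_left _ _ hc])
  obtain ⟨t, ht⟩ := inv_const μ T hR (fun p => f (Prod.map id T p) / f p)
    ((hf.comp pT2.measurable).div hf) (by
      filter_upwards [pT2.quasiMeasurePreserving.ae h, h] with p h1 h2
      have e : Prod.map id T (Prod.map T T p) = Prod.map T T (Prod.map id T p) := rfl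
      rw [e, h1, h2, mul_div_mul_left _ _ hc])
  have hs' : ∀ᵐ p ∂(μ.prod μ), f (Prod.map T id p) = s * f p := by
    filter_upwards [hs, hZ] with p h1 h2
    rw [← h1]; field_simp
  have ht' : ∀ᵐ p ∂(μ.prod μ), f (Prod.map id T p) = t * f p := by
    filter_upwards [ht, hZ] with p h1 h2
    rw [← h1]; field_simp
  have t1 : t = 1 := by
    obtain ⟨x, h1, h2⟩ := ((Measure.ae_ae_of_ae_prod ht').and (Measure.ae_ae_of_ae_prod hZ)).exists
    exact eig_one μ T hT hμ hR (fun y => f (x, y)) (hf.comp (by fun_prop)) t h2 h1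
  have s1 : s = 1 := by
    have hs2 := pS.quasiMeasurePreserving.ae hs'
    have hZ2 := pS.quasiMeasurePreserving.ae hZ
    obtain ⟨y, h1, h2⟩ := ((Measure.ae_ae_of_ae_prod hs2).and (Measure.ae_ae_of_ae_prod hZ2)).exists
    exact eig_one μ T hT hμ hR (fun x => f (x, y)) (hf.comp (by fun_prop)) s h2 h1
  refine inv_const μ T hR f hf ?_
  filter_upwards [pT2.quasiMeasurePreserving.ae hs', ht'] with p h1 h2
  have e : Prod.map T T p = Prod.map T id (Prod.map id T p) := rfl
  rw [e, h1, h2, s1, t1, one_mul, one_mul]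

end

/-- Take an invertible, conservative, measure-preserving map T on an infinite σ-finite standard space with T×T ergodic. Then T×T has no nonconstant eigenfunctions: any measurable f with f∘(T×T) = c·f a.e. is a.e. constant. -/
theorem result :
    ∀ (α : Type) [MeasurableSpace α] [StandardBorelSpace α]
      (μ : MeasureTheory.Measure α) [MeasureTheory.SigmaFinite μ] (T : α ≃ᵐ α),
      μ Set.univ = ⊤ →
      MeasureTheory.MeasurePreserving (⇑T) μ μ →
      MeasureTheory.Conservative (⇑T) μ →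
      Ergodic (Prod.map ⇑T ⇑T) (μ.prod μ) →
      ∀ (f : α × α → ℂ), Measurable f → ∀ c : ℂ,
        (f ∘ Prod.map ⇑T ⇑T =ᵐ[μ.prod μ] fun x => c * f x) →
        ∃ a : ℂ, f =ᵐ[μ.prod μ] fun _ => a := by
  intro α _ _ μ _ T _ hT _ hR f hf c h
  exact core μ T hT hR f hf c h

end Pool.Agent.S03661
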