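-- Proof of frozen statement S07067 (every p ≥ 1 is the period of an element of some misère quotient).
-- The class of games, its misère P-positions and the recursion are in Pool/Agent/MisPer/*.lean.
import Pool.Statements.S07067
import Pool.Agent.MisPer.Red

set_option autoImplicit false
open Pool Pool.MP_bc0e65_co

namespace Pool.Agent.S07067

open Pool.Agent.MisPer

theorem PPc_shift {r n i l : ℕ} {Y : Multiset (Atom r)} :
    PPc n i l Y ↔ PPc (n + (4 * r + 8)) i l Y := by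
  match i with
  | 0 =>
    have h1 : ∀ a b : ℕ, a % 2 = b % 2 → (PP0 a Y ↔ PP0 b Y) := by
      intro a b h
      unfold PP0 G AN AP
      rw [h]
    exact h1 _ _ (by omega)
  | 1 =>
    have h1 : ∀ k, chi r (k + (4 * r + 7) * (n + l % 2)) ↔
        chi r (k + (4 * r + 7) * (n + (4 * r + 8) + l % 2)) := by
      intro k
      apply chi_congr
      rw [show k + (4 * r + 7) * (n + (4 * r + 8) + l % 2) =
        k + (4 * r + 7) * (n + l % 2) + (4 * r + 8) * (4 * r + 7) by ring, Nat.add_mul_mod_self_left]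
    constructor
    · rintro ⟨k, hk, hc⟩
      exact ⟨k, hk, (h1 k).1 hc⟩
    · rintro ⟨k, hk, hc⟩
      exact ⟨k, hk, (h1 k).2 hc⟩
  | i + 2 =>
    have h1 : (n + (4 * r + 8)) % 2 = n % 2 := by omega
    constructor
    · rintro ⟨h, h2⟩
      exact ⟨h, by rw [h1]; exact h2⟩
    · rintro ⟨h, h2⟩
      exact ⟨h, by rw [← h1]; exact h2⟩

theorem sum_eq {r : ℕ} (n : ℕ) (X : Multiset (Pos r)) :
    (n • ({((4, 0, 0, 0) : Pos r)} : Multiset (Pos r)) + X).sum =
      (4 * n + X.sum.1, X.sum.2.1, X.sum.2.2.1, X.sum.2.2.2) := by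
  rw [Multiset.sum_add, Multiset.sum_nsmul, Multiset.sum_singleton]
  obtain ⟨a, b, c, d⟩ := X.sum
  simp [mul_comm]

theorem chi0 {r : ℕ} : chi r 0 := by
  left; simp

theorem Th_row {r n k : ℕ} {Y : Multiset (Atom r)} (hk : Th k Y) :
    PPc n 1 0 Y ↔ chi r (k + (4 * r + 7) * n) := by
  constructor
  · rintro ⟨k', hk', hc⟩
    rw [Th_unique hk' hk] at hc
    exact hc
  · intro h
    exact ⟨k, hk, h⟩

theorem main_part (r : ℕ) : ∃ (α : Type) (opt : α → α → Prop), WellFounded opt ∧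
    (∀ a : α, {b : α | opt b a}.Finite) ∧
    ∃ P : Multiset α → Prop,
      (∀ s : Multiset α, P s ↔
        ((∃ a : α, ∃ t : Multiset α, ∃ b : α, s = a ::ₘ t ∧ opt b a) ∧
          ∀ a : α, ∀ t : Multiset α, ∀ b : α, s = a ::ₘ t → opt b a → ¬ P (b ::ₘ t))) ∧
      ∃ g : Multiset α,
        (∃ n : ℕ, ∀ X : Multiset α, (P (n • g + X) ↔ P ((n + (r + 2)) • g + X))) ∧
        ∀ q : ℕ, 0 < q → q < r + 2 →
          ¬ ∃ n : ℕ, ∀ X : Multiset α, (P (n • g + X) ↔ P ((n + q) • g + X)) := by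
  refine ⟨Pos r, Mv, wf, Mv_finite, fun s => PP s.sum, P_rec, {(4, 0, 0, 0)}, ⟨0, ?_⟩, ?_⟩
  · intro X
    simp only [sum_eq]
    obtain ⟨a, b, c, d⟩ := X.sum
    show PPc (4 * 0 + a) b c d ↔ PPc (4 * (0 + (r + 2)) + a) b c d
    rw [show 4 * 0 + a = a by ring, show 4 * (0 + (r + 2)) + a = a + (4 * r + 8) by ring]
    exact PPc_shift
  · rintro q hq0 hq ⟨n, hn⟩
    obtain ⟨q', hq'⟩ : ∃ q', q + q' = r + 2 := ⟨r + 2 - q, by omega⟩
    have key : ∀ (k : ℕ) (Y : Multiset (Atom r)), Th k Y → (chi r k ↔ chi r (k + 4 * q')) := by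
      intro k Y hk
      have h1 := hn {((4 * n * (r + 1), 1, 0, Y) : Pos r)}
      simp only [sum_eq, Multiset.sum_singleton] at h1
      have h2 : PPc (4 * n + 4 * n * (r + 1)) 1 0 Y ↔ PPc (4 * (n + q) + 4 * n * (r + 1)) 1 0 Y := h1
      rw [Th_row hk, Th_row hk] at h2
      have e1 : chi r (k + (4 * r + 7) * (4 * n + 4 * n * (r + 1))) ↔ chi r k := by
        apply chi_congr
        rw [show k + (4 * r + 7) * (4 * n + 4 * n * (r + 1)) = k + (4 * r + 8) * ((4 * r + 7) * n) by ring,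
          Nat.add_mul_mod_self_left]
      have e2 : chi r (k + (4 * r + 7) * (4 * (n + q) + 4 * n * (r + 1))) ↔ chi r (k + 4 * q') := by
        apply chi_congr
        have e3 : k + (4 * r + 7) * (4 * (n + q) + 4 * n * (r + 1)) + (4 * r + 8) =
            k + 4 * q' + (4 * r + 8) * ((4 * r + 7) * n + 4 * q) := by
          calc k + (4 * r + 7) * (4 * (n + q) + 4 * n * (r + 1)) + (4 * r + 8)
              = k + (4 * r + 7) * (4 * (n + q) + 4 * n * (r + 1)) + 4 * (r + 2) := by ring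
            _ = k + (4 * r + 7) * (4 * (n + q) + 4 * n * (r + 1)) + 4 * (q + q') := by rw [hq']
            _ = k + 4 * q' + (4 * r + 8) * ((4 * r + 7) * n + 4 * q) := by ring
        rw [← Nat.add_mod_right, e3, Nat.add_mul_mod_self_left]
      rw [e1, e2] at h2
      exact h2
    have hq'1 : 0 < q' := by omega
    have hq'2 : q' < r + 2 := by omega
    by_cases h1 : 4 * q' < 2 * r + 4
    · -- use the thin atom number `2 r + 2`
      have h2 := key (2 * r + 2) {.y ⟨2 * r + 1, by omega⟩} (Or.inr ⟨⟨2 * r + 1, by omega⟩, rfl, rfl⟩)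
      have h3 : chi r (2 * r + 2) := by
        left
        have e0 : (2 * r + 2) % (4 * r + 8) = 2 * r + 2 := Nat.mod_eq_of_lt (by omega)
        rw [e0]
        omega
      have h4 := h2.1 h3
      unfold chi at h4
      have e1 : (2 * r + 2 + 4 * q') % (4 * r + 8) = 2 * r + 2 + 4 * q' := Nat.mod_eq_of_lt (by omega)
      rw [e1] at h4
      omega
    · have h2 := key 0 0 (Or.inl ⟨rfl, rfl⟩)
      have h4 := h2.1 chi0
      unfold chi at h4
      have e1 : (0 + 4 * q') % (4 * r + 8) = 4 * q' := by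
        rw [Nat.zero_add]; exact Nat.mod_eq_of_lt (by omega)
      rw [e1] at h4
      omega

theorem one_part : ∃ (α : Type) (opt : α → α → Prop), WellFounded opt ∧
    (∀ a : α, {b : α | opt b a}.Finite) ∧
    ∃ P : Multiset α → Prop,
      (∀ s : Multiset α, P s ↔
        ((∃ a : α, ∃ t : Multiset α, ∃ b : α, s = a ::ₘ t ∧ opt b a) ∧
          ∀ a : α, ∀ t : Multiset α, ∀ b : α, s = a ::ₘ t → opt b a → ¬ P (b ::ₘ t))) ∧
      ∃ g : Multiset α,
        (∃ n : ℕ, ∀ X : Multiset α, (P (n • g + X) ↔ P ((n + 1) • g + X))) ∧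
        ∀ q : ℕ, 0 < q → q < 1 →
          ¬ ∃ n : ℕ, ∀ X : Multiset α, (P (n • g + X) ↔ P ((n + q) • g + X)) := by
  refine ⟨PUnit, fun _ _ => False, ⟨fun a => ⟨a, fun b h => h.elim⟩⟩, ?_, fun _ => False, ?_, 0, ⟨0, ?_⟩, ?_⟩
  · intro a
    exact Set.toFinite _
  · intro s
    constructor
    · intro h; exact h.elim
    · rintro ⟨⟨a, t, b, -, h⟩, -⟩
      exact h
  · intro X; exact Iff.rfl
  · intro q h1 h2
    omega

/-- For every p ≥ 1 there is a closed class of short games and a sum g of them whose misère-quotient element has period exactly p: g^n equals g^(n+p) for some n, and no smaller q ≥ 1 works. -/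
theorem result :
  ∀ p : ℕ, 0 < p → ∃ (α : Type) (opt : α → α → Prop), WellFounded opt ∧
    (∀ a : α, {b : α | opt b a}.Finite) ∧
    ∃ P : Multiset α → Prop,
      (∀ s : Multiset α, P s ↔
        ((∃ a : α, ∃ t : Multiset α, ∃ b : α, s = a ::ₘ t ∧ opt b a) ∧
          ∀ a : α, ∀ t : Multiset α, ∀ b : α, s = a ::ₘ t → opt b a → ¬ P (b ::ₘ t))) ∧
      ∃ g : Multiset α,
        (∃ n : ℕ, ∀ X : Multiset α, (P (n • g + X) ↔ P ((n + p) • g + X))) ∧
        ∀ q : ℕ, 0 < q → q < p →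
          ¬ ∃ n : ℕ, ∀ X : Multiset α, (P (n • g + X) ↔ P ((n + q) • g + X)) := by
  intro p hp
  by_cases h1 : p = 1
  · subst h1
    exact one_part
  · obtain ⟨r, rfl⟩ : ∃ r, p = r + 2 := ⟨p - 2, by omega⟩
    exact main_part r

end Pool.Agent.S07067
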