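import Pool.Statements.S07416

set_option autoImplicit false
open Pool Pool.MP_d28c7d_co

namespace Pool.Agent.S07416

section PartA

/-- The hypotheses on the pattern `p` (the values of a permutation of `0..n-1`). -/
structure Hyp (n i d : ℕ) (p : ℕ → ℕ) : Prop where
  hn : 30 ≤ n
  lt : ∀ k, k < n → p k < n
  inj : ∀ a b, a < n → b < n → p a = p b → a = b
  surj : ∀ w, w < n → ∃ k, k < n ∧ p k = w
  c1 : p 3 < p 2
  c2 : p 2 < p (n-4)
  c3 : p (n-4) < p (n-5)
  c4 : p (n-5) < p (n-2)
  c5 : p (n-2) < p 0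
  c6 : p 0 < p 4
  c7 : p 4 < p 5
  c8 : p 5 < p 6
  c9 : p 6 < p (n-1)
  c10 : p (n-1) < p (n-6)
  c11 : p (n-6) < p (n-7)
  c12 : p (n-7) < p 1
  c13 : p 1 < p 7
  c14 : p 7 < p 8
  c15 : p 8 < p 9
  c16 : p 9 < p (n-3)
  c17 : p (n-3) < p (n-8)
  i1 : 1 ≤ i
  i2 : i + 2 < n
  bond : p i = p (i+1) + 1
  l1 : p (i-1) < p i
  r1 : p (i+1) < p (i+2)
  e1 : 1 ≤ p (i+1)
  e2 : p i + 2 ≤ n
  d1 : i + 1 < d
  d2 : d < n
  d3 : p d + 1 = p (i+1)

theorem inc (f : ℕ → ℕ) (s n : ℕ) (hf : ∀ a b, s ≤ a → a < b → b < n → f a < f b) :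
    ∀ a b, s ≤ a → a ≤ b → b < n → f a + (b - a) ≤ f b := by
  intro a b hs hab hb
  induction b, hab using Nat.le_induction with
  | base => simp
  | succ m hm ih =>
    have h1 := ih (by omega)
    have h2 := hf m (m+1) (by omega) (by omega) hb
    omega

/-- Data of a copy of the pattern inside the first configuration, in coordinates. -/
structure CS (n i : ℕ) (p x y : ℕ → ℕ) : Prop where
  hX : ∀ a b, a < b → b < n → x a < x b
  hY : ∀ a b, a < n → b < n → p a < p b → y a < y b
  f1 : ∀ k, k < n → x k < n → x k ≠ i → 2*n ≤ y k ∧ y k < 4*n ∧ y k = 2*n + 2 * p (x k)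
  f2 : ∀ k, k < n → x k = i → 4*n ≤ y k
  f3 : ∀ k, k < n → n ≤ x k → 2*n ≤ y k → y k < 4*n →
    (y k + 1 = 2*n + 2 * p (i+1) ∨ y k = 2*n + 2 * p (i+1) + 1)
  f4 : ∀ k, k < n → n ≤ x k → n + 2 ≤ x k ∧ x k < 2 * n
  f5 : ∀ k, k < n → x k = n + k → p k + 1 = p 0 → y k + 1 = 2*n + 2 * p (i+1)
  f6 : ∀ k, k < n → x k = n + k → p k = p 0 + 1 → y k = 2*n + 2 * p (i+1) + 1
  f7 : ∀ k, k < n → x k = n + k → p 0 + 1 < p k → 4*n ≤ y k

section S
variable {n i d : ℕ} {p x y : ℕ → ℕ}

theorem CS.lowb (C : CS n i p x y) : ∀ k, k < n → k ≤ x k := by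
  intro k hk
  have u1 := inc x 0 n (fun a b _ hab hb => C.hX a b hab hb) 0 k (le_refl _) (by omega) hk
  omega

/-- two block points with three far points between them in value -/
theorem CS.pair (C : CS n i p x y) (a b k1 k2 k3 : ℕ) (ha : a < n) (hb : b < n)
    (h1 : k1 < n) (h2 : k2 < n) (h3 : k3 < n)
    (xa : x a < n) (xa' : x a ≠ i) (xb : x b < n) (xb' : x b ≠ i)
    (x1 : n ≤ x k1) (x2 : n ≤ x k2) (x3 : n ≤ x k3)
    (p1 : p a < p k1) (p2 : p k1 < p k2) (p3 : p k2 < p k3) (p4 : p k3 < p b) : False := by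
  have A := C.f1 a ha xa xa'
  have B := C.f1 b hb xb xb'
  have y1 := C.hY a k1 ha h1 p1
  have y2 := C.hY k1 k2 h1 h2 p2
  have y3 := C.hY k2 k3 h2 h3 p3
  have y4 := C.hY k3 b h3 hb p4
  have := C.f3 k1 h1 x1 (by omega) (by omega)
  have := C.f3 k2 h2 x2 (by omega) (by omega)
  have := C.f3 k3 h3 x3 (by omega) (by omega)
  omega

/-- at most one point is the exceptional point -/
theorem CS.uniq (C : CS n i p x y) (a b : ℕ) (hab : a < b) (hb : b < n) (h : x b = i) :
    x a < n ∨ n ≤ i := by
  have := C.hX a b hab hb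
  omega

/-- A far point whose value is between the values of `a, b` resp. `c, e`, all in the left part. -/
theorem CS.far (C : CS n i p x y) (_hi : i < n) (k a b c e : ℕ) (hk : k < n) (ha : a < b) (hb : b < n)
    (hc : c < e) (he : e < n) (_xk : n ≤ x k) (xb : x b < n) (xe : x e < n)
    (pa : p a < p k) (pb : p b < p k) (pc : p k < p c) (pe : p k < p e) :
    2*n ≤ y k ∧ y k < 4*n := by
  have X1 := C.hX a b ha hb
  have X2 := C.hX c e hc he
  have ya := C.hY a k (by omega) hk pa
  have yb := C.hY b k (by omega) hk pb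
  have yc := C.hY k c hk (by omega) pc
  have ye := C.hY k e hk (by omega) pe
  constructor
  · by_cases h : x a = i
    · have := C.f1 b hb xb (by omega)
      omega
    · have := C.f1 a (by omega) (by omega) h
      omega
  · by_cases h : x c = i
    · have := C.f1 e he xe (by omega)
      omega
    · have := C.f1 c (by omega) (by omega) h
      omega

theorem CS.nat (C : CS n i p x y) (hn : 30 ≤ n) (h2 : n ≤ x 2) : ∀ k, 2 ≤ k → k < n → x k = n + k := by
  intro k hk2 hk
  have u1 := inc x 2 n (fun a b _ hab hb => C.hX a b hab hb) 2 k (le_refl _) hk2 hk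
  have u2 := inc x 2 n (fun a b _ hab hb => C.hX a b hab hb) k (n-1) hk2 (by omega) (by omega)
  have u3 := C.f4 2 (by omega) h2
  have u4 := C.f4 (n-1) (by omega) (by have := C.hX 2 (n-1) (by omega) (by omega); omega)
  omega

theorem CS.case1b (H : Hyp n i d p) (C : CS n i p x y) (h2 : n ≤ x 2) : False := by
  have hn := H.hn
  have nat := C.nat hn h2
  have q1 : p 0 + 3 < p 1 := by
    have := H.c6; have := H.c7; have := H.c8; have := H.c9
    have := H.c10; have := H.c11; have := H.c12
    omega
  have q0 : 1 ≤ p 0 := by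
    have := H.c5; omega
  have q0n : p 0 + 3 < n := by
    have := H.lt 1 (by omega); omega
  obtain ⟨kd, hkd, hkd'⟩ := H.surj (p 0 - 1) (by omega)
  obtain ⟨ku, hku, hku'⟩ := H.surj (p 0 + 1) (by omega)
  obtain ⟨k2, hk2, hk2'⟩ := H.surj (p 0 + 2) (by omega)
  have hkd2 : 2 ≤ kd := by
    rcases Nat.lt_or_ge kd 2 with h | h
    · exfalso
      have : kd = 0 ∨ kd = 1 := by omega
      rcases this with rfl | rfl <;> omega
    · exact h
  have hku2 : 2 ≤ ku := by
    rcases Nat.lt_or_ge ku 2 with h | h
    · exfalso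
      have : ku = 0 ∨ ku = 1 := by omega
      rcases this with rfl | rfl <;> omega
    · exact h
  have hk22 : 2 ≤ k2 := by
    rcases Nat.lt_or_ge k2 2 with h | h
    · exfalso
      have : k2 = 0 ∨ k2 = 1 := by omega
      rcases this with rfl | rfl <;> omega
    · exact h
  have yd := C.f5 kd hkd (nat kd hkd2 hkd) (by omega)
  have yu := C.f6 ku hku (nat ku hku2 hku) (by omega)
  have y2 := C.f7 k2 hk2 (nat k2 hk22 hk2) (by omega)
  have a1 := C.hY kd 0 hkd (by omega) (by omega)
  have a2 := C.hY 0 ku (by omega) hku (by omega)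
  have a3 := C.hY k2 1 hk2 (by omega) (by omega)
  have X2 := nat 2 (by omega) (by omega)
  have X01 := C.hX 0 1 (by omega) (by omega)
  have X12 := C.hX 1 2 (by omega) (by omega)
  have i2 := H.i2
  have hi := H.lt (i+1) (by omega)
  have x0n : x 0 < n := by
    rcases Nat.lt_or_ge (x 0) n with h | h
    · exact h
    · have := C.f4 0 (by omega) h
      omega
  have x1n : x 1 < n := by
    rcases Nat.lt_or_ge (x 1) n with h | h
    · exact h
    · have := C.f4 1 (by omega) h
      omega
  have x0i : x 0 ≠ i := by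
    intro h
    have := C.f2 0 (by omega) h
    omega
  have g0 := C.f1 0 (by omega) x0n x0i
  have hx0 : x 0 = i + 1 := H.inj _ _ x0n (by omega) (by omega)
  have g1 := C.f1 1 (by omega) x1n (by omega)
  omega

theorem CS.case1 (H : Hyp n i d p) (C : CS n i p x y) (h7 : n ≤ x (n-7)) : False := by
  have hn := H.hn
  have i2 := H.i2
  by_cases hx2 : n ≤ x 2
  · exact C.case1b H hx2
  · have X01 := C.hX 0 1 (by omega) (by omega)
    have X12 := C.hX 1 2 (by omega) (by omega)
    have W1 := C.hX (n-7) (n-1) (by omega) (by omega)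
    have W2 := C.hX (n-7) (n-2) (by omega) (by omega)
    have W4 := C.hX (n-7) (n-4) (by omega) (by omega)
    have W5 := C.hX (n-7) (n-5) (by omega) (by omega)
    have W6 := C.hX (n-7) (n-6) (by omega) (by omega)
    by_cases h0 : x 0 = i
    · -- 1 and 2 are block points
      exact C.pair 2 1 (n-1) (n-6) (n-7) (by omega) (by omega) (by omega) (by omega) (by omega)
        (by omega) (by omega) (by omega) (by omega) (by omega) (by omega) (by omega)
        (by have := H.c2; have := H.c3; have := H.c4; have := H.c5; have := H.c6; have := H.c7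
            have := H.c8; have := H.c9; omega) H.c10 H.c11 H.c12
    · by_cases h1 : x 1 = i
      · exact C.pair 2 0 (n-4) (n-5) (n-2) (by omega) (by omega) (by omega) (by omega) (by omega)
          (by omega) (by omega) (by omega) (by omega) (by omega) (by omega) (by omega)
          H.c2 H.c3 H.c4 H.c5
      · exact C.pair 0 1 (n-1) (n-6) (n-7) (by omega) (by omega) (by omega) (by omega) (by omega)
          (by omega) (by omega) (by omega) (by omega) (by omega) (by omega) (by omega)
          (by have := H.c6; have := H.c7; have := H.c8; have := H.c9; omega) H.c10 H.c11 H.c12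

theorem CS.case2 (H : Hyp n i d p) (C : CS n i p x y) (h7 : x (n-7) < n) : False := by
  have hn := H.hn
  have i2 := H.i2
  have i1 := H.i1
  have hxs : ∀ k, k ≤ n - 7 → x k < n := by
    intro k hk
    rcases Nat.lt_or_ge k (n-7) with h | h
    · have := C.hX k (n-7) h (by omega)
      omega
    · have : k = n - 7 := by omega
      subst this; omega
  have K2 : n ≤ x (n-2) → (y (n-2) + 1 = 2*n + 2 * p (i+1) ∨ y (n-2) = 2*n + 2 * p (i+1) + 1) := by
    intro h
    have := C.far (by omega) (n-2) 2 3 0 4 (by omega) (by omega) (by omega) (by omega) (by omega) h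
      (hxs 3 (by omega)) (hxs 4 (by omega))
      (by have := H.c2; have := H.c3; have := H.c4; omega)
      (by have := H.c1; have := H.c2; have := H.c3; have := H.c4; omega)
      H.c5 (by have := H.c5; have := H.c6; omega)
    exact C.f3 _ (by omega) h this.1 this.2
  have K1 : n ≤ x (n-1) → (y (n-1) + 1 = 2*n + 2 * p (i+1) ∨ y (n-1) = 2*n + 2 * p (i+1) + 1) := by
    intro h
    have := C.far (by omega) (n-1) 2 3 1 7 (by omega) (by omega) (by omega) (by omega) (by omega) h
      (hxs 3 (by omega)) (hxs 7 (by omega))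
      (by have := H.c2; have := H.c3; have := H.c4; have := H.c5; have := H.c6
          have := H.c7; have := H.c8; have := H.c9; omega)
      (by have := H.c1; have := H.c2; have := H.c3; have := H.c4; have := H.c5; have := H.c6
          have := H.c7; have := H.c8; have := H.c9; omega)
      (by have := H.c10; have := H.c11; have := H.c12; omega)
      (by have := H.c10; have := H.c11; have := H.c12; have := H.c13; omega)
    exact C.f3 _ (by omega) h this.1 this.2
  have Z21 := C.hX (n-2) (n-1) (by omega) (by omega)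
  by_cases hxn2 : n ≤ x (n-2)
  · have k2 := K2 hxn2
    have k1 := K1 (by omega)
    have y1 := C.hY (n-2) 0 (by omega) (by omega) H.c5
    have y2 := C.hY 0 4 (by omega) (by omega) H.c6
    have y3 := C.hY 4 (n-1) (by omega) (by omega)
      (by have := H.c7; have := H.c8; have := H.c9; omega)
    omega
  · have hxs2 : ∀ k, k ≤ n - 2 → x k < n := by
      intro k hk
      rcases Nat.lt_or_ge k (n-2) with h | h
      · have := C.hX k (n-2) h (by omega)
        omega
      · have : k = n - 2 := by omega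
        subst this; omega
    -- the exceptional point cannot sit at a position whose value is not maximal
    have key : ∀ k, k < n → p k + 2 ≤ n → x k ≠ i := by
      intro k hk hpk hxk
      have ck := C.f2 k hk hxk
      obtain ⟨k', hk', hpk'⟩ := H.surj (p k + 1) (by omega)
      have a1 := C.hY k k' hk hk' (by omega)
      have hne : k' ≠ k := by
        intro h; subst h; omega
      have hxne : x k' ≠ i := by
        rcases Nat.lt_or_ge k k' with h | h
        · have := C.hX k k' h hk'
          omega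
        · have := C.hX k' k (by omega) hk
          omega
      rcases Nat.lt_or_ge (x k') n with h | h
      · have := C.f1 k' hk' h hxne
        omega
      · have : k' = n - 1 := by
          by_contra hcon
          have := hxs2 k' (by omega)
          omega
        subst this
        have := K1 h
        have := H.lt (i+1) (by omega)
        omega
    have e2 := H.e2
    have l1 := H.l1
    have ki := key i (by omega) (by omega)
    by_cases hxn1 : n ≤ x (n-1)
    · -- sub-case A
      have ub : ∀ k, k ≤ n - 2 → x k ≤ k + 1 := by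
        intro k hk
        have u1 := inc x 0 n (fun a b _ hab hb => C.hX a b hab hb) k (n-2) (by omega) hk (by omega)
        have := hxs2 (n-2) (le_refl _)
        omega
      have b1 := ub i (by omega)
      have b2 := C.lowb i (by omega)
      have hxi : x i = i + 1 := by omega
      have b3 := ub (i+1) (by omega)
      have b4 := C.hX i (i+1) (by omega) (by omega)
      have hxi1 : x (i+1) = i + 2 := by omega
      have s1 := C.f1 i (by omega) (by omega) (by omega)
      have s2 := C.f1 (i+1) (by omega) (by omega) (by omega)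
      have s3 := C.hY (i+1) i (by omega) (by omega) (by have := H.bond; omega)
      have r1 := H.r1
      rw [hxi] at s1
      rw [hxi1] at s2
      omega
    · have u1 := inc x 0 n (fun a b _ hab hb => C.hX a b hab hb) i (n-1) (by omega) (by omega) (by omega)
      have b2 := C.lowb i (by omega)
      omega

theorem CS.false (H : Hyp n i d p) (C : CS n i p x y) : False := by
  rcases Nat.lt_or_ge (x (n-7)) n with h | h
  · exact C.case2 H h
  · exact C.case1 H h

end S

/-- Data of a copy of the pattern inside the second configuration, in coordinates. -/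
structure CT (n i : ℕ) (p x y r : ℕ → ℕ) : Prop where
  hX : ∀ a b, a < b → b < n → x a < x b
  hY : ∀ a b, a < n → b < n → p a < p b → y a < y b
  t1 : ∀ k, k < n → 4*n ≤ x k → x k ≠ 4*n+i+1 →
    x k < 5*n ∧ 2*n ≤ y k ∧ y k < 6*n ∧ y k = 2*n + 4 * p (x k - 4*n)
  t2 : ∀ k, k < n → x k = 4*n+i+1 → y k = p (n-2)
  t3 : ∀ k, k < n → x k < 4*n → 2*n ≤ y k → y k < 6*n →
    (y k + 2 = 2*n + 4 * p i ∨ y k + 1 = 2*n + 4 * p i ∨ y k = 2*n + 4 * p i + 1)
  t4 : ∀ k, k < n → x k < 4*n → y k < 2*n → y k + 1 < p (n-1)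
  t5 : ∀ k, k < n → x k < 4*n → 6*n ≤ y k → 6*n + 11 + p (n-1) < y k
  t6 : ∀ k, k < n → y k ≤ 7*n + 9
  t7 : ∀ a b, a < b → b < n → x b < 4*n → r a < r b
  t8 : ∀ k, k < n → x k < 4*n → r k + 2 ≤ n ∧ (r k + 2 = n → 6*n ≤ y k)

section T
variable {n i d : ℕ} {p x y r : ℕ → ℕ}

theorem CT.ylow (H : Hyp n i d p) (C : CT n i p x y r) : ∀ w k, k < n → p k = w → w ≤ y k := by
  intro w
  induction w with
  | zero => intro k _ _; exact Nat.zero_le _
  | succ w ih =>
    intro k hk hpk
    have := H.lt k hk
    obtain ⟨k', hk', hpk'⟩ := H.surj w (by omega)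
    have a1 := ih k' hk' hpk'
    have a2 := C.hY k' k hk' hk (by omega)
    omega

theorem CT.yup (H : Hyp n i d p) (C : CT n i p x y r) :
    ∀ w k, k < n → p k + w + 1 = n → y k + w ≤ 7*n + 9 := by
  intro w
  induction w with
  | zero => intro k hk _; exact C.t6 k hk
  | succ w ih =>
    intro k hk hpk
    obtain ⟨k', hk', hpk'⟩ := H.surj (p k + 1) (by omega)
    have a1 := ih k' hk' (by omega)
    have a2 := C.hY k k' hk hk' (by omega)
    omega

/-- two block points with four far points between them in value -/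
theorem CT.pair (C : CT n i p x y r) (a b k1 k2 k3 k4 : ℕ) (ha : a < n) (hb : b < n)
    (h1 : k1 < n) (h2 : k2 < n) (h3 : k3 < n) (h4 : k4 < n)
    (xa : 4*n ≤ x a) (xa' : x a ≠ 4*n+i+1) (xb : 4*n ≤ x b) (xb' : x b ≠ 4*n+i+1)
    (x1 : x k1 < 4*n) (x2 : x k2 < 4*n) (x3 : x k3 < 4*n) (x4 : x k4 < 4*n)
    (p1 : p a < p k1) (p2 : p k1 < p k2) (p3 : p k2 < p k3) (p4 : p k3 < p k4)
    (p5 : p k4 < p b) : False := by
  have A := C.t1 a ha xa xa'
  have B := C.t1 b hb xb xb'
  have y1 := C.hY a k1 ha h1 p1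
  have y2 := C.hY k1 k2 h1 h2 p2
  have y3 := C.hY k2 k3 h2 h3 p3
  have y4 := C.hY k3 k4 h3 h4 p4
  have y5 := C.hY k4 b h4 hb p5
  have := C.t3 k1 h1 x1 (by omega) (by omega)
  have := C.t3 k2 h2 x2 (by omega) (by omega)
  have := C.t3 k3 h3 x3 (by omega) (by omega)
  have := C.t3 k4 h4 x4 (by omega) (by omega)
  omega

theorem CT.far (C : CT n i p x y r) (k a b c e : ℕ) (hk : k < n) (ha : a < b) (hb : b < n)
    (hc : c < e) (he : e < n) (xb : 4*n ≤ x a) (xe : 4*n ≤ x c)
    (pa : p a < p k) (pb : p b < p k) (pc : p k < p c) (pe : p k < p e) :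
    2*n ≤ y k ∧ y k < 6*n := by
  have X1 := C.hX a b ha hb
  have X2 := C.hX c e hc he
  have ya := C.hY a k (by omega) hk pa
  have yb := C.hY b k (by omega) hk pb
  have yc := C.hY k c hk (by omega) pc
  have ye := C.hY k e hk (by omega) pe
  constructor
  · by_cases h : x a = 4*n+i+1
    · have := C.t1 b hb (by omega) (by omega)
      omega
    · have := C.t1 a (by omega) (by omega) h
      omega
  · by_cases h : x c = 4*n+i+1
    · have := C.t1 e he (by omega) (by omega)
      omega
    · have := C.t1 c (by omega) (by omega) h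
      omega

theorem CT.case1 (H : Hyp n i d p) (C : CT n i p x y r) (h9 : x 9 < 4*n) : False := by
  have hn := H.hn
  have i2 := H.i2
  have hxs : ∀ k, k ≤ 9 → x k < 4*n := by
    intro k hk
    rcases Nat.lt_or_ge k 9 with h | h
    · have := C.hX k 9 h (by omega)
      omega
    · have : k = 9 := by omega
      subst this; omega
  have X1 := C.hX (n-3) (n-2) (by omega) (by omega)
  have X2 := C.hX (n-2) (n-1) (by omega) (by omega)
  have lt2 := H.lt (n-2) (by omega)
  have rho : p (n-2) < p (n-1) := by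
    have := H.c5; have := H.c6; have := H.c7; have := H.c8; have := H.c9; omega
  have rho3 : p (n-1) < p (n-3) := by
    have := H.c10; have := H.c11; have := H.c12; have := H.c13; have := H.c14
    have := H.c15; have := H.c16; omega
  have lt3 := H.lt (n-3) (by omega)
  by_cases hx2 : x (n-2) < 4*n
  · have rr : n - 2 ≤ r (n-2) := by
      have u := inc r 0 (n-1) (fun a b _ hab hb => C.t7 a b hab (by omega) (by
        rcases Nat.lt_or_ge b (n-2) with h | h
        · have := C.hX b (n-2) h (by omega)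
          omega
        · have : b = n-2 := by omega
          subst this; exact hx2)) 0 (n-2) (le_refl _) (by omega) (by omega)
      omega
    have t8 := C.t8 (n-2) (by omega) hx2
    have yy := t8.2 (by omega)
    have y1 := C.hY (n-2) (n-1) (by omega) (by omega) rho
    by_cases g : x (n-1) = 4*n+i+1
    · have := C.t2 _ (by omega) g
      omega
    · rcases Nat.lt_or_ge (x (n-1)) (4*n) with h | h
      · have := C.t7 (n-2) (n-1) (by omega) (by omega) h
        have := C.t8 (n-1) (by omega) h
        omega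
      · have := C.t1 (n-1) (by omega) h g
        omega
  · by_cases hx3 : x (n-3) < 4*n
    · by_cases g1 : x (n-1) = 4*n+i+1
      · have a1 := C.t2 _ (by omega) g1
        have a2 := C.ylow H _ (n-1) (by omega) rfl
        omega
      · by_cases g2 : x (n-2) = 4*n+i+1
        · have a1 := C.t1 (n-1) (by omega) (by omega) g1
          have hj : x (n-1) - 4*n < n := by omega
          have ne1 : p (x (n-1) - 4*n) ≠ p i := by
            intro h
            have := H.inj _ _ hj (by omega) h
            omega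
          have ne2 : p (x (n-1) - 4*n) ≠ p (i+1) := by
            intro h
            have := H.inj _ _ hj (by omega) h
            omega
          have bd := H.bond
          have hxk : ∀ k, k < n → p k ≠ p (n-1) → p k ≠ p (n-2) → x k < 4*n := by
            intro k hk h1 h2
            have : k ≠ n-1 := by intro h; subst h; exact h1 rfl
            have : k ≠ n-2 := by intro h; subst h; exact h2 rfl
            rcases Nat.lt_or_ge k (n-3) with h | h
            · have := C.hX k (n-3) h (by omega)
              omega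
            · have : k = n-3 := by omega
              subst this; exact hx3
          rcases Nat.lt_or_ge (p (x (n-1) - 4*n)) (p i) with h | h
          · obtain ⟨k, hk, hpk⟩ := H.surj (p (n-1) - 1) (by omega)
            have rho' : p (n-2) + 3 < p (n-1) := by
              have := H.c5; have := H.c6; have := H.c7; have := H.c8; have := H.c9; omega
            have xk := hxk k hk (by omega) (by omega)
            have yk := C.hY k (n-1) hk (by omega) (by omega)
            have yl := C.ylow H _ k hk rfl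
            rcases Nat.lt_or_ge (y k) (2*n) with h' | h'
            · have := C.t4 k hk xk h'
              omega
            · have := C.t3 k hk xk h' (by omega)
              omega
          · obtain ⟨k, hk, hpk⟩ := H.surj (p (n-1) + 1) (by omega)
            have xk := hxk k hk (by omega) (by omega)
            have yk := C.hY (n-1) k (by omega) hk (by omega)
            have yu := C.yup H (n - 1 - p k) k hk (by omega)
            rcases Nat.lt_or_ge (y k) (6*n) with h' | h'
            · have := C.t3 k hk xk (by omega) h'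
              omega
            · have := C.t5 k hk xk h'
              omega
        · exact C.pair (n-2) (n-1) 0 4 5 6 (by omega) (by omega) (by omega) (by omega) (by omega)
            (by omega) (by omega) g2 (by omega) g1 (hxs 0 (by omega)) (hxs 4 (by omega))
            (hxs 5 (by omega)) (hxs 6 (by omega)) H.c5 H.c6 H.c7 H.c8 H.c9
    · by_cases g3 : x (n-3) = 4*n+i+1
      · exact C.pair (n-2) (n-1) 0 4 5 6 (by omega) (by omega) (by omega) (by omega) (by omega)
          (by omega) (by omega) (by omega) (by omega) (by omega) (hxs 0 (by omega))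
          (hxs 4 (by omega)) (hxs 5 (by omega)) (hxs 6 (by omega)) H.c5 H.c6 H.c7 H.c8 H.c9
      · by_cases g2 : x (n-2) = 4*n+i+1
        · exact C.pair (n-1) (n-3) 1 7 8 9 (by omega) (by omega) (by omega) (by omega) (by omega)
            (by omega) (by omega) (by omega) (by omega) (by omega) (hxs 1 (by omega))
            (hxs 7 (by omega)) (hxs 8 (by omega)) (hxs 9 (by omega))
            (by have := H.c10; have := H.c11; have := H.c12; omega) H.c13 H.c14 H.c15 H.c16
        · exact C.pair (n-2) (n-3) 0 4 5 6 (by omega) (by omega) (by omega) (by omega) (by omega)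
            (by omega) (by omega) (by omega) (by omega) (by omega) (hxs 0 (by omega))
            (hxs 4 (by omega)) (hxs 5 (by omega)) (hxs 6 (by omega)) H.c5 H.c6 H.c7 H.c8
            (by have := H.c9; omega)

theorem CT.case2 (H : Hyp n i d p) (C : CT n i p x y r) (h9 : 4*n ≤ x 9) : False := by
  have hn := H.hn
  have i1 := H.i1
  have i2 := H.i2
  have hxs : ∀ k, 9 ≤ k → k < n → 4*n ≤ x k := by
    intro k hk hk'
    rcases Nat.lt_or_ge 9 k with h | h
    · have := C.hX 9 k h (by omega)
      omega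
    · have : k = 9 := by omega
      subst this; omega
  have F0 : 2*n ≤ y 0 ∧ y 0 < 6*n :=
    C.far 0 (n-5) (n-4) (n-6) (n-1) (by omega) (by omega) (by omega) (by omega) (by omega)
      (hxs _ (by omega) (by omega)) (hxs _ (by omega) (by omega))
      (by have := H.c4; have := H.c5; omega)
      (by have := H.c3; have := H.c4; have := H.c5; omega)
      (by have := H.c6; have := H.c7; have := H.c8; have := H.c9; have := H.c10; omega)
      (by have := H.c6; have := H.c7; have := H.c8; have := H.c9; omega)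
  have F1 : 2*n ≤ y 1 ∧ y 1 < 6*n :=
    C.far 1 (n-5) (n-4) (n-8) (n-3) (by omega) (by omega) (by omega) (by omega) (by omega)
      (hxs _ (by omega) (by omega)) (hxs _ (by omega) (by omega))
      (by have := H.c4; have := H.c5; have := H.c6; have := H.c7; have := H.c8; have := H.c9
          have := H.c10; have := H.c11; have := H.c12; omega)
      (by have := H.c3; have := H.c4; have := H.c5; have := H.c6; have := H.c7; have := H.c8
          have := H.c9; have := H.c10; have := H.c11; have := H.c12; omega)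
      (by have := H.c13; have := H.c14; have := H.c15; have := H.c16; have := H.c17; omega)
      (by have := H.c13; have := H.c14; have := H.c15; have := H.c16; omega)
  have X01 := C.hX 0 1 (by omega) (by omega)
  by_cases hx1 : x 1 < 4*n
  · have a0 := C.t3 0 (by omega) (by omega) F0.1 F0.2
    have a1 := C.t3 1 (by omega) hx1 F1.1 F1.2
    have y1 := C.hY 0 4 (by omega) (by omega) H.c6
    have y2 := C.hY 4 5 (by omega) (by omega) H.c7
    have y3 := C.hY 5 6 (by omega) (by omega) H.c8
    have y4 := C.hY 6 1 (by omega) (by omega)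
      (by have := H.c9; have := H.c10; have := H.c11; have := H.c12; omega)
    omega
  · have key : ∀ k, k < n → 1 ≤ p k → x k ≠ 4*n+i+1 := by
      intro k hk hpk hxk
      have ck := C.t2 k hk hxk
      have lt2 := H.lt (n-2) (by omega)
      have := H.lt k hk
      obtain ⟨k', hk', hpk'⟩ := H.surj (p k - 1) (by omega)
      have a1 := C.hY k' k hk' hk (by omega)
      have hne : k' ≠ k := by
        intro h; subst h; omega
      have hxne : x k' ≠ 4*n+i+1 := by
        rcases Nat.lt_or_ge k k' with h | h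
        · have := C.hX k k' h hk'
          omega
        · have := C.hX k' k (by omega) hk
          omega
      rcases Nat.lt_or_ge (x k') (4*n) with h | h
      · have : k' = 0 := by
          by_contra hcon
          rcases Nat.lt_or_ge 1 k' with h1 | h1
          · have := C.hX 1 k' h1 hk'
            omega
          · have : k' = 1 := by omega
            subst this
            omega
        subst this
        omega
      · have := C.t1 k' hk' h hxne
        omega
    have lo : ∀ k, 1 ≤ k → k < n → 4*n + k ≤ x k + 1 := by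
      intro k h1 hk
      have u1 := inc x 1 n (fun a b _ hab hb => C.hX a b hab hb) 1 k (le_refl _) h1 hk
      omega
    have hi : ∀ k, 1 ≤ k → k < n → x k ≤ 4*n + k := by
      intro k h1 hk
      have u1 := inc x 1 n (fun a b _ hab hb => C.hX a b hab hb) k (n-1) h1 (by omega) (by omega)
      have u2 : x (n-1) < 5*n := by
        by_cases g : x (n-1) = 4*n+i+1
        · omega
        · exact (C.t1 (n-1) (by omega) (hxs _ (by omega) (by omega)) g).1
      omega
    have k1 := key (i+1) (by omega) H.e1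
    have b1 := lo (i+1) (by omega) (by omega)
    have b2 := hi (i+1) (by omega) (by omega)
    have b3 := lo i (by omega) (by omega)
    have b4 := C.hX i (i+1) (by omega) (by omega)
    have x1 : x (i+1) = 4*n+i := by omega
    have x2 : x i = 4*n+(i-1) := by omega
    have s1 := C.t1 (i+1) (by omega) (by omega) k1
    have s2 := C.t1 i (by omega) (by omega) (by omega)
    have s3 := C.hY (i+1) i (by omega) (by omega) (by have := H.bond; omega)
    have l1 := H.l1
    rw [x1] at s1
    rw [x2] at s2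
    rw [Nat.add_sub_cancel_left] at s1
    rw [Nat.add_sub_cancel_left] at s2
    omega

theorem CT.false (H : Hyp n i d p) (C : CT n i p x y r) : False := by
  rcases Nat.lt_or_ge (x 9) (4*n) with h | h
  · exact C.case1 H h
  · exact C.case2 H h

end T

end PartA

section PartB

inductive Pt
  | b (k : ℕ)
  | g (k : ℕ)
  | l
  deriving DecidableEq

open Pt

def Ss (n i : ℕ) : Finset Pt := ((Finset.range n).erase i).image Pt.b ∪ (Finset.Ico 1 n).image Pt.g

def St (n i : ℕ) : Finset Pt :=
  insert Pt.l (((Finset.range n).erase (i+1)).image Pt.b ∪ (Finset.range (n-1)).image Pt.g)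

theorem b_mem_Ss (n i k : ℕ) : Pt.b k ∈ Ss n i ↔ k < n ∧ k ≠ i := by
  simp [Ss, and_comm]

theorem g_mem_Ss (n i k : ℕ) : Pt.g k ∈ Ss n i ↔ 1 ≤ k ∧ k < n := by
  simp [Ss]

theorem l_mem_Ss (n i : ℕ) : Pt.l ∉ Ss n i := by
  simp [Ss]

theorem b_mem_St (n i k : ℕ) : Pt.b k ∈ St n i ↔ k < n ∧ k ≠ i + 1 := by
  simp [St, and_comm]

theorem g_mem_St (n i k : ℕ) : Pt.g k ∈ St n i ↔ k < n - 1 := by
  simp [St]

theorem l_mem_St (n i : ℕ) : Pt.l ∈ St n i := by
  simp [St]

def Xs (n i : ℕ) : Pt → ℕ
  | .b k => k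
  | .g k => if k = 1 then i else n + k
  | .l => 0

def Ys (n i : ℕ) (p : ℕ → ℕ) : Pt → ℕ
  | .b k => 2 * n + 2 * p k
  | .g k => if p k + 1 < p 0 then p k else if p k + 1 = p 0 then 2 * n + 2 * p (i+1) - 1
      else if p k = p 0 + 1 then 2 * n + 2 * p (i+1) + 1 else 4 * n + 10 + p k
  | .l => 0

def Xt (n i k0 : ℕ) : Pt → ℕ
  | .b k => 4 * n + k
  | .g k => if k = n - 2 then 4 * n + i + 1 else 2 * k + 1
  | .l => 2 * k0

def Yt (n i : ℕ) (p : ℕ → ℕ) : Pt → ℕ
  | .b k => 2 * n + 4 * p k
  | .g k => if p k + 1 < p (n-1) then p k else if p k + 1 = p (n-1) then 2 * n + 4 * p i - 2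
      else if p k = p (n-1) + 1 then 2 * n + 4 * p i + 1 else 6 * n + 10 + p k
  | .l => 2 * n + 4 * p i - 1

section
variable {n i d : ℕ} {p : ℕ → ℕ}

theorem Xs_inj (H : Hyp n i d p) : ∀ s ∈ Ss n i, ∀ t ∈ Ss n i, Xs n i s = Xs n i t → s = t := by
  have hn := H.hn
  have i2 := H.i2
  intro s hs t ht h
  cases s with
  | b k =>
    rw [b_mem_Ss] at hs
    cases t with
    | b k' =>
      simp only [Xs] at h
      rw [h]
    | g k' =>
      rw [g_mem_Ss] at ht
      simp only [Xs] at h
      split_ifs at h <;> omega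
    | l => exact absurd ht (l_mem_Ss n i)
  | g k =>
    rw [g_mem_Ss] at hs
    cases t with
    | b k' =>
      rw [b_mem_Ss] at ht
      simp only [Xs] at h
      split_ifs at h <;> omega
    | g k' =>
      rw [g_mem_Ss] at ht
      simp only [Xs] at h
      have : k = k' := by
        split_ifs at h <;> omega
      rw [this]
    | l => exact absurd ht (l_mem_Ss n i)
  | l => exact absurd hs (l_mem_Ss n i)

theorem Ys_inj (H : Hyp n i d p) : ∀ s ∈ Ss n i, ∀ t ∈ Ss n i, Ys n i p s = Ys n i p t → s = t := by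
  have hn := H.hn
  have i2 := H.i2
  have hpi := H.lt (i+1) (by omega)
  have hp0 := H.lt 0 (by omega)
  have e1 := H.e1
  intro s hs t ht h
  cases s with
  | b k =>
    rw [b_mem_Ss] at hs
    have hk := H.lt k hs.1
    cases t with
    | b k' =>
      rw [b_mem_Ss] at ht
      simp only [Ys] at h
      rw [H.inj k k' hs.1 ht.1 (by omega)]
    | g k' =>
      rw [g_mem_Ss] at ht
      have hk' := H.lt k' ht.2
      simp only [Ys] at h
      split_ifs at h <;> omega
    | l => exact absurd ht (l_mem_Ss n i)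
  | g k =>
    rw [g_mem_Ss] at hs
    have hk := H.lt k hs.2
    cases t with
    | b k' =>
      rw [b_mem_Ss] at ht
      have hk' := H.lt k' ht.1
      simp only [Ys] at h
      split_ifs at h <;> omega
    | g k' =>
      rw [g_mem_Ss] at ht
      have hk' := H.lt k' ht.2
      have n0 : p k ≠ p 0 := by
        intro hh
        have := H.inj _ _ hs.2 (by omega) hh
        omega
      have n0' : p k' ≠ p 0 := by
        intro hh
        have := H.inj _ _ ht.2 (by omega) hh
        omega
      simp only [Ys] at h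
      have : p k = p k' := by
        split_ifs at h <;> omega
      rw [H.inj _ _ hs.2 ht.2 this]
    | l => exact absurd ht (l_mem_Ss n i)
  | l => exact absurd hs (l_mem_Ss n i)

theorem Xt_inj (H : Hyp n i d p) (k0 : ℕ) (hk0 : k0 + 3 < n) :
    ∀ s ∈ St n i, ∀ t ∈ St n i, Xt n i k0 s = Xt n i k0 t → s = t := by
  have hn := H.hn
  have i2 := H.i2
  intro s hs t ht h
  cases s with
  | b k =>
    rw [b_mem_St] at hs
    cases t with
    | b k' =>
      simp only [Xt] at h
      rw [show k = k' by omega]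
    | g k' =>
      rw [g_mem_St] at ht
      simp only [Xt] at h
      split_ifs at h <;> omega
    | l =>
      simp only [Xt] at h
      omega
  | g k =>
    rw [g_mem_St] at hs
    cases t with
    | b k' =>
      rw [b_mem_St] at ht
      simp only [Xt] at h
      split_ifs at h <;> omega
    | g k' =>
      rw [g_mem_St] at ht
      simp only [Xt] at h
      have : k = k' := by
        split_ifs at h <;> omega
      rw [this]
    | l =>
      simp only [Xt] at h
      split_ifs at h <;> omega
  | l =>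
    cases t with
    | b k' =>
      simp only [Xt] at h
      omega
    | g k' =>
      simp only [Xt] at h
      split_ifs at h <;> omega
    | l => rfl

theorem Yt_inj (H : Hyp n i d p) :
    ∀ s ∈ St n i, ∀ t ∈ St n i, Yt n i p s = Yt n i p t → s = t := by
  have hn := H.hn
  have i2 := H.i2
  have hp0 := H.lt (n-1) (by omega)
  have e1 := H.e1
  have bd := H.bond
  have e2 := H.e2
  intro s hs t ht h
  cases s with
  | b k =>
    rw [b_mem_St] at hs
    have hk := H.lt k hs.1
    cases t with
    | b k' =>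
      rw [b_mem_St] at ht
      simp only [Yt] at h
      rw [H.inj k k' hs.1 ht.1 (by omega)]
    | g k' =>
      rw [g_mem_St] at ht
      have hk' := H.lt k' (by omega)
      simp only [Yt] at h
      split_ifs at h <;> omega
    | l =>
      simp only [Yt] at h
      omega
  | g k =>
    rw [g_mem_St] at hs
    have hk := H.lt k (by omega)
    cases t with
    | b k' =>
      rw [b_mem_St] at ht
      have hk' := H.lt k' ht.1
      simp only [Yt] at h
      split_ifs at h <;> omega
    | g k' =>
      rw [g_mem_St] at ht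
      have hk' := H.lt k' (by omega)
      have n0 : p k ≠ p (n-1) := by
        intro hh
        have := H.inj _ _ (by omega) (by omega) hh
        omega
      have n0' : p k' ≠ p (n-1) := by
        intro hh
        have := H.inj _ _ (by omega) (by omega) hh
        omega
      simp only [Yt] at h
      have : p k = p k' := by
        split_ifs at h <;> omega
      rw [H.inj _ _ (by omega) (by omega) this]
    | l =>
      simp only [Yt] at h
      split_ifs at h <;> omega
  | l =>
    cases t with
    | b k' =>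
      simp only [Yt] at h
      omega
    | g k' =>
      rw [g_mem_St] at ht
      have hk' := H.lt k' (by omega)
      simp only [Yt] at h
      split_ifs at h <;> omega
    | l => rfl

/-- A copy of the pattern in the first configuration is impossible. -/
theorem avoid_s (H : Hyp n i d p) (h : ℕ → Pt) (hv : ∀ k, k < n → h k ∈ Ss n i)
    (hX : ∀ a b, a < b → b < n → Xs n i (h a) < Xs n i (h b))
    (hY : ∀ a b, a < n → b < n → p a < p b → Ys n i p (h a) < Ys n i p (h b)) : False := by
  have hn := H.hn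
  have i2 := H.i2
  have e1 := H.e1
  have hp0 := H.lt 0 (by omega)
  have hpi := H.lt (i+1) (by omega)
  have p1 : p 0 + 1 < p 1 := by
    have := H.c6; have := H.c7; have := H.c8; have := H.c9
    have := H.c10; have := H.c11; have := H.c12
    omega
  refine CS.false H (x := fun k => Xs n i (h k)) (y := fun k => Ys n i p (h k))
    ⟨hX, hY, ?_, ?_, ?_, ?_, ?_, ?_, ?_⟩
  all_goals
    intro k hk
    have hvk := hv k hk
    generalize h k = s at hvk ⊢
    cases s with
    | b j =>
      rw [b_mem_Ss] at hvk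
      have hj := H.lt j hvk.1
      simp only [Xs, Ys]
      intros
      first
        | omega
        | exact ⟨by omega, by omega, trivial⟩
    | g j =>
      rw [g_mem_Ss] at hvk
      have hj := H.lt j hvk.2
      by_cases h1 : j = 1
      · subst h1
        simp only [Xs, Ys, if_true]
        try split_ifs
        all_goals (intros; omega)
      · have n0 : p j ≠ p 0 := by
          intro hh
          have := H.inj _ _ hvk.2 (by omega) hh
          omega
        by_cases hjk : j = k
        · subst hjk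
          simp only [Xs, Ys, if_neg h1]
          try split_ifs
          all_goals (intros; omega)
        · simp only [Xs, Ys, if_neg h1]
          try split_ifs
          all_goals (intros; omega)
    | l => exact absurd hvk (l_mem_Ss n i)

def R (k0 x : ℕ) : ℕ := if x ≤ 2 * k0 then x / 2 else (x + 1) / 2

/-- A copy of the pattern in the second configuration is impossible. -/
theorem avoid_t (H : Hyp n i d p) (k0 : ℕ) (hk0 : k0 < n) (hk0' : p k0 + 1 = p (n-1))
    (h : ℕ → Pt) (hv : ∀ k, k < n → h k ∈ St n i)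
    (hX : ∀ a b, a < b → b < n → Xt n i k0 (h a) < Xt n i k0 (h b))
    (hY : ∀ a b, a < n → b < n → p a < p b → Yt n i p (h a) < Yt n i p (h b)) : False := by
  have hn := H.hn
  have i2 := H.i2
  have e1 := H.e1
  have e2 := H.e2
  have bd := H.bond
  have hp0 := H.lt (n-1) (by omega)
  have hpi := H.lt (i+1) (by omega)
  have hp3 := H.lt (n-3) (by omega)
  have rho : p (n-2) + 1 < p (n-1) := by
    have := H.c5; have := H.c6; have := H.c7; have := H.c8; have := H.c9; omega
  have rho3 : p (n-1) + 1 < p (n-3) := by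
    have := H.c10; have := H.c11; have := H.c12; have := H.c13; have := H.c14
    have := H.c15; have := H.c16; omega
  have hk03 : k0 + 3 < n := by
    by_contra hcon
    have : k0 = n-1 ∨ k0 = n-2 ∨ k0 = n-3 := by omega
    rcases this with hh | hh | hh <;> subst hh <;> omega
  have odd : ∀ k, k < n → Xt n i k0 (h k) < 4 * n →
      ((∃ j, Xt n i k0 (h k) = 2 * j + 1) ∨ Xt n i k0 (h k) = 2 * k0) := by
    intro k hk
    have hvk := hv k hk
    generalize h k = s at hvk ⊢
    cases s with
    | b j =>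
      simp only [Xt]
      intro hh
      omega
    | g j =>
      simp only [Xt]
      split_ifs
      · intro hh; omega
      · intro _
        exact Or.inl ⟨j, rfl⟩
    | l =>
      intro _
      exact Or.inr rfl
  refine CT.false H (x := fun k => Xt n i k0 (h k)) (y := fun k => Yt n i p (h k))
    (r := fun k => R k0 (Xt n i k0 (h k)))
    ⟨hX, hY, ?_, ?_, ?_, ?_, ?_, ?_, ?_, ?_⟩
  · intro k hk
    have hvk := hv k hk
    generalize h k = s at hvk ⊢
    cases s with
    | b j =>
      rw [b_mem_St] at hvk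
      have hj := H.lt j hvk.1
      simp only [Xt, Yt]
      rw [Nat.add_sub_cancel_left]
      intros
      exact ⟨by omega, by omega, by omega, rfl⟩
    | g j =>
      rw [g_mem_St] at hvk
      simp only [Xt, Yt]
      by_cases h1 : j = n - 2
      · rw [if_pos h1]
        intro _ hh
        exact absurd rfl hh
      · rw [if_neg h1]
        intro hh
        omega
    | l =>
      simp only [Xt]
      intro hh
      omega
  · intro k hk
    have hvk := hv k hk
    generalize h k = s at hvk ⊢
    cases s with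
    | b j =>
      rw [b_mem_St] at hvk
      simp only [Xt, Yt]
      intro hh
      omega
    | g j =>
      rw [g_mem_St] at hvk
      simp only [Xt, Yt]
      by_cases h1 : j = n - 2
      · subst h1
        intro _
        rw [if_pos (by omega)]
      · rw [if_neg h1]
        intro hh
        omega
    | l =>
      simp only [Xt]
      intro hh
      omega
  · intro k hk
    have hvk := hv k hk
    generalize h k = s at hvk ⊢
    cases s with
    | b j =>
      simp only [Xt]
      intro hh
      omega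
    | g j =>
      rw [g_mem_St] at hvk
      have hj := H.lt j (by omega)
      simp only [Xt, Yt]
      split_ifs <;> intros <;> omega
    | l =>
      simp only [Xt, Yt]
      intros
      omega
  · intro k hk
    have hvk := hv k hk
    generalize h k = s at hvk ⊢
    cases s with
    | b j =>
      simp only [Xt]
      intro hh
      omega
    | g j =>
      rw [g_mem_St] at hvk
      have hj := H.lt j (by omega)
      simp only [Xt, Yt]
      split_ifs <;> intros <;> omega
    | l =>
      simp only [Xt, Yt]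
      intros
      omega
  · intro k hk
    have hvk := hv k hk
    generalize h k = s at hvk ⊢
    cases s with
    | b j =>
      simp only [Xt]
      intro hh
      omega
    | g j =>
      rw [g_mem_St] at hvk
      have hj := H.lt j (by omega)
      have n0 : p j ≠ p (n-1) := by
        intro hh
        have := H.inj _ _ (by omega) (by omega) hh
        omega
      simp only [Xt, Yt]
      split_ifs <;> intros <;> omega
    | l =>
      simp only [Xt, Yt]
      intros
      omega
  · intro k hk
    have hvk := hv k hk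
    generalize h k = s at hvk ⊢
    cases s with
    | b j =>
      rw [b_mem_St] at hvk
      have hj := H.lt j hvk.1
      simp only [Yt]
      omega
    | g j =>
      rw [g_mem_St] at hvk
      have hj := H.lt j (by omega)
      simp only [Yt]
      split_ifs <;> omega
    | l =>
      simp only [Yt]
      omega
  · intro a b hab hb hx
    have h1 := hX a b hab hb
    have h2 := odd a (by omega) (by omega)
    have h3 := odd b hb hx
    simp only [R]
    rcases h2 with ⟨j, h2⟩ | h2 <;> rcases h3 with ⟨j', h3⟩ | h3 <;> split_ifs <;> omega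
  · intro k hk
    have hvk := hv k hk
    generalize h k = s at hvk ⊢
    cases s with
    | b j =>
      simp only [Xt]
      intro hh
      omega
    | g j =>
      rw [g_mem_St] at hvk
      have hj := H.lt j (by omega)
      by_cases h1 : j = n - 2
      · simp only [Xt, if_pos h1]
        intro hh
        omega
      · by_cases h2 : j = n - 3
        · simp only [Xt, R, if_neg h1]
          intro _
          have : 6 * n ≤ Yt n i p (Pt.g j) := by
            simp only [Yt]
            rw [h2]
            rw [if_neg (by omega), if_neg (by omega), if_neg (by omega)]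
            omega
          refine ⟨?_, fun _ => this⟩
          split_ifs <;> omega
        · simp only [Xt, R, if_neg h1]
          intro _
          constructor
          · split_ifs <;> omega
          · intro hh
            exfalso
            split_ifs at hh <;> omega
    | l =>
      have hr : R k0 (Xt n i k0 Pt.l) = k0 := by
        have h2 : Xt n i k0 Pt.l = 2 * k0 := rfl
        rw [h2, R, if_pos (le_refl _)]
        omega
      rw [hr]
      intro _
      constructor
      · omega
      · intro hh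
        omega

end

end PartB

section PartC

open Pt

/-- order preserving placement of a configuration in a permutation -/
def Emb {m : ℕ} (S : Finset Pt) (X Y : Pt → ℕ) (θ : Equiv.Perm (Fin m)) (a : Pt → Fin m) : Prop :=
  ∀ s ∈ S, ∀ t ∈ S, (X s < X t → a s < a t) ∧ (Y s < Y t → θ (a s) < θ (a t))

theorem Emb.lex {m : ℕ} {S : Finset Pt} {X Y : Pt → ℕ} {θ : Equiv.Perm (Fin m)} {a : Pt → Fin m}
    (E : Emb S X Y θ a) (hinj : ∀ s ∈ S, ∀ t ∈ S, X s = X t → s = t)
    {s t : Pt} (hs : s ∈ S) (ht : t ∈ S) (h : X s ≤ X t) : a s ≤ a t := by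
  rcases Nat.lt_or_ge (X s) (X t) with h' | h'
  · exact le_of_lt ((E s hs t ht).1 h')
  · have := hinj s hs t ht (le_antisymm h h')
    rw [this]

theorem Emb.ley {m : ℕ} {S : Finset Pt} {X Y : Pt → ℕ} {θ : Equiv.Perm (Fin m)} {a : Pt → Fin m}
    (E : Emb S X Y θ a) (hinj : ∀ s ∈ S, ∀ t ∈ S, Y s = Y t → s = t)
    {s t : Pt} (hs : s ∈ S) (ht : t ∈ S) (h : Y s ≤ Y t) : θ (a s) ≤ θ (a t) := by
  rcases Nat.lt_or_ge (Y s) (Y t) with h' | h'
  · exact le_of_lt ((E s hs t ht).2 h')
  · have := hinj s hs t ht (le_antisymm h h')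
    rw [this]

/-- `θ` contains the pattern `p` -/
def Has {m : ℕ} (n : ℕ) (p : ℕ → ℕ) (θ : Equiv.Perm (Fin m)) : Prop :=
  ∃ h : ℕ → Fin m, (∀ a b, a < b → b < n → h a < h b) ∧
    (∀ a b, a < n → b < n → p a < p b → θ (h a) < θ (h b))

section
variable {n i d k0 : ℕ} {p : ℕ → ℕ}

/-- The second configuration forbids a new point to the right of and slightly below the centre. -/
theorem near_far (H : Hyp n i d p) (hk0 : k0 + 3 < n) (hk0' : p k0 + 1 = p (n-1)) {m : ℕ}
    (θ : Equiv.Perm (Fin m)) (b : Pt → Fin m) (E : Emb (St n i) (Xt n i k0) (Yt n i p) θ b)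
    (w : Fin m) (hw1 : b (Pt.b i) < w) (hw2 : θ w < θ (b (Pt.b i)))
    (hw3 : θ (b (Pt.g k0)) < θ w) : Has n p θ := by
  have hn := H.hn
  have i2 := H.i2
  have bd := H.bond
  have e2 := H.e2
  have e1 := H.e1
  have hxi := Xt_inj H k0 hk0
  have hyi := Yt_inj H
  have rho : p (n-2) + 1 < p (n-1) := by
    have := H.c5; have := H.c6; have := H.c7; have := H.c8; have := H.c9; omega
  have mb : ∀ k, k < n → k ≠ i+1 → Pt.b k ∈ St n i := fun k h1 h2 => (b_mem_St n i k).2 ⟨h1, h2⟩
  have mg : ∀ k, k < n - 1 → Pt.g k ∈ St n i := fun k h1 => (g_mem_St n i k).2 h1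
  have ypm : Yt n i p (Pt.g k0) = 2 * n + 4 * p i - 2 := by
    simp only [Yt]
    rw [if_neg (by omega), if_pos (by omega)]
  rcases lt_or_ge w (b (Pt.b (i+2))) with hlt | hge
  · -- near
    refine ⟨fun k => if k = i+1 then w else b (Pt.b k), ?_, ?_⟩
    · intro a c hac hc
      dsimp only
      by_cases ha : a = i+1
      · rw [if_pos ha, if_neg (by omega)]
        refine lt_of_lt_of_le hlt (E.lex hxi (mb _ (by omega) (by omega)) (mb _ hc (by omega)) ?_)
        simp only [Xt]; omega
      · by_cases hc' : c = i+1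
        · rw [if_neg ha, if_pos hc']
          refine lt_of_le_of_lt (E.lex hxi (mb _ (by omega) ha) (mb _ (by omega) (by omega)) ?_) hw1
          simp only [Xt]; omega
        · rw [if_neg ha, if_neg hc']
          refine (E _ (mb _ (by omega) ha) _ (mb _ hc hc')).1 ?_
          simp only [Xt]; omega
    · intro a c ha' hc' hac
      dsimp only
      by_cases ha : a = i+1
      · subst ha
        have hc2 : c ≠ i+1 := by intro hh; subst hh; omega
        rw [if_pos rfl, if_neg hc2]
        refine lt_of_lt_of_le hw2 (E.ley hyi (mb _ (by omega) (by omega)) (mb _ hc' hc2) ?_)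
        simp only [Yt]; omega
      · by_cases hc : c = i+1
        · subst hc
          rw [if_neg ha, if_pos rfl]
          refine lt_of_le_of_lt (le_of_lt ((E _ (mb _ ha' ha) _ (mg k0 (by omega))).2 ?_)) hw3
          rw [ypm]
          simp only [Yt]; omega
        · rw [if_neg ha, if_neg hc]
          refine (E _ (mb _ ha' ha) _ (mb _ hc' hc)).2 ?_
          simp only [Yt]; omega
  · -- far
    have hg2 : b (Pt.g (n-2)) < w := by
      refine lt_of_lt_of_le ((E _ (mg _ (by omega)) _ (mb (i+2) (by omega) (by omega))).1 ?_) hge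
      simp only [Xt, if_true]; omega
    refine ⟨fun k => if k = n-1 then w else b (Pt.g k), ?_, ?_⟩
    · intro a c hac hc
      dsimp only
      by_cases hc' : c = n-1
      · rw [if_neg (by omega), if_pos hc']
        refine lt_of_le_of_lt (E.lex hxi (mg _ (by omega)) (mg (n-2) (by omega)) ?_) hg2
        simp only [Xt, if_true]
        split_ifs <;> omega
      · rw [if_neg (by omega), if_neg hc']
        refine (E _ (mg _ (by omega)) _ (mg _ (by omega))).1 ?_
        simp only [Xt]
        split_ifs <;> omega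
    · intro a c ha' hc' hac
      dsimp only
      by_cases ha : a = n-1
      · subst ha
        have hc2 : c ≠ n-1 := by intro hh; subst hh; omega
        have := H.lt c hc'
        rw [if_pos rfl, if_neg hc2]
        refine lt_trans hw2 ((E _ (mb _ (by omega) (by omega)) _ (mg _ (by omega))).2 ?_)
        simp only [Yt]
        rw [if_neg (by omega), if_neg (by omega)]
        split_ifs <;> omega
      · by_cases hc : c = n-1
        · subst hc
          rw [if_neg ha, if_pos rfl]
          refine lt_of_le_of_lt (E.ley hyi (mg _ (by omega)) (mg _ (by omega)) ?_) hw3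
          rw [ypm]
          have := H.lt a ha'
          simp only [Yt]
          split_ifs <;> omega
        · rw [if_neg ha, if_neg hc]
          refine (E _ (mg _ (by omega)) _ (mg _ (by omega))).2 ?_
          have n0 : p a ≠ p (n-1) := by
            intro hh
            have := H.inj _ _ (by omega) (by omega) hh
            omega
          have n0' : p c ≠ p (n-1) := by
            intro hh
            have := H.inj _ _ (by omega) (by omega) hh
            omega
          have := H.lt a ha'
          have := H.lt c hc'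
          simp only [Yt]
          split_ifs <;> omega

/-- The two configurations cannot be placed with the same centre without creating the pattern. -/
theorem amalg (H : Hyp n i d p) (hk0 : k0 + 3 < n) (hk0' : p k0 + 1 = p (n-1)) {m : ℕ}
    (θ : Equiv.Perm (Fin m)) (a b : Pt → Fin m)
    (A : Emb (Ss n i) (Xs n i) (Ys n i p) θ a)
    (B : Emb (St n i) (Xt n i k0) (Yt n i p) θ b)
    (hu : a (Pt.b (i+1)) = b (Pt.b i)) : Has n p θ := by
  by_contra hcon
  have hn := H.hn
  have i1 := H.i1
  have i2 := H.i2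
  have bd := H.bond
  have e2 := H.e2
  have e1 := H.e1
  have d1 := H.d1
  have d2 := H.d2
  have d3 := H.d3
  have hp0 := H.lt 0 (by omega)
  have hxi := Xt_inj H k0 hk0
  have hyi := Yt_inj H
  have hxs := Xs_inj H
  have hys := Ys_inj H
  have p01 : p 0 + 1 < p 1 := by
    have := H.c6; have := H.c7; have := H.c8; have := H.c9
    have := H.c10; have := H.c11; have := H.c12
    omega
  have p00 : 1 ≤ p 0 := by have := H.c5; omega
  have mb : ∀ k, k < n → k ≠ i+1 → Pt.b k ∈ St n i := fun k h1 h2 => (b_mem_St n i k).2 ⟨h1, h2⟩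
  have mg : ∀ k, k < n - 1 → Pt.g k ∈ St n i := fun k h1 => (g_mem_St n i k).2 h1
  have sb : ∀ k, k < n → k ≠ i → Pt.b k ∈ Ss n i := fun k h1 h2 => (b_mem_Ss n i k).2 ⟨h1, h2⟩
  have sg : ∀ k, 1 ≤ k → k < n → Pt.g k ∈ Ss n i := fun k h1 h2 => (g_mem_Ss n i k).2 ⟨h1, h2⟩
  have ml := l_mem_St n i
  have ypm : Yt n i p (Pt.g k0) = 2 * n + 4 * p i - 2 := by
    simp only [Yt]
    rw [if_neg (by omega), if_pos (by omega)]
  -- any point right of and below the centre is below `b (g k0)`
  have T2 : ∀ w : Fin m, b (Pt.b i) < w → θ w < θ (b (Pt.b i)) → θ w < θ (b (Pt.g k0)) := by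
    intro w h1 h2
    by_contra h3
    have h4 : θ (b (Pt.g k0)) ≤ θ w := not_lt.1 h3
    have h5 : b (Pt.g k0) < b (Pt.b i) := by
      refine (B _ (mg _ (by omega)) _ (mb _ (by omega) (by omega))).1 ?_
      simp only [Xt]
      rw [if_neg (by omega)]
      omega
    have h6 : θ (b (Pt.g k0)) ≠ θ w := by
      intro hh
      have := θ.injective hh
      rw [this] at h5
      exact absurd h5 (not_lt.2 (le_of_lt h1))
    exact hcon (near_far H hk0 hk0' θ b B w h1 h2 (lt_of_le_of_ne h4 h6))
  -- the point `d`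
  have Dd : θ (a (Pt.b d)) < θ (b (Pt.g k0)) := by
    apply T2
    · rw [← hu]
      refine (A _ (sb _ (by omega) (by omega)) _ (sb _ (by omega) (by omega))).1 ?_
      simp only [Xs]; omega
    · rw [← hu]
      refine (A _ (sb _ (by omega) (by omega)) _ (sb _ (by omega) (by omega))).2 ?_
      simp only [Ys]; omega
  -- the point `kd`
  obtain ⟨kd, hkd, hkd'⟩ := H.surj (p 0 - 1) (by omega)
  have hkd2 : 2 ≤ kd := by
    rcases Nat.lt_or_ge kd 2 with h | h
    · exfalso
      have : kd = 0 ∨ kd = 1 := by omega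
      rcases this with rfl | rfl <;> omega
    · exact h
  have ykd : Ys n i p (Pt.g kd) = 2 * n + 2 * p (i+1) - 1 := by
    simp only [Ys]
    rw [if_neg (by omega), if_pos (by omega)]
  have Kd : θ (a (Pt.g kd)) < θ (b (Pt.g k0)) := by
    apply T2
    · rw [← hu]
      refine (A _ (sb _ (by omega) (by omega)) _ (sg _ (by omega) (by omega))).1 ?_
      simp only [Xs]
      rw [if_neg (by omega)]; omega
    · rw [← hu]
      refine (A _ (sg _ (by omega) (by omega)) _ (sb _ (by omega) (by omega))).2 ?_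
      rw [ykd]
      simp only [Ys]; omega
  have lm : b Pt.l < b (Pt.g k0) := by
    refine (B _ ml _ (mg _ (by omega))).1 ?_
    simp only [Xt]
    rw [if_neg (by omega)]; omega
  have mu : b (Pt.g k0) < a (Pt.b (i+1)) := by
    rw [hu]
    refine (B _ (mg _ (by omega)) _ (mb _ (by omega) (by omega))).1 ?_
    simp only [Xt]
    rw [if_neg (by omega)]
    omega
  have mly : θ (b (Pt.g k0)) < θ (b Pt.l) := by
    refine (B _ (mg _ (by omega)) _ ml).2 ?_
    rw [ypm]
    simp only [Yt]; omega
  have luy : θ (b Pt.l) < θ (a (Pt.b (i+1))) := by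
    rw [hu]
    refine (B _ ml _ (mb _ (by omega) (by omega))).2 ?_
    simp only [Yt]; omega
  have g1l : a (Pt.g 1) ≤ b Pt.l := by
    by_contra hc
    have hc' : b Pt.l < a (Pt.g 1) := not_le.1 hc
    apply hcon
    refine ⟨fun k => if k = 0 then b Pt.l else a (Pt.g k), ?_, ?_⟩
    · intro s t hst ht
      dsimp only
      by_cases h0 : s = 0
      · rw [if_pos h0, if_neg (by omega)]
        refine lt_of_lt_of_le hc' (A.lex hxs (sg _ (by omega) (by omega)) (sg _ (by omega) ht) ?_)
        simp only [Xs]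
        split_ifs <;> omega
      · rw [if_neg h0, if_neg (by omega)]
        refine (A _ (sg _ (by omega) (by omega)) _ (sg _ (by omega) ht)).1 ?_
        simp only [Xs]
        split_ifs <;> omega
    · intro s t hs ht hst
      dsimp only
      by_cases h0 : s = 0
      · subst h0
        have ht0 : t ≠ 0 := by intro hh; subst hh; omega
        rw [if_pos rfl, if_neg ht0]
        refine lt_trans luy ((A _ (sb _ (by omega) (by omega)) _ (sg _ (by omega) ht)).2 ?_)
        simp only [Ys]
        have := H.lt (i+1) (by omega)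
        rw [if_neg (by omega), if_neg (by omega)]
        split_ifs <;> omega
      · by_cases ht0 : t = 0
        · subst ht0
          rw [if_neg h0, if_pos rfl]
          refine lt_trans (lt_of_le_of_lt (A.ley hys (sg _ (by omega) hs) (sg kd (by omega) hkd) ?_) Kd) mly
          rw [ykd]
          have := H.lt s hs
          simp only [Ys]
          split_ifs <;> omega
        · rw [if_neg h0, if_neg ht0]
          refine (A _ (sg _ (by omega) hs) _ (sg _ (by omega) ht)).2 ?_
          have n0 : p s ≠ p 0 := by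
            intro hh
            have := H.inj _ _ (by omega) (by omega) hh
            omega
          have n0' : p t ≠ p 0 := by
            intro hh
            have := H.inj _ _ (by omega) (by omega) hh
            omega
          have := H.lt s hs
          have := H.lt t ht
          have := H.lt (i+1) (by omega)
          simp only [Ys]
          split_ifs <;> omega
  -- final copy
  apply hcon
  refine ⟨fun k => if k = i then b Pt.l else if k = i+1 then b (Pt.g k0) else a (Pt.b k), ?_, ?_⟩
  · have left : ∀ s, s < i → a (Pt.b s) < b Pt.l := by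
      intro s hs
      refine lt_of_lt_of_le ((A _ (sb _ (by omega) (by omega)) _ (sg 1 (by omega) (by omega))).1 ?_) g1l
      simp only [Xs, if_true]; omega
    have right : ∀ t, i + 1 < t → t < n → b (Pt.g k0) < a (Pt.b t) := by
      intro t ht ht'
      refine lt_trans mu ((A _ (sb _ (by omega) (by omega)) _ (sb _ (by omega) (by omega))).1 ?_)
      simp only [Xs]; omega
    intro s t hst ht
    dsimp only
    by_cases s1 : s = i
    · rw [if_pos s1, if_neg (by omega)]
      by_cases t1 : t = i+1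
      · rw [if_pos t1]; exact lm
      · rw [if_neg t1]; exact lt_trans lm (right t (by omega) ht)
    · by_cases s2 : s = i+1
      · rw [if_neg s1, if_pos s2, if_neg (by omega), if_neg (by omega)]
        exact right t (by omega) ht
      · rw [if_neg s1, if_neg s2]
        by_cases t1 : t = i
        · rw [if_pos t1]; exact left s (by omega)
        · by_cases t2 : t = i+1
          · rw [if_neg t1, if_pos t2]; exact lt_trans (left s (by omega)) lm
          · rw [if_neg t1, if_neg t2]
            refine (A _ (sb _ (by omega) s1) _ (sb _ ht t1)).1 ?_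
            simp only [Xs]; omega
  · have low : ∀ s, s < n → p s < p (i+1) → θ (a (Pt.b s)) < θ (b (Pt.g k0)) := by
      intro s hs hps
      have s1 : s ≠ i := by intro hh; subst hh; omega
      refine lt_of_le_of_lt (A.ley hys (sb _ hs s1) (sb d (by omega) (by omega)) ?_) Dd
      simp only [Ys]; omega
    have high : ∀ t, t < n → p i < p t → θ (b Pt.l) < θ (a (Pt.b t)) := by
      intro t ht hpt
      have t1 : t ≠ i := by intro hh; subst hh; omega
      refine lt_trans luy ((A _ (sb _ (by omega) (by omega)) _ (sb _ ht t1)).2 ?_)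
      simp only [Ys]; omega
    intro s t hs ht hst
    dsimp only
    by_cases s1 : s = i
    · subst s1
      have t1 : t ≠ s := by intro hh; subst hh; omega
      have t2 : t ≠ s+1 := by intro hh; subst hh; omega
      rw [if_pos rfl, if_neg t1, if_neg t2]
      exact high t ht hst
    · by_cases s2 : s = i+1
      · subst s2
        have t2 : t ≠ i+1 := by intro hh; subst hh; omega
        rw [if_neg s1, if_pos rfl]
        by_cases t1 : t = i
        · rw [if_pos t1]; exact mly
        · rw [if_neg t1, if_neg t2]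
          have : p t ≠ p i := by
            intro hh
            exact t1 (H.inj _ _ ht (by omega) hh)
          exact lt_trans mly (high t ht (by omega))
      · rw [if_neg s1, if_neg s2]
        have n1 : p s ≠ p i := by
          intro hh
          exact s1 (H.inj _ _ hs (by omega) hh)
        have n2 : p s ≠ p (i+1) := by
          intro hh
          exact s2 (H.inj _ _ hs (by omega) hh)
        by_cases t1 : t = i
        · rw [if_pos t1]
          subst t1
          exact lt_trans (low s hs (by omega)) mly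
        · by_cases t2 : t = i+1
          · rw [if_neg t1, if_pos t2]
            subst t2
            exact low s hs (by omega)
          · rw [if_neg t1, if_neg t2]
            refine (A _ (sb _ hs s1) _ (sb _ ht t1)).2 ?_
            simp only [Ys]; omega

end

end PartC

section PartD



/-- the one-line values of a permutation as a function on the naturals -/
def pv {n : ℕ} (π : Equiv.Perm (Fin n)) : ℕ → ℕ := fun k => if h : k < n then (π ⟨k, h⟩ : ℕ) else 0

theorem pv_fin {n : ℕ} (π : Equiv.Perm (Fin n)) (a : Fin n) : pv π a = (π a : ℕ) := by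
  simp [pv]

theorem has_cont {n m : ℕ} (π : Equiv.Perm (Fin n)) (θ : Equiv.Perm (Fin m))
    (h : Has n (pv π) θ) : ∃ f : Fin n ↪o Fin m, ∀ i j, π i < π j ↔ θ (f i) < θ (f j) := by
  obtain ⟨g, hg1, hg2⟩ := h
  have hm : StrictMono (fun a : Fin n => g a) := by
    intro a b hab
    exact hg1 a b hab b.2
  refine ⟨OrderEmbedding.ofStrictMono _ hm, ?_⟩
  have key : ∀ i j : Fin n, π i < π j → θ (g i) < θ (g j) := by
    intro i j hij
    apply hg2 i j i.2 j.2
    rw [pv_fin, pv_fin]
    exact hij
  intro i j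
  constructor
  · intro hij
    exact key i j hij
  · intro hij
    by_contra hc
    rcases lt_or_eq_of_le (not_lt.1 hc) with h | h
    · have := key j i h
      exact absurd hij (not_lt.2 (le_of_lt this))
    · have : j = i := π.injective h
      subst this
      exact absurd hij (lt_irrefl _)

theorem std (S : Finset Pt) (hS : S.Nonempty) (X Y : Pt → ℕ)
    (hX : ∀ s ∈ S, ∀ t ∈ S, X s = X t → s = t) (hY : ∀ s ∈ S, ∀ t ∈ S, Y s = Y t → s = t) :
    ∃ (m : ℕ) (τ : Equiv.Perm (Fin m)) (e : Fin m → Pt),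
      (∀ a, e a ∈ S) ∧ (∀ a b, a < b → X (e a) < X (e b)) ∧ (∀ a b, τ a < τ b → Y (e a) < Y (e b)) ∧
      ∃ a : Pt → Fin m, Emb S X Y τ a := by
  classical
  have cX : (S.image X).card = S.card := Finset.card_image_of_injOn (fun s hs t ht h => hX s hs t ht h)
  have cY : (S.image Y).card = S.card := Finset.card_image_of_injOn (fun s hs t ht h => hY s hs t ht h)
  set m := S.card with hm
  let f := (S.image X).orderEmbOfFin cX
  let g := (S.image Y).orderEmbOfFin cY
  have hf : ∀ j : Fin m, ∃ s, s ∈ S ∧ X s = f j := by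
    intro j
    have := (S.image X).orderEmbOfFin_mem cX j
    rw [Finset.mem_image] at this
    exact this
  choose e he1 he2 using hf
  have hsurj : ∀ s ∈ S, ∃ j, e j = s := by
    intro s hs
    have h1 : X s ∈ (S.image X : Set ℕ) := by
      simpa using Finset.mem_image_of_mem X hs
    rw [← Finset.range_orderEmbOfFin (S.image X) cX] at h1
    obtain ⟨j, hj⟩ := h1
    refine ⟨j, hX _ (he1 j) _ hs ?_⟩
    rw [he2 j, ← hj]
  have hg : ∀ j : Fin m, ∃ t : Fin m, g t = Y (e j) := by
    intro j
    have h1 : Y (e j) ∈ (S.image Y : Set ℕ) := by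
      simpa using Finset.mem_image_of_mem Y (he1 j)
    rw [← Finset.range_orderEmbOfFin (S.image Y) cY] at h1
    exact h1
  choose t ht using hg
  have hinj : Function.Injective t := by
    intro a b hab
    have h1 : Y (e a) = Y (e b) := by rw [← ht a, ← ht b, hab]
    have h2 := hY _ (he1 a) _ (he1 b) h1
    have h3 : f a = f b := by rw [← he2 a, ← he2 b, h2]
    exact f.injective h3
  let τ : Equiv.Perm (Fin m) := Equiv.ofBijective t (Finite.injective_iff_bijective.1 hinj)
  have hτ : ∀ a, τ a = t a := fun a => rfl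
  have hpos : 0 < m := by rw [hm]; exact Finset.card_pos.2 hS
  refine ⟨m, τ, e, he1, ?_, ?_, ?_⟩
  · intro a b hab
    rw [he2 a, he2 b]
    exact f.strictMono hab
  · intro a b hab
    rw [hτ, hτ] at hab
    rw [← ht a, ← ht b]
    exact g.strictMono hab
  · refine ⟨fun s => if h : ∃ j, e j = s then h.choose else ⟨0, hpos⟩, ?_⟩
    intro s hs t' ht'
    have h1 := hsurj s hs
    have h2 := hsurj t' ht'
    simp only [dif_pos h1, dif_pos h2]
    have e1 := h1.choose_spec
    have e2 := h2.choose_spec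
    constructor
    · intro h
      rw [← e1, ← e2, he2, he2] at h
      exact f.lt_iff_lt.1 h
    · intro h
      rw [← e1, ← e2, ← ht, ← ht] at h
      rw [hτ, hτ]
      exact g.lt_iff_lt.1 h

theorem splittable {n : ℕ} (π : Equiv.Perm (Fin n)) (i d : ℕ) (H : Hyp n i d (pv π)) :
    ∃ A B : (k : ℕ) → Equiv.Perm (Fin k) → Prop,
        (∀ (k m : ℕ) (σ : Equiv.Perm (Fin k)) (τ : Equiv.Perm (Fin m)),
          (∃ f : Fin k ↪o Fin m, ∀ i j, σ i < σ j ↔ τ (f i) < τ (f j)) → A m τ → A k σ) ∧
        (∀ (k m : ℕ) (σ : Equiv.Perm (Fin k)) (τ : Equiv.Perm (Fin m)),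
          (∃ f : Fin k ↪o Fin m, ∀ i j, σ i < σ j ↔ τ (f i) < τ (f j)) → B m τ → B k σ) ∧
        (∀ (m : ℕ) (τ : Equiv.Perm (Fin m)), A m τ →
          ¬ ∃ f : Fin n ↪o Fin m, ∀ i j, π i < π j ↔ τ (f i) < τ (f j)) ∧
        (∀ (m : ℕ) (τ : Equiv.Perm (Fin m)), B m τ →
          ¬ ∃ f : Fin n ↪o Fin m, ∀ i j, π i < π j ↔ τ (f i) < τ (f j)) ∧
        (∃ (m : ℕ) (τ : Equiv.Perm (Fin m)),
          (¬ ∃ f : Fin n ↪o Fin m, ∀ i j, π i < π j ↔ τ (f i) < τ (f j)) ∧ ¬ A m τ) ∧
        (∃ (m : ℕ) (τ : Equiv.Perm (Fin m)),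
          (¬ ∃ f : Fin n ↪o Fin m, ∀ i j, π i < π j ↔ τ (f i) < τ (f j)) ∧ ¬ B m τ) ∧
        (∀ (m : ℕ) (τ : Equiv.Perm (Fin m)),
          (¬ ∃ f : Fin n ↪o Fin m, ∀ i j, π i < π j ↔ τ (f i) < τ (f j)) →
          ∃ S : Set (Fin m),
            (∀ (k : ℕ) (σ : Equiv.Perm (Fin k)) (f : Fin k ↪o Fin m),
              (∀ i, f i ∈ S) → (∀ i j, σ i < σ j ↔ τ (f i) < τ (f j)) → A k σ) ∧
            (∀ (k : ℕ) (σ : Equiv.Perm (Fin k)) (f : Fin k ↪o Fin m),
              (∀ i, f i ∉ S) → (∀ i j, σ i < σ j ↔ τ (f i) < τ (f j)) → B k σ)) := by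
  set p := pv π with hp
  have hn := H.hn
  have i2 := H.i2
  have hp1 := H.lt (n-1) (by omega)
  have rho : p (n-2) + 1 < p (n-1) := by
    have := H.c5; have := H.c6; have := H.c7; have := H.c8; have := H.c9; omega
  have rho3 : p (n-1) + 1 < p (n-3) := by
    have := H.c10; have := H.c11; have := H.c12; have := H.c13; have := H.c14
    have := H.c15; have := H.c16; omega
  obtain ⟨k0, hk0, hk0'⟩ := H.surj (p (n-1) - 1) (by omega)
  have hk0'' : p k0 + 1 = p (n-1) := by omega
  have hk03 : k0 + 3 < n := by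
    by_contra hcon
    have : k0 = n-1 ∨ k0 = n-2 ∨ k0 = n-3 := by omega
    rcases this with hh | hh | hh <;> subst hh <;> omega
  -- composing a placement with a containment
  have comp : ∀ (S : Finset Pt) (X Y : Pt → ℕ) (k m : ℕ) (σ : Equiv.Perm (Fin k))
      (τ : Equiv.Perm (Fin m)) (f : Fin k ↪o Fin m), (∀ i j, σ i < σ j ↔ τ (f i) < τ (f j)) →
      ∀ a : Pt → Fin k, Emb S X Y σ a → Emb S X Y τ (fun s => f (a s)) := by
    intro S X Y k m σ τ f hf a E s hs t ht
    refine ⟨fun h => f.strictMono ((E s hs t ht).1 h), fun h => (hf _ _).1 ((E s hs t ht).2 h)⟩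
  have compc : ∀ (k m : ℕ) (σ : Equiv.Perm (Fin k)) (τ : Equiv.Perm (Fin m)) (f : Fin k ↪o Fin m),
      (∀ i j, σ i < σ j ↔ τ (f i) < τ (f j)) →
      (∃ f : Fin n ↪o Fin k, ∀ i j, π i < π j ↔ σ (f i) < σ (f j)) →
      (∃ f : Fin n ↪o Fin m, ∀ i j, π i < π j ↔ τ (f i) < τ (f j)) := by
    intro k m σ τ f hf ⟨g, hg⟩
    refine ⟨g.trans f, fun i j => ?_⟩
    rw [hg i j, hf]
    rfl
  -- avoidance for the two standardized configurations
  have pat : ∀ (S : Finset Pt) (X Y : Pt → ℕ) (m : ℕ) (τ : Equiv.Perm (Fin m)) (e : Fin m → Pt),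
      (∀ a, e a ∈ S) → (∀ a b, a < b → X (e a) < X (e b)) →
      (∀ a b, τ a < τ b → Y (e a) < Y (e b)) →
      (∃ f : Fin n ↪o Fin m, ∀ i j, π i < π j ↔ τ (f i) < τ (f j)) →
      ∃ h : ℕ → Pt, (∀ k, k < n → h k ∈ S) ∧ (∀ a b, a < b → b < n → X (h a) < X (h b)) ∧
        (∀ a b, a < n → b < n → p a < p b → Y (h a) < Y (h b)) := by
    intro S X Y m τ e h1 h2 h3 ⟨f, hf⟩
    refine ⟨fun k => if h : k < n then e (f ⟨k, h⟩) else Pt.l, ?_, ?_, ?_⟩
    · intro k hk
      simp only [dif_pos hk]
      exact h1 _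
    · intro a b hab hb
      have ha : a < n := by omega
      simp only [dif_pos hb, dif_pos ha]
      exact h2 _ _ (f.strictMono hab)
    · intro a b ha hb hab
      simp only [dif_pos hb, dif_pos ha]
      apply h3
      rw [← hf]
      have e1 : p a = (π ⟨a, ha⟩ : ℕ) := pv_fin π ⟨a, ha⟩
      have e2 : p b = (π ⟨b, hb⟩ : ℕ) := pv_fin π ⟨b, hb⟩
      rw [e1, e2] at hab
      exact hab
  refine ⟨fun k ρ => (¬ ∃ f : Fin n ↪o Fin k, ∀ i j, π i < π j ↔ ρ (f i) < ρ (f j)) ∧
      ¬ ∃ a : Pt → Fin k, Emb (St n i) (Xt n i k0) (Yt n i p) ρ a,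
    fun k ρ => (¬ ∃ f : Fin n ↪o Fin k, ∀ i j, π i < π j ↔ ρ (f i) < ρ (f j)) ∧
      ¬ ∃ a : Pt → Fin k, Emb (Ss n i) (Xs n i) (Ys n i p) ρ a, ?_, ?_, ?_, ?_, ?_, ?_, ?_⟩
  · rintro k m σ τ ⟨f, hf⟩ ⟨h1, h2⟩
    refine ⟨fun h => h1 (compc k m σ τ f hf h), ?_⟩
    rintro ⟨a, ha⟩
    exact h2 ⟨_, comp _ _ _ k m σ τ f hf a ha⟩
  · rintro k m σ τ ⟨f, hf⟩ ⟨h1, h2⟩
    refine ⟨fun h => h1 (compc k m σ τ f hf h), ?_⟩
    rintro ⟨a, ha⟩
    exact h2 ⟨_, comp _ _ _ k m σ τ f hf a ha⟩
  · intro m τ h; exact h.1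
  · intro m τ h; exact h.1
  · obtain ⟨m, τ, e, h1, h2, h3, h4⟩ := std (St n i) ⟨_, l_mem_St n i⟩ (Xt n i k0) (Yt n i p)
      (Xt_inj H k0 hk03) (Yt_inj H)
    refine ⟨m, τ, ?_, fun h => h.2 h4⟩
    intro hc
    obtain ⟨h, q1, q2, q3⟩ := pat _ _ _ m τ e h1 h2 h3 hc
    exact avoid_t H k0 hk0 hk0'' h q1 q2 q3
  · obtain ⟨m, τ, e, h1, h2, h3, h4⟩ := std (Ss n i)
      ⟨Pt.b (i+1), (b_mem_Ss n i (i+1)).2 ⟨by omega, by omega⟩⟩ (Xs n i) (Ys n i p)
      (Xs_inj H) (Ys_inj H)
    refine ⟨m, τ, ?_, fun h => h.2 h4⟩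
    intro hc
    obtain ⟨h, q1, q2, q3⟩ := pat _ _ _ m τ e h1 h2 h3 hc
    exact avoid_s H h q1 q2 q3
  · intro m τ hτ
    refine ⟨{z | ∃ a : Pt → Fin m, Emb (Ss n i) (Xs n i) (Ys n i p) τ a ∧ a (Pt.b (i+1)) = z}, ?_, ?_⟩
    · intro k σ f hfS hf
      refine ⟨fun h => hτ (compc k m σ τ f hf h), ?_⟩
      rintro ⟨b, hb⟩
      have hb' := comp _ _ _ k m σ τ f hf b hb
      obtain ⟨a, ha, hau⟩ := hfS (b (Pt.b i))
      exact hτ (has_cont π τ (amalg H hk03 hk0'' τ a _ ha hb' hau))
    · intro k σ f hfS hf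
      refine ⟨fun h => hτ (compc k m σ τ f hf h), ?_⟩
      rintro ⟨a, ha⟩
      have ha' := comp _ _ _ k m σ τ f hf a ha
      exact hfS (a (Pt.b (i+1))) ⟨_, ha', rfl⟩

end PartD

section PartE

open Nat

/-- number of permutations with prescribed values at `s` positions -/
theorem card_prescribed {n s : ℕ} (q f : Fin s ↪ Fin n) :
    (Finset.univ.filter (fun π : Equiv.Perm (Fin n) => ∀ t, π (q t) = f t)).card = (n - s)! := by
  classical
  -- an extension
  obtain ⟨π0, h0⟩ : ∃ π0 : Equiv.Perm (Fin n), ∀ t, π0 (q t) = f t := by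
    let e : {x // x ∈ Set.range q} ≃ {x // x ∈ Set.range f} :=
      (Equiv.ofInjective q q.injective).symm.trans (Equiv.ofInjective f f.injective)
    refine ⟨e.extendSubtype, fun t => ?_⟩
    rw [Equiv.extendSubtype_apply_of_mem e (q t) ⟨t, rfl⟩]
    have : (⟨q t, ⟨t, rfl⟩⟩ : {x // x ∈ Set.range q}) = Equiv.ofInjective q q.injective t := rfl
    rw [this]
    simp [e]
  let P : Fin n → Prop := fun a => a ∉ Set.range q
  have e2 : {π : Equiv.Perm (Fin n) // ∀ t, π (q t) = f t} ≃
      {g : Equiv.Perm (Fin n) // ∀ a, ¬ P a → g a = a} := by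
    refine ⟨fun π => ⟨π0⁻¹ * π.1, ?_⟩, fun g => ⟨π0 * g.1, ?_⟩, ?_, ?_⟩
    · intro a ha
      have ha' : a ∈ Set.range q := not_not.1 ha
      obtain ⟨t, rfl⟩ := ha'
      rw [Equiv.Perm.mul_apply, π.2 t, ← h0 t]
      simp
    · intro t
      rw [Equiv.Perm.mul_apply, g.2 (q t) (not_not.2 ⟨t, rfl⟩), h0 t]
    · intro π
      apply Subtype.ext
      simp
    · intro g
      apply Subtype.ext
      simp
  have c1 : (Finset.univ.filter (fun π : Equiv.Perm (Fin n) => ∀ t, π (q t) = f t)).card =
      Fintype.card {π : Equiv.Perm (Fin n) // ∀ t, π (q t) = f t} := by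
    rw [Fintype.card_subtype]
  rw [c1, Fintype.card_congr e2, ← Fintype.card_congr (Equiv.Perm.subtypeEquivSubtypePerm P),
    Fintype.card_perm]
  congr 1
  have c2 : Fintype.card {a // P a} = Fintype.card (Fin n) - Fintype.card {a // a ∈ Set.range q} := by
    exact Fintype.card_subtype_compl (fun a => a ∈ Set.range q)
  rw [c2, Fintype.card_fin, Fintype.card_congr (Equiv.ofInjective q q.injective).symm,
    Fintype.card_fin]

/-- Prescribing values, possibly inconsistently: upper bound. -/
theorem card_prescribed_le {n s : ℕ} (q : Fin s ↪ Fin n) (v : Fin s → Fin n) :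
    (Finset.univ.filter (fun π : Equiv.Perm (Fin n) => ∀ t, π (q t) = v t)).card ≤ (n - s)! := by
  classical
  by_cases h : ∃ π : Equiv.Perm (Fin n), ∀ t, π (q t) = v t
  · obtain ⟨π, hπ⟩ := h
    have hv : Function.Injective v := by
      intro a b hab
      rw [← hπ a, ← hπ b] at hab
      exact q.injective (π.injective hab)
    have := card_prescribed q ⟨v, hv⟩
    exact le_of_eq this
  · have : (Finset.univ.filter (fun π : Equiv.Perm (Fin n) => ∀ t, π (q t) = v t)) = ∅ := by
      rw [Finset.filter_eq_empty_iff]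
      intro π _ hπ
      exact h ⟨π, hπ⟩
    rw [this]
    simp

/-- permutations with two given descents by one -/
theorem card_two_bonds {n : ℕ} (i k : ℕ) (hik : i + 1 < k) (hk : k + 1 < n) :
    (Finset.univ.filter (fun π : Equiv.Perm (Fin n) =>
      (π ⟨i, by omega⟩ : ℕ) = π ⟨i+1, by omega⟩ + 1 ∧
      (π ⟨k, by omega⟩ : ℕ) = π ⟨k+1, by omega⟩ + 1)).card ≤ n * n * (n - 4)! := by
  classical
  set s := Finset.univ.filter (fun π : Equiv.Perm (Fin n) =>
      (π ⟨i, by omega⟩ : ℕ) = π ⟨i+1, by omega⟩ + 1 ∧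
      (π ⟨k, by omega⟩ : ℕ) = π ⟨k+1, by omega⟩ + 1) with hs
  have h := Finset.card_le_mul_card_image_of_maps_to (s := s)
    (t := (Finset.univ : Finset (Fin n × Fin n)))
    (f := fun π => (π ⟨i+1, by omega⟩, π ⟨k+1, by omega⟩)) (fun _ _ => Finset.mem_univ _) ((n-4)!) ?_
  · calc s.card ≤ (n-4)! * (Finset.univ : Finset (Fin n × Fin n)).card := h
      _ = n * n * (n-4)! := by
        rw [Finset.card_univ, Fintype.card_prod, Fintype.card_fin]; ring
  · rintro ⟨a, b⟩ _
    by_cases hab : (a : ℕ) + 1 < n ∧ (b : ℕ) + 1 < n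
    · have hq : Function.Injective (![⟨i, by omega⟩, ⟨i+1, by omega⟩, ⟨k, by omega⟩, ⟨k+1, by omega⟩] :
          Fin 4 → Fin n) := by
        intro x y hxy
        fin_cases x <;> fin_cases y <;> simp [Fin.ext_iff] at hxy ⊢ <;> omega
      refine le_trans (Finset.card_le_card ?_)
        (card_prescribed_le ⟨_, hq⟩ ![⟨a+1, hab.1⟩, a, ⟨b+1, hab.2⟩, b])
      intro π hπ
      simp only [hs, Finset.mem_filter, Finset.mem_univ, true_and, Prod.mk.injEq] at hπ
      simp only [Finset.mem_filter, Finset.mem_univ, true_and]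
      obtain ⟨⟨h1, h2⟩, h3, h4⟩ := hπ
      intro t
      fin_cases t
      · simp [Fin.ext_iff, h1, h3]
      · simp [h3]
      · simp [Fin.ext_iff, h2, h4]
      · simp [h4]
    · have : (s.filter (fun π => (π ⟨i+1, by omega⟩, π ⟨k+1, by omega⟩) = (a, b))) = ∅ := by
        rw [Finset.filter_eq_empty_iff]
        intro π hπ hc
        simp only [hs, Finset.mem_filter, Finset.mem_univ, true_and] at hπ
        rw [Prod.mk.injEq] at hc
        apply hab
        have h1 := (π ⟨i, by omega⟩).2
        have h2 := (π ⟨k, by omega⟩).2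
        rw [hπ.1, hc.1] at h1
        rw [hπ.2, hc.2] at h2
        exact ⟨h1, h2⟩
      rw [this]
      simp

/-- a Bonferroni inequality -/
theorem bonf {α : Type*} [DecidableEq α] (G : ℕ → Finset α) (g B : ℝ) (hB0 : 0 ≤ B) (M : ℕ)
    (hg : ∀ t, t < M → g ≤ ((G t).card : ℝ))
    (hB : ∀ s t, s < t → t < M → ((G s ∩ G t).card : ℝ) ≤ B) :
    (M : ℝ) * g - B * M ^ 2 ≤ (((Finset.range M).biUnion G).card : ℝ) := by
  induction M with
  | zero => simp
  | succ M ih =>
    have ih' := ih (fun t ht => hg t (by omega)) (fun s t h1 h2 => hB s t h1 (by omega))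
    have hu : (Finset.range (M+1)).biUnion G = ((Finset.range M).biUnion G) ∪ G M := by
      rw [Finset.range_add_one, Finset.biUnion_insert, Finset.union_comm]
    have hc := Finset.card_union_add_card_inter ((Finset.range M).biUnion G) (G M)
    have hi : ((((Finset.range M).biUnion G) ∩ G M).card : ℝ) ≤ M * B := by
      have h1 : ((Finset.range M).biUnion G) ∩ G M = (Finset.range M).biUnion (fun s => G s ∩ G M) := by
        rw [Finset.biUnion_inter]
      rw [h1]
      calc (((Finset.range M).biUnion (fun s => G s ∩ G M)).card : ℝ)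
          ≤ ((∑ s ∈ Finset.range M, (G s ∩ G M).card : ℕ) : ℝ) := by
            exact_mod_cast Finset.card_biUnion_le
        _ = ∑ s ∈ Finset.range M, ((G s ∩ G M).card : ℝ) := by push_cast; rfl
        _ ≤ ∑ s ∈ Finset.range M, B := by
            apply Finset.sum_le_sum
            intro s hs
            exact hB s M (Finset.mem_range.1 hs) (by omega)
        _ = M * B := by simp
    rw [hu]
    have hc' : ((((Finset.range M).biUnion G) ∪ G M).card : ℝ) +
        ((((Finset.range M).biUnion G) ∩ G M).card : ℝ) =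
        (((Finset.range M).biUnion G).card : ℝ) + ((G M).card : ℝ) := by exact_mod_cast hc
    have hgM := hg M (by omega)
    have : (0:ℝ) ≤ M := Nat.cast_nonneg M
    push_cast
    nlinarith [mul_nonneg hB0 this]

end PartE

section PartF

open Nat

def Wd : Fin 23 → ℕ := ![5,12,1,0,6,7,8,13,14,15, 18,19,19,20,19, 17,11,10,3,2,16,4,9]

def Qp (n i dd : ℕ) : Fin 23 → ℕ :=
  ![0,1,2,3,4,5,6,7,8,9, i-1,i,i+1,i+2,dd, n-8,n-7,n-6,n-5,n-4,n-3,n-2,n-1]

def Of (a : Fin 20 → ℕ) (v : ℕ) : Fin 23 → ℕ :=
  ![a 0,a 1,a 2,a 3,a 4,a 5,a 6,a 7,a 8,a 9, a 10,v+2,v+1,a 11,v,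
    a 12,a 13,a 14,a 15,a 16,a 17,a 18,a 19]

theorem Qp_mono (n i dd : ℕ) (h1 : 11 ≤ i) (h2 : i + 2 < dd) (h3 : dd + 8 < n) :
    StrictMono (Qp n i dd) := by
  rw [Fin.strictMono_iff_lt_succ]
  intro t
  fin_cases t <;> simp [Qp, Fin.castSucc, Fin.succ] <;> omega

theorem Wd_inj : ∀ s t : Fin 23, Wd s = Wd t →
    s = t ∨ ((s = 11 ∨ s = 12 ∨ s = 14) ∧ (t = 11 ∨ t = 12 ∨ t = 14)) := by
  decide

theorem Wd_lt : ∀ s : Fin 23, Wd s < 21 := by decide

theorem Of_lt (w : ℕ) (a : Fin 20 → ℕ) (v : ℕ) (ha : ∀ k, a k < w) (hv : v + 2 < w) :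
    ∀ t, Of a v t < w := by
  intro t
  fin_cases t <;> simp [Of, ha] <;> omega

theorem V_inj (w : ℕ) (hw : 0 < w) (a : Fin 20 → ℕ) (v : ℕ) (ha : ∀ k, a k < w) (hv : v + 2 < w) :
    Function.Injective (fun t => Wd t * w + Of a v t) := by
  intro s t h
  dsimp only at h
  have o1 := Of_lt w a v ha hv s
  have o2 := Of_lt w a v ha hv t
  have e1 : (Wd s * w + Of a v s) / w = Wd s := by
    rw [Nat.add_comm, Nat.add_mul_div_right _ _ hw, Nat.div_eq_of_lt o1, Nat.zero_add]
  have e2 : (Wd t * w + Of a v t) / w = Wd t := by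
    rw [Nat.add_comm, Nat.add_mul_div_right _ _ hw, Nat.div_eq_of_lt o2, Nat.zero_add]
  have e3 : Wd s = Wd t := by rw [← e1, ← e2, h]
  have e4 : Of a v s = Of a v t := by
    rw [e3] at h
    exact Nat.add_left_cancel h
  rcases Wd_inj s t e3 with h | ⟨h1, h2⟩
  · exact h
  · rcases h1 with rfl | rfl | rfl <;> rcases h2 with rfl | rfl | rfl <;>
      simp [Of] at e4 ⊢

theorem V_lt (w : ℕ) (a : Fin 20 → ℕ) (v : ℕ) (ha : ∀ k, a k < w) (hv : v + 2 < w) :
    ∀ t, Wd t * w + Of a v t < 21 * w := by
  intro t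
  have o1 := Of_lt w a v ha hv t
  have h1 := Wd_lt t
  have : Wd t * w ≤ 20 * w := Nat.mul_le_mul_right w (by omega)
  omega

/-- the permutations realizing given data -/
def Cell (w i e : ℕ) (a : Fin 20 → ℕ) (v : ℕ) : Finset (Equiv.Perm (Fin (21 * w))) :=
  Finset.univ.filter (fun π => ∀ t : Fin 23, pv π (Qp (21 * w) i (10 * w + e) t) = Wd t * w + Of a v t)

theorem cell_card (w i e : ℕ) (a : Fin 20 → ℕ) (v : ℕ) (hw : 4 ≤ w) (h1 : 11 ≤ i)
    (h2 : i + 2 < 10 * w) (he : e < w) (ha : ∀ k, a k < w) (hv : v + 2 < w) :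
    (Cell w i e a v).card = (21 * w - 23)! := by
  classical
  have hm := Qp_mono (21 * w) i (10 * w + e) h1 (by omega) (by omega)
  have hlt : ∀ t, Qp (21 * w) i (10 * w + e) t < 21 * w := by
    intro t
    have h22 : Qp (21 * w) i (10 * w + e) t ≤ Qp (21 * w) i (10 * w + e) 22 :=
      hm.monotone (Fin.le_last t)
    have : Qp (21 * w) i (10 * w + e) 22 = 21 * w - 1 := by simp [Qp]
    omega
  let q : Fin 23 ↪ Fin (21 * w) := ⟨fun t => ⟨Qp (21 * w) i (10 * w + e) t, hlt t⟩, by
    intro s t h
    exact hm.injective (Fin.ext_iff.1 h)⟩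
  let f : Fin 23 ↪ Fin (21 * w) := ⟨fun t => ⟨Wd t * w + Of a v t, V_lt w a v ha hv t⟩, by
    intro s t h
    exact V_inj w (by omega) a v ha hv (Fin.ext_iff.1 h)⟩
  rw [← card_prescribed q f]
  congr 1
  unfold Cell
  apply Finset.filter_congr
  intro π _
  apply forall_congr'
  intro t
  have : pv π (Qp (21 * w) i (10 * w + e) t) = (π (q t) : ℕ) := by
    simp only [pv, dif_pos (hlt t)]
    rfl
  rw [this, Fin.ext_iff]
  exact Iff.rfl

theorem cell_vals {w i e : ℕ} {a : Fin 20 → ℕ} {v : ℕ} {π : Equiv.Perm (Fin (21 * w))}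
    (h : π ∈ Cell w i e a v) :
    ∀ t : Fin 23, pv π (Qp (21 * w) i (10 * w + e) t) = Wd t * w + Of a v t := by
  simpa [Cell] using h

theorem pv_lt {n : ℕ} (π : Equiv.Perm (Fin n)) (k : ℕ) (hk : k < n) : pv π k < n := by
  simp [pv, hk]

theorem pv_inj {n : ℕ} (π : Equiv.Perm (Fin n)) (a b : ℕ) (ha : a < n) (hb : b < n)
    (h : pv π a = pv π b) : a = b := by
  simp only [pv, dif_pos ha, dif_pos hb] at h
  have := π.injective (Fin.ext h)
  exact Fin.ext_iff.1 this

theorem pv_surj {n : ℕ} (π : Equiv.Perm (Fin n)) (v : ℕ) (hv : v < n) : ∃ k, k < n ∧ pv π k = v := by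
  refine ⟨π.symm ⟨v, hv⟩, (π.symm ⟨v, hv⟩).2, ?_⟩
  simp [pv]

theorem cell_hyp {w i e : ℕ} {a : Fin 20 → ℕ} {v : ℕ} {π : Equiv.Perm (Fin (21 * w))}
    (hw : 4 ≤ w) (h1 : 11 ≤ i) (h2 : i + 2 < 10 * w) (he : e < w) (ha : ∀ k, a k < w)
    (hv : v + 2 < w) (h : π ∈ Cell w i e a v) : Hyp (21 * w) i (10 * w + e) (pv π) := by
  have hh := cell_vals h
  have g0 := hh 0
  have g1 := hh 1
  have g2 := hh 2
  have g3 := hh 3
  have g4 := hh 4
  have g5 := hh 5
  have g6 := hh 6
  have g7 := hh 7
  have g8 := hh 8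
  have g9 := hh 9
  have g10 := hh 10
  have g11 := hh 11
  have g12 := hh 12
  have g13 := hh 13
  have g14 := hh 14
  have g15 := hh 15
  have g16 := hh 16
  have g17 := hh 17
  have g18 := hh 18
  have g19 := hh 19
  have g20 := hh 20
  have g21 := hh 21
  have g22 := hh 22
  simp only [Qp, Wd, Of] at g0 g1 g2 g3 g4 g5 g6 g7 g8 g9 g10 g11 g12 g13 g14 g15 g16 g17 g18 g19 g20 g21 g22
  simp at g0 g1 g2 g3 g4 g5 g6 g7 g8 g9 g10 g11 g12 g13 g14 g15 g16 g17 g18 g19 g20 g21 g22
  have a0 := ha 0
  have a1 := ha 1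
  have a2 := ha 2
  have a3 := ha 3
  have a4 := ha 4
  have a5 := ha 5
  have a6 := ha 6
  have a7 := ha 7
  have a8 := ha 8
  have a9 := ha 9
  have a10 := ha 10
  have a11 := ha 11
  have a12 := ha 12
  have a13 := ha 13
  have a14 := ha 14
  have a15 := ha 15
  have a16 := ha 16
  have a17 := ha 17
  have a18 := ha 18
  have a19 := ha 19
  refine ⟨by omega, fun k hk => pv_lt π k hk, fun a b ha hb h => pv_inj π a b ha hb h,
    fun w hw => pv_surj π w hw, ?_, ?_, ?_, ?_, ?_, ?_, ?_, ?_, ?_, ?_, ?_, ?_, ?_, ?_, ?_, ?_, ?_,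
    by omega, by omega, ?_, ?_, ?_, ?_, ?_, by omega, by omega, ?_⟩ <;> omega

def idx : Fin 20 → Fin 23 := ![0,1,2,3,4,5,6,7,8,9, 10,13, 15,16,17,18,19,20,21,22]

theorem Of_idx (a : Fin 20 → ℕ) (v : ℕ) (k : Fin 20) : Of a v (idx k) = a k := by
  fin_cases k <;> rfl

theorem Qp_idx (n i dd dd' : ℕ) (k : Fin 20) : Qp n i dd (idx k) = Qp n i dd' (idx k) := by
  fin_cases k <;> simp [Qp, idx]

theorem cell_disj {w i e e' : ℕ} {a a' : Fin 20 → ℕ} {v v' : ℕ} {π : Equiv.Perm (Fin (21 * w))}
    (he : e < w) (he' : e' < w) (h : π ∈ Cell w i e a v) (h' : π ∈ Cell w i e' a' v') :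
    e = e' ∧ a = a' ∧ v = v' := by
  have g := cell_vals h
  have g' := cell_vals h'
  have hv : v = v' := by
    have g1 := g 12
    have g1' := g' 12
    simp [Qp, Wd, Of] at g1 g1'
    omega
  have he0 : e = e' := by
    have g1 := g 14
    have g1' := g' 14
    simp [Qp, Wd, Of] at g1 g1'
    have := pv_inj π (10 * w + e) (10 * w + e') (by omega) (by omega) (by omega)
    omega
  refine ⟨he0, ?_, hv⟩
  funext k
  have g1 := g (idx k)
  have g1' := g' (idx k)
  rw [Of_idx] at g1 g1'
  rw [Qp_idx (21 * w) i (10 * w + e') (10 * w + e) k, g1] at g1'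
  omega

def Gs (w i : ℕ) : Finset (Equiv.Perm (Fin (21 * w))) :=
  (Finset.univ : Finset (Fin w × (Fin 20 → Fin w) × Fin (w - 2))).biUnion
    (fun j => Cell w i j.1 (fun k => (j.2.1 k : ℕ)) j.2.2)

theorem Gs_card (w i : ℕ) (hw : 4 ≤ w) (h1 : 11 ≤ i) (h2 : i + 2 < 10 * w) :
    (Gs w i).card = w * (w ^ 20 * (w - 2)) * (21 * w - 23)! := by
  classical
  unfold Gs
  rw [Finset.card_biUnion]
  · rw [Finset.sum_congr rfl (fun j _ => cell_card w i j.1 _ j.2.2 hw h1 h2 j.1.2
      (fun k => (j.2.1 k).2) (by have := j.2.2.2; omega))]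
    rw [Finset.sum_const, Finset.card_univ, Fintype.card_prod, Fintype.card_prod, Fintype.card_fin,
      Fintype.card_fun, Fintype.card_fin, Fintype.card_fin, Fintype.card_fin, smul_eq_mul]
  · intro j _ j' _ hne
    rw [Function.onFun, Finset.disjoint_left]
    intro π h h'
    apply hne
    obtain ⟨r1, r2, r3⟩ := cell_disj j.1.2 j'.1.2 h h'
    refine Prod.ext (Fin.ext r1) (Prod.ext ?_ (Fin.ext r3))
    funext k
    exact Fin.ext (congrFun r2 k)

theorem Gs_hyp {w i : ℕ} (hw : 4 ≤ w) (h1 : 11 ≤ i) (h2 : i + 2 < 10 * w)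
    {π : Equiv.Perm (Fin (21 * w))} (h : π ∈ Gs w i) : ∃ d, Hyp (21 * w) i d (pv π) := by
  unfold Gs at h
  rw [Finset.mem_biUnion] at h
  obtain ⟨j, _, hj⟩ := h
  exact ⟨_, cell_hyp hw h1 h2 j.1.2 (fun k => (j.2.1 k).2) (by have := j.2.2.2; omega) hj⟩

theorem Gs_inter (w i k : ℕ) (hw : 4 ≤ w) (h1 : 11 ≤ i) (hik : i + 1 < k) (h2 : k + 2 < 10 * w) :
    (Gs w i ∩ Gs w k).card ≤ (21 * w) * (21 * w) * (21 * w - 4)! := by
  classical
  refine le_trans (Finset.card_le_card ?_) (card_two_bonds (n := 21 * w) i k hik (by omega))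
  intro π hπ
  rw [Finset.mem_inter] at hπ
  obtain ⟨d1, H1⟩ := Gs_hyp hw h1 (by omega) hπ.1
  obtain ⟨d2, H2⟩ := Gs_hyp hw (by omega) h2 hπ.2
  rw [Finset.mem_filter]
  refine ⟨Finset.mem_univ _, ?_, ?_⟩
  · have := H1.bond
    simpa [pv, show i < 21 * w by omega, show i + 1 < 21 * w by omega] using this
  · have := H2.bond
    simpa [pv, show k < 21 * w by omega, show k + 1 < 21 * w by omega] using this

/-- The good permutations: a union over many bond positions. -/
def Good (w M : ℕ) : Finset (Equiv.Perm (Fin (21 * w))) :=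
  (Finset.range M).biUnion (fun t => Gs w (12 + 2 * t))

theorem Good_hyp {w M : ℕ} (hw : 4 ≤ w) (hM : M ≤ w) {π : Equiv.Perm (Fin (21 * w))}
    (h : π ∈ Good w M) : ∃ i d, Hyp (21 * w) i d (pv π) := by
  unfold Good at h
  rw [Finset.mem_biUnion] at h
  obtain ⟨t, ht, hj⟩ := h
  rw [Finset.mem_range] at ht
  exact ⟨_, Gs_hyp hw (by omega) (by omega) hj⟩

theorem Good_card (w M : ℕ) (hw : 4 ≤ w) (hM : M ≤ w) :
    (M : ℝ) * ((w : ℝ) ^ 21 * ((w : ℝ) - 2) * ((21 * w - 23)! : ℕ)) -
      ((21 * w : ℝ) ^ 2 * ((21 * w - 4)! : ℕ)) * (M : ℝ) ^ 2 ≤ ((Good w M).card : ℝ) := by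
  classical
  unfold Good
  apply bonf
  · positivity
  · intro t ht
    rw [Gs_card w _ hw (by omega) (by omega)]
    push_cast [Nat.cast_sub (show 2 ≤ w by omega)]
    apply le_of_eq
    ring
  · intro s t hst ht
    have := Gs_inter w (12 + 2 * s) (12 + 2 * t) hw (by omega) (by omega) (by omega)
    have h2 : ((Gs w (12 + 2 * s) ∩ Gs w (12 + 2 * t)).card : ℝ) ≤
        (((21 * w) * (21 * w) * (21 * w - 4)! : ℕ) : ℝ) := by exact_mod_cast this
    refine le_trans h2 ?_
    push_cast
    apply le_of_eq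
    ring

end PartF

section PartG

open Nat

theorem numeric (K w M F a b : ℝ) (hK : 0 < K) (hw : 4 ≤ w) (hM : M * K = w) (_hF : 0 < F)
    (ha0 : 0 ≤ a) (ha : F ≤ a * (K * w ^ 23)) (hb0 : 0 ≤ b) (hb : b * (21 * w - 3) ^ 4 ≤ F) :
    F / (4 * K ^ 2) ≤ M * (w ^ 21 * (w - 2) * a) - ((21 * w) ^ 2 * b) * M ^ 2 := by
  have hM' : M = w / K := by field_simp; exact hM
  have hw0 : 0 < w := by linarith
  have h1 : F / (2 * K ^ 2) ≤ M * (w ^ 21 * (w - 2) * a) := by
    have e1 : F / K ≤ a * w ^ 23 := by
      rw [div_le_iff₀ hK]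
      calc F ≤ a * (K * w ^ 23) := ha
        _ = a * w ^ 23 * K := by ring
    have e2 : M * (w ^ 21 * (w / 2) * a) ≤ M * (w ^ 21 * (w - 2) * a) := by
      have hM0 : 0 ≤ M := by rw [hM']; positivity
      apply mul_le_mul_of_nonneg_left _ hM0
      apply mul_le_mul_of_nonneg_right _ ha0
      apply mul_le_mul_of_nonneg_left _ (by positivity)
      linarith
    refine le_trans ?_ e2
    rw [hM']
    have e3 : w / K * (w ^ 21 * (w / 2) * a) = (a * w ^ 23) / (2 * K) := by
      field_simp
    rw [e3]
    calc F / (2 * K ^ 2) = (F / K) / (2 * K) := by field_simp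
      _ ≤ (a * w ^ 23) / (2 * K) := by gcongr
  have h2 : ((21 * w) ^ 2 * b) * M ^ 2 ≤ F / (4 * K ^ 2) := by
    have e1 : b * (10 * w) ^ 4 ≤ F := by
      refine le_trans ?_ hb
      apply mul_le_mul_of_nonneg_left _ hb0
      gcongr
      linarith
    rw [hM']
    have e2 : (21 * w) ^ 2 * b * (w / K) ^ 2 = (441 / 10000) * (b * (10 * w) ^ 4) / K ^ 2 := by
      field_simp
      ring
    rw [e2]
    rw [div_le_div_iff₀ (by positivity) (by positivity)]
    nlinarith [sq_nonneg K, mul_nonneg hb0 (by positivity : (0:ℝ) ≤ (10 * w) ^ 4), pow_pos hK 2]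
  have h3 : F / (2 * K ^ 2) = F / (4 * K ^ 2) + F / (4 * K ^ 2) := by
    field_simp
    ring
  linarith

theorem good_large (M : ℕ) (hM : 1 ≤ M) :
    (((21 * (21 ^ 23 * M))! : ℕ) : ℝ) / (4 * ((21 : ℝ) ^ 23) ^ 2) ≤ ((Good (21 ^ 23 * M) M).card : ℝ) := by
  have hbig : 4 ≤ 21 ^ 23 * M := by
    calc 4 ≤ 21 ^ 23 * 1 := by norm_num
      _ ≤ 21 ^ 23 * M := Nat.mul_le_mul_left _ hM
  have hMw : M ≤ 21 ^ 23 * M := Nat.le_mul_of_pos_left M (by norm_num)
  have hgc := Good_card (21 ^ 23 * M) M hbig hMw
  refine le_trans ?_ hgc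
  obtain ⟨w, hw⟩ : ∃ w, w = 21 ^ 23 * M := ⟨_, rfl⟩
  rw [← hw] at hbig ⊢
  have hwR : (M : ℝ) * (21 : ℝ) ^ 23 = (w : ℝ) := by
    rw [hw]; push_cast; ring
  have hw4 : (4 : ℝ) ≤ (w : ℝ) := by exact_mod_cast hbig
  apply numeric ((21 : ℝ) ^ 23) (w : ℝ) (M : ℝ) _ _ _ (by positivity) hw4 hwR
  · exact_mod_cast Nat.factorial_pos _
  · exact Nat.cast_nonneg _
  · have h1 := Nat.factorial_mul_descFactorial (show 23 ≤ 21 * w by omega)
    have h2 := Nat.descFactorial_le_pow (21 * w) 23
    have h3 : (21 * w)! ≤ (21 * w - 23)! * (21 * w) ^ 23 := by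
      rw [← h1]
      exact Nat.mul_le_mul_left _ h2
    have h4 : (((21 * w)! : ℕ) : ℝ) ≤ (((21 * w - 23)! * (21 * w) ^ 23 : ℕ) : ℝ) := by
      exact_mod_cast h3
    refine le_trans h4 (le_of_eq ?_)
    push_cast
    ring
  · exact Nat.cast_nonneg _
  · have h1 := Nat.factorial_mul_descFactorial (show 4 ≤ 21 * w by omega)
    have h2 := Nat.pow_sub_le_descFactorial (21 * w) 4
    have h3 : (21 * w - 4)! * (21 * w + 1 - 4) ^ 4 ≤ (21 * w)! := by
      rw [← h1]
      exact Nat.mul_le_mul_left _ h2
    have h4 : (((21 * w - 4)! * (21 * w + 1 - 4) ^ 4 : ℕ) : ℝ) ≤ (((21 * w)! : ℕ) : ℝ) := by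
      exact_mod_cast h3
    refine le_trans (le_of_eq ?_) h4
    have h5 : 21 * w + 1 - 4 = 21 * w - 3 := by omega
    rw [h5]
    push_cast [Nat.cast_sub (show 3 ≤ 21 * w by omega)]
    ring

end PartG

theorem ratio_bound (n : ℕ) (G : Finset (Equiv.Perm (Fin n))) (U : Set (Equiv.Perm (Fin n)))
    (hU : ∀ π ∈ G, π ∉ U) (c : ℝ) (hG : c * (n.factorial : ℝ) ≤ (G.card : ℝ)) :
    (U.ncard : ℝ) / (n.factorial : ℝ) ≤ 1 - c := by
  have hFpos : (0 : ℝ) < (n.factorial : ℝ) := by exact_mod_cast Nat.factorial_pos n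
  rw [div_le_iff₀ hFpos]
  refine le_trans (Nat.cast_le.2 (Set.ncard_le_ncard (t := ((Gᶜ : Finset (Equiv.Perm (Fin n))) :
    Set (Equiv.Perm (Fin n)))) ?_ (Set.toFinite _))) ?_
  · intro π hπ
    rw [Finset.mem_coe, Finset.mem_compl]
    intro hmem
    exact hU π hmem hπ
  · rw [Set.ncard_coe_finset, Finset.card_compl, Fintype.card_perm, Fintype.card_fin,
      Nat.cast_sub (by
        have := Finset.card_le_univ G
        rwa [Fintype.card_perm, Fintype.card_fin] at this)]
    linarith

/-- The negation of the preceding statement: The fraction of permutations π of size n whose avoidance class Av(π) cannot be covered by merges of two proper subclasses (i.e. is unsplittable) tends to 1 as n tends to infinity. -/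
theorem result :
    ¬ (Filter.Tendsto (fun n : ℕ =>
    (({π : Equiv.Perm (Fin n) | ¬ ∃ A B : (k : ℕ) → Equiv.Perm (Fin k) → Prop,
        (∀ (k m : ℕ) (σ : Equiv.Perm (Fin k)) (τ : Equiv.Perm (Fin m)),
          (∃ f : Fin k ↪o Fin m, ∀ i j, σ i < σ j ↔ τ (f i) < τ (f j)) → A m τ → A k σ) ∧
        (∀ (k m : ℕ) (σ : Equiv.Perm (Fin k)) (τ : Equiv.Perm (Fin m)),
          (∃ f : Fin k ↪o Fin m, ∀ i j, σ i < σ j ↔ τ (f i) < τ (f j)) → B m τ → B k σ) ∧
        (∀ (m : ℕ) (τ : Equiv.Perm (Fin m)), A m τ →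
          ¬ ∃ f : Fin n ↪o Fin m, ∀ i j, π i < π j ↔ τ (f i) < τ (f j)) ∧
        (∀ (m : ℕ) (τ : Equiv.Perm (Fin m)), B m τ →
          ¬ ∃ f : Fin n ↪o Fin m, ∀ i j, π i < π j ↔ τ (f i) < τ (f j)) ∧
        (∃ (m : ℕ) (τ : Equiv.Perm (Fin m)),
          (¬ ∃ f : Fin n ↪o Fin m, ∀ i j, π i < π j ↔ τ (f i) < τ (f j)) ∧ ¬ A m τ) ∧
        (∃ (m : ℕ) (τ : Equiv.Perm (Fin m)),
          (¬ ∃ f : Fin n ↪o Fin m, ∀ i j, π i < π j ↔ τ (f i) < τ (f j)) ∧ ¬ B m τ) ∧
        (∀ (m : ℕ) (τ : Equiv.Perm (Fin m)),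
          (¬ ∃ f : Fin n ↪o Fin m, ∀ i j, π i < π j ↔ τ (f i) < τ (f j)) →
          ∃ S : Set (Fin m),
            (∀ (k : ℕ) (σ : Equiv.Perm (Fin k)) (f : Fin k ↪o Fin m),
              (∀ i, f i ∈ S) → (∀ i j, σ i < σ j ↔ τ (f i) < τ (f j)) → A k σ) ∧
            (∀ (k : ℕ) (σ : Equiv.Perm (Fin k)) (f : Fin k ↪o Fin m),
              (∀ i, f i ∉ S) → (∀ i j, σ i < σ j ↔ τ (f i) < τ (f j)) → B k σ))}
      : Set (Equiv.Perm (Fin n))).ncard : ℝ) / (n.factorial : ℝ))
    Filter.atTop (nhds 1)) := by
  intro h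
  have hc : (0 : ℝ) < 1 / (4 * ((21 : ℝ) ^ 23) ^ 2) := by positivity
  have hev := h.eventually (lt_mem_nhds (show (1 : ℝ) - 1 / (4 * ((21 : ℝ) ^ 23) ^ 2) < 1 by linarith))
  rw [Filter.eventually_atTop] at hev
  obtain ⟨N, hN⟩ := hev
  have hM1 : 1 ≤ N + 1 := by omega
  have hbig : 4 ≤ 21 ^ 23 * (N + 1) := by
    calc 4 ≤ 21 ^ 23 * 1 := by norm_num
      _ ≤ 21 ^ 23 * (N + 1) := Nat.mul_le_mul_left _ hM1
  have hge : N ≤ 21 * (21 ^ 23 * (N + 1)) := by
    have h1 : N + 1 ≤ 21 ^ 23 * (N + 1) := Nat.le_mul_of_pos_left _ (by norm_num)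
    omega
  have h1 := hN _ hge
  have hgood := good_large (N + 1) hM1
  have hMw : N + 1 ≤ 21 ^ 23 * (N + 1) := Nat.le_mul_of_pos_left _ (by norm_num)
  refine absurd h1 (not_lt.2 ?_)
  apply ratio_bound _ (Good (21 ^ 23 * (N + 1)) (N + 1))
  · intro π hπ hU
    obtain ⟨i, d, H⟩ := Good_hyp hbig hMw hπ
    exact hU (splittable π i d H)
  · refine le_trans (le_of_eq ?_) hgood
    ring

end Pool.Agent.S07416
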