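import Pool.Statements.S00013
import Pool.Agent.Helper246.ASFinal

set_option autoImplicit false
open Pool Pool.MP_179273_ag

namespace Pool.Agent.S00013

/-- For every prime p, algebraically closed k of char p, and extension G of (Z/p)^n by Z/p, some f over F_p gives an irreducible curve W^p-W=f whose automorphism group has a Sylow p-subgroup isomorphic to G, with the kernel mapped onto the Artin-Schreier group. -/
theorem result :
    ∀ (p : ℕ) [Fact p.Prime] (k : Type) [Field k] [IsAlgClosed k] [CharP k p]
      (n : ℕ) (G : Type) [Group G] (N : Subgroup G) [N.Normal],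
      Nonempty (N ≃* Multiplicative (ZMod p)) →
      Nonempty (G ⧸ N ≃* Multiplicative (Fin n → ZMod p)) →
      ∃ f : Polynomial (ZMod p),
        Irreducible ((Polynomial.X ^ p - Polynomial.X - Polynomial.C
          (algebraMap (Polynomial k) (RatFunc k)
            (Polynomial.map (ZMod.castHom (dvd_refl p) k) f)) : Polynomial (RatFunc k))) ∧
        ∃ P : Sylow p
            (AdjoinRoot ((Polynomial.X ^ p - Polynomial.X - Polynomial.C
              (algebraMap (Polynomial k) (RatFunc k)
                (Polynomial.map (ZMod.castHom (dvd_refl p) k) f)) : Polynomial (RatFunc k)))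
              ≃ₐ[k]
             AdjoinRoot ((Polynomial.X ^ p - Polynomial.X - Polynomial.C
              (algebraMap (Polynomial k) (RatFunc k)
                (Polynomial.map (ZMod.castHom (dvd_refl p) k) f)) : Polynomial (RatFunc k)))),
          ∃ e : G ≃* (P : Subgroup
              (AdjoinRoot ((Polynomial.X ^ p - Polynomial.X - Polynomial.C
                (algebraMap (Polynomial k) (RatFunc k)
                  (Polynomial.map (ZMod.castHom (dvd_refl p) k) f)) : Polynomial (RatFunc k)))
                ≃ₐ[k]
               AdjoinRoot ((Polynomial.X ^ p - Polynomial.X - Polynomial.C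
                (algebraMap (Polynomial k) (RatFunc k)
                  (Polynomial.map (ZMod.castHom (dvd_refl p) k) f)) : Polynomial (RatFunc k))))),
            ∀ g : G, g ∈ N ↔
              ∀ r : RatFunc k,
                (e g).1 (AdjoinRoot.of ((Polynomial.X ^ p - Polynomial.X - Polynomial.C
                  (algebraMap (Polynomial k) (RatFunc k)
                    (Polynomial.map (ZMod.castHom (dvd_refl p) k) f)) : Polynomial (RatFunc k))) r)
                = AdjoinRoot.of ((Polynomial.X ^ p - Polynomial.X - Polynomial.C
                  (algebraMap (Polynomial k) (RatFunc k)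
                    (Polynomial.map (ZMod.castHom (dvd_refl p) k) f)) : Polynomial (RatFunc k))) r := by
  intro p _ k _ _ _ n G _ N _ h1 h2
  obtain ⟨e1⟩ := h1
  obtain ⟨e2⟩ := h2
  exact Pool.Agent.Helper246.AS.final p k N
    { π := fun g => Multiplicative.toAdd (e2 (QuotientGroup.mk g))
      hπ := fun g h => by rw [QuotientGroup.mk_mul, map_mul, toAdd_mul]
      hN := fun g => by
        rw [← QuotientGroup.eq_one_iff]
        constructor
        · intro h
          have h3 : e2 (QuotientGroup.mk g) = 1 := Multiplicative.toAdd.injective h
          exact (map_eq_one_iff e2 e2.injective).mp h3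
        · intro h
          rw [h, map_one, toAdd_one]
      hs := by
        intro x
        obtain ⟨g, hg⟩ := QuotientGroup.mk_surjective (e2.symm (Multiplicative.ofAdd x))
        refine ⟨g, ?_⟩
        change Multiplicative.toAdd (e2 (QuotientGroup.mk g)) = x
        rw [hg]; simp
      i := fun a => Multiplicative.toAdd (e1 a)
      hi := fun a b => by rw [map_mul, toAdd_mul]
      hib := ⟨fun a b h => e1.injective (Multiplicative.toAdd.injective h), fun c =>
        ⟨e1.symm (Multiplicative.ofAdd c), by simp⟩⟩ }

end Pool.Agent.S00013
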