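import Pool.Statements.S00024
import Pool.Agent.Helper881.FieldGen

set_option autoImplicit false
open Pool Pool.MP_1fa985_ag

namespace Pool.Agent.S00024

/-- The negation of the preceding statement: For every irreducible p in C[x,y] whose zero curve is smooth and rational, there is a polynomial q and a rational function g with C(pq, g) = C(x,y), i.e. p divides a field generator. -/
theorem result :
    ¬ (∀ p : MvPolynomial (Fin 2) ℂ, Irreducible p →
      (∀ v : Fin 2 → ℂ, MvPolynomial.eval v p = 0 →
        MvPolynomial.eval v (MvPolynomial.pderiv 0 p) ≠ 0 ∨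
          MvPolynomial.eval v (MvPolynomial.pderiv 1 p) ≠ 0) →
      Nonempty (FractionRing (MvPolynomial (Fin 2) ℂ ⧸ Ideal.span {p}) ≃ₐ[ℂ] RatFunc ℂ) →
      ∃ q : MvPolynomial (Fin 2) ℂ, ∃ g : FractionRing (MvPolynomial (Fin 2) ℂ),
        IntermediateField.adjoin ℂ
          ({algebraMap (MvPolynomial (Fin 2) ℂ) (FractionRing (MvPolynomial (Fin 2) ℂ)) (p * q), g} :
            Set (FractionRing (MvPolynomial (Fin 2) ℂ))) = ⊤) := by
  intro h
  obtain ⟨q, g, hadj⟩ := h Pool.Agent.Helper881.FieldGen.p
    Pool.Agent.Helper881.FieldGen.p_irreducible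
    (fun v hv => Pool.Agent.Helper881.FieldGen.smooth v hv)
    Pool.Agent.Helper881.FieldGen.rational
  exact Pool.Agent.Helper881.FieldGen.main q g hadj

end Pool.Agent.S00024
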