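import Pool.Statements.S00049
import Pool.Agent.Helper214.Final
-- import your own Pool.Agent.* helpers here

set_option autoImplicit false
open Pool Pool.MP_426531_ag

namespace Pool.Agent.S00049

/-- For every n ≥ 2 and primitive nth root ζ, the algebra C(u,v)<x,y>/(x^n=u, y^n=v, xy=ζyx) contains, as a C-subalgebra, a field of transcendence degree 1 over C that is not isomorphic to C(t). -/
theorem result :
    ∀ (n : ℕ), 2 ≤ n → ∀ ζ : ℂ, IsPrimitiveRoot ζ n →
      ∃ (K : Type) (_ : Field K) (_ : Algebra ℂ K)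
        (f : K →ₐ[ℂ] RingQuot
          (fun a b : FreeAlgebra (FractionRing (MvPolynomial (Fin 2) ℂ)) (Fin 2) =>
            (a = FreeAlgebra.ι (FractionRing (MvPolynomial (Fin 2) ℂ)) (0 : Fin 2) ^ n ∧
              b = algebraMap (FractionRing (MvPolynomial (Fin 2) ℂ))
                (FreeAlgebra (FractionRing (MvPolynomial (Fin 2) ℂ)) (Fin 2))
                (algebraMap (MvPolynomial (Fin 2) ℂ) (FractionRing (MvPolynomial (Fin 2) ℂ))
                  (MvPolynomial.X (0 : Fin 2)))) ∨
            (a = FreeAlgebra.ι (FractionRing (MvPolynomial (Fin 2) ℂ)) (1 : Fin 2) ^ n ∧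
              b = algebraMap (FractionRing (MvPolynomial (Fin 2) ℂ))
                (FreeAlgebra (FractionRing (MvPolynomial (Fin 2) ℂ)) (Fin 2))
                (algebraMap (MvPolynomial (Fin 2) ℂ) (FractionRing (MvPolynomial (Fin 2) ℂ))
                  (MvPolynomial.X (1 : Fin 2)))) ∨
            (a = FreeAlgebra.ι (FractionRing (MvPolynomial (Fin 2) ℂ)) (0 : Fin 2) *
                  FreeAlgebra.ι (FractionRing (MvPolynomial (Fin 2) ℂ)) (1 : Fin 2) ∧
              b = algebraMap ℂ (FreeAlgebra (FractionRing (MvPolynomial (Fin 2) ℂ)) (Fin 2)) ζ *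
                  (FreeAlgebra.ι (FractionRing (MvPolynomial (Fin 2) ℂ)) (1 : Fin 2) *
                    FreeAlgebra.ι (FractionRing (MvPolynomial (Fin 2) ℂ)) (0 : Fin 2))))),
        Function.Injective f ∧
          (∃ t : K, IsTranscendenceBasis ℂ (fun _ : Fin 1 => t)) ∧
          ¬ Nonempty (K ≃ₐ[ℂ] RatFunc ℂ) := by
  intro n hn ζ hp
  exact Pool.Agent.Helper214.QTorus.main n hn ζ hp

end Pool.Agent.S00049
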