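import Pool.Statements.S00088
import Pool.Agent.Helper413.Gor.Vanish

set_option autoImplicit false
open Pool Pool.MP_845d9e_ag

namespace Pool.Agent.S00088

/-- The negation of the preceding statement: Over an algebraically closed char-0 field, for any finite point set in P^n whose Artinian reduction by a general linear form has 1-dim socle (arithmetically Gorenstein), the h-vector (Hilbert function of that reduction) rises then falls. -/
theorem result :
    ¬ (∀ (K : Type) [Field K] [CharZero K] [IsAlgClosed K] (n : ℕ)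
    (X : Finset (Fin (n+1) → K)) (c : Fin (n+1) → K)
    (I J : Ideal (MvPolynomial (Fin (n+1)) K))
    (H M : ℕ → Submodule K (MvPolynomial (Fin (n+1)) K)) (h : ℕ → ℕ),
    X.Nonempty →
    (∀ p ∈ X, p ≠ 0) →
    (∀ p ∈ X, ∑ j, c j * p j ≠ 0) →
    (∀ f : MvPolynomial (Fin (n+1)) K,
        f ∈ I ↔ ∀ p ∈ X, ∀ t : K, MvPolynomial.eval (t • p) f = 0) →
    J = I ⊔ Ideal.span
          ({∑ j, MvPolynomial.C (c j) * MvPolynomial.X j} :
            Set (MvPolynomial (Fin (n+1)) K)) →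
    (∃ g : MvPolynomial (Fin (n+1)) K, g ∉ J ∧ (∀ j, MvPolynomial.X j * g ∈ J) ∧
        ∀ f : MvPolynomial (Fin (n+1)) K, (∀ j, MvPolynomial.X j * f ∈ J) →
          ∃ a : K, f - MvPolynomial.C a * g ∈ J) →
    (∀ i (f : MvPolynomial (Fin (n+1)) K), f ∈ H i ↔ f.IsHomogeneous i) →
    (∀ i (f : MvPolynomial (Fin (n+1)) K), f ∈ M i ↔ (f.IsHomogeneous i ∧ f ∈ J)) →
    (∀ i, h i = Module.finrank K ↥(H i) - Module.finrank K ↥(M i)) →
    ∃ m : ℕ, (∀ i j, i ≤ j → j ≤ m → h i ≤ h j) ∧ (∀ i j, m ≤ i → i ≤ j → h j ≤ h i)) := by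
  intro hall
  obtain ⟨j₀, hj₀⟩ := H413Gor.theData.hzero
  obtain ⟨m, hm1, hm2⟩ := hall ℂ 93 (H413Gor.ptSet H413Gor.ee) (Pi.single j₀ 1)
    (H413Gor.I₀ H413Gor.ee) (H413Gor.J₀ H413Gor.ee (Pi.single j₀ 1))
    (fun i => MvPolynomial.homogeneousSubmodule (Fin (93 + 1)) ℂ i)
    (fun i => MvPolynomial.homogeneousSubmodule (Fin (93 + 1)) ℂ i ⊓
      (H413Gor.J₀ H413Gor.ee (Pi.single j₀ 1)).restrictScalars ℂ)
    (fun i => Module.finrank ℂ (MvPolynomial.homogeneousSubmodule (Fin (93 + 1)) ℂ i) -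
      Module.finrank ℂ ↥(MvPolynomial.homogeneousSubmodule (Fin (93 + 1)) ℂ i ⊓
        (H413Gor.J₀ H413Gor.ee (Pi.single j₀ 1)).restrictScalars ℂ))
    H413Gor.ptSet_nonempty
    (H413Gor.pt_ne_zero hj₀)
    (by
      intro p hp
      obtain ⟨ψ, rfl⟩ := (H413Gor.mem_ptSet p).mp hp
      have h := H413Gor.special_ne_zero (e := H413Gor.ee) hj₀ ψ
      rw [H413Gor.E_apply] at h
      simpa [H413Gor.lin] using h)
    H413Gor.mem_I₀_iff_eval
    rfl
    (H413Gor.socle H413Gor.theData hj₀)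
    (fun i f => Iff.rfl)
    (fun i f => by
      rw [Submodule.mem_inf]
      exact Iff.rfl)
    (fun i => rfl)
  have key : ∀ i, Module.finrank ℂ (MvPolynomial.homogeneousSubmodule (Fin (93 + 1)) ℂ i) -
      Module.finrank ℂ ↥(MvPolynomial.homogeneousSubmodule (Fin (93 + 1)) ℂ i ⊓
        (H413Gor.J₀ H413Gor.ee (Pi.single j₀ 1)).restrictScalars ℂ) =
      (Finset.univ.filter (fun g => H413Gor.dg g = i)).card := by
    intro i
    rw [← H413Gor.finrank_A H413Gor.theData (Pi.single j₀ 1)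
      (H413Gor.special_ne_zero (e := H413Gor.ee) hj₀) i,
      H413Gor.finrank_A_add (e := H413Gor.ee) (Pi.single j₀ 1) i
        (MvPolynomial.homogeneousSubmodule (Fin (93 + 1)) ℂ i)
        (MvPolynomial.homogeneousSubmodule (Fin (93 + 1)) ℂ i ⊓
          (H413Gor.J₀ H413Gor.ee (Pi.single j₀ 1)).restrictScalars ℂ)
        (fun f => Iff.rfl) (fun f => by
          rw [Submodule.mem_inf]
          exact Iff.rfl)]
    omega
  simp only [key] at hm1 hm2
  rcases Nat.lt_or_ge m 3 with h | h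
  · have h1 := hm2 3 4 (by omega) (by omega)
    rw [H413Gor.card3, H413Gor.card4] at h1
    omega
  · have h1 := hm1 2 3 (by omega) h
    rw [H413Gor.card3, H413Gor.card2] at h1
    omega

end Pool.Agent.S00088
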