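import Pool.Statements.S00092
import Pool.Agent.Helper641.Contract

set_option autoImplicit false
open Pool Pool.MP_89b417_ag

namespace Pool.Agent.S00092

/-- The negation of the preceding statement: For an irreducible complex polynomial p in n variables whose zero set is contractible, there is a finite set S such that for all c, d outside S the coordinate rings C[x]/(p-c) and C[x]/(p-d) are isomorphic C-algebras. -/
theorem result :
    ¬ (∀ (n : ℕ) (p : MvPolynomial (Fin n) ℂ), Irreducible p →
      ContractibleSpace ↥({x : Fin n → ℂ | MvPolynomial.eval x p = 0} : Set (Fin n → ℂ)) →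
      ∃ S : Finset ℂ, ∀ c d : ℂ, c ∉ S → d ∉ S →
        Nonempty ((MvPolynomial (Fin n) ℂ ⧸ Ideal.span {p - MvPolynomial.C c}) ≃ₐ[ℂ]
          (MvPolynomial (Fin n) ℂ ⧸ Ideal.span {p - MvPolynomial.C d}))) := by
  intro H
  obtain ⟨S, hS⟩ := H 3 Pool.Agent.Helper641.Fibres.pp Pool.Agent.Helper641.Contract.pp_irreducible
    (inferInstanceAs (ContractibleSpace Pool.Agent.Helper641.Contract.X0))
  obtain ⟨c, hc⟩ := Infinite.exists_notMem_finset (insert 0 S)
  obtain ⟨d, hd⟩ := Infinite.exists_notMem_finset (insert c (insert 0 S))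
  simp only [Finset.mem_insert, not_or] at hc hd
  obtain ⟨Φ⟩ := hS c d hc.2 hd.2.2
  exact hd.1 (Pool.Agent.Helper641.NonIso.noniso hd.2.1 hc.1 Φ)

end Pool.Agent.S00092
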