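import Pool.Statements.S00096

set_option autoImplicit false
open Pool Pool.MP_8e46bf_ag

/-!
The representation fails for n = 7. If it held, the weighted sum of squares would satisfy a
Cauchy-Schwarz inequality: whenever real configurations x0, x1, x2 satisfy
(x0 i - x0 j)^2 ≤ |x1 i - x1 j| |x2 i - x2 j| for all i, j, then D(x0)^2 ≤ D(x1) D(x2).
This is violated by the configurations (-1, 0, 0, 81, 81, 82, g) with g = -279, 31, -2511.
-/

namespace Pool.Agent.S00096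

open Polynomial

lemma exists_four_roots (p : ℂ[X]) (hp : p.natDegree = 4) (hl : p.leadingCoeff = 7) :
    ∃ s0 s1 s2 s3 : ℂ, p = C 7 * ((X - C s0) * (X - C s1) * (X - C s2) * (X - C s3)) := by
  have hsp : p.Splits := IsAlgClosed.splits p
  have hcard : p.roots.card = 4 := by
    rw [← hp]; exact (Polynomial.splits_iff_card_roots.mp hsp)
  have hprod := Polynomial.C_leadingCoeff_mul_prod_multiset_X_sub_C (p := p) (by rw [hcard, hp])
  rw [hl] at hprod
  obtain ⟨l, hl'⟩ : ∃ l : List ℂ, p.roots = ↑l := ⟨p.roots.toList, by simp⟩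
  rw [hl'] at hcard hprod
  match l, hcard with
  | [a, b, c, d], _ =>
    refine ⟨a, b, c, d, ?_⟩
    rw [← hprod]
    simp
    ring

/-- Discriminant of a monic quartic in terms of its elementary symmetric functions. -/
lemma disc4 (a b c d e1 e2 e3 e4 : ℂ) (h1 : a + b + c + d = e1)
    (h2 : a*b + a*c + a*d + b*c + b*d + c*d = e2)
    (h3 : a*b*c + a*b*d + a*c*d + b*c*d = e3) (h4 : a*b*c*d = e4) :
    (a-b)^2*(a-c)^2*(a-d)^2*(b-c)^2*(b-d)^2*(c-d)^2 =
      256*e4^3 - 192*e1*e3*e4^2 - 128*e2^2*e4^2 + 144*e2*e3^2*e4 - 27*e3^4 + 144*e1^2*e2*e4^2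
      - 6*e1^2*e3^2*e4 - 80*e1*e2^2*e3*e4 + 18*e1*e2*e3^3 + 16*e2^4*e4 - 4*e2^3*e3^2
      - 27*e1^4*e4^2 + 18*e1^3*e2*e3*e4 - 4*e1^3*e3^3 - 4*e1^2*e2^3*e4 + e1^2*e2^2*e3^2 := by
  subst h1 h2 h3 h4
  ring

lemma prodIoi (f : Fin (7 - 1) → Fin (7 - 1) → ℂ) :
    ∏ a : Fin (7 - 1), ∏ b ∈ Finset.Ioi a, f a b =
      f 0 1 * f 0 2 * f 0 3 * f 0 4 * f 0 5 * (f 1 2 * f 1 3 * f 1 4 * f 1 5)
      * (f 2 3 * f 2 4 * f 2 5) * (f 3 4 * f 3 5) * f 4 5 := by
  have h0 : Finset.Ioi (0 : Fin 6) = {1, 2, 3, 4, 5} := by decide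
  have h1 : Finset.Ioi (1 : Fin 6) = {2, 3, 4, 5} := by decide
  have h2 : Finset.Ioi (2 : Fin 6) = {3, 4, 5} := by decide
  have h3 : Finset.Ioi (3 : Fin 6) = {4, 5} := by decide
  have h4 : Finset.Ioi (4 : Fin 6) = {5} := by decide
  have h5 : Finset.Ioi (5 : Fin 6) = ∅ := by decide
  show ∏ a : Fin 6, ∏ b ∈ Finset.Ioi a, f a b = _
  rw [Fin.prod_univ_six, h0, h1, h2, h3, h4, h5]
  rw [Finset.prod_insert (by decide), Finset.prod_insert (by decide),
    Finset.prod_insert (by decide), Finset.prod_insert (by decide), Finset.prod_singleton,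
    Finset.prod_insert (by decide), Finset.prod_insert (by decide),
    Finset.prod_insert (by decide), Finset.prod_singleton,
    Finset.prod_insert (by decide), Finset.prod_insert (by decide), Finset.prod_singleton,
    Finset.prod_insert (by decide), Finset.prod_singleton, Finset.prod_singleton,
    Finset.prod_empty]
  ring

/-- The discriminant value of the seven-point configuration `z`, provided the derivative of
`∏ (X - z i)` is `X (X - 81) (7 X^4 + a3 X^3 + a2 X^2 + a1 X + a0)`. -/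
lemma value (z : Fin 7 → ℂ) (a3 a2 a1 a0 S : ℂ)
    (hder : derivative (∏ i : Fin 7, (X - C (z i))) =
      (X - C 0) * (X - C 81) * (C 7 * X ^ 4 + C a3 * X ^ 3 + C a2 * X ^ 2 + C a1 * X + C a0))
    (H : ∀ r : Fin (7 - 1) → ℂ,
      derivative (∏ i : Fin 7, (X - C (z i))) =
          C ((7 : ℕ) : ℂ) * ∏ j : Fin (7 - 1), (X - C (r j)) →
        ((7 : ℕ) : ℂ) ^ (2 * 7 - 4) * ∏ a : Fin (7 - 1), ∏ b ∈ Finset.Ioi a, (r a - r b) ^ 2 = S) :
    ∃ e1 e2 e3 e4 : ℂ, 7 * e1 = - a3 ∧ 7 * e2 = a2 ∧ 7 * e3 = - a1 ∧ 7 * e4 = a0 ∧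
      S = 7 ^ 10 * (81 ^ 2 * e4 ^ 2 * (81 ^ 4 - e1 * 81 ^ 3 + e2 * 81 ^ 2 - e3 * 81 + e4) ^ 2 *
      (256*e4^3 - 192*e1*e3*e4^2 - 128*e2^2*e4^2 + 144*e2*e3^2*e4 - 27*e3^4 + 144*e1^2*e2*e4^2
      - 6*e1^2*e3^2*e4 - 80*e1*e2^2*e3*e4 + 18*e1*e2*e3^3 + 16*e2^4*e4 - 4*e2^3*e3^2
      - 27*e1^4*e4^2 + 18*e1^3*e2*e3*e4 - 4*e1^3*e3^3 - 4*e1^2*e2^3*e4 + e1^2*e2^2*e3^2)) := by
  set p : ℂ[X] := C 7 * X ^ 4 + C a3 * X ^ 3 + C a2 * X ^ 2 + C a1 * X + C a0 with hp
  have h7 : (7 : ℂ) ≠ 0 := by norm_num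
  have hdeg : p.natDegree = 4 := by
    rw [hp]; compute_degree!
  have hlead : p.leadingCoeff = 7 := by
    rw [leadingCoeff, hdeg, hp]
    simp
  obtain ⟨a, b, c, d, habcd⟩ := exists_four_roots p hdeg hlead
  have ev : ∀ x : ℂ, 7 * x ^ 4 + a3 * x ^ 3 + a2 * x ^ 2 + a1 * x + a0 =
      7 * ((x - a) * (x - b) * (x - c) * (x - d)) := by
    intro x
    have := congrArg (eval x) habcd
    simpa [hp] using this
  have E0 := ev 0
  have E1 := ev 1
  have Em1 := ev (-1)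
  have E2 := ev 2
  have Em2 := ev (-2)
  have hS := H ![0, 81, a, b, c, d] (by
    rw [hder, habcd]
    simp [Fin.prod_univ_succ]
    ring)
  refine ⟨a + b + c + d, a*b + a*c + a*d + b*c + b*d + c*d,
    a*b*c + a*b*d + a*c*d + b*c*d, a*b*c*d, ?_, ?_, ?_, ?_, ?_⟩
  · linear_combination (1/12) * (E2 - Em2) - (1/6) * (E1 - Em1)
  · linear_combination (-1/2) * (E1 + Em1) + E0
  · linear_combination (2/3) * (E1 - Em1) - (1/12) * (E2 - Em2)
  · linear_combination (-1) * E0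
  · have hD := disc4 a b c d _ _ _ _ rfl rfl rfl rfl
    have hQ : (81 : ℂ) ^ 4 - (a + b + c + d) * 81 ^ 3 + (a*b + a*c + a*d + b*c + b*d + c*d) * 81 ^ 2
        - (a*b*c + a*b*d + a*c*d + b*c*d) * 81 + a*b*c*d
        = (81 - a) * (81 - b) * (81 - c) * (81 - d) := by ring
    rw [← hD, ← hS, hQ, prodIoi]
    show ((7 : ℕ) : ℂ) ^ (2 * 7 - 4) * ((0 - 81) ^ 2 * (0 - a) ^ 2 * (0 - b) ^ 2 * (0 - c) ^ 2 * (0 - d) ^ 2
      * ((81 - a) ^ 2 * (81 - b) ^ 2 * (81 - c) ^ 2 * (81 - d) ^ 2)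
      * ((a - b) ^ 2 * (a - c) ^ 2 * (a - d) ^ 2)
      * ((b - c) ^ 2 * (b - d) ^ 2) * (c - d) ^ 2) = _
    generalize 81 - a = u1
    generalize 81 - b = u2
    generalize 81 - c = u3
    generalize 81 - d = u4
    generalize a - b = v1
    generalize a - c = v2
    generalize a - d = v3
    generalize b - c = v4
    generalize b - d = v5
    generalize c - d = v6
    push_cast
    ring

/-- The real sum of weighted squares. -/
noncomputable def S {m : ℕ} (c : Fin m → ℝ) (E : Fin m → List (Fin 7 × Fin 7)) (x : Fin 7 → ℝ) : ℝ :=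
  ∑ k : Fin m, c k * (((E k).map (fun p => x p.1 - x p.2)).prod) ^ 2

lemma prod_le (x0 x1 x2 : Fin 7 → ℝ)
    (h : ∀ i j, (x0 i - x0 j) ^ 2 ≤ |x1 i - x1 j| * |x2 i - x2 j|) (L : List (Fin 7 × Fin 7)) :
    ((L.map (fun p => x0 p.1 - x0 p.2)).prod) ^ 2 ≤
      |(L.map (fun p => x1 p.1 - x1 p.2)).prod| * |(L.map (fun p => x2 p.1 - x2 p.2)).prod| := by
  induction L with
  | nil => simp
  | cons p L ih =>
    simp only [List.map_cons, List.prod_cons, mul_pow, abs_mul]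
    calc (x0 p.1 - x0 p.2) ^ 2 * ((L.map (fun p => x0 p.1 - x0 p.2)).prod) ^ 2
        ≤ (|x1 p.1 - x1 p.2| * |x2 p.1 - x2 p.2|) *
          (|(L.map (fun p => x1 p.1 - x1 p.2)).prod| * |(L.map (fun p => x2 p.1 - x2 p.2)).prod|) :=
          mul_le_mul (h _ _) ih (sq_nonneg _) (by positivity)
      _ = _ := by ring

lemma S_le {m : ℕ} (c : Fin m → ℝ) (hc : ∀ k, 0 ≤ c k) (E : Fin m → List (Fin 7 × Fin 7))
    (x0 x1 x2 : Fin 7 → ℝ)
    (h : ∀ i j, (x0 i - x0 j) ^ 2 ≤ |x1 i - x1 j| * |x2 i - x2 j|) :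
    (S c E x0) ^ 2 ≤ S c E x1 * S c E x2 := by
  set r : Fin m → ℝ := fun k => c k * (|((E k).map (fun p => x1 p.1 - x1 p.2)).prod| *
    |((E k).map (fun p => x2 p.1 - x2 p.2)).prod|) with hr
  have h1 : S c E x0 ≤ ∑ k, r k :=
    Finset.sum_le_sum fun k _ => mul_le_mul_of_nonneg_left (prod_le x0 x1 x2 h _) (hc k)
  have h0 : 0 ≤ S c E x0 := Finset.sum_nonneg fun k _ => mul_nonneg (hc k) (sq_nonneg _)
  have h2 : (∑ k, r k) ^ 2 ≤ S c E x1 * S c E x2 := by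
    unfold S
    apply Finset.sum_sq_le_sum_mul_sum_of_sq_le_mul
    · intro k _; exact mul_nonneg (hc k) (sq_nonneg _)
    · intro k _; exact mul_nonneg (hc k) (sq_nonneg _)
    · intro k _
      rw [hr]
      simp only [mul_pow, sq_abs]
      apply le_of_eq
      ring
  calc (S c E x0) ^ 2 ≤ (∑ k, r k) ^ 2 := by gcongr
    _ ≤ _ := h2

/-- The seven-point configuration with points -1, 0, 0, 81, 81, 82, g. -/
def conf (g : ℝ) : Fin 7 → ℝ := ![-1, 0, 0, 81, 81, 82, g]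

lemma conf0 (g : ℝ) : conf g 0 = -1 := by simp [conf]
lemma conf1 (g : ℝ) : conf g 1 = 0 := by simp [conf]
lemma conf2 (g : ℝ) : conf g 2 = 0 := by simp [conf]
lemma conf3 (g : ℝ) : conf g 3 = 81 := by simp [conf]
lemma conf4 (g : ℝ) : conf g 4 = 81 := by simp [conf]
lemma conf5 (g : ℝ) : conf g 5 = 82 := by simp [conf]
lemma conf6 (g : ℝ) : conf g 6 = g := by simp [conf]

lemma conf_le (g0 g1 g2 : ℝ) (h1 : (-1 - g0) ^ 2 ≤ |(-1 - g1)| * |(-1 - g2)|)
    (h2 : (0 - g0) ^ 2 ≤ |0 - g1| * |0 - g2|)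
    (h3 : (81 - g0) ^ 2 ≤ |81 - g1| * |81 - g2|)
    (h4 : (82 - g0) ^ 2 ≤ |82 - g1| * |82 - g2|) (i j : Fin 7) :
    (conf g0 i - conf g0 j) ^ 2 ≤ |conf g1 i - conf g1 j| * |conf g2 i - conf g2 j| := by
  have hself : ∀ y : ℝ, y ^ 2 ≤ |y| * |y| := fun y => by rw [abs_mul_abs_self, sq]
  have hbase : ∀ g g' : ℝ, ∀ i : Fin 7, i ≠ 6 → conf g i = conf g' i := by
    intro g g' i hi
    match i, hi with
    | 0, _ => rw [conf0, conf0]
    | 1, _ => rw [conf1, conf1]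
    | 2, _ => rw [conf2, conf2]
    | 3, _ => rw [conf3, conf3]
    | 4, _ => rw [conf4, conf4]
    | 5, _ => rw [conf5, conf5]
    | 6, h => exact absurd rfl h
  have hlast : ∀ g : ℝ, conf g 6 = g := conf6
  have hcross : ∀ i : Fin 7, i ≠ 6 → (conf g0 i - g0) ^ 2 ≤ |conf g0 i - g1| * |conf g0 i - g2| := by
    intro i hi
    match i, hi with
    | 0, _ => rw [conf0]; exact h1
    | 1, _ => rw [conf1]; exact h2
    | 2, _ => rw [conf2]; exact h2
    | 3, _ => rw [conf3]; exact h3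
    | 4, _ => rw [conf4]; exact h3
    | 5, _ => rw [conf5]; exact h4
    | 6, h => exact absurd rfl h
  by_cases hi : i = 6
  · by_cases hj : j = 6
    · subst hi hj; simp
    · subst hi
      rw [hlast, hlast, hlast, hbase g1 g0 j hj, hbase g2 g0 j hj, abs_sub_comm g1,
        abs_sub_comm g2]
      calc _ = (conf g0 j - g0) ^ 2 := by ring
        _ ≤ _ := hcross j hj
  · by_cases hj : j = 6
    · subst hj
      rw [hlast, hlast, hlast, hbase g1 g0 i hi, hbase g2 g0 i hi]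
      exact hcross i hi
    · rw [hbase g1 g0 i hi, hbase g2 g0 i hi, hbase g1 g0 j hj, hbase g2 g0 j hj]
      exact hself _

lemma prod_conf (g : ℝ) : (∏ i : Fin 7, (X - C ((conf g i : ℝ) : ℂ))) =
    (X + 1) * X ^ 2 * (X - 81) ^ 2 * (X - 82) * (X - C (g : ℂ)) := by
  rw [Fin.prod_univ_seven, conf0, conf1, conf2, conf3, conf4, conf5, conf6]
  simp only [Complex.ofReal_neg, Complex.ofReal_one, Complex.ofReal_zero, Complex.ofReal_ofNat,
    C_neg, C_1, C_0, C_ofNat]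
  ring

/-- Transfer of the hypothesis to real configurations. -/
lemma S_value {m : ℕ} (c : Fin m → ℝ) (E : Fin m → List (Fin 7 × Fin 7))
    (H : ∀ (z : Fin 7 → ℂ) (r : Fin (7 - 1) → ℂ),
      derivative (∏ i : Fin 7, (X - C (z i))) =
          C ((7 : ℕ) : ℂ) * ∏ j : Fin (7 - 1), (X - C (r j)) →
        ((7 : ℕ) : ℂ) ^ (2 * 7 - 4) * ∏ a : Fin (7 - 1), ∏ b ∈ Finset.Ioi a, (r a - r b) ^ 2 =
          ∑ k : Fin m, ((c k : ℝ) : ℂ) * (((E k).map (fun p => z p.1 - z p.2)).prod) ^ 2)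
    (g a3 a2 a1 a0 : ℝ)
    (hder : derivative (∏ i : Fin 7, (X - C ((conf g i : ℝ) : ℂ))) =
      (X - C 0) * (X - C 81) * (C 7 * X ^ 4 + C (a3 : ℂ) * X ^ 3 + C (a2 : ℂ) * X ^ 2
        + C (a1 : ℂ) * X + C (a0 : ℂ))) :
    ∃ e1 e2 e3 e4 : ℝ, 7 * e1 = - a3 ∧ 7 * e2 = a2 ∧ 7 * e3 = - a1 ∧ 7 * e4 = a0 ∧
      S c E (conf g) =
        7 ^ 10 * (81 ^ 2 * e4 ^ 2 * (81 ^ 4 - e1 * 81 ^ 3 + e2 * 81 ^ 2 - e3 * 81 + e4) ^ 2 *
      (256*e4^3 - 192*e1*e3*e4^2 - 128*e2^2*e4^2 + 144*e2*e3^2*e4 - 27*e3^4 + 144*e1^2*e2*e4^2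
      - 6*e1^2*e3^2*e4 - 80*e1*e2^2*e3*e4 + 18*e1*e2*e3^3 + 16*e2^4*e4 - 4*e2^3*e3^2
      - 27*e1^4*e4^2 + 18*e1^3*e2*e3*e4 - 4*e1^3*e3^3 - 4*e1^2*e2^3*e4 + e1^2*e2^2*e3^2)) := by
  obtain ⟨e1, e2, e3, e4, he1, he2, he3, he4, hS⟩ :=
    value (fun i => ((conf g i : ℝ) : ℂ)) a3 a2 a1 a0 _ hder
      (H (fun i => ((conf g i : ℝ) : ℂ)))
  have f1 : e1 = ((-a3 / 7 : ℝ) : ℂ) := by push_cast; linear_combination (1/7) * he1
  have f2 : e2 = ((a2 / 7 : ℝ) : ℂ) := by push_cast; linear_combination (1/7) * he2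
  have f3 : e3 = ((-a1 / 7 : ℝ) : ℂ) := by push_cast; linear_combination (1/7) * he3
  have f4 : e4 = ((a0 / 7 : ℝ) : ℂ) := by push_cast; linear_combination (1/7) * he4
  subst f1 f2 f3 f4
  refine ⟨-a3/7, a2/7, -a1/7, a0/7, by ring, by ring, by ring, by ring, ?_⟩
  have hL : ∀ L : List (Fin 7 × Fin 7),
      (L.map (fun p => ((conf g p.1 : ℝ) : ℂ) - ((conf g p.2 : ℝ) : ℂ))).prod =
        (((L.map (fun p => conf g p.1 - conf g p.2)).prod : ℝ) : ℂ) := by
    intro L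
    induction L with
    | nil => simp
    | cons p L ih => simp only [List.map_cons, List.prod_cons, ih]; push_cast; ring
  simp only [hL] at hS
  unfold S
  exact_mod_cast hS

/-- The negation of the preceding statement: For every n ≥ 2 there are nonnegative reals c_k and lists of index pairs such that, for all complex z, the discriminant of the derivative of ∏(x−z_i) equals Σ c_k·(∏ over the k-th list of (z_i−z_j))². -/
theorem result :
    ¬ (∀ n : ℕ, 2 ≤ n →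
      ∃ (m : ℕ) (c : Fin m → ℝ) (E : Fin m → List (Fin n × Fin n)),
        (∀ k, 0 ≤ c k) ∧
        ∀ (z : Fin n → ℂ) (r : Fin (n - 1) → ℂ),
          Polynomial.derivative (∏ i : Fin n, (Polynomial.X - Polynomial.C (z i))) =
              Polynomial.C (n : ℂ) * ∏ j : Fin (n - 1), (Polynomial.X - Polynomial.C (r j)) →
            (n : ℂ) ^ (2 * n - 4) * ∏ a : Fin (n - 1), ∏ b ∈ Finset.Ioi a, (r a - r b) ^ 2 =
              ∑ k : Fin m, ((c k : ℝ) : ℂ) * (((E k).map (fun p => z p.1 - z p.2)).prod) ^ 2) := by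
  intro h
  obtain ⟨m, c, E, hc, H⟩ := h 7 (by norm_num)
  have hle := S_le c hc E (conf (-279)) (conf 31) (conf (-2511))
    (conf_le (-279) 31 (-2511) (by norm_num [abs_of_neg, abs_of_pos]) (by norm_num [abs_of_neg, abs_of_pos])
      (by norm_num [abs_of_neg, abs_of_pos]) (by norm_num [abs_of_neg, abs_of_pos]))
  obtain ⟨p1, p2, p3, p4, hp1, hp2, hp3, hp4, hP⟩ := S_value c E H (-279) 783 (-177557) 5419971 3706236 (by
    rw [prod_conf]
    simp only [Complex.ofReal_neg, Complex.ofReal_ofNat, C_neg, C_0, C_ofNat, derivative_mul,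
      derivative_pow, derivative_sub, derivative_add, derivative_X, derivative_one,
      derivative_neg, derivative_ofNat, Nat.cast_ofNat]
    ring)
  obtain ⟨q1, q2, q3, q4, hq1, hq2, hq3, hq4, hQ⟩ := S_value c E H 31 (-1077) 48433 (-580079) (-411804) (by
    rw [prod_conf]
    simp only [Complex.ofReal_neg, Complex.ofReal_ofNat, C_neg, C_0, C_ofNat, derivative_mul,
      derivative_pow, derivative_sub, derivative_add, derivative_X, derivative_one,
      derivative_neg, derivative_ofNat, Nat.cast_ofNat]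
    ring)
  obtain ⟨s1, s2, s3, s4, hs1, hs2, hs3, hs4, hR⟩ := S_value c E H (-2511) 14175 (-1804685) 48620331 33356124 (by
    rw [prod_conf]
    simp only [Complex.ofReal_neg, Complex.ofReal_ofNat, C_neg, C_0, C_ofNat, derivative_mul,
      derivative_pow, derivative_sub, derivative_add, derivative_X, derivative_one,
      derivative_neg, derivative_ofNat, Nat.cast_ofNat]
    ring)
  have hp1' : p1 = -783 / 7 := by linarith
  have hp2' : p2 = -177557 / 7 := by linarith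
  have hp3' : p3 = -5419971 / 7 := by linarith
  have hp4' : p4 = 3706236 / 7 := by linarith
  have hq1' : q1 = 1077 / 7 := by linarith
  have hq2' : q2 = 48433 / 7 := by linarith
  have hq3' : q3 = 580079 / 7 := by linarith
  have hq4' : q4 = -411804 / 7 := by linarith
  have hs1' : s1 = -14175 / 7 := by linarith
  have hs2' : s2 = -1804685 / 7 := by linarith
  have hs3' : s3 = -48620331 / 7 := by linarith
  have hs4' : s4 = 33356124 / 7 := by linarith
  rw [hP, hQ, hR, hp1', hp2', hp3', hp4', hq1', hq2', hq3', hq4', hs1', hs2', hs3', hs4'] at hle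
  norm_num at hle

end Pool.Agent.S00096
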