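import Pool.Statements.S00150

set_option autoImplicit false
open Pool Pool.MP_c642e9_ag

namespace Pool.Agent.S00150

section Topology


/-- pushing a point of the plane, with continuous inverse -/
theorem bump (l0 : ℂ) (h0 : l0 ≠ 0) (h1 : l0 ≠ 1) :
    ∃ (δ : ℝ) (_ : 0 < δ) (Ψ H : ℂ → ℂ → ℂ),
      (∀ l, ‖l - l0‖ < δ → ∀ w, H l (Ψ l w) = w) ∧
      (∀ l, ‖l - l0‖ < δ → ∀ w, Ψ l (H l w) = w) ∧
      (∀ l, Ψ l 0 = 0) ∧ (∀ l, Ψ l 1 = 1) ∧ (∀ l, Ψ l l0 = l) ∧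
      Continuous (fun q : ℂ × ℂ => Ψ q.1 q.2) ∧
      ContinuousOn (fun q : ℂ × ℂ => H q.1 q.2) {q : ℂ × ℂ | ‖q.1 - l0‖ < δ} := by
  classical
  have hr1 : 0 < ‖l0‖ := norm_pos_iff.mpr h0
  have hr2 : 0 < ‖l0 - 1‖ := norm_pos_iff.mpr (sub_ne_zero.mpr h1)
  obtain ⟨r, hr, hra, hrb⟩ : ∃ r : ℝ, 0 < r ∧ r ≤ ‖l0‖ ∧ r ≤ ‖l0 - 1‖ :=
    ⟨min ‖l0‖ ‖l0 - 1‖, lt_min hr1 hr2, min_le_left _ _, min_le_right _ _⟩
  obtain ⟨χ, hχ⟩ : ∃ χ : ℂ → ℝ, ∀ w, χ w = max 0 (1 - ‖w - l0‖ / r) := ⟨_, fun _ => rfl⟩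
  have hχ0 : ∀ w, 0 ≤ χ w := fun w => by rw [hχ]; exact le_max_left _ _
  have hχ1 : ∀ w, χ w ≤ 1 := fun w => by
    rw [hχ]
    refine max_le zero_le_one ?_
    have : 0 ≤ ‖w - l0‖ / r := by positivity
    linarith
  have hχL : ∀ w w', |χ w - χ w'| ≤ ‖w - w'‖ / r := fun w w' => by
    rw [hχ, hχ, max_comm (0 : ℝ), max_comm (0 : ℝ)]
    refine (abs_max_sub_max_le_abs (1 - ‖w - l0‖ / r) (1 - ‖w' - l0‖ / r) (0 : ℝ)).trans ?_
    have h2 : (1 - ‖w - l0‖ / r) - (1 - ‖w' - l0‖ / r) = (‖w' - l0‖ - ‖w - l0‖) / r := by ring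
    rw [h2, abs_div, abs_of_pos hr]
    refine div_le_div_of_nonneg_right ?_ hr.le
    refine (abs_norm_sub_norm_le _ _).trans ?_
    rw [show w' - l0 - (w - l0) = -(w - w') by ring, norm_neg]
  have hχc : Continuous χ := by
    have : χ = fun w => max 0 (1 - ‖w - l0‖ / r) := funext hχ
    rw [this]
    fun_prop
  -- the map
  obtain ⟨Ψ, hΨ⟩ : ∃ Ψ : ℂ → ℂ → ℂ, ∀ l w, Ψ l w = w + (l - l0) * (χ w : ℂ) :=
    ⟨_, fun _ _ => rfl⟩
  -- key estimate
  have key : ∀ l l2 w w2 : ℂ, ‖l - l0‖ < r / 2 →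
      ‖w - w2‖ ≤ 2 * (‖Ψ l w - Ψ l2 w2‖ + ‖l - l2‖) := by
    intro l l2 w w2 hl
    have e : w - w2 = (Ψ l w - Ψ l2 w2) - (l - l2) * (χ w2 : ℂ)
        - (l - l0) * ((χ w - χ w2 : ℝ) : ℂ) := by
      rw [hΨ, hΨ]; push_cast; ring
    have e1 : ‖w - w2‖ ≤ ‖Ψ l w - Ψ l2 w2‖ + ‖(l - l2) * (χ w2 : ℂ)‖
        + ‖(l - l0) * ((χ w - χ w2 : ℝ) : ℂ)‖ := by
      conv_lhs => rw [e]
      refine (norm_sub_le _ _).trans ?_
      gcongr
      exact norm_sub_le _ _
    have e2 : ‖(l - l2) * (χ w2 : ℂ)‖ ≤ ‖l - l2‖ := by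
      rw [norm_mul, Complex.norm_real, Real.norm_eq_abs, abs_of_nonneg (hχ0 _)]
      exact mul_le_of_le_one_right (norm_nonneg _) (hχ1 _)
    have e3 : ‖(l - l0) * ((χ w - χ w2 : ℝ) : ℂ)‖ ≤ ‖w - w2‖ / 2 := by
      rw [norm_mul, Complex.norm_real, Real.norm_eq_abs]
      calc ‖l - l0‖ * |χ w - χ w2| ≤ (r / 2) * (‖w - w2‖ / r) := by
            gcongr
            exact hχL _ _
        _ = ‖w - w2‖ / 2 := by field_simp
    linarith
  -- existence of preimages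
  have hsurj : ∀ l, ‖l - l0‖ < r / 2 → ∀ u, ∃ w, Ψ l w = u := by
    intro l hl u
    let T : ℂ → ℂ := fun w => u - (l - l0) * (χ w : ℂ)
    have hT : ContractingWith (1 / 2 : NNReal) T := by
      refine ⟨by rw [← NNReal.coe_lt_coe]; norm_num, LipschitzWith.of_dist_le_mul ?_⟩
      intro w w'
      rw [dist_eq_norm, dist_eq_norm]
      have e : T w - T w' = -((l - l0) * ((χ w - χ w' : ℝ) : ℂ)) := by
        simp only [T]; push_cast; ring
      rw [e, norm_neg, norm_mul, Complex.norm_real, Real.norm_eq_abs]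
      calc ‖l - l0‖ * |χ w - χ w'| ≤ (r / 2) * (‖w - w'‖ / r) := by
            gcongr
            exact hχL _ _
        _ = ((1 / 2 : NNReal) : ℝ) * ‖w - w'‖ := by
            push_cast
            field_simp
    refine ⟨ContractingWith.fixedPoint T hT, ?_⟩
    have h := hT.fixedPoint_isFixedPt
    have h' : T (ContractingWith.fixedPoint T hT) = ContractingWith.fixedPoint T hT := h
    rw [hΨ]
    simp only [T] at h'
    linear_combination -h'
  choose! G hG using fun l => fun (hl : ‖l - l0‖ < r / 2) => hsurj l hl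
  refine ⟨r / 2, by positivity, Ψ, G, ?_, ?_, ?_, ?_, ?_, ?_, ?_⟩
  · intro l hl w
    have h := key l l (G l (Ψ l w)) w hl
    rw [hG l hl] at h
    simp only [sub_self, norm_zero, add_zero, mul_zero] at h
    exact sub_eq_zero.mp (norm_le_zero_iff.mp h)
  · intro l hl w
    exact hG l hl w
  · intro l
    have : χ 0 = 0 := by
      rw [hχ]
      refine max_eq_left ?_
      rw [zero_sub, norm_neg, sub_nonpos, le_div_iff₀ hr]
      linarith
    rw [hΨ, this]; simp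
  · intro l
    have : χ 1 = 0 := by
      rw [hχ]
      refine max_eq_left ?_
      rw [sub_nonpos, le_div_iff₀ hr, norm_sub_rev]
      linarith
    rw [hΨ, this]; simp
  · intro l
    have : χ l0 = 1 := by
      rw [hχ]
      simp
    rw [hΨ, this]; simp
  · have : (fun q : ℂ × ℂ => Ψ q.1 q.2) = fun q => q.2 + (q.1 - l0) * (χ q.2 : ℂ) := by
      funext q; rw [hΨ]
    rw [this]
    fun_prop
  · have : LipschitzOnWith 4 (fun q : ℂ × ℂ => G q.1 q.2) {q : ℂ × ℂ | ‖q.1 - l0‖ < r / 2} := by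
      refine LipschitzOnWith.of_dist_le_mul ?_
      intro q hq q' hq'
      have hq1 : ‖q.1 - l0‖ < r / 2 := hq
      have hq2 : ‖q'.1 - l0‖ < r / 2 := hq'
      rw [dist_eq_norm]
      refine (key q.1 q'.1 _ _ hq1).trans ?_
      rw [hG q.1 hq1, hG q'.1 hq2, dist_eq_norm]
      have h1 : ‖q.2 - q'.2‖ ≤ ‖q - q'‖ := norm_snd_le (q - q')
      have h2 : ‖q.1 - q'.1‖ ≤ ‖q - q'‖ := norm_fst_le (q - q')
      push_cast
      linarith
    exact this.continuousOn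



theorem mk_eq_iff (n : ℕ) (v w : {v : Fin n → ℂ // v ≠ 0}) :
    Quotient.mk (projectivizationSetoid ℂ (Fin n → ℂ)) v =
      Quotient.mk (projectivizationSetoid ℂ (Fin n → ℂ)) w ↔
      ∃ c : ℂ, c ≠ 0 ∧ v.1 = c • w.1 := by
  rw [Quotient.eq]
  constructor
  · rintro ⟨c, hc⟩
    exact ⟨(c : ℂ), c.ne_zero, hc.symm⟩
  · rintro ⟨c, hc, h⟩
    exact ⟨Units.mk0 c hc, h.symm⟩

theorem mk_openQuot (n : ℕ) : IsOpenQuotientMap
    (Quotient.mk (projectivizationSetoid ℂ (Fin n → ℂ))) := by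
  refine ⟨Quotient.mk_surjective, continuous_quotient_mk', ?_⟩
  intro O hO
  rw [← isQuotientMap_quotient_mk'.isOpen_preimage]
  have key : (Quotient.mk (projectivizationSetoid ℂ (Fin n → ℂ))) ⁻¹'
      ((Quotient.mk (projectivizationSetoid ℂ (Fin n → ℂ))) '' O) =
      ⋃ c : {c : ℂ // c ≠ 0}, {v : {v : Fin n → ℂ // v ≠ 0} |
        (⟨c.1 • v.1, smul_ne_zero c.2 v.2⟩ : {v : Fin n → ℂ // v ≠ 0}) ∈ O} := by
    ext v
    simp only [Set.mem_preimage, Set.mem_image, Set.mem_iUnion, Set.mem_ofPred_eq]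
    constructor
    · rintro ⟨w, hw, h⟩
      obtain ⟨c, hc, h2⟩ := (mk_eq_iff n w v).1 h
      refine ⟨⟨c, hc⟩, ?_⟩
      have : w = (⟨c • v.1, smul_ne_zero hc v.2⟩ : {v : Fin n → ℂ // v ≠ 0}) := Subtype.ext h2
      rw [← this]
      exact hw
    · rintro ⟨c, hc⟩
      exact ⟨_, hc, (mk_eq_iff n _ v).2 ⟨c.1, c.2, rfl⟩⟩
  change IsOpen ((Quotient.mk (projectivizationSetoid ℂ (Fin n → ℂ))) ⁻¹'
      ((Quotient.mk (projectivizationSetoid ℂ (Fin n → ℂ))) '' O))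
  rw [key]
  refine isOpen_iUnion fun c => ?_
  have hc : Continuous (fun v : {v : Fin n → ℂ // v ≠ 0} =>
      (⟨c.1 • v.1, smul_ne_zero c.2 v.2⟩ : {v : Fin n → ℂ // v ≠ 0})) :=
    Continuous.subtype_mk (continuous_subtype_val.const_smul c.1) _
  exact hO.preimage hc

/-- affine coordinate `v i / v j` on projective space -/
noncomputable def crd (n : ℕ) (i j : Fin n) :
    Quotient (projectivizationSetoid ℂ (Fin n → ℂ)) → ℂ :=
  Quotient.lift (fun v : {v : Fin n → ℂ // v ≠ 0} => v.1 i / v.1 j) (by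
    intro v w h
    obtain ⟨c, hc, h2⟩ := (mk_eq_iff n v w).1 (Quotient.sound h)
    simp only [h2, Pi.smul_apply, smul_eq_mul]
    exact mul_div_mul_left _ _ hc)

theorem crd_continuousAt (n : ℕ) (i j : Fin n) (v : {v : Fin n → ℂ // v ≠ 0}) (hv : v.1 j ≠ 0) :
    ContinuousAt (crd n i j) (Quotient.mk (projectivizationSetoid ℂ (Fin n → ℂ)) v) := by
  rw [← (mk_openQuot n).continuousAt_comp_iff]
  have h1 : ContinuousAt (fun w : {v : Fin n → ℂ // v ≠ 0} => w.1 i) v :=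
    ((continuous_apply i).comp continuous_subtype_val).continuousAt
  have h2 : ContinuousAt (fun w : {v : Fin n → ℂ // v ≠ 0} => w.1 j) v :=
    ((continuous_apply j).comp continuous_subtype_val).continuousAt
  exact h1.div h2 hv

/-- the point `[t : 1]` -/
noncomputable def j1 (t : ℂ) : Quotient (projectivizationSetoid ℂ (Fin 2 → ℂ)) :=
  Quotient.mk (projectivizationSetoid ℂ (Fin 2 → ℂ))
    ⟨![t, 1], fun h => by have := congrFun h 1; simp at this⟩

/-- the point `[t : y : 1]` -/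
noncomputable def j2 (t y : ℂ) : Quotient (projectivizationSetoid ℂ (Fin 3 → ℂ)) :=
  Quotient.mk (projectivizationSetoid ℂ (Fin 3 → ℂ))
    ⟨![t, y, 1], fun h => by have := congrFun h 2; simp at this⟩

theorem j2_continuous : Continuous (fun q : ℂ × ℂ => j2 q.1 q.2) := by
  refine continuous_quotient_mk'.comp (Continuous.subtype_mk ?_ _)
  refine continuous_pi fun i => ?_
  fin_cases i
  · exact continuous_fst
  · exact continuous_snd
  · exact continuous_const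

theorem j1_continuous : Continuous j1 := by
  refine continuous_quotient_mk'.comp (Continuous.subtype_mk ?_ _)
  refine continuous_pi fun i => ?_
  fin_cases i
  · exact continuous_id
  · exact continuous_const

theorem j1_open (V : Set ℂ) (hV : IsOpen V) : IsOpen (j1 '' V) := by
  rw [← isQuotientMap_quotient_mk'.isOpen_preimage]
  have key : (Quotient.mk (projectivizationSetoid ℂ (Fin 2 → ℂ))) ⁻¹' (j1 '' V) =
      {w : {v : Fin 2 → ℂ // v ≠ 0} | w.1 1 ≠ 0 ∧ w.1 0 / w.1 1 ∈ V} := by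
    ext w
    simp only [Set.mem_preimage, Set.mem_image, Set.mem_ofPred_eq]
    constructor
    · rintro ⟨t, ht, h⟩
      obtain ⟨c, hc, h2⟩ := (mk_eq_iff 2 w _).1 h.symm
      have e0 : w.1 0 = c * t := by
        have := congrFun h2 0
        simpa using this
      have e1 : w.1 1 = c := by
        have := congrFun h2 1
        simpa using this
      rw [e1, e0, mul_comm c t, mul_div_cancel_right₀ _ hc]
      exact ⟨hc, ht⟩
    · rintro ⟨h1, h2⟩
      refine ⟨_, h2, ?_⟩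
      refine (mk_eq_iff 2 _ w).2 ⟨(w.1 1)⁻¹, inv_ne_zero h1, ?_⟩
      funext i
      fin_cases i
      · simp [div_eq_inv_mul]
      · simp [h1]
  change IsOpen ((Quotient.mk (projectivizationSetoid ℂ (Fin 2 → ℂ))) ⁻¹' (j1 '' V))
  rw [key]
  have c0 : Continuous (fun w : {v : Fin 2 → ℂ // v ≠ 0} => w.1 0) :=
    (continuous_apply 0).comp continuous_subtype_val
  have c1 : Continuous (fun w : {v : Fin 2 → ℂ // v ≠ 0} => w.1 1) :=
    (continuous_apply 1).comp continuous_subtype_val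
  have ho : IsOpen {w : {v : Fin 2 → ℂ // v ≠ 0} | w.1 1 ≠ 0} := isOpen_ne_fun c1 continuous_const
  have hcont : ContinuousOn (fun w : {v : Fin 2 → ℂ // v ≠ 0} => w.1 0 / w.1 1)
      {w : {v : Fin 2 → ℂ // v ≠ 0} | w.1 1 ≠ 0} :=
    c0.continuousOn.div c1.continuousOn (fun w hw => hw)
  exact hcont.isOpen_inter_preimage ho hV


end Topology

section Algebra

open MvPolynomial

abbrev SS : Type := MvPolynomial (Fin 3) ℂ

noncomputable def QQ : SS := X 1 * X 2 - X 0 ^ 2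

noncomputable def ff : SS :=
  X 0 * (X 2 * ((X 0 - X 2) * ((X 0 + X 2) * (X 1 * ((X 1 - X 0) * QQ)))))

theorem prime_lin (i j : Fin 3) (hij : i ≠ j) (g : SS) (hg : g = X j ∨ g = - X j) :
    Prime (X i + g) := by
  have hvars : g.vars ⊆ {j} := by
    rcases hg with h | h
    · rw [h, vars_X]
    · rw [h, vars_neg, vars_X]
  have h : Irreducible ((1 : SS) * X i + g) := by
    apply irreducible_mul_X_add
    · exact one_ne_zero
    · rw [vars_one]; simp
    · intro h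
      have := hvars h
      rw [Finset.mem_singleton] at this
      exact hij this
    · exact isRelPrime_one_left
  rw [one_mul] at h
  exact h.prime

theorem prime_a : Prime (X 0 - X 2 : SS) := by
  rw [sub_eq_add_neg]; exact prime_lin 0 2 (by decide) _ (Or.inr rfl)

theorem prime_b : Prime (X 0 + X 2 : SS) := prime_lin 0 2 (by decide) _ (Or.inl rfl)

theorem prime_c : Prime (X 1 - X 0 : SS) := by
  rw [sub_eq_add_neg]; exact prime_lin 1 0 (by decide) _ (Or.inr rfl)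

theorem not_dvd_of_eval {P h : SS} (v : Fin 3 → ℂ) (h1 : eval v P = 0) (h2 : eval v h ≠ 0) :
    ¬ P ∣ h := by
  rintro ⟨k, rfl⟩
  apply h2
  rw [map_mul, h1, zero_mul]

theorem prime_Q : Prime QQ := by
  have h : Irreducible ((X 2 : SS) * X 1 + (- X 0 ^ 2)) := by
    apply irreducible_mul_X_add
    · exact X_ne_zero 2
    · rw [vars_X]; simp
    · intro h
      rw [vars_neg] at h
      have := vars_pow (X 0 : SS) 2 h
      rw [vars_X] at this
      simp at this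
    · rw [(X_prime (i := (2 : Fin 3)) (R := ℂ)).irreducible.isRelPrime_iff_not_dvd]
      exact not_dvd_of_eval ![1, 0, 0] (by simp) (by simp)
  have e : QQ = (X 2 : SS) * X 1 + (- X 0 ^ 2) := by unfold QQ; ring
  rw [e]
  exact h.prime

theorem ff_sqfree : Squarefree ff := by
  unfold ff
  rw [squarefree_mul_iff, squarefree_mul_iff, squarefree_mul_iff, squarefree_mul_iff,
    squarefree_mul_iff, squarefree_mul_iff]
  refine ⟨?_, (X_prime).squarefree, ?_, (X_prime).squarefree, ?_, prime_a.squarefree, ?_,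
    prime_b.squarefree, ?_, (X_prime).squarefree, ?_, prime_c.squarefree, prime_Q.squarefree⟩
  · rw [(X_prime).irreducible.isRelPrime_iff_not_dvd]
    exact not_dvd_of_eval ![0, 1, 1] (by simp) (by simp [QQ])
  · rw [(X_prime).irreducible.isRelPrime_iff_not_dvd]
    exact not_dvd_of_eval ![1, 2, 0] (by simp) (by simp [QQ]; norm_num)
  · rw [prime_a.irreducible.isRelPrime_iff_not_dvd]
    exact not_dvd_of_eval ![1, 3, 1] (by simp) (by simp [QQ]; norm_num)
  · rw [prime_b.irreducible.isRelPrime_iff_not_dvd]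
    exact not_dvd_of_eval ![1, 3, -1] (by simp) (by simp [QQ]; norm_num)
  · rw [(X_prime).irreducible.isRelPrime_iff_not_dvd]
    exact not_dvd_of_eval ![2, 0, 1] (by simp) (by simp [QQ])
  · rw [prime_c.irreducible.isRelPrime_iff_not_dvd]
    exact not_dvd_of_eval ![2, 2, 1] (by simp) (by simp [QQ]; norm_num)

theorem ff_hom : ff.IsHomogeneous 8 := by
  have hX : ∀ i : Fin 3, (X i : SS).IsHomogeneous 1 := fun i => isHomogeneous_X ℂ i
  have hQ : QQ.IsHomogeneous 2 := by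
    unfold QQ
    have h1 : (X 1 * X 2 : SS).IsHomogeneous 2 := (hX 1).mul (hX 2)
    have h2 : (X 0 ^ 2 : SS).IsHomogeneous 2 := by simpa using (hX 0).pow 2
    exact h1.sub h2
  have h := (hX 0).mul ((hX 2).mul (((hX 0).sub (hX 2)).mul (((hX 0).add (hX 2)).mul
    ((hX 1).mul (((hX 1).sub (hX 0)).mul hQ)))))
  exact h

/-- the derivation with values `θ` -/
noncomputable def DD (θ : Fin 3 → SS) : Derivation ℂ SS SS :=
  θ 0 • pderiv 0 + θ 1 • pderiv 1 + θ 2 • pderiv 2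

theorem DD_apply (θ : Fin 3 → SS) (p : SS) :
    DD θ p = θ 0 * pderiv 0 p + θ 1 * pderiv 1 p + θ 2 * pderiv 2 p := by
  simp [DD]

theorem DD_X (θ : Fin 3 → SS) (j : Fin 3) : DD θ (X j) = θ j := by
  rw [DD_apply]
  fin_cases j
  · simp
  · simp
  · simp

/-- the syzygy module -/
noncomputable abbrev NN : Submodule SS (Fin 3 → SS) :=
  LinearMap.ker (Matrix.mulVecLin (Matrix.of fun (_ : Fin 1) (i : Fin 3) => pderiv i ff))

theorem mem_NN (θ : Fin 3 → SS) : θ ∈ NN ↔ DD θ ff = 0 := by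
  rw [LinearMap.mem_ker, DD_apply]
  constructor
  · intro h
    have := congrFun h 0
    simp only [Matrix.mulVecLin_apply, Matrix.mulVec, dotProduct, Matrix.of_apply,
      Fin.sum_univ_three, Pi.zero_apply] at this
    linear_combination this
  · intro h
    funext i
    simp only [Matrix.mulVecLin_apply, Matrix.mulVec, dotProduct, Matrix.of_apply,
      Fin.sum_univ_three, Pi.zero_apply]
    linear_combination h

theorem dvd_DD {P h : SS} {θ : Fin 3 → SS} (hP : Prime P) (hf : ff = P * h) (hh : ¬ P ∣ h)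
    (hθ : DD θ ff = 0) : P ∣ DD θ P := by
  rw [hf, Derivation.leibniz, smul_eq_mul, smul_eq_mul] at hθ
  have h1 : P ∣ h * DD θ P := ⟨- DD θ h, by linear_combination hθ⟩
  rcases hP.dvd_or_dvd h1 with h2 | h2
  · exact absurd h2 hh
  · exact h2


noncomputable def GG : SS := (X 0 - X 2) * (X 0 + X 2)

noncomputable def hh (e s t : SS) : SS :=
  6 * GG * e + 2 * X 0 ^ 2 * e + QQ * s + X 1 * X 2 * s + X 1 * t

/-- the syzygy attached to `(e, s)` with `GG * e + QQ * s = (X 1 - X 0) * t` -/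
noncomputable def gen (e s t : SS) : Fin 3 → SS :=
  ![X 0 * (GG * e - C (1 / 8) * hh e s t), X 1 * (2 * GG * e + QQ * s - C (1 / 8) * hh e s t),
    - (X 2 * (C (1 / 8) * hh e s t))]

theorem C8 : (8 : SS) * C (1 / 8 : ℂ) = 1 := by
  have : (8 : SS) = C (8 : ℂ) := (map_ofNat (C : ℂ →+* SS) 8).symm
  rw [this, ← C_mul]
  norm_num

theorem DD_Q (θ : Fin 3 → SS) : DD θ QQ = X 1 * θ 2 + X 2 * θ 1 - 2 * X 0 * θ 0 := by
  unfold QQ
  rw [map_sub, Derivation.leibniz, Derivation.leibniz_pow, DD_X, DD_X, DD_X]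
  simp only [smul_eq_mul, nsmul_eq_mul]
  push_cast
  ring

theorem DD_ff (e s t c : SS) (ht : GG * e + QQ * s = (X 1 - X 0) * t) (θ : Fin 3 → SS)
    (h0 : θ 0 = X 0 * (GG * e + c)) (h1 : θ 1 = X 1 * (2 * GG * e + QQ * s + c))
    (h2 : θ 2 = X 2 * c) : DD θ ff = (hh e s t + 8 * c) * ff := by
  have key : X 1 * (2 * GG * e + QQ * s + c) - X 0 * (GG * e + c)
      = (X 1 - X 0) * (GG * e + c + X 1 * t) := by
    linear_combination X 1 * ht
  unfold ff
  simp only [Derivation.leibniz, smul_eq_mul, map_sub, map_add, DD_X, DD_Q]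
  rw [h0, h1, h2, key]
  unfold hh GG QQ
  ring

theorem gen_mem (e s t : SS) (ht : GG * e + QQ * s = (X 1 - X 0) * t) : gen e s t ∈ NN := by
  rw [mem_NN, DD_ff e s t (- (C (1 / 8) * hh e s t)) ht (gen e s t)]
  · have : hh e s t + 8 * -(C (1 / 8) * hh e s t) = 0 := by
      linear_combination (- hh e s t) * C8
    rw [this, zero_mul]
  · simp only [gen, Matrix.cons_val_zero]; ring
  · simp only [gen, Matrix.cons_val_one, Matrix.cons_val_zero]; ring
  · simp only [gen, Matrix.cons_val]; ring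

theorem dvd_sub_subst (p : SS) : (X 1 - X 0 : SS) ∣ p - aeval ![X 0, X 0, X 2] p := by
  induction p using MvPolynomial.induction_on with
  | C a => simp
  | add p q hp hq =>
    rw [map_add]
    have : p + q - ((aeval ![X 0, X 0, X 2]) p + (aeval ![X 0, X 0, X 2]) q)
      = (p - (aeval ![X 0, X 0, X 2]) p) + (q - (aeval ![X 0, X 0, X 2]) q) := by ring
    rw [this]
    exact dvd_add hp hq
  | mul_X p i hp =>
    rw [map_mul, aeval_X]
    have h2 : (X 1 - X 0 : SS) ∣ X i - (![X 0, X 0, X 2] : Fin 3 → SS) i := by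
      fin_cases i <;> simp
    have : p * X i - (aeval ![X 0, X 0, X 2]) p * (![X 0, X 0, X 2] : Fin 3 → SS) i
      = (p - (aeval ![X 0, X 0, X 2]) p) * X i
        + (aeval ![X 0, X 0, X 2]) p * (X i - (![X 0, X 0, X 2] : Fin 3 → SS) i) := by ring
    rw [this]
    exact dvd_add (hp.mul_right _) (h2.mul_left _)

theorem struct (θ : Fin 3 → SS) (hθ : θ ∈ NN) : ∃ A B D c : SS,
    θ 0 = X 0 * (GG * (X 0 * A + (X 1 - X 0) * B) + c) ∧
    θ 1 = X 1 * (2 * GG * (X 0 * A + (X 1 - X 0) * B)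
      + QQ * ((X 0 + X 2) * A + (X 1 - X 0) * D) + c) ∧
    θ 2 = X 2 * c := by
  rw [mem_NN] at hθ
  have px : Prime (X 0 : SS) := X_prime
  have py : Prime (X 1 : SS) := X_prime
  have pz : Prime (X 2 : SS) := X_prime
  obtain ⟨a, ha⟩ : (X 0 : SS) ∣ DD θ (X 0) := by
    apply dvd_DD (h := X 2 * ((X 0 - X 2) * ((X 0 + X 2) * (X 1 * ((X 1 - X 0) * QQ))))) px rfl _ hθ
    exact not_dvd_of_eval ![0, 1, 1] (by simp) (by simp [QQ])
  obtain ⟨c, hc⟩ : (X 2 : SS) ∣ DD θ (X 2) := by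
    apply dvd_DD (h := X 0 * ((X 0 - X 2) * ((X 0 + X 2) * (X 1 * ((X 1 - X 0) * QQ))))) pz
      (by unfold ff; ring) _ hθ
    exact not_dvd_of_eval ![1, 2, 0] (by simp) (by simp [QQ]; norm_num)
  obtain ⟨b, hb⟩ : (X 1 : SS) ∣ DD θ (X 1) := by
    apply dvd_DD (h := X 0 * (X 2 * ((X 0 - X 2) * ((X 0 + X 2) * ((X 1 - X 0) * QQ))))) py
      (by unfold ff; ring) _ hθ
    exact not_dvd_of_eval ![2, 0, 1] (by simp) (by simp [QQ]; norm_num)
  rw [DD_X] at ha hb hc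
  have h1 : (X 0 - X 2 : SS) ∣ a - c := by
    have h : (X 0 - X 2 : SS) ∣ DD θ (X 0 - X 2) := by
      apply dvd_DD (h := X 0 * (X 2 * ((X 0 + X 2) * (X 1 * ((X 1 - X 0) * QQ))))) prime_a
        (by unfold ff; ring) _ hθ
      exact not_dvd_of_eval ![1, 3, 1] (by simp) (by simp [QQ]; norm_num)
    rw [map_sub, DD_X, DD_X, ha, hc] at h
    have h' : (X 0 - X 2 : SS) ∣ X 0 * (a - c) := by
      have e : X 0 * (a - c) = (X 0 * a - X 2 * c) - (X 0 - X 2) * c := by ring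
      rw [e]; exact dvd_sub h (dvd_mul_right _ _)
    rcases prime_a.dvd_or_dvd h' with h3 | h3
    · exact absurd h3 (not_dvd_of_eval ![1, 1, 1] (by simp) (by simp))
    · exact h3
  have h2 : (X 0 + X 2 : SS) ∣ a - c := by
    have h : (X 0 + X 2 : SS) ∣ DD θ (X 0 + X 2) := by
      apply dvd_DD (h := X 0 * (X 2 * ((X 0 - X 2) * (X 1 * ((X 1 - X 0) * QQ))))) prime_b
        (by unfold ff; ring) _ hθ
      exact not_dvd_of_eval ![1, 3, -1] (by simp) (by simp [QQ]; norm_num)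
    rw [map_add, DD_X, DD_X, ha, hc] at h
    have h' : (X 0 + X 2 : SS) ∣ X 0 * (a - c) := by
      have e : X 0 * (a - c) = (X 0 * a + X 2 * c) - (X 0 + X 2) * c := by ring
      rw [e]; exact dvd_sub h (dvd_mul_right _ _)
    rcases prime_b.dvd_or_dvd h' with h3 | h3
    · exact absurd h3 (not_dvd_of_eval ![1, 1, -1] (by simp) (by simp))
    · exact h3
  obtain ⟨e, he⟩ : ∃ e, a - c = GG * e := by
    obtain ⟨k, hk⟩ := h1
    rw [hk] at h2
    rcases prime_b.dvd_or_dvd h2 with h3 | h3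
    · exact absurd h3 (not_dvd_of_eval ![1, 1, -1] (by simp) (by simp))
    · obtain ⟨l, hl⟩ := h3
      exact ⟨l, by rw [hk, hl]; unfold GG; ring⟩
  have h3 : (X 1 - X 0 : SS) ∣ b - a := by
    have h : (X 1 - X 0 : SS) ∣ DD θ (X 1 - X 0) := by
      apply dvd_DD (h := X 0 * (X 2 * ((X 0 - X 2) * ((X 0 + X 2) * (X 1 * QQ))))) prime_c
        (by unfold ff; ring) _ hθ
      exact not_dvd_of_eval ![2, 2, 1] (by simp) (by simp [QQ]; norm_num)
    rw [map_sub, DD_X, DD_X, ha, hb] at h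
    have h' : (X 1 - X 0 : SS) ∣ X 1 * (b - a) := by
      have e : X 1 * (b - a) = (X 1 * b - X 0 * a) - (X 1 - X 0) * a := by ring
      rw [e]; exact dvd_sub h (dvd_mul_right _ _)
    rcases prime_c.dvd_or_dvd h' with h3 | h3
    · exact absurd h3 (not_dvd_of_eval ![1, 1, 1] (by simp) (by simp))
    · exact h3
  obtain ⟨s, hs⟩ : QQ ∣ b + c - 2 * a := by
    have h : QQ ∣ DD θ QQ := by
      apply dvd_DD (h := X 0 * (X 2 * ((X 0 - X 2) * ((X 0 + X 2) * (X 1 * (X 1 - X 0)))))) prime_Q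
        (by unfold ff; ring) _ hθ
      exact not_dvd_of_eval ![2, 4, 1] (by simp [QQ]; norm_num) (by simp; norm_num)
    rw [DD_Q, ha, hb, hc] at h
    have h' : QQ ∣ X 1 * (X 2 * (b + c - 2 * a)) := by
      have e : X 1 * (X 2 * (b + c - 2 * a)) =
          (X 1 * (X 2 * c) + X 2 * (X 1 * b) - 2 * X 0 * (X 0 * a)) - QQ * (2 * a) := by
        unfold QQ; ring
      rw [e]; exact dvd_sub h (dvd_mul_right _ _)
    rcases prime_Q.dvd_or_dvd h' with h3 | h3
    · exact absurd h3 (not_dvd_of_eval ![1, 1, 1] (by simp [QQ]) (by simp))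
    · rcases prime_Q.dvd_or_dvd h3 with h4 | h4
      · exact absurd h4 (not_dvd_of_eval ![1, 1, 1] (by simp [QQ]) (by simp))
      · exact h4
  have hba : b - a = GG * e + QQ * s := by linear_combination hs + he
  rw [hba] at h3
  have h4 : (X 1 - X 0 : SS) ∣ (X 0 + X 2) * e - X 0 * s := by
    have h' : (X 1 - X 0 : SS) ∣ (X 0 - X 2) * ((X 0 + X 2) * e - X 0 * s) := by
      have e' : (X 0 - X 2) * ((X 0 + X 2) * e - X 0 * s)
          = (GG * e + QQ * s) - (X 1 - X 0) * (X 2 * s) := by unfold GG QQ; ring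
      rw [e']; exact dvd_sub h3 (dvd_mul_right _ _)
    rcases prime_c.dvd_or_dvd h' with h3 | h3
    · exact absurd h3 (not_dvd_of_eval ![1, 1, 2] (by simp) (by simp; norm_num))
    · exact h3
  obtain ⟨τ, hτ⟩ := h4
  obtain ⟨B, hB⟩ := dvd_sub_subst e
  have h5 : (X 0 : SS) ∣ aeval ![X 0, X 0, X 2] e := by
    have h6 := congrArg (aeval (![X 0, X 0, X 2] : Fin 3 → SS)) hτ
    simp only [map_sub, map_mul, map_add, aeval_X, Matrix.cons_val_zero, Matrix.cons_val_one,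
      Matrix.cons_val, sub_self, zero_mul] at h6
    have h7 : (X 0 : SS) ∣ (X 0 + X 2) * aeval ![X 0, X 0, X 2] e :=
      ⟨aeval ![X 0, X 0, X 2] s, by linear_combination h6⟩
    rcases px.dvd_or_dvd h7 with h8 | h8
    · exact absurd h8 (not_dvd_of_eval ![0, 0, 1] (by simp) (by simp))
    · exact h8
  obtain ⟨A, hA⟩ := h5
  have heA : e = X 0 * A + (X 1 - X 0) * B := by linear_combination hB + hA
  obtain ⟨D, hD⟩ : (X 1 - X 0 : SS) ∣ s - (X 0 + X 2) * A := by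
    have h' : (X 1 - X 0 : SS) ∣ X 0 * (s - (X 0 + X 2) * A) := by
      refine ⟨(X 0 + X 2) * B - τ, ?_⟩
      rw [heA] at hτ
      linear_combination - hτ
    rcases prime_c.dvd_or_dvd h' with h3 | h3
    · exact absurd h3 (not_dvd_of_eval ![1, 1, 2] (by simp) (by simp))
    · exact h3
  have hsD : s = (X 0 + X 2) * A + (X 1 - X 0) * D := by linear_combination hD
  refine ⟨A, B, D, c, ?_, ?_, hc⟩
  · rw [ha, ← heA]
    linear_combination X 0 * he
  · rw [hb, ← heA, ← hsD]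
    linear_combination X 1 * (hba + he)

/-- the three generators -/
noncomputable def g1 : Fin 3 → SS := gen (X 0) (X 0 + X 2) (X 2 * (X 0 + X 2))
noncomputable def g2 : Fin 3 → SS := gen (X 1 - X 0) 0 GG
noncomputable def g3 : Fin 3 → SS := gen 0 (X 1 - X 0) QQ

theorem g1_mem : g1 ∈ NN := gen_mem _ _ _ (by unfold GG QQ; ring)
theorem g2_mem : g2 ∈ NN := gen_mem _ _ _ (by ring)
theorem g3_mem : g3 ∈ NN := gen_mem _ _ _ (by ring)

theorem comb_eq (A B D : SS) : A • g1 + B • g2 + D • g3 =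
    gen (X 0 * A + (X 1 - X 0) * B) ((X 0 + X 2) * A + (X 1 - X 0) * D)
      (A * (X 2 * (X 0 + X 2)) + B * GG + D * QQ) := by
  funext i
  fin_cases i
  · simp only [g1, g2, g3, gen, hh, Pi.add_apply, Pi.smul_apply, smul_eq_mul, Fin.zero_eta,
      Matrix.cons_val_zero]
    ring
  · simp only [g1, g2, g3, gen, hh, Pi.add_apply, Pi.smul_apply, smul_eq_mul, Fin.mk_one,
      Matrix.cons_val_one, Matrix.cons_val_zero]
    ring
  · simp only [g1, g2, g3, gen, hh, Pi.add_apply, Pi.smul_apply, smul_eq_mul, Fin.reduceFinMk,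
      Matrix.cons_val]
    ring

theorem gens_span (θ : Fin 3 → SS) (hθ : θ ∈ NN) : ∃ A B D : SS,
    A • g1 + B • g2 + D • g3 = θ := by
  obtain ⟨A, B, D, c, h0, h1, h2⟩ := struct θ hθ
  refine ⟨A, B, D, ?_⟩
  have ht : GG * (X 0 * A + (X 1 - X 0) * B) + QQ * ((X 0 + X 2) * A + (X 1 - X 0) * D)
      = (X 1 - X 0) * (A * (X 2 * (X 0 + X 2)) + B * GG + D * QQ) := by
    unfold GG QQ; ring
  have h := DD_ff _ _ _ c ht θ h0 h1 h2
  rw [(mem_NN θ).1 hθ] at h
  have h8 : hh (X 0 * A + (X 1 - X 0) * B) ((X 0 + X 2) * A + (X 1 - X 0) * D)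
      (A * (X 2 * (X 0 + X 2)) + B * GG + D * QQ) + 8 * c = 0 := by
    rcases mul_eq_zero.1 h.symm with h9 | h9
    · exact h9
    · exact absurd h9 ff_sqfree.ne_zero
  have hc : c = - (C (1 / 8) * hh (X 0 * A + (X 1 - X 0) * B) ((X 0 + X 2) * A + (X 1 - X 0) * D)
      (A * (X 2 * (X 0 + X 2)) + B * GG + D * QQ)) := by
    linear_combination C (1 / 8) * h8 - c * C8
  rw [comb_eq]
  unfold gen
  rw [← neg_eq_iff_eq_neg.2 hc]
  funext i
  fin_cases i
  · simp only [Fin.zero_eta, Matrix.cons_val_zero]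
    rw [h0]; ring
  · simp only [Fin.mk_one, Matrix.cons_val_one, Matrix.cons_val_zero]
    rw [h1]; ring
  · simp only [Fin.reduceFinMk, Matrix.cons_val]
    rw [h2]; ring

theorem gens_rel (A B D : SS) (h : A • g1 + B • g2 + D • g3 = 0) :
    ∃ k : SS, A = k * (X 1 - X 0) ∧ B = k * (- X 0) ∧ D = k * (-(X 0 + X 2)) := by
  rw [comb_eq] at h
  have nx : (X 0 : SS) ≠ 0 := X_ne_zero 0
  have ny : (X 1 : SS) ≠ 0 := X_ne_zero 1
  have nz : (X 2 : SS) ≠ 0 := X_ne_zero 2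
  have h0 := congrFun h 0
  have h1 := congrFun h 1
  have h2 := congrFun h 2
  simp only [gen, Matrix.cons_val_zero, Matrix.cons_val_one, Matrix.cons_val, Pi.zero_apply]
    at h0 h1 h2
  generalize C (1 / 8) * hh (X 0 * A + (X 1 - X 0) * B) ((X 0 + X 2) * A + (X 1 - X 0) * D)
      (A * (X 2 * (X 0 + X 2)) + B * GG + D * QQ) = H at h0 h1 h2
  have hH : H = 0 := by
    rcases mul_eq_zero.1 (neg_eq_zero.1 h2) with h3 | h3
    · exact absurd h3 nz
    · exact h3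
  subst hH
  have hG : GG ≠ 0 := mul_ne_zero prime_a.ne_zero prime_b.ne_zero
  have he : X 0 * A + (X 1 - X 0) * B = 0 := by
    rcases mul_eq_zero.1 h0 with h3 | h3
    · exact absurd h3 nx
    · rw [sub_zero] at h3
      rcases mul_eq_zero.1 h3 with h4 | h4
      · exact absurd h4 hG
      · exact h4
  have hs : (X 0 + X 2) * A + (X 1 - X 0) * D = 0 := by
    rcases mul_eq_zero.1 h1 with h3 | h3
    · exact absurd h3 ny
    · rw [sub_zero, he, mul_zero, zero_add] at h3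
      rcases mul_eq_zero.1 h3 with h4 | h4
      · exact absurd h4 prime_Q.ne_zero
      · exact h4
  obtain ⟨k, hk⟩ : (X 1 - X 0 : SS) ∣ A := by
    have h' : (X 1 - X 0 : SS) ∣ X 0 * A := ⟨-B, by linear_combination he⟩
    rcases prime_c.dvd_or_dvd h' with h3 | h3
    · exact absurd h3 (not_dvd_of_eval ![1, 1, 2] (by simp) (by simp))
    · exact h3
  refine ⟨k, by rw [hk]; ring, ?_, ?_⟩
  · have h3 : (X 1 - X 0) * (B + k * X 0) = 0 := by
      rw [hk] at he; linear_combination he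
    rcases mul_eq_zero.1 h3 with h4 | h4
    · exact absurd h4 prime_c.ne_zero
    · linear_combination h4
  · have h3 : (X 1 - X 0) * (D + k * (X 0 + X 2)) = 0 := by
      rw [hk] at hs; linear_combination hs
    rcases mul_eq_zero.1 h3 with h4 | h4
    · exact absurd h4 prime_c.ne_zero
    · linear_combination h4

theorem rel_zero : (X 1 - X 0 : SS) • g1 + (- X 0 : SS) • g2 + (-(X 0 + X 2) : SS) • g3 = 0 := by
  rw [comb_eq]
  funext i
  have e1 : (X 0 * (X 1 - X 0) + (X 1 - X 0) * (- X 0) : SS) = 0 := by ring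
  have e2 : ((X 0 + X 2) * (X 1 - X 0) + (X 1 - X 0) * (-(X 0 + X 2)) : SS) = 0 := by ring
  have e3 : ((X 1 - X 0) * (X 2 * (X 0 + X 2)) + (- X 0) * GG + (-(X 0 + X 2)) * QQ : SS) = 0 := by
    unfold GG QQ; ring
  rw [e1, e2, e3]
  fin_cases i <;> simp [gen, hh]

theorem not_free : ¬ Module.Free SS NN := by
  intro hfree
  let π : (Fin 3 → SS) →ₗ[SS] NN :=
    Fintype.linearCombination SS (![⟨g1, g1_mem⟩, ⟨g2, g2_mem⟩, ⟨g3, g3_mem⟩] : Fin 3 → NN)
  have hπ : ∀ v : Fin 3 → SS, ((π v : NN) : Fin 3 → SS) = v 0 • g1 + v 1 • g2 + v 2 • g3 := by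
    intro v
    simp only [π, Fintype.linearCombination_apply, Fin.sum_univ_three]
    rfl
  have hsurj : Function.Surjective π := by
    rintro ⟨θ, hθ⟩
    obtain ⟨A, B, D, h⟩ := gens_span θ hθ
    refine ⟨![A, B, D], Subtype.ext ?_⟩
    rw [hπ]
    simpa using h
  obtain ⟨σ, hσ⟩ := Module.projective_lifting_property π (LinearMap.id : NN →ₗ[SS] NN) hsurj
  have hσ' : ∀ m : NN, π (σ m) = m := fun m => by
    have := congrArg (fun l : NN →ₗ[SS] NN => l m) hσ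
    simpa using this
  obtain ⟨r, hr⟩ : ∃ r : Fin 3 → SS, r = ![X 1 - X 0, - X 0, -(X 0 + X 2)] := ⟨_, rfl⟩
  have hπr : π r = 0 := by
    apply Subtype.ext
    rw [hπ, hr]
    exact rel_zero
  have hker : ∀ v : Fin 3 → SS, ∃ k : SS, v - σ (π v) = k • r := by
    intro v
    have h1 : π (v - σ (π v)) = 0 := by rw [map_sub, hσ', sub_self]
    have h2 := congrArg (fun z : NN => (z : Fin 3 → SS)) h1
    simp only [hπ] at h2
    obtain ⟨k, a, b, c⟩ := gens_rel _ _ _ h2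
    refine ⟨k, ?_⟩
    funext i
    rw [hr]
    fin_cases i
    · exact a
    · exact b
    · exact c
  obtain ⟨k0, hk0⟩ := hker (Pi.single 0 1)
  obtain ⟨k1, hk1⟩ := hker (Pi.single 1 1)
  obtain ⟨k2, hk2⟩ := hker (Pi.single 2 1)
  have hrs : r = r 0 • (Pi.single 0 1 : Fin 3 → SS) + r 1 • (Pi.single 1 1 : Fin 3 → SS)
      + r 2 • (Pi.single 2 1 : Fin 3 → SS) := by
    funext i
    fin_cases i <;> simp
  have h1 : r = (r 0 * k0 + r 1 * k1 + r 2 * k2) • r := by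
    have h2 : r = r - σ (π r) := by rw [hπr, map_zero, sub_zero]
    have h3 : r - σ (π r) = r 0 • ((Pi.single 0 1 : Fin 3 → SS) - σ (π (Pi.single 0 1)))
        + r 1 • ((Pi.single 1 1 : Fin 3 → SS) - σ (π (Pi.single 1 1)))
        + r 2 • ((Pi.single 2 1 : Fin 3 → SS) - σ (π (Pi.single 2 1))) := by
      conv_lhs => rw [hrs]
      simp only [map_add, map_smul]
      simp only [smul_sub]
      abel
    rw [hk0, hk1, hk2, smul_smul, smul_smul, smul_smul, ← add_smul, ← add_smul] at h3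
    rw [← h2] at h3
    exact h3
  have h4 := congrFun h1 0
  rw [Pi.smul_apply, smul_eq_mul] at h4
  have h5 : r 0 = X 1 - X 0 := by rw [hr]; rfl
  have h6 : r 1 = - X 0 := by rw [hr]; rfl
  have h7 : r 2 = -(X 0 + X 2) := by rw [hr]; rfl
  rw [h5, h6, h7] at h4
  have h8 : (X 1 - X 0 : SS) * ((X 1 - X 0) * k0 + (- X 0) * k1 + (-(X 0 + X 2)) * k2 - 1) = 0 := by
    linear_combination - h4
  rcases mul_eq_zero.1 h8 with h9 | h9
  · exact prime_c.ne_zero h9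
  · have h10 := congrArg (eval (0 : Fin 3 → ℂ)) h9
    simp at h10


end Algebra

/-- the projection from `(0 : 1 : 0)` -/
noncomputable def AA : (Fin 3 → ℂ) →ₗ[ℂ] (Fin 2 → ℂ) :=
  LinearMap.pi ![LinearMap.proj 0, LinearMap.proj 2]

theorem AA_apply (v : Fin 3 → ℂ) : AA v = ![v 0, v 2] := by
  funext i
  fin_cases i <;> simp [AA]

noncomputable def pp (q : Quotient (projectivizationSetoid ℂ (Fin 3 → ℂ))) :
    Quotient (projectivizationSetoid ℂ (Fin 2 → ℂ)) :=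
  open Classical in
  if h : AA q.out.1 ≠ 0 then
    Quotient.mk (projectivizationSetoid ℂ (Fin 2 → ℂ)) ⟨AA q.out.1, h⟩ else j1 0

theorem pp_mk (v : {v : Fin 3 → ℂ // v ≠ 0}) (w : {w : Fin 2 → ℂ // w ≠ 0}) (h : AA v.1 = w.1) :
    pp (Quotient.mk (projectivizationSetoid ℂ (Fin 3 → ℂ)) v) =
      Quotient.mk (projectivizationSetoid ℂ (Fin 2 → ℂ)) w := by
  obtain ⟨c, hc, h2⟩ := (mk_eq_iff 3
    (Quotient.mk (projectivizationSetoid ℂ (Fin 3 → ℂ)) v).out v).1 (Quotient.out_eq _)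
  have h3 : AA (Quotient.mk (projectivizationSetoid ℂ (Fin 3 → ℂ)) v).out.1 = c • w.1 := by
    rw [h2, map_smul, h]
  have h4 : AA (Quotient.mk (projectivizationSetoid ℂ (Fin 3 → ℂ)) v).out.1 ≠ 0 := by
    rw [h3]; exact smul_ne_zero hc w.2
  unfold pp
  rw [dif_pos h4]
  exact (mk_eq_iff 2 _ w).2 ⟨c, hc, h3⟩

theorem pp_j2 (t y : ℂ) : pp (j2 t y) = j1 t := by
  apply pp_mk
  rw [AA_apply]
  simp

theorem crd_j2_0 (t y : ℂ) : crd 3 0 2 (j2 t y) = t := by
  simp [crd, j2]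

theorem crd_j2_1 (t y : ℂ) : crd 3 1 2 (j2 t y) = y := by
  simp [crd, j2]

theorem crd_j1 (t : ℂ) : crd 2 0 1 (j1 t) = t := by
  simp [crd, j1]

theorem j1_inj {s t : ℂ} (h : j1 s = j1 t) : s = t := by
  rw [← crd_j1 s, h, crd_j1]

theorem eval_ff (v : Fin 3 → ℂ) : MvPolynomial.eval v ff =
    v 0 * (v 2 * ((v 0 - v 2) * ((v 0 + v 2) * (v 1 * ((v 1 - v 0) * (v 1 * v 2 - v 0 ^ 2)))))) := by
  simp [ff, QQ]

/-- the complement of the curve -/
def MM : Set (Quotient (projectivizationSetoid ℂ (Fin 3 → ℂ))) :=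
  {q | ∀ v : {v : Fin 3 → ℂ // v ≠ 0},
    Quotient.mk (projectivizationSetoid ℂ (Fin 3 → ℂ)) v = q → MvPolynomial.eval v.1 ff ≠ 0}

theorem mk_mem_MM (v : {v : Fin 3 → ℂ // v ≠ 0}) (h : MvPolynomial.eval v.1 ff ≠ 0) :
    Quotient.mk (projectivizationSetoid ℂ (Fin 3 → ℂ)) v ∈ MM := by
  intro w hw
  obtain ⟨c, hc, h2⟩ := (mk_eq_iff 3 w v).1 hw
  have : MvPolynomial.eval w.1 ff = c ^ 8 * MvPolynomial.eval v.1 ff := by
    rw [eval_ff, eval_ff, h2]
    simp only [Pi.smul_apply, smul_eq_mul]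
    ring
  rw [this]
  exact mul_ne_zero (pow_ne_zero _ hc) h

theorem j2_mem {t y : ℂ} (h0 : t ≠ 0) (h1 : t ≠ 1) (h2 : t ≠ -1) (h3 : y ≠ 0) (h4 : y ≠ t)
    (h5 : y ≠ t ^ 2) : j2 t y ∈ MM := by
  apply mk_mem_MM
  rw [eval_ff]
  simp only [Matrix.cons_val_zero, Matrix.cons_val_one, Matrix.cons_val]
  have e1 : t - 1 ≠ 0 := sub_ne_zero.2 h1
  have e2 : t + 1 ≠ 0 := fun h => h2 (by linear_combination h)
  have e3 : y - t ≠ 0 := sub_ne_zero.2 h4
  have e4 : y * 1 - t ^ 2 ≠ 0 := by rw [mul_one]; exact sub_ne_zero.2 h5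
  exact mul_ne_zero h0 (mul_ne_zero one_ne_zero (mul_ne_zero e1 (mul_ne_zero e2
    (mul_ne_zero h3 (mul_ne_zero e3 e4)))))

theorem exists_j2 {q : Quotient (projectivizationSetoid ℂ (Fin 3 → ℂ))} (hq : q ∈ MM) :
    ∃ t y : ℂ, q = j2 t y ∧ t ≠ 0 ∧ t ≠ 1 ∧ t ≠ -1 ∧ y ≠ 0 ∧ y ≠ t ∧ y ≠ t ^ 2 := by
  obtain ⟨v, rfl⟩ := Quotient.mk_surjective q
  have hv := hq v rfl
  rw [eval_ff] at hv
  simp only [mul_ne_zero_iff, sub_ne_zero] at hv
  obtain ⟨a0, a2, a3, a4, a5, a6, a7⟩ := hv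
  have hj : Quotient.mk (projectivizationSetoid ℂ (Fin 3 → ℂ)) v = j2 (v.1 0 / v.1 2) (v.1 1 / v.1 2) := by
    refine (mk_eq_iff 3 v _).2 ⟨v.1 2, a2, ?_⟩
    funext i
    fin_cases i
    · simp [mul_div_cancel₀ _ a2]
    · simp [mul_div_cancel₀ _ a2]
    · simp
  refine ⟨_, _, hj, div_ne_zero a0 a2, ?_, ?_, div_ne_zero a5 a2, ?_, ?_⟩
  · intro h; rw [div_eq_one_iff_eq a2] at h; exact a3 h
  · intro h
    rw [div_eq_iff a2] at h
    apply a4; rw [h]; ring
  · intro h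
    rw [div_left_inj' a2] at h
    exact a6 h
  · intro h
    rw [div_pow, div_eq_div_iff a2 (pow_ne_zero _ a2)] at h
    apply a7
    have : v.1 2 * (v.1 1 * v.1 2 - v.1 0 ^ 2) = 0 := by linear_combination h
    rcases mul_eq_zero.1 this with h3 | h3
    · exact absurd h3 a2
    · exact sub_eq_zero.1 h3

theorem crd_cont {q : Quotient (projectivizationSetoid ℂ (Fin 3 → ℂ))} (hq : q ∈ MM) (i : Fin 3) :
    ContinuousAt (crd 3 i 2) q := by
  obtain ⟨t, y, rfl, -⟩ := exists_j2 hq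
  apply crd_continuousAt
  simp

theorem crd_cont1 (t : ℂ) : ContinuousAt (crd 2 0 1) (j1 t) := by
  apply crd_continuousAt
  simp

theorem triv (b : Quotient (projectivizationSetoid ℂ (Fin 2 → ℂ))) (hb : b ∈ pp '' MM) :
    ∃ U : Set (Quotient (projectivizationSetoid ℂ (Fin 2 → ℂ))), IsOpen U ∧ b ∈ U ∧
       ∃ φ : ↥(MM ∩ pp ⁻¹' U) ≃ₜ (↥(U ∩ pp '' MM) × ↥(MM ∩ pp ⁻¹' {b})), ∀ x, (φ x).1.1 = pp x.1 := by
  obtain ⟨m, hm, rfl⟩ := hb
  obtain ⟨t0, y00, rfl, k0, k1, k2, -⟩ := exists_j2 hm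
  obtain ⟨δ, hδ, Ψ, H, hHΨ, hΨH, Ψ0, Ψ1, Ψt, cΨ, cH⟩ := bump t0 k0 k1
  -- the open set
  refine ⟨j1 '' {t | ‖t - t0‖ < δ}, j1_open _ ?_, ?_, ?_⟩
  · exact isOpen_lt (by fun_prop) continuous_const
  · rw [pp_j2]
    exact ⟨t0, by simpa using hδ, rfl⟩
  -- facts about points
  have fx : ∀ x : ↥(MM ∩ pp ⁻¹' (j1 '' {t | ‖t - t0‖ < δ})), ∃ t y : ℂ, x.1 = j2 t y ∧
      ‖t - t0‖ < δ ∧ t ≠ 0 ∧ t ≠ 1 ∧ t ≠ -1 ∧ y ≠ 0 ∧ y ≠ t ∧ y ≠ t ^ 2 := by
    rintro ⟨x, hx1, hx2⟩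
    obtain ⟨t, y, rfl, h⟩ := exists_j2 hx1
    refine ⟨t, y, rfl, ?_, h⟩
    obtain ⟨s, hs, hs2⟩ := hx2
    rw [pp_j2] at hs2
    rw [← j1_inj hs2]
    exact hs
  have fu : ∀ u : ↥(j1 '' {t | ‖t - t0‖ < δ} ∩ pp '' MM), ∃ t : ℂ, u.1 = j1 t ∧
      ‖t - t0‖ < δ ∧ t ≠ 0 ∧ t ≠ 1 ∧ t ≠ -1 := by
    rintro ⟨u, ⟨s, hs, rfl⟩, m, hm, hm2⟩
    obtain ⟨t, y, rfl, h0, h1, h2, -⟩ := exists_j2 hm
    rw [pp_j2] at hm2
    have := j1_inj hm2
    subst this
    exact ⟨t, rfl, hs, h0, h1, h2⟩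
  have fr : ∀ r : ↥(MM ∩ pp ⁻¹' {pp (j2 t0 y00)}), ∃ y : ℂ, r.1 = j2 t0 y ∧
      y ≠ 0 ∧ y ≠ t0 ∧ y ≠ t0 ^ 2 := by
    rintro ⟨r, hr1, hr2⟩
    obtain ⟨t, y, rfl, h0, h1, h2, h3⟩ := exists_j2 hr1
    rw [Set.mem_preimage, Set.mem_singleton_iff, pp_j2, pp_j2] at hr2
    have := j1_inj hr2
    subst this
    exact ⟨y, rfl, h3⟩
  have memH : ∀ t y : ℂ, ‖t - t0‖ < δ → t ≠ 0 → y ≠ 0 → y ≠ t → y ≠ t ^ 2 →
      j2 t0 (t0 * H t (y / t)) ∈ MM ∩ pp ⁻¹' {pp (j2 t0 y00)} := by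
    intro t y ht ht0 h3 h4 h5
    have e := hΨH t ht (y / t)
    refine ⟨j2_mem k0 k1 k2 ?_ ?_ ?_, ?_⟩
    · apply mul_ne_zero k0
      intro h
      rw [h, Ψ0] at e
      exact div_ne_zero h3 ht0 e.symm
    · intro h
      have h' : H t (y / t) = 1 := by
        have : t0 * (H t (y / t) - 1) = 0 := by linear_combination h
        rcases mul_eq_zero.1 this with h6 | h6
        · exact absurd h6 k0
        · exact sub_eq_zero.1 h6
      rw [h', Ψ1] at e
      exact h4 ((div_eq_one_iff_eq ht0).1 e.symm)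
    · intro h
      have h' : H t (y / t) = t0 := by
        have : t0 * (H t (y / t) - t0) = 0 := by linear_combination h
        rcases mul_eq_zero.1 this with h6 | h6
        · exact absurd h6 k0
        · exact sub_eq_zero.1 h6
      rw [h', Ψt, eq_div_iff ht0] at e
      exact h5 (by rw [← e]; ring)
    · rw [Set.mem_preimage, Set.mem_singleton_iff, pp_j2, pp_j2]
  have memΨ : ∀ t y : ℂ, ‖t - t0‖ < δ → t ≠ 0 → t ≠ 1 → t ≠ -1 → y ≠ 0 → y ≠ t0 → y ≠ t0 ^ 2 →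
      j2 t (t * Ψ t (y / t0)) ∈ MM ∩ pp ⁻¹' (j1 '' {t | ‖t - t0‖ < δ}) := by
    intro t y ht ht0 ht1 ht2 h3 h4 h5
    have e := hHΨ t ht (y / t0)
    refine ⟨j2_mem ht0 ht1 ht2 ?_ ?_ ?_, ?_⟩
    · apply mul_ne_zero ht0
      intro h
      rw [h, ← Ψ0 t, hHΨ t ht] at e
      exact div_ne_zero h3 k0 e.symm
    · intro h
      have h' : Ψ t (y / t0) = Ψ t 1 := by
        have : t * (Ψ t (y / t0) - 1) = 0 := by linear_combination h
        rw [Ψ1]
        rcases mul_eq_zero.1 this with h6 | h6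
        · exact absurd h6 ht0
        · exact sub_eq_zero.1 h6
      rw [h', hHΨ t ht] at e
      exact h4 ((div_eq_one_iff_eq k0).1 e.symm)
    · intro h
      have h' : Ψ t (y / t0) = Ψ t t0 := by
        have : t * (Ψ t (y / t0) - t) = 0 := by linear_combination h
        rw [Ψt]
        rcases mul_eq_zero.1 this with h6 | h6
        · exact absurd h6 ht0
        · exact sub_eq_zero.1 h6
      rw [h', hHΨ t ht, eq_div_iff k0] at e
      exact h5 (by rw [← e]; ring)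
    · rw [Set.mem_preimage, pp_j2]
      exact ⟨t, ht, rfl⟩
  have mem1 : ∀ x : ↥(MM ∩ pp ⁻¹' (j1 '' {t | ‖t - t0‖ < δ})),
      j2 t0 (t0 * H (crd 3 0 2 x.1) (crd 3 1 2 x.1 / crd 3 0 2 x.1)) ∈
        MM ∩ pp ⁻¹' {pp (j2 t0 y00)} := by
    intro x
    obtain ⟨t, y, hx, ht, h0, -, -, h3, h4, h5⟩ := fx x
    rw [hx, crd_j2_0, crd_j2_1]
    exact memH t y ht h0 h3 h4 h5
  have mem2 : ∀ z : ↥(j1 '' {t | ‖t - t0‖ < δ} ∩ pp '' MM) × ↥(MM ∩ pp ⁻¹' {pp (j2 t0 y00)}),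
      j2 (crd 2 0 1 z.1.1) (crd 2 0 1 z.1.1 * Ψ (crd 2 0 1 z.1.1) (crd 3 1 2 z.2.1 / t0)) ∈
        MM ∩ pp ⁻¹' (j1 '' {t | ‖t - t0‖ < δ}) := by
    rintro ⟨u, r⟩
    obtain ⟨t, hu, ht, h0, h1, h2⟩ := fu u
    obtain ⟨y, hr, h3, h4, h5⟩ := fr r
    simp only []
    rw [hu, hr, crd_j1, crd_j2_1]
    exact memΨ t y ht h0 h1 h2 h3 h4 h5
  refine ⟨{ toFun := fun x => (⟨pp x.1, x.2.2, ⟨x.1, x.2.1, rfl⟩⟩, ⟨_, mem1 x⟩)
            invFun := fun z => ⟨_, mem2 z⟩
            left_inv := ?_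
            right_inv := ?_
            continuous_toFun := ?_
            continuous_invFun := ?_ }, fun x => rfl⟩
  · intro x
    apply Subtype.ext
    obtain ⟨t, y, hx, ht, h0, -, -, h3, h4, h5⟩ := fx x
    simp only [hx, pp_j2, crd_j1, crd_j2_0, crd_j2_1]
    rw [mul_div_cancel_left₀ _ k0, hΨH t ht, mul_div_cancel₀ _ h0]
  · rintro ⟨u, r⟩
    obtain ⟨t, hu, ht, h0, h1, h2⟩ := fu u
    obtain ⟨y, hr, h3, h4, h5⟩ := fr r
    refine Prod.ext (Subtype.ext ?_) (Subtype.ext ?_)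
    · simp only [hu, hr, pp_j2, crd_j1, crd_j2_0, crd_j2_1]
    · simp only [hu, hr, pp_j2, crd_j1, crd_j2_0, crd_j2_1]
      rw [mul_div_cancel_left₀ _ h0, hHΨ t ht, mul_div_cancel₀ _ k0]
  · have c0 : Continuous (fun x : ↥(MM ∩ pp ⁻¹' (j1 '' {t | ‖t - t0‖ < δ})) => crd 3 0 2 x.1) := by
      rw [continuous_iff_continuousAt]
      intro x
      exact (crd_cont x.2.1 0).comp continuous_subtype_val.continuousAt
    have c1 : Continuous (fun x : ↥(MM ∩ pp ⁻¹' (j1 '' {t | ‖t - t0‖ < δ})) => crd 3 1 2 x.1) := by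
      rw [continuous_iff_continuousAt]
      intro x
      exact (crd_cont x.2.1 1).comp continuous_subtype_val.continuousAt
    have cne : ∀ x : ↥(MM ∩ pp ⁻¹' (j1 '' {t | ‖t - t0‖ < δ})), crd 3 0 2 x.1 ≠ 0 := by
      intro x
      obtain ⟨t, y, hx, ht, h0, -⟩ := fx x
      rw [hx, crd_j2_0]
      exact h0
    refine Continuous.prodMk (Continuous.subtype_mk ?_ _) (Continuous.subtype_mk ?_ _)
    · have e : (fun x : ↥(MM ∩ pp ⁻¹' (j1 '' {t | ‖t - t0‖ < δ})) => pp x.1)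
          = fun x => j1 (crd 3 0 2 x.1) := by
        funext x
        obtain ⟨t, y, hx, -⟩ := fx x
        rw [hx, pp_j2, crd_j2_0]
      rw [e]
      exact j1_continuous.comp c0
    · have cH2 : Continuous (fun x : ↥(MM ∩ pp ⁻¹' (j1 '' {t | ‖t - t0‖ < δ})) =>
          H (crd 3 0 2 x.1) (crd 3 1 2 x.1 / crd 3 0 2 x.1)) := by
        refine cH.comp_continuous (f := fun x : ↥(MM ∩ pp ⁻¹' (j1 '' {t | ‖t - t0‖ < δ})) =>
          (crd 3 0 2 x.1, crd 3 1 2 x.1 / crd 3 0 2 x.1)) (c0.prodMk (c1.div c0 cne)) ?_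
        intro x
        obtain ⟨t, y, hx, ht, -⟩ := fx x
        show ‖crd 3 0 2 x.1 - t0‖ < δ
        rw [hx, crd_j2_0]
        exact ht
      exact j2_continuous.comp (continuous_const.prodMk (continuous_const.mul cH2))
  · have c0 : Continuous (fun z : ↥(j1 '' {t | ‖t - t0‖ < δ} ∩ pp '' MM) ×
        ↥(MM ∩ pp ⁻¹' {pp (j2 t0 y00)}) => crd 2 0 1 z.1.1) := by
      rw [continuous_iff_continuousAt]
      intro z
      obtain ⟨t, hu, -⟩ := fu z.1
      have h1 : ContinuousAt (crd 2 0 1) z.1.1 := by rw [hu]; exact crd_cont1 t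
      exact ContinuousAt.comp (g := crd 2 0 1) (f := fun z : ↥(j1 '' {t | ‖t - t0‖ < δ} ∩ pp '' MM) ×
        ↥(MM ∩ pp ⁻¹' {pp (j2 t0 y00)}) => z.1.1) h1
        (continuous_subtype_val.comp continuous_fst).continuousAt
    have c1 : Continuous (fun z : ↥(j1 '' {t | ‖t - t0‖ < δ} ∩ pp '' MM) ×
        ↥(MM ∩ pp ⁻¹' {pp (j2 t0 y00)}) => crd 3 1 2 z.2.1) := by
      rw [continuous_iff_continuousAt]
      intro z
      exact ContinuousAt.comp (g := crd 3 1 2) (f := fun z : ↥(j1 '' {t | ‖t - t0‖ < δ} ∩ pp '' MM) ×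
        ↥(MM ∩ pp ⁻¹' {pp (j2 t0 y00)}) => z.2.1) (crd_cont z.2.2.1 1)
        (continuous_subtype_val.comp continuous_snd).continuousAt
    refine Continuous.subtype_mk ?_ _
    have cΨ2 := cΨ.comp (c0.prodMk (c1.div_const t0))
    exact j2_continuous.comp (c0.prodMk (c0.mul cΨ2))

theorem ker_AA : LinearMap.ker AA = Submodule.span ℂ {(![0, 1, 0] : Fin 3 → ℂ)} := by
  ext v
  rw [LinearMap.mem_ker, AA_apply, Submodule.mem_span_singleton]
  constructor
  · intro h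
    have h0 := congrFun h 0
    have h1 := congrFun h 1
    simp at h0 h1
    refine ⟨v 1, ?_⟩
    funext i
    fin_cases i
    · simp [h0]
    · simp
    · simp [h1]
  · rintro ⟨c, rfl⟩
    funext i
    fin_cases i <;> simp


/-- The negation of the preceding statement: If f is a squarefree homogeneous form of positive degree in 3 variables and C = V(f) has a point p where projection from p makes the complement of C locally trivially fibred over its image in P^1, then the syzygies of the partials of f form a free module. -/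
theorem result :
    ¬ (∀ (f : MvPolynomial (Fin 3) ℂ) (d : ℕ), 0 < d → f.IsHomogeneous d → Squarefree f →
  (∃ (p : Fin 3 → ℂ) (A : (Fin 3 → ℂ) →ₗ[ℂ] (Fin 2 → ℂ))
     (π : Quotient (projectivizationSetoid ℂ (Fin 3 → ℂ)) → Quotient (projectivizationSetoid ℂ (Fin 2 → ℂ)))
     (M : Set (Quotient (projectivizationSetoid ℂ (Fin 3 → ℂ)))),
     p ≠ 0 ∧ MvPolynomial.eval p f = 0 ∧ LinearMap.ker A = Submodule.span ℂ {p} ∧
     (∀ (v : {v : Fin 3 → ℂ // v ≠ 0}) (w : {w : Fin 2 → ℂ // w ≠ 0}), A v.1 = w.1 →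
        π (Quotient.mk (projectivizationSetoid ℂ (Fin 3 → ℂ)) v) =
          Quotient.mk (projectivizationSetoid ℂ (Fin 2 → ℂ)) w) ∧
     M = {q | ∀ v : {v : Fin 3 → ℂ // v ≠ 0},
            Quotient.mk (projectivizationSetoid ℂ (Fin 3 → ℂ)) v = q → MvPolynomial.eval v.1 f ≠ 0} ∧
     ∀ b ∈ π '' M, ∃ U : Set (Quotient (projectivizationSetoid ℂ (Fin 2 → ℂ))), IsOpen U ∧ b ∈ U ∧
       ∃ φ : ↥(M ∩ π ⁻¹' U) ≃ₜ (↥(U ∩ π '' M) × ↥(M ∩ π ⁻¹' {b})), ∀ x, (φ x).1.1 = π x.1) →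
  Module.Free (MvPolynomial (Fin 3) ℂ)
    ↥(LinearMap.ker (Matrix.mulVecLin
        (Matrix.of fun (_ : Fin 1) (i : Fin 3) => MvPolynomial.pderiv i f)))) := by
  intro hall
  refine not_free (hall ff 8 (by norm_num) ff_hom ff_sqfree ?_)
  refine ⟨![0, 1, 0], AA, pp, MM, ?_, ?_, ker_AA, pp_mk, rfl, triv⟩
  · intro h
    have := congrFun h 1
    simp at this
  · rw [eval_ff]
    simp

end Pool.Agent.S00150
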