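import Pool.Statements.S00188

set_option autoImplicit false
open AlgebraicGeometry CategoryTheory CategoryTheory.Limits
open Pool Pool.MP_e97ce4_ag

namespace Pool.Agent.S00188

section Helpers

open Opposite MvPolynomial


theorem res_res {Y : Scheme.{0}} {U V W : Y.Opens} (h1 : U ≤ V) (h2 : V ≤ W) (h3 : U ≤ W) (s : Γ(Y, W)) :
    Y.presheaf.map (homOfLE h1).op (Y.presheaf.map (homOfLE h2).op s) =
      Y.presheaf.map (homOfLE h3).op s := by
  rw [← CategoryTheory.ConcreteCategory.comp_apply, ← Y.presheaf.map_comp]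
  rfl

theorem hartogs {Y : Scheme.{0}} [IsAffine Y] (a b : Γ(Y, ⊤))
    (ha : ∀ f : Γ(Y, ⊤), a * f = 0 → f = 0) (hb : ∀ f : Γ(Y, ⊤), b * f = 0 → f = 0)
    (h : ∀ (n m : ℕ) (f g : Γ(Y, ⊤)), b ^ m * f = a ^ n * g → ∃ k, f = a ^ n * k)
    (W : Y.Opens) (hW : W = Y.basicOpen a ⊔ Y.basicOpen b) :
    Function.Bijective (Y.presheaf.map (homOfLE le_top : W ⟶ ⊤).op) := by
  have hla := (isAffineOpen_top Y).isLocalization_basicOpen a
  have hlb := (isAffineOpen_top Y).isLocalization_basicOpen b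
  have hlab := (isAffineOpen_top Y).isLocalization_basicOpen (a * b)
  have hpa : ∀ (n : ℕ) (f : Γ(Y, ⊤)), a ^ n * f = 0 → f = 0 := by
    intro n
    induction n with
    | zero => intro f hf; simpa using hf
    | succ n ih =>
      intro f hf
      apply ih
      apply ha
      rw [← hf]; ring
  have hpb : ∀ (n : ℕ) (f : Γ(Y, ⊤)), b ^ n * f = 0 → f = 0 := by
    intro n
    induction n with
    | zero => intro f hf; simpa using hf
    | succ n ih =>
      intro f hf
      apply ih
      apply hb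
      rw [← hf]; ring
  have leA : Y.basicOpen a ≤ W := hW ▸ le_sup_left
  have leB : Y.basicOpen b ≤ W := hW ▸ le_sup_right
  have inja : ∀ s : Γ(Y, ⊤), Y.presheaf.map (homOfLE le_top : Y.basicOpen a ⟶ ⊤).op s = 0 → s = 0 := by
    intro s hs
    have h0 : algebraMap Γ(Y, ⊤) Γ(Y, Y.basicOpen a) s = algebraMap Γ(Y, ⊤) Γ(Y, Y.basicOpen a) 0 := by
      rw [map_zero]; exact hs
    obtain ⟨⟨_, n, rfl⟩, hc⟩ := (IsLocalization.eq_iff_exists (Submonoid.powers a) _).1 h0
    simp only [mul_zero] at hc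
    exact hpa n s hc
  have injab : ∀ s : Γ(Y, ⊤), Y.presheaf.map (homOfLE le_top : Y.basicOpen (a * b) ⟶ ⊤).op s = 0 → s = 0 := by
    intro s hs
    have h0 : algebraMap Γ(Y, ⊤) Γ(Y, Y.basicOpen (a * b)) s = algebraMap Γ(Y, ⊤) Γ(Y, Y.basicOpen (a * b)) 0 := by
      rw [map_zero]; exact hs
    obtain ⟨⟨_, n, rfl⟩, hc⟩ := (IsLocalization.eq_iff_exists (Submonoid.powers (a * b)) _).1 h0
    simp only [mul_zero, mul_pow, mul_assoc] at hc
    exact hpb n s (hpa n _ hc)
  constructor
  · rw [injective_iff_map_eq_zero]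
    intro s hs
    apply inja
    rw [← res_res leA le_top le_top]
    rw [hs, map_zero]
  · intro t
    obtain ⟨⟨f, ⟨_, n, rfl⟩⟩, hf⟩ := IsLocalization.surj (Submonoid.powers a)
      (Y.presheaf.map (homOfLE leA).op t)
    obtain ⟨⟨g, ⟨_, m, rfl⟩⟩, hg⟩ := IsLocalization.surj (Submonoid.powers b)
      (Y.presheaf.map (homOfLE leB).op t)
    change Y.presheaf.map (homOfLE leA).op t * Y.presheaf.map (homOfLE le_top).op (a ^ n) = Y.presheaf.map (homOfLE le_top).op f at hf
    change Y.presheaf.map (homOfLE leB).op t * Y.presheaf.map (homOfLE le_top).op (b ^ m) = Y.presheaf.map (homOfLE le_top).op g at hg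
    have leabA : Y.basicOpen (a * b) ≤ Y.basicOpen a := by
      rw [Scheme.basicOpen_mul]; exact inf_le_left
    have leabB : Y.basicOpen (a * b) ≤ Y.basicOpen b := by
      rw [Scheme.basicOpen_mul]; exact inf_le_right
    have hf' := congrArg (Y.presheaf.map (homOfLE leabA).op) hf
    have hg' := congrArg (Y.presheaf.map (homOfLE leabB).op) hg
    rw [map_mul, res_res leabA leA (leabA.trans leA), res_res _ _ le_top, res_res _ _ le_top] at hf'
    rw [map_mul, res_res leabB leB (leabA.trans leA), res_res _ _ le_top, res_res _ _ le_top] at hg'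
    have key : b ^ m * f = a ^ n * g := by
      rw [← sub_eq_zero]
      apply injab
      rw [map_sub, map_mul, map_mul, ← hf', ← hg']
      ring
    obtain ⟨k, hk⟩ := h n m f g key
    have hk' : g = b ^ m * k := by
      rw [← sub_eq_zero]
      apply hpa n
      rw [mul_sub, ← key, hk]; ring
    refine ⟨k, ?_⟩
    have ua : IsUnit (Y.presheaf.map (homOfLE le_top : Y.basicOpen a ⟶ ⊤).op (a ^ n)) := by
      rw [map_pow]
      exact (IsLocalization.Away.algebraMap_isUnit (S := Γ(Y, Y.basicOpen a)) a).pow n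
    have ub : IsUnit (Y.presheaf.map (homOfLE le_top : Y.basicOpen b ⟶ ⊤).op (b ^ m)) := by
      rw [map_pow]
      exact (IsLocalization.Away.algebraMap_isUnit (S := Γ(Y, Y.basicOpen b)) b).pow m
    refine TopCat.Sheaf.eq_of_locally_eq₂ Y.sheaf (homOfLE leA) (homOfLE leB) (hW ▸ le_rfl) _ _ ?_ ?_
    · change Y.presheaf.map (homOfLE leA).op _ = Y.presheaf.map (homOfLE leA).op _
      rw [res_res leA le_top le_top]
      apply ua.mul_right_cancel
      rw [hf, ← map_mul, hk]; congr 1; ring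
    · change Y.presheaf.map (homOfLE leB).op _ = Y.presheaf.map (homOfLE leB).op _
      rw [res_res leB le_top le_top]
      apply ub.mul_right_cancel
      rw [hg, ← map_mul, hk']; congr 1; ring

noncomputable section

abbrev R := MvPolynomial (Fin 2) ℂ
abbrev B0 := MvPolynomial (Fin 2) R
def dd : B0 := C (X 1) * X 0 - C (X 0) * X 1
def gg : Polynomial B0 := Polynomial.X ^ 2 - Polynomial.C dd
abbrev A := AdjoinRoot gg

def uu : A := AdjoinRoot.root gg
def pp : A := algebraMap B0 A (X 0)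
def qq : A := algebraMap B0 A (X 1)

theorem uu_sq : uu ^ 2 = algebraMap R A (X 1) * pp - algebraMap R A (X 0) * qq := by
  have h : Polynomial.eval₂ (AdjoinRoot.of gg) (AdjoinRoot.root gg) gg = 0 := AdjoinRoot.eval₂_root gg
  unfold gg at h
  rw [Polynomial.eval₂_sub, Polynomial.eval₂_pow, Polynomial.eval₂_X, Polynomial.eval₂_C] at h
  have h2 := sub_eq_zero.1 h
  change uu ^ 2 = algebraMap B0 A dd at h2
  refine Eq.trans h2 ?_
  rw [dd, map_sub, map_mul, map_mul]
  rfl

def liftA {T : Type*} [CommRing T] (α : R →+* T) (u p q : T) (h : u ^ 2 = α (X 1) * p - α (X 0) * q) :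
    A →+* T :=
  AdjoinRoot.lift (eval₂Hom α ![p, q]) u (by
    simp [gg, dd, h])

theorem liftA_u {T : Type*} [CommRing T] (α : R →+* T) (u p q : T) (h : u ^ 2 = α (X 1) * p - α (X 0) * q) :
    liftA α u p q h uu = u := by
  simp [liftA, uu]

theorem liftA_p {T : Type*} [CommRing T] (α : R →+* T) (u p q : T) (h : u ^ 2 = α (X 1) * p - α (X 0) * q) :
    liftA α u p q h pp = p := by
  have : pp = AdjoinRoot.of gg (X 0) := rfl
  rw [this, liftA, AdjoinRoot.lift_of]
  simp

theorem liftA_q {T : Type*} [CommRing T] (α : R →+* T) (u p q : T) (h : u ^ 2 = α (X 1) * p - α (X 0) * q) :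
    liftA α u p q h qq = q := by
  have : qq = AdjoinRoot.of gg (X 1) := rfl
  rw [this, liftA, AdjoinRoot.lift_of]
  simp

theorem liftA_R {T : Type*} [CommRing T] (α : R →+* T) (u p q : T) (h : u ^ 2 = α (X 1) * p - α (X 0) * q)
    (r : R) : liftA α u p q h (algebraMap R A r) = α r := by
  have : algebraMap R A r = AdjoinRoot.of gg (C r) := rfl
  rw [this, liftA, AdjoinRoot.lift_of]
  simp

theorem extA {T : Type*} [CommRing T] (f g : A →+* T) (hR : ∀ r, f (algebraMap R A r) = g (algebraMap R A r))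
    (hu : f uu = g uu) (hp : f pp = g pp) (hq : f qq = g qq) : f = g := by
  apply AdjoinRoot.ringHom_ext
  · apply MvPolynomial.ringHom_ext
    · intro r; exact hR r
    · intro i
      fin_cases i
      · exact hp
      · exact hq
  · exact hu

theorem gg_monic : gg.Monic := Polynomial.monic_X_pow_sub_C dd (by norm_num)

instance : Module.Free B0 A := gg_monic.free_adjoinRoot
instance : Module.Free R A := Module.Free.trans (S := B0)

theorem free_key {R M : Type*} [CommRing R] [IsDomain R] [CommRing M] [Algebra R M] [Module.Free R M]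
    {x y : R} (hx : Prime x) (hxy : ¬ x ∣ y) (n m : ℕ) (f g : M)
    (h : algebraMap R M y ^ m * f = algebraMap R M x ^ n * g) : ∃ k, f = algebraMap R M x ^ n * k := by
  classical
  let b := Module.Free.chooseBasis R M
  have hc : ∀ i, x ^ n ∣ b.repr f i := by
    intro i
    have h1 : b.repr (y ^ m • f) i = b.repr (x ^ n • g) i := by
      rw [Algebra.smul_def, Algebra.smul_def, map_pow, map_pow, h]
    rw [map_smul, map_smul, Finsupp.smul_apply, Finsupp.smul_apply, smul_eq_mul, smul_eq_mul] at h1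
    apply hx.pow_dvd_of_dvd_mul_left n (a := y ^ m) (fun hd => hxy (hx.dvd_of_dvd_pow hd))
    exact ⟨_, h1⟩
  let F : R → R := fun r => if hr : x ^ n ∣ r then hr.choose else 0
  have hF : ∀ r, x ^ n ∣ r → r = x ^ n * F r := by
    intro r hr
    simp only [F, dif_pos hr]
    exact hr.choose_spec
  have hF0 : F 0 = 0 := by
    have := hF 0 (dvd_zero _)
    rcases mul_eq_zero.1 this.symm with h1 | h1
    · exact absurd h1 (pow_ne_zero _ hx.ne_zero)
    · exact h1
  refine ⟨b.repr.symm ((b.repr f).mapRange F hF0), ?_⟩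
  rw [← map_pow, ← Algebra.smul_def]
  apply b.repr.injective
  rw [map_smul, LinearEquiv.apply_symm_apply]
  ext i
  rw [Finsupp.smul_apply, Finsupp.mapRange_apply, smul_eq_mul]
  exact hF _ (hc i)

theorem free_nzd {R M : Type*} [CommRing R] [IsDomain R] [CommRing M] [Algebra R M] [Module.Free R M]
    {x : R} (hx : x ≠ 0) (f : M) (h : algebraMap R M x * f = 0) : f = 0 := by
  rw [← Algebra.smul_def] at h
  rcases smul_eq_zero.1 h with h1 | h1
  · exact absurd h1 hx
  · exact h1

def toDual : A →+* DualNumber ℂ :=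
  AdjoinRoot.lift (eval₂Hom ((algebraMap ℂ (DualNumber ℂ)).comp (eval (0 : Fin 2 → ℂ))) (0 : Fin 2 → DualNumber ℂ))
    DualNumber.eps (by
      simp [gg, dd, pow_two, DualNumber.eps_mul_eps])

theorem toDual_uu : toDual uu = DualNumber.eps := by
  simp [toDual, uu]

theorem toDual_x (i : Fin 2) : toDual (algebraMap R A (X i)) = 0 := by
  have : algebraMap R A (X i) = AdjoinRoot.of gg (C (X i)) := rfl
  rw [this, toDual, AdjoinRoot.lift_of]
  simp

theorem mem_of_sq (f : MvPolynomial (Fin 2) R) (hf : f ^ 2 ∈ Ideal.span {C (X 0 : R), C (X 1 : R)}) :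
    f ∈ Ideal.span ({C (X 0 : R), C (X 1 : R)} : Set (MvPolynomial (Fin 2) R)) := by
  have hk : RingHom.ker (MvPolynomial.map (constantCoeff : R →+* ℂ) : MvPolynomial (Fin 2) R →+* _) =
      Ideal.span ({C (X 0 : R), C (X 1 : R)} : Set (MvPolynomial (Fin 2) R)) := by
    rw [MvPolynomial.ker_map]
    have : RingHom.ker (constantCoeff : R →+* ℂ) = Ideal.span {X 0, X 1} := by
      have hr : Set.range (X : Fin 2 → R) = {X 0, X 1} := by
        ext z
        simp only [Set.mem_range, Fin.exists_fin_two, Set.mem_insert_iff, Set.mem_singleton_iff]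
        constructor
        · rintro (h | h) <;> simp [h]
        · rintro (h | h) <;> simp [h]
      rw [← hr]
      ext z
      rw [RingHom.mem_ker, ← pow_one (Ideal.span _), MvPolynomial.mem_pow_idealOfVars_iff']
      constructor
      · intro h s hs
        have : s = 0 := by
          rw [Nat.lt_one_iff, Finsupp.degree_eq_zero_iff] at hs
          exact hs
        rw [this]; exact h
      · intro h
        exact h 0 (by simp)
    rw [this, Ideal.map_span, Set.image_pair]
  rw [← hk] at hf ⊢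
  rw [RingHom.mem_ker] at hf ⊢
  rw [map_pow] at hf
  exact pow_eq_zero_iff (two_ne_zero) |>.1 hf

theorem no_iso (e : A ≃+* MvPolynomial (Fin 2) R) (he : ∀ r : R, e (algebraMap R A r) = C r) : False := by
  have h1 : (e uu) ^ 2 ∈ Ideal.span ({C (X 0 : R), C (X 1 : R)} : Set (MvPolynomial (Fin 2) R)) := by
    rw [← map_pow, uu_sq, map_sub, map_mul, map_mul, he, he]
    apply Ideal.sub_mem
    · exact Ideal.mul_mem_right _ _ (Ideal.subset_span (by simp))
    · exact Ideal.mul_mem_right _ _ (Ideal.subset_span (by simp))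
  have h2 := mem_of_sq _ h1
  rw [Ideal.mem_span_pair] at h2
  obtain ⟨f, g, hfg⟩ := h2
  have h3 : uu = e.symm f * algebraMap R A (X 0) + e.symm g * algebraMap R A (X 1) := by
    apply e.injective
    rw [map_add, map_mul, map_mul, he, he, ← hfg]
    simp
  have h4 := congrArg toDual h3
  rw [map_add, map_mul, map_mul, toDual_uu, toDual_x, toDual_x, mul_zero, mul_zero, add_zero] at h4
  have h5 := congrArg TrivSqZeroExt.snd h4
  simp at h5
/-- pushout square for the chart `x ≠ 0` -/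
theorem push0 (S : Type) [CommRing S] [Algebra R S] (hS : IsUnit (algebraMap R S (X 0)))
    : ∃ φ : A →+* MvPolynomial (Fin 2) S,
      IsPushout (CommRingCat.ofHom (algebraMap R S)) (CommRingCat.ofHom (algebraMap R A))
       (CommRingCat.ofHom (C : S →+* MvPolynomial (Fin 2) S)) (CommRingCat.ofHom φ) := by
  obtain ⟨v, hv⟩ := hS.exists_right_inv
  have hv' : (C (algebraMap R S (X 0)) : MvPolynomial (Fin 2) S) * C v = 1 := by
    rw [← map_mul, hv, map_one]
  have hrel : (X 0 : MvPolynomial (Fin 2) S) ^ 2 = ((C : S →+* MvPolynomial (Fin 2) S).comp (algebraMap R S)) (X 1) * X 1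
      - ((C : S →+* MvPolynomial (Fin 2) S).comp (algebraMap R S)) (X 0) *
        (C v * (C (algebraMap R S (X 1)) * X 1 - X 0 ^ 2)) := by
    simp only [RingHom.comp_apply]
    rw [← mul_assoc, hv']
    ring
  refine ⟨liftA _ _ _ _ hrel, ⟨⟨?_⟩, ⟨?_⟩⟩⟩
  · ext r
    · simp [liftA_R]
    · simp [liftA_R]
  · refine PushoutCocone.IsColimit.mk _
      (fun s => CommRingCat.ofHom (eval₂Hom s.inl.hom ![s.inr.hom uu, s.inr.hom pp])) ?_ ?_ ?_
    · intro s
      ext r
      simp
    · intro s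
      have hc : ∀ r, s.inl.hom (algebraMap R S r) = s.inr.hom (algebraMap R A r) := by
        intro r
        exact congr($(s.condition).hom r)
      ext : 1
      apply extA
      · intro r
        simp [liftA_R, hc]
      · simp [liftA_u]
      · simp [liftA_p]
      · simp only [CommRingCat.hom_comp, CommRingCat.hom_ofHom, RingHom.comp_apply, liftA_q]
        have h1 := congrArg s.inr.hom uu_sq
        rw [map_sub, map_mul, map_mul, map_pow] at h1
        simp [hc, h1, ← mul_assoc]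
        rw [← hc (X 0), ← map_mul, mul_comm v, hv, map_one, one_mul]
    · intro s m h1 h2
      ext : 1
      apply MvPolynomial.ringHom_ext
      · intro r
        simpa using congr($(h1).hom r)
      · intro i
        fin_cases i
        · simpa [liftA_u] using congr($(h2).hom uu)
        · simpa [liftA_p] using congr($(h2).hom pp)

/-- pushout square for the chart `y ≠ 0` -/
theorem push1 (S : Type) [CommRing S] [Algebra R S] (hS : IsUnit (algebraMap R S (X 1)))
    : ∃ φ : A →+* MvPolynomial (Fin 2) S,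
      IsPushout (CommRingCat.ofHom (algebraMap R S)) (CommRingCat.ofHom (algebraMap R A))
       (CommRingCat.ofHom (C : S →+* MvPolynomial (Fin 2) S)) (CommRingCat.ofHom φ) := by
  obtain ⟨v, hv⟩ := hS.exists_right_inv
  have hv' : (C (algebraMap R S (X 1)) : MvPolynomial (Fin 2) S) * C v = 1 := by
    rw [← map_mul, hv, map_one]
  have hrel : (X 0 : MvPolynomial (Fin 2) S) ^ 2 = ((C : S →+* MvPolynomial (Fin 2) S).comp (algebraMap R S)) (X 1) *
        (C v * (C (algebraMap R S (X 0)) * X 1 + X 0 ^ 2))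
      - ((C : S →+* MvPolynomial (Fin 2) S).comp (algebraMap R S)) (X 0) * X 1 := by
    simp only [RingHom.comp_apply]
    rw [← mul_assoc, hv']
    ring
  refine ⟨liftA _ _ _ _ hrel, ⟨⟨?_⟩, ⟨?_⟩⟩⟩
  · ext r
    · simp [liftA_R]
    · simp [liftA_R]
  · refine PushoutCocone.IsColimit.mk _
      (fun s => CommRingCat.ofHom (eval₂Hom s.inl.hom ![s.inr.hom uu, s.inr.hom qq])) ?_ ?_ ?_
    · intro s
      ext r
      simp
    · intro s
      have hc : ∀ r, s.inl.hom (algebraMap R S r) = s.inr.hom (algebraMap R A r) := by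
        intro r
        exact congr($(s.condition).hom r)
      ext : 1
      apply extA
      · intro r
        simp [liftA_R, hc]
      · simp [liftA_u]
      · simp only [CommRingCat.hom_comp, CommRingCat.hom_ofHom, RingHom.comp_apply, liftA_p]
        have h1 := congrArg s.inr.hom uu_sq
        rw [map_sub, map_mul, map_mul, map_pow] at h1
        simp [hc, h1, ← mul_assoc]
        rw [← hc (X 1), ← map_mul, mul_comm v, hv, map_one, one_mul]
      · simp [liftA_q]
    · intro s m h1 h2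
      ext : 1
      apply MvPolynomial.ringHom_ext
      · intro r
        simpa using congr($(h1).hom r)
      · intro i
        fin_cases i
        · simpa [liftA_u] using congr($(h2).hom uu)
        · simpa [liftA_q] using congr($(h2).hom qq)

theorem pushC (S : Type) [CommRing S] [Algebra ℂ S] :
    IsPushout (CommRingCat.ofHom (algebraMap ℂ S)) (CommRingCat.ofHom (algebraMap ℂ (MvPolynomial (Fin 2) ℂ)))
      (CommRingCat.ofHom (C : S →+* MvPolynomial (Fin 2) S))
      (CommRingCat.ofHom (MvPolynomial.map (algebraMap ℂ S))) := by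
  let _ : Algebra (MvPolynomial (Fin 2) ℂ) (MvPolynomial (Fin 2) S) := MvPolynomial.algebraMvPolynomial
  exact CommRingCat.isPushout_of_isPushout ℂ S (MvPolynomial (Fin 2) ℂ) (MvPolynomial (Fin 2) S)

abbrev Spl : Scheme.{0} := Spec (CommRingCat.of R)
abbrev fC : Spl ⟶ Spec (CommRingCat.of ℂ) := Spec.map (CommRingCat.ofHom (algebraMap ℂ (MvPolynomial (Fin 2) ℂ)))
abbrev fM (M : Type) [CommRing M] [Algebra R M] : Spec (CommRingCat.of M) ⟶ Spl :=
  Spec.map (CommRingCat.ofHom (algebraMap R M))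
abbrev UU : Spl.Opens := (PrimeSpectrum.basicOpen (MvPolynomial.X 0 : MvPolynomial (Fin 2) ℂ) ⊔
          PrimeSpectrum.basicOpen (MvPolynomial.X 1 : MvPolynomial (Fin 2) ℂ) :
          (Spec (CommRingCat.of (MvPolynomial (Fin 2) ℂ))).Opens)

theorem loc_aux (i : Fin 2)
    (hpush : ∃ φ : A →+* MvPolynomial (Fin 2) (Localization.Away (X i : R)),
      IsPushout (CommRingCat.ofHom (algebraMap R (Localization.Away (X i : R)))) (CommRingCat.ofHom (algebraMap R A))
       (CommRingCat.ofHom (C : (Localization.Away (X i : R)) →+* MvPolynomial (Fin 2) (Localization.Away (X i : R))))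
       (CommRingCat.ofHom φ)) :
    ∃ e : ((fM A ∣_ UU) ⁻¹ᵁ (UU.ι ⁻¹ᵁ (PrimeSpectrum.basicOpen (X i : R) : Spl.Opens))).toScheme ≅
          pullback ((UU.ι ⁻¹ᵁ (PrimeSpectrum.basicOpen (X i : R) : Spl.Opens)).ι ≫ UU.ι ≫ fC)
            (Spec.map (CommRingCat.ofHom (algebraMap ℂ (MvPolynomial (Fin 2) ℂ)))),
        e.hom ≫ pullback.fst
            ((UU.ι ⁻¹ᵁ (PrimeSpectrum.basicOpen (X i : R) : Spl.Opens)).ι ≫ UU.ι ≫ fC)
            (Spec.map (CommRingCat.ofHom (algebraMap ℂ (MvPolynomial (Fin 2) ℂ))))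
          = (fM A ∣_ UU) ∣_ (UU.ι ⁻¹ᵁ (PrimeSpectrum.basicOpen (X i : R) : Spl.Opens)) := by
  obtain ⟨φ, hφ⟩ := hpush
  set V : UU.toScheme.Opens := UU.ι ⁻¹ᵁ (PrimeSpectrum.basicOpen (X i : R) : Spl.Opens) with hV
  let L := Localization.Away (X i : R)
  let loc : Spec (CommRingCat.of L) ⟶ Spl := Spec.map (CommRingCat.ofHom (algebraMap R L))
  have : IsOpenImmersion loc := inferInstance
  have hrange : Set.range (V.ι ≫ UU.ι) ⊆ Set.range loc := by
    rintro _ ⟨z, rfl⟩
    have h1 : loc.opensRange = PrimeSpectrum.basicOpen (X i : R) :=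
      Scheme.Hom.opensRange_localizationAway (R := CommRingCat.of R) (X i : R)
    have h2 : (V.ι ≫ UU.ι) z ∈ loc.opensRange := by
      rw [h1]
      exact z.2
    exact h2
  let j : V.toScheme ⟶ Spec (CommRingCat.of L) := IsOpenImmersion.lift loc (V.ι ≫ UU.ι) hrange
  have hj : j ≫ loc = V.ι ≫ UU.ι := IsOpenImmersion.lift_fac loc (V.ι ≫ UU.ι) hrange
  have s1 : IsPullback ((fM A ∣_ UU) ∣_ V) (((fM A ∣_ UU) ⁻¹ᵁ V).ι ≫ ((fM A) ⁻¹ᵁ UU).ι) (V.ι ≫ UU.ι) (fM A) :=
    (isPullback_morphismRestrict _ V).paste_vert (isPullback_morphismRestrict _ UU)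
  rw [← hj] at s1
  have s2 := isPullback_SpecMap_of_isPushout _ _ _ _ hφ
  have s3 := isPullback_SpecMap_of_isPushout _ _ _ _ (pushC L)
  have s4 := (IsPullback.of_bot' s1 s2).paste_vert s3
  have hj2 : j ≫ Spec.map (CommRingCat.ofHom (algebraMap ℂ L)) = V.ι ≫ UU.ι ≫ fC := by
    rw [← Category.assoc, ← hj, Category.assoc, ← Spec.map_comp]
    rfl
  rw [hj2] at s4
  exact ⟨s4.isoPullback, s4.isoPullback_hom_fst⟩

/-- the comparison ring map from `M` to functions on the preimage of the punctured plane -/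
def eta (M : Type) [CommRing M] [Algebra R M] : M →+* Γ(((fM M) ⁻¹ᵁ UU).toScheme, ⊤) :=
  (((fM M) ⁻¹ᵁ UU).ι.appTop).hom.comp (Scheme.ΓSpecIso (CommRingCat.of M)).inv.hom

theorem eta_alg (M : Type) [CommRing M] [Algebra R M] (r : R) :
    eta M (algebraMap R M r) =
      (fM M ∣_ UU).appTop (UU.ι.appTop ((Scheme.ΓSpecIso (CommRingCat.of R)).inv r)) := by
  have h1 : (fM M ∣_ UU) ≫ UU.ι = ((fM M) ⁻¹ᵁ UU).ι ≫ fM M := morphismRestrict_ι _ _
  have h2 := congr(($(h1).appTop).hom ((Scheme.ΓSpecIso (CommRingCat.of R)).inv r))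
  rw [Scheme.Hom.comp_appTop, Scheme.Hom.comp_appTop] at h2
  have h3 := congr(($(Scheme.ΓSpecIso_inv_naturality (CommRingCat.ofHom (algebraMap R M)))).hom r)
  simp only [CommRingCat.hom_comp, RingHom.comp_apply] at h2 h3
  refine Eq.trans ?_ h2.symm
  refine Eq.trans ?_ (congrArg (((fM M) ⁻¹ᵁ UU).ι.appTop).hom h3)
  rfl

theorem X0_prime : Prime (X 0 : R) := MvPolynomial.X_prime
theorem not_dvd : ¬ (X 0 : R) ∣ X 1 := by
  rw [MvPolynomial.X_dvd_X]; decide

theorem eta_bij (M : Type) [CommRing M] [Algebra R M] [Module.Free R M] :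
    Function.Bijective (eta M) := by
  have e := (Scheme.ΓSpecIso (CommRingCat.of M))
  have hbi : Function.Bijective (Scheme.ΓSpecIso (CommRingCat.of M)).inv.hom :=
    ConcreteCategory.bijective_of_isIso (Scheme.ΓSpecIso (CommRingCat.of M)).inv
  rw [eta, RingHom.coe_comp]
  refine Function.Bijective.comp ?_ hbi
  have key := hartogs (Y := Spec (CommRingCat.of M))
    ((Scheme.ΓSpecIso (CommRingCat.of M)).inv (algebraMap R M (X 0)))
    ((Scheme.ΓSpecIso (CommRingCat.of M)).inv (algebraMap R M (X 1))) ?_ ?_ ?_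
    (((fM M) ⁻¹ᵁ UU).ι ''ᵁ ⊤) ?_
  · exact key
  · intro f hf
    obtain ⟨f, rfl⟩ := hbi.2 f
    have : (Scheme.ΓSpecIso (CommRingCat.of M)).inv.hom (algebraMap R M (X 0) * f) = 
       (Scheme.ΓSpecIso (CommRingCat.of M)).inv.hom 0 := by
      rw [map_mul, map_zero]; exact hf
    rw [free_nzd (R := R) X0_prime.ne_zero f (hbi.1 this), map_zero]
  · intro f hf
    obtain ⟨f, rfl⟩ := hbi.2 f
    have : (Scheme.ΓSpecIso (CommRingCat.of M)).inv.hom (algebraMap R M (X 1) * f) = 
       (Scheme.ΓSpecIso (CommRingCat.of M)).inv.hom 0 := by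
      rw [map_mul, map_zero]; exact hf
    rw [free_nzd (R := R) (MvPolynomial.X_ne_zero 1) f (hbi.1 this), map_zero]
  · intro n m f g hfg
    obtain ⟨f, rfl⟩ := hbi.2 f
    obtain ⟨g, rfl⟩ := hbi.2 g
    have : (Scheme.ΓSpecIso (CommRingCat.of M)).inv.hom (algebraMap R M (X 1) ^ m * f) = 
       (Scheme.ΓSpecIso (CommRingCat.of M)).inv.hom (algebraMap R M (X 0) ^ n * g) := by
      rw [map_mul, map_mul, map_pow, map_pow]; exact hfg
    obtain ⟨k, hk⟩ := free_key (R := R) X0_prime not_dvd n m f g (hbi.1 this)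
    refine ⟨(Scheme.ΓSpecIso (CommRingCat.of M)).inv.hom k, ?_⟩
    rw [hk, map_mul, map_pow]
  · rw [Scheme.Opens.ι_image_top, basicOpen_eq_of_affine, basicOpen_eq_of_affine]
    rfl

theorem not_affine : ¬ IsAffine ((fM A) ⁻¹ᵁ UU).toScheme := by
  intro haff
  set Xs := ((fM A) ⁻¹ᵁ UU).toScheme
  have hbij := eta_bij A
  let a : Γ(Xs, ⊤) := eta A (algebraMap R A (X 0))
  let b : Γ(Xs, ⊤) := eta A (algebraMap R A (X 1))
  have hcov : (⊤ : Xs.Opens) ≤ ⨆ f : ({a, b} : Set Γ(Xs, ⊤)), Xs.basicOpen f.1 := by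
    intro z _
    have hi : ∀ i : Fin 2, (z.1 ∈ ((fM A) ⁻¹ᵁ (PrimeSpectrum.basicOpen (X i : R) : Spl.Opens))) →
        z ∈ Xs.basicOpen (eta A (algebraMap R A (X i))) := by
      intro i hz
      have h1 : Xs.basicOpen (eta A (algebraMap R A (X i))) =
          ((fM A) ⁻¹ᵁ UU).ι ⁻¹ᵁ ((Spec (CommRingCat.of A)).basicOpen
            ((Scheme.ΓSpecIso (CommRingCat.of A)).inv (algebraMap R A (X i)))) :=
        (Scheme.preimage_basicOpen_top ((fM A) ⁻¹ᵁ UU).ι _).symm
      rw [h1, basicOpen_eq_of_affine]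
      exact hz
    have hz : z.1 ∈ (fM A) ⁻¹ᵁ UU := z.2
    rcases hz with hz | hz
    · exact TopologicalSpace.Opens.mem_iSup.2 ⟨⟨a, by simp⟩, hi 0 hz⟩
    · exact TopologicalSpace.Opens.mem_iSup.2 ⟨⟨b, by simp⟩, hi 1 hz⟩
  have hspan : Ideal.span ({a, b} : Set Γ(Xs, ⊤)) = ⊤ :=
    (isAffineOpen_top Xs).self_le_iSup_basicOpen_iff.1 hcov
  rw [Ideal.eq_top_iff_one, Ideal.mem_span_pair] at hspan
  obtain ⟨f, g, hfg⟩ := hspan
  obtain ⟨f, rfl⟩ := hbij.2 f
  obtain ⟨g, rfl⟩ := hbij.2 g
  rw [← map_mul, ← map_mul, ← map_add, ← map_one (eta A)] at hfg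
  have h2 := congrArg toDual (hbij.1 hfg)
  rw [map_add, map_mul, map_mul, toDual_x, toDual_x, mul_zero, mul_zero, add_zero, map_one] at h2
  exact zero_ne_one h2

theorem not_trivial :
    ¬ ∃ e : ((fM A) ⁻¹ᵁ UU).toScheme ≅
          pullback (UU.ι ≫ fC) (Spec.map (CommRingCat.ofHom (algebraMap ℂ (MvPolynomial (Fin 2) ℂ)))),
        e.hom ≫ pullback.fst (UU.ι ≫ fC)
            (Spec.map (CommRingCat.ofHom (algebraMap ℂ (MvPolynomial (Fin 2) ℂ))))
          = fM A ∣_ UU := by
  rintro ⟨e, he⟩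
  have s1 : IsPullback (fM (MvPolynomial (Fin 2) R) ∣_ UU) ((fM (MvPolynomial (Fin 2) R)) ⁻¹ᵁ UU).ι
    UU.ι (fM (MvPolynomial (Fin 2) R)) := isPullback_morphismRestrict _ UU
  have s2 := isPullback_SpecMap_of_isPushout _ _ _ _ (pushC R)
  have s3 := s1.paste_vert s2
  let e2 := e ≪≫ s3.isoPullback.symm
  have he2 : e2.hom ≫ (fM (MvPolynomial (Fin 2) R) ∣_ UU) = fM A ∣_ UU := by
    simp only [e2, Iso.trans_hom, Iso.symm_hom, Category.assoc]
    rw [IsPullback.isoPullback_inv_fst, he]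
  let θ1 := RingEquiv.ofBijective (eta A) (eta_bij A)
  let θ2 := RingEquiv.ofBijective (eta (MvPolynomial (Fin 2) R)) (eta_bij (MvPolynomial (Fin 2) R))
  have : IsIso e2.hom.appTop := by
    change IsIso (e2.hom.app ⊤)
    infer_instance
  have hb : Function.Bijective e2.hom.appTop.hom := ConcreteCategory.bijective_of_isIso e2.hom.appTop
  let θ3 := RingEquiv.ofBijective e2.hom.appTop.hom hb
  refine no_iso ((θ1.trans θ3.symm).trans θ2.symm) ?_
  intro r
  change θ2.symm (θ3.symm (θ1 (algebraMap R A r))) = _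
  rw [RingEquiv.symm_apply_eq, RingEquiv.symm_apply_eq]
  change eta A (algebraMap R A r) = e2.hom.appTop.hom (eta (MvPolynomial (Fin 2) R) (algebraMap R _ r))
  rw [eta_alg, eta_alg, ← he2, Scheme.Hom.comp_appTop]
  rfl

end

end Helpers

/-- The negation of the preceding statement: For n > 1, every Zariski-locally trivial bundle over the punctured complex plane with fiber complex affine n-space is isomorphic over the base to the product bundle exactly when its total space is not an affine scheme. -/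
theorem result :
    ¬ (∀ (n : ℕ), 1 < n →
  ∀ (U : (Spec (CommRingCat.of (MvPolynomial (Fin 2) ℂ))).Opens),
    U = (PrimeSpectrum.basicOpen (MvPolynomial.X 0 : MvPolynomial (Fin 2) ℂ) ⊔
          PrimeSpectrum.basicOpen (MvPolynomial.X 1 : MvPolynomial (Fin 2) ℂ) :
          (Spec (CommRingCat.of (MvPolynomial (Fin 2) ℂ))).Opens) →
  ∀ (X : Scheme.{0}) (p : X ⟶ U.toScheme),
    (∀ x : U.toScheme, ∃ V : U.toScheme.Opens, x ∈ V ∧
      ∃ e : (p ⁻¹ᵁ V).toScheme ≅
          pullback (V.ι ≫ U.ι ≫ Spec.map (CommRingCat.ofHom (algebraMap ℂ (MvPolynomial (Fin 2) ℂ))))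
            (Spec.map (CommRingCat.ofHom (algebraMap ℂ (MvPolynomial (Fin n) ℂ)))),
        e.hom ≫ pullback.fst
            (V.ι ≫ U.ι ≫ Spec.map (CommRingCat.ofHom (algebraMap ℂ (MvPolynomial (Fin 2) ℂ))))
            (Spec.map (CommRingCat.ofHom (algebraMap ℂ (MvPolynomial (Fin n) ℂ))))
          = p ∣_ V) →
    ((∃ e : X ≅
          pullback (U.ι ≫ Spec.map (CommRingCat.ofHom (algebraMap ℂ (MvPolynomial (Fin 2) ℂ))))
            (Spec.map (CommRingCat.ofHom (algebraMap ℂ (MvPolynomial (Fin n) ℂ)))),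
        e.hom ≫ pullback.fst
            (U.ι ≫ Spec.map (CommRingCat.ofHom (algebraMap ℂ (MvPolynomial (Fin 2) ℂ))))
            (Spec.map (CommRingCat.ofHom (algebraMap ℂ (MvPolynomial (Fin n) ℂ))))
          = p) ↔ ¬ IsAffine X)) := by
  intro h
  have h2 := h 2 (by norm_num) UU rfl ((fM A) ⁻¹ᵁ UU).toScheme (fM A ∣_ UU) ?_
  · exact not_trivial (h2.2 not_affine)
  · intro x
    have hx : x.1 ∈ UU := x.2
    rcases hx with hx | hx
    · refine ⟨UU.ι ⁻¹ᵁ (PrimeSpectrum.basicOpen (MvPolynomial.X 0 : R) : Spl.Opens), hx, ?_⟩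
      exact loc_aux 0 (push0 _ (IsLocalization.Away.algebraMap_isUnit (S := Localization.Away (MvPolynomial.X 0 : R)) (MvPolynomial.X 0 : R)))
    · refine ⟨UU.ι ⁻¹ᵁ (PrimeSpectrum.basicOpen (MvPolynomial.X 1 : R) : Spl.Opens), hx, ?_⟩
      exact loc_aux 1 (push1 _ (IsLocalization.Away.algebraMap_isUnit (S := Localization.Away (MvPolynomial.X 1 : R)) (MvPolynomial.X 1 : R)))

end Pool.Agent.S00188
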