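import Pool.Statements.S00200
-- import your own Pool.Agent.* helpers here

set_option autoImplicit false
open Pool Pool.MP_f76cdc_ag

namespace Pool.Agent.S00200

/-!
# A space `L_{51,2}` in characteristic `3`

`p = 3`, `n = 2`, `m + 1 = 51`, and `3 ^ 1 * 2 = 6` does not divide `51`.

Put `x = z ^ 3`, `y = (i z + 1) ^ 3 = 1 - i z ^ 3` with `i ^ 2 = -1`, so `x' = y' = 0`.  There is a
polynomial `W` with `W' = x ^ 3 y - x y ^ 3` and polynomials `A`, `B` of degree `17` with
`W ^ 2 - y ^ 2 = A x (x ^ 2 - y ^ 2)` and `x ^ 2 - W ^ 2 = B y (x ^ 2 - y ^ 2)`; hence `A x + B y = 1`.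
For `v = x, y, x + y, x - y` the logarithmic form of `(v - W) / (v + W)` is
`x ^ 2 / B`, `- y ^ 2 / A`, `(x + y) ^ 2 / (B - A)`, `(x - y) ^ 2 / (A + B)`, and
`1 / (B (B - A) (B + A))`, `1 / (A (B - A) (B + A))` are `F_3`-combinations of these.
-/

section field

variable {F : Type} [Field F]

theorem om1 {a b x y : F} (h3 : (3 : F) = 0) (h : a * x + b * y = 1) (hb : b ≠ 0)
    (hm : b - a ≠ 0) (hp : a + b ≠ 0) :
    1 / (b * (b - a) * (a + b)) =
      -(x ^ 2 / b) - (x + y) ^ 2 / (b - a) - (x - y) ^ 2 / (a + b) := by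
  rw [eq_comm, eq_div_iff (mul_ne_zero (mul_ne_zero hb hm) hp)]
  field_simp
  linear_combination (a * x + b * y + 1) * h - (b ^ 2 * x ^ 2 + b ^ 2 * y ^ 2 + 2 * a * b * x * y) * h3

theorem om2 {a b x y : F} (h3 : (3 : F) = 0) (h : a * x + b * y = 1) (ha : a ≠ 0)
    (hm : b - a ≠ 0) (hp : a + b ≠ 0) :
    1 / (a * (b - a) * (a + b)) =
      y ^ 2 / a - (x + y) ^ 2 / (b - a) + (x - y) ^ 2 / (a + b) := by
  rw [eq_comm, eq_div_iff (mul_ne_zero (mul_ne_zero ha hm) hp)]
  field_simp
  linear_combination (a * x + b * y + 1) * h - (a ^ 2 * x ^ 2 + a ^ 2 * y ^ 2 + 2 * a * b * x * y) * h3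

end field

section alg

open Polynomial

variable {K : Type} [Field K]

/-- The logarithmic elements `P'/P - R'/R` of `K(z)` form an additive group. -/
def logSub (K : Type) [Field K] : AddSubgroup (RatFunc K) where
  carrier := {g | ∃ P R : Polynomial K, P ≠ 0 ∧ R ≠ 0 ∧
      g = algebraMap (Polynomial K) (RatFunc K) (Polynomial.derivative P) /
            algebraMap (Polynomial K) (RatFunc K) P
          - algebraMap (Polynomial K) (RatFunc K) (Polynomial.derivative R) /
            algebraMap (Polynomial K) (RatFunc K) R}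
  add_mem' := by
    rintro a b ⟨P, R, hP, hR, rfl⟩ ⟨P', R', hP', hR', rfl⟩
    refine ⟨P * P', R * R', mul_ne_zero hP hP', mul_ne_zero hR hR', ?_⟩
    have h1 : algebraMap (Polynomial K) (RatFunc K) P ≠ 0 := RatFunc.algebraMap_ne_zero hP
    have h2 : algebraMap (Polynomial K) (RatFunc K) R ≠ 0 := RatFunc.algebraMap_ne_zero hR
    have h3 : algebraMap (Polynomial K) (RatFunc K) P' ≠ 0 := RatFunc.algebraMap_ne_zero hP'
    have h4 : algebraMap (Polynomial K) (RatFunc K) R' ≠ 0 := RatFunc.algebraMap_ne_zero hR'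
    simp only [derivative_mul, map_add, map_mul]
    field_simp
    ring
  zero_mem' := ⟨1, 1, one_ne_zero, one_ne_zero, by simp⟩
  neg_mem' := by
    rintro a ⟨P, R, hP, hR, rfl⟩
    exact ⟨R, P, hR, hP, by ring⟩

theorem three_eq_zero (h3 : (3 : K) = 0) : (3 : RatFunc K) = 0 := by
  have h := map_ofNat (RatFunc.C : K →+* RatFunc K) 3
  rw [← h]
  have : (OfNat.ofNat 3 : K) = 0 := h3
  rw [this, map_zero]

/-- If `v' = 0`, then `v W' / (v ^ 2 - W ^ 2)` is the logarithmic derivative of `(v - W) / (v + W)`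
(in characteristic `3`, where `-2 = 1`). -/
theorem log_v (h3 : (3 : K) = 0) (v W : Polynomial K) (hv : derivative v = 0)
    (hne : v ^ 2 - W ^ 2 ≠ 0) :
    algebraMap (Polynomial K) (RatFunc K) (v * derivative W) /
      algebraMap (Polynomial K) (RatFunc K) (v ^ 2 - W ^ 2) ∈ logSub K := by
  have h33 : (3 : RatFunc K) = 0 := three_eq_zero h3
  have hfac : v ^ 2 - W ^ 2 = (v - W) * (v + W) := by ring
  have h1 : v - W ≠ 0 := fun h => hne (by rw [hfac, h, zero_mul])
  have h2 : v + W ≠ 0 := fun h => hne (by rw [hfac, h, mul_zero])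
  refine ⟨v - W, v + W, h1, h2, ?_⟩
  have h1' : algebraMap (Polynomial K) (RatFunc K) (v - W) ≠ 0 := RatFunc.algebraMap_ne_zero h1
  have h2' : algebraMap (Polynomial K) (RatFunc K) (v + W) ≠ 0 := RatFunc.algebraMap_ne_zero h2
  rw [hfac, map_mul _ (v - W) (v + W)]
  simp only [derivative_sub, derivative_add, hv, zero_sub, zero_add, map_neg]
  rw [div_sub_div _ _ h1' h2']
  congr 1
  simp only [map_mul, map_sub, map_add]
  linear_combination (algebraMap (Polynomial K) (RatFunc K) v *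
    algebraMap (Polynomial K) (RatFunc K) (derivative W)) * h33

/-- `c / Q` with `c ≠ 0` and `deg Q = 51`. -/
def IsForm (g : RatFunc K) : Prop :=
  ∃ c : K, c ≠ 0 ∧ ∃ Q : Polynomial K, Q.natDegree = 51 ∧
    g = algebraMap (Polynomial K) (RatFunc K) (Polynomial.C c) /
      algebraMap (Polynomial K) (RatFunc K) Q

theorem IsForm.neg {g : RatFunc K} (h : IsForm g) : IsForm (-g) := by
  obtain ⟨c, hc, Q, hQ, rfl⟩ := h
  exact ⟨-c, neg_ne_zero.mpr hc, Q, hQ, by rw [C_neg, map_neg, neg_div]⟩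

theorem IsForm.ne_zero {g : RatFunc K} (h : IsForm g) : g ≠ 0 := by
  obtain ⟨c, hc, Q, hQ, rfl⟩ := h
  have hQ0 : Q ≠ 0 := by
    rintro rfl
    simp at hQ
  exact div_ne_zero (RatFunc.algebraMap_ne_zero (C_ne_zero.mpr hc))
    (RatFunc.algebraMap_ne_zero hQ0)

/-- The abstract group: if `g₁, g₂, g₁ + g₂, g₁ - g₂` are of the form `c / Q` with `deg Q = 51`
and `g₁, g₂` are logarithmic, we get a group of order `9` in characteristic `3`. -/
theorem group (h3 : (3 : K) = 0) (g₁ g₂ : RatFunc K) (hl1 : g₁ ∈ logSub K) (hl2 : g₂ ∈ logSub K)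
    (h1 : IsForm g₁) (h2 : IsForm g₂) (hp : IsForm (g₁ + g₂)) (hm : IsForm (g₁ - g₂)) :
    ∃ L : AddSubgroup (RatFunc K), Nat.card L = 3 ^ 2 ∧
      ∀ g ∈ L, g ≠ 0 → g ∈ logSub K ∧ IsForm g := by
  have h33 : (3 : RatFunc K) = 0 := three_eq_zero h3
  let _ : Module (ZMod 3) (RatFunc K) := AddCommGroup.zmodModule (n := 3) (fun x => by
    rw [nsmul_eq_mul]; push_cast; rw [h33, zero_mul])
  let φ : (ZMod 3 × ZMod 3) →ₗ[ZMod 3] RatFunc K :=
    (LinearMap.toSpanSingleton (ZMod 3) (RatFunc K) g₁).coprod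
      (LinearMap.toSpanSingleton (ZMod 3) (RatFunc K) g₂)
  have hφ : ∀ a b : ZMod 3, φ (a, b) = a • g₁ + b • g₂ := fun a b => by
    simp [φ]
  have hcase : ∀ a : ZMod 3, a = 0 ∨ a = 1 ∨ a = -1 := by decide
  have hform : ∀ a b : ZMod 3, (a, b) ≠ 0 → IsForm (φ (a, b)) := by
    intro a b hab
    rw [hφ]
    rcases hcase a with rfl | rfl | rfl <;> rcases hcase b with rfl | rfl | rfl
    · exact absurd rfl hab
    · simpa using h2
    · simpa using h2.neg
    · simpa using h1
    · simpa using hp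
    · simpa [sub_eq_add_neg] using hm
    · simpa using h1.neg
    · have : (-1 : ZMod 3) • g₁ + (1 : ZMod 3) • g₂ = -(g₁ - g₂) := by
        rw [neg_smul, one_smul, one_smul]; ring
      rw [this]; exact hm.neg
    · have : (-1 : ZMod 3) • g₁ + (-1 : ZMod 3) • g₂ = -(g₁ + g₂) := by
        rw [neg_smul, one_smul, neg_smul, one_smul]; ring
      rw [this]; exact hp.neg
  have hinj : Function.Injective φ := by
    rw [← LinearMap.ker_eq_bot, LinearMap.ker_eq_bot']
    rintro ⟨a, b⟩ h
    by_contra hne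
    exact (hform a b hne).ne_zero h
  refine ⟨(LinearMap.range φ).toAddSubgroup, ?_, ?_⟩
  · have : Nat.card (LinearMap.range φ).toAddSubgroup = Nat.card (ZMod 3 × ZMod 3) :=
      (Nat.card_congr (LinearEquiv.ofInjective φ hinj).toEquiv).symm
    rw [this, Nat.card_prod, Nat.card_eq_fintype_card, ZMod.card]
    norm_num
  · rintro g ⟨⟨a, b⟩, rfl⟩ hg
    refine ⟨?_, hform a b (fun h => hg (by rw [h]; simp))⟩
    rw [hφ]
    refine add_mem ?_ ?_
    · rcases hcase a with rfl | rfl | rfl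
      · rw [zero_smul]; exact zero_mem _
      · rw [one_smul]; exact hl1
      · rw [neg_smul, one_smul]; exact neg_mem hl1
    · rcases hcase b with rfl | rfl | rfl
      · rw [zero_smul]; exact zero_mem _
      · rw [one_smul]; exact hl2
      · rw [neg_smul, one_smul]; exact neg_mem hl2

end alg

section explicit

open Polynomial

variable {K : Type} [Field K]

/-- `A`, of degree `17`; here `i` is a square root of `-1`. -/
noncomputable def polA (i : K) : Polynomial K :=
  X ^ 17 - X ^ 13 + X ^ 11 + X ^ 9 + C i * X ^ 8 + C (i - 1) * X ^ 7 - X ^ 5 - C (i + 1) * X ^ 4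
    + C (i + 1) * X ^ 3 + X + C (i - 1)

/-- `B`, of degree `17`. -/
noncomputable def polB (i : K) : Polynomial K :=
  -(C i * X ^ 17) - X ^ 14 + C i * X ^ 13 + X ^ 10 - C i * X ^ 9 + X ^ 8 + X ^ 7 - X ^ 6 - X ^ 4
    + X ^ 3 + 1

/-- `W`, with `W' = x ^ 3 y - x y ^ 3`. -/
noncomputable def polW (i : K) : Polynomial K :=
  C i * X ^ 13 + X ^ 10 + C i * X ^ 9 + X ^ 6 - X ^ 4 + X ^ 3 - 1

/-- `x = z ^ 3`. -/
noncomputable def polX (K : Type) [Field K] : Polynomial K := X ^ 3

/-- `y = 1 - i z ^ 3`. -/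
noncomputable def polY (i : K) : Polynomial K := 1 - C i * X ^ 3

theorem three_poly (h3 : (3 : K) = 0) : (3 : Polynomial K) = 0 := by
  have h := map_ofNat (C : K →+* Polynomial K) 3
  rw [← h]
  have : (OfNat.ofNat 3 : K) = 0 := h3
  rw [this, map_zero]

theorem idA (h3 : (3 : K) = 0) (i : K) (hi : i ^ 2 + 1 = 0) :
    polW i ^ 2 - polY i ^ 2 = polA i * (polX K * (polX K ^ 2 - polY i ^ 2)) := by
  have h3' : (3 : Polynomial K) = 0 := three_poly h3
  have hi' : (C i : Polynomial K) ^ 2 + 1 = 0 := by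
    have := congrArg (C : K → Polynomial K) hi
    simpa using this
  simp only [polW, polA, polX, polY, C_add, C_sub, C_1]
  generalize (C i : Polynomial K) = i at *
  generalize (X : Polynomial K) = z at *
  linear_combination (2*z^26 + 1*z^22 + 1*z^20 + 2*z^18 + 1*i*z^17 + 1*i*z^16 + (-1)*z^16
    + (-3)*z^14 + (-1)*i*z^13 + (-3)*z^13 + 1*i*z^12 + 1*z^12 + 3*z^10 + 1*i*z^9 + (-3)*z^9
    + (-3)*z^6) * hi' + ((-1)*z^26 + 2*i*z^19 + (-1)*z^18 + (-2)*i*z^17 + 1*z^16 + 1*z^14
    + 2*z^13 + 1*i*z^11 + 1*i*z^10 + (-3)*z^10 + (-2)*i*z^9 + 2*z^9 + (-1)*i*z^7 + (-1)*z^7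
    + 1*i*z^6 + 1*z^6 + 1*z^4 + 1*i*z^3 + (-1)*z^3) * h3'

theorem idB (h3 : (3 : K) = 0) (i : K) (hi : i ^ 2 + 1 = 0) :
    polX K ^ 2 - polW i ^ 2 = polB i * (polY i * (polX K ^ 2 - polY i ^ 2)) := by
  have h3' : (3 : Polynomial K) = 0 := three_poly h3
  have hi' : (C i : Polynomial K) ^ 2 + 1 = 0 := by
    have := congrArg (C : K → Polynomial K) hi
    simpa using this
  simp only [polW, polB, polX, polY]
  generalize (C i : Polynomial K) = i at *
  generalize (X : Polynomial K) = z at *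
  linear_combination (1*i^2*z^26 + (-3)*z^26 + (-2)*i*z^23 + (-1)*i^2*z^22 + 2*i*z^19
    + 1*i^2*z^18 + (-3)*z^18 + (-1)*i*z^17 + (-1)*i*z^16 + (-2)*i*z^15 + 3*z^14 + 1*i*z^13
    + 3*z^13 + (-1)*i*z^12 + (-3)*z^10 + (-1)*i*z^9 + 3*z^9 + 3*z^6) * hi' + (1*z^26
    + (-2)*i*z^19 + 1*z^18 + 2*i*z^17 + (-1)*z^16 + (-1)*z^14 + (-2)*z^13 + (-1)*i*z^11
    + (-1)*i*z^10 + 3*z^10 + 2*i*z^9 + (-2)*z^9 + 1*i*z^7 + 1*z^7 + (-1)*i*z^6 + (-1)*z^6
    + (-1)*z^4 + (-1)*i*z^3 + 1*z^3) * h3'

theorem idAB (h3 : (3 : K) = 0) (i : K) (hi : i ^ 2 + 1 = 0) :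
    polA i * polX K + polB i * polY i = 1 := by
  have h3' : (3 : Polynomial K) = 0 := three_poly h3
  have hi' : (C i : Polynomial K) ^ 2 + 1 = 0 := by
    have := congrArg (C : K → Polynomial K) hi
    simpa using this
  simp only [polA, polB, polX, polY, C_add, C_sub, C_1]
  generalize (C i : Polynomial K) = i at *
  generalize (X : Polynomial K) = z at *
  linear_combination (1*z^20 + (-1)*z^16 + 1*z^12) * hi'

theorem derX (h3 : (3 : K) = 0) : derivative (polX K) = 0 := by
  simp only [polX, derivative_X_pow, Nat.cast_ofNat, map_ofNat]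
  rw [three_poly h3, zero_mul]

theorem derY (h3 : (3 : K) = 0) (i : K) : derivative (polY i) = 0 := by
  simp only [polY, derivative_sub, derivative_mul, derivative_C, derivative_one, derivative_X_pow,
    Nat.cast_ofNat, map_ofNat]
  linear_combination (-(C i * X ^ (3 - 1))) * three_poly h3

theorem derW (h3 : (3 : K) = 0) (i : K) (hi : i ^ 2 + 1 = 0) :
    derivative (polW i) = polX K ^ 3 * polY i - polX K * polY i ^ 3 := by
  have h3' : (3 : Polynomial K) = 0 := three_poly h3
  have hi' : (C i : Polynomial K) ^ 2 + 1 = 0 := by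
    have := congrArg (C : K → Polynomial K) hi
    simpa using this
  have hd : derivative (polW i) = 13 * C i * X ^ 12 + 10 * X ^ 9 + 9 * C i * X ^ 8 + 6 * X ^ 5
      - 4 * X ^ 3 + 3 * X ^ 2 := by
    simp only [polW, derivative_add, derivative_sub, derivative_mul, derivative_C, derivative_one,
      derivative_X_pow, Nat.cast_ofNat, map_ofNat]
    ring
  rw [hd]
  simp only [polX, polY]
  generalize (C i : Polynomial K) = i at *
  generalize (X : Polynomial K) = z at *
  linear_combination ((-1)*i*z^12 + 3*z^9) * hi' + (5*i*z^12 + 2*z^9 + 3*i*z^8 + (-1)*i*z^6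
    + 2*z^5 + (-1)*z^3 + 1*z^2) * h3'

end explicit

section final

open Polynomial

variable {K : Type} [Field K]

theorem i_facts (h3 : (3 : K) = 0) {i : K} (hi : i ^ 2 + 1 = 0) :
    i ≠ 0 ∧ 1 - i ≠ 0 ∧ -i - 1 ≠ 0 := by
  have h1 : (1 : K) ≠ 0 := one_ne_zero
  have h12 : (1 - i) * (-i - 1) = 1 := by linear_combination hi - h3
  refine ⟨?_, ?_, ?_⟩
  · rintro rfl
    apply h1
    linear_combination hi
  · intro h
    rw [h, zero_mul] at h12
    exact h1 h12.symm
  · intro h
    rw [h, mul_zero] at h12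
    exact h1 h12.symm

theorem degA (i : K) : (polA i).natDegree = 17 := by
  unfold polA
  compute_degree!

theorem degB {i : K} (hi : i ≠ 0) : (polB i).natDegree = 17 := by
  unfold polB
  compute_degree!

theorem degP {i : K} (hi : 1 - i ≠ 0) : (polA i + polB i).natDegree = 17 := by
  unfold polA polB
  compute_degree!
  simpa [sub_eq_add_neg] using hi

theorem degM {i : K} (hi : -i - 1 ≠ 0) : (polB i - polA i).natDegree = 17 := by
  unfold polA polB
  compute_degree!

end final

section construction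

open Polynomial

variable {K : Type} [Field K]

theorem construction (h3 : (3 : K) = 0) {i : K} (hi : i ^ 2 + 1 = 0) :
    ∃ g₁ g₂ : RatFunc K, g₁ ∈ logSub K ∧ g₂ ∈ logSub K ∧ IsForm g₁ ∧ IsForm g₂ ∧
      IsForm (g₁ + g₂) ∧ IsForm (g₁ - g₂) := by
  obtain ⟨hi0, hi1, hi2⟩ := i_facts h3 hi
  have hdA := degA i
  have hdB := degB hi0
  have hdP := degP hi1
  have hdM := degM hi2
  have hA0 : polA i ≠ 0 := fun h => by simp [h] at hdA
  have hB0 : polB i ≠ 0 := fun h => by simp [h] at hdB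
  have hP0 : polA i + polB i ≠ 0 := fun h => by simp [h] at hdP
  have hM0 : polB i - polA i ≠ 0 := fun h => by simp [h] at hdM
  have hX0 : polX K ≠ 0 := pow_ne_zero _ X_ne_zero
  have hY0 : polY i ≠ 0 := fun h => by
    have := congrArg (Polynomial.eval 0) h
    simp [polY] at this
  have hXY : polX K - polY i ≠ 0 := fun h => by
    have := congrArg (Polynomial.eval 0) h
    simp [polX, polY] at this
  have hXY' : polX K + polY i ≠ 0 := fun h => by
    have := congrArg (Polynomial.eval 0) h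
    simp [polX, polY] at this
  have hIA := idA h3 i hi
  have hIB := idB h3 i hi
  have hAB := idAB h3 i hi
  have hdW := derW h3 i hi
  have hdX := derX (K := K) h3
  have hdY := derY h3 i
  have h3p : (3 : Polynomial K) = 0 := three_poly h3
  have h3r : (3 : RatFunc K) = 0 := three_eq_zero h3
  have hIP : (polX K + polY i) ^ 2 - polW i ^ 2 =
      polX K * polY i * (polX K - polY i) * (polB i - polA i) := by
    linear_combination hIB + polY i * (polX K - polY i) * hAB + polX K * polY i * h3p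
  have hIM : (polX K - polY i) ^ 2 - polW i ^ 2 =
      polX K * polY i * (polX K + polY i) * (polA i + polB i) := by
    linear_combination hIB - polY i * (polX K + polY i) * hAB - polX K * polY i * h3p
  have hE0 : polX K ^ 2 - polY i ^ 2 ≠ 0 := by
    rw [show polX K ^ 2 - polY i ^ 2 = (polX K - polY i) * (polX K + polY i) by ring]
    exact mul_ne_zero hXY hXY'
  have hIA' : polY i ^ 2 - polW i ^ 2 = -(polA i * (polX K * (polX K ^ 2 - polY i ^ 2))) := by
    linear_combination -hIA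
  have l1 := log_v h3 (polX K) (polW i) hdX (by
    rw [hIB]; exact mul_ne_zero hB0 (mul_ne_zero hY0 hE0))
  have l2 := log_v h3 (polY i) (polW i) hdY (by
    rw [hIA']; exact neg_ne_zero.mpr (mul_ne_zero hA0 (mul_ne_zero hX0 hE0)))
  have l3 := log_v h3 (polX K + polY i) (polW i) (by rw [derivative_add, hdX, hdY, add_zero]) (by
    rw [hIP]; exact mul_ne_zero (mul_ne_zero (mul_ne_zero hX0 hY0) hXY) hM0)
  have l4 := log_v h3 (polX K - polY i) (polW i) (by rw [derivative_sub, hdX, hdY, sub_zero]) (by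
    rw [hIM]; exact mul_ne_zero (mul_ne_zero (mul_ne_zero hX0 hY0) hXY') hP0)
  rw [hIB, hdW] at l1
  rw [hIA', hdW] at l2
  rw [hIP, hdW] at l3
  rw [hIM, hdW] at l4
  have hA := RatFunc.algebraMap_ne_zero hA0
  have hB := RatFunc.algebraMap_ne_zero hB0
  have hP := RatFunc.algebraMap_ne_zero hP0
  have hM := RatFunc.algebraMap_ne_zero hM0
  have hX := RatFunc.algebraMap_ne_zero hX0
  have hY := RatFunc.algebraMap_ne_zero hY0
  have hD := RatFunc.algebraMap_ne_zero hXY
  have hS := RatFunc.algebraMap_ne_zero hXY'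
  have hABr := congrArg (algebraMap (Polynomial K) (RatFunc K)) hAB
  simp only [map_mul, map_add, map_sub, map_neg, map_pow, map_one] at l1 l2 l3 l4 hP hM hD hS hABr
  generalize ha : algebraMap (Polynomial K) (RatFunc K) (polA i) = a at *
  generalize hb : algebraMap (Polynomial K) (RatFunc K) (polB i) = b at *
  generalize hx : algebraMap (Polynomial K) (RatFunc K) (polX K) = x at *
  generalize hy : algebraMap (Polynomial K) (RatFunc K) (polY i) = y at *
  have e1 : x * (x ^ 3 * y - x * y ^ 3) / (b * (y * (x ^ 2 - y ^ 2))) = x ^ 2 / b := by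
    rw [show x ^ 2 - y ^ 2 = (x - y) * (x + y) by ring,
      show x ^ 3 * y - x * y ^ 3 = x * y * ((x - y) * (x + y)) by ring]
    field_simp
  have e2 : y * (x ^ 3 * y - x * y ^ 3) / -(a * (x * (x ^ 2 - y ^ 2))) = -(y ^ 2 / a) := by
    rw [show x ^ 2 - y ^ 2 = (x - y) * (x + y) by ring,
      show x ^ 3 * y - x * y ^ 3 = x * y * ((x - y) * (x + y)) by ring]
    field_simp
  have e3 : (x + y) * (x ^ 3 * y - x * y ^ 3) / (x * y * (x - y) * (b - a)) =
      (x + y) ^ 2 / (b - a) := by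
    rw [show x ^ 3 * y - x * y ^ 3 = x * y * ((x - y) * (x + y)) by ring]
    field_simp
  have e4 : (x - y) * (x ^ 3 * y - x * y ^ 3) / (x * y * (x + y) * (a + b)) =
      (x - y) ^ 2 / (a + b) := by
    rw [show x ^ 3 * y - x * y ^ 3 = x * y * ((x - y) * (x + y)) by ring]
    field_simp
  rw [e1] at l1
  rw [e2] at l2
  rw [e3] at l3
  rw [e4] at l4
  refine ⟨1 / (b * (b - a) * (a + b)), 1 / (a * (b - a) * (a + b)), ?_, ?_, ?_, ?_, ?_, ?_⟩
  · rw [om1 h3r hABr hB hM hP]
    exact sub_mem (sub_mem (neg_mem l1) l3) l4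
  · rw [om2 h3r hABr hA hM hP]
    have l2' : y ^ 2 / a ∈ logSub K := by
      have := neg_mem l2
      rwa [neg_neg] at this
    exact add_mem (sub_mem l2' l3) l4
  · refine ⟨1, one_ne_zero, polB i * (polB i - polA i) * (polA i + polB i), ?_, ?_⟩
    · rw [natDegree_mul (mul_ne_zero hB0 hM0) hP0, natDegree_mul hB0 hM0, hdB, hdM, hdP]
    · simp only [map_mul, map_add, map_sub, map_one, ha, hb]
  · refine ⟨1, one_ne_zero, polA i * (polB i - polA i) * (polA i + polB i), ?_, ?_⟩
    · rw [natDegree_mul (mul_ne_zero hA0 hM0) hP0, natDegree_mul hA0 hM0, hdA, hdM, hdP]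
    · simp only [map_mul, map_add, map_sub, map_one, ha, hb]
  · refine ⟨1, one_ne_zero, polA i * polB i * (polB i - polA i), ?_, ?_⟩
    · rw [natDegree_mul (mul_ne_zero hA0 hB0) hM0, natDegree_mul hA0 hB0, hdA, hdB, hdM]
    · simp only [map_mul, map_add, map_sub, map_one, ha, hb]
      field_simp
  · refine ⟨-1, neg_ne_zero.mpr one_ne_zero, polA i * polB i * (polA i + polB i), ?_, ?_⟩
    · rw [natDegree_mul (mul_ne_zero hA0 hB0) hP0, natDegree_mul hA0 hB0, hdA, hdB, hdP]
    · simp only [map_mul, map_add, map_sub, map_one, map_neg, ha, hb]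
      field_simp
      ring

end construction

/-- The negation of the preceding statement: Over an algebraically closed field of char p, if n≥2, m≥1 and some additive group of p^n rational functions g has every nonzero g dx logarithmic (g = df/f) and equal to c dx/Q with deg Q = m+1, then p^(n-1)(p-1) divides m+1. -/
theorem result :
    ¬ (∀ (p : ℕ), p.Prime →
      ∀ (k : Type) [Field k] [IsAlgClosed k] [CharP k p] (m n : ℕ),
        1 ≤ m → 2 ≤ n →
        ∀ L : AddSubgroup (RatFunc k), Nat.card L = p ^ n →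
          (∀ g ∈ L, g ≠ 0 →
            (∃ P R : Polynomial k, P ≠ 0 ∧ R ≠ 0 ∧
              g = algebraMap (Polynomial k) (RatFunc k) (Polynomial.derivative P) /
                    algebraMap (Polynomial k) (RatFunc k) P
                  - algebraMap (Polynomial k) (RatFunc k) (Polynomial.derivative R) /
                    algebraMap (Polynomial k) (RatFunc k) R) ∧
            (∃ c : k, c ≠ 0 ∧ ∃ Q : Polynomial k, Q.natDegree = m + 1 ∧
              g = algebraMap (Polynomial k) (RatFunc k) (Polynomial.C c) /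
                    algebraMap (Polynomial k) (RatFunc k) Q)) →
          p ^ (n - 1) * (p - 1) ∣ m + 1) := by
  intro h
  have : Fact (Nat.Prime 3) := ⟨Nat.prime_three⟩
  have : CharP (AlgebraicClosure (ZMod 3)) 3 := inferInstance
  have h3 : (3 : AlgebraicClosure (ZMod 3)) = 0 := by
    have := CharP.cast_eq_zero (AlgebraicClosure (ZMod 3)) 3
    simpa using this
  obtain ⟨i, hi⟩ := IsAlgClosed.exists_pow_nat_eq (-1 : AlgebraicClosure (ZMod 3)) two_pos
  have hi' : i ^ 2 + 1 = 0 := by rw [hi]; ring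
  obtain ⟨g₁, g₂, hl1, hl2, hf1, hf2, hfp, hfm⟩ := construction h3 hi'
  obtain ⟨L, hcard, hL⟩ := group h3 g₁ g₂ hl1 hl2 hf1 hf2 hfp hfm
  have key := h 3 Nat.prime_three (AlgebraicClosure (ZMod 3)) 50 2 (by norm_num) le_rfl L hcard
    (fun g hg hg0 => ⟨(hL g hg hg0).1, (hL g hg hg0).2⟩)
  norm_num at key

end Pool.Agent.S00200
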