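import Pool.Statements.S00204
-- import your own Pool.Agent.* helpers here

set_option autoImplicit false
open Pool Pool.MP_008109_al

namespace Pool.Agent.S00204


abbrev V : Type := ℕ →₀ ZMod 2

instance countable_mulV : Countable (Multiplicative V) :=
  inferInstanceAs (Countable V)

theorem add_self_V (v : V) : v + v = 0 := by
  ext i
  simp only [Finsupp.add_apply, Finsupp.coe_zero, Pi.zero_apply]
  exact CharTwo.add_self_eq_zero (v i)

theorem neg_V (v : V) : -v = v := by
  rw [neg_eq_iff_add_eq_zero]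
  exact add_self_V v

/-- A special set in `V`. -/
def Sp (S : Set V) : Prop :=
  ∀ U W : Finset V, Disjoint U W →
    ∃ z : V, z ∉ U ∧ z ∉ W ∧ (∀ u ∈ U, z + u ∈ S) ∧ (∀ w ∈ W, z + w ∉ S)

/-- Partial isomorphisms, as finite subgroups of `V × V`. -/
structure PI (S T : Set V) where
  G : AddSubgroup (V × V)
  fin : (G : Set (V × V)).Finite
  zero_iff : ∀ p ∈ G, p.1 = 0 ↔ p.2 = 0
  mem_iff : ∀ p ∈ G, p.1 ∈ S ↔ p.2 ∈ T

theorem PI.ext' {S T : Set V} {P Q : PI S T} (h : P.G = Q.G) : P = Q := by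
  cases P; cases Q; simp only at h; subst h; rfl

instance (S T : Set V) : PartialOrder (PI S T) where
  le P Q := P.G ≤ Q.G
  le_refl P := le_refl P.G
  le_trans P Q R h1 h2 := le_trans (α := AddSubgroup (V × V)) h1 h2
  le_antisymm P Q h1 h2 := PI.ext' (le_antisymm h1 h2)

/-- The swap of a partial isomorphism. -/
noncomputable def PI.swap {S T : Set V} (P : PI S T) : PI T S where
  G := P.G.map (AddEquiv.prodComm (M := V) (N := V)).toAddMonoidHom
  fin := by
    rw [AddSubgroup.coe_map]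
    exact P.fin.image _
  zero_iff := by
    intro p hp
    rw [AddSubgroup.mem_map] at hp
    obtain ⟨q, hq, rfl⟩ := hp
    exact (P.zero_iff q hq).symm
  mem_iff := by
    intro p hp
    rw [AddSubgroup.mem_map] at hp
    obtain ⟨q, hq, rfl⟩ := hp
    exact (P.mem_iff q hq).symm

theorem PI.mem_swap {S T : Set V} (P : PI S T) (p : V × V) : p ∈ P.swap.G ↔ (p.2, p.1) ∈ P.G := by
  constructor
  · intro hp
    change p ∈ P.G.map (AddEquiv.prodComm (M := V) (N := V)).toAddMonoidHom at hp
    rw [AddSubgroup.mem_map] at hp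
    obtain ⟨q, hq, rfl⟩ := hp
    exact hq
  · intro hp
    change p ∈ P.G.map (AddEquiv.prodComm (M := V) (N := V)).toAddMonoidHom
    rw [AddSubgroup.mem_map]
    exact ⟨_, hp, rfl⟩

theorem PI.extend {S T : Set V} (hT : Sp T) (P : PI S T) (x : V) :
    ∃ Q : PI S T, P ≤ Q ∧ ∃ y, (x, y) ∈ Q.G := by
  classical
  by_cases hx : ∃ y, (x, y) ∈ P.G
  · exact ⟨P, le_refl P, hx⟩
  replace hx : ∀ y, (x, y) ∉ P.G := fun y hy => hx ⟨y, hy⟩
  set Gf : Finset (V × V) := P.fin.toFinset with hGf
  have hmem : ∀ p, p ∈ Gf ↔ p ∈ P.G := by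
    intro p; simp [hGf]
  set U : Finset V := (Gf.filter (fun p => x + p.1 ∈ S)).image Prod.snd with hU
  set W : Finset V := (Gf.filter (fun p => x + p.1 ∉ S)).image Prod.snd with hW
  have hdisj : Disjoint U W := by
    rw [Finset.disjoint_left]
    intro b hb hb'
    rw [hU, Finset.mem_image] at hb
    rw [hW, Finset.mem_image] at hb'
    obtain ⟨p, hp, rfl⟩ := hb
    obtain ⟨q, hq, hqp⟩ := hb'
    rw [Finset.mem_filter, hmem] at hp hq
    have h1 : p - q ∈ P.G := P.G.sub_mem hp.1 hq.1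
    have h2 : (p - q).1 = 0 := by
      rw [P.zero_iff _ h1]
      simp [hqp]
    have h3 : p.1 = q.1 := by
      simpa [sub_eq_zero] using h2
    rw [h3] at hp
    exact hq.2 hp.2
  obtain ⟨y, hyU, hyW, hyS, hyS'⟩ := hT U W hdisj
  have hy : ∀ p ∈ P.G, p.2 ≠ y := by
    intro p hp hpy
    by_cases h : x + p.1 ∈ S
    · apply hyU
      rw [hU, Finset.mem_image]
      exact ⟨p, by rw [Finset.mem_filter, hmem]; exact ⟨hp, h⟩, hpy⟩
    · apply hyW
      rw [hW, Finset.mem_image]
      exact ⟨p, by rw [Finset.mem_filter, hmem]; exact ⟨hp, h⟩, hpy⟩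
  have hxy : ∀ p ∈ P.G, (x + p.1 ∈ S ↔ y + p.2 ∈ T) := by
    intro p hp
    by_cases h : x + p.1 ∈ S
    · have : y + p.2 ∈ T := by
        apply hyS
        rw [hU, Finset.mem_image]
        exact ⟨p, by rw [Finset.mem_filter, hmem]; exact ⟨hp, h⟩, rfl⟩
      exact ⟨fun _ => this, fun _ => h⟩
    · have : y + p.2 ∉ T := by
        apply hyS'
        rw [hW, Finset.mem_image]
        exact ⟨p, by rw [Finset.mem_filter, hmem]; exact ⟨hp, h⟩, rfl⟩
      exact ⟨fun h' => absurd h' h, fun h' => absurd h' this⟩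
  -- the extended group
  have key : ∀ p : V × V, p + p = 0 := fun p => Prod.ext (add_self_V _) (add_self_V _)
  have kneg : ∀ p : V × V, -p = p := fun p => Prod.ext (neg_V _) (neg_V _)
  let G' : AddSubgroup (V × V) :=
    { carrier := {p | p ∈ P.G ∨ (x, y) + p ∈ P.G}
      add_mem' := by
        rintro a b (ha | ha) (hb | hb)
        · exact Or.inl (P.G.add_mem ha hb)
        · right
          have := P.G.add_mem ha hb
          rwa [show a + ((x, y) + b) = (x, y) + (a + b) by abel] at this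
        · right
          have := P.G.add_mem ha hb
          rwa [show ((x, y) + a) + b = (x, y) + (a + b) by abel] at this
        · left
          have := P.G.add_mem ha hb
          rwa [show ((x, y) + a) + ((x, y) + b) = ((x, y) + (x, y)) + (a + b) by abel,
            key, zero_add] at this
      zero_mem' := Or.inl P.G.zero_mem
      neg_mem' := by
        intro a ha
        rw [kneg]
        exact ha }
  have hG' : ∀ p, p ∈ G' ↔ p ∈ P.G ∨ (x, y) + p ∈ P.G := fun p => Iff.rfl
  refine ⟨⟨G', ?_, ?_, ?_⟩, ?_, y, ?_⟩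
  · apply (P.fin.union (P.fin.image (fun p => (x, y) + p))).subset
    intro p hp
    rcases hp with hp | hp
    · exact Or.inl hp
    · right
      refine ⟨(x, y) + p, hp, ?_⟩
      simp only
      rw [← add_assoc, key, zero_add]
  · rintro p (hp | hp)
    · exact P.zero_iff p hp
    · constructor
      · intro h
        exfalso
        apply hx (y + p.2)
        have : (x, y) + p = (x, y + p.2) := by
          ext <;> simp [h]
        rwa [this] at hp
      · intro h
        exfalso
        apply hy _ hp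
        simp [h]
  · rintro p (hp | hp)
    · exact P.mem_iff p hp
    · have := hxy _ hp
      simp only [Prod.fst_add, Prod.snd_add] at this
      rwa [← add_assoc, ← add_assoc, add_self_V, add_self_V, zero_add, zero_add] at this
  · intro p hp
    exact Or.inl hp
  · right
    rw [key]
    exact P.G.zero_mem

theorem PI.extend' {S T : Set V} (hS : Sp S) (P : PI S T) (y : V) :
    ∃ Q : PI S T, P ≤ Q ∧ ∃ x, (x, y) ∈ Q.G := by
  obtain ⟨Q, hQ, x, hx⟩ := PI.extend hS P.swap y
  refine ⟨Q.swap, ?_, x, ?_⟩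
  · intro p hp
    rw [PI.mem_swap]
    apply hQ
    rw [PI.mem_swap]
    exact hp
  · rw [PI.mem_swap]
    exact hx

/-- The trivial partial isomorphism. -/
noncomputable def PI.bot {S T : Set V} (h : (0 : V) ∈ S ↔ (0 : V) ∈ T) : PI S T where
  G := ⊥
  fin := by simp
  zero_iff := by
    intro p hp
    rw [AddSubgroup.mem_bot] at hp
    subst hp
    simp
  mem_iff := by
    intro p hp
    rw [AddSubgroup.mem_bot] at hp
    subst hp
    exact h

theorem exists_iso {S T : Set V} (hS : Sp S) (hT : Sp T) (h0S : (0 : V) ∉ S) (h0T : (0 : V) ∉ T) :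
    ∃ e : V ≃+ V, ∀ v, v ∈ S ↔ e v ∈ T := by
  classical
  have h0 : (0 : V) ∈ S ↔ (0 : V) ∈ T := ⟨fun h => absurd h h0S, fun h => absurd h h0T⟩
  have : Encodable V := Encodable.ofCountable V
  let D : V ⊕ V → Order.Cofinal (PI S T) := fun v =>
    match v with
    | Sum.inl x => ⟨{Q | ∃ y, (x, y) ∈ Q.G}, fun P => by
        obtain ⟨Q, h1, h2⟩ := PI.extend hT P x
        exact ⟨Q, h2, h1⟩⟩
    | Sum.inr y => ⟨{Q | ∃ x, (x, y) ∈ Q.G}, fun P => by
        obtain ⟨Q, h1, h2⟩ := PI.extend' hS P y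
        exact ⟨Q, h2, h1⟩⟩
  let I := Order.idealOfCofinals (PI.bot h0) D
  have hdir := I.directed
  have hex1 : ∀ x, ∃ y, ∃ Q ∈ I, (x, y) ∈ PI.G Q := by
    intro x
    obtain ⟨Q, ⟨y, hy⟩, hQ⟩ := Order.cofinal_meets_idealOfCofinals (PI.bot h0) D (Sum.inl x)
    exact ⟨y, Q, hQ, hy⟩
  have hex2 : ∀ y, ∃ x, ∃ Q ∈ I, (x, y) ∈ PI.G Q := by
    intro y
    obtain ⟨Q, ⟨x, hx⟩, hQ⟩ := Order.cofinal_meets_idealOfCofinals (PI.bot h0) D (Sum.inr y)
    exact ⟨x, Q, hQ, hx⟩
  choose f Qf hQf hf using hex1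
  choose g Qg hQg hg using hex2
  -- uniqueness
  have huniq : ∀ Q ∈ I, ∀ Q' ∈ I, ∀ p q : V × V, p ∈ PI.G Q → q ∈ PI.G Q' → (p.1 = q.1 ↔ p.2 = q.2) := by
    intro Q hQ Q' hQ' p q hp hq
    obtain ⟨R, hR, h1, h2⟩ := hdir Q hQ Q' hQ'
    have h3 : p - q ∈ R.G := R.G.sub_mem (h1 hp) (h2 hq)
    have h4 := R.zero_iff _ h3
    simpa [sub_eq_zero] using h4
  have hfg : ∀ y, f (g y) = y := by
    intro y
    exact (huniq _ (hQf (g y)) _ (hQg y) _ _ (hf (g y)) (hg y)).1 rfl
  have hgf : ∀ x, g (f x) = x := by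
    intro x
    exact (huniq _ (hQg (f x)) _ (hQf x) _ _ (hg (f x)) (hf x)).2 rfl
  have hadd : ∀ a b, f (a + b) = f a + f b := by
    intro a b
    obtain ⟨R, hR, h1, h2⟩ := hdir _ (hQf a) _ (hQf b)
    have h3 := R.G.add_mem (h1 (hf a)) (h2 (hf b))
    exact (huniq _ (hQf (a + b)) _ hR _ _ (hf (a + b)) h3).1 rfl
  exact ⟨{ toFun := f, invFun := g, left_inv := hgf, right_inv := hfg, map_add' := hadd },
    fun v => (Qf v).mem_iff _ (hf v)⟩

theorem card_aut : Cardinal.mk (MulAut (Multiplicative V)) = Cardinal.continuum := by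
  apply le_antisymm
  · have h1 : Cardinal.mk (MulAut (Multiplicative V)) ≤ Cardinal.mk (Multiplicative V → Multiplicative V) :=
      Cardinal.mk_le_of_injective (f := fun e x => e x) (fun e e' h => MulEquiv.ext (fun x => congrFun h x))
    refine h1.trans ?_
    rw [← Cardinal.power_def]
    have h2 : Cardinal.mk (Multiplicative V) ≤ Cardinal.aleph0 := Cardinal.mk_le_aleph0
    calc Cardinal.mk (Multiplicative V) ^ Cardinal.mk (Multiplicative V)
        ≤ Cardinal.aleph0 ^ Cardinal.mk (Multiplicative V) := Cardinal.power_le_power_right h2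
      _ ≤ Cardinal.aleph0 ^ Cardinal.aleph0 :=
        Cardinal.power_le_power_left Cardinal.aleph0_ne_zero h2
      _ = Cardinal.continuum := Cardinal.aleph0_power_aleph0
  · have h3 : Cardinal.mk (Equiv.Perm ℕ) = Cardinal.continuum := by
      rw [Cardinal.mk_perm_eq_self_power]
      simp
    rw [← h3]
    refine Cardinal.mk_le_of_injective
      (f := fun e : Equiv.Perm ℕ => (AddEquiv.toMultiplicative (Finsupp.domCongr e : V ≃+ V))) ?_
    intro e e' h
    ext i
    have h4 := congrArg (fun φ : MulAut (Multiplicative V) => (Multiplicative.toAdd (φ (Multiplicative.ofAdd (Finsupp.single i (1 : ZMod 2)))))) h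
    change Finsupp.equivMapDomain e (Finsupp.single i (1 : ZMod 2)) =
      Finsupp.equivMapDomain e' (Finsupp.single i (1 : ZMod 2)) at h4
    rw [Finsupp.equivMapDomain_single, Finsupp.equivMapDomain_single] at h4
    exact (Finsupp.single_left_injective (one_ne_zero)) h4

/-- The negation of the preceding statement: Every countable group with property (†) whose automorphism group has continuum size has continuum many special subsets (inverse-closed, without 1, Cayley graph isomorphic to the Rado graph) lying in pairwise distinct Aut(X)-orbits. -/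
theorem result :
    ¬ (∀ (X : Type) [Group X] [Countable X],
      (∀ (F : Finset (X × X)), (∀ p ∈ F, p.1 ≠ p.2) → ∀ (E : Finset X),
        ∃ z : X, z ∉ E ∧ ∀ p ∈ F, p.1 * z⁻¹ ≠ z * p.2⁻¹) →
      Cardinal.mk (MulAut X) = Cardinal.continuum →
      ∃ f : ℝ → Set X,
        (∀ r : ℝ, (∀ s ∈ f r, s⁻¹ ∈ f r) ∧ (1 : X) ∉ f r ∧
          ∀ U V : Finset X, Disjoint U V →
            ∃ z : X, z ∉ U ∧ z ∉ V ∧ (∀ u ∈ U, z * u⁻¹ ∈ f r) ∧ (∀ v ∈ V, z * v⁻¹ ∉ f r)) ∧
        ∀ r s : ℝ, r ≠ s → ∀ σ : MulAut X, (fun x => σ x) '' f r ≠ f s) := by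
  intro h
  obtain ⟨f, hf1, hf2⟩ := h (Multiplicative V) (by
    intro F hF E
    obtain ⟨z, hz⟩ := Infinite.exists_notMem_finset E
    refine ⟨z, hz, ?_⟩
    intro p hp heq
    apply hF p hp
    have h1 : ∀ a : Multiplicative V, a⁻¹ = a := fun a => neg_V (Multiplicative.toAdd a)
    rw [h1, h1, mul_comm] at heq
    exact mul_left_cancel heq) card_aut
  have hSp : ∀ r, Sp {v : V | Multiplicative.ofAdd v ∈ f r} := by
    intro r U W hUW
    obtain ⟨z, h1, h2, h3, h4⟩ := (hf1 r).2.2 (U.map Multiplicative.ofAdd.toEmbedding)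
      (W.map Multiplicative.ofAdd.toEmbedding) (by
        rw [Finset.disjoint_map]
        exact hUW)
    refine ⟨Multiplicative.toAdd z, ?_, ?_, ?_, ?_⟩
    · intro hz
      apply h1
      rw [Finset.mem_map]
      exact ⟨_, hz, rfl⟩
    · intro hz
      apply h2
      rw [Finset.mem_map]
      exact ⟨_, hz, rfl⟩
    · intro u hu
      have := h3 (Multiplicative.ofAdd u) (by rw [Finset.mem_map]; exact ⟨_, hu, rfl⟩)
      have h5 : (Multiplicative.ofAdd u)⁻¹ = Multiplicative.ofAdd u := neg_V u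
      rw [h5] at this
      exact this
    · intro u hu
      have := h4 (Multiplicative.ofAdd u) (by rw [Finset.mem_map]; exact ⟨_, hu, rfl⟩)
      have h5 : (Multiplicative.ofAdd u)⁻¹ = Multiplicative.ofAdd u := neg_V u
      rw [h5] at this
      exact this
  obtain ⟨e, he⟩ := exists_iso (hSp 0) (hSp 1) (hf1 0).2.1 (hf1 1).2.1
  apply hf2 0 1 zero_ne_one (AddEquiv.toMultiplicative e)
  ext x
  constructor
  · rintro ⟨y, hy, rfl⟩
    exact (he (Multiplicative.toAdd y)).1 hy
  · intro hx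
    refine ⟨Multiplicative.ofAdd (e.symm (Multiplicative.toAdd x)), ?_, ?_⟩
    · apply (he (e.symm (Multiplicative.toAdd x))).2
      rw [e.apply_symm_apply]
      exact hx
    · change Multiplicative.ofAdd (e (e.symm (Multiplicative.toAdd x))) = x
      rw [e.apply_symm_apply]
      rfl

end Pool.Agent.S00204
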