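import Pool.Statements.S00207
import Pool.Agent.Helper712.EG.Main
import Pool.Agent.Helper712.EG.Class

set_option autoImplicit false
open Pool Pool.MP_018505_al

namespace Pool.Agent.S00207

/-- There is a finite 3-group of nilpotency class exactly 3 in which every element commutes with its image under every endomorphism of the group. -/
theorem result :
    ∃ (G : Type) (_ : Group G) (_ : Finite G) (_ : Group.IsNilpotent G),
      IsPGroup 3 G ∧ Group.nilpotencyClass G = 3 ∧
      ∀ (φ : G →* G) (a : G), Commute a (φ a) :=
  ⟨Pool.Agent.Helper712.EG.G, inferInstance, inferInstance,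
    Pool.Agent.Helper712.EG.isNilpotent, Pool.Agent.Helper712.EG.isPGroup,
    Pool.Agent.Helper712.EG.class_three, Pool.Agent.Helper712.EG.commute_image⟩

end Pool.Agent.S00207
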