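import Pool.Statements.S00211
import Pool.Agent.Helper895.SimpleFree3

/-!
A simple relatively free ring of characteristic 3 (answer YES to MP_01a6c4_al Q1).

Let `O` be the perfect closure of `F_3[[x]]`, `m` its ideal of elements without constant term and
`F` the Frobenius map. `F` is bijective on `m`, and so is `1 - F` (Artin-Schreier equations with
right-hand side in `m` have exactly one solution in `m`). Put
`a * b = a b + T (a b ^ 3 - a ^ 3 b)` where `T = F⁻² (1 - F)⁻¹`, and let `R` be the subring of
`(m, +, *)` generated by `x`. The substitutions `x ↦ z`, `z` in `m`, commute with everything, hence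
`R` is free on `x` in the variety it generates. The symmetric part of `*` is the ordinary product,
the antisymmetric part is `[a, b] = T (a b ^ 3 - a ^ 3 b)`. An ideal `I ≠ 0` contains a nonzero
polynomial `g` (elements of `R` are algebraic over `F_3(x)`), and
`[u v ^ 3, b] - [u, v b] = T (u ^ 3 b (v - v ^ 9))` shows that `I` contains every polynomial `h`
without constant term such that `x g ^ 3 (x - x ^ 9)` divides `(h - h ^ 3) ^ 9`; this gives a power
of `x` and then, by descent, `x`.
-/

set_option autoImplicit false
open Pool Pool.MP_01a6c4_al

namespace Pool.Agent.S00211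

/-- There is a not-necessarily-associative ring of odd prime characteristic p that is simple, has nonzero products, and is generated by a set X on which every map into it extends to an endomorphism, i.e. it is free in some variety. -/
theorem result :
    ∃ (R : Type) (_ : NonUnitalNonAssocRing R) (p : ℕ),
      p.Prime ∧ 3 ≤ p ∧ (∀ r : R, p • r = 0) ∧
      IsSimpleOrder (TwoSidedIdeal R) ∧ (∃ a b : R, a * b ≠ 0) ∧
      ∃ X : Set R,
        (∀ S : NonUnitalSubring R, X ⊆ (S : Set R) → S = ⊤) ∧
        ∀ f : R → R, ∃ φ : R →ₙ+* R, ∀ x ∈ X, φ x = f x := by
  exact Pool.Agent.Helper895.SimpleFree.main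

end Pool.Agent.S00211
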