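import Pool.Statements.S00214
import Pool.Agent.Helper877.Ell.Main

set_option autoImplicit false
open Pool Pool.MP_01a74c_al

namespace Pool.Agent.S00214

/-- The negation of the preceding statement: For every field K and every associative K-algebra A with no zero divisors whose subalgebras satisfy the ascending chain condition, some nonzero noncommutative polynomial over K vanishes identically on A. -/
theorem result :
    ¬ (∀ (K : Type) [Field K] (A : Type) [Ring A] [Algebra K A],
      NoZeroDivisors A → WellFoundedGT (Subalgebra K A) →
      ∃ (n : ℕ) (f : FreeAlgebra K (Fin n)), f ≠ 0 ∧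
        ∀ v : Fin n → A, FreeAlgebra.lift K v f = 0) := by
  intro h
  obtain ⟨A, hR, hA, hdom, hacc, hpi⟩ := Pool.Agent.Helper877.Ell.main
  exact hpi (h ℂ A hdom hacc)

end Pool.Agent.S00214
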