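import Pool.Statements.S00218
import Pool.Agent.Helper904.Kh.P_final
import Pool.Agent.Helper904.Kh.P_goodAll

set_option autoImplicit false
open Pool Pool.MP_01bd7f_al

namespace Pool.Agent.S00218

/-- The negation of the preceding statement: There is a function f such that every finite soluble group with an automorphism of prime order p whose fixed points all lie in the centre has derived length at most f(p). -/
theorem result :
    ¬ (∃ f : ℕ → ℕ, ∀ p : ℕ, p.Prime →
      ∀ (G : Type) [Group G] [Finite G], IsSolvable G →
        ∀ φ : MulAut G, orderOf φ = p →
          (∀ g : G, φ g = g → g ∈ Subgroup.center G) →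
            derivedSeries G (f p) = ⊥) := by
  exact Pool.Agent.Helper904.Kh.final_sol Pool.Agent.Helper904.Kh.good_all

end Pool.Agent.S00218
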