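import Pool.Statements.S00221
import Pool.Agent.Helper111.FP5

set_option autoImplicit false
open Pool Pool.MP_02e21a_al

namespace Pool.Agent.S00221

open Pool.Agent.Helper111 Pool.Agent.Helper111.CT

/-- moduli with all prime factors in `P ∪ {2}` -/
def MoF (P : Finset ℕ) (m : ℤ) : Prop :=
  0 < m ∧ ∀ p : ℕ, Nat.Prime p → (p : ℤ) ∣ m → p = 2 ∨ p ∈ P

theorem adm_MoF (P : Finset ℕ) : Adm (MoF P) where
  one := by
    refine ⟨one_pos, fun p hp h => ?_⟩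
    exfalso
    have h1 := Int.le_of_dvd one_pos h
    have := hp.two_le
    omega
  two := by
    refine ⟨two_pos, fun p hp h => ?_⟩
    left
    have h1 : p ∣ 2 := by exact_mod_cast h
    exact (Nat.prime_dvd_prime_iff_eq hp Nat.prime_two).1 h1
  mul := by
    rintro a b ⟨ha, ha'⟩ ⟨hb, hb'⟩
    refine ⟨mul_pos ha hb, fun p hp h => ?_⟩
    rcases (Nat.prime_iff_prime_int.1 hp).dvd_or_dvd h with h | h
    · exact ha' p hp h
    · exact hb' p hp h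

theorem mem_pf {m : ℤ} (hm : 0 < m) (p : ℕ) :
    p ∈ Nat.primeFactors m.natAbs ↔ Nat.Prime p ∧ (p : ℤ) ∣ m := by
  rw [Nat.mem_primeFactors]
  constructor
  · rintro ⟨h1, h2, _⟩
    exact ⟨h1, Int.natCast_dvd.2 h2⟩
  · rintro ⟨h1, h2⟩
    exact ⟨h1, Int.natCast_dvd.1 h2, by omega⟩

theorem mod_iff {m r k : ℤ} (h0 : 0 ≤ r) (h1 : r < m) : k % m = r ↔ m ∣ k - r := by
  constructor
  · intro h
    rw [← h]
    exact Int.dvd_self_sub_emod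
  · intro h
    have h2 : k % m = r % m := Int.emod_eq_emod_iff_emod_sub_eq_zero.2 (Int.emod_eq_zero_of_dvd h)
    rw [h2, Int.emod_eq_of_lt h0 h1]

theorem gen_eq (P : Finset ℕ) : {σ : Equiv.Perm ℤ | ∃ r₁ m₁ r₂ m₂ : ℤ,
          0 < m₁ ∧ 0 < m₂ ∧ 0 ≤ r₁ ∧ r₁ < m₁ ∧ 0 ≤ r₂ ∧ r₂ < m₂ ∧
          (∀ k : ℤ, ¬ (k % m₁ = r₁ ∧ k % m₂ = r₂)) ∧
          (∀ p ∈ Nat.primeFactors m₁.natAbs, p = 2 ∨ p ∈ P) ∧
          (∀ p ∈ Nat.primeFactors m₂.natAbs, p = 2 ∨ p ∈ P) ∧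
          ∀ k : ℤ, σ k =
            if k % m₁ = r₁ then (m₂ * k + m₁ * r₂ - m₂ * r₁) / m₁
            else if k % m₂ = r₂ then (m₁ * k + m₂ * r₁ - m₁ * r₂) / m₂
            else k} = {σ : Equiv.Perm ℤ | IsCT (MoF P) σ} := by
  ext σ
  simp only [Set.mem_setOf_eq]
  constructor
  · rintro ⟨r₁, m₁, r₂, m₂, h1, h2, h3, h4, h5, h6, h7, h8, h9, h10⟩
    have hd : ∀ n : ℤ, ¬ (m₁ ∣ n - r₁ ∧ m₂ ∣ n - r₂) := by
      rintro n ⟨ha, hb⟩
      exact h7 n ⟨(mod_iff h3 h4).2 ha, (mod_iff h5 h6).2 hb⟩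
    refine ⟨r₁, m₁, r₂, m₂, h3, h4, h5, h6,
      ⟨h1, fun p hp h => h8 p ((mem_pf h1 p).2 ⟨hp, h⟩)⟩,
      ⟨h2, fun p hp h => h9 p ((mem_pf h2 p).2 ⟨hp, h⟩)⟩, hd, ?_, ?_⟩
    · intro k
      have a1 : m₁ ∣ r₁ + m₁ * k - r₁ := ⟨k, by ring⟩
      have a2 : m₂ ∣ r₂ + m₂ * k - r₂ := ⟨k, by ring⟩
      have a3 : ¬ m₁ ∣ r₂ + m₂ * k - r₁ := fun h => hd _ ⟨h, a2⟩
      constructor
      · rw [h10, if_pos ((mod_iff h3 h4).2 a1),
          show m₂ * (r₁ + m₁ * k) + m₁ * r₂ - m₂ * r₁ = m₁ * (r₂ + m₂ * k) by ring,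
          Int.mul_ediv_cancel_left _ h1.ne']
      · rw [h10, if_neg (fun h => a3 ((mod_iff h3 h4).1 h)), if_pos ((mod_iff h5 h6).2 a2),
          show m₁ * (r₂ + m₂ * k) + m₂ * r₁ - m₁ * r₂ = m₂ * (r₁ + m₁ * k) by ring,
          Int.mul_ediv_cancel_left _ h2.ne']
    · intro n ha hb
      rw [h10, if_neg (fun h => ha ((mod_iff h3 h4).1 h)),
        if_neg (fun h => hb ((mod_iff h5 h6).1 h))]
  · rintro ⟨r₁, m₁, r₂, m₂, h3, h4, h5, h6, hm1, hm2, hd, hs, hf⟩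
    refine ⟨r₁, m₁, r₂, m₂, hm1.1, hm2.1, h3, h4, h5, h6, ?_, ?_, ?_, ?_⟩
    · rintro k ⟨ha, hb⟩
      exact hd k ⟨(mod_iff h3 h4).1 ha, (mod_iff h5 h6).1 hb⟩
    · intro p hp
      obtain ⟨h1, h2⟩ := (mem_pf hm1.1 p).1 hp
      exact hm1.2 p h1 h2
    · intro p hp
      obtain ⟨h1, h2⟩ := (mem_pf hm2.1 p).1 hp
      exact hm2.2 p h1 h2
    · intro n
      by_cases ha : m₁ ∣ n - r₁
      · rw [if_pos ((mod_iff h3 h4).2 ha)]
        obtain ⟨k, hk⟩ := ha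
        have hn : n = r₁ + m₁ * k := by linarith
        rw [hn, show m₂ * (r₁ + m₁ * k) + m₁ * r₂ - m₂ * r₁ = m₁ * (r₂ + m₂ * k) by ring,
          Int.mul_ediv_cancel_left _ hm1.1.ne', (hs k).1]
      · rw [if_neg (fun h => ha ((mod_iff h3 h4).1 h))]
        by_cases hb : m₂ ∣ n - r₂
        · rw [if_pos ((mod_iff h5 h6).2 hb)]
          obtain ⟨k, hk⟩ := hb
          have hn : n = r₂ + m₂ * k := by linarith
          rw [hn, show m₁ * (r₂ + m₂ * k) + m₂ * r₁ - m₁ * r₂ = m₂ * (r₁ + m₁ * k) by ring,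
            Int.mul_ediv_cancel_left _ hm2.1.ne', (hs k).2]
        · rw [if_neg (fun h => hb ((mod_iff h5 h6).1 h)), hf n ha hb]

/-- For every finite set P of odd primes, the group generated by all class transpositions of ℤ with moduli having only prime factors in P or 2 is finitely presented. -/
theorem result :
  ∀ P : Finset ℕ, (∀ p ∈ P, Nat.Prime p ∧ p ≠ 2) →
    ∃ (n : ℕ) (φ : FreeGroup (Fin n) →* ↥(Subgroup.closure
        {σ : Equiv.Perm ℤ | ∃ r₁ m₁ r₂ m₂ : ℤ,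
          0 < m₁ ∧ 0 < m₂ ∧ 0 ≤ r₁ ∧ r₁ < m₁ ∧ 0 ≤ r₂ ∧ r₂ < m₂ ∧
          (∀ k : ℤ, ¬ (k % m₁ = r₁ ∧ k % m₂ = r₂)) ∧
          (∀ p ∈ Nat.primeFactors m₁.natAbs, p = 2 ∨ p ∈ P) ∧
          (∀ p ∈ Nat.primeFactors m₂.natAbs, p = 2 ∨ p ∈ P) ∧
          ∀ k : ℤ, σ k =
            if k % m₁ = r₁ then (m₂ * k + m₁ * r₂ - m₂ * r₁) / m₁
            else if k % m₂ = r₂ then (m₁ * k + m₂ * r₁ - m₁ * r₂) / m₂
            else k})),
      Function.Surjective φ ∧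
        ∃ R : Finset (FreeGroup (Fin n)),
          φ.ker = Subgroup.normalClosure (R : Set (FreeGroup (Fin n))) := by
  intro P hP
  rw [gen_eq P]
  have hPs : FP.PS ((insert 2 P : Finset ℕ) : Set ℕ) := by
    refine ⟨fun p hp => ?_, ?_⟩
    · rw [Finset.mem_coe, Finset.mem_insert] at hp
      rcases hp with h | h
      · rw [h]; exact Nat.prime_two
      · exact (hP p h).1
    · rw [Finset.mem_coe]; exact Finset.mem_insert_self _ _
  refine FP.fp hPs (Finset.finite_toSet _) (adm_MoF P) ?_ ?_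
  · intro p hp
    have hpp := hPs.prime p hp
    refine ⟨by exact_mod_cast hpp.pos, fun q hq h => ?_⟩
    have h1 : q ∣ p := by exact_mod_cast h
    rw [(Nat.prime_dvd_prime_iff_eq hq hpp).1 h1]
    rw [Finset.mem_coe, Finset.mem_insert] at hp
    exact hp
  · intro m hm p hp h
    rw [Finset.mem_coe, Finset.mem_insert]
    exact hm.2 p hp h

end Pool.Agent.S00221
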