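import Pool.Statements.S00225

set_option autoImplicit false
open Pool Pool.MP_042d8e_al

namespace Pool.Agent.S00225

/-- Vertices of the binary tree: words, the parent of a word is its tail. -/
abbrev W := List Bool

/-- Finitary automorphisms of the binary rooted tree. -/
def FinAut : Subgroup (Equiv.Perm W) where
  carrier := {g | (∀ v, (g v).length = v.length) ∧ (∀ v, (g v).tail = g v.tail) ∧
    {v | g (true :: v) ≠ true :: g v}.Finite}
  one_mem' := by
    refine ⟨fun v => rfl, fun v => rfl, ?_⟩
    simp
  mul_mem' := by
    rintro g h ⟨g1, g2, g3⟩ ⟨h1, h2, h3⟩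
    refine ⟨fun v => by simp [g1, h1], fun v => by simp [g2, h2], ?_⟩
    refine ((g3.preimage (f := h) (h.injective.injOn)).union h3).subset ?_
    intro v hv
    by_contra hc
    simp only [Set.mem_union, Set.mem_preimage, Set.mem_ofPred_eq, not_or, not_not] at hc
    apply hv
    simp [Equiv.Perm.mul_apply, hc.1, hc.2]
  inv_mem' := by
    rintro g ⟨g1, g2, g3⟩
    have l : ∀ v, (g⁻¹ v).length = v.length := by
      intro v
      have := g1 (g⁻¹ v)
      simpa using this.symm
    have t : ∀ v, (g⁻¹ v).tail = g⁻¹ v.tail := by
      intro v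
      have := g2 (g⁻¹ v)
      rw [← Equiv.Perm.inv_eq_iff_eq] at this
      simpa using this.symm
    refine ⟨l, t, ?_⟩
    refine (g3.preimage (f := (g⁻¹ : Equiv.Perm W)) (Equiv.injective _).injOn).subset ?_
    intro v hv
    by_contra hc
    simp only [Set.mem_preimage, Set.mem_ofPred_eq, not_not] at hc
    apply hv
    rw [Equiv.Perm.inv_eq_iff_eq, hc]
    simp

theorem cons_form {g : Equiv.Perm W} (hg : g ∈ FinAut) (b : Bool) (v : W) :
    ∃ c, g (b :: v) = c :: g v := by
  obtain ⟨h1, h2, -⟩ := hg
  have l := h1 (b :: v)
  have t := h2 (b :: v)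
  cases h : g (b :: v) with
  | nil => simp [h] at l
  | cons c w =>
    rw [h] at t
    simp at t
    exact ⟨c, by rw [t]⟩

/-- The label of `g` at `v`. -/
def lab (g : Equiv.Perm W) (v : W) : ZMod 2 := if g (true :: v) = true :: g v then 0 else 1

theorem lab_spec {g : Equiv.Perm W} (hg : g ∈ FinAut) (b : Bool) (v : W) :
    g (b :: v) = (if lab g v = 0 then b else !b) :: g v := by
  obtain ⟨c, hc⟩ := cons_form hg true v
  obtain ⟨d, hd⟩ := cons_form hg false v
  have hne : c ≠ d := by
    rintro rfl
    have := g.injective (hc.trans hd.symm)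
    simp at this
  unfold lab
  cases b <;> cases c <;> cases d <;> simp_all

theorem lab_mul {g h : Equiv.Perm W} (hg : g ∈ FinAut) (hh : h ∈ FinAut) (v : W) :
    lab (g * h) v = lab g (h v) + lab h v := by
  have e1 := lab_spec hg (if lab h v = 0 then true else false) (h v)
  have e2 := lab_spec hh true v
  have e3 : (g * h) (true :: v) = (if lab g (h v) = 0 then (if lab h v = 0 then true else false) else
      !(if lab h v = 0 then true else false)) :: (g * h) v := by
    rw [Equiv.Perm.mul_apply, e2, Equiv.Perm.mul_apply, ← e1]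
    simp
  have z : ∀ x : ZMod 2, x = 0 ∨ x = 1 := by decide
  have o : (1 : ZMod 2) + 1 = 0 := by decide
  have n1 : (1 : ZMod 2) ≠ 0 := by decide
  rw [lab, e3]
  rcases z (lab g (h v)) with ha | ha <;> rcases z (lab h v) with hb | hb <;>
    simp [ha, hb, o]

theorem lab_finite {g : Equiv.Perm W} (hg : g ∈ FinAut) : {v | lab g v ≠ 0}.Finite := by
  refine hg.2.2.subset ?_
  intro v hv
  simp only [Set.mem_ofPred_eq, lab] at hv ⊢
  intro h
  simp [h] at hv

/-- weight of the levels -/
def wt (a : ℕ) (v : W) : ZMod 2 := if (Nat.unpair v.length).1 = a then 1 else 0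

theorem supp_fin {g : Equiv.Perm W} (hg : g ∈ FinAut) (a : ℕ) :
    (Function.support fun v => wt a v * lab g v).Finite := by
  refine (lab_finite hg).subset ?_
  intro v hv
  simp only [Function.mem_support] at hv
  simp only [Set.mem_ofPred_eq]
  intro h
  simp [h] at hv

/-- The character attached to `a`. -/
noncomputable def chi (a : ℕ) : FinAut →* Multiplicative (ZMod 2) where
  toFun g := Multiplicative.ofAdd (∑ᶠ v : W, wt a v * lab g.1 v)
  map_one' := by
    have : ∀ v : W, lab (1 : Equiv.Perm W) v = 0 := by
      intro v
      simp [lab]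
    simp [this]
  map_mul' := by
    rintro ⟨g, hg⟩ ⟨h, hh⟩
    rw [← ofAdd_add]
    congr 1
    have e : ∀ v : W, wt a v * lab ((⟨g, hg⟩ * ⟨h, hh⟩ : FinAut) : Equiv.Perm W) v =
        wt a (h v) * lab g (h v) + wt a v * lab h v := by
      intro v
      have : wt a (h v) = wt a v := by simp [wt, hh.1]
      rw [this, Subgroup.coe_mul, lab_mul hg hh, mul_add]
    simp only [e]
    have f1 : (Function.support fun v => wt a (h v) * lab g (h v)).Finite := by
      have := (supp_fin hg a).preimage (f := h) h.injective.injOn
      exact this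
    rw [finsum_add_distrib f1 (supp_fin hh a)]
    congr 1
    exact finsum_comp_equiv h (f := fun v => wt a v * lab g v)

/-- The elementary flip at `u`, as a function. -/
def flipFun (u : W) : W → W
  | [] => []
  | b :: v => if v = u then (!b) :: v else b :: flipFun u v

theorem flip_length (u v : W) : (flipFun u v).length = v.length := by
  induction v with
  | nil => rfl
  | cons b v ih => simp only [flipFun]; split_ifs <;> simp [ih]

theorem flip_short (u v : W) (h : v.length ≤ u.length) : flipFun u v = v := by
  induction v with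
  | nil => rfl
  | cons b v ih =>
    have : v ≠ u := by rintro rfl; simp at h
    simp only [flipFun, this, if_false]
    rw [ih (by simp at h; omega)]

theorem flip_flip (u v : W) : flipFun u (flipFun u v) = v := by
  induction v with
  | nil => rfl
  | cons b v ih =>
    by_cases h : v = u
    · subst h
      simp [flipFun]
    · have h2 : flipFun u v ≠ u := by
        intro h2
        rw [h2, flip_short u u le_rfl] at ih
        exact h ih.symm
      simp [flipFun, h, h2, ih]

theorem flip_tail (u v : W) : (flipFun u v).tail = flipFun u v.tail := by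
  cases v with
  | nil => rfl
  | cons b v =>
    by_cases h : v = u
    · subst h
      simp [flipFun, flip_short]
    · simp [flipFun, h]

def flip (u : W) : Equiv.Perm W :=
  ⟨flipFun u, flipFun u, flip_flip u, flip_flip u⟩

theorem flip_apply (u v : W) : flip u v = flipFun u v := rfl

theorem lab_flip (u v : W) : lab (flip u) v = if v = u then 1 else 0 := by
  unfold lab
  by_cases h : v = u
  · subst h
    simp [flip_apply, flipFun]
  · simp [flip_apply, flipFun, h]

theorem flip_mem (u : W) : flip u ∈ FinAut := by
  refine ⟨flip_length u, flip_tail u, ?_⟩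
  refine (Set.finite_singleton u).subset ?_
  intro v hv
  by_contra h
  simp only [Set.mem_singleton_iff] at h
  apply hv
  simp [flip_apply, flipFun, h]

theorem chi_flip (a : ℕ) (u : W) :
    chi a ⟨flip u, flip_mem u⟩ = Multiplicative.ofAdd (wt a u) := by
  change Multiplicative.ofAdd _ = _
  congr 1
  simp only [lab_flip]
  rw [finsum_eq_single _ u]
  · simp
  · intro v hv
    simp [hv]

/-- Level `i` as a type. -/
abbrev Lev (i : ℕ) := {v : W // v.length = i}

instance (i : ℕ) : Finite (Lev i) := (List.finite_length_eq Bool i).to_subtype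

/-- restriction to a level -/
def res (i : ℕ) : FinAut →* Equiv.Perm (Lev i) where
  toFun g :=
    { toFun := fun v => ⟨g.1 v.1, by rw [g.2.1, v.2]⟩
      invFun := fun v => ⟨g.1⁻¹ v.1, by
        have := g⁻¹.2.1 v.1
        exact this.trans v.2⟩
      left_inv := fun v => by simp
      right_inv := fun v => by simp }
  map_one' := by ext v : 2; simp
  map_mul' g h := by ext v : 2; simp

theorem mem_ker_res {i : ℕ} {g : FinAut} :
    g ∈ (res i).ker ↔ ∀ v : W, v.length = i → g.1 v = v := by
  rw [MonoidHom.mem_ker]
  constructor
  · intro h v hv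
    have := congrArg (fun f => (f ⟨v, hv⟩ : Lev i).1) h
    simpa [res] using this
  · intro h
    ext v : 2
    exact h v.1 v.2

theorem ker_res_le {i : ℕ} {g : FinAut} (h : g ∈ (res i).ker) (v : W) (hv : v.length ≤ i) :
    g.1 v = v := by
  rw [mem_ker_res] at h
  obtain ⟨k, hk⟩ : ∃ k, i = v.length + k := ⟨i - v.length, by omega⟩
  subst hk
  clear hv
  induction k generalizing v with
  | zero => exact h v rfl
  | succ k ih =>
    have := ih (true :: v) (by
      intro w hw
      apply h
      simp at hw
      omega)
    have h2 := g.2.2.1 (true :: v)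
    rw [this] at h2
    exact h2.symm

theorem trans_aux : ∀ v w : W, v.length = w.length → ∃ g : FinAut, g.1 v = w
  | [], [], _ => ⟨1, rfl⟩
  | [], c :: w, h => by simp at h
  | b :: v, [], h => by simp at h
  | b :: v, c :: w, h => by
    obtain ⟨g, hg⟩ := trans_aux v w (by simpa using h)
    obtain ⟨d, hd⟩ := cons_form g.2 b v
    rw [hg] at hd
    by_cases hdc : d = c
    · exact ⟨g, by rw [hd, hdc]⟩
    · refine ⟨⟨flip w, flip_mem w⟩ * g, ?_⟩
      rw [Subgroup.coe_mul, Equiv.Perm.mul_apply, hd]
      change flipFun w (d :: w) = _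
      simp only [flipFun, if_true]
      cases d <;> cases c <;> simp_all

/-- `x` lies below `v`. -/
def Below (v x : W) : Prop := ∃ k : ℕ, List.tail^[k] x = v

theorem tail_iter_comm {g : Equiv.Perm W} (hg : g ∈ FinAut) (k : ℕ) (x : W) :
    List.tail^[k] (g x) = g (List.tail^[k] x) := by
  induction k generalizing x with
  | zero => rfl
  | succ k ih => rw [Function.iterate_succ_apply, hg.2.1, ih, ← Function.iterate_succ_apply]

theorem tail_iter_length (k : ℕ) (x : W) : (List.tail^[k] x).length = x.length - k := by
  induction k generalizing x with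
  | zero => rfl
  | succ k ih => rw [Function.iterate_succ_apply, ih, List.length_tail]; omega

theorem below_apply {g : Equiv.Perm W} (hg : g ∈ FinAut) {v : W} (hv : g v = v) (x : W) :
    Below v (g x) ↔ Below v x := by
  unfold Below
  refine exists_congr fun k => ?_
  rw [tail_iter_comm hg]
  constructor
  · intro h
    exact g.injective (h.trans hv.symm)
  · intro h
    rw [h, hv]

theorem below_length {v x : W} (h : Below v x) : v.length ≤ x.length := by
  obtain ⟨k, hk⟩ := h
  have := tail_iter_length k x
  rw [hk] at this
  omega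

theorem below_cons {v x : W} (b : Bool) (h : Below v x) : Below v (b :: x) := by
  obtain ⟨k, hk⟩ := h
  exact ⟨k + 1, by rw [Function.iterate_succ_apply]; exact hk⟩

theorem below_of_cons {v x : W} {b : Bool} (h : Below v (b :: x)) (hne : b :: x ≠ v) : Below v x := by
  obtain ⟨k, hk⟩ := h
  cases k with
  | zero => exact absurd hk hne
  | succ k => exact ⟨k, by rw [Function.iterate_succ_apply] at hk; exact hk⟩

open Classical in
/-- the part of `g` below `v` -/
noncomputable def partFun (v : W) (g : Equiv.Perm W) (x : W) : W := if Below v x then g x else x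

noncomputable def part (v : W) (g : Equiv.Perm W) (hg : g ∈ FinAut) (hv : g v = v) :
    Equiv.Perm W where
  toFun := partFun v g
  invFun := partFun v g⁻¹
  left_inv x := by
    unfold partFun
    by_cases h : Below v x
    · rw [if_pos h, if_pos ((below_apply hg hv x).2 h)]
      simp
    · rw [if_neg h, if_neg h]
  right_inv x := by
    have hg' : g⁻¹ ∈ FinAut := inv_mem hg
    have hv' : g⁻¹ v = v := by rw [Equiv.Perm.inv_eq_iff_eq, hv]
    unfold partFun
    by_cases h : Below v x
    · rw [if_pos h, if_pos ((below_apply hg' hv' x).2 h)]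
      simp
    · rw [if_neg h, if_neg h]

theorem part_pos {v : W} {g : Equiv.Perm W} {hg : g ∈ FinAut} {hv : g v = v} {x : W}
    (h : Below v x) : part v g hg hv x = g x := by
  change partFun v g x = _
  rw [partFun, if_pos h]

theorem part_neg {v : W} {g : Equiv.Perm W} {hg : g ∈ FinAut} {hv : g v = v} {x : W}
    (h : ¬ Below v x) : part v g hg hv x = x := by
  change partFun v g x = _
  rw [partFun, if_neg h]

theorem part_self {v : W} {g : Equiv.Perm W} {hg : g ∈ FinAut} {hv : g v = v} :
    part v g hg hv v = v := by
  have h : Below v v := ⟨0, rfl⟩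
  rw [part_pos h, hv]

theorem part_mem {v : W} {g : Equiv.Perm W} (hg : g ∈ FinAut) (hv : g v = v) :
    part v g hg hv ∈ FinAut := by
  refine ⟨?_, ?_, ?_⟩
  · intro x
    by_cases h : Below v x
    · rw [part_pos h, hg.1]
    · rw [part_neg h]
  · intro x
    cases x with
    | nil =>
      by_cases h : Below v []
      · rw [part_pos h]
        exact (hg.2.1 []).trans (part_pos h).symm
      · rw [part_neg h]
        exact (part_neg h).symm
    | cons b x =>
      by_cases hx : b :: x = v
      · rw [hx, part_self]
        have : ¬ Below v x := by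
          intro h
          have := below_length h
          rw [← hx] at this
          simp at this
        have ht : v.tail = x := by rw [← hx]; rfl
        rw [ht]
        exact (part_neg this).symm
      · by_cases h : Below v x
        · rw [part_pos (below_cons b h), hg.2.1]
          exact (part_pos h).symm
        · rw [part_neg (fun hc => h (below_of_cons hc hx))]
          exact (part_neg h).symm
  · refine hg.2.2.subset ?_
    intro x hx
    simp only [Set.mem_ofPred_eq] at hx ⊢
    intro hc
    apply hx
    by_cases h : Below v x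
    · rw [part_pos h, part_pos (below_cons _ h), hc]
    · by_cases hx : true :: x = v
      · rw [part_neg h, hx, part_self]
      · rw [part_neg h, part_neg (fun hc => h (below_of_cons hc hx))]


/-- the generating set of the rigid level stabilizer, as in the statement -/
abbrev ristSet (n : ℕ) : Set FinAut := {g : FinAut | ∃ v : W, v.length = n ∧
  ∀ w : W, (∀ k : ℕ, List.tail^[k] w ≠ v) → g • w = w}

theorem smul_eq (g : FinAut) (w : W) : g • w = g.1 w := rfl

theorem rist_aux (n : ℕ) (S : Finset W) (hS : ∀ v ∈ S, v.length = n) :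
    ∀ g : FinAut, g ∈ (res n).ker → (∀ x : W, (∀ v ∈ S, ¬ Below v x) → g.1 x = x) →
      g ∈ Subgroup.closure (ristSet n) := by
  classical
  induction S using Finset.induction_on with
  | empty =>
    intro g _ hx
    have : g = 1 := by
      ext x : 2
      exact hx x (by simp)
    rw [this]
    exact one_mem _
  | insert v S hvS ih =>
    intro g hg hx
    have hvn : v.length = n := hS v (Finset.mem_insert_self v S)
    have hgv : g.1 v = v := mem_ker_res.1 hg v hvn
    set p : FinAut := ⟨part v g.1 g.2 hgv, part_mem g.2 hgv⟩ with hp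
    have ppos : ∀ x : W, Below v x → p.1 x = g.1 x :=
      fun x h => part_pos (hg := g.2) (hv := hgv) h
    have pneg : ∀ x : W, ¬ Below v x → p.1 x = x :=
      fun x h => part_neg (hg := g.2) (hv := hgv) h
    have hp1 : p ∈ Subgroup.closure (ristSet n) := by
      apply Subgroup.subset_closure
      refine ⟨v, hvn, ?_⟩
      intro w hw
      rw [smul_eq]
      apply pneg
      rintro ⟨k, hk⟩
      exact hw k hk
    have hp2 : p ∈ (res n).ker := by
      rw [mem_ker_res]
      intro w hw
      by_cases h : Below v w
      · rw [ppos w h]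
        exact mem_ker_res.1 hg w hw
      · exact pneg w h
    have key : p⁻¹ * g ∈ Subgroup.closure (ristSet n) := by
      apply ih (fun u hu => hS u (Finset.mem_insert_of_mem hu))
      · exact mul_mem (inv_mem hp2) hg
      · intro x hxS
        rw [Subgroup.coe_mul, Equiv.Perm.mul_apply, Subgroup.coe_inv, Equiv.Perm.inv_eq_iff_eq]
        by_cases h : Below v x
        · exact (ppos x h).symm
        · rw [pneg x h]
          apply hx
          intro u hu
          rcases Finset.mem_insert.1 hu with rfl | hu
          · exact h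
          · exact hxS u hu
    have := mul_mem hp1 key
    simpa using this

theorem rist_finiteIndex (n : ℕ) : (Subgroup.closure (ristSet n)).FiniteIndex := by
  have hle : (res n).ker ≤ Subgroup.closure (ristSet n) := by
    intro g hg
    refine rist_aux n (List.finite_length_eq Bool n).toFinset (by simp) g hg ?_
    intro x hx
    apply ker_res_le hg
    by_contra hlt
    apply hx (List.tail^[x.length - n] x)
    · simp [tail_iter_length]
      omega
    · exact ⟨_, rfl⟩
  have : (res n).ker.FiniteIndex := Subgroup.finiteIndex_ker _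
  exact Subgroup.finiteIndex_of_le hle

/-- the normal T-sequences -/
noncomputable def M (a i : ℕ) : Subgroup FinAut := (chi a).ker ⊓ (res i).ker

theorem M_inequiv {a b : ℕ} (hab : a ≠ b) : ¬ (∀ i : ℕ, ∃ j : ℕ, M b j ≤ M a i) := by
  intro h
  obtain ⟨j, hj⟩ := h 0
  set u : W := List.replicate (Nat.pair a j) true with hu
  have hul : u.length = Nat.pair a j := by simp [hu]
  have h1 : (⟨flip u, flip_mem u⟩ : FinAut) ∈ M b j := by
    refine ⟨?_, ?_⟩
    · change _ ∈ (chi b).ker
      rw [MonoidHom.mem_ker, chi_flip]
      simp [wt, hul, hab]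
    · change _ ∈ (res j).ker
      rw [mem_ker_res]
      intro v hv
      apply flip_short
      rw [hul, hv]
      exact Nat.right_le_pair a j
  have h2 := (hj h1).1
  change _ ∈ (chi a).ker at h2
  rw [MonoidHom.mem_ker, chi_flip] at h2
  simp [wt, hul] at h2

/-- There is a branch group (faithful, level-transitive on a locally finite rooted tree, finite-index rigid level stabilizers) with infinitely many pairwise inequivalent descending sequences of finite-index normal subgroups with trivial intersection. -/
theorem result :
    ∃ (G : Type) (_ : Group G) (V : Type) (_ : MulAction G V) (lev : V → ℕ) (par : V → V),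
      (∀ v w : V, lev v = 0 → lev w = 0 → v = w) ∧
      (∃ v : V, lev v = 0) ∧
      (∀ w : V, lev w = 0 → par w = w) ∧
      (∀ w : V, lev w ≠ 0 → lev (par w) + 1 = lev w) ∧
      (∀ n : ℕ, {v : V | lev v = n}.Finite) ∧
      (∀ v : V, ∃ w₁ w₂ : V, w₁ ≠ w₂ ∧ par w₁ = v ∧ par w₂ = v ∧
          lev w₁ = lev v + 1 ∧ lev w₂ = lev v + 1) ∧
      (∀ (g : G) (w : V), lev (g • w) = lev w ∧ par (g • w) = g • par w) ∧
      (∀ g : G, (∀ v : V, g • v = v) → g = 1) ∧
      (∀ v w : V, lev v = lev w → ∃ g : G, g • v = w) ∧
      (∀ n : ℕ, (Subgroup.closure {g : G | ∃ v : V, lev v = n ∧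
          ∀ w : V, (∀ k : ℕ, par^[k] w ≠ v) → g • w = w}).FiniteIndex) ∧
      ∃ M : ℕ → ℕ → Subgroup G,
        (∀ a : ℕ, Antitone (M a) ∧ (∀ i : ℕ, (M a i).Normal ∧ (M a i).FiniteIndex) ∧
            (⨅ i : ℕ, M a i) = ⊥) ∧
        (∀ a b : ℕ, a ≠ b →
            ¬ ((∀ i : ℕ, ∃ j : ℕ, M b j ≤ M a i) ∧ (∀ i : ℕ, ∃ j : ℕ, M a j ≤ M b i))) := by
  refine ⟨FinAut, inferInstance, W, inferInstance, List.length, List.tail, ?_, ?_, ?_, ?_, ?_, ?_,
    ?_, ?_, ?_, ?_, M, ?_, ?_⟩
  · intro v w hv hw
    rw [List.length_eq_zero_iff] at hv hw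
    rw [hv, hw]
  · exact ⟨[], rfl⟩
  · intro w hw
    rw [List.length_eq_zero_iff] at hw
    rw [hw]
    rfl
  · intro w hw
    rw [List.length_tail]
    omega
  · intro n
    exact List.finite_length_eq Bool n
  · intro v
    exact ⟨true :: v, false :: v, by simp, rfl, rfl, rfl, rfl⟩
  · intro g w
    exact ⟨g.2.1 w, g.2.2.1 w⟩
  · intro g h
    ext x : 2
    exact h x
  · intro v w h
    exact trans_aux v w h
  · intro n
    exact rist_finiteIndex n
  · intro a
    refine ⟨?_, ?_, ?_⟩
    · intro i j hij g hg
      refine ⟨hg.1, ?_⟩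
      have hg2 : g ∈ (res j).ker := hg.2
      change g ∈ (res i).ker
      rw [mem_ker_res]
      intro v hv
      exact ker_res_le hg2 v (by omega)
    · intro i
      refine ⟨?_, ?_⟩
      · unfold M
        infer_instance
      · unfold M
        have h1 : (chi a).ker.FiniteIndex := Subgroup.finiteIndex_ker _
        have h2 : (res i).ker.FiniteIndex := Subgroup.finiteIndex_ker _
        infer_instance
    · rw [eq_bot_iff]
      intro g hg
      rw [Subgroup.mem_iInf] at hg
      rw [Subgroup.mem_bot]
      ext x : 2
      exact mem_ker_res.1 (show g ∈ (res x.length).ker from (hg x.length).2) x rfl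
  · intro a b hab h
    exact M_inequiv hab h.1

end Pool.Agent.S00225
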