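import Pool.Statements.S00229
import Pool.Agent.INFB.Table

set_option autoImplicit false
open Pool Pool.MP_045f20_al

namespace Pool.Agent.S00229

/-- It is computably decidable, given a finite monoid as a multiplication table, whether it is inherently non-finitely based: every set of monoid identities it satisfies that defines a locally finite variety is equivalent to no finite set of identities. -/
theorem result :
    ComputablePred (fun c : ℕ × List ℕ =>
      c.2.length = c.1 * c.1 ∧ c.1 ≠ 0 ∧ (∀ x ∈ c.2, x < c.1) ∧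
      (∀ a < c.1, ∀ b < c.1, ∀ d < c.1,
        c.2.getD ((c.2.getD (a * c.1 + b) 0) * c.1 + d) 0 =
          c.2.getD (a * c.1 + c.2.getD (b * c.1 + d) 0) 0) ∧
      ∃ e < c.1, (∀ a < c.1, c.2.getD (e * c.1 + a) 0 = a ∧ c.2.getD (a * c.1 + e) 0 = a) ∧
        ∀ Sig : Set (FreeMonoid ℕ × FreeMonoid ℕ),
          (∀ p ∈ Sig, ∀ f : ℕ → ℕ, (∀ i, f i < c.1) →
            (FreeMonoid.toList p.1).foldl (fun a x => c.2.getD (a * c.1 + f x) 0) e =
              (FreeMonoid.toList p.2).foldl (fun a x => c.2.getD (a * c.1 + f x) 0) e) →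
          (∀ (N : Type) [Monoid N],
            (∀ p ∈ Sig, ∀ g : ℕ → N, FreeMonoid.lift g p.1 = FreeMonoid.lift g p.2) →
            Monoid.FG N → Finite N) →
          ¬ ∃ F : Finset (FreeMonoid ℕ × FreeMonoid ℕ), ∀ (N : Type) [Monoid N],
            ((∀ p ∈ F, ∀ g : ℕ → N, FreeMonoid.lift g p.1 = FreeMonoid.lift g p.2) ↔
              (∀ p ∈ Sig, ∀ g : ℕ → N, FreeMonoid.lift g p.1 = FreeMonoid.lift g p.2))) := by
  refine ComputablePred.of_eq Pool.Agent.INFB.SJ10.computable_tab (fun c => ?_)
  exact (Pool.Agent.INFB.pred_iff c).symm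

end Pool.Agent.S00229
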