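import Pool.Statements.S00232
import Pool.Agent.Helper889.Hn.Final

set_option autoImplicit false
open Classical
open Pool Pool.MP_047434_al

namespace Pool.Agent.S00232

/-- The negation of the preceding statement: For every n ≥ 4, the Hanoi tower group on n pegs (acting on n-ary sequences) satisfies the Følner condition for its generators: for each ε > 0 some finite nonempty set F of group elements has ∣a·F \ F∣ < ε∣F∣ for every generator a. -/
theorem result :
    ¬ (∀ k : ℕ, 4 ≤ k → ∀ ε : ℝ, 0 < ε →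
      ∃ F : Finset ((ℕ → Fin k) → (ℕ → Fin k)),
        F.Nonempty ∧
        (∀ f ∈ F, ∀ S : Set ((ℕ → Fin k) → (ℕ → Fin k)), id ∈ S →
          (∀ i j : Fin k, ∀ g ∈ S,
            (fun (x : ℕ → Fin k) (t : ℕ) =>
              if ∀ s < t, x s ≠ i ∧ x s ≠ j then Equiv.swap i j (x t) else x t) ∘ g ∈ S) →
          f ∈ S) ∧
        ∀ i j : Fin k, i ≠ j →
          ((F.filter (fun f =>
              (fun (x : ℕ → Fin k) (t : ℕ) =>
                if ∀ s < t, x s ≠ i ∧ x s ≠ j then Equiv.swap i j (x t) else x t) ∘ f ∉ F)).card : ℝ)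
            < ε * F.card) := by
  intro hall
  obtain ⟨k, hk, hno⟩ := Pool.Agent.Helper889.Hn.hanoi_no_mean
  refine hno (Pool.Agent.Helper889.Hn.hanoi_mean k
    (fun E hE h => Pool.Agent.Helper889.Nc.mean_of_folner E hE h) ?_)
  intro ε hε
  obtain ⟨F, hF1, hF2, hF3⟩ := hall k hk ε hε
  exact ⟨F, hF1, hF2, hF3⟩

end Pool.Agent.S00232
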