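import Pool.Statements.S00242
import Pool.Agent.Helper604.CubeKoszul

set_option autoImplicit false
open Classical
open Pool Pool.MP_05ef64_al

namespace Pool.Agent.S00242

/-- The negation of the preceding statement: For any field and any family of numerical semigroups of embedding dimension e, the suprema over the family of the Betti numbers b_1,…,b_{e-1} of the semigroup rings (computed via the Koszul complex) are either all finite or all infinite. -/
theorem result :
    ¬ (∀ (k : Type) [Field k] (e : ℕ) (𝓕 : Set (AddSubmonoid ℕ)),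
      (∀ Γ ∈ 𝓕, ((Γ : Set ℕ)ᶜ).Finite ∧
        ∃ a : Fin e → ℕ, Γ = AddSubmonoid.closure (Set.range a) ∧
          ∀ j, a j ∉ AddSubmonoid.closure (a '' {l | l ≠ j})) →
      ∀ B : ℕ → ℕ∞,
        (∀ i, B i =
          ⨆ (Γ : AddSubmonoid ℕ) (_ : Γ ∈ 𝓕) (a : Fin e → ℕ)
            (_ : Γ = AddSubmonoid.closure (Set.range a) ∧
              ∀ j, a j ∉ AddSubmonoid.closure (a '' {l | l ≠ j})),
            ∑' s : ℕ,
              (((((Finset.univ : Finset (Finset (Fin e))).filter
                    (fun F => F.card = i ∧ ∃ t ∈ Γ, t + ∑ j ∈ F, a j = s)).card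
                - (Matrix.of (fun G F : Finset (Fin e) =>
                    if F.card = i ∧ ∃ t ∈ Γ, t + ∑ j ∈ F, a j = s then
                      ∑ j ∈ F, (if G = F.erase j then
                        (-1 : k) ^ (F.filter (fun l => l < j)).card else 0)
                    else 0)).rank
                - (Matrix.of (fun G F : Finset (Fin e) =>
                    if F.card = i + 1 ∧ ∃ t ∈ Γ, t + ∑ j ∈ F, a j = s then
                      ∑ j ∈ F, (if G = F.erase j then
                        (-1 : k) ^ (F.filter (fun l => l < j)).card else 0)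
                    else 0)).rank : ℕ) : ℕ∞))) →
        (∀ i ∈ Finset.Icc 1 (e - 1), B i < ⊤) ∨
        (∀ i ∈ Finset.Icc 1 (e - 1), B i = ⊤)) := by
  intro h
  let 𝓕 : Set (AddSubmonoid ℕ) := {Γ | ∃ q : ℕ, 1 ≤ q ∧ Γ = Pool.Agent.Helper604.Cube.Gq q}
  have h1 := h ℚ 8 𝓕 (by
    rintro Γ ⟨q, hq, rfl⟩
    exact ⟨Pool.Agent.Helper604.Cube.Gq_compl hq, Pool.Agent.Helper604.Cube.gen (q + 1) q, rfl,
      Pool.Agent.Helper604.Cube.Gq_min hq⟩)
    (fun i => ⨆ (Γ : AddSubmonoid ℕ) (_ : Γ ∈ 𝓕) (a : Fin 8 → ℕ)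
            (_ : Γ = AddSubmonoid.closure (Set.range a) ∧
              ∀ j, a j ∉ AddSubmonoid.closure (a '' {l | l ≠ j})),
            ∑' s : ℕ, ((Pool.Agent.Helper604.Koszul.Hd ℚ Γ a i s : ℕ) : ℕ∞)) (fun i => rfl)
  rcases h1 with h1 | h1
  · have h2 := h1 1 (by simp)
    apply h2.ne
    rw [ENat.eq_top_iff_forall_ge]
    intro n
    have hq : 1 ≤ n + 1 := by omega
    refine le_iSup_of_le (Pool.Agent.Helper604.Cube.Gq (n + 1)) (le_iSup_of_le ⟨n + 1, hq, rfl⟩
      (le_iSup_of_le (Pool.Agent.Helper604.Cube.gen (n + 1 + 1) (n + 1))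
        (le_iSup_of_le ⟨rfl, Pool.Agent.Helper604.Cube.Gq_min hq⟩ ?_)))
    refine le_trans ?_ (Pool.Agent.Helper604.Cube.tsum_one_ge ℚ hq)
    exact_mod_cast Nat.le_succ n
  · have h2 := h1 7 (by simp)
    have h3 : (⨆ (Γ : AddSubmonoid ℕ) (_ : Γ ∈ 𝓕) (a : Fin 8 → ℕ)
            (_ : Γ = AddSubmonoid.closure (Set.range a) ∧
              ∀ j, a j ∉ AddSubmonoid.closure (a '' {l | l ≠ j})),
            ∑' s : ℕ, ((Pool.Agent.Helper604.Koszul.Hd ℚ Γ a 7 s : ℕ) : ℕ∞)) ≤ 1 := by
      refine iSup_le fun Γ => iSup_le fun hΓ => iSup_le fun a => iSup_le fun ha => ?_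
      obtain ⟨q, hq, rfl⟩ := hΓ
      exact Pool.Agent.Helper604.Cube.tsum_top_le ℚ (Pool.Agent.Helper604.Cube.Gq q) a ha.1
        (Pool.Agent.Helper604.Cube.Gq_sym hq)
    rw [h2] at h3
    exact absurd h3 (by simp)

end Pool.Agent.S00242
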