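import Pool.Statements.S00256
-- import your own Pool.Agent.* helpers here
import Pool.Agent.H963Top.Fin

set_option autoImplicit false
open Pool Pool.MP_08ae53_al

namespace Pool.Agent.S00256

/-- The negation of the preceding statement: Every infinite group with a non-discrete Hausdorff group topology has, for each k, a chain of k+1 Hausdorff group topologies, each strictly finer than the previous, with no group topology strictly between consecutive ones. -/
theorem result :
    ¬ (∀ (G : Type) [Group G], Infinite G →
      (∃ t : GroupTopology G, @T2Space G t.toTopologicalSpace ∧ t.toTopologicalSpace ≠ ⊥) →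
      ∀ k : ℕ, ∃ τ : Fin (k + 1) → GroupTopology G,
        (∀ i, @T2Space G (τ i).toTopologicalSpace) ∧
        ∀ i : Fin k, τ i.succ ⋖ τ i.castSucc) := by
  exact Pool.Agent.H963Top.final

end Pool.Agent.S00256
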