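import Pool.Statements.S00258
import Pool.Agent.Schunck.Main

set_option autoImplicit false
open Pool Pool.MP_08b069_al

namespace Pool.Agent.S00258

open Pool.Agent.Schunck

lemma tow_prime_card {n s : ℕ} (hs : s.Prime) (hns : n ≤ s) (C : Type) [Group C]
    (hC : Nat.card C = s) : Tow n C := by
  have hfin : Finite C := Nat.finite_of_card_ne_zero (by rw [hC]; exact hs.ne_zero)
  have : Fact s.Prime := ⟨hs⟩
  have hp : IsPGroup s C := IsPGroup.of_card (n := 1) (by rw [hC, pow_one])
  have hnil : Group.IsNilpotent C := hp.isNilpotent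
  refine ⟨hfin, inferInstance, ?_, ?_⟩
  · intro r hr hrd
    rw [hC] at hrd
    rw [(Nat.prime_dvd_prime_iff_eq hr hs).mp hrd]; exact hns
  · intro q
    by_cases hq : q ≤ s
    · refine ⟨⊤, inferInstance, ?_, ?_⟩
      · intro r hr hrd
        rw [Nat.card_congr Subgroup.topEquiv.toEquiv, hC] at hrd
        rw [(Nat.prime_dvd_prime_iff_eq hr hs).mp hrd]; exact hq
      · rw [Subgroup.index_top]; exact Lt.one q
    · refine ⟨⊥, inferInstance, ?_, ?_⟩
      · rw [Subgroup.card_bot]; exact Ge.one q
      · intro r hr hrd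
        rw [Subgroup.index_bot, hC] at hrd
        rw [(Nat.prime_dvd_prime_iff_eq hr hs).mp hrd]; omega

open scoped commutatorElement in
lemma exists_prime_quot {A : (G : Type) → [Group G] → Prop} (hA : IsSchunck A)
    {G : Type} [Group G] [Finite G] [Nontrivial G] (h : A G) :
    ∃ r : ℕ, r.Prime ∧ r ∣ Nat.card G ∧ ∃ (C : Type) (_ : Group C), Nat.card C = r ∧ A C := by
  have hs : Group.IsSolvable G := (hA.1 G h).2
  have hlt := Group.IsSolvable.commutator_lt_top_of_nontrivial G
  obtain ⟨M, hM, hle⟩ := (eq_top_or_exists_le_coatom (commutator G)).resolve_left hlt.ne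
  have hMn : M.Normal := by
    constructor
    intro m hm g
    have h1 : ⁅g, m⁆ ∈ commutator G :=
      Subgroup.commutator_mem_commutator (Subgroup.mem_top g) (Subgroup.mem_top m)
    have h2 : g * m * g⁻¹ = ⁅g, m⁆ * m := by
      rw [commutatorElement_def]; group
    rw [h2]
    exact M.mul_mem (hle h1) hm
  have hne : Nat.card (G ⧸ M) ≠ 1 := by
    rw [← Subgroup.index_eq_card]
    intro h1
    exact hM.1 (Subgroup.index_eq_one.mp h1)
  obtain ⟨r, hr, hrd⟩ := Nat.exists_prime_and_dvd hne
  have : Fact r.Prime := ⟨hr⟩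
  obtain ⟨x, hx⟩ := exists_prime_orderOf_dvd_card' r hrd
  have h1 : Subgroup.zpowers x = ⊤ := by
    have h2 : (Subgroup.zpowers x).comap (QuotientGroup.mk' M) = ⊤ := by
      apply hM.2
      rw [lt_iff_le_and_ne]
      constructor
      · intro m hm
        rw [Subgroup.mem_comap]
        have : QuotientGroup.mk' M m = 1 := by
          rw [← MonoidHom.mem_ker, QuotientGroup.ker_mk']; exact hm
        rw [this]; exact Subgroup.one_mem _
      · intro h3
        have h4 := congrArg (Subgroup.map (QuotientGroup.mk' M)) h3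
        rw [Subgroup.map_comap_eq_self_of_surjective (QuotientGroup.mk'_surjective M)] at h4
        have h5 : M.map (QuotientGroup.mk' M) = ⊥ := by
          rw [Subgroup.map_eq_bot_iff, QuotientGroup.ker_mk']
        rw [h5] at h4
        have h6 := Subgroup.zpowers_eq_bot.mp h4.symm
        rw [h6, orderOf_one] at hx
        exact hr.one_lt.ne hx
    rw [← Subgroup.map_comap_eq_self_of_surjective (QuotientGroup.mk'_surjective M)
      (Subgroup.zpowers x), h2]
    exact Subgroup.map_top_of_surjective _ (QuotientGroup.mk'_surjective _)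
  refine ⟨r, hr, hrd.trans (Subgroup.card_quotient_dvd_card M), G ⧸ M, inferInstance, ?_,
    hA.2.2.1 G M h⟩
  rw [← hx, ← Nat.card_zpowers, h1]
  exact (Nat.card_congr Subgroup.topEquiv.toEquiv).symm

lemma tow_le {A : (G : Type) → [Group G] → Prop} (hA : IsSchunck A)
    (hAT : LL A (fun G [Group G] => Tow 0 G)) {r : ℕ} (hr : r.Prime)
    (hZ : ∃ (C : Type) (_ : Group C), Nat.card C = r ∧ A C) (M : Type) [Group M]
    (hM : Tow r M) : A M := by
  have : Fact r.Prime := ⟨hr⟩
  obtain ⟨C, _, hC, hAC⟩ := hZ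
  have := hM.1
  apply tow_le_aux hA hAT (r := r) _ (Nat.card M) M le_rfl hM
  intro C' _ hC'
  exact hA.2.1 _ _ ⟨mulEquivOfPrimeCardEq (p := r) hC hC'⟩ hAC

lemma le_tow {A : (G : Type) → [Group G] → Prop} (hA : IsSchunck A)
    (hAT : LL A (fun G [Group G] => Tow 0 G)) (M : Type) [Group M]
    (hM : A M) : Tow 0 M := by
  obtain ⟨h1, h2⟩ := hA.1 M hM
  obtain ⟨E, F, hE, hF, hEF⟩ := hAT M h2
  have h3 := (Proj.hom hA hE (MonoidHom.id M) (fun x => ⟨x, rfl⟩)).2 ⊤ le_top
    (hA.2.1 _ _ ⟨Subgroup.topEquiv.symm⟩ hM)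
  rw [Subgroup.map_id] at h3
  have h4 : F = ⊤ := by
    rw [eq_top_iff, h3]; exact hEF
  have h5 := (Proj.hom (tow_isSchunck 0) hF (MonoidHom.id M) (fun x => ⟨x, rfl⟩)).1
  rw [Subgroup.map_id, h4] at h5
  exact h5.of_surjective (⊤ : Subgroup M).subtype (fun x => ⟨⟨x, trivial⟩, rfl⟩)


/-- The negation of the preceding statement: Every Schunck class of finite soluble groups containing a nontrivial group has, below it in the projector-containment order, a Schunck class with a nontrivial group whose only smaller Schunck classes are the trivial class and itself. -/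
theorem result :
    ¬ (∀ X : (G : Type) → [Group G] → Prop,
      ((∀ (G : Type) [Group G], X G → Finite G ∧ IsSolvable G) ∧
        (∀ (G H : Type) [Group G] [Group H], Nonempty (G ≃* H) → X G → X H) ∧
        (∀ (G : Type) [Group G] (N : Subgroup G) [N.Normal], X G → X (G ⧸ N)) ∧
        (∀ (G : Type) [Group G] [Finite G], IsSolvable G →
          (∀ (N : Subgroup G) [N.Normal],
            (∃ M : Subgroup (G ⧸ N), IsCoatom M ∧ M.normalCore = ⊥) → X (G ⧸ N)) → X G)) →
      (∃ (G : Type) (_ : Group G), X G ∧ Nontrivial G) →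
      ∃ A : (G : Type) → [Group G] → Prop,
        ((∀ (G : Type) [Group G], A G → Finite G ∧ IsSolvable G) ∧
          (∀ (G H : Type) [Group G] [Group H], Nonempty (G ≃* H) → A G → A H) ∧
          (∀ (G : Type) [Group G] (N : Subgroup G) [N.Normal], A G → A (G ⧸ N)) ∧
          (∀ (G : Type) [Group G] [Finite G], IsSolvable G →
            (∀ (N : Subgroup G) [N.Normal],
              (∃ M : Subgroup (G ⧸ N), IsCoatom M ∧ M.normalCore = ⊥) → A (G ⧸ N)) → A G)) ∧
        (∃ (G : Type) (_ : Group G), A G ∧ Nontrivial G) ∧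
        (∀ B : (G : Type) → [Group G] → Prop,
          ((∀ (G : Type) [Group G], B G → Finite G ∧ IsSolvable G) ∧
            (∀ (G H : Type) [Group G] [Group H], Nonempty (G ≃* H) → B G → B H) ∧
            (∀ (G : Type) [Group G] (N : Subgroup G) [N.Normal], B G → B (G ⧸ N)) ∧
            (∀ (G : Type) [Group G] [Finite G], IsSolvable G →
              (∀ (N : Subgroup G) [N.Normal],
                (∃ M : Subgroup (G ⧸ N), IsCoatom M ∧ M.normalCore = ⊥) → B (G ⧸ N)) → B G)) →
          (∀ (G : Type) [Group G] [Finite G], IsSolvable G →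
            ∃ E F : Subgroup G,
              (∀ (N : Subgroup G) [N.Normal],
                B ↥(E.map (QuotientGroup.mk' N)) ∧
                ∀ K : Subgroup (G ⧸ N), E.map (QuotientGroup.mk' N) ≤ K → B ↥K →
                  K = E.map (QuotientGroup.mk' N)) ∧
              (∀ (N : Subgroup G) [N.Normal],
                A ↥(F.map (QuotientGroup.mk' N)) ∧
                ∀ K : Subgroup (G ⧸ N), F.map (QuotientGroup.mk' N) ≤ K → A ↥K →
                  K = F.map (QuotientGroup.mk' N)) ∧
              E ≤ F) →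
          (∀ (G : Type) [Group G], B G → Subsingleton G) ∨
            (∀ (G : Type) [Group G], B G ↔ A G)) ∧
        (∀ (G : Type) [Group G] [Finite G], IsSolvable G →
          ∃ E F : Subgroup G,
            (∀ (N : Subgroup G) [N.Normal],
              A ↥(E.map (QuotientGroup.mk' N)) ∧
              ∀ K : Subgroup (G ⧸ N), E.map (QuotientGroup.mk' N) ≤ K → A ↥K →
                K = E.map (QuotientGroup.mk' N)) ∧
            (∀ (N : Subgroup G) [N.Normal],
              X ↥(F.map (QuotientGroup.mk' N)) ∧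
              ∀ K : Subgroup (G ⧸ N), F.map (QuotientGroup.mk' N) ≤ K → X ↥K →
                K = F.map (QuotientGroup.mk' N)) ∧
            E ≤ F)) := by
  classical
  intro hmain
  have hZ2 : Nat.card (Multiplicative (ZMod 2)) = 2 := Nat.card_zmod 2
  obtain ⟨A, hA, ⟨G0, _, hAG0, hnt⟩, hatom, hAT⟩ := hmain (fun G [Group G] => Tow 0 G)
    (tow_isSchunck 0) ⟨Multiplicative (ZMod 2), inferInstance,
      tow_prime_card Nat.prime_two (by norm_num) _ hZ2, by
        rw [← Finite.one_lt_card_iff_nontrivial, hZ2]; norm_num⟩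
  replace hA : IsSchunck A := hA
  replace hAT : LL A (fun G [Group G] => Tow 0 G) := hAT
  have hex : ∃ r : ℕ, r.Prime ∧ ∃ (C : Type) (_ : Group C), Nat.card C = r ∧ A C := by
    have := (hA.1 G0 hAG0).1
    obtain ⟨r, hr, _, hC⟩ := exists_prime_quot hA hAG0
    exact ⟨r, hr, hC⟩
  obtain ⟨hp, hpC⟩ := Nat.find_spec hex
  have hmin : ∀ r : ℕ, r.Prime → (∃ (C : Type) (_ : Group C), Nat.card C = r ∧ A C) →
      Nat.find hex ≤ r := fun r hr hC => Nat.find_min' hex ⟨hr, hC⟩
  generalize Nat.find hex = p at hp hpC hmin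
  have hTA : ∀ (M : Type) [Group M], Tow p M → A M := fun M _ hM =>
    tow_le hA hAT hp hpC M hM
  have hAp : ∀ (M : Type) [Group M], A M → Tow p M := by
    intro M _ hM
    have h0 := le_tow hA hAT M hM
    refine ⟨h0.1, h0.2.1, ?_, h0.2.2.2⟩
    have := h0.1
    intro t ht htd
    have hne : Nat.card M ≠ 1 := by
      intro h; rw [h] at htd; exact ht.one_lt.ne' (Nat.dvd_one.mp htd)
    have hq : (Nat.card M).minFac.Prime := Nat.minFac_prime hne
    have hqt : (Nat.card M).minFac ≤ t := Nat.minFac_le_of_dvd ht.two_le htd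
    refine le_trans ?_ hqt
    obtain ⟨H, hHn, hH1, hH2⟩ := h0.2.2.2 ((Nat.card M).minFac + 1)
    have h1 : (Nat.card M).minFac ∣ Nat.card H * H.index := by
      rw [Subgroup.card_mul_index]; exact Nat.minFac_dvd _
    have h2 : (Nat.card M).minFac ∣ H.index := by
      rcases (Nat.Prime.dvd_mul hq).mp h1 with h | h
      · exact absurd (hH1 _ hq h) (by omega)
      · exact h
    have hnt2 : Nontrivial (M ⧸ H) := by
      rw [← Finite.one_lt_card_iff_nontrivial, ← Subgroup.index_eq_card]
      have h3 : H.index ≠ 1 := by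
        intro h; rw [h] at h2; exact hq.one_lt.ne' (Nat.dvd_one.mp h2)
      have h4 : H.index ≠ 0 := Subgroup.index_ne_zero_of_finite
      omega
    obtain ⟨r, hr, hrd, hC⟩ := exists_prime_quot hA (hA.2.2.1 M H hM)
    have h5 : r < (Nat.card M).minFac + 1 := by
      apply hH2 r hr
      rw [Subgroup.index_eq_card]; exact hrd
    have h6 := hmin r hr hC
    omega
  have hiff : ∀ (M : Type) [Group M], Tow p M ↔ A M := fun M _ => ⟨hTA M, hAp M⟩
  have hLL : LL (fun G [Group G] => Tow (p + 1) G) A := by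
    intro G _ _ hs
    obtain ⟨E, F, h1, h2, h3⟩ := tow_LL p G hs
    refine ⟨E, F, h1, ?_, h3⟩
    intro N _
    obtain ⟨h4, h5⟩ := h2 N
    exact ⟨hTA _ h4, fun K hK hKA => h5 K hK (hAp _ hKA)⟩
  rcases hatom (fun G [Group G] => Tow (p + 1) G) (tow_isSchunck (p + 1)) hLL with h | h
  · obtain ⟨s, hs1, hs2⟩ := Nat.exists_infinite_primes (p + 1)
    have hNZ : NeZero s := ⟨hs2.ne_zero⟩
    have hcard : Nat.card (Multiplicative (ZMod s)) = s := Nat.card_zmod s
    have h1 : Subsingleton (Multiplicative (ZMod s)) :=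
      h (Multiplicative (ZMod s)) (tow_prime_card hs2 hs1 _ hcard)
    have h2 := Nat.card_eq_one_iff_unique.mpr ⟨h1, inferInstance⟩
    rw [hcard] at h2
    exact hs2.one_lt.ne' h2
  · obtain ⟨C, _, hC, hAC⟩ := hpC
    have h1 : Tow (p + 1) C := (h C).mpr hAC
    have h2 := h1.2.2.1 p hp (by rw [hC])
    omega

end Pool.Agent.S00258
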