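import Pool.Statements.S00273
import Pool.Agent.Helper825.PA10

set_option autoImplicit false
open Pool Pool.MP_0a57ef_al

namespace Pool.Agent.S00273

open Pool.Agent.Helper825.PA

/-- For every prime p and every finite abelian p-group A there is a group G such that A is isomorphic, via an injective homomorphism, to the group of automorphisms of G mapping every subgroup onto itself. -/
theorem result :
    ∀ (p : ℕ), p.Prime →
      ∀ (A : Type) [CommGroup A] [Finite A], IsPGroup p A →
        ∃ (G : Type) (_ : Group G) (f : A →* MulAut G),
          Function.Injective f ∧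
            ∀ φ : MulAut G,
              (φ ∈ f.range ↔ ∀ H : Subgroup G, H.map φ.toMonoidHom = H) := by
  intro p hp A _ _ hA
  classical
  obtain ⟨ι, _, n, hn, ⟨iso⟩⟩ := CommGroup.equiv_prod_multiplicative_zmod_of_finite A
  have hfact : Fact p.Prime := ⟨hp⟩
  have hpow : ∀ i, ∃ k, n i = p ^ k := by
    intro i
    have h1 : IsPGroup p ((i : ι) → Multiplicative (ZMod (n i))) := hA.of_equiv iso
    obtain ⟨k, hk⟩ := h1 (Pi.mulSingle i (Multiplicative.ofAdd 1))
    rw [← Pi.mulSingle_pow] at hk
    have h2 := congrFun hk i
    rw [Pi.mulSingle_eq_same, Pi.one_apply] at h2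
    have h3 := congrArg Multiplicative.toAdd h2
    rw [toAdd_pow, toAdd_ofAdd, toAdd_one, nsmul_eq_mul, mul_one, ZMod.natCast_eq_zero_iff] at h3
    obtain ⟨j, _, hj⟩ := (Nat.dvd_prime_pow hp).1 h3
    exact ⟨j, hj⟩
  choose a ha using hpow
  have hna : n = fun i => p ^ a i := funext ha
  subst hna
  by_cases hι : Nonempty ι
  · obtain ⟨i₀, hi₀⟩ := Finite.exists_max a
    obtain ⟨G, hG, f, hf, hf2⟩ := main_nonempty p hp a i₀ hi₀
    refine ⟨G, hG, f.comp iso.toMonoidHom, ?_, ?_⟩
    · exact hf.comp iso.injective
    · intro φ
      rw [← hf2 φ]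
      constructor
      · rintro ⟨x, hx⟩
        exact ⟨iso x, hx⟩
      · rintro ⟨x, hx⟩
        refine ⟨iso.symm x, ?_⟩
        rw [MonoidHom.comp_apply]
        change f (iso (iso.symm x)) = φ
        rw [MulEquiv.apply_symm_apply]
        exact hx
  · have hE : IsEmpty ι := not_nonempty_iff.1 hι
    have hsub : Subsingleton A := by
      have : Subsingleton ((i : ι) → Multiplicative (ZMod (p ^ a i))) := inferInstance
      exact iso.toEquiv.subsingleton
    refine ⟨Unit, inferInstance, 1, ?_, ?_⟩
    · exact Function.injective_of_subsingleton _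
    · intro φ
      constructor
      · intro _ H
        ext x
        constructor
        · intro _
          have : x = 1 := Subsingleton.elim _ _
          rw [this]
          exact H.one_mem
        · intro _
          have : x = 1 := Subsingleton.elim _ _
          rw [this]
          exact Subgroup.one_mem _
      · intro _
        refine ⟨1, ?_⟩
        ext1 x
        exact Subsingleton.elim _ _

end Pool.Agent.S00273
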