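import Pool.Statements.S00282
-- import your own Pool.Agent.* helpers here

set_option autoImplicit false
open Pool Pool.MP_0b625c_al

namespace Pool.Agent.S00282

instance : Infinite Circle := by
  have : Infinite (Set.Ioc (-Real.pi) Real.pi) :=
    (Set.Ioc_infinite (by linarith [Real.pi_pos])).to_subtype
  exact Infinite.of_injective Circle.argEquiv.symm Circle.argEquiv.symm.injective

/-- a positive weight on the circle with infimum zero -/
noncomputable def wt : Circle → ℝ :=
  Function.extend (Infinite.natEmbedding Circle) (fun n : ℕ => 1 / ((n : ℝ) + 1)) (fun _ => 1)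

lemma wt_emb (n : ℕ) : wt (Infinite.natEmbedding Circle n) = 1 / ((n : ℝ) + 1) :=
  (Infinite.natEmbedding Circle).injective.extend_apply _ _ _

lemma wt_pos (q : Circle) : 0 < wt q := by
  unfold wt
  by_cases h : ∃ n, Infinite.natEmbedding Circle n = q
  · obtain ⟨n, rfl⟩ := h
    rw [(Infinite.natEmbedding Circle).injective.extend_apply]
    positivity
  · rw [Function.extend_apply' _ _ _ h]
    norm_num

lemma wt_le (q : Circle) : wt q ≤ 1 := by
  unfold wt
  by_cases h : ∃ n, Infinite.natEmbedding Circle n = q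
  · obtain ⟨n, rfl⟩ := h
    rw [(Infinite.natEmbedding Circle).injective.extend_apply]
    rw [div_le_one (by positivity)]
    have : (0 : ℝ) ≤ n := Nat.cast_nonneg n
    linarith
  · rw [Function.extend_apply' _ _ _ h]

/-- the fibre metric -/
noncomputable def rho (q a b : Circle) : ℝ := max (dist (a ^ 2) (b ^ 2)) (wt q * dist a b)

lemma circle_dist (a b : Circle) : dist a b = ‖(a : ℂ) - (b : ℂ)‖ := by
  rw [← dist_eq_norm]; rfl

lemma dist_le_two (a b : Circle) : dist a b ≤ 2 := by
  rw [circle_dist]
  calc ‖(a : ℂ) - (b : ℂ)‖ ≤ ‖(a : ℂ)‖ + ‖(b : ℂ)‖ := norm_sub_le _ _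
    _ = 2 := by rw [Circle.norm_coe, Circle.norm_coe]; norm_num

lemma dist_mul_mul (a b c d : Circle) : dist (a * c) (b * d) ≤ dist a b + dist c d := by
  rw [circle_dist, circle_dist, circle_dist]
  have h : ((a * c : Circle) : ℂ) - ((b * d : Circle) : ℂ)
      = ((a : ℂ) - b) * c + b * ((c : ℂ) - d) := by
    push_cast; ring
  rw [h]
  calc _ ≤ ‖((a : ℂ) - b) * c‖ + ‖(b : ℂ) * ((c : ℂ) - d)‖ := norm_add_le _ _
    _ = _ := by rw [norm_mul, norm_mul, Circle.norm_coe, Circle.norm_coe, mul_one, one_mul]

lemma dist_inv (a b : Circle) : dist a⁻¹ b⁻¹ = dist a b := by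
  rw [circle_dist, circle_dist]
  have h : ((a⁻¹ : Circle) : ℂ) - ((b⁻¹ : Circle) : ℂ)
      = -(((a⁻¹ : Circle) : ℂ) * ((b⁻¹ : Circle) : ℂ)) * ((a : ℂ) - b) := by
    push_cast
    have ha : (a : ℂ) ≠ 0 := Circle.coe_ne_zero a
    have hb : (b : ℂ) ≠ 0 := Circle.coe_ne_zero b
    field_simp
    ring
  rw [h, norm_mul, norm_neg, norm_mul, Circle.norm_coe, Circle.norm_coe, mul_one, one_mul]

lemma dist_sq_le (a b : Circle) : dist (a ^ 2) (b ^ 2) ≤ 2 * dist a b := by
  rw [pow_two, pow_two, two_mul]
  exact dist_mul_mul a b a b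

lemma rho_nonneg (q a b : Circle) : 0 ≤ rho q a b :=
  le_max_of_le_left dist_nonneg

lemma rho_le_two (q a b : Circle) : rho q a b ≤ 2 := by
  unfold rho
  refine max_le (dist_le_two _ _) ?_
  calc wt q * dist a b ≤ 1 * dist a b :=
        mul_le_mul_of_nonneg_right (wt_le q) dist_nonneg
    _ ≤ 2 := by rw [one_mul]; exact dist_le_two a b

lemma rho_le (q a b : Circle) : rho q a b ≤ 2 * dist a b := by
  unfold rho
  refine max_le (dist_sq_le a b) ?_
  calc wt q * dist a b ≤ 2 * dist a b :=
        mul_le_mul_of_nonneg_right ((wt_le q).trans (by norm_num)) dist_nonneg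

lemma rho_self (q a : Circle) : rho q a a = 0 := by
  unfold rho; simp

lemma rho_comm (q a b : Circle) : rho q a b = rho q b a := by
  unfold rho; rw [dist_comm, dist_comm a b]

lemma rho_triangle (q a b c : Circle) : rho q a c ≤ rho q a b + rho q b c := by
  unfold rho
  refine max_le ?_ ?_
  · calc _ ≤ dist (a ^ 2) (b ^ 2) + dist (b ^ 2) (c ^ 2) := dist_triangle _ _ _
      _ ≤ _ := add_le_add (le_max_left _ _) (le_max_left _ _)
  · calc wt q * dist a c ≤ wt q * (dist a b + dist b c) :=
          mul_le_mul_of_nonneg_left (dist_triangle _ _ _) (wt_pos q).le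
      _ = wt q * dist a b + wt q * dist b c := by ring
      _ ≤ _ := add_le_add (le_max_right _ _) (le_max_right _ _)

lemma rho_mul (q a b c d : Circle) : rho q (a * c) (b * d) ≤ rho q a b + rho q c d := by
  unfold rho
  refine max_le ?_ ?_
  · rw [mul_pow, mul_pow]
    calc _ ≤ dist (a ^ 2) (b ^ 2) + dist (c ^ 2) (d ^ 2) := dist_mul_mul _ _ _ _
      _ ≤ _ := add_le_add (le_max_left _ _) (le_max_left _ _)
  · calc wt q * dist (a * c) (b * d) ≤ wt q * (dist a b + dist c d) :=
          mul_le_mul_of_nonneg_left (dist_mul_mul _ _ _ _) (wt_pos q).le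
      _ = wt q * dist a b + wt q * dist c d := by ring
      _ ≤ _ := add_le_add (le_max_right _ _) (le_max_right _ _)

lemma rho_inv (q a b : Circle) : rho q a⁻¹ b⁻¹ = rho q a b := by
  unfold rho
  rw [inv_pow, inv_pow, dist_inv, dist_inv]

lemma rho_eq_zero {q a b : Circle} (h : rho q a b = 0) : a = b := by
  unfold rho at h
  have h1 : wt q * dist a b ≤ 0 := by rw [← h]; exact le_max_right _ _
  have h2 : dist a b ≤ 0 := by
    by_contra hc
    push Not at hc
    have := mul_pos (wt_pos q) hc
    linarith
  exact dist_le_zero.mp h2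

/-- all maps of the circle to itself -/
def G : Type := Circle → Circle

noncomputable instance : Group G := inferInstanceAs (Group (Circle → Circle))

lemma mul_apply (x y : G) (q : Circle) : (x * y) q = x q * y q := rfl
lemma inv_apply (x : G) (q : Circle) : (x⁻¹) q = (x q)⁻¹ := rfl

/-- the coarser metric -/
noncomputable def ds (x y : G) : ℝ := ⨆ q : Circle, rho q (x q) (y q)

lemma bdd (x y : G) : BddAbove (Set.range (fun q : Circle => rho q (x q) (y q))) :=
  ⟨2, by rintro _ ⟨q, rfl⟩; exact rho_le_two _ _ _⟩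

lemma le_ds (x y : G) (q : Circle) : rho q (x q) (y q) ≤ ds x y := le_ciSup (bdd x y) q

lemma ds_le {x y : G} {c : ℝ} (h : ∀ q, rho q (x q) (y q) ≤ c) : ds x y ≤ c :=
  ciSup_le h

noncomputable instance : MetricSpace G where
  dist := ds
  dist_self x := by
    apply le_antisymm
    · exact ds_le (fun q => (rho_self q _).le)
    · exact (rho_nonneg 1 _ _).trans (le_ds x x 1)
  dist_comm x y := by
    show ds x y = ds y x
    unfold ds
    congr 1
    funext q
    exact rho_comm _ _ _
  dist_triangle x y z := ds_le (fun q => (rho_triangle q _ _ _).trans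
    (add_le_add (le_ds x y q) (le_ds y z q)))
  eq_of_dist_eq_zero := by
    intro x y h
    funext q
    apply rho_eq_zero (q := q)
    apply le_antisymm _ (rho_nonneg _ _ _)
    have : ds x y = 0 := h
    rw [← this]
    exact le_ds x y q

lemma dist_def (x y : G) : dist x y = ds x y := rfl

lemma dist_mul_G (a b c d : G) : dist (a * c) (b * d) ≤ dist a b + dist c d :=
  ds_le (fun q => (rho_mul q _ _ _ _).trans (add_le_add (le_ds a b q) (le_ds c d q)))

lemma dist_inv_G (a b : G) : dist a⁻¹ b⁻¹ = dist a b := by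
  show ds a⁻¹ b⁻¹ = ds a b
  unfold ds
  congr 1
  funext q
  exact rho_inv _ _ _

instance : IsTopologicalGroup G where
  continuous_mul := by
    rw [Metric.continuous_iff]
    rintro ⟨a, b⟩ ε hε
    refine ⟨ε / 2, by positivity, ?_⟩
    rintro ⟨c, d⟩ h
    rw [Prod.dist_eq, max_lt_iff] at h
    calc dist (c * d) (a * b) ≤ dist c a + dist d b := dist_mul_G _ _ _ _
      _ < ε := by linarith [h.1, h.2]
  continuous_inv := by
    rw [Metric.continuous_iff]
    intro a ε hε
    refine ⟨ε, hε, ?_⟩
    intro b h
    rw [dist_inv_G]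
    exact h

instance : CompleteSpace G := by
  apply Metric.complete_of_cauchySeq_tendsto
  intro u hu
  have hpt : ∀ q : Circle, CauchySeq (fun n => u n q) := by
    intro q
    rw [Metric.cauchySeq_iff] at hu
    apply Metric.cauchySeq_iff.mpr
    intro ε hε
    obtain ⟨N, hN⟩ := hu (wt q * ε) (mul_pos (wt_pos q) hε)
    refine ⟨N, fun m hm n hn => ?_⟩
    have h1 := hN m hm n hn
    have h2 : wt q * dist (u m q) (u n q) ≤ dist (u m) (u n) :=
      (le_max_right _ _).trans (le_ds (u m) (u n) q)
    exact lt_of_mul_lt_mul_left (h2.trans_lt h1) (wt_pos q).le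
  have hlim : ∀ q : Circle, ∃ l : Circle, Filter.Tendsto (fun n => u n q) Filter.atTop (nhds l) :=
    fun q => cauchySeq_tendsto_of_complete (hpt q)
  choose l hl using hlim
  refine ⟨(l : G), ?_⟩
  apply Metric.tendsto_atTop.mpr
  intro ε hε
  rw [Metric.cauchySeq_iff] at hu
  obtain ⟨N, hN⟩ := hu (ε / 2) (by positivity)
  refine ⟨N, fun n hn => ?_⟩
  have key : ∀ q, rho q (u n q) (l q) ≤ ε / 2 := by
    intro q
    have ht : Filter.Tendsto (fun m => rho q (u n q) (u m q)) Filter.atTop
        (nhds (rho q (u n q) (l q))) := by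
      unfold rho
      apply Filter.Tendsto.max
      · exact tendsto_const_nhds.dist ((hl q).pow 2)
      · exact (tendsto_const_nhds.dist (hl q)).const_mul _
    apply le_of_tendsto ht
    filter_upwards [Filter.eventually_ge_atTop N] with m hm
    exact (le_ds (u n) (u m) q).trans (hN n hn m hm).le
  calc dist (u n) l ≤ ε / 2 := ds_le key
    _ < ε := by linarith

/-- the identity map as a homomorphism -/
noncomputable def U : (Circle → Circle) →* G where
  toFun x := x
  map_one' := rfl
  map_mul' _ _ := rfl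

lemma U_apply (x : Circle → Circle) (q : Circle) : U x q = x q := rfl

/-- The negation of the preceding statement: Take the group of all unit-circle-valued maps on the unit circle, with pointwise product and sup metric. Every continuous bijective homomorphism from it onto a complete metric topological group has a continuous inverse. -/
theorem result :
    ¬ (∀ (E₁ : Type) [Group E₁] [MetricSpace E₁] [CompleteSpace E₁] [IsTopologicalGroup E₁]
      (U : (Circle → Circle) →* E₁),
      Function.Bijective U →
      (∀ x : Circle → Circle, ∀ ε > (0 : ℝ), ∃ δ > (0 : ℝ), ∀ y : Circle → Circle,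
          (∀ q : Circle, dist (x q) (y q) ≤ δ) → dist (U x) (U y) < ε) →
      (∀ x : Circle → Circle, ∀ ε > (0 : ℝ), ∃ δ > (0 : ℝ), ∀ y : Circle → Circle,
          dist (U x) (U y) < δ → ∀ q : Circle, dist (x q) (y q) ≤ ε)) := by
  intro H
  have hbij : Function.Bijective U := ⟨fun x y h => h, fun y => ⟨y, rfl⟩⟩
  have hcont : (∀ x : Circle → Circle, ∀ ε > (0 : ℝ), ∃ δ > (0 : ℝ), ∀ y : Circle → Circle,
          (∀ q : Circle, dist (x q) (y q) ≤ δ) → dist (U x) (U y) < ε) := by
    intro x ε hε
    refine ⟨ε / 4, by positivity, fun y hy => ?_⟩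
    have : dist (U x) (U y) ≤ ε / 2 := by
      apply ds_le
      intro q
      rw [U_apply, U_apply]
      calc rho q (x q) (y q) ≤ 2 * dist (x q) (y q) := rho_le _ _ _
        _ ≤ 2 * (ε / 4) := by
          have := hy q
          linarith
        _ = ε / 2 := by ring
    linarith
  obtain ⟨δ, hδ, h⟩ := H G U hbij hcont 1 1 one_pos
  obtain ⟨n, hn⟩ := exists_nat_one_div_lt (show (0 : ℝ) < δ / 2 by positivity)
  set p : Circle := Infinite.natEmbedding Circle n with hp
  classical
  set y : Circle → Circle := fun q => if q = p then -1 else 1 with hy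
  have hd : dist (U 1) (U y) < δ := by
    have : dist (U 1) (U y) ≤ 2 * (1 / ((n : ℝ) + 1)) := by
      apply ds_le
      intro q
      rw [U_apply, U_apply]
      by_cases hq : q = p
      · have h1 : y q = -1 := by simp [hy, hq]
        rw [h1]
        unfold rho
        refine max_le ?_ ?_
        · have : dist ((1 : Circle → Circle) q ^ 2) ((-1 : Circle) ^ 2) = 0 := by
            rw [neg_one_sq]; simp
          rw [this]; positivity
        · rw [hq, hp, wt_emb, mul_comm]
          exact mul_le_mul_of_nonneg_right (dist_le_two _ _) (by positivity)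
      · have h1 : y q = 1 := by simp [hy, hq]
        rw [h1, Pi.one_apply, rho_self]
        positivity
    linarith
  have h2 := h y hd p
  have h3 : y p = -1 := by simp [hy]
  rw [h3, Pi.one_apply, circle_dist] at h2
  have h4 : ‖((1 : Circle) : ℂ) - ((-1 : Circle) : ℂ)‖ = 2 := by
    rw [Circle.coe_neg]
    simp
    norm_num
  rw [h4] at h2
  norm_num at h2

end Pool.Agent.S00282
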