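import Pool.Statements.S00289
import Pool.Agent.Helper634.Final

set_option autoImplicit false
open Pool Pool.MP_0c10a3_al

namespace Pool.Agent.S00289

/-- For every free group F of infinite rank and every generating set X of Aut(F), there is a bound n such that every automorphism of F is a product of at most n elements of X or their inverses. -/
theorem result :
    ∀ (α : Type) [Infinite α], ∀ X : Set (MulAut (FreeGroup α)),
      Subgroup.closure X = ⊤ →
        ∃ n : ℕ, ∀ g : MulAut (FreeGroup α),
          ∃ l : List (MulAut (FreeGroup α)),
            l.length ≤ n ∧ (∀ x ∈ l, x ∈ X ∨ x⁻¹ ∈ X) ∧ l.prod = g := by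
  intro α _ X hX
  exact Pool.Agent.Helper634.FA.thm_B α X hX

end Pool.Agent.S00289
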