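import Pool.Statements.S00307
import Pool.Agent.Helper712.EG.Perm

set_option autoImplicit false
open Pool Pool.MP_0e2cbe_al

namespace Pool.Agent.S00307

/-- There is a finite 3-group that is 2-Engel, has nilpotency class exactly 3, and in which every automorphism is a central automorphism composed with an inner automorphism. -/
theorem result :
    ∃ (n : ℕ) (H : Subgroup (Equiv.Perm (Fin n))),
      IsPGroup 3 H ∧
      (∀ x y : H,
        (y * x * y⁻¹ * x⁻¹) * x * (y * x * y⁻¹ * x⁻¹)⁻¹ * x⁻¹ = 1) ∧
      lowerCentralSeries H 3 = ⊥ ∧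
      lowerCentralSeries H 2 ≠ ⊥ ∧
      ∀ α : MulAut H, ∃ β : MulAut H, ∃ h : H,
        (∀ g : H, g⁻¹ * β g ∈ Subgroup.center H) ∧ α = β * MulAut.conj h :=
  Pool.Agent.Helper712.EG.final

end Pool.Agent.S00307
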