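-- Counterexample already for 2 by 2 matrices; see the helper modules under Pool/Agent/Helper210.
import Pool.Statements.S00312
import Pool.Agent.Helper210.Core4

set_option autoImplicit false
open Pool Pool.MP_0ed2d6_al

namespace Pool.Agent.S00312

open Pool.Agent.Helper210 Matrix LaurentPolynomial

lemma exists_transc : ∃ c : ℂ, Transcendental ℚ c := by
  have h1 : Transcendental ℤ (liouvilleNumber (2 : ℕ)) := transcendental_liouvilleNumber le_rfl
  have h2 : Transcendental ℚ (liouvilleNumber (2 : ℕ) : ℝ) := fun h =>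
    h1 ((IsFractionRing.isAlgebraic_iff ℤ ℚ ℝ).mpr h)
  refine ⟨((liouvilleNumber (2 : ℕ) : ℝ) : ℂ), ?_⟩
  intro h
  exact h2 ((isAlgebraic_algebraMap_iff (algebraMap ℝ ℂ).injective).mp h)

lemma ev_injective (c : ℂˣ) (hc : Transcendental ℚ (c : ℂ)) :
    Function.Injective (ev (K := ℂ) c) := by
  rw [injective_iff_map_eq_zero]
  intro f hf
  obtain ⟨n, f', hf'⟩ := f.exists_T_pow
  have h1 : ev (K := ℂ) c (Polynomial.toLaurent f') = 0 := by
    rw [hf', map_mul, hf, zero_mul]
  have h2 : Polynomial.aeval (c : ℂ) f' = 0 := by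
    rw [Polynomial.aeval_def, ← h1]
    exact (LaurentPolynomial.eval₂_toLaurent (algebraMap ℚ ℂ) c f').symm
  have h3 : f' = 0 := by
    by_contra hne
    exact hc ⟨f', hne, h2⟩
  rw [h3, map_zero] at hf'
  exact ((isUnit_T (R := ℚ) (n : ℤ)).mul_left_eq_zero).mp hf'.symm

lemma g0_ne : (g0 : GLp) ≠ 1 := by
  intro h
  have h1 : E12 ((tt - 1) * ((tt - 1) * (tt + 1))) = (1 : GL (Fin 2) L) := by
    rw [← g0_coe, h]; rfl
  have h2 := congrArg (fun Z : GL (Fin 2) L => (Z : Matrix (Fin 2) (Fin 2) L) 0 1) h1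
  simp only [coe_E12] at h2
  simp only [Matrix.of_apply, Matrix.cons_val', Matrix.cons_val_one, Matrix.cons_val_fin_one,
    Matrix.cons_val_zero, Units.val_one] at h2
  have h3 := congrArg (ev (K := ℚ) two) h2
  have h4 : ev (K := ℚ) two tt = 2 := ev_t _
  rw [map_mul, map_mul, map_add, map_sub, map_one, h4] at h3
  have h5 : (1 : Matrix (Fin 2) (Fin 2) L) 0 1 = 0 := by simp
  rw [h5, map_zero] at h3
  norm_num at h3

lemma GLp_fg (f : GL (Fin 2) L →* GL (Fin 2) ℂ) : (GLp.map f).FG := by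
  rw [Subgroup.fg_iff]
  refine ⟨f '' (gens twoL tu), ?_, ?_⟩
  · rw [← MonoidHom.map_closure]; rfl
  · apply Set.Finite.image
    simp [gens]

lemma GLp_tf (x : GLp) (hx : IsOfFinOrder x) : x = 1 := by
  have h2 : IsOfFinOrder (x : GL (Fin 2) L) := by
    rw [isOfFinOrder_iff_pow_eq_one] at hx ⊢
    obtain ⟨n, hn, h⟩ := hx
    refine ⟨n, hn, ?_⟩
    rw [← Subgroup.coe_pow, h, Subgroup.coe_one]
  exact Subtype.ext (GLp_torsionfree _ x.2 h2)

lemma final (G : Subgroup (GL (Fin 2) ℂ)) (E : GLp ≃* G) (hG : G.FG)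
    (H : ∀ G : Subgroup (GL (Fin 2) ℂ), G.FG → (∀ x : G, IsOfFinOrder x → x = 1) →
      ∀ g : G, g ≠ 1 → ∃ φ : G →* GL (Fin 2) (AlgebraicClosure ℚ), φ g ≠ 1 ∧
          ∀ h : GL (Fin 2) (AlgebraicClosure ℚ), h ∈ φ.range → IsOfFinOrder h → h = 1) : False := by
  have htf : ∀ x : G, IsOfFinOrder x → x = 1 := by
    intro x hx
    have h1 : IsOfFinOrder (E.symm x) := MonoidHom.isOfFinOrder E.symm.toMonoidHom hx
    have h4 : E.symm x = 1 := GLp_tf _ h1
    have h5 : x = E (E.symm x) := (E.apply_symm_apply x).symm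
    rw [h5, h4, map_one]
  have hg : E g0 ≠ 1 := by
    intro h
    exact g0_ne (E.injective (by rw [h, map_one]))
  obtain ⟨φ, hφ1, hφ2⟩ := H _ hG htf (E g0) hg
  apply hφ1
  exact @core (AlgebraicClosure ℚ) _ _ (AlgebraicClosure.instAlgebra ℚ) (AlgebraicClosure.isAlgebraic ℚ)
    (φ.comp E.toMonoidHom) (by
    intro x hx
    exact hφ2 _ ⟨E x, rfl⟩ hx)

/-- The negation of the preceding statement: For every n, every finitely generated torsion-free subgroup G of GL_n(C), and every nontrivial g in G, there is a homomorphism from G to GL_n(Qbar) that does not kill g and has torsion-free image. -/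
theorem result :
    ¬ (∀ n : ℕ, ∀ G : Subgroup (Matrix.GeneralLinearGroup (Fin n) ℂ),
      G.FG →
      (∀ x : G, IsOfFinOrder x → x = 1) →
      ∀ g : G, g ≠ 1 →
        ∃ φ : G →* Matrix.GeneralLinearGroup (Fin n) (AlgebraicClosure ℚ),
          φ g ≠ 1 ∧
          ∀ h : Matrix.GeneralLinearGroup (Fin n) (AlgebraicClosure ℚ),
            h ∈ φ.range → IsOfFinOrder h → h = 1) := by
  intro H
  obtain ⟨c, hc⟩ := exists_transc
  have hc0 : c ≠ 0 := by
    intro h0
    apply hc
    rw [h0]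
    exact isAlgebraic_zero
  have hinj := ev_injective (Units.mk0 c hc0) hc
  have hinj2 : Function.Injective
      (Matrix.GeneralLinearGroup.map (n := Fin 2) (ev (K := ℂ) (Units.mk0 c hc0))) :=
    fun A B h => map_inj _ hinj h
  exact final _ (Subgroup.equivMapOfInjective GLp _ hinj2) (GLp_fg _) (H 2)

end Pool.Agent.S00312
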