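import Pool.Statements.S00314

set_option autoImplicit false
open Pool Pool.MP_0ee5c7_al

namespace Pool.Agent.S00314

/-! ### The lamplighter group -/

/-- Elements of the lamplighter group: a finitely supported lamp configuration and a cursor. -/
@[ext] structure Lam where
  a : ℤ → Bool
  j : ℤ
  fin : ∃ M : ℕ, ∀ q : ℤ, (M : ℤ) < |q| → a q = false

theorem fin_mul {a b : ℤ → Bool} (i : ℤ)
    (ha : ∃ M : ℕ, ∀ q : ℤ, (M : ℤ) < |q| → a q = false)
    (hb : ∃ M : ℕ, ∀ q : ℤ, (M : ℤ) < |q| → b q = false) :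
    ∃ M : ℕ, ∀ q : ℤ, (M : ℤ) < |q| → (xor (a q) (b (q - i))) = false := by
  obtain ⟨M, hM⟩ := ha
  obtain ⟨M', hM'⟩ := hb
  refine ⟨M + M' + i.natAbs, fun q hq => ?_⟩
  have h1 : (M : ℤ) < |q| := by
    push_cast at hq
    have := abs_nonneg i
    omega
  have h2 : (M' : ℤ) < |q - i| := by
    push_cast at hq
    have h3 : |q| ≤ |q - i| + |i| := by
      calc |q| = |(q - i) + i| := by ring_nf
        _ ≤ _ := abs_add_le _ _
    omega
  rw [hM q h1, hM' _ h2]
  rfl

theorem fin_inv {a : ℤ → Bool} (i : ℤ)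
    (ha : ∃ M : ℕ, ∀ q : ℤ, (M : ℤ) < |q| → a q = false) :
    ∃ M : ℕ, ∀ q : ℤ, (M : ℤ) < |q| → a (q + i) = false := by
  obtain ⟨M, hM⟩ := ha
  refine ⟨M + i.natAbs, fun q hq => ?_⟩
  apply hM
  push_cast at hq
  have h3 : |q| ≤ |q + i| + |i| := by
    calc |q| = |(q + i) + (-i)| := by ring_nf
      _ ≤ |q + i| + |-i| := abs_add_le _ _
      _ = _ := by rw [abs_neg]
  omega

instance : Mul Lam := ⟨fun g h => ⟨fun q => xor (g.a q) (h.a (q - g.j)), g.j + h.j, fin_mul g.j g.fin h.fin⟩⟩
instance : One Lam := ⟨⟨fun _ => false, 0, ⟨0, fun _ _ => rfl⟩⟩⟩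
instance : Inv Lam := ⟨fun g => ⟨fun q => g.a (q + g.j), - g.j, fin_inv g.j g.fin⟩⟩

@[simp] theorem mul_a (g h : Lam) (q : ℤ) : (g * h).a q = xor (g.a q) (h.a (q - g.j)) := rfl
@[simp] theorem mul_j (g h : Lam) : (g * h).j = g.j + h.j := rfl
@[simp] theorem one_a (q : ℤ) : (1 : Lam).a q = false := rfl
@[simp] theorem one_j : (1 : Lam).j = 0 := rfl
@[simp] theorem inv_a (g : Lam) (q : ℤ) : (g⁻¹).a q = g.a (q + g.j) := rfl
@[simp] theorem inv_j (g : Lam) : (g⁻¹).j = - g.j := rfl

instance : Group Lam := Group.ofLeftAxioms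
  (by
    intro x y z
    ext q
    · simp only [mul_a, mul_j, Bool.xor_assoc, sub_sub]
    · simp only [mul_j, add_assoc])
  (by
    intro x
    ext q
    · simp
    · simp)
  (by
    intro x
    ext q
    · simp
    · simp)


/-! ### The Cayley graph -/

/-- One step of the cursor to the right, crossing (and possibly switching) the lamp `g.j`. -/
def St (g h : Lam) : Prop := h.j = g.j + 1 ∧ ∀ q, q ≠ g.j → h.a q = g.a q

def tGen : Lam := ⟨fun _ => false, 1, ⟨0, fun _ _ => rfl⟩⟩
def uGen : Lam := ⟨fun q => decide (q = 0), 1, ⟨0, fun q hq => by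
  have : q ≠ 0 := by rintro rfl; simp at hq
  simp [this]⟩⟩

def Gr : SimpleGraph Lam where
  Adj g h := St g h ∨ St h g
  symm := ⟨fun g h => by
    rintro (h | h)
    · exact Or.inr h
    · exact Or.inl h⟩
  loopless := ⟨fun g => by
    rintro (h | h) <;> · have := h.1; omega⟩

theorem gr_adj (g h : Lam) : Gr.Adj g h ↔ (St g h ∨ St h g) := Iff.rfl

open Classical in
noncomputable def genS : Finset Lam := {tGen, uGen}

theorem st_iff (g h : Lam) : St g h ↔ ∃ s ∈ genS, h = g * s := by
  classical
  constructor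
  · rintro ⟨h1, h2⟩
    by_cases h3 : h.a g.j = g.a g.j
    · refine ⟨tGen, by simp [genS], ?_⟩
      ext q
      · simp only [mul_a, tGen, Bool.xor_false]
        by_cases hq : q = g.j
        · rw [hq, h3]
        · rw [h2 q hq]
      · simp [tGen, h1]
    · refine ⟨uGen, by simp [genS], ?_⟩
      ext q
      · simp only [mul_a, uGen]
        by_cases hq : q = g.j
        · subst hq
          simp only [sub_self, decide_true, Bool.xor_true]
          revert h3
          cases h.a g.j <;> cases g.a g.j <;> simp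
        · rw [h2 q hq]
          have : ¬ (q - g.j = 0) := by omega
          simp [this]
      · simp [uGen, h1]
  · rintro ⟨s, hs, rfl⟩
    simp only [genS, Finset.mem_insert, Finset.mem_singleton] at hs
    rcases hs with rfl | rfl
    · refine ⟨by simp [tGen], fun q hq => ?_⟩
      simp [tGen]
    · refine ⟨by simp [uGen], fun q hq => ?_⟩
      have : ¬ (q - g.j = 0) := by omega
      simp [uGen, this]

theorem gr_adj_iff (g h : Lam) :
    Gr.Adj g h ↔ (g ≠ h ∧ ∃ s ∈ genS, h = g * s ∨ g = h * s) := by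
  rw [gr_adj]
  constructor
  · intro hh
    refine ⟨?_, ?_⟩
    · rintro rfl
      rcases hh with hh | hh <;> · have := hh.1; omega
    · rcases hh with hh | hh
      · obtain ⟨s, hs, h1⟩ := (st_iff _ _).1 hh
        exact ⟨s, hs, Or.inl h1⟩
      · obtain ⟨s, hs, h1⟩ := (st_iff _ _).1 hh
        exact ⟨s, hs, Or.inr h1⟩
  · rintro ⟨-, s, hs, h1 | h1⟩
    · exact Or.inl ((st_iff _ _).2 ⟨s, hs, h1⟩)
    · exact Or.inr ((st_iff _ _).2 ⟨s, hs, h1⟩)

/-- The configuration with lamps on exactly at the finite set `F`. -/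
def conf (F : Finset ℤ) : Lam := ⟨fun q => decide (q ∈ F), 0, by
  refine ⟨F.sum (fun q => q.natAbs), fun q hq => ?_⟩
  rw [decide_eq_false_iff_not]
  intro hF
  have h1 := Finset.single_le_sum (f := fun q : ℤ => q.natAbs) (fun _ _ => Nat.zero_le _) hF
  have h2 : |q| = (q.natAbs : ℤ) := by simp
  rw [h2] at hq
  have : ((F.sum (fun q => q.natAbs) : ℕ) : ℤ) < (q.natAbs : ℤ) := hq
  exact absurd h1 (by omega)⟩

theorem tpow_mem (n : ℤ) : (⟨fun _ => false, n, ⟨0, fun _ _ => rfl⟩⟩ : Lam) ∈
    Subgroup.closure (genS : Set Lam) := by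
  classical
  have ht : tGen ∈ Subgroup.closure (genS : Set Lam) := Subgroup.subset_closure (by simp [genS])
  have hn : ∀ m : ℕ, tGen ^ m = (⟨fun _ => false, (m : ℤ), ⟨0, fun _ _ => rfl⟩⟩ : Lam) := by
    intro m
    induction m with
    | zero => ext q <;> simp
    | succ m ih =>
      rw [pow_succ, ih]
      ext q
      · simp [tGen]
      · simp [tGen]
  have key : tGen ^ n = (⟨fun _ => false, n, ⟨0, fun _ _ => rfl⟩⟩ : Lam) := by
    rcases Int.eq_nat_or_neg n with ⟨m, rfl | rfl⟩
    · rw [zpow_natCast, hn]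
    · rw [zpow_neg, zpow_natCast, hn]
      ext q <;> simp
  rw [← key]
  exact Subgroup.zpow_mem _ ht n

theorem single_mem (n : ℤ) : conf {n} ∈ Subgroup.closure (genS : Set Lam) := by
  classical
  have hu : uGen ∈ Subgroup.closure (genS : Set Lam) := Subgroup.subset_closure (by simp [genS])
  have h1 := Subgroup.mul_mem _ (Subgroup.mul_mem _ (tpow_mem n) hu) (tpow_mem (-(n+1)))
  convert h1 using 1
  ext q
  · simp only [conf, mul_a, uGen, Finset.mem_singleton, Bool.false_xor, Bool.xor_false]
    congr 1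
    apply propext
    constructor <;> intro h <;> omega
  · simp [conf, uGen]

theorem conf_mem (F : Finset ℤ) : conf F ∈ Subgroup.closure (genS : Set Lam) := by
  classical
  induction F using Finset.induction with
  | empty =>
    have : conf ∅ = 1 := by ext q <;> simp [conf]
    rw [this]
    exact Subgroup.one_mem _
  | insert n F hn ih =>
    have h1 := Subgroup.mul_mem _ (single_mem n) ih
    convert h1 using 1
    ext q
    · simp only [conf, mul_a, Finset.mem_insert, Finset.mem_singleton, sub_zero]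
      by_cases hq : q = n
      · subst hq; simp [hn]
      · simp [hq]
    · simp [conf]

theorem genS_closure : Subgroup.closure (genS : Set Lam) = ⊤ := by
  classical
  rw [eq_top_iff]
  intro g _
  obtain ⟨M, hM⟩ := g.fin
  have h1 := Subgroup.mul_mem _ (conf_mem ((Finset.Icc (-(M:ℤ)) M).filter (fun q => g.a q = true))) (tpow_mem g.j)
  convert h1 using 1
  ext q
  · simp only [conf, mul_a, Finset.mem_filter, Finset.mem_Icc, Bool.xor_false]
    by_cases hq : (M : ℤ) < |q|
    · rw [hM q hq]
      simp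
    · have : -(M:ℤ) ≤ q ∧ q ≤ M := abs_le.1 (not_lt.1 hq)
      simp [this]
  · simp [conf]

theorem gr_reach (g h : Lam) : Gr.Reachable g h := by
  have key : ∀ x : Lam, x ∈ Subgroup.closure (genS : Set Lam) → ∀ g : Lam, Gr.Reachable g (g * x) := by
    intro x hx
    induction hx using Subgroup.closure_induction with
    | mem x hx =>
      intro g
      exact SimpleGraph.Adj.reachable (Or.inl ((st_iff _ _).2 ⟨x, by simpa using hx, rfl⟩))
    | one => intro g; rw [mul_one]
    | mul x y _ _ hx hy =>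
      intro g
      rw [← mul_assoc]
      exact (hx g).trans (hy (g * x))
    | inv x _ hx =>
      intro g
      have := hx (g * x⁻¹)
      rw [inv_mul_cancel_right] at this
      exact this.symm
  have h1 := key (g⁻¹ * h) (by rw [genS_closure]; trivial) g
  rwa [mul_inv_cancel_left] at h1

/-- Close points have close cursors and their lamps agree away from the cursor. -/
theorem window_walk {g h : Lam} (p : Gr.Walk g h) :
    |g.j - h.j| ≤ p.length ∧
      ∀ q, g.a q ≠ h.a q → g.j - p.length ≤ q ∧ q < g.j + p.length := by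
  induction p with
  | nil => exact ⟨by simp, fun q hq => absurd rfl hq⟩
  | @cons u v w huv p ih =>
    obtain ⟨ih1, ih2⟩ := ih
    rw [SimpleGraph.Walk.length_cons]
    push_cast
    rw [abs_le] at ih1 ⊢
    rcases huv with ⟨hj, ha⟩ | ⟨hj, ha⟩
    · refine ⟨by omega, fun q hq => ?_⟩
      by_cases hq' : q = u.j
      · subst hq'
        have := p.length.cast_nonneg (α := ℤ)
        omega
      · rw [← ha q hq'] at hq
        have := ih2 q hq
        omega
    · refine ⟨by omega, fun q hq => ?_⟩
      by_cases hq' : q = v.j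
      · have := p.length.cast_nonneg (α := ℤ)
        omega
      · rw [ha q hq'] at hq
        have := ih2 q hq
        omega

theorem window {g h : Lam} {R : ℕ} (hd : Gr.dist g h ≤ R) :
    |g.j - h.j| ≤ R ∧ ∀ q, g.a q ≠ h.a q → g.j - R ≤ q ∧ q < g.j + R := by
  obtain ⟨p, hp⟩ := (gr_reach g h).exists_walk_length_eq_dist
  obtain ⟨h1, h2⟩ := window_walk p
  rw [← hp] at hd
  have hd' : (p.length : ℤ) ≤ R := by exact_mod_cast hd
  refine ⟨by omega, fun q hq => ?_⟩
  have := h2 q hq
  omega

/-! ### One-endedness -/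

def Box (M : ℕ) : Set Lam := {g | |g.j| ≤ M ∧ ∀ q : ℤ, (M : ℤ) < |q| → g.a q = false}

theorem box_mono {M M' : ℕ} (h : M ≤ M') : Box M ⊆ Box M' := by
  rintro g ⟨h1, h2⟩
  have h' : (M : ℤ) ≤ M' := by exact_mod_cast h
  exact ⟨by omega, fun q hq => h2 q (by omega)⟩

theorem box_finite (M : ℕ) : (Box M).Finite := by
  classical
  apply Set.Finite.of_finite_image (f := fun g : Lam =>
    (((Finset.Icc (-(M:ℤ)) M).filter (fun q => g.a q = true), g.j) : Finset ℤ × ℤ))
  · apply Set.Finite.subset (((Finset.Icc (-(M:ℤ)) M).powerset ×ˢ (Finset.Icc (-(M:ℤ)) M)).finite_toSet)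
    rintro _ ⟨g, hg, rfl⟩
    simp only [Finset.coe_product, Set.mem_prod, Finset.mem_coe, Finset.mem_powerset,
      Finset.mem_Icc]
    exact ⟨Finset.filter_subset _ _, abs_le.1 hg.1⟩
  · intro g hg h hh hgh
    simp only [Prod.mk.injEq] at hgh
    obtain ⟨h1, h2⟩ := hgh
    ext q
    · by_cases hq : (M : ℤ) < |q|
      · rw [hg.2 q hq, hh.2 q hq]
      · have hq' : q ∈ Finset.Icc (-(M:ℤ)) M := by
          rw [Finset.mem_Icc]; exact abs_le.1 (not_lt.1 hq)
        have := Finset.ext_iff.1 h1 q
        simp only [Finset.mem_filter, hq', true_and] at this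
        exact Bool.eq_iff_iff.2 this
    · exact h2

theorem exists_box (F : Finset Lam) : ∃ M : ℕ, ∀ g ∈ F, g ∈ Box M := by
  classical
  induction F using Finset.induction with
  | empty => exact ⟨0, by simp⟩
  | insert g F _ ih =>
    obtain ⟨M, hM⟩ := ih
    obtain ⟨M', hM'⟩ := g.fin
    refine ⟨M + M' + g.j.natAbs, fun h hh => ?_⟩
    rcases Finset.mem_insert.1 hh with rfl | hh
    · refine ⟨by push_cast; omega, fun q hq => hM' q ?_⟩
      push_cast at hq
      have := abs_nonneg h.j
      omega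
    · exact box_mono (by omega) (hM h hh)

/-- Switch lamp `q` on. -/
def setOn (q : ℤ) (g : Lam) : Lam := ⟨fun x => if x = q then true else g.a x, g.j, by
  obtain ⟨M, hM⟩ := g.fin
  refine ⟨M + q.natAbs, fun x hx => ?_⟩
  push_cast at hx
  have h1 := abs_nonneg q
  have h2 : x ≠ q := by rintro rfl; omega
  rw [if_neg h2]
  exact hM x (by omega)⟩

theorem setOn_st {q : ℤ} {g h : Lam} (hh : St g h) : St (setOn q g) (setOn q h) := by
  refine ⟨hh.1, fun x hx => ?_⟩
  have := hh.2 x hx
  simp only [setOn]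
  rw [this]

def setOnHom (q : ℤ) : Gr →g Gr where
  toFun := setOn q
  map_rel' := by
    rintro g h (hh | hh)
    · exact Or.inl (setOn_st hh)
    · exact Or.inr (setOn_st hh)

theorem setOn_eq {q : ℤ} {g : Lam} (h : g.a q = true) : setOn q g = g := by
  ext x
  · simp only [setOn]
    split_ifs with hx
    · rw [hx, h]
    · rfl
  · rfl

theorem conn_on {q : ℤ} {g h : Lam} (hg : g.a q = true) (hh : h.a q = true) :
    ∃ p : Gr.Walk g h, ∀ v ∈ p.support, v.a q = true := by
  obtain ⟨p⟩ := gr_reach g h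
  have e1 : (setOnHom q) g = g := setOn_eq hg
  have e2 : (setOnHom q) h = h := setOn_eq hh
  refine ⟨(p.map (setOnHom q)).copy e1 e2, fun v hv => ?_⟩
  rw [SimpleGraph.Walk.support_copy, SimpleGraph.Walk.support_map] at hv
  obtain ⟨w, -, rfl⟩ := List.mem_map.1 hv
  simp [setOnHom, setOn]

theorem conn_on2 {M : ℕ} {q q' : ℤ} {g h : Lam} (hq : (M : ℤ) < |q|) (hq' : (M : ℤ) < |q'|)
    (hg : g.a q = true) (hh : h.a q' = true) :
    ∃ p : Gr.Walk g h, ∀ v ∈ p.support, v ∉ Box M := by
  have h1 : (setOn q (setOn q' 1)).a q = true := by simp [setOn]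
  have h2 : (setOn q (setOn q' 1)).a q' = true := by simp [setOn]
  obtain ⟨p, hp⟩ := conn_on hg h1
  obtain ⟨p', hp'⟩ := conn_on h2 hh
  refine ⟨p.append p', fun v hv hB => ?_⟩
  rw [SimpleGraph.Walk.mem_support_append_iff] at hv
  rcases hv with hv | hv
  · have := hp v hv
    rw [hB.2 q hq] at this
    exact absurd this (by simp)
  · have := hp' v hv
    rw [hB.2 q' hq'] at this
    exact absurd this (by simp)

theorem escape {M : ℕ} {g : Lam} (hg : g ∉ Box M) :
    ∃ g' q, (M : ℤ) < |q| ∧ g'.a q = true ∧ ∃ p : Gr.Walk g g', ∀ v ∈ p.support, v ∉ Box M := by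
  by_cases h1 : ∃ q : ℤ, (M : ℤ) < |q| ∧ g.a q = true
  · obtain ⟨q, hq, hgq⟩ := h1
    exact ⟨g, q, hq, hgq, SimpleGraph.Walk.nil, by simpa using hg⟩
  · push Not at h1
    have h2 : (M : ℤ) < |g.j| := by
      by_contra h2
      apply hg
      refine ⟨not_lt.1 h2, fun q hq => ?_⟩
      have := h1 q hq
      simpa using this
    by_cases h3 : 0 ≤ g.j
    · -- move right
      refine ⟨⟨(setOn g.j g).a, g.j + 1, (setOn g.j g).fin⟩, g.j, h2, by simp [setOn], ?_⟩
      have hadj : Gr.Adj g ⟨(setOn g.j g).a, g.j + 1, (setOn g.j g).fin⟩ := by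
        refine Or.inl ⟨rfl, fun q hq => ?_⟩
        simp [setOn, hq]
      refine ⟨hadj.toWalk, fun v hv => ?_⟩
      simp only [SimpleGraph.Adj.toWalk, SimpleGraph.Walk.support_cons,
        SimpleGraph.Walk.support_nil, List.mem_cons, List.not_mem_nil, or_false] at hv
      rcases hv with rfl | rfl
      · exact hg
      · intro hB
        have := hB.1
        simp only at this
        rw [abs_of_nonneg h3] at h2
        rw [abs_of_nonneg (by omega)] at this
        omega
    · refine ⟨⟨(setOn (g.j - 1) g).a, g.j - 1, (setOn (g.j - 1) g).fin⟩, g.j - 1, ?_, by simp [setOn], ?_⟩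
      · rw [abs_of_neg (by omega)] at h2 ⊢
        omega
      have hadj : Gr.Adj g ⟨(setOn (g.j - 1) g).a, g.j - 1, (setOn (g.j - 1) g).fin⟩ := by
        refine Or.inr ⟨by simp, fun q hq => ?_⟩
        simp only at hq
        simp [setOn, hq]
      refine ⟨hadj.toWalk, fun v hv => ?_⟩
      simp only [SimpleGraph.Adj.toWalk, SimpleGraph.Walk.support_cons,
        SimpleGraph.Walk.support_nil, List.mem_cons, List.not_mem_nil, or_false] at hv
      rcases hv with rfl | rfl
      · exact hg
      · intro hB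
        have := hB.1
        simp only at this
        rw [abs_of_neg (by omega)] at this h2
        omega

theorem one_ended (F : Finset Lam) : ∃ F' : Finset Lam, ∀ a b : Lam, a ∉ F' → b ∉ F' →
    ∃ p : Gr.Walk a b, ∀ v ∈ p.support, v ∉ F := by
  obtain ⟨M, hM⟩ := exists_box F
  refine ⟨(box_finite M).toFinset, fun a b ha hb => ?_⟩
  rw [Set.Finite.mem_toFinset] at ha hb
  obtain ⟨a', q, hq, haq, p, hp⟩ := escape ha
  obtain ⟨b', q', hq', hbq, p', hp'⟩ := escape hb
  obtain ⟨r, hr⟩ := conn_on2 hq hq' haq hbq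
  refine ⟨(p.append r).append p'.reverse, fun v hv hF => ?_⟩
  have hB := hM v hF
  rw [SimpleGraph.Walk.mem_support_append_iff, SimpleGraph.Walk.mem_support_append_iff,
    SimpleGraph.Walk.support_reverse, List.mem_reverse] at hv
  rcases hv with (hv | hv) | hv
  · exact hp v hv hB
  · exact hr v hv hB
  · exact hp' v hv hB

/-! ### The Gray code -/

def lev (i : ℕ) : ℕ := if i % 2 = 0 then 0 else lev (i / 2) + 1
termination_by i
decreasing_by omega

theorem lev_even {i : ℕ} (h : i % 2 = 0) : lev i = 0 := by rw [lev, if_pos h]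
theorem lev_odd {i : ℕ} (h : i % 2 = 1) : lev i = lev (i / 2) + 1 := by
  rw [lev, if_neg (by omega)]

theorem lev_false (i : ℕ) : i.testBit (lev i) = false := by
  induction i using Nat.strong_induction_on with
  | _ i ih =>
    rcases Nat.mod_two_eq_zero_or_one i with h | h
    · rw [lev_even h, Nat.testBit_zero]; simp [h]
    · rw [lev_odd h, Nat.testBit_succ]
      exact ih _ (by omega)

theorem lev_true (i : ℕ) : ∀ b, b < lev i → i.testBit b = true := by
  induction i using Nat.strong_induction_on with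
  | _ i ih =>
    intro b hb
    rcases Nat.mod_two_eq_zero_or_one i with h | h
    · rw [lev_even h] at hb; omega
    · rw [lev_odd h] at hb
      cases b with
      | zero => rw [Nat.testBit_zero]; simp [h]
      | succ b =>
        rw [Nat.testBit_succ]
        exact ih _ (by omega) b (by omega)

theorem succ_bit (i : ℕ) : ∀ b, (i + 1).testBit b =
    if b < lev i then false else if b = lev i then true else i.testBit b := by
  induction i using Nat.strong_induction_on with
  | _ i ih =>
    intro b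
    rcases Nat.mod_two_eq_zero_or_one i with h | h
    · rw [lev_even h]
      cases b with
      | zero =>
        have : (i + 1) % 2 = 1 := by omega
        simp [Nat.testBit_zero, this]
      | succ b =>
        have : (i + 1) / 2 = i / 2 := by omega
        simp [Nat.testBit_succ, this]
    · rw [lev_odd h]
      cases b with
      | zero =>
        have : (i + 1) % 2 = 0 := by omega
        simp [Nat.testBit_zero, this]
      | succ b =>
        have h2 : (i + 1) / 2 = i / 2 + 1 := by omega
        rw [Nat.testBit_succ, h2, ih _ (by omega) b]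
        simp [Nat.testBit_succ]

def gray (i b : ℕ) : Bool := xor (i.testBit b) (i.testBit (b + 1))

theorem gray_low {i b : ℕ} (h : b + 1 < lev i) : gray i b = false := by
  rw [gray, lev_true i b (by omega), lev_true i (b + 1) h]; rfl

theorem gray_pred {i b : ℕ} (h : b + 1 = lev i) : gray i b = true := by
  rw [gray, lev_true i b (by omega), h, lev_false]; rfl

theorem gray_succ (i b : ℕ) : gray (i + 1) b = if b = lev i then !gray i b else gray i b := by
  unfold gray
  rw [succ_bit, succ_bit]
  rcases lt_trichotomy b (lev i) with h | h | h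
  · have e1 : ¬ b = lev i := by omega
    simp only [if_pos h, if_neg e1, lev_true i b h]
    by_cases h' : b + 1 < lev i
    · simp only [if_pos h', lev_true i _ h']; rfl
    · have e2 : b + 1 = lev i := by omega
      simp only [if_neg h', if_pos e2]
      rw [e2, lev_false]; rfl
  · subst h
    rw [if_neg (by omega), if_pos rfl, if_pos rfl, if_neg (by omega), if_neg (by omega), lev_false]
    simp
  · rw [if_neg (by omega), if_neg (by omega), if_neg (by omega), if_neg (by omega), if_neg (by omega)]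

theorem gray_big {i b : ℕ} (h : i ≤ b) : gray i b = false := by
  have h1 : i < 2 ^ b := lt_of_le_of_lt h Nat.lt_two_pow_self
  have h2 : i < 2 ^ (b + 1) := lt_of_lt_of_le h1 (Nat.pow_le_pow_right (by norm_num) (by omega))
  rw [gray, Nat.testBit_lt_two_pow h1, Nat.testBit_lt_two_pow h2]; rfl

/-- Gray codes that agree on the high bits come from numbers with the same high bits. -/
theorem gray_decode {i i' M : ℕ} (h : ∀ b, M ≤ b → gray i b = gray i' b) :
    ∀ b, M ≤ b → i.testBit b = i'.testBit b := by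
  have key : ∀ n b, M ≤ b → i + i' ≤ b + n → i.testBit b = i'.testBit b := by
    intro n
    induction n with
    | zero =>
      intro b _ hb
      have h1 : i < 2 ^ b := lt_of_le_of_lt (by omega) (Nat.lt_two_pow_self (n := b))
      have h2 : i' < 2 ^ b := lt_of_le_of_lt (by omega) (Nat.lt_two_pow_self (n := b))
      rw [Nat.testBit_lt_two_pow h1, Nat.testBit_lt_two_pow h2]
    | succ n ih =>
      intro b hb hn
      have h1 := ih (b + 1) (by omega) (by omega)
      have h2 := h b hb
      unfold gray at h2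
      rw [h1] at h2
      revert h2
      cases i.testBit b <;> cases i'.testBit b <;> cases i'.testBit (b + 1) <;> simp
  intro b hb
  exact key (i + i') b hb (by omega)

theorem gray_surj (M : ℕ) : ∀ g : ℕ → Bool, (∀ b, M ≤ b → g b = false) →
    ∃ i, ∀ b, gray i b = g b := by
  induction M with
  | zero =>
    intro g hg
    refine ⟨0, fun b => ?_⟩
    rw [hg b (Nat.zero_le _)]
    exact gray_big (Nat.zero_le _)
  | succ M ih =>
    intro g hg
    obtain ⟨i, hi⟩ := ih (fun b => g (b + 1)) (fun b hb => hg (b + 1) (by omega))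
    refine ⟨2 * i + (xor (g 0) (i.testBit 0)).toNat, fun b => ?_⟩
    have hb1 : (xor (g 0) (i.testBit 0)).toNat < 2 := Bool.toNat_lt _
    have hs : ∀ b, (2 * i + (xor (g 0) (i.testBit 0)).toNat).testBit (b + 1) = i.testBit b := by
      intro b
      rw [Nat.testBit_succ]
      congr 1
      omega
    cases b with
    | zero =>
      rw [gray, hs, Nat.testBit_zero]
      have : (2 * i + (xor (g 0) (i.testBit 0)).toNat) % 2 = (xor (g 0) (i.testBit 0)).toNat := by omega
      rw [this]
      cases g 0 <;> cases i.testBit 0 <;> simp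
    | succ b =>
      rw [gray, hs, hs]
      exact hi b

theorem same_block {I I' M : ℕ} (h : ∀ b, M ≤ b → I.testBit b = I'.testBit b) :
    I / 2 ^ M = I' / 2 ^ M := by
  apply Nat.eq_of_testBit_eq
  intro b
  rw [Nat.testBit_div_two_pow, Nat.testBit_div_two_pow]
  exact h _ (by omega)

theorem lev_lt_of_block {i M : ℕ} (h : i / 2 ^ M = (i + 1) / 2 ^ M) : lev i < M := by
  by_contra hM
  have h1 : (i / 2 ^ M).testBit (lev i - M) = ((i + 1) / 2 ^ M).testBit (lev i - M) := by rw [h]
  rw [Nat.testBit_div_two_pow, Nat.testBit_div_two_pow, show lev i - M + M = lev i by omega, lev_false,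
    succ_bit] at h1
  simp at h1

def len (i : ℕ) : ℕ := 2 * (lev i / 2) + 2

def tau : ℕ → ℕ
  | 0 => 0
  | i + 1 => tau i + len i

theorem tau_block {M : ℕ} : ∀ n I : ℕ, I / 2 ^ M = (I + n) / 2 ^ M → tau (I + n) ≤ tau I + n * (M + 2) := by
  intro n
  induction n with
  | zero => intro I _; simp
  | succ n ih =>
    intro I hI
    have h1 : I / 2 ^ M ≤ (I + n) / 2 ^ M := Nat.div_le_div_right (by omega)
    have h2 : (I + n) / 2 ^ M ≤ (I + (n + 1)) / 2 ^ M := Nat.div_le_div_right (by omega)
    have h3 := ih I (by omega)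
    have h4 : lev (I + n) < M := lev_lt_of_block (by rw [show I + n + 1 = I + (n + 1) by omega]; omega)
    rw [show I + (n + 1) = (I + n) + 1 by omega, tau, len]
    have : (n + 1) * (M + 2) = n * (M + 2) + (M + 2) := by ring
    omega

theorem tau_close {I I' M : ℕ} (h : I / 2 ^ M = I' / 2 ^ M) :
    tau I' ≤ tau I + 2 ^ M * (M + 2) := by
  have hpos : 0 < 2 ^ M := Nat.two_pow_pos M
  by_cases hI : I ≤ I'
  · obtain ⟨n, rfl⟩ := Nat.exists_eq_add_of_le hI
    have h1 := tau_block n I h
    have h2 : n < 2 ^ M := by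
      have e1 := Nat.div_add_mod I (2 ^ M)
      have e2 := Nat.div_add_mod (I + n) (2 ^ M)
      have e3 := Nat.mod_lt (I + n) hpos
      rw [← h] at e2
      omega
    have h3 : n * (M + 2) ≤ 2 ^ M * (M + 2) := Nat.mul_le_mul_right _ h2.le
    omega
  · have hmono : Monotone tau := monotone_nat_of_le_succ (fun n => by rw [tau]; omega)
    have := hmono (show I' ≤ I by omega)
    omega

/-! ### The path -/

/-- The bit that stores the lamp at site `x`. -/
def bt (x : ℤ) : ℕ := if 0 ≤ x then 2 * x.toNat else 2 * (-1 - x).toNat + 1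

/-- Coordinates seen from the side on which the excursion takes place. -/
def sd (e : Bool) (x : ℤ) : ℤ := if e then -1 - x else x

theorem sd_sd (e : Bool) (x : ℤ) : sd e (sd e x) = x := by
  cases e <;> simp [sd]

def side (i : ℕ) : Bool := decide (lev i % 2 = 1)

def V (i c : ℕ) (r : Bool) (x : ℤ) : Bool :=
  if 0 ≤ sd (side i) x ∧ sd (side i) x < c ∧ sd (side i) x < (lev i / 2 : ℕ) then
    gray i (bt (sd (side i) (sd (side i) x + (lev i / 2 : ℕ) + 1)))
  else xor (decide (sd (side i) x = (lev i / 2 : ℕ)) && r) (gray i (bt x))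

theorem le_bt (x : ℤ) : |x| ≤ bt x := by
  unfold bt
  split_ifs with h
  · rw [abs_of_nonneg h]; push_cast; omega
  · rw [abs_of_neg (by omega)]; push_cast; omega

theorem V_fin (i c : ℕ) (r : Bool) : ∃ M : ℕ, ∀ q : ℤ, (M : ℤ) < |q| → V i c r q = false := by
  refine ⟨i + lev i + 2, fun q hq => ?_⟩
  have h3 : |q| ≤ |sd (side i) q| + 1 := by
    unfold sd
    split_ifs
    · rcases abs_cases q with h | h <;> rcases abs_cases (-1 - q) with h' | h' <;> omega
    · omega
  have h5 : ((lev i / 2 : ℕ) : ℤ) ≤ lev i := by exact_mod_cast Nat.div_le_self _ _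
  have h6 : (i + lev i + 1 : ℤ) < |sd (side i) q| := by push_cast at hq; omega
  have h1 : ¬ (0 ≤ sd (side i) q ∧ sd (side i) q < c ∧ sd (side i) q < (lev i / 2 : ℕ)) := by
    rintro ⟨h1, -, h2⟩
    rw [abs_of_nonneg h1] at h6
    omega
  have h2 : ¬ (sd (side i) q = (lev i / 2 : ℕ)) := by
    intro h2
    have h7 : 0 ≤ sd (side i) q := by rw [h2]; exact Int.natCast_nonneg _
    rw [abs_of_nonneg h7] at h6
    omega
  have h4 : gray i (bt q) = false := gray_big (by
    have := le_bt q
    push_cast at hq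
    omega)
  rw [V, if_neg h1, h4, decide_eq_false h2]
  rfl

def sgn (e : Bool) (c : ℕ) : ℤ := if e then -(c : ℤ) else c

def mkP (i c : ℕ) (r : Bool) : Lam := ⟨V i c r, sgn (side i) c, V_fin i c r⟩

/-- Moving the cursor past the site whose side coordinate is `c`. -/
theorem adj_step {i c : ℕ} {r r' : Bool} (h : c = lev i / 2 ∨ r = r') :
    Gr.Adj (mkP i c r) (mkP i (c + 1) r') := by
  have key : ∀ x, sd (side i) x ≠ c → V i c r x = V i (c + 1) r' x := by
    intro x hx
    unfold V
    by_cases h1 : 0 ≤ sd (side i) x ∧ sd (side i) x < c ∧ sd (side i) x < (lev i / 2 : ℕ)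
    · rw [if_pos h1, if_pos (by push_cast at h1 ⊢; omega)]
    · rw [if_neg h1, if_neg (by push_cast at h1 ⊢; omega)]
      rcases h with h | h
      · have : ¬ (sd (side i) x = (lev i / 2 : ℕ)) := by rw [← h]; exact hx
        simp only [this, decide_false, Bool.false_and]
      · rw [h]
  by_cases he : side i = true
  · right
    refine ⟨?_, fun q hq => key q ?_⟩
    · simp only [mkP, sgn, he, if_true]; push_cast; ring
    · simp only [mkP, sgn, sd, he, if_true] at hq ⊢
      push_cast at hq
      omega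
  · left
    refine ⟨?_, fun q hq => (key q ?_).symm⟩
    · simp [mkP, sgn, he]
    · simpa [mkP, sgn, sd, he] using hq

theorem bt_lev (i : ℕ) (x : ℤ) : sd (side i) x = (lev i / 2 : ℕ) ↔ bt x = lev i := by
  unfold sd side bt
  by_cases h : lev i % 2 = 1
  · simp only [h, decide_true, if_true]
    split_ifs <;> constructor <;> intro h' <;> omega
  · simp only [h, decide_false]
    split_ifs <;> constructor <;> intro h' <;> first | omega | simp_all

theorem mkP_zero (i : ℕ) (r : Bool) (x : ℤ) : (mkP i 0 r).a x = gray (i + r.toNat) (bt x) := by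
  have h1 : ¬ (0 ≤ sd (side i) x ∧ sd (side i) x < ((0 : ℕ) : ℤ) ∧ sd (side i) x < (lev i / 2 : ℕ)) := by
    push_cast; omega
  simp only [mkP, V, if_neg h1]
  cases r
  · simp
  · simp only [Bool.and_true, Bool.toNat_true, gray_succ]
    by_cases h : bt x = lev i
    · rw [if_pos h, decide_eq_true ((bt_lev i x).2 h)]; simp
    · rw [if_neg h, decide_eq_false (fun h' => h ((bt_lev i x).1 h'))]; simp

theorem mkP_next (i : ℕ) : mkP i 0 true = mkP (i + 1) 0 false := by
  ext x
  · rw [mkP_zero, mkP_zero]; simp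
  · simp [mkP, sgn]

/-- The `j`-th point of the `i`-th excursion. -/
def pt (i j : ℕ) : Lam :=
  if j ≤ lev i / 2 then mkP i j false else mkP i (len i - j) true

theorem pt_adj {i j : ℕ} (hj : j < len i) : Gr.Adj (pt i j) (pt i (j + 1)) := by
  unfold pt
  unfold len at hj ⊢
  by_cases h1 : j + 1 ≤ lev i / 2
  · rw [if_pos (by omega), if_pos h1]
    exact adj_step (Or.inr rfl)
  · rw [if_neg h1]
    by_cases h2 : j ≤ lev i / 2
    · rw [if_pos h2, show 2 * (lev i / 2) + 2 - (j + 1) = j + 1 by omega]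
      exact adj_step (Or.inl (by omega))
    · rw [if_neg h2, show 2 * (lev i / 2) + 2 - j = (2 * (lev i / 2) + 2 - (j + 1)) + 1 by omega]
      exact (adj_step (Or.inr rfl)).symm

theorem pt_len (i : ℕ) : pt i (len i) = pt (i + 1) 0 := by
  unfold pt
  rw [if_neg (by unfold len; omega), if_pos (Nat.zero_le _), Nat.sub_self]
  exact mkP_next i

def state : ℕ → ℕ × ℕ
  | 0 => (0, 0)
  | t + 1 => if (state t).2 + 1 < len (state t).1 then ((state t).1, (state t).2 + 1)
      else ((state t).1 + 1, 0)

theorem state_inv (t : ℕ) : (state t).2 < len (state t).1 ∧ t = tau (state t).1 + (state t).2 := by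
  induction t with
  | zero => simp [state, tau, len]
  | succ t ih =>
    rw [state]
    split_ifs with h
    · exact ⟨h, by simp only; omega⟩
    · refine ⟨by simp [len], ?_⟩
      simp only [tau]
      omega

def P (t : ℕ) : Lam := pt (state t).1 (state t).2

theorem P_adj (t : ℕ) : Gr.Adj (P t) (P (t + 1)) := by
  unfold P
  have h := (state_inv t).1
  rw [state]
  split_ifs with h'
  · exact pt_adj h
  · have h2 : (state t).2 + 1 = len (state t).1 := by omega
    have := pt_adj h
    rw [h2, pt_len] at this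
    exact this

theorem tau_mono : Monotone tau := monotone_nat_of_le_succ (fun n => by rw [tau]; omega)

theorem state_tau (i : ℕ) : state (tau i) = (i, 0) := by
  obtain ⟨h1, h2⟩ := state_inv (tau i)
  have h3 : (state (tau i)).1 = i := by
    rcases lt_trichotomy (state (tau i)).1 i with h | h | h
    · have := tau_mono (show (state (tau i)).1 + 1 ≤ i by omega)
      rw [tau] at this
      omega
    · exact h
    · have := tau_mono (show i + 1 ≤ (state (tau i)).1 by omega)
      rw [tau, len] at this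
      omega
  rw [h3] at h2
  ext
  · exact h3
  · show (state (tau i)).2 = 0
    omega

/-- The site that stores bit `b`. -/
def sit (b : ℕ) : ℤ := if b % 2 = 0 then ((b / 2 : ℕ) : ℤ) else -1 - ((b / 2 : ℕ) : ℤ)

theorem sit_bt (x : ℤ) : sit (bt x) = x := by
  unfold sit bt
  split_ifs <;> omega

theorem bt_sit (b : ℕ) : bt (sit b) = b := by
  unfold sit bt
  split_ifs <;> omega

theorem P_surj (g : Lam) (hg : g.j = 0) : ∃ t, P t = g := by
  obtain ⟨M, hM⟩ := g.fin
  obtain ⟨i, hi⟩ := gray_surj (2 * M + 2) (fun b => g.a (sit b)) (by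
    intro b hb
    apply hM
    unfold sit
    split_ifs
    · rw [abs_of_nonneg (by omega)]; omega
    · rw [abs_of_neg (by omega)]; omega)
  refine ⟨tau i, ?_⟩
  unfold P
  rw [state_tau]
  simp only [pt, Nat.zero_le, if_true]
  ext x
  · rw [mkP_zero]
    simp only [Bool.toNat_false, Nat.add_zero]
    rw [hi, sit_bt]
  · simp [mkP, sgn, hg]

/-! ### The path is uniformly embedded -/

theorem V_out {i c : ℕ} {r : Bool} {x : ℤ}
    (h : sd (side i) x < 0 ∨ ((lev i / 2 : ℕ) : ℤ) < sd (side i) x) :
    V i c r x = gray i (bt x) := by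
  unfold V
  rw [if_neg (by omega), decide_eq_false (by omega)]
  simp

theorem V_sig {i c : ℕ} {r : Bool} {q : ℤ} (h0 : 0 ≤ q) (h1 : q < c) (h2 : q < (lev i / 2 : ℕ)) :
    V i c r (sd (side i) q) = gray i (bt (sd (side i) (q + (lev i / 2 : ℕ) + 1))) := by
  unfold V
  rw [sd_sd, if_pos ⟨h0, h1, h2⟩]

theorem V_top {i c : ℕ} {r : Bool} :
    V i c r (sd (side i) (lev i / 2 : ℕ)) = xor r (gray i (bt (sd (side i) (lev i / 2 : ℕ)))) := by
  unfold V
  rw [sd_sd, if_neg (by omega)]
  simp

theorem far {i i' c c' R : ℕ} {r r' : Bool} (hc : c ≤ lev i / 2 + 1)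
    (hd : Gr.dist (mkP i c r) (mkP i' c' r') ≤ R) (hR : 2 * R + 2 ≤ c)
    (hc' : c' ≤ lev i' / 2 + 1) :
    i = i' ∧ (c : ℤ) - c' ≤ R ∧ (c' : ℤ) - c ≤ R ∧ (r ≠ r' → lev i / 2 + 1 ≤ c + R) := by
  obtain ⟨hw1, hw2⟩ := window hd
  simp only [mkP] at hw1 hw2
  have hside : side i' = side i := by
    by_contra hne
    rw [abs_le] at hw1
    unfold sgn at hw1
    revert hw1 hne
    cases side i <;> cases side i' <;> simp <;> omega
  have hcc : (c : ℤ) - c' ≤ R ∧ (c' : ℤ) - c ≤ R := by
    rw [abs_le, hside] at hw1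
    unfold sgn at hw1
    revert hw1
    cases side i <;> simp <;> omega
  have hwin : ∀ x, V i c r x ≠ V i' c' r' x →
      (c : ℤ) - R ≤ sd (side i) x ∧ sd (side i) x < c + R := by
    intro x hx
    have := hw2 x hx
    unfold sgn at this
    unfold sd
    revert this
    cases side i <;> simp <;> omega
  have hlev : ∀ i₁ i₂ : ℕ, side i₁ = side i → side i₂ = side i → 2 ≤ lev i₁ →
      (∀ x, sd (side i) x < 0 → gray i₁ (bt x) = gray i₂ (bt x)) → ¬ lev i₁ < lev i₂ := by
    intro i₁ i₂ h1 h2 h3 h4 h5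
    have hpar : lev i₁ % 2 = lev i₂ % 2 := by
      rw [← h1] at h2
      unfold side at h2
      have := decide_eq_decide.1 h2
      omega
    have hneg : sd (side i) (sit (lev i₁ - 1)) < 0 := by
      rw [← h1]
      unfold sd side sit
      by_cases h : lev i₁ % 2 = 1
      · have h' : (lev i₁ - 1) % 2 = 0 := by omega
        simp only [h, h', decide_true, if_true]
        omega
      · have h' : ¬ ((lev i₁ - 1) % 2 = 0) := by omega
        simp only [h, h', decide_false, if_false]
        simp only [Bool.false_eq_true, if_false]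
        omega
    have h6 := h4 _ hneg
    rw [bt_sit, gray_pred (by omega), gray_low (by omega)] at h6
    exact absurd h6 (by simp)
  have hneg : ∀ x, sd (side i) x < 0 → gray i (bt x) = gray i' (bt x) := by
    intro x hx
    by_contra hne
    have := hwin x (by
      rw [V_out (Or.inl hx), V_out (Or.inl (by rw [hside]; exact hx))]
      exact hne)
    omega
  have hl : lev i = lev i' := by
    rcases lt_trichotomy (lev i) (lev i') with h | h | h
    · exact absurd h (hlev i i' rfl hside (by omega) hneg)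
    · exact h
    · exact absurd h (hlev i' i hside rfl (by omega) (fun x hx => (hneg x hx).symm))
  have hgr : ∀ b, lev i + 1 ≤ b → gray i b = gray i' b := by
    intro b hb
    have hb' : bt (sit b) = b := bt_sit b
    have hx : sd (side i) (sit b) < 0 ∨ ((lev i / 2 : ℕ) : ℤ) < sd (side i) (sit b) := by
      rcases lt_or_ge (sd (side i) (sit b)) 0 with h | h
      · exact Or.inl h
      · right
        unfold sd side sit at h ⊢
        by_cases hp : lev i % 2 = 1
        · simp only [hp, decide_true, if_true] at h ⊢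
          split_ifs at h ⊢ <;> omega
        · simp only [hp, decide_false, if_false, Bool.false_eq_true] at h ⊢
          split_ifs at h ⊢ <;> omega
    by_contra hne
    have hV : V i c r (sit b) ≠ V i' c' r' (sit b) := by
      rw [V_out hx, V_out (by rw [hside, ← hl]; exact hx), hb']
      exact hne
    obtain ⟨w1, w2⟩ := hwin _ hV
    have hx' : ((lev i / 2 : ℕ) : ℤ) < sd (side i) (sit b) := by omega
    have hq := hwin (sd (side i) (sd (side i) (sit b) - (lev i / 2 : ℕ) - 1)) (by
      have e2 : V i' c' r' (sd (side i) (sd (side i) (sit b) - (lev i / 2 : ℕ) - 1)) = gray i' b := by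
        rw [← hside, V_sig (by rw [hside]; omega) (by rw [hside]; omega) (by rw [hside, ← hl]; omega),
          hside, ← hl, show sd (side i) (sit b) - ((lev i / 2 : ℕ) : ℤ) - 1 + ((lev i / 2 : ℕ) : ℤ) + 1
            = sd (side i) (sit b) by ring, sd_sd, hb']
      rw [V_sig (by omega) (by omega) (by omega), e2,
        show sd (side i) (sit b) - ((lev i / 2 : ℕ) : ℤ) - 1 + ((lev i / 2 : ℕ) : ℤ) + 1
            = sd (side i) (sit b) by ring, sd_sd, hb']
      exact hne)
    rw [sd_sd] at hq
    omega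
  have hii : i = i' := by
    have hdec := gray_decode hgr
    apply Nat.eq_of_testBit_eq
    intro b
    rcases lt_trichotomy b (lev i) with h | h | h
    · rw [lev_true i b h, lev_true i' b (by omega)]
    · rw [h, lev_false, hl, lev_false]
    · exact hdec b h
  refine ⟨hii, hcc.1, hcc.2, fun hrr => ?_⟩
  subst hii
  have := hwin (sd (side i) (lev i / 2 : ℕ)) (by
    rw [V_top, V_top]
    intro h
    apply hrr
    revert h
    cases r <;> cases r' <;> cases gray i (bt (sd (side i) (lev i / 2 : ℕ))) <;> simp)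
  rw [sd_sd] at this
  omega

theorem V_zero {i c : ℕ} {r : Bool} {x : ℤ} (h : ¬ (0 ≤ sd (side i) x ∧ sd (side i) x < c)) :
    V i c r x = gray (i + r.toNat) (bt x) := by
  rw [← mkP_zero]
  simp only [mkP, V]
  rw [if_neg (by tauto), if_neg (by push_cast; omega)]

theorem near {i i' c c' R : ℕ} {r r' : Bool}
    (hd : Gr.dist (mkP i c r) (mkP i' c' r') ≤ R) (hR : c ≤ 2 * R + 1) :
    c' ≤ 3 * R + 1 ∧ ∀ b, 8 * R + 20 ≤ b → gray (i + r.toNat) b = gray (i' + r'.toNat) b := by
  obtain ⟨hw1, hw2⟩ := window hd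
  simp only [mkP] at hw1 hw2
  have hc' : c' ≤ 3 * R + 1 := by
    rw [abs_le] at hw1
    unfold sgn at hw1
    revert hw1
    cases side i <;> cases side i' <;> simp <;> omega
  refine ⟨hc', fun b hb => ?_⟩
  have hs : (4 * R + 8 : ℤ) ≤ sit b ∨ sit b ≤ -(4 * R + 8 : ℤ) := by
    unfold sit; split_ifs <;> omega
  have hsgn : -(2 * R + 1 : ℤ) ≤ sgn (side i) c ∧ sgn (side i) c ≤ 2 * R + 1 := by
    unfold sgn; split_ifs <;> omega
  have h1 : V i c r (sit b) = gray (i + r.toNat) b := by
    rw [V_zero, bt_sit]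
    unfold sd; split_ifs <;> omega
  have h2 : V i' c' r' (sit b) = gray (i' + r'.toNat) b := by
    rw [V_zero, bt_sit]
    unfold sd; split_ifs <;> omega
  rw [← h1, ← h2]
  by_contra hne
  have := hw2 _ hne
  omega

theorem P_form (t : ℕ) : ∃ (i c : ℕ) (r : Bool), P t = mkP i c r ∧ c ≤ lev i / 2 + 1 ∧
    (r = false → t = tau i + c) ∧ (r = true → t + c = tau (i + 1)) := by
  obtain ⟨h1, h2⟩ := state_inv t
  unfold P pt
  by_cases h : (state t).2 ≤ lev (state t).1 / 2
  · refine ⟨(state t).1, (state t).2, false, by rw [if_pos h], by omega, fun _ => h2, by simp⟩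
  · refine ⟨(state t).1, len (state t).1 - (state t).2, true, by rw [if_neg h], ?_, by simp, fun _ => ?_⟩
    · unfold len; omega
    · rw [tau]; omega

theorem close (R : ℕ) : ∃ T : ℕ, ∀ s t, Gr.dist (P s) (P t) ≤ R → (s : ℤ) - t ≤ T := by
  refine ⟨5 * R + 10 + 2 ^ (8 * R + 20) * ((8 * R + 20) + 2), fun s t hd => ?_⟩
  obtain ⟨i, c, r, hP, hc, hf, ht⟩ := P_form s
  obtain ⟨i', c', r', hP', hc', hf', ht'⟩ := P_form t
  rw [hP, hP'] at hd
  push_cast
  have hpos : (0 : ℤ) ≤ 2 ^ (8 * R + 20) * ((8 * R + 20) + 2) := by positivity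
  by_cases hR : 2 * R + 2 ≤ c
  · obtain ⟨rfl, h1, h2, h3⟩ := far hc hd hR hc'
    cases r <;> cases r'
    · have e1 := hf rfl
      have e2 := hf' rfl
      omega
    · have e1 := hf rfl
      have e2 := ht' rfl
      rw [tau, len] at e2
      omega
    · have e1 := ht rfl
      have e2 := hf' rfl
      have e3 := h3 (by simp)
      rw [tau, len] at e1
      omega
    · have e1 := ht rfl
      have e2 := ht' rfl
      omega
  · obtain ⟨h1, h2⟩ := near hd (by omega)
    have h3 := tau_close (same_block (gray_decode (fun b hb => (h2 b hb).symm)))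
    have h3' : (tau (i + r.toNat) : ℤ) ≤ tau (i' + r'.toNat) + 2 ^ (8 * R + 20) * ((8 * R + 20) + 2) := by
      exact_mod_cast h3
    cases r <;> cases r'
    · have e1 := hf rfl
      have e2 := hf' rfl
      simp only [Bool.toNat_false, Nat.add_zero] at h3'
      omega
    · have e1 := hf rfl
      have e2 := ht' rfl
      simp only [Bool.toNat_false, Nat.add_zero, Bool.toNat_true] at h3'
      omega
    · have e1 := ht rfl
      have e2 := hf' rfl
      simp only [Bool.toNat_false, Nat.add_zero, Bool.toNat_true] at h3'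
      omega
    · have e1 := ht rfl
      have e2 := ht' rfl
      simp only [Bool.toNat_true] at h3'
      omega

theorem P_dist (s n : ℕ) : Gr.dist (P s) (P (s + n)) ≤ n := by
  induction n with
  | zero => simp
  | succ n ih =>
    have h1 : Gr.dist (P s) (P (s + (n + 1))) ≤
        Gr.dist (P s) (P (s + n)) + Gr.dist (P (s + n)) (P (s + (n + 1))) :=
      SimpleGraph.Connected.dist_triangle (⟨gr_reach⟩)
    have h2 : Gr.dist (P (s + n)) (P (s + (n + 1))) = 1 :=
      SimpleGraph.dist_eq_one_iff_adj.2 (P_adj (s + n))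
    omega

theorem conn : Gr.Connected := ⟨gr_reach⟩

theorem P_lip (s t : ℕ) : (Gr.dist (P s) (P t) : ℝ) ≤ |(s : ℝ) - t| := by
  rcases le_total s t with h | h
  · obtain ⟨n, rfl⟩ := Nat.exists_eq_add_of_le h
    have := P_dist s n
    push_cast
    rw [show (s : ℝ) - (s + n) = -n by ring, abs_neg, abs_of_nonneg (by positivity)]
    exact_mod_cast this
  · obtain ⟨n, rfl⟩ := Nat.exists_eq_add_of_le h
    have := P_dist t n
    rw [SimpleGraph.dist_comm]
    push_cast
    rw [show (t : ℝ) + n - t = n by ring, abs_of_nonneg (by positivity)]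
    exact_mod_cast this

/-- The negation of the preceding statement: In a Cayley graph of a finitely generated group with at most one end (equivalently, not splitting over a finite group), no subset of the image of a coarse uniform embedding of [0,∞) coarsely separates the graph into two deep pieces. -/
theorem result :
    ¬ (∀ (G : Type) [Group G] (S : Finset G), Subgroup.closure (S : Set G) = ⊤ →
      ∀ Γ : SimpleGraph G,
        (∀ g h : G, Γ.Adj g h ↔ (g ≠ h ∧ ∃ s ∈ S, h = g * s ∨ g = h * s)) →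
        (∀ F : Finset G, ∃ F' : Finset G, ∀ a b : G, a ∉ F' → b ∉ F' →
            ∃ p : Γ.Walk a b, ∀ v ∈ p.support, v ∉ F) →
        ∀ f : ℝ → G,
          (∃ C D : ℝ, ∀ x y : ℝ, 0 ≤ x → 0 ≤ y →
              (Γ.dist (f x) (f y) : ℝ) ≤ C * |x - y| + D) →
          (∀ M : ℝ, ∃ N : ℝ, ∀ x y : ℝ, 0 ≤ x → 0 ≤ y → N ≤ |x - y| →
              M ≤ (Γ.dist (f x) (f y) : ℝ)) →
          ∀ Y : Set G, Y ⊆ f '' Set.Ici (0 : ℝ) →
            ¬ ∃ K : ℕ, ∃ A B : Set G,
                Disjoint A B ∧
                A ∪ B = {g : G | ∀ y ∈ Y, K < Γ.dist g y} ∧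
                (∀ a ∈ A, ∀ b ∈ B, ¬ Γ.Adj a b) ∧
                (∀ R : ℕ, ¬ A ⊆ {g : G | ∃ y ∈ Y, Γ.dist g y ≤ R}) ∧
                (∀ R : ℕ, ¬ B ⊆ {g : G | ∃ y ∈ Y, Γ.dist g y ≤ R})) := by
  intro H
  have hfl : ∀ x y : ℝ, 0 ≤ x → 0 ≤ y → |((⌊x⌋₊ : ℕ) : ℝ) - (⌊y⌋₊ : ℕ)| ≤ |x - y| + 1 ∧
      |x - y| ≤ |((⌊x⌋₊ : ℕ) : ℝ) - (⌊y⌋₊ : ℕ)| + 1 := by
    intro x y hx hy
    have h1 := Nat.floor_le hx
    have h2 := Nat.lt_floor_add_one x
    have h3 := Nat.floor_le hy
    have h4 := Nat.lt_floor_add_one y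
    constructor
    · rcases abs_cases ((⌊x⌋₊ : ℝ) - (⌊y⌋₊ : ℕ)) with h | h <;>
        rcases abs_cases (x - y) with h' | h' <;> linarith
    · rcases abs_cases ((⌊x⌋₊ : ℝ) - (⌊y⌋₊ : ℕ)) with h | h <;>
        rcases abs_cases (x - y) with h' | h' <;> linarith
  refine H Lam genS genS_closure Gr gr_adj_iff one_ended (fun x => P ⌊x⌋₊) ?_ ?_
    {g | g.j = 0} ?_ ?_
  · refine ⟨1, 1, fun x y hx hy => ?_⟩
    have h1 := P_lip ⌊x⌋₊ ⌊y⌋₊
    have h2 := (hfl x y hx hy).1
    linarith
  · intro M
    obtain ⟨T, hT⟩ := close ⌈M⌉₊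
    refine ⟨T + 2, fun x y hx hy hxy => ?_⟩
    by_contra hlt
    push Not at hlt
    have h1 : Gr.dist (P ⌊x⌋₊) (P ⌊y⌋₊) ≤ ⌈M⌉₊ := by
      have h2 := Nat.le_ceil M
      have h3 : (Gr.dist (P ⌊x⌋₊) (P ⌊y⌋₊) : ℝ) ≤ (⌈M⌉₊ : ℕ) := by linarith
      exact_mod_cast h3
    have h2 := hT _ _ h1
    have h3 := hT ⌊y⌋₊ ⌊x⌋₊ (by rw [SimpleGraph.dist_comm]; exact h1)
    have h4 := (hfl x y hx hy).2
    have h2' : ((⌊x⌋₊ : ℕ) : ℝ) - (⌊y⌋₊ : ℕ) ≤ T := by exact_mod_cast h2
    have h3' : ((⌊y⌋₊ : ℕ) : ℝ) - (⌊x⌋₊ : ℕ) ≤ T := by exact_mod_cast h3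
    have h5 : |((⌊x⌋₊ : ℕ) : ℝ) - (⌊y⌋₊ : ℕ)| ≤ T := abs_le.2 ⟨by linarith, by linarith⟩
    linarith
  · intro g hg
    obtain ⟨t, ht⟩ := P_surj g hg
    exact ⟨(t : ℝ), by simp, by simp [ht]⟩
  · refine ⟨0, {g | 0 < g.j}, {g | g.j < 0}, ?_, ?_, ?_, ?_, ?_⟩
    · rw [Set.disjoint_left]
      intro g h1 h2
      simp only [Set.mem_ofPred_eq] at h1 h2
      omega
    · ext g
      simp only [Set.mem_union, Set.mem_ofPred_eq]
      constructor
      · intro hg y hy
        apply conn.pos_dist_of_ne
        rintro rfl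
        omega
      · intro hg
        by_contra hne
        have h0 : g.j = 0 := by omega
        have := hg g h0
        simp at this
    · intro a ha b hb hab
      simp only [Set.mem_ofPred_eq] at ha hb
      rcases hab with h | h
      · have := h.1; omega
      · have := h.1; omega
    · intro R hsub
      have h1 : (⟨fun _ => false, (R : ℤ) + 1, ⟨0, fun _ _ => rfl⟩⟩ : Lam) ∈
          {g : Lam | ∃ y ∈ {g : Lam | g.j = 0}, Gr.dist g y ≤ R} := by
        apply hsub
        simp only [Set.mem_ofPred_eq]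
        omega
      obtain ⟨y, hy, hd⟩ := h1
      have h2 : |((R : ℤ) + 1) - y.j| ≤ R := (window hd).1
      have hy' : y.j = 0 := hy
      rw [abs_le, hy'] at h2
      omega
    · intro R hsub
      have h1 : (⟨fun _ => false, -((R : ℤ) + 1), ⟨0, fun _ _ => rfl⟩⟩ : Lam) ∈
          {g : Lam | ∃ y ∈ {g : Lam | g.j = 0}, Gr.dist g y ≤ R} := by
        apply hsub
        simp only [Set.mem_ofPred_eq]
        omega
      obtain ⟨y, hy, hd⟩ := h1
      have h2 : |-((R : ℤ) + 1) - y.j| ≤ R := (window hd).1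
      have hy' : y.j = 0 := hy
      rw [abs_le, hy'] at h2
      omega

end Pool.Agent.S00314
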