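import Pool.Statements.S00316
import Pool.Agent.Helper813.Final

set_option autoImplicit false
open Pool Pool.MP_0f752e_al

namespace Pool.Agent.S00316

/-- The negation of the preceding statement: Take any class of finite groups closed under images, subdirect products, normal subgroups and products of normal members. Then for finite G and U, V subnormal in ⟨U,V⟩, the residual of ⟨U,V⟩ equals the join of the residuals of U and V. -/
theorem result :
    ¬ (∀ F : (H : Type) → [Group H] → Prop,
      (∀ (G H : Type) [Group G] [Group H] [Finite G], F G →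
          ∀ f : G →* H, Function.Surjective f → F H) →
      (∀ (G H₁ H₂ : Type) [Group G] [Group H₁] [Group H₂] [Finite G],
          F H₁ → F H₂ → ∀ (f₁ : G →* H₁) (f₂ : G →* H₂),
            Function.Surjective f₁ → Function.Surjective f₂ →
            f₁.ker ⊓ f₂.ker = ⊥ → F G) →
      (∀ (G : Type) [Group G] [Finite G], F G →
          ∀ N : Subgroup G, N.Normal → F N) →
      (∀ (G : Type) [Group G] [Finite G] (N M : Subgroup G),
          N.Normal → M.Normal → F N → F M → N ⊔ M = ⊤ → F G) →
      ∀ (G : Type) [Group G] [Finite G] (U V : Subgroup G),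
        (∃ n : ℕ, ∃ c : ℕ → Subgroup G, c 0 = U ∧ c n = U ⊔ V ∧
          ∀ i < n, c i ≤ c (i + 1) ∧ ((c i).subgroupOf (c (i + 1))).Normal) →
        (∃ n : ℕ, ∃ c : ℕ → Subgroup G, c 0 = V ∧ c n = U ⊔ V ∧
          ∀ i < n, c i ≤ c (i + 1) ∧ ((c i).subgroupOf (c (i + 1))).Normal) →
        (⨅ (H : Type) (_ : Group H) (_ : F H) (f : ↥(U ⊔ V) →* H)
            (_ : Function.Surjective f), f.ker).map (U ⊔ V).subtype =
          (⨅ (H : Type) (_ : Group H) (_ : F H) (f : ↥U →* H)
              (_ : Function.Surjective f), f.ker).map U.subtype ⊔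
          (⨅ (H : Type) (_ : Group H) (_ : F H) (f : ↥V →* H)
              (_ : Function.Surjective f), f.ker).map V.subtype) := by
  exact Pool.Agent.Helper813.first Pool.Agent.Helper813.dat

end Pool.Agent.S00316
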