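import Pool.Statements.S00317
import Pool.Agent.Helper221.SphereMain

set_option autoImplicit false
open Pool Pool.MP_0f8bf3_al

namespace Pool.Agent.S00317


open Pool.Agent.Helper221 in
/-- auxiliary: coordinates on the sphere -/
noncomputable def sphPi (x : ↥(Metric.sphere (0 : Fin 4 → ℝ) 1)) : ℂ × ℂ := CubeMaps.proj 0 x.1

open Pool.Agent.Helper221 in
lemma sphPi_inj : Function.Injective sphPi := by
  intro x y h
  apply Subtype.ext
  rw [← CubeMaps.emb_proj 0 x.1, ← CubeMaps.emb_proj 0 y.1]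
  exact congrArg _ h

open Pool.Agent.Helper221 in
lemma norm_eq (x : Fin 4 → ℝ) : ‖x‖ =
    max (SqRot.sn (CubeMaps.proj 0 x).1) (SqRot.sn (CubeMaps.proj 0 x).2) := by
  have h1 : SqRot.sn (CubeMaps.proj 0 x).1 = max |x 0| |x 1| := by simp [SqRot.sn, CubeMaps.proj]
  have h2 : SqRot.sn (CubeMaps.proj 0 x).2 = max |x 2| |x 3| := by simp [SqRot.sn, CubeMaps.proj]
  rw [h1, h2]
  apply le_antisymm
  · rw [pi_norm_le_iff_of_nonneg
      (le_max_of_le_left (le_max_of_le_left (abs_nonneg _)))]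
    intro i
    rw [Real.norm_eq_abs]
    fin_cases i
    · exact le_max_of_le_left (le_max_left _ _)
    · exact le_max_of_le_left (le_max_right _ _)
    · exact le_max_of_le_right (le_max_left _ _)
    · exact le_max_of_le_right (le_max_right _ _)
  · refine max_le (max_le ?_ ?_) (max_le ?_ ?_)
    · exact norm_le_pi_norm x 0
    · exact norm_le_pi_norm x 1
    · exact norm_le_pi_norm x 2
    · exact norm_le_pi_norm x 3

open Pool.Agent.Helper221 in
lemma mem_sph {x : Fin 4 → ℝ} : x ∈ Metric.sphere (0 : Fin 4 → ℝ) 1 ↔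
    max (SqRot.sn (CubeMaps.proj 0 x).1) (SqRot.sn (CubeMaps.proj 0 x).2) = 1 := by
  rw [mem_sphere_zero_iff_norm, norm_eq]

open Pool.Agent.Helper221 in
lemma sphPi_sat : ∀ x (q : ℂ × ℂ), SqRot.sn q.1 = SqRot.sn (sphPi x).1 →
    SqRot.sn q.2 = SqRot.sn (sphPi x).2 → ∃ y, sphPi y = q := by
  intro x q h1 h2
  have hx := mem_sph.1 x.2
  refine ⟨⟨CubeMaps.emb 0 q, mem_sph.2 ?_⟩, CubeMaps.proj_emb _ _⟩
  rw [CubeMaps.proj_emb, h1, h2]
  exact hx

open Pool.Agent.Helper221 in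
/-- auxiliary: transport to the sphere -/
noncomputable def rs : Twist.presv →* Equiv.Perm ↥(Metric.sphere (0 : Fin 4 → ℝ) 1) :=
  Twist.res sphPi sphPi_inj sphPi_sat

open Pool.Agent.Helper221 in
lemma rs_val (G : Twist.presv) (x : ↥(Metric.sphere (0 : Fin 4 → ℝ) 1)) :
    (rs G x).1 = CubeMaps.M 0 G.1 x.1 := by
  have h := Twist.res_spec sphPi sphPi_inj sphPi_sat G x
  have h2 : CubeMaps.proj 0 (rs G x).1 = G.1 (CubeMaps.proj 0 x.1) := h
  rw [← CubeMaps.emb_proj 0 (rs G x).1, h2]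
  rfl

open Pool.Agent.Helper221 in
lemma rs_cont (G : Twist.presv) (h : CubeMaps.CPL (CubeMaps.M 0 G.1)) :
    Continuous (rs G) := by
  refine continuous_induced_rng.2 ?_
  have : (Subtype.val ∘ rs G) = fun x : ↥(Metric.sphere (0 : Fin 4 → ℝ) 1) =>
      CubeMaps.M 0 G.1 x.1 := funext fun x => rs_val G x
  rw [this]
  exact h.2.comp continuous_subtype_val

open Pool.Agent.Helper221 in
lemma rs_good (G : Twist.presv) (h : CubeMaps.CPL (CubeMaps.M 0 G.1)) :
    Continuous (rs G) ∧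
          ∃ m : ℕ, ∃ C : Fin m → Set (Fin 4 → ℝ),
            ∃ A : Fin m → ((Fin 4 → ℝ) →ᵃ[ℝ] (Fin 4 → ℝ)),
              (∀ j, ∃ s : Finset (Fin 4 → ℝ), C j = convexHull ℝ (↑s : Set (Fin 4 → ℝ))) ∧
              (∀ x : ↥(Metric.sphere (0 : Fin 4 → ℝ) 1), ∃ j, (↑x : Fin 4 → ℝ) ∈ C j) ∧
              (∀ j, ∀ x : ↥(Metric.sphere (0 : Fin 4 → ℝ) 1), (↑x : Fin 4 → ℝ) ∈ C j →
                (↑((rs G) x) : Fin 4 → ℝ) = A j (↑x : Fin 4 → ℝ)) := by
  refine ⟨rs_cont G h, ?_⟩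
  obtain ⟨N, S, A, h1, h2⟩ := h.1.exists_cells (-1) 1
  refine ⟨N, fun j => convexHull ℝ (S j : Set (Fin 4 → ℝ)), A, fun j => ⟨S j, rfl⟩, ?_, ?_⟩
  · intro x
    apply h1
    have hx : ‖x.1‖ = 1 := mem_sphere_zero_iff_norm.1 x.2
    constructor
    · intro i
      have := norm_le_pi_norm x.1 i
      rw [hx, Real.norm_eq_abs, abs_le] at this
      exact this.1
    · intro i
      have := norm_le_pi_norm x.1 i
      rw [hx, Real.norm_eq_abs, abs_le] at this
      exact this.2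
  · intro j x hx
    rw [rs_val]
    exact h2 j x.1 hx

open Pool.Agent.Helper221 in
lemma main4 : ∃ ψ : SphereMain.ZW 4 →* Equiv.Perm ↥(Metric.sphere (0 : Fin 4 → ℝ) 1),
      Function.Injective ψ ∧
        ∀ g, Continuous (ψ g) ∧
          ∃ m : ℕ, ∃ C : Fin m → Set (Fin 4 → ℝ),
            ∃ A : Fin m → ((Fin 4 → ℝ) →ᵃ[ℝ] (Fin 4 → ℝ)),
              (∀ j, ∃ s : Finset (Fin 4 → ℝ), C j = convexHull ℝ (↑s : Set (Fin 4 → ℝ))) ∧
              (∀ x : ↥(Metric.sphere (0 : Fin 4 → ℝ) 1), ∃ j, (↑x : Fin 4 → ℝ) ∈ C j) ∧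
              (∀ j, ∀ x : ↥(Metric.sphere (0 : Fin 4 → ℝ) 1), (↑x : Fin 4 → ℝ) ∈ C j →
                (↑((ψ g) x) : Fin 4 → ℝ) = A j (↑x : Fin 4 → ℝ)) := by
  obtain ⟨α, hα1, hα⟩ := Twist.exists_alpha 4
  refine ⟨(rs.comp (SphereMain.imHom α (1/2))).comp (Subgroup.inclusion SphereMain.ZW_le), ?_, ?_⟩
  · rw [injective_iff_map_eq_one]
    intro g hg
    have hgood : SphereMain.Good g.1 := SphereMain.ZW_le g.2
    have hg' : rs (SphereMain.im α (1/2) g.1) = 1 := hg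
    have h := SphereMain.faithful2 hα (c := 1/2) (R := 1) (by norm_num) (by norm_num)
      (SphereMain.wt g.1) (SphereMain.lam g.1) hgood.1 (by
        intro u w hu hw
        obtain ⟨x, hx⟩ : ∃ x, sphPi x = (u, w) := by
          refine ⟨⟨CubeMaps.emb 0 (u, w), mem_sph.2 ?_⟩, CubeMaps.proj_emb _ _⟩
          rw [CubeMaps.proj_emb]
          show max (SqRot.sn u) (SqRot.sn w) = 1
          rw [hw, max_eq_right hu]
        have h1 := Twist.res_spec sphPi sphPi_inj sphPi_sat (SphereMain.im α (1/2) g.1) x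
        rw [hx] at h1
        have h2 : rs (SphereMain.im α (1/2) g.1) x = x := by rw [hg']; rfl
        have h3 : sphPi (rs (SphereMain.im α (1/2) g.1) x) =
          (SphereMain.im α (1/2) g.1).1 (u, w) := h1
        rw [h2, hx] at h3
        exact h3.symm)
    apply Subtype.ext
    ext1 p
    obtain ⟨z, m⟩ := p
    rw [hgood.2, h.1, h.2]
    simp
  · intro g
    exact rs_good _ (SphereMain.CPL_im hα1 0 (1/2) g.1 g.2)

/-- For some n, the restricted wreath product Z wr Z^n (built as its faithful permutation group on Z^n × Z) embeds as a group into the piecewise-linear homeomorphisms of the boundary of the n-cube, a PL (n-1)-sphere. -/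
theorem result :
    ∃ n : ℕ, ∃ ψ : ↥(Subgroup.closure
        (insert
          (Equiv.prodShear (Equiv.refl (Fin n → ℤ))
            (fun w => if w = 0 then Equiv.addRight (1 : ℤ) else Equiv.refl ℤ) :
              Equiv.Perm ((Fin n → ℤ) × ℤ))
          (Set.range fun i : Fin n =>
            (Equiv.prodCongr (Equiv.addRight (Pi.single i (1 : ℤ) : Fin n → ℤ)) (Equiv.refl ℤ) :
              Equiv.Perm ((Fin n → ℤ) × ℤ))))) →*
        Equiv.Perm ↥(Metric.sphere (0 : Fin n → ℝ) 1),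
      Function.Injective ψ ∧
        ∀ g, Continuous (ψ g) ∧
          ∃ m : ℕ, ∃ C : Fin m → Set (Fin n → ℝ),
            ∃ A : Fin m → ((Fin n → ℝ) →ᵃ[ℝ] (Fin n → ℝ)),
              (∀ j, ∃ s : Finset (Fin n → ℝ), C j = convexHull ℝ (↑s : Set (Fin n → ℝ))) ∧
              (∀ x : ↥(Metric.sphere (0 : Fin n → ℝ) 1), ∃ j, (↑x : Fin n → ℝ) ∈ C j) ∧
              (∀ j, ∀ x : ↥(Metric.sphere (0 : Fin n → ℝ) 1), (↑x : Fin n → ℝ) ∈ C j →
                (↑((ψ g) x) : Fin n → ℝ) = A j (↑x : Fin n → ℝ)) :=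
  ⟨4, main4⟩

end Pool.Agent.S00317
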