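import Pool.Statements.S00323
import Pool.Agent.Helper453.Embed

set_option autoImplicit false
open Pool Pool.MP_102156_al

namespace Pool.Agent.S00323

/-- Suppose G is a periodic, residually finite group in which every conjugacy class is finite, and whose abelianization is a direct sum of cyclic groups. Then G embeds in the restricted direct product of some family of finite groups. -/
theorem result :
    ∀ (G : Type) [Group G],
      Monoid.IsTorsion G →
      (∀ g : G, {h : G | IsConj g h}.Finite) →
      (∀ g : G, g ≠ 1 → ∃ N : Subgroup G, N.Normal ∧ N.FiniteIndex ∧ g ∉ N) →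
      (∃ (J : Type) (C : J → Type) (_ : ∀ j, AddCommGroup (C j)),
          (∀ j, IsAddCyclic (C j)) ∧
          Nonempty (Additive (Abelianization G) ≃+ Π₀ j, C j)) →
      ∃ (I : Type) (H : I → Type) (_ : ∀ i, Group (H i)) (_ : ∀ i, Finite (H i))
        (f : G →* ∀ i, H i),
        Function.Injective f ∧ ∀ g : G, {i : I | f g i ≠ 1}.Finite := by
  classical
  intro G _ htor hFC hRF hJ
  obtain ⟨J, C, hC, hcyc, ⟨e⟩⟩ := hJ
  obtain ⟨ι, N, hN1, hN2, hN3, hN4⟩ := Helper453.Gorch.exists_family
    (Helper453.Embed.locally_normal htor hFC) hRF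
  have hfinC : ∀ j, Finite (C j) := by
    intro j
    obtain ⟨γ, hγ⟩ := (hcyc j).exists_zsmul_surjective
    have hfo : IsOfFinAddOrder γ := by
      obtain ⟨g, hg⟩ : ∃ g : G, Additive.ofMul (Abelianization.of g) =
          e.symm (DFinsupp.single j γ) := QuotientGroup.mk_surjective _
      have h1 : IsOfFinOrder g := htor g
      obtain ⟨n, hn, hn'⟩ := isOfFinOrder_iff_pow_eq_one.1 h1
      rw [isOfFinAddOrder_iff_nsmul_eq_zero]
      refine ⟨n, hn, ?_⟩
      have h2 : n • (e.symm (DFinsupp.single j γ)) = 0 := by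
        rw [← hg, ← ofMul_pow, ← map_pow, hn', map_one]; rfl
      have h4 : n • (DFinsupp.single j γ : Π₀ j, C j) = 0 := by
        rw [← map_nsmul, map_eq_zero_iff _ e.symm.injective] at h2
        exact h2
      have h5 := DFunLike.congr_fun h4 j
      simpa using h5
    have h6 : Finite (AddSubgroup.zmultiples γ) :=
      (finite_zmultiples).2 hfo
    refine Finite.of_surjective (fun x : AddSubgroup.zmultiples γ => x.1) ?_
    intro x
    obtain ⟨m, hm⟩ := hγ x
    exact ⟨⟨x, ⟨m, hm⟩⟩, rfl⟩
  let ψ : G →* Multiplicative (Π₀ j, C j) :=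
    { toFun := fun g => Multiplicative.ofAdd (e (Additive.ofMul (Abelianization.of g)))
      map_one' := by simp
      map_mul' := by
        intro a b
        rw [map_mul, ofMul_mul, map_add, ofAdd_add] }
  have hψ : ∀ g, ψ g = Multiplicative.ofAdd (e (Additive.ofMul (Abelianization.of g))) :=
    fun g => rfl
  refine Helper453.Embed.embed hcyc hfinC hFC N hN1 hN2 hN3 hN4 (MonoidHom.id G)
    (fun _ _ h => h) ψ ?_ ?_
  · intro v
    obtain ⟨g, hg⟩ : ∃ g : G, Additive.ofMul (Abelianization.of g) =
          e.symm (Multiplicative.toAdd v) := QuotientGroup.mk_surjective _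
    refine ⟨g, ?_⟩
    rw [hψ, hg]; simp
  · intro g
    rw [hψ, ofAdd_eq_one, map_eq_zero_iff _ e.injective, ofMul_eq_zero]
    simp only [MonoidHom.id_apply]
    rw [← MonoidHom.mem_ker, Abelianization.ker_of]

end Pool.Agent.S00323
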