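import Pool.Statements.S00338
-- import your own Pool.Agent.* helpers here
import Pool.Agent.Helper282.KField
import Pool.Agent.Helper282.Endo

set_option autoImplicit false
open Pool Pool.MP_145108_al

namespace Pool.Agent.S00338

/-- The trivial extension of a division ring D by the bimodule D, where D acts on the right by
multiplication and on the left through the endomorphism s. -/
structure Ext (D : Type) [DivisionRing D] (s : D →+* D) where
  d : D
  m : D

namespace Ext

variable {D : Type} [DivisionRing D] {s : D →+* D}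

@[ext] theorem ext' {a b : Ext D s} (h1 : a.d = b.d) (h2 : a.m = b.m) : a = b := by
  cases a; cases b; simp_all

instance : Zero (Ext D s) := ⟨⟨0, 0⟩⟩
instance : One (Ext D s) := ⟨⟨1, 0⟩⟩
instance : Add (Ext D s) := ⟨fun a b => ⟨a.d + b.d, a.m + b.m⟩⟩
instance : Neg (Ext D s) := ⟨fun a => ⟨-a.d, -a.m⟩⟩
instance : Mul (Ext D s) := ⟨fun a b => ⟨a.d * b.d, s a.d * b.m + a.m * b.d⟩⟩

@[simp] theorem zero_d : (0 : Ext D s).d = 0 := rfl
@[simp] theorem zero_m : (0 : Ext D s).m = 0 := rfl
@[simp] theorem one_d : (1 : Ext D s).d = 1 := rfl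
@[simp] theorem one_m : (1 : Ext D s).m = 0 := rfl
@[simp] theorem add_d (a b : Ext D s) : (a + b).d = a.d + b.d := rfl
@[simp] theorem add_m (a b : Ext D s) : (a + b).m = a.m + b.m := rfl
@[simp] theorem neg_d (a : Ext D s) : (-a).d = -a.d := rfl
@[simp] theorem neg_m (a : Ext D s) : (-a).m = -a.m := rfl
@[simp] theorem mul_d (a b : Ext D s) : (a * b).d = a.d * b.d := rfl
@[simp] theorem mul_m (a b : Ext D s) : (a * b).m = s a.d * b.m + a.m * b.d := rfl

instance instRing : Ring (Ext D s) where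
  add_assoc a b c := by ext1 <;> simp [add_assoc]
  zero_add a := by ext1 <;> simp
  add_zero a := by ext1 <;> simp
  add_comm a b := by ext1 <;> simp [add_comm]
  neg_add_cancel a := by ext1 <;> simp
  mul_assoc a b c := by ext1 <;> simp [mul_assoc, mul_add, add_mul, add_assoc]
  one_mul a := by ext1 <;> simp
  mul_one a := by ext1 <;> simp
  left_distrib a b c := by
    ext1
    · simp [mul_add]
    · simp only [mul_m, add_m, add_d, mul_add]; abel
  right_distrib a b c := by
    ext1
    · simp [add_mul]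
    · simp only [mul_m, add_m, add_d, add_mul, map_add]; abel
  zero_mul a := by ext1 <;> simp
  mul_zero a := by ext1 <;> simp
  nsmul := nsmulRec
  zsmul := zsmulRec

/-- The projection. -/
def pi : Ext D s →+* D where
  toFun := Ext.d
  map_one' := rfl
  map_mul' _ _ := rfl
  map_zero' := rfl
  map_add' _ _ := rfl

theorem chain (a b : Ext D s) : (∃ r, a = b * r) ∨ (∃ r, b = a * r) := by
  by_cases ha : a.d = 0
  · by_cases hb : b.d = 0
    · by_cases ham : a.m = 0
      · left
        exact ⟨0, by ext1 <;> simp [ha, ham]⟩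
      · right
        refine ⟨⟨a.m⁻¹ * b.m, 0⟩, ?_⟩
        ext1
        · simp [ha, hb]
        · simp [ham]
    · left
      have hb' : s b.d ≠ 0 := by simpa using hb
      refine ⟨⟨b.d⁻¹ * a.d, (s b.d)⁻¹ * (a.m - b.m * (b.d⁻¹ * a.d))⟩, ?_⟩
      ext1
      · simp [hb]
      · simp only [mul_m]
        rw [← mul_assoc, mul_inv_cancel₀ hb', one_mul, sub_add_cancel]
  · right
    have ha' : s a.d ≠ 0 := by simpa using ha
    refine ⟨⟨a.d⁻¹ * b.d, (s a.d)⁻¹ * (b.m - a.m * (a.d⁻¹ * b.d))⟩, ?_⟩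
    ext1
    · simp [ha]
    · simp only [mul_m]
      rw [← mul_assoc, mul_inv_cancel₀ ha', one_mul, sub_add_cancel]

theorem total (I J : Submodule (Ext D s)ᵐᵒᵖ (Ext D s)) : I ≤ J ∨ J ≤ I := by
  by_contra hcon
  rw [not_or, SetLike.not_le_iff_exists, SetLike.not_le_iff_exists] at hcon
  obtain ⟨⟨x, hxI, hxJ⟩, ⟨y, hyJ, hyI⟩⟩ := hcon
  rcases chain x y with ⟨r, hr⟩ | ⟨r, hr⟩
  · apply hxJ
    have : x = MulOpposite.op r • y := by
      rw [hr, MulOpposite.smul_eq_mul_unop, MulOpposite.unop_op]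
    rw [this]
    exact J.smul_mem _ hyJ
  · apply hyI
    have : y = MulOpposite.op r • x := by
      rw [hr, MulOpposite.smul_eq_mul_unop, MulOpposite.unop_op]
    rw [this]
    exact I.smul_mem _ hxI

theorem distrib (I J K : Submodule (Ext D s)ᵐᵒᵖ (Ext D s)) :
    I ⊓ (J ⊔ K) = (I ⊓ J) ⊔ (I ⊓ K) := by
  rcases total J K with h | h
  · rw [sup_eq_right.2 h, sup_eq_right.2 (inf_le_inf_left I h)]
  · rw [sup_eq_left.2 h, sup_eq_left.2 (inf_le_inf_left I h)]

/-- Central elements fixed by the endomorphism give central elements of the extension. -/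
def iota (hs : ∀ z ∈ Subring.center D, s z = z) :
    Subring.center D →+* Subring.center (Ext D s) where
  toFun z := ⟨⟨z, 0⟩, by
    rw [Subring.mem_center_iff]
    intro g
    have hz := Subring.mem_center_iff.1 z.2
    ext1
    · simpa using hz g.d
    · simp only [mul_m, mul_zero, add_zero, zero_add, zero_mul]
      rw [hs _ z.2, hz]⟩
  map_one' := rfl
  map_zero' := rfl
  map_mul' a b := by
    apply Subtype.ext
    ext1
    · rfl
    · simp
  map_add' a b := by
    apply Subtype.ext
    ext1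
    · rfl
    · simp

theorem integral (hs : ∀ z ∈ Subring.center D, s z = z)
    (hD : ∀ x : D, IsIntegral (Subring.center D) x) (x : Ext D s) :
    ∃ p : Polynomial (Subring.center (Ext D s)),
      p.Monic ∧ Polynomial.eval₂ (Subring.center (Ext D s)).subtype x p = 0 := by
  obtain ⟨q, hq, hq0⟩ := hD x.d
  let p := q.map (iota hs)
  have hp : p.Monic := hq.map _
  set y := Polynomial.eval₂ (Subring.center (Ext D s)).subtype x p with hy
  have hyd : y.d = 0 := by
    have h1 : pi y = Polynomial.eval₂ (pi.comp (Subring.center (Ext D s)).subtype) (pi x) p := by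
      rw [hy, Polynomial.hom_eval₂]
    have h2 : Polynomial.eval₂ (pi.comp (Subring.center (Ext D s)).subtype) (pi x) p
        = Polynomial.eval₂ (algebraMap (Subring.center D) D) x.d q := by
      rw [Polynomial.eval₂_map]
      rfl
    have h3 : pi y = y.d := rfl
    rw [← h3, h1, h2, hq0]
  have hyy : y * y = 0 := by
    ext1 <;> simp [hyd]
  refine ⟨p * p, hp.mul hp, ?_⟩
  rw [Polynomial.eval₂_mul_noncomm, ← hy, hyy]
  intro k
  exact (Subring.mem_center_iff.1 (p.coeff k).2 x).symm

/-- The left ideal generated by an element of the bimodule. -/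
def L (s : D →+* D) (u : D) : Submodule (Ext D s) (Ext D s) := Submodule.span _ {⟨0, u⟩}

theorem mem_L (u : D) (y : Ext D s) : y ∈ L s u ↔ ∃ a, y = ⟨0, s a * u⟩ := by
  unfold L
  rw [Submodule.mem_span_singleton]
  constructor
  · rintro ⟨a, rfl⟩
    refine ⟨a.d, ?_⟩
    apply Ext.ext' <;> simp
  · rintro ⟨a, rfl⟩
    refine ⟨⟨a, 0⟩, ?_⟩
    apply Ext.ext' <;> simp

theorem not_left (t : D) (ht : ∀ a, s a ≠ t) :
    ¬ ∀ a b c : Submodule (Ext D s) (Ext D s), a ⊓ (b ⊔ c) = (a ⊓ b) ⊔ (a ⊓ c) := by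
  intro h
  have h1 := h (L s (1 + t)) (L s 1) (L s t)
  have h2 : (⟨0, 1 + t⟩ : Ext D s) ∈ L s (1 + t) ⊓ (L s 1 ⊔ L s t) := by
    refine ⟨(mem_L _ _).2 ⟨1, by simp⟩, ?_⟩
    have : (⟨0, 1 + t⟩ : Ext D s) = ⟨0, 1⟩ + ⟨0, t⟩ := by
      apply Ext.ext' <;> simp
    rw [this]
    exact Submodule.add_mem_sup ((mem_L _ _).2 ⟨1, by simp⟩) ((mem_L _ _).2 ⟨1, by simp⟩)
  have h3 : L s (1 + t) ⊓ L s 1 = ⊥ := by
    rw [eq_bot_iff]
    rintro y ⟨hy1, hy2⟩
    obtain ⟨a, ha⟩ := (mem_L _ _).1 hy1
    obtain ⟨b, hb⟩ := (mem_L _ _).1 hy2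
    have hm : s a * (1 + t) = s b * 1 := congrArg Ext.m (ha.symm.trans hb)
    by_cases ha0 : a = 0
    · rw [Submodule.mem_bot, ha, ha0]
      apply Ext.ext' <;> simp
    · exfalso
      have hsa : s a ≠ 0 := (map_ne_zero s).2 ha0
      apply ht (a⁻¹ * b - 1)
      rw [mul_one] at hm
      rw [map_sub, map_mul, map_inv₀, map_one, ← hm, ← mul_assoc, inv_mul_cancel₀ hsa, one_mul,
        add_sub_cancel_left]
  have h4 : L s (1 + t) ⊓ L s t = ⊥ := by
    rw [eq_bot_iff]
    rintro y ⟨hy1, hy2⟩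
    obtain ⟨a, ha⟩ := (mem_L _ _).1 hy1
    obtain ⟨b, hb⟩ := (mem_L _ _).1 hy2
    have hm : s a * (1 + t) = s b * t := congrArg Ext.m (ha.symm.trans hb)
    have hm2 : s a = s (b - a) * t := by
      rw [map_sub, sub_mul, ← hm, mul_add, mul_one, add_sub_cancel_right]
    by_cases hba : b - a = 0
    · rw [hba, map_zero, zero_mul] at hm2
      rw [Submodule.mem_bot, ha, hm2]
      apply Ext.ext' <;> simp
    · exfalso
      have hsb : s (b - a) ≠ 0 := (map_ne_zero s).2 hba
      apply ht ((b - a)⁻¹ * a)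
      rw [map_mul, map_inv₀, hm2, ← mul_assoc, inv_mul_cancel₀ hsb, one_mul]
  rw [h1, h3, h4, sup_bot_eq, Submodule.mem_bot] at h2
  have h5 : 1 + t = 0 := congrArg Ext.m h2
  apply ht (-1)
  rw [map_neg, map_one]
  exact (eq_neg_of_add_eq_zero_right h5).symm

end Ext

/-- The negation of the preceding statement: For every unital ring R: if the lattice of right ideals is distributive and each element is a root of a monic polynomial with central coefficients, then the lattice of left ideals is distributive. -/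
theorem result :
    ¬ (∀ (R : Type) [Ring R],
      (∀ a b c : Submodule Rᵐᵒᵖ R, a ⊓ (b ⊔ c) = (a ⊓ b) ⊔ (a ⊓ c)) →
      (∀ x : R, ∃ p : Polynomial (Subring.center R),
          p.Monic ∧ Polynomial.eval₂ (Subring.center R).subtype x p = 0) →
      ∀ a b c : Submodule R R, a ⊓ (b ⊔ c) = (a ⊓ b) ⊔ (a ⊓ c)) := by
  intro H
  obtain ⟨D, iD, s, hs, hD, hns⟩ :
      ∃ (D : Type) (_ : DivisionRing D) (s : D →+* D), (∀ z ∈ Subring.center D, s z = z) ∧
        (∀ x : D, IsIntegral (Subring.center D) x) ∧ ¬ Function.Surjective s := by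
    refine ⟨Helper282.KField.K, inferInstance, Helper282.KField.qK.sigma, ?_,
      Helper282.KField.qK.isInt, Helper282.KField.qK.sigma_not_surjective⟩
    intro z hz
    apply Helper282.Quat.QSys.sigma_central
    intro y
    exact (Subring.mem_center_iff.1 hz y).symm
  have h := H (Ext D s) Ext.distrib (Ext.integral hs hD)
  rw [Function.Surjective] at hns
  push Not at hns
  obtain ⟨t, ht⟩ := hns
  exact Ext.not_left t ht h

end Pool.Agent.S00338
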