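import Pool.Statements.S00339
-- import your own Pool.Agent.* helpers here

set_option autoImplicit false
open Pool Pool.MP_14caef_al

namespace Pool.Agent.S00339

section aux

open Finset

/-- vectors of degree d -/
def lev (e d : ℕ) : Finset (Fin e → ℕ) := Finset.piAntidiag Finset.univ d

lemma mem_lev {e d : ℕ} {x : Fin e → ℕ} : x ∈ lev e d ↔ ∑ i, x i = d := by
  simp [lev]

lemma card_lev (e d : ℕ) : (lev e d).card = (e + d - 1).choose d := by
  classical
  unfold lev
  rw [← Finset.map_sym_eq_piAntidiag, Finset.card_map, Finset.sym_univ, Finset.card_univ,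
    Sym.card_sym_eq_choose, Fintype.card_fin]

/-- vectors of degree at most r -/
def ball (e r : ℕ) : Finset (Fin e → ℕ) := (Finset.range (r + 1)).biUnion (lev e)

lemma mem_ball {e r : ℕ} {x : Fin e → ℕ} : x ∈ ball e r ↔ ∑ i, x i ≤ r := by
  simp only [ball, mem_biUnion, mem_range, mem_lev]
  constructor
  · rintro ⟨a, ha, h⟩; omega
  · intro h; exact ⟨_, Nat.lt_succ_of_le h, rfl⟩

lemma ball_succ (e r : ℕ) : ball e (r + 1) = ball e r ∪ lev e (r + 1) := by
  ext x
  simp only [mem_union, mem_ball, mem_lev]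
  omega

lemma disj_ball (e r : ℕ) : Disjoint (ball e r) (lev e (r + 1)) := by
  rw [Finset.disjoint_left]
  intro x hx hy
  rw [mem_ball] at hx
  rw [mem_lev] at hy
  omega

lemma card_ball (e r : ℕ) : (ball e r).card = (e + r).choose r := by
  induction r with
  | zero =>
    have : ball e 0 = {0} := by
      ext x
      simp only [mem_ball, mem_singleton, nonpos_iff_eq_zero, Finset.sum_eq_zero_iff, mem_univ,
        true_implies]
      exact ⟨fun h => funext h, fun h i => by simp [h]⟩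
    simp [this]
  | succ r ih =>
    rw [ball_succ, Finset.card_union_of_disjoint (disj_ball e r), ih, card_lev]
    have : e + (r + 1) - 1 = e + r := by omega
    rw [this, ← add_assoc, Nat.choose_succ_succ]

/-- the weight of the whole simplex -/
lemma weight_ball (f r : ℕ) (hf : 1 ≤ f) :
    ∑ x ∈ ball (f + 1) r, (f : ℝ) / ((∑ i, x i : ℕ) + f) = ((f + r).choose r : ℝ) := by
  have hf' : (0 : ℝ) < f := by exact_mod_cast hf
  induction r with
  | zero =>
    have : ball (f + 1) 0 = {0} := by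
      ext x
      simp only [mem_ball, mem_singleton, nonpos_iff_eq_zero, Finset.sum_eq_zero_iff, mem_univ,
        true_implies]
      exact ⟨fun h => funext h, fun h i => by simp [h]⟩
    simp [this, hf'.ne']
  | succ r ih =>
    rw [ball_succ, Finset.sum_union (disj_ball _ r), ih]
    have h1 : ∑ x ∈ lev (f + 1) (r + 1), (f : ℝ) / ((∑ i, x i : ℕ) + f)
        = ((f + (r + 1)).choose (r + 1) : ℝ) * ((f : ℝ) / ((r + 1 : ℕ) + f)) := by
      rw [Finset.sum_congr rfl (g := fun _ => (f : ℝ) / ((r + 1 : ℕ) + f))]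
      · rw [Finset.sum_const, card_lev, nsmul_eq_mul]
        congr 3
        omega
      · intro x hx
        rw [mem_lev.1 hx]
    rw [h1]
    have h2 : ((f + r + 1 : ℕ) : ℝ) * ((f + r).choose r : ℝ)
        = ((f + r + 1).choose (r + 1) : ℝ) * ((r + 1 : ℕ) : ℝ) := by
      exact_mod_cast Nat.add_one_mul_choose_eq (f + r) r
    have h3 : ((r + 1 : ℕ) : ℝ) + f > 0 := by positivity
    rw [show f + (r + 1) = f + r + 1 by ring]
    push_cast at h2 h3 ⊢
    field_simp
    nlinarith [h2]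

/-- the key inequality for lower sets -/
lemma antichain_le (f : ℕ) (hf : 1 ≤ f) (M A : Finset (Fin (f + 1) → ℕ))
    (hM : ∀ x ∈ M, ∀ y, y ≤ x → y ∈ M) (hAM : A ⊆ M)
    (hA : ∀ a ∈ A, ∀ i, a + Pi.single i 1 ∉ M) :
    (A.card : ℝ) ≤ ∑ x ∈ M, (f : ℝ) / ((∑ i, x i : ℕ) + f) := by
  classical
  have hf' : (0 : ℝ) < f := by exact_mod_cast hf
  have key : ∑ x ∈ M, ((∑ i, x i : ℕ) : ℝ) / ((∑ i, x i : ℕ) + f) ≤ ((M \ A).card : ℝ) := by
    have e1 : ∀ x ∈ M, ((∑ i, x i : ℕ) : ℝ) / ((∑ i, x i : ℕ) + f)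
        = ∑ i, ((x i : ℕ) : ℝ) / ((∑ i, x i : ℕ) + f) := by
      intro x _
      rw [← Finset.sum_div]
      push_cast
      rfl
    rw [Finset.sum_congr rfl e1, Finset.sum_comm]
    have e2 : ∀ i ∈ (Finset.univ : Finset (Fin (f + 1))),
        ∑ x ∈ M, ((x i : ℕ) : ℝ) / ((∑ i, x i : ℕ) + f)
          ≤ ∑ y ∈ M \ A, (((y i : ℕ) : ℝ) + 1) / ((∑ i, y i : ℕ) + 1 + f) := by
      intro i _
      set g : (Fin (f + 1) → ℕ) → ℝ := fun x => ((x i : ℕ) : ℝ) / ((∑ i, x i : ℕ) + f) with hg
      have e3 : ∑ y ∈ M \ A, (((y i : ℕ) : ℝ) + 1) / ((∑ i, y i : ℕ) + 1 + f)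
          = ∑ x ∈ (M \ A).map (addRightEmbedding (Pi.single i 1)), g x := by
        rw [Finset.sum_map]
        apply Finset.sum_congr rfl
        intro y _
        simp only [hg, addRightEmbedding_apply, Pi.add_apply, Pi.single_eq_same]
        have : ∑ j, (y j + (Pi.single i 1 : Fin (f + 1) → ℕ) j) = (∑ j, y j) + 1 := by
          rw [Finset.sum_add_distrib]
          congr 1
          simp [Finset.sum_pi_single']
        rw [this]
        push_cast
        rfl
      rw [e3]
      have e4 : ∑ x ∈ M, g x = ∑ x ∈ M.filter (fun x => x i ≠ 0), g x := by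
        rw [Finset.sum_filter]
        apply Finset.sum_congr rfl
        intro x _
        split_ifs with h
        · rfl
        · simp only [not_not] at h
          simp [hg, h]
      rw [e4]
      apply Finset.sum_le_sum_of_subset_of_nonneg
      · intro x hx
        simp only [mem_filter] at hx
        simp only [mem_map, addRightEmbedding_apply, mem_sdiff]
        have hle : (Pi.single i 1 : Fin (f + 1) → ℕ) ≤ x := by
          intro j
          by_cases hj : j = i
          · subst hj; simp; omega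
          · simp [hj]
        refine ⟨x - Pi.single i 1, ⟨hM x hx.1 _ (by intro j; simp), ?_⟩, ?_⟩
        · intro hxA
          apply hA _ hxA i
          rw [tsub_add_cancel_of_le hle]
          exact hx.1
        · exact tsub_add_cancel_of_le hle
      · intro x _ _
        positivity
    refine (Finset.sum_le_sum e2).trans ?_
    rw [Finset.sum_comm]
    have e5 : ∀ y ∈ M \ A, ∑ i, (((y i : ℕ) : ℝ) + 1) / ((∑ i, y i : ℕ) + 1 + f) = 1 := by
      intro y _
      rw [← Finset.sum_div, Finset.sum_add_distrib]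
      simp only [sum_const, card_univ, Fintype.card_fin, nsmul_eq_mul]
      have : ((∑ i, y i : ℕ) : ℝ) + 1 + f > 0 := by positivity
      rw [div_eq_one_iff_eq (ne_of_gt this)]
      push_cast
      ring
    rw [Finset.sum_congr rfl e5]
    simp
  have h1 : ∑ x ∈ M, (f : ℝ) / ((∑ i, x i : ℕ) + f)
      = (M.card : ℝ) - ∑ x ∈ M, ((∑ i, x i : ℕ) : ℝ) / ((∑ i, x i : ℕ) + f) := by
    rw [eq_sub_iff_add_eq, ← Finset.sum_add_distrib]
    rw [Finset.sum_congr rfl (g := fun _ => (1 : ℝ))]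
    · simp
    · intro x _
      have : ((∑ i, x i : ℕ) : ℝ) + f > 0 := by positivity
      rw [← add_div, div_eq_one_iff_eq (ne_of_gt this)]
      ring
  have h2 : ((M \ A).card : ℝ) = (M.card : ℝ) - A.card := by
    rw [Finset.cast_card_sdiff hAM]
  rw [h1]
  linarith

/-- stability: a lower set with many maximal points and few points contains a large simplex -/
lemma stability (f : ℕ) (hf : 1 ≤ f) (M A : Finset (Fin (f + 1) → ℕ))
    (hM : ∀ x ∈ M, ∀ y, y ≤ x → y ∈ M) (hAM : A ⊆ M)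
    (hA : ∀ a ∈ A, ∀ i, a + Pi.single i 1 ∉ M) (r b : ℕ)
    (hcard : M.card ≤ (f + 1 + r).choose r)
    (p : Fin (f + 1) → ℕ) (hp : p ∉ M) (hpr : ∑ i, p i + 2 * b ≤ r) :
    (A.card : ℝ) ≤ ((f + r).choose r : ℝ)
      - ((f + 1 + b).choose b : ℝ) * ((f : ℝ) / ((r - b : ℕ) + f) - (f : ℝ) / (r + f)) := by
  classical
  have hf' : (0 : ℝ) < f := by exact_mod_cast hf
  have h0 := antichain_le f hf M A hM hAM hA
  set w : (Fin (f + 1) → ℕ) → ℝ := fun x => (f : ℝ) / ((∑ i, x i : ℕ) + f) with hw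
  set wr : ℝ := (f : ℝ) / (r + f) with hwr
  set D := ball (f + 1) r with hD
  have hwr0 : 0 ≤ wr := by positivity
  have hin : ∀ x ∈ D, wr ≤ w x := by
    intro x hx
    rw [hD, mem_ball] at hx
    simp only [hw, hwr]
    apply div_le_div_of_nonneg_left hf'.le (by positivity)
    have : ((∑ i, x i : ℕ) : ℝ) ≤ r := by exact_mod_cast hx
    linarith
  have hout : ∀ x, x ∉ D → w x ≤ wr := by
    intro x hx
    rw [hD, mem_ball, not_le] at hx
    simp only [hw, hwr]
    apply div_le_div_of_nonneg_left hf'.le (by positivity)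
    have : (r : ℝ) ≤ ((∑ i, x i : ℕ) : ℝ) := by exact_mod_cast hx.le
    linarith
  have s1 : ∑ x ∈ M, w x = ∑ x ∈ M, (w x - wr) + wr * M.card := by
    rw [Finset.sum_sub_distrib]
    simp
    ring
  have s2 : ∑ x ∈ M, (w x - wr) ≤ ∑ x ∈ M ∩ D, (w x - wr) := by
    rw [← Finset.sum_inter_add_sum_sdiff M D (fun x => w x - wr)]
    have : ∑ x ∈ M \ D, (w x - wr) ≤ 0 := by
      apply Finset.sum_nonpos
      intro x hx
      have := hout x (Finset.mem_sdiff.1 hx).2
      linarith
    linarith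
  have s3 : ∑ x ∈ M ∩ D, (w x - wr) = ∑ x ∈ D, (w x - wr) - ∑ x ∈ D \ M, (w x - wr) := by
    rw [← Finset.sum_inter_add_sum_sdiff D M (fun x => w x - wr), Finset.inter_comm]
    ring
  have s4 : ∑ x ∈ D, (w x - wr) = ((f + r).choose r : ℝ) - wr * D.card := by
    rw [Finset.sum_sub_distrib]
    have := weight_ball f r hf
    simp only [hw, hD]
    rw [this]
    simp
    ring
  have hDcard : (M.card : ℝ) ≤ D.card := by
    rw [hD, card_ball]
    exact_mod_cast hcard
  have s5 : ((f + 1 + b).choose b : ℝ) * ((f : ℝ) / ((r - b : ℕ) + f) - (f : ℝ) / (r + f))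
      ≤ ∑ x ∈ D \ M, (w x - wr) := by
    have hsub : (ball (f + 1) b).map (addLeftEmbedding p) ⊆ D \ M := by
      intro x hx
      simp only [mem_map, addLeftEmbedding_apply, mem_ball] at hx
      obtain ⟨z, hz, rfl⟩ := hx
      rw [mem_sdiff, hD, mem_ball]
      refine ⟨?_, ?_⟩
      · simp only [Pi.add_apply, Finset.sum_add_distrib]
        omega
      · intro h
        exact hp (hM _ h p (by intro i; simp))
    have h1 : ∑ x ∈ (ball (f + 1) b).map (addLeftEmbedding p), (w x - wr)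
        ≤ ∑ x ∈ D \ M, (w x - wr) := by
      apply Finset.sum_le_sum_of_subset_of_nonneg hsub
      intro x hx _
      have := hin x (Finset.mem_sdiff.1 hx).1
      linarith
    refine le_trans ?_ h1
    rw [Finset.sum_map]
    have h2 : ∑ z ∈ ball (f + 1) b, ((f : ℝ) / ((r - b : ℕ) + f) - (f : ℝ) / (r + f))
        ≤ ∑ z ∈ ball (f + 1) b, (w (addLeftEmbedding p z) - wr) := by
      apply Finset.sum_le_sum
      intro z hz
      rw [mem_ball] at hz
      have h3 : (f : ℝ) / ((r - b : ℕ) + f) ≤ w (addLeftEmbedding p z) := by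
        simp only [hw, addLeftEmbedding_apply, Pi.add_apply, Finset.sum_add_distrib]
        apply div_le_div_of_nonneg_left hf'.le (by positivity)
        have h4 : ∑ i, p i + ∑ i, z i ≤ r - b := by omega
        have h5 : ((∑ i, p i + ∑ i, z i : ℕ) : ℝ) ≤ ((r - b : ℕ) : ℝ) := by exact_mod_cast h4
        linarith
      simp only [hwr]
      linarith
    rw [Finset.sum_const, card_ball, nsmul_eq_mul] at h2
    exact h2
  have s6 : wr * M.card ≤ wr * D.card := mul_le_mul_of_nonneg_left hDcard hwr0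
  linarith

/-- packing: a large simplex on which the map is injective modulo m forces m to be large -/
lemma packing (e : ℕ) (he : 2 ≤ e) (g : Fin e → ℕ) (m κ : ℕ) (hm : m ≠ 0)
    (hinj : ∀ x y : Fin e → ℕ, ∑ i, x i ≤ 2 * κ + 2 * e + 2 → ∑ i, y i ≤ 2 * κ + 2 * e + 2 →
      (∑ i, x i * g i) ≡ (∑ i, y i * g i) [MOD m] → x = y) :
    (2 ^ e + 1) * (e + κ).choose κ ≤ m := by
  classical
  let i0 : Fin e := ⟨0, by omega⟩
  let i1 : Fin e := ⟨1, by omega⟩
  have h01 : i1 ≠ i0 := by simp [i0, i1, Fin.ext_iff]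
  let Ψ : Option (Fin e → Bool) × (ball e κ) → (Fin e → ℤ) := fun q =>
    match q with
    | (some s, u) => fun i => if s i then (u.1 i : ℤ) + 1 else - (u.1 i : ℤ)
    | (none, v) => fun i => if i = i0 then (κ : ℤ) + 2 - v.1 i0 else
        if i = i1 then - ((v.1 i0 : ℤ) + v.1 i1 + 1) else - (v.1 i : ℤ)
  have hv01 : ∀ v : ball e κ, v.1 i0 + v.1 i1 ≤ κ := by
    intro v
    have h1 := mem_ball.1 v.2
    have h2 : ∑ i ∈ ({i0, i1} : Finset (Fin e)), v.1 i ≤ ∑ i, v.1 i :=
      Finset.sum_le_sum_of_subset (Finset.subset_univ _)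
    rw [Finset.sum_pair h01.symm] at h2
    omega
  -- degree bounds
  have hpos : ∀ q, ∑ i, (Ψ q i).toNat ≤ κ + 1 + e := by
    rintro ⟨s | s, u⟩
    · -- none
      have h1 : ∑ i, (Ψ (none, u) i).toNat ≤ ∑ i, (if i = i0 then κ + 2 else 0) := by
        apply Finset.sum_le_sum
        intro i _
        simp only [Ψ]
        by_cases hi : i = i0
        · simp only [hi, if_true]; omega
        · by_cases hi1 : i = i1
          · simp only [hi, hi1, h01, if_true, if_false]; omega
          · simp only [hi, hi1, if_false]; omega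
      rw [Finset.sum_ite_eq' Finset.univ i0] at h1
      simp only [mem_univ, if_true] at h1
      omega
    · have h1 : ∑ i, (Ψ (some s, u) i).toNat ≤ ∑ i, (u.1 i + 1) := by
        apply Finset.sum_le_sum
        intro i _
        simp only [Ψ]
        split_ifs <;> omega
      rw [Finset.sum_add_distrib] at h1
      have h2 := mem_ball.1 u.2
      simp only [sum_const, card_univ, Fintype.card_fin, smul_eq_mul, mul_one] at h1
      omega
  have hneg : ∀ q, ∑ i, (- Ψ q i).toNat ≤ κ + 1 + e := by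
    rintro ⟨s | s, u⟩
    · have h1 : ∑ i, ((- Ψ (none, u) i).toNat + if i = i0 then u.1 i0 else 0)
          ≤ ∑ i, (u.1 i + if i = i1 then (u.1 i0 + 1) else 0) := by
        apply Finset.sum_le_sum
        intro i _
        simp only [Ψ]
        have := hv01 u
        by_cases hi : i = i0
        · simp only [hi, if_true]; omega
        · by_cases hi1 : i = i1
          · simp only [hi1, h01, if_true, if_false]; omega
          · simp only [hi, hi1, if_false]; omega
      rw [Finset.sum_add_distrib, Finset.sum_add_distrib, Finset.sum_ite_eq' Finset.univ i1,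
        Finset.sum_ite_eq' Finset.univ i0] at h1
      simp only [mem_univ, if_true] at h1
      have h2 := mem_ball.1 u.2
      omega
    · have h1 : ∑ i, (- Ψ (some s, u) i).toNat ≤ ∑ i, u.1 i := by
        apply Finset.sum_le_sum
        intro i _
        simp only [Ψ]
        split_ifs <;> omega
      have h2 := mem_ball.1 u.2
      omega
  -- injectivity of the family
  have hΨ : Function.Injective Ψ := by
    rintro ⟨s | s, u⟩ ⟨s' | s', u'⟩ h
    · have h' : ∀ i, Ψ (none, u) i = Ψ (none, u') i := fun i => congrFun h i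
      simp only [Ψ] at h'
      have e0 := h' i0
      have e1 := h' i1
      simp only [h01, if_true, if_false] at e0 e1
      have : u = u' := by
        apply Subtype.ext
        funext i
        by_cases hi : i = i0
        · subst hi; omega
        · by_cases hi1 : i = i1
          · subst hi1; omega
          · have := h' i
            simp only [hi, hi1, if_false] at this
            omega
      rw [this]
    · exfalso
      have h' : ∀ i, Ψ (none, u) i = Ψ (some s', u') i := fun i => congrFun h i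
      simp only [Ψ] at h'
      have e0 := h' i0
      have e1 := h' i1
      have b1 := hv01 u
      have b2 := hv01 u'
      simp only [h01, if_true, if_false] at e0 e1
      split_ifs at e0 e1 <;> omega
    · exfalso
      have h' : ∀ i, Ψ (some s, u) i = Ψ (none, u') i := fun i => congrFun h i
      simp only [Ψ] at h'
      have e0 := h' i0
      have e1 := h' i1
      have b1 := hv01 u
      have b2 := hv01 u'
      simp only [h01, if_true, if_false] at e0 e1
      split_ifs at e0 e1 <;> omega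
    · have h' : ∀ i, Ψ (some s, u) i = Ψ (some s', u') i := fun i => congrFun h i
      simp only [Ψ] at h'
      have hs : s = s' := by
        funext i
        have := h' i
        cases hsi : s i <;> cases hsi' : s' i <;> simp [hsi, hsi'] at this ⊢ <;> omega
      subst hs
      have : u = u' := by
        apply Subtype.ext
        funext i
        have := h' i
        split_ifs at this <;> omega
      rw [this]
  have : NeZero m := ⟨hm⟩
  let F : Option (Fin e → Bool) × (ball e κ) → ZMod m := fun q => ((∑ i, Ψ q i * (g i : ℤ) : ℤ) : ZMod m)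
  have hF : Function.Injective F := by
    intro q q' hq
    apply hΨ
    have hq1 : (∑ i, Ψ q i * (g i : ℤ)) ≡ (∑ i, Ψ q' i * (g i : ℤ)) [ZMOD m] := by
      rwa [← ZMod.intCast_eq_intCast_iff]
    set z : Fin e → ℤ := fun i => Ψ q i - Ψ q' i with hz
    have hzp : ∑ i, (z i).toNat ≤ 2 * κ + 2 * e + 2 := by
      have h1 : ∑ i, (z i).toNat ≤ ∑ i, ((Ψ q i).toNat + (- Ψ q' i).toNat) := by
        apply Finset.sum_le_sum
        intro i _
        simp only [hz]
        omega
      rw [Finset.sum_add_distrib] at h1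
      have := hpos q
      have := hneg q'
      omega
    have hzn : ∑ i, (- z i).toNat ≤ 2 * κ + 2 * e + 2 := by
      have h1 : ∑ i, (- z i).toNat ≤ ∑ i, ((Ψ q' i).toNat + (- Ψ q i).toNat) := by
        apply Finset.sum_le_sum
        intro i _
        simp only [hz]
        omega
      rw [Finset.sum_add_distrib] at h1
      have := hpos q'
      have := hneg q
      omega
    have hmod : (∑ i, (z i).toNat * g i) ≡ (∑ i, (- z i).toNat * g i) [MOD m] := by
      rw [← Int.natCast_modEq_iff]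
      have h2 : (∑ i, (z i) * (g i : ℤ)) ≡ 0 [ZMOD m] := by
        have : (∑ i, (z i) * (g i : ℤ)) = (∑ i, Ψ q i * (g i : ℤ)) - ∑ i, Ψ q' i * (g i : ℤ) := by
          rw [← Finset.sum_sub_distrib]
          apply Finset.sum_congr rfl
          intro i _
          simp only [hz]
          ring
        rw [this]
        have := Int.ModEq.sub_right (∑ i, Ψ q' i * (g i : ℤ)) hq1
        simpa using this
      have h3 : ((∑ i, (z i).toNat * g i : ℕ) : ℤ)
          = (∑ i, (z i) * (g i : ℤ)) + ((∑ i, (- z i).toNat * g i : ℕ) : ℤ) := by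
        push_cast
        rw [← Finset.sum_add_distrib]
        apply Finset.sum_congr rfl
        intro i _
        rw [← add_mul]
        congr 1
        omega
      rw [h3]
      have := Int.ModEq.add_right (((∑ i, (- z i).toNat * g i : ℕ) : ℤ)) h2
      simpa using this
    have heq := hinj _ _ hzp hzn hmod
    funext i
    have := congrFun heq i
    simp only [hz] at this
    omega
  have hc := Fintype.card_le_of_injective F hF
  rw [ZMod.card, Fintype.card_prod, Fintype.card_option, Fintype.card_fun, Fintype.card_bool,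
    Fintype.card_fin, Fintype.card_coe, card_ball] at hc
  exact hc

lemma numeric (e : ℕ) (he : 2 ≤ e) : ∃ R : ℕ, ∀ r : ℕ, R ≤ r → ∃ b κ : ℕ,
    2 * κ + 2 * e + 2 + 2 * b ≤ r ∧
    (e : ℝ) * ((r : ℝ) + e) ^ e < b * ((b : ℝ) + 1) ^ e ∧
    ((r : ℝ) + e) ^ e ≤ (2 ^ e + 1) * ((κ : ℝ) + 1) ^ e := by
  set N : ℕ := 4 * e * (2 ^ e + 1) with hN
  have hNpos : 0 < N := by positivity
  have hN4 : 16 ≤ N := by
    have : 1 ≤ 2 ^ e := Nat.one_le_two_pow
    nlinarith
  have hNR : (0 : ℝ) < N := by exact_mod_cast hNpos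
  have hN4R : (16 : ℝ) ≤ N := by exact_mod_cast hN4
  have heR : (2 : ℝ) ≤ e := by exact_mod_cast he
  refine ⟨N * (2 * e + 3 + 2 * (e * (4 * N) ^ e + 2)), fun r hr => ⟨r / N, (r - 2 * (r / N) - 2 * e - 2) / 2, ?_, ?_, ?_⟩⟩
  · have h1 : r / N ≤ r / 16 := Nat.div_le_div_left hN4 (by norm_num)
    have h2 : N * (2 * e + 3) ≤ r := le_trans (Nat.mul_le_mul_left _ (by omega)) hr
    have h3 : 16 * (2 * e + 3) ≤ r := le_trans (Nat.mul_le_mul_right _ hN4) h2
    omega
  · set b := r / N with hb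
    have hbN : (r : ℝ) < N * (b + 1) := by
      have := Nat.lt_mul_div_succ r hNpos
      exact_mod_cast this
    have hb2 : 2 * e + 3 + 2 * (e * (4 * N) ^ e + 2) ≤ b := by
      rw [hb, Nat.le_div_iff_mul_le hNpos, mul_comm]
      exact hr
    have hb3 : (2 : ℝ) * e + 3 + 2 * (e * (4 * N) ^ e + 2) ≤ b := by exact_mod_cast hb2
    have hpp : (0 : ℝ) ≤ (e : ℝ) * (4 * N) ^ e := by positivity
    have h1 : (r : ℝ) + e ≤ 2 * N * (b + 1) := by nlinarith
    have h2 : ((r : ℝ) + e) ^ e ≤ (2 * N * (b + 1)) ^ e := pow_le_pow_left₀ (by positivity) h1 e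
    have h3 : (2 * (N : ℝ) * (b + 1)) ^ e ≤ (4 * N) ^ e * ((b : ℝ) + 1) ^ e := by
      rw [← mul_pow]
      apply pow_le_pow_left₀ (by positivity)
      nlinarith
    have h4 : (e : ℝ) * ((r : ℝ) + e) ^ e ≤ (e * (4 * N) ^ e) * ((b : ℝ) + 1) ^ e := by
      have := mul_le_mul_of_nonneg_left (h2.trans h3) (show (0 : ℝ) ≤ e by positivity)
      linarith
    have h5 : (0 : ℝ) < ((b : ℝ) + 1) ^ e := by positivity
    have h6 : (e * (4 * N) ^ e) < (b : ℝ) := by nlinarith
    nlinarith
  · set b := r / N with hb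
    set κ := (r - 2 * b - 2 * e - 2) / 2 with hκ
    have hbN : (N : ℝ) * b ≤ r := by
      have := Nat.mul_div_le r N
      exact_mod_cast this
    have hr1 : (N : ℝ) * (2 * e + 3) ≤ r := by
      have : N * (2 * e + 3) ≤ r := le_trans (Nat.mul_le_mul_left _ (by omega)) hr
      exact_mod_cast this
    have hk : r ≤ 2 * (κ + 1) + 2 * b + 2 * e + 1 := by omega
    have hkR : (r : ℝ) ≤ 2 * (κ + 1) + 2 * b + 2 * e + 1 := by exact_mod_cast hk
    have hrpos : (0 : ℝ) < r := by nlinarith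
    -- X = 2(κ+1) ≥ (r+e)(1 - 4/(N+1))
    have hX : ((r : ℝ) + e) * (1 - 4 / (N + 1)) ≤ 2 * (κ + 1) := by
      have h0 : (0 : ℝ) < (N : ℝ) + 1 := by positivity
      have h1 : (1 : ℝ) - 4 / (N + 1) = (N - 3) / (N + 1) := by field_simp; ring
      rw [h1, ← mul_div_assoc, div_le_iff₀ h0]
      nlinarith
    have hq : (0 : ℝ) ≤ 1 - 4 / (N + 1) := by
      have h0 : (0 : ℝ) < (N : ℝ) + 1 := by positivity
      rw [sub_nonneg, div_le_one h0]
      linarith
    have h1 : (((r : ℝ) + e) * (1 - 4 / (N + 1))) ^ e ≤ (2 * (κ + 1)) ^ e :=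
      pow_le_pow_left₀ (by positivity) hX e
    have h2 : 1 + (e : ℝ) * (- (4 / (N + 1))) ≤ (1 + (- (4 / ((N : ℝ) + 1)))) ^ e := by
      apply one_add_mul_le_pow
      have h0 : (0 : ℝ) < (N : ℝ) + 1 := by positivity
      have : (4 : ℝ) / (N + 1) ≤ 2 := by rw [div_le_iff₀ h0]; linarith
      linarith
    have h3 : (1 : ℝ) - 1 / (2 ^ e + 1) ≤ (1 - 4 / (N + 1)) ^ e := by
      have h4 : (1 : ℝ) - 1 / (2 ^ e + 1) ≤ 1 + (e : ℝ) * (- (4 / (N + 1))) := by
        have h0 : (0 : ℝ) < (N : ℝ) + 1 := by positivity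
        have h5 : (e : ℝ) * (4 / (N + 1)) ≤ 1 / (2 ^ e + 1) := by
          rw [← mul_div_assoc, div_le_div_iff₀ h0 (by positivity)]
          have : (N : ℝ) = 4 * e * (2 ^ e + 1) := by rw [hN]; push_cast; ring
          rw [this]
          linarith
        linarith
      have : (1 : ℝ) - 4 / (N + 1) = 1 + (- (4 / ((N : ℝ) + 1))) := by ring
      rw [this]
      linarith
    have h4 : (1 : ℝ) - 1 / (2 ^ e + 1) = 2 ^ e / (2 ^ e + 1) := by
      have : (0 : ℝ) < 2 ^ e + 1 := by positivity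
      field_simp
      ring
    rw [mul_pow, mul_pow] at h1
    rw [h4] at h3
    have h5 : ((r : ℝ) + e) ^ e * (2 ^ e / (2 ^ e + 1)) ≤ 2 ^ e * ((κ : ℝ) + 1) ^ e :=
      le_trans (mul_le_mul_of_nonneg_left h3 (by positivity)) h1
    have h6 : (0 : ℝ) < 2 ^ e := by positivity
    have h7 : (0 : ℝ) < 2 ^ e + 1 := by positivity
    rw [← mul_div_assoc, div_le_iff₀ h7] at h5
    have h8 : 2 ^ e * ((r : ℝ) + e) ^ e ≤ 2 ^ e * ((2 ^ e + 1) * ((κ : ℝ) + 1) ^ e) := by linarith
    exact le_of_mul_le_mul_left h8 h6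

/-- generation by minimal generators: every element is c*m + combination of the others -/
lemma gen (S : AddSubmonoid ℕ) (m e : ℕ) (g : Fin e → ℕ)
    (hg : ∀ x ∈ S, x ≠ 0 → (¬ ∃ a ∈ S, ∃ b ∈ S, a ≠ 0 ∧ b ≠ 0 ∧ a + b = x) → x = m ∨ ∃ i, g i = x) :
    ∀ s ∈ S, ∃ (c : ℕ) (a : Fin e → ℕ), s = c * m + ∑ i, a i * g i := by
  intro s
  induction s using Nat.strong_induction_on with
  | _ s ih =>
    intro hs
    by_cases h0 : s = 0
    · exact ⟨0, 0, by simp [h0]⟩
    by_cases h1 : ∃ a ∈ S, ∃ b ∈ S, a ≠ 0 ∧ b ≠ 0 ∧ a + b = s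
    · obtain ⟨a, ha, b, hb, ha0, hb0, hab⟩ := h1
      obtain ⟨c1, a1, h1⟩ := ih a (by omega) ha
      obtain ⟨c2, a2, h2⟩ := ih b (by omega) hb
      refine ⟨c1 + c2, a1 + a2, ?_⟩
      simp only [Pi.add_apply, add_mul, Finset.sum_add_distrib]
      omega
    · rcases hg s hs h0 h1 with h | ⟨i, hi⟩
      · exact ⟨1, 0, by simp [h]⟩
      · exact ⟨0, Pi.single i 1, by simp [hi, Pi.single_apply]⟩

/-- The set of normal forms of the Apery set. -/
lemma normal_forms (S : AddSubmonoid ℕ) (m e : ℕ) (hmS : m ∈ S) (hm0 : m ≠ 0)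
    (hmin : ∀ x ∈ S, x ≠ 0 → m ≤ x)
    (hcard : {x : ℕ | x ∈ S ∧ x ≠ 0 ∧ ¬ ∃ a ∈ S, ∃ b ∈ S, a ≠ 0 ∧ b ≠ 0 ∧ a + b = x}.ncard = e + 1) :
    ∃ (g : Fin e → ℕ) (M A : Finset (Fin e → ℕ)),
      (∀ x ∈ M, ∀ y, y ≤ x → y ∈ M) ∧ A ⊆ M ∧ (∀ a ∈ A, ∀ i, a + Pi.single i 1 ∉ M) ∧
      M.card ≤ m ∧
      {x : ℕ | x ∉ S ∧ ∀ s ∈ S, s ≠ 0 → x + s ∈ S}.ncard ≤ A.card ∧
      (∀ x ∈ M, ∀ y ∈ M, (∑ i, x i * g i) ≡ (∑ i, y i * g i) [MOD m] → x = y) := by
  classical
  set G : Set ℕ := {x : ℕ | x ∈ S ∧ x ≠ 0 ∧ ¬ ∃ a ∈ S, ∃ b ∈ S, a ≠ 0 ∧ b ≠ 0 ∧ a + b = x} with hG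
  have hGfin : G.Finite := Set.finite_of_ncard_ne_zero (by omega)
  have hmG : m ∈ G := by
    refine ⟨hmS, hm0, ?_⟩
    rintro ⟨a, ha, b, hb, ha0, hb0, hab⟩
    have := hmin a ha ha0
    have := hmin b hb hb0
    omega
  set G' : Finset ℕ := hGfin.toFinset.erase m with hG'
  have hG'card : G'.card = e := by
    rw [hG', Finset.card_erase_of_mem (by simpa using hmG), ← Set.ncard_eq_toFinset_card G hGfin, hcard]
    rfl
  let eqv : Fin e ≃ G' := (finCongr hG'card.symm).trans G'.equivFin.symm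
  let g : Fin e → ℕ := fun i => (eqv i : ℕ)
  have hgS : ∀ i, g i ∈ S ∧ g i ≠ 0 := by
    intro i
    have h1 : g i ∈ G' := (eqv i).2
    rw [hG', Finset.mem_erase, Set.Finite.mem_toFinset] at h1
    exact ⟨h1.2.1, h1.2.2.1⟩
  have hgen := gen S m e g (by
    intro x hx hx0 hx1
    by_cases hxm : x = m
    · exact Or.inl hxm
    · right
      have : x ∈ G' := by
        rw [hG', Finset.mem_erase, Set.Finite.mem_toFinset]
        exact ⟨hxm, hx, hx0, hx1⟩
      exact ⟨eqv.symm ⟨x, this⟩, by simp [g]⟩)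
  set φ : (Fin e → ℕ) → ℕ := fun a => ∑ i, a i * g i with hφ
  have hφadd : ∀ a b, φ (a + b) = φ a + φ b := by
    intro a b
    simp only [hφ, Pi.add_apply, add_mul, Finset.sum_add_distrib]
  have hφS : ∀ a, φ a ∈ S := by
    intro a
    apply AddSubmonoid.sum_mem
    intro i _
    rw [← smul_eq_mul]
    exact AddSubmonoid.nsmul_mem S (hgS i).1 _
  have hφsingle : ∀ i, φ (Pi.single i 1) = g i := by
    intro i
    simp [hφ, Pi.single_apply]
  -- Apery elements
  let W : ℕ → Prop := fun w => w ∈ S ∧ ∀ s ∈ S, w ≠ s + m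
  have hWrep : ∀ w, W w → ∃ a, φ a = w := by
    rintro w ⟨hw, hw2⟩
    obtain ⟨c, a, h⟩ := hgen w hw
    rcases Nat.eq_zero_or_pos c with hc | hc
    · exact ⟨a, by rw [h, hc]; simp [hφ]⟩
    · exfalso
      obtain ⟨c', rfl⟩ : ∃ c', c = c' + 1 := ⟨c - 1, by omega⟩
      apply hw2 (c' * m + φ a)
      · apply S.add_mem _ (hφS a)
        rw [← smul_eq_mul]
        exact AddSubmonoid.nsmul_mem S hmS _
      · rw [h]
        simp only [hφ]
        ring
  let Mset : Set (Fin e → ℕ) := {a | W (φ a) ∧ ∀ b, φ b = φ a → toLex a ≤ toLex b}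
  have hinj : ∀ x ∈ Mset, ∀ y ∈ Mset, φ x ≡ φ y [MOD m] → x = y := by
    have haux : ∀ x ∈ Mset, ∀ y ∈ Mset, φ x ≡ φ y [MOD m] → φ x ≤ φ y → x = y := by
      intro x hx y hy hxy hle
      have h1 : m ∣ φ y - φ x := (Nat.modEq_iff_dvd' hle).1 hxy
      obtain ⟨k, hk⟩ := h1
      have hk0 : k = 0 := by
        by_contra hk0
        obtain ⟨k', rfl⟩ : ∃ c', k = c' + 1 := ⟨k - 1, by omega⟩
        apply hy.1.2 (k' * m + φ x)
        · apply S.add_mem _ (hφS x)
          rw [← smul_eq_mul]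
          exact AddSubmonoid.nsmul_mem S hmS _
        · have : m * (k' + 1) = k' * m + m := by ring
          omega
      subst hk0
      have heq : φ x = φ y := by omega
      have h2 := hx.2 y heq.symm
      have h3 := hy.2 x heq
      exact toLex.injective (le_antisymm h2 h3)
    intro x hx y hy hxy
    rcases le_total (φ x) (φ y) with h | h
    · exact haux x hx y hy hxy h
    · exact (haux y hy x hx hxy.symm h).symm
  have hMfin : Mset.Finite := by
    apply Set.Finite.of_injOn (f := fun a => φ a % m) (t := Set.Iio m)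
    · intro x _
      exact Nat.mod_lt _ (Nat.pos_of_ne_zero hm0)
    · intro x hx y hy hxy
      exact hinj x hx y hy hxy
    · exact Set.finite_Iio m
  have hnf : ∀ w, W w → ∃ a ∈ Mset, φ a = w := by
    intro w hw
    have hne : {a : Lex (Fin e → ℕ) | φ (ofLex a) = w}.Nonempty := by
      obtain ⟨a, ha⟩ := hWrep w hw
      exact ⟨toLex a, ha⟩
    have hwf : WellFounded (fun a b : Lex (Fin e → ℕ) => a < b) := wellFounded_lt
    refine ⟨ofLex (hwf.min _ hne), ⟨?_, ?_⟩, hwf.min_mem _ hne⟩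
    · have : φ (ofLex (hwf.min _ hne)) = w := hwf.min_mem _ hne
      rw [this]; exact hw
    · intro b hb
      have h1 : φ (ofLex (hwf.min _ hne)) = w := hwf.min_mem _ hne
      have h2 : toLex b ∈ {a : Lex (Fin e → ℕ) | φ (ofLex a) = w} := by
        show φ b = w
        rw [hb, h1]
      have h3 := hwf.not_lt_min _ h2
      exact not_lt.1 h3
  refine ⟨g, hMfin.toFinset, hMfin.toFinset.filter (fun a => ∃ x, (x ∉ S ∧ ∀ s ∈ S, s ≠ 0 → x + s ∈ S) ∧ φ a = x + m), ?_, Finset.filter_subset _ _, ?_, ?_, ?_, ?_⟩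
  · intro x hx y hyx
    rw [Set.Finite.mem_toFinset] at hx ⊢
    obtain ⟨c, rfl⟩ : ∃ c, x = y + c := ⟨x - y, (add_tsub_cancel_of_le hyx).symm⟩
    refine ⟨⟨hφS y, ?_⟩, ?_⟩
    · intro s hs h
      apply hx.1.2 (s + φ c) (S.add_mem hs (hφS c))
      rw [hφadd, h]
      ring
    · intro b hb
      have h1 := hx.2 (b + c) (by rw [hφadd, hφadd, hb])
      rw [toLex_add, toLex_add] at h1
      exact le_of_add_le_add_right h1
  · intro a ha i hi
    rw [Finset.mem_filter] at ha
    obtain ⟨_, x, ⟨_, hx⟩, hax⟩ := ha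
    rw [Set.Finite.mem_toFinset] at hi
    apply hi.1.2 (x + g i) (hx _ (hgS i).1 (hgS i).2)
    rw [hφadd, hφsingle, hax]
    ring
  · have h1 : (hMfin.toFinset.image (fun a => φ a % m)).card = hMfin.toFinset.card := by
      apply Finset.card_image_of_injOn
      intro x hx y hy hxy
      rw [Finset.mem_coe, Set.Finite.mem_toFinset] at hx hy
      exact hinj x hx y hy hxy
    rw [← h1]
    have h2 : hMfin.toFinset.image (fun a => φ a % m) ⊆ Finset.range m := by
      intro y hy
      rw [Finset.mem_image] at hy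
      obtain ⟨x, _, rfl⟩ := hy
      exact Finset.mem_range.2 (Nat.mod_lt _ (Nat.pos_of_ne_zero hm0))
    simpa using Finset.card_le_card h2
  · -- choose normal forms of x + m
    have hPFW : ∀ x, (x ∉ S ∧ ∀ s ∈ S, s ≠ 0 → x + s ∈ S) → W (x + m) := by
      rintro x ⟨hx1, hx2⟩
      refine ⟨hx2 m hmS hm0, ?_⟩
      intro s hs h
      apply hx1
      have : x = s := by omega
      rw [this]; exact hs
    have hchoose : ∀ x, ∃ a, (x ∉ S ∧ ∀ s ∈ S, s ≠ 0 → x + s ∈ S) → (a ∈ Mset ∧ φ a = x + m) := by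
      intro x
      by_cases hx : (x ∉ S ∧ ∀ s ∈ S, s ≠ 0 → x + s ∈ S)
      · obtain ⟨a, ha, ha2⟩ := hnf _ (hPFW x hx)
        exact ⟨a, fun _ => ⟨ha, ha2⟩⟩
      · exact ⟨0, fun h => absurd h hx⟩
    choose N hN using hchoose
    rw [← Set.ncard_coe_finset]
    apply Set.ncard_le_ncard_of_injOn N
    · intro x hx
      have := hN x hx
      simp only [Finset.coe_filter, Set.mem_ofPred_eq, Set.Finite.mem_toFinset]
      exact ⟨this.1, x, hx, this.2⟩
    · intro x hx y hy hxy
      have h1 := (hN x hx).2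
      have h2 := (hN y hy).2
      rw [hxy] at h1
      omega
  · intro x hx y hy hxy
    rw [Set.Finite.mem_toFinset] at hx hy
    exact hinj x hx y hy hxy

end aux

open Finset in
/-- The bound behind the theorem: for all large r, a numerical semigroup of multiplicity less than
C(e+r, r) and embedding dimension e+1 has type less than C(e+r-2, r-1). -/
lemma main_bound (e : ℕ) (he : 2 ≤ e) : ∃ R : ℕ, 1 ≤ R ∧ ∀ r : ℕ, R ≤ r → ∀ m : ℕ,
    m < (e + r).choose r → ∀ S : AddSubmonoid ℕ,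
        (m ∈ S ∧ m ≠ 0 ∧ ∀ x ∈ S, x ≠ 0 → m ≤ x) →
        {x : ℕ | x ∈ S ∧ x ≠ 0 ∧ ¬ ∃ a ∈ S, ∃ b ∈ S, a ≠ 0 ∧ b ≠ 0 ∧ a + b = x}.ncard = e + 1 →
        {x : ℕ | x ∉ S ∧ ∀ s ∈ S, s ≠ 0 → x + s ∈ S}.ncard < (e + r - 2).choose (r - 1) := by
  classical
  obtain ⟨R, hR⟩ := numeric e he
  refine ⟨R + 1, by omega, ?_⟩
  intro r hr m hm S hS hcard
  by_contra hcon
  rw [not_lt] at hcon
  obtain ⟨b, κ, hbr, hb, hκ⟩ := hR r (by omega)
  obtain ⟨g, M, A, hM, hAM, hA, hMm, hPF, hinj⟩ := normal_forms S m e hS.1 hS.2.1 hS.2.2 hcard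
  obtain ⟨f, rfl⟩ : ∃ f, e = f + 1 := ⟨e - 1, by omega⟩
  have hf : 1 ≤ f := by omega
  have hf' : (0 : ℝ) < f := by exact_mod_cast hf
  -- the large simplex is contained in M
  have hsub : ∀ p : Fin (f + 1) → ℕ, ∑ i, p i ≤ 2 * κ + 2 * (f + 1) + 2 → p ∈ M := by
    intro p hp
    by_contra hpM
    have h1 := stability f hf M A hM hAM hA r b (by omega) p hpM (by omega)
    have h2 : ((f + r - 1).choose (r - 1) : ℝ) ≤ (A.card : ℝ) := by
      have : f + 1 + r - 2 = f + r - 1 := by omega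
      rw [this] at hcon
      exact_mod_cast hcon.trans hPF
    have hbr' : b ≤ r := by omega
    obtain ⟨r', rfl⟩ : ∃ r', r = r' + 1 := ⟨r - 1, by omega⟩
    have e1 : f + (r' + 1) - 1 = f + r' := by omega
    have e2 : r' + 1 - 1 = r' := by omega
    rw [e1, e2] at h2
    -- C(f+r'+1, r'+1) * (r'+1) = (f+r'+1) * C(f+r', r')
    have h3 : ((f + r' + 1 : ℕ) : ℝ) * ((f + r').choose r' : ℝ)
        = ((f + r' + 1).choose (r' + 1) : ℝ) * ((r' + 1 : ℕ) : ℝ) := by
      exact_mod_cast Nat.add_one_mul_choose_eq (f + r') r'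
    rw [← add_assoc] at h1
    set L : ℝ := ((f + r' + 1).choose (r' + 1) : ℝ) with hL
    set L' : ℝ := ((f + r').choose r' : ℝ) with hL'
    set Sb : ℝ := ((f + 1 + b).choose b : ℝ) with hSb
    have hbr'' : (b : ℝ) ≤ r' + 1 := by exact_mod_cast hbr'
    have hcast : (((r' + 1 - b : ℕ) : ℕ) : ℝ) = (r' : ℝ) + 1 - b := by
      rw [Nat.cast_sub hbr']; push_cast; ring
    rw [hcast] at h1
    push_cast at h1 h3
    have hden1 : (0 : ℝ) < (r' : ℝ) + 1 - b + f := by linarith
    have hden2 : (0 : ℝ) < (r' : ℝ) + 1 + f := by positivity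
    have h4 : (f : ℝ) / ((r' : ℝ) + 1 - b + f) - (f : ℝ) / (r' + 1 + f)
        = f * b / (((r' : ℝ) + 1 - b + f) * (r' + 1 + f)) := by
      field_simp
      ring
    rw [h4] at h1
    have h5 : L - L' = L * f / (r' + 1 + f) := by
      rw [eq_div_iff hden2.ne']
      linarith
    have h6 : Sb * (f * b / (((r' : ℝ) + 1 - b + f) * (r' + 1 + f))) ≤ L * f / (r' + 1 + f) := by
      linarith
    rw [← mul_div_assoc, div_le_div_iff₀ (by positivity) hden2] at h6
    have h7 : Sb * b ≤ L * ((r' : ℝ) + 1 - b + f) := by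
      have : (Sb * b) * (f * (r' + 1 + f)) ≤ (L * ((r' : ℝ) + 1 - b + f)) * (f * (r' + 1 + f)) := by
        linarith
      exact le_of_mul_le_mul_right this (by positivity)
    have hLnn : 0 ≤ L := by positivity
    have h8 : Sb * b ≤ L * ((r' : ℝ) + 1 + f) := by
      have : (0 : ℝ) ≤ b := by positivity
      nlinarith
    -- bounds for Sb and L
    have h9 : ((b : ℝ) + 1) ^ (f + 1) / ((f + 1).factorial : ℝ) ≤ Sb := by
      have := Nat.pow_le_choose (α := ℝ) (f + 1) (f + 1 + b)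
      have e3 : f + 1 + b + 1 - (f + 1) = b + 1 := by omega
      rw [e3] at this
      have e4 : (f + 1 + b).choose (f + 1) = (f + 1 + b).choose b := by
        rw [← Nat.choose_symm_add]
      rw [e4] at this
      push_cast at this
      exact this
    have h10 : L ≤ ((r' : ℝ) + 1 + f) ^ f / (f.factorial : ℝ) := by
      have := Nat.choose_le_pow_div (α := ℝ) f (f + r' + 1)
      have e4 : (f + r' + 1).choose f = (f + r' + 1).choose (r' + 1) := by
        rw [add_assoc, ← Nat.choose_symm_add]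
      rw [e4] at this
      push_cast at this
      rw [hL]
      refine this.trans (le_of_eq ?_)
      congr 2
      ring
    have hfac : (((f + 1).factorial : ℕ) : ℝ) = (f + 1) * (f.factorial : ℝ) := by
      rw [Nat.factorial_succ]; push_cast; ring
    have hfac0 : (0 : ℝ) < (f.factorial : ℝ) := by positivity
    have h11 : ((b : ℝ) + 1) ^ (f + 1) / ((f + 1).factorial : ℝ) * b
        ≤ ((r' : ℝ) + 1 + f) ^ f / (f.factorial : ℝ) * ((r' : ℝ) + 1 + f) := by
      refine le_trans (mul_le_mul_of_nonneg_right h9 (by positivity)) (h8.trans ?_)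
      exact mul_le_mul_of_nonneg_right h10 hden2.le
    rw [hfac, div_mul_eq_mul_div, div_mul_eq_mul_div,
      div_le_div_iff₀ (by positivity) hfac0] at h11
    have h12 : ((b : ℝ) + 1) ^ (f + 1) * b ≤ (f + 1) * ((r' : ℝ) + 1 + f) ^ (f + 1) := by
      have : (((b : ℝ) + 1) ^ (f + 1) * b) * (f.factorial : ℝ)
          ≤ ((f + 1) * ((r' : ℝ) + 1 + f) ^ (f + 1)) * (f.factorial : ℝ) := by
        rw [pow_succ ((r' : ℝ) + 1 + f) f]
        linarith
      exact le_of_mul_le_mul_right this hfac0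
    have h13 : ((r' : ℝ) + 1 + f) ^ (f + 1) ≤ ((r' : ℝ) + 1 + (f + 1)) ^ (f + 1) :=
      pow_le_pow_left₀ hden2.le (by linarith) _
    push_cast at hb
    have h14 : ((f : ℝ) + 1) * ((r' : ℝ) + 1 + f) ^ (f + 1)
        ≤ (f + 1) * ((r' : ℝ) + 1 + (f + 1)) ^ (f + 1) :=
      mul_le_mul_of_nonneg_left h13 (by positivity)
    linarith
  -- packing
  have hpack := packing (f + 1) he g m κ hS.2.1
    (fun x y hx hy hxy => hinj x (hsub x hx) y (hsub y hy) hxy)
  have h1 : (2 ^ (f + 1) + 1) * (f + 1 + κ).choose κ < (f + 1 + r).choose r := by omega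
  have h1' : ((2 : ℝ) ^ (f + 1) + 1) * ((f + 1 + κ).choose κ : ℝ) < ((f + 1 + r).choose r : ℝ) := by
    exact_mod_cast h1
  have h9 : ((κ : ℝ) + 1) ^ (f + 1) / ((f + 1).factorial : ℝ) ≤ ((f + 1 + κ).choose κ : ℝ) := by
    have := Nat.pow_le_choose (α := ℝ) (f + 1) (f + 1 + κ)
    have e3 : f + 1 + κ + 1 - (f + 1) = κ + 1 := by omega
    rw [e3] at this
    have e4 : (f + 1 + κ).choose (f + 1) = (f + 1 + κ).choose κ := by
      rw [← Nat.choose_symm_add]
    rw [e4] at this
    push_cast at this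
    exact this
  have h10 : ((f + 1 + r).choose r : ℝ) ≤ ((r : ℝ) + (f + 1)) ^ (f + 1) / ((f + 1).factorial : ℝ) := by
    have := Nat.choose_le_pow_div (α := ℝ) (f + 1) (f + 1 + r)
    have e4 : (f + 1 + r).choose (f + 1) = (f + 1 + r).choose r := by
      rw [← Nat.choose_symm_add]
    rw [e4] at this
    push_cast at this
    refine this.trans (le_of_eq ?_)
    congr 2
    ring
  have hfac0 : (0 : ℝ) < ((f + 1).factorial : ℝ) := by positivity
  have h11 : ((2 : ℝ) ^ (f + 1) + 1) * (((κ : ℝ) + 1) ^ (f + 1) / ((f + 1).factorial : ℝ))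
      < ((r : ℝ) + (f + 1)) ^ (f + 1) / ((f + 1).factorial : ℝ) := by
    refine lt_of_le_of_lt (mul_le_mul_of_nonneg_left h9 (by positivity)) (lt_of_lt_of_le h1' h10)
  rw [← mul_div_assoc, div_lt_div_iff_of_pos_right hfac0] at h11
  push_cast at hκ
  linarith

/-- For each e ≥ 3 and all large m, every numerical semigroup with multiplicity m and embedding dimension e+1 has type strictly less than C(e+r−2, r−1) + s_⟨r⟩, with r and s from the Macaulay-type bound. -/
theorem result : ∀ e : ℕ, 3 ≤ e → ∃ M : ℕ, ∀ m : ℕ, M ≤ m →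
    ∀ r : ℕ, (e + r - 1).choose (r - 1) ≤ m → m < (e + r).choose r →
    ∀ j : ℕ, ∀ n : ℕ → ℕ, 1 ≤ j → j ≤ r + 1 →
      (∀ i : ℕ, j ≤ i → i < r → n i < n (i + 1)) →
      (∀ i : ℕ, j ≤ i → i ≤ r → i ≤ n i) →
      m - (e + r - 1).choose (r - 1) = ∑ i ∈ Finset.Icc j r, (n i).choose i →
      ∀ S : AddSubmonoid ℕ, (S : Set ℕ)ᶜ.Finite →
        (m ∈ S ∧ m ≠ 0 ∧ ∀ x ∈ S, x ≠ 0 → m ≤ x) →
        {x : ℕ | x ∈ S ∧ x ≠ 0 ∧ ¬ ∃ a ∈ S, ∃ b ∈ S, a ≠ 0 ∧ b ≠ 0 ∧ a + b = x}.ncard = e + 1 →
        {x : ℕ | x ∉ S ∧ ∀ s ∈ S, s ≠ 0 → x + s ∈ S}.ncard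
          < (e + r - 2).choose (r - 1) + ∑ i ∈ Finset.Icc j r, (n i - 1).choose i := by
  intro e he
  obtain ⟨R, hR1, hR⟩ := main_bound e (by omega)
  refine ⟨(e + R).choose R, ?_⟩
  intro m hm r _ hr2 j n _ _ _ _ _ S _ hS hcard
  have hRr : R ≤ r := by
    by_contra hlt
    rw [not_le] at hlt
    have h1 : (e + r).choose r ≤ (e + R).choose R := by
      have e1 : (e + r).choose r = (e + r).choose e := by rw [← Nat.choose_symm_add]
      have e2 : (e + R).choose R = (e + R).choose e := by rw [← Nat.choose_symm_add]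
      rw [e1, e2]
      exact Nat.choose_le_choose e (by omega)
    omega
  exact lt_of_lt_of_le (hR r hRr m hr2 S hS hcard) (Nat.le_add_right _ _)

end Pool.Agent.S00339
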