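import Pool.Statements.S00344

/-!
# No universal second countable locally compact group for connected groups

Proof idea (elementary, no structure theory).  Let `Aff` be the group `ℝ × ℝ` with
`(z, w)(z', w') = (z + exp w * z', w + w')` and `G_n = Aff ^ n`.  Suppose every `G_n` embeds
abstractly in the second countable locally compact group `S`.

* Let `a` be the restriction of the embedding to the line `(z, 0)` in one of the factors.
  `fin_exp` : for `z0 ≠ 0` and `K` compact, `{k | a z0 ^ k ∈ K}` is finite.  Otherwise the closure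
  of the group generated by `a z0` is compact (`lemB`), and the closure `V` of the image of `a`
  has a compact open subgroup `O` (`exists_compact_open`).  The dilations act continuously on `V`,
  and separability of `C(O, V)` yields a dilation `α d` mapping `O` into a proper subset, so that
  the index of `α d O` in `O` is `q > 1`; dividing `d` by `k` shows that `q` is a perfect `k`-th
  power for all `k`, a contradiction (`lemA`).
* Counting: if `U` is a compact neighbourhood of the identity and `U U` is covered by `D` left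
  translates of a small neighbourhood `W`, then a commutative subgroup of `S` has at most `D`
  directions (`count`), so `n = D + 1` is impossible.
-/

set_option autoImplicit false
open Pool Pool.MP_15a5ff_al
open Topology Set Filter Pointwise

namespace Pool.Agent.S00344

/-- an uncountable family in a second countable topological group has two members
that are close to each other -/
lemma exists_close {A : Type*} [Group A] [TopologicalSpace A] [IsTopologicalGroup A]
    [SecondCountableTopology A] {ι : Type*} [Uncountable ι] (f : ι → A) (W : Set A)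
    (hW : W ∈ 𝓝 (1 : A)) : ∃ i j : ι, i ≠ j ∧ (f i)⁻¹ * f j ∈ W := by
  by_contra hcon
  push Not at hcon
  obtain ⟨V, hV, hV1, hVs, hVW⟩ : ∃ V : Set A, IsOpen V ∧ (1 : A) ∈ V ∧ V⁻¹ = V ∧ V * V ⊆ W := by
    obtain ⟨V, hV, hV1, hVW⟩ := exists_open_nhds_one_mul_subset hW
    refine ⟨V ∩ V⁻¹, hV.inter hV.inv, ⟨hV1, by simpa using hV1⟩, ?_, ?_⟩
    · rw [Set.inter_inv, inv_inv, Set.inter_comm]
    · exact (Set.mul_subset_mul Set.inter_subset_left Set.inter_subset_left).trans hVW
  have hpd : Pairwise fun i j => Disjoint ((fun y => f i * y) '' V) ((fun y => f j * y) '' V) := by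
    intro i j hij
    rw [Set.disjoint_left]
    rintro y ⟨v, hv, rfl⟩ ⟨w, hw, hvw⟩
    apply hcon i j hij
    have e : (f i)⁻¹ * f j = v * w⁻¹ := by
      have hvw' : f j * w = f i * v := hvw
      have : f j = f i * v * w⁻¹ := by rw [← hvw']; group
      rw [this]; group
    rw [e]
    apply hVW
    refine Set.mul_mem_mul hv ?_
    rw [← hVs]
    simpa using hw
  have hc := hpd.countable_of_isOpen_disjoint (fun i => (isOpenMap_mul_left (f i)) V hV)
    (fun i => ⟨f i * 1, 1, hV1, rfl⟩)
  exact not_countable hc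

/-- a compact type element predicate is closed under finite collections -/
lemma exists_compact_subgroup {V : Type*} [CommGroup V] [TopologicalSpace V]
    [IsTopologicalGroup V] (F : Finset V)
    (hF : ∀ v ∈ F, ∃ K : Subgroup V, IsCompact (K : Set V) ∧ v ∈ K) :
    ∃ K : Subgroup V, IsCompact (K : Set V) ∧ ∀ v ∈ F, v ∈ K := by
  classical
  induction F using Finset.induction_on with
  | empty => exact ⟨⊥, by simp, by simp⟩
  | insert a s ha ih =>
    obtain ⟨K1, h1, h2⟩ := ih (fun v hv => hF v (Finset.mem_insert_of_mem hv))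
    obtain ⟨K2, h3, h4⟩ := hF a (Finset.mem_insert_self _ _)
    refine ⟨K1 ⊔ K2, ?_, ?_⟩
    · rw [Subgroup.mul_normal]
      exact h1.mul h3
    · intro v hv
      rcases Finset.mem_insert.1 hv with rfl | hv
      · exact (le_sup_right : K2 ≤ K1 ⊔ K2) h4
      · exact (le_sup_left : K1 ≤ K1 ⊔ K2) (h2 v hv)

lemma relIndex_ne_zero_of_open {V : Type*} [CommGroup V] [TopologicalSpace V]
    [IsTopologicalGroup V] (H L : Subgroup V) (hH : IsOpen (H : Set V))
    (hL : IsCompact (L : Set V)) : H.relIndex L ≠ 0 := by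
  have : CompactSpace L := isCompact_iff_compactSpace.1 hL
  have hop : IsOpen ((H.subgroupOf L : Subgroup L) : Set L) := hH.preimage continuous_subtype_val
  have : Finite (L ⧸ H.subgroupOf L) := Subgroup.quotient_finite_of_isOpen _ hop
  exact Subgroup.index_ne_zero_of_finite

/-- the open compact subgroup -/
lemma exists_compact_open {V : Type*} [CommGroup V] [TopologicalSpace V]
    [IsTopologicalGroup V] [T2Space V] [LocallyCompactSpace V] (a : ℝ → V)
    (hd : DenseRange a)
    (hc : ∀ z, ∃ K : Subgroup V, IsCompact (K : Set V) ∧ a z ∈ K) :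
    ∃ O : Subgroup V, IsCompact (O : Set V) ∧ IsOpen (O : Set V) := by
  classical
  obtain ⟨U0, hU0c, hU0⟩ := exists_compact_mem_nhds (1 : V)
  set U : Set V := U0 ∩ U0⁻¹ with hU
  have hUc : IsCompact U := hU0c.inter hU0c.inv
  have hUn : U ∈ 𝓝 (1 : V) := inter_mem hU0 (inv_mem_nhds_one V hU0)
  have hUs : ∀ u ∈ U, u⁻¹ ∈ U := by
    rintro u ⟨h1, h2⟩
    exact ⟨h2, by simpa using h1⟩
  have hch : ∀ s : V, ∃ z : ℝ, (a z)⁻¹ * s ∈ interior U := by
    intro s
    have hop : IsOpen {y : V | y⁻¹ * s ∈ interior U} :=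
      isOpen_interior.preimage (continuous_inv.mul continuous_const)
    have hne : ({y : V | y⁻¹ * s ∈ interior U} : Set V).Nonempty :=
      ⟨s, by simpa using mem_interior_iff_mem_nhds.2 hUn⟩
    obtain ⟨z, hz⟩ := hd.exists_mem_open hop hne
    exact ⟨z, hz⟩
  choose z hz using hch
  obtain ⟨t, -, ht⟩ := (hUc.mul hUc).elim_nhds_subcover
    (fun s => {y : V | (a (z s))⁻¹ * y ∈ interior U}) (by
      intro s _
      have hop : IsOpen {y : V | (a (z s))⁻¹ * y ∈ interior U} :=
        isOpen_interior.preimage (continuous_const.mul continuous_id)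
      exact hop.mem_nhds (hz s))
  obtain ⟨K, hK, hKt⟩ := exists_compact_subgroup (t.image (fun s => a (z s))) (by
    intro v hv
    obtain ⟨s, -, rfl⟩ := Finset.mem_image.1 hv
    exact hc _)
  have hcl : ∀ u ∈ U, ∀ u' ∈ U, ∃ k ∈ K, ∃ u'' ∈ U, u * u' = k * u'' := by
    intro u hu u' hu'
    have h1 := ht (Set.mul_mem_mul hu hu')
    simp only [Set.mem_iUnion] at h1
    obtain ⟨s, hs, hs2⟩ := h1
    exact ⟨a (z s), hKt _ (Finset.mem_image_of_mem _ hs), (a (z s))⁻¹ * (u * u'),
      interior_subset hs2, by group⟩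
  let O : Subgroup V :=
    { carrier := (K : Set V) * U
      one_mem' := ⟨1, K.one_mem, 1, mem_of_mem_nhds hUn, by simp⟩
      mul_mem' := by
        rintro x y ⟨k, hk, u, hu, rfl⟩ ⟨k', hk', u', hu', rfl⟩
        obtain ⟨k'', hk'', u'', hu'', e⟩ := hcl u hu u' hu'
        refine ⟨k * k' * k'', K.mul_mem (K.mul_mem hk hk') hk'', u'', hu'', ?_⟩
        have : k * u * (k' * u') = k * k' * (u * u') := mul_mul_mul_comm _ _ _ _
        simp only
        rw [this, e, mul_assoc (k * k')]
      inv_mem' := by
        rintro x ⟨k, hk, u, hu, rfl⟩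
        exact ⟨k⁻¹, K.inv_mem hk, u⁻¹, hUs u hu, by simp [mul_comm]⟩ }
  refine ⟨O, hK.mul hUc, ?_⟩
  apply Subgroup.isOpen_of_mem_nhds O (g := 1)
  refine Filter.mem_of_superset hUn ?_
  intro u hu
  exact ⟨1, K.one_mem, u, hu, by simp⟩



/-- no compact subgroup contains a nontrivial point of the line -/
theorem lemA {V : Type*} [CommGroup V] [TopologicalSpace V] [IsTopologicalGroup V] [T2Space V]
    [SecondCountableTopology V] [LocallyCompactSpace V] (a : ℝ → V)
    (ha : ∀ x y, a (x + y) = a x * a y) (hinj : Function.Injective a) (hd : DenseRange a)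
    (α : ℝ → V →* V) (hα : ∀ w, Continuous (α w))
    (hαa : ∀ w z, α w (a z) = a (Real.exp w * z)) (z0 : ℝ) (hz0 : z0 ≠ 0)
    (M : Subgroup V) (hM : IsCompact (M : Set V)) (hxM : a z0 ∈ M) : False := by
  classical
  have ha0 : a 0 = 1 := by
    have := ha 0 0
    simpa using this
  have hneg : ∀ z, a (-z) = (a z)⁻¹ := by
    intro z
    have := ha (-z) z
    rw [neg_add_cancel, ha0] at this
    exact eq_inv_of_mul_eq_one_left this.symm
  have hadd : ∀ w w' v, α w (α w' v) = α (w + w') v := by
    intro w w' v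
    have := hd.equalizer ((hα w).comp (hα w')) (hα (w + w')) (by
      funext z
      simp only [Function.comp]
      rw [hαa, hαa, hαa, Real.exp_add, mul_assoc])
    exact congrFun this v
  have hzero : ∀ v, α 0 v = v := by
    intro v
    have := hd.equalizer (hα 0) continuous_id (by
      funext z
      simp only [Function.comp, id]
      rw [hαa, Real.exp_zero, one_mul])
    exact congrFun this v
  have hαinj : ∀ w, Function.Injective (α w) := by
    intro w v v' h
    have : α (-w) (α w v) = α (-w) (α w v') := by rw [h]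
    rwa [hadd, hadd, neg_add_cancel, hzero, hzero] at this
  have hsub : ∀ w w', w' < w → ∃ w'', ∀ v, α w v * (α w' v)⁻¹ = α w'' v := by
    intro w w' hlt
    have hpos : 0 < Real.exp w - Real.exp w' := by
      have := Real.exp_lt_exp.2 hlt
      linarith
    refine ⟨Real.log (Real.exp w - Real.exp w'), fun v => ?_⟩
    have := hd.equalizer (f := a) (g := fun v => α w v * (α w' v)⁻¹)
      (h := α (Real.log (Real.exp w - Real.exp w')))
      ((hα w).mul (hα w').inv) (hα _) (by
      funext z
      simp only [Function.comp]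
      rw [hαa, hαa, hαa, Real.exp_log hpos, ← hneg, ← ha]
      congr 1; ring)
    exact congrFun this v
  -- all points of the line lie in compact subgroups
  have hc : ∀ z, ∃ K : Subgroup V, IsCompact (K : Set V) ∧ a z ∈ K := by
    intro z
    by_cases hz : z = 0
    · exact ⟨⊥, by simp, by rw [hz, ha0]; exact Subgroup.mem_bot.2 rfl⟩
    · have hpos : 0 < |z / z0| := abs_pos.2 (div_ne_zero hz hz0)
      obtain ⟨w, hw⟩ : ∃ w, Real.exp w = |z / z0| := ⟨_, Real.exp_log hpos⟩
      refine ⟨M.map (α w), ?_, ?_⟩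
      · rw [Subgroup.coe_map]
        exact hM.image (hα w)
      · have h1 : a (Real.exp w * z0) ∈ M.map (α w) := by
          rw [← hαa]
          exact Subgroup.mem_map_of_mem _ hxM
        rw [hw] at h1
        rcases abs_choice (z / z0) with h | h
        · rw [h, div_mul_cancel₀ _ hz0] at h1
          exact h1
        · rw [h, neg_mul, div_mul_cancel₀ _ hz0, hneg] at h1
          exact (Subgroup.inv_mem_iff _).1 h1
  obtain ⟨O, hOc, hOo⟩ := exists_compact_open a hd hc
  have hOn : (O : Set V) ∈ 𝓝 (1 : V) := hOo.mem_nhds O.one_mem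
  have : Uncountable ℝ := by
    have := Cardinal.not_countable_real
    rw [← not_countable_iff]
    intro h
    exact this (Set.countable_univ)
  obtain ⟨y, hyO, hy1⟩ : ∃ y ∈ O, y ≠ 1 := by
    obtain ⟨i, j, hij, h⟩ := exists_close a O hOn
    refine ⟨_, h, ?_⟩
    intro h1
    apply hij
    apply hinj
    exact (inv_mul_eq_one.1 h1)
  -- find a contraction
  set P : Set V := (O : Set V) \ {y, y⁻¹} with hP
  have hPo : IsOpen P := hOo.sdiff (Set.toFinite _).isClosed
  have hP1 : (1 : V) ∈ P := by
    refine ⟨O.one_mem, ?_⟩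
    simp only [Set.mem_insert_iff, Set.mem_singleton_iff, not_or]
    exact ⟨hy1.symm, fun h => hy1 (by simpa using h.symm)⟩
  have hPs : ∀ v, v⁻¹ ∈ P → v ∈ P := by
    rintro v ⟨h1, h2⟩
    refine ⟨by simpa using O.inv_mem h1, ?_⟩
    simp only [Set.mem_insert_iff, Set.mem_singleton_iff, not_or] at h2 ⊢
    exact ⟨fun h => h2.2 (by rw [h]), fun h => h2.1 (by rw [h, inv_inv])⟩
  have : CompactSpace O := isCompact_iff_compactSpace.1 hOc
  have : LocallyCompactSpace O := hOo.isOpenEmbedding_subtypeVal.locallyCompactSpace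
  have : SecondCountableTopology O := TopologicalSpace.Subtype.secondCountableTopology (O : Set V)
  have : SecondCountableTopology C(O, V) := ContinuousMap.instSecondCountableTopology
  obtain ⟨d, hdP⟩ : ∃ d, ∀ o ∈ O, α d o ∈ P := by
    let f : ℝ → C(O, V) := fun w => ⟨fun o => α w o, (hα w).comp continuous_subtype_val⟩
    have hWo : IsOpen {g : C(O, V) | Set.MapsTo g Set.univ P} :=
      ContinuousMap.isOpen_setOfPred_mapsTo isCompact_univ hPo
    have hW : {g : C(O, V) | Set.MapsTo g Set.univ P} ∈ 𝓝 (1 : C(O, V)) :=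
      hWo.mem_nhds (fun o _ => by simpa using hP1)
    obtain ⟨w, w', hne, hww⟩ := exists_close f _ hW
    have hww' : ∀ o ∈ O, (α w o)⁻¹ * α w' o ∈ P := fun o ho => hww (Set.mem_univ (⟨o, ho⟩ : O))
    rcases lt_or_gt_of_ne hne with h | h
    · obtain ⟨d, hd'⟩ := hsub w' w h
      refine ⟨d, fun o ho => ?_⟩
      rw [← hd', mul_comm]
      exact hww' o ho
    · obtain ⟨d, hd'⟩ := hsub w w' h
      refine ⟨d, fun o ho => ?_⟩
      rw [← hd']
      apply hPs
      have := hww' o ho
      rwa [mul_inv, inv_inv]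
  have hle : O.map (α d) ≤ O := by
    rintro _ ⟨o, ho, rfl⟩
    exact (hdP o ho).1
  set q := (O.map (α d)).relIndex O with hq
  have hopen : ∀ w, ∀ H : Subgroup V, IsOpen (H : Set V) → IsOpen ((H.map (α w) : Subgroup V) : Set V) := by
    intro w H hH
    have : ((H.map (α w) : Subgroup V) : Set V) = (α (-w)) ⁻¹' (H : Set V) := by
      ext v
      constructor
      · rintro ⟨h, hh, rfl⟩
        change α (-w) (α w h) ∈ H
        rw [hadd, neg_add_cancel, hzero]
        exact hh
      · intro hv
        refine ⟨α (-w) v, hv, ?_⟩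
        rw [hadd, add_neg_cancel, hzero]
    rw [this]
    exact hH.preimage (hα _)
  have hq0 : q ≠ 0 := relIndex_ne_zero_of_open _ _ (hopen d O hOo) hOc
  have hq1 : q ≠ 1 := by
    intro h
    rw [hq, Subgroup.relIndex_eq_one] at h
    obtain ⟨o, ho, hoy⟩ := h hyO
    have := (hdP o ho).2
    apply this
    rw [hoy]
    simp
  -- the index is a perfect power
  have hpow : ∀ k : ℕ, 0 < k → ∃ m : ℕ, q = m ^ k := by
    intro k hk
    set r : ℝ := d / k with hr
    have hkr : (k : ℝ) * r = d := by
      rw [hr]; field_simp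
    let O' : Subgroup V := (Finset.range k).sup (fun j : ℕ => O.map (α (j * r)))
    have hO'c : IsCompact (O' : Set V) := by
      have : ∀ s : Finset ℕ, IsCompact ((s.sup (fun j : ℕ => O.map (α (j * r))) : Subgroup V) : Set V) := by
        intro s
        induction s using Finset.induction_on with
        | empty => simp
        | insert b s hb ih =>
          rw [Finset.sup_insert, Subgroup.mul_normal, Subgroup.coe_map]
          exact (hOc.image (hα _)).mul ih
      exact this _
    have hmono : ∀ j, j < k → O.map (α (j * r)) ≤ O' := fun j hj =>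
      Finset.le_sup (f := fun j : ℕ => O.map (α (j * r))) (Finset.mem_range.2 hj)
    have hOO' : O ≤ O' := by
      have h0 := hmono 0 hk
      intro v hv
      apply h0
      refine ⟨v, hv, ?_⟩
      simp [hzero]
    have hrO' : O'.map (α r) ≤ O' := by
      have : O'.map (α r) = (Finset.range k).sup (fun j : ℕ => (O.map (α (j * r))).map (α r)) := by
        have : ∀ s : Finset ℕ, (s.sup (fun j : ℕ => O.map (α (j * r)))).map (α r) =
          s.sup (fun j : ℕ => (O.map (α (j * r))).map (α r)) := by
          intro s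
          induction s using Finset.induction_on with
          | empty => simp
          | insert b s hb ih =>
            rw [Finset.sup_insert, Finset.sup_insert, Subgroup.map_sup, ih]
        exact this _
      rw [this]
      apply Finset.sup_le
      intro j hj
      have hj' := Finset.mem_range.1 hj
      have e : (O.map (α (j * r))).map (α r) = O.map (α (((j + 1 : ℕ) : ℝ) * r)) := by
        ext v
        constructor
        · rintro ⟨_, ⟨o, ho, rfl⟩, rfl⟩
          refine ⟨o, ho, ?_⟩
          rw [hadd]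
          congr 2; push_cast; ring
        · rintro ⟨o, ho, rfl⟩
          refine ⟨α (j * r) o, ⟨o, ho, rfl⟩, ?_⟩
          rw [hadd]
          congr 2; push_cast; ring
      rw [e]
      rcases Nat.lt_or_ge (j + 1) k with h | h
      · exact hmono _ h
      · have : j + 1 = k := by omega
        rw [this, hkr]
        exact hle.trans hOO'
    set m := (O'.map (α r)).relIndex O' with hm
    refine ⟨m, ?_⟩
    have hmapmap : ∀ (w w' : ℝ) (H : Subgroup V), (H.map (α w)).map (α w') = H.map (α (w + w')) := by
      intro w w' H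
      ext v
      constructor
      · rintro ⟨_, ⟨o, ho, rfl⟩, rfl⟩
        exact ⟨o, ho, by rw [hadd, add_comm]⟩
      · rintro ⟨o, ho, rfl⟩
        exact ⟨α w o, ⟨o, ho, rfl⟩, by rw [hadd, add_comm]⟩
    have hind : ∀ j : ℕ, (O'.map (α (j * r))).relIndex O' = m ^ j ∧ O'.map (α (j * r)) ≤ O' := by
      intro j
      induction j with
      | zero =>
        have e : O'.map (α (((0 : ℕ) : ℝ) * r)) = O' := by
          ext v
          constructor
          · rintro ⟨o, ho, rfl⟩
            simpa [hzero] using ho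
          · intro hv
            exact ⟨v, hv, by simp [hzero]⟩
        rw [e]
        simp
      | succ j ih =>
        have e : O'.map (α (((j + 1 : ℕ) : ℝ) * r)) = (O'.map (α r)).map (α (j * r)) := by
          rw [hmapmap]
          congr 2; push_cast; ring
        have h1 : O'.map (α (((j + 1 : ℕ) : ℝ) * r)) ≤ O'.map (α (j * r)) := by
          rw [e]
          exact Subgroup.map_mono hrO'
        have h2 : (O'.map (α (((j + 1 : ℕ) : ℝ) * r))).relIndex (O'.map (α (j * r))) = m := by
          rw [e, Subgroup.relIndex_map_map_of_injective _ _ (hαinj _)]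
        refine ⟨?_, h1.trans ih.2⟩
        rw [← Subgroup.relIndex_mul_relIndex _ _ _ h1 ih.2, h2, ih.1, pow_succ, mul_comm]
    have hk' := hind k
    rw [hkr] at hk'
    set s := O.relIndex O' with hs
    have hs0 : s ≠ 0 := relIndex_ne_zero_of_open _ _ hOo hO'c
    have h3 : (O.map (α d)).relIndex O' = q * s := by
      rw [← Subgroup.relIndex_mul_relIndex _ _ _ hle hOO']
    have h4 : (O.map (α d)).relIndex O' = s * m ^ k := by
      rw [← Subgroup.relIndex_mul_relIndex _ _ _ (Subgroup.map_mono hOO') hk'.2, hk'.1,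
        Subgroup.relIndex_map_map_of_injective _ _ (hαinj _)]
    have h5 : s * q = s * m ^ k := by rw [← h4, h3, mul_comm]
    exact Nat.eq_of_mul_eq_mul_left (Nat.pos_of_ne_zero hs0) h5
  obtain ⟨m, hm⟩ := hpow q (Nat.pos_of_ne_zero hq0)
  have hm2 : 2 ≤ m := by
    rcases m with _ | _ | m
    · rw [zero_pow hq0] at hm; exact absurd hm hq0
    · simp at hm; exact absurd hm hq1
    · omega
  have h6 : 2 ^ q ≤ m ^ q := Nat.pow_le_pow_left hm2 q
  have h7 : q < 2 ^ q := Nat.lt_two_pow_self
  omega

/-- recurrence of powers -/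
lemma recur {S : Type*} [Group S] [TopologicalSpace S] [IsTopologicalGroup S]
    (x : S) (K : Set S) (hK : IsCompact K)
    (hinf : {k : ℤ | x ^ k ∈ K}.Infinite) (W : Set S) (hW : W ∈ 𝓝 (1 : S)) (N0 : ℤ) :
    ∃ n : ℤ, N0 ≤ n ∧ x ^ n ∈ W := by
  obtain ⟨V, hV, hVW⟩ := exists_nhds_split_inv hW
  have hU : ∀ s ∈ K, {y : S | y * s⁻¹ ∈ V} ∈ 𝓝 s := by
    intro s _
    have hc : ContinuousAt (fun y : S => y * s⁻¹) s := by fun_prop
    apply hc
    simpa using hV
  obtain ⟨t, -, ht⟩ := hK.elim_nhds_subcover _ hU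
  have hex : ∃ s ∈ t, {k : ℤ | x ^ k * s⁻¹ ∈ V}.Infinite := by
    by_contra hcon
    push Not at hcon
    apply hinf
    refine (Set.Finite.biUnion t.finite_toSet (t := fun s => {k : ℤ | x ^ k * s⁻¹ ∈ V}) ?_).subset ?_
    · intro s hs
      exact hcon s hs
    · intro k hk
      have := ht hk
      simpa using this
  obtain ⟨s, -, hs⟩ := hex
  obtain ⟨k', hk'⟩ := hs.nonempty
  have : ({k : ℤ | x ^ k * s⁻¹ ∈ V} \ Set.Icc (k' - |N0|) (k' + |N0|)).Nonempty := by
    apply Set.Infinite.nonempty
    exact hs.sdiff (Set.finite_Icc _ _)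
  obtain ⟨k, hk, hkn⟩ := this
  have key : ∀ a b : ℤ, x ^ a * s⁻¹ ∈ V → x ^ b * s⁻¹ ∈ V → x ^ (a - b) ∈ W := by
    intro a b ha hb
    have := hVW _ ha _ hb
    have e : x ^ a * s⁻¹ / (x ^ b * s⁻¹) = x ^ (a - b) := by
      rw [zpow_sub, div_eq_mul_inv, mul_inv_rev]; group
    rwa [e] at this
  rcases lt_or_ge k k' with h | h
  · refine ⟨k' - k, ?_, key _ _ hk' hk⟩
    by_contra hlt
    apply hkn
    constructor
    · have := le_abs_self N0; omega
    · have := abs_nonneg N0; omega
  · refine ⟨k - k', ?_, key _ _ hk hk'⟩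
    by_contra hlt
    apply hkn
    constructor
    · have := abs_nonneg N0; omega
    · have := le_abs_self N0; omega

/-- powers with exponent at least one approximate inverses of elements of the closure -/
lemma dense_pos {S : Type*} [Group S] [TopologicalSpace S] [IsTopologicalGroup S]
    (x : S) (K : Set S) (hK : IsCompact K)
    (hinf : {k : ℤ | x ^ k ∈ K}.Infinite) (g : S)
    (hg : g ∈ (Subgroup.zpowers x).topologicalClosure) (W : Set S) (hW : W ∈ 𝓝 (1 : S)) :
    (∃ n : ℕ, 0 < n ∧ x ^ n * g ∈ W) ∧ (∃ n : ℕ, 0 < n ∧ (x ^ n)⁻¹ * g ∈ W) := by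
  obtain ⟨V, hV, hV1, hVW⟩ := exists_open_nhds_one_mul_subset hW
  have hVn : V ∈ 𝓝 (1 : S) := hV.mem_nhds hV1
  have hnh : {y : S | y⁻¹ * g ∈ V} ∈ 𝓝 g := by
    have hc : ContinuousAt (fun y : S => y⁻¹ * g) g := by fun_prop
    apply hc
    simpa using hVn
  have hg' : g ∈ closure ((Subgroup.zpowers x : Subgroup S) : Set S) := hg
  obtain ⟨y, hy1, hy2⟩ := mem_closure_iff_nhds.1 hg' _ hnh
  obtain ⟨m, rfl⟩ := Subgroup.mem_zpowers_iff.1 hy2
  have hy1 : (x ^ m)⁻¹ * g ∈ V := hy1
  constructor
  · obtain ⟨n, hn, hxn⟩ := recur x K hK hinf V hVn (|m| + 1)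
    refine ⟨(n - m).toNat, ?_, ?_⟩
    · have := le_abs_self m; omega
    · have h0 : 0 ≤ n - m := by have := le_abs_self m; omega
      have e : x ^ (n - m).toNat * g = x ^ n * ((x ^ m)⁻¹ * g) := by
        have : x ^ (n - m).toNat = x ^ (n - m) := by
          rw [← zpow_natCast, Int.toNat_of_nonneg h0]
        rw [this, zpow_sub]; group
      rw [e]
      exact hVW (Set.mul_mem_mul hxn hy1)
  · obtain ⟨n, hn, hxn⟩ := recur x K hK hinf V⁻¹ (inv_mem_nhds_one S hVn) (|m| + 1)
    refine ⟨(n + m).toNat, ?_, ?_⟩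
    · have := neg_abs_le m; omega
    · have h0 : 0 ≤ n + m := by have := neg_abs_le m; omega
      have e : (x ^ (n + m).toNat)⁻¹ * g = (x ^ n)⁻¹ * ((x ^ m)⁻¹ * g) := by
        have : x ^ (n + m).toNat = x ^ (n + m) := by
          rw [← zpow_natCast, Int.toNat_of_nonneg h0]
        rw [this, add_comm, zpow_add]; group
      rw [e]
      exact hVW (Set.mul_mem_mul hxn hy1)

/-- monothetic dichotomy -/
lemma lemB {S : Type*} [Group S] [TopologicalSpace S] [IsTopologicalGroup S]
    [LocallyCompactSpace S] (x : S) (K : Set S) (hK : IsCompact K)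
    (hinf : {k : ℤ | x ^ k ∈ K}.Infinite) :
    IsCompact ((Subgroup.zpowers x).topologicalClosure : Set S) := by
  classical
  obtain ⟨U, hUc, hU⟩ := exists_compact_mem_nhds (1 : S)
  set Z := (Subgroup.zpowers x).topologicalClosure with hZ
  have hZc : IsClosed (Z : Set S) := Subgroup.isClosed_topologicalClosure _
  have hxZ : ∀ n : ℕ, x ^ n ∈ Z := fun n =>
    Subgroup.le_topologicalClosure _ (Subgroup.pow_mem _ (Subgroup.mem_zpowers x) n)
  have hch : ∀ u : S, ∃ n : ℕ, u ∈ Z → (0 < n ∧ x ^ n * u ∈ interior U) := by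
    intro u
    by_cases hu : u ∈ Z
    · obtain ⟨n, h1, h2⟩ := (dense_pos x K hK hinf u hu (interior U) (interior_mem_nhds.2 hU)).1
      exact ⟨n, fun _ => ⟨h1, h2⟩⟩
    · exact ⟨0, fun h => absurd h hu⟩
  choose nu hnu using hch
  have hUZ : IsCompact (U ∩ (Z : Set S)) := hUc.inter_right hZc
  obtain ⟨t, htm, ht⟩ := hUZ.elim_nhds_subcover (fun u => {y : S | x ^ (nu u) * y ∈ interior U}) (by
    intro u hu
    have hop : IsOpen {y : S | x ^ (nu u) * y ∈ interior U} :=
      isOpen_interior.preimage (continuous_const.mul continuous_id)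
    exact hop.mem_nhds (hnu u hu.2).2)
  set B := t.sup nu with hB
  have hcov : (Z : Set S) ⊆ ⋃ n ∈ Finset.range (B + 1), (fun y => x ^ n * y) '' U := by
    intro g hg
    have hex := (dense_pos x K hK hinf g hg U hU).2
    have hspec := Nat.find_spec hex
    set n := Nat.find hex with hn
    have hmem : (x ^ n)⁻¹ * g ∈ U ∩ (Z : Set S) :=
      ⟨hspec.2, Z.mul_mem (Z.inv_mem (hxZ n)) hg⟩
    have h3 := ht hmem
    simp only [Set.mem_iUnion] at h3
    obtain ⟨u, hut, hu2⟩ := h3
    have hle : n ≤ nu u := by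
      by_contra hlt
      push Not at hlt
      have : ¬ (0 < n - nu u ∧ (x ^ (n - nu u))⁻¹ * g ∈ U) :=
        Nat.find_min hex (m := n - nu u) (by
          have := (hnu u (htm u hut).2).1; omega)
      apply this
      refine ⟨by omega, ?_⟩
      have e : (x ^ (n - nu u))⁻¹ * g = x ^ (nu u) * ((x ^ n)⁻¹ * g) := by
        rw [pow_sub x hlt.le]; group
      rw [e]
      exact interior_subset hu2
    have hnB : n < B + 1 := by
      have : nu u ≤ B := Finset.le_sup hut
      omega
    refine Set.mem_biUnion (Finset.mem_coe.2 (Finset.mem_range.2 hnB)) ?_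
    exact ⟨(x ^ n)⁻¹ * g, hspec.2, by simp⟩
  refine IsCompact.of_isClosed_subset ?_ hZc hcov
  refine (Finset.range (B + 1)).finite_toSet.isCompact_biUnion ?_
  intro n _
  exact hUc.image (continuous_const.mul continuous_id)

/-- the `ax + b` group (with `a = exp w`) -/
def Aff : Type := ℝ × ℝ

instance : TopologicalSpace Aff := inferInstanceAs (TopologicalSpace (ℝ × ℝ))
instance : T2Space Aff := inferInstanceAs (T2Space (ℝ × ℝ))
instance : LocallyCompactSpace Aff := inferInstanceAs (LocallyCompactSpace (ℝ × ℝ))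
instance : SecondCountableTopology Aff := inferInstanceAs (SecondCountableTopology (ℝ × ℝ))
instance : ConnectedSpace Aff := inferInstanceAs (ConnectedSpace (ℝ × ℝ))

/-- constructor -/
def mk (z w : ℝ) : Aff := (z, w)

lemma mk_eta (x : Aff) : mk x.1 x.2 = x := rfl

noncomputable instance : Mul Aff := ⟨fun x y => mk (x.1 + Real.exp x.2 * y.1) (x.2 + y.2)⟩
instance : One Aff := ⟨mk 0 0⟩
noncomputable instance : Inv Aff := ⟨fun x => mk (-(Real.exp (-x.2) * x.1)) (-x.2)⟩

lemma mk_mul (z w z' w' : ℝ) : mk z w * mk z' w' = mk (z + Real.exp w * z') (w + w') := rfl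
lemma one_def : (1 : Aff) = mk 0 0 := rfl
lemma mk_inv (z w : ℝ) : (mk z w)⁻¹ = mk (-(Real.exp (-w) * z)) (-w) := rfl

noncomputable instance : Group Aff := Group.ofLeftAxioms
  (by
    intro x y z
    rw [← mk_eta x, ← mk_eta y, ← mk_eta z]
    simp only [mk_mul]
    rw [Real.exp_add]
    congr 1 <;> ring)
  (by
    intro x
    rw [← mk_eta x, one_def, mk_mul]
    congr 1 <;> simp)
  (by
    intro x
    rw [← mk_eta x, one_def, mk_inv, mk_mul]
    congr 1 <;> simp)

instance : IsTopologicalGroup Aff where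
  continuous_mul := by
    change Continuous (fun p : (ℝ × ℝ) × (ℝ × ℝ) =>
      ((p.1.1 + Real.exp p.1.2 * p.2.1, p.1.2 + p.2.2) : ℝ × ℝ))
    fun_prop
  continuous_inv := by
    change Continuous (fun p : (ℝ × ℝ) =>
      ((-(Real.exp (-p.2) * p.1), -p.2) : ℝ × ℝ))
    fun_prop

/-- counting, first step -/
lemma rep {A : Type*} [AddCommGroup A] (U : Set A) (h0 : (0 : A) ∈ U) {T : Type*} [Fintype T]
    [DecidableEq T] (φ : T → A) (hφ : ∀ u ∈ U, ∀ u' ∈ U, ∃ s, u + u' - φ s ∈ U)
    (l : Multiset A) (hl : ∀ x ∈ l, x ∈ U) :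
    ∃ c : T → ℕ, (∀ s, c s ≤ Multiset.card l) ∧ l.sum - ∑ s, c s • φ s ∈ U := by
  induction l using Multiset.induction_on with
  | empty => exact ⟨0, by simp, by simpa using h0⟩
  | cons a l ih =>
    obtain ⟨c, hc, hu⟩ := ih (fun x hx => hl x (Multiset.mem_cons_of_mem hx))
    obtain ⟨s, hs⟩ := hφ _ hu a (hl a (Multiset.mem_cons_self _ _))
    refine ⟨fun t => c t + if t = s then 1 else 0, ?_, ?_⟩
    · intro t
      rw [Multiset.card_cons]
      have := hc t
      change c t + (if t = s then 1 else 0) ≤ _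
      split_ifs <;> omega
    · have e : (a ::ₘ l).sum - ∑ t, (c t + if t = s then 1 else 0) • φ t =
          l.sum - ∑ s, c s • φ s + a - φ s := by
        rw [Multiset.sum_cons]
        simp only [add_smul, Finset.sum_add_distrib, ite_smul, one_smul, zero_smul,
          Finset.sum_ite_eq', Finset.mem_univ, if_true]
        abel
      rw [e]
      exact hs

lemma arith (D R : ℕ) (main : ∀ M : ℕ, (M + 1) ^ (D + 1) ≤ R * ((D + 1) * M + 1) ^ D) : False := by
  have h := main (R * (D + 1) ^ D)
  generalize hM : R * (D + 1) ^ D = M at h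
  have h6 : R * ((D + 1) * M + 1) ^ D ≤ M * (M + 1) ^ D := by
    calc R * ((D + 1) * M + 1) ^ D ≤ R * ((D + 1) * (M + 1)) ^ D := by
          apply Nat.mul_le_mul_left
          apply Nat.pow_le_pow_left
          rw [Nat.mul_add]
          omega
      _ = M * (M + 1) ^ D := by rw [mul_pow, ← mul_assoc, hM]
  have h7 : (M + 1) ^ (D + 1) = M * (M + 1) ^ D + (M + 1) ^ D := by ring
  have h8 : 0 < (M + 1) ^ D := by positivity
  omega

/-- counting: the abstract contradiction -/
lemma count {A : Type*} [AddCommGroup A] (U : Set A) (h0 : (0 : A) ∈ U) {T : Type*} [Fintype T]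
    [DecidableEq T] (φ : T → A) (hφ : ∀ u ∈ U, ∀ u' ∈ U, ∃ s, u + u' - φ s ∈ U)
    (D : ℕ) (hD : Fintype.card T = D)
    (x : Fin (D + 1) → A) (hx : ∀ i, x i ∈ U)
    (Z : Fin (D + 1) → Set ℤ) (hZ : ∀ i, (Z i).Finite)
    (hxZ : ∀ k : Fin (D + 1) → ℤ, (∃ u ∈ U, ∃ u' ∈ U, ∑ i, k i • x i = u - u') →
      ∀ i, k i ∈ Z i) : False := by
  classical
  have key : ∀ m : Fin (D + 1) → ℕ, ∃ c : T → ℕ, (∀ s, c s ≤ ∑ i, m i) ∧
      ∑ i, m i • x i - ∑ s, c s • φ s ∈ U := by
    intro m
    obtain ⟨c, hc, hu⟩ := rep U h0 φ hφ (∑ i, Multiset.replicate (m i) (x i)) (by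
      intro y hy
      rw [Multiset.mem_sum] at hy
      obtain ⟨i, -, hi⟩ := hy
      rw [Multiset.eq_of_mem_replicate hi]
      exact hx i)
    refine ⟨c, ?_, ?_⟩
    · intro s
      have := hc s
      rw [Multiset.card_sum] at this
      simpa using this
    · have e : (∑ i, Multiset.replicate (m i) (x i)).sum = ∑ i, m i • x i := by
        have : ∀ s : Finset (Fin (D + 1)), (∑ i ∈ s, Multiset.replicate (m i) (x i)).sum =
            ∑ i ∈ s, m i • x i := by
          intro s
          induction s using Finset.induction_on with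
          | empty => simp
          | insert b s hb ih =>
            rw [Finset.sum_insert hb, Finset.sum_insert hb, Multiset.sum_add, ih,
              Multiset.sum_replicate]
        exact this _
      rw [e] at hu
      exact hu
  choose c hc hcu using key
  set R := ∏ i, (hZ i).toFinset.card with hR
  have main : ∀ M : ℕ, (M + 1) ^ (D + 1) ≤ R * ((D + 1) * M + 1) ^ D := by
    intro M
    set s : Finset (Fin (D + 1) → ℕ) := Fintype.piFinset (fun _ => Finset.range (M + 1)) with hs
    have h1 : s.card = (M + 1) ^ (D + 1) := by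
      rw [hs, Fintype.card_piFinset]; simp
    have h2 : s.card ≤ R * (s.image c).card := by
      apply Finset.card_le_mul_card_image
      intro b hb
      obtain ⟨m0, hm0, rfl⟩ := Finset.mem_image.1 hb
      have : R = (Fintype.piFinset (fun i => (hZ i).toFinset)).card := by
        rw [Fintype.card_piFinset]
      rw [this]
      apply Finset.card_le_card_of_injOn (fun m i => (m i : ℤ) - m0 i)
      · intro m hm
        have hm' : m ∈ s ∧ c m = c m0 := by simpa using hm
        rw [Finset.mem_coe, Fintype.mem_piFinset]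
        intro i
        rw [Set.Finite.mem_toFinset]
        apply hxZ (fun i => (m i : ℤ) - m0 i)
        refine ⟨_, hcu m, _, hcu m0, ?_⟩
        rw [hm'.2]
        simp only [sub_smul, Finset.sum_sub_distrib, natCast_zsmul]
        abel
      · intro m _ m' _ h
        funext i
        have := congrFun h i
        simp only at this
        omega
    have h3 : (s.image c).card ≤ ((D + 1) * M + 1) ^ D := by
      have : ((D + 1) * M + 1) ^ D =
          (Fintype.piFinset (fun _ : T => Finset.range ((D + 1) * M + 1))).card := by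
        rw [Fintype.card_piFinset]; simp [hD]
      rw [this]
      apply Finset.card_le_card
      intro b hb
      obtain ⟨m, hm, rfl⟩ := Finset.mem_image.1 hb
      rw [Fintype.mem_piFinset]
      intro t
      rw [Finset.mem_range]
      have h4 := hc m t
      have h5 : ∑ i, m i ≤ ∑ i : Fin (D + 1), M := by
        apply Finset.sum_le_sum
        intro i _
        have := Fintype.mem_piFinset.1 hm i
        rw [Finset.mem_range] at this
        omega
      rw [Finset.sum_const, Finset.card_univ, Fintype.card_fin, smul_eq_mul] at h5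
      omega
    calc (M + 1) ^ (D + 1) = s.card := h1.symm
      _ ≤ R * (s.image c).card := h2
      _ ≤ R * ((D + 1) * M + 1) ^ D := Nat.mul_le_mul_left _ h3
  exact arith D R main


/-- finiteness of the set of exponents -/
lemma fin_exp {S : Type*} [Group S] [TopologicalSpace S] [IsTopologicalGroup S] [T2Space S]
    [LocallyCompactSpace S] [SecondCountableTopology S] (a : ℝ → S)
    (ha : ∀ x y, a (x + y) = a x * a y) (hinj : Function.Injective a)
    (t : ℝ → S) (ht : ∀ w z, t w * a z * (t w)⁻¹ = a (Real.exp w * z))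
    (z0 : ℝ) (hz0 : z0 ≠ 0) (K : Set S) (hK : IsCompact K) :
    {k : ℤ | a z0 ^ k ∈ K}.Finite := by
  by_contra hinf
  have hB := lemB (a z0) K hK hinf
  have ha0 : a 0 = 1 := by
    have := ha 0 0
    simpa using this
  have hneg : ∀ z, a (-z) = (a z)⁻¹ := by
    intro z
    have := ha (-z) z
    rw [neg_add_cancel, ha0] at this
    exact eq_inv_of_mul_eq_one_left this.symm
  let A : Subgroup S :=
    { carrier := Set.range a
      one_mem' := ⟨0, ha0⟩
      mul_mem' := by
        rintro _ _ ⟨x, rfl⟩ ⟨y, rfl⟩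
        exact ⟨x + y, ha x y⟩
      inv_mem' := by
        rintro _ ⟨x, rfl⟩
        exact ⟨-x, hneg x⟩ }
  have hcomm : ∀ x y : A, x * y = y * x := by
    rintro ⟨_, x, rfl⟩ ⟨_, y, rfl⟩
    apply Subtype.ext
    change a x * a y = a y * a x
    rw [← ha, ← ha, add_comm]
  have hVc : IsClosed (A.topologicalClosure : Set S) := A.isClosed_topologicalClosure
  let _ : CommGroup A.topologicalClosure := A.commGroupTopologicalClosure hcomm
  have : LocallyCompactSpace A.topologicalClosure :=
    hVc.isClosedEmbedding_subtypeVal.locallyCompactSpace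
  have : SecondCountableTopology A.topologicalClosure :=
    TopologicalSpace.Subtype.secondCountableTopology (A.topologicalClosure : Set S)
  have haV : ∀ z, a z ∈ A.topologicalClosure := fun z => A.le_topologicalClosure ⟨z, rfl⟩
  have hcl : ∀ w, ∀ v ∈ A.topologicalClosure, t w * v * (t w)⁻¹ ∈ A.topologicalClosure := by
    intro w v hv
    have hc : Continuous (fun v : S => t w * v * (t w)⁻¹) := by fun_prop
    have hv' : v ∈ closure (Set.range a) := hv
    have := map_mem_closure (f := fun v : S => t w * v * (t w)⁻¹) hc hv'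
      (t := Set.range a) (by
        rintro _ ⟨z, rfl⟩
        exact ⟨Real.exp w * z, (ht w z).symm⟩)
    exact this
  let α : ℝ → A.topologicalClosure →* A.topologicalClosure := fun w =>
    { toFun := fun v => ⟨t w * v * (t w)⁻¹, hcl w v v.2⟩
      map_one' := by
        apply Subtype.ext
        simp
      map_mul' := by
        intro x y
        apply Subtype.ext
        change t w * (x * y : S) * (t w)⁻¹ = (t w * x * (t w)⁻¹) * (t w * y * (t w)⁻¹)
        group }
  let Z : Subgroup A.topologicalClosure :=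
    (Subgroup.zpowers (a z0)).topologicalClosure.subgroupOf A.topologicalClosure
  refine lemA (V := A.topologicalClosure) (fun z => ⟨a z, haV z⟩) ?_ ?_ ?_ α ?_ ?_ z0 hz0 Z ?_ ?_
  · intro x y
    apply Subtype.ext
    exact ha x y
  · intro x y h
    apply hinj
    exact congrArg Subtype.val h
  · rw [DenseRange, Subtype.dense_iff]
    intro v hv
    have e : Subtype.val '' Set.range (fun z => (⟨a z, haV z⟩ : A.topologicalClosure)) =
        Set.range a := by
      ext y
      constructor
      · rintro ⟨_, ⟨z, rfl⟩, rfl⟩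
        exact ⟨z, rfl⟩
      · rintro ⟨z, rfl⟩
        exact ⟨_, ⟨z, rfl⟩, rfl⟩
    have hv' : v ∈ closure (Set.range a) := hv
    rw [← e] at hv'
    exact hv'
  · intro w
    apply Continuous.subtype_mk
    fun_prop
  · intro w z
    apply Subtype.ext
    exact ht w z
  · have : (Z : Set A.topologicalClosure) = Subtype.val ⁻¹'
        ((Subgroup.zpowers (a z0)).topologicalClosure : Set S) := rfl
    rw [this]
    exact hVc.isClosedEmbedding_subtypeVal.isCompact_preimage hB
  · change a z0 ∈ (Subgroup.zpowers (a z0)).topologicalClosure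
    exact Subgroup.le_topologicalClosure _ (Subgroup.mem_zpowers _)

lemma mk_zpow (z : ℝ) (k : ℤ) : (mk z 0) ^ k = mk (k * z) 0 := by
  let ψ : Multiplicative ℝ →* Aff :=
    { toFun := fun y => mk y.toAdd 0
      map_one' := rfl
      map_mul' := by
        intro x y
        rw [mk_mul]
        congr 1 <;> simp }
  have h := map_zpow ψ (Multiplicative.ofAdd z) k
  have e : ψ (Multiplicative.ofAdd z) = mk z 0 := rfl
  rw [e] at h
  rw [← h, ← ofAdd_zsmul]
  change mk (k • z) 0 = mk (k * z) 0
  rw [zsmul_eq_mul]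

/-- the main argument -/
theorem main (S : Type) [TopologicalSpace S] [Group S] [IsTopologicalGroup S]
    [LocallyCompactSpace S] [T2Space S] [SecondCountableTopology S]
    (h : ∀ n : ℕ, ∃ f : (Fin n → Aff) →* S, Function.Injective f) : False := by
  classical
  obtain ⟨U, hUc, hU⟩ := exists_compact_mem_nhds (1 : S)
  obtain ⟨W, hW, hWU⟩ : ∃ W ∈ 𝓝 (1 : S), ∀ v ∈ W, ∀ w ∈ W, v⁻¹ * w ∈ U := by
    obtain ⟨V, hV, hV1, hVU⟩ := exists_open_nhds_one_mul_subset hU
    have hVn := hV.mem_nhds hV1
    refine ⟨V ∩ V⁻¹, inter_mem hVn (inv_mem_nhds_one S hVn), ?_⟩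
    rintro v ⟨-, hv⟩ w ⟨hw, -⟩
    exact hVU (Set.mul_mem_mul hv hw)
  obtain ⟨T, -, hT⟩ := (hUc.mul hUc).elim_nhds_subcover
    (fun s => {y : S | s⁻¹ * y ∈ W}) (by
      intro s _
      have hc : ContinuousAt (fun y : S => s⁻¹ * y) s := by fun_prop
      apply hc
      simpa using hW)
  set D := Fintype.card T with hD
  obtain ⟨f, hf⟩ := h (D + 1)
  let g : (Fin (D + 1) → ℝ) → S := fun v => f (fun i => mk (v i) 0)
  have hg : ∀ v v', g (v + v') = g v * g v' := by
    intro v v'
    change f _ = f _ * f _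
    rw [← map_mul]
    congr 1
    funext i
    change mk (v i + v' i) 0 = mk (v i) 0 * mk (v' i) 0
    rw [mk_mul]
    congr 1 <;> simp
  have hg0 : g 0 = 1 := by
    have := hg 0 0
    simpa using this
  have hgneg : ∀ v, g (-v) = (g v)⁻¹ := by
    intro v
    have := hg (-v) v
    rw [neg_add_cancel, hg0] at this
    exact eq_inv_of_mul_eq_one_left this.symm
  have hgsub : ∀ v v', g (v - v') = g v * (g v')⁻¹ := by
    intro v v'
    rw [sub_eq_add_neg, hg, hgneg]
  have hgcomm : ∀ v v', g v * g v' = g v' * g v := by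
    intro v v'
    rw [← hg, ← hg, add_comm]
  have hex : ∀ s : T, ∃ v : Fin (D + 1) → ℝ,
      (∃ v', (s : S)⁻¹ * g v' ∈ W) → (s : S)⁻¹ * g v ∈ W := by
    intro s
    by_cases hs : ∃ v', (s : S)⁻¹ * g v' ∈ W
    · obtain ⟨v, hv⟩ := hs
      exact ⟨v, fun _ => hv⟩
    · exact ⟨0, fun h => absurd h hs⟩
  choose φ hφ using hex
  -- the maps a and t
  let a : Fin (D + 1) → ℝ → S := fun i z => f (Pi.mulSingle i (mk z 0))
  let t : Fin (D + 1) → ℝ → S := fun i w => f (Pi.mulSingle i (mk 0 w))
  have hga : ∀ i z, g (Pi.single i z) = a i z := by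
    intro i z
    change f _ = f _
    congr 1
    funext j
    by_cases hj : j = i
    · subst hj; simp
    · simp [hj, one_def]
  have ha : ∀ i x y, a i (x + y) = a i x * a i y := by
    intro i x y
    rw [← hga, ← hga, ← hga, ← hg, Pi.single_add]
  have hainj : ∀ i, Function.Injective (a i) := by
    intro i x y hxy
    have h1 := hf hxy
    have h2 := Pi.mulSingle_injective i h1
    exact congrArg Prod.fst h2
  have hta : ∀ i w z, t i w * a i z * (t i w)⁻¹ = a i (Real.exp w * z) := by
    intro i w z
    change f _ * f _ * (f _)⁻¹ = f _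
    rw [← map_mul, ← map_inv, ← map_mul, ← Pi.mulSingle_mul, ← Pi.mulSingle_inv,
      ← Pi.mulSingle_mul]
    congr 2
    rw [mk_inv, mk_mul, mk_mul]
    congr 1 <;> simp
  have hUz : ∀ i, ∃ z : ℝ, z ≠ 0 ∧ a i z ∈ U := by
    intro i
    have : Uncountable ℝ := by
      have := Cardinal.not_countable_real
      rw [← not_countable_iff]
      intro h
      exact this (Set.countable_univ)
    obtain ⟨x, y, hxy, hxyU⟩ := exists_close (a i) U hU
    refine ⟨y - x, sub_ne_zero.2 hxy.symm, ?_⟩
    have : a i (y - x) = (a i x)⁻¹ * a i y := by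
      rw [← hga, ← hga, ← hga, ← hgneg, ← hg, sub_eq_neg_add, Pi.single_add, Pi.single_neg]
    rw [this]
    exact hxyU
  choose z hz0 hzU using hUz
  let K : Fin (D + 1) → Set S := fun i =>
    (fun y => t i (Real.log 2) * y * (t i (Real.log 2))⁻¹ * y⁻¹) '' (U * U⁻¹)
  have hK : ∀ i, IsCompact (K i) := by
    intro i
    apply (hUc.mul hUc.inv).image
    fun_prop
  refine count (g ⁻¹' U) ?_ φ ?_ D hD.symm (fun i => Pi.single i (z i)) ?_
    (fun i => {k : ℤ | a i (z i) ^ k ∈ K i})
    (fun i => fin_exp (a i) (ha i) (hainj i) (t i) (hta i) (z i) (hz0 i) (K i) (hK i)) ?_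
  · change g 0 ∈ U
    rw [hg0]
    exact mem_of_mem_nhds hU
  · intro u hu u' hu'
    have h1 := hT (Set.mul_mem_mul hu hu')
    simp only [Set.mem_iUnion] at h1
    obtain ⟨s, hs, hs2⟩ := h1
    refine ⟨⟨s, hs⟩, ?_⟩
    have h2 : s⁻¹ * g (u + u') ∈ W := by
      rw [hg]
      exact hs2
    have h3 : s⁻¹ * g (φ ⟨s, hs⟩) ∈ W := hφ ⟨s, hs⟩ ⟨_, h2⟩
    have h4 := hWU _ h3 _ h2
    change g (u + u' - φ ⟨s, hs⟩) ∈ U
    have e : g (u + u' - φ ⟨s, hs⟩) = (s⁻¹ * g (φ ⟨s, hs⟩))⁻¹ * (s⁻¹ * g (u + u')) := by
      rw [sub_eq_neg_add, hg, hgneg]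
      group
    rw [e]
    exact h4
  · intro i
    change g (Pi.single i (z i)) ∈ U
    rw [hga]
    exact hzU i
  · rintro k ⟨u, hu, u', hu', e⟩ i
    set v := ∑ i, k i • (Pi.single i (z i) : Fin (D + 1) → ℝ) with hv
    have hvi : v i = k i * z i := by
      rw [hv, Finset.sum_apply]
      rw [Finset.sum_eq_single i]
      · simp
      · intro j _ hj
        simp [hj]
      · simp
    have hgv : g v ∈ U * U⁻¹ := by
      rw [e, hgsub]
      exact Set.mul_mem_mul hu (by simpa using hu')
    change a i (z i) ^ k i ∈ K i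
    refine ⟨g v, hgv, ?_⟩
    change f _ * f _ * (f _)⁻¹ * (f _)⁻¹ = (f _) ^ k i
    rw [← map_mul, ← map_inv, ← map_inv, ← map_mul, ← map_mul, ← map_zpow]
    congr 1
    funext j
    simp only [Pi.mul_apply, Pi.inv_apply, Pi.pow_apply]
    by_cases hj : j = i
    · subst hj
      simp only [Pi.mulSingle_eq_same]
      rw [mk_zpow, mk_inv, mk_inv, mk_mul, mk_mul, mk_mul, hvi]
      congr 1
      · simp [Real.exp_log]
        ring
      · simp
    · simp [hj]


/-- The negation of the preceding statement: There is a second countable locally compact Hausdorff group S such that every connected second countable locally compact Hausdorff group embeds into S by an injective (not necessarily continuous) group homomorphism. -/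
theorem result :
    ¬ (∃ (S : Type) (_ : TopologicalSpace S) (_ : Group S),
      IsTopologicalGroup S ∧ LocallyCompactSpace S ∧ T2Space S ∧ SecondCountableTopology S ∧
      ∀ (G : Type) [TopologicalSpace G] [Group G] [IsTopologicalGroup G]
        [LocallyCompactSpace G] [T2Space G] [SecondCountableTopology G] [ConnectedSpace G],
        ∃ f : G →* S, Function.Injective f) := by
  rintro ⟨S, _, _, _, _, _, _, h⟩
  exact main S (fun n => h (Fin n → Aff))

end Pool.Agent.S00344
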