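import Pool.Statements.S00371

set_option autoImplicit false
open Pool Pool.MP_18df54_al

namespace Pool.Agent.S00371

/-- The algebra `ℚ ⊕ V ⊕ V' ⊕ (V ⊗ V')` with `dim V = dim V' = 19`. -/
@[ext]
structure Alg where
  k : ℚ
  v : Fin 19 → ℚ
  u : Fin 19 → ℚ
  w : Fin 19 → Fin 19 → ℚ

namespace Alg

instance : Zero Alg := ⟨⟨0, fun _ => 0, fun _ => 0, fun _ _ => 0⟩⟩
instance : One Alg := ⟨⟨1, fun _ => 0, fun _ => 0, fun _ _ => 0⟩⟩
instance : Add Alg := ⟨fun a b => ⟨a.k + b.k, fun i => a.v i + b.v i, fun i => a.u i + b.u i,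
  fun i j => a.w i j + b.w i j⟩⟩
instance : Neg Alg := ⟨fun a => ⟨-a.k, fun i => -a.v i, fun i => -a.u i, fun i j => -a.w i j⟩⟩
instance : Sub Alg := ⟨fun a b => ⟨a.k - b.k, fun i => a.v i - b.v i, fun i => a.u i - b.u i,
  fun i j => a.w i j - b.w i j⟩⟩
instance : Mul Alg := ⟨fun a b => ⟨a.k * b.k, fun i => a.k * b.v i + a.v i * b.k,
  fun i => a.k * b.u i + a.u i * b.k,
  fun i j => a.k * b.w i j + a.v i * b.u j + a.w i j * b.k⟩⟩

@[simp] theorem zero_k : (0 : Alg).k = 0 := rfl
@[simp] theorem zero_v (i) : (0 : Alg).v i = 0 := rfl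
@[simp] theorem zero_u (i) : (0 : Alg).u i = 0 := rfl
@[simp] theorem zero_w (i j) : (0 : Alg).w i j = 0 := rfl
@[simp] theorem one_k : (1 : Alg).k = 1 := rfl
@[simp] theorem one_v (i) : (1 : Alg).v i = 0 := rfl
@[simp] theorem one_u (i) : (1 : Alg).u i = 0 := rfl
@[simp] theorem one_w (i j) : (1 : Alg).w i j = 0 := rfl
@[simp] theorem add_k (a b : Alg) : (a + b).k = a.k + b.k := rfl
@[simp] theorem add_v (a b : Alg) (i) : (a + b).v i = a.v i + b.v i := rfl
@[simp] theorem add_u (a b : Alg) (i) : (a + b).u i = a.u i + b.u i := rfl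
@[simp] theorem add_w (a b : Alg) (i j) : (a + b).w i j = a.w i j + b.w i j := rfl
@[simp] theorem neg_k (a : Alg) : (-a).k = -a.k := rfl
@[simp] theorem neg_v (a : Alg) (i) : (-a).v i = -a.v i := rfl
@[simp] theorem neg_u (a : Alg) (i) : (-a).u i = -a.u i := rfl
@[simp] theorem neg_w (a : Alg) (i j) : (-a).w i j = -a.w i j := rfl
@[simp] theorem sub_k (a b : Alg) : (a - b).k = a.k - b.k := rfl
@[simp] theorem sub_v (a b : Alg) (i) : (a - b).v i = a.v i - b.v i := rfl
@[simp] theorem sub_u (a b : Alg) (i) : (a - b).u i = a.u i - b.u i := rfl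
@[simp] theorem sub_w (a b : Alg) (i j) : (a - b).w i j = a.w i j - b.w i j := rfl
@[simp] theorem mul_k (a b : Alg) : (a * b).k = a.k * b.k := rfl
@[simp] theorem mul_v (a b : Alg) (i) : (a * b).v i = a.k * b.v i + a.v i * b.k := rfl
@[simp] theorem mul_u (a b : Alg) (i) : (a * b).u i = a.k * b.u i + a.u i * b.k := rfl
@[simp] theorem mul_w (a b : Alg) (i j) :
    (a * b).w i j = a.k * b.w i j + a.v i * b.u j + a.w i j * b.k := rfl

instance : Ring Alg where
  add_assoc a b c := by ext <;> simp <;> ring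
  zero_add a := by ext <;> simp
  add_zero a := by ext <;> simp
  add_comm a b := by ext <;> simp <;> ring
  neg_add_cancel a := by ext <;> simp
  sub_eq_add_neg a b := by ext <;> simp <;> ring
  mul_assoc a b c := by ext <;> simp <;> ring
  one_mul a := by ext <;> simp
  mul_one a := by ext <;> simp
  left_distrib a b c := by ext <;> simp <;> ring
  right_distrib a b c := by ext <;> simp <;> ring
  zero_mul a := by ext <;> simp
  mul_zero a := by ext <;> simp
  nsmul := nsmulRec
  zsmul := zsmulRec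

/-- The retraction of the algebra onto its scalars. -/
def rho : Alg →+* Alg where
  toFun a := ⟨a.k, fun _ => 0, fun _ => 0, fun _ _ => 0⟩
  map_one' := rfl
  map_mul' a b := by ext <;> simp
  map_zero' := rfl
  map_add' a b := by ext <;> simp

@[simp] theorem rho_k (a : Alg) : (rho a).k = a.k := rfl
@[simp] theorem rho_v (a : Alg) (i) : (rho a).v i = 0 := rfl
@[simp] theorem rho_u (a : Alg) (i) : (rho a).u i = 0 := rfl
@[simp] theorem rho_w (a : Alg) (i j) : (rho a).w i j = 0 := rfl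

theorem rho_comm (a b : Alg) : rho a * b = b * rho a := by
  ext <;> simp <;> ring

/-- `k`-component and additivity over finite sums. -/
def wHom (i j : Fin 19) : Alg →+ ℚ where
  toFun a := a.w i j
  map_zero' := rfl
  map_add' _ _ := rfl

def kHom : Alg →+ ℚ where
  toFun a := a.k
  map_zero' := rfl
  map_add' _ _ := rfl

theorem sum_w {ι : Type*} (s : Finset ι) (f : ι → Alg) (i j : Fin 19) :
    (∑ x ∈ s, f x).w i j = ∑ x ∈ s, (f x).w i j := map_sum (wHom i j) f s

theorem sum_k {ι : Type*} (s : Finset ι) (f : ι → Alg) :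
    (∑ x ∈ s, f x).k = ∑ x ∈ s, (f x).k := map_sum kHom f s

end Alg

open Alg Matrix

abbrev M := Matrix (Fin 3) (Fin 3) Alg

/-- Entrywise retraction onto scalar matrices. -/
def Rho : M →+* M := Alg.rho.mapMatrix

theorem Rho_apply (x : M) (i j : Fin 3) : Rho x i j = Alg.rho (x i j) := rfl

theorem trace_Rho_mul (x y : M) : (Rho x * y).trace = (y * Rho x).trace := by
  simp only [Matrix.trace, Matrix.diag_apply, Matrix.mul_apply]
  rw [Finset.sum_comm]
  refine Finset.sum_congr rfl fun i _ => Finset.sum_congr rfl fun j _ => ?_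
  rw [Rho_apply, rho_comm]

/-- The top element `ω`. -/
def omega : Alg := ⟨0, fun _ => 0, fun _ => 0, fun i j => if i = j then 1 else 0⟩

theorem omega_mul (a : Alg) (h : a.k = 0) : omega * a = 0 := by
  ext <;> simp [omega, h]

/-- The diagonal matrix `diag(0,0,ω)`. -/
def E : M := Matrix.single 2 2 omega

theorem E_mul (a : M) (h : ∀ i j, (a i j).k = 0) : E * a = 0 := by
  ext1 i j
  simp only [E, Matrix.mul_apply, Matrix.single_apply, Matrix.zero_apply]
  refine Finset.sum_eq_zero fun l _ => ?_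
  split_ifs
  · exact omega_mul _ (h _ _)
  · simp

theorem E_trace : E.trace = omega := by
  simp [E]

theorem Rho_Rho (x : M) : Rho (Rho x) = Rho x := by
  ext1 i j
  rw [Rho_apply, Rho_apply]
  rfl

theorem key (x y : Mˣ) (g : Mˣ) (hg : g = x * y * x⁻¹ * y⁻¹)
    (hE : (g : M) = Rho (g : M) + Rho (g : M) * E) :
    (((x : M) - Rho x) * (((y : M) - Rho y) * (Rho (y⁻¹ : Mˣ) * Rho (x⁻¹ : Mˣ)))).trace
      = ((Rho (g : M) * ((y : M) - Rho y)) *
          (((x : M) - Rho x) * (Rho (y⁻¹ : Mˣ) * Rho (x⁻¹ : Mˣ)))).trace + omega := by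
  have hXXi : Rho (x : M) * Rho (x⁻¹ : Mˣ) = 1 := by rw [← map_mul]; simp
  have hXiX : Rho (x⁻¹ : Mˣ) * Rho (x : M) = 1 := by rw [← map_mul]; simp
  have hYYi : Rho (y : M) * Rho (y⁻¹ : Mˣ) = 1 := by rw [← map_mul]; simp
  have hYiY : Rho (y⁻¹ : Mˣ) * Rho (y : M) = 1 := by rw [← map_mul]; simp
  have hGiG : Rho (g⁻¹ : Mˣ) * Rho (g : M) = 1 := by rw [← map_mul]; simp
  have hG : Rho (g : M) = Rho (x : M) * Rho (y : M) * Rho (x⁻¹ : Mˣ) * Rho (y⁻¹ : Mˣ) := by
    rw [hg]; simp only [Units.val_mul, map_mul]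
  have hGYX : Rho (g : M) * Rho (y : M) * Rho (x : M) = Rho (x : M) * Rho (y : M) := by
    rw [hG]
    calc Rho (x : M) * Rho (y : M) * Rho (x⁻¹ : Mˣ) * Rho (y⁻¹ : Mˣ) * Rho (y : M) * Rho (x : M)
        = Rho (x : M) * Rho (y : M) * Rho (x⁻¹ : Mˣ) * (Rho (y⁻¹ : Mˣ) * Rho (y : M)) * Rho (x : M) := by
          noncomm_ring
      _ = Rho (x : M) * Rho (y : M) * (Rho (x⁻¹ : Mˣ) * Rho (x : M)) := by
          rw [hYiY]; noncomm_ring
      _ = _ := by rw [hXiX, mul_one]
  have hYXC : Rho (y : M) * Rho (x : M) * (Rho (y⁻¹ : Mˣ) * Rho (x⁻¹ : Mˣ)) = Rho (g⁻¹ : Mˣ) := by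
    have : g⁻¹ = y * x * (y⁻¹ * x⁻¹) := by rw [hg]; group
    rw [this]; simp only [Units.val_mul, map_mul]
  have hCGY : Rho (y⁻¹ : Mˣ) * Rho (x⁻¹ : Mˣ) * (Rho (g : M) * Rho (y : M)) = Rho (x⁻¹ : Mˣ) := by
    have : x⁻¹ = y⁻¹ * x⁻¹ * (g * y) := by rw [hg]; group
    conv_rhs => rw [this]
    simp only [Units.val_mul, map_mul]
  have hXCG : Rho (x : M) * (Rho (y⁻¹ : Mˣ) * Rho (x⁻¹ : Mˣ)) * Rho (g : M) = Rho (y⁻¹ : Mˣ) := by
    have : y⁻¹ = x * (y⁻¹ * x⁻¹) * g := by rw [hg]; group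
    conv_rhs => rw [this]
    simp only [Units.val_mul, map_mul]
  have hgyx : (x : M) * y = g * y * x := by
    rw [hg]; simp only [← Units.val_mul]; congr 1; group
  set X := Rho (x : M) with hX
  set Y := Rho (y : M) with hY
  set Xi := Rho (x⁻¹ : Mˣ) with hXi
  set Yi := Rho (y⁻¹ : Mˣ) with hYi
  set G := Rho (g : M) with hGdef
  set Gi := Rho (g⁻¹ : Mˣ) with hGidef
  obtain ⟨ξ, hξ⟩ : ∃ ξ : M, ξ = (x : M) - X := ⟨_, rfl⟩
  obtain ⟨η, hη⟩ : ∃ η : M, η = (y : M) - Y := ⟨_, rfl⟩
  rw [← hξ, ← hη]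
  have hx1 : (x : M) = X + ξ := by rw [hξ]; abel
  have hy1 : (y : M) = Y + η := by rw [hη]; abel
  have hξk : ∀ i j, (ξ i j).k = 0 := by
    intro i j
    rw [hξ, hX, Matrix.sub_apply, Rho_apply]; simp
  have hηk : ∀ i j, (η i j).k = 0 := by
    intro i j
    rw [hη, hY, Matrix.sub_apply, Rho_apply]; simp
  have hmulk : ∀ (a b : M), (∀ i j, (b i j).k = 0) → ∀ i j, ((a * b) i j).k = 0 := by
    intro a b hb i j
    rw [Matrix.mul_apply, sum_k]
    exact Finset.sum_eq_zero fun l _ => by simp [hb]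
  have hE1 : E * η = 0 := E_mul _ hηk
  have hE2 : E * (Y * ξ) = 0 := E_mul _ (hmulk _ _ hξk)
  have hmain : X * η + ξ * Y + ξ * η
      = G * Y * ξ + G * η * X + G * η * ξ + G * E * Y * X := by
    have h1 : X * Y + X * η + ξ * Y + ξ * η
        = G * Y * X + G * Y * ξ + G * η * X + G * η * ξ + G * E * Y * X
          + G * (E * (Y * ξ)) + G * (E * η) * (X + ξ) := by
      have h2 := hgyx
      rw [hE, hx1, hy1] at h2
      calc X * Y + X * η + ξ * Y + ξ * η = (X + ξ) * (Y + η) := by noncomm_ring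
        _ = (G + G * E) * (Y + η) * (X + ξ) := h2
        _ = _ := by noncomm_ring
    rw [hE1, hE2, hGYX] at h1
    simp only [mul_zero, zero_mul, add_zero] at h1
    have h3 : X * Y + (X * η + ξ * Y + ξ * η)
        = X * Y + (G * Y * ξ + G * η * X + G * η * ξ + G * E * Y * X) := by
      calc X * Y + (X * η + ξ * Y + ξ * η) = X * Y + X * η + ξ * Y + ξ * η := by abel
        _ = _ := h1
        _ = _ := by abel
    exact add_left_cancel h3
  have htr := congrArg (fun m : M => (m * (Yi * Xi)).trace) hmain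
  simp only [add_mul, Matrix.trace_add] at htr
  have t1 : (X * η * (Yi * Xi)).trace = (η * Yi).trace := by
    rw [mul_assoc, hX, trace_Rho_mul, ← hX]
    congr 1
    calc η * (Yi * Xi) * X = η * Yi * (Xi * X) := by noncomm_ring
      _ = _ := by rw [hXiX, mul_one]
  have t2 : (ξ * Y * (Yi * Xi)).trace = (ξ * Xi).trace := by
    congr 1
    calc ξ * Y * (Yi * Xi) = ξ * (Y * Yi) * Xi := by noncomm_ring
      _ = _ := by rw [hYYi, mul_one]
  have t3 : (G * Y * ξ * (Yi * Xi)).trace = (ξ * Xi).trace := by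
    have : G * Y = Rho ((g : M) * y) := by rw [map_mul]
    rw [mul_assoc, this, trace_Rho_mul, ← this]
    congr 1
    rw [mul_assoc, hCGY]
  have t4 : (G * η * X * (Yi * Xi)).trace = (η * Yi).trace := by
    have : G * η * X * (Yi * Xi) = G * (η * X * (Yi * Xi)) := by noncomm_ring
    rw [this, hGdef, trace_Rho_mul, ← hGdef]
    congr 1
    calc η * X * (Yi * Xi) * G = η * (X * (Yi * Xi) * G) := by noncomm_ring
      _ = _ := by rw [hXCG]
  have t5 : (G * E * Y * X * (Yi * Xi)).trace = omega := by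
    have : G * E * Y * X * (Yi * Xi) = G * (E * (Y * X * (Yi * Xi))) := by noncomm_ring
    rw [this, hYXC, hGdef, trace_Rho_mul, ← hGdef, mul_assoc, hGiG, mul_one, E_trace]
  have t6 : (ξ * (η * (Yi * Xi))).trace = (ξ * η * (Yi * Xi)).trace := by rw [mul_assoc]
  have t7 : (G * η * (ξ * (Yi * Xi))).trace = (G * η * ξ * (Yi * Xi)).trace := by
    congr 1; noncomm_ring
  rw [t6, t7]
  rw [t1, t2, t3, t4, t5] at htr
  have := htr
  calc (ξ * η * (Yi * Xi)).trace
      = ((η * Yi).trace + (ξ * Xi).trace + (ξ * η * (Yi * Xi)).trace)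
          - (η * Yi).trace - (ξ * Xi).trace := by abel
    _ = _ := by rw [this]; abel

/-- The `w`-component of a trace of a product of two matrices over the augmentation ideal. -/
theorem trace_w (a b : M) (ha : ∀ i j, (a i j).k = 0) (hb : ∀ i j, (b i j).k = 0)
    (i j : Fin 19) :
    ((a * b).trace).w i j = ∑ pq : Fin 3 × Fin 3, (a pq.1 pq.2).v i * (b pq.2 pq.1).u j := by
  rw [Matrix.trace, sum_w, Fintype.sum_prod_type]
  refine Finset.sum_congr rfl fun p _ => ?_
  rw [Matrix.diag_apply, Matrix.mul_apply, sum_w]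
  refine Finset.sum_congr rfl fun q _ => ?_
  simp [ha, hb]

theorem not_comm (x y : Mˣ) (g : Mˣ)
    (hE : (g : M) = Rho (g : M) + Rho (g : M) * E) : g ≠ x * y * x⁻¹ * y⁻¹ := by
  intro hg
  have hk := key x y g hg hE
  have hmulk : ∀ (a b : M), (∀ i j, (b i j).k = 0) → ∀ i j, ((a * b) i j).k = 0 := by
    intro a b hb i j
    rw [Matrix.mul_apply, sum_k]
    exact Finset.sum_eq_zero fun l _ => by simp [hb]
  have hmulk' : ∀ (a b : M), (∀ i j, (a i j).k = 0) → ∀ i j, ((a * b) i j).k = 0 := by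
    intro a b hb i j
    rw [Matrix.mul_apply, sum_k]
    exact Finset.sum_eq_zero fun l _ => by simp [hb]
  set ξ := (x : M) - Rho x with hξ
  set η := (y : M) - Rho y with hη
  set C := Rho (y⁻¹ : Mˣ) * Rho (x⁻¹ : Mˣ) with hC
  set G := Rho (g : M) with hG
  have hξk : ∀ i j, (ξ i j).k = 0 := by
    intro i j
    rw [hξ, Matrix.sub_apply, Rho_apply]; simp
  have hηk : ∀ i j, (η i j).k = 0 := by
    intro i j
    rw [hη, Matrix.sub_apply, Rho_apply]; simp
  let P : Matrix (Fin 19) ((Fin 3 × Fin 3) ⊕ (Fin 3 × Fin 3)) ℚ := fun i s =>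
    Sum.elim (fun pq => (ξ pq.1 pq.2).v i) (fun pq => -((G * η) pq.1 pq.2).v i) s
  let Q : Matrix ((Fin 3 × Fin 3) ⊕ (Fin 3 × Fin 3)) (Fin 19) ℚ := fun s j =>
    Sum.elim (fun pq => ((η * C) pq.2 pq.1).u j) (fun pq => ((ξ * C) pq.2 pq.1).u j) s
  have hPQ : (1 : Matrix (Fin 19) (Fin 19) ℚ) = P * Q := by
    ext i j
    have h1 := congrArg (fun a : Alg => a.w i j) hk
    simp only [add_w] at h1
    rw [trace_w _ _ hξk (hmulk' _ _ hηk), trace_w _ _ (hmulk _ _ hηk) (hmulk' _ _ hξk)] at h1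
    rw [Matrix.mul_apply, Fintype.sum_sum_type]
    simp only [P, Q, Sum.elim_inl, Sum.elim_inr]
    have h2 : omega.w i j = (1 : Matrix (Fin 19) (Fin 19) ℚ) i j := by
      rw [Matrix.one_apply]; rfl
    rw [← h2]
    simp only [neg_mul, Finset.sum_neg_distrib]
    linarith
  have h19 : (1 : Matrix (Fin 19) (Fin 19) ℚ).rank ≤ 18 := by
    rw [hPQ]
    refine (Matrix.rank_mul_le_left P Q).trans ?_
    refine (Matrix.rank_le_card_width P).trans ?_
    simp
  rw [Matrix.rank_one] at h19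
  simp at h19

/-- The unit `1 + S` for a matrix `S` of square zero. -/
def nilUnit (S : M) (h : S * S = 0) : Mˣ where
  val := 1 + S
  inv := 1 - S
  val_inv := by
    have : (1 + S) * (1 - S) = 1 - S * S := by noncomm_ring
    rw [this, h, sub_zero]
  inv_val := by
    have : (1 - S) * (1 + S) = 1 - S * S := by noncomm_ring
    rw [this, h, sub_zero]

theorem nilUnit_val (S : M) (h : S * S = 0) : (nilUnit S h : M) = 1 + S := rfl

/-- The elementary subgroup. -/
abbrev H : Subgroup Mˣ := Subgroup.closure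
  {u : (Matrix (Fin 3) (Fin 3) Alg)ˣ |
    ∃ i j : Fin 3, ∃ c : Alg, i ≠ j ∧
      (u : Matrix (Fin 3) (Fin 3) Alg) = 1 + Matrix.single i j c}

theorem single_sq (i j : Fin 3) (hij : i ≠ j) (c : Alg) :
    (Matrix.single i j c : M) * Matrix.single i j c = 0 :=
  Matrix.single_mul_single_of_ne _ _ _ _ hij.symm _

/-- An elementary unit. -/
def elem (i j : Fin 3) (hij : i ≠ j) (c : Alg) : Mˣ :=
  nilUnit (Matrix.single i j c) (single_sq i j hij c)

theorem elem_mem (i j : Fin 3) (hij : i ≠ j) (c : Alg) : elem i j hij c ∈ H :=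
  Subgroup.subset_closure ⟨i, j, c, hij, rfl⟩

/-- The top element with matrix `w`. -/
def top (w : Fin 19 → Fin 19 → ℚ) : Alg := ⟨0, fun _ => 0, fun _ => 0, w⟩

theorem top_mul_top (w w' : Fin 19 → Fin 19 → ℚ) : top w * top w' = 0 := by
  ext <;> simp [top]

theorem D_sq (w : Fin 19 → Fin 19 → ℚ) :
    (Matrix.single 2 2 (top w) : M) * Matrix.single 2 2 (top w) = 0 := by
  rw [Matrix.single_mul_single_same, top_mul_top, Matrix.single_zero]

/-- The diagonal unit `diag(1,1,1+w)`. -/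
def D (w : Fin 19 → Fin 19 → ℚ) : Mˣ := nilUnit (Matrix.single 2 2 (top w)) (D_sq w)

theorem D_add (w w' : Fin 19 → Fin 19 → ℚ) : D (fun i j => w i j + w' i j) = D w * D w' := by
  apply Units.ext
  rw [Units.val_mul]
  simp only [D, nilUnit_val]
  have h1 : (1 + Matrix.single 2 2 (top w) : M) * (1 + Matrix.single 2 2 (top w'))
      = 1 + (Matrix.single 2 2 (top w) + Matrix.single 2 2 (top w'))
        + Matrix.single 2 2 (top w) * Matrix.single 2 2 (top w') := by noncomm_ring
  rw [h1, Matrix.single_mul_single_same, top_mul_top, Matrix.single_zero, add_zero,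
    ← Matrix.single_add]
  congr 2
  ext <;> simp [top]

theorem D_rank_one (a b : Fin 19 → ℚ) : D (fun i j => a i * b j) ∈ H := by
  obtain ⟨α, hα⟩ : ∃ α : Alg, α = ⟨0, a, fun _ => 0, fun _ _ => 0⟩ := ⟨_, rfl⟩
  obtain ⟨β, hβ⟩ : ∃ β : Alg, β = ⟨0, fun _ => 0, b, fun _ _ => 0⟩ := ⟨_, rfl⟩
  have hαβ : α * β = top (fun i j => a i * b j) := by
    rw [hα, hβ]; ext <;> simp [top]
  have hβα : β * α = 0 := by
    rw [hα, hβ]; ext <;> simp
  have h20 : (2 : Fin 3) ≠ 0 := by decide
  have hD : D (fun i j => a i * b j)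
      = (elem 0 2 h20.symm β)⁻¹ * elem 2 0 h20 α * elem 0 2 h20.symm β * (elem 2 0 h20 α)⁻¹ := by
    apply Units.ext
    simp only [Units.val_mul]
    have e1 : ((elem 0 2 h20.symm β)⁻¹ : Mˣ).val = 1 - Matrix.single 0 2 β := rfl
    have e2 : ((elem 2 0 h20 α)⁻¹ : Mˣ).val = 1 - Matrix.single 2 0 α := rfl
    have e3 : (elem 0 2 h20.symm β).val = 1 + Matrix.single 0 2 β := rfl
    have e4 : (elem 2 0 h20 α).val = 1 + Matrix.single 2 0 α := rfl
    have e5 : (D (fun i j => a i * b j)).val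
        = 1 + Matrix.single 2 2 (top (fun i j => a i * b j)) := rfl
    rw [e1, e2, e3, e4, e5, ← hαβ]
    have hBA : (Matrix.single 0 2 β : M) * Matrix.single 2 0 α = 0 := by
      rw [Matrix.single_mul_single_same, hβα, Matrix.single_zero]
    have hAB : (Matrix.single 2 0 α : M) * Matrix.single 0 2 β = Matrix.single 2 2 (α * β) :=
      Matrix.single_mul_single_same _ _ _ _ _
    have hAA := single_sq 2 0 h20 α
    have hBB := single_sq 0 2 h20.symm β
    rw [← hAB]
    set S : M := Matrix.single 2 0 α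
    set T : M := Matrix.single 0 2 β
    have h1 : (1 - T) * (1 + S) * (1 + T) * (1 - S)
        = (1 + S - T - T * S) * (1 + T - S - T * S) := by noncomm_ring
    rw [h1, hBA, sub_zero, sub_zero]
    have h2 : (1 + S - T) * (1 + T - S) = 1 + S * T - S * S - T * T + T * S := by noncomm_ring
    rw [h2, hBA, hAA, hBB, sub_zero, sub_zero, add_zero]
  rw [hD]
  exact H.mul_mem (H.mul_mem (H.mul_mem (H.inv_mem (elem_mem _ _ _ _)) (elem_mem _ _ _ _))
    (elem_mem _ _ _ _)) (H.inv_mem (elem_mem _ _ _ _))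

theorem D_partial (s : Finset (Fin 19)) :
    D (fun i j => if i = j ∧ i ∈ s then 1 else 0) ∈ H := by
  induction s using Finset.induction_on with
  | empty =>
    have : D (fun i j => if i = j ∧ i ∈ (∅ : Finset (Fin 19)) then 1 else 0) = 1 := by
      apply Units.ext
      simp only [D, nilUnit_val, Finset.notMem_empty, and_false, if_false]
      have : top (fun _ _ => 0) = 0 := rfl
      rw [this, Matrix.single_zero, add_zero]; rfl
    rw [this]; exact H.one_mem
  | insert a s ha ih =>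
    have h1 : (fun i j => if i = j ∧ i ∈ insert a s then (1 : ℚ) else 0)
        = fun i j => (fun i j => (if i = a then (1 : ℚ) else 0) * (if j = a then 1 else 0)) i j
            + (fun i j => if i = j ∧ i ∈ s then (1 : ℚ) else 0) i j := by
      funext i j
      simp only [Finset.mem_insert]
      by_cases hia : i = a
      · subst hia
        by_cases hij : i = j
        · subst hij; simp [ha]
        · have : ¬ j = i := fun h => hij h.symm
          simp [hij, this]
      · simp [hia]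
    rw [h1, D_add]
    exact H.mul_mem (D_rank_one (fun i => if i = a then 1 else 0) (fun j => if j = a then 1 else 0)) ih

theorem D_omega_mem : D (fun i j => if i = j then 1 else 0) ∈ H := by
  have h := D_partial Finset.univ
  simpa using h

/-- There exist n > 2, a ring A with 1, and a matrix g in the group generated by elementary matrices in GL_n(A), such that g is nonscalar modulo every proper two-sided ideal and g is not x y x⁻¹ y⁻¹ for any x, y in GL_n(A). -/
theorem result :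
    ∃ n : ℕ, 2 < n ∧ ∃ (A : Type) (_ : Ring A),
      ∃ g ∈ Subgroup.closure
          {u : (Matrix (Fin n) (Fin n) A)ˣ |
            ∃ i j : Fin n, ∃ c : A, i ≠ j ∧
              (u : Matrix (Fin n) (Fin n) A) = 1 + Matrix.single i j c},
        (∀ J : TwoSidedIdeal A, J ≠ ⊤ →
          ¬ ∃ a : A, ∀ i j : Fin n,
            (g : Matrix (Fin n) (Fin n) A) i j - (if i = j then a else 0) ∈ J) ∧
        ∀ x y : (Matrix (Fin n) (Fin n) A)ˣ, g ≠ x * y * x⁻¹ * y⁻¹ := by
  have h01 : (0 : Fin 3) ≠ 1 := by decide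
  have hval : ((elem 0 1 h01 1 * D (fun i j => if i = j then 1 else 0) : Mˣ) : M)
      = (1 + Matrix.single 0 1 1) * (1 + E) := rfl
  have hRE : Rho E = 0 := by
    ext1 i j
    rw [Rho_apply, E, Matrix.single_apply]
    split_ifs
    · ext <;> simp [omega]
    · simp
  have hRS : Rho (Matrix.single 0 1 1) = Matrix.single 0 1 1 := by
    ext1 i j
    rw [Rho_apply, Matrix.single_apply]
    split_ifs <;> simp
  have hR : Rho ((elem 0 1 h01 1 * D (fun i j => if i = j then 1 else 0) : Mˣ) : M)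
      = 1 + Matrix.single 0 1 1 := by
    rw [hval, map_mul, map_add, map_add, map_one, hRE, hRS, add_zero, mul_one]
  refine ⟨3, by norm_num, Alg, inferInstance,
    elem 0 1 h01 1 * D (fun i j => if i = j then 1 else 0),
    H.mul_mem (elem_mem _ _ _ _) D_omega_mem, ?_, ?_⟩
  · rintro J hJ ⟨a, ha⟩
    apply hJ
    have h := ha 0 1
    rw [hval] at h
    have h2 : ((1 + Matrix.single 0 1 1 : M) * (1 + E)) 0 1 = 1 := by
      have : (1 + Matrix.single 0 1 1 : M) * (1 + E)
          = 1 + Matrix.single 0 1 1 + E + Matrix.single 0 1 1 * E := by noncomm_ring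
      rw [this]
      simp [E, Matrix.single_apply]
    rw [h2] at h
    simp only [h01, if_false, sub_zero] at h
    exact (TwoSidedIdeal.one_mem_iff J).mp h
  · intro x y
    apply not_comm
    rw [hR, hval]
    noncomm_ring

end Pool.Agent.S00371
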