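import Pool.Statements.S00394
import Pool.Agent.Helper813.Final

set_option autoImplicit false
open Pool Pool.MP_1b0854_al

namespace Pool.Agent.S00394

/-- The negation of the preceding statement: Let F be a class of finite groups closed under images, subdirect products, normal subgroups and normal products, and solubly saturated. Then for subnormal H, K of a finite group, the F-residual of the join of H and K is the join of their F-residuals. -/
theorem result :
    ¬ (∀ F : (G : Type) → [Group G] → Prop,
    (∀ (G : Type) [Group G] [Finite G] (Q : Type) [Group Q] (f : G →* Q),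
        Function.Surjective f → F G → F Q) →
    (∀ (G : Type) [Group G] [Finite G] (Q₁ : Type) [Group Q₁] (Q₂ : Type) [Group Q₂]
        (Q : Type) [Group Q] (f₁ : G →* Q₁) (f₂ : G →* Q₂) (f : G →* Q),
        Function.Surjective f₁ → Function.Surjective f₂ → Function.Surjective f →
        f.ker = f₁.ker ⊓ f₂.ker → F Q₁ → F Q₂ → F Q) →
    (∀ (G : Type) [Group G] [Finite G] (N : Subgroup G), N.Normal → F G → F ↥N) →
    (∀ (G : Type) [Group G] [Finite G] (N M : Subgroup G), N.Normal → M.Normal →
        F ↥N → F ↥M → F ↥(N ⊔ M)) →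
    (∀ (G : Type) [Group G] [Finite G] (N : Subgroup G), N.Normal → IsSolvable ↥N →
        (∀ (Q : Type) [Group Q] (f : G →* Q), Function.Surjective f →
            f.ker = (frattini ↥N).map N.subtype → F Q) → F G) →
    ∀ (G : Type) [Group G] [Finite G] (H K : Subgroup G),
      (∃ n : ℕ, ∃ c : ℕ → Subgroup G, c 0 = H ∧ c n = ⊤ ∧
        ∀ i < n, c i ≤ c (i + 1) ∧ ((c i).subgroupOf (c (i + 1))).Normal) →
      (∃ n : ℕ, ∃ c : ℕ → Subgroup G, c 0 = K ∧ c n = ⊤ ∧
        ∀ i < n, c i ≤ c (i + 1) ∧ ((c i).subgroupOf (c (i + 1))).Normal) →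
      (⨅ (N : Subgroup ↥(H ⊔ K)) (_ : N.Normal ∧ ∀ (Q : Type) [Group Q] (f : ↥(H ⊔ K) →* Q),
          Function.Surjective f → f.ker = N → F Q), N).map (H ⊔ K).subtype
        = (⨅ (N : Subgroup ↥H) (_ : N.Normal ∧ ∀ (Q : Type) [Group Q] (f : ↥H →* Q),
            Function.Surjective f → f.ker = N → F Q), N).map H.subtype
          ⊔ (⨅ (N : Subgroup ↥K) (_ : N.Normal ∧ ∀ (Q : Type) [Group Q] (f : ↥K →* Q),
            Function.Surjective f → f.ker = N → F Q), N).map K.subtype) := by
  exact Pool.Agent.Helper813.second Pool.Agent.Helper813.dat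

end Pool.Agent.S00394
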