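import Pool.Statements.S00396

set_option autoImplicit false
open Pool Pool.MP_1b4c08_al

namespace Pool.Agent.S00396

open MvPolynomial

section general

variable {r : ℕ} {K : Type} [Field K]

/-- Weight of an exponent outside the set `F`. -/
def wt (F : Finset (Fin r)) (α : Fin r →₀ ℕ) : ℕ := ∑ i, if i ∈ F then 0 else α i

theorem wt_add (F : Finset (Fin r)) (α β : Fin r →₀ ℕ) : wt F (α + β) = wt F α + wt F β := by
  simp only [wt, ← Finset.sum_add_distrib]
  refine Finset.sum_congr rfl fun i _ => ?_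
  split_ifs <;> simp

theorem wt_single (F : Finset (Fin r)) (a : Fin r) :
    wt F (Finsupp.single a 1) = if a ∈ F then 0 else 1 := by
  simp only [wt]
  rw [Finset.sum_eq_single a]
  · simp
  · intro b _ hb
    simp [Ne.symm hb]
  · simp

theorem wt_zero (F : Finset (Fin r)) : wt F 0 = 0 := by simp [wt]

variable (K) in
/-- The prime ideal generated by the variables outside `F`. -/
noncomputable def PF (F : Finset (Fin r)) : Ideal (MvPolynomial (Fin r) K) :=
  Ideal.span (X '' {i | i ∉ F})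

variable (K) in
/-- The ideal of polynomials all of whose monomials have weight at least `n` outside `F`. -/
noncomputable def LF (F : Finset (Fin r)) (n : ℕ) : Ideal (MvPolynomial (Fin r) K) :=
  Ideal.span ((fun β => monomial β (1 : K)) '' {β | n ≤ wt F β})

theorem mem_LF {F : Finset (Fin r)} {n : ℕ} {f : MvPolynomial (Fin r) K} :
    f ∈ LF K F n ↔ ∀ α ∈ f.support, n ≤ wt F α := by
  rw [LF, mem_ideal_span_monomial_image]
  refine forall₂_congr fun α _ => ⟨?_, fun h => ⟨α, h, le_rfl⟩⟩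
  rintro ⟨β, hβ, hle⟩
  obtain ⟨γ, rfl⟩ := exists_add_of_le hle
  rw [wt_add]
  exact le_add_right hβ

theorem PF_pow (F : Finset (Fin r)) (n : ℕ) : PF K F ^ n = LF K F n := by
  induction n with
  | zero =>
    simp only [pow_zero, Ideal.one_eq_top]
    symm
    rw [Ideal.eq_top_iff_one, mem_LF]
    intro α _
    exact Nat.zero_le _
  | succ n ih =>
    rw [pow_succ, ih, LF, PF, Ideal.span_mul_span', LF]
    apply le_antisymm
    · rw [Ideal.span_le]
      rintro _ ⟨_, ⟨β, hβ, rfl⟩, _, ⟨i, hi, rfl⟩, rfl⟩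
      refine Ideal.subset_span ⟨β + Finsupp.single i 1, ?_, by simp [X, monomial_mul]⟩
      simp only [Set.mem_ofPred_eq] at hβ hi ⊢
      rw [wt_add, wt_single, if_neg hi]
      omega
    · rw [Ideal.span_le]
      rintro _ ⟨β, hβ, rfl⟩
      simp only [Set.mem_ofPred_eq] at hβ
      have : ∃ i, i ∉ F ∧ 1 ≤ β i := by
        by_contra hcon
        push Not at hcon
        have : wt F β = 0 := by
          refine Finset.sum_eq_zero fun i _ => ?_
          split_ifs with h
          · rfl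
          · have := hcon i h; omega
        omega
      obtain ⟨i, hi, hβi⟩ := this
      have hle : Finsupp.single i 1 ≤ β := by
        rw [Finsupp.single_le_iff]; exact hβi
      obtain ⟨γ, rfl⟩ := exists_add_of_le hle
      refine Ideal.subset_span ⟨monomial γ 1, ⟨γ, ?_, rfl⟩, X i, ⟨i, hi, rfl⟩, ?_⟩
      · rw [wt_add, wt_single, if_neg hi] at hβ
        simp only [Set.mem_ofPred_eq]
        omega
      · simp [X, monomial_mul, add_comm]

theorem mem_PF_pow {F : Finset (Fin r)} {n : ℕ} {f : MvPolynomial (Fin r) K} :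
    f ∈ PF K F ^ n ↔ ∀ α ∈ f.support, n ≤ wt F α := by
  rw [PF_pow, mem_LF]

theorem mem_PF {F : Finset (Fin r)} {f : MvPolynomial (Fin r) K} :
    f ∈ PF K F ↔ ∀ α ∈ f.support, 1 ≤ wt F α := by
  rw [← pow_one (PF K F), mem_PF_pow]

variable (K) in
/-- The intersection of the `n`-th powers. -/
noncomputable def Q (𝓕 : Finset (Finset (Fin r))) (n : ℕ) : Ideal (MvPolynomial (Fin r) K) :=
  ⨅ F ∈ 𝓕, PF K F ^ n

theorem mem_Q {𝓕 : Finset (Finset (Fin r))} {n : ℕ} {f : MvPolynomial (Fin r) K} :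
    f ∈ Q K 𝓕 n ↔ ∀ F ∈ 𝓕, ∀ α ∈ f.support, n ≤ wt F α := by
  simp only [Q, Submodule.mem_iInf, mem_PF_pow]

/-- The homomorphism to polynomials in `T` multiplying each variable outside `F` by `T`. -/
noncomputable def φ (F : Finset (Fin r)) : MvPolynomial (Fin r) K →+* Polynomial (MvPolynomial (Fin r) K) :=
  eval₂Hom (Polynomial.C.comp C)
    (fun i => if i ∈ F then Polynomial.C (X i) else Polynomial.C (X i) * Polynomial.X)

theorem φ_monomial (F : Finset (Fin r)) (α : Fin r →₀ ℕ) (c : K) :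
    φ F (monomial α c) = Polynomial.monomial (wt F α) (monomial α c) := by
  rw [φ, coe_eval₂Hom, eval₂_monomial]
  have : ∀ i, (if i ∈ F then Polynomial.C (X i) else Polynomial.C (X i) * Polynomial.X :
      Polynomial (MvPolynomial (Fin r) K)) ^ (α i) =
      Polynomial.C (X i ^ α i) * Polynomial.X ^ (if i ∈ F then 0 else α i) := by
    intro i
    split_ifs <;> simp [mul_pow]
  rw [Finsupp.prod_fintype _ _ (by simp)]
  simp_rw [this]
  rw [Finset.prod_mul_distrib, Finset.prod_pow_eq_pow_sum, ← map_prod]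
  rw [← Polynomial.C_mul_X_pow_eq_monomial, monomial_eq, Finsupp.prod_fintype _ _ (by simp)]
  simp [wt, mul_assoc]

theorem mem_PF_pow_iff_dvd {F : Finset (Fin r)} {n : ℕ} {f : MvPolynomial (Fin r) K} :
    f ∈ PF K F ^ n ↔ Polynomial.X ^ n ∣ φ F f := by
  have hφ : φ F f = ∑ α ∈ f.support, Polynomial.monomial (wt F α) (monomial α (coeff α f)) := by
    conv_lhs => rw [f.as_sum, map_sum]
    exact Finset.sum_congr rfl fun α _ => φ_monomial F α _
  rw [mem_PF_pow, Polynomial.X_pow_dvd_iff]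
  constructor
  · intro h d hd
    rw [hφ, Polynomial.finsetSum_coeff]
    refine Finset.sum_eq_zero fun α hα => ?_
    rw [Polynomial.coeff_monomial, if_neg]
    have := h α hα
    omega
  · intro h α hα
    by_contra hlt
    push Not at hlt
    have h1 := h _ hlt
    rw [hφ, Polynomial.finsetSum_coeff] at h1
    have h2 := congrArg (coeff α) h1
    rw [coeff_sum, Finset.sum_eq_single α] at h2
    · rw [Polynomial.coeff_monomial, if_pos rfl, coeff_monomial, if_pos rfl, coeff_zero] at h2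
      exact (mem_support_iff.mp hα) h2
    · intro β _ hβ
      rw [Polynomial.coeff_monomial]
      split_ifs
      · rw [coeff_monomial, if_neg hβ]
      · simp
    · intro h; exact absurd hα h

theorem PF_prime (F : Finset (Fin r)) : (PF K F).IsPrime := by
  have h : PF K F = Ideal.comap (φ F) (Ideal.span {Polynomial.X}) := by
    ext f
    rw [Ideal.mem_comap, Ideal.mem_span_singleton, ← pow_one (PF K F), mem_PF_pow_iff_dvd, pow_one]
  rw [h]
  have : (Ideal.span {(Polynomial.X : Polynomial (MvPolynomial (Fin r) K))}).IsPrime := by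
    rw [Ideal.span_singleton_prime Polynomial.X_ne_zero]
    exact Polynomial.prime_X
  exact Ideal.comap_isPrime _ _

theorem PF_pow_cancel {F : Finset (Fin r)} {n : ℕ} {f g : MvPolynomial (Fin r) K}
    (hf : f ∉ PF K F) (h : f * g ∈ PF K F ^ n) : g ∈ PF K F ^ n := by
  rw [mem_PF_pow_iff_dvd] at h ⊢
  rw [← pow_one (PF K F), mem_PF_pow_iff_dvd, pow_one] at hf
  rw [map_mul] at h
  exact Polynomial.prime_X.pow_dvd_of_dvd_mul_left n hf h

variable (K) in
/-- The square-free monomial ideal whose facets are the members of `𝓕`. -/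
noncomputable def SR (S : Set (Finset (Fin r))) : Ideal (MvPolynomial (Fin r) K) :=
  Ideal.span ((fun s : Finset (Fin r) =>
    MvPolynomial.monomial (∑ i ∈ s, Finsupp.single i 1) (1 : K)) '' S)

theorem monomial_sum_single (s : Finset (Fin r)) :
    (monomial (∑ i ∈ s, Finsupp.single i 1) (1 : K)) = ∏ i ∈ s, X i := by
  classical
  induction s using Finset.induction_on with
  | empty => simp
  | insert a s ha ih =>
    rw [Finset.sum_insert ha, Finset.prod_insert ha, ← ih, X, monomial_mul, one_mul]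

theorem X_mem_PF {F : Finset (Fin r)} {i : Fin r} (hi : i ∉ F) : (X i : MvPolynomial (Fin r) K) ∈ PF K F :=
  Ideal.subset_span ⟨i, hi, rfl⟩

theorem X_mem_PF_iff {F : Finset (Fin r)} {i : Fin r} :
    (X i : MvPolynomial (Fin r) K) ∈ PF K F ↔ i ∉ F := by
  refine ⟨fun h hi => ?_, X_mem_PF⟩
  rw [mem_PF] at h
  have := h (Finsupp.single i 1) (by simp [support_X])
  rw [wt_single, if_pos hi] at this
  omega

theorem SR_le_PF {𝓕 : Finset (Finset (Fin r))} {F : Finset (Fin r)} (hF : F ∈ 𝓕) :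
    SR K {s | ∀ F ∈ 𝓕, ¬ s ⊆ F} ≤ PF K F := by
  rw [SR, Ideal.span_le]
  rintro _ ⟨s, hs, rfl⟩
  have h1 := hs F hF
  rw [Finset.not_subset] at h1
  obtain ⟨i, his, hiF⟩ := h1
  show _ ∈ PF K F
  dsimp only
  rw [monomial_sum_single]
  exact Ideal.mem_of_dvd _ (Finset.dvd_prod_of_mem _ his) (X_mem_PF hiF)

theorem exists_PF_le {𝓕 : Finset (Finset (Fin r))} {P : Ideal (MvPolynomial (Fin r) K)}
    [hP : P.IsPrime] (h : SR K {s | ∀ F ∈ 𝓕, ¬ s ⊆ F} ≤ P) : ∃ F ∈ 𝓕, PF K F ≤ P := by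
  classical
  by_contra hcon
  push Not at hcon
  have h1 : ∀ F ∈ 𝓕, ∃ i : Fin r, i ∉ F ∧ (X i : MvPolynomial (Fin r) K) ∉ P := by
    intro F hF
    by_contra hc
    push Not at hc
    apply hcon F hF
    rw [PF, Ideal.span_le]
    rintro _ ⟨i, hi, rfl⟩
    exact hc i hi
  have h2 : ∀ F : Finset (Fin r), ∃ i : Option (Fin r), F ∈ 𝓕 → ∃ j, i = some j ∧ j ∉ F ∧
      (X j : MvPolynomial (Fin r) K) ∉ P := by
    intro F
    by_cases hF : F ∈ 𝓕
    · obtain ⟨j, hj⟩ := h1 F hF
      exact ⟨some j, fun _ => ⟨j, rfl, hj⟩⟩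
    · exact ⟨none, fun h => absurd h hF⟩
  choose g hg using h2
  set s : Finset (Fin r) := Finset.univ.filter fun j => ∃ F ∈ 𝓕, g F = some j with hs
  have hmem : (monomial (∑ i ∈ s, Finsupp.single i 1) (1 : K)) ∈ P := by
    apply h
    refine Ideal.subset_span ⟨s, ?_, rfl⟩
    intro F hF hsub
    obtain ⟨j, hj, hjF, _⟩ := hg F hF
    exact hjF (hsub (by simp only [hs, Finset.mem_filter, Finset.mem_univ, true_and]; exact ⟨F, hF, hj⟩))
  rw [monomial_sum_single, Ideal.IsPrime.prod_mem_iff] at hmem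
  obtain ⟨j, hj, hjP⟩ := hmem
  simp only [hs, Finset.mem_filter, Finset.mem_univ, true_and] at hj
  obtain ⟨F, hF, hFj⟩ := hj
  obtain ⟨j', hj', _, hjP'⟩ := hg F hF
  rw [hFj, Option.some.injEq] at hj'
  subst hj'
  exact hjP' hjP

theorem PF_le_iff {F G : Finset (Fin r)} : PF K F ≤ PF K G ↔ G ⊆ F := by
  constructor
  · intro h i hi
    by_contra hiF
    exact (X_mem_PF_iff.mp (h (X_mem_PF (K := K) hiF))) hi
  · intro h
    rw [PF, Ideal.span_le]
    rintro _ ⟨i, hi, rfl⟩
    exact X_mem_PF fun hiG => hi (h hiG)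

theorem iInf_minimalPrimes {𝓕 : Finset (Finset (Fin r))}
    (hanti : ∀ F ∈ 𝓕, ∀ G ∈ 𝓕, F ⊆ G → F = G) (n : ℕ) :
    (⨅ P ∈ Ideal.minimalPrimes (SR K {s | ∀ F ∈ 𝓕, ¬ s ⊆ F}), P ^ n) = Q K 𝓕 n := by
  apply le_antisymm
  · refine le_iInf₂ fun F hF => ?_
    refine iInf₂_le_of_le (PF K F) ?_ le_rfl
    refine ⟨⟨PF_prime F, SR_le_PF hF⟩, ?_⟩
    rintro q ⟨hq, hIq⟩ hqF
    have := hq
    obtain ⟨G, hG, hGq⟩ := exists_PF_le hIq
    have h1 : F ⊆ G := PF_le_iff.mp (hGq.trans hqF)
    rw [hanti F hF G hG h1]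
    exact hGq
  · refine le_iInf₂ fun P hP => ?_
    have hprime : P.IsPrime := hP.1.1
    obtain ⟨F, hF, hFP⟩ := exists_PF_le (P := P) hP.1.2
    have h1 : P ≤ PF K F := hP.2 ⟨PF_prime F, SR_le_PF hF⟩ hFP
    have h2 : P = PF K F := le_antisymm h1 hFP
    rw [h2]
    exact iInf₂_le F hF

variable (K r) in
/-- The ideal of the variables. -/
noncomputable def MM : Ideal (MvPolynomial (Fin r) K) :=
  Ideal.span (Set.range (X : Fin r → MvPolynomial (Fin r) K))

theorem reg_iff (I : Ideal (MvPolynomial (Fin r) K)) (f : MvPolynomial (Fin r) K) :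
    IsSMulRegular (MvPolynomial (Fin r) K ⧸ I) f ↔ ∀ x, f * x ∈ I → x ∈ I := by
  rw [isSMulRegular_quotient_iff_mem_of_smul_mem]
  rfl

theorem mem_quotSMulTop (I : Ideal (MvPolynomial (Fin r) K)) (f x : MvPolynomial (Fin r) K) :
    (Submodule.Quotient.mk (Ideal.Quotient.mk I x) : QuotSMulTop f (MvPolynomial (Fin r) K ⧸ I)) = 0
      ↔ ∃ y, x - f * y ∈ I := by
  rw [Submodule.Quotient.mk_eq_zero, Submodule.mem_smul_pointwise_iff_exists]
  constructor
  · rintro ⟨y, _, hy⟩
    obtain ⟨y, rfl⟩ := Ideal.Quotient.mk_surjective y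
    refine ⟨y, ?_⟩
    rw [← Ideal.Quotient.eq, ← hy]
    rfl
  · rintro ⟨y, hy⟩
    refine ⟨Ideal.Quotient.mk I y, trivial, ?_⟩
    rw [← Ideal.Quotient.eq] at hy
    rw [hy]
    rfl

theorem reg_iff₂ (I : Ideal (MvPolynomial (Fin r) K)) (f g : MvPolynomial (Fin r) K) :
    IsSMulRegular (QuotSMulTop f (MvPolynomial (Fin r) K ⧸ I)) g ↔
      ∀ x y, g * x - f * y ∈ I → ∃ z, x - f * z ∈ I := by
  rw [isSMulRegular_iff_right_eq_zero_of_smul]
  constructor
  · intro h x y hxy
    rw [← mem_quotSMulTop]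
    apply h
    have : (g • (Submodule.Quotient.mk (Ideal.Quotient.mk I x) :
        QuotSMulTop f (MvPolynomial (Fin r) K ⧸ I))) =
        Submodule.Quotient.mk (Ideal.Quotient.mk I (g * x)) := rfl
    rw [this, mem_quotSMulTop]
    exact ⟨y, hxy⟩
  · intro h m hm
    obtain ⟨m, rfl⟩ := Submodule.Quotient.mk_surjective _ m
    obtain ⟨x, rfl⟩ := Ideal.Quotient.mk_surjective m
    have : (g • (Submodule.Quotient.mk (Ideal.Quotient.mk I x) :
        QuotSMulTop f (MvPolynomial (Fin r) K ⧸ I))) =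
        Submodule.Quotient.mk (Ideal.Quotient.mk I (g * x)) := rfl
    rw [this, mem_quotSMulTop] at hm
    obtain ⟨y, hy⟩ := hm
    rw [mem_quotSMulTop]
    exact h x y hy

theorem mem_of_coeff {𝓕 : Finset (Finset (Fin r))} {n : ℕ} {f : MvPolynomial (Fin r) K}
    (h : ∀ α, (∃ F ∈ 𝓕, wt F α < n) → coeff α f = 0) : f ∈ Q K 𝓕 n := by
  rw [mem_Q]
  intro F hF α hα
  by_contra hlt
  push Not at hlt
  exact (mem_support_iff.mp hα) (h α ⟨F, hF, hlt⟩)

theorem coeff_of_mem {𝓕 : Finset (Finset (Fin r))} {n : ℕ} {f : MvPolynomial (Fin r) K}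
    (h : f ∈ Q K 𝓕 n) {F : Finset (Fin r)} (hF : F ∈ 𝓕) {α : Fin r →₀ ℕ} (hlt : wt F α < n) :
    coeff α f = 0 := by
  by_contra h0
  have := (mem_Q.mp h) F hF α (mem_support_iff.mpr h0)
  omega

/-- If exactly two disjoint facets are heavy, then there is no regular sequence of length two. -/
theorem no_two {𝓕 : Finset (Finset (Fin r))} {n : ℕ} {A B : Finset (Fin r)} (hAF : A ∈ 𝓕)
    (hBF : B ∈ 𝓕) (hdisj : ∀ i, i ∉ A ∨ i ∉ B) {i j : Fin r} (hi : i ∈ A) (hj : j ∈ B)
    {β : Fin r →₀ ℕ} (hA : wt A β + 1 = n) (hB : wt B β + 1 = n)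
    (hC : ∀ F ∈ 𝓕, F ≠ A → F ≠ B → n ≤ wt F β) {f g : MvPolynomial (Fin r) K}
    (hf : f ∈ MM r K) (hg : g ∈ MM r K) (hfr : ∀ x, f * x ∈ Q K 𝓕 n → x ∈ Q K 𝓕 n)
    (hgr : ∀ x y, g * x - f * y ∈ Q K 𝓕 n → ∃ z, x - f * z ∈ Q K 𝓕 n) : False := by
  classical
  have hAB : A ≠ B := by
    rintro rfl
    rcases hdisj i with h | h <;> exact h hi
  have hsplit : ∀ u ∈ MM r K, ∃ a b, a ∈ Q K (𝓕.erase B) n ∧ b ∈ Q K (𝓕.erase A) n ∧
      a + b = u * monomial β 1 := by
    intro u hu
    have : u * monomial β 1 ∈ Q K (𝓕.erase B) n ⊔ Q K (𝓕.erase A) n := by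
      refine Submodule.span_induction ?_ ?_ ?_ ?_ hu
      · rintro _ ⟨l, rfl⟩
        have hX : (X l * monomial β 1 : MvPolynomial (Fin r) K) =
            monomial (Finsupp.single l 1 + β) 1 := by
          rw [X, monomial_mul, one_mul]
        rw [hX]
        rcases hdisj l with hl | hl
        · apply Ideal.mem_sup_left
          rw [mem_Q]
          intro F hF α hα
          have hα' := Finset.mem_singleton.mp (support_monomial_subset hα)
          subst hα'
          rw [wt_add, wt_single]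
          by_cases hFA : F = A
          · subst hFA
            rw [if_neg hl]
            omega
          · have := hC F (Finset.mem_of_mem_erase hF) hFA (Finset.ne_of_mem_erase hF)
            omega
        · apply Ideal.mem_sup_right
          rw [mem_Q]
          intro F hF α hα
          have hα' := Finset.mem_singleton.mp (support_monomial_subset hα)
          subst hα'
          rw [wt_add, wt_single]
          by_cases hFB : F = B
          · subst hFB
            rw [if_neg hl]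
            omega
          · have := hC F (Finset.mem_of_mem_erase hF) (Finset.ne_of_mem_erase hF) hFB
            omega
      · simp
      · intro x y _ _ hx hy
        rw [add_mul]
        exact Ideal.add_mem _ hx hy
      · intro a x _ hx
        rw [smul_eq_mul, mul_assoc]
        exact Ideal.mul_mem_left _ _ hx
    rw [Submodule.mem_sup] at this
    obtain ⟨a, ha, b, hb, hab⟩ := this
    exact ⟨a, b, ha, hb, hab⟩
  have hQ : ∀ {G : Finset (Finset (Fin r))} {x : MvPolynomial (Fin r) K},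
      x ∈ Q K G n ↔ ∀ F ∈ G, x ∈ PF K F ^ n := by
    intro G x
    simp only [Q, Submodule.mem_iInf]
  obtain ⟨af, bf, haf, hbf, hfeq⟩ := hsplit f hf
  obtain ⟨ag, bg, hag, hbg, hgeq⟩ := hsplit g hg
  have h1 : g * bf - f * bg ∈ Q K 𝓕 n := by
    rw [hQ]
    intro F hF
    by_cases hFA : F = A
    · have h2 : g * bf - f * bg = f * ag - g * af := by
        have e1 : bf = f * monomial β 1 - af := by rw [← hfeq]; ring
        have e2 : bg = g * monomial β 1 - ag := by rw [← hgeq]; ring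
        rw [e1, e2]; ring
      rw [h2, hFA]
      have hAe : A ∈ 𝓕.erase B := Finset.mem_erase.mpr ⟨hAB, hAF⟩
      exact Ideal.sub_mem _ (Ideal.mul_mem_left _ _ (hQ.mp hag A hAe))
        (Ideal.mul_mem_left _ _ (hQ.mp haf A hAe))
    · have hFe : F ∈ 𝓕.erase A := Finset.mem_erase.mpr ⟨hFA, hF⟩
      exact Ideal.sub_mem _ (Ideal.mul_mem_left _ _ (hQ.mp hbf F hFe))
        (Ideal.mul_mem_left _ _ (hQ.mp hbg F hFe))
  obtain ⟨w, hw⟩ := hgr bf bg h1
  have hQle : Q K 𝓕 n ≤ Q K (𝓕.erase A) n := by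
    intro x hx
    rw [hQ] at hx ⊢
    exact fun F hF => hx F (Finset.mem_of_mem_erase hF)
  have hQle' : Q K 𝓕 n ≤ Q K (𝓕.erase B) n := by
    intro x hx
    rw [hQ] at hx ⊢
    exact fun F hF => hx F (Finset.mem_of_mem_erase hF)
  have hfw : f * w ∈ Q K (𝓕.erase A) n := by
    have : f * w = bf - (bf - f * w) := by ring
    rw [this]
    exact Ideal.sub_mem _ hbf (hQle hw)
  have hfw' : f * (monomial β 1 - w) ∈ Q K (𝓕.erase B) n := by
    have : f * (monomial β 1 - w) = af + (bf - f * w) := by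
      rw [mul_sub, ← hfeq]; ring
    rw [this]
    exact Ideal.add_mem _ haf (hQle' hw)
  have hjA : j ∉ A := (hdisj j).resolve_right (fun h => h hj)
  have hiB : i ∉ B := (hdisj i).resolve_left (fun h => h hi)
  have hwB : w ∈ PF K B ^ n := by
    have h3 : X j ^ n * w ∈ Q K 𝓕 n := by
      apply hfr
      rw [hQ]
      intro F hF
      by_cases hFA : F = A
      · rw [hFA]
        have : (X j : MvPolynomial (Fin r) K) ^ n ∈ PF K A ^ n :=
          Ideal.pow_mem_pow (X_mem_PF hjA) n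
        have e : f * (X j ^ n * w) = (f * w) * X j ^ n := by ring
        rw [e]
        exact Ideal.mul_mem_left _ _ this
      · have hFe : F ∈ 𝓕.erase A := Finset.mem_erase.mpr ⟨hFA, hF⟩
        have e : f * (X j ^ n * w) = X j ^ n * (f * w) := by ring
        rw [e]
        exact Ideal.mul_mem_left _ _ (hQ.mp hfw F hFe)
    refine PF_pow_cancel (f := X j ^ n) ?_ (hQ.mp h3 B hBF)
    intro h
    have := (PF_prime (K := K) B).mem_of_pow_mem n h
    exact (X_mem_PF_iff.mp this) hj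
  have hwA : monomial β 1 - w ∈ PF K A ^ n := by
    have h3 : X i ^ n * (monomial β 1 - w) ∈ Q K 𝓕 n := by
      apply hfr
      rw [hQ]
      intro F hF
      by_cases hFB : F = B
      · rw [hFB]
        have : (X i : MvPolynomial (Fin r) K) ^ n ∈ PF K B ^ n :=
          Ideal.pow_mem_pow (X_mem_PF hiB) n
        have e : f * (X i ^ n * (monomial β 1 - w)) = (f * (monomial β 1 - w)) * X i ^ n := by ring
        rw [e]
        exact Ideal.mul_mem_left _ _ this
      · have hFe : F ∈ 𝓕.erase B := Finset.mem_erase.mpr ⟨hFB, hF⟩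
        have e : f * (X i ^ n * (monomial β 1 - w)) = X i ^ n * (f * (monomial β 1 - w)) := by ring
        rw [e]
        exact Ideal.mul_mem_left _ _ (hQ.mp hfw' F hFe)
    refine PF_pow_cancel (f := X i ^ n) ?_ (hQ.mp h3 A hAF)
    intro h
    have := (PF_prime (K := K) A).mem_of_pow_mem n h
    exact (X_mem_PF_iff.mp this) hi
  rw [mem_PF_pow] at hwB hwA
  have h4 : coeff β w = 0 := by
    by_contra h0
    have := hwB β (mem_support_iff.mpr h0)
    omega
  have h5 : coeff β (monomial β 1 - w : MvPolynomial (Fin r) K) = 0 := by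
    by_contra h0
    have := hwA β (mem_support_iff.mpr h0)
    omega
  rw [coeff_sub, coeff_monomial, if_pos rfl, h4, sub_zero] at h5
  exact one_ne_zero h5

theorem reg_of_notMem {𝓕 : Finset (Finset (Fin r))} {n : ℕ} {f : MvPolynomial (Fin r) K}
    (hf : ∀ F ∈ 𝓕, f ∉ PF K F) : ∀ x, f * x ∈ Q K 𝓕 n → x ∈ Q K 𝓕 n := by
  intro x hx
  simp only [Q, Submodule.mem_iInf] at hx ⊢
  exact fun F hF => PF_pow_cancel (hf F hF) (hx F hF)

theorem sumX_notMem {F : Finset (Fin r)} (hF : F.Nonempty) :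
    (∑ i, X i : MvPolynomial (Fin r) K) ∉ PF K F := by
  classical
  obtain ⟨i, hi⟩ := hF
  intro h
  rw [mem_PF] at h
  have h1 : coeff (Finsupp.single i 1) (∑ i, X i : MvPolynomial (Fin r) K) = 1 := by
    rw [coeff_sum, Finset.sum_eq_single i]
    · simp
    · intro b _ hb
      rw [coeff_X, if_neg]
      intro h
      exact hb (Finsupp.single_left_injective one_ne_zero h)
    · simp
  have h2 := h (Finsupp.single i 1) (mem_support_iff.mpr (by rw [h1]; exact one_ne_zero))
  rw [wt_single, if_pos hi] at h2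
  omega

theorem coeff_X_mul_add (i : Fin r) (α : Fin r →₀ ℕ) (p : MvPolynomial (Fin r) K) :
    coeff (α + Finsupp.single i 1) (X i * p) = coeff α p := by
  rw [add_comm, coeff_X_mul]

/-- The Koszul style argument: connectedness gives vanishing. -/
theorem socle_free {𝓕 : Finset (Finset (Fin r))} {n : ℕ}
    (hcard : ∀ F ∈ 𝓕, 2 ≤ F.card)
    (hconn : ∀ (α : Fin r →₀ ℕ) (c : Fin r → K),
      (∀ a b, (∃ F ∈ 𝓕, wt F (α + Finsupp.single a 1 + Finsupp.single b 1) < n) → c a = c b) →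
      ∃ c0, ∀ i, (∃ F ∈ 𝓕, wt F (α + Finsupp.single i 1) < n) → c i = c0)
    {f : MvPolynomial (Fin r) K} (hf : ∀ x, f * x ∈ Q K 𝓕 n → x ∈ Q K 𝓕 n)
    {h : MvPolynomial (Fin r) K} {w : Fin r → MvPolynomial (Fin r) K}
    (hw : ∀ i, X i * h - f * w i ∈ Q K 𝓕 n) : ∃ z, h - f * z ∈ Q K 𝓕 n := by
  classical
  have h1 : ∀ i j, X j * w i - X i * w j ∈ Q K 𝓕 n := by
    intro i j
    apply hf
    have : f * (X j * w i - X i * w j) =
        X i * (X j * h - f * w j) - X j * (X i * h - f * w i) := by ring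
    rw [this]
    exact Ideal.sub_mem _ (Ideal.mul_mem_left _ _ (hw j)) (Ideal.mul_mem_left _ _ (hw i))
  have h2 : ∀ α : Fin r →₀ ℕ, ∃ c0 : K, ∀ i, (∃ F ∈ 𝓕, wt F (α + Finsupp.single i 1) < n) →
      coeff (α + Finsupp.single i 1) (w i) = c0 := by
    intro α
    apply hconn α (fun i => coeff (α + Finsupp.single i 1) (w i))
    rintro a b ⟨F, hF, hlt⟩
    have := coeff_of_mem (h1 a b) hF hlt
    rw [coeff_sub] at this
    rw [coeff_X_mul_add] at this
    rw [add_assoc, add_comm (Finsupp.single a 1), ← add_assoc, coeff_X_mul_add] at this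
    exact sub_eq_zero.mp this
  choose c0 hc0 using h2
  set S : Finset (Fin r →₀ ℕ) := Finset.univ.biUnion fun i : Fin r =>
    (w i).support.image fun β => β - Finsupp.single i 1 with hS
  set z : MvPolynomial (Fin r) K := ∑ α ∈ S, monomial α (c0 α) with hz
  have hzc : ∀ α, coeff α z = if α ∈ S then c0 α else 0 := by
    intro α
    rw [hz, coeff_sum]
    simp only [coeff_monomial]
    rw [Finset.sum_ite_eq' S α]
  have h3 : ∀ i, w i - X i * z ∈ Q K 𝓕 n := by
    intro i
    apply mem_of_coeff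
    rintro β ⟨F, hF, hlt⟩
    rw [coeff_sub]
    by_cases hβ : β i = 0
    · have e1 : coeff β (X i * z) = 0 := by
        rw [coeff_X_mul', if_neg]
        rw [Finsupp.mem_support_iff, not_not]
        exact hβ
      obtain ⟨j, hj, hji⟩ := Finset.exists_mem_ne (hcard F hF) i
      have e2 := coeff_of_mem (h1 i j) hF (α := β + Finsupp.single j 1)
        (by rw [wt_add, wt_single, if_pos hj]; exact hlt)
      rw [coeff_sub, coeff_X_mul_add, coeff_X_mul', if_neg, sub_zero] at e2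
      · rw [e1, e2, sub_zero]
      · rw [Finsupp.mem_support_iff, not_not]
        simp [hβ, hji]
    · have hle : Finsupp.single i 1 ≤ β := by
        rw [Finsupp.single_le_iff]; omega
      obtain ⟨γ, rfl⟩ := exists_add_of_le hle
      rw [add_comm] at hlt ⊢
      rw [coeff_X_mul_add, hzc]
      split_ifs with hγ
      · rw [hc0 γ i ⟨F, hF, hlt⟩, sub_self]
      · rw [sub_zero]
        by_contra h0
        apply hγ
        rw [hS, Finset.mem_biUnion]
        refine ⟨i, Finset.mem_univ _, Finset.mem_image.mpr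
          ⟨γ + Finsupp.single i 1, mem_support_iff.mpr h0, ?_⟩⟩
        ext x; simp
  refine ⟨z, ?_⟩
  have h4 : ∀ i, X i * (h - f * z) ∈ Q K 𝓕 n := by
    intro i
    have : X i * (h - f * z) = (X i * h - f * w i) + f * (w i - X i * z) := by ring
    rw [this]
    exact Ideal.add_mem _ (hw i) (Ideal.mul_mem_left _ _ (h3 i))
  apply mem_of_coeff
  rintro α ⟨F, hF, hlt⟩
  have hFc := hcard F hF
  obtain ⟨i, hi⟩ : F.Nonempty := by rw [← Finset.card_pos]; omega
  have := coeff_of_mem (h4 i) hF (α := α + Finsupp.single i 1)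
    (by rw [wt_add, wt_single, if_pos hi]; exact hlt)
  rwa [coeff_X_mul_add] at this

theorem MM_ne_top : MM r K ≠ ⊤ := by
  intro h
  have h1 : (1 : MvPolynomial (Fin r) K) ∈ MM r K := by rw [h]; trivial
  have h2 : MM r K ≤ RingHom.ker (constantCoeff : MvPolynomial (Fin r) K →+* K) := by
    rw [MM, Ideal.span_le]
    rintro _ ⟨i, rfl⟩
    simp [RingHom.mem_ker]
  have := h2 h1
  rw [RingHom.mem_ker, map_one] at this
  exact one_ne_zero this

theorem Q_le_MM {𝓕 : Finset (Finset (Fin r))} (hne : 𝓕.Nonempty) {n : ℕ} (hn : 1 ≤ n) :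
    Q K 𝓕 n ≤ MM r K := by
  obtain ⟨F, hF⟩ := hne
  refine (iInf₂_le F hF).trans ((Ideal.pow_le_self (by omega)).trans ?_)
  rw [PF, MM, Ideal.span_le]
  rintro _ ⟨i, _, rfl⟩
  exact Ideal.subset_span ⟨i, rfl⟩

theorem isRegular_of_weakly {I : Ideal (MvPolynomial (Fin r) K)} (hI : I ≤ MM r K)
    {rs : List (MvPolynomial (Fin r) K)} (hrs : ∀ x ∈ rs, x ∈ MM r K)
    (h : RingTheory.Sequence.IsWeaklyRegular (MvPolynomial (Fin r) K ⧸ I) rs) :
    RingTheory.Sequence.IsRegular (MvPolynomial (Fin r) K ⧸ I) rs := by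
  refine ⟨h, fun htop => ?_⟩
  have h1 : (Ideal.Quotient.mk I 1) ∈ (Ideal.ofList rs • ⊤ :
      Submodule (MvPolynomial (Fin r) K) (MvPolynomial (Fin r) K ⧸ I)) := by
    rw [← htop]; trivial
  have h2 : (Ideal.ofList rs • ⊤ :
      Submodule (MvPolynomial (Fin r) K) (MvPolynomial (Fin r) K ⧸ I)) ≤
      Submodule.map (Submodule.mkQ I) (MM r K) := by
    rw [Submodule.smul_le]
    intro a ha x _
    obtain ⟨y, rfl⟩ := Submodule.mkQ_surjective I x
    refine ⟨a * y, ?_, rfl⟩
    have ha' : a ∈ MM r K := by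
      have : Ideal.ofList rs ≤ MM r K := by
        rw [Ideal.ofList, Ideal.span_le]
        intro x hx
        exact hrs x hx
      exact this ha
    exact Ideal.mul_mem_right _ _ ha'
  obtain ⟨y, hy, hy1⟩ := h2 h1
  have h3 : y - 1 ∈ I := by
    rw [← Ideal.Quotient.eq]
    exact hy1
  have h4 : (1 : MvPolynomial (Fin r) K) ∈ MM r K := by
    have : (1 : MvPolynomial (Fin r) K) = y - (y - 1) := by ring
    rw [this]
    exact Ideal.sub_mem _ hy (hI h3)
  exact MM_ne_top ((Ideal.eq_top_iff_one _).mpr h4)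

/-- Connectedness gives a regular sequence of length two. -/
theorem two_exists {𝓕 : Finset (Finset (Fin r))} {n : ℕ} (hn : 1 ≤ n) (hne : 𝓕.Nonempty)
    (hcard : ∀ F ∈ 𝓕, 2 ≤ F.card)
    (hconn : ∀ (α : Fin r →₀ ℕ) (c : Fin r → K),
      (∀ a b, (∃ F ∈ 𝓕, wt F (α + Finsupp.single a 1 + Finsupp.single b 1) < n) → c a = c b) →
      ∃ c0, ∀ i, (∃ F ∈ 𝓕, wt F (α + Finsupp.single i 1) < n) → c i = c0) :
    ∃ rs : List (MvPolynomial (Fin r) K), rs.length = 2 ∧ (∀ x ∈ rs, x ∈ MM r K) ∧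
      RingTheory.Sequence.IsRegular (MvPolynomial (Fin r) K ⧸ Q K 𝓕 n) rs := by
  set f : MvPolynomial (Fin r) K := ∑ i, X i with hfdef
  have hfMM : f ∈ MM r K := Ideal.sum_mem _ fun i _ => Ideal.subset_span ⟨i, rfl⟩
  have hf : ∀ x, f * x ∈ Q K 𝓕 n → x ∈ Q K 𝓕 n := reg_of_notMem fun F hF =>
    sumX_notMem (Finset.card_pos.mp (by have := hcard F hF; omega))
  have key : ∀ y : QuotSMulTop f (MvPolynomial (Fin r) K ⧸ Q K 𝓕 n),
      (∀ i : Fin r, (X i : MvPolynomial (Fin r) K) • y = 0) → y = 0 := by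
    intro y hy
    obtain ⟨y, rfl⟩ := Submodule.mkQ_surjective _ y
    obtain ⟨h, rfl⟩ := Ideal.Quotient.mk_surjective y
    have h1 : ∀ i : Fin r, ∃ w, X i * h - f * w ∈ Q K 𝓕 n := by
      intro i
      have h2 := hy i
      have h3 : ((X i : MvPolynomial (Fin r) K) •
          (Submodule.mkQ _ (Ideal.Quotient.mk (Q K 𝓕 n) h) :
          QuotSMulTop f (MvPolynomial (Fin r) K ⧸ Q K 𝓕 n))) =
          Submodule.Quotient.mk (Ideal.Quotient.mk (Q K 𝓕 n) (X i * h)) := rfl
      rw [h3] at h2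
      exact (mem_quotSMulTop _ _ _).mp h2
    choose w hw using h1
    exact (mem_quotSMulTop _ _ _).mpr (socle_free hcard hconn hf hw)
  have hsub : Subsingleton ((MvPolynomial (Fin r) K ⧸ MM r K) →ₗ[MvPolynomial (Fin r) K]
      QuotSMulTop f (MvPolynomial (Fin r) K ⧸ Q K 𝓕 n)) := by
    refine ⟨fun φ ψ => ?_⟩
    have h0 : ∀ φ : (MvPolynomial (Fin r) K ⧸ MM r K) →ₗ[MvPolynomial (Fin r) K]
        QuotSMulTop f (MvPolynomial (Fin r) K ⧸ Q K 𝓕 n), φ = 0 := by
      intro φ
      have h1 : φ (Ideal.Quotient.mk _ 1) = 0 := by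
        apply key
        intro i
        rw [← map_smul]
        have : (X i : MvPolynomial (Fin r) K) • (Ideal.Quotient.mk (MM r K) 1) = 0 := by
          have h3 : (X i : MvPolynomial (Fin r) K) • (Ideal.Quotient.mk (MM r K) 1) =
            Ideal.Quotient.mk (MM r K) (X i * 1) := rfl
          rw [h3, mul_one, Ideal.Quotient.eq_zero_iff_mem]
          exact Ideal.subset_span ⟨i, rfl⟩
        rw [this, map_zero]
      ext
      simpa using h1
    rw [h0 φ, h0 ψ]
  obtain ⟨g, hg, hgr⟩ := IsSMulRegular.subsingleton_linearMap_iff.mp hsub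
  rw [Ideal.annihilator_quotient] at hg
  have hmem : ∀ x ∈ [f, g], x ∈ MM r K := by
    intro x hx
    simp only [List.mem_cons, List.not_mem_nil, or_false] at hx
    rcases hx with rfl | rfl
    · exact hfMM
    · exact hg
  refine ⟨[f, g], rfl, hmem, isRegular_of_weakly (Q_le_MM hne hn) hmem ?_⟩
  rw [RingTheory.Sequence.isWeaklyRegular_cons_iff,
    RingTheory.Sequence.isWeaklyRegular_singleton_iff]
  exact ⟨(reg_iff _ _).mpr hf, hgr⟩

end general

section example_family

/-- The vertex with number `x`. -/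
def vt (k x : ℕ) (h : x < 3 * (k + 1)) : Fin (3 * (k + 1)) := ⟨x, h⟩

/-- First facet. -/
def FA (k : ℕ) : Finset (Fin (3 * (k + 1))) := Finset.univ.filter fun x => x.val % 3 = 0

/-- Second facet. -/
def FB (k : ℕ) : Finset (Fin (3 * (k + 1))) :=
  Finset.univ.filter fun x => x.val % 3 ≠ 0 ∧ x.val ≠ 3 * k + 2

/-- Facets of the third kind. -/
def C1 (k i : ℕ) : Finset (Fin (3 * (k + 1))) :=
  Finset.univ.filter fun x =>
    (x.val % 3 = 0 ∧ x.val ≠ 3 * (i + 1)) ∨ x.val = 3 * i + 1 ∨ x.val = 3 * i + 2 ∨ x.val = 3 * k + 2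

/-- Facets of the fourth kind. -/
def C2 (k i : ℕ) : Finset (Fin (3 * (k + 1))) :=
  Finset.univ.filter fun x => x.val = 3 * i ∨ (x.val % 3 ≠ 0 ∧ x.val ≠ 3 * i + 1)

/-- Facets of the fifth kind. -/
def C3 (k i : ℕ) : Finset (Fin (3 * (k + 1))) :=
  Finset.univ.filter fun x => x.val = 3 * i ∨ (x.val % 3 ≠ 0 ∧ x.val ≠ 3 * i + 2)

/-- All facets of the third to fifth kind. -/
def CC (k : ℕ) : Finset (Finset (Fin (3 * (k + 1)))) :=
  (Finset.range k).image (C1 k) ∪ (Finset.range k).image (C2 k) ∪ (Finset.range k).image (C3 k)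

/-- All facets. -/
def FF (k : ℕ) : Finset (Finset (Fin (3 * (k + 1)))) := {FA k, FB k} ∪ CC k

theorem mem_CC {k : ℕ} {F : Finset (Fin (3 * (k + 1)))} :
    F ∈ CC k ↔ ∃ i, i < k ∧ (F = C1 k i ∨ F = C2 k i ∨ F = C3 k i) := by
  simp only [CC, Finset.mem_union, Finset.mem_image, Finset.mem_range]
  constructor
  · rintro ((⟨i, hi, rfl⟩ | ⟨i, hi, rfl⟩) | ⟨i, hi, rfl⟩)
    · exact ⟨i, hi, Or.inl rfl⟩
    · exact ⟨i, hi, Or.inr (Or.inl rfl)⟩
    · exact ⟨i, hi, Or.inr (Or.inr rfl)⟩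
  · rintro ⟨i, hi, rfl | rfl | rfl⟩
    · exact Or.inl (Or.inl ⟨i, hi, rfl⟩)
    · exact Or.inl (Or.inr ⟨i, hi, rfl⟩)
    · exact Or.inr ⟨i, hi, rfl⟩

theorem mem_FF {k : ℕ} {F : Finset (Fin (3 * (k + 1)))} :
    F ∈ FF k ↔ F = FA k ∨ F = FB k ∨ F ∈ CC k := by
  simp only [FF, Finset.mem_union, Finset.mem_insert, Finset.mem_singleton, or_assoc]

theorem mem_FA {k : ℕ} {x : Fin (3 * (k + 1))} : x ∈ FA k ↔ x.val % 3 = 0 := by simp [FA]

theorem mem_FB {k : ℕ} {x : Fin (3 * (k + 1))} :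
    x ∈ FB k ↔ x.val % 3 ≠ 0 ∧ x.val ≠ 3 * k + 2 := by simp [FB]

theorem mem_C1 {k i : ℕ} {x : Fin (3 * (k + 1))} : x ∈ C1 k i ↔
    (x.val % 3 = 0 ∧ x.val ≠ 3 * (i + 1)) ∨ x.val = 3 * i + 1 ∨ x.val = 3 * i + 2 ∨
      x.val = 3 * k + 2 := by simp [C1]

theorem mem_C2 {k i : ℕ} {x : Fin (3 * (k + 1))} : x ∈ C2 k i ↔
    x.val = 3 * i ∨ (x.val % 3 ≠ 0 ∧ x.val ≠ 3 * i + 1) := by simp [C2]

theorem mem_C3 {k i : ℕ} {x : Fin (3 * (k + 1))} : x ∈ C3 k i ↔
    x.val = 3 * i ∨ (x.val % 3 ≠ 0 ∧ x.val ≠ 3 * i + 2) := by simp [C3]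

theorem anti (k : ℕ) (hk : 2 ≤ k) : ∀ F ∈ FF k, ∀ G ∈ FF k, F ⊆ G → F = G := by
  intro F hF G hG hsub
  have h : ∀ (x : ℕ) (hx : x < 3 * (k + 1)), (⟨x, hx⟩ : Fin (3 * (k + 1))) ∈ F →
      (⟨x, hx⟩ : Fin (3 * (k + 1))) ∈ G := fun x hx h => hsub h
  rw [mem_FF, mem_CC] at hF hG
  rcases hF with rfl | rfl | ⟨i, hi, rfl | rfl | rfl⟩ <;>
  rcases hG with rfl | rfl | ⟨j, hj, rfl | rfl | rfl⟩ <;>
  simp only [mem_FA, mem_FB, mem_C1, mem_C2, mem_C3] at h
  -- A
  · rfl
  · have := h 0 (by omega); omega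
  · have := h (3 * (j + 1)) (by omega); omega
  · have := h (3 * (j + 1)) (by omega); omega
  · have := h (3 * (j + 1)) (by omega); omega
  -- B
  · have := h 1 (by omega); omega
  · rfl
  · have := h (3 * k + 1) (by omega); omega
  · have := h (3 * j + 1) (by omega); omega
  · have := h (3 * j + 2) (by omega); omega
  -- C1
  · have := h (3 * k + 2) (by omega); omega
  · have := h (3 * k + 2) (by omega); omega
  · have := h (3 * i + 1) (by omega)
    have hij : i = j := by omega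
    rw [hij]
  · have h0 := h 0 (by omega)
    have h1 := h 3 (by omega)
    have h2 := h 6 (by omega)
    omega
  · have h0 := h 0 (by omega)
    have h1 := h 3 (by omega)
    have h2 := h 6 (by omega)
    omega
  -- C2
  · have := h (3 * k + 2) (by omega); omega
  · have := h (3 * k + 2) (by omega); omega
  · have := h (3 * k + 1) (by omega); omega
  · have := h (3 * i) (by omega)
    have hij : i = j := by omega
    rw [hij]
  · have h0 := h (3 * i) (by omega)
    have h1 := h (3 * i + 2) (by omega)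
    omega
  -- C3
  · have := h (3 * k + 2) (by omega); omega
  · have := h (3 * k + 2) (by omega); omega
  · have := h (3 * k + 1) (by omega); omega
  · have h0 := h (3 * i) (by omega)
    have h1 := h (3 * i + 1) (by omega)
    omega
  · have := h (3 * i) (by omega)
    have hij : i = j := by omega
    rw [hij]

theorem card_FF (k : ℕ) (hk : 2 ≤ k) : ∀ F ∈ FF k, 2 ≤ F.card := by
  intro F hF
  have key : ∀ (x y : ℕ) (hx : x < 3 * (k + 1)) (hy : y < 3 * (k + 1)), x ≠ y →
      (⟨x, hx⟩ : Fin (3 * (k + 1))) ∈ F → (⟨y, hy⟩ : Fin (3 * (k + 1))) ∈ F → 2 ≤ F.card := by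
    intro x y hx hy hxy h1 h2
    exact Finset.one_lt_card.mpr ⟨_, h1, _, h2, fun h => hxy (congrArg Fin.val h)⟩
  rw [mem_FF, mem_CC] at hF
  rcases hF with rfl | rfl | ⟨i, hi, rfl | rfl | rfl⟩ <;>
  simp only [mem_FA, mem_FB, mem_C1, mem_C2, mem_C3] at key
  · exact key 0 3 (by omega) (by omega) (by omega) (by omega) (by omega)
  · exact key 1 2 (by omega) (by omega) (by omega) (by omega) (by omega)
  · exact key (3 * i + 1) (3 * i + 2) (by omega) (by omega) (by omega) (by omega) (by omega)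
  · exact key (3 * i) (3 * k + 2) (by omega) (by omega) (by omega) (by omega) (by omega)
  · exact key (3 * i) (3 * k + 2) (by omega) (by omega) (by omega) (by omega) (by omega)

/-- Every facet meets every facet of the third to fifth kind. -/
theorem meet (k : ℕ) (hk : 2 ≤ k) {F C : Finset (Fin (3 * (k + 1)))} (hF : F ∈ FF k)
    (hC : C ∈ CC k) : ∃ x, x ∈ F ∧ x ∈ C := by
  have key : ∀ (x : ℕ) (hx : x < 3 * (k + 1)),
      (⟨x, hx⟩ : Fin (3 * (k + 1))) ∈ F → (⟨x, hx⟩ : Fin (3 * (k + 1))) ∈ C →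
      ∃ x, x ∈ F ∧ x ∈ C := fun x hx h1 h2 => ⟨_, h1, h2⟩
  rw [mem_FF, mem_CC] at hF
  rw [mem_CC] at hC
  rcases hF with rfl | rfl | ⟨i, hi, rfl | rfl | rfl⟩ <;>
  rcases hC with ⟨j, hj, rfl | rfl | rfl⟩ <;>
  simp only [mem_FA, mem_FB, mem_C1, mem_C2, mem_C3] at key ⊢
  · exact key 0 (by omega) (by omega) (by omega)
  · exact key (3 * j) (by omega) (by omega) (by omega)
  · exact key (3 * j) (by omega) (by omega) (by omega)
  · exact key (3 * j + 1) (by omega) (by omega) (by omega)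
  · exact key (3 * j + 2) (by omega) (by omega) (by omega)
  · exact key (3 * j + 1) (by omega) (by omega) (by omega)
  all_goals exact key (3 * k + 2) (by omega) (by omega) (by omega)

theorem top_mem {k : ℕ} {C : Finset (Fin (3 * (k + 1)))} (hC : C ∈ CC k) :
    (⟨3 * k + 2, by omega⟩ : Fin (3 * (k + 1))) ∈ C := by
  rw [mem_CC] at hC
  rcases hC with ⟨j, hj, rfl | rfl | rfl⟩
  · exact mem_C1.mpr (Or.inr (Or.inr (Or.inr rfl)))
  · have h1 : (3 * k + 2) % 3 ≠ 0 := by omega
    have h2 : (3 * k + 2) ≠ 3 * j + 1 := by omega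
    exact mem_C2.mpr (Or.inr ⟨h1, h2⟩)
  · have h1 : (3 * k + 2) % 3 ≠ 0 := by omega
    have h2 : (3 * k + 2) ≠ 3 * j + 2 := by omega
    exact mem_C3.mpr (Or.inr ⟨h1, h2⟩)

theorem sum_single (r : ℕ) (α : Fin r →₀ ℕ) (p : Fin r) :
    ∑ x : Fin r, (if x = p then α x else 0) = α p := by
  rw [Finset.sum_ite_eq' Finset.univ p, if_pos (Finset.mem_univ _)]

theorem id1 {k i : ℕ} (hi : i < k) (α : Fin (3 * (k + 1)) →₀ ℕ) :
    wt (C1 k i) α + α ⟨3 * i + 1, by omega⟩ + α ⟨3 * i + 2, by omega⟩ + α ⟨3 * k + 2, by omega⟩ =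
      wt (FA k) α + α ⟨3 * (i + 1), by omega⟩ := by
  rw [← sum_single _ α ⟨3 * i + 1, by omega⟩, ← sum_single _ α ⟨3 * i + 2, by omega⟩,
    ← sum_single _ α ⟨3 * k + 2, by omega⟩, ← sum_single _ α ⟨3 * (i + 1), by omega⟩, wt, wt,
    ← Finset.sum_add_distrib, ← Finset.sum_add_distrib, ← Finset.sum_add_distrib,
    ← Finset.sum_add_distrib]
  refine Finset.sum_congr rfl fun x _ => ?_
  simp only [mem_C1, mem_FA, Fin.ext_iff]
  split_ifs <;> omega

theorem id2 {k i : ℕ} (hi : i < k) (α : Fin (3 * (k + 1)) →₀ ℕ) :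
    wt (C2 k i) α + α ⟨3 * i, by omega⟩ + α ⟨3 * k + 2, by omega⟩ =
      wt (FB k) α + α ⟨3 * i + 1, by omega⟩ := by
  rw [← sum_single _ α ⟨3 * i + 1, by omega⟩, ← sum_single _ α ⟨3 * i, by omega⟩,
    ← sum_single _ α ⟨3 * k + 2, by omega⟩, wt, wt,
    ← Finset.sum_add_distrib, ← Finset.sum_add_distrib, ← Finset.sum_add_distrib]
  refine Finset.sum_congr rfl fun x _ => ?_
  simp only [mem_C2, mem_FB, Fin.ext_iff]
  split_ifs <;> omega

theorem id3 {k i : ℕ} (hi : i < k) (α : Fin (3 * (k + 1)) →₀ ℕ) :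
    wt (C3 k i) α + α ⟨3 * i, by omega⟩ + α ⟨3 * k + 2, by omega⟩ =
      wt (FB k) α + α ⟨3 * i + 2, by omega⟩ := by
  rw [← sum_single _ α ⟨3 * i + 2, by omega⟩, ← sum_single _ α ⟨3 * i, by omega⟩,
    ← sum_single _ α ⟨3 * k + 2, by omega⟩, wt, wt,
    ← Finset.sum_add_distrib, ← Finset.sum_add_distrib, ← Finset.sum_add_distrib]
  refine Finset.sum_congr rfl fun x _ => ?_
  simp only [mem_C3, mem_FB, Fin.ext_iff]
  split_ifs <;> omega

theorem growth {k n : ℕ} {α : Fin (3 * (k + 1)) →₀ ℕ} (hA : wt (FA k) α < n)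
    (hB : wt (FB k) α < n) (hC : ∀ C ∈ CC k, n ≤ wt C α) : 2 ^ k ≤ n := by
  have h : ∀ i (hi : i ≤ k), 2 ^ i ≤ α ⟨3 * i, by omega⟩ + 1 := by
    intro i
    induction i with
    | zero => intro _; simp
    | succ i ih =>
      intro hi
      have hik : i < k := by omega
      have h1 := id1 hik α
      have h2 := id2 hik α
      have h3 := id3 hik α
      have c1 := hC (C1 k i) (mem_CC.mpr ⟨i, hik, Or.inl rfl⟩)
      have c2 := hC (C2 k i) (mem_CC.mpr ⟨i, hik, Or.inr (Or.inl rfl)⟩)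
      have c3 := hC (C3 k i) (mem_CC.mpr ⟨i, hik, Or.inr (Or.inr rfl)⟩)
      have h4 := ih (by omega)
      rw [pow_succ]
      omega
  have h1 := h k le_rfl
  have h2 : α ⟨3 * k, by omega⟩ ≤ wt (FB k) α := by
    have : α ⟨3 * k, by omega⟩ = (fun i => if i ∈ FB k then 0 else α i) ⟨3 * k, by omega⟩ := by
      have : (⟨3 * k, by omega⟩ : Fin (3 * (k + 1))) ∉ FB k := by
        rw [mem_FB]; simp
      simp [this]
    rw [this]
    exact Finset.single_le_sum (f := fun i => if i ∈ FB k then 0 else α i)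
      (fun _ _ => Nat.zero_le _) (Finset.mem_univ _)
  omega

theorem conn {K : Type} [Field K] {k n : ℕ} (hk : 2 ≤ k) (hn : n < 2 ^ k)
    (α : Fin (3 * (k + 1)) →₀ ℕ) (c : Fin (3 * (k + 1)) → K)
    (hc : ∀ a b, (∃ F ∈ FF k, wt F (α + Finsupp.single a 1 + Finsupp.single b 1) < n) →
      c a = c b) :
    ∃ c0, ∀ i, (∃ F ∈ FF k, wt F (α + Finsupp.single i 1) < n) → c i = c0 := by
  have hin : ∀ F ∈ FF k, wt F α < n → ∀ a ∈ F, ∀ b ∈ F, c a = c b := by
    intro F hF hlt a ha b hb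
    apply hc
    refine ⟨F, hF, ?_⟩
    rw [wt_add, wt_add, wt_single, wt_single, if_pos ha, if_pos hb]
    omega
  have hout : ∀ F ∈ FF k, ∀ i, wt F (α + Finsupp.single i 1) < n → ∀ b ∈ F, c i = c b := by
    intro F hF i hlt b hb
    apply hc
    refine ⟨F, hF, ?_⟩
    rw [wt_add, wt_single, if_pos hb]
    omega
  have hheavy : ∀ F : Finset (Fin (3 * (k + 1))), ∀ i, wt F (α + Finsupp.single i 1) < n →
      wt F α < n := by
    intro F i hlt
    rw [wt_add] at hlt
    omega
  by_cases hex : ∃ C ∈ CC k, wt C α < n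
  · obtain ⟨C, hC, hCn⟩ := hex
    have hCF : C ∈ FF k := mem_FF.mpr (Or.inr (Or.inr hC))
    refine ⟨c ⟨3 * k + 2, by omega⟩, ?_⟩
    rintro i ⟨F, hF, hlt⟩
    obtain ⟨x, hxF, hxC⟩ := meet k hk hF hC
    rw [hout F hF i hlt x hxF]
    exact hin C hCF hCn x hxC _ (top_mem hC)
  · push Not at hex
    by_cases hA : wt (FA k) α < n
    · by_cases hB : wt (FB k) α < n
      · exfalso
        have := growth hA hB hex
        omega
      · refine ⟨c ⟨0, by omega⟩, ?_⟩
        rintro i ⟨F, hF, hlt⟩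
        have hFn := hheavy F i hlt
        rcases mem_FF.mp hF with rfl | rfl | hFC
        · exact hout _ hF i hlt _ (mem_FA.mpr rfl)
        · exact absurd hFn hB
        · exact absurd hFn (by have := hex F hFC; omega)
    · refine ⟨c ⟨1, by omega⟩, ?_⟩
      rintro i ⟨F, hF, hlt⟩
      have hFn := hheavy F i hlt
      rcases mem_FF.mp hF with rfl | rfl | hFC
      · exact absurd hFn hA
      · have h1 : 1 ≠ 3 * k + 2 := by omega
        exact hout _ hF i hlt _ (mem_FB.mpr ⟨by norm_num, h1⟩)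
      · exact absurd hFn (by have := hex F hFC; omega)

/-- The weights of the special exponent. -/
def gk (k x : ℕ) : ℕ :=
  if x % 3 = 0 then 3 * 2 ^ (x / 3) - 3
  else if x = 3 * k + 2 then 0
  else if x = 3 * k + 1 then k
  else 3 * 2 ^ (x / 3) - 2

/-- The special exponent. -/
noncomputable def ga (k : ℕ) : Fin (3 * (k + 1)) →₀ ℕ :=
  Finsupp.equivFunOnFinite.symm fun x => gk k x.val

theorem ga_apply (k : ℕ) (x : Fin (3 * (k + 1))) : ga k x = gk k x.val := rfl

theorem one_le_two_pow (m : ℕ) : 1 ≤ 2 ^ m := Nat.one_le_two_pow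

theorem partial_sums (k m : ℕ) (hm : m ≤ k) :
    ∑ x ∈ Finset.range (3 * m), (if x % 3 = 0 then gk k x else 0) + 3 * 2 ^ m =
      ∑ x ∈ Finset.range (3 * m), (if x % 3 ≠ 0 then gk k x else 0) + m + 3 := by
  induction m with
  | zero => simp
  | succ m ih =>
    have ih' := ih (by omega)
    have e : 3 * (m + 1) = 3 * m + 1 + 1 + 1 := by ring
    rw [e]
    simp only [Finset.sum_range_succ]
    have h0 : (3 * m) % 3 = 0 := by omega
    have h1 : ¬ (3 * m + 1) % 3 = 0 := by omega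
    have h2 : ¬ (3 * m + 1 + 1) % 3 = 0 := by omega
    have g0 : gk k (3 * m) = 3 * 2 ^ m - 3 := by
      have : 3 * m / 3 = m := by omega
      simp [gk, this]
    have g1 : gk k (3 * m + 1) = 3 * 2 ^ m - 2 := by
      have hd : (3 * m + 1) / 3 = m := by omega
      rw [gk, if_neg h1, if_neg (by omega), if_neg (by omega), hd]
    have g2 : gk k (3 * m + 1 + 1) = 3 * 2 ^ m - 2 := by
      have hd : (3 * m + 1 + 1) / 3 = m := by omega
      rw [gk, if_neg h2, if_neg (by omega), if_neg (by omega), hd]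
    have hp := one_le_two_pow m
    rw [if_pos h0, if_neg h1, if_neg h2, if_neg (not_not.mpr h0), if_pos h1, if_pos h2, g0, g1, g2,
      pow_succ]
    omega

theorem wt_eq (k : ℕ) : wt (FA k) (ga k) = wt (FB k) (ga k) := by
  have hA : wt (FA k) (ga k) =
      ∑ x ∈ Finset.range (3 * (k + 1)), (if x % 3 ≠ 0 then gk k x else 0) := by
    rw [wt, ← Fin.sum_univ_eq_sum_range (fun x => if x % 3 ≠ 0 then gk k x else 0)]
    refine Finset.sum_congr rfl fun x _ => ?_
    rw [ga_apply]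
    simp only [mem_FA]
    split_ifs <;> omega
  have hB : wt (FB k) (ga k) =
      ∑ x ∈ Finset.range (3 * (k + 1)), (if x % 3 = 0 ∨ x = 3 * k + 2 then gk k x else 0) := by
    rw [wt, ← Fin.sum_univ_eq_sum_range (fun x => if x % 3 = 0 ∨ x = 3 * k + 2 then gk k x else 0)]
    refine Finset.sum_congr rfl fun x _ => ?_
    rw [ga_apply]
    simp only [mem_FB]
    split_ifs <;> omega
  have hB' : ∑ x ∈ Finset.range (3 * k), (if x % 3 = 0 ∨ x = 3 * k + 2 then gk k x else 0) =
      ∑ x ∈ Finset.range (3 * k), (if x % 3 = 0 then gk k x else 0) := by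
    refine Finset.sum_congr rfl fun x hx => ?_
    have := Finset.mem_range.mp hx
    split_ifs <;> omega
  have hps := partial_sums k k le_rfl
  have e : 3 * (k + 1) = 3 * k + 1 + 1 + 1 := by ring
  rw [hA, hB, e]
  simp only [Finset.sum_range_succ]
  rw [hB']
  have h0 : (3 * k) % 3 = 0 := by omega
  have h1 : ¬ (3 * k + 1) % 3 = 0 := by omega
  have h2 : ¬ (3 * k + 1 + 1) % 3 = 0 := by omega
  have g0 : gk k (3 * k) = 3 * 2 ^ k - 3 := by
    have : 3 * k / 3 = k := by omega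
    simp [gk, this]
  have g1 : gk k (3 * k + 1) = k := by
    rw [gk, if_neg h1, if_neg (by omega), if_pos rfl]
  have g2 : gk k (3 * k + 1 + 1) = 0 := by
    rw [gk, if_neg h2, if_pos (by omega)]
  have hp := one_le_two_pow k
  rw [if_neg (not_not.mpr h0), if_pos h1, if_pos h2, if_pos (Or.inl h0),
    if_neg (by omega : ¬ ((3 * k + 1) % 3 = 0 ∨ 3 * k + 1 = 3 * k + 2)),
    if_pos (Or.inr trivial : ((3 * k + 2) % 3 = 0 ∨ True)), g0, g1,
    (g2 : gk k (3 * k + 2) = 0)]
  omega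

theorem ga_light (k : ℕ) : ∀ C ∈ CC k, wt (FA k) (ga k) + 1 ≤ wt C (ga k) := by
  intro C hC
  rw [mem_CC] at hC
  obtain ⟨i, hi, hC⟩ := hC
  have g0 : gk k (3 * i) = 3 * 2 ^ i - 3 := by
    have : 3 * i / 3 = i := by omega
    simp [gk, this]
  have g0' : gk k (3 * (i + 1)) = 3 * 2 ^ (i + 1) - 3 := by
    have : 3 * (i + 1) / 3 = i + 1 := by omega
    simp [gk, this]
  have g1 : gk k (3 * i + 1) = 3 * 2 ^ i - 2 := by
    have hd : (3 * i + 1) / 3 = i := by omega
    rw [gk, if_neg (by omega), if_neg (by omega), if_neg (by omega), hd]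
  have g2 : gk k (3 * i + 2) = 3 * 2 ^ i - 2 := by
    have hd : (3 * i + 2) / 3 = i := by omega
    rw [gk, if_neg (by omega), if_neg (by omega), if_neg (by omega), hd]
  have g3 : gk k (3 * k + 2) = 0 := by
    rw [gk, if_neg (by omega), if_pos rfl]
  have hp := one_le_two_pow i
  have hAB := wt_eq k
  rw [pow_succ] at g0'
  rcases hC with rfl | rfl | rfl
  · have := id1 hi (ga k)
    simp only [ga_apply] at this
    rw [g1, g2, g3, g0'] at this
    omega
  · have := id2 hi (ga k)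
    simp only [ga_apply] at this
    rw [g1, g0, g3] at this
    omega
  · have := id3 hi (ga k)
    simp only [ga_apply] at this
    rw [g2, g0, g3] at this
    omega

/-- The index at which the depth drops to one. -/
noncomputable def nn (k : ℕ) : ℕ := wt (FA k) (ga k) + 1

theorem two_pow_le_nn (k : ℕ) : 2 ^ k ≤ nn k := by
  refine growth (α := ga k) ?_ ?_ ?_
  · rw [nn]; omega
  · rw [nn, wt_eq]; omega
  · exact ga_light k

/-- The set of lengths of regular sequences. -/
def lens (K : Type) [Field K] (k n : ℕ) : Set ℕ :=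
  {l : ℕ | ∃ rs : List (MvPolynomial (Fin (3 * (k + 1))) K), rs.length = l ∧
    (∀ x ∈ rs, x ∈ MM (3 * (k + 1)) K) ∧
    RingTheory.Sequence.IsRegular (MvPolynomial (Fin (3 * (k + 1))) K ⧸ Q K (FF k) n) rs}

theorem FF_nonempty (k : ℕ) : (FF k).Nonempty := ⟨FA k, mem_FF.mpr (Or.inl rfl)⟩

theorem sSup_small (K : Type) [Field K] {k n : ℕ} (hk : 2 ≤ k) (hn : n < 2 ^ k) :
    sSup (lens K k n) ≠ 1 := by
  rcases Nat.eq_zero_or_pos n with h0 | h0
  · subst h0
    have : lens K k 0 = ∅ := by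
      rw [Set.eq_empty_iff_forall_notMem]
      rintro l ⟨rs, _, _, hreg⟩
      have h1 := hreg.nontrivial
      have h2 : Q K (FF k) 0 = ⊤ := by simp [Q]
      rw [h2] at h1
      exact not_subsingleton _ (inferInstance : Subsingleton
        (MvPolynomial (Fin (3 * (k + 1))) K ⧸ (⊤ : Ideal (MvPolynomial (Fin (3 * (k + 1))) K))))
    rw [this]
    simp
  · have h2 : 2 ∈ lens K k n :=
      two_exists h0 (FF_nonempty k) (card_FF k hk) (fun α c hc => conn hk hn α c hc)
    by_cases hb : BddAbove (lens K k n)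
    · have := le_csSup hb h2
      omega
    · rw [Nat.sSup_of_not_bddAbove hb]
      omega

theorem sSup_large (K : Type) [Field K] {k : ℕ} (hk : 2 ≤ k) :
    sSup (lens K k (nn k)) = 1 := by
  have hn : 1 ≤ nn k := by rw [nn]; omega
  have h1 : 1 ∈ lens K k (nn k) := by
    set f : MvPolynomial (Fin (3 * (k + 1))) K := ∑ i, X i with hfdef
    have hfMM : f ∈ MM (3 * (k + 1)) K := Ideal.sum_mem _ fun i _ => Ideal.subset_span ⟨i, rfl⟩
    have hf : ∀ x, f * x ∈ Q K (FF k) (nn k) → x ∈ Q K (FF k) (nn k) :=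
      reg_of_notMem fun F hF => sumX_notMem
        (Finset.card_pos.mp (by have := card_FF k hk F hF; omega))
    have hmem : ∀ x ∈ [f], x ∈ MM (3 * (k + 1)) K := by
      intro x hx
      rw [List.mem_singleton] at hx
      rw [hx]
      exact hfMM
    refine ⟨[f], rfl, hmem, isRegular_of_weakly (Q_le_MM (FF_nonempty k) hn) hmem ?_⟩
    rw [RingTheory.Sequence.isWeaklyRegular_singleton_iff]
    exact (reg_iff _ _).mpr hf
  have h2 : ∀ l ∈ lens K k (nn k), l ≤ 1 := by
    rintro l ⟨rs, hl, hmem, hreg⟩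
    by_contra hlt
    push Not at hlt
    match rs, hl, hmem, hreg with
    | [], hl, _, _ => simp at hl; omega
    | [_], hl, _, _ => simp at hl; omega
    | f :: g :: rs, _, hmem, hreg =>
      rw [RingTheory.Sequence.isRegular_cons_iff, RingTheory.Sequence.isRegular_cons_iff] at hreg
      have hf := (reg_iff _ _).mp hreg.1
      have hg := (reg_iff₂ _ _ _).mp hreg.2.1
      refine no_two (𝓕 := FF k) (n := nn k) (A := FA k) (B := FB k) (i := ⟨0, by omega⟩)
        (j := ⟨1, by omega⟩) (β := ga k) (mem_FF.mpr (Or.inl rfl))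
        (mem_FF.mpr (Or.inr (Or.inl rfl))) ?_ (mem_FA.mpr rfl) ?_ rfl ?_ ?_
        (hmem f (by simp)) (hmem g (by simp)) hf hg
      · intro x
        rw [mem_FA, mem_FB]
        omega
      · have h1 : 1 ≠ 3 * k + 2 := by omega
        exact mem_FB.mpr ⟨by norm_num, h1⟩
      · rw [nn, wt_eq]
      · intro F hF hFA hFB
        rcases mem_FF.mp hF with h | h | h
        · exact absurd h hFA
        · exact absurd h hFB
        · exact ga_light k F h
  exact le_antisymm (csSup_le ⟨1, h1⟩ h2) (le_csSup ⟨1, h2⟩ h1)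

theorem exists_k (c : ℕ) : ∃ k, 2 ≤ k ∧ c * (3 * (k + 1) + 1) < 2 ^ k := by
  have h : ∀ c : ℕ, c ≤ 2 ^ c := fun c => (Nat.lt_two_pow_self).le
  refine ⟨2 * c + 8, by omega, ?_⟩
  have h1 : c < 2 ^ c := Nat.lt_two_pow_self
  have h2 : 2 ^ (2 * c + 8) = 256 * (2 ^ c * 2 ^ c) := by
    rw [pow_add, two_mul, pow_add]; ring
  rw [h2]
  have h3 : 1 ≤ 2 ^ c := Nat.one_le_two_pow
  nlinarith [Nat.mul_le_mul h1.le h1.le, Nat.mul_le_mul h1.le h3, Nat.mul_le_mul h3 h3]

end example_family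

/-- The negation of the preceding statement: There is a constant c such that for every field K, every r and every square-free monomial ideal I in K[X_1..X_r], the depth of R modulo the n-th symbolic power of I is the same for all n at least c(r+1). -/
theorem result :
    ¬ (∃ c : ℕ, ∀ (K : Type) [Field K] (r : ℕ) (S : Set (Finset (Fin r))) (n : ℕ),
      c * (r + 1) ≤ n →
      sSup {k : ℕ | ∃ rs : List (MvPolynomial (Fin r) K), rs.length = k ∧
          (∀ x ∈ rs, x ∈ Ideal.span (Set.range (MvPolynomial.X : Fin r → MvPolynomial (Fin r) K))) ∧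
          RingTheory.Sequence.IsRegular
            (MvPolynomial (Fin r) K ⧸
              ⨅ P ∈ Ideal.minimalPrimes (Ideal.span
                ((fun s : Finset (Fin r) =>
                  MvPolynomial.monomial (∑ i ∈ s, Finsupp.single i 1) (1 : K)) '' S)), P ^ n)
            rs}
      =
      sSup {k : ℕ | ∃ rs : List (MvPolynomial (Fin r) K), rs.length = k ∧
          (∀ x ∈ rs, x ∈ Ideal.span (Set.range (MvPolynomial.X : Fin r → MvPolynomial (Fin r) K))) ∧
          RingTheory.Sequence.IsRegular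
            (MvPolynomial (Fin r) K ⧸
              ⨅ P ∈ Ideal.minimalPrimes (Ideal.span
                ((fun s : Finset (Fin r) =>
                  MvPolynomial.monomial (∑ i ∈ s, Finsupp.single i 1) (1 : K)) '' S)), P ^ (c * (r + 1)))
            rs}) := by
  rintro ⟨c, h⟩
  obtain ⟨k, hk, hck⟩ := exists_k c
  have h1 := h ℚ (3 * (k + 1)) {s | ∀ F ∈ FF k, ¬ s ⊆ F} (nn k)
    (hck.le.trans (two_pow_le_nn k))
  have e1 := iInf_minimalPrimes (K := ℚ) (anti k hk) (nn k)
  have e2 := iInf_minimalPrimes (K := ℚ) (anti k hk) (c * (3 * (k + 1) + 1))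
  rw [SR] at e1 e2
  rw [e1, e2] at h1
  exact sSup_small ℚ hk hck (h1.symm.trans (sSup_large ℚ hk))

end Pool.Agent.S00396
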