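import Pool.Statements.S00407
import Pool.Agent.Helper914.Tower

set_option autoImplicit false
open Pool Pool.MP_1d00e6_al

namespace Pool.Agent.S00407

open Pool.Agent.Helper914.Tower Equiv

section

variable (n q : ℕ)

/-- infinite words together with a colour -/
abbrev Om := (ℕ → ZMod n) × ZMod q

/-- prepending a letter to a word -/
def cons (j : ZMod n) (z : ℕ → ZMod n) : ℕ → ZMod n
  | 0 => j
  | i + 1 => z i

/-- prepending a letter -/
def Ph : ZMod n × Om n q ≃ Om n q where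
  toFun := fun z => (cons n z.1 z.2.1, z.2.2)
  invFun := fun w => (w.1 0, (fun i => w.1 (i + 1), w.2))
  left_inv := by
    rintro ⟨j, z, x⟩
    rfl
  right_inv := by
    rintro ⟨z, x⟩
    refine Prod.ext ?_ rfl
    funext i
    cases i <;> rfl

theorem Ph_apply (j : ZMod n) (z : ℕ → ZMod n) (x : ZMod q) :
    Ph n q (j, (z, x)) = (cons n j z, x) := rfl

open Classical in
/-- translation of the colour by `a` on words all of whose letters are `< q` -/
noncomputable def hz : Multiplicative ℤ →* Perm (Om n q) where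
  toFun := fun a =>
    { toFun := fun w => (w.1, if (∀ i, (w.1 i).val < q) then w.2 + (a.toAdd : ZMod q) else w.2)
      invFun := fun w => (w.1, if (∀ i, (w.1 i).val < q) then w.2 - (a.toAdd : ZMod q) else w.2)
      left_inv := by
        rintro ⟨z, x⟩
        by_cases h : ∀ i, (z i).val < q <;> simp [h]
      right_inv := by
        rintro ⟨z, x⟩
        by_cases h : ∀ i, (z i).val < q <;> simp [h] }
  map_one' := by
    ext1 ⟨z, x⟩
    by_cases h : ∀ i, (z i).val < q <;> simp [h]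
  map_mul' := by
    intro a b
    ext1 ⟨z, x⟩
    rw [Perm.mul_apply]
    by_cases h : ∀ i, (z i).val < q
    · simp only [Equiv.coe_fn_mk, h, implies_true, if_true, toAdd_mul]
      push_cast
      refine Prod.ext rfl ?_
      ring
    · simp [h]

/-- the element of order `q` -/
noncomputable def h : Perm (Om n q) := hz n q (Multiplicative.ofAdd 1)

open Classical in
theorem h_zpow (a : ℤ) (z : ℕ → ZMod n) (x : ZMod q) :
    (h n q ^ a) (z, x) = (z, if (∀ i, (z i).val < q) then x + (a : ZMod q) else x) := by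
  rw [h, ← map_zpow, ← ofAdd_zsmul]
  simp [hz]

/-- the rotations -/
def P : Subgroup (Perm (ZMod n)) where
  carrier := {p | ∃ a : ZMod n, ∀ j, p j = j + a}
  mul_mem' := by
    rintro p q ⟨a, ha⟩ ⟨b, hb⟩
    refine ⟨b + a, fun j => ?_⟩
    rw [Perm.mul_apply, ha, hb, add_assoc]
  one_mem' := ⟨0, fun j => by simp⟩
  inv_mem' := by
    rintro p ⟨a, ha⟩
    refine ⟨-a, fun j => ?_⟩
    have := ha (p⁻¹ j)
    rw [show p (p⁻¹ j) = j by simp] at this
    rw [eq_add_neg_iff_add_eq, ← this]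

theorem P_solvable : Group.IsSolvable (P n) := by
  refine Group.isSolvable_of_comm ?_
  rintro ⟨p, a, ha⟩ ⟨q, b, hb⟩
  apply Subtype.ext
  change p * q = q * p
  ext1 j
  rw [Perm.mul_apply, Perm.mul_apply, ha, hb, hb, ha]
  ring

theorem P_pow (p : Perm (ZMod n)) (hp : p ∈ P n) : p ^ n = 1 := by
  obtain ⟨a, ha⟩ := hp
  have key : ∀ m : ℕ, ∀ j, (p ^ m) j = j + m * a := by
    intro m
    induction m with
    | zero => intro j; simp
    | succ m ih =>
      intro j
      rw [pow_succ, Perm.mul_apply, ih, ha]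
      push_cast; ring
  ext1 j
  rw [key]
  simp

/-- exponents -/
def kap (j : ZMod n) (x : ℤ) : ℤ := if j.val < q then x + j.val else 0

def c (j : ZMod n) : ℤ := kap n q j 0

theorem kap_key (x : ℤ) :
    h n q ^ x * tr (Ph n q) (h n q) (c n q) = th (Ph n q) (fun j => h n q ^ kap n q j x) 1 := by
  apply th_ext (Ph n q)
  rintro j ⟨z, y⟩
  rw [Perm.mul_apply, tr, th_apply, th_apply]
  simp only [Perm.coe_one, id_eq, h_zpow, Ph_apply]
  have key : (∀ i : ℕ, (cons n j z i).val < q) ↔ (j.val < q ∧ ∀ i, (z i).val < q) := by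
    constructor
    · intro H
      exact ⟨H 0, fun i => H (i + 1)⟩
    · rintro ⟨h1, h2⟩ i
      cases i
      · exact h1
      · exact h2 _
  refine Prod.ext rfl ?_
  by_cases h1 : j.val < q <;> by_cases h2 : ∀ i, (z i).val < q
  · have h3 : ∀ i : ℕ, (cons n j z i).val < q := key.2 ⟨h1, h2⟩
    simp only [c, kap]
    rw [if_pos h3, if_pos h2, if_pos h2, if_pos h1, if_pos h1]
    push_cast
    ring
  · have h3 : ¬ ∀ i : ℕ, (cons n j z i).val < q := fun h => h2 (key.1 h).2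
    simp only [c, kap]
    rw [if_neg h3, if_neg h2, if_neg h2]
  · have h3 : ¬ ∀ i : ℕ, (cons n j z i).val < q := fun h => h1 (key.1 h).1
    simp only [c, kap]
    rw [if_neg h3, if_pos h2, if_pos h2, if_neg h1, if_neg h1]
  · have h3 : ¬ ∀ i : ℕ, (cons n j z i).val < q := fun h => h1 (key.1 h).1
    simp only [c, kap]
    rw [if_neg h3, if_neg h2, if_neg h2]

theorem h_mem : h n q ∈ W (Ph n q) (P n) (Subgroup.zpowers (h n q)) := by
  have h1 := kap_key n q 1
  have h2 : h n q = th (Ph n q) (fun j => h n q ^ kap n q j 1) 1 * (tr (Ph n q) (h n q) (c n q))⁻¹ := by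
    rw [← h1]; group
  rw [h2]
  refine Subgroup.mul_mem _ ⟨_, _, Subgroup.one_mem _, fun j => ?_, rfl⟩ (Subgroup.inv_mem _
    ⟨_, _, Subgroup.one_mem _, fun j => ?_, rfl⟩)
  · rw [← h2]; exact Subgroup.zpow_mem_zpowers _ _
  · rw [← h2]; exact Subgroup.zpow_mem_zpowers _ _

theorem h_pow_q : h n q ^ (q : ℤ) = 1 := by
  ext1 ⟨z, x⟩
  rw [h_zpow]
  simp

theorem h_sub (a : ℤ) : h n q ^ (a - q) = h n q ^ a := by
  rw [zpow_sub, h_pow_q]
  simp

/-- rotation of the letters -/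
def rot (x : ZMod n) : Perm (ZMod n) := Equiv.addRight x

theorem rot_mem (x : ZMod n) : rot n x ∈ P n := ⟨x, fun _ => rfl⟩

theorem step [NeZero n] (hqn : q ≤ n) (k : ℕ) (hk : k + 1 < q)
    (ih : ∀ y : ℕ, y ≤ k → R (Ph n q) (P n) (h n q) (c n q) 1 (h n q ^ (y : ℤ))) :
    R (Ph n q) (P n) (h n q) (c n q) 1 (h n q ^ ((k + 1 : ℕ) : ℤ)) := by
  have ih2 : ∀ e : ℤ, 0 ≤ e → e ≤ k → R (Ph n q) (P n) (h n q) (c n q) 1 (h n q ^ e) := by
    intro e h0 h1
    obtain ⟨y, rfl⟩ := Int.eq_ofNat_of_zero_le h0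
    exact ih y (by exact_mod_cast h1)
  have ih3 : ∀ e : ℤ, q ≤ e → e ≤ k + q → R (Ph n q) (P n) (h n q) (c n q) 1 (h n q ^ e) := by
    intro e h0 h1
    rw [← h_sub]
    exact ih2 _ (by omega) (by omega)
  have h0 : R (Ph n q) (P n) (h n q) (c n q) 1 (h n q ^ (0 : ℤ)) := ih2 0 le_rfl (by omega)
  refine R_lift (Ph n q) (k := fun j => h n q ^ c n q j) (p := 1)
    (r := rot n (-((k + 1 : ℕ) : ZMod n)))
    (k' := fun j => h n q ^ kap n q j ((k + 1 : ℕ) : ℤ))
    (p' := 1) (P n).one_mem (P n).one_mem (rot_mem n _) ?_ (kap_key n q _) ?_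
  · rw [one_mul, tr]
  · intro i
    obtain ⟨j, rfl⟩ : ∃ j, i = j + ((k + 1 : ℕ) : ZMod n) := ⟨i - ((k + 1 : ℕ) : ZMod n), by ring⟩
    have h1 : rot n (-((k + 1 : ℕ) : ZMod n)) (j + ((k + 1 : ℕ) : ZMod n)) = j := by
      change j + ((k + 1 : ℕ) : ZMod n) + (-((k + 1 : ℕ) : ZMod n)) = j
      ring
    simp only [h1]
    have hx : ((k + 1 : ℕ) : ZMod n).val = k + 1 := by
      rw [ZMod.val_natCast]
      exact Nat.mod_eq_of_lt (by omega)
    have hj : j.val < n := ZMod.val_lt j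
    have hv : (j + ((k + 1 : ℕ) : ZMod n)).val = (j.val + (k + 1)) % n := by
      rw [ZMod.val_add, hx]
    rcases lt_or_ge (j.val + (k + 1)) n with hlt | hge
    · rw [Nat.mod_eq_of_lt hlt] at hv
      simp only [c, kap, hv]
      by_cases hjq : j.val < q
      · rw [if_pos hjq]
        by_cases hiq : j.val + (k + 1) < q
        · rw [if_pos hiq]
          have : (0 : ℤ) + ((j.val + (k + 1) : ℕ) : ℤ) = ((k + 1 : ℕ) : ℤ) + j.val := by
            push_cast; ring
          rw [this]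
          exact R_refl _ _
        · rw [if_neg hiq]
          refine R_trans _ (R_symm _ h0) (ih3 _ ?_ ?_)
          · push_cast; omega
          · push_cast; omega
      · rw [if_neg hjq, if_neg (by omega)]
        exact R_refl _ _
    · have hmod : (j.val + (k + 1)) % n = j.val + (k + 1) - n := by
        rw [Nat.mod_eq_sub_mod hge, Nat.mod_eq_of_lt (by omega)]
      rw [hmod] at hv
      simp only [c, kap, hv]
      rw [if_pos (show j.val + (k + 1) - n < q by omega)]
      refine R_trans _ (R_symm _ (ih2 _ (by omega) (by omega))) ?_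
      by_cases hjq : j.val < q
      · rw [if_pos hjq]
        refine ih3 _ ?_ ?_
        · push_cast; omega
        · push_cast; omega
      · rw [if_neg hjq]
        exact h0

theorem base [NeZero n] [NeZero q] (hqn : q ≤ n) (x : ℤ) :
    R (Ph n q) (P n) (h n q) (c n q) 1 (h n q ^ x) := by
  have hq : 0 < q := Nat.pos_of_ne_zero (NeZero.ne q)
  have main : ∀ k : ℕ, k < q → ∀ y : ℕ, y ≤ k →
      R (Ph n q) (P n) (h n q) (c n q) 1 (h n q ^ (y : ℤ)) := by
    intro k
    induction k with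
    | zero =>
      intro _ y hy
      obtain rfl : y = 0 := by omega
      simpa using R_refl (Ph n q) (P := P n) (h := h n q) (c := c n q) 1
    | succ k ih =>
      intro hk y hy
      rcases Nat.lt_or_ge y (k + 1) with h1 | h1
      · exact ih (by omega) y (by omega)
      · obtain rfl : y = k + 1 := by omega
        exact step n q hqn k hk (ih (by omega))
  have h1 : h n q ^ x = h n q ^ (x % q) := by
    conv_lhs => rw [← Int.emod_add_mul_ediv x q, zpow_add, zpow_mul, h_pow_q]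
    simp
  have h2 : 0 ≤ x % q := Int.emod_nonneg _ (by omega)
  have h3 : x % q < q := Int.emod_lt_of_pos _ (by omega)
  rw [h1]
  obtain ⟨y, hy⟩ := Int.eq_ofNat_of_zero_le h2
  rw [hy]
  exact main y (by omega) y le_rfl

end

/-- For all distinct primes p, q there is a torsion group whose element orders are of the form p^a q^b, which is neither a p-group nor a q-group, whose finitely generated subgroups are solvable, and which equals AB for two p-subgroups A, B. -/
theorem result :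
    ∀ p q : ℕ, p.Prime → q.Prime → p ≠ q →
      ∃ (G : Type) (_ : Group G),
        Monoid.IsTorsion G ∧
        (∀ g : G, ∃ a b : ℕ, orderOf g = p ^ a * q ^ b) ∧
        ¬ IsPGroup p G ∧ ¬ IsPGroup q G ∧
        (∀ s : Finset G, IsSolvable (Subgroup.closure (s : Set G))) ∧
        ∃ A B : Subgroup G, IsPGroup p A ∧ IsPGroup p B ∧
          ∀ g : G, ∃ a ∈ A, ∃ b ∈ B, g = a * b := by
  intro p q hp hq hpq
  have hn0 : p ^ q ≠ 0 := pow_ne_zero _ hp.ne_zero
  have : NeZero (p ^ q) := ⟨hn0⟩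
  have : NeZero q := ⟨hq.ne_zero⟩
  have hqn : q ≤ p ^ q := (Nat.lt_pow_self hp.one_lt).le
  set n := p ^ q with hn
  have hPt : ∀ M : Submonoid ℕ, p ∈ M → ∀ g ∈ P n, ∃ e ∈ M, g ^ e = 1 := by
    intro M hM g hg
    exact ⟨n, M.pow_mem hM q, P_pow n g hg⟩
  have hA : ∀ a ∈ AA (Ph n q) (P n), ∃ e ∈ Submonoid.powers p, a ^ e = 1 := by
    rintro a ⟨m, hm⟩
    refine tow_torsion _ _ (hPt _ (Submonoid.mem_powers p)) ?_ m a hm
    intro g hg
    exact ⟨1, Submonoid.one_mem _, by simpa using hg⟩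
  have hB : ∀ b ∈ BB (Ph n q) (P n) (h n q) (c n q), ∃ e ∈ Submonoid.powers p, b ^ e = 1 := by
    rintro b ⟨m, hm⟩
    exact btow_torsion _ _ (hPt _ (Submonoid.mem_powers p)) m b hm
  have hG : ∀ g ∈ GG (Ph n q) (P n) (h n q) (h_mem n q),
      ∃ e ∈ Submonoid.closure {p, q}, g ^ e = 1 := by
    rintro g ⟨m, hm⟩
    refine tow_torsion _ _ (hPt _ (Submonoid.subset_closure (by simp))) ?_ m g hm
    rintro g ⟨x, rfl⟩
    refine ⟨q, Submonoid.subset_closure (by simp), ?_⟩
    have h1 := h_pow_q n q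
    rw [zpow_natCast] at h1
    change (h n q ^ x) ^ q = 1
    rw [← zpow_natCast, ← zpow_mul, mul_comm, zpow_mul, zpow_natCast, h1, one_zpow]
  have hcl : ∀ e ∈ Submonoid.closure ({p, q} : Set ℕ), ∃ a b : ℕ, e = p ^ a * q ^ b := by
    intro e he
    obtain ⟨a, b, hab⟩ := (Submonoid.mem_closure_pair p q e).1 he
    exact ⟨a, b, hab.symm⟩
  have hord : ∀ g : GG (Ph n q) (P n) (h n q) (h_mem n q), ∃ a b : ℕ, orderOf g = p ^ a * q ^ b := by
    rintro ⟨g, hg⟩
    obtain ⟨e, he, h1⟩ := hG g hg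
    obtain ⟨a, b, rfl⟩ := hcl e he
    have h2 : orderOf (⟨g, hg⟩ : GG (Ph n q) (P n) (h n q) (h_mem n q)) ∣ p ^ a * q ^ b :=
      orderOf_dvd_of_pow_eq_one (Subtype.ext h1)
    obtain ⟨d1, d2, hd1, hd2, hd⟩ := exists_dvd_and_dvd_of_dvd_mul h2
    obtain ⟨a', _, rfl⟩ := (Nat.dvd_prime_pow hp).1 hd1
    obtain ⟨b', _, rfl⟩ := (Nat.dvd_prime_pow hq).1 hd2
    exact ⟨a', b', hd⟩
  refine ⟨GG (Ph n q) (P n) (h n q) (h_mem n q), inferInstance, ?_, hord, ?_, ?_,
    GG_locally_solvable _ (h_mem n q) (P_solvable n),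
    (AA (Ph n q) (P n)).subgroupOf _, (BB (Ph n q) (P n) (h n q) (c n q)).subgroupOf _, ?_, ?_, ?_⟩
  · intro g
    obtain ⟨a, b, hab⟩ := hord g
    rw [← orderOf_pos_iff, hab]
    exact Nat.mul_pos (pow_pos hp.pos _) (pow_pos hq.pos _)
  · intro hpg
    obtain ⟨k, hk⟩ := hpg ⟨h n q, ⟨0, Subgroup.mem_zpowers _⟩⟩
    have h1 : h n q ^ (p ^ k) = 1 := congrArg Subtype.val hk
    have h2 := congrArg (fun g : Perm (Om n q) => (g (fun _ => 0, 0)).2) h1
    rw [← zpow_natCast] at h2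
    have h3 : ∀ i : ℕ, ((fun _ => (0 : ZMod n)) i).val < q := by
      intro i
      simp [hq.pos]
    simp only [h_zpow, Perm.coe_one, id_eq, zero_add] at h2
    rw [if_pos h3] at h2
    have h4 : (q : ℤ) ∣ ((p ^ k : ℕ) : ℤ) := (ZMod.intCast_zmod_eq_zero_iff_dvd _ _).1 h2
    have h5 : q ∣ p ^ k := by exact_mod_cast h4
    exact hpq ((Nat.prime_dvd_prime_iff_eq hq hp).1 (hq.dvd_of_dvd_pow h5)).symm
  · intro hqg
    have hmem : th (Ph n q) (fun _ => 1) (rot n 1) ∈ AA (Ph n q) (P n) :=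
      ⟨1, ⟨_, _, rot_mem n 1, fun _ => Subgroup.one_mem _, rfl⟩⟩
    obtain ⟨k, hk⟩ := hqg ⟨_, AA_le _ (h_mem n q) hmem⟩
    have h1 : (th (Ph n q) (fun _ => 1) (rot n 1)) ^ (q ^ k) = 1 := congrArg Subtype.val hk
    have key : ∀ m : ℕ, ∀ w : Om n q, ((th (Ph n q) (fun _ => 1) (rot n 1)) ^ m) (Ph n q (0, w)) =
        Ph n q ((m : ZMod n), w) := by
      intro m
      induction m with
      | zero => intro w; simp
      | succ m ih =>
        intro w
        rw [pow_succ', Perm.mul_apply, ih, th_apply]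
        simp [rot]
    have h2 := key (q ^ k) (fun _ => 0, 0)
    rw [h1, Perm.coe_one, id_eq, EmbeddingLike.apply_eq_iff_eq, Prod.mk.injEq] at h2
    have h3 : n ∣ q ^ k := (ZMod.natCast_eq_zero_iff _ _).1 h2.1.symm
    have h4 : p ∣ q ^ k := (dvd_pow_self p hq.ne_zero).trans h3
    exact hpq ((Nat.prime_dvd_prime_iff_eq hp hq).1 (hp.dvd_of_dvd_pow h4))
  · rintro ⟨⟨a, ha⟩, ha'⟩
    obtain ⟨e, ⟨k, rfl⟩, h1⟩ := hA a ha'
    exact ⟨k, Subtype.ext (Subtype.ext h1)⟩
  · rintro ⟨⟨a, ha⟩, ha'⟩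
    obtain ⟨e, ⟨k, rfl⟩, h1⟩ := hB a ha'
    exact ⟨k, Subtype.ext (Subtype.ext h1)⟩
  · rintro ⟨g, hg⟩
    obtain ⟨a, ha, b, hb, hab⟩ := fact _ (h_mem n q) (base n q hqn) g hg
    exact ⟨⟨a, AA_le _ (h_mem n q) ha⟩, ha, ⟨b, BB_le _ (h_mem n q) hb⟩, hb, Subtype.ext hab⟩

end Pool.Agent.S00407
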