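import Pool.Statements.S00414
import Pool.Agent.Helper270.GauE

set_option autoImplicit false
open Pool Pool.MP_1d7b2e_al

namespace Pool.Agent.S00414

/-- The negation of the preceding statement: For free groups of rank at least 3, any homomorphism from Aut(F_n) to a group that has finite image on the standard copy of Aut(F_{n-1}) (first n-1 basis elements, last fixed) has finite image on all of Aut(F_n). -/
theorem result :
    ¬ (∀ n : ℕ, 2 ≤ n →
      ∀ (G : Type) [Group G] (φ : MulAut (FreeGroup (Fin (n + 1))) →* G),
        (φ '' {σ : MulAut (FreeGroup (Fin (n + 1))) |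
            σ (FreeGroup.of (Fin.last n)) = FreeGroup.of (Fin.last n) ∧
            (Subgroup.closure (Set.range (fun i : Fin n => FreeGroup.of i.castSucc))).map
                (σ : FreeGroup (Fin (n + 1)) →* FreeGroup (Fin (n + 1))) =
              Subgroup.closure (Set.range (fun i : Fin n => FreeGroup.of i.castSucc))}).Finite →
        (Set.range φ).Finite) := by
  intro H
  refine Pool.Agent.H270.Gau.infinite_range
    (H 2 le_rfl (MulAut (FreeGroup (Fin 3)) ⧸ Pool.Agent.H270.Gau.KK.normalCore)
      (QuotientGroup.mk' Pool.Agent.H270.Gau.KK.normalCore) ?_)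
  refine Pool.Agent.H270.Gau.finite_image.subset (Set.image_mono ?_)
  rintro σ ⟨-, hσ⟩
  have hr : Subgroup.closure (Set.range (fun i : Fin 2 =>
      (FreeGroup.of (i.castSucc) : FreeGroup (Fin 3)))) = Pool.Agent.H270.Gau.HH := by
    unfold Pool.Agent.H270.Gau.HH
    congr 1
    ext y
    constructor
    · rintro ⟨i, rfl⟩
      fin_cases i
      · exact Or.inl rfl
      · exact Or.inr rfl
    · rintro (rfl | rfl)
      · exact ⟨0, rfl⟩
      · exact ⟨1, rfl⟩
  show Pool.Agent.H270.Gau.HH.map _ = Pool.Agent.H270.Gau.HH
  rw [← hr]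
  exact hσ

end Pool.Agent.S00414
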