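import Pool.Statements.S00416

set_option autoImplicit false
open Pool Pool.MP_1d7e2f_al

namespace Pool.Agent.S00416

/-! ### signs -/

/-- the sign `(-1) ^ n` -/
def sg (n : ℤ) : ℤ := ((Int.negOnePow n : ℤˣ) : ℤ)

theorem sg_zero : sg 0 = 1 := by simp [sg]

theorem sg_one : sg 1 = -1 := by simp [sg]

theorem sg_add (a b : ℤ) : sg (a + b) = sg a * sg b := by
  simp [sg, Int.negOnePow_add]

theorem sg_neg (a : ℤ) : sg (-a) = sg a := by
  simp [sg, Int.negOnePow_neg]

theorem sg_mul_self (a : ℤ) : sg a * sg a = 1 := by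
  have h := sg_add a (-a)
  rw [sg_neg, add_neg_cancel, sg_zero] at h
  exact h.symm

theorem sg_eq (a : ℤ) : sg a = 1 ∨ sg a = -1 := by
  have h := sg_mul_self a
  have h2 : (sg a - 1) * (sg a + 1) = 0 := by linarith
  rcases mul_eq_zero.mp h2 with h3 | h3
  · left; linarith
  · right; linarith

theorem sg_sg_mul (a b : ℤ) : sg (sg a * b) = sg b := by
  rcases sg_eq a with h | h
  · rw [h, one_mul]
  · rw [h, neg_one_mul, sg_neg]

theorem sg_even {a : ℤ} (h : Even a) : sg a = 1 := by
  simp [sg, Int.negOnePow_even a h]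

theorem sg_odd {a : ℤ} (h : Odd a) : sg a = -1 := by
  simp [sg, Int.negOnePow_odd a h]

/-! ### the group `Q` -/

/-- Finitely supported integer sequences, with a twisted multiplication. -/
@[ext]
structure Q : Type where
  f : ℕ →₀ ℤ

theorem Q.ext' {a b : Q} (h : ∀ i, a.f i = b.f i) : a = b := Q.ext (Finsupp.ext h)

/-- the twist -/
noncomputable def tw (a b : ℕ →₀ ℤ) : ℕ →₀ ℤ :=
  Finsupp.onFinset b.support (fun i => sg (a (i + 1)) * b i) (by
    intro i h
    rw [Finsupp.mem_support_iff]
    intro h'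
    exact h (by rw [h', mul_zero]))

theorem tw_apply (a b : ℕ →₀ ℤ) (i : ℕ) : tw a b i = sg (a (i + 1)) * b i := rfl

noncomputable instance : Mul Q := ⟨fun a b => ⟨a.f + tw a.f b.f⟩⟩
noncomputable instance : One Q := ⟨⟨0⟩⟩
noncomputable instance : Inv Q := ⟨fun a => ⟨-(tw a.f a.f)⟩⟩

theorem Q.mul_f (a b : Q) (i : ℕ) : (a * b).f i = a.f i + sg (a.f (i + 1)) * b.f i := rfl
theorem Q.one_f (i : ℕ) : (1 : Q).f i = 0 := rfl
theorem Q.inv_f (a : Q) (i : ℕ) : (a⁻¹).f i = -(sg (a.f (i + 1)) * a.f i) := rfl

noncomputable instance : Group Q := Group.ofLeftAxioms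
  (by
    intro a b c
    apply Q.ext'
    intro i
    simp only [Q.mul_f, sg_add, sg_sg_mul]
    ring)
  (by
    intro a
    apply Q.ext'
    intro i
    simp only [Q.mul_f, Q.one_f, sg_zero]
    ring)
  (by
    intro a
    apply Q.ext'
    intro i
    simp only [Q.mul_f, Q.one_f, Q.inv_f, sg_neg, sg_sg_mul]
    ring)

noncomputable instance : LinearOrder Q :=
  LinearOrder.lift' (fun q => toColex q.f) (by
    intro a b h
    exact Q.ext (toColex.injective h))

theorem Q.lt_iff {a b : Q} : a < b ↔ ∃ i, (∀ j, i < j → a.f j = b.f j) ∧ a.f i < b.f i :=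
  Iff.rfl

theorem Q.mul_lt {a b : Q} (h : a < b) (c : Q) : a * c < b * c := by
  rw [Q.lt_iff] at h ⊢
  obtain ⟨i, hi, hlt⟩ := h
  refine ⟨i, ?_, ?_⟩
  · intro j hj
    rw [Q.mul_f, Q.mul_f, hi j hj, hi (j + 1) (by omega)]
  · rw [Q.mul_f, Q.mul_f, hi (i + 1) (by omega)]
    linarith

/-! ### the ordered module `M` -/

/-- sum of the coefficients -/
noncomputable def eps : (Q →₀ ℤ) →+ ℤ := Finsupp.liftAddHom (fun _ => AddMonoidHom.id ℤ)

/-- sum of the coefficients at the elements whose coordinate `0` is odd -/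
noncomputable def odds : (Q →₀ ℤ) →+ ℤ :=
  Finsupp.liftAddHom (fun q => if sg (q.f 0) = -1 then AddMonoidHom.id ℤ else 0)

/-- right translation of group ring elements -/
noncomputable def tr (q : Q) : (Q →₀ ℤ) →+ (Q →₀ ℤ) :=
  Finsupp.mapDomain.addMonoidHom (fun r => r * q⁻¹)

theorem tr_single (q r : Q) (n : ℤ) : tr q (Finsupp.single r n) = Finsupp.single (r * q⁻¹) n := by
  simp [tr, Finsupp.mapDomain_single]

theorem tr_apply (q : Q) (x : Q →₀ ℤ) (r : Q) : tr q x r = x (r * q) := by
  have h : r = (fun r => r * q⁻¹) (r * q) := by simp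
  conv_lhs => rw [h]
  exact Finsupp.mapDomain_apply (mul_left_injective q⁻¹) x (r * q)

theorem eps_tr (q : Q) (x : Q →₀ ℤ) : eps (tr q x) = eps x := by
  induction x using Finsupp.induction_linear with
  | zero => simp
  | add x y hx hy => rw [map_add, map_add, map_add, hx, hy]
  | single r n => rw [tr_single]; simp [eps]

theorem odds_tr (q : Q) (x : Q →₀ ℤ) :
    odds (tr q x) = if sg (q.f 0) = -1 then eps x - odds x else odds x := by
  induction x using Finsupp.induction_linear with
  | zero => simp
  | add x y hx hy =>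
    rw [map_add, map_add, map_add, map_add, hx, hy]
    split_ifs <;> ring
  | single r n =>
    rw [tr_single]
    have h : sg ((r * q⁻¹).f 0) = sg (r.f 0) * sg (q.f 0) := by
      rw [Q.mul_f, sg_add, sg_sg_mul, Q.inv_f, sg_neg, sg_sg_mul]
    simp only [odds, eps, Finsupp.liftAddHom_apply_single, h]
    rcases sg_eq (r.f 0) with h1 | h1 <;> rcases sg_eq (q.f 0) with h2 | h2 <;>
      simp [h1, h2]

/-- The augmentation ideal of the group ring. -/
def M : Type := ↥(eps.ker)

noncomputable instance : AddCommGroup M := inferInstanceAs (AddCommGroup ↥(eps.ker))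

/-- the underlying group ring element -/
noncomputable def M.v : M →+ (Q →₀ ℤ) := AddSubgroup.subtype _

theorem M.v_inj {x y : M} (h : M.v x = M.v y) : x = y := Subtype.ext h

theorem M.eps_v (x : M) : eps (M.v x) = 0 := x.2

noncomputable instance : LinearOrder M :=
  LinearOrder.lift' (fun x => toLex (M.v x)) (by
    intro a b h
    exact M.v_inj (toLex.injective h))

theorem M.lt_iff {a b : M} :
    a < b ↔ ∃ i, (∀ j, j < i → M.v a j = M.v b j) ∧ M.v a i < M.v b i :=
  Iff.rfl

theorem M.add_lt {a b : M} (h : a < b) (c : M) : c + a < c + b := by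
  rw [M.lt_iff] at h ⊢
  obtain ⟨i, hi, hlt⟩ := h
  refine ⟨i, ?_, ?_⟩
  · intro j hj
    rw [map_add, map_add, Finsupp.add_apply, Finsupp.add_apply, hi j hj]
  · rw [map_add, map_add, Finsupp.add_apply, Finsupp.add_apply]
    linarith

/-- the action of `Q` on `M` -/
noncomputable def act (q : Q) : M →+ M where
  toFun x := ⟨tr q (M.v x), by
    have h := M.eps_v x
    rw [AddMonoidHom.mem_ker, eps_tr, h]⟩
  map_zero' := by
    apply M.v_inj
    show tr q (M.v 0) = M.v 0
    rw [map_zero, map_zero]
  map_add' x y := by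
    apply M.v_inj
    show tr q (M.v (x + y)) = tr q (M.v x) + tr q (M.v y)
    rw [map_add, map_add]

theorem v_act (q : Q) (x : M) : M.v (act q x) = tr q (M.v x) := rfl

theorem act_one (x : M) : act 1 x = x := by
  apply M.v_inj
  rw [v_act]
  ext r
  rw [tr_apply, mul_one]

theorem act_mul (p q : Q) (x : M) : act (p * q) x = act p (act q x) := by
  apply M.v_inj
  rw [v_act, v_act, v_act]
  ext r
  rw [tr_apply, tr_apply, tr_apply, mul_assoc]

theorem act_lt (q : Q) {a b : M} (h : a < b) : act q a < act q b := by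
  rw [M.lt_iff] at h ⊢
  obtain ⟨i, hi, hlt⟩ := h
  refine ⟨i * q⁻¹, ?_, ?_⟩
  · intro j hj
    rw [v_act, v_act, tr_apply, tr_apply]
    apply hi
    have := Q.mul_lt hj q
    rwa [inv_mul_cancel_right] at this
  · rw [v_act, v_act, tr_apply, tr_apply, inv_mul_cancel_right]
    exact hlt

/-- the character -/
noncomputable def c : M →+ ℤ := odds.comp M.v

theorem c_act (q : Q) (x : M) : c (act q x) = sg (q.f 0) * c x := by
  show odds (M.v (act q x)) = sg (q.f 0) * odds (M.v x)
  rw [v_act, odds_tr, M.eps_v]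
  rcases sg_eq (q.f 0) with h | h
  · rw [h]; norm_num
  · rw [h]; simp

/-- the element `q - 1` of the augmentation ideal -/
noncomputable def dl (q : Q) : M :=
  ⟨Finsupp.single q 1 - Finsupp.single 1 1, by
    rw [AddMonoidHom.mem_ker, map_sub]
    simp [eps]⟩

theorem v_dl (q : Q) : M.v (dl q) = Finsupp.single q 1 - Finsupp.single 1 1 := rfl

theorem act_dl (q r : Q) : act q (dl r) = dl (r * q⁻¹) - dl q⁻¹ := by
  apply M.v_inj
  rw [v_act, map_sub, v_dl, v_dl, v_dl, map_sub, tr_single, tr_single, one_mul]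
  abel

/-- an element of `Q` with one nonzero coordinate -/
noncomputable def sq (j : ℕ) (n : ℤ) : Q := ⟨Finsupp.single j n⟩

theorem c_dl : c (dl (sq 0 1)) = 1 := by
  show odds (Finsupp.single (sq 0 1) 1 - Finsupp.single 1 1) = 1
  rw [map_sub]
  have h1 : sg ((sq 0 1).f 0) = -1 := by
    simp [sq, sg_one]
  have h2 : sg ((1 : Q).f 0) = 1 := by
    rw [Q.one_f, sg_zero]
  simp only [odds, Finsupp.liftAddHom_apply_single, h1, h2]
  norm_num

/-- `M` is additively generated by the elements `q - 1` -/
theorem M.induction (H : AddSubgroup M) (h : ∀ q, dl q ∈ H) (x : M) : x ∈ H := by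
  -- every group ring element minus its augmentation times `1` is in the image of `H`
  have key : ∀ y : Q →₀ ℤ, ∃ z ∈ H, M.v z = y - Finsupp.single 1 (eps y) := by
    intro y
    induction y using Finsupp.induction_linear with
    | zero => exact ⟨0, H.zero_mem, by simp⟩
    | add a b ha hb =>
      obtain ⟨z1, h1, e1⟩ := ha
      obtain ⟨z2, h2, e2⟩ := hb
      refine ⟨z1 + z2, H.add_mem h1 h2, ?_⟩
      rw [map_add, e1, e2, map_add, Finsupp.single_add]
      abel
    | single r n =>
      refine ⟨n • dl r, H.zsmul_mem (h r) n, ?_⟩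
      rw [map_zsmul, v_dl, smul_sub]
      simp [eps]
  obtain ⟨z, hz, e⟩ := key (M.v x)
  rw [M.eps_v, Finsupp.single_zero, sub_zero] at e
  rw [← M.v_inj e]
  exact hz

/-! ### the group `G` -/

/-- Finitely supported sequences of elements of `M`, with a twisted multiplication. -/
@[ext]
structure G : Type where
  f : ℕ →₀ M

theorem G.ext' {a b : G} (h : ∀ i, a.f i = b.f i) : a = b := G.ext (Finsupp.ext h)

/-- The element of `Q` through which the components above `i` act on the component `i`. -/
noncomputable def pr (a : ℕ →₀ M) (i : ℕ) : Q :=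
  ⟨Finsupp.comapDomain (fun j => i + 1 + j) (a.mapRange c (map_zero c))
    (fun _ _ _ _ h => by simpa using h)⟩

theorem pr_f (a : ℕ →₀ M) (i j : ℕ) : (pr a i).f j = c (a (i + 1 + j)) := rfl

noncomputable def tw' (a b : ℕ →₀ M) : ℕ →₀ M :=
  Finsupp.onFinset b.support (fun i => act (pr a i) (b i)) (by
    intro i h
    rw [Finsupp.mem_support_iff]
    intro h'
    exact h (by rw [h', map_zero]))

noncomputable def iv (a : ℕ →₀ M) : ℕ →₀ M :=
  Finsupp.onFinset a.support (fun i => -(act (pr a i)⁻¹ (a i))) (by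
    intro i h
    rw [Finsupp.mem_support_iff]
    intro h'
    exact h (by rw [h', map_zero, neg_zero]))

noncomputable instance : Mul G := ⟨fun a b => ⟨a.f + tw' a.f b.f⟩⟩
noncomputable instance : One G := ⟨⟨0⟩⟩
noncomputable instance : Inv G := ⟨fun a => ⟨iv a.f⟩⟩

theorem G.mul_f (a b : G) (i : ℕ) : (a * b).f i = a.f i + act (pr a.f i) (b.f i) := rfl
theorem G.one_f (i : ℕ) : (1 : G).f i = 0 := rfl
theorem G.inv_f (a : G) (i : ℕ) : (a⁻¹).f i = -(act (pr a.f i)⁻¹ (a.f i)) := rfl

theorem pr_mul (a b : G) (i : ℕ) : pr (a * b).f i = pr a.f i * pr b.f i := by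
  apply Q.ext'
  intro j
  rw [Q.mul_f, pr_f, pr_f, pr_f, pr_f, G.mul_f, map_add, c_act]
  rfl

theorem pr_one (i : ℕ) : pr (1 : G).f i = 1 := by
  apply Q.ext'
  intro j
  rw [pr_f, Q.one_f, G.one_f, map_zero]

theorem pr_inv (a : G) (i : ℕ) : pr (a⁻¹).f i = (pr a.f i)⁻¹ := by
  apply Q.ext'
  intro j
  rw [Q.inv_f, pr_f, pr_f, pr_f, G.inv_f, map_neg, c_act, Q.inv_f, sg_neg, sg_sg_mul]
  rfl

noncomputable instance : Group G := Group.ofLeftAxioms
  (by
    intro a b d
    apply G.ext'
    intro i
    rw [G.mul_f, G.mul_f, G.mul_f, G.mul_f, pr_mul, act_mul, map_add, add_assoc])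
  (by
    intro a
    apply G.ext'
    intro i
    rw [G.mul_f, G.one_f, pr_one, act_one, zero_add])
  (by
    intro a
    apply G.ext'
    intro i
    rw [G.mul_f, G.inv_f, pr_inv, G.one_f, neg_add_cancel])

noncomputable instance : LinearOrder G :=
  LinearOrder.lift' (fun q => toColex q.f) (by
    intro a b h
    exact G.ext (toColex.injective h))

theorem G.lt_iff {a b : G} : a < b ↔ ∃ i, (∀ j, i < j → a.f j = b.f j) ∧ a.f i < b.f i :=
  Iff.rfl

theorem G.mul_lt_left {a b : G} (h : a < b) (g : G) : g * a < g * b := by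
  rw [G.lt_iff] at h ⊢
  obtain ⟨i, hi, hlt⟩ := h
  refine ⟨i, ?_, ?_⟩
  · intro j hj
    rw [G.mul_f, G.mul_f, hi j hj]
  · rw [G.mul_f, G.mul_f]
    exact M.add_lt (act_lt _ hlt) _

theorem pr_congr {a b : ℕ →₀ M} {i : ℕ} (h : ∀ j, i < j → a j = b j) : pr a i = pr b i := by
  apply Q.ext'
  intro j
  rw [pr_f, pr_f, h _ (by omega)]

theorem G.mul_lt_right {a b : G} (h : a < b) (g : G) : a * g < b * g := by
  rw [G.lt_iff] at h ⊢
  obtain ⟨i, hi, hlt⟩ := h
  refine ⟨i, ?_, ?_⟩
  · intro j hj
    rw [G.mul_f, G.mul_f, hi j hj, pr_congr (fun k hk => hi k (by omega))]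
  · rw [G.mul_f, G.mul_f, pr_congr hi, add_comm, add_comm (b.f i)]
    exact M.add_lt hlt _

instance : MulLeftMono G := ⟨by
  intro g a b h
  rcases h.eq_or_lt with h | h
  · rw [h]
  · exact (G.mul_lt_left h g).le⟩

instance : MulRightMono G := ⟨by
  intro g a b h
  rcases h.eq_or_lt with h | h
  · rw [h]
  · exact (G.mul_lt_right h g).le⟩

/-! ### solvability -/

theorem Q_solvable : Group.IsSolvable Q := by
  let φ : Q →* (ℕ → ℤˣ) :=
    { toFun := fun q i => Int.negOnePow (q.f i)
      map_one' := by
        funext i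
        simp [Q.one_f]
      map_mul' := by
        intro a b
        funext i
        apply Units.ext
        show sg ((a * b).f i) = sg (a.f i) * sg (b.f i)
        rw [Q.mul_f, sg_add, sg_sg_mul] }
  have hker : ∀ a ∈ φ.ker, ∀ i, sg (a.f i) = 1 := by
    intro a ha i
    rw [MonoidHom.mem_ker] at ha
    have := congrFun ha i
    show ((Int.negOnePow (a.f i) : ℤˣ) : ℤ) = 1
    have h2 : Int.negOnePow (a.f i) = 1 := this
    rw [h2]; rfl
  have hs : Group.IsSolvable φ.ker := by
    apply Group.isSolvable_of_comm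
    rintro ⟨a, ha⟩ ⟨b, hb⟩
    apply Subtype.ext
    show a * b = b * a
    apply Q.ext'
    intro i
    rw [Q.mul_f, Q.mul_f, hker a ha, hker b hb]
    ring
  exact Group.isSolvable_of_ker_le_range φ.ker.subtype φ (by rw [Subgroup.range_subtype])

/-- the projection of `G` to `Q` -/
noncomputable def pj : G →* Q where
  toFun a := ⟨a.f.mapRange c (map_zero c)⟩
  map_one' := by
    apply Q.ext'
    intro i
    show c ((1 : G).f i) = 0
    rw [G.one_f, map_zero]
  map_mul' a b := by
    apply Q.ext'
    intro i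
    rw [Q.mul_f]
    show c ((a * b).f i) = c (a.f i) + sg (c (a.f (i + 1))) * c (b.f i)
    rw [G.mul_f, map_add, c_act]
    rfl

theorem G_solvable : Group.IsSolvable G := by
  have hker : ∀ a ∈ pj.ker, ∀ i, pr a.f i = 1 := by
    intro a ha i
    apply Q.ext'
    intro j
    rw [MonoidHom.mem_ker] at ha
    have h2 : (pj a).f (i + 1 + j) = (1 : Q).f (i + 1 + j) := by rw [ha]
    exact h2
  have hs : Group.IsSolvable pj.ker := by
    apply Group.isSolvable_of_comm
    rintro ⟨a, ha⟩ ⟨b, hb⟩
    apply Subtype.ext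
    show a * b = b * a
    apply G.ext'
    intro i
    rw [G.mul_f, G.mul_f, hker a ha, hker b hb, act_one, act_one, add_comm]
  have := Q_solvable
  exact Group.isSolvable_of_ker_le_range pj.ker.subtype pj (by rw [Subgroup.range_subtype])

/-! ### the abelianization -/

/-- An element with one nonzero component. -/
noncomputable def sG (i : ℕ) (m : M) : G := ⟨Finsupp.single i m⟩

theorem sG_mul (i : ℕ) (m : M) (b : ℕ →₀ M) (hb : ∀ j ∈ b.support, i < j) :
    sG i m * ⟨b⟩ = ⟨Finsupp.single i m + b⟩ := by
  apply G.ext'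
  intro j
  rw [G.mul_f]
  show Finsupp.single i m j + act (pr (Finsupp.single i m) j) (b j) = (Finsupp.single i m + b) j
  rw [Finsupp.add_apply]
  by_cases hj : j ∈ b.support
  · have h1 : pr (Finsupp.single i m) j = 1 := by
      apply Q.ext'
      intro k
      have := hb j hj
      rw [pr_f, Q.one_f, Finsupp.single_eq_of_ne (by omega), map_zero]
    rw [h1, act_one]
  · rw [Finsupp.notMem_support_iff] at hj
    rw [hj, map_zero]

theorem sG_add (i : ℕ) (m m' : M) : sG i (m + m') = sG i m * sG i m' := by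
  apply G.ext'
  intro j
  rw [G.mul_f]
  show Finsupp.single i (m + m') j =
    Finsupp.single i m j + act (pr (Finsupp.single i m) j) (Finsupp.single i m' j)
  by_cases hj : j = i
  · subst hj
    have h1 : pr (Finsupp.single j m) j = 1 := by
      apply Q.ext'
      intro k
      rw [pr_f, Q.one_f, Finsupp.single_eq_of_ne (by omega), map_zero]
    rw [h1, act_one]
    simp
  · simp [Finsupp.single_eq_of_ne hj]

/-- Elements supported above `i` act on the component `i`. -/
theorem conj_sG (i : ℕ) (m : M) (g : G) (hg : ∀ j, j ≤ i → g.f j = 0) :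
    g * sG i m = sG i (act (pr g.f i) m) * g := by
  apply G.ext'
  intro j
  rw [G.mul_f, G.mul_f]
  show g.f j + act (pr g.f j) (Finsupp.single i m j) =
    Finsupp.single i (act (pr g.f i) m) j +
      act (pr (Finsupp.single i (act (pr g.f i) m)) j) (g.f j)
  rcases lt_trichotomy j i with hj | hj | hj
  · rw [Finsupp.single_eq_of_ne (by omega), Finsupp.single_eq_of_ne (by omega), hg j hj.le]
    simp
  · subst hj
    rw [hg j le_rfl]
    simp
  · have h1 : pr (Finsupp.single i (act (pr g.f i) m)) j = 1 := by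
      apply Q.ext'
      intro k
      rw [pr_f, Q.one_f, Finsupp.single_eq_of_ne (by omega), map_zero]
    rw [Finsupp.single_eq_of_ne (by omega), Finsupp.single_eq_of_ne (by omega), h1, act_one]
    simp

/-- Every element of `Q` acts on the component `i` through some element supported above `i`. -/
theorem exists_lift (i : ℕ) (q : Q) : ∃ g : G, (∀ j, j ≤ i → g.f j = 0) ∧ pr g.f i = q := by
  let b : ℕ →₀ M := Finsupp.embDomain ⟨fun j => i + 1 + j, fun _ _ h => by simpa using h⟩
    (q.f.mapRange (fun n => n • dl (sq 0 1)) (zero_smul _ _))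
  refine ⟨⟨b⟩, ?_, ?_⟩
  · intro j hj
    apply Finsupp.embDomain_of_notMem_range
    rintro ⟨k, hk⟩
    have : i + 1 + k = j := hk
    omega
  · apply Q.ext'
    intro j
    rw [pr_f]
    have h1 : b (i + 1 + j) = q.f j • dl (sq 0 1) :=
      Finsupp.embDomain_apply_self ⟨fun j => i + 1 + j, fun _ _ h => by simpa using h⟩
        (q.f.mapRange (fun n => n • dl (sq 0 1)) (zero_smul _ _)) j
    show c (b (i + 1 + j)) = q.f j
    rw [h1, map_zsmul, c_dl]
    simp

/-- A homomorphism from `Q` to a commutative group kills squares. -/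
theorem Q_hom_sq {A : Type} [CommGroup A] (d : Q → A) (hd : ∀ p q, d (p * q) = d p * d q)
    (q : Q) : d q ^ 2 = 1 := by
  have h1 : d 1 = 1 := by
    have h := hd 1 1
    rw [mul_one] at h
    exact (mul_eq_left.mp h.symm)
  have hs : ∀ (j : ℕ) (n : ℤ), d (sq j n) ^ 2 = 1 := by
    intro j n
    have e1 : sq (j + 1) 1 * sq j n = sq j (-n) * sq (j + 1) 1 := by
      apply Q.ext'
      intro i
      rw [Q.mul_f, Q.mul_f]
      show Finsupp.single (j + 1) (1 : ℤ) i + sg (Finsupp.single (j + 1) (1 : ℤ) (i + 1)) *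
          Finsupp.single j n i = Finsupp.single j (-n) i + sg (Finsupp.single j (-n) (i + 1)) *
          Finsupp.single (j + 1) (1 : ℤ) i
      by_cases hi : i = j
      · subst hi
        simp [sg_one]
      · by_cases hi2 : i = j + 1
        · subst hi2
          have : Finsupp.single j (-n) (j + 1 + 1) = 0 := Finsupp.single_eq_of_ne (by omega)
          rw [this]
          simp [sg_zero]
        · have e2 : Finsupp.single j n i = 0 := Finsupp.single_eq_of_ne hi
          have e3 : Finsupp.single j (-n) i = 0 := Finsupp.single_eq_of_ne hi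
          have e4 : Finsupp.single (j + 1) (1 : ℤ) i = 0 := Finsupp.single_eq_of_ne hi2
          rw [e2, e3, e4]
          simp
    have e5 : sq j n * sq j (-n) = 1 := by
      apply Q.ext'
      intro i
      rw [Q.mul_f, Q.one_f]
      show Finsupp.single j n i + sg (Finsupp.single j n (i + 1)) * Finsupp.single j (-n) i = 0
      by_cases hi : i = j
      · subst hi
        have : Finsupp.single i n (i + 1) = 0 := Finsupp.single_eq_of_ne (by omega)
        rw [this]
        simp [sg_zero]
      · have e2 : Finsupp.single j n i = 0 := Finsupp.single_eq_of_ne hi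
        have e3 : Finsupp.single j (-n) i = 0 := Finsupp.single_eq_of_ne hi
        rw [e2, e3]
        simp
    have e6 : d (sq j n) = d (sq j (-n)) := by
      have h := congrArg d e1
      rw [hd, hd, mul_comm] at h
      exact mul_right_cancel h
    have e7 : d (sq j n) * d (sq j (-n)) = 1 := by
      rw [← hd, e5, h1]
    rw [pow_two]
    nth_rw 2 [e6]
    exact e7
  have hall : ∀ b : ℕ →₀ ℤ, d ⟨b⟩ ^ 2 = 1 := by
    intro b
    induction b using Finsupp.induction_on_min with
    | zero =>
      have : (⟨0⟩ : Q) = 1 := rfl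
      rw [this, h1, one_pow]
    | single_add j n b hb hn ih =>
      have e : (⟨Finsupp.single j n + b⟩ : Q) = sq j n * ⟨b⟩ := by
        apply Q.ext'
        intro i
        rw [Q.mul_f]
        show (Finsupp.single j n + b) i = Finsupp.single j n i +
          sg (Finsupp.single j n (i + 1)) * b i
        rw [Finsupp.add_apply]
        by_cases hi : i ∈ b.support
        · have := hb i hi
          have e2 : Finsupp.single j n (i + 1) = 0 := Finsupp.single_eq_of_ne (by omega)
          rw [e2, sg_zero, one_mul]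
        · rw [Finsupp.notMem_support_iff] at hi
          rw [hi, mul_zero]
      rw [e, hd, mul_pow, hs, ih, one_mul]
  exact hall q.f

theorem sG_sq (i : ℕ) (m : M) : (Abelianization.of (sG i m)) ^ 2 = 1 := by
  let φ : M →+ Additive (Abelianization G) :=
    { toFun := fun m => Additive.ofMul (Abelianization.of (sG i m))
      map_zero' := by
        have : sG i 0 = 1 := by
          apply G.ext'
          intro j
          show Finsupp.single i (0 : M) j = 0
          simp
        rw [this, map_one]
        rfl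
      map_add' := by
        intro a b
        rw [sG_add, map_mul]
        rfl }
  have hφ : ∀ m, φ m = Additive.ofMul (Abelianization.of (sG i m)) := fun _ => rfl
  have hinv : ∀ (q : Q) (m : M), φ (act q m) = φ m := by
    intro q m
    obtain ⟨g, hg, hq⟩ := exists_lift i q
    have h := congrArg (Abelianization.of (G := G)) (conj_sG i m g hg)
    rw [hq, map_mul, map_mul, mul_comm] at h
    rw [hφ, hφ, mul_right_cancel h]
  -- the homomorphism `q ↦ q - 1`
  let d : Q → Abelianization G := fun q => (φ (dl q)).toMul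
  have hd : ∀ p q, d (p * q) = d p * d q := by
    intro p q
    have h := hinv q⁻¹ (dl p)
    rw [act_dl, inv_inv, map_sub, sub_eq_iff_eq_add] at h
    show (φ (dl (p * q))).toMul = (φ (dl p)).toMul * (φ (dl q)).toMul
    rw [h, toMul_add]
  have h2 : ∀ m, m ∈ (φ + φ).ker := by
    apply M.induction
    intro q
    rw [AddMonoidHom.mem_ker]
    have := Q_hom_sq d hd q
    rw [pow_two] at this
    show φ (dl q) + φ (dl q) = 0
    exact this
  have h3 := h2 m
  rw [AddMonoidHom.mem_ker] at h3
  have h4 : φ m + φ m = 0 := h3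
  rw [pow_two]
  exact h4

theorem ab_sq (x : Abelianization G) : x ^ 2 = 1 := by
  obtain ⟨g, rfl⟩ : ∃ g : G, Abelianization.of g = x := QuotientGroup.mk_surjective x
  have hall : ∀ b : ℕ →₀ M, (Abelianization.of (⟨b⟩ : G)) ^ 2 = 1 := by
    intro b
    induction b using Finsupp.induction_on_min with
    | zero =>
      have : (⟨0⟩ : G) = 1 := rfl
      rw [this, map_one, one_pow]
    | single_add j n b hb hn ih =>
      rw [← sG_mul j n b hb, map_mul, mul_pow, sG_sq, ih, one_mul]
  exact hall g.f

instance : Nontrivial G := by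
  refine ⟨⟨sG 0 (dl (sq 0 1)), 1, ?_⟩⟩
  intro h
  have h1 : (sG 0 (dl (sq 0 1))).f 0 = (1 : G).f 0 := by rw [h]
  have h2 : dl (sq 0 1) = 0 := by
    simpa [sG, G.one_f] using h1
  have h3 := c_dl
  rw [h2, map_zero] at h3
  exact absurd h3 (by norm_num)

/-- The negation of the preceding statement: Every nontrivial solvable group with a total order invariant under left and right multiplication has an abelianization G/G' containing an element of infinite order. -/
theorem result :
    ¬ (∀ (G : Type) [Group G] [LinearOrder G] [MulLeftMono G] [MulRightMono G]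
      [Nontrivial G], IsSolvable G → ∃ x : Abelianization G, ¬ IsOfFinOrder x) := by
  intro H
  obtain ⟨x, hx⟩ := H G G_solvable
  exact hx (isOfFinOrder_iff_pow_eq_one.mpr ⟨2, by norm_num, ab_sq x⟩)

end Pool.Agent.S00416
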