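import Pool.Statements.S00424
import Mathlib

set_option autoImplicit false
open Pool Pool.MP_1e7c77_al

namespace Pool.Agent.S00424

/-- sign `(-1)^j`. -/
def sg (j : ℤ) : ℤ := if Even j then 1 else -1

theorem sg_add (i j : ℤ) : sg (i + j) = sg i * sg j := by
  unfold sg
  by_cases hi : Even i <;> by_cases hj : Even j <;> simp [Int.even_add, hi, hj]

theorem sg_even (i : ℤ) : sg (2 * i) = 1 := by simp [sg]
theorem sg_zero : sg 0 = 1 := by simp [sg]
theorem sg_one : sg 1 = -1 := by simp [sg]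
theorem sg_neg (i : ℤ) : sg (-i) = sg i := by simp [sg]
theorem sg_sq (i : ℤ) : sg i * sg i = 1 := by unfold sg; split_ifs <;> norm_num
theorem sg_of_even {i : ℤ} (h : Even i) : sg i = 1 := by simp [sg, h]

/-- The group `(K × ℤ) ⋊ ℤ`; `⟨k, j, l, i⟩` stands for `b^k a^j c^l x^i`. -/
@[ext] structure GG where
  k : ℤ
  j : ℤ
  l : ℤ
  i : ℤ

instance : Mul GG := ⟨fun p q => ⟨p.k + sg p.j * q.k, p.j + q.j + 2 * p.i * q.l, p.l + q.l, p.i + q.i⟩⟩
instance : One GG := ⟨⟨0, 0, 0, 0⟩⟩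
instance : Inv GG := ⟨fun p => ⟨- sg p.j * p.k, -p.j + 2 * p.i * p.l, -p.l, -p.i⟩⟩

@[simp] theorem mul_k (p q : GG) : (p * q).k = p.k + sg p.j * q.k := rfl
@[simp] theorem mul_j (p q : GG) : (p * q).j = p.j + q.j + 2 * p.i * q.l := rfl
@[simp] theorem mul_l (p q : GG) : (p * q).l = p.l + q.l := rfl
@[simp] theorem mul_i (p q : GG) : (p * q).i = p.i + q.i := rfl
@[simp] theorem one_k : (1 : GG).k = 0 := rfl
@[simp] theorem one_j : (1 : GG).j = 0 := rfl
@[simp] theorem one_l : (1 : GG).l = 0 := rfl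
@[simp] theorem one_i : (1 : GG).i = 0 := rfl
@[simp] theorem inv_k (p : GG) : (p⁻¹).k = - sg p.j * p.k := rfl
@[simp] theorem inv_j (p : GG) : (p⁻¹).j = -p.j + 2 * p.i * p.l := rfl
@[simp] theorem inv_l (p : GG) : (p⁻¹).l = - p.l := rfl
@[simp] theorem inv_i (p : GG) : (p⁻¹).i = - p.i := rfl

instance : Group GG := Group.ofLeftAxioms
  (by
    intro p q r
    ext
    · simp only [mul_k, mul_j, mul_i]
      rw [sg_add, sg_add, mul_assoc 2, sg_even]; ring
    · simp; ring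
    · simp; ring
    · simp; ring)
  (by intro p; ext <;> simp [sg_zero])
  (by
    intro p
    ext
    · simp only [mul_k, inv_k, inv_j, one_k]
      rw [sg_add, sg_neg, mul_assoc 2, sg_even]; ring
    · simp only [mul_j, inv_j, inv_i, one_j]; ring
    · simp
    · simp)

/-- The rational nilpotent group. -/
@[ext] structure HH where
  k : ℚ
  m : ℚ
  l : ℚ
  i : ℚ

instance : Mul HH := ⟨fun p q => ⟨p.k + q.k, p.m + q.m + p.i * q.l, p.l + q.l, p.i + q.i⟩⟩
instance : One HH := ⟨⟨0, 0, 0, 0⟩⟩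
instance : Inv HH := ⟨fun p => ⟨-p.k, -p.m + p.i * p.l, -p.l, -p.i⟩⟩

@[simp] theorem hmul_k (p q : HH) : (p * q).k = p.k + q.k := rfl
@[simp] theorem hmul_m (p q : HH) : (p * q).m = p.m + q.m + p.i * q.l := rfl
@[simp] theorem hmul_l (p q : HH) : (p * q).l = p.l + q.l := rfl
@[simp] theorem hmul_i (p q : HH) : (p * q).i = p.i + q.i := rfl
@[simp] theorem hone_k : (1 : HH).k = 0 := rfl
@[simp] theorem hone_m : (1 : HH).m = 0 := rfl
@[simp] theorem hone_l : (1 : HH).l = 0 := rfl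
@[simp] theorem hone_i : (1 : HH).i = 0 := rfl
@[simp] theorem hinv_k (p : HH) : (p⁻¹).k = -p.k := rfl
@[simp] theorem hinv_m (p : HH) : (p⁻¹).m = -p.m + p.i * p.l := rfl
@[simp] theorem hinv_l (p : HH) : (p⁻¹).l = - p.l := rfl
@[simp] theorem hinv_i (p : HH) : (p⁻¹).i = - p.i := rfl

instance : Group HH := Group.ofLeftAxioms
  (by
    intro p q r
    ext
    · simp; ring
    · simp; ring
    · simp; ring
    · simp; ring)
  (by intro p; ext <;> simp)
  (by
    intro p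
    ext
    · simp
    · simp
    · simp
    · simp)

theorem hpow (p : HH) (n : ℕ) :
    p ^ n = ⟨n * p.k, n * p.m + (n * (n - 1) / 2) * (p.i * p.l), n * p.l, n * p.i⟩ := by
  induction n with
  | zero => ext <;> simp
  | succ n ih =>
    rw [pow_succ, ih]
    ext
    · simp; ring
    · simp; ring
    · simp; ring
    · simp; ring

/-- abelianisation-type map -/
def ab : HH →* Multiplicative (ℚ × ℚ × ℚ) where
  toFun p := Multiplicative.ofAdd (p.k, p.l, p.i)
  map_one' := rfl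
  map_mul' p q := rfl

theorem HH_nil : Group.IsNilpotent HH := by
  refine Subgroup.isNilpotent_of_ker_le_center ab ?_
  intro p hp
  have h : Multiplicative.ofAdd (p.k, p.l, p.i) = 1 := hp
  have h2 : (p.k, p.l, p.i) = (0 : ℚ × ℚ × ℚ) := h
  simp only [Prod.mk_eq_zero] at h2
  obtain ⟨h3, h4, h5⟩ := h2
  rw [Subgroup.mem_center_iff]
  intro q
  ext
  · simp [h3]
  · simp [h4, h5]; ring
  · simp [h4]
  · simp [h5]

/-- the index two subgroup -/
def NN : Subgroup GG where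
  carrier := {p | Even p.j}
  one_mem' := by simp
  mul_mem' := by
    intro p q hp hq
    have hp' : Even p.j := hp
    have hq' : Even q.j := hq
    show Even (p * q).j
    rw [mul_j, mul_assoc 2]
    exact (hp'.add hq').add (even_two_mul _)
  inv_mem' := by
    intro p hp
    have hp' : Even p.j := hp
    show Even (p⁻¹).j
    rw [inv_j, mul_assoc 2]
    exact hp'.neg.add (even_two_mul _)

theorem mem_NN (p : GG) : p ∈ NN ↔ Even p.j := Iff.rfl

def iot : NN →* HH where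
  toFun p := ⟨p.1.k, (p.1.j : ℚ) / 2, p.1.l, p.1.i⟩
  map_one' := by ext <;> simp
  map_mul' p q := by
    ext
    · have : sg p.1.j = 1 := sg_of_even p.2
      simp [this]
    · simp; ring
    · simp
    · simp

theorem iot_inj : Function.Injective iot := by
  intro p q h
  have h1 := congrArg HH.k h
  have h2 := congrArg HH.m h
  have h3 := congrArg HH.l h
  have h4 := congrArg HH.i h
  simp only [iot, MonoidHom.coe_mk, OneHom.coe_mk] at h1 h2 h3 h4
  apply Subtype.ext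
  ext
  · exact_mod_cast h1
  · have : (p.1.j : ℚ) = q.1.j := by linarith
    exact_mod_cast this
  · exact_mod_cast h3
  · exact_mod_cast h4

/-- Lexicographic cone on the rational group. -/
def QQ : Set HH := {p | 0 < p.i ∨ (p.i = 0 ∧ (0 < p.m ∨ (p.m = 0 ∧ (0 < p.k ∨ (p.k = 0 ∧ 0 < p.l)))))}
def PP : Set GG := {p | 0 < p.i ∨ (p.i = 0 ∧ (0 < p.j ∨ (p.j = 0 ∧ (0 < p.k ∨ (p.k = 0 ∧ 0 < p.l)))))}

theorem NN_nil : Group.IsNilpotent NN := by
  haveI := HH_nil
  refine Subgroup.isNilpotent_of_ker_le_center iot ?_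
  intro p hp
  have : p = 1 := iot_inj (by rw [map_one]; exact hp)
  rw [this]; exact Subgroup.one_mem _

theorem PP_cone : (∀ a ∈ PP, ∀ b ∈ PP, a * b ∈ PP) ∧ (1 : GG) ∉ PP ∧ (∀ a : GG, a ≠ 1 → (a ∈ PP ↔ a⁻¹ ∉ PP)) := by
  refine ⟨?_, ?_, ?_⟩
  · intro a ha b hb
    simp only [PP, Set.mem_ofPred_eq] at ha hb
    show 0 < (a*b).i ∨ ((a*b).i = 0 ∧ (0 < (a*b).j ∨ ((a*b).j = 0 ∧ (0 < (a*b).k ∨ ((a*b).k = 0 ∧ 0 < (a*b).l)))))
    simp only [mul_k, mul_j, mul_l, mul_i]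
    rcases ha with ha | ⟨ha, ha2⟩
    · left; rcases hb with hb | ⟨hb, -⟩ <;> omega
    · rcases hb with hb | ⟨hb, hb2⟩
      · left; omega
      · right
        refine ⟨by omega, ?_⟩
        rw [ha]
        rcases ha2 with ha2 | ⟨ha2, ha3⟩
        · left; rcases hb2 with hb2 | ⟨hb2, -⟩ <;> omega
        · rcases hb2 with hb2 | ⟨hb2, hb3⟩
          · left; omega
          · right
            refine ⟨by omega, ?_⟩
            rw [ha2, sg_zero]
            omega
  · simp [PP]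
  · intro a ha
    simp only [PP, Set.mem_ofPred_eq, inv_k, inv_j, inv_l, inv_i]
    by_cases h1 : a.i = 0
    · by_cases h2 : a.j = 0
      · by_cases h3 : a.k = 0
        · have h4 : a.l ≠ 0 := by
            intro h4; exact ha (by ext <;> simp [h1, h2, h3, h4])
          simp [h1, h2, h3]
          omega
        · simp [h1, h2, sg_zero, h3]
          omega
      · simp [h1, h2]
        omega
    · simp only [h1, false_and, or_false]
      have : ¬ (-a.i = 0) := by omega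
      simp only [this, false_and, or_false]
      omega

theorem QQ_cone : (∀ a ∈ QQ, ∀ b ∈ QQ, a * b ∈ QQ) ∧ (1 : HH) ∉ QQ ∧ (∀ a : HH, a ≠ 1 → (a ∈ QQ ↔ a⁻¹ ∉ QQ)) := by
  refine ⟨?_, ?_, ?_⟩
  · intro a ha b hb
    simp only [QQ, Set.mem_ofPred_eq] at ha hb
    show 0 < (a*b).i ∨ ((a*b).i = 0 ∧ (0 < (a*b).m ∨ ((a*b).m = 0 ∧ (0 < (a*b).k ∨ ((a*b).k = 0 ∧ 0 < (a*b).l)))))
    simp only [hmul_k, hmul_m, hmul_l, hmul_i]
    rcases ha with ha | ⟨ha, ha2⟩
    · left; rcases hb with hb | ⟨hb, -⟩ <;> linarith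
    · rcases hb with hb | ⟨hb, hb2⟩
      · left; linarith
      · right
        refine ⟨by linarith, ?_⟩
        rw [ha, zero_mul]
        rcases ha2 with ha2 | ⟨ha2, ha3⟩
        · left; rcases hb2 with hb2 | ⟨hb2, -⟩ <;> linarith
        · rcases hb2 with hb2 | ⟨hb2, hb3⟩
          · left; linarith
          · right
            refine ⟨by linarith, ?_⟩
            rcases ha3 with ha3 | ⟨ha3, ha4⟩
            · left; rcases hb3 with hb3 | ⟨hb3, -⟩ <;> linarith
            · rcases hb3 with hb3 | ⟨hb3, hb4⟩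
              · left; linarith
              · right; exact ⟨by linarith, by linarith⟩
  · simp [QQ]
  · intro a ha
    simp only [QQ, Set.mem_ofPred_eq, hinv_k, hinv_m, hinv_l, hinv_i]
    by_cases h1 : a.i = 0
    · by_cases h2 : a.m = 0
      · by_cases h3 : a.k = 0
        · have h4 : a.l ≠ 0 := by
            intro h4; exact ha (by ext <;> simp [h1, h2, h3, h4])
          simp [h1, h2, h3]
          exact ⟨fun h => h.le, fun h => lt_of_le_of_ne h h4.symm⟩
        · simp [h1, h2, h3]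
          exact ⟨fun h => h.le, fun h => lt_of_le_of_ne h (Ne.symm h3)⟩
      · simp [h1, h2]
        exact ⟨fun h => h.le, fun h => lt_of_le_of_ne h (Ne.symm h2)⟩
    · have : ¬ (-a.i = 0) := by simpa using h1
      simp only [h1, this, false_and, or_false]
      rw [not_lt, neg_nonpos]
      exact ⟨fun h => h.le, fun h => lt_of_le_of_ne h (Ne.symm h1)⟩

theorem HH_div (h : HH) (n : ℕ) (hn : 0 < n) : ∃ x : HH, x ^ n = h := by
  have hn' : (n : ℚ) ≠ 0 := by positivity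
  refine ⟨⟨h.k / n, (h.m - (n * (n - 1) / 2) * ((h.i / n) * (h.l / n))) / n, h.l / n, h.i / n⟩, ?_⟩
  rw [hpow]
  ext
  · simp; field_simp
  · simp only []; field_simp; ring
  · simp; field_simp
  · simp; field_simp

theorem HH_root (h : HH) : ∃ n : ℕ, 0 < n ∧ h ^ n ∈ iot.range := by
  obtain ⟨d, hd, a, b, c, e, h1, h2, h3, h4⟩ : ∃ d : ℕ, 0 < d ∧ ∃ a b c e : ℤ,
      (d : ℚ) * h.k = a ∧ (d : ℚ) * h.m = b ∧ (d : ℚ) * h.l = c ∧ (d : ℚ) * h.i = e := by
    refine ⟨h.k.den * h.m.den * h.l.den * h.i.den, ?_, h.k.num * h.m.den * h.l.den * h.i.den,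
      h.k.den * h.m.num * h.l.den * h.i.den, h.k.den * h.m.den * h.l.num * h.i.den,
      h.k.den * h.m.den * h.l.den * h.i.num, ?_, ?_, ?_, ?_⟩
    · have := h.k.den_pos; have := h.m.den_pos; have := h.l.den_pos; have := h.i.den_pos
      positivity
    · have := Rat.mul_den_eq_num h.k
      push_cast; rw [← this]; ring
    · have := Rat.mul_den_eq_num h.m
      push_cast; rw [← this]; ring
    · have := Rat.mul_den_eq_num h.l
      push_cast; rw [← this]; ring
    · have := Rat.mul_den_eq_num h.i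
      push_cast; rw [← this]; ring
  refine ⟨2 * d * d, by positivity, ?_⟩
  refine ⟨⟨⟨2 * d * a, 2 * (2 * d * b + (2 * d * d - 1) * (e * c)), 2 * d * c, 2 * d * e⟩, ?_⟩, ?_⟩
  · rw [mem_NN]; exact even_two_mul _
  · rw [hpow]
    ext
    · simp [iot]; rw [← h1]; ring
    · simp [iot]; rw [← h2, ← h3, ← h4]; ring
    · simp [iot]; rw [← h3]; ring
    · simp [iot]; rw [← h4]; ring

theorem result :
    ¬ (∀ (G : Type) [Group G] (N : Subgroup G), Group.IsNilpotent N →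
    ∀ (P : Set G),
      ((∀ a ∈ P, ∀ b ∈ P, a * b ∈ P) ∧ (1 : G) ∉ P ∧ (∀ a : G, a ≠ 1 → (a ∈ P ↔ a⁻¹ ∉ P))) →
    ∀ (H : Type) [Group H], Group.IsNilpotent H →
      (∀ h : H, ∀ n : ℕ, 0 < n → ∃ x : H, x ^ n = h) →
    ∀ (ι : N →* H), Function.Injective ι →
      (∀ h : H, ∃ n : ℕ, 0 < n ∧ h ^ n ∈ ι.range) →
    ∀ (Q : Set H),
      ((∀ a ∈ Q, ∀ b ∈ Q, a * b ∈ Q) ∧ (1 : H) ∉ Q ∧ (∀ a : H, a ≠ 1 → (a ∈ Q ↔ a⁻¹ ∉ Q))) →
      (∀ x : N, ι x ∈ Q ↔ (x : G) ∈ P) →
    ∀ g : H, ∃ R : Set G,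
      ((∀ a ∈ R, ∀ b ∈ R, a * b ∈ R) ∧ (1 : G) ∉ R ∧ (∀ a : G, a ≠ 1 → (a ∈ R ↔ a⁻¹ ∉ R))) ∧
      (∀ x : N, (x : G) ∈ R ↔ g⁻¹ * ι x * g ∈ Q)) := by
  intro hall
  obtain ⟨R, ⟨hmul, hone, htot⟩, hR⟩ := hall GG NN NN_nil PP PP_cone HH HH_nil HH_div iot iot_inj HH_root QQ QQ_cone
    (by
      intro x
      simp only [QQ, PP, Set.mem_ofPred_eq, iot, MonoidHom.coe_mk, OneHom.coe_mk]
      have h1 : (0 : ℚ) < (x.1.j : ℚ) / 2 ↔ 0 < x.1.j := by
        constructor
        · intro h; have : (0:ℚ) < x.1.j := by linarith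
          exact_mod_cast this
        · intro h; have : (0:ℚ) < x.1.j := by exact_mod_cast h
          linarith
      have h2 : (x.1.j : ℚ) / 2 = 0 ↔ x.1.j = 0 := by
        constructor
        · intro h; have : (x.1.j : ℚ) = 0 := by linarith
          exact_mod_cast this
        · intro h; rw [h]; simp
      rw [h1, h2]
      norm_cast) ⟨0, 0, 0, 1/2⟩
  have hwR : (⟨0, 1, 1, 0⟩ : GG) ∈ R := by
    by_contra hw
    have hw2 : (⟨0, 1, 1, 0⟩ : GG)⁻¹ ∈ R := by
      by_contra hw3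
      exact hw ((htot _ (by intro h; have := congrArg GG.j h; simp at this)).2 hw3)
    have hw4 := hmul _ hw2 _ hw2
    have hin : (⟨0, 1, 1, 0⟩ : GG)⁻¹ * (⟨0, 1, 1, 0⟩ : GG)⁻¹ ∈ NN := by
      rw [mem_NN]; simp
    have := (hR ⟨_, hin⟩).1 hw4
    simp [QQ, iot] at this
    norm_num at this
  have hbw : (⟨1, -2, -2, 0⟩ : GG) ∈ R := by
    have hin : (⟨1, -2, -2, 0⟩ : GG) ∈ NN := by
      rw [mem_NN]; simp
    refine (hR ⟨_, hin⟩).2 ?_
    simp [QQ, iot]
  have hb : (⟨1, 0, 0, 0⟩ : GG) ∈ R := by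
    have hin : (⟨1, 0, 0, 0⟩ : GG) ∈ NN := by
      rw [mem_NN]; simp
    refine (hR ⟨_, hin⟩).2 ?_
    simp [QQ, iot]
  have h1 := hmul _ (hmul _ hb _ hwR) _ hbw
  have h2 : (⟨1, 0, 0, 0⟩ : GG) * ⟨0, 1, 1, 0⟩ * ⟨1, -2, -2, 0⟩ = (⟨0, 1, 1, 0⟩ : GG)⁻¹ := by
    ext <;> simp [sg_zero, sg_one]
  rw [h2] at h1
  exact ((htot _ (by intro h; have := congrArg GG.j h; simp at this)).1 hwR) h1

end Pool.Agent.S00424
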