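import Pool.Statements.S00438
-- import your own Pool.Agent.* helpers here
import Pool.Agent.BezHen.Final

set_option autoImplicit false
open Pool Pool.MP_2023ef_al

namespace Pool.Agent.S00438

/-- The negation of the preceding statement: For every commutative Bezout domain A and every 2×2 matrix M over A, there are invertible 2×2 matrices C and D over A such that C·M·D is a diagonal matrix. -/
theorem result :
    ¬ (∀ (A : Type) [CommRing A] [IsDomain A] [IsBezout A]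
      (M : Matrix (Fin 2) (Fin 2) A),
      ∃ C D : Matrix (Fin 2) (Fin 2) A, IsUnit C ∧ IsUnit D ∧ (C * M * D).IsDiag) := by
  intro H
  obtain ⟨α, hα, hbd, hbase, hgp, happ⟩ := Pool.Agent.BezHen.exists_seq
  have : IsBezout (Pool.Agent.BezHen.BR α) :=
    Pool.Agent.BezHen.isBezout_BR hα hbd hgp happ
  -- the entries of the matrix
  have hX : ∀ i : ℕ, ∃ x : Pool.Agent.BezHen.BR α, ∀ v, x.1.2 v = α i v := by
    intro i
    obtain ⟨x, -, hx⟩ := Pool.Agent.BezHen.exists_elt hα (MvPolynomial.X i) 1 (by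
      intro v; rw [Pool.Agent.BezHen.ev_one]; exact one_ne_zero) 2 (by
      intro v
      rw [Pool.Agent.BezHen.ev_X, Pool.Agent.BezHen.ev_one]
      simpa using hbd i v)
    refine ⟨x, fun v => ?_⟩
    rw [hx v, Pool.Agent.BezHen.ev_X, Pool.Agent.BezHen.ev_one, div_one]
  obtain ⟨x0, hx0⟩ := hX 0
  obtain ⟨x1, hx1⟩ := hX 1
  obtain ⟨x2, hx2⟩ := hX 2
  obtain ⟨C, D, hC, hD, hdiag⟩ := H (Pool.Agent.BezHen.BR α) !![x0, x1; x2, 1 - x0]
  obtain ⟨C', hC'⟩ := hC.exists_left_inv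
  obtain ⟨D', hD'⟩ := hD.exists_right_inv
  set M : Matrix (Fin 2) (Fin 2) (Pool.Agent.BezHen.BR α) := !![x0, x1; x2, 1 - x0] with hM
  set E := C * M * D with hE
  have hE01 : E 0 1 = 0 := hdiag (by decide)
  have hE10 : E 1 0 = 0 := hdiag (by decide)
  have hMeq : M = C' * E * D' := by
    rw [hE]
    calc M = (C' * C) * M * (D * D') := by rw [hC', hD']; simp
      _ = C' * (C * M * D) * D' := by simp only [Matrix.mul_assoc]
  have htr : M 0 0 + M 1 1 = 1 := by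
    rw [hM]; simp
  have hst : (C' 0 0 * D' 0 0 + C' 1 0 * D' 0 1) * E 0 0 +
      (C' 0 1 * D' 1 0 + C' 1 1 * D' 1 1) * E 1 1 = 1 := by
    rw [← htr, hMeq]
    simp only [Matrix.mul_apply, Fin.sum_univ_two, hE01, hE10]
    ring
  set s := C' 0 0 * D' 0 0 + C' 1 0 * D' 0 1 with hs
  set t := C' 0 1 * D' 1 0 + C' 1 1 * D' 1 1 with ht
  have hE00 : E 0 0 = (C 0 0 * M 0 0 + C 0 1 * M 1 0) * D 0 0 +
      (C 0 0 * M 0 1 + C 0 1 * M 1 1) * D 1 0 := by
    rw [hE]; simp only [Matrix.mul_apply, Fin.sum_univ_two]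
  have hE11 : E 1 1 = (C 1 0 * M 0 0 + C 1 1 * M 1 0) * D 0 1 +
      (C 1 0 * M 0 1 + C 1 1 * M 1 1) * D 1 1 := by
    rw [hE]; simp only [Matrix.mul_apply, Fin.sum_univ_two]
  have hE01' : (C 0 0 * M 0 0 + C 0 1 * M 1 0) * D 0 1 +
      (C 0 0 * M 0 1 + C 0 1 * M 1 1) * D 1 1 = 0 := by
    rw [← hE01, hE]; simp only [Matrix.mul_apply, Fin.sum_univ_two]
  have hE10' : (C 1 0 * M 0 0 + C 1 1 * M 1 0) * D 0 0 +
      (C 1 0 * M 0 1 + C 1 1 * M 1 1) * D 1 0 = 0 := by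
    rw [← hE10, hE]; simp only [Matrix.mul_apply, Fin.sum_univ_two]
  have hM00 : M 0 0 = x0 := by rw [hM]; simp
  have hM01 : M 0 1 = x1 := by rw [hM]; simp
  have hM10 : M 1 0 = x2 := by rw [hM]; simp
  have hM11 : M 1 1 = 1 - x0 := by rw [hM]; simp
  have hfin : (s * C 0 0 + t * C 1 0) * (x0 * (D 0 0 + D 0 1) + x1 * (D 1 0 + D 1 1)) +
      (s * C 0 1 + t * C 1 1) * (x2 * (D 0 0 + D 0 1) + (1 - x0) * (D 1 0 + D 1 1)) = 1 := by
    rw [hE00, hE11, hM00, hM01, hM10, hM11] at hst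
    rw [hM00, hM01, hM10, hM11] at hE01' hE10'
    linear_combination hst + s * hE01' + t * hE10'
  refine Pool.Agent.BezHen.obstruction hbase (s * C 0 0 + t * C 1 0).1.2 (s * C 0 1 + t * C 1 1).1.2
    (D 0 0 + D 0 1).1.2 (D 1 0 + D 1 1).1.2 ?_
  intro v
  have h1 := congrArg (fun z : Pool.Agent.BezHen.BR α => z.1.2 v) hfin
  have h2 : ((1 : Pool.Agent.BezHen.BR α).1.2 : BoundedContinuousFunction Pool.Agent.BezHen.P ℂ) v = 1 := rfl
  have h3 : (((s * C 0 0 + t * C 1 0) * (x0 * (D 0 0 + D 0 1) + x1 * (D 1 0 + D 1 1)) +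
      (s * C 0 1 + t * C 1 1) * (x2 * (D 0 0 + D 0 1) + (1 - x0) * (D 1 0 + D 1 1))).1.2 :
        BoundedContinuousFunction Pool.Agent.BezHen.P ℂ) v =
      (s * C 0 0 + t * C 1 0).1.2 v * (x0.1.2 v * (D 0 0 + D 0 1).1.2 v + x1.1.2 v * (D 1 0 + D 1 1).1.2 v) +
      (s * C 0 1 + t * C 1 1).1.2 v * (x2.1.2 v * (D 0 0 + D 0 1).1.2 v +
        (1 - x0.1.2 v) * (D 1 0 + D 1 1).1.2 v) := rfl
  have h4 := h1.trans h2
  have h5 := h3.symm.trans h4
  rw [hx0, hx1, hx2] at h5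
  exact h5

end Pool.Agent.S00438
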