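import Pool.Statements.S00450
import Pool.Agent.Helper943.LM.Final
import Pool.Agent.Helper943.LM.QI
import Pool.Agent.Helper943.LM.Grp

set_option autoImplicit false
open Pool Pool.MP_20ff22_al

namespace Pool.Agent.S00450

/-- The negation of the preceding statement: For all groups G and H: if G is automatic (regular word acceptor onto G with regular padded multiplier languages) and G is quasi-isometric to H via word metrics of finite generating sets, then H is automatic. -/
theorem result :
    ¬ (∀ (G H : Type) [Group G] [Group H],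
      (∃ (α : Type) (_ : Fintype α) (μ : α → G) (σ : Type) (_ : Fintype σ) (W : DFA α σ),
        (∀ g : G, ∃ w : List α, w ∈ W.accepts ∧ (w.map μ).prod = g) ∧
        ∀ x : Option α, ∃ (τ : Type) (_ : Fintype τ) (M : DFA (Option α × Option α) τ),
          ∀ p : List (Option α × Option α), p ∈ M.accepts ↔
            ∃ u v : List α, u ∈ W.accepts ∧ v ∈ W.accepts ∧
              p = (u.map some ++ List.replicate (v.length - u.length) none).zip
                    (v.map some ++ List.replicate (u.length - v.length) none) ∧
              (u.map μ).prod * (x.map μ).getD 1 = (v.map μ).prod) →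
      (∃ (S : Finset G) (T : Finset H) (f : G → H) (K C : ℕ),
        Subgroup.closure (S : Set G) = ⊤ ∧ Subgroup.closure (T : Set H) = ⊤ ∧
        (∀ a b : G,
          (SimpleGraph.fromRel (fun h k : H => ∃ t ∈ T, k = h * t)).dist (f a) (f b)
            ≤ K * (SimpleGraph.fromRel (fun g k : G => ∃ s ∈ S, k = g * s)).dist a b + C) ∧
        (∀ a b : G,
          (SimpleGraph.fromRel (fun g k : G => ∃ s ∈ S, k = g * s)).dist a b
            ≤ K * (SimpleGraph.fromRel (fun h k : H => ∃ t ∈ T, k = h * t)).dist (f a) (f b) + C) ∧
        (∀ h : H, ∃ g : G,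
          (SimpleGraph.fromRel (fun h' k : H => ∃ t ∈ T, k = h' * t)).dist (f g) h ≤ C)) →
      (∃ (α : Type) (_ : Fintype α) (μ : α → H) (σ : Type) (_ : Fintype σ) (W : DFA α σ),
        (∀ g : H, ∃ w : List α, w ∈ W.accepts ∧ (w.map μ).prod = g) ∧
        ∀ x : Option α, ∃ (τ : Type) (_ : Fintype τ) (M : DFA (Option α × Option α) τ),
          ∀ p : List (Option α × Option α), p ∈ M.accepts ↔
            ∃ u v : List α, u ∈ W.accepts ∧ v ∈ W.accepts ∧
              p = (u.map some ++ List.replicate (v.length - u.length) none).zip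
                    (v.map some ++ List.replicate (u.length - v.length) none) ∧
              (u.map μ).prod * (x.map μ).getD 1 = (v.map μ).prod)) := by
  intro h
  obtain ⟨H, _, co, hom, B, h1, h2, h3, h4⟩ := Pool.Agent.Helper943.LM.exists_H
  obtain ⟨T⟩ := Pool.Agent.Helper943.LM.tp_of_H H co hom B h1 h2 h3 h4
  have h5 : Pool.Agent.Helper943.LM.AutStr H :=
    h Pool.Agent.Helper943.LM.G0 H Pool.Agent.Helper943.LM.g0_aut
      (Pool.Agent.Helper943.LM.qi_data T)
  obtain ⟨U⟩ := Pool.Agent.Helper943.LM.uaOfAut h5
  exact Pool.Agent.Helper943.LM.no_UA T U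
end Pool.Agent.S00450
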