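import Pool.Statements.S00453

set_option autoImplicit false
open Pool Pool.MP_21aa77_al

namespace Pool.Agent.S00453

/-- The swap of the two blocks `[0, 2^k)` and `[2^k, 2^(k+1))`. -/
def swapFun (k n : ℕ) : ℕ :=
  if n < 2 ^ k then n + 2 ^ k else if n < 2 ^ (k + 1) then n - 2 ^ k else n

theorem swapFun_swapFun (k n : ℕ) : swapFun k (swapFun k n) = n := by
  unfold swapFun
  have h : 2 ^ (k + 1) = 2 ^ k + 2 ^ k := by ring
  have h0 : 0 < 2 ^ k := by positivity
  split_ifs <;> omega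

/-- The swap as a permutation. -/
def sw (k : ℕ) : Equiv.Perm ℕ := Function.Involutive.toPerm (swapFun k) (swapFun_swapFun k)

theorem sw_apply (k n : ℕ) : sw k n = swapFun k n := rfl

theorem sw_inv (k : ℕ) : (sw k)⁻¹ = sw k := by
  ext n
  rw [Equiv.Perm.inv_def]
  rfl

theorem swapFun_div_of_le {j k : ℕ} (h : j ≤ k) (n : ℕ) :
    swapFun k n / 2 ^ j = swapFun (k - j) (n / 2 ^ j) := by
  obtain ⟨i, rfl⟩ := Nat.exists_eq_add_of_le h
  have e1 : j + i - j = i := by omega
  have h0 : 0 < 2 ^ j := by positivity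
  rw [e1]
  unfold swapFun
  have a1 : n < 2 ^ (j + i) ↔ n / 2 ^ j < 2 ^ i := by
    rw [Nat.div_lt_iff_lt_mul h0, ← pow_add, add_comm]
  have a2 : n < 2 ^ (j + i + 1) ↔ n / 2 ^ j < 2 ^ (i + 1) := by
    rw [Nat.div_lt_iff_lt_mul h0, ← pow_add]
    have : i + 1 + j = j + i + 1 := by ring
    rw [this]
  by_cases c1 : n < 2 ^ (j + i)
  · rw [if_pos c1, if_pos (a1.1 c1), pow_add, Nat.add_mul_div_left _ _ h0]
  · rw [if_neg c1, if_neg (fun h => c1 (a1.2 h))]
    by_cases c2 : n < 2 ^ (j + i + 1)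
    · rw [if_pos c2, if_pos (a2.1 c2), pow_add, Nat.sub_mul_div]
    · rw [if_neg c2, if_neg (fun h => c2 (a2.2 h))]

theorem swapFun_div_of_lt {j k : ℕ} (h : k < j) (n : ℕ) :
    swapFun k n / 2 ^ j = n / 2 ^ j := by
  have h1 : 2 ^ (k + 1) ≤ 2 ^ j := Nat.pow_le_pow_right (by norm_num) h
  have h2 : 2 ^ (k + 1) = 2 ^ k + 2 ^ k := by ring
  unfold swapFun
  split_ifs with c1 c2
  · rw [Nat.div_eq_of_lt (by omega), Nat.div_eq_of_lt (by omega)]
  · rw [Nat.div_eq_of_lt (by omega), Nat.div_eq_of_lt (by omega)]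
  · rfl

/-- The group of finitary permutations of `ℕ` preserving all dyadic blocks. -/
def G : Subgroup (Equiv.Perm ℕ) where
  carrier := {g | (∃ N : ℕ, ∀ n, 2 ^ N ≤ n → g n = n) ∧
    ∀ k m n, m / 2 ^ k = n / 2 ^ k ↔ g m / 2 ^ k = g n / 2 ^ k}
  mul_mem' := by
    rintro a b ⟨⟨N, hN⟩, ha⟩ ⟨⟨M, hM⟩, hb⟩
    refine ⟨⟨max N M, fun n hn => ?_⟩, fun k m n => ?_⟩
    · have h1 : 2 ^ N ≤ n := le_trans (Nat.pow_le_pow_right (by norm_num) (le_max_left _ _)) hn
      have h2 : 2 ^ M ≤ n := le_trans (Nat.pow_le_pow_right (by norm_num) (le_max_right _ _)) hn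
      rw [Equiv.Perm.mul_apply, hM n h2, hN n h1]
    · rw [hb k m n, ha k (b m) (b n)]
      rfl
  one_mem' := ⟨⟨0, fun n _ => rfl⟩, fun k m n => Iff.rfl⟩
  inv_mem' := by
    rintro a ⟨⟨N, hN⟩, ha⟩
    refine ⟨⟨N, fun n hn => ?_⟩, fun k m n => ?_⟩
    · rw [Equiv.Perm.inv_eq_iff_eq]
      exact (hN n hn).symm
    · rw [ha k (a⁻¹ m) (a⁻¹ n)]
      simp

theorem sw_mem (k : ℕ) : sw k ∈ G := by
  refine ⟨⟨k + 1, fun n hn => ?_⟩, fun j m n => ?_⟩
  · have h2 : 2 ^ (k + 1) = 2 ^ k + 2 ^ k := by ring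
    rw [sw_apply, swapFun, if_neg (by omega), if_neg (by omega)]
  · rw [sw_apply, sw_apply]
    rcases le_or_gt j k with h | h
    · rw [swapFun_div_of_le h, swapFun_div_of_le h]
      exact ((Function.Involutive.injective (swapFun_swapFun (k - j))).eq_iff).symm
    · rw [swapFun_div_of_lt h, swapFun_div_of_lt h]

/-- Key induction: an element of `G` preserving a block of size `2^k` has its `2^k`-th power
trivial on that block. -/
theorem pow_apply_eq (k : ℕ) : ∀ g ∈ G, ∀ n : ℕ, g n / 2 ^ k = n / 2 ^ k →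
    (g ^ (2 ^ k)) n = n := by
  induction k with
  | zero =>
    intro g _ n h
    simpa using h
  | succ k ih =>
    intro g hg n h
    have hrel := hg.2
    have key : (g ^ 2) n / 2 ^ k = n / 2 ^ k := by
      have e : (g ^ 2) n = g (g n) := by
        rw [pow_two, Equiv.Perm.mul_apply]
      rw [e]
      have h1 : g (g n) / 2 ^ (k + 1) = g n / 2 ^ (k + 1) := (hrel (k + 1) (g n) n).1 h
      have h2 := hrel k (g n) n
      rw [pow_succ, ← Nat.div_div_eq_div_mul, ← Nat.div_div_eq_div_mul] at h h1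
      by_cases c : g n / 2 ^ k = n / 2 ^ k
      · rw [h2.1 c, c]
      · have c2 : ¬ (g (g n) / 2 ^ k = g n / 2 ^ k) := fun hh => c (h2.2 hh)
        omega
    have := ih (g ^ 2) (G.pow_mem hg 2) n key
    rw [← pow_mul] at this
    rw [pow_succ, mul_comm]
    exact this

theorem isPGroup_G : IsPGroup 2 G := by
  intro g
  obtain ⟨g, hg⟩ := g
  obtain ⟨N, hN⟩ := hg.1
  refine ⟨N, ?_⟩
  apply Subtype.ext
  change g ^ 2 ^ N = 1
  ext n
  by_cases c : n < 2 ^ N
  · have hgn : g n < 2 ^ N := by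
      by_contra hc
      have := hN (g n) (by omega)
      have h3 := g.injective this
      omega
    rw [pow_apply_eq N g hg n (by rw [Nat.div_eq_of_lt c, Nat.div_eq_of_lt hgn])]
    rfl
  · have hn : g n = n := hN n (by omega)
    have : (g ^ 2 ^ N) n = n := by
      have := Equiv.Perm.pow_apply_eq_self_of_apply_eq_self hn (2 ^ N)
      exact this
    rw [this]
    rfl

/-- The subgroup of permutations in `G` supported on `[0, 2^N)`. -/
def GN (N : ℕ) : Subgroup G where
  carrier := {g | ∀ n, 2 ^ N ≤ n → (g : Equiv.Perm ℕ) n = n}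
  mul_mem' := by
    intro a b ha hb n hn
    have : ((a * b : G) : Equiv.Perm ℕ) n = (a : Equiv.Perm ℕ) ((b : Equiv.Perm ℕ) n) := rfl
    rw [this, hb n hn, ha n hn]
  one_mem' := fun n _ => rfl
  inv_mem' := by
    intro a ha n hn
    have : ((a⁻¹ : G) : Equiv.Perm ℕ) n = (a : Equiv.Perm ℕ)⁻¹ n := rfl
    rw [this, Equiv.Perm.inv_eq_iff_eq]
    exact (ha n hn).symm

theorem GN_mono {M N : ℕ} (h : M ≤ N) : GN M ≤ GN N := by
  intro g hg n hn
  exact hg n (le_trans (Nat.pow_le_pow_right (by norm_num) h) hn)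

theorem finite_GN (N : ℕ) : Finite (GN N) := by
  classical
  let φ : GN N → (Fin (2 ^ N) → Fin (2 ^ N)) := fun g i =>
    if h : ((g : G) : Equiv.Perm ℕ) i < 2 ^ N then ⟨((g : G) : Equiv.Perm ℕ) i, h⟩ else i
  apply Finite.of_injective φ
  intro a b hab
  apply Subtype.ext
  apply Subtype.ext
  ext n
  by_cases c : n < 2 ^ N
  · have hx : ∀ g : GN N, ((g : G) : Equiv.Perm ℕ) n < 2 ^ N := by
      intro g
      by_contra hc
      have := g.2 (((g : G) : Equiv.Perm ℕ) n) (by omega)
      have h3 := ((g : G) : Equiv.Perm ℕ).injective this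
      omega
    have := congrFun hab ⟨n, c⟩
    simp only [φ] at this
    rw [dif_pos (hx a), dif_pos (hx b)] at this
    simpa using this
  · rw [a.2 n (by omega), b.2 n (by omega)]

theorem locally_finite (s : Set G) (hs : s.Finite) : Finite ↥(Subgroup.closure s) := by
  have : ∃ N, s ⊆ (GN N : Set G) := by
    induction s, hs using Set.Finite.induction_on with
    | empty => exact ⟨0, by simp⟩
    | insert _ _ ih =>
      rename_i a s _ _
      obtain ⟨N, hN⟩ := ih
      obtain ⟨M, hM⟩ := a.2.1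
      refine ⟨max M N, ?_⟩
      intro x hx
      rcases hx with rfl | hx
      · exact GN_mono (le_max_left _ _) hM
      · exact GN_mono (le_max_right _ _) (hN hx)
  obtain ⟨N, hN⟩ := this
  have hle : Subgroup.closure s ≤ GN N := (Subgroup.closure_le _).2 hN
  have := finite_GN N
  exact Finite.of_injective (Subgroup.inclusion hle) (Subgroup.inclusion_injective hle)

instance countable_G : Countable G := by
  have : (Set.univ : Set G) = ⋃ N, (GN N : Set G) := by
    ext g
    simp only [Set.mem_univ, Set.mem_iUnion, true_iff]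
    obtain ⟨N, hN⟩ := g.2.1
    exact ⟨N, hN⟩
  rw [← Set.countable_univ_iff, this]
  apply Set.countable_iUnion
  intro N
  have := finite_GN N
  exact (Set.toFinite (GN N : Set G)).countable

/-- swaps as elements of `G` -/
def t (k : ℕ) : G := ⟨sw k, sw_mem k⟩

open Classical in
/-- An enumeration of `G` such that `en k` is supported on `[0, 2^k)` and every element of `G`
is attained. -/
noncomputable def en (k : ℕ) : G :=
  let e := Classical.choose (exists_surjective_nat G)
  if e (Nat.unpair k).1 ∈ GN k then e (Nat.unpair k).1 else 1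

theorem en_mem (k : ℕ) : en k ∈ GN k := by
  unfold en
  simp only
  split_ifs with h
  · exact h
  · exact one_mem _

theorem en_surj (g : G) : ∃ k, en k = g := by
  obtain ⟨N, hN⟩ := g.2.1
  obtain ⟨i, hi⟩ := Classical.choose_spec (exists_surjective_nat G) g
  have h1 : (Nat.unpair (Nat.pair i N)).1 = i := by simp
  have h2 : Classical.choose (exists_surjective_nat G) (Nat.unpair (Nat.pair i N)).1 = g := by
    rw [h1]
    exact hi
  refine ⟨Nat.pair i N, ?_⟩
  unfold en
  simp only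
  split_ifs with h3
  · exact h2
  · refine absurd ?_ h3
    rw [h2]
    exact GN_mono (Nat.right_le_pair i N) hN

/-- The conjugate of `en k` supported on the block `[2^k, 2^(k+1))`. -/
noncomputable def h (k : ℕ) : G := (t k)⁻¹ * en k * t k

theorem h_apply_of_not_mem (k n : ℕ) (hn : ¬ (2 ^ k ≤ n ∧ n < 2 ^ (k + 1))) :
    ((h k : G) : Equiv.Perm ℕ) n = n := by
  have e : ((h k : G) : Equiv.Perm ℕ) n = (sw k)⁻¹ ((en k : Equiv.Perm ℕ) (sw k n)) := rfl
  have h2 : 2 ^ (k + 1) = 2 ^ k + 2 ^ k := by ring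
  rw [e]
  have h3 : 2 ^ k ≤ sw k n := by
    rw [sw_apply, swapFun]
    split_ifs <;> omega
  rw [en_mem k _ h3]
  simp

theorem h_apply_mem (k n : ℕ) (hn : 2 ^ k ≤ n ∧ n < 2 ^ (k + 1)) :
    2 ^ k ≤ ((h k : G) : Equiv.Perm ℕ) n ∧ ((h k : G) : Equiv.Perm ℕ) n < 2 ^ (k + 1) := by
  by_contra hc
  have := h_apply_of_not_mem k _ hc
  have h3 := ((h k : G) : Equiv.Perm ℕ).injective this
  rw [h3] at hc
  exact hc hn

theorem h_comm (i j : ℕ) : h i * h j = h j * h i := by
  rcases eq_or_ne i j with rfl | hij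
  · rfl
  wlog hlt : i < j generalizing i j
  · exact (this j i hij.symm (by omega)).symm
  have hp : 2 ^ (i + 1) ≤ 2 ^ j := Nat.pow_le_pow_right (by norm_num) hlt
  apply Subtype.ext
  ext n
  have e1 : ((h i * h j : G) : Equiv.Perm ℕ) n =
    ((h i : G) : Equiv.Perm ℕ) (((h j : G) : Equiv.Perm ℕ) n) := rfl
  have e2 : ((h j * h i : G) : Equiv.Perm ℕ) n =
    ((h j : G) : Equiv.Perm ℕ) (((h i : G) : Equiv.Perm ℕ) n) := rfl
  rw [e1, e2]
  by_cases ci : 2 ^ i ≤ n ∧ n < 2 ^ (i + 1)
  · have m1 := h_apply_mem i n ci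
    rw [h_apply_of_not_mem j n (by omega), h_apply_of_not_mem j _ (by omega)]
  · rw [h_apply_of_not_mem i n ci]
    by_cases cj : 2 ^ j ≤ n ∧ n < 2 ^ (j + 1)
    · have m1 := h_apply_mem j n cj
      rw [h_apply_of_not_mem i _ (by omega)]
    · rw [h_apply_of_not_mem j n cj, h_apply_of_not_mem i n ci]

/-- The abelian subgroup generated by all the conjugates `h k`. -/
noncomputable def A : Subgroup G := Subgroup.closure (Set.range h)

theorem A_comm : ∀ a ∈ A, ∀ b ∈ A, a * b = b * a := by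
  have hc : ∀ x ∈ Set.range h, ∀ y ∈ Set.range h, x * y = y * x := by
    rintro _ ⟨i, rfl⟩ _ ⟨j, rfl⟩
    exact h_comm i j
  intro a ha b hb
  refine Subgroup.closure_induction₂ (p := fun x y _ _ => x * y = y * x) ?_ ?_ ?_ ?_ ?_ ?_ ?_ ha hb
  · intro x y hx hy
    exact hc x hx y hy
  · intro x _
    simp
  · intro x _
    simp
  · intro x y z _ _ _ h1 h2
    exact (Commute.mul_left (show Commute x z from h1) (show Commute y z from h2))
  · intro x y z _ _ _ h1 h2
    exact (Commute.mul_right (show Commute z x from h1) (show Commute z y from h2))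
  · intro x y _ _ h1
    exact (show Commute x y from h1).inv_left
  · intro x y _ _ h1
    exact (show Commute x y from h1).inv_right

theorem not_comm : t 0 * t 1 ≠ t 1 * t 0 := by
  intro hh
  have h1 := congrArg (fun g : G => (g : Equiv.Perm ℕ) 0) hh
  have h2 : ((t 0 * t 1 : G) : Equiv.Perm ℕ) 0 = swapFun 0 (swapFun 1 0) := rfl
  have h3 : ((t 1 * t 0 : G) : Equiv.Perm ℕ) 0 = swapFun 1 (swapFun 0 0) := rfl
  simp only [h2, h3] at h1
  norm_num [swapFun] at h1

/-- There is a prime p and a locally finite p-group G with a proper abelian subgroup A such that every element of G lies in some conjugate of A. -/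
theorem result :
    ∃ (p : ℕ) (G : Type) (_ : Group G) (A : Subgroup G),
      p.Prime ∧ IsPGroup p G ∧
      (∀ s : Set G, s.Finite → Finite ↥(Subgroup.closure s)) ∧
      A ≠ ⊤ ∧
      (∀ a ∈ A, ∀ b ∈ A, a * b = b * a) ∧
      (∀ g : G, ∃ x : G, x⁻¹ * g * x ∈ A) := by
  refine ⟨2, G, inferInstance, A, Nat.prime_two, isPGroup_G, locally_finite, ?_, A_comm, ?_⟩
  · intro hA
    apply not_comm
    apply A_comm
    · rw [hA]; exact Subgroup.mem_top _
    · rw [hA]; exact Subgroup.mem_top _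
  · intro g
    obtain ⟨k, rfl⟩ := en_surj g
    exact ⟨t k, Subgroup.subset_closure ⟨k, rfl⟩⟩

end Pool.Agent.S00453
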