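import Pool.Statements.S00463
import Pool.Agent.Helper294.OSt.Main
import Pool.Agent.Helper294.Ore.Main
import Pool.Agent.Helper294.Ore.M_cs_noeth

set_option autoImplicit false
open Pool Pool.MP_22afe8_al

namespace Pool.Agent.S00463

/-- If a group has an abelian normal subgroup with nilpotent quotient and admits a bi-invariant total order, then every bi-invariant partial order on it (a normal strict positive cone) extends to a bi-invariant total order. -/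
theorem result :
    ∀ (G : Type) [Group G],
      (∃ N : Subgroup G, ∃ _hN : N.Normal,
          (∀ a : G, a ∈ N → ∀ b : G, b ∈ N → a * b = b * a) ∧
          Group.IsNilpotent (G ⧸ N)) →
      (∃ P : Set G, (∀ a : G, a ∈ P → ∀ b : G, b ∈ P → a * b ∈ P) ∧
          (∀ a : G, a ∈ P → ∀ g : G, g * a * g⁻¹ ∈ P) ∧
          (1 : G) ∉ P ∧ (∀ g : G, g ≠ 1 → g ∈ P ∨ g⁻¹ ∈ P)) →
      ∀ Q : Set G, (∀ a : G, a ∈ Q → ∀ b : G, b ∈ Q → a * b ∈ Q) →
        (∀ a : G, a ∈ Q → ∀ g : G, g * a * g⁻¹ ∈ Q) →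
        (1 : G) ∉ Q →
        ∃ P : Set G, Q ⊆ P ∧ (∀ a : G, a ∈ P → ∀ b : G, b ∈ P → a * b ∈ P) ∧
          (∀ a : G, a ∈ P → ∀ g : G, g * a * g⁻¹ ∈ P) ∧ (1 : G) ∉ P ∧
          (∀ g : G, g ≠ 1 → g ∈ P ∨ g⁻¹ ∈ P) := by
  intro G _ hN hT Q hQm hQc hQ1
  obtain ⟨A, hA, hAab, hnil⟩ := hN
  obtain ⟨T0, hTm, hTc, hT1, hTt⟩ := hT
  obtain ⟨P, hQP, hP, hPt⟩ := H294OStar.general A (fun a ha b hb => hAab a ha b hb) hnil
    (fun Q _ _ _ H => by
      obtain ⟨n, ⟨C⟩⟩ := H294Ore.cs_of_fg_nilpotent Q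
      exact H294Ore.cs_noeth C H)
    (fun Q _ _ _ f g hf hg => H294Ore.ore_nat Q f g hf hg)
    T0 ⟨hTm, hTc, hT1⟩ hTt Q ⟨hQm, hQc, hQ1⟩
  exact ⟨P, hQP, hP.mul, hP.conj, hP.one, hPt⟩

end Pool.Agent.S00463
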