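import Pool.Statements.S00470
-- import your own Pool.Agent.* helpers here
import Pool.Agent.LawsFI.Final

/-!
# A counterexample: finite index overgroups of groups with finitely based laws

`F` is the free group on `x₀, x₁, …`, `N₀` the kernel of `F → C₂`, `x₀ ↦ -1`, `x_i ↦ 1 (i ≥ 1)`,
`R` the normal subgroup of `F` generated by all `[a⁴, b⁴]`, `a, b ∈ N₀`, `G = F/R`, `H = N₀/R`.
* The laws of `H` are the consequences of the single law `[x⁴, y⁴]`.
* Every group with a subgroup of index ≤ 2 satisfying `[x⁴, y⁴]` satisfies all laws of `G`.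
* For even `r` the word `[y⁸, x₁⁴, …, x_r⁴, (x₁⋯x_r)⁴]` is a law of `G`.
* For even `r > k` there is a group `ℤ wr P` in which this word is not a law, while every
  `k`-generator subgroup of the relevant subgroup has a subgroup of index ≤ 2 with the law
  `[x⁴, y⁴]`.  Here `P` is a finite 2-group, an extension of a class-2 group by `E = F₂^r`,
  in which `g⁴ = z ≠ 1` if the image of `g` in `E` is a basis vector or the all-ones vector
  and `g⁴ = 1` otherwise.
-/

set_option autoImplicit false
open Pool Pool.MP_233a97_al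

namespace Pool.Agent.S00470

/-- The negation of the preceding statement: For every group G and finite-index subgroup H: if some finite set of laws of H generates all laws of H as a verbal subgroup of the free group on countably many letters, then the same holds for G. -/
theorem result :
    ¬ (∀ (G : Type) [Group G] (H : Subgroup G), H.FiniteIndex →
      (∃ S : Finset (FreeGroup ℕ),
          (∀ s ∈ S, ∀ φ : FreeGroup ℕ →* H, φ s = 1) ∧
          ∀ w : FreeGroup ℕ, (∀ φ : FreeGroup ℕ →* H, φ w = 1) →
            w ∈ Subgroup.closure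
              {v : FreeGroup ℕ | ∃ s ∈ S, ∃ ψ : FreeGroup ℕ →* FreeGroup ℕ, ψ s = v}) →
      (∃ S : Finset (FreeGroup ℕ),
          (∀ s ∈ S, ∀ φ : FreeGroup ℕ →* G, φ s = 1) ∧
          ∀ w : FreeGroup ℕ, (∀ φ : FreeGroup ℕ →* G, φ w = 1) →
            w ∈ Subgroup.closure
              {v : FreeGroup ℕ | ∃ s ∈ S, ∃ ψ : FreeGroup ℕ →* FreeGroup ℕ, ψ s = v})) := by
  intro h
  obtain ⟨S, hS, hw⟩ := h Pool.Agent.LawsFI.G Pool.Agent.LawsFI.H inferInstance
    ⟨{Pool.Agent.LawsFI.u0}, Pool.Agent.LawsFI.H_laws.1, Pool.Agent.LawsFI.H_laws.2⟩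
  exact Pool.Agent.LawsFI.main_false S hS hw

end Pool.Agent.S00470

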