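import Pool.Statements.S00473
import Pool.Agent.Helper950.Lim

set_option autoImplicit false
open N5f09da3c
open Pool Pool.MP_23b8d1_al

namespace Pool.Agent.S00473

open Pool.Agent.Helper950

theorem good_of_equiv {G : Type*} {H : Type*} [Group G] [Group H] (e : G ≃* H) {a : H}
    (h : Good (e.symm a)) : Good a := by
  have h1 : ∀ {u v : H}, NS u v → NS (e.symm u) (e.symm v) := by
    intro u v huv
    exact huv.map e.symm.toMonoidHom
  have h2 : ∀ {u : H} {v : G}, NS (e.symm u) v → NS u (e v) := by
    intro u v huv
    have := huv.map e.toMonoidHom
    simpa using this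
  refine ⟨?_, ?_⟩
  · intro hcon
    apply h.1
    have := h1 hcon
    rwa [map_one] at this
  · intro x y hx hy
    obtain ⟨w, hw1, hw2⟩ := h.2 _ _ (h1 hx) (h1 hy)
    exact ⟨e w, h2 hw1, h2 hw2⟩

/-- There exists a group G that is simple (nontrivial, only trivial normal subgroups) such that every bi-invariant (left and right translation invariant) partial order on G is contained in a bi-invariant linear order. -/
theorem result :
    ∃ (G : Type*) (_ : Group G), IsSimpleGroup G ∧ ProOrderable G := by
  refine ⟨ULift Lim, inferInstance, ?_, ?_⟩
  · have := lim_simple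
    exact IsSimpleGroup.isSimpleGroup_of_surjective
      (MulEquiv.ulift (α := Lim)).symm.toMonoidHom (MulEquiv.ulift (α := Lim)).symm.surjective
  · apply proOrderable_of_good
    intro a ha
    have h1 : (MulEquiv.ulift (α := Lim)) a ≠ 1 := by
      intro h
      apply ha
      exact (MulEquiv.ulift (α := Lim)).injective (by rw [h, map_one])
    rcases lim_good _ h1 with h | h
    · left
      exact good_of_equiv (MulEquiv.ulift (α := Lim)).symm h
    · right
      apply good_of_equiv (MulEquiv.ulift (α := Lim)).symm
      exact h

end Pool.Agent.S00473
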