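import Pool.Statements.S00486

set_option autoImplicit false
open Pool Pool.MP_2475ca_al

namespace Pool.Agent.S00486

open MulAction Subgroup

section Abstract

variable {G Ω B : Type} [Group G] [Finite G] [Finite Ω] [Finite B] [MulAction G Ω]
  [MulAction G B]

omit [Finite G] in
theorem dvd_ncard_of_orbits (T : Subgroup G) (d : ℕ) :
    ∀ (n : ℕ) (S : Set Ω), S.ncard = n → (∀ t ∈ T, ∀ x ∈ S, t • x ∈ S) →
    (∀ x ∈ S, d ∣ (orbit T x).ncard) → d ∣ S.ncard := by
  intro n
  induction n using Nat.strong_induction_on with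
  | _ n ih =>
    intro S hn hS hd
    rcases S.eq_empty_or_nonempty with h | ⟨x, hx⟩
    · simp [h]
    · have hO : orbit T x ⊆ S := by
        rintro _ ⟨t, rfl⟩
        exact hS t t.2 x hx
      have hcard : (S \ orbit T x).ncard + (orbit T x).ncard = S.ncard :=
        Set.ncard_sdiff_add_ncard_of_subset hO
      have hpos : 0 < (orbit T x).ncard := by
        rw [Set.ncard_pos (Set.toFinite _)]
        exact ⟨x, mem_orbit_self x⟩
      have h2 : d ∣ (S \ orbit T x).ncard := by
        apply ih (S \ orbit T x).ncard (by omega) _ rfl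
        · rintro t ht y ⟨hy, hy'⟩
          refine ⟨hS t ht y hy, ?_⟩
          rintro ⟨u, hu⟩
          apply hy'
          refine ⟨⟨t, ht⟩⁻¹ * u, ?_⟩
          have hu' : (u : G) • x = t • y := hu
          show ((⟨t, ht⟩⁻¹ * u : T) : G) • x = y
          rw [Subgroup.coe_mul, mul_smul, hu']
          simp
        · rintro y ⟨hy, _⟩
          exact hd y hy
      rw [← hcard]
      exact dvd_add h2 (hd x hx)

omit [Finite G] [Finite Ω] in
theorem card_orbit_mul (T : Subgroup G) (x : Ω) :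
    (orbit T x).ncard * Nat.card (T ⊓ stabilizer G x : Subgroup G) = Nat.card T := by
  have h1 : Nat.card (orbit T x) * Nat.card (stabilizer T x) = Nat.card T := by
    rw [Nat.card_congr (orbitEquivQuotientStabilizer T x)]
    exact (Subgroup.card_eq_card_quotient_mul_card_subgroup _).symm
  have h2 : Nat.card (stabilizer T x) = Nat.card (T ⊓ stabilizer G x : Subgroup G) := by
    apply Nat.card_congr
    exact
      { toFun := fun t => ⟨t.1.1, t.1.2, t.2⟩
        invFun := fun t => ⟨⟨t.1, t.2.1⟩, t.2.2⟩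
        left_inv := fun t => rfl
        right_inv := fun t => rfl }
  rw [← h2]
  exact h1

omit [Finite Ω] [Finite B] in
theorem lemmaA {s : ℕ} (hs : s.Prime) (c : Ω → Ω → B)
    (hc : ∀ (g : G) (a b : Ω), a ≠ b → c (g • a) (g • b) = g • c a b)
    (H : Subgroup G) (hH : ∀ i j : B, ∃ h ∈ H, h • i = j)
    (T : Subgroup G) (hTH : T ≤ H) (hT : Nat.card T = s ^ (Nat.card H).factorization s)
    (α β : Ω) (hα : ∀ t ∈ T, t • α = α) (hαβ : α ≠ β) :
    s ^ (Nat.card B).factorization s ∣ (orbit T β).ncard := by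
  set p := c α β with hp
  have h1 : (orbit H p).ncard * Nat.card (H ⊓ stabilizer G p : Subgroup G) = Nat.card H :=
    card_orbit_mul H p
  have h2 : orbit H p = Set.univ := by
    ext j
    simp only [Set.mem_univ, iff_true]
    obtain ⟨h, hh, e⟩ := hH p j
    exact ⟨⟨h, hh⟩, e⟩
  rw [h2, Set.ncard_univ] at h1
  have h3 := card_orbit_mul T β
  have h4 : T ⊓ stabilizer G β ≤ H ⊓ stabilizer G p := by
    rintro t ⟨ht, hb⟩
    refine ⟨hTH ht, ?_⟩
    have hb' : t • β = β := hb
    show t • p = p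
    rw [hp, ← hc t α β hαβ, hα t ht, hb']
  have h5 : Nat.card (T ⊓ stabilizer G β : Subgroup G) ∣ Nat.card (H ⊓ stabilizer G p : Subgroup G) :=
    Subgroup.card_dvd_of_le h4
  have h6 : Nat.card (T ⊓ stabilizer G β : Subgroup G) ∣ Nat.card T :=
    Subgroup.card_dvd_of_le inf_le_left
  rw [hT] at h6
  obtain ⟨u, hu, hu'⟩ := (Nat.dvd_prime_pow hs).1 h6
  rw [hu'] at h5 h3
  have hHpos : Nat.card H ≠ 0 := Nat.card_pos.ne'
  have hSpos : Nat.card (H ⊓ stabilizer G p : Subgroup G) ≠ 0 := Nat.card_pos.ne'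
  have hBpos : Nat.card B ≠ 0 := by
    intro h0
    rw [h0, zero_mul] at h1
    exact hHpos h1.symm
  have h7 : (Nat.card H).factorization s =
      (Nat.card B).factorization s + (Nat.card (H ⊓ stabilizer G p : Subgroup G)).factorization s := by
    rw [← h1, Nat.factorization_mul hBpos hSpos]
    rfl
  have h8 : u ≤ (Nat.card (H ⊓ stabilizer G p : Subgroup G)).factorization s :=
    (hs.pow_dvd_iff_le_factorization hSpos).1 h5
  rw [hT] at h3
  have h9 : (orbit T β).ncard = s ^ ((Nat.card H).factorization s - u) := by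
    have hpos : 0 < s ^ u := pow_pos hs.pos u
    apply Nat.eq_of_mul_eq_mul_right hpos
    rw [h3, ← pow_add]
    congr 1
    omega
  rw [h9]
  apply pow_dvd_pow
  omega

omit [Finite B] in
theorem lemmaB {s : ℕ} (hs : s.Prime) (c : Ω → Ω → B)
    (hc : ∀ (g : G) (a b : Ω), a ≠ b → c (g • a) (g • b) = g • c a b)
    (H : Subgroup G) (hH : ∀ i j : B, ∃ h ∈ H, h • i = j)
    (F : Set Ω) (hF : ∀ h ∈ H, ∀ x ∈ F, h • x ∈ F) (hsF : ¬ s ∣ F.ncard) :
    ∃ T : Subgroup G, T ≤ H ∧ ∃ α ∈ F, (∀ t ∈ T, t • α = α) ∧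
      ∀ F' : Set Ω, α ∈ F' → (∀ t ∈ T, ∀ x ∈ F', t • x ∈ F') →
        F'.ncard ≡ 1 [MOD s ^ (Nat.card B).factorization s] := by
  have : Fact s.Prime := ⟨hs⟩
  let P : Sylow s H := default
  let T : Subgroup G := (P : Subgroup H).map H.subtype
  have hTH : T ≤ H := Subgroup.map_subtype_le _
  have hTcard : Nat.card T = s ^ (Nat.card H).factorization s := by
    rw [← P.card_eq_multiplicity]
    exact Nat.card_congr (Subgroup.equivMapOfInjective _ _ H.subtype_injective).symm.toEquiv
  have hfix : ∃ α ∈ F, ∀ t ∈ T, t • α = α := by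
    by_contra hcon
    push Not at hcon
    apply hsF
    apply dvd_ncard_of_orbits T s _ F rfl (fun t ht x hx => hF t (hTH ht) x hx)
    intro x hx
    have h3 := card_orbit_mul T x
    have h4 : (orbit T x).ncard ∣ s ^ (Nat.card H).factorization s := by
      rw [← hTcard, ← h3]
      exact dvd_mul_right _ _
    obtain ⟨j, hj, hj'⟩ := (Nat.dvd_prime_pow hs).1 h4
    rcases Nat.eq_zero_or_pos j with h0 | h0
    · exfalso
      rw [h0, pow_zero, Set.ncard_eq_one] at hj'
      obtain ⟨y, hy⟩ := hj'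
      obtain ⟨t, ht, htx⟩ := hcon x hx
      apply htx
      have e1 : x ∈ orbit T x := mem_orbit_self x
      have e2 : t • x ∈ orbit T x := ⟨⟨t, ht⟩, rfl⟩
      rw [hy] at e1 e2
      rw [Set.mem_singleton_iff] at e1 e2
      rw [e2, e1]
    · rw [hj']
      exact dvd_pow_self s h0.ne'
  obtain ⟨α, hαF, hα⟩ := hfix
  refine ⟨T, hTH, α, hαF, hα, ?_⟩
  intro F' hαF' hF'
  have h1 : s ^ (Nat.card B).factorization s ∣ (F' \ {α}).ncard := by
    apply dvd_ncard_of_orbits T _ _ (F' \ {α}) rfl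
    · rintro t ht x ⟨hx, hx'⟩
      refine ⟨hF' t ht x hx, ?_⟩
      intro h
      apply hx'
      rw [Set.mem_singleton_iff] at h ⊢
      have h5 := hα t ht
      rw [← h5] at h
      exact MulAction.injective t h
    · rintro x ⟨hx, hx'⟩
      apply lemmaA hs c hc H hH T hTH hTcard α x hα
      intro h
      exact hx' (by rw [h]; rfl)
  have h2 : (F' \ {α}).ncard + 1 = F'.ncard := Set.ncard_sdiff_singleton_add_one hαF'
  rw [← h2]
  have h3 : (F' \ {α}).ncard ≡ 0 [MOD s ^ (Nat.card B).factorization s] :=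
    (Nat.modEq_zero_iff_dvd).2 h1
  simpa using h3.add_right 1

omit [Finite B] in
theorem frattini (K : Subgroup G) [K.Normal] (hK : ∀ m ∈ K, ∀ p : B, m • p = p)
    (L : Subgroup G) (hL : ∀ i j : B, ∃ h ∈ L, h • i = j) {r : ℕ} [Fact r.Prime]
    (P : Sylow r (K.subgroupOf L)) :
    ∀ i j : B, ∃ h ∈ L ⊓ normalizer ((((P : Subgroup (K.subgroupOf L)).map
      (K.subgroupOf L).subtype).map L.subtype : Subgroup G) : Set G), h • i = j := by
  intro i j
  obtain ⟨g, hg, hgij⟩ := hL i j
  have hfr := Sylow.normalizer_sup_eq_top P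
  have hgt : (⟨g, hg⟩ : L) ∈ (normalizer ((P : Subgroup (K.subgroupOf L)).map
      (K.subgroupOf L).subtype : Set L) ⊔ K.subgroupOf L : Subgroup L) := by
    rw [hfr]; exact Subgroup.mem_top _
  obtain ⟨y, hy, z, hz, hyz⟩ := Subgroup.mem_sup_of_normal_right.1 hgt
  have hzK : (z : G) ∈ K := hz
  have hgy : g = (y : G) * (z : G) := by
    have := congrArg (Subtype.val) hyz
    simpa using this.symm
  refine ⟨(y : G), ⟨y.2, ?_⟩, ?_⟩
  · have h1 := Subgroup.le_normalizer_map (H := (P : Subgroup (K.subgroupOf L)).map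
      (K.subgroupOf L).subtype) L.subtype
    exact h1 ⟨y, hy, rfl⟩
  · rw [hgy, mul_smul, hK _ hzK] at hgij
    exact hgij

omit [Finite G] [Finite B] in
theorem card_map_map (L : Subgroup G) (N : Subgroup L) (P : Subgroup N) :
    Nat.card ((P.map N.subtype).map L.subtype : Subgroup G) = Nat.card P := by
  rw [← Nat.card_congr (Subgroup.equivMapOfInjective (P.map N.subtype) _ L.subtype_injective).toEquiv,
    ← Nat.card_congr (Subgroup.equivMapOfInjective P _ N.subtype_injective).toEquiv]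

omit [Finite B] in
theorem lemmaC (K : Subgroup G) [K.Normal] (hK : ∀ m ∈ K, ∀ p : B, m • p = p)
    {r : ℕ} [hr : Fact r.Prime] (X : Subgroup G) (hXK : X ≤ K) (n : ℕ)
    (hX : Nat.card X = r ^ n)
    (hL : ∀ i j : B, ∃ h ∈ normalizer (X : Set G), h • i = j)
    (hn : r ^ (n + 1) ∣ Nat.card K) :
    ∃ (Y : Subgroup G) (m : ℕ), X ≤ Y ∧ Y ≤ K ∧ Nat.card Y = r ^ m ∧ n < m ∧
      ∀ i j : B, ∃ h ∈ normalizer (X : Set G) ⊓ normalizer (Y : Set G), h • i = j := by
  set L : Subgroup G := normalizer (X : Set G) with hLdef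
  have hXL : X ≤ L := Subgroup.le_normalizer
  let X2 : Subgroup (K.subgroupOf L) := (X.subgroupOf L).subgroupOf (K.subgroupOf L)
  have hX2 : IsPGroup r X2 := by
    have hXp : IsPGroup r X := IsPGroup.of_card hX
    have h1 : IsPGroup r (X.subgroupOf L) := hXp.comap_subtype
    exact h1.comap_subtype
  obtain ⟨P, hP⟩ := hX2.exists_le_sylow
  refine ⟨((P : Subgroup (K.subgroupOf L)).map (K.subgroupOf L).subtype).map L.subtype,
    (Nat.card (K.subgroupOf L)).factorization r, ?_, ?_, ?_, ?_, ?_⟩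
  · intro x hx
    have hxL : x ∈ L := hXL hx
    have hxK : x ∈ K := hXK hx
    refine ⟨⟨x, hxL⟩, ⟨⟨⟨x, hxL⟩, hxK⟩, hP ?_, rfl⟩, rfl⟩
    exact hx
  · rintro _ ⟨y, ⟨z, hz, rfl⟩, rfl⟩
    exact z.2
  · rw [card_map_map]
    exact P.card_eq_multiplicity
  · have h1 : Nat.card (X.subgroupOf K) = r ^ n := by
      rw [← hX]
      exact Nat.card_congr (Subgroup.subgroupOfEquivOfLe hXK).toEquiv
    have h2 := Sylow.prime_pow_dvd_card_normalizer hn h1
    have h3 : (normalizer (X : Set G)).subgroupOf K = normalizer (X.subgroupOf K : Set K) :=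
      Subgroup.subgroupOf_normalizer_eq hXK
    rw [← h3] at h2
    have h4 : Nat.card ((normalizer (X : Set G)).subgroupOf K) = Nat.card (K.subgroupOf L) := by
      apply Nat.card_congr
      exact
        { toFun := fun t => ⟨⟨t.1.1, t.2⟩, t.1.2⟩
          invFun := fun t => ⟨⟨t.1.1, t.2⟩, t.1.2⟩
          left_inv := fun t => rfl
          right_inv := fun t => rfl }
    rw [h4] at h2
    have h5 := (hr.out.pow_dvd_iff_le_factorization (Nat.card_pos.ne')).1 h2
    omega
  · exact frattini K hK L hL P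

omit [Finite G] [Finite Ω] in
theorem card_inf_stab_conj (X : Subgroup G) (h : G) (hh : h ∈ normalizer (X : Set G)) (b : Ω) :
    Nat.card (X ⊓ stabilizer G (h • b) : Subgroup G) = Nat.card (X ⊓ stabilizer G b : Subgroup G) := by
  apply Nat.card_congr
  have hh1 := Subgroup.mem_normalizer_iff.1 hh
  have hh2 := Subgroup.mem_normalizer_iff''.1 hh
  exact
    { toFun := fun t => ⟨h⁻¹ * t.1 * h, (hh2 _).1 t.2.1, by
        have ht : t.1 • h • b = h • b := t.2.2
        show (h⁻¹ * t.1 * h) • b = b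
        rw [mul_smul, mul_smul, ht, inv_smul_smul]⟩
      invFun := fun t => ⟨h * t.1 * h⁻¹, (hh1 _).1 t.2.1, by
        have ht : t.1 • b = b := t.2.2
        show (h * t.1 * h⁻¹) • (h • b) = h • b
        rw [mul_smul, inv_smul_smul, mul_smul, ht]⟩
      left_inv := fun t => by
        apply Subtype.ext
        show h * (h⁻¹ * t.1 * h) * h⁻¹ = t.1
        group
      right_inv := fun t => by
        apply Subtype.ext
        show h⁻¹ * (h * t.1 * h⁻¹) * h = t.1
        group }

omit [Finite B] in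
/-- climbing from an `r`-subgroup with good fixed structure to a Sylow subgroup -/
theorem climb (K : Subgroup G) [K.Normal] (hK : ∀ m ∈ K, ∀ p : B, m • p = p)
    (hKt : ∀ a b : Ω, ∃ m ∈ K, m • a = b)
    (c : Ω → Ω → B)
    (hc : ∀ (g : G) (a b : Ω), a ≠ b → c (g • a) (g • b) = g • c a b)
    {r : ℕ} [hr : Fact r.Prime] {s : ℕ} (hs : s.Prime) (hsk : s ∣ Nat.card B) (hB : Nat.card B ≠ 0)
    (hΩ : Nat.card Ω ≠ 0)
    (e : ℕ) (he : e + (Nat.card Ω).factorization r = (Nat.card K).factorization r) :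
    ∀ (d n : ℕ) (X : Subgroup G), X ≤ K → Nat.card X = r ^ n →
      n + d = (Nat.card K).factorization r →
      (∀ i j : B, ∃ h ∈ normalizer (X : Set G), h • i = j) →
      (¬ s ∣ {b : Ω | Nat.card (X ⊓ stabilizer G b : Subgroup G) = r ^ e}.ncard) →
      r ^ (Nat.card Ω).factorization r ≡ 1 [MOD s ^ (Nat.card B).factorization s] := by
  have hv : 0 < (Nat.card B).factorization s := hs.factorization_pos_of_dvd hB hsk
  have hcardK : ∀ b : Ω, Nat.card Ω * Nat.card (K ⊓ stabilizer G b : Subgroup G) = Nat.card K := by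
    intro b
    have h1 := card_orbit_mul K b
    have h2 : orbit K b = Set.univ := by
      ext j
      simp only [Set.mem_univ, iff_true]
      obtain ⟨h, hh, e⟩ := hKt b j
      exact ⟨⟨h, hh⟩, e⟩
    rw [h2, Set.ncard_univ] at h1
    exact h1
  have hKb : ∀ b : Ω, (Nat.card (K ⊓ stabilizer G b : Subgroup G)).factorization r = e := by
    intro b
    have h1 := hcardK b
    have h2 : (Nat.card K).factorization r = (Nat.card Ω).factorization r +
        (Nat.card (K ⊓ stabilizer G b : Subgroup G)).factorization r := by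
      rw [← h1, Nat.factorization_mul hΩ Nat.card_pos.ne']
      rfl
    omega
  intro d
  induction d using Nat.strong_induction_on with
  | _ d ih =>
  intro n X hXK hX hnd hN hF
  rcases Nat.eq_zero_or_pos d with hd | hd
  · -- X is a Sylow subgroup of K
    obtain ⟨T, hTN, α, hαF, hαT, hT⟩ := lemmaB hs c hc (normalizer (X : Set G)) hN
      {b : Ω | Nat.card (X ⊓ stabilizer G b : Subgroup G) = r ^ e}
      (by
        intro h hh x hx
        show Nat.card (X ⊓ stabilizer G (h • x) : Subgroup G) = r ^ e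
        rw [card_inf_stab_conj X h hh x]
        exact hx) hF
    have h1 := hT (orbit X α) (mem_orbit_self α) (by
      rintro t ht _ ⟨x, rfl⟩
      have h2 := (Subgroup.mem_normalizer_iff.1 (hTN ht) x.1).1 x.2
      refine ⟨⟨t * x.1 * t⁻¹, h2⟩, ?_⟩
      show (t * x.1 * t⁻¹) • α = t • (x.1 • α)
      have h3 : t⁻¹ • α = α := by
        rw [inv_smul_eq_iff]
        exact (hαT t ht).symm
      rw [mul_smul, h3, mul_smul])
    have h2 := card_orbit_mul X α
    have h3 : Nat.card (X ⊓ stabilizer G α : Subgroup G) = r ^ e := hαF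
    rw [h3, hX] at h2
    have h4 : (orbit X α).ncard = r ^ (Nat.card Ω).factorization r := by
      have hpos : 0 < r ^ e := pow_pos hr.out.pos e
      apply Nat.eq_of_mul_eq_mul_right hpos
      rw [h2, ← pow_add]
      congr 1
      omega
    rw [h4] at h1
    exact h1
  · have hdvd : r ^ (n + 1) ∣ Nat.card K := by
      rw [hr.out.pow_dvd_iff_le_factorization Nat.card_pos.ne']
      omega
    obtain ⟨Y, m, hXY, hYK, hYm, hnm, hH⟩ := lemmaC K hK X hXK n hX hN hdvd
    have hm : m ≤ (Nat.card K).factorization r := by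
      rw [← hr.out.pow_dvd_iff_le_factorization Nat.card_pos.ne', ← hYm]
      exact Subgroup.card_dvd_of_le hYK
    obtain ⟨T, hTN, α, hαF, hαT, hT⟩ := lemmaB hs c hc
      (normalizer (X : Set G) ⊓ normalizer (Y : Set G)) hH
      {b : Ω | Nat.card (X ⊓ stabilizer G b : Subgroup G) = r ^ e}
      (by
        intro h hh x hx
        show Nat.card (X ⊓ stabilizer G (h • x) : Subgroup G) = r ^ e
        rw [card_inf_stab_conj X h hh.1 x]
        exact hx) hF
    have hαY : Nat.card (Y ⊓ stabilizer G α : Subgroup G) = r ^ e := by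
      have h1 : Nat.card (X ⊓ stabilizer G α : Subgroup G) = r ^ e := hαF
      have h2 : r ^ e ∣ Nat.card (Y ⊓ stabilizer G α : Subgroup G) := by
        rw [← h1]
        exact Subgroup.card_dvd_of_le (inf_le_inf_right _ hXY)
      have h3 : Nat.card (Y ⊓ stabilizer G α : Subgroup G) ∣ r ^ m := by
        rw [← hYm]
        exact Subgroup.card_dvd_of_le inf_le_left
      obtain ⟨u, hu, hu'⟩ := (Nat.dvd_prime_pow hr.out).1 h3
      have h4 : Nat.card (Y ⊓ stabilizer G α : Subgroup G) ∣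
          Nat.card (K ⊓ stabilizer G α : Subgroup G) :=
        Subgroup.card_dvd_of_le (inf_le_inf_right _ hYK)
      rw [hu', hr.out.pow_dvd_iff_le_factorization Nat.card_pos.ne', hKb] at h4
      rw [hu'] at h2 ⊢
      have h5 := (Nat.pow_dvd_pow_iff_le_right hr.out.one_lt).1 h2
      congr 1
      omega
    have h1 := hT {b : Ω | Nat.card (Y ⊓ stabilizer G b : Subgroup G) = r ^ e} hαY (by
      intro t ht x hx
      show Nat.card (Y ⊓ stabilizer G (t • x) : Subgroup G) = r ^ e
      rw [card_inf_stab_conj Y t (hTN ht).2 x]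
      exact hx)
    have h2 : ¬ s ∣ {b : Ω | Nat.card (Y ⊓ stabilizer G b : Subgroup G) = r ^ e}.ncard := by
      intro hdvd
      have h3 : {b : Ω | Nat.card (Y ⊓ stabilizer G b : Subgroup G) = r ^ e}.ncard ≡ 1 [MOD s] :=
        h1.of_dvd (dvd_pow_self s hv.ne')
      have h4 := ((Nat.modEq_iff_dvd' (by
        rcases Nat.eq_zero_or_pos {b : Ω | Nat.card (Y ⊓ stabilizer G b : Subgroup G) = r ^ e}.ncard with h | h
        · exfalso
          rw [h] at h3
          have := (Nat.modEq_zero_iff_dvd.1 h3.symm)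
          exact hs.one_lt.ne' (Nat.dvd_one.1 this)
        · exact h)).1 h3.symm)
      have h5 : s ∣ 1 := by
        have h6 := (Nat.dvd_sub hdvd h4)
        have hpos : 0 < {b : Ω | Nat.card (Y ⊓ stabilizer G b : Subgroup G) = r ^ e}.ncard := by
          rw [Set.ncard_pos (Set.toFinite _)]
          exact ⟨α, hαY⟩
        have h7 : {b : Ω | Nat.card (Y ⊓ stabilizer G b : Subgroup G) = r ^ e}.ncard -
          ({b : Ω | Nat.card (Y ⊓ stabilizer G b : Subgroup G) = r ^ e}.ncard - 1) = 1 := by omega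
        rwa [h7] at h6
      exact hs.one_lt.ne' (Nat.dvd_one.1 h5)
    exact ih ((Nat.card K).factorization r - m) (by omega) m Y hYK hYm (by omega)
      (fun i j => by
        obtain ⟨h, hh, e⟩ := hH i j
        exact ⟨h, hh.2, e⟩) h2

omit [Finite B] in
theorem main_abs (K : Subgroup G) [K.Normal] (hK : ∀ m ∈ K, ∀ p : B, m • p = p)
    (hKt : ∀ a b : Ω, ∃ m ∈ K, m • a = b)
    (hG : ∀ i j : B, ∃ g : G, g • i = j)
    (c : Ω → Ω → B)
    (hc : ∀ (g : G) (a b : Ω), a ≠ b → c (g • a) (g • b) = g • c a b)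
    {r : ℕ} (hr : r.Prime) {s : ℕ} (hs : s.Prime) (hsk : s ∣ Nat.card B) (hB : Nat.card B ≠ 0)
    (hΩ : Nat.card Ω ≠ 0) :
      r ^ (Nat.card Ω).factorization r ≡ 1 [MOD s ^ (Nat.card B).factorization s] := by
  have : Fact r.Prime := ⟨hr⟩
  have hne : Nonempty Ω := by
    by_contra h
    rw [not_nonempty_iff] at h
    exact hΩ Nat.card_of_isEmpty
  obtain ⟨α⟩ := hne
  have hcardK : Nat.card Ω * Nat.card (K ⊓ stabilizer G α : Subgroup G) = Nat.card K := by
    have h1 := card_orbit_mul K α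
    have h2 : orbit K α = Set.univ := by
      ext j
      simp only [Set.mem_univ, iff_true]
      obtain ⟨h, hh, e⟩ := hKt α j
      exact ⟨⟨h, hh⟩, e⟩
    rw [h2, Set.ncard_univ] at h1
    exact h1
  have hfac : (Nat.card K).factorization r = (Nat.card Ω).factorization r +
        (Nat.card (K ⊓ stabilizer G α : Subgroup G)).factorization r := by
    rw [← hcardK, Nat.factorization_mul hΩ Nat.card_pos.ne']
    rfl
  set L : Subgroup G := stabilizer G α with hLdef
  have hL : ∀ i j : B, ∃ h ∈ L, h • i = j := by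
    intro i j
    obtain ⟨g, hg⟩ := hG i j
    obtain ⟨m, hm, hmα⟩ := hKt (g • α) α
    refine ⟨m * g, ?_, ?_⟩
    · show (m * g) • α = α
      rw [mul_smul, hmα]
    · rw [mul_smul, hg, hK m hm]
  let P : Sylow r (K.subgroupOf L) := default
  have hfr := frattini K hK L hL P
  set X : Subgroup G := ((P : Subgroup (K.subgroupOf L)).map (K.subgroupOf L).subtype).map L.subtype
    with hX
  have hXL : X ≤ L := Subgroup.map_subtype_le _
  have hXK : X ≤ K := by
    rintro _ ⟨y, ⟨z, hz, rfl⟩, rfl⟩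
    exact z.2
  set e := (Nat.card (K ⊓ stabilizer G α : Subgroup G)).factorization r with he
  have hcardX : Nat.card X = r ^ e := by
    have hcc : Nat.card (K.subgroupOf L) = Nat.card (K ⊓ stabilizer G α : Subgroup G) := by
      apply Nat.card_congr
      exact
        { toFun := fun t => ⟨t.1.1, t.2, t.1.2⟩
          invFun := fun t => ⟨⟨t.1, t.2.2⟩, t.2.1⟩
          left_inv := fun t => rfl
          right_inv := fun t => rfl }
    rw [hX, card_map_map, P.card_eq_multiplicity, hcc]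
  obtain ⟨T, hTN, α', hα'F, hα'T, hT⟩ := lemmaB hs c hc (L ⊓ normalizer (X : Set G)) hfr {α}
    (by
      rintro h ⟨hh, _⟩ x hx
      rw [Set.mem_singleton_iff] at hx ⊢
      rw [hx]
      exact hh) (by
      rw [Set.ncard_singleton]
      intro h
      exact hs.one_lt.ne' (Nat.dvd_one.1 h))
  rw [Set.mem_singleton_iff] at hα'F
  subst hα'F
  have hαX : Nat.card (X ⊓ stabilizer G α' : Subgroup G) = r ^ e := by
    rw [inf_of_le_left hXL]
    exact hcardX
  have h1 := hT {b : Ω | Nat.card (X ⊓ stabilizer G b : Subgroup G) = r ^ e} hαX (by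
      intro t ht x hx
      show Nat.card (X ⊓ stabilizer G (t • x) : Subgroup G) = r ^ e
      rw [card_inf_stab_conj X t (hTN ht).2 x]
      exact hx)
  have hv : 0 < (Nat.card B).factorization s := hs.factorization_pos_of_dvd hB hsk
  have h2 : ¬ s ∣ {b : Ω | Nat.card (X ⊓ stabilizer G b : Subgroup G) = r ^ e}.ncard := by
    intro hdvd
    have h3 : {b : Ω | Nat.card (X ⊓ stabilizer G b : Subgroup G) = r ^ e}.ncard ≡ 1 [MOD s] :=
      h1.of_dvd (dvd_pow_self s hv.ne')
    have h4 : {b : Ω | Nat.card (X ⊓ stabilizer G b : Subgroup G) = r ^ e}.ncard ≡ 0 [MOD s] :=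
      Nat.modEq_zero_iff_dvd.2 hdvd
    have h5 := Nat.modEq_zero_iff_dvd.1 (h3.symm.trans h4)
    exact hs.one_lt.ne' (Nat.dvd_one.1 h5)
  exact climb K hK hKt c hc hs hsk hB hΩ e (by omega) ((Nat.card K).factorization r - e) e X hXK
    hcardX (by omega) (fun i j => by
        obtain ⟨h, hh, e⟩ := hfr i j
        exact ⟨h, hh.2, e⟩) h2

end Abstract

theorem main_conc (n k : ℕ) (M G : Subgroup (Equiv.Perm (Fin n))) (c : Fin n → Fin n → Fin k)
    (hk : 2 ≤ k) (hMG : M < G)
    (hMt : ∀ a b : Fin n, ∃ m ∈ M, m a = b)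
    (hsurj : ∀ i : Fin k, ∃ a b : Fin n, a ≠ b ∧ c a b = i)
    (hG : ∀ g ∈ G, ∃ σ : Equiv.Perm (Fin k),
      ∀ a b : Fin n, a ≠ b → c (g a) (g b) = σ (c a b))
    (hGt : ∀ i j : Fin k, ∃ g ∈ G,
      ∀ a b : Fin n, a ≠ b → c a b = i → c (g a) (g b) = j)
    (hM : ∀ m ∈ M, ∀ a b : Fin n, a ≠ b → c (m a) (m b) = c a b)
    (r : ℕ) (hr : r.Prime) : r ^ (n.factorization r) ≡ 1 [MOD k] := by
  choose A A' hA hAc using hsurj
  have hsmul : ∀ (g : G) (a b : Fin n), a ≠ b →
      c (g.1 (A (c a b))) (g.1 (A' (c a b))) = c (g.1 a) (g.1 b) := by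
    intro g a b hab
    obtain ⟨σ, hσ⟩ := hG g.1 g.2
    rw [hσ a b hab, hσ _ _ (hA (c a b)), hAc]
  let act : MulAction G (Fin k) :=
    { smul := fun g i => c (g.1 (A i)) (g.1 (A' i))
      one_smul := fun i => hAc i
      mul_smul := fun g h i => by
        show c ((g.1 * h.1) (A i)) ((g.1 * h.1) (A' i)) =
          c (g.1 (A (c (h.1 (A i)) (h.1 (A' i))))) (g.1 (A' (c (h.1 (A i)) (h.1 (A' i)))))
        rw [hsmul g _ _ (fun h' => hA i (h.1.injective h'))]
        rfl }
  have hact : ∀ (g : G) (a b : Fin n), a ≠ b → c (g • a) (g • b) = g • c a b := by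
    intro g a b hab
    exact (hsmul g a b hab).symm
  let K : Subgroup G :=
    { carrier := {g | ∀ i : Fin k, g • i = i}
      one_mem' := fun i => one_smul _ i
      mul_mem' := fun {g h} hg hh i => by
        rw [mul_smul, hh i, hg i]
      inv_mem' := fun {g} hg i => by
        rw [inv_smul_eq_iff]
        exact (hg i).symm }
  have hKn : K.Normal := by
    constructor
    intro m hm g i
    show (g * m * g⁻¹) • i = i
    rw [mul_smul, mul_smul, hm, smul_inv_smul]
  have hKt : ∀ a b : Fin n, ∃ m ∈ K, m • a = b := by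
    intro a b
    obtain ⟨m, hm, hmab⟩ := hMt a b
    refine ⟨⟨m, hMG.le hm⟩, ?_, hmab⟩
    intro i
    show c (m (A i)) (m (A' i)) = i
    rw [hM m hm _ _ (hA i), hAc]
  have hGt' : ∀ i j : Fin k, ∃ g : G, g • i = j := by
    intro i j
    obtain ⟨g, hg, h⟩ := hGt i j
    exact ⟨⟨g, hg⟩, h _ _ (hA i) (hAc i)⟩
  have hcardB : Nat.card (Fin k) = k := Nat.card_fin k
  have hcardΩ : Nat.card (Fin n) = n := Nat.card_fin n
  have hn : n ≠ 0 := by
    have i : Fin k := ⟨0, by omega⟩
    have := (A i).pos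
    omega
  have hpos : 1 ≤ r ^ (n.factorization r) := Nat.one_le_pow _ _ hr.pos
  apply Nat.ModEq.symm
  rw [Nat.modEq_iff_dvd' hpos, Nat.dvd_iff_prime_pow_dvd_dvd]
  intro s j hs hj
  rcases Nat.eq_zero_or_pos j with h0 | h0
  · simp [h0]
  · have hsk : s ∣ k := (dvd_pow_self s h0.ne').trans hj
    have h1 := main_abs K (fun m hm p => hm p) hKt hGt' c hact hr hs (by rw [hcardB]; exact hsk)
      (by rw [hcardB]; omega) (by rw [hcardΩ]; exact hn)
    rw [hcardB, hcardΩ] at h1
    have h2 := (Nat.modEq_iff_dvd' hpos).1 h1.symm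
    refine dvd_trans (pow_dvd_pow s ?_) h2
    exact (hs.pow_dvd_iff_le_factorization (by omega)).1 hj

/-- The negation of the preceding statement: There exist M < G acting on n points with M transitive, and a partition of ordered distinct pairs into k ≥ 2 classes, G-invariant, G-transitive, each fixed by M, with G inducing a non-cyclic group on the classes and some prime part of n not ≡ 1 mod k. -/
theorem result :
    ¬ (∃ (n k : ℕ) (M G : Subgroup (Equiv.Perm (Fin n))) (c : Fin n → Fin n → Fin k),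
    2 ≤ k ∧ M < G ∧
    (∀ a b : Fin n, ∃ m ∈ M, m a = b) ∧
    (∀ i : Fin k, ∃ a b : Fin n, a ≠ b ∧ c a b = i) ∧
    (∀ g ∈ G, ∃ σ : Equiv.Perm (Fin k),
      ∀ a b : Fin n, a ≠ b → c (g a) (g b) = σ (c a b)) ∧
    (∀ i j : Fin k, ∃ g ∈ G,
      ∀ a b : Fin n, a ≠ b → c a b = i → c (g a) (g b) = j) ∧
    (∀ m ∈ M, ∀ a b : Fin n, a ≠ b → c (m a) (m b) = c a b) ∧
    (¬ ∃ τ : Equiv.Perm (Fin k), ∀ g ∈ G, ∃ z : ℤ,
      ∀ a b : Fin n, a ≠ b → c (g a) (g b) = (τ ^ z) (c a b)) ∧
    (∃ r : ℕ, r.Prime ∧ r ∣ n ∧ ¬ Nat.ModEq k (r ^ (n.factorization r)) 1)) := by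
  rintro ⟨n, k, M, G, c, hk, hMG, hMt, hsurj, hG, hGt, hM, -, r, hr, -, hcon⟩
  exact hcon (main_conc n k M G c hk hMG hMt hsurj hG hGt hM r hr)

end Pool.Agent.S00486
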