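import Pool.Statements.S00497
import Pool.Agent.Helper813.AF.ThM
-- import your own Pool.Agent.* helpers here

set_option autoImplicit false
open Pool Pool.MP_25c7a1_al

namespace Pool.Agent.S00497

/-- Every Fitting class of finite soluble groups that contains each soluble group G=AB with A, B abnormal subgroups lying in the class is a formation, i.e. is closed under quotients and under subdirect products. -/
theorem result :
    ∀ F : (G : Type) → [Group G] → Prop,
      (∀ (G : Type) [Group G], F G → Finite G ∧ IsSolvable G) →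
      (∀ (G H : Type) [Group G] [Group H], Nonempty (G ≃* H) → F G → F H) →
      (∀ (G : Type) [Group G] (N : Subgroup G), N.Normal → F G → F ↥N) →
      (∀ (G : Type) [Group G] [Finite G] (N M : Subgroup G), N.Normal → M.Normal →
          F ↥N → F ↥M → F ↥(N ⊔ M)) →
      (∀ (G : Type) [Group G] [Finite G], IsSolvable G →
          ∀ A B : Subgroup G,
            (∀ g : G, g ∈ A ⊔ A.map (MulAut.conj g).toMonoidHom) →
            (∀ g : G, g ∈ B ⊔ B.map (MulAut.conj g).toMonoidHom) →
            F ↥A → F ↥B →
            (∀ g : G, ∃ a ∈ A, ∃ b ∈ B, a * b = g) → F G) →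
      ((∀ (G : Type) [Group G] (N : Subgroup G) [N.Normal], F G → F (G ⧸ N)) ∧
       (∀ (G : Type) [Group G] [Finite G] (N M : Subgroup G) [N.Normal] [M.Normal],
          N ⊓ M = ⊥ → F (G ⧸ N) → F (G ⧸ M) → F G)) := by
  intro F h1 h2 h3 h4 h5
  have h : Pool.Agent.Helper813.AF.FC F := ⟨h1, h2, h3, h4, h5⟩
  exact ⟨fun G _ N _ hG => h.quot G N hG, fun G _ _ N M _ _ hNM hN hM => h.subd G N M hNM hN hM⟩

end Pool.Agent.S00497
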