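import Pool.Statements.S00526
import Pool.Agent.Helper604.CubeRel

set_option autoImplicit false
open Pool Pool.MP_295d35_al

namespace Pool.Agent.S00526

/-- The negation of the preceding statement: For every e there is a bound B such that, for every symmetric numerical semigroup with e minimal generators aᵢ, the kernel of the map from ℚ[x₁..x_e] to ℚ[t] sending xᵢ to t^aᵢ is generated by at most B polynomials. -/
theorem result :
    ¬ (∀ e : ℕ, ∃ B : ℕ, ∀ a : Fin e → ℕ,
    Finset.univ.gcd a = 1 →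
    (∀ i : Fin e, ∀ c : Fin e → ℕ, c i = 0 → ∑ j, c j * a j ≠ a i) →
    (∃ F : ℤ, ∀ z : ℤ,
      ((∃ c : Fin e → ℕ, ((∑ j, c j * a j : ℕ) : ℤ) = z) ↔
        ¬ ∃ c : Fin e → ℕ, ((∑ j, c j * a j : ℕ) : ℤ) = F - z)) →
    ∃ s : Finset (MvPolynomial (Fin e) ℚ), s.card ≤ B ∧
      Ideal.span (s : Set (MvPolynomial (Fin e) ℚ)) =
        RingHom.ker (MvPolynomial.aeval (R := ℚ)
          (fun i : Fin e => (Polynomial.X : Polynomial ℚ) ^ (a i)))) := by
  intro h
  obtain ⟨B, hB⟩ := h 8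
  have hq : 1 ≤ B + 1 := by omega
  obtain ⟨s, hs1, hs2⟩ := hB (Pool.Agent.Helper604.Cube.gen (B + 1 + 1) (B + 1))
    Pool.Agent.Helper604.Cube.gen_gcd (Pool.Agent.Helper604.Cube.gen_min hq)
    (Pool.Agent.Helper604.Cube.sym_gen hq)
  have := Pool.Agent.Helper604.Cube.ideal_bound hq s hs2
  omega

end Pool.Agent.S00526
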