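import Pool.Statements.S00533
import Pool.Agent.Helper313.PowEmb

set_option autoImplicit false
open scoped Pointwise
open Pool Pool.MP_29ab50_al

namespace Pool.Agent.S00533

open Pool.Agent.Helper313.PowEmb

theorem exists_period {S : Type} [CommSemigroup S] (x : S)
    (hx : (Subsemigroup.closure ({x} : Set S) : Set S).Finite) :
    ∃ p : ℕ, 1 ≤ p ∧ ∃ m0 : ℕ, ∀ m, m0 ≤ m →
      (WithOne.coe x : WithOne S) ^ (m + p) = (WithOne.coe x) ^ m := by
  let g : ℕ → S := fun k => Nat.rec x (fun _ y => y * x) k
  have hg0 : g 0 = x := rfl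
  have hgs : ∀ k, g (k + 1) = g k * x := fun k => rfl
  have hmem : ∀ k, g k ∈ (Subsemigroup.closure ({x} : Set S) : Set S) := by
    intro k
    induction k with
    | zero => exact Subsemigroup.subset_closure rfl
    | succ k ih => exact Subsemigroup.mul_mem _ ih (Subsemigroup.subset_closure rfl)
  have hpow : ∀ k, (WithOne.coe (g k) : WithOne S) = (WithOne.coe x) ^ (k + 1) := by
    intro k
    induction k with
    | zero => rw [hg0, zero_add, pow_one]
    | succ k ih => rw [hgs, WithOne.coe_mul, ih, ← pow_succ]
  have hninj : ¬ Function.Injective g := by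
    intro hinj
    have : (Set.range g).Finite := hx.subset (by rintro _ ⟨k, rfl⟩; exact hmem k)
    exact Set.infinite_range_of_injective hinj this
  rw [Function.Injective] at hninj
  push Not at hninj
  obtain ⟨a, b, hab, hne⟩ := hninj
  have main : ∀ a b : ℕ, a < b → g a = g b → ∃ p : ℕ, 1 ≤ p ∧ ∃ m0 : ℕ, ∀ m, m0 ≤ m →
      (WithOne.coe x : WithOne S) ^ (m + p) = (WithOne.coe x) ^ m := by
    intro a b hlt hab
    have h1 : (WithOne.coe x : WithOne S) ^ (b + 1) = (WithOne.coe x) ^ (a + 1) := by
      rw [← hpow, ← hpow, hab]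
    refine ⟨b - a, by omega, a + 1, ?_⟩
    intro m hm
    obtain ⟨d, rfl⟩ := Nat.exists_eq_add_of_le hm
    have e1 : a + 1 + d + (b - a) = (b + 1) + d := by omega
    rw [e1, pow_add, h1, ← pow_add]
  rcases lt_or_gt_of_ne hne with h | h
  · exact main a b h hab
  · exact main b a h hab.symm

/-- Every commutative semigroup in which each element generates a finite subsemigroup embeds, via an injective homomorphism, into the semigroup of nonempty subsets (pointwise product) of some abelian group in which every element has finite order. -/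
theorem result :
    ∀ (S : Type) [CommSemigroup S],
      (∀ x : S, (Subsemigroup.closure ({x} : Set S) : Set S).Finite) →
      ∃ (G : Type) (_ : CommGroup G), Monoid.IsTorsion G ∧
        ∃ f : S →ₙ* Set G, Function.Injective f ∧ ∀ s : S, (f s).Nonempty := by
  intro S _ hS
  choose p hp m0 hm0 using fun x => exists_period x (hS x)
  apply embed (fun s => 2 * p s) (fun s => by have := hp s; omega)
  intro r s Z _ h
  have hk : ∀ k : ℕ, (WithOne.coe r : WithOne S)
      = WithOne.coe r * ((WithOne.coe s) ^ (2 * p s)) ^ k * Z ^ k := by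
    intro k
    induction k with
    | zero => simp
    | succ k ih =>
      calc (WithOne.coe r : WithOne S)
          = WithOne.coe r * ((WithOne.coe s) ^ (2 * p s)) ^ k * Z ^ k := ih
        _ = (WithOne.coe r * (WithOne.coe s) ^ (2 * p s) * Z)
              * ((WithOne.coe s) ^ (2 * p s)) ^ k * Z ^ k := by rw [h]
        _ = _ := by
          rw [pow_succ, pow_succ]
          simp only [mul_assoc, mul_comm, mul_left_comm]
  have h2 : ∀ m, m0 s ≤ m → (WithOne.coe s : WithOne S) ^ (m + 2 * p s)
      = (WithOne.coe s) ^ m := by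
    intro m hm
    rw [two_mul, ← add_assoc, hm0 s _ (by omega), hm0 s _ hm]
  have hle : m0 s ≤ 2 * p s * m0 s := by
    have := hp s
    nlinarith
  calc (WithOne.coe r : WithOne S) * (WithOne.coe s) ^ (2 * p s)
      = (WithOne.coe r * ((WithOne.coe s) ^ (2 * p s)) ^ (m0 s) * Z ^ (m0 s))
          * (WithOne.coe s) ^ (2 * p s) := by rw [← hk]
    _ = WithOne.coe r * (WithOne.coe s) ^ (2 * p s * m0 s + 2 * p s) * Z ^ (m0 s) := by
          rw [← pow_mul, pow_add]
          simp only [mul_assoc, mul_comm, mul_left_comm]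
    _ = WithOne.coe r * (WithOne.coe s) ^ (2 * p s * m0 s) * Z ^ (m0 s) := by rw [h2 _ hle]
    _ = WithOne.coe r := by rw [pow_mul, ← hk]

end Pool.Agent.S00533
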