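import Pool.Statements.S00536
import Pool.Agent.Helper321.CU.Final

set_option autoImplicit false
open Pool Pool.MP_29dbc1_al

namespace Pool.Agent.S00536

/-- The negation of the preceding statement: For every finite group G, each central unit of the integral group ring ZG equals a central group element times a central unit of ZG that is fixed by the linear involution sending each g to g inverse. -/
theorem result :
    ¬ (∀ (G : Type) [Group G] [Finite G]
      (φ : MonoidAlgebra ℤ G →ₗ[ℤ] MonoidAlgebra ℤ G),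
      (∀ g : G, φ (MonoidAlgebra.of ℤ G g) = MonoidAlgebra.of ℤ G g⁻¹) →
      ∀ (u : (MonoidAlgebra ℤ G)ˣ),
      (∀ x : MonoidAlgebra ℤ G, x * (u : MonoidAlgebra ℤ G) = (u : MonoidAlgebra ℤ G) * x) →
      ∃ g ∈ Subgroup.center G, ∃ v : (MonoidAlgebra ℤ G)ˣ,
        (∀ x : MonoidAlgebra ℤ G, x * (v : MonoidAlgebra ℤ G) = (v : MonoidAlgebra ℤ G) * x) ∧
        φ (v : MonoidAlgebra ℤ G) = (v : MonoidAlgebra ℤ G) ∧
        (u : MonoidAlgebra ℤ G) = MonoidAlgebra.of ℤ G g * (v : MonoidAlgebra ℤ G)) := by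
  intro H
  obtain ⟨V, V', v1, v2, v3, v4⟩ := Pool.Agent.Helper321.CU.exists_unit
  have hcen : ∀ x : Pool.Agent.Helper321.CU.ZG, x * V = V * x := by
    intro x
    induction x using Pool.Agent.Helper321.CU.G_ind with
    | hof g => exact v4 g
    | h0 => simp
    | hadd x y hx hy => rw [add_mul, mul_add, hx, hy]
    | hneg x hx => rw [neg_mul, mul_neg, hx]
  obtain ⟨g, hg, v, hv1, hv2, hv3⟩ := H Pool.Agent.Helper321.CU.GG
    Pool.Agent.Helper321.CU.phG Pool.Agent.Helper321.CU.phG_oG ⟨V, V', v1, v2⟩ hcen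
  exact Pool.Agent.Helper321.CU.final_contra V v1 v2 v3 g hg v hv1 hv2 hv3

end Pool.Agent.S00536
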