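import Pool.Statements.S00539
import Pool.Agent.Helper611.PcFin

set_option autoImplicit false
open Pool Pool.MP_2a3784_al

namespace Pool.Agent.S00539

/-- For any two polycyclic groups sharing a common subgroup embedded as a normal subgroup of each, their amalgamated free product embeds into GL_n(F) for some field F and some n. -/
theorem result :
    ∀ (G : Fin 2 → Type) [∀ i, Group (G i)] (H : Type) [Group H] (φ : ∀ i, H →* G i),
      (∀ i, IsSolvable (G i) ∧ ∀ S : Subgroup (G i), S.FG) →
      (∀ i, Function.Injective (φ i)) →
      (∀ i, (φ i).range.Normal) →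
      ∃ (F : Type) (_ : Field F) (n : ℕ)
        (ρ : Monoid.PushoutI φ →* Matrix.GeneralLinearGroup (Fin n) F),
        Function.Injective ρ := by
  intro G _ H _ φ hG hφ hn
  exact Pool.Agent.Helper611.PcFin.main G H φ hG hφ hn

end Pool.Agent.S00539
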