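import Pool.Statements.S00543
import Pool.Agent.Helper111.CT

set_option autoImplicit false
open Pool Pool.MP_2b3d4e_al

namespace Pool.Agent.S00543

open Pool.Agent.Helper111.CT

theorem adm_true : Adm (fun _ => True) := ⟨trivial, trivial, fun _ _ _ _ => trivial⟩

theorem gen_eq : {σ : Equiv.Perm ℤ | ∃ r₁ m₁ r₂ m₂ : ℤ,
          0 ≤ r₁ ∧ r₁ < m₁ ∧ 0 ≤ r₂ ∧ r₂ < m₂ ∧
          (∀ n : ℤ, ¬ (Int.ModEq m₁ n r₁ ∧ Int.ModEq m₂ n r₂)) ∧
          (∀ k : ℤ, σ (r₁ + m₁ * k) = r₂ + m₂ * k ∧ σ (r₂ + m₂ * k) = r₁ + m₁ * k) ∧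
          ∀ n : ℤ, ¬ Int.ModEq m₁ n r₁ → ¬ Int.ModEq m₂ n r₂ → σ n = n} =
    {σ : Equiv.Perm ℤ | IsCT (fun _ => True) σ} := by
  have key : ∀ m n r : ℤ, Int.ModEq m n r ↔ m ∣ n - r := by
    intro m n r
    rw [Int.modEq_comm, Int.modEq_iff_dvd]
  ext σ
  simp only [Set.mem_ofPred_eq, IsCT, key, true_and]

/-- The group generated by all class transpositions of ℤ equals the set of permutations of ℤ that are affine (rational coefficients) on each residue class modulo some m>0 and map the nonnegative integers onto themselves. -/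
theorem result :
    ((Subgroup.closure
        {σ : Equiv.Perm ℤ | ∃ r₁ m₁ r₂ m₂ : ℤ,
          0 ≤ r₁ ∧ r₁ < m₁ ∧ 0 ≤ r₂ ∧ r₂ < m₂ ∧
          (∀ n : ℤ, ¬ (Int.ModEq m₁ n r₁ ∧ Int.ModEq m₂ n r₂)) ∧
          (∀ k : ℤ, σ (r₁ + m₁ * k) = r₂ + m₂ * k ∧ σ (r₂ + m₂ * k) = r₁ + m₁ * k) ∧
          ∀ n : ℤ, ¬ Int.ModEq m₁ n r₁ → ¬ Int.ModEq m₂ n r₂ → σ n = n}
        : Subgroup (Equiv.Perm ℤ)) : Set (Equiv.Perm ℤ)) =
      {g : Equiv.Perm ℤ |
        (∃ m : ℤ, 0 < m ∧ ∀ r : ℤ, ∃ a b : ℚ, ∀ n : ℤ,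
            Int.ModEq m n r → ((g n : ℤ) : ℚ) = a * (n : ℚ) + b) ∧
        ∀ n : ℤ, 0 ≤ g n ↔ 0 ≤ n} := by
  rw [gen_eq]
  ext g
  have h1 : g ∈ ((Subgroup.closure {σ : Equiv.Perm ℤ | IsCT (fun _ => True) σ} :
      Subgroup (Equiv.Perm ℤ)) : Set (Equiv.Perm ℤ)) ↔ Full (fun _ => True) g :=
    mem_CTg_iff adm_true g
  rw [h1]
  constructor
  · intro hg
    refine ⟨?_, full_pos hg⟩
    obtain ⟨M, hM, _, h⟩ := hg
    refine ⟨M, hM, ?_⟩
    intro r
    obtain ⟨c, m, h0, h1, _, h2⟩ := h (r % M) (Int.emod_nonneg _ hM.ne')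
      (Int.emod_lt_of_pos _ hM)
    refine ⟨(m : ℚ) / M, (c : ℚ) - m * ((r % M : ℤ) : ℚ) / M, ?_⟩
    intro n hn
    have hn' : n % M = r % M := hn
    have e := Int.emod_add_mul_ediv n M
    have hMq : (M : ℚ) ≠ 0 := by exact_mod_cast hM.ne'
    have e2 : g n = c + m * (n / M) := by
      rw [← h2, ← hn', e]
    have e3 : (n : ℚ) = ((r % M : ℤ) : ℚ) + M * ((n / M : ℤ) : ℚ) := by
      rw [← hn']; exact_mod_cast e.symm
    rw [e2]
    push_cast
    rw [e3]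
    field_simp
    ring
  · rintro ⟨⟨m, hm, h⟩, hpos⟩
    refine ⟨m, hm, trivial, ?_⟩
    intro i hi0 hi1
    obtain ⟨a, b, hab⟩ := h i
    have f : ∀ k : ℤ, ((g (i + m * k) : ℤ) : ℚ) = a * ((i : ℚ) + m * k) + b := by
      intro k
      have := hab (i + m * k) (by
        show (i + m * k) % m = i % m
        rw [Int.add_mul_emod_self_left])
      rw [this]; push_cast; ring
    have f0 := f 0
    have f1 := f 1
    simp only [mul_zero, add_zero, mul_one] at f0 f1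
    have f2 : (((g (i + m) : ℤ) : ℚ)) - (g i : ℤ) = a * m := by
      push_cast at f0 f1 ⊢
      linarith
    have hlin : ∀ k : ℤ, g (i + m * k) = g i + (g (i + m) - g i) * k := by
      intro k
      have : ((g (i + m * k) : ℤ) : ℚ) = ((g i + (g (i + m) - g i) * k : ℤ) : ℚ) := by
        rw [f k]
        push_cast
        rw [f2]
        push_cast at f0
        linarith
      exact_mod_cast this
    have hneg := hlin (-1)
    have hc : ¬ 0 ≤ g (i + m * (-1)) := by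
      rw [hpos]; linarith
    refine ⟨g i, g (i + m) - g i, (hpos i).2 hi0, ?_, trivial, hlin⟩
    rw [hneg] at hc
    linarith

end Pool.Agent.S00543
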