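import Pool.Statements.S00563
import Pool.Agent.Helper94.Soluble5

set_option autoImplicit false
open Pool Pool.MP_2d5453_al

namespace Pool.Agent.S00563

/-- There is a soluble group in which every element has 2-power order and every commutator [x,y,y,y,y,y] is trivial, but some element lies in no normal nilpotent subgroup, so the group is not a Fitting group. -/
theorem result :
    ∃ (G : Type) (_ : Group G),
      IsSolvable G ∧
      IsPGroup 2 G ∧
      (∀ x y : G, (fun z : G => z⁻¹ * y⁻¹ * z * y)^[5] x = 1) ∧
      ¬ (∀ g : G, ∃ N : Subgroup G, N.Normal ∧ Group.IsNilpotent N ∧ g ∈ N) := by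
  exact ⟨Pool.Agent.Helper94.Sol.GG, inferInstance,
    Pool.Agent.Helper94.Sol.instIsSolvableGG, Pool.Agent.Helper94.Sol.isPGroup,
    Pool.Agent.Helper94.Sol.engel5, Pool.Agent.Helper94.Sol.not_fitting⟩

end Pool.Agent.S00563
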