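import Pool.Statements.S00573
-- import your own Pool.Agent.* helpers here

set_option autoImplicit false
open Pool Pool.MP_2f4300_al

namespace Pool.Agent.S00573

section work

open scoped Topology Pointwise
open Set Filter


section general

variable {K : Type} [Group K]

theorem cont2 [TopologicalSpace K] [IsTopologicalGroup K] (f : K × K → K) (hf : Continuous f)
    (h1 : f (1, 1) = 1) {W : Set K} (hW : W ∈ 𝓝 (1 : K)) :
    ∃ W' ∈ 𝓝 (1 : K), ∀ u ∈ W', ∀ w ∈ W', f (u, w) ∈ W := by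
  have h2 : f ⁻¹' W ∈ 𝓝 ((1 : K), (1 : K)) := by
    apply hf.continuousAt.preimage_mem_nhds
    rw [h1]; exact hW
  rw [nhds_prod_eq, Filter.mem_prod_same_iff] at h2
  obtain ⟨W', hW', hsub⟩ := h2
  exact ⟨W', hW', fun u hu w hw => hsub ⟨hu, hw⟩⟩

theorem comm_nhds [TopologicalSpace K] [IsTopologicalGroup K] {W : Set K} (hW : W ∈ 𝓝 (1 : K)) :
    ∃ W' ∈ 𝓝 (1 : K), ∀ u ∈ W', ∀ w ∈ W', u * w * u⁻¹ * w⁻¹ ∈ W :=
  cont2 (fun p => p.1 * p.2 * p.1⁻¹ * p.2⁻¹) (by fun_prop) (by simp) hW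

theorem conj_nhds [TopologicalSpace K] [IsTopologicalGroup K] {W : Set K} (hW : W ∈ 𝓝 (1 : K)) :
    ∃ W' ∈ 𝓝 (1 : K), ∀ u ∈ W', ∀ w ∈ W', u * w * u⁻¹ ∈ W :=
  cont2 (fun p => p.1 * p.2 * p.1⁻¹) (by fun_prop) (by simp) hW

theorem conj_nhds' [TopologicalSpace K] [IsTopologicalGroup K] {W : Set K} (hW : W ∈ 𝓝 (1 : K)) :
    ∃ W' ∈ 𝓝 (1 : K), ∀ u ∈ W', ∀ w ∈ W', u⁻¹ * w * u ∈ W :=
  cont2 (fun p => p.1⁻¹ * p.2 * p.1) (by fun_prop) (by simp) hW

theorem mul_nhds [TopologicalSpace K] [IsTopologicalGroup K] {W : Set K} (hW : W ∈ 𝓝 (1 : K)) :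
    ∃ W' ∈ 𝓝 (1 : K), ∀ u ∈ W', ∀ w ∈ W', u * w ∈ W :=
  cont2 (fun p => p.1 * p.2) (by fun_prop) (by simp) hW

theorem div_nhds [TopologicalSpace K] [IsTopologicalGroup K] {W : Set K} (hW : W ∈ 𝓝 (1 : K)) :
    ∃ W' ∈ 𝓝 (1 : K), ∀ u ∈ W', ∀ w ∈ W', u * w⁻¹ ∈ W :=
  cont2 (fun p => p.1 * p.2⁻¹) (by fun_prop) (by simp) hW

theorem inv_nhds [TopologicalSpace K] [IsTopologicalGroup K] {W : Set K} (hW : W ∈ 𝓝 (1 : K)) :
    ∃ W' ∈ 𝓝 (1 : K), ∀ u ∈ W', u⁻¹ ∈ W := by
  obtain ⟨W', h1, h2⟩ := cont2 (fun p : K × K => p.1⁻¹) (by fun_prop) (by simp) hW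
  exact ⟨W', h1, fun u hu => h2 u hu u hu⟩

theorem nhds_eq_map (ts : TopologicalSpace K) (tg : IsTopologicalGroup K) (x : K) :
    Filter.map (x * ·) (𝓝 (1 : K)) = 𝓝 x := map_mul_left_nhds_one x

/-- Comparison of group topologies through neighbourhoods of the identity. -/
theorem le_iff_nhds (t s : GroupTopology K) :
    t ≤ s ↔ ∀ U, U ∈ @nhds K s.toTopologicalSpace 1 → U ∈ @nhds K t.toTopologicalSpace 1 := by
  constructor
  · intro h U hU
    exact (@_root_.nhds_mono K t.toTopologicalSpace s.toTopologicalSpace 1 h) hU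
  · intro h
    change t.toTopologicalSpace ≤ s.toTopologicalSpace
    apply le_of_nhds_le_nhds
    intro x
    rw [← nhds_eq_map t.toTopologicalSpace t.toIsTopologicalGroup x,
      ← nhds_eq_map s.toTopologicalSpace s.toIsTopologicalGroup x]
    exact Filter.map_mono h

/-- The group topology whose neighbourhoods of the identity are given by a family of subgroups. -/
@[instance_reducible]
def mkTop (S : Finset ℕ → Subgroup K) (anti : ∀ F F', F ⊆ F' → S F' ≤ S F)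
    (hc : ∀ (g : K) (F : Finset ℕ), ∃ F', ∀ x ∈ S F', g * x * g⁻¹ ∈ S F) : GroupFilterBasis K where
  sets := {U | ∃ F, U = (S F : Set K)}
  nonempty := ⟨_, ∅, rfl⟩
  inter_sets := by
    rintro _ _ ⟨F, rfl⟩ ⟨F', rfl⟩
    exact ⟨_, ⟨F ∪ F', rfl⟩, fun x hx =>
      ⟨anti _ _ Finset.subset_union_left hx, anti _ _ Finset.subset_union_right hx⟩⟩
  one' := by
    rintro _ ⟨F, rfl⟩
    exact (S F).one_mem
  mul' := by
    rintro _ ⟨F, rfl⟩
    refine ⟨_, ⟨F, rfl⟩, ?_⟩
    rintro _ ⟨x, hx, y, hy, rfl⟩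
    exact (S F).mul_mem hx hy
  inv' := by
    rintro _ ⟨F, rfl⟩
    exact ⟨_, ⟨F, rfl⟩, fun x hx => (S F).inv_mem hx⟩
  conj' := by
    rintro g _ ⟨F, rfl⟩
    obtain ⟨F', h⟩ := hc g F
    exact ⟨_, ⟨F', rfl⟩, fun x hx => h x hx⟩

/-- The bundled version. -/
def gTop (S : Finset ℕ → Subgroup K) (anti : ∀ F F', F ⊆ F' → S F' ≤ S F)
    (hc : ∀ (g : K) (F : Finset ℕ), ∃ F', ∀ x ∈ S F', g * x * g⁻¹ ∈ S F) : GroupTopology K :=
  { toTopologicalSpace := (mkTop S anti hc).topology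
    toIsTopologicalGroup := (mkTop S anti hc).isTopologicalGroup }

theorem mem_nhds_gTop (S : Finset ℕ → Subgroup K) (anti : ∀ F F', F ⊆ F' → S F' ≤ S F)
    (hc : ∀ (g : K) (F : Finset ℕ), ∃ F', ∀ x ∈ S F', g * x * g⁻¹ ∈ S F) (U : Set K) :
    U ∈ @nhds K (gTop S anti hc).toTopologicalSpace 1 ↔ ∃ F, (S F : Set K) ⊆ U := by
  have h := (mkTop S anti hc).nhds_one_hasBasis
  change U ∈ @nhds K (mkTop S anti hc).topology 1 ↔ _
  rw [h.mem_iff]
  constructor
  · rintro ⟨_, ⟨F, rfl⟩, h2⟩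
    exact ⟨F, h2⟩
  · rintro ⟨F, h2⟩
    exact ⟨_, ⟨F, rfl⟩, h2⟩

theorem t2_gTop (S : Finset ℕ → Subgroup K) (anti : ∀ F F', F ⊆ F' → S F' ≤ S F)
    (hc : ∀ (g : K) (F : Finset ℕ), ∃ F', ∀ x ∈ S F', g * x * g⁻¹ ∈ S F)
    (hsep : ∀ x, (∀ F, x ∈ S F) → x = 1) :
    @T2Space K (gTop S anti hc).toTopologicalSpace := by
  let : TopologicalSpace K := (mkTop S anti hc).topology
  change T2Space K
  rw [(mkTop S anti hc).t2Space_iff_sInter_subset rfl]
  intro x hx
  rw [Set.mem_singleton_iff]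
  apply hsep
  intro F
  exact hx _ ⟨F, rfl⟩

end general

abbrev V := ℕ →₀ ℚ
abbrev Aut := V ≃ₗ[ℚ] V

/-- The linear map `w ↦ w + w a • u`. -/
noncomputable def tvMap (a : ℕ) (u : V) : V →ₗ[ℚ] V :=
  LinearMap.id + (Finsupp.lapply a : V →ₗ[ℚ] ℚ).smulRight u

theorem tvMap_apply (a : ℕ) (u w : V) : tvMap a u w = w + w a • u := by
  simp [tvMap]

theorem tvMap_comp (a : ℕ) (u u' : V) (h' : u' a = 0) (w : V) :
    tvMap a u (tvMap a u' w) = w + w a • (u + u') := by
  simp only [tvMap_apply, Finsupp.add_apply, Finsupp.smul_apply, h', smul_eq_mul, mul_zero,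
    add_zero, smul_add]
  abel

/-- The transvection `w ↦ w + w a • u` as an automorphism (identity if `u a ≠ 0`). -/
noncomputable def tv (a : ℕ) (u : V) : Aut :=
  if h : u a = 0 then
    LinearEquiv.ofLinearMap (tvMap a u) (tvMap a (-u))
      (by
        apply LinearMap.ext; intro w
        rw [LinearMap.comp_apply, tvMap_comp _ _ _ (by simp [h])]; simp)
      (by
        apply LinearMap.ext; intro w
        rw [LinearMap.comp_apply, tvMap_comp _ _ _ h]; simp)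
  else 1

theorem tv_apply (a : ℕ) (u w : V) (h : u a = 0) : tv a u w = w + w a • u := by
  rw [tv, dif_pos h]
  simp [tvMap_apply]

theorem tv_inv_apply (a : ℕ) (u w : V) (h : u a = 0) : (tv a u)⁻¹ w = w - w a • u := by
  have h1 : tv a u (w - w a • u) = w := by
    rw [tv_apply _ _ _ h]
    simp [h]
  have h2 : (tv a u)⁻¹ (tv a u (w - w a • u)) = w - w a • u := by
    rw [← LinearEquiv.mul_apply, inv_mul_cancel]; rfl
  rw [h1] at h2
  exact h2

/-- Elementary transvection `w ↦ w + w j * x • e i`. -/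
noncomputable def el (i j : ℕ) (x : ℚ) : Aut := tv j (Finsupp.single i x)

theorem single_off {i j : ℕ} (h : i ≠ j) (x : ℚ) : (Finsupp.single i x : V) j = 0 := by
  rw [Finsupp.single_apply, if_neg h]

theorem el_apply {i j : ℕ} (h : i ≠ j) (x : ℚ) (w : V) :
    el i j x w = w + w j • Finsupp.single i x := tv_apply _ _ _ (single_off h x)

theorem el_inv_apply {i j : ℕ} (h : i ≠ j) (x : ℚ) (w : V) :
    (el i j x)⁻¹ w = w - w j • Finsupp.single i x := tv_inv_apply _ _ _ (single_off h x)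

/-- Generators with indices in `P`. -/
noncomputable def gens (P : Set ℕ) : Set Aut := {g | ∃ i ∈ P, ∃ j ∈ P, i ≠ j ∧ ∃ x : ℚ, g = el i j x}

/-- The group generated by elementary transvections with indices in `P`. -/
noncomputable def E (P : Set ℕ) : Subgroup Aut := Subgroup.closure (gens P)

theorem gens_mono {P Q : Set ℕ} (h : P ⊆ Q) : gens P ⊆ gens Q := by
  rintro g ⟨i, hi, j, hj, hij, x, rfl⟩
  exact ⟨i, h hi, j, h hj, hij, x, rfl⟩

theorem E_mono {P Q : Set ℕ} (h : P ⊆ Q) : E P ≤ E Q := Subgroup.closure_mono (gens_mono h)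

theorem el_mem {P : Set ℕ} {i j : ℕ} (hi : i ∈ P) (hj : j ∈ P) (hij : i ≠ j) (x : ℚ) :
    el i j x ∈ E P := Subgroup.subset_closure ⟨i, hi, j, hj, hij, x, rfl⟩

theorem E_fix {P : Set ℕ} {g : Aut} (hg : g ∈ E P) : ∀ v : V, (∀ i ∈ P, v i = 0) → g v = v := by
  induction hg using Subgroup.closure_induction with
  | mem g hg =>
    obtain ⟨i, hi, j, hj, hij, x, rfl⟩ := hg
    intro v hv
    rw [el_apply hij, hv j hj]; simp
  | one => intro v _; rfl
  | mul a b _ _ ha hb =>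
    intro v hv
    rw [LinearEquiv.mul_apply, hb v hv, ha v hv]
  | inv a _ ha =>
    intro v hv
    have h := ha v hv
    calc a⁻¹ v = a⁻¹ (a v) := by rw [h]
      _ = (a⁻¹ * a) v := rfl
      _ = v := by rw [inv_mul_cancel]; rfl

theorem E_coord {P : Set ℕ} {g : Aut} (hg : g ∈ E P) : ∀ i ∉ P, ∀ v : V, (g v) i = v i := by
  induction hg using Subgroup.closure_induction with
  | mem g hg =>
    obtain ⟨i, hi, j, hj, hij, x, rfl⟩ := hg
    intro k hk v
    have : i ≠ k := fun h => hk (h ▸ hi)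
    rw [el_apply hij]
    simp [single_off this]
  | one => intro i _ v; rfl
  | mul a b _ _ ha hb =>
    intro i hi v
    rw [LinearEquiv.mul_apply, ha i hi, hb i hi]
  | inv a _ ha =>
    intro i hi v
    have h := ha i hi (a⁻¹ v)
    have h2 : a (a⁻¹ v) = v := by
      rw [← LinearEquiv.mul_apply, mul_inv_cancel]; rfl
    rw [h2] at h
    exact h.symm

theorem E_finite {P : Set ℕ} {g : Aut} (hg : g ∈ E P) :
    ∃ J : Finset ℕ, (J : Set ℕ) ⊆ P ∧ g ∈ E (J : Set ℕ) := by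
  induction hg using Subgroup.closure_induction with
  | mem g hg =>
    obtain ⟨i, hi, j, hj, hij, x, rfl⟩ := hg
    refine ⟨{i, j}, ?_, el_mem (by simp) (by simp) hij x⟩
    intro k hk
    simp at hk
    rcases hk with rfl | rfl <;> assumption
  | one => exact ⟨∅, by simp, Subgroup.one_mem _⟩
  | mul a b _ _ ha hb =>
    obtain ⟨J, h1, h2⟩ := ha
    obtain ⟨J', h1', h2'⟩ := hb
    refine ⟨J ∪ J', ?_, Subgroup.mul_mem _ (E_mono (by simp) h2) (E_mono (by simp) h2')⟩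
    rw [Finset.coe_union]
    exact Set.union_subset h1 h1'
  | inv a _ ha =>
    obtain ⟨J, h1, h2⟩ := ha
    exact ⟨J, h1, Subgroup.inv_mem _ h2⟩

/-- Elements with disjoint index sets commute. -/
theorem E_comm {P Q : Set ℕ} (h : Disjoint P Q) {g g' : Aut} (hg : g ∈ E P) (hg' : g' ∈ E Q) :
    g * g' = g' * g := by
  -- g' v differs from v only by coordinates in Q and depends only on Q-part
  have key : ∀ v : V, ∃ u : V, (∀ i ∈ P, u i = 0) ∧ g' v = v + u := by
    intro v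
    refine ⟨g' v - v, ?_, by abel⟩
    intro i hi
    have hi' : i ∉ Q := fun hq => Set.disjoint_left.mp h hi hq
    rw [Finsupp.sub_apply, E_coord hg' i hi', sub_self]
  have key2 : ∀ v : V, ∃ u : V, (∀ i ∈ Q, u i = 0) ∧ g v = v + u := by
    intro v
    refine ⟨g v - v, ?_, by abel⟩
    intro i hi
    have hi' : i ∉ P := fun hq => Set.disjoint_left.mp h hq hi
    rw [Finsupp.sub_apply, E_coord hg i hi', sub_self]
  apply LinearEquiv.ext
  intro v
  obtain ⟨u, hu, hu'⟩ := key v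
  obtain ⟨w, hw, hw'⟩ := key2 v
  rw [LinearEquiv.mul_apply, LinearEquiv.mul_apply, hu', hw', map_add, map_add, E_fix hg u hu,
    E_fix hg' w hw, hw', hu']
  abel

theorem tv_add (a : ℕ) (u u' : V) (h : u a = 0) (h' : u' a = 0) :
    tv a (u + u') = tv a u * tv a u' := by
  apply LinearEquiv.ext
  intro w
  rw [LinearEquiv.mul_apply, tv_apply _ _ _ (by simp [h, h']), tv_apply _ _ _ h,
    tv_apply _ _ _ h']
  simp only [Finsupp.add_apply, Finsupp.smul_apply, h', smul_eq_mul, mul_zero, add_zero, smul_add]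
  abel

theorem tv_mem {P : Set ℕ} {a : ℕ} (ha : a ∈ P) (u : V) :
    u a = 0 → (∀ i ∉ P, u i = 0) → tv a u ∈ E P := by
  induction u using Finsupp.induction with
  | zero =>
    intro _ _
    have : tv a (0 : V) = 1 := by
      apply LinearEquiv.ext; intro w
      rw [tv_apply _ _ _ rfl]; simp
    rw [this]; exact Subgroup.one_mem _
  | single_add i x u hi hx ih =>
    intro h1 h2
    have hia : i ≠ a := by
      rintro rfl
      rw [Finsupp.add_apply, Finsupp.notMem_support_iff.mp hi, add_zero,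
        Finsupp.single_eq_same] at h1
      exact hx h1
    have hua : u a = 0 := by
      rw [Finsupp.add_apply, single_off hia, zero_add] at h1
      exact h1
    have hiP : i ∈ P := by
      by_contra hiP
      have h3 := h2 i hiP
      rw [Finsupp.add_apply, Finsupp.notMem_support_iff.mp hi, add_zero,
        Finsupp.single_eq_same] at h3
      exact hx h3
    rw [tv_add _ _ _ (single_off hia x) hua]
    refine Subgroup.mul_mem _ (el_mem hiP ha hia x) (ih hua ?_)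
    intro k hk
    have h3 := h2 k hk
    have hik : i ≠ k := fun h => hk (h ▸ hiP)
    rwa [Finsupp.add_apply, single_off hik, zero_add] at h3


/-! lattice -/

/-- Vectors with all coordinates 2-adically integral. -/
noncomputable def Lam : AddSubgroup V where
  carrier := {v | ∀ i, padicNorm 2 (v i) ≤ 1}
  zero_mem' := by intro i; simp
  add_mem' := by
    intro a b ha hb i
    exact le_trans padicNorm.nonarchimedean (max_le (ha i) (hb i))
  neg_mem' := by
    intro a ha i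
    rw [Finsupp.neg_apply, padicNorm.neg]; exact ha i

theorem mem_Lam (v : V) : v ∈ Lam ↔ ∀ i, padicNorm 2 (v i) ≤ 1 := Iff.rfl

theorem smul_mem_Lam {x : ℚ} (hx : padicNorm 2 x ≤ 1) {v : V} (hv : v ∈ Lam) : x • v ∈ Lam := by
  intro i
  rw [Finsupp.smul_apply, smul_eq_mul, padicNorm.mul]
  exact mul_le_one₀ hx (padicNorm.nonneg _) (hv i)

theorem single_mem_Lam {x : ℚ} (hx : padicNorm 2 x ≤ 1) (i : ℕ) :
    (Finsupp.single i x : V) ∈ Lam := by
  intro j
  rw [Finsupp.single_apply]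
  split_ifs
  · exact hx
  · simp

/-- Automorphisms preserving the lattice. -/
noncomputable def St : Subgroup Aut where
  carrier := {g | ∀ v, v ∈ Lam ↔ g v ∈ Lam}
  one_mem' := fun v => Iff.rfl
  mul_mem' := by
    intro a b ha hb v
    rw [LinearEquiv.mul_apply, ← ha, ← hb]
  inv_mem' := by
    intro a ha v
    have h2 : a (a⁻¹ v) = v := by
      rw [← LinearEquiv.mul_apply, mul_inv_cancel]; rfl
    rw [ha (a⁻¹ v), h2]

theorem mem_St (g : Aut) : g ∈ St ↔ ∀ v, v ∈ Lam ↔ g v ∈ Lam := Iff.rfl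

theorem inv_apply_self (a : Aut) (v : V) : a⁻¹ (a v) = v := by
  rw [← LinearEquiv.mul_apply, inv_mul_cancel]; rfl

theorem apply_inv_self (a : Aut) (v : V) : a (a⁻¹ v) = v := by
  rw [← LinearEquiv.mul_apply, mul_inv_cancel]; rfl

theorem St_of {g : Aut} (h1 : ∀ v ∈ Lam, g v ∈ Lam) (h2 : ∀ v ∈ Lam, g⁻¹ v ∈ Lam) : g ∈ St := by
  intro v
  refine ⟨h1 v, fun h => ?_⟩
  have := h2 _ h
  rwa [inv_apply_self] at this

theorem el_St {i j : ℕ} (hij : i ≠ j) {x : ℚ} (hx : padicNorm 2 x ≤ 1) : el i j x ∈ St := by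
  apply St_of
  · intro v hv
    rw [el_apply hij]
    exact Lam.add_mem hv (smul_mem_Lam (hv j) (single_mem_Lam hx i))
  · intro v hv
    rw [el_inv_apply hij]
    exact Lam.sub_mem hv (smul_mem_Lam (hv j) (single_mem_Lam hx i))

theorem map_Lam_of {g : Aut} (h : ∀ j, g (Finsupp.single j 1) ∈ Lam) : ∀ v ∈ Lam, g v ∈ Lam := by
  intro v hv
  have h1 : g v = v.sum (fun j x => x • g (Finsupp.single j 1)) := by
    conv_lhs => rw [← Finsupp.sum_single v]
    rw [map_finsuppSum]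
    apply Finsupp.sum_congr
    intro j _
    rw [← map_smul, Finsupp.smul_single, smul_eq_mul, mul_one]
  rw [h1]
  apply AddSubgroup.sum_mem
  intro j _
  exact smul_mem_Lam (hv j) (h j)

theorem not_St {g : Aut} (hg : g ∉ St) :
    (∃ j, g (Finsupp.single j 1) ∉ Lam) ∨ (∃ j, g⁻¹ (Finsupp.single j 1) ∉ Lam) := by
  by_contra hcon
  push Not at hcon
  exact hg (St_of (map_Lam_of hcon.1) (map_Lam_of hcon.2))

/-- The signed swap: `e j ↦ e i`, `e i ↦ - e j`. -/
noncomputable def sw (i j : ℕ) : Aut := el i j 1 * el j i (-1) * el i j 1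

theorem sw_mem {P : Set ℕ} {i j : ℕ} (hi : i ∈ P) (hj : j ∈ P) (hij : i ≠ j) : sw i j ∈ E P :=
  Subgroup.mul_mem _ (Subgroup.mul_mem _ (el_mem hi hj hij 1) (el_mem hj hi hij.symm _))
    (el_mem hi hj hij 1)

theorem sw_St {i j : ℕ} (hij : i ≠ j) : sw i j ∈ St :=
  Subgroup.mul_mem _ (Subgroup.mul_mem _ (el_St hij (by simp))
    (el_St hij.symm (by rw [padicNorm.neg]; simp))) (el_St hij (by simp))

theorem sw_coord {i j : ℕ} (hij : i ≠ j) (v : V) : (sw i j v) i = v j := by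
  simp only [sw, LinearEquiv.mul_apply, el_apply hij, el_apply hij.symm]
  simp [hij, hij.symm]

theorem sw_single {i j : ℕ} (hij : i ≠ j) :
    sw i j (Finsupp.single j 1) = Finsupp.single i 1 := by
  simp only [sw, LinearEquiv.mul_apply, el_apply hij, el_apply hij.symm]
  ext k
  simp [Finsupp.single_apply, hij, hij.symm]

/-- Shifting a finite set of indices by an integral element. -/
theorem exists_shift (M : ℕ) (J : Finset ℕ) (hM : ∀ i ∈ J, i < M) :
    ∃ κ : Aut, κ ∈ E ({n | n ∈ J ∨ ∃ i ∈ J, n = i + M} : Set ℕ) ∧ κ ∈ St ∧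
      ∀ i ∈ J, κ (Finsupp.single i 1) = Finsupp.single (i + M) 1 ∧ ∀ v : V, (κ v) (i + M) = v i := by
  induction J using Finset.induction_on with
  | empty => exact ⟨1, Subgroup.one_mem _, Subgroup.one_mem _, by simp⟩
  | insert j J hj ih =>
    obtain ⟨κ, h1, h2, h3⟩ := ih (fun i hi => hM i (Finset.mem_insert_of_mem hi))
    have hjM : j < M := hM j (Finset.mem_insert_self _ _)
    have hne : j + M ≠ j := by omega
    refine ⟨sw (j + M) j * κ, ?_, Subgroup.mul_mem _ (sw_St hne) h2, ?_⟩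
    · apply Subgroup.mul_mem
      · apply sw_mem _ _ hne
        · exact Or.inr ⟨j, Finset.mem_insert_self _ _, rfl⟩
        · exact Or.inl (Finset.mem_insert_self _ _)
      · apply E_mono _ h1
        rintro n (hn | ⟨i, hi, rfl⟩)
        · exact Or.inl (Finset.mem_insert_of_mem hn)
        · exact Or.inr ⟨i, Finset.mem_insert_of_mem hi, rfl⟩
    · have hjn : j ∉ ({n | n ∈ J ∨ ∃ i ∈ J, n = i + M} : Set ℕ) := by
        rintro (h | ⟨i, _, h⟩)
        · exact hj h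
        · omega
      have hsw : sw (j + M) j ∈ E ({j + M, j} : Set ℕ) := sw_mem (by simp) (by simp) hne
      intro i hi
      rw [Finset.mem_insert] at hi
      rcases hi with rfl | hi
      · constructor
        · rw [LinearEquiv.mul_apply, E_fix h1, sw_single hne]
          intro k hk
          exact single_off (fun h => hjn (by rw [h]; exact hk)) 1
        · intro v
          rw [LinearEquiv.mul_apply, sw_coord hne, E_coord h1 _ hjn]
      · have hij : i ≠ j := fun h => hj (h ▸ hi)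
        obtain ⟨h4, h5⟩ := h3 i hi
        have hiM : i < M := hM i (Finset.mem_insert_of_mem hi)
        have hn : i + M ∉ ({j + M, j} : Set ℕ) := by
          simp only [Set.mem_insert_iff, Set.mem_singleton_iff]
          omega
        constructor
        · rw [LinearEquiv.mul_apply, h4, E_fix hsw]
          intro k hk
          exact single_off (fun h => hn (by rw [h]; exact hk)) 1
        · intro v
          rw [LinearEquiv.mul_apply, E_coord hsw _ hn, h5]

/-- Conjugation by a shift. -/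
theorem shift_conj {κ : Aut} {M i j : ℕ} (hij : i ≠ j)
    (hi : κ (Finsupp.single i 1) = Finsupp.single (i + M) 1)
    (hj : ∀ v : V, (κ v) (j + M) = v j) (x : ℚ) :
    κ * el i j x * κ⁻¹ = el (i + M) (j + M) x := by
  apply LinearEquiv.ext
  intro w
  have hx : κ (Finsupp.single i x) = Finsupp.single (i + M) x := by
    have : (Finsupp.single i x : V) = x • Finsupp.single i 1 := by
      rw [Finsupp.smul_single, smul_eq_mul, mul_one]
    rw [this, map_smul, hi, Finsupp.smul_single, smul_eq_mul, mul_one]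
  rw [LinearEquiv.mul_apply, LinearEquiv.mul_apply, el_apply hij, map_add, map_smul, hx,
    apply_inv_self, el_apply (by omega), ← hj, apply_inv_self]


/-! the group -/

/-- The affine group: pairs (translation, stable special linear part). -/
structure G where
  v : V
  h : Aut
  mem : h ∈ E univ

theorem G.ext' {a b : G} (h1 : a.v = b.v) (h2 : a.h = b.h) : a = b := by
  cases a; cases b; simp_all

noncomputable instance : Mul G := ⟨fun a b => ⟨a.v + a.h b.v, a.h * b.h, Subgroup.mul_mem _ a.mem b.mem⟩⟩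
noncomputable instance : One G := ⟨⟨0, 1, Subgroup.one_mem _⟩⟩
noncomputable instance : Inv G := ⟨fun a => ⟨-(a.h⁻¹ a.v), a.h⁻¹, Subgroup.inv_mem _ a.mem⟩⟩

@[simp] theorem mul_v (a b : G) : (a * b).v = a.v + a.h b.v := rfl
@[simp] theorem mul_h (a b : G) : (a * b).h = a.h * b.h := rfl
@[simp] theorem one_v : (1 : G).v = 0 := rfl
@[simp] theorem one_h : (1 : G).h = 1 := rfl
@[simp] theorem inv_v (a : G) : (a⁻¹).v = -(a.h⁻¹ a.v) := rfl
@[simp] theorem inv_h (a : G) : (a⁻¹).h = a.h⁻¹ := rfl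

noncomputable instance : Group G :=
  Group.ofLeftAxioms
    (by
      intro a b c
      apply G.ext'
      · simp only [mul_v, mul_h, LinearEquiv.mul_apply, map_add]
        abel
      · simp only [mul_h, mul_assoc])
    (by
      intro a
      apply G.ext'
      · simp only [mul_v, one_v, one_h, zero_add]; rfl
      · simp only [mul_h, one_h, one_mul])
    (by
      intro a
      apply G.ext'
      · simp only [mul_v, inv_v, inv_h, one_v]
        abel
      · simp only [mul_h, inv_h, one_h, inv_mul_cancel])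

/-- The complement of a finite set. -/
def co (F : Finset ℕ) : Set ℕ := {n | n ∉ F}

theorem mem_co {F : Finset ℕ} {n : ℕ} : n ∈ co F ↔ n ∉ F := Iff.rfl

theorem co_anti {F F' : Finset ℕ} (h : F ⊆ F') : co F' ⊆ co F := fun _ hn hm => hn (h hm)

/-- Large subgroups: translation part and linear part both live off `F`. -/
noncomputable def CC (F : Finset ℕ) : Subgroup G where
  carrier := {g | (∀ i ∈ F, g.v i = 0) ∧ g.h ∈ E (co F)}
  one_mem' := ⟨fun i _ => rfl, Subgroup.one_mem _⟩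
  mul_mem' := by
    rintro a b ⟨ha, ha'⟩ ⟨hb, hb'⟩
    refine ⟨fun i hi => ?_, Subgroup.mul_mem _ ha' hb'⟩
    have : i ∉ co F := fun h => h hi
    rw [mul_v, Finsupp.add_apply, ha i hi, E_coord ha' i this, hb i hi, add_zero]
  inv_mem' := by
    rintro a ⟨ha, ha'⟩
    refine ⟨fun i hi => ?_, Subgroup.inv_mem _ ha'⟩
    have : i ∉ co F := fun h => h hi
    rw [inv_v, Finsupp.neg_apply, E_coord (Subgroup.inv_mem _ ha') i this, ha i hi, neg_zero]

/-- No translation part. -/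
noncomputable def BB (F : Finset ℕ) : Subgroup G where
  carrier := {g | g.v = 0 ∧ g.h ∈ E (co F)}
  one_mem' := ⟨rfl, Subgroup.one_mem _⟩
  mul_mem' := by
    rintro a b ⟨ha, ha'⟩ ⟨hb, hb'⟩
    refine ⟨?_, Subgroup.mul_mem _ ha' hb'⟩
    rw [mul_v, ha, hb, map_zero, add_zero]
  inv_mem' := by
    rintro a ⟨ha, ha'⟩
    refine ⟨?_, Subgroup.inv_mem _ ha'⟩
    rw [inv_v, ha, map_zero, neg_zero]

/-- No translation part, integral linear part. -/
noncomputable def AA (F : Finset ℕ) : Subgroup G where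
  carrier := {g | g.v = 0 ∧ g.h ∈ E (co F) ∧ g.h ∈ St}
  one_mem' := ⟨rfl, Subgroup.one_mem _, Subgroup.one_mem _⟩
  mul_mem' := by
    rintro a b ⟨ha, ha', ha''⟩ ⟨hb, hb', hb''⟩
    refine ⟨?_, Subgroup.mul_mem _ ha' hb', Subgroup.mul_mem _ ha'' hb''⟩
    rw [mul_v, ha, hb, map_zero, add_zero]
  inv_mem' := by
    rintro a ⟨ha, ha', ha''⟩
    refine ⟨?_, Subgroup.inv_mem _ ha', Subgroup.inv_mem _ ha''⟩
    rw [inv_v, ha, map_zero, neg_zero]

/-- Translation part divisible by `2 ^ k`, integral linear part. -/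
noncomputable def DD (k : ℕ) (F : Finset ℕ) : Subgroup G where
  carrier := {g | (∀ i ∈ F, g.v i = 0) ∧ ((2 : ℚ) ^ k)⁻¹ • g.v ∈ Lam ∧ g.h ∈ E (co F) ∧ g.h ∈ St}
  one_mem' := ⟨fun i _ => rfl, by simp [Lam.zero_mem], Subgroup.one_mem _, Subgroup.one_mem _⟩
  mul_mem' := by
    rintro a b ⟨ha, hl, ha', ha''⟩ ⟨hb, hl', hb', hb''⟩
    refine ⟨fun i hi => ?_, ?_, Subgroup.mul_mem _ ha' hb', Subgroup.mul_mem _ ha'' hb''⟩
    · have : i ∉ co F := fun h => h hi
      rw [mul_v, Finsupp.add_apply, ha i hi, E_coord ha' i this, hb i hi, add_zero]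
    · rw [mul_v, smul_add, ← map_smul]
      exact Lam.add_mem hl ((ha'' _).mp hl')
  inv_mem' := by
    rintro a ⟨ha, hl, ha', ha''⟩
    refine ⟨fun i hi => ?_, ?_, Subgroup.inv_mem _ ha', Subgroup.inv_mem _ ha''⟩
    · have : i ∉ co F := fun h => h hi
      rw [inv_v, Finsupp.neg_apply, E_coord (Subgroup.inv_mem _ ha') i this, ha i hi, neg_zero]
    · rw [inv_v, smul_neg, ← map_smul]
      exact Lam.neg_mem (((Subgroup.inv_mem _ ha'') _).mp hl)

theorem mem_CC {F : Finset ℕ} {g : G} : g ∈ CC F ↔ (∀ i ∈ F, g.v i = 0) ∧ g.h ∈ E (co F) := Iff.rfl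
theorem mem_BB {F : Finset ℕ} {g : G} : g ∈ BB F ↔ g.v = 0 ∧ g.h ∈ E (co F) := Iff.rfl
theorem mem_AA {F : Finset ℕ} {g : G} : g ∈ AA F ↔ g.v = 0 ∧ g.h ∈ E (co F) ∧ g.h ∈ St := Iff.rfl
theorem mem_DD {k : ℕ} {F : Finset ℕ} {g : G} : g ∈ DD k F ↔
    (∀ i ∈ F, g.v i = 0) ∧ ((2 : ℚ) ^ k)⁻¹ • g.v ∈ Lam ∧ g.h ∈ E (co F) ∧ g.h ∈ St := Iff.rfl

theorem CC_anti (F F' : Finset ℕ) (h : F ⊆ F') : CC F' ≤ CC F :=
  fun _ hg => ⟨fun i hi => hg.1 i (h hi), E_mono (co_anti h) hg.2⟩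
theorem BB_anti (F F' : Finset ℕ) (h : F ⊆ F') : BB F' ≤ BB F :=
  fun _ hg => ⟨hg.1, E_mono (co_anti h) hg.2⟩
theorem AA_anti (F F' : Finset ℕ) (h : F ⊆ F') : AA F' ≤ AA F :=
  fun _ hg => ⟨hg.1, E_mono (co_anti h) hg.2.1, hg.2.2⟩
theorem DD_anti (k : ℕ) (F F' : Finset ℕ) (h : F ⊆ F') : DD k F' ≤ DD k F :=
  fun _ hg => ⟨fun i hi => hg.1 i (h hi), hg.2.1, E_mono (co_anti h) hg.2.2.1, hg.2.2.2⟩

theorem AA_le_BB (F : Finset ℕ) : AA F ≤ BB F := fun _ hg => ⟨hg.1, hg.2.1⟩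
theorem BB_le_CC (F : Finset ℕ) : BB F ≤ CC F := fun g hg => ⟨fun i _ => by rw [hg.1]; rfl, hg.2⟩
theorem AA_le_DD (k : ℕ) (F : Finset ℕ) : AA F ≤ DD k F := fun g hg =>
  ⟨fun i _ => by rw [hg.1]; rfl, by rw [hg.1, smul_zero]; exact Lam.zero_mem, hg.2.1, hg.2.2⟩
theorem DD_le_CC (k : ℕ) (F : Finset ℕ) : DD k F ≤ CC F := fun _ hg => ⟨hg.1, hg.2.2.1⟩

/-- Every element commutes with everything far out. -/
theorem commute_far (x : G) : ∃ F : Finset ℕ, ∀ y ∈ CC F, x * y = y * x := by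
  obtain ⟨J, _, hJ⟩ := E_finite x.mem
  refine ⟨J ∪ x.v.support, fun y hy => ?_⟩
  have h1 : Disjoint (J : Set ℕ) (co (J ∪ x.v.support)) := by
    rw [Set.disjoint_left]
    intro n hn hn'
    exact hn' (Finset.mem_union_left _ hn)
  apply G.ext'
  · rw [mul_v, mul_v, E_fix hJ, E_fix hy.2, add_comm]
    · intro i hi
      by_contra h
      exact hi (Finset.mem_union_right _ (Finsupp.mem_support_iff.mpr h))
    · intro i hi
      exact hy.1 i (Finset.mem_union_left _ hi)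
  · rw [mul_h, mul_h]
    exact E_comm h1 hJ hy.2

theorem conj_far (S : Finset ℕ → Subgroup G) (anti : ∀ F F', F ⊆ F' → S F' ≤ S F)
    (hS : ∀ F, S F ≤ CC F) (g : G) (F : Finset ℕ) : ∃ F', ∀ x ∈ S F', g * x * g⁻¹ ∈ S F := by
  obtain ⟨F1, h1⟩ := commute_far g
  refine ⟨F ∪ F1, fun x hx => ?_⟩
  rw [h1 x (CC_anti _ _ Finset.subset_union_right (hS _ hx)), mul_inv_cancel_right]
  exact anti _ _ Finset.subset_union_left hx


/-! covers -/

/-- linear element -/
noncomputable def mkH (g : Aut) (hg : g ∈ E univ) : G := ⟨0, g, hg⟩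
/-- translation element -/
noncomputable def mkT (v : V) : G := ⟨v, 1, Subgroup.one_mem _⟩

@[simp] theorem mkH_v (g : Aut) (hg : g ∈ E univ) : (mkH g hg).v = 0 := rfl
@[simp] theorem mkH_h (g : Aut) (hg : g ∈ E univ) : (mkH g hg).h = g := rfl
@[simp] theorem mkT_v (v : V) : (mkT v).v = v := rfl
@[simp] theorem mkT_h (v : V) : (mkT v).h = 1 := rfl

theorem comm_calc (g : Aut) (hg : g ∈ E univ) (v : V) :
    mkH g hg * mkT v * (mkH g hg)⁻¹ * (mkT v)⁻¹ = mkT (g v - v) := by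
  apply G.ext'
  · simp only [mul_v, mul_h, inv_v, inv_h, mkH_v, mkH_h, mkT_v, mkT_h, map_zero, neg_zero,
      add_zero, zero_add, mul_one, mul_inv_cancel, inv_one, sub_eq_add_neg]
    rfl
  · simp

theorem fresh (F : Finset ℕ) : ∃ n, n ∉ F := F.exists_notMem

section topo

variable [TopologicalSpace G] [IsTopologicalGroup G]

theorem coverBC (hB : ∀ W ∈ 𝓝 (1 : G), ∃ F, (BB F : Set G) ⊆ W)
    (hC : ∀ F, (CC F : Set G) ∈ 𝓝 (1 : G)) (hn : ∃ F, (BB F : Set G) ∉ 𝓝 (1 : G)) :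
    ∀ W ∈ 𝓝 (1 : G), ∃ F, (CC F : Set G) ⊆ W := by
  obtain ⟨F0, hF0⟩ := hn
  have stepQ : ∀ W ∈ 𝓝 (1 : G), ∃ F : Finset ℕ, ∀ a ∉ F, ∀ x : ℚ, mkT (Finsupp.single a x) ∈ W := by
    intro W hW
    obtain ⟨W', hW', hc⟩ := comm_nhds hW
    obtain ⟨W'', hW'', hd⟩ := div_nhds hW'
    obtain ⟨F1, hF1⟩ := hB _ (inter_mem hW' hW'')
    have h1 : W'' ∩ (CC (F1 ∪ F0) : Set G) ∈ 𝓝 (1 : G) := inter_mem hW'' (hC _)
    have h2 : ¬ (W'' ∩ (CC (F1 ∪ F0) : Set G) ⊆ (BB F0 : Set G)) :=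
      fun h => hF0 (mem_of_superset h1 h)
    obtain ⟨y, ⟨hy1, hy2⟩, hy3⟩ := Set.not_subset.mp h2
    have hyv : y.v ≠ 0 := by
      intro h
      exact hy3 (BB_anti _ _ Finset.subset_union_right ⟨h, hy2.2⟩)
    obtain ⟨i, hi⟩ : ∃ i, y.v i ≠ 0 := by
      by_contra hcon
      push Not at hcon
      exact hyv (Finsupp.ext hcon)
    have hiF : i ∉ F1 := fun h => hi (hy2.1 i (Finset.mem_union_left _ h))
    have hT : mkT y.v ∈ W' := by
      have h3 : mkH y.h y.mem ∈ W'' := by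
        apply (hF1 _).2
        exact BB_anti _ _ Finset.subset_union_left ⟨rfl, hy2.2⟩
      have h4 := hd y hy1 _ h3
      have h5 : y * (mkH y.h y.mem)⁻¹ = mkT y.v := by
        apply G.ext'
        · simp
        · simp
      rwa [h5] at h4
    refine ⟨F1 ∪ y.v.support, fun a ha x => ?_⟩
    have haF : a ∉ F1 := fun h => ha (Finset.mem_union_left _ h)
    have hai : a ≠ i := by
      rintro rfl
      exact ha (Finset.mem_union_right _ (Finsupp.mem_support_iff.mpr hi))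
    have hu : mkH (el a i (x / y.v i)) (el_mem (mem_univ _) (mem_univ _) hai _) ∈ W' := by
      apply (hF1 _).1
      exact ⟨rfl, el_mem haF hiF hai _⟩
    have h6 := hc _ hu _ hT
    rw [comm_calc, el_apply hai, add_sub_cancel_left, Finsupp.smul_single, smul_eq_mul,
      mul_div_cancel₀ _ hi] at h6
    exact h6
  intro W hW
  obtain ⟨W2, hW2, hm⟩ := mul_nhds hW
  obtain ⟨W1, hW1, hc⟩ := comm_nhds hW2
  obtain ⟨F1, hF1⟩ := hB _ (inter_mem hW1 hW2)
  obtain ⟨FQ, hFQ⟩ := stepQ W1 hW1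
  refine ⟨F1, fun y hy => ?_⟩
  obtain ⟨a, ha⟩ := fresh (F1 ∪ y.v.support ∪ FQ)
  simp only [Finset.mem_union, not_or] at ha
  obtain ⟨⟨ha1, ha2⟩, ha3⟩ := ha
  have hya : y.v a = 0 := Finsupp.notMem_support_iff.mp ha2
  have htv : tv a y.v ∈ E (co F1) := tv_mem ha1 _ hya (fun i hi => hy.1 i (by
    by_contra h; exact hi h))
  have hu : mkH (tv a y.v) (E_mono (subset_univ _) htv) ∈ W1 := (hF1 ⟨rfl, htv⟩).1
  have h1 := hc _ hu _ (hFQ a ha3 1)
  rw [comm_calc, tv_apply _ _ _ hya, add_sub_cancel_left, Finsupp.single_eq_same, one_smul] at h1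
  have h2b : mkH y.h y.mem ∈ (BB F1 : Set G) := ⟨rfl, hy.2⟩
  have h2 : mkH y.h y.mem ∈ W2 := (hF1 h2b).2
  have h3 := hm _ h1 _ h2
  have h4 : mkT y.v * mkH y.h y.mem = y := by
    apply G.ext'
    · simp
    · simp
  rwa [h4] at h3


/-- elementary element of the group -/
noncomputable def elG (i j : ℕ) (x : ℚ) : G :=
  if h : i ≠ j then mkH (el i j x) (el_mem (mem_univ _) (mem_univ _) h x) else 1

omit [TopologicalSpace G] [IsTopologicalGroup G] in
theorem elG_v (i j : ℕ) (x : ℚ) : (elG i j x).v = 0 := by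
  rw [elG]; split_ifs <;> rfl

omit [TopologicalSpace G] [IsTopologicalGroup G] in
theorem elG_h {i j : ℕ} (h : i ≠ j) (x : ℚ) : (elG i j x).h = el i j x := by
  rw [elG, dif_pos h]; rfl

omit [TopologicalSpace G] [IsTopologicalGroup G] in
theorem elG_AA {F : Finset ℕ} {i j : ℕ} (hi : i ∉ F) (hj : j ∉ F) (h : i ≠ j) {x : ℚ}
    (hx : padicNorm 2 x ≤ 1) : elG i j x ∈ AA F := by
  refine ⟨elG_v _ _ _, ?_, ?_⟩
  · rw [elG_h h]; exact el_mem hi hj h x
  · rw [elG_h h]; exact el_St h hx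

omit [TopologicalSpace G] [IsTopologicalGroup G] in
/-- commutator of an elementary matrix with a column transvection -/
theorem comm_el_tv {l i k : ℕ} (hli : l ≠ i) (hlk : l ≠ k) (u : V) (hu : u k = 0) :
    el l i 1 * tv k u * (el l i 1)⁻¹ * (tv k u)⁻¹ = el l k (u i) := by
  apply LinearEquiv.ext
  intro w
  simp only [LinearEquiv.mul_apply]
  rw [tv_inv_apply _ _ _ hu, el_inv_apply hli, tv_apply _ _ _ hu, el_apply hli, el_apply hlk]
  ext m
  simp only [Finsupp.add_apply, Finsupp.sub_apply, Finsupp.smul_apply, smul_eq_mul,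
    Finsupp.single_apply, hli, hlk, hu, if_false]
  split_ifs <;> ring

omit [TopologicalSpace G] [IsTopologicalGroup G] in
theorem comm_el {a b c : ℕ} (hab : a ≠ b) (hbc : b ≠ c) (hac : a ≠ c) (x y : ℚ) :
    el a b x * el b c y * (el a b x)⁻¹ * (el b c y)⁻¹ = el a c (x * y) := by
  apply LinearEquiv.ext
  intro w
  simp only [LinearEquiv.mul_apply]
  rw [el_inv_apply hbc, el_inv_apply hab, el_apply hbc, el_apply hab, el_apply hac]
  ext m
  simp only [Finsupp.add_apply, Finsupp.sub_apply, Finsupp.smul_apply, smul_eq_mul,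
    Finsupp.single_apply, hab, hbc, hac, if_false]
  split_ifs <;> first | (exfalso; omega) | ring

omit [TopologicalSpace G] [IsTopologicalGroup G] in
theorem commG {a b c : ℕ} (hab : a ≠ b) (hbc : b ≠ c) (hac : a ≠ c) (x y : ℚ) :
    elG a b x * elG b c y * (elG a b x)⁻¹ * (elG b c y)⁻¹ = elG a c (x * y) := by
  apply G.ext'
  · simp [elG_v]
  · simp only [mul_h, inv_h, elG_h hab, elG_h hbc, elG_h hac, comm_el hab hbc hac]

omit [TopologicalSpace G] [IsTopologicalGroup G] in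
theorem conj_el {g : Aut} {J : Set ℕ} (hg : g ∈ E J) {j k : ℕ} (hjk : j ≠ k) (hk : k ∉ J) :
    g * el j k 1 * g⁻¹ = tv k (g (Finsupp.single j 1)) := by
  have hu : (g (Finsupp.single j 1)) k = 0 := by
    rw [E_coord hg k hk]; exact single_off hjk 1
  apply LinearEquiv.ext
  intro w
  simp only [LinearEquiv.mul_apply]
  rw [tv_apply _ _ _ hu, el_apply hjk, map_add, map_smul, apply_inv_self,
    E_coord (Subgroup.inv_mem _ hg) k hk]

/-- The property that far out elementary elements with entry `x` are small. -/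
def PP (x : ℚ) : Prop := ∀ W ∈ 𝓝 (1 : G), ∃ F : Finset ℕ, ∀ a ∉ F, ∀ b ∉ F, a ≠ b → elG a b x ∈ W

omit [IsTopologicalGroup G] in
theorem PP_int (hA : ∀ W ∈ 𝓝 (1 : G), ∃ F, (AA F : Set G) ⊆ W) {x : ℚ} (hx : padicNorm 2 x ≤ 1) :
    PP x := by
  intro W hW
  obtain ⟨F, hF⟩ := hA W hW
  exact ⟨F, fun a ha b hb hab => hF (elG_AA ha hb hab hx)⟩

theorem PP_mul {x y : ℚ} (hx : PP x) (hy : PP y) : PP (x * y) := by
  intro W hW
  obtain ⟨W', hW', hc⟩ := comm_nhds hW
  obtain ⟨F1, h1⟩ := hx W' hW'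
  obtain ⟨F2, h2⟩ := hy W' hW'
  refine ⟨F1 ∪ F2, fun a ha b hb hab => ?_⟩
  simp only [Finset.mem_union, not_or] at ha hb
  obtain ⟨c, hc'⟩ := fresh (F1 ∪ F2 ∪ {a, b})
  simp only [Finset.mem_union, Finset.mem_insert, Finset.mem_singleton, not_or] at hc'
  obtain ⟨⟨hc1, hc2⟩, hca, hcb⟩ := hc'
  have := hc _ (h1 a ha.1 c hc1 (Ne.symm hca)) _ (h2 c hc2 b hb.2 hcb)
  rwa [commG (Ne.symm hca) hcb hab] at this

omit [TopologicalSpace G] [IsTopologicalGroup G] in
theorem norm_half_div {q : ℚ} (hq : ¬ padicNorm 2 q ≤ 1) : padicNorm 2 (1 / (2 * q)) ≤ 1 := by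
  have hq0 : q ≠ 0 := by
    rintro rfl; simp at hq
  obtain ⟨z, hz⟩ := padicNorm.values_discrete (p := 2) hq0
  rw [padicNorm.div, padicNorm.mul, hz, padicNorm.one]
  rw [hz] at hq
  have h2 : padicNorm 2 (2 : ℚ) = (2 : ℚ)⁻¹ := by
    have := padicNorm.padicNorm_p (p := 2) (by norm_num)
    simpa using this
  rw [h2]
  have hz' : z ≤ -1 := by
    by_contra hcon
    apply hq
    have : -z ≤ 0 := by omega
    exact zpow_le_one_of_nonpos₀ (by norm_num) this
  have h3 : (2 : ℚ) ^ (1 : ℤ) ≤ (2 : ℚ) ^ (-z) := zpow_le_zpow_right₀ (by norm_num) (by omega)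
  rw [zpow_one] at h3
  rw [div_le_one (by positivity)]
  have : ((2 : ℕ) : ℚ) = 2 := by norm_num
  rw [this]
  linarith

theorem PP_half (hA : ∀ W ∈ 𝓝 (1 : G), ∃ F, (AA F : Set G) ⊆ W)
    (hB : ∀ F, (BB F : Set G) ∈ 𝓝 (1 : G)) (hn : ∃ F, (AA F : Set G) ∉ 𝓝 (1 : G)) :
    PP (1 / 2) := by
  obtain ⟨F0, hF0⟩ := hn
  intro W hW
  obtain ⟨W1, hW1, c1⟩ := comm_nhds hW
  obtain ⟨W2, hW2, c2⟩ := comm_nhds hW1
  obtain ⟨W3, hW3, c3⟩ := comm_nhds hW2
  obtain ⟨W4, hW4, c4⟩ := comm_nhds hW3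
  obtain ⟨W5, hW5, c5⟩ := conj_nhds hW4
  obtain ⟨W6, hW6, c6⟩ := inv_nhds hW5
  obtain ⟨F1, hF1⟩ := hA _ (inter_mem (inter_mem (inter_mem hW1 hW2) (inter_mem hW3 hW4)) hW5)
  have h1 : (W5 ∩ W6) ∩ (BB (F1 ∪ F0) : Set G) ∈ 𝓝 (1 : G) :=
    inter_mem (inter_mem hW5 hW6) (hB _)
  have h2 : ¬ ((W5 ∩ W6) ∩ (BB (F1 ∪ F0) : Set G) ⊆ (AA F0 : Set G)) :=
    fun h => hF0 (mem_of_superset h1 h)
  obtain ⟨g, ⟨⟨hg5, hg6⟩, hgB⟩, hgA⟩ := Set.not_subset.mp h2
  have hgS : g.h ∉ St := by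
    intro h
    exact hgA ⟨hgB.1, E_mono (co_anti Finset.subset_union_right) hgB.2, h⟩
  -- pass to `g` or its inverse
  obtain ⟨y, hy5, hyB, j, hj⟩ : ∃ y ∈ W5, y ∈ BB (F1 ∪ F0) ∧
      ∃ j, y.h (Finsupp.single j 1) ∉ Lam := by
    rcases not_St hgS with ⟨j, hj⟩ | ⟨j, hj⟩
    · exact ⟨g, hg5, hgB, j, hj⟩
    · exact ⟨g⁻¹, c6 g hg6, Subgroup.inv_mem _ hgB, j, hj⟩
  obtain ⟨i, hi⟩ : ∃ i, ¬ padicNorm 2 ((y.h (Finsupp.single j 1)) i) ≤ 1 := by
    by_contra hcon
    push Not at hcon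
    exact hj hcon
  set q := (y.h (Finsupp.single j 1)) i with hq
  have hjF : j ∉ F1 ∪ F0 := by
    intro h
    apply hj
    rw [E_fix hyB.2]
    · exact single_mem_Lam (by simp) j
    · intro k hk
      apply single_off
      rintro rfl
      exact hk h
  have hiF : i ∉ F1 ∪ F0 := by
    intro h
    apply hi
    rw [hq, E_coord hyB.2 i (fun h' => h' h)]
    exact single_mem_Lam (by simp) j i
  have hq0 : q ≠ 0 := by
    intro h
    apply hi
    rw [h]; simp
  obtain ⟨J, hJ1, hJ2⟩ := E_finite hyB.2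
  simp only [Finset.mem_union, not_or] at hjF hiF
  refine ⟨F1, fun a ha b hb hab => ?_⟩
  obtain ⟨k, hk⟩ := fresh (F1 ∪ J ∪ {a, b, i, j})
  simp only [Finset.mem_union, Finset.mem_insert, Finset.mem_singleton, not_or] at hk
  obtain ⟨⟨hk1, hk2⟩, hka, hkb, hki, hkj⟩ := hk
  obtain ⟨l, hl⟩ := fresh (F1 ∪ J ∪ {a, b, i, j, k})
  simp only [Finset.mem_union, Finset.mem_insert, Finset.mem_singleton, not_or] at hl
  obtain ⟨⟨hl1, hl2⟩, hla, hlb, hli, hlj, hlk⟩ := hl
  obtain ⟨n, hn⟩ := fresh (F1 ∪ J ∪ {a, b, i, j, k, l})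
  simp only [Finset.mem_union, Finset.mem_insert, Finset.mem_singleton, not_or] at hn
  obtain ⟨⟨hn1, hn2⟩, hna, hnb, hni, hnj, hnk, hnl⟩ := hn
  have one_int : padicNorm 2 (1 : ℚ) ≤ 1 := by simp
  have hT : y * elG j k 1 * y⁻¹ ∈ W4 :=
    c5 _ hy5 _ (hF1 (elG_AA hjF.1 hk1 (Ne.symm hkj) one_int)).2
  have hli' : elG l i 1 ∈ W4 := (hF1 (elG_AA hl1 hiF.1 hli one_int)).1.2.2
  have h3 := c4 _ hli' _ hT
  have hyh : y.h (Finsupp.single j 1) k = 0 := by
    rw [E_coord hJ2 k hk2]; exact single_off (Ne.symm hkj) 1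
  have h4 : elG l i 1 * (y * elG j k 1 * y⁻¹) * (elG l i 1)⁻¹ * (y * elG j k 1 * y⁻¹)⁻¹
      = elG l k q := by
    apply G.ext'
    · simp [elG_v, hyB.1]
    · have h5 : (y * elG j k 1 * y⁻¹).h = tv k (y.h (Finsupp.single j 1)) := by
        rw [mul_h, mul_h, inv_h, elG_h (Ne.symm hkj)]
        exact conj_el hJ2 (Ne.symm hkj) hk2
      rw [mul_h, mul_h, mul_h, inv_h, inv_h, h5, elG_h hli, elG_h hlk]
      exact comm_el_tv hli hlk _ hyh
  rw [h4] at h3
  have h6 : elG k n (1 / (2 * q)) ∈ W3 :=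
    (hF1 (elG_AA hk1 hn1 (Ne.symm hnk) (norm_half_div hi))).1.2.1
  have h7 := c3 _ h3 _ h6
  rw [commG hlk (Ne.symm hnk) (Ne.symm hnl)] at h7
  have h8 : q * (1 / (2 * q)) = 1 / 2 := by
    field_simp
  rw [h8] at h7
  have h9 : elG a l 1 ∈ W2 := (hF1 (elG_AA ha hl1 (Ne.symm hla) one_int)).1.1.2
  have h10 := c2 _ h9 _ h7
  rw [commG (Ne.symm hla) (Ne.symm hnl) (Ne.symm hna), one_mul] at h10
  have h11 : elG n b 1 ∈ W1 := (hF1 (elG_AA hn1 hb hnb one_int)).1.1.1
  have h12 := c1 _ h10 _ h11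
  rw [commG (Ne.symm hna) hnb hab, mul_one] at h12
  exact h12


omit [TopologicalSpace G] [IsTopologicalGroup G] in
theorem norm_pow_mul (x : ℚ) : ∃ k : ℕ, padicNorm 2 (2 ^ k * x) ≤ 1 := by
  by_cases hx : x = 0
  · exact ⟨0, by rw [hx]; simp⟩
  obtain ⟨z, hz⟩ := padicNorm.values_discrete (p := 2) hx
  have h2 : padicNorm 2 (2 : ℚ) = (2 : ℚ)⁻¹ := by
    have := padicNorm.padicNorm_p (p := 2) (by norm_num)
    simpa using this
  have hk : ∀ k : ℕ, padicNorm 2 ((2 : ℚ) ^ k) = ((2 : ℚ)⁻¹) ^ k := by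
    intro k
    induction k with
    | zero => simp
    | succ k ih => rw [pow_succ, padicNorm.mul, ih, h2, pow_succ]
  refine ⟨(-z).toNat, ?_⟩
  rw [padicNorm.mul, hk, hz]
  have h3 : ((2 : ℚ)⁻¹) ^ (-z).toNat * ((2 : ℕ) : ℚ) ^ (-z) = (2 : ℚ) ^ (-z - ((-z).toNat : ℤ)) := by
    rw [inv_pow, ← zpow_natCast, ← zpow_neg, Nat.cast_ofNat, ← zpow_add₀ (by norm_num)]
    congr 1
    ring
  rw [h3]
  apply zpow_le_one_of_nonpos₀ (by norm_num)
  have := Int.self_le_toNat (-z)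
  omega

theorem PP_all (hA : ∀ W ∈ 𝓝 (1 : G), ∃ F, (AA F : Set G) ⊆ W)
    (hB : ∀ F, (BB F : Set G) ∈ 𝓝 (1 : G)) (hn : ∃ F, (AA F : Set G) ∉ 𝓝 (1 : G)) (x : ℚ) :
    PP x := by
  have hpow : ∀ k : ℕ, PP ((1 / 2) ^ k) := by
    intro k
    induction k with
    | zero => rw [pow_zero]; exact PP_int hA (by simp)
    | succ k ih => rw [pow_succ]; exact PP_mul ih (PP_half hA hB hn)
  obtain ⟨k, hk⟩ := norm_pow_mul x
  have h := PP_mul (hpow k) (PP_int hA hk)
  have h2 : (1 / 2 : ℚ) ^ k * (2 ^ k * x) = x := by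
    rw [← mul_assoc, ← mul_pow]
    norm_num
  rwa [h2] at h

/-- Far translates of a fixed element are small. -/
theorem pattern (hP : ∀ x : ℚ, PP x) {P : Set ℕ} {g : Aut} (hg : g ∈ E P) :
    ∃ J : Finset ℕ, (J : Set ℕ) ⊆ P ∧ ∀ W ∈ 𝓝 (1 : G), ∃ F : Finset ℕ, ∀ κ ∈ E univ, ∀ M : ℕ,
      (∀ i ∈ J, i + M ∉ F) →
      (∀ i ∈ J, κ (Finsupp.single i 1) = Finsupp.single (i + M) 1 ∧ ∀ v : V, (κ v) (i + M) = v i) →
      ∀ y : G, y.v = 0 → y.h = κ * g * κ⁻¹ → y ∈ W := by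
  induction hg using Subgroup.closure_induction with
  | mem g hg =>
    obtain ⟨i, hi, j, hj, hij, x, rfl⟩ := hg
    refine ⟨{i, j}, ?_, ?_⟩
    · intro k hk
      simp at hk
      rcases hk with rfl | rfl <;> assumption
    · intro W hW
      obtain ⟨F, hF⟩ := hP x W hW
      refine ⟨F, fun κ _ M h1 h2 y hy1 hy2 => ?_⟩
      have e1 := h2 i (by simp)
      have e2 := h2 j (by simp)
      have hne : i + M ≠ j + M := by omega
      have h3 : y = elG (i + M) (j + M) x := by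
        apply G.ext'
        · rw [hy1, elG_v]
        · rw [hy2, elG_h hne, shift_conj hij e1.1 e2.2]
      rw [h3]
      exact hF _ (h1 i (by simp)) _ (h1 j (by simp)) hne
  | one =>
    refine ⟨∅, by simp, fun W hW => ⟨∅, fun κ _ M _ _ y hy1 hy2 => ?_⟩⟩
    have : y = 1 := by
      apply G.ext'
      · rw [hy1, one_v]
      · rw [hy2, one_h, mul_one, mul_inv_cancel]
    rw [this]
    exact mem_of_mem_nhds hW
  | mul a b ha' hb' ha hb =>
    obtain ⟨J1, h11, h12⟩ := ha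
    obtain ⟨J2, h21, h22⟩ := hb
    refine ⟨J1 ∪ J2, ?_, fun W hW => ?_⟩
    · rw [Finset.coe_union]; exact Set.union_subset h11 h21
    obtain ⟨W', hW', hm⟩ := mul_nhds hW
    obtain ⟨F1, hF1⟩ := h12 W' hW'
    obtain ⟨F2, hF2⟩ := h22 W' hW'
    refine ⟨F1 ∪ F2, fun κ hκ M h1 h2 y hy1 hy2 => ?_⟩
    have ea : a ∈ E univ := E_mono (subset_univ P) ha'
    have eb : b ∈ E univ := E_mono (subset_univ P) hb'
    have ma : κ * a * κ⁻¹ ∈ E univ :=
      Subgroup.mul_mem _ (Subgroup.mul_mem _ hκ ea) (Subgroup.inv_mem _ hκ)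
    have mb : κ * b * κ⁻¹ ∈ E univ :=
      Subgroup.mul_mem _ (Subgroup.mul_mem _ hκ eb) (Subgroup.inv_mem _ hκ)
    have h3 : y = mkH _ ma * mkH _ mb := by
      apply G.ext'
      · rw [hy1, mul_v, mkH_v, mkH_v, map_zero, add_zero]
      · rw [hy2, mul_h, mkH_h, mkH_h]; group
    rw [h3]
    apply hm
    · refine hF1 κ hκ M (fun i hi h => h1 i (Finset.mem_union_left _ hi)
        (Finset.mem_union_left _ h)) (fun i hi => h2 i (Finset.mem_union_left _ hi)) _ rfl rfl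
    · refine hF2 κ hκ M (fun i hi h => h1 i (Finset.mem_union_right _ hi)
        (Finset.mem_union_right _ h)) (fun i hi => h2 i (Finset.mem_union_right _ hi)) _ rfl rfl
  | inv a ha' ha =>
    obtain ⟨J1, h11, h12⟩ := ha
    refine ⟨J1, h11, fun W hW => ?_⟩
    obtain ⟨W', hW', hm⟩ := inv_nhds hW
    obtain ⟨F1, hF1⟩ := h12 W' hW'
    refine ⟨F1, fun κ hκ M h1 h2 y hy1 hy2 => ?_⟩
    have h3 : y⁻¹ ∈ W' := by
      apply hF1 κ hκ M h1 h2
      · rw [inv_v, hy1, map_zero, neg_zero]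
      · rw [inv_h, hy2]; group
    have := hm _ h3
    rwa [inv_inv] at this

theorem coverAB (hA : ∀ W ∈ 𝓝 (1 : G), ∃ F, (AA F : Set G) ⊆ W)
    (hB : ∀ F, (BB F : Set G) ∈ 𝓝 (1 : G)) (hn : ∃ F, (AA F : Set G) ∉ 𝓝 (1 : G)) :
    ∀ W ∈ 𝓝 (1 : G), ∃ F, (BB F : Set G) ⊆ W := by
  intro W hW
  obtain ⟨W1, hW1, hc⟩ := conj_nhds' hW
  obtain ⟨F1, hF1⟩ := hA _ hW1
  refine ⟨F1, fun y hy => ?_⟩
  obtain ⟨J, hJ, hpat⟩ := pattern (PP_all hA hB hn) hy.2
  obtain ⟨F, hF⟩ := hpat W1 hW1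
  obtain ⟨M, hM⟩ : ∃ M : ℕ, ∀ i ∈ J ∪ F ∪ F1, i < M :=
    ⟨(J ∪ F ∪ F1).sup id + 1, fun i hi => Nat.lt_succ_of_le (Finset.le_sup (f := id) hi)⟩
  obtain ⟨κ, h1, h2, h3⟩ := exists_shift M J
    (fun i hi => hM i (Finset.mem_union_left _ (Finset.mem_union_left _ hi)))
  have hκ : κ ∈ E (co F1) := by
    apply E_mono _ h1
    rintro n (hn | ⟨i, hi, rfl⟩)
    · exact hJ hn
    · intro h
      have := hM (i + M) (Finset.mem_union_right _ h)
      omega
  have hκu : κ ∈ E univ := E_mono (subset_univ _) hκ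
  have h4 : mkH κ hκu ∈ (AA F1 : Set G) := ⟨rfl, hκ, h2⟩
  have h5 : mkH κ hκu * y * (mkH κ hκu)⁻¹ ∈ W1 := by
    apply hF κ hκu M _ h3
    · simp [hy.1]
    · simp
    · intro i hi h
      have := hM (i + M) (Finset.mem_union_left _ (Finset.mem_union_right _ h))
      omega
  have h6 := hc _ (hF1 h4) _ h5
  have h7 : (mkH κ hκu)⁻¹ * (mkH κ hκu * y * (mkH κ hκu)⁻¹) * mkH κ hκu = y := by group
  rwa [h7] at h6

end topo

/-! countability -/

theorem countable_closure (s : Set Aut) (hs : s.Countable) :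
    (Subgroup.closure s : Set Aut).Countable := by
  have h1 : (s ∪ s⁻¹).Countable := hs.union (by
    rw [← Set.image_inv_eq_inv]
    exact hs.image _)
  have h0 : Countable (s ∪ s⁻¹ : Set Aut) := h1.to_subtype
  have h2 : (Set.range (fun l : List (s ∪ s⁻¹ : Set Aut) => (l.map Subtype.val).prod)).Countable :=
    Set.countable_range _
  apply h2.mono
  intro x hx
  have hx' : x ∈ (Subgroup.closure s).toSubmonoid := hx
  rw [Subgroup.closure_toSubmonoid] at hx'
  obtain ⟨l, hl, hl2⟩ := Submonoid.exists_list_of_mem_closure hx'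
  lift l to List (s ∪ s⁻¹ : Set Aut) using hl
  exact ⟨l, hl2⟩

theorem gens_countable : (gens univ).Countable := by
  have h : (Set.range (fun p : ℕ × ℕ × ℚ => el p.1 p.2.1 p.2.2)).Countable := Set.countable_range _
  apply h.mono
  rintro g ⟨i, _, j, _, _, x, rfl⟩
  exact ⟨(i, j, x), rfl⟩

theorem countable_G : Countable G := by
  have h : Countable (E univ) := (countable_closure _ gens_countable).to_subtype
  apply Function.Injective.countable (f := fun g : G => (g.v, (⟨g.h, g.mem⟩ : E univ)))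
  intro a b hab
  simp only [Prod.mk.injEq, Subtype.mk.injEq] at hab
  exact G.ext' hab.1 hab.2

theorem infinite_G : Infinite G := by
  apply Infinite.of_injective (fun n : ℕ => mkT (Finsupp.single n 1))
  intro m n h
  have h1 : (Finsupp.single m 1 : V) = Finsupp.single n 1 := congrArg G.v h
  exact Finsupp.single_left_injective one_ne_zero h1

section assembly

variable {K : Type} [Group K]

theorem le_gTop (S S' : Finset ℕ → Subgroup K) (a : ∀ F F', F ⊆ F' → S F' ≤ S F)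
    (a' : ∀ F F', F ⊆ F' → S' F' ≤ S' F)
    (c : ∀ (g : K) (F : Finset ℕ), ∃ F', ∀ x ∈ S F', g * x * g⁻¹ ∈ S F)
    (c' : ∀ (g : K) (F : Finset ℕ), ∃ F', ∀ x ∈ S' F', g * x * g⁻¹ ∈ S' F)
    (h : ∀ F, S F ≤ S' F) : gTop S a c ≤ gTop S' a' c' := by
  rw [le_iff_nhds]
  intro U hU
  rw [mem_nhds_gTop] at hU ⊢
  obtain ⟨F, hF⟩ := hU
  exact ⟨F, fun x hx => hF (h F hx)⟩

theorem not_le_gTop (S S' : Finset ℕ → Subgroup K) (a : ∀ F F', F ⊆ F' → S F' ≤ S F)
    (a' : ∀ F F', F ⊆ F' → S' F' ≤ S' F)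
    (c : ∀ (g : K) (F : Finset ℕ), ∃ F', ∀ x ∈ S F', g * x * g⁻¹ ∈ S F)
    (c' : ∀ (g : K) (F : Finset ℕ), ∃ F', ∀ x ∈ S' F', g * x * g⁻¹ ∈ S' F)
    (h : ∀ F, ∃ x ∈ S' F, x ∉ S ∅) : ¬ gTop S' a' c' ≤ gTop S a c := by
  rw [le_iff_nhds]
  intro hcon
  have h1 : (S ∅ : Set K) ∈ @nhds K (gTop S a c).toTopologicalSpace 1 := by
    rw [mem_nhds_gTop]; exact ⟨∅, le_refl _⟩
  have h2 := hcon _ h1
  rw [mem_nhds_gTop] at h2
  obtain ⟨F, hF⟩ := h2
  obtain ⟨x, hx, hx'⟩ := h F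
  exact hx' (hF hx)

end assembly

theorem AA_le_CC (F : Finset ℕ) : AA F ≤ CC F := (AA_le_BB F).trans (BB_le_CC F)

/-- the four kinds of group topologies -/
noncomputable def tA : GroupTopology G := gTop AA AA_anti (conj_far AA AA_anti AA_le_CC)
noncomputable def tB : GroupTopology G := gTop BB BB_anti (conj_far BB BB_anti BB_le_CC)
noncomputable def tC : GroupTopology G := gTop CC CC_anti (conj_far CC CC_anti (fun _ => le_refl _))
noncomputable def tD (k : ℕ) : GroupTopology G :=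
  gTop (DD k) (DD_anti k) (conj_far (DD k) (DD_anti k) (DD_le_CC k))

theorem norm_two_pow (k : ℕ) : padicNorm 2 ((2 : ℚ) ^ k) = ((2 : ℚ)⁻¹) ^ k := by
  have h2 : padicNorm 2 (2 : ℚ) = (2 : ℚ)⁻¹ := by
    have := padicNorm.padicNorm_p (p := 2) (by norm_num)
    simpa using this
  induction k with
  | zero => simp
  | succ k ih => rw [pow_succ, padicNorm.mul, ih, h2, pow_succ]

theorem norm_half : padicNorm 2 ((2 : ℚ)⁻¹) = 2 := by
  have h := norm_two_pow 1
  rw [pow_one, pow_one] at h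
  have h1 : padicNorm 2 ((2 : ℚ)⁻¹) * padicNorm 2 (2 : ℚ) = 1 := by
    rw [← padicNorm.mul]; simp
  rw [h] at h1
  linarith

theorem tAB : tA < tB := by
  apply lt_of_le_not_ge
  · exact le_gTop _ _ _ _ _ _ AA_le_BB
  · apply not_le_gTop
    intro F
    obtain ⟨a, ha⟩ := fresh F
    obtain ⟨b, hb⟩ := fresh (F ∪ {a})
    simp only [Finset.mem_union, Finset.mem_singleton, not_or] at hb
    have hab : a ≠ b := Ne.symm hb.2
    refine ⟨elG a b (2 : ℚ)⁻¹, ⟨elG_v _ _ _, ?_⟩, ?_⟩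
    · rw [elG_h hab]; exact el_mem ha hb.1 hab _
    · intro h
      have h1 := (h.2.2 (Finsupp.single b 1)).mp (single_mem_Lam (by simp) b)
      rw [elG_h hab, el_apply hab] at h1
      have h2 := h1 a
      rw [Finsupp.add_apply, single_off (Ne.symm hab), Finsupp.smul_apply, Finsupp.single_eq_same,
        Finsupp.single_eq_same, smul_eq_mul, one_mul, zero_add, norm_half] at h2
      norm_num at h2

theorem tBC : tB < tC := by
  apply lt_of_le_not_ge
  · exact le_gTop _ _ _ _ _ _ BB_le_CC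
  · apply not_le_gTop
    intro F
    obtain ⟨a, ha⟩ := fresh F
    refine ⟨mkT (Finsupp.single a 1), ⟨fun i hi => ?_, Subgroup.one_mem _⟩, ?_⟩
    · exact single_off (fun h => ha (by rw [h]; exact hi)) 1
    · intro h
      have h1 : (Finsupp.single a 1 : V) = 0 := h.1
      have h2 := DFunLike.congr_fun h1 a
      simp at h2

theorem tAD (k : ℕ) : tA < tD k := by
  apply lt_of_le_not_ge
  · exact le_gTop _ _ _ _ _ _ (AA_le_DD k)
  · apply not_le_gTop
    intro F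
    obtain ⟨a, ha⟩ := fresh F
    refine ⟨mkT (Finsupp.single a (2 ^ k)), ⟨fun i hi => ?_, ?_, Subgroup.one_mem _,
      Subgroup.one_mem _⟩, ?_⟩
    · exact single_off (fun h => ha (by rw [h]; exact hi)) _
    · rw [mkT_v, Finsupp.smul_single, smul_eq_mul, inv_mul_cancel₀ (by positivity)]
      exact single_mem_Lam (by simp) a
    · intro h
      have h1 : (Finsupp.single a (2 ^ k) : V) = 0 := h.1
      have h2 := DFunLike.congr_fun h1 a
      simp at h2

theorem tDC (k : ℕ) : tD k < tC := by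
  apply lt_of_le_not_ge
  · exact le_gTop _ _ _ _ _ _ (DD_le_CC k)
  · apply not_le_gTop
    intro F
    obtain ⟨a, ha⟩ := fresh F
    refine ⟨mkT (Finsupp.single a (2 ^ k * 2⁻¹)), ⟨fun i hi => ?_, Subgroup.one_mem _⟩, ?_⟩
    · exact single_off (fun h => ha (by rw [h]; exact hi)) _
    · intro h
      have h1 := h.2.1 a
      rw [mkT_v, Finsupp.smul_single, Finsupp.single_eq_same, smul_eq_mul,
        inv_mul_cancel_left₀ (by positivity), norm_half] at h1
      norm_num at h1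

theorem tDD (k : ℕ) : tD (k + 1) < tD k := by
  apply lt_of_le_not_ge
  · apply le_gTop
    rintro F g ⟨h1, h2, h3, h4⟩
    refine ⟨h1, ?_, h3, h4⟩
    have h5 := smul_mem_Lam (x := 2) (by
      have := norm_two_pow 1
      rw [pow_one, pow_one] at this
      rw [this]; norm_num) h2
    rw [smul_smul] at h5
    have h6 : (2 : ℚ) * (2 ^ (k + 1))⁻¹ = (2 ^ k)⁻¹ := by
      rw [pow_succ]; field_simp
    rwa [h6] at h5
  · apply not_le_gTop
    intro F
    obtain ⟨a, ha⟩ := fresh F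
    refine ⟨mkT (Finsupp.single a (2 ^ k)), ⟨fun i hi => ?_, ?_, Subgroup.one_mem _,
      Subgroup.one_mem _⟩, ?_⟩
    · exact single_off (fun h => ha (by rw [h]; exact hi)) _
    · rw [mkT_v, Finsupp.smul_single, smul_eq_mul, inv_mul_cancel₀ (by positivity)]
      exact single_mem_Lam (by simp) a
    · intro h
      have h1 := h.2.1 a
      have h6 : ((2 : ℚ) ^ (k + 1))⁻¹ * 2 ^ k = 2⁻¹ := by
        rw [pow_succ]; field_simp
      rw [mkT_v, Finsupp.smul_single, Finsupp.single_eq_same, smul_eq_mul, h6, norm_half] at h1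
      norm_num at h1

theorem covAB : tA ⋖ tB := by
  refine ⟨tAB, fun c h1 h2 => ?_⟩
  apply absurd h2
  apply not_lt_of_ge
  rw [le_iff_nhds]
  have hle1 := (le_iff_nhds _ _).mp h1.le
  have hle2 := (le_iff_nhds _ _).mp h2.le
  have hn : ¬ _ := fun h => not_lt_of_ge ((le_iff_nhds c tA).mpr h) h1
  intro U hU
  rw [tB, mem_nhds_gTop]
  refine @coverAB c.toTopologicalSpace c.toIsTopologicalGroup ?_ ?_ ?_ U hU
  · intro W hW
    have := hle1 W hW
    rwa [tA, mem_nhds_gTop] at this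
  · intro F
    apply hle2
    rw [tB, mem_nhds_gTop]
    exact ⟨F, le_refl _⟩
  · by_contra hcon
    push Not at hcon
    apply hn
    intro W hW
    rw [tA, mem_nhds_gTop] at hW
    obtain ⟨F, hF⟩ := hW
    exact mem_of_superset (hcon F) hF

theorem covBC : tB ⋖ tC := by
  refine ⟨tBC, fun c h1 h2 => ?_⟩
  apply absurd h2
  apply not_lt_of_ge
  rw [le_iff_nhds]
  have hle1 := (le_iff_nhds _ _).mp h1.le
  have hle2 := (le_iff_nhds _ _).mp h2.le
  have hn : ¬ _ := fun h => not_lt_of_ge ((le_iff_nhds c tB).mpr h) h1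
  intro U hU
  rw [tC, mem_nhds_gTop]
  refine @coverBC c.toTopologicalSpace c.toIsTopologicalGroup ?_ ?_ ?_ U hU
  · intro W hW
    have := hle1 W hW
    rwa [tB, mem_nhds_gTop] at this
  · intro F
    apply hle2
    rw [tC, mem_nhds_gTop]
    exact ⟨F, le_refl _⟩
  · by_contra hcon
    push Not at hcon
    apply hn
    intro W hW
    rw [tB, mem_nhds_gTop] at hW
    obtain ⟨F, hF⟩ := hW
    exact mem_of_superset (hcon F) hF

theorem CC_sep (x : G) (h : ∀ F, x ∈ CC F) : x = 1 := by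
  apply G.ext'
  · ext i
    exact (h {i}).1 i (by simp)
  · rw [one_h]
    apply LinearEquiv.toLinearMap_injective
    apply Finsupp.lhom_ext'
    intro i
    apply LinearMap.ext_ring
    have := E_fix (h {i}).2 (Finsupp.single i 1) (by
      intro k hk
      apply single_off
      rintro rfl
      exact hk (by simp))
    simpa using this

theorem t2C : @T2Space G tC.toTopologicalSpace := t2_gTop _ _ _ CC_sep
theorem t2B : @T2Space G tB.toTopologicalSpace :=
  t2_gTop _ _ _ (fun x h => CC_sep x (fun F => BB_le_CC F (h F)))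
theorem t2A : @T2Space G tA.toTopologicalSpace :=
  t2_gTop _ _ _ (fun x h => CC_sep x (fun F => AA_le_CC F (h F)))

theorem tC_ne : tC.toTopologicalSpace ≠ ⊥ := by
  intro h
  have h1 : tC = ⊥ := GroupTopology.toTopologicalSpace_injective (by rw [h]; rfl)
  have h2 := tBC
  rw [h1] at h2
  exact not_lt_bot h2

theorem tD_anti : StrictAnti tD := strictAnti_nat_of_succ_lt tDD


end work


/-- There is a countable infinite group with a Hausdorff non-discrete group topology, a finite maximal (non-refinable) chain of Hausdorff group topologies τ0..τk, and an infinite chain of group topologies all strictly between τ0 and τk. -/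
theorem result :
    ∃ (G : Type) (_ : Group G), Countable G ∧ Infinite G ∧
      (∃ t : GroupTopology G, @T2Space G t.toTopologicalSpace ∧ t.toTopologicalSpace ≠ ⊥) ∧
      ∃ (k : ℕ) (τ : Fin (k + 1) → GroupTopology G),
        (∀ i : Fin k, τ i.castSucc ⋖ τ i.succ) ∧
        (∀ i : Fin (k + 1), @T2Space G (τ i).toTopologicalSpace) ∧
        ∃ S : Set (GroupTopology G), S.Infinite ∧ IsChain (· ≤ ·) S ∧
          ∀ s ∈ S, τ 0 < s ∧ s < τ (Fin.last k) := by
  refine ⟨G, inferInstance, countable_G, infinite_G, ⟨tC, t2C, tC_ne⟩, 2, ![tA, tB, tC], ?_, ?_,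
    Set.range tD, ?_, ?_, ?_⟩
  · intro i
    fin_cases i
    · exact covAB
    · exact covBC
  · intro i
    fin_cases i
    · exact t2A
    · exact t2B
    · exact t2C
  · exact Set.infinite_range_of_injective tD_anti.injective
  · rintro _ ⟨m, rfl⟩ _ ⟨n, rfl⟩ _
    rcases le_total m n with h | h
    · exact Or.inr (tD_anti.antitone h)
    · exact Or.inl (tD_anti.antitone h)
  · rintro _ ⟨k, rfl⟩
    exact ⟨tAD k, tDC k⟩

end Pool.Agent.S00573
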