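import Pool.Statements.S00578

/-!
Two free product decompositions of a Lie algebra without isomorphic refinements.

Let `g` be the two dimensional Lie algebra with basis `x, t` and `[x, t] = t`, and
`L = g * K a * K b`.  Put `f = a - [x, a] + b + [t, b]`, `p = a - f - [t, f]`, `q = b - [x, f]`.
Then `L` is also the free product of `K f` and of the subalgebra `S` generated by `x, t, p, q`.
(The pair `1 + t, x` is unimodular in the enveloping algebra of `g`, and the left ideal attached to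
it is stably free but not free.)  A refinement isomorphic to one of `g, K a, K b` would give
generators of `S` by a copy of `g` and one more element, and then the image of `S` in the semidirect
product of `g` with the left ideal would force that left ideal to be principal.
-/

set_option autoImplicit false
open Pool Pool.MP_2fcc64_al

namespace Pool.Agent.S00578

open Polynomial

/-- The commutative polynomial ring in `X` (inner) and `T` (outer). -/
abbrev M : Type := Polynomial (Polynomial ℚ)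

/-- The operator `X + T d/dT`. -/
noncomputable def Psi : M →ₗ[ℚ] M where
  toFun c := C X * c + X * derivative c
  map_add' := by intro a b; simp only [derivative_add]; ring
  map_smul' := by
    intro a b
    simp only [derivative_smul, mul_smul_comm, smul_add, RingHom.id_apply]

lemma Psi_apply (c : M) : Psi c = C X * c + X * derivative c := rfl

/-- Multiplication by `T`. -/
noncomputable def Tau : M →ₗ[ℚ] M where
  toFun c := X * c
  map_add' := by intro a b; ring
  map_smul' := by intro a b; simp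

lemma Tau_apply (c : M) : Tau c = X * c := rfl

lemma Psi_Tau (c : M) : Psi (Tau c) = Tau (Psi c) + Tau c := by
  simp only [Psi_apply, Tau_apply, derivative_mul, derivative_X]; ring

/-- Evaluation of the inner variable at a rational. -/
noncomputable def ev (q : ℚ) : M →+* Polynomial ℚ := mapRingHom (evalRingHom q)

lemma ev_CX (q : ℚ) : ev q (C X) = C q := by simp [ev]

lemma ev_X (q : ℚ) : ev q X = X := by simp [ev]

lemma ev_deriv (q : ℚ) (c : M) : ev q (derivative c) = derivative (ev q c) := by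
  simp [ev, derivative_map]

lemma ev_smul (q a : ℚ) (c : M) : ev q (a • c) = a • ev q c := by
  ext n
  simp [ev, coeff_map, coeff_smul, eval_smul]

/-- The left ideal, seen inside `M`. -/
noncomputable def Id : Submodule ℚ M where
  carrier := {c | ev 0 c + X * ev 1 c = 0}
  add_mem' := by
    intro a b ha hb
    simp only [Set.mem_ofPred_eq, map_add] at *
    linear_combination ha + hb
  zero_mem' := by simp
  smul_mem' := by
    intro q a ha
    simp only [Set.mem_ofPred_eq, ev_smul] at *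
    rw [mul_smul_comm, ← smul_add, ha, smul_zero]

lemma mem_Id (c : M) : c ∈ Id ↔ ev 0 c + X * ev 1 c = 0 := Iff.rfl

lemma Id_Tau {c : M} (h : c ∈ Id) : Tau c ∈ Id := by
  rw [mem_Id] at *
  simp only [Tau_apply, map_mul, ev_X]
  linear_combination X * h

lemma Id_Psi {c : M} (h : c ∈ Id) : Psi c ∈ Id := by
  rw [mem_Id] at *
  have h1 := congrArg derivative h
  simp only [derivative_add, derivative_mul, derivative_X, derivative_zero] at h1
  simp only [Psi_apply, map_add, map_mul, ev_X, ev_CX, ev_deriv, C_0, C_1]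
  linear_combination X * h1

/-- The shift `X ↦ X + i` on the inner ring. -/
noncomputable def sh (i : ℕ) : Polynomial ℚ →+* Polynomial ℚ := (compRingHom (X + C (i : ℚ)))

lemma sh_X (i : ℕ) : sh i X = X + C (i : ℚ) := by simp [sh]

lemma sh_inj (i : ℕ) : Function.Injective (sh i) := by
  intro a b h
  have h2 : ∀ c : Polynomial ℚ, (sh i c).comp (X - C (i : ℚ)) = c := by
    intro c
    simp [sh, comp_assoc]
  rw [← h2 a, ← h2 b, h]

/-- `phi d u` is the action of the skew polynomial `u` on `d`. -/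
noncomputable def phi (d u : M) : M :=
  d.sum fun i di => (u.map (sh i)) * (C di * X ^ i)

lemma phi_Tau (d u : M) : phi d (Tau u) = Tau (phi d u) := by
  simp only [phi, Tau_apply, Polynomial.map_mul, map_X, sum_def, Finset.mul_sum]
  refine Finset.sum_congr rfl fun i _ => ?_
  ring

lemma phi_Psi (d u : M) : phi d (Psi u) = Psi (phi d u) := by
  simp only [phi, sum_def]
  rw [map_sum]
  refine Finset.sum_congr rfl fun i _ => ?_
  simp only [Psi_apply, Polynomial.map_add, Polynomial.map_mul, map_X, map_C, sh_X,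
    derivative_mul, derivative_C, derivative_X_pow, derivative_map, C_add]
  rcases i with _ | i
  · simp
    ring
  · simp only [Nat.add_sub_cancel, map_natCast]
    ring

lemma phi_add (d u v : M) : phi d (u + v) = phi d u + phi d v := by
  simp only [phi, sum_def, Polynomial.map_add, add_mul, Finset.sum_add_distrib]

lemma sh_smul (i : ℕ) (q : ℚ) (u : Polynomial ℚ) : sh i (q • u) = q • sh i u := by
  simp [sh]

lemma phi_smul (d : M) (q : ℚ) (u : M) : phi d (q • u) = q • phi d u := by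
  simp only [phi, sum_def, Finset.smul_sum]
  refine Finset.sum_congr rfl fun i _ => ?_
  have : (q • u).map (sh i) = q • (u.map (sh i)) := by
    ext1 n
    simp only [coeff_map, coeff_smul, sh_smul]
  rw [this, smul_mul_assoc]

/-- The submodule generated by `d`. -/
noncomputable def D (d : M) : Submodule ℚ M where
  carrier := {c | ∃ u, phi d u = c}
  add_mem' := by
    rintro a b ⟨u, rfl⟩ ⟨v, rfl⟩
    exact ⟨u + v, phi_add d u v⟩
  zero_mem' := ⟨0, by simp [phi, sum_def]⟩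
  smul_mem' := by
    rintro q a ⟨u, rfl⟩
    exact ⟨q • u, phi_smul d q u⟩

lemma D_Tau {d c : M} (h : c ∈ D d) : Tau c ∈ D d := by
  obtain ⟨u, rfl⟩ := h
  exact ⟨Tau u, phi_Tau d u⟩

lemma D_Psi {d c : M} (h : c ∈ D d) : Psi c ∈ D d := by
  obtain ⟨u, rfl⟩ := h
  exact ⟨Psi u, phi_Psi d u⟩

lemma self_mem_D (d : M) : d ∈ D d := by
  refine ⟨1, ?_⟩
  simp only [phi, Polynomial.map_one, one_mul]
  exact sum_C_mul_X_pow_eq d

lemma phi_coeff (d u : M) :
    (phi d u).coeff (u.natDegree + d.natDegree) =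
      sh d.natDegree (u.leadingCoeff) * d.leadingCoeff := by
  simp only [phi, sum_def, finsetSum_coeff]
  rw [Finset.sum_eq_single d.natDegree]
  · rw [← mul_assoc, coeff_mul_X_pow, coeff_mul_C, coeff_map]
    rfl
  · intro i hi hne
    have hlt : i < d.natDegree := lt_of_le_of_ne (le_natDegree_of_mem_supp i hi) hne
    rw [← mul_assoc]
    have : u.natDegree + d.natDegree = (u.natDegree + (d.natDegree - i)) + i := by omega
    rw [this, coeff_mul_X_pow, coeff_mul_C, coeff_map, coeff_eq_zero_of_natDegree_lt (by omega)]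
    simp
  · intro h
    have : d.coeff d.natDegree = 0 := by
      simpa using h
    simp [this]

lemma natDegree_of_phi_eq_C {d u : M} {a : Polynomial ℚ} (ha : a ≠ 0) (h : phi d u = C a) :
    d.natDegree = 0 := by
  have hd : d ≠ 0 := by
    rintro rfl
    simp [phi, sum_def] at h
    exact ha (C_eq_zero.mp h.symm)
  have hu : u ≠ 0 := by
    rintro rfl
    simp [phi, sum_def] at h
    exact ha (C_eq_zero.mp h.symm)
  have h1 := phi_coeff d u
  by_contra hne
  rw [h, coeff_C, if_neg (by omega)] at h1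
  rcases mul_eq_zero.mp h1.symm with h2 | h2
  · rw [← map_zero (sh d.natDegree)] at h2
    exact hu (leadingCoeff_eq_zero.mp (sh_inj _ h2))
  · exact hd (leadingCoeff_eq_zero.mp h2)

/-- first generator -/
noncomputable def m1 : M := C X + X * C (X - 1)
/-- second generator -/
noncomputable def m2 : M := C (X * (X - 1))

lemma m1_mem : m1 ∈ Id := by
  rw [mem_Id]
  simp [m1, ev]

lemma m2_mem : m2 ∈ Id := by
  rw [mem_Id]
  simp [m2, ev]

lemma key {d : M} (hd : d ∈ Id) (h1 : m1 ∈ D d) (h2 : m2 ∈ D d) : False := by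
  obtain ⟨u, hu⟩ := h2
  obtain ⟨v, hv⟩ := h1
  have hdeg : d.natDegree = 0 := by
    refine natDegree_of_phi_eq_C (a := X * (X - 1)) ?_ hu
    refine mul_ne_zero X_ne_zero ?_
    exact X_sub_C_ne_zero (1 : ℚ)
  obtain ⟨d0, rfl⟩ := natDegree_eq_zero.mp hdeg
  have hv0 : (phi (C d0) v).coeff 0 = v.coeff 0 * d0 := by
    rw [phi, sum_C_index]
    · have hs : sh 0 = RingHom.id _ := by
        ext <;> simp [sh]
      simp [hs]
    · simp
  rw [hv] at hv0
  have hx : m1.coeff 0 = X := by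
    simp [m1]
  rw [hx] at hv0
  have hd1 : eval 1 d0 = 0 := by
    rw [mem_Id] at hd
    have h3 := congrArg (fun p => coeff p 1) hd
    simpa [ev, coeff_C] using h3
  have := congrArg (eval 1) hv0
  simp [hd1] at this

lemma inj_op {a b : ℚ} {m : M} (h : a • Psi m + b • Tau m = m) : m = 0 := by
  by_contra hm
  set n := m.natDegree with hn
  have hlc : m.coeff n ≠ 0 := by
    intro h0
    exact hm (leadingCoeff_eq_zero.mp h0)
  have hcp : ∀ k, (Psi m).coeff k = (X + C (k : ℚ)) * m.coeff k := by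
    intro k
    rw [Psi_apply, coeff_add, coeff_C_mul]
    rcases k with _ | k
    · simp
    · rw [coeff_X_mul, coeff_derivative]
      simp only [Nat.cast_add, Nat.cast_one, C_add, map_natCast, C_1]
      ring
  have h1 := congrArg (fun p => coeff p (n + 1)) h
  have h2 := congrArg (fun p => coeff p n) h
  have hz : m.coeff (n + 1) = 0 := coeff_eq_zero_of_natDegree_lt (by omega)
  simp only [coeff_add, coeff_smul, hcp, Tau_apply, coeff_X_mul, hz, mul_zero, smul_zero,
    zero_add] at h1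
  have hb : b = 0 := by
    rcases smul_eq_zero.mp h1 with h3 | h3
    · exact h3
    · exact absurd h3 hlc
  subst hb
  simp only [coeff_smul, hcp, zero_smul, add_zero] at h2
  rw [← sub_eq_zero, ← smul_mul_assoc] at h2
  have h3 : (a • (X + C (n : ℚ)) - 1) * m.coeff n = 0 := by
    rw [sub_mul, one_mul]; exact h2
  rcases mul_eq_zero.mp h3 with h4 | h4
  · have h5 := congrArg (fun p => coeff p 1) h4
    simp [coeff_one] at h5
    subst h5
    simp at h4
  · exact hlc h4


/-! ### The Lie algebra of operators -/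

attribute [local instance 100] LieRing.ofAssociativeRing

/-- The ambient Lie algebra of endomorphisms. -/
def E : Type := Module.End ℚ (M × ℚ)

noncomputable instance : LieRing E := inferInstanceAs (LieRing (Module.End ℚ (M × ℚ)))

noncomputable instance : LieAlgebra ℚ E := inferInstanceAs (LieAlgebra ℚ (Module.End ℚ (M × ℚ)))

/-- Apply an operator. -/
noncomputable def ap (f : E) (v : M × ℚ) : M × ℚ := (show Module.End ℚ (M × ℚ) from f) v

lemma ap_ext {f g : E} (h : ∀ v, ap f v = ap g v) : f = g := LinearMap.ext h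

lemma ap_lie (f g : E) (v : M × ℚ) : ap ⁅f, g⁆ v = ap f (ap g v) - ap g (ap f v) := rfl

lemma ap_add (f g : E) (v : M × ℚ) : ap (f + g) v = ap f v + ap g v := rfl

lemma ap_smul (q : ℚ) (f : E) (v : M × ℚ) : ap (q • f) v = q • ap f v := rfl

lemma ap_zero (v : M × ℚ) : ap 0 v = 0 := rfl

/-- The operators `a x + b t + m`. -/
noncomputable def op (a b : ℚ) (m : M) : E := show Module.End ℚ (M × ℚ) from
  { toFun := fun v => (a • Psi v.1 + b • Tau v.1 + v.2 • m, 0)
    map_add' := by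
      intro v w
      ext1
      · simp only [Prod.fst_add, Prod.snd_add, map_add, smul_add, add_smul]
        abel
      · simp
    map_smul' := by
      intro q v
      ext1
      · simp only [Prod.smul_fst, Prod.smul_snd, map_smul, smul_eq_mul, RingHom.id_apply, smul_add,
          mul_smul, smul_comm q]
      · simp }

lemma op_apply (a b : ℚ) (m : M) (v : M × ℚ) :
    ap (op a b m) v = (a • Psi v.1 + b • Tau v.1 + v.2 • m, 0) := rfl

lemma op_inj {a b a' b' : ℚ} {m m' : M} (h : op a b m = op a' b' m') : a = a' ∧ b = b' ∧ m = m' := by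
  have h1 := congrArg (fun f : E => (ap f (0, 1)).1) h
  simp only [op_apply, map_zero, smul_zero, add_zero, zero_add, one_smul] at h1
  have h2 := congrArg (fun f : E => (ap f (1, 0)).1) h
  simp only [op_apply, Psi_apply, Tau_apply, mul_one, derivative_one, mul_zero, add_zero,
    zero_smul] at h2
  have h3 := congrArg (fun p => coeff (coeff p 0) 1) h2
  have h4 := congrArg (fun p => coeff (coeff p 1) 0) h2
  simp [coeff_C, coeff_X] at h3 h4
  exact ⟨h3, h4, h1⟩

lemma op_lie (a b a' b' : ℚ) (m m' : M) :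
    ⁅op a b m, op a' b' m'⁆ = op 0 (a * b' - a' * b)
      (a • Psi m' + b • Tau m' - a' • Psi m - b' • Tau m) := by
  refine ap_ext fun v => ?_
  ext1
  · simp only [ap_lie, op_apply, Prod.fst_sub, map_add, map_smul,
      smul_add, smul_sub, sub_smul, Psi_Tau, zero_smul, add_zero, zero_add, smul_smul]
    module
  · simp [ap_lie, op_apply]

lemma op_add (a b a' b' : ℚ) (m m' : M) :
    op a b m + op a' b' m' = op (a + a') (b + b') (m + m') := by
  refine ap_ext fun v => ?_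
  ext1
  · simp only [ap_add, op_apply, Prod.fst_add]
    module
  · simp [ap_add, op_apply]

lemma op_smul (q a b : ℚ) (m : M) : q • op a b m = op (q * a) (q * b) (q • m) := by
  refine ap_ext fun v => ?_
  ext1
  · simp only [ap_smul, op_apply, Prod.smul_fst]
    module
  · simp [ap_smul, op_apply]

lemma op_zero : op 0 0 0 = 0 := by
  refine ap_ext fun v => ?_
  simp [op_apply, ap_zero]

lemma op_congr {a b a' b' : ℚ} {m m' : M} (h1 : a = a') (h2 : b = b') (h3 : m = m') :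
    op a b m = op a' b' m' := by
  subst h1; subst h2; subst h3; rfl

/-- The defect of the bracket of two operators. -/
noncomputable def defect (a1 b1 a2 b2 : ℚ) (c1 c2 : M) : M :=
  a1 • Psi c2 + b1 • Tau c2 - a2 • Psi c1 - b2 • Tau c1 + a2 • c1 - a1 • c2

/-- The Lie subalgebra spanned by two operators and the submodule generated by `d`. -/
noncomputable def Sub (a1 b1 a2 b2 : ℚ) (c1 c2 d : M) (he : defect a1 b1 a2 b2 c1 c2 ∈ D d) :
    LieSubalgebra ℚ E where
  carrier := {x | ∃ α β : ℚ, ∃ m ∈ D d,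
    x = op (α * a1 + β * a2) (α * b1 + β * b2) (α • c1 + β • c2 + m)}
  add_mem' := by
    rintro x y ⟨α, β, m, hm, rfl⟩ ⟨α', β', m', hm', rfl⟩
    refine ⟨α + α', β + β', m + m', add_mem hm hm', ?_⟩
    rw [op_add]
    exact op_congr (by ring) (by ring) (by module)
  zero_mem' := ⟨0, 0, 0, zero_mem _, by simp [op_zero]⟩
  smul_mem' := by
    rintro q x ⟨α, β, m, hm, rfl⟩
    refine ⟨q * α, q * β, q • m, Submodule.smul_mem _ _ hm, ?_⟩
    rw [op_smul]
    exact op_congr (by ring) (by ring) (by module)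
  lie_mem' := by
    rintro x y ⟨α, β, m, hm, rfl⟩ ⟨α', β', m', hm', rfl⟩
    refine ⟨(α * β' - α' * β) * (-a2), (α * β' - α' * β) * a1,
      (α * β' - α' * β) • defect a1 b1 a2 b2 c1 c2 +
        ((α * a1 + β * a2) • Psi m' + (α * b1 + β * b2) • Tau m'
        - (α' * a1 + β' * a2) • Psi m - (α' * b1 + β' * b2) • Tau m), ?_, ?_⟩
    · refine add_mem (Submodule.smul_mem _ _ he) ?_
      exact sub_mem (sub_mem (add_mem (Submodule.smul_mem _ _ (D_Psi hm'))
        (Submodule.smul_mem _ _ (D_Tau hm'))) (Submodule.smul_mem _ _ (D_Psi hm)))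
        (Submodule.smul_mem _ _ (D_Tau hm))
    · rw [op_lie]
      refine op_congr (by ring) (by ring) ?_
      simp only [defect, map_add, map_smul]
      module

lemma mem_Sub {a1 b1 a2 b2 : ℚ} {c1 c2 d : M} {he : defect a1 b1 a2 b2 c1 c2 ∈ D d} {x : E} :
    x ∈ Sub a1 b1 a2 b2 c1 c2 d he ↔ ∃ α β : ℚ, ∃ m ∈ D d,
    x = op (α * a1 + β * a2) (α * b1 + β * b2) (α • c1 + β • c2 + m) := Iff.rfl

lemma mem_D_of_Sub {a1 b1 a2 b2 : ℚ} {c1 c2 d : M} {he : defect a1 b1 a2 b2 c1 c2 ∈ D d}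
    (hD : a1 * b2 - a2 * b1 ≠ 0) {m : M} (h : op 0 0 m ∈ Sub a1 b1 a2 b2 c1 c2 d he) :
    m ∈ D d := by
  obtain ⟨α, β, m', hm', h⟩ := h
  obtain ⟨h1, h2, h3⟩ := op_inj h
  have hα : α = 0 := by
    have : α * (a1 * b2 - a2 * b1) = 0 := by linear_combination (-b2) * h1 + a2 * h2
    exact (mul_eq_zero.mp this).resolve_right hD
  have hβ : β = 0 := by
    have : β * (a1 * b2 - a2 * b1) = 0 := by linear_combination b1 * h1 - a1 * h2
    exact (mul_eq_zero.mp this).resolve_right hD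
  subst hα; subst hβ
  simpa [h3] using hm'

/-- The Lie subalgebra of operators whose first two coordinates lie on a line. -/
noncomputable def Line (p q : ℚ) : LieSubalgebra ℚ E where
  carrier := {x | ∃ a b : ℚ, ∃ m : M, p * a + q * b = 0 ∧ x = op a b m}
  add_mem' := by
    rintro x y ⟨a, b, m, h, rfl⟩ ⟨a', b', m', h', rfl⟩
    exact ⟨a + a', b + b', m + m', by linear_combination h + h', op_add _ _ _ _ _ _⟩
  zero_mem' := ⟨0, 0, 0, by simp, op_zero.symm⟩
  smul_mem' := by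
    rintro r x ⟨a, b, m, h, rfl⟩
    exact ⟨r * a, r * b, r • m, by linear_combination r * h, op_smul _ _ _ _⟩
  lie_mem' := by
    rintro x y ⟨a, b, m, h, rfl⟩ ⟨a', b', m', h', rfl⟩
    refine ⟨0, _, _, ?_, op_lie _ _ _ _ _ _⟩
    have h1 : q * (a * b' - a' * b) = a * (p * a' + q * b') - a' * (p * a + q * b) := by ring
    rw [h1, h, h']; simp

lemma mem_Line {p q : ℚ} {x : E} : x ∈ Line p q ↔
    ∃ a b : ℚ, ∃ m : M, p * a + q * b = 0 ∧ x = op a b m := Iff.rfl

lemma defect_mem {a1 b1 a2 b2 : ℚ} {c1 c2 : M} (h1 : c1 ∈ Id) (h2 : c2 ∈ Id) :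
    defect a1 b1 a2 b2 c1 c2 ∈ Id := by
  refine sub_mem (add_mem (sub_mem (sub_mem (add_mem ?_ ?_) ?_) ?_) ?_) ?_
  · exact Submodule.smul_mem _ _ (Id_Psi h2)
  · exact Submodule.smul_mem _ _ (Id_Tau h2)
  · exact Submodule.smul_mem _ _ (Id_Psi h1)
  · exact Submodule.smul_mem _ _ (Id_Tau h1)
  · exact Submodule.smul_mem _ _ h1
  · exact Submodule.smul_mem _ _ h2

theorem noGen (n1 n2 n3 : E)
    (h1 : ∃ a b, ∃ m ∈ Id, n1 = op a b m) (h2 : ∃ a b, ∃ m ∈ Id, n2 = op a b m)
    (h3 : ∃ a b, ∃ m ∈ Id, n3 = op a b m) (h12 : ⁅n1, n2⁆ = n2)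
    (hgen : ∀ S : LieSubalgebra ℚ E, n1 ∈ S → n2 ∈ S → n3 ∈ S →
      op 1 0 0 ∈ S ∧ op 0 1 0 ∈ S ∧ op 0 0 m1 ∈ S ∧ op 0 0 m2 ∈ S) : False := by
  obtain ⟨a1, b1, c1, hc1, rfl⟩ := h1
  obtain ⟨a2, b2, c2, hc2, rfl⟩ := h2
  obtain ⟨a3, b3, c3, hc3, rfl⟩ := h3
  rw [op_lie] at h12
  obtain ⟨ha2, hb2, hm⟩ := op_inj h12
  subst ha2
  simp only [zero_mul, sub_zero, zero_smul] at hb2 hm
  by_cases hb : b2 = 0
  · subst hb
    simp only [zero_smul, sub_zero] at hm
    have hc2z : c2 = 0 := inj_op hm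
    subst hc2z
    by_cases hD : a1 * b3 - a3 * b1 = 0
    · -- degenerate: everything on a line
      have : ∃ p q : ℚ, (p ≠ 0 ∨ q ≠ 0) ∧ p * a1 + q * b1 = 0 ∧ p * a3 + q * b3 = 0 := by
        by_cases hz : a1 = 0 ∧ b1 = 0
        · by_cases hz3 : a3 = 0 ∧ b3 = 0
          · exact ⟨1, 0, Or.inl one_ne_zero, by simp [hz.1], by simp [hz3.1]⟩
          · refine ⟨b3, -a3, ?_, by simp [hz.1, hz.2], by ring⟩
            by_contra hcon
            push Not at hcon
            exact hz3 ⟨by linarith [hcon.2], hcon.1⟩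
        · refine ⟨b1, -a1, ?_, by ring, by linear_combination (-1) * hD⟩
          by_contra hcon
          push Not at hcon
          exact hz ⟨by linarith [hcon.2], hcon.1⟩
      obtain ⟨p, q, hpq, e1, e3⟩ := this
      obtain ⟨g1, g2, -, -⟩ := hgen (Line p q) ⟨a1, b1, c1, e1, rfl⟩
        ⟨0, 0, 0, by simp, rfl⟩ ⟨a3, b3, c3, e3, rfl⟩
      obtain ⟨a, b, m, he, hx⟩ := mem_Line.mp g1
      obtain ⟨h1, h2, -⟩ := op_inj hx
      obtain ⟨a', b', m', he', hx'⟩ := mem_Line.mp g2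
      obtain ⟨h3, h4, -⟩ := op_inj hx'
      rw [← h1, ← h2] at he
      rw [← h3, ← h4] at he'
      rcases hpq with h | h
      · exact h (by linarith)
      · exact h (by linarith)
    · -- the pair n1, n3
      obtain ⟨-, -, g1, g2⟩ := hgen (Sub a1 b1 a3 b3 c1 c3 (defect a1 b1 a3 b3 c1 c3) (self_mem_D _))
        (mem_Sub.mpr ⟨1, 0, 0, zero_mem _, op_congr (by ring) (by ring) (by simp)⟩)
        (mem_Sub.mpr ⟨0, 0, 0, zero_mem _, op_congr (by ring) (by ring) (by simp)⟩)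
        (mem_Sub.mpr ⟨0, 1, 0, zero_mem _, op_congr (by ring) (by ring) (by simp)⟩)
      exact key (defect_mem hc1 hc3) (mem_D_of_Sub hD g1) (mem_D_of_Sub hD g2)
  · have ha1 : a1 = 1 := by
      have : (a1 - 1) * b2 = 0 := by linear_combination hb2
      have := (mul_eq_zero.mp this).resolve_right hb
      linarith
    subst ha1
    set β : ℚ := (b3 - a3 * b1) / b2 with hβ
    have hβ2 : β * b2 = b3 - a3 * b1 := by rw [hβ]; field_simp
    set d : M := c3 - a3 • c1 - β • c2 with hd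
    have hdm : d ∈ Id := sub_mem (sub_mem hc3 (Submodule.smul_mem _ _ hc1))
      (Submodule.smul_mem _ _ hc2)
    have hdef : defect 1 b1 0 b2 c1 c2 = 0 := by
      simp only [defect, zero_smul, sub_zero, add_zero, one_smul]
      rw [sub_eq_zero]
      simpa using hm
    obtain ⟨-, -, g1, g2⟩ := hgen (Sub 1 b1 0 b2 c1 c2 d (by rw [hdef]; exact zero_mem _))
        (mem_Sub.mpr ⟨1, 0, 0, zero_mem _, op_congr (by ring) (by ring) (by simp)⟩)
        (mem_Sub.mpr ⟨0, 1, 0, zero_mem _, op_congr (by ring) (by ring) (by simp)⟩)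
        (mem_Sub.mpr ⟨a3, β, d, self_mem_D _, op_congr (by ring) (by rw [hβ2]; ring)
          (by rw [hd]; module)⟩)
    have hD : (1 : ℚ) * b2 - 0 * b1 ≠ 0 := by simpa using hb
    exact key hdm (mem_D_of_Sub hD g1) (mem_D_of_Sub hD g2)

/-! ### The Lie algebra `L` -/

/-- The free Lie algebra on four generators. -/
abbrev FL : Type := FreeLieAlgebra ℚ (Fin 4)

/-- The ideal generated by the relation `[x, t] = t`. -/
noncomputable def relIdeal : LieIdeal ℚ FL :=
  LieSubmodule.lieSpan ℚ FL {⁅FreeLieAlgebra.of ℚ (0 : Fin 4), FreeLieAlgebra.of ℚ (1 : Fin 4)⁆ -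
    FreeLieAlgebra.of ℚ (1 : Fin 4)}

/-- The Lie algebra `g * K e₁ * K e₂`. -/
abbrev L : Type := FL ⧸ relIdeal

/-- Quotient map. -/
noncomputable def mkL (x : FL) : L := LieSubmodule.Quotient.mk x

noncomputable def gX : L := mkL (FreeLieAlgebra.of ℚ 0)
noncomputable def gT : L := mkL (FreeLieAlgebra.of ℚ 1)
noncomputable def gA : L := mkL (FreeLieAlgebra.of ℚ 2)
noncomputable def gB : L := mkL (FreeLieAlgebra.of ℚ 3)

lemma mkL_lie (x y : FL) : mkL ⁅x, y⁆ = ⁅mkL x, mkL y⁆ := rfl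

lemma rel_XT : ⁅gX, gT⁆ = gT := by
  rw [gX, gT, ← mkL_lie, ← sub_eq_zero]
  have : mkL (⁅FreeLieAlgebra.of ℚ (0 : Fin 4), FreeLieAlgebra.of ℚ (1 : Fin 4)⁆ -
    FreeLieAlgebra.of ℚ (1 : Fin 4)) = 0 := by
    rw [mkL, LieSubmodule.Quotient.mk_eq_zero']
    exact LieSubmodule.subset_lieSpan rfl
  rw [← this]
  rfl

section lift

variable {N : Type} [LieRing N] [LieAlgebra ℚ N]

lemma exists_lift (x t a b : N) (h : ⁅x, t⁆ = t) :
    ∃ g : L →ₗ⁅ℚ⁆ N, g gX = x ∧ g gT = t ∧ g gA = a ∧ g gB = b := by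
  let F : FL →ₗ⁅ℚ⁆ N := FreeLieAlgebra.lift ℚ ![x, t, a, b]
  have hF0 : F (FreeLieAlgebra.of ℚ 0) = x := by simp [F]
  have hF1 : F (FreeLieAlgebra.of ℚ 1) = t := by simp [F]
  have hF2 : F (FreeLieAlgebra.of ℚ 2) = a := by simp [F]
  have hF3 : F (FreeLieAlgebra.of ℚ 3) = b := by simp [F]
  have hker : relIdeal ≤ F.ker := by
    rw [relIdeal, LieSubmodule.lieSpan_le, Set.singleton_subset_iff, SetLike.mem_coe,
      LieHom.mem_ker, map_sub, LieHom.map_lie, hF0, hF1, h, sub_self]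
  let g : L →ₗ⁅ℚ⁆ N :=
    { Submodule.liftQ relIdeal.toSubmodule (F : FL →ₗ[ℚ] N) (by
        intro y hy
        exact hker hy) with
      map_lie' := by
        intro y z
        obtain ⟨y, rfl⟩ := Submodule.Quotient.mk_surjective _ y
        obtain ⟨z, rfl⟩ := Submodule.Quotient.mk_surjective _ z
        exact F.map_lie y z }
  exact ⟨g, hF0, hF1, hF2, hF3⟩

lemma hom_ext {g g' : L →ₗ⁅ℚ⁆ N} (hX : g gX = g' gX) (hT : g gT = g' gT) (hA : g gA = g' gA)
    (hB : g gB = g' gB) : g = g' := by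
  let π : FL →ₗ⁅ℚ⁆ L := { (LieSubmodule.Quotient.mk' relIdeal : FL →ₗ[ℚ] L) with
    map_lie' := by intro y z; rfl }
  have h : g.comp π = g'.comp π := by
    apply FreeLieAlgebra.hom_ext
    intro i
    fin_cases i
    · exact hX
    · exact hT
    · exact hA
    · exact hB
  refine LieHom.ext fun y => ?_
  obtain ⟨y, rfl⟩ := Submodule.Quotient.mk_surjective _ y
  exact LieHom.congr_fun h y

end lift

/-! ### Subalgebras and decompositions -/

/-- The line spanned by an element. -/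
noncomputable def lineS (v : L) : LieSubalgebra ℚ L :=
  { Submodule.span ℚ {v} with
    lie_mem' := by
      intro x y hx hy
      obtain ⟨a, rfl⟩ := Submodule.mem_span_singleton.mp hx
      obtain ⟨b, rfl⟩ := Submodule.mem_span_singleton.mp hy
      simp }

lemma mem_lineS {v x : L} : x ∈ lineS v ↔ ∃ a : ℚ, a • v = x := Submodule.mem_span_singleton

lemma self_mem_lineS (v : L) : v ∈ lineS v := mem_lineS.mpr ⟨1, one_smul _ _⟩

/-- The two dimensional subalgebra. -/
noncomputable def gS : LieSubalgebra ℚ L :=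
  { Submodule.span ℚ {gX, gT} with
    lie_mem' := by
      intro x y hx hy
      obtain ⟨a, b, rfl⟩ := Submodule.mem_span_pair.mp hx
      obtain ⟨a', b', rfl⟩ := Submodule.mem_span_pair.mp hy
      refine Submodule.mem_span_pair.mpr ⟨0, a * b' - a' * b, ?_⟩
      have h : ⁅gT, gX⁆ = - gT := by rw [← lie_skew, rel_XT]
      simp only [lie_add, add_lie, lie_smul, smul_lie, lie_self, rel_XT, h]
      module }

lemma mem_gS {x : L} : x ∈ gS ↔ ∃ a b : ℚ, a • gX + b • gT = x := Submodule.mem_span_pair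

lemma gX_mem : gX ∈ gS := mem_gS.mpr ⟨1, 0, by simp⟩
lemma gT_mem : gT ∈ gS := mem_gS.mpr ⟨0, 1, by simp⟩

/-- Index type for the first decomposition. -/
inductive I1 : Type
  | g | a | b

/-- Index type for the second decomposition. -/
inductive I2 : Type
  | s | f

/-- The element `f`. -/
noncomputable def gF : L := gA - ⁅gX, gA⁆ + gB + ⁅gT, gB⁆

noncomputable def gP : L := gA - gF - ⁅gT, gF⁆
noncomputable def gQ : L := gB - ⁅gX, gF⁆

/-- The first decomposition. -/
noncomputable def A1 : I1 → LieSubalgebra ℚ L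
  | .g => gS
  | .a => lineS gA
  | .b => lineS gB

/-- The big factor of the second decomposition. -/
noncomputable def bigS : LieSubalgebra ℚ L := LieSubalgebra.lieSpan ℚ L {gX, gT, gP, gQ}

/-- The second decomposition. -/
noncomputable def A2 : I2 → LieSubalgebra ℚ L
  | .s => bigS
  | .f => lineS gF

/-- Free product decompositions. -/
def IsFree {J : Type} (B : J → LieSubalgebra ℚ L) : Prop :=
  ∀ (N : Type) [LieRing N] [LieAlgebra ℚ N] (f : ∀ j, B j →ₗ⁅ℚ⁆ N),
    ∃! g : L →ₗ⁅ℚ⁆ N, ∀ j (x : B j), g (x : L) = f j x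

lemma free1 : IsFree A1 := by
  intro N _ _ f
  have hX : gX ∈ A1 .g := gX_mem
  have hT : gT ∈ A1 .g := gT_mem
  have hA : gA ∈ A1 .a := self_mem_lineS _
  have hB : gB ∈ A1 .b := self_mem_lineS _
  have hrel : ⁅f .g ⟨gX, hX⟩, f .g ⟨gT, hT⟩⁆ = f .g ⟨gT, hT⟩ := by
    rw [← LieHom.map_lie]
    congr 1
    exact Subtype.ext rel_XT
  obtain ⟨g, h1, h2, h3, h4⟩ := exists_lift (f .g ⟨gX, hX⟩) (f .g ⟨gT, hT⟩) (f .a ⟨gA, hA⟩)
    (f .b ⟨gB, hB⟩) hrel
  refine ⟨g, ?_, ?_⟩
  · intro j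
    cases j with
    | g =>
      rintro ⟨x, hx⟩
      obtain ⟨a, b, rfl⟩ := mem_gS.mp hx
      change g (a • gX + b • gT) = f .g (a • ⟨gX, hX⟩ + b • ⟨gT, hT⟩)
      simp only [map_add, map_smul, h1, h2]
    | a =>
      rintro ⟨x, hx⟩
      obtain ⟨a, rfl⟩ := mem_lineS.mp hx
      change g (a • gA) = f .a (a • ⟨gA, hA⟩)
      simp only [map_smul, h3]
    | b =>
      rintro ⟨x, hx⟩
      obtain ⟨a, rfl⟩ := mem_lineS.mp hx
      change g (a • gB) = f .b (a • ⟨gB, hB⟩)
      simp only [map_smul, h4]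
  · intro g' hg'
    refine hom_ext ?_ ?_ ?_ ?_
    · rw [h1]; exact hg' .g ⟨gX, hX⟩
    · rw [h2]; exact hg' .g ⟨gT, hT⟩
    · rw [h3]; exact hg' .a ⟨gA, hA⟩
    · rw [h4]; exact hg' .b ⟨gB, hB⟩

lemma jac_XT {N : Type} [LieRing N] [LieAlgebra ℚ N] {x t : N} (h : ⁅x, t⁆ = t) (m : N) :
    ⁅x, ⁅t, m⁆⁆ = ⁅t, m⁆ + ⁅t, ⁅x, m⁆⁆ := by
  rw [leibniz_lie, h]

lemma rel_PQ : gP - ⁅gX, gP⁆ + gQ + ⁅gT, gQ⁆ = 0 := by
  have h := jac_XT rel_XT gF
  have hF : gF = gA - ⁅gX, gA⁆ + gB + ⁅gT, gB⁆ := rfl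
  simp only [gP, gQ, lie_sub, h]
  generalize gF = F at *
  rw [hF]
  simp only [lie_sub, lie_add]
  abel

lemma free2 : IsFree A2 := by
  intro N _ _ f
  have hX : gX ∈ A2 .s := LieSubalgebra.subset_lieSpan (by simp)
  have hT : gT ∈ A2 .s := LieSubalgebra.subset_lieSpan (by simp)
  have hP : gP ∈ A2 .s := LieSubalgebra.subset_lieSpan (by simp)
  have hQ : gQ ∈ A2 .s := LieSubalgebra.subset_lieSpan (by simp)
  have hF : gF ∈ A2 .f := self_mem_lineS _
  obtain ⟨x, hx⟩ : ∃ x, x = f .s ⟨gX, hX⟩ := ⟨_, rfl⟩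
  obtain ⟨t, ht⟩ : ∃ x, x = f .s ⟨gT, hT⟩ := ⟨_, rfl⟩
  obtain ⟨p, hp⟩ : ∃ x, x = f .s ⟨gP, hP⟩ := ⟨_, rfl⟩
  obtain ⟨q, hq⟩ : ∃ x, x = f .s ⟨gQ, hQ⟩ := ⟨_, rfl⟩
  obtain ⟨m, hm⟩ : ∃ x, x = f .f ⟨gF, hF⟩ := ⟨_, rfl⟩
  have hrel : ⁅x, t⁆ = t := by
    rw [hx, ht, ← LieHom.map_lie]
    congr 1
    exact Subtype.ext rel_XT
  have hrel2 : p - ⁅x, p⁆ + q + ⁅t, q⁆ = 0 := by
    have h0 : (⟨gP, hP⟩ - ⁅(⟨gX, hX⟩ : A2 .s), ⟨gP, hP⟩⁆ + ⟨gQ, hQ⟩ +
        ⁅(⟨gT, hT⟩ : A2 .s), ⟨gQ, hQ⟩⁆ : A2 .s) = 0 := Subtype.ext rel_PQ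
    have h1 := congrArg (f .s) h0
    rwa [map_add, map_add, map_sub, LieHom.map_lie, LieHom.map_lie, map_zero, ← hx, ← ht, ← hp,
      ← hq] at h1
  obtain ⟨g, h1, h2, h3, h4⟩ := exists_lift x t (p + m + ⁅t, m⁆) (q + ⁅x, m⁆) hrel
  have hj := jac_XT hrel m
  have hgF : g gF = m := by
    simp only [gF, map_add, map_sub, LieHom.map_lie, h1, h2, h3, h4, lie_add, hj]
    have h5 : p = ⁅x, p⁆ - q - ⁅t, q⁆ := by
      rw [← sub_eq_zero, ← hrel2]; abel
    generalize ⁅x, p⁆ = u at *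
    rw [h5]
    abel
  have hgP : g gP = p := by
    simp only [gP, map_sub, LieHom.map_lie, h2, h3, hgF]
    abel
  have hgQ : g gQ = q := by
    simp only [gQ, map_sub, LieHom.map_lie, h1, h4, hgF]
    abel
  refine ⟨g, ?_, ?_⟩
  · intro j
    cases j with
    | s =>
      rintro ⟨y, hy⟩
      change g y = f .s ⟨y, hy⟩
      have hy' : y ∈ LieSubalgebra.lieSpan ℚ L {gX, gT, gP, gQ} := hy
      have key2 : ∃ h : y ∈ A2 .s, g y = f .s ⟨y, h⟩ := by
        refine LieSubalgebra.lieSpan_induction (R := ℚ) (L := L) (s := {gX, gT, gP, gQ})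
          (p := fun y _ => ∃ h : y ∈ A2 .s, g y = f .s ⟨y, h⟩) ?_ ?_ ?_ ?_ ?_ hy'
        · intro z hz
          simp only [Set.mem_insert_iff, Set.mem_singleton_iff] at hz
          rcases hz with rfl | rfl | rfl | rfl
          · exact ⟨hX, by rw [h1, hx]⟩
          · exact ⟨hT, by rw [h2, ht]⟩
          · exact ⟨hP, by rw [hgP, hp]⟩
          · exact ⟨hQ, by rw [hgQ, hq]⟩
        · exact ⟨zero_mem _, by rw [map_zero]; exact (map_zero _).symm⟩
        · rintro a b - - ⟨ha, ea⟩ ⟨hb, eb⟩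
          refine ⟨add_mem ha hb, ?_⟩
          rw [map_add, ea, eb, ← map_add]
          rfl
        · rintro c a - ⟨ha, ea⟩
          refine ⟨(A2 .s).smul_mem c ha, ?_⟩
          rw [map_smul, ea, ← map_smul]
          rfl
        · rintro a b - - ⟨ha, ea⟩ ⟨hb, eb⟩
          refine ⟨(A2 .s).lie_mem ha hb, ?_⟩
          rw [LieHom.map_lie, ea, eb, ← LieHom.map_lie]
          rfl
      exact key2.2
    | f =>
      rintro ⟨y, hy⟩
      obtain ⟨a, rfl⟩ := mem_lineS.mp hy
      change g (a • gF) = f .f (a • ⟨gF, hF⟩)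
      simp only [map_smul, hgF, hm]
  · intro g' hg'
    have e1 : g' gX = x := by rw [hx]; exact hg' .s ⟨gX, hX⟩
    have e2 : g' gT = t := by rw [ht]; exact hg' .s ⟨gT, hT⟩
    have e3 : g' gP = p := by rw [hp]; exact hg' .s ⟨gP, hP⟩
    have e4 : g' gQ = q := by rw [hq]; exact hg' .s ⟨gQ, hQ⟩
    have e5 : g' gF = m := by rw [hm]; exact hg' .f ⟨gF, hF⟩
    have hA : gA = gP + gF + ⁅gT, gF⁆ := by rw [gP]; abel
    have hB : gB = gQ + ⁅gX, gF⁆ := by rw [gQ]; abel
    refine hom_ext ?_ ?_ ?_ ?_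
    · rw [h1, e1]
    · rw [h2, e2]
    · rw [h3, hA]
      simp only [map_add, LieHom.map_lie, e2, e3, e5]
    · rw [h4, hB]
      simp only [map_add, LieHom.map_lie, e1, e4, e5]

/-! ### Nonvanishing -/

lemma exists_rep (m m' : M) : ∃ g : L →ₗ⁅ℚ⁆ E, g gX = op 1 0 0 ∧ g gT = op 0 1 0 ∧
    g gA = op 0 0 m ∧ g gB = op 0 0 m' := by
  refine exists_lift _ _ _ _ ?_
  rw [op_lie]
  exact op_congr rfl (by ring) (by simp)

lemma op_ne_zero_of {a b : ℚ} {m : M} (h : op a b m = 0) : a = 0 ∧ b = 0 ∧ m = 0 := by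
  rw [← op_zero] at h
  exact op_inj h

lemma XT_indep {a b : ℚ} (h : a • gX + b • gT = 0) : a = 0 ∧ b = 0 := by
  obtain ⟨g, h1, h2, -, -⟩ := exists_rep 0 0
  have h3 := congrArg g h
  rw [map_add, map_smul, map_smul, h1, h2, map_zero, op_smul, op_smul, op_add] at h3
  obtain ⟨h4, h5, -⟩ := op_ne_zero_of h3
  constructor
  · simpa using h4
  · simpa using h5

lemma gT_ne : gT ≠ 0 := by
  intro h
  have := (XT_indep (a := 0) (b := 1) (by simp [h])).2
  exact one_ne_zero this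

lemma gA_ne : gA ≠ 0 := by
  intro h
  obtain ⟨g, -, -, h3, -⟩ := exists_rep 1 0
  rw [h, map_zero] at h3
  exact one_ne_zero (op_ne_zero_of h3.symm).2.2

lemma gB_ne : gB ≠ 0 := by
  intro h
  obtain ⟨g, -, -, -, h3⟩ := exists_rep 0 1
  rw [h, map_zero] at h3
  exact one_ne_zero (op_ne_zero_of h3.symm).2.2

lemma gF_ne : gF ≠ 0 := by
  intro h
  obtain ⟨g, h1, h2, h3, h4⟩ := exists_rep 1 0
  have h5 := congrArg g h
  rw [gF, map_add, map_add, map_sub, LieHom.map_lie, LieHom.map_lie, h1, h2, h3, h4, map_zero,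
    op_zero, lie_zero, op_lie, add_zero, add_zero, sub_eq_zero] at h5
  obtain ⟨-, -, h6⟩ := op_inj h5
  have h7 := congrArg (fun p => coeff (coeff p 0) 0) h6
  simp [Psi_apply] at h7

/-- The map killing `f`. -/
lemma exists_h : ∃ h : L →ₗ⁅ℚ⁆ E, h gX = op 1 0 0 ∧ h gT = op 0 1 0 ∧
    h gA = op 0 0 m1 ∧ h gB = op 0 0 m2 ∧ h gF = 0 := by
  obtain ⟨g, h1, h2, h3, h4⟩ := exists_rep m1 m2
  refine ⟨g, h1, h2, h3, h4, ?_⟩
  rw [gF, map_add, map_add, map_sub, LieHom.map_lie, LieHom.map_lie, h1, h2, h3, h4, op_lie, op_lie]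
  have hneg : ∀ x y : E, x - y = x + (-1 : ℚ) • y := by intro x y; rw [neg_one_smul, sub_eq_add_neg]
  rw [hneg, op_smul, op_add, op_add, op_add, ← op_zero]
  refine op_congr (by ring) (by ring) ?_
  simp only [map_zero, smul_zero, one_smul, zero_smul, sub_zero, zero_add, add_zero]
  simp only [m1, m2, Psi_apply, Tau_apply, derivative_add, derivative_mul, derivative_C,
    derivative_X]
  simp only [neg_smul, one_smul, C_mul, C_sub, C_1]
  ring

/-! ### General facts about free product decompositions -/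

section general

variable {I J : Type} {A : I → LieSubalgebra ℚ L} {B : J → LieSubalgebra ℚ L}

lemma gen (hB : IsFree B) (S : LieSubalgebra ℚ L) (h : ∀ j, B j ≤ S) (x : L) : x ∈ S := by
  obtain ⟨g, hg, -⟩ := hB S (fun j => LieSubalgebra.inclusion (h j))
  obtain ⟨g', -, hu⟩ := hB L (fun j => (B j).incl)
  have e1 := hu (S.incl.comp g) (by
    intro j x
    change ((g x : S) : L) = x
    rw [hg]
    rfl)
  have e2 := hu (LieHom.id) (by intro j x; rfl)
  have e3 : S.incl.comp g = LieHom.id := e1.trans e2.symm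
  have e4 : ((g x : S) : L) = x := LieHom.congr_fun e3 x
  rw [← e4]
  exact (g x).2

lemma proj (hA : IsFree A) (i : I) : ∃ g : L →ₗ⁅ℚ⁆ L, (∀ x ∈ A i, g x = x) ∧
    ∀ i', i' ≠ i → ∀ x ∈ A i', g x = 0 := by
  classical
  obtain ⟨g, hg, -⟩ := hA L (fun i' => if i' = i then (A i').incl else 0)
  refine ⟨g, ?_, ?_⟩
  · intro x hx
    have := hg i ⟨x, hx⟩
    simpa using this
  · intro i' hne x hx
    have := hg i' ⟨x, hx⟩
    simpa [hne] using this

lemma fiber_nonempty (hA : IsFree A) (hB : IsFree B) (p : J → I) (hle : ∀ j, B j ≤ A (p j))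
    (i : I) (hi : A i ≠ ⊥) : ∃ j, p j = i := by
  by_contra hcon
  push Not at hcon
  obtain ⟨g, h1, h2⟩ := proj hA i
  apply hi
  rw [eq_bot_iff]
  intro x hx
  have hx' : x ∈ (⊥ : LieSubalgebra ℚ L).comap g := by
    refine gen hB _ ?_ x
    intro j y hy
    rw [LieSubalgebra.mem_comap]
    rw [h2 (p j) (hcon j) y (hle j hy)]
    exact zero_mem _
  rw [LieSubalgebra.mem_comap, h1 x hx] at hx'
  exact hx'

lemma fiber_eq (hA : IsFree A) (hB : IsFree B) (p : J → I) (hle : ∀ j, B j ≤ A (p j))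
    (j : J) (hu : ∀ j', p j' = p j → j' = j) : B j = A (p j) := by
  refine le_antisymm (hle j) ?_
  obtain ⟨g, h1, h2⟩ := proj hA (p j)
  intro x hx
  have hx' : x ∈ (B j).comap g := by
    refine gen hB _ ?_ x
    intro j' y hy
    rw [LieSubalgebra.mem_comap]
    by_cases hj : p j' = p j
    · have := hu j' hj
      subst this
      rw [h1 y (hle _ hy)]
      exact hy
    · rw [h2 (p j') hj y (hle j' hy)]
      exact zero_mem _
  rw [LieSubalgebra.mem_comap, h1 x hx] at hx'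
  exact hx'

lemma exists_ne_of_ne_bot {S : LieSubalgebra ℚ L} (h : S ≠ ⊥) : ∃ x ∈ S, x ≠ 0 := by
  by_contra hcon
  push Not at hcon
  apply h
  rw [eq_bot_iff]
  intro x hx
  rw [hcon x hx]
  exact zero_mem _

lemma line_uniq (hB : IsFree B) (hne : ∀ j, B j ≠ ⊥) {v : L} {j j' : J}
    (h : B j ≤ lineS v) (h' : B j' ≤ lineS v) : j = j' := by
  by_contra hcon
  obtain ⟨g, h1, h2⟩ := proj hB j
  obtain ⟨u, hu, hu0⟩ := exists_ne_of_ne_bot (hne j)
  obtain ⟨w, hw, hw0⟩ := exists_ne_of_ne_bot (hne j')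
  obtain ⟨a, rfl⟩ := mem_lineS.mp (h hu)
  obtain ⟨b, rfl⟩ := mem_lineS.mp (h' hw)
  have e1 := h1 _ hu
  have e2 := h2 j' (Ne.symm hcon) _ hw
  rw [map_smul] at e1 e2
  have hb : b ≠ 0 := by rintro rfl; simp at hw0
  have hv : g v = 0 := (smul_eq_zero.mp e2).resolve_left hb
  rw [hv, smul_zero] at e1
  exact hu0 e1.symm

lemma two_uniq (hB : IsFree B) (hne : ∀ j, B j ≠ ⊥) {j j' : J}
    (h : B j ≤ gS) (h' : B j' ≤ gS) : j = j' := by
  by_contra hcon
  obtain ⟨g, h1, h2⟩ := proj hB j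
  obtain ⟨g', h1', h2'⟩ := proj hB j'
  obtain ⟨u, hu, hu0⟩ := exists_ne_of_ne_bot (hne j)
  obtain ⟨w, hw, hw0⟩ := exists_ne_of_ne_bot (hne j')
  have gu : g u = u := h1 u hu
  have gw : g w = 0 := h2 j' (Ne.symm hcon) w hw
  have gu' : g' u = 0 := h2' j hcon u hu
  have gw' : g' w = w := h1' w hw
  obtain ⟨a, b, hab⟩ := mem_gS.mp (h hu)
  obtain ⟨c, d, hcd⟩ := mem_gS.mp (h' hw)
  -- the determinant is nonzero
  have hD : a * d - b * c ≠ 0 := by
    intro hD
    have e1 : d • u - b • w = 0 := by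
      rw [← hab, ← hcd]
      have : d • (a • gX + b • gT) - b • (c • gX + d • gT) = (a * d - b * c) • gX := by module
      rw [this, hD, zero_smul]
    have e2 : a • w - c • u = 0 := by
      rw [← hab, ← hcd]
      have : a • (c • gX + d • gT) - c • (a • gX + b • gT) = (a * d - b * c) • gT := by module
      rw [this, hD, zero_smul]
    have e3 := congrArg g e1
    rw [map_sub, map_smul, map_smul, gu, gw, smul_zero, sub_zero, map_zero] at e3
    have hd : d = 0 := (smul_eq_zero.mp e3).resolve_right hu0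
    have e4 := congrArg g e2
    rw [map_sub, map_smul, map_smul, gu, gw, smul_zero, zero_sub, map_zero, neg_eq_zero] at e4
    have hc : c = 0 := (smul_eq_zero.mp e4).resolve_right hu0
    apply hw0
    rw [← hcd, hc, hd]
    simp
  have hbr : ⁅u, w⁆ = (a * d - b * c) • gT := by
    rw [← hab, ← hcd]
    have hTX : ⁅gT, gX⁆ = - gT := by rw [← lie_skew, rel_XT]
    simp only [lie_add, add_lie, lie_smul, smul_lie, lie_self, rel_XT, hTX]
    module
  have hT : g gT = 0 := by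
    have e5 := congrArg g hbr
    rw [LieHom.map_lie, gu, gw, lie_zero, map_smul] at e5
    exact (smul_eq_zero.mp e5.symm).resolve_left hD
  have hT' : g' gT = 0 := by
    have e5 := congrArg g' hbr
    rw [LieHom.map_lie, gu', zero_lie, map_smul] at e5
    exact (smul_eq_zero.mp e5.symm).resolve_left hD
  have hcomb : (a * d - b * c) • gT = a • w - c • u := by
    rw [← hab, ← hcd]; module
  have e6 := congrArg g hcomb
  rw [map_smul, hT, smul_zero, map_sub, map_smul, map_smul, gw, gu, smul_zero, zero_sub,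
    eq_comm, neg_eq_zero] at e6
  have hc : c = 0 := (smul_eq_zero.mp e6).resolve_right hu0
  have e7 := congrArg g' hcomb
  rw [map_smul, hT', smul_zero, map_sub, map_smul, map_smul, gw', gu', smul_zero, sub_zero,
    eq_comm] at e7
  have ha : a = 0 := (smul_eq_zero.mp e7).resolve_right hw0
  apply hD
  rw [ha, hc]; ring

end general

lemma op_mem_of (h : L →ₗ⁅ℚ⁆ E) (hX : h gX = op 1 0 0) (hT : h gT = op 0 1 0)
    (hA : h gA = op 0 0 m1) (hB : h gB = op 0 0 m2) (x : L) :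
    ∃ a b, ∃ m ∈ Id, h x = op a b m := by
  let S : LieSubalgebra ℚ L :=
    { carrier := {x | ∃ a b, ∃ m ∈ Id, h x = op a b m}
      add_mem' := by
        rintro x y ⟨a, b, m, hm, hx⟩ ⟨a', b', m', hm', hy⟩
        exact ⟨_, _, _, add_mem hm hm', by rw [map_add, hx, hy, op_add]⟩
      zero_mem' := ⟨0, 0, 0, zero_mem _, by rw [map_zero, op_zero]⟩
      smul_mem' := by
        rintro q x ⟨a, b, m, hm, hx⟩
        exact ⟨_, _, _, Submodule.smul_mem _ q hm, by rw [map_smul, hx, op_smul]⟩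
      lie_mem' := by
        rintro x y ⟨a, b, m, hm, hx⟩ ⟨a', b', m', hm', hy⟩
        refine ⟨_, _, _, ?_, by rw [LieHom.map_lie, hx, hy, op_lie]⟩
        exact sub_mem (sub_mem (add_mem (Submodule.smul_mem _ _ (Id_Psi hm'))
          (Submodule.smul_mem _ _ (Id_Tau hm'))) (Submodule.smul_mem _ _ (Id_Psi hm)))
          (Submodule.smul_mem _ _ (Id_Tau hm)) }
  refine gen free1 S ?_ x
  intro j
  cases j with
  | g =>
    intro y hy
    obtain ⟨a, b, rfl⟩ := mem_gS.mp hy
    exact add_mem (S.smul_mem _ ⟨1, 0, 0, zero_mem _, hX⟩) (S.smul_mem _ ⟨0, 1, 0, zero_mem _, hT⟩)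
  | a =>
    intro y hy
    obtain ⟨a, rfl⟩ := mem_lineS.mp hy
    exact S.smul_mem _ ⟨0, 0, m1, m1_mem, hA⟩
  | b =>
    intro y hy
    obtain ⟨a, rfl⟩ := mem_lineS.mp hy
    exact S.smul_mem _ ⟨0, 0, m2, m2_mem, hB⟩

/-- The final contradiction. -/
lemma fin_contra {J : Type} {B : J → LieSubalgebra ℚ L} (hB : IsFree B) (j0 jo k : J)
    (hJ : ∀ j, j = j0 ∨ j = jo ∨ j = k) (u : L)
    (e0 : gS ≃ₗ⁅ℚ⁆ B j0) (eo : lineS u ≃ₗ⁅ℚ⁆ B jo) (hk : B k ≤ lineS gF) : False := by
  obtain ⟨h, hX, hT, hA, hBB, hF⟩ := exists_h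
  have hop := op_mem_of h hX hT hA hBB
  refine noGen (h (e0 ⟨gX, gX_mem⟩)) (h (e0 ⟨gT, gT_mem⟩)) (h (eo ⟨u, self_mem_lineS u⟩))
    (hop _) (hop _) (hop _) ?_ ?_
  · rw [← LieHom.map_lie, ← LieSubalgebra.coe_bracket, ← LieEquiv.map_lie]
    congr 3
    exact Subtype.ext rel_XT
  · intro S h1 h2 h3
    have hall : ∀ x, x ∈ S.comap h := by
      refine gen hB _ ?_
      intro j y hy
      rcases hJ j with rfl | rfl | rfl
      · obtain ⟨⟨z, hz⟩, hz'⟩ := e0.surjective ⟨y, hy⟩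
        obtain ⟨a, b, rfl⟩ := mem_gS.mp hz
        have e1 : (y : L) = (e0 (a • ⟨gX, gX_mem⟩ + b • ⟨gT, gT_mem⟩) : L) := by
          have := congrArg Subtype.val hz'
          exact this.symm
        rw [LieSubalgebra.mem_comap, e1]
        have e2 : e0 (a • ⟨gX, gX_mem⟩ + b • ⟨gT, gT_mem⟩) =
            a • e0 ⟨gX, gX_mem⟩ + b • e0 ⟨gT, gT_mem⟩ := by
          rw [map_add, map_smul, map_smul]
        rw [e2]
        change h (a • (e0 ⟨gX, gX_mem⟩ : L) + b • (e0 ⟨gT, gT_mem⟩ : L)) ∈ S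
        rw [map_add, map_smul, map_smul]
        exact add_mem (S.smul_mem _ h1) (S.smul_mem _ h2)
      · obtain ⟨⟨z, hz⟩, hz'⟩ := eo.surjective ⟨y, hy⟩
        obtain ⟨a, rfl⟩ := mem_lineS.mp hz
        have e1 : (y : L) = (eo (a • ⟨u, self_mem_lineS u⟩) : L) := by
          have := congrArg Subtype.val hz'
          exact this.symm
        rw [LieSubalgebra.mem_comap, e1, map_smul]
        change h (a • (eo ⟨u, self_mem_lineS u⟩ : L)) ∈ S
        rw [map_smul]
        exact S.smul_mem _ h3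
      · obtain ⟨a, rfl⟩ := mem_lineS.mp (hk hy)
        rw [LieSubalgebra.mem_comap, map_smul, hF, smul_zero]
        exact zero_mem _
    have g1 := hall gX
    have g2 := hall gT
    have g3 := hall gA
    have g4 := hall gB
    rw [LieSubalgebra.mem_comap] at g1 g2 g3 g4
    rw [hX] at g1
    rw [hT] at g2
    rw [hA] at g3
    rw [hBB] at g4
    exact ⟨g1, g2, g3, g4⟩

lemma gS_not_line (v : L) (S : LieSubalgebra ℚ L) (hS : S ≤ lineS v) (e : gS ≃ₗ⁅ℚ⁆ S) : False := by
  have h1 : ⁅(⟨gX, gX_mem⟩ : gS), (⟨gT, gT_mem⟩ : gS)⁆ = ⟨gT, gT_mem⟩ := Subtype.ext rel_XT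
  have h2 := congrArg e h1
  rw [LieEquiv.map_lie] at h2
  have h3 : ⁅(e ⟨gX, gX_mem⟩ : L), (e ⟨gT, gT_mem⟩ : L)⁆ = (e ⟨gT, gT_mem⟩ : L) :=
    congrArg Subtype.val h2
  obtain ⟨a, ha⟩ := mem_lineS.mp (hS (e ⟨gX, gX_mem⟩).2)
  obtain ⟨b, hb⟩ := mem_lineS.mp (hS (e ⟨gT, gT_mem⟩).2)
  rw [← ha, ← hb] at h3
  simp only [lie_smul, smul_lie, lie_self, smul_zero] at h3
  have h4 : e ⟨gT, gT_mem⟩ = 0 := Subtype.ext (by rw [← hb, ← h3]; rfl)
  have h5 : (⟨gT, gT_mem⟩ : gS) = 0 := e.injective (h4.trans (map_zero e).symm)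
  exact gT_ne (congrArg Subtype.val h5)

lemma A1_ne (i : I1) : A1 i ≠ ⊥ := by
  cases i with
  | g =>
    intro h
    have : gT ∈ (⊥ : LieSubalgebra ℚ L) := by rw [← h]; exact gT_mem
    exact gT_ne this
  | a =>
    intro h
    have : gA ∈ (⊥ : LieSubalgebra ℚ L) := by rw [← h]; exact self_mem_lineS _
    exact gA_ne this
  | b =>
    intro h
    have : gB ∈ (⊥ : LieSubalgebra ℚ L) := by rw [← h]; exact self_mem_lineS _
    exact gB_ne this

lemma A2_ne (i : I2) : A2 i ≠ ⊥ := by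
  cases i with
  | s =>
    intro h
    have : gT ∈ (⊥ : LieSubalgebra ℚ L) := by
      rw [← h]; exact LieSubalgebra.subset_lieSpan (by simp)
    exact gT_ne this
  | f =>
    intro h
    have : gF ∈ (⊥ : LieSubalgebra ℚ L) := by rw [← h]; exact self_mem_lineS _
    exact gF_ne this

/-- The negation of the preceding statement: For any Lie algebra over a field, any two decompositions into a free product of nonzero subalgebras admit refinements (finer free product decompositions) whose factors correspond bijectively with isomorphic corresponding factors. -/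
theorem result :
    ¬ (∀ (K : Type) [Field K] (L : Type) [LieRing L] [LieAlgebra K L]
      (I₁ I₂ : Type) (A₁ : I₁ → LieSubalgebra K L) (A₂ : I₂ → LieSubalgebra K L),
      (∀ i, A₁ i ≠ ⊥) → (∀ i, A₂ i ≠ ⊥) →
      (∀ (M : Type) [LieRing M] [LieAlgebra K M] (f : ∀ i, A₁ i →ₗ⁅K⁆ M),
        ∃! g : L →ₗ⁅K⁆ M, ∀ i (x : A₁ i), g (x : L) = f i x) →
      (∀ (M : Type) [LieRing M] [LieAlgebra K M] (f : ∀ i, A₂ i →ₗ⁅K⁆ M),
        ∃! g : L →ₗ⁅K⁆ M, ∀ i (x : A₂ i), g (x : L) = f i x) →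
      ∃ (J₁ J₂ : Type) (B₁ : J₁ → LieSubalgebra K L) (B₂ : J₂ → LieSubalgebra K L)
        (p₁ : J₁ → I₁) (p₂ : J₂ → I₂),
        (∀ j, B₁ j ≠ ⊥) ∧ (∀ j, B₂ j ≠ ⊥) ∧
        (∀ (M : Type) [LieRing M] [LieAlgebra K M] (f : ∀ j, B₁ j →ₗ⁅K⁆ M),
          ∃! g : L →ₗ⁅K⁆ M, ∀ j (x : B₁ j), g (x : L) = f j x) ∧
        (∀ (M : Type) [LieRing M] [LieAlgebra K M] (f : ∀ j, B₂ j →ₗ⁅K⁆ M),
          ∃! g : L →ₗ⁅K⁆ M, ∀ j (x : B₂ j), g (x : L) = f j x) ∧
        (∀ j, B₁ j ≤ A₁ (p₁ j)) ∧ (∀ j, B₂ j ≤ A₂ (p₂ j)) ∧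
        ∃ e : J₁ ≃ J₂, ∀ j, Nonempty (B₁ j ≃ₗ⁅K⁆ B₂ (e j))) := by
  intro H
  obtain ⟨J₁, J₂, B₁, B₂, p₁, p₂, hn₁, hn₂, hf₁, hf₂, hle₁, hle₂, e, he⟩ :=
    H ℚ L I1 I2 A1 A2 A1_ne A2_ne free1 free2
  have hF₁ : IsFree B₁ := hf₁
  have hF₂ : IsFree B₂ := hf₂
  -- the first decomposition has no proper refinement
  have hinj : ∀ j j', p₁ j = p₁ j' → j = j' := by
    intro j j' h
    have h1 := hle₁ j
    have h2 := hle₁ j'
    rw [← h] at h2
    cases hp : p₁ j with
    | g =>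
      rw [hp] at h1 h2
      exact two_uniq hF₁ hn₁ h1 h2
    | a =>
      rw [hp] at h1 h2
      exact line_uniq hF₁ hn₁ h1 h2
    | b =>
      rw [hp] at h1 h2
      exact line_uniq hF₁ hn₁ h1 h2
  obtain ⟨j0, h0⟩ := fiber_nonempty free1 hF₁ p₁ hle₁ .g (A1_ne _)
  obtain ⟨ja, ha⟩ := fiber_nonempty free1 hF₁ p₁ hle₁ .a (A1_ne _)
  obtain ⟨jb, hb⟩ := fiber_nonempty free1 hF₁ p₁ hle₁ .b (A1_ne _)
  have E0 : B₁ j0 = gS := by
    have := fiber_eq free1 hF₁ p₁ hle₁ j0 (fun j' h => hinj _ _ h)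
    rw [this, h0]; rfl
  have Ea : B₁ ja = lineS gA := by
    have := fiber_eq free1 hF₁ p₁ hle₁ ja (fun j' h => hinj _ _ h)
    rw [this, ha]; rfl
  have Eb : B₁ jb = lineS gB := by
    have := fiber_eq free1 hF₁ p₁ hle₁ jb (fun j' h => hinj _ _ h)
    rw [this, hb]; rfl
  have hall : ∀ j, j = j0 ∨ j = ja ∨ j = jb := by
    intro j
    cases hp : p₁ j with
    | g => exact Or.inl (hinj _ _ (by rw [hp, h0]))
    | a => exact Or.inr (Or.inl (hinj _ _ (by rw [hp, ha])))
    | b => exact Or.inr (Or.inr (hinj _ _ (by rw [hp, hb])))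
  obtain ⟨k, hk⟩ := fiber_nonempty free2 hF₂ p₂ hle₂ .f (A2_ne _)
  have hkle : B₂ k ≤ lineS gF := by
    have := hle₂ k
    rw [hk] at this
    exact this
  obtain ⟨e0⟩ := he j0
  obtain ⟨ea⟩ := he ja
  obtain ⟨eb⟩ := he jb
  rw [E0] at e0
  rw [Ea] at ea
  rw [Eb] at eb
  have hk' := e.apply_symm_apply k
  rcases hall (e.symm k) with h | h | h
  · rw [h] at hk'
    rw [← hk'] at hkle
    exact gS_not_line _ _ hkle e0
  · rw [h] at hk'
    refine fin_contra hF₂ (e j0) (e jb) k ?_ gB e0 eb hkle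
    intro j
    rcases hall (e.symm j) with h' | h' | h'
    · left; rw [← h', e.apply_symm_apply]
    · right; right; rw [← hk', ← h', e.apply_symm_apply]
    · right; left; rw [← h', e.apply_symm_apply]
  · rw [h] at hk'
    refine fin_contra hF₂ (e j0) (e ja) k ?_ gA e0 ea hkle
    intro j
    rcases hall (e.symm j) with h' | h' | h'
    · left; rw [← h', e.apply_symm_apply]
    · right; left; rw [← h', e.apply_symm_apply]
    · right; right; rw [← hk', ← h', e.apply_symm_apply]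

end Pool.Agent.S00578
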