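import Pool.Statements.S00585
import Pool.Agent.Helper407.PLFinal

set_option autoImplicit false
open Pool Pool.MP_30fd2d_al

namespace Pool.Agent.S00585

open Pool.Agent.Helper407.PL

/-- from cardinalities to elementwise conditions -/
lemma toRLp {p m : ℕ} {G : Type} [Group G] [Finite G] (N : ℕ → Subgroup G)
    (h0 : N 0 = ⊥) (h1 : N (2 * m + 1) = ⊤) (h2 : ∀ i, (N i).Normal) (h3 : ∀ i, N i ≤ N (i + 1))
    (h4 : ∀ i ≤ m, ∃ c : ℕ, Nat.Coprime c p ∧ Nat.card (N (2 * i + 1)) = c * Nat.card (N (2 * i)))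
    (h5 : ∀ i < m, ∃ k : ℕ, Nat.card (N (2 * i + 2)) = p ^ k * Nat.card (N (2 * i + 1))) :
    RLp p m (⊥ : Subgroup G) ⊤ := by
  have key : ∀ i c, Nat.card (N (i + 1)) = c * Nat.card (N i) → ∀ x ∈ N (i + 1), x ^ c ∈ N i := by
    intro i c hc x hx
    have hn := h2 i
    have e1 : Nat.card (N i) * (N i).relIndex (N (i + 1)) = Nat.card (N (i + 1)) := by
      have h6 : Nat.card ((N i).subgroupOf (N (i + 1))) = Nat.card (N i) :=
        Nat.card_congr (Subgroup.subgroupOfEquivOfLe (h3 i)).toEquiv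
      rw [← h6]; exact Subgroup.card_mul_index _
    have e2 : (N i).relIndex (N (i + 1)) = c := by
      rw [hc, mul_comm c] at e1
      exact Nat.eq_of_mul_eq_mul_left Nat.card_pos e1
    have e3 := Subgroup.pow_index_mem ((N i).subgroupOf (N (i + 1))) (⟨x, hx⟩ : N (i + 1))
    rw [Subgroup.mem_subgroupOf] at e3
    have e4 : ((N i).subgroupOf (N (i + 1))).index = c := e2
    rw [e4] at e3
    simpa using e3
  refine ⟨N, h0, h1, fun i => ?_, h3, fun i hi x hx => ?_, fun i hi x hx => ?_⟩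
  · have := h2 i
    exact Inv.of_normal ⊤ (N i)
  · obtain ⟨c, hc, hc'⟩ := h4 i hi
    exact ⟨c, hc, key _ c hc' x hx⟩
  · obtain ⟨k, hk⟩ := h5 i hi
    exact ⟨k, key _ _ hk x hx⟩

/-- For every prime p and nontrivial group word w there is n such that every finite p-soluble group whose Sylow p-subgroups satisfy the law w has p-length at most n. -/
theorem result :
    ∀ (p : ℕ), p.Prime → ∀ w : FreeGroup ℕ, w ≠ 1 →
      ∃ n : ℕ, ∀ (G : Type) [Group G] [Finite G],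
        (∀ P : Sylow p G, ∀ f : FreeGroup ℕ →* G,
            (∀ j : ℕ, f (FreeGroup.of j) ∈ (P : Subgroup G)) → f w = 1) →
        (∃ m : ℕ, ∃ N : ℕ → Subgroup G,
            N 0 = ⊥ ∧ N (2 * m + 1) = ⊤ ∧ (∀ i, (N i).Normal) ∧
            (∀ i, N i ≤ N (i + 1)) ∧
            (∀ i ≤ m, ∃ c : ℕ, Nat.Coprime c p ∧
                Nat.card (N (2 * i + 1)) = c * Nat.card (N (2 * i))) ∧
            (∀ i < m, ∃ k : ℕ,
                Nat.card (N (2 * i + 2)) = p ^ k * Nat.card (N (2 * i + 1)))) →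
        ∃ N : ℕ → Subgroup G,
            N 0 = ⊥ ∧ N (2 * n + 1) = ⊤ ∧ (∀ i, (N i).Normal) ∧
            (∀ i, N i ≤ N (i + 1)) ∧
            (∀ i ≤ n, ∃ c : ℕ, Nat.Coprime c p ∧
                Nat.card (N (2 * i + 1)) = c * Nat.card (N (2 * i))) ∧
            (∀ i < n, ∃ k : ℕ,
                Nat.card (N (2 * i + 2)) = p ^ k * Nat.card (N (2 * i + 1))) := by
  intro p hp w hw
  have hpf : Fact p.Prime := ⟨hp⟩
  obtain ⟨n, hn⟩ := main_bound (p := p) w hw
  refine ⟨n, fun G _ _ hlaw hsol => ?_⟩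
  obtain ⟨m, N, a0, a1, a2, a3, a4, a5⟩ := hsol
  have h1 : ∀ f : FreeGroup ℕ →* G, IsPGroup p f.range → f w = 1 := by
    intro f hf
    obtain ⟨P, hP⟩ := hf.exists_le_sylow
    exact hlaw P f (fun j => hP ⟨_, rfl⟩)
  obtain ⟨S, s0, s1, s2, s3, s4, s5⟩ := hn G h1 ⟨m, toRLp N a0 a1 a2 a3 a4 a5⟩
  have hcard : ∀ i, Nat.card (S (i + 1)) = (S i).relIndex (S (i + 1)) * Nat.card (S i) := by
    intro i
    have h6 : Nat.card ((S i).subgroupOf (S (i + 1))) = Nat.card (S i) :=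
      Nat.card_congr (Subgroup.subgroupOfEquivOfLe (s3 i)).toEquiv
    rw [← h6, mul_comm]; exact (Subgroup.card_mul_index _).symm
  have hnorm : ∀ i, (S i).Normal := fun i => ⟨fun x hx g => s2 i g trivial x hx⟩
  have hsub : ∀ i, ((S i).subgroupOf (S (i + 1))).Normal := fun i => by
    have := hnorm i
    infer_instance
  refine ⟨S, s0, s1, hnorm, s3, fun i hi => ?_, fun i hi => ?_⟩
  · exact ⟨_, PF'_index (hsub _) (s4 i hi), hcard _⟩
  · obtain ⟨k, hk⟩ := PF_index (hsub _) (s5 i hi)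
    exact ⟨k, by rw [← hk]; exact hcard _⟩

end Pool.Agent.S00585
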