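import Pool.Statements.S00587
import Pool.Agent.Helper94.EngelOrderI
import Pool.Agent.Helper351.Kos.Final

set_option autoImplicit false
open Pool Pool.MP_315210_al

namespace Pool.Agent.S00587

/-- For every k, every right-orderable group satisfying the k-Engel identity contains no two elements generating a free semigroup of rank two, i.e. it has no free non-abelian subsemigroup. -/
theorem result :
    ∀ (k : ℕ) (G : Type) [Group G],
      (∀ x y : G, (fun z : G => z⁻¹ * y⁻¹ * z * y)^[k] x = 1) →
      (∃ r : G → G → Prop,
        (∀ a, ¬ r a a) ∧
        (∀ a b c, r a b → r b c → r a c) ∧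
        (∀ a b, r a b ∨ a = b ∨ r b a) ∧
        (∀ a b c, r a b → r (a * c) (b * c))) →
      ∀ f : Bool → G, ¬ Function.Injective (FreeSemigroup.lift f) := by
  intro k G _ hE hr f
  obtain ⟨r, hirr, htr, htot, hmul⟩ := hr
  have hLI := (Pool.Agent.Helper94.right_order_jumps (n := k) (G := G) hE r hirr htr
    (fun a b => by rcases htot a b with h | h | h
                   · exact Or.inr (Or.inl h)
                   · exact Or.inl h
                   · exact Or.inr (Or.inr h)) hmul).2
  exact Pool.Agent.Helper351.Kos.no_free_of_locInd k G hE hLI f

end Pool.Agent.S00587
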