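import Pool.Statements.S00590
-- import your own Pool.Agent.* helpers here

set_option autoImplicit false
set_option maxRecDepth 100000
open Pool Pool.MP_3169d4_al

namespace Pool.Agent.S00590

/-- The field with nine elements, as F_3[i]. -/
@[ext] structure F9 where
  re : ZMod 3
  im : ZMod 3
deriving DecidableEq

namespace F9

instance : Zero F9 := ⟨⟨0, 0⟩⟩
instance : One F9 := ⟨⟨1, 0⟩⟩
instance : Add F9 := ⟨fun x y => ⟨x.re + y.re, x.im + y.im⟩⟩
instance : Neg F9 := ⟨fun x => ⟨-x.re, -x.im⟩⟩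
instance : Sub F9 := ⟨fun x y => ⟨x.re - y.re, x.im - y.im⟩⟩
instance : Mul F9 := ⟨fun x y => ⟨x.re * y.re - x.im * y.im, x.re * y.im + x.im * y.re⟩⟩

@[simp] lemma re_zero : (0 : F9).re = 0 := rfl
@[simp] lemma im_zero : (0 : F9).im = 0 := rfl
@[simp] lemma re_one : (1 : F9).re = 1 := rfl
@[simp] lemma im_one : (1 : F9).im = 0 := rfl
@[simp] lemma re_add (x y : F9) : (x + y).re = x.re + y.re := rfl
@[simp] lemma im_add (x y : F9) : (x + y).im = x.im + y.im := rfl
@[simp] lemma re_neg (x : F9) : (-x).re = -x.re := rfl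
@[simp] lemma im_neg (x : F9) : (-x).im = -x.im := rfl
@[simp] lemma re_sub (x y : F9) : (x - y).re = x.re - y.re := rfl
@[simp] lemma im_sub (x y : F9) : (x - y).im = x.im - y.im := rfl
@[simp] lemma re_mul (x y : F9) : (x * y).re = x.re * y.re - x.im * y.im := rfl
@[simp] lemma im_mul (x y : F9) : (x * y).im = x.re * y.im + x.im * y.re := rfl

instance : CommRing F9 where
  add_assoc x y z := by ext <;> simp <;> ring
  zero_add x := by ext <;> simp
  add_zero x := by ext <;> simp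
  add_comm x y := by ext <;> simp <;> ring
  neg_add_cancel x := by ext <;> simp
  sub_eq_add_neg x y := by ext <;> simp <;> ring
  mul_assoc x y z := by ext <;> simp <;> ring
  one_mul x := by ext <;> simp
  mul_one x := by ext <;> simp
  left_distrib x y z := by ext <;> simp <;> ring
  right_distrib x y z := by ext <;> simp <;> ring
  zero_mul x := by ext <;> simp
  mul_zero x := by ext <;> simp
  mul_comm x y := by ext <;> simp <;> ring
  nsmul := nsmulRec
  zsmul := zsmulRec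

instance : StarRing F9 where
  star x := ⟨x.re, -x.im⟩
  star_involutive x := by ext <;> simp
  star_mul x y := by ext <;> simp <;> ring
  star_add x y := by ext <;> simp; ring

@[simp] lemma re_star (x : F9) : (star x).re = x.re := rfl
@[simp] lemma im_star (x : F9) : (star x).im = -x.im := rfl

def equivProd : F9 ≃ ZMod 3 × ZMod 3 where
  toFun x := (x.re, x.im)
  invFun p := ⟨p.1, p.2⟩
  left_inv _ := rfl
  right_inv _ := rfl

instance : Fintype F9 := Fintype.ofEquiv _ equivProd.symm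

lemma three_eq_zero : (3 : F9) = 0 := by decide

instance : Nontrivial F9 := ⟨0, 1, by decide⟩

end F9

open Matrix

/-- Cayley-Hamilton for three by three matrices. -/
theorem ch3 {R : Type} [CommRing R] (A : Matrix (Fin 3) (Fin 3) R) :
    A * A * A = (trace A) • (A * A) - (trace (adjugate A)) • A + (det A) • (1 : Matrix (Fin 3) (Fin 3) R) := by
  rw [adjugate_fin_three, det_fin_three, trace_fin_three]
  ext i j
  fin_cases i <;> fin_cases j <;>
    simp [Matrix.mul_apply, Fin.sum_univ_three, trace_fin_three] <;> ring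

theorem trsq3 {R : Type} [CommRing R] (A : Matrix (Fin 3) (Fin 3) R) :
    trace (A * A) = trace A * trace A - 2 * trace (adjugate A) := by
  rw [adjugate_fin_three]
  simp [trace_fin_three, Matrix.mul_apply, Fin.sum_univ_three]
  ring

abbrev M3 := Matrix (Fin 3) (Fin 3) F9

/-- The special unitary group SU(3,3). -/
abbrev SU3 := Matrix.specialUnitaryGroup (Fin 3) F9

theorem g_mul_star (A : SU3) : (A : M3) * star (A : M3) = 1 := A.2.1.2
theorem g_star_mul (A : SU3) : star (A : M3) * (A : M3) = 1 := A.2.1.1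
theorem g_det (A : SU3) : (A : M3).det = 1 := by simpa using A.2.2

theorem g_adj (A : SU3) : adjugate (A : M3) = star (A : M3) := by
  have h := mul_adjugate (A : M3)
  rw [g_det, one_smul] at h
  calc adjugate (A : M3) = (star (A : M3) * (A : M3)) * adjugate (A : M3) := by rw [g_star_mul, one_mul]
    _ = star (A : M3) := by rw [mul_assoc, h, mul_one]

theorem trace_star (A : M3) : trace (star A) = star (trace A) := by
  rw [star_eq_conjTranspose, trace_conjTranspose]

theorem g_ch (A : SU3) : (A : M3) * (A : M3) * (A : M3) = (trace (A : M3)) • ((A : M3) * (A : M3)) - (star (trace (A : M3))) • (A : M3) + 1 := by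
  rw [ch3, g_adj, g_det, trace_star, one_smul]

theorem g_trsq (A : SU3) : trace ((A : M3) * (A : M3)) = trace (A : M3) * trace (A : M3) - 2 * star (trace (A : M3)) := by
  rw [trsq3, g_adj, trace_star]

/-- The polynomial p.1 X^2 + p.2.1 X + p.2.2 at A. -/
def lin (A : M3) (p : F9 × F9 × F9) : M3 := p.1 • (A * A) + p.2.1 • A + p.2.2 • (1 : M3)

def step (t : F9) (p : F9 × F9 × F9) : F9 × F9 × F9 :=
  (p.1 * t + p.2.1, p.2.2 - p.1 * star t, p.1)

theorem lin_step (A : SU3) (p : F9 × F9 × F9) :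
    lin (A : M3) p * A = lin (A : M3) (step (trace (A : M3)) p) := by
  unfold lin step
  rw [add_mul, add_mul, smul_mul_assoc, smul_mul_assoc, smul_mul_assoc, one_mul, g_ch]
  module

theorem pow_eq (A : SU3) (n : ℕ) :
    (A : M3) ^ n = lin (A : M3) ((step (trace (A : M3)))^[n] (0, 0, 1)) := by
  induction n with
  | zero => simp [lin]
  | succ n ih => rw [pow_succ, ih, lin_step, Function.iterate_succ_apply']

theorem pow_eq_one_of (A : SU3) (n : ℕ) (h : (step (trace (A : M3)))^[n] (0, 0, 1) = (0, 0, 1)) :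
    A ^ n = 1 := by
  apply Subtype.ext
  rw [SubmonoidClass.coe_pow, pow_eq, h]
  simp [lin]

def trl (t : F9) (p : F9 × F9 × F9) : F9 := p.1 * (t * t - 2 * star t) + p.2.1 * t

theorem trace_lin (A : SU3) (p : F9 × F9 × F9) : trace (lin (A : M3) p) = trl (trace (A : M3)) p := by
  unfold lin trl
  rw [trace_add, trace_add, trace_smul, trace_smul, trace_smul, g_trsq, trace_one]
  simp only [smul_eq_mul, Fintype.card_fin]
  have h3 : ((3 : ℕ) : F9) = 0 := by decide
  rw [h3]; ring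

theorem pow_ne_one_of (A : SU3) (n : ℕ) (h : trl (trace (A : M3)) ((step (trace (A : M3)))^[n] (0, 0, 1)) ≠ 0) :
    A ^ n ≠ 1 := by
  intro h1
  apply h
  rw [← trace_lin, ← pow_eq, ← SubmonoidClass.coe_pow, h1]
  simp only [OneMemClass.coe_one, trace_one, Fintype.card_fin]
  decide

theorem pow_eq_one_iff (A : SU3) (n : ℕ) (p : F9 × F9 × F9)
    (h : (step (trace (A : M3)))^[n] (0, 0, 1) = p) :
    A ^ n = 1 ↔ p.1 • (A : M3) + p.2.1 • (1 : M3) + (p.2.2 - 1) • star (A : M3) = 0 := by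
  have key : (p.1 • (A : M3) + p.2.1 • (1 : M3) + (p.2.2 - 1) • star (A : M3)) * A = (A : M3) ^ n - 1 := by
    rw [pow_eq, h, lin, add_mul, add_mul, smul_mul_assoc, smul_mul_assoc, smul_mul_assoc, g_star_mul, one_mul]
    module
  constructor
  · intro h1
    have h2 : (A : M3) ^ n = 1 := by rw [← SubmonoidClass.coe_pow, h1]; rfl
    rw [h2, sub_self] at key
    calc p.1 • (A : M3) + p.2.1 • (1 : M3) + (p.2.2 - 1) • star (A : M3)
        = (p.1 • (A : M3) + p.2.1 • (1 : M3) + (p.2.2 - 1) • star (A : M3)) * A * star (A : M3) := by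
          rw [mul_assoc, g_mul_star, mul_one]
      _ = 0 := by rw [key, zero_mul]
  · intro h1
    rw [h1, zero_mul] at key
    apply Subtype.ext
    rw [SubmonoidClass.coe_pow]
    exact (sub_eq_zero.1 key.symm)

/-- Exponent used to separate the two possible orders. -/
def mexp (t : F9) : ℕ := if t = 0 then 1 else if t = -1 then 2 else 4

theorem ord_cases (A : SU3) : orderOf A =
    (if trace (A : M3) = 1 then 4
     else if trace (A : M3) = ⟨0, 1⟩ ∨ trace (A : M3) = ⟨0, 2⟩ then 8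
     else if trace (A : M3) = ⟨1, 1⟩ ∨ trace (A : M3) = ⟨1, 2⟩ then 7
     else if trace (A : M3) = 0 then (if A ^ 1 = 1 then 1 else 3)
     else if trace (A : M3) = -1 then (if A ^ 2 = 1 then 2 else 6)
     else (if A ^ 4 = 1 then 4 else 12)) := by
  have hp := pow_eq_one_of A
  have hq := pow_ne_one_of A
  generalize ht : trace (A : M3) = t at hp hq ⊢
  obtain ⟨a, b⟩ := t
  fin_cases a <;> fin_cases b
  · -- 0
    have h3 : A ^ 3 = 1 := hp 3 (by decide)
    have := (Nat.dvd_prime Nat.prime_three).1 (orderOf_dvd_of_pow_eq_one h3)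
    rw [if_neg (by decide), if_neg (by decide), if_neg (by decide), if_pos (by decide)]
    split_ifs with h
    · rw [pow_one] at h; rw [h, orderOf_one]
    · rcases this with h' | h'
      · rw [orderOf_eq_one_iff] at h'; exact absurd (by rw [h', one_pow]) h
      · exact h'
  · rw [if_neg (by decide), if_pos (by decide)]
    exact orderOf_eq_prime_pow (p := 2) (n := 2) (hq 4 (by decide)) (hp 8 (by decide))
  · rw [if_neg (by decide), if_pos (by decide)]
    exact orderOf_eq_prime_pow (p := 2) (n := 2) (hq 4 (by decide)) (hp 8 (by decide))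
  · rw [if_pos (by decide)]
    exact orderOf_eq_prime_pow (p := 2) (n := 1) (hq 2 (by decide)) (hp 4 (by decide))
  · rw [if_neg (by decide), if_neg (by decide), if_pos (by decide)]
    have : Fact (Nat.Prime 7) := ⟨by norm_num⟩
    exact orderOf_eq_prime (hp 7 (by decide)) (by simpa using hq 1 (by decide))
  · rw [if_neg (by decide), if_neg (by decide), if_pos (by decide)]
    have : Fact (Nat.Prime 7) := ⟨by norm_num⟩
    exact orderOf_eq_prime (hp 7 (by decide)) (by simpa using hq 1 (by decide))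
  · rw [if_neg (by decide), if_neg (by decide), if_neg (by decide), if_neg (by decide), if_pos (by decide)]
    have h6 : A ^ 6 = 1 := hp 6 (by decide)
    have h3 : A ^ 3 ≠ 1 := hq 3 (by decide)
    have h1 : A ≠ 1 := by simpa using hq 1 (by decide)
    split_ifs with h
    · exact orderOf_eq_prime h h1
    · apply orderOf_eq_of_pow_and_pow_div_prime (by norm_num) h6
      intro p hp' hd
      have : p ∣ 2 * 3 := by simpa using hd
      rcases (Nat.Prime.dvd_mul hp').1 this with h' | h'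
      · rw [(Nat.prime_dvd_prime_iff_eq hp' Nat.prime_two).1 h']; exact h3
      · rw [(Nat.prime_dvd_prime_iff_eq hp' Nat.prime_three).1 h']; exact h
  all_goals
    rw [if_neg (by decide), if_neg (by decide), if_neg (by decide), if_neg (by decide), if_neg (by decide)]
    have h12 : A ^ 12 = 1 := hp 12 (by decide)
    have h6 : A ^ 6 ≠ 1 := hq 6 (by decide)
    split_ifs with h
    · refine orderOf_eq_prime_pow (p := 2) (n := 1) ?_ h
      intro h2
      apply h6
      calc A ^ 6 = (A ^ (2 ^ 1)) ^ 3 := by rw [← pow_mul]; norm_num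
        _ = 1 := by rw [h2, one_pow]
    · apply orderOf_eq_of_pow_and_pow_div_prime (by norm_num) h12
      intro p hp' hd
      have : p ∣ 4 * 3 := by simpa using hd
      rcases (Nat.Prime.dvd_mul hp').1 this with h' | h'
      · have h'' : p ∣ 2 := hp'.dvd_of_dvd_pow (show p ∣ 2 ^ 2 by simpa using h')
        rw [(Nat.prime_dvd_prime_iff_eq hp' Nat.prime_two).1 h'']; exact h6
      · rw [(Nat.prime_dvd_prime_iff_eq hp' Nat.prime_three).1 h']; exact h


/-! ### Numerical coding of the field and of the matrices -/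

def MT : ℕ := 5107958271419843920193557880922165469200445146711473720438786334434434179969678641066430418649088
def AT : ℕ := 8986690708024339884259668388453865091868182506470258411551265922896781674643265104972283578167824
def CT : ℕ := 32317452576
def NT : ℕ := 18580267296
def HT : ℕ := 13116931639993769653452874752018139994560064908261947982228067435866098833658965784885343014617088
def fm (a b : ℕ) : ℕ := Nat.land (Nat.shiftRight MT (Nat.mul 4 (Nat.add (Nat.mul 9 a) b))) 15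
def fa (a b : ℕ) : ℕ := Nat.land (Nat.shiftRight AT (Nat.mul 4 (Nat.add (Nat.mul 9 a) b))) 15
def fh (a b : ℕ) : ℕ := Nat.land (Nat.shiftRight HT (Nat.mul 4 (Nat.add (Nat.mul 9 a) b))) 15
def fc (a : ℕ) : ℕ := Nat.land (Nat.shiftRight CT (Nat.mul 4 a)) 15
def fn (a : ℕ) : ℕ := Nat.land (Nat.shiftRight NT (Nat.mul 4 a)) 15
def fs (a b : ℕ) : ℕ := fa a (fn b)

def enc (x : F9) : ℕ := 3 * x.re.val + x.im.val
def dec (n : ℕ) : F9 := ⟨((n / 3 : ℕ) : ZMod 3), ((n % 3 : ℕ) : ZMod 3)⟩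

theorem enc_mul : ∀ x y : F9, enc (x * y) = fm (enc x) (enc y) := by decide +kernel
theorem enc_add : ∀ x y : F9, enc (x + y) = fa (enc x) (enc y) := by decide +kernel
theorem enc_mul_star : ∀ x y : F9, enc (x * star y) = fh (enc x) (enc y) := by decide +kernel
theorem enc_star : ∀ x : F9, enc (star x) = fc (enc x) := by decide +kernel
theorem enc_neg : ∀ x : F9, enc (-x) = fn (enc x) := by decide +kernel
theorem enc_sub (x y : F9) : enc (x - y) = fs (enc x) (enc y) := by
  rw [sub_eq_add_neg, enc_add, enc_neg]; rfl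
theorem enc_inj : ∀ x y : F9, enc x = enc y → x = y := by decide +kernel
theorem enc_zero : enc 0 = 0 := by decide
theorem enc_one : enc 1 = 3 := by decide
theorem enc_eq_zero (x : F9) : enc x = 0 ↔ x = 0 :=
  ⟨fun h => enc_inj _ _ (h.trans enc_zero.symm), fun h => by rw [h, enc_zero]⟩

abbrev Trip := ℕ × ℕ × ℕ

def row (A : M3) (i : Fin 3) : Trip := (enc (A i 0), enc (A i 1), enc (A i 2))

def hN (x y : Trip) : ℕ := fa (fa (fh x.1 y.1) (fh x.2.1 y.2.1)) (fh x.2.2 y.2.2)

def r3N (x y : Trip) : Trip :=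
  (fc (fs (fm x.2.1 y.2.2) (fm x.2.2 y.2.1)),
   fc (fs (fm x.2.2 y.1) (fm x.1 y.2.2)),
   fc (fs (fm x.1 y.2.1) (fm x.2.1 y.1)))

theorem hN_row (A B : M3) (i j : Fin 3) : hN (row A i) (row B j) = enc ((A * star B) i j) := by
  rw [Matrix.mul_apply, Fin.sum_univ_three, enc_add, enc_add]
  simp only [Matrix.star_apply, enc_mul_star]
  rfl

theorem row_two (A : SU3) : row A 2 = r3N (row A 0) (row A 1) := by
  have h : ∀ j, (A : M3) 2 j = star ((adjugate (A : M3)) j 2) := by
    intro j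
    rw [g_adj, Matrix.star_apply, star_star]
  unfold row
  rw [h 0, h 1, h 2, adjugate_fin_three]
  simp only [r3N, Matrix.of_apply, Matrix.cons_val', Matrix.cons_val, Matrix.cons_val_zero,
    Matrix.cons_val_one, enc_star]
  have e1 : -((A : M3) 0 0 * (A : M3) 1 2) + (A : M3) 0 2 * (A : M3) 1 0
      = (A : M3) 0 2 * (A : M3) 1 0 - (A : M3) 0 0 * (A : M3) 1 2 := by ring
  rw [e1]
  simp only [enc_sub, enc_mul]

def U : List Trip := [(0, 0, 1), (0, 0, 2), (0, 0, 3), (0, 0, 6), (0, 1, 0), (0, 2, 0), (0, 3, 0), (0, 4, 4),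
  (0, 4, 5), (0, 4, 7), (0, 4, 8), (0, 5, 4), (0, 5, 5), (0, 5, 7), (0, 5, 8), (0, 6, 0),
  (0, 7, 4), (0, 7, 5), (0, 7, 7), (0, 7, 8), (0, 8, 4), (0, 8, 5), (0, 8, 7), (0, 8, 8),
  (1, 0, 0), (1, 1, 4), (1, 1, 5), (1, 1, 7), (1, 1, 8), (1, 2, 4), (1, 2, 5), (1, 2, 7),
  (1, 2, 8), (1, 3, 4), (1, 3, 5), (1, 3, 7), (1, 3, 8), (1, 4, 1), (1, 4, 2), (1, 4, 3),
  (1, 4, 6), (1, 5, 1), (1, 5, 2), (1, 5, 3), (1, 5, 6), (1, 6, 4), (1, 6, 5), (1, 6, 7),
  (1, 6, 8), (1, 7, 1), (1, 7, 2), (1, 7, 3), (1, 7, 6), (1, 8, 1), (1, 8, 2), (1, 8, 3),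
  (1, 8, 6), (2, 0, 0), (2, 1, 4), (2, 1, 5), (2, 1, 7), (2, 1, 8), (2, 2, 4), (2, 2, 5),
  (2, 2, 7), (2, 2, 8), (2, 3, 4), (2, 3, 5), (2, 3, 7), (2, 3, 8), (2, 4, 1), (2, 4, 2),
  (2, 4, 3), (2, 4, 6), (2, 5, 1), (2, 5, 2), (2, 5, 3), (2, 5, 6), (2, 6, 4), (2, 6, 5),
  (2, 6, 7), (2, 6, 8), (2, 7, 1), (2, 7, 2), (2, 7, 3), (2, 7, 6), (2, 8, 1), (2, 8, 2),
  (2, 8, 3), (2, 8, 6), (3, 0, 0), (3, 1, 4), (3, 1, 5), (3, 1, 7), (3, 1, 8), (3, 2, 4),
  (3, 2, 5), (3, 2, 7), (3, 2, 8), (3, 3, 4), (3, 3, 5), (3, 3, 7), (3, 3, 8), (3, 4, 1),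
  (3, 4, 2), (3, 4, 3), (3, 4, 6), (3, 5, 1), (3, 5, 2), (3, 5, 3), (3, 5, 6), (3, 6, 4),
  (3, 6, 5), (3, 6, 7), (3, 6, 8), (3, 7, 1), (3, 7, 2), (3, 7, 3), (3, 7, 6), (3, 8, 1),
  (3, 8, 2), (3, 8, 3), (3, 8, 6), (4, 0, 4), (4, 0, 5), (4, 0, 7), (4, 0, 8), (4, 1, 1),
  (4, 1, 2), (4, 1, 3), (4, 1, 6), (4, 2, 1), (4, 2, 2), (4, 2, 3), (4, 2, 6), (4, 3, 1),
  (4, 3, 2), (4, 3, 3), (4, 3, 6), (4, 4, 0), (4, 5, 0), (4, 6, 1), (4, 6, 2), (4, 6, 3),
  (4, 6, 6), (4, 7, 0), (4, 8, 0), (5, 0, 4), (5, 0, 5), (5, 0, 7), (5, 0, 8), (5, 1, 1),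
  (5, 1, 2), (5, 1, 3), (5, 1, 6), (5, 2, 1), (5, 2, 2), (5, 2, 3), (5, 2, 6), (5, 3, 1),
  (5, 3, 2), (5, 3, 3), (5, 3, 6), (5, 4, 0), (5, 5, 0), (5, 6, 1), (5, 6, 2), (5, 6, 3),
  (5, 6, 6), (5, 7, 0), (5, 8, 0), (6, 0, 0), (6, 1, 4), (6, 1, 5), (6, 1, 7), (6, 1, 8),
  (6, 2, 4), (6, 2, 5), (6, 2, 7), (6, 2, 8), (6, 3, 4), (6, 3, 5), (6, 3, 7), (6, 3, 8),
  (6, 4, 1), (6, 4, 2), (6, 4, 3), (6, 4, 6), (6, 5, 1), (6, 5, 2), (6, 5, 3), (6, 5, 6),
  (6, 6, 4), (6, 6, 5), (6, 6, 7), (6, 6, 8), (6, 7, 1), (6, 7, 2), (6, 7, 3), (6, 7, 6),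
  (6, 8, 1), (6, 8, 2), (6, 8, 3), (6, 8, 6), (7, 0, 4), (7, 0, 5), (7, 0, 7), (7, 0, 8),
  (7, 1, 1), (7, 1, 2), (7, 1, 3), (7, 1, 6), (7, 2, 1), (7, 2, 2), (7, 2, 3), (7, 2, 6),
  (7, 3, 1), (7, 3, 2), (7, 3, 3), (7, 3, 6), (7, 4, 0), (7, 5, 0), (7, 6, 1), (7, 6, 2),
  (7, 6, 3), (7, 6, 6), (7, 7, 0), (7, 8, 0), (8, 0, 4), (8, 0, 5), (8, 0, 7), (8, 0, 8),
  (8, 1, 1), (8, 1, 2), (8, 1, 3), (8, 1, 6), (8, 2, 1), (8, 2, 2), (8, 2, 3), (8, 2, 6),
  (8, 3, 1), (8, 3, 2), (8, 3, 3), (8, 3, 6), (8, 4, 0), (8, 5, 0), (8, 6, 1), (8, 6, 2),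
  (8, 6, 3), (8, 6, 6), (8, 7, 0), (8, 8, 0)]

theorem U_nodup : U.Nodup := by decide +kernel

set_option maxRecDepth 100000 in
theorem U_mem : ∀ a b c : F9, a * star a + b * star b + c * star c = 1 → (enc a, enc b, enc c) ∈ U := by
  decide +kernel

theorem U_ok : ∀ x ∈ U, enc (dec x.1) = x.1 ∧ enc (dec x.2.1) = x.2.1 ∧ enc (dec x.2.2) = x.2.2 ∧
    dec x.1 * star (dec x.1) + dec x.2.1 * star (dec x.2.1) + dec x.2.2 * star (dec x.2.2) = 1 := by
  decide +kernel

theorem row_mem_U (A : SU3) (i : Fin 3) : row A i ∈ U := by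
  apply U_mem
  have h := congrFun (congrFun (g_mul_star A) i) i
  rw [Matrix.mul_apply, Fin.sum_univ_three, Matrix.one_apply_eq] at h
  simpa only [Matrix.star_apply] using h

theorem h_row (A : SU3) : hN (row A 0) (row A 1) = 0 := by
  rw [hN_row, g_mul_star, Matrix.one_apply_ne (by decide), enc_zero]

/-- The matrix with given first rows. -/
def mkM (a b : F9 × F9 × F9) : M3 :=
  !![a.1, a.2.1, a.2.2; b.1, b.2.1, b.2.2;
     star (a.2.1 * b.2.2 - a.2.2 * b.2.1), star (a.2.2 * b.1 - a.1 * b.2.2), star (a.1 * b.2.1 - a.2.1 * b.1)]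

theorem mkM_mem (a b : F9 × F9 × F9)
    (ha : a.1 * star a.1 + a.2.1 * star a.2.1 + a.2.2 * star a.2.2 = 1)
    (hb : b.1 * star b.1 + b.2.1 * star b.2.1 + b.2.2 * star b.2.2 = 1)
    (hab : a.1 * star b.1 + a.2.1 * star b.2.1 + a.2.2 * star b.2.2 = 0) :
    mkM a b ∈ SU3 := by
  obtain ⟨a1, a2, a3⟩ := a
  obtain ⟨b1, b2, b3⟩ := b
  simp only at ha hb hab
  have hba : b1 * star a1 + b2 * star a2 + b3 * star a3 = 0 := by
    have := congrArg star hab
    simp only [star_add, star_mul', star_star, star_zero] at this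
    linear_combination this
  have key : star (a2 * b3 - a3 * b2) * (a2 * b3 - a3 * b2) + star (a3 * b1 - a1 * b3) * (a3 * b1 - a1 * b3)
      + star (a1 * b2 - a2 * b1) * (a1 * b2 - a2 * b1) = 1 := by
    simp only [star_sub, star_mul']
    linear_combination (b1 * star b1 + b2 * star b2 + b3 * star b3) * ha + hb
      - (b1 * star a1 + b2 * star a2 + b3 * star a3) * hab
  rw [mem_specialUnitaryGroup_iff, mem_unitaryGroup_iff]
  constructor
  · refine Matrix.ext fun i j => ?_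
    rw [Matrix.mul_apply, Fin.sum_univ_three]
    simp only [Matrix.star_apply]
    have key' := key
    simp only [star_sub, star_mul'] at key'
    fin_cases i <;> fin_cases j <;>
      simp only [mkM, Matrix.of_apply, Matrix.cons_val', Matrix.cons_val, Matrix.cons_val_zero,
        Matrix.cons_val_one, star_sub, star_mul', star_star, Matrix.one_apply, Fin.isValue,
        Fin.zero_eta, Fin.mk_one, Fin.reduceFinMk, Fin.reduceEq, if_true, if_false]
    · exact ha
    · exact hab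
    · ring
    · exact hba
    · exact hb
    · ring
    · ring
    · ring
    · linear_combination key'
  · rw [det_fin_three]
    simp [mkM]
    simp only [star_sub, star_mul'] at key
    linear_combination key

theorem exists_rows (x y : Trip) (hx : x ∈ U) (hy : y ∈ U) (hxy : hN x y = 0) :
    ∃ A : SU3, row A 0 = x ∧ row A 1 = y := by
  obtain ⟨x1, x2, x3, hx'⟩ := U_ok x hx
  obtain ⟨y1, y2, y3, hy'⟩ := U_ok y hy
  have h0 : dec x.1 * star (dec y.1) + dec x.2.1 * star (dec y.2.1) + dec x.2.2 * star (dec y.2.2) = 0 := by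
    rw [← enc_eq_zero, enc_add, enc_add, enc_mul_star, enc_mul_star, enc_mul_star, x1, x2, x3, y1, y2, y3]
    exact hxy
  refine ⟨⟨mkM (dec x.1, dec x.2.1, dec x.2.2) (dec y.1, dec y.2.1, dec y.2.2), mkM_mem _ _ hx' hy' h0⟩, ?_, ?_⟩
  · simp [row, mkM, x1, x2, x3]
  · simp [row, mkM, y1, y2, y3]

theorem rows_inj (A B : SU3) (h0 : row A 0 = row B 0) (h1 : row A 1 = row B 1) : A = B := by
  have h2 : row A 2 = row B 2 := by rw [row_two, row_two, h0, h1]
  apply Subtype.ext
  refine Matrix.ext fun i j => ?_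
  have key : ∀ i, row A i = row B i → ∀ j, (A : M3) i j = (B : M3) i j := by
    intro i h j
    simp only [row, Prod.mk.injEq] at h
    fin_cases j
    · exact enc_inj _ _ h.1
    · exact enc_inj _ _ h.2.1
    · exact enc_inj _ _ h.2.2
  fin_cases i
  · exact key 0 h0 j
  · exact key 1 h1 j
  · exact key 2 h2 j

def sumL {α : Type} (f : α → ℕ) : List α → ℕ
  | [] => 0
  | x :: l => Nat.add (f x) (sumL f l)

theorem sumL_eq {α : Type} (f : α → ℕ) (l : List α) : sumL f l = (l.map f).sum := by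
  induction l with
  | nil => rfl
  | cons x l ih => simp [sumL, ih]

noncomputable instance : Fintype SU3 := Fintype.ofFinite _

theorem sum_eq (F : Trip → Trip → ℕ) : ∑ A : SU3, F (row A 0) (row A 1) =
    sumL (fun x => sumL (fun y => bif Nat.beq (hN x y) 0 then F x y else 0) U) U := by
  classical
  have h1 : sumL (fun x => sumL (fun y => bif Nat.beq (hN x y) 0 then F x y else 0) U) U
      = ∑ p ∈ (U.toFinset ×ˢ U.toFinset).filter (fun p => hN p.1 p.2 = 0), F p.1 p.2 := by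
    rw [Finset.sum_filter, Finset.sum_product, sumL_eq, ← List.sum_toFinset _ U_nodup]
    apply Finset.sum_congr rfl
    intro x _
    rw [sumL_eq, ← List.sum_toFinset _ U_nodup]
    apply Finset.sum_congr rfl
    intro y _
    by_cases h : hN x y = 0
    · simp [h]
    · have : Nat.beq (hN x y) 0 = false := by
        rw [Bool.eq_false_iff]; intro h'; exact h (Nat.eq_of_beq_eq_true h')
      simp [h, this]
  rw [h1]
  refine Finset.sum_bij (fun A _ => (row A 0, row A 1)) ?_ ?_ ?_ ?_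
  · intro A _
    simp [row_mem_U, h_row]
  · intro A _ B _ h
    simp only [Prod.mk.injEq] at h
    exact rows_inj A B (by simpa [row] using h.1) (by simpa [row] using h.2)
  · intro p hp
    simp only [Finset.mem_filter, Finset.mem_product, List.mem_toFinset] at hp
    obtain ⟨A, h0, h1⟩ := exists_rows p.1 p.2 hp.1.1 hp.1.2 hp.2
    exact ⟨A, Finset.mem_univ _, by rw [h0, h1]⟩
  · intro A _
    rfl

set_option maxRecDepth 100000 in
theorem card_SU3 : Fintype.card SU3 = 6048 := by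
  have h := sum_eq (fun _ _ => 1)
  rw [Finset.sum_const, smul_eq_mul, mul_one, Finset.card_univ] at h
  rw [h]
  decide +kernel


/-! ### Element orders -/

def trN (x y z : Trip) : ℕ := fa (fa x.1 y.2.1) z.2.2

theorem trN_row (A : M3) : trN (row A 0) (row A 1) (row A 2) = enc (trace A) := by
  rw [trace_fin_three, enc_add, enc_add]; rfl

def ent (a c p q : ℕ) : ℕ := fa (fm a p) (fm c (fc q))

def flagN (a b c : ℕ) (x y z : Trip) : Bool :=
  Nat.beq (fa (ent a c x.1 x.1) b) 0 && (Nat.beq (ent a c x.2.1 y.1) 0 && (Nat.beq (ent a c x.2.2 z.1) 0 &&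
  (Nat.beq (ent a c y.1 x.2.1) 0 && (Nat.beq (fa (ent a c y.2.1 y.2.1) b) 0 && (Nat.beq (ent a c y.2.2 z.2.1) 0 &&
  (Nat.beq (ent a c z.1 x.2.2) 0 && (Nat.beq (ent a c z.2.1 y.2.2) 0 && Nat.beq (fa (ent a c z.2.2 z.2.2) b) 0)))))))

theorem flag_iff (A : M3) (a b c : F9) :
    a • A + b • (1 : M3) + c • star A = 0 ↔
      flagN (enc a) (enc b) (enc c) (row A 0) (row A 1) (row A 2) = true := by
  have hd : ∀ i, (a • A + b • (1 : M3) + c • star A) i i = a * A i i + c * star (A i i) + b := by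
    intro i
    simp only [Matrix.add_apply, Matrix.smul_apply, Matrix.one_apply_eq, Matrix.star_apply, smul_eq_mul]
    ring
  have ho : ∀ i j, i ≠ j → (a • A + b • (1 : M3) + c • star A) i j = a * A i j + c * star (A j i) := by
    intro i j h
    simp only [Matrix.add_apply, Matrix.smul_apply, Matrix.one_apply_ne h, Matrix.star_apply, smul_eq_mul]
    ring
  have e1 : ∀ i, (Nat.beq (fa (ent (enc a) (enc c) (enc (A i i)) (enc (A i i))) (enc b)) 0 = true ↔
      (a • A + b • (1 : M3) + c • star A) i i = 0) := by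
    intro i
    rw [hd, ← enc_eq_zero, enc_add, enc_add, enc_mul, enc_mul, enc_star, Nat.beq_eq]
    rfl
  have e2 : ∀ i j, i ≠ j → (Nat.beq (ent (enc a) (enc c) (enc (A i j)) (enc (A j i))) 0 = true ↔
      (a • A + b • (1 : M3) + c • star A) i j = 0) := by
    intro i j h
    rw [ho i j h, ← enc_eq_zero, enc_add, enc_mul, enc_mul, enc_star, Nat.beq_eq]
    rfl
  have all : a • A + b • (1 : M3) + c • star A = 0 ↔ ∀ i j, (a • A + b • (1 : M3) + c • star A) i j = 0 :=
    ⟨fun h i j => by rw [h]; rfl, fun h => Matrix.ext h⟩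
  rw [all]
  simp only [flagN, Bool.and_eq_true, row]
  rw [e1 0, e1 1, e1 2, e2 0 1 (by decide), e2 0 2 (by decide), e2 1 0 (by decide), e2 1 2 (by decide),
    e2 2 0 (by decide), e2 2 1 (by decide)]
  simp only [Fin.forall_fin_succ, Fin.forall_fin_zero]
  constructor
  · rintro ⟨⟨h1, h2, h3, -⟩, ⟨h4, h5, h6, -⟩, ⟨h7, h8, h9, -⟩, -⟩
    exact ⟨h1, h2, h3, h4, h5, h6, h7, h8, h9⟩
  · rintro ⟨h1, h2, h3, h4, h5, h6, h7, h8, h9⟩
    exact ⟨⟨h1, h2, h3, trivial⟩, ⟨h4, h5, h6, trivial⟩, ⟨h7, h8, h9, trivial⟩, trivial⟩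

def valN (x y : Trip) : ℕ :=
  (fun z : Trip => (fun t : ℕ =>
    bif Nat.beq t 3 then 2
    else bif (Nat.beq t 1 || Nat.beq t 2) then 4
    else bif (Nat.beq t 4 || Nat.beq t 5) then 6
    else bif Nat.beq t 0 then (bif flagN 0 3 6 x y z then 1 else 2)
    else bif Nat.beq t 6 then (bif flagN 3 0 6 x y z then 1 else 2)
    else (bif flagN (fs (fm t t) (fc t)) (fs 3 (fm t (fc t))) (fs t 3) x y z then 2 else 4))
    (trN x y z)) (r3N x y)

theorem iterate_one (t : F9) : (step t)^[1] (0, 0, 1) = (0, 1, 0) := by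
  simp [step]
theorem iterate_two (t : F9) : (step t)^[2] (0, 0, 1) = (1, 0, 0) := by
  simp [step]
theorem iterate_four (t : F9) : (step t)^[4] (0, 0, 1) = (t * t - star t, 1 - t * star t, t) := by
  simp only [step, Function.iterate_succ, Function.iterate_zero, Function.comp, id]
  refine Prod.ext ?_ (Prod.ext ?_ ?_)
  all_goals simp only; ring

theorem val_eq (A : SU3) : Nat.totient (orderOf A) = valN (row A 0) (row A 1) := by
  have f1 : A ^ 1 = 1 ↔ flagN 0 3 6 (row A 0) (row A 1) (row A 2) = true := by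
    rw [pow_eq_one_iff A 1 _ (iterate_one _), flag_iff]
    rfl
  have f2 : A ^ 2 = 1 ↔ flagN 3 0 6 (row A 0) (row A 1) (row A 2) = true := by
    rw [pow_eq_one_iff A 2 _ (iterate_two _), flag_iff]
    rfl
  have f4 : A ^ 4 = 1 ↔ flagN (fs (fm (enc (trace (A : M3))) (enc (trace (A : M3)))) (fc (enc (trace (A : M3)))))
      (fs 3 (fm (enc (trace (A : M3))) (fc (enc (trace (A : M3)))))) (fs (enc (trace (A : M3))) 3)
      (row A 0) (row A 1) (row A 2) = true := by
    rw [pow_eq_one_iff A 4 _ (iterate_four _), flag_iff, enc_sub, enc_sub, enc_sub, enc_mul, enc_mul, enc_star,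
      enc_one]
  rw [ord_cases]
  simp only [valN]
  rw [← row_two, trN_row]
  generalize flagN 0 3 6 (row A 0) (row A 1) (row A 2) = b1 at f1 ⊢
  generalize flagN 3 0 6 (row A 0) (row A 1) (row A 2) = b2 at f2 ⊢
  generalize flagN (fs (fm (enc (trace (A : M3))) (enc (trace (A : M3)))) (fc (enc (trace (A : M3)))))
      (fs 3 (fm (enc (trace (A : M3))) (fc (enc (trace (A : M3)))))) (fs (enc (trace (A : M3))) 3)
      (row A 0) (row A 1) (row A 2) = b4 at f4 ⊢
  simp only [f1, f2, f4]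
  generalize trace (A : M3) = t
  clear f1 f2 f4
  revert t b1 b2 b4
  decide +kernel

set_option maxRecDepth 100000 in
theorem sum_SU3 : ∑ A : SU3, Nat.totient (orderOf A) = 23984 := by
  have h : ∑ A : SU3, Nat.totient (orderOf A) = ∑ A : SU3, valN (row A 0) (row A 1) :=
    Finset.sum_congr rfl (fun A _ => val_eq A)
  rw [h, sum_eq]
  decide +kernel


/-! ### Simplicity -/

def V1 : List (Trip × Trip × Trip) := [((1, 4, 2), (8, 2, 1), (2, 2, 4)), ((6, 8, 3), (5, 1, 6), (3, 1, 7)),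
  ((6, 8, 2), (6, 2, 8), (4, 6, 6)), ((7, 2, 3), (0, 7, 4), (8, 6, 2)),
  ((4, 6, 6), (3, 8, 6), (1, 2, 5)), ((8, 2, 2), (8, 1, 1), (0, 4, 8)),
  ((8, 1, 1), (2, 6, 8), (3, 5, 2)), ((3, 1, 7), (8, 7, 0), (1, 6, 4)),
  ((2, 4, 3), (7, 6, 6), (1, 6, 8)), ((5, 1, 1), (6, 4, 3), (3, 6, 8)),
  ((3, 4, 1), (3, 8, 1), (4, 0, 5)), ((0, 4, 4), (1, 0, 0), (0, 8, 4)),
  ((0, 4, 4), (4, 3, 6), (5, 1, 2)), ((1, 1, 7), (8, 6, 6), (6, 8, 6)),
  ((4, 6, 1), (0, 7, 8), (7, 1, 3)), ((5, 3, 6), (0, 8, 8), (5, 6, 3)),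
  ((4, 6, 2), (0, 7, 4), (5, 2, 3)), ((5, 6, 1), (3, 2, 8), (2, 8, 1)),
  ((2, 2, 8), (5, 7, 0), (3, 3, 7))]
def V2 : List (Trip × Trip × Trip) := [((1, 4, 2), (8, 2, 1), (2, 2, 4)), ((6, 8, 3), (5, 1, 6), (3, 1, 7)),
  ((8, 2, 2), (8, 1, 1), (0, 4, 8)), ((7, 5, 0), (3, 3, 7), (1, 1, 4)),
  ((2, 6, 8), (1, 3, 8), (7, 8, 0))]

def d3 (x : Trip) (p q r : ℕ) : ℕ := fa (fa (fm x.1 p) (fm x.2.1 q)) (fm x.2.2 r)

/-- Trace of the product of the matrix with rows x y z and the matrix v. -/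
def trP (x y z : Trip) (v : Trip × Trip × Trip) : ℕ :=
  fa (fa (d3 x v.1.1 v.2.1.1 v.2.2.1) (d3 y v.1.2.1 v.2.1.2.1 v.2.2.2.1)) (d3 z v.1.2.2 v.2.1.2.2 v.2.2.2.2)

def is7 (n : ℕ) : Bool := Nat.beq n 4 || Nat.beq n 5

def okV (v : Trip × Trip × Trip) : Bool :=
  decide (v.1 ∈ U) && decide (v.2.1 ∈ U) && decide (hN v.1 v.2.1 = 0) && decide (v.2.2 = r3N v.1 v.2.1) &&
    is7 (trN v.1 v.2.1 v.2.2)

theorem V1_ok : ∀ v ∈ V1, okV v = true := by decide +kernel
theorem V2_ok : ∀ v ∈ V2, okV v = true := by decide +kernel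

theorem trP_rows (A B : M3) : trP (row A 0) (row A 1) (row A 2) (row B 0, row B 1, row B 2) = enc (trace (A * B)) := by
  rw [trace_fin_three]
  simp only [Matrix.mul_apply, Fin.sum_univ_three, enc_add, enc_mul]
  rfl

def chk (P : Trip → Trip → Bool) : Bool :=
  U.all (fun x => U.all (fun y => bif Nat.beq (hN x y) 0 then P x y else true))

theorem of_chk (P : Trip → Trip → Bool) (h : chk P = true) (A : SU3) : P (row A 0) (row A 1) = true := by
  unfold chk at h
  rw [List.all_eq_true] at h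
  have h1 := h _ (row_mem_U A 0)
  rw [List.all_eq_true] at h1
  have h2 := h1 _ (row_mem_U A 1)
  rw [h_row] at h2
  simpa using h2

theorem chk1 : chk (fun x y => V1.any (fun v => is7 (trP x y (r3N x y) v))) = true := by
  decide +kernel

def isOne (x y : Trip) : Bool :=
  Nat.beq x.1 3 && (Nat.beq x.2.1 0 && (Nat.beq x.2.2 0 && (Nat.beq y.1 0 && (Nat.beq y.2.1 3 && Nat.beq y.2.2 0))))

theorem chk2 : chk (fun x y => isOne x y || V2.any (fun v => !(is7 (trP x y (r3N x y) v)))) = true := by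
  decide +kernel

theorem isOne_imp (A : SU3) (h : isOne (row A 0) (row A 1) = true) : A = 1 := by
  have h0 : row A 0 = row (1 : SU3) 0 ∧ row A 1 = row (1 : SU3) 1 := by
    simp only [isOne, Bool.and_eq_true, Nat.beq_eq] at h
    obtain ⟨h1, h2, h3, h4, h5, h6⟩ := h
    have e0 : row (1 : SU3) 0 = (3, 0, 0) := by
      rw [OneMemClass.coe_one]; decide
    have e1 : row (1 : SU3) 1 = (0, 3, 0) := by
      rw [OneMemClass.coe_one]; decide
    rw [e0, e1]
    exact ⟨Prod.ext h1 (Prod.ext h2 h3), Prod.ext h4 (Prod.ext h5 h6)⟩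
  exact rows_inj _ _ h0.1 h0.2

theorem okV_exists (v : Trip × Trip × Trip) (h : okV v = true) :
    ∃ B : SU3, (row B 0, row B 1, row B 2) = v ∧ is7 (enc (trace (B : M3))) = true := by
  simp only [okV, Bool.and_eq_true, decide_eq_true_eq] at h
  obtain ⟨⟨⟨⟨h1, h2⟩, h3⟩, h4⟩, h5⟩ := h
  obtain ⟨B, b0, b1⟩ := exists_rows _ _ h1 h2 h3
  refine ⟨B, ?_, ?_⟩
  · rw [row_two, b0, b1, ← h4]
  · rw [← trN_row, row_two, b0, b1, ← h4]; exact h5

theorem is7_iff : ∀ t : F9, is7 (enc t) = true ↔ (t = ⟨1, 1⟩ ∨ t = ⟨1, 2⟩) := by decide +kernel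

theorem ord7 (A : SU3) (h : is7 (enc (trace (A : M3))) = true) : orderOf A = 7 := by
  rw [is7_iff] at h
  rw [ord_cases]
  rcases h with h | h <;> rw [h, if_neg (by decide), if_neg (by decide), if_pos (by decide)]

theorem pow24 (A : SU3) (h : is7 (enc (trace (A : M3))) = false) : A ^ 24 = 1 := by
  have h' : ¬ (trace (A : M3) = ⟨1, 1⟩ ∨ trace (A : M3) = ⟨1, 2⟩) := by
    rw [← is7_iff, h]; decide
  rw [← orderOf_dvd_iff_pow_eq_one, ord_cases]
  rw [if_neg h']
  split_ifs <;> decide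

/-- Membership in a normal subgroup of an element of order seven, from a relation. -/
theorem mem_of_rel (N : Subgroup SU3) [N.Normal] (x v : SU3) (hx : x ∈ N) (hv : v ^ 7 = 1) (h : (x * v) ^ 24 = 1) :
    v ∈ N := by
  rw [← QuotientGroup.eq_one_iff] at hx ⊢
  have h1 : ((x * v : SU3) : SU3 ⧸ N) = (v : SU3 ⧸ N) := by
    rw [QuotientGroup.mk_mul, hx, one_mul]
  have h2 : (v : SU3 ⧸ N) ^ 24 = 1 := by
    rw [← h1, ← QuotientGroup.mk_pow, h]; rfl
  have h3 : (v : SU3 ⧸ N) ^ 7 = 1 := by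
    rw [← QuotientGroup.mk_pow, hv]; rfl
  calc (v : SU3 ⧸ N) = ((v : SU3 ⧸ N) ^ 7) ^ 7 * (((v : SU3 ⧸ N) ^ 24) ^ 2)⁻¹ := by
        rw [← pow_mul, ← pow_mul, eq_mul_inv_iff_mul_eq, ← pow_succ']
    _ = 1 := by rw [h2, h3]; simp

theorem exists_seven (N : Subgroup SU3) [N.Normal] (hN : N ≠ ⊥) : ∃ v ∈ N, orderOf v = 7 := by
  obtain ⟨⟨x, hx⟩, hx0⟩ := Subgroup.ne_bot_iff_exists_ne_one.1 hN
  have hx1 : x ≠ 1 := fun h => hx0 (Subtype.ext h)
  have h := of_chk _ chk2 x
  rw [Bool.or_eq_true] at h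
  rcases h with h | h
  · exact absurd (isOne_imp x h) hx1
  · rw [List.any_eq_true] at h
    obtain ⟨v, hv, h2⟩ := h
    obtain ⟨B, hB, hB7⟩ := okV_exists v (V2_ok v hv)
    rw [← hB, ← row_two, trP_rows] at h2
    have h7 := ord7 B hB7
    refine ⟨B, mem_of_rel N x B hx (by rw [← h7]; exact pow_orderOf_eq_one B) ?_, h7⟩
    apply pow24
    simpa using h2

theorem seven_mem (N : Subgroup SU3) [N.Normal] (u y : SU3) (hu : u ∈ N) (hu7 : orderOf u = 7) (hy7 : orderOf y = 7) :
    y ∈ N := by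
  have : Fact (Nat.Prime 7) := ⟨by norm_num⟩
  have hc : Nat.card SU3 = 6048 := by rw [Nat.card_eq_fintype_card, card_SU3]
  have hf : (Nat.card SU3).factorization 7 = 1 := by
    rw [hc]
    have : (6048 : ℕ) = 7 ^ 1 * 864 := by norm_num
    rw [this, Nat.factorization_mul (by norm_num) (by norm_num), Nat.Prime.factorization_pow (by norm_num)]
    simp [Nat.factorization_eq_zero_of_not_dvd (show ¬ 7 ∣ 864 by norm_num)]
  let P : Sylow 7 SU3 := Sylow.ofCard (Subgroup.zpowers u) (by rw [Nat.card_zpowers, hu7, hf, pow_one])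
  let Q : Sylow 7 SU3 := Sylow.ofCard (Subgroup.zpowers y) (by rw [Nat.card_zpowers, hy7, hf, pow_one])
  obtain ⟨g, hg⟩ := MulAction.exists_smul_eq SU3 P Q
  have hyQ : y ∈ (Q : Subgroup SU3) := Subgroup.mem_zpowers y
  rw [← hg, Sylow.coe_subgroup_smul, Subgroup.mem_pointwise_smul_iff_inv_smul_mem] at hyQ
  have hP : (P : Subgroup SU3) ≤ N := by
    show Subgroup.zpowers u ≤ N
    rw [Subgroup.zpowers_le]; exact hu
  have h1 := hP hyQ
  have h2 := (inferInstance : N.Normal).conj_mem _ h1 g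
  simpa [MulAut.smul_def, ← map_inv, MulAut.conj_apply, mul_assoc] using h2

theorem simple_SU3 : IsSimpleGroup SU3 := by
  have : Nontrivial SU3 := by
    rw [← Fintype.one_lt_card_iff_nontrivial, card_SU3]; norm_num
  refine ⟨fun N hN => ?_⟩
  by_cases hb : N = ⊥
  · exact Or.inl hb
  right
  obtain ⟨u, hu, hu7⟩ := exists_seven N hb
  rw [eq_top_iff]
  intro A _
  have h := of_chk _ chk1 A
  rw [List.any_eq_true] at h
  obtain ⟨v, hv, h2⟩ := h
  obtain ⟨B, hB, hB7⟩ := okV_exists v (V1_ok v hv)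
  rw [← hB, ← row_two, trP_rows] at h2
  have hBN : B ∈ N := seven_mem N u B hu hu7 (ord7 B hB7)
  have hABN : A * B ∈ N := seven_mem N u (A * B) hu hu7 (ord7 (A * B) (by simpa using h2))
  have := N.mul_mem hABN (N.inv_mem hBN)
  simpa using this


/-! ### The group HG = AGL(1,7) x S_4 x C_6 -/

/-- The affine group of a commutative ring: maps t ↦ a t + b. -/
@[ext] structure Aff (R : Type) [CommRing R] where
  a : Rˣ
  b : R
deriving DecidableEq

namespace Aff
variable {R : Type} [CommRing R]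
instance : Mul (Aff R) := ⟨fun x y => ⟨x.a * y.a, x.b + x.a * y.b⟩⟩
instance : One (Aff R) := ⟨⟨1, 0⟩⟩
instance : Inv (Aff R) := ⟨fun x => ⟨x.a⁻¹, -(x.a⁻¹ * x.b)⟩⟩
theorem mul_a (x y : Aff R) : (x * y).a = x.a * y.a := rfl
theorem mul_b (x y : Aff R) : (x * y).b = x.b + x.a * y.b := rfl
theorem one_a : (1 : Aff R).a = 1 := rfl
theorem one_b : (1 : Aff R).b = 0 := rfl
theorem inv_a (x : Aff R) : (x⁻¹).a = x.a⁻¹ := rfl
theorem inv_b (x : Aff R) : (x⁻¹).b = -(x.a⁻¹ * x.b) := rfl
instance : Group (Aff R) := Group.ofLeftAxioms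
  (fun x y z => by
    apply Aff.ext
    · simp only [mul_a, mul_assoc]
    · simp only [mul_b, mul_a, Units.val_mul]; ring)
  (fun x => by
    apply Aff.ext
    · simp only [mul_a, one_a, one_mul]
    · simp only [mul_b, one_a, one_b, Units.val_one]; ring)
  (fun x => by
    apply Aff.ext
    · simp only [mul_a, inv_a, one_a, inv_mul_cancel]
    · simp only [mul_b, inv_a, inv_b, one_b]; ring)
def equivProd : Aff R ≃ Rˣ × R where
  toFun x := (x.a, x.b)
  invFun p := ⟨p.1, p.2⟩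
  left_inv _ := rfl
  right_inv _ := rfl
instance [Fintype R] [DecidableEq R] : Fintype (Aff R) := Fintype.ofEquiv _ equivProd.symm
end Aff

abbrev A7 := Aff (ZMod 7)
abbrev S4 := Equiv.Perm (Fin 4)
abbrev C6 := Multiplicative (ZMod 6)
abbrev HG := A7 × (S4 × C6)

/-- A computable version of the order of an element, for elements of order at most n. -/
def ordB {A : Type} [Monoid A] [DecidableEq A] (x : A) : ℕ → ℕ → ℕ
  | 0, k => k
  | n + 1, k => if x ^ k = 1 then k else ordB x n (k + 1)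

theorem ordB_spec {A : Type} [Monoid A] [DecidableEq A] (x : A) (n k : ℕ) (hk : 0 < k)
    (hlt : ∀ m, 0 < m → m < k → x ^ m ≠ 1) (hx : x ^ (ordB x n k) = 1) : orderOf x = ordB x n k := by
  induction n generalizing k with
  | zero =>
    simp only [ordB] at hx ⊢
    rw [orderOf_eq_iff hk]
    exact ⟨hx, fun m hm h0 => hlt m h0 hm⟩
  | succ n ih =>
    simp only [ordB] at hx ⊢
    split_ifs at hx ⊢ with h
    · rw [orderOf_eq_iff hk]
      exact ⟨hx, fun m hm h0 => hlt m h0 hm⟩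
    · apply ih (k + 1) (Nat.succ_pos k) _ hx
      intro m h0 hm
      rcases Nat.lt_succ_iff_lt_or_eq.1 hm with h' | h'
      · exact hlt m h0 h'
      · rw [h']; exact h

theorem ordA7 (x : A7) : orderOf x = ordB x 7 1 := by
  apply ordB_spec x 7 1 one_pos (fun m h0 h1 => absurd h0 (by omega))
  revert x; decide +kernel

theorem ordS4 (x : S4) : orderOf x = ordB x 7 1 := by
  apply ordB_spec x 7 1 one_pos (fun m h0 h1 => absurd h0 (by omega))
  revert x; decide +kernel

theorem ordC6 (x : C6) : orderOf x = ordB x 7 1 := by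
  apply ordB_spec x 7 1 one_pos (fun m h0 h1 => absurd h0 (by omega))
  revert x; decide +kernel

theorem sum_by_order {A : Type} [Fintype A] (o : A → ℕ) (f : ℕ → ℕ) (s : Finset ℕ)
    (hs : ∀ x, o x ∈ s) :
    ∑ x : A, f (o x) = ∑ d ∈ s, (Finset.univ.filter (fun x => o x = d)).card * f d := by
  classical
  rw [← Finset.sum_fiberwise_of_maps_to (g := o) (t := s) (fun x _ => hs x)]
  apply Finset.sum_congr rfl
  intro d _
  rw [Finset.sum_congr rfl (g := fun _ => f d) (fun x hx => by rw [(Finset.mem_filter.1 hx).2]),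
    Finset.sum_const, smul_eq_mul]

theorem sumA7 (f : ℕ → ℕ) : ∑ x : A7, f (orderOf x) = f 1 + 7 * f 2 + 14 * f 3 + 14 * f 6 + 6 * f 7 := by
  simp only [ordA7]
  rw [sum_by_order (fun x : A7 => ordB x 7 1) f {1, 2, 3, 6, 7} (by decide +kernel)]
  have h1 : (Finset.univ.filter (fun x : A7 => ordB x 7 1 = 1)).card = 1 := by decide +kernel
  have h2 : (Finset.univ.filter (fun x : A7 => ordB x 7 1 = 2)).card = 7 := by decide +kernel
  have h3 : (Finset.univ.filter (fun x : A7 => ordB x 7 1 = 3)).card = 14 := by decide +kernel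
  have h6 : (Finset.univ.filter (fun x : A7 => ordB x 7 1 = 6)).card = 14 := by decide +kernel
  have h7 : (Finset.univ.filter (fun x : A7 => ordB x 7 1 = 7)).card = 6 := by decide +kernel
  rw [Finset.sum_insert (by decide), Finset.sum_insert (by decide), Finset.sum_insert (by decide),
    Finset.sum_insert (by decide), Finset.sum_singleton, h1, h2, h3, h6, h7]
  ring

theorem sumS4 (f : ℕ → ℕ) : ∑ x : S4, f (orderOf x) = f 1 + 9 * f 2 + 8 * f 3 + 6 * f 4 := by
  simp only [ordS4]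
  rw [sum_by_order (fun x : S4 => ordB x 7 1) f {1, 2, 3, 4} (by decide +kernel)]
  have h1 : (Finset.univ.filter (fun x : S4 => ordB x 7 1 = 1)).card = 1 := by decide +kernel
  have h2 : (Finset.univ.filter (fun x : S4 => ordB x 7 1 = 2)).card = 9 := by decide +kernel
  have h3 : (Finset.univ.filter (fun x : S4 => ordB x 7 1 = 3)).card = 8 := by decide +kernel
  have h4 : (Finset.univ.filter (fun x : S4 => ordB x 7 1 = 4)).card = 6 := by decide +kernel
  rw [Finset.sum_insert (by decide), Finset.sum_insert (by decide), Finset.sum_insert (by decide),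
    Finset.sum_singleton, h1, h2, h3, h4]
  ring

theorem sumC6 (f : ℕ → ℕ) : ∑ x : C6, f (orderOf x) = f 1 + f 2 + 2 * f 3 + 2 * f 6 := by
  simp only [ordC6]
  rw [sum_by_order (fun x : C6 => ordB x 7 1) f {1, 2, 3, 6} (by decide +kernel)]
  have h1 : (Finset.univ.filter (fun x : C6 => ordB x 7 1 = 1)).card = 1 := by decide +kernel
  have h2 : (Finset.univ.filter (fun x : C6 => ordB x 7 1 = 2)).card = 1 := by decide +kernel
  have h3 : (Finset.univ.filter (fun x : C6 => ordB x 7 1 = 3)).card = 2 := by decide +kernel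
  have h6 : (Finset.univ.filter (fun x : C6 => ordB x 7 1 = 6)).card = 2 := by decide +kernel
  rw [Finset.sum_insert (by decide), Finset.sum_insert (by decide), Finset.sum_insert (by decide),
    Finset.sum_singleton, h1, h2, h3, h6]
  ring

def gH (a b c : ℕ) : ℕ := Nat.totient (Nat.lcm a (Nat.lcm b c))
def gH2 (a b : ℕ) : ℕ := gH a b 1 + gH a b 2 + 2 * gH a b 3 + 2 * gH a b 6
def gH3 (a : ℕ) : ℕ := gH2 a 1 + 9 * gH2 a 2 + 8 * gH2 a 3 + 6 * gH2 a 4

theorem sum_HG : ∑ h : HG, Nat.totient (orderOf h) = 23984 := by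
  calc ∑ h : HG, Nat.totient (orderOf h)
      = ∑ x : A7, ∑ y : S4, ∑ z : C6, gH (orderOf x) (orderOf y) (orderOf z) := by
        rw [Fintype.sum_prod_type]
        apply Finset.sum_congr rfl; intro x _
        rw [Fintype.sum_prod_type]
        apply Finset.sum_congr rfl; intro y _
        apply Finset.sum_congr rfl; intro z _
        rw [Prod.orderOf, Prod.orderOf]; rfl
    _ = ∑ x : A7, ∑ y : S4, gH2 (orderOf x) (orderOf y) := by
        apply Finset.sum_congr rfl; intro x _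
        apply Finset.sum_congr rfl; intro y _
        exact sumC6 (fun c => gH (orderOf x) (orderOf y) c)
    _ = ∑ x : A7, gH3 (orderOf x) := by
        apply Finset.sum_congr rfl; intro x _
        exact sumS4 (fun b => gH2 (orderOf x) b)
    _ = gH3 1 + 7 * gH3 2 + 14 * gH3 3 + 14 * gH3 6 + 6 * gH3 7 := sumA7 gH3
    _ = 23984 := by decide +kernel

theorem card_HG : Fintype.card HG = 6048 := by
  rw [Fintype.card_prod, Fintype.card_prod]
  decide +kernel

theorem not_simple_HG : ¬ IsSimpleGroup HG := by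
  intro h
  have hn : (MonoidHom.fst A7 (S4 × C6)).ker.Normal := inferInstance
  rcases h.eq_bot_or_eq_top_of_normal _ hn with h1 | h1
  · have : ((1, (Equiv.swap 0 1, 1)) : HG) ∈ (MonoidHom.fst A7 (S4 × C6)).ker := by
      rw [MonoidHom.mem_ker]; rfl
    rw [h1, Subgroup.mem_bot] at this
    have h2 := congrArg (fun p : HG => p.2.1) this
    simp at h2
  · have : ((⟨1, 1⟩, 1) : HG) ∈ (MonoidHom.fst A7 (S4 × C6)).ker := by rw [h1]; trivial
    rw [MonoidHom.mem_ker] at this
    have h2 := congrArg (fun p : A7 => p.b) this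
    revert h2
    decide


/-- The negation of the preceding statement: For any finite groups G and H of the same order whose sums of Euler totients of element orders agree, if G is simple then H is simple. -/
theorem result :
    ¬ (∀ (G H : Type) [Group G] [Group H] [Fintype G] [Fintype H],
      Fintype.card G = Fintype.card H →
      (∑ g : G, Nat.totient (orderOf g)) = (∑ h : H, Nat.totient (orderOf h)) →
      IsSimpleGroup G → IsSimpleGroup H) := by
  intro h
  exact not_simple_HG (h SU3 HG (by rw [card_SU3, card_HG]) (by rw [sum_SU3, sum_HG]) simple_SU3)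

end Pool.Agent.S00590
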