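import Pool.Statements.S00592

set_option autoImplicit false
open Pool Pool.MP_317811_al
open Pointwise

namespace Pool.Agent.S00592

/-! ### The free group and the side of an edge -/

/-- The last letter of the reduced word of `y` is the generator number `k`. -/
def Last (k : ℕ) (y : FreeGroup ℕ) : Prop := y.toWord.getLast? = some (k, true)

lemma toWord_letter_mul (l : ℕ × Bool) (y : FreeGroup ℕ) :
    (FreeGroup.mk [l] * y).toWord = (match y.toWord with
      | [] => [l]
      | hd :: tl => if l.1 = hd.1 ∧ l.2 = !hd.2 then tl else l :: hd :: tl) := by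
  rw [FreeGroup.toWord_mul, FreeGroup.toWord_mk, FreeGroup.reduce_singleton,
    List.singleton_append, FreeGroup.reduce.cons, FreeGroup.reduce_toWord]
  cases y.toWord <;> rfl

lemma last_mul_letter (k : ℕ) (l : ℕ × Bool) (y : FreeGroup ℕ)
    (h : l.1 ≠ k ∨ (y ≠ 1 ∧ l = (k, true))) :
    Last k (FreeGroup.mk [l] * y) ↔ Last k y := by
  unfold Last
  rw [toWord_letter_mul]
  rcases hy : y.toWord with _ | ⟨hd, tl⟩
  · have hy1 : y = 1 := FreeGroup.toWord_eq_nil_iff.1 hy
    have hl : l.1 ≠ k := by
      rcases h with h | h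
      · exact h
      · exact absurd hy1 h.1
    simp only [List.getLast?_singleton, List.getLast?_nil]
    constructor
    · intro h1
      exfalso
      apply hl
      rw [Option.some.injEq] at h1
      rw [h1]
    · intro h1
      cases h1
  · by_cases hc : l.1 = hd.1 ∧ l.2 = !hd.2
    · simp only [if_pos hc]
      rcases tl with _ | ⟨hd2, tl2⟩
      · simp only [List.getLast?_singleton, List.getLast?_nil]
        constructor
        · intro h1; cases h1
        · intro h1
          exfalso
          rw [Option.some.injEq] at h1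
          rcases h with h | h
          · apply h
            rw [hc.1, h1]
          · have h2 := hc.2
            rw [h.2, h1] at h2
            simp at h2
      · rw [List.getLast?_cons_cons]
    · simp only [if_neg hc]
      rw [List.getLast?_cons_cons]

lemma last_mul_mk (k : ℕ) (L : List (ℕ × Bool)) (hL : ∀ p ∈ L, p.1 < k) (y : FreeGroup ℕ) :
    Last k (FreeGroup.mk L * y) ↔ Last k y := by
  induction L with
  | nil =>
    have : (FreeGroup.mk [] : FreeGroup ℕ) = 1 := rfl
    rw [this, one_mul]
  | cons l L ih =>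
    have h1 : (FreeGroup.mk (l :: L) : FreeGroup ℕ) = FreeGroup.mk [l] * FreeGroup.mk L := by
      rw [FreeGroup.mul_mk]; rfl
    rw [h1, mul_assoc, last_mul_letter]
    · exact ih (fun p hp => hL p (List.mem_cons_of_mem _ hp))
    · left
      exact (hL l List.mem_cons_self).ne

/-- All letters of `f` have number `< k`. -/
def Low (k : ℕ) (f : FreeGroup ℕ) : Prop := ∀ p ∈ f.toWord, p.1 < k

lemma last_low_mul (k : ℕ) (f y : FreeGroup ℕ) (hf : Low k f) : Last k (f * y) ↔ Last k y := by
  conv_lhs => rw [← FreeGroup.mk_toWord (x := f)]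
  exact last_mul_mk k f.toWord hf y

lemma not_last_one (k : ℕ) : ¬ Last k 1 := by
  unfold Last
  rw [FreeGroup.toWord_one]
  intro h
  cases h

lemma last_of (k : ℕ) : Last k (FreeGroup.of k) := by
  unfold Last
  rw [FreeGroup.toWord_of]
  rfl

/-! ### Weights -/

/-- The weight of a set of `k` forbidden colors. -/
def phi (k : ℕ) : ℕ := if k = 0 then 0 else 3 ^ (k - 1) * 2 ^ (9 - k)

lemma phi_step : ∀ k < 10, ∀ k' < 10, (k' = k ∨ k' = k + 1) → 2 * phi k' ≤ 3 * phi k + 512 := by
  decide

lemma phi_same (k : ℕ) : 2 * phi k ≤ 3 * phi k := by omega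

lemma phi_insert (s : Finset (Fin 9)) (i : Fin 9) :
    2 * phi (insert i s).card ≤ 3 * phi s.card + 512 := by
  have h1 : s.card < 10 := by
    have := s.card_le_univ
    rw [Fintype.card_fin] at this
    omega
  have h2 : (insert i s).card < 10 := by
    have := (insert i s).card_le_univ
    rw [Fintype.card_fin] at this
    omega
  apply phi_step _ h1 _ h2
  by_cases hi : i ∈ s
  · left; rw [Finset.insert_eq_of_mem hi]
  · right; rw [Finset.card_insert_of_notMem hi]

lemma exists_color (s : Finset (Fin 9)) (h : phi s.card < 6561) : ∃ i, i ∉ s := by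
  by_contra hc
  push Not at hc
  have : s = Finset.univ := Finset.eq_univ_iff_forall.2 hc
  rw [this, Finset.card_univ, Fintype.card_fin] at h
  revert h
  decide

/-! ### The finite colouring lemma -/

section main
open Classical in
theorem main_aux (col : ℕ → Fin 9) (F : ℕ → Finset (FreeGroup ℕ))
    (hcard : ∀ k, (F k).card ≤ 9) (hlow : ∀ k, ∀ f ∈ F k, Low k f) (n : ℕ) :
    ∀ (E : Finset (FreeGroup ℕ × ℕ)) (T : Finset (FreeGroup ℕ))
      (r : FreeGroup ℕ → Finset (Fin 9)), E.card = n →
      (∑ x ∈ T, phi (r x).card < 6561) → (∀ x, x ∉ T → r x = ∅) →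
      (∀ e ∈ E, FreeGroup.of e.2 * e.1 ∈ T ∧ ∀ f ∈ F e.2, f * e.1 ∈ T) →
      ∃ c : FreeGroup ℕ → Fin 9, (∀ x, c x ∉ r x) ∧
        ∀ e ∈ E, ∀ f ∈ F e.2, ¬ (c (FreeGroup.of e.2 * e.1) = col e.2 ∧ c (f * e.1) = col e.2) := by
  induction n using Nat.strong_induction_on with
  | _ n ih =>
  intro E T r hn hr hT hE
  rcases E.eq_empty_or_nonempty with hE0 | hne
  · -- no constraints
    have : ∀ x, ∃ i, i ∉ r x := by
      intro x
      apply exists_color
      by_cases hx : x ∈ T
      · exact lt_of_le_of_lt (Finset.single_le_sum (f := fun x => phi (r x).card)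
          (fun _ _ => Nat.zero_le _) hx) hr
      · rw [hT x hx]
        decide
    choose c hc using this
    refine ⟨c, hc, ?_⟩
    intro e he
    rw [hE0] at he
    simp at he
  · obtain ⟨e, he, hmax⟩ := Finset.exists_max_image E (fun e => e.2) hne
    obtain ⟨g, k⟩ := e
    set i := col k with hi
    -- the side of the edge
    set S : FreeGroup ℕ → Prop := fun x => Last k (x * g⁻¹) with hS
    have S_head : S (FreeGroup.of k * g) := by
      simp only [hS, mul_inv_cancel_right]
      exact last_of k
    have S_tail : ∀ f ∈ F k, ¬ S (f * g) := by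
      intro f hf h
      simp only [hS, mul_inv_cancel_right] at h
      rw [← mul_one f, last_low_mul k f 1 (hlow k f hf)] at h
      exact not_last_one k h
    have S_other_tail : ∀ e' ∈ E, ∀ f ∈ F e'.2, (S (f * e'.1) ↔ S e'.1) := by
      intro e' he' f hf
      simp only [hS, mul_assoc]
      apply last_low_mul
      intro p hp
      exact lt_of_lt_of_le (hlow _ f hf p hp) (hmax e' he')
    have S_other_head : ∀ e' ∈ E, e' ≠ (g, k) → (S (FreeGroup.of e'.2 * e'.1) ↔ S e'.1) := by
      intro e' he' hne'
      simp only [hS, mul_assoc]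
      have : (FreeGroup.of e'.2 : FreeGroup ℕ) = FreeGroup.mk [(e'.2, true)] := rfl
      rw [this]
      apply last_mul_letter
      by_cases hk : e'.2 = k
      · right
        refine ⟨?_, by rw [hk]⟩
        intro h1
        apply hne'
        have h2 : e'.1 = g := by
          rwa [mul_inv_eq_one] at h1
        exact Prod.ext h2 hk
      · left; exact hk
    -- splitting the constraints
    set E1 := E.filter (fun e' => e' ≠ (g, k) ∧ ¬ S e'.1) with hE1
    set E2 := E.filter (fun e' => e' ≠ (g, k) ∧ S e'.1) with hE2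
    have hE1c : E1.card < n := by
      rw [← hn]
      apply Finset.card_lt_card
      refine ⟨Finset.filter_subset _ _, ?_⟩
      intro hsub
      have := hsub he
      rw [hE1, Finset.mem_filter] at this
      exact this.2.1 rfl
    have hE2c : E2.card < n := by
      rw [← hn]
      apply Finset.card_lt_card
      refine ⟨Finset.filter_subset _ _, ?_⟩
      intro hsub
      have := hsub he
      rw [hE2, Finset.mem_filter] at this
      exact this.2.1 rfl
    set h := FreeGroup.of k * g with hh
    set F' : Finset (FreeGroup ℕ) := (F k).image (fun f => f * g) with hF'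
    have hF'c : F'.card ≤ 9 := Finset.card_image_le.trans (hcard k)
    set r1 : FreeGroup ℕ → Finset (Fin 9) := fun x => if S x then ∅ else r x with hr1
    set r2 : FreeGroup ℕ → Finset (Fin 9) := fun x => if S x then r x else ∅ with hr2
    set r1' : FreeGroup ℕ → Finset (Fin 9) := fun x => if x ∈ F' then insert i (r1 x) else r1 x
      with hr1'
    set r2' : FreeGroup ℕ → Finset (Fin 9) := fun x => if x = h then insert i (r2 x) else r2 x
      with hr2'
    have hsum : ∑ x ∈ T, phi (r1 x).card + ∑ x ∈ T, phi (r2 x).card = ∑ x ∈ T, phi (r x).card := by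
      rw [← Finset.sum_add_distrib]
      apply Finset.sum_congr rfl
      intro x _
      by_cases hSx : S x
      · simp only [hr1, hr2, if_pos hSx, Finset.card_empty]
        simp [phi]
      · simp only [hr1, hr2, if_neg hSx, Finset.card_empty]
        simp [phi]
    have hw2 : 2 * ∑ x ∈ T, phi (r2' x).card ≤ 3 * ∑ x ∈ T, phi (r2 x).card + 512 := by
      rw [Finset.mul_sum, Finset.mul_sum]
      calc ∑ x ∈ T, 2 * phi (r2' x).card
          ≤ ∑ x ∈ T, (3 * phi (r2 x).card + if x = h then 512 else 0) := by
            apply Finset.sum_le_sum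
            intro x _
            by_cases hx : x = h
            · simp only [hr2', if_pos hx]
              exact phi_insert _ _
            · simp only [hr2', if_neg hx]
              exact phi_same _
        _ = ∑ x ∈ T, 3 * phi (r2 x).card + ∑ x ∈ T, (if x = h then 512 else 0) :=
            Finset.sum_add_distrib
        _ ≤ ∑ x ∈ T, 3 * phi (r2 x).card + 512 := by
            apply Nat.add_le_add_left
            rw [Finset.sum_ite_eq']
            split_ifs <;> omega
    have hw1 : 2 * ∑ x ∈ T, phi (r1' x).card ≤ 3 * ∑ x ∈ T, phi (r1 x).card + 4608 := by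
      rw [Finset.mul_sum, Finset.mul_sum]
      calc ∑ x ∈ T, 2 * phi (r1' x).card
          ≤ ∑ x ∈ T, (3 * phi (r1 x).card + if x ∈ F' then 512 else 0) := by
            apply Finset.sum_le_sum
            intro x _
            by_cases hx : x ∈ F'
            · simp only [hr1', if_pos hx]
              exact phi_insert _ _
            · simp only [hr1', if_neg hx]
              exact phi_same _
        _ = ∑ x ∈ T, 3 * phi (r1 x).card + ∑ x ∈ T, (if x ∈ F' then 512 else 0) :=
            Finset.sum_add_distrib
        _ ≤ ∑ x ∈ T, 3 * phi (r1 x).card + 4608 := by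
            apply Nat.add_le_add_left
            rw [← Finset.sum_filter, Finset.sum_const, smul_eq_mul]
            have : (T.filter (fun x => x ∈ F')).card ≤ F'.card := by
              apply Finset.card_le_card
              intro x hx
              exact (Finset.mem_filter.1 hx).2
            omega
    have hT1 : ∀ x, x ∉ T → r1 x = ∅ := by
      intro x hx
      simp only [hr1, hT x hx, ite_self]
    have hT2 : ∀ x, x ∉ T → r2 x = ∅ := by
      intro x hx
      simp only [hr2, hT x hx, ite_self]
    have hT1' : ∀ x, x ∉ T → r1' x = ∅ := by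
      intro x hx
      have : x ∉ F' := by
        intro hxF
        rw [hF', Finset.mem_image] at hxF
        obtain ⟨f, hf, rfl⟩ := hxF
        exact hx ((hE _ he).2 f hf)
      simp only [hr1', if_neg this]
      exact hT1 x hx
    have hT2' : ∀ x, x ∉ T → r2' x = ∅ := by
      intro x hx
      have : x ≠ h := by
        rintro rfl
        exact hx (hE _ he).1
      simp only [hr2', if_neg this]
      exact hT2 x hx
    have hEE1 : ∀ e ∈ E1, FreeGroup.of e.2 * e.1 ∈ T ∧ ∀ f ∈ F e.2, f * e.1 ∈ T :=
      fun e' he' => hE e' (Finset.mem_filter.1 he').1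
    have hEE2 : ∀ e ∈ E2, FreeGroup.of e.2 * e.1 ∈ T ∧ ∀ f ∈ F e.2, f * e.1 ∈ T :=
      fun e' he' => hE e' (Finset.mem_filter.1 he').1
    -- gluing
    have glue : ∀ c1 c2 : FreeGroup ℕ → Fin 9, (∀ x, c1 x ∉ r1 x) → (∀ x, c2 x ∉ r2 x) →
        (∀ e ∈ E1, ∀ f ∈ F e.2,
          ¬ (c1 (FreeGroup.of e.2 * e.1) = col e.2 ∧ c1 (f * e.1) = col e.2)) →
        (∀ e ∈ E2, ∀ f ∈ F e.2,
          ¬ (c2 (FreeGroup.of e.2 * e.1) = col e.2 ∧ c2 (f * e.1) = col e.2)) →
        (c2 h ≠ i ∨ ∀ f ∈ F k, c1 (f * g) ≠ i) →
        ∃ c : FreeGroup ℕ → Fin 9, (∀ x, c x ∉ r x) ∧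
          ∀ e ∈ E, ∀ f ∈ F e.2,
            ¬ (c (FreeGroup.of e.2 * e.1) = col e.2 ∧ c (f * e.1) = col e.2) := by
      intro c1 c2 h1 h2 hc1 hc2 hlast
      refine ⟨fun x => if S x then c2 x else c1 x, ?_, ?_⟩
      · intro x
        by_cases hSx : S x
        · have := h2 x
          simp only [hr2, if_pos hSx] at this
          simp only [if_pos hSx]
          exact this
        · have := h1 x
          simp only [hr1, if_neg hSx] at this
          simp only [if_neg hSx]
          exact this
      · intro e' he' f hf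
        by_cases hee : e' = (g, k)
        · subst hee
          rintro ⟨h3, h4⟩
          change (if S h then c2 h else c1 h) = i at h3
          rw [if_pos S_head] at h3
          simp only [if_neg (S_tail f hf)] at h4
          rcases hlast with h5 | h5
          · exact h5 h3
          · exact h5 f hf h4
        · by_cases hSe : S e'.1
          · have hmem : e' ∈ E2 := Finset.mem_filter.2 ⟨he', hee, hSe⟩
            have ha := (S_other_head e' he' hee).2 hSe
            have hb := (S_other_tail e' he' f hf).2 hSe
            simp only [if_pos ha, if_pos hb]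
            exact hc2 e' hmem f hf
          · have hmem : e' ∈ E1 := Finset.mem_filter.2 ⟨he', hee, hSe⟩
            have ha := fun h => hSe ((S_other_head e' he' hee).1 h)
            have hb := fun h => hSe ((S_other_tail e' he' f hf).1 h)
            simp only [if_neg ha, if_neg hb]
            exact hc1 e' hmem f hf
    by_cases hcase : ∑ x ∈ T, phi (r2' x).card < 6561
    · -- pay at the head
      obtain ⟨c1, h1, hc1⟩ := ih _ hE1c E1 T r1 rfl (by omega) hT1 hEE1
      obtain ⟨c2, h2, hc2⟩ := ih _ hE2c E2 T r2' rfl hcase hT2' hEE2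
      refine glue c1 c2 h1 ?_ hc1 hc2 (Or.inl ?_)
      · intro x hx
        apply h2 x
        simp only [hr2']
        split_ifs
        · exact Finset.mem_insert_of_mem hx
        · exact hx
      · intro hc
        apply h2 h
        simp only [hr2', if_true]
        rw [hc]
        exact Finset.mem_insert_self _ _
    · -- pay at the tail
      have hlt : ∑ x ∈ T, phi (r1' x).card < 6561 := by omega
      obtain ⟨c1, h1, hc1⟩ := ih _ hE1c E1 T r1' rfl hlt hT1' hEE1
      obtain ⟨c2, h2, hc2⟩ := ih _ hE2c E2 T r2 rfl (by omega) hT2 hEE2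
      refine glue c1 c2 ?_ h2 hc1 hc2 (Or.inr ?_)
      · intro x hx
        apply h1 x
        simp only [hr1']
        split_ifs
        · exact Finset.mem_insert_of_mem hx
        · exact hx
      · intro f hf hc
        apply h1 (f * g)
        have hm : f * g ∈ F' := Finset.mem_image_of_mem _ hf
        simp only [hr1', if_pos hm]
        rw [hc]
        exact Finset.mem_insert_self _ _

end main

/-! ### Compactness -/

theorem exists_coloring (col : ℕ → Fin 9) (F : ℕ → Finset (FreeGroup ℕ))
    (hcard : ∀ k, (F k).card ≤ 9) (hlow : ∀ k, ∀ f ∈ F k, Low k f) :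
    ∃ c : FreeGroup ℕ → Fin 9, ∀ (g : FreeGroup ℕ) (k : ℕ), ∀ f ∈ F k,
      ¬ (c (FreeGroup.of k * g) = col k ∧ c (f * g) = col k) := by
  classical
  set t : FreeGroup ℕ × ℕ → Set (FreeGroup ℕ → Fin 9) := fun e =>
    {c | ∀ f ∈ F e.2, ¬ (c (FreeGroup.of e.2 * e.1) = col e.2 ∧ c (f * e.1) = col e.2)} with ht
  have hclosed : ∀ e, IsClosed (t e) := by
    intro e
    have : t e = ⋂ f ∈ F e.2, {c : FreeGroup ℕ → Fin 9 |
        ¬ (c (FreeGroup.of e.2 * e.1) = col e.2 ∧ c (f * e.1) = col e.2)} := by
      ext c
      simp only [ht, Set.mem_ofPred_eq, Set.mem_iInter]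
    rw [this]
    apply isClosed_biInter
    intro f _
    apply isClosed_compl_iff.2
    have h0 : ∀ x : FreeGroup ℕ, IsOpen {c : FreeGroup ℕ → Fin 9 | c x = col e.2} := by
      intro x
      have hx : Continuous (fun c : FreeGroup ℕ → Fin 9 => c x) := continuous_apply x
      exact (isOpen_discrete ({col e.2} : Set (Fin 9))).preimage hx
    exact (h0 (FreeGroup.of e.2 * e.1)).inter (h0 (f * e.1))
  have hne := isCompact_univ.inter_iInter_nonempty (X := FreeGroup ℕ → Fin 9) t hclosed (by
    intro E
    obtain ⟨c, _, hc⟩ := main_aux col F hcard hlow _ E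
      (E.image (fun e => FreeGroup.of e.2 * e.1) ∪
        E.biUnion (fun e => (F e.2).image (fun f => f * e.1))) (fun _ => ∅) rfl
      (by simp [phi]) (fun _ _ => rfl) (by
        intro e he
        refine ⟨Finset.mem_union_left _ (Finset.mem_image_of_mem _ he), ?_⟩
        intro f hf
        apply Finset.mem_union_right
        rw [Finset.mem_biUnion]
        exact ⟨e, he, Finset.mem_image_of_mem _ hf⟩)
    refine ⟨c, Set.mem_univ _, ?_⟩
    simp only [Set.mem_iInter]
    intro e he
    exact hc e he)
  obtain ⟨c, _, hc⟩ := hne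
  refine ⟨c, ?_⟩
  intro g k f hf
  exact (Set.mem_iInter.1 hc (g, k)) f hf

lemma exists_low_bound (F : Finset (FreeGroup ℕ)) : ∃ K, ∀ k ≥ K, ∀ f ∈ F, Low k f := by
  classical
  induction F using Finset.induction_on with
  | empty => exact ⟨0, fun _ _ f hf => absurd hf (Finset.notMem_empty f)⟩
  | insert a s _ ih =>
    obtain ⟨K, hK⟩ := ih
    have : ∃ K', ∀ p ∈ a.toWord, p.1 < K' := by
      induction a.toWord with
      | nil => exact ⟨0, fun p hp => absurd hp List.not_mem_nil⟩
      | cons l L ih2 =>
        obtain ⟨K', hK'⟩ := ih2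
        refine ⟨max K' (l.1 + 1), ?_⟩
        intro p hp
        rcases List.mem_cons.1 hp with rfl | hp
        · exact lt_of_lt_of_le (Nat.lt_succ_self _) (le_max_right _ _)
        · exact lt_of_lt_of_le (hK' p hp) (le_max_left _ _)
    obtain ⟨K', hK'⟩ := this
    refine ⟨max K K', ?_⟩
    intro k hk f hf
    rcases Finset.mem_insert.1 hf with rfl | hf
    · intro p hp
      exact lt_of_lt_of_le (hK' p hp) ((le_max_right _ _).trans hk)
    · exact hK k ((le_max_left _ _).trans hk) f hf

/-- There is a colouring of the free group with nine colours such that for every colour and every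
set of at most nine elements some generator works as a translating witness. -/
theorem exists_good : ∃ c : FreeGroup ℕ → Fin 9, ∀ (i : Fin 9) (F : Finset (FreeGroup ℕ)),
    F.card ≤ 9 → ∃ t : FreeGroup ℕ, ∀ g, ∀ f ∈ F, ¬ (c (t * g) = i ∧ c (f * g) = i) := by
  classical
  have : Encodable (Fin 9 × Finset (FreeGroup ℕ)) := Encodable.ofCountable _
  set ν : ℕ → Option (Fin 9 × Finset (FreeGroup ℕ)) := fun k =>
    Encodable.decode (Nat.unpair k).1 with hν
  set col : ℕ → Fin 9 := fun k => ((ν k).getD (0, ∅)).1 with hcol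
  set F0 : ℕ → Finset (FreeGroup ℕ) := fun k => ((ν k).getD (0, ∅)).2 with hF0
  set F : ℕ → Finset (FreeGroup ℕ) := fun k =>
    if (F0 k).card ≤ 9 ∧ ∀ f ∈ F0 k, Low k f then F0 k else ∅ with hF
  obtain ⟨c, hc⟩ := exists_coloring col F
    (by
      intro k
      simp only [hF]
      split_ifs with h
      · exact h.1
      · simp)
    (by
      intro k f hf
      simp only [hF] at hf
      split_ifs at hf with h
      · exact h.2 f hf
      · exact absurd hf (Finset.notMem_empty f))
  refine ⟨c, ?_⟩
  intro i A hA
  obtain ⟨K, hK⟩ := exists_low_bound A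
  set k := Nat.pair (Encodable.encode (i, A)) K with hk
  have hkK : K ≤ k := Nat.right_le_pair _ _
  have hνk : ν k = some (i, A) := by
    simp only [hν, hk, Nat.unpair_pair, Encodable.encodek]
  have hcolk : col k = i := by simp only [hcol, hνk, Option.getD_some]
  have hF0k : F0 k = A := by simp only [hF0, hνk, Option.getD_some]
  have hFk : F k = A := by
    simp only [hF]
    rw [if_pos]
    · exact hF0k
    · rw [hF0k]
      exact ⟨hA, hK k hkK⟩
  refine ⟨FreeGroup.of k, ?_⟩
  intro g f hf
  have := hc g k f (by rw [hFk]; exact hf)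
  rwa [hcolk] at this

/-- The negation of the preceding statement: For every group G and every partition of G into n cells A_1,…,A_n, some cell A_i and some finite set F of at most n elements satisfy A_i⁻¹·A_i·F = G. -/
theorem result :
    ¬ (∀ (G : Type) [Group G] (n : ℕ) (A : Fin n → Set G),
      Pairwise (fun i j => Disjoint (A i) (A j)) →
      (⋃ i, A i) = Set.univ →
      ∃ i : Fin n, ∃ F : Finset G, F.card ≤ n ∧
        (A i)⁻¹ * A i * (F : Set G) = Set.univ) := by
  intro H
  obtain ⟨c, hc⟩ := exists_good
  obtain ⟨i, F, hF, hcov⟩ := H (FreeGroup ℕ) 9 (fun i => {x | c x⁻¹ = i})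
    (by
      intro i j hij
      rw [Set.disjoint_left]
      intro x hx hx'
      exact hij (hx.symm.trans hx'))
    (by
      ext x
      simp only [Set.mem_iUnion, Set.mem_univ, iff_true]
      exact ⟨c x⁻¹, rfl⟩)
  obtain ⟨t, ht⟩ := hc i F hF
  have hmem : t ∈ ({x | c x⁻¹ = i} : Set (FreeGroup ℕ))⁻¹ * {x | c x⁻¹ = i} * (F : Set (FreeGroup ℕ)) := by
    rw [hcov]; exact Set.mem_univ _
  obtain ⟨y, hy, f, hf, hyf⟩ := Set.mem_mul.1 hmem
  obtain ⟨a, ha, b, hb, hab⟩ := Set.mem_mul.1 hy
  have ha' : c a = i := by
    have h1 : c (a⁻¹)⁻¹ = i := ha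
    rwa [inv_inv] at h1
  have hb' : c b⁻¹ = i := hb
  -- `t = a * b * f`, with `c a = i`, `c b⁻¹ = i`
  apply ht ((b * f)⁻¹) f hf
  constructor
  · have : t * (b * f)⁻¹ = a := by
      rw [← hyf, ← hab]; group
    rw [this]; exact ha'
  · have : f * (b * f)⁻¹ = b⁻¹ := by group
    rw [this]; exact hb'

end Pool.Agent.S00592
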