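import Pool.Statements.S00603

set_option autoImplicit false
open Pool Pool.MP_32c87b_al

namespace Pool.Agent.S00603

/-- A copy of `G` carrying a well order. -/
structure WO (G : Type) where
  val : G

open Classical in
noncomputable instance (G : Type) : LinearOrder (WO G) :=
  linearOrderOfSTO (WellOrderingRel : WO G → WO G → Prop)

instance (G : Type) : WellFoundedLT (WO G) :=
  ⟨(IsWellFounded.wf : WellFounded (WellOrderingRel : WO G → WO G → Prop))⟩

/-- Levels: a well ordered set with least element (the top level) and greatest element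
(the bottom level). -/
abbrev Lev (G : Type) := WithBot (WithTop (WO G))

section
set_option linter.unusedSectionVars false
variable {G : Type} [Group G] [Lattice G] [MulLeftMono G] [MulRightMono G]

/-- The shift attached to a level. -/
def shift : Lev G → G
  | ⊥ => 1
  | some none => 1
  | some (some s) => s.val ⊔ 1

theorem one_le_shift (i : Lev G) : 1 ≤ shift i := by
  match i with
  | ⊥ => exact le_refl _
  | some none => exact le_refl _
  | some (some s) => exact le_sup_right

theorem shift_bot : shift (⊥ : Lev G) = 1 := rfl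
theorem shift_top : shift (⊤ : Lev G) = 1 := rfl
theorem shift_coe (s : WO G) : shift (((s : WithTop (WO G)) : Lev G)) = s.val ⊔ 1 := rfl

/-- The underlying type of the poset. -/
inductive Om (G : Type) : Type
  | pt : G → Lev G → Om G
  | mk : Lev G → Om G

/-- The order relation. -/
def OmLe : Om G → Om G → Prop
  | .pt x i, .pt y k => (i = k ∧ x ≤ y) ∨ (i = ⊤ ∧ x ≤ y) ∨ (k = ⊥ ∧ x * shift i ≤ y)
  | .pt _ i, .mk j => j ≤ i
  | .mk _, .pt _ _ => False
  | .mk j, .mk j' => j' ≤ j

theorem le_of_rel {x y : G} {i k : Lev G}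
    (h : (i = k ∧ x ≤ y) ∨ (i = ⊤ ∧ x ≤ y) ∨ (k = ⊥ ∧ x * shift i ≤ y)) : x ≤ y := by
  rcases h with ⟨_, h⟩ | ⟨_, h⟩ | ⟨_, h⟩
  · exact h
  · exact h
  · exact le_trans (le_mul_of_one_le_right' (one_le_shift i)) h

instance : PartialOrder (Om G) where
  le := OmLe
  le_refl a := by
    cases a with
    | pt x i => exact Or.inl ⟨rfl, le_refl _⟩
    | mk j => exact le_refl j
  le_trans a b c hab hbc := by
    cases a with
    | pt x i =>
      cases b with
      | pt y k =>
        cases c with
        | pt z l =>
          have hyz : y ≤ z := le_of_rel hbc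
          rcases hab with ⟨h1, h2⟩ | ⟨h1, h2⟩ | ⟨h1, h2⟩
          · subst h1
            rcases hbc with ⟨h3, h4⟩ | ⟨h3, h4⟩ | ⟨h3, h4⟩
            · exact Or.inl ⟨h3, le_trans h2 h4⟩
            · exact Or.inr (Or.inl ⟨h3, le_trans h2 h4⟩)
            · exact Or.inr (Or.inr ⟨h3, le_trans (mul_le_mul_left h2 _) h4⟩)
          · exact Or.inr (Or.inl ⟨h1, le_trans h2 hyz⟩)
          · subst h1
            rcases hbc with ⟨h3, h4⟩ | ⟨h3, h4⟩ | ⟨h3, h4⟩
            · exact Or.inr (Or.inr ⟨h3.symm, le_trans h2 h4⟩)
            · exact absurd h3 (by simp)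
            · exact Or.inr (Or.inr ⟨h3, le_trans h2 hyz⟩)
        | mk j =>
          have hbc' : j ≤ k := hbc
          show j ≤ i
          rcases hab with ⟨h1, h2⟩ | ⟨h1, h2⟩ | ⟨h1, h2⟩
          · rw [h1]; exact hbc'
          · rw [h1]; exact le_top
          · rw [h1] at hbc'; exact le_trans hbc' bot_le
      | mk j =>
        cases c with
        | pt z l => exact absurd hbc id
        | mk j' => exact le_trans (show j' ≤ j from hbc) (show j ≤ i from hab)
    | mk j =>
      cases b with
      | pt y k => exact absurd hab id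
      | mk j' =>
        cases c with
        | pt z l => exact absurd hbc id
        | mk j'' => exact le_trans (show j'' ≤ j' from hbc) (show j' ≤ j from hab)
  le_antisymm a b hab hba := by
    cases a with
    | pt x i =>
      cases b with
      | pt y k =>
        have h1 : x ≤ y := le_of_rel hab
        have h2 : y ≤ x := le_of_rel hba
        have h3 : x = y := le_antisymm h1 h2
        have h4 : i = k := by
          by_contra hne
          have hA : i = ⊤ ∨ k = ⊥ := by
            rcases hab with ⟨h, _⟩ | ⟨h, _⟩ | ⟨h, _⟩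
            · exact absurd h hne
            · exact Or.inl h
            · exact Or.inr h
          have hB : k = ⊤ ∨ i = ⊥ := by
            rcases hba with ⟨h, _⟩ | ⟨h, _⟩ | ⟨h, _⟩
            · exact absurd h.symm hne
            · exact Or.inl h
            · exact Or.inr h
          rcases hA with hA | hA <;> rcases hB with hB | hB
          · exact hne (hA.trans hB.symm)
          · rw [hA] at hB; exact absurd hB (by simp)
          · rw [hA] at hB; exact absurd hB (by simp)
          · exact hne (hB.trans hA.symm)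
        rw [h3, h4]
      | mk j => exact absurd hba id
    | mk j =>
      cases b with
      | pt y k => exact absurd hab id
      | mk j' =>
        rw [le_antisymm (show j ≤ j' from hba) (show j' ≤ j from hab)]

theorem pt_le_pt {x y : G} {i k : Lev G} : (Om.pt x i : Om G) ≤ Om.pt y k ↔
    (i = k ∧ x ≤ y) ∨ (i = ⊤ ∧ x ≤ y) ∨ (k = ⊥ ∧ x * shift i ≤ y) := Iff.rfl
theorem pt_le_mk {x : G} {i j : Lev G} : (Om.pt x i : Om G) ≤ Om.mk j ↔ j ≤ i := Iff.rfl
theorem mk_le_pt {x : G} {i j : Lev G} : (Om.mk j : Om G) ≤ Om.pt x i ↔ False := Iff.rfl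
theorem mk_le_mk {j k : Lev G} : (Om.mk j : Om G) ≤ Om.mk k ↔ k ≤ j := Iff.rfl

/-- The action of a group element. -/
def actFun (g : G) : Om G → Om G
  | .pt x i => .pt (g * x) i
  | .mk j => .mk j

theorem actFun_mul (a b : G) (z : Om G) : actFun (a * b) z = actFun a (actFun b z) := by
  cases z with
  | pt x i => simp [actFun, mul_assoc]
  | mk j => rfl

theorem actFun_one (z : Om G) : actFun (1 : G) z = z := by
  cases z with
  | pt x i => simp [actFun]
  | mk j => rfl

theorem actFun_le (g : G) (z w : Om G) : actFun g z ≤ actFun g w ↔ z ≤ w := by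
  cases z with
  | pt x i =>
    cases w with
    | pt y k =>
      simp only [actFun, pt_le_pt, mul_assoc, mul_le_mul_iff_left]
    | mk j => exact Iff.rfl
  | mk j =>
    cases w with
    | pt y k => exact Iff.rfl
    | mk j' => exact Iff.rfl

/-- The automorphism attached to a group element. -/
def act (g : G) : Om G ≃o Om G where
  toFun := actFun g
  invFun := actFun g⁻¹
  left_inv z := by rw [← actFun_mul, inv_mul_cancel, actFun_one]
  right_inv z := by rw [← actFun_mul, mul_inv_cancel, actFun_one]
  map_rel_iff' := by intro a b; exact actFun_le g a b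

theorem acc_mk (j : Lev G) : Acc (fun a b : Om G => b < a) (Om.mk j) := by
  induction j using WellFoundedLT.induction with
  | ind j ih =>
    refine Acc.intro _ (fun z hz => ?_)
    have hz' : Om.mk j < z := hz
    cases z with
    | pt x i => exact absurd hz'.le (by rw [mk_le_pt]; exact id)
    | mk k =>
      apply ih
      rw [lt_iff_le_not_ge, mk_le_mk, mk_le_mk] at hz'
      exact lt_iff_le_not_ge.mpr hz'

theorem not_acc_pt (g : G) (hg : 1 < g) (z : Om G) (hz : Acc (fun a b : Om G => b < a) z) :
    ∀ x i, z ≠ Om.pt x i := by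
  induction hz with
  | intro z _ ih =>
    intro x i hzx
    subst hzx
    refine ih (Om.pt (g * x) i) ?_ (g * x) i rfl
    show Om.pt x i < Om.pt (g * x) i
    refine lt_of_le_of_ne ?_ ?_
    · rw [pt_le_pt]
      exact Or.inl ⟨rfl, le_mul_of_one_le_left' hg.le⟩
    · intro h
      injection h with h1 h2
      have : g = 1 := by
        have := h1.symm
        exact mul_eq_right.mp this
      exact hg.ne' this

theorem acc_iso (e : Om G ≃o Om G) (z : Om G) (hz : Acc (fun a b : Om G => b < a) z) :
    Acc (fun a b : Om G => b < a) (e z) := by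
  induction hz with
  | intro z _ ih =>
    refine Acc.intro _ (fun w hw => ?_)
    have h := ih (e.symm w) (by
      show z < e.symm w
      rw [OrderIso.lt_symm_apply]; exact hw)
    rwa [OrderIso.apply_symm_apply] at h

theorem surj (g : G) (hg : 1 < g) (e : Om G ≃o Om G) : ∃ a : G, act a = e := by
  have hmk : ∀ (e : Om G ≃o Om G) (j : Lev G), ∃ k, e (Om.mk j) = Om.mk k := by
    intro e j
    cases h : e (Om.mk j) with
    | pt x i =>
      exact absurd h (not_acc_pt g hg _ (acc_iso e _ (acc_mk j)) x i)
    | mk k => exact ⟨k, rfl⟩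
  have hfix : ∀ j : Lev G, e (Om.mk j) = Om.mk j := by
    intro j
    induction j using WellFoundedLT.induction with
    | ind j ih =>
      obtain ⟨k, hk⟩ := hmk e j
      obtain ⟨m, hm⟩ := hmk e.symm j
      have hm' : e (Om.mk m) = Om.mk j := by
        rw [← hm, OrderIso.apply_symm_apply]
      rcases lt_trichotomy k j with hlt | heq | hgt
      · have h1 := ih k hlt
        have h2 : e (Om.mk k) = e (Om.mk j) := h1.trans hk.symm
        have h3 := e.injective h2
        injection h3 with h4
        exact absurd h4 hlt.ne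
      · rw [hk, heq]
      · exfalso
        rcases lt_trichotomy m j with h1 | h1 | h1
        · have h2 := ih m h1
          rw [hm'] at h2
          injection h2 with h3
          exact absurd h3 h1.ne'
        · rw [h1, hk] at hm'
          injection hm' with h3
          exact absurd h3 hgt.ne'
        · have h2 : Om.mk m ≤ (Om.mk j : Om G) := mk_le_mk.mpr h1.le
          have h3 : e (Om.mk m) ≤ e (Om.mk j) := e.monotone h2
          rw [hm', hk, mk_le_mk] at h3
          exact absurd h3 (not_le.mpr hgt)
  have hpt : ∀ x i, ∃ y, e (Om.pt x i) = Om.pt y i := by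
    intro x i
    cases h : e (Om.pt x i) with
    | mk k =>
      exfalso
      have h1 : e (Om.pt x i) = e (Om.mk k) := by rw [h, hfix]
      have h2 := e.injective h1
      cases h2
    | pt y k =>
      have h1 : ∀ j : Lev G, j ≤ i ↔ j ≤ k := by
        intro j
        have h2 : Om.pt x i ≤ Om.mk j ↔ e (Om.pt x i) ≤ e (Om.mk j) := (e.le_iff_le).symm
        rw [h, hfix, pt_le_mk, pt_le_mk] at h2
        exact h2
      have h3 : i = k := le_antisymm ((h1 i).mp le_rfl) ((h1 k).mpr le_rfl)
      exact ⟨y, by rw [h3]⟩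
  choose f hf using hpt
  have hsurj : ∀ i y, ∃ x, f x i = y := by
    intro i y
    have h1 : ∀ z : Om G, e z = Om.pt y i → ∃ x, f x i = y := by
      intro z hz
      cases z with
      | mk k =>
        rw [hfix] at hz; cases hz
      | pt x k =>
        rw [hf] at hz
        injection hz with h2 h3
        subst h3
        exact ⟨x, h2⟩
    exact h1 (e.symm (Om.pt y i)) (e.apply_symm_apply _)
  have hrel : ∀ x y i k, (((i : Lev G) = k ∧ x ≤ y) ∨ (i = ⊤ ∧ x ≤ y) ∨ (k = ⊥ ∧ x * shift i ≤ y)) ↔
      (((i : Lev G) = k ∧ f x i ≤ f y k) ∨ (i = ⊤ ∧ f x i ≤ f y k) ∨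
        (k = ⊥ ∧ f x i * shift i ≤ f y k)) := by
    intro x y i k
    rw [← pt_le_pt, ← pt_le_pt, ← hf, ← hf]
    exact (e.le_iff_le).symm
  have htop : ∀ x y (k : Lev G), x ≤ y ↔ f x ⊤ ≤ f y k := by
    intro x y k
    have h := hrel x y ⊤ k
    rw [shift_top, mul_one, mul_one] at h
    constructor
    · intro hxy
      have := h.mp (Or.inr (Or.inl ⟨rfl, hxy⟩))
      rcases this with h1 | h1 | h1
      · exact h1.2
      · exact h1.2
      · exact h1.2
    · intro hxy
      have := h.mpr (Or.inr (Or.inl ⟨rfl, hxy⟩))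
      rcases this with h1 | h1 | h1
      · exact h1.2
      · exact h1.2
      · exact h1.2
  have hsame : ∀ x (k : Lev G), f x k = f x ⊤ := by
    intro x k
    apply le_antisymm
    · obtain ⟨y, hy⟩ := hsurj ⊤ (f x k)
      have h1 : y ≤ x := (htop y x k).mpr (by rw [hy])
      rw [← hy]
      exact (htop y x ⊤).mp h1
    · exact (htop x x k).mp le_rfl
  have hmul : ∀ x s : G, f (x * (s ⊔ 1)) ⊤ = f x ⊤ * (s ⊔ 1) := by
    intro x s
    have h : ∀ y, x * (s ⊔ 1) ≤ y ↔ f x ⊤ * (s ⊔ 1) ≤ f y ⊤ := by
      intro y
      have h := hrel x y (((⟨s⟩ : WO G) : WithTop (WO G)) : Lev G) ⊥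
      rw [shift_coe, hsame x, hsame y] at h
      have e1 : (((((⟨s⟩ : WO G) : WithTop (WO G)) : Lev G)) = ⊥) ↔ False := by
        constructor
        · intro h; exact absurd h (WithBot.coe_ne_bot)
        · exact False.elim
      have e2 : (((((⟨s⟩ : WO G) : WithTop (WO G)) : Lev G)) = ⊤) ↔ False := by
        constructor
        · intro h
          have : (((⟨s⟩ : WO G) : WithTop (WO G))) = ⊤ := by
            exact WithBot.coe_injective h
          exact absurd this (WithTop.coe_ne_top)
        · exact False.elim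
      simpa [e1, e2] using h
    apply le_antisymm
    · obtain ⟨y, hy⟩ := hsurj ⊤ (f x ⊤ * (s ⊔ 1))
      have h1 : x * (s ⊔ 1) ≤ y := (h y).mpr (by rw [hy])
      rw [← hy]
      exact (htop _ _ ⊤).mp h1
    · exact (h _).mp le_rfl
  have hfin : ∀ x, f x ⊤ = f 1 ⊤ * x := by
    intro x
    have h1 := hmul x x⁻¹
    have h2 := hmul 1 x
    rw [mul_sup, mul_inv_cancel, mul_one, sup_comm] at h1
    rw [one_mul] at h2
    rw [h1] at h2
    have h3 : f x ⊤ = f 1 ⊤ * (x ⊔ 1) * (x⁻¹ ⊔ 1)⁻¹ := by
      rw [← h2]; group
    rw [h3, mul_assoc]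
    congr 1
    rw [mul_inv_eq_iff_eq_mul, mul_sup, mul_inv_cancel, mul_one, sup_comm]
  refine ⟨f 1 ⊤, ?_⟩
  ext z
  cases z with
  | mk k => rw [hfix]; rfl
  | pt x i =>
    show Om.pt (f 1 ⊤ * x) i = e (Om.pt x i)
    rw [hf, hsame x, hfin x]

end

/-- Every lattice-ordered group G is isomorphic, as a group and as an ordered set, to the group of order automorphisms of some poset Ω under composition, with automorphisms ordered pointwise. -/
theorem result :
    ∀ (G : Type) [Group G] [Lattice G] [MulLeftMono G] [MulRightMono G],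
      ∃ (Ω : Type) (_ : PartialOrder Ω) (φ : G → (Ω ≃o Ω)),
        Function.Bijective φ ∧
        (∀ a b : G, φ (a * b) = (φ b).trans (φ a)) ∧
        (∀ a b : G, a ≤ b ↔ ∀ x : Ω, φ a x ≤ φ b x) := by
  intro G _ _ _ _
  by_cases hG : ∃ g : G, 1 < g
  · obtain ⟨g, hg⟩ := hG
    refine ⟨Om G, inferInstance, act, ⟨?_, ?_⟩, ?_, ?_⟩
    · intro a b hab
      have h : act a (Om.pt 1 ⊤) = act b (Om.pt 1 ⊤) := by rw [hab]
      have h' : (Om.pt (a * 1) ⊤ : Om G) = Om.pt (b * 1) ⊤ := h
      injection h' with h1 h2
      simpa using h1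
    · intro e
      exact surj g hg e
    · intro a b
      ext z
      exact actFun_mul a b z
    · intro a b
      constructor
      · intro hab z
        cases z with
        | pt x i =>
          show Om.pt (a * x) i ≤ Om.pt (b * x) i
          rw [pt_le_pt]
          exact Or.inl ⟨rfl, mul_le_mul_left hab x⟩
        | mk j => exact le_refl _
      · intro h
        have h1 : (Om.pt (a * 1) ⊤ : Om G) ≤ Om.pt (b * 1) ⊤ := h (Om.pt 1 ⊤)
        have h2 := le_of_rel (pt_le_pt.mp h1)
        simpa using h2
  · have hsub : ∀ a : G, a = 1 := by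
      intro a
      by_contra hne
      apply hG
      by_cases h : a ≤ 1
      · refine ⟨a⁻¹, ?_⟩
        rw [lt_iff_le_and_ne]
        exact ⟨one_le_inv'.mpr h, fun h' => hne (by rw [← inv_inv a, ← h', inv_one])⟩
      · refine ⟨a ⊔ 1, ?_⟩
        rw [lt_iff_le_and_ne]
        exact ⟨le_sup_right, fun h' => h (by rw [h']; exact le_sup_left)⟩
    refine ⟨PUnit, inferInstance, fun _ => OrderIso.refl _, ⟨?_, ?_⟩, ?_, ?_⟩
    · intro a b _
      rw [hsub a, hsub b]
    · intro e
      exact ⟨1, by ext⟩
    · intro a b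
      rfl
    · intro a b
      simp [hsub a, hsub b]

end Pool.Agent.S00603
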