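import Pool.Statements.S00614
-- import your own Pool.Agent.* helpers here

set_option autoImplicit false
open Pool Pool.MP_334071_al

namespace Pool.Agent.S00614

/-! ### The Heisenberg group over a commutative ring -/

/-- Elements of the Heisenberg group over `R`. -/
@[ext] structure Heis (R : Type) where
  x : R
  y : R
  z : R

namespace Heis

variable {R : Type} [CommRing R]

instance : Mul (Heis R) := ⟨fun a b => ⟨a.x + b.x, a.y + b.y, a.z + b.z + a.x * b.y⟩⟩
instance : One (Heis R) := ⟨⟨0, 0, 0⟩⟩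
instance : Inv (Heis R) := ⟨fun a => ⟨-a.x, -a.y, -a.z + a.x * a.y⟩⟩

@[simp] theorem mul_x (a b : Heis R) : (a * b).x = a.x + b.x := rfl
@[simp] theorem mul_y (a b : Heis R) : (a * b).y = a.y + b.y := rfl
@[simp] theorem mul_z (a b : Heis R) : (a * b).z = a.z + b.z + a.x * b.y := rfl
@[simp] theorem one_x : (1 : Heis R).x = 0 := rfl
@[simp] theorem one_y : (1 : Heis R).y = 0 := rfl
@[simp] theorem one_z : (1 : Heis R).z = 0 := rfl
@[simp] theorem inv_x (a : Heis R) : (a⁻¹).x = -a.x := rfl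
@[simp] theorem inv_y (a : Heis R) : (a⁻¹).y = -a.y := rfl
@[simp] theorem inv_z (a : Heis R) : (a⁻¹).z = -a.z + a.x * a.y := rfl

instance : Group (Heis R) :=
  Group.ofLeftAxioms
    (by intro a b c; ext <;> simp <;> ring)
    (by intro a; ext <;> simp)
    (by intro a; ext <;> simp)

theorem pow_eq (a : Heis R) (k : ℕ) :
    a ^ k = ⟨k * a.x, k * a.y, k * a.z + (k.choose 2 : ℕ) * (a.x * a.y)⟩ := by
  induction k with
  | zero => rw [pow_zero]; ext <;> simp
  | succ k ih =>
    rw [pow_succ, ih]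
    have h : (k + 1).choose 2 = k + k.choose 2 := by
      rw [Nat.choose_succ_succ' k 1, Nat.choose_one_right]
    ext
    · simp; ring
    · simp; ring
    · simp only [mul_z, h]; push_cast; ring

end Heis

theorem heis_pow_exponent {l : ℕ} (hl : Odd l) (a : Heis (ZMod (3 * l))) : a ^ (3 * l) = 1 := by
  rw [Heis.pow_eq]
  have h0 : ((3 * l : ℕ) : ZMod (3 * l)) = 0 := ZMod.natCast_self _
  have h1 : (((3 * l).choose 2 : ℕ) : ZMod (3 * l)) = 0 := by
    obtain ⟨j, rfl⟩ := hl
    rw [Nat.choose_two_right]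
    have : 3 * (2 * j + 1) * (3 * (2 * j + 1) - 1) / 2 = 3 * (2 * j + 1) * (3 * j + 1) := by
      have h2 : 3 * (2 * j + 1) - 1 = 2 * (3 * j + 1) := by omega
      rw [h2]
      rw [show 3 * (2 * j + 1) * (2 * (3 * j + 1)) = 2 * (3 * (2 * j + 1) * (3 * j + 1)) by ring]
      exact Nat.mul_div_cancel_left _ (by norm_num)
    rw [this, Nat.cast_mul, h0, zero_mul]
  ext
  · simp only [h0, zero_mul]; rfl
  · simp only [h0, zero_mul]; rfl
  · simp only [h0, h1, zero_mul, add_zero]; rfl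

/-! ### The affine group: translations and an automorphism of order three -/

section Affine

variable (R : Type) [CommRing R]

/-- The automorphism of order three of `R × R`. -/
def W : AddMonoid.End (R × R) where
  toFun v := (-v.2, v.1 - v.2)
  map_zero' := by simp
  map_add' := by
    intro a b
    ext
    · simp; ring
    · simp; ring

theorem W_apply (v : R × R) : W R v = (-v.2, v.1 - v.2) := rfl

theorem W_sum (v : R × R) : W R (W R v) + W R v + v = 0 := by
  simp only [W_apply]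
  refine Prod.ext ?_ ?_
  · show -(v.1 - v.2) + -v.2 + v.1 = 0
    ring
  · show -v.2 - (v.1 - v.2) + (v.1 - v.2) + v.2 = 0
    ring

theorem W_cube_apply (v : R × R) : W R (W R (W R v)) = v := by
  simp only [W_apply]
  refine Prod.ext ?_ ?_
  · show -(-v.2 - (v.1 - v.2)) = v.1
    ring
  · show -(v.1 - v.2) - (-v.2 - (v.1 - v.2)) = v.2
    ring

theorem W_cube : (W R) ^ 3 = 1 := by
  ext v : 1
  show W R (W R (W R v)) = v
  exact W_cube_apply R v

/-- Permutations of the form `v ↦ W^i v + w`. -/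
def Good (g : Equiv.Perm (R × R)) : Prop :=
  ∃ (i : ℕ) (w : R × R), ∀ v, g v = ((W R) ^ i) v + w

theorem good_one : Good R 1 := ⟨0, 0, fun v => by simp⟩

theorem good_mul {g h : Equiv.Perm (R × R)} (hg : Good R g) (hh : Good R h) :
    Good R (g * h) := by
  obtain ⟨i, w, hg⟩ := hg
  obtain ⟨j, w', hh⟩ := hh
  refine ⟨i + j, ((W R) ^ i) w' + w, fun v => ?_⟩
  rw [Equiv.Perm.mul_apply, hg, hh, map_add, pow_add]
  rw [add_assoc]
  rfl

theorem W_pow_three_mul (i : ℕ) (v : R × R) : ((W R) ^ (2 * i)) (((W R) ^ i) v) = v := by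
  have h : (W R) ^ (2 * i) * (W R) ^ i = 1 := by
    rw [← pow_add, show 2 * i + i = 3 * i by ring, pow_mul, W_cube, one_pow]
  exact DFunLike.congr_fun h v

theorem good_inv {g : Equiv.Perm (R × R)} (hg : Good R g) : Good R g⁻¹ := by
  obtain ⟨i, w, hg⟩ := hg
  refine ⟨2 * i, -((W R) ^ (2 * i)) w, fun v => ?_⟩
  obtain ⟨v', rfl⟩ := g.surjective v
  rw [show g⁻¹ (g v') = v' from g.symm_apply_apply v', hg, map_add, W_pow_three_mul,
    add_neg_cancel_right]

/-- A permutation which is a translation. -/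
def IsTrans (g : Equiv.Perm (R × R)) : Prop := ∃ w : R × R, ∀ v, g v = v + w

theorem trans_pow {g : Equiv.Perm (R × R)} {w : R × R} (hg : ∀ v, g v = v + w) (k : ℕ) :
    ∀ v, (g ^ k) v = v + k • w := by
  induction k with
  | zero => intro v; simp
  | succ k ih =>
    intro v
    rw [pow_succ, Equiv.Perm.mul_apply, hg, ih, succ_nsmul]
    abel

theorem W_pow_mod (i : ℕ) : (W R) ^ i = (W R) ^ (i % 3) := by
  conv_lhs => rw [← Nat.div_add_mod i 3, pow_add, pow_mul, W_cube, one_pow, one_mul]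

theorem good_cube {g : Equiv.Perm (R × R)} (hg : Good R g) :
    ∃ w : R × R, (∃ w' : R × R, w = 3 • w') ∧ ∀ v, (g ^ 3) v = v + w := by
  obtain ⟨i, w, hg⟩ := hg
  rw [W_pow_mod] at hg
  have h3 : ∀ v, (g ^ 3) v = g (g (g v)) := fun v => rfl
  have hi : i % 3 < 3 := Nat.mod_lt _ (by norm_num)
  interval_cases hm : i % 3
  · refine ⟨3 • w, ⟨w, rfl⟩, fun v => ?_⟩
    rw [h3, hg, hg, hg]
    simp only [pow_zero, AddMonoid.End.coe_one, id_eq]
    abel
  · refine ⟨0, ⟨0, by simp⟩, fun v => ?_⟩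
    rw [h3, hg, hg, hg]
    simp only [pow_one, map_add, W_cube_apply]
    have := W_sum R w
    rw [add_zero]
    calc v + W R (W R w) + W R w + w = v + (W R (W R w) + W R w + w) := by abel
      _ = v := by rw [this, add_zero]
  · refine ⟨0, ⟨0, by simp⟩, fun v => ?_⟩
    have h2 : ∀ v, ((W R) ^ 2) v = W R (W R v) := fun v => rfl
    rw [h3, hg, hg, hg]
    simp only [h2, map_add, W_cube_apply]
    have := W_sum R w
    rw [add_zero]
    calc v + W R w + W R (W R w) + w = v + (W R (W R w) + W R w + w) := by abel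
      _ = v := by rw [this, add_zero]

/-- The linear permutation. -/
def S : Equiv.Perm (R × R) where
  toFun := W R
  invFun v := W R (W R v)
  left_inv v := W_cube_apply R v
  right_inv v := W_cube_apply R v

/-- The affine permutation of order three. -/
def T : Equiv.Perm (R × R) where
  toFun v := W R v + (1, 0)
  invFun v := W R (W R (v - (1, 0)))
  left_inv v := by
    show W R (W R (W R v + (1, 0) - (1, 0))) = v
    rw [add_sub_cancel_right, W_cube_apply]
  right_inv v := by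
    show W R (W R (W R (v - (1, 0)))) + (1, 0) = v
    rw [W_cube_apply, sub_add_cancel]

theorem good_S : Good R (S R) := ⟨1, 0, fun v => by simp [S]⟩

theorem good_T : Good R (T R) := ⟨1, (1, 0), fun v => by simp [T]⟩

/-- The homomorphism from the free group. -/
def Psi : FreeGroup (Fin 2) →* Equiv.Perm (R × R) := FreeGroup.lift ![S R, T R]

theorem good_Psi (g : FreeGroup (Fin 2)) : Good R (Psi R g) := by
  induction g using FreeGroup.induction_on with
  | C1 => rw [map_one]; exact good_one R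
  | of i =>
    fin_cases i
    · simp [Psi, good_S]
    · simp [Psi, good_T]
  | inv_of i _ =>
    rw [map_inv]
    apply good_inv
    fin_cases i
    · simp [Psi, good_S]
    · simp [Psi, good_T]
  | mul x y hx hy => rw [map_mul]; exact good_mul R hx hy

end Affine

theorem perm_pow_exponent {l : ℕ} {g : Equiv.Perm (ZMod (3 * l) × ZMod (3 * l))}
    (hg : Good (ZMod (3 * l)) g) : g ^ (3 * l) = 1 := by
  obtain ⟨w, ⟨w', rfl⟩, h⟩ := good_cube _ hg
  ext1 v
  rw [pow_mul, trans_pow _ h, ← mul_nsmul]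
  have h0 : ((3 * l : ℕ) : ZMod (3 * l)) = 0 := ZMod.natCast_self _
  have : (3 * l) • w' = 0 := by
    refine Prod.ext ?_ ?_
    · show (3 * l) • w'.1 = 0
      rw [nsmul_eq_mul, h0, zero_mul]
    · show (3 * l) • w'.2 = 0
      rw [nsmul_eq_mul, h0, zero_mul]
  rw [this, add_zero]
  rfl


/-! ### The main argument -/

/-- The free Burnside group of rank two and exponent `n`. -/
abbrev B (n : ℕ) : Type :=
  FreeGroup (Fin 2) ⧸ Subgroup.normalClosure (Set.range (fun g : FreeGroup (Fin 2) => g ^ n))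

/-- The Burnside `n`-product of two cyclic groups. -/
abbrev P (n r r' : ℕ) : Type :=
  FreeGroup (Fin 2) ⧸ Subgroup.normalClosure
    (({FreeGroup.of (0 : Fin 2) ^ r, FreeGroup.of (1 : Fin 2) ^ r'} : Set (FreeGroup (Fin 2))) ∪
      Set.range (fun g : FreeGroup (Fin 2) => g ^ n))

theorem B_pow {n : ℕ} (g : B n) : g ^ n = 1 := by
  obtain ⟨w, rfl⟩ := QuotientGroup.mk_surjective g
  rw [← QuotientGroup.mk_pow, QuotientGroup.eq_one_iff]
  exact Subgroup.subset_normalClosure ⟨w, rfl⟩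

section Main

variable {l : ℕ}

/-- The induced homomorphism on the Burnside group. -/
def PsiB (l : ℕ) : B (3 * l) →* Equiv.Perm (ZMod (3 * l) × ZMod (3 * l)) :=
  QuotientGroup.lift _ (Psi (ZMod (3 * l))) (by
    intro w hw
    have h : Subgroup.normalClosure (Set.range fun g : FreeGroup (Fin 2) => g ^ (3 * l)) ≤
        (Psi (ZMod (3 * l))).ker := by
      apply Subgroup.normalClosure_le_normal
      rintro _ ⟨g, rfl⟩
      rw [SetLike.mem_coe, MonoidHom.mem_ker, map_pow]
      exact perm_pow_exponent (good_Psi _ g)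
    exact h hw)

/-- The two elements of order three. -/
def s (l : ℕ) : B (3 * l) := (QuotientGroup.mk (FreeGroup.of 0) : B (3 * l)) ^ l
def t (l : ℕ) : B (3 * l) := (QuotientGroup.mk (FreeGroup.of 1) : B (3 * l)) ^ l

theorem s_cube : s l ^ 3 = 1 := by
  rw [s, ← pow_mul, mul_comm]
  exact B_pow _

theorem t_cube : t l ^ 3 = 1 := by
  rw [t, ← pow_mul, mul_comm]
  exact B_pow _

/-- The two generators of the subgroup. -/
def a (l : ℕ) : B (3 * l) := s l * (t l)⁻¹
def b (l : ℕ) : B (3 * l) := (t l)⁻¹ * s l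

/-- In a group with `s ^ 3 = t ^ 3 = 1`, a commutator of `s t⁻¹` and `t⁻¹ s` is a cube. -/
theorem comm_eq_cube {G : Type*} [Group G] (s t : G) (hs : s ^ 3 = 1) (ht : t ^ 3 = 1) :
    (t⁻¹ * s)⁻¹ * (s * t⁻¹) * (t⁻¹ * s) * (s * t⁻¹)⁻¹ = (s⁻¹ * t * s⁻¹) ^ 3 := by
  have key : ∀ u : G, u ^ 3 = 1 → u⁻¹ * u⁻¹ = u := by
    intro u hu
    calc u⁻¹ * u⁻¹ = u⁻¹ * u⁻¹ * u ^ 3 := by rw [hu, mul_one]
      _ = u := by group
  have hs' := key s hs
  have ht' := key t ht
  have h1 : (t⁻¹ * s)⁻¹ * (s * t⁻¹) * (t⁻¹ * s) * (s * t⁻¹)⁻¹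
      = s⁻¹ * t * s * (t⁻¹ * t⁻¹) * s * t * s⁻¹ := by group
  have h2 : (s⁻¹ * t * s⁻¹) ^ 3 = s⁻¹ * t * (s⁻¹ * s⁻¹) * t * (s⁻¹ * s⁻¹) * t * s⁻¹ := by
    simp only [pow_succ, pow_zero, one_mul, mul_assoc]
  rw [h1, h2, hs', ht']

theorem comm_pow : ((b l)⁻¹ * a l * b l * (a l)⁻¹) ^ l = 1 := by
  rw [a, b, comm_eq_cube _ _ s_cube t_cube, ← pow_mul]
  exact B_pow _

theorem PsiB_mk (w : FreeGroup (Fin 2)) :
    PsiB l (QuotientGroup.mk w) = Psi (ZMod (3 * l)) w := rfl

theorem S_pow (R : Type) [CommRing R] {k : ℕ} (hk : k % 3 = 1) : (S R) ^ k = S R := by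
  have h : (S R) ^ 3 = 1 := by
    ext1 v
    exact W_cube_apply _ v
  obtain ⟨j, rfl⟩ : ∃ j, k = 3 * j + 1 := ⟨k / 3, by omega⟩
  rw [pow_add, pow_mul, h, one_pow, one_mul, pow_one]

theorem T_pow (R : Type) [CommRing R] {k : ℕ} (hk : k % 3 = 1) : (T R) ^ k = T R := by
  have h : (T R) ^ 3 = 1 := by
    ext1 v
    show W R (W R (W R v + (1, 0)) + (1, 0)) + (1, 0) = v
    rw [map_add, map_add, map_add, W_cube_apply]
    have := W_sum R (1, 0)
    calc v + W R (W R (1, 0)) + W R (1, 0) + (1, 0)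
        = v + (W R (W R (1, 0)) + W R (1, 0) + (1, 0)) := by abel
      _ = v := by rw [this, add_zero]
  obtain ⟨j, rfl⟩ : ∃ j, k = 3 * j + 1 := ⟨k / 3, by omega⟩
  rw [pow_add, pow_mul, h, one_pow, one_mul, pow_one]

theorem PsiB_s (hl : l % 3 = 1) : PsiB l (s l) = S (ZMod (3 * l)) := by
  rw [s, map_pow, PsiB_mk, Psi, FreeGroup.lift_apply_of]
  exact S_pow _ hl

theorem PsiB_t (hl : l % 3 = 1) : PsiB l (t l) = T (ZMod (3 * l)) := by
  rw [t, map_pow, PsiB_mk, Psi, FreeGroup.lift_apply_of]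
  exact T_pow _ hl

theorem PsiB_a (hl : l % 3 = 1) (v : ZMod (3 * l) × ZMod (3 * l)) :
    PsiB l (a l) v = v + (-1, 0) := by
  rw [a, map_mul, map_inv, PsiB_s hl, PsiB_t hl]
  show W _ (W _ (W _ (v - (1, 0)))) = _
  rw [W_cube_apply]
  refine Prod.ext ?_ ?_
  · show v.1 - 1 = v.1 + -1
    ring
  · show v.2 - 0 = v.2 + 0
    ring

theorem PsiB_b (hl : l % 3 = 1) (v : ZMod (3 * l) × ZMod (3 * l)) :
    PsiB l (b l) v = v + (1, 1) := by
  rw [b, map_mul, map_inv, PsiB_s hl, PsiB_t hl]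
  show W _ (W _ (W _ v - (1, 0))) = _
  rw [map_sub, map_sub, W_cube_apply]
  simp only [W_apply]
  refine Prod.ext ?_ ?_
  · show v.1 - -(1 - 0) = v.1 + 1
    ring
  · show v.2 - (-0 - (1 - 0)) = v.2 + 1
    ring

/-- The subgroup generated by the two elements. -/
abbrev H (l : ℕ) : Subgroup (B (3 * l)) := Subgroup.closure {a l, b l}

theorem H_trans (hl : l % 3 = 1) (h : B (3 * l)) (hh : h ∈ H l) :
    ∃ w : ZMod (3 * l) × ZMod (3 * l), ∀ v, PsiB l h v = v + w := by
  induction hh using Subgroup.closure_induction with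
  | mem x hx =>
    rcases hx with rfl | hx
    · exact ⟨_, PsiB_a hl⟩
    · rw [Set.mem_singleton_iff] at hx
      rw [hx]
      exact ⟨_, PsiB_b hl⟩
  | one => exact ⟨0, fun v => by rw [map_one, add_zero]; rfl⟩
  | mul x y _ _ hx hy =>
    obtain ⟨w, hw⟩ := hx
    obtain ⟨w', hw'⟩ := hy
    refine ⟨w' + w, fun v => ?_⟩
    rw [map_mul, Equiv.Perm.mul_apply, hw', hw, add_assoc]
  | inv x _ hx =>
    obtain ⟨w, hw⟩ := hx
    refine ⟨-w, fun v => ?_⟩
    rw [map_inv, Equiv.Perm.inv_eq_iff_eq, hw, neg_add_cancel_right]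

/-- The translation homomorphism on the subgroup `H`. -/
def pi (hl : l % 3 = 1) : H l →* Multiplicative (ZMod (3 * l) × ZMod (3 * l)) where
  toFun h := Multiplicative.ofAdd (PsiB l (h : B (3 * l)) 0)
  map_one' := by
    show Multiplicative.ofAdd (PsiB l (1 : B (3 * l)) 0) = 1
    rw [map_one]
    rfl
  map_mul' x y := by
    obtain ⟨w, hw⟩ := H_trans hl x x.2
    obtain ⟨w', hw'⟩ := H_trans hl y y.2
    show Multiplicative.ofAdd (PsiB l ((x : B (3 * l)) * (y : B (3 * l))) 0) =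
      Multiplicative.ofAdd (PsiB l (x : B (3 * l)) 0 + PsiB l (y : B (3 * l)) 0)
    rw [map_mul, Equiv.Perm.mul_apply, hw', hw, hw]
    congr 1
    abel

end Main

/-! ### Two-generated groups mapping to `R × R` -/

theorem det_unit_aux {R : Type} [CommRing R] {p q p' q' : R} {i j i' j' : R}
    (h1 : i * p + j * p' = 1) (h2 : i * q + j * q' = 0)
    (h4 : i' * q + j' * q' = 1) {c : R}
    (hc : c * (p * q' - p' * q) = 0) : c = 0 := by
  have : (i * j' - j * i') * (p * q' - p' * q) = 1 := by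
    linear_combination (i' * q + j' * q') * h1 - (i' * p + j' * p') * h2 + h4
  calc c = c * ((i * j' - j * i') * (p * q' - p' * q)) := by rw [this, mul_one]
    _ = (i * j' - j * i') * (c * (p * q' - p' * q)) := by ring
    _ = 0 := by rw [hc, mul_zero]

theorem combos {R : Type} [CommRing R] (f : FreeGroup (Fin 2) →* Multiplicative (R × R))
    (w : FreeGroup (Fin 2)) :
    ∃ i j : ℤ, Multiplicative.toAdd (f w) =
      i • Multiplicative.toAdd (f (FreeGroup.of 0)) +
      j • Multiplicative.toAdd (f (FreeGroup.of 1)) := by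
  induction w using FreeGroup.induction_on with
  | C1 => exact ⟨0, 0, by rw [map_one]; simp⟩
  | of k =>
    fin_cases k
    · exact ⟨1, 0, by simp⟩
    · exact ⟨0, 1, by simp⟩
  | inv_of k _ =>
    fin_cases k
    · exact ⟨-1, 0, by simp⟩
    · exact ⟨0, -1, by simp⟩
  | mul x y hx hy =>
    obtain ⟨i, j, h⟩ := hx
    obtain ⟨i', j', h'⟩ := hy
    refine ⟨i + i', j + j', ?_⟩
    rw [map_mul, toAdd_mul, h, h', add_smul, add_smul]
    abel

/-- If the images of the two free generators generate `R × R`, then the determinant of these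
images is not a zero divisor. -/
theorem det_cancel {R : Type} [CommRing R] (f : FreeGroup (Fin 2) →* Multiplicative (R × R))
    {w w' : FreeGroup (Fin 2)} (hw : Multiplicative.toAdd (f w) = (1, 0))
    (hw' : Multiplicative.toAdd (f w') = (0, 1)) {c : R}
    (hc : c * ((Multiplicative.toAdd (f (FreeGroup.of 0))).1 *
        (Multiplicative.toAdd (f (FreeGroup.of 1))).2 -
      (Multiplicative.toAdd (f (FreeGroup.of 1))).1 *
        (Multiplicative.toAdd (f (FreeGroup.of 0))).2) = 0) : c = 0 := by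
  obtain ⟨i, j, h⟩ := combos f w
  obtain ⟨i', j', h'⟩ := combos f w'
  rw [hw] at h
  rw [hw'] at h'
  set u := Multiplicative.toAdd (f (FreeGroup.of 0))
  set v := Multiplicative.toAdd (f (FreeGroup.of 1))
  have e1 := congrArg Prod.fst h
  have e2 := congrArg Prod.snd h
  have e4 := congrArg Prod.snd h'
  simp only [Prod.fst_add, Prod.snd_add, Prod.smul_fst, Prod.smul_snd, zsmul_eq_mul] at e1 e2 e4
  exact det_unit_aux (i := (i : R)) (j := (j : R)) (i' := (i' : R)) (j' := (j' : R))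
    e1.symm e2.symm e4.symm hc

/-- The projection of the Heisenberg group to `R × R`. -/
def proj (R : Type) [CommRing R] : Heis R →* Multiplicative (R × R) where
  toFun g := Multiplicative.ofAdd (g.x, g.y)
  map_one' := rfl
  map_mul' _ _ := rfl

theorem main {l : ℕ} (hl : l % 3 = 1) (hodd : Odd l) (r r' : ℕ)
    (φ : H l ≃* P (3 * l) r r') : False := by
  have hl0 : 0 < l := by omega
  -- the free group maps onto `H l`
  have ha : a l ∈ H l := Subgroup.subset_closure (by simp)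
  have hb : b l ∈ H l := Subgroup.subset_closure (by simp)
  let η : FreeGroup (Fin 2) →* H l := FreeGroup.lift ![⟨a l, ha⟩, ⟨b l, hb⟩]
  have hη0 : η (FreeGroup.of 0) = ⟨a l, ha⟩ := by simp [η]
  have hη1 : η (FreeGroup.of 1) = ⟨b l, hb⟩ := by simp [η]
  have hη : Function.Surjective η := by
    rintro ⟨h, hh⟩
    have hle : H l ≤ ((H l).subtype.comp η).range := by
      rw [Subgroup.closure_le]
      rintro x (rfl | hx)
      · exact ⟨FreeGroup.of 0, by rw [MonoidHom.comp_apply, hη0]; rfl⟩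
      · rw [Set.mem_singleton_iff] at hx
        rw [hx]
        exact ⟨FreeGroup.of 1, by rw [MonoidHom.comp_apply, hη1]; rfl⟩
    obtain ⟨w, hw⟩ := hle hh
    exact ⟨w, Subtype.ext hw⟩
  -- step one
  let q : FreeGroup (Fin 2) →* P (3 * l) r r' := QuotientGroup.mk' _
  have hq : Function.Surjective q := QuotientGroup.mk'_surjective _
  let F1 : FreeGroup (Fin 2) →* Multiplicative (ZMod (3 * l) × ZMod (3 * l)) :=
    ((pi hl).comp φ.symm.toMonoidHom).comp q
  have hF1 : ∀ w, F1 w = pi hl (φ.symm (q w)) := fun w => rfl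
  obtain ⟨w0, hw0⟩ := hq (φ (⟨a l, ha⟩⁻¹))
  obtain ⟨w1, hw1⟩ := hq (φ (⟨a l, ha⟩ * ⟨b l, hb⟩))
  have hpa : Multiplicative.toAdd (pi hl ⟨a l, ha⟩) = (-1, 0) := by
    show PsiB l (a l) 0 = _
    rw [PsiB_a hl, zero_add]
  have hpb : Multiplicative.toAdd (pi hl ⟨b l, hb⟩) = (1, 1) := by
    show PsiB l (b l) 0 = _
    rw [PsiB_b hl, zero_add]
  have e0 : Multiplicative.toAdd (F1 w0) = (1, 0) := by
    rw [hF1, hw0, MulEquiv.symm_apply_apply, map_inv, toAdd_inv, hpa]
    simp
  have e1 : Multiplicative.toAdd (F1 w1) = (0, 1) := by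
    rw [hF1, hw1, MulEquiv.symm_apply_apply, map_mul, toAdd_mul, hpa, hpb]
    simp
  have hr0 : q (FreeGroup.of 0 ^ r) = 1 := by
    show (QuotientGroup.mk (FreeGroup.of 0 ^ r) : P (3 * l) r r') = 1
    rw [QuotientGroup.eq_one_iff]
    exact Subgroup.subset_normalClosure (by simp)
  have hr1 : q (FreeGroup.of 1 ^ r') = 1 := by
    show (QuotientGroup.mk (FreeGroup.of 1 ^ r') : P (3 * l) r r') = 1
    rw [QuotientGroup.eq_one_iff]
    exact Subgroup.subset_normalClosure (by simp)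
  have f0 : r • Multiplicative.toAdd (F1 (FreeGroup.of 0)) = 0 := by
    rw [← toAdd_pow, ← map_pow, hF1, hr0, map_one, map_one, toAdd_one]
  have f1 : r' • Multiplicative.toAdd (F1 (FreeGroup.of 1)) = 0 := by
    rw [← toAdd_pow, ← map_pow, hF1, hr1, map_one, map_one, toAdd_one]
  have hrz : (r : ZMod (3 * l)) = 0 := by
    apply det_cancel F1 e0 e1
    have g1 : r • (Multiplicative.toAdd (F1 (FreeGroup.of 0))).1 = 0 := congrArg Prod.fst f0
    have g2 : r • (Multiplicative.toAdd (F1 (FreeGroup.of 0))).2 = 0 := congrArg Prod.snd f0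
    rw [nsmul_eq_mul] at g1 g2
    linear_combination (Multiplicative.toAdd (F1 (FreeGroup.of 1))).2 * g1 -
      (Multiplicative.toAdd (F1 (FreeGroup.of 1))).1 * g2
  have hrz' : (r' : ZMod (3 * l)) = 0 := by
    apply det_cancel F1 e0 e1
    have g1 : r' • (Multiplicative.toAdd (F1 (FreeGroup.of 1))).1 = 0 := congrArg Prod.fst f1
    have g2 : r' • (Multiplicative.toAdd (F1 (FreeGroup.of 1))).2 = 0 := congrArg Prod.snd f1
    rw [nsmul_eq_mul] at g1 g2
    linear_combination (Multiplicative.toAdd (F1 (FreeGroup.of 0))).1 * g2 -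
      (Multiplicative.toAdd (F1 (FreeGroup.of 0))).2 * g1
  -- step two: the map to the Heisenberg group
  let X : Heis (ZMod (3 * l)) := ⟨1, 0, 0⟩
  let Y : Heis (ZMod (3 * l)) := ⟨0, 1, 0⟩
  let θ : FreeGroup (Fin 2) →* Heis (ZMod (3 * l)) := FreeGroup.lift ![X, Y]
  have hθ : Subgroup.normalClosure
      (({FreeGroup.of (0 : Fin 2) ^ r, FreeGroup.of (1 : Fin 2) ^ r'} :
        Set (FreeGroup (Fin 2))) ∪
      Set.range (fun g : FreeGroup (Fin 2) => g ^ (3 * l))) ≤ θ.ker := by
    apply Subgroup.normalClosure_le_normal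
    rintro x ((rfl | hx) | ⟨g, rfl⟩)
    · rw [SetLike.mem_coe, MonoidHom.mem_ker, map_pow, FreeGroup.lift_apply_of, Heis.pow_eq]
      ext <;> simp [X, hrz]
    · rw [Set.mem_singleton_iff] at hx
      rw [hx, SetLike.mem_coe, MonoidHom.mem_ker, map_pow, FreeGroup.lift_apply_of, Heis.pow_eq]
      ext <;> simp [Y, hrz']
    · rw [SetLike.mem_coe, MonoidHom.mem_ker, map_pow]
      exact heis_pow_exponent hodd _
  let Θ : P (3 * l) r r' →* Heis (ZMod (3 * l)) := QuotientGroup.lift _ θ (fun w hw => hθ hw)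
  have hΘ : ∀ w, Θ (q w) = θ w := fun w => rfl
  let f : H l →* Heis (ZMod (3 * l)) := Θ.comp φ.toMonoidHom
  have hf : ∀ h, f h = Θ (φ h) := fun h => rfl
  let F2 : FreeGroup (Fin 2) →* Multiplicative (ZMod (3 * l) × ZMod (3 * l)) :=
    ((proj _).comp f).comp η
  have hF2 : ∀ w, F2 w = proj _ (Θ (φ (η w))) := fun w => rfl
  obtain ⟨v0, hv0⟩ := hη (φ.symm (q (FreeGroup.of 0)))
  obtain ⟨v1, hv1⟩ := hη (φ.symm (q (FreeGroup.of 1)))
  have k0 : Multiplicative.toAdd (F2 v0) = (1, 0) := by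
    rw [hF2, hv0, MulEquiv.apply_symm_apply, hΘ]
    simp [θ, X, proj]
  have k1 : Multiplicative.toAdd (F2 v1) = (0, 1) := by
    rw [hF2, hv1, MulEquiv.apply_symm_apply, hΘ]
    simp [θ, Y, proj]
  have hcomm : ((⟨b l, hb⟩ : H l)⁻¹ * ⟨a l, ha⟩ * ⟨b l, hb⟩ * (⟨a l, ha⟩ : H l)⁻¹) ^ l = 1 :=
    Subtype.ext comm_pow
  have hcomm2 := congrArg f hcomm
  rw [map_pow, map_mul, map_mul, map_mul, map_inv, map_inv, map_one] at hcomm2
  have m0 : F2 (FreeGroup.of 0) = proj _ (f ⟨a l, ha⟩) := by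
    show proj _ (f (η (FreeGroup.of 0))) = _
    rw [hη0]
  have m1 : F2 (FreeGroup.of 1) = proj _ (f ⟨b l, hb⟩) := by
    show proj _ (f (η (FreeGroup.of 1))) = _
    rw [hη1]
  have hlz : (l : ZMod (3 * l)) = 0 := by
    apply det_cancel F2 k0 k1
    rw [m0, m1]
    show (l : ZMod (3 * l)) * ((f ⟨a l, ha⟩).x * (f ⟨b l, hb⟩).y -
      (f ⟨b l, hb⟩).x * (f ⟨a l, ha⟩).y) = 0
    have hz := congrArg Heis.z hcomm2
    rw [Heis.pow_eq] at hz
    simp only [Heis.mul_x, Heis.mul_y, Heis.mul_z, Heis.inv_x, Heis.inv_y, Heis.inv_z,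
      Heis.one_z] at hz
    linear_combination hz
  rw [ZMod.natCast_eq_zero_iff] at hlz
  have := Nat.le_of_dvd hl0 hlz
  omega

/-- The negation of the preceding statement: For all sufficiently large odd n and every rank m, each subgroup of the free Burnside group B(m,n) generated by two elements is isomorphic to the free product of two cyclic groups modulo all n-th powers. -/
theorem result :
    ¬ (∃ N : ℕ, ∀ n : ℕ, Odd n → N ≤ n → ∀ m : ℕ,
      ∀ x y : FreeGroup (Fin m) ⧸
          Subgroup.normalClosure (Set.range (fun g : FreeGroup (Fin m) => g ^ n)),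
        ∃ a b : ℕ,
          Nonempty
            (↥(Subgroup.closure
                ({x, y} : Set (FreeGroup (Fin m) ⧸
                  Subgroup.normalClosure (Set.range (fun g : FreeGroup (Fin m) => g ^ n)))))
              ≃* (FreeGroup (Fin 2) ⧸
                  Subgroup.normalClosure
                    (({FreeGroup.of (0 : Fin 2) ^ a, FreeGroup.of (1 : Fin 2) ^ b} :
                        Set (FreeGroup (Fin 2))) ∪
                      Set.range (fun g : FreeGroup (Fin 2) => g ^ n))))) := by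
  rintro ⟨N, hN⟩
  obtain ⟨r, r', ⟨φ⟩⟩ := hN (3 * (6 * N + 1)) (by rw [Nat.odd_iff]; omega) (by omega) 2
    (a (6 * N + 1)) (b (6 * N + 1))
  exact main (l := 6 * N + 1) (by omega) (by rw [Nat.odd_iff]; omega) r r' φ

end Pool.Agent.S00614
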