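import Pool.Statements.S00622
import Pool.Agent.Helper6.PLFinal

set_option autoImplicit false
open Pool Pool.MP_345b41_al

namespace Pool.Agent.S00622

/-- The negation of the preceding statement: Every countable lattice-ordered group H (order invariant under multiplication on both sides) admits an abelian lattice-ordered group G and an order isomorphism, hence a lattice isomorphism, from H onto G. -/
theorem result :
    ¬ (∀ (H : Type) [Group H] [Lattice H] [MulLeftMono H] [MulRightMono H] [Countable H],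
      ∃ (G : Type) (_ : CommGroup G) (_ : Lattice G),
        MulLeftMono G ∧ Nonempty (H ≃o G)) := by
  intro h
  obtain ⟨f, g, hfg⟩ := Pool.Agent.Helper6.PLHomeo.comp_not_comm
  let _ : Group Pool.Agent.Helper6.PLHomeo.L := Pool.Agent.Helper6.PLHomeo.compGroup
  have m1 : MulLeftMono Pool.Agent.Helper6.PLHomeo.L :=
    ⟨fun c a b hab => (Pool.Agent.Helper6.PLHomeo.compGroup_compat a b c hab).1⟩
  have m2 : MulRightMono Pool.Agent.Helper6.PLHomeo.L :=
    ⟨fun c a b hab => (Pool.Agent.Helper6.PLHomeo.compGroup_compat a b c hab).2⟩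
  obtain ⟨G, cg, lat, hm, ⟨ψ⟩⟩ := h Pool.Agent.Helper6.PLHomeo.L
  let K : Group Pool.Agent.Helper6.PLHomeo.L := ψ.toEquiv.group
  have Kmul : ∀ a b, K.mul a b = ψ.symm (ψ a * ψ b) := fun _ _ => rfl
  have hK : Pool.Agent.Helper6.PLHomeo.Compat K := by
    intro a b c hab
    have h1 : ψ a ≤ ψ b := ψ.monotone hab
    have h2 : ψ c * ψ a ≤ ψ c * ψ b := mul_le_mul_right h1 (ψ c)
    refine ⟨?_, ?_⟩
    · rw [Kmul, Kmul]; exact ψ.symm.monotone h2
    · rw [Kmul, Kmul, mul_comm (ψ a), mul_comm (ψ b)]; exact ψ.symm.monotone h2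
  obtain ⟨φ, hφ⟩ := Pool.Agent.Helper6.PLHomeo.main K hK
  apply hfg
  apply φ.injective
  rw [hφ, hφ, Kmul, Kmul, mul_comm]

end Pool.Agent.S00622
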