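import Pool.Statements.S00637
import Pool.Agent.Helper895.AltFree

set_option autoImplicit false
open Pool Pool.MP_3628ce_al

namespace Pool.Agent.S00637

/-- In the free non-associative ring on 3 generators modulo the congruence generated by the laws (aa)b=a(ab) and (ba)a=b(aa), if n times f is zero for some positive n then f is zero; i.e. the free alternative ring on 3 generators is torsion-free. -/
theorem result :
    ∀ (f : MonoidAlgebra ℤ (FreeMagma (Fin 3))) (n : ℕ), 0 < n →
      RingConGen.Rel
        (fun (p q : MonoidAlgebra ℤ (FreeMagma (Fin 3))) =>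
          ∃ a b : MonoidAlgebra ℤ (FreeMagma (Fin 3)),
            (p = (a * a) * b ∧ q = a * (a * b)) ∨ (p = (b * a) * a ∧ q = b * (a * a)))
        (n • f) 0 →
      RingConGen.Rel
        (fun (p q : MonoidAlgebra ℤ (FreeMagma (Fin 3))) =>
          ∃ a b : MonoidAlgebra ℤ (FreeMagma (Fin 3)),
            (p = (a * a) * b ∧ q = a * (a * b)) ∨ (p = (b * a) * a ∧ q = b * (a * a)))
        f 0 := by
  intro f n hn h
  have hc := Pool.Agent.Helper895.Alt.isAltCon_gen
  set c := ringConGen (fun (p q : MonoidAlgebra ℤ (FreeMagma (Fin 3))) =>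
    ∃ a b : MonoidAlgebra ℤ (FreeMagma (Fin 3)),
      (p = (a * a) * b ∧ q = a * (a * b)) ∨ (p = (b * a) * a ∧ q = b * (a * a))) with hcdef
  have h1 : ((n • f : MonoidAlgebra ℤ (FreeMagma (Fin 3))) : c.Quotient)
      = ((0 : MonoidAlgebra ℤ (FreeMagma (Fin 3))) : c.Quotient) := (RingCon.eq c).mpr h
  have h2 : n • (f : c.Quotient) = 0 := h1
  have h3 : (f : c.Quotient) = ((0 : MonoidAlgebra ℤ (FreeMagma (Fin 3))) : c.Quotient) := by
    apply Pool.Agent.Helper895.Alt.free_kernel hc
    · have h4 := congrArg (Pool.Agent.Helper895.Alt.evC hc Pool.Agent.Helper895.Alt.let3) h2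
      rw [map_nsmul, map_zero] at h4
      exact (smul_eq_zero.mp h4).resolve_left hn.ne'
    · intro p
      have h4 := congrArg
        (Pool.Agent.Helper895.Alt.evC hc (Pool.Agent.Helper895.Alt.fam p)) h2
      rw [map_nsmul, map_zero] at h4
      exact Pool.Agent.Helper895.Alt.Oct.nsmul_eq_zero hn h4
  exact (RingCon.eq c).mp h3

end Pool.Agent.S00637
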