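import Pool.Statements.S00639
import Pool.Agent.Helper619.Final

set_option autoImplicit false
open Pool Pool.MP_36a0ac_al

namespace Pool.Agent.S00639

/-- There is a field K and a Lie algebra over K that is not generated by any finite set, yet every proper Lie subalgebra of it is finite-dimensional over K. -/
theorem result :
    ∃ (K : Type) (_ : Field K) (L : Type) (_ : LieRing L) (_ : LieAlgebra K L),
      (¬ ∃ s : Set L, s.Finite ∧ LieSubalgebra.lieSpan K L s = ⊤) ∧
      ∀ H : LieSubalgebra K L, H ≠ ⊤ → FiniteDimensional K H := by
  exact ⟨Helper619.Es Helper619.FF 0, inferInstance, Helper619.LL Helper619.FF, inferInstance,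
    inferInstance, Helper619.main_not_fg, Helper619.main_fd⟩

end Pool.Agent.S00639
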