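import Pool.Statements.S00644

set_option autoImplicit false
open Pool Pool.MP_36bee5_al

namespace Pool.Agent.S00644

open MvPolynomial

noncomputable section

/-- Coefficient ring `ℚ[x,z]`. -/
abbrev A : Type := MvPolynomial (Fin 2) ℚ

/-- `A[y]/(y^2+x^2)`. -/
abbrev B : Type := QuadraticAlgebra A (-(X 0) ^ 2 : A) 0

/-- `B[t]/(t^2+z^2)`. -/
abbrev C4 : Type := QuadraticAlgebra B (⟨-(X 1) ^ 2, 0⟩ : B) 0

abbrev S : Type := MvPolynomial (Fin 4) ℚ

def xC : C4 := ⟨⟨X 0, 0⟩, ⟨0, 0⟩⟩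
def yC : C4 := ⟨⟨0, 1⟩, ⟨0, 0⟩⟩
def zC : C4 := ⟨⟨X 1, 0⟩, ⟨0, 0⟩⟩
def tC : C4 := ⟨⟨0, 0⟩, ⟨1, 0⟩⟩

def phi : S →+* C4 := eval₂Hom (algebraMap ℚ C4) ![xC, yC, zC, tC]

def iota : A →ₐ[ℚ] S := aeval ![X 0, X 2]

def psi (r : C4) : S :=
  iota r.re.re + iota r.re.im * X 1 + iota r.im.re * X 3 + iota r.im.im * (X 1 * X 3)

def J : Ideal S := Ideal.span {X 0 ^ 2 + X 1 ^ 2, X 2 ^ 2 + X 3 ^ 2}

lemma psi_add (r s : C4) : psi (r + s) = psi r + psi s := by
  simp [psi]; ring

lemma iota_X0 : iota (X 0) = X 0 := by simp [iota]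
lemma iota_X1 : iota (X 1) = X 2 := by simp [iota]

lemma phi_X0 : phi (X 0) = xC := by simp [phi]
lemma phi_X1 : phi (X 1) = yC := by simp [phi]
lemma phi_X2 : phi (X 2) = zC := by simp [phi]
lemma phi_X3 : phi (X 3) = tC := by simp [phi]

lemma mul_x (r : C4) : r * xC = ⟨⟨r.re.re * X 0, r.re.im * X 0⟩, ⟨r.im.re * X 0, r.im.im * X 0⟩⟩ := by
  ext <;> simp [xC]

lemma mul_z (r : C4) : r * zC = ⟨⟨r.re.re * X 1, r.re.im * X 1⟩, ⟨r.im.re * X 1, r.im.im * X 1⟩⟩ := by
  ext <;> simp [zC]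

lemma mul_y (r : C4) : r * yC =
    ⟨⟨-(X 0 ^ 2) * r.re.im, r.re.re⟩, ⟨-(X 0 ^ 2) * r.im.im, r.im.re⟩⟩ := by
  ext <;> simp [yC]

lemma mul_t (r : C4) : r * tC =
    ⟨⟨-(X 1 ^ 2) * r.im.re, -(X 1 ^ 2) * r.im.im⟩, ⟨r.re.re, r.re.im⟩⟩ := by
  ext <;> simp [tC]

lemma psi_mul_mem (r : C4) (i : Fin 4) : psi r * X i - psi (r * phi (X i)) ∈ J := by
  rw [J, Ideal.mem_span_pair]
  fin_cases i
  · refine ⟨0, 0, ?_⟩
    simp only [Fin.zero_eta, phi_X0, mul_x, psi, map_mul, iota_X0]
    ring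
  · refine ⟨iota r.re.im + iota r.im.im * X 3, 0, ?_⟩
    simp only [Fin.mk_one, phi_X1, mul_y, psi, map_mul, map_neg, map_pow, iota_X0]
    ring
  · refine ⟨0, 0, ?_⟩
    show _ = psi r * X 2 - psi (r * phi (X 2))
    simp only [phi_X2, mul_z, psi, map_mul, iota_X1]
    ring
  · refine ⟨0, iota r.im.re + iota r.im.im * X 1, ?_⟩
    show _ = psi r * X 3 - psi (r * phi (X 3))
    simp only [phi_X3, mul_t, psi, map_mul, map_neg, map_pow, iota_X1]
    ring

lemma sub_psi_mem (f : S) : f - psi (phi f) ∈ J := by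
  induction f using MvPolynomial.induction_on with
  | C a =>
    have : psi (phi (C a)) = C a := by
      have h1 : phi (C a) = algebraMap ℚ C4 a := by
        simp [phi]
      rw [h1]
      have h2 : (algebraMap ℚ C4 a) = ⟨⟨C a, 0⟩, ⟨0, 0⟩⟩ := by
        ext <;> rfl
      rw [h2]
      simp [psi, iota]
    rw [this, sub_self]
    exact J.zero_mem
  | add p q hp hq =>
    have : p + q - psi (phi (p + q)) = (p - psi (phi p)) + (q - psi (phi q)) := by
      rw [map_add, psi_add]; ring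
    rw [this]
    exact J.add_mem hp hq
  | mul_X p i hp =>
    have : p * X i - psi (phi (p * X i)) =
        (p - psi (phi p)) * X i + (psi (phi p) * X i - psi (phi p * phi (X i))) := by
      rw [map_mul]; ring
    rw [this]
    exact J.add_mem (J.mul_mem_right _ hp) (psi_mul_mem _ _)

lemma phi_J : ∀ a ∈ J, phi a = 0 := by
  intro a ha
  rw [J, Ideal.mem_span_pair] at ha
  obtain ⟨u, v, rfl⟩ := ha
  have h1 : (xC * xC + yC * yC : C4) = 0 := by
    simp only [mul_x, mul_y]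
    ext <;> simp [xC, yC]
    ring_nf
  have h2 : (zC * zC + tC * tC : C4) = 0 := by
    simp only [mul_z, mul_t]
    ext <;> simp [zC, tC]
    ring_nf
  have e1 : (X 0 ^ 2 + X 1 ^ 2 : S) = X 0 * X 0 + X 1 * X 1 := by ring
  have e2 : (X 2 ^ 2 + X 3 ^ 2 : S) = X 2 * X 2 + X 3 * X 3 := by ring
  rw [e1, e2]
  simp only [map_add, map_mul, phi_X0, phi_X1, phi_X2, phi_X3, h1, h2]
  simp

lemma psi_zero : psi 0 = 0 := by simp [psi]

lemma ker_phi (f : S) (h : phi f = 0) : f ∈ J := by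
  have := sub_psi_mem f
  rw [h, psi_zero, sub_zero] at this
  exact this

lemma phi_iota (a : A) : phi (iota a) = ⟨⟨a, 0⟩, ⟨0, 0⟩⟩ := by
  induction a using MvPolynomial.induction_on with
  | C a =>
    have h1 : iota (C a) = C a := by simp [iota]
    have h2 : phi (C a) = algebraMap ℚ C4 a := by simp [phi]
    rw [h1, h2]
    ext <;> rfl
  | add p q hp hq =>
    rw [map_add, map_add, hp, hq]
    ext <;> simp
  | mul_X p i hp =>
    rw [map_mul, map_mul, hp]
    fin_cases i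
    · simp only [Fin.zero_eta, iota_X0, phi_X0, mul_x]
      simp
    · simp only [Fin.mk_one, iota_X1, phi_X2, mul_z]
      simp

lemma phi_psi (r : C4) : phi (psi r) = r := by
  simp only [psi, map_add, map_mul, phi_iota, phi_X1, phi_X3, mul_y, mul_t]
  ext <;> simp [yC]

abbrev R : Type := S ⧸ J

def e : R ≃+* C4 :=
  RingEquiv.ofBijective (Ideal.Quotient.lift J phi phi_J) (by
    constructor
    · rw [RingHom.injective_iff_ker_eq_bot, eq_bot_iff]
      intro a ha
      obtain ⟨f, rfl⟩ := Ideal.Quotient.mk_surjective a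
      rw [RingHom.mem_ker, Ideal.Quotient.lift_mk] at ha
      rw [Ideal.mem_bot, Ideal.Quotient.eq_zero_iff_mem]
      exact ker_phi f ha
    · intro r
      exact ⟨Ideal.Quotient.mk J (psi r), by
        rw [Ideal.Quotient.lift_mk]; exact phi_psi r⟩)


lemma e_mk (f : S) : e (Ideal.Quotient.mk J f) = phi f := by
  rfl

def x : R := Ideal.Quotient.mk J (X 0)
def y : R := Ideal.Quotient.mk J (X 1)
def z : R := Ideal.Quotient.mk J (X 2)
def t : R := Ideal.Quotient.mk J (X 3)

lemma e_x : e x = xC := by rw [x, e_mk, phi_X0]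
lemma e_y : e y = yC := by rw [y, e_mk, phi_X1]
lemma e_z : e z = zC := by rw [z, e_mk, phi_X2]
lemma e_t : e t = tC := by rw [t, e_mk, phi_X3]

/-- The element of `R` with the given coordinates. -/
def el (a b c d : A) : R := e.symm ⟨⟨a, b⟩, ⟨c, d⟩⟩

lemma e_el (a b c d : A) : e (el a b c d) = ⟨⟨a, b⟩, ⟨c, d⟩⟩ := by simp [el]

lemma ext_e {r s : R} (h : e r = e s) : r = s := e.injective h

lemma X0_ne : (X 0 : A) ≠ 0 := MvPolynomial.X_ne_zero 0
lemma X1_ne : (X 1 : A) ≠ 0 := MvPolynomial.X_ne_zero 1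

lemma comp_mul_x (r : R) : e (r * x) =
    ⟨⟨(e r).re.re * X 0, (e r).re.im * X 0⟩, ⟨(e r).im.re * X 0, (e r).im.im * X 0⟩⟩ := by
  rw [map_mul, e_x, mul_x]

lemma comp_mul_y (r : R) : e (r * y) =
    ⟨⟨-(X 0 ^ 2) * (e r).re.im, (e r).re.re⟩, ⟨-(X 0 ^ 2) * (e r).im.im, (e r).im.re⟩⟩ := by
  rw [map_mul, e_y, mul_y]

lemma comp_mul_z (r : R) : e (r * z) =
    ⟨⟨(e r).re.re * X 1, (e r).re.im * X 1⟩, ⟨(e r).im.re * X 1, (e r).im.im * X 1⟩⟩ := by
  rw [map_mul, e_z, mul_z]

lemma comp_mul_t (r : R) : e (r * t) =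
    ⟨⟨-(X 1 ^ 2) * (e r).im.re, -(X 1 ^ 2) * (e r).im.im⟩, ⟨(e r).re.re, (e r).re.im⟩⟩ := by
  rw [map_mul, e_t, mul_t]

lemma not_X0_dvd_X1 : ¬ (X 0 : A) ∣ X 1 := by
  rw [MvPolynomial.X_dvd_X]; decide

lemma dvd_of_mul {a b : A} (h : a * X 1 = b * X 0) : (X 0 : A) ∣ a := by
  have h1 : (X 0 : A) ∣ a * X 1 := ⟨b, by rw [h]; ring⟩
  rcases (MvPolynomial.X_prime (i := (0 : Fin 2)) (R := ℚ)).dvd_or_dvd h1 with h2 | h2
  · exact h2
  · exact absurd h2 not_X0_dvd_X1

lemma sq_dvd_of_mul {a b : A} (h : X 1 ^ 2 * a = X 0 ^ 2 * b) : (X 0 ^ 2 : A) ∣ a := by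
  have hX : Prime (X 0 : A) := MvPolynomial.X_prime
  have h1 : (X 0 ^ 2 : A) ∣ X 1 ^ 2 * a := ⟨b, h⟩
  refine hX.pow_dvd_of_dvd_mul_left 2 ?_ h1
  intro h2
  exact not_X0_dvd_X1 (hX.dvd_of_dvd_pow h2)

lemma colon_bot_x {r : R} (h : r * x = 0) : r = 0 := by
  have h1 := congrArg e h
  rw [comp_mul_x, map_zero] at h1
  apply ext_e
  rw [map_zero]
  have h2 := congrArg (fun w => w.re.re) h1
  have h3 := congrArg (fun w => w.re.im) h1
  have h4 := congrArg (fun w => w.im.re) h1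
  have h5 := congrArg (fun w => w.im.im) h1
  simp only [QuadraticAlgebra.re_zero, QuadraticAlgebra.im_zero, mul_eq_zero, X0_ne, or_false]
    at h2 h3 h4 h5
  ext1 <;> ext1 <;> assumption

lemma colon_bot_y {r : R} (h : r * y = 0) : r = 0 := by
  have h1 := congrArg e h
  rw [comp_mul_y, map_zero] at h1
  apply ext_e
  rw [map_zero]
  have h2 := congrArg (fun w => w.re.re) h1
  have h3 := congrArg (fun w => w.re.im) h1
  have h4 := congrArg (fun w => w.im.re) h1
  have h5 := congrArg (fun w => w.im.im) h1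
  have hX : (-(X 0 ^ 2) : A) ≠ 0 := neg_ne_zero.mpr (pow_ne_zero 2 X0_ne)
  simp only [QuadraticAlgebra.re_zero, QuadraticAlgebra.im_zero, mul_eq_zero, hX, false_or]
    at h2 h3 h4 h5
  ext1 <;> ext1 <;> assumption

lemma colon_x_z {r : R} (h : r * z ∈ Ideal.span {x}) : r ∈ Ideal.span {x} := by
  rw [Ideal.mem_span_singleton'] at h ⊢
  obtain ⟨s, hs⟩ := h
  have h1 := congrArg e hs
  rw [comp_mul_x, comp_mul_z] at h1
  have h2 := congrArg (fun w => w.re.re) h1
  have h3 := congrArg (fun w => w.re.im) h1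
  have h4 := congrArg (fun w => w.im.re) h1
  have h5 := congrArg (fun w => w.im.im) h1
  obtain ⟨a, ha⟩ := dvd_of_mul h2.symm
  obtain ⟨b, hb⟩ := dvd_of_mul h3.symm
  obtain ⟨c, hc⟩ := dvd_of_mul h4.symm
  obtain ⟨d, hd⟩ := dvd_of_mul h5.symm
  refine ⟨el a b c d, ext_e ?_⟩
  rw [comp_mul_x, e_el]
  ext1 <;> ext1
  · simpa [mul_comm] using ha.symm
  · simpa [mul_comm] using hb.symm
  · simpa [mul_comm] using hc.symm
  · simpa [mul_comm] using hd.symm

lemma colon_y_t {r : R} (h : r * t ∈ Ideal.span {y}) : r ∈ Ideal.span {y} := by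
  rw [Ideal.mem_span_singleton'] at h ⊢
  obtain ⟨s, hs⟩ := h
  have h1 := congrArg e hs
  rw [comp_mul_y, comp_mul_t] at h1
  have h2 := congrArg (fun w => w.re.re) h1
  have h3 := congrArg (fun w => w.re.im) h1
  have h4 := congrArg (fun w => w.im.re) h1
  have h5 := congrArg (fun w => w.im.im) h1
  simp only at h2 h3 h4 h5
  obtain ⟨c, hc⟩ := sq_dvd_of_mul (a := (e r).im.re) (b := (e s).re.im) (by linear_combination h2)
  refine ⟨el (e r).re.im (e s).im.im (e r).im.im (-c), ext_e ?_⟩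
  rw [comp_mul_y, e_el]
  ext1 <;> ext1
  · simpa using h4
  · simp
  · simp [hc]
  · simp

lemma mem_xz {r : R} (h : r * y ∈ Ideal.span {x, z}) : r ∈ Ideal.span {x, z, y} := by
  rw [Ideal.mem_span_pair] at h
  obtain ⟨s, u, hs⟩ := h
  have h1 := congrArg e hs
  rw [map_add, comp_mul_x, comp_mul_z, comp_mul_y] at h1
  have h3 := congrArg (fun w => w.re.im) h1
  have h5 := congrArg (fun w => w.im.im) h1
  simp only [QuadraticAlgebra.re_add, QuadraticAlgebra.im_add] at h3 h5
  have : r = el (e s).re.im 0 (e s).im.im 0 * x + el (e u).re.im 0 (e u).im.im 0 * z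
      + el (e r).re.im 0 (e r).im.im 0 * y := by
    apply ext_e
    rw [map_add, map_add, comp_mul_x, comp_mul_z, comp_mul_y]
    simp only [e_el]
    ext1 <;> ext1 <;> simp [h3, h5]
  rw [this]
  refine Ideal.add_mem _ (Ideal.add_mem _ ?_ ?_) ?_
  · exact Ideal.mul_mem_left _ _ (Ideal.subset_span (by simp))
  · exact Ideal.mul_mem_left _ _ (Ideal.subset_span (by simp))
  · exact Ideal.mul_mem_left _ _ (Ideal.subset_span (by simp))

lemma mem_xzy {r : R} (h : r * t ∈ Ideal.span {x, z, y}) : r ∈ Ideal.span {x, z, y, t} := by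
  rw [Ideal.mem_span_insert] at h
  obtain ⟨s, w, hw, hs⟩ := h
  rw [Ideal.mem_span_pair] at hw
  obtain ⟨u, v, rfl⟩ := hw
  have h1 := congrArg e hs
  rw [map_add, map_add, comp_mul_x, comp_mul_z, comp_mul_y, comp_mul_t] at h1
  have h4 := congrArg (fun w => w.im.re) h1
  simp only [QuadraticAlgebra.re_add, QuadraticAlgebra.im_add] at h4
  have : r = el ((e s).im.re - X 0 * (e v).im.im) 0 0 0 * x + el ((e u).im.re) 0 0 0 * z
      + el (e r).re.im 0 0 0 * y + el (e r).im.re (e r).im.im 0 0 * t := by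
    apply ext_e
    rw [map_add, map_add, map_add, comp_mul_x, comp_mul_z, comp_mul_y, comp_mul_t]
    simp only [e_el]
    ext1 <;> ext1
    · simp [h4]; ring
    · simp
    · simp
    · simp
  rw [this]
  refine Ideal.add_mem _ (Ideal.add_mem _ (Ideal.add_mem _ ?_ ?_) ?_) ?_
  all_goals exact Ideal.mul_mem_left _ _ (Ideal.subset_span (by simp))


attribute [local instance] MvPolynomial.gradedAlgebra

lemma hq1 : (X 0 ^ 2 + X 1 ^ 2 : S).IsHomogeneous 2 :=
  (isHomogeneous_X_pow 0 2).add (isHomogeneous_X_pow 1 2)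

lemma hq2 : (X 2 ^ 2 + X 3 ^ 2 : S).IsHomogeneous 2 :=
  (isHomogeneous_X_pow 2 2).add (isHomogeneous_X_pow 3 2)

lemma J_hom : ∀ p ∈ J, ∀ i : ℕ, homogeneousComponent i p ∈ J := by
  intro p hp i
  refine homogeneousComponent_mem_of_mem ?_ hp i
  apply Ideal.homogeneous_span
  intro q hq
  rcases hq with rfl | hq
  · exact ⟨2, hq1⟩
  · rw [Set.mem_singleton_iff] at hq
    subst hq
    exact ⟨2, hq2⟩

/-- Degree two component of a multiple of a quadric. -/
lemma comp_two_mul (u q : S) (hq : q.IsHomogeneous 2) :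
    homogeneousComponent 2 (u * q) = C (coeff 0 u) * q := by
  have h := DirectSum.coe_decompose_mul_add_of_right_mem (homogeneousSubmodule (Fin 4) ℚ)
    (i := 0) (j := 2) (a := u) (b := q) hq
  have h1 : ((DirectSum.decompose (homogeneousSubmodule (Fin 4) ℚ) (u * q)) (0 + 2) : S) =
    homogeneousComponent 2 (u * q) := decomposition.decompose'_apply _ _
  have h2 : ((DirectSum.decompose (homogeneousSubmodule (Fin 4) ℚ) u) 0 : S) =
    homogeneousComponent 0 u := decomposition.decompose'_apply _ _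
  rw [← h1, h, h2, homogeneousComponent_zero]

/-- Constants in `R`. -/
def cst (q : ℚ) : R := Ideal.Quotient.mk J (C q)

lemma e_cst (q : ℚ) : e (cst q) = ⟨⟨C q, 0⟩, ⟨0, 0⟩⟩ := by
  rw [cst, e_mk]
  have h2 : phi (C q) = algebraMap ℚ C4 q := by simp [phi]
  rw [h2]
  ext <;> rfl

lemma cst_add (p q : ℚ) : cst (p + q) = cst p + cst q := by simp [cst]
lemma cst_mul (p q : ℚ) : cst (p * q) = cst p * cst q := by simp [cst]
lemma cst_zero : cst 0 = 0 := by simp [cst]
lemma cst_one : cst 1 = 1 := by simp [cst]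
lemma cst_sum {ι : Type*} (s : Finset ι) (f : ι → ℚ) : cst (∑ i ∈ s, f i) = ∑ i ∈ s, cst (f i) := by
  simp [cst]

/-- If a degree two form lies in the span of quadrics with arbitrary coefficients modulo `J`, then
it is a combination with constant coefficients. -/
lemma const_coeffs {ι : Type*} [Fintype ι] (p : S) (hp : p.IsHomogeneous 2) (q : ι → S)
    (hq : ∀ i, (q i).IsHomogeneous 2) (u : ι → R)
    (h : Ideal.Quotient.mk J p = ∑ i, u i * Ideal.Quotient.mk J (q i)) :
    ∃ w : ι → ℚ, Ideal.Quotient.mk J p = ∑ i, cst (w i) * Ideal.Quotient.mk J (q i) := by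
  choose U hU using fun i => Ideal.Quotient.mk_surjective (u i)
  have h1 : p - ∑ i, U i * q i ∈ J := by
    rw [← Ideal.Quotient.eq_zero_iff_mem, map_sub, map_sum, h, sub_eq_zero]
    refine Finset.sum_congr rfl fun i _ => ?_
    rw [map_mul, hU]
  rw [J, Ideal.mem_span_pair] at h1
  obtain ⟨a, b, hab⟩ := h1
  have h2 := congrArg (homogeneousComponent 2) hab
  rw [map_add, comp_two_mul _ _ hq1, comp_two_mul _ _ hq2, map_sub, map_sum,
    homogeneousComponent_eq_self hp] at h2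
  refine ⟨fun i => coeff 0 (U i), ?_⟩
  have h3 : p - ∑ i, C (coeff 0 (U i)) * q i ∈ J := by
    rw [J, Ideal.mem_span_pair]
    refine ⟨_, _, h2.trans ?_⟩
    congr 1
    refine Finset.sum_congr rfl fun i _ => ?_
    rw [comp_two_mul _ _ (hq i)]
  rw [← Ideal.Quotient.eq_zero_iff_mem, map_sub, map_sum, sub_eq_zero] at h3
  rw [h3]
  refine Finset.sum_congr rfl fun i _ => ?_
  rw [map_mul, cst]

/-- Linear forms in `R`. -/
lemma linear_form (r : R) (h : ∃ p : S, p.IsHomogeneous 1 ∧ Ideal.Quotient.mk J p = r) :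
    ∃ a b c d : ℚ, r = cst a * x + cst b * y + cst c * z + cst d * t := by
  obtain ⟨p, hp, rfl⟩ := h
  rw [← mem_homogeneousSubmodule, homogeneousSubmodule_one_eq_span_X] at hp
  induction hp using Submodule.span_induction with
  | mem f hf =>
    obtain ⟨i, rfl⟩ := hf
    fin_cases i
    · exact ⟨1, 0, 0, 0, by simp [cst_one, cst_zero, x]⟩
    · exact ⟨0, 1, 0, 0, by simp [cst_one, cst_zero, y]⟩
    · exact ⟨0, 0, 1, 0, by simp [cst_one, cst_zero, z]⟩
    · exact ⟨0, 0, 0, 1, by simp [cst_one, cst_zero, t]⟩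
  | zero => exact ⟨0, 0, 0, 0, by simp [cst_zero]⟩
  | add f g _ _ hf hg =>
    obtain ⟨a, b, c, d, h1⟩ := hf
    obtain ⟨a', b', c', d', h2⟩ := hg
    refine ⟨a + a', b + b', c + c', d + d', ?_⟩
    rw [map_add, h1, h2, cst_add, cst_add, cst_add, cst_add]
    ring
  | smul k f _ hf =>
    obtain ⟨a, b, c, d, h1⟩ := hf
    refine ⟨k * a, k * b, k * c, k * d, ?_⟩
    rw [MvPolynomial.smul_eq_C_mul, map_mul, h1, cst_mul, cst_mul, cst_mul, cst_mul]
    show cst k * _ = _
    ring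

/-- The key computation: in a linear syzygy of `xy, xt, zy, zt` the coefficient of `xt` lies in
the ideal `(y,z)`. -/
lemma linear_syzygy (L1 L2 L3 L4 : R)
    (h1 : ∃ a b c d : ℚ, L1 = cst a * x + cst b * y + cst c * z + cst d * t)
    (h2 : ∃ a b c d : ℚ, L2 = cst a * x + cst b * y + cst c * z + cst d * t)
    (h3 : ∃ a b c d : ℚ, L3 = cst a * x + cst b * y + cst c * z + cst d * t)
    (h4 : ∃ a b c d : ℚ, L4 = cst a * x + cst b * y + cst c * z + cst d * t)
    (h : L1 * (x * y) + L2 * (x * t) + L3 * (z * y) + L4 * (z * t) = 0) :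
    L2 ∈ Ideal.span {y, z} := by
  obtain ⟨a1, b1, c1, d1, rfl⟩ := h1
  obtain ⟨a2, b2, c2, d2, rfl⟩ := h2
  obtain ⟨a3, b3, c3, d3, rfl⟩ := h3
  obtain ⟨a4, b4, c4, d4, rfl⟩ := h4
  have h' := congrArg e h
  simp only [map_add, map_mul, e_cst, e_x, e_y, e_z, e_t, map_zero] at h'
  have hA := congrArg (fun w => w.re.re) h'
  have hB := congrArg (fun w => w.im.re) h'
  simp [xC, yC, zC, tC] at hA hB
  have hB1 := congrArg (MvPolynomial.eval ![(1 : ℚ), 0]) hB
  simp at hB1
  have hA1 := congrArg (MvPolynomial.eval ![(1 : ℚ), 0]) hA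
  have hA2 := congrArg (MvPolynomial.eval ![(0 : ℚ), 1]) hA
  have hA3 := congrArg (MvPolynomial.eval ![(1 : ℚ), 1]) hA
  have hA4 := congrArg (MvPolynomial.eval ![(1 : ℚ), -1]) hA
  simp at hA1 hA2 hA3 hA4
  have hd2 : d2 = 0 := by linarith
  rw [hB1, hd2, cst_zero, Ideal.mem_span_pair]
  exact ⟨cst b2, cst c2, by ring⟩

lemma xt_not_mem : x * t ∉ Ideal.span {y, z} := by
  intro h
  rw [Ideal.mem_span_pair] at h
  obtain ⟨s, u, hs⟩ := h
  have h1 := congrArg e hs
  rw [map_add, comp_mul_y, comp_mul_z, comp_mul_t, e_x] at h1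
  have h4 := congrArg (fun w => w.im.re) h1
  simp only [QuadraticAlgebra.re_add, QuadraticAlgebra.im_add, xC] at h4
  have h5 := congrArg (MvPolynomial.aeval ![(DualNumber.eps : DualNumber ℚ), 0]) h4
  simp [pow_two] at h5
  have h6 := congrArg TrivSqZeroExt.snd h5
  simp at h6

lemma xt_mul_xt : (x * t) * (x * t) = (z * y) * (z * y) := by
  apply ext_e
  simp only [map_mul, e_x, e_y, e_z, e_t]
  ext <;> simp [xC, yC, zC, tC]
  ring_nf

/-- The four products generating the product ideal. -/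
def G : Fin 4 → S := ![X 0 * X 1, X 0 * X 3, X 2 * X 1, X 2 * X 3]

lemma G_hom (i : Fin 4) : (G i).IsHomogeneous 2 := by
  fin_cases i <;> exact (isHomogeneous_X _ _).mul (isHomogeneous_X _ _)

lemma sum_G (w : Fin 4 → R) : ∑ i, w i * Ideal.Quotient.mk J (G i) =
    w 0 * (x * y) + w 1 * (x * t) + w 2 * (z * y) + w 3 * (z * t) := by
  simp [Fin.sum_univ_four, G, x, y, z, t]

lemma mem_prod {r : R} (h : r ∈ (Ideal.span {x, z} : Ideal R) * Ideal.span {y, t}) :
    ∃ w : Fin 4 → R, r = ∑ i, w i * Ideal.Quotient.mk J (G i) := by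
  rw [Ideal.span_pair_mul_span_pair] at h
  simp only [Ideal.mem_span_insert, Ideal.mem_span_singleton'] at h
  obtain ⟨a, _, ⟨b, _, ⟨c, _, ⟨d, rfl⟩, rfl⟩, rfl⟩, rfl⟩ := h
  refine ⟨![a, b, c, d], ?_⟩
  rw [sum_G]
  simp
  ring

lemma G_indep (w : Fin 4 → ℚ) (h : cst (w 0) * (x * y) + cst (w 1) * (x * t) +
    cst (w 2) * (z * y) + cst (w 3) * (z * t) = 0) : w 1 = 0 := by
  have h' := congrArg e h
  simp only [map_add, map_mul, e_cst, e_x, e_y, e_z, e_t, map_zero] at h'
  have hB := congrArg (fun w => w.im.re) h'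
  simp [xC, yC, zC, tC] at hB
  have hB1 := congrArg (MvPolynomial.eval ![(1 : ℚ), 0]) hB
  simpa using hB1


def IsLin (r : R) : Prop := ∃ p : S, p.IsHomogeneous 1 ∧ Ideal.Quotient.mk J p = r

lemma lin_x : IsLin x := ⟨X 0, isHomogeneous_X _ _, rfl⟩
lemma lin_y : IsLin y := ⟨X 1, isHomogeneous_X _ _, rfl⟩
lemma lin_z : IsLin z := ⟨X 2, isHomogeneous_X _ _, rfl⟩
lemma lin_t : IsLin t := ⟨X 3, isHomogeneous_X _ _, rfl⟩

lemma max_eq : Ideal.span {r : R | ∃ p : S, p.IsHomogeneous 1 ∧ Ideal.Quotient.mk J p = r} =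
    Ideal.span {x, z, y, t} := by
  apply le_antisymm
  · rw [Ideal.span_le]
    intro r hr
    obtain ⟨a, b, c, d, rfl⟩ := linear_form r hr
    refine Ideal.add_mem _ (Ideal.add_mem _ (Ideal.add_mem _ ?_ ?_) ?_) ?_
    all_goals exact Ideal.mul_mem_left _ _ (Ideal.subset_span (by simp))
  · apply Ideal.span_mono
    intro r hr
    simp only [Set.mem_insert_iff, Set.mem_singleton_iff] at hr
    rcases hr with rfl | rfl | rfl | rfl
    · exact lin_x
    · exact lin_z
    · exact lin_y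
    · exact lin_t

lemma span_lin (T : Set R) (hT : ∀ r ∈ T, IsLin r) :
    Ideal.span T = Ideal.span {r : R | r ∈ Ideal.span T ∧
      ∃ p : S, p.IsHomogeneous 1 ∧ Ideal.Quotient.mk J p = r} := by
  apply le_antisymm
  · apply Ideal.span_mono
    intro r hr
    exact ⟨Ideal.subset_span hr, hT r hr⟩
  · rw [Ideal.span_le]
    intro r hr
    exact hr.1

lemma colon_iff {I' : Ideal R} {l r : R} :
    (∀ w ∈ I' ⊔ Ideal.span {l}, r * w ∈ I') ↔ r * l ∈ I' := by
  constructor
  · intro h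
    exact h l (Ideal.mem_sup_right (Ideal.mem_span_singleton_self l))
  · intro h w hw
    obtain ⟨u, hu, v, hv, rfl⟩ := Submodule.mem_sup.mp hw
    obtain ⟨s, rfl⟩ := Ideal.mem_span_singleton'.mp hv
    rw [mul_add]
    refine I'.add_mem (I'.mul_mem_left _ hu) ?_
    have : r * (s * l) = s * (r * l) := by ring
    rw [this]
    exact I'.mul_mem_left _ h

/-- The Koszul filtration. -/
def F : Set (Ideal R) :=
  {I | I = ⊥ ∨ I = Ideal.span {x} ∨ I = Ideal.span {x, z} ∨ I = Ideal.span {x, z, y} ∨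
    I = Ideal.span {x, z, y, t} ∨ I = Ideal.span {y} ∨ I = Ideal.span {y, t}}

lemma step {I I' C' : Ideal R} {l : R} (hI : I = I' ⊔ Ideal.span {l}) (hI' : I' ∈ F)
    (hl : IsLin l) (hC : C' ∈ F) (h1 : ∀ r, r * l ∈ I' → r ∈ C') (h2 : ∀ r, r ∈ C' → r * l ∈ I') :
    ∃ I' ∈ F, I' ≤ I ∧
      (∃ x : R, (∃ p : S, p.IsHomogeneous 1 ∧ Ideal.Quotient.mk J p = x) ∧
        I = I' ⊔ Ideal.span {x}) ∧
      ∃ C ∈ F, ∀ r : R, r ∈ C ↔ ∀ y ∈ I, r * y ∈ I' := by
  refine ⟨I', hI', ?_, ⟨l, hl, hI⟩, C', hC, ?_⟩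
  · rw [hI]; exact le_sup_left
  · intro r
    rw [hI, colon_iff]
    exact ⟨h2 r, h1 r⟩

lemma y2_mem : y * y ∈ Ideal.span {x, z} := by
  rw [Ideal.mem_span_pair]
  refine ⟨-x, 0, ?_⟩
  apply ext_e
  simp only [map_add, map_mul, map_neg, e_x, e_y, e_z, map_zero]
  ext <;> simp [xC, yC, zC]
  ring_nf

lemma t2_mem : t * t ∈ Ideal.span {x, z, y} := by
  have : t * t = (-z) * z := by
    apply ext_e
    simp only [map_mul, map_neg, e_t, e_z]
    ext <;> simp [tC, zC]
    ring_nf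
  rw [this]
  exact Ideal.mul_mem_left _ _ (Ideal.subset_span (by simp))

lemma F_step : ∀ I ∈ F, I ≠ ⊥ → ∃ I' ∈ F, I' ≤ I ∧
      (∃ x : R, (∃ p : S, p.IsHomogeneous 1 ∧ Ideal.Quotient.mk J p = x) ∧
        I = I' ⊔ Ideal.span {x}) ∧
      ∃ C ∈ F, ∀ r : R, r ∈ C ↔ ∀ y ∈ I, r * y ∈ I' := by
  intro I hI hne
  rcases hI with rfl | rfl | rfl | rfl | rfl | rfl | rfl
  · exact absurd rfl hne
  · refine step (I' := ⊥) (C' := ⊥) (l := x) (by simp) (Or.inl rfl) lin_x (Or.inl rfl) ?_ ?_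
    · intro r hr
      rw [Ideal.mem_bot] at hr ⊢
      exact colon_bot_x hr
    · intro r hr
      rw [Ideal.mem_bot] at hr ⊢
      rw [hr, zero_mul]
  · refine step (I' := Ideal.span {x}) (C' := Ideal.span {x}) (l := z) ?_ ?_ lin_z ?_ ?_ ?_
    · rw [← Ideal.span_union]; congr 1
    · simp [F]
    · simp [F]
    · intro r hr
      exact colon_x_z hr
    · intro r hr
      exact Ideal.mul_mem_right _ _ hr
  · refine step (I' := Ideal.span {x, z}) (C' := Ideal.span {x, z, y}) (l := y) ?_ ?_ lin_y ?_ ?_ ?_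
    · rw [← Ideal.span_union]; congr 1
      ext w; simp only [Set.mem_union, Set.mem_insert_iff, Set.mem_singleton_iff]; tauto
    · simp [F]
    · simp [F]
    · intro r hr
      exact mem_xz hr
    · intro r hr
      have h3 : Ideal.span {x, z, y} = Ideal.span {x, z} ⊔ Ideal.span {y} := by
        rw [← Ideal.span_union]; congr 1
        ext w; simp only [Set.mem_union, Set.mem_insert_iff, Set.mem_singleton_iff]; tauto
      rw [h3] at hr
      obtain ⟨u, hu, v, hv, rfl⟩ := Submodule.mem_sup.mp hr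
      obtain ⟨s, rfl⟩ := Ideal.mem_span_singleton'.mp hv
      rw [add_mul]
      refine Ideal.add_mem _ (Ideal.mul_mem_right _ _ hu) ?_
      rw [mul_assoc]
      exact Ideal.mul_mem_left _ _ y2_mem
  · refine step (I' := Ideal.span {x, z, y}) (C' := Ideal.span {x, z, y, t}) (l := t)
      ?_ ?_ lin_t ?_ ?_ ?_
    · rw [← Ideal.span_union]; congr 1
      ext w; simp only [Set.mem_union, Set.mem_insert_iff, Set.mem_singleton_iff]; tauto
    · simp [F]
    · simp [F]
    · intro r hr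
      exact mem_xzy hr
    · intro r hr
      have h3 : Ideal.span {x, z, y, t} = Ideal.span {x, z, y} ⊔ Ideal.span {t} := by
        rw [← Ideal.span_union]; congr 1
        ext w; simp only [Set.mem_union, Set.mem_insert_iff, Set.mem_singleton_iff]; tauto
      rw [h3] at hr
      obtain ⟨u, hu, v, hv, rfl⟩ := Submodule.mem_sup.mp hr
      obtain ⟨s, rfl⟩ := Ideal.mem_span_singleton'.mp hv
      rw [add_mul]
      refine Ideal.add_mem _ (Ideal.mul_mem_right _ _ hu) ?_
      rw [mul_assoc]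
      exact Ideal.mul_mem_left _ _ t2_mem
  · refine step (I' := ⊥) (C' := ⊥) (l := y) (by simp) (Or.inl rfl) lin_y (Or.inl rfl) ?_ ?_
    · intro r hr
      rw [Ideal.mem_bot] at hr ⊢
      exact colon_bot_y hr
    · intro r hr
      rw [Ideal.mem_bot] at hr ⊢
      rw [hr, zero_mul]
  · refine step (I' := Ideal.span {y}) (C' := Ideal.span {y}) (l := t) ?_ ?_ lin_t ?_ ?_ ?_
    · rw [← Ideal.span_union]; congr 1
    · simp [F]
    · simp [F]
    · intro r hr
      exact colon_y_t hr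
    · intro r hr
      exact Ideal.mul_mem_right _ _ hr

lemma F_lin : ∀ I ∈ F, I = Ideal.span {r : R | r ∈ I ∧
      ∃ p : S, p.IsHomogeneous 1 ∧ Ideal.Quotient.mk J p = r} := by
  intro I hI
  rcases hI with rfl | rfl | rfl | rfl | rfl | rfl | rfl
  · have := span_lin ∅ (by simp)
    rw [Ideal.span_empty] at this
    exact this
  all_goals
    apply span_lin
    intro r hr
    simp only [Set.mem_insert_iff, Set.mem_singleton_iff] at hr
  · subst hr; exact lin_x
  · rcases hr with rfl | rfl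
    · exact lin_x
    · exact lin_z
  · rcases hr with rfl | rfl | rfl
    · exact lin_x
    · exact lin_z
    · exact lin_y
  · rcases hr with rfl | rfl | rfl | rfl
    · exact lin_x
    · exact lin_z
    · exact lin_y
    · exact lin_t
  · subst hr; exact lin_y
  · rcases hr with rfl | rfl
    · exact lin_y
    · exact lin_t

/-- The contradiction: the product ideal is not presented by linear syzygies. -/
lemma no_linear_presentation (b0 b1 : ℕ) (g : Fin b0 → R) (M : Matrix (Fin b0) (Fin b1) R)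
    (hg : ∀ j, ∃ p : S, p.IsHomogeneous 2 ∧ Ideal.Quotient.mk J p = g j)
    (hM : ∀ a c, ∃ p : S, p.IsHomogeneous 1 ∧ Ideal.Quotient.mk J p = M a c)
    (hspan : Ideal.span (Set.range g) = (Ideal.span {x, z} : Ideal R) * Ideal.span {y, t})
    (hex : ∀ v : Fin b0 → R, ∑ j, v j * g j = 0 ↔ ∃ w, M.mulVec w = v) : False := by
  choose p hp hpg using hg
  -- the generators `g` are constant combinations of the four products
  have hw : ∀ j, ∃ w : Fin 4 → ℚ, g j = ∑ i, cst (w i) * Ideal.Quotient.mk J (G i) := by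
    intro j
    have h1 : g j ∈ (Ideal.span {x, z} : Ideal R) * Ideal.span {y, t} := by
      rw [← hspan]; exact Ideal.subset_span ⟨j, rfl⟩
    obtain ⟨u, hu⟩ := mem_prod h1
    obtain ⟨w, hw⟩ := const_coeffs (p j) (hp j) G G_hom u (by rw [hpg]; exact hu)
    exact ⟨w, by rw [← hpg]; exact hw⟩
  choose w hw using hw
  -- the four products are constant combinations of the generators `g`
  have hc : ∀ k : Fin 4, ∃ c : Fin b0 → ℚ, Ideal.Quotient.mk J (G k) = ∑ j, cst (c j) * g j := by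
    intro k
    have h1 : Ideal.Quotient.mk J (G k) ∈ Ideal.span (Set.range g) := by
      rw [hspan]
      fin_cases k
      · have : Ideal.Quotient.mk J (X 0 * X 1) = x * y := by simp [x, y]
        show Ideal.Quotient.mk J (X 0 * X 1) ∈ _
        rw [this]
        exact Ideal.mul_mem_mul (Ideal.subset_span (by simp)) (Ideal.subset_span (by simp))
      · have : Ideal.Quotient.mk J (X 0 * X 3) = x * t := by simp [x, t]
        show Ideal.Quotient.mk J (X 0 * X 3) ∈ _
        rw [this]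
        exact Ideal.mul_mem_mul (Ideal.subset_span (by simp)) (Ideal.subset_span (by simp))
      · have : Ideal.Quotient.mk J (X 2 * X 1) = z * y := by simp [z, y]
        show Ideal.Quotient.mk J (X 2 * X 1) ∈ _
        rw [this]
        exact Ideal.mul_mem_mul (Ideal.subset_span (by simp)) (Ideal.subset_span (by simp))
      · have : Ideal.Quotient.mk J (X 2 * X 3) = z * t := by simp [z, t]
        show Ideal.Quotient.mk J (X 2 * X 3) ∈ _
        rw [this]
        exact Ideal.mul_mem_mul (Ideal.subset_span (by simp)) (Ideal.subset_span (by simp))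
    obtain ⟨u, hu⟩ := (Ideal.mem_span_range_iff_exists_fun).mp h1
    obtain ⟨c, hc⟩ := const_coeffs (G k) (G_hom k) p hp u (by
      rw [← hu]; simp only [hpg])
    exact ⟨c, by simpa only [hpg] using hc⟩
  choose c hc using hc
  have hGxt : Ideal.Quotient.mk J (G 1) = x * t := by simp [G, x, t]
  have hGzy : Ideal.Quotient.mk J (G 2) = z * y := by simp [G, z, y]
  -- sums of the coefficients of `xt`
  have key : ∀ k : Fin 4, ∃ v : Fin 4 → ℚ, v 1 = ∑ j, c k j * w j 1 ∧
      Ideal.Quotient.mk J (G k) = ∑ i, cst (v i) * Ideal.Quotient.mk J (G i) := by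
    intro k
    refine ⟨fun i => ∑ j, c k j * w j i, rfl, ?_⟩
    rw [hc k]
    simp only [hw, cst_sum, cst_mul, Finset.mul_sum, Finset.sum_mul]
    rw [Finset.sum_comm]
    refine Finset.sum_congr rfl fun i _ => Finset.sum_congr rfl fun j _ => ?_
    ring
  have h1 : ∑ j, c 1 j * w j 1 = 1 := by
    obtain ⟨v, hv, hk⟩ := key 1
    rw [← hv]
    rw [hGxt, sum_G] at hk
    have := G_indep ![v 0, v 1 - 1, v 2, v 3] (by
      have e1 : cst (v 1 - 1) = cst (v 1) - 1 := by simp [cst]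
      simp [e1]
      linear_combination -hk)
    simp at this
    linarith
  have h2 : ∑ j, c 2 j * w j 1 = 0 := by
    obtain ⟨v, hv, hk⟩ := key 2
    rw [← hv]
    rw [hGzy, sum_G] at hk
    have := G_indep ![v 0, v 1, v 2 - 1, v 3] (by
      have e1 : cst (v 2 - 1) = cst (v 2) - 1 := by simp [cst]
      simp [e1]
      linear_combination -hk)
    simpa using this
  -- the quadratic syzygy
  have hsyz : ∑ j, (x * t * cst (c 1 j) - z * y * cst (c 2 j)) * g j = 0 := by
    have : ∑ j, (x * t * cst (c 1 j) - z * y * cst (c 2 j)) * g j =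
        x * t * (∑ j, cst (c 1 j) * g j) - z * y * (∑ j, cst (c 2 j) * g j) := by
      rw [Finset.mul_sum, Finset.mul_sum, ← Finset.sum_sub_distrib]
      refine Finset.sum_congr rfl fun j _ => ?_
      ring
    rw [this, ← hc 1, ← hc 2, hGxt, hGzy, xt_mul_xt, sub_self]
  obtain ⟨u, hu⟩ := (hex _).mp hsyz
  -- every column of `M` pairs into `(y,z)`
  have hcol : ∀ l : Fin b1, ∑ j, M j l * cst (w j 1) ∈ Ideal.span {y, z} := by
    intro l
    have hrel : ∑ j, M j l * g j = 0 := by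
      rw [hex]
      exact ⟨Pi.single l 1, by ext j; simp⟩
    choose P1 P2 P3 P4 hP using fun j => linear_form (M j l) (hM j l)
    have hL : ∀ i : Fin 4, ∃ a b c d : ℚ, ∑ j, M j l * cst (w j i) =
        cst a * x + cst b * y + cst c * z + cst d * t := by
      intro i
      refine ⟨∑ j, P1 j * w j i, ∑ j, P2 j * w j i, ∑ j, P3 j * w j i, ∑ j, P4 j * w j i, ?_⟩
      simp only [cst_sum, cst_mul, Finset.sum_mul, ← Finset.sum_add_distrib]
      refine Finset.sum_congr rfl fun j _ => ?_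
      rw [hP j]
      ring
    refine linear_syzygy (∑ j, M j l * cst (w j 0)) _ (∑ j, M j l * cst (w j 2))
      (∑ j, M j l * cst (w j 3)) (hL 0) (hL 1) (hL 2) (hL 3) ?_
    rw [← hrel]
    simp only [hw, sum_G, Finset.sum_mul, ← Finset.sum_add_distrib]
    refine Finset.sum_congr rfl fun j _ => ?_
    ring
  have hfin : x * t ∈ Ideal.span {y, z} := by
    have h3 : ∑ j, (x * t * cst (c 1 j) - z * y * cst (c 2 j)) * cst (w j 1) = x * t := by
      have : ∑ j, (x * t * cst (c 1 j) - z * y * cst (c 2 j)) * cst (w j 1) =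
          x * t * cst (∑ j, c 1 j * w j 1) - z * y * cst (∑ j, c 2 j * w j 1) := by
        simp only [cst_sum, cst_mul]
        rw [Finset.mul_sum, Finset.mul_sum, ← Finset.sum_sub_distrib]
        refine Finset.sum_congr rfl fun j _ => ?_
        ring
      rw [this, h1, h2, cst_one, cst_zero]
      ring
    rw [← h3]
    have h4 : ∑ j, (x * t * cst (c 1 j) - z * y * cst (c 2 j)) * cst (w j 1) =
        ∑ l, u l * ∑ j, M j l * cst (w j 1) := by
      have h5 : ∀ j, (x * t * cst (c 1 j) - z * y * cst (c 2 j)) = ∑ l, M j l * u l := by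
        intro j
        have := congrFun hu j
        rw [← this]
        rfl
      simp only [h5, Finset.sum_mul, Finset.mul_sum]
      rw [Finset.sum_comm]
      refine Finset.sum_congr rfl fun i _ => Finset.sum_congr rfl fun j _ => ?_
      ring
    rw [h4]
    exact Ideal.sum_mem _ fun l _ => Ideal.mul_mem_left _ _ (hcol l)
  exact xt_not_mem hfin

end

/-- The negation of the preceding statement: For a standard graded algebra with a Koszul filtration F, every nonzero product of d ≥ 1 ideals from F has a d-linear free resolution over R (generated in degree d, linear matrices thereafter), i.e. its regularity over R equals d. -/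
theorem result :
    ¬ (∀ (K : Type) [Field K] (n : ℕ) (J : Ideal (MvPolynomial (Fin n) K)),
      (∀ p ∈ J, ∀ i : ℕ, MvPolynomial.homogeneousComponent i p ∈ J) →
      ∀ (F : Set (Ideal (MvPolynomial (Fin n) K ⧸ J))),
        (∀ I ∈ F, I = Ideal.span {y : MvPolynomial (Fin n) K ⧸ J | y ∈ I ∧
            ∃ p : MvPolynomial (Fin n) K, p.IsHomogeneous 1 ∧ Ideal.Quotient.mk J p = y}) →
        (⊥ ∈ F) →
        (Ideal.span {y : MvPolynomial (Fin n) K ⧸ J |
            ∃ p : MvPolynomial (Fin n) K, p.IsHomogeneous 1 ∧ Ideal.Quotient.mk J p = y} ∈ F) →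
        (∀ I ∈ F, I ≠ ⊥ → ∃ I' ∈ F, I' ≤ I ∧
            (∃ x : MvPolynomial (Fin n) K ⧸ J,
              (∃ p : MvPolynomial (Fin n) K, p.IsHomogeneous 1 ∧ Ideal.Quotient.mk J p = x) ∧
              I = I' ⊔ Ideal.span {x}) ∧
            ∃ C ∈ F, ∀ r : MvPolynomial (Fin n) K ⧸ J, r ∈ C ↔ ∀ y ∈ I, r * y ∈ I') →
        ∀ (d : ℕ), 1 ≤ d → ∀ (I : Fin d → Ideal (MvPolynomial (Fin n) K ⧸ J)),
          (∀ k, I k ∈ F) → (∏ k, I k) ≠ ⊥ →
          ∃ b : ℕ → ℕ, ∃ g : Fin (b 0) → MvPolynomial (Fin n) K ⧸ J,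
            ∃ A : (i : ℕ) → Matrix (Fin (b i)) (Fin (b (i + 1))) (MvPolynomial (Fin n) K ⧸ J),
              (∀ j, ∃ p : MvPolynomial (Fin n) K, p.IsHomogeneous d ∧ Ideal.Quotient.mk J p = g j) ∧
              (∀ i a c, ∃ p : MvPolynomial (Fin n) K, p.IsHomogeneous 1 ∧
                  Ideal.Quotient.mk J p = A i a c) ∧
              Ideal.span (Set.range g) = ∏ k, I k ∧
              (∀ v : Fin (b 0) → MvPolynomial (Fin n) K ⧸ J,
                  ∑ j, v j * g j = 0 ↔ ∃ w, (A 0).mulVec w = v) ∧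
              (∀ (i : ℕ) (v : Fin (b (i + 1)) → MvPolynomial (Fin n) K ⧸ J),
                  (A i).mulVec v = 0 ↔ ∃ w, (A (i + 1)).mulVec w = v)) := by
  intro h
  have hprod : (∏ k, (![Ideal.span {x, z}, Ideal.span {y, t}] : Fin 2 → Ideal R) k) =
      (Ideal.span {x, z} : Ideal R) * Ideal.span {y, t} := by
    simp [Fin.prod_univ_two]
  obtain ⟨b, g, A, hg, hA, hspan, hex, -⟩ := h ℚ 4 J J_hom F F_lin (Or.inl rfl)
    (by rw [max_eq]; simp [F]) F_step 2 (by norm_num) ![Ideal.span {x, z}, Ideal.span {y, t}]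
    (by intro k; fin_cases k <;> simp [F])
    (by
      rw [hprod]
      intro hbot
      have h1 : x * t ∈ (Ideal.span {x, z} : Ideal R) * Ideal.span {y, t} :=
        Ideal.mul_mem_mul (Ideal.subset_span (by simp)) (Ideal.subset_span (by simp))
      rw [hbot, Ideal.mem_bot] at h1
      exact xt_not_mem (by rw [h1]; exact Ideal.zero_mem _))
  exact no_linear_presentation (b 0) (b 1) g (A 0) hg (hA 0) (hspan.trans hprod) hex

end Pool.Agent.S00644
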