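import Pool.Statements.S00645
import Pool.Agent.Helper730.LN6E

set_option autoImplicit false
open Pool Pool.MP_36c61b_al

namespace Pool.Agent.S00645

/-- For every prime p, every class of pro-p groups closed under closed subgroups, continuous images and products that is not nilpotent of bounded class contains such a class that is not nilpotent but whose topologically finitely generated members are nilpotent. -/
theorem result :
  ∀ p : ℕ, p.Prime →
  ∀ V : (G : Type) → [TopologicalSpace G] → [Group G] → [IsTopologicalGroup G] → Prop,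
    ((∀ (G : Type) [TopologicalSpace G] [Group G] [IsTopologicalGroup G], V G →
        CompactSpace G ∧ T2Space G ∧ TotallyDisconnectedSpace G ∧
        ∀ N : Subgroup G, N.Normal → IsOpen (N : Set G) → ∃ k : ℕ, N.index = p ^ k) ∧
     (∀ (G : Type) [TopologicalSpace G] [Group G] [IsTopologicalGroup G], V G →
        ∀ H : Subgroup G, IsClosed (H : Set G) → V (↥H)) ∧
     (∀ (G H : Type) [TopologicalSpace G] [Group G] [IsTopologicalGroup G]
        [TopologicalSpace H] [Group H] [IsTopologicalGroup H], V G →
        (CompactSpace H ∧ T2Space H ∧ TotallyDisconnectedSpace H ∧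
          ∀ N : Subgroup H, N.Normal → IsOpen (N : Set H) → ∃ k : ℕ, N.index = p ^ k) →
        ∀ f : G →* H, Continuous f → Function.Surjective f → V H) ∧
     (∀ (ι : Type) (G : ι → Type) [∀ i, TopologicalSpace (G i)] [∀ i, Group (G i)]
        [∀ i, IsTopologicalGroup (G i)], (∀ i, V (G i)) → V ((i : ι) → G i))) →
    (¬ ∃ c : ℕ, ∀ (G : Type) [TopologicalSpace G] [Group G] [IsTopologicalGroup G],
        V G → upperCentralSeries G c = ⊤) →
    ∃ W : (G : Type) → [TopologicalSpace G] → [Group G] → [IsTopologicalGroup G] → Prop,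
      ((∀ (G : Type) [TopologicalSpace G] [Group G] [IsTopologicalGroup G], W G →
          CompactSpace G ∧ T2Space G ∧ TotallyDisconnectedSpace G ∧
          ∀ N : Subgroup G, N.Normal → IsOpen (N : Set G) → ∃ k : ℕ, N.index = p ^ k) ∧
       (∀ (G : Type) [TopologicalSpace G] [Group G] [IsTopologicalGroup G], W G →
          ∀ H : Subgroup G, IsClosed (H : Set G) → W (↥H)) ∧
       (∀ (G H : Type) [TopologicalSpace G] [Group G] [IsTopologicalGroup G]
          [TopologicalSpace H] [Group H] [IsTopologicalGroup H], W G →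
          (CompactSpace H ∧ T2Space H ∧ TotallyDisconnectedSpace H ∧
            ∀ N : Subgroup H, N.Normal → IsOpen (N : Set H) → ∃ k : ℕ, N.index = p ^ k) →
          ∀ f : G →* H, Continuous f → Function.Surjective f → W H) ∧
       (∀ (ι : Type) (G : ι → Type) [∀ i, TopologicalSpace (G i)] [∀ i, Group (G i)]
          [∀ i, IsTopologicalGroup (G i)], (∀ i, W (G i)) → W ((i : ι) → G i))) ∧
      (∀ (G : Type) [TopologicalSpace G] [Group G] [IsTopologicalGroup G], W G → V G) ∧
      (¬ ∃ c : ℕ, ∀ (G : Type) [TopologicalSpace G] [Group G] [IsTopologicalGroup G],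
          W G → upperCentralSeries G c = ⊤) ∧
      (∀ (G : Type) [TopologicalSpace G] [Group G] [IsTopologicalGroup G], W G →
          ∀ S : Finset G, closure ((Subgroup.closure (S : Set G) : Subgroup G) : Set G) = Set.univ →
          Group.IsNilpotent G) := by
  intro p hp V hV hunb
  obtain ⟨h1, h2, h3, h4⟩ := hV
  obtain ⟨W, hW, hWV, hWu, hWn⟩ := Pool.Agent.Helper730.LN6.main_all hp
    (V := V) ⟨h1, h2, h3, h4⟩ hunb
  exact ⟨W, ⟨hW.proP, hW.sub, hW.quot, hW.prod⟩, hWV, hWu, hWn⟩

end Pool.Agent.S00645
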