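import Pool.Statements.S00647
import Pool.Agent.Helper294.HallM.Final

set_option autoImplicit false
open Pool Pool.MP_36fb39_al

namespace Pool.Agent.S00647

/-- For every finitely generated group G with an abelian normal subgroup whose quotient is polycyclic (solvable with all subgroups f.g.), every subgroup of G has an upper central series that stabilizes after finitely many steps. -/
theorem result :
    ∀ (G : Type) [Group G], Group.FG G →
      (∃ (Q : Type) (_ : Group Q) (f : G →* Q),
          Function.Surjective f ∧ IsSolvable Q ∧ (∀ K : Subgroup Q, K.FG) ∧
            ∀ x ∈ f.ker, ∀ y ∈ f.ker, x * y = y * x) →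
      ∀ H : Subgroup G, ∃ n : ℕ,
        upperCentralSeries (↥H) n = upperCentralSeries (↥H) (n + 1) := by
  exact Pool.Agent.Helper294.HallC.fin_S00647 Pool.Agent.Helper294.HallM.hypp
    Pool.Agent.Helper294.HallM.hyp0

end Pool.Agent.S00647
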