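import Mathlib
import Pool.Statements.S00649

/-!
Decomposability of the variety of alternative algebras (characteristic zero).

Let `A` be the free alternative algebra on countably many generators. In every alternative algebra
without additive torsion of order two, `[[x, y]^2, x]` lies in the nucleus, and the commutator of two
nuclear elements generates an ideal inside the nucleus that annihilates all associators. Let `V` be
the T-ideal generated by the commutators of `[[x, y]^2, x]` with `[[y, x]^2, y]`. The square of `V`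
maps injectively to the free associative algebra: a relation `sum u_i v_i = 0` there can be
trivialised by the weak algorithm, using that `V` is a bimodule over the free associative algebra.
Hence the square of `V` and the T-ideal of identities of associative algebras are two nonzero
T-ideals of `A` with zero intersection.
-/

set_option autoImplicit false
open Pool Pool.MP_3720ba_al

namespace Pool.Agent.S00649

section Identities

variable {Q : Type*} [NonUnitalNonAssocRing Q]

/-- The two alternative laws. -/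
structure IsAlt (Q : Type*) [NonUnitalNonAssocRing Q] : Prop where
  left : ∀ a b : Q, a * a * b = a * (a * b)
  right : ∀ a b : Q, b * a * a = b * (a * a)

variable (hQ : IsAlt Q)

theorem add1 (a a' b c : Q) :
    associator (a + a') b c = associator a b c + associator a' b c := by
  simp only [associator, add_mul]; abel

theorem add2 (a b b' c : Q) :
    associator a (b + b') c = associator a b c + associator a b' c := by
  simp only [associator, add_mul, mul_add]; abel

theorem add3 (a b c c' : Q) :
    associator a b (c + c') = associator a b c + associator a b c' := by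
  simp only [associator, mul_add]; abel

theorem sub1 (a a' b c : Q) :
    associator (a - a') b c = associator a b c - associator a' b c := by
  simp only [associator, sub_mul]; abel

theorem sub2 (a b b' c : Q) :
    associator a (b - b') c = associator a b c - associator a b' c := by
  simp only [associator, sub_mul, mul_sub]; abel

theorem sub3 (a b c c' : Q) :
    associator a b (c - c') = associator a b c - associator a b c' := by
  simp only [associator, mul_sub]; abel

include hQ

theorem z12 (a b : Q) : associator a a b = 0 := by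
  rw [associator, hQ.left, sub_self]

theorem z23 (b a : Q) : associator b a a = 0 := by
  rw [associator, hQ.right, sub_self]

theorem p12 (a b c : Q) : associator a b c = -associator b a c := by
  have h := z12 hQ (a + b) c
  rw [add1, add2, add2, z12 hQ, z12 hQ, zero_add, add_zero] at h
  exact eq_neg_of_add_eq_zero_left h

theorem p23 (a b c : Q) : associator a b c = -associator a c b := by
  have h := z23 hQ a (b + c)
  rw [add2, add3, add3, z23 hQ, z23 hQ, zero_add, add_zero] at h
  exact eq_neg_of_add_eq_zero_left h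

theorem pc1 (a b c : Q) : associator a b c = associator b c a := by
  rw [p12 hQ a b c, p23 hQ b a c, neg_neg]

theorem pc2 (a b c : Q) : associator a b c = associator c a b := by
  rw [p23 hQ a b c, p12 hQ a c b, neg_neg]

theorem p13 (a b c : Q) : associator a b c = -associator c b a := by
  rw [pc1 hQ a b c, p12 hQ b c a]

theorem z13 (a b : Q) : associator a b a = 0 := by
  rw [p12 hQ a b a, z23 hQ, neg_zero]

omit hQ in
/-- The Kleinfeld function. -/
def kf (a b c d : Q) : Q :=
  associator (a * b) c d - b * associator a c d - associator b c d * a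

theorem kf12 (a b c d : Q) : kf a b c d + kf b a c d = 0 := by
  unfold kf
  have k0 : associator (a * b) c d = associator c d (a * b) := by rw [pc1 hQ (a * b) c d]
  have k1 : associator (b * a) c d = associator c d (b * a) := by rw [pc1 hQ (b * a) c d]
  have k2 : b * associator a d c = -(b * associator a c d) := by rw [p23 hQ a d c, mul_neg]
  have k3 : associator (b * a) d c = -(associator c d (b * a)) := by rw [p13 hQ (b * a) d c]
  have k4 : associator b (a * d) c = -(associator b c (a * d)) := by rw [p23 hQ b (a * d) c]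
  have k5 : associator b a (d * c) = -(associator a b (d * c)) := by rw [p12 hQ b a (d * c)]
  have k6 : associator b a d * c = -(associator a b d * c) := by rw [p12 hQ b a d, neg_mul]
  have k7 : d * associator c a b = d * associator a b c := by rw [pc1 hQ c a b]
  have k8 : associator (d * c) a b = associator a b (d * c) := by rw [pc1 hQ (d * c) a b]
  have k9 : associator d (c * a) b = associator b d (c * a) := by rw [pc2 hQ d (c * a) b]
  have k10 : associator d c (a * b) = -(associator c d (a * b)) := by rw [p12 hQ d c (a * b)]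
  have k11 : associator d c a * b = -(associator a c d * b) := by rw [p13 hQ d c a, neg_mul]
  have k12 : d * associator b c a = d * associator a b c := by rw [pc2 hQ b c a]
  have k13 : associator (d * b) c a = -(associator a c (d * b)) := by rw [p13 hQ (d * b) c a]
  have k14 : associator d (b * c) a = associator a d (b * c) := by rw [pc2 hQ d (b * c) a]
  have k15 : associator d b (c * a) = -(associator b d (c * a)) := by rw [p12 hQ d b (c * a)]
  have k16 : associator d b c * a = associator b c d * a := by rw [pc1 hQ d b c]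
  have k17 : a * associator d b c = a * associator b c d := by rw [pc1 hQ d b c]
  have k18 : associator (a * d) b c = associator b c (a * d) := by rw [pc1 hQ (a * d) b c]
  have k19 : associator a (d * b) c = -(associator a c (d * b)) := by rw [p23 hQ a (d * b) c]
  have k20 : associator a d b * c = -(associator a b d * c) := by rw [p23 hQ a d b, neg_mul]
  linear_combination (norm := abel) associator_cocycle b a d c + associator_cocycle d c a b - associator_cocycle d b c a - associator_cocycle a d b c + k0 + k1 - k2 + k3 - k4 + k5 - k6 - k7 + k8 - k9 + k10 - k11 + k12 - k13 + k14 - k15 + k16 + k17 - k18 + k19 + k20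

theorem kf23 (a b c d : Q) : kf a b c d + kf a c b d = 0 := by
  unfold kf
  have k1 : associator (a * c) b d = associator b d (a * c) := by rw [pc1 hQ (a * c) b d]
  have k2 : associator c b d * a = -(associator b c d * a) := by rw [p12 hQ c b d, neg_mul]
  have k3 : c * associator a d b = -(c * associator a b d) := by rw [p23 hQ a d b, mul_neg]
  have k4 : associator (c * a) d b = -(associator b d (c * a)) := by rw [p13 hQ (c * a) d b]
  have k5 : associator c (a * d) b = associator b c (a * d) := by rw [pc2 hQ c (a * d) b]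
  have k6 : associator c a (d * b) = -(associator a c (d * b)) := by rw [p12 hQ c a (d * b)]
  have k7 : associator c a d * b = -(associator a c d * b) := by rw [p12 hQ c a d, neg_mul]
  have k8 : a * associator c d b = a * associator b c d := by rw [pc2 hQ c d b]
  have k9 : associator (a * c) d b = -(associator b d (a * c)) := by rw [p13 hQ (a * c) d b]
  have k10 : associator a (c * d) b = -(associator a b (c * d)) := by rw [p23 hQ a (c * d) b]
  have k11 : b * associator c a d = -(b * associator a c d) := by rw [p12 hQ c a d, mul_neg]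
  have k12 : associator (b * c) a d = associator a d (b * c) := by rw [pc1 hQ (b * c) a d]
  have k13 : associator b (c * a) d = -(associator b d (c * a)) := by rw [p23 hQ b (c * a) d]
  have k14 : associator b c a * d = associator a b c * d := by rw [pc2 hQ b c a]
  have k15 : associator a (b * c) d = -(associator a d (b * c)) := by rw [p23 hQ a (b * c) d]
  linear_combination (norm := abel) associator_cocycle c a d b + associator_cocycle a c d b + associator_cocycle b c a d - associator_cocycle a b c d + k1 - k2 - k3 + k4 - k5 + k6 - k7 - k8 + k9 - k10 - k11 + k12 - k13 - k14 + k15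

theorem mou1 (x y s : Q) : associator x (x * y) s = associator x y s * x := by
  have k0 : associator x (x * y) s = -(associator x s (x * y)) := by rw [p23 hQ x (x * y) s]
  have z1 : y * associator s x x = 0 := by rw [z23 hQ s x, mul_zero]
  have z2 : associator (y * s) x x = 0 := by rw [z23 hQ (y * s) x]
  have k3 : associator y (s * x) x = associator x y (s * x) := by rw [pc2 hQ y (s * x) x]
  have k4 : associator y s x * x = associator x y s * x := by rw [pc2 hQ y s x]
  have z5 : s * associator x x y = 0 := by rw [z12 hQ x y, mul_zero]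
  have k6 : associator (s * x) x y = associator x y (s * x) := by rw [pc1 hQ (s * x) x y]
  have k7 : associator s (x * x) y = associator y s (x * x) := by rw [pc2 hQ s (x * x) y]
  have k8 : associator s x (x * y) = -(associator x s (x * y)) := by rw [p12 hQ s x (x * y)]
  have z9 : associator s x x * y = 0 := by rw [z23 hQ s x, zero_mul]
  linear_combination (norm := abel) - associator_cocycle y s x x - associator_cocycle s x x y + k0 + z1 - z2 + k3 + k4 + z5 - k6 + k7 - k8 + z9

theorem mou2 (x y s : Q) : associator x (y * x) s = x * associator x y s := by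
  have k0 : associator x (y * x) s = -(associator x s (y * x)) := by rw [p23 hQ x (y * x) s]
  have k1 : x * associator x s y = -(x * associator x y s) := by rw [p23 hQ x s y, mul_neg]
  have k2 : associator (x * x) s y = -(associator y s (x * x)) := by rw [p13 hQ (x * x) s y]
  have k3 : associator x (x * s) y = -(associator x y (x * s)) := by rw [p23 hQ x (x * s) y]
  have z4 : associator x x (s * y) = 0 := by rw [z12 hQ x (s * y)]
  have z5 : associator x x s * y = 0 := by rw [z12 hQ x s, zero_mul]
  have z6 : y * associator x x s = 0 := by rw [z12 hQ x s, mul_zero]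
  have k7 : associator (y * x) x s = associator x s (y * x) := by rw [pc1 hQ (y * x) x s]
  have k8 : associator y (x * x) s = -(associator y s (x * x)) := by rw [p23 hQ y (x * x) s]
  have k9 : associator y x (x * s) = -(associator x y (x * s)) := by rw [p12 hQ y x (x * s)]
  have z10 : associator y x x * s = 0 := by rw [z23 hQ y x, zero_mul]
  linear_combination (norm := abel) associator_cocycle x x s y + associator_cocycle y x x s + k0 - k1 + k2 - k3 + z4 - z5 - z6 + k7 - k8 + k9 - z10

/-- If `(c, x, Q) = 0` then `[c, x]` is nuclear. -/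
theorem comm_nuclear (c x : Q) (h : ∀ s, associator c x s = 0) (r s : Q) :
    associator (c * x - x * c) r s = 0 := by
  rw [sub1]
  have h1 : associator (s * r) c x = 0 := by rw [pc1 hQ (s * r) c x]; exact h _
  have h2 : s * associator r c x = 0 := by rw [pc1 hQ r c x, h, mul_zero]
  have h3 : associator s c x * r = 0 := by rw [pc1 hQ s c x, h, zero_mul]
  have k0 : associator (c * x) r s = associator r s (c * x) := by rw [pc1 hQ (c * x) r s]
  have k2 : associator c (x * r) s = -(associator c s (x * r)) := by rw [p23 hQ c (x * r) s]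
  have k3 : c * associator x s r = -(c * associator x r s) := by rw [p23 hQ x s r, mul_neg]
  have k4 : associator (c * x) s r = -(associator r s (c * x)) := by rw [p13 hQ (c * x) s r]
  have k5 : associator c (x * s) r = -(associator c r (x * s)) := by rw [p23 hQ c (x * s) r]
  have k6 : associator x (c * r) s = -(associator x s (c * r)) := by rw [p23 hQ x (c * r) s]
  have k7 : associator x c (r * s) = -(associator c x (r * s)) := by rw [p12 hQ x c (r * s)]
  have k8 : associator x c r * s = -(associator c x r * s) := by rw [p12 hQ x c r, neg_mul]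
  have k9 : x * associator s c r = x * associator c r s := by rw [pc1 hQ s c r]
  have k10 : associator (x * s) c r = associator c r (x * s) := by rw [pc1 hQ (x * s) c r]
  have k11 : associator x (s * c) r = -(associator x r (s * c)) := by rw [p23 hQ x (s * c) r]
  have k12 : associator x s c * r = associator c x s * r := by rw [pc2 hQ x s c]
  have k13 : associator (s * c) x r = associator x r (s * c) := by rw [pc1 hQ (s * c) x r]
  have k14 : associator s (c * x) r = associator r s (c * x) := by rw [pc2 hQ s (c * x) r]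
  have k15 : associator s c (x * r) = -(associator c s (x * r)) := by rw [p12 hQ s c (x * r)]
  have k17 : associator (s * r) c x = associator c x (s * r) := by rw [pc1 hQ (s * r) c x]
  have k18 : s * associator r c x = s * associator c x r := by rw [pc1 hQ r c x]
  linear_combination (norm := abel) associator_cocycle c x r s + associator_cocycle c x s r + associator_cocycle x c r s - associator_cocycle x s c r + associator_cocycle s c x r + h1 - h2 - h3 + (2:ℤ) • k0 - k2 - k3 + k4 - k5 - k6 + k7 - k8 + k9 - k10 + k11 + k12 + k13 - k14 + k15 - k17 + k18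

theorem sq_assoc (a b s : Q) :
    associator (a * a) b s = a * associator a b s + associator a b s * a := by
  have h := associator_cocycle a a b s
  rw [z12 hQ, z12 hQ, mou1 hQ, zero_mul] at h
  linear_combination (norm := abel) - h

omit hQ in
theorem kf_add (a a' b c d : Q) : kf (a + a') b c d = kf a b c d + kf a' b c d := by
  unfold kf
  rw [add_mul, add1, add1, mul_add, mul_add]
  abel

/-- `f(x ∘ y, x, y, s) = -[x, y] ∘ (x, y, s)`. -/
theorem kf_jordan (x y s : Q) :
    kf (x * y + y * x) x y s =
      -((x * y - y * x) * associator x y s + associator x y s * (x * y - y * x)) := by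
  set q := associator x y s with hq
  have e1 : associator (x * y) y s = y * q := by
    rw [p12 hQ (x * y) y s, mou2 hQ y x s, p12 hQ y x s, mul_neg, neg_neg]
  have e2 : associator (y * x) y s = q * y := by
    rw [p12 hQ (y * x) y s, mou1 hQ y x s, p12 hQ y x s, neg_mul, neg_neg]
  have e3 : x * y * x = x * (y * x) := by
    have := z13 hQ x y
    rw [associator] at this
    exact sub_eq_zero.mp this
  have e4 := kf12 hQ x (y * x) y s
  have e5 : kf (x * y) x y s = associator (x * (y * x)) y s - x * (y * q) - q * (x * y) := by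
    rw [kf, e1, e3]
  have e6 : kf x (y * x) y s = associator (x * (y * x)) y s - y * x * q - q * y * x := by
    rw [kf, e2]
  have e7 : associator q y x = -associator x y q := p13 hQ q y x
  have e8 : associator q y x = q * y * x - q * (y * x) := rfl
  have e9 : associator x y q = x * y * q - x * (y * q) := rfl
  rw [kf_add, e5]
  rw [e6] at e4
  rw [sub_mul, mul_sub]
  rw [e8, e9] at e7
  linear_combination (norm := abel) e4 + e7

/-- `[x, y] ∘ (x, y, s) = 0`. -/
theorem comm_jordan_assoc (h2 : ∀ z : Q, z + z = 0 → z = 0) (x y s : Q) :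
    (x * y - y * x) * associator x y s + associator x y s * (x * y - y * x) = 0 := by
  have e1 := kf_jordan hQ x y s
  have e2 := kf_jordan hQ y x s
  have e3 := kf23 hQ (x * y + y * x) x y s
  rw [add_comm (y * x) (x * y), p12 hQ y x s] at e2
  apply h2
  rw [e1, e2] at e3
  simp only [mul_neg, neg_mul, sub_mul, mul_sub] at e3 ⊢
  linear_combination (norm := abel) - e3

/-- `ad x` is a derivation of the Jordan product. -/
theorem ad_jordan (x a b : Q) :
    x * (a * b + b * a) - (a * b + b * a) * x =
      ((x * a - a * x) * b + b * (x * a - a * x)) + (a * (x * b - b * x) + (x * b - b * x) * a) := by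
  have e1 := p23 hQ x a b
  have e2 := p12 hQ a b x
  have e3 := p13 hQ a x b
  simp only [associator] at e1 e2 e3
  simp only [mul_add, add_mul, mul_sub, sub_mul]
  linear_combination (norm := abel) - e1 - e2 + e3

/-- `([x, y]², x, s) = 0`. -/
theorem comm_sq_assoc (h2 : ∀ z : Q, z + z = 0 → z = 0) (x y s : Q) :
    associator ((x * y - y * x) * (x * y - y * x)) x s = 0 := by
  set v := x * y - y * x with hv
  set q := associator x y s with hq
  have e1 : associator x v s = q * x - x * q := by
    rw [hv, sub2, mou1 hQ x y s, mou2 hQ x y s]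
  have e2 : associator v x s = x * q - q * x := by
    rw [p12 hQ v x s, e1, neg_sub]
  rw [sq_assoc hQ, e2]
  have e3 : v * q + q * v = 0 := comm_jordan_assoc hQ h2 x y s
  have e4 := comm_jordan_assoc hQ h2 x (y + v) s
  have e5 := comm_jordan_assoc hQ h2 x v s
  rw [add2, ← hq] at e4
  have e6 : x * (y + v) - (y + v) * x = v + (x * v - v * x) := by
    rw [mul_add, add_mul, hv]; abel
  rw [e6] at e4
  have e7 := ad_jordan hQ x v q
  rw [e3, mul_zero, zero_mul, sub_zero] at e7
  rw [e1] at e4 e5
  apply h2
  simp only [mul_add, add_mul, mul_sub, sub_mul] at e3 e4 e5 e7 ⊢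
  linear_combination (norm := abel) - e4 + e3 + e5 - e7

/-- The nuclear element `[[x, y]², x]`. -/
def nu (x y : Q) : Q :=
  (x * y - y * x) * (x * y - y * x) * x - x * ((x * y - y * x) * (x * y - y * x))

theorem nu_nuclear (h2 : ∀ z : Q, z + z = 0 → z = 0) (x y r s : Q) :
    associator (nu x y) r s = 0 :=
  comm_nuclear hQ _ _ (fun s => comm_sq_assoc hQ h2 x y s) r s

omit hQ in
/-- Nuclear elements. -/
def IsNuc (n : Q) : Prop := ∀ a b : Q, associator n a b = 0

omit hQ in
/-- Nuclear elements that annihilate all associators. -/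
def IsU (w : Q) : Prop := IsNuc w ∧ ∀ a b c : Q, w * associator a b c = 0

theorem IsNuc.two {n : Q} (hn : IsNuc n) (a b : Q) : associator a n b = 0 := by
  rw [p12 hQ, hn, neg_zero]

theorem IsNuc.three {n : Q} (hn : IsNuc n) (a b : Q) : associator a b n = 0 := by
  rw [pc2 hQ, hn]

theorem IsNuc.mul_left {n : Q} (hn : IsNuc n) (a b c : Q) :
    associator (n * a) b c = n * associator a b c := by
  have h := associator_cocycle n a b c
  rw [hn, hn, hn, zero_mul] at h
  linear_combination (norm := abel) - h

theorem IsNuc.mul_right {n : Q} (hn : IsNuc n) (a b c : Q) :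
    associator (a * n) b c = n * associator a b c := by
  have h := associator_cocycle a n b c
  rw [hn, hn.two hQ, hn.two hQ, zero_mul, mul_zero, p12 hQ a (n * b) c, hn.mul_left hQ,
    p12 hQ b a c, mul_neg] at h
  linear_combination (norm := abel) - h

theorem IsNuc.comm_assoc {n : Q} (hn : IsNuc n) (a b c : Q) :
    n * associator a b c = associator a b c * n := by
  have h := associator_cocycle a b c n
  rw [hn.three hQ, hn.three hQ, hn.three hQ, mul_zero, pc2 hQ a b (c * n), hn.mul_right hQ,
    pc1 hQ c a b] at h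
  linear_combination (norm := abel) - h

theorem isNuc_mul {m n : Q} (hm : IsNuc m) (hn : IsNuc n) : IsNuc (m * n) := by
  intro a b
  rw [hm.mul_left hQ, hn, mul_zero]

theorem IsNuc.sub {m n : Q} (hm : IsNuc m) (hn : IsNuc n) : IsNuc (m - n) := by
  intro a b
  rw [sub1, hm, hn, sub_zero]

/-- Commutators of nuclear elements annihilate all associators. -/
theorem isU_comm {m n : Q} (hm : IsNuc m) (hn : IsNuc n) : IsU (m * n - n * m) := by
  refine ⟨(isNuc_mul hQ hm hn).sub hQ (isNuc_mul hQ hn hm), fun a b c => ?_⟩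
  have e1 : m * n * associator a b c = m * (n * associator a b c) :=
    sub_eq_zero.mp (hm n (associator a b c))
  have e2 : n * m * associator a b c = n * (m * associator a b c) :=
    sub_eq_zero.mp (hn m (associator a b c))
  have e3 : m * (n * associator a b c) = n * associator a b c * m := by
    rw [← hn.mul_left hQ, hm.comm_assoc hQ]
  have e4 : n * associator a b c * m = n * (associator a b c * m) :=
    sub_eq_zero.mp (hn (associator a b c) m)
  rw [sub_mul, e1, e2, e3, e4, ← hm.comm_assoc hQ, sub_self]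

theorem IsU.mul_assoc {w : Q} (hw : IsU w) (a b : Q) : w * a * b = w * (a * b) :=
  sub_eq_zero.mp (hw.1 a b)

theorem IsU.mul_assoc2 {w : Q} (hw : IsU w) (a b : Q) : a * w * b = a * (w * b) :=
  sub_eq_zero.mp (hw.1.two hQ a b)

theorem IsU.mul_assoc3 {w : Q} (hw : IsU w) (a b : Q) : a * b * w = a * (b * w) :=
  sub_eq_zero.mp (hw.1.three hQ a b)

theorem IsU.mul_left {w : Q} (hw : IsU w) (a : Q) : IsU (a * w) := by
  refine ⟨fun b c => ?_, fun b c d => ?_⟩
  · rw [hw.1.mul_right hQ, hw.2]
  · rw [hw.mul_assoc2 hQ, hw.2, mul_zero]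

theorem IsU.mul_right {w : Q} (hw : IsU w) (a : Q) : IsU (w * a) := by
  refine ⟨fun b c => ?_, fun b c d => ?_⟩
  · rw [hw.1.mul_left hQ, hw.2]
  · have h := associator_cocycle a b c d
    have h1 : a * associator b c d =
        associator (a * b) c d - associator a (b * c) d + associator a b (c * d)
          - associator a b c * d := by
      linear_combination (norm := abel) h
    rw [hw.mul_assoc hQ, h1, mul_sub, mul_add, mul_sub, hw.2, hw.2, hw.2, ← hw.mul_assoc hQ, hw.2,
      zero_mul]
    simp

omit hQ in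
theorem IsU.add {w w' : Q} (hw : IsU w) (hw' : IsU w') : IsU (w + w') := by
  refine ⟨fun b c => ?_, fun b c d => ?_⟩
  · rw [add1, hw.1, hw'.1, add_zero]
  · rw [add_mul, hw.2, hw'.2, add_zero]

omit hQ in
theorem isU_zero : IsU (0 : Q) := by
  refine ⟨fun b c => ?_, fun b c d => ?_⟩
  · simp [associator]
  · simp

end Identities

section Weak

open MonoidAlgebra MulOpposite

variable {K : Type*} [Field K] {X : Type*}

/-- Left quotient of a noncommutative polynomial by a word. -/
noncomputable def lq (w : FreeMonoid X) (a : MonoidAlgebra K (FreeMonoid X)) :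
    MonoidAlgebra K (FreeMonoid X) :=
  MonoidAlgebra.ofCoeff
    (Finsupp.comapDomain (fun x => w * x) a.coeff (fun _ _ _ _ h => mul_left_cancel h))

theorem lq_coeff (w : FreeMonoid X) (a : MonoidAlgebra K (FreeMonoid X)) (x : FreeMonoid X) :
    (lq w a).coeff x = a.coeff (w * x) := rfl

theorem lq_mul_coeff (w v : FreeMonoid X) (a b : MonoidAlgebra K (FreeMonoid X))
    (h : ∀ x ∈ a.coeff.support, ∀ y ∈ b.coeff.support, x * y = w * v → ∃ x', x = w * x') :
    (lq w a * b).coeff v = (a * b).coeff (w * v) := by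
  classical
  rw [MonoidAlgebra.coeff_mul, MonoidAlgebra.coeff_mul]
  have hinj : Set.InjOn (fun x => w * x) ((fun x => w * x) ⁻¹' (a.coeff.support : Set (FreeMonoid X))) :=
    fun _ _ _ _ h => mul_left_cancel h
  have e1 : ((lq w a).coeff.sum fun m₁ r₁ => b.coeff.sum fun m₂ r₂ => if m₁ * m₂ = v then r₁ * r₂ else 0)
      = ∑ x ∈ (a.coeff.support.preimage (fun x => w * x) hinj).image (fun x => w * x),
        (b.coeff.sum fun m₂ r₂ => if x * m₂ = w * v then a.coeff x * r₂ else 0) := by
    rw [Finset.sum_image (fun _ _ _ _ h => mul_left_cancel h)]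
    unfold Finsupp.sum
    refine Finset.sum_congr rfl fun x hx => ?_
    refine Finset.sum_congr rfl fun y hy => ?_
    have : (w * x * y = w * v) ↔ x * y = v := by
      rw [mul_assoc]; exact mul_right_inj w
    simp only [this]
    rfl
  rw [e1]
  unfold Finsupp.sum
  refine Finset.sum_subset ?_ ?_
  · intro x hx
    rw [Finset.mem_image] at hx
    obtain ⟨x', hx', rfl⟩ := hx
    exact (Finset.mem_preimage.mp hx')
  · intro x hx hx'
    refine Finset.sum_eq_zero fun y hy => ?_
    refine if_neg ?_
    intro hxy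
    obtain ⟨x', rfl⟩ := h x hx y hy hxy
    exact hx' (Finset.mem_image.mpr ⟨x', Finset.mem_preimage.mpr hx, rfl⟩)

theorem exists_left_factor {x y w v : FreeMonoid X} (h : x * y = w * v)
    (hl : w.length ≤ x.length) : ∃ x', x = w * x' := by
  have h' : x.toList ++ y.toList = w.toList ++ v.toList := by
    rw [← FreeMonoid.toList_mul, ← FreeMonoid.toList_mul, h]
  have hp : w.toList <+: x.toList :=
    List.prefix_of_prefix_length_le (List.prefix_append _ _) (h' ▸ List.prefix_append _ _) hl
  obtain ⟨t, ht⟩ := hp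
  exact ⟨FreeMonoid.ofList t, FreeMonoid.toList.injective (by rw [FreeMonoid.toList_mul]; exact ht.symm)⟩

/-- One more than the degree, and zero for the zero polynomial. -/
noncomputable def sz (b : MonoidAlgebra K (FreeMonoid X)) : ℕ :=
  b.coeff.support.sup (fun y => y.length + 1)

theorem sz_zero : sz (0 : MonoidAlgebra K (FreeMonoid X)) = 0 := by
  simp [sz]

theorem eq_zero_of_sz {b : MonoidAlgebra K (FreeMonoid X)} (h : sz b = 0) : b = 0 := by
  rw [← MonoidAlgebra.coeff_eq_zero, ← Finsupp.support_eq_empty, Finset.eq_empty_iff_forall_notMem]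
  intro y hy
  have := Finset.le_sup (f := fun y : FreeMonoid X => y.length + 1) hy
  unfold sz at h
  omega

theorem exists_top {M : Type*} (a : M → MonoidAlgebra K (FreeMonoid X))
    (s : Multiset (M × MonoidAlgebra K (FreeMonoid X)))
    (hs : ∃ p ∈ s, a p.1 ≠ 0 ∧ p.2 ≠ 0) :
    ∃ p₀ ∈ s, ∃ w ∈ (a p₀.1).coeff.support, ∃ y₀ ∈ p₀.2.coeff.support,
      ∀ p ∈ s, ∀ x ∈ (a p.1).coeff.support, ∀ y ∈ p.2.coeff.support,
        x.length + y.length ≤ w.length + y₀.length ∧
        (x.length + y.length = w.length + y₀.length → w.length ≤ x.length) := by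
  classical
  let S : Finset (Σ _ : M × MonoidAlgebra K (FreeMonoid X), FreeMonoid X × FreeMonoid X) :=
    s.toFinset.sigma (fun p => (a p.1).coeff.support ×ˢ p.2.coeff.support)
  have hmem : ∀ p x y, (⟨p, (x, y)⟩ : Σ _ : M × MonoidAlgebra K (FreeMonoid X),
      FreeMonoid X × FreeMonoid X) ∈ S ↔
      p ∈ s ∧ x ∈ (a p.1).coeff.support ∧ y ∈ p.2.coeff.support := by
    intro p x y
    rw [Finset.mem_sigma, Multiset.mem_toFinset, Finset.mem_product]
  have hne : S.Nonempty := by
    obtain ⟨p, hp, h1, h2⟩ := hs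
    rw [Ne, ← MonoidAlgebra.coeff_eq_zero, ← Finsupp.support_eq_empty, ← Ne,
      ← Finset.nonempty_iff_ne_empty] at h1 h2
    obtain ⟨x, hx⟩ := h1
    obtain ⟨y, hy⟩ := h2
    exact ⟨⟨p, (x, y)⟩, (hmem _ _ _).mpr ⟨hp, hx, hy⟩⟩
  obtain ⟨t1, ht1, hmax⟩ := S.exists_max_image (fun t => t.2.1.length + t.2.2.length) hne
  obtain ⟨t2, ht2, hmin⟩ := (S.filter (fun t => t.2.1.length + t.2.2.length =
    t1.2.1.length + t1.2.2.length)).exists_min_image (fun t => t.2.1.length)
    ⟨t1, Finset.mem_filter.mpr ⟨ht1, rfl⟩⟩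
  rw [Finset.mem_filter] at ht2
  obtain ⟨p₀, w, y₀⟩ := t2
  obtain ⟨hp0, hw, hy0⟩ := (hmem _ _ _).mp ht2.1
  refine ⟨p₀, hp0, w, hw, y₀, hy0, ?_⟩
  intro p hp x hx y hy
  have hm := (hmem p x y).mpr ⟨hp, hx, hy⟩
  have h1 := hmax _ hm
  refine ⟨?_, ?_⟩
  · have := ht2.2
    simp only at this h1
    omega
  · intro h
    have h3 := hmin ⟨p, (x, y)⟩ (Finset.mem_filter.mpr ⟨hm, by
      have := ht2.2
      simp only at this ⊢
      omega⟩)
    exact h3

/-- Evaluation of a coefficient as an additive map. -/
noncomputable def evc (v : FreeMonoid X) : MonoidAlgebra K (FreeMonoid X) →+ K where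
  toFun a := a.coeff v
  map_zero' := rfl
  map_add' _ _ := rfl

theorem weak_algorithm {M : Type*} [AddCommGroup M] [Module K M]
    (ρ : MonoidAlgebra K (FreeMonoid X) →ₐ[K] (Module.End K M)ᵐᵒᵖ)
    (ψ : M →ₗ[K] MonoidAlgebra K (FreeMonoid X))
    (hψ : ∀ m r, ψ (unop (ρ r) m) = ψ m * r)
    (W N : Submodule K M) (hW : ∀ m ∈ W, ∀ r, unop (ρ r) m ∈ W) (n : ℕ) :
    ∀ s : Multiset (M × MonoidAlgebra K (FreeMonoid X)),
      (s.map (fun p => sz p.2)).sum ≤ n →
      (∀ p ∈ s, p.1 ∈ W ∧ ∀ z ∈ W, ψ z = 0 → unop (ρ p.2) z ∈ N) →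
      (s.map (fun p => ψ p.1 * p.2)).sum = 0 →
      (s.map (fun p => unop (ρ p.2) p.1)).sum ∈ N := by
  classical
  have caseA : ∀ s : Multiset (M × MonoidAlgebra K (FreeMonoid X)),
      (∀ p ∈ s, p.1 ∈ W ∧ ∀ z ∈ W, ψ z = 0 → unop (ρ p.2) z ∈ N) →
      (∀ p ∈ s, ψ p.1 = 0 ∨ p.2 = 0) →
      (s.map (fun p => unop (ρ p.2) p.1)).sum ∈ N := by
    intro s h1 h2
    refine multiset_sum_mem _ ?_
    intro z hz
    obtain ⟨p, hp, rfl⟩ := Multiset.mem_map.mp hz
    rcases h2 p hp with h | h
    · exact (h1 p hp).2 _ (h1 p hp).1 h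
    · rw [h, map_zero, unop_zero]
      exact N.zero_mem
  have act_mul : ∀ (r r' : MonoidAlgebra K (FreeMonoid X)) (m : M),
      unop (ρ (r * r')) m = unop (ρ r') (unop (ρ r) m) := by
    intro r r' m
    rw [map_mul, unop_mul]
    rfl
  have act_add : ∀ (r r' : MonoidAlgebra K (FreeMonoid X)) (m : M),
      unop (ρ (r + r')) m = unop (ρ r) m + unop (ρ r') m := by
    intro r r' m
    rw [map_add, unop_add]
    rfl
  have act_sum : ∀ (s : Multiset (M × MonoidAlgebra K (FreeMonoid X)))
      (f : M × MonoidAlgebra K (FreeMonoid X) → MonoidAlgebra K (FreeMonoid X)) (m : M),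
      unop (ρ (s.map f).sum) m = (s.map (fun p => unop (ρ (f p)) m)).sum := by
    intro s f m
    induction s using Multiset.induction_on with
    | empty => simp
    | cons p s ih => rw [Multiset.map_cons, Multiset.sum_cons, act_add, ih, Multiset.map_cons,
        Multiset.sum_cons]
  induction n with
  | zero =>
    intro s hs h1 _
    refine caseA s h1 ?_
    intro p hp
    right
    apply eq_zero_of_sz
    have : sz p.2 ≤ (s.map (fun p => sz p.2)).sum :=
      Multiset.single_le_sum (fun _ _ => Nat.zero_le _) _ (Multiset.mem_map_of_mem _ hp)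
    omega
  | succ n ih =>
    intro s hs h1 h0
    by_cases hA : ∀ p ∈ s, ψ p.1 = 0 ∨ p.2 = 0
    · exact caseA s h1 hA
    push Not at hA
    obtain ⟨p₀, hp0, w, hw, y₀, hy0, H⟩ := exists_top ψ s hA
    obtain ⟨s', rfl⟩ := Multiset.exists_cons_of_mem hp0
    set c := (ψ p₀.1).coeff w with hcdef
    have hc : c ≠ 0 := Finsupp.mem_support_iff.mp hw
    let t : M → MonoidAlgebra K (FreeMonoid X) := fun m => c⁻¹ • lq w (ψ m)
    have ht0 : t p₀.1 = 1 := by
      rw [MonoidAlgebra.one_def]
      ext x
      rw [MonoidAlgebra.coeff_single, Finsupp.single_apply]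
      show c⁻¹ * (ψ p₀.1).coeff (w * x) = _
      by_cases hx : (1 : FreeMonoid X) = x
      · rw [if_pos hx, ← hx, mul_one, ← hcdef, inv_mul_cancel₀ hc]
      · rw [if_neg hx]
        have : (ψ p₀.1).coeff (w * x) = 0 := by
          by_contra hne
          have h2 := (H p₀ hp0 (w * x) (Finsupp.mem_support_iff.mpr hne) y₀ hy0).1
          rw [FreeMonoid.length_mul] at h2
          have h3 : x.length = 0 := by omega
          exact hx (FreeMonoid.length_eq_zero.mp h3).symm
        rw [this, mul_zero]
    let β := p₀.2 + (s'.map (fun p => t p.1 * p.2)).sum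
    have hβ1 : β = c⁻¹ • ((p₀ ::ₘ s').map (fun p => lq w (ψ p.1) * p.2)).sum := by
      have e : ∀ p : M × MonoidAlgebra K (FreeMonoid X), t p.1 * p.2 = c⁻¹ • (lq w (ψ p.1) * p.2) :=
        fun p => smul_mul_assoc _ _ _
      rw [Multiset.smul_sum, Multiset.map_map, Multiset.map_cons, Multiset.sum_cons]
      show p₀.2 + _ = _
      congr 1
      · rw [Function.comp_apply, ← e, ht0, one_mul]
      · congr 1
        exact Multiset.map_congr rfl (fun p _ => e p)
    have hβ2 : ∀ v : FreeMonoid X, y₀.length ≤ v.length → β.coeff v = 0 := by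
      intro v hv
      rw [hβ1, MonoidAlgebra.coeff_smul_apply]
      have e2 : evc v ((p₀ ::ₘ s').map (fun p => lq w (ψ p.1) * p.2)).sum =
          evc (w * v) ((p₀ ::ₘ s').map (fun p => ψ p.1 * p.2)).sum := by
        rw [map_multiset_sum, map_multiset_sum, Multiset.map_map, Multiset.map_map]
        congr 1
        refine Multiset.map_congr rfl (fun p hp => ?_)
        refine lq_mul_coeff w v (ψ p.1) p.2 ?_
        intro x hx y hy hxy
        have hlen : x.length + y.length = w.length + v.length := by
          rw [← FreeMonoid.length_mul, hxy, FreeMonoid.length_mul]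
        have h4 := H p hp x hx y hy
        exact exists_left_factor hxy (h4.2 (by omega))
      rw [h0, map_zero] at e2
      have e3 : (((p₀ ::ₘ s').map (fun p => lq w (ψ p.1) * p.2)).sum).coeff v = 0 := e2
      rw [e3, smul_zero]
    have hβ3 : sz β < sz p₀.2 := by
      have h5 : sz β ≤ y₀.length := by
        refine Finset.sup_le ?_
        intro v hv
        by_contra hlt
        exact (Finsupp.mem_support_iff.mp hv) (hβ2 v (by omega))
      have h6 : y₀.length + 1 ≤ sz p₀.2 :=
        Finset.le_sup (f := fun y : FreeMonoid X => y.length + 1) hy0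
      omega
    have h7 := ih ((p₀.1, β) ::ₘ s'.map (fun p => (p.1 - unop (ρ (t p.1)) p₀.1, p.2))) ?_ ?_ ?_
    · convert h7 using 1
      rw [Multiset.map_cons, Multiset.sum_cons, Multiset.map_cons, Multiset.sum_cons,
        Multiset.map_map]
      simp only [Function.comp_def, map_sub]
      rw [Multiset.sum_map_sub]
      show _ = unop (ρ (p₀.2 + (s'.map (fun p => t p.1 * p.2)).sum)) p₀.1 + _
      rw [act_add, act_sum]
      simp only [act_mul]
      abel
    · rw [Multiset.map_cons, Multiset.sum_cons] at hs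
      rw [Multiset.map_cons, Multiset.sum_cons, Multiset.map_map]
      simp only [Function.comp_def]
      omega
    · intro p hp
      rw [Multiset.mem_cons] at hp
      rcases hp with rfl | hp
      · refine ⟨(h1 p₀ hp0).1, ?_⟩
        intro z hz hz0
        show unop (ρ (p₀.2 + (s'.map (fun p => t p.1 * p.2)).sum)) z ∈ N
        rw [act_add, act_sum]
        refine N.add_mem ((h1 p₀ hp0).2 z hz hz0) (multiset_sum_mem _ ?_)
        intro y hy
        obtain ⟨p, hp, rfl⟩ := Multiset.mem_map.mp hy
        rw [act_mul]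
        refine (h1 p (Multiset.mem_cons_of_mem hp)).2 _ (hW z hz _) ?_
        rw [hψ, hz0, zero_mul]
      · obtain ⟨p', hp', rfl⟩ := Multiset.mem_map.mp hp
        have h8 := h1 p' (Multiset.mem_cons_of_mem hp')
        exact ⟨W.sub_mem h8.1 (hW _ (h1 p₀ hp0).1 _), h8.2⟩
    · rw [Multiset.map_cons, Multiset.sum_cons] at h0
      rw [Multiset.map_cons, Multiset.sum_cons, Multiset.map_map]
      simp only [Function.comp_def, map_sub, hψ, sub_mul]
      rw [Multiset.sum_map_sub]
      show ψ p₀.1 * (p₀.2 + (s'.map (fun p => t p.1 * p.2)).sum) + _ = 0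
      rw [mul_add, ← Multiset.sum_map_mul_left]
      simp only [mul_assoc]
      linear_combination (norm := abel) h0

end Weak


section Uu

variable {Q : Type*} [NonUnitalNonAssocRing Q]

/-- The commutator of `[[x, y]², x]` and `[[y, x]², y]`. -/
def uu (x y : Q) : Q := nu x y * nu y x - nu y x * nu x y

theorem isU_uu (hQ : IsAlt Q) (h2 : ∀ z : Q, z + z = 0 → z = 0) (x y : Q) : IsU (uu x y) :=
  isU_comm hQ (nu_nuclear hQ h2 x y) (nu_nuclear hQ h2 y x)

theorem map_nu {Q' F : Type*} [NonUnitalNonAssocRing Q'] [FunLike F Q Q'] [NonUnitalRingHomClass F Q Q']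
    (φ : F) (x y : Q) : φ (nu x y) = nu (φ x) (φ y) := by
  simp only [nu, map_sub, map_mul]

theorem map_uu {Q' F : Type*} [NonUnitalNonAssocRing Q'] [FunLike F Q Q'] [NonUnitalRingHomClass F Q Q']
    (φ : F) (x y : Q) : φ (uu x y) = uu (φ x) (φ y) := by
  simp only [uu, map_nu, map_sub, map_mul]

end Uu

section Plumbing

open MonoidAlgebra MulOpposite

variable (K : Type) [Field K]

/-- The free nonassociative algebra. -/
abbrev FA := MonoidAlgebra K (FreeMagma ℕ)

/-- The free associative algebra. -/
abbrev RA := MonoidAlgebra K (FreeMonoid ℕ)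

noncomputable def gF (i : ℕ) : FA K := MonoidAlgebra.single (FreeMagma.of i) 1

noncomputable def gR (i : ℕ) : RA K := MonoidAlgebra.single (FreeMonoid.of i) 1

variable {K}

theorem FA_ind (p : FA K → Prop) (h0 : p 0) (hg : ∀ i, p (gF K i))
    (hadd : ∀ x y, p x → p y → p (x + y)) (hsmul : ∀ (c : K) x, p x → p (c • x))
    (hmul : ∀ x y, p x → p y → p (x * y)) (x : FA K) : p x := by
  induction x using MonoidAlgebra.induction_linear with
  | zero => exact h0
  | add x y hx hy => exact hadd x y hx hy
  | single m r =>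
    have h1 : p (MonoidAlgebra.single m 1) := by
      induction m with
      | ih1 i => exact hg i
      | ih2 a b ha hb =>
        have : (MonoidAlgebra.single (a * b) 1 : FA K)
            = MonoidAlgebra.single a 1 * MonoidAlgebra.single b 1 := by
          rw [MonoidAlgebra.single_mul_single, one_mul]
        rw [this]
        exact hmul _ _ ha hb
    have h2 : (MonoidAlgebra.single m r : FA K) = r • MonoidAlgebra.single m 1 := by
      rw [MonoidAlgebra.smul_single', mul_one]
    rw [h2]
    exact hsmul _ _ h1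

theorem RA_ind (p : RA K → Prop) (h0 : p 0) (h1 : p 1) (hg : ∀ i r, p r → p (gR K i * r))
    (hadd : ∀ x y, p x → p y → p (x + y)) (hsmul : ∀ (c : K) x, p x → p (c • x))
    (x : RA K) : p x := by
  induction x using MonoidAlgebra.induction_linear with
  | zero => exact h0
  | add x y hx hy => exact hadd x y hx hy
  | single m r =>
    have h3 : p (MonoidAlgebra.single m 1) := by
      induction m using FreeMonoid.recOn with
      | one => exact h1
      | of_mul i w hw =>
        have : (MonoidAlgebra.single (FreeMonoid.of i * w) 1 : RA K)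
            = gR K i * MonoidAlgebra.single w 1 := by
          rw [gR, MonoidAlgebra.single_mul_single, one_mul]
        rw [this]
        exact hg _ _ hw
    have h2 : (MonoidAlgebra.single m r : RA K) = r • MonoidAlgebra.single m 1 := by
      rw [MonoidAlgebra.smul_single', mul_one]
    rw [h2]
    exact hsmul _ _ h3

variable (K)

/-- The canonical map from the free nonassociative to the free associative algebra. -/
noncomputable def psi : FA K →ₙₐ[K] RA K :=
  MonoidAlgebra.liftMagma K (FreeMagma.lift (fun i => gR K i))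

theorem psi_gF (i : ℕ) : psi K (gF K i) = gR K i := by
  simp [psi, gF]

/-- Right action of the free associative algebra on the free nonassociative one. -/
noncomputable def rho : RA K →ₐ[K] (Module.End K (FA K))ᵐᵒᵖ :=
  MonoidAlgebra.lift K _ (FreeMonoid ℕ)
    (FreeMonoid.lift (fun i => op (LinearMap.mulRight K (gF K i))))

/-- Left action. -/
noncomputable def lam : RA K →ₐ[K] Module.End K (FA K) :=
  MonoidAlgebra.lift K _ (FreeMonoid ℕ)
    (FreeMonoid.lift (fun i => LinearMap.mulLeft K (gF K i)))

variable {K}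

/-- Right action as a function. -/
noncomputable def ract (r : RA K) (m : FA K) : FA K := unop (rho K r) m

theorem ract_gR (i : ℕ) (m : FA K) : ract (gR K i) m = m * gF K i := by
  simp [ract, rho, gR]

theorem lam_gR (i : ℕ) (m : FA K) : lam K (gR K i) m = gF K i * m := by
  simp [lam, gR]

theorem ract_mul (r r' : RA K) (m : FA K) : ract (r * r') m = ract r' (ract r m) := by
  rw [ract, map_mul, unop_mul]; rfl

theorem ract_one (m : FA K) : ract (1 : RA K) m = m := by
  rw [ract, map_one, unop_one]; rfl

theorem ract_add (r r' : RA K) (m : FA K) : ract (r + r') m = ract r m + ract r' m := by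
  rw [ract, map_add, unop_add]; rfl

theorem ract_smul (c : K) (r : RA K) (m : FA K) : ract (c • r) m = c • ract r m := by
  rw [ract, map_smul, unop_smul]; rfl

theorem ract_zero (m : FA K) : ract (0 : RA K) m = 0 := by
  rw [ract, map_zero, unop_zero]; rfl

theorem psi_ract (r : RA K) : ∀ m : FA K, psi K (ract r m) = psi K m * r := by
  induction r using RA_ind with
  | h0 => intro m; rw [ract_zero, map_zero, mul_zero]
  | h1 => intro m; rw [ract_one, mul_one]
  | hg i r hr => intro m; rw [ract_mul, hr, ract_gR, map_mul, psi_gF, mul_assoc]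
  | hadd x y hx hy => intro m; rw [ract_add, map_add, hx, hy, mul_add]
  | hsmul c x hx => intro m; rw [ract_smul, map_smul, hx, mul_smul_comm]

variable (K)

/-- The defining property of T-ideals containing the alternative identities. -/
def IsT (T : Submodule K (FA K)) : Prop :=
  (∀ a x : FA K, x ∈ T → a * x ∈ T ∧ x * a ∈ T) ∧
  (∀ φ : FA K →ₙₐ[K] FA K, ∀ x ∈ T, φ x ∈ T) ∧
  (∀ a b : FA K, a * a * b - a * (a * b) ∈ T ∧ b * a * a - b * (a * a) ∈ T)

/-- The T-ideal of alternative identities. -/
noncomputable def A0 : Submodule K (FA K) := sInf {T | IsT K T}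

theorem isT_A0 : IsT K (A0 K) := by
  refine ⟨fun a x hx => ⟨?_, ?_⟩, fun φ x hx => ?_, fun a b => ⟨?_, ?_⟩⟩
  · exact Submodule.mem_sInf.mpr fun T hT => (hT.1 a x (Submodule.mem_sInf.mp hx T hT)).1
  · exact Submodule.mem_sInf.mpr fun T hT => (hT.1 a x (Submodule.mem_sInf.mp hx T hT)).2
  · exact Submodule.mem_sInf.mpr fun T hT => hT.2.1 φ x (Submodule.mem_sInf.mp hx T hT)
  · exact Submodule.mem_sInf.mpr fun T hT => (hT.2.2 a b).1
  · exact Submodule.mem_sInf.mpr fun T hT => (hT.2.2 a b).2

theorem A0_le {T : Submodule K (FA K)} (hT : IsT K T) : A0 K ≤ T := sInf_le hT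

/-- Congruence modulo the alternative identities. -/
noncomputable def acon : RingCon (FA K) where
  r x y := x - y ∈ A0 K
  iseqv := ⟨fun x => by rw [sub_self]; exact (A0 K).zero_mem,
    fun {x y} h => by rw [← neg_sub]; exact (A0 K).neg_mem h,
    fun {x y z} h1 h2 => by
      have := (A0 K).add_mem h1 h2
      rwa [sub_add_sub_cancel] at this⟩
  add' {w x y z} h1 h2 := by
    have := (A0 K).add_mem h1 h2
    rwa [show w - x + (y - z) = w + y - (x + z) by abel] at this
  mul' {w x y z} h1 h2 := by
    have e1 := ((isT_A0 K).1 y _ h1).2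
    have e2 := ((isT_A0 K).1 x _ h2).1
    have := (A0 K).add_mem e1 e2
    rwa [sub_mul, mul_sub, sub_add_sub_cancel] at this

/-- The free alternative algebra. -/
abbrev QA := (acon K).Quotient

variable {K}

theorem coe_eq_iff (x y : FA K) : ((x : QA K) = (y : QA K)) ↔ x - y ∈ A0 K :=
  RingCon.eq _

theorem coe_eq_zero (x : FA K) : ((x : QA K) = 0) ↔ x ∈ A0 K := by
  rw [← RingCon.coe_zero, coe_eq_iff, sub_zero]

theorem coe_associator (x y z : FA K) :
    ((associator x y z : FA K) : QA K) = associator (x : QA K) (y : QA K) (z : QA K) := by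
  simp only [associator, RingCon.coe_sub, RingCon.coe_mul]

theorem isAlt_QA : IsAlt (QA K) := by
  constructor
  · intro a b
    induction a using Quotient.ind
    induction b using Quotient.ind
    rename_i a b
    exact (coe_eq_iff (a * a * b) (a * (a * b))).mpr ((isT_A0 K).2.2 a b).1
  · intro a b
    induction a using Quotient.ind
    induction b using Quotient.ind
    rename_i a b
    exact (coe_eq_iff (b * a * a) (b * (a * a))).mpr ((isT_A0 K).2.2 a b).2

theorem two_QA [CharZero K] (z : QA K) (h : z + z = 0) : z = 0 := by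
  induction z using Quotient.ind
  rename_i z
  have h1 : z + z ∈ A0 K := (coe_eq_zero (z + z)).mp h
  have h2 : (2 : K)⁻¹ • (z + z) ∈ A0 K := (A0 K).smul_mem _ h1
  rw [← two_smul K z, smul_smul, inv_mul_cancel₀ (two_ne_zero), one_smul] at h2
  exact (coe_eq_zero z).mpr h2

theorem isU_iff (w : FA K) : IsU (w : QA K) ↔
    (∀ a b : FA K, associator w a b ∈ A0 K) ∧ ∀ a b c : FA K, w * associator a b c ∈ A0 K := by
  constructor
  · intro h
    refine ⟨fun a b => ?_, fun a b c => ?_⟩
    · rw [← coe_eq_zero, coe_associator]; exact h.1 _ _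
    · rw [← coe_eq_zero, RingCon.coe_mul, coe_associator]; exact h.2 _ _ _
  · intro h
    refine ⟨fun a b => ?_, fun a b c => ?_⟩
    · induction a using Quotient.ind
      induction b using Quotient.ind
      rename_i a b
      exact (coe_associator w a b).symm.trans ((coe_eq_zero _).mpr (h.1 a b))
    · induction a using Quotient.ind
      induction b using Quotient.ind
      induction c using Quotient.ind
      rename_i a b c
      have e := (coe_eq_zero (w * associator a b c)).mpr (h.2 a b c)
      rw [RingCon.coe_mul, coe_associator] at e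
      exact e

variable (K)

/-- Preimage of the ideal `U`. -/
noncomputable def UU : Submodule K (FA K) where
  carrier := {w | IsU (w : QA K)}
  add_mem' {a b} ha hb := by
    show IsU ((a + b : FA K) : QA K)
    rw [RingCon.coe_add]; exact IsU.add ha hb
  zero_mem' := by
    show IsU ((0 : FA K) : QA K)
    rw [RingCon.coe_zero]; exact isU_zero
  smul_mem' c x hx := by
    have hx' := (isU_iff x).mp hx
    refine (isU_iff (c • x)).mpr ⟨fun a b => ?_, fun a b d => ?_⟩
    · have : associator (c • x) a b = c • associator x a b := by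
        simp only [associator, smul_mul_assoc, smul_sub]
      rw [this]; exact (A0 K).smul_mem _ (hx'.1 a b)
    · rw [smul_mul_assoc]; exact (A0 K).smul_mem _ (hx'.2 a b d)

variable {K}

theorem UU_left {w : FA K} (hw : w ∈ UU K) (a : FA K) : a * w ∈ UU K := by
  show IsU ((a * w : FA K) : QA K)
  rw [RingCon.coe_mul]; exact IsU.mul_left isAlt_QA hw _

theorem UU_right {w : FA K} (hw : w ∈ UU K) (a : FA K) : w * a ∈ UU K := by
  show IsU ((w * a : FA K) : QA K)
  rw [RingCon.coe_mul]; exact IsU.mul_right isAlt_QA hw _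

theorem A0_le_UU : A0 K ≤ UU K := by
  intro x hx
  show IsU (x : QA K)
  rw [(coe_eq_zero x).mpr hx]; exact isU_zero

theorem uu_mem_UU [CharZero K] (a b : FA K) : uu a b ∈ UU K := by
  show IsU ((uu a b : FA K) : QA K)
  have : ((uu a b : FA K) : QA K) = uu (a : QA K) (b : QA K) := by
    simp only [uu, nu, RingCon.coe_sub, RingCon.coe_mul]
  rw [this]
  exact isU_uu isAlt_QA two_QA _ _

theorem UU_assoc1 {w : FA K} (hw : w ∈ UU K) (a b : FA K) : w * a * b - w * (a * b) ∈ A0 K :=
  ((isU_iff w).mp hw).1 a b

theorem UU_assoc2 {w : FA K} (hw : w ∈ UU K) (a b : FA K) : a * w * b - a * (w * b) ∈ A0 K := by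
  rw [← coe_eq_iff, RingCon.coe_mul, RingCon.coe_mul, RingCon.coe_mul, RingCon.coe_mul]
  exact IsU.mul_assoc2 isAlt_QA hw _ _

theorem UU_assoc3 {w : FA K} (hw : w ∈ UU K) (a b : FA K) : a * b * w - a * (b * w) ∈ A0 K := by
  rw [← coe_eq_iff, RingCon.coe_mul, RingCon.coe_mul, RingCon.coe_mul, RingCon.coe_mul]
  exact IsU.mul_assoc3 isAlt_QA hw _ _

theorem ract_mem (T : Submodule K (FA K)) (hT : ∀ a x : FA K, x ∈ T → x * a ∈ T)
    (r : RA K) : ∀ m ∈ T, ract r m ∈ T := by
  induction r using RA_ind with
  | h0 => intro m _; rw [ract_zero]; exact T.zero_mem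
  | h1 => intro m hm; rwa [ract_one]
  | hg i r hr => intro m hm; rw [ract_mul, ract_gR]; exact hr _ (hT _ _ hm)
  | hadd x y hx hy => intro m hm; rw [ract_add]; exact T.add_mem (hx m hm) (hy m hm)
  | hsmul c x hx => intro m hm; rw [ract_smul]; exact T.smul_mem _ (hx m hm)

theorem lam_mem (T : Submodule K (FA K)) (hT : ∀ a x : FA K, x ∈ T → a * x ∈ T)
    (r : RA K) : ∀ m ∈ T, lam K r m ∈ T := by
  induction r using RA_ind with
  | h0 => intro m _; rw [map_zero]; exact T.zero_mem
  | h1 => intro m hm; rw [map_one]; exact hm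
  | hg i r hr =>
    intro m hm
    rw [map_mul]
    show lam K (gR K i) (lam K r m) ∈ T
    rw [lam_gR]; exact hT _ _ (hr _ hm)
  | hadd x y hx hy => intro m hm; rw [map_add]; exact T.add_mem (hx m hm) (hy m hm)
  | hsmul c x hx => intro m hm; rw [map_smul]; exact T.smul_mem _ (hx m hm)

theorem mul_eq_ract (f : FA K) : ∀ u ∈ UU K, u * f - ract (psi K f) u ∈ A0 K := by
  induction f using FA_ind with
  | h0 => intro u _; rw [mul_zero, map_zero, ract_zero, sub_zero]; exact (A0 K).zero_mem
  | hg i => intro u _; rw [psi_gF, ract_gR, sub_self]; exact (A0 K).zero_mem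
  | hadd x y hx hy =>
    intro u hu
    have := (A0 K).add_mem (hx u hu) (hy u hu)
    rwa [mul_add, map_add, ract_add, add_sub_add_comm]
  | hsmul c x hx =>
    intro u hu
    have := (A0 K).smul_mem c (hx u hu)
    rwa [mul_smul_comm, map_smul, ract_smul, ← smul_sub]
  | hmul x y hx hy =>
    intro u hu
    have e1 := (A0 K).neg_mem (UU_assoc1 hu x y)
    have e2 := hy _ (UU_right hu x)
    have e3 := ract_mem (A0 K) (fun a x hx => ((isT_A0 K).1 a x hx).2) (psi K y) _ (hx u hu)
    have e4 : ract (psi K y) (u * x - ract (psi K x) u) =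
        ract (psi K y) (u * x) - ract (psi K y) (ract (psi K x) u) := by
      rw [ract, map_sub]; rfl
    rw [e4] at e3
    have := (A0 K).add_mem ((A0 K).add_mem e1 e2) e3
    rw [map_mul, ract_mul]
    convert this using 1
    abel

theorem mul_eq_lam (f : FA K) : ∀ u ∈ UU K, f * u - lam K (psi K f) u ∈ A0 K := by
  induction f using FA_ind with
  | h0 =>
    intro u _
    rw [zero_mul, map_zero, map_zero, LinearMap.zero_apply, sub_zero]; exact (A0 K).zero_mem
  | hg i => intro u _; rw [psi_gF, lam_gR, sub_self]; exact (A0 K).zero_mem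
  | hadd x y hx hy =>
    intro u hu
    have := (A0 K).add_mem (hx u hu) (hy u hu)
    rwa [add_mul, map_add, map_add, LinearMap.add_apply, add_sub_add_comm]
  | hsmul c x hx =>
    intro u hu
    have := (A0 K).smul_mem c (hx u hu)
    rwa [smul_mul_assoc, map_smul, map_smul, LinearMap.smul_apply, ← smul_sub]
  | hmul x y hx hy =>
    intro u hu
    have e1 := UU_assoc3 hu x y
    have e2 := hx _ (UU_left hu y)
    have e3 := lam_mem (A0 K) (fun a x hx => ((isT_A0 K).1 a x hx).1) (psi K x) _ (hy u hu)
    rw [map_sub] at e3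
    have := (A0 K).add_mem ((A0 K).add_mem e1 e2) e3
    rw [map_mul, map_mul]
    show x * y * u - lam K (psi K x) (lam K (psi K y) u) ∈ A0 K
    convert this using 1
    abel

theorem ract_psi_zero {z v : FA K} (hz : z ∈ UU K) (hz0 : psi K z = 0) (hv : v ∈ UU K) :
    ract (psi K v) z ∈ A0 K := by
  have e1 := mul_eq_ract v z hz
  have e2 := mul_eq_lam z v hv
  rw [hz0, map_zero, LinearMap.zero_apply, sub_zero] at e2
  have := (A0 K).sub_mem e2 e1
  rwa [sub_sub_cancel] at this

end Plumbing


section Final

open MonoidAlgebra MulOpposite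

variable (K : Type) [Field K]

/-- Two-sided ideals containing the alternative identities and all values of `uu`. -/
def IsV (T : Submodule K (FA K)) : Prop :=
  (∀ a x : FA K, x ∈ T → a * x ∈ T ∧ x * a ∈ T) ∧ A0 K ≤ T ∧ ∀ a b : FA K, uu a b ∈ T

/-- The smallest such ideal. -/
noncomputable def VV : Submodule K (FA K) := sInf {T | IsV K T}

theorem VV_ideal (a x : FA K) (hx : x ∈ VV K) : a * x ∈ VV K ∧ x * a ∈ VV K :=
  ⟨Submodule.mem_sInf.mpr fun T hT => (hT.1 a x (Submodule.mem_sInf.mp hx T hT)).1,
    Submodule.mem_sInf.mpr fun T hT => (hT.1 a x (Submodule.mem_sInf.mp hx T hT)).2⟩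

theorem A0_le_VV : A0 K ≤ VV K := le_sInf fun _ hT => hT.2.1

theorem uu_mem_VV (a b : FA K) : uu a b ∈ VV K :=
  Submodule.mem_sInf.mpr fun _ hT => hT.2.2 a b

theorem VV_le {T : Submodule K (FA K)} (hT : IsV K T) : VV K ≤ T := sInf_le hT

theorem VV_le_UU [CharZero K] : VV K ≤ UU K :=
  VV_le K ⟨fun a _ hx => ⟨UU_left hx a, UU_right hx a⟩, A0_le_UU, uu_mem_UU⟩

theorem VV_map (φ : FA K →ₙₐ[K] FA K) (x : FA K) (hx : x ∈ VV K) : φ x ∈ VV K := by
  have h : VV K ≤ (VV K).comap (φ : FA K →ₗ[K] FA K) := by
    refine VV_le K ⟨fun a x hx => ?_, fun x hx => ?_, fun a b => ?_⟩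
    · constructor
      · show φ (a * x) ∈ VV K
        rw [map_mul]; exact (VV_ideal K _ _ hx).1
      · show φ (x * a) ∈ VV K
        rw [map_mul]; exact (VV_ideal K _ _ hx).2
    · exact A0_le_VV K ((isT_A0 K).2.1 φ x hx)
    · show φ (uu a b) ∈ VV K
      rw [map_uu]; exact uu_mem_VV K _ _
  exact h hx

/-- The first T-ideal: the square of `VV`. -/
noncomputable def II : Submodule K (FA K) :=
  A0 K ⊔ Submodule.span K {x | ∃ u ∈ VV K, ∃ v ∈ VV K, x = u * v}

theorem mul_mem_II {u v : FA K} (hu : u ∈ VV K) (hv : v ∈ VV K) : u * v ∈ II K :=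
  Submodule.mem_sup_right (Submodule.subset_span ⟨u, hu, v, hv, rfl⟩)

theorem A0_le_II : A0 K ≤ II K := le_sup_left

theorem II_le {T : Submodule K (FA K)} (h1 : A0 K ≤ T)
    (h2 : ∀ u ∈ VV K, ∀ v ∈ VV K, u * v ∈ T) : II K ≤ T := by
  refine sup_le h1 (Submodule.span_le.mpr ?_)
  rintro _ ⟨u, hu, v, hv, rfl⟩
  exact h2 u hu v hv

theorem isT_II [CharZero K] : IsT K (II K) := by
  refine ⟨fun a x hx => ⟨?_, ?_⟩, fun φ x hx => ?_, fun a b => ?_⟩
  · have h : II K ≤ (II K).comap (LinearMap.mulLeft K a) := by
      refine II_le K (fun x hx => A0_le_II K ((isT_A0 K).1 a x hx).1) (fun u hu v hv => ?_)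
      show a * (u * v) ∈ II K
      have e1 := A0_le_II K (UU_assoc2 (VV_le_UU K hu) a v)
      have e2 := mul_mem_II K (VV_ideal K a u hu).1 hv
      have := (II K).sub_mem e2 e1
      rwa [sub_sub_cancel] at this
    exact h hx
  · have h : II K ≤ (II K).comap (LinearMap.mulRight K a) := by
      refine II_le K (fun x hx => A0_le_II K ((isT_A0 K).1 a x hx).2) (fun u hu v hv => ?_)
      show u * v * a ∈ II K
      have e1 := A0_le_II K (UU_assoc1 (VV_le_UU K hu) v a)
      have e2 := mul_mem_II K hu (VV_ideal K a v hv).2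
      have := (II K).add_mem e1 e2
      rwa [sub_add_cancel] at this
    exact h hx
  · have h : II K ≤ (II K).comap (φ : FA K →ₗ[K] FA K) := by
      refine II_le K (fun x hx => A0_le_II K ((isT_A0 K).2.1 φ x hx)) (fun u hu v hv => ?_)
      show φ (u * v) ∈ II K
      rw [map_mul]
      exact mul_mem_II K (VV_map K φ u hu) (VV_map K φ v hv)
    exact h hx
  · exact ⟨A0_le_II K ((isT_A0 K).2.2 a b).1, A0_le_II K ((isT_A0 K).2.2 a b).2⟩

/-- The second T-ideal: the identities of associative algebras. -/
noncomputable def JJ : Submodule K (FA K) := LinearMap.ker (psi K : FA K →ₗ[K] RA K)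

theorem mem_JJ (x : FA K) : x ∈ JJ K ↔ psi K x = 0 := Iff.rfl

theorem psi_comp (φ : FA K →ₙₐ[K] FA K) (x : FA K) :
    psi K (φ x) = MonoidAlgebra.lift K (RA K) (FreeMonoid ℕ)
      (FreeMonoid.lift (fun i => psi K (φ (gF K i)))) (psi K x) := by
  induction x using FA_ind with
  | h0 => simp only [map_zero]
  | hg i => rw [psi_gF]; simp [gR]
  | hadd x y hx hy => rw [map_add, map_add, map_add, map_add, hx, hy]
  | hsmul c x hx => rw [map_smul, map_smul, map_smul, map_smul, hx]
  | hmul x y hx hy => rw [map_mul, map_mul, map_mul, map_mul, hx, hy]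

theorem isT_JJ : IsT K (JJ K) := by
  refine ⟨fun a x hx => ⟨?_, ?_⟩, fun φ x hx => ?_, fun a b => ⟨?_, ?_⟩⟩
  · rw [mem_JJ] at hx ⊢
    rw [map_mul, hx, mul_zero]
  · rw [mem_JJ] at hx ⊢
    rw [map_mul, hx, zero_mul]
  · rw [mem_JJ] at hx ⊢
    rw [psi_comp, hx, map_zero]
  · rw [mem_JJ, map_sub, map_mul, map_mul, map_mul, map_mul, mul_assoc, sub_self]
  · rw [mem_JJ, map_sub, map_mul, map_mul, map_mul, map_mul, mul_assoc, sub_self]

theorem span_repr (x : FA K)
    (hx : x ∈ Submodule.span K {x | ∃ u ∈ VV K, ∃ v ∈ VV K, x = u * v}) :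
    ∃ s : Multiset (FA K × FA K), (∀ p ∈ s, p.1 ∈ VV K ∧ p.2 ∈ VV K) ∧
      x = (s.map (fun p => p.1 * p.2)).sum := by
  induction hx using Submodule.span_induction with
  | mem x h =>
    obtain ⟨u, hu, v, hv, rfl⟩ := h
    refine ⟨{(u, v)}, ?_, by simp⟩
    intro p hp
    rw [Multiset.mem_singleton] at hp
    subst hp
    exact ⟨hu, hv⟩
  | zero => exact ⟨0, by simp, by simp⟩
  | add x y _ _ hx hy =>
    obtain ⟨s, hs, rfl⟩ := hx
    obtain ⟨t, ht, rfl⟩ := hy
    refine ⟨s + t, ?_, by rw [Multiset.map_add, Multiset.sum_add]⟩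
    intro p hp
    rcases Multiset.mem_add.mp hp with h | h
    · exact hs p h
    · exact ht p h
  | smul c x _ hx =>
    obtain ⟨s, hs, rfl⟩ := hx
    refine ⟨s.map (fun p => (c • p.1, p.2)), ?_, ?_⟩
    · intro p hp
      obtain ⟨q, hq, rfl⟩ := Multiset.mem_map.mp hp
      exact ⟨(VV K).smul_mem c (hs q hq).1, (hs q hq).2⟩
    · rw [Multiset.smul_sum, Multiset.map_map, Multiset.map_map]
      congr 1
      refine Multiset.map_congr rfl (fun p _ => ?_)
      simp [smul_mul_assoc]

theorem inter_le [CharZero K] (x : FA K) (hx : x ∈ II K) (hx0 : psi K x = 0) : x ∈ A0 K := by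
  obtain ⟨a, ha, y, hy, rfl⟩ := Submodule.mem_sup.mp hx
  have ha0 : psi K a = 0 := A0_le K (isT_JJ K) ha
  rw [map_add, ha0, zero_add] at hx0
  refine (A0 K).add_mem ha ?_
  obtain ⟨s, hs, rfl⟩ := span_repr K y hy
  have key := weak_algorithm (rho K) (psi K : FA K →ₗ[K] RA K) (fun m r => psi_ract r m)
    (UU K) (A0 K) (fun m hm r => ract_mem (UU K) (fun a x hx => UU_right hx a) r m hm)
    ((s.map (fun p => (p.1, psi K p.2))).map (fun p => sz p.2)).sum
    (s.map (fun p => (p.1, psi K p.2))) le_rfl ?_ ?_
  · rw [Multiset.map_map] at key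
    have e : (s.map (fun p => p.1 * p.2)).sum =
        (s.map (fun p => p.1 * p.2 - ract (psi K p.2) p.1)).sum +
        (s.map (fun p => ract (psi K p.2) p.1)).sum := by
      rw [← Multiset.sum_map_add]
      congr 1
      refine Multiset.map_congr rfl (fun p _ => ?_)
      abel
    rw [e]
    refine (A0 K).add_mem (multiset_sum_mem _ ?_) key
    intro z hz
    obtain ⟨p, hp, rfl⟩ := Multiset.mem_map.mp hz
    exact mul_eq_ract p.2 p.1 (VV_le_UU K (hs p hp).1)
  · intro q hq
    obtain ⟨p, hp, rfl⟩ := Multiset.mem_map.mp hq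
    refine ⟨VV_le_UU K (hs p hp).1, fun z hz hz0 => ?_⟩
    exact ract_psi_zero hz hz0 (VV_le_UU K (hs p hp).2)
  · rw [Multiset.map_map]
    rw [map_multiset_sum, Multiset.map_map] at hx0
    rw [← hx0]
    congr 1
    refine Multiset.map_congr rfl (fun p _ => ?_)
    simp only [Function.comp_apply, map_mul]
    rfl

/-- Identities of an alternative algebra. -/
def Tid (C : Type) [NonUnitalNonAssocRing C] [Module K C] : Submodule K (FA K) where
  carrier := {x | ∀ χ : FA K →ₙₐ[K] C, χ x = 0}
  add_mem' {a b} ha hb := fun χ => by rw [map_add, ha χ, hb χ, add_zero]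
  zero_mem' := fun χ => map_zero χ
  smul_mem' c x hx := fun χ => by rw [map_smul, hx χ, smul_zero]

theorem isT_Tid (C : Type) [NonUnitalNonAssocRing C] [Module K C] (hC : IsAlt C) :
    IsT K (Tid K C) := by
  refine ⟨fun a x hx => ⟨?_, ?_⟩, fun φ x hx => ?_, fun a b => ⟨?_, ?_⟩⟩
  · intro χ; rw [map_mul, hx χ, mul_zero]
  · intro χ; rw [map_mul, hx χ, zero_mul]
  · intro χ; exact hx (χ.comp φ)
  · intro χ; rw [map_sub, map_mul, map_mul, map_mul, map_mul, hC.left, sub_self]
  · intro χ; rw [map_sub, map_mul, map_mul, map_mul, map_mul, hC.right, sub_self]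

theorem isAlt_of_assoc (C : Type) [NonUnitalRing C] : IsAlt C :=
  ⟨fun a b => mul_assoc a a b, fun a b => mul_assoc b a a⟩

/-- Test matrices. -/
def mA : Matrix (Fin 3) (Fin 3) ℤ := !![0, 0, 0; 0, 0, 1; 0, 1, 0]
def mB : Matrix (Fin 3) (Fin 3) ℤ := !![0, 0, 1; 1, 0, 0; 0, 0, 0]

theorem uu_mat : (uu mA mB * uu mA mB) 2 1 = -1 := by
  decide +kernel

theorem not_II_le [CharZero K] : ¬ II K ≤ Tid K (Matrix (Fin 3) (Fin 3) K) := by
  intro h
  have h1 : uu (gF K 0) (gF K 1) * uu (gF K 0) (gF K 1) ∈ II K :=
    mul_mem_II K (uu_mem_VV K _ _) (uu_mem_VV K _ _)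
  let f : Matrix (Fin 3) (Fin 3) ℤ →+* Matrix (Fin 3) (Fin 3) K := (Int.castRingHom K).mapMatrix
  let χ : FA K →ₙₐ[K] Matrix (Fin 3) (Fin 3) K :=
    MonoidAlgebra.liftMagma K (FreeMagma.lift (fun i => if i = 0 then f mA else f mB))
  have h2 := h h1 χ
  have e0 : χ (gF K 0) = f mA := by simp [χ, gF]
  have e1 : χ (gF K 1) = f mB := by simp [χ, gF]
  rw [map_mul, map_uu, e0, e1, ← map_uu f, ← map_mul] at h2
  have h3 := congrFun (congrFun h2 2) 1
  have h4 : f (uu mA mB * uu mA mB) 2 1 = (((uu mA mB * uu mA mB) 2 1 : ℤ) : K) := rfl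
  rw [h4, uu_mat] at h3
  norm_num at h3

/-- A four-dimensional alternative algebra that is not associative. -/
@[ext] structure C4 (K : Type) where
  a : K
  b : K
  c : K
  d : K

instance : Zero (C4 K) := ⟨⟨0, 0, 0, 0⟩⟩
instance : Add (C4 K) := ⟨fun x y => ⟨x.a + y.a, x.b + y.b, x.c + y.c, x.d + y.d⟩⟩
instance : Neg (C4 K) := ⟨fun x => ⟨-x.a, -x.b, -x.c, -x.d⟩⟩
instance : SMul K (C4 K) := ⟨fun t x => ⟨t * x.a, t * x.b, t * x.c, t * x.d⟩⟩
instance : Mul (C4 K) := ⟨fun x y => ⟨x.a * y.a, x.a * y.b, x.a * y.c,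
  x.d * y.a + x.b * y.c - x.c * y.b⟩⟩


theorem C4.zero_a : (0 : C4 K).a = 0 := rfl
theorem C4.zero_b : (0 : C4 K).b = 0 := rfl
theorem C4.zero_c : (0 : C4 K).c = 0 := rfl
theorem C4.zero_d : (0 : C4 K).d = 0 := rfl
theorem C4.add_a (x y : C4 K) : (x + y).a = x.a + y.a := rfl
theorem C4.add_b (x y : C4 K) : (x + y).b = x.b + y.b := rfl
theorem C4.add_c (x y : C4 K) : (x + y).c = x.c + y.c := rfl
theorem C4.add_d (x y : C4 K) : (x + y).d = x.d + y.d := rfl
theorem C4.neg_a (x : C4 K) : (-x).a = -x.a := rfl
theorem C4.neg_b (x : C4 K) : (-x).b = -x.b := rfl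
theorem C4.neg_c (x : C4 K) : (-x).c = -x.c := rfl
theorem C4.neg_d (x : C4 K) : (-x).d = -x.d := rfl
theorem C4.smul_a (t : K) (x : C4 K) : (t • x).a = t * x.a := rfl
theorem C4.smul_b (t : K) (x : C4 K) : (t • x).b = t * x.b := rfl
theorem C4.smul_c (t : K) (x : C4 K) : (t • x).c = t * x.c := rfl
theorem C4.smul_d (t : K) (x : C4 K) : (t • x).d = t * x.d := rfl
theorem C4.mul_a (x y : C4 K) : (x * y).a = x.a * y.a := rfl
theorem C4.mul_b (x y : C4 K) : (x * y).b = x.a * y.b := rfl
theorem C4.mul_c (x y : C4 K) : (x * y).c = x.a * y.c := rfl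
theorem C4.mul_d (x y : C4 K) : (x * y).d = x.d * y.a + x.b * y.c - x.c * y.b := rfl

noncomputable instance : AddCommGroup (C4 K) where
  add_assoc x y z := by ext <;> simp only [C4.add_a, C4.add_b, C4.add_c, C4.add_d, add_assoc]
  zero_add x := by ext <;> simp only [C4.add_a, C4.add_b, C4.add_c, C4.add_d, C4.zero_a,
    C4.zero_b, C4.zero_c, C4.zero_d, zero_add]
  add_zero x := by ext <;> simp only [C4.add_a, C4.add_b, C4.add_c, C4.add_d, C4.zero_a,
    C4.zero_b, C4.zero_c, C4.zero_d, add_zero]
  nsmul := nsmulRec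
  zsmul := zsmulRec
  neg_add_cancel x := by ext <;> simp only [C4.add_a, C4.add_b, C4.add_c, C4.add_d, C4.zero_a,
    C4.zero_b, C4.zero_c, C4.zero_d, C4.neg_a, C4.neg_b, C4.neg_c, C4.neg_d, neg_add_cancel]
  add_comm x y := by ext <;> simp only [C4.add_a, C4.add_b, C4.add_c, C4.add_d, add_comm]

noncomputable instance : NonUnitalNonAssocRing (C4 K) where
  left_distrib x y z := by
    ext <;> simp only [C4.add_a, C4.add_b, C4.add_c, C4.add_d, C4.mul_a, C4.mul_b, C4.mul_c,
      C4.mul_d] <;> ring
  right_distrib x y z := by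
    ext <;> simp only [C4.add_a, C4.add_b, C4.add_c, C4.add_d, C4.mul_a, C4.mul_b, C4.mul_c,
      C4.mul_d] <;> ring
  zero_mul x := by
    ext <;> simp only [C4.zero_a, C4.zero_b, C4.zero_c, C4.zero_d, C4.mul_a, C4.mul_b, C4.mul_c,
      C4.mul_d] <;> ring
  mul_zero x := by
    ext <;> simp only [C4.zero_a, C4.zero_b, C4.zero_c, C4.zero_d, C4.mul_a, C4.mul_b, C4.mul_c,
      C4.mul_d] <;> ring

noncomputable instance : Module K (C4 K) where
  one_smul x := by ext <;> simp only [C4.smul_a, C4.smul_b, C4.smul_c, C4.smul_d, one_mul]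
  mul_smul s t x := by ext <;> simp only [C4.smul_a, C4.smul_b, C4.smul_c, C4.smul_d, mul_assoc]
  smul_zero t := by ext <;> simp only [C4.smul_a, C4.smul_b, C4.smul_c, C4.smul_d, C4.zero_a,
    C4.zero_b, C4.zero_c, C4.zero_d, mul_zero]
  smul_add t x y := by ext <;> simp only [C4.smul_a, C4.smul_b, C4.smul_c, C4.smul_d, C4.add_a,
    C4.add_b, C4.add_c, C4.add_d, mul_add]
  add_smul s t x := by ext <;> simp only [C4.smul_a, C4.smul_b, C4.smul_c, C4.smul_d, C4.add_a,
    C4.add_b, C4.add_c, C4.add_d, add_mul]
  zero_smul x := by ext <;> simp only [C4.smul_a, C4.smul_b, C4.smul_c, C4.smul_d, C4.zero_a,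
    C4.zero_b, C4.zero_c, C4.zero_d, zero_mul]

instance : IsScalarTower K (C4 K) (C4 K) where
  smul_assoc t x y := by
    ext <;> simp only [smul_eq_mul, C4.smul_a, C4.smul_b, C4.smul_c, C4.smul_d, C4.mul_a,
      C4.mul_b, C4.mul_c, C4.mul_d] <;> ring

instance : SMulCommClass K (C4 K) (C4 K) where
  smul_comm t x y := by
    ext <;> simp only [smul_eq_mul, C4.smul_a, C4.smul_b, C4.smul_c, C4.smul_d, C4.mul_a,
      C4.mul_b, C4.mul_c, C4.mul_d] <;> ring

theorem isAlt_C4 : IsAlt (C4 K) := by
  constructor
  · intro x y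
    ext <;> simp only [C4.mul_a, C4.mul_b, C4.mul_c, C4.mul_d] <;> ring
  · intro x y
    ext <;> simp only [C4.mul_a, C4.mul_b, C4.mul_c, C4.mul_d] <;> ring

theorem not_JJ_le : ¬ JJ K ≤ Tid K (C4 K) := by
  intro h
  have h1 : associator (gF K 0) (gF K 1) (gF K 2) ∈ JJ K := by
    rw [mem_JJ, associator, map_sub, map_mul, map_mul, map_mul, map_mul, mul_assoc, sub_self]
  let g : ℕ → C4 K := fun i => if i = 0 then ⟨1, 0, 0, 0⟩ else if i = 1 then ⟨0, 1, 0, 0⟩
    else ⟨0, 0, 1, 0⟩
  let χ : FA K →ₙₐ[K] C4 K := MonoidAlgebra.liftMagma K (FreeMagma.lift g)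
  have h2 := h h1 χ
  have e0 : χ (gF K 0) = ⟨1, 0, 0, 0⟩ := by simp [χ, gF, g]
  have e1 : χ (gF K 1) = ⟨0, 1, 0, 0⟩ := by simp [χ, gF, g]
  have e2 : χ (gF K 2) = ⟨0, 0, 1, 0⟩ := by simp [χ, gF, g]
  rw [associator, map_sub, map_mul, map_mul, map_mul, map_mul, e0, e1, e2, sub_eq_zero] at h2
  have h3 := congrArg C4.d h2
  simp only [C4.mul_a, C4.mul_b, C4.mul_c, C4.mul_d] at h3
  norm_num at h3

theorem main [CharZero K] (P : Submodule K (FA K) → Prop) (hP : ∀ T, P T ↔ IsT K T) :
    ∃ I J : Submodule K (FA K), P I ∧ P J ∧ (∃ T, P T ∧ ¬ I ≤ T) ∧ (∃ T, P T ∧ ¬ J ≤ T) ∧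
      (∀ T, P T → I ⊓ J ≤ T) := by
  refine ⟨II K, JJ K, (hP _).mpr (isT_II K), (hP _).mpr (isT_JJ K),
    ⟨Tid K (Matrix (Fin 3) (Fin 3) K), (hP _).mpr (isT_Tid K _ (isAlt_of_assoc _)),
      not_II_le K⟩,
    ⟨Tid K (C4 K), (hP _).mpr (isT_Tid K _ (isAlt_C4 K)), not_JJ_le K⟩, ?_⟩
  intro T hT x hx
  exact A0_le K ((hP T).mp hT) (inter_le K x hx.1 hx.2)

end Final


/-- For every char-0 field K, there are T-ideals I, J of the free nonassociative K-algebra on ℕ, each strictly containing the T-ideal A of alternative identities, with I ⊓ J = A (i.e., Alt = V(I) ∨ V(J) with both proper). -/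
theorem result :
    ∀ (K : Type) [Field K] [CharZero K],
      ∀ P : Submodule K (MonoidAlgebra K (FreeMagma ℕ)) → Prop,
        (∀ T : Submodule K (MonoidAlgebra K (FreeMagma ℕ)),
          P T ↔
            ((∀ a x : MonoidAlgebra K (FreeMagma ℕ), x ∈ T → a * x ∈ T ∧ x * a ∈ T) ∧
             (∀ φ : MonoidAlgebra K (FreeMagma ℕ) →ₙₐ[K] MonoidAlgebra K (FreeMagma ℕ),
                ∀ x ∈ T, φ x ∈ T) ∧
             (∀ a b : MonoidAlgebra K (FreeMagma ℕ),
                a * a * b - a * (a * b) ∈ T ∧ b * a * a - b * (a * a) ∈ T))) →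
        ∃ I J : Submodule K (MonoidAlgebra K (FreeMagma ℕ)),
          P I ∧ P J ∧
          (∃ T, P T ∧ ¬ I ≤ T) ∧
          (∃ T, P T ∧ ¬ J ≤ T) ∧
          (∀ T, P T → I ⊓ J ≤ T) := by
  intro K _ _ P hP
  exact main K P hP

end Pool.Agent.S00649
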