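import Pool.Statements.S00680

set_option autoImplicit false
open Pool Pool.MP_3a7344_al

namespace Pool.Agent.S00680


variable {G : Type} [Group G]

/-- products of at most n letters from A and inverses of A -/
def words (n : ℕ) (A : Set G) : Set G :=
  {g | ∃ l : List G, l.length ≤ n ∧ (∀ x ∈ l, x ∈ A ∨ x⁻¹ ∈ A) ∧ l.prod = g}

/-- all nonempty sublists of t lie in M -/
def Good {α : Type} (M : Set (List α)) (t : List α) : Prop :=
  ∀ z : List α, z.Sublist t → z ≠ [] → z ∈ M

def Clo {α : Type} (F : Filter (List α)) (R : Set (List α)) : Prop :=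
  R ∈ F ∧ ∀ z ∈ R, ∀ᶠ z' in F, z ++ z' ∈ R

def Star {α : Type} (F : Filter (List α)) : Prop :=
  ∀ M ∈ F, ∃ R, R ⊆ M ∧ Clo F R

def quot {α : Type} (R : Set (List α)) (t : List α) : Set (List α) :=
  {z | z ∈ R ∧ ∀ w : List α, w.Sublist t → w ≠ [] → w ++ z ∈ R}

/-- nonprincipal singletons -/
def NP {α : Type} (F : Filter (List α)) : Prop :=
  ∀ M ∈ F, ∀ A : Set α, A.Finite → ∃ g, g ∉ A ∧ [g] ∈ M

def Gen (F : Filter (List G)) (C : Set G) : Prop :=
  ∀ x : G, ∀ M ∈ F, ∃ t : List G, Good M t ∧ x ∈ Subgroup.closure (C ∪ {g | g ∈ t})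

def BGen (F : Filter (List G)) (C : Set G) (m : ℕ) : Prop :=
  ∀ x : G, ∀ M ∈ F, ∃ t : List G, t.length ≤ m ∧ Good M t ∧ x ∈ words m (C ∪ {g | g ∈ t})

variable (G) in
def HasSlow : Prop :=
  ∃ X : Set G, Subgroup.closure X = ⊤ ∧ X.Infinite ∧ ∀ n : ℕ, ∃ y : G, y ∉ words n X

/-- product of ultrafilters of lists -/
noncomputable def uprod {α : Type} (q q' : Ultrafilter (List α)) : Ultrafilter (List α) :=
  q.bind (fun z => q'.map (fun z' => z ++ z'))

/-- level filter -/
def LF {α : Type} (k : ℕ) (Q : Set (Ultrafilter (List α))) : Filter (List α) :=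
  Filter.principal {z | k < z.length} ⊔ ⨆ q ∈ Q, (q : Filter (List α))

structure Level {α : Type} (k : ℕ) (Q : Set (Ultrafilter (List α))) : Prop where
  fin : Q.Finite
  pos : ∀ q ∈ Q, {z : List α | z ≠ []} ∈ q
  le : ∀ q ∈ Q, {z : List α | z.length ≤ k} ∈ q
  prod : ∀ q ∈ Q, ∀ q' ∈ Q, {z : List α | z.length ≤ k} ∈ uprod q q' → uprod q q' ∈ Q
  np : ∃ q ∈ Q, ∀ A : Set α, A.Finite → {z : List α | ∃ g, g ∉ A ∧ z = [g]} ∈ q



theorem mem_uprod {α : Type} (q q' : Ultrafilter (List α)) (E : Set (List α)) :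
    E ∈ uprod q q' ↔ {z | {z' | z ++ z' ∈ E} ∈ q'} ∈ q := by
  rfl

theorem mem_LF {α : Type} (k : ℕ) (Q : Set (Ultrafilter (List α))) (M : Set (List α)) :
    M ∈ LF k Q ↔ (∀ z : List α, k < z.length → z ∈ M) ∧ ∀ q ∈ Q, M ∈ q := by
  unfold LF
  rw [Filter.mem_sup, Filter.mem_principal]
  simp only [Filter.mem_iSup, Ultrafilter.mem_coe]
  constructor
  · rintro ⟨h1, h2⟩
    exact ⟨fun z hz => h1 hz, h2⟩
  · rintro ⟨h1, h2⟩
    exact ⟨fun z hz => h1 z hz, h2⟩

theorem words_mono {n m : ℕ} {A B : Set G} (hn : n ≤ m) (hA : A ⊆ B) :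
    words n A ⊆ words m B := by
  rintro g ⟨l, h1, h2, h3⟩
  exact ⟨l, h1.trans hn, fun x hx => (h2 x hx).imp (fun h => hA h) (fun h => hA h), h3⟩

theorem words_subset_closure (n : ℕ) (A : Set G) :
    words n A ⊆ (Subgroup.closure A : Set G) := by
  rintro g ⟨l, h1, h2, h3⟩
  rw [← h3]
  apply Subgroup.list_prod_mem
  intro x hx
  rcases h2 x hx with h | h
  · exact Subgroup.subset_closure h
  · have := Subgroup.subset_closure (k := A) h
    exact (Subgroup.inv_mem_iff _).1 this

theorem Clo.quot {α : Type} {F : Filter (List α)} {R : Set (List α)} (h : Clo F R)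
    {t : List α} (ht : Good R t) : Clo F (quot R t) := by
  have hfin : {w : List α | w.Sublist t ∧ w ≠ []}.Finite := by
    apply Set.Finite.subset (List.finite_toSet t.sublists)
    intro w hw
    exact List.mem_sublists.2 hw.1
  constructor
  · have h1 : ∀ᶠ z in F, ∀ w ∈ {w : List α | w.Sublist t ∧ w ≠ []}, w ++ z ∈ R := by
      rw [Filter.eventually_all_finite hfin]
      intro w hw
      exact h.2 w (ht w hw.1 hw.2)
    have h2 : ∀ᶠ z in F, z ∈ R := h.1
    filter_upwards [h1, h2] with z hz1 hz2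
    exact ⟨hz2, fun w hw hw' => hz1 w ⟨hw, hw'⟩⟩
  · rintro z ⟨hz, hz'⟩
    have h1 : ∀ᶠ z' in F, ∀ w ∈ {w : List α | w.Sublist t ∧ w ≠ []}, (w ++ z) ++ z' ∈ R := by
      rw [Filter.eventually_all_finite hfin]
      intro w hw
      exact h.2 _ (hz' w hw.1 hw.2)
    filter_upwards [h1, h.2 z hz] with z' hz1 hz2
    refine ⟨hz2, fun w hw hw' => ?_⟩
    rw [← List.append_assoc]
    exact hz1 w ⟨hw, hw'⟩

theorem Good.append {α : Type} {R : Set (List α)} {t t' : List α} (ht : Good R t)
    (ht' : Good (quot R t) t') : Good R (t ++ t') := by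
  intro z hz hne
  obtain ⟨z1, z2, rfl, h1, h2⟩ := List.sublist_append_iff.1 hz
  by_cases hz2 : z2 = []
  · subst hz2
    rw [List.append_nil] at hne ⊢
    exact ht z1 h1 hne
  · have h3 := ht' z2 h2 hz2
    by_cases hz1 : z1 = []
    · subst hz1
      exact h3.1
    · exact h3.2 z1 h1 hz1

theorem Clo.inter {α : Type} {F : Filter (List α)} {R R' : Set (List α)} (h : Clo F R)
    (h' : Clo F R') : Clo F (R ∩ R') := by
  refine ⟨Filter.inter_mem h.1 h'.1, ?_⟩
  rintro z ⟨hz, hz'⟩
  filter_upwards [h.2 z hz, h'.2 z hz'] with z' h1 h2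
  exact ⟨h1, h2⟩

theorem Good.mono {α : Type} {R R' : Set (List α)} (h : R ⊆ R') {t : List α} (ht : Good R t) :
    Good R' t := fun z hz hne => h (ht z hz hne)

theorem Good.sublist {α : Type} {R : Set (List α)} {t t' : List α} (ht : Good R t)
    (h : t'.Sublist t) : Good R t' := fun z hz hne => ht z (hz.trans h) hne

theorem quot_subset {α : Type} (R : Set (List α)) (t : List α) : quot R t ⊆ R :=
  fun _ hz => hz.1

/-- auxiliary filter for the level step -/
def HE {α : Type} (k : ℕ) (Q : Set (Ultrafilter (List α))) (E : Set (List α)) :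
    Filter (List α) :=
  Filter.principal {z | k + 1 < z.length ∨ (z.length = k + 1 ∧ z ∈ E)} ⊔
    ⨆ q ∈ Q, (q : Filter (List α))

theorem mem_HE {α : Type} (k : ℕ) (Q : Set (Ultrafilter (List α))) (E M : Set (List α)) :
    M ∈ HE k Q E ↔ (∀ z : List α, k + 1 < z.length ∨ (z.length = k + 1 ∧ z ∈ E) → z ∈ M) ∧
      ∀ q ∈ Q, M ∈ q := by
  unfold HE
  rw [Filter.mem_sup, Filter.mem_principal]
  simp only [Filter.mem_iSup, Ultrafilter.mem_coe]
  constructor
  · rintro ⟨h1, h2⟩
    exact ⟨fun z hz => h1 hz, h2⟩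
  · rintro ⟨h1, h2⟩
    exact ⟨fun z hz => h1 z hz, h2⟩


theorem exists_chain {σ : Type} (P : ℕ → σ → Prop) (Q : ℕ → σ → σ → Prop) (s0 : σ)
    (h0 : P 0 s0) (hs : ∀ a s, P a s → ∃ s', P (a + 1) s' ∧ Q a s s') :
    ∃ f : ℕ → σ, f 0 = s0 ∧ (∀ a, P a (f a)) ∧ ∀ a, Q a (f a) (f (a + 1)) := by
  choose g hg using hs
  let f : (a : ℕ) → {s // P a s} := fun a =>
    Nat.rec (motive := fun a => {s // P a s}) ⟨s0, h0⟩
      (fun a p => ⟨g a p.1 p.2, (hg a p.1 p.2).1⟩) a
  exact ⟨fun a => (f a).1, rfl, fun a => (f a).2, fun a => (hg a (f a).1 (f a).2).2⟩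

theorem build_labels (F : Filter (List G)) (C E : Set G) (hG : Gen F C)
    (hCE : C ⊆ (Subgroup.closure E : Set G)) (R : Set (List G)) (hR : Clo F R) (S : Set G)
    (hS : S.Finite) :
    ∃ t, Good R t ∧ S ⊆ (Subgroup.closure (E ∪ {g | g ∈ t}) : Set G) := by
  induction S, hS using Set.Finite.induction_on with
  | empty =>
    refine ⟨[], ?_, Set.empty_subset _⟩
    intro z hz hne
    exact absurd (List.sublist_nil.1 hz) hne
  | @insert s S _ _ ih =>
    obtain ⟨t, ht, hSt⟩ := ih
    have hq := hR.quot ht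
    obtain ⟨t', ht', hs⟩ := hG s _ hq.1
    refine ⟨t ++ t', ht.append ht', ?_⟩
    have h1 : Subgroup.closure (E ∪ {g | g ∈ t}) ≤ Subgroup.closure (E ∪ {g | g ∈ t ++ t'}) := by
      apply Subgroup.closure_mono
      apply Set.union_subset_union_right
      intro g hg
      exact List.mem_append_left _ hg
    have h2 : Subgroup.closure (C ∪ {g | g ∈ t'}) ≤
        Subgroup.closure (E ∪ {g | g ∈ t ++ t'}) := by
      rw [Subgroup.closure_le]
      rintro g (hg | hg)
      · exact Subgroup.closure_mono Set.subset_union_left (hCE hg)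
      · exact Subgroup.subset_closure (Or.inr (List.mem_append_right _ hg))
    rintro g (rfl | hg)
    · exact h2 hs
    · exact h1 (hSt hg)

theorem build_step (F : Filter (List G)) (hS : Star F) (hNP : NP F) (C : Set G)
    (hG : Gen F C) (a : ℕ)
    (hch : ∀ E : Set G, E.Finite → ∃ y : G, ∃ M ∈ F, ∀ t : List G,
      t.length ≤ a → Good M t → y ∉ words a (E ∪ {g | g ∈ t}))
    (E : Set G) (hE : E.Finite) (R : Set (List G)) (hR : Clo F R)
    (hCE : C ⊆ (Subgroup.closure E : Set G)) (S : Set G) (hSf : S.Finite) :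
    ∃ (Rp : Set (List G)) (t : List G) (y : G), Rp ⊆ R ∧ Clo F Rp ∧ Good Rp t ∧
      S ⊆ (Subgroup.closure (E ∪ {g | g ∈ t}) : Set G) ∧ (∃ g ∈ t, g ∉ E) ∧
      ∀ t' : List G, t'.length ≤ a → Good Rp t' → y ∉ words a (E ∪ {g | g ∈ t'}) := by
  obtain ⟨y, M, hM, hy⟩ := hch E hE
  obtain ⟨Ms, hMs, hMc⟩ := hS M hM
  have hRp : Clo F (R ∩ Ms) := hR.inter hMc
  obtain ⟨t, ht, hSt⟩ := build_labels F C E hG hCE _ hRp S hSf
  have hq := hRp.quot ht
  obtain ⟨g, hgE, hg⟩ := hNP _ hq.1 E hE
  have hgood : Good (quot (R ∩ Ms) t) [g] := by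
    intro z hz hne
    have : z = [g] := by
      rcases List.sublist_singleton.1 hz with h | h
      · exact absurd h hne
      · exact h
    rw [this]
    exact hg
  refine ⟨R ∩ Ms, t ++ [g], y, Set.inter_subset_left, hRp, ht.append hgood, ?_, ?_, ?_⟩
  · refine hSt.trans ?_
    apply Subgroup.closure_mono
    apply Set.union_subset_union_right
    intro g' hg'
    exact List.mem_append_left _ hg'
  · exact ⟨g, by simp, hgE⟩
  · intro t' ht' hgt'
    exact hy t' ht' (hgt'.mono (Set.inter_subset_right.trans hMs))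

theorem Clo.of_le {α : Type} {F F' : Filter (List α)} {R : Set (List α)} (h : Clo F R)
    (hle : F' ≤ F) : Clo F' R :=
  ⟨hle h.1, fun z hz => (h.2 z hz).filter_mono hle⟩

/-- the tails -/
def TT {G : Type} (t : ℕ → List G) : ℕ → ℕ → List G
  | _, 0 => []
  | n, k + 1 => t n ++ TT t (n + 1) k

theorem build [Countable G] (F : ℕ → Filter (List G)) (hF : ∀ a, F (a + 1) ≤ F a)
    (hS : ∀ a, Star (F a)) (hNP : ∀ a, NP (F a))
    (C : ℕ → Set G) (hC : ∀ a, (C a).Finite) (hG : ∀ a, Gen (F a) (C a))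
    (hch : ∀ a, ∀ E : Set G, E.Finite → ∃ y : G, ∃ M ∈ F a, ∀ t : List G,
      t.length ≤ a → Good M t → y ∉ words a (E ∪ {g | g ∈ t})) :
    HasSlow G := by
  classical
  obtain ⟨x, hx⟩ := exists_surjective_nat G
  obtain ⟨f, -, hP, hQ⟩ := exists_chain (σ := Set G × Set (List G))
    (fun a s => s.1.Finite ∧ Clo (F a) s.2 ∧ C a ⊆ (Subgroup.closure s.1 : Set G))
    (fun a s s' => ∃ (Rp : Set (List G)) (t : List G) (y : G), Rp ⊆ s.2 ∧ Good Rp t ∧
      s'.1 = s.1 ∪ {g | g ∈ t} ∧ s'.2 = quot Rp t ∧ x a ∈ Subgroup.closure s'.1 ∧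
      (∃ g ∈ t, g ∉ s.1) ∧
      ∀ t' : List G, t'.length ≤ a → Good Rp t' → y ∉ words a (s.1 ∪ {g | g ∈ t'}))
    (C 0, Set.univ) ⟨hC 0, ⟨Filter.univ_mem, fun _ _ => Filter.univ_mem⟩,
      Subgroup.subset_closure⟩
    (by
      rintro a ⟨E, R⟩ ⟨hE, hR, hCE⟩
      obtain ⟨Rp, t, y, h1, h2, h3, h4, h5, h6⟩ := build_step (F a) (hS a) (hNP a) (C a) (hG a) a
        (hch a) E hE R hR hCE (insert (x a) (C (a + 1))) ((hC (a + 1)).insert _)
      refine ⟨(E ∪ {g | g ∈ t}, quot Rp t), ⟨?_, ?_, ?_⟩, Rp, t, y, h1, h3, rfl, rfl, ?_, h5, h6⟩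
      · exact hE.union (List.finite_toSet t)
      · exact (h2.quot h3).of_le (hF a)
      · exact (Set.subset_insert _ _).trans h4
      · exact h4 (Set.mem_insert _ _))
  choose Rp t y q1 q2 q3 q4 q5 q6 q7 using hQ
  have hmono1 : ∀ a, (f a).1 ⊆ (f (a + 1)).1 := by
    intro a
    rw [q3 a]
    exact Set.subset_union_left
  have hmono : Monotone fun a => (f a).1 := monotone_nat_of_le_succ hmono1
  have hgoodT : ∀ k n, Good (Rp n) (TT t n k) := by
    intro k
    induction k with
    | zero =>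
      intro n z hz hne
      exact absurd (List.sublist_nil.1 hz) hne
    | succ k ih =>
      intro n
      show Good (Rp n) (t n ++ TT t (n + 1) k)
      apply (q2 n).append
      refine (ih (n + 1)).mono ?_
      rw [← q4 n]
      exact q1 (n + 1)
  have hET : ∀ k n, (f (n + k)).1 = (f n).1 ∪ {g | g ∈ TT t n k} := by
    intro k
    induction k with
    | zero =>
      intro n
      ext g
      simp [TT]
    | succ k ih =>
      intro n
      rw [show n + (k + 1) = (n + 1) + k by ring, ih (n + 1), q3 n]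
      ext g
      show _ ↔ g ∈ (f n).1 ∨ g ∈ t n ++ TT t (n + 1) k
      rw [List.mem_append]
      show (g ∈ (f n).1 ∨ g ∈ t n) ∨ g ∈ TT t (n + 1) k ↔ _
      tauto
  refine ⟨⋃ a, (f a).1, ?_, ?_, ?_⟩
  · rw [eq_top_iff]
    intro g _
    obtain ⟨a, rfl⟩ := hx g
    exact Subgroup.closure_mono (Set.subset_iUnion (fun a => (f a).1) (a + 1)) (q5 a)
  · intro hfin
    have hstrict : StrictMono fun a => (f a).1 := by
      apply strictMono_nat_of_lt_succ
      intro a
      refine ⟨hmono1 a, fun h => ?_⟩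
      obtain ⟨g, hg, hgE⟩ := q6 a
      apply hgE
      apply h
      show g ∈ (f (a + 1)).1
      rw [q3 a]
      exact Or.inr hg
    exact Set.infinite_of_injective_forall_mem (s := {b | b ⊆ ⋃ a, (f a).1})
      hstrict.injective (fun a => Set.subset_iUnion (fun a => (f a).1) a) hfin.finite_subsets
  · intro n
    refine ⟨y n, ?_⟩
    rintro ⟨l, hl1, hl2, hl3⟩
    have hK : ∀ l : List G, (∀ x ∈ l, x ∈ (⋃ a, (f a).1) ∨ x⁻¹ ∈ (⋃ a, (f a).1)) →
        ∃ K, ∀ x ∈ l, x ∈ (f K).1 ∨ x⁻¹ ∈ (f K).1 := by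
      intro l
      induction l with
      | nil => intro _; exact ⟨0, fun x hx => absurd hx List.not_mem_nil⟩
      | cons z l ih =>
        intro h
        obtain ⟨K, hK⟩ := ih fun x hx => h x (List.mem_cons_of_mem _ hx)
        have hz := h z List.mem_cons_self
        simp only [Set.mem_iUnion] at hz
        obtain ⟨K', hK'⟩ : ∃ K', z ∈ (f K').1 ∨ z⁻¹ ∈ (f K').1 := by
          rcases hz with ⟨K', h'⟩ | ⟨K', h'⟩
          · exact ⟨K', Or.inl h'⟩
          · exact ⟨K', Or.inr h'⟩
        refine ⟨max K K', fun x hx => ?_⟩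
        rcases List.mem_cons.1 hx with rfl | hx
        · exact hK'.imp (fun h => hmono (le_max_right K K') h) fun h => hmono (le_max_right K K') h
        · exact (hK x hx).imp (fun h => hmono (le_max_left K K') h)
            fun h => hmono (le_max_left K K') h
    obtain ⟨K, hK⟩ := hK l hl2
    have hK2 : ∀ x ∈ l, x ∈ (f (n + K)).1 ∨ x⁻¹ ∈ (f (n + K)).1 := fun x hx =>
      (hK x hx).imp (fun h => hmono (Nat.le_add_left K n) h)
        fun h => hmono (Nat.le_add_left K n) h
    set c : G → G := fun x => if x ∈ (f (n + K)).1 then x else x⁻¹ with hc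
    have hcE : ∀ x ∈ l, c x ∈ (f (n + K)).1 := by
      intro x hx
      simp only [hc]
      split_ifs with h
      · exact h
      · exact (hK2 x hx).resolve_left h
    set t' : List G := ((TT t n K).dedup).filter (fun g => decide (g ∈ l.map c)) with ht'
    have hsub : t'.Sublist (TT t n K) := (List.filter_sublist).trans (List.dedup_sublist _)
    have hnd : t'.Nodup := (List.nodup_dedup _).filter _
    have hlen : t'.length ≤ n := by
      have h1 : t' ⊆ l.map c := by
        intro g hg
        have := (List.mem_filter.1 hg).2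
        simpa using this
      have h2 := (List.subperm_of_subset hnd h1).length_le
      rw [List.length_map] at h2
      exact h2.trans hl1
    apply q7 n t' hlen ((hgoodT K n).sublist hsub)
    refine ⟨l, hl1, ?_, hl3⟩
    intro x hx
    have hcx : c x ∈ (f n).1 ∪ {g | g ∈ t'} := by
      have h1 := hcE x hx
      rw [hET K n] at h1
      rcases h1 with h1 | h1
      · exact Or.inl h1
      · right
        show c x ∈ t'
        rw [ht', List.mem_filter]
        refine ⟨List.mem_dedup.2 h1, ?_⟩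
        simp only [decide_eq_true_eq]
        exact List.mem_map_of_mem hx
    by_cases h : x ∈ (f (n + K)).1
    · left
      have : c x = x := by simp only [hc]; rw [if_pos h]
      rwa [this] at hcx
    · right
      have : c x = x⁻¹ := by simp only [hc]; rw [if_neg h]
      rwa [this] at hcx

lemma step_inf (h : ∀ S : Set G, S.Finite → ∃ K : Subgroup G, S ⊆ K ∧ K.FiniteIndex ∧ K ≠ ⊤)
    (x : G) (E : Set G) (hE : E.Finite) (K : Subgroup G) (hKn : K.Normal) (hKf : K.FiniteIndex)
    (hEK : Subgroup.closure E ⊔ K = ⊤) :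
    ∃ (E2 : Set G) (K2 M : Subgroup G) (xs : G), (E2.Finite ∧ K2.Normal ∧ K2.FiniteIndex ∧
      Subgroup.closure E2 ⊔ K2 = ⊤) ∧ E ⊆ E2 ∧ x ∈ Subgroup.closure E2 ∧ K2 ≤ K ∧ K2 ≤ M ∧
      xs ∈ E2 ∧ xs ∉ M ∧ E2 \ {xs} ⊆ M ∧ E2 \ E ⊆ K ∧ E ⊆ M := by
  classical
  have hx : x ∈ Subgroup.closure E ⊔ K := by rw [hEK]; trivial
  obtain ⟨e, he, κ, hκ, hx⟩ := Subgroup.mem_sup_of_normal_right.1 hx
  set E1 := insert κ E with hE1
  have hE1f : E1.Finite := hE.insert κ
  -- minimal index
  obtain ⟨M, ⟨hM1, hM2, hM3⟩, hMmin⟩ : ∃ M : Subgroup G, (E1 ⊆ M ∧ M.FiniteIndex ∧ M ≠ ⊤) ∧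
      ∀ L : Subgroup G, (E1 ⊆ L ∧ L.FiniteIndex ∧ L ≠ ⊤) → M.index ≤ L.index := by
    have hne : ∃ n, ∃ L : Subgroup G, (E1 ⊆ L ∧ L.FiniteIndex ∧ L ≠ ⊤) ∧ L.index = n := by
      obtain ⟨L, hL⟩ := h E1 hE1f
      exact ⟨_, L, hL, rfl⟩
    obtain ⟨M, hM, hMi⟩ := Nat.find_spec hne
    refine ⟨M, hM, fun L hL => ?_⟩
    rw [hMi]
    exact Nat.find_min' hne ⟨L, hL, rfl⟩
  have := hM2
  have := hKn
  have := hKf
  have hmax : ∀ L : Subgroup G, M < L → L = ⊤ := by
    intro L hL
    by_contra hne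
    have hLf : L.FiniteIndex := Subgroup.finiteIndex_of_le hL.le
    have h1 := hMmin L ⟨hM1.trans hL.le, hLf, hne⟩
    have h2 := Subgroup.index_strictAnti hL
    omega
  have hEM : E ⊆ M := (Set.subset_insert κ E).trans hM1
  have hcEM : Subgroup.closure E ≤ M := (Subgroup.closure_le _).2 hEM
  obtain ⟨xs, hxs1, hxs2⟩ : ∃ xs ∈ K, xs ∉ M := by
    by_contra hcon
    push Not at hcon
    apply hM3
    rw [eq_top_iff, ← hEK]
    exact sup_le hcEM hcon
  let K1 := K ⊓ M
  let K2 := K1.normalCore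
  have hK1f : K1.FiniteIndex := inferInstance
  have hK2f : K2.FiniteIndex := inferInstance
  have hK2n : K2.Normal := inferInstance
  have hK21 : K2 ≤ K1 := Subgroup.normalCore_le K1
  -- representatives
  obtain ⟨T, hTf, hT1, hT2⟩ : ∃ T : Set G, T.Finite ∧ T ⊆ K1 ∧ K1 ≤ Subgroup.closure T ⊔ K2 := by
    have hch : ∀ q : ((fun g : G => (g : G ⧸ K2)) '' (K1 : Set G)), ∃ g ∈ K1, (g : G ⧸ K2) = q := by
      rintro ⟨q, g, hg, rfl⟩
      exact ⟨g, hg, rfl⟩
    choose t ht1 ht2 using hch
    have : Finite (G ⧸ K2) := Subgroup.finite_quotient_of_finiteIndex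
    refine ⟨Set.range t, Set.finite_range t, ?_, ?_⟩
    · rintro _ ⟨q, rfl⟩
      exact ht1 q
    · intro k hk
      have h1 := ht2 ⟨(k : G ⧸ K2), k, hk, rfl⟩
      set q : ((fun g : G => (g : G ⧸ K2)) '' (K1 : Set G)) := ⟨(k : G ⧸ K2), k, hk, rfl⟩
      have h2 : (t q)⁻¹ * k ∈ K2 := QuotientGroup.eq.1 h1
      have h3 : k = t q * ((t q)⁻¹ * k) := by group
      rw [h3]
      exact Subgroup.mul_mem_sup (Subgroup.subset_closure ⟨q, rfl⟩) h2
  set E2 := insert xs (E1 ∪ T) with hE2
  have hEE2 : E ⊆ E2 := fun y hy => Or.inr (Or.inl (Or.inr hy))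
  have hE1E2 : E1 ⊆ E2 := fun y hy => Or.inr (Or.inl hy)
  have hTE2 : T ⊆ E2 := fun y hy => Or.inr (Or.inr hy)
  have hxsE2 : xs ∈ E2 := Or.inl rfl
  have htop : Subgroup.closure E2 ⊔ K2 = ⊤ := by
    apply hmax
    have hK1L : K1 ≤ Subgroup.closure E2 ⊔ K2 :=
      hT2.trans (sup_le_sup_right (Subgroup.closure_mono hTE2) _)
    refine lt_of_le_of_ne ?_ ?_
    · intro m hm
      have hm' : m ∈ Subgroup.closure E ⊔ K := by rw [hEK]; trivial
      obtain ⟨e', he', κ', hκ', hmm⟩ := Subgroup.mem_sup_of_normal_right.1 hm'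
      have h1 : κ' ∈ M := by
        have : κ' = e'⁻¹ * m := by rw [← hmm]; group
        rw [this]
        exact M.mul_mem (M.inv_mem (hcEM he')) hm
      rw [← hmm]
      refine Subgroup.mul_mem _ ?_ (hK1L ⟨hκ', h1⟩)
      exact (le_sup_left : Subgroup.closure E2 ≤ _) (Subgroup.closure_mono hEE2 he')
    · intro heq
      apply hxs2
      rw [heq]
      exact (le_sup_left : Subgroup.closure E2 ≤ _) (Subgroup.subset_closure hxsE2)
  refine ⟨E2, K2, M, xs, ⟨(hE1f.union hTf).insert xs, hK2n, hK2f, htop⟩, hEE2, ?_,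
    hK21.trans inf_le_left, hK21.trans inf_le_right, hxsE2, hxs2, ?_, ?_, hEM⟩
  · rw [← hx]
    refine Subgroup.mul_mem _ (Subgroup.closure_mono hEE2 he) ?_
    exact Subgroup.subset_closure (hE1E2 (Set.mem_insert κ E))
  · rintro y ⟨hy, hy2⟩
    rcases hy with rfl | hy | hy
    · exact absurd rfl hy2
    · exact hM1 hy
    · exact (hT1 hy).2
  · rintro y ⟨hy, hy2⟩
    rcases hy with rfl | hy | hy
    · exact hxs1
    · rcases hy with rfl | hy
      · exact hκ
      · exact absurd hy hy2
    · exact (hT1 hy).1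

theorem caseInf [Countable G] 
    (h : ∀ S : Set G, S.Finite → ∃ K : Subgroup G, S ⊆ K ∧ K.FiniteIndex ∧ K ≠ ⊤) :
    HasSlow G := by
  classical
  let St := {p : Set G × Subgroup G // p.1.Finite ∧ p.2.Normal ∧ p.2.FiniteIndex ∧
    Subgroup.closure p.1 ⊔ p.2 = ⊤}
  have hstep : ∀ (x : G) (s : St), ∃ (s' : St) (M : Subgroup G) (xs : G),
      s.1.1 ⊆ s'.1.1 ∧ x ∈ Subgroup.closure s'.1.1 ∧ s'.1.2 ≤ s.1.2 ∧ s'.1.2 ≤ M ∧
      xs ∈ s'.1.1 ∧ xs ∉ M ∧ s'.1.1 \ {xs} ⊆ M ∧ s'.1.1 \ s.1.1 ⊆ s.1.2 ∧ s.1.1 ⊆ M := by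
    rintro x ⟨⟨E, K⟩, h1, h2, h3, h4⟩
    obtain ⟨E2, K2, M, xs, h5, h6⟩ := step_inf h x E h1 K h2 h3 h4
    exact ⟨⟨⟨E2, K2⟩, h5⟩, M, xs, h6⟩
  choose f Mf xf hf using hstep
  obtain ⟨e, he⟩ := exists_surjective_nat G
  let s0 : St := ⟨⟨∅, ⊤⟩, Set.finite_empty, inferInstance, inferInstance, by simp⟩
  let s : ℕ → St := fun n => Nat.rec s0 (fun n t => f (e n) t) n
  have hs : ∀ n, s (n + 1) = f (e n) (s n) := fun n => rfl
  let M : ℕ → Subgroup G := fun n => Mf (e n) (s n)
  let y : ℕ → G := fun n => xf (e n) (s n)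
  have hP : ∀ n, (s n).1.1 ⊆ (s (n + 1)).1.1 ∧ e n ∈ Subgroup.closure (s (n + 1)).1.1 ∧
      (s (n + 1)).1.2 ≤ (s n).1.2 ∧ (s (n + 1)).1.2 ≤ M n ∧
      y n ∈ (s (n + 1)).1.1 ∧ y n ∉ M n ∧ (s (n + 1)).1.1 \ {y n} ⊆ M n ∧
      (s (n + 1)).1.1 \ (s n).1.1 ⊆ (s n).1.2 ∧ (s n).1.1 ⊆ M n := fun n => hf (e n) (s n)
  have hEmono : Monotone (fun n => (s n).1.1) := monotone_nat_of_le_succ fun n => (hP n).1
  have hKanti : Antitone (fun n => (s n).1.2) := antitone_nat_of_succ_le fun n => (hP n).2.2.1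
  let X : Set G := ⋃ n, (s n).1.1
  have hEX : ∀ n, (s n).1.1 ⊆ X := fun n => Set.subset_iUnion (fun n => (s n).1.1) n
  have hyX : ∀ n, y n ∈ X := fun n => hEX (n + 1) (hP n).2.2.2.2.1
  have hyM : ∀ n, y n ∉ M n := fun n => (hP n).2.2.2.2.2.1
  have hXM : ∀ a, ∀ z ∈ X, z ≠ y a → z ∈ M a := by
    intro a z hz hza
    obtain ⟨m, hm⟩ := Set.mem_iUnion.1 hz
    have key : ∀ m, ∀ z ∈ (s m).1.1, z ≠ y a → z ∈ M a := by
      intro m
      induction m with
      | zero =>
        intro z hz
        exact absurd hz (Set.notMem_empty z)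
      | succ m ih =>
        intro z hz hza
        by_cases hma : m ≤ a
        · exact (hP a).2.2.2.2.2.2.1 ⟨hEmono (show m + 1 ≤ a + 1 by omega) hz, hza⟩
        · by_cases hzm : z ∈ (s m).1.1
          · exact ih z hzm hza
          · have h1 : z ∈ (s m).1.2 := (hP m).2.2.2.2.2.2.2.1 ⟨hz, hzm⟩
            have h2 : (s m).1.2 ≤ (s (a + 1)).1.2 := hKanti (show a + 1 ≤ m by omega)
            exact (hP a).2.2.2.1 (h2 h1)
    exact key m z hm hza
  have hinj : Function.Injective y := by
    have key : ∀ a b, a < b → y a ≠ y b := by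
      intro a b hab heq
      apply hyM b
      rw [← heq]
      exact (hP b).2.2.2.2.2.2.2.2 (hEmono (show a + 1 ≤ b by omega) (hP a).2.2.2.2.1)
    intro a b hab
    rcases lt_trichotomy a b with h1 | h1 | h1
    · exact absurd hab (key a b h1)
    · exact h1
    · exact absurd hab.symm (key b a h1)
  have hyM2 : ∀ a b, a ≠ b → y a ∈ M b := fun a b hab =>
    hXM b (y a) (hyX a) (fun h => hab (hinj h))
  refine ⟨X, ?_, ?_, ?_⟩
  · rw [eq_top_iff]
    intro x _
    obtain ⟨n, rfl⟩ := he x
    exact Subgroup.closure_mono (hEX (n + 1)) (hP n).2.1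
  · exact Set.infinite_of_injective_forall_mem hinj hyX
  · intro n
    refine ⟨((List.range (n + 1)).map y).prod, ?_⟩
    rintro ⟨l, hl1, hl2, hl3⟩
    -- an unused index
    obtain ⟨i, hi, hiu⟩ : ∃ i ∈ Finset.range (n + 1), ∀ w ∈ l, w ≠ y i ∧ w⁻¹ ≠ y i := by
      by_contra hcon
      push Not at hcon
      have hch : ∀ i ∈ Finset.range (n + 1), ∃ w ∈ l, w = y i ∨ w⁻¹ = y i := by
        intro i hi
        obtain ⟨w, hw, hw2⟩ := hcon i hi
        refine ⟨w, hw, ?_⟩
        by_cases h1 : w = y i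
        · exact Or.inl h1
        · exact Or.inr (hw2 h1)
      choose! w hw1 hw2 using hch
      have hcard : l.toFinset.card < (Finset.range (n + 1)).card := by
        rw [Finset.card_range]
        exact lt_of_le_of_lt (List.toFinset_card_le l) (by omega)
      obtain ⟨i, hi, j, hj, hij, hwij⟩ := Finset.exists_ne_map_eq_of_card_lt_of_maps_to hcard
        (f := w) (fun i hi => List.mem_toFinset.2 (hw1 i hi))
      apply hyM i
      have hji : y j ∈ M i := hyM2 j i hij.symm
      have h1 := hw2 i hi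
      have h2 := hw2 j hj
      rw [← hwij] at h2
      rcases h1 with h1 | h1 <;> rcases h2 with h2 | h2
      · rw [← h1, h2]; exact hji
      · rw [← h1]
        have : w i = (y j)⁻¹ := by rw [← h2]; simp
        rw [this]; exact (M i).inv_mem hji
      · rw [← h1, h2]; exact (M i).inv_mem hji
      · rw [← h1, h2]; exact hji
    have hlM : l.prod ∈ M i := by
      apply Subgroup.list_prod_mem
      intro w hw
      rcases hl2 w hw with h1 | h1
      · exact hXM i w h1 (hiu w hw).1
      · exact (Subgroup.inv_mem_iff _).1 (hXM i w⁻¹ h1 (hiu w hw).2)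
    rw [hl3] at hlM
    have hir : i ∈ List.range (n + 1) := List.mem_range.2 (Finset.mem_range.1 hi)
    obtain ⟨p, q, hpq⟩ := List.append_of_mem hir
    have hnd := List.nodup_range (n := n + 1)
    rw [hpq, List.nodup_middle, List.nodup_cons] at hnd
    have hp : ((p.map y).prod) ∈ M i := by
      apply Subgroup.list_prod_mem
      intro z hz
      obtain ⟨j, hj, rfl⟩ := List.mem_map.1 hz
      exact hyM2 j i (fun h => hnd.1 (List.mem_append.2 (Or.inl (h ▸ hj))))
    have hq : ((q.map y).prod) ∈ M i := by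
      apply Subgroup.list_prod_mem
      intro z hz
      obtain ⟨j, hj, rfl⟩ := List.mem_map.1 hz
      exact hyM2 j i (fun h => hnd.1 (List.mem_append.2 (Or.inr (h ▸ hj))))
    rw [hpq, List.map_append, List.prod_append, List.map_cons, List.prod_cons] at hlM
    rw [(M i).mul_mem_cancel_left hp, (M i).mul_mem_cancel_right hq] at hlM
    exact hyM i hlM

theorem star_of {α : Type} (H : Filter (List α)) (k : ℕ)
    (h1 : ∀ M ∈ H, ∀ z : List α, k < z.length → z ∈ M)
    (h2 : ∀ M ∈ H, ∀ᶠ z in H, ∀ᶠ z' in H, z ++ z' ∈ M)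
    (h3 : {z : List α | z ≠ []} ∈ H) : Star H := by
  intro M hM
  let Ms : ℕ → Set (List α) := fun n =>
    Nat.rec M (fun _ S => {z | z ∈ S ∧ ∀ᶠ z' in H, z ++ z' ∈ S}) n
  have Ms0 : Ms 0 = M := rfl
  have MsS : ∀ n, Ms (n+1) = {z | z ∈ Ms n ∧ ∀ᶠ z' in H, z ++ z' ∈ Ms n} := fun n => rfl
  have hMs : ∀ n, Ms n ∈ H := by
    intro n
    induction n with
    | zero => exact hM
    | succ n ih =>
      rw [MsS]
      filter_upwards [ih, h2 _ ih] with z hz1 hz2
      exact ⟨hz1, hz2⟩
  have hanti : Antitone Ms := by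
    apply antitone_nat_of_succ_le
    intro n z hz
    rw [MsS] at hz
    exact hz.1
  refine ⟨{z | z ∈ Ms (k - z.length)}, ?_, ?_, ?_⟩
  · intro z hz
    exact hanti (Nat.zero_le _) hz
  · exact Filter.mem_of_superset (hMs k) (fun z hz => hanti (Nat.sub_le _ _) hz)
  · intro z hz
    by_cases hk : k ≤ z.length
    · filter_upwards [h3] with z' hz'
      have hpos : 0 < z'.length := List.length_pos_iff.2 hz'
      apply h1 _ (hMs _)
      rw [List.length_append]; omega
    · obtain ⟨i, hi⟩ : ∃ i, k - z.length = i + 1 := ⟨k - z.length - 1, by omega⟩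
      have hz2 : z ∈ Ms (i+1) := by rw [← hi]; exact hz
      rw [MsS] at hz2
      filter_upwards [h3, hz2.2] with z' hz' hz''
      have hpos : 0 < z'.length := List.length_pos_iff.2 hz'
      have hle : k - (z ++ z').length ≤ i := by rw [List.length_append]; omega
      exact hanti hle hz''

theorem Level.star {α : Type} {k : ℕ} {Q : Set (Ultrafilter (List α))} (h : Level k Q) :
    Star (LF k Q) := by
  apply star_of (LF k Q) k
  · intro M hM z hz
    exact ((mem_LF k Q M).1 hM).1 z hz
  · intro M hM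
    have hM' := (mem_LF k Q M).1 hM
    have key : ∀ q ∈ Q, ∀ q' ∈ Q, M ∈ uprod q q' := by
      intro q hq q' hq'
      by_cases hle : {z : List α | z.length ≤ k} ∈ uprod q q'
      · exact hM'.2 _ (h.prod q hq q' hq' hle)
      · have := (Ultrafilter.compl_mem_iff_notMem).2 hle
        exact Filter.mem_of_superset this (fun z hz => hM'.1 z (by simpa using hz))
    show {z | {z' | z ++ z' ∈ M} ∈ LF k Q} ∈ LF k Q
    rw [mem_LF]
    constructor
    · intro z hz
      show {z' | z ++ z' ∈ M} ∈ LF k Q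
      rw [mem_LF]
      constructor
      · intro z' hz'
        apply hM'.1
        rw [List.length_append]; omega
      · intro q' hq'
        apply Filter.mem_of_superset Filter.univ_mem
        intro z' _
        apply hM'.1
        rw [List.length_append]; omega
    · intro q hq
      have hall : ∀ᶠ z in (q : Filter (List α)), ∀ q' ∈ Q, {z' | z ++ z' ∈ M} ∈ q' := by
        rw [Filter.eventually_all_finite h.fin]
        intro q' hq'
        exact (mem_uprod q q' M).1 (key q hq q' hq')
      have : ∀ᶠ z in (q : Filter (List α)), {z' | z ++ z' ∈ M} ∈ LF k Q := by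
        filter_upwards [hall] with z hz
        rw [mem_LF]
        refine ⟨?_, hz⟩
        intro z' hz'
        apply hM'.1
        rw [List.length_append]; omega
      exact this
  · rw [mem_LF]
    constructor
    · intro z hz hne
      subst hne
      simp at hz
    · exact h.pos

/-- here k ≥ 1 is automatic from np and le -/
theorem Level.NP {α : Type} {k : ℕ} {Q : Set (Ultrafilter (List α))} (h : Level k Q) :
    NP (LF k Q) := by
  intro M hM A hA
  obtain ⟨q, hq, hnp⟩ := h.np
  have h1 : M ∈ q := ((mem_LF k Q M).1 hM).2 q hq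
  have h2 := Filter.inter_mem h1 (hnp A hA)
  obtain ⟨z, hz1, g, hg, rfl⟩ := q.nonempty_of_mem h2
  exact ⟨g, hg, hz1⟩

theorem star_HE {α : Type} {k : ℕ} {Q : Set (Ultrafilter (List α))} (h : Level k Q)
    (E : Set (List α))
    (hE : ∀ q ∈ Q, ∀ q' ∈ Q, {z : List α | z.length = k + 1} ∈ uprod q q' → E ∈ uprod q q') :
    Star (HE k Q E) := by
  apply star_of (HE k Q E) (k+1)
  · intro M hM z hz
    exact ((mem_HE k Q E M).1 hM).1 z (Or.inl hz)
  · intro M hM
    have hM' := (mem_HE k Q E M).1 hM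
    have key : ∀ q ∈ Q, ∀ q' ∈ Q, M ∈ uprod q q' := by
      intro q hq q' hq'
      by_cases hle : {z : List α | z.length ≤ k} ∈ uprod q q'
      · exact hM'.2 _ (h.prod q hq q' hq' hle)
      · have hc := (Ultrafilter.compl_mem_iff_notMem).2 hle
        by_cases heq : {z : List α | z.length = k + 1} ∈ uprod q q'
        · have := Filter.inter_mem heq (hE q hq q' hq' heq)
          exact Filter.mem_of_superset this (fun z hz => hM'.1 z (Or.inr hz))
        · have hc2 := (Ultrafilter.compl_mem_iff_notMem).2 heq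
          have := Filter.inter_mem hc hc2
          apply Filter.mem_of_superset this
          rintro z ⟨hz1, hz2⟩
          apply hM'.1 z
          left
          simp only [Set.mem_compl_iff, Set.mem_ofPred_eq] at hz1 hz2
          omega
    show {z | {z' | z ++ z' ∈ M} ∈ HE k Q E} ∈ HE k Q E
    rw [mem_HE]
    constructor
    · intro z hz
      have hzl : k + 1 ≤ z.length := by
        rcases hz with hz | hz
        · omega
        · exact hz.1.ge
      show {z' | z ++ z' ∈ M} ∈ HE k Q E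
      rw [mem_HE]
      constructor
      · intro z' hz'
        have hzl' : k + 1 ≤ z'.length := by
          rcases hz' with hz' | hz'
          · omega
          · exact hz'.1.ge
        apply hM'.1
        left
        rw [List.length_append]; omega
      · intro q' hq'
        apply Filter.mem_of_superset (h.pos q' hq')
        intro z' hz'
        have hpos : 0 < z'.length := List.length_pos_iff.2 hz'
        apply hM'.1
        left
        rw [List.length_append]; omega
    · intro q hq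
      have hall : ∀ᶠ z in (q : Filter (List α)), ∀ q' ∈ Q, {z' | z ++ z' ∈ M} ∈ q' := by
        rw [Filter.eventually_all_finite h.fin]
        intro q' hq'
        exact (mem_uprod q q' M).1 (key q hq q' hq')
      have hne : ∀ᶠ z in (q : Filter (List α)), z ≠ [] := h.pos q hq
      have : ∀ᶠ z in (q : Filter (List α)), {z' | z ++ z' ∈ M} ∈ HE k Q E := by
        filter_upwards [hall, hne] with z hz hzne
        have hpos : 0 < z.length := List.length_pos_iff.2 hzne
        rw [mem_HE]
        refine ⟨?_, hz⟩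
        intro z' hz'
        have hzl' : k + 1 ≤ z'.length := by
          rcases hz' with hz' | hz'
          · omega
          · exact hz'.1.ge
        apply hM'.1
        left
        rw [List.length_append]; omega
      exact this
  · rw [mem_HE]
    constructor
    · intro z hz hne
      subst hne
      rcases hz with hz | hz
      · simp at hz
      · simp at hz
    · exact h.pos

theorem ultra_avoid {α ι : Type} [Finite ι] (S : Set (Set α))
    (h : ∀ T : Set (Set α), T.Finite → T ⊆ S → ∃ z : ι → α, ∀ E ∈ T, ∃ i, z i ∉ E) :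
    ∃ q : ι → Ultrafilter α, ∀ E ∈ S, ∃ i, E ∉ q i := by
  classical
  by_contra hcon
  push Not at hcon
  have hopen : ∀ E : Set α, IsOpen {q : ι → Ultrafilter α | ∀ i, E ∈ q i} := by
    intro E
    have h1 : {q : ι → Ultrafilter α | ∀ i, E ∈ q i} =
        ⋂ i, (fun q : ι → Ultrafilter α => q i) ⁻¹' {u | E ∈ u} := by
      ext q; simp
    rw [h1]
    exact isOpen_iInter_of_finite
      (fun i => (ultrafilter_isOpen_basic E).preimage (continuous_apply i))
  obtain ⟨T, hT⟩ := isCompact_univ.elim_finite_subcover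
    (fun E : S => {q : ι → Ultrafilter α | ∀ i, (E : Set α) ∈ q i}) (fun E => hopen E)
    (by
      intro q _
      obtain ⟨E, hE, hq⟩ := hcon q
      exact Set.mem_iUnion.2 ⟨⟨E, hE⟩, hq⟩)
  obtain ⟨z, hz⟩ := h (Subtype.val '' (T : Set S)) (T.finite_toSet.image _)
    (by rintro _ ⟨E, _, rfl⟩; exact E.2)
  have h2 := hT (Set.mem_univ (fun i => (pure (z i) : Ultrafilter α)))
  obtain ⟨E, hE, h3⟩ := Set.mem_iUnion₂.1 h2
  obtain ⟨i, hi⟩ := hz E ⟨E, hE, rfl⟩
  exact hi (Ultrafilter.mem_pure.1 (h3 i))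

theorem start [Infinite G] (S : Set G) 
    (hS : ∀ K : Subgroup G, S ⊆ K → K.FiniteIndex → K = ⊤) :
    ∃ Q : Set (Ultrafilter (List G)), Level 1 Q ∧ Gen (LF 1 Q) S := by
  classical
  obtain ⟨r', hr'⟩ := ultra_avoid (α := G) (ι := Unit)
    ({A : Set G | Subgroup.closure (A ∪ S) ≠ ⊤} ∪ {A | ∃ g, A = {g}}) (by
      intro T hT hTS
      by_contra hcon
      push Not at hcon
      have hcov : ∀ g : G, ∃ E ∈ T, g ∈ E := by
        intro g
        obtain ⟨E, hE, h1⟩ := hcon (fun _ => g)
        exact ⟨E, hE, h1 ()⟩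
      let H : Set G → Subgroup G := fun E =>
        if Subgroup.closure (E ∪ S) ≠ ⊤ then Subgroup.closure (E ∪ S) else ⊥
      let gg : Set G → G := fun E =>
        if Subgroup.closure (E ∪ S) ≠ ⊤ then 1 else if h : ∃ g, E = {g} then h.choose else 1
      have hsub : ∀ E ∈ T, ∀ g ∈ E, ∃ k ∈ H E, gg E * k = g := by
        intro E hE g hg
        by_cases hc : Subgroup.closure (E ∪ S) ≠ ⊤
        · simp only [H, gg, if_pos hc]
          exact ⟨g, Subgroup.subset_closure (Or.inl hg), one_mul g⟩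
        · have h2 : ∃ g, E = {g} := (hTS hE).resolve_left hc
          simp only [H, gg, if_neg hc, dif_pos h2]
          have h3 : g = h2.choose := by
            have h4 := h2.choose_spec
            rw [h4] at hg
            exact hg
          exact ⟨1, Subgroup.one_mem _, by rw [mul_one, ← h3]⟩
      obtain ⟨E, hE, hfi⟩ := Subgroup.exists_finiteIndex_of_leftCoset_cover
        (s := hT.toFinset) (H := H) (g := gg) (by
          rw [Set.eq_univ_iff_forall]
          intro g
          obtain ⟨E, hE, h1⟩ := hcov g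
          obtain ⟨k, hk, hkg⟩ := hsub E hE g h1
          exact Set.mem_iUnion₂.2 ⟨E, hT.mem_toFinset.2 hE, k, hk, hkg⟩)
      by_cases hc : Subgroup.closure (E ∪ S) ≠ ⊤
      · simp only [H, if_pos hc] at hfi
        exact hc (hS _ (Set.subset_union_right.trans Subgroup.subset_closure) hfi)
      · simp only [H, if_neg hc] at hfi
        have h5 : Finite (G ⧸ (⊥ : Subgroup G)) := Subgroup.finite_quotient_of_finiteIndex
        have h6 : Finite G := Finite.of_injective (fun g : G => (g : G ⧸ (⊥ : Subgroup G)))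
          (by
            intro a b hab
            have := QuotientGroup.eq.1 hab
            rw [Subgroup.mem_bot] at this
            exact (inv_mul_eq_one.1 this))
        exact not_finite G)
  obtain ⟨r, hrd⟩ : ∃ r : Ultrafilter G, r = r' () := ⟨_, rfl⟩
  have hr : ∀ E ∈ ({A : Set G | Subgroup.closure (A ∪ S) ≠ ⊤} ∪ {A | ∃ g, A = {g}}), E ∉ r := by
    intro E hE
    obtain ⟨i, hi⟩ := hr' E hE
    rw [hrd]; exact hi
  have hcl : ∀ A ∈ r, Subgroup.closure (A ∪ S) = ⊤ := by
    intro A hA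
    by_contra hc
    exact hr A (Or.inl hc) hA
  have hfinr : ∀ A : Set G, A.Finite → A ∉ r := by
    intro A hA
    refine Set.Finite.induction_on (motive := fun A _ => A ∉ r) _ hA ?_ ?_
    · exact Ultrafilter.empty_notMem
    · intro a s _ _ ih hc
      rw [Set.insert_eq, Ultrafilter.union_mem_iff] at hc
      rcases hc with h1 | h1
      · exact hr {a} (Or.inr ⟨a, rfl⟩) h1
      · exact ih h1
  refine ⟨{r.map (fun g => [g])}, ?_, ?_⟩
  · constructor
    · exact Set.finite_singleton _
    · rintro q rfl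
      rw [Ultrafilter.mem_map]
      filter_upwards with g
      simp
    · rintro q rfl
      rw [Ultrafilter.mem_map]
      filter_upwards with g
      simp
    · rintro q rfl q' rfl hh
      exfalso
      rw [mem_uprod, Ultrafilter.mem_map] at hh
      have h1 : (fun g : G => [g]) ⁻¹' {z | {z' : List G | z ++ z' ∈ {z : List G | z.length ≤ 1}} ∈
          r.map (fun g => [g])} = ∅ := by
        ext g
        simp only [Set.mem_preimage, Set.mem_ofPred_eq, Set.mem_empty_iff_false, iff_false]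
        rw [Ultrafilter.mem_map]
        intro hc
        have h2 : (fun g : G => [g]) ⁻¹' {z' : List G | ([g] ++ z').length ≤ 1} = ∅ := by
          ext g'
          simp
        rw [h2] at hc
        exact Ultrafilter.empty_notMem hc
      rw [h1] at hh
      exact Ultrafilter.empty_notMem hh
    · refine ⟨_, rfl, fun A hA => ?_⟩
      rw [Ultrafilter.mem_map]
      have h1 : Aᶜ ∈ r := Ultrafilter.compl_mem_iff_notMem.2 (hfinr A hA)
      filter_upwards [h1] with g hg
      exact ⟨g, hg, rfl⟩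
  · intro x M hM
    rw [mem_LF] at hM
    obtain ⟨hM1, hM2⟩ := hM
    have hA : {g | [g] ∈ M} ∈ r := by
      have := hM2 _ rfl
      rw [Ultrafilter.mem_map] at this
      exact this
    have key : ∀ x ∈ Subgroup.closure ({g | [g] ∈ M} ∪ S), ∃ t : List G,
        (∀ g ∈ t, [g] ∈ M) ∧ x ∈ Subgroup.closure (S ∪ {g | g ∈ t}) := by
      intro x hx
      induction hx using Subgroup.closure_induction with
      | mem x hx =>
        rcases hx with hx | hx
        · refine ⟨[x], ?_, Subgroup.subset_closure (Or.inr ?_)⟩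
          · intro g hg
            rw [List.mem_singleton] at hg
            subst hg
            exact hx
          · simp
        · exact ⟨[], by simp, Subgroup.subset_closure (Or.inl hx)⟩
      | one => exact ⟨[], by simp, Subgroup.one_mem _⟩
      | mul x z _ _ hx hz =>
        obtain ⟨t1, h1, h2⟩ := hx
        obtain ⟨t2, h3, h4⟩ := hz
        refine ⟨t1 ++ t2, ?_, Subgroup.mul_mem _ (Subgroup.closure_mono ?_ h2)
          (Subgroup.closure_mono ?_ h4)⟩
        · intro g hg
          rcases List.mem_append.1 hg with h | h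
          · exact h1 g h
          · exact h3 g h
        · rintro g (hg | hg)
          · exact Or.inl hg
          · exact Or.inr (List.mem_append.2 (Or.inl hg))
        · rintro g (hg | hg)
          · exact Or.inl hg
          · exact Or.inr (List.mem_append.2 (Or.inr hg))
      | inv x _ hx =>
        obtain ⟨t1, h1, h2⟩ := hx
        exact ⟨t1, h1, Subgroup.inv_mem _ h2⟩
    obtain ⟨t, ht1, ht2⟩ := key x (by rw [hcl _ hA]; trivial)
    refine ⟨t, ?_, ht2⟩
    intro z hz hne
    match z, hz, hne with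
    | [], _, hne => exact absurd rfl hne
    | [g], hz, _ => exact ht1 g (hz.subset (by simp))
    | a :: b :: l, _, _ => exact hM1 _ (by simp)

open Pointwise in
theorem words_subset_pow480 [DecidableEq G] (a : ℕ) (A : Set G) (T : Finset G)
    (hA : A ⊆ (T : Set G)) :
    words a A ⊆ (((T ∪ T⁻¹ ∪ {1}) ^ a : Finset G) : Set G) := by
  have key : ∀ l : List G, (∀ x ∈ l, x ∈ A ∨ x⁻¹ ∈ A) →
      l.prod ∈ (T ∪ T⁻¹ ∪ {1}) ^ l.length := by
    intro l
    induction l with
    | nil => intro _; simp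
    | cons x l ih =>
      intro h
      rw [List.prod_cons, List.length_cons, pow_succ']
      refine Finset.mul_mem_mul ?_ (ih (fun z hz => h z (List.mem_cons_of_mem _ hz)))
      rcases h x (List.mem_cons_self) with h1 | h1
      · exact Finset.mem_union_left _ (Finset.mem_union_left _ (Finset.mem_coe.1 (hA h1)))
      · refine Finset.mem_union_left _ (Finset.mem_union_right _ ?_)
        rw [Finset.mem_inv']
        exact Finset.mem_coe.1 (hA h1)
  rintro g ⟨l, h1, h2, rfl⟩
  have h3 := key l h2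
  have h4 : (1 : G) ∈ T ∪ T⁻¹ ∪ {1} := by simp
  exact Finset.mem_coe.2 (Finset.pow_subset_pow_right h4 h1 h3)

open Pointwise in
theorem words_card480 [DecidableEq G] (a : ℕ) (A : Set G) (T : Finset G)
    (hA : A ⊆ (T : Set G)) (F : Finset G) (hF : (F : Set G) ⊆ words a A) :
    F.card ≤ (2 * T.card + 1) ^ a := by
  have h1 : F ⊆ (T ∪ T⁻¹ ∪ {1}) ^ a :=
    Finset.coe_subset.1 (hF.trans (words_subset_pow480 a A T hA))
  calc F.card ≤ ((T ∪ T⁻¹ ∪ {1}) ^ a).card := Finset.card_le_card h1
    _ ≤ (T ∪ T⁻¹ ∪ {1}).card ^ a := Finset.card_pow_le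
    _ ≤ (2 * T.card + 1) ^ a := by
      apply Nat.pow_le_pow_left
      calc (T ∪ T⁻¹ ∪ {1}).card ≤ (T ∪ T⁻¹).card + ({1} : Finset G).card :=
            Finset.card_union_le _ _
        _ ≤ (T.card + (T⁻¹).card) + 1 := by
            have := Finset.card_union_le T T⁻¹
            simp only [Finset.card_singleton]
            omega
        _ = 2 * T.card + 1 := by
            rw [Finset.card_inv]; ring

theorem challenge [Infinite G] {k : ℕ} {Q : Set (Ultrafilter (List G))} (hQ : Q.Finite)
    (a : ℕ) (ha : a ≤ k) (E : Set G) (hE : E.Finite) :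
    ∃ y : G, ∃ M ∈ LF k Q, ∀ t : List G,
      t.length ≤ a → Good M t → y ∉ words a (E ∪ {g | g ∈ t}) := by
  classical
  set MM : G → Set (List G) :=
    fun y => {t | t.length ≤ k → y ∉ words a (E ∪ {g | g ∈ t})} with hMM
  have hY : ∀ q ∈ Q, {y : G | MM y ∉ q}.Finite := by
    intro q hq
    by_contra hinf
    set B := (2 * (hE.toFinset.card + k) + 1) ^ a with hB
    obtain ⟨F, hF1, hF2⟩ := Set.Infinite.exists_subset_card_eq hinf (B + 1)
    have h1 : (⋂ y ∈ F, (MM y)ᶜ) ∈ q := by
      rw [← Ultrafilter.mem_coe, Filter.biInter_finset_mem]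
      intro y hy
      have h2 : MM y ∉ q := hF1 (Finset.mem_coe.2 hy)
      exact Ultrafilter.compl_mem_iff_notMem.2 h2
    obtain ⟨t, ht⟩ := Ultrafilter.nonempty_of_mem h1
    have ht' : ∀ y ∈ F, t.length ≤ k ∧ y ∈ words a (E ∪ {g | g ∈ t}) := by
      intro y hy
      have h2 := Set.mem_iInter₂.1 ht y hy
      simp only [hMM, Set.mem_compl_iff, Set.mem_ofPred_eq] at h2
      push Not at h2
      exact h2
    have hFne : F.Nonempty := by
      rw [← Finset.card_pos, hF2]; omega
    obtain ⟨y0, hy0⟩ := hFne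
    have htk : t.length ≤ k := (ht' y0 hy0).1
    have h3 := words_card480 a (E ∪ {g | g ∈ t}) (hE.toFinset ∪ t.toFinset)
      (by
        intro g hg
        rw [Finset.mem_coe, Finset.mem_union]
        rcases hg with hg | hg
        · left; exact hE.mem_toFinset.2 hg
        · right; exact List.mem_toFinset.2 hg) F (fun y hy => (ht' y (Finset.mem_coe.1 hy)).2)
    have h4 : (hE.toFinset ∪ t.toFinset).card ≤ hE.toFinset.card + k := by
      have h5 := Finset.card_union_le hE.toFinset t.toFinset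
      have h6 := List.toFinset_card_le t
      omega
    have h5 : (2 * (hE.toFinset ∪ t.toFinset).card + 1) ^ a ≤ B := by
      rw [hB]
      apply Nat.pow_le_pow_left
      omega
    omega
  have hW : (words a E).Finite :=
    Set.Finite.subset (Finset.finite_toSet _)
      (words_subset_pow480 a E hE.toFinset (by rw [Set.Finite.coe_toFinset]))
  have hfin : ((⋃ q ∈ Q, {y : G | MM y ∉ q}) ∪ words a E).Finite :=
    (hQ.biUnion hY).union hW
  obtain ⟨y, hy⟩ := hfin.infinite_compl.nonempty
  rw [Set.mem_compl_iff, Set.mem_union, not_or] at hy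
  refine ⟨y, MM y, ?_, ?_⟩
  · rw [mem_LF]
    refine ⟨fun z hz => ?_, fun q hq => ?_⟩
    · intro hz'
      omega
    · by_contra hcon
      exact hy.1 (Set.mem_biUnion hq hcon)
  · intro t ht hg
    by_cases htn : t = []
    · subst htn
      have h1 : E ∪ {g | g ∈ ([] : List G)} = E := by
        ext g; simp
      rw [h1]
      exact hy.2
    · exact hg t (List.Sublist.refl t) htn (ht.trans ha)


theorem BGen.gen {F : Filter (List G)} {C : Set G} {m : ℕ} (h : BGen F C m) : Gen F C := by
  intro x M hM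
  obtain ⟨t, _, h1, h2⟩ := h x M hM
  exact ⟨t, h1, words_subset_closure _ _ h2⟩

theorem LL [Countable G] (hslow : ¬ HasSlow G) (F : Filter (List G)) (hS : Star F) (hNP : NP F)
    (C : Set G) (hC : C.Finite) (hG : Gen F C) :
    ∃ C' : Set G, C ⊆ C' ∧ C'.Finite ∧ ∃ m : ℕ, BGen F C' m := by
  by_contra hcon
  apply hslow
  refine build (fun _ => F) (fun _ => le_rfl) (fun _ => hS) (fun _ => hNP) (fun _ => C)
    (fun _ => hC) (fun _ => hG) ?_
  intro a E hE
  by_contra h2
  push Not at h2
  apply hcon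
  refine ⟨C ∪ E, Set.subset_union_left, hC.union hE, a, ?_⟩
  intro x M hM
  obtain ⟨t, ht1, ht2, ht3⟩ := h2 x M hM
  refine ⟨t, ht1, ht2, words_mono le_rfl ?_ ht3⟩
  intro g hg
  rcases hg with hg | hg
  · exact Or.inl (Or.inr hg)
  · exact Or.inr hg

/-- the subgroup of elements which are realised -/
def Span (H : Filter (List G)) (hS : Star H) (C : Set G) : Subgroup G where
  carrier := {x | ∀ M ∈ H, ∃ t : List G, Good M t ∧ x ∈ Subgroup.closure (C ∪ {g | g ∈ t})}
  mul_mem' := by
    intro a b ha hb M hM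
    obtain ⟨R, hRM, hR⟩ := hS M hM
    obtain ⟨t, ht, hat⟩ := ha R hR.1
    obtain ⟨t', ht', hbt⟩ := hb (quot R t) (hR.quot ht).1
    refine ⟨t ++ t', (ht.append ht').mono hRM, ?_⟩
    apply Subgroup.mul_mem
    · refine Subgroup.closure_mono ?_ hat
      apply Set.union_subset_union_right
      intro g hg
      exact List.mem_append_left _ hg
    · refine Subgroup.closure_mono ?_ hbt
      apply Set.union_subset_union_right
      intro g hg
      exact List.mem_append_right _ hg
  one_mem' := by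
    intro M hM
    refine ⟨[], ?_, Subgroup.one_mem _⟩
    intro z hz hne
    exact absurd (List.sublist_nil.1 hz) hne
  inv_mem' := by
    intro a ha M hM
    obtain ⟨t, ht, hat⟩ := ha M hM
    exact ⟨t, ht, Subgroup.inv_mem _ hat⟩

theorem subset_Span (H : Filter (List G)) (hS : Star H) (C : Set G) :
    C ⊆ (Span H hS C : Set G) := by
  intro c hc M hM
  refine ⟨[], ?_, Subgroup.subset_closure (Or.inl hc)⟩
  intro z hz hne
  exact absurd (List.sublist_nil.1 hz) hne

/-- a group which is a finite union of subgroups, none of them of finite index, is absurd -/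
theorem neumann {ι : Type} (T : Finset ι) (K : ι → Subgroup G)
    (hcov : ∀ x : G, ∃ i ∈ T, x ∈ K i) : ∃ i ∈ T, (K i).FiniteIndex := by
  apply Subgroup.exists_finiteIndex_of_leftCoset_cover (g := fun _ => (1 : G)) (s := T) (H := K)
  rw [Set.eq_univ_iff_forall]
  intro x
  obtain ⟨i, hi, hx⟩ := hcov x
  simp only [Set.mem_iUnion]
  exact ⟨i, hi, ⟨x, hx, by simp⟩⟩

theorem step [Infinite G] {k : ℕ} {Q : Set (Ultrafilter (List G))} (h : Level k Q)
    (S C : Set G) (hSC : S ⊆ C)
    (hS : ∀ K : Subgroup G, S ⊆ K → K.FiniteIndex → K = ⊤)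
    (m : ℕ) (hB : BGen (LF k Q) C m) :
    ∃ Q' : Set (Ultrafilter (List G)), Level (k + 1) Q' ∧ LF (k + 1) Q' ≤ LF k Q ∧
      Gen (LF (k + 1) Q') C := by
  classical
  -- admissible sets
  let Adm : Set (List G) → Prop := fun E =>
    ∀ q ∈ Q, ∀ q' ∈ Q, {z : List G | z.length = k + 1} ∈ uprod q q' → E ∈ uprod q q'
  -- realised elements
  let Sp : Set (List G) → Set G := fun E => {x | ∀ M ∈ HE k Q E, ∃ t : List G,
    Good M t ∧ x ∈ Subgroup.closure (C ∪ {g | g ∈ t})}
  let Bad : Set (Set (List G)) := {E | Adm E ∧ Sp E ≠ Set.univ}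
  obtain ⟨q, hq⟩ : ∃ q : Fin (2 ^ m) → Ultrafilter (List G), ∀ E ∈ Bad, ∃ i, E ∉ q i := by
    apply ultra_avoid
    intro T hTf hTB
    by_contra hcon
    push Not at hcon
    -- every x is realised by some E in T
    have hreal : ∀ x : G, ∃ E ∈ T, x ∈ Sp E := by
      intro x
      by_contra hx
      push Not at hx
      have hx2 : ∀ E ∈ T, ∃ M ∈ HE k Q E, ∀ t : List G, Good M t →
          x ∉ Subgroup.closure (C ∪ {g | g ∈ t}) := by
        intro E hE
        have := hx E hE
        simp only [Sp, Set.mem_ofPred_eq] at this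
        push Not at this
        exact this
      choose! N hN1 hN2 using hx2
      -- intersect
      let M : Set (List G) := {z | k < z.length ∨ ∀ E ∈ T, z ∈ N E}
      have hM : M ∈ LF k Q := by
        rw [mem_LF]
        refine ⟨fun z hz => Or.inl hz, ?_⟩
        intro p hp
        have : {z : List G | ∀ E ∈ T, z ∈ N E} ∈ (p : Filter (List G)) := by
          have h3 : {z : List G | ∀ E ∈ T, z ∈ N E} = ⋂ E ∈ T, N E := by
            ext z
            simp
          rw [h3, Filter.biInter_mem hTf]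
          intro E hE
          exact ((mem_HE _ _ _ _).1 (hN1 E hE)).2 p hp
        exact Filter.mem_of_superset this (fun z hz => Or.inr hz)
      obtain ⟨t, ht1, ht2, ht3⟩ := hB x M hM
      obtain ⟨E, hE, hEt⟩ := hcon (fun i => t.sublists.getD i [])
      have hsub : ∀ w : List G, w.Sublist t → w ∈ E := by
        intro w hw
        have hw' : w ∈ t.sublists := List.mem_sublists.2 hw
        obtain ⟨n, hn, hn'⟩ := List.getElem_of_mem hw'
        have hlen : n < 2 ^ m := by
          have : t.sublists.length = 2 ^ t.length := List.length_sublists t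
          rw [this] at hn
          exact lt_of_lt_of_le hn (Nat.pow_le_pow_right (by norm_num) ht1)
        have := hEt ⟨n, hlen⟩
        simp only [List.getD_eq_getElem?_getD] at this
        rw [List.getElem?_eq_getElem hn] at this
        simpa [hn'] using this
      refine hN2 E hE t ?_ (words_subset_closure _ _ ht3)
      intro z hz hne
      rcases ht2 z hz hne with h4 | h4
      · apply ((mem_HE _ _ _ _).1 (hN1 E hE)).1
        by_cases h5 : k + 1 < z.length
        · exact Or.inl h5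
        · exact Or.inr ⟨by omega, hsub z hz⟩
      · exact h4 E hE
    -- Neumann
    let K : Set (List G) → Subgroup G := fun E =>
      if hE : Adm E then Span (HE k Q E) (star_HE h E hE) C else ⊤
    obtain ⟨E, hE, hfi⟩ := neumann hTf.toFinset K (by
      intro x
      obtain ⟨E, hE, hx⟩ := hreal x
      refine ⟨E, hTf.mem_toFinset.2 hE, ?_⟩
      have hA : Adm E := (hTB hE).1
      simp only [K, dif_pos hA]
      exact hx)
    have hET : E ∈ T := hTf.mem_toFinset.1 hE
    have hA : Adm E := (hTB hET).1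
    have hKE : K E = Span (HE k Q E) (star_HE h E hA) C := by
      simp only [K, dif_pos hA]
    have htop : K E = ⊤ := by
      apply hS (K E) _ hfi
      rw [hKE]
      exact hSC.trans (subset_Span _ _ _)
    apply (hTB hET).2
    rw [Set.eq_univ_iff_forall]
    intro x
    have : x ∈ K E := by
      rw [htop]
      exact Subgroup.mem_top x
    rw [hKE] at this
    exact this
  -- the new system
  let P : Set (Ultrafilter (List G)) := {p | ∃ q1 ∈ Q, ∃ q2 ∈ Q, p = uprod q1 q2 ∧
    {z : List G | z.length = k + 1} ∈ p}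
  let P' : Set (Ultrafilter (List G)) := {p | (∃ i, p = q i) ∧
    {z : List G | z.length = k + 1} ∈ p}
  have hPfin : P.Finite := by
    apply Set.Finite.subset ((h.fin.prod h.fin).image (fun x => uprod x.1 x.2))
    rintro p ⟨q1, h1, q2, h2, h3, _⟩
    exact ⟨(q1, q2), ⟨h1, h2⟩, h3.symm⟩
  have hP'fin : P'.Finite := by
    apply Set.Finite.subset (Set.finite_range q)
    rintro p ⟨⟨i, hi⟩, _⟩
    exact ⟨i, hi.symm⟩
  have hnew : ∀ p ∈ P ∪ P', {z : List G | z.length = k + 1} ∈ p := by
    rintro p (⟨_, _, _, _, _, h4⟩ | ⟨_, h4⟩)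
    · exact h4
    · exact h4
  have hLv : Level (k + 1) (Q ∪ (P ∪ P')) := by
    refine ⟨h.fin.union (hPfin.union hP'fin), ?_, ?_, ?_, ?_⟩
    · rintro p (hp | hp)
      · exact h.pos p hp
      · refine Filter.mem_of_superset (hnew p hp) ?_
        intro z hz hz'
        simp only [Set.mem_ofPred_eq] at hz
        rw [hz'] at hz
        simp at hz
    · rintro p (hp | hp)
      · refine Filter.mem_of_superset (h.le p hp) ?_
        intro z hz
        simp only [Set.mem_ofPred_eq] at hz ⊢
        omega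
      · refine Filter.mem_of_superset (hnew p hp) ?_
        intro z hz
        simp only [Set.mem_ofPred_eq] at hz ⊢
        omega
    · -- product
      have key : ∀ p ∈ Q ∪ (P ∪ P'), ∀ p' ∈ Q ∪ (P ∪ P'),
          {z : List G | z.length ≤ k + 1} ∈ uprod p p' → p ∈ Q ∧ p' ∈ Q := by
        intro p hp p' hp' hle
        rw [mem_uprod] at hle
        have hpos : ∀ p ∈ Q ∪ (P ∪ P'), {z : List G | 1 ≤ z.length} ∈ p := by
          rintro p (hp | hp)
          · refine Filter.mem_of_superset (h.pos p hp) ?_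
            intro z hz
            exact List.length_pos_iff.2 hz
          · refine Filter.mem_of_superset (hnew p hp) ?_
            intro z hz
            simp only [Set.mem_ofPred_eq] at hz ⊢
            omega
        constructor
        · rcases hp with hp | hp
          · exact hp
          · exfalso
            obtain ⟨z, hz1, hz2⟩ := p.nonempty_of_mem (Filter.inter_mem hle (hnew p hp))
            obtain ⟨z', hz1', hz2'⟩ := p'.nonempty_of_mem (Filter.inter_mem hz1 (hpos p' hp'))
            simp only [Set.mem_ofPred_eq, List.length_append] at hz2 hz1' hz2'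
            omega
        · rcases hp' with hp' | hp'
          · exact hp'
          · exfalso
            obtain ⟨z, hz1, hz2⟩ := p.nonempty_of_mem (Filter.inter_mem hle (hpos p hp))
            obtain ⟨z', hz1', hz2'⟩ := p'.nonempty_of_mem (Filter.inter_mem hz1 (hnew p' hp'))
            simp only [Set.mem_ofPred_eq, List.length_append] at hz2 hz1' hz2'
            omega
      intro p hp p' hp' hle
      obtain ⟨h1, h2⟩ := key p hp p' hp' hle
      by_cases h3 : {z : List G | z.length ≤ k} ∈ uprod p p'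
      · exact Or.inl (h.prod p h1 p' h2 h3)
      · right
        left
        refine ⟨p, h1, p', h2, rfl, ?_⟩
        have h4 := Ultrafilter.compl_mem_iff_notMem.2 h3
        refine Filter.mem_of_superset (Filter.inter_mem hle h4) ?_
        rintro z ⟨hz1, hz2⟩
        simp only [Set.mem_ofPred_eq, Set.mem_compl_iff] at hz1 hz2 ⊢
        omega
    · obtain ⟨p, hp, hp'⟩ := h.np
      exact ⟨p, Or.inl hp, hp'⟩
  refine ⟨Q ∪ (P ∪ P'), hLv, ?_, ?_⟩
  · intro M hM
    rw [mem_LF] at hM ⊢
    refine ⟨fun z hz => hM.1 z (by omega), ?_⟩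
    rintro p (hp | hp)
    · exact hM.2 p hp
    · refine Filter.mem_of_superset (hnew p hp) ?_
      intro z hz
      apply hM.1
      simp only [Set.mem_ofPred_eq] at hz
      omega
  · intro x M hM
    rw [mem_LF] at hM
    let E : Set (List G) := {z | z.length = k + 1 → z ∈ M}
    have hA : Adm E := by
      intro q1 h1 q2 h2 h3
      have : M ∈ uprod q1 q2 := hM.2 _ (Or.inr (Or.inl ⟨q1, h1, q2, h2, rfl, h3⟩))
      exact Filter.mem_of_superset this (fun z hz _ => hz)
    have hEq : ∀ i, E ∈ q i := by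
      intro i
      by_cases h3 : {z : List G | z.length = k + 1} ∈ q i
      · have : M ∈ q i := hM.2 _ (Or.inr (Or.inr ⟨⟨i, rfl⟩, h3⟩))
        exact Filter.mem_of_superset this (fun z hz _ => hz)
      · have h4 := Ultrafilter.compl_mem_iff_notMem.2 h3
        exact Filter.mem_of_superset h4 (fun z hz hz' => absurd hz' hz)
    have hSp : Sp E = Set.univ := by
      by_contra h5
      obtain ⟨i, hi⟩ := hq E ⟨hA, h5⟩
      exact hi (hEq i)
    have hx : x ∈ Sp E := by
      rw [hSp]
      trivial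
    apply hx M
    rw [mem_HE]
    refine ⟨?_, fun p hp => hM.2 p (Or.inl hp)⟩
    rintro z (hz | ⟨hz, hz'⟩)
    · exact hM.1 z hz
    · exact hz' hz

theorem caseS [Countable G] [Infinite G] (S : Set G) (hSf : S.Finite)
    (hS : ∀ K : Subgroup G, S ⊆ K → K.FiniteIndex → K = ⊤) : HasSlow G := by
  by_contra hslow
  -- the data at level a + 1
  let D := Set (Ultrafilter (List G)) × Set G
  let I : ℕ → D → Prop := fun a d =>
    Level (a + 1) d.1 ∧ S ⊆ d.2 ∧ d.2.Finite ∧ ∃ m, BGen (LF (a + 1) d.1) d.2 m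
  have h0 : ∃ d, I 0 d := by
    obtain ⟨Q, hQ, hG⟩ := start S hS
    obtain ⟨C', h1, h2, m, h3⟩ := LL hslow (LF 1 Q) hQ.star hQ.NP S hSf hG
    exact ⟨(Q, C'), hQ, h1, h2, m, h3⟩
  have hstep : ∀ a (d : {d // I a d}), ∃ d' : {d // I (a + 1) d},
      LF (a + 2) d'.1.1 ≤ LF (a + 1) d.1.1 := by
    rintro a ⟨⟨Q, C⟩, hQ, hSC, hCf, m, hB⟩
    obtain ⟨Q', hQ', hle, hG⟩ := step hQ S C hSC hS m hB
    obtain ⟨C', h1, h2, m', h3⟩ := LL hslow (LF (a + 1 + 1) Q') hQ'.star hQ'.NP C hCf hG
    exact ⟨⟨(Q', C'), hQ', hSC.trans h1, h2, m', h3⟩, hle⟩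
  choose f hf using hstep
  obtain ⟨d0, hd0⟩ := h0
  let u : (a : ℕ) → {d // I a d} := fun a =>
    Nat.rec (motive := fun a => {d // I a d}) ⟨d0, hd0⟩ (fun a d => f a d) a
  have hu : ∀ a, u (a + 1) = f a (u a) := fun a => rfl
  apply hslow
  refine build (fun a => LF (a + 1) (u a).1.1) ?_ ?_ ?_ (fun a => (u a).1.2) ?_ ?_ ?_
  · intro a
    show LF (a + 2) (u (a + 1)).1.1 ≤ LF (a + 1) (u a).1.1
    rw [hu a]
    exact hf a (u a)
  · intro a
    exact (u a).2.1.star
  · intro a
    exact (u a).2.1.NP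
  · intro a
    exact (u a).2.2.2.1
  · intro a
    obtain ⟨m, hm⟩ := (u a).2.2.2.2
    exact hm.gen
  · intro a E hE
    exact challenge (u a).2.1.fin a (by omega) E hE

theorem hasSlow [Countable G] [Infinite G] : HasSlow G := by
  by_cases h : ∃ S : Set G, S.Finite ∧ ∀ K : Subgroup G, S ⊆ K → K.FiniteIndex → K = ⊤
  · obtain ⟨S, hSf, hS⟩ := h
    exact caseS S hSf hS
  · push Not at h
    refine caseInf ?_
    intro S hS
    obtain ⟨K, h1, h2, h3⟩ := h S hS
    exact ⟨K, h1, h2, h3⟩


/-- The negation of the preceding statement: There is a countably infinite group in which every infinite generating set X is fast: for some n, every element is a product of at most n elements of X or their inverses. -/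
theorem result :
    ¬ (∃ (G : Type) (_ : Group G), Countable G ∧ Infinite G ∧
      ∀ X : Set G, Subgroup.closure X = ⊤ → X.Infinite →
        ∃ n : ℕ, ∀ g : G, ∃ l : List G,
          l.length ≤ n ∧ (∀ x ∈ l, x ∈ X ∨ x⁻¹ ∈ X) ∧ l.prod = g) := by
  rintro ⟨G, _, hc, hi, h⟩
  obtain ⟨X, hX, hXi, hX3⟩ := hasSlow (G := G)
  obtain ⟨n, hn⟩ := h X hX hXi
  obtain ⟨y, hy⟩ := hX3 n
  exact hy (hn y)

end Pool.Agent.S00680
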