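import Pool.Statements.S00703
import Pool.Agent.Helper283.ThV.PLR

set_option autoImplicit false
open Pool Pool.MP_3d8b4c_al

namespace Pool.Agent.S00703

/-- With Thompson's V, F, T realized as dyadic piecewise-linear bijections of [0,1), every element of F' is a commutator of elements of F', every element of V' is a commutator in V, and T' has commutator width exactly 2. -/
theorem result :
    ∀ V F T : Subgroup (Equiv.Perm ℝ),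
      V = Subgroup.closure {σ : Equiv.Perm ℝ |
        (∀ x : ℝ, x ∉ Set.Ico (0:ℝ) 1 → σ x = x) ∧
        ∃ n : ℕ, ∃ a : ℕ → ℝ, ∃ k : ℕ → ℤ, ∃ c : ℕ → ℝ,
          a 0 = 0 ∧ a n = 1 ∧ (∀ i < n, a i < a (i + 1)) ∧
          (∀ i ≤ n, ∃ m : ℤ, ∃ e : ℕ, a i = (m : ℝ) / 2 ^ e) ∧
          (∀ i < n, ∃ m : ℤ, ∃ e : ℕ, c i = (m : ℝ) / 2 ^ e) ∧
          ∀ i < n, ∀ x ∈ Set.Ico (a i) (a (i + 1)), σ x = (2:ℝ) ^ (k i) * x + c i} →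
      F = Subgroup.closure {σ : Equiv.Perm ℝ |
        σ ∈ V ∧ StrictMonoOn (⇑σ) (Set.Ico (0:ℝ) 1)} →
      T = Subgroup.closure {σ : Equiv.Perm ℝ |
        σ ∈ V ∧ ∃ t ∈ Set.Ico (0:ℝ) 1,
          ContinuousOn (⇑σ) (Set.Ico (0:ℝ) t) ∧ ContinuousOn (⇑σ) (Set.Ico t 1) ∧
          StrictMonoOn (⇑σ) (Set.Ico (0:ℝ) t) ∧ StrictMonoOn (⇑σ) (Set.Ico t 1) ∧
          σ t = 0} →
      (⁅⁅F, F⁆, ⁅F, F⁆⁆ ≠ ⊥ ∧
        ∀ g ∈ ⁅⁅F, F⁆, ⁅F, F⁆⁆, ∃ a ∈ ⁅F, F⁆, ∃ b ∈ ⁅F, F⁆, g = a * b * a⁻¹ * b⁻¹) ∧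
      (⁅V, V⁆ ≠ ⊥ ∧
        ∀ g ∈ ⁅V, V⁆, ∃ a ∈ V, ∃ b ∈ V, g = a * b * a⁻¹ * b⁻¹) ∧
      ((∀ g ∈ ⁅T, T⁆, ∃ a ∈ T, ∃ b ∈ T, ∃ c ∈ T, ∃ d ∈ T,
          g = (a * b * a⁻¹ * b⁻¹) * (c * d * c⁻¹ * d⁻¹)) ∧
        ∃ g ∈ ⁅T, T⁆, ∀ a ∈ T, ∀ b ∈ T, g ≠ a * b * a⁻¹ * b⁻¹) := by
  intro V F T hV hF hT
  have hVS : V = Subgroup.closure Pool.Agent.Helper283.ThV.VSet := hV
  have hF' : F = Pool.Agent.Helper283.PL.Sup 0 1 := by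
    rw [hF, hVS]; exact Pool.Agent.Helper283.PL.F_eq
  have hT' : T = Pool.Agent.Helper283.PL.Pi.range := by
    rw [hT, hVS]; exact Pool.Agent.Helper283.PL.T_eq
  have hmem : ∀ σ : Equiv.Perm ℝ, σ ∈ V ↔ σ ∈ Pool.Agent.Helper283.ThV.VSet := by
    intro σ
    rw [hVS, ← SetLike.mem_coe, Pool.Agent.Helper283.ThV.closure_VSet]
  refine ⟨?_, ⟨?_, ?_⟩, ?_⟩
  · rw [hF']; exact Pool.Agent.Helper283.PL.clause_F
  · obtain ⟨σ, hσ, hne⟩ := Pool.Agent.Helper283.ThV.VSet_nontrivial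
    obtain ⟨a, ha, b, hb, hab⟩ := Pool.Agent.Helper283.ThV.comm_VSet' hσ
    intro hbot
    have h1 : σ ∈ ⁅V, V⁆ := by
      rw [hab]
      exact Subgroup.commutator_mem_commutator ((hmem a).2 ha) ((hmem b).2 hb)
    rw [hbot, Subgroup.mem_bot] at h1
    exact hne h1
  · intro g hg
    have h1 : g ∈ V := by
      have h2 : ⁅V, V⁆ ≤ V := Subgroup.commutator_le.2 (fun a ha b hb =>
        V.mul_mem (V.mul_mem (V.mul_mem ha hb) (V.inv_mem ha)) (V.inv_mem hb))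
      exact h2 hg
    obtain ⟨a, ha, b, hb, hab⟩ := Pool.Agent.Helper283.ThV.comm_VSet' ((hmem g).1 h1)
    exact ⟨a, (hmem a).2 ha, b, (hmem b).2 hb, hab⟩
  · rw [hT']; exact Pool.Agent.Helper283.PL.clause_T

end Pool.Agent.S00703
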