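import Pool.Statements.S00714
import Mathlib

set_option autoImplicit false

namespace Pool.Agent.S00714

open Order Order.PartialIso Filter

/-- a finite isomorphism between finite subsets extends -/
theorem extend {α β : Type} [LinearOrder α] [LinearOrder β]
    [Countable α] [DenselyOrdered α] [NoMinOrder α] [NoMaxOrder α]
    [Nonempty α] [Countable β] [DenselyOrdered β] [NoMinOrder β] [NoMaxOrder β] [Nonempty β]
    (p0 : PartialIso α β) : ∃ e : α ≃o β, ∀ q ∈ p0.val, e q.1 = q.2 := by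
  cases nonempty_encodable α
  cases nonempty_encodable β
  let to_cofinal : α ⊕ β → Cofinal (PartialIso α β) := fun p ↦
    Sum.recOn p (definedAtLeft β) (definedAtRight α)
  let our_ideal : Ideal (PartialIso α β) := idealOfCofinals p0 to_cofinal
  let F a := funOfIdeal a our_ideal (cofinal_meets_idealOfCofinals _ to_cofinal (Sum.inl a))
  let G b := invOfIdeal b our_ideal (cofinal_meets_idealOfCofinals _ to_cofinal (Sum.inr b))
  refine ⟨OrderIso.ofCmpEqCmp (fun a ↦ (F a).val) (fun b ↦ (G b).val) fun a b ↦ by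
      rcases (F a).prop with ⟨f, hf, ha⟩
      rcases (G b).prop with ⟨g, hg, hb⟩
      rcases our_ideal.directed _ hf _ hg with ⟨m, _, fm, gm⟩
      exact m.prop (a, _) (fm ha) (_, b) (gm hb), ?_⟩
  intro q hq
  change (F q.1).val = q.2
  rcases (F q.1).prop with ⟨f, hf, ha⟩
  have h0 : p0 ∈ our_ideal := mem_idealOfCofinals p0 to_cofinal
  rcases our_ideal.directed _ hf _ h0 with ⟨m, _, fm, gm⟩
  have h := m.prop (q.1, _) (fm ha) q (gm hq)
  simp only [cmp_self_eq_eq] at h
  exact (cmp_eq_eq_iff _ _).mp h.symm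

abbrev Q := ℤ ×ₗ ℚ

instance : Countable Q := inferInstanceAs (Countable (ℤ × ℚ))

instance : DenselyOrdered Q := by
  constructor
  intro s t hst
  rw [Prod.Lex.lt_iff] at hst
  rcases hst with h | ⟨h1, h2⟩
  · refine ⟨toLex ((ofLex s).1, (ofLex s).2 + 1), ?_, ?_⟩
    · rw [Prod.Lex.lt_iff]; right; simp
    · rw [Prod.Lex.lt_iff]; left; exact h
  · obtain ⟨c, hc1, hc2⟩ := exists_between h2
    refine ⟨toLex ((ofLex s).1, c), ?_, ?_⟩
    · rw [Prod.Lex.lt_iff]; right; exact ⟨rfl, hc1⟩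
    · rw [Prod.Lex.lt_iff]; right; exact ⟨h1, hc2⟩

instance : NoMaxOrder Q := by
  constructor
  intro s
  refine ⟨toLex ((ofLex s).1 + 1, 0), ?_⟩
  rw [Prod.Lex.lt_iff]; left; simp

instance : NoMinOrder Q := by
  constructor
  intro s
  refine ⟨toLex ((ofLex s).1 - 1, 0), ?_⟩
  rw [Prod.Lex.lt_iff]; left; simp

/-- the integer c embedded as (c,0) -/
def z (c : ℤ) : Q := toLex (c, (0 : ℚ))

theorem z_lt {c d : ℤ} : z c < z d ↔ c < d := by
  unfold z
  rw [Prod.Lex.lt_iff]
  simp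

theorem z_inj {c d : ℤ} : z c = z d ↔ c = d := by
  unfold z
  simp

/-- value at the k-th child determined by the germ s -/
def cc (k : ℕ) (s : Q) : ℚ :=
  (((ofLex s).1 : ℚ) * ((k : ℚ) + 1) + (ofLex s).2) * (k.factorial : ℚ)

theorem cc_z (k : ℕ) (c : ℤ) : cc k (z c) = ((c * ((k + 1).factorial : ℤ) : ℤ) : ℚ) := by
  unfold cc z
  simp only [ofLex_toLex, Nat.factorial_succ]
  push_cast
  ring

theorem cc_lt {s t : Q} (h : s < t) : ∀ᶠ k in atTop, cc k s < cc k t := by
  rw [Prod.Lex.lt_iff] at h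
  rcases h with h | ⟨h1, h2⟩
  · obtain ⟨n, hn⟩ := exists_nat_gt ((ofLex s).2 - (ofLex t).2)
    filter_upwards [eventually_ge_atTop n] with k hk
    unfold cc
    have hf : (0 : ℚ) < (k.factorial : ℚ) := by exact_mod_cast Nat.factorial_pos k
    apply mul_lt_mul_of_pos_right _ hf
    have h' : ((ofLex s).1 : ℚ) + 1 ≤ ((ofLex t).1 : ℚ) := by exact_mod_cast h
    have hk' : (n : ℚ) ≤ k := by exact_mod_cast hk
    have hk0 : (0 : ℚ) ≤ k := by positivity
    nlinarith
  · refine Eventually.of_forall fun k => ?_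
    unfold cc
    have hf : (0 : ℚ) < (k.factorial : ℚ) := by exact_mod_cast Nat.factorial_pos k
    apply mul_lt_mul_of_pos_right _ hf
    rw [h1]
    linarith

theorem cc_int (s : Q) : ∀ᶠ k in atTop, ∃ c : ℤ, (c : ℚ) = cc k s := by
  filter_upwards [eventually_ge_atTop (ofLex s).2.den] with k hk
  have hd : (ofLex s).2.den ∣ k.factorial := Nat.dvd_factorial (ofLex s).2.den_pos hk
  obtain ⟨m, hm⟩ := hd
  refine ⟨(ofLex s).1 * (k + 1) * k.factorial + (ofLex s).2.num * m, ?_⟩
  unfold cc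
  have h2 : (ofLex s).2 * ((ofLex s).2.den : ℚ) = (ofLex s).2.num := Rat.mul_den_eq_num _
  have hm' : (k.factorial : ℚ) = ((ofLex s).2.den : ℚ) * m := by exact_mod_cast hm
  push_cast
  rw [add_mul]
  congr 1
  rw [hm', ← mul_assoc, h2]

/-- data at a node -/
structure Node where
  e : Q ≃o Q
  C : Finset ℤ
  h0 : (0 : ℤ) ∈ C
  e0 : e (z 0) = z 0
  hC : ∀ c ∈ C, ∃ d : ℤ, e (z c) = z d

theorem exists_root : ∃ N : Node, N.e (z 1) = z 1 ∧ N.e (z 2) = z 3 := by
  let p0 : PartialIso Q Q := ⟨{(z 0, z 0), (z 1, z 1), (z 2, z 3)}, by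
    have lt01 : z 0 < z 1 := z_lt.2 (by norm_num)
    have lt12 : z 1 < z 2 := z_lt.2 (by norm_num)
    have lt02 : z 0 < z 2 := z_lt.2 (by norm_num)
    have lt13 : z 1 < z 3 := z_lt.2 (by norm_num)
    have lt03 : z 0 < z 3 := z_lt.2 (by norm_num)
    intro p hp q hq
    simp only [Finset.mem_insert, Finset.mem_singleton] at hp hq
    rcases hp with rfl | rfl | rfl <;> rcases hq with rfl | rfl | rfl <;>
      simp only [cmp_self_eq_eq] <;>
      first
      | (rw [(cmp_eq_lt_iff _ _).2 lt01])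
      | (rw [(cmp_eq_lt_iff _ _).2 lt12, (cmp_eq_lt_iff _ _).2 lt13])
      | (rw [(cmp_eq_lt_iff _ _).2 lt02, (cmp_eq_lt_iff _ _).2 lt03])
      | (rw [(cmp_eq_gt_iff _ _).2 lt01])
      | (rw [(cmp_eq_gt_iff _ _).2 lt12, (cmp_eq_gt_iff _ _).2 lt13])
      | (rw [(cmp_eq_gt_iff _ _).2 lt02, (cmp_eq_gt_iff _ _).2 lt03])⟩
  obtain ⟨e, he⟩ := extend p0
  have h0 : e (z 0) = z 0 := he (z 0, z 0) (by simp [p0])
  have h1 : e (z 1) = z 1 := he (z 1, z 1) (by simp [p0])
  have h2 : e (z 2) = z 3 := he (z 2, z 3) (by simp [p0])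
  exact ⟨⟨e, {0}, by simp, h0, by
    intro c hc
    simp only [Finset.mem_singleton] at hc
    subst hc
    exact ⟨0, h0⟩⟩, h1, h2⟩

theorem exists_children (N : Node) : ∃ ch : ℕ → Node,
    (∀ k, ∀ c ∈ N.C, ∀ d : ℤ, N.e (z c) = z d →
      (c * ((k + 1).factorial : ℤ)) ∈ (ch k).C ∧
        (ch k).e (z (c * ((k + 1).factorial : ℤ))) = z (d * ((k + 1).factorial : ℤ))) ∧
    (∀ s : Q, ∀ᶠ k in atTop, ∃ c d : ℤ, (c : ℚ) = cc k s ∧ (d : ℚ) = cc k (N.e s) ∧
      c ∈ (ch k).C ∧ (ch k).e (z c) = z d) := by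
  classical
  obtain ⟨en, hen⟩ := exists_surjective_nat Q
  let S : ℕ → Finset Q := fun n => (N.C.image z) ∪ (Finset.range n).image en
  let Good : ℕ → ℕ → Prop := fun k n => ∀ s ∈ S n, (∃ c : ℤ, (c : ℚ) = cc k s) ∧
    (∃ d : ℤ, (d : ℚ) = cc k (N.e s)) ∧ ∀ t ∈ S n, s < t →
      cc k s < cc k t ∧ cc k (N.e s) < cc k (N.e t)
  have hGood0 : ∀ k, Good k 0 := by
    intro k s hs
    simp only [S, Finset.range_zero, Finset.image_empty, Finset.union_empty,
      Finset.mem_image] at hs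
    obtain ⟨c, hc, rfl⟩ := hs
    obtain ⟨d, hd⟩ := N.hC c hc
    refine ⟨⟨_, (cc_z k c).symm⟩, ⟨d * ((k + 1).factorial : ℤ), by rw [hd]; exact (cc_z k d).symm⟩, ?_⟩
    intro t ht hlt
    simp only [S, Finset.range_zero, Finset.image_empty, Finset.union_empty,
      Finset.mem_image] at ht
    obtain ⟨c', hc', rfl⟩ := ht
    obtain ⟨d', hd'⟩ := N.hC c' hc'
    have hlt' : N.e (z c) < N.e (z c') := N.e.strictMono hlt
    rw [hd, hd'] at hlt' ⊢
    rw [z_lt] at hlt hlt'
    rw [cc_z, cc_z, cc_z, cc_z]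
    have hf : (0 : ℤ) < ((k + 1).factorial : ℤ) := by exact_mod_cast Nat.factorial_pos _
    constructor
    · exact_mod_cast mul_lt_mul_of_pos_right hlt hf
    · exact_mod_cast mul_lt_mul_of_pos_right hlt' hf
  have hGoodn : ∀ n, ∀ᶠ k in atTop, Good k n := by
    intro n
    have h : ∀ s ∈ S n, ∀ᶠ k in atTop, (∃ c : ℤ, (c : ℚ) = cc k s) ∧
        (∃ d : ℤ, (d : ℚ) = cc k (N.e s)) ∧ ∀ t ∈ S n, s < t →
        cc k s < cc k t ∧ cc k (N.e s) < cc k (N.e t) := by
      intro s _
      refine (cc_int s).and ((cc_int (N.e s)).and ?_)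
      rw [Filter.eventually_all_finset]
      intro t _
      by_cases hst : s < t
      · filter_upwards [cc_lt hst, cc_lt (N.e.strictMono hst)] with k h1 h2 _
        exact ⟨h1, h2⟩
      · exact Eventually.of_forall fun k h => absurd h hst
    exact (Filter.eventually_all_finset (S n)).2 h
  let nn : ℕ → ℕ := fun k => Nat.findGreatest (Good k) k
  have hnn : ∀ k, Good k (nn k) := fun k => Nat.findGreatest_spec (Nat.zero_le k) (hGood0 k)
  have hnn2 : ∀ n, ∀ᶠ k in atTop, n ≤ nn k := by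
    intro n
    filter_upwards [hGoodn n, eventually_ge_atTop n] with k h1 h2
    exact Nat.le_findGreatest h2 h1
  have key : ∀ k, ∃ M : Node, ∀ s ∈ S (nn k),
      ⌊cc k s⌋ ∈ M.C ∧ M.e (z ⌊cc k s⌋) = z ⌊cc k (N.e s)⌋ := by
    intro k
    have hfl : ∀ s ∈ S (nn k), ((⌊cc k s⌋ : ℤ) : ℚ) = cc k s ∧
        ((⌊cc k (N.e s)⌋ : ℤ) : ℚ) = cc k (N.e s) := by
      intro s hs
      obtain ⟨⟨c, hc⟩, ⟨d, hd⟩, _⟩ := hnn k s hs
      rw [← hc, ← hd]
      simp
    have hlt : ∀ s ∈ S (nn k), ∀ t ∈ S (nn k), s < t →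
        z ⌊cc k s⌋ < z ⌊cc k t⌋ ∧ z ⌊cc k (N.e s)⌋ < z ⌊cc k (N.e t)⌋ := by
      intro s hs t ht hst
      obtain ⟨_, _, h⟩ := hnn k s hs
      obtain ⟨h1, h2⟩ := h t ht hst
      rw [← (hfl s hs).1, ← (hfl t ht).1] at h1
      rw [← (hfl s hs).2, ← (hfl t ht).2] at h2
      exact ⟨z_lt.2 (by exact_mod_cast h1), z_lt.2 (by exact_mod_cast h2)⟩
    let p0 : PartialIso Q Q :=
      ⟨(S (nn k)).image (fun s => (z ⌊cc k s⌋, z ⌊cc k (N.e s)⌋)), by
        intro p hp q hq
        rw [Finset.mem_image] at hp hq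
        obtain ⟨s, hs, rfl⟩ := hp
        obtain ⟨t, ht, rfl⟩ := hq
        rcases lt_trichotomy s t with h | h | h
        · obtain ⟨h1, h2⟩ := hlt s hs t ht h
          simp only
          rw [(cmp_eq_lt_iff _ _).2 h1, (cmp_eq_lt_iff _ _).2 h2]
        · subst h
          simp only [cmp_self_eq_eq]
        · obtain ⟨h1, h2⟩ := hlt t ht s hs h
          simp only
          rw [(cmp_eq_gt_iff _ _).2 h1, (cmp_eq_gt_iff _ _).2 h2]⟩
    obtain ⟨e, he⟩ := extend p0
    have he' : ∀ s ∈ S (nn k), e (z ⌊cc k s⌋) = z ⌊cc k (N.e s)⌋ := by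
      intro s hs
      exact he (z ⌊cc k s⌋, z ⌊cc k (N.e s)⌋) (Finset.mem_image.2 ⟨s, hs, rfl⟩)
    have hz0 : z 0 ∈ S (nn k) :=
      Finset.mem_union_left _ (Finset.mem_image.2 ⟨0, N.h0, rfl⟩)
    have hf0 : ⌊cc k (z 0)⌋ = 0 := by rw [cc_z]; simp
    refine ⟨⟨e, (S (nn k)).image (fun s => ⌊cc k s⌋), ?_, ?_, ?_⟩, ?_⟩
    · exact Finset.mem_image.2 ⟨z 0, hz0, hf0⟩
    · have := he' (z 0) hz0
      rwa [N.e0, hf0] at this
    · intro c hc
      obtain ⟨s, hs, rfl⟩ := Finset.mem_image.1 hc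
      exact ⟨_, he' s hs⟩
    · intro s hs
      exact ⟨Finset.mem_image.2 ⟨s, hs, rfl⟩, he' s hs⟩
  choose ch hch using key
  refine ⟨ch, ?_, ?_⟩
  · intro k c hc d hd
    have hs : z c ∈ S (nn k) := Finset.mem_union_left _ (Finset.mem_image.2 ⟨c, hc, rfl⟩)
    obtain ⟨h1, h2⟩ := hch k (z c) hs
    rw [hd] at h2
    rw [cc_z, cc_z, Int.floor_intCast, Int.floor_intCast] at h2
    rw [cc_z, Int.floor_intCast] at h1
    exact ⟨h1, h2⟩
  · intro s
    obtain ⟨n, rfl⟩ := hen s
    filter_upwards [hnn2 (n + 1)] with k hk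
    have hs : en n ∈ S (nn k) :=
      Finset.mem_union_right _ (Finset.mem_image.2 ⟨n, Finset.mem_range.2 hk, rfl⟩)
    obtain ⟨h1, h2⟩ := hch k (en n) hs
    obtain ⟨⟨c, hc⟩, ⟨d, hd⟩, _⟩ := hnn k (en n) hs
    refine ⟨⌊cc k (en n)⌋, ⌊cc k (N.e (en n))⌋, ?_, ?_, h1, h2⟩
    · rw [← hc]; simp
    · rw [← hd]; simp

def W : List ℕ → ℤ
  | [] => 1
  | (k :: w) => ((k + 1).factorial : ℤ) * W w

theorem W_pos (w : List ℕ) : 0 < W w := by
  induction w with
  | nil => simp [W]
  | cons k w ih =>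
    have : (0 : ℤ) < ((k + 1).factorial : ℤ) := by exact_mod_cast Nat.factorial_pos _
    simp only [W]
    positivity

theorem W_append (w v : List ℕ) : W (w ++ v) = W w * W v := by
  induction w with
  | nil => simp [W]
  | cons k w ih => simp only [List.cons_append, W, ih]; ring

theorem cc_add (k : ℕ) (s t : Q) : cc k (s + t) = cc k s + cc k t := by
  unfold cc
  simp only [ofLex_add, Prod.fst_add, Prod.snd_add]
  push_cast
  ring

theorem cc_neg (k : ℕ) (s : Q) : cc k (-s) = - cc k s := by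
  unfold cc
  simp only [ofLex_neg, Prod.fst_neg, Prod.snd_neg]
  push_cast
  ring

/-- functions on the tree having a germ at every node -/
def IsG (f : List ℕ → ℤ) : Prop :=
  ∀ x, ∃ a : ℚ, ∀ᶠ k in atTop, ∀ w : List ℕ,
    (f (w ++ k :: x) : ℚ) = cc k (toLex (f x, a)) * W w

theorem IsG.sup {f g : List ℕ → ℤ} (hf : IsG f) (hg : IsG g) : IsG (f ⊔ g) := by
  intro x
  obtain ⟨a, ha⟩ := hf x
  obtain ⟨b, hb⟩ := hg x
  have main : ∀ (f g : List ℕ → ℤ) (a b : ℚ),
      (∀ᶠ k in atTop, ∀ w : List ℕ, (f (w ++ k :: x) : ℚ) = cc k (toLex (f x, a)) * W w) →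
      (∀ᶠ k in atTop, ∀ w : List ℕ, (g (w ++ k :: x) : ℚ) = cc k (toLex (g x, b)) * W w) →
      toLex (f x, a) ≤ toLex (g x, b) →
      ∀ᶠ k in atTop, ∀ w : List ℕ,
        ((f ⊔ g) (w ++ k :: x) : ℚ) = cc k (toLex ((f ⊔ g) x, b)) * W w := by
    intro f g a b ha hb hle
    have h1 : f x ≤ g x := by
      rw [Prod.Lex.le_iff] at hle
      rcases hle with h | h
      · exact le_of_lt h
      · exact le_of_eq h.1
    have h2 : (f ⊔ g) x = g x := by simp [h1]
    rw [h2]
    have h3 : ∀ᶠ k in atTop, cc k (toLex (f x, a)) ≤ cc k (toLex (g x, b)) := by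
      rcases hle.lt_or_eq with h | h
      · filter_upwards [cc_lt h] with k hk
        exact hk.le
      · exact Eventually.of_forall fun k => by rw [h]
    filter_upwards [ha, hb, h3] with k hk1 hk2 hk3 w
    have hW : (0 : ℚ) < (W w : ℚ) := by exact_mod_cast W_pos w
    have h4 : (f (w ++ k :: x) : ℚ) ≤ (g (w ++ k :: x) : ℚ) := by
      rw [hk1 w, hk2 w]
      exact mul_le_mul_of_nonneg_right hk3 hW.le
    have h5 : f (w ++ k :: x) ≤ g (w ++ k :: x) := by exact_mod_cast h4
    have h6 : (f ⊔ g) (w ++ k :: x) = g (w ++ k :: x) := by simp [h5]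
    rw [h6]
    exact hk2 w
  rcases le_total (toLex (f x, a)) (toLex (g x, b)) with h | h
  · exact ⟨b, main f g a b ha hb h⟩
  · refine ⟨a, ?_⟩
    rw [sup_comm]
    exact main g f b a hb ha h

theorem IsG.neg {f : List ℕ → ℤ} (hf : IsG f) : IsG (-f) := by
  intro x
  obtain ⟨a, ha⟩ := hf x
  refine ⟨-a, ?_⟩
  filter_upwards [ha] with k hk w
  have : (toLex ((-f) x, -a) : Q) = - toLex (f x, a) := rfl
  rw [this, cc_neg, neg_mul, ← hk w]
  simp

theorem IsG.add {f g : List ℕ → ℤ} (hf : IsG f) (hg : IsG g) : IsG (f + g) := by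
  intro x
  obtain ⟨a, ha⟩ := hf x
  obtain ⟨b, hb⟩ := hg x
  refine ⟨a + b, ?_⟩
  filter_upwards [ha, hb] with k hk1 hk2 w
  have : (toLex ((f + g) x, a + b) : Q) = toLex (f x, a) + toLex (g x, b) := rfl
  rw [this, cc_add, add_mul, ← hk1 w, ← hk2 w]
  simp

theorem IsG.inf {f g : List ℕ → ℤ} (hf : IsG f) (hg : IsG g) : IsG (f ⊓ g) := by
  have h := (hf.neg.sup hg.neg).neg
  rw [neg_sup, neg_neg, neg_neg] at h
  exact h

/-- the lattice-ordered group -/
def G : AddSubgroup (List ℕ → ℤ) where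
  carrier := {f | IsG f}
  zero_mem' := by
    intro x
    refine ⟨0, Eventually.of_forall fun k w => ?_⟩
    have : (toLex ((0 : List ℕ → ℤ) x, (0 : ℚ)) : Q) = z 0 := rfl
    rw [this, cc_z]
    simp
  add_mem' := fun hf hg => IsG.add hf hg
  neg_mem' := fun hf => IsG.neg hf

noncomputable def germ (f : G) (x : List ℕ) : Q := toLex (f.1 x, Classical.choose (f.2 x))

theorem germ_fst (f : G) (x : List ℕ) : (ofLex (germ f x)).1 = f.1 x := rfl

theorem germ_spec (f : G) (x : List ℕ) : ∀ᶠ k in atTop, ∀ w : List ℕ,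
    (f.1 (w ++ k :: x) : ℚ) = cc k (germ f x) * W w := Classical.choose_spec (f.2 x)

theorem germ_unique (f : G) (x : List ℕ) (s : Q)
    (hs : ∀ᶠ k in atTop, ∀ w : List ℕ, (f.1 (w ++ k :: x) : ℚ) = cc k s * W w) :
    germ f x = s := by
  have h1 := germ_spec f x
  rcases lt_trichotomy (germ f x) s with h | h | h
  · obtain ⟨k, hk1, hk2, hk3⟩ := (h1.and (hs.and (cc_lt h))).exists
    have e1 := hk1 []
    have e2 := hk2 []
    simp only [W, Int.cast_one, mul_one] at e1 e2
    rw [← e1, ← e2] at hk3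
    exact absurd hk3 (lt_irrefl _)
  · exact h
  · obtain ⟨k, hk1, hk2, hk3⟩ := (h1.and (hs.and (cc_lt h))).exists
    have e1 := hk1 []
    have e2 := hk2 []
    simp only [W, Int.cast_one, mul_one] at e1 e2
    rw [← e1, ← e2] at hk3
    exact absurd hk3 (lt_irrefl _)

theorem le_iff_germ (f g : G) : (∀ x, f.1 x ≤ g.1 x) ↔ ∀ x, germ f x ≤ germ g x := by
  constructor
  · intro h x
    by_contra hlt
    rw [not_le] at hlt
    obtain ⟨k, hk1, hk2, hk3⟩ := ((germ_spec f x).and ((germ_spec g x).and (cc_lt hlt))).exists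
    have e1 := hk1 []
    have e2 := hk2 []
    simp only [W, Int.cast_one, mul_one] at e1 e2
    rw [← e1, ← e2] at hk3
    have := h ([] ++ k :: x)
    have h' : f.1 ([] ++ k :: x) > g.1 ([] ++ k :: x) := by exact_mod_cast hk3
    omega
  · intro h x
    have := h x
    rw [Prod.Lex.le_iff, germ_fst, germ_fst] at this
    rcases this with h | h
    · exact h.le
    · exact h.1.le

theorem ext_germ (f g : G) (h : ∀ x, germ f x = germ g x) : f = g := by
  apply Subtype.ext
  funext x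
  rw [← germ_fst, ← germ_fst, h]

/-- compatible families of maps of germs -/
def Compat (β : List ℕ → Q → Q) : Prop :=
  ∀ x s, ∀ᶠ k in atTop, ∃ c d : ℤ, (c : ℚ) = cc k s ∧ (d : ℚ) = cc k (β x s) ∧
    ∀ w : List ℕ, β (w ++ k :: x) (z (c * W w)) = z (d * W w)

theorem germ_deep (f : G) (x : List ℕ) (k : ℕ) (c : ℤ)
    (h : ∀ w : List ℕ, f.1 (w ++ k :: x) = c * W w) (w : List ℕ) :
    germ f (w ++ k :: x) = z (c * W w) := by
  apply germ_unique
  refine Eventually.of_forall fun j v => ?_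
  have h1 : v ++ j :: (w ++ k :: x) = (v ++ j :: w) ++ k :: x := by simp
  rw [h1, h, cc_z, W_append, W]
  push_cast
  ring

theorem Phi_spec (β : List ℕ → Q → Q) (hβ : Compat β) (f : G) (x : List ℕ) :
    ∀ᶠ k in atTop, ∀ w : List ℕ,
      (((ofLex (β (w ++ k :: x) (germ f (w ++ k :: x)))).1 : ℤ) : ℚ)
        = cc k (β x (germ f x)) * W w := by
  filter_upwards [germ_spec f x, hβ x (germ f x)] with k hk1 hk2 w
  obtain ⟨c, d, hc, hd, hw⟩ := hk2
  have h1 : ∀ w : List ℕ, f.1 (w ++ k :: x) = c * W w := by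
    intro w
    have := hk1 w
    rw [← hc] at this
    exact_mod_cast this
  rw [germ_deep f x k c h1 w, hw w, ← hd]
  simp [z]

noncomputable def Phi (β : List ℕ → Q → Q) (hβ : Compat β) (f : G) : G :=
  ⟨fun x => (ofLex (β x (germ f x))).1, fun x => ⟨(ofLex (β x (germ f x))).2, Phi_spec β hβ f x⟩⟩

theorem germ_Phi (β : List ℕ → Q → Q) (hβ : Compat β) (f : G) (x : List ℕ) :
    germ (Phi β hβ f) x = β x (germ f x) :=
  germ_unique _ _ _ (Phi_spec β hβ f x)

/-- the family of order automorphisms -/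
theorem exists_family : ∃ e : List ℕ → (Q ≃o Q), Compat (fun x => e x) ∧
    Compat (fun x => (e x).symm) ∧ (∀ x, e x (z 0) = z 0) ∧
    e [] (z 1) = z 1 ∧ e [] (z 2) = z 3 := by
  obtain ⟨root, hr1, hr2⟩ := exists_root
  choose ch hch1 hch2 using exists_children
  let nd : List ℕ → Node := fun l => List.rec root (fun k _ N => ch N k) l
  have nd_nil : nd [] = root := rfl
  have nd_cons : ∀ k x, nd (k :: x) = ch (nd x) k := fun _ _ => rfl
  have deep : ∀ (w y : List ℕ) (c d : ℤ), c ∈ (nd y).C → (nd y).e (z c) = z d →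
      (c * W w) ∈ (nd (w ++ y)).C ∧ (nd (w ++ y)).e (z (c * W w)) = z (d * W w) := by
    intro w
    induction w with
    | nil =>
      intro y c d hc hd
      simp only [List.nil_append, W, mul_one]
      exact ⟨hc, hd⟩
    | cons k w ih =>
      intro y c d hc hd
      obtain ⟨h1, h2⟩ := ih y c d hc hd
      obtain ⟨h3, h4⟩ := hch1 (nd (w ++ y)) k _ h1 _ h2
      have e1 : c * W (k :: w) = c * W w * ((k + 1).factorial : ℤ) := by
        simp only [W]; ring
      have e2 : d * W (k :: w) = d * W w * ((k + 1).factorial : ℤ) := by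
        simp only [W]; ring
      rw [List.cons_append, nd_cons, e1, e2]
      exact ⟨h3, h4⟩
  have comp : Compat (fun x => (nd x).e) := by
    intro x s
    filter_upwards [hch2 (nd x) s] with k hk
    obtain ⟨c, d, hc, hd, hC, he⟩ := hk
    refine ⟨c, d, hc, hd, fun w => ?_⟩
    exact (deep w (k :: x) c d hC he).2
  refine ⟨fun x => (nd x).e, comp, ?_, fun x => (nd x).e0, hr1, hr2⟩
  intro x s
  filter_upwards [comp x ((nd x).e.symm s)] with k hk
  obtain ⟨c, d, hc, hd, hw⟩ := hk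
  refine ⟨d, c, ?_, hc, fun w => ?_⟩
  · simpa using hd
  · rw [← hw w]
    simp

/-- elements with prescribed constant germs below a node -/
theorem exists_elem (x : List ℕ) (b : ℤ) : ∃ f : G, f.1 x = b ∧ ∀ w, f.1 (w ++ x) = b * W w := by
  classical
  let F : List ℕ → ℤ := fun y => if x <:+ y then b * W (y.take (y.length - x.length)) else 0
  have hF : ∀ w, F (w ++ x) = b * W w := by
    intro w
    have h1 : x <:+ w ++ x := List.suffix_append w x
    simp only [F, h1, if_true]
    simp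
  have hFn : ∀ y, ¬ x <:+ y → F y = 0 := by
    intro y hy
    simp only [F, hy, if_false]
  have hG : IsG F := by
    intro y
    by_cases hy : x <:+ y
    · obtain ⟨v, rfl⟩ := hy
      refine ⟨0, Eventually.of_forall fun k w => ?_⟩
      have h1 : w ++ k :: (v ++ x) = (w ++ k :: v) ++ x := by simp
      have h2 : (toLex (F (v ++ x), (0 : ℚ)) : Q) = z (F (v ++ x)) := rfl
      rw [h1, h2, hF, hF, cc_z, W_append, W]
      push_cast
      ring
    · refine ⟨0, ?_⟩
      have h2 : (toLex (F y, (0 : ℚ)) : Q) = z (F y) := rfl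
      rw [h2, hFn y hy]
      filter_upwards [eventually_gt_atTop (x.sum)] with k hk w
      have h3 : ¬ x <:+ w ++ k :: y := by
        intro hs
        rcases List.suffix_or_suffix_of_suffix hs (List.suffix_append w (k :: y)) with h | h
        · rcases List.suffix_cons_iff.1 h with h4 | h4
          · rw [h4, List.sum_cons] at hk
            omega
          · exact hy h4
        · obtain ⟨v, hv⟩ := h
          rw [← hv, List.sum_append, List.sum_cons] at hk
          omega
      rw [hFn _ h3, cc_z]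
      simp
  exact ⟨⟨F, hG⟩, by have := hF []; simpa [W] using this, hF⟩

noncomputable instance instLatG : Lattice G :=
  Subtype.lattice (P := fun f : List ℕ → ℤ => f ∈ G)
    (fun _ _ hf hg => IsG.sup hf hg) (fun _ _ hf hg => IsG.inf hf hg)

theorem le_def' (f g : G) : f ≤ g ↔ ∀ x, f.1 x ≤ g.1 x := Iff.rfl

end Pool.Agent.S00714

open Pool Pool.MP_3dd297_al

namespace Pool.Agent.S00714

/-- The negation of the preceding statement: Let an abelian lattice-ordered group be an ℓ-subgroup of a product of copies of ℤ, with every projection onto ℤ surjective. Then any group operation on the same lattice, with the same zero and order-compatible translations on both sides, equals the original addition. -/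
theorem result :
    ¬ (∀ (G : Type) [AddCommGroup G] [Lattice G] [IsOrderedAddMonoid G],
      (∃ (I : Type) (f : G →+ (I → ℤ)),
        Function.Injective f ∧
        (∀ x y : G, f (x ⊔ y) = f x ⊔ f y) ∧
        (∀ x y : G, f (x ⊓ y) = f x ⊓ f y) ∧
        (∀ i : I, Function.Surjective (fun x : G => f x i))) →
      ∀ op : G → G → G,
        (∀ a b c : G, op (op a b) c = op a (op b c)) →
        (∀ a : G, op 0 a = a ∧ op a 0 = a) →
        (∀ a : G, ∃ b : G, op a b = 0 ∧ op b a = 0) →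
        (∀ a b c : G, a ≤ b → op c a ≤ op c b ∧ op a c ≤ op b c) →
        ∀ x y : G, op x y = x + y) := by
  intro H
  have : IsOrderedAddMonoid (Pool.Agent.S00714.G) := by
    refine { add_le_add_left := ?_ }
    intro a b hab c x
    have := hab x
    change a.1 x + c.1 x ≤ b.1 x + c.1 x
    have h : a.1 x ≤ b.1 x := this
    omega
  obtain ⟨e, hc, hcs, e0, e1, e2⟩ := exists_family
  set P := Phi (fun x => e x) hc with hP
  set P' := Phi (fun x => (e x).symm) hcs with hP'
  have gP : ∀ f x, germ (P f) x = e x (germ f x) := fun f x => germ_Phi _ hc f x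
  have gP' : ∀ f x, germ (P' f) x = (e x).symm (germ f x) := fun f x => germ_Phi _ hcs f x
  have PP' : ∀ f, P (P' f) = f := by
    intro f; apply ext_germ; intro x; rw [gP, gP']; simp
  have P'P : ∀ f, P' (P f) = f := by
    intro f; apply ext_germ; intro x; rw [gP', gP]; simp
  have Pmono : ∀ f g, f ≤ g → P f ≤ P g := by
    intro f g hfg
    rw [le_def', le_iff_germ] at hfg ⊢
    intro x
    rw [gP, gP]
    exact (e x).monotone (hfg x)
  have P'mono : ∀ f g, f ≤ g → P' f ≤ P' g := by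
    intro f g hfg
    rw [le_def', le_iff_germ] at hfg ⊢
    intro x
    rw [gP', gP']
    exact (e x).symm.monotone (hfg x)
  have germ0 : ∀ x, germ 0 x = z 0 := by
    intro x
    apply germ_unique
    refine Filter.Eventually.of_forall fun k w => ?_
    rw [cc_z]
    simp
  have P0 : P 0 = 0 := by
    apply ext_germ; intro x; rw [gP, germ0, e0]
  have P'0 : P' 0 = 0 := by
    conv_rhs => rw [← P'P 0, P0]
  obtain ⟨F, hF0, hF⟩ := exists_elem [] 1
  have h := H (Pool.Agent.S00714.G) ⟨List ℕ, (Pool.Agent.S00714.G).subtype, Subtype.val_injective,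
    fun _ _ => rfl, fun _ _ => rfl, fun i b => by
      obtain ⟨f, hf, _⟩ := exists_elem i b
      exact ⟨f, hf⟩⟩ (fun f g => P' (P f + P g))
    (fun a b c => by simp only [PP', add_assoc])
    (fun a => by simp only [P0, zero_add, add_zero, P'P, and_self])
    (fun a => ⟨P' (- P a), by simp only [PP', add_neg_cancel, neg_add_cancel, P'0, and_self]⟩)
    (fun a b c hab => ⟨P'mono _ _ (by
      have := Pmono a b hab
      exact add_le_add_right this (P c)), P'mono _ _ (by
      have := Pmono a b hab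
      exact add_le_add_left this (P c))⟩)
    F F
  have h2 : P F + P F = P (F + F) := by
    rw [← h, PP']
  have gF : germ F [] = z 1 := by
    apply germ_unique
    refine Filter.Eventually.of_forall fun k w => ?_
    have := hF (w ++ [k])
    simp only [List.append_nil] at this
    rw [this, cc_z, W_append]
    simp only [W]
    push_cast
    ring
  have gFF : germ (F + F) [] = z 2 := by
    apply germ_unique
    refine Filter.Eventually.of_forall fun k w => ?_
    have := hF (w ++ [k])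
    simp only [List.append_nil] at this
    have h3 : (F + F).1 (w ++ [k]) = F.1 (w ++ [k]) + F.1 (w ++ [k]) := rfl
    rw [h3, this, cc_z, W_append]
    simp only [W]
    push_cast
    ring
  have v1 : (P F).1 [] = 1 := by
    rw [← germ_fst, gP, gF, e1]; rfl
  have v2 : (P (F + F)).1 [] = 3 := by
    rw [← germ_fst, gP, gFF, e2]; rfl
  have v3 : (P F + P F).1 [] = (P F).1 [] + (P F).1 [] := rfl
  rw [h2, v2, v1] at v3
  norm_num at v3

end Pool.Agent.S00714
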