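import Pool.Statements.S00755
import Pool.Agent.H532G2.Final

set_option autoImplicit false
open Pool Pool.MP_432615_al

namespace Pool.Agent.S00755

/-- Every group in which each element has 2-power order, and whose finite subgroups are all nilpotent of class at most 3, is itself nilpotent. -/
theorem result :
    ∀ (G : Type) [Group G], IsPGroup 2 G →
      (∀ H : Subgroup G, Finite ↥H → upperCentralSeries (↥H) 3 = ⊤) →
      Group.IsNilpotent G := by
  intro G _ h2 h
  exact Pool.Agent.H532G2.main G h2 h

end Pool.Agent.S00755
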