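import Pool.Statements.S00769
import Pool.Agent.Helper472.LatMainFull
import Pool.Agent.Helper472.Lat_CST2
import Pool.Agent.Helper472.Lat_TTL

set_option autoImplicit false
open Pool Pool.MP_45783b_al

namespace Pool.Agent.S00769

/-- For locally compact Hausdorff groups G and H with order-isomorphic lattices of closed subgroups: if every finite subset of G lies in a compact subgroup, then every finite subset of H lies in a compact subgroup. -/
theorem result :
    ∀ (G H : Type) [Group G] [TopologicalSpace G] [IsTopologicalGroup G]
      [LocallyCompactSpace G] [T2Space G]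
      [Group H] [TopologicalSpace H] [IsTopologicalGroup H]
      [LocallyCompactSpace H] [T2Space H],
      Nonempty ({K : Subgroup G // IsClosed (K : Set G)} ≃o
        {K : Subgroup H // IsClosed (K : Set H)}) →
      (∀ F : Finset G, ∃ K : Subgroup G, IsCompact (K : Set G) ∧ (↑F : Set G) ⊆ (K : Set G)) →
      (∀ F : Finset H, ∃ K : Subgroup H, IsCompact (K : Set H) ∧ (↑F : Set H) ⊆ (K : Set H)) := by
  intro G H _ _ _ _ _ _ _ _ _ _ hφ hG
  obtain ⟨φ⟩ := hφ
  exact Pool.LatH472.D_full
    (Pool.LatH472.TTL Pool.LatH472.CST1 (Pool.LatH472.CST2 Pool.LatH472.CST1)) G H φ hG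

end Pool.Agent.S00769
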