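import Pool.Statements.S00778
import Mathlib

set_option autoImplicit false
open Pool Pool.MP_477103_al

namespace Pool.Agent.S00778

open scoped commutatorElement

section CCR
variable {K : Type} [Field K] {C : Type} [DecidableEq C]

def xOp (c : C) : (Finset C → K) →ₗ[K] (Finset C → K) where
  toFun f S := if c ∈ S then f (S.erase c) else 0
  map_add' f g := by
    funext S
    by_cases h : c ∈ S <;> simp [h]
  map_smul' r f := by
    funext S
    by_cases h : c ∈ S <;> simp [h]

def yOp (c : C) : (Finset C → K) →ₗ[K] (Finset C → K) where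
  toFun f S := if c ∈ S then 0 else f (insert c S)
  map_add' f g := by
    funext S
    by_cases h : c ∈ S <;> simp [h]
  map_smul' r f := by
    funext S
    by_cases h : c ∈ S <;> simp [h]

theorem xOp_comm (a b : C) : (xOp a * xOp b : Module.End K (Finset C → K)) = xOp b * xOp a := by
  apply LinearMap.ext
  intro f
  funext S
  show (if a ∈ S then (if b ∈ S.erase a then f ((S.erase a).erase b) else 0) else 0) =
    (if b ∈ S then (if a ∈ S.erase b then f ((S.erase b).erase a) else 0) else 0)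
  by_cases hab : a = b
  · subst hab; rfl
  · by_cases ha : a ∈ S <;> by_cases hb : b ∈ S <;>
      simp [ha, hb, Finset.mem_erase, hab, Ne.symm hab, Finset.erase_right_comm]

theorem yOp_comm (a b : C) : (yOp a * yOp b : Module.End K (Finset C → K)) = yOp b * yOp a := by
  apply LinearMap.ext
  intro f
  funext S
  show (if a ∈ S then 0 else (if b ∈ insert a S then 0 else f (insert b (insert a S)))) =
    (if b ∈ S then 0 else (if a ∈ insert b S then 0 else f (insert a (insert b S))))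
  by_cases hab : a = b
  · subst hab; rfl
  · by_cases ha : a ∈ S <;> by_cases hb : b ∈ S <;>
      simp [ha, hb, Finset.mem_insert, hab, Ne.symm hab, Finset.insert_comm]

theorem yxOp [CharP K 2] (a b : C) :
    (yOp a * xOp b - xOp b * yOp a : Module.End K (Finset C → K)) = if a = b then 1 else 0 := by
  apply LinearMap.ext
  intro f
  funext S
  have h2 : ∀ t : K, -t = t := fun t => CharTwo.neg_eq t
  by_cases hab : a = b
  · subst hab
    show (if a ∈ S then 0 else (if a ∈ insert a S then f ((insert a S).erase a) else 0)) -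
      (if a ∈ S then (if a ∈ S.erase a then 0 else f (insert a (S.erase a))) else 0) = _
    by_cases ha : a ∈ S
    · simp [ha, h2]
    · simp [ha, Finset.erase_insert ha]
  · show (if a ∈ S then 0 else (if b ∈ insert a S then f ((insert a S).erase b) else 0)) -
      (if b ∈ S then (if a ∈ S.erase b then 0 else f (insert a (S.erase b))) else 0) = _
    by_cases ha : a ∈ S <;> by_cases hb : b ∈ S <;>
      simp [ha, hb, Finset.mem_insert, Finset.mem_erase, hab, Ne.symm hab]
    rw [Finset.erase_insert_of_ne hab]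
    simp

end CCR

section Weyl
variable {K : Type} [Field K] {C : Type} [Fintype C] [DecidableEq C]
variable {A : Type} [Ring A] [Algebra K A]

def Xv (x : C → A) (v : C → K) : A := ∑ c, v c • x c
def Qm (x y : C → A) (P : Matrix C C K) : A := ∑ c, ∑ d, P c d • (x c * y d)

variable (x y : C → A) (hx : ∀ a b, x a * x b = x b * x a) (hy : ∀ a b, y a * y b = y b * y a)
  (hyx : ∀ a b, y a * x b - x b * y a = if a = b then 1 else 0)

omit [DecidableEq C] in
theorem Xv_add (v w : C → K) : Xv x (v + w) = Xv x v + Xv x w := by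
  simp [Xv, add_smul, Finset.sum_add_distrib]

omit [DecidableEq C] in
theorem Xv_sub (v w : C → K) : Xv x (v - w) = Xv x v - Xv x w := by
  simp [Xv, sub_smul, Finset.sum_sub_distrib]

omit [DecidableEq C] in
theorem Xv_neg (v : C → K) : Xv x (-v) = - Xv x v := by
  simp [Xv]

omit [DecidableEq C] in
theorem Qm_add (P R : Matrix C C K) : Qm x y (P + R) = Qm x y P + Qm x y R := by
  simp [Qm, add_smul, Finset.sum_add_distrib]

omit [DecidableEq C] in
theorem Qm_sub (P R : Matrix C C K) : Qm x y (P - R) = Qm x y P - Qm x y R := by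
  simp [Qm, sub_smul, Finset.sum_sub_distrib]

omit [DecidableEq C] in
include hx in
theorem XX (v w : C → K) : Xv x v * Xv x w - Xv x w * Xv x v = 0 := by
  simp only [Xv, Finset.sum_mul_sum, smul_mul_smul_comm]
  rw [Finset.sum_comm (s := Finset.univ) (t := Finset.univ) (f := fun i j => (w i * v j) • (x i * x j))]
  simp only [hx, mul_comm (v _) (w _), sub_self]

include hyx in
theorem YX (u v : C → K) : Xv y u * Xv x v - Xv x v * Xv y u = (u ⬝ᵥ v) • (1 : A) := by
  simp only [Xv, Finset.sum_mul_sum, smul_mul_smul_comm]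
  rw [Finset.sum_comm (s := Finset.univ) (t := Finset.univ) (f := fun i j => (v i * u j) • (x i * y j))]
  rw [← Finset.sum_sub_distrib]
  simp only [← Finset.sum_sub_distrib, mul_comm (v _) (u _), ← smul_sub, hyx]
  simp [dotProduct, Finset.sum_smul]

include hx hyx in
theorem QX1 (P : Matrix C C K) (e : C) : Qm x y P * x e - x e * Qm x y P = Xv x (fun c => P c e) := by
  simp only [Qm, Finset.sum_mul, Finset.mul_sum, ← Finset.sum_sub_distrib, smul_mul_assoc, mul_smul_comm, ← smul_sub]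
  have : ∀ c d, x c * y d * x e - x e * (x c * y d) = if d = e then x c else 0 := by
    intro c d
    have h1 : x c * y d * x e - x e * (x c * y d) = x c * (y d * x e - x e * y d) := by
      rw [← mul_assoc (x e), hx e c]; noncomm_ring
    rw [h1, hyx]
    split_ifs <;> simp
  simp [this, Xv]

include hy hyx in
theorem QY1 (P : Matrix C C K) (e : C) : Qm x y P * y e - y e * Qm x y P = - Xv y (fun c => P e c) := by
  simp only [Qm, Finset.sum_mul, Finset.mul_sum, ← Finset.sum_sub_distrib, smul_mul_assoc, mul_smul_comm, ← smul_sub]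
  have : ∀ c d, x c * y d * y e - y e * (x c * y d) = if e = c then - y d else 0 := by
    intro c d
    have h1 : x c * y d * y e - y e * (x c * y d) = - ((y e * x c - x c * y e) * y d) := by
      rw [mul_assoc, hy d e]; noncomm_ring
    rw [h1, hyx]
    split_ifs <;> simp
  simp [this, Xv]

include hx hyx in
theorem QX (P : Matrix C C K) (v : C → K) : Qm x y P * Xv x v - Xv x v * Qm x y P = Xv x (P.mulVec v) := by
  have h1 : Qm x y P * Xv x v - Xv x v * Qm x y P = ∑ e, v e • (Qm x y P * x e - x e * Qm x y P) := by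
    simp only [Xv, Finset.sum_mul, Finset.mul_sum, ← Finset.sum_sub_distrib, smul_mul_assoc, mul_smul_comm, ← smul_sub]
  rw [h1]
  simp only [QX1 x y hx hyx, Xv, Matrix.mulVec, dotProduct, Finset.smul_sum, Finset.sum_smul, smul_smul]
  rw [Finset.sum_comm]
  simp only [mul_comm]

include hy hyx in
theorem QY (P : Matrix C C K) (u : C → K) : Qm x y P * Xv y u - Xv y u * Qm x y P = - Xv y (Matrix.vecMul u P) := by
  have h1 : Qm x y P * Xv y u - Xv y u * Qm x y P = ∑ e, u e • (Qm x y P * y e - y e * Qm x y P) := by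
    simp only [Xv, Finset.sum_mul, Finset.mul_sum, ← Finset.sum_sub_distrib, smul_mul_assoc, mul_smul_comm, ← smul_sub]
  rw [h1]
  simp only [QY1 x y hy hyx, Xv, Matrix.vecMul, dotProduct, Finset.smul_sum, Finset.sum_smul, smul_smul, smul_neg, Finset.sum_neg_distrib]
  rw [Finset.sum_comm]

include hx hy hyx in
theorem QQ (P R : Matrix C C K) : Qm x y P * Qm x y R - Qm x y R * Qm x y P = Qm x y (P * R - R * P) := by
  have h1 : Qm x y P * Qm x y R - Qm x y R * Qm x y P = ∑ c, ∑ d, R c d •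
      ((Qm x y P * x c - x c * Qm x y P) * y d + x c * (Qm x y P * y d - y d * Qm x y P)) := by
    have : ∀ c d, (Qm x y P * x c - x c * Qm x y P) * y d + x c * (Qm x y P * y d - y d * Qm x y P) =
        Qm x y P * (x c * y d) - (x c * y d) * Qm x y P := by
      intro c d; noncomm_ring
    simp only [this]
    conv_lhs => rw [Qm.eq_def x y R]
    simp only [Finset.sum_mul, Finset.mul_sum, ← Finset.sum_sub_distrib, smul_mul_assoc, mul_smul_comm, ← smul_sub]
  rw [h1]
  simp only [QX1 x y hx hyx, QY1 x y hy hyx]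
  rw [Qm_sub]
  simp only [smul_add, Finset.sum_add_distrib, sub_eq_add_neg]
  have e1 : (∑ c, ∑ d, R c d • (Xv x (fun e => P e c) * y d)) = Qm x y (P * R) := by
    simp only [Qm, Xv, Finset.sum_mul, Finset.smul_sum, smul_mul_assoc, smul_smul, Matrix.mul_apply, Finset.sum_smul]
    calc (∑ c, ∑ d, ∑ e, (R c d * P e c) • (x e * y d))
        = ∑ c, ∑ e, ∑ d, (R c d * P e c) • (x e * y d) := by
          refine Finset.sum_congr rfl fun c _ => ?_
          rw [Finset.sum_comm]
      _ = ∑ e, ∑ c, ∑ d, (R c d * P e c) • (x e * y d) := by rw [Finset.sum_comm]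
      _ = ∑ e, ∑ d, ∑ c, (R c d * P e c) • (x e * y d) := by
          refine Finset.sum_congr rfl fun c _ => ?_
          rw [Finset.sum_comm]
      _ = _ := by simp only [mul_comm]
  have e2 : (∑ c, ∑ d, R c d • (x c * -Xv y (fun e => P d e))) = - Qm x y (R * P) := by
    simp only [Qm, Xv, mul_neg, smul_neg, Finset.sum_neg_distrib, Finset.mul_sum, Finset.smul_sum, mul_smul_comm, smul_smul, Matrix.mul_apply, Finset.sum_smul]
    congr 1
    refine Finset.sum_congr rfl fun c _ => ?_
    rw [Finset.sum_comm]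
  rw [e1, e2]

end Weyl

/-- Proof idea (answer negative already for n = 2, 2-groups G and large p). A stage is a finite soluble Lie ring L
in characteristic 2 with a fixed-point-free action of Z/p x Z/p, a family of matrix representations over K indexed by
Z/p whose weights (for the first factor) avoid zero, and a chain U 0 <= ... <= U k = L with U i = [U i, U (i+1)].
The next stage is W + W* + Z + L, where W consists of functions from Z/p to the representation space, W + W* + Z is a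
Heisenberg ring with centre Z inside the functions on Z/p with zero sum, and the new representation is the truncated
polynomial ring on two copies of the old one. Each step makes the chain longer by one, and it is possible as long as
p exceeds the occurring degrees. -/
structure Stage (p : ℕ) (K : Type) [Field K] (χ : AddChar (ZMod p) K) (B : Type) [Fintype B]
    [DecidableEq B] (deg : B → ZMod p) (k : ℕ) where
  L : Type
  [lr : LieRing L]
  [fin : Finite L]
  act : ZMod p × ZMod p → L →+ L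
  act_zero : ∀ x, act 0 x = x
  act_add : ∀ s t x, act (s + t) x = act s (act t x)
  act_lie : ∀ s x y, act s ⁅x, y⁆ = ⁅act s x, act s y⁆
  fpf : ∀ x, (∀ s, act s x = x) → x = 0
  faithful : ∃ x, ∀ s, act s x = x → s = 0
  ρ : ZMod p → L →+ Matrix B B K
  ρ_lie : ∀ j x y, ρ j ⁅x, y⁆ = ρ j x * ρ j y - ρ j y * ρ j x
  ρ_act : ∀ j a b x c c', ρ j (act (a, b) x) c c' =
    χ (a * deg c) * ρ (j - b) x c c' * χ (-(a * deg c'))
  U : ℕ → AddSubgroup L
  U_mono : ∀ i, U i ≤ U (i + 1)
  U_top : U k = ⊤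
  U_lie : ∀ i < k, U i ≤ AddSubgroup.closure {z | ∃ x ∈ U i, ∃ y ∈ U (i + 1), z = ⁅x, y⁆}
  z : L
  z_mem : z ∈ U 0
  ρ_z : ∀ j, ρ j z = χ j • 1
  d : ℕ
  V : ℕ → AddSubgroup L
  V_zero : V 0 = ⊥
  V_mono : ∀ i, V i ≤ V (i + 1)
  V_top : V d = ⊤
  V_lie : ∀ i x y, x ∈ V (i + 1) → y ∈ V (i + 1) → ⁅x, y⁆ ∈ V i

attribute [instance] Stage.lr Stage.fin

def del (p : ℕ) (K : Type) [Field K] : (ZMod p → K) →+ (ZMod p → K) where
  toFun h j := h j + h (j + 1)
  map_zero' := by funext j; simp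
  map_add' f g := by funext j; simp; ring

section Next
variable {p : ℕ} {K : Type} [Field K] {χ : AddChar (ZMod p) K} {B : Type} [Fintype B]
    [DecidableEq B] {deg : B → ZMod p} {k : ℕ}

def NL (S : Stage p K χ B deg k) : Type :=
  ((ZMod p → B → K) × (ZMod p → B → K)) × ((del p K).range × S.L)

variable (S : Stage p K χ B deg k)

instance : AddCommGroup (NL S) :=
  inferInstanceAs (AddCommGroup (((ZMod p → B → K) × (ZMod p → B → K)) × ((del p K).range × S.L)))

variable {S}

def NL.w (u : NL S) : ZMod p → B → K := u.1.1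
def NL.a (u : NL S) : ZMod p → B → K := u.1.2
def NL.g (u : NL S) : (del p K).range := u.2.1
def NL.l (u : NL S) : S.L := u.2.2
def NL.mk (w a : ZMod p → B → K) (g : (del p K).range) (l : S.L) : NL S := ((w, a), (g, l))

@[simp] theorem NL.mk_w (w a : ZMod p → B → K) (g : (del p K).range) (l : S.L) : (NL.mk w a g l).w = w := rfl
@[simp] theorem NL.mk_a (w a : ZMod p → B → K) (g : (del p K).range) (l : S.L) : (NL.mk w a g l).a = a := rfl
@[simp] theorem NL.mk_g (w a : ZMod p → B → K) (g : (del p K).range) (l : S.L) : (NL.mk w a g l).g = g := rfl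
@[simp] theorem NL.mk_l (w a : ZMod p → B → K) (g : (del p K).range) (l : S.L) : (NL.mk w a g l).l = l := rfl
@[simp] theorem NL.add_w (u v : NL S) : (u + v).w = u.w + v.w := rfl
@[simp] theorem NL.add_a (u v : NL S) : (u + v).a = u.a + v.a := rfl
@[simp] theorem NL.add_g (u v : NL S) : (u + v).g = u.g + v.g := rfl
@[simp] theorem NL.add_l (u v : NL S) : (u + v).l = u.l + v.l := rfl
@[simp] theorem NL.zero_w : (0 : NL S).w = 0 := rfl
@[simp] theorem NL.zero_a : (0 : NL S).a = 0 := rfl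
@[simp] theorem NL.zero_g : (0 : NL S).g = 0 := rfl
@[simp] theorem NL.zero_l : (0 : NL S).l = 0 := rfl
@[simp] theorem NL.neg_w (u : NL S) : (-u).w = -u.w := rfl
@[simp] theorem NL.neg_a (u : NL S) : (-u).a = -u.a := rfl
@[simp] theorem NL.neg_g (u : NL S) : (-u).g = -u.g := rfl
@[simp] theorem NL.neg_l (u : NL S) : (-u).l = -u.l := rfl

theorem NL.ext' {u v : NL S} (h1 : u.w = v.w) (h2 : u.a = v.a) (h3 : u.g = v.g) (h4 : u.l = v.l) : u = v := by
  rcases u with ⟨⟨a, b⟩, ⟨c, d⟩⟩
  rcases v with ⟨⟨a', b'⟩, ⟨c', d'⟩⟩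
  simp only [NL.w, NL.a, NL.g, NL.l] at h1 h2 h3 h4
  subst h1 h2 h3 h4
  rfl

def NL.toZ (h : ZMod p → K) : (del p K).range := ⟨del p K h, ⟨h, rfl⟩⟩

theorem NL.toZ_add (h h' : ZMod p → K) : NL.toZ (h + h') = NL.toZ h + NL.toZ h' := by
  apply Subtype.ext; simp [NL.toZ]
theorem NL.toZ_zero : NL.toZ (0 : ZMod p → K) = 0 := by
  apply Subtype.ext; simp [NL.toZ]

/-- action on vectors -/
def lw (S : Stage p K χ B deg k) (l : S.L) (w : ZMod p → B → K) : ZMod p → B → K := fun j => (S.ρ j l).mulVec (w j)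
def la (S : Stage p K χ B deg k) (l : S.L) (a : ZMod p → B → K) : ZMod p → B → K := fun j => - Matrix.vecMul (a j) (S.ρ j l)
def pr (a w : ZMod p → B → K) : ZMod p → K := fun j => a j ⬝ᵥ w j

instance : Bracket (NL S) (NL S) where
  bracket u v := NL.mk (lw S u.l v.w - lw S v.l u.w) (la S u.l v.a - la S v.l u.a)
    (NL.toZ (pr u.a v.w - pr v.a u.w)) ⁅u.l, v.l⁆

@[simp] theorem NL.lie_w (u v : NL S) : (⁅u, v⁆).w = lw S u.l v.w - lw S v.l u.w := rfl
@[simp] theorem NL.lie_a (u v : NL S) : (⁅u, v⁆).a = la S u.l v.a - la S v.l u.a := rfl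
@[simp] theorem NL.lie_g (u v : NL S) : (⁅u, v⁆).g = NL.toZ (pr u.a v.w - pr v.a u.w) := rfl
@[simp] theorem NL.lie_l (u v : NL S) : (⁅u, v⁆).l = ⁅u.l, v.l⁆ := rfl

theorem lw_add_left (l l' : S.L) (w : ZMod p → B → K) : lw S (l + l') w = lw S l w + lw S l' w := by
  funext j; simp [lw, Matrix.add_mulVec]
theorem lw_add_right (l : S.L) (w w' : ZMod p → B → K) : lw S l (w + w') = lw S l w + lw S l w' := by
  funext j; simp [lw, Matrix.mulVec_add]
theorem la_add_left (l l' : S.L) (w : ZMod p → B → K) : la S (l + l') w = la S l w + la S l' w := by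
  funext j; simp [la, Matrix.vecMul_add]; abel
theorem la_add_right (l : S.L) (w w' : ZMod p → B → K) : la S l (w + w') = la S l w + la S l w' := by
  funext j; simp [la, Matrix.add_vecMul]; abel
theorem lw_sub_right (l : S.L) (w w' : ZMod p → B → K) : lw S l (w - w') = lw S l w - lw S l w' := by
  funext j; simp [lw, Matrix.mulVec_sub]
theorem la_sub_right (l : S.L) (w w' : ZMod p → B → K) : la S l (w - w') = la S l w - la S l w' := by
  funext j; simp [la, Matrix.sub_vecMul]; abel
theorem lw_lie (l l' : S.L) (w : ZMod p → B → K) : lw S ⁅l, l'⁆ w = lw S l (lw S l' w) - lw S l' (lw S l w) := by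
  funext j; simp [lw, S.ρ_lie, Matrix.sub_mulVec, Matrix.mulVec_mulVec]
theorem la_lie (l l' : S.L) (w : ZMod p → B → K) : la S ⁅l, l'⁆ w = la S l (la S l' w) - la S l' (la S l w) := by
  funext j; simp [la, S.ρ_lie, Matrix.vecMul_sub, Matrix.vecMul_vecMul, Matrix.neg_vecMul]
theorem pr_add_left (a a' w : ZMod p → B → K) : pr (a + a') w = pr a w + pr a' w := by
  funext j; simp [pr, add_dotProduct]
theorem pr_add_right (a w w' : ZMod p → B → K) : pr a (w + w') = pr a w + pr a w' := by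
  funext j; simp [pr, dotProduct_add]
theorem pr_sub_left (a a' w : ZMod p → B → K) : pr (a - a') w = pr a w - pr a' w := by
  funext j; simp [pr, sub_dotProduct]
theorem pr_sub_right (a w w' : ZMod p → B → K) : pr a (w - w') = pr a w - pr a w' := by
  funext j; simp [pr, dotProduct_sub]
theorem lw_zero_left (w : ZMod p → B → K) : lw S 0 w = 0 := by
  funext j; simp [lw]
theorem la_zero_left (w : ZMod p → B → K) : la S 0 w = 0 := by
  funext j; simp [la]
theorem lw_zero_right (l : S.L) : lw S l 0 = 0 := by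
  funext j; simp [lw]
theorem la_zero_right (l : S.L) : la S l 0 = 0 := by
  funext j; simp [la]
theorem pr_zero_left (w : ZMod p → B → K) : pr 0 w = 0 := by
  funext j; simp [pr]
theorem pr_zero_right (w : ZMod p → B → K) : pr w 0 = 0 := by
  funext j; simp [pr]
theorem pr_la (l : S.L) (a w : ZMod p → B → K) : pr (la S l a) w = - pr a (lw S l w) := by
  funext j; simp [pr, la, lw, Matrix.dotProduct_mulVec]

instance : LieRing (NL S) where
  add_lie x y z := by
    apply NL.ext'
    · simp [lw_add_left, lw_add_right]; abel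
    · simp [la_add_left, la_add_right]; abel
    · simp only [NL.lie_g, NL.add_g, NL.add_a, NL.add_w, pr_add_left, pr_add_right, ← NL.toZ_add]
      congr 1; abel
    · simp
  lie_add x y z := by
    apply NL.ext'
    · simp [lw_add_left, lw_add_right]; abel
    · simp [la_add_left, la_add_right]; abel
    · simp only [NL.lie_g, NL.add_g, NL.add_a, NL.add_w, pr_add_left, pr_add_right, ← NL.toZ_add]
      congr 1; abel
    · simp
  lie_self x := by
    apply NL.ext'
    · simp
    · simp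
    · simp [NL.toZ_zero]
    · simp
  leibniz_lie x y z := by
    apply NL.ext'
    · simp only [NL.lie_w, NL.lie_l, NL.add_w, lw_sub_right, lw_lie]; abel
    · simp only [NL.lie_a, NL.lie_l, NL.add_a, la_sub_right, la_lie]; abel
    · simp only [NL.lie_g, NL.add_g, NL.lie_a, NL.lie_w, pr_sub_left, pr_sub_right, ← NL.toZ_add, pr_la]
      congr 1; abel
    · simp only [NL.lie_l, NL.add_l]; exact leibniz_lie _ _ _


/-- twisted actions on the components -/
def sw (χ : AddChar (ZMod p) K) (deg : B → ZMod p) (t : ZMod p × ZMod p) (w : ZMod p → B → K) : ZMod p → B → K :=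
  fun j c => χ (t.1 * deg c) * w (j - t.2) c
def sa (χ : AddChar (ZMod p) K) (deg : B → ZMod p) (t : ZMod p × ZMod p) (w : ZMod p → B → K) : ZMod p → B → K :=
  fun j c => χ (-(t.1 * deg c)) * w (j - t.2) c
def sg (t : ZMod p × ZMod p) (g : (del p K).range) : (del p K).range :=
  ⟨fun j => g.1 (j - t.2), by
    obtain ⟨h, hh⟩ := g.2
    refine ⟨fun j => h (j - t.2), ?_⟩
    funext j
    rw [← hh]
    show h (j - t.2) + h (j + 1 - t.2) = h (j - t.2) + h (j - t.2 + 1)
    congr 2
    ring⟩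

theorem sw_add (t : ZMod p × ZMod p) (w w' : ZMod p → B → K) : sw χ deg t (w + w') = sw χ deg t w + sw χ deg t w' := by
  funext j c; simp [sw, mul_add]
theorem sa_add (t : ZMod p × ZMod p) (w w' : ZMod p → B → K) : sa χ deg t (w + w') = sa χ deg t w + sa χ deg t w' := by
  funext j c; simp [sa, mul_add]
theorem sg_add (t : ZMod p × ZMod p) (w w' : (del p K).range) : sg t (w + w') = sg t w + sg t w' := by
  apply Subtype.ext; funext j; simp [sg]
theorem sw_sub (t : ZMod p × ZMod p) (w w' : ZMod p → B → K) : sw χ deg t (w - w') = sw χ deg t w - sw χ deg t w' := by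
  funext j c; simp [sw, mul_sub]
theorem sa_sub (t : ZMod p × ZMod p) (w w' : ZMod p → B → K) : sa χ deg t (w - w') = sa χ deg t w - sa χ deg t w' := by
  funext j c; simp [sa, mul_sub]
theorem sw_comp (s t : ZMod p × ZMod p) (w : ZMod p → B → K) : sw χ deg (s + t) w = sw χ deg s (sw χ deg t w) := by
  funext j c
  simp only [sw, Prod.fst_add, Prod.snd_add, add_mul, AddChar.map_add_eq_mul, mul_assoc, sub_sub]
theorem sa_comp (s t : ZMod p × ZMod p) (w : ZMod p → B → K) : sa χ deg (s + t) w = sa χ deg s (sa χ deg t w) := by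
  funext j c
  simp only [sa, Prod.fst_add, Prod.snd_add, add_mul, neg_add, AddChar.map_add_eq_mul, mul_assoc, sub_sub]
theorem sg_comp (s t : ZMod p × ZMod p) (w : (del p K).range) : sg (s + t) w = sg s (sg t w) := by
  apply Subtype.ext; funext j
  simp only [sg, Prod.snd_add, sub_sub]
theorem sw_zero (w : ZMod p → B → K) : sw χ deg 0 w = w := by
  funext j c; simp [sw]
theorem sa_zero (w : ZMod p → B → K) : sa χ deg 0 w = w := by
  funext j c; simp [sa]
theorem sg_zero (w : (del p K).range) : sg 0 w = w := by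
  apply Subtype.ext; funext j; simp [sg]

theorem chi_neg_mul (χ : AddChar (ZMod p) K) (x : ZMod p) : χ (-x) * χ x = 1 := by
  rw [← AddChar.map_add_eq_mul]; simp

theorem lw_sw (t : ZMod p × ZMod p) (l : S.L) (w : ZMod p → B → K) :
    lw S (S.act t l) (sw χ deg t w) = sw χ deg t (lw S l w) := by
  funext j c
  obtain ⟨a, b⟩ := t
  simp only [lw, sw, Matrix.mulVec, dotProduct, S.ρ_act, Finset.mul_sum]
  refine Finset.sum_congr rfl fun c' _ => ?_
  have := chi_neg_mul χ (a * deg c')
  linear_combination (χ (a * deg c) * S.ρ (j - b) l c c' * w (j - b) c') * this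

theorem la_sa (t : ZMod p × ZMod p) (l : S.L) (w : ZMod p → B → K) :
    la S (S.act t l) (sa χ deg t w) = sa χ deg t (la S l w) := by
  funext j c
  obtain ⟨a, b⟩ := t
  simp only [la, sa, Pi.neg_apply, Matrix.vecMul, dotProduct, S.ρ_act, mul_neg, Finset.mul_sum]
  congr 1
  refine Finset.sum_congr rfl fun c' _ => ?_
  have := chi_neg_mul χ (a * deg c')
  linear_combination (χ (-(a * deg c)) * S.ρ (j - b) l c' c * w (j - b) c') * this

theorem pr_s (t : ZMod p × ZMod p) (a w : ZMod p → B → K) :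
    pr (sa χ deg t a) (sw χ deg t w) = fun j => pr a w (j - t.2) := by
  funext j
  simp only [pr, sa, sw, dotProduct]
  refine Finset.sum_congr rfl fun c' _ => ?_
  have := chi_neg_mul χ (t.1 * deg c')
  linear_combination (a (j - t.2) c' * w (j - t.2) c') * this

def NL.act (S : Stage p K χ B deg k) (t : ZMod p × ZMod p) : NL S →+ NL S where
  toFun u := NL.mk (sw χ deg t u.w) (sa χ deg t u.a) (sg t u.g) (S.act t u.l)
  map_zero' := by
    apply NL.ext'
    · funext j c; simp [sw]
    · funext j c; simp [sa]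
    · apply Subtype.ext; funext j; simp [sg]
    · simp
  map_add' u v := by
    apply NL.ext'
    · simp [sw_add]
    · simp [sa_add]
    · simp [sg_add]
    · simp

@[simp] theorem NL.act_w (t : ZMod p × ZMod p) (u : NL S) : (NL.act S t u).w = sw χ deg t u.w := rfl
@[simp] theorem NL.act_a (t : ZMod p × ZMod p) (u : NL S) : (NL.act S t u).a = sa χ deg t u.a := rfl
@[simp] theorem NL.act_g (t : ZMod p × ZMod p) (u : NL S) : (NL.act S t u).g = sg t u.g := rfl
@[simp] theorem NL.act_l (t : ZMod p × ZMod p) (u : NL S) : (NL.act S t u).l = S.act t u.l := rfl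

theorem NL.act_lie (t : ZMod p × ZMod p) (u v : NL S) : NL.act S t ⁅u, v⁆ = ⁅NL.act S t u, NL.act S t v⁆ := by
  apply NL.ext'
  · simp [lw_sw, sw_sub]
  · simp [la_sa, sa_sub]
  · apply Subtype.ext
    simp only [NL.act_g, NL.lie_g, NL.act_a, NL.act_w, pr_s]
    funext j
    show del p K _ (j - t.2) = _
    simp only [del, NL.toZ, AddMonoidHom.coe_mk, ZeroHom.coe_mk, Pi.sub_apply]
    congr 3 <;> ring
  · simp [S.act_lie]

theorem NL.fpf (hp2 : (p : K) ≠ 0) [NeZero p] (hχ : ∀ x, χ x = 1 → x = 0) (hdeg : ∀ c, deg c ≠ 0)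
    (hK2 : (2 : K) = 0)
    (u : NL S) (hu : ∀ t, NL.act S t u = u) : u = 0 := by
  have h1 : ∀ j c, u.w j c = 0 := by
    intro j c
    have := congrArg (fun v => NL.w v j c) (hu (1, 0))
    simp only [NL.act_w, sw, one_mul, sub_zero] at this
    by_contra hne
    have h3 : χ (deg c) = 1 := by
      have : (χ (deg c) - 1) * u.w j c = 0 := by linear_combination this
      rcases mul_eq_zero.1 this with h | h
      · linear_combination h
      · exact absurd h hne
    exact hdeg c (hχ _ h3)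
  have h2 : ∀ j c, u.a j c = 0 := by
    intro j c
    have := congrArg (fun v => NL.a v j c) (hu (-1, 0))
    simp only [NL.act_a, sa, neg_mul, one_mul, sub_zero, neg_neg] at this
    by_contra hne
    have h3 : χ (deg c) = 1 := by
      have : (χ (deg c) - 1) * u.a j c = 0 := by linear_combination this
      rcases mul_eq_zero.1 this with h | h
      · linear_combination h
      · exact absurd h hne
    exact hdeg c (hχ _ h3)
  have h3 : ∀ j, u.g.1 j = 0 := by
    have hc : ∀ j, u.g.1 j = u.g.1 0 := by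
      intro j
      have := congrArg (fun v => (NL.g v).1 j) (hu (0, j))
      simp only [NL.act_g, sg, sub_self] at this
      exact this.symm
    obtain ⟨h, hh⟩ := u.g.2
    have hs : ∑ j, u.g.1 j = 0 := by
      rw [← hh]
      have : ∑ j, h (j + 1) = ∑ j, h j := Equiv.sum_comp (Equiv.addRight (1 : ZMod p)) h
      show ∑ j, (h j + h (j + 1)) = 0
      rw [Finset.sum_add_distrib, this]
      linear_combination (∑ j, h j) * hK2
    rw [Finset.sum_congr rfl (fun j _ => hc j)] at hs
    simp at hs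
    rcases hs with hs | hs
    · exact absurd hs hp2
    · intro j; rw [hc j, hs]
  apply NL.ext'
  · funext j c; exact h1 j c
  · funext j c; exact h2 j c
  · apply Subtype.ext; funext j; exact h3 j
  · apply S.fpf
    intro s
    exact congrArg NL.l (hu s)


/-- the new index type and degree function -/
abbrev NB (B : Type) : Type := Finset (B ⊕ B)
def ndeg (deg : B → ZMod p) (T : NB B) : ZMod p := 1 + ∑ c ∈ T, Sum.elim deg deg c

def xm (K : Type) [Field K] {B : Type} [Fintype B] [DecidableEq B] (c : B ⊕ B) : Matrix (NB B) (NB B) K :=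
  LinearMap.toMatrixAlgEquiv' (xOp c)
def ym (K : Type) [Field K] {B : Type} [Fintype B] [DecidableEq B] (c : B ⊕ B) : Matrix (NB B) (NB B) K :=
  LinearMap.toMatrixAlgEquiv' (yOp c)

theorem xm_comm (a b : B ⊕ B) : xm K a * xm K b = xm K b * xm K a := by
  have := congrArg (LinearMap.toMatrixAlgEquiv' (R := K) (n := NB B)) (xOp_comm (K := K) a b)
  rw [map_mul, map_mul] at this
  exact this
theorem ym_comm (a b : B ⊕ B) : ym K a * ym K b = ym K b * ym K a := by
  have := congrArg (LinearMap.toMatrixAlgEquiv' (R := K) (n := NB B)) (yOp_comm (K := K) a b)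
  rw [map_mul, map_mul] at this
  exact this
theorem yxm [CharP K 2] (a b : B ⊕ B) : ym K a * xm K b - xm K b * ym K a = if a = b then 1 else 0 := by
  have := congrArg (LinearMap.toMatrixAlgEquiv' (R := K) (n := NB B)) (yxOp (K := K) a b)
  rw [map_sub, map_mul, map_mul] at this
  rw [ym, xm, this]
  split_ifs
  · rw [map_one]
  · rw [map_zero]

def DD (χ : AddChar (ZMod p) K) (deg : B → ZMod p) (a : ZMod p) : Matrix B B K :=
  Matrix.diagonal fun c => χ (a * deg c)
def DI (χ : AddChar (ZMod p) K) (deg : B → ZMod p) (a : ZMod p) : Matrix B B K :=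
  Matrix.diagonal fun c => χ (-(a * deg c))

theorem DI_DD (a : ZMod p) : DI χ deg a * DD χ deg a = 1 := by
  rw [DI, DD, Matrix.diagonal_mul_diagonal]
  simp only [chi_neg_mul, Matrix.diagonal_one]
theorem DD_DI (a : ZMod p) : DD χ deg a * DI χ deg a = 1 := by
  rw [DI, DD, Matrix.diagonal_mul_diagonal]
  have : ∀ i : B, χ (a * deg i) * χ (-(a * deg i)) = 1 := fun i => by
    rw [mul_comm]; exact chi_neg_mul χ _
  simp only [this, Matrix.diagonal_one]

theorem xm_D (a : ZMod p) (c : B ⊕ B) :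
    DD χ (ndeg deg) a * xm K c * DI χ (ndeg deg) a = χ (a * Sum.elim deg deg c) • xm K c := by
  ext T T'
  rw [DD, DI, Matrix.mul_diagonal, Matrix.diagonal_mul, Matrix.smul_apply, xm, LinearMap.toMatrixAlgEquiv'_apply]
  simp only [xOp, LinearMap.coe_mk, AddHom.coe_mk]
  by_cases hc : c ∈ T
  · by_cases hT : T.erase c = T'
    · subst hT
      have h1 : ndeg deg T = Sum.elim deg deg c + ndeg deg (T.erase c) := by
        rw [ndeg, ndeg, ← Finset.add_sum_erase T _ hc]; ring
      have h2 := chi_neg_mul χ (a * ndeg deg (T.erase c))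
      rw [h1, mul_add, AddChar.map_add_eq_mul]
      simp only [hc, if_true, Pi.single_eq_same, mul_one, smul_eq_mul]
      linear_combination (χ (a * Sum.elim deg deg c)) * h2
    · simp [hc, Pi.single_eq_of_ne hT]
  · simp [hc]

theorem ym_D (a : ZMod p) (c : B ⊕ B) :
    DD χ (ndeg deg) a * ym K c * DI χ (ndeg deg) a = χ (-(a * Sum.elim deg deg c)) • ym K c := by
  ext T T'
  rw [DD, DI, Matrix.mul_diagonal, Matrix.diagonal_mul, Matrix.smul_apply, ym, LinearMap.toMatrixAlgEquiv'_apply]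
  simp only [yOp, LinearMap.coe_mk, AddHom.coe_mk]
  by_cases hc : c ∈ T
  · simp [hc]
  · by_cases hT : insert c T = T'
    · subst hT
      have h1 : ndeg deg (insert c T) = Sum.elim deg deg c + ndeg deg T := by
        rw [ndeg, ndeg, Finset.sum_insert hc]; ring
      have h2 := chi_neg_mul χ (a * ndeg deg T)
      rw [h1, mul_add, neg_add, AddChar.map_add_eq_mul]
      simp only [hc, if_false, Pi.single_eq_same, mul_one, smul_eq_mul]
      linear_combination (χ (-(a * Sum.elim deg deg c))) * h2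
    · simp [hc, Pi.single_eq_of_ne hT]

theorem conj_Xv (x : B ⊕ B → Matrix (NB B) (NB B) K) (D D' : Matrix (NB B) (NB B) K) (r : B ⊕ B → K)
    (h : ∀ c, D * x c * D' = r c • x c) (v : B ⊕ B → K) :
    D * Xv x v * D' = Xv x (fun c => r c * v c) := by
  simp only [Xv, Finset.mul_sum, Finset.sum_mul, mul_smul_comm, smul_mul_assoc, h, smul_smul]
  simp only [mul_comm]

theorem conj_Qm (x y : B ⊕ B → Matrix (NB B) (NB B) K) (D D' : Matrix (NB B) (NB B) K) (r s : B ⊕ B → K)
    (hDD : D' * D = 1)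
    (h : ∀ c, D * x c * D' = r c • x c) (h' : ∀ c, D * y c * D' = s c • y c) (P : Matrix (B ⊕ B) (B ⊕ B) K) :
    D * Qm x y P * D' = Qm x y (fun c d => r c * P c d * s d) := by
  simp only [Qm, Finset.mul_sum, Finset.sum_mul, mul_smul_comm, smul_mul_assoc]
  refine Finset.sum_congr rfl fun c _ => Finset.sum_congr rfl fun d _ => ?_
  have : D * (x c * y d) * D' = (D * x c * D') * (D * y d * D') := by
    calc D * (x c * y d) * D' = D * x c * 1 * y d * D' := by noncomm_ring
      _ = _ := by rw [← hDD]; noncomm_ring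
  rw [this, h, h', smul_mul_smul_comm, smul_smul]
  congr 1; ring

def nρ (S : Stage p K χ B deg k) (j : ZMod p) : NL S →+ Matrix (NB B) (NB B) K where
  toFun u := Xv (xm K) (Sum.elim (u.w j) (u.w (j + 1))) + Xv (ym K) (Sum.elim (u.a j) (u.a (j + 1)))
    + (u.g.1 j) • (1 : Matrix (NB B) (NB B) K)
    + Qm (xm K) (ym K) (Matrix.fromBlocks (S.ρ j u.l) 0 0 (S.ρ (j + 1) u.l))
  map_zero' := by
    simp [Xv, Qm]
  map_add' u v := by
    have h1 : Matrix.fromBlocks (S.ρ j (u + v).l) 0 0 (S.ρ (j + 1) (u + v).l) =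
      Matrix.fromBlocks (S.ρ j u.l) 0 0 (S.ρ (j + 1) u.l) + Matrix.fromBlocks (S.ρ j v.l) 0 0 (S.ρ (j + 1) v.l) := by
      simp [Matrix.fromBlocks_add]
    rw [h1, Qm_add]
    simp only [NL.add_w, NL.add_a, NL.add_g, Pi.add_apply, Sum.elim_add_add, Xv_add, AddSubgroup.coe_add, add_smul]
    abel

theorem nρ_apply (j : ZMod p) (u : NL S) : nρ S j u = Xv (xm K) (Sum.elim (u.w j) (u.w (j + 1))) + Xv (ym K) (Sum.elim (u.a j) (u.a (j + 1)))
    + (u.g.1 j) • (1 : Matrix (NB B) (NB B) K)
    + Qm (xm K) (ym K) (Matrix.fromBlocks (S.ρ j u.l) 0 0 (S.ρ (j + 1) u.l)) := rfl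

theorem nρ_lie [CharP K 2] (j : ZMod p) (u v : NL S) :
    nρ S j ⁅u, v⁆ = nρ S j u * nρ S j v - nρ S j v * nρ S j u := by
  simp only [nρ_apply]
  set X := Xv (xm K) (Sum.elim (u.w j) (u.w (j + 1))) with hX
  set X' := Xv (xm K) (Sum.elim (v.w j) (v.w (j + 1))) with hX'
  set Y := Xv (ym K) (Sum.elim (u.a j) (u.a (j + 1))) with hY
  set Y' := Xv (ym K) (Sum.elim (v.a j) (v.a (j + 1))) with hY'
  set P := Matrix.fromBlocks (S.ρ j u.l) 0 0 (S.ρ (j + 1) u.l) with hP
  set P' := Matrix.fromBlocks (S.ρ j v.l) 0 0 (S.ρ (j + 1) v.l) with hP'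
  set Q := Qm (xm K) (ym K) P with hQ
  set Q' := Qm (xm K) (ym K) P' with hQ'
  have e1 : X * X' - X' * X = 0 := XX _ xm_comm _ _
  have e2 : Y * Y' - Y' * Y = 0 := XX _ ym_comm _ _
  have e3 : Y * X' - X' * Y = ((Sum.elim (u.a j) (u.a (j + 1))) ⬝ᵥ (Sum.elim (v.w j) (v.w (j + 1)))) • 1 := YX _ _ yxm _ _
  have e4 : Y' * X - X * Y' = ((Sum.elim (v.a j) (v.a (j + 1))) ⬝ᵥ (Sum.elim (u.w j) (u.w (j + 1)))) • 1 := YX _ _ yxm _ _
  have e5 : Q * X' - X' * Q = Xv (xm K) (P.mulVec (Sum.elim (v.w j) (v.w (j + 1)))) := QX _ _ xm_comm yxm _ _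
  have e6 : Q' * X - X * Q' = Xv (xm K) (P'.mulVec (Sum.elim (u.w j) (u.w (j + 1)))) := QX _ _ xm_comm yxm _ _
  have e7 : Q * Y' - Y' * Q = - Xv (ym K) (Matrix.vecMul (Sum.elim (v.a j) (v.a (j + 1))) P) := QY _ _ ym_comm yxm _ _
  have e8 : Q' * Y - Y * Q' = - Xv (ym K) (Matrix.vecMul (Sum.elim (u.a j) (u.a (j + 1))) P') := QY _ _ ym_comm yxm _ _
  have e9 : Q * Q' - Q' * Q = Qm (xm K) (ym K) (P * P' - P' * P) := QQ _ _ xm_comm ym_comm yxm _ _
  have r1 : Sum.elim ((⁅u, v⁆).w j) ((⁅u, v⁆).w (j + 1)) =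
      P.mulVec (Sum.elim (v.w j) (v.w (j + 1))) - P'.mulVec (Sum.elim (u.w j) (u.w (j + 1))) := by
    rw [hP, hP', Matrix.fromBlocks_mulVec, Matrix.fromBlocks_mulVec]
    funext c
    rcases c with c | c <;> simp [lw]
  have r2 : Sum.elim ((⁅u, v⁆).a j) ((⁅u, v⁆).a (j + 1)) =
      - Matrix.vecMul (Sum.elim (v.a j) (v.a (j + 1))) P + Matrix.vecMul (Sum.elim (u.a j) (u.a (j + 1))) P' := by
    rw [hP, hP', Matrix.vecMul_fromBlocks, Matrix.vecMul_fromBlocks]
    funext c
    rcases c with c | c <;> simp [la]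
  have r3 : ((⁅u, v⁆).g.1 j) = ((Sum.elim (u.a j) (u.a (j + 1))) ⬝ᵥ (Sum.elim (v.w j) (v.w (j + 1)))) -
      ((Sum.elim (v.a j) (v.a (j + 1))) ⬝ᵥ (Sum.elim (u.w j) (u.w (j + 1)))) := by
    rw [sumElim_dotProduct_sumElim, sumElim_dotProduct_sumElim, NL.lie_g]
    simp only [NL.toZ, del, pr, AddMonoidHom.coe_mk, ZeroHom.coe_mk, Pi.sub_apply]
    ring
  have r4 : Matrix.fromBlocks (S.ρ j (⁅u, v⁆).l) 0 0 (S.ρ (j + 1) (⁅u, v⁆).l) = P * P' - P' * P := by
    rw [hP, hP', Matrix.fromBlocks_multiply, Matrix.fromBlocks_multiply, sub_eq_add_neg,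
      Matrix.fromBlocks_neg, Matrix.fromBlocks_add]
    simp [S.ρ_lie, sub_eq_add_neg]
  rw [r1, r2, r3, r4, ← e9, Xv_sub, Xv_add, Xv_neg, ← e5, ← e6, sub_smul, ← e3, ← e4, ← e7]
  have e8' : Xv (ym K) (Matrix.vecMul (Sum.elim (u.a j) (u.a (j + 1))) P') = -(Q' * Y - Y * Q') := by rw [e8, neg_neg]
  rw [e8']
  have f : (X + Y + (u.g.1 j) • (1 : Matrix (NB B) (NB B) K) + Q) * (X' + Y' + (v.g.1 j) • (1 : Matrix (NB B) (NB B) K) + Q')
      - (X' + Y' + (v.g.1 j) • (1 : Matrix (NB B) (NB B) K) + Q') * (X + Y + (u.g.1 j) • (1 : Matrix (NB B) (NB B) K) + Q)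
      = (X * X' - X' * X) + (Y * Y' - Y' * Y) + (Q * X' - X' * Q) - (Q' * X - X * Q') + (Q * Y' - Y' * Q) - (Q' * Y - Y * Q')
        + (Y * X' - X' * Y) - (Y' * X - X * Y') + (Q * Q' - Q' * Q) := by
    simp only [add_mul, mul_add, smul_mul_assoc, mul_smul_comm, one_mul, mul_one, smul_add]
    rw [smul_comm (v.g.1 j) (u.g.1 j)]
    abel
  rw [f, e1, e2]
  abel


theorem nρ_act_mat (j a b : ZMod p) (u : NL S) :
    nρ S j (NL.act S (a, b) u) = DD χ (ndeg deg) a * nρ S (j - b) u * DI χ (ndeg deg) a := by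
  rw [nρ_apply, nρ_apply, mul_add, mul_add, mul_add, add_mul, add_mul, add_mul]
  rw [conj_Xv _ _ _ _ (xm_D a), conj_Xv _ _ _ _ (ym_D a), conj_Qm _ _ _ _ _ _ (DI_DD a) (xm_D a) (ym_D a)]
  rw [mul_smul_comm, smul_mul_assoc, mul_one, DD_DI]
  have h1 : j + 1 - b = j - b + 1 := by ring
  congr 1
  · congr 1
    congr 1
    · congr 1
      funext c
      rcases c with c | c <;> simp [sw, h1]
    · congr 1
      funext c
      rcases c with c | c <;> simp [sa, h1]
  · congr 1
    funext c d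
    rcases c with c | c <;> rcases d with d | d <;> simp [S.ρ_act, h1]

theorem nρ_act (j a b : ZMod p) (u : NL S) (c c' : NB B) :
    nρ S j (NL.act S (a, b) u) c c' = χ (a * ndeg deg c) * nρ S (j - b) u c c' * χ (-(a * ndeg deg c')) := by
  rw [nρ_act_mat, DD, DI, Matrix.mul_diagonal, Matrix.diagonal_mul]

def NL.lHom (S : Stage p K χ B deg k) : NL S →+ S.L where
  toFun u := u.l
  map_zero' := rfl
  map_add' _ _ := rfl

def NL.inl (S : Stage p K χ B deg k) : S.L →+ NL S where
  toFun l := NL.mk 0 0 0 l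
  map_zero' := rfl
  map_add' x y := by
    apply NL.ext' <;> simp

@[simp] theorem NL.inl_w (x : S.L) : (NL.inl S x).w = 0 := rfl
@[simp] theorem NL.inl_a (x : S.L) : (NL.inl S x).a = 0 := rfl
@[simp] theorem NL.inl_g (x : S.L) : (NL.inl S x).g = 0 := rfl
@[simp] theorem NL.inl_l (x : S.L) : (NL.inl S x).l = x := rfl

def nU (S : Stage p K χ B deg k) : ℕ → AddSubgroup (NL S)
  | 0 => (⊥ : AddSubgroup S.L).comap (NL.lHom S)
  | i + 1 => (S.U i).comap (NL.lHom S)

def centre (S : Stage p K χ B deg k) : AddSubgroup (NL S) where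
  carrier := {u | u.w = 0 ∧ u.a = 0 ∧ u.l = 0}
  zero_mem' := ⟨rfl, rfl, rfl⟩
  add_mem' := by
    rintro a b ⟨h1, h2, h3⟩ ⟨h4, h5, h6⟩
    exact ⟨by simp [h1, h4], by simp [h2, h5], by simp [h3, h6]⟩
  neg_mem' := by
    rintro a ⟨h1, h2, h3⟩
    exact ⟨by simp [h1], by simp [h2], by simp [h3]⟩

def nV (S : Stage p K χ B deg k) : ℕ → AddSubgroup (NL S)
  | 0 => ⊥
  | 1 => centre S
  | i + 2 => (S.V i).comap (NL.lHom S)

theorem nV_lie (i : ℕ) (x y : NL S) (hx : x ∈ nV S (i + 1)) (hy : y ∈ nV S (i + 1)) : ⁅x, y⁆ ∈ nV S i := by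
  rcases i with _ | _ | i
  · obtain ⟨h1, h2, h3⟩ := hx
    obtain ⟨h4, h5, h6⟩ := hy
    show ⁅x, y⁆ ∈ (⊥ : AddSubgroup (NL S))
    rw [AddSubgroup.mem_bot]
    apply NL.ext'
    · simp [h3, h6, lw_zero_left]
    · simp [h3, h6, la_zero_left]
    · rw [NL.lie_g, h1, h2, h4, h5]
      simp [NL.toZ_zero]
    · simp [h3]
  · have h3 : x.l = 0 := by
      have h : x.l ∈ S.V 0 := hx
      rw [S.V_zero] at h
      exact h
    have h6 : y.l = 0 := by
      have h : y.l ∈ S.V 0 := hy
      rw [S.V_zero] at h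
      exact h
    refine ⟨?_, ?_, ?_⟩
    · simp [h3, h6, lw_zero_left]
    · simp [h3, h6, la_zero_left]
    · simp [h3]
  · exact S.V_lie i _ _ hx hy

theorem nU_mono (i : ℕ) : nU S i ≤ nU S (i + 1) := by
  rcases i with _ | i
  · intro u hu
    have h : u.l = 0 := hu
    show u.l ∈ S.U 0
    rw [h]; exact zero_mem _
  · intro u hu
    exact S.U_mono i hu

theorem nV_mono (i : ℕ) : nV S i ≤ nV S (i + 1) := by
  rcases i with _ | _ | i
  · exact bot_le
  · rintro u ⟨_, _, h⟩
    show u.l ∈ S.V 0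
    rw [h]; exact zero_mem _
  · intro u hu
    exact S.V_mono i hu

theorem lie_inl (x y : S.L) : ⁅NL.inl S x, NL.inl S y⁆ = NL.inl S ⁅x, y⁆ := by
  apply NL.ext'
  · simp [lw_zero_right]
  · simp [la_zero_right]
  · simp [pr_zero_left, NL.toZ_zero]
  · rfl

theorem nU_zero_lie [Nonempty B] : nU S 0 ≤ AddSubgroup.closure {z | ∃ x ∈ nU S 0, ∃ y ∈ nU S 1, z = ⁅x, y⁆} := by
  intro u hu
  have hl : u.l = 0 := hu
  have hz : (NL.mk 0 0 0 S.z : NL S) ∈ nU S 1 := S.z_mem
  have h1 : u = NL.mk u.w 0 0 0 + NL.mk 0 u.a 0 0 + NL.mk 0 0 u.g 0 := by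
    apply NL.ext' <;> simp [hl]
  have hne : ∀ j, χ j ≠ 0 := fun j h => by
    have := chi_neg_mul χ j
    rw [h, mul_zero] at this
    exact zero_ne_one this
  rw [h1]
  refine add_mem (add_mem ?_ ?_) ?_
  · apply AddSubgroup.subset_closure
    refine ⟨NL.mk (fun j => -((χ j)⁻¹ • u.w j)) 0 0 0, rfl, NL.mk 0 0 0 S.z, hz, ?_⟩
    apply NL.ext'
    · funext j
      simp only [NL.mk_w, NL.lie_w, NL.mk_l, lw, Pi.sub_apply, S.ρ_z, map_zero, Matrix.zero_mulVec,
        Matrix.smul_mulVec, Matrix.one_mulVec, zero_sub, smul_neg, neg_neg, smul_smul, mul_inv_cancel₀ (hne j), one_smul]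
    · simp [la_zero_right]
    · simp [pr_zero_left, NL.toZ_zero]
    · simp
  · apply AddSubgroup.subset_closure
    refine ⟨NL.mk 0 (fun j => ((χ j)⁻¹ • u.a j)) 0 0, rfl, NL.mk 0 0 0 S.z, hz, ?_⟩
    apply NL.ext'
    · simp [lw_zero_right]
    · funext j
      simp only [NL.mk_a, NL.lie_a, NL.mk_l, la, Pi.sub_apply, S.ρ_z, map_zero, Matrix.vecMul_zero,
        Matrix.vecMul_smul, Matrix.vecMul_one, smul_smul, mul_inv_cancel₀ (hne j), one_smul]
      simp
    · simp [pr_zero_right, NL.toZ_zero]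
    · simp
  · apply AddSubgroup.subset_closure
    obtain ⟨h, hh⟩ := u.g.2
    obtain ⟨b⟩ := ‹Nonempty B›
    refine ⟨NL.mk 0 (fun j => Pi.single b (h j)) 0 0, rfl, NL.mk (fun j => Pi.single b 1) 0 0 0, ?_, ?_⟩
    · show (0 : S.L) ∈ S.U 0
      exact zero_mem _
    apply NL.ext'
    · simp [lw_zero_left]
    · simp [la_zero_left]
    · rw [NL.lie_g]
      apply Subtype.ext
      rw [NL.mk_g, ← hh]
      simp only [NL.mk_a, NL.mk_w]
      have : (pr (fun j => Pi.single b (h j)) (fun j => Pi.single b 1) - pr (0 : ZMod p → B → K) 0 : ZMod p → K) = h := by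
        funext j; simp [pr]
      rw [this]; rfl
    · simp

theorem nU_lie [Nonempty B] (i : ℕ) (hi : i < k + 1) :
    nU S i ≤ AddSubgroup.closure {z | ∃ x ∈ nU S i, ∃ y ∈ nU S (i + 1), z = ⁅x, y⁆} := by
  rcases i with _ | i
  · exact nU_zero_lie
  · intro u hu
    have h1 : u = NL.mk u.w u.a u.g 0 + NL.inl S u.l := by
      apply NL.ext' <;> simp
    have hmono : ∀ i, nU S 0 ≤ nU S i := by
      intro i
      induction i with
      | zero => exact le_rfl
      | succ i ih => exact le_trans ih (nU_mono i)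
    rw [h1]
    refine add_mem ?_ ?_
    · have h0 : (NL.mk u.w u.a u.g 0 : NL S) ∈ nU S 0 := rfl
      refine AddSubgroup.closure_mono ?_ (nU_zero_lie h0)
      rintro z ⟨x, hx, y, hy, rfl⟩
      refine ⟨x, hmono _ hx, y, ?_, rfl⟩
      have h1i : nU S 1 ≤ nU S (i + 1 + 1) := by
        clear h1 h0 hu hi
        induction i with
        | zero => exact nU_mono 1
        | succ i ih => exact le_trans ih (nU_mono _)
      exact h1i hy
    · have hu' : u.l ∈ S.U i := hu
      have := S.U_lie i (by omega) hu'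
      generalize u.l = l at this
      induction this using AddSubgroup.closure_induction with
      | mem x hx =>
        obtain ⟨x1, hx1, y1, hy1, rfl⟩ := hx
        apply AddSubgroup.subset_closure
        exact ⟨NL.inl S x1, hx1, NL.inl S y1, hy1, (lie_inl x1 y1).symm⟩
      | zero => rw [map_zero]; exact zero_mem _
      | add x y _ _ hx hy => rw [map_add]; exact add_mem hx hy
      | neg x _ hx => rw [map_neg]; exact neg_mem hx

def chiZ (χ : AddChar (ZMod p) K) (hχ1 : 1 + χ 1 ≠ 0) : (del p K).range :=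
  ⟨fun j => χ j, ⟨fun j => χ j / (1 + χ 1), by
    funext j
    show χ j / (1 + χ 1) + χ (j + 1) / (1 + χ 1) = χ j
    rw [AddChar.map_add_eq_mul]
    field_simp⟩⟩

instance [NeZero p] [Finite K] : Finite (NL S) :=
  inferInstanceAs (Finite (((ZMod p → B → K) × (ZMod p → B → K)) × ((del p K).range × S.L)))

def Stage.next [NeZero p] [Finite K] [CharP K 2] [Nonempty B] (S : Stage p K χ B deg k) (hpK : (p : K) ≠ 0)
    (hχ : ∀ x, χ x = 1 → x = 0) (hχ1 : 1 + χ 1 ≠ 0) (hdeg : ∀ c, deg c ≠ 0) :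
    Stage p K χ (NB B) (ndeg deg) (k + 1) where
  L := NL S
  act := NL.act S
  act_zero u := by
    apply NL.ext'
    · simp [sw_zero]
    · simp [sa_zero]
    · simp [sg_zero]
    · simp [S.act_zero]
  act_add s t u := by
    apply NL.ext'
    · simp [sw_comp]
    · simp [sa_comp]
    · simp [sg_comp]
    · simp [S.act_add]
  act_lie := NL.act_lie
  fpf u hu := NL.fpf hpK hχ hdeg (by
    have := CharP.cast_eq_zero K 2
    exact_mod_cast this) u hu
  faithful := by
    obtain ⟨x, hx⟩ := S.faithful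
    refine ⟨NL.inl S x, fun s hs => hx s ?_⟩
    exact congrArg NL.l hs
  ρ := nρ S
  ρ_lie := nρ_lie
  ρ_act j a b x c c' := nρ_act j a b x c c'
  U := nU S
  U_mono := nU_mono
  U_top := by
    show (S.U k).comap (NL.lHom S) = ⊤
    rw [S.U_top]; rfl
  U_lie := nU_lie
  z := NL.mk 0 0 (chiZ χ hχ1) 0
  z_mem := rfl
  ρ_z j := by
    rw [nρ_apply]
    simp [Xv, Qm, chiZ]
  d := S.d + 2
  V := nV S
  V_zero := rfl
  V_mono := nV_mono
  V_top := by
    show (S.V S.d).comap (NL.lHom S) = ⊤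
    rw [S.V_top]; rfl
  V_lie := nV_lie

end Next



/-- The passage from Lie rings to groups: M is L tensored with the algebra on m commuting square-zero variables and G is
the iterated semidirect product of such modules; E S x plays the role of 1 + t_S x for a monomial t_S. -/
structure MG (p : ℕ) (L : Type) [LieRing L] (act : ZMod p × ZMod p → L →+ L) (d m : ℕ) where
  M : Type
  G : Type
  [iM : LieRing M]
  [iG : Group G]
  [iA : DistribMulAction G M]
  [fM : Finite M]
  [fG : Finite G]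
  smul_lie : ∀ (g : G) (x y : M), g • ⁅x, y⁆ = ⁅g • x, g • y⁆
  aM : ZMod p × ZMod p → M →+ M
  aM_zero : ∀ x, aM 0 x = x
  aM_add : ∀ s t x, aM (s + t) x = aM s (aM t x)
  aM_lie : ∀ s x y, aM s ⁅x, y⁆ = ⁅aM s x, aM s y⁆
  aM_fix : ∀ x, (∀ s, aM s x = x) → x = 0
  aG : ZMod p × ZMod p → G →* G
  aG_zero : ∀ g, aG 0 g = g
  aG_add : ∀ s t g, aG (s + t) g = aG s (aG t g)
  aG_fix : ∀ g, (∀ s, aG s g = g) → g = 1
  aM_smul : ∀ s (g : G) (x : M), aM s (g • x) = aG s g • aM s x
  VM : ℕ → AddSubgroup M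
  VG : ℕ → Subgroup G
  VM_mono : ∀ i, VM i ≤ VM (i + 1)
  VG_mono : ∀ i, VG i ≤ VG (i + 1)
  VM_zero : VM 0 = ⊥
  VG_zero : VG 0 = ⊥
  VM_top : VM d = ⊤
  VG_top : VG d = ⊤
  VM_lie : ∀ i x y, x ∈ VM (i + 1) → y ∈ VM (i + 1) → ⁅x, y⁆ ∈ VM i
  VG_smul : ∀ i g x, g ∈ VG (i + 1) → x ∈ VM (i + 1) → g • x - x ∈ VM i
  VG_comm : ∀ i g h, g ∈ VG (i + 1) → h ∈ VG (i + 1) → ⁅g, h⁆ ∈ VG i
  ι : Finset ℕ → L →+ M
  ι_act : ∀ s S x, aM s (ι S x) = ι S (act s x)
  ι_lie : ∀ S T x y, Disjoint S T → ⁅ι S x, ι T y⁆ = ι (S ∪ T) ⁅x, y⁆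
  ι_ne : ∀ S x, S ⊆ Finset.range m → ι S x = 0 → x = 0
  E : Finset ℕ → L → G
  E_act : ∀ s S x, aG s (E S x) = E S (act s x)
  E_add : ∀ S x y, E S (x + y) = E S x * E S y
  E_ne : ∀ S x, S ⊆ Finset.range m → S.Nonempty → E S x = 1 → x = 0
  E_comm : ∀ S T x y, Disjoint S T → S.Nonempty → T.Nonempty → ⁅E S x, E T y⁆ = E (S ∪ T) ⁅x, y⁆
  E_smul : ∀ S T x y, Disjoint S T → S.Nonempty → E S x • ι T y = ι T y + ι (S ∪ T) ⁅x, y⁆

attribute [instance] MG.iM MG.iG MG.iA MG.fM MG.fG

/-- semidirect product -/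
@[ext] structure SD (M G : Type) where
  x : M
  g : G

section SDsec
variable {M G : Type} [AddCommGroup M] [Group G] [DistribMulAction G M]

instance : Mul (SD M G) := ⟨fun a b => ⟨a.x + a.g • b.x, a.g * b.g⟩⟩
instance : One (SD M G) := ⟨⟨0, 1⟩⟩
instance : Inv (SD M G) := ⟨fun a => ⟨-(a.g⁻¹ • a.x), a.g⁻¹⟩⟩
@[simp] theorem SD.mul_x (a b : SD M G) : (a * b).x = a.x + a.g • b.x := rfl
@[simp] theorem SD.mul_g (a b : SD M G) : (a * b).g = a.g * b.g := rfl
@[simp] theorem SD.one_x : (1 : SD M G).x = 0 := rfl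
@[simp] theorem SD.one_g : (1 : SD M G).g = 1 := rfl
@[simp] theorem SD.inv_x (a : SD M G) : (a⁻¹).x = -(a.g⁻¹ • a.x) := rfl
@[simp] theorem SD.inv_g (a : SD M G) : (a⁻¹).g = a.g⁻¹ := rfl

instance : Group (SD M G) :=
  Group.ofLeftAxioms
    (fun a b c => by
      apply SD.ext
      · simp [smul_add, mul_smul, add_assoc]
      · simp [mul_assoc])
    (fun a => by
      apply SD.ext <;> simp)
    (fun a => by
      apply SD.ext <;> simp)

theorem SD.commutator_eq (a b : SD M G) :
    ⁅a, b⁆ = ⟨(a.x + a.g • b.x) - ⁅a.g, b.g⁆ • (b.x + b.g • a.x), ⁅a.g, b.g⁆⟩ := by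
  rw [commutatorElement_def]
  have h : a * b * a⁻¹ * b⁻¹ = (a * b) * (b * a)⁻¹ := by group
  rw [h]
  have h2 : ⁅a.g, b.g⁆ = (a.g * b.g) * (b.g * a.g)⁻¹ := by rw [commutatorElement_def]; group
  apply SD.ext
  · rw [SD.mul_x, SD.inv_x, SD.mul_x, SD.mul_g, SD.mul_g, SD.mul_x, smul_neg, ← mul_smul, ← h2, sub_eq_add_neg]
  · rw [h2]; rfl

end SDsec

/-- dual numbers over a Lie ring -/
@[ext] structure DN (M : Type) where
  a : M
  b : M

section DNsec
variable {M : Type} [LieRing M]

instance : Add (DN M) := ⟨fun u v => ⟨u.a + v.a, u.b + v.b⟩⟩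
instance : Zero (DN M) := ⟨⟨0, 0⟩⟩
instance : Neg (DN M) := ⟨fun u => ⟨-u.a, -u.b⟩⟩
@[simp] theorem DN.add_a (u v : DN M) : (u + v).a = u.a + v.a := rfl
@[simp] theorem DN.add_b (u v : DN M) : (u + v).b = u.b + v.b := rfl
@[simp] theorem DN.zero_a : (0 : DN M).a = 0 := rfl
@[simp] theorem DN.zero_b : (0 : DN M).b = 0 := rfl
@[simp] theorem DN.neg_a (u : DN M) : (-u).a = -u.a := rfl
@[simp] theorem DN.neg_b (u : DN M) : (-u).b = -u.b := rfl

instance : AddCommGroup (DN M) where
  add_assoc u v w := by apply DN.ext <;> simp [add_assoc]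
  zero_add u := by apply DN.ext <;> simp
  add_zero u := by apply DN.ext <;> simp
  neg_add_cancel u := by apply DN.ext <;> simp
  add_comm u v := by apply DN.ext <;> simp [add_comm]
  nsmul := nsmulRec
  zsmul := zsmulRec

@[simp] theorem DN.sub_a (u v : DN M) : (u - v).a = u.a - v.a := by
  rw [sub_eq_add_neg, sub_eq_add_neg]; rfl
@[simp] theorem DN.sub_b (u v : DN M) : (u - v).b = u.b - v.b := by
  rw [sub_eq_add_neg, sub_eq_add_neg]; rfl

instance : Bracket (DN M) (DN M) := ⟨fun u v => ⟨⁅u.a, v.a⁆, ⁅u.a, v.b⁆ + ⁅u.b, v.a⁆⟩⟩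
@[simp] theorem DN.lie_a (u v : DN M) : (⁅u, v⁆).a = ⁅u.a, v.a⁆ := rfl
@[simp] theorem DN.lie_b (u v : DN M) : (⁅u, v⁆).b = ⁅u.a, v.b⁆ + ⁅u.b, v.a⁆ := rfl

instance : LieRing (DN M) where
  add_lie u v w := by
    apply DN.ext
    · simp
    · simp; abel
  lie_add u v w := by
    apply DN.ext
    · simp
    · simp; abel
  lie_self u := by
    apply DN.ext
    · simp
    · simp only [DN.lie_b, DN.zero_b]
      rw [← lie_skew u.a u.b, neg_add_cancel]
  leibniz_lie u v w := by
    apply DN.ext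
    · exact leibniz_lie _ _ _
    · simp only [DN.lie_b, DN.add_b, DN.lie_a, lie_add, add_lie]
      rw [leibniz_lie u.a v.a w.b, leibniz_lie u.a v.b w.a, leibniz_lie u.b v.a w.a]
      abel

end DNsec

section Step
variable {p : ℕ} {L : Type} [LieRing L] {act : ZMod p × ZMod p → L →+ L} {d m : ℕ}

instance DNact (X : MG p L act d m) : DistribMulAction (SD X.M X.G) (DN X.M) where
  smul h u := ⟨h.g • u.a, h.g • u.b + ⁅h.x, h.g • u.a⁆⟩
  one_smul u := by
    show (⟨(1 : X.G) • u.a, (1 : X.G) • u.b + ⁅(0 : X.M), (1 : X.G) • u.a⁆⟩ : DN X.M) = u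
    apply DN.ext <;> simp
  mul_smul h k u := by
    show (⟨(h.g * k.g) • u.a, (h.g * k.g) • u.b + ⁅h.x + h.g • k.x, (h.g * k.g) • u.a⁆⟩ : DN X.M) =
      ⟨h.g • k.g • u.a, h.g • (k.g • u.b + ⁅k.x, k.g • u.a⁆) + ⁅h.x, h.g • k.g • u.a⁆⟩
    apply DN.ext
    · simp [mul_smul]
    · simp only [mul_smul, smul_add, X.smul_lie, add_lie]; abel
  smul_zero h := by
    show (⟨h.g • (0 : X.M), h.g • (0 : X.M) + ⁅h.x, h.g • (0 : X.M)⁆⟩ : DN X.M) = 0
    apply DN.ext <;> simp
  smul_add h u v := by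
    show (⟨h.g • (u.a + v.a), h.g • (u.b + v.b) + ⁅h.x, h.g • (u.a + v.a)⁆⟩ : DN X.M) =
      ⟨h.g • u.a, h.g • u.b + ⁅h.x, h.g • u.a⁆⟩ + ⟨h.g • v.a, h.g • v.b + ⁅h.x, h.g • v.a⁆⟩
    apply DN.ext
    · simp
    · simp; abel

variable (X : MG p L act d m)

@[simp] theorem DNsmul_a (h : SD X.M X.G) (u : DN X.M) : (h • u).a = h.g • u.a := rfl
@[simp] theorem DNsmul_b (h : SD X.M X.G) (u : DN X.M) : (h • u).b = h.g • u.b + ⁅h.x, h.g • u.a⁆ := rfl

instance : Finite (SD X.M X.G) :=
  Finite.of_injective (fun h => (h.x, h.g)) (by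
    intro a b h
    have h1 := congrArg Prod.fst h
    have h2 := congrArg Prod.snd h
    exact SD.ext h1 h2)

instance : Finite (DN X.M) :=
  Finite.of_injective (fun h => (h.a, h.b)) (by
    intro a b h
    have h1 := congrArg Prod.fst h
    have h2 := congrArg Prod.snd h
    exact DN.ext h1 h2)

theorem MG.smul_mem (i : ℕ) (g : X.G) (x : X.M) (hg : g ∈ X.VG i) (hx : x ∈ X.VM i) : g • x ∈ X.VM i := by
  rcases i with _ | i
  · rw [X.VM_zero] at hx ⊢
    rw [AddSubgroup.mem_bot] at hx ⊢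
    rw [hx, smul_zero]
  · have h := X.VG_smul i g x hg hx
    have h2 := add_mem (X.VM_mono i h) hx
    simpa using h2

def nVM (i : ℕ) : AddSubgroup (DN X.M) where
  carrier := {u | u.a ∈ X.VM i ∧ u.b ∈ X.VM i}
  zero_mem' := ⟨zero_mem _, zero_mem _⟩
  add_mem' := by
    rintro u v ⟨h1, h2⟩ ⟨h3, h4⟩
    exact ⟨add_mem h1 h3, add_mem h2 h4⟩
  neg_mem' := by
    rintro u ⟨h1, h2⟩
    exact ⟨neg_mem h1, neg_mem h2⟩

def nVG (i : ℕ) : Subgroup (SD X.M X.G) where
  carrier := {u | u.x ∈ X.VM i ∧ u.g ∈ X.VG i}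
  one_mem' := ⟨zero_mem _, one_mem _⟩
  mul_mem' := by
    rintro u v ⟨h1, h2⟩ ⟨h3, h4⟩
    exact ⟨add_mem h1 (X.smul_mem i _ _ h2 h3), mul_mem h2 h4⟩
  inv_mem' := by
    rintro u ⟨h1, h2⟩
    exact ⟨neg_mem (X.smul_mem i _ _ (inv_mem h2) h1), inv_mem h2⟩

def nι (S : Finset ℕ) : L →+ DN X.M where
  toFun x := if m ∈ S then ⟨0, X.ι (S.erase m) x⟩ else ⟨X.ι S x, 0⟩
  map_zero' := by
    split_ifs <;> (apply DN.ext <;> simp)
  map_add' x y := by
    split_ifs <;> (apply DN.ext <;> simp)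

theorem nι_pos (S : Finset ℕ) (hm : m ∈ S) (x : L) : nι X S x = ⟨0, X.ι (S.erase m) x⟩ := by
  show (if m ∈ S then _ else _) = _
  rw [if_pos hm]
theorem nι_neg (S : Finset ℕ) (hm : m ∉ S) (x : L) : nι X S x = ⟨X.ι S x, 0⟩ := by
  show (if m ∈ S then _ else _) = _
  rw [if_neg hm]

def nE (S : Finset ℕ) (x : L) : SD X.M X.G :=
  if m ∈ S then ⟨X.ι (S.erase m) x, 1⟩ else ⟨0, X.E S x⟩

theorem nE_pos (S : Finset ℕ) (hm : m ∈ S) (x : L) : nE X S x = ⟨X.ι (S.erase m) x, 1⟩ := by
  rw [nE, if_pos hm]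
theorem nE_neg (S : Finset ℕ) (hm : m ∉ S) (x : L) : nE X S x = ⟨0, X.E S x⟩ := by
  rw [nE, if_neg hm]

theorem erase_union_left (S T : Finset ℕ) (hm : m ∉ T) : (S ∪ T).erase m = S.erase m ∪ T := by
  rw [Finset.erase_union_distrib, Finset.erase_eq_of_notMem hm]
theorem erase_union_right (S T : Finset ℕ) (hm : m ∉ S) : (S ∪ T).erase m = S ∪ T.erase m := by
  rw [Finset.erase_union_distrib, Finset.erase_eq_of_notMem hm]

theorem erase_disj_left (S T : Finset ℕ) (h : Disjoint S T) : Disjoint (S.erase m) T :=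
  h.mono_left (Finset.erase_subset _ _)
theorem erase_disj_right (S T : Finset ℕ) (h : Disjoint S T) : Disjoint S (T.erase m) :=
  h.mono_right (Finset.erase_subset _ _)

theorem MG.E_zero (S : Finset ℕ) : X.E S 0 = 1 := by
  have := X.E_add S 0 0
  rw [add_zero] at this
  exact (mul_eq_left.1 this.symm)

def MG.next : MG p L act d (m + 1) where
  M := DN X.M
  G := SD X.M X.G
  smul_lie h u v := by
    apply DN.ext
    · simp [X.smul_lie]
    · simp only [DNsmul_b, DN.lie_a, DN.lie_b, DNsmul_a, smul_add, X.smul_lie, lie_add, add_lie]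
      rw [leibniz_lie h.x (h.g • u.a) (h.g • v.a)]
      abel
  aM s :=
    { toFun := fun u => ⟨X.aM s u.a, X.aM s u.b⟩
      map_zero' := by apply DN.ext <;> simp
      map_add' := fun u v => by apply DN.ext <;> simp }
  aM_zero u := by
    apply DN.ext
    · exact X.aM_zero _
    · exact X.aM_zero _
  aM_add s t u := by
    apply DN.ext
    · exact X.aM_add _ _ _
    · exact X.aM_add _ _ _
  aM_lie s u v := by
    apply DN.ext
    · exact X.aM_lie _ _ _
    · show X.aM s (⁅u.a, v.b⁆ + ⁅u.b, v.a⁆) = ⁅X.aM s u.a, X.aM s v.b⁆ + ⁅X.aM s u.b, X.aM s v.a⁆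
      rw [map_add, X.aM_lie, X.aM_lie]
  aM_fix u hu := by
    apply DN.ext
    · exact X.aM_fix _ fun s => congrArg DN.a (hu s)
    · exact X.aM_fix _ fun s => congrArg DN.b (hu s)
  aG s :=
    { toFun := fun u => ⟨X.aM s u.x, X.aG s u.g⟩
      map_one' := by apply SD.ext <;> simp
      map_mul' := fun u v => by
        apply SD.ext
        · simp [X.aM_smul]
        · simp }
  aG_zero u := by
    apply SD.ext
    · exact X.aM_zero _
    · exact X.aG_zero _
  aG_add s t u := by
    apply SD.ext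
    · exact X.aM_add _ _ _
    · exact X.aG_add _ _ _
  aG_fix u hu := by
    apply SD.ext
    · exact X.aM_fix _ fun s => congrArg SD.x (hu s)
    · exact X.aG_fix _ fun s => congrArg SD.g (hu s)
  aM_smul s h u := by
    apply DN.ext
    · exact X.aM_smul _ _ _
    · show X.aM s (h.g • u.b + ⁅h.x, h.g • u.a⁆) = X.aG s h.g • X.aM s u.b + ⁅X.aM s h.x, X.aG s h.g • X.aM s u.a⁆
      rw [map_add, X.aM_lie, X.aM_smul, X.aM_smul]
  VM := nVM X
  VG := nVG X
  VM_mono i u hu := ⟨X.VM_mono i hu.1, X.VM_mono i hu.2⟩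
  VG_mono i u hu := ⟨X.VM_mono i hu.1, X.VG_mono i hu.2⟩
  VM_zero := by
    rw [eq_bot_iff]
    rintro u ⟨h1, h2⟩
    rw [X.VM_zero, AddSubgroup.mem_bot] at h1 h2
    rw [AddSubgroup.mem_bot]
    exact DN.ext h1 h2
  VG_zero := by
    rw [eq_bot_iff]
    rintro u ⟨h1, h2⟩
    rw [X.VM_zero, AddSubgroup.mem_bot] at h1
    rw [X.VG_zero, Subgroup.mem_bot] at h2
    rw [Subgroup.mem_bot]
    exact SD.ext h1 h2
  VM_top := by
    rw [eq_top_iff]
    intro u _
    exact ⟨by rw [X.VM_top]; trivial, by rw [X.VM_top]; trivial⟩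
  VG_top := by
    rw [eq_top_iff]
    intro u _
    exact ⟨by rw [X.VM_top]; trivial, by rw [X.VG_top]; trivial⟩
  VM_lie i u v hu hv := ⟨X.VM_lie i _ _ hu.1 hv.1, add_mem (X.VM_lie i _ _ hu.1 hv.2) (X.VM_lie i _ _ hu.2 hv.1)⟩
  VG_smul i h u hh hu := by
    refine ⟨?_, ?_⟩
    · rw [DN.sub_a, DNsmul_a]
      exact X.VG_smul i _ _ hh.2 hu.1
    · rw [DN.sub_b, DNsmul_b]
      have h1 := X.VG_smul i _ _ hh.2 hu.2
      have h2 := X.VM_lie i _ _ hh.1 (X.smul_mem (i + 1) _ _ hh.2 hu.1)
      have := add_mem h1 h2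
      convert this using 1
      abel
  VG_comm i g h hg hh := by
    rw [SD.commutator_eq]
    have hc := X.VG_comm i _ _ hg.2 hh.2
    refine ⟨?_, hc⟩
    show g.x + g.g • h.x - ⁅g.g, h.g⁆ • (h.x + h.g • g.x) ∈ X.VM i
    have h1 := X.VG_smul i g.g h.x hg.2 hh.1
    have h2 := X.VG_smul i h.g g.x hh.2 hg.1
    have h3 := X.VG_smul i ⁅g.g, h.g⁆ (h.x + h.g • g.x) (X.VG_mono i hc)
      (add_mem hh.1 (X.smul_mem _ _ _ hh.2 hg.1))
    have h4 := sub_mem (sub_mem h1 h2) h3
    convert h4 using 1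
    abel
  ι := nι X
  ι_act s S x := by
    by_cases hm : m ∈ S
    · rw [nι_pos X S hm, nι_pos X S hm]
      apply DN.ext
      · exact map_zero _
      · exact X.ι_act _ _ _
    · rw [nι_neg X S hm, nι_neg X S hm]
      apply DN.ext
      · exact X.ι_act _ _ _
      · exact map_zero _
  ι_lie S T x y hd := by
    by_cases hS : m ∈ S
    · have hT : m ∉ T := Finset.disjoint_left.1 hd hS
      rw [nι_pos X S hS, nι_neg X T hT, nι_pos X (S ∪ T) (Finset.mem_union_left _ hS), erase_union_left S T hT,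
        ← X.ι_lie _ _ _ _ (erase_disj_left S T hd)]
      apply DN.ext <;> simp
    · by_cases hT : m ∈ T
      · rw [nι_neg X S hS, nι_pos X T hT, nι_pos X (S ∪ T) (Finset.mem_union_right _ hT), erase_union_right S T hS,
          ← X.ι_lie _ _ _ _ (erase_disj_right S T hd)]
        apply DN.ext <;> simp
      · have hST : m ∉ S ∪ T := by simp [hS, hT]
        rw [nι_neg X S hS, nι_neg X T hT, nι_neg X _ hST, ← X.ι_lie _ _ _ _ hd]
        apply DN.ext <;> simp
  ι_ne S x hS hx := by
    by_cases hm : m ∈ S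
    · rw [nι_pos X S hm] at hx
      refine X.ι_ne (S.erase m) x ?_ (congrArg DN.b hx)
      intro i hi
      have h1 := hS (Finset.mem_of_mem_erase hi)
      have h2 := Finset.ne_of_mem_erase hi
      rw [Finset.mem_range] at h1 ⊢
      omega
    · rw [nι_neg X S hm] at hx
      refine X.ι_ne S x ?_ (congrArg DN.a hx)
      intro i hi
      have h1 := hS hi
      have h2 : i ≠ m := fun h => hm (h ▸ hi)
      rw [Finset.mem_range] at h1 ⊢
      omega
  E := nE X
  E_act s S x := by
    by_cases hm : m ∈ S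
    · rw [nE_pos X S hm, nE_pos X S hm]
      apply SD.ext
      · exact X.ι_act _ _ _
      · exact map_one _
    · rw [nE_neg X S hm, nE_neg X S hm]
      apply SD.ext
      · exact map_zero _
      · exact X.E_act _ _ _
  E_add S x y := by
    by_cases hm : m ∈ S
    · rw [nE_pos X S hm, nE_pos X S hm, nE_pos X S hm]
      apply SD.ext <;> simp
    · rw [nE_neg X S hm, nE_neg X S hm, nE_neg X S hm]
      apply SD.ext
      · simp
      · exact X.E_add _ _ _
  E_ne S x hS hne hx := by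
    by_cases hm : m ∈ S
    · rw [nE_pos X S hm] at hx
      refine X.ι_ne (S.erase m) x ?_ (congrArg SD.x hx)
      intro i hi
      have h1 := hS (Finset.mem_of_mem_erase hi)
      have h2 := Finset.ne_of_mem_erase hi
      rw [Finset.mem_range] at h1 ⊢
      omega
    · rw [nE_neg X S hm] at hx
      refine X.E_ne S x ?_ hne (congrArg SD.g hx)
      intro i hi
      have h1 := hS hi
      have h2 : i ≠ m := fun h => hm (h ▸ hi)
      rw [Finset.mem_range] at h1 ⊢
      omega
  E_comm S T x y hd hSn hTn := by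
    rw [SD.commutator_eq]
    by_cases hS : m ∈ S
    · have hT : m ∉ T := Finset.disjoint_left.1 hd hS
      rw [nE_pos X S hS, nE_neg X T hT, nE_pos X (S ∪ T) (Finset.mem_union_left _ hS), erase_union_left S T hT]
      have h := X.E_smul T (S.erase m) y x (erase_disj_left S T hd).symm hTn
      apply SD.ext
      · simp only [smul_zero, add_zero, zero_add, commutatorElement_one_left, one_smul, h]
        rw [Finset.union_comm T, ← lie_skew x y, map_neg]
        abel
      · simp
    · by_cases hT : m ∈ T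
      · rw [nE_neg X S hS, nE_pos X T hT, nE_pos X (S ∪ T) (Finset.mem_union_right _ hT), erase_union_right S T hS]
        have h := X.E_smul S (T.erase m) x y (erase_disj_right S T hd) hSn
        apply SD.ext
        · simp only [smul_zero, add_zero, zero_add, commutatorElement_one_right, one_smul, h]
          abel
        · simp
      · have hST : m ∉ S ∪ T := by simp [hS, hT]
        rw [nE_neg X S hS, nE_neg X T hT, nE_neg X _ hST, ← X.E_comm _ _ _ _ hd hSn hTn]
        apply SD.ext <;> simp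
  E_smul S T x y hd hSn := by
    by_cases hS : m ∈ S
    · have hT : m ∉ T := Finset.disjoint_left.1 hd hS
      rw [nE_pos X S hS, nι_neg X T hT, nι_pos X (S ∪ T) (Finset.mem_union_left _ hS), erase_union_left S T hT,
        ← X.ι_lie _ _ _ _ (erase_disj_left S T hd)]
      apply DN.ext <;> simp
    · by_cases hT : m ∈ T
      · rw [nE_neg X S hS, nι_pos X T hT, nι_pos X (S ∪ T) (Finset.mem_union_right _ hT), erase_union_right S T hS]
        have h := X.E_smul S (T.erase m) x y (erase_disj_right S T hd) hSn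
        apply DN.ext
        · simp
        · simp [h]
      · have hST : m ∉ S ∪ T := by simp [hS, hT]
        rw [nE_neg X S hS, nι_neg X T hT, nι_neg X _ hST]
        have h := X.E_smul S T x y hd hSn
        apply DN.ext
        · simp [h]
        · simp

end Step

section Base
variable {p : ℕ} {L : Type} [LieRing L] [Finite L] {act : ZMod p × ZMod p → L →+ L} {d : ℕ}

@[reducible] def trivAct (L : Type) [LieRing L] : DistribMulAction Unit L where
  smul _ x := x
  one_smul _ := rfl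
  mul_smul _ _ _ := rfl
  smul_zero _ := rfl
  smul_add _ _ _ := rfl

def MG.base (act_zero : ∀ x, act 0 x = x)
  (act_add : ∀ s t x, act (s + t) x = act s (act t x))
  (act_lie : ∀ s x y, act s ⁅x, y⁆ = ⁅act s x, act s y⁆)
  (fpf : ∀ x, (∀ s, act s x = x) → x = 0)
  (V : ℕ → AddSubgroup L)
  (V_zero : V 0 = ⊥)
  (V_mono : ∀ i, V i ≤ V (i + 1))
  (V_top : V d = ⊤)
  (V_lie : ∀ i x y, x ∈ V (i + 1) → y ∈ V (i + 1) → ⁅x, y⁆ ∈ V i) : MG p L act d 0 where
  M := L
  G := Unit
  iA := trivAct L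
  smul_lie _ _ _ := rfl
  aM := act
  aM_zero := act_zero
  aM_add := act_add
  aM_lie := act_lie
  aM_fix := fpf
  aG _ := MonoidHom.id _
  aG_zero _ := rfl
  aG_add _ _ _ := rfl
  aG_fix _ _ := rfl
  aM_smul _ _ _ := rfl
  VM := V
  VG _ := ⊥
  VM_mono := V_mono
  VG_mono _ := le_rfl
  VM_zero := V_zero
  VG_zero := rfl
  VM_top := V_top
  VG_top := Subsingleton.elim _ _
  VM_lie := V_lie
  VG_smul i g x _ _ := by
    show x - x ∈ V i
    rw [sub_self]; exact zero_mem _
  VG_comm i g h _ _ := by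
    rw [Subsingleton.elim ⁅g, h⁆ 1]; exact one_mem _
  ι S :=
    { toFun := fun x => if S = ∅ then x else 0
      map_zero' := by simp
      map_add' := fun x y => by split_ifs <;> simp }
  ι_act s S x := by
    show act s (if S = ∅ then x else 0) = (if S = ∅ then act s x else 0)
    split_ifs <;> simp
  ι_lie S T x y _ := by
    show ⁅(if S = ∅ then x else 0), (if T = ∅ then y else 0)⁆ = (if S ∪ T = ∅ then ⁅x, y⁆ else 0)
    by_cases hS : S = ∅ <;> by_cases hT : T = ∅ <;> simp [hS, hT]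
  ι_ne S x hS hx := by
    have h : S = ∅ := by simpa using hS
    have hx' : (if S = ∅ then x else 0) = 0 := hx
    rwa [if_pos h] at hx'
  E _ _ := ()
  E_act _ _ _ := rfl
  E_add _ _ _ := rfl
  E_ne S x hS hne _ := by
    have h : S = ∅ := by simpa using hS
    exact absurd h hne.ne_empty
  E_comm _ _ _ _ _ _ _ := rfl
  E_smul S T x y _ hSn := by
    show (if T = ∅ then y else 0) = (if T = ∅ then y else 0) + (if S ∪ T = ∅ then ⁅x, y⁆ else 0)
    have : S ∪ T ≠ ∅ := by
      intro h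
      rw [Finset.union_eq_empty] at h
      exact hSn.ne_empty h.1
    rw [if_neg this, add_zero]

end Base


section BaseStage
variable {p : ℕ} {K : Type} [Field K]

def L0 (K : Type) : Type := K × K
instance : AddCommGroup (L0 K) := inferInstanceAs (AddCommGroup (K × K))
instance : Bracket (L0 K) (L0 K) := ⟨fun _ _ => 0⟩
theorem L0.lie_eq (x y : L0 K) : ⁅x, y⁆ = 0 := rfl
instance : LieRing (L0 K) where
  add_lie x y z := by simp [L0.lie_eq]
  lie_add x y z := by simp [L0.lie_eq]
  lie_self x := rfl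
  leibniz_lie x y z := by simp [L0.lie_eq]
instance [Finite K] : Finite (L0 K) := inferInstanceAs (Finite (K × K))

def stage0 [Fact p.Prime] [Finite K] (χ : AddChar (ZMod p) K) (hχ : ∀ x, χ x = 1 → x = 0) :
    Stage p K χ Unit (fun _ => ((1 : ℕ) : ZMod p)) 0 where
  L := L0 K
  act t :=
    { toFun := fun u => (χ (-t.2) * u.1, χ t.1 * u.2)
      map_zero' := by
        show (χ (-t.2) * (0 : K), χ t.1 * (0 : K)) = ((0 : K), (0 : K))
        simp
      map_add' := fun u v => by
        show (χ (-t.2) * (u.1 + v.1), χ t.1 * (u.2 + v.2)) = (χ (-t.2) * u.1 + χ (-t.2) * v.1, χ t.1 * u.2 + χ t.1 * v.2)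
        rw [mul_add, mul_add] }
  act_zero u := by
    show (χ (-0) * u.1, χ 0 * u.2) = (u.1, u.2)
    simp
  act_add s t u := by
    show (χ (-(s.2 + t.2)) * u.1, χ (s.1 + t.1) * u.2) = (χ (-s.2) * (χ (-t.2) * u.1), χ s.1 * (χ t.1 * u.2))
    rw [neg_add, AddChar.map_add_eq_mul, AddChar.map_add_eq_mul, mul_assoc, mul_assoc]
  act_lie s x y := by
    rw [L0.lie_eq, L0.lie_eq, map_zero]
  fpf x hx := by
    have h1 : χ (-1) * x.1 = x.1 := congrArg Prod.fst (hx (0, 1))
    have h2 : χ 1 * x.2 = x.2 := congrArg Prod.snd (hx (1, 0))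
    have e1 : x.1 = 0 := by
      by_contra hne
      have h3 : (χ (-1) - 1) * x.1 = 0 := by linear_combination h1
      rcases mul_eq_zero.1 h3 with h | h
      · have := hχ (-1) (by linear_combination h)
        exact one_ne_zero (neg_eq_zero.1 this)
      · exact hne h
    have e2 : x.2 = 0 := by
      by_contra hne
      have h3 : (χ 1 - 1) * x.2 = 0 := by linear_combination h2
      rcases mul_eq_zero.1 h3 with h | h
      · have := hχ 1 (by linear_combination h)
        exact one_ne_zero this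
      · exact hne h
    exact Prod.ext e1 e2
  faithful := by
    refine ⟨((1 : K), (1 : K)), fun s hs => ?_⟩
    have h1 : χ (-s.2) * 1 = 1 := congrArg Prod.fst hs
    have h2 : χ s.1 * 1 = 1 := congrArg Prod.snd hs
    rw [mul_one] at h1 h2
    exact Prod.ext (hχ _ h2) (neg_eq_zero.1 (hχ _ h1))
  ρ j :=
    { toFun := fun u => (χ j * u.1) • (1 : Matrix Unit Unit K)
      map_zero' := by
        show (χ j * (0 : K)) • (1 : Matrix Unit Unit K) = 0
        simp
      map_add' := fun u v => by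
        show (χ j * (u.1 + v.1)) • (1 : Matrix Unit Unit K) = _
        rw [mul_add, add_smul] }
  ρ_lie j x y := by
    rw [L0.lie_eq, map_zero]
    show (0 : Matrix Unit Unit K) = ((χ j * x.1) • (1 : Matrix Unit Unit K)) * ((χ j * y.1) • (1 : Matrix Unit Unit K)) -
      ((χ j * y.1) • (1 : Matrix Unit Unit K)) * ((χ j * x.1) • (1 : Matrix Unit Unit K))
    rw [smul_mul_smul_comm, smul_mul_smul_comm, mul_comm (χ j * x.1), sub_self]
  ρ_act j a b x c c' := by
    show ((χ j * (χ (-b) * x.1)) • (1 : Matrix Unit Unit K)) c c' =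
      χ (a * ((1 : ℕ) : ZMod p)) * ((χ (j - b) * x.1) • (1 : Matrix Unit Unit K)) c c' * χ (-(a * ((1 : ℕ) : ZMod p)))
    rw [Matrix.smul_apply, Matrix.smul_apply, Subsingleton.elim c c', Matrix.one_apply_eq, sub_eq_add_neg,
      AddChar.map_add_eq_mul]
    simp only [smul_eq_mul, mul_one]
    have := chi_neg_mul χ (a * ((1 : ℕ) : ZMod p))
    linear_combination (-(χ j * χ (-b) * x.1)) * this
  U _ := ⊤
  U_mono _ := le_rfl
  U_top := rfl
  U_lie i hi := absurd hi (Nat.not_lt_zero _)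
  z := ((1 : K), (0 : K))
  z_mem := trivial
  ρ_z j := by
    show (χ j * 1) • (1 : Matrix Unit Unit K) = _
    rw [mul_one]
  d := 1
  V i := if i = 0 then ⊥ else ⊤
  V_zero := rfl
  V_mono i := by
    rw [if_neg (Nat.succ_ne_zero i)]
    exact le_top
  V_top := rfl
  V_lie i x y _ _ := by
    rw [L0.lie_eq]; exact zero_mem _

end BaseStage

theorem exists_stage (k : ℕ) : ∃ (B : Type) (_ : Fintype B) (_ : DecidableEq B) (_ : Nonempty B) (deg : B → ℕ),
    (∀ c, 0 < deg c) ∧
    ∀ (p : ℕ) [Fact p.Prime] (K : Type) [Field K] [Finite K] [CharP K 2] (χ : AddChar (ZMod p) K),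
      p ≠ 2 → (∀ x, χ x = 1 → x = 0) → (∀ c, deg c < p) →
      Nonempty (Stage p K χ B (fun c => (deg c : ZMod p)) k) := by
  induction k with
  | zero =>
    refine ⟨Unit, inferInstance, inferInstance, inferInstance, fun _ => 1, fun _ => one_pos, ?_⟩
    intro p _ K _ _ _ χ _ hχ _
    exact ⟨stage0 χ hχ⟩
  | succ k ih =>
    obtain ⟨B, _, _, _, deg, hpos, hst⟩ := ih
    refine ⟨NB B, inferInstance, inferInstance, inferInstance, fun T => 1 + ∑ c ∈ T, Sum.elim deg deg c,
      fun T => Nat.lt_of_lt_of_le one_pos (Nat.le_add_right _ _), ?_⟩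
    intro p _ K _ _ _ χ hp2 hχ hlt
    have hlt' : ∀ c, deg c < p := by
      intro c
      have := hlt {Sum.inl c}
      simp at this
      omega
    obtain ⟨S⟩ := hst p K χ hp2 hχ hlt'
    have hpp : p.Prime := Fact.out
    have hpK : (p : K) ≠ 0 := by
      intro h
      rw [CharP.cast_eq_zero_iff K 2 p] at h
      exact hp2 ((Nat.prime_dvd_prime_iff_eq Nat.prime_two hpp).1 h).symm
    have hK2 : (2 : K) = 0 := by
      have := CharP.cast_eq_zero K 2
      exact_mod_cast this
    have hχ1 : 1 + χ 1 ≠ 0 := by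
      intro h
      have h1 : χ 1 = 1 := by linear_combination h - hK2
      exact one_ne_zero (hχ 1 h1)
    have hdeg : ∀ c, ((deg c : ℕ) : ZMod p) ≠ 0 := by
      intro c h
      rw [ZMod.natCast_eq_zero_iff] at h
      exact absurd (Nat.le_of_dvd (hpos c) h) (not_le.2 (hlt' c))
    have S' := S.next hpK hχ hχ1 hdeg
    have e : (fun T : NB B => ((1 + ∑ c ∈ T, Sum.elim deg deg c : ℕ) : ZMod p)) = ndeg (fun c => (deg c : ZMod p)) := by
      funext T
      rw [ndeg]
      push_cast
      congr 1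
      refine Finset.sum_congr rfl fun c _ => ?_
      rcases c with c | c <;> rfl
    rw [e]
    exact ⟨S'⟩

section Final
variable {p : ℕ} {L : Type} [LieRing L] {act : ZMod p × ZMod p → L →+ L} {d m : ℕ}

theorem derived_le (X : MG p L act d m) : ∀ i, i ≤ d → derivedSeries X.G i ≤ X.VG (d - i) := by
  intro i
  induction i with
  | zero =>
    intro _
    rw [Nat.sub_zero, X.VG_top]; exact le_top
  | succ i ih =>
    intro hi
    rw [derivedSeries_succ, Subgroup.commutator_le]
    intro g hg h hh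
    have e : d - i = (d - (i + 1)) + 1 := by omega
    have h1 := ih (by omega) hg
    have h2 := ih (by omega) hh
    rw [e] at h1 h2
    exact X.VG_comm _ _ _ h1 h2

theorem E_neg (X : MG p L act d m) (S : Finset ℕ) (x : L) : X.E S (-x) = (X.E S x)⁻¹ := by
  have h := X.E_add S (-x) x
  rw [neg_add_cancel, X.E_zero] at h
  exact eq_inv_of_mul_eq_one_left h.symm

theorem E_mem_of_closure (X : MG p L act d m) (U1 U2 : AddSubgroup L) (S1 S2 : Finset ℕ) (hd : Disjoint S1 S2)
    (h1 : S1.Nonempty) (h2 : S2.Nonempty) (H1 H2 : Subgroup X.G) (hH1 : ∀ x ∈ U1, X.E S1 x ∈ H1)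
    (hH2 : ∀ x ∈ U2, X.E S2 x ∈ H2) (x : L) (hx : x ∈ AddSubgroup.closure {z | ∃ x ∈ U1, ∃ y ∈ U2, z = ⁅x, y⁆}) :
    X.E (S1 ∪ S2) x ∈ ⁅H1, H2⁆ := by
  induction hx using AddSubgroup.closure_induction with
  | mem x hx =>
    obtain ⟨y, hy, y', hy', rfl⟩ := hx
    rw [← X.E_comm S1 S2 y y' hd h1 h2]
    exact Subgroup.commutator_mem_commutator (hH1 y hy) (hH2 y' hy')
  | zero => rw [X.E_zero]; exact one_mem _
  | add x y _ _ hx hy => rw [X.E_add]; exact mul_mem hx hy
  | neg x _ hx => rw [E_neg]; exact inv_mem hx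

theorem key (X : MG p L act d m) (k : ℕ) (U : ℕ → AddSubgroup L) (U_mono : ∀ i, U i ≤ U (i + 1))
    (U_lie : ∀ i < k, U i ≤ AddSubgroup.closure {z | ∃ x ∈ U i, ∃ y ∈ U (i + 1), z = ⁅x, y⁆})
    (c n : ℕ) (hn : n ≤ k) (s : ℕ → Subgroup X.G) (hs : s n = ⊤)
    (hc : ∀ i, i < n → (fun H : Subgroup X.G => ⁅H, s (i + 1)⁆)^[c] (s (i + 1)) ≤ s i) :
    ∀ i, i ≤ n → ∀ S : Finset ℕ, (c + 1) ^ i ≤ S.card → ∀ x ∈ U (k - i), X.E S x ∈ s (n - i) := by
  intro i
  induction i with
  | zero =>
    intro _ S _ x _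
    rw [Nat.sub_zero, hs]; trivial
  | succ i ih =>
    intro hi S hS x hx
    have ih' := ih (by omega)
    have e1 : n - i = (n - (i + 1)) + 1 := by omega
    have e2 : k - i = (k - (i + 1)) + 1 := by omega
    have hcc := hc (n - (i + 1)) (by omega)
    rw [← e1] at hcc
    apply hcc
    have hpos : 0 < (c + 1) ^ i := Nat.pow_pos (Nat.succ_pos c)
    have inner : ∀ a : ℕ, ∀ S : Finset ℕ, (a + 1) * (c + 1) ^ i ≤ S.card → ∀ x ∈ U (k - (i + 1)),
        X.E S x ∈ (fun H : Subgroup X.G => ⁅H, s (n - i)⁆)^[a] (s (n - i)) := by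
      intro a
      induction a with
      | zero =>
        intro S hS x hx
        refine ih' S (by simpa using hS) x ?_
        rw [e2]; exact U_mono _ hx
      | succ a iha =>
        intro S hS x hx
        rw [Function.iterate_succ_apply']
        have hle : (c + 1) ^ i ≤ S.card := le_trans (Nat.le_mul_of_pos_left _ (Nat.succ_pos _)) hS
        obtain ⟨S2, hS2, hcard⟩ := Finset.exists_subset_card_eq hle
        have hS1card : (a + 1) * (c + 1) ^ i ≤ (S \ S2).card := by
          rw [Finset.card_sdiff_of_subset hS2, hcard]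
          have : (a + 1 + 1) * (c + 1) ^ i = (a + 1) * (c + 1) ^ i + (c + 1) ^ i := by ring
          omega
        have hun : (S \ S2) ∪ S2 = S := Finset.sdiff_union_of_subset hS2
        have hcl := U_lie (k - (i + 1)) (by omega) hx
        rw [← e2] at hcl
        have hres := E_mem_of_closure X (U (k - (i + 1))) (U (k - i)) (S \ S2) S2 Finset.sdiff_disjoint
          (Finset.card_pos.1 (lt_of_lt_of_le (Nat.mul_pos (Nat.succ_pos a) hpos) hS1card))
          (Finset.card_pos.1 (by omega)) _ (s (n - i))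
          (iha (S \ S2) hS1card) (ih' S2 (by omega)) x hcl
        rw [hun] at hres
        exact hres
    have := inner c S (by rw [pow_succ, mul_comm] at hS; exact hS) x hx
    exact this

def autHom (X : MG p L act d m) : Multiplicative (ZMod p × ZMod p) →* MulAut X.G where
  toFun t :=
    { toFun := X.aG t.toAdd
      invFun := X.aG (-t.toAdd)
      left_inv := fun g => by rw [← X.aG_add, neg_add_cancel, X.aG_zero]
      right_inv := fun g => by rw [← X.aG_add, add_neg_cancel, X.aG_zero]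
      map_mul' := fun g h => map_mul _ _ _ }
  map_one' := by
    apply MulEquiv.ext
    intro g
    exact X.aG_zero g
  map_mul' s t := by
    apply MulEquiv.ext
    intro g
    exact X.aG_add _ _ _

theorem autHom_apply (X : MG p L act d m) (t : Multiplicative (ZMod p × ZMod p)) (g : X.G) :
    autHom X t g = X.aG t.toAdd g := rfl

end Final

def mgOf {p : ℕ} {K : Type} [Field K] {χ : AddChar (ZMod p) K} {B : Type} [Fintype B]
    [DecidableEq B] {deg : B → ZMod p} {k : ℕ} (S : Stage p K χ B deg k) : (m : ℕ) → MG p S.L S.act S.d m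
  | 0 => MG.base S.act_zero S.act_add S.act_lie S.fpf S.V S.V_zero S.V_mono S.V_top S.V_lie
  | m + 1 => (mgOf S m).next

theorem exists_field (p : ℕ) [Fact p.Prime] (hp2 : p ≠ 2) :
    ∃ (K : Type) (_ : Field K) (_ : Finite K) (_ : CharP K 2) (χ : AddChar (ZMod p) K), ∀ x, χ x = 1 → x = 0 := by
  have hpp : p.Prime := Fact.out
  have hp1 : p - 1 ≠ 0 := by have := hpp.two_le; omega
  have : Fact (Nat.Prime 2) := ⟨Nat.prime_two⟩
  let K := GaloisField 2 (p - 1)
  have : Finite K := inferInstance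
  have hcard : Nat.card K = 2 ^ (p - 1) := GaloisField.card 2 (p - 1) hp1
  have hunits : Nat.card Kˣ = 2 ^ (p - 1) - 1 := by
    rw [Nat.card_units, hcard]
  have hdvd : p ∣ Nat.card Kˣ := by
    rw [hunits]
    have hcop : Nat.Coprime 2 p := (Nat.coprime_primes Nat.prime_two hpp).2 (Ne.symm hp2)
    have h1 := Nat.ModEq.pow_totient hcop
    rw [Nat.totient_prime hpp] at h1
    exact (Nat.modEq_iff_dvd' Nat.one_le_two_pow).1 h1.symm
  obtain ⟨u, hu⟩ := exists_prime_orderOf_dvd_card' p hdvd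
  have hup : u ^ p = 1 := by
    have h := pow_orderOf_eq_one u
    rw [hu] at h
    exact h
  have hζ : ((u : K)) ^ p = 1 := by
    rw [← Units.val_pow_eq_pow_val, hup, Units.val_one]
  refine ⟨K, inferInstance, inferInstance, inferInstance, AddChar.zmodChar p hζ, ?_⟩
  intro x hx
  rw [AddChar.zmodChar_apply, ← Units.val_pow_eq_pow_val, Units.val_eq_one] at hx
  have h := orderOf_dvd_of_pow_eq_one hx
  rw [hu] at h
  have h2 : x.val = 0 := Nat.eq_zero_of_dvd_of_lt h (ZMod.val_lt x)
  exact (ZMod.val_eq_zero x).1 h2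

/-- The negation of the preceding statement: There is f(n) and c(p,n,d) such that every finite group of derived length ≤ d with a fixed-point-free elementary abelian automorphism group of order pⁿ has a normal series of length ≤ f(n) whose factors are nilpotent of class ≤ c. -/
theorem result :
    ¬ (∀ n : ℕ, ∃ f : ℕ, ∀ p d : ℕ, p.Prime → ∃ c : ℕ,
      ∀ (G : Type) [Group G] [Finite G],
        derivedSeries G d = ⊥ →
        ∀ A : Subgroup (MulAut G),
          Nat.card (↥A) = p ^ n →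
          (∀ a ∈ A, a ^ p = 1) →
          (∀ a ∈ A, ∀ b ∈ A, a * b = b * a) →
          (∀ g : G, (∀ a ∈ A, a g = g) → g = 1) →
          ∃ k : ℕ, k ≤ f ∧ ∃ s : ℕ → Subgroup G,
            s 0 = ⊥ ∧ s k = ⊤ ∧
            (∀ i, (s i).Normal) ∧
            (∀ i, i < k → s i ≤ s (i + 1)) ∧
            (∀ i, i < k →
              (fun L : Subgroup G => ⁅L, s (i + 1)⁆)^[c] (s (i + 1)) ≤ s i)) := by
  intro hmain
  obtain ⟨f, hf⟩ := hmain 2
  obtain ⟨B, _, _, _, deg, hpos, hst⟩ := exists_stage f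
  obtain ⟨p, hpN, hpp⟩ := Nat.exists_infinite_primes (3 + ∑ c, deg c)
  have : Fact p.Prime := ⟨hpp⟩
  have hp2 : p ≠ 2 := by omega
  obtain ⟨K, _, _, _, χ, hχ⟩ := exists_field p hp2
  have hlt : ∀ c, deg c < p := by
    intro c
    have : deg c ≤ ∑ c, deg c := Finset.single_le_sum (fun _ _ => Nat.zero_le _) (Finset.mem_univ c)
    omega
  obtain ⟨S⟩ := hst p K χ hp2 hχ hlt
  obtain ⟨c, hc⟩ := hf p S.d hpp
  let m := (c + 1) ^ f
  have hm : 0 < m := Nat.pow_pos (Nat.succ_pos c)
  let X := mgOf S m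
  have hder : derivedSeries X.G S.d = ⊥ := by
    have := derived_le X S.d le_rfl
    rw [Nat.sub_self, X.VG_zero] at this
    exact le_bot_iff.1 this
  have hinj : Function.Injective (autHom X) := by
    rw [injective_iff_map_eq_one]
    intro t ht
    obtain ⟨x, hx⟩ := S.faithful
    have h0 : ({0} : Finset ℕ) ⊆ Finset.range m := by
      intro i hi
      rw [Finset.mem_singleton] at hi
      rw [hi, Finset.mem_range]; exact hm
    have h1 : X.aG t.toAdd (X.E {0} x) = X.E {0} x := by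
      rw [← autHom_apply, ht]; rfl
    rw [X.E_act] at h1
    have h2 : X.E {0} (S.act t.toAdd x + -x) = 1 := by
      rw [X.E_add, E_neg, h1, mul_inv_cancel]
    have h3 := X.E_ne {0} _ h0 (Finset.singleton_nonempty 0) h2
    have h4 : S.act t.toAdd x = x := by
      rw [← sub_eq_add_neg, sub_eq_zero] at h3; exact h3
    have h5 := hx _ h4
    exact h5
  obtain ⟨n, hn, s, hs0, hsn, hnorm, hmono, hcl⟩ := hc X.G hder (autHom X).range
    (by
      rw [Nat.card_congr (MonoidHom.ofInjective hinj).toEquiv.symm, Nat.card_congr Multiplicative.toAdd, Nat.card_prod,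
        Nat.card_zmod, sq])
    (by
      rintro a ⟨t, rfl⟩
      rw [← map_pow]
      have : t ^ p = 1 := by
        apply Multiplicative.toAdd.injective
        rw [toAdd_pow, toAdd_one]
        apply Prod.ext <;> simp
      rw [this, map_one])
    (by
      rintro a ⟨t, rfl⟩ b ⟨u, rfl⟩
      rw [← map_mul, ← map_mul, mul_comm])
    (by
      intro g hg
      apply X.aG_fix
      intro t
      exact hg (autHom X (Multiplicative.ofAdd t)) ⟨_, rfl⟩)
  have hkey := key X f S.U S.U_mono S.U_lie c n hn s hsn hcl n le_rfl (Finset.range m)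
    (by rw [Finset.card_range]; exact Nat.pow_le_pow_right (Nat.succ_pos c) hn) S.z
    (by
      have : ∀ i, S.z ∈ S.U i := by
        intro i
        induction i with
        | zero => exact S.z_mem
        | succ i ih => exact S.U_mono i ih
      exact this _)
  rw [Nat.sub_self, hs0, Subgroup.mem_bot] at hkey
  have hz := X.E_ne _ _ (Finset.Subset.refl _) (Finset.nonempty_range_iff.2 hm.ne') hkey
  have h1 := S.ρ_z 0
  rw [hz, map_zero] at h1
  obtain ⟨b⟩ := ‹Nonempty B›
  have h2 := congrFun (congrFun h1 b) b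
  simp at h2

end Pool.Agent.S00778
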