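import Pool.Statements.S00783
import Pool.Agent.MP485c8a.P5

set_option autoImplicit false
open Pool Pool.MP_485c8a_al

namespace Pool.Agent.S00783

/-- For every field F, n > 2, and non-central α, β in SL_n(F), β equals a product of n matrices g_i α g_i⁻¹ with each g_i an invertible n×n matrix over F. -/
theorem result :
    ∀ (F : Type) [Field F] (n : ℕ), 2 < n →
      ∀ α β : Matrix.SpecialLinearGroup (Fin n) F,
        α ∉ Subgroup.center (Matrix.SpecialLinearGroup (Fin n) F) →
        β ∉ Subgroup.center (Matrix.SpecialLinearGroup (Fin n) F) →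
        ∃ g : Fin n → Matrix.GeneralLinearGroup (Fin n) F,
          (β : Matrix (Fin n) (Fin n) F) =
            (List.ofFn (fun i =>
              ((g i : Matrix.GeneralLinearGroup (Fin n) F) : Matrix (Fin n) (Fin n) F) *
                (α : Matrix (Fin n) (Fin n) F) *
                (((g i)⁻¹ : Matrix.GeneralLinearGroup (Fin n) F) : Matrix (Fin n) (Fin n) F))).prod := by
  intro F _ n hn α β hα hβ
  by_cases h : ∃ S : Finset F, S.card = 4
  · exact Pool.Agent.PC.H2.matrix_form (Pool.Agent.PC.ExcSmall.excGood_large h) n hn α β hα hβ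
  · rcases Pool.Agent.PC.H3.small_field h with e | e
    · obtain ⟨e⟩ := e
      exact Pool.Agent.PC.H3.concl_transport e
        (fun n hn α β hα hβ =>
          Pool.Agent.PC.H2.matrix_form Pool.Agent.PC.ExcSmall.excGood_2 n hn α β hα hβ)
        n hn α β hα hβ
    · obtain ⟨e⟩ := e
      exact Pool.Agent.PC.H3.concl_transport e
        (fun n hn α β hα hβ =>
          Pool.Agent.PC.H2.matrix_form Pool.Agent.PC.ExcSmall.excGood_3 n hn α β hα hβ)
        n hn α β hα hβ

end Pool.Agent.S00783
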