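import Pool.Statements.S00791
import Pool.Agent.Helper605.MainD
import Pool.Agent.Helper605.Triv

set_option autoImplicit false
open Pool Pool.MP_49224a_al

namespace Pool.Agent.S00791

/-- For every unital subring S of ℝ: any square matrix over S whose nonzero spectrum meets the Perron condition and the trace conditions (Möbius form if S = ℤ) is strong shift equivalent over S to a primitive matrix over S. -/
theorem result :
    ∀ (S : Subring ℝ) (n : ℕ) (A : Matrix (Fin n) (Fin n) ℝ),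
      (∀ i j, A i j ∈ S) →
      (∃ r : ℝ, 0 < r ∧
        (A.map (fun x : ℝ => (x : ℂ))).charpoly.roots.count (r : ℂ) = 1 ∧
        ∀ z ∈ (A.map (fun x : ℝ => (x : ℂ))).charpoly.roots, z ≠ (r : ℂ) → ‖z‖ < r) →
      (S = ⊥ → ∀ m : ℕ, 0 < m →
        0 ≤ ∑ k ∈ m.divisors, ((ArithmeticFunction.moebius (m / k) : ℤ) : ℝ) * (A ^ k).trace) →
      (S ≠ ⊥ → ∀ m : ℕ, 0 < m →
        0 ≤ (A ^ m).trace ∧ ∀ k : ℕ, 0 < k → 0 < (A ^ m).trace → 0 < (A ^ (m * k)).trace) →
      ∃ (p : ℕ) (B : Matrix (Fin p) (Fin p) ℝ),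
        0 < p ∧ (∀ i j, B i j ∈ S) ∧ (∀ i j, 0 ≤ B i j) ∧
        (∃ k : ℕ, 0 < k ∧ ∀ i j, 0 < (B ^ k) i j) ∧
        Relation.ReflTransGen
          (fun X Y : (Σ d : ℕ, Matrix (Fin d) (Fin d) ℝ) =>
            ∃ (R : Matrix (Fin X.1) (Fin Y.1) ℝ) (T : Matrix (Fin Y.1) (Fin X.1) ℝ),
              (∀ i j, R i j ∈ S) ∧ (∀ i j, T i j ∈ S) ∧ X.2 = R * T ∧ Y.2 = T * R)
          ⟨n, A⟩ ⟨p, B⟩ := by
  intro S n A hA hPer hbot hdense
  have hmapeq : A.map (fun x : ℝ => (x : ℂ)) = A.map (algebraMap ℝ ℂ) := rfl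
  rw [hmapeq] at hPer
  obtain ⟨r, hr, hcount, hPerron⟩ := hPer
  set Λ := (A.map (algebraMap ℝ ℂ)).charpoly.roots with hΛdef
  have hrΛ : (r : ℂ) ∈ Λ := Multiset.count_pos.mp (by omega)
  set s := Λ.erase (r : ℂ) with hs
  have hΛ : Λ = (r : ℂ) ::ₘ s := (Multiset.cons_erase hrΛ).symm
  have hsr : ∀ z ∈ s, ‖z‖ < r := by
    intro z hz
    apply hPerron z (Multiset.mem_of_mem_erase hz)
    rintro rfl
    have h1 := Multiset.count_pos.mpr hz
    rw [hs, Multiset.count_erase_self] at h1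
    omega
  rcases n with _ | n
  · exfalso
    have h1 : (A.map (algebraMap ℝ ℂ)).charpoly = 1 := by simp [Matrix.charpoly]
    rw [hΛdef, h1, Polynomial.roots_one] at hrΛ
    exact Multiset.notMem_zero _ hrΛ
  · by_cases hS : S = ⊥
    · by_cases hr1 : 1 < r
      · exact Pool.Agent.Helper605.main_case S n A hA r hr (fun _ => hr1) s hΛ hsr hbot hdense
      · subst hS
        exact Pool.Agent.Helper605.triv_case n A hA r hr (not_lt.mp hr1) s hΛ hsr
    · exact Pool.Agent.Helper605.main_case S n A hA r hr (fun h => absurd h hS) s hΛ hsr hbot hdense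

end Pool.Agent.S00791
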