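import Pool.Statements.S00797
import Pool.Agent.Helper26.FLR.Main

set_option autoImplicit false
open Pool Pool.MP_4a16d5_al

namespace Pool.Agent.S00797

/-- Every finite local associative unital ring embeds, as a unital ring, into the ring of n×n matrices over some commutative ring, for some n. -/
theorem result :
    ∀ (R : Type) [Ring R] [Finite R] [IsLocalRing R],
      ∃ (C : Type) (_ : CommRing C) (n : ℕ) (f : R →+* Matrix (Fin n) (Fin n) C),
        Function.Injective f := by
  intro R _ _ _
  exact Pool.Agent.RepFLR.main R

end Pool.Agent.S00797
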