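import Pool.Statements.S00800
-- import your own Pool.Agent.* helpers here

set_option autoImplicit false
open Pool Pool.MP_4a5c06_al

namespace Pool.Agent.S00800
namespace Pk

/-- A size function on a module over a ring of characteristic two. -/
structure Sized (R M : Type) [Ring R] [AddCommGroup M] [Module R M] (sz : M → ℕ) : Prop where
  char2 : (1 : R) + 1 = 0
  zero : sz 0 = 0
  add : ∀ a b, sz (a + b) ≤ max (sz a) (sz b)
  deg : ∀ r : R, r ≠ 0 → ∃ J : ℕ, (J = 0 → r = 1) ∧
    (∀ a, sz a ≠ 0 → sz (r • a) = J + sz a) ∧ (∀ a, sz a = 0 → sz (r • a) = 0)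
  dep : ∀ (r s : R) (a c : M), r ≠ 0 → s ≠ 0 → sz c ≠ 0 → sz c ≤ sz a → sz (r • a) = sz (s • c) →
    sz (r • a + s • c) < sz (r • a) → ∃ t : R, sz (a + t • c) < sz a

section
variable {R M : Type} [Ring R] [AddCommGroup M] [Module R M] {sz : M → ℕ}

theorem Sized.neg (h : Sized R M sz) (a : M) : -a = a := by
  have : a + a = 0 := by
    have := congrArg (fun r : R => r • a) h.char2
    simpa [add_smul] using this
  exact neg_eq_of_add_eq_zero_left this

theorem Sized.smul0 (h : Sized R M sz) (r : R) (a : M) (ha : sz a = 0) : sz (r • a) = 0 := by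
  by_cases hr : r = 0
  · rw [hr, zero_smul]; exact h.zero
  · obtain ⟨J, -, -, h3⟩ := h.deg r hr
    exact h3 a ha

/-- If the sum is smaller than the first summand, the second summand has the same size. -/
theorem Sized.cancel (h : Sized R M sz) (x y : M) (hlt : sz (x + y) < sz x) : sz y = sz x := by
  have h1 := h.add (x + y) (-y)
  have h2 := h.add (x + y) (-x)
  rw [h.neg] at h1 h2
  have e1 : x + y + y = x := by
    nth_rewrite 2 [← h.neg y]; abel
  have e2 : x + y + x = y := by
    nth_rewrite 2 [← h.neg x]; abel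
  rw [e1] at h1
  rw [e2] at h2
  omega

end

/-- Closure of the set `K` of base triples under undoing size-decreasing row moves. -/
inductive D (R : Type) {M : Type} [Ring R] [AddCommGroup M] [Module R M] (sz : M → ℕ)
    (K : M → M → M → Prop) : M → M → M → Prop
  | base {a b c : M} : K a b c → D R sz K a b c
  | step {a b c : M} (r s : R) : sz (a + r • b + s • c) < sz a →
      D R sz K (a + r • b + s • c) b c → D R sz K a b c
  | sw1 {a b c : M} : D R sz K a b c → D R sz K b a c
  | sw2 {a b c : M} : D R sz K a b c → D R sz K a c b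

section
variable {R M : Type} [Ring R] [AddCommGroup M] [Module R M] {sz : M → ℕ} {K : M → M → M → Prop}

theorem D.inv {a b c : M} (hK1 : ∀ a b c, K a b c → K b a c) (hK2 : ∀ a b c, K a b c → K a c b)
    (h : D R sz K a b c) : K a b c ∨
      (∃ r s : R, sz (a + r • b + s • c) < sz a ∧ D R sz K (a + r • b + s • c) b c) ∨
      (∃ r s : R, sz (b + r • a + s • c) < sz b ∧ D R sz K a (b + r • a + s • c) c) ∨
      (∃ r s : R, sz (c + r • a + s • b) < sz c ∧ D R sz K a b (c + r • a + s • b)) := by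
  induction h with
  | base hk => exact Or.inl hk
  | step r s h1 h2 => exact Or.inr (Or.inl ⟨r, s, h1, h2⟩)
  | sw1 _ ih =>
    rcases ih with h | ⟨r, s, h1, h2⟩ | ⟨r, s, h1, h2⟩ | ⟨r, s, h1, h2⟩
    · exact Or.inl (hK1 _ _ _ h)
    · exact Or.inr (Or.inr (Or.inl ⟨r, s, h1, h2.sw1⟩))
    · exact Or.inr (Or.inl ⟨r, s, h1, h2.sw1⟩)
    · refine Or.inr (Or.inr (Or.inr ⟨s, r, ?_, ?_⟩))
      · rw [add_right_comm]; exact h1
      · rw [add_right_comm]; exact h2.sw1
  | sw2 _ ih =>
    rcases ih with h | ⟨r, s, h1, h2⟩ | ⟨r, s, h1, h2⟩ | ⟨r, s, h1, h2⟩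
    · exact Or.inl (hK2 _ _ _ h)
    · refine Or.inr (Or.inl ⟨s, r, ?_, ?_⟩)
      · rw [add_right_comm]; exact h1
      · rw [add_right_comm]; exact h2.sw2
    · exact Or.inr (Or.inr (Or.inr ⟨r, s, h1, h2.sw2⟩))
    · exact Or.inr (Or.inr (Or.inl ⟨r, s, h1, h2.sw2⟩))

/-- Bounded move hypothesis. -/
def Mv (R : Type) {M : Type} [Ring R] [AddCommGroup M] [Module R M] (sz : M → ℕ)
    (K : M → M → M → Prop) (m : ℕ) : Prop :=
  ∀ (a b c a' : M) (r s : R), a' = a + r • b + s • c → sz a + sz b + sz c < m →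
    sz a' + sz b + sz c < m → (D R sz K a b c ↔ D R sz K a' b c)

theorem Mv.b {m : ℕ} (h : Mv R sz K m) (a b c b' : M) (r s : R) (e : b' = b + r • a + s • c)
    (h1 : sz a + sz b + sz c < m) (h2 : sz a + sz b' + sz c < m) :
    D R sz K a b c ↔ D R sz K a b' c := by
  have := h b a c b' r s e (by omega) (by omega)
  exact ⟨fun x => (this.1 x.sw1).sw1, fun x => (this.2 x.sw1).sw1⟩

theorem Mv.c {m : ℕ} (h : Mv R sz K m) (a b c c' : M) (r s : R) (e : c' = c + r • a + s • b)
    (h1 : sz a + sz b + sz c < m) (h2 : sz a + sz b + sz c' < m) :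
    D R sz K a b c ↔ D R sz K a b c' := by
  have := h.b a c b c' r s e (by omega) (by omega)
  exact ⟨fun x => (this.1 x.sw2).sw2, fun x => (this.2 x.sw2).sw2⟩

end

section
variable {R M : Type} [Ring R] [AddCommGroup M] [Module R M] {sz : M → ℕ} {K : M → M → M → Prop}

theorem LCg (hS : Sized R M sz) {m : ℕ} (mv : Mv R sz K m) (a b c : M) (r2 r3 t : R)
    (hm : sz a + sz b + sz c ≤ m) (hba : sz b ≤ sz a) (hac : sz a < sz c)
    (ht : sz (c + t • a) < sz c) (ha' : sz (a + r2 • b + r3 • c) < sz a) :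
    D R sz K (a + r2 • b + r3 • c) b c ↔ D R sz K a b (c + t • a) := by
  obtain ⟨a', ea'⟩ : ∃ a', a' = a + r2 • b + r3 • c := ⟨_, rfl⟩
  rw [← ea'] at ha' ⊢
  by_cases h3 : r3 = 0
  · subst h3
    rw [zero_smul, add_zero] at ea'
    have e1 := mv a b (c + t • a) a' r2 0 (by rw [ea', zero_smul, add_zero]) (by omega) (by omega)
    have e2 := mv.c a' b c (c + t • a) t (-(t * r2)) (by
      rw [ea', smul_add, neg_smul, mul_smul]; abel) (by omega) (by omega)
    rw [e2, e1]
  · obtain ⟨J, -, hJ, -⟩ := hS.deg r3 h3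
    have hs3 := hJ c (by omega)
    have hsum : sz (r3 • c + r2 • b) < sz (r3 • c) := by
      have : r3 • c + r2 • b = a' + -a := by rw [ea']; abel
      rw [this, hS.neg]
      have := hS.add a' a
      omega
    have hs2 := hS.cancel _ _ hsum
    have hb0 : sz b ≠ 0 := by
      intro h0
      have := hS.smul0 r2 b h0
      omega
    have h2 : r2 ≠ 0 := by
      rintro rfl
      rw [zero_smul, hS.zero] at hs2
      omega
    obtain ⟨t', ht'⟩ := hS.dep r3 r2 c b h3 h2 hb0 (by omega) hs2.symm hsum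
    have e1 := mv.c a b (c + t • a) (c + t' • b) (-t) t' (by rw [neg_smul]; abel)
      (by omega) (by omega)
    have e2 := mv a b (c + t' • b) a' (r2 - r3 * t') r3 (by
      rw [ea', sub_smul, smul_add, mul_smul]; abel) (by omega) (by omega)
    have e3 := mv.c a' b c (c + t' • b) 0 t' (by rw [zero_smul, add_zero]) (by omega) (by omega)
    rw [e3, e1, e2]

theorem LC0 (hS : Sized R M sz) {m : ℕ} (mv : Mv R sz K m) (a b c : M) (r2 r3 s1 s3 : R)
    (hm : sz a + sz b + sz c ≤ m) (hba : sz b ≤ sz a)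
    (ha' : sz (a + r2 • b + r3 • c) < sz a) (hb' : sz (b + s1 • a + s3 • c) < sz b) :
    D R sz K (a + r2 • b + r3 • c) b c ↔ D R sz K a (b + s1 • a + s3 • c) c := by
  obtain ⟨a', ea'⟩ : ∃ a', a' = a + r2 • b + r3 • c := ⟨_, rfl⟩
  obtain ⟨b', eb'⟩ : ∃ b', b' = b + s1 • a + s3 • c := ⟨_, rfl⟩
  by_cases h1 : s1 = 0
  · rw [← ea'] at ha' ⊢
    rw [← eb'] at hb' ⊢
    subst h1
    rw [zero_smul, add_zero] at eb'
    have e1 := mv.b a' b c b' 0 s3 (by rw [eb', zero_smul, add_zero]) (by omega) (by omega)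
    have e2 := mv a b' c a' r2 (r3 - r2 * s3) (by
      rw [eb', ea', smul_add, sub_smul, mul_smul]; abel) (by omega) (by omega)
    rw [e1, e2]
  · obtain ⟨J, hJ0, hJ, -⟩ := hS.deg s1 h1
    have hs1 := hJ a (by omega)
    by_cases hle : sz (s1 • a) ≤ sz b
    · have hJ' : J = 0 := by omega
      have hs : s1 = 1 := hJ0 hJ'
      have hab : sz a = sz b := by omega
      subst hs
      rw [← ea'] at ha' ⊢
      rw [← eb'] at hb' ⊢
      rw [one_smul] at eb'
      have e1 := mv a' b c b' (1 - r2) (s3 - r3) (by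
        rw [eb', ea', sub_smul, sub_smul, one_smul]; abel) (by omega) (by omega)
      have e2 := mv a b' c b (-1) s3 (by
        rw [eb', neg_smul, one_smul]
        have : b = -b := (hS.neg b).symm
        nth_rewrite 1 [this]
        abel) (by omega) (by omega)
      rw [e1, e2]
      exact ⟨fun x => x.sw1, fun x => x.sw1⟩
    · have hsum : sz (s1 • a + s3 • c) < sz (s1 • a) := by
        have : s1 • a + s3 • c = b' + -b := by rw [eb']; abel
        rw [this, hS.neg]
        rw [← eb'] at hb'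
        have := hS.add b' b
        omega
      have hs3 := hS.cancel _ _ hsum
      have hc0 : sz c ≠ 0 := by
        intro h0
        have := hS.smul0 s3 c h0
        omega
      have h3 : s3 ≠ 0 := by
        rintro rfl
        rw [zero_smul, hS.zero] at hs3
        omega
      by_cases hca : sz c ≤ sz a
      · obtain ⟨t, ht⟩ := hS.dep s1 s3 a c h1 h3 hc0 hca hs3.symm hsum
        rw [← ea'] at ha' ⊢
        rw [← eb'] at hb' ⊢
        have e1 := mv a' b c (a + t • c) (-r2) (t - r3) (by
          rw [ea', neg_smul, sub_smul]; abel) (by omega) (by omega)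
        have e2 := mv.b (a + t • c) b c b' s1 (s3 - s1 * t) (by
          rw [eb', smul_add, sub_smul, mul_smul]; abel) (by omega) (by omega)
        have e3 := mv a b' c (a + t • c) 0 t (by rw [zero_smul, add_zero]) (by omega) (by omega)
        rw [e1, e2, e3]
      · obtain ⟨t, ht⟩ := hS.dep s3 s1 c a h3 h1 (by omega) (by omega) hs3 (by
          rw [add_comm, hs3]; exact hsum)
        rw [LCg hS mv a b c r2 r3 t hm hba (by omega) ht ha']
        rw [← eb'] at hb' ⊢
        have e1 := mv.c a b' c (c + t • a) t 0 (by rw [zero_smul, add_zero]) (by omega) (by omega)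
        have e2 := mv.b a b (c + t • a) b' (s1 - s3 * t) s3 (by
          rw [eb', smul_add, sub_smul, mul_smul]; abel) (by omega) (by omega)
        rw [e1, e2]

theorem LC (hS : Sized R M sz) {m : ℕ} (mv : Mv R sz K m) (a b c : M) (r2 r3 s1 s3 : R)
    (hm : sz a + sz b + sz c ≤ m)
    (ha' : sz (a + r2 • b + r3 • c) < sz a) (hb' : sz (b + s1 • a + s3 • c) < sz b) :
    D R sz K (a + r2 • b + r3 • c) b c ↔ D R sz K a (b + s1 • a + s3 • c) c := by
  rcases le_total (sz b) (sz a) with h | h
  · exact LC0 hS mv a b c r2 r3 s1 s3 hm h ha' hb'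
  · have := LC0 hS mv b a c s1 s3 r2 r3 (by omega) h hb' ha'
    constructor
    · intro x; exact (this.2 x.sw1).sw1
    · intro x; exact (this.1 x.sw1).sw1

/-- All decreasing neighbours are good. -/
structure All (R : Type) {M : Type} [Ring R] [AddCommGroup M] [Module R M] (sz : M → ℕ)
    (K : M → M → M → Prop) (a b c : M) : Prop where
  ha : ∀ r s : R, sz (a + r • b + s • c) < sz a → D R sz K (a + r • b + s • c) b c
  hb : ∀ r s : R, sz (b + r • a + s • c) < sz b → D R sz K a (b + r • a + s • c) c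
  hc : ∀ r s : R, sz (c + r • a + s • b) < sz c → D R sz K a b (c + r • a + s • b)

theorem All.sw1 {a b c : M} (h : All R sz K a b c) : All R sz K b a c where
  ha r s hlt := (h.hb r s hlt).sw1
  hb r s hlt := (h.ha r s hlt).sw1
  hc r s hlt := by
    rw [add_right_comm] at hlt ⊢
    exact (h.hc s r hlt).sw1

theorem All.sw2 {a b c : M} (h : All R sz K a b c) : All R sz K a c b where
  ha r s hlt := by
    rw [add_right_comm] at hlt ⊢
    exact (h.ha s r hlt).sw2
  hb r s hlt := (h.hc r s hlt).sw2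
  hc r s hlt := (h.hb r s hlt).sw2

theorem allOfA (hS : Sized R M sz) {m : ℕ} (mv : Mv R sz K m) (a b c : M) (r s : R)
    (hm : sz a + sz b + sz c ≤ m) (h1 : sz (a + r • b + s • c) < sz a)
    (h2 : D R sz K (a + r • b + s • c) b c) : All R sz K a b c where
  ha r' s' hlt := by
    have e := mv (a + r • b + s • c) b c (a + r' • b + s' • c) (r' - r) (s' - s)
      (by rw [sub_smul, sub_smul]; abel) (by omega) (by omega)
    exact e.1 h2
  hb r' s' hlt := (LC hS mv a b c r s r' s' hm h1 hlt).1 h2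
  hc r' s' hlt := by
    have h1' : sz (a + s • c + r • b) < sz a := by rw [add_right_comm]; exact h1
    have h2' : D R sz K (a + s • c + r • b) c b := by rw [add_right_comm]; exact h2.sw2
    exact ((LC hS mv a c b s r r' s' (by omega) h1' hlt).1 h2').sw2

theorem D.stepB {a b c : M} (r s : R) (h1 : sz (b + r • a + s • c) < sz b)
    (h2 : D R sz K a (b + r • a + s • c) c) : D R sz K a b c :=
  (D.step r s h1 h2.sw1).sw1

theorem D.stepC {a b c : M} (r s : R) (h1 : sz (c + r • a + s • b) < sz c)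
    (h2 : D R sz K a b (c + r • a + s • b)) : D R sz K a b c :=
  (D.stepB r s h1 h2.sw2).sw2

theorem FLg (hS : Sized R M sz) {m : ℕ} (mv : Mv R sz K m) (a b c : M) (r2 r3 : R)
    (hm : sz a + sz b + sz c ≤ m) (hall : All R sz K a b c)
    (ha' : sz (a + r2 • b + r3 • c) = sz a) (hb0 : sz b ≠ 0) (hc0 : sz c ≠ 0)
    (h2 : r2 ≠ 0) (h3 : r3 ≠ 0) (hsum : sz (r2 • b + r3 • c) < sz (r2 • b)) :
    D R sz K (a + r2 • b + r3 • c) b c := by
  have hs3 := hS.cancel _ _ hsum
  obtain ⟨a', ea'⟩ : ∃ a', a' = a + r2 • b + r3 • c := ⟨_, rfl⟩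
  rw [← ea'] at ha' ⊢
  rcases le_total (sz c) (sz b) with hcb | hbc
  · obtain ⟨t, ht⟩ := hS.dep r2 r3 b c h2 h3 hc0 hcb hs3.symm hsum
    have e0 : b + (0 : R) • a + t • c = b + t • c := by rw [zero_smul, add_zero]
    have d1 := hall.hb 0 t (by rw [e0]; exact ht)
    rw [e0] at d1
    have e1 := mv a (b + t • c) c a' r2 (r3 - r2 * t) (by
      rw [ea', smul_add, sub_smul, mul_smul]; abel) (by omega) (by omega)
    have d2 := e1.1 d1
    have e0' : b + (0 : R) • a' + t • c = b + t • c := by rw [zero_smul, add_zero]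
    exact D.stepB (0 : R) t (by rw [e0']; exact ht) (by rw [e0']; exact d2)
  · obtain ⟨t, ht⟩ := hS.dep r3 r2 c b h3 h2 hb0 hbc hs3 (by rw [add_comm, hs3]; exact hsum)
    have e0 : c + (0 : R) • a + t • b = c + t • b := by rw [zero_smul, add_zero]
    have d1 := hall.hc 0 t (by rw [e0]; exact ht)
    rw [e0] at d1
    have e1 := mv a b (c + t • b) a' (r2 - r3 * t) r3 (by
      rw [ea', smul_add, sub_smul, mul_smul]; abel) (by omega) (by omega)
    have d2 := e1.1 d1
    have e0' : c + (0 : R) • a' + t • b = c + t • b := by rw [zero_smul, add_zero]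
    exact D.stepC (0 : R) t (by rw [e0']; exact ht) (by rw [e0']; exact d2)

theorem FL1 (hS : Sized R M sz) {m : ℕ} (mv : Mv R sz K m) (a b c : M) (r2 r3 s3 : R)
    (hm : sz a + sz b + sz c ≤ m) (hall : All R sz K a b c)
    (ha' : sz (a + r2 • b + r3 • c) = sz a) (hb' : sz (b + s3 • c) < sz b) :
    D R sz K (a + r2 • b + r3 • c) b c := by
  obtain ⟨a', ea'⟩ : ∃ a', a' = a + r2 • b + r3 • c := ⟨_, rfl⟩
  rw [← ea'] at ha' ⊢
  have e0 : b + (0 : R) • a + s3 • c = b + s3 • c := by rw [zero_smul, add_zero]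
  have d1 := hall.hb 0 s3 (by rw [e0]; exact hb')
  rw [e0] at d1
  have e1 := mv a (b + s3 • c) c a' r2 (r3 - r2 * s3) (by
      rw [ea', smul_add, sub_smul, mul_smul]; abel) (by omega) (by omega)
  have d2 := e1.1 d1
  have e0' : b + (0 : R) • a' + s3 • c = b + s3 • c := by rw [zero_smul, add_zero]
  exact D.stepB (0 : R) s3 (by rw [e0']; exact hb') (by rw [e0']; exact d2)

theorem FL (hS : Sized R M sz) {m : ℕ} (mv : Mv R sz K m) (a b c : M) (r2 r3 s1 s3 : R)
    (hm : sz a + sz b + sz c ≤ m) (hall : All R sz K a b c)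
    (ha' : sz (a + r2 • b + r3 • c) = sz a) (hb' : sz (b + s1 • a + s3 • c) < sz b) :
    D R sz K (a + r2 • b + r3 • c) b c := by
  by_cases h1 : s1 = 0
  · subst h1
    rw [zero_smul, add_zero] at hb'
    exact FL1 hS mv a b c r2 r3 s3 hm hall ha' hb'
  by_cases ha0 : sz a = 0
  · refine FL1 hS mv a b c r2 r3 s3 hm hall ha' ?_
    have h0 := hS.smul0 s1 a ha0
    have := hS.add (b + s1 • a + s3 • c) (-(s1 • a))
    have e : b + s1 • a + s3 • c + -(s1 • a) = b + s3 • c := by abel
    rw [e, hS.neg] at this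
    omega
  obtain ⟨J1, hJ10, hJ1, -⟩ := hS.deg s1 h1
  have hs1 := hJ1 a ha0
  by_cases h2 : r2 = 0
  · subst h2
    obtain ⟨a', ea'⟩ : ∃ a', a' = a + (0 : R) • b + r3 • c := ⟨_, rfl⟩
    rw [← ea'] at ha' ⊢
    rw [zero_smul, add_zero] at ea'
    have d1 := hall.hb s1 s3 hb'
    obtain ⟨b', eb'⟩ : ∃ b', b' = b + s1 • a + s3 • c := ⟨_, rfl⟩
    rw [← eb'] at hb' d1
    have e1 := mv a b' c a' 0 r3 (by rw [ea', zero_smul, add_zero]) (by omega) (by omega)
    have d2 := e1.1 d1
    have e0 : b + s1 • a' + (s3 - s1 * r3) • c = b' := by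
      rw [ea', eb', smul_add, sub_smul, mul_smul]; abel
    exact D.stepB s1 (s3 - s1 * r3) (by rw [e0]; exact hb') (by rw [e0]; exact d2)
  obtain ⟨J2, hJ20, hJ2, -⟩ := hS.deg r2 h2
  have hb0 : sz b ≠ 0 := by omega
  have hs2 := hJ2 b hb0
  have hdiff : sz (r2 • b + r3 • c) ≤ sz a := by
    have : r2 • b + r3 • c = (a + r2 • b + r3 • c) + -a := by abel
    rw [this, hS.neg]
    have := hS.add (a + r2 • b + r3 • c) a
    omega
  by_cases hle : sz (s1 • a) ≤ sz b
  · by_cases hle2 : sz (r2 • b) ≤ sz a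
    · have hJ : J1 = 0 := by omega
      have hs : s1 = 1 := hJ10 hJ
      subst hs
      have e0 : a + (1 : R) • b + s3 • c = b + (1 : R) • a + s3 • c := by
        rw [one_smul, one_smul, add_comm a b]
      have d1 := hall.ha 1 s3 (by rw [e0]; omega)
      refine D.step (1 - r2) (s3 - r3) ?_ ?_
      · have e : a + r2 • b + r3 • c + (1 - r2) • b + (s3 - r3) • c
            = a + (1 : R) • b + s3 • c := by
          rw [sub_smul, sub_smul]; abel
        rw [e, e0]; omega
      · have e : a + r2 • b + r3 • c + (1 - r2) • b + (s3 - r3) • c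
            = a + (1 : R) • b + s3 • c := by
          rw [sub_smul, sub_smul]; abel
        rw [e]; exact d1
    · have hsum : sz (r2 • b + r3 • c) < sz (r2 • b) := by omega
      have hs3 := hS.cancel _ _ hsum
      have hc0 : sz c ≠ 0 := by
        intro h0
        have := hS.smul0 r3 c h0
        omega
      have h3 : r3 ≠ 0 := by
        rintro rfl
        rw [zero_smul, hS.zero] at hs3
        omega
      exact FLg hS mv a b c r2 r3 hm hall ha' hb0 hc0 h2 h3 hsum
  · have hsum : sz (s1 • a + s3 • c) < sz (s1 • a) := by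
      have : s1 • a + s3 • c = (b + s1 • a + s3 • c) + -b := by abel
      rw [this, hS.neg]
      have := hS.add (b + s1 • a + s3 • c) b
      omega
    have hs3 := hS.cancel _ _ hsum
    have hc0 : sz c ≠ 0 := by
      intro h0
      have := hS.smul0 s3 c h0
      omega
    have h3 : s3 ≠ 0 := by
      rintro rfl
      rw [zero_smul, hS.zero] at hs3
      omega
    by_cases hca : sz c ≤ sz a
    · obtain ⟨t, ht⟩ := hS.dep s1 s3 a c h1 h3 hc0 hca hs3.symm hsum
      have e0 : a + (0 : R) • b + t • c = a + t • c := by rw [zero_smul, add_zero]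
      have d1 := hall.ha 0 t (by rw [e0]; exact ht)
      rw [e0] at d1
      have e1 : a + r2 • b + r3 • c + (-r2) • b + (t - r3) • c = a + t • c := by
        rw [neg_smul, sub_smul]; abel
      exact D.step (-r2) (t - r3) (by rw [e1]; omega) (by rw [e1]; exact d1)
    · obtain ⟨t, ht⟩ := hS.dep s3 s1 c a h3 h1 ha0 (by omega) hs3 (by
          rw [add_comm, hs3]; exact hsum)
      have e0 : c + t • a + (0 : R) • b = c + t • a := by rw [zero_smul, add_zero]
      have d1 := hall.hc t 0 (by rw [e0]; exact ht)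
      rw [e0] at d1
      by_cases hr3 : r3 = 0
      · subst hr3
        obtain ⟨a', ea'⟩ : ∃ a', a' = a + r2 • b + (0 : R) • c := ⟨_, rfl⟩
        rw [← ea'] at ha' ⊢
        rw [zero_smul, add_zero] at ea'
        have e1 := mv a b (c + t • a) a' r2 0 (by rw [ea', zero_smul, add_zero])
          (by omega) (by omega)
        have d2 := e1.1 d1
        have e2 : c + t • a' + (-(t * r2)) • b = c + t • a := by
          rw [ea', smul_add, neg_smul, mul_smul]; abel
        exact D.stepC t (-(t * r2)) (by rw [e2]; exact ht) (by rw [e2]; exact d2)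
      · obtain ⟨J3, -, hJ3, -⟩ := hS.deg r3 hr3
        have hs3c := hJ3 c hc0
        have hsum2 : sz (r3 • c + r2 • b) < sz (r3 • c) := by
          rw [add_comm]; omega
        have hh := hS.cancel _ _ hsum2
        exact FLg hS mv a b c r2 r3 hm hall ha' hb0 hc0 h2 hr3 (by
          rw [add_comm, hh]; exact hsum2)

/-- The triple is reduced of size `q`. -/
structure Red (sz : M → ℕ) (q : ℕ) (a b c : M) : Prop where
  ha : sz a = q
  hb : sz b = q
  hc : sz c = q
  hab : sz (a + b) = q
  hac : sz (a + c) = q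
  hbc : sz (b + c) = q
  habc : sz (a + b + c) = q

theorem Red.sw1 {q : ℕ} {a b c : M} (h : Red sz q a b c) : Red sz q b a c :=
  ⟨h.hb, h.ha, h.hc, by rw [add_comm]; exact h.hab, h.hbc, h.hac, by rw [add_comm b a]; exact h.habc⟩

theorem Red.sw2 {q : ℕ} {a b c : M} (h : Red sz q a b c) : Red sz q a c b :=
  ⟨h.ha, h.hc, h.hb, h.hac, h.hab, by rw [add_comm]; exact h.hbc, by rw [add_right_comm]; exact h.habc⟩

theorem Red.scal (hS : Sized R M sz) {q : ℕ} (hq : q ≠ 0) {a b c : M} (h : Red sz q a b c)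
    (r s : R) (hle : sz (a + r • b + s • c) ≤ q) : (r = 0 ∨ r = 1) ∧ (s = 0 ∨ s = 1) := by
  have hdiff : sz (r • b + s • c) ≤ q := by
    have : r • b + s • c = (a + r • b + s • c) + -a := by abel
    rw [this, hS.neg]
    have := hS.add (a + r • b + s • c) a
    have := h.ha
    omega
  have hb := h.hb
  have hc := h.hc
  by_cases hr : r = 0
  · subst hr
    refine ⟨Or.inl rfl, ?_⟩
    by_cases hs : s = 0
    · exact Or.inl hs
    · obtain ⟨J, hJ0, hJ, -⟩ := hS.deg s hs
      have := hJ c (by omega)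
      rw [zero_smul, zero_add] at hdiff
      exact Or.inr (hJ0 (by omega))
  · obtain ⟨J, hJ0, hJ, -⟩ := hS.deg r hr
    have h1 := hJ b (by omega)
    by_cases hs : s = 0
    · subst hs
      rw [zero_smul, add_zero] at hdiff
      exact ⟨Or.inr (hJ0 (by omega)), Or.inl rfl⟩
    · obtain ⟨J', hJ0', hJ', -⟩ := hS.deg s hs
      have h2 := hJ' c (by omega)
      by_cases hJz : J = 0
      · by_cases hJz' : J' = 0
        · exact ⟨Or.inr (hJ0 hJz), Or.inr (hJ0' hJz')⟩
        · exfalso
          have := hS.cancel (s • c) (r • b) (by rw [add_comm]; omega)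
          omega
      · exfalso
        have hc1 := hS.cancel (r • b) (s • c) (by omega)
        obtain ⟨t, ht⟩ := hS.dep r s b c hr hs (by omega) (by omega) hc1.symm (by omega)
        by_cases ht0 : t = 0
        · rw [ht0, zero_smul, add_zero] at ht
          omega
        · obtain ⟨J'', hJ0'', hJ'', -⟩ := hS.deg t ht0
          have h3 := hJ'' c (by omega)
          by_cases hz : J'' = 0
          · rw [hJ0'' hz, one_smul, h.hbc] at ht
            omega
          · have h4 := hS.cancel (t • c) b (by rw [add_comm]; omega)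
            omega

theorem Red.not_lt (hS : Sized R M sz) {q : ℕ} (hq : q ≠ 0) {a b c : M} (h : Red sz q a b c)
    (r s : R) : ¬ sz (a + r • b + s • c) < sz a := by
  intro hlt
  rw [h.ha] at hlt
  obtain ⟨hr, hs⟩ := h.scal hS hq r s hlt.le
  have h1 := h.ha
  have h2 := h.hab
  have h3 := h.hac
  have h4 := h.habc
  rcases hr with rfl | rfl <;> rcases hs with rfl | rfl <;>
    simp only [zero_smul, one_smul, add_zero] at hlt <;> omega

/-- Main invariance theorem. -/
theorem move (hS : Sized R M sz) (hK1 : ∀ a b c, K a b c → K b a c)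
    (hK2 : ∀ a b c, K a b c → K a c b) (hK3 : ∀ a b c, K a b c → K (a + b) b c)
    {q : ℕ} (hq : q ≠ 0) (hK4 : ∀ a b c, K a b c → Red sz q a b c) (m : ℕ) :
    ∀ (a b c : M) (r s : R), sz a + sz b + sz c ≤ m → sz (a + r • b + s • c) + sz b + sz c ≤ m →
      D R sz K a b c → D R sz K (a + r • b + s • c) b c := by
  induction m using Nat.strong_induction_on with
  | _ m ih =>
    have mv : Mv R sz K m := by
      intro a b c a' r s e h1 h2
      constructor
      · intro hd
        rw [e] at h2 ⊢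
        exact ih (max (sz a + sz b + sz c) (sz (a + r • b + s • c) + sz b + sz c)) (by omega)
          a b c r s (by omega) (by omega) hd
      · intro hd
        have e' : a' + (-r) • b + (-s) • c = a := by
          rw [e, neg_smul, neg_smul]; abel
        have := ih (max (sz a + sz b + sz c) (sz a' + sz b + sz c)) (by omega)
          a' b c (-r) (-s) (by omega) (by rw [e']; omega) hd
        rwa [e'] at this
    intro a b c r s h1 h2 hd
    rcases lt_trichotomy (sz a) (sz (a + r • b + s • c)) with hlt | heq | hgt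
    · refine D.step (-r) (-s) ?_ ?_
      · have e' : a + r • b + s • c + (-r) • b + (-s) • c = a := by
          rw [neg_smul, neg_smul]; abel
        rw [e']; exact hlt
      · have e' : a + r • b + s • c + (-r) • b + (-s) • c = a := by
          rw [neg_smul, neg_smul]; abel
        rw [e']; exact hd
    · rcases hd.inv hK1 hK2 with hk | ⟨r', s', h3, h4⟩ | ⟨r', s', h3, h4⟩ | ⟨r', s', h3, h4⟩
      · have hred := hK4 _ _ _ hk
        obtain ⟨hr, hs⟩ := hred.scal hS hq r s (by rw [← heq, hred.ha])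
        apply D.base
        have hac : ∀ x y z, K x y z → K (x + z) y z := fun x y z hxyz =>
          hK2 _ _ _ (hK3 _ _ _ (hK2 _ _ _ hxyz))
        rcases hr with rfl | rfl <;> rcases hs with rfl | rfl <;>
          simp only [zero_smul, one_smul, add_zero]
        · exact hk
        · exact hac _ _ _ hk
        · exact hK3 _ _ _ hk
        · exact hac _ _ _ (hK3 _ _ _ hk)
      · refine D.step (r' - r) (s' - s) ?_ ?_
        · have e' : a + r • b + s • c + (r' - r) • b + (s' - s) • c = a + r' • b + s' • c := by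
            rw [sub_smul, sub_smul]; abel
          rw [e', ← heq]; exact h3
        · have e' : a + r • b + s • c + (r' - r) • b + (s' - s) • c = a + r' • b + s' • c := by
            rw [sub_smul, sub_smul]; abel
          rw [e']; exact h4
      · have hall : All R sz K a b c :=
          (allOfA hS mv b a c r' s' (by omega) h3 h4.sw1).sw1
        exact FL hS mv a b c r s r' s' h1 hall heq.symm h3
      · have hall : All R sz K a b c :=
          ((allOfA hS mv c a b r' s' (by omega) h3 (h4.sw2.sw1)).sw1).sw2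
        have h5 : sz (a + s • c + r • b) = sz a := by rw [add_right_comm]; exact heq.symm
        have := FL hS mv a c b s r r' s' (by omega) hall.sw2 h5 h3
        rw [add_right_comm] at this
        exact this.sw2
    · rcases hd.inv hK1 hK2 with hk | ⟨r', s', h3, h4⟩ | ⟨r', s', h3, h4⟩ | ⟨r', s', h3, h4⟩
      · exact absurd hgt ((hK4 _ _ _ hk).not_lt hS hq r s)
      · exact (allOfA hS mv a b c r' s' h1 h3 h4).ha r s hgt
      · exact ((allOfA hS mv b a c r' s' (by omega) h3 h4.sw1).sw1).ha r s hgt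
      · exact (((allOfA hS mv c a b r' s' (by omega) h3 (h4.sw2.sw1)).sw1).sw2).ha r s hgt

/-- A good triple that is reduced of some positive size is a base triple. -/
theorem D.base_of_red (hS : Sized R M sz) (hK1 : ∀ a b c, K a b c → K b a c)
    (hK2 : ∀ a b c, K a b c → K a c b) {q : ℕ} (hq : q ≠ 0) {a b c : M}
    (h : D R sz K a b c) (hr : Red sz q a b c) : K a b c := by
  rcases h.inv hK1 hK2 with hk | ⟨r', s', h3, h4⟩ | ⟨r', s', h3, h4⟩ | ⟨r', s', h3, h4⟩
  · exact hk
  · exact absurd h3 (hr.not_lt hS hq r' s')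
  · exact absurd h3 (hr.sw1.not_lt hS hq r' s')
  · exact absurd h3 ((hr.sw2.sw1).not_lt hS hq r' s')

end

end Pk

namespace Gs

abbrev k := ZMod 2
abbrev Bet := {p : Fin 2 × Fin 2 // p ≠ (1, 1)}
abbrev Alp := {p : Fin 3 × Fin 3 // p ≠ (2, 2)}

/-- Words. -/
inductive Tl : Type
  | base : Fin 2 → Tl
  | cons : Bet → Alp → Tl → Tl

def Tl.len : Tl → ℕ
  | .base _ => 1
  | .cons _ _ t => t.len + 1

theorem Tl.len_pos (t : Tl) : 0 < t.len := by
  cases t <;> simp [Tl.len]

abbrev U := Tl → k
abbrev VP := Fin 3 → U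
abbrev VV := Fin 3 → VP
abbrev VQ := k × (Fin 2 → Alp → U)
abbrev ZZ := Fin 2 → VQ

theorem ksum (a : k) : a + a = 0 := by
  revert a; decide

theorem k01 (a : k) : a = 0 ∨ a = 1 := by
  revert a; decide

/-- Forward map. -/
def fwd (w : VV) : ZZ := fun b =>
  (w 2 2 (.base b), fun b' α t =>
    (if b = b' then w α.1.1 α.1.2 t + (if α.1.1 = α.1.2 then w 2 2 t else 0) else 0) +
    (if h : (b, b') ≠ (1, 1) then w 2 2 (.cons ⟨(b, b'), h⟩ α t) else 0))

/-- The scalar part of the inverse map. -/
def u0 (y : ZZ) : U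
  | .base a => (y a).1
  | .cons β α t => (y β.1.1).2 β.1.2 α t + (if β.1.1 = β.1.2 then (y 1).2 1 α t else 0)

/-- Backward map. -/
def bwd (y : ZZ) : VV := fun i l t =>
  (if h : (i, l) ≠ (2, 2) then (y 1).2 1 ⟨(i, l), h⟩ t else 0) + (if i = l then u0 y t else 0)

theorem fwd_add (w w' : VV) : fwd (w + w') = fwd w + fwd w' := by
  funext b
  refine Prod.ext ?_ ?_
  · simp [fwd]
  · funext b' α t
    simp only [fwd, Pi.add_apply, Prod.snd_add]
    split_ifs <;> ring

theorem fwd_smul (c : k) (w : VV) : fwd (c • w) = c • fwd w := by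
  funext b
  refine Prod.ext ?_ ?_
  · simp [fwd]
  · funext b' α t
    simp only [fwd, Pi.smul_apply, Prod.smul_snd, smul_eq_mul]
    split_ifs <;> ring

theorem u0_fwd (w : VV) : u0 (fwd w) = w 2 2 := by
  funext t
  cases t with
  | base a => rfl
  | cons β α t =>
    obtain ⟨⟨b, b'⟩, hb⟩ := β
    simp only [u0, fwd]
    rw [dif_pos hb]
    simp only [ne_eq, not_true_eq_false, dite_false, if_true]
    by_cases h : b = b'
    · simp only [h, if_true]
      have := ksum (w α.1.1 α.1.2 t + (if α.1.1 = α.1.2 then w 2 2 t else 0))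
      linear_combination this
    · simp only [h, if_false]
      ring

theorem bwd_fwd (w : VV) : bwd (fwd w) = w := by
  funext i l t
  simp only [bwd, u0_fwd]
  by_cases h : (i, l) ≠ (2, 2)
  · rw [dif_pos h]
    simp only [fwd, if_true, ne_eq, not_true_eq_false, dite_false]
    by_cases hil : i = l
    · simp only [hil, if_true]
      have := ksum (w 2 2 t)
      linear_combination this
    · simp only [hil, if_false]
      ring
  · rw [dif_neg h]
    have h' : i = 2 ∧ l = 2 := by
      have := not_not.1 h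
      simpa [Prod.ext_iff] using this
    obtain ⟨rfl, rfl⟩ := h'
    simp

theorem fwd_bwd (y : ZZ) : fwd (bwd y) = y := by
  have h22 : bwd y 2 2 = u0 y := by
    funext t
    simp [bwd]
  funext b
  refine Prod.ext ?_ ?_
  · simp only [fwd]
    rw [h22]
    rfl
  · funext b' α t
    obtain ⟨⟨j, l⟩, hα⟩ := α
    simp only [fwd]
    rw [h22]
    have hb : bwd y j l t = (y 1).2 1 ⟨(j, l), hα⟩ t + (if j = l then u0 y t else 0) := by
      simp only [bwd]
      rw [dif_pos hα]
    rw [hb]
    have e : (y 1).2 1 ⟨(j, l), hα⟩ t + (if j = l then u0 y t else 0) +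
        (if j = l then u0 y t else 0) = (y 1).2 1 ⟨(j, l), hα⟩ t := by
      split_ifs
      · have := ksum (u0 y t)
        linear_combination this
      · ring
    rw [e]
    by_cases hbb : (b, b') ≠ (1, 1)
    · rw [dif_pos hbb]
      simp only [u0]
      by_cases h2 : b = b'
      · simp only [h2, if_true]
        have := ksum ((y 1).2 1 ⟨(j, l), hα⟩ t)
        linear_combination this
      · simp only [h2, if_false]
        ring
    · rw [dif_neg hbb]
      have h' : b = 1 ∧ b' = 1 := by
        have := not_not.1 hbb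
        simpa [Prod.ext_iff] using this
      obtain ⟨rfl, rfl⟩ := h'
      simp

/-- The linear equivalence. -/
def Psi : VV ≃ₗ[k] ZZ where
  toFun := fwd
  invFun := bwd
  map_add' := fwd_add
  map_smul' := fwd_smul
  left_inv := bwd_fwd
  right_inv := fwd_bwd

/-- Matrix units on `ZZ`. -/
def E (β : Fin 2 × Fin 2) : ZZ →ₗ[k] ZZ where
  toFun y := fun b => if b = β.1 then y β.2 else 0
  map_add' y y' := by
    funext b
    simp only [Pi.add_apply]
    split_ifs
    · rfl
    · simp
  map_smul' c y := by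
    funext b
    simp only [Pi.smul_apply, RingHom.id_apply]
    split_ifs
    · rfl
    · simp

def X (β : Fin 2 × Fin 2) : Module.End k VV :=
  Psi.symm.toLinearMap ∘ₗ E β ∘ₗ Psi.toLinearMap

theorem E_mul (β γ : Fin 2 × Fin 2) (y : ZZ) :
    E β (E γ y) = if β.2 = γ.1 then E (β.1, γ.2) y else 0 := by
  funext b
  by_cases h : β.2 = γ.1
  · simp only [h, if_true, E, LinearMap.coe_mk, AddHom.coe_mk]
  · simp only [h, if_false, E, LinearMap.coe_mk, AddHom.coe_mk]
    split_ifs <;> rfl

theorem X_apply (β : Fin 2 × Fin 2) (w : VV) : X β w = bwd (E β (fwd w)) := rfl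

theorem X_mul (β γ : Fin 2 × Fin 2) : X β * X γ = if β.2 = γ.1 then X (β.1, γ.2) else 0 := by
  apply LinearMap.ext
  intro w
  change X β (X γ w) = _
  rw [X_apply, X_apply, fwd_bwd, E_mul]
  split_ifs
  · rfl
  · change Psi.symm 0 = 0
    exact map_zero _

theorem X_sum : X (0, 0) + X (1, 1) = 1 := by
  apply LinearMap.ext
  intro w
  change bwd (E (0, 0) (fwd w)) + bwd (E (1, 1) (fwd w)) = w
  have h1 : ∀ y y' : ZZ, bwd y + bwd y' = bwd (y + y') := fun y y' => (map_add Psi.symm y y').symm
  rw [h1]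
  have : E (0, 0) (fwd w) + E (1, 1) (fwd w) = fwd w := by
    funext b
    fin_cases b <;> simp [E]
  rw [this, bwd_fwd]

/-- Matrix of endomorphisms attached to `X β`. -/
def Mx (β : Fin 2 × Fin 2) : Matrix (Fin 3) (Fin 3) (Module.End k VP) :=
  endVecRingEquivMatrixEnd (Fin 3) k VP (X β)

theorem Mx_apply (β : Fin 2 × Fin 2) (i j : Fin 3) (v : VP) :
    Mx β i j v = X β (Pi.single j v) i := rfl

theorem Mx_mul (β γ : Fin 2 × Fin 2) : Mx β * Mx γ = if β.2 = γ.1 then Mx (β.1, γ.2) else 0 := by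
  unfold Mx
  rw [← map_mul, X_mul]
  split_ifs
  · rfl
  · exact map_zero _

theorem Mx_sum : Mx (0, 0) + Mx (1, 1) = 1 := by
  unfold Mx
  rw [← map_add, X_sum, map_one]

/-- Size filtration. -/
def Bd (d : ℕ) (v : VP) : Prop := ∀ l t, d < Tl.len t → v l t = 0

theorem Bd.mono {d d' : ℕ} {v : VP} (h : Bd d v) (hd : d ≤ d') : Bd d' v :=
  fun l t ht => h l t (by omega)

theorem Bd.add {d : ℕ} {v w : VP} (h : Bd d v) (h' : Bd d w) : Bd d (v + w) :=
  fun l t ht => by rw [Pi.add_apply, Pi.add_apply, h l t ht, h' l t ht, add_zero]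

theorem Bd.zero (d : ℕ) : Bd d 0 := fun _ _ _ => rfl

/-- Heads of words. -/
inductive Hd : Type
  | one : Bet → Hd
  | cons : Bet → Alp → Hd → Hd
deriving DecidableEq

/-- number of letters of a head minus one -/
def Hd.len : Hd → ℕ
  | .one _ => 0
  | .cons _ _ h => h.len + 1

def glue : Hd → Alp → Tl → Tl
  | .one β, α, t => .cons β α t
  | .cons β' α' h, α, t => .cons β' α' (glue h α t)

theorem glue_len (h : Hd) (α : Alp) (t : Tl) : (glue h α t).len = h.len + 1 + t.len := by
  induction h with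
  | one β => simp [glue, Hd.len, Tl.len]; omega
  | cons β' α' h ih => simp only [glue, Hd.len, Tl.len, ih]; omega

theorem exists_glue (n : ℕ) : ∀ s : Tl, n + 1 < s.len → ∃ h α t, Hd.len h = n ∧ s = glue h α t := by
  induction n with
  | zero =>
    intro s hs
    cases s with
    | base a => simp [Tl.len] at hs
    | cons β α t => exact ⟨.one β, α, t, rfl, rfl⟩
  | succ n ih =>
    intro s hs
    cases s with
    | base a => simp [Tl.len] at hs
    | cons β α t =>
      obtain ⟨h, α', t', h1, h2⟩ := ih t (by simp only [Tl.len] at hs; omega)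
      exact ⟨.cons β α h, α', t', by simp [Hd.len, h1], by simp [glue, h2]⟩

/-- `r` has degree at most `n + 1` with symbol `c`. -/
def Sym (n : ℕ) (c : Fin 3 → Hd → Fin 3 → k) (r : Module.End k VP) : Prop :=
  ∀ (d : ℕ) (v : VP), Bd d v → Bd (d + n + 1) (r v) ∧
    ∀ (m : Fin 3) (h : Hd) (α : Alp) (t : Tl), h.len = n → t.len = d →
      r v m (glue h α t) = c m h α.1.1 * v α.1.2 t +
        (if α.1.1 = α.1.2 then c m h 2 * v 2 t else 0)

theorem fwd_bd {d : ℕ} {w : VV} (hw : ∀ i, Bd d (w i)) (b b' : Fin 2) (α : Alp) (t : Tl)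
    (ht : d < t.len) : (fwd w b).2 b' α t = 0 := by
  have h1 := hw α.1.1 α.1.2 t ht
  have h2 := hw 2 2 t ht
  simp only [fwd, h1, h2]
  split_ifs with h3 h4
  · rw [hw 2 2 _ (by simp only [Tl.len]; omega)]; ring
  · ring
  · rw [hw 2 2 _ (by simp only [Tl.len]; omega)]; ring
  · ring
  · rw [hw 2 2 _ (by simp only [Tl.len]; omega)]; ring
  · ring

theorem E_bd {d : ℕ} {w : VV} (hw : ∀ i, Bd d (w i)) (β : Fin 2 × Fin 2) (b b' : Fin 2)
    (α : Alp) (t : Tl) (ht : d < t.len) : (E β (fwd w) b).2 b' α t = 0 := by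
  simp only [E, LinearMap.coe_mk, AddHom.coe_mk]
  split_ifs
  · exact fwd_bd hw _ _ _ _ ht
  · rfl

theorem X_bd {d : ℕ} {w : VV} (hw : ∀ i, Bd d (w i)) (β : Fin 2 × Fin 2) (i : Fin 3) :
    Bd (d + 1) (X β w i) := by
  intro l t ht
  rw [X_apply]
  simp only [bwd]
  have h1 : ∀ h : (i, l) ≠ (2, 2), (E β (fwd w) 1).2 1 ⟨(i, l), h⟩ t = 0 := fun h =>
    E_bd hw _ _ _ _ _ (by omega)
  have h2 : u0 (E β (fwd w)) t = 0 := by
    cases t with
    | base a => simp [Tl.len] at ht
    | cons β' α t =>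
      simp only [Tl.len] at ht
      simp only [u0]
      rw [E_bd hw _ _ _ _ _ (by omega), E_bd hw _ _ _ _ _ (by omega)]
      simp
  rw [h2]
  split_ifs
  · rw [h1]; ring
  · rw [h1]; ring
  · ring
  · ring

theorem X_top {d : ℕ} {w : VV} (hw : ∀ i, Bd d (w i)) (β : Bet) (i m : Fin 3) (β' : Bet)
    (α : Alp) (t : Tl) (ht : t.len = d) :
    X β.1 w i m (.cons β' α t) = if i = m then if β' = β then
      w α.1.1 α.1.2 t + (if α.1.1 = α.1.2 then w 2 2 t else 0) else 0 else 0 := by
  rw [X_apply]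
  simp only [bwd]
  have h1 : ∀ h : (i, m) ≠ (2, 2), (E β.1 (fwd w) 1).2 1 ⟨(i, m), h⟩ (.cons β' α t) = 0 :=
    fun h => E_bd hw _ _ _ _ _ (by simp only [Tl.len]; omega)
  have hf : ∀ b b' : Fin 2, (fwd w b).2 b' α t = if b = b' then
      w α.1.1 α.1.2 t + (if α.1.1 = α.1.2 then w 2 2 t else 0) else 0 := by
    intro b b'
    have hc : ∀ h : (b, b') ≠ (1, 1), w 2 2 (.cons ⟨(b, b'), h⟩ α t) = 0 := fun h =>
      hw 2 2 _ (by simp only [Tl.len]; omega)
    simp only [fwd, hc, dite_eq_ite, ite_self, add_zero]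
  have h2 : u0 (E β.1 (fwd w)) (.cons β' α t) = if β' = β then
      w α.1.1 α.1.2 t + (if α.1.1 = α.1.2 then w 2 2 t else 0) else 0 := by
    simp only [u0, E, LinearMap.coe_mk, AddHom.coe_mk]
    obtain ⟨⟨b1, b2⟩, hb⟩ := β
    obtain ⟨⟨c1, c2⟩, hc⟩ := β'
    obtain ⟨z, hz⟩ : ∃ z, z = w α.1.1 α.1.2 t + (if α.1.1 = α.1.2 then w 2 2 t else 0) := ⟨_, rfl⟩
    simp only [← hz] at hf ⊢
    simp only [Subtype.mk.injEq, Prod.mk.injEq]
    have e1 : (if c1 = b1 then fwd w b2 else 0).2 c2 α t = if c1 = b1 then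
        (if b2 = c2 then z else 0) else 0 := by
      split_ifs with h3 h4
      · rw [hf, if_pos h4]
      · rw [hf, if_neg h4]
      · rfl
    have e2 : (if (1 : Fin 2) = b1 then fwd w b2 else 0).2 1 α t = if (1 : Fin 2) = b1 then
        (if b2 = 1 then z else 0) else 0 := by
      split_ifs with h3 h4
      · rw [hf, if_pos h4]
      · rw [hf, if_neg h4]
      · rfl
    rw [e1, e2]
    have e3 : (if (1 : Fin 2) = b1 then (if b2 = 1 then z else 0) else 0) = 0 := by
      split_ifs with h3 h4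
      · exact absurd (by rw [← h3, h4]) hb
      · rfl
      · rfl
    rw [e3]
    by_cases h1 : c1 = b1
    · by_cases h2 : c2 = b2
      · simp [h1, h2]
      · simp [h1, h2, Ne.symm h2]
    · simp [h1]
  rw [h2]
  simp only [h1, dite_eq_ite, ite_self, zero_add]

theorem single_bd {d : ℕ} {v : VP} (hv : Bd d v) (j i : Fin 3) :
    Bd d ((Pi.single j v : VV) i) := by
  by_cases h : i = j
  · subst h; rw [Pi.single_eq_same]; exact hv
  · rw [Pi.single_eq_of_ne h]; exact Bd.zero d

theorem single_app (v : VP) (j i l : Fin 3) (t : Tl) :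
    (Pi.single j v : VV) i l t = if i = j then v l t else 0 := by
  by_cases h : i = j
  · subst h; rw [Pi.single_eq_same, if_pos rfl]
  · rw [Pi.single_eq_of_ne h, if_neg h]; rfl

theorem sym_x (β : Bet) (i j : Fin 3) :
    Sym 0 (fun m h j' => if m = i then if h = .one β then if j' = j then 1 else 0 else 0 else 0)
      (Mx β.1 i j) := by
  intro d v hv
  constructor
  · rw [Mx_apply]
    exact X_bd (fun i => single_bd hv j i) _ _
  · intro m h α t hh ht
    cases h with
    | cons β' α' h => simp [Hd.len] at hh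
    | one β' =>
      rw [Mx_apply]
      simp only [glue]
      rw [X_top (fun i => single_bd hv j i) _ _ _ _ _ _ ht]
      simp only [single_app, Hd.one.injEq, @eq_comm _ m i]
      by_cases h1 : i = m
      · by_cases h2 : β' = β
        · simp only [h1, h2, if_true]
          by_cases h3 : α.1.1 = j
          · by_cases h4 : α.1.1 = α.1.2
            · simp only [h3, if_true, one_mul]
              split_ifs <;> ring
            · simp only [h3, if_true, one_mul]
              split_ifs <;> ring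
          · simp only [h3, if_false]
            split_ifs <;> ring
        · simp only [h1, h2, if_true, if_false]
          split_ifs <;> ring
      · simp only [h1, if_false]
        split_ifs <;> ring

theorem Sym.congr {n : ℕ} {c c' : Fin 3 → Hd → Fin 3 → k} {r : Module.End k VP}
    (h : Sym n c r) (hc : ∀ m hd j, Hd.len hd = n → c m hd j = c' m hd j) : Sym n c' r := by
  intro d v hv
  refine ⟨(h d v hv).1, ?_⟩
  intro m hd α t hh ht
  rw [(h d v hv).2 m hd α t hh ht, hc m hd _ hh, hc m hd _ hh]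

theorem Sym.add {n : ℕ} {c c' : Fin 3 → Hd → Fin 3 → k} {r r' : Module.End k VP}
    (h : Sym n c r) (h' : Sym n c' r') : Sym n (fun m hd j => c m hd j + c' m hd j) (r + r') := by
  intro d v hv
  refine ⟨(h d v hv).1.add (h' d v hv).1, ?_⟩
  intro m hd α t hh ht
  have e1 := (h d v hv).2 m hd α t hh ht
  have e2 := (h' d v hv).2 m hd α t hh ht
  rw [LinearMap.add_apply, Pi.add_apply, Pi.add_apply, e1, e2]
  split_ifs <;> ring

theorem Sym.zero (n : ℕ) : Sym n (fun _ _ _ => 0) 0 := by
  intro d v hv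
  refine ⟨Bd.zero _, ?_⟩
  intro m hd α t hh ht
  simp

theorem Sym.smul {n : ℕ} {c : Fin 3 → Hd → Fin 3 → k} {r : Module.End k VP} (a : k)
    (h : Sym n c r) : Sym n (fun m hd j => a * c m hd j) (a • r) := by
  intro d v hv
  refine ⟨?_, ?_⟩
  · intro l t ht
    rw [LinearMap.smul_apply, Pi.smul_apply, Pi.smul_apply, (h d v hv).1 l t ht, smul_zero]
  · intro m hd α t hh ht
    rw [LinearMap.smul_apply, Pi.smul_apply, Pi.smul_apply, (h d v hv).2 m hd α t hh ht, smul_eq_mul]
    split_ifs <;> ring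

theorem Sym.sum {ι : Type} (S : Finset ι) {n : ℕ} {c : ι → Fin 3 → Hd → Fin 3 → k}
    {r : ι → Module.End k VP} (h : ∀ i ∈ S, Sym n (c i) (r i)) :
    Sym n (fun m hd j => ∑ i ∈ S, c i m hd j) (∑ i ∈ S, r i) := by
  classical
  induction S using Finset.induction_on with
  | empty => simpa using Sym.zero n
  | insert a S ha ih =>
    rw [Finset.sum_insert ha]
    have h1 := (h a (Finset.mem_insert_self _ _)).add
      (ih fun i hi => h i (Finset.mem_insert_of_mem hi))
    refine h1.congr ?_
    intro m hd j _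
    rw [Finset.sum_insert ha]

theorem Sym.mul_x {n : ℕ} {c : Fin 3 → Hd → Fin 3 → k} {r : Module.End k VP}
    (h : Sym n c r) (β : Bet) (i j : Fin 3) (c' : Fin 3 → Hd → Fin 3 → k)
    (hc' : ∀ m β' α' h' j'', Hd.len h' = n → c' m (.cons β' α' h') j'' =
      if m = i then if β' = β then (if α'.1.1 = j then c α'.1.2 h' j'' else 0) +
        (if α'.1.1 = α'.1.2 then if (2 : Fin 3) = j then c 2 h' j'' else 0 else 0) else 0 else 0) :
    Sym (n + 1) c' (Mx β.1 i j * r) := by
  intro d v hv
  have h1 := (h d v hv).1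
  have h2 := sym_x β i j (d + n + 1) (r v) h1
  refine ⟨h2.1.mono (by omega), ?_⟩
  intro m hd α t hh ht
  cases hd with
  | one β' => simp [Hd.len] at hh
  | cons β' α' h' =>
    have hh' : Hd.len h' = n := by simpa [Hd.len] using hh
    have h3 := h2.2 m (.one β') α' (glue h' α t) rfl (by rw [glue_len]; omega)
    have e : glue (.cons β' α' h') α t = glue (.one β') α' (glue h' α t) := rfl
    rw [e]
    change Mx β.1 i j (r v) m _ = _
    rw [h3, (h d v hv).2 _ h' α t hh' ht, (h d v hv).2 _ h' α t hh' ht, hc' _ _ _ _ _ hh',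
      hc' _ _ _ _ _ hh']
    simp only [Hd.one.injEq]
    by_cases c1 : m = i
    · by_cases c2 : β' = β
      · simp only [c1, c2, if_true]
        split_ifs <;> ring
      · simp only [c1, c2, if_true, if_false]
        split_ifs <;> ring
    · simp only [c1, if_false]
      split_ifs <;> ring

/-- Elements with prescribed symbol. -/
def A : ℕ → (Hd → Fin 3 → k) → Fin 3 → Module.End k VP
  | 0, c, m => ∑ β : Bet, ∑ j, c (.one β) j • Mx β.1 m j
  | n + 1, c, m => ∑ β : Bet, ∑ α : Alp, Mx β.1 m α.1.1 * A n (fun h => c (.cons β α h)) α.1.2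

theorem sym_A (n : ℕ) : ∀ (c : Hd → Fin 3 → k) (m : Fin 3),
    Sym n (fun m' h j => if m' = m then c h j else 0) (A n c m) := by
  induction n with
  | zero =>
    intro c m
    have h1 : Sym 0 _ (A 0 c m) := Sym.sum Finset.univ (fun β _ => Sym.sum Finset.univ
      (fun j _ => (sym_x β m j).smul (c (.one β) j)))
    refine h1.congr ?_
    intro m' hd j' hh
    cases hd with
    | cons β' α' h => simp [Hd.len] at hh
    | one β' =>
      by_cases c1 : m' = m
      · simp only [c1, if_true, Hd.one.injEq, mul_ite, mul_one, mul_zero]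
        simp
      · simp [c1]
  | succ n ih =>
    intro c m
    have h1 : Sym (n + 1) _ (A (n + 1) c m) := Sym.sum Finset.univ (fun β _ => Sym.sum Finset.univ
      (fun α _ => (ih (fun h => c (.cons β α h)) α.1.2).mul_x β m α.1.1
        (fun m' hd j'' => match hd with
          | .one _ => 0
          | .cons β' α' h' => if m' = m then if β' = β then if α' = α then
              c (.cons β α h') j'' else 0 else 0 else 0) (by
          intro m' β' α' h' j'' _
          obtain ⟨⟨a1, a2⟩, ha⟩ := α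
          obtain ⟨⟨b1, b2⟩, hb⟩ := α'
          simp only [Subtype.mk.injEq, Prod.mk.injEq]
          by_cases c1 : m' = m
          · by_cases c2 : β' = β
            · simp only [c1, c2, if_true]
              by_cases c3 : b1 = a1
              · by_cases c4 : b2 = a2
                · simp only [c3, c4, if_true, true_and]
                  by_cases c5 : (2 : Fin 3) = a1
                  · have c6 : ¬ a1 = a2 := fun h => ha (by rw [← h, ← c5])
                    simp [c5, c6]
                  · simp [c5]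
                · simp only [c3, c4, if_true, if_false, true_and]
                  by_cases c5 : (2 : Fin 3) = a1
                  · have c6 : ¬ a1 = a2 := fun h => ha (by rw [← h, ← c5])
                    simp [c5, c6]
                  · simp [c5]
              · simp only [c3, if_false, false_and]
                by_cases c5 : (2 : Fin 3) = a1
                · have c6 : ¬ a1 = a2 := fun h => ha (by rw [← h, ← c5])
                  simp [c5, c6]
                · simp [c5]
            · simp [c2]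
          · simp [c1])))
    refine h1.congr ?_
    intro m' hd j' hh
    cases hd with
    | one β' => simp [Hd.len] at hh
    | cons β' α' h' =>
      by_cases c1 : m' = m
      · simp [c1]
      · simp [c1]

theorem A_congr (n : ℕ) : ∀ (c c' : Hd → Fin 3 → k) (m : Fin 3),
    (∀ h j, Hd.len h = n → c h j = c' h j) → A n c m = A n c' m := by
  induction n with
  | zero =>
    intro c c' m h
    simp only [A]
    refine Finset.sum_congr rfl fun β _ => Finset.sum_congr rfl fun j _ => ?_
    rw [h (.one β) j rfl]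
  | succ n ih =>
    intro c c' m h
    simp only [A]
    refine Finset.sum_congr rfl fun β _ => Finset.sum_congr rfl fun α _ => ?_
    rw [ih _ (fun h => c' (.cons β α h)) α.1.2]
    intro h' j hh
    exact h _ _ (by simp [Hd.len, hh])

theorem A_zero (n : ℕ) : ∀ (m : Fin 3), A n (fun _ _ => 0) m = 0 := by
  induction n with
  | zero => intro m; simp [A]
  | succ n ih =>
    intro m
    simp only [A]
    refine Finset.sum_eq_zero fun β _ => Finset.sum_eq_zero fun α _ => ?_
    rw [ih, mul_zero]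

theorem A_add (n : ℕ) : ∀ (c c' : Hd → Fin 3 → k) (m : Fin 3),
    A n (fun h j => c h j + c' h j) m = A n c m + A n c' m := by
  induction n with
  | zero =>
    intro c c' m
    simp only [A, add_smul, Finset.sum_add_distrib]
  | succ n ih =>
    intro c c' m
    simp only [A, ih, mul_add, Finset.sum_add_distrib]

theorem A_smul (n : ℕ) : ∀ (a : k) (c : Hd → Fin 3 → k) (m : Fin 3),
    A n (fun h j => a * c h j) m = a • A n c m := by
  induction n with
  | zero =>
    intro a c m
    simp only [A, Finset.smul_sum, mul_smul]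
  | succ n ih =>
    intro a c m
    simp only [A, ih, Finset.smul_sum, Algebra.mul_smul_comm]

/-- The degree filtration. -/
def F : ℕ → Submodule k (Module.End k VP)
  | 0 => Submodule.span k {1}
  | n + 1 => F n ⊔ Submodule.span k {r | ∃ c m, r = A n c m}

theorem F_le (n : ℕ) : F n ≤ F (n + 1) := le_sup_left

theorem F_mono : Monotone F := monotone_nat_of_le_succ F_le

theorem A_mem (n : ℕ) (c : Hd → Fin 3 → k) (m : Fin 3) : A n c m ∈ F (n + 1) :=
  Submodule.mem_sup_right (Submodule.subset_span ⟨c, m, rfl⟩)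

theorem mul_normal (n : ℕ) (γ : Bet) (p q m : Fin 3) (h : (q, m) ≠ (2, 2))
    (c : Hd → Fin 3 → k) : Mx γ.1 p q * A n c m = A (n + 1) (fun hd j => match hd with
      | .one _ => 0
      | .cons β' α' h' => if β' = γ then if α' = ⟨(q, m), h⟩ then c h' j else 0 else 0) p := by
  simp only [A]
  rw [Finset.sum_eq_single γ]
  · rw [Finset.sum_eq_single (⟨(q, m), h⟩ : Alp)]
    · simp
    · intro α _ hα
      simp only [hα, if_true, if_false]
      rw [A_zero, mul_zero]
    · intro h; exact absurd (Finset.mem_univ _) h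
  · intro β _ hβ
    refine Finset.sum_eq_zero fun α _ => ?_
    simp only [hβ, if_false]
    rw [A_zero, mul_zero]
  · intro h; exact absurd (Finset.mem_univ _) h

theorem Mx_eq_A (β : Bet) (i j : Fin 3) : Mx β.1 i j = A 0 (fun hd j' => if hd = .one β then
    if j' = j then 1 else 0 else 0) i := by
  simp only [A]
  rw [Finset.sum_eq_single β]
  · rw [Finset.sum_eq_single j]
    · simp
    · intro j' _ hj
      simp [hj]
    · intro h; exact absurd (Finset.mem_univ _) h
  · intro β' _ hβ
    refine Finset.sum_eq_zero fun j' _ => ?_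
    simp [hβ]
  · intro h; exact absurd (Finset.mem_univ _) h

theorem Mx_one_one (i j : Fin 3) :
    Mx (1, 1) i j = (if i = j then 1 else 0) - Mx (0, 0) i j := by
  have := congrFun (congrFun Mx_sum i) j
  rw [Matrix.add_apply, Matrix.one_apply] at this
  rw [← this]
  abel

theorem Mx_mem (δ : Fin 2 × Fin 2) (i j : Fin 3) : Mx δ i j ∈ F 1 := by
  by_cases h : δ = (1, 1)
  · subst h
    rw [Mx_one_one]
    refine Submodule.sub_mem _ ?_ ?_
    · split_ifs
      · exact F_le 0 (Submodule.subset_span rfl)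
      · exact Submodule.zero_mem _
    · have := Mx_eq_A ⟨(0, 0), by decide⟩ i j
      rw [this]
      exact A_mem _ _ _
  · have := Mx_eq_A ⟨δ, h⟩ i j
    rw [this]
    exact A_mem _ _ _

theorem Mx_mul_mem (δ : Fin 2 × Fin 2) (p : Fin 3) (α : Alp) (n : ℕ) (c : Hd → Fin 3 → k) :
    Mx δ p α.1.1 * A n c α.1.2 ∈ F (n + 2) := by
  by_cases h : δ = (1, 1)
  · subst h
    rw [Mx_one_one, sub_mul]
    refine Submodule.sub_mem _ ?_ ?_
    · split_ifs
      · rw [one_mul]; exact F_le _ (A_mem _ _ _)
      · rw [zero_mul]; exact Submodule.zero_mem _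
    · have := mul_normal n ⟨(0, 0), by decide⟩ p α.1.1 α.1.2 α.2 c
      rw [this]
      exact A_mem _ _ _
  · have := mul_normal n ⟨δ, h⟩ p α.1.1 α.1.2 α.2 c
    rw [this]
    exact A_mem _ _ _

theorem MxMx_mem (γ β : Fin 2 × Fin 2) (p : Fin 3) (α : Alp) (n : ℕ) (c : Hd → Fin 3 → k) :
    (∑ s, Mx γ p s * Mx β s α.1.1) * A n c α.1.2 ∈ F (n + 2) := by
  have : (∑ s, Mx γ p s * Mx β s α.1.1) = (Mx γ * Mx β) p α.1.1 := by
    rw [Matrix.mul_apply]
  rw [this, Mx_mul]
  split_ifs
  · exact Mx_mul_mem _ _ _ _ _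
  · rw [Matrix.zero_apply, zero_mul]; exact Submodule.zero_mem _

theorem sumA_mem (γ : Fin 2 × Fin 2) (p : Fin 3) (n : ℕ) (c : Hd → Fin 3 → k) :
    ∑ s, Mx γ p s * A n c s ∈ F (n + 2) := by
  cases n with
  | zero =>
    have : ∑ s, Mx γ p s * A 0 c s =
        ∑ β : Bet, ∑ j, c (.one β) j • (∑ s, Mx γ p s * Mx β.1 s j) := by
      simp only [A, Finset.mul_sum, Algebra.mul_smul_comm, Finset.smul_sum]
      rw [Finset.sum_comm]
      refine Finset.sum_congr rfl fun β _ => ?_
      rw [Finset.sum_comm]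
    rw [this]
    refine Submodule.sum_mem _ fun β _ => Submodule.sum_mem _ fun j _ =>
      Submodule.smul_mem _ _ ?_
    have : (∑ s, Mx γ p s * Mx β.1 s j) = (Mx γ * Mx β.1) p j := by
      rw [Matrix.mul_apply]
    rw [this, Mx_mul]
    split_ifs
    · exact F_le 1 (Mx_mem _ _ _)
    · exact Submodule.zero_mem _
  | succ n =>
    have : ∑ s, Mx γ p s * A (n + 1) c s =
        ∑ β : Bet, ∑ α : Alp, (∑ s, Mx γ p s * Mx β.1 s α.1.1) *
          A n (fun h => c (.cons β α h)) α.1.2 := by
      simp only [A, Finset.mul_sum, Finset.sum_mul]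
      rw [Finset.sum_comm]
      refine Finset.sum_congr rfl fun β _ => ?_
      rw [Finset.sum_comm]
      refine Finset.sum_congr rfl fun α _ => Finset.sum_congr rfl fun s _ => ?_
      rw [mul_assoc]
    rw [this]
    refine Submodule.sum_mem _ fun β _ => Submodule.sum_mem _ fun α _ => ?_
    exact F_le _ (MxMx_mem _ _ _ _ _ _)

theorem mulA_mem (γ : Bet) (p q m : Fin 3) (n : ℕ) (c : Hd → Fin 3 → k) :
    Mx γ.1 p q * A n c m ∈ F (n + 2) := by
  by_cases h : (q, m) ≠ (2, 2)
  · rw [mul_normal n γ p q m h]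
    exact A_mem _ _ _
  · have h' : q = 2 ∧ m = 2 := by
      have := not_not.1 h
      simpa [Prod.ext_iff] using this
    obtain ⟨rfl, rfl⟩ := h'
    have h1 := sumA_mem γ.1 p n c
    rw [Fin.sum_univ_three] at h1
    have h2 := mul_normal n γ p 0 0 (by decide) c
    have h3 := mul_normal n γ p 1 1 (by decide) c
    have e : Mx γ.1 p 2 * A n c 2 = (Mx γ.1 p 0 * A n c 0 + Mx γ.1 p 1 * A n c 1 +
        Mx γ.1 p 2 * A n c 2) - Mx γ.1 p 0 * A n c 0 - Mx γ.1 p 1 * A n c 1 := by abel
    rw [e]
    refine Submodule.sub_mem _ (Submodule.sub_mem _ h1 ?_) ?_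
    · rw [h2]; exact A_mem _ _ _
    · rw [h3]; exact A_mem _ _ _

theorem mulF (γ : Bet) (p q : Fin 3) (n : ℕ) (r : Module.End k VP) (hr : r ∈ F n) :
    Mx γ.1 p q * r ∈ F (n + 1) := by
  have key : ∀ n, F n ≤ (F (n + 1)).comap (LinearMap.mulLeft k (Mx γ.1 p q)) := by
    intro n
    induction n with
    | zero =>
      change Submodule.span k {1} ≤ _
      rw [Submodule.span_le]
      rintro _ rfl
      change Mx γ.1 p q * 1 ∈ F 1
      rw [mul_one]
      exact Mx_mem _ _ _
    | succ n ih =>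
      refine sup_le ?_ ?_
      · intro r hr
        exact F_le _ (ih hr)
      · rw [Submodule.span_le]
        rintro _ ⟨c, m, rfl⟩
        exact mulA_mem γ p q m n c
  exact key n hr

/-- The algebra generated by the entries. -/
def RA : Subalgebra k (Module.End k VP) :=
  Algebra.adjoin k {r | ∃ (β : Bet) (i j : Fin 3), r = Mx β.1 i j}

theorem Mx_RA (β : Bet) (i j : Fin 3) : Mx β.1 i j ∈ RA :=
  Algebra.subset_adjoin ⟨β, i, j, rfl⟩

theorem A_RA (n : ℕ) : ∀ (c : Hd → Fin 3 → k) (m : Fin 3), A n c m ∈ RA := by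
  induction n with
  | zero =>
    intro c m
    exact RA.sum_mem fun β _ => RA.sum_mem fun j _ => RA.smul_mem (Mx_RA _ _ _) _
  | succ n ih =>
    intro c m
    exact RA.sum_mem fun β _ => RA.sum_mem fun α _ => RA.mul_mem (Mx_RA _ _ _) (ih _ _)

theorem RA_F (r : Module.End k VP) (hr : r ∈ RA) : ∃ n, r ∈ F n := by
  have key : ∀ r ∈ RA, ∀ n, ∀ o ∈ F n, ∃ n', r * o ∈ F n' := by
    intro r hr
    refine Algebra.adjoin_induction (p := fun r _ => ∀ n, ∀ o ∈ F n, ∃ n', r * o ∈ F n')
      ?_ ?_ ?_ ?_ hr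
    · rintro _ ⟨β, i, j, rfl⟩ n o ho
      exact ⟨n + 1, mulF _ _ _ _ _ ho⟩
    · intro a n o ho
      refine ⟨n, ?_⟩
      rw [Algebra.algebraMap_eq_smul_one, smul_mul_assoc, one_mul]
      exact Submodule.smul_mem _ _ ho
    · intro x y _ _ hx hy n o ho
      obtain ⟨n1, h1⟩ := hx n o ho
      obtain ⟨n2, h2⟩ := hy n o ho
      refine ⟨max n1 n2, ?_⟩
      rw [add_mul]
      exact Submodule.add_mem _ (F_mono (le_max_left _ _) h1) (F_mono (le_max_right _ _) h2)
    · intro x y _ _ hx hy n o ho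
      obtain ⟨n1, h1⟩ := hy n o ho
      obtain ⟨n2, h2⟩ := hx n1 _ h1
      exact ⟨n2, by rw [mul_assoc]; exact h2⟩
  obtain ⟨n, hn⟩ := key r hr 0 1 (Submodule.subset_span rfl)
  exact ⟨n, by rwa [mul_one] at hn⟩

theorem span_form (n : ℕ) (s : Module.End k VP)
    (hs : s ∈ Submodule.span k {r | ∃ c m, r = A n c m}) :
    ∃ c : Fin 3 → Hd → Fin 3 → k, s = ∑ m, A n (c m) m := by
  refine Submodule.span_induction (p := fun s _ => ∃ c : Fin 3 → Hd → Fin 3 → k,
    s = ∑ m, A n (c m) m) ?_ ?_ ?_ ?_ hs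
  · rintro _ ⟨c, m, rfl⟩
    refine ⟨fun m' => if m' = m then c else fun _ _ => 0, ?_⟩
    rw [Finset.sum_eq_single m]
    · simp
    · intro m' _ hm
      simp only [hm, if_false]
      exact A_zero _ _
    · intro h; exact absurd (Finset.mem_univ _) h
  · exact ⟨fun _ _ _ => 0, by simp [A_zero]⟩
  · rintro x y _ _ ⟨c, rfl⟩ ⟨c', rfl⟩
    refine ⟨fun m h j => c m h j + c' m h j, ?_⟩
    rw [← Finset.sum_add_distrib]
    exact Finset.sum_congr rfl fun m _ => (A_add n (c m) (c' m) m).symm
  · rintro a x _ ⟨c, rfl⟩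
    refine ⟨fun m h j => a * c m h j, ?_⟩
    rw [Finset.smul_sum]
    exact Finset.sum_congr rfl fun m _ => (A_smul n a (c m) m).symm

theorem sym_sumA (n : ℕ) (c : Fin 3 → Hd → Fin 3 → k) : Sym n c (∑ m, A n (c m) m) := by
  have h1 := Sym.sum Finset.univ (fun m _ => sym_A n (c m) m)
  refine h1.congr ?_
  intro m h j _
  simp

theorem F_bd (n : ℕ) (r : Module.End k VP) (hr : r ∈ F n) (d : ℕ) (v : VP) (hv : Bd d v) :
    Bd (d + n) (r v) := by
  cases n with
  | zero =>
    obtain ⟨a, rfl⟩ := Submodule.mem_span_singleton.1 hr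
    intro l t ht
    change a • v l t = 0
    rw [hv l t ht, smul_zero]
  | succ n =>
    induction n generalizing r with
    | zero =>
      obtain ⟨r', hr', s, hs, rfl⟩ := Submodule.mem_sup.1 hr
      obtain ⟨c, rfl⟩ := span_form 0 s hs
      obtain ⟨a, rfl⟩ := Submodule.mem_span_singleton.1 hr'
      have h1 : Bd (d + 1) ((a • (1 : Module.End k VP)) v) := by
        intro l t ht
        change a • v l t = 0
        rw [hv l t (by omega), smul_zero]
      exact h1.add (sym_sumA 0 c d v hv).1
    | succ n ih =>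
      obtain ⟨r', hr', s, hs, rfl⟩ := Submodule.mem_sup.1 hr
      obtain ⟨c, rfl⟩ := span_form (n + 1) s hs
      have h1 : Bd (d + (n + 1 + 1)) (r' v) := (ih r' hr').mono (by omega)
      exact h1.add (sym_sumA (n + 1) c d v hv).1

theorem sym_of_F (n : ℕ) (r : Module.End k VP) (hr : r ∈ F n) :
    Sym n (fun _ _ _ => 0) r := by
  intro d v hv
  have h := F_bd n r hr d v hv
  refine ⟨h.mono (by omega), ?_⟩
  intro m hd α t hh ht
  rw [h m _ (by rw [glue_len]; omega)]
  simp

theorem sym_exists (r : Module.End k VP) (hr : r ∈ RA) (h0 : r ≠ 0) : r = 1 ∨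
    ∃ n c, Sym n c r ∧ ∃ m h, Hd.len h = n ∧ (fun j => c m h j) ≠ 0 := by
  have hex := RA_F r hr
  classical
  have hn := Nat.find_spec hex
  have hmin := fun m => Nat.find_min (H := hex) (m := m)
  revert hn hmin
  generalize Nat.find hex = n
  intro hn hmin
  cases n with
  | zero =>
    left
    obtain ⟨a, rfl⟩ := Submodule.mem_span_singleton.1 hn
    rcases k01 a with rfl | rfl
    · exact absurd (zero_smul _ _) h0
    · exact one_smul _ _
  | succ n =>
    right
    obtain ⟨r', hr', s, hs, rfl⟩ := Submodule.mem_sup.1 hn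
    obtain ⟨c, rfl⟩ := span_form n s hs
    refine ⟨n, c, ?_, ?_⟩
    · refine ((sym_of_F n r' hr').add (sym_sumA n c)).congr ?_
      intro m h j _
      simp
    · by_contra hcon
      push Not at hcon
      apply hmin n (Nat.lt_succ_self n)
      have : ∑ m, A n (c m) m = 0 := by
        refine Finset.sum_eq_zero fun m _ => ?_
        rw [A_congr n (c m) (fun _ _ => 0) m, A_zero]
        intro h j hh
        exact congrFun (hcon m h hh) j
      rw [this, add_zero]
      exact hr'

theorem dec1 : ∀ a b : Fin 3 → k, (∃ i, a i ≠ 0) → (∃ i, b i ≠ 0) → ∃ α : Alp,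
    a α.1.1 * b α.1.2 + (if α.1.1 = α.1.2 then a 2 * b 2 else 0) ≠ 0 := by
  decide +kernel

theorem dec2 : ∀ a b a' b' : Fin 3 → k, (∀ α : Alp,
    (a α.1.1 * b α.1.2 + (if α.1.1 = α.1.2 then a 2 * b 2 else 0)) +
    (a' α.1.1 * b' α.1.2 + (if α.1.1 = α.1.2 then a' 2 * b' 2 else 0)) = 0) →
    ∀ j l, a j * b l = a' j * b' l := by
  decide +kernel

/-- Boundedness. -/
def Bv (v : VP) : Prop := ∃ d, Bd d v

/-- Size of a vector. -/
noncomputable def vsz (v : VP) : ℕ := sInf {d | Bd d v}

theorem vsz_spec {v : VP} (h : Bv v) : Bd (vsz v) v := Nat.sInf_mem (s := {d | Bd d v}) h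

theorem vsz_le {v : VP} {d : ℕ} (h : Bd d v) : vsz v ≤ d := Nat.sInf_le (s := {d | Bd d v}) h

theorem vsz_le_iff {v : VP} (h : Bv v) (d : ℕ) : vsz v ≤ d ↔ Bd d v :=
  ⟨fun hd => (vsz_spec h).mono hd, vsz_le⟩

theorem vsz_top {v : VP} (h : Bv v) (h0 : vsz v ≠ 0) : ∃ l t, Tl.len t = vsz v ∧ v l t ≠ 0 := by
  by_contra hcon
  push Not at hcon
  have : Bd (vsz v - 1) v := by
    intro l t ht
    by_cases h1 : Tl.len t = vsz v
    · exact hcon l t h1
    · exact vsz_spec h l t (by omega)
  have := vsz_le this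
  omega

theorem le_vsz {v : VP} (h : Bv v) (l : Fin 3) (t : Tl) (h1 : v l t ≠ 0) : t.len ≤ vsz v := by
  by_contra hcon
  exact h1 (vsz_spec h l t (by omega))

theorem vsz_lt {v : VP} (h : Bv v) {d : ℕ} (hle : vsz v ≤ d) (hd : d ≠ 0)
    (h1 : ∀ l t, Tl.len t = d → v l t = 0) : vsz v < d := by
  by_contra hcon
  have e : vsz v = d := by omega
  obtain ⟨l, t, h2, h3⟩ := vsz_top h (by omega)
  exact h3 (h1 l t (by omega))

theorem Bv.zero : Bv 0 := ⟨0, Bd.zero 0⟩

theorem vsz_zero : vsz 0 = 0 := Nat.le_zero.1 (vsz_le (Bd.zero 0))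

theorem eq_zero_of_vsz {v : VP} (h : Bv v) (h0 : vsz v = 0) : v = 0 := by
  funext l t
  exact vsz_spec h l t (by rw [h0]; exact t.len_pos)

theorem Bv.add {v w : VP} (h : Bv v) (h' : Bv w) : Bv (v + w) := by
  obtain ⟨d, hd⟩ := h
  obtain ⟨d', hd'⟩ := h'
  exact ⟨max d d', (hd.mono (le_max_left _ _)).add (hd'.mono (le_max_right _ _))⟩

theorem vsz_add {v w : VP} (h : Bv v) (h' : Bv w) : vsz (v + w) ≤ max (vsz v) (vsz w) :=
  vsz_le (((vsz_spec h).mono (le_max_left _ _)).add ((vsz_spec h').mono (le_max_right _ _)))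

theorem Bv.act {v : VP} (h : Bv v) {r : Module.End k VP} (hr : r ∈ RA) : Bv (r v) := by
  obtain ⟨n, hn⟩ := RA_F r hr
  obtain ⟨d, hd⟩ := h
  exact ⟨d + n, F_bd n r hn d v hd⟩

theorem vsz_sym {n : ℕ} {c : Fin 3 → Hd → Fin 3 → k} {r : Module.End k VP} (hs : Sym n c r)
    {m : Fin 3} {h : Hd} (hh : h.len = n) (hc : (fun j => c m h j) ≠ 0) {v : VP} (hv : Bv v)
    (h0 : vsz v ≠ 0) : vsz (r v) = n + 1 + vsz v := by
  have h1 := hs (vsz v) v (vsz_spec hv)
  have hb : Bv (r v) := ⟨_, h1.1⟩
  apply le_antisymm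
  · have := vsz_le h1.1
    omega
  · obtain ⟨l, t, h2, h3⟩ := vsz_top hv h0
    obtain ⟨α, hα⟩ := dec1 (fun j => c m h j) (fun l => v l t) (Function.ne_iff.1 hc) ⟨l, h3⟩
    have h4 := h1.2 m h α t hh h2
    have h5 := le_vsz hb m (glue h α t) (by rw [h4]; exact hα)
    rw [glue_len] at h5
    omega

/-- Degree of an element. -/
theorem deg_exists (r : Module.End k VP) (hr : r ∈ RA) (h0 : r ≠ 0) : ∃ J : ℕ,
    (J = 0 → r = 1) ∧ (∀ v, Bv v → vsz v ≠ 0 → vsz (r v) = J + vsz v) ∧
    (∀ v, Bv v → vsz v = 0 → vsz (r v) = 0) := by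
  have hz : ∀ v, Bv v → vsz v = 0 → vsz (r v) = 0 := by
    intro v hv h
    rw [eq_zero_of_vsz hv h, map_zero, vsz_zero]
  rcases sym_exists r hr h0 with rfl | ⟨n, c, hs, m, h, hh, hc⟩
  · exact ⟨0, fun _ => rfl, fun v _ _ => by simp, hz⟩
  · exact ⟨n + 1, fun h => absurd h (Nat.succ_ne_zero n), fun v hv h0 => vsz_sym hs hh hc hv h0, hz⟩

/-- Concatenation of heads. -/
def hcat : Hd → Alp → Hd → Hd
  | .one β, α, h' => .cons β α h'
  | .cons β' α' h, α, h' => .cons β' α' (hcat h α h')

theorem glue_hcat (h : Hd) (α : Alp) (h' : Hd) (α' : Alp) (t : Tl) :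
    glue (hcat h α h') α' t = glue h α (glue h' α' t) := by
  induction h with
  | one β => rfl
  | cons β'' α'' h ih => simp only [hcat, glue, ih]

theorem hcat_len (h : Hd) (α : Alp) (h' : Hd) : (hcat h α h').len = h.len + 1 + h'.len := by
  induction h with
  | one β => simp [hcat, Hd.len]; omega
  | cons β'' α'' h ih => simp only [hcat, Hd.len, ih]; omega

/-- The weak algorithm for pairs. -/
theorem dep_exists (r s : Module.End k VP) (hr : r ∈ RA) (hs : s ∈ RA) (a c : VP)
    (ha : Bv a) (hc : Bv c) (hr0 : r ≠ 0) (hs0 : s ≠ 0) (hc0 : vsz c ≠ 0) (hca : vsz c ≤ vsz a)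
    (heq : vsz (r a) = vsz (s c)) (hlt : vsz (r a + s c) < vsz (r a)) :
    ∃ t ∈ RA, vsz (a + t c) < vsz a := by
  have ha0 : vsz a ≠ 0 := by omega
  rcases sym_exists r hr hr0 with rfl | ⟨n, cr, hsr, m, h, hh, hcr⟩
  · exact ⟨s, hs, by simpa using hlt⟩
  have e1 := vsz_sym hsr hh hcr ha ha0
  rcases sym_exists s hs hs0 with rfl | ⟨n', cs, hss, m', h', hh', hcs⟩
  · exfalso
    have : vsz ((1 : Module.End k VP) c) = vsz c := by simp
    omega
  have e2 := vsz_sym hss hh' hcs hc hc0
  have hb : Bv (r a + s c) := (ha.act hr).add (hc.act hs)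
  have hzero : ∀ m α t, Tl.len t = vsz a → (r a + s c) m (glue h α t) = 0 := by
    intro m α t ht
    exact vsz_spec hb _ _ (by rw [glue_len]; omega)
  have hra := (hsr (vsz a) a (vsz_spec ha)).2
  have hsc := (hss (vsz c) c (vsz_spec hc)).2
  obtain ⟨i, hi⟩ := Function.ne_iff.1 hcr
  have hi1 : cr m h i = 1 := (k01 _).resolve_left hi
  by_cases hn : n = n'
  · subst hn
    have hd : vsz a = vsz c := by omega
    have key : ∀ t, Tl.len t = vsz a → ∀ l, a l t = cs m h i * c l t := by
      intro t ht l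
      have h3 := dec2 (fun j => cr m h j) (fun l => a l t) (fun j => cs m h j) (fun l => c l t)
        (by
          intro α
          have := hzero m α t ht
          rw [Pi.add_apply, Pi.add_apply, hra m h α t hh ht,
            hsc m h α t hh (by omega)] at this
          exact this) i l
      rw [hi1, one_mul] at h3
      exact h3
    refine ⟨cs m h i • 1, RA.smul_mem RA.one_mem _, ?_⟩
    have hbt : Bv (a + (cs m h i • (1 : Module.End k VP)) c) :=
      ha.add (hc.act (RA.smul_mem RA.one_mem _))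
    refine vsz_lt hbt ?_ ha0 ?_
    · have h4 : vsz ((cs m h i • (1 : Module.End k VP)) c) ≤ vsz c := by
        apply vsz_le
        intro l t ht
        change cs m h i • c l t = 0
        rw [vsz_spec hc l t ht, smul_zero]
      have h5 := vsz_add ha (hc.act (RA.smul_mem RA.one_mem (cs m h i)))
      omega
    · intro l t ht
      change a l t + cs m h i • c l t = 0
      rw [key t ht l, smul_eq_mul]
      exact ksum _
  · obtain ⟨δ, hδ⟩ : ∃ δ, n' = n + 1 + δ := ⟨n' - n - 1, by omega⟩
    -- the linear map attached to the symbol of `r`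
    let L : (Fin 3 → k) →ₗ[k] (Alp → k) :=
      { toFun := fun b α => cr m h α.1.1 * b α.1.2 +
          (if α.1.1 = α.1.2 then cr m h 2 * b 2 else 0)
        map_add' := by
          intro b b'
          funext α
          simp only [Pi.add_apply]
          split_ifs <;> ring
        map_smul' := by
          intro x b
          funext α
          simp only [Pi.smul_apply, smul_eq_mul, RingHom.id_apply]
          split_ifs <;> ring }
    have hL : LinearMap.ker L = ⊥ := by
      rw [LinearMap.ker_eq_bot']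
      intro b hb
      by_contra hne
      obtain ⟨α, hα⟩ := dec1 (fun j => cr m h j) b ⟨i, by
        change cr m h i ≠ 0
        rw [hi1]; exact one_ne_zero⟩ (Function.ne_iff.1 hne)
      exact hα (congrFun hb α)
    obtain ⟨N, hN⟩ := LinearMap.exists_leftInverse_of_injective L hL
    obtain ⟨ct, hct⟩ : ∃ ct : Fin 3 → Hd → Fin 3 → k, ∀ l h'' j,
        ct l h'' j = N (fun α => cs m (hcat h α h'') j) l := ⟨_, fun _ _ _ => rfl⟩
    have htm : (∑ l, A δ (ct l) l) ∈ RA := RA.sum_mem fun l _ => A_RA _ _ _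
    have hst := (sym_sumA δ ct (vsz c) c (vsz_spec hc))
    refine ⟨∑ l, A δ (ct l) l, htm, ?_⟩
    have hbt : Bv (a + (∑ l, A δ (ct l) l) c) := ha.add (hc.act htm)
    refine vsz_lt hbt ?_ ha0 ?_
    · have h4 := vsz_le hst.1
      have h5 := vsz_add ha (hc.act htm)
      omega
    · intro l t ht
      obtain ⟨h'', α', t'', h6, h7⟩ := exists_glue δ t (by omega)
      subst h7
      rw [glue_len] at ht
      have hlen : t''.len = vsz c := by omega
      rw [Pi.add_apply, Pi.add_apply, hst.2 l h'' α' t'' h6 hlen]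
      have h8 : (fun α => (r a) m (glue h α (glue h'' α' t''))) =
          L (fun l => a l (glue h'' α' t'')) := by
        funext α
        rw [hra m h α _ hh (by rw [glue_len]; omega)]
        rfl
      have h9 : (fun α => (s c) m (glue h α (glue h'' α' t''))) =
          (fun α => c α'.1.2 t'' * cs m (hcat h α h'') α'.1.1 +
            (if α'.1.1 = α'.1.2 then c 2 t'' * cs m (hcat h α h'') 2 else 0)) := by
        funext α
        rw [← glue_hcat, hsc m _ α' t'' (by rw [hcat_len]; omega) hlen]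
        split_ifs <;> ring
      have h10 : (fun α => (r a) m (glue h α (glue h'' α' t''))) =
          (fun α => (s c) m (glue h α (glue h'' α' t''))) := by
        funext α
        have := hzero m α (glue h'' α' t'') (by rw [glue_len]; omega)
        rw [Pi.add_apply, Pi.add_apply] at this
        have h11 := ksum ((s c) m (glue h α (glue h'' α' t'')))
        linear_combination this - h11
      have h12 : a l (glue h'' α' t'') = N (fun α => c α'.1.2 t'' * cs m (hcat h α h'') α'.1.1 +
            (if α'.1.1 = α'.1.2 then c 2 t'' * cs m (hcat h α h'') 2 else 0)) l := by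
        rw [← h9, ← h10, h8]
        have := LinearMap.congr_fun hN (fun l => a l (glue h'' α' t''))
        exact (congrFun this l).symm
      have h13 : (fun α => c α'.1.2 t'' * cs m (hcat h α h'') α'.1.1 +
            (if α'.1.1 = α'.1.2 then c 2 t'' * cs m (hcat h α h'') 2 else 0)) =
          c α'.1.2 t'' • (fun α => cs m (hcat h α h'') α'.1.1) +
            (if α'.1.1 = α'.1.2 then c 2 t'' else 0) • (fun α => cs m (hcat h α h'') 2) := by
        funext α
        simp only [Pi.add_apply, Pi.smul_apply, smul_eq_mul]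
        split_ifs <;> ring
      rw [h12, h13, map_add, map_smul, map_smul, Pi.add_apply, Pi.smul_apply, Pi.smul_apply,
        ← hct, ← hct, smul_eq_mul, smul_eq_mul]
      have h14 := ksum (ct l h'' α'.1.1 * c α'.1.2 t'')
      have h15 := ksum (ct l h'' 2 * c 2 t'')
      split_ifs
      · linear_combination h14 + h15
      · linear_combination h14

end Gs


namespace Gs

open Pk

/-- The coefficient ring. -/
def R : Type := ↥RA

noncomputable instance : Ring R := inferInstanceAs (Ring ↥RA)

noncomputable instance : Algebra k R := inferInstanceAs (Algebra k ↥RA)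

/-- Evaluation of ring elements as endomorphisms. -/
noncomputable def ev : R →+* Module.End k VP := (RA.val : ↥RA →ₐ[k] Module.End k VP).toRingHom

theorem ev_mem (r : R) : ev r ∈ RA := Subtype.property (p := fun x => x ∈ RA) r

theorem ev_inj {r s : R} (h : ev r = ev s) : r = s := Subtype.ext h

theorem ev_surj {x : Module.End k VP} (h : x ∈ RA) : ∃ r : R, ev r = x := ⟨⟨x, h⟩, rfl⟩

theorem ev_alg (a : k) : ev (algebraMap k R a) = a • 1 :=
  (RA.val.commutes a).trans (Algebra.algebraMap_eq_smul_one a)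

theorem Rchar : (1 : R) + 1 = 0 := by
  have h : (2 : k) = 0 := by decide
  have : (1 : R) + 1 = (2 : k) • (1 : R) := by
    rw [two_smul]
  rw [this, h, zero_smul]

/-- Action of a row on a triple of vectors. -/
noncomputable def act (ρ : Fin 3 → R) (v : VV) : VP := ∑ j, ev (ρ j) (v j)

theorem act_add (ρ ρ' : Fin 3 → R) (v : VV) : act (ρ + ρ') v = act ρ v + act ρ' v := by
  simp only [act, ← Finset.sum_add_distrib, Pi.add_apply, map_add, LinearMap.add_apply]

theorem act_smul (r : R) (ρ : Fin 3 → R) (v : VV) : act (r • ρ) v = ev r (act ρ v) := by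
  simp only [act, map_sum, Pi.smul_apply, smul_eq_mul, map_mul, Module.End.mul_apply]

theorem act_zero (v : VV) : act 0 v = 0 := by
  simp only [act, Pi.zero_apply, map_zero, LinearMap.zero_apply, Finset.sum_const_zero]

theorem Bv.sum {ι : Type} (S : Finset ι) (f : ι → VP) (h : ∀ i ∈ S, Bv (f i)) :
    Bv (∑ i ∈ S, f i) := by
  classical
  induction S using Finset.induction_on with
  | empty => simpa using Bv.zero
  | insert a S ha ih =>
    rw [Finset.sum_insert ha]
    exact (h a (Finset.mem_insert_self _ _)).add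
      (ih fun i hi => h i (Finset.mem_insert_of_mem hi))

theorem act_bv (ρ : Fin 3 → R) {v : VV} (hv : ∀ i, Bv (v i)) : Bv (act ρ v) :=
  Bv.sum _ _ fun j _ => (hv j).act (ev_mem (ρ j))

/-- The size function on rows attached to a triple of vectors. -/
noncomputable def rsz (v : VV) (ρ : Fin 3 → R) : ℕ := vsz (act ρ v)

theorem sized (v : VV) (hv : ∀ i, Bv (v i)) : Sized R (Fin 3 → R) (rsz v) where
  char2 := Rchar
  zero := by rw [rsz, act_zero, vsz_zero]
  add a b := by
    simp only [rsz]
    rw [act_add]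
    exact vsz_add (act_bv a hv) (act_bv b hv)
  deg r hr := by
    have hr' : ev r ≠ 0 := fun h => hr (ev_inj (by rw [h, map_zero]))
    obtain ⟨J, h1, h2, h3⟩ := deg_exists (ev r) (ev_mem r) hr'
    refine ⟨J, fun h => ev_inj (by rw [h1 h, map_one]), ?_, ?_⟩
    · intro a ha
      simp only [rsz] at ha ⊢
      rw [act_smul]
      exact h2 _ (act_bv a hv) ha
    · intro a ha
      simp only [rsz] at ha ⊢
      rw [act_smul]
      exact h3 _ (act_bv a hv) ha
  dep r s a c hr hs hc hca heq hlt := by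
    simp only [rsz] at hc hca heq hlt ⊢
    rw [act_smul, act_smul] at heq
    rw [act_add, act_smul, act_smul] at hlt
    have hr' : ev r ≠ 0 := fun h => hr (ev_inj (by rw [h, map_zero]))
    have hs' : ev s ≠ 0 := fun h => hs (ev_inj (by rw [h, map_zero]))
    obtain ⟨t, ht, h⟩ := dep_exists (ev r) (ev s) (ev_mem r) (ev_mem s) (act a v) (act c v)
      (act_bv a hv) (act_bv c hv) hr' hs' hc hca heq hlt
    obtain ⟨t', rfl⟩ := ev_surj ht
    refine ⟨t', ?_⟩
    rw [act_add, act_smul]
    exact h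

/-- Generic triples with scalar top part of size `d`. -/
def Omd (d : ℕ) (v : VV) : Prop := d ≠ 0 ∧ (∀ i, Bd d (v i)) ∧ ∃ z : Tl → k,
  (∃ t, Tl.len t = d ∧ z t ≠ 0) ∧ ∀ i l t, Tl.len t = d → v i l t = if i = l then z t else 0

def Om (v : VV) : Prop := ∃ d, Omd d v

theorem Omd.bv {d : ℕ} {v : VV} (h : Omd d v) (i : Fin 3) : Bv (v i) := ⟨d, h.2.1 i⟩

/-- Embedding of scalar rows. -/
noncomputable def emb (x : Fin 3 → k) : Fin 3 → R := fun j => algebraMap k R (x j)

theorem emb_add (x y : Fin 3 → k) : emb (x + y) = emb x + emb y := by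
  funext j
  simp [emb]

theorem act_emb (x : Fin 3 → k) (v : VV) : act (emb x) v = ∑ j, x j • v j := by
  simp only [act, emb, ev_alg]
  rfl

theorem act_emb_top {d : ℕ} {v : VV} {z : Tl → k}
    (hz : ∀ i l t, Tl.len t = d → v i l t = if i = l then z t else 0) (x : Fin 3 → k)
    (l : Fin 3) (t : Tl) (ht : t.len = d) : act (emb x) v l t = x l * z t := by
  rw [act_emb]
  simp only [Finset.sum_apply, Pi.smul_apply, smul_eq_mul, hz _ _ _ ht]
  simp

theorem Omd.size {d : ℕ} {v : VV} (h : Omd d v) (x : Fin 3 → k) (hx : x ≠ 0) :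
    rsz v (emb x) = d := by
  obtain ⟨hd, hb, z, ⟨t, ht, hzt⟩, hz⟩ := h
  have hB : Bd d (act (emb x) v) := by
    intro l t ht
    rw [act_emb]
    simp only [Finset.sum_apply, Pi.smul_apply]
    refine Finset.sum_eq_zero fun j _ => ?_
    rw [hb j l t ht, smul_zero]
  apply le_antisymm (vsz_le hB)
  obtain ⟨l, hl⟩ := Function.ne_iff.1 hx
  have := le_vsz ⟨d, hB⟩ l t (by
    rw [act_emb_top hz x l t ht]
    exact mul_ne_zero hl hzt)
  rw [ht] at this
  exact this

/-- Base triples. -/
def K (a b c : Fin 3 → R) : Prop := ∃ x y w : Fin 3 → k, a = emb x ∧ b = emb y ∧ c = emb w ∧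
  x ≠ 0 ∧ y ≠ 0 ∧ w ≠ 0 ∧ x + y ≠ 0 ∧ x + w ≠ 0 ∧ y + w ≠ 0 ∧ x + y + w ≠ 0

theorem K1 (a b c : Fin 3 → R) (h : K a b c) : K b a c := by
  obtain ⟨x, y, w, h1, h2, h3, h4, h5, h6, h7, h8, h9, h10⟩ := h
  exact ⟨y, x, w, h2, h1, h3, h5, h4, h6, by rwa [add_comm], h9, h8, by rwa [add_comm y x]⟩

theorem K2 (a b c : Fin 3 → R) (h : K a b c) : K a c b := by
  obtain ⟨x, y, w, h1, h2, h3, h4, h5, h6, h7, h8, h9, h10⟩ := h
  exact ⟨x, w, y, h1, h3, h2, h4, h6, h5, h8, h7, by rwa [add_comm], by rwa [add_right_comm]⟩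

theorem kvec (x : Fin 3 → k) : x + x = 0 := by
  funext i; exact ksum _

theorem K3 (a b c : Fin 3 → R) (h : K a b c) : K (a + b) b c := by
  obtain ⟨x, y, w, h1, h2, h3, h4, h5, h6, h7, h8, h9, h10⟩ := h
  have e : x + y + y = x := by rw [add_assoc, kvec, add_zero]
  refine ⟨x + y, y, w, by rw [h1, h2, emb_add], h2, h3, h7, h5, h6, by rwa [e], h10, h9, ?_⟩
  rwa [e]

theorem K4 {d : ℕ} {v : VV} (hv : Omd d v) (a b c : Fin 3 → R) (h : K a b c) :
    Red (rsz v) d a b c := by
  obtain ⟨x, y, w, rfl, rfl, rfl, h4, h5, h6, h7, h8, h9, h10⟩ := h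
  refine ⟨hv.size x h4, hv.size y h5, hv.size w h6, ?_, ?_, ?_, ?_⟩
  · rw [← emb_add]; exact hv.size _ h7
  · rw [← emb_add]; exact hv.size _ h8
  · rw [← emb_add]; exact hv.size _ h9
  · rw [← emb_add, ← emb_add]; exact hv.size _ h10

theorem Dmove {d : ℕ} {v : VV} (hv : Omd d v) (u u' : Fin 3 → (Fin 3 → R)) (i j : Fin 3) (c : R)
    (hij : i ≠ j) (h1 : u' i = u i + c • u j) (h2 : ∀ l, l ≠ i → u' l = u l)
    (hd : D R (rsz v) K (u 0) (u 1) (u 2)) : D R (rsz v) K (u' 0) (u' 1) (u' 2) := by
  have mv := fun a b c r s h => move (sized v hv.bv) K1 K2 K3 hv.1 (K4 hv) (max (rsz v a + rsz v b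
    + rsz v c) (rsz v (a + r • b + s • c) + rsz v b + rsz v c)) a b c r s (le_max_left _ _)
    (le_max_right _ _) h
  fin_cases i <;> fin_cases j
  · exact absurd rfl hij
  · have e0 : u' 0 = u 0 + c • u 1 := h1
    rw [e0, h2 1 (by decide), h2 2 (by decide)]
    have := mv (u 0) (u 1) (u 2) c 0 hd
    rwa [zero_smul, add_zero] at this
  · have e0 : u' 0 = u 0 + c • u 2 := h1
    rw [e0, h2 1 (by decide), h2 2 (by decide)]
    have := mv (u 0) (u 1) (u 2) 0 c hd
    rwa [zero_smul, add_zero] at this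
  · have e0 : u' 1 = u 1 + c • u 0 := h1
    rw [e0, h2 0 (by decide), h2 2 (by decide)]
    have := mv (u 1) (u 0) (u 2) c 0 hd.sw1
    rw [zero_smul, add_zero] at this
    exact this.sw1
  · exact absurd rfl hij
  · have e0 : u' 1 = u 1 + c • u 2 := h1
    rw [e0, h2 0 (by decide), h2 2 (by decide)]
    have := mv (u 1) (u 0) (u 2) 0 c hd.sw1
    rw [zero_smul, add_zero] at this
    exact this.sw1
  · have e0 : u' 2 = u 2 + c • u 0 := h1
    rw [e0, h2 0 (by decide), h2 1 (by decide)]
    have := mv (u 2) (u 0) (u 1) c 0 hd.sw2.sw1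
    rw [zero_smul, add_zero] at this
    exact this.sw1.sw2
  · have e0 : u' 2 = u 2 + c • u 1 := h1
    rw [e0, h2 0 (by decide), h2 1 (by decide)]
    have := mv (u 2) (u 0) (u 1) 0 c hd.sw2.sw1
    rw [zero_smul, add_zero] at this
    exact this.sw1.sw2
  · exact absurd rfl hij

abbrev Mat := Matrix (Fin 3) (Fin 3) R

/-- Action of matrices on triples. -/
noncomputable def mact (g : Mat) (v : VV) : VV := fun i => act (g i) v

theorem mact_one (v : VV) : mact 1 v = v := by
  funext i
  simp only [mact, act, Matrix.one_apply]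
  rw [Finset.sum_eq_single i]
  · rw [if_pos rfl, map_one]; rfl
  · intro j _ hj
    rw [if_neg (Ne.symm hj), map_zero]
    rfl
  · intro h; exact absurd (Finset.mem_univ _) h

theorem mact_mul (g h : Mat) (v : VV) : mact (g * h) v = mact g (mact h v) := by
  funext i
  simp only [mact, act, Matrix.mul_apply, map_sum, LinearMap.sum_apply, map_mul,
    Module.End.mul_apply]
  rw [Finset.sum_comm]

theorem mact_add (g h : Mat) (v : VV) : mact (g + h) v = mact g v + mact h v := by
  funext i
  exact act_add (g i) (h i) v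

theorem mact_bv (g : Mat) {v : VV} (hv : ∀ i, Bv (v i)) (i : Fin 3) : Bv (mact g v i) :=
  act_bv _ hv

/-- The set of elementary transvections. -/
def TV : Set Matˣ := {g | ∃ i j : Fin 3, ∃ c : R, i ≠ j ∧
  (g : Mat) = 1 + Matrix.of (fun a b => if a = i ∧ b = j then c else 0)}

theorem tv_row {g : Mat} {i j : Fin 3} {c : R}
    (hg : g = 1 + Matrix.of (fun a b => if a = i ∧ b = j then c else 0)) (h : Mat) :
    (g * h) i = h i + c • h j ∧ ∀ l, l ≠ i → (g * h) l = h l := by
  have e : ∀ a b, (Matrix.of (fun a b => if a = i ∧ b = j then c else 0) * h : Mat) a b =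
      if a = i then c * h j b else 0 := by
    intro a b
    rw [Matrix.mul_apply]
    by_cases ha : a = i
    · simp only [ha, Matrix.of_apply, true_and, if_true]
      rw [Finset.sum_eq_single j]
      · simp
      · intro l _ hl; simp [hl]
      · intro h; exact absurd (Finset.mem_univ _) h
    · simp [ha]
  rw [hg, add_mul, one_mul]
  constructor
  · funext b
    rw [Matrix.add_apply, e, if_pos rfl]
    rfl
  · intro l hl
    funext b
    rw [Matrix.add_apply, e, if_neg hl, add_zero]

theorem tv_inv {g : Matˣ} (hg : g ∈ TV) : g⁻¹ = g := by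
  obtain ⟨i, j, c, hij, e⟩ := hg
  rw [inv_eq_iff_mul_eq_one]
  apply Units.ext
  rw [Units.val_mul, Units.val_one]
  obtain ⟨h1, h2⟩ := tv_row e (g : Mat)
  have hr : ∀ r : R, r + r = 0 := by
    intro r
    have := congrArg (fun x => x * r) Rchar
    simpa [add_mul] using this
  funext a b
  by_cases ha : a = i
  · subst ha
    rw [h1, e]
    simp only [Pi.add_apply, Pi.smul_apply, smul_eq_mul, Matrix.add_apply, Matrix.of_apply,
      Matrix.one_apply, true_and]
    have hji : j ≠ a := Ne.symm hij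
    simp only [hji, false_and, if_false, add_zero]
    by_cases hb : b = j
    · subst hb
      simp only [hij, if_false, if_true, mul_one, zero_add]
      exact hr c
    · have : ¬ j = b := fun h => hb h.symm
      simp [hb, this]
  · rw [h2 a ha, e]
    simp [ha]

theorem D_of_mem {d : ℕ} {v : VV} (hv : Omd d v) (g : Matˣ) (hg : g ∈ Subgroup.closure TV) :
    D R (rsz v) K ((g : Mat) 0) ((g : Mat) 1) ((g : Mat) 2) := by
  refine Subgroup.closure_induction_left (p := fun (g : Matˣ) _ =>
    D R (rsz v) K ((g : Mat) 0) ((g : Mat) 1) ((g : Mat) 2)) ?_ ?_ ?_ hg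
  · apply D.base
    refine ⟨Pi.single 0 1, Pi.single 1 1, Pi.single 2 1, ?_, ?_, ?_, by decide, by decide,
      by decide, by decide, by decide, by decide, by decide⟩
    · funext j
      fin_cases j <;> simp [emb]
    · funext j
      fin_cases j <;> simp [emb]
    · funext j
      fin_cases j <;> simp [emb]
  · intro x hx y _ hy
    obtain ⟨i, j, c, hij, e⟩ := hx
    obtain ⟨h1, h2⟩ := tv_row e (y : Mat)
    rw [Units.val_mul]
    exact Dmove hv _ _ i j c hij h1 h2 hy
  · intro x hx y _ hy
    rw [tv_inv hx]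
    obtain ⟨i, j, c, hij, e⟩ := hx
    obtain ⟨h1, h2⟩ := tv_row e (y : Mat)
    rw [Units.val_mul]
    exact Dmove hv _ _ i j c hij h1 h2 hy

theorem act_matsum (g : Mat) (v : VV) (x : Fin 3 → k) :
    act (∑ i, x i • g i) v = ∑ i, x i • mact g v i := by
  have h : ∀ (S : Finset (Fin 3)), act (∑ i ∈ S, x i • g i) v = ∑ i ∈ S, x i • mact g v i := by
    intro S
    classical
    induction S using Finset.induction_on with
    | empty => simp [act_zero]
    | insert a S ha ih =>
      rw [Finset.sum_insert ha, Finset.sum_insert ha, act_add, ih]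
      congr 1
      rcases k01 (x a) with h | h
      · rw [h, zero_smul, zero_smul, act_zero]
      · rw [h, one_smul, one_smul]; rfl
  exact h _

/-- Sizes of combinations of rows of `g` when the image triple is generic. -/
theorem red_of_Om {d : ℕ} {v : VV} (g : Mat) (h : Omd d (mact g v)) :
    Red (rsz v) d (g 0) (g 1) (g 2) := by
  have key : ∀ x : Fin 3 → k, x ≠ 0 → rsz v (∑ i, x i • g i) = d := by
    intro x hx
    have h1 := h.size x hx
    rw [rsz, act_emb] at h1
    rw [rsz, act_matsum]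
    exact h1
  have e := fun x : Fin 3 → k => Fin.sum_univ_three (fun i => x i • g i)
  refine ⟨?_, ?_, ?_, ?_, ?_, ?_, ?_⟩
  · have := key ![1, 0, 0] (by decide)
    rw [e] at this
    simpa using this
  · have := key ![0, 1, 0] (by decide)
    rw [e] at this
    simpa using this
  · have := key ![0, 0, 1] (by decide)
    rw [e] at this
    simpa using this
  · have := key ![1, 1, 0] (by decide)
    rw [e] at this
    simpa using this
  · have := key ![1, 0, 1] (by decide)
    rw [e] at this
    simpa using this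
  · have := key ![0, 1, 1] (by decide)
    rw [e] at this
    simpa using this
  · have := key ![1, 1, 1] (by decide)
    rw [e] at this
    simpa using this

/-- The elementary group acts freely on generic triples and moves them off themselves. -/
theorem E_free {v : VV} (hv : Om v) (g : Matˣ) (hg : g ∈ Subgroup.closure TV)
    (h : Om (mact (g : Mat) v)) : g = 1 := by
  obtain ⟨d, hd⟩ := hv
  obtain ⟨d', hd'⟩ := h
  have h1 := D_of_mem hd g hg
  have h2 := red_of_Om (g : Mat) hd'
  have h3 := D.base_of_red (sized v hd.bv) K1 K2 hd'.1 h1 h2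
  obtain ⟨x, y, w, e0, e1, e2, hx, hy, hw, -⟩ := h3
  have hdd : d = d' := by
    have h4 := hd.size x hx
    rw [← e0, h2.ha] at h4
    exact h4.symm
  subst hdd
  obtain ⟨-, -, z, ⟨t, ht, hzt⟩, hz⟩ := hd
  obtain ⟨-, -, z', -, hz'⟩ := hd'
  have hz1 : z t = 1 := (k01 _).resolve_left hzt
  have r0 : ∀ l, x l = if (0 : Fin 3) = l then z' t else 0 := by
    intro l
    have h5 := act_emb_top hz x l t ht
    rw [← e0] at h5
    have h6 := hz' 0 l t ht
    rw [mact, h5, hz1, mul_one] at h6
    exact h6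
  have r1 : ∀ l, y l = if (1 : Fin 3) = l then z' t else 0 := by
    intro l
    have h5 := act_emb_top hz y l t ht
    rw [← e1] at h5
    have h6 := hz' 1 l t ht
    rw [mact, h5, hz1, mul_one] at h6
    exact h6
  have r2 : ∀ l, w l = if (2 : Fin 3) = l then z' t else 0 := by
    intro l
    have h5 := act_emb_top hz w l t ht
    rw [← e2] at h5
    have h6 := hz' 2 l t ht
    rw [mact, h5, hz1, mul_one] at h6
    exact h6
  have hz0 : z' t = 1 := by
    refine (k01 _).resolve_left fun h0 => hx ?_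
    funext l
    rw [r0, h0, ite_self]; rfl
  apply Units.ext
  rw [Units.val_one]
  funext i j
  fin_cases i
  · change (g : Mat) 0 j = (1 : Mat) 0 j
    rw [e0, emb, r0, hz0, Matrix.one_apply]
    split_ifs <;> simp
  · change (g : Mat) 1 j = (1 : Mat) 1 j
    rw [e1, emb, r1, hz0, Matrix.one_apply]
    split_ifs <;> simp
  · change (g : Mat) 2 j = (1 : Mat) 2 j
    rw [e2, emb, r2, hz0, Matrix.one_apply]
    split_ifs <;> simp

/-- The matrix over `R` attached to a matrix unit. -/
noncomputable def MR (β : Bet) : Mat := fun i j => (⟨Mx β.1 i j, Mx_RA β i j⟩ : ↥RA)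

theorem ev_MR (β : Bet) (i j : Fin 3) : ev (MR β i j) = Mx β.1 i j := rfl

theorem mact_MR (β : Bet) (v : VV) : mact (MR β) v = X β.1 v := by
  funext i
  simp only [mact, act, ev_MR, Mx_apply]
  have : X β.1 v = ∑ j, X β.1 (Pi.single j (v j)) := by
    rw [← map_sum]
    congr 1
    funext i
    simp
  rw [this, Finset.sum_apply]

theorem MR_mul_zero : MR ⟨(0, 1), by decide⟩ * MR ⟨(0, 1), by decide⟩ = 0 := by
  funext i j
  apply ev_inj
  rw [Matrix.mul_apply, map_sum]
  simp only [map_mul, ev_MR]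
  have := congrFun (congrFun (Mx_mul (0, 1) (0, 1)) i) j
  rw [Matrix.mul_apply] at this
  rw [this]
  simp

theorem MR_one : MR ⟨(0, 1), by decide⟩ * MR ⟨(1, 0), by decide⟩ +
    MR ⟨(1, 0), by decide⟩ * MR ⟨(0, 1), by decide⟩ = 1 := by
  funext i j
  apply ev_inj
  rw [Matrix.add_apply, Matrix.mul_apply, Matrix.mul_apply, map_add, map_sum, map_sum]
  simp only [map_mul, ev_MR]
  have h1 := congrFun (congrFun (Mx_mul (0, 1) (1, 0)) i) j
  have h2 := congrFun (congrFun (Mx_mul (1, 0) (0, 1)) i) j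
  rw [Matrix.mul_apply] at h1 h2
  rw [h1, h2]
  simp only [if_true]
  rw [← Matrix.add_apply, Mx_sum, Matrix.one_apply, Matrix.one_apply]
  split_ifs
  · rw [map_one]
  · rw [map_zero]

/-- The nilpotent matrix. -/
noncomputable def eps : Mat := MR ⟨(0, 1), by decide⟩

theorem mat_two (a : Mat) : a + a = 0 := by
  funext i j
  rw [Matrix.add_apply]
  have := congrArg (fun x => x * a i j) Rchar
  simpa [add_mul] using this

theorem one_add_eps_sq : (1 + eps) * (1 + eps) = 1 := by
  have h : eps * eps = 0 := MR_mul_zero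
  rw [mul_add, add_mul, add_mul, h, one_mul, mul_one, one_mul, add_zero, add_assoc, mat_two,
    add_zero]

/-- The unit `1 + eps`. -/
noncomputable def xu : Matˣ := ⟨1 + eps, 1 + eps, one_add_eps_sq, one_add_eps_sq⟩

theorem xu_sq : xu * xu = 1 := Units.ext one_add_eps_sq

theorem xu_inv : xu⁻¹ = xu := inv_eq_of_mul_eq_one_left xu_sq

theorem mact_xu (v : VV) : mact (xu : Mat) v = v + X (0, 1) v := by
  change mact (1 + eps) v = _
  rw [mact_add, mact_one]
  congr 1
  exact mact_MR _ v

/-- Ping-pong for `xu`. -/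
theorem xu_Om {v : VV} (hb : ∀ i, Bv (v i)) (h0 : v ≠ 0) (hn : ¬ Om v) :
    Om (mact (xu : Mat) v) := by
  obtain ⟨d, hd⟩ : ∃ d, d = max (vsz (v 0)) (max (vsz (v 1)) (vsz (v 2))) := ⟨_, rfl⟩
  have hle : ∀ i, vsz (v i) ≤ d := by
    intro i
    fin_cases i
    · change vsz (v 0) ≤ d; omega
    · change vsz (v 1) ≤ d; omega
    · change vsz (v 2) ≤ d; omega
  have hbd : ∀ i, Bd d (v i) := fun i => (vsz_spec (hb i)).mono (hle i)
  have hex : ∃ i, vsz (v i) = d := by
    rcases le_total (vsz (v 0)) (max (vsz (v 1)) (vsz (v 2))) with h | h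
    · rcases le_total (vsz (v 1)) (vsz (v 2)) with h' | h'
      · exact ⟨2, by omega⟩
      · exact ⟨1, by omega⟩
    · exact ⟨0, by omega⟩
  have hd0 : d ≠ 0 := by
    rintro rfl
    apply h0
    funext i
    exact eq_zero_of_vsz (hb i) (Nat.le_zero.1 (hle i))
  obtain ⟨i0, hi0⟩ := hex
  obtain ⟨l0, t0, ht0, hv0⟩ := vsz_top (hb i0) (by omega)
  rw [hi0] at ht0
  have hnon : ∃ (α : Alp) (t : Tl), t.len = d ∧
      v α.1.1 α.1.2 t + (if α.1.1 = α.1.2 then v 2 2 t else 0) ≠ 0 := by
    by_contra hcon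
    push Not at hcon
    apply hn
    have hsc : ∀ i l t, Tl.len t = d → v i l t = if i = l then v 2 2 t else 0 := by
      intro i l t ht
      by_cases hil : (i, l) ≠ (2, 2)
      · have := hcon ⟨(i, l), hil⟩ t ht
        simp only at this
        split_ifs at this ⊢ with h1
        · have h2 := ksum (v 2 2 t)
          linear_combination this - h2
        · rw [add_zero] at this
          exact this
      · have h' : i = 2 ∧ l = 2 := by
          have := not_not.1 hil
          simpa [Prod.ext_iff] using this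
        obtain ⟨rfl, rfl⟩ := h'
        simp
    refine ⟨d, hd0, hbd, fun t => v 2 2 t, ⟨t0, ht0, ?_⟩, hsc⟩
    intro h
    apply hv0
    rw [hsc i0 l0 t0 ht0]
    simp only at h
    rw [h, ite_self]
  obtain ⟨α, t, ht, hne⟩ := hnon
  rw [mact_xu]
  refine ⟨d + 1, Nat.succ_ne_zero d, ?_, ?_⟩
  · intro i
    exact ((hbd i).mono (Nat.le_succ d)).add (X_bd hbd (0, 1) i)
  · refine ⟨fun t' => match t' with
      | .base _ => 0
      | .cons β' α' t'' => if β' = ⟨(0, 1), by decide⟩ then
          v α'.1.1 α'.1.2 t'' + (if α'.1.1 = α'.1.2 then v 2 2 t'' else 0) else 0, ?_, ?_⟩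
    · refine ⟨.cons ⟨(0, 1), by decide⟩ α t, by simp [Tl.len, ht], ?_⟩
      simpa using hne
    · intro i l t' ht'
      cases t' with
      | base a => simp [Tl.len] at ht'; omega
      | cons β' α' t'' =>
        have h1 : v i l (.cons β' α' t'') = 0 := hbd i l _ (by rw [ht']; omega)
        have h2 := X_top hbd ⟨(0, 1), by decide⟩ i l β' α' t'' (by simpa [Tl.len] using ht')
        rw [Pi.add_apply, Pi.add_apply, Pi.add_apply, h1, zero_add]
        exact h2

/-- Alternating words in conjugates of `xu`. -/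
inductive Wd (E : Subgroup Matˣ) : Matˣ → Matˣ → Matˣ → Prop
  | one {e : Matˣ} : e ∈ E → Wd E (e * xu * e⁻¹) e e
  | cons {e n e1 ek : Matˣ} : e ∈ E → Wd E n e1 ek → e ≠ e1 → Wd E (e * xu * e⁻¹ * n) e ek

theorem conj_sq (e : Matˣ) : e * xu * e⁻¹ * (e * xu * e⁻¹) = 1 := by
  have : e * xu * e⁻¹ * (e * xu * e⁻¹) = e * (xu * xu) * e⁻¹ := by group
  rw [this, xu_sq, mul_one, mul_inv_cancel]

theorem conj_inv (e : Matˣ) : (e * xu * e⁻¹)⁻¹ = e * xu * e⁻¹ :=
  inv_eq_of_mul_eq_one_left (conj_sq e)

theorem Wd_of_mem (E : Subgroup Matˣ) (n : Matˣ)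
    (hn : n ∈ Subgroup.closure {y | ∃ e ∈ E, y = e * xu * e⁻¹}) :
    n = 1 ∨ ∃ e1 ek, Wd E n e1 ek := by
  have step : ∀ e ∈ E, ∀ y : Matˣ, (y = 1 ∨ ∃ e1 ek, Wd E y e1 ek) →
      (e * xu * e⁻¹ * y = 1 ∨ ∃ e1 ek, Wd E (e * xu * e⁻¹ * y) e1 ek) := by
    intro e he y hy
    rcases hy with rfl | ⟨e1, ek, hw⟩
    · right
      rw [mul_one]
      exact ⟨e, e, Wd.one he⟩
    · by_cases h : e = e1
      · subst h
        cases hw with
        | one h1 => left; exact conj_sq e
        | cons h1 h2 h3 =>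
          right
          rw [← mul_assoc, conj_sq, one_mul]
          exact ⟨_, _, h2⟩
      · right
        exact ⟨e, ek, Wd.cons he hw h⟩
  refine Subgroup.closure_induction_left (p := fun (g : Matˣ) _ =>
    g = 1 ∨ ∃ e1 ek, Wd E g e1 ek) (Or.inl rfl) ?_ ?_ hn
  · rintro x ⟨e, he, rfl⟩ y _ hy
    exact step e he y hy
  · rintro x ⟨e, he, rfl⟩ y _ hy
    rw [conj_inv]
    exact step e he y hy

theorem Wd.mem {E : Subgroup Matˣ} {n e1 ek : Matˣ} (h : Wd E n e1 ek) : e1 ∈ E ∧ ek ∈ E := by
  induction h with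
  | one h => exact ⟨h, h⟩
  | cons h _ _ ih => exact ⟨h, ih.2⟩

theorem mact_inv_ne (g : Matˣ) {v : VV} (hv : v ≠ 0) : mact (g : Mat) v ≠ 0 := by
  intro h
  apply hv
  have : mact ((g⁻¹ : Matˣ) : Mat) (mact (g : Mat) v) = v := by
    rw [← mact_mul, ← Units.val_mul, inv_mul_cancel, Units.val_one, mact_one]
  rw [← this, h]
  funext i
  simp [mact, act]

theorem Om.ne_zero {v : VV} (h : Om v) : v ≠ 0 := by
  obtain ⟨d, -, -, z, ⟨t, ht, hzt⟩, hz⟩ := h
  rintro rfl
  have := hz 0 0 t ht
  simp at this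
  exact hzt this.symm

theorem Om.bv {v : VV} (h : Om v) (i : Fin 3) : Bv (v i) := by
  obtain ⟨d, hd⟩ := h
  exact hd.bv i

theorem pingpong {n e1 ek : Matˣ} (h : Wd (Subgroup.closure TV) n e1 ek) :
    ∀ w : VV, (∀ i, Bv (w i)) → w ≠ 0 → ¬ Om (mact ((ek⁻¹ : Matˣ) : Mat) w) →
      Om (mact ((e1⁻¹ * n : Matˣ) : Mat) w) := by
  induction h with
  | @one e he =>
    intro w hb h0 hn
    have e2 : e⁻¹ * (e * xu * e⁻¹) = xu * e⁻¹ := by group
    rw [e2, Units.val_mul, mact_mul]
    exact xu_Om (mact_bv _ hb) (mact_inv_ne _ h0) hn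
  | @cons e n e1 ek he hw hne ih =>
    intro w hb h0 hn
    have h1 := ih w hb h0 hn
    have e2 : e⁻¹ * (e * xu * e⁻¹ * n) = xu * ((e⁻¹ * e1) * (e1⁻¹ * n)) := by group
    rw [e2, Units.val_mul, mact_mul, Units.val_mul, mact_mul]
    refine xu_Om (mact_bv _ (mact_bv _ hb)) (mact_inv_ne _ (mact_inv_ne _ h0)) ?_
    intro h2
    have h3 := E_free h1 (e⁻¹ * e1) (mul_mem (inv_mem he) hw.mem.1) h2
    exact hne (inv_mul_eq_one.1 h3)

/-- The base vector. -/
def v0 : VV := fun i l t => if i = l then (match t with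
  | .base a => if a = 0 then 1 else 0
  | .cons _ _ _ => 0) else 0

theorem v0_Om : Om v0 := by
  refine ⟨1, one_ne_zero, ?_, fun t => (match t with
    | .base a => if a = 0 then 1 else 0
    | .cons _ _ _ => 0), ⟨.base 0, rfl, by simp⟩, fun _ _ _ _ => rfl⟩
  intro i l t ht
  cases t with
  | base a => simp [Tl.len] at ht
  | cons β α t => simp [v0]

open scoped commutatorElement

/-- A transvection. -/
noncomputable def tvm (i j : Fin 3) (c : R) : Mat := 1 + Matrix.of (fun a b => if a = i ∧ b = j then c else 0)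

theorem tvm_sq (i j : Fin 3) (hij : i ≠ j) (c : R) : tvm i j c * tvm i j c = 1 := by
  obtain ⟨h1, h2⟩ := tv_row (g := tvm i j c) (i := i) (j := j) (c := c) rfl (tvm i j c)
  have hr : ∀ r : R, r + r = 0 := by
    intro r
    have := congrArg (fun x => x * r) Rchar
    simpa [add_mul] using this
  funext a b
  by_cases ha : a = i
  · subst ha
    rw [h1]
    simp only [tvm, Pi.add_apply, Pi.smul_apply, smul_eq_mul, Matrix.add_apply, Matrix.of_apply,
      Matrix.one_apply, true_and]
    have hji : j ≠ a := Ne.symm hij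
    simp only [hji, false_and, if_false, add_zero]
    by_cases hb : b = j
    · subst hb
      simp only [hij, if_false, if_true, mul_one, zero_add]
      exact hr c
    · have : ¬ j = b := fun h => hb h.symm
      simp [hb, this]
  · rw [h2 a ha]
    simp [tvm, ha]

/-- A transvection as a unit. -/
noncomputable def tvu (i j : Fin 3) (hij : i ≠ j) (c : R) : Matˣ := ⟨tvm i j c, tvm i j c, tvm_sq i j hij c,
  tvm_sq i j hij c⟩

theorem tvu_mem (i j : Fin 3) (hij : i ≠ j) (c : R) : tvu i j hij c ∈ TV := ⟨i, j, c, hij, rfl⟩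

theorem R_one_ne : (1 : R) ≠ 0 := by
  intro h
  have h1 : v0 0 = 0 := by
    have : ev 1 (v0 0) = ev 0 (v0 0) := by rw [h]
    rw [map_one, map_zero] at this
    simpa using this
  have := congrFun (congrFun h1 0) (.base 0)
  simp [v0] at this

theorem not_le : ¬ (Subgroup.closure TV ≤
    Subgroup.closure {y : Matˣ | ∃ e ∈ Subgroup.closure TV, y = e * xu * e⁻¹}) := by
  intro hle
  have hx : tvu 0 1 (by decide) 1 ∈ Subgroup.closure TV := Subgroup.subset_closure (tvu_mem _ _ _ _)
  have hy : tvu 1 0 (by decide) 1 ∈ Subgroup.closure TV := Subgroup.subset_closure (tvu_mem _ _ _ _)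
  have hx1 : tvu 0 1 (by decide) 1 ≠ 1 := by
    intro h
    have := congrFun (congrFun (congrArg (fun u : Matˣ => (u : Mat)) h) 0) 1
    simp [tvu, tvm] at this
    exact R_one_ne this
  have hy1 : tvu 1 0 (by decide) 1 ≠ 1 := by
    intro h
    have := congrFun (congrFun (congrArg (fun u : Matˣ => (u : Mat)) h) 1) 0
    simp [tvu, tvm] at this
    exact R_one_ne this
  have hxy : tvu 0 1 (by decide) 1 ≠ tvu 1 0 (by decide) 1 := by
    intro h
    have := congrFun (congrFun (congrArg (fun u : Matˣ => (u : Mat)) h) 0) 1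
    simp [tvu, tvm] at this
    exact R_one_ne this
  rcases Wd_of_mem _ _ (hle hx) with h1 | ⟨e1, ek, hw⟩
  · exact hx1 h1
  · have key : ∀ g ∈ Subgroup.closure TV, g ≠ 1 →
        e1⁻¹ * tvu 0 1 (by decide) 1 * ek * g = 1 := by
      intro g hg hg1
      have hb : ∀ i, Bv (mact ((ek * g : Matˣ) : Mat) v0 i) := mact_bv _ v0_Om.bv
      have h2 := pingpong hw (mact ((ek * g : Matˣ) : Mat) v0) hb
        (mact_inv_ne _ v0_Om.ne_zero) (by
          rw [← mact_mul, ← Units.val_mul, inv_mul_cancel_left]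
          intro h
          exact hg1 (E_free v0_Om g hg h))
      rw [← mact_mul, ← Units.val_mul] at h2
      have h3 := E_free v0_Om (e1⁻¹ * tvu 0 1 (by decide) 1 * (ek * g))
        (mul_mem (mul_mem (inv_mem hw.mem.1) hx) (mul_mem hw.mem.2 hg)) h2
      rw [← mul_assoc] at h3
      exact h3
    have h4 := key _ hx hx1
    have h5 := key _ hy hy1
    rw [← h5] at h4
    exact hxy (mul_left_cancel h4)

theorem of_mul_apply (i j : Fin 3) (c : R) (S : Mat) (p q : Fin 3) :
    ((Matrix.of (fun a b => if a = i ∧ b = j then c else 0) : Mat) * S) p q =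
      if p = i then c * S j q else 0 := by
  rw [Matrix.mul_apply]
  by_cases ha : p = i
  · simp only [ha, Matrix.of_apply, true_and, if_true]
    rw [Finset.sum_eq_single j]
    · simp
    · intro l _ hl; simp [hl]
    · intro h; exact absurd (Finset.mem_univ _) h
  · simp [ha]

theorem mul_of_apply (i j : Fin 3) (c : R) (S : Mat) (p q : Fin 3) :
    (S * (Matrix.of (fun a b => if a = i ∧ b = j then c else 0) : Mat)) p q =
      if q = j then S p i * c else 0 := by
  rw [Matrix.mul_apply]
  by_cases ha : q = j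
  · simp only [ha, Matrix.of_apply, and_true, if_true]
    rw [Finset.sum_eq_single i]
    · simp
    · intro l _ hl; simp [hl]
    · intro h; exact absurd (Finset.mem_univ _) h
  · simp [ha]

theorem ideal_top (I : TwoSidedIdeal R)
    (hI : ∀ g ∈ ⁅Subgroup.closure {y : Matˣ | ∃ e ∈ Subgroup.closure TV, y = e * xu * e⁻¹},
      Subgroup.closure TV⁆, ∀ i j : Fin 3, (g : Mat) i j - (1 : Mat) i j ∈ I) : I = ⊤ := by
  have hxN : xu ∈ Subgroup.closure {y : Matˣ | ∃ e ∈ Subgroup.closure TV, y = e * xu * e⁻¹} :=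
    Subgroup.subset_closure ⟨1, one_mem _, by simp⟩
  -- commutator relation modulo the ideal
  have h1 : ∀ (i j : Fin 3) (_ : i ≠ j) (c : R) (p q : Fin 3),
      (if q = j then eps p i * c else 0) - (if p = i then c * eps j q else 0) ∈ I := by
    intro i j hij c p q
    have hg := hI ⁅xu, tvu i j hij c⁆ (Subgroup.commutator_mem_commutator hxN
      (Subgroup.subset_closure (tvu_mem i j hij c)))
    obtain ⟨C, hC⟩ : ∃ C : Matˣ, C = ⁅xu, tvu i j hij c⁆ := ⟨_, rfl⟩
    rw [← hC] at hg
    have hrel : C * (tvu i j hij c * xu) = xu * tvu i j hij c := by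
      rw [hC, commutatorElement_def]; group
    have hrelM : (C : Mat) * (tvm i j c * (1 + eps)) = (1 + eps) * tvm i j c := by
      have := congrArg (fun u : Matˣ => (u : Mat)) hrel
      exact this
    have e : eps * (Matrix.of (fun a b => if a = i ∧ b = j then c else 0) : Mat) -
        (Matrix.of (fun a b => if a = i ∧ b = j then c else 0) : Mat) * eps =
        ((C : Mat) - 1) * (tvm i j c * (1 + eps)) := by
      rw [sub_mul, hrelM, one_mul, tvm]
      generalize (Matrix.of (fun a b => if a = i ∧ b = j then c else 0) : Mat) = T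
      noncomm_ring
    have e2 := congrFun (congrFun e p) q
    rw [Matrix.sub_apply, of_mul_apply, mul_of_apply] at e2
    rw [e2, Matrix.mul_apply]
    refine sum_mem fun l _ => ?_
    exact I.mul_mem_right _ _ (hg p l)
  have hoff : ∀ p i : Fin 3, p ≠ i → eps p i ∈ I := by
    intro p i hpi
    obtain ⟨j, hj⟩ : ∃ j : Fin 3, i ≠ j := by
      fin_cases i
      · exact ⟨1, by decide⟩
      · exact ⟨0, by decide⟩
      · exact ⟨0, by decide⟩
    have := h1 i j hj 1 p j
    simpa [hpi] using this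
  have hdiag : ∀ c : R, eps 0 0 * c - c * eps 1 1 ∈ I := by
    intro c
    have := h1 0 1 (by decide) c 0 1
    simpa using this
  have hone : eps 0 0 - eps 1 1 ∈ I := by
    have := hdiag 1
    simpa using this
  have hM : (eps * MR ⟨(1, 0), by decide⟩ + MR ⟨(1, 0), by decide⟩ * eps) 0 0 = 1 := by
    have := congrFun (congrFun MR_one 0) 0
    rw [Matrix.one_apply_eq] at this
    exact this
  obtain ⟨T, hT⟩ : ∃ T : Mat, T = MR ⟨(1, 0), by decide⟩ := ⟨_, rfl⟩
  rw [← hT, Matrix.add_apply, Matrix.mul_apply, Matrix.mul_apply, Fin.sum_univ_three,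
    Fin.sum_univ_three] at hM
  rw [← TwoSidedIdeal.one_mem_iff, ← hM]
  have h01 := hoff 0 1 (by decide)
  have h02 := hoff 0 2 (by decide)
  have h10 := hoff 1 0 (by decide)
  have h20 := hoff 2 0 (by decide)
  have hkey : eps 0 0 * T 0 0 + T 0 0 * eps 0 0 ∈ I := by
    have a1 := hdiag (T 0 0)
    have a2 := I.mul_mem_left (T 0 0) _ hone
    have a3 := I.sub_mem a1 a2
    have hr : ∀ r : R, r + r = 0 := by
      intro r
      have := congrArg (fun x => x * r) Rchar
      simpa [add_mul] using this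
    have e : eps 0 0 * T 0 0 + T 0 0 * eps 0 0 =
        eps 0 0 * T 0 0 - T 0 0 * eps 1 1 - T 0 0 * (eps 0 0 - eps 1 1) := by
      have := hr (T 0 0 * eps 0 0)
      rw [mul_sub]
      have e' : T 0 0 * eps 0 0 = -(T 0 0 * eps 0 0) := eq_neg_of_add_eq_zero_left this
      nth_rewrite 1 [e']
      abel
    rw [e]
    exact a3
  have e : eps 0 0 * T 0 0 + eps 0 1 * T 1 0 + eps 0 2 * T 2 0 +
      (T 0 0 * eps 0 0 + T 0 1 * eps 1 0 + T 0 2 * eps 2 0) =
      (eps 0 0 * T 0 0 + T 0 0 * eps 0 0) + (eps 0 1 * T 1 0 + eps 0 2 * T 2 0 +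
        (T 0 1 * eps 1 0 + T 0 2 * eps 2 0)) := by abel
  rw [e]
  exact I.add_mem hkey (I.add_mem (I.add_mem (I.mul_mem_right _ _ h01) (I.mul_mem_right _ _ h02))
    (I.add_mem (I.mul_mem_left _ _ h10) (I.mul_mem_left _ _ h20)))

end Gs



/-- The negation of the preceding statement: For any ring R, n at least 3, and subgroup N of GL_n(R) normalized by the elementary subgroup E_n(R): either N contains E_n(R), or some proper two-sided ideal I makes every element of the commutator [N, E_n(R)] congruent to the identity mod I. -/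
theorem result :
    ¬ (∀ (R : Type) [Ring R] (n : ℕ), 3 ≤ n →
      ∀ E : Subgroup (Matrix (Fin n) (Fin n) R)ˣ,
        E = Subgroup.closure
          {g : (Matrix (Fin n) (Fin n) R)ˣ |
            ∃ i j : Fin n, ∃ c : R, i ≠ j ∧
              (g : Matrix (Fin n) (Fin n) R) =
                1 + Matrix.of (fun a b => if a = i ∧ b = j then c else 0)} →
      ∀ N : Subgroup (Matrix (Fin n) (Fin n) R)ˣ,
        (∀ e ∈ E, ∀ x ∈ N, e * x * e⁻¹ ∈ N) →
        E ≤ N ∨
          ∃ I : TwoSidedIdeal R, I ≠ ⊤ ∧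
            ∀ g ∈ ⁅N, E⁆, ∀ i j : Fin n,
              (g : Matrix (Fin n) (Fin n) R) i j - (1 : Matrix (Fin n) (Fin n) R) i j ∈ I) := by
  intro H
  have h := H Gs.R 3 le_rfl (Subgroup.closure Gs.TV) rfl
    (Subgroup.closure {y | ∃ e ∈ Subgroup.closure Gs.TV, y = e * Gs.xu * e⁻¹}) (by
      intro e he x hx
      refine Subgroup.closure_induction (p := fun x _ => e * x * e⁻¹ ∈ Subgroup.closure
        {y | ∃ e ∈ Subgroup.closure Gs.TV, y = e * Gs.xu * e⁻¹}) ?_ ?_ ?_ ?_ hx
      · rintro _ ⟨e', he', rfl⟩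
        refine Subgroup.subset_closure ⟨e * e', mul_mem he he', ?_⟩
        group
      · rw [mul_one, mul_inv_cancel]; exact one_mem _
      · intro x y _ _ h1 h2
        have : e * (x * y) * e⁻¹ = (e * x * e⁻¹) * (e * y * e⁻¹) := by group
        rw [this]
        exact mul_mem h1 h2
      · intro x _ h1
        have : e * x⁻¹ * e⁻¹ = (e * x * e⁻¹)⁻¹ := by group
        rw [this]
        exact inv_mem h1)
  rcases h with h | ⟨I, hI, h⟩
  · exact Gs.not_le h
  · exact hI (Gs.ideal_top I h)

end Pool.Agent.S00800
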