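import Pool.Statements.S00824
import Pool.Agent.Helper693.Gt.Ring
import Pool.Agent.Helper693.Gt.R4

set_option autoImplicit false
open Pool Pool.MP_4e4efc_al

namespace Pool.Agent.S00824

open Pool.Agent.Helper693 Pool.Agent.Helper693.R4

/-- a cyclic module with prime annihilator is indecomposable -/
theorem quot_indec (i : ℕ) (p q : Submodule Rg (Rg ⧸ mR i)) (h : IsCompl p q) :
    p = ⊥ ∨ q = ⊥ := by
  by_contra hcon
  push Not at hcon
  obtain ⟨hp, hq⟩ := hcon
  obtain ⟨a, ha, ha0⟩ := Submodule.exists_mem_ne_zero_of_ne_bot hp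
  obtain ⟨b, hb, hb0⟩ := Submodule.exists_mem_ne_zero_of_ne_bot hq
  obtain ⟨r, rfl⟩ := Ideal.Quotient.mk_surjective a
  obtain ⟨s, rfl⟩ := Ideal.Quotient.mk_surjective b
  have h1 : Ideal.Quotient.mk (mR i) r * Ideal.Quotient.mk (mR i) s ∈ p := by
    have := p.smul_mem s ha
    rw [Algebra.smul_def] at this
    rw [mul_comm]
    exact this
  have h2 : Ideal.Quotient.mk (mR i) r * Ideal.Quotient.mk (mR i) s ∈ q := by
    have := q.smul_mem r hb
    rw [Algebra.smul_def] at this
    exact this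
  have h3 := (Submodule.disjoint_def.1 h.disjoint) _ h1 h2
  rcases mul_eq_zero.1 h3 with h4 | h4
  · exact ha0 h4
  · exact hb0 h4

/-- infinitely many finitely generated indecomposables -/
theorem infinite_type : ¬ ∃ n : ℕ, ∀ (M : Fin (n + 1) → Type) [∀ i, AddCommGroup (M i)]
    [∀ i, Module Rg (M i)],
          (∀ i, Nontrivial (M i) ∧
            (∀ p q : Submodule Rg (M i), IsCompl p q → p = ⊥ ∨ q = ⊥) ∧
            Module.Finite Rg (M i)) →
          ∃ i j, i ≠ j ∧ Nonempty (M i ≃ₗ[Rg] M j) := by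
  rintro ⟨n, hn⟩
  obtain ⟨i, j, hij, ⟨e⟩⟩ := hn (fun i => Rg ⧸ mR i) (fun i =>
    ⟨Ideal.Quotient.nontrivial_iff.2 (mR_prime i).ne_top, quot_indec i, inferInstance⟩)
  apply hij
  have h := e.annihilator_eq
  rw [Ideal.annihilator_quotient, Ideal.annihilator_quotient] at h
  exact Fin.ext (mR_injective h)

/-- not generically tame -/
theorem not_tame : ¬ ∀ d : ℕ, ∃ n : ℕ, ∀ (M : Fin (n + 1) → Type) [∀ i, AddCommGroup (M i)]
            [∀ i, Module Rg (M i)],
            (∀ i, Nontrivial (M i) ∧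
              (∀ p q : Submodule Rg (M i), IsCompl p q → p = ⊥ ∨ q = ⊥) ∧
              ¬ Module.Finite Rg (M i) ∧
              Module.length (Module.End Rg (M i)) (M i) = (d : ℕ∞)) →
            ∃ i j, i ≠ j ∧ Nonempty (M i ≃ₗ[Rg] M j) := by
  intro h
  obtain ⟨n, hn⟩ := h 2
  choose G hG1 hG2 hG3 hG4 hG5 hG6 hG7 hG8 using generic_exists
  obtain ⟨i, j, hij, ⟨e⟩⟩ := hn (fun i => G i) (fun i =>
    ⟨hG3 i, hG4 i, hG5 i, by rw [hG6 i]; rfl⟩)
  have hne : (i : ℕ) ≠ (j : ℕ) := fun h => hij (Fin.ext h)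
  obtain ⟨g, hg⟩ := @exists_ne _ (hG3 j) (0 : G j)
  apply hg
  have h1 : (algebraMap Agl Rg ⟨sp i, sp_mem i⟩) ^ 2 • g = 0 := by
    have h2 := hG7 i (e.symm g)
    have h3 := congrArg e h2
    rw [map_smul, LinearEquiv.apply_symm_apply, map_zero] at h3
    exact h3
  have h2 := hG8 j i hne
  rw [pow_two, mul_smul] at h1
  exact h2 _ (h2 _ h1)

/-- The negation of the preceding statement: For every module-finite algebra over a commutative noetherian ring that has infinitely many finitely generated indecomposables up to isomorphism, exactly one holds: finitely many generic modules of each endolength, or some generic module has a non-PI endomorphism ring. -/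
theorem result :
    ¬ (∀ (k : Type) [CommRing k] [IsNoetherianRing k] (R : Type) [Ring R] [Algebra k R]
      [Module.Finite k R],
      (¬ ∃ n : ℕ, ∀ (M : Fin (n + 1) → Type) [∀ i, AddCommGroup (M i)] [∀ i, Module R (M i)],
          (∀ i, Nontrivial (M i) ∧
            (∀ p q : Submodule R (M i), IsCompl p q → p = ⊥ ∨ q = ⊥) ∧
            Module.Finite R (M i)) →
          ∃ i j, i ≠ j ∧ Nonempty (M i ≃ₗ[R] M j)) →
      Xor'
        (∀ d : ℕ, ∃ n : ℕ, ∀ (M : Fin (n + 1) → Type) [∀ i, AddCommGroup (M i)]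
            [∀ i, Module R (M i)],
            (∀ i, Nontrivial (M i) ∧
              (∀ p q : Submodule R (M i), IsCompl p q → p = ⊥ ∨ q = ⊥) ∧
              ¬ Module.Finite R (M i) ∧
              Module.length (Module.End R (M i)) (M i) = (d : ℕ∞)) →
            ∃ i j, i ≠ j ∧ Nonempty (M i ≃ₗ[R] M j))
        (∃ (G : Type) (_ : AddCommGroup G) (_ : Module R G),
          Nontrivial G ∧
          (∀ p q : Submodule R G, IsCompl p q → p = ⊥ ∨ q = ⊥) ∧
          ¬ Module.Finite R G ∧
          Module.length (Module.End R G) G < ⊤ ∧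
          ¬ ∃ n : ℕ, ∃ c : Equiv.Perm (Fin n) → ℤ, c 1 = 1 ∧
            ∀ x : Fin n → Module.End R G,
              ∑ σ : Equiv.Perm (Fin n), c σ • (List.ofFn (fun i => x (σ i))).prod = 0)) := by
  intro h
  rcases h Rg Rg infinite_type with h1 | h1
  · exact not_tame h1.1
  · obtain ⟨G, instG, modG, hnt, hind, hfin, hlen, hpi⟩ := h1.1
    exact hpi (generic_pi hnt hind hfin hlen)

end Pool.Agent.S00824
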