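import Pool.Statements.S00835
import Pool.Agent.Helper476.D6

set_option autoImplicit false
open Pool Pool.MP_4f47f1_al

namespace Pool.Agent.S00835

/-- For every soluble formation of finite groups with a chain of at most 4 maximal-subformation steps from the empty class, its subformations satisfy A ∩ (B ∨ C) ⊆ (A ∩ B) ∨ (A ∩ C), with ∨ meaning the generated formation. -/
theorem result :
  ∀ Φ : (∀ (G : Type) [Group G], Prop) → Prop,
    (∀ X : (∀ (G : Type) [Group G], Prop), Φ X ↔
      ((∀ (G : Type) [Group G], X G → Finite G) ∧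
       (∀ (G H : Type) [Group G] [Group H] (f : G →* H),
          Function.Surjective f → X G → X H) ∧
       (∀ (G : Type) [Group G] (N₁ N₂ : Subgroup G) [N₁.Normal] [N₂.Normal],
          N₁ ⊓ N₂ = ⊥ → X (G ⧸ N₁) → X (G ⧸ N₂) → X G))) →
    ∀ F : (∀ (G : Type) [Group G], Prop), Φ F →
      (∀ (G : Type) [Group G], F G → IsSolvable G) →
      (∃ t : ℕ, t ≤ 4 ∧ ∃ c : ℕ → (∀ (G : Type) [Group G], Prop),
         (∀ (G : Type) [Group G], ¬ c 0 G) ∧
         (∀ (G : Type) [Group G], c t G ↔ F G) ∧
         ∀ i : ℕ, i < t →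
           Φ (c i) ∧ Φ (c (i + 1)) ∧
           (∀ (G : Type) [Group G], c i G → c (i + 1) G) ∧
           (∃ G : Type, ∃ inst : Group G, c (i + 1) G ∧ ¬ c i G) ∧
           ∀ K : (∀ (G : Type) [Group G], Prop), Φ K →
             (∀ (G : Type) [Group G], c i G → K G) →
             (∀ (G : Type) [Group G], K G → c (i + 1) G) →
             ((∀ (G : Type) [Group G], K G → c i G) ∨
              (∀ (G : Type) [Group G], c (i + 1) G → K G))) →
      ∀ A B C : (∀ (G : Type) [Group G], Prop), Φ A → Φ B → Φ C →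
        (∀ (G : Type) [Group G], A G → F G) →
        (∀ (G : Type) [Group G], B G → F G) →
        (∀ (G : Type) [Group G], C G → F G) →
        ∀ (G : Type) [Group G], A G →
          (∀ K : (∀ (X : Type) [Group X], Prop), Φ K →
            (∀ (X : Type) [Group X], B X → K X) →
            (∀ (X : Type) [Group X], C X → K X) → K G) →
          ∀ K : (∀ (X : Type) [Group X], Prop), Φ K →
            (∀ (X : Type) [Group X], A X → B X → K X) →
            (∀ (X : Type) [Group X], A X → C X → K X) → K G := by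
  intro Φ hΦ F hF hsol hchain A B C hA hB hC hAF hBF hCF G _ hG hBC K hK hAB hAC
  have e : ∀ X : (∀ (G : Type) [Group G], Prop), Φ X → Pool.Agent.Helper476.D.IsF X :=
    fun X h => (hΦ X).1 h
  have e' : ∀ X : (∀ (G : Type) [Group G], Prop), Pool.Agent.Helper476.D.IsF X → Φ X :=
    fun X h => (hΦ X).2 h
  by_cases hBne : ∃ (G : Type) (_ : Group G), B G
  · by_cases hCne : ∃ (G : Type) (_ : Group G), C G
    · refine Pool.Agent.Helper476.D.main (e F hF) ?_ hsol A B C K (e A hA) (e B hB) (e C hC) (e K hK)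
        hAF hBF hCF hBne hCne hAB hAC G hG ?_
      · obtain ⟨t, ht, c, h0, h1, h2⟩ := hchain
        refine ⟨t, ht, c, h0, h1, ?_⟩
        intro i hi
        obtain ⟨a1, a2, a3, a4, a5⟩ := h2 i hi
        exact ⟨e _ a1, e _ a2, a3, a4, fun K hK => a5 K (e' K hK)⟩
      · exact hBC _ (e' _ (Pool.Agent.Helper476.D.Jn_form (e B hB) (e C hC)))
          (fun X _ h => Pool.Agent.Helper476.D.Jn_left (e C hC) hCne X h)
          (fun X _ h => Pool.Agent.Helper476.D.Jn_right (e B hB) hBne X h)
    · exact hAB G hG (hBC B hB (fun X _ h => h) (fun X _ h => absurd ⟨X, inferInstance, h⟩ hCne))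
  · exact hAC G hG (hBC C hC (fun X _ h => absurd ⟨X, inferInstance, h⟩ hBne) (fun X _ h => h))

end Pool.Agent.S00835
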