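import Pool.Statements.S00839
import Pool.Agent.H659Loop.Nilp

set_option autoImplicit false
open FirstOrder
open Pool Pool.MP_4f5d8b_al

namespace Pool.Agent.S00839

/-- There is a finite nilpotent loop (signature: identity, multiplication, left and right division) whose identities are not all consequences of any finite set of its identities. -/
theorem result :
    ∃ (Q : Type) (_ : Fintype Q)
      (_ : (FirstOrder.Language.mk (fun n => Fin (if n = 0 then 1 else if n = 2 then 3 else 0))
              (fun _ => Empty)).Structure Q)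
      (mul ldiv rdiv : Q → Q → Q) (e : Q),
      (∀ x y : Q,
        FirstOrder.Language.Structure.funMap
            (L := FirstOrder.Language.mk
              (fun n => Fin (if n = 0 then 1 else if n = 2 then 3 else 0)) (fun _ => Empty))
            (n := 2) (0 : Fin 3) ![x, y] = mul x y ∧
        FirstOrder.Language.Structure.funMap
            (L := FirstOrder.Language.mk
              (fun n => Fin (if n = 0 then 1 else if n = 2 then 3 else 0)) (fun _ => Empty))
            (n := 2) (1 : Fin 3) ![x, y] = ldiv x y ∧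
        FirstOrder.Language.Structure.funMap
            (L := FirstOrder.Language.mk
              (fun n => Fin (if n = 0 then 1 else if n = 2 then 3 else 0)) (fun _ => Empty))
            (n := 2) (2 : Fin 3) ![x, y] = rdiv x y) ∧
      FirstOrder.Language.Structure.funMap
          (L := FirstOrder.Language.mk
            (fun n => Fin (if n = 0 then 1 else if n = 2 then 3 else 0)) (fun _ => Empty))
          (M := Q) (n := 0) (0 : Fin 1) ![] = e ∧
      (∀ x y : Q, mul x (ldiv x y) = y ∧ ldiv x (mul x y) = y ∧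
        mul (rdiv y x) x = y ∧ rdiv (mul y x) x = y) ∧
      (∀ x : Q, mul e x = x ∧ mul x e = x) ∧
      (∃ (n : ℕ) (Z : ℕ → Set Q), Z 0 = {e} ∧ Z n = Set.univ ∧
        ∀ k < n, Z (k + 1) = {a : Q | ∀ x y : Q,
          (∃ z ∈ Z k, mul a x = mul (mul x a) z) ∧
          (∃ z ∈ Z k, mul (mul a x) y = mul (mul a (mul x y)) z) ∧
          (∃ z ∈ Z k, mul (mul x a) y = mul (mul x (mul a y)) z) ∧
          (∃ z ∈ Z k, mul (mul x y) a = mul (mul x (mul y a)) z)}) ∧
      ¬ ∃ B : Finset ((FirstOrder.Language.mk
              (fun n => Fin (if n = 0 then 1 else if n = 2 then 3 else 0))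
              (fun _ => Empty)).Term ℕ ×
            (FirstOrder.Language.mk
              (fun n => Fin (if n = 0 then 1 else if n = 2 then 3 else 0))
              (fun _ => Empty)).Term ℕ),
          (∀ p ∈ B, ∀ v : ℕ → Q, p.1.realize v = p.2.realize v) ∧
          ∀ (M : Type) [(FirstOrder.Language.mk
              (fun n => Fin (if n = 0 then 1 else if n = 2 then 3 else 0))
              (fun _ => Empty)).Structure M],
            (∀ p ∈ B, ∀ w : ℕ → M, p.1.realize w = p.2.realize w) →
            ∀ t s : (FirstOrder.Language.mk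
                (fun n => Fin (if n = 0 then 1 else if n = 2 then 3 else 0))
                (fun _ => Empty)).Term ℕ,
              (∀ v : ℕ → Q, t.realize v = s.realize v) →
              ∀ w : ℕ → M, t.realize w = s.realize w := by
  refine ⟨Pool.Agent.H659Loop.Q, inferInstance, Pool.Agent.H659Loop.opQ.str,
    Pool.Agent.H659Loop.opQ.mul, Pool.Agent.H659Loop.opQ.ld, Pool.Agent.H659Loop.opQ.rd,
    Pool.Agent.H659Loop.opQ.e, ?_, rfl, ?_, ?_, ?_, ?_⟩
  · intro x y
    exact ⟨rfl, rfl, rfl⟩
  · intro x y
    exact ⟨Pool.Agent.H659Loop.mul_ld _ x y, Pool.Agent.H659Loop.ld_mul _ x y,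
      Pool.Agent.H659Loop.rd_mul _ y x, Pool.Agent.H659Loop.mul_rd _ y x⟩
  · intro x
    exact ⟨Pool.Agent.H659Loop.e_mul _ x, Pool.Agent.H659Loop.mul_e _ x⟩
  · exact ⟨3, Pool.Agent.H659Loop.ZZ, rfl, Pool.Agent.H659Loop.Z3, fun _ _ => rfl⟩
  · rintro ⟨B, hB, hall⟩
    obtain ⟨m, hm⟩ : ∃ m : ℕ, ∀ p ∈ B, Pool.Agent.H659Loop.vb p.1 ≤ m ∧
        Pool.Agent.H659Loop.vb p.2 ≤ m := by
      refine ⟨B.sup (fun p => max (Pool.Agent.H659Loop.vb p.1) (Pool.Agent.H659Loop.vb p.2)), ?_⟩
      intro p hp
      have h1 := Finset.le_sup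
        (f := fun p => max (Pool.Agent.H659Loop.vb p.1) (Pool.Agent.H659Loop.vb p.2)) hp
      exact ⟨le_trans (le_max_left _ _) h1, le_trans (le_max_right _ _) h1⟩
    have h2 := @hall (Pool.Agent.H659Loop.M (m + 1)) (Pool.Agent.H659Loop.opM (m + 1)).str
      (fun p hp w => Pool.Agent.H659Loop.transfer (fun v => hB p hp v) (m + 1) m
        (Nat.lt_succ_self m) (hm p hp).1 (hm p hp).2 w)
      (Pool.Agent.H659Loop.lhs m) (Pool.Agent.H659Loop.rhs m)
      (fun v => Pool.Agent.H659Loop.law_Q m v)
    exact Pool.Agent.H659Loop.law_M m h2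

end Pool.Agent.S00839
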