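import Pool.Statements.S00844
-- import your own Pool.Agent.* helpers here
import Pool.Agent.Helper282.Shift
import Pool.Agent.Helper282.SkewPS

set_option autoImplicit false
open Pool Pool.MP_503320_al

namespace Pool.Agent.S00844

open Helper282.SkewPS Helper282.SkewPS.PS

/-! ### Products of ideals -/

section Products

variable {R : Type} [Ring R]

/-- The product of a list of additive submonoids. -/
def pd (L : List (AddSubmonoid R)) : AddSubmonoid R :=
  L.foldr (fun P J => AddSubmonoid.closure {x : R | ∃ a ∈ P, ∃ b ∈ J, x = a * b}) ⊤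

theorem pd_cons (P : AddSubmonoid R) (L : List (AddSubmonoid R)) :
    pd (P :: L) = AddSubmonoid.closure {x : R | ∃ a ∈ P, ∃ b ∈ pd L, x = a * b} := rfl

theorem pd_ideal (L : List (AddSubmonoid R))
    (hL : ∀ P ∈ L, ∀ x r : R, x ∈ P → r * x ∈ P ∧ x * r ∈ P) :
    ∀ x r : R, x ∈ pd L → r * x ∈ pd L ∧ x * r ∈ pd L := by
  induction L with
  | nil => intro x r _; exact ⟨AddSubmonoid.mem_top _, AddSubmonoid.mem_top _⟩
  | cons P L ih =>
    have ih' := ih (fun P' hP' => hL P' (List.mem_cons_of_mem _ hP'))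
    have hP := hL P List.mem_cons_self
    intro x r hx
    rw [pd_cons] at hx ⊢
    induction hx using AddSubmonoid.closure_induction with
    | mem x hx =>
      obtain ⟨a, ha, b, hb, rfl⟩ := hx
      constructor
      · apply AddSubmonoid.subset_closure
        exact ⟨r * a, (hP a r ha).1, b, hb, by rw [mul_assoc]⟩
      · apply AddSubmonoid.subset_closure
        exact ⟨a, ha, b * r, (ih' b r hb).2, by rw [mul_assoc]⟩
    | zero => simp [AddSubmonoid.zero_mem]
    | add x y _ _ h1 h2 =>
      rw [mul_add, add_mul]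
      exact ⟨AddSubmonoid.add_mem _ h1.1 h2.1, AddSubmonoid.add_mem _ h1.2 h2.2⟩

theorem pd_le_tail (P : AddSubmonoid R) (L : List (AddSubmonoid R))
    (hL : ∀ P ∈ L, ∀ x r : R, x ∈ P → r * x ∈ P ∧ x * r ∈ P) : pd (P :: L) ≤ pd L := by
  rw [pd_cons, AddSubmonoid.closure_le]
  rintro x ⟨a, _, b, hb, rfl⟩
  exact (pd_ideal L hL b a hb).1

theorem pd_le (L : List (AddSubmonoid R))
    (hL : ∀ P ∈ L, ∀ x r : R, x ∈ P → r * x ∈ P ∧ x * r ∈ P) (Q : AddSubmonoid R)
    (hQ : Q ∈ L) : pd L ≤ Q := by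
  induction L with
  | nil => simp at hQ
  | cons P L ih =>
    have hL' : ∀ P ∈ L, ∀ x r : R, x ∈ P → r * x ∈ P ∧ x * r ∈ P :=
      fun P' hP' => hL P' (List.mem_cons_of_mem _ hP')
    rcases List.mem_cons.1 hQ with h | h
    · subst h
      rw [pd_cons, AddSubmonoid.closure_le]
      rintro x ⟨a, ha, b, _, rfl⟩
      exact (hL Q List.mem_cons_self a b ha).2
    · exact (pd_le_tail P L hL').trans (ih hL' h)

end Products

/-! ### The trichotomy for products of ideals containing the variable -/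

section Tri

variable {A : Type} [Ring A] [NoZeroDivisors A] {r : A →+* A}

theorem tri (hu : ∀ a : A, a ≠ 0 → IsUnit (r a)) (L : List (AddSubmonoid (PS A r)))
    (hL : ∀ P ∈ L, ∀ x s : PS A r, x ∈ P → s * x ∈ P ∧ x * s ∈ P)
    (hX : ∀ P ∈ L, (X : PS A r) ∈ P) :
    (∃ f ∈ pd L, f.co 0 ≠ 0) ∨
    (∃ J : AddSubmonoid (PS A r), (∀ x s : PS A r, x ∈ J → s * x ∈ J) ∧
      ∀ x, x ∈ pd L ↔ ∃ h ∈ J, x = X * h) ∨
    (∀ f ∈ pd L, f.co 0 = 0 ∧ f.co 1 = 0) ∨ (∀ a : A, a = 0) := by
  by_cases hA : ∀ a : A, a = 0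
  · right; right; right; exact hA
  induction L with
  | nil =>
    left
    refine ⟨1, AddSubmonoid.mem_top _, ?_⟩
    rw [one_co, if_pos rfl]
    intro h
    apply hA
    intro a
    rw [← mul_one a, h, mul_zero]
  | cons P L ih =>
    have hL' : ∀ P ∈ L, ∀ x s : PS A r, x ∈ P → s * x ∈ P ∧ x * s ∈ P :=
      fun P' hP' => hL P' (List.mem_cons_of_mem _ hP')
    have hX' : ∀ P ∈ L, (X : PS A r) ∈ P := fun P' hP' => hX P' (List.mem_cons_of_mem _ hP')
    have hP := hL P List.mem_cons_self
    have hXP := hX P List.mem_cons_self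
    by_cases hcase : ∀ g ∈ P, g.co 0 = 0
    · right; left
      refine ⟨pd L, fun x s hx => (pd_ideal L hL' x s hx).1, fun x => ⟨fun hx => ?_, ?_⟩⟩
      · rw [pd_cons] at hx
        induction hx using AddSubmonoid.closure_induction with
        | mem x hx =>
          obtain ⟨a, ha, b, hb, rfl⟩ := hx
          refine ⟨tail a * b, (pd_ideal L hL' b (tail a) hb).1, ?_⟩
          have h1 : a = X * tail a := by
            have h2 := eq_C_add a
            rw [hcase a ha] at h2
            have h3 : (C 0 : PS A r) = 0 := by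
              ext1 n; simp [C_co]
            rw [h3, zero_add] at h2
            exact h2
          rw [← mul_assoc, ← h1]
        | zero => exact ⟨0, AddSubmonoid.zero_mem _, by rw [mul_zero]⟩
        | add x y _ _ h1 h2 =>
          obtain ⟨a, ha, rfl⟩ := h1
          obtain ⟨b, hb, rfl⟩ := h2
          exact ⟨a + b, AddSubmonoid.add_mem _ ha hb, by rw [mul_add]⟩
      · rintro ⟨h, hh, rfl⟩
        rw [pd_cons]
        apply AddSubmonoid.subset_closure
        exact ⟨X, hXP, h, hh, rfl⟩
    · push Not at hcase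
      obtain ⟨g, hg, hg0⟩ := hcase
      have hCg : (C (g.co 0) : PS A r) ∈ P := by
        have h1 : (C (g.co 0) : PS A r) = g + X * (-tail g) := by
          nth_rewrite 2 [eq_C_add g]
          rw [mul_neg, add_neg_cancel_right]
        rw [h1]
        exact AddSubmonoid.add_mem _ hg (hP _ _ hXP).2
      rcases ih hL' hX' with h | h | h | h
      · left
        obtain ⟨f, hf, hf0⟩ := h
        refine ⟨C (g.co 0) * f, ?_, ?_⟩
        · rw [pd_cons]
          apply AddSubmonoid.subset_closure
          exact ⟨_, hCg, f, hf, rfl⟩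
        · rw [mul_co_zero, C_co, if_pos rfl]
          exact mul_ne_zero hg0 hf0
      · right; left
        obtain ⟨J, hJ, hJ2⟩ := h
        refine ⟨J, hJ, fun x => ⟨fun hx => (hJ2 x).1 (pd_le_tail P L hL' hx), ?_⟩⟩
        rintro ⟨h, hh, rfl⟩
        obtain ⟨u, hu'⟩ := hu _ hg0
        rw [pd_cons]
        apply AddSubmonoid.subset_closure
        refine ⟨C (g.co 0), hCg, X * (C ((u⁻¹ : Aˣ) : A) * h),
          (hJ2 _).2 ⟨_, hJ _ _ hh, rfl⟩, ?_⟩
        have h5 : (C (r (g.co 0)) : PS A r) * C ((u⁻¹ : Aˣ) : A) = 1 := by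
          rw [C_mul_C, ← hu', Units.mul_inv]
          ext1 n
          rw [C_co, one_co]
        rw [← mul_assoc (C (g.co 0)), C_mul_X, mul_assoc, ← mul_assoc (C (r (g.co 0))), h5,
          one_mul]
      · right; right; left
        intro f hf
        exact h f (pd_le_tail P L hL' hf)
      · right; right; right; exact h

end Tri

/-! ### Right ideals of a polynomial ring over a division ring -/

section Poly

variable {D : Type} [DivisionRing D]

theorem poly_principal (I : AddSubmonoid (Polynomial D))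
    (hI : ∀ x s : Polynomial D, x ∈ I → x * s ∈ I) :
    ∃ a : Polynomial D, ∀ x, x ∈ I ↔ ∃ s, x = a * s := by
  classical
  by_cases hne : ∃ n, ∃ f ∈ I, f ≠ 0 ∧ f.natDegree = n
  · obtain ⟨f0, hf0, hf00, hfn⟩ := Nat.find_spec hne
    have hmin : ∀ g ∈ I, g ≠ 0 → Nat.find hne ≤ g.natDegree := fun g hg hg0 =>
      Nat.find_min' hne ⟨g, hg, hg0, rfl⟩
    have hlc : f0.leadingCoeff ≠ 0 := Polynomial.leadingCoeff_ne_zero.2 hf00
    set f := f0 * Polynomial.C (f0.leadingCoeff⁻¹) with hf
    have hfI : f ∈ I := hI _ _ hf0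
    have hfm : f.Monic := by
      rw [Polynomial.Monic, hf, Polynomial.leadingCoeff_mul, Polynomial.leadingCoeff_C,
        mul_inv_cancel₀ hlc]
    have hfd : f.natDegree = Nat.find hne := by
      rw [hf, Polynomial.natDegree_mul_C (inv_ne_zero hlc), hfn]
    refine ⟨f, fun g => ⟨fun hg => ⟨g /ₘ f, ?_⟩, ?_⟩⟩
    · have h1 := Polynomial.modByMonic_add_div g f
      have h2 : g %ₘ f ∈ I := by
        have : g %ₘ f = g + f * (-(g /ₘ f)) := by
          nth_rewrite 2 [← h1]
          rw [mul_neg, add_neg_cancel_right]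
        rw [this]
        exact I.add_mem hg (hI _ _ hfI)
      have h3 : g %ₘ f = 0 := by
        by_contra h
        have h4 := hmin _ h2 h
        have h5 := Polynomial.natDegree_modByMonic_lt g hfm (by
          rintro h6
          rw [h6] at h
          exact h (Polynomial.modByMonic_one g))
        omega
      rw [h3, zero_add] at h1
      exact h1.symm
    · rintro ⟨s, rfl⟩
      exact hI _ _ hfI
  · push Not at hne
    refine ⟨0, fun x => ⟨fun hx => ⟨0, ?_⟩, ?_⟩⟩
    · by_contra h
      rw [mul_zero] at h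
      exact hne _ x hx h rfl
    · rintro ⟨s, rfl⟩
      rw [zero_mul]; exact I.zero_mem

theorem not_left_mul (t b : D) (hb : ¬ Commute b t) (g : Polynomial D) :
    Polynomial.C b * (Polynomial.X - Polynomial.C t) ≠ (Polynomial.X - Polynomial.C t) * g := by
  intro h
  have hb0 : b ≠ 0 := by
    rintro rfl
    exact hb (Commute.zero_left t)
  have hg0 : g ≠ 0 := by
    rintro rfl
    rw [mul_zero] at h
    rcases mul_eq_zero.1 h with h1 | h1
    · exact hb0 (Polynomial.C_eq_zero.1 h1)
    · exact Polynomial.X_sub_C_ne_zero t h1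
  have hd : g.natDegree = 0 := by
    have h1 := congrArg Polynomial.natDegree h
    rw [Polynomial.natDegree_C_mul hb0, (Polynomial.monic_X_sub_C t).natDegree_mul' hg0,
      Polynomial.natDegree_X_sub_C] at h1
    omega
  rw [Polynomial.eq_C_of_natDegree_eq_zero hd] at h
  set e := g.coeff 0
  have h1 := congrArg (fun p => Polynomial.coeff p 1) h
  have h0 := congrArg (fun p => Polynomial.coeff p 0) h
  simp only [Polynomial.coeff_C_mul, Polynomial.coeff_mul_C, Polynomial.coeff_sub,
    Polynomial.coeff_X_one, Polynomial.coeff_X_zero, Polynomial.coeff_C_succ,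
    Polynomial.coeff_C_zero, sub_zero, mul_one, one_mul, zero_sub] at h0 h1
  rw [← h1] at h0
  apply hb
  change b * t = t * b
  have h2 : -(b * t) = -(t * b) := by
    rw [← mul_neg, h0, neg_mul]
  exact neg_injective h2

end Poly

/-- The general counterexample, in terms of a division ring with suitable endomorphism. -/
theorem general (D : Type) [DivisionRing D] (s : D →+* D) (t b : D)
    (hst : ∀ x, Commute (s x) t) (hb : ¬ Commute b t)
    (htr : ∀ (N : ℕ) (q : ℕ → D), ∑ n ∈ Finset.range N, s (q n) * t ^ n = 0 →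
      ∀ n < N, q n = 0) :
    ¬ (∀ (R : Type) [Ring R], Nontrivial R →
      (∀ a b : R, (∀ r : R, a * r * b = 0) → a = 0 ∨ b = 0) →
      (∀ I : AddSubmonoid R, (∀ x r : R, x ∈ I → x * r ∈ I) →
          ∃ a : R, ∀ x : R, x ∈ I ↔ ∃ r : R, x = a * r) →
      ∀ I : AddSubmonoid R, (∀ x r : R, x ∈ I → r * x ∈ I ∧ x * r ∈ I) →
        ∃ L : List (AddSubmonoid R),
          (∀ P ∈ L, (∀ x r : R, x ∈ P → r * x ∈ P ∧ x * r ∈ P) ∧ (1 : R) ∉ P ∧
              ∀ a b : R, (∀ r : R, a * r * b ∈ P) → a ∈ P ∨ b ∈ P) ∧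
          L.foldr (fun P J => AddSubmonoid.closure {x : R | ∃ a ∈ P, ∃ b ∈ J, x = a * b}) ⊤
            = I) := by
  intro H
  let ev : Polynomial D →+* D := Polynomial.eval₂RingHom' s t hst
  have hev : ∀ f, ev f = 0 → f = 0 := by
    intro f hf
    have h1 : Polynomial.eval₂ s t f = 0 := hf
    rw [Polynomial.eval₂_eq_sum_range] at h1
    have h2 := htr _ _ h1
    ext n
    rcases lt_or_ge n (f.natDegree + 1) with h | h
    · simpa using h2 n h
    · simpa using Polynomial.coeff_eq_zero_of_natDegree_lt (by omega : f.natDegree < n)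
  let r : Polynomial D →+* Polynomial D := Polynomial.C.comp ev
  have hr : Function.Injective r := by
    rw [injective_iff_map_eq_zero]
    intro f hf
    apply hev
    exact Polynomial.C_eq_zero.1 hf
  have hu : ∀ a : Polynomial D, a ≠ 0 → IsUnit (r a) := by
    intro a ha
    apply Polynomial.isUnit_C.2
    rw [isUnit_iff_ne_zero]
    intro h
    exact ha (hev a h)
  set p : Polynomial D := Polynomial.X - Polynomial.C t with hp
  have hevt : ∀ f, Commute (ev f) t := by
    intro f
    have h1 : ev f = Polynomial.eval₂ s t f := rfl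
    rw [h1, Polynomial.eval₂_eq_sum_range]
    apply Commute.sum_left
    intro i _
    exact (hst _).mul_left ((Commute.refl t).pow_left i)
  have hcomm : ∀ f : Polynomial D, r f * p = p * r f := by
    intro f
    change Polynomial.C (ev f) * (Polynomial.X - Polynomial.C t)
      = (Polynomial.X - Polynomial.C t) * Polynomial.C (ev f)
    rw [mul_sub, sub_mul, Polynomial.X_mul_C, ← Polynomial.C_mul, ← Polynomial.C_mul,
      (hevt f).eq]
  have hnt : Nontrivial (PS (Polynomial D) r) := by
    refine ⟨⟨0, 1, ?_⟩⟩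
    intro h
    have h1 := congrArg (fun f => PS.co f 0) h
    simp [one_co] at h1
  -- the ideal
  let I : AddSubmonoid (PS (Polynomial D) r) :=
    { carrier := {f | f.co 0 = 0 ∧ ∃ g, f.co 1 = p * g}
      zero_mem' := ⟨rfl, 0, by simp⟩
      add_mem' := by
        rintro f g ⟨hf, f', hf'⟩ ⟨hg, g', hg'⟩
        refine ⟨by simp [hf, hg], f' + g', ?_⟩
        rw [add_co, hf', hg', mul_add] }
  obtain ⟨L, hL, hLI⟩ := H (PS (Polynomial D) r) hnt (by
      intro f g h
      by_contra hcon
      rw [not_or] at hcon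
      have := h 1
      rw [mul_one] at this
      exact mul_ne_zero' hr hcon.1 hcon.2 this) (by
      intro I' hI'
      exact principal hu hr poly_principal I' hI') I (by
      rintro f g ⟨hf, f', hf'⟩
      refine ⟨⟨?_, r (g.co 0) * f', ?_⟩, ⟨?_, f' * g.co 0, ?_⟩⟩
      · rw [mul_co_zero, hf, mul_zero]
      · rw [mul_co_one, hf, mul_zero, add_zero, hf', ← mul_assoc, hcomm, mul_assoc]
      · rw [mul_co_zero, hf, zero_mul]
      · rw [mul_co_one, hf, map_zero, zero_mul, zero_add, hf', mul_assoc])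
  have hLideal : ∀ P ∈ L, ∀ x s : PS (Polynomial D) r, x ∈ P → s * x ∈ P ∧ x * s ∈ P :=
    fun P hP => (hL P hP).1
  have hpdI : pd L = I := hLI
  have hX : ∀ P ∈ L, (X : PS (Polynomial D) r) ∈ P := by
    intro P hP
    have h1 : pd L ≤ P := pd_le L hLideal P hP
    have h2 := (hL P hP).2.2 X X (by
      intro g
      apply h1
      rw [hpdI]
      refine ⟨?_, 0, ?_⟩
      · rw [mul_assoc, X_mul_zero]
      · rw [mul_assoc, X_mul_succ, mul_X_zero, mul_zero])
    rcases h2 with h | h <;> exact h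
  have hXp : (X : PS (Polynomial D) r) * C p ∈ I := by
    refine ⟨X_mul_zero _, 1, ?_⟩
    rw [X_mul_succ, C_co, if_pos rfl, mul_one]
  rcases tri hu L hLideal hX with h | h | h | h
  · obtain ⟨f, hf, hf0⟩ := h
    rw [hpdI] at hf
    exact hf0 hf.1
  · obtain ⟨J, hJ, hJ2⟩ := h
    have h1 : (X : PS (Polynomial D) r) * C p ∈ pd L := by rw [hpdI]; exact hXp
    obtain ⟨h, hh, hh2⟩ := (hJ2 _).1 h1
    have h3 : C p ∈ J := by rw [X_mul_inj hh2]; exact hh
    have h4 := hJ _ (C (Polynomial.C b)) h3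
    have h5 : (X : PS (Polynomial D) r) * (C (Polynomial.C b) * C p) ∈ pd L :=
      (hJ2 _).2 ⟨_, h4, rfl⟩
    rw [hpdI] at h5
    obtain ⟨_, g, hg⟩ := h5
    rw [X_mul_succ, C_mul_C, C_co, if_pos rfl] at hg
    exact not_left_mul t b hb g hg
  · have h1 := h (X * C p) (by rw [hpdI]; exact hXp)
    have h2 := h1.2
    rw [X_mul_succ, C_co, if_pos rfl] at h2
    exact Polynomial.X_sub_C_ne_zero t h2
  · exact one_ne_zero (h 1)

/-- The negation of the preceding statement: In every prime ring whose right ideals are all principal, every two-sided ideal equals a finite product of prime two-sided ideals (the empty product being the whole ring). -/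
theorem result :
    ¬ (∀ (R : Type) [Ring R], Nontrivial R →
      (∀ a b : R, (∀ r : R, a * r * b = 0) → a = 0 ∨ b = 0) →
      (∀ I : AddSubmonoid R, (∀ x r : R, x ∈ I → x * r ∈ I) →
          ∃ a : R, ∀ x : R, x ∈ I ↔ ∃ r : R, x = a * r) →
      ∀ I : AddSubmonoid R, (∀ x r : R, x ∈ I → r * x ∈ I ∧ x * r ∈ I) →
        ∃ L : List (AddSubmonoid R),
          (∀ P ∈ L, (∀ x r : R, x ∈ P → r * x ∈ P ∧ x * r ∈ P) ∧ (1 : R) ∉ P ∧
              ∀ a b : R, (∀ r : R, a * r * b ∈ P) → a ∈ P ∨ b ∈ P) ∧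
          L.foldr (fun P J => AddSubmonoid.closure {x : R | ∃ a ∈ P, ∃ b ∈ J, x = a * b}) ⊤ = I) := by
  obtain ⟨D, iD, s, t, hst, ⟨b, hb⟩, htr⟩ := Helper282.KField.exists_division_ring
  exact general D s t b hst hb htr

end Pool.Agent.S00844
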