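import Pool.Statements.S00865
import Pool.Agent.H815.CL14

set_option autoImplicit false
open Pool Pool.MP_51fe29_al

/-! A normal valued (even representable) `l`-group `G` whose lattice of convex `l`-subgroups is not
the one of an abelian `l`-group. Files: `Pool/Agent/H815/CL1 … CL14`.

`G` is the relatively free `l`-group, on a very large set of (positive) generators, of the variety
generated by the totally ordered groups `H_lam = ℝ ⋊ ℤ` (`lam ≥ 1`, `ℤ` acts by powers of `lam`,
lexicographic order with `ℤ` first) and `M^+ = ℤ[X, X⁻¹] ⋊ ℤ` (`X` infinitely large, acting by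
multiplication). Suppose `C(G) ≅ C(A)` with `A` abelian. Compact elements of `C(G)` and `C(A)` are
the principal subgroups; choose `a_i ∈ A⁺` for every generator and terms describing the positive
parts of the integral linear forms in the `a_i`. By a pigeonhole argument and Kuratowski's free set
theorem there are twelve generators on which these terms are local and aligned (CL10, CL12, CL13).
This gives for the elements `g ≥ 1` of the groups `H_lam`, `M^+` values `a(g)` in totally ordered
abelian groups, such that the sign of every linear form in few values is given by a term, hence is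
natural for all homomorphisms, and such that archimedean classes are respected (`Good`, CL4).
The map `a` would be a natural logarithm. Continuity of terms at `lam = 1` and at infinity gives
`a(h²) = 2 a(h)` and `a((1,1)) ≠ a((0,1))` in all `H_lam`, and `δ = a((X-1,1)) - a((0,1)) ≠ 0` in
`M^+`. But the doubling endomorphism of `M^+` shows that the archimedean class of `δ` is the class
of `X^j` and of `X^{2j}`, so `j = 0`, and that `δ` and `2 δ` have the same ratio to `a(1)`:
contradiction (CL6, CL7). -/

namespace Pool.Agent.S00865

/-- There is a normal-valued lattice-ordered group G (ab ≤ b²a² for all positive a, b) whose lattice of convex l-subgroups is not order-isomorphic to that of any abelian lattice-ordered group. -/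
theorem result :
    ∃ (G : Type) (_ : Group G) (_ : Lattice G) (_ : MulLeftMono G) (_ : MulRightMono G),
      (∀ a b : G, 1 ≤ a → 1 ≤ b → a * b ≤ b ^ 2 * a ^ 2) ∧
      ¬ ∃ (A : Type) (_ : CommGroup A) (_ : Lattice A) (_ : MulLeftMono A),
        Nonempty
          ({H : Subgroup G //
              (∀ x ∈ H, ∀ y ∈ H, x ⊔ y ∈ H ∧ x ⊓ y ∈ H) ∧
              ∀ x ∈ H, ∀ y ∈ H, ∀ z : G, x ≤ z → z ≤ y → z ∈ H} ≃o
           {K : Subgroup A //
              (∀ x ∈ K, ∀ y ∈ K, x ⊔ y ∈ K ∧ x ⊓ y ∈ K) ∧
              ∀ x ∈ K, ∀ y ∈ K, ∀ z : A, x ≤ z → z ≤ y → z ∈ K}) :=
  Pool.Agent.H815.main_result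

end Pool.Agent.S00865
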