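import Pool.Statements.S00877
import Pool.Agent.Helper878.PrimMain

set_option autoImplicit false
open Pool Pool.MP_540292_al

namespace Pool.Agent.S00877

open Pool.Agent.Helper878.Prim Pool.Agent.Helper878.Skew Pool.Agent.Helper878.PrimMain

/-- the element `h` is not primitive in rank two -/
theorem part1 (N : Subgroup (FreeGroup (Fin 2))) [N.Normal] (hN : N = K 2) :
    ¬ ∃ (φ : (FreeGroup (Fin 2) ⧸ N) ≃* (FreeGroup (Fin 2) ⧸ N)) (i : Fin 2),
      φ (QuotientGroup.mk (FreeGroup.of i) : FreeGroup (Fin 2) ⧸ N) =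
        (QuotientGroup.mk (hw (FreeGroup.of 0) (FreeGroup.of 1)) : FreeGroup (Fin 2) ⧸ N) := by
  rintro ⟨φ, i, hφ⟩
  have ha : ∀ j : Fin 2, ∃ a : FreeGroup (Fin 2), (QuotientGroup.mk a : FreeGroup (Fin 2) ⧸ N) =
      φ (QuotientGroup.mk (FreeGroup.of j)) := fun j => QuotientGroup.mk_surjective _
  have hb : ∀ j : Fin 2, ∃ a : FreeGroup (Fin 2), (QuotientGroup.mk a : FreeGroup (Fin 2) ⧸ N) =
      φ.symm (QuotientGroup.mk (FreeGroup.of j)) := fun j => QuotientGroup.mk_surjective _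
  choose a ha using ha
  choose b hb using hb
  have h1 : φ.toMonoidHom.comp (QuotientGroup.mk' N) = (QuotientGroup.mk' N).comp (FreeGroup.lift a) := by
    apply FreeGroup.ext_hom
    intro j
    simp only [MonoidHom.comp_apply, FreeGroup.lift_apply_of]
    exact (ha j).symm
  have h2 : ∀ w, φ (QuotientGroup.mk w) = QuotientGroup.mk (FreeGroup.lift a w) :=
    fun w => DFunLike.congr_fun h1 w
  have hmem : ∀ u v : FreeGroup (Fin 2), (QuotientGroup.mk u : FreeGroup (Fin 2) ⧸ N) = QuotientGroup.mk v →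
      ∀ f : Fin 2 → TT, FreeGroup.lift f u = FreeGroup.lift f v := by
    intro u v h f
    rw [QuotientGroup.eq, hN, mem_K] at h
    have := h f
    rw [map_mul, map_inv, inv_mul_eq_one] at this
    exact this
  refine NP a b ?_ i ?_
  · intro j f
    have : (QuotientGroup.mk (FreeGroup.lift a (b j)) : FreeGroup (Fin 2) ⧸ N) =
        QuotientGroup.mk (FreeGroup.of j) := by
      rw [← h2, hb, MulEquiv.apply_symm_apply]
    rw [hmem _ _ this, FreeGroup.lift_apply_of]
  · intro f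
    rw [hmem _ _ ((ha i).trans hφ), map_hw, FreeGroup.lift_apply_of, FreeGroup.lift_apply_of]

/-- the images of the three generators -/
def fn {G : Type*} (τ : G × G × G) : Fin 3 → G := ![τ.1, τ.2.1, τ.2.2]

def base : FreeGroup (Fin 3) × FreeGroup (Fin 3) × FreeGroup (Fin 3) :=
  (FreeGroup.of 0, FreeGroup.of 1, FreeGroup.of 2)

def Wt : FreeGroup (Fin 3) × FreeGroup (Fin 3) × FreeGroup (Fin 3) :=
  mD 1 (mC 1 (mB 1 base))
def Wt' : FreeGroup (Fin 3) × FreeGroup (Fin 3) × FreeGroup (Fin 3) :=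
  mB (-1) (mC (-1) (mD (-1) base))

theorem m3_comp {G H L : Type*} [Group G] [Group H] [Group L] (f : G →* H) (g : H →* L)
    (τ : G × G × G) : m3 g (m3 f τ) = m3 (g.comp f) τ := rfl

theorem m3_base {G : Type*} [Group G] (f : Fin 3 → G) :
    m3 (FreeGroup.lift f) base = (f 0, f 1, f 2) := by
  simp [m3, base]

theorem lift_base {G : Type*} [Group G] (τ : G × G × G) : m3 (FreeGroup.lift (fn τ)) base = τ := by
  rw [m3_base]; rfl

theorem comp1 (f : Fin 3 → TT) :
    m3 (FreeGroup.lift f) (m3 (FreeGroup.lift (fn Wt')) Wt) = (f 0, f 1, f 2) := by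
  have e : m3 (FreeGroup.lift (fn Wt')) Wt = mD 1 (mC 1 (mB 1 Wt')) := by
    rw [Wt, m3_mD, m3_mC, m3_mB, lift_base]
  rw [e, m3_mD, m3_mC, m3_mB, Wt', m3_mB, m3_mC, m3_mD, m3_base]
  have e1 := mB_inv hGam three (-1) (mC (-1) (mD (-1) (f 0, f 1, f 2)))
  have e2 := mC_inv (-1) (mD (-1) (f 0, f 1, f 2))
  have e3 := mD_inv hGam three (-1) (f 0, f 1, f 2)
  rw [neg_neg] at e1 e2 e3
  rw [e1, e2, e3]

theorem comp2 (f : Fin 3 → TT) :
    m3 (FreeGroup.lift f) (m3 (FreeGroup.lift (fn Wt)) Wt') = (f 0, f 1, f 2) := by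
  have e : m3 (FreeGroup.lift (fn Wt)) Wt' = mB (-1) (mC (-1) (mD (-1) Wt)) := by
    rw [Wt', m3_mB, m3_mC, m3_mD, lift_base]
  rw [e, m3_mB, m3_mC, m3_mD, Wt, m3_mD, m3_mC, m3_mB, m3_base]
  have e1 := mB_inv hGam three 1 (f 0, f 1, f 2)
  have e2 := mC_inv 1 (mB 1 (f 0, f 1, f 2))
  have e3 := mD_inv hGam three 1 (mC 1 (mB 1 (f 0, f 1, f 2)))
  rw [e3, e2, e1]

/-- a triple gives an endomorphism of the relatively free group -/
def endo (N : Subgroup (FreeGroup (Fin 3))) [N.Normal] (hN : N = K 3) (s : Fin 3 → FreeGroup (Fin 3)) :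
    (FreeGroup (Fin 3) ⧸ N) →* (FreeGroup (Fin 3) ⧸ N) :=
  QuotientGroup.map N N (FreeGroup.lift s) (by
    intro w hw
    rw [Subgroup.mem_comap]
    rw [hN, mem_K] at hw ⊢
    intro f
    rw [lift_lift]
    exact hw _)

theorem endo_mk (N : Subgroup (FreeGroup (Fin 3))) [N.Normal] (hN : N = K 3)
    (s : Fin 3 → FreeGroup (Fin 3)) (w : FreeGroup (Fin 3)) :
    endo N hN s (QuotientGroup.mk w) = QuotientGroup.mk (FreeGroup.lift s w) := rfl

theorem endo_comp (N : Subgroup (FreeGroup (Fin 3))) [N.Normal] (hN : N = K 3)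
    (τ τ' : FreeGroup (Fin 3) × FreeGroup (Fin 3) × FreeGroup (Fin 3))
    (h : ∀ f : Fin 3 → TT, m3 (FreeGroup.lift f) (m3 (FreeGroup.lift (fn τ')) τ) = (f 0, f 1, f 2)) :
    (endo N hN (fn τ')).comp (endo N hN (fn τ)) = MonoidHom.id _ := by
  apply QuotientGroup.monoidHom_ext
  apply FreeGroup.ext_hom
  intro j
  change (QuotientGroup.mk (FreeGroup.lift (fn τ') (FreeGroup.lift (fn τ) (FreeGroup.of j))) :
    FreeGroup (Fin 3) ⧸ N) = QuotientGroup.mk (FreeGroup.of j)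
  rw [eq_comm, QuotientGroup.eq, hN, mem_K]
  intro f
  rw [map_mul, map_inv, inv_mul_eq_one, FreeGroup.lift_apply_of, FreeGroup.lift_apply_of]
  have := h f
  simp only [m3, Prod.mk.injEq] at this
  obtain ⟨h0, h1, h2⟩ := this
  fin_cases j
  · exact h0.symm
  · exact h1.symm
  · exact h2.symm

theorem part2 (N : Subgroup (FreeGroup (Fin 3))) [N.Normal] (hN : N = K 3) :
    ∃ (ψ : (FreeGroup (Fin 3) ⧸ N) ≃* (FreeGroup (Fin 3) ⧸ N)) (j : Fin 3),
      ψ (QuotientGroup.mk (FreeGroup.of j) : FreeGroup (Fin 3) ⧸ N) =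
        (QuotientGroup.mk (FreeGroup.map (Fin.castLE (by norm_num : 2 ≤ 3))
          (hw (FreeGroup.of 0) (FreeGroup.of 1))) : FreeGroup (Fin 3) ⧸ N) := by
  let e : (FreeGroup (Fin 3) ⧸ N) ≃* (FreeGroup (Fin 3) ⧸ N) :=
    MonoidHom.toMulEquiv (endo N hN (fn Wt)) (endo N hN (fn Wt'))
      (endo_comp N hN Wt Wt' comp1) (endo_comp N hN Wt' Wt comp2)
  let n : FreeGroup (Fin 3) := nw (FreeGroup.of 0) (FreeGroup.of 1) (FreeGroup.of 2)
  refine ⟨e.trans (MulAut.conj (QuotientGroup.mk n : FreeGroup (Fin 3) ⧸ N)), 0, ?_⟩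
  have h1 : (e.trans (MulAut.conj (QuotientGroup.mk n : FreeGroup (Fin 3) ⧸ N)))
      (QuotientGroup.mk (FreeGroup.of 0)) =
      (QuotientGroup.mk (cj n (FreeGroup.lift (fn Wt) (FreeGroup.of 0))) : FreeGroup (Fin 3) ⧸ N) := rfl
  rw [h1, map_hw, FreeGroup.map.of, FreeGroup.map.of, QuotientGroup.eq, hN, mem_K]
  intro f
  rw [map_mul, map_inv, inv_mul_eq_one, FreeGroup.lift_apply_of, map_cj, map_hw]
  have e1 : FreeGroup.lift f (fn Wt 0) = (mD 1 (mC 1 (mB 1 (f 0, f 1, f 2)))).1 := by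
    change (m3 (FreeGroup.lift f) Wt).1 = _
    rw [Wt, m3_mD, m3_mC, m3_mB, m3_base]
  have e2 : FreeGroup.lift f n = nw (f 0) (f 1) (f 2) := by
    simp only [n]
    rw [map_nw, FreeGroup.lift_apply_of, FreeGroup.lift_apply_of, FreeGroup.lift_apply_of]
  rw [e1, e2, final hGam three, FreeGroup.lift_apply_of, FreeGroup.lift_apply_of]
  rfl

theorem ncl (r : ℕ) : Subgroup.normalClosure
    {x : FreeGroup (Fin r) | ∃ u ∈ laws, ∃ g : ℕ → FreeGroup (Fin r), FreeGroup.lift g u = x} = K r := by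
  rw [instances_eq, Subgroup.normalClosure_eq_self]

/-- There is a variety of groups, ranks 0<r<n and h in the relatively free group of rank r such that no automorphism sends a basis element to h, but in rank n (via the standard inclusion) some automorphism sends a basis element to h. -/
theorem result :
    ∃ (W : Set (FreeGroup ℕ)) (r n : ℕ) (hrn : r < n) (w : FreeGroup (Fin r)),
      0 < r ∧
      (¬ ∃ (φ : (FreeGroup (Fin r) ⧸ Subgroup.normalClosure
              {x : FreeGroup (Fin r) | ∃ u ∈ W, ∃ g : ℕ → FreeGroup (Fin r), FreeGroup.lift g u = x}) ≃*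
            (FreeGroup (Fin r) ⧸ Subgroup.normalClosure
              {x : FreeGroup (Fin r) | ∃ u ∈ W, ∃ g : ℕ → FreeGroup (Fin r), FreeGroup.lift g u = x}))
          (i : Fin r),
          φ (QuotientGroup.mk (FreeGroup.of i) : FreeGroup (Fin r) ⧸ Subgroup.normalClosure
              {x : FreeGroup (Fin r) | ∃ u ∈ W, ∃ g : ℕ → FreeGroup (Fin r), FreeGroup.lift g u = x})
            = (QuotientGroup.mk w : FreeGroup (Fin r) ⧸ Subgroup.normalClosure
              {x : FreeGroup (Fin r) | ∃ u ∈ W, ∃ g : ℕ → FreeGroup (Fin r), FreeGroup.lift g u = x})) ∧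
      (∃ (ψ : (FreeGroup (Fin n) ⧸ Subgroup.normalClosure
              {x : FreeGroup (Fin n) | ∃ u ∈ W, ∃ g : ℕ → FreeGroup (Fin n), FreeGroup.lift g u = x}) ≃*
            (FreeGroup (Fin n) ⧸ Subgroup.normalClosure
              {x : FreeGroup (Fin n) | ∃ u ∈ W, ∃ g : ℕ → FreeGroup (Fin n), FreeGroup.lift g u = x}))
          (j : Fin n),
          ψ (QuotientGroup.mk (FreeGroup.of j) : FreeGroup (Fin n) ⧸ Subgroup.normalClosure
              {x : FreeGroup (Fin n) | ∃ u ∈ W, ∃ g : ℕ → FreeGroup (Fin n), FreeGroup.lift g u = x})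
            = (QuotientGroup.mk (FreeGroup.map (Fin.castLE hrn.le) w) : FreeGroup (Fin n) ⧸
              Subgroup.normalClosure
              {x : FreeGroup (Fin n) | ∃ u ∈ W, ∃ g : ℕ → FreeGroup (Fin n), FreeGroup.lift g u = x})) :=
  ⟨laws, 2, 3, by norm_num, hw (FreeGroup.of 0) (FreeGroup.of 1), by norm_num,
    part1 _ (ncl 2), part2 _ (ncl 3)⟩

end Pool.Agent.S00877
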