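import Pool.Statements.S00906
import Pool.Agent.Helper6.AP11

set_option autoImplicit false
open Pool Pool.MP_5598bf_al

namespace Pool.Agent.S00906

/-- The negation of the preceding statement: There is a class of lattice-ordered groups, closed under sublattice-subgroups, homomorphic images and products (a variety), that contains a non-commutative member and in which any two ℓ-embeddings from a common member can be amalgamated inside the class. -/
theorem result :
    ¬ (∃ V : ∀ (α : Type) [Group α] [Lattice α], Prop,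
    (∀ (α : Type) [Group α] [Lattice α], V α →
        ∀ a b c : α, a ≤ b → c * a ≤ c * b ∧ a * c ≤ b * c) ∧
    (∀ (α β : Type) [Group α] [Lattice α] [Group β] [Lattice β] (f : α → β),
        (∀ x y, f (x * y) = f x * f y) → (∀ x y, f (x ⊔ y) = f x ⊔ f y) →
        (∀ x y, f (x ⊓ y) = f x ⊓ f y) → Function.Injective f → V β → V α) ∧
    (∀ (α β : Type) [Group α] [Lattice α] [Group β] [Lattice β] (f : α → β),
        (∀ x y, f (x * y) = f x * f y) → (∀ x y, f (x ⊔ y) = f x ⊔ f y) →
        (∀ x y, f (x ⊓ y) = f x ⊓ f y) → Function.Surjective f → V α → V β) ∧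
    (∀ (ι : Type) (A : ι → Type) [∀ i, Group (A i)] [∀ i, Lattice (A i)],
        (∀ i, V (A i)) → V (∀ i, A i)) ∧
    (∃ (α : Type) (_ : Group α) (_ : Lattice α), V α ∧ ∃ a b : α, a * b ≠ b * a) ∧
    (∀ (A B C : Type) [Group A] [Lattice A] [Group B] [Lattice B] [Group C] [Lattice C]
        (f : A → B) (g : A → C),
        (∀ x y, f (x * y) = f x * f y) → (∀ x y, f (x ⊔ y) = f x ⊔ f y) →
        (∀ x y, f (x ⊓ y) = f x ⊓ f y) → Function.Injective f →
        (∀ x y, g (x * y) = g x * g y) → (∀ x y, g (x ⊔ y) = g x ⊔ g y) →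
        (∀ x y, g (x ⊓ y) = g x ⊓ g y) → Function.Injective g →
        V A → V B → V C →
        ∃ (D : Type) (_ : Group D) (_ : Lattice D), V D ∧
          ∃ (h : B → D) (k : C → D),
            (∀ x y, h (x * y) = h x * h y) ∧ (∀ x y, h (x ⊔ y) = h x ⊔ h y) ∧
            (∀ x y, h (x ⊓ y) = h x ⊓ h y) ∧ Function.Injective h ∧
            (∀ x y, k (x * y) = k x * k y) ∧ (∀ x y, k (x ⊔ y) = k x ⊔ k y) ∧
            (∀ x y, k (x ⊓ y) = k x ⊓ k y) ∧ Function.Injective k ∧
            ∀ a, h (f a) = k (g a))) := by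
  rintro ⟨V, h1, h2, h3, h4, ⟨G, i1, i2, vG, x, y, hxy⟩, h6⟩
  exact Pool.Agent.Helper6.AP.no_amalg (V := V) ⟨h1, h2, h3, h4⟩ h6 vG hxy

end Pool.Agent.S00906
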