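import Pool.Statements.S00907
-- import your own Pool.Agent.* helpers here

set_option autoImplicit false
set_option linter.unusedSectionVars false
open Pool Pool.MP_55ae8f_al

namespace Pool.Agent.S00907

/-- The field with 3 elements. -/
abbrev F : Type := ZMod 3

section General

variable {E : Type} [Field E]

/-- The underlying set of the group: three by three matrices over E. -/
@[ext] structure G (E : Type) where
  m : Fin 3 → Fin 3 → E

/-- The cocycle. -/
def β (g h : G E) (j : Fin 3) : E :=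
  (g.m 0 0 * h.m 1 j + h.m 1 0 * g.m 0 j) - (g.m 1 0 * h.m 0 j + h.m 0 0 * g.m 1 j)

instance : Mul (G E) := ⟨fun g h =>
  ⟨fun i j => g.m i j + h.m i j + if i = 2 then β g h j else 0⟩⟩
instance : One (G E) := ⟨⟨fun _ _ => 0⟩⟩
instance : Inv (G E) := ⟨fun g => ⟨fun i j => - g.m i j⟩⟩

lemma mul_m (g h : G E) (i j : Fin 3) :
    (g * h).m i j = g.m i j + h.m i j + if i = 2 then β g h j else 0 := rfl
lemma one_m (i j : Fin 3) : (1 : G E).m i j = 0 := rfl
lemma inv_m (g : G E) (i j : Fin 3) : (g⁻¹).m i j = - g.m i j := rfl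

lemma ext_m {g h : G E} (H : ∀ i j, g.m i j = h.m i j) : g = h := by
  apply G.ext
  funext i j
  exact H i j

instance : Group (G E) := Group.ofLeftAxioms
  (by
    intro a b c
    apply ext_m
    intro i j
    simp only [mul_m, β]
    have h02 : ¬ ((0 : Fin 3) = 2) := by decide
    have h12 : ¬ ((1 : Fin 3) = 2) := by decide
    simp only [h02, h12, if_false, add_zero]
    split_ifs <;> ring)
  (by
    intro a
    apply ext_m
    intro i j
    simp only [mul_m, β, one_m]
    split_ifs <;> ring)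
  (by
    intro a
    apply ext_m
    intro i j
    simp only [mul_m, β, one_m, inv_m]
    split_ifs <;> ring)

variable [Algebra F E]

/-- Pure tensors. -/
def t (x y : Fin 3 → F) (e : E) : G E := ⟨fun i j => algebraMap F E (x j * y i) * e⟩

/-- Scalar multiples. -/
def s (e : E) (g : G E) : G E := ⟨fun i j => e * g.m i j⟩

lemma t_m (x y : Fin 3 → F) (e : E) (i j : Fin 3) :
    (t x y e).m i j = algebraMap F E (x j * y i) * e := rfl
lemma s_m (e : E) (g : G E) (i j : Fin 3) : (s e g).m i j = e * g.m i j := rfl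

lemma s_mul (a b : E) (g : G E) : s a g * s b g = s (a + b) g := by
  apply ext_m
  intro i j
  simp only [mul_m, β, s_m]
  split_ifs <;> ring

lemma t_mul_left (x x' y : Fin 3 → F) (e : E) : t x y e * t x' y e = t (x + x') y e := by
  apply ext_m
  intro i j
  simp only [mul_m, β, t_m, Pi.add_apply, map_mul, map_add]
  split_ifs <;> ring

/-- The twisted sum on the second factor. -/
def tw (x y y' : Fin 3 → F) : Fin 3 → F :=
  fun i => y i + y' i + if i = 2 then 2 * x 0 * (y 0 * y' 1 - y 1 * y' 0) else 0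

lemma t_mul_right (x y y' : Fin 3 → F) :
    t x y (1 : E) * t x y' 1 = t x (tw x y y') 1 := by
  apply ext_m
  intro i j
  simp only [mul_m, β, t_m, tw, map_mul, map_add]
  split_ifs
  · simp only [map_mul, map_sub, map_ofNat]
    ring
  · simp only [map_zero]
    ring

/-- The E-line through g. -/
def L (g : G E) : Subgroup (G E) where
  carrier := Set.range (fun e => s e g)
  mul_mem' := by
    rintro _ _ ⟨a, rfl⟩ ⟨b, rfl⟩
    exact ⟨a + b, (s_mul a b g).symm⟩
  one_mem' := ⟨0, by apply ext_m; intro i j; simp [s_m, one_m]⟩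
  inv_mem' := by
    rintro _ ⟨a, rfl⟩
    exact ⟨-a, by apply ext_m; intro i j; simp [s_m, inv_m]⟩

/-- The subgroups X tensor y tensor e. -/
def A (y : Fin 3 → F) (e : E) : Subgroup (G E) where
  carrier := Set.range (fun x => t x y e)
  mul_mem' := by
    rintro _ _ ⟨a, rfl⟩ ⟨b, rfl⟩
    exact ⟨a + b, (t_mul_left a b y e).symm⟩
  one_mem' := ⟨0, by apply ext_m; intro i j; simp [t_m, one_m]⟩
  inv_mem' := by
    rintro _ ⟨a, rfl⟩
    exact ⟨-a, by apply ext_m; intro i j; simp [t_m, inv_m]⟩

/-- The subgroups x tensor Y tensor 1. -/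
def H (x : Fin 3 → F) : Subgroup (G E) where
  carrier := Set.range (fun y => t x y (1 : E))
  mul_mem' := by
    rintro _ _ ⟨a, rfl⟩ ⟨b, rfl⟩
    exact ⟨tw x a b, (t_mul_right x a b).symm⟩
  one_mem' := ⟨0, by apply ext_m; intro i j; simp [t_m, one_m]⟩
  inv_mem' := by
    rintro _ ⟨a, rfl⟩
    exact ⟨-a, by apply ext_m; intro i j; simp [t_m, inv_m]⟩

lemma mem_L (g h : G E) : h ∈ L g ↔ ∃ e, s e g = h := Iff.rfl
lemma mem_A (y : Fin 3 → F) (e : E) (h : G E) : h ∈ A y e ↔ ∃ x, t x y e = h := Iff.rfl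
lemma mem_H (x : Fin 3 → F) (h : G E) : h ∈ H x ↔ ∃ y, t x y 1 = h := Iff.rfl

/-- The set of pure tensors. -/
def Pure : Set (G E) := {g | ∃ x y e, g = t x y e}

lemma one_pure : (1 : G E) ∈ Pure := ⟨0, 0, 0, by apply ext_m; intro i j; simp [t_m, one_m]⟩

lemma s_pure {g : G E} (hg : g ∈ Pure) (a : E) : s a g ∈ Pure := by
  obtain ⟨x, y, e, rfl⟩ := hg
  refine ⟨x, y, a * e, ?_⟩
  apply ext_m
  intro i j
  simp only [s_m, t_m]
  ring

lemma t_ne_one {x y : Fin 3 → F} {e : E} (h : t x y e ≠ 1) : x ≠ 0 ∧ y ≠ 0 ∧ e ≠ 0 := by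
  refine ⟨?_, ?_, ?_⟩
  · rintro rfl
    exact h (by apply ext_m; intro i j; simp [t_m, one_m])
  · rintro rfl
    exact h (by apply ext_m; intro i j; simp [t_m, one_m])
  · rintro rfl
    exact h (by apply ext_m; intro i j; simp [t_m, one_m])

lemma exists_ne {x : Fin 3 → F} (h : x ≠ 0) : ∃ i, x i ≠ 0 := by
  by_contra hc
  push Not at hc
  exact h (funext hc)

instance fact3 : Fact (Nat.Prime 3) := ⟨by norm_num⟩

/-- The main rigidity statement for pure tensors. -/
lemma rigid {x y x' y' : Fin 3 → F} {e e' : E} (h : t x y e = t x' y' e')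
    (h1 : t x y e ≠ 1) :
    ∃ a b c : F, a ≠ 0 ∧ b ≠ 0 ∧ c ≠ 0 ∧ x' = a • x ∧ y' = b • y ∧ e' = algebraMap F E c * e := by
  obtain ⟨hx, hy, he⟩ := t_ne_one h1
  have h1' : t x' y' e' ≠ 1 := by rw [← h]; exact h1
  obtain ⟨hx', hy', he'⟩ := t_ne_one h1'
  obtain ⟨j0, hj0⟩ := exists_ne hx
  obtain ⟨i0, hi0⟩ := exists_ne hy
  obtain ⟨j1, hj1⟩ := exists_ne hx'
  obtain ⟨i1, hi1⟩ := exists_ne hy'
  have hm : ∀ i j, algebraMap F E (x j * y i) * e = algebraMap F E (x' j * y' i) * e' := by
    intro i j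
    have := congrArg (fun g => G.m g i j) h
    simpa only [t_m] using this
  have hinj : Function.Injective (algebraMap F E) := (algebraMap F E).injective
  -- the scalar
  have hne : algebraMap F E (x' j1 * y' i1) ≠ 0 := by
    rw [Ne, map_eq_zero]
    exact mul_ne_zero hj1 hi1
  set c : F := (x j1 * y i1) / (x' j1 * y' i1) with hc
  have he'c : e' = algebraMap F E c * e := by
    have h2 := hm i1 j1
    rw [hc, map_div₀]
    field_simp
    linear_combination -h2
  have hc0 : c ≠ 0 := by
    intro h0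
    rw [h0, map_zero, zero_mul] at he'c
    exact he' he'c
  have hF : ∀ i j, x j * y i = x' j * y' i * c := by
    intro i j
    apply hinj
    have h2 := hm i j
    rw [he'c, ← mul_assoc, ← map_mul] at h2
    exact mul_right_cancel₀ he h2
  have hy'0 : y' i0 ≠ 0 := by
    intro h0
    have := hF i0 j0
    rw [h0] at this
    simp at this
    exact this.elim hj0 hi0
  have hx'0 : x' j0 ≠ 0 := by
    intro h0
    have := hF i0 j0
    rw [h0] at this
    simp at this
    exact this.elim hj0 hi0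
  refine ⟨y i0 / (y' i0 * c), x j0 / (x' j0 * c), c, div_ne_zero hi0 (mul_ne_zero hy'0 hc0),
    div_ne_zero hj0 (mul_ne_zero hx'0 hc0), hc0, ?_, ?_, he'c⟩
  · funext j
    have := hF i0 j
    simp only [Pi.smul_apply, smul_eq_mul]
    field_simp
    linear_combination -this
  · funext i
    have := hF i j0
    simp only [Pi.smul_apply, smul_eq_mul]
    field_simp
    linear_combination -this

lemma t_smul_x (a : F) (x y : Fin 3 → F) (e : E) : t (a • x) y e = t x (a • y) e := by
  apply ext_m
  intro i j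
  simp only [t_m, Pi.smul_apply, smul_eq_mul]
  congr 2
  ring

lemma t_smul_e (c : F) (x y : Fin 3 → F) (e : E) :
    t x y (algebraMap F E c * e) = t (c • x) y e := by
  apply ext_m
  intro i j
  simp only [t_m, Pi.smul_apply, smul_eq_mul, map_mul]
  ring

lemma A_eq {x y x' y' : Fin 3 → F} {e e' : E} (h : t x y e = t x' y' e')
    (h1 : t x y e ≠ 1) : A y e = (A y' e' : Subgroup (G E)) := by
  obtain ⟨a, b, c, ha, hb, hc, rfl, rfl, rfl⟩ := rigid h h1
  ext g
  rw [mem_A, mem_A]
  constructor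
  · rintro ⟨z, rfl⟩
    refine ⟨(c * b)⁻¹ • z, ?_⟩
    rw [t_smul_e, smul_smul, ← t_smul_x, smul_smul]
    congr 1
    have : b * (c * (c * b)⁻¹) = 1 := by field_simp
    rw [this, one_smul]
  · rintro ⟨z, rfl⟩
    refine ⟨(b * c) • z, ?_⟩
    rw [t_smul_e, ← t_smul_x, smul_smul]

lemma H_eq {x y x' y' : Fin 3 → F} (h : t x y (1 : E) = t x' y' 1)
    (h1 : t x y (1 : E) ≠ 1) : H x = (H x' : Subgroup (G E)) := by
  obtain ⟨a, b, c, ha, hb, hc, rfl, rfl, -⟩ := rigid h h1
  ext g
  rw [mem_H, mem_H]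
  constructor
  · rintro ⟨z, rfl⟩
    refine ⟨a⁻¹ • z, ?_⟩
    rw [t_smul_x, smul_smul, mul_inv_cancel₀ ha, one_smul]
  · rintro ⟨z, rfl⟩
    exact ⟨a • z, (t_smul_x a x z 1).symm⟩

lemma AH_disjoint {x y x' y' : Fin 3 → F} {e : E} (he : e ∉ Set.range (algebraMap F E))
    (h : t x y e = t x' y' 1) : t x y e = 1 := by
  by_contra h1
  obtain ⟨a, b, c, ha, hb, hc, -, -, h2⟩ := rigid h h1
  apply he
  refine ⟨c⁻¹, ?_⟩
  have hc' : algebraMap F E c ≠ 0 := by rwa [Ne, map_eq_zero]
  rw [map_inv₀]
  field_simp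
  linear_combination h2

/-- The components. -/
def Comp : Set (Subgroup (G E)) :=
  {K | (∃ g, g ∉ Pure ∧ K = L g) ∨
    (∃ y : Fin 3 → F, ∃ e : E, y ≠ 0 ∧ e ∉ Set.range (algebraMap F E) ∧ K = A y e) ∨
    (∃ x : Fin 3 → F, x ≠ 0 ∧ K = H x)}

lemma mem_L_self (g : G E) : g ∈ L g := ⟨1, by apply ext_m; intro i j; simp [s_m]⟩

lemma L_eq {g g' h : G E} (h1 : h ≠ 1) (hg : h ∈ L g) (hg' : h ∈ L g') : L g = L g' := by
  obtain ⟨a, rfl⟩ := hg
  obtain ⟨b, hb⟩ := hg'
  have ha : a ≠ 0 := by
    rintro rfl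
    exact h1 (by apply ext_m; intro i j; simp [s_m, one_m])
  have hb0 : b ≠ 0 := by
    rintro rfl
    apply h1
    rw [← hb]
    apply ext_m; intro i j; simp [s_m, one_m]
  have hm : ∀ i j, b * g'.m i j = a * g.m i j := by
    intro i j
    have := congrArg (fun g => G.m g i j) hb
    simpa only [s_m] using this
  ext k
  rw [mem_L, mem_L]
  constructor
  · rintro ⟨c, rfl⟩
    refine ⟨c * a⁻¹ * b, ?_⟩
    apply ext_m
    intro i j
    have := hm i j
    simp only [s_m]
    field_simp
    linear_combination c * this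
  · rintro ⟨c, rfl⟩
    refine ⟨c * b⁻¹ * a, ?_⟩
    apply ext_m
    intro i j
    have := hm i j
    simp only [s_m]
    field_simp
    linear_combination -c * this

lemma exists_unique_comp (g : G E) (hg : g ≠ 1) : ∃! K : Subgroup (G E), K ∈ Comp ∧ g ∈ K := by
  by_cases hp : g ∈ Pure
  · obtain ⟨x, y, e, rfl⟩ := hp
    obtain ⟨hx, hy, he⟩ := t_ne_one hg
    have noL : ∀ g', g' ∉ Pure → t x y e ∉ L g' := by
      intro g' hg' h
      obtain ⟨a, ha⟩ := h
      have ha0 : a ≠ 0 := by
        rintro rfl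
        apply hg
        simp only at ha
        rw [← ha]
        apply ext_m; intro i j; simp [s_m, one_m]
      apply hg'
      have : g' = s a⁻¹ (t x y e) := by
        simp only at ha
        rw [← ha]
        apply ext_m
        intro i j
        simp only [s_m]
        field_simp
      rw [this]
      exact s_pure ⟨x, y, e, rfl⟩ _
    by_cases hr : e ∈ Set.range (algebraMap F E)
    · obtain ⟨c, rfl⟩ := hr
      have hc : c ≠ 0 := by
        rintro rfl
        exact he (map_zero _)
      have heq : t x y (algebraMap F E c) = t x (c • y) 1 := by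
        have := t_smul_e c x y (1 : E)
        rw [mul_one] at this
        rw [this, t_smul_x]
      refine ⟨H x, ⟨Or.inr (Or.inr ⟨x, hx, rfl⟩), ?_⟩, ?_⟩
      · rw [heq]
        exact ⟨_, rfl⟩
      · rintro K ⟨hK, hgK⟩
        rcases hK with ⟨g', hg', rfl⟩ | ⟨y', e', hy', he', rfl⟩ | ⟨x', hx', rfl⟩
        · exact absurd hgK (noL g' hg')
        · obtain ⟨z, hz⟩ := hgK
          simp only at hz
          rw [heq] at hz
          have := AH_disjoint he' hz
          rw [hz, ← heq] at this
          exact absurd this hg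
        · obtain ⟨z, hz⟩ := hgK
          simp only at hz
          rw [heq] at hz
          rw [heq] at hg
          exact H_eq hz (by rw [hz]; exact hg)
    · refine ⟨A y e, ⟨Or.inr (Or.inl ⟨y, e, hy, hr, rfl⟩), ⟨x, rfl⟩⟩, ?_⟩
      rintro K ⟨hK, hgK⟩
      rcases hK with ⟨g', hg', rfl⟩ | ⟨y', e', hy', he', rfl⟩ | ⟨x', hx', rfl⟩
      · exact absurd hgK (noL g' hg')
      · obtain ⟨z, hz⟩ := hgK
        exact A_eq hz (by simp only at hz; rw [hz]; exact hg)
      · obtain ⟨z, hz⟩ := hgK
        exact absurd (AH_disjoint hr hz.symm) hg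
  · refine ⟨L g, ⟨Or.inl ⟨g, hp, rfl⟩, mem_L_self g⟩, ?_⟩
    rintro K ⟨hK, hgK⟩
    rcases hK with ⟨g', hg', rfl⟩ | ⟨y', e', hy', he', rfl⟩ | ⟨x', hx', rfl⟩
    · exact L_eq hg hgK (mem_L_self g)
    · obtain ⟨z, hz⟩ := hgK
      exact absurd ⟨z, y', e', hz.symm⟩ hp
    · obtain ⟨z, hz⟩ := hgK
      exact absurd ⟨x', z, 1, hz.symm⟩ hp

lemma card_L {g : G E} (hg : g ≠ 1) : Nat.card (L g) = Nat.card E := by
  have hinj : Function.Injective (fun e : E => s e g) := by
    intro a b hab
    by_contra hne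
    apply hg
    apply ext_m
    intro i j
    have := congrArg (fun g => G.m g i j) hab
    simp only [s_m] at this
    rw [one_m]
    have h2 : (a - b) * g.m i j = 0 := by linear_combination this
    exact (mul_eq_zero.1 h2).resolve_left (sub_ne_zero.2 hne)
  exact Nat.card_range_of_injective hinj

lemma card_F3 : Nat.card (Fin 3 → F) = 27 := by
  simp

lemma card_A {y : Fin 3 → F} {e : E} (hy : y ≠ 0) (he : e ≠ 0) : Nat.card (A y e : Subgroup (G E)) = 27 := by
  have hinj : Function.Injective (fun x : Fin 3 → F => t x y e) := by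
    intro a b hab
    obtain ⟨i, hi⟩ := exists_ne hy
    funext j
    have := congrArg (fun g => G.m g i j) hab
    simp only [t_m] at this
    have h2 := (algebraMap F E).injective (mul_right_cancel₀ he this)
    exact mul_right_cancel₀ hi h2
  rw [← card_F3]
  exact Nat.card_range_of_injective hinj

lemma card_H {x : Fin 3 → F} (hx : x ≠ 0) : Nat.card (H x : Subgroup (G E)) = 27 := by
  have hinj : Function.Injective (fun y : Fin 3 → F => t x y (1 : E)) := by
    intro a b hab
    obtain ⟨j, hj⟩ := exists_ne hx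
    funext i
    have := congrArg (fun g => G.m g i j) hab
    simp only [t_m] at this
    have h2 := (algebraMap F E).injective (mul_right_cancel₀ one_ne_zero this)
    exact mul_left_cancel₀ hj h2
  rw [← card_F3]
  exact Nat.card_range_of_injective hinj

lemma card_comp (hE : Nat.card E = 27) {K : Subgroup (G E)} (hK : K ∈ Comp) : Nat.card K = 27 := by
  rcases hK with ⟨g', hg', rfl⟩ | ⟨y', e', hy', he', rfl⟩ | ⟨x', hx', rfl⟩
  · rw [card_L, hE]
    rintro rfl
    exact hg' one_pure
  · apply card_A hy'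
    rintro rfl
    exact he' ⟨0, map_zero _⟩
  · exact card_H hx'

/-- The group as a function type. -/
def toFun : G E ≃ (Fin 3 → Fin 3 → E) := ⟨fun g => g.m, fun m => ⟨m⟩, fun _ => rfl, fun _ => rfl⟩

lemma card_G (hE : Nat.card E = 27) : Nat.card (G E) = 27 ^ 9 := by
  rw [Nat.card_congr toFun, Nat.card_fun, Nat.card_fun, hE]
  simp

end General

/-- There is a finite group with a family of nontrivial proper subgroups, all of the same order, such that each non-identity element lies in exactly one of them, and at least one of these subgroups is non-abelian. -/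
theorem result :
    ∃ (G : Type) (_ : Group G) (_ : Finite G) (P : Finset (Subgroup G)),
      (∀ H ∈ P, H ≠ ⊥ ∧ H ≠ ⊤) ∧
      (∀ g : G, g ≠ 1 → ∃! H : Subgroup G, H ∈ P ∧ g ∈ H) ∧
      (∀ H ∈ P, ∀ K ∈ P, Nat.card H = Nat.card K) ∧
      (∃ H ∈ P, ∃ x ∈ H, ∃ y ∈ H, x * y ≠ y * x) := by
  have hE : Nat.card (GaloisField 3 3) = 27 := by
    rw [GaloisField.card 3 3 (by norm_num)]
    norm_num
  have hfin : Finite (G (GaloisField 3 3)) := Finite.of_equiv _ toFun.symm
  refine ⟨G (GaloisField 3 3), inferInstance, hfin, (Set.toFinite Comp).toFinset, ?_, ?_, ?_, ?_⟩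
  · intro K hK
    rw [Set.Finite.mem_toFinset] at hK
    have h1 := card_comp hE hK
    constructor
    · rintro rfl
      rw [Subgroup.card_bot] at h1
      norm_num at h1
    · rintro rfl
      rw [Subgroup.card_top, card_G hE] at h1
      norm_num at h1
  · intro g hg
    obtain ⟨K, hK, hu⟩ := exists_unique_comp g hg
    refine ⟨K, ?_, ?_⟩
    · simp only [Set.Finite.mem_toFinset]
      exact hK
    · intro K' hK'
      simp only [Set.Finite.mem_toFinset] at hK'
      exact hu K' hK'
  · intro K hK K' hK'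
    rw [Set.Finite.mem_toFinset] at hK hK'
    rw [card_comp hE hK, card_comp hE hK']
  · refine ⟨H ![1, 0, 0], ?_, t ![1, 0, 0] ![1, 0, 0] 1, ⟨_, rfl⟩, t ![1, 0, 0] ![0, 1, 0] 1,
      ⟨_, rfl⟩, ?_⟩
    · rw [Set.Finite.mem_toFinset]
      refine Or.inr (Or.inr ⟨_, ?_, rfl⟩)
      intro h
      have := congrFun h 0
      simp at this
    · intro h
      have := congrArg (fun g => G.m g 2 0) h
      simp only [t_mul_right, t_m, tw] at this
      simp at this
      have h2 : (algebraMap F (GaloisField 3 3)) (2 : F) = (algebraMap F (GaloisField 3 3)) (-2 : F) := by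
        simpa using this
      have h3 := (algebraMap F (GaloisField 3 3)).injective h2
      exact absurd h3 (by decide)

end Pool.Agent.S00907
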