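import Pool.Statements.S00912

set_option autoImplicit false
open scoped Topology Manifold
open Pool Pool.MP_55fee7_al

namespace Pool.Agent.S00912

open Complex Filter Set

/-- The underlying seven dimensional space. -/
abbrev W : Type := ℝ × ℂ × ℂ × ℂ

/-- The circle valued character. -/
noncomputable def E (a : ℝ) : ℂ := Complex.exp (a * I)

/-- The local multiplication. -/
noncomputable def mW (x y : W) : W :=
  (x.1 + y.1, x.2.1 + E x.1 ^ 2 * y.2.1, x.2.2.1 + E x.1 ^ 2 * y.2.2.1,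
   x.2.2.2 + E x.1 * y.2.2.2 +
    E x.1 / ((1 + E x.1) * (1 + E y.1) * (1 + E (x.1 + y.1))) *
      (x.2.1 * y.2.2.1 - x.2.2.1 * y.2.1))

lemma E_zero : E 0 = 1 := by simp [E]

lemma E_add (a b : ℝ) : E (a + b) = E a * E b := by
  simp only [E, ← Complex.exp_add]
  congr 1
  push_cast
  ring

lemma E_two (a : ℝ) : E (2 * a) = E a ^ 2 := by
  rw [two_mul, E_add, sq]

lemma E_pi : E Real.pi = -1 := by
  simp [E]

lemma norm_E (a : ℝ) : ‖E a‖ = 1 := by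
  simp [E, Complex.norm_exp_ofReal_mul_I]

lemma E_ne (a : ℝ) : E a ≠ 0 := by
  simp [E]

lemma E_neg (a : ℝ) : E (-a) = (E a)⁻¹ := by
  have h : E (-a) * E a = 1 := by
    rw [← E_add]; simp [E_zero]
  exact eq_inv_of_mul_eq_one_left h

lemma contDiff_E : ContDiff ℝ (⊤ : WithTop ℕ∞) E := by
  unfold E
  apply ContDiff.cexp
  exact (Complex.ofRealCLM.contDiff).mul contDiff_const

lemma mW_zero_left (x : W) : mW 0 x = x := by
  obtain ⟨a, p, q, r⟩ := x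
  simp [mW, E_zero]

lemma mW_zero_right (x : W) : mW x 0 = x := by
  obtain ⟨a, p, q, r⟩ := x
  simp [mW]

lemma mW_left_alt (x y : W) (h1 : 1 + E x.1 ≠ 0) (h2 : 1 + E y.1 ≠ 0)
    (h3 : 1 + E x.1 * E y.1 ≠ 0) (h4 : 1 + E x.1 ^ 2 ≠ 0)
    (h5 : 1 + E x.1 ^ 2 * E y.1 ≠ 0) : mW x (mW x y) = mW (mW x x) y := by
  obtain ⟨a, p, q, r⟩ := x
  obtain ⟨b, p', q', r'⟩ := y
  simp only [mW, E_add] at *
  have h4' : 1 + E a * E a ≠ 0 := by rw [← sq]; exact h4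
  have h5' : 1 + E a * E a * E b ≠ 0 := by rw [← sq]; exact h5
  have h5'' : 1 + E a * (E a * E b) ≠ 0 := by rw [← mul_assoc]; exact h5'
  refine Prod.ext ?_ (Prod.ext ?_ (Prod.ext ?_ ?_))
  · simp only []; ring
  · simp only []; ring
  · simp only []; ring
  · simp only []
    field_simp
    ring

lemma mW_right_alt (x y : W) (h1 : 1 + E x.1 ≠ 0) (h2 : 1 + E y.1 ≠ 0)
    (h3 : 1 + E x.1 * E y.1 ≠ 0) (h4 : 1 + E x.1 ^ 2 ≠ 0)
    (h5 : 1 + E x.1 ^ 2 * E y.1 ≠ 0) : mW (mW y x) x = mW y (mW x x) := by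
  obtain ⟨a, p, q, r⟩ := x
  obtain ⟨b, p', q', r'⟩ := y
  simp only [mW, E_add] at *
  have h4' : 1 + E a * E a ≠ 0 := by rw [← sq]; exact h4
  have h5' : 1 + E b * E a * E a ≠ 0 := by
    rw [show E b * E a * E a = E a ^ 2 * E b by ring]; exact h5
  have h5'' : 1 + E b * (E a * E a) ≠ 0 := by
    rw [show E b * (E a * E a) = E a ^ 2 * E b by ring]; exact h5
  have h3' : 1 + E b * E a ≠ 0 := by rw [mul_comm]; exact h3
  have h6 : 1 + E b * E a ^ 2 ≠ 0 := by rw [mul_comm]; exact h5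
  refine Prod.ext ?_ (Prod.ext ?_ (Prod.ext ?_ ?_))
  · simp only []; ring
  · simp only []; ring
  · simp only []; ring
  · simp only []
    field_simp
    ring


lemma contDiffAt_mW : ContDiffAt ℝ (⊤ : WithTop ℕ∞) (fun p : W × W => mW p.1 p.2) (0, 0) := by
  unfold mW
  have hE1 : ContDiff ℝ (⊤ : WithTop ℕ∞) (fun p : W × W => E p.1.1) :=
    contDiff_E.comp (contDiff_fst.comp contDiff_fst)
  have hE2 : ContDiff ℝ (⊤ : WithTop ℕ∞) (fun p : W × W => E p.2.1) :=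
    contDiff_E.comp (contDiff_fst.comp contDiff_snd)
  have hE3 : ContDiff ℝ (⊤ : WithTop ℕ∞) (fun p : W × W => E (p.1.1 + p.2.1)) :=
    contDiff_E.comp ((contDiff_fst.comp contDiff_fst).add (contDiff_fst.comp contDiff_snd))
  have hp1 : ContDiff ℝ (⊤ : WithTop ℕ∞) (fun p : W × W => p.1.2.1) := by fun_prop
  have hp2 : ContDiff ℝ (⊤ : WithTop ℕ∞) (fun p : W × W => p.2.2.1) := by fun_prop
  have hq1 : ContDiff ℝ (⊤ : WithTop ℕ∞) (fun p : W × W => p.1.2.2.1) := by fun_prop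
  have hq2 : ContDiff ℝ (⊤ : WithTop ℕ∞) (fun p : W × W => p.2.2.2.1) := by fun_prop
  have hr1 : ContDiff ℝ (⊤ : WithTop ℕ∞) (fun p : W × W => p.1.2.2.2) := by fun_prop
  have hr2 : ContDiff ℝ (⊤ : WithTop ℕ∞) (fun p : W × W => p.2.2.2.2) := by fun_prop
  have ha : ContDiff ℝ (⊤ : WithTop ℕ∞) (fun p : W × W => p.1.1 + p.2.1) := by fun_prop
  refine ha.contDiffAt.prodMk (ContDiffAt.prodMk ?_ (ContDiffAt.prodMk ?_ ?_))
  · exact (hp1.add ((hE1.pow 2).mul hp2)).contDiffAt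
  · exact (hq1.add ((hE1.pow 2).mul hq2)).contDiffAt
  · refine ContDiffAt.add (hr1.add (hE1.mul hr2)).contDiffAt (ContDiffAt.mul ?_ ?_)
    · simp only [div_eq_mul_inv]
      refine hE1.contDiffAt.mul (ContDiffAt.inv ?_ ?_)
      · exact (((contDiff_const.add hE1).mul (contDiff_const.add hE2)).mul
          (contDiff_const.add hE3)).contDiffAt
      · simp [E_zero]
    · exact ((hp1.mul hq2).sub (hq1.mul hp2)).contDiffAt

lemma ev_ne : ∀ᶠ p in 𝓝 ((0, 0) : W × W), 1 + E p.1.1 ≠ 0 ∧ 1 + E p.2.1 ≠ 0 ∧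
    1 + E p.1.1 * E p.2.1 ≠ 0 ∧ 1 + E p.1.1 ^ 2 ≠ 0 ∧ 1 + E p.1.1 ^ 2 * E p.2.1 ≠ 0 := by
  have hE1 : Continuous (fun p : W × W => E p.1.1) :=
    contDiff_E.continuous.comp (continuous_fst.comp continuous_fst)
  have hE2 : Continuous (fun p : W × W => E p.2.1) :=
    contDiff_E.continuous.comp (continuous_fst.comp continuous_snd)
  have h2 : (1 : ℂ) + 1 ≠ 0 := by norm_num
  refine (((continuous_const.add hE1).continuousAt).eventually_ne ?_).and
    ((((continuous_const.add hE2).continuousAt).eventually_ne ?_).and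
    ((((continuous_const.add (hE1.mul hE2)).continuousAt).eventually_ne ?_).and
    ((((continuous_const.add (hE1.pow 2)).continuousAt).eventually_ne ?_).and
    (((continuous_const.add ((hE1.pow 2).mul hE2)).continuousAt).eventually_ne ?_))))
  all_goals simp [E_zero, h2]

lemma ev_alt : ∀ᶠ p in 𝓝 ((0, 0) : W × W),
    mW p.1 (mW p.1 p.2) = mW (mW p.1 p.1) p.2 ∧ mW (mW p.2 p.1) p.1 = mW p.2 (mW p.1 p.1) := by
  filter_upwards [ev_ne] with p hp
  obtain ⟨h1, h2, h3, h4, h5⟩ := hp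
  exact ⟨mW_left_alt p.1 p.2 h1 h2 h3 h4 h5, mW_right_alt p.1 p.2 h1 h2 h3 h4 h5⟩


abbrev E7 : Type := EuclideanSpace ℝ (Fin 7)

lemma ident {M : Type} [TopologicalSpace M] [T2Space M] [ChartedSpace E7 M]
    [IsManifold 𝓘(ℝ, E7) (⊤ : WithTop ℕ∞) M] {f g : ℝ → M} {s : Set ℝ}
    (hc : IsPreconnected s)
    (hf : ∀ t ∈ s, ContMDiffAt 𝓘(ℝ, ℝ) 𝓘(ℝ, E7) (⊤ : WithTop ℕ∞) f t)
    (hg : ∀ t ∈ s, ContMDiffAt 𝓘(ℝ, ℝ) 𝓘(ℝ, E7) (⊤ : WithTop ℕ∞) g t)
    {t0 : ℝ} (h0 : t0 ∈ s) (h : ∀ᶠ t in 𝓝 t0, f t = g t) : ∀ t ∈ s, f t = g t := by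
  have hu : IsOpen {t : ℝ | ∀ᶠ z in 𝓝 t, f z = g z} := isOpen_setOfPred_eventually_nhds
  have hsub : s ⊆ {t : ℝ | ∀ᶠ z in 𝓝 t, f z = g z} := by
    refine hc.subset_of_closure_inter_subset hu ⟨t0, h0, h⟩ ?_
    rintro t ⟨htc, hts⟩
    by_cases htu : t ∈ {t : ℝ | ∀ᶠ z in 𝓝 t, f z = g z}
    · exact htu
    have hfreq : ∃ᶠ z in 𝓝[≠] t, f z = g z := by
      rw [mem_closure_iff_frequently] at htc
      rw [frequently_nhdsWithin_iff]
      refine htc.mono fun z hz => ⟨Filter.Eventually.self_of_nhds (p := fun y => f y = g y) hz, ?_⟩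
      intro hzt
      rw [mem_singleton_iff] at hzt
      subst hzt
      exact htu hz
    have hfc := (hf t hts).continuousAt
    have hgc := (hg t hts).continuousAt
    have hfg : f t = g t := by
      by_contra hne
      have hev : ∀ᶠ z in 𝓝 t, f z ≠ g z :=
        (hfc.prodMk hgc).eventually
          ((isOpen_compl_iff.2 isClosed_diagonal).mem_nhds (by simpa using hne))
      exact (hfreq.filter_mono nhdsWithin_le_nhds) (hev.mono fun z hz => by simpa using hz)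
    have hχ : ContMDiffAt 𝓘(ℝ, E7) 𝓘(ℝ, E7) (⊤ : WithTop ℕ∞)
        (extChartAt 𝓘(ℝ, E7) (f t)) (f t) := contMDiffAt_extChartAt
    have hF : ContMDiffAt 𝓘(ℝ, ℝ) 𝓘(ℝ, E7) (⊤ : WithTop ℕ∞)
        (fun z => extChartAt 𝓘(ℝ, E7) (f t) (f z)) t := hχ.comp t (hf t hts)
    have hG : ContMDiffAt 𝓘(ℝ, ℝ) 𝓘(ℝ, E7) (⊤ : WithTop ℕ∞)
        (fun z => extChartAt 𝓘(ℝ, E7) (f t) (g z)) t :=
      ContMDiffAt.comp_of_eq hχ (hg t hts) hfg.symm
    have hF' : AnalyticAt ℝ (fun z => extChartAt 𝓘(ℝ, E7) (f t) (f z)) t :=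
      (contMDiffAt_iff_contDiffAt.1 hF).analyticAt
    have hG' : AnalyticAt ℝ (fun z => extChartAt 𝓘(ℝ, E7) (f t) (g z)) t :=
      (contMDiffAt_iff_contDiffAt.1 hG).analyticAt
    have heq : ∀ᶠ z in 𝓝 t, extChartAt 𝓘(ℝ, E7) (f t) (f z) = extChartAt 𝓘(ℝ, E7) (f t) (g z) := by
      refine (hF'.frequently_eq_iff_eventually_eq hG').1 (hfreq.mono fun z hz => ?_)
      rw [hz]
    have hs1 : ∀ᶠ z in 𝓝 t, f z ∈ (extChartAt 𝓘(ℝ, E7) (f t)).source :=
      hfc.eventually (extChartAt_source_mem_nhds (f t))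
    have hs2 : ∀ᶠ z in 𝓝 t, g z ∈ (extChartAt 𝓘(ℝ, E7) (f t)).source := by
      refine hgc.eventually ?_
      rw [← hfg]
      exact extChartAt_source_mem_nhds (f t)
    filter_upwards [heq, hs1, hs2] with z h1 h2 h3
    exact (extChartAt 𝓘(ℝ, E7) (f t)).injOn h2 h3 h1
  intro t ht
  exact Filter.Eventually.self_of_nhds (p := fun y => f y = g y) (hsub ht)


/-- The curves of the one parameter subloops. -/
noncomputable def gam (b : ℝ) (t : ℝ) : W := (t, (b : ℂ) * (E t ^ 2 - 1), 0, 0)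

/-- Correcting curve in the first plane. -/
noncomputable def xi (b : ℝ) (t : ℝ) : W := (0, (b : ℂ) * (1 - E (-t) ^ 2), 0, 0)

/-- Conjugated curve. -/
noncomputable def eta (b s : ℝ) (t : ℝ) : W :=
  (0, 0, E t ^ 2 * (s : ℂ), (b : ℂ) * s * E t * (E t - 1) / 2)

lemma mW_gam (b t : ℝ) : mW (gam b t) (gam b t) = gam b (2 * t) := by
  simp only [mW, gam, E_two]
  refine Prod.ext ?_ (Prod.ext ?_ (Prod.ext ?_ ?_))
  · simp only []; ring
  · simp only []; ring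
  · simp
  · simp

lemma mW_xi (b t : ℝ) : mW (gam 0 t) (xi b t) = gam b t := by
  simp only [mW, gam, xi, E_neg]
  refine Prod.ext ?_ (Prod.ext ?_ (Prod.ext ?_ ?_))
  · simp
  · have := E_ne t
    simp only []
    field_simp
    push_cast
    ring
  · simp
  · simp

lemma mW_eta (b s t : ℝ) (ht : 1 + E t ≠ 0) :
    mW (gam b t) (0, 0, (s : ℂ), 0) = mW (eta b s t) (gam b t) := by
  simp only [mW, gam, eta, E_zero, add_zero, zero_add]
  refine Prod.ext ?_ (Prod.ext ?_ (Prod.ext ?_ ?_))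
  · simp
  · simp
  · simp
  · simp only []
    field_simp
    ring

lemma contDiff_gam (b : ℝ) : ContDiff ℝ (⊤ : WithTop ℕ∞) (gam b) := by
  unfold gam
  exact contDiff_id.prodMk ((contDiff_const.mul ((contDiff_E.pow 2).sub contDiff_const)).prodMk
    (contDiff_const.prodMk contDiff_const))

lemma contDiff_xi (b : ℝ) : ContDiff ℝ (⊤ : WithTop ℕ∞) (xi b) := by
  unfold xi
  have h : ContDiff ℝ (⊤ : WithTop ℕ∞) (fun t : ℝ => E (-t)) := contDiff_E.comp contDiff_neg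
  exact contDiff_const.prodMk ((contDiff_const.mul (contDiff_const.sub (h.pow 2))).prodMk
    (contDiff_const.prodMk contDiff_const))

lemma contDiff_eta (b s : ℝ) : ContDiff ℝ (⊤ : WithTop ℕ∞) (eta b s) := by
  unfold eta
  refine contDiff_const.prodMk (contDiff_const.prodMk
    (((contDiff_E.pow 2).mul contDiff_const).prodMk ?_))
  exact ((contDiff_const.mul contDiff_E).mul (contDiff_E.sub contDiff_const)).div_const 2

lemma norm_gam {b t δ : ℝ} (hb : 0 ≤ b) (hb' : 2 * b < δ) (ht : |t| < δ) : ‖gam b t‖ < δ := by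
  have hδ : 0 < δ := lt_of_le_of_lt (abs_nonneg t) ht
  have h1 : ‖(b : ℂ) * (E t ^ 2 - 1)‖ < δ := by
    rw [norm_mul, Complex.norm_real, Real.norm_eq_abs, abs_of_nonneg hb]
    have : ‖E t ^ 2 - 1‖ ≤ 2 := by
      refine (norm_sub_le _ _).trans ?_
      rw [norm_pow, norm_E, norm_one]; norm_num
    nlinarith
  simp only [gam, Prod.norm_def, max_lt_iff]
  exact ⟨by rwa [Real.norm_eq_abs], h1, by simpa using hδ, by simpa using hδ⟩

lemma norm_xi {b t δ : ℝ} (hb : 0 ≤ b) (hb' : 2 * b < δ) : ‖xi b t‖ < δ := by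
  have hδ : 0 < δ := by linarith
  have h1 : ‖(b : ℂ) * (1 - E (-t) ^ 2)‖ < δ := by
    rw [norm_mul, Complex.norm_real, Real.norm_eq_abs, abs_of_nonneg hb]
    have : ‖1 - E (-t) ^ 2‖ ≤ 2 := by
      refine (norm_sub_le _ _).trans ?_
      rw [norm_pow, norm_E, norm_one]; norm_num
    nlinarith
  simp only [xi, Prod.norm_def, max_lt_iff]
  exact ⟨by simpa using hδ, h1, by simpa using hδ, by simpa using hδ⟩

lemma norm_eta {b s t δ : ℝ} (hb : 0 ≤ b) (hs : 0 ≤ s) (hb1 : b ≤ 1) (hs' : s < δ) :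
    ‖eta b s t‖ < δ := by
  have hδ : 0 < δ := by linarith
  have h1 : ‖E t ^ 2 * (s : ℂ)‖ < δ := by
    rw [norm_mul, Complex.norm_real, Real.norm_eq_abs, abs_of_nonneg hs, norm_pow, norm_E]
    linarith
  have h2 : ‖(b : ℂ) * s * E t * (E t - 1) / 2‖ < δ := by
    have h3 : ‖E t - 1‖ ≤ 2 := by
      refine (norm_sub_le _ _).trans ?_
      rw [norm_E, norm_one]; norm_num
    have h4 : ‖(b : ℂ) * s * E t * (E t - 1) / 2‖ = b * s * (‖E t - 1‖ / 2) := by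
      rw [norm_div, norm_mul, norm_mul, norm_mul, Complex.norm_real, Complex.norm_real,
        Real.norm_eq_abs, Real.norm_eq_abs, abs_of_nonneg hs, abs_of_nonneg hb, norm_E]
      have : ‖(2 : ℂ)‖ = 2 := by norm_num
      rw [this]; ring
    rw [h4]
    have h5 : b * s ≤ s := by nlinarith
    have h6 : ‖E t - 1‖ / 2 ≤ 1 := by linarith
    have h7 : b * s * (‖E t - 1‖ / 2) ≤ b * s * 1 :=
      mul_le_mul_of_nonneg_left h6 (mul_nonneg hb hs)
    linarith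
  simp only [eta, Prod.norm_def, max_lt_iff]
  exact ⟨by simpa using hδ, by simpa using hδ, h1, h2⟩

theorem nonglobal {M : Type} [TopologicalSpace M] [T2Space M] [ChartedSpace E7 M]
    [IsManifold 𝓘(ℝ, E7) (⊤ : WithTop ℕ∞) M] (mul rdiv : M → M → M) (e : M)
    (Φ : W → M) (Ψ : M → W) (he : ∀ x, mul x e = x) (hr : ∀ a b, rdiv (mul b a) a = b)
    (hmul : ContMDiff (𝓘(ℝ, E7).prod 𝓘(ℝ, E7)) 𝓘(ℝ, E7) (⊤ : WithTop ℕ∞)
      (fun p : M × M => mul p.1 p.2))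
    (h0 : Φ 0 = e) (hΦ : ContMDiffAt 𝓘(ℝ, W) 𝓘(ℝ, E7) (⊤ : WithTop ℕ∞) Φ 0)
    (hinv : ∀ᶠ x in 𝓝 (0 : W), Ψ (Φ x) = x)
    (hhom : ∀ᶠ p in 𝓝 ((0, 0) : W × W), Φ (mW p.1 p.2) = mul (Φ p.1) (Φ p.2)) : False := by
  have hΦe : ∀ᶠ x in 𝓝 (0 : W), ContMDiffAt 𝓘(ℝ, W) 𝓘(ℝ, E7) (⊤ : WithTop ℕ∞) Φ x :=
    (contMDiffAt_iff_contMDiffAt_nhds (by simp)).1 hΦ
  obtain ⟨δ1, hδ1, hball1⟩ := Metric.eventually_nhds_iff.1 (hΦe.and hinv)
  obtain ⟨δ2, hδ2, hball2⟩ := Metric.eventually_nhds_iff.1 hhom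
  obtain ⟨δ, hδ, hδa, hδb, hδc⟩ : ∃ δ : ℝ, 0 < δ ∧ δ ≤ δ1 ∧ δ ≤ δ2 ∧ δ ≤ 1 :=
    ⟨min (min δ1 δ2) 1, by positivity, (min_le_left _ _).trans (min_le_left _ _),
      (min_le_left _ _).trans (min_le_right _ _), min_le_right _ _⟩
  have hsm : ∀ x : W, ‖x‖ < δ → ContMDiffAt 𝓘(ℝ, W) 𝓘(ℝ, E7) (⊤ : WithTop ℕ∞) Φ x :=
    fun x hx => (hball1 (by rw [dist_zero_right]; linarith)).1
  have hin : ∀ x : W, ‖x‖ < δ → Ψ (Φ x) = x :=
    fun x hx => (hball1 (by rw [dist_zero_right]; linarith)).2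
  have hho : ∀ x y : W, ‖x‖ < δ → ‖y‖ < δ → Φ (mW x y) = mul (Φ x) (Φ y) := by
    intro x y hx hy
    refine @hball2 (x, y) ?_
    rw [Prod.dist_eq, max_lt_iff, dist_zero_right, dist_zero_right]
    exact ⟨by linarith, by linarith⟩
  obtain ⟨n, hn⟩ : ∃ n : ℕ, 4 / 2 ^ n < δ := by
    obtain ⟨n, hn⟩ := exists_pow_lt_of_lt_one (show 0 < δ / 4 by positivity)
      (show (1 / 2 : ℝ) < 1 by norm_num)
    refine ⟨n, ?_⟩
    have : (4 : ℝ) / 2 ^ n = 4 * (1 / 2) ^ n := by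
      rw [one_div, inv_pow]; rfl
    rw [this]; linarith
  -- the squaring map and its iterates
  have hsq : ContMDiff 𝓘(ℝ, E7) 𝓘(ℝ, E7) (⊤ : WithTop ℕ∞) (fun x : M => mul x x) :=
    hmul.comp (contMDiff_id.prodMk contMDiff_id)
  have hiter : ∀ k : ℕ, ContMDiff 𝓘(ℝ, E7) 𝓘(ℝ, E7) (⊤ : WithTop ℕ∞)
      ((fun x : M => mul x x)^[k]) := by
    intro k
    induction k with
    | zero => exact contMDiff_id
    | succ k ih =>
      rw [Function.iterate_succ]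
      exact ih.comp hsq
  set Γ : ℝ → ℝ → M := fun b t => (fun x : M => mul x x)^[n] (Φ (gam b (t / 2 ^ n))) with hΓ
  have hΓs : ∀ b, 0 ≤ b → 2 * b < δ → ∀ t ∈ Ioo (-4 : ℝ) 4,
      ContMDiffAt 𝓘(ℝ, ℝ) 𝓘(ℝ, E7) (⊤ : WithTop ℕ∞) (Γ b) t := by
    intro b hb hb' t ht
    have hlt : |t / 2 ^ n| < δ := by
      rw [abs_div, abs_of_pos (by positivity : (0 : ℝ) < 2 ^ n)]
      refine lt_of_lt_of_le ?_ hn.le
      exact div_lt_div_of_pos_right (abs_lt.2 ht) (by positivity)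
    have hg : ContMDiffAt 𝓘(ℝ, ℝ) 𝓘(ℝ, W) (⊤ : WithTop ℕ∞) (fun t : ℝ => gam b (t / 2 ^ n)) t := by
      apply ContDiffAt.contMDiffAt
      exact ((contDiff_gam b).comp (contDiff_id.div_const _)).contDiffAt
    have h1 : ContMDiffAt 𝓘(ℝ, ℝ) 𝓘(ℝ, E7) (⊤ : WithTop ℕ∞)
        (fun t : ℝ => Φ (gam b (t / 2 ^ n))) t :=
      (hsm _ (norm_gam hb hb' hlt)).comp t hg
    exact (hiter n).contMDiffAt.comp t h1
  have hΓ0 : ∀ b, 0 ≤ b → 2 * b < δ → ∀ t, |t| < δ → Γ b t = Φ (gam b t) := by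
    intro b hb hb'
    have key : ∀ k : ℕ, ∀ t, |t| < δ →
        (fun x : M => mul x x)^[k] (Φ (gam b (t / 2 ^ k))) = Φ (gam b t) := by
      intro k
      induction k with
      | zero => intro t _; simp
      | succ k ih =>
        intro t ht
        rw [Function.iterate_succ_apply]
        have hlt : |t / 2 ^ (k + 1)| < δ := by
          rw [abs_div, abs_of_pos (by positivity : (0 : ℝ) < 2 ^ (k + 1))]
          refine lt_of_le_of_lt ?_ ht
          exact div_le_self (abs_nonneg t) (one_le_pow₀ (by norm_num))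
        have h2 := hho _ _ (norm_gam hb hb' hlt) (norm_gam hb hb' hlt)
        rw [mW_gam] at h2
        have h3 : 2 * (t / 2 ^ (k + 1)) = t / 2 ^ k := by
          rw [pow_succ]; field_simp
        rw [h3] at h2
        rw [← h2]
        exact ih t ht
    intro t ht
    exact key n t ht
  have h04 : (0 : ℝ) ∈ Ioo (-4 : ℝ) 4 := by norm_num
  have hπ4 : Real.pi ∈ Ioo (-4 : ℝ) 4 := ⟨by linarith [Real.pi_pos], by linarith [Real.pi_lt_four]⟩
  have hsmallt : ∀ᶠ t : ℝ in 𝓝 0, |t| < δ := by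
    have : Tendsto (fun t : ℝ => |t|) (𝓝 0) (𝓝 |0|) := continuous_abs.tendsto 0
    rw [abs_zero] at this
    exact this.eventually_lt_const hδ
  have hEt : ∀ᶠ t : ℝ in 𝓝 0, 1 + E t ≠ 0 := by
    refine ((continuous_const.add contDiff_E.continuous).continuousAt).eventually_ne ?_
    simp [E_zero]
  set b : ℝ := δ / 4 with hbdef
  have hb0 : 0 ≤ b := by positivity
  have hb1 : b ≤ 1 := by rw [hbdef]; linarith
  have hbδ : b < δ := by rw [hbdef]; linarith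
  have h2b : 2 * b < δ := by rw [hbdef]; linarith
  have h20 : 2 * (0 : ℝ) < δ := by simpa using hδ
  -- first identity
  have hI1 : ∀ t ∈ Ioo (-4 : ℝ) 4, Γ b t = mul (Γ 0 t) (Φ (xi b t)) := by
    refine ident isPreconnected_Ioo (hΓs b hb0 h2b) ?_ h04 ?_
    · intro t ht
      have hx : ContMDiffAt 𝓘(ℝ, ℝ) 𝓘(ℝ, E7) (⊤ : WithTop ℕ∞) (fun t : ℝ => Φ (xi b t)) t :=
        (hsm _ (norm_xi hb0 h2b)).comp t (contDiff_xi b).contDiffAt.contMDiffAt
      exact hmul.contMDiffAt.comp t ((hΓs 0 le_rfl h20 t ht).prodMk hx)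
    · filter_upwards [hsmallt] with t ht
      rw [hΓ0 b hb0 h2b t ht, hΓ0 0 le_rfl h20 t ht,
        ← hho _ _ (norm_gam le_rfl h20 ht) (norm_xi hb0 h2b), mW_xi]
  -- second identity
  have hX : ‖((0, 0, (b : ℂ), 0) : W)‖ < δ := by
    simp only [Prod.norm_def, max_lt_iff]
    refine ⟨by simpa using hδ, by simpa using hδ, ?_, by simpa using hδ⟩
    simpa [abs_of_nonneg hb0] using hbδ
  have hI3 : ∀ c, 0 ≤ c → c ≤ 1 → 2 * c < δ → ∀ t ∈ Ioo (-4 : ℝ) 4,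
      mul (Γ c t) (Φ (0, 0, (b : ℂ), 0)) = mul (Φ (eta c b t)) (Γ c t) := by
    intro c hc0 hc1 h2c
    refine ident isPreconnected_Ioo ?_ ?_ h04 ?_
    · intro t ht
      exact hmul.contMDiffAt.comp t ((hΓs c hc0 h2c t ht).prodMk contMDiffAt_const)
    · intro t ht
      have hx : ContMDiffAt 𝓘(ℝ, ℝ) 𝓘(ℝ, E7) (⊤ : WithTop ℕ∞) (fun t : ℝ => Φ (eta c b t)) t :=
        (hsm _ (norm_eta hc0 hb0 hc1 hbδ)).comp t (contDiff_eta c b).contDiffAt.contMDiffAt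
      exact hmul.contMDiffAt.comp t (hx.prodMk (hΓs c hc0 h2c t ht))
    · filter_upwards [hsmallt, hEt] with t ht hE
      rw [hΓ0 c hc0 h2c t ht, ← hho _ _ (norm_gam hc0 h2c ht) hX,
        ← hho _ _ (norm_eta hc0 hb0 hc1 hbδ) (norm_gam hc0 h2c ht), mW_eta c b t hE]
  have e1 := hI1 Real.pi hπ4
  have hxi : xi b Real.pi = 0 := by
    simp [xi, E_neg, E_pi]
  rw [hxi, h0, he] at e1
  have e2 := hI3 b hb0 hb1 h2b Real.pi hπ4
  have e3 := hI3 0 le_rfl (by norm_num) h20 Real.pi hπ4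
  rw [e1, e3] at e2
  have e4 := congrArg (fun z => rdiv z (Γ 0 Real.pi)) e2
  simp only [hr] at e4
  have e5 := congrArg Ψ e4
  rw [hin _ (norm_eta le_rfl hb0 (by norm_num) hbδ), hin _ (norm_eta hb0 hb0 hb1 hbδ)] at e5
  have e6 := congrArg (fun z : W => z.2.2.2) e5
  simp only [eta, E_pi] at e6
  have hbpos : (b : ℂ) ≠ 0 := by
    have : b ≠ 0 := by rw [hbdef]; positivity
    exact_mod_cast this
  apply hbpos
  have e7 : (b : ℂ) * b = 0 := by
    have : ((0 : ℝ) : ℂ) * b * (-1) * (-1 - 1) / 2 = b * b * (-1) * (-1 - 1) / 2 := e6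
    rw [Complex.ofReal_zero] at this
    linear_combination -this
  exact mul_self_eq_zero.1 e7

/-- The negation of the preceding statement: Every real-analytic local loop germ at 0 in ℝⁿ satisfying both alternative laws near 0 is locally analytically isomorphic, near the identity, to a global Hausdorff analytic alternative loop with analytic multiplication and divisions. -/
theorem result :
    ¬ (∀ (n : ℕ) (m : EuclideanSpace ℝ (Fin n) → EuclideanSpace ℝ (Fin n) → EuclideanSpace ℝ (Fin n)),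
    AnalyticAt ℝ (fun p : EuclideanSpace ℝ (Fin n) × EuclideanSpace ℝ (Fin n) => m p.1 p.2) (0, 0) →
    (∀ᶠ x in 𝓝 (0 : EuclideanSpace ℝ (Fin n)), m 0 x = x ∧ m x 0 = x) →
    (∀ᶠ p in 𝓝 ((0, 0) : EuclideanSpace ℝ (Fin n) × EuclideanSpace ℝ (Fin n)),
        m p.1 (m p.1 p.2) = m (m p.1 p.1) p.2 ∧ m (m p.2 p.1) p.1 = m p.2 (m p.1 p.1)) →
    ∃ (M : Type) (_ : TopologicalSpace M) (_ : T2Space M)
      (_ : ChartedSpace (EuclideanSpace ℝ (Fin n)) M)
      (_ : IsManifold 𝓘(ℝ, EuclideanSpace ℝ (Fin n)) ⊤ M)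
      (mul ldiv rdiv : M → M → M) (e : M)
      (φ : EuclideanSpace ℝ (Fin n) → M) (ψ : M → EuclideanSpace ℝ (Fin n)),
      (∀ x : M, mul e x = x ∧ mul x e = x) ∧
      (∀ a b : M, mul a (ldiv a b) = b ∧ ldiv a (mul a b) = b ∧
        mul (rdiv b a) a = b ∧ rdiv (mul b a) a = b) ∧
      (∀ x y : M, mul x (mul x y) = mul (mul x x) y ∧ mul (mul y x) x = mul y (mul x x)) ∧
      ContMDiff (𝓘(ℝ, EuclideanSpace ℝ (Fin n)).prod 𝓘(ℝ, EuclideanSpace ℝ (Fin n)))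
        𝓘(ℝ, EuclideanSpace ℝ (Fin n)) ⊤ (fun p : M × M => mul p.1 p.2) ∧
      ContMDiff (𝓘(ℝ, EuclideanSpace ℝ (Fin n)).prod 𝓘(ℝ, EuclideanSpace ℝ (Fin n)))
        𝓘(ℝ, EuclideanSpace ℝ (Fin n)) ⊤ (fun p : M × M => ldiv p.1 p.2) ∧
      ContMDiff (𝓘(ℝ, EuclideanSpace ℝ (Fin n)).prod 𝓘(ℝ, EuclideanSpace ℝ (Fin n)))
        𝓘(ℝ, EuclideanSpace ℝ (Fin n)) ⊤ (fun p : M × M => rdiv p.1 p.2) ∧
      φ 0 = e ∧
      ContMDiffAt 𝓘(ℝ, EuclideanSpace ℝ (Fin n)) 𝓘(ℝ, EuclideanSpace ℝ (Fin n)) ⊤ φ 0 ∧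
      ContMDiffAt 𝓘(ℝ, EuclideanSpace ℝ (Fin n)) 𝓘(ℝ, EuclideanSpace ℝ (Fin n)) ⊤ ψ e ∧
      (∀ᶠ x in 𝓝 (0 : EuclideanSpace ℝ (Fin n)), ψ (φ x) = x) ∧
      (∀ᶠ y in 𝓝 e, φ (ψ y) = y) ∧
      (∀ᶠ p in 𝓝 ((0, 0) : EuclideanSpace ℝ (Fin n) × EuclideanSpace ℝ (Fin n)),
        φ (m p.1 p.2) = mul (φ p.1) (φ p.2))) := by
  intro H
  have hfr : Module.finrank ℝ (EuclideanSpace ℝ (Fin 7)) = Module.finrank ℝ W := by
    simp [W, Module.finrank_prod, Complex.finrank_real_complex]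
  let T : EuclideanSpace ℝ (Fin 7) ≃L[ℝ] W := ContinuousLinearEquiv.ofFinrankEq hfr
  have hTT : Tendsto (fun p : E7 × E7 => ((T p.1, T p.2) : W × W)) (𝓝 (0, 0)) (𝓝 (0, 0)) := by
    have : Continuous (fun p : E7 × E7 => ((T p.1, T p.2) : W × W)) :=
      (T.continuous.comp continuous_fst).prodMk (T.continuous.comp continuous_snd)
    have h := this.tendsto (0, 0)
    simpa using h
  obtain ⟨M, iT, iT2, iC, iM, mul, ldiv, rdiv, e, φ, ψ, hid, hdiv, halt, hmul, hld, hrd, hφ0,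
    hφ, hψ, hψφ, hφψ, hhom⟩ := H 7 (fun x y => T.symm (mW (T x) (T y))) (by
      have h1 : ContDiffAt ℝ (⊤ : WithTop ℕ∞)
          (fun p : E7 × E7 => ((T p.1, T p.2) : W × W)) (0, 0) :=
        ((T.contDiff.comp contDiff_fst).prodMk (T.contDiff.comp contDiff_snd)).contDiffAt
      have h2 : ContDiffAt ℝ (⊤ : WithTop ℕ∞)
          (fun p : E7 × E7 => mW (T p.1) (T p.2)) (0, 0) := by
        refine ContDiffAt.comp (g := fun p : W × W => mW p.1 p.2)
          (f := fun p : E7 × E7 => ((T p.1, T p.2) : W × W)) (0, 0) ?_ h1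
        simpa using contDiffAt_mW
      have h3 : ContDiffAt ℝ (⊤ : WithTop ℕ∞)
          (fun p : E7 × E7 => T.symm (mW (T p.1) (T p.2))) (0, 0) :=
        T.symm.contDiff.contDiffAt.comp (0, 0) h2
      exact h3.analyticAt) (by
      refine Eventually.of_forall fun x => ?_
      constructor
      · simp [mW_zero_left]
      · simp [mW_zero_right]) (by
      filter_upwards [hTT.eventually ev_alt] with p hp
      constructor
      · simp only [ContinuousLinearEquiv.apply_symm_apply]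
        exact congrArg T.symm hp.1
      · simp only [ContinuousLinearEquiv.apply_symm_apply]
        exact congrArg T.symm hp.2)
  have hT0 : Tendsto T.symm (𝓝 0) (𝓝 0) := by
    have h := T.symm.continuous.tendsto 0
    simpa using h
  refine nonglobal mul rdiv e (fun w => φ (T.symm w)) (fun z => T (ψ z)) (fun x => (hid x).2)
    (fun a b => (hdiv a b).2.2.2) hmul (by simpa using hφ0) ?_ ?_ ?_
  · refine ContMDiffAt.comp_of_eq (g := φ) (f := T.symm) (y := 0) hφ ?_ (by simp)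
    exact T.symm.contDiff.contDiffAt.contMDiffAt
  · filter_upwards [hT0.eventually hψφ] with w hw
    rw [hw, ContinuousLinearEquiv.apply_symm_apply]
  · have hT2 : Tendsto (fun p : W × W => ((T.symm p.1, T.symm p.2) : E7 × E7))
        (𝓝 (0, 0)) (𝓝 (0, 0)) := by
      have : Continuous (fun p : W × W => ((T.symm p.1, T.symm p.2) : E7 × E7)) :=
        (T.symm.continuous.comp continuous_fst).prodMk (T.symm.continuous.comp continuous_snd)
      have h := this.tendsto (0, 0)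
      simpa using h
    filter_upwards [hT2.eventually hhom] with p hp
    simpa using hp

end Pool.Agent.S00912
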