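import Pool.Statements.S00939
import Pool.Agent.Helper28.LCN.Final

set_option autoImplicit false
open Pool Pool.MP_59d614_al

namespace Pool.Agent.S00939

/-- Every Hausdorff locally compact, locally nilpotent, nonabelian, torsion-free group has a closed normal subgroup, neither trivial nor whole, such that x^n in it with n≥1 forces x in it. -/
theorem result :
    ∀ (G : Type) [Group G] [TopologicalSpace G] [IsTopologicalGroup G]
      [LocallyCompactSpace G] [T2Space G],
      (∀ s : Finset G, Group.IsNilpotent (Subgroup.closure (s : Set G))) →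
      (∃ a b : G, a * b ≠ b * a) →
      (∀ g : G, ∀ n : ℕ, 0 < n → g ^ n = 1 → g = 1) →
      ∃ H : Subgroup G, H.Normal ∧ IsClosed (H : Set G) ∧ H ≠ ⊥ ∧ H ≠ ⊤ ∧
        ∀ g : G, ∀ n : ℕ, 0 < n → g ^ n ∈ H → g ∈ H := by
  intro G _ _ _ _ _ hl hab htf
  exact Pool.Agent.Helper28.LCN.main_theorem hl hab htf

end Pool.Agent.S00939
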