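import Pool.Statements.S00960
-- import your own Pool.Agent.* helpers here

set_option autoImplicit false
set_option linter.unusedSimpArgs false
open Pool Pool.MP_5d0ca0_al

namespace Pool.Agent.S00960.FGW

open commutatorElement Subgroup

/-- portraits of automorphisms of the ternary tree with labels in `C_3` -/
def W : Type := List (ZMod 3) → ZMod 3

instance : TopologicalSpace W := inferInstanceAs (TopologicalSpace (List (ZMod 3) → ZMod 3))
instance : T2Space W := inferInstanceAs (T2Space (List (ZMod 3) → ZMod 3))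
instance : CompactSpace W := inferInstanceAs (CompactSpace (List (ZMod 3) → ZMod 3))
instance : TotallyDisconnectedSpace W :=
  inferInstanceAs (TotallyDisconnectedSpace (List (ZMod 3) → ZMod 3))

/-- root label -/
def rt (g : W) : ZMod 3 := g []

/-- section -/
def sec (g : W) (i : ZMod 3) : W := fun v => g (i :: v)

/-- product of portraits -/
def mulF : W → W → List (ZMod 3) → ZMod 3
  | g, h, [] => rt g + rt h
  | g, h, i :: v => mulF (sec g (i + rt h)) (sec h i) v

/-- inverse of a portrait -/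
def invF : W → List (ZMod 3) → ZMod 3
  | g, [] => - rt g
  | g, i :: v => invF (sec g (i - rt g)) v

instance : Mul W := ⟨mulF⟩
instance : One W := ⟨fun _ => 0⟩
instance : Inv W := ⟨invF⟩

theorem ext_sec {g h : W} (h1 : rt g = rt h) (h2 : ∀ i, sec g i = sec h i) : g = h := by
  funext v
  cases v with
  | nil => exact h1
  | cons i v => exact congrFun (h2 i) v

@[simp] theorem rt_mul (g h : W) : rt (g * h) = rt g + rt h := rfl
@[simp] theorem sec_mul (g h : W) (i : ZMod 3) :
    sec (g * h) i = sec g (i + rt h) * sec h i := rfl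
@[simp] theorem rt_one : rt 1 = 0 := rfl
@[simp] theorem sec_one (i : ZMod 3) : sec 1 i = 1 := rfl
@[simp] theorem rt_inv (g : W) : rt g⁻¹ = - rt g := rfl
@[simp] theorem sec_inv (g : W) (i : ZMod 3) : sec g⁻¹ i = (sec g (i - rt g))⁻¹ := rfl

theorem assocF : ∀ (v : List (ZMod 3)) (f g h : W), (f * g * h) v = (f * (g * h)) v
  | [], f, g, h => by
    change rt (f * g * h) = rt (f * (g * h))
    simp only [rt_mul]; ring
  | i :: v, f, g, h => by
    change sec (f * g * h) i v = sec (f * (g * h)) i v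
    simp only [sec_mul, rt_mul]
    rw [assocF v]
    have : i + rt h + rt g = i + (rt g + rt h) := by ring
    rw [this]

theorem one_mulF : ∀ (v : List (ZMod 3)) (f : W), (1 * f) v = f v
  | [], f => by
    change rt (1 * f) = rt f
    simp
  | i :: v, f => by
    change sec (1 * f) i v = sec f i v
    simp only [sec_mul, sec_one]
    exact one_mulF v _

theorem inv_mulF : ∀ (v : List (ZMod 3)) (f : W), (f⁻¹ * f) v = (1 : W) v
  | [], f => by
    change rt (f⁻¹ * f) = rt 1
    simp
  | i :: v, f => by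
    change sec (f⁻¹ * f) i v = sec 1 i v
    simp only [sec_mul, sec_one, sec_inv, add_sub_cancel_right]
    exact inv_mulF v _

instance : Group W := Group.ofLeftAxioms
  (fun f g h => funext fun v => assocF v f g h)
  (fun f => funext fun v => one_mulF v f)
  (fun f => funext fun v => inv_mulF v f)

theorem cont_shift {Z : Type} [TopologicalSpace Z] (g : Z → W) (c : Z → ZMod 3)
    (hg : Continuous g) (hc : Continuous c) : Continuous (fun z => sec (g z) (c z)) := by
  apply continuous_pi
  intro v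
  have h1 : Continuous (fun p : ZMod 3 × W => p.2 (p.1 :: v)) := by
    rw [continuous_prod_of_discrete_left]
    intro i
    exact continuous_apply (i :: v)
  exact h1.comp (hc.prodMk hg)

theorem cont_rt {Z : Type} [TopologicalSpace Z] (g : Z → W) (hg : Continuous g) :
    Continuous (fun z => rt (g z)) := (continuous_apply []).comp hg

theorem cont_mulF {Z : Type} [TopologicalSpace Z] : ∀ (v : List (ZMod 3)) (g h : Z → W),
    Continuous g → Continuous h → Continuous (fun z => (g z * h z) v)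
  | [], g, h, hg, hh =>
      (continuous_of_discreteTopology (f := fun c : ZMod 3 × ZMod 3 => c.1 + c.2)).comp
        ((cont_rt g hg).prodMk (cont_rt h hh))
  | i :: v, g, h, hg, hh => cont_mulF v _ _
      (cont_shift g _ hg ((continuous_of_discreteTopology (f := fun c : ZMod 3 => i + c)).comp
        (cont_rt h hh)))
      (cont_shift h _ hh continuous_const)

theorem cont_invF {Z : Type} [TopologicalSpace Z] : ∀ (v : List (ZMod 3)) (g : Z → W),
    Continuous g → Continuous (fun z => (g z)⁻¹ v)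
  | [], g, hg => (continuous_of_discreteTopology (f := fun c : ZMod 3 => -c)).comp (cont_rt g hg)
  | i :: v, g, hg => cont_invF v _ (cont_shift g _ hg
      ((continuous_of_discreteTopology (f := fun c : ZMod 3 => i - c)).comp (cont_rt g hg)))

instance : IsTopologicalGroup W where
  continuous_mul := continuous_pi fun v => cont_mulF v _ _ continuous_fst continuous_snd
  continuous_inv := continuous_pi fun v => cont_invF v _ continuous_id

/-- the action on vertices -/
def act : W → List (ZMod 3) → List (ZMod 3)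
  | _, [] => []
  | g, i :: v => (i + rt g) :: act (sec g i) v

@[simp] theorem act_nil (g : W) : act g [] = [] := rfl
@[simp] theorem act_cons (g : W) (i : ZMod 3) (v : List (ZMod 3)) :
    act g (i :: v) = (i + rt g) :: act (sec g i) v := rfl

theorem act_mul : ∀ (v : List (ZMod 3)) (g h : W), act (g * h) v = act g (act h v)
  | [], _, _ => rfl
  | i :: v, g, h => by
    simp only [act_cons, rt_mul, sec_mul]
    rw [act_mul v]
    congr 1
    ring

theorem act_one : ∀ (v : List (ZMod 3)), act 1 v = v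
  | [] => rfl
  | i :: v => by
    simp only [act_cons, rt_one, sec_one, add_zero]
    rw [act_one v]

theorem act_inv_act (g : W) (v : List (ZMod 3)) : act g⁻¹ (act g v) = v := by
  rw [← act_mul, inv_mul_cancel, act_one]

theorem act_act_inv (g : W) (v : List (ZMod 3)) : act g (act g⁻¹ v) = v := by
  rw [← act_mul, mul_inv_cancel, act_one]

theorem length_act : ∀ (v : List (ZMod 3)) (g : W), (act g v).length = v.length
  | [], _ => rfl
  | i :: v, g => by
    simp only [act_cons, List.length_cons, length_act v]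

/-- iterated section -/
def secw : W → List (ZMod 3) → W
  | g, [] => g
  | g, i :: v => secw (sec g i) v

@[simp] theorem secw_nil (g : W) : secw g [] = g := rfl
@[simp] theorem secw_cons (g : W) (i : ZMod 3) (v : List (ZMod 3)) :
    secw g (i :: v) = secw (sec g i) v := rfl

theorem act_append : ∀ (v w : List (ZMod 3)) (g : W),
    act g (v ++ w) = act g v ++ act (secw g v) w
  | [], _, _ => rfl
  | i :: v, w, g => by
    simp only [List.cons_append, act_cons, secw_cons, act_append v]

theorem eq_one_of_act (g : W) (h : ∀ v, act g v = v) : g = 1 := by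
  have key : ∀ (v : List (ZMod 3)) (g : W), (∀ v, act g v = v) → g v = 0 := by
    intro v
    induction v with
    | nil =>
      intro g h
      have h1 := h [0]
      simp only [act_cons, act_nil, zero_add, List.cons.injEq, and_true] at h1
      exact h1
    | cons i v ih =>
      intro g h
      apply ih (sec g i)
      intro w
      have h1 := h (i :: w)
      simp only [act_cons, List.cons.injEq] at h1
      exact h1.2
  funext v
  exact key v g h

/-- element with given root label and sections -/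
def mk (c : ZMod 3) (f : ZMod 3 → W) : W
  | [] => c
  | i :: v => f i v

@[simp] theorem rt_mk (c : ZMod 3) (f : ZMod 3 → W) : rt (mk c f) = c := rfl
@[simp] theorem sec_mk (c : ZMod 3) (f : ZMod 3 → W) (i : ZMod 3) : sec (mk c f) i = f i := rfl

/-- embedding at coordinate `i` -/
def iot (i : ZMod 3) : W →* W where
  toFun g := mk 0 (fun j => if j = i then g else 1)
  map_one' := by
    apply ext_sec
    · simp
    · intro j; simp
  map_mul' g h := by
    apply ext_sec
    · simp
    · intro j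
      by_cases hj : j = i <;> simp [hj]

@[simp] theorem rt_iot (i : ZMod 3) (g : W) : rt (iot i g) = 0 := rfl
@[simp] theorem sec_iot (i j : ZMod 3) (g : W) : sec (iot i g) j = if j = i then g else 1 := rfl

theorem iot_inj (i : ZMod 3) : Function.Injective (iot i) := by
  intro g h hgh
  have := congrArg (fun x => sec x i) hgh
  simpa using this

theorem cont_mk {Z : Type} [TopologicalSpace Z] (c : Z → ZMod 3) (f : Z → ZMod 3 → W)
    (hc : Continuous c) (hf : ∀ i, Continuous (fun z => f z i)) :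
    Continuous (fun z => mk (c z) (f z)) := by
  apply continuous_pi
  intro v
  cases v with
  | nil => exact hc
  | cons i v => exact (continuous_apply v).comp (hf i)

theorem cont_iot (i : ZMod 3) : Continuous (iot i) := by
  apply cont_mk _ _ continuous_const
  intro j
  by_cases hj : j = i
  · simp only [hj, if_true]; exact continuous_id
  · simp only [hj, if_false]; exact continuous_const

/-- embedding at a vertex -/
def iotw : List (ZMod 3) → (W →* W)
  | [] => MonoidHom.id W
  | i :: v => (iot i).comp (iotw v)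

@[simp] theorem iotw_nil (g : W) : iotw [] g = g := rfl
@[simp] theorem iotw_cons (i : ZMod 3) (v : List (ZMod 3)) (g : W) :
    iotw (i :: v) g = iot i (iotw v g) := rfl

theorem iotw_inj : ∀ v, Function.Injective (iotw v)
  | [] => fun _ _ h => h
  | i :: v => (iot_inj i).comp (iotw_inj v)

theorem cont_iotw : ∀ v, Continuous (iotw v)
  | [] => continuous_id
  | i :: v => (cont_iot i).comp (cont_iotw v)

theorem iotw_append : ∀ (v w : List (ZMod 3)) (g : W), iotw (v ++ w) g = iotw v (iotw w g)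
  | [], _, _ => rfl
  | i :: v, w, g => by
    rw [List.cons_append, iotw_cons, iotw_cons, iotw_append v]

theorem conj_iotw : ∀ (v : List (ZMod 3)) (h x : W),
    h * iotw v x * h⁻¹ = iotw (act h v) (secw h v * x * (secw h v)⁻¹)
  | [], _, _ => rfl
  | i :: v, h, x => by
    apply ext_sec
    · simp
    · intro j
      simp only [iotw_cons, sec_mul, rt_mul, rt_iot, rt_inv, sec_inv, sec_iot, act_cons, secw_cons,
        zero_add]
      have e : j + -rt h = j - rt h := by ring
      rw [e, add_zero]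
      by_cases hj : j - rt h = i
      · have hj' : j = i + rt h := by rw [← hj]; ring
        rw [if_pos hj, if_pos hj', ← conj_iotw v, hj]
      · have hj' : ¬ j = i + rt h := fun h' => hj (by rw [h']; ring)
        rw [if_neg hj, if_neg hj']
        simp

theorem comm_iotw : ∀ (v w : List (ZMod 3)) (x y : W), v.length = w.length → v ≠ w →
    iotw v x * iotw w y = iotw w y * iotw v x
  | [], [], _, _, _, h => (h rfl).elim
  | [], _ :: _, _, _, h, _ => by simp at h
  | _ :: _, [], _, _, h, _ => by simp at h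
  | i :: v, j :: w, x, y, hl, hne => by
    apply ext_sec
    · simp
    · intro k
      simp only [iotw_cons, sec_mul, rt_iot, add_zero, sec_iot]
      by_cases hki : k = i
      · by_cases hkj : k = j
        · rw [if_pos hki, if_pos hkj]
          apply comm_iotw v w _ _ (by simpa using hl)
          intro hvw
          exact hne (by rw [← hki, ← hkj, hvw])
        · rw [if_neg hkj]; simp
      · rw [if_neg hki]; simp

end Pool.Agent.S00960.FGW

namespace Pool.Agent.S00960.FGG

open commutatorElement Subgroup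
open Pool.Agent.S00960.FGW

/-- the rooted rotation -/
def a : W := mk 1 (fun _ => 1)

/-- portrait of the directed generator `b = (a, 1, b)` -/
def bF : List (ZMod 3) → ZMod 3
  | [] => 0
  | i :: v => if i = 0 then a v else if i = 2 then bF v else 0

/-- the directed generator -/
def b : W := bF

@[simp] theorem rt_a : rt a = 1 := rfl
@[simp] theorem sec_a (i : ZMod 3) : sec a i = 1 := rfl
@[simp] theorem rt_b : rt b = 0 := rfl
theorem sec_b (i : ZMod 3) : sec b i = if i = 0 then a else if i = 2 then b else 1 := by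
  funext v
  change (if i = 0 then a v else if i = 2 then bF v else 0) = _
  split_ifs <;> rfl
@[simp] theorem sec_b0 : sec b 0 = a := by rw [sec_b]; rfl
@[simp] theorem sec_b1 : sec b 1 = 1 := by rw [sec_b]; rfl
@[simp] theorem sec_b2 : sec b 2 = b := by rw [sec_b]; rfl

/-- the Fabrykowski-Gupta group -/
def Gam : Subgroup W := Subgroup.closure {a, b}

/-- its derived subgroup -/
def Gd : Subgroup W := ⁅Gam, Gam⁆

/-- third term of the lower central series -/
def G3 : Subgroup W := ⁅Gd, Gam⁆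

theorem a_mem : a ∈ Gam := Subgroup.subset_closure (by simp)
theorem b_mem : b ∈ Gam := Subgroup.subset_closure (by simp)

theorem gd_le : Gd ≤ Gam := commutator_le_self Gam

theorem gd_conj {g x : W} (hg : g ∈ Gam) (hx : x ∈ Gd) : g * x * g⁻¹ ∈ Gd := by
  have h1 : ⁅g, x⁆ ∈ Gd := commutator_mem_commutator hg (gd_le hx)
  have h2 : g * x * g⁻¹ = ⁅g, x⁆ * x := by rw [commutatorElement_def]; group
  rw [h2]; exact mul_mem h1 hx

theorem g3_le : G3 ≤ Gd := by
  rw [G3, commutator_le]
  intro x hx y hy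
  exact commutator_mem_commutator (gd_le hx) hy

theorem g3_conj {g x : W} (hg : g ∈ Gam) (hx : x ∈ G3) : g * x * g⁻¹ ∈ G3 := by
  have h1 : ⁅x, g⁆ ∈ G3 := commutator_mem_commutator (g3_le hx) hg
  have h2 : g * x * g⁻¹ = (⁅x, g⁆)⁻¹ * x := by rw [commutatorElement_def]; group
  rw [h2]; exact mul_mem (inv_mem h1) hx

theorem gd_le_of (D : Subgroup W) (h1 : ⁅a, b⁆ ∈ D)
    (h2 : ∀ g ∈ Gam, ∀ d ∈ D, g * d * g⁻¹ ∈ D) : Gd ≤ D := by
  have key : ∀ x : W, x ∈ Gam → ⁅x, a⁆ ∈ D → ⁅x, b⁆ ∈ D → ∀ y ∈ Gam, ⁅x, y⁆ ∈ D := by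
    intro x hx ha hb y hy
    induction hy using Subgroup.closure_induction with
    | mem y hy =>
      rcases hy with rfl | hy
      · exact ha
      · rw [Set.mem_singleton_iff] at hy; rw [hy]; exact hb
    | one => rw [commutatorElement_one_right]; exact one_mem _
    | mul y z hy hz ihy ihz =>
      have e : ⁅x, y * z⁆ = ⁅x, y⁆ * (y * ⁅x, z⁆ * y⁻¹) := by
        simp only [commutatorElement_def]; group
      rw [e]
      exact mul_mem ihy (h2 y hy _ ihz)
    | inv y hy ihy =>
      have e : ⁅x, y⁻¹⁆ = y⁻¹ * (⁅x, y⁆)⁻¹ * (y⁻¹)⁻¹ := by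
        simp only [commutatorElement_def]; group
      rw [e]
      exact h2 _ (inv_mem hy) _ (inv_mem ihy)
  have key2 : ∀ x y : W, ⁅x, y⁆ ∈ D → ⁅y, x⁆ ∈ D := by
    intro x y h
    rw [← commutatorElement_inv]; exact inv_mem h
  have h3 : ∀ y ∈ Gam, ⁅a, y⁆ ∈ D := key a a_mem (by rw [commutatorElement_self]; exact one_mem _) h1
  have h4 : ∀ y ∈ Gam, ⁅b, y⁆ ∈ D := key b b_mem (key2 _ _ h1)
    (by rw [commutatorElement_self]; exact one_mem _)
  rw [Gd, commutator_le]
  intro x hx y hy
  exact key x hx (key2 _ _ (h3 x hx)) (key2 _ _ (h4 x hx)) y hy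

theorem z3 : ∀ i : ZMod 3, i = 0 ∨ i = 1 ∨ i = 2 := by decide

theorem e10 : (1 : ZMod 3) ≠ 0 := by decide
theorem e20 : (2 : ZMod 3) ≠ 0 := by decide
theorem e01 : (0 : ZMod 3) - 1 = 2 := by decide
theorem e21 : (2 : ZMod 3) - 1 = 1 := by decide
theorem e12 : (1 : ZMod 3) + 1 = 2 := by decide
theorem e22 : (2 : ZMod 3) + 1 = 0 := by decide
theorem en1 : (-1 : ZMod 3) = 2 := by decide
theorem e2n1 : (2 : ZMod 3) + -1 = 1 := by decide
theorem e1n1 : (1 : ZMod 3) + -1 = 0 := by decide
theorem e02 : (0 : ZMod 3) ≠ 2 := by decide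
theorem e12' : (1 : ZMod 3) ≠ 2 := by decide
theorem e01' : (0 : ZMod 3) ≠ 1 := by decide

theorem F1 : ⁅b, a * b * a⁻¹⁆ = iot 0 ⁅a, b⁆ := by
  apply ext_sec
  · simp [commutatorElement_def]
  · intro i
    rcases z3 i with rfl | rfl | rfl
    · simp [commutatorElement_def, e10, e20, e01, e21, e12, e22, e2n1, e1n1]
      rw [en1, sec_b2]
    · simp [commutatorElement_def, e10, e20, e01, e21, e12, e22, e2n1, e1n1, mul_assoc]
    · simp [commutatorElement_def, e10, e20, e01, e21, e12, e22, e2n1, e1n1, mul_assoc]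

theorem F2 (i : ZMod 3) (g : W) : a * iot i g * a⁻¹ = iot (i + 1) g := by
  have h := conj_iotw [i] a g
  simpa using h

theorem conj_iot (h x : W) (i : ZMod 3) :
    h * iot i x * h⁻¹ = iot (i + rt h) (sec h i * x * (sec h i)⁻¹) := by
  have h := conj_iotw [i] h x
  simpa using h

theorem F3 : iot 0 ⁅a, b⁆ ∈ G3 := by
  have h1 : ⁅a, b⁆ ∈ Gd := commutator_mem_commutator a_mem b_mem
  have h2 : ⁅b, a * b * a⁻¹⁆ = (⁅⁅a, b⁆, b⁆)⁻¹ := by
    simp only [commutatorElement_def]; group
  rw [← F1, h2]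
  exact inv_mem (commutator_mem_commutator h1 b_mem)

theorem F3' (i : ZMod 3) : iot i ⁅a, b⁆ ∈ G3 := by
  have h0 := F3
  have h1 : iot 1 ⁅a, b⁆ ∈ G3 := by
    have := g3_conj a_mem h0
    rwa [F2, zero_add] at this
  have h2 : iot 2 ⁅a, b⁆ ∈ G3 := by
    have := g3_conj a_mem h1
    rwa [F2, e12] at this
  rcases z3 i with rfl | rfl | rfl
  · exact h0
  · exact h1
  · exact h2

theorem gam_sec {g : W} (hg : g ∈ Gam) : ∀ i, sec g i ∈ Gam := by
  induction hg using Subgroup.closure_induction with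
  | mem y hy =>
    intro i
    rcases hy with rfl | hy
    · rw [sec_a]; exact one_mem _
    · rw [Set.mem_singleton_iff] at hy
      rw [hy, sec_b]
      split_ifs
      · exact a_mem
      · exact b_mem
      · exact one_mem _
  | one => intro i; rw [sec_one]; exact one_mem _
  | mul y z hy hz ihy ihz => intro i; rw [sec_mul]; exact mul_mem (ihy _) (ihz _)
  | inv y hy ihy => intro i; rw [sec_inv]; exact inv_mem (ihy _)

/-- root label as a homomorphism -/
def rtH : W →* Multiplicative (ZMod 3) where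
  toFun g := Multiplicative.ofAdd (rt g)
  map_one' := rfl
  map_mul' g h := by rw [rt_mul, ofAdd_add]

theorem gd_rt {g : W} (hg : g ∈ Gd) : rt g = 0 := by
  have h1 : Gd ≤ rtH.ker := by
    rw [Gd, commutator_le]
    intro x _ y _
    rw [MonoidHom.mem_ker, map_commutatorElement, commutatorElement_eq_one_iff_mul_comm]
    exact mul_comm _ _
  exact h1 hg

theorem F5 (i : ZMod 3) {z : W} (hz : z ∈ Gam) : ∃ g ∈ Gd, sec g i = z := by
  have hc : ⁅a, b⁆ ∈ Gd := commutator_mem_commutator a_mem b_mem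
  have hc1 : sec ⁅a, b⁆ 1 = a := by
    simp [commutatorElement_def, e10, e20, e01, e21, e12, e22, e2n1, e1n1, mul_assoc]
  have hc2 : sec ⁅a, b⁆ 2 = b⁻¹ := by
    simp [commutatorElement_def, e10, e20, e01, e21, e12, e22, e2n1, e1n1, mul_assoc]
  -- conjugates by `a`
  have hconj : ∀ (g : W) (j : ZMod 3), sec (a * g * a⁻¹) (j + 1) = sec g j := by
    intro g j
    simp
  have key : ∀ i, (∃ g ∈ Gd, sec g i = a) ∧ (∃ g ∈ Gd, sec g i = b) := by
    have hs : ∀ (z : W) (j : ZMod 3), (∃ g ∈ Gd, sec g j = z) → ∃ g ∈ Gd, sec g (j + 1) = z := by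
      rintro z j ⟨g, hg, rfl⟩
      exact ⟨a * g * a⁻¹, gd_conj a_mem hg, hconj g j⟩
    have ha1 : ∃ g ∈ Gd, sec g 1 = a := ⟨_, hc, hc1⟩
    have ha2 : ∃ g ∈ Gd, sec g 2 = a := by have := hs a 1 ha1; rwa [e12] at this
    have ha0 : ∃ g ∈ Gd, sec g 0 = a := by have := hs a 2 ha2; rwa [e22] at this
    have hb2 : ∃ g ∈ Gd, sec g 2 = b := by
      refine ⟨(⁅a, b⁆)⁻¹, inv_mem hc, ?_⟩
      rw [sec_inv, gd_rt hc, sub_zero, hc2, inv_inv]
    have hb0 : ∃ g ∈ Gd, sec g 0 = b := by have := hs b 2 hb2; rwa [e22] at this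
    have hb1 : ∃ g ∈ Gd, sec g 1 = b := by have := hs b 0 hb0; rwa [zero_add] at this
    intro i
    rcases z3 i with rfl | rfl | rfl
    · exact ⟨ha0, hb0⟩
    · exact ⟨ha1, hb1⟩
    · exact ⟨ha2, hb2⟩
  induction hz using Subgroup.closure_induction with
  | mem y hy =>
    rcases hy with rfl | hy
    · exact (key i).1
    · rw [Set.mem_singleton_iff] at hy
      rw [hy]; exact (key i).2
  | one => exact ⟨1, one_mem _, sec_one i⟩
  | mul y z hy hz ihy ihz =>
    obtain ⟨g, hg, rfl⟩ := ihy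
    obtain ⟨h, hh, rfl⟩ := ihz
    exact ⟨g * h, mul_mem hg hh, by rw [sec_mul, gd_rt hh, add_zero]⟩
  | inv y hy ihy =>
    obtain ⟨g, hg, rfl⟩ := ihy
    exact ⟨g⁻¹, inv_mem hg, by rw [sec_inv, gd_rt hg, sub_zero]⟩

theorem F4 (i : ZMod 3) : Gd ≤ G3.comap (iot i) := by
  apply gd_le_of
  · exact F3' i
  · intro g hg d hd
    obtain ⟨g', hg', rfl⟩ := F5 i hg
    rw [mem_comap] at hd ⊢
    have h1 := conj_iot g' d i
    rw [gd_rt hg', add_zero] at h1
    rw [← h1]
    exact g3_conj (gd_le hg') hd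

theorem F6 (i : ZMod 3) : G3 ≤ (⁅Gd, Gd⁆).comap (iot i) := by
  conv_lhs => rw [G3]
  rw [commutator_le]
  intro y hy z hz
  obtain ⟨g, hg, rfl⟩ := F5 i hz
  rw [mem_comap]
  have h1 : iot i ⁅y, sec g i⁆ = ⁅iot i y, g⁆ := by
    have h2 := conj_iot g y⁻¹ i
    rw [gd_rt hg, add_zero] at h2
    have h3 : ⁅iot i y, g⁆ = iot i y * (g * iot i y⁻¹ * g⁻¹) := by
      rw [commutatorElement_def, map_inv]; group
    rw [h3, h2, ← map_mul, commutatorElement_def]
    congr 1
    group
  rw [h1]
  exact commutator_mem_commutator (g3_le (F4 i hy)) hg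

theorem F7 (i j : ZMod 3) {y : W} (hy : y ∈ Gd) : iotw [i, j] y ∈ ⁅Gd, Gd⁆ := by
  have h1 : iot j y ∈ G3 := F4 j hy
  exact F6 i h1

theorem F9 : ∀ (v v' : List (ZMod 3)), v.length = v'.length → ∃ g ∈ Gam, act g v = v'
  | [], [], _ => ⟨1, one_mem _, rfl⟩
  | [], _ :: _, h => by simp at h
  | _ :: _, [], h => by simp at h
  | i :: v, j :: v', h => by
    obtain ⟨z, hz, hzv⟩ := F9 v v' (by simpa using h)
    obtain ⟨g, hg, hgz⟩ := F5 j hz
    have h1 : ∃ x ∈ Gam, act x (i :: v) = j :: v := by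
      have h2 : ∀ (i : ZMod 3), act a (i :: v) = (i + 1) :: v := by
        intro i
        rw [act_cons, rt_a, sec_a, act_one]
      have h3 : j = i ∨ j = i + 1 ∨ j = i + 1 + 1 := by
        clear h hgz hzv hz h2
        revert i j; decide
      rcases h3 with h3 | h3 | h3
      · exact ⟨1, one_mem _, by rw [act_one, h3]⟩
      · exact ⟨a, a_mem, by rw [h2, h3]⟩
      · exact ⟨a * a, mul_mem a_mem a_mem, by rw [act_mul, h2, h2, h3]⟩
    obtain ⟨x, hx, hxv⟩ := h1
    refine ⟨g * x, mul_mem (gd_le hg) hx, ?_⟩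
    rw [act_mul, hxv, act_cons, gd_rt hg, add_zero, hgz, hzv]

theorem F10 (i : ZMod 3) (v v' : List (ZMod 3)) (h : v.length = v'.length) :
    ∃ g ∈ Gd, act g (i :: v) = i :: v' := by
  obtain ⟨z, hz, hzv⟩ := F9 v v' h
  obtain ⟨g, hg, hgz⟩ := F5 i hz
  exact ⟨g, hg, by rw [act_cons, gd_rt hg, add_zero, hgz, hzv]⟩

end Pool.Agent.S00960.FGG

namespace Pool.Agent.S00960.FGK

open commutatorElement Subgroup
open Pool.Agent.S00960.FGW Pool.Agent.S00960.FGG

theorem a3 : a ^ 3 = 1 := by
  apply ext_sec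
  · rw [pow_succ, pow_two]
    simp only [rt_mul, rt_a, rt_one]; decide
  · intro i
    rw [pow_succ, pow_two]
    simp

theorem b3F : ∀ v : List (ZMod 3), (b ^ 3) v = (1 : W) v
  | [] => by
    change rt (b ^ 3) = rt 1
    rw [pow_succ, pow_two]
    simp
  | i :: v => by
    change sec (b ^ 3) i v = sec 1 i v
    have h1 : sec (b ^ 3) i = (sec b i) ^ 3 := by
      rw [pow_succ, pow_two, pow_succ, pow_two]
      simp
    rw [h1, sec_b, sec_one]
    split_ifs
    · rw [a3]
    · exact b3F v
    · rw [one_pow]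

theorem b3 : b ^ 3 = 1 := funext b3F

theorem gam_cover {g : W} (hg : g ∈ Gam) : ∃ i < 3, ∃ j < 3, ∃ k ∈ Gd, g = a ^ i * b ^ j * k := by
  have key : ∃ i j : ℕ, ∃ k ∈ Gd, g = a ^ i * b ^ j * k := by
    have ha : ∀ y : W, (∃ i j : ℕ, ∃ k ∈ Gd, y = a ^ i * b ^ j * k) →
        ∃ i j : ℕ, ∃ k ∈ Gd, a * y = a ^ i * b ^ j * k := by
      rintro y ⟨i, j, k, hk, rfl⟩
      exact ⟨i + 1, j, k, hk, by rw [pow_succ']; group⟩
    have hb : ∀ y : W, (∃ i j : ℕ, ∃ k ∈ Gd, y = a ^ i * b ^ j * k) →
        ∃ i j : ℕ, ∃ k ∈ Gd, b * y = a ^ i * b ^ j * k := by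
      rintro y ⟨i, j, k, hk, rfl⟩
      have h1 : ⁅b⁻¹, (a ^ i)⁻¹⁆ ∈ Gd :=
        commutator_mem_commutator (inv_mem b_mem) (inv_mem (pow_mem a_mem i))
      have h2 := gd_conj (inv_mem (pow_mem b_mem j)) h1
      refine ⟨i, j + 1, _, mul_mem h2 hk, ?_⟩
      rw [commutatorElement_def, pow_succ']; group
    have ha' : ∀ y : W, (∃ i j : ℕ, ∃ k ∈ Gd, y = a ^ i * b ^ j * k) →
        ∃ i j : ℕ, ∃ k ∈ Gd, a⁻¹ * y = a ^ i * b ^ j * k := by
      intro y hy
      have h1 : a⁻¹ = a * a := by
        rw [inv_eq_iff_mul_eq_one]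
        rw [← a3, pow_succ, pow_two]; group
      rw [h1, mul_assoc]
      exact ha _ (ha _ hy)
    have hb' : ∀ y : W, (∃ i j : ℕ, ∃ k ∈ Gd, y = a ^ i * b ^ j * k) →
        ∃ i j : ℕ, ∃ k ∈ Gd, b⁻¹ * y = a ^ i * b ^ j * k := by
      intro y hy
      have h1 : b⁻¹ = b * b := by
        rw [inv_eq_iff_mul_eq_one]
        rw [← b3, pow_succ, pow_two]; group
      rw [h1, mul_assoc]
      exact hb _ (hb _ hy)
    induction hg using Subgroup.closure_induction_left with
    | one => exact ⟨0, 0, 1, one_mem _, by simp⟩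
    | mul_left x hx y hy ih =>
      rcases hx with rfl | hx
      · exact ha _ ih
      · rw [Set.mem_singleton_iff] at hx; rw [hx]; exact hb _ ih
    | inv_mul_cancel x hx y hy ih =>
      rcases hx with rfl | hx
      · exact ha' _ ih
      · rw [Set.mem_singleton_iff] at hx; rw [hx]; exact hb' _ ih
  obtain ⟨i, j, k, hk, rfl⟩ := key
  refine ⟨i % 3, Nat.mod_lt _ (by norm_num), j % 3, Nat.mod_lt _ (by norm_num), k, hk, ?_⟩
  rw [← pow_eq_pow_mod i a3, ← pow_eq_pow_mod j b3]

theorem gd_relIndex : Gd.relIndex Gam ≠ 0 := by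
  have h1 : Finite (Gam ⧸ Gd.subgroupOf Gam) := by
    let f : Fin 3 × Fin 3 → Gam ⧸ Gd.subgroupOf Gam := fun p =>
      QuotientGroup.mk ⟨a ^ (p.1 : ℕ) * b ^ (p.2 : ℕ),
        mul_mem (pow_mem a_mem _) (pow_mem b_mem _)⟩
    apply Finite.of_surjective f
    intro q
    obtain ⟨⟨g, hg⟩, rfl⟩ := QuotientGroup.mk_surjective q
    obtain ⟨i, hi, j, hj, k, hk, rfl⟩ := gam_cover hg
    refine ⟨(⟨i, hi⟩, ⟨j, hj⟩), ?_⟩
    rw [QuotientGroup.eq, mem_subgroupOf]
    change (a ^ i * b ^ j)⁻¹ * (a ^ i * b ^ j * k) ∈ Gd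
    rw [inv_mul_cancel_left]; exact hk
  rw [Subgroup.relIndex, Subgroup.index_ne_zero_iff_finite]
  exact h1

theorem gd_fg : ∃ S : Finset W, Subgroup.closure (S : Set W) = Gd := by
  classical
  have h1 : Group.FG Gam := by
    rw [Group.fg_iff_subgroup_fg, Subgroup.fg_iff]
    exact ⟨{a, b}, rfl, Set.toFinite _⟩
  have h2 : (Gd.subgroupOf Gam).FiniteIndex := ⟨gd_relIndex⟩
  have h3 : Group.FG (Gd.subgroupOf Gam) := fg_of_index_ne_zero _
  rw [Group.fg_iff_subgroup_fg] at h3
  obtain ⟨S, hS⟩ := h3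
  refine ⟨S.image Gam.subtype, ?_⟩
  have h4 := congrArg (Subgroup.map Gam.subtype) hS
  rw [subgroupOf_map_subtype, inf_eq_left.2 gd_le, MonoidHom.map_closure] at h4
  rw [Finset.coe_image]
  exact h4

/-- closures -/
def GG : Subgroup W := Gam.topologicalClosure
/-- the closure of the derived subgroup -/
def K : Subgroup W := Gd.topologicalClosure

theorem K_closed : IsClosed (K : Set W) := Subgroup.isClosed_topologicalClosure _
theorem GG_closed : IsClosed (GG : Set W) := Subgroup.isClosed_topologicalClosure _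
theorem K_le_GG : K ≤ GG := Subgroup.topologicalClosure_mono gd_le
theorem Gd_le_K : Gd ≤ K := Subgroup.le_topologicalClosure _
theorem Gam_le_GG : Gam ≤ GG := Subgroup.le_topologicalClosure _

theorem K_le_of {D : Subgroup W} (hD : IsClosed (D : Set W)) (h : Gd ≤ D) : K ≤ D :=
  Subgroup.topologicalClosure_minimal _ h hD

theorem K_relIndex : K.relIndex GG ≠ 0 := by
  have h1 : Finite (GG ⧸ K.subgroupOf GG) := by
    let f : Fin 3 × Fin 3 → GG ⧸ K.subgroupOf GG := fun p =>
      QuotientGroup.mk ⟨a ^ (p.1 : ℕ) * b ^ (p.2 : ℕ),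
        Gam_le_GG (mul_mem (pow_mem a_mem _) (pow_mem b_mem _))⟩
    apply Finite.of_surjective f
    let U : Set W := ⋃ p : Fin 3 × Fin 3,
      (fun x => (a ^ (p.1 : ℕ) * b ^ (p.2 : ℕ))⁻¹ * x) ⁻¹' (K : Set W)
    have hU : IsClosed U := by
      apply isClosed_iUnion_of_finite
      intro p
      exact K_closed.preimage (continuous_const.mul continuous_id)
    have h2 : (Gam : Set W) ⊆ U := by
      intro g hg
      obtain ⟨i, hi, j, hj, k, hk, rfl⟩ := gam_cover hg
      refine Set.mem_iUnion.2 ⟨(⟨i, hi⟩, ⟨j, hj⟩), ?_⟩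
      change (a ^ i * b ^ j)⁻¹ * (a ^ i * b ^ j * k) ∈ K
      rw [inv_mul_cancel_left]; exact Gd_le_K hk
    have h3 : (GG : Set W) ⊆ U := closure_minimal h2 hU
    intro q
    obtain ⟨⟨g, hg⟩, rfl⟩ := QuotientGroup.mk_surjective q
    obtain ⟨p, hp⟩ := Set.mem_iUnion.1 (h3 hg)
    refine ⟨p, ?_⟩
    rw [QuotientGroup.eq, mem_subgroupOf]
    exact hp
  rw [Subgroup.relIndex, Subgroup.index_ne_zero_iff_finite]
  exact h1

theorem cont_sec (i : ZMod 3) : Continuous (fun g : W => sec g i) :=
  cont_shift (fun g => g) (fun _ => i) continuous_id continuous_const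

theorem GG_sec {g : W} (hg : g ∈ GG) (i : ZMod 3) : sec g i ∈ GG := by
  have h1 : IsClosed ((fun g : W => sec g i) ⁻¹' (GG : Set W)) := GG_closed.preimage (cont_sec i)
  have h2 : (Gam : Set W) ⊆ (fun g : W => sec g i) ⁻¹' (GG : Set W) :=
    fun g hg => Gam_le_GG (gam_sec hg i)
  exact closure_minimal h2 h1 hg

theorem K_rt {g : W} (hg : g ∈ K) : rt g = 0 := by
  have h1 : IsClosed {g : W | rt g = 0} :=
    isClosed_eq (cont_rt (fun g => g) continuous_id) continuous_const
  exact closure_minimal (fun g hg => gd_rt hg) h1 hg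

theorem K_conj {g x : W} (hg : g ∈ GG) (hx : x ∈ K) : g * x * g⁻¹ ∈ K := by
  have h1 : ∀ g ∈ Gam, ∀ x ∈ K, g * x * g⁻¹ ∈ K := by
    intro g hg x hx
    have h2 : IsClosed ((fun x : W => g * x * g⁻¹) ⁻¹' (K : Set W)) :=
      K_closed.preimage (by fun_prop)
    have h3 : (Gd : Set W) ⊆ (fun x : W => g * x * g⁻¹) ⁻¹' (K : Set W) :=
      fun x hx => Gd_le_K (gd_conj hg hx)
    exact closure_minimal h3 h2 hx
  have h2 : IsClosed ((fun g : W => g * x * g⁻¹) ⁻¹' (K : Set W)) :=
    K_closed.preimage (by fun_prop)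
  have h3 : (Gam : Set W) ⊆ (fun g : W => g * x * g⁻¹) ⁻¹' (K : Set W) :=
    fun g hg => h1 g hg x hx
  exact closure_minimal h3 h2 hg

theorem K_iot (i : ZMod 3) {k : W} (hk : k ∈ K) : iot i k ∈ K := by
  have h1 : IsClosed ((K.comap (iot i) : Subgroup W) : Set W) := K_closed.preimage (cont_iot i)
  exact K_le_of h1 (fun g hg => Gd_le_K (g3_le (F4 i hg))) hk

theorem K_iotw : ∀ (v : List (ZMod 3)) {k : W}, k ∈ K → iotw v k ∈ K
  | [], _, hk => hk
  | i :: v, _, hk => K_iot i (K_iotw v hk)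

/-- lifting a subgroup to level one -/
def L (X : Subgroup W) : Subgroup W where
  carrier := {g | rt g = 0 ∧ ∀ i, sec g i ∈ X}
  one_mem' := ⟨rfl, fun i => by rw [sec_one]; exact one_mem _⟩
  mul_mem' := by
    rintro g h ⟨h1, h2⟩ ⟨h3, h4⟩
    exact ⟨by rw [rt_mul, h1, h3, add_zero], fun i => by rw [sec_mul]; exact mul_mem (h2 _) (h4 _)⟩
  inv_mem' := by
    rintro g ⟨h1, h2⟩
    exact ⟨by rw [rt_inv, h1, neg_zero], fun i => by rw [sec_inv]; exact inv_mem (h2 _)⟩

theorem mem_L {X : Subgroup W} {g : W} : g ∈ L X ↔ rt g = 0 ∧ ∀ i, sec g i ∈ X := Iff.rfl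

/-- level one stabiliser -/
def St1 : Subgroup W := rtH.ker

theorem mem_St1 {g : W} : g ∈ St1 ↔ rt g = 0 := by
  rw [St1, MonoidHom.mem_ker]; rfl

/-- section as a homomorphism on the level stabiliser -/
def secH (i : ZMod 3) : St1 →* W where
  toFun g := sec g.1 i
  map_one' := rfl
  map_mul' g h := by
    rw [Subgroup.coe_mul, sec_mul, mem_St1.1 h.2, add_zero]

theorem L_eq (X : Subgroup W) : L X = (⨅ i, X.comap (secH i)).map St1.subtype := by
  ext g
  rw [mem_L, mem_map]
  constructor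
  · rintro ⟨h1, h2⟩
    refine ⟨⟨g, mem_St1.2 h1⟩, ?_, rfl⟩
    rw [mem_iInf]
    intro i
    exact h2 i
  · rintro ⟨⟨g, hg⟩, h1, rfl⟩
    rw [mem_iInf] at h1
    exact ⟨mem_St1.1 hg, fun i => h1 i⟩

theorem L_relIndex {X Y : Subgroup W} (h : X.relIndex Y ≠ 0) : (L X).relIndex (L Y) ≠ 0 := by
  rw [L_eq, L_eq, relIndex_map_map_of_injective _ _ St1.subtype_injective]
  apply relIndex_iInf_ne_zero
  intro i
  rw [relIndex_comap]
  have h1 : (⨅ i, Y.comap (secH i)).map (secH i) ≤ Y := by
    rw [map_le_iff_le_comap]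
    exact iInf_le _ i
  exact fun h2 => h (relIndex_eq_zero_of_le_right h1 h2)

/-- iterated lifts -/
def LL : ℕ → Subgroup W
  | 0 => K
  | n + 1 => L (LL n)

theorem St1_relIndex (X : Subgroup W) : St1.relIndex X ≠ 0 := by
  have h1 : St1.index ≠ 0 := by
    rw [St1, index_ker]
    exact Nat.card_pos.ne'
  rw [← relIndex_top_right] at h1
  exact fun h2 => h1 (relIndex_eq_zero_of_le_right le_top h2)

theorem LL_relIndex : ∀ n, (LL n).relIndex GG ≠ 0
  | 0 => K_relIndex
  | n + 1 => by
    have h1 := L_relIndex (LL_relIndex n)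
    have h2 : GG ⊓ St1 ≤ L GG := by
      rintro g ⟨hg, hs⟩
      exact ⟨mem_St1.1 hs, fun i => GG_sec hg i⟩
    have h3 : (L (LL n)).relIndex (GG ⊓ St1) ≠ 0 := fun h => h1 (relIndex_eq_zero_of_le_right h2 h)
    have h4 : (GG ⊓ St1).relIndex GG ≠ 0 := by
      rw [inf_relIndex_left]
      exact St1_relIndex GG
    exact relIndex_ne_zero_trans h3 h4

end Pool.Agent.S00960.FGK

namespace Pool.Agent.S00960.FGC

open commutatorElement Subgroup
open Pool.Agent.S00960.FGW Pool.Agent.S00960.FGG Pool.Agent.S00960.FGK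

/-- closed subgroups that are virtually a product of vertex copies of `K` -/
structure InC (X : Subgroup W) : Prop where
  closed : IsClosed (X : Set W)
  le : X ≤ K
  ex : ∃ (n : ℕ) (M : Set (List (ZMod 3))), (∀ w ∈ M, w.length = n) ∧
    (∀ w ∈ M, ∀ k ∈ K, iotw w k ∈ X) ∧
    ∀ x ∈ X, ∀ v : List (ZMod 3), v.length = n → v ∉ M → ∀ t, act x (v ++ t) = v ++ t

theorem split3 (x : W) (h : rt x = 0) :
    x = iot 0 (sec x 0) * iot 1 (sec x 1) * iot 2 (sec x 2) := by
  apply ext_sec
  · simp [h]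
  · intro i
    rcases z3 i with rfl | rfl | rfl
    · simp [e10, e20, e01', e02, e12']
    · simp [e10, e20, e01', e02, e12']
    · simp [e10, e20, e01', e02, e12', e12'.symm]

theorem dec : ∀ (n : ℕ) (Y : Subgroup W) (x : W),
    (∀ v : List (ZMod 3), v.length = n → act x v = v) →
    (∀ w : List (ZMod 3), w.length = n → iotw w (secw x w) ∈ Y) → x ∈ Y
  | 0, Y, x, _, h2 => h2 [] rfl
  | n + 1, Y, x, h1, h2 => by
    have hrt : rt x = 0 := by
      have := h1 (0 :: List.replicate n 0) (by simp)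
      simp only [act_cons, zero_add, List.cons.injEq] at this
      exact this.1
    have key : ∀ i, iot i (sec x i) ∈ Y := by
      intro i
      apply dec n (Y.comap (iot i)) (sec x i)
      · intro v hv
        have := h1 (i :: v) (by simp [hv])
        simp only [act_cons, List.cons.injEq] at this
        exact this.2
      · intro w hw
        exact h2 (i :: w) (by simp [hw])
    rw [split3 x hrt]
    exact mul_mem (mul_mem (key 0) (key 1)) (key 2)

theorem mem_LL : ∀ (n : ℕ) (x : W), x ∈ LL n → ∀ v : List (ZMod 3), v.length = n →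
    act x v = v ∧ secw x v ∈ K
  | 0, x, hx, v, hv => by
    rw [List.length_eq_zero_iff] at hv
    rw [hv]; exact ⟨rfl, hx⟩
  | n + 1, x, hx, v, hv => by
    cases v with
    | nil => simp at hv
    | cons i v =>
      obtain ⟨h1, h2⟩ := hx
      obtain ⟨h3, h4⟩ := mem_LL n (sec x i) (h2 i) v (by simpa using hv)
      exact ⟨by rw [act_cons, h1, add_zero, h3], h4⟩

theorem InC.fg {X : Subgroup W} (hX : InC X) :
    ∃ S : Set W, S.Finite ∧ (Subgroup.closure S).topologicalClosure = X := by
  obtain ⟨n, M, hM1, hM2, hM3⟩ := hX.ex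
  obtain ⟨S0, hS0⟩ := gd_fg
  have hMf : M.Finite := (List.finite_length_eq (ZMod 3) n).subset (fun w hw => hM1 w hw)
  let S1 : Set W := ⋃ w ∈ M, (iotw w) '' (S0 : Set W)
  have hS1f : S1.Finite := hMf.biUnion (fun w _ => S0.finite_toSet.image _)
  have hfin : Finite (X ⧸ (LL n).subgroupOf X) := by
    rw [← Subgroup.index_ne_zero_iff_finite]
    change (LL n).relIndex X ≠ 0
    exact fun h => LL_relIndex n (relIndex_eq_zero_of_le_right (hX.le.trans K_le_GG) h)
  let R : Set W := Set.range (fun q : X ⧸ (LL n).subgroupOf X => ((Quotient.out q : X) : W))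
  have hRf : R.Finite := Set.finite_range _
  refine ⟨S1 ∪ R, hS1f.union hRf, ?_⟩
  have hS0K : (S0 : Set W) ⊆ Gd := by rw [← hS0]; exact Subgroup.subset_closure
  apply le_antisymm
  · apply Subgroup.topologicalClosure_minimal _ _ hX.closed
    rw [Subgroup.closure_le]
    rintro x (hx | hx)
    · obtain ⟨w, hw, s, hs, rfl⟩ := Set.mem_iUnion₂.1 hx
      exact hM2 w hw s (Gd_le_K (hS0K hs))
    · obtain ⟨q, rfl⟩ := hx
      exact (Quotient.out q : X).2
  · set Y := (Subgroup.closure (S1 ∪ R)).topologicalClosure with hY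
    have hYc : IsClosed (Y : Set W) := Subgroup.isClosed_topologicalClosure _
    have hSY : S1 ∪ R ⊆ Y :=
      fun x hx => Subgroup.le_topologicalClosure _ (Subgroup.subset_closure hx)
    have h1 : ∀ w ∈ M, ∀ k ∈ K, iotw w k ∈ Y := by
      intro w hw
      have h2 : Gd ≤ Y.comap (iotw w) := by
        rw [← hS0, Subgroup.closure_le]
        intro s hs
        exact hSY (Or.inl (Set.mem_iUnion₂.2 ⟨w, hw, s, hs, rfl⟩))
      exact fun k hk => K_le_of (hYc.preimage (cont_iotw w)) h2 hk
    have h2 : ∀ x ∈ X, x ∈ LL n → x ∈ Y := by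
      intro x hx hxL
      apply dec n Y x (fun v hv => (mem_LL n x hxL v hv).1)
      intro w hw
      by_cases hwM : w ∈ M
      · exact h1 w hwM _ (mem_LL n x hxL w hw).2
      · have h3 : secw x w = 1 := by
          apply eq_one_of_act
          intro t
          have h4 := hM3 x hx w hw hwM t
          rw [act_append] at h4
          exact (List.append_inj h4 (length_act _ _)).2
        rw [h3, map_one]; exact one_mem _
    intro x hx
    have h3 : ((Quotient.out (QuotientGroup.mk (⟨x, hx⟩ : X) : X ⧸ (LL n).subgroupOf X) : X) : W)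
        ∈ Y := hSY (Or.inr ⟨_, rfl⟩)
    have h4 : (Quotient.out (QuotientGroup.mk (⟨x, hx⟩ : X) : X ⧸ (LL n).subgroupOf X))⁻¹ *
        (⟨x, hx⟩ : X) ∈ (LL n).subgroupOf X := by
      rw [← QuotientGroup.eq]
      exact QuotientGroup.out_eq' _
    have h5 := h2 _ (((Quotient.out (QuotientGroup.mk (⟨x, hx⟩ : X) :
      X ⧸ (LL n).subgroupOf X))⁻¹ * (⟨x, hx⟩ : X) : X)).2 (mem_subgroupOf.1 h4)
    have h6 := mul_mem h3 h5
    rw [Subgroup.coe_mul, Subgroup.coe_inv, mul_inv_cancel_left] at h6
    exact h6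

theorem act_iotw : ∀ (w : List (ZMod 3)) (k : W) (s : List (ZMod 3)),
    act (iotw w k) (w ++ s) = w ++ act k s
  | [], _, _ => rfl
  | i :: w, k, s => by
    rw [List.cons_append, act_cons, iotw_cons, rt_iot, add_zero, sec_iot, if_pos rfl, act_iotw w,
      List.cons_append]

theorem InC.normal {X H : Subgroup W} (hX : InC X) (hHc : IsClosed (H : Set W)) (hHX : H ≤ X)
    (hn : ∀ x ∈ X, ∀ h ∈ H, x * h * x⁻¹ ∈ H) : InC H := by
  refine ⟨hHc, hHX.trans hX.le, ?_⟩
  obtain ⟨n, M, hM1, hM2, hM3⟩ := hX.ex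
  let live : List (ZMod 3) → Prop := fun u => ∃ h ∈ H, ∃ t, act h (u ++ t) ≠ u ++ t
  have hev : ∀ᶠ N in Filter.atTop, ∀ u ∈ {u : List (ZMod 3) | u.length = n + 1}, live u →
      ∃ t, (u ++ t).length = N ∧ ∃ h ∈ H, act h (u ++ t) ≠ u ++ t := by
    rw [Filter.eventually_all_finite (List.finite_length_eq (ZMod 3) (n + 1))]
    intro u _
    by_cases hl : live u
    · obtain ⟨h, hh, t, ht⟩ := hl
      filter_upwards [Filter.eventually_ge_atTop (u ++ t).length] with N hN _
      refine ⟨t ++ List.replicate (N - (u ++ t).length) 0, ?_, h, hh, ?_⟩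
      · simp only [List.length_append, List.length_replicate] at hN ⊢; omega
      · rw [← List.append_assoc]
        intro h4
        rw [act_append] at h4
        exact ht (List.append_inj h4 (length_act _ _)).1
    · filter_upwards with N h
      exact absurd h hl
  obtain ⟨N, hN, hNn⟩ := (hev.and (Filter.eventually_ge_atTop (n + 1))).exists
  have hall : ∀ (u t' : List (ZMod 3)), u.length = n + 1 → live u → (u ++ t').length = N →
      (∃ h ∈ H, act h (u ++ t') ≠ u ++ t') ∧ ∀ k ∈ K, iotw (u ++ t') k ∈ X := by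
    intro u t' hu hl hut
    obtain ⟨t, ht, h, hh, hne⟩ := hN u hu hl
    obtain ⟨w, i, rfl⟩ : ∃ w i, u = w ++ [i] := by
      rcases List.eq_nil_or_concat u with h | ⟨w, i, h⟩
      · rw [h] at hu; simp at hu
      · exact ⟨w, i, by rw [h, List.concat_eq_append]⟩
    have hw : w.length = n := by simpa using hu
    have hwM : w ∈ M := by
      by_contra hc
      have h1 := hM3 h (hHX hh) w hw hc (i :: t)
      apply hne
      rw [List.append_assoc, List.singleton_append]
      exact h1
    have e1 : ∀ t : List (ZMod 3), w ++ [i] ++ t = w ++ (i :: t) := by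
      intro t; rw [List.append_assoc, List.singleton_append]
    rw [e1] at hne
    rw [e1]
    constructor
    · have hlen : t.length = t'.length := by
        rw [← hut] at ht
        simpa using ht
      obtain ⟨k, hk, hkt⟩ := F10 i t t' hlen
      have hx : iotw w k ∈ X := hM2 w hwM k (Gd_le_K hk)
      have h1 : act (iotw w k) (w ++ (i :: t)) = w ++ (i :: t') := by rw [act_iotw, hkt]
      refine ⟨_, hn _ hx h hh, ?_⟩
      rw [← h1, act_mul, act_mul, act_inv_act]
      intro h2
      apply hne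
      have h3 := congrArg (act (iotw w k)⁻¹) h2
      rwa [act_inv_act, act_inv_act] at h3
    · intro k hk
      rw [iotw_append]
      exact hM2 w hwM _ (K_iotw _ hk)
  have hcom : ∀ (v : List (ZMod 3)), (∃ h ∈ H, act h v ≠ v) → (∀ k ∈ K, iotw v k ∈ X) →
      ∀ i j, ∀ k ∈ K, iotw (v ++ [i, j]) k ∈ H := by
    rintro v ⟨h, hh, hne⟩ hvX i j
    have h1 : ∀ y ∈ K, ∀ z ∈ K, iotw v ⁅y, z⁆ ∈ H := by
      intro y hy z hz
      set c := h * iotw v y⁻¹ * h⁻¹ with hc
      have hcc : ∀ q : W, c * iotw v q = iotw v q * c := by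
        intro q
        rw [hc, conj_iotw]
        exact comm_iotw _ _ _ _ (length_act _ _) hne
      have h2 : c * iotw v y ∈ H := by
        have h3 := hn _ (hvX _ (inv_mem hy)) _ (inv_mem hh)
        have h4 := mul_mem hh h3
        have h5 : c * iotw v y = h * (iotw v y⁻¹ * h⁻¹ * (iotw v y⁻¹)⁻¹) := by
          rw [hc, map_inv]; group
        rw [h5]; exact h4
      have h3 := hn _ (hvX _ hz) _ (inv_mem h2)
      have h4 := mul_mem h2 h3
      have h5 : iotw v ⁅y, z⁆ =
          c * iotw v y * (iotw v z * (c * iotw v y)⁻¹ * (iotw v z)⁻¹) := by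
        have h6 : c * iotw v y * (iotw v z * (c * iotw v y)⁻¹ * (iotw v z)⁻¹) =
            (c * iotw v (y * z * y⁻¹)) * c⁻¹ * (iotw v z)⁻¹ := by
          rw [map_mul, map_mul, map_inv]; group
        rw [h6, hcc, mul_inv_cancel_right, commutatorElement_def, map_mul, map_inv (iotw v) z]
      rw [h5]; exact h4
    have h2 : ⁅Gd, Gd⁆ ≤ H.comap (iotw v) := by
      rw [commutator_le]
      intro y hy z hz
      exact h1 y (Gd_le_K hy) z (Gd_le_K hz)
    have h3 : IsClosed ((H.comap (iotw (v ++ [i, j])) : Subgroup W) : Set W) :=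
      hHc.preimage (cont_iotw _)
    have h4 : Gd ≤ H.comap (iotw (v ++ [i, j])) := by
      intro y hy
      rw [mem_comap, iotw_append]
      exact h2 (F7 i j hy)
    exact fun k hk => K_le_of h3 h4 hk
  refine ⟨N + 2, {v | v.length = N + 2 ∧ live (v.take (n + 1))}, fun w hw => hw.1, ?_, ?_⟩
  · rintro v ⟨hv, hl⟩ k hk
    have hu : (v.take (n + 1)).length = n + 1 := by rw [List.length_take]; omega
    have e1 : v.take N = v.take (n + 1) ++ (v.take N).drop (n + 1) := by
      conv_lhs => rw [← List.take_append_drop (n + 1) (v.take N)]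
      rw [List.take_take, min_eq_left hNn]
    have hlen : (v.take N).length = N := by rw [List.length_take]; omega
    obtain ⟨h1, h2⟩ := hall (v.take (n + 1)) ((v.take N).drop (n + 1)) hu hl (by rw [← e1, hlen])
    rw [← e1] at h1 h2
    obtain ⟨i, j, hij⟩ : ∃ i j, v.drop N = [i, j] := by
      have : (v.drop N).length = 2 := by rw [List.length_drop]; omega
      exact List.length_eq_two.1 this
    have h3 := hcom _ h1 h2 i j k hk
    rwa [← hij, List.take_append_drop] at h3
  · intro x hx v hv hvM t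
    have h1 : ¬ live (v.take (n + 1)) := fun h => hvM ⟨hv, h⟩
    have h2 : ∀ t, act x (v.take (n + 1) ++ t) = v.take (n + 1) ++ t := by
      intro t
      by_contra h3
      exact h1 ⟨x, hx, t, h3⟩
    have h3 := h2 (v.drop (n + 1) ++ t)
    rwa [← List.append_assoc, List.take_append_drop] at h3

end Pool.Agent.S00960.FGC

namespace Pool.Agent.S00960.FGF

open commutatorElement Subgroup
open Pool.Agent.S00960.FGW Pool.Agent.S00960.FGG Pool.Agent.S00960.FGK
open Pool.Agent.S00960.FGC

theorem InC_K : InC K := by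
  refine ⟨K_closed, le_rfl, 0, {[]}, ?_, ?_, ?_⟩
  · intro w hw
    rw [Set.mem_singleton_iff] at hw
    rw [hw]; rfl
  · intro w hw k hk
    rw [Set.mem_singleton_iff] at hw
    rw [hw]; exact hk
  · intro x _ v hv hvM
    exact absurd (List.length_eq_zero_iff.1 hv) hvM

instance : CompactSpace K := isCompact_iff_compactSpace.1 K_closed.isCompact

theorem map_closed {H : Subgroup K} (hH : IsClosed (H : Set K)) :
    IsClosed ((H.map K.subtype : Subgroup W) : Set W) := by
  rw [coe_map]
  exact K_closed.isClosedEmbedding_subtypeVal.isClosedMap _ hH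

theorem InC_sub (n : ℕ) (s : Fin (n + 1) → Subgroup K) (hlast : s (Fin.last n) = ⊤)
    (hs : ∀ i : Fin n, IsClosed (s i.castSucc : Set K) ∧ s i.castSucc ≤ s i.succ ∧
      ((s i.castSucc).subgroupOf (s i.succ)).Normal) :
    ∀ i, InC ((s i).map K.subtype) := by
  intro i
  induction i using Fin.reverseInduction with
  | last =>
    rw [hlast]
    have : (⊤ : Subgroup K).map K.subtype = K := by
      rw [← MonoidHom.range_eq_map, range_subtype]
    rw [this]
    exact InC_K
  | cast i ih =>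
    obtain ⟨h1, h2, h3⟩ := hs i
    apply InC.normal ih (map_closed h1) (map_mono h2)
    rintro _ ⟨x, hx, rfl⟩ _ ⟨h, hh, rfl⟩
    refine ⟨x * h * x⁻¹, ?_, rfl⟩
    have := h3.conj_mem ⟨h, h2 hh⟩ (mem_subgroupOf.2 hh) ⟨x, hx⟩
    exact mem_subgroupOf.1 this

theorem fg_sub {H : Subgroup K} (h : InC (H.map K.subtype)) :
    ∃ S : Finset K, (Subgroup.closure (S : Set K)).topologicalClosure = H := by
  classical
  obtain ⟨S, hSf, hS⟩ := h.fg
  have hSK : S ⊆ H.map K.subtype := by
    intro x hx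
    rw [← hS]
    exact Subgroup.le_topologicalClosure _ (Subgroup.subset_closure hx)
  let T : Set K := Subtype.val ⁻¹' S
  have hTf : T.Finite := hSf.preimage Subtype.val_injective.injOn
  have hTS : Subtype.val '' T = S := by
    ext x
    constructor
    · rintro ⟨y, hy, rfl⟩
      exact hy
    · intro hx
      obtain ⟨y, _, rfl⟩ := hSK hx
      exact ⟨y, hx, rfl⟩
  refine ⟨hTf.toFinset, ?_⟩
  rw [hTf.coe_toFinset]
  ext x
  change x ∈ _root_.closure ((Subgroup.closure T : Subgroup K) : Set K) ↔ x ∈ H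
  rw [closure_subtype]
  have h1 : (Subtype.val '' ((Subgroup.closure T : Subgroup K) : Set K) : Set W)
      = (Subgroup.closure S : Subgroup W) := by
    have h2 : ((Subgroup.closure T).map K.subtype) = Subgroup.closure S := by
      rw [MonoidHom.map_closure]
      congr 1
    rw [← h2]; rfl
  rw [h1]
  have h2 : (x : W) ∈ H.map K.subtype ↔ x ∈ H := by
    constructor
    · rintro ⟨y, hy, hyx⟩
      have : y = x := Subtype.ext hyx
      rwa [← this]
    · intro hx; exact ⟨x, hx, rfl⟩
  rw [← h2, ← hS]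
  rfl

theorem pow_St : ∀ (n : ℕ) (g : W) (v : List (ZMod 3)), v.length < n → (g ^ (3 ^ n)) v = 0 := by
  have h3 : ∀ g : W, rt (g ^ 3) = 0 := by
    intro g
    rw [pow_succ, pow_two]
    simp only [rt_mul]
    generalize rt g = c
    revert c; decide
  have hsec : ∀ (g : W), rt g = 0 → ∀ (m : ℕ) (i : ZMod 3), rt (g ^ m) = 0 ∧
      sec (g ^ m) i = (sec g i) ^ m := by
    intro g hg m i
    induction m with
    | zero => exact ⟨rfl, rfl⟩
    | succ m ih =>
      constructor
      · rw [pow_succ, rt_mul, hg, ih.1, add_zero]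
      · rw [pow_succ, sec_mul, hg, add_zero, ih.2, pow_succ]
  intro n
  induction n with
  | zero => intro g v hv; simp at hv
  | succ n ih =>
    intro g v hv
    rw [pow_succ', pow_mul]
    cases v with
    | nil => exact (hsec _ (h3 g) _ 0).1
    | cons i v =>
      change sec ((g ^ 3) ^ 3 ^ n) i v = 0
      rw [(hsec _ (h3 g) _ i).2]
      exact ih _ v (by simpa using hv)

/-- neighbourhoods of one contain level stabilisers -/
theorem nhds_St' {U : Set (List (ZMod 3) → ZMod 3)} (hU : U ∈ nhds (fun _ => (0 : ZMod 3))) :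
    ∃ n : ℕ, ∀ g : List (ZMod 3) → ZMod 3,
      (∀ v : List (ZMod 3), v.length < n → g v = 0) → g ∈ U := by
  rw [nhds_pi, Filter.mem_pi] at hU
  obtain ⟨I, hI, t, ht, htU⟩ := hU
  obtain ⟨n, hn⟩ : ∃ n, ∀ v ∈ I, v.length < n := by
    obtain ⟨B, hB⟩ := (hI.image List.length).bddAbove
    exact ⟨B + 1, fun v hv => Nat.lt_succ_of_le (hB ⟨v, hv, rfl⟩)⟩
  refine ⟨n, fun g hg => htU ?_⟩
  intro v hv
  rw [hg v (hn v hv)]
  exact mem_of_mem_nhds (ht v)

theorem nhds_St {U : Set W} (hU : U ∈ nhds (1 : W)) :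
    ∃ n : ℕ, ∀ g : W, (∀ v : List (ZMod 3), v.length < n → g v = 0) → g ∈ U :=
  nhds_St' hU

theorem index_pow (N : Subgroup K) (hN : IsOpen (N : Set K)) (hNn : N.Normal) :
    ∃ k : ℕ, N.index = 3 ^ k := by
  have h3 : Fact (Nat.Prime 3) := ⟨Nat.prime_three⟩
  have hfin : Finite (K ⧸ N) := quotient_finite_of_isOpen N hN
  have hpg : IsPGroup 3 (K ⧸ N) := by
    intro q
    obtain ⟨g, rfl⟩ := QuotientGroup.mk_surjective q
    obtain ⟨U, hU, hUN⟩ := (mem_nhds_induced (Subtype.val : K → W) 1 (N : Set K)).1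
      (hN.mem_nhds N.one_mem)
    obtain ⟨n, hn⟩ := nhds_St hU
    refine ⟨n, ?_⟩
    rw [← QuotientGroup.mk_pow, QuotientGroup.eq_one_iff]
    apply hUN
    apply hn
    intro v hv
    exact pow_St n g v hv
  obtain ⟨k, hk⟩ := IsPGroup.iff_card.1 hpg
  exact ⟨k, hk⟩

/-! ### the long series -/

theorem L_le : L K ≤ K := by
  rintro g ⟨h1, h2⟩
  rw [split3 g h1]
  exact mul_mem (mul_mem (K_iot _ (h2 0)) (K_iot _ (h2 1))) (K_iot _ (h2 2))

theorem L_closed : IsClosed ((L K : Subgroup W) : Set W) := by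
  have h1 : ((L K : Subgroup W) : Set W) = {g : W | rt g = 0} ∩ ⋂ i, (fun g : W => sec g i) ⁻¹' K := by
    ext g
    simp only [Set.mem_inter_iff, Set.mem_iInter, Set.mem_preimage]
    rfl
  rw [h1]
  apply IsClosed.inter
  · exact isClosed_eq (cont_rt (fun g => g) continuous_id) continuous_const
  · exact isClosed_iInter fun i => K_closed.preimage (cont_sec i)

theorem L_conj {k g : W} (hk : k ∈ K) (hg : g ∈ L K) : k * g * k⁻¹ ∈ L K := by
  obtain ⟨h1, h2⟩ := hg
  refine ⟨by simp [h1], ?_⟩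
  intro i
  have hk0 := K_rt hk
  have h3 : sec (k * g * k⁻¹) i = sec k i * sec g i * (sec k i)⁻¹ := by
    simp [hk0, h1]
  rw [h3]
  exact K_conj (GG_sec (K_le_GG hk) i) (h2 i)

theorem iot_L : K.map (iot 0) ≤ L K := by
  rintro _ ⟨k, hk, rfl⟩
  refine ⟨rfl, fun i => ?_⟩
  rw [sec_iot]
  split_ifs
  · exact hk
  · exact one_mem _

theorem iot_L_conj {g k : W} (hg : g ∈ L K) (hk : k ∈ K) :
    g * iot 0 k * g⁻¹ ∈ K.map (iot 0) := by
  rw [conj_iot, hg.1, add_zero]
  exact ⟨_, mul_mem (mul_mem (hg.2 0) hk) (inv_mem (hg.2 0)), rfl⟩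

theorem K_inf : Infinite K := by
  by_contra hfin
  rw [not_infinite_iff_finite] at hfin
  let f : K → K := fun k => ⟨iot 0 k.1, K_iot 0 k.2⟩
  have hf : Function.Injective f := by
    intro x y hxy
    apply Subtype.ext
    exact iot_inj 0 (congrArg Subtype.val hxy)
  have hs := Finite.surjective_of_injective hf
  have hc : ⁅a, b⁆ ∈ K := Gd_le_K (commutator_mem_commutator a_mem b_mem)
  obtain ⟨⟨x, hx⟩, hxy⟩ := hs ⟨⁅a, b⁆, hc⟩
  have h1 : iot 0 x = ⁅a, b⁆ := congrArg Subtype.val hxy
  have h2 := congrArg (fun g => sec g 1) h1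
  have hc1 : sec ⁅a, b⁆ 1 = a := by
    simp [commutatorElement_def, e10, e20, e01, e21, e12, e22, e2n1, e1n1, mul_assoc]
  simp only [sec_iot, hc1, if_neg e10] at h2
  have h3 := congrArg rt h2
  rw [rt_one, rt_a] at h3
  exact e01' h3

theorem inf_step : (K.map (iot 0)).relIndex (L K) = 0 := by
  by_contra h
  have h1 : K.map (iot 1) ≤ L K := by
    rintro _ ⟨k, hk, rfl⟩
    refine ⟨rfl, fun i => ?_⟩
    rw [sec_iot]
    split_ifs
    · exact hk
    · exact one_mem _
  have h2 : (K.map (iot 0)).relIndex (K.map (iot 1)) ≠ 0 :=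
    fun h' => h (relIndex_eq_zero_of_le_right h1 h')
  apply h2
  have h3 : (K.map (iot 0)).relIndex (K.map (iot 1)) = (⊥ : Subgroup W).relIndex (K.map (iot 1)) := by
    rw [← inf_relIndex_right]
    congr 1
    rw [eq_bot_iff]
    rintro _ ⟨⟨x, _, rfl⟩, ⟨y, _, hy⟩⟩
    rw [mem_bot]
    have h4 := congrArg (fun g => sec g 0) hy
    simp only [sec_iot, if_neg e01', if_true] at h4
    rw [← h4, map_one]
  rw [h3, relIndex_bot_left, Nat.card_eq_zero]
  right
  have := K_inf
  let f : K → K.map (iot 1) := fun k => ⟨iot 1 k.1, ⟨k.1, k.2, rfl⟩⟩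
  apply Infinite.of_injective f
  intro x y hxy
  apply Subtype.ext
  exact iot_inj 1 (congrArg Subtype.val hxy)

/-- the descending chain -/
def ch : ℕ → Subgroup W
  | 0 => K
  | 1 => L K
  | n + 2 => (ch n).map (iot 0)

theorem ch_closed : ∀ n, IsClosed ((ch n : Subgroup W) : Set W)
  | 0 => K_closed
  | 1 => L_closed
  | n + 2 => by
    change IsClosed (((ch n).map (iot 0) : Subgroup W) : Set W)
    rw [coe_map]
    exact ((cont_iot 0).isClosedMap) _ (ch_closed n)

theorem ch_le : ∀ n, ch (n + 1) ≤ ch n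
  | 0 => L_le
  | 1 => iot_L
  | n + 2 => map_mono (ch_le n)

theorem ch_conj : ∀ n, ∀ g ∈ ch n, ∀ x ∈ ch (n + 1), g * x * g⁻¹ ∈ ch (n + 1)
  | 0 => fun g hg x hx => L_conj hg hx
  | 1 => by
    rintro g hg _ ⟨k, hk, rfl⟩
    exact iot_L_conj hg hk
  | n + 2 => by
    rintro _ ⟨g, hg, rfl⟩ _ ⟨x, hx, rfl⟩
    exact ⟨g * x * g⁻¹, ch_conj n g hg x hx, by simp⟩

theorem ch_inf : ∀ n, (ch (2 * n + 2)).relIndex (ch (2 * n + 1)) = 0
  | 0 => inf_step
  | n + 1 => by
    have h1 : ch (2 * (n + 1) + 2) = (ch (2 * n + 2)).map (iot 0) := rfl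
    have h2 : ch (2 * (n + 1) + 1) = (ch (2 * n + 1)).map (iot 0) := rfl
    rw [h1, h2, relIndex_map_map_of_injective _ _ (iot_inj 0)]
    exact ch_inf n

theorem ch_le_K (n : ℕ) : ch n ≤ K := by
  induction n with
  | zero => exact le_rfl
  | succ n ih => exact (ch_le n).trans ih

/-- the series in the subtype -/
def ser (m : ℕ) : Fin (2 * m + 1 + 1) → Subgroup K := fun i =>
  if (i : ℕ) = 0 then ⊥ else (ch (2 * m + 1 - i)).subgroupOf K

theorem ser_zero (m : ℕ) : ser m 0 = ⊥ := by
  simp [ser]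

theorem ser_last (m : ℕ) : ser m (Fin.last _) = ⊤ := by
  simp only [ser, Fin.val_last]
  rw [if_neg (by omega), Nat.sub_self]
  exact subgroupOf_self (H := K)

theorem ser_step (m : ℕ) (i : Fin (2 * m + 1)) :
    IsClosed (ser m i.castSucc : Set K) ∧ ser m i.castSucc ≤ ser m i.succ ∧
      ((ser m i.castSucc).subgroupOf (ser m i.succ)).Normal := by
  by_cases hi : (i : ℕ) = 0
  · have h1 : ser m i.castSucc = ⊥ := by
      simp only [ser, Fin.val_castSucc]
      rw [if_pos hi]
    rw [h1]
    refine ⟨?_, bot_le, ?_⟩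
    · rw [Subgroup.coe_bot]; exact isClosed_singleton
    · rw [bot_subgroupOf]; infer_instance
  · have h1 : ser m i.castSucc = (ch (2 * m + 1 - i)).subgroupOf K := by
      simp only [ser, Fin.val_castSucc]
      rw [if_neg hi]
    have h2 : ser m i.succ = (ch (2 * m + 1 - (i + 1))).subgroupOf K := by
      simp only [ser, Fin.val_succ]
      rw [if_neg (by omega)]
    obtain ⟨j, hj⟩ : ∃ j, 2 * m + 1 - (i : ℕ) = j + 1 := ⟨2 * m - i, by have := i.2; omega⟩
    have hj2 : 2 * m + 1 - ((i : ℕ) + 1) = j := by omega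
    rw [h1, h2, hj, hj2]
    refine ⟨(ch_closed _).preimage continuous_subtype_val, ?_, ?_⟩
    · exact fun x hx => ch_le j hx
    · constructor
      rintro ⟨x, hx⟩ hx' ⟨g, hg⟩
      exact ch_conj j g.1 hg x.1 hx'

theorem ser_card (m : ℕ) : m ≤ (Finset.univ.filter (fun i : Fin (2 * m + 1) =>
    (ser m i.castSucc).relIndex (ser m i.succ) = 0)).card := by
  let f : Fin m → Fin (2 * m + 1) := fun q => ⟨2 * q + 1, by have := q.2; omega⟩
  have hf : Function.Injective f := by
    intro x y hxy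
    have := congrArg Fin.val hxy
    simp only [f] at this
    apply Fin.ext
    omega
  have h1 : (Finset.univ.image f) ⊆ (Finset.univ.filter (fun i : Fin (2 * m + 1) =>
      (ser m i.castSucc).relIndex (ser m i.succ) = 0)) := by
    intro i hi
    obtain ⟨q, _, rfl⟩ := Finset.mem_image.1 hi
    rw [Finset.mem_filter]
    refine ⟨Finset.mem_univ _, ?_⟩
    have hq := q.2
    have h2 : ser m (f q).castSucc = (ch (2 * (m - 1 - q) + 2)).subgroupOf K := by
      simp only [ser, Fin.val_castSucc, f]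
      rw [if_neg (by omega)]
      congr 2
      omega
    have h3 : ser m (f q).succ = (ch (2 * (m - 1 - q) + 1)).subgroupOf K := by
      simp only [ser, Fin.val_succ, f]
      rw [if_neg (by omega)]
      congr 2
      omega
    rw [h2, h3, Subgroup.relIndex_subgroupOf (ch_le_K _)]
    exact ch_inf _
  have h2 := Finset.card_le_card h1
  rwa [Finset.card_image_of_injective _ hf, Finset.card_univ, Fintype.card_fin] at h2

end Pool.Agent.S00960.FGF

namespace Pool.Agent.S00960

/-- The negation of the preceding statement: For every compact totally disconnected group G whose open normal subgroups have p-power index (pro-p), if every closed subnormal subgroup is topologically finitely generated, then the number of infinite-index steps in finite closed subnormal series from ⊥ to ⊤ is uniformly bounded. -/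
theorem result :
    ¬ (∀ (G : Type) [Group G] [TopologicalSpace G] [IsTopologicalGroup G]
      [CompactSpace G] [TotallyDisconnectedSpace G] (p : ℕ), p.Prime →
      (∀ N : Subgroup G, IsOpen (N : Set G) → N.Normal → ∃ k : ℕ, N.index = p ^ k) →
      (∀ H : Subgroup G, IsClosed (H : Set G) →
        (∃ n : ℕ, ∃ s : Fin (n + 1) → Subgroup G, s 0 = H ∧ s (Fin.last n) = ⊤ ∧
          ∀ i : Fin n, IsClosed (s i.castSucc : Set G) ∧ s i.castSucc ≤ s i.succ ∧
            ((s i.castSucc).subgroupOf (s i.succ)).Normal) →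
        ∃ S : Finset G, (Subgroup.closure (S : Set G)).topologicalClosure = H) →
      ∃ N : ℕ, ∀ n : ℕ, ∀ s : Fin (n + 1) → Subgroup G, s 0 = ⊥ → s (Fin.last n) = ⊤ →
        (∀ i : Fin n, IsClosed (s i.castSucc : Set G) ∧ s i.castSucc ≤ s i.succ ∧
            ((s i.castSucc).subgroupOf (s i.succ)).Normal) →
        (Finset.univ.filter (fun i : Fin n => (s i.castSucc).relIndex (s i.succ) = 0)).card ≤ N) := by
  intro hall
  obtain ⟨N, hN⟩ := hall Pool.Agent.S00960.FGK.K 3 Nat.prime_three
    (fun N hN hNn => Pool.Agent.S00960.FGF.index_pow N hN hNn)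
    (by
      rintro H _ ⟨n, s, hs0, hsl, hs⟩
      have h1 := Pool.Agent.S00960.FGF.InC_sub n s hsl hs 0
      rw [hs0] at h1
      exact Pool.Agent.S00960.FGF.fg_sub h1)
  have h1 := hN _ (Pool.Agent.S00960.FGF.ser (N + 1)) (Pool.Agent.S00960.FGF.ser_zero _)
    (Pool.Agent.S00960.FGF.ser_last _) (Pool.Agent.S00960.FGF.ser_step _)
  have h2 := Pool.Agent.S00960.FGF.ser_card (N + 1)
  omega

end Pool.Agent.S00960
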