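import Pool.Statements.S00977
import Pool.Agent.Helper453.Embed
import Pool.Agent.Helper453.Basic

set_option autoImplicit false
open Pool Pool.MP_5e7eb0_al

namespace Pool.Agent.S00977

/-- Every locally normal residually finite group G has a normal subgroup H that embeds in a restricted direct product of finite groups, with G/H a divisible abelian group. -/
theorem result :
    ∀ (G : Type) [Group G],
      (∀ s : Finset G, ∃ N : Subgroup G, N.Normal ∧ (N : Set G).Finite ∧ (↑s : Set G) ⊆ (N : Set G)) →
      (∀ g : G, g ≠ 1 → ∃ N : Subgroup G, N.Normal ∧ N.FiniteIndex ∧ g ∉ N) →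
      ∃ H : Subgroup G, H.Normal ∧
        (∃ (ι : Type) (F : ι → Type) (instG : ∀ i, Group (F i)) (instF : ∀ i, Finite (F i))
            (φ : H →* ((i : ι) → F i)),
            Function.Injective φ ∧ ∀ h : H, {i : ι | φ h i ≠ 1}.Finite) ∧
        (∀ a b : G, a * b * a⁻¹ * b⁻¹ ∈ H) ∧
        (∀ (g : G) (n : ℕ), 0 < n → ∃ y : G, g⁻¹ * y ^ n ∈ H) := by
  classical
  intro G _ hLN hRF
  obtain ⟨ι, N, hN1, hN2, hN3, hN4⟩ := Helper453.Gorch.exists_family hLN hRF
  have htor : ∀ g : G, IsOfFinOrder g := by
    intro g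
    obtain ⟨R, _, hR2, hR3⟩ := hLN {g}
    have hg : g ∈ R := hR3 (by simp)
    have : Finite R := hR2
    have h1 : IsOfFinOrder (⟨g, hg⟩ : R) := isOfFinOrder_of_finite _
    exact (Subgroup.subtype R).isOfFinOrder h1
  have hFC : ∀ g : G, {h : G | IsConj g h}.Finite := by
    intro g
    obtain ⟨R, hR1, hR2, hR3⟩ := hLN {g}
    have hg : g ∈ R := hR3 (by simp)
    refine hR2.subset ?_
    intro h hh
    simp only [Set.mem_ofPred_eq] at hh
    rw [isConj_iff] at hh
    obtain ⟨c, rfl⟩ := hh
    exact hR1.conj_mem _ hg c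
  let A := Additive (Abelianization G)
  let π : G → A := fun g => Additive.ofMul (Abelianization.of g)
  have hπmul : ∀ a b, π (a * b) = π a + π b := by
    intro a b; simp only [π, map_mul, ofMul_mul]
  have hπone : π 1 = 0 := by simp [π]
  have hπinv : ∀ a, π a⁻¹ = - π a := by
    intro a; simp only [π, map_inv, ofMul_inv]
  have hπpow : ∀ a (n : ℕ), π (a ^ n) = n • π a := by
    intro a n; simp only [π, map_pow, ofMul_pow]
  have hπs : Function.Surjective π := QuotientGroup.mk_surjective
  have hπker : ∀ g, π g = 0 ↔ g ∈ commutator G := by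
    intro g
    simp only [π]
    rw [ofMul_eq_zero, ← MonoidHom.mem_ker, Abelianization.ker_of]
  have htorA : ∀ a : A, IsOfFinAddOrder a := by
    intro a
    obtain ⟨g, rfl⟩ := hπs a
    obtain ⟨n, hn, hn'⟩ := isOfFinOrder_iff_pow_eq_one.1 (htor g)
    rw [isOfFinAddOrder_iff_nsmul_eq_zero]
    exact ⟨n, hn, by rw [← hπpow, hn', hπone]⟩
  obtain ⟨X, hX, hmax⟩ := Helper453.Basic.exists_max (A := A)
  let B := AddSubgroup.closure X
  let H : Subgroup G :=
    { carrier := {g | π g ∈ B}
      mul_mem' := by
        intro a b ha hb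
        simp only [Set.mem_ofPred_eq] at ha hb ⊢
        rw [hπmul]; exact B.add_mem ha hb
      one_mem' := by
        simp only [Set.mem_ofPred_eq]
        rw [hπone]; exact B.zero_mem
      inv_mem' := by
        intro a ha
        simp only [Set.mem_ofPred_eq] at ha ⊢
        rw [hπinv]; exact B.neg_mem ha }
  have hHmem : ∀ g, g ∈ H ↔ π g ∈ B := fun g => Iff.rfl
  refine ⟨H, ⟨?_⟩, ?_, ?_, ?_⟩
  · intro n hn g
    rw [hHmem] at hn ⊢
    rw [hπmul, hπmul, hπinv]
    have : π g + π n + -π g = π n := by abel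
    rw [this]; exact hn
  · have hcyc : ∀ x : X, IsAddCyclic (AddSubgroup.zmultiples (x : A)) := by
      intro x
      infer_instance
    have hfinC : ∀ x : X, Finite (AddSubgroup.zmultiples (x : A)) := by
      intro x
      exact finite_zmultiples.2 (htorA x)
    let e : (Π₀ x : X, AddSubgroup.zmultiples (x : A)) ≃+ (Helper453.Basic.Phi X).range :=
      AddMonoidHom.ofInjective (Helper453.Basic.Phi_injective hX)
    have hrange : ∀ h : H, π h.1 ∈ (Helper453.Basic.Phi X).range := by
      intro h
      rw [Helper453.Basic.Phi_range]; exact h.2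
    let ψ : H →* Multiplicative (Π₀ x : X, AddSubgroup.zmultiples (x : A)) :=
      { toFun := fun h => Multiplicative.ofAdd (e.symm ⟨π h.1, hrange h⟩)
        map_one' := by
          have : (⟨π (1 : H).1, hrange 1⟩ : (Helper453.Basic.Phi X).range) = 0 :=
            Subtype.ext hπone
          rw [this, map_zero, ofAdd_zero]
        map_mul' := by
          intro a b
          have : (⟨π (a * b).1, hrange (a * b)⟩ : (Helper453.Basic.Phi X).range) =
              ⟨π a.1, hrange a⟩ + ⟨π b.1, hrange b⟩ := Subtype.ext (hπmul _ _)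
          rw [this, map_add, ofAdd_add] }
    have hψ : ∀ h, ψ h = Multiplicative.ofAdd (e.symm ⟨π h.1, hrange h⟩) := fun h => rfl
    refine Helper453.Embed.embed hcyc hfinC hFC N hN1 hN2 hN3 hN4 H.subtype
      H.subtype_injective ψ ?_ ?_
    · intro v
      obtain ⟨g, hg⟩ := hπs ((e (Multiplicative.toAdd v)).1)
      have hgB : π g ∈ B := by
        rw [hg]
        have h1 := (e (Multiplicative.toAdd v)).2
        have h2 : (Helper453.Basic.Phi X).range ≤ B := le_of_eq (Helper453.Basic.Phi_range X)
        exact h2 h1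
      refine ⟨⟨g, hgB⟩, ?_⟩
      rw [hψ]
      have : (⟨π (⟨g, hgB⟩ : H).1, hrange ⟨g, hgB⟩⟩ : (Helper453.Basic.Phi X).range) =
          e (Multiplicative.toAdd v) := Subtype.ext hg
      rw [this]; simp
    · intro h
      rw [hψ, ofAdd_eq_one, map_eq_zero_iff _ e.symm.injective]
      rw [← hπker]
      constructor
      · intro h1
        exact congrArg Subtype.val h1
      · intro h1
        exact Subtype.ext h1
  · intro a b
    rw [hHmem, hπmul, hπmul, hπmul, hπinv, hπinv]
    have : π a + π b + -π a + -π b = 0 := by abel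
    rw [this]; exact B.zero_mem
  · intro g n hn
    obtain ⟨y, hy⟩ := Helper453.Basic.div_all htorA hX hmax n hn (π g)
    obtain ⟨z, rfl⟩ := hπs y
    refine ⟨z, ?_⟩
    rw [hHmem, hπmul, hπinv, hπpow]
    have := B.neg_mem hy
    have h1 : -(π g - n • π z) = -π g + n • π z := by abel
    rwa [h1] at this

end Pool.Agent.S00977
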