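import Pool.Statements.S00980

set_option autoImplicit false
open Pool Pool.MP_5e9b9f_al
open scoped Classical

namespace Pool.Agent.S00980

open Equiv

/-- The free group on the four letters. -/
abbrev F := FreeGroup (Fin 4)

/-- One step of the self-similar recursion: from four permutations of `X` to four permutations of
`Fin 3 × Bool × X`. -/
def T {X : Type} (q : Fin 4 → Perm X) (j : Fin 4) : Perm (Fin 3 × Bool × X) :=
  if j = 0 then Equiv.prodCongr (Equiv.refl _) (Equiv.prodCongr Equiv.boolNot (Equiv.refl X))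
  else Equiv.prodShear (Equiv.refl (Fin 3)) (fun i => Equiv.prodShear (Equiv.refl Bool)
    (fun x => if x = true then q j else if i.val + j.val ≠ 3 then q 0 else 1))

theorem T_zero {X : Type} (q : Fin 4 → Perm X) (i : Fin 3) (x : Bool) (y : X) :
    T q 0 (i, x, y) = (i, !x, y) := by
  simp [T]

theorem T_true {X : Type} (q : Fin 4 → Perm X) (j : Fin 4) (hj : j ≠ 0) (i : Fin 3) (y : X) :
    T q j (i, true, y) = (i, true, q j y) := by
  simp [T, hj, Equiv.prodShear]

theorem T_false {X : Type} (q : Fin 4 → Perm X) (j : Fin 4) (hj : j ≠ 0) (i : Fin 3) (y : X) :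
    T q j (i, false, y) = (i, false, if i.val + j.val ≠ 3 then q 0 y else y) := by
  by_cases h : i.val + j.val = 3
  · simp [T, hj, Equiv.prodShear, h]
  · simp [T, hj, Equiv.prodShear, h]

/-- Evaluate a word of the free group in permutations. -/
abbrev ev {X : Type} (q : Fin 4 → Perm X) : F →* Perm X := FreeGroup.lift q

/-- The defining relations. -/
def Rel {G : Type} [Group G] (q : Fin 4 → G) : Prop :=
  (∀ j, q j * q j = 1) ∧ q 1 * q 2 * q 3 = 1

theorem rel_T {X : Type} (q : Fin 4 → Perm X) (h : Rel q) : Rel (T q) := by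
  obtain ⟨h1, h2⟩ := h
  have h1' : ∀ j y, q j (q j y) = y := fun j y => by
    have := congrArg (fun e : Perm X => e y) (h1 j); simpa using this
  have h2' : ∀ y, q 1 (q 2 (q 3 y)) = y := fun y => by
    have := congrArg (fun e : Perm X => e y) h2; simpa using this
  constructor
  · intro j
    ext1 ⟨i, x, y⟩
    simp only [Perm.coe_mul, Function.comp_apply, Perm.coe_one, id_eq]
    by_cases hj : j = 0
    · subst hj
      rw [T_zero, T_zero]; simp
    · cases x
      · rw [T_false _ _ hj, T_false _ _ hj]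
        by_cases h : i.val + j.val ≠ 3
        · simp [h, h1']
        · simp [h]
      · rw [T_true _ _ hj, T_true _ _ hj, h1']
  · ext1 ⟨i, x, y⟩
    simp only [Perm.coe_mul, Function.comp_apply, Perm.coe_one, id_eq]
    cases x
    · rw [T_false _ 3 (by decide), T_false _ 2 (by decide), T_false _ 1 (by decide)]
      fin_cases i <;> simp [h1']
    · rw [T_true _ 3 (by decide), T_true _ 2 (by decide), T_true _ 1 (by decide), h2']

/-- The relators. -/
def relators : Set F :=
  {w | (∃ j : Fin 4, w = FreeGroup.of j * FreeGroup.of j) ∨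
    w = FreeGroup.of 1 * FreeGroup.of 2 * FreeGroup.of 3}

/-- The group `Z_2 * V_4` as a quotient of the free group. -/
abbrev Gam := F ⧸ Subgroup.normalClosure relators

/-- projection -/
def gam : F →* Gam := QuotientGroup.mk' _

theorem rel_gam : Rel (fun j => gam (FreeGroup.of j)) := by
  constructor
  · intro j
    rw [← map_mul]
    exact (QuotientGroup.eq_one_iff _).2 (Subgroup.subset_normalClosure (Or.inl ⟨j, rfl⟩))
  · rw [← map_mul, ← map_mul]
    exact (QuotientGroup.eq_one_iff _).2 (Subgroup.subset_normalClosure (Or.inr rfl))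

theorem gam_ker {G : Type} [Group G] (q : Fin 4 → G) (h : Rel q) (w : F) (hw : gam w = 1) :
    FreeGroup.lift q w = 1 := by
  have h1 : w ∈ Subgroup.normalClosure relators := (QuotientGroup.eq_one_iff _).1 hw
  have h2 : Subgroup.normalClosure relators ≤ (FreeGroup.lift q).ker := by
    apply Subgroup.normalClosure_le_normal
    intro r hr
    rcases hr with ⟨j, rfl⟩ | rfl
    · simp [MonoidHom.mem_ker, h.1 j]
    · simp [MonoidHom.mem_ker, h.2]
  exact h2 h1

/-- Left multiplication permutations. -/
def lmul (G : Type) [Group G] : G →* Perm G := MulAction.toPermHom G G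

/-- The spaces acted upon. -/
def X : ℕ → Type
  | 0 => Gam
  | k + 1 => Fin 3 × Bool × X k

/-- The actions of level `k`. -/
def q : (k : ℕ) → Fin 4 → Perm (X k)
  | 0 => fun j => lmul Gam (gam (FreeGroup.of j))
  | k + 1 => T (q k)

theorem rel_q (k : ℕ) : Rel (q k) := by
  induction k with
  | zero =>
    obtain ⟨h1, h2⟩ := rel_gam
    constructor
    · intro j
      change lmul Gam _ * lmul Gam _ = 1
      rw [← map_mul, h1 j, map_one]
    · change lmul Gam _ * lmul Gam _ * lmul Gam _ = 1
      rw [← map_mul, ← map_mul, h2, map_one]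
  | succ k ih => exact rel_T _ ih

/-- The kernels `N_k`. -/
def N (k : ℕ) : Subgroup F := (ev (q k)).ker

instance (k : ℕ) : (N k).Normal := by unfold N; infer_instance

theorem ev_lmul (w : F) :
    ev (fun j => lmul Gam (gam (FreeGroup.of j))) w = lmul Gam (gam w) := by
  have h : ev (fun j => lmul Gam (gam (FreeGroup.of j))) = (lmul Gam).comp gam := by
    apply FreeGroup.ext_hom
    intro j
    simp only [ev, FreeGroup.lift_apply_of, MonoidHom.comp_apply]
  rw [h, MonoidHom.comp_apply]

theorem mem_N_zero (w : F) : w ∈ N 0 ↔ gam w = 1 := by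
  have h : w ∈ N 0 ↔ ev (fun j => lmul Gam (gam (FreeGroup.of j))) w = 1 := Iff.rfl
  rw [h, ev_lmul]
  constructor
  · intro hh
    have := congrArg (fun e : Perm Gam => e 1) hh
    simpa [lmul] using this
  · intro hh
    rw [hh, map_one]

theorem N_zero_le (k : ℕ) : N 0 ≤ N k := by
  intro w hw
  rw [mem_N_zero] at hw
  exact gam_ker (q k) (rel_q k) w hw

/-- sections -/
def sec (w : F) (i : Fin 3) (x : Bool) : Fin 3 × Bool × F :=
  ev (T (fun j => lmul F (FreeGroup.of j))) w (i, x, 1)

theorem intertwine {X Y : Type} (p : Fin 4 → Perm X) (r : Fin 4 → Perm Y) (e : X → Y)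
    (h : ∀ j x, e (p j x) = r j (e x)) (w : F) (x : X) : e (ev p w x) = ev r w (e x) := by
  have hinv : ∀ j x, e ((p j)⁻¹ x) = (r j)⁻¹ (e x) := by
    intro j x
    rw [Perm.eq_inv_iff_eq, ← h]
    simp
  induction w using FreeGroup.induction_on generalizing x with
  | C1 => simp
  | of j => simpa using h j x
  | inv_of j _ => simpa using hinv j x
  | mul a b ha hb =>
    rw [map_mul, map_mul, Perm.mul_apply, Perm.mul_apply, ha, hb]

theorem ev_T {X : Type} (p : Fin 4 → Perm X) (w : F) (i : Fin 3) (x : Bool) (y : X) :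
    ev (T p) w (i, x, y) = ((sec w i x).1, (sec w i x).2.1, ev p (sec w i x).2.2 y) := by
  have := intertwine (T (fun j => lmul F (FreeGroup.of j))) (T p)
    (fun z => (z.1, z.2.1, ev p z.2.2 y)) ?_ w (i, x, 1)
  · simp only [map_one, Perm.coe_one, id_eq] at this
    rw [← this]
    rfl
  · rintro j ⟨i, x, f⟩
    by_cases hj : j = 0
    · subst hj
      simp [T_zero]
    · cases x
      · rw [T_false _ _ hj, T_false _ _ hj]
        by_cases h : i.val + j.val ≠ 3
        · simp [h, lmul]
        · simp [h]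
      · rw [T_true _ _ hj, T_true _ _ hj]
        simp [lmul]

theorem ker_T {X : Type} [Nonempty X] (p : Fin 4 → Perm X) (w : F) :
    ev (T p) w = 1 ↔ ∀ i x, (sec w i x).1 = i ∧ (sec w i x).2.1 = x ∧ ev p (sec w i x).2.2 = 1 := by
  constructor
  · intro h i x
    have h1 : ∀ y, ((sec w i x).1, (sec w i x).2.1, ev p (sec w i x).2.2 y) = (i, x, y) := by
      intro y
      rw [← ev_T, h]; rfl
    obtain ⟨y0⟩ := ‹Nonempty X›
    refine ⟨congrArg (fun t => t.1) (h1 y0), congrArg (fun t => t.2.1) (h1 y0), ?_⟩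
    ext1 y
    exact congrArg (fun t => t.2.2) (h1 y)
  · intro h
    ext1 ⟨i, x, y⟩
    obtain ⟨h1, h2, h3⟩ := h i x
    rw [ev_T, h1, h2, h3]
    rfl

instance nonemptyX (k : ℕ) : Nonempty (X k) := by
  induction k with
  | zero => exact ⟨(1 : Gam)⟩
  | succ k ih => exact ⟨((0 : Fin 3), true, Classical.choice ih)⟩

theorem mem_N_succ (k : ℕ) (w : F) :
    w ∈ N (k + 1) ↔ ∀ i x, (sec w i x).1 = i ∧ (sec w i x).2.1 = x ∧ (sec w i x).2.2 ∈ N k := by
  exact ker_T (q k) w

theorem N_le_succ (k : ℕ) : N k ≤ N (k + 1) := by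
  induction k with
  | zero => exact N_zero_le 1
  | succ k ih =>
    intro w hw
    rw [mem_N_succ] at hw ⊢
    exact fun i x => ⟨(hw i x).1, (hw i x).2.1, ih (hw i x).2.2⟩

theorem N_mono : Monotone N := monotone_nat_of_le_succ N_le_succ

/-- The action on infinite sequences. -/
abbrev Y : Type := (ℕ → Fin 3) × (ℕ → Bool)

/-- the action of one letter on binary sequences, with parameter sequence -/
def act (j : Fin 4) (ω : ℕ → Fin 3) (v : ℕ → Bool) : ℕ → Bool :=
  if j = 0 then Function.update v 0 (!v 0)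
  else fun m =>
    if 0 < m ∧ v (m - 1) = false ∧ (∀ j < m - 1, v j = true) ∧ (ω (m - 1)).val + j.val ≠ 3
    then !v m else v m

/-- splitting off the first letters -/
def E : Y ≃ Fin 3 × Bool × Y where
  toFun z := (z.1 0, z.2 0, (fun m => z.1 (m + 1), fun m => z.2 (m + 1)))
  invFun t := (fun m => Nat.casesOn m t.1 (fun k => t.2.2.1 k),
    fun m => Nat.casesOn m t.2.1 (fun k => t.2.2.2 k))
  left_inv := by
    rintro ⟨ω, v⟩
    apply Prod.ext
    · funext m; cases m <;> rfl
    · funext m; cases m <;> rfl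
  right_inv := by
    rintro ⟨i, x, ω, v⟩
    rfl

/-- position just after the first `false` -/
def C (v : ℕ → Bool) (m : ℕ) : Prop := 0 < m ∧ v (m - 1) = false ∧ ∀ j < m - 1, v j = true

theorem act_of_ne (j : Fin 4) (hj : j ≠ 0) (ω : ℕ → Fin 3) (v : ℕ → Bool) (m : ℕ) :
    act j ω v m = if C v m ∧ (ω (m - 1)).val + j.val ≠ 3 then !v m else v m := by
  simp only [act, if_neg hj, C, and_assoc]

theorem C_act (j : Fin 4) (hj : j ≠ 0) (ω : ℕ → Fin 3) (v : ℕ → Bool) (m : ℕ) :
    C (act j ω v) m ↔ C v m := by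
  have h1 : ∀ m, C v m → C (act j ω v) m := by
    intro m hm
    have h : ∀ l, l ≤ m - 1 → act j ω v l = v l := by
      intro l hl
      rw [act_of_ne j hj, if_neg]
      rintro ⟨⟨h0, h1, -⟩, -⟩
      have := hm.2.2 (l - 1) (by omega)
      rw [h1] at this
      exact absurd this (by decide)
    refine ⟨hm.1, ?_, ?_⟩
    · rw [h _ le_rfl]; exact hm.2.1
    · intro l hl
      rw [h _ hl.le]; exact hm.2.2 l hl
  refine ⟨fun hm => ?_, h1 m⟩
  have h : ∀ l, l ≤ m - 1 → act j ω v l = v l := by
    intro l hl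
    rw [act_of_ne j hj, if_neg]
    rintro ⟨hc, -⟩
    have h2 := h1 l hc
    have := hm.2.2 (l - 1) (by have := h2.1; omega)
    rw [h2.2.1] at this
    exact absurd this (by decide)
  refine ⟨hm.1, ?_, ?_⟩
  · rw [← h _ le_rfl]; exact hm.2.1
  · intro l hl
    rw [← h _ hl.le]; exact hm.2.2 l hl

theorem act_act (j : Fin 4) (ω : ℕ → Fin 3) (v : ℕ → Bool) : act j ω (act j ω v) = v := by
  by_cases hj : j = 0
  · subst hj
    funext m
    by_cases hm : m = 0
    · subst hm; simp [act]
    · simp [act, Function.update_of_ne hm]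
  · funext m
    rw [act_of_ne j hj, C_act j hj, act_of_ne j hj]
    by_cases h : C v m ∧ (ω (m - 1)).val + j.val ≠ 3
    · rw [if_pos h, if_pos h, Bool.not_not]
    · rw [if_neg h, if_neg h]

/-- the action of a letter on `Y` -/
def rY (j : Fin 4) : Perm Y where
  toFun z := (z.1, act j z.1 z.2)
  invFun z := (z.1, act j z.1 z.2)
  left_inv z := by
    apply Prod.ext
    · rfl
    · exact act_act j z.1 z.2
  right_inv z := by
    apply Prod.ext
    · rfl
    · exact act_act j z.1 z.2

theorem rel_rY : Rel rY := by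
  constructor
  · intro j
    ext1 z
    exact (rY j).left_inv z
  · ext1 ⟨ω, v⟩
    change (ω, act 1 ω (act 2 ω (act 3 ω v))) = (ω, v)
    congr 1
    funext m
    rw [act_of_ne 1 (by decide), C_act 2 (by decide), C_act 3 (by decide),
      act_of_ne 2 (by decide), C_act 3 (by decide), act_of_ne 3 (by decide)]
    by_cases h : C v m
    · generalize ω (m - 1) = i
      fin_cases i <;> simp [h]
    · simp [h]

theorem E_rY (j : Fin 4) (z : Y) : E (rY j z) = T rY j (E z) := by
  obtain ⟨ω, v⟩ := z
  change (ω 0, act j ω v 0, ((fun m => ω (m + 1), fun m => act j ω v (m + 1)) : Y)) =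
    T rY j (ω 0, v 0, (fun m => ω (m + 1), fun m => v (m + 1)))
  by_cases hj : j = 0
  · subst hj
    rw [T_zero]
    simp [act]
  · have h0 : act j ω v 0 = v 0 := by
      rw [act_of_ne j hj, if_neg]
      rintro ⟨⟨h, -⟩, -⟩
      exact absurd h (lt_irrefl 0)
    cases hv : v 0 with
    | true =>
      rw [T_true _ _ hj, h0, hv]
      congr 2
      change _ = ((fun m => ω (m + 1), act j (fun m => ω (m + 1)) (fun m => v (m + 1))) : Y)
      congr 1
      funext m
      rw [act_of_ne j hj, act_of_ne j hj]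
      cases m with
      | zero =>
        have h1 : ¬ C v 1 := fun h => by
          have := h.2.1
          simp [hv] at this
        have h2 : ¬ C (fun m => v (m + 1)) 0 := fun h => absurd h.1 (lt_irrefl 0)
        simp [h1, h2]
      | succ m =>
        have h1 : C v (m + 1 + 1) ↔ C (fun m => v (m + 1)) (m + 1) := by
          simp only [C, Nat.succ_pos, true_and, Nat.add_sub_cancel]
          constructor
          · rintro ⟨h1, h2⟩
            exact ⟨h1, fun l hl => h2 (l + 1) (by omega)⟩
          · rintro ⟨h1, h2⟩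
            refine ⟨h1, fun l hl => ?_⟩
            cases l with
            | zero => exact hv
            | succ l => exact h2 l (by omega)
        simp only [h1, Nat.add_sub_cancel]
    | false =>
      rw [T_false _ _ hj, h0, hv]
      congr 2
      have key : ∀ m, act j ω v (m + 1) =
          if m = 0 ∧ (ω 0).val + j.val ≠ 3 then !v 1 else v (m + 1) := by
        intro m
        rw [act_of_ne j hj]
        cases m with
        | zero =>
          have h1 : C v 1 := ⟨Nat.one_pos, hv, fun l hl => absurd hl (by simp)⟩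
          simp [h1]
        | succ m =>
          have h1 : ¬ C v (m + 1 + 1) := fun h => by
            have := h.2.2 0 (by omega)
            rw [hv] at this
            exact absurd this (by decide)
          simp [h1]
      by_cases h : (ω 0).val + j.val ≠ 3
      · rw [if_pos h]
        change _ = ((fun m => ω (m + 1), act 0 (fun m => ω (m + 1)) (fun m => v (m + 1))) : Y)
        congr 1
        funext m
        rw [key]
        cases m with
        | zero => simp [h, act]
        | succ m => simp [act]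
      · rw [if_neg h]
        congr 1
        funext m
        rw [key]
        simp [h]

/-- The kernel of the universal action. -/
def Ninf : Subgroup F := (ev rY).ker

instance : Nonempty Y := ⟨(fun _ => 0, fun _ => false)⟩

theorem mem_Ninf (w : F) :
    w ∈ Ninf ↔ ∀ i x, (sec w i x).1 = i ∧ (sec w i x).2.1 = x ∧ (sec w i x).2.2 ∈ Ninf := by
  change w ∈ Ninf ↔ ∀ i x, (sec w i x).1 = i ∧ (sec w i x).2.1 = x ∧ ev rY (sec w i x).2.2 = 1
  rw [← ker_T rY w]
  constructor
  · intro h
    ext1 t
    have := intertwine rY (T rY) E E_rY w (E.symm t)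
    rw [Equiv.apply_symm_apply] at this
    rw [← this]
    have h' : ev rY w = 1 := h
    rw [h']
    simp
  · intro h
    change ev rY w = 1
    ext1 z
    have := intertwine rY (T rY) E E_rY w z
    rw [h] at this
    exact E.injective this

theorem N_le_Ninf (k : ℕ) : N k ≤ Ninf := by
  induction k with
  | zero =>
    intro w hw
    rw [mem_N_zero] at hw
    exact gam_ker rY rel_rY w hw
  | succ k ih =>
    intro w hw
    rw [mem_N_succ] at hw
    rw [mem_Ninf]
    exact fun i x => ⟨(hw i x).1, (hw i x).2.1, ih (hw i x).2.2⟩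

/-- positive words -/
def P (l : List (Fin 4)) : F := (l.map FreeGroup.of).prod

theorem P_cons (j : Fin 4) (l : List (Fin 4)) : P (j :: l) = FreeGroup.of j * P l := by
  simp [P]

theorem sec_P (l : List (Fin 4)) (i : Fin 3) (x : Bool) :
    ∃ (x' : Bool) (l' : List (Fin 4)), sec (P l) i x = (i, x', P l') ∧
      l'.length ≤ (l.filter (fun j => decide (j ≠ 0))).length := by
  induction l with
  | nil => exact ⟨x, [], by simp [sec, P], by simp⟩
  | cons j l ih =>
    obtain ⟨x', l', h1, h2⟩ := ih
    have h3 : sec (P (j :: l)) i x = T (fun j => lmul F (FreeGroup.of j)) j (i, x', P l') := by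
      rw [← h1, P_cons]
      simp [sec]
    by_cases hj : j = 0
    · subst hj
      rw [T_zero] at h3
      exact ⟨!x', l', h3, by simpa using h2⟩
    · have h4 : ((j :: l).filter (fun j => decide (j ≠ 0))).length =
          (l.filter (fun j => decide (j ≠ 0))).length + 1 := by
        simp [hj]
      rw [h4]
      cases x'
      · rw [T_false _ _ hj] at h3
        by_cases h : i.val + j.val ≠ 3
        · rw [if_pos h] at h3
          refine ⟨false, 0 :: l', ?_, by simpa using h2⟩
          rw [h3, P_cons]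
          rfl
        · rw [if_neg h] at h3
          exact ⟨false, l', h3, by omega⟩
      · rw [T_true _ _ hj] at h3
        refine ⟨true, j :: l', ?_, by simpa using h2⟩
        rw [h3, P_cons]
        rfl

theorem of_not_mem (j : Fin 4) (hj : j ≠ 0) : FreeGroup.of j ∉ Ninf := by
  intro h
  have h1 : ev rY (FreeGroup.of j) = 1 := h
  rw [ev, FreeGroup.lift_apply_of] at h1
  have key : ∀ i : Fin 3, i.val + j.val ≠ 3 → False := by
    intro i hi
    have h2 := congrArg (fun e : Perm Y => (e (fun _ => i, fun _ => false)).2 1) h1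
    change act j (fun _ => i) (fun _ => false) 1 = false at h2
    rw [act_of_ne j hj, if_pos ⟨⟨Nat.one_pos, rfl, fun l hl => absurd hl (by simp)⟩, hi⟩] at h2
    exact absurd h2 (by decide)
  by_cases h0 : (0 : Fin 3).val + j.val ≠ 3
  · exact key 0 h0
  · exact key 1 (by simp at h0 ⊢; omega)

theorem klein {G : Type} [Group G] (a b c : G) (ha : a * a = 1) (hb : b * b = 1)
    (hc : c * c = 1) (h : a * b * c = 1) :
    a * b = c ∧ b * a = c ∧ b * c = a ∧ c * b = a ∧ a * c = b ∧ c * a = b := by
  have ia : a⁻¹ = a := inv_eq_of_mul_eq_one_left ha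
  have ib : b⁻¹ = b := inv_eq_of_mul_eq_one_left hb
  have ic : c⁻¹ = c := inv_eq_of_mul_eq_one_left hc
  have h1 : a * b = c := by rw [← ic]; exact eq_inv_of_mul_eq_one_left h
  have h2 : b * a = c := by
    have := congrArg (fun t => t⁻¹) h1
    simpa [ia, ib, ic] using this
  have h3 : b * c = a := by rw [← h2, ← mul_assoc, hb, one_mul]
  have h4 : c * b = a := by
    have := congrArg (fun t => t⁻¹) h3
    simpa [ia, ib, ic] using this
  have h5 : a * c = b := by rw [← h1, ← mul_assoc, ha, one_mul]
  have h6 : c * a = b := by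
    have := congrArg (fun t => t⁻¹) h5
    simpa [ia, ib, ic] using this
  exact ⟨h1, h2, h3, h4, h5, h6⟩

theorem V_mem (l : List (Fin 4)) (hl : ∀ j ∈ l, j ≠ 0) :
    gam (P l) = 1 ∨ ∃ j : Fin 4, j ≠ 0 ∧ gam (P l) = gam (FreeGroup.of j) := by
  obtain ⟨h1, h2⟩ := rel_gam
  simp only at h1 h2
  induction l with
  | nil => left; simp [P]
  | cons j l ih =>
    have hj : j ≠ 0 := hl j (by simp)
    have ih' := ih (fun k hk => hl k (by simp [hk]))
    rw [P_cons, map_mul]
    rcases ih' with h | ⟨k, hk, h⟩
    · right; exact ⟨j, hj, by rw [h, mul_one]⟩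
    · rw [h]
      obtain ⟨k1, k2, k3, k4, k5, k6⟩ := klein _ _ _ (h1 1) (h1 2) (h1 3) h2
      have e1 := h1 1
      have e2 := h1 2
      have e3 := h1 3
      clear h h1 ih hl
      have cases : ∀ j : Fin 4, j ≠ 0 → j = 1 ∨ j = 2 ∨ j = 3 := by decide
      rcases cases j hj with rfl | rfl | rfl <;> rcases cases k hk with rfl | rfl | rfl
      · left; exact e1
      · right; exact ⟨3, by decide, k1⟩
      · right; exact ⟨2, by decide, k5⟩
      · right; exact ⟨3, by decide, k2⟩
      · left; exact e2
      · right; exact ⟨1, by decide, k3⟩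
      · right; exact ⟨2, by decide, k6⟩
      · right; exact ⟨1, by decide, k4⟩
      · left; exact e3

theorem of_gam {k : ℕ} {w w' : F} (h : gam w = gam w') (hw : w ∈ N k) : w' ∈ N k := by
  have h1 : w⁻¹ * w' ∈ N k := N_zero_le k ((mem_N_zero _).2 (by rw [map_mul, map_inv, h]; simp))
  have := (N k).mul_mem hw h1
  simpa using this

theorem of_gam_inf {w w' : F} (h : gam w = gam w') (hw : w ∈ Ninf) : w' ∈ Ninf := by
  have h1 : w⁻¹ * w' ∈ Ninf := N_le_Ninf 0 ((mem_N_zero _).2 (by rw [map_mul, map_inv, h]; simp))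
  have := Ninf.mul_mem hw h1
  simpa using this

theorem contraction (n : ℕ) : ∀ l : List (Fin 4), l.length ≤ n → P l ∈ Ninf → ∃ k, P l ∈ N k := by
  induction n with
  | zero =>
    intro l hl _
    have : l = [] := List.length_eq_zero_iff.1 (by omega)
    subst this
    exact ⟨0, by simp [P]⟩
  | succ n ih =>
    intro l hl hP
    by_cases h0 : ∀ j ∈ l, j ≠ 0
    · refine ⟨0, (mem_N_zero _).2 ?_⟩
      rcases V_mem l h0 with h | ⟨j, hj, h⟩
      · exact h
      · exact absurd (of_gam_inf h hP) (of_not_mem j hj)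
    · push Not at h0
      obtain ⟨j, hj, hj0⟩ := h0
      have hlen : (l.filter (fun j => decide (j ≠ 0))).length < l.length := by
        apply List.length_filter_lt_length_iff_exists.2
        exact ⟨j, hj, by simp [hj0]⟩
      have hm := (mem_Ninf _).1 hP
      have hk : ∀ (i : Fin 3) (x : Bool), ∃ k, (sec (P l) i x).2.2 ∈ N k := by
        intro i x
        obtain ⟨x', l', h1, h2⟩ := sec_P l i x
        have h3 := (hm i x).2.2
        rw [h1] at h3 ⊢
        exact ih l' (by omega) h3
      choose f hf using hk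
      obtain ⟨K, hK⟩ : ∃ K, ∀ i x, f i x ≤ K := by
        refine ⟨Finset.univ.sup (fun p : Fin 3 × Bool => f p.1 p.2), fun i x => ?_⟩
        exact Finset.le_sup (f := fun p : Fin 3 × Bool => f p.1 p.2) (Finset.mem_univ (i, x))
      refine ⟨K + 1, (mem_N_succ _ _).2 (fun i x => ⟨(hm i x).1, (hm i x).2.1, ?_⟩)⟩
      exact N_mono (hK i x) (hf i x)

theorem gam_pos (w : F) : ∃ l : List (Fin 4), gam w = gam (P l) := by
  induction w using FreeGroup.induction_on with
  | C1 => exact ⟨[], by simp [P]⟩
  | of j => exact ⟨[j], by simp [P]⟩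
  | inv_of j _ =>
    refine ⟨[j], ?_⟩
    have := rel_gam.1 j
    rw [map_inv, inv_eq_of_mul_eq_one_left this]
    simp [P]
  | mul a b ha hb =>
    obtain ⟨l1, h1⟩ := ha
    obtain ⟨l2, h2⟩ := hb
    refine ⟨l1 ++ l2, ?_⟩
    rw [map_mul, h1, h2, ← map_mul]
    simp [P]

theorem exists_level (w : F) (hw : w ∈ Ninf) : ∃ k, w ∈ N k := by
  obtain ⟨l, hl⟩ := gam_pos w
  obtain ⟨k, hk⟩ := contraction l.length l le_rfl (of_gam_inf hl hw)
  exact ⟨k, of_gam hl.symm hk⟩

/-- The substitution. -/
def sg : F →* F :=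
  FreeGroup.lift ![FreeGroup.of 0 * FreeGroup.of 2 * FreeGroup.of 0, FreeGroup.of 1,
    FreeGroup.of 2, FreeGroup.of 3]

/-- first components -/
def th (i : Fin 3) : F →* F :=
  FreeGroup.lift (fun j => if j = 0 then FreeGroup.of 2 else
    if i.val + j.val ≠ 3 then FreeGroup.of 0 else 1)

/-- second components -/
def ta (i : Fin 3) : F →* F :=
  FreeGroup.lift (fun j => if j = 0 then (if i.val + 2 ≠ 3 then FreeGroup.of 0 else 1) else
    FreeGroup.of j)

theorem ta_zero (w : F) : ta 0 w = w := by
  have : ta 0 = MonoidHom.id F := by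
    apply FreeGroup.ext_hom
    intro j
    fin_cases j <;> simp [ta]
  rw [this]; rfl

theorem ta_two (w : F) : ta 2 w = w := by
  have : ta 2 = MonoidHom.id F := by
    apply FreeGroup.ext_hom
    intro j
    fin_cases j <;> simp [ta]
  rw [this]; rfl

/-- componentwise permutations -/
def comps {X : Type} (f g : Fin 3 → Perm X) : Perm (Fin 3 × Bool × X) :=
  Equiv.prodShear (Equiv.refl (Fin 3)) (fun i => Equiv.prodShear (Equiv.refl Bool)
    (fun x => if x = true then g i else f i))

theorem ev_sg {X : Type} (p : Fin 4 → Perm X) (w : F) (i : Fin 3) (y : X) :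
    ev (T p) (sg w) (i, false, y) = (i, false, ev p (th i w) y) ∧
    ev (T p) (sg w) (i, true, y) = (i, true, ev p (ta i w) y) := by
  induction w using FreeGroup.induction_on generalizing y with
  | C1 => simp
  | of j =>
    by_cases hj : j = 0
    · subst hj
      have e1 : sg (FreeGroup.of 0) = FreeGroup.of 0 * FreeGroup.of 2 * FreeGroup.of 0 := by
        simp [sg]
      have e2 : th i (FreeGroup.of 0) = FreeGroup.of 2 := by simp [th]
      have e3 : ta i (FreeGroup.of 0) = if i.val + 2 ≠ 3 then FreeGroup.of 0 else 1 := by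
        simp [ta]
      rw [e1, e2, e3]
      simp only [map_mul, Perm.mul_apply, ev, FreeGroup.lift_apply_of]
      have hA : ∀ x z, T p 0 (i, x, z) = (i, !x, z) := T_zero p i
      constructor
      · rw [hA false y, Bool.not_false, T_true _ 2 (by decide), hA, Bool.not_true]
      · rw [hA true y, Bool.not_true, T_false _ 2 (by decide), hA, Bool.not_false]
        by_cases h : i.val + 2 ≠ 3
        · have h' : i.val + (2 : Fin 4).val ≠ 3 := h
          rw [if_pos h', if_pos h]
          simp
        · have h' : ¬ (i.val + (2 : Fin 4).val ≠ 3) := h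
          rw [if_neg h', if_neg h]
          simp
    · have e1 : sg (FreeGroup.of j) = FreeGroup.of j := by
        revert hj
        fin_cases j <;> simp [sg]
      have e2 : th i (FreeGroup.of j) = if i.val + j.val ≠ 3 then FreeGroup.of 0 else 1 := by
        simp [th, hj]
      have e3 : ta i (FreeGroup.of j) = FreeGroup.of j := by
        simp [ta, hj]
      rw [e1, e2, e3]
      simp only [ev, FreeGroup.lift_apply_of]
      rw [T_true _ _ hj, T_false _ _ hj]
      refine ⟨?_, rfl⟩
      by_cases h : i.val + j.val ≠ 3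
      · rw [if_pos h, if_pos h]
        simp
      · rw [if_neg h, if_neg h]
        simp
  | inv_of j h =>
    constructor
    · rw [map_inv, map_inv, map_inv, map_inv, Perm.inv_eq_iff_eq, (h _).1]
      simp
    · rw [map_inv, map_inv, map_inv, map_inv, Perm.inv_eq_iff_eq, (h _).2]
      simp
  | mul a b ha hb =>
    constructor
    · rw [map_mul, map_mul, map_mul, map_mul, Perm.mul_apply, Perm.mul_apply, (hb y).1, (ha _).1]
    · rw [map_mul, map_mul, map_mul, map_mul, Perm.mul_apply, Perm.mul_apply, (hb y).2, (ha _).2]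

/-- The property of words kept by the substitution. -/
def W (w : F) : Prop :=
  (∀ h : F →* Gam, (∀ j, h (FreeGroup.of j) * h (FreeGroup.of j) = 1) →
    (h (FreeGroup.of 3) = 1 ∧ h (FreeGroup.of 1) = h (FreeGroup.of 2) ∨
     h (FreeGroup.of 2) = 1 ∧ h (FreeGroup.of 1) = h (FreeGroup.of 3) ∨
     h (FreeGroup.of 1) = 1 ∧ h (FreeGroup.of 2) = h (FreeGroup.of 3) ∨
     ∀ j k, h (FreeGroup.of j) * h (FreeGroup.of k) = h (FreeGroup.of k) * h (FreeGroup.of j)) →
    h w = 1)

theorem sg_of (j : Fin 4) (hj : j ≠ 0) : sg (FreeGroup.of j) = FreeGroup.of j := by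
  revert hj
  fin_cases j <;> simp [sg]

theorem sg_of_zero : sg (FreeGroup.of 0) = FreeGroup.of 0 * FreeGroup.of 2 * FreeGroup.of 0 := by
  simp [sg]

theorem W_sg (w : F) (hw : W w) : W (sg w) := by
  intro h hinv hcase
  have h1 : sg (FreeGroup.of 1) = FreeGroup.of 1 := sg_of 1 (by decide)
  have h2 : sg (FreeGroup.of 2) = FreeGroup.of 2 := sg_of 2 (by decide)
  have h3 : sg (FreeGroup.of 3) = FreeGroup.of 3 := sg_of 3 (by decide)
  have key := hw (h.comp sg) ?_ ?_
  · simpa using key
  · intro j
    by_cases hj : j = 0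
    · subst hj
      simp only [MonoidHom.comp_apply, sg_of_zero, map_mul]
      have e0 := hinv 0
      have e2 := hinv 2
      calc _ = h (FreeGroup.of 0) * h (FreeGroup.of 2) *
            (h (FreeGroup.of 0) * h (FreeGroup.of 0)) * h (FreeGroup.of 2) *
            h (FreeGroup.of 0) := by group
        _ = h (FreeGroup.of 0) * (h (FreeGroup.of 2) * h (FreeGroup.of 2)) *
            h (FreeGroup.of 0) := by rw [e0]; group
        _ = 1 := by rw [e2, mul_one, e0]
    · simp only [MonoidHom.comp_apply, sg_of j hj]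
      exact hinv j
  · simp only [MonoidHom.comp_apply, h1, h2, h3]
    rcases hcase with hc | hc | hc | hc
    · left; exact hc
    · right; left; exact hc
    · right; right; left; exact hc
    · right; right; right
      have e0 : h (sg (FreeGroup.of 0)) = h (FreeGroup.of 2) := by
        rw [sg_of_zero, map_mul, map_mul, hc 0 2, mul_assoc, hinv 0, mul_one]
      intro j k
      by_cases hj : j = 0
      · subst hj
        rw [e0]
        by_cases hk : k = 0
        · subst hk
          rw [e0]
        · rw [sg_of k hk]; exact hc _ _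
      · rw [sg_of j hj]
        by_cases hk : k = 0
        · subst hk
          rw [e0]; exact hc _ _
        · rw [sg_of k hk]; exact hc _ _

theorem sg_mem (k : ℕ) (w : F) (hW : W w) (hw : w ∈ N k) : sg w ∈ N (k + 1) := by
  have hth : ∀ i, th i w ∈ N k := by
    intro i
    apply N_zero_le k
    rw [mem_N_zero]
    have := hW (gam.comp (th i)) ?_ ?_
    · exact this
    · intro j
      have := rel_gam.1
      simp only [MonoidHom.comp_apply]
      by_cases hj : j = 0
      · subst hj
        simp only [th, FreeGroup.lift_apply_of, if_true]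
        exact this 2
      · by_cases h : i.val + j.val ≠ 3
        · simp only [th, FreeGroup.lift_apply_of, if_neg hj, if_pos h]
          exact this 0
        · simp only [th, FreeGroup.lift_apply_of, if_neg hj, if_neg h, map_one, mul_one]
    · fin_cases i
      · left; simp [th]
      · right; left; simp [th]
      · right; right; left; simp [th]
  have hta : ∀ i, ta i w ∈ N k := by
    intro i
    fin_cases i
    · change ta 0 w ∈ N k
      rw [ta_zero]; exact hw
    · change ta 1 w ∈ N k
      apply N_zero_le k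
      rw [mem_N_zero]
      have := hW (gam.comp (ta 1)) ?_ ?_
      · exact this
      · intro j
        have := rel_gam.1
        by_cases hj : j = 0
        · subst hj; simp [ta]
        · simp only [MonoidHom.comp_apply, ta, FreeGroup.lift_apply_of, if_neg hj]
          exact this j
      · right; right; right
        obtain ⟨h1, h2⟩ := rel_gam
        obtain ⟨k1, k2, k3, k4, k5, k6⟩ := klein _ _ _ (h1 1) (h1 2) (h1 3) h2
        have e0 : gam (ta 1 (FreeGroup.of 0)) = 1 := by simp [ta]
        have e1 : ∀ j : Fin 4, j ≠ 0 → gam (ta 1 (FreeGroup.of j)) = gam (FreeGroup.of j) := by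
          intro j hj; simp [ta, hj]
        have cases : ∀ j : Fin 4, j ≠ 0 → j = 1 ∨ j = 2 ∨ j = 3 := by decide
        intro j k
        simp only [MonoidHom.comp_apply]
        by_cases hj : j = 0
        · subst hj; rw [e0, one_mul, mul_one]
        · by_cases hk : k = 0
          · subst hk; rw [e0, one_mul, mul_one]
          · rw [e1 j hj, e1 k hk]
            rcases cases j hj with rfl | rfl | rfl <;> rcases cases k hk with rfl | rfl | rfl
            · rfl
            · exact k1.trans k2.symm
            · exact k5.trans k6.symm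
            · exact k2.trans k1.symm
            · rfl
            · exact k3.trans k4.symm
            · exact k6.trans k5.symm
            · exact k4.trans k3.symm
            · rfl
    · change ta 2 w ∈ N k
      rw [ta_two]; exact hw
  change ev (T (q k)) (sg w) = 1
  ext1 ⟨i, x, y⟩
  cases x
  · rw [(ev_sg (q k) w i y).1, show ev (q k) (th i w) = 1 from hth i]
    rfl
  · rw [(ev_sg (q k) w i y).2, show ev (q k) (ta i w) = 1 from hta i]
    rfl

theorem sg_not_mem (k : ℕ) (w : F) (hw : w ∉ N k) : sg w ∉ N (k + 1) := by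
  intro h
  apply hw
  change ev (q k) w = 1
  ext1 y
  have h1 := (ev_sg (q k) w 0 y).2
  have h2 : ev (T (q k)) (sg w) = 1 := h
  rw [h2, ta_zero] at h1
  exact (congrArg (fun t => t.2.2) h1).symm

/-- The base word. -/
def w0 : F :=
  ((FreeGroup.of 0 * FreeGroup.of 3) ^ 4 * (FreeGroup.of 0 * FreeGroup.of 2) ^ 4 *
    ((FreeGroup.of 0 * FreeGroup.of 3) ^ 4)⁻¹ * ((FreeGroup.of 0 * FreeGroup.of 2) ^ 4)⁻¹) *
  (FreeGroup.of 0 * FreeGroup.of 1) ^ 4 *
  ((FreeGroup.of 0 * FreeGroup.of 3) ^ 4 * (FreeGroup.of 0 * FreeGroup.of 2) ^ 4 *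
    ((FreeGroup.of 0 * FreeGroup.of 3) ^ 4)⁻¹ * ((FreeGroup.of 0 * FreeGroup.of 2) ^ 4)⁻¹)⁻¹ *
  ((FreeGroup.of 0 * FreeGroup.of 1) ^ 4)⁻¹

theorem hom_w0 {G : Type} [Group G] (h : F →* G) (j : Fin 4) (hj : j ≠ 0)
    (hh : (h (FreeGroup.of 0) * h (FreeGroup.of j)) ^ 4 = 1) : h w0 = 1 := by
  have cases : ∀ j : Fin 4, j ≠ 0 → j = 1 ∨ j = 2 ∨ j = 3 := by decide
  simp only [w0, map_mul, map_inv, map_pow]
  rcases cases j hj with rfl | rfl | rfl
  · rw [hh]; simp
  · rw [hh]; simp
  · rw [hh]; simp

theorem pow4 {G : Type} [Group G] (x y : G) (h : (x * y) * (x * y) * ((x * y) * (x * y)) = 1) :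
    (x * y) ^ 4 = 1 := by
  rw [← h]; simp only [pow_succ, pow_zero, one_mul, mul_assoc]

theorem W_w0 : W w0 := by
  intro h hinv hcase
  have e : ∀ j, h (FreeGroup.of j) = 1 → (h (FreeGroup.of 0) * h (FreeGroup.of j)) ^ 4 = 1 := by
    intro j hj
    apply pow4
    rw [hj, mul_one, hinv 0, one_mul]
  rcases hcase with hc | hc | hc | hc
  · exact hom_w0 h 3 (by decide) (e 3 hc.1)
  · exact hom_w0 h 2 (by decide) (e 2 hc.1)
  · exact hom_w0 h 1 (by decide) (e 1 hc.1)
  · refine hom_w0 h 1 (by decide) (pow4 _ _ ?_)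
    have h2 : h (FreeGroup.of 0) * h (FreeGroup.of 1) *
        (h (FreeGroup.of 0) * h (FreeGroup.of 1)) = 1 := by
      nth_rw 2 [hc 0 1]
      rw [mul_assoc, ← mul_assoc (h (FreeGroup.of 1)), hinv 1, one_mul, hinv 0]
    rw [h2, one_mul]

/-- The action on one fibre. -/
def Ti (i : Fin 3) {X : Type} (q : Fin 4 → Perm X) (j : Fin 4) : Perm (Bool × X) :=
  if j = 0 then (Equiv.prodCongr Equiv.boolNot (Equiv.refl X))
  else Equiv.prodShear (Equiv.refl Bool)
    (fun x => if x = true then q j else if i.val + j.val ≠ 3 then q 0 else 1)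

theorem Ti_T (i : Fin 3) {X : Type} (q : Fin 4 → Perm X) (j : Fin 4) (z : Bool × X) :
    ((i, Ti i q j z) : Fin 3 × Bool × X) = T q j (i, z) := by
  by_cases hj : j = 0
  · subst hj
    simp only [Ti, T, if_true]
    rfl
  · simp only [Ti, T, if_neg hj]
    rfl

theorem w0_mem : w0 ∈ N 1 := by
  change ev (T (q 0)) w0 = 1
  ext1 ⟨i, z⟩
  rw [← intertwine (Ti i (q 0)) (T (q 0)) (fun z => (i, z)) (Ti_T i (q 0)) w0 z]
  have h1' : ∀ j (y : X 0), q 0 j (q 0 j y) = y := fun j y => by
    have := congrArg (fun e : Perm (X 0) => e y) ((rel_q 0).1 j); simpa using this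
  have key : ∀ (j : Fin 4), j ≠ 0 → i.val + j.val = 3 → ev (Ti i (q 0)) w0 = 1 := by
    intro j hj hi
    apply hom_w0 _ j hj
    rw [ev, FreeGroup.lift_apply_of, FreeGroup.lift_apply_of]
    apply pow4
    have hA : ∀ x y, Ti i (q 0) 0 (x, y) = (!x, y) := by
      intro x y; simp [Ti]
    have hB : ∀ y, Ti i (q 0) j (true, y) = (true, q 0 j y) := by
      intro y; simp [Ti, hj, Equiv.prodShear]
    have hC : ∀ y, Ti i (q 0) j (false, y) = (false, y) := by
      intro y; simp [Ti, hj, Equiv.prodShear, hi]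
    have h2 : ∀ x y, (Ti i (q 0) 0 * Ti i (q 0) j * (Ti i (q 0) 0 * Ti i (q 0) j)) (x, y) =
        (x, q 0 j y) := by
      intro x y
      simp only [Perm.mul_apply]
      cases x
      · rw [hC, hA false y, Bool.not_false, hB, hA, Bool.not_true]
      · rw [hB, hA true (q 0 j y), Bool.not_true, hC, hA, Bool.not_false]
    ext1 ⟨x, y⟩
    rw [Perm.mul_apply, h2, h2, h1']
    rfl
  have : ∃ j : Fin 4, j ≠ 0 ∧ i.val + j.val = 3 := by
    fin_cases i
    · exact ⟨3, by decide, by decide⟩
    · exact ⟨2, by decide, by decide⟩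
    · exact ⟨1, by decide, by decide⟩
  obtain ⟨j, hj, hi⟩ := this
  rw [key j hj hi]
  rfl

theorem w0_not_mem : w0 ∉ N 0 := by
  rw [mem_N_zero]
  intro h
  have := gam_ker (![c[(0 : Fin 5), 4], c[0, 1] * c[2, 3], c[0, 2] * c[1, 3],
    c[0, 3] * c[1, 2]] : Fin 4 → Perm (Fin 5)) (by unfold Rel; decide) w0 h
  revert this
  simp only [w0, map_inv, map_pow, map_mul, FreeGroup.lift_apply_of]
  decide +kernel

theorem chain (k : ℕ) : ∃ w, W w ∧ w ∈ N (k + 1) ∧ w ∉ N k := by
  induction k with
  | zero => exact ⟨w0, W_w0, w0_mem, w0_not_mem⟩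
  | succ k ih =>
    obtain ⟨w, h1, h2, h3⟩ := ih
    exact ⟨sg w, W_sg w h1, sg_mem _ w h1 h2, sg_not_mem _ w h3⟩

theorem not_fp (S : Finset F) (h : Subgroup.normalClosure (S : Set F) = Ninf) : False := by
  have h1 : ∀ s : S, ∃ k, s.1 ∈ N k := fun s =>
    exists_level s.1 (h ▸ Subgroup.subset_normalClosure s.2)
  choose f hf using h1
  obtain ⟨K, hK⟩ : ∃ K, ∀ s, f s ≤ K :=
    ⟨Finset.univ.sup f, fun s => Finset.le_sup (Finset.mem_univ s)⟩
  have h2 : Ninf ≤ N K := by
    rw [← h]
    apply Subgroup.normalClosure_le_normal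
    intro s hs
    exact N_mono (hK ⟨s, hs⟩) (hf ⟨s, hs⟩)
  obtain ⟨w, -, h3, h4⟩ := chain K
  exact h4 (h2 (N_le_Ninf _ h3))

theorem ev_mk (L : List (Fin 4 × Bool)) (ω : ℕ → Fin 3) (v : ℕ → Bool) :
    ev rY (FreeGroup.mk L) (ω, v) =
      (ω, L.foldr (fun p f => (act p.1 ω) ∘ f) (id : (ℕ → Bool) → (ℕ → Bool)) v) := by
  induction L with
  | nil => rfl
  | cons p L ih =>
    have h1 : FreeGroup.mk (p :: L) = FreeGroup.mk [p] * FreeGroup.mk L := by
      rw [FreeGroup.mul_mk]; rfl
    rw [h1, map_mul, Perm.mul_apply, ih]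
    have h2 : ev rY (FreeGroup.mk [p]) = rY p.1 := by
      obtain ⟨j, b⟩ := p
      have h3 : (rY j)⁻¹ = rY j := inv_eq_of_mul_eq_one_left (rel_rY.1 j)
      cases b
      · simp [ev, h3]
      · simp [ev]
    rw [h2]
    rfl

theorem mem_Ninf_iff (w : F) : w ∈ Ninf ↔ ∀ ω : ℕ → Fin 3,
    (FreeGroup.toWord w).foldr (fun p f => (act p.1 ω) ∘ f)
      (id : (ℕ → Bool) → (ℕ → Bool)) = id := by
  have h0 : ∀ z, ev rY w z =
      (z.1, (FreeGroup.toWord w).foldr (fun p f => (act p.1 z.1) ∘ f) id z.2) := by
    rintro ⟨ω, v⟩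
    conv_lhs => rw [← FreeGroup.mk_toWord (x := w)]
    rw [ev_mk]
  constructor
  · intro h ω
    funext v
    have h1 := h0 (ω, v)
    have h2 : ev rY w = 1 := h
    rw [h2] at h1
    exact (congrArg (fun t => t.2) h1).symm
  · intro h
    change ev rY w = 1
    ext1 ⟨ω, v⟩
    rw [h0, h ω]
    rfl

/-- The negation of the preceding statement: The intersection over all ω in {0,1,2}^ℕ of the kernels F_4 → G_ω (Grigorchuk groups acting on binary sequences) is the normal closure of a finite set, i.e. the universal group F_4/N is finitely presented. -/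
theorem result :
    ¬ (∃ S : Finset (FreeGroup (Fin 4)),
      (Subgroup.normalClosure (S : Set (FreeGroup (Fin 4))) : Set (FreeGroup (Fin 4))) =
        {w : FreeGroup (Fin 4) | ∀ ω : ℕ → Fin 3,
          (FreeGroup.toWord w).foldr
            (fun p f =>
              (fun v : ℕ → Bool =>
                if p.1 = 0 then Function.update v 0 (!v 0)
                else fun m =>
                  if 0 < m ∧ v (m - 1) = false ∧ (∀ j < m - 1, v j = true) ∧
                      (ω (m - 1)).val + p.1.val ≠ 3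
                  then !v m else v m) ∘ f)
            (id : (ℕ → Bool) → (ℕ → Bool)) = id}) := by
  rintro ⟨S, hS⟩
  apply not_fp S
  apply SetLike.coe_injective
  rw [hS]
  ext w
  exact (mem_Ninf_iff w).symm

end Pool.Agent.S00980
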