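-- Proof of frozen statement S00993 (MP_5f4fc7_al, Q1 answered positively).
--
-- Sketch.  V = F_2[t,t^-1] = finitely supported sequences Z -> F_2 with the shift t.
-- The group is G = { (g1,g2) in G1 x G2 : same image in Z } where
--  * G1 = A1 x| (V x| Z): A1 is the F_3-space of all functions Z -> F_3 determined by a finite
--    window of an explicit Toeplitz sequence b (so locally constant functions on a minimal
--    subshift); V acts by multiplication with the signs (-1)^b shifted, t by the shift.  A1 is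
--    irreducible, and every element of V x| Z outside V has unipotent vectors of arbitrarily
--    large finite height in A1 (the sign cocycle is a coboundary for every power of the shift).
--  * G2 is an extension of a module M of functions V -> F_2 by V x| Z: M has an irreducible
--    submodule C (locally constant functions of bounded support), M/C = F_2[t,t^-1], and the
--    extension is twisted so that lifts of two elements of V of different order never commute,
--    while V acts on M with no invariants for subgroups unbounded below.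
-- Every layer A1, C, M/C, V, V, Z satisfies the maximal condition on G-invariant subgroups.
-- A nilpotent subgroup with non-trivial image in Z can be enlarged inside A1; one with trivial
-- image in Z has V-image (second factor) bounded below; if that image is infinite it can be
-- enlarged inside C, and if it is finite the V-image can be enlarged.
import Pool.Statements.S00993

set_option autoImplicit false
set_option linter.unusedSectionVars false
set_option linter.unusedVariables false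

namespace Pool.Agent.H910NM

open Subgroup
open scoped commutatorElement

/-- A group mapping to a nilpotent group with kernel inside some term of the upper central
series is nilpotent. -/
theorem nilp_of_lcs_le_ucs {K : Type*} [Group K] (m : ℕ) : ∀ c : ℕ,
    (⊤ : Subgroup K).lowerCentralSeries c ≤ Subgroup.upperCentralSeries K m → Group.IsNilpotent K := by
  induction m with
  | zero =>
    intro c h
    rw [Subgroup.upperCentralSeries_zero, le_bot_iff] at h
    exact Subgroup.nilpotent_iff_lowerCentralSeries.2 ⟨c, h⟩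
  | succ m ih =>
    intro c h
    refine ih (c+1) ?_
    rw [Subgroup.lowerCentralSeries_succ, commutator_le]
    intro x hx g _
    exact (Subgroup.mem_upperCentralSeries_succ_iff (G := K)).1 (h hx) g

theorem nilp_of_hom {K K' : Type*} [Group K] [Group K'] (f : K →* K')
    (hK' : Group.IsNilpotent K') (m : ℕ) (h : f.ker ≤ Subgroup.upperCentralSeries K m) :
    Group.IsNilpotent K := by
  obtain ⟨n, hn⟩ := Subgroup.nilpotent_iff_lowerCentralSeries.1 hK'
  refine nilp_of_lcs_le_ucs m n (le_trans ?_ h)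
  rw [← MonoidHom.comap_bot, ← map_le_iff_le_comap, map_lowerCentralSeries, ← hn]
  exact Subgroup.lowerCentralSeries_mono n le_top

/-- The iterated centraliser chain (heights) of a module-like normal subgroup. -/
def Zm {G M : Type*} [AddCommGroup M] (ρ : G → M → M) (H : Set G) : ℕ → Set M
  | 0 => {0}
  | i+1 => {a | ∀ h ∈ H, ρ h a - a ∈ Zm ρ H i}

section
variable {G M : Type*} [Group G] [AddCommGroup M] (ι : M → G) (ρ : G → M → M)
  (hadd : ∀ a b, ι (a+b) = ι a * ι b) (hinj : Function.Injective ι)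
  (hconj : ∀ g a, g * ι a * g⁻¹ = ι (ρ g a))

include hadd hinj hconj

theorem iota_zero : ι 0 = 1 := by
  have h := hadd 0 0
  rw [add_zero] at h
  exact (mul_eq_left.1 h.symm)

theorem iota_neg (a : M) : ι (-a) = (ι a)⁻¹ := by
  rw [eq_inv_iff_mul_eq_one, ← hadd, neg_add_cancel]
  exact iota_zero ι ρ hadd hinj hconj

theorem rho_add (g : G) (a b : M) : ρ g (a+b) = ρ g a + ρ g b := by
  apply hinj
  rw [← hconj, hadd, hadd, ← hconj, ← hconj]
  group

theorem rho_zero (g : G) : ρ g 0 = 0 := by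
  have h := rho_add ι ρ hadd hinj hconj g 0 0
  rw [add_zero] at h
  exact left_eq_add.1 h

theorem rho_neg (g : G) (a : M) : ρ g (-a) = - ρ g a := by
  rw [eq_neg_iff_add_eq_zero, ← rho_add ι ρ hadd hinj hconj, neg_add_cancel,
    rho_zero ι ρ hadd hinj hconj]

theorem Zm_zero_mem (H : Set G) : ∀ i, (0 : M) ∈ Zm ρ H i := by
  intro i
  induction i with
  | zero => exact rfl
  | succ i ih =>
    intro h _
    rw [rho_zero ι ρ hadd hinj hconj, sub_zero]
    exact ih

theorem Zm_add_mem (H : Set G) : ∀ i, ∀ a b : M, a ∈ Zm ρ H i → b ∈ Zm ρ H i →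
    a + b ∈ Zm ρ H i := by
  intro i
  induction i with
  | zero =>
    intro a b ha hb
    have ha' : a = 0 := ha
    have hb' : b = 0 := hb
    show a + b = 0
    rw [ha', hb', add_zero]
  | succ i ih =>
    intro a b ha hb h hh
    have := ih _ _ (ha h hh) (hb h hh)
    rw [rho_add ι ρ hadd hinj hconj]
    have e : ρ h a + ρ h b - (a + b) = (ρ h a - a) + (ρ h b - b) := by abel
    rw [e]
    exact this

theorem Zm_neg_mem (H : Set G) : ∀ i, ∀ a : M, a ∈ Zm ρ H i → -a ∈ Zm ρ H i := by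
  intro i
  induction i with
  | zero =>
    intro a ha
    have ha' : a = 0 := ha
    show -a = 0
    rw [ha', neg_zero]
  | succ i ih =>
    intro a ha h hh
    have := ih _ (ha h hh)
    rw [rho_neg ι ρ hadd hinj hconj]
    have e : -ρ h a - -a = -(ρ h a - a) := by abel
    rw [e]
    exact this

theorem Zm_mono_succ (H : Set G) : ∀ i, ∀ a : M, a ∈ Zm ρ H i → a ∈ Zm ρ H (i+1) := by
  intro i
  induction i with
  | zero =>
    intro a ha
    have ha' : a = 0 := ha
    rw [ha']
    exact Zm_zero_mem ι ρ hadd hinj hconj H 1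
  | succ i ih =>
    intro a ha h hh
    exact ih _ (ha h hh)

theorem Zm_mono (H : Set G) (i j : ℕ) (hij : i ≤ j) (a : M) (ha : a ∈ Zm ρ H i) :
    a ∈ Zm ρ H j := by
  induction hij with
  | refl => exact ha
  | step _ ih => exact Zm_mono_succ ι ρ hadd hinj hconj H _ _ ih

/-- the chain as subgroups of `G` -/
def ZG (H : Set G) (i : ℕ) : Subgroup G where
  carrier := ι '' (Zm ρ H i)
  one_mem' := ⟨0, Zm_zero_mem ι ρ hadd hinj hconj H i, iota_zero ι ρ hadd hinj hconj⟩
  mul_mem' := by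
    rintro _ _ ⟨a, ha, rfl⟩ ⟨b, hb, rfl⟩
    exact ⟨a + b, Zm_add_mem ι ρ hadd hinj hconj H i a b ha hb, hadd a b⟩
  inv_mem' := by
    rintro _ ⟨a, ha, rfl⟩
    exact ⟨-a, Zm_neg_mem ι ρ hadd hinj hconj H i a ha, iota_neg ι ρ hadd hinj hconj a⟩

theorem lcs_Zm (H : Subgroup G) (c : ℕ) (hc : H.lowerCentralSeries c = ⊥) :
    ∀ i, i ≤ c → ∀ a : M, ι a ∈ H.lowerCentralSeries (c - i) → a ∈ Zm ρ H i := by
  intro i
  induction i with
  | zero =>
    intro _ a ha
    rw [Nat.sub_zero, hc, mem_bot] at ha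
    show a = 0
    apply hinj
    rw [ha, iota_zero ι ρ hadd hinj hconj]
  | succ i ih =>
    intro hi a ha h hh
    apply ih (by omega)
    have e : c - i = (c - (i+1)) + 1 := by omega
    rw [e, Subgroup.lowerCentralSeries_succ]
    have e2 : ι (ρ h a - a) = ⁅ι a, h⁆⁻¹ := by
      rw [sub_eq_add_neg, hadd, iota_neg ι ρ hadd hinj hconj, ← hconj, commutatorElement_def]
      group
    rw [e2]
    exact inv_mem (commutator_mem_commutator ha hh)

theorem enlarge (H : Subgroup G) (hH : Group.IsNilpotent H)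
    (hb : ∀ n, ∃ a : M, (∃ m, a ∈ Zm ρ H m) ∧ a ∉ Zm ρ H n) :
    ∃ K : Subgroup G, Group.IsNilpotent K ∧ H < K := by
  obtain ⟨c, hc⟩ := (isNilpotent_iff_lowerCentralSeries H).1 hH
  obtain ⟨a₀, ⟨m, ham⟩, han⟩ := hb c
  let B : ℕ → Subgroup G := fun i => ZG ι ρ hadd hinj hconj H i
  have hB : ∀ i x, x ∈ B i ↔ ∃ a, a ∈ Zm ρ H i ∧ ι a = x := fun i x => Iff.rfl
  -- commutator formula
  have hcomm : ∀ (a : M) (h : G), ⁅ι a, h⁆ = ι (a - ρ h a) := by
    intro a h
    rw [sub_eq_add_neg, ← rho_neg ι ρ hadd hinj hconj, hadd, ← hconj,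
      iota_neg ι ρ hadd hinj hconj, commutatorElement_def]
    group
  -- H normalises every B i
  have hnorm : ∀ i, ∀ h ∈ H, ∀ x ∈ B i, h * x * h⁻¹ ∈ B i := by
    rintro i h hh _ ⟨a, ha, rfl⟩
    rw [hconj]
    refine ⟨ρ h a, ?_, rfl⟩
    have h1 := Zm_mono_succ ι ρ hadd hinj hconj H i a ha h hh
    have h2 := Zm_add_mem ι ρ hadd hinj hconj H i _ _ h1 ha
    rwa [sub_add_cancel] at h2
  have hιcomm : ∀ a b : M, ι a * ι b = ι b * ι a := by
    intro a b
    rw [← hadd, ← hadd, add_comm]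
  set K : Subgroup G := H ⊔ B m with hK
  -- every element of K is h * b
  have hform : ∀ x ∈ K, ∃ h ∈ H, ∃ b ∈ B m, x = h * b := by
    intro x hx
    rw [hK, sup_eq_closure] at hx
    induction hx using closure_induction with
    | mem x hx =>
      rcases hx with hx | hx
      · exact ⟨x, hx, 1, one_mem _, by simp⟩
      · exact ⟨1, one_mem _, x, hx, by simp⟩
    | one => exact ⟨1, one_mem _, 1, one_mem _, by simp⟩
    | mul x y _ _ ihx ihy =>
      obtain ⟨h, hh, b, hb, rfl⟩ := ihx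
      obtain ⟨h', hh', b', hb', rfl⟩ := ihy
      refine ⟨h * h', mul_mem hh hh', h'⁻¹ * b * h' * b', ?_, by group⟩
      refine mul_mem ?_ hb'
      have := hnorm m h'⁻¹ (inv_mem hh') b hb
      rwa [inv_inv] at this
    | inv x _ ihx =>
      obtain ⟨h, hh, b, hb, rfl⟩ := ihx
      exact ⟨h⁻¹, inv_mem hh, h * b⁻¹ * h⁻¹, hnorm m h hh _ (inv_mem hb), by group⟩
  have hBK : B m ≤ K := le_sup_right
  have hHK : H ≤ K := le_sup_left
  have hmono : ∀ i j, i ≤ j → B i ≤ B j := by
    rintro i j hij _ ⟨a, ha, rfl⟩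
    exact ⟨a, Zm_mono ι ρ hadd hinj hconj H i j hij a ha, rfl⟩
  -- central chain
  have hcen : ∀ i, ∀ x ∈ B (i+1), ∀ k ∈ K, ⁅x, k⁆ ∈ B i := by
    rintro i _ ⟨a, ha, rfl⟩ k hk
    obtain ⟨h, hh, b, ⟨b', hb', rfl⟩, rfl⟩ := hform k hk
    have e : ⁅ι a, h * ι b'⁆ = ⁅ι a, h⁆ := by
      rw [commutatorElement_def, commutatorElement_def]
      have := hιcomm b' (-a)
      rw [iota_neg ι ρ hadd hinj hconj] at this
      calc ι a * (h * ι b') * (ι a)⁻¹ * (h * ι b')⁻¹
          = ι a * h * (ι b' * (ι a)⁻¹) * (ι b')⁻¹ * h⁻¹ := by group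
        _ = ι a * h * ((ι a)⁻¹ * ι b') * (ι b')⁻¹ * h⁻¹ := by rw [this]
        _ = _ := by group
    rw [e, hcomm]
    refine ⟨a - ρ h a, ?_, rfl⟩
    have := Zm_neg_mem ι ρ hadd hinj hconj H i _ (ha h hh)
    rwa [neg_sub] at this
  refine ⟨K, ?_, ?_⟩
  · -- nilpotent
    have hN : ((B m).subgroupOf K).Normal := by
      constructor
      rintro ⟨x, hx⟩ hxB ⟨k, hk⟩
      rw [mem_subgroupOf] at hxB ⊢
      show k * x * k⁻¹ ∈ B m
      obtain ⟨h, hh, b, hb, rfl⟩ := hform k hk
      have := hnorm m h hh _ (mul_mem (mul_mem hb hxB) (inv_mem hb))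
      have e : h * b * x * (h * b)⁻¹ = h * (b * x * b⁻¹) * h⁻¹ := by group
      rw [e]
      exact this
    let f : K →* K ⧸ ((B m).subgroupOf K) := QuotientGroup.mk' _
    have hq : Group.IsNilpotent (K ⧸ ((B m).subgroupOf K)) := by
      have hs : Function.Surjective (f.comp (Subgroup.inclusion hHK)) := by
        intro y
        obtain ⟨⟨k, hk⟩, rfl⟩ := QuotientGroup.mk'_surjective _ y
        obtain ⟨h, hh, b, hb, rfl⟩ := hform k hk
        refine ⟨⟨h, hh⟩, ?_⟩
        show QuotientGroup.mk' _ (Subgroup.inclusion hHK ⟨h, hh⟩) = _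
        rw [QuotientGroup.mk'_apply, QuotientGroup.mk'_apply, QuotientGroup.eq,
          mem_subgroupOf]
        show h⁻¹ * (h * b) ∈ B m
        rw [inv_mul_cancel_left]
        exact hb
      exact Group.nilpotent_of_surjective _ hs
    refine nilp_of_hom f hq m ?_
    rw [QuotientGroup.ker_mk']
    refine Subgroup.ascending_central_series_le_upper (fun i => (B i).subgroupOf K) ⟨?_, ?_⟩ m
    · rw [eq_bot_iff]
      rintro ⟨x, hx⟩ hxB
      rw [mem_subgroupOf] at hxB
      obtain ⟨a, ha, hax⟩ := hxB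
      have ha' : a = 0 := ha
      rw [mem_bot]
      apply Subtype.ext
      show x = 1
      have hax' : ι a = x := hax
      rw [← hax', ha', iota_zero ι ρ hadd hinj hconj]
    · rintro ⟨x, hx⟩ i hxB ⟨k, hk⟩
      rw [mem_subgroupOf] at hxB ⊢
      exact hcen i x hxB k hk
  · refine lt_of_le_of_ne hHK ?_
    intro heq
    apply han
    apply lcs_Zm ι ρ hadd hinj hconj H c hc c le_rfl
    rw [Nat.sub_self, Subgroup.lowerCentralSeries_zero]
    rw [heq]
    exact hBK ⟨a₀, ham, rfl⟩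

end

/-! ### chains of normal subgroups -/

/-- chains of normal subgroups between `N` and `N'` stabilise -/
def MaxBetween {G : Type*} [Group G] (N N' : Subgroup G) : Prop :=
  ∀ f : ℕ → Subgroup G, (∀ n, (f n).Normal) → Monotone f → (∀ n, N ≤ f n) → (∀ n, f n ≤ N') →
    ∃ n, ∀ m, n ≤ m → f m = f n

theorem MaxBetween.trans {G : Type*} [Group G] {N₁ N₂ N₃ : Subgroup G} (hN : N₂.Normal)
    (h12 : N₁ ≤ N₂) (h23 : N₂ ≤ N₃)
    (h₁ : MaxBetween N₁ N₂) (h₂ : MaxBetween N₂ N₃) : MaxBetween N₁ N₃ := by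
  intro f hf hmono hl hu
  obtain ⟨n₁, hn₁⟩ := h₁ (fun n => f n ⊓ N₂)
    (fun n => by have := hf n; infer_instance)
    (fun a b hab => inf_le_inf_right _ (hmono hab))
    (fun n => le_inf (hl n) h12) (fun n => inf_le_right)
  obtain ⟨n₂, hn₂⟩ := h₂ (fun n => f n ⊔ N₂)
    (fun n => by have := hf n; infer_instance)
    (fun a b hab => sup_le_sup_right (hmono hab) _)
    (fun n => le_sup_right) (fun n => sup_le (hu n) h23)
  refine ⟨max n₁ n₂, fun m hm => ?_⟩
  have a1 : f m ⊓ N₂ = f (max n₁ n₂) ⊓ N₂ :=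
    (hn₁ m (le_trans (le_max_left _ _) hm)).trans (hn₁ _ (le_max_left _ _)).symm
  have a2 : f m ⊔ N₂ = f (max n₁ n₂) ⊔ N₂ :=
    (hn₂ m (le_trans (le_max_right _ _) hm)).trans (hn₂ _ (le_max_right _ _)).symm
  have hle : f (max n₁ n₂) ≤ f m := hmono hm
  refine le_antisymm ?_ hle
  intro x hx
  have hx2 : x ∈ f (max n₁ n₂) ⊔ N₂ := by
    rw [← a2]
    exact mem_sup_left hx
  have := hN
  rw [mem_sup_of_normal_right] at hx2
  obtain ⟨y, hy, z, hz, rfl⟩ := hx2
  have hz2 : z ∈ f m := by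
    have := mul_mem (inv_mem (hle hy)) hx
    rwa [inv_mul_cancel_left] at this
  have hz3 : z ∈ f m ⊓ N₂ := ⟨hz2, hz⟩
  rw [a1] at hz3
  exact mul_mem hy hz3.1

/-- If the members between `N` and `N'` are determined by a subset of `X` through a
section `σ`, and those subsets stabilise, then chains stabilise. -/
theorem MaxBetween.of_section {G X : Type*} [Group G] {N N' : Subgroup G} (σ : X → G)
    (hσ : ∀ g ∈ N', ∃ x, g * (σ x)⁻¹ ∈ N)
    (hst : ∀ f : ℕ → Subgroup G, (∀ n, (f n).Normal) → Monotone f → (∀ n, N ≤ f n) →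
      (∀ n, f n ≤ N') → ∃ n, ∀ m, n ≤ m → ∀ x, σ x ∈ f m → σ x ∈ f n) :
    MaxBetween N N' := by
  intro f hf hmono hl hu
  obtain ⟨n, hn⟩ := hst f hf hmono hl hu
  refine ⟨n, fun m hm => le_antisymm ?_ (hmono hm)⟩
  intro g hg
  obtain ⟨x, hx⟩ := hσ g (hu m hg)
  have h1 : σ x ∈ f m := by
    have := mul_mem (inv_mem (hl m hx)) hg
    rwa [mul_inv_rev, inv_inv, inv_mul_cancel_right] at this
  have h2 := hn m hm x h1
  have := mul_mem (hl n hx) h2
  rwa [inv_mul_cancel_right] at this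

end Pool.Agent.H910NM

namespace Pool.Agent.H910NM

open scoped LaurentPolynomial

/-- Finitely supported sequences over `F_2`. -/
abbrev V := ℤ →₀ ZMod 2

/-- shift of a finitely supported sequence -/
noncomputable def sh (k : ℤ) : V ≃+ V := Finsupp.domCongr (Equiv.addRight k)

@[simp] theorem sh_apply (k : ℤ) (v : V) (i : ℤ) : sh k v i = v (i - k) := by
  simp [sh, sub_eq_add_neg]

theorem sh_zero (v : V) : sh 0 v = v := by
  ext i; simp

theorem sh_sh (k l : ℤ) (v : V) : sh k (sh l v) = sh (k+l) v := by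
  ext i; simp only [sh_apply]; congr 1; ring

theorem sh_add (k : ℤ) (v w : V) : sh k (v + w) = sh k v + sh k w := map_add _ _ _

theorem sh_ne_zero (k : ℤ) (v : V) (hv : v ≠ 0) : sh k v ≠ 0 := by
  intro h
  apply hv
  have := congrArg (sh (-k)) h
  rw [sh_sh, neg_add_cancel, sh_zero, map_zero] at this
  exact this

/-- every element of `V` is its own negative -/
theorem V_add_self (v : V) : v + v = 0 := by
  ext i
  simp only [Finsupp.add_apply, Finsupp.coe_zero, Pi.zero_apply]
  exact CharTwo.add_self_eq_zero _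

/-- the ideal attached to a shift-invariant additive subgroup -/
noncomputable def idealOf (J : AddSubgroup V) (hJ : ∀ k, ∀ v ∈ J, sh k v ∈ J) :
    Ideal ((ZMod 2)[T;T⁻¹]) where
  carrier := {p | p.coeff ∈ J}
  add_mem' := by
    intro p q hp hq
    show (p + q).coeff ∈ J
    rw [AddMonoidAlgebra.coeff_add]
    exact J.add_mem hp hq
  zero_mem' := by
    show (0 : (ZMod 2)[T;T⁻¹]).coeff ∈ J
    rw [AddMonoidAlgebra.coeff_zero]
    exact J.zero_mem
  smul_mem' := by
    intro r p hp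
    show (r * p).coeff ∈ J
    have hp' : p.coeff ∈ J := hp
    induction r using LaurentPolynomial.induction_on' with
    | add p' q' h1 h2 =>
      rw [add_mul, AddMonoidAlgebra.coeff_add]
      exact J.add_mem h1 h2
    | C_mul_T n a =>
      have e : (LaurentPolynomial.C a * LaurentPolynomial.T n * p).coeff = a.val • sh n p.coeff := by
        rw [← LaurentPolynomial.single_eq_C_mul_T]
        ext i
        rw [AddMonoidAlgebra.coeff_single_mul_apply, Finsupp.smul_apply, sh_apply,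
          nsmul_eq_mul, ZMod.natCast_zmod_val]
        congr 2
        ring
      rw [e]
      exact J.nsmul_mem (hJ n _ hp') _

theorem chain_V (f : ℕ → AddSubgroup V) (hf : Monotone f)
    (hs : ∀ n k, ∀ v ∈ f n, sh k v ∈ f n) : ∃ n, ∀ m, n ≤ m → f m = f n := by
  have hN : IsNoetherianRing ((ZMod 2)[T;T⁻¹]) :=
    IsLocalization.isNoetherianRing (Submonoid.powers (Polynomial.X : Polynomial (ZMod 2))) _
      inferInstance
  let g : ℕ →o Ideal ((ZMod 2)[T;T⁻¹]) :=
    ⟨fun n => idealOf (f n) (hs n), fun a b hab p hp => hf hab hp⟩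
  obtain ⟨n, hn⟩ := monotone_stabilizes_iff_noetherian.2 hN g
  refine ⟨n, fun m hm => ?_⟩
  have h := hn m hm
  ext v
  have : AddMonoidAlgebra.ofCoeff v ∈ g n ↔ AddMonoidAlgebra.ofCoeff v ∈ g m := by rw [h]
  exact this.symm

/-- `t^k - 1` is injective on `V` for `k ≠ 0`. -/
theorem sh_sub_inj (k : ℤ) (hk : k ≠ 0) (v : V) (h : sh k v = v) : v = 0 := by
  by_contra hv
  have hper : ∀ i, v (i - k) = v i := fun i => by
    have := DFunLike.congr_fun h i
    rwa [sh_apply] at this
  have hper2 : ∀ n : ℕ, ∀ i, v (i - n * k) = v i := by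
    intro n
    induction n with
    | zero => intro i; simp
    | succ n ih =>
      intro i
      have e : i - ((n+1 : ℕ) : ℤ) * k = (i - n * k) - k := by push_cast; ring
      rw [e, hper, ih]
  obtain ⟨i, hi⟩ := Finsupp.ne_iff.1 hv
  have hinj : Function.Injective (fun n : ℕ => i - (n : ℤ) * k) := by
    intro a b hab
    have : (a : ℤ) * k = b * k := by
      have hab' : i - (a : ℤ) * k = i - (b : ℤ) * k := hab
      linarith
    have := mul_right_cancel₀ hk this
    exact_mod_cast this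
  have hinf : (Set.range (fun n : ℕ => i - (n : ℤ) * k)).Infinite := Set.infinite_range_of_injective hinj
  apply hinf
  refine Set.Finite.subset v.support.finite_toSet ?_
  rintro _ ⟨n, rfl⟩
  show _ ∈ v.support
  rw [Finsupp.mem_support_iff, hper2]
  exact hi

end Pool.Agent.H910NM

namespace Pool.Agent.H910NM

/-- block factor at level `M` -/
def mN (M : ℕ) : ℕ := 6 * (M + 1)

theorem mN_ge (M : ℕ) : 6 ≤ mN M := by unfold mN; omega

theorem mN_geZ (M : ℕ) : (6:ℤ) ≤ (mN M : ℤ) := by exact_mod_cast mN_ge M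

/-- the hole filling rule -/
def fill (c : Bool) (j : ℤ) : Bool :=
  if j = 0 ∨ j = 1 then true else if j = 3 then c else if j = 4 then !c else false

theorem natAbs_div_lt (m n : ℤ) (hm : 6 ≤ m) (hn : n % m = 3 ∨ n % m = 4) :
    (n / m).natAbs < n.natAbs := by
  have h := Int.mul_ediv_add_emod n m
  set q := n / m with hq
  rcases le_or_gt 0 q with h0 | h0
  · have : 6 * q ≤ m * q := mul_le_mul_of_nonneg_right hm h0
    rcases hn with hn | hn <;> omega
  · have : m * q ≤ 6 * q := mul_le_mul_of_nonpos_right hm h0.le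
    rcases hn with hn | hn <;> omega

/-- the Toeplitz sequences -/
def b (M : ℕ) (n : ℤ) : Bool :=
  if n % (mN M : ℤ) = 0 ∨ n % (mN M : ℤ) = 1 then true
  else if h : n % (mN M : ℤ) = 3 then b (M+1) (n / (mN M : ℤ))
  else if h' : n % (mN M : ℤ) = 4 then !(b (M+1) (n / (mN M : ℤ)))
  else false
termination_by n.natAbs
decreasing_by
  · exact natAbs_div_lt _ _ (mN_geZ M) (Or.inl h)
  · exact natAbs_div_lt _ _ (mN_geZ M) (Or.inr h')

theorem b_eq (M : ℕ) (n : ℤ) : b M n = fill (b (M+1) (n / (mN M : ℤ))) (n % (mN M : ℤ)) := by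
  rw [b, fill]
  split_ifs <;> rfl

theorem b_at (M : ℕ) (q j : ℤ) (h0 : 0 ≤ j) (h1 : j < (mN M : ℤ)) :
    b M (q * (mN M : ℤ) + j) = fill (b (M+1) q) j := by
  have hm : (0:ℤ) < (mN M : ℤ) := by have := mN_geZ M; omega
  have e1 : (q * (mN M : ℤ) + j) / (mN M : ℤ) = q := by
    rw [add_comm, Int.add_mul_ediv_right _ _ hm.ne', Int.ediv_eq_zero_of_lt h0 h1, zero_add]
  have e2 : (q * (mN M : ℤ) + j) % (mN M : ℤ) = j := by
    rw [add_comm, Int.add_mul_emod_self_right, Int.emod_eq_of_lt h0 h1]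
  rw [b_eq, e1, e2]

/-- block lengths -/
def ell : ℕ → ℕ
  | 0 => 1
  | M+1 => ell M * mN M

theorem ell_pos (M : ℕ) : 0 < ell M := by
  induction M with
  | zero => exact Nat.one_pos
  | succ M ih => exact Nat.mul_pos ih (by have := mN_ge M; omega)

theorem ell_gt (M : ℕ) : M < ell M := by
  induction M with
  | zero => exact Nat.one_pos
  | succ M ih =>
    have h := mN_ge M
    have : ell M * 6 ≤ ell M * mN M := Nat.mul_le_mul_left _ h
    show M + 1 < ell M * mN M
    omega

theorem fact_dvd_ell (M : ℕ) : M.factorial ∣ ell M := by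
  induction M with
  | zero => exact dvd_refl _
  | succ M ih =>
    rw [Nat.factorial_succ, mul_comm]
    exact Nat.mul_dvd_mul ih ⟨6, by unfold mN; ring⟩

theorem dvd_ell (k : ℕ) (hk : 1 ≤ k) : k ∣ ell k :=
  (Nat.dvd_factorial hk le_rfl).trans (fact_dvd_ell k)

theorem ell_dvd (M N : ℕ) (h : M ≤ N) : ell M ∣ ell N := by
  induction h with
  | refl => exact dvd_refl _
  | step _ ih => exact ih.trans (Dvd.intro _ rfl)

theorem b_str (M : ℕ) : ∀ q q' r : ℤ, b M q = b M q' → 0 ≤ r → r < (ell M : ℤ) →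
    b 0 (q * (ell M : ℤ) + r) = b 0 (q' * (ell M : ℤ) + r) := by
  induction M with
  | zero =>
    intro q q' r h h0 h1
    have h1' : r < 1 := by simpa [ell] using h1
    have : r = 0 := by omega
    subst this
    simpa [ell] using h
  | succ M ih =>
    intro q q' r h h0 h1
    have hl : (0:ℤ) < (ell M : ℤ) := by exact_mod_cast ell_pos M
    have hel : ((ell (M+1) : ℕ) : ℤ) = (ell M : ℤ) * (mN M : ℤ) := by
      show ((ell M * mN M : ℕ) : ℤ) = _
      push_cast; ring
    have hr := Int.mul_ediv_add_emod r (ell M)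
    have hr0 := Int.emod_nonneg r hl.ne'
    have hr1 := Int.emod_lt_of_pos r hl
    have hd0 : 0 ≤ r / (ell M : ℤ) := Int.ediv_nonneg h0 hl.le
    have hd1 : r / (ell M : ℤ) < (mN M : ℤ) := by
      apply Int.ediv_lt_of_lt_mul hl
      rw [hel] at h1
      linarith [mul_comm (ell M : ℤ) (mN M : ℤ)]
    have key : ∀ x : ℤ, x * (ell (M+1) : ℤ) + r =
        (x * (mN M : ℤ) + r / (ell M : ℤ)) * (ell M : ℤ) + r % (ell M : ℤ) := by
      intro x
      rw [hel]
      have : r = (ell M : ℤ) * (r / (ell M : ℤ)) + r % (ell M : ℤ) := hr.symm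
      calc x * ((ell M : ℤ) * (mN M : ℤ)) + r
          = x * ((ell M : ℤ) * (mN M : ℤ)) + ((ell M : ℤ) * (r / (ell M : ℤ)) + r % (ell M : ℤ)) := by
            rw [← this]
        _ = _ := by ring
    rw [key, key]
    apply ih _ _ _ _ hr0 hr1
    rw [b_at M q _ hd0 hd1, b_at M q' _ hd0 hd1, h]

theorem b_mul (M : ℕ) (q : ℤ) : b M (q * (mN M : ℤ)) = true := by
  have h := mN_geZ M
  have := b_at M q 0 le_rfl (by omega)
  rw [add_zero] at this
  rw [this]; simp [fill]

theorem b_zero (M : ℕ) : b M 0 = true := by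
  have := b_mul M 0
  rwa [zero_mul] at this

theorem b_mul_pred (M : ℕ) (q : ℤ) : b M (q * (mN M : ℤ) - 1) = false := by
  have h := mN_geZ M
  have := b_at M (q-1) ((mN M : ℤ) - 1) (by omega) (by omega)
  have e : (q-1) * (mN M : ℤ) + ((mN M : ℤ) - 1) = q * (mN M : ℤ) - 1 := by ring
  rw [e] at this
  rw [this]
  unfold fill
  rw [if_neg (by omega), if_neg (by omega), if_neg (by omega)]

theorem b_neg_one (M : ℕ) : b M (-1) = false := by
  have := b_mul_pred M 0
  rwa [zero_mul, zero_sub] at this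

theorem b_rec (M : ℕ) (n k : ℤ) (h0 : -(ell M : ℤ) ≤ n) (h1 : n < (ell M : ℤ)) :
    b 0 (n + k * (ell (M+1) : ℤ)) = b 0 n := by
  have hel : ((ell (M+1) : ℕ) : ℤ) = (ell M : ℤ) * (mN M : ℤ) := by
    show ((ell M * mN M : ℕ) : ℤ) = _
    push_cast; ring
  rcases le_or_gt 0 n with h | h
  · have e1 : n + k * (ell (M+1) : ℤ) = (k * (mN M : ℤ)) * (ell M : ℤ) + n := by rw [hel]; ring
    have e2 : n = 0 * (ell M : ℤ) + n := by ring
    rw [e1]
    conv_rhs => rw [e2]
    apply b_str M _ _ _ _ h h1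
    rw [b_mul, b_zero]
  · have e1 : n + k * (ell (M+1) : ℤ) = (k * (mN M : ℤ) - 1) * (ell M : ℤ) + (n + (ell M : ℤ)) := by
      rw [hel]; ring
    have e2 : n = (-1) * (ell M : ℤ) + (n + (ell M : ℤ)) := by ring
    rw [e1]
    conv_rhs => rw [e2]
    apply b_str M _ _ _ _ (by omega) (by omega)
    rw [b_mul_pred, b_neg_one]

theorem marker (M : ℕ) (x : ℤ) (h1 : b M x = true) (h2 : b M (x+1) = true) :
    x % (mN M : ℤ) = 0 := by
  have hm := mN_geZ M
  have hm0 : (0:ℤ) < (mN M : ℤ) := by omega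
  have hx := Int.mul_ediv_add_emod x (mN M)
  have hx0 := Int.emod_nonneg x hm0.ne'
  have hx1 := Int.emod_lt_of_pos x hm0
  set j := x % (mN M : ℤ) with hj
  set q := x / (mN M : ℤ) with hq
  by_contra hne
  have e1 : x = q * (mN M : ℤ) + j := by rw [← hx]; ring
  have a1 : fill (b (M+1) q) j = true := by
    rw [← b_at M q j hx0 hx1, ← e1]; exact h1
  by_cases hlast : j = (mN M : ℤ) - 1
  · rw [hlast] at a1
    unfold fill at a1
    rw [if_neg (by omega), if_neg (by omega), if_neg (by omega)] at a1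
    exact Bool.false_ne_true a1
  · have a2 : fill (b (M+1) q) (j+1) = true := by
      rw [← b_at M q (j+1) (by omega) (by omega), ← add_assoc, ← e1]; exact h2
    unfold fill at a1 a2
    by_cases j1 : j = 1
    · rw [if_neg (by omega), if_neg (by omega), if_neg (by omega)] at a2
      exact Bool.false_ne_true a2
    rw [if_neg (by omega)] at a1
    by_cases j3 : j = 3
    · rw [if_pos j3] at a1
      rw [if_neg (by omega), if_neg (by omega), if_pos (by omega), a1] at a2
      exact Bool.false_ne_true a2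
    rw [if_neg j3] at a1
    by_cases j4 : j = 4
    · rw [if_neg (by omega), if_neg (by omega), if_neg (by omega)] at a2
      exact Bool.false_ne_true a2
    rw [if_neg j4] at a1
    exact Bool.false_ne_true a1

/-- equality of windows of radius `W` at level `M` -/
def winEq (M : ℕ) (W : ℕ) (n n' : ℤ) : Prop := ∀ i : ℤ, |i| ≤ (W:ℤ) → b M (n+i) = b M (n'+i)

theorem winEq_mono (M W W' : ℕ) (h : W ≤ W') (n n' : ℤ) (hw : winEq M W' n n') : winEq M W n n' :=
  fun i hi => hw i (hi.trans (by exact_mod_cast h))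

theorem recog_step (M W : ℕ) (n n' : ℤ) (h : winEq M (mN M * (W+2)) n n') :
    n % (mN M : ℤ) = n' % (mN M : ℤ) ∧ winEq (M+1) W (n / (mN M : ℤ)) (n' / (mN M : ℤ)) := by
  have hm := mN_geZ M
  have hm0 : (0:ℤ) < (mN M : ℤ) := by omega
  have hx := Int.mul_ediv_add_emod n (mN M)
  have hx0 := Int.emod_nonneg n hm0.ne'
  have hx1 := Int.emod_lt_of_pos n hm0
  have hW : ((mN M * (W+2) : ℕ) : ℤ) = (mN M : ℤ) * W + 2 * (mN M : ℤ) := by push_cast; ring
  have hmW : (0:ℤ) ≤ (mN M : ℤ) * W := by positivity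
  have h' : ∀ i : ℤ, |i| ≤ (mN M : ℤ) * W + 2 * (mN M : ℤ) → b M (n+i) = b M (n'+i) := by
    intro i hi
    apply h
    rw [hW]; exact hi
  set j := n % (mN M : ℤ) with hj
  set q := n / (mN M : ℤ) with hq
  have en : n = q * (mN M : ℤ) + j := by rw [← hx]; ring
  have c1 : b M (n' - j) = true := by
    have := h' (-j) (by rw [abs_le]; constructor <;> linarith)
    rw [← sub_eq_add_neg, ← sub_eq_add_neg] at this
    rw [← this]
    have e : n - j = q * (mN M : ℤ) := by linarith
    rw [e, b_mul]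
  have c2 : b M (n' - j + 1) = true := by
    have := h' (-j+1) (by rw [abs_le]; constructor <;> linarith)
    have e1 : n' + (-j+1) = n' - j + 1 := by ring
    have e2 : n + (-j+1) = q * (mN M : ℤ) + 1 := by linarith
    rw [e1, e2, b_at M q 1 (by omega) (by omega)] at this
    rw [← this]; simp [fill]
  have c3 := marker M (n' - j) c1 c2
  have c4 : n' % (mN M : ℤ) = j := by
    have h1 : (n' - j) % (mN M : ℤ) = 0 := c3
    have h2 : n' % (mN M : ℤ) = j % (mN M : ℤ) := Int.emod_eq_emod_iff_emod_sub_eq_zero.2 h1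
    rw [h2, Int.emod_eq_of_lt hx0 hx1]
  refine ⟨c4.symm, ?_⟩
  have hx' := Int.mul_ediv_add_emod n' (mN M)
  rw [c4] at hx'
  set q' := n' / (mN M : ℤ) with hq'
  intro i hi
  have k1 : b (M+1) (q+i) = b M (n + (-j + (mN M : ℤ) * i + 3)) := by
    have e : n + (-j + (mN M : ℤ) * i + 3) = (q+i) * (mN M : ℤ) + 3 := by
      rw [en]; ring
    rw [e, b_at M (q+i) 3 (by omega) (by omega)]
    simp [fill]
  have k2 : b (M+1) (q'+i) = b M (n' + (-j + (mN M : ℤ) * i + 3)) := by
    have e : n' + (-j + (mN M : ℤ) * i + 3) = (q'+i) * (mN M : ℤ) + 3 := by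
      rw [← hx']; ring
    rw [e, b_at M (q'+i) 3 (by omega) (by omega)]
    simp [fill]
  rw [k1, k2]
  apply h'
  rw [abs_le] at hi ⊢
  have u1 : (mN M : ℤ) * i ≤ (mN M : ℤ) * W := mul_le_mul_of_nonneg_left hi.2 hm0.le
  have u2 : (mN M : ℤ) * (-(W:ℤ)) ≤ (mN M : ℤ) * i := mul_le_mul_of_nonneg_left hi.1 hm0.le
  constructor <;> linarith

theorem recog (M : ℕ) : ∀ W : ℕ, ∃ W' : ℕ, ∀ n n', winEq 0 W' n n' →
    n % (ell M : ℤ) = n' % (ell M : ℤ) ∧ winEq M W (n / (ell M : ℤ)) (n' / (ell M : ℤ)) := by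
  induction M with
  | zero =>
    intro W
    refine ⟨W, fun n n' h => ?_⟩
    simpa [ell] using h
  | succ M ih =>
    intro W
    obtain ⟨W', hW'⟩ := ih (mN M * (W+2))
    refine ⟨W', fun n n' h => ?_⟩
    obtain ⟨h1, h2⟩ := hW' n n' h
    obtain ⟨h3, h4⟩ := recog_step M W _ _ h2
    have hel : ((ell (M+1) : ℕ) : ℤ) = (ell M : ℤ) * (mN M : ℤ) := by
      show ((ell M * mN M : ℕ) : ℤ) = _
      push_cast; ring
    have hl0 : (0:ℤ) ≤ (ell M : ℤ) := by positivity
    rw [hel, ← Int.ediv_ediv_of_nonneg hl0, ← Int.ediv_ediv_of_nonneg hl0]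
    refine ⟨?_, h4⟩
    have key : ∀ x : ℤ, x % ((ell M : ℤ) * (mN M : ℤ)) =
        (ell M : ℤ) * ((x / (ell M : ℤ)) % (mN M : ℤ)) + x % (ell M : ℤ) := by
      intro x
      have a1 := Int.mul_ediv_add_emod x ((ell M : ℤ) * (mN M : ℤ))
      have a2 := Int.mul_ediv_add_emod x (ell M : ℤ)
      have a3 := Int.mul_ediv_add_emod (x / (ell M : ℤ)) (mN M : ℤ)
      rw [Int.ediv_ediv_of_nonneg hl0] at a3
      have : x % ((ell M : ℤ) * (mN M : ℤ)) =
          x - (ell M : ℤ) * (mN M : ℤ) * (x / ((ell M : ℤ) * (mN M : ℤ))) := by linarith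
      rw [this]
      have a4 : (ell M : ℤ) * ((mN M : ℤ) * (x / ((ell M : ℤ) * (mN M : ℤ))) +
        x / (ell M : ℤ) % (mN M : ℤ)) = (ell M : ℤ) * (x / (ell M : ℤ)) := by rw [a3]
      linarith
    rw [key, key, h1, h3]

end Pool.Agent.H910NM

namespace Pool.Agent.H910NM

/-- window-determined functions -/
def WD (f : ℤ → ZMod 3) : Prop := ∃ W : ℕ, ∀ n n', winEq 0 W n n' → f n = f n'

/-- the sign function -/
def sg (n : ℤ) : ZMod 3 := if b 0 n then -1 else 1

theorem sg_sq (n : ℤ) : sg n * sg n = 1 := by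
  unfold sg; split_ifs <;> decide

theorem WD_const (c : ZMod 3) : WD (fun _ => c) := ⟨0, fun _ _ _ => rfl⟩

theorem WD_op2 (op : ZMod 3 → ZMod 3 → ZMod 3) {f g : ℤ → ZMod 3} (hf : WD f) (hg : WD g) :
    WD (fun n => op (f n) (g n)) := by
  obtain ⟨W, hW⟩ := hf
  obtain ⟨W', hW'⟩ := hg
  refine ⟨max W W', fun n n' h => ?_⟩
  show op (f n) (g n) = op (f n') (g n')
  rw [hW n n' (winEq_mono 0 _ _ (le_max_left _ _) _ _ h),
    hW' n n' (winEq_mono 0 _ _ (le_max_right _ _) _ _ h)]

theorem WD_add {f g : ℤ → ZMod 3} (hf : WD f) (hg : WD g) : WD (f + g) := WD_op2 (· + ·) hf hg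

theorem WD_mul {f g : ℤ → ZMod 3} (hf : WD f) (hg : WD g) : WD (fun n => f n * g n) :=
  WD_op2 (· * ·) hf hg

theorem WD_neg {f : ℤ → ZMod 3} (hf : WD f) : WD (-f) := by
  obtain ⟨W, hW⟩ := hf
  exact ⟨W, fun n n' h => by rw [Pi.neg_apply, Pi.neg_apply, hW n n' h]⟩

theorem WD_zero : WD 0 := WD_const 0

theorem WD_shift (k : ℤ) {f : ℤ → ZMod 3} (hf : WD f) : WD (fun n => f (n - k)) := by
  obtain ⟨W, hW⟩ := hf
  refine ⟨W + k.natAbs, fun n n' h => hW _ _ fun i hi => ?_⟩
  have := h (i - k) (by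
    push_cast
    rw [abs_le] at hi ⊢
    have h1 : k ≤ |k| := le_abs_self k
    have h2 : -k ≤ |k| := neg_le_abs k
    constructor <;> linarith)
  have e : ∀ x : ℤ, x - k + i = x + (i - k) := fun x => by ring
  rw [e, e]
  exact this

theorem WD_sg : WD sg := by
  refine ⟨0, fun n n' h => ?_⟩
  have := h 0 (by simp)
  rw [add_zero, add_zero] at this
  unfold sg
  rw [this]

/-- the additive group of window-determined functions -/
def A1 : AddSubgroup (ℤ → ZMod 3) where
  carrier := {f | WD f}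
  add_mem' := fun hf hg => WD_add hf hg
  zero_mem' := WD_zero
  neg_mem' := fun hf => WD_neg hf

theorem mem_A1 (f : ℤ → ZMod 3) : f ∈ A1 ↔ WD f := Iff.rfl

/-- functions determined by the residue modulo `ell M` and a window -/
theorem WD_of_res (M R : ℕ) (f : ℤ → ZMod 3)
    (h : ∀ n n', n % (ell M : ℤ) = n' % (ell M : ℤ) → winEq 0 R n n' → f n = f n') : WD f := by
  obtain ⟨W', hW'⟩ := recog M 0
  refine ⟨max W' R, fun n n' hw => ?_⟩
  exact h n n' (hW' n n' (winEq_mono 0 _ _ (le_max_left _ _) _ _ hw)).1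
    (winEq_mono 0 _ _ (le_max_right _ _) _ _ hw)

/-! ### the cocycle -/

/-- block products along residue classes -/
def Tot (k : ℕ) (M : ℕ) (q r : ℤ) : ZMod 3 :=
  ∏ j ∈ Finset.range (ell M / k), sg (q * (ell M : ℤ) + (r + (j:ℤ) * (k:ℤ)))

theorem Tot_sq (k M : ℕ) (q r : ℤ) : Tot k M q r * Tot k M q r = 1 := by
  unfold Tot
  rw [← Finset.prod_mul_distrib]
  exact Finset.prod_eq_one fun j _ => sg_sq _

theorem Tot_type (k M : ℕ) (hk : 1 ≤ k) (hkM : k ∣ ell M) (q q' r : ℤ) (hr0 : 0 ≤ r)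
    (hr1 : r < (k:ℤ)) (h : b M q = b M q') : Tot k M q r = Tot k M q' r := by
  unfold Tot
  refine Finset.prod_congr rfl fun j hj => ?_
  rw [Finset.mem_range] at hj
  have h1 : (j + 1) * k ≤ ell M := by
    calc (j+1) * k ≤ (ell M / k) * k := Nat.mul_le_mul_right _ hj
      _ = ell M := Nat.div_mul_cancel hkM
  have h2 : ((j:ℤ) + 1) * (k:ℤ) ≤ (ell M : ℤ) := by exact_mod_cast h1
  have h3 : (0:ℤ) ≤ (j:ℤ) * (k:ℤ) := by positivity
  unfold sg
  rw [b_str M q q' (r + (j:ℤ) * (k:ℤ)) h (by linarith) (by linarith)]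

theorem prod_range_mul' {A : Type*} [CommMonoid A] (f : ℕ → A) (a c : ℕ) :
    ∏ j ∈ Finset.range (a * c), f j =
      ∏ i ∈ Finset.range a, ∏ j ∈ Finset.range c, f (i * c + j) := by
  induction a with
  | zero => simp
  | succ a ih => rw [Nat.succ_mul, Finset.prod_range_add, ih, Finset.prod_range_succ]

theorem Tot_succ (k M : ℕ) (hk : 1 ≤ k) (hkM : k ∣ ell M) (q r : ℤ) :
    Tot k (M+1) q r = ∏ i ∈ Finset.range (mN M), Tot k M (q * (mN M : ℤ) + (i:ℤ)) r := by
  unfold Tot
  have hc : ell M / k * k = ell M := Nat.div_mul_cancel hkM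
  have e : ell (M+1) / k = mN M * (ell M / k) := by
    show ell M * mN M / k = _
    rw [mul_comm (ell M), Nat.mul_div_assoc _ hkM]
  rw [e, prod_range_mul']
  refine Finset.prod_congr rfl fun i _ => Finset.prod_congr rfl fun j _ => ?_
  have hel : ((ell (M+1) : ℕ) : ℤ) = (ell M : ℤ) * (mN M : ℤ) := by
    show ((ell M * mN M : ℕ) : ℤ) = _
    push_cast; ring
  have hcz : ((ell M / k : ℕ) : ℤ) * (k:ℤ) = (ell M : ℤ) := by exact_mod_cast hc
  rw [hel]
  congr 1
  rw [Nat.cast_add, Nat.cast_mul]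
  have : (i:ℤ) * ((ell M / k : ℕ) : ℤ) * (k:ℤ) = (i:ℤ) * (ell M : ℤ) := by rw [mul_assoc, hcz]
  calc q * ((ell M : ℤ) * (mN M : ℤ)) + (r + ((i:ℤ) * ((ell M / k : ℕ) : ℤ) + (j:ℤ)) * (k:ℤ))
      = q * ((ell M : ℤ) * (mN M : ℤ)) + (r + (j:ℤ) * (k:ℤ)) +
          (i:ℤ) * ((ell M / k : ℕ) : ℤ) * (k:ℤ) := by ring
    _ = _ := by rw [this]; ring

theorem fill_prod (F : Bool → ZMod 3) (c c' : Bool) (m : ℕ) (hm : 6 ≤ m) :
    ∏ i ∈ Finset.range m, F (fill c (i:ℤ)) = ∏ i ∈ Finset.range m, F (fill c' (i:ℤ)) := by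
  obtain ⟨t, rfl⟩ : ∃ t, m = 6 + t := ⟨m - 6, by omega⟩
  rw [Finset.prod_range_add, Finset.prod_range_add]
  congr 1
  · have key : ∀ c : Bool, ∏ i ∈ Finset.range 6, F (fill c (i:ℤ)) =
        F true * F true * F false * (F true * F false) * F false := by
      intro c
      have h0 : fill c ((0:ℕ):ℤ) = true := by simp [fill]
      have h1 : fill c ((1:ℕ):ℤ) = true := by simp [fill]
      have h2 : fill c ((2:ℕ):ℤ) = false := by simp [fill]
      have h3 : fill c ((3:ℕ):ℤ) = c := by simp [fill]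
      have h4 : fill c ((4:ℕ):ℤ) = !c := by simp [fill]
      have h5 : fill c ((5:ℕ):ℤ) = false := by simp [fill]
      simp only [Finset.prod_range_succ, Finset.prod_range_zero, one_mul]
      rw [h0, h1, h2, h3, h4, h5]
      cases c
      · rw [Bool.not_false]; ring
      · rw [Bool.not_true]; ring
    rw [key, key]
  · refine Finset.prod_congr rfl fun x _ => ?_
    have key : ∀ c : Bool, fill c ((6 + x : ℕ) : ℤ) = false := by
      intro c
      unfold fill
      rw [if_neg (by push_cast; omega), if_neg (by push_cast; omega),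
        if_neg (by push_cast; omega)]
    rw [key, key]

theorem Tot_const (k M : ℕ) (hk : 1 ≤ k) (hkM : k ∣ ell M) (q q' r : ℤ) (hr0 : 0 ≤ r)
    (hr1 : r < (k:ℤ)) : Tot k (M+1) q r = Tot k (M+1) q' r := by
  rw [Tot_succ k M hk hkM, Tot_succ k M hk hkM]
  have key : ∀ x : ℤ, ∏ i ∈ Finset.range (mN M), Tot k M (x * (mN M : ℤ) + (i:ℤ)) r =
      ∏ i ∈ Finset.range (mN M),
        (fun c : Bool => if c then Tot k M 0 r else Tot k M (-1) r) (fill (b (M+1) x) (i:ℤ)) := by
    intro x
    refine Finset.prod_congr rfl fun i hi => ?_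
    rw [Finset.mem_range] at hi
    rw [← b_at M x i (by positivity) (by exact_mod_cast hi)]
    rcases hb : b M (x * (mN M : ℤ) + (i:ℤ)) with _ | _
    · simp only [Bool.false_eq_true, if_false]
      exact Tot_type k M hk hkM _ _ r hr0 hr1 (by rw [hb, b_neg_one])
    · simp only [if_true]
      exact Tot_type k M hk hkM _ _ r hr0 hr1 (by rw [hb, b_zero])
  rw [key, key]
  exact fill_prod (fun c : Bool => if c then Tot k M 0 r else Tot k M (-1) r) _ _ _ (mN_ge M)

theorem Tot_one (k M : ℕ) (hk : 1 ≤ k) (hkM : k ∣ ell M) (q r : ℤ) (hr0 : 0 ≤ r)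
    (hr1 : r < (k:ℤ)) : Tot k (M+2) q r = 1 := by
  have hkM1 : k ∣ ell (M+1) := hkM.trans (Dvd.intro _ rfl)
  rw [Tot_succ k (M+1) hk hkM1]
  have : ∀ i ∈ Finset.range (mN (M+1)), Tot k (M+1) (q * (mN (M+1) : ℤ) + (i:ℤ)) r =
      Tot k (M+1) 0 r := fun i _ => Tot_const k M hk hkM _ _ r hr0 hr1
  rw [Finset.prod_congr rfl this, Finset.prod_const, Finset.card_range]
  have e : mN (M+1) = 2 * (3 * (M+2)) := by unfold mN; ring
  rw [e, pow_mul, sq, Tot_sq, one_pow]

/-- the cocycle equation is solvable -/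
theorem exists_cocycle (k : ℕ) (hk : 1 ≤ k) :
    ∃ g : ℤ → ZMod 3, WD g ∧ (∀ n, g n * g n = 1) ∧ ∀ n, sg n * g (n - (k:ℤ)) = g n := by
  set L := ell (k+2) with hL
  have hkL : k ∣ L := (dvd_ell k hk).trans (ell_dvd k (k+2) (by omega))
  have hL0 : (0:ℤ) < (L:ℤ) := by exact_mod_cast ell_pos _
  have hk0 : (0:ℤ) < (k:ℤ) := by exact_mod_cast hk
  set N := L / k with hN
  have hNk : N * k = L := Nat.div_mul_cancel hkL
  have hNkz : (N:ℤ) * (k:ℤ) = (L:ℤ) := by exact_mod_cast hNk
  have hkLz : (k:ℤ) ≤ (L:ℤ) := by exact_mod_cast Nat.le_of_dvd (ell_pos _) hkL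
  let h : ℤ → ℕ → ZMod 3 := fun n j =>
    if (j:ℤ) * (k:ℤ) ≤ n % (L:ℤ) then sg (n - (j:ℤ) * (k:ℤ)) else 1
  let g : ℤ → ZMod 3 := fun n => ∏ j ∈ Finset.range N, h n j
  refine ⟨g, ?_, ?_, ?_⟩
  · apply WD_of_res (k+2) L
    intro n n' hr hw
    show ∏ j ∈ Finset.range N, h n j = ∏ j ∈ Finset.range N, h n' j
    refine Finset.prod_congr rfl fun j hj => ?_
    rw [Finset.mem_range] at hj
    show (if (j:ℤ) * (k:ℤ) ≤ n % (L:ℤ) then sg (n - (j:ℤ) * (k:ℤ)) else 1) =
      (if (j:ℤ) * (k:ℤ) ≤ n' % (L:ℤ) then sg (n' - (j:ℤ) * (k:ℤ)) else 1)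
    rw [hL, hr]
    have : sg (n - (j:ℤ) * (k:ℤ)) = sg (n' - (j:ℤ) * (k:ℤ)) := by
      unfold sg
      have h1 : j * k ≤ L := by rw [← hNk]; exact Nat.mul_le_mul_right _ hj.le
      have h2 : (j:ℤ) * (k:ℤ) ≤ (L:ℤ) := by exact_mod_cast h1
      have h3 : (0:ℤ) ≤ (j:ℤ) * (k:ℤ) := by positivity
      have := hw (-((j:ℤ) * (k:ℤ))) (by rw [abs_neg, abs_of_nonneg h3]; exact h2)
      rw [← sub_eq_add_neg, ← sub_eq_add_neg] at this
      rw [this]
    rw [this]
  · intro n
    show (∏ j ∈ Finset.range N, h n j) * (∏ j ∈ Finset.range N, h n j) = 1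
    rw [← Finset.prod_mul_distrib]
    refine Finset.prod_eq_one fun j _ => ?_
    show (if (j:ℤ) * (k:ℤ) ≤ n % (L:ℤ) then sg (n - (j:ℤ) * (k:ℤ)) else 1) *
      (if (j:ℤ) * (k:ℤ) ≤ n % (L:ℤ) then sg (n - (j:ℤ) * (k:ℤ)) else 1) = 1
    split_ifs
    · exact sg_sq _
    · exact one_mul _
  · intro n
    have hr0 := Int.emod_nonneg n hL0.ne'
    have hr1 := Int.emod_lt_of_pos n hL0
    have hn := Int.mul_ediv_add_emod n (L:ℤ)
    set r := n % (L:ℤ) with hr
    set q := n / (L:ℤ) with hq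
    have h0 : h n 0 = sg n := by
      show (if ((0:ℕ):ℤ) * (k:ℤ) ≤ n % (L:ℤ) then sg (n - ((0:ℕ):ℤ) * (k:ℤ)) else 1) = sg n
      rw [Nat.cast_zero, zero_mul, sub_zero, if_pos hr0]
    by_cases hc : (k:ℤ) ≤ r
    · have hmod : (n - (k:ℤ)) % (L:ℤ) = r - (k:ℤ) := by
        have e : n - (k:ℤ) = (r - (k:ℤ)) + (L:ℤ) * q := by linarith
        rw [e, Int.add_mul_emod_self_left, Int.emod_eq_of_lt (by linarith) (by linarith)]
      have hsh : ∀ j : ℕ, h (n - (k:ℤ)) j = h n (j+1) := by
        intro j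
        show (if (j:ℤ) * (k:ℤ) ≤ (n - (k:ℤ)) % (L:ℤ) then sg (n - (k:ℤ) - (j:ℤ) * (k:ℤ)) else 1) =
          (if ((j+1:ℕ):ℤ) * (k:ℤ) ≤ n % (L:ℤ) then sg (n - ((j+1:ℕ):ℤ) * (k:ℤ)) else 1)
        rw [hmod, ← hr]
        have e1 : n - (k:ℤ) - (j:ℤ) * (k:ℤ) = n - ((j+1:ℕ):ℤ) * (k:ℤ) := by push_cast; ring
        have e2 : ((j:ℤ) * (k:ℤ) ≤ r - (k:ℤ)) ↔ (((j+1:ℕ):ℤ) * (k:ℤ) ≤ r) := by
          push_cast
          constructor <;> intro hh <;> linarith
        rw [e1]
        by_cases hh : (j:ℤ) * (k:ℤ) ≤ r - (k:ℤ)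
        · rw [if_pos hh, if_pos (e2.1 hh)]
        · rw [if_neg hh, if_neg (fun h' => hh (e2.2 h'))]
      have hN1 : h n N = 1 := by
        show (if ((N:ℕ):ℤ) * (k:ℤ) ≤ n % (L:ℤ) then sg (n - ((N:ℕ):ℤ) * (k:ℤ)) else 1) = 1
        rw [hNkz, if_neg (by linarith)]
      show sg n * (∏ j ∈ Finset.range N, h (n - (k:ℤ)) j) = ∏ j ∈ Finset.range N, h n j
      rw [Finset.prod_congr rfl (fun j _ => hsh j), ← h0, mul_comm,
        ← Finset.prod_range_succ' (fun j => h n j) N, Finset.prod_range_succ, hN1, mul_one]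
    · push Not at hc
      have hN0 : 0 < N := Nat.div_pos (Nat.le_of_dvd (ell_pos _) hkL) hk
      obtain ⟨N', hN'⟩ : ∃ N', N = N' + 1 := ⟨N - 1, by omega⟩
      have hg : (∏ j ∈ Finset.range N, h n j) = sg n := by
        rw [hN', Finset.prod_range_succ', h0]
        rw [Finset.prod_eq_one, one_mul]
        intro j _
        show (if ((j+1:ℕ):ℤ) * (k:ℤ) ≤ n % (L:ℤ) then sg (n - ((j+1:ℕ):ℤ) * (k:ℤ)) else 1) = 1
        rw [if_neg]
        push_cast
        have : (0:ℤ) ≤ (j:ℤ) * (k:ℤ) := by positivity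
        intro hh
        rw [← hr] at hh
        linarith
      have hmod : (n - (k:ℤ)) % (L:ℤ) = r - (k:ℤ) + (L:ℤ) := by
        have e : n - (k:ℤ) = (r - (k:ℤ) + (L:ℤ)) + (L:ℤ) * (q - 1) := by
          rw [← hn]; ring
        rw [e, Int.add_mul_emod_self_left, Int.emod_eq_of_lt (by linarith) (by linarith)]
      have htot : (∏ j ∈ Finset.range N, h (n - (k:ℤ)) j) = 1 := by
        rw [← Tot_one k k hk (dvd_ell k hk) (q-1) r hr0 hc]
        unfold Tot
        rw [← hL, ← hN, ← Finset.prod_range_reflect]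
        refine Finset.prod_congr rfl fun j hj => ?_
        rw [Finset.mem_range] at hj
        have hj2 : ((N - 1 - j : ℕ) : ℤ) = (N:ℤ) - 1 - (j:ℤ) := by omega
        show (if ((N - 1 - j : ℕ):ℤ) * (k:ℤ) ≤ (n - (k:ℤ)) % (L:ℤ) then
          sg (n - (k:ℤ) - ((N - 1 - j : ℕ):ℤ) * (k:ℤ)) else 1) = _
        rw [hmod, hj2]
        have e1 : ((N:ℤ) - 1 - (j:ℤ)) * (k:ℤ) = (L:ℤ) - (k:ℤ) - (j:ℤ) * (k:ℤ) := by
          rw [← hNkz]; ring
        have h3 : (0:ℤ) ≤ (j:ℤ) * (k:ℤ) := by positivity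
        rw [e1, if_pos (by linarith)]
        congr 1
        rw [← hn]; ring
      show sg n * (∏ j ∈ Finset.range N, h (n - (k:ℤ)) j) = ∏ j ∈ Finset.range N, h n j
      rw [htot, hg, mul_one]

/-! ### irreducibility -/

theorem J_mul (J : AddSubgroup (ℤ → ZMod 3)) (hs : ∀ F ∈ J, (fun n => sg n * F n) ∈ J)
    (ht : ∀ k : ℤ, ∀ F ∈ J, (fun n => F (n - k)) ∈ J) (I : Finset ℤ) :
    ∀ φ : ℤ → ZMod 3, (∀ n n', (∀ i ∈ I, b 0 (n+i) = b 0 (n'+i)) → φ n = φ n') →
    ∀ F ∈ J, (fun n => φ n * F n) ∈ J := by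
  classical
  induction I using Finset.induction_on with
  | empty =>
    intro φ hφ F hF
    have e : (fun n => φ n * F n) = (φ 0).val • F := by
      funext n
      rw [hφ n 0 (by simp), Pi.smul_apply, nsmul_eq_mul, ZMod.natCast_zmod_val]
    rw [e]
    exact J.nsmul_mem hF _
  | insert i I hi ih =>
    intro φ hφ F hF
    let P : Bool → ℤ → ℤ → Prop := fun c n n' => (∀ i' ∈ I, b 0 (n'+i') = b 0 (n+i')) ∧ b 0 (n'+i) = c
    let Φ : (ℤ → Prop) → ZMod 3 := fun Q => if h : ∃ n', Q n' then φ (Classical.choose h) else 0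
    let ψ : Bool → ℤ → ZMod 3 := fun c n => Φ (P c n)
    have hψ : ∀ c n n', (∀ i' ∈ I, b 0 (n+i') = b 0 (n'+i')) → ψ c n = ψ c n' := by
      intro c n n' h
      have : P c n = P c n' := by
        funext x
        show ((∀ i' ∈ I, b 0 (x+i') = b 0 (n+i')) ∧ b 0 (x+i) = c) =
          ((∀ i' ∈ I, b 0 (x+i') = b 0 (n'+i')) ∧ b 0 (x+i) = c)
        apply propext
        constructor
        · rintro ⟨h1, h2⟩
          exact ⟨fun i' hi' => (h1 i' hi').trans (h i' hi'), h2⟩
        · rintro ⟨h1, h2⟩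
          exact ⟨fun i' hi' => (h1 i' hi').trans (h i' hi').symm, h2⟩
      show Φ (P c n) = Φ (P c n')
      rw [this]
    have hψφ : ∀ n, ψ (b 0 (n+i)) n = φ n := by
      intro n
      have hex : ∃ n', P (b 0 (n+i)) n n' := ⟨n, fun _ _ => rfl, rfl⟩
      show (if h : ∃ n', P (b 0 (n+i)) n n' then φ (Classical.choose h) else 0) = φ n
      rw [dif_pos hex]
      have := Classical.choose_spec hex
      apply hφ
      intro j hj
      rw [Finset.mem_insert] at hj
      rcases hj with rfl | hj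
      · exact this.2
      · exact this.1 j hj
    have hsi : (fun n => sg (n+i) * F n) ∈ J := by
      have := ht (-i) _ (hs _ (ht i F hF))
      have e : (fun n => (fun n => sg n * (fun n => F (n - i)) n) (n - -i)) =
          (fun n => sg (n+i) * F n) := by
        funext n
        simp only [sub_neg_eq_add, add_sub_cancel_right]
      rwa [e] at this
    have hF1 : (fun n => sg (n+i) * F n - F n) ∈ J := J.sub_mem hsi hF
    have hF0 : (fun n => - F n - sg (n+i) * F n) ∈ J := J.sub_mem (J.neg_mem hF) hsi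
    have r1 := ih (ψ true) (hψ true) _ hF1
    have r0 := ih (ψ false) (hψ false) _ hF0
    have r := J.add_mem r1 r0
    have e : (fun n => φ n * F n) = ((fun n => ψ true n * (sg (n+i) * F n - F n)) +
        (fun n => ψ false n * (- F n - sg (n+i) * F n))) := by
      funext n
      show φ n * F n = ψ true n * (sg (n+i) * F n - F n) + ψ false n * (- F n - sg (n+i) * F n)
      rw [← hψφ n]
      have h3 : (3 : ZMod 3) = 0 := rfl
      rcases hb : b 0 (n+i) with _ | _
      · have : sg (n+i) = 1 := by unfold sg; rw [hb]; simp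
        rw [this]
        linear_combination (ψ false n * F n) * h3
      · have : sg (n+i) = -1 := by unfold sg; rw [hb]; simp
        rw [this]
        linear_combination (ψ true n * F n) * h3
    rw [e]
    exact r

theorem J_mul_WD (J : AddSubgroup (ℤ → ZMod 3)) (hs : ∀ F ∈ J, (fun n => sg n * F n) ∈ J)
    (ht : ∀ k : ℤ, ∀ F ∈ J, (fun n => F (n - k)) ∈ J) (φ : ℤ → ZMod 3) (hφ : WD φ)
    (F : ℤ → ZMod 3) (hF : F ∈ J) : (fun n => φ n * F n) ∈ J := by
  obtain ⟨W, hW⟩ := hφ
  refine J_mul J hs ht (Finset.Icc (-(W:ℤ)) W) φ (fun n n' h => hW n n' fun i hi => ?_) F hF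
  exact h i (by rw [Finset.mem_Icc]; exact abs_le.1 hi)

/-- `A1` is irreducible. -/
theorem A1_irred (J : AddSubgroup (ℤ → ZMod 3)) (hJ : J ≤ A1)
    (hs : ∀ F ∈ J, (fun n => sg n * F n) ∈ J)
    (ht : ∀ k : ℤ, ∀ F ∈ J, (fun n => F (n - k)) ∈ J) (hne : ∃ F ∈ J, F ≠ 0) : A1 ≤ J := by
  obtain ⟨F, hF, hF0⟩ := hne
  obtain ⟨n₀, hn₀⟩ : ∃ n₀, F n₀ ≠ 0 := by
    by_contra hcon
    push Not at hcon
    exact hF0 (funext hcon)
  obtain ⟨W, hW⟩ := hJ hF
  set M := n₀.natAbs + W with hM
  have hlM : ((n₀.natAbs + W : ℕ) : ℤ) < (ell M : ℤ) := by exact_mod_cast ell_gt M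
  set L := ell (M+1) with hL
  have hL0 : (0:ℤ) < (L:ℤ) := by exact_mod_cast ell_pos _
  have hrec : ∀ k : ℤ, F (n₀ + k * (L:ℤ)) = F n₀ := by
    intro k
    apply hW
    intro i hi
    have e : n₀ + k * (L:ℤ) + i = (n₀ + i) + k * (L:ℤ) := by ring
    rw [e]
    apply b_rec M
    · rw [abs_le] at hi
      push_cast at hlM
      have h1 : n₀ ≤ |n₀| := le_abs_self _
      have h2 : -n₀ ≤ |n₀| := neg_le_abs _
      linarith
    · rw [abs_le] at hi
      push_cast at hlM
      have h1 : n₀ ≤ |n₀| := le_abs_self _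
      have h2 : -n₀ ≤ |n₀| := neg_le_abs _
      linarith
  let δ : ℤ → ZMod 3 := fun n => if n % (L:ℤ) = n₀ % (L:ℤ) then 1 else 0
  have hδ : WD δ := by
    apply WD_of_res (M+1) 0
    intro n n' h _
    show (if n % (L:ℤ) = n₀ % (L:ℤ) then (1:ZMod 3) else 0) =
      (if n' % (L:ℤ) = n₀ % (L:ℤ) then (1:ZMod 3) else 0)
    rw [hL, h]
  have hδF : (fun n => δ n * F n) ∈ J := J_mul_WD J hs ht δ hδ F hF
  have hFn : ∀ n, n % (L:ℤ) = n₀ % (L:ℤ) → F n = F n₀ := by
    intro n hn
    have h1 : (n - n₀) % (L:ℤ) = 0 := Int.emod_eq_emod_iff_emod_sub_eq_zero.1 hn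
    obtain ⟨c, hc⟩ := Int.dvd_of_emod_eq_zero h1
    have e : n = n₀ + c * (L:ℤ) := by linarith
    rw [e, hrec]
  have hδJ : δ ∈ J := by
    have e : δ = (F n₀).val • (fun n => δ n * F n) := by
      funext n
      rw [Pi.smul_apply, nsmul_eq_mul, ZMod.natCast_zmod_val]
      show (if n % (L:ℤ) = n₀ % (L:ℤ) then (1:ZMod 3) else 0) =
        F n₀ * ((if n % (L:ℤ) = n₀ % (L:ℤ) then (1:ZMod 3) else 0) * F n)
      split_ifs with h
      · rw [hFn n h, one_mul]
        revert hn₀
        generalize F n₀ = x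
        revert x
        decide
      · rw [zero_mul, mul_zero]
    rw [e]
    exact J.nsmul_mem hδF _
  have hone : (fun _ => (1:ZMod 3)) ∈ J := by
    have e : (fun _ => (1:ZMod 3)) = ∑ i ∈ Finset.range L, (fun n => δ (n - (i:ℤ))) := by
      funext n
      rw [Finset.sum_apply]
      have hr0 := Int.emod_nonneg (n - n₀) hL0.ne'
      have hr1 := Int.emod_lt_of_pos (n - n₀) hL0
      rw [Finset.sum_eq_single (((n - n₀) % (L:ℤ)).toNat)]
      · show (1:ZMod 3) = if (n - ((((n - n₀) % (L:ℤ)).toNat : ℕ) : ℤ)) % (L:ℤ) = n₀ % (L:ℤ) then 1 else 0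
        rw [if_pos]
        rw [Int.toNat_of_nonneg hr0]
        have h1 := Int.mul_ediv_add_emod (n - n₀) (L:ℤ)
        have e : n - (n - n₀) % (L:ℤ) = n₀ + (L:ℤ) * ((n - n₀) / (L:ℤ)) := by linarith
        rw [e, Int.add_mul_emod_self_left]
      · intro i hi hne
        rw [Finset.mem_range] at hi
        show (if (n - (i:ℤ)) % (L:ℤ) = n₀ % (L:ℤ) then (1:ZMod 3) else 0) = 0
        rw [if_neg]
        intro h
        apply hne
        have h1 : ((n - (i:ℤ)) - n₀) % (L:ℤ) = 0 := Int.emod_eq_emod_iff_emod_sub_eq_zero.1 h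
        have h2 : (n - n₀) % (L:ℤ) = (i:ℤ) % (L:ℤ) := by
          apply Int.emod_eq_emod_iff_emod_sub_eq_zero.2
          have e : n - n₀ - (i:ℤ) = (n - (i:ℤ)) - n₀ := by ring
          rw [e]; exact h1
        rw [h2, Int.emod_eq_of_lt (by positivity) (by exact_mod_cast hi), Int.toNat_natCast]
      · intro h
        exfalso
        apply h
        rw [Finset.mem_range]
        omega
    rw [e]
    exact J.sum_mem fun i _ => ht _ _ hδJ
  intro f hf
  have := J_mul_WD J hs ht f hf _ hone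
  simpa using this

end Pool.Agent.H910NM

namespace Pool.Agent.H910NM

open scoped commutatorElement

/-- an action of `V ⋊ ℤ` -/
class Act (W : Type) [AddCommGroup W] where
  act : V → ℤ → W → W
  act_add : ∀ v k w w', act v k (w + w') = act v k w + act v k w'
  act_zero : ∀ w, act 0 0 w = w
  act_act : ∀ v k v' k' w, act v k (act v' k' w) = act (v + sh k v') (k + k') w

/-- the semidirect product `W ⋊ (V ⋊ ℤ)` -/
@[ext] structure SD (W : Type) where
  w : W
  v : V
  k : ℤ

namespace SD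

variable {W : Type} [AddCommGroup W] [Act W]

open Act

noncomputable instance : Mul (SD W) := ⟨fun x y => ⟨x.w + act x.v x.k y.w, x.v + sh x.k y.v, x.k + y.k⟩⟩
noncomputable instance : One (SD W) := ⟨⟨0, 0, 0⟩⟩
noncomputable instance : Inv (SD W) :=
  ⟨fun x => ⟨-(act (-(sh (-x.k) x.v)) (-x.k) x.w), -(sh (-x.k) x.v), -x.k⟩⟩

@[simp] theorem mul_w (x y : SD W) : (x * y).w = x.w + act x.v x.k y.w := rfl
@[simp] theorem mul_v (x y : SD W) : (x * y).v = x.v + sh x.k y.v := rfl
@[simp] theorem mul_k (x y : SD W) : (x * y).k = x.k + y.k := rfl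
@[simp] theorem one_w : (1 : SD W).w = 0 := rfl
@[simp] theorem one_v : (1 : SD W).v = 0 := rfl
@[simp] theorem one_k : (1 : SD W).k = 0 := rfl

theorem act_z (v : V) (k : ℤ) : act v k (0 : W) = 0 := by
  have := act_add v k (0:W) 0
  rw [add_zero] at this
  exact left_eq_add.1 this

theorem act_neg (v : V) (k : ℤ) (w : W) : act v k (-w) = - act v k w := by
  rw [eq_neg_iff_add_eq_zero, ← act_add, neg_add_cancel, act_z]

theorem act_sub (v : V) (k : ℤ) (w w' : W) : act v k (w - w') = act v k w - act v k w' := by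
  rw [sub_eq_add_neg, act_add, act_neg, ← sub_eq_add_neg]

noncomputable instance : Group (SD W) :=
  Group.ofLeftAxioms
    (by
      intro x y z
      ext1
      · simp only [mul_w, mul_v, mul_k, act_add, act_act, add_assoc]
      · simp only [mul_v, mul_k, map_add, sh_sh, add_assoc]
      · simp only [mul_k, add_assoc])
    (by
      intro x
      ext1
      · simp only [mul_w, one_w, one_v, one_k, act_zero, zero_add]
      · simp only [mul_v, one_v, one_k, sh_zero, zero_add]
      · simp only [mul_k, one_k, zero_add])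
    (by
      intro x
      have e1 : (x⁻¹).w = -(act (-(sh (-x.k) x.v)) (-x.k) x.w) := rfl
      have e2 : (x⁻¹).v = -(sh (-x.k) x.v) := rfl
      have e3 : (x⁻¹).k = -x.k := rfl
      ext1
      · simp only [mul_w, e1, e2, e3, one_w, neg_add_cancel]
      · simp only [mul_v, e2, e3, one_v, neg_add_cancel]
      · simp only [mul_k, e3, one_k, neg_add_cancel])

@[simp] theorem inv_w (x : SD W) : (x⁻¹).w = -(act (-(sh (-x.k) x.v)) (-x.k) x.w) := rfl
@[simp] theorem inv_v (x : SD W) : (x⁻¹).v = -(sh (-x.k) x.v) := rfl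
@[simp] theorem inv_k (x : SD W) : (x⁻¹).k = -x.k := rfl

theorem conj_w (g : SD W) (a : W) :
    g * ⟨a, 0, 0⟩ * g⁻¹ = ⟨act g.v g.k a, 0, 0⟩ := by
  rw [mul_inv_eq_iff_eq_mul]
  ext1
  · simp only [mul_w, act_zero]
    abel
  · simp only [mul_v, map_zero, sh_zero, add_zero, zero_add]
  · simp only [mul_k, add_zero, zero_add]

theorem comm_k (x y : SD W) : (⁅x, y⁆).k = 0 := by
  rw [commutatorElement_def]
  simp only [mul_k, inv_k]
  ring

/-- commutator with an element of the `V`-part -/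
theorem comm_v (x y : SD W) (hx : x.k = 0) : (⁅x, y⁆).v = x.v - sh y.k x.v := by
  rw [commutatorElement_def]
  simp only [mul_k, mul_v, inv_k, inv_v, hx, zero_add, map_neg, sh_sh, add_neg_cancel,
    neg_zero, sh_zero, add_zero]
  abel

instance solv : Group.IsSolvable (SD W) := by
  let K0 : Subgroup (SD W) :=
    { carrier := {x | x.k = 0}
      one_mem' := rfl
      mul_mem' := by
        intro x y hx hy
        have hx' : x.k = 0 := hx
        have hy' : y.k = 0 := hy
        show (x * y).k = 0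
        rw [mul_k, hx', hy', add_zero]
      inv_mem' := by
        intro x hx
        have hx' : x.k = 0 := hx
        show (x⁻¹).k = 0
        rw [inv_k, hx', neg_zero] }
  let K1 : Subgroup (SD W) :=
    { carrier := {x | x.k = 0 ∧ x.v = 0}
      one_mem' := ⟨rfl, rfl⟩
      mul_mem' := by
        rintro x y ⟨hx, hx2⟩ ⟨hy, hy2⟩
        refine ⟨?_, ?_⟩
        · rw [mul_k, hx, hy, add_zero]
        · rw [mul_v, hx2, hy2, map_zero, add_zero]
      inv_mem' := by
        rintro x ⟨hx, hx2⟩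
        refine ⟨?_, ?_⟩
        · rw [inv_k, hx, neg_zero]
        · rw [inv_v, hx2, map_zero, neg_zero] }
  have h1 : derivedSeries (SD W) 1 ≤ K0 := by
    rw [derivedSeries_succ, Subgroup.commutator_le]
    intro x _ y _
    exact comm_k x y
  have h2 : derivedSeries (SD W) 2 ≤ K1 := by
    rw [derivedSeries_succ, Subgroup.commutator_le]
    intro x hx y hy
    have hx' : x.k = 0 := h1 hx
    have hy' : y.k = 0 := h1 hy
    refine ⟨comm_k x y, ?_⟩
    rw [comm_v x y hx', hy', sh_zero, sub_self]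
  have h3 : derivedSeries (SD W) 3 ≤ ⊥ := by
    rw [derivedSeries_succ, Subgroup.commutator_le]
    intro x hx y hy
    obtain ⟨hx1, hx2⟩ := h2 hx
    obtain ⟨hy1, hy2⟩ := h2 hy
    rw [Subgroup.mem_bot, commutatorElement_eq_one_iff_mul_comm]
    ext1
    · simp only [mul_w, hx1, hx2, hy1, hy2, act_zero]
      exact add_comm _ _
    · simp only [mul_v, hx1, hx2, hy1, hy2, map_zero]
    · simp only [mul_k, hx1, hy1]
  exact ⟨⟨3, le_bot_iff.1 h3⟩⟩

end SD

/-! ### the two actions -/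

/-- the sign character attached to an element of `V` -/
noncomputable def S (u : V) (n : ℤ) : ZMod 3 := u.prod fun i a => sg (n - i) ^ a.val

theorem S_zero (n : ℤ) : S 0 n = 1 := by simp [S]

theorem S_single (i : ℤ) (a : ZMod 2) (n : ℤ) :
    S (Finsupp.single i a) n = sg (n - i) ^ a.val := by
  unfold S
  rw [Finsupp.prod_single_index]
  simp

theorem S_add (u u' : V) (n : ℤ) : S (u + u') n = S u n * S u' n := by
  unfold S
  refine Finsupp.prod_add_index' (fun i => by simp) ?_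
  intro i x y
  have h := sg_sq (n - i)
  rw [← sq] at h
  fin_cases x <;> fin_cases y
  · show sg (n - i) ^ 0 = sg (n-i) ^ 0 * sg (n-i) ^ 0
    rw [← pow_add]
  · show sg (n - i) ^ 1 = sg (n-i) ^ 0 * sg (n-i) ^ 1
    rw [← pow_add]
  · show sg (n - i) ^ 1 = sg (n-i) ^ 1 * sg (n-i) ^ 0
    rw [← pow_add]
  · show sg (n - i) ^ 0 = sg (n-i) ^ 1 * sg (n-i) ^ 1
    rw [← pow_add, pow_zero]
    exact h.symm

theorem S_sh (k : ℤ) (u : V) (n : ℤ) : S (sh k u) n = S u (n - k) := by
  induction u using Finsupp.induction_linear with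
  | zero => rw [map_zero, S_zero, S_zero]
  | add f g hf hg => rw [map_add, S_add, S_add, hf, hg]
  | single i a =>
    have : sh k (Finsupp.single i a) = Finsupp.single (i + k) a := by
      ext j
      rw [sh_apply, Finsupp.single_apply, Finsupp.single_apply]
      congr 1
      apply propext
      constructor <;> intro h <;> linarith
    rw [this, S_single, S_single]
    congr 2
    ring

theorem S_sq (u : V) (n : ℤ) : S u n * S u n = 1 := by
  rw [← S_add, V_add_self, S_zero]

abbrev W1 := ℤ → ZMod 3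
abbrev W2 := V → ZMod 2

noncomputable instance : Act W1 where
  act u k f := fun n => S u n * f (n - k)
  act_add := by
    intro v k w w'
    funext n
    show S v n * (w (n-k) + w' (n-k)) = S v n * w (n-k) + S v n * w' (n-k)
    ring
  act_zero := by
    intro w
    funext n
    show S 0 n * w (n - 0) = w n
    rw [S_zero, one_mul, sub_zero]
  act_act := by
    intro v k v' k' w
    funext n
    show S v n * (S v' (n-k) * w (n-k-k')) = S (v + sh k v') n * w (n - (k+k'))
    rw [S_add, S_sh]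
    have : n - k - k' = n - (k+k') := by ring
    rw [this]; ring

noncomputable instance : Act W2 where
  act v k m := fun y => m (sh (-k) (y + v))
  act_add := by
    intro v k w w'
    rfl
  act_zero := by
    intro w
    funext y
    show w (sh (-0) (y + 0)) = w y
    rw [neg_zero, sh_zero, add_zero]
  act_act := by
    intro v k v' k' w
    funext y
    show w (sh (-k') (sh (-k) (y + v) + v')) = w (sh (-(k+k')) (y + (v + sh k v')))
    have e1 : -k' + -k = -(k+k') := by ring
    have e2 : -(k+k') + k = -k' := by ring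
    rw [map_add, sh_sh, ← add_assoc, map_add _ (y+v), sh_sh, e1, e2]

theorem act1_apply (u : V) (k : ℤ) (f : W1) (n : ℤ) : Act.act u k f n = S u n * f (n - k) := rfl

theorem act2_apply (v : V) (k : ℤ) (m : W2) (y : V) : Act.act v k m y = m (sh (-k) (y + v)) := rfl

theorem A1_act (u : V) (k : ℤ) (f : W1) (hf : f ∈ A1) : (Act.act u k f : W1) ∈ A1 := by
  have h : ∀ u : V, WD (fun n => S u n) := by
    intro u
    induction u using Finsupp.induction_linear with
    | zero =>
      have : (fun n => S 0 n) = fun _ => (1:ZMod 3) := funext fun n => S_zero n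
      rw [this]; exact WD_const 1
    | add f g hf hg =>
      have : (fun n => S (f+g) n) = fun n => S f n * S g n := funext fun n => S_add f g n
      rw [this]; exact WD_mul hf hg
    | single i a =>
      obtain ⟨W, hW⟩ := WD_shift i WD_sg
      refine ⟨W, fun n n' h => ?_⟩
      show S (Finsupp.single i a) n = S (Finsupp.single i a) n'
      rw [S_single, S_single]
      congr 1
      exact hW n n' h
  exact WD_mul (h u) (WD_shift k hf)

/-- solving the cocycle equation for arbitrary `u` -/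
theorem exists_cocycle_u (k : ℕ) (hk : 1 ≤ k) (u : V) :
    ∃ g : ℤ → ZMod 3, WD g ∧ (∀ n, g n * g n = 1) ∧ ∀ n, S u n * g (n - (k:ℤ)) = g n := by
  obtain ⟨g₀, h1, h2, h3⟩ := exists_cocycle k hk
  induction u using Finsupp.induction_linear with
  | zero =>
    exact ⟨fun _ => 1, WD_const 1, fun _ => one_mul _, fun n => by rw [S_zero, one_mul]⟩
  | add f g hf hg =>
    obtain ⟨gf, a1, a2, a3⟩ := hf
    obtain ⟨gg, b1, b2, b3⟩ := hg
    refine ⟨fun n => gf n * gg n, WD_mul a1 b1, fun n => ?_, fun n => ?_⟩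
    · show gf n * gg n * (gf n * gg n) = 1
      linear_combination (gg n * gg n) * a2 n + b2 n
    · show S (f+g) n * (gf (n-k) * gg (n-k)) = gf n * gg n
      rw [S_add, ← a3 n, ← b3 n]; ring
  | single i a =>
    refine ⟨fun n => g₀ (n - i) ^ a.val, ?_, fun n => ?_, fun n => ?_⟩
    · obtain ⟨W, hW⟩ := WD_shift i h1
      refine ⟨W, fun n n' h => ?_⟩
      show g₀ (n - i) ^ a.val = g₀ (n' - i) ^ a.val
      congr 1
      exact hW n n' h
    · show g₀ (n - i) ^ a.val * g₀ (n - i) ^ a.val = 1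
      rw [← mul_pow, h2, one_pow]
    · show S (Finsupp.single i a) n * g₀ (n - k - i) ^ a.val = g₀ (n - i) ^ a.val
      rw [S_single, ← mul_pow, ← h3 (n - i)]
      congr 3
      ring

end Pool.Agent.H910NM

namespace Pool.Agent.H910NM

open scoped commutatorElement

section
variable {G M : Type*} [Group G] [AddCommGroup M] (ι : M → G) (ρ : G → M → M)
  (hadd : ∀ a b, ι (a+b) = ι a * ι b) (hinj : Function.Injective ι)
  (hconj : ∀ g a, g * ι a * g⁻¹ = ι (ρ g a))

include hadd hinj hconj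

theorem rho_mul (g h : G) (a : M) : ρ (g*h) a = ρ g (ρ h a) := by
  apply hinj
  rw [← hconj, ← hconj, ← hconj]
  group

theorem rho_one (a : M) : ρ 1 a = a := by
  apply hinj
  rw [← hconj]
  group

theorem rho_sub (g : G) (a b : M) : ρ g (a - b) = ρ g a - ρ g b := by
  rw [sub_eq_add_neg, rho_add ι ρ hadd hinj hconj, rho_neg ι ρ hadd hinj hconj, ← sub_eq_add_neg]

theorem Zx_stable (x : G) (i : ℕ) (b : M) (hb : b ∈ Zm ρ {x} i) : ρ x b ∈ Zm ρ {x} i := by
  have h1 := Zm_mono_succ ι ρ hadd hinj hconj {x} i b hb x rfl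
  have h2 := Zm_add_mem ι ρ hadd hinj hconj {x} i _ _ h1 hb
  rwa [sub_add_cancel] at h2

theorem Zx_stable_inv (x : G) : ∀ i : ℕ, ∀ b : M, b ∈ Zm ρ {x} i → ρ x⁻¹ b ∈ Zm ρ {x} i := by
  intro i
  induction i with
  | zero =>
    intro b hb
    have : b = 0 := hb
    rw [this, rho_zero ι ρ hadd hinj hconj]
    exact rfl
  | succ i ih =>
    intro b hb h hh
    have hh' : h = x := hh
    subst hh'
    have e : ρ h (ρ h⁻¹ b) - ρ h⁻¹ b = ρ h⁻¹ (ρ h b - b) := by
      rw [rho_sub ι ρ hadd hinj hconj, ← rho_mul ι ρ hadd hinj hconj,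
        ← rho_mul ι ρ hadd hinj hconj, mul_inv_cancel, inv_mul_cancel]
    rw [e]
    exact ih _ (hb h rfl)

theorem Zx_npow (x : G) (i : ℕ) (a : M) (ha : a ∈ Zm ρ {x} (i+1)) :
    ∀ j : ℕ, ρ (x^j) a - a ∈ Zm ρ {x} i := by
  intro j
  induction j with
  | zero =>
    rw [pow_zero, rho_one ι ρ hadd hinj hconj, sub_self]
    exact Zm_zero_mem ι ρ hadd hinj hconj _ _
  | succ j ih =>
    have h1 := Zx_stable ι ρ hadd hinj hconj x i _ ih
    have h2 := Zm_add_mem ι ρ hadd hinj hconj {x} i _ _ h1 (ha x rfl)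
    have e : ρ x (ρ (x^j) a - a) + (ρ x a - a) = ρ (x^(j+1)) a - a := by
      rw [rho_sub ι ρ hadd hinj hconj, pow_succ', rho_mul ι ρ hadd hinj hconj]
      abel
    rwa [e] at h2

theorem Zx_inv (x : G) (i : ℕ) (a : M) (ha : a ∈ Zm ρ {x} (i+1)) :
    ∀ j : ℕ, ρ ((x^j)⁻¹) a - a ∈ Zm ρ {x} i := by
  intro j
  induction j with
  | zero =>
    rw [pow_zero, inv_one, rho_one ι ρ hadd hinj hconj, sub_self]
    exact Zm_zero_mem ι ρ hadd hinj hconj _ _
  | succ j ih =>
    have h1 := Zx_stable_inv ι ρ hadd hinj hconj x i _ ih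
    have h0 : ρ x⁻¹ a - a ∈ Zm ρ {x} i := by
      have h3 := Zx_stable_inv ι ρ hadd hinj hconj x i _ (ha x rfl)
      have h4 := Zm_neg_mem ι ρ hadd hinj hconj {x} i _ h3
      have e : -ρ x⁻¹ (ρ x a - a) = ρ x⁻¹ a - a := by
        rw [rho_sub ι ρ hadd hinj hconj, ← rho_mul ι ρ hadd hinj hconj, inv_mul_cancel,
          rho_one ι ρ hadd hinj hconj]
        abel
      rwa [e] at h4
    have h2 := Zm_add_mem ι ρ hadd hinj hconj {x} i _ _ h1 h0
    have e : ρ x⁻¹ (ρ ((x^j)⁻¹) a - a) + (ρ x⁻¹ a - a) = ρ ((x^(j+1))⁻¹) a - a := by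
      rw [rho_sub ι ρ hadd hinj hconj, pow_succ, mul_inv_rev, rho_mul ι ρ hadd hinj hconj]
      abel
    rwa [e] at h2

theorem Zx_zpow (x : G) (i : ℕ) (a : M) (ha : a ∈ Zm ρ {x} (i+1)) (j : ℤ) :
    ρ (x^j) a - a ∈ Zm ρ {x} i := by
  obtain ⟨n, rfl | rfl⟩ := j.eq_nat_or_neg
  · rw [zpow_natCast]
    exact Zx_npow ι ρ hadd hinj hconj x i a ha n
  · rw [zpow_neg, zpow_natCast]
    exact Zx_inv ι ρ hadd hinj hconj x i a ha n

theorem Zx_sub_ZH (x : G) (H : Set G) (hact : ∀ h ∈ H, ∃ j : ℤ, ∀ a, ρ h a = ρ (x^j) a) :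
    ∀ i, ∀ a, a ∈ Zm ρ {x} i → a ∈ Zm ρ H i := by
  intro i
  induction i with
  | zero => exact fun a ha => ha
  | succ i ih =>
    intro a ha h hh
    obtain ⟨j, hj⟩ := hact h hh
    rw [hj]
    exact ih _ (Zx_zpow ι ρ hadd hinj hconj x i a ha j)

theorem ZH_sub_Zx (x : G) (H : Set G) (hx : x ∈ H) :
    ∀ i, ∀ a, a ∈ Zm ρ H i → a ∈ Zm ρ {x} i := by
  intro i
  induction i with
  | zero => exact fun a ha => ha
  | succ i ih =>
    intro a ha h hh
    have hh' : h = x := hh
    subst hh'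
    exact ih _ (ha h hx)

end

/-- the restricted action on `A1` -/
noncomputable def rho1 (x : SD W1) (a : A1) : A1 := ⟨Act.act x.v x.k a.1, A1_act _ _ _ a.2⟩

/-- the difference operator of step `k` -/
def Dk (k : ℤ) (φ : ℤ → ZMod 3) : ℤ → ZMod 3 := fun n => φ (n - k) - φ n

/-- vanishing of high differences of periodic functions -/
theorem Dk_vanish (k : ℤ) (e : ℕ) (φ : ℤ → ZMod 3) (hφ : ∀ n, φ (n - (3^e : ℕ) * k) = φ n) :
    (Dk k)^[3^e] φ = 0 := by
  let E : Module.End (ZMod 3) (ℤ → ZMod 3) := LinearMap.funLeft (ZMod 3) (ZMod 3) (fun n => n - k)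
  have hE : ∀ f : ℤ → ZMod 3, ∀ n, E f n = f (n - k) := fun f n => rfl
  have hEpow : ∀ j : ℕ, ∀ f : ℤ → ZMod 3, ∀ n, (E^j) f n = f (n - j * k) := by
    intro j
    induction j with
    | zero => intro f n; simp
    | succ j ih =>
      intro f n
      rw [pow_succ, Module.End.mul_apply, ih, hE]
      congr 1; push_cast; ring
  have hD : ∀ j : ℕ, ∀ f : ℤ → ZMod 3, (Dk k)^[j] f = ((E - 1)^j) f := by
    intro j
    induction j with
    | zero => intro f; simp
    | succ j ih =>
      intro f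
      rw [Function.iterate_succ_apply, ih, pow_succ, Module.End.mul_apply]
      congr 1
  have hF : Fact (Nat.Prime 3) := ⟨Nat.prime_three⟩
  have hpoly : (Polynomial.X - 1 : Polynomial (ZMod 3))^(3^e) = Polynomial.X^(3^e) - 1 := by
    rw [sub_pow_char_pow, one_pow]
  have hEq : (E - 1)^(3^e) = E^(3^e) - 1 := by
    have := congrArg (Polynomial.aeval E) hpoly
    simpa using this
  rw [hD, hEq]
  funext n
  show (E^(3^e)) φ n - φ n = 0
  rw [hEpow, hφ, sub_self]

/-- non-vanishing of low differences of the indicator of a subgroup -/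
theorem Dk_nonvanish (k : ℤ) (hk : k ≠ 0) (c : ℕ) (i : ℕ) :
    i < c → ((∀ n : ℤ, (∀ l : ℕ, l ≤ i → ¬ ((c:ℤ) * k ∣ n - l * k)) →
        (Dk k)^[i] (fun n => if (c:ℤ) * k ∣ n then 1 else 0) n = 0) ∧
      (Dk k)^[i] (fun n => if (c:ℤ) * k ∣ n then 1 else 0) (i * k) = 1) := by
  induction i with
  | zero =>
    intro hi
    refine ⟨fun n h => ?_, ?_⟩
    · rw [Function.iterate_zero, id_eq, if_neg]
      have := h 0 le_rfl
      simpa using this
    · rw [Function.iterate_zero, id_eq, if_pos]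
      simp
  | succ i ih =>
    intro hi
    obtain ⟨h1, h2⟩ := ih (by omega)
    refine ⟨fun n h => ?_, ?_⟩
    · rw [Function.iterate_succ_apply']
      show (Dk k)^[i] _ (n - k) - (Dk k)^[i] _ n = 0
      rw [h1, h1, sub_self]
      · intro l hl; exact h l (by omega)
      · intro l hl hdvd
        apply h (l+1) (by omega)
        have e : n - ((l+1:ℕ):ℤ) * k = n - k - l * k := by push_cast; ring
        rw [e]; exact hdvd
    · rw [Function.iterate_succ_apply']
      show (Dk k)^[i] _ (((i+1:ℕ):ℤ) * k - k) - (Dk k)^[i] _ (((i+1:ℕ):ℤ) * k) = 1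
      have e : ((i+1:ℕ):ℤ) * k - k = i * k := by push_cast; ring
      rw [e, h2, h1, sub_zero]
      intro l hl hdvd
      have e2 : ((i+1:ℕ):ℤ) * k - l * k = (((i+1:ℕ):ℤ) - l) * k := by ring
      rw [e2] at hdvd
      have h3 := (mul_dvd_mul_iff_right hk).1 hdvd
      have h4 := Int.le_of_dvd (by push_cast; omega) h3
      push_cast at h4
      omega

/-- the key height statement for elements with non-trivial image in `ℤ` -/
theorem height1 {G : Type} [Group G] (p : G →* SD W1) (ι : A1 → G)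
    (hadd : ∀ a b, ι (a+b) = ι a * ι b) (hinj : Function.Injective ι)
    (hconj : ∀ g a, g * ι a * g⁻¹ = ι (rho1 (p g) a))
    (H : Subgroup G) (hH : Group.IsNilpotent H) (h₀ : G) (hh₀ : h₀ ∈ H) (hk₀ : (p h₀).k ≠ 0)
    (n : ℕ) :
    ∃ a : A1, (∃ m, a ∈ Zm (fun g => rho1 (p g)) (H : Set G) m) ∧
      a ∉ Zm (fun g => rho1 (p g)) (H : Set G) n := by
  obtain ⟨c, hc⟩ := (Subgroup.isNilpotent_iff_lowerCentralSeries H).1 hH
  -- elements of `H` with trivial image in `ℤ` have trivial `V`-part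
  have fact1 : ∀ i, i ≤ c → ∀ h ∈ H.lowerCentralSeries (c - i), (p h).k = 0 → (p h).v = 0 := by
    intro i
    induction i with
    | zero =>
      intro _ h hh _
      rw [Nat.sub_zero, hc, Subgroup.mem_bot] at hh
      rw [hh, map_one]; rfl
    | succ i ih =>
      intro hi h hh hk
      have e : c - i = (c - (i+1)) + 1 := by omega
      have h1 : ⁅h, h₀⁆ ∈ H.lowerCentralSeries (c - i) := by
        rw [e, Subgroup.lowerCentralSeries_succ]
        exact Subgroup.commutator_mem_commutator hh hh₀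
      have h2 := ih (by omega) _ h1 (by rw [map_commutatorElement]; exact SD.comm_k _ _)
      rw [map_commutatorElement, SD.comm_v _ _ hk] at h2
      exact sh_sub_inj _ hk₀ _ (sub_eq_zero.1 h2).symm
  have fact1' : ∀ h ∈ H, (p h).k = 0 → (p h).v = 0 := by
    intro h hh hk
    refine fact1 c le_rfl h ?_ hk
    rw [Nat.sub_self, Subgroup.lowerCentralSeries_zero]; exact hh
  -- a generator modulo the kernel
  have hzk : ∀ (x : SD W1) (j : ℤ), (x^j).k = j * x.k := by
    intro x j
    let f : SD W1 →* Multiplicative ℤ :=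
      { toFun := fun x => Multiplicative.ofAdd x.k
        map_one' := rfl
        map_mul' := fun x y => rfl }
    have := map_zpow f x j
    have h2 := congrArg Multiplicative.toAdd this
    rw [toAdd_zpow] at h2
    have h3 : (x^j).k = j • x.k := h2
    rw [h3, smul_eq_mul]
  have hex : ∃ N : ℕ, 0 < N ∧ ∃ x ∈ H, (p x).k = (N:ℤ) := by
    rcases lt_or_gt_of_ne hk₀ with h | h
    · refine ⟨(p h₀).k.natAbs, Int.natAbs_pos.2 hk₀, h₀⁻¹, inv_mem hh₀, ?_⟩
      rw [map_inv, SD.inv_k]; omega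
    · exact ⟨(p h₀).k.natAbs, Int.natAbs_pos.2 hk₀, h₀, hh₀, by omega⟩
  classical
  set N := Nat.find hex with hN
  obtain ⟨hNpos, x, hxH, hxk⟩ := Nat.find_spec hex
  have hmin : ∀ h ∈ H, ∃ j : ℤ, (p h).k = j * (N:ℤ) := by
    intro h hh
    refine ⟨(p h).k / (N:ℤ), ?_⟩
    have hNz : (0:ℤ) < (N:ℤ) := by exact_mod_cast hNpos
    have hr0 := Int.emod_nonneg (p h).k hNz.ne'
    have hr1 := Int.emod_lt_of_pos (p h).k hNz
    have hdm := Int.mul_ediv_add_emod (p h).k (N:ℤ)
    have hr : (p h).k % (N:ℤ) = 0 := by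
      by_contra hne
      have hlt : ((p h).k % (N:ℤ)).toNat < N := by omega
      apply Nat.find_min hex hlt
      refine ⟨by omega, h * x^(-((p h).k / (N:ℤ))), mul_mem hh (zpow_mem hxH _), ?_⟩
      rw [map_mul, SD.mul_k, map_zpow, hzk, hxk, Int.toNat_of_nonneg hr0]
      linarith
    rw [hr, add_zero] at hdm
    rw [mul_comm]; exact hdm.symm
  have hact : ∀ h ∈ (H : Set G), ∃ j : ℤ, ∀ a, rho1 (p h) a = rho1 (p (x^j)) a := by
    intro h hh
    obtain ⟨j, hj⟩ := hmin h hh
    refine ⟨j, fun a => ?_⟩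
    have h1 : h * (x^j)⁻¹ ∈ H := mul_mem hh (inv_mem (zpow_mem hxH _))
    have h2 : (p (h * (x^j)⁻¹)).k = 0 := by
      rw [map_mul, map_inv, SD.mul_k, SD.inv_k, map_zpow, hzk, hxk, hj]
      ring
    have h3 := fact1' _ h1 h2
    have e : h = (h * (x^j)⁻¹) * x^j := by group
    have hρ1 : ∀ b, rho1 (p (h * (x^j)⁻¹)) b = b := by
      intro b
      apply Subtype.ext
      show Act.act (p (h * (x^j)⁻¹)).v (p (h * (x^j)⁻¹)).k b.1 = b.1
      rw [h2, h3, Act.act_zero]
    have := rho_mul ι (fun g => rho1 (p g)) hadd hinj hconj (h * (x^j)⁻¹) (x^j) a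
    rw [← e] at this
    have this' : rho1 (p h) a = rho1 (p (h * (x^j)⁻¹)) (rho1 (p (x^j)) a) := this
    rw [this', hρ1]
  -- the special vectors
  obtain ⟨g, hg1, hg2, hg3⟩ := exists_cocycle_u N hNpos (p x).v
  set c₃ : ℕ := 3^n with hc3
  have hc3n : n < c₃ := Nat.lt_pow_self (by norm_num)
  have hc3pos : 0 < c₃ := by positivity
  set K : ℕ := c₃ * N with hK
  have hKpos : 0 < K := Nat.mul_pos hc3pos hNpos
  let φ : ℤ → ZMod 3 := fun n => if (c₃:ℤ) * (N:ℤ) ∣ n then 1 else 0
  have hφWD : WD φ := by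
    apply WD_of_res K 0
    intro n n' h _
    have hd : ((K:ℕ):ℤ) ∣ (ell K : ℤ) := by exact_mod_cast dvd_ell K hKpos
    have hKz : ((K:ℕ):ℤ) = (c₃:ℤ) * (N:ℤ) := by rw [hK]; push_cast; ring
    have h2 : (K:ℤ) ∣ n - n' := hd.trans (Int.ModEq.dvd (show n' ≡ n [ZMOD (ell K : ℤ)] from h.symm))
    show (if (c₃:ℤ) * (N:ℤ) ∣ n then (1:ZMod 3) else 0) = if (c₃:ℤ) * (N:ℤ) ∣ n' then 1 else 0
    rw [hKz] at h2
    congr 1
    apply propext
    constructor
    · intro h3
      have := dvd_sub h3 h2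
      rwa [sub_sub_cancel] at this
    · intro h3
      have := dvd_add h3 h2
      rwa [add_sub_cancel] at this
  let a : A1 := ⟨fun n => g n * φ n, WD_mul hg1 hφWD⟩
  -- iterates
  let D : W1 → W1 := fun f => Act.act (p x).v (p x).k f - f
  have hZ : ∀ i, ∀ b : A1, b ∈ Zm (fun g => rho1 (p g)) {x} i ↔ D^[i] b.1 = 0 := by
    intro i
    induction i with
    | zero =>
      intro b
      rw [Function.iterate_zero, id_eq]
      constructor
      · intro h
        have : b = 0 := h
        rw [this]; rfl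
      · intro h
        have : b = 0 := Subtype.ext h
        exact this
    | succ i ih =>
      intro b
      rw [Function.iterate_succ_apply]
      have h1 := ih (rho1 (p x) b - b)
      have h2 : (rho1 (p x) b - b).1 = D b.1 := rfl
      rw [h2] at h1
      rw [← h1]
      constructor
      · intro h; exact h x rfl
      · intro h y hy
        have hy' : y = x := hy
        subst hy'
        exact h
  have hDg : ∀ i, ∀ ψ : ℤ → ZMod 3, D^[i] (fun n => g n * ψ n) =
      fun n => g n * ((Dk (N:ℤ))^[i] ψ) n := by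
    intro i
    induction i with
    | zero => intro ψ; rfl
    | succ i ih =>
      intro ψ
      rw [Function.iterate_succ_apply, Function.iterate_succ_apply, ← ih]
      congr 1
      funext n
      show S (p x).v n * (g (n - (p x).k) * ψ (n - (p x).k)) - g n * ψ n =
        g n * (ψ (n - (N:ℤ)) - ψ n)
      rw [hxk, ← hN]
      linear_combination (ψ (n - (N:ℤ))) * hg3 n
  refine ⟨a, ⟨c₃, ?_⟩, ?_⟩
  · apply Zx_sub_ZH ι (fun g => rho1 (p g)) hadd hinj hconj x (H : Set G) hact
    rw [hZ]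
    show D^[c₃] (fun n => g n * φ n) = 0
    rw [hDg, hc3, Dk_vanish]
    · funext n; simp
    · intro m
      show (if (c₃:ℤ) * (N:ℤ) ∣ m - ((3^n:ℕ):ℤ) * (N:ℤ) then (1:ZMod 3) else 0) =
        if (c₃:ℤ) * (N:ℤ) ∣ m then 1 else 0
      rw [← hc3]
      congr 1
      apply propext
      exact dvd_sub_self_right
  · intro hcon
    have h1 := ZH_sub_Zx ι (fun g => rho1 (p g)) hadd hinj hconj x (H : Set G) hxH n a hcon
    rw [hZ] at h1
    have h2 : D^[n] (fun n => g n * φ n) = 0 := h1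
    rw [hDg] at h2
    have h3 := congrFun h2 ((n:ℤ) * (N:ℤ))
    have h4 := (Dk_nonvanish (N:ℤ) (by exact_mod_cast hNpos.ne') c₃ n hc3n).2
    have h5 : g ((n:ℤ) * (N:ℤ)) * 1 = 0 := by
      rw [← h4]; exact h3
    rw [mul_one] at h5
    have h6 := hg2 ((n:ℤ) * (N:ℤ))
    rw [h5, mul_zero] at h6
    exact absurd h6 (by decide)

end Pool.Agent.H910NM

namespace Pool.Agent.H910NM

open Classical in
/-- indicator of the powers of two -/
noncomputable def pw (x : ℤ) : ZMod 2 := if ∃ e : ℕ, x = 2^e then 1 else 0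

theorem pw_nonpos (x : ℤ) (hx : x ≤ 0) : pw x = 0 := by
  unfold pw
  rw [if_neg]
  rintro ⟨e, he⟩
  have : (0:ℤ) < 2^e := by positivity
  omega

theorem pw_pow (e : ℕ) : pw (2^e) = 1 := by
  unfold pw
  rw [if_pos ⟨e, rfl⟩]

theorem pw_near (e : ℕ) (d : ℤ) (h1 : -(2^e : ℤ) < d) (h2 : d < 2^e) (h3 : d ≠ 0) :
    pw (2^(e+1) + d) = 0 := by
  unfold pw
  rw [if_neg]
  rintro ⟨f, hf⟩
  have he : (2:ℤ)^(e+1) = 2^e + 2^e := by ring
  rcases lt_trichotomy f (e+1) with h | h | h
  · have : (2:ℤ)^f ≤ 2^e := pow_le_pow_right₀ (by norm_num) (by omega)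
    omega
  · subst h; omega
  · have : (2:ℤ)^(e+2) ≤ 2^f := pow_le_pow_right₀ (by norm_num) (by omega)
    have he2 : (2:ℤ)^(e+2) = 2^e + 2^e + 2^e + 2^e := by ring
    omega

theorem pw_gap (e : ℕ) (d : ℤ) (h1 : -(2^e : ℤ) < d) (h2 : d < 2^e) :
    pw (3 * 2^e + d) = 0 := by
  unfold pw
  rw [if_neg]
  rintro ⟨f, hf⟩
  have he : (2:ℤ)^(e+1) = 2^e + 2^e := by ring
  have he2 : (2:ℤ)^(e+2) = 2^e + 2^e + 2^e + 2^e := by ring
  rcases le_or_gt f (e+1) with h | h
  · have : (2:ℤ)^f ≤ 2^(e+1) := pow_le_pow_right₀ (by norm_num) h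
    omega
  · have : (2:ℤ)^(e+2) ≤ 2^f := pow_le_pow_right₀ (by norm_num) (by omega)
    omega

/-! ### order -/

/-- lowest position of the support -/
noncomputable def ord (y : V) : ℤ :=
  if h : y.support.Nonempty then y.support.min' h else 0

theorem ord_spec (y : V) (hy : y ≠ 0) : y (ord y) ≠ 0 ∧ ∀ j < ord y, y j = 0 := by
  have h : y.support.Nonempty := Finsupp.support_nonempty_iff.2 hy
  have e : ord y = y.support.min' h := by unfold ord; rw [dif_pos h]
  rw [e]
  refine ⟨Finsupp.mem_support_iff.1 (Finset.min'_mem _ _), fun j hj => ?_⟩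
  by_contra hne
  have := Finset.min'_le y.support j (Finsupp.mem_support_iff.2 hne)
  omega

theorem ord_unique (y : V) (o : ℤ) (h1 : y o ≠ 0) (h2 : ∀ j < o, y j = 0) : ord y = o := by
  have hy : y ≠ 0 := by rintro rfl; exact h1 rfl
  obtain ⟨a1, a2⟩ := ord_spec y hy
  rcases lt_trichotomy (ord y) o with h | h | h
  · exact absurd (h2 _ h) a1
  · exact h
  · exact absurd (a2 _ h) h1

theorem exists_below (v : V) : ∃ K : ℤ, ∀ j < K, v j = 0 := by
  by_cases hv : v = 0
  · exact ⟨0, fun j _ => by rw [hv]; rfl⟩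
  · exact ⟨ord v, (ord_spec v hv).2⟩

theorem exists_above (v : V) : ∃ K : ℤ, ∀ j, K ≤ j → v j = 0 := by
  obtain ⟨K, hK⟩ := v.support.bddAbove
  refine ⟨K+1, fun j hj => ?_⟩
  by_contra hne
  have := hK (Finsupp.mem_support_iff.2 hne)
  omega

theorem exists_top (v : V) (hv : v ≠ 0) : ∃ d : ℤ, v d ≠ 0 ∧ ∀ j, d < j → v j = 0 := by
  have h : v.support.Nonempty := Finsupp.support_nonempty_iff.2 hv
  refine ⟨v.support.max' h, Finsupp.mem_support_iff.1 (Finset.max'_mem _ _), fun j hj => ?_⟩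
  by_contra hne
  have := Finset.le_max' v.support j (Finsupp.mem_support_iff.2 hne)
  omega

theorem ord_single (o : ℤ) : ord (Finsupp.single o 1) = o := by
  apply ord_unique
  · rw [Finsupp.single_eq_same]; exact one_ne_zero
  · intro j hj
    rw [Finsupp.single_eq_of_ne (by omega)]

theorem single_ne (o : ℤ) : (Finsupp.single o 1 : V) ≠ 0 := by
  rw [Ne, Finsupp.single_eq_zero]; exact one_ne_zero

theorem ord_lt_of (y : V) (K j : ℤ) (hj : j < K) (hy : y j ≠ 0) : y ≠ 0 ∧ ord y < K := by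
  have hy0 : y ≠ 0 := by rintro rfl; exact hy rfl
  refine ⟨hy0, ?_⟩
  by_contra h
  push Not at h
  exact hy ((ord_spec y hy0).2 j (by omega))

theorem ord_add (y v : V) (K : ℤ) (hv : ∀ j < K, v j = 0) (hy : y ≠ 0) (hyK : ord y < K) :
    y + v ≠ 0 ∧ ord (y + v) = ord y := by
  obtain ⟨a1, a2⟩ := ord_spec y hy
  have h1 : (y + v) (ord y) ≠ 0 := by
    rw [Finsupp.add_apply, hv _ hyK, add_zero]; exact a1
  have h2 : ∀ j < ord y, (y + v) j = 0 := by
    intro j hj
    rw [Finsupp.add_apply, a2 j hj, hv j (by omega), add_zero]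
  refine ⟨?_, ord_unique _ _ h1 h2⟩
  intro h
  rw [h] at h1
  exact h1 rfl

theorem ord_sh (k : ℤ) (y : V) (hy : y ≠ 0) : ord (sh k y) = ord y + k := by
  obtain ⟨a1, a2⟩ := ord_spec y hy
  apply ord_unique
  · rw [sh_apply, add_sub_cancel_right]; exact a1
  · intro j hj
    rw [sh_apply]; exact a2 _ (by omega)

theorem sh_single (k i : ℤ) (a : ZMod 2) : sh k (Finsupp.single i a) = Finsupp.single (i + k) a := by
  ext j
  rw [sh_apply, Finsupp.single_apply, Finsupp.single_apply]
  congr 1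
  apply propext
  constructor <;> intro h <;> linarith

/-! ### the bilinear sums -/

/-- `Σ_j Σ_l g_j y_l pw (2 j - l - o)` -/
noncomputable def Psi (g y : V) (o : ℤ) : ZMod 2 :=
  g.sum fun j a => y.sum fun l c => a * c * pw (2*j - l - o)

theorem Psi_zero_left (y : V) (o : ℤ) : Psi 0 y o = 0 := Finsupp.sum_zero_index

theorem Psi_zero_right (g : V) (o : ℤ) : Psi g 0 o = 0 := by
  unfold Psi
  simp only [Finsupp.sum_zero_index]
  exact Finsupp.sum_fun_zero _

theorem Psi_add_left (g g' y : V) (o : ℤ) : Psi (g + g') y o = Psi g y o + Psi g' y o := by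
  unfold Psi
  refine Finsupp.sum_add_index' (fun j => ?_) (fun j a a' => ?_)
  · simp
  · rw [← Finsupp.sum_add]
    refine Finsupp.sum_congr fun l _ => ?_
    ring

theorem Psi_add_right (g y y' : V) (o : ℤ) : Psi g (y + y') o = Psi g y o + Psi g y' o := by
  unfold Psi
  rw [← Finsupp.sum_add]
  refine Finsupp.sum_congr fun j _ => ?_
  refine Finsupp.sum_add_index' (fun l => ?_) (fun l a a' => ?_)
  · simp
  · ring

theorem Psi_single (j l : ℤ) (a c : ZMod 2) (o : ℤ) :
    Psi (Finsupp.single j a) (Finsupp.single l c) o = a * c * pw (2*j - l - o) := by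
  unfold Psi
  rw [Finsupp.sum_single_index, Finsupp.sum_single_index]
  · simp
  · simp

theorem Psi_sh (k : ℤ) (g y : V) (o : ℤ) : Psi (sh k g) (sh k y) (o + k) = Psi g y o := by
  induction g using Finsupp.induction_linear with
  | zero => rw [map_zero, Psi_zero_left, Psi_zero_left]
  | add f g hf hg => rw [map_add, Psi_add_left, Psi_add_left, hf, hg]
  | single j a =>
    induction y using Finsupp.induction_linear with
    | zero => rw [map_zero, Psi_zero_right, Psi_zero_right]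
    | add f g hf hg => rw [map_add, Psi_add_right, Psi_add_right, hf, hg]
    | single l c =>
      rw [sh_single, sh_single, Psi_single, Psi_single]
      congr 2; ring

theorem Psi_vanish (g y : V) (o : ℤ) (h : ∀ j l, g j ≠ 0 → y l ≠ 0 → 2*j - l - o ≤ 0) :
    Psi g y o = 0 := by
  unfold Psi
  refine Finset.sum_eq_zero fun j hj => Finset.sum_eq_zero fun l hl => ?_
  beta_reduce
  rw [pw_nonpos _ (h j l (Finsupp.mem_support_iff.1 hj) (Finsupp.mem_support_iff.1 hl)), mul_zero]

/-- `Σ_n b_n pw (-n - o)` -/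
noncomputable def Th (b : V) (o : ℤ) : ZMod 2 := b.sum fun n a => a * pw (-n - o)

theorem Th_zero (o : ℤ) : Th 0 o = 0 := Finsupp.sum_zero_index

theorem Th_add (b b' : V) (o : ℤ) : Th (b + b') o = Th b o + Th b' o := by
  unfold Th
  refine Finsupp.sum_add_index' (fun j => ?_) (fun j a a' => ?_)
  · simp
  · ring

theorem Th_single (n : ℤ) (a : ZMod 2) (o : ℤ) : Th (Finsupp.single n a) o = a * pw (-n - o) := by
  unfold Th
  rw [Finsupp.sum_single_index]; simp

theorem Th_sh (k : ℤ) (b : V) (o : ℤ) : Th (sh k b) o = Th b (o + k) := by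
  induction b using Finsupp.induction_linear with
  | zero => rw [map_zero, Th_zero, Th_zero]
  | add f g hf hg => rw [map_add, Th_add, Th_add, hf, hg]
  | single j a =>
    rw [sh_single, Th_single, Th_single]
    congr 2; ring

theorem Th_vanish (b : V) (o : ℤ) (h : ∀ n, b n ≠ 0 → -n - o ≤ 0) : Th b o = 0 := by
  unfold Th
  refine Finset.sum_eq_zero fun n hn => ?_
  beta_reduce
  rw [pw_nonpos _ (h n (Finsupp.mem_support_iff.1 hn)), mul_zero]

/-- the product pairing -/
noncomputable def Bf (f g : V) : V :=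
  f.sum fun l a => g.sum fun j c => Finsupp.single (l - 2*j) (a * c)

theorem Bf_zero_left (g : V) : Bf 0 g = 0 := Finsupp.sum_zero_index

theorem Bf_zero_right (f : V) : Bf f 0 = 0 := by
  unfold Bf
  simp only [Finsupp.sum_zero_index]
  exact Finsupp.sum_fun_zero _

theorem Bf_add_left (f f' g : V) : Bf (f + f') g = Bf f g + Bf f' g := by
  unfold Bf
  refine Finsupp.sum_add_index' (fun j => ?_) (fun j a a' => ?_)
  · simp
  · rw [← Finsupp.sum_add]
    refine Finsupp.sum_congr fun l _ => ?_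
    rw [← Finsupp.single_add]; congr 1; ring

theorem Bf_add_right (f g g' : V) : Bf f (g + g') = Bf f g + Bf f g' := by
  unfold Bf
  rw [← Finsupp.sum_add]
  refine Finsupp.sum_congr fun j _ => ?_
  refine Finsupp.sum_add_index' (fun l => ?_) (fun l a a' => ?_)
  · simp
  · rw [← Finsupp.single_add]; congr 1; ring

theorem Bf_single (l j : ℤ) (a c : ZMod 2) :
    Bf (Finsupp.single l a) (Finsupp.single j c) = Finsupp.single (l - 2*j) (a * c) := by
  unfold Bf
  rw [Finsupp.sum_single_index, Finsupp.sum_single_index]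
  · simp
  · simp

theorem Th_Bf (f g : V) (o : ℤ) : Th (Bf f g) o = Psi g f o := by
  induction f using Finsupp.induction_linear with
  | zero => rw [Bf_zero_left, Th_zero, Psi_zero_right]
  | add f f' hf hf' => rw [Bf_add_left, Th_add, Psi_add_right, hf, hf']
  | single l a =>
    induction g using Finsupp.induction_linear with
    | zero => rw [Bf_zero_right, Th_zero, Psi_zero_left]
    | add f g hf hg => rw [Bf_add_right, Th_add, Psi_add_left, hf, hg]
    | single j c =>
      rw [Bf_single, Th_single, Psi_single, mul_comm a c]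
      congr 2; ring

theorem Bf_apply (f g : V) (n : ℤ) : Bf f g n = g.sum fun j c => c * f (n + 2*j) := by
  induction g using Finsupp.induction_linear with
  | zero => rw [Bf_zero_right, Finsupp.sum_zero_index]; rfl
  | add g g' hg hg' =>
    rw [Bf_add_right, Finsupp.add_apply, hg, hg', Finsupp.sum_add_index']
    · intro j; simp
    · intro j a a'; ring
  | single j c =>
    rw [Finsupp.sum_single_index (by simp)]
    induction f using Finsupp.induction_linear with
    | zero => rw [Bf_zero_left]; simp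
    | add f f' hf hf' => rw [Bf_add_left, Finsupp.add_apply, hf, hf', Finsupp.add_apply]; ring
    | single l a =>
      rw [Bf_single, Finsupp.single_apply, Finsupp.single_apply]
      by_cases h : l - 2*j = n
      · rw [if_pos h, if_pos (by linarith), mul_comm]
      · rw [if_neg h, if_neg (fun h' => h (by linarith)), mul_zero]

theorem Bf_top (f g : V) (d o : ℤ) (hf : f d ≠ 0) (hf' : ∀ j, d < j → f j = 0)
    (hg : g o ≠ 0) (hg' : ∀ j < o, g j = 0) :
    Bf f g (d - 2*o) ≠ 0 ∧ ∀ n, d - 2*o < n → Bf f g n = 0 := by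
  constructor
  · rw [Bf_apply]
    unfold Finsupp.sum
    rw [Finset.sum_eq_single o]
    · have e : d - 2*o + 2*o = d := by ring
      beta_reduce
      rw [e]; exact mul_ne_zero hg hf
    · intro j hj hne
      have hj' : o < j := by
        rcases lt_trichotomy j o with h | h | h
        · exact absurd (hg' j h) (Finsupp.mem_support_iff.1 hj)
        · exact absurd h hne
        · exact h
      beta_reduce
      rw [hf' _ (by linarith), mul_zero]
    · intro h
      exact absurd (Finsupp.mem_support_iff.2 hg) h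
  · intro n hn
    rw [Bf_apply]
    refine Finset.sum_eq_zero fun j hj => ?_
    have hj' : o ≤ j := by
      by_contra h
      push Not at h
      exact absurd (hg' j h) (Finsupp.mem_support_iff.1 hj)
    beta_reduce
    rw [hf' _ (by linarith), mul_zero]

theorem Bf_bot (f g : V) (o d : ℤ) (hf : f o ≠ 0) (hf' : ∀ j < o, f j = 0)
    (hg : g d ≠ 0) (hg' : ∀ j, d < j → g j = 0) :
    Bf f g (o - 2*d) ≠ 0 ∧ ∀ n, n < o - 2*d → Bf f g n = 0 := by
  constructor
  · rw [Bf_apply]
    unfold Finsupp.sum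
    rw [Finset.sum_eq_single d]
    · have e : o - 2*d + 2*d = o := by ring
      beta_reduce
      rw [e]; exact mul_ne_zero hg hf
    · intro j hj hne
      have hj' : j < d := by
        rcases lt_trichotomy j d with h | h | h
        · exact h
        · exact absurd h hne
        · exact absurd (hg' j h) (Finsupp.mem_support_iff.1 hj)
      beta_reduce
      rw [hf' _ (by linarith), mul_zero]
    · intro h
      exact absurd (Finsupp.mem_support_iff.2 hg) h
  · intro n hn
    rw [Bf_apply]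
    refine Finset.sum_eq_zero fun j hj => ?_
    have hj' : j ≤ d := by
      by_contra h
      push Not at h
      exact absurd (hg' j h) (Finsupp.mem_support_iff.1 hj)
    beta_reduce
    rw [hf' _ (by linarith), mul_zero]

/-- the key non-commutation: the pairing is not symmetric on elements of different order -/
theorem Bf_not_symm (f g : V) (hf : f ≠ 0) (hg : g ≠ 0) (h : ord f < ord g) : Bf f g ≠ Bf g f := by
  intro heq
  obtain ⟨f1, f2⟩ := ord_spec f hf
  obtain ⟨g1, g2⟩ := ord_spec g hg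
  obtain ⟨df, f3, f4⟩ := exists_top f hf
  obtain ⟨dg, g3, g4⟩ := exists_top g hg
  obtain ⟨a1, a2⟩ := Bf_top f g df (ord g) f3 f4 g1 g2
  obtain ⟨b1, b2⟩ := Bf_top g f dg (ord f) g3 g4 f1 f2
  obtain ⟨c1, c2⟩ := Bf_bot f g (ord f) dg f1 f2 g3 g4
  obtain ⟨d1, d2⟩ := Bf_bot g f (ord g) df g1 g2 f3 f4
  have e1 : df - 2 * ord g = dg - 2 * ord f := by
    rcases lt_trichotomy (df - 2 * ord g) (dg - 2 * ord f) with h | h | h
    · have := a2 _ h; rw [heq] at this; exact absurd this b1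
    · exact h
    · have := b2 _ h; rw [← heq] at this; exact absurd this a1
  have e2 : ord f - 2 * dg = ord g - 2 * df := by
    rcases lt_trichotomy (ord f - 2 * dg) (ord g - 2 * df) with h | h | h
    · have := d2 _ h; rw [← heq] at this; exact absurd this c1
    · exact h
    · have := c2 _ h; rw [heq] at this; exact absurd this d1
  omega

/-! ### extraction -/

theorem supp_bound (b : V) (n₀ : ℤ) (X : ℤ) : ∃ e : ℕ, X < 2^e ∧ ∀ n, b n ≠ 0 →
    -(2^e : ℤ) < n₀ - n ∧ n₀ - n < 2^e := by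
  obtain ⟨K1, h1⟩ := exists_below b
  obtain ⟨K2, h2⟩ := exists_above b
  refine ⟨X.natAbs + (n₀ - K1).natAbs + (K2 - n₀).natAbs, ?_⟩
  set e := X.natAbs + (n₀ - K1).natAbs + (K2 - n₀).natAbs with he
  have h3 : (e:ℤ) < 2^e := by exact_mod_cast Nat.lt_two_pow_self
  refine ⟨by omega, fun n hn => ?_⟩
  have h4 : K1 ≤ n := by
    by_contra h; push Not at h; exact hn (h1 n h)
  have h5 : n < K2 := by
    by_contra h; push Not at h; exact hn (h2 n h)
  constructor <;> omega

theorem Th_gap (b : V) (X : ℤ) : ∃ o < X, Th b o = 0 := by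
  obtain ⟨e, he, hb⟩ := supp_bound b 0 (-X)
  have hpos : (0:ℤ) < 2^e := by positivity
  refine ⟨-(3 * 2^e), by linarith, ?_⟩
  unfold Th
  refine Finset.sum_eq_zero fun n hn => ?_
  obtain ⟨h1, h2⟩ := hb n (Finsupp.mem_support_iff.1 hn)
  have e1 : -n - -(3 * 2^e) = 3 * 2^e + (0 - n) := by ring
  beta_reduce
  rw [e1, pw_gap e _ h1 h2, mul_zero]

theorem Th_extract (b : V) (X : ℤ) (h : ∀ o < X, Th b o = 0) : b = 0 := by
  by_contra hb
  obtain ⟨h0, _⟩ := ord_spec b hb
  set n₀ := ord b with hn0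
  obtain ⟨e, he, hbd⟩ := supp_bound b n₀ (-n₀ - X)
  have hpos : (0:ℤ) < 2^e := by positivity
  have he1 : (2:ℤ)^(e+1) = 2^e + 2^e := by ring
  have h1 := h (-n₀ - 2^(e+1)) (by linarith)
  have h2 : Th b (-n₀ - 2^(e+1)) = b n₀ := by
    unfold Th Finsupp.sum
    rw [Finset.sum_eq_single n₀]
    · have e1 : -n₀ - (-n₀ - 2^(e+1)) = (2:ℤ)^(e+1) := by ring
      beta_reduce
      rw [e1, pw_pow, mul_one]
    · intro n hn hne
      obtain ⟨h3, h4⟩ := hbd n (Finsupp.mem_support_iff.1 hn)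
      have e1 : -n - (-n₀ - 2^(e+1)) = (2:ℤ)^(e+1) + (n₀ - n) := by ring
      beta_reduce
      rw [e1, pw_near e _ h3 h4 (by omega), mul_zero]
    · intro hh
      exact absurd (Finsupp.mem_support_iff.2 h0) hh
  rw [h2] at h1
  exact h0 h1

end Pool.Agent.H910NM

namespace Pool.Agent.H910NM

open Act

/-- bounded support -/
def BS (m : W2) : Prop := ∃ K : ℤ, ∀ y : V, (∃ j < K, y j ≠ 0) → m y = 0

/-- locally constant on balls -/
def LC (m : W2) : Prop := ∀ K : ℤ, ∃ N : ℤ, ∀ y y' : V, (∀ j < K, y j = 0) → (∀ j < K, y' j = 0) →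
  (∀ j < N, y j = y' j) → m y = m y'

theorem BS_add {m m' : W2} (h : BS m) (h' : BS m') : BS (m + m') := by
  obtain ⟨K, hK⟩ := h
  obtain ⟨K', hK'⟩ := h'
  refine ⟨min K K', fun y ⟨j, hj, hy⟩ => ?_⟩
  rw [Pi.add_apply, hK y ⟨j, by omega, hy⟩, hK' y ⟨j, by omega, hy⟩, add_zero]

theorem BS_neg {m : W2} (h : BS m) : BS (-m) := by
  obtain ⟨K, hK⟩ := h
  exact ⟨K, fun y hy => by rw [Pi.neg_apply, hK y hy, neg_zero]⟩

theorem BS_zero : BS 0 := ⟨0, fun _ _ => rfl⟩

theorem LC_add {m m' : W2} (h : LC m) (h' : LC m') : LC (m + m') := by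
  intro K
  obtain ⟨N, hN⟩ := h K
  obtain ⟨N', hN'⟩ := h' K
  refine ⟨max N N', fun y y' h1 h2 h3 => ?_⟩
  rw [Pi.add_apply, Pi.add_apply, hN y y' h1 h2 (fun j hj => h3 j (by omega)),
    hN' y y' h1 h2 (fun j hj => h3 j (by omega))]

theorem LC_neg {m : W2} (h : LC m) : LC (-m) := by
  intro K
  obtain ⟨N, hN⟩ := h K
  exact ⟨N, fun y y' h1 h2 h3 => by rw [Pi.neg_apply, Pi.neg_apply, hN y y' h1 h2 h3]⟩

theorem LC_zero : LC 0 := fun K => ⟨0, fun _ _ _ _ _ => rfl⟩

theorem BS_act (v : V) (k : ℤ) {m : W2} (h : BS m) : BS (act v k m) := by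
  obtain ⟨K, hK⟩ := h
  obtain ⟨K1, hK1⟩ := exists_below v
  refine ⟨min (K + k) K1, fun y ⟨j, hj, hy⟩ => ?_⟩
  rw [act2_apply]
  apply hK
  refine ⟨j - k, by omega, ?_⟩
  rw [sh_apply, sub_neg_eq_add, sub_add_cancel, Finsupp.add_apply, hK1 j (by omega), add_zero]
  exact hy

theorem LC_act (v : V) (k : ℤ) {m : W2} (h : LC m) : LC (act v k m) := by
  intro K
  obtain ⟨K1, hK1⟩ := exists_below v
  obtain ⟨N, hN⟩ := h (min K K1 - k)
  refine ⟨N + k, fun y y' h1 h2 h3 => ?_⟩
  rw [act2_apply, act2_apply]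
  apply hN
  · intro j hj
    rw [sh_apply, Finsupp.add_apply, h1 _ (by omega), hK1 _ (by omega), add_zero]
  · intro j hj
    rw [sh_apply, Finsupp.add_apply, h2 _ (by omega), hK1 _ (by omega), add_zero]
  · intro j hj
    rw [sh_apply, sh_apply, Finsupp.add_apply, Finsupp.add_apply, h3 _ (by omega)]

/-- locally constant functions of bounded support -/
def Cs : AddSubgroup W2 where
  carrier := {m | LC m ∧ BS m}
  add_mem' := fun h h' => ⟨LC_add h.1 h'.1, BS_add h.2 h'.2⟩
  zero_mem' := ⟨LC_zero, BS_zero⟩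
  neg_mem' := fun h => ⟨LC_neg h.1, BS_neg h.2⟩

theorem Cs_act (v : V) (k : ℤ) {m : W2} (h : m ∈ Cs) : act v k m ∈ Cs :=
  ⟨LC_act v k h.1, BS_act v k h.2⟩

/-- the functions `λ_b` -/
noncomputable def Lam (b : V) : W2 := by
  classical
  exact fun y => if y = 0 then 0 else Th b (ord y)

theorem Lam_zero_apply (b : V) : Lam b 0 = 0 := by
  unfold Lam; rw [if_pos rfl]

theorem Lam_apply (b : V) (y : V) (hy : y ≠ 0) : Lam b y = Th b (ord y) := by
  unfold Lam; rw [if_neg hy]

theorem Lam_add (b b' : V) : Lam (b + b') = Lam b + Lam b' := by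
  funext y
  rw [Pi.add_apply]
  by_cases hy : y = 0
  · rw [hy, Lam_zero_apply, Lam_zero_apply, Lam_zero_apply, add_zero]
  · rw [Lam_apply _ _ hy, Lam_apply _ _ hy, Lam_apply _ _ hy, Th_add]

theorem Lam_zero : Lam 0 = 0 := by
  have := Lam_add 0 0
  rw [add_zero] at this
  exact left_eq_add.1 this

theorem Lam_neg (b : V) : Lam (-b) = - Lam b := by
  rw [eq_neg_iff_add_eq_zero, ← Lam_add, neg_add_cancel, Lam_zero]

/-- the module `M = C + span λ` -/
noncomputable def Ms : AddSubgroup W2 where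
  carrier := {m | ∃ c ∈ Cs, ∃ b : V, m = c + Lam b}
  add_mem' := by
    rintro _ _ ⟨c, hc, b, rfl⟩ ⟨c', hc', b', rfl⟩
    refine ⟨c + c', add_mem hc hc', b + b', ?_⟩
    rw [Lam_add]; abel
  zero_mem' := ⟨0, zero_mem _, 0, by rw [Lam_zero, add_zero]⟩
  neg_mem' := by
    rintro _ ⟨c, hc, b, rfl⟩
    exact ⟨-c, neg_mem hc, -b, by rw [Lam_neg]; abel⟩

theorem Cs_le_Ms : Cs ≤ Ms := fun c hc => ⟨c, hc, 0, by rw [Lam_zero, add_zero]⟩

theorem Lam_mem_Ms (b : V) : Lam b ∈ Ms := ⟨0, zero_mem _, b, by rw [zero_add]⟩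

/-- the functions `mm_g` -/
noncomputable def mmf (g : V) : W2 := fun y => Psi g y (ord y)

theorem mmf_apply (g y : V) : mmf g y = Psi g y (ord y) := rfl

theorem mmf_add (g g' : V) : mmf (g + g') = mmf g + mmf g' := by
  funext y
  rw [Pi.add_apply, mmf_apply, mmf_apply, mmf_apply, Psi_add_left]

theorem mmf_zero : mmf 0 = 0 := by
  funext y
  rw [mmf_apply, Psi_zero_left]; rfl

theorem W2_add_self (m : W2) : m + m = 0 := by
  funext y
  exact CharTwo.add_self_eq_zero _

theorem W2_neg (m : W2) : -m = m := by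
  rw [neg_eq_iff_add_eq_zero]; exact W2_add_self m

theorem W2_sub (m m' : W2) : m - m' = m + m' := by
  rw [sub_eq_add_neg, W2_neg]

theorem mmf_sh (k : ℤ) (g : V) : act 0 k (mmf g) = mmf (sh k g) := by
  funext y
  rw [act2_apply, add_zero, mmf_apply, mmf_apply]
  by_cases hy : y = 0
  · rw [hy, map_zero, Psi_zero_right, Psi_zero_right]
  · rw [ord_sh _ _ hy, ← Psi_sh k g (sh (-k) y), sh_sh, add_neg_cancel, sh_zero]
    congr 1; ring

theorem Lam_sh (k : ℤ) (b : V) : act 0 k (Lam b) = Lam (sh (-k) b) := by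
  funext y
  rw [act2_apply, add_zero]
  by_cases hy : y = 0
  · rw [hy, map_zero, Lam_zero_apply, Lam_zero_apply]
  · rw [Lam_apply _ _ (sh_ne_zero _ _ hy), Lam_apply _ _ hy, ord_sh _ _ hy, Th_sh]

/-- comparing two points agreeing below `N` -/
theorem agree (y y' : V) (N : ℤ) (h : ∀ j < N, y j = y' j) :
    (y ≠ 0 ∧ y' ≠ 0 ∧ ord y = ord y' ∧ ord y < N) ∨
    ((y = 0 ∨ N ≤ ord y) ∧ (y' = 0 ∨ N ≤ ord y')) := by
  by_cases hc : ∃ j < N, y j ≠ 0
  · left
    obtain ⟨j, hj, hy⟩ := hc
    obtain ⟨h1, h2⟩ := ord_lt_of y N j hj hy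
    obtain ⟨a1, a2⟩ := ord_spec y h1
    have h3 : y' (ord y) ≠ 0 := by rw [← h _ h2]; exact a1
    have h4 : ord y' = ord y := ord_unique _ _ h3 fun j hj => by
      rw [← h j (by omega)]; exact a2 j hj
    refine ⟨h1, ?_, h4.symm, h2⟩
    rintro rfl
    exact h3 rfl
  · right
    push Not at hc
    have key : ∀ z : V, (∀ j < N, z j = 0) → (z = 0 ∨ N ≤ ord z) := by
      intro z hz
      by_cases hz0 : z = 0
      · exact Or.inl hz0
      · right
        by_contra hlt
        push Not at hlt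
        exact (ord_spec z hz0).1 (hz _ hlt)
    exact ⟨key y hc, key y' fun j hj => by rw [← h j hj]; exact hc j hj⟩

theorem ord_ge (y : V) (K : ℤ) (h : ∀ j < K, y j = 0) (hy : y ≠ 0) : K ≤ ord y := by
  by_contra hlt
  push Not at hlt
  exact (ord_spec y hy).1 (h _ hlt)

theorem LC_Lam (b : V) : LC (Lam b) := by
  intro K
  obtain ⟨B, hB⟩ := exists_below b
  refine ⟨-B, fun y y' h1 h2 h3 => ?_⟩
  have key : ∀ z : V, (z = 0 ∨ -B ≤ ord z) → Lam b z = 0 := by
    intro z hz
    by_cases hz0 : z = 0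
    · rw [hz0, Lam_zero_apply]
    · have h4 : -B ≤ ord z := by
        rcases hz with h | h
        · exact absurd h hz0
        · exact h
      rw [Lam_apply _ _ hz0]
      apply Th_vanish
      intro n hn
      have : B ≤ n := by
        by_contra hlt; push Not at hlt; exact hn (hB n hlt)
      linarith
  rcases agree y y' _ h3 with ⟨a1, a2, a3, a4⟩ | ⟨a1, a2⟩
  · rw [Lam_apply _ _ a1, Lam_apply _ _ a2, a3]
  · rw [key y a1, key y' a2]

theorem LC_mmf (g : V) : LC (mmf g) := by
  intro K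
  obtain ⟨B, hB⟩ := exists_above g
  refine ⟨max (2*B - K) B, fun y y' h1 h2 h3 => ?_⟩
  have hBlt : ∀ j, g j ≠ 0 → j < B := by
    intro j hj
    by_contra hlt; push Not at hlt; exact hj (hB j hlt)
  have key : ∀ z : V, (z = 0 ∨ max (2*B - K) B ≤ ord z) → mmf g z = 0 := by
    intro z hz
    by_cases hz0 : z = 0
    · rw [hz0, mmf_apply, Psi_zero_right]
    · have h4 : max (2*B - K) B ≤ ord z := by
        rcases hz with h | h
        · exact absurd h hz0
        · exact h
      rw [mmf_apply]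
      apply Psi_vanish
      intro j l hj hl
      have h5 := hBlt j hj
      have h6 : ord z ≤ l := by
        by_contra hlt; push Not at hlt; exact hl ((ord_spec z hz0).2 l hlt)
      have h7 : B ≤ ord z := le_trans (le_max_right _ _) h4
      linarith
  rcases agree y y' _ h3 with ⟨a1, a2, a3, a4⟩ | ⟨a1, a2⟩
  · rw [mmf_apply, mmf_apply, ← a3]
    have h4 : Psi g y (ord y) = Psi g y' (ord y) + Psi g (y - y') (ord y) := by
      rw [← Psi_add_right]; congr 1; abel
    rw [h4, Psi_vanish g (y - y'), add_zero]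
    intro j l hj hl
    have h5 := hBlt j hj
    have h6 : max (2*B - K) B ≤ l := by
      by_contra hlt; push Not at hlt
      apply hl
      rw [Finsupp.sub_apply, h3 l hlt, sub_self]
    have h7 : 2*B - K ≤ l := le_trans (le_max_left _ _) h6
    have h8 := ord_ge y K h1 a1
    linarith
  · rw [key y a1, key y' a2]

theorem Delta_mmf (v g : V) : act v 0 (mmf g) + mmf g + Lam (Bf v g) ∈ Cs := by
  refine ⟨LC_add (LC_add (LC_act _ _ (LC_mmf g)) (LC_mmf g)) (LC_Lam _), ?_⟩
  obtain ⟨K, hK⟩ := exists_below v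
  refine ⟨K, fun y ⟨j, hj, hy⟩ => ?_⟩
  obtain ⟨h1, h2⟩ := ord_lt_of y K j hj hy
  obtain ⟨h3, h4⟩ := ord_add y v K hK h1 h2
  rw [Pi.add_apply, Pi.add_apply, act2_apply, neg_zero, sh_zero, mmf_apply, mmf_apply, h4,
    Psi_add_right, Lam_apply _ _ h1, Th_Bf]
  have e : Psi g y (ord y) + Psi g v (ord y) + Psi g y (ord y) + Psi g v (ord y) =
    (Psi g y (ord y) + Psi g y (ord y)) + (Psi g v (ord y) + Psi g v (ord y)) := by ring
  rw [e, CharTwo.add_self_eq_zero, CharTwo.add_self_eq_zero, add_zero]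

theorem Delta_Lam (v b : V) : act v 0 (Lam b) + Lam b ∈ Cs := by
  refine ⟨LC_add (LC_act _ _ (LC_Lam b)) (LC_Lam b), ?_⟩
  obtain ⟨K, hK⟩ := exists_below v
  refine ⟨K, fun y ⟨j, hj, hy⟩ => ?_⟩
  obtain ⟨h1, h2⟩ := ord_lt_of y K j hj hy
  obtain ⟨h3, h4⟩ := ord_add y v K hK h1 h2
  rw [Pi.add_apply, act2_apply, neg_zero, sh_zero, Lam_apply _ _ h1, Lam_apply _ _ h3, h4,
    CharTwo.add_self_eq_zero]

theorem act_split (v : V) (k : ℤ) (m : W2) : act v k m = act v 0 (act 0 k m) := by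
  rw [act_act, map_zero, add_zero, zero_add]

theorem Delta_Ms (v : V) {m : W2} (h : m ∈ Ms) : act v 0 m + m ∈ Cs := by
  obtain ⟨c, hc, b, rfl⟩ := h
  rw [act_add]
  have e : act v 0 c + act v 0 (Lam b) + (c + Lam b) =
    (act v 0 c + c) + (act v 0 (Lam b) + Lam b) := by abel
  rw [e]
  exact add_mem (add_mem (Cs_act _ _ hc) hc) (Delta_Lam v b)

theorem Ms_act (v : V) (k : ℤ) {m : W2} (h : m ∈ Ms) : act v k m ∈ Ms := by
  rw [act_split]
  have h1 : act 0 k m ∈ Ms := by
    obtain ⟨c, hc, b, rfl⟩ := h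
    rw [act_add, Lam_sh]
    exact add_mem (Cs_le_Ms (Cs_act _ _ hc)) (Lam_mem_Ms _)
  have h2 := Cs_le_Ms (Delta_Ms v h1)
  have h3 := add_mem h2 h1
  have e : act v 0 (act 0 k m) + act 0 k m + act 0 k m = act v 0 (act 0 k m) := by
    rw [add_assoc, W2_add_self, add_zero]
  rwa [e] at h3

theorem Delta_mmf_Ms (v g : V) : act v 0 (mmf g) + mmf g ∈ Ms := by
  have h1 := Cs_le_Ms (Delta_mmf v g)
  have h2 := add_mem h1 (Lam_mem_Ms (Bf v g))
  rwa [add_assoc, W2_add_self, add_zero] at h2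

/-- behaviour near minus infinity -/
theorem germ (m : W2) (h : m ∈ Ms) : ∃ b : V, ∃ K : ℤ, ∀ y : V, y ≠ 0 → ord y < K →
    m y = Th b (ord y) := by
  obtain ⟨c, hc, b, rfl⟩ := h
  obtain ⟨K, hK⟩ := hc.2
  refine ⟨b, K, fun y hy hlt => ?_⟩
  rw [Pi.add_apply, hK y ⟨ord y, hlt, (ord_spec y hy).1⟩, zero_add, Lam_apply _ _ hy]

/-- invariants under an unbounded set of translations vanish -/
theorem inv_zero (T : Set V) (hT : ∀ X : ℤ, ∃ v ∈ T, v ≠ 0 ∧ ord v < X) (m : W2) (hm : m ∈ Ms)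
    (hinv : ∀ v ∈ T, act v 0 m = m) : m = 0 := by
  obtain ⟨b, K, hK⟩ := germ m hm
  have hinv' : ∀ v ∈ T, ∀ y, m (y + v) = m y := by
    intro v hv y
    have := congrFun (hinv v hv) y
    rwa [act2_apply, neg_zero, sh_zero] at this
  have key : ∀ y, m y = m 0 := by
    intro y
    obtain ⟨B, hB⟩ := exists_below y
    obtain ⟨v, hv, hv0, hvlt⟩ := hT (min K B)
    obtain ⟨h3, h4⟩ := ord_add v y B hB hv0 (by omega)
    rw [← hinv' v hv y, ← hinv' v hv 0, zero_add, add_comm y v, hK v hv0 (by omega),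
      hK (v + y) h3 (by omega), h4]
  obtain ⟨o, ho, hTh⟩ := Th_gap b K
  have h1 := hK (Finsupp.single o 1) (single_ne o) (by rw [ord_single]; exact ho)
  rw [ord_single, hTh] at h1
  funext y
  rw [key y, ← key (Finsupp.single o 1), h1]; rfl

/-- commuting lifts of elements of distinct order do not exist -/
theorem no_comm (f g : V) (hf : f ≠ 0) (hg : g ≠ 0) (h : ord f < ord g) (m m' : W2)
    (hm : m + mmf f ∈ Ms) (hm' : m' + mmf g ∈ Ms)
    (hc : act f 0 m' + m' = act g 0 m + m) : False := by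
  apply Bf_not_symm f g hf hg h
  have key : ∀ (f g : V) (m' : W2), m' + mmf g ∈ Ms →
      ∃ K : ℤ, ∀ o < K, (act f 0 m' + m') (Finsupp.single o 1) = Th (Bf f g) o := by
    intro f g m' hm'
    obtain ⟨b, K, hK⟩ := germ _ hm'
    obtain ⟨B, hB⟩ := exists_below f
    refine ⟨min K B, fun o ho => ?_⟩
    have h0 := single_ne o
    have h1 := ord_single o
    obtain ⟨h3, h4⟩ := ord_add (Finsupp.single o 1) f B hB h0 (by rw [h1]; omega)
    rw [h1] at h4
    have e1 := hK _ h0 (by rw [h1]; omega)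
    have e2 := hK _ h3 (by rw [h4]; omega)
    rw [Pi.add_apply, mmf_apply, h1] at e1
    rw [Pi.add_apply, mmf_apply, h4, Psi_add_right] at e2
    rw [Pi.add_apply, act2_apply, neg_zero, sh_zero, Th_Bf]
    have h2 : (2 : ZMod 2) = 0 := rfl
    linear_combination e1 + e2 - (Psi g (Finsupp.single o 1) o + Psi g f o - Th b o) * h2
  obtain ⟨K1, h1⟩ := key f g m' hm'
  obtain ⟨K2, h2⟩ := key g f m hm
  have h3 : Bf f g + Bf g f = 0 := by
    apply Th_extract _ (min K1 K2)
    intro o ho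
    rw [Th_add, ← h1 o (by omega), ← h2 o (by omega), hc, CharTwo.add_self_eq_zero]
  have h4 := congrArg (· + Bf g f) h3
  simp only [add_assoc, V_add_self, add_zero, zero_add] at h4
  exact h4

/-! ### irreducibility of `Cs` -/

/-- ball indicator -/
noncomputable def ball (K : ℤ) : W2 := by
  classical
  exact fun y => if ∀ j < K, y j = 0 then 1 else 0

theorem ball_pos (K : ℤ) (y : V) (h : ∀ j < K, y j = 0) : ball K y = 1 := by
  unfold ball; rw [if_pos h]

theorem ball_neg (K : ℤ) (y : V) (h : ¬ ∀ j < K, y j = 0) : ball K y = 0 := by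
  unfold ball; rw [if_neg h]

theorem ball_mem (K : ℤ) : ball K ∈ Cs := by
  constructor
  · intro K'
    refine ⟨K, fun y y' _ _ h => ?_⟩
    by_cases hy : ∀ j < K, y j = 0
    · rw [ball_pos K y hy, ball_pos K y' fun j hj => by rw [← h j hj]; exact hy j hj]
    · rw [ball_neg K y hy, ball_neg K y']
      intro hy'
      exact hy fun j hj => by rw [h j hj]; exact hy' j hj
  · refine ⟨K, fun y ⟨j, hj, hy⟩ => ball_neg K y fun h => hy (h j hj)⟩

theorem ball_sh (k K : ℤ) : act 0 k (ball K) = ball (K + k) := by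
  funext y
  rw [act2_apply, add_zero]
  by_cases hy : ∀ j < K + k, y j = 0
  · rw [ball_pos _ _ hy, ball_pos]
    intro j hj
    rw [sh_apply]; exact hy _ (by omega)
  · rw [ball_neg _ _ hy, ball_neg]
    intro h
    apply hy
    intro j hj
    have := h (j - k) (by omega)
    rwa [sh_apply, sub_neg_eq_add, sub_add_cancel] at this

/-- supported on the ball of radius `K` and depending only on coordinates `< N` -/
def CKN (K N : ℤ) (m : W2) : Prop :=
  (∀ y : V, (∃ j < K, y j ≠ 0) → m y = 0) ∧ ∀ y y' : V, (∀ j < N, y j = y' j) → m y = m y'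

theorem CKN_of_Cs (m : W2) (hm : m ∈ Cs) : ∃ K N, CKN K N m := by
  obtain ⟨h1, K, hK⟩ := hm
  obtain ⟨N, hN⟩ := h1 K
  refine ⟨K, max N K, hK, fun y y' h => ?_⟩
  by_cases hc : ∃ j < K, y j ≠ 0
  · rw [hK y hc]
    obtain ⟨j, hj, hy⟩ := hc
    rw [hK y' ⟨j, hj, by rw [← h j (by omega)]; exact hy⟩]
  · push Not at hc
    exact hN y y' hc (fun j hj => by rw [← h j (by omega)]; exact hc j hj)
      fun j hj => h j (by omega)

theorem zmod2_cases (x : ZMod 2) : x = 0 ∨ x = 1 := by
  fin_cases x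
  · exact Or.inl rfl
  · exact Or.inr rfl

theorem find_ball (J : AddSubgroup W2) (hJ : ∀ v k, ∀ m ∈ J, act v k m ∈ J) (d : ℕ) :
    ∀ K N : ℤ, N - K ≤ d → ∀ m ∈ J, CKN K N m → m ≠ 0 → ∃ K', ball K' ∈ J := by
  induction d with
  | zero =>
    intro K N hd m hm ⟨h1, h2⟩ hne
    refine ⟨K, ?_⟩
    have e : m = ball K := by
      obtain ⟨y₀, hy₀⟩ : ∃ y₀, m y₀ ≠ 0 := by
        by_contra hc; push Not at hc; exact hne (funext hc)
      have hy₀' : ∀ j < K, y₀ j = 0 := by
        intro j hj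
        by_contra hc
        exact hy₀ (h1 y₀ ⟨j, hj, hc⟩)
      funext y
      by_cases hy : ∀ j < K, y j = 0
      · rw [ball_pos K y hy, h2 y y₀ fun j hj => by
          rw [hy j (by push_cast at hd; omega), hy₀' j (by push_cast at hd; omega)]]
        rcases zmod2_cases (m y₀) with h | h
        · exact absurd h hy₀
        · exact h
      · rw [ball_neg K y hy]
        push Not at hy
        exact h1 y hy
    rw [← e]; exact hm
  | succ d ih =>
    intro K N hd m hm ⟨h1, h2⟩ hne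
    by_cases hNK : N ≤ K
    · exact ih K N (by omega) m hm ⟨h1, h2⟩ hne
    push Not at hNK
    set v : V := Finsupp.single (N-1) 1 with hv
    have hvj : ∀ j, j ≠ N - 1 → v j = 0 := fun j hj => Finsupp.single_eq_of_ne hj
    have hvj1 : v (N-1) = 1 := Finsupp.single_eq_same
    by_cases hF : act v 0 m + m = 0
    · -- m is invariant, hence depends on fewer coordinates
      apply ih K (N-1) (by push_cast at hd; omega) m hm ⟨h1, ?_⟩ hne
      intro y y' h
      have hinv : ∀ z, m (z + v) = m z := by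
        intro z
        have := congrFun hF z
        rw [Pi.add_apply, act2_apply, neg_zero, sh_zero] at this
        exact CharTwo.add_eq_zero.1 this
      have hcase : y (N-1) = y' (N-1) ∨ (y + v) (N-1) = y' (N-1) := by
        rw [Finsupp.add_apply, hvj1]
        rcases zmod2_cases (y (N-1)) with h3 | h3 <;> rcases zmod2_cases (y' (N-1)) with h4 | h4
        · left; rw [h3, h4]
        · right; rw [h3, h4, zero_add]
        · right; rw [h3, h4]; decide
        · left; rw [h3, h4]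
      rcases hcase with h3 | h3
      · apply h2
        intro j hj
        rcases eq_or_ne j (N-1) with rfl | hj'
        · exact h3
        · exact h j (by omega)
      · rw [← hinv y]
        apply h2
        intro j hj
        rcases eq_or_ne j (N-1) with rfl | hj'
        · exact h3
        · rw [Finsupp.add_apply, hvj j hj', add_zero]
          exact h j (by omega)
    · apply ih K (N-1) (by push_cast at hd; omega) _ (add_mem (hJ v 0 m hm) hm) ⟨?_, ?_⟩ hF
      · rintro y ⟨j, hj, hy⟩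
        rw [Pi.add_apply, act2_apply, neg_zero, sh_zero, h1 y ⟨j, hj, hy⟩,
          h1 (y + v) ⟨j, hj, by rw [Finsupp.add_apply, hvj j (by omega), add_zero]; exact hy⟩,
          add_zero]
      · intro y y' h
        rw [Pi.add_apply, Pi.add_apply, act2_apply, act2_apply, neg_zero, sh_zero, sh_zero]
        have hcase : y (N-1) = y' (N-1) ∨ y (N-1) = (y' + v) (N-1) := by
          rw [Finsupp.add_apply, hvj1]
          rcases zmod2_cases (y (N-1)) with h3 | h3 <;> rcases zmod2_cases (y' (N-1)) with h4 | h4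
          · left; rw [h3, h4]
          · right; rw [h3, h4]; decide
          · right; rw [h3, h4]; decide
          · left; rw [h3, h4]
        rcases hcase with h3 | h3
        · rw [h2 y y' fun j hj => by
            rcases eq_or_ne j (N-1) with rfl | hj'
            · exact h3
            · exact h j (by omega),
            h2 (y + v) (y' + v) fun j hj => by
            rw [Finsupp.add_apply, Finsupp.add_apply]
            rcases eq_or_ne j (N-1) with rfl | hj'
            · rw [h3]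
            · rw [h j (by omega)]]
        · rw [h2 y (y' + v) fun j hj => by
            rcases eq_or_ne j (N-1) with rfl | hj'
            · exact h3
            · rw [Finsupp.add_apply, hvj j hj', add_zero]; exact h j (by omega),
            h2 (y + v) y' fun j hj => by
            rcases eq_or_ne j (N-1) with rfl | hj'
            · rw [Finsupp.add_apply, h3, Finsupp.add_apply, add_assoc, CharTwo.add_self_eq_zero,
                add_zero]
            · rw [Finsupp.add_apply, hvj j hj', add_zero]; exact h j (by omega), add_comm]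

theorem all_of_ball (J : AddSubgroup W2) (hJ : ∀ v k, ∀ m ∈ J, act v k m ∈ J)
    (hb : ∀ K, ball K ∈ J) (d : ℕ) :
    ∀ K N : ℤ, N - K ≤ d → ∀ m, CKN K N m → m ∈ J := by
  classical
  induction d with
  | zero =>
    intro K N hd m ⟨h1, h2⟩
    have hval : ∀ y, (∀ j < K, y j = 0) → m y = m 0 := by
      intro y hy
      apply h2
      intro j hj
      rw [hy j (by push_cast at hd; omega)]; rfl
    rcases zmod2_cases (m 0) with h0 | h0
    · have e : m = 0 := by
        funext y
        by_cases hy : ∀ j < K, y j = 0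
        · rw [hval y hy, h0]; rfl
        · push Not at hy
          rw [h1 y hy]; rfl
      rw [e]; exact zero_mem _
    · have e : m = ball K := by
        funext y
        by_cases hy : ∀ j < K, y j = 0
        · rw [hval y hy, h0, ball_pos K y hy]
        · rw [ball_neg K y hy]
          push Not at hy
          exact h1 y hy
      rw [e]; exact hb K
  | succ d ih =>
    intro K N hd m ⟨h1, h2⟩
    by_cases hNK : N ≤ K
    · exact ih K N (by omega) m ⟨h1, h2⟩
    push Not at hNK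
    set v : V := Finsupp.single K 1 with hv
    have hvj : ∀ j, j ≠ K → v j = 0 := fun j hj => Finsupp.single_eq_of_ne hj
    have hvj1 : v K = 1 := Finsupp.single_eq_same
    let m0 : W2 := fun y => if y K = 0 then m y else 0
    let m1 : W2 := fun y => if y K = 0 then m (y + v) else 0
    have e : m = m0 + act v 0 m1 := by
      funext y
      rw [Pi.add_apply, act2_apply, neg_zero, sh_zero]
      show m y = (if y K = 0 then m y else 0) + (if (y + v) K = 0 then m (y + v + v) else 0)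
      rw [add_assoc y v v, V_add_self, add_zero, Finsupp.add_apply, hvj1]
      rcases zmod2_cases (y K) with h | h
      · rw [h, if_pos rfl, if_neg (by decide), add_zero]
      · rw [h, if_neg (by decide), if_pos (by decide), zero_add]
    have c0 : CKN (K+1) N m0 := by
      constructor
      · rintro y ⟨j, hj, hy⟩
        show (if y K = 0 then m y else 0) = 0
        split_ifs with h
        · apply h1
          refine ⟨j, ?_, hy⟩
          rcases eq_or_ne j K with rfl | hjK
          · exact absurd h hy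
          · omega
        · rfl
      · intro y y' h
        show (if y K = 0 then m y else 0) = (if y' K = 0 then m y' else 0)
        rw [h K hNK, h2 y y' h]
    have c1 : CKN (K+1) N m1 := by
      constructor
      · rintro y ⟨j, hj, hy⟩
        show (if y K = 0 then m (y + v) else 0) = 0
        split_ifs with h
        · apply h1
          have hjK : j ≠ K := by
            rintro rfl
            exact hy h
          refine ⟨j, by omega, ?_⟩
          rw [Finsupp.add_apply, hvj j hjK, add_zero]; exact hy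
        · rfl
      · intro y y' h
        show (if y K = 0 then m (y + v) else 0) = (if y' K = 0 then m (y' + v) else 0)
        rw [h K hNK, h2 (y + v) (y' + v) fun j hj => by
          rw [Finsupp.add_apply, Finsupp.add_apply, h j hj]]
    rw [e]
    exact add_mem (ih (K+1) N (by push_cast at hd; omega) m0 c0)
      (hJ v 0 _ (ih (K+1) N (by push_cast at hd; omega) m1 c1))

theorem Cs_irred (J : AddSubgroup W2) (hJC : J ≤ Cs) (hJ : ∀ v k, ∀ m ∈ J, act v k m ∈ J)
    (hne : ∃ m ∈ J, m ≠ 0) : Cs ≤ J := by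
  obtain ⟨m, hm, hm0⟩ := hne
  obtain ⟨K, N, hKN⟩ := CKN_of_Cs m (hJC hm)
  obtain ⟨K', hK'⟩ := find_ball J hJ (N - K).toNat K N (by omega) m hm hKN hm0
  have hb : ∀ K, ball K ∈ J := by
    intro K
    have := hJ 0 (K - K') _ hK'
    rw [ball_sh] at this
    have e : K' + (K - K') = K := by ring
    rwa [e] at this
  intro c hc
  obtain ⟨K1, N1, hKN1⟩ := CKN_of_Cs c hc
  exact all_of_ball J hJ hb (N1 - K1).toNat K1 N1 (by omega) c hKN1

end Pool.Agent.H910NM

namespace Pool.Agent.H910NM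

open Act
open scoped commutatorElement

section
variable {G M : Type*} [Group G] [AddCommGroup M] (ι : M → G) (ρ : G → M → M)
  (hadd : ∀ a b, ι (a+b) = ι a * ι b) (hinj : Function.Injective ι)
  (hconj : ∀ g a, g * ι a * g⁻¹ = ι (ρ g a))

include hadd hinj hconj

theorem nilp_ext (K : Subgroup G) {Q : Type*} [Group Q] (hQ : Group.IsNilpotent Q) (f : K →* Q)
    (N : ℕ) (hker : ∀ x : K, f x = 1 → ∃ a ∈ Zm ρ (K : Set G) N, ι a = x) :
    Group.IsNilpotent K := by
  have hcomm : ∀ (a : M) (h : G), ⁅ι a, h⁆ = ι (a - ρ h a) := by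
    intro a h
    rw [sub_eq_add_neg, ← rho_neg ι ρ hadd hinj hconj, hadd, ← hconj,
      iota_neg ι ρ hadd hinj hconj, commutatorElement_def]
    group
  let B : ℕ → Subgroup G := fun i => ZG ι ρ hadd hinj hconj (K : Set G) i
  have h1 : ∀ i, (B i).subgroupOf K ≤ Subgroup.upperCentralSeries K i := by
    intro i
    refine Subgroup.ascending_central_series_le_upper (fun i => (B i).subgroupOf K) ⟨?_, ?_⟩ i
    · rw [eq_bot_iff]
      rintro ⟨x, hx⟩ hxB
      rw [Subgroup.mem_subgroupOf] at hxB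
      obtain ⟨a, ha, hax⟩ := hxB
      have ha' : a = 0 := ha
      rw [Subgroup.mem_bot]
      apply Subtype.ext
      show x = 1
      have hax' : ι a = x := hax
      rw [← hax', ha', iota_zero ι ρ hadd hinj hconj]
    · rintro ⟨x, hx⟩ i hxB ⟨k, hk⟩
      rw [Subgroup.mem_subgroupOf] at hxB ⊢
      obtain ⟨a, ha, hax⟩ := hxB
      have hax' : ι a = x := hax
      subst hax'
      show ⁅ι a, k⁆ ∈ B i
      rw [hcomm]
      refine ⟨a - ρ k a, ?_, rfl⟩
      have := Zm_neg_mem ι ρ hadd hinj hconj (K : Set G) i _ (ha k hk)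
      rwa [neg_sub] at this
  refine nilp_of_hom f hQ N (le_trans ?_ (h1 N))
  intro x hx
  obtain ⟨a, ha, hax⟩ := hker x hx
  rw [Subgroup.mem_subgroupOf]
  exact ⟨a, ha, hax⟩

end

/-! ### heights for a finite set of translations -/

/-- translation action -/
noncomputable def rhoV (v : V) (w : W2) : W2 := act v 0 w

theorem rhoV_apply (v : V) (w : W2) (y : V) : rhoV v w y = w (y + v) := by
  unfold rhoV
  rw [act2_apply, neg_zero, sh_zero]

theorem ZV_zero (S : Set V) : ∀ i, (0 : W2) ∈ Zm rhoV S i := by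
  intro i
  induction i with
  | zero => exact rfl
  | succ i ih =>
    intro v _
    have e : rhoV v 0 - 0 = 0 := by rw [sub_zero]; exact SD.act_z v 0
    rw [e]; exact ih

theorem fin_height_aux (S : Finset V) (n : ℕ) : ∀ D : Finset V, (S \ D).card ≤ n → ∀ w : W2,
    (∀ v ∈ D, rhoV v w = w) → w ∈ Zm rhoV (S : Set V) (n+1) := by
  classical
  induction n with
  | zero =>
    intro D hD w hw v hv
    have h0 : S \ D = ∅ := Finset.card_eq_zero.1 (Nat.le_zero.1 hD)
    have hvD : v ∈ D := by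
      by_contra h
      have : v ∈ S \ D := Finset.mem_sdiff.2 ⟨hv, h⟩
      rw [h0] at this
      exact absurd this (Finset.notMem_empty _)
    rw [hw v hvD, sub_self]
    exact ZV_zero _ _
  | succ n ih =>
    intro D hD w hw v hv
    by_cases hvD : v ∈ D
    · rw [hw v hvD, sub_self]
      exact ZV_zero _ _
    · apply ih (insert v D)
      · have h1 : v ∈ S \ D := Finset.mem_sdiff.2 ⟨hv, hvD⟩
        have h2 : S \ insert v D = (S \ D).erase v := by
          ext x
          simp only [Finset.mem_sdiff, Finset.mem_insert, Finset.mem_erase]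
          tauto
        rw [h2, Finset.card_erase_of_mem h1]
        omega
      · intro v' hv'
        rw [Finset.mem_insert] at hv'
        funext y
        rw [rhoV_apply, Pi.sub_apply, Pi.sub_apply, rhoV_apply, rhoV_apply]
        rcases hv' with rfl | hv'
        · rw [add_assoc, V_add_self, add_zero]
          have h2 : (2 : ZMod 2) = 0 := rfl
          linear_combination (w y - w (y + v')) * h2
        · have h3 : ∀ z, w (z + v') = w z := fun z => by
            have := congrFun (hw v' hv') z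
            rwa [rhoV_apply] at this
          have e : y + v' + v = (y + v) + v' := by abel
          rw [e, h3, h3]

theorem fin_height (S : Finset V) (w : W2) : w ∈ Zm rhoV (S : Set V) (S.card + 1) := by
  classical
  refine fin_height_aux S S.card ∅ (by rw [Finset.sdiff_empty]) w ?_
  intro v hv
  exact absurd hv (Finset.notMem_empty _)

/-! ### finiteness -/

theorem finite_supp (a b : ℤ) : {v : V | (∀ j < a, v j = 0) ∧ ∀ j, b ≤ j → v j = 0}.Finite := by
  classical
  refine Set.Finite.of_injOn (f := fun v : V => v.support) (t := ((Finset.Ico a b).powerset : Set (Finset ℤ)))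
    ?_ ?_ (Finset.finite_toSet _)
  · rintro v ⟨h1, h2⟩
    rw [Finset.mem_coe, Finset.mem_powerset]
    intro j hj
    rw [Finset.mem_Ico]
    constructor
    · by_contra h; push Not at h
      exact Finsupp.mem_support_iff.1 hj (h1 j h)
    · by_contra h; push Not at h
      exact Finsupp.mem_support_iff.1 hj (h2 j h)
  · intro v _ v' _ h
    have h' : v.support = v'.support := h
    ext j
    by_cases hj : j ∈ v.support
    · have hj' : j ∈ v'.support := h' ▸ hj
      rw [Finsupp.mem_support_iff] at hj hj'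
      rcases zmod2_cases (v j) with a1 | a1
      · exact absurd a1 hj
      · rcases zmod2_cases (v' j) with a2 | a2
        · exact absurd a2 hj'
        · rw [a1, a2]
    · have hj' : j ∉ v'.support := h' ▸ hj
      rw [Finsupp.notMem_support_iff] at hj hj'
      rw [hj, hj']

/-- truncation -/
noncomputable def trunc (K : ℤ) (v : V) : V := v.filter (· < K)

theorem trunc_lt (K : ℤ) (v : V) (j : ℤ) (hj : j < K) : trunc K v j = v j := by
  unfold trunc
  exact Finsupp.filter_apply_pos _ _ hj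

theorem trunc_ge (K : ℤ) (v : V) (j : ℤ) (hj : K ≤ j) : trunc K v j = 0 := by
  unfold trunc
  exact Finsupp.filter_apply_neg _ _ (not_lt.2 hj)

/-- the restricted action on `Cs` -/
noncomputable def rho2 (x : SD W2) (a : Cs) : Cs := ⟨act x.v x.k a.1, Cs_act _ _ a.2⟩

section
variable {G : Type} [Group G] (p : G →* SD W2)

/-- finite heights of ball indicators -/
theorem ball_height (H : Set G) (hk : ∀ h ∈ H, (p h).k = 0) (K₀ : ℤ)
    (hb : ∀ h ∈ H, ∀ j < K₀, (p h).v j = 0) (K : ℤ) :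
    ∃ m, (⟨ball K, ball_mem K⟩ : Cs) ∈ Zm (fun g => rho2 (p g)) H m := by
  set T : Set V := {v : V | (∀ j < K₀, v j = 0) ∧ ∀ j, K ≤ j → v j = 0} with hT
  set S : Finset V := (finite_supp K₀ K).toFinset with hS
  have hST : ∀ v, v ∈ (S : Set V) ↔ v ∈ T := by
    intro v
    rw [hS, Set.Finite.coe_toFinset]
  have key : ∀ m, ∀ a : Cs, (∀ y y' : V, (∀ j < K, y j = y' j) → a.1 y = a.1 y') →
      a.1 ∈ Zm rhoV (S : Set V) m → a ∈ Zm (fun g => rho2 (p g)) H m := by
    intro m
    induction m with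
    | zero =>
      intro a _ ha
      have ha' : a.1 = 0 := ha
      exact Subtype.ext ha'
    | succ m ih =>
      intro a hinv ha h hh
      apply ih
      · intro y y' hyy
        have e : ∀ z, (rho2 (p h) a - a).1 z = a.1 (z + (p h).v) - a.1 z := by
          intro z
          show act (p h).v (p h).k a.1 z - a.1 z = _
          rw [hk h hh, act2_apply, neg_zero, sh_zero]
        rw [e, e, hinv y y' hyy, hinv (y + (p h).v) (y' + (p h).v) fun j hj => by
          rw [Finsupp.add_apply, Finsupp.add_apply, hyy j hj]]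
      · have htr : trunc K (p h).v ∈ (S : Set V) := by
          rw [hST]
          refine ⟨fun j hj => ?_, fun j hj => trunc_ge K _ j hj⟩
          by_cases hjK : j < K
          · rw [trunc_lt K _ j hjK, hb h hh j hj]
          · exact trunc_ge K _ j (not_lt.1 hjK)
        have h1 := ha _ htr
        have e : (rho2 (p h) a - a).1 = rhoV (trunc K (p h).v) a.1 - a.1 := by
          funext z
          show act (p h).v (p h).k a.1 z - a.1 z = rhoV (trunc K (p h).v) a.1 z - a.1 z
          rw [hk h hh, act2_apply, neg_zero, sh_zero, rhoV_apply]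
          congr 1
          apply hinv
          intro j hj
          rw [Finsupp.add_apply, Finsupp.add_apply, trunc_lt K _ j hj]
        rw [e]
        exact h1
  refine ⟨S.card + 1, key _ _ ?_ (fin_height S _)⟩
  intro y y' h
  show ball K y = ball K y'
  by_cases hy : ∀ j < K, y j = 0
  · rw [ball_pos K y hy, ball_pos K y' fun j hj => by rw [← h j hj]; exact hy j hj]
  · rw [ball_neg K y hy, ball_neg K y']
    intro hy'
    exact hy fun j hj => by rw [h j hj]; exact hy' j hj

/-- large heights -/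
theorem big_height (H : Set G) (hk : ∀ h ∈ H, (p h).k = 0)
    (hub : ∀ X : ℤ, ∃ h ∈ H, (p h).v ≠ 0 ∧ X ≤ ord (p h).v) (n : ℕ) :
    ∃ K : ℤ, ∀ a : Cs, a.1 0 = 1 → (∃ K', K ≤ K' ∧ ∀ y : V, (∃ j < K', y j ≠ 0) → a.1 y = 0) →
      a ∉ Zm (fun g => rho2 (p g)) H n := by
  induction n with
  | zero =>
    refine ⟨0, fun a ha _ hz => ?_⟩
    have hz' : a = 0 := hz
    rw [hz'] at ha
    exact absurd ha (by decide)
  | succ n ih =>
    obtain ⟨K, hK⟩ := ih
    obtain ⟨h, hh, hv0, hvK⟩ := hub K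
    obtain ⟨o1, o2⟩ := ord_spec _ hv0
    refine ⟨ord (p h).v + 1, fun a ha hsupp hz => ?_⟩
    obtain ⟨K', hKK', hs⟩ := hsupp
    have e : ∀ z, (rho2 (p h) a - a).1 z = a.1 (z + (p h).v) - a.1 z := by
      intro z
      show act (p h).v (p h).k a.1 z - a.1 z = _
      rw [hk h hh, act2_apply, neg_zero, sh_zero]
    refine hK (rho2 (p h) a - a) ?_ ⟨ord (p h).v, hvK, ?_⟩ (hz h hh)
    · rw [e, zero_add, ha, hs _ ⟨ord (p h).v, by omega, o1⟩]
      decide
    · rintro y ⟨j, hj, hy⟩
      rw [e, hs y ⟨j, by omega, hy⟩, hs (y + (p h).v) ⟨j, by omega, by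
        rw [Finsupp.add_apply, o2 j hj, add_zero]; exact hy⟩, sub_zero]

theorem height2 (H : Set G) (hk : ∀ h ∈ H, (p h).k = 0) (K₀ : ℤ)
    (hb : ∀ h ∈ H, ∀ j < K₀, (p h).v j = 0)
    (hub : ∀ X : ℤ, ∃ h ∈ H, (p h).v ≠ 0 ∧ X ≤ ord (p h).v) (n : ℕ) :
    ∃ a : Cs, (∃ m, a ∈ Zm (fun g => rho2 (p g)) H m) ∧ a ∉ Zm (fun g => rho2 (p g)) H n := by
  obtain ⟨K, hK⟩ := big_height p H hk hub n
  refine ⟨⟨ball K, ball_mem K⟩, ball_height p H hk K₀ hb K, hK _ ?_ ⟨K, le_rfl, ?_⟩⟩
  · exact ball_pos K 0 fun _ _ => rfl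
  · rintro y ⟨j, hj, hy⟩
    exact ball_neg K y fun h => hy (h j hj)

/-- nilpotent subgroups inside `k = 0` have `V`-image bounded below -/
theorem bounded_below (hG : ∀ g : G, (p g).w + mmf (p g).v ∈ Ms)
    (H : Subgroup G) (hH : Group.IsNilpotent H) (hk : ∀ h ∈ H, (p h).k = 0) :
    ∃ K₀ : ℤ, ∀ h ∈ H, ∀ j < K₀, (p h).v j = 0 := by
  by_contra hcon
  push Not at hcon
  have hT : ∀ X : ℤ, ∃ v ∈ {v | ∃ h ∈ H, (p h).v = v}, v ≠ 0 ∧ ord v < X := by
    intro X
    obtain ⟨h, hh, j, hj, hne⟩ := hcon X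
    obtain ⟨h1, h2⟩ := ord_lt_of _ X j hj hne
    exact ⟨(p h).v, ⟨h, hh, rfl⟩, h1, h2⟩
  obtain ⟨c, hc⟩ := (Subgroup.isNilpotent_iff_lowerCentralSeries H).1 hH
  have hle : ∀ i, H.lowerCentralSeries i ≤ H := fun i => Subgroup.lowerCentralSeries_le_self H i
  have claim : ∀ i, i ≤ c → ∀ g ∈ H.lowerCentralSeries (c - i), (p g).v = 0 → (p g).w = 0 := by
    intro i
    induction i with
    | zero =>
      intro _ g hg _
      rw [Nat.sub_zero, hc, Subgroup.mem_bot] at hg
      rw [hg, map_one]; rfl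
    | succ i ih =>
      intro hi g hg hv
      have hgk : (p g).k = 0 := hk g (hle _ hg)
      have hgM : (p g).w ∈ Ms := by
        have := hG g
        rwa [hv, mmf_zero, add_zero] at this
      refine inv_zero _ hT _ hgM ?_
      rintro _ ⟨h, hh, rfl⟩
      have e : c - i = (c - (i+1)) + 1 := by omega
      have h1 : ⁅g, h⁆ ∈ H.lowerCentralSeries (c - i) := by
        rw [e, Subgroup.lowerCentralSeries_succ]
        exact Subgroup.commutator_mem_commutator hg hh
      have hpg : p g = ⟨(p g).w, 0, 0⟩ := by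
        ext1
        · rfl
        · exact hv
        · exact hgk
      have hcom : p ⁅g, h⁆ = ⟨(p g).w - act (p h).v (p h).k (p g).w, 0, 0⟩ := by
        rw [map_commutatorElement, commutatorElement_def]
        have e1 : p g * p h * (p g)⁻¹ * (p h)⁻¹ = p g * (p h * (p g)⁻¹ * (p h)⁻¹) := by group
        have e2 : (p g)⁻¹ = ⟨-(p g).w, 0, 0⟩ := by
          rw [inv_eq_iff_mul_eq_one, hpg]
          ext1
          · simp only [SD.mul_w, SD.one_w, act_zero, add_neg_cancel]
          · simp only [SD.mul_v, SD.one_v, map_zero, add_zero]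
          · simp only [SD.mul_k, SD.one_k, add_zero]
        rw [e1, e2, SD.conj_w, SD.act_neg]
        conv_lhs => rw [hpg]
        ext1
        · simp only [SD.mul_w, act_zero, sub_eq_add_neg]
        · simp only [SD.mul_v, map_zero, add_zero]
        · simp only [SD.mul_k, add_zero]
      have h2 := ih (by omega) _ h1 (by rw [hcom])
      rw [hcom] at h2
      have h3 : (p g).w - act (p h).v (p h).k (p g).w = 0 := h2
      rw [hk h hh] at h3
      exact (sub_eq_zero.1 h3).symm
  -- choose two elements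
  obtain ⟨_, ⟨h', hh', rfl⟩, hv', _⟩ := hT 0
  obtain ⟨_, ⟨h, hh, rfl⟩, hv, hlt⟩ := hT (ord (p h').v)
  have hk1 := hk h hh
  have hk2 := hk h' hh'
  have hcomm : (p ⁅h, h'⁆).w = 0 := by
    by_cases hc0 : c = 0
    · have : h = 1 := by
        have h0 : h ∈ H.lowerCentralSeries c := by rw [hc0]; exact hh
        rw [hc] at h0
        exact Subgroup.mem_bot.1 h0
      exfalso
      apply hv
      rw [this, map_one]; rfl
    · refine claim (c - 1) (by omega) _ ?_ ?_
      · have e : c - (c - 1) = 0 + 1 := by omega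
        rw [e, Subgroup.lowerCentralSeries_succ]
        exact Subgroup.commutator_mem_commutator hh hh'
      · rw [map_commutatorElement, SD.comm_v _ _ hk1, hk2, sh_zero, sub_self]
  have hone : p ⁅h, h'⁆ = 1 := by
    ext1
    · exact hcomm
    · rw [map_commutatorElement, SD.comm_v _ _ hk1, hk2, sh_zero, sub_self]; rfl
    · rw [map_commutatorElement]; exact SD.comm_k _ _
  rw [map_commutatorElement, commutatorElement_eq_one_iff_mul_comm] at hone
  have hw := congrArg SD.w hone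
  rw [SD.mul_w, SD.mul_w, hk1, hk2] at hw
  refine no_comm (p h).v (p h').v hv hv' hlt (p h).w (p h').w (hG h) (hG h') ?_
  have h1 : (p h).w + act (p h).v 0 (p h').w + (p h).w + (p h').w =
      (p h').w + act (p h').v 0 (p h).w + (p h).w + (p h').w := by rw [hw]
  have e1 : (p h).w + act (p h).v 0 (p h').w + (p h).w + (p h').w =
      act (p h).v 0 (p h').w + (p h').w + ((p h).w + (p h).w) := by abel
  have e2 : (p h').w + act (p h').v 0 (p h).w + (p h).w + (p h').w =
      act (p h').v 0 (p h).w + (p h).w + ((p h').w + (p h').w) := by abel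
  rw [e1, e2, W2_add_self, W2_add_self, add_zero, add_zero] at h1
  exact h1

end

/-- the part of `SD W2` over a finite group of translations is nilpotent -/
theorem nilp_finite (K : Subgroup (SD W2)) (hk : ∀ x ∈ K, x.k = 0) (S : Finset V)
    (hS : ∀ x ∈ K, x.v ∈ S) : Group.IsNilpotent K := by
  let ι : W2 → SD W2 := fun w => ⟨w, 0, 0⟩
  have hadd : ∀ a b, ι (a+b) = ι a * ι b := by
    intro a b
    ext1
    · show a + b = a + act 0 0 b
      rw [act_zero]
    · show (0:V) = 0 + sh 0 0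
      rw [map_zero, add_zero]
    · rfl
  have hinj : Function.Injective ι := fun a b h => congrArg SD.w h
  have hconj : ∀ g a, g * ι a * g⁻¹ = ι (act g.v g.k a) := fun g a => SD.conj_w g a
  let f : K →* Multiplicative V :=
    { toFun := fun x => Multiplicative.ofAdd x.1.v
      map_one' := rfl
      map_mul' := by
        intro x y
        show Multiplicative.ofAdd (x.1.v + sh x.1.k y.1.v) = _
        rw [hk x.1 x.2, sh_zero]; rfl }
  refine nilp_ext ι (fun g => act g.v g.k) hadd hinj hconj K inferInstance f (S.card + 1) ?_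
  intro x hx
  refine ⟨x.1.w, ?_, ?_⟩
  · have key : ∀ m, ∀ w : W2, w ∈ Zm rhoV (S : Set V) m →
        w ∈ Zm (fun g : SD W2 => act g.v g.k) (K : Set (SD W2)) m := by
      intro m
      induction m with
      | zero => exact fun w hw => hw
      | succ m ih =>
        intro w hw h hh
        apply ih
        have := hw h.v (hS h hh)
        show act h.v h.k w - w ∈ _
        rw [hk h hh]
        exact this
    exact key _ _ (fin_height S _)
  · ext1
    · rfl
    · have : Multiplicative.ofAdd x.1.v = 1 := hx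
      exact (Multiplicative.ofAdd.injective this).symm
    · exact (hk x.1 x.2).symm

end Pool.Agent.H910NM

namespace Pool.Agent.H910NM

open Act
open scoped commutatorElement

theorem V_neg (v : V) : -v = v := by
  rw [neg_eq_iff_add_eq_zero]; exact V_add_self v

/-- the group -/
noncomputable def Gs : Subgroup (SD W1 × SD W2) where
  carrier := {g | g.1.w ∈ A1 ∧ g.2.w + mmf g.2.v ∈ Ms ∧ g.1.k = g.2.k}
  mul_mem' := by
    rintro x y ⟨hx1, hx2, hx3⟩ ⟨hy1, hy2, hy3⟩
    refine ⟨?_, ?_, ?_⟩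
    · show x.1.w + act x.1.v x.1.k y.1.w ∈ A1
      exact add_mem hx1 (A1_act _ _ _ hy1)
    · show x.2.w + act x.2.v x.2.k y.2.w + mmf (x.2.v + sh x.2.k y.2.v) ∈ Ms
      rw [mmf_add]
      have h1 := Ms_act x.2.v x.2.k hy2
      rw [act_add] at h1
      have h2 := Delta_mmf_Ms x.2.v (sh x.2.k y.2.v)
      rw [← mmf_sh, ← act_split] at h2
      rw [← mmf_sh]
      have h3 := add_mem (add_mem hx2 h1) h2
      have e : x.2.w + mmf x.2.v + (act x.2.v x.2.k y.2.w + act x.2.v x.2.k (mmf y.2.v)) +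
          (act x.2.v x.2.k (mmf y.2.v) + act 0 x.2.k (mmf y.2.v)) =
          x.2.w + act x.2.v x.2.k y.2.w + (mmf x.2.v + act 0 x.2.k (mmf y.2.v)) +
          (act x.2.v x.2.k (mmf y.2.v) + act x.2.v x.2.k (mmf y.2.v)) := by abel
      rw [e, W2_add_self, add_zero] at h3
      exact h3
    · show x.1.k + y.1.k = x.2.k + y.2.k
      rw [hx3, hy3]
  one_mem' := by
    refine ⟨zero_mem _, ?_, rfl⟩
    show (0 : W2) + mmf 0 ∈ Ms
    rw [mmf_zero, add_zero]; exact zero_mem _
  inv_mem' := by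
    rintro x ⟨hx1, hx2, hx3⟩
    refine ⟨?_, ?_, ?_⟩
    · show -(act (-(sh (-x.1.k) x.1.v)) (-x.1.k) x.1.w) ∈ A1
      exact neg_mem (A1_act _ _ _ hx1)
    · show -(act (-(sh (-x.2.k) x.2.v)) (-x.2.k) x.2.w) + mmf (-(sh (-x.2.k) x.2.v)) ∈ Ms
      rw [W2_neg, V_neg]
      have h1 := Ms_act (sh (-x.2.k) x.2.v) (-x.2.k) hx2
      rw [act_add, act_split _ _ (mmf x.2.v), mmf_sh] at h1
      have h2 := Delta_mmf_Ms (sh (-x.2.k) x.2.v) (sh (-x.2.k) x.2.v)
      have h3 := add_mem h1 h2
      have e : act (sh (-x.2.k) x.2.v) (-x.2.k) x.2.w +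
          act (sh (-x.2.k) x.2.v) 0 (mmf (sh (-x.2.k) x.2.v)) +
          (act (sh (-x.2.k) x.2.v) 0 (mmf (sh (-x.2.k) x.2.v)) + mmf (sh (-x.2.k) x.2.v)) =
          act (sh (-x.2.k) x.2.v) (-x.2.k) x.2.w + mmf (sh (-x.2.k) x.2.v) +
          (act (sh (-x.2.k) x.2.v) 0 (mmf (sh (-x.2.k) x.2.v)) +
            act (sh (-x.2.k) x.2.v) 0 (mmf (sh (-x.2.k) x.2.v))) := by abel
      rw [e, W2_add_self, add_zero] at h3
      exact h3
    · show -x.1.k = -x.2.k
      rw [hx3]

/-- projections -/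
noncomputable def p1 : Gs →* SD W1 := (MonoidHom.fst _ _).comp Gs.subtype
noncomputable def p2 : Gs →* SD W2 := (MonoidHom.snd _ _).comp Gs.subtype

theorem Gs_ext (x y : Gs) (h1 : p1 x = p1 y) (h2 : p2 x = p2 y) : x = y :=
  Subtype.ext (Prod.ext h1 h2)

theorem Gs_k (x : Gs) : (p1 x).k = (p2 x).k := x.2.2.2
theorem Gs_1 (x : Gs) : (p1 x).w ∈ A1 := x.2.1
theorem Gs_2 (x : Gs) : (p2 x).w + mmf (p2 x).v ∈ Ms := x.2.2.1

noncomputable def i1 (a : A1) : Gs :=
  ⟨(⟨a.1, 0, 0⟩, 1), a.2, by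
    show (0:W2) + mmf 0 ∈ Ms
    rw [mmf_zero, add_zero]; exact zero_mem _, rfl⟩

noncomputable def i2 (a : Cs) : Gs :=
  ⟨(1, ⟨a.1, 0, 0⟩), zero_mem _, by
    show a.1 + mmf 0 ∈ Ms
    rw [mmf_zero, add_zero]; exact Cs_le_Ms a.2, rfl⟩

/-- lifts of arbitrary elements of the two lamplighter quotients -/
noncomputable def lift (u v : V) (k : ℤ) : Gs :=
  ⟨(⟨0, u, k⟩, ⟨mmf v, v, k⟩), zero_mem _, by
    show mmf v + mmf v ∈ Ms
    rw [W2_add_self]; exact zero_mem _, rfl⟩

theorem i1_add (a b : A1) : i1 (a + b) = i1 a * i1 b := by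
  apply Gs_ext
  · rw [map_mul]
    ext1
    · show a.1 + b.1 = a.1 + act 0 0 b.1
      rw [act_zero]
    · show (0:V) = 0 + sh 0 0
      rw [map_zero, add_zero]
    · rfl
  · rw [map_mul]
    show (1 : SD W2) = 1 * 1
    rw [mul_one]

theorem i2_add (a b : Cs) : i2 (a + b) = i2 a * i2 b := by
  apply Gs_ext
  · rw [map_mul]
    show (1 : SD W1) = 1 * 1
    rw [mul_one]
  · rw [map_mul]
    ext1
    · show a.1 + b.1 = a.1 + act 0 0 b.1
      rw [act_zero]
    · show (0:V) = 0 + sh 0 0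
      rw [map_zero, add_zero]
    · rfl

theorem i1_inj : Function.Injective i1 := by
  intro a b h
  have := congrArg (fun g => (p1 g).w) h
  exact Subtype.ext this

theorem i2_inj : Function.Injective i2 := by
  intro a b h
  have := congrArg (fun g => (p2 g).w) h
  exact Subtype.ext this

theorem i1_conj (g : Gs) (a : A1) : g * i1 a * g⁻¹ = i1 (rho1 (p1 g) a) := by
  apply Gs_ext
  · rw [map_mul, map_mul, map_inv]
    exact SD.conj_w (p1 g) a.1
  · rw [map_mul, map_mul, map_inv]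
    show p2 g * 1 * (p2 g)⁻¹ = 1
    rw [mul_one, mul_inv_cancel]

theorem i2_conj (g : Gs) (a : Cs) : g * i2 a * g⁻¹ = i2 (rho2 (p2 g) a) := by
  apply Gs_ext
  · rw [map_mul, map_mul, map_inv]
    show p1 g * 1 * (p1 g)⁻¹ = 1
    rw [mul_one, mul_inv_cancel]
  · rw [map_mul, map_mul, map_inv]
    exact SD.conj_w (p2 g) a.1

/-! ### no maximal nilpotent subgroups -/

theorem no_max (H : Subgroup Gs) (hH : Group.IsNilpotent H) :
    ∃ K : Subgroup Gs, Group.IsNilpotent K ∧ H < K := by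
  classical
  by_cases hA : ∃ h ∈ H, (p1 h).k ≠ 0
  · obtain ⟨h₀, hh₀, hk₀⟩ := hA
    exact enlarge i1 (fun g => rho1 (p1 g)) i1_add i1_inj i1_conj H hH
      (fun n => height1 p1 i1 i1_add i1_inj i1_conj H hH h₀ hh₀ hk₀ n)
  push Not at hA
  have hk : ∀ h ∈ H, (p2 h).k = 0 := fun h hh => by rw [← Gs_k]; exact hA h hh
  obtain ⟨K₀, hK₀⟩ := bounded_below p2 Gs_2 H hH hk
  by_cases hB : ∀ X : ℤ, ∃ h ∈ H, (p2 h).v ≠ 0 ∧ X ≤ ord (p2 h).v
  · exact enlarge i2 (fun g => rho2 (p2 g)) i2_add i2_inj i2_conj H hH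
      (fun n => height2 p2 (H : Set Gs) hk K₀ hK₀ hB n)
  push Not at hB
  obtain ⟨X₁, hX₁⟩ := hB
  set VH : Set V := {v | ∃ h ∈ H, (p2 h).v = v} with hVH
  have hVadd : ∀ v ∈ VH, ∀ v' ∈ VH, v + v' ∈ VH := by
    rintro _ ⟨h, hh, rfl⟩ _ ⟨h', hh', rfl⟩
    refine ⟨h * h', mul_mem hh hh', ?_⟩
    rw [map_mul, SD.mul_v, hk h hh, sh_zero]
  have hV0 : (0 : V) ∈ VH := ⟨1, one_mem _, by rw [map_one]; rfl⟩
  have hVfin : VH.Finite := by
    refine Set.Finite.of_injOn (f := trunc X₁)
      (t := {v : V | (∀ j < K₀, v j = 0) ∧ ∀ j, X₁ ≤ j → v j = 0}) ?_ ?_ (finite_supp K₀ X₁)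
    · rintro _ ⟨h, hh, rfl⟩
      refine ⟨fun j hj => ?_, fun j hj => trunc_ge X₁ _ j hj⟩
      by_cases hjX : j < X₁
      · rw [trunc_lt X₁ _ j hjX, hK₀ h hh j hj]
      · exact trunc_ge X₁ _ j (not_lt.1 hjX)
    · intro v hv v' hv' htr
      have h1 := hVadd v hv v' hv'
      obtain ⟨h, hh, hhv⟩ := h1
      by_contra hne
      have hne0 : v + v' ≠ 0 := by
        intro h0
        apply hne
        rw [add_eq_zero_iff_eq_neg, V_neg] at h0
        exact h0
      have h2 := hX₁ h hh (by rw [hhv]; exact hne0)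
      rw [hhv] at h2
      obtain ⟨o1, _⟩ := ord_spec _ hne0
      apply o1
      have h3 := DFunLike.congr_fun htr (ord (v + v'))
      rw [trunc_lt _ _ _ h2, trunc_lt _ _ _ h2] at h3
      rw [Finsupp.add_apply, h3, CharTwo.add_self_eq_zero]
  obtain ⟨e, he⟩ : ∃ e : V, e ∉ VH := by
    by_contra hcon
    push Not at hcon
    have : (Set.univ : Set V).Finite := hVfin.subset fun v _ => hcon v
    exact Set.infinite_univ this
  -- the nilpotent subgroup of the second factor
  let Q : Subgroup (SD W2) :=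
    { carrier := {x | x.k = 0 ∧ (x.v ∈ VH ∨ x.v + e ∈ VH)}
      one_mem' := ⟨rfl, Or.inl hV0⟩
      mul_mem' := by
        rintro x y ⟨hx, hx'⟩ ⟨hy, hy'⟩
        refine ⟨by rw [SD.mul_k, hx, hy, add_zero], ?_⟩
        rw [SD.mul_v, hx, sh_zero]
        rcases hx' with hx' | hx' <;> rcases hy' with hy' | hy'
        · exact Or.inl (hVadd _ hx' _ hy')
        · refine Or.inr ?_
          rw [add_assoc]; exact hVadd _ hx' _ hy'
        · refine Or.inr ?_
          have := hVadd _ hx' _ hy'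
          rwa [add_right_comm] at this
        · refine Or.inl ?_
          have := hVadd _ hx' _ hy'
          have e2 : x.v + e + (y.v + e) = x.v + y.v + (e + e) := by abel
          rwa [e2, V_add_self, add_zero] at this
      inv_mem' := by
        rintro x ⟨hx, hx'⟩
        refine ⟨by rw [SD.inv_k, hx, neg_zero], ?_⟩
        rw [SD.inv_v, hx, neg_zero, sh_zero, V_neg]
        exact hx' }
  have hQ : Group.IsNilpotent Q := by
    refine nilp_finite Q (fun x hx => hx.1)
      (hVfin.toFinset ∪ hVfin.toFinset.image (· + e)) ?_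
    rintro x ⟨_, hx | hx⟩
    · exact Finset.mem_union_left _ (hVfin.mem_toFinset.2 hx)
    · refine Finset.mem_union_right _ (Finset.mem_image.2 ⟨x.v + e, hVfin.mem_toFinset.2 hx, ?_⟩)
      rw [add_assoc, V_add_self, add_zero]
  let H1 : Subgroup (SD W1) := H.map p1
  have hH1 : Group.IsNilpotent H1 :=
    Group.nilpotent_of_surjective (p1.subgroupMap H) (p1.subgroupMap_surjective H)
  let K : Subgroup Gs := H1.comap p1 ⊓ Q.comap p2
  refine ⟨K, ?_, ?_⟩
  · let F : K →* H1 × Q :=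
      { toFun := fun x => (⟨p1 x.1, x.2.1⟩, ⟨p2 x.1, x.2.2⟩)
        map_one' := rfl
        map_mul' := fun x y => rfl }
    refine Subgroup.isNilpotent_of_ker_le_center F ?_
    have : F.ker = ⊥ := by
      rw [MonoidHom.ker_eq_bot_iff]
      intro x y hxy
      have h1 : p1 x.1 = p1 y.1 := congrArg (fun z => (z.1 : SD W1)) hxy
      have h2 : p2 x.1 = p2 y.1 := congrArg (fun z => (z.2 : SD W2)) hxy
      exact Subtype.ext (Gs_ext _ _ h1 h2)
    rw [this]
    exact bot_le
  · refine lt_of_le_of_ne ?_ ?_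
    · intro h hh
      exact ⟨⟨h, hh, rfl⟩, hk h hh, Or.inl ⟨h, hh, rfl⟩⟩
    · intro heq
      apply he
      have h1 : lift 0 e 0 ∈ K := by
        refine ⟨⟨1, one_mem _, ?_⟩, rfl, Or.inr ?_⟩
        · rw [map_one]; rfl
        · show e + e ∈ VH
          rw [V_add_self]; exact hV0
      rw [← heq] at h1
      exact ⟨_, h1, rfl⟩

/-! ### the maximal condition on normal subgroups -/

theorem chain_sec {G : Type} [Group G] {N N' : Subgroup G} (σ : V → G)
    (hσ : ∀ g ∈ N', ∃ x, g * (σ x)⁻¹ ∈ N) (h0 : σ 0 ∈ N)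
    (hadd : ∀ v w, σ v * σ w * (σ (v + w))⁻¹ ∈ N)
    (hsh : ∀ k v, ∃ g : G, g * σ v * g⁻¹ * (σ (sh k v))⁻¹ ∈ N) : MaxBetween N N' := by
  refine MaxBetween.of_section σ hσ ?_
  intro f hf hmono hl hu
  have tr : ∀ n, ∀ x y : G, x * y⁻¹ ∈ N → x ∈ f n → y ∈ f n := by
    intro n x y hxy hx
    have := mul_mem (inv_mem (hl n hxy)) hx
    rwa [mul_inv_rev, inv_inv, inv_mul_cancel_right] at this
  let J : ℕ → AddSubgroup V := fun n =>
    { carrier := {v | σ v ∈ f n}
      zero_mem' := hl n h0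
      add_mem' := by
        intro v w hv hw
        exact tr n _ _ (hadd v w) (mul_mem hv hw)
      neg_mem' := by
        intro v hv
        rw [V_neg]; exact hv }
  obtain ⟨n, hn⟩ := chain_V J (fun a b hab v hv => hmono hab hv) (by
    intro n k v hv
    obtain ⟨g, hg⟩ := hsh k v
    exact tr n _ _ hg ((hf n).conj_mem _ hv g))
  refine ⟨n, fun m hm x hx => ?_⟩
  have h1 : x ∈ J m := hx
  rw [hn m hm] at h1
  exact h1

namespace SD
variable {W : Type} [AddCommGroup W] [Act W]

theorem conj_k (g x : SD W) : (g * x * g⁻¹).k = x.k := by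
  simp only [mul_k, inv_k]; ring

theorem conj_v (g x : SD W) (hx : x.k = 0) : (g * x * g⁻¹).v = sh g.k x.v := by
  simp only [mul_k, mul_v, inv_v, hx, add_zero, map_neg, sh_sh, add_neg_cancel, sh_zero]
  abel

theorem conj_w' (g x : SD W) (hx : x.k = 0) (hv : x.v = 0) :
    (g * x * g⁻¹).w = act g.v g.k x.w := by
  have : x = ⟨x.w, 0, 0⟩ := by ext1 <;> simp [hx, hv]
  rw [this, conj_w]

theorem div_v (x y : SD W) (hx : x.k = 0) (hy : y.k = 0) : (x * y⁻¹).v = x.v - y.v := by
  rw [mul_v, inv_v, hx, hy, neg_zero, sh_zero, sh_zero, sub_eq_add_neg]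

theorem div_k (x y : SD W) : (x * y⁻¹).k = x.k - y.k := by
  rw [mul_k, inv_k, sub_eq_add_neg]

theorem div_w (x y : SD W) (hx : x.k = 0) (hy : y.k = 0) (hv : x.v = y.v) :
    (x * y⁻¹).w = x.w - y.w := by
  rw [mul_w, inv_w, hx, hy, neg_zero, sh_zero, act_neg, act_act, map_neg, sh_zero, hv,
    add_neg_cancel, add_zero, act_zero, sub_eq_add_neg]

end SD

/-- the layers -/
noncomputable def Lay (P : Gs → Prop) (h1 : P 1) (hmul : ∀ x y, P x → P y → P (x * y))
    (hinv : ∀ x, P x → P x⁻¹) : Subgroup Gs where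
  carrier := {x | P x}
  one_mem' := h1
  mul_mem' := fun hx hy => hmul _ _ hx hy
  inv_mem' := fun hx => hinv _ hx

noncomputable def L5 : Subgroup Gs where
  carrier := {x | (p2 x).k = 0}
  one_mem' := rfl
  mul_mem' := by
    intro x y hx hy
    show (p2 (x * y)).k = 0
    rw [map_mul, SD.mul_k, show (p2 x).k = 0 from hx, show (p2 y).k = 0 from hy, add_zero]
  inv_mem' := by
    intro x hx
    show (p2 x⁻¹).k = 0
    rw [map_inv, SD.inv_k, show (p2 x).k = 0 from hx, neg_zero]

noncomputable def L4 : Subgroup Gs where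
  carrier := {x | (p2 x).k = 0 ∧ (p2 x).v = 0}
  one_mem' := ⟨rfl, rfl⟩
  mul_mem' := by
    rintro x y ⟨hx, hx2⟩ ⟨hy, hy2⟩
    refine ⟨?_, ?_⟩
    · rw [map_mul, SD.mul_k, hx, hy, add_zero]
    · rw [map_mul, SD.mul_v, hx2, hy2, map_zero, add_zero]
  inv_mem' := by
    rintro x ⟨hx, hx2⟩
    refine ⟨?_, ?_⟩
    · rw [map_inv, SD.inv_k, hx, neg_zero]
    · rw [map_inv, SD.inv_v, hx2, map_zero, neg_zero]

noncomputable def L3 : Subgroup Gs where
  carrier := {x | (p2 x).k = 0 ∧ (p2 x).v = 0 ∧ (p1 x).v = 0}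
  one_mem' := ⟨rfl, rfl, rfl⟩
  mul_mem' := by
    rintro x y ⟨hx, hx2, hx3⟩ ⟨hy, hy2, hy3⟩
    refine ⟨?_, ?_, ?_⟩
    · rw [map_mul, SD.mul_k, hx, hy, add_zero]
    · rw [map_mul, SD.mul_v, hx2, hy2, map_zero, add_zero]
    · rw [map_mul, SD.mul_v, hx3, hy3, map_zero, add_zero]
  inv_mem' := by
    rintro x ⟨hx, hx2, hx3⟩
    refine ⟨?_, ?_, ?_⟩
    · rw [map_inv, SD.inv_k, hx, neg_zero]
    · rw [map_inv, SD.inv_v, hx2, map_zero, neg_zero]
    · rw [map_inv, SD.inv_v, hx3, map_zero, neg_zero]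

noncomputable def L2 : Subgroup Gs where
  carrier := {x | (p2 x).k = 0 ∧ (p2 x).v = 0 ∧ (p1 x).v = 0 ∧ (p2 x).w ∈ Cs}
  one_mem' := ⟨rfl, rfl, rfl, zero_mem _⟩
  mul_mem' := by
    rintro x y ⟨hx, hx2, hx3, hx4⟩ ⟨hy, hy2, hy3, hy4⟩
    refine ⟨?_, ?_, ?_, ?_⟩
    · rw [map_mul, SD.mul_k, hx, hy, add_zero]
    · rw [map_mul, SD.mul_v, hx2, hy2, map_zero, add_zero]
    · rw [map_mul, SD.mul_v, hx3, hy3, map_zero, add_zero]
    · rw [map_mul, SD.mul_w]
      exact add_mem hx4 (Cs_act _ _ hy4)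
  inv_mem' := by
    rintro x ⟨hx, hx2, hx3, hx4⟩
    refine ⟨?_, ?_, ?_, ?_⟩
    · rw [map_inv, SD.inv_k, hx, neg_zero]
    · rw [map_inv, SD.inv_v, hx2, map_zero, neg_zero]
    · rw [map_inv, SD.inv_v, hx3, map_zero, neg_zero]
    · rw [map_inv, SD.inv_w]
      exact neg_mem (Cs_act _ _ hx4)

noncomputable def L1 : Subgroup Gs where
  carrier := {x | p2 x = 1 ∧ (p1 x).v = 0}
  one_mem' := ⟨rfl, rfl⟩
  mul_mem' := by
    rintro x y ⟨hx, hx2⟩ ⟨hy, hy2⟩
    refine ⟨?_, ?_⟩
    · rw [map_mul, hx, hy, mul_one]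
    · rw [map_mul, SD.mul_v, hx2, hy2, map_zero, add_zero]
  inv_mem' := by
    rintro x ⟨hx, hx2⟩
    refine ⟨?_, ?_⟩
    · rw [map_inv, hx, inv_one]
    · rw [map_inv, SD.inv_v, hx2, map_zero, neg_zero]

theorem L5_normal : L5.Normal := by
  constructor
  intro x hx g
  show (p2 (g * x * g⁻¹)).k = 0
  rw [map_mul, map_mul, map_inv, SD.conj_k]
  exact hx

theorem L4_normal : L4.Normal := by
  constructor
  rintro x ⟨hx, hx2⟩ g
  refine ⟨?_, ?_⟩
  · rw [map_mul, map_mul, map_inv, SD.conj_k]; exact hx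
  · rw [map_mul, map_mul, map_inv, SD.conj_v _ _ hx, hx2, map_zero]

theorem L3_normal : L3.Normal := by
  constructor
  rintro x ⟨hx, hx2, hx3⟩ g
  have hx1 : (p1 x).k = 0 := by rw [Gs_k]; exact hx
  refine ⟨?_, ?_, ?_⟩
  · rw [map_mul, map_mul, map_inv, SD.conj_k]; exact hx
  · rw [map_mul, map_mul, map_inv, SD.conj_v _ _ hx, hx2, map_zero]
  · rw [map_mul, map_mul, map_inv, SD.conj_v _ _ hx1, hx3, map_zero]

theorem L2_normal : L2.Normal := by
  constructor
  rintro x ⟨hx, hx2, hx3, hx4⟩ g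
  have hx1 : (p1 x).k = 0 := by rw [Gs_k]; exact hx
  refine ⟨?_, ?_, ?_, ?_⟩
  · rw [map_mul, map_mul, map_inv, SD.conj_k]; exact hx
  · rw [map_mul, map_mul, map_inv, SD.conj_v _ _ hx, hx2, map_zero]
  · rw [map_mul, map_mul, map_inv, SD.conj_v _ _ hx1, hx3, map_zero]
  · rw [map_mul, map_mul, map_inv, SD.conj_w' _ _ hx hx2]
    exact Cs_act _ _ hx4

theorem L1_normal : L1.Normal := by
  constructor
  rintro x ⟨hx, hx3⟩ g
  have hx1 : (p1 x).k = 0 := by rw [Gs_k, hx]; rfl
  refine ⟨?_, ?_⟩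
  · rw [map_mul, map_mul, map_inv, hx, mul_one, mul_inv_cancel]
  · rw [map_mul, map_mul, map_inv, SD.conj_v _ _ hx1, hx3, map_zero]

/-- first layer -/
theorem layer1 : MaxBetween ⊥ L1 := by
  refine MaxBetween.of_section i1 ?_ ?_
  · rintro g ⟨hg, hg2⟩
    refine ⟨⟨(p1 g).w, Gs_1 g⟩, ?_⟩
    rw [Subgroup.mem_bot, mul_inv_eq_one]
    apply Gs_ext
    · ext1
      · rfl
      · exact hg2
      · show (p1 g).k = 0
        rw [Gs_k, hg]; rfl
    · exact hg
  · intro f hf hmono hl hu
    let J : ℕ → AddSubgroup (ℤ → ZMod 3) := fun n =>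
      { carrier := {a | ∃ h : a ∈ A1, i1 ⟨a, h⟩ ∈ f n}
        zero_mem' := ⟨zero_mem _, by
          have : i1 ⟨0, zero_mem _⟩ = 1 := iota_zero i1 (fun g => rho1 (p1 g)) i1_add i1_inj i1_conj
          rw [this]; exact one_mem _⟩
        add_mem' := by
          rintro a b ⟨ha, ha'⟩ ⟨hb, hb'⟩
          refine ⟨add_mem ha hb, ?_⟩
          have : i1 ⟨a + b, add_mem ha hb⟩ = i1 ⟨a, ha⟩ * i1 ⟨b, hb⟩ := i1_add ⟨a, ha⟩ ⟨b, hb⟩
          rw [this]; exact mul_mem ha' hb'
        neg_mem' := by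
          rintro a ⟨ha, ha'⟩
          refine ⟨neg_mem ha, ?_⟩
          have : i1 ⟨-a, neg_mem ha⟩ = (i1 ⟨a, ha⟩)⁻¹ :=
            iota_neg i1 (fun g => rho1 (p1 g)) i1_add i1_inj i1_conj ⟨a, ha⟩
          rw [this]; exact inv_mem ha' }
    have hconj : ∀ n, ∀ u k, ∀ a ∈ J n, (act u k a : W1) ∈ J n := by
      rintro n u k a ⟨ha, ha'⟩
      refine ⟨A1_act _ _ _ ha, ?_⟩
      have h1 := (hf n).conj_mem _ ha' (lift u 0 k)
      rw [i1_conj] at h1
      exact h1
    by_cases hne : ∃ n, ∃ F ∈ J n, F ≠ 0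
    · obtain ⟨n, hn⟩ := hne
      refine ⟨n, fun m _ x _ => ?_⟩
      have h1 : A1 ≤ J n := by
        refine A1_irred (J n) (fun a ha => ha.1) ?_ ?_ hn
        · intro F hF
          have h2 := hconj n (Finsupp.single 0 1) 0 F hF
          have e : (act (Finsupp.single 0 1) 0 F : W1) = fun n => sg n * F n := by
            funext n
            rw [act1_apply, S_single, sub_zero]
            show sg n ^ 1 * F n = _
            rw [pow_one]
          rwa [e] at h2
        · intro k F hF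
          have h2 := hconj n 0 k F hF
          have e : (act 0 k F : W1) = fun n => F (n - k) := by
            funext n
            rw [act1_apply, S_zero, one_mul]
          rwa [e] at h2
      obtain ⟨_, h2⟩ := h1 x.2
      exact h2
    · push Not at hne
      refine ⟨0, fun m _ x hx => ?_⟩
      have h1 : x.1 ∈ J m := ⟨x.2, hx⟩
      have h2 := hne m x.1 h1
      have h3 : x = 0 := Subtype.ext h2
      rw [h3, iota_zero i1 (fun g => rho1 (p1 g)) i1_add i1_inj i1_conj]
      exact one_mem _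

/-- second layer -/
theorem layer2 : MaxBetween L1 L2 := by
  refine MaxBetween.of_section i2 ?_ ?_
  · rintro g ⟨hg, hg2, hg3, hg4⟩
    refine ⟨⟨(p2 g).w, hg4⟩, ?_, ?_⟩
    · rw [map_mul, map_inv, mul_inv_eq_one]
      ext1
      · rfl
      · exact hg2
      · exact hg
    · rw [map_mul, map_inv]
      show (p1 g * (1 : SD W1)⁻¹).v = 0
      rw [inv_one, mul_one]; exact hg3
  · intro f hf hmono hl hu
    let J : ℕ → AddSubgroup W2 := fun n =>
      { carrier := {a | ∃ h : a ∈ Cs, i2 ⟨a, h⟩ ∈ f n}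
        zero_mem' := ⟨zero_mem _, by
          have : i2 ⟨0, zero_mem _⟩ = 1 := iota_zero i2 (fun g => rho2 (p2 g)) i2_add i2_inj i2_conj
          rw [this]; exact one_mem _⟩
        add_mem' := by
          rintro a b ⟨ha, ha'⟩ ⟨hb, hb'⟩
          refine ⟨add_mem ha hb, ?_⟩
          have : i2 ⟨a + b, add_mem ha hb⟩ = i2 ⟨a, ha⟩ * i2 ⟨b, hb⟩ := i2_add ⟨a, ha⟩ ⟨b, hb⟩
          rw [this]; exact mul_mem ha' hb'
        neg_mem' := by
          rintro a ⟨ha, ha'⟩
          refine ⟨neg_mem ha, ?_⟩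
          have : i2 ⟨-a, neg_mem ha⟩ = (i2 ⟨a, ha⟩)⁻¹ :=
            iota_neg i2 (fun g => rho2 (p2 g)) i2_add i2_inj i2_conj ⟨a, ha⟩
          rw [this]; exact inv_mem ha' }
    have hconj : ∀ n, ∀ v k, ∀ a ∈ J n, (act v k a : W2) ∈ J n := by
      rintro n v k a ⟨ha, ha'⟩
      refine ⟨Cs_act _ _ ha, ?_⟩
      have h1 := (hf n).conj_mem _ ha' (lift 0 v k)
      rw [i2_conj] at h1
      exact h1
    by_cases hne : ∃ n, ∃ F ∈ J n, F ≠ 0
    · obtain ⟨n, hn⟩ := hne
      refine ⟨n, fun m _ x _ => ?_⟩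
      have h1 : Cs ≤ J n := Cs_irred (J n) (fun a ha => ha.1) (fun v k a ha => hconj n v k a ha) hn
      obtain ⟨_, h2⟩ := h1 x.2
      exact h2
    · push Not at hne
      refine ⟨0, fun m _ x hx => ?_⟩
      have h1 : x.1 ∈ J m := ⟨x.2, hx⟩
      have h2 := hne m x.1 h1
      have h3 : x = 0 := Subtype.ext h2
      rw [h3, iota_zero i2 (fun g => rho2 (p2 g)) i2_add i2_inj i2_conj]
      exact one_mem _

noncomputable def s3 (b : V) : Gs :=
  ⟨(1, ⟨Lam b, 0, 0⟩), zero_mem _, by
    show Lam b + mmf 0 ∈ Ms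
    rw [mmf_zero, add_zero]; exact Lam_mem_Ms b, rfl⟩

theorem layer3 : MaxBetween L2 L3 := by
  refine chain_sec s3 ?_ ?_ ?_ ?_
  · rintro g ⟨hg, hg2, hg3⟩
    have h1 := Gs_2 g
    rw [hg2, mmf_zero, add_zero] at h1
    obtain ⟨c, hc, b, hb⟩ := h1
    refine ⟨b, ?_, ?_, ?_, ?_⟩
    · rw [map_mul, map_inv, SD.div_k]
      show (p2 g).k - 0 = 0
      rw [hg, sub_zero]
    · rw [map_mul, map_inv, SD.div_v _ _ hg rfl]
      show (p2 g).v - 0 = 0
      rw [hg2, sub_zero]
    · rw [map_mul, map_inv]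
      show (p1 g * (1 : SD W1)⁻¹).v = 0
      rw [inv_one, mul_one]; exact hg3
    · rw [map_mul, map_inv, SD.div_w _ _ hg rfl hg2]
      show (p2 g).w - Lam b ∈ Cs
      rw [hb, add_sub_cancel_right]; exact hc
  · refine ⟨rfl, rfl, rfl, ?_⟩
    show Lam 0 ∈ Cs
    rw [Lam_zero]; exact zero_mem _
  · intro v w
    have : s3 v * s3 w * (s3 (v + w))⁻¹ = 1 := by
      rw [mul_inv_eq_one]
      apply Gs_ext
      · rw [map_mul]
        show (1 : SD W1) * 1 = 1
        rw [mul_one]
      · rw [map_mul]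
        ext1
        · show Lam v + act 0 0 (Lam w) = Lam (v + w)
          rw [act_zero, Lam_add]
        · show (0:V) + sh 0 0 = 0
          rw [map_zero, add_zero]
        · rfl
    rw [this]; exact one_mem _
  · intro k v
    refine ⟨lift 0 0 (-k), ?_⟩
    have : lift 0 0 (-k) * s3 v * (lift 0 0 (-k))⁻¹ * (s3 (sh k v))⁻¹ = 1 := by
      rw [mul_inv_eq_one]
      apply Gs_ext
      · rw [map_mul, map_mul, map_inv]
        show p1 (lift 0 0 (-k)) * 1 * (p1 (lift 0 0 (-k)))⁻¹ = 1
        rw [mul_one, mul_inv_cancel]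
      · rw [map_mul, map_mul, map_inv]
        have h1 : p2 (s3 v) = ⟨Lam v, 0, 0⟩ := rfl
        rw [h1, SD.conj_w]
        ext1
        · show act 0 (-k) (Lam v) = Lam (sh k v)
          rw [Lam_sh, neg_neg]
        · rfl
        · rfl
    rw [this]; exact one_mem _

noncomputable def s4 (u : V) : Gs :=
  ⟨(⟨0, u, 0⟩, 1), zero_mem _, by
    show (0:W2) + mmf 0 ∈ Ms
    rw [mmf_zero, add_zero]; exact zero_mem _, rfl⟩

theorem layer4 : MaxBetween L3 L4 := by
  refine chain_sec s4 ?_ ?_ ?_ ?_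
  · rintro g ⟨hg, hg2⟩
    have hg1 : (p1 g).k = 0 := by rw [Gs_k]; exact hg
    refine ⟨(p1 g).v, ?_, ?_, ?_⟩
    · rw [map_mul, map_inv, SD.div_k]
      show (p2 g).k - 0 = 0
      rw [hg, sub_zero]
    · rw [map_mul, map_inv, SD.div_v _ _ hg rfl]
      show (p2 g).v - 0 = 0
      rw [hg2, sub_zero]
    · rw [map_mul, map_inv, SD.div_v _ _ hg1 rfl]
      show (p1 g).v - (p1 g).v = 0
      rw [sub_self]
  · exact ⟨rfl, rfl, rfl⟩
  · intro v w
    refine ⟨?_, ?_, ?_⟩
    · rw [map_mul, map_mul, map_inv]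
      show ((1 : SD W2) * 1 * 1⁻¹).k = 0
      rw [mul_one, inv_one, mul_one]; rfl
    · rw [map_mul, map_mul, map_inv]
      show ((1 : SD W2) * 1 * 1⁻¹).v = 0
      rw [mul_one, inv_one, mul_one]; rfl
    · rw [map_mul, map_mul, map_inv, SD.div_v _ _ rfl rfl]
      show v + sh 0 w - (v + w) = 0
      rw [sh_zero, sub_self]
  · intro k v
    refine ⟨lift 0 0 k, ?_, ?_, ?_⟩
    · rw [map_mul, map_mul, map_mul, map_inv, map_inv, SD.div_k, SD.conj_k]
      show (0:ℤ) - 0 = 0
      rw [sub_zero]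
    · rw [map_mul, map_mul, map_mul, map_inv, map_inv, SD.div_v _ _ (SD.conj_k _ _) rfl,
        SD.conj_v _ _ rfl]
      show sh k 0 - 0 = (0:V)
      rw [map_zero, sub_zero]
    · rw [map_mul, map_mul, map_mul, map_inv, map_inv, SD.div_v _ _ (SD.conj_k _ _) rfl,
        SD.conj_v _ _ rfl]
      show sh k v - sh k v = 0
      rw [sub_self]

theorem layer5 : MaxBetween L4 L5 := by
  refine chain_sec (fun v => lift 0 v 0) ?_ ?_ ?_ ?_
  · intro g hg
    have hg' : (p2 g).k = 0 := hg
    refine ⟨(p2 g).v, ?_, ?_⟩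
    · rw [map_mul, map_inv, SD.div_k]
      show (p2 g).k - 0 = 0
      rw [hg', sub_zero]
    · rw [map_mul, map_inv, SD.div_v _ _ hg' rfl]
      show (p2 g).v - (p2 g).v = 0
      rw [sub_self]
  · exact ⟨rfl, rfl⟩
  · intro v w
    refine ⟨?_, ?_⟩
    · rw [map_mul, map_mul, map_inv, SD.div_k, SD.mul_k]
      show (0:ℤ) + 0 - 0 = 0
      norm_num
    · rw [map_mul, map_mul, map_inv, SD.div_v _ _ rfl rfl]
      show v + sh 0 w - (v + w) = 0
      rw [sh_zero, sub_self]
  · intro k v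
    refine ⟨lift 0 0 k, ?_, ?_⟩
    · rw [map_mul, map_mul, map_mul, map_inv, map_inv, SD.div_k, SD.conj_k]
      show (0:ℤ) - 0 = 0
      rw [sub_zero]
    · rw [map_mul, map_mul, map_mul, map_inv, map_inv, SD.div_v _ _ (SD.conj_k _ _) rfl,
        SD.conj_v _ _ rfl]
      show sh k v - sh k v = 0
      rw [sub_self]

theorem layer6 : MaxBetween L5 ⊤ := by
  refine MaxBetween.of_section (fun k : ℤ => lift 0 0 k) ?_ ?_
  · intro g _
    refine ⟨(p2 g).k, ?_⟩
    show (p2 (g * (lift 0 0 (p2 g).k)⁻¹)).k = 0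
    rw [map_mul, map_inv, SD.div_k]
    show (p2 g).k - (p2 g).k = 0
    rw [sub_self]
  · intro f hf hmono hl hu
    have tr : ∀ n, ∀ x y : Gs, (p2 x).k = (p2 y).k → x ∈ f n → y ∈ f n := by
      intro n x y hxy hx
      have h1 : x * y⁻¹ ∈ L5 := by
        show (p2 (x * y⁻¹)).k = 0
        rw [map_mul, map_inv, SD.div_k, hxy, sub_self]
      have := mul_mem (inv_mem (hl n h1)) hx
      rwa [mul_inv_rev, inv_inv, inv_mul_cancel_right] at this
    let J : ℕ → AddSubgroup ℤ := fun n =>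
      { carrier := {k | lift 0 0 k ∈ f n}
        zero_mem' := by
          apply hl n
          exact (rfl : (p2 (lift 0 0 0)).k = 0)
        add_mem' := by
          intro k l hk hl'
          refine tr n (lift 0 0 k * lift 0 0 l) _ ?_ (mul_mem hk hl')
          rw [map_mul, SD.mul_k]; rfl
        neg_mem' := by
          intro k hk
          refine tr n (lift 0 0 k)⁻¹ _ ?_ (inv_mem hk)
          rw [map_inv, SD.inv_k]; rfl }
    let g : ℕ →o Submodule ℤ ℤ :=
      ⟨fun n => AddSubgroup.toIntSubmodule (J n), fun a b hab k hk => hmono hab hk⟩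
    obtain ⟨n, hn⟩ := monotone_stabilizes_iff_noetherian.2 (inferInstance : IsNoetherian ℤ ℤ) g
    refine ⟨n, fun m hm x hx => ?_⟩
    have h1 : x ∈ g m := hx
    rw [← hn m hm] at h1
    exact h1

theorem max_n : MaxBetween (⊥ : Subgroup Gs) ⊤ := by
  have l12 : L1 ≤ L2 := by
    rintro x ⟨hx, hx2⟩
    exact ⟨by rw [hx]; rfl, by rw [hx]; rfl, hx2, by rw [hx]; exact zero_mem _⟩
  have l23 : L2 ≤ L3 := fun x hx => ⟨hx.1, hx.2.1, hx.2.2.1⟩
  have l34 : L3 ≤ L4 := fun x hx => ⟨hx.1, hx.2.1⟩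
  have l45 : L4 ≤ L5 := fun x hx => hx.1
  have h2 := MaxBetween.trans L1_normal bot_le l12 layer1 layer2
  have h3 := MaxBetween.trans L2_normal bot_le l23 h2 layer3
  have h4 := MaxBetween.trans L3_normal bot_le l34 h3 layer4
  have h5 := MaxBetween.trans L4_normal bot_le l45 h4 layer5
  exact MaxBetween.trans L5_normal bot_le le_top h5 layer6

theorem main : ∃ (G : Type) (_ : Group G),
      IsSolvable G ∧
      (∀ f : ℕ → Subgroup G, (∀ n, (f n).Normal) → Monotone f →
        ∃ n, ∀ m, n ≤ m → f m = f n) ∧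
      (∀ H : Subgroup G, Group.IsNilpotent (↥H) →
        ∃ K : Subgroup G, Group.IsNilpotent (↥K) ∧ H < K) := by
  refine ⟨Gs, inferInstance, (inferInstance : Group.IsSolvable Gs), ?_, no_max⟩
  intro f hf hmono
  exact max_n f hf hmono (fun n => bot_le) (fun n => le_top)

end Pool.Agent.H910NM

open Pool Pool.MP_5f4fc7_al

namespace Pool.Agent.S00993

/-- There is a soluble group in which every ascending chain of normal subgroups stabilizes, and in which every nilpotent subgroup is properly contained in a larger nilpotent subgroup, so no nilpotent subgroup is maximal. -/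
theorem result :
    ∃ (G : Type) (_ : Group G),
      IsSolvable G ∧
      (∀ f : ℕ → Subgroup G, (∀ n, (f n).Normal) → Monotone f →
        ∃ n, ∀ m, n ≤ m → f m = f n) ∧
      (∀ H : Subgroup G, Group.IsNilpotent (↥H) →
        ∃ K : Subgroup G, Group.IsNilpotent (↥K) ∧ H < K) := by
  exact Pool.Agent.H910NM.main

end Pool.Agent.S00993
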