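import Pool.Statements.S00998
import Pool.Agent.Helper688.LPres.Main

set_option autoImplicit false
open Pool Pool.MP_5fd2c3_al

namespace Pool.Agent.S00998

open Pool.Agent.Helper688.LPres

/-- The negation of the preceding statement: Every finitely presented group that maps onto the integers and has no rank-2 free subgroup is isomorphic to an ascending HNN extension of a group presented by generators a_1..a_m, finitely many relators R, and all iterates τ^n(Q) of a finite set Q under a free-group endomorphism τ. -/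
theorem result :
    ¬ (∀ (G : Type) [Group G],
    (∃ (n : ℕ) (rels : Set (FreeGroup (Fin n))), rels.Finite ∧ Nonempty (G ≃* PresentedGroup rels)) →
    (∃ f : G →* Multiplicative ℤ, Function.Surjective f) →
    (¬ ∃ f : FreeGroup (Fin 2) →* G, Function.Injective f) →
    ∃ (m : ℕ) (R Q : Set (FreeGroup (Fin m))) (τ : FreeGroup (Fin m) →* FreeGroup (Fin m)),
      R.Finite ∧ Q.Finite ∧
      ∃ (B : Subgroup (PresentedGroup (R ∪ ⋃ n : ℕ, (⇑τ)^[n] '' Q)))
        (ψ : (⊤ : Subgroup (PresentedGroup (R ∪ ⋃ n : ℕ, (⇑τ)^[n] '' Q))) ≃* B),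
        Nonempty (G ≃* HNNExtension (PresentedGroup (R ∪ ⋃ n : ℕ, (⇑τ)^[n] '' Q)) ⊤ B ψ)) := by
  intro H
  have hfp : ∃ (n : ℕ) (rels : Set (FreeGroup (Fin n))), rels.Finite ∧
      Nonempty (GG ≃* PresentedGroup rels) := ⟨4, relG, relG_finite, ⟨MulEquiv.refl _⟩⟩
  have hsurj : ∃ f : GG →* Multiplicative ℤ, Function.Surjective f := by
    refine ⟨chi, fun z => ⟨gu ^ (Multiplicative.toAdd z), ?_⟩⟩
    rw [map_zpow, chi_gu, ← ofAdd_zsmul]
    simp
  obtain ⟨m, R, Q, τ, hR, hQ, B, ψ, ⟨e⟩⟩ := H GG hfp hsurj (not_free_of_solvable GG_solvable)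
  obtain ⟨f, s, χ, hker, hχf, hχs, hup⟩ := ascend (R ∪ ⋃ n : ℕ, (⇑τ)^[n] '' Q) B ψ e
  exact main_contra R Q hR hQ τ f s χ hker hχf hχs hup

end Pool.Agent.S00998
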