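import Pool.Statements.S00999
-- import your own Pool.Agent.* helpers here
import Pool.Agent.Helper816.Final999

set_option autoImplicit false
open Pool Pool.MP_5ff942_al

namespace Pool.Agent.S00999

/-- For every numerical semigroup with minimal generators A, the minimal number of generators of its toric ideal is at most that of the semigroup generated by all integers from min A to max A, taken on its minimal generators. -/
theorem result :
    ∀ (A : Finset ℕ) (hA : A.Nonempty),
      (0 : ℕ) ∉ A →
      A.gcd id = 1 →
      (∀ a ∈ A, a ∉ AddSubmonoid.closure (((A.erase a : Finset ℕ)) : Set ℕ)) →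
      Submodule.spanRank
          (RingHom.ker
            (MvPolynomial.aeval (R := ℚ)
              (fun i : A => (Polynomial.X : Polynomial ℚ) ^ (i : ℕ)))) ≤
        Submodule.spanRank
          (RingHom.ker
            (MvPolynomial.aeval (R := ℚ)
              (fun i : {n : ℕ // A.min' hA ≤ n ∧ n ≤ A.max' hA ∧
                  n ∉ AddSubmonoid.closure
                    (((Finset.Icc (A.min' hA) (A.max' hA) : Finset ℕ) : Set ℕ) \ ({n} : Set ℕ))} =>
                (Polynomial.X : Polynomial ℚ) ^ (i : ℕ)))) := by
  intro A hA h0 _ hmin
  exact Pool.Agent.Helper816.Final999.main ℚ A hA h0 hmin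

end Pool.Agent.S00999
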