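import Pool.Statements.S01006

set_option autoImplicit false
open Pool Pool.MP_60a13f_al

namespace Pool.Agent.S01006

/-! Counterexample: the numerical semigroup generated by
`675, 684, 728, 1710, 1881, 2250`.  It is a complete intersection (iterated gluing) and its
Hilbert function drops from `640` (at `24`) to `639` (at `25`). -/

/-- The minimal generators. -/
def g : Fin 6 → ℕ := ![675, 684, 728, 1710, 1881, 2250]

/-- The semigroup. -/
def S : AddSubmonoid ℕ where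
  carrier := {s | ∃ a : Fin 6 → ℕ, ∑ i, a i * g i = s}
  zero_mem' := ⟨0, by simp⟩
  add_mem' := by
    rintro x y ⟨a, rfl⟩ ⟨b, rfl⟩
    exact ⟨a + b, by simp [add_mul, Finset.sum_add_distrib]⟩

/-- `s` has a factorization of length at least `j`. -/
def P (j s : ℕ) : Prop := ∃ a : Fin 6 → ℕ, ∑ i, a i * g i = s ∧ j ≤ ∑ i, a i

theorem g_pos (i : Fin 6) : 0 < g i := by fin_cases i <;> decide

theorem g_le (i : Fin 6) : g i ≤ 2250 := by fin_cases i <;> decide

theorem g_ge (i : Fin 6) : 675 ≤ g i := by fin_cases i <;> decide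

theorem mem_S_iff (s : ℕ) : s ∈ S ↔ ∃ a : Fin 6 → ℕ, ∑ i, a i * g i = s := Iff.rfl

theorem g_mem (i : Fin 6) : g i ∈ S := by
  refine ⟨Pi.single i 1, ?_⟩
  rw [Finset.sum_eq_single i]
  · simp
  · intro j _ hj; simp [Pi.single_eq_of_ne hj]
  · simp

theorem P_zero (s : ℕ) : P 0 s ↔ s ∈ S := by
  constructor
  · rintro ⟨a, h, -⟩; exact ⟨a, h⟩
  · rintro ⟨a, h⟩; exact ⟨a, h, Nat.zero_le _⟩

/-- One step of the recursion. -/
theorem P_succ (j s : ℕ) : P (j + 1) s ↔ ∃ i, g i ≤ s ∧ P j (s - g i) := by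
  constructor
  · rintro ⟨a, h, hl⟩
    obtain ⟨i, hi⟩ : ∃ i, a i ≠ 0 := by
      by_contra hc
      push Not at hc
      simp [hc] at hl
    obtain ⟨b, hb⟩ : ∃ b : Fin 6 → ℕ, a = b + Pi.single i 1 := by
      refine ⟨a - Pi.single i 1, ?_⟩
      funext k
      by_cases hk : k = i
      · subst hk; simp; omega
      · simp [Pi.single_eq_of_ne hk]
    have e1 : ∑ k, (Pi.single i 1 : Fin 6 → ℕ) k * g k = g i := by
      rw [Finset.sum_eq_single i]
      · simp
      · intro j _ hj; simp [Pi.single_eq_of_ne hj]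
      · simp
    have e2 : ∑ k, (Pi.single i 1 : Fin 6 → ℕ) k = 1 := by
      simp
    have h1 : ∑ k, b k * g k + g i = s := by
      rw [← h, hb]
      simp only [Pi.add_apply, add_mul, Finset.sum_add_distrib, e1]
    have h2 : j + 1 ≤ ∑ k, b k + 1 := by
      rw [hb] at hl
      simpa only [Pi.add_apply, Finset.sum_add_distrib, e2] using hl
    exact ⟨i, by omega, b, by omega, by omega⟩
  · rintro ⟨i, hi, b, h1, h2⟩
    refine ⟨b + Pi.single i 1, ?_, ?_⟩
    · have e1 : ∑ k, (Pi.single i 1 : Fin 6 → ℕ) k * g k = g i := by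
        rw [Finset.sum_eq_single i]
        · simp
        · intro j _ hj; simp [Pi.single_eq_of_ne hj]
        · simp
      simp only [Pi.add_apply, add_mul, Finset.sum_add_distrib, e1]
      omega
    · have e2 : ∑ k, (Pi.single i 1 : Fin 6 → ℕ) k = 1 := by
        simp
      simp only [Pi.add_apply, Finset.sum_add_distrib, e2]
      omega

theorem P_mono {j k s : ℕ} (hjk : j ≤ k) (h : P k s) : P j s := by
  obtain ⟨a, h1, h2⟩ := h
  exact ⟨a, h1, hjk.trans h2⟩

theorem P_zero_iff (s : ℕ) : P 0 s ↔ s = 0 ∨ ∃ i, g i ≤ s ∧ P 0 (s - g i) := by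
  constructor
  · rintro ⟨a, h, -⟩
    by_cases hs : s = 0
    · exact Or.inl hs
    · right
      have : P 1 s := by
        refine ⟨a, h, ?_⟩
        by_contra hc
        apply hs
        have h0 : ∑ i, a i = 0 := by omega
        have : ∀ i, a i = 0 := by simpa using h0
        rw [← h]; simp [this]
      exact (P_succ 0 s).1 this
  · rintro (rfl | h)
    · exact ⟨0, by simp, by simp⟩
    · exact P_mono (Nat.zero_le 1) ((P_succ 0 s).2 h)

theorem P_bound {j s : ℕ} (h0 : P j s) (h : ¬ P (j + 1) s) : s ≤ j * 2250 := by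
  obtain ⟨a, h1, h2⟩ := h0
  have h3 : ∑ i, a i ≤ j := by
    by_contra hc
    exact h ⟨a, h1, by omega⟩
  calc s = ∑ i, a i * g i := h1.symm
    _ ≤ ∑ i, a i * 2250 := Finset.sum_le_sum fun i _ => Nat.mul_le_mul_left _ (g_le i)
    _ = (∑ i, a i) * 2250 := by rw [Finset.sum_mul]
    _ ≤ j * 2250 := Nat.mul_le_mul_right _ h3

/-- Sums of `j ≥ 1` nonzero elements. -/
theorem sums_iff (j : ℕ) (hj : 1 ≤ j) (s : ℕ) :
    (∃ f : Fin j → ℕ, (∀ i, f i ∈ S ∧ f i ≠ 0) ∧ ∑ i, f i = s) ↔ P j s := by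
  constructor
  · rintro ⟨f, hf, rfl⟩
    choose a ha using fun i => (hf i).1
    refine ⟨∑ i, a i, ?_, ?_⟩
    · simp only [Finset.sum_apply, Finset.sum_mul]
      rw [Finset.sum_comm]
      exact Finset.sum_congr rfl fun i _ => ha i
    · simp only [Finset.sum_apply]
      rw [Finset.sum_comm]
      calc j = ∑ _i : Fin j, 1 := by simp
        _ ≤ ∑ i, ∑ k, a i k := by
          refine Finset.sum_le_sum fun i _ => ?_
          by_contra hc
          have h0 : ∑ k, a i k = 0 := by omega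
          have h1 : ∀ k, a i k = 0 := by simpa using h0
          apply (hf i).2
          rw [← ha i]
          simp [h1]
  · induction j, hj using Nat.le_induction generalizing s with
    | base =>
      rintro ⟨a, h1, h2⟩
      refine ⟨fun _ => s, fun _ => ⟨⟨a, h1⟩, ?_⟩, by simp⟩
      rintro rfl
      have : ∀ i, a i * g i = 0 := by simpa using h1
      have h3 : ∀ i, a i = 0 := fun i => by
        rcases Nat.mul_eq_zero.1 (this i) with h | h
        · exact h
        · exact absurd h (g_pos i).ne'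
      simp [h3] at h2
    | succ j hj ih =>
      intro h
      obtain ⟨i, hi, hP⟩ := (P_succ j s).1 h
      obtain ⟨f, hf, hs⟩ := ih _ hP
      refine ⟨Fin.cons (g i) f, ?_, ?_⟩
      · intro k
        refine Fin.cases ?_ (fun k => ?_) k
        · exact ⟨g_mem i, (g_pos i).ne'⟩
        · exact hf k
      · rw [Fin.sum_univ_succ]
        simp only [Fin.cons_zero, Fin.cons_succ, hs]
        omega


/-! ### Bit masks -/

def B : ℕ := 56320

def step (m : ℕ) : ℕ :=
  ((m <<< 675) ||| (m <<< 684) ||| (m <<< 728) ||| (m <<< 1710) ||| (m <<< 1881) |||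
    (m <<< 2250)) % 2 ^ B

/-- closure under adding multiples of `x`, by doubling -/
def cl (x : ℕ) : ℕ → ℕ → ℕ
  | 0, m => m
  | k + 1, m => let m' := cl x k m; (m' ||| (m' <<< (x * 2 ^ k))) % 2 ^ B

def m0 : ℕ := cl 675 7 (cl 684 7 (cl 728 7 (cl 1710 6 (cl 1881 6 (cl 2250 5 1)))))

def mask : ℕ → ℕ
  | 0 => m0
  | j + 1 => step (mask j)

/-- popcount of the lowest `2^k` bits -/
def pc : ℕ → ℕ → ℕ
  | 0, m => m % 2
  | k + 1, m => if m = 0 then 0 else pc k (m % 2 ^ (2 ^ k)) + pc k (m / 2 ^ (2 ^ k))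

theorem fix : m0 = 1 ||| step m0 := by decide +kernel

theorem c24 : pc 16 ((mask 24) ^^^ (mask (24 + 1))) = 640 := by decide +kernel

theorem c25 : pc 16 ((mask 25) ^^^ (mask (25 + 1))) = 639 := by decide +kernel

theorem testBit_step (m s : ℕ) (hs : s < B) :
    (step m).testBit s = true ↔ ∃ i, g i ≤ s ∧ m.testBit (s - g i) = true := by
  unfold step
  rw [Nat.testBit_mod_two_pow]
  simp only [hs, decide_true, Bool.true_and, Nat.testBit_or, Nat.testBit_shiftLeft,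
    Bool.or_eq_true, Bool.and_eq_true, decide_eq_true_eq]
  constructor
  · rintro (((((h | h) | h) | h) | h) | h)
    · exact ⟨0, h⟩
    · exact ⟨1, h⟩
    · exact ⟨2, h⟩
    · exact ⟨3, h⟩
    · exact ⟨4, h⟩
    · exact ⟨5, h⟩
  · rintro ⟨i, h⟩
    fin_cases i
    · exact Or.inl (Or.inl (Or.inl (Or.inl (Or.inl h))))
    · exact Or.inl (Or.inl (Or.inl (Or.inl (Or.inr h))))
    · exact Or.inl (Or.inl (Or.inl (Or.inr h)))
    · exact Or.inl (Or.inl (Or.inr h))
    · exact Or.inl (Or.inr h)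
    · exact Or.inr h

theorem m0_spec (s : ℕ) (hs : s < B) : m0.testBit s = true ↔ P 0 s := by
  induction s using Nat.strong_induction_on with
  | _ s ih =>
    rw [P_zero_iff, fix, Nat.testBit_or, Bool.or_eq_true, testBit_step _ _ hs,
      Nat.testBit_one_eq_true_iff_self_eq_zero]
    refine or_congr Iff.rfl (exists_congr fun i => and_congr_right fun hi => ?_)
    have := g_pos i
    exact ih _ (by omega) (by omega)

theorem mask_spec (j s : ℕ) (hs : s < B) : (mask j).testBit s = true ↔ P j s := by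
  induction j generalizing s with
  | zero => exact m0_spec s hs
  | succ j ih =>
    rw [P_succ]
    show (step (mask j)).testBit s = true ↔ _
    rw [testBit_step _ _ hs]
    exact exists_congr fun i => and_congr_right fun hi => ih _ (by omega)

theorem pc_spec (k m : ℕ) (hm : m < 2 ^ (2 ^ k)) :
    pc k m = ((Finset.range (2 ^ k)).filter (fun s => m.testBit s = true)).card := by
  induction k generalizing m with
  | zero =>
    have : m < 2 := by simpa using hm
    interval_cases m <;> decide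
  | succ k ih =>
    rw [pc]
    split_ifs with h0
    · subst h0; simp
    · have hpos : 0 < 2 ^ (2 ^ k) := by positivity
      have h1 : m % 2 ^ (2 ^ k) < 2 ^ (2 ^ k) := Nat.mod_lt _ hpos
      have h2 : m / 2 ^ (2 ^ k) < 2 ^ (2 ^ k) := by
        rw [Nat.div_lt_iff_lt_mul hpos, ← pow_add]
        calc m < _ := hm
          _ = _ := by ring_nf
      rw [ih _ h1, ih _ h2]
      have hr : Finset.range (2 ^ (k + 1)) = Finset.range (2 ^ k) ∪
          (Finset.range (2 ^ k)).map (addLeftEmbedding (2 ^ k)) := by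
        ext x
        simp only [Finset.mem_range, Finset.mem_union, Finset.mem_map, addLeftEmbedding_apply]
        constructor
        · intro hx
          by_cases hx' : x < 2 ^ k
          · exact Or.inl hx'
          · right
            refine ⟨x - 2 ^ k, ?_, by omega⟩
            have : 2 ^ (k + 1) = 2 ^ k + 2 ^ k := by ring
            omega
        · have : 2 ^ (k + 1) = 2 ^ k + 2 ^ k := by ring
          rintro (hx | ⟨y, hy, rfl⟩) <;> omega
      have hd : Disjoint ((Finset.range (2 ^ k)).filter (fun s => m.testBit s = true))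
          (((Finset.range (2 ^ k)).map (addLeftEmbedding (2 ^ k))).filter
            (fun s => m.testBit s = true)) := by
        rw [Finset.disjoint_left]
        intro x hx hx'
        simp only [Finset.mem_filter, Finset.mem_range, Finset.mem_map,
          addLeftEmbedding_apply] at hx hx'
        obtain ⟨⟨y, hy, rfl⟩, -⟩ := hx'
        omega
      rw [hr, Finset.filter_union, Finset.card_union_of_disjoint hd]
      congr 1
      · congr 1
        refine Finset.filter_congr fun x hx => ?_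
        rw [Finset.mem_range] at hx
        rw [Nat.testBit_mod_two_pow]
        simp [hx]
      · rw [Finset.filter_map, Finset.card_map]
        congr 1
        refine Finset.filter_congr fun x hx => ?_
        simp only [Function.comp, addLeftEmbedding_apply]
        rw [Nat.testBit_div_two_pow, add_comm]

theorem step_lt (m : ℕ) : step m < 2 ^ B := Nat.mod_lt _ (by positivity)

theorem count (j : ℕ) (hj : 1 ≤ j) (hb : j * 2250 < B) :
    Set.ncard {s : ℕ |
        (∃ f : Fin j → ℕ, (∀ i, f i ∈ S ∧ f i ≠ 0) ∧ ∑ i, f i = s) ∧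
        ¬ (∃ f : Fin (j + 1) → ℕ, (∀ i, f i ∈ S ∧ f i ≠ 0) ∧ ∑ i, f i = s)} =
      pc 16 ((mask j) ^^^ (mask (j + 1))) := by
  obtain ⟨j', rfl⟩ : ∃ j', j = j' + 1 := ⟨j - 1, by omega⟩
  have hB : 2 ^ B ≤ 2 ^ (2 ^ 16) := Nat.pow_le_pow_right (by norm_num) (by decide)
  have hlt : ((mask (j' + 1)) ^^^ (mask (j' + 1 + 1))) < 2 ^ B :=
    Nat.xor_lt_two_pow (step_lt _) (step_lt _)
  rw [pc_spec 16 _ (lt_of_lt_of_le hlt hB), ← Set.ncard_coe_finset]
  congr 1
  ext s
  simp only [Set.mem_ofPred_eq, Finset.coe_filter, Finset.mem_range]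
  rw [sums_iff _ hj, sums_iff _ (by omega)]
  constructor
  · rintro ⟨h1, h2⟩
    have hs : s < B := lt_of_le_of_lt (P_bound h1 h2) hb
    refine ⟨lt_of_lt_of_le hs (by decide), ?_⟩
    rw [Nat.testBit_xor, (mask_spec _ _ hs).2 h1]
    have : (mask (j' + 1 + 1)).testBit s = false := by
      rw [← Bool.not_eq_true]
      exact fun h => h2 ((mask_spec _ _ hs).1 h)
    rw [this]; rfl
  · rintro ⟨-, hx⟩
    have hs : s < B := by
      by_contra hc
      push Not at hc
      have := Nat.testBit_lt_two_pow (lt_of_lt_of_le hlt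
        (Nat.pow_le_pow_right (by norm_num) hc : 2 ^ B ≤ 2 ^ s))
      rw [this] at hx
      exact absurd hx (by simp)
    rw [Nat.testBit_xor] at hx
    by_cases h2 : P (j' + 1 + 1) s
    · have h1 : P (j' + 1) s := P_mono (by omega) h2
      rw [(mask_spec _ _ hs).2 h1, (mask_spec _ _ hs).2 h2] at hx
      exact absurd hx (by simp)
    · refine ⟨?_, h2⟩
      have : (mask (j' + 1 + 1)).testBit s = false := by
        rw [← Bool.not_eq_true]
        exact fun h => h2 ((mask_spec _ _ hs).1 h)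
      rw [this, Bool.xor_false] at hx
      exact (mask_spec _ _ hs).1 hx

/-! ### The complement is finite -/

theorem tail : m0 / 2 ^ 16832 = 2 ^ 39488 - 1 := by decide +kernel

theorem tail_bits (m n k s : ℕ) (h : m / 2 ^ n = 2 ^ k - 1) (h1 : n ≤ s) (h2 : s < n + k) :
    m.testBit s = true := by
  have h3 : (m / 2 ^ n).testBit (s - n) = true := by
    rw [h, Nat.testBit_two_pow_sub_one]
    exact decide_eq_true (by omega)
  rw [Nat.testBit_div_two_pow] at h3
  rwa [Nat.sub_add_cancel h1] at h3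

theorem big_mem (s : ℕ) (hs : 16832 ≤ s) : s ∈ S := by
  induction s using Nat.strong_induction_on with
  | _ s ih =>
    by_cases hB : s < B
    · rw [← P_zero, ← m0_spec s hB]
      have hB' : s < 56320 := hB
      exact tail_bits m0 16832 39488 s tail hs (by omega)
    · have hB' : 56320 ≤ s := by
        have : ¬ s < 56320 := hB
        omega
      have h1 := ih (s - 675) (by omega) (by omega)
      have h2 := S.add_mem h1 (g_mem 0)
      have e : s - 675 + g 0 = s := by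
        show s - 675 + 675 = s
        omega
      rwa [e] at h2

theorem compl_finite : ((S : Set ℕ)ᶜ).Finite := by
  refine (Set.finite_Iio 16832).subset fun s hs => ?_
  by_contra hc
  exact hs (big_mem s (by simpa using hc))

/-! ### Minimal generators -/

theorem g_inj : Function.Injective g := by decide

theorem small2 : ∀ i, (mask 2).testBit (g i) = false := by decide +kernel

theorem range_g : Set.range g = {x : ℕ | x ∈ S ∧ x ≠ 0 ∧
    ¬ ∃ a b : ℕ, a ∈ S ∧ b ∈ S ∧ a ≠ 0 ∧ b ≠ 0 ∧ a + b = x} := by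
  have key : ∀ x, (∃ a b : ℕ, a ∈ S ∧ b ∈ S ∧ a ≠ 0 ∧ b ≠ 0 ∧ a + b = x) ↔ P 2 x := by
    intro x
    rw [← sums_iff 2 (by norm_num)]
    constructor
    · rintro ⟨a, b, ha, hb, ha0, hb0, rfl⟩
      refine ⟨![a, b], ?_, by simp⟩
      intro i
      fin_cases i
      · exact ⟨ha, ha0⟩
      · exact ⟨hb, hb0⟩
    · rintro ⟨f, hf, rfl⟩
      exact ⟨f 0, f 1, (hf 0).1, (hf 1).1, (hf 0).2, (hf 1).2, by simp⟩
  ext x
  simp only [Set.mem_range, Set.mem_ofPred_eq]
  rw [key]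
  constructor
  · rintro ⟨i, rfl⟩
    refine ⟨g_mem i, (g_pos i).ne', ?_⟩
    have hB : g i < B := lt_of_le_of_lt (g_le i) (by decide)
    rw [← mask_spec 2 _ hB, small2 i]
    simp
  · rintro ⟨⟨a, ha⟩, h0, h2⟩
    have h1 : P 1 x := by
      rcases (P_zero_iff x).1 ⟨a, ha, Nat.zero_le _⟩ with h | h
      · exact absurd h h0
      · exact (P_succ 0 x).2 h
    obtain ⟨i, hi, hP⟩ := (P_succ 0 x).1 h1
    refine ⟨i, ?_⟩
    by_contra hne
    have hpos : x - g i ≠ 0 := by omega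
    rcases (P_zero_iff _).1 hP with h | h
    · exact hpos h
    · exact h2 ((P_succ 1 x).2 ⟨i, hi, (P_succ 0 _).2 h⟩)

/-! ### The kernel congruence is generated by five relations -/

/-- The five relations (iterated gluing). -/
def rho : Fin 5 → (Fin 6 → ℕ) × (Fin 6 → ℕ) :=
  ![(![10, 0, 0, 0, 0, 0], ![0, 0, 0, 0, 0, 3]),
    (![0, 5, 0, 0, 0, 0], ![0, 0, 0, 2, 0, 0]),
    (![0, 0, 0, 0, 2, 0], ![0, 3, 0, 1, 0, 0]),
    (![3, 0, 0, 0, 0, 1], ![0, 1, 0, 1, 1, 0]),
    (![0, 0, 9, 0, 0, 0], ![0, 3, 0, 0, 0, 2])]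

section
variable {Q : Type*} [AddCommMonoid Q] {X0 X1 X2 X3 X4 X5 : Q}

theorem lemA (r0 : 10 • X0 = 3 • X5) {a0 a5 b0 b5 : ℕ}
    (h : 3 * a0 + 10 * a5 = 3 * b0 + 10 * b5) :
    a0 • X0 + a5 • X5 = b0 • X0 + b5 • X5 := by
  have aux : ∀ (k a0 a5 : ℕ), (a0 + 10 * k) • X0 + a5 • X5 = a0 • X0 + (a5 + 3 * k) • X5 := by
    intro k a0 a5
    rw [add_nsmul, add_nsmul, mul_nsmul, mul_nsmul, r0]
    abel
  rcases le_total a0 b0 with hle | hle
  · obtain ⟨k, h1, h2⟩ : ∃ k, b0 = a0 + 10 * k ∧ a5 = b5 + 3 * k :=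
      ⟨(b0 - a0) / 10, by omega, by omega⟩
    rw [h1, h2, aux]
  · obtain ⟨k, h1, h2⟩ : ∃ k, a0 = b0 + 10 * k ∧ b5 = a5 + 3 * k :=
      ⟨(a0 - b0) / 10, by omega, by omega⟩
    rw [h1, h2, aux]

theorem lemB (r1 : 5 • X1 = 2 • X3) {a1 a3 b1 b3 : ℕ}
    (h : 2 * a1 + 5 * a3 = 2 * b1 + 5 * b3) :
    a1 • X1 + a3 • X3 = b1 • X1 + b3 • X3 := by
  have aux : ∀ (k a1 a3 : ℕ), (a1 + 5 * k) • X1 + a3 • X3 = a1 • X1 + (a3 + 2 * k) • X3 := by
    intro k a1 a3
    rw [add_nsmul, add_nsmul, mul_nsmul, mul_nsmul, r1]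
    abel
  rcases le_total a1 b1 with hle | hle
  · obtain ⟨k, h1, h2⟩ : ∃ k, b1 = a1 + 5 * k ∧ a3 = b3 + 2 * k :=
      ⟨(b1 - a1) / 5, by omega, by omega⟩
    rw [h1, h2, aux]
  · obtain ⟨k, h1, h2⟩ : ∃ k, a1 = b1 + 5 * k ∧ b3 = a3 + 2 * k :=
      ⟨(a1 - b1) / 5, by omega, by omega⟩
    rw [h1, h2, aux]

theorem lemC (r1 : 5 • X1 = 2 • X3) (r2 : 2 • X4 = 3 • X1 + X3) {a1 a3 a4 b1 b3 b4 : ℕ}
    (h : 4 * a1 + 10 * a3 + 11 * a4 = 4 * b1 + 10 * b3 + 11 * b4) :
    a1 • X1 + a3 • X3 + a4 • X4 = b1 • X1 + b3 • X3 + b4 • X4 := by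
  have aux : ∀ (k a1 a3 a4 : ℕ), a1 • X1 + a3 • X3 + (a4 + 2 * k) • X4 =
      (a1 + 3 * k) • X1 + (a3 + k) • X3 + a4 • X4 := by
    intro k a1 a3 a4
    rw [add_nsmul, add_nsmul, add_nsmul, mul_nsmul, mul_nsmul, r2, nsmul_add, ← mul_nsmul]
    rw [mul_nsmul]
    abel
  rcases le_total a4 b4 with hle | hle
  · obtain ⟨k, h1⟩ : ∃ k, b4 = a4 + 2 * k := ⟨(b4 - a4) / 2, by omega⟩
    rw [h1, aux]
    congr 1
    exact lemB r1 (by omega)
  · obtain ⟨k, h1⟩ : ∃ k, a4 = b4 + 2 * k := ⟨(a4 - b4) / 2, by omega⟩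
    rw [h1, aux]
    congr 1
    exact lemB r1 (by omega)

theorem lemD' (r0 : 10 • X0 = 3 • X5) (r1 : 5 • X1 = 2 • X3) (r2 : 2 • X4 = 3 • X1 + X3)
    (r3 : 3 • X0 + X5 = X1 + X3 + X4) {a0 a1 a3 a4 a5 b0 b1 b3 b4 b5 : ℕ}
    (h : 75 * a0 + 76 * a1 + 190 * a3 + 209 * a4 + 250 * a5 =
      75 * b0 + 76 * b1 + 190 * b3 + 209 * b4 + 250 * b5)
    (hle : 3 * b0 + 10 * b5 ≤ 3 * a0 + 10 * a5) :
    (a0 • X0 + a5 • X5) + (a1 • X1 + a3 • X3 + a4 • X4) =
      (b0 • X0 + b5 • X5) + (b1 • X1 + b3 • X3 + b4 • X4) := by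
  obtain ⟨k, h1⟩ : ∃ k, 3 * a0 + 10 * a5 = 3 * b0 + 10 * b5 + 19 * k :=
    ⟨((3 * a0 + 10 * a5) - (3 * b0 + 10 * b5)) / 19, by omega⟩
  have e1 : a0 • X0 + a5 • X5 = (b0 + 3 * k) • X0 + (b5 + k) • X5 := lemA r0 (by omega)
  have e2 : (b0 + 3 * k) • X0 + (b5 + k) • X5 = (b0 • X0 + b5 • X5) + k • (3 • X0 + X5) := by
    rw [add_nsmul, add_nsmul, mul_nsmul, nsmul_add]
    abel
  have e3 : k • (3 • X0 + X5) + (a1 • X1 + a3 • X3 + a4 • X4) =
      (a1 + k) • X1 + (a3 + k) • X3 + (a4 + k) • X4 := by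
    rw [r3, add_nsmul, add_nsmul, add_nsmul, nsmul_add, nsmul_add]
    abel
  rw [e1, e2, add_assoc, e3]
  congr 1
  exact lemC r1 r2 (by omega)

theorem lemD (r0 : 10 • X0 = 3 • X5) (r1 : 5 • X1 = 2 • X3) (r2 : 2 • X4 = 3 • X1 + X3)
    (r3 : 3 • X0 + X5 = X1 + X3 + X4) {a0 a1 a3 a4 a5 b0 b1 b3 b4 b5 : ℕ}
    (h : 75 * a0 + 76 * a1 + 190 * a3 + 209 * a4 + 250 * a5 =
      75 * b0 + 76 * b1 + 190 * b3 + 209 * b4 + 250 * b5) :
    (a0 • X0 + a5 • X5) + (a1 • X1 + a3 • X3 + a4 • X4) =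
      (b0 • X0 + b5 • X5) + (b1 • X1 + b3 • X3 + b4 • X4) := by
  rcases le_total (3 * b0 + 10 * b5) (3 * a0 + 10 * a5) with hle | hle
  · exact lemD' r0 r1 r2 r3 h hle
  · exact (lemD' r0 r1 r2 r3 h.symm hle).symm

theorem lemE' (r0 : 10 • X0 = 3 • X5) (r1 : 5 • X1 = 2 • X3) (r2 : 2 • X4 = 3 • X1 + X3)
    (r3 : 3 • X0 + X5 = X1 + X3 + X4) (r4 : 9 • X2 = 3 • X1 + 2 • X5)
    {a0 a1 a2 a3 a4 a5 b0 b1 b2 b3 b4 b5 : ℕ}
    (h : 675 * a0 + 684 * a1 + 728 * a2 + 1710 * a3 + 1881 * a4 + 2250 * a5 =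
      675 * b0 + 684 * b1 + 728 * b2 + 1710 * b3 + 1881 * b4 + 2250 * b5)
    (hle : b2 ≤ a2) :
    a2 • X2 + ((a0 • X0 + a5 • X5) + (a1 • X1 + a3 • X3 + a4 • X4)) =
      b2 • X2 + ((b0 • X0 + b5 • X5) + (b1 • X1 + b3 • X3 + b4 • X4)) := by
  obtain ⟨k, h1⟩ : ∃ k, a2 = b2 + 9 * k := ⟨(a2 - b2) / 9, by omega⟩
  have e1 : (b2 + 9 * k) • X2 + ((a0 • X0 + a5 • X5) + (a1 • X1 + a3 • X3 + a4 • X4)) =
      b2 • X2 + ((a0 • X0 + (a5 + 2 * k) • X5) + ((a1 + 3 * k) • X1 + a3 • X3 + a4 • X4)) := by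
    rw [add_nsmul, add_nsmul, add_nsmul, mul_nsmul, r4, nsmul_add, ← mul_nsmul, ← mul_nsmul]
    abel
  rw [h1, e1]
  congr 1
  exact lemD r0 r1 r2 r3 (by omega)

theorem lemE (r0 : 10 • X0 = 3 • X5) (r1 : 5 • X1 = 2 • X3) (r2 : 2 • X4 = 3 • X1 + X3)
    (r3 : 3 • X0 + X5 = X1 + X3 + X4) (r4 : 9 • X2 = 3 • X1 + 2 • X5)
    {a0 a1 a2 a3 a4 a5 b0 b1 b2 b3 b4 b5 : ℕ}
    (h : 675 * a0 + 684 * a1 + 728 * a2 + 1710 * a3 + 1881 * a4 + 2250 * a5 =
      675 * b0 + 684 * b1 + 728 * b2 + 1710 * b3 + 1881 * b4 + 2250 * b5) :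
    a2 • X2 + ((a0 • X0 + a5 • X5) + (a1 • X1 + a3 • X3 + a4 • X4)) =
      b2 • X2 + ((b0 • X0 + b5 • X5) + (b1 • X1 + b3 • X3 + b4 • X4)) := by
  rcases le_total b2 a2 with hle | hle
  · exact lemE' r0 r1 r2 r3 r4 h hle
  · exact (lemE' r0 r1 r2 r3 r4 h.symm hle).symm

end

/-- The congruence generated by the five relations. -/
def C : AddCon (Fin 6 → ℕ) := addConGen (fun x y : Fin 6 → ℕ => ∃ k, rho k = (x, y))

/-- The weight homomorphism. -/
def wt : (Fin 6 → ℕ) →+ ℕ where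
  toFun a := ∑ i, a i * g i
  map_zero' := by simp
  map_add' a b := by simp [add_mul, Finset.sum_add_distrib]

theorem rho_wt : ∀ k, ∑ i, (rho k).1 i * g i = ∑ i, (rho k).2 i * g i := by decide

theorem rel_sound (a b : Fin 6 → ℕ) (h : C a b) : ∑ i, a i * g i = ∑ i, b i * g i := by
  have hle : C ≤ AddCon.ker wt := by
    refine AddCon.addConGen_le.2 ?_
    rintro x y ⟨k, hk⟩
    rw [AddCon.ker_apply]
    have hx : x = (rho k).1 := by rw [hk]
    have hy : y = (rho k).2 := by rw [hk]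
    rw [hx, hy]
    exact rho_wt k
  have := hle h
  rwa [AddCon.ker_apply] at this

theorem rel_complete (a b : Fin 6 → ℕ) (h : ∑ i, a i * g i = ∑ i, b i * g i) : C a b := by
  have hrel : ∀ k, (((rho k).1 : Fin 6 → ℕ) : C.Quotient) = ((rho k).2 : Fin 6 → ℕ) := by
    intro k
    rw [AddCon.eq]
    exact AddConGen.Rel.of _ _ ⟨k, rfl⟩
  set X : Fin 6 → C.Quotient := fun i => ((Pi.single i 1 : Fin 6 → ℕ) : C.Quotient) with hX
  have hdec : ∀ a : Fin 6 → ℕ, ((a : Fin 6 → ℕ) : C.Quotient) =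
      a 2 • X 2 + ((a 0 • X 0 + a 5 • X 5) + (a 1 • X 1 + a 3 • X 3 + a 4 • X 4)) := by
    intro a
    have e : a = a 2 • (Pi.single 2 1 : Fin 6 → ℕ) + ((a 0 • (Pi.single 0 1 : Fin 6 → ℕ) +
        a 5 • (Pi.single 5 1 : Fin 6 → ℕ)) + (a 1 • (Pi.single 1 1 : Fin 6 → ℕ) +
        a 3 • (Pi.single 3 1 : Fin 6 → ℕ) + a 4 • (Pi.single 4 1 : Fin 6 → ℕ))) := by
      funext i
      fin_cases i <;> simp
    conv_lhs => rw [e]
    rfl
  have r0 : 10 • X 0 = 3 • X 5 := by
    have := hrel 0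
    rw [hdec, hdec] at this
    simpa [rho] using this
  have r1 : 5 • X 1 = 2 • X 3 := by
    have := hrel 1
    rw [hdec, hdec] at this
    simpa [rho] using this
  have r2 : 2 • X 4 = 3 • X 1 + X 3 := by
    have := hrel 2
    rw [hdec, hdec] at this
    simpa [rho] using this
  have r3 : 3 • X 0 + X 5 = X 1 + X 3 + X 4 := by
    have := hrel 3
    rw [hdec, hdec] at this
    simpa [rho] using this
  have r4 : 9 • X 2 = 3 • X 1 + 2 • X 5 := by
    have := hrel 4
    rw [hdec, hdec] at this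
    rw [add_comm (3 • X 1)]
    simpa [rho] using this
  rw [← AddCon.eq, hdec a, hdec b]
  refine lemE r0 r1 r2 r3 r4 ?_
  have h' := h
  simp only [Fin.sum_univ_six, g] at h'
  simp at h'
  omega

/-- The negation of the preceding statement: For every numerical semigroup whose minimal-generator kernel congruence is generated by (embedding dimension minus one) relations, the count of sums of j nonzero elements that are not sums of j+1 nonzero elements is non-decreasing in j. -/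
theorem result :
    ¬ (∀ (S : AddSubmonoid ℕ), ((S : Set ℕ)ᶜ).Finite →
    ∀ (e : ℕ) (n : Fin e → ℕ), Function.Injective n →
      Set.range n = {x : ℕ | x ∈ S ∧ x ≠ 0 ∧
        ¬ ∃ a b : ℕ, a ∈ S ∧ b ∈ S ∧ a ≠ 0 ∧ b ≠ 0 ∧ a + b = x} →
      (∃ ρ : Fin (e - 1) → (Fin e → ℕ) × (Fin e → ℕ),
        ∀ a b : Fin e → ℕ,
          addConGen (fun x y : Fin e → ℕ => ∃ k, ρ k = (x, y)) a b ↔
            ∑ i, a i * n i = ∑ i, b i * n i) →
      Monotone (fun j : ℕ => Set.ncard {s : ℕ |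
        (∃ f : Fin j → ℕ, (∀ i, f i ∈ S ∧ f i ≠ 0) ∧ ∑ i, f i = s) ∧
        ¬ (∃ f : Fin (j + 1) → ℕ, (∀ i, f i ∈ S ∧ f i ≠ 0) ∧ ∑ i, f i = s)})) := by
  intro h
  have hm := h S compl_finite 6 g g_inj range_g
    ⟨rho, fun a b => ⟨rel_sound a b, rel_complete a b⟩⟩
  have h1 := hm (show (24 : ℕ) ≤ 25 by norm_num)
  have h24 := (count 24 (by norm_num) (by norm_num [B])).trans c24
  have h25 := (count 25 (by norm_num) (by norm_num [B])).trans c25
  beta_reduce at h1
  rw [h24, h25] at h1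
  omega

end Pool.Agent.S01006
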