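import Pool.Statements.S01007
import Pool.Agent.Helper473.CoreW

set_option autoImplicit false
open Pool Pool.MP_611426_al

namespace Pool.Agent.S01007

/-- Every non-discrete topological group in which any two dense subsets intersect contains an infinite subgroup all of whose elements satisfy x·x = 1. -/
theorem result :
    ∀ (G : Type) [Group G] [TopologicalSpace G] [IsTopologicalGroup G],
      ¬ DiscreteTopology G →
      (∀ A B : Set G, Dense A → Dense B → (A ∩ B).Nonempty) →
      ∃ H : Subgroup G, (H : Set G).Infinite ∧ ∀ x ∈ H, x * x = 1 := by
  intro G _ _ _ hnd hir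
  apply H473.exists_boolean _ hnd
  rintro ⟨A, hA, hA'⟩
  have h := hir A Aᶜ hA hA'
  rw [Set.inter_compl_self] at h
  exact Set.not_nonempty_empty h

end Pool.Agent.S01007
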