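import Pool.Statements.S01027
import Pool.Agent.Helper895.AltCentral

set_option autoImplicit false
open Pool Pool.MP_625934_al

namespace Pool.Agent.S01027

/-- In the free non-unital alternative ring over the integers on three generators, an element is central exactly when it lies both in the nucleus (associative center) and in the ideal generated by all associators. -/
theorem result :
    ∀ c : RingCon (MonoidAlgebra ℤ (FreeMagma (Fin 3))),
      c = ringConGen (fun a b : MonoidAlgebra ℤ (FreeMagma (Fin 3)) =>
        ∃ x y : MonoidAlgebra ℤ (FreeMagma (Fin 3)),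
          (a = (x * x) * y ∧ b = x * (x * y)) ∨ (a = (x * y) * y ∧ b = x * (y * y))) →
      ∀ z : c.Quotient,
        ((∀ x y : c.Quotient, z * x = x * z ∧ (z * x) * y = z * (x * y) ∧
            (x * z) * y = x * (z * y) ∧ (x * y) * z = x * (y * z)) ↔
          ((∀ x y : c.Quotient, (z * x) * y = z * (x * y) ∧
              (x * z) * y = x * (z * y) ∧ (x * y) * z = x * (y * z)) ∧
            ∀ S : AddSubgroup c.Quotient,
              (∀ x y w : c.Quotient, (x * y) * w - x * (y * w) ∈ S) →
              (∀ a s : c.Quotient, s ∈ S → a * s ∈ S ∧ s * a ∈ S) →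
              z ∈ S)) := by
  rintro c rfl z
  apply Pool.Agent.Helper895.Alt.center_iff
  constructor
  · intro a b
    exact ⟨RingCon.le_ringConGen _ _ ⟨a, b, Or.inl ⟨rfl, rfl⟩⟩,
      RingCon.le_ringConGen _ _ ⟨b, a, Or.inr ⟨rfl, rfl⟩⟩⟩
  · intro d hd
    rw [RingCon.ringConGen_le]
    rintro p q ⟨a, b, ⟨rfl, rfl⟩ | ⟨rfl, rfl⟩⟩
    · exact (hd a b).1
    · exact (hd b a).2

end Pool.Agent.S01027
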