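import Pool.Statements.S01034
import Pool.Agent.FBZ.Noe
import Pool.Agent.FBZ.Endz

set_option autoImplicit false
open Pool Pool.MP_631532_al

namespace Pool.Agent.S01034

theorem two_zero : (2 : RatFunc (ZMod 2)) = 0 := by
  have h : (2 : ZMod 2) = 0 := by decide
  have := congrArg (algebraMap (ZMod 2) (RatFunc (ZMod 2))) h
  rwa [map_zero, map_ofNat] at this

theorem X_pow_ne (m : ℕ) (h : (RatFunc.X : RatFunc (ZMod 2)) ^ m = 1) : m = 0 := by
  have h1 : algebraMap (Polynomial (ZMod 2)) (RatFunc (ZMod 2)) (Polynomial.X ^ m) =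
      algebraMap (Polynomial (ZMod 2)) (RatFunc (ZMod 2)) 1 := by
    rw [map_pow, RatFunc.algebraMap_X, h, map_one]
  have h2 := RatFunc.algebraMap_injective _ h1
  have h3 := congrArg Polynomial.natDegree h2
  simpa using h3

noncomputable def tX : (RatFunc (ZMod 2))ˣ := Units.mk0 RatFunc.X RatFunc.X_ne_zero

theorem tX_pow (m : ℤ) (h : tX ^ m = 1) : m = 0 := by
  have h1 : (RatFunc.X : RatFunc (ZMod 2)) ^ m = 1 := by
    have := congrArg (fun u : (RatFunc (ZMod 2))ˣ => (u : RatFunc (ZMod 2))) h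
    simpa [tX] using this
  rcases Int.eq_nat_or_neg m with ⟨k, rfl | rfl⟩
  · rw [zpow_natCast] at h1
    rw [X_pow_ne k h1]
    rfl
  · rw [zpow_neg, inv_eq_one, zpow_natCast] at h1
    rw [X_pow_ne k h1]
    rfl

/-- The negation of the preceding statement: Every polycyclic group (solvable, all subgroups finitely generated) has a finite set of laws such that each of its laws lies in the normal closure of the endomorphic images of that finite set in the free group. -/
theorem result :
    ¬ (∀ (G : Type) [Group G], IsSolvable G → (∀ H : Subgroup G, H.FG) →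
      ∃ S : Finset (FreeGroup ℕ),
        (∀ s ∈ S, ∀ f : ℕ → G, FreeGroup.lift f s = 1) ∧
        ∀ w : FreeGroup ℕ, (∀ f : ℕ → G, FreeGroup.lift f w = 1) →
          w ∈ Subgroup.normalClosure
            {u : FreeGroup ℕ | ∃ s ∈ S, ∃ φ : FreeGroup ℕ →* FreeGroup ℕ, φ s = u}) := by
  intro h
  obtain ⟨S, hS, hw⟩ := h FBZ.GG FBZ.solv_GG FBZ.noe_GG
  obtain ⟨n, hn⟩ := FBZ.final two_zero tX tX_pow S hS
  exact hn (hw _ fun f => FBZ.Lw_law n (FreeGroup.lift f))

end Pool.Agent.S01034
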