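import Pool.Statements.S01040

set_option autoImplicit false
open Pool Pool.MP_63a718_al

namespace Pool.Agent.S01040

/-- Elements of the group `K × (ℚ ⋊ ℤ)`, where `K = ⟨a, b | b a b⁻¹ = a⁻¹⟩` is the Klein bottle
group (coordinates `x, y` for `a ^ x * b ^ y`) and `ℤ` acts on `ℚ` by multiplication by powers
of two (coordinates `z, n`). -/
@[ext]
structure E : Type where
  x : ℤ
  y : ℤ
  z : ℚ
  n : ℤ

/-- the sign `(-1) ^ y` -/
def sg (y : ℤ) : ℤ := ((Int.negOnePow y : ℤˣ) : ℤ)

theorem sg_zero : sg 0 = 1 := by simp [sg]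

theorem sg_add (a b : ℤ) : sg (a + b) = sg a * sg b := by
  simp [sg, Int.negOnePow_add]

theorem sg_neg (a : ℤ) : sg (-a) = sg a := by
  simp [sg, Int.negOnePow_neg]

theorem sg_mul_self (a : ℤ) : sg a * sg a = 1 := by
  have h := sg_add a (-a)
  rw [sg_neg, add_neg_cancel, sg_zero] at h
  exact h.symm

theorem sg_even {a : ℤ} (h : Even a) : sg a = 1 := by
  simp [sg, Int.negOnePow_even a h]

instance : Mul E where
  mul u v := ⟨u.x + sg u.y * v.x, u.y + v.y, u.z + (2 : ℚ) ^ u.n * v.z, u.n + v.n⟩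

instance : One E where
  one := ⟨0, 0, 0, 0⟩

instance : Inv E where
  inv u := ⟨-(sg u.y * u.x), -u.y, -((2 : ℚ) ^ (-u.n) * u.z), -u.n⟩

@[simp] theorem mul_x (u v : E) : (u * v).x = u.x + sg u.y * v.x := rfl
@[simp] theorem mul_y (u v : E) : (u * v).y = u.y + v.y := rfl
@[simp] theorem mul_z (u v : E) : (u * v).z = u.z + (2 : ℚ) ^ u.n * v.z := rfl
@[simp] theorem mul_n (u v : E) : (u * v).n = u.n + v.n := rfl
@[simp] theorem one_x : (1 : E).x = 0 := rfl
@[simp] theorem one_y : (1 : E).y = 0 := rfl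
@[simp] theorem one_z : (1 : E).z = 0 := rfl
@[simp] theorem one_n : (1 : E).n = 0 := rfl
@[simp] theorem inv_x (u : E) : (u⁻¹).x = -(sg u.y * u.x) := rfl
@[simp] theorem inv_y (u : E) : (u⁻¹).y = -u.y := rfl
@[simp] theorem inv_z (u : E) : (u⁻¹).z = -((2 : ℚ) ^ (-u.n) * u.z) := rfl
@[simp] theorem inv_n (u : E) : (u⁻¹).n = -u.n := rfl

instance : Group E := Group.ofLeftAxioms
  (by
    intro u v w
    ext
    · simp only [mul_x, mul_y, sg_add]; ring
    · simp only [mul_y]; ring
    · simp only [mul_z, mul_n]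
      rw [zpow_add₀ (by norm_num : (2 : ℚ) ≠ 0)]; ring
    · simp only [mul_n]; ring)
  (by
    intro u
    ext <;> simp [sg_zero])
  (by
    intro u
    ext
    · simp only [mul_x, inv_x, inv_y, sg_neg, one_x]; ring
    · simp
    · simp
    · simp)

/-- rationals with odd denominator -/
def D (z : ℚ) : Prop := ∃ k m : ℤ, Odd k ∧ z * k = m

theorem D_zero : D 0 := ⟨1, 0, odd_one, by simp⟩

theorem D_int (m : ℤ) : D (m : ℚ) := ⟨1, m, odd_one, by simp⟩

theorem D_add {a b : ℚ} (ha : D a) (hb : D b) : D (a + b) := by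
  obtain ⟨k, m, hk, h⟩ := ha
  obtain ⟨k', m', hk', h'⟩ := hb
  refine ⟨k * k', m * k' + m' * k, hk.mul hk', ?_⟩
  push_cast
  rw [← h, ← h']; ring

theorem D_neg {a : ℚ} (ha : D a) : D (-a) := by
  obtain ⟨k, m, hk, h⟩ := ha
  refine ⟨k, -m, hk, ?_⟩
  push_cast
  rw [← h]; ring

theorem D_mul_int {a : ℚ} (ha : D a) (j : ℤ) : D (j * a) := by
  obtain ⟨k, m, hk, h⟩ := ha
  refine ⟨k, j * m, hk, ?_⟩
  push_cast
  rw [← h]; ring

theorem D_pow {a : ℚ} (ha : D a) {n : ℤ} (hn : 0 ≤ n) : D ((2 : ℚ) ^ n * a) := by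
  obtain ⟨k, rfl⟩ := Int.eq_ofNat_of_zero_le hn
  have := D_mul_int ha ((2 : ℤ) ^ k)
  simpa using this

theorem D_large (a : ℚ) : ∃ N : ℕ, ∀ k : ℕ, N ≤ k → D ((2 : ℚ) ^ (k : ℤ) * a) := by
  obtain ⟨r, q, hq, hrq⟩ := Nat.exists_eq_two_pow_mul_odd (n := a.den) a.den_nz
  refine ⟨r, fun k hk => ⟨q, 2 ^ (k - r) * a.num, by exact_mod_cast hq, ?_⟩⟩
  have h1 : a * a.den = a.num := Rat.mul_den_eq_num a
  have h2 : (a.den : ℚ) = 2 ^ r * q := by rw [hrq]; push_cast; ring
  have h3 : (2 : ℚ) ^ (k : ℤ) = 2 ^ (k - r) * 2 ^ r := by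
    rw [zpow_natCast, ← pow_add]; congr 1; omega
  rw [h3]
  push_cast
  rw [← h1, h2]; ring

theorem even_of_D {y : ℤ} {z : ℚ} (hz : D z) (h : (y : ℚ) + 2 * z = 0) : Even y := by
  obtain ⟨k, m, hk, hm⟩ := hz
  have h1 : (y : ℚ) * k = -(2 * m) := by
    rw [← hm]; linear_combination (k : ℚ) * h
  have h2 : y * k = -(2 * m) := by exact_mod_cast h1
  have h3 : Even (y * k) := by rw [h2]; exact ⟨-m, by ring⟩
  rcases Int.even_mul.mp h3 with h4 | h4
  · exact h4
  · exact absurd h4 (Int.not_even_iff_odd.mpr hk)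

/-- The positive cone at level `n = 0`. -/
def P0 (u : E) : Prop :=
  0 < (u.y : ℚ) + 2 * u.z ∨
    ((u.y : ℚ) + 2 * u.z = 0 ∧ (0 < u.x ∨ (u.x = 0 ∧ 0 ≤ u.z)))

/-- The positive cone. -/
def P (u : E) : Prop := D u.z ∧ (1 ≤ u.n ∨ (u.n = 0 ∧ P0 u))

theorem P_one : P 1 := ⟨D_zero, Or.inr ⟨rfl, Or.inr ⟨by simp, Or.inr ⟨rfl, le_refl _⟩⟩⟩⟩

theorem P_mul {u v : E} (hu : P u) (hv : P v) : P (u * v) := by
  obtain ⟨hu1, hu2⟩ := hu
  obtain ⟨hv1, hv2⟩ := hv
  have hun : 0 ≤ u.n := by rcases hu2 with h | h <;> omega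
  refine ⟨D_add hu1 (D_pow hv1 hun), ?_⟩
  rcases hu2 with h | ⟨h, hu3⟩
  · left
    have : 0 ≤ v.n := by rcases hv2 with h | h <;> omega
    simp only [mul_n]; omega
  · rcases hv2 with h' | ⟨h', hv3⟩
    · left
      simp only [mul_n]; omega
    · right
      refine ⟨by simp only [mul_n]; omega, ?_⟩
      have e1 : (u * v).z = u.z + v.z := by simp [h]
      have e2 : ((u * v).y : ℚ) + 2 * (u * v).z = (u.y + 2 * u.z) + (v.y + 2 * v.z) := by
        rw [e1]; simp only [mul_y]; push_cast; ring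
      unfold P0
      rw [e2]
      rcases hu3 with hu3 | ⟨hu3, hu4⟩
      · left
        rcases hv3 with hv3 | ⟨hv3, _⟩ <;> linarith
      · rcases hv3 with hv3 | ⟨hv3, hv4⟩
        · left; linarith
        · right
          refine ⟨by linarith, ?_⟩
          have hs : sg u.y = 1 := sg_even (even_of_D hu1 hu3)
          rw [e1]
          simp only [mul_x, hs, one_mul]
          rcases hu4 with hu4 | ⟨hu4, hu5⟩
          · left
            rcases hv4 with hv4 | ⟨hv4, _⟩ <;> omega
          · rcases hv4 with hv4 | ⟨hv4, hv5⟩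
            · left; omega
            · right
              exact ⟨by omega, by linarith⟩

theorem P_antisymm {u : E} (hu : P u) (hv : P u⁻¹) : u = 1 := by
  obtain ⟨hu1, hu2⟩ := hu
  obtain ⟨hv1, hv2⟩ := hv
  simp only [inv_n] at hv2
  rcases hu2 with h | ⟨h, hu3⟩
  · exfalso; rcases hv2 with h' | h' <;> omega
  · rcases hv2 with h' | ⟨_, hv3⟩
    · exfalso; omega
    · unfold P0 at hu3 hv3
      simp only [inv_y, inv_z, inv_x, h, neg_zero, zpow_zero, one_mul] at hv3
      push_cast at hv3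
      rcases hu3 with hu3 | ⟨hu3, hu4⟩
      · exfalso; rcases hv3 with hv3 | ⟨hv3, _⟩ <;> linarith
      · rcases hv3 with hv3 | ⟨hv3, hv4⟩
        · exfalso; linarith
        · have hs : sg u.y = 1 := sg_even (even_of_D hu1 hu3)
          rw [hs, one_mul] at hv4
          rcases hu4 with hu4 | ⟨hu4, hu5⟩
          · exfalso; rcases hv4 with hv4 | ⟨hv4, _⟩ <;> omega
          · rcases hv4 with hv4 | ⟨hv4, hv5⟩
            · exfalso; omega
            · have hz : u.z = 0 := by linarith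
              have hy : u.y = 0 := by
                rw [hz] at hu3
                have : (u.y : ℚ) = 0 := by linarith
                exact_mod_cast this
              ext
              · simpa using hu4
              · simpa using hy
              · simpa using hz
              · simpa using h

/-- the linear order at level zero -/
theorem P0_total {u : E} (hn : u.n = 0) (hD : D u.z) : P u ∨ P u⁻¹ := by
  have hD' : D (u⁻¹).z := by
    simp only [inv_z, hn, neg_zero, zpow_zero, one_mul]; exact D_neg hD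
  have hn' : (u⁻¹).n = 0 := by simp [hn]
  have key : P0 u ∨ P0 u⁻¹ := by
    unfold P0
    simp only [inv_y, inv_z, inv_x, hn, neg_zero, zpow_zero, one_mul]
    push_cast
    rcases lt_trichotomy 0 ((u.y : ℚ) + 2 * u.z) with h | h | h
    · left; left; exact h
    · have hs : sg u.y = 1 := sg_even (even_of_D hD h.symm)
      rw [hs, one_mul]
      rcases lt_trichotomy 0 u.x with hx | hx | hx
      · left; right; exact ⟨h.symm, Or.inl hx⟩
      · rcases le_total 0 u.z with hz | hz
        · left; right; exact ⟨h.symm, Or.inr ⟨hx.symm, hz⟩⟩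
        · right; right; exact ⟨by linarith, Or.inr ⟨by omega, by linarith⟩⟩
      · right; right; exact ⟨by linarith, Or.inl (by omega)⟩
    · right; left; linarith
  rcases key with h | h
  · left; exact ⟨hD, Or.inr ⟨hn, h⟩⟩
  · right; exact ⟨hD', Or.inr ⟨hn', h⟩⟩

/-- any two positive elements are comparable -/
theorem P_chain {u v : E} (hu : P u) (hv : P v) : P (v * u⁻¹) ∨ P (u * v⁻¹) := by
  have aux : ∀ {u v : E}, P u → P v → u.n < v.n → P (v * u⁻¹) := by
    intro u v hu hv h
    refine ⟨?_, Or.inl (by simp only [mul_n, inv_n]; omega)⟩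
    simp only [mul_z, inv_z]
    have e : v.z + (2 : ℚ) ^ v.n * -((2 : ℚ) ^ (-u.n) * u.z)
        = v.z + -((2 : ℚ) ^ (v.n - u.n) * u.z) := by
      rw [sub_eq_add_neg, zpow_add₀ (by norm_num : (2 : ℚ) ≠ 0)]; ring
    rw [e]
    exact D_add hv.1 (D_neg (D_pow hu.1 (by omega)))
  rcases lt_trichotomy u.n v.n with h | h | h
  · left; exact aux hu hv h
  · have hn : (v * u⁻¹).n = 0 := by simp [h]
    have hD : D (v * u⁻¹).z := by
      simp only [mul_z, inv_z]
      have e : v.z + (2 : ℚ) ^ v.n * -((2 : ℚ) ^ (-u.n) * u.z) = v.z + -u.z := by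
        rw [h]
        have h2 : (2 : ℚ) ^ v.n * (2 : ℚ) ^ (-v.n) = 1 := by
          rw [← zpow_add₀ (by norm_num : (2 : ℚ) ≠ 0)]; simp
        linear_combination (-u.z) * h2
      rw [e]
      exact D_add hv.1 (D_neg hu.1)
    rcases P0_total hn hD with h1 | h1
    · left; exact h1
    · right; rw [mul_inv_rev, inv_inv] at h1; exact h1
  · right; exact aux hv hu h

/-- directedness -/
theorem P_directed (u v : E) : ∃ c : E, P (c * u⁻¹) ∧ P (c * v⁻¹) := by
  obtain ⟨N1, h1⟩ := D_large (u⁻¹).z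
  obtain ⟨N2, h2⟩ := D_large (v⁻¹).z
  refine ⟨⟨0, 0, 0, ((N1 + N2 + u.n.natAbs + v.n.natAbs + 1 : ℕ) : ℤ)⟩, ⟨?_, ?_⟩, ⟨?_, ?_⟩⟩
  · simp only [mul_z, zero_add]
    exact h1 _ (by omega)
  · left; simp only [mul_n, inv_n]; omega
  · simp only [mul_z, zero_add]
    exact h2 _ (by omega)
  · left; simp only [mul_n, inv_n]; omega

/-- The negation of the preceding statement: For every group G and every right-invariant, upward-directed partial order on G whose positive cone is a chain, there is a right-invariant total order on G that contains it. -/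
theorem result :
    ¬ (∀ (G : Type) [Group G] (r : G → G → Prop),
      (∀ a : G, r a a) →
      (∀ a b : G, r a b → r b a → a = b) →
      (∀ a b c : G, r a b → r b c → r a c) →
      (∀ a b c : G, r a b → r (a * c) (b * c)) →
      (∀ a b : G, ∃ c : G, r a c ∧ r b c) →
      (∀ a b : G, r 1 a → r 1 b → r a b ∨ r b a) →
      ∃ s : G → G → Prop,
        (∀ a : G, s a a) ∧
        (∀ a b : G, s a b → s b a → a = b) ∧
        (∀ a b c : G, s a b → s b c → s a c) ∧
        (∀ a b : G, s a b ∨ s b a) ∧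
        (∀ a b c : G, s a b → s (a * c) (b * c)) ∧
        (∀ a b : G, r a b → s a b)) := by
  intro H
  obtain ⟨s, _, santi, strans, stot, sinv, sext⟩ := H E (fun u v => P (v * u⁻¹))
    (by intro a; simpa using P_one)
    (by
      intro a b h1 h2
      have h3 : (b * a⁻¹)⁻¹ = a * b⁻¹ := by group
      rw [← h3] at h2
      have := P_antisymm h1 h2
      exact (mul_inv_eq_one.mp this).symm)
    (by
      intro a b c h1 h2
      have : c * a⁻¹ = (c * b⁻¹) * (b * a⁻¹) := by group
      rw [this]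
      exact P_mul h2 h1)
    (by
      intro a b c h
      have : (b * c) * (a * c)⁻¹ = b * a⁻¹ := by group
      rw [this]
      exact h)
    (by intro a b; exact P_directed a b)
    (by
      intro a b ha hb
      have ha' : P a := by simpa using ha
      have hb' : P b := by simpa using hb
      exact P_chain ha' hb')
  -- the elements `a` and `g`
  let a : E := ⟨1, 0, 0, 0⟩
  let g : E := ⟨0, -1, 1 / 2, 0⟩
  have hsg1 : sg (-1) = -1 := by simp [sg]
  have hsg0 : sg 0 = 1 := sg_zero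
  -- `1 < a`
  have s1a : s 1 a := by
    apply sext
    refine ⟨?_, Or.inr ⟨by simp [a], Or.inr ⟨by simp [a], Or.inl (by simp [a, hsg0])⟩⟩⟩
    simpa [a] using D_zero
  -- `1 < g * g`
  have s1gg : s 1 (g * g) := by
    apply sext
    have e : g * g * (1 : E)⁻¹ = ⟨0, -2, 1, 0⟩ := by
      ext <;> simp [g]
      norm_num
    show P (g * g * (1 : E)⁻¹)
    rw [e]
    refine ⟨by simpa using D_int 1, Or.inr ⟨rfl, Or.inr ⟨by norm_num, Or.inr ⟨rfl, by norm_num⟩⟩⟩⟩
  -- `g * g < a`
  have sgga : s (g * g) a := by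
    apply sext
    have e : a * (g * g)⁻¹ = ⟨1, 2, -1, 0⟩ := by
      ext <;> simp [g, a, hsg0]
      norm_num
    show P (a * (g * g)⁻¹)
    rw [e]
    refine ⟨by simpa using D_int (-1), Or.inr ⟨rfl, Or.inr ⟨by norm_num, Or.inl (by norm_num)⟩⟩⟩
  have hag : a * g * a = g := by
    ext <;> simp [g, a, hsg1, hsg0]
  have hg1 : g ≠ 1 := by
    intro h
    have := congrArg E.y h
    simp [g] at this
  have ha1 : a ≠ 1 := by
    intro h
    have := congrArg E.x h
    simp [a] at this
  -- `1 < g`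
  have s1g : s 1 g := by
    rcases stot 1 g with h | h
    · exact h
    · exfalso
      have h2 : s (g * g) (1 * g) := sinv _ _ g h
      rw [one_mul] at h2
      have h3 := strans _ _ _ h2 h
      have h4 := santi _ _ s1gg h3
      -- g * g = 1 then g ≤ 1 and 1 ≤ g
      have h5 := congrArg E.y h4
      simp [g] at h5
  -- `g ≤ g * g ≤ a`
  have sgg : s g (g * g) := by simpa using sinv _ _ g s1g
  have sga : s g a := strans _ _ _ sgg sgga
  -- multiply `g ≤ a` on the right by `a⁻¹`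
  have h6 : s (a * g) 1 := by
    have h7 := sinv _ _ a⁻¹ sga
    rw [mul_inv_cancel] at h7
    have h8 : g * a⁻¹ = a * g := by
      rw [mul_inv_eq_iff_eq_mul]; exact hag.symm
    rwa [h8] at h7
  have h9 : s g (a * g) := by simpa using sinv _ _ g s1a
  have h10 : s g 1 := strans _ _ _ h9 h6
  exact hg1 (santi _ _ h10 s1g)

end Pool.Agent.S01040
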