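import Pool.Statements.S01044
import Pool.Agent.Helper493.Clifford
import Pool.Agent.Helper493.CubicGroup
import Pool.Agent.Helper493.CubicDims
import Pool.Agent.Helper493.CubicDims2

set_option autoImplicit false
open Pool Pool.MP_6441f0_al

namespace Pool.Agent.S01044

/-- The negation of the preceding statement: For every prime p and finite p-group G, if the set of dimensions of irreducible complex representations of G has exactly three elements and does not contain p, then G is metabelian (its second derived subgroup is trivial). -/
theorem result :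
    ¬ (∀ (p : ℕ), p.Prime → ∀ (G : Type) [Group G] [Finite G], IsPGroup p G →
      ∀ S : Set ℕ,
        S = {n : ℕ | ∃ (V : Type) (_ : AddCommGroup V) (_ : Module ℂ V)
              (_ : FiniteDimensional ℂ V) (ρ : Representation ℂ G V),
              Nontrivial V ∧
              (∀ W : Submodule ℂ V, (∀ g : G, ∀ v ∈ W, ρ g v ∈ W) → W = ⊥ ∨ W = ⊤) ∧
              Module.finrank ℂ V = n} →
        S.ncard = 3 → p ∉ S → derivedSeries G 2 = ⊥) := by
  intro H
  have hp : Fact (Nat.Prime 5) := ⟨by norm_num⟩
  have hcardK : Nat.card (GaloisField 5 2) = 25 := by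
    rw [GaloisField.card 5 2 (by norm_num)]; norm_num
  have hfin : Finite (GaloisField 5 2) := inferInstance
  have h2 : (2 : GaloisField 5 2) ≠ 0 := by
    have := (CharP.cast_eq_zero_iff (GaloisField 5 2) 5 2).not.2 (by norm_num)
    exact_mod_cast this
  have h3 : (3 : GaloisField 5 2) ≠ 0 := by
    have := (CharP.cast_eq_zero_iff (GaloisField 5 2) 5 3).not.2 (by norm_num)
    exact_mod_cast this
  have hpG : IsPGroup 5 (Helper493.CubicGroup.CG (GaloisField 5 2)) := by
    apply IsPGroup.of_card (n := 12)
    rw [Helper493.CubicGroup.nat_card_CG, hcardK]; norm_num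
  have hdegs := Helper493.CubicGroup.degs_eq (K := GaloisField 5 2) h2 h3
  rw [hcardK] at hdegs
  refine Helper493.CubicGroup.derived_ne_bot (K := GaloisField 5 2) h2 h3
    (H 5 hp.out (Helper493.CubicGroup.CG (GaloisField 5 2)) hpG
      (Helper493.CubicGroup.degs (Helper493.CubicGroup.CG (GaloisField 5 2))) rfl ?_ ?_)
  · rw [hdegs]
    rw [Set.ncard_eq_toFinset_card']
    rfl
  · rw [hdegs]
    norm_num

end Pool.Agent.S01044
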