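import Pool.Statements.S01053

set_option autoImplicit false
open scoped ComplexOrder
open Pool Pool.MP_65a4af_al

namespace Pool.Agent.S01053

section aux

variable {N : ℕ}

/-- Off-diagonal entries nonpositive, and the positive vector `x` is mapped to a positive vector. -/
def Good (B : Matrix (Fin N) (Fin N) ℝ) (x : Fin N → ℝ) : Prop :=
  (∀ i j, i ≠ j → B i j ≤ 0) ∧ (∀ i, 0 < x i) ∧ (∀ i, 0 < (B.mulVec x) i)

lemma Good.nonneg {B : Matrix (Fin N) (Fin N) ℝ} {x : Fin N → ℝ} (h : Good B x)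
    (y : Fin N → ℝ) (hy : ∀ i, 0 ≤ (B.mulVec y) i) : ∀ i, 0 ≤ y i := by
  by_contra hcon
  push Not at hcon
  obtain ⟨i0, hi0⟩ := hcon
  obtain ⟨i, _, hi⟩ := Finset.exists_min_image Finset.univ (fun i => y i / x i)
    ⟨i0, Finset.mem_univ _⟩
  have hm : y i / x i < 0 :=
    lt_of_le_of_lt (hi i0 (Finset.mem_univ _)) (div_neg_of_neg_of_pos hi0 (h.2.1 i0))
  have key : (B.mulVec y) i ≤ (y i / x i) * (B.mulVec x) i := by
    simp only [Matrix.mulVec, dotProduct, Finset.mul_sum]
    apply Finset.sum_le_sum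
    intro j _
    by_cases hij : i = j
    · subst hij
      have := (h.2.1 i).ne'
      have h2 : y i / x i * (B i i * x i) = B i i * y i := by field_simp
      rw [h2]
    · have h1 : (y i / x i) * x j ≤ y j := by
        have := hi j (Finset.mem_univ _)
        rwa [le_div_iff₀ (h.2.1 j)] at this
      have h2 := h.1 i j hij
      nlinarith
  have h3 := hy i
  have h4 := h.2.2 i
  nlinarith

lemma Good.det_ne_zero {B : Matrix (Fin N) (Fin N) ℝ} {x : Fin N → ℝ} (h : Good B x) :
    B.det ≠ 0 := by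
  intro h0
  obtain ⟨y, hy0, hy⟩ := Matrix.exists_mulVec_eq_zero_iff.mpr h0
  apply hy0
  have h1 := h.nonneg y (by intro i; rw [hy]; simp)
  have h2 := h.nonneg (-y) (by intro i; rw [Matrix.mulVec_neg, hy]; simp)
  funext i
  have := h1 i
  have := h2 i
  simp at *
  linarith

lemma Good.inv_nonneg {B : Matrix (Fin N) (Fin N) ℝ} {x : Fin N → ℝ} (h : Good B x)
    (i j : Fin N) : 0 ≤ B⁻¹ i j := by
  have hu : IsUnit B.det := isUnit_iff_ne_zero.mpr h.det_ne_zero
  have h1 := h.nonneg (fun k => B⁻¹ k j) (by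
    intro k
    have : (B.mulVec (fun k => B⁻¹ k j)) k = (B * B⁻¹) k j := by
      simp [Matrix.mulVec, dotProduct, Matrix.mul_apply]
    rw [this, Matrix.mul_nonsing_inv _ hu, Matrix.one_apply]
    split_ifs <;> norm_num)
  exact h1 i

lemma Good.diag {B : Matrix (Fin N) (Fin N) ℝ} {x : Fin N → ℝ} (h : Good B x)
    (i : Fin N) : 1 ≤ B i i * B⁻¹ i i := by
  have hu : IsUnit B.det := isUnit_iff_ne_zero.mpr h.det_ne_zero
  have h1 : (B * B⁻¹) i i = 1 := by
    rw [Matrix.mul_nonsing_inv _ hu, Matrix.one_apply_eq]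
  rw [Matrix.mul_apply, ← Finset.add_sum_erase _ _ (Finset.mem_univ i)] at h1
  have h2 : ∑ j ∈ Finset.univ.erase i, B i j * B⁻¹ j i ≤ 0 := by
    apply Finset.sum_nonpos
    intro j hj
    exact mul_nonpos_of_nonpos_of_nonneg (h.1 i j (Finset.ne_of_mem_erase hj).symm)
      (h.inv_nonneg j i)
  linarith

lemma Good.step {B : Matrix (Fin N) (Fin N) ℝ} {x : Fin N → ℝ} (h : Good B x)
    (i : Fin N) (hD : 0 < (B.updateRow i (Pi.single i 1)).det) :
    0 < B.det ∧ B.det ≤ B i i * (B.updateRow i (Pi.single i 1)).det := by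
  have h1 : (B.updateRow i (Pi.single i 1)).det = B.det * B⁻¹ i i := by
    rw [← Matrix.adjugate_apply, Matrix.inv_def, Matrix.smul_apply, Ring.inverse_eq_inv',
      smul_eq_mul, ← mul_assoc, mul_inv_cancel₀ h.det_ne_zero, one_mul]
  have h2 := h.diag i
  have h3 := h.inv_nonneg i i
  rw [h1] at hD ⊢
  have h4 : 0 < B⁻¹ i i := by
    rcases h3.eq_or_lt with h5 | h5
    · rw [← h5] at h2; norm_num at h2
    · exact h5
  have h5 : 0 < B.det := by
    by_contra hcon
    push Not at hcon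
    have := mul_nonpos_of_nonpos_of_nonneg hcon h3
    linarith
  refine ⟨h5, ?_⟩
  nlinarith

lemma Good.update {B : Matrix (Fin N) (Fin N) ℝ} {x : Fin N → ℝ} (h : Good B x)
    (i : Fin N) : Good (B.updateRow i (Pi.single i 1)) x := by
  refine ⟨?_, h.2.1, ?_⟩
  · intro a b hab
    by_cases ha : a = i
    · subst ha
      rw [Matrix.updateRow_self, Pi.single_apply, if_neg (Ne.symm hab)]
    · rw [Matrix.updateRow_ne ha]
      exact h.1 a b hab
  · intro a
    by_cases ha : a = i
    · subst ha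
      have : ((B.updateRow a (Pi.single a 1)).mulVec x) a = x a := by
        simp [Matrix.mulVec, Matrix.updateRow_self]
      rw [this]; exact h.2.1 a
    · have : ((B.updateRow i (Pi.single i 1)).mulVec x) a = (B.mulVec x) a := by
        simp [Matrix.mulVec, Matrix.updateRow_ne ha]
      rw [this]; exact h.2.2 a

lemma hadamard (x : Fin N → ℝ) (S : Finset (Fin N)) :
    ∀ B : Matrix (Fin N) (Fin N) ℝ, Good B x → (∀ i, i ∉ S → B i = Pi.single i 1) →
      0 < B.det ∧ B.det ≤ ∏ i ∈ S, B i i := by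
  induction S using Finset.induction_on with
  | empty =>
    intro B _ hB
    have : B = 1 := by
      ext i j
      rw [hB i (by simp), Matrix.one_apply, Pi.single_apply]
      simp [eq_comm]
    rw [this]
    simp
  | insert a S ha ih =>
    intro B hB hrow
    have h1 := ih (B.updateRow a (Pi.single a 1)) (hB.update a) (by
      intro i hi
      by_cases hia : i = a
      · subst hia; rw [Matrix.updateRow_self]
      · rw [Matrix.updateRow_ne hia]
        exact hrow i (by simp [hia, hi]))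
    have h2 := hB.step a h1.1
    refine ⟨h2.1, h2.2.trans ?_⟩
    rw [Finset.prod_insert ha]
    have h3 : ∏ i ∈ S, (B.updateRow a (Pi.single a 1)) i i = ∏ i ∈ S, B i i := by
      apply Finset.prod_congr rfl
      intro i hi
      rw [Matrix.updateRow_ne]
      rintro rfl; exact ha hi
    rw [h3] at h1
    have h4 : 0 ≤ B a a := by
      have h5 := hB.diag a
      have h6 := hB.inv_nonneg a a
      by_contra hcon
      push Not at hcon
      have := mul_nonpos_of_nonpos_of_nonneg hcon.le h6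
      linarith
    exact mul_le_mul_of_nonneg_left h1.2 h4

lemma deriv_charpoly (A : Matrix (Fin N) (Fin N) ℝ) (t : ℝ) :
    A.charpoly.derivative.eval t =
      ∑ v, ((t • (1 : Matrix (Fin N) (Fin N) ℝ) - A).updateRow v (Pi.single v 1)).det := by
  have h1 : ∀ v, ((t • (1 : Matrix (Fin N) (Fin N) ℝ) - A).updateRow v (Pi.single v 1)).det
      = ((t • (1 : Matrix (Fin N) (Fin N) ℝ) - A).updateCol v (Pi.single v 1)).det := by
    intro v
    rw [← Matrix.adjugate_apply, ← Matrix.cramer_apply, Matrix.cramer_eq_adjugate_mulVec]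
    simp
  simp only [h1]
  rw [Matrix.charpoly, Matrix.det_apply, Polynomial.derivative_sum, Polynomial.eval_finsetSum]
  simp only [Matrix.det_apply]
  rw [Finset.sum_comm]
  apply Finset.sum_congr rfl
  intro σ _
  rw [Polynomial.derivative_smul, Polynomial.eval_smul, Polynomial.derivative_prod_finset,
    Polynomial.eval_finsetSum, ← Finset.smul_sum]
  congr 1
  apply Finset.sum_congr rfl
  intro v _
  rw [← Finset.prod_erase_mul _ _ (Finset.mem_univ v), Polynomial.eval_mul, Polynomial.eval_prod]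
  congr 1
  · apply Finset.prod_congr rfl
    intro i hi
    have hiv : i ≠ v := Finset.ne_of_mem_erase hi
    rw [Matrix.updateCol_ne hiv, Matrix.charmatrix_apply]
    by_cases hs : σ i = i
    · simp [hs, Matrix.diagonal]
    · simp [hs, Matrix.diagonal]
  · rw [Matrix.updateCol_self, Matrix.charmatrix_apply, Pi.single_apply]
    by_cases hs : σ v = v
    · simp [hs, Matrix.diagonal]
    · simp [hs, Matrix.diagonal]

lemma smul_one_sub_mulVec (A : Matrix (Fin N) (Fin N) ℝ) (t : ℝ) (x : Fin N → ℝ) (i : Fin N) :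
    ((t • (1 : Matrix (Fin N) (Fin N) ℝ) - A).mulVec x) i = t * x i - (A.mulVec x) i := by
  rw [Matrix.sub_mulVec, Matrix.smul_mulVec, Matrix.one_mulVec]
  simp

lemma exists_good (A : Matrix (Fin N) (Fin N) ℝ) (hA : ∀ i j, 0 ≤ A i j)
    (hdet : ∀ t : ℝ, 1 < t → (t • (1 : Matrix (Fin N) (Fin N) ℝ) - A).det ≠ 0) :
    ∀ t : ℝ, 1 < t → ∃ x, Good (t • (1 : Matrix (Fin N) (Fin N) ℝ) - A) x := by
  have hZ : ∀ t : ℝ, ∀ i j, i ≠ j → (t • (1 : Matrix (Fin N) (Fin N) ℝ) - A) i j ≤ 0 := by
    intro t i j hij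
    simp [Matrix.one_apply_ne hij]
    exact hA i j
  set Q : ℝ → Prop := fun t => ∃ x : Fin N → ℝ, (∀ i, 0 < x i) ∧ ∀ i, (A.mulVec x) i < t * x i
    with hQ
  have hQup : ∀ s t, Q s → s ≤ t → Q t := by
    rintro s t ⟨x, hx, hx2⟩ hst
    refine ⟨x, hx, fun i => (hx2 i).trans_le ?_⟩
    exact mul_le_mul_of_nonneg_right hst (hx i).le
  have hQne : ∃ t, Q t := by
    refine ⟨1 + ∑ i, |(A.mulVec 1) i|, 1, fun i => by simp, fun i => ?_⟩
    have h1 : |(A.mulVec 1) i| ≤ ∑ i, |(A.mulVec 1) i| :=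
      Finset.single_le_sum (f := fun i => |(A.mulVec 1) i|) (fun i _ => abs_nonneg _)
        (Finset.mem_univ i)
    have h2 := le_abs_self ((A.mulVec 1) i)
    simp only [Pi.one_apply, mul_one]
    linarith
  have hQdown : ∀ t, Q t → ∃ s, s < t ∧ Q s := by
    rintro t ⟨x, hx, hx2⟩
    have h1 : ∀ᶠ s in nhdsWithin t (Set.Iio t), ∀ i, (A.mulVec x) i < s * x i := by
      rw [Filter.eventually_all]
      intro i
      have hc : Filter.Tendsto (fun s : ℝ => s * x i) (nhdsWithin t (Set.Iio t))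
          (nhds (t * x i)) :=
        ((continuous_id.mul continuous_const).tendsto t).mono_left nhdsWithin_le_nhds
      exact hc.eventually (lt_mem_nhds (hx2 i))
    obtain ⟨s, hs1, hs2⟩ := (h1.and self_mem_nhdsWithin).exists
    exact ⟨s, hs2, x, hx, hs1⟩
  have hmain : ∀ t : ℝ, 1 < t → Q t := by
    intro t1 ht1
    by_contra hcon
    have hbdd : ∀ t, Q t → t1 ≤ t := by
      intro t ht
      by_contra h
      push Not at h
      exact hcon (hQup t t1 ht h.le)
    have hB : BddBelow {t | Q t} := ⟨t1, fun t ht => hbdd t ht⟩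
    have hNe : {t | Q t}.Nonempty := hQne
    set t0 := sInf {t | Q t} with ht0
    have ht10 : t1 ≤ t0 := le_csInf hNe (fun t ht => hbdd t ht)
    have hgt : ∀ t, t0 < t → Q t := by
      intro t ht
      obtain ⟨s, hs, hst⟩ := exists_lt_of_csInf_lt hNe ht
      exact hQup s t hs hst.le
    have ht0pos : 1 < t0 := lt_of_lt_of_le ht1 ht10
    have hu : IsUnit (t0 • (1 : Matrix (Fin N) (Fin N) ℝ) - A).det :=
      isUnit_iff_ne_zero.mpr (hdet t0 ht0pos)
    set y : Fin N → ℝ := ((t0 • (1 : Matrix (Fin N) (Fin N) ℝ) - A)⁻¹).mulVec 1 with hy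
    have hy1 : ∀ i, t0 * y i - (A.mulVec y) i = 1 := by
      intro i
      rw [← smul_one_sub_mulVec, hy, Matrix.mulVec_mulVec, Matrix.mul_nonsing_inv _ hu,
        Matrix.one_mulVec, Pi.one_apply]
    have h1 : ∀ᶠ t in nhdsWithin t0 (Set.Ioi t0), ∀ i, 0 ≤ 1 + (t - t0) * y i := by
      rw [Filter.eventually_all]
      intro i
      have hc : Filter.Tendsto (fun t : ℝ => 1 + (t - t0) * y i) (nhdsWithin t0 (Set.Ioi t0))
          (nhds (1 + (t0 - t0) * y i)) := by
        have : Continuous (fun t : ℝ => 1 + (t - t0) * y i) := by fun_prop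
        exact (this.tendsto t0).mono_left nhdsWithin_le_nhds
      have h0 : (0:ℝ) < 1 + (t0 - t0) * y i := by simp
      exact (hc.eventually (lt_mem_nhds h0)).mono (fun t ht => ht.le)
    obtain ⟨t, ht1', ht2⟩ := (h1.and self_mem_nhdsWithin).exists
    obtain ⟨x, hx, hx2⟩ := hgt t ht2
    have hgood : Good (t • (1 : Matrix (Fin N) (Fin N) ℝ) - A) x :=
      ⟨hZ t, hx, fun i => by rw [smul_one_sub_mulVec]; linarith [hx2 i]⟩
    have hynn : ∀ i, 0 ≤ y i := by
      apply hgood.nonneg
      intro i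
      rw [smul_one_sub_mulVec]
      have := ht1' i
      have := hy1 i
      nlinarith
    have hypos : ∀ i, 0 < y i := by
      intro i
      have h2 : 0 ≤ (A.mulVec y) i := by
        simp only [Matrix.mulVec, dotProduct]
        exact Finset.sum_nonneg (fun j _ => mul_nonneg (hA i j) (hynn j))
      have h3 := hy1 i
      by_contra hc
      push Not at hc
      have : t0 * y i ≤ 0 := mul_nonpos_of_nonneg_of_nonpos (by linarith) hc
      linarith
    have hQ0 : Q t0 := ⟨y, hypos, fun i => by linarith [hy1 i]⟩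
    obtain ⟨s, hs1, hs2⟩ := hQdown t0 hQ0
    exact absurd (csInf_le hB hs2) (not_le.mpr hs1)
  intro t ht
  obtain ⟨x, hx, hx2⟩ := hmain t ht
  exact ⟨x, hZ t, hx, fun i => by rw [smul_one_sub_mulVec]; linarith [hx2 i]⟩

lemma diag_lt (A : Matrix (Fin N) (Fin N) ℝ) (hA : ∀ i j, 0 ≤ A i j) (t : ℝ) (x : Fin N → ℝ)
    (h : Good (t • (1 : Matrix (Fin N) (Fin N) ℝ) - A) x) (i : Fin N) : A i i < t := by
  have h1 := h.2.2 i
  rw [smul_one_sub_mulVec] at h1
  have h2 : A i i * x i ≤ (A.mulVec x) i := by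
    simp only [Matrix.mulVec, dotProduct]
    exact Finset.single_le_sum (f := fun j => A i j * x j)
      (fun j _ => mul_nonneg (hA i j) (h.2.1 j).le) (Finset.mem_univ i)
  have h3 := h.2.1 i
  by_contra hc
  push Not at hc
  have : t * x i ≤ A i i * x i := mul_le_mul_of_nonneg_right hc h3.le
  linarith

lemma deriv_le (A : Matrix (Fin N) (Fin N) ℝ) (t : ℝ) (x : Fin N → ℝ)
    (h : Good (t • (1 : Matrix (Fin N) (Fin N) ℝ) - A) x) :
    A.charpoly.derivative.eval t ≤ ∑ v, ∏ i ∈ Finset.univ.erase v, (t - A i i) := by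
  rw [deriv_charpoly]
  apply Finset.sum_le_sum
  intro v _
  have h1 := hadamard x (Finset.univ.erase v) _ (h.update v) (by
    intro i hi
    have : i = v := by simpa using hi
    subst this
    rw [Matrix.updateRow_self])
  refine h1.2.trans (le_of_eq ?_)
  apply Finset.prod_congr rfl
  intro i hi
  rw [Matrix.updateRow_ne (Finset.ne_of_mem_erase hi)]
  simp

lemma deriv_le_one (A : Matrix (Fin N) (Fin N) ℝ) (hA : ∀ i j, 0 ≤ A i j)
    (hdet : ∀ t : ℝ, 1 < t → (t • (1 : Matrix (Fin N) (Fin N) ℝ) - A).det ≠ 0) :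
    A.charpoly.derivative.eval 1 ≤ ∑ v, ∏ i ∈ Finset.univ.erase v, (1 - A i i) := by
  have h1 : Filter.Tendsto (fun t : ℝ => A.charpoly.derivative.eval t)
      (nhdsWithin 1 (Set.Ioi 1)) (nhds (A.charpoly.derivative.eval 1)) :=
    ((A.charpoly.derivative.continuous).tendsto 1).mono_left nhdsWithin_le_nhds
  have h2 : Filter.Tendsto (fun t : ℝ => ∑ v, ∏ i ∈ Finset.univ.erase v, (t - A i i))
      (nhdsWithin 1 (Set.Ioi 1)) (nhds (∑ v, ∏ i ∈ Finset.univ.erase v, (1 - A i i))) := by
    have : Continuous (fun t : ℝ => ∑ v, ∏ i ∈ Finset.univ.erase v, (t - A i i)) := by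
      fun_prop
    exact (this.tendsto 1).mono_left nhdsWithin_le_nhds
  refine le_of_tendsto_of_tendsto h1 h2 ?_
  filter_upwards [self_mem_nhdsWithin] with t ht
  obtain ⟨x, hx⟩ := exists_good A hA hdet t ht
  exact deriv_le A t x hx

lemma real_ineq {n : ℕ} (hn : 1 ≤ n) (A : Matrix (Fin (n + 1)) (Fin (n + 1)) ℝ)
    (hA : ∀ i j, 0 ≤ A i j)
    (hdet : ∀ t : ℝ, 1 < t → (t • (1 : Matrix (Fin (n + 1)) (Fin (n + 1)) ℝ) - A).det ≠ 0) :
    A.charpoly.derivative.eval 1 ≤ (n + 1 : ℝ) - A.trace := by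
  have hd : ∀ i, A i i ≤ 1 := by
    intro i
    apply le_of_forall_gt_imp_ge_of_dense
    intro t ht
    obtain ⟨x, hx⟩ := exists_good A hA hdet t ht
    exact (diag_lt A hA t x hx i).le
  refine (deriv_le_one A hA hdet).trans ?_
  have h1 : ∀ v : Fin (n + 1), ∏ i ∈ Finset.univ.erase v, (1 - A i i) ≤ 1 - A (v + 1) (v + 1) := by
    intro v
    have hv : v + 1 ∈ Finset.univ.erase v := by
      rw [Finset.mem_erase]
      refine ⟨?_, Finset.mem_univ _⟩
      intro h
      have h2 : (1 : Fin (n + 1)) = 0 := by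
        have : v + 1 = v + 0 := by rw [h, add_zero]
        exact add_left_cancel this
      have h3 := congrArg Fin.val h2
      rw [Fin.val_one', Fin.val_zero, Nat.mod_eq_of_lt (by omega)] at h3
      omega
    rw [← Finset.mul_prod_erase _ _ hv]
    have h2 : ∏ i ∈ (Finset.univ.erase v).erase (v + 1), (1 - A i i) ≤ 1 := by
      apply Finset.prod_le_one
      · intro i _; linarith [hd i]
      · intro i _; linarith [hA i i]
    have h3 : 0 ≤ 1 - A (v + 1) (v + 1) := by linarith [hd (v + 1)]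
    nlinarith
  refine (Finset.sum_le_sum (fun v _ => h1 v)).trans ?_
  have h2 : ∑ v : Fin (n + 1), (1 - A (v + 1) (v + 1)) = ∑ v, (1 - A v v) :=
    Equiv.sum_comp (Equiv.addRight (1 : Fin (n + 1))) (fun v => 1 - A v v)
  rw [h2, Finset.sum_sub_distrib]
  simp [Matrix.trace]

end aux

/-- For every nonnegative real (n+1)×(n+1) matrix (n ≥ 1) with spectral radius 1, listing its eigenvalues with multiplicity as 1, λ₁,…,λₙ, the product of the (1−λⱼ) is at most their sum. -/
theorem result :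
    ∀ n : ℕ, 1 ≤ n → ∀ A : Matrix (Fin (n + 1)) (Fin (n + 1)) ℝ,
      (∀ i j, 0 ≤ A i j) →
      (1 : ℂ) ∈ (A.map (algebraMap ℝ ℂ)).charpoly.roots →
      (∀ z ∈ (A.map (algebraMap ℝ ℂ)).charpoly.roots, ‖z‖ ≤ 1) →
      ((((A.map (algebraMap ℝ ℂ)).charpoly.roots).erase 1).map (fun z : ℂ => 1 - z)).prod
        ≤ ((((A.map (algebraMap ℝ ℂ)).charpoly.roots).erase 1).map (fun z : ℂ => 1 - z)).sum := by
  intro n hn A hA h1 hz
  have hdet : ∀ t : ℝ, 1 < t →
      (t • (1 : Matrix (Fin (n + 1)) (Fin (n + 1)) ℝ) - A).det ≠ 0 := by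
    intro t ht h0
    have h2 : A.charpoly.eval t = 0 := by
      rw [Matrix.eval_charpoly, ← h0]
      congr 1
      ext i j
      simp [Matrix.one_apply, Matrix.diagonal]
    have h3 : (t : ℂ) ∈ (A.map (algebraMap ℝ ℂ)).charpoly.roots := by
      rw [Polynomial.mem_roots (Matrix.charpoly_monic _).ne_zero, Polynomial.IsRoot.def,
        Matrix.charpoly_map, ← Complex.coe_algebraMap, Polynomial.eval_map_algebraMap,
        Polynomial.aeval_algebraMap_apply, Polynomial.coe_aeval_eq_eval, h2]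
      simp
    have h4 := hz _ h3
    rw [Complex.norm_real, Real.norm_eq_abs] at h4
    have := le_abs_self t
    linarith
  have hsplit := IsAlgClosed.splits (A.map (algebraMap ℝ ℂ)).charpoly
  have hprod := hsplit.eval_root_derivative (Matrix.charpoly_monic _) h1
  have hprod2 : Polynomial.eval 1 (Polynomial.derivative (A.map (algebraMap ℝ ℂ)).charpoly)
      = ((A.charpoly.derivative.eval 1 : ℝ) : ℂ) := by
    rw [Matrix.charpoly_map, Polynomial.derivative_map]
    have : (1 : ℂ) = algebraMap ℝ ℂ 1 := by simp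
    rw [this, Polynomial.eval_map_algebraMap, Polynomial.aeval_algebraMap_apply]
    simp
  rw [hprod2] at hprod
  rw [← hprod]
  have hsum : ((((A.map (algebraMap ℝ ℂ)).charpoly.roots).erase 1).map
      (fun z : ℂ => 1 - z)).sum = (((n + 1 : ℝ) - A.trace : ℝ) : ℂ) := by
    have h5 : (((A.map (algebraMap ℝ ℂ)).charpoly.roots).map (fun z : ℂ => 1 - z)).sum
        = ((((A.map (algebraMap ℝ ℂ)).charpoly.roots).erase 1).map (fun z : ℂ => 1 - z)).sum := by
      conv_lhs => rw [← Multiset.cons_erase h1]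
      rw [Multiset.map_cons, Multiset.sum_cons]
      simp
    rw [← h5, Multiset.sum_map_sub]
    simp only [Multiset.map_const', Multiset.sum_replicate, Multiset.map_id']
    rw [← Matrix.trace_eq_sum_roots_charpoly, IsAlgClosed.card_roots_eq_natDegree,
      Matrix.charpoly_natDegree_eq_dim]
    simp [Matrix.trace]
  rw [hsum]
  exact Complex.real_le_real.mpr (real_ineq hn A hA hdet)

end Pool.Agent.S01053
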