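import Pool.Statements.S01056
import Pool.Agent.Helper632.Final

set_option autoImplicit false
open Pool Pool.MP_65afe3_al

namespace Pool.Agent.S01056

/-- The negation of the preceding statement: There is a group G with a normal subgroup isomorphic to Z^5 and quotient isomorphic to SL_5(Z) that is not residually finite: some nontrivial element lies in every finite-index subgroup. -/
theorem result :
    ¬ (∃ (G : Type) (_ : Group G) (N : Subgroup G) (_ : N.Normal),
      Nonempty (N ≃* Multiplicative (Fin 5 → ℤ)) ∧
      Nonempty (G ⧸ N ≃* Matrix.SpecialLinearGroup (Fin 5) ℤ) ∧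
      ∃ g : G, g ≠ 1 ∧ ∀ H : Subgroup G, H.FiniteIndex → g ∈ H) := by
  rintro ⟨G, instG, N, hN, ⟨e⟩, ⟨q⟩, g, hg, h⟩
  obtain ⟨I⟩ := Pool.Agent.Helper632.exists_intExt G N e q
  obtain ⟨H, hH, hgH⟩ := I.residually_finite g hg
  exact hgH (h H hH)

end Pool.Agent.S01056
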