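import Pool.Statements.S01058

set_option autoImplicit false
open Pool Pool.MP_65d788_al

namespace Pool.Agent.S01058

instance fact23 : Fact (Nat.Prime 23) := ⟨by norm_num⟩

abbrev F := ZMod 23
abbrev V := Fin 6 → F
abbrev GG := V ≃ₗ[F] V

/-- The diagonal maps. -/
def D : (Fin 6 → Fˣ) →* GG where
  toFun d :=
    { toFun := fun v i => (d i : F) * v i
      invFun := fun v i => (((d i)⁻¹ : Fˣ) : F) * v i
      map_add' := by intro x y; funext i; exact mul_add _ _ _
      map_smul' := by intro x y; funext i; exact mul_left_comm _ _ _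
      left_inv := by intro v; funext i; exact Units.inv_mul_cancel_left _ _
      right_inv := by intro v; funext i; exact Units.mul_inv_cancel_left _ _ }
  map_one' := by
    apply LinearEquiv.ext; intro v; funext i; exact one_mul _
  map_mul' := by
    intro x y; apply LinearEquiv.ext; intro v; funext i
    exact mul_assoc _ _ _

/-- The permutation maps. -/
def P : Equiv.Perm (Fin 6) →* GG where
  toFun s :=
    { toFun := fun v i => v (s⁻¹ i)
      invFun := fun v i => v (s i)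
      map_add' := by intro x y; funext i; rfl
      map_smul' := by intro x y; funext i; rfl
      left_inv := by intro v; funext i; exact congrArg v (Equiv.symm_apply_apply s i)
      right_inv := by intro v; funext i; exact congrArg v (Equiv.apply_symm_apply s i) }
  map_one' := by apply LinearEquiv.ext; intro v; funext i; rfl
  map_mul' := by
    intro x y; apply LinearEquiv.ext; intro v; funext i
    rfl

lemma D_apply (d : Fin 6 → Fˣ) (v : V) (i : Fin 6) : D d v i = (d i : F) * v i := rfl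
lemma P_apply (s : Equiv.Perm (Fin 6)) (v : V) (i : Fin 6) : P s v i = v (s⁻¹ i) := rfl

lemma PD (s : Equiv.Perm (Fin 6)) (d : Fin 6 → Fˣ) :
    P s * D d = D (fun i => d (s⁻¹ i)) * P s := by
  apply LinearEquiv.ext; intro v; funext i
  rfl

lemma DP_inj {d d' : Fin 6 → Fˣ} {s s' : Equiv.Perm (Fin 6)} (h : D d * P s = D d' * P s') :
    d = d' ∧ s = s' := by
  have key : ∀ (v : V) (i : Fin 6), (d i : F) * v (s⁻¹ i) = (d' i : F) * v (s'⁻¹ i) := by
    intro v i
    have := congrArg (fun f : GG => f v i) h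
    exact this
  have h1 : d = d' := by
    funext i
    have := key (fun _ => 1) i
    apply Units.ext
    simpa only [mul_one] using this
  refine ⟨h1, ?_⟩
  subst h1
  have h2 : ∀ i, s⁻¹ i = s'⁻¹ i := by
    intro i
    by_contra hne
    have h3 := key (Pi.single (s⁻¹ i) 1) i
    rw [Pi.single_eq_same, Pi.single_eq_of_ne (Ne.symm hne)] at h3
    simp at h3
  have h4 : s⁻¹ = s'⁻¹ := Equiv.ext h2
  exact inv_injective h4

/-- The five-cycle. -/
def c : Equiv.Perm (Fin 6) := finRotate 6 * Equiv.swap 4 5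

lemma c_pow : c ^ 5 = 1 := by decide

lemma orderOf_c : orderOf c = 5 :=
  haveI : Fact (Nat.Prime 5) := ⟨by norm_num⟩
  orderOf_eq_prime c_pow (by decide)

lemma c_fix {s : Equiv.Perm (Fin 6)} (hs : s ∈ Subgroup.zpowers c) : s 5 = 5 := by
  have : s ∈ MulAction.stabilizer (Equiv.Perm (Fin 6)) (5 : Fin 6) := by
    refine (Subgroup.zpowers_le.mpr ?_) hs
    rw [MulAction.mem_stabilizer_iff]
    decide
  exact this

/-- diagonal entries of order dividing 11 -/
def S : Subgroup (Fin 6 → Fˣ) where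
  carrier := {d | ∀ i, d i ^ 11 = 1}
  mul_mem' := by
    intro a b ha hb i
    rw [Pi.mul_apply, mul_pow, ha i, hb i, one_mul]
  one_mem' := by intro i; exact one_pow _
  inv_mem' := by
    intro a ha i
    rw [Pi.inv_apply, inv_pow, ha i, inv_one]

lemma card_S : Nat.card S = 11 ^ 6 := by
  have e : S ≃ ((i : Fin 6) → {x : Fˣ // x ^ 11 = 1}) :=
    Equiv.subtypePiEquivPi (p := fun (_ : Fin 6) (x : Fˣ) => x ^ 11 = 1)
  rw [Nat.card_congr e, Nat.card_pi]
  have : Nat.card {x : Fˣ // x ^ 11 = 1} = 11 := by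
    rw [Nat.card_eq_fintype_card]
    decide +kernel
  rw [this]
  simp

/-- The Hall subgroup. -/
def H : Subgroup GG where
  carrier := {x | ∃ d ∈ S, ∃ s ∈ Subgroup.zpowers c, x = D d * P s}
  mul_mem' := by
    rintro _ _ ⟨d, hd, s, hs, rfl⟩ ⟨e, he, t, ht, rfl⟩
    refine ⟨d * (fun i => e (s⁻¹ i)), S.mul_mem hd (fun i => he _), s * t,
      Subgroup.mul_mem _ hs ht, ?_⟩
    rw [map_mul, map_mul]
    calc D d * P s * (D e * P t) = D d * (P s * D e) * P t := by group
      _ = D d * (D (fun i => e (s⁻¹ i)) * P s) * P t := by rw [PD]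
      _ = _ := by group
  one_mem' := ⟨1, S.one_mem, 1, Subgroup.one_mem _, by rw [map_one, map_one, one_mul]⟩
  inv_mem' := by
    rintro _ ⟨d, hd, s, hs, rfl⟩
    refine ⟨(fun i => (d⁻¹) (s i)), (fun i => S.inv_mem hd _), s⁻¹, Subgroup.inv_mem _ hs, ?_⟩
    have := PD s⁻¹ d⁻¹
    rw [mul_inv_rev, ← map_inv, ← map_inv, this]
    simp only [inv_inv]

/-- The normal Sylow 11-subgroup. -/
def T : Subgroup GG := S.map D

lemma T_le : T ≤ H := by
  rintro _ ⟨d, hd, rfl⟩
  exact ⟨d, hd, 1, Subgroup.one_mem _, by rw [map_one, mul_one]⟩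

lemma D_inj : Function.Injective D := by
  intro d e h
  have : D d * P 1 = D e * P 1 := by rw [h]
  exact (DP_inj this).1

lemma card_T : Nat.card T = 11 ^ 6 := by
  rw [← card_S]
  exact Nat.card_congr (S.equivMapOfInjective D D_inj).symm.toEquiv

lemma card_H : Nat.card H = 11 ^ 6 * 5 := by
  have : Function.Bijective (fun x : S × Subgroup.zpowers c =>
      (⟨D x.1 * P x.2, x.1, x.1.2, x.2, x.2.2, rfl⟩ : H)) := by
    constructor
    · rintro ⟨⟨d, hd⟩, ⟨s, hs⟩⟩ ⟨⟨e, he⟩, ⟨t, ht⟩⟩ h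
      have h1 : D d * P s = D e * P t := congrArg Subtype.val h
      obtain ⟨h2, h3⟩ := DP_inj h1
      subst h2; subst h3; rfl
    · rintro ⟨_, d, hd, s, hs, rfl⟩
      exact ⟨⟨⟨d, hd⟩, ⟨s, hs⟩⟩, rfl⟩
  rw [← Nat.card_congr (Equiv.ofBijective _ this), Nat.card_prod, card_S, Nat.card_zpowers,
    orderOf_c]

lemma card_GG : Nat.card GG = ∏ i : Fin 6, (23 ^ 6 - 23 ^ (i : ℕ)) := by
  have h := Matrix.card_GL_field (𝔽 := ZMod 23) 6
  rw [ZMod.card] at h
  rw [← h]
  exact (Nat.card_congr ((Matrix.GeneralLinearGroup.toLin (n := Fin 6) (R := ZMod 23)).trans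
    (LinearMap.GeneralLinearGroup.generalLinearEquiv (ZMod 23) (Fin 6 → ZMod 23))).toEquiv).symm

lemma hall : Nat.Coprime (Nat.card H) H.index := by
  have h := Subgroup.card_mul_index H
  rw [card_GG, card_H] at h
  have h2 : H.index = (∏ i : Fin 6, (23 ^ 6 - 23 ^ (i : ℕ))) / (11 ^ 6 * 5) := by
    rw [← h]
    exact (Nat.mul_div_cancel_left _ (by norm_num)).symm
  rw [card_H, h2]
  simp only [Fin.prod_univ_succ, Fin.prod_univ_zero]
  norm_num

lemma conj_D (d e : Fin 6 → Fˣ) (s : Equiv.Perm (Fin 6)) :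
    (D d * P s) * D e * (D d * P s)⁻¹ = D (fun i => e (s⁻¹ i)) := by
  have h : (D d * P s) * D e * (D d * P s)⁻¹ = D d * (P s * D e) * (P s)⁻¹ * (D d)⁻¹ := by group
  rw [h, PD, mul_assoc (D d), mul_assoc (D fun i => e (s⁻¹ i)), mul_inv_cancel, mul_one,
    ← map_inv, ← map_mul, ← map_mul]
  congr 1
  rw [mul_comm d, mul_assoc, mul_inv_cancel, mul_one]

lemma T_normal : (T.subgroupOf H).Normal := by
  constructor
  rintro ⟨t, ht⟩ hx ⟨h, hh⟩
  rw [Subgroup.mem_subgroupOf] at hx ⊢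
  obtain ⟨e, he, rfl⟩ := hx
  obtain ⟨d, hd, s, hs, rfl⟩ := hh
  refine ⟨fun i => e (s⁻¹ i), fun i => he _, ?_⟩
  exact (conj_D d e s).symm

lemma card_T' : Nat.card (T.subgroupOf H) = 11 ^ 6 := by
  rw [← card_T]
  exact Nat.card_congr (Subgroup.subgroupOfEquivOfLe T_le).toEquiv

/-- The Sylow tower. -/
noncomputable def N : ℕ → Subgroup H
  | 0 => ⊥
  | 1 => T.subgroupOf H
  | _ => ⊤

lemma fact11 : (11 ^ 6 * 5 : ℕ).factorization 11 = 6 := by
  rw [Nat.factorization_mul (by norm_num) (by norm_num), Nat.Prime.factorization_pow (by norm_num)]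
  simp [Nat.Prime.factorization (show Nat.Prime 5 by norm_num)]

lemma fact5 : (11 ^ 6 * 5 : ℕ).factorization 5 = 1 := by
  rw [Nat.factorization_mul (by norm_num) (by norm_num), Nat.Prime.factorization_pow (by norm_num)]
  simp [Nat.Prime.factorization (show Nat.Prime 5 by norm_num)]

lemma tower : ∃ (n : ℕ) (N : ℕ → Subgroup H), N 0 = ⊥ ∧ N n = ⊤ ∧
        (∀ i, i < n → N i ≤ N (i + 1) ∧ (N (i + 1)).Normal ∧
          ∃ p : ℕ, p.Prime ∧
            Nat.card (N (i + 1)) = Nat.card (N i) * p ^ (Nat.card H).factorization p) := by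
  refine ⟨2, N, rfl, rfl, ?_⟩
  intro i hi
  interval_cases i
  · refine ⟨bot_le, T_normal, 11, by norm_num, ?_⟩
    rw [card_H, fact11]
    show Nat.card (T.subgroupOf H) = Nat.card (⊥ : Subgroup H) * 11 ^ 6
    rw [card_T', Subgroup.card_bot, one_mul]
  · refine ⟨le_top, ?_, 5, by norm_num, ?_⟩
    · show (⊤ : Subgroup H).Normal
      infer_instance
    · rw [card_H, fact5]
      show Nat.card (⊤ : Subgroup H) = Nat.card (T.subgroupOf H) * 5 ^ 1
      rw [card_T', Subgroup.card_top, card_H]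
      norm_num

/-- one fifth of the sum of the first five coordinates -/
def m (v : V) : F := 14 * (v 0 + v 1 + v 2 + v 3 + v 4)

lemma c23 : (23 : F) = 0 := by decide

/-- the swap map -/
def gfun (v : V) : V := ![v 0 - m v + v 5, v 1 - m v + v 5, v 2 - m v + v 5,
  v 3 - m v + v 5, v 4 - m v + v 5, m v]

lemma m_gfun (v : V) : m (gfun v) = v 5 := by
  simp only [m, gfun]
  simp
  linear_combination (-42 * (v 0 + v 1 + v 2 + v 3 + v 4) + 3 * v 5) * c23

lemma gfun_gfun (v : V) : gfun (gfun v) = v := by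
  have hm := m_gfun v
  have h5 : gfun v 5 = m v := rfl
  funext i
  have h : gfun (gfun v) i = (![gfun v 0 - m (gfun v) + gfun v 5, gfun v 1 - m (gfun v) + gfun v 5,
    gfun v 2 - m (gfun v) + gfun v 5, gfun v 3 - m (gfun v) + gfun v 5,
    gfun v 4 - m (gfun v) + gfun v 5, m (gfun v)] : V) i := rfl
  rw [h, hm, h5]
  fin_cases i
  · show v 0 - m v + v 5 - v 5 + m v = v 0; ring
  · show v 1 - m v + v 5 - v 5 + m v = v 1; ring
  · show v 2 - m v + v 5 - v 5 + m v = v 2; ring
  · show v 3 - m v + v 5 - v 5 + m v = v 3; ring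
  · show v 4 - m v + v 5 - v 5 + m v = v 4; ring
  · rfl

/-- the element g, an involution fixing the sum-zero vectors and swapping
(1,1,1,1,1,0) and (0,0,0,0,0,1). -/
def g : GG where
  toFun := gfun
  invFun := gfun
  map_add' := by
    intro x y
    funext i
    fin_cases i <;> (simp [gfun, m]; ring)
  map_smul' := by
    intro x y
    funext i
    fin_cases i <;> (simp [gfun, m]; ring)
  left_inv := gfun_gfun
  right_inv := gfun_gfun

/-- the unit 2 of order 11 -/
def two : Fˣ := ⟨2, 12, by decide, by decide⟩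

/-- the diagonal element -/
def a : Fin 6 → Fˣ := ![two, two, two, two, two, 1]

/-- the element of order 55 -/
def u : GG := D a * P c

lemma u_mem : u ∈ H := by
  refine ⟨a, ?_, c, Subgroup.mem_zpowers c, rfl⟩
  intro i
  apply Units.ext
  revert i
  decide

/-- the stabilizer of the hyperplane v 5 = 0 -/
def B : Subgroup GG where
  carrier := {x | ∀ v : V, v 5 = 0 ↔ x v 5 = 0}
  mul_mem' := by
    intro x y hx hy v
    exact (hy v).trans (hx (y v))
  one_mem' := by intro v; exact Iff.rfl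
  inv_mem' := by
    intro x hx v
    have h := hx (x⁻¹ v)
    have h2 : x (x⁻¹ v) = v := LinearEquiv.apply_symm_apply x v
    rw [h2] at h
    exact h.symm

lemma H_le_B : H ≤ B := by
  rintro _ ⟨d, hd, s, hs, rfl⟩ v
  have h1 : s⁻¹ 5 = 5 := c_fix (Subgroup.inv_mem _ hs)
  have h2 : (D d * P s) v 5 = (d 5 : F) * v (s⁻¹ 5) := rfl
  rw [h2, h1]
  constructor
  · intro h; rw [h, mul_zero]
  · intro h
    rcases mul_eq_zero.mp h with h | h
    · exact absurd h (d 5).ne_zero
    · exact h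

lemma u_apply (v : V) : u v = ![2 * v 4, 2 * v 0, 2 * v 1, 2 * v 2, 2 * v 3, v 5] := by
  have h : ∀ i, c⁻¹ i = (![4, 0, 1, 2, 3, 5] : Fin 6 → Fin 6) i := by decide
  have h' : ∀ i, u v i = (a i : F) * v (c⁻¹ i) := fun i => rfl
  funext i
  rw [h' i, h i]
  fin_cases i
  · rfl
  · rfl
  · rfl
  · rfl
  · rfl
  · show (1 : F) * v 5 = v 5
    rw [one_mul]

lemma gug_apply (v : V) : (g * u * g⁻¹) v 5 = 2 * v 5 := by
  have h : (g * u * g⁻¹) v = gfun (u (gfun v)) := rfl
  rw [h]
  have h2 : gfun (u (gfun v)) 5 = m (u (gfun v)) := rfl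
  rw [h2, u_apply]
  simp only [m, gfun]
  simp
  linear_combination (-84 * (v 0 + v 1 + v 2 + v 3 + v 4) + 6 * v 5) * c23

lemma gug_mem : g * u * g⁻¹ ∈ B := by
  intro v
  rw [gug_apply]
  constructor
  · intro h; rw [h, mul_zero]
  · intro h
    rcases mul_eq_zero.mp h with h | h
    · exact absurd h (by decide)
    · exact h

lemma zp_cases {s : Equiv.Perm (Fin 6)} (hs : s ∈ Subgroup.zpowers c) :
    ∃ k : Fin 5, s = c ^ (k : ℕ) := by
  obtain ⟨k, hk⟩ := (isOfFinOrder_of_finite c).mem_powers_iff_mem_zpowers.mpr hs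
  refine ⟨⟨k % 5, Nat.mod_lt _ (by norm_num)⟩, ?_⟩
  show s = c ^ (k % 5)
  rw [← orderOf_c, pow_mod_orderOf]
  exact hk.symm

/-- table of inverse powers of the cycle -/
def tbl : Fin 5 → Fin 6 → Fin 6 := ![![0,1,2,3,4,5], ![4,0,1,2,3,5], ![3,4,0,1,2,5],
  ![2,3,4,0,1,5], ![1,2,3,4,0,5]]

lemma tbl_eq : ∀ (k : Fin 5) (i : Fin 6), (c ^ (k : ℕ))⁻¹ i = tbl k i := by decide

lemma pow5 (d : Fin 6 → Fˣ) (k : Fin 5) (hk : k ≠ 0) (v : V) (hv : v 5 = 0) :
    ((D d * P (c ^ (k : ℕ))) ^ 5) v =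
      (((d 0 : F) * d 1 * d 2 * d 3 * d 4) • v : V) := by
  have e1 : ∀ (w : V) (i : Fin 6), (D d * P (c ^ (k : ℕ))) w i = (d i : F) * w (tbl k i) := by
    intro w i
    rw [← tbl_eq]; rfl
  have e2 : ((D d * P (c ^ (k : ℕ))) ^ 5) v = (D d * P (c ^ (k : ℕ))) ((D d * P (c ^ (k : ℕ)))
    ((D d * P (c ^ (k : ℕ))) ((D d * P (c ^ (k : ℕ))) ((D d * P (c ^ (k : ℕ))) v)))) := rfl
  funext i
  rw [e2, e1, e1, e1, e1, e1, Pi.smul_apply, smul_eq_mul]
  fin_cases k
  · exact absurd rfl hk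
  all_goals
    fin_cases i <;> simp [tbl, hv] <;> ring

/-- every element of H has 11th power trivial, or fifth power scalar on the hyperplane. -/
lemma H_dich (x : GG) (hx : x ∈ H) :
    x ^ 11 = 1 ∨ ∃ l : F, ∀ v : V, v 5 = 0 → (x ^ 5) v = l • v := by
  obtain ⟨d, hd, s, hs, rfl⟩ := hx
  obtain ⟨k, rfl⟩ := zp_cases hs
  by_cases hk : k = 0
  · left
    subst hk
    have h1 : D d * P (c ^ ((0 : Fin 5) : ℕ)) = D d := by
      have : c ^ ((0 : Fin 5) : ℕ) = 1 := by decide
      rw [this, map_one, mul_one]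
    rw [h1, ← map_pow]
    have h2 : d ^ 11 = 1 := by
      funext i
      exact hd i
    rw [h2, map_one]
  · right
    exact ⟨_, fun v hv => pow5 d k hk v hv⟩

lemma u_pow11 : u ^ 11 ≠ 1 := by
  intro h
  have h1 : (u ^ 11) (Pi.single 0 1) = Pi.single 0 1 := by rw [h]; rfl
  have h2 : (u ^ 11) (Pi.single 0 1) 0 = (1 : F) := by rw [h1]; decide
  have h3 : (u ^ 11) (Pi.single 0 1) = u (u (u (u (u (u (u (u (u (u (u (Pi.single 0 1))))))))))) :=
    rfl
  rw [h3] at h2
  simp only [u_apply] at h2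
  revert h2
  decide

lemma conj_g_apply (y : GG) (w : V) : (g * y * g⁻¹) w = gfun (y (gfun w)) := rfl

theorem result :
    ¬ (∀ (G : Type) [Group G] [Finite G] (H : Subgroup G),
      Nat.Coprime (Nat.card H) H.index →
      (∃ (n : ℕ) (N : ℕ → Subgroup H), N 0 = ⊥ ∧ N n = ⊤ ∧
        (∀ i, i < n → N i ≤ N (i + 1) ∧ (N (i + 1)).Normal ∧
          ∃ p : ℕ, p.Prime ∧
            Nat.card (N (i + 1)) = Nat.card (N i) * p ^ (Nat.card H).factorization p)) →
      ∀ K : Subgroup G, K ≤ H → ∀ g : G,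
        ∃ x ∈ H ⊔ K.map (MulAut.conj g).toMonoidHom,
          K.map (MulAut.conj (x * g)).toMonoidHom ≤ H) := by
  intro hall_strong
  have : Finite GG := by
    have : Finite (V →ₗ[F] V) := Module.finite_of_finite F
    exact Finite.of_injective (fun f : GG => (f : V →ₗ[F] V)) LinearEquiv.toLinearMap_injective
  obtain ⟨x, hx, hle⟩ := hall_strong GG H hall tower (Subgroup.zpowers u)
    (Subgroup.zpowers_le.mpr u_mem) g
  have hxB : x ∈ B := by
    refine (sup_le H_le_B ?_) hx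
    rw [Subgroup.map_le_iff_le_comap, Subgroup.zpowers_le]
    exact gug_mem
  have hmem : (x * g) * u * (x * g)⁻¹ ∈ H :=
    hle ⟨u, Subgroup.mem_zpowers u, rfl⟩
  set h := (x * g) * u * (x * g)⁻¹ with hh
  have hpow : ∀ n : ℕ, h ^ n = (x * g) * u ^ n * (x * g)⁻¹ := by
    intro n; rw [hh, conj_pow]
  rcases H_dich h hmem with h1 | ⟨l, hl⟩
  · apply u_pow11
    rw [hpow] at h1
    have := congrArg (fun y => (x * g)⁻¹ * y * (x * g)) h1
    calc u ^ 11 = (x * g)⁻¹ * ((x * g) * u ^ 11 * (x * g)⁻¹) * (x * g) := by group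
      _ = (x * g)⁻¹ * 1 * (x * g) := this
      _ = 1 := by group
  · have key : ∀ v : V, v 5 = 0 → (g * u ^ 5 * g⁻¹) v = l • v := by
      intro v hv
      have h1 := hl (x v) ((hxB v).mp hv)
      have h2 : g * u ^ 5 * g⁻¹ = x⁻¹ * h ^ 5 * x := by
        rw [hpow]; group
      rw [h2]
      have h3 : (x⁻¹ * h ^ 5 * x) v = x.symm ((h ^ 5) (x v)) := rfl
      rw [h3, h1, map_smul, LinearEquiv.symm_apply_apply]
    have k1 := congrFun (key ![1, 1, 1, 1, 1, 0] rfl) 0
    have k2 := congrFun (key ![1, -1, 0, 0, 0, 0] rfl) 0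
    have e0 : ∀ w : V, (u ^ 5) w = u (u (u (u (u w)))) := fun w => rfl
    rw [conj_g_apply, e0] at k1 k2
    simp only [u_apply] at k1 k2
    have l1 : l = 1 := by
      have : (l • (![1, 1, 1, 1, 1, 0] : V)) 0 = l := by simp
      rw [this] at k1
      rw [← k1]
      decide
    have l2 : l = 9 := by
      have : (l • (![1, -1, 0, 0, 0, 0] : V)) 0 = l := by simp
      rw [this] at k2
      rw [← k2]
      decide
    rw [l1] at l2
    exact absurd l2 (by decide)

end Pool.Agent.S01058
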