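import Pool.Statements.S01071

set_option autoImplicit false
set_option linter.unusedSectionVars false
open Pool Pool.MP_67f4ab_al

namespace Pool.Agent.S01071

section Basic

variable {G : Type} [Group G] {φ : G → ℝ} {D : ℝ}

theorem zero_of_nat_mul_le {a C : ℝ} (h : ∀ n : ℕ, (n : ℝ) * |a| ≤ C) : a = 0 := by
  by_contra ha
  have hpos : 0 < |a| := abs_pos.mpr ha
  obtain ⟨n, hn⟩ := exists_nat_gt (C / |a|)
  have h1 := h n
  rw [div_lt_iff₀ hpos] at hn
  linarith

theorem phi_one (hh : ∀ (g : G) (n : ℕ), φ (g ^ n) = (n : ℝ) * φ g) : φ 1 = 0 := by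
  simpa using hh 1 0

theorem phi_inv (hD : ∀ g h : G, |φ (g * h) - φ g - φ h| ≤ D)
    (hh : ∀ (g : G) (n : ℕ), φ (g ^ n) = (n : ℝ) * φ g) (g : G) : φ g⁻¹ = - φ g := by
  have key : φ g + φ g⁻¹ = 0 := by
    apply zero_of_nat_mul_le (C := D)
    intro n
    have h1 := hD (g ^ n) (g⁻¹ ^ n)
    have h2 : g ^ n * g⁻¹ ^ n = 1 := by
      rw [inv_pow, mul_inv_cancel]
    rw [h2, phi_one hh, hh, hh] at h1
    have h3 : (0 : ℝ) - n * φ g - n * φ g⁻¹ = - ((n : ℝ) * (φ g + φ g⁻¹)) := by ring
    rw [h3, abs_neg, abs_mul, Nat.abs_cast] at h1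
    exact h1
  linarith

theorem phi_conj (hD : ∀ g h : G, |φ (g * h) - φ g - φ h| ≤ D)
    (hh : ∀ (g : G) (n : ℕ), φ (g ^ n) = (n : ℝ) * φ g) (h g : G) :
    φ (h * g * h⁻¹) = φ g := by
  have key : φ (h * g * h⁻¹) - φ g = 0 := by
    apply zero_of_nat_mul_le (C := 2 * D)
    intro n
    have h1 := hD (h * g ^ n) h⁻¹
    have h2 := hD h (g ^ n)
    have h3 : h * g ^ n * h⁻¹ = (h * g * h⁻¹) ^ n := by rw [conj_pow]
    rw [h3, phi_inv hD hh h, hh] at h1
    rw [hh] at h2
    have h4 : (n : ℝ) * |φ (h * g * h⁻¹) - φ g| = |(n : ℝ) * (φ (h * g * h⁻¹) - φ g)| := by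
      rw [abs_mul, Nat.abs_cast]
    rw [h4]
    rw [abs_le] at h1 h2 ⊢
    constructor <;> linarith [h1.1, h1.2, h2.1, h2.2]
  linarith

end Basic

section Words

variable {G : Type} [Group G] {φ : G → ℝ} {D : ℝ}

/-- value of a formal letter -/
def ev (x : G × Bool) : G := if x.2 = true then x.1 else x.1⁻¹

/-- the formal inverse of a letter -/
def fl (x : G × Bool) : G × Bool := (x.1, !x.2)

/-- value of a word -/
def P (w : List (G × Bool)) : G := (w.map ev).prod

/-- sum of the values of `φ` along a word -/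
def S (φ : G → ℝ) (w : List (G × Bool)) : ℝ := (w.map fun x => φ (ev x)).sum

/-- sign of a letter -/
def sg (b : Bool) : ℤ := if b = true then 1 else -1

/-- the chain of a word -/
noncomputable def c (w : List (G × Bool)) : G →₀ ℤ :=
  (w.map fun x => Finsupp.single x.1 (sg x.2)).sum

/-- the integral `l^1` norm -/
noncomputable def nr {X : Type} (f : X →₀ ℤ) : ℤ := f.sum fun _ n => |n|

theorem ev_fl (x : G × Bool) : ev (fl x) = (ev x)⁻¹ := by
  rcases x with ⟨g, b⟩
  cases b <;> simp [ev, fl]

theorem fl_fl (x : G × Bool) : fl (fl x) = x := by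
  rcases x with ⟨g, b⟩
  cases b <;> simp [fl]

theorem P_nil : P ([] : List (G × Bool)) = 1 := by simp [P]
theorem P_cons (x : G × Bool) (w) : P (x :: w) = ev x * P w := by simp [P]
theorem P_append (v w : List (G × Bool)) : P (v ++ w) = P v * P w := by simp [P]
theorem S_nil : S φ ([] : List (G × Bool)) = 0 := by simp [S]
theorem S_cons (x : G × Bool) (w) : S φ (x :: w) = φ (ev x) + S φ w := by simp [S]
theorem S_append (v w : List (G × Bool)) : S φ (v ++ w) = S φ v + S φ w := by simp [S]
theorem c_nil : c ([] : List (G × Bool)) = 0 := by simp [c]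
theorem c_cons (x : G × Bool) (w) : c (x :: w) = Finsupp.single x.1 (sg x.2) + c w := by simp [c]
theorem c_append (v w : List (G × Bool)) : c (v ++ w) = c v + c w := by simp [c]

theorem sg_fl (x : G × Bool) : Finsupp.single (fl x).1 (sg (fl x).2) = - Finsupp.single x.1 (sg x.2) := by
  rcases x with ⟨g, b⟩
  cases b <;> simp [fl, sg]

theorem nr_eq {X : Type} (f : X →₀ ℤ) (s : Finset X) (hs : f.support ⊆ s) :
    nr f = ∑ g ∈ s, |f g| := by
  unfold nr
  exact Finsupp.sum_of_support_subset f hs _ (by simp)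

theorem nr_nonneg {X : Type} (f : X →₀ ℤ) : 0 ≤ nr f := by
  rw [nr_eq f f.support (Finset.Subset.refl _)]
  exact Finset.sum_nonneg fun _ _ => abs_nonneg _

theorem nr_zero {X : Type} : nr (0 : X →₀ ℤ) = 0 := by simp [nr]

theorem nr_single {X : Type} (x : X) (a : ℤ) : nr (Finsupp.single x a) = |a| := by
  simp [nr, Finsupp.sum_single_index]

theorem nr_add {X : Type} (f h : X →₀ ℤ) (hs : ∀ g, 0 ≤ f g * h g) :
    nr (f + h) = nr f + nr h := by
  classical
  rw [nr_eq (f + h) (f.support ∪ h.support) Finsupp.support_add,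
    nr_eq f (f.support ∪ h.support) Finset.subset_union_left,
    nr_eq h (f.support ∪ h.support) Finset.subset_union_right, ← Finset.sum_add_distrib]
  refine Finset.sum_congr rfl fun g _ => ?_
  rw [Finsupp.add_apply]
  exact abs_add_eq_add_abs_iff _ _ |>.mpr (by
    rcases le_total 0 (f g) with h1 | h1 <;> rcases le_total 0 (h g) with h2 | h2
    · exact Or.inl ⟨h1, h2⟩
    · by_cases h3 : f g = 0
      · exact Or.inr ⟨h3.le, h2⟩
      · have h4 : 0 < f g := lt_of_le_of_ne h1 (Ne.symm h3)
        have h5 : 0 ≤ h g := by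
          by_contra h6
          push Not at h6
          have := hs g
          nlinarith
        exact Or.inl ⟨h1, h5⟩
    · by_cases h3 : f g = 0
      · exact Or.inl ⟨h3.ge, h2⟩
      · have h4 : f g < 0 := lt_of_le_of_ne h1 h3
        have h5 : h g ≤ 0 := by
          by_contra h6
          push Not at h6
          have := hs g
          nlinarith
        exact Or.inr ⟨h1, h5⟩
    · exact Or.inr ⟨h1, h2⟩)

theorem eq_zero_of_nr {X : Type} (f : X →₀ ℤ) (h : nr f = 0) : f = 0 := by
  rw [nr_eq f f.support (Finset.Subset.refl _)] at h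
  rw [Finset.sum_eq_zero_iff_of_nonneg (fun _ _ => abs_nonneg _)] at h
  ext g
  by_cases hg : g ∈ f.support
  · simpa using h g hg
  · simpa using hg

theorem c_nonpos (w : List (G × Bool)) (g : G) (h : (g, true) ∉ w) : c w g ≤ 0 := by
  induction w with
  | nil => simp [c_nil]
  | cons x w ih =>
    rw [List.mem_cons, not_or] at h
    have h1 := ih h.2
    rw [c_cons, Finsupp.add_apply]
    rcases x with ⟨g', b⟩
    by_cases hg : g' = g
    · subst hg
      have : b = false := by
        cases b
        · rfl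
        · exact absurd rfl h.1
      subst this
      simp [sg]
      linarith
    · simp [Finsupp.single_apply, hg, h1]

theorem c_nonneg (w : List (G × Bool)) (g : G) (h : (g, false) ∉ w) : 0 ≤ c w g := by
  induction w with
  | nil => simp [c_nil]
  | cons x w ih =>
    rw [List.mem_cons, not_or] at h
    have h1 := ih h.2
    rw [c_cons, Finsupp.add_apply]
    rcases x with ⟨g', b⟩
    by_cases hg : g' = g
    · subst hg
      have : b = true := by
        cases b
        · exact absurd rfl h.1
        · rfl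
      subst this
      simp [sg]
      linarith
    · simp [Finsupp.single_apply, hg, h1]

theorem same_sign (u v : List (G × Bool)) (h : ∀ y ∈ u, fl y ∉ v) (g : G) :
    0 ≤ c u g * c v g := by
  by_cases h1 : (g, true) ∈ u
  · have hv : (g, false) ∉ v := h _ h1
    by_cases h2 : (g, false) ∈ u
    · have hv' : (g, true) ∉ v := h _ h2
      have := c_nonneg v g hv
      have := c_nonpos v g hv'
      have : c v g = 0 := by omega
      rw [this, mul_zero]
    · exact mul_nonneg (c_nonneg u g h2) (c_nonneg v g hv)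
  · by_cases h2 : (g, false) ∈ u
    · have hv' : (g, true) ∉ v := h _ h2
      exact mul_nonneg_of_nonpos_of_nonpos (c_nonpos u g h1) (c_nonpos v g hv')
    · have := c_nonneg u g h2
      have := c_nonpos u g h1
      have : c u g = 0 := by omega
      rw [this, zero_mul]

theorem nr_append (u v : List (G × Bool)) (h : ∀ y ∈ u, fl y ∉ v) :
    nr (c (u ++ v)) = nr (c u) + nr (c v) := by
  rw [c_append]
  exact nr_add _ _ (same_sign u v h)

theorem nr_one (x : G × Bool) : nr (c [x]) = 1 := by
  rw [c_cons, c_nil, add_zero, nr_single]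
  rcases x with ⟨g, b⟩
  cases b <;> simp [sg]

theorem comm_le (hD : ∀ g h : G, |φ (g * h) - φ g - φ h| ≤ D)
    (hinv : ∀ g : G, φ g⁻¹ = - φ g) (hconj : ∀ h g : G, φ (h * g * h⁻¹) = φ g) (a b : G) :
    |φ (a * b * a⁻¹ * b⁻¹)| ≤ D := by
  have h1 := hD a (b * a⁻¹ * b⁻¹)
  rw [hconj, hinv] at h1
  have h2 : a * (b * a⁻¹ * b⁻¹) = a * b * a⁻¹ * b⁻¹ := by group
  rw [h2] at h1
  have h3 : φ (a * b * a⁻¹ * b⁻¹) - φ a - -φ a = φ (a * b * a⁻¹ * b⁻¹) := by ring
  rwa [h3] at h1

/-- main estimate for one word -/
theorem word_le (h0 : 0 ≤ D) (hD : ∀ g h : G, |φ (g * h) - φ g - φ h| ≤ D) (h1 : φ 1 = 0)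
    (hinv : ∀ g : G, φ g⁻¹ = - φ g) (hconj : ∀ h g : G, φ (h * g * h⁻¹) = φ g) :
    ∀ (n : ℕ) (w : List (G × Bool)), w.length ≤ n →
      |φ (P w) - S φ w| ≤ D * ((w.length : ℝ) + (nr (c w) : ℝ)) / 2 := by
  intro n
  induction n with
  | zero =>
    intro w hw
    have : w = [] := List.eq_nil_of_length_eq_zero (by omega)
    subst this
    simp [P_nil, S_nil, c_nil, nr_zero, h1]
  | succ n ih =>
    intro w hw
    rcases w with _ | ⟨x, v⟩
    · simp [P_nil, S_nil, c_nil, nr_zero, h1]
    · by_cases hx : fl x ∈ v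
      · obtain ⟨u, v', rfl⟩ := List.append_of_mem hx
        by_cases hy : ∃ y ∈ u, fl y ∈ v'
        · obtain ⟨y, hyu, hyv⟩ := hy
          obtain ⟨u1, u2, rfl⟩ := List.append_of_mem hyu
          obtain ⟨s, t, rfl⟩ := List.append_of_mem hyv
          have hlen : (t ++ s ++ u2 ++ u1).length + 4 =
              (x :: (u1 ++ y :: u2 ++ fl x :: (s ++ fl y :: t))).length := by
            simp only [List.length_append, List.length_cons]
            omega
          have hc : c (x :: (u1 ++ y :: u2 ++ fl x :: (s ++ fl y :: t))) =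
              c (t ++ s ++ u2 ++ u1) := by
            simp only [c_append, c_cons, sg_fl]
            abel
          have hS : S φ (x :: (u1 ++ y :: u2 ++ fl x :: (s ++ fl y :: t))) =
              S φ (t ++ s ++ u2 ++ u1) := by
            simp only [S_append, S_cons, ev_fl, hinv]
            ring
          have hI := ih (t ++ s ++ u2 ++ u1) (by omega)
          have hP : P (x :: (u1 ++ y :: u2 ++ fl x :: (s ++ fl y :: t))) =
              (P s * P u2 * P u1) *
                (((P s * P u2 * P u1)⁻¹ * ev x * P u1) * (ev y * P u2 * P u1) *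
                  ((P s * P u2 * P u1)⁻¹ * ev x * P u1)⁻¹ * (ev y * P u2 * P u1)⁻¹ *
                  P (t ++ s ++ u2 ++ u1)) * (P s * P u2 * P u1)⁻¹ := by
            simp only [P_append, P_cons, ev_fl]
            group
          have hc1 := hD (((P s * P u2 * P u1)⁻¹ * ev x * P u1) * (ev y * P u2 * P u1) *
                  ((P s * P u2 * P u1)⁻¹ * ev x * P u1)⁻¹ * (ev y * P u2 * P u1)⁻¹)
                  (P (t ++ s ++ u2 ++ u1))
          have hc2 := comm_le hD hinv hconj ((P s * P u2 * P u1)⁻¹ * ev x * P u1)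
            (ev y * P u2 * P u1)
          rw [hP, hconj, hS, hc, ← hlen]
          push_cast
          rw [abs_le] at hc1 hc2 hI ⊢
          constructor <;> linarith [hc1.1, hc1.2, hc2.1, hc2.2, hI.1, hI.2]
        · push Not at hy
          have hlen : u.length + v'.length + 2 = (x :: (u ++ fl x :: v')).length := by
            simp only [List.length_append, List.length_cons]
            omega
          have hc : c (x :: (u ++ fl x :: v')) = c (u ++ v') := by
            simp only [c_append, c_cons, sg_fl]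
            abel
          have hS : S φ (x :: (u ++ fl x :: v')) = S φ u + S φ v' := by
            simp only [S_append, S_cons, ev_fl, hinv]
            ring
          have hIu := ih u (by omega)
          have hIv := ih v' (by omega)
          have hP : P (x :: (u ++ fl x :: v')) = (ev x * P u * (ev x)⁻¹) * P v' := by
            simp only [P_append, P_cons, ev_fl]
            group
          have hc1 := hD (ev x * P u * (ev x)⁻¹) (P v')
          rw [hconj] at hc1
          rw [hP, hS, hc, ← hlen, nr_append u v' hy]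
          push_cast
          rw [abs_le] at hc1 hIu hIv ⊢
          constructor <;> linarith [hc1.1, hc1.2, hIu.1, hIu.2, hIv.1, hIv.2]
      · have hn : nr (c (x :: v)) = 1 + nr (c v) := by
          have h2 : x :: v = [x] ++ v := rfl
          rw [h2, nr_append [x] v (by simpa using hx), nr_one]
        have hI := ih v (by simp only [List.length_cons] at hw; omega)
        have hc1 := hD (ev x) (P v)
        rw [P_cons, S_cons, hn]
        simp only [List.length_cons]
        push_cast
        rw [abs_le] at hc1 hI ⊢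
        constructor <;> linarith [hc1.1, hc1.2, hI.1, hI.2]

theorem S_eq (hinv : ∀ g : G, φ g⁻¹ = - φ g) (w : List (G × Bool)) :
    S φ w = (c w).sum fun g n => (n : ℝ) * φ g := by
  induction w with
  | nil => simp [S_nil, c_nil]
  | cons x w ih =>
    rw [S_cons, c_cons, Finsupp.sum_add_index' (by simp) (by intros; push_cast; ring), ← ih,
      Finsupp.sum_single_index (by simp)]
    rcases x with ⟨g, b⟩
    cases b <;> simp [ev, sg, hinv]

/-- main estimate for a family of closed polygons -/
theorem poly_le (h0 : 0 ≤ D) (hD : ∀ g h : G, |φ (g * h) - φ g - φ h| ≤ D) (h1 : φ 1 = 0)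
    (hinv : ∀ g : G, φ g⁻¹ = - φ g) (hconj : ∀ h g : G, φ (h * g * h⁻¹) = φ g) :
    ∀ (n : ℕ) (ws : List (List (G × Bool))), ws.length ≤ n →
      (∀ w ∈ ws, P w = 1) → (∀ w ∈ ws, 2 ≤ w.length) →
      |S φ ws.flatten| ≤ D * ((ws.flatten.length : ℝ) - 2 * (ws.length : ℝ)) / 2 +
        3 / 2 * D * (nr (c ws.flatten) : ℝ) := by
  intro n
  induction n with
  | zero =>
    intro ws hw _ _
    have : ws = [] := List.eq_nil_of_length_eq_zero (by omega)
    subst this
    simp [S_nil, c_nil, nr_zero]
  | succ n ih =>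
    intro ws hw hP hL
    rcases ws with _ | ⟨w, rest⟩
    · simp [S_nil, c_nil, nr_zero]
    · by_cases hx : ∃ x ∈ w, fl x ∈ rest.flatten
      · obtain ⟨x, hxw, hxr⟩ := hx
        rw [List.mem_flatten] at hxr
        obtain ⟨w2, hw2, hxw2⟩ := hxr
        obtain ⟨r1, r2, rfl⟩ := List.append_of_mem hw2
        obtain ⟨a, b, rfl⟩ := List.append_of_mem hxw
        obtain ⟨p, q, rfl⟩ := List.append_of_mem hxw2
        have hP1 : P (a ++ x :: b) = 1 := hP _ (by simp)
        have hP2 : P (p ++ fl x :: q) = 1 := hP _ (by simp)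
        have hL1 := hL (a ++ x :: b) (by simp)
        have hL2 := hL (p ++ fl x :: q) (by simp)
        have hPn : P (b ++ a ++ (q ++ p)) = 1 := by
          simp only [P_append, P_cons, ev_fl] at hP1 hP2 ⊢
          have e1 : P b * P a = (ev x)⁻¹ := by
            have : P a * ev x * (P b * P a) = P a := by
              rw [← mul_assoc, mul_assoc (P a) (ev x) (P b), hP1, one_mul]
            have h3 : P b * P a = (P a * ev x)⁻¹ * P a := by
              rw [eq_inv_mul_iff_mul_eq]; exact this
            rw [h3]; group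
          have e2 : P q * P p = ev x := by
            have : P p * (ev x)⁻¹ * (P q * P p) = P p := by
              rw [← mul_assoc, mul_assoc (P p) (ev x)⁻¹ (P q), hP2, one_mul]
            have h3 : P q * P p = (P p * (ev x)⁻¹)⁻¹ * P p := by
              rw [eq_inv_mul_iff_mul_eq]; exact this
            rw [h3]; group
          rw [e1, e2]; group
        have hI := ih ((b ++ a ++ (q ++ p)) :: (r1 ++ r2)) (by
            simp only [List.length_append, List.length_cons] at hw ⊢; omega) (by
            intro w hw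
            rw [List.mem_cons] at hw
            rcases hw with rfl | hw
            · exact hPn
            · apply hP
              simp only [List.mem_cons, List.mem_append] at hw ⊢
              tauto) (by
            intro w hw
            rw [List.mem_cons] at hw
            rcases hw with rfl | hw
            · simp only [List.length_append, List.length_cons] at hL1 hL2 ⊢
              omega
            · apply hL
              simp only [List.mem_cons, List.mem_append] at hw ⊢
              tauto)
        have hlen : ((b ++ a ++ (q ++ p)) :: (r1 ++ r2)).flatten.length + 2 =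
            ((a ++ x :: b) :: (r1 ++ (p ++ fl x :: q) :: r2)).flatten.length := by
          simp only [List.flatten_cons, List.flatten_append, List.length_append, List.length_cons]
          omega
        have hlen2 : ((b ++ a ++ (q ++ p)) :: (r1 ++ r2)).length + 1 =
            ((a ++ x :: b) :: (r1 ++ (p ++ fl x :: q) :: r2)).length := by
          simp only [List.length_append, List.length_cons]
          omega
        have hc : c ((a ++ x :: b) :: (r1 ++ (p ++ fl x :: q) :: r2)).flatten =
            c ((b ++ a ++ (q ++ p)) :: (r1 ++ r2)).flatten := by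
          simp only [List.flatten_cons, List.flatten_append, c_append, c_cons, sg_fl]
          abel
        have hS : S φ ((a ++ x :: b) :: (r1 ++ (p ++ fl x :: q) :: r2)).flatten =
            S φ ((b ++ a ++ (q ++ p)) :: (r1 ++ r2)).flatten := by
          simp only [List.flatten_cons, List.flatten_append, S_append, S_cons, ev_fl, hinv]
          ring
        rw [hS, hc, ← hlen, ← hlen2]
        push_cast
        rw [abs_le] at hI ⊢
        constructor <;> linarith [hI.1, hI.2]
      · push Not at hx
        have hI := ih rest (by simp only [List.length_cons] at hw; omega)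
          (fun w' hw' => hP w' (List.mem_cons_of_mem _ hw'))
          (fun w' hw' => hL w' (List.mem_cons_of_mem _ hw'))
        have hW := word_le h0 hD h1 hinv hconj w.length w le_rfl
        have hPw : P w = 1 := hP w (by simp)
        have hLw : 2 ≤ w.length := hL w (by simp)
        have hLw' : (2 : ℝ) ≤ (w.length : ℝ) := by exact_mod_cast hLw
        rw [hPw, h1] at hW
        have hW2 : |S φ w| ≤ D * ((w.length : ℝ) - 2) / 2 + 3 / 2 * D * (nr (c w) : ℝ) := by
          by_cases hz : nr (c w) = 0
          · have : S φ w = 0 := by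
              rw [S_eq hinv, eq_zero_of_nr _ hz]; simp
            rw [this, hz, abs_zero]
            simp only [Int.cast_zero, mul_zero, add_zero]
            have := mul_nonneg h0 (sub_nonneg.mpr hLw')
            linarith
          · have h3 : (1 : ℝ) ≤ (nr (c w) : ℝ) := by
              have := nr_nonneg (c w)
              have h4 : (1 : ℤ) ≤ nr (c w) := by omega
              exact_mod_cast h4
            have h5 := mul_le_mul_of_nonneg_left h3 h0
            rw [zero_sub, abs_neg] at hW
            linarith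
        rw [List.flatten_cons, S_append, nr_append w rest.flatten hx]
        simp only [List.length_append, List.length_cons]
        push_cast
        rw [abs_le] at hI hW2 ⊢
        constructor <;> linarith [hI.1, hI.2, hW2.1, hW2.2]

end Words


section Chains

variable {G : Type} [Group G] {φ : G → ℝ} {D : ℝ}

/-- boundary of integral chains -/
noncomputable def bdZ : (G × G →₀ ℤ) →ₗ[ℤ] (G →₀ ℤ) :=
  Finsupp.linearCombination ℤ
    (fun p : G × G => Finsupp.single p.1 (1 : ℤ) + Finsupp.single p.2 1 - Finsupp.single (p.1 * p.2) 1)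

/-- boundary of real chains -/
noncomputable def bd : (G × G →₀ ℝ) →ₗ[ℝ] (G →₀ ℝ) :=
  Finsupp.linearCombination ℝ
    (fun p : G × G => Finsupp.single p.1 (1 : ℝ) + Finsupp.single p.2 1 - Finsupp.single (p.1 * p.2) 1)

theorem bdZ_single (p : G × G) (n : ℤ) : bdZ (Finsupp.single p n) =
    n • (Finsupp.single p.1 (1 : ℤ) + Finsupp.single p.2 1 - Finsupp.single (p.1 * p.2) 1) := by
  simp only [bdZ, Finsupp.linearCombination_single]

theorem bd_single (p : G × G) (t : ℝ) : bd (Finsupp.single p t) =
    t • (Finsupp.single p.1 (1 : ℝ) + Finsupp.single p.2 1 - Finsupp.single (p.1 * p.2) 1) := by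
  simp only [bd, Finsupp.linearCombination_single]

/-- the properties of a list of closed triangles representing a chain -/
def Rep (A : G × G →₀ ℤ) (ws : List (List (G × Bool))) : Prop :=
  (∀ w ∈ ws, P w = 1) ∧ (∀ w ∈ ws, w.length = 3) ∧ c ws.flatten = bdZ A ∧ (ws.length : ℤ) = nr A

theorem rep_nat (p : G × G) (n : ℕ) : ∃ ws, Rep (Finsupp.single p (n : ℤ)) ws := by
  induction n with
  | zero => exact ⟨[], by simp, by simp, by simp [c_nil], by simp [nr_zero]⟩
  | succ n ih =>
    obtain ⟨ws, h1, h2, h3, h4⟩ := ih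
    refine ⟨[(p.1, true), (p.2, true), (p.1 * p.2, false)] :: ws, ?_, ?_, ?_, ?_⟩
    · intro w hw
      rw [List.mem_cons] at hw
      rcases hw with rfl | hw
      · simp [P, ev, ← mul_assoc]
      · exact h1 w hw
    · intro w hw
      rw [List.mem_cons] at hw
      rcases hw with rfl | hw
      · simp
      · exact h2 w hw
    · rw [List.flatten_cons, c_append, h3, bdZ_single, bdZ_single]
      simp only [c_cons, c_nil, sg]
      push_cast
      rw [add_smul, one_smul]
      simp only [if_true, Bool.false_eq_true, if_false, Finsupp.single_neg]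
      abel
    · rw [nr_single] at h4 ⊢
      rw [List.length_cons]
      push_cast
      rw [h4]
      rw [abs_of_nonneg (by positivity : (0 : ℤ) ≤ (n : ℤ)),
        abs_of_nonneg (by positivity : (0 : ℤ) ≤ (n : ℤ) + 1)]

theorem rep_neg (p : G × G) (n : ℕ) : ∃ ws, Rep (Finsupp.single p (-(n : ℤ))) ws := by
  induction n with
  | zero => exact ⟨[], by simp, by simp, by simp [c_nil], by simp [nr_zero]⟩
  | succ n ih =>
    obtain ⟨ws, h1, h2, h3, h4⟩ := ih
    refine ⟨[(p.1 * p.2, true), (p.2, false), (p.1, false)] :: ws, ?_, ?_, ?_, ?_⟩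
    · intro w hw
      rw [List.mem_cons] at hw
      rcases hw with rfl | hw
      · simp [P, ev]
      · exact h1 w hw
    · intro w hw
      rw [List.mem_cons] at hw
      rcases hw with rfl | hw
      · simp
      · exact h2 w hw
    · rw [List.flatten_cons, c_append, h3, bdZ_single, bdZ_single]
      simp only [c_cons, c_nil, sg]
      push_cast
      rw [neg_add, add_smul, neg_smul 1, one_smul]
      simp only [if_true, Bool.false_eq_true, if_false, Finsupp.single_neg]
      abel
    · rw [nr_single] at h4 ⊢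
      rw [List.length_cons]
      push_cast
      rw [h4, abs_neg, abs_neg]
      rw [abs_of_nonneg (by positivity : (0 : ℤ) ≤ (n : ℤ)),
        abs_of_nonneg (by positivity : (0 : ℤ) ≤ (n : ℤ) + 1)]

theorem rep_single (p : G × G) (b : ℤ) : ∃ ws, Rep (Finsupp.single p b) ws := by
  rcases Int.eq_nat_or_neg b with ⟨n, rfl | rfl⟩
  · exact rep_nat p n
  · exact rep_neg p n

theorem rep_all (A : G × G →₀ ℤ) : ∃ ws, Rep A ws := by
  induction A using Finsupp.induction with
  | zero => exact ⟨[], by simp, by simp, by simp [c_nil], by simp [nr_zero]⟩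
  | single_add p b A hp hb ih =>
    obtain ⟨ws, h1, h2, h3, h4⟩ := ih
    obtain ⟨vs, k1, k2, k3, k4⟩ := rep_single p b
    refine ⟨vs ++ ws, ?_, ?_, ?_, ?_⟩
    · intro w hw
      rcases List.mem_append.mp hw with hw | hw
      · exact k1 w hw
      · exact h1 w hw
    · intro w hw
      rcases List.mem_append.mp hw with hw | hw
      · exact k2 w hw
      · exact h2 w hw
    · rw [List.flatten_append, c_append, k3, h3, map_add]
    · rw [List.length_append, nr_add, ← k4, ← h4]
      · push_cast; rfl
      · intro q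
        by_cases hq : q = p
        · subst hq
          have : A q = 0 := by simpa using hp
          rw [this, mul_zero]
        · rw [Finsupp.single_eq_of_ne hq, zero_mul]

theorem int_le (h0 : 0 ≤ D) (hD : ∀ g h : G, |φ (g * h) - φ g - φ h| ≤ D) (h1 : φ 1 = 0)
    (hinv : ∀ g : G, φ g⁻¹ = - φ g) (hconj : ∀ h g : G, φ (h * g * h⁻¹) = φ g)
    (A : G × G →₀ ℤ) :
    (bdZ A).sum (fun g n => (n : ℝ) * φ g) ≤ D / 2 * (nr A : ℝ) +
      3 / 2 * D * (nr (bdZ A) : ℝ) := by
  obtain ⟨ws, k1, k2, k3, k4⟩ := rep_all A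
  have hk := poly_le h0 hD h1 hinv hconj ws.length ws le_rfl k1
    (fun w hw => by rw [k2 w hw]; norm_num)
  rw [S_eq hinv, k3] at hk
  have hlen : ws.flatten.length = 3 * ws.length := by
    rw [List.length_flatten]
    have : ws.map List.length = List.replicate ws.length 3 := by
      rw [List.eq_replicate_iff]
      refine ⟨by simp, ?_⟩
      intro b hb
      rw [List.mem_map] at hb
      obtain ⟨w, hw, rfl⟩ := hb
      exact k2 w hw
    rw [this]
    simp [mul_comm]
  rw [hlen] at hk
  have h5 : (nr A : ℝ) = (ws.length : ℝ) := by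
    rw [← k4]; push_cast; rfl
  rw [h5]
  have h6 := (abs_le.mp hk).2
  push_cast at h6
  linarith

/-- the real `l^1` norm -/
noncomputable def N1 {X : Type} (f : X →₀ ℝ) : ℝ := f.sum fun _ t => |t|

theorem N1_eq {X : Type} (f : X →₀ ℝ) (s : Finset X) (hs : f.support ⊆ s) :
    N1 f = ∑ g ∈ s, |f g| := by
  unfold N1
  exact Finsupp.sum_of_support_subset f hs _ (by simp)

theorem N1_add {X : Type} (f h : X →₀ ℝ) : N1 (f + h) ≤ N1 f + N1 h := by
  classical
  rw [N1_eq (f + h) (f.support ∪ h.support) Finsupp.support_add,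
    N1_eq f (f.support ∪ h.support) Finset.subset_union_left,
    N1_eq h (f.support ∪ h.support) Finset.subset_union_right, ← Finset.sum_add_distrib]
  exact Finset.sum_le_sum fun g _ => by rw [Finsupp.add_apply]; exact abs_add_le _ _

theorem N1_smul {X : Type} (r : ℝ) (f : X →₀ ℝ) : N1 (r • f) = |r| * N1 f := by
  rw [N1_eq (r • f) f.support Finsupp.support_smul, N1_eq f f.support (Finset.Subset.refl _),
    Finset.mul_sum]
  exact Finset.sum_congr rfl fun g _ => by rw [Finsupp.smul_apply, smul_eq_mul, abs_mul]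

theorem N1_neg {X : Type} (f : X →₀ ℝ) : N1 (-f) = N1 f := by
  have := N1_smul (-1) f
  simpa using this

theorem N1_single {X : Type} (x : X) (a : ℝ) : N1 (Finsupp.single x a) = |a| := by
  simp [N1, Finsupp.sum_single_index]

theorem N1_nonneg {X : Type} (f : X →₀ ℝ) : 0 ≤ N1 f := by
  rw [N1_eq f f.support (Finset.Subset.refl _)]
  exact Finset.sum_nonneg fun _ _ => abs_nonneg _

/-- casting an integral chain to a real chain -/
noncomputable def toR {X : Type} (f : X →₀ ℤ) : X →₀ ℝ := f.mapRange (fun n : ℤ => (n : ℝ)) (by simp)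

theorem toR_add {X : Type} (f h : X →₀ ℤ) : toR (f + h) = toR f + toR h := by
  ext x; simp [toR]

theorem toR_zero {X : Type} : toR (0 : X →₀ ℤ) = 0 := by
  ext x; simp [toR]

theorem toR_single {X : Type} (x : X) (n : ℤ) : toR (Finsupp.single x n) = Finsupp.single x (n : ℝ) := by
  simp [toR]

theorem N1_toR {X : Type} (f : X →₀ ℤ) : N1 (toR f) = (nr f : ℝ) := by
  rw [N1_eq (toR f) f.support Finsupp.support_mapRange, nr_eq f f.support (Finset.Subset.refl _)]
  push_cast
  exact Finset.sum_congr rfl fun g _ => by simp [toR]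

theorem bd_toR (A : G × G →₀ ℤ) : bd (toR A) = toR (bdZ A) := by
  induction A using Finsupp.induction with
  | zero => simp [toR_zero]
  | single_add p b A hp hb ih =>
    rw [toR_add, map_add, map_add, toR_add, ih, toR_single, bd_single, bdZ_single]
    congr 1
    classical
    ext x
    simp only [toR, Finsupp.mapRange_apply, Finsupp.smul_apply, Finsupp.sub_apply,
      Finsupp.add_apply, Finsupp.single_apply, smul_eq_mul]
    push_cast
    rfl

/-- the linear functional on chains defined by `φ` -/
noncomputable def Lin (φ : G → ℝ) : (G →₀ ℝ) →ₗ[ℝ] ℝ := Finsupp.linearCombination ℝ φ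

theorem Lin_single (g : G) (t : ℝ) : Lin φ (Finsupp.single g t) = t * φ g := by
  simp [Lin]

theorem Lin_toR (f : G →₀ ℤ) : Lin φ (toR f) = f.sum fun g n => (n : ℝ) * φ g := by
  induction f using Finsupp.induction with
  | zero => simp [toR_zero]
  | single_add p b A hp hb ih =>
    rw [toR_add, map_add, ih, toR_single, Lin_single,
      Finsupp.sum_add_index' (by simp) (by intros; push_cast; ring),
      Finsupp.sum_single_index (by simp)]

theorem Lin_bd_single (p : G × G) (t : ℝ) :
    Lin φ (bd (Finsupp.single p t)) = t * (φ p.1 + φ p.2 - φ (p.1 * p.2)) := by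
  rw [bd_single, map_smul, map_sub, map_add, Lin_single, Lin_single, Lin_single]
  simp

theorem Lin_bd_le (hD : ∀ g h : G, |φ (g * h) - φ g - φ h| ≤ D) (h0 : 0 ≤ D)
    (A : G × G →₀ ℝ) : |Lin φ (bd A)| ≤ D * N1 A := by
  have h2 : Lin φ (bd A) = ∑ p ∈ A.support, Lin φ (bd (Finsupp.single p (A p))) := by
    conv_lhs => rw [← Finsupp.sum_single A]
    rw [Finsupp.sum, map_sum, map_sum]
  rw [h2, N1_eq A A.support (Finset.Subset.refl _), Finset.mul_sum]
  refine (Finset.abs_sum_le_sum_abs _ _).trans (Finset.sum_le_sum fun p _ => ?_)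
  rw [Lin_bd_single, abs_mul, mul_comm]
  refine mul_le_mul_of_nonneg_right ?_ (abs_nonneg _)
  have := hD p.1 p.2
  rw [abs_le] at this ⊢
  constructor <;> linarith [this.1, this.2]

theorem N1_bd_le (A : G × G →₀ ℝ) : N1 (bd A) ≤ 3 * N1 A := by
  induction A using Finsupp.induction with
  | zero => simp [N1]
  | single_add p b A hp hb ih =>
    have h1 : N1 (Finsupp.single p b + A) = |b| + N1 A := by
      classical
      unfold N1
      rw [Finsupp.sum_add_index_of_disjoint, Finsupp.sum_single_index (by simp)]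
      refine Disjoint.mono_left Finsupp.support_single_subset ?_
      simpa using hp
    have h2 : N1 (bd (Finsupp.single p b)) ≤ 3 * |b| := by
      rw [bd_single, N1_smul]
      have h3 : N1 (Finsupp.single p.1 (1 : ℝ) + Finsupp.single p.2 1 - Finsupp.single (p.1 * p.2) 1) ≤ 3 := by
        rw [sub_eq_add_neg]
        refine (N1_add _ _).trans ?_
        rw [N1_neg, N1_single]
        have := N1_add (Finsupp.single p.1 (1 : ℝ)) (Finsupp.single p.2 1)
        rw [N1_single, N1_single] at this
        rw [abs_one] at this ⊢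
        linarith
      have := mul_le_mul_of_nonneg_left h3 (abs_nonneg b)
      linarith
    rw [map_add, h1]
    have := N1_add (bd (Finsupp.single p b)) (bd A)
    linarith

theorem real_le (h0 : 0 ≤ D) (hD : ∀ g h : G, |φ (g * h) - φ g - φ h| ≤ D) (h1 : φ 1 = 0)
    (hinv : ∀ g : G, φ g⁻¹ = - φ g) (hconj : ∀ h g : G, φ (h * g * h⁻¹) = φ g)
    (A : G × G →₀ ℝ) :
    Lin φ (bd A) ≤ D / 2 * N1 A + 3 / 2 * D * N1 (bd A) := by
  by_contra hcon
  push Not at hcon
  set δ : ℝ := Lin φ (bd A) - (D / 2 * N1 A + 3 / 2 * D * N1 (bd A)) with hδ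
  have hδ0 : 0 < δ := by linarith
  set k : ℝ := (A.support.card : ℝ) with hk
  have hk0 : 0 ≤ k := by positivity
  obtain ⟨n, hn⟩ := exists_nat_gt ((D / 2 * k + 3 / 2 * D * (3 * k) + D * k) / δ)
  rw [div_lt_iff₀ hδ0] at hn
  set B : G × G →₀ ℤ := A.mapRange (fun t : ℝ => ⌊(n : ℝ) * t⌋) (by simp) with hB
  set R : G × G →₀ ℝ := (n : ℝ) • A - toR B with hR
  have hRk : N1 R ≤ k := by
    have hsub : R.support ⊆ A.support := by
      intro p hp
      rw [Finsupp.mem_support_iff] at hp ⊢
      intro h
      apply hp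
      simp [hR, hB, toR, h]
    rw [N1_eq R A.support hsub, hk, Finset.card_eq_sum_ones]
    push_cast
    refine Finset.sum_le_sum fun p _ => ?_
    have : R p = (n : ℝ) * A p - ⌊(n : ℝ) * A p⌋ := by
      simp [hR, hB, toR]
    rw [this, abs_le]
    have h3 := Int.floor_le ((n : ℝ) * A p)
    have h4 := Int.lt_floor_add_one ((n : ℝ) * A p)
    constructor <;> linarith
  have hnA : (n : ℝ) • A = toR B + R := by rw [hR]; abel
  have hBn : toR B = (n : ℝ) • A + (-R) := by rw [hnA]; abel
  have e1 : (n : ℝ) * Lin φ (bd A) = Lin φ (bd (toR B)) + Lin φ (bd R) := by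
    rw [← map_add, ← map_add, ← hnA, map_smul, map_smul, smul_eq_mul]
  have e2 : Lin φ (bd (toR B)) ≤ D / 2 * N1 (toR B) + 3 / 2 * D * N1 (bd (toR B)) := by
    rw [bd_toR, Lin_toR, N1_toR, N1_toR]
    exact int_le h0 hD h1 hinv hconj B
  have e3 : N1 (toR B) ≤ n * N1 A + k := by
    rw [hBn]
    refine (N1_add _ _).trans ?_
    rw [N1_smul, N1_neg, Nat.abs_cast]
    linarith
  have e4 : N1 (bd (toR B)) ≤ n * N1 (bd A) + 3 * k := by
    rw [hBn, map_add, map_smul]
    refine (N1_add _ _).trans ?_
    rw [N1_smul, Nat.abs_cast]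
    have := N1_bd_le (-R)
    rw [N1_neg] at this
    linarith
  have e5 : Lin φ (bd R) ≤ D * k := by
    have h5 := (abs_le.mp (Lin_bd_le hD h0 R)).2
    have h6 := mul_le_mul_of_nonneg_left hRk h0
    linarith
  have e6 := mul_le_mul_of_nonneg_left e3 (by linarith : 0 ≤ D / 2)
  have e7 := mul_le_mul_of_nonneg_left e4 (by linarith : 0 ≤ 3 / 2 * D)
  have e8 : (n : ℝ) * δ = n * Lin φ (bd A) - (D / 2 * (n * N1 A) + 3 / 2 * D * (n * N1 (bd A))) := by
    rw [hδ]; ring
  linarith

/-- General form, for every group: a homogeneous quasimorphism is at bounded distance from a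
function whose defect is at most half of the defect. -/
theorem general (h0 : 0 ≤ D) (hD : ∀ g h : G, |φ (g * h) - φ g - φ h| ≤ D)
    (hh : ∀ (g : G) (n : ℕ), φ (g ^ n) = (n : ℝ) * φ g) :
    ∃ ψ : G → ℝ, (∀ g : G, |ψ g - φ g| ≤ 3 / 2 * D) ∧
      ∀ g h : G, |ψ (g * h) - ψ g - ψ h| ≤ D / 2 := by
  have h1 := phi_one hh
  have hinv := phi_inv hD hh
  have hconj := phi_conj hD hh
  let W : Submodule ℝ ((G × G →₀ ℝ) × (G →₀ ℝ)) :=
    LinearMap.ker (bd.comp (LinearMap.fst ℝ (G × G →₀ ℝ) (G →₀ ℝ)) +
      LinearMap.snd ℝ (G × G →₀ ℝ) (G →₀ ℝ))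
  let f : ((G × G →₀ ℝ) × (G →₀ ℝ)) →ₗ.[ℝ] ℝ :=
    ⟨W, ((Lin φ).comp (bd.comp (LinearMap.fst ℝ (G × G →₀ ℝ) (G →₀ ℝ)))).domRestrict W⟩
  let N : ((G × G →₀ ℝ) × (G →₀ ℝ)) → ℝ := fun x => D / 2 * N1 x.1 + 3 / 2 * D * N1 x.2
  obtain ⟨F, hF1, hF2⟩ := exists_extension_of_le_sublinear f N
    (by
      intro r hr x
      simp only [N, Prod.smul_fst, Prod.smul_snd, N1_smul, abs_of_pos hr]
      ring)
    (by
      intro x y
      simp only [N, Prod.fst_add, Prod.snd_add]
      have := mul_le_mul_of_nonneg_left (N1_add x.1 y.1) (by linarith : 0 ≤ D / 2)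
      have := mul_le_mul_of_nonneg_left (N1_add x.2 y.2) (by linarith : 0 ≤ 3 / 2 * D)
      linarith)
    (by
      rintro ⟨⟨A, x⟩, hx⟩
      have hx' : bd A + x = 0 := by simpa [f, W] using hx
      have hx2 : x = - bd A := by
        rw [eq_neg_iff_add_eq_zero, add_comm]; exact hx'
      show Lin φ (bd A) ≤ D / 2 * N1 A + 3 / 2 * D * N1 x
      rw [hx2, N1_neg]
      exact real_le h0 hD h1 hinv hconj A)
  have hsplit : ∀ e : G × G →₀ ℝ, Lin φ (bd e) + F (0, bd e) = F (e, 0) := by
    intro e
    have hmem : (e, - bd e) ∈ W := by simp [W]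
    have h2 : F (e, - bd e) = Lin φ (bd e) := hF1 ⟨(e, - bd e), hmem⟩
    have h3 : ((e, 0) : (G × G →₀ ℝ) × (G →₀ ℝ)) = (e, - bd e) + (0, bd e) := by
      simp
    rw [h3, map_add, h2]
  refine ⟨fun g => φ g + F (0, Finsupp.single g 1), ?_, ?_⟩
  · intro g
    have h2 := hF2 (0, Finsupp.single g 1)
    have h3 := hF2 (-(0, Finsupp.single g 1))
    simp only [N, Prod.fst_neg, Prod.snd_neg, N1_neg, N1_single, map_neg] at h2 h3
    have h4 : N1 (0 : G × G →₀ ℝ) = 0 := by simp [N1]
    rw [h4] at h2 h3
    rw [abs_one] at h2 h3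
    rw [abs_le]
    constructor <;> linarith
  · intro g h
    have h2 := hF2 (Finsupp.single (g, h) 1, 0)
    have h3 := hF2 (-(Finsupp.single (g, h) 1, 0))
    simp only [N, Prod.fst_neg, Prod.snd_neg, N1_neg, N1_single, map_neg] at h2 h3
    have h4 : N1 (0 : G →₀ ℝ) = 0 := by simp [N1]
    rw [h4] at h2 h3
    rw [abs_one] at h2 h3
    have h5 := hsplit (Finsupp.single (g, h) 1)
    rw [Lin_bd_single] at h5
    have h6 : F (0, bd (Finsupp.single (g, h) 1)) =
        F (0, Finsupp.single g 1) + F (0, Finsupp.single h 1) - F (0, Finsupp.single (g * h) 1) := by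
      rw [← map_add, ← map_sub, bd_single]
      simp
    rw [h6] at h5
    simp only at h5
    rw [abs_le]
    constructor <;> linarith

end Chains

/-- For every free group and every homogeneous quasimorphism φ on it with defect D, there is a function ψ within bounded distance of φ whose defect is at most D/2, hence exactly D/2. -/
theorem result :
    ∀ (α : Type) (φ : FreeGroup α → ℝ) (D : ℝ),
      (∀ g h : FreeGroup α, |φ (g * h) - φ g - φ h| ≤ D) →
      (∀ D' : ℝ, (∀ g h : FreeGroup α, |φ (g * h) - φ g - φ h| ≤ D') → D ≤ D') →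
      (∀ (g : FreeGroup α) (n : ℕ), φ (g ^ n) = (n : ℝ) * φ g) →
      ∃ ψ : FreeGroup α → ℝ,
        (∃ C : ℝ, ∀ g : FreeGroup α, |ψ g - φ g| ≤ C) ∧
        ∀ g h : FreeGroup α, |ψ (g * h) - ψ g - ψ h| ≤ D / 2 := by
  intro α φ D hD _ hh
  have h0 : 0 ≤ D := (abs_nonneg _).trans (hD 1 1)
  obtain ⟨ψ, h1, h2⟩ := general h0 hD hh
  exact ⟨ψ, ⟨3 / 2 * D, h1⟩, h2⟩

end Pool.Agent.S01071
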