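import Pool.Statements.S01077
import Pool.Agent.Helper889.Nb.Final

set_option autoImplicit false
open Pool Pool.MP_688833_al

namespace Pool.Agent.S01077

/-- There is a finitely generated group of automorphisms of a spherically homogeneous rooted tree that is level-transitive and has finite-index rigid level stabilizers (a branch group), with no invariant finitely additive mean, and no subgroup isomorphic to the free group F2. -/
theorem result :
  ∃ m : ℕ → ℕ, (∀ i, 2 ≤ m i) ∧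
  ∃ G : Subgroup (Equiv.Perm ((i : ℕ) → Fin (m i))),
    Group.FG ↥G ∧
    (∀ g ∈ G, ∀ x y : (i : ℕ) → Fin (m i), ∀ n : ℕ,
        (∀ i < n, x i = y i) → ∀ i < n, g x i = g y i) ∧
    (∀ x y : (i : ℕ) → Fin (m i), ∀ n : ℕ, ∃ g ∈ G, ∀ i < n, g x i = y i) ∧
    (∀ n : ℕ, ((Subgroup.closure
        {g : Equiv.Perm ((i : ℕ) → Fin (m i)) | g ∈ G ∧
          ∃ v : (i : ℕ) → Fin (m i), ∀ x : (i : ℕ) → Fin (m i),
            (∃ i < n, x i ≠ v i) → g x = x}).subgroupOf G).index ≠ 0) ∧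
    (¬ ∃ μ : Set ↥G → ℝ, μ Set.univ = 1 ∧ (∀ A, 0 ≤ μ A) ∧
        (∀ A B : Set ↥G, Disjoint A B → μ (A ∪ B) = μ A + μ B) ∧
        ∀ (g : ↥G) (A : Set ↥G), μ ((fun x => g * x) '' A) = μ A) ∧
    ¬ ∃ f : FreeGroup (Fin 2) →* ↥G, Function.Injective f := by
  obtain ⟨m, hm, G, h1, h2, h3, h4, h5, h6⟩ := Pool.Agent.Helper889.Nb.branch
  refine ⟨m, hm, G, h1, h2, h3, fun n => ?_, h6, h5⟩
  obtain ⟨Z, hZ, hZ'⟩ := h4 n
  have hle : Z ≤ (Subgroup.closure {g : Equiv.Perm ((i : ℕ) → Fin (m i)) | g ∈ G ∧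
      ∃ v : (i : ℕ) → Fin (m i), ∀ x : (i : ℕ) → Fin (m i), (∃ i < n, x i ≠ v i) → g x = x}).subgroupOf G :=
    fun g hg => Subgroup.mem_subgroupOf.2 (hZ' g hg)
  exact (Subgroup.finiteIndex_of_le hle).index_ne_zero

end Pool.Agent.S01077
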