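import Pool.Statements.S01080
import Pool.Agent.Helper707.CFinal

set_option autoImplicit false
open Pool Pool.MP_689b4c_al

namespace Pool.Agent.S01080

/-- The negation of the preceding statement: Every finitely generated group with a normal abelian subgroup whose quotient is polycyclic has solvable conjugacy problem: deciding if two words in any finite generating set give conjugate elements is computable. -/
theorem result :
    ¬ (∀ (G : Type) [Group G] (A : Subgroup G) [A.Normal],
      (∀ x ∈ A, ∀ y ∈ A, x * y = y * x) →
      IsSolvable (G ⧸ A) →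
      (∀ H : Subgroup (G ⧸ A), H.FG) →
      ∀ (n : ℕ) (f : FreeGroup (Fin n) →* G), Function.Surjective f →
        ComputablePred (fun p : List (Fin n × Bool) × List (Fin n × Bool) =>
          IsConj (f (FreeGroup.mk p.1)) (f (FreeGroup.mk p.2)))) := by
  intro hall
  obtain ⟨K, P, hund⟩ := Helper707.CFinal.undecidable
  apply hund
  let G := (Helper707.CFinal.f0 K P).range
  let A : Subgroup G := Helper707.CFinal.Ab G
  haveI : A.Normal := MonoidHom.normal_ker _
  let j : G ⧸ A →* Helper707.CGrp.Hs (Fin (K + 1)) :=
    QuotientGroup.kerLift (Helper707.CGrp.pr.comp G.subtype)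
  have hj : Function.Injective j := QuotientGroup.kerLift_injective _
  refine hall G A (Helper707.CFinal.Ab_comm G) ?_ ?_ _ (Helper707.CFinal.f0 K P).rangeRestrict
    (Helper707.CFinal.f0 K P).rangeRestrict_surjective
  · haveI := Helper707.CGrp.solv (I := Fin (K + 1))
    exact Group.isSolvable_of_isSolvable_injective hj
  · intro H
    refine Helper707.CGrp.fg_ext j H (Helper707.CGrp.fg_Hs _) ?_
    rw [(MonoidHom.ker_eq_bot_iff j).2 hj, inf_bot_eq]
    exact ⟨∅, by simp⟩

end Pool.Agent.S01080
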