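import Pool.Statements.S01089
import Pool.Agent.Helper122.MainThm

set_option autoImplicit false
open Pool Pool.MP_6a23c2_al

namespace Pool.Agent.S01089

open Pool.Agent.Helper122

/-- Every element has a conjugate represented by a cyclically reduced word. -/
theorem exists_crdc {α : Type} (r : FreeGroup α) :
    ∃ R : List (α × Bool), CRdc R ∧ IsConj (FreeGroup.mk R) r := by
  classical
  have hex : ∃ n : ℕ, ∃ R : List (α × Bool), R.length = n ∧ IsConj (FreeGroup.mk R) r := by
    obtain ⟨L, hL⟩ := exists_mk r
    exact ⟨L.length, L, rfl, by rw [hL]⟩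
  obtain ⟨R, hlen, hR⟩ := Nat.find_spec hex
  refine ⟨R, ?_, hR⟩
  intro A B hAB A' B' x b hBA
  have h1 : IsConj (FreeGroup.mk (B ++ A) : FreeGroup α) (FreeGroup.mk R) := by
    rw [isConj_iff]
    refine ⟨FreeGroup.mk A, ?_⟩
    rw [hAB, ← FreeGroup.mul_mk, ← FreeGroup.mul_mk]
    group
  rw [hBA, mk_cancel] at h1
  have hlt : (A' ++ B').length < Nat.find hex := by
    rw [← hlen]
    have : R.length = (B ++ A).length := by rw [hAB]; simp [add_comm]
    rw [this, hBA]
    simp
  exact Nat.find_min hex hlt ⟨A' ++ B', rfl, h1.trans hR⟩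

theorem normalClosure_conj {G : Type} [Group G] {a b : G} (h : IsConj a b) :
    Subgroup.normalClosure ({a} : Set G) = Subgroup.normalClosure {b} := by
  have key : ∀ a b : G, IsConj a b → Subgroup.normalClosure ({a} : Set G) ≤
      Subgroup.normalClosure {b} := by
    intro a b h
    apply Subgroup.normalClosure_le_normal
    rw [Set.singleton_subset_iff]
    obtain ⟨c, hc⟩ := isConj_iff.1 h.symm
    rw [← hc]
    exact (Subgroup.normalClosure_normal (s := ({b} : Set G))).conj_mem b
      (Subgroup.subset_normalClosure rfl) c
  exact le_antisymm (key a b h) (key b a h.symm)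

/-- For every one-relator group ⟨X ∣ r⟩, every non-trivial finitely generated subgroup H differs from its derived subgroup [H,H], i.e. one-relator groups have no non-trivial finitely generated perfect subgroups. -/
theorem result :
    ∀ (α : Type) (r : FreeGroup α)
      (H : Subgroup (PresentedGroup ({r} : Set (FreeGroup α)))),
      H.FG → H ≠ ⊥ → ⁅H, H⁆ ≠ H := by
  intro α r H hfg hne hH
  apply hne
  obtain ⟨R, hR, hc⟩ := exists_crdc r
  have hsurj : Function.Surjective (PresentedGroup.mk ({r} : Set (FreeGroup α))) :=
    PresentedGroup.mk_surjective _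
  have hker : (PresentedGroup.mk ({r} : Set (FreeGroup α))).ker =
      Subgroup.normalClosure {FreeGroup.mk R} := by
    rw [normalClosure_conj hc]
    exact QuotientGroup.ker_mk' _
  by_cases hRn : R = []
  · subst hRn
    have hinj : Function.Injective (PresentedGroup.mk ({r} : Set (FreeGroup α))) := by
      rw [← MonoidHom.ker_eq_bot_iff, hker]
      rw [show (FreeGroup.mk ([] : List (α × Bool))) = 1 from rfl]
      rw [eq_bot_iff]
      apply Subgroup.normalClosure_le_normal
      simp
    have e := MulEquiv.ofBijective _ ⟨hinj, hsurj⟩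
    exact NoPerf.of_injective e.symm.toMonoidHom e.symm.injective (noPerf_free α) H hH
  · exact main_crdc R hR hRn _ hsurj hker H hfg hH

end Pool.Agent.S01089
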