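import Pool.Statements.S01093
import Pool.Agent.Helper816.KZero

set_option autoImplicit false
open Pool Pool.MP_6a591b_al

namespace Pool.Agent.S01093

/-- For every field K and numerical semigroup minimally generated by a0<…<an, each Betti number b_i (i≥1) of the tangent cone ring S/in*(I_Γ) over K[x0..xn] is at most i·C(an−a0+1, i+1). -/
theorem result :
    ∀ (K : Type) [Field K] (n : ℕ) (a : Fin (n + 1) → ℕ),
      StrictMono a → 0 < a 0 → Finset.univ.gcd a = 1 →
      (∀ j : Fin (n + 1), ¬ ∃ c : Fin (n + 1) → ℕ, c j = 0 ∧ ∑ l, c l * a l = a j) →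
      ∀ i : ℕ, 1 ≤ i →
        Module.length (MvPolynomial (Fin (n + 1)) K)
          (((CategoryTheory.Tor (ModuleCat.{0} (MvPolynomial (Fin (n + 1)) K)) i).obj
              (ModuleCat.of (MvPolynomial (Fin (n + 1)) K)
                (MvPolynomial (Fin (n + 1)) K ⧸
                  Ideal.span
                    {p : MvPolynomial (Fin (n + 1)) K |
                      (∃ u v : Fin (n + 1) →₀ ℕ,
                        ∑ l, u l = ∑ l, v l ∧ ∑ l, u l * a l = ∑ l, v l * a l ∧
                        p = MvPolynomial.monomial u 1 - MvPolynomial.monomial v 1) ∨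
                      (∃ u v : Fin (n + 1) →₀ ℕ,
                        ∑ l, u l < ∑ l, v l ∧ ∑ l, u l * a l = ∑ l, v l * a l ∧
                        p = MvPolynomial.monomial u 1)}))).obj
            (ModuleCat.of (MvPolynomial (Fin (n + 1)) K)
              (MvPolynomial (Fin (n + 1)) K ⧸
                Ideal.span (Set.range (MvPolynomial.X : Fin (n + 1) → MvPolynomial (Fin (n + 1)) K))))
            : Type)
          ≤ ((i * Nat.choose (a (Fin.last n) - a 0 + 1) (i + 1) : ℕ) : ℕ∞) := by
  intro K _ n a hg h0 _ hmin i hi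
  classical
  have hI : (Ideal.span
      {p : MvPolynomial (Fin (n + 1)) K |
        (∃ u v : Fin (n + 1) →₀ ℕ,
          ∑ l, u l = ∑ l, v l ∧ ∑ l, u l * a l = ∑ l, v l * a l ∧
          p = MvPolynomial.monomial u 1 - MvPolynomial.monomial v 1) ∨
        (∃ u v : Fin (n + 1) →₀ ℕ,
          ∑ l, u l < ∑ l, v l ∧ ∑ l, u l * a l = ∑ l, v l * a l ∧
          p = MvPolynomial.monomial u 1)}) = Pool.Agent.Helper816.KG.II K a := by
    unfold Pool.Agent.Helper816.KG.II
    congr 1
    have hw : ∀ v : Fin (n + 1) →₀ ℕ, Finsupp.weight a v = ∑ l, v l * a l := by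
      intro v
      have := Pool.Agent.Helper816.Toric.weight_fun a (fun i => v i)
      simpa [Pool.Agent.Helper816.Count.wt] using this
    ext p
    unfold Pool.Agent.Helper816.TCAlg.inGen
    simp only [Set.mem_ofPred_eq, hw, Pool.Agent.Helper816.TCFin.degree_fun]
  rw [hI]
  rcases Nat.eq_zero_or_pos n with hn | hn
  · subst hn
    exact (Pool.Agent.Helper816.KMain.tor_zero K a hg h0 i hi).trans zero_le
  · obtain ⟨c, rfl⟩ : ∃ c, n = c + 1 := ⟨n - 1, by omega⟩
    exact Pool.Agent.Helper816.KMain.tor_bound K a hg h0 hmin i hi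

end Pool.Agent.S01093
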