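import Pool.Statements.S01100
-- import your own Pool.Agent.* helpers here
import Pool.Agent.H440S.Defs
import Pool.Agent.H440S.P_vdata_exists
import Pool.Agent.H440S.P_edata
import Pool.Agent.H440S.P_gdata
import Pool.Agent.H440S.P_tdata
import Pool.Agent.H440S.P_serial
import Pool.Agent.H440S.P_final

set_option autoImplicit false
open Pool Pool.MP_6b1727_al

namespace Pool.Agent.S01100

/-- The negation of the preceding statement: Over any ring, if a module is an internal direct sum of uniserial submodules, then every nonzero indecomposable direct summand of it is uniserial: any two of its submodules are comparable by inclusion. -/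
theorem result :
    ¬ (∀ (R : Type) [Ring R] (M : Type) [AddCommGroup M] [Module R M],
      (∃ (ι : Type) (U : ι → Submodule R M),
          iSupIndep U ∧ (⨆ i, U i) = ⊤ ∧
          ∀ i, ∀ A B : Submodule R M, A ≤ U i → B ≤ U i → A ≤ B ∨ B ≤ A) →
      ∀ N : Submodule R M,
        (∃ N' : Submodule R M, IsCompl N N') →
        N ≠ ⊥ →
        (∀ A B : Submodule R M, A ⊔ B = N → A ⊓ B = ⊥ → A = ⊥ ∨ B = ⊥) →
        ∀ A B : Submodule R M, A ≤ N → B ≤ N → A ≤ B ∨ B ≤ A) := by
  intro H
  obtain ⟨D⟩ := Pool.Agent.H440S.vdata_exists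
  obtain ⟨E⟩ := Pool.Agent.H440S.edata D
  obtain ⟨G⟩ := Pool.Agent.H440S.gdata E
  obtain ⟨R, iR, mU, mV, ⟨T⟩⟩ := Pool.Agent.H440S.tdata G
  obtain ⟨N, N', hc, hne, hind, hnu⟩ := Pool.Agent.H440S.final T
  exact hnu (H R (ℕ →₀ (G.U × G.V)) (Pool.Agent.H440S.serial T.uU T.uV) N ⟨N', hc⟩ hne hind)

end Pool.Agent.S01100
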