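import Pool.Statements.S01102
import Pool.Agent.Helper218.LF3

set_option autoImplicit false
open Pool Pool.MP_6b3431_al
open Pool.Agent.Helper218.LF Pool.Agent.Helper218.PG

namespace Pool.Agent.S01102

/-- The negation of the preceding statement: If F is the smallest Hartley-local Fitting class containing a finite group G, F is soluble, F equals the Fitting product MH of Fitting classes M (nonempty) and H, and M differs from F, then H is a local Fitting class. -/
theorem result :
    ¬ (∀ (Fit : ((G : Type) → [Group G] → Prop) → Prop)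
    (Prod : ((G : Type) → [Group G] → Prop) → ((G : Type) → [Group G] → Prop) →
      (G : Type) → [Group G] → Prop)
    (Loc : ((G : Type) → [Group G] → Prop) → Prop),
  (∀ C : (G : Type) → [Group G] → Prop, Fit C ↔
      ((∀ (G K : Type) [Group G] [Group K], Nonempty (G ≃* K) → C G → C K) ∧
       (∀ (G : Type) [Group G] [Finite G] (N : Subgroup G), N.Normal → C G → C ↥N) ∧
       (∀ (G : Type) [Group G] [Finite G] (N K : Subgroup G),
          N.Normal → K.Normal → C ↥N → C ↥K → C ↥(N ⊔ K)))) →
  (∀ (C D : (G : Type) → [Group G] → Prop) (G : Type) [Group G], Prod C D G ↔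
      ∀ (N : Subgroup G) [N.Normal],
        (C ↥N ∧ ∀ K : Subgroup G, K.Normal → C ↥K → K ≤ N) → D (G ⧸ N)) →
  (∀ C : (G : Type) → [Group G] → Prop, Loc C ↔
      ∃ f : ℕ → ((G : Type) → [Group G] → Prop), (∀ p, Fit (f p)) ∧
        ∀ (G : Type) [Group G] [Finite G], C G ↔
          ((∀ p : ℕ, p.Prime → p ∣ Nat.card G →
              ∃ (K : Type) (_ : Group K) (_ : Finite K), f p K) ∧
           ∀ p : ℕ, p.Prime → (∃ (K : Type) (_ : Group K) (_ : Finite K), f p K) →
             Prod (f p)
               (fun (Q : Type) [Group Q] =>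
                 ∃ P : Subgroup Q, P.Normal ∧ IsPGroup p ↥P ∧ Nat.Coprime P.index p) G)) →
  ∀ (F M H : (G : Type) → [Group G] → Prop) (G₀ : Type) [Group G₀] [Finite G₀],
    Fit M → Fit H → (∃ (K : Type) (_ : Group K) (_ : Finite K), M K) →
    Loc F → F G₀ →
    (∀ C : (G : Type) → [Group G] → Prop, Loc C → C G₀ →
      ∀ (G : Type) [Group G] [Finite G], F G → C G) →
    (∀ (G : Type) [Group G] [Finite G], F G → IsSolvable G) →
    (∀ (G : Type) [Group G] [Finite G], F G ↔ Prod M H G) →
    (∃ (G : Type) (_ : Group G) (_ : Finite G), ¬ (M G ↔ F G)) →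
    Loc H) := by
  intro hall
  have hloc : LocP HC := hall FitP ProdP LocP (fun _ => Iff.rfl) (fun _ _ _ _ => Iff.rfl)
    (fun _ => Iff.rfl) FC MC HC S3 fit_MC fit_HC
    ⟨PUnit, inferInstance, inferInstance, fun _ => ⟨0, rfl⟩⟩ loc_FC ⟨_, S3_str⟩
    (fun C hC hS G _ _ hG => loc_contains hC hS S3_str (u := S3.u) rfl S3_gpow S3_comm
      (by rw [S3_card]; norm_num) (by rw [S3_card]; norm_num) G hG)
    (fun G _ _ hG => FC_solvable hG)
    (fun G _ _ => FC_iff_Prod G)
    ⟨S3, inferInstance, inferInstance, fun h => S3_not_MC (h.2 ⟨_, S3_str⟩)⟩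
  exact S3_not_HC (loc_contains hloc X3_HC X3_str (u := X3.u) rfl X3_gpow X3_comm
      (by rw [X3_card]; norm_num) (by rw [X3_card]; norm_num) S3 ⟨_, S3_str⟩)

end Pool.Agent.S01102
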