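import Pool.Statements.S01104
import Pool.Agent.DefZero.Kernel

set_option autoImplicit false
open Pool Pool.MP_6b47b1_al

namespace Pool.Agent.S01104

/-- The negation of the preceding statement: There is a number d such that every finite soluble group having a presentation with n generators and n relators (for some n) has derived length at most d. -/
theorem result :
    ¬ (∃ d : ℕ, ∀ (G : Type) [Group G] [Finite G],
      (∃ n : ℕ, ∃ r : Fin n → FreeGroup (Fin n),
          Nonempty (G ≃* PresentedGroup (Set.range r))) →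
        IsSolvable G → derivedSeries G d = ⊥) := by
  rintro ⟨d, hd⟩
  -- the parameters
  set k := 2 * 3 ^ d with hk
  have hk3 : 1 ≤ 3 ^ d := Nat.one_le_pow _ _ (by norm_num)
  have hk1 : 1 ≤ k := by omega
  have hdk : 3 ^ d < k := by omega
  obtain ⟨t, ht⟩ : ∃ t : ℕ, 8 * t + 1 = 3 ^ k := by
    have h1 : ∀ n : ℕ, ∃ t : ℕ, 8 * t + 1 = 3 ^ (2 * n) := by
      intro n
      induction n with
      | zero => exact ⟨0, by norm_num⟩
      | succ n ih =>
        obtain ⟨t, ht⟩ := ih
        refine ⟨9 * t + 1, ?_⟩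
        have : 3 ^ (2 * (n + 1)) = 9 * 3 ^ (2 * n) := by
          rw [Nat.mul_add, pow_add]; norm_num; ring
        rw [this, ← ht]; ring
    exact h1 _
  -- the presentation
  let X : FreeGroup (Fin 2) := FreeGroup.of 0
  let Y : FreeGroup (Fin 2) := FreeGroup.of 1
  let r : Fin 2 → FreeGroup (Fin 2) :=
    ![X * Y * X * (Y * X * Y)⁻¹,
      (Y ^ 4 * X ^ (4 * t + 1)) ^ 2 * X ^ (8 * t + 1) * ((X * Y * X) ^ 2)⁻¹]
  let a : PresentedGroup (Set.range r) := PresentedGroup.of 0
  let b : PresentedGroup (Set.range r) := PresentedGroup.of 1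
  have hgen : Subgroup.closure {a, b} = ⊤ := by
    have h1 := PresentedGroup.closure_range_of (Set.range r)
    have h2 : Set.range (PresentedGroup.of (rels := Set.range r)) = {a, b} := by
      ext x
      constructor
      · rintro ⟨i, rfl⟩
        fin_cases i
        · left; rfl
        · right; rfl
      · rintro (rfl | hx)
        · exact ⟨0, rfl⟩
        · rw [Set.mem_singleton_iff] at hx
          subst hx
          exact ⟨1, rfl⟩
    rw [h2] at h1
    exact h1
  have hr0 : PresentedGroup.mk (Set.range r) (r 0) = 1 :=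
    PresentedGroup.one_of_mem ⟨0, rfl⟩
  have hr1 : PresentedGroup.mk (Set.range r) (r 1) = 1 :=
    PresentedGroup.one_of_mem ⟨1, rfl⟩
  have hbr : a * b * a = b * a * b := by
    have h1 : PresentedGroup.mk (Set.range r) (r 0) = a * b * a * (b * a * b)⁻¹ := rfl
    rw [h1] at hr0
    exact mul_inv_eq_one.mp hr0
  have hrel : (b ^ 4 * a ^ (4 * t + 1)) ^ 2 * a ^ (8 * t + 1) = (a * b * a) ^ 2 := by
    have h1 : PresentedGroup.mk (Set.range r) (r 1) =
        (b ^ 4 * a ^ (4 * t + 1)) ^ 2 * a ^ (8 * t + 1) * ((a * b * a) ^ 2)⁻¹ := rfl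
    rw [h1] at hr1
    exact mul_inv_eq_one.mp hr1
  have hz : (8 * t + 1 : ZMod (3 ^ k)) = 0 := by
    have h1 : ((8 * t + 1 : ℕ) : ZMod (3 ^ k)) = 0 := by
      rw [ht]; exact ZMod.natCast_self _
    push_cast at h1
    exact h1
  -- the homomorphism
  let φ0 : Fin 2 → DefZero.SL2 (ZMod (3 ^ k)) := ![DefZero.e 1, DefZero.f (-1)]
  have hφ : ∀ w ∈ Set.range r, FreeGroup.lift φ0 w = 1 := by
    rintro w ⟨i, rfl⟩
    have hX : FreeGroup.lift φ0 X = DefZero.e 1 := by simp [X, φ0]
    have hY : FreeGroup.lift φ0 Y = DefZero.f (-1) := by simp [Y, φ0]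
    fin_cases i
    · change FreeGroup.lift φ0 (X * Y * X * (Y * X * Y)⁻¹) = 1
      simp only [map_mul, map_inv, hX, hY]
      rw [mul_inv_eq_one]
      exact DefZero.braid_img
    · change FreeGroup.lift φ0 ((Y ^ 4 * X ^ (4 * t + 1)) ^ 2 * X ^ (8 * t + 1) *
        ((X * Y * X) ^ 2)⁻¹) = 1
      simp only [map_mul, map_inv, map_pow, hX, hY]
      rw [mul_inv_eq_one]
      exact DefZero.rel_img hz
  let φ : PresentedGroup (Set.range r) →* DefZero.SL2 (ZMod (3 ^ k)) := PresentedGroup.toGroup hφ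
  have hφa : φ a = DefZero.e 1 := by
    change PresentedGroup.toGroup hφ (PresentedGroup.of 0) = _
    rw [PresentedGroup.toGroup.of]; rfl
  have hφb : φ b = DefZero.f (-1) := by
    change PresentedGroup.toGroup hφ (PresentedGroup.of 1) = _
    rw [PresentedGroup.toGroup.of]; rfl
  have hfin : Finite (PresentedGroup (Set.range r)) := DefZero.G_finite hgen hbr hrel hk1 ht
  have hsol : Group.IsSolvable (PresentedGroup (Set.range r)) :=
    DefZero.G_solvable hgen hbr hrel hk1 ht φ hφa hφb
  exact DefZero.G_derived φ hφa hφb d hdk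
    (hd (PresentedGroup (Set.range r)) ⟨2, r, ⟨MulEquiv.refl _⟩⟩ hsol)

end Pool.Agent.S01104
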