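import Pool.Statements.S01107
import Pool.Agent.Helper554.Schur.Final
-- import your own Pool.Agent.* helpers here

set_option autoImplicit false
open Classical
open Pool Pool.MP_6bd4d3_al

namespace Pool.Agent.S01107

/-- For every free group F of rank at least 2, the inverse limit of the quotients F/F^(n) by its derived series has uncountable second integral homology (Schur multiplier). -/
theorem result :
    ∀ (α : Type), Nontrivial α →
      ∀ H : Subgroup ((n : ℕ) → FreeGroup α ⧸ derivedSeries (FreeGroup α) n),
        (H : Set ((n : ℕ) → FreeGroup α ⧸ derivedSeries (FreeGroup α) n)) =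
          {x | ∀ n : ℕ, ∃ g : FreeGroup α,
              x (n + 1) = (g : FreeGroup α ⧸ derivedSeries (FreeGroup α) (n + 1)) ∧
              x n = (g : FreeGroup α ⧸ derivedSeries (FreeGroup α) n)} →
        ¬ Countable (groupHomology (Rep.trivial ℤ (↥H) ℤ) 2) := by
  intro α hα H hH
  exact Pool.Agent.Helper554.Schur.main α hα H hH

end Pool.Agent.S01107
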