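import Pool.Statements.S01120
import Pool.Agent.Helper904.GS.Final
-- import your own Pool.Agent.* helpers here

set_option autoImplicit false
open Pool Pool.MP_6cc228_al

namespace Pool.Agent.S01120

/-- The negation of the preceding statement: If G is a periodic group with an element t of order 2 whose centralizer is locally finite and has all Sylow 2-subgroups of order 2, then every finitely generated subgroup of G is finite. -/
theorem result :
    ¬ (∀ (G : Type) [Group G], Monoid.IsTorsion G →
      ∀ t : G, orderOf t = 2 →
        (∀ s : Set G, s.Finite → s ⊆ (Subgroup.centralizer ({t} : Set G) : Set G) →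
            ((Subgroup.closure s : Subgroup G) : Set G).Finite) →
        (∀ P : Sylow 2 (Subgroup.centralizer ({t} : Set G)),
            Nat.card (P : Subgroup (Subgroup.centralizer ({t} : Set G))) = 2) →
        ∀ s : Set G, s.Finite → ((Subgroup.closure s : Subgroup G) : Set G).Finite) := by
  intro h
  obtain ⟨G, inst, σ, F, H⟩ := Pool.Agent.Helper904.GS.exists_group
  refine H.not_locfin (fun s hs => ?_)
  refine (h G ?_ σ H.order_σ ?_ ?_ s hs).to_subtype
  · intro g
    rw [isOfFinOrder_iff_pow_eq_one]
    exact H.tor g
  · intro s hs hsub
    have := H.cen s hs (fun y hy => by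
      have := Subgroup.mem_centralizer_singleton_iff.1 (hsub hy)
      exact this.symm)
    exact Set.toFinite _
  · exact fun P => H.sylow_card _ rfl P

end Pool.Agent.S01120
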