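import Pool.Statements.S01121
import Pool.Agent.Helper211.LeavittMod

set_option autoImplicit false
open Pool Pool.MP_6d5e8e_al

namespace Pool.Agent.S01121

/-- There is a finitely generated group whose second derived subgroup is trivial, together with a nonzero module over its integral group ring that is generated by one element and is isomorphic, as a module, to its own direct sum with itself. -/
theorem result :
    ∃ (G : Type) (_ : Group G), Group.FG G ∧ derivedSeries G 2 = ⊥ ∧
      ∃ (V : Type) (_ : AddCommGroup V) (_ : Module (MonoidAlgebra ℤ G) V),
        Nontrivial V ∧
        (∃ v : V, Submodule.span (MonoidAlgebra ℤ G) {v} = ⊤) ∧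
        Nonempty (V ≃ₗ[MonoidAlgebra ℤ G] (V × V)) := by
  exact Pool.Agent.Helper211.LeavittMod.final

end Pool.Agent.S01121
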