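import Pool.Statements.S01128
import Pool.Agent.Helper60.BinLie2

set_option autoImplicit false
open Pool Pool.MP_6e2f2f_al

namespace Pool.Agent.S01128

/-- The negation of the preceding statement: For every finite nonassociative ring in which any two elements generate a Lie subring, there is a finite set of integer polynomial identities holding in it from which all its identities follow. -/
theorem result :
    ¬ (∀ (R : Type) [NonUnitalNonAssocRing R] [Finite R],
      (∀ a b : R,
        ∀ x ∈ NonUnitalSubring.closure ({a, b} : Set R),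
        ∀ y ∈ NonUnitalSubring.closure ({a, b} : Set R),
        ∀ z ∈ NonUnitalSubring.closure ({a, b} : Set R),
          x * x = 0 ∧ (x * y) * z + (y * z) * x + (z * x) * y = 0) →
      ∃ S : Finset (FreeMagma ℕ →₀ ℤ),
        (∀ s ∈ S, ∀ f : ℕ → R,
            Finsupp.sum s (fun m c => c • FreeMagma.lift f m) = 0) ∧
        ∀ p : FreeMagma ℕ →₀ ℤ,
          (∀ f : ℕ → R, Finsupp.sum p (fun m c => c • FreeMagma.lift f m) = 0) →
          ∀ (A : Type) [NonUnitalNonAssocRing A],
            (∀ s ∈ S, ∀ g : ℕ → A,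
                Finsupp.sum s (fun m c => c • FreeMagma.lift g m) = 0) →
            ∀ g : ℕ → A, Finsupp.sum p (fun m c => c • FreeMagma.lift g m) = 0) := by
  intro H
  obtain ⟨S, hS, hall⟩ := H Pool.Agent.Helper60.BinLie.GG (fun a b x hx y hy z hz =>
    ⟨Pool.Agent.Helper60.BinLie.sq_zero x,
      Pool.Agent.Helper60.BinLie.jacobi (Pool.Agent.Helper60.BinLie.InS.of_closure hx)
        (Pool.Agent.Helper60.BinLie.InS.of_closure hy)
        (Pool.Agent.Helper60.BinLie.InS.of_closure hz)⟩)
  obtain ⟨n, hn⟩ : ∃ n : ℕ, ∀ s ∈ S, ∀ m ∈ s.support,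
      Pool.Agent.Helper60.BinLie.mbound m ≤ n := by
    refine ⟨S.sup (fun s => s.support.sup Pool.Agent.Helper60.BinLie.mbound), ?_⟩
    intro s hs m hm
    exact le_trans (Finset.le_sup (f := Pool.Agent.Helper60.BinLie.mbound) hm)
      (Finset.le_sup (f := fun s : FreeMagma ℕ →₀ ℤ =>
        s.support.sup Pool.Agent.Helper60.BinLie.mbound) hs)
  obtain ⟨a, ha⟩ := Pool.Agent.Helper60.BinLie.poly_fails (4 * n + 1)
  apply ha
  exact hall (Pool.Agent.Helper60.BinLie.poly (4 * n + 1))
    (Pool.Agent.Helper60.BinLie.poly_identity (4 * n + 1))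
    (Pool.Agent.Helper60.BinLie.HH (4 * n + 1))
    (fun s hs g => Pool.Agent.Helper60.BinLie.model_holds n (4 * n + 1) (Nat.lt_succ_self _) s
      (hn s hs) (hS s hs) g) a

end Pool.Agent.S01128
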