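import Pool.Statements.S01138
import Pool.Agent.Helper730.WmnFinal

set_option autoImplicit false
open Pool Pool.MP_6f2ea1_al

namespace Pool.Agent.S01138

/-- The negation of the preceding statement: Every soluble torsion-free group in which each descending chain of normal subgroups has only finitely many infinite indices has a finite subnormal series whose factors each satisfy the maximal or the minimal condition on subgroups, i.e. is minimax. -/
theorem result :
    ¬ (∀ (G : Type) [Group G], IsSolvable G →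
      (∀ g : G, ∀ n : ℕ, 0 < n → g ^ n = 1 → g = 1) →
      (∀ N : ℕ → Subgroup G, (∀ k, (N k).Normal) → Antitone N →
          ∃ m : ℕ, ∀ k : ℕ, m ≤ k → ((N (k + 1)).subgroupOf (N k)).index ≠ 0) →
      ∃ (n : ℕ) (H : ℕ → Subgroup G), H 0 = ⊥ ∧ H n = ⊤ ∧
        ∀ i : ℕ, i < n →
          (H i ≤ H (i + 1) ∧ ((H i).subgroupOf (H (i + 1))).Normal ∧
            ((∀ f : ℕ → Subgroup G, (∀ k, H i ≤ f k ∧ f k ≤ H (i + 1)) → Monotone f →
                ∃ m : ℕ, ∀ k : ℕ, m ≤ k → f k = f m) ∨
             (∀ f : ℕ → Subgroup G, (∀ k, H i ≤ f k ∧ f k ≤ H (i + 1)) → Antitone f →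
                ∃ m : ℕ, ∀ k : ℕ, m ≤ k → f k = f m)))) := by
  exact Pool.Agent.Helper730.WMN.main

end Pool.Agent.S01138
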