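import Pool.Statements.S01142
-- import your own Pool.Agent.* helpers here

set_option autoImplicit false
open Pool Pool.MP_6f8178_al

namespace Pool.Agent.S01142

open Polynomial

noncomputable section

/-- The big field `F_3(t)`. -/
abbrev K : Type := RatFunc (ZMod 3)

/-- The ground field `F_3(t^3)`, that is the subfield of cubes in `F_3(t)`. It is imperfect. -/
abbrev k : Subfield K := (frobenius K 3).fieldRange

/-- The abelian restricted Lie algebra: polynomials over `F_3(t)` in `z` with zero constant term,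
seen as a vector space over `F_3(t^3)`, with `p`-map the cube. -/
def L : Submodule k K[X] where
  carrier := {f | f.coeff 0 = 0}
  add_mem' := by
    intro a b ha hb
    simp only [Set.mem_ofPred_eq] at *
    simp [ha, hb]
  zero_mem' := by simp
  smul_mem' := by
    intro c x hx
    simp only [Set.mem_ofPred_eq] at *
    simp [hx]

instance instLieRing : LieRing L where
  bracket _ _ := 0
  add_lie := by intros; simp
  lie_add := by intros; simp
  lie_self := by intros; rfl
  leibniz_lie := by intros; simp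

instance instLieAlgebra : LieAlgebra k L where
  lie_smul := by
    intro t x y
    show (0 : L) = t • (0 : L)
    simp

theorem lie_eq_zero (x y : L) : ⁅x, y⁆ = 0 := rfl

theorem mem_L {f : K[X]} : f ∈ L ↔ f.coeff 0 = 0 := Iff.rfl

/-- the `p`-map, the cube. -/
def pmap (f : L) : L := ⟨(f : K[X]) ^ 3, by
  have := f.2
  show ((f : K[X]) ^ 3).coeff 0 = 0
  have h : (f : K[X]).coeff 0 = 0 := this
  rw [coeff_zero_eq_eval_zero] at h ⊢
  simp [h]⟩

theorem pmap_coe (f : L) : ((pmap f : L) : K[X]) = (f : K[X]) ^ 3 := rfl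

theorem pmap_iter_coe (n : ℕ) (f : L) : ((pmap^[n] f : L) : K[X]) = (f : K[X]) ^ (3 ^ n) := by
  induction n with
  | zero => simp
  | succ n ih =>
    rw [Function.iterate_succ_apply', pmap_coe, ih, ← pow_mul, ← pow_succ]

theorem X_not_cube : (RatFunc.X : K) ∉ k := by
  rintro ⟨r, hr⟩
  rw [frobenius_def] at hr
  have hr0 : r ≠ 0 := by
    rintro rfl
    rw [zero_pow (by norm_num)] at hr
    exact RatFunc.X_ne_zero hr.symm
  have h1 : RatFunc.intDegree (r ^ 3) = 3 * RatFunc.intDegree r := by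
    rw [pow_succ, pow_succ, pow_one, RatFunc.intDegree_mul (mul_ne_zero hr0 hr0) hr0,
      RatFunc.intDegree_mul hr0 hr0]
    ring
  rw [hr, RatFunc.intDegree_X] at h1
  omega

/-- no nonzero element of `L` is algebraic -/
theorem lin_indep (x : L) (hx : x ≠ 0) : LinearIndependent k (fun n : ℕ => pmap^[n] x) := by
  -- over `K`, the powers `x^(3^n)` are independent
  have hx' : (x : K[X]) ≠ 0 := by
    intro h; exact hx (Subtype.ext h)
  have h0 : (x : K[X]).coeff 0 = 0 := x.2
  have h1 : LinearIndependent K (fun n : ℕ => (X : K[X]) ^ (3 ^ n)) := by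
    have hb := (Polynomial.basisMonomials K).linearIndependent
    have hb2 := hb.comp (fun n : ℕ => 3 ^ n) (Nat.pow_right_injective (le_refl 2 |>.trans (by norm_num)))
    have : (fun n : ℕ => (X : K[X]) ^ (3 ^ n)) = (⇑(Polynomial.basisMonomials K)) ∘ (fun n : ℕ => 3 ^ n) := by
      funext n
      simp [Polynomial.X_pow_eq_monomial]
    rw [this]
    exact hb2
  have h2 : LinearIndependent K (fun n : ℕ => (x : K[X]) ^ (3 ^ n)) := by
    have hinj : Function.Injective (Polynomial.aeval (x : K[X]) : K[X] →ₐ[K] K[X]).toLinearMap := by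
      rw [injective_iff_map_eq_zero]
      intro f hf
      have hf' : f.comp (x : K[X]) = 0 := by
        simpa [Polynomial.comp, Polynomial.aeval_def] using hf
      rcases Polynomial.comp_eq_zero_iff.1 hf' with h | ⟨_, h⟩
      · exact h
      · exfalso
        rw [h0] at h
        apply hx'
        simpa using h
    have h3 := h1.map' (Polynomial.aeval (x : K[X]) : K[X] →ₐ[K] K[X]).toLinearMap (LinearMap.ker_eq_bot.2 hinj)
    have : (fun n : ℕ => (x : K[X]) ^ (3 ^ n)) = (⇑(Polynomial.aeval (x : K[X]) : K[X] →ₐ[K] K[X]).toLinearMap) ∘ (fun n : ℕ => (X : K[X]) ^ (3 ^ n)) := by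
      funext n
      simp
    rw [this]
    exact h3
  have h3 : LinearIndependent k (fun n : ℕ => (x : K[X]) ^ (3 ^ n)) :=
    h2.restrict_scalars (by
      intro a b hab
      simpa [Subfield.smul_def] using hab)
  have h4 : (fun n : ℕ => (x : K[X]) ^ (3 ^ n)) = (⇑L.subtype) ∘ (fun n : ℕ => pmap^[n] x) := by
    funext n
    simp [pmap_iter_coe]
  rw [h4] at h3
  exact h3.of_comp _

attribute [local instance 100] LieRing.ofAssociativeRing

/-- The defining relation of the restricted enveloping algebra of `L`. -/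
abbrev rel : UniversalEnvelopingAlgebra k L → UniversalEnvelopingAlgebra k L → Prop :=
  fun a b => ∃ x : L, a = (UniversalEnvelopingAlgebra.ι k x) ^ 3 ∧
          b = UniversalEnvelopingAlgebra.ι k (pmap x)

abbrev u : Type := RingQuot rel

/-- the canonical map `L → u(L)` -/
def j : L →ₗ[k] u where
  toFun x := RingQuot.mkAlgHom k rel (UniversalEnvelopingAlgebra.ι k x)
  map_add' := by intros; simp
  map_smul' := by intros; simp

theorem j_apply (x : L) : j x = RingQuot.mkAlgHom k rel (UniversalEnvelopingAlgebra.ι k x) := rfl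

theorem j_comm (x y : L) : j x * j y = j y * j x := by
  have h : UniversalEnvelopingAlgebra.ι k x * UniversalEnvelopingAlgebra.ι k y
      = UniversalEnvelopingAlgebra.ι k y * UniversalEnvelopingAlgebra.ι k x := by
    have h1 := LieHom.map_lie (UniversalEnvelopingAlgebra.ι k (L := L)) x y
    rw [lie_eq_zero, map_zero, LieRing.of_associative_ring_bracket] at h1
    exact (sub_eq_zero.1 h1.symm)
  rw [j_apply, j_apply, ← map_mul (RingQuot.mkAlgHom k rel), h, map_mul (RingQuot.mkAlgHom k rel)]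

theorem j_pow (x : L) : (j x) ^ 3 = j (pmap x) := by
  have h : RingQuot.mkAlgHom k rel ((UniversalEnvelopingAlgebra.ι k x) ^ 3)
      = RingQuot.mkAlgHom k rel (UniversalEnvelopingAlgebra.ι k (pmap x)) :=
    RingQuot.mkAlgHom_rel k ⟨x, rfl, rfl⟩
  rw [map_pow] at h
  exact h

/-- the three generators `t z`, `t^2 z`, `z` -/
def a1 : L := ⟨C (RatFunc.X : K) * X, by simp [mem_L]⟩
def a2 : L := ⟨C ((RatFunc.X : K) ^ 2) * X, by simp [mem_L]⟩
def a0 : L := ⟨X, by simp [mem_L]⟩

/-- the scalar `t^3` in the ground field -/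
def c3 : k := ⟨(RatFunc.X : K) ^ 3, ⟨RatFunc.X, by simp [frobenius_def]⟩⟩

theorem pmap_a1 : pmap a1 = c3 • pmap a0 := by
  apply Subtype.ext
  rw [pmap_coe, Submodule.coe_smul, pmap_coe]
  show (C (RatFunc.X : K) * X) ^ 3 = c3 • (X : K[X]) ^ 3
  rw [mul_pow, ← C_pow, Subfield.smul_def, smul_eq_C_mul]
  rfl

theorem pmap_a2 : pmap a2 = (c3 ^ 2) • pmap a0 := by
  apply Subtype.ext
  rw [pmap_coe, Submodule.coe_smul, pmap_coe]
  show (C ((RatFunc.X : K) ^ 2) * X) ^ 3 = (c3 ^ 2) • (X : K[X]) ^ 3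
  rw [mul_pow, ← C_pow, Subfield.smul_def, smul_eq_C_mul]
  congr 2
  show ((RatFunc.X : K) ^ 2) ^ 3 = ((RatFunc.X : K) ^ 3) ^ 2
  ring

theorem three_eq_zero : (3 : u) = 0 := by
  have h : (3 : k) = 0 := by
    apply Subtype.ext
    show (3 : K) = 0
    exact CharP.cast_eq_zero K 3
  have h2 : (3 : u) = algebraMap k u 3 := (map_ofNat (algebraMap k u) 3).symm
  rw [h2, h, map_zero]

/-- the nilpotent element -/
def w : u := j a1 ^ 2 - j a2 * j a0

theorem w_pow : w ^ 3 = 0 := by
  have c12 : j a1 * j a2 = j a2 * j a1 := j_comm _ _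
  have c10 : j a1 * j a0 = j a0 * j a1 := j_comm _ _
  have c20 : j a2 * j a0 = j a0 * j a2 := j_comm _ _
  have hP : Commute (j a1 ^ 2) (j a2 * j a0) :=
    ((Commute.mul_right (show Commute (j a1) (j a2) from c12) (show Commute (j a1) (j a0) from c10))).pow_left 2
  have h1 : w ^ 3 = (j a1 ^ 2) ^ 3 - (j a2 * j a0) ^ 3 
      - 3 * ((j a1 ^ 2) ^ 2 * (j a2 * j a0) - (j a1 ^ 2) * (j a2 * j a0) ^ 2) := by
    have h := hP.eq
    unfold w
    generalize j a1 ^ 2 = P at h ⊢
    generalize j a2 * j a0 = Q at h ⊢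
    have e1 : (P - Q) ^ 3 = P ^ 3 - Q ^ 3 - (P * P * Q + P * (Q * P) + (Q * P) * P)
       + (P * Q * Q + (Q * P) * Q + Q * (Q * P)) := by noncomm_ring
    rw [e1, ← h]
    have e2 : Q * (P * Q) = P * Q * Q := by rw [← mul_assoc, ← h]
    have e3 : P * Q * P = P * P * Q := by rw [mul_assoc, ← h, mul_assoc]
    rw [e2, e3]
    noncomm_ring
  rw [h1, three_eq_zero, zero_mul, sub_zero]
  have h2 : (j a2 * j a0) ^ 3 = j a2 ^ 3 * j a0 ^ 3 := (show Commute (j a2) (j a0) from c20).mul_pow 3
  have h3 : (j a1 ^ 2) ^ 3 = (j a1 ^ 3) ^ 2 := by rw [← pow_mul, ← pow_mul]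
  rw [h2, h3, j_pow, j_pow, j_pow, pmap_a1, pmap_a2, map_smul, map_smul]
  rw [_root_.smul_pow, smul_mul_assoc, pow_two (j (pmap a0)), sub_self]

/-- a test homomorphism `u(L) → M_3(k)` -/
def N : Matrix (Fin 3) (Fin 3) k := !![0, 1, 0; 0, 0, 1; 0, 0, 0]

theorem N_cube : N ^ 3 = 0 := by
  ext i j
  fin_cases i <;> fin_cases j <;> simp [N, pow_succ, Matrix.mul_apply, Fin.sum_univ_three]

theorem N_sq : N ^ 2 ≠ 0 := by
  intro h
  have := congrFun (congrFun h 0) 2
  simp [N, pow_succ, Matrix.mul_apply, Fin.sum_univ_three] at this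

theorem exists_functional : ∃ g : K →ₗ[k] k, g 1 = 0 ∧ g RatFunc.X = 1 := by
  have h : (RatFunc.X : K) ∉ Submodule.span k {(1 : K)} := by
    intro h
    obtain ⟨c, hc⟩ := Submodule.mem_span_singleton.1 h
    apply X_not_cube
    rw [← hc, Subfield.smul_def, smul_eq_mul, mul_one]
    exact c.2
  obtain ⟨f, hf1, hf2⟩ := Submodule.exists_le_ker_of_notMem h
  refine ⟨(f RatFunc.X)⁻¹ • f, ?_, ?_⟩
  · have : f 1 = 0 := hf2 (Submodule.mem_span_singleton_self 1)
    simp [this]
  · simp [inv_mul_cancel₀ hf1]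

/-- the restricted map `L → M_3(k)`, `x ↦ g(coefficient of z in x) • N` -/
def toMat (g : K →ₗ[k] k) : L →ₗ⁅k⁆ Matrix (Fin 3) (Fin 3) k where
  toFun x := g ((x : K[X]).coeff 1) • N
  map_add' x y := by simp [add_smul]
  map_smul' c x := by simp [mul_smul]
  map_lie' := by
    intro x y
    rw [lie_eq_zero, LieRing.of_associative_ring_bracket]
    simp [smul_smul, mul_comm]

theorem toMat_apply (g : K →ₗ[k] k) (x : L) : toMat g x = g ((x : K[X]).coeff 1) • N := rfl

theorem coeff_cube (f : K[X]) (h : f.coeff 0 = 0) : (f ^ 3).coeff 1 = 0 := by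
  obtain ⟨q, rfl⟩ := Polynomial.X_dvd_iff.2 h
  rw [mul_pow, show (X : K[X]) ^ 3 * q ^ 3 = (X * (X * q ^ 3)) * X by ring, coeff_mul_X,
    mul_coeff_zero, coeff_X_zero, zero_mul]

theorem w_ne : w ≠ 0 := by
  obtain ⟨g, hg1, hgX⟩ := exists_functional
  let φ : UniversalEnvelopingAlgebra k L →ₐ[k] Matrix (Fin 3) (Fin 3) k :=
    UniversalEnvelopingAlgebra.lift k (toMat g)
  have hφ : ∀ x : L, φ (UniversalEnvelopingAlgebra.ι k x) = g ((x : K[X]).coeff 1) • N := by
    intro x
    exact UniversalEnvelopingAlgebra.lift_ι_apply k (toMat g) x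
  have hrel : ∀ ⦃a b : UniversalEnvelopingAlgebra k L⦄, rel a b → φ a = φ b := by
    rintro a b ⟨x, rfl, rfl⟩
    rw [map_pow, hφ, hφ, _root_.smul_pow, N_cube, smul_zero, pmap_coe, coeff_cube _ x.2, map_zero,
      zero_smul]
  let ψ : u →ₐ[k] Matrix (Fin 3) (Fin 3) k := RingQuot.liftAlgHom k ⟨φ, hrel⟩
  have hψ : ∀ x : L, ψ (j x) = g ((x : K[X]).coeff 1) • N := by
    intro x
    rw [j_apply]
    exact (RingQuot.liftAlgHom_mkAlgHom_apply k φ hrel _).trans (hφ x)
  intro hw
  have h1 : ψ w = 0 := by rw [hw, map_zero]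
  unfold w at h1
  rw [map_sub, map_pow, map_mul, hψ, hψ, hψ] at h1
  have e1 : ((a1 : L) : K[X]).coeff 1 = RatFunc.X := by simp [a1]
  have e0 : ((a0 : L) : K[X]).coeff 1 = 1 := by simp [a0]
  rw [e1, e0, hg1, hgX, zero_smul, mul_zero, sub_zero, one_smul] at h1
  exact N_sq h1

/-- The negation of the preceding statement: For a restricted Lie algebra L over a field of characteristic p where no nonzero element has linearly dependent iterates x, x^[p], x^[p²], …, the restricted enveloping algebra U(L)/(x^p − x^[p]) has no zero divisors. -/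
theorem result :
    ¬ (∀ (p : ℕ) [Fact p.Prime] (k : Type) [Field k] [CharP k p]
      (L : Type) [LieRing L] [LieAlgebra k L] (pmap : L → L),
      (∃ (A : Type) (_ : Ring A) (_ : Algebra k A) (f : L →ₗ[k] A),
          Function.Injective f ∧
          (∀ x y : L, f ⁅x, y⁆ = f x * f y - f y * f x) ∧
          ∀ x : L, f (pmap x) = (f x) ^ p) →
      (∀ x : L, x ≠ 0 → LinearIndependent k (fun n : ℕ => pmap^[n] x)) →
      NoZeroDivisors (RingQuot (fun a b : UniversalEnvelopingAlgebra k L =>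
        ∃ x : L, a = (UniversalEnvelopingAlgebra.ι k x) ^ p ∧
          b = UniversalEnvelopingAlgebra.ι k (pmap x)))) := by
  intro H
  have hchar : CharP k 3 := (Subfield.subtype k).charP (Subfield.subtype k).injective 3
  have h : NoZeroDivisors u := by
    refine @H 3 _ k _ hchar L _ _ pmap ⟨K[X], inferInstance, inferInstance, L.subtype,
      Subtype.val_injective, ?_, ?_⟩ lin_indep
    · intro x y
      rw [lie_eq_zero, map_zero, mul_comm, sub_self]
    · intro x
      rfl
  exact w_ne (pow_eq_zero_iff (by norm_num) |>.1 w_pow)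

end

end Pool.Agent.S01142
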