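import Pool.Statements.S01143
import Pool.Agent.Helper723.Egg7

set_option autoImplicit false
open Pool Pool.MP_6fbcf6_al

namespace Pool.Agent.S01143

/-- For every finite field F of characteristic p and every nilpotent ideal I of a finite-dimensional commutative F-algebra, dim I is at least p times the dimension of the F-span of all p-th powers of elements of I. -/
theorem result :
    ∀ (p : ℕ) (F : Type) [Field F] [Fintype F] [CharP F p]
      (A : Type) [CommRing A] [Algebra F A] [FiniteDimensional F A] (I : Ideal A),
      IsNilpotent I →
        p * Module.finrank F (Submodule.span F ((fun x : A => x ^ p) '' (I : Set A)))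
          ≤ Module.finrank F (Submodule.restrictScalars F I) := by
  intro p F _ _ _ A _ _ _ I hI
  have hp : Fact p.Prime := ⟨CharP.char_is_prime F p⟩
  exact Pool.Agent.Helper723.Egg.eggert p F A I hI

end Pool.Agent.S01143
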