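import Pool.Statements.S01150

set_option autoImplicit false
open Pool Pool.MP_702bfb_al

namespace Pool.Agent.S01150

open MvPolynomial

/-- The polynomial ring in countably many variables over the field with two elements. -/
abbrev P := MvPolynomial ℕ (ZMod 2)

/-- The ideal generated by the squares of the variables. -/
noncomputable def I : Ideal P := Ideal.span (Set.range fun i : ℕ => (X i : P) ^ 2)

/-- The commutative ring with generators `y i`, squares of generators being zero. -/
abbrev S := P ⧸ I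

lemma two_S : (2 : S) = 0 := by
  have h : (2 : P) = 0 := CharTwo.two_eq_zero
  have h2 : (Ideal.Quotient.mk I) (2 : P) = 0 := by rw [h, map_zero]
  have h3 : (Ideal.Quotient.mk I) (2 : P) = (2 : S) := map_ofNat _ 2
  rw [← h3, h2]

lemma D_mem (D : Derivation (ZMod 2) P P) {f : P} (hf : f ∈ I) : D f ∈ I := by
  unfold I at hf
  refine Submodule.span_induction ?_ ?_ ?_ ?_ hf
  · rintro _ ⟨i, rfl⟩
    simp only [pow_two, Derivation.leibniz, smul_eq_mul]
    rw [← two_mul]
    have : (2 : P) = 0 := CharTwo.two_eq_zero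
    rw [this, zero_mul]
    exact I.zero_mem
  · rw [map_zero]; exact I.zero_mem
  · intro x y _ _ hx hy
    rw [map_add]; exact I.add_mem hx hy
  · intro a x hx' hx
    rw [smul_eq_mul, Derivation.leibniz, smul_eq_mul, smul_eq_mul]
    exact I.add_mem (I.mul_mem_left _ hx) (I.mul_mem_right _ hx')

/-- The additive map on `S` induced by a derivation of `P`. -/
noncomputable def DS (D : Derivation (ZMod 2) P P) : S →+ S :=
  QuotientAddGroup.map I.toAddSubgroup I.toAddSubgroup D.toLinearMap.toAddMonoidHom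
    (fun _ hf => D_mem D hf)

lemma DS_mk (D : Derivation (ZMod 2) P P) (f : P) :
    DS D (Ideal.Quotient.mk I f) = Ideal.Quotient.mk I (D f) := rfl

lemma DS_mul (D : Derivation (ZMod 2) P P) (a b : S) :
    DS D (a * b) = a * DS D b + DS D a * b := by
  obtain ⟨f, rfl⟩ := Ideal.Quotient.mk_surjective a
  obtain ⟨g, rfl⟩ := Ideal.Quotient.mk_surjective b
  rw [← map_mul, DS_mk, DS_mk, DS_mk, Derivation.leibniz, map_add, smul_eq_mul, smul_eq_mul,
    map_mul, map_mul, mul_comm (Ideal.Quotient.mk I g)]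

/-- The generators of `S`. -/
noncomputable def y (i : ℕ) : S := Ideal.Quotient.mk I (X i)

lemma y_sq (i : ℕ) : y i ^ 2 = 0 := by
  unfold y
  rw [← map_pow]
  exact Ideal.Quotient.eq_zero_iff_mem.mpr (Ideal.subset_span ⟨i, rfl⟩)

/-- The derivation with `y (2i) ↦ y (2i+1)`, `y (2i+1) ↦ 0`. -/
noncomputable def dP : Derivation (ZMod 2) P P :=
  mkDerivation (ZMod 2) (fun i => if Even i then (X (i + 1) : P) else 0)

/-- The derivation with `y (2i) ↦ 0`, `y (2i+1) ↦ y (2i+2)`. -/
noncomputable def rP : Derivation (ZMod 2) P P :=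
  mkDerivation (ZMod 2) (fun i => if Even i then (0 : P) else X (i + 1))

noncomputable def d : S →+ S := DS dP
noncomputable def r : S →+ S := DS rP

lemma d_mul (a b : S) : d (a * b) = a * d b + d a * b := DS_mul _ _ _
lemma r_mul (a b : S) : r (a * b) = a * r b + r a * b := DS_mul _ _ _

/-- Induction principle for `S`. -/
lemma S_induction {p : S → Prop} (h0 : p 0) (h1 : p 1) (hy : ∀ i, p (y i))
    (hadd : ∀ a b, p a → p b → p (a + b)) (hmul : ∀ a b, p a → p b → p (a * b)) (s : S) :
    p s := by
  obtain ⟨f, rfl⟩ := Ideal.Quotient.mk_surjective s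
  induction f using MvPolynomial.induction_on with
  | C a =>
    fin_cases a
    · have : (C ((fun i => i) (⟨0, by decide⟩ : Fin 2) : ZMod 2) : P) = 0 := C_0
      rw [this, map_zero]; exact h0
    · have : (C ((fun i => i) (⟨1, by decide⟩ : Fin 2) : ZMod 2) : P) = 1 := C_1
      rw [this, map_one]; exact h1
  | add f g hf hg => rw [map_add]; exact hadd _ _ hf hg
  | mul_X f i hf => rw [map_mul]; exact hmul _ _ hf (hy i)

lemma d_one : d (1 : S) = 0 := by
  have h := d_mul 1 1
  rw [mul_one, one_mul, mul_one] at h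
  have h2 : d (1 : S) + d 1 = d 1 + 0 := by rw [← h, add_zero]
  exact add_left_cancel h2

lemma r_one : r (1 : S) = 0 := by
  have h := r_mul 1 1
  rw [mul_one, one_mul, mul_one] at h
  have h2 : r (1 : S) + r 1 = r 1 + 0 := by rw [← h, add_zero]
  exact add_left_cancel h2

lemma d_y (i : ℕ) : d (y i) = if Even i then y (i + 1) else 0 := by
  unfold d y
  rw [DS_mk]
  unfold dP
  rw [mkDerivation_X]
  split_ifs <;> simp

lemma r_y (i : ℕ) : r (y i) = if Even i then 0 else y (i + 1) := by
  unfold r y
  rw [DS_mk]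
  unfold rP
  rw [mkDerivation_X]
  split_ifs <;> simp

lemma dd (s : S) : d (d s) = 0 := by
  induction s using S_induction with
  | h0 => simp
  | h1 => simp [d_one]
  | hy i =>
    rw [d_y]
    split_ifs with h
    · rw [d_y, if_neg]
      rw [Nat.even_add_one]; simpa using h
    · simp
  | hadd a b ha hb => rw [map_add, map_add, ha, hb, add_zero]
  | hmul a b ha hb =>
    rw [d_mul, map_add, d_mul, d_mul, ha, hb]
    linear_combination (d a * d b) * two_S

lemma rr (s : S) : r (r s) = 0 := by
  induction s using S_induction with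
  | h0 => simp
  | h1 => simp [r_one]
  | hy i =>
    rw [r_y]
    split_ifs with h
    · simp
    · rw [r_y, if_pos]
      rw [Nat.even_add_one]; exact h
  | hadd a b ha hb => rw [map_add, map_add, ha, hb, add_zero]
  | hmul a b ha hb =>
    rw [r_mul, map_add, r_mul, r_mul, ha, hb]
    linear_combination (r a * r b) * two_S

lemma d_sq (s : S) : d s ^ 2 = 0 := by
  induction s using S_induction with
  | h0 => simp
  | h1 => simp [d_one]
  | hy i =>
    rw [d_y]
    split_ifs with h
    · exact y_sq _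
    · simp
  | hadd a b ha hb =>
    rw [map_add]
    linear_combination ha + hb + (d a * d b) * two_S
  | hmul a b ha hb =>
    rw [d_mul]
    linear_combination a ^ 2 * hb + b ^ 2 * ha + (a * b * d a * d b) * two_S

lemma r_sq (s : S) : r s ^ 2 = 0 := by
  induction s using S_induction with
  | h0 => simp
  | h1 => simp [r_one]
  | hy i =>
    rw [r_y]
    split_ifs with h
    · simp
    · exact y_sq _
  | hadd a b ha hb =>
    rw [map_add]
    linear_combination ha + hb + (r a * r b) * two_S
  | hmul a b ha hb =>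
    rw [r_mul]
    linear_combination a ^ 2 * hb + b ^ 2 * ha + (a * b * r a * r b) * two_S

lemma prod_y_ne (s : Finset ℕ) : ∏ i ∈ s, y i ≠ 0 := by
  intro h
  unfold y at h
  rw [← map_prod, Ideal.Quotient.eq_zero_iff_mem] at h
  have hI : I = Ideal.span ((fun s => monomial s (1 : ZMod 2)) ''
      (Set.range fun i : ℕ => Finsupp.single i 2)) := by
    unfold I
    congr 1
    ext f
    simp only [Set.mem_range, Set.mem_image, exists_exists_eq_and]
    constructor
    · rintro ⟨i, rfl⟩; exact ⟨i, by rw [X_pow_eq_monomial]⟩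
    · rintro ⟨i, rfl⟩; exact ⟨i, by rw [X_pow_eq_monomial]⟩
  have hprod : (∏ i ∈ s, X i : P) = monomial (∑ i ∈ s, Finsupp.single i 1) (1 : ZMod 2) := by
    rw [monomial_sum_one]
    rfl
  rw [hprod, hI, mem_ideal_span_monomial_image] at h
  obtain ⟨_, ⟨i, rfl⟩, hi⟩ := h (∑ i ∈ s, Finsupp.single i 1) (by
    rw [mem_support_iff, coeff_monomial, if_pos rfl]; exact one_ne_zero)
  have h2 := hi i
  rw [Finsupp.single_eq_same, Finsupp.finsetSum_apply] at h2
  have h3 : ∑ j ∈ s, (Finsupp.single j 1 : ℕ →₀ ℕ) i ≤ 1 := by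
    simp only [Finsupp.single_apply]
    rw [Finset.sum_ite_eq']
    split_ifs <;> omega
  omega

/-- The carrier of the big algebra: quadruples `(b, m, c, e)`. -/
abbrev A0 : Type := ZMod 2 × S × S × S

/-- The big algebra. -/
def A : Type := A0

noncomputable instance : AddCommGroup A := inferInstanceAs (AddCommGroup A0)

/-- The bilinear product. -/
noncomputable def mulA (x z : A0) : A0 :=
  (0,
   x.1 • (d z.2.1 + r z.2.1) + z.1 • r x.2.1,
   z.1 • d x.2.2.1 + z.2.1 * x.2.2.2 + x.2.2.1 * z.2.2.1,
   z.1 • d x.2.2.2 + x.2.2.1 * z.2.2.2 + x.2.2.2 * z.2.2.1)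

noncomputable instance : Mul A := ⟨fun x z => mulA x z⟩

lemma mulA_add (a b c : A0) : mulA a (b + c) = mulA a b + mulA a c := by
  refine Prod.ext ?_ (Prod.ext ?_ (Prod.ext ?_ ?_)) <;>
    simp only [mulA, Prod.fst_add, Prod.snd_add, map_add, add_smul, smul_add, mul_add, add_mul,
      add_zero] <;> abel

lemma add_mulA (a b c : A0) : mulA (a + b) c = mulA a c + mulA b c := by
  refine Prod.ext ?_ (Prod.ext ?_ (Prod.ext ?_ ?_)) <;>
    simp only [mulA, Prod.fst_add, Prod.snd_add, map_add, add_smul, smul_add, mul_add, add_mul,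
      add_zero] <;> abel

noncomputable instance : NonUnitalNonAssocRing A :=
  { (inferInstance : AddCommGroup A), (inferInstance : Mul A) with
    left_distrib := fun a b c => mulA_add a b c
    right_distrib := fun a b c => add_mulA a b c
    zero_mul := by
      intro a
      change mulA (0 : A0) a = (0 : A0)
      obtain ⟨a1, a2, a3, a4⟩ := a
      simp [mulA]
    mul_zero := by
      intro a
      change mulA a (0 : A0) = (0 : A0)
      obtain ⟨a1, a2, a3, a4⟩ := a
      simp [mulA] }

/-- Constructor with the type `A`. -/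
def mk (b : ZMod 2) (m c e : S) : A := ((b, m, c, e) : A0)

lemma mk_mul (b b' : ZMod 2) (m c e m' c' e' : S) :
    mk b m c e * mk b' m' c' e' =
      mk 0 (b • (d m' + r m') + b' • r m) (b' • d c + m' * e + c * c')
        (b' • d e + c * e' + e * c') := rfl

lemma mk_surj (x : A) : ∃ b m c e, x = mk b m c e := ⟨_, _, _, _, rfl⟩

lemma mk_zero : (0 : A) = mk 0 0 0 0 := rfl

lemma mk_add (b b' : ZMod 2) (m c e m' c' e' : S) :
    mk b m c e + mk b' m' c' e' = mk (b + b') (m + m') (c + c') (e + e') := rfl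

lemma mk_neg (b : ZMod 2) (m c e : S) :
    - mk b m c e = mk (-b) (-m) (-c) (-e) := rfl

lemma zmod2 (b : ZMod 2) : b = 0 ∨ b = 1 := by
  fin_cases b
  · left; rfl
  · right; rfl

lemma right_alt (x z : A) : (x * z) * z = x * (z * z) := by
  obtain ⟨b, m, c, e, rfl⟩ := mk_surj x
  obtain ⟨b', m', c', e', rfl⟩ := mk_surj z
  simp only [mk_mul]
  rcases zmod2 b with rfl | rfl <;> rcases zmod2 b' with rfl | rfl <;>
    simp only [zero_smul, one_smul, zero_add, add_zero, map_add, map_zero, dd, rr, d_mul]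
  · congr 1
    · linear_combination (c' * e * m') * two_S
    · ring
  · congr 1
    · linear_combination (c' * e * m' + m' * d e + c' * d c - e * r m') * two_S
    · linear_combination (e' * d c + d e * c') * two_S
  · congr 1
    · linear_combination (c' * e * m') * two_S
    · ring
  · congr 1
    · linear_combination (- d (r m')) * two_S
    · linear_combination (c' * e * m' + m' * d e + c' * d c - e * r m') * two_S
    · linear_combination (e' * d c + d e * c') * two_S

/-- Elements whose two middle components have zero square. -/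
noncomputable def N : NonUnitalSubring A where
  carrier := {x : A | ∃ b m c e, x = mk b m c e ∧ m ^ 2 = 0 ∧ c ^ 2 = 0}
  zero_mem' := ⟨0, 0, 0, 0, rfl, by simp, by simp⟩
  add_mem' := by
    rintro _ _ ⟨b, m, c, e, rfl, hm, hc⟩ ⟨b', m', c', e', rfl, hm', hc'⟩
    refine ⟨_, _, _, _, mk_add _ _ _ _ _ _ _ _, ?_, ?_⟩
    · linear_combination hm + hm' + (m * m') * two_S
    · linear_combination hc + hc' + (c * c') * two_S
  neg_mem' := by
    rintro _ ⟨b, m, c, e, rfl, hm, hc⟩
    refine ⟨_, _, _, _, mk_neg _ _ _ _, ?_, ?_⟩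
    · linear_combination hm
    · linear_combination hc
  mul_mem' := by
    rintro _ _ ⟨b, m, c, e, rfl, hm, hc⟩ ⟨b', m', c', e', rfl, hm', hc'⟩
    refine ⟨_, _, _, _, mk_mul _ _ _ _ _ _ _ _, ?_, ?_⟩
    · rcases zmod2 b with rfl | rfl <;> rcases zmod2 b' with rfl | rfl <;>
        simp only [zero_smul, one_smul, zero_add, add_zero]
      · ring
      · exact r_sq m
      · linear_combination d_sq m' + r_sq m' + (d m' * r m') * two_S
      · linear_combination d_sq m' + r_sq m' + r_sq m +
          (d m' * r m' + d m' * r m + r m' * r m) * two_S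
    · rcases zmod2 b' with rfl | rfl <;> simp only [zero_smul, one_smul, zero_add]
      · linear_combination e ^ 2 * hm' + c ^ 2 * hc' + (m' * e * c * c') * two_S
      · linear_combination d_sq c + e ^ 2 * hm' + c ^ 2 * hc' +
          (d c * m' * e + d c * c * c' + m' * e * c * c') * two_S

lemma nil_N (x : A) (hx : x ∈ N) : ((x * x) * (x * x)) * ((x * x) * (x * x)) = 0 := by
  obtain ⟨b, m, c, e, rfl, hm, hc⟩ := hx
  have h2 : mk b m c e * mk b m c e = mk 0 (b • d m) (b • d c + m * e) (b • d e) := by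
    rw [mk_mul]
    congr 1
    · rcases zmod2 b with rfl | rfl <;> simp only [zero_smul, one_smul, zero_add, add_zero]
      linear_combination r m * two_S
    · linear_combination hc
    · linear_combination (c * e) * two_S
  have h4 : (mk b m c e * mk b m c e) * (mk b m c e * mk b m c e) =
      mk 0 0 (b • (d m * d e)) 0 := by
    rw [h2, mk_mul]
    rcases zmod2 b with rfl | rfl <;> simp only [zero_smul, one_smul, zero_add, add_zero]
    · congr 1
      · linear_combination e ^ 2 * hm
      · ring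
    · congr 1
      · linear_combination e ^ 2 * hm + d_sq c + (m * e * d c) * two_S
      · linear_combination (d c * d e + m * e * d e) * two_S
  rw [h4, mk_mul, mk_zero]
  rcases zmod2 b with rfl | rfl <;>
    simp only [zero_smul, one_smul, zero_add, add_zero, mul_zero, zero_mul]
  congr 1
  linear_combination (d e) ^ 2 * d_sq m

lemma iter_zero (x : A) (hx : x ∈ N) : (fun y => y * x)^[8] x = 0 := by
  have h2 : ∀ z : A, (z * x) * x = z * (x * x) := fun z => right_alt z x
  have h4 : ∀ z : A, (z * (x * x)) * (x * x) = z * ((x * x) * (x * x)) :=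
    fun z => right_alt z (x * x)
  have h8 : ∀ z : A, (z * ((x * x) * (x * x))) * ((x * x) * (x * x)) =
      z * (((x * x) * (x * x)) * ((x * x) * (x * x))) :=
    fun z => right_alt z ((x * x) * (x * x))
  simp only [Function.iterate_succ, Function.iterate_zero, Function.comp, id_eq]
  rw [h2, h2, h2, h2, h4, h4, h8, nil_N x hx, mul_zero]

/-- Generators of the example. -/
noncomputable def gb : A := mk 1 0 0 0
noncomputable def gm : A := mk 0 (y 0) 0 0
noncomputable def gv : A := mk 0 0 0 1

noncomputable def gens : Set A := {gb, gm, gv}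

noncomputable def R0 : NonUnitalSubring A := NonUnitalSubring.closure gens

lemma gb_mem : gb ∈ R0 := NonUnitalSubring.subset_closure (by simp [gens])
lemma gm_mem : gm ∈ R0 := NonUnitalSubring.subset_closure (by simp [gens])
lemma gv_mem : gv ∈ R0 := NonUnitalSubring.subset_closure (by simp [gens])

lemma R0_le_N : R0 ≤ N := by
  refine NonUnitalSubring.closure_le.mpr ?_
  rintro x hx
  simp only [gens, Set.mem_insert_iff, Set.mem_singleton_iff] at hx
  rcases hx with rfl | rfl | rfl
  · exact ⟨_, _, _, _, rfl, by simp, by simp⟩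
  · exact ⟨_, _, _, _, rfl, y_sq 0, by simp⟩
  · exact ⟨_, _, _, _, rfl, by simp, by simp⟩

lemma m_mem (i : ℕ) : mk 0 (y i) 0 0 ∈ R0 := by
  induction i with
  | zero => exact gm_mem
  | succ i ih =>
    have h : gb * mk 0 (y i) 0 0 = mk 0 (y (i + 1)) 0 0 := by
      unfold gb
      rw [mk_mul, d_y, r_y]
      split_ifs <;> simp
    rw [← h]
    exact R0.mul_mem gb_mem ih

lemma w_mem (i : ℕ) : mk 0 0 (y i) 0 ∈ R0 := by
  have h : gv * mk 0 (y i) 0 0 = mk 0 0 (y i) 0 := by
    unfold gv
    rw [mk_mul]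
    simp
  rw [← h]
  exact R0.mul_mem gv_mem (m_mem i)

lemma w_mul (s t : S) : mk 0 0 s 0 * mk 0 0 t 0 = mk 0 0 (s * t) 0 := by
  rw [mk_mul]; simp

/-- The product of the generators with indices in `[n 2^k, (n+1) 2^k)`. -/
noncomputable def pr (k n : ℕ) : S := ∏ i ∈ Finset.Ico (n * 2 ^ k) ((n + 1) * 2 ^ k), y i

lemma pr_zero (n : ℕ) : pr 0 n = y n := by simp [pr]

lemma pr_succ (k n : ℕ) : pr (k + 1) n = pr k (2 * n) * pr k (2 * n + 1) := by
  unfold pr
  have hk : 0 < 2 ^ k := by positivity
  rw [Finset.prod_Ico_consecutive _ (by nlinarith) (by nlinarith)]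
  congr 2 <;> ring

lemma pr_mem (k n : ℕ) : mk 0 0 (pr k n) 0 ∈ R0 := by
  induction k generalizing n with
  | zero => rw [pr_zero]; exact w_mem n
  | succ k ih =>
    rw [pr_succ, ← w_mul]
    exact R0.mul_mem (ih _) (ih _)

noncomputable def rb : R0 := ⟨gb, gb_mem⟩
noncomputable def rm : R0 := ⟨gm, gm_mem⟩
noncomputable def rv : R0 := ⟨gv, gv_mem⟩

lemma mem_cl (T : Set R0) (hb : rb ∈ T) (hm : rm ∈ T) (hv : rv ∈ T) (x : A)
    (hx' : x ∈ NonUnitalSubring.closure gens) :
    ∀ hx : x ∈ R0, (⟨x, hx⟩ : R0) ∈ NonUnitalSubring.closure T := by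
  induction hx' using NonUnitalSubring.closure_induction with
  | mem x h =>
    intro hx
    simp only [gens, Set.mem_insert_iff, Set.mem_singleton_iff] at h
    rcases h with h | h | h
    · have e : (⟨x, hx⟩ : R0) = rb := Subtype.ext h
      rw [e]; exact NonUnitalSubring.subset_closure hb
    · have e : (⟨x, hx⟩ : R0) = rm := Subtype.ext h
      rw [e]; exact NonUnitalSubring.subset_closure hm
    · have e : (⟨x, hx⟩ : R0) = rv := Subtype.ext h
      rw [e]; exact NonUnitalSubring.subset_closure hv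
  | zero => intro hx; exact NonUnitalSubring.zero_mem _
  | add x z hx1 hz1 ihx ihz =>
    intro hx; exact NonUnitalSubring.add_mem _ (ihx hx1) (ihz hz1)
  | neg x hx1 ihx => intro hx; exact NonUnitalSubring.neg_mem _ (ihx hx1)
  | mul x z hx1 hz1 ihx ihz =>
    intro hx
    have h := NonUnitalSubring.mul_mem (NonUnitalSubring.closure T) (ihx hx1) (ihz hz1)
    have e : (⟨x * z, hx⟩ : R0) = (⟨x, hx1⟩ : R0) * (⟨z, hz1⟩ : R0) := Subtype.ext rfl
    rw [e]
    exact h

lemma R0_fg : ∃ s : Finset R0, NonUnitalSubring.closure (s : Set R0) = ⊤ := by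
  classical
  refine ⟨insert rb (insert rm {rv}), ?_⟩
  rw [eq_top_iff]
  rintro ⟨x, hx⟩ -
  refine mem_cl _ ?_ ?_ ?_ x hx hx
  · exact Finset.mem_coe.mpr (Finset.mem_insert_self _ _)
  · exact Finset.mem_coe.mpr (Finset.mem_insert_of_mem (Finset.mem_insert_self _ _))
  · exact Finset.mem_coe.mpr (Finset.mem_insert_of_mem
      (Finset.mem_insert_of_mem (Finset.mem_singleton_self _)))

lemma R0_nil : ∃ n : ℕ, ∀ x : R0, (fun y => y * x)^[n] x = 0 := by
  refine ⟨8, ?_⟩
  rintro ⟨x, hx⟩
  apply Subtype.ext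
  have := iter_zero x (R0_le_N hx)
  simp only [Function.iterate_succ, Function.iterate_zero, Function.comp, id_eq] at this ⊢
  exact this

theorem result :
    ¬ (∀ (R : Type) [NonUnitalNonAssocRing R],
      (∀ x y : R, (x * y) * y = x * (y * y)) →
      (∃ s : Finset R, NonUnitalSubring.closure (s : Set R) = ⊤) →
      (∃ n : ℕ, ∀ x : R, (fun y => y * x)^[n] x = 0) →
      ∃ D : ℕ → AddSubgroup R,
        D 0 = ⊤ ∧
        (∀ k : ℕ, D (k + 1) =
          AddSubgroup.closure {z : R | ∃ a ∈ D k, ∃ b ∈ D k, z = a * b}) ∧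
        ∃ m : ℕ, D m = ⊥) := by
  intro H
  obtain ⟨D, hD0, hD, m, hm⟩ := H R0 (fun x z => Subtype.ext (right_alt x.1 z.1)) R0_fg R0_nil
  have key : ∀ k n, (⟨mk 0 0 (pr k n) 0, pr_mem k n⟩ : R0) ∈ D k := by
    intro k
    induction k with
    | zero => intro n; rw [hD0]; trivial
    | succ k ih =>
      intro n
      rw [hD]
      refine AddSubgroup.subset_closure ⟨_, ih (2 * n), _, ih (2 * n + 1), ?_⟩
      apply Subtype.ext
      change mk 0 0 (pr (k + 1) n) 0 = mk 0 0 (pr k (2 * n)) 0 * mk 0 0 (pr k (2 * n + 1)) 0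
      rw [w_mul, pr_succ]
  have h := key m 0
  rw [hm, AddSubgroup.mem_bot] at h
  have h1 : mk 0 0 (pr m 0) 0 = 0 := congrArg Subtype.val h
  have h2 : pr m 0 = 0 := congrArg (fun x : A0 => x.2.2.1) h1
  exact prod_y_ne _ h2

end Pool.Agent.S01150
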