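import Pool.Statements.S01155
import Pool.Agent.RotDist.Final

set_option autoImplicit false
open Pool Pool.MP_707bda_al

namespace Pool.Agent.S01155

/-- Every irrational rotation is distorted among analytic circle diffeomorphisms: some finite inverse-closed set of analytic lifts writes the rotation by nα, up to integer shift, as a word of length at most εn, for every ε>0 and some n≥1. -/
theorem result :
    ∀ α : ℝ, Irrational α →
      ∃ S : Finset (ℝ → ℝ),
        (∀ F ∈ S, (∀ x : ℝ, AnalyticAt ℝ F x) ∧ (∀ x : ℝ, 0 < deriv F x) ∧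
            (∀ x : ℝ, F (x + 1) = F x + 1) ∧
            ∃ G ∈ S, ∃ m : ℤ, ∀ x : ℝ, G (F x) = x + (m : ℝ)) ∧
        ∀ ε : ℝ, 0 < ε →
          ∃ n : ℕ, 0 < n ∧
            ∃ w : List (ℝ → ℝ), (∀ F ∈ w, F ∈ S) ∧ (w.length : ℝ) ≤ ε * (n : ℝ) ∧
              ∃ k : ℤ, ∀ x : ℝ,
                (w.foldr (fun f g => f ∘ g) id) x = x + (n : ℝ) * α + (k : ℝ) := by
  exact fun α hα => Pool.Agent.RotDist.final α hα

end Pool.Agent.S01155
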