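import Pool.Statements.S01169
import Pool.Agent.Helper294.HallM.Final

set_option autoImplicit false
open Pool Pool.MP_721660_al

namespace Pool.Agent.S01169

/-- Take any finitely generated group with an abelian normal subgroup whose quotient is polycyclic (solvable, all subgroups finitely generated). In it, every ascending chain of centralizers of subsets eventually becomes constant. -/
theorem result :
    ∀ (G : Type) [Group G], Group.FG G →
      (∃ (Q : Type) (_ : Group Q) (f : G →* Q), Function.Surjective f ∧ IsSolvable Q ∧
        (∀ H : Subgroup Q, H.FG) ∧ ∀ x ∈ f.ker, ∀ y ∈ f.ker, x * y = y * x) →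
      ∀ s : ℕ → Set G,
        (∀ n, Subgroup.centralizer (s n) ≤ Subgroup.centralizer (s (n + 1))) →
        ∃ N : ℕ, ∀ n, N ≤ n → Subgroup.centralizer (s n) = Subgroup.centralizer (s N) := by
  exact Pool.Agent.Helper294.HallC.fin_S01169 Pool.Agent.Helper294.HallM.hypp
    Pool.Agent.Helper294.HallM.hyp0

end Pool.Agent.S01169
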