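import Pool.Statements.S01176

set_option autoImplicit false
open Pool Pool.MP_72b122_al

namespace Pool.Agent.S01176

open Topology Filter

noncomputable section

/-- finitely supported integer sequences -/
abbrev V := ℕ →₀ ℤ

/-- the underlying group of the counterexample -/
abbrev G := Multiplicative (V × V)

instance instLatG : Lattice G := inferInstanceAs (Lattice (V × V))

instance instMLM : MulLeftMono G := ⟨fun a b c h => by
  change (Multiplicative.toAdd a + Multiplicative.toAdd b : V × V) ≤
    Multiplicative.toAdd a + Multiplicative.toAdd c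
  have h' : (Multiplicative.toAdd b : V × V) ≤ Multiplicative.toAdd c := h
  exact add_le_add_right h' _⟩

instance instMRM : MulRightMono G := ⟨fun a b c h => by
  change (Multiplicative.toAdd b + Multiplicative.toAdd a : V × V) ≤
    Multiplicative.toAdd c + Multiplicative.toAdd a
  have h' : (Multiplicative.toAdd b : V × V) ≤ Multiplicative.toAdd c := h
  exact add_le_add_left h' _⟩

/-- first coordinate -/
def u (g : G) : V := (Multiplicative.toAdd g).1
/-- second coordinate -/
def v (g : G) : V := (Multiplicative.toAdd g).2

lemma G_ext {g h : G} (h1 : u g = u h) (h2 : v g = v h) : g = h := by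
  change (Multiplicative.toAdd g : V × V) = Multiplicative.toAdd h
  exact Prod.ext h1 h2

@[simp] lemma u_mul (g h : G) : u (g * h) = u g + u h := rfl
@[simp] lemma v_mul (g h : G) : v (g * h) = v g + v h := rfl
@[simp] lemma u_inv (g : G) : u g⁻¹ = - u g := rfl
@[simp] lemma v_inv (g : G) : v g⁻¹ = - v g := rfl
@[simp] lemma u_one : u (1 : G) = 0 := rfl
@[simp] lemma v_one : v (1 : G) = 0 := rfl
@[simp] lemma u_sup (g h : G) : u (g ⊔ h) = u g ⊔ u h := rfl
@[simp] lemma v_sup (g h : G) : v (g ⊔ h) = v g ⊔ v h := rfl
@[simp] lemma u_inf (g h : G) : u (g ⊓ h) = u g ⊓ u h := rfl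
@[simp] lemma v_inf (g h : G) : v (g ⊓ h) = v g ⊓ v h := rfl

/-- The map whose induced topology we use: the difference of the two coordinates (discrete) and
the second coordinate (pointwise). -/
def F (g : G) : V × (ℕ → ℤ) := (u g - v g, fun j => v g j)

instance instTopV : TopologicalSpace V := ⊥
instance instDiscV : DiscreteTopology V := ⟨rfl⟩

/-- the topology of the counterexample -/
abbrev topG : TopologicalSpace G := TopologicalSpace.induced F inferInstance

section top

attribute [local instance] topG

lemma continuous_F : Continuous F := continuous_induced_dom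

lemma continuous_D : Continuous (fun g : G => u g - v g) := continuous_fst.comp continuous_F

lemma continuous_v (j : ℕ) : Continuous (fun g : G => v g j) :=
  (continuous_apply j).comp (continuous_snd.comp continuous_F)

lemma continuous_u (j : ℕ) : Continuous (fun g : G => u g j) := by
  have h1 : Continuous (fun g : G => (u g - v g) j + v g j) :=
    ((continuous_of_discreteTopology (f := fun a : V => a j)).comp continuous_D).add
      (continuous_v j)
  refine h1.congr (fun g => ?_)
  simp

lemma key (op : ℤ → ℤ → ℤ) (opV : V → V → V) (hop : ∀ a b j, opV a b j = op (a j) (b j)) :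
    Continuous (fun p : G × G => opV (u p.1) (u p.2) - opV (v p.1) (v p.2)) := by
  rw [continuous_iff_continuousAt]
  intro p0
  have hD1 : ∀ᶠ p in 𝓝 p0, u p.1 - v p.1 = u p0.1 - v p0.1 := by
    have hc : ContinuousAt (fun p : G × G => u p.1 - v p.1) p0 :=
      (continuous_D.comp continuous_fst).continuousAt
    have := hc (IsOpen.mem_nhds (isOpen_discrete {u p0.1 - v p0.1}) rfl)
    exact this
  have hD2 : ∀ᶠ p in 𝓝 p0, u p.2 - v p.2 = u p0.2 - v p0.2 := by
    have hc : ContinuousAt (fun p : G × G => u p.2 - v p.2) p0 :=
      (continuous_D.comp continuous_snd).continuousAt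
    have := hc (IsOpen.mem_nhds (isOpen_discrete {u p0.2 - v p0.2}) rfl)
    exact this
  have hv1 : ∀ j, ∀ᶠ p in 𝓝 p0, v p.1 j = v p0.1 j := by
    intro j
    have hc : ContinuousAt (fun p : G × G => v p.1 j) p0 :=
      ((continuous_v j).comp continuous_fst).continuousAt
    have := hc (IsOpen.mem_nhds (isOpen_discrete {v p0.1 j}) rfl)
    exact this
  have hv2 : ∀ j, ∀ᶠ p in 𝓝 p0, v p.2 j = v p0.2 j := by
    intro j
    have hc : ContinuousAt (fun p : G × G => v p.2 j) p0 :=
      ((continuous_v j).comp continuous_snd).continuousAt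
    have := hc (IsOpen.mem_nhds (isOpen_discrete {v p0.2 j}) rfl)
    exact this
  classical
  let S : Finset ℕ := (u p0.1 - v p0.1).support ∪ (u p0.2 - v p0.2).support
  have hS : ∀ᶠ p in 𝓝 p0, ∀ j ∈ S, v p.1 j = v p0.1 j ∧ v p.2 j = v p0.2 j := by
    rw [Filter.eventually_all_finset]
    intro j _
    exact (hv1 j).and (hv2 j)
  have hev : ∀ᶠ p in 𝓝 p0, opV (u p0.1) (u p0.2) - opV (v p0.1) (v p0.2) =
      opV (u p.1) (u p.2) - opV (v p.1) (v p.2) := by
    filter_upwards [hD1, hD2, hS] with p h1 h2 h3
    ext j
    have e1 : u p.1 j = v p.1 j + (u p0.1 - v p0.1) j := by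
      rw [← h1]; simp
    have e2 : u p.2 j = v p.2 j + (u p0.2 - v p0.2) j := by
      rw [← h2]; simp
    have f1 : u p0.1 j = v p0.1 j + (u p0.1 - v p0.1) j := by simp
    have f2 : u p0.2 j = v p0.2 j + (u p0.2 - v p0.2) j := by simp
    rw [Finsupp.sub_apply, Finsupp.sub_apply, hop, hop, hop, hop, e1, e2, f1, f2]
    by_cases hj : j ∈ S
    · rw [(h3 j hj).1, (h3 j hj).2]
    · have g1 : (u p0.1 - v p0.1) j = 0 := by
        by_contra hne
        exact hj (Finset.mem_union_left _ (Finsupp.mem_support_iff.mpr hne))
      have g2 : (u p0.2 - v p0.2) j = 0 := by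
        by_contra hne
        exact hj (Finset.mem_union_right _ (Finsupp.mem_support_iff.mpr hne))
      rw [g1, g2]
      simp
  exact (tendsto_const_nhds (x := opV (u p0.1) (u p0.2) - opV (v p0.1) (v p0.2))).congr' hev

instance instTG : IsTopologicalGroup G where
  continuous_mul := by
    refine continuous_induced_rng.2 ?_
    have h : (F ∘ fun p : G × G => p.1 * p.2) = fun p : G × G => F p.1 + F p.2 := by
      funext p
      refine Prod.ext ?_ ?_
      · simp only [F, Function.comp, u_mul, v_mul, Prod.fst_add]
        abel
      · funext j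
        simp [F]
    rw [h]
    exact (continuous_F.comp continuous_fst).add (continuous_F.comp continuous_snd)
  continuous_inv := by
    refine continuous_induced_rng.2 ?_
    have h : (F ∘ fun p : G => p⁻¹) = fun p : G => - F p := by
      funext p
      refine Prod.ext ?_ ?_
      · simp only [F, Function.comp, u_inv, v_inv, Prod.fst_neg]
        abel
      · funext j
        simp [F]
    rw [h]
    exact continuous_F.neg

lemma continuous_sup' : Continuous (fun p : G × G => p.1 ⊔ p.2) := by
  refine continuous_induced_rng.2 ?_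
  refine Continuous.prodMk ?_ ?_
  · exact key (fun a b => a ⊔ b) (fun a b => a ⊔ b) (fun a b j => rfl)
  · refine continuous_pi (fun j => ?_)
    have h := ((continuous_v j).comp (continuous_fst (X := G) (Y := G))).sup
      ((continuous_v j).comp (continuous_snd (X := G) (Y := G)))
    exact h

lemma continuous_inf' : Continuous (fun p : G × G => p.1 ⊓ p.2) := by
  refine continuous_induced_rng.2 ?_
  refine Continuous.prodMk ?_ ?_
  · exact key (fun a b => a ⊓ b) (fun a b => a ⊓ b) (fun a b j => rfl)
  · refine continuous_pi (fun j => ?_)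
    have h := ((continuous_v j).comp (continuous_fst (X := G) (Y := G))).inf
      ((continuous_v j).comp (continuous_snd (X := G) (Y := G)))
    exact h

instance instTL : TopologicalLattice G where
  continuous_sup := continuous_sup'
  continuous_inf := continuous_inf'

/-- the first summand -/
def A : Subgroup G where
  carrier := {g | v g = 0}
  mul_mem' := by
    intro a b ha hb
    have ha' : v a = 0 := ha
    have hb' : v b = 0 := hb
    change v (a * b) = 0
    simp [ha', hb']
  one_mem' := rfl
  inv_mem' := by
    intro a ha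
    have ha' : v a = 0 := ha
    change v a⁻¹ = 0
    simp [ha']

/-- the second summand -/
def B : Subgroup G where
  carrier := {g | u g = 0}
  mul_mem' := by
    intro a b ha hb
    have ha' : u a = 0 := ha
    have hb' : u b = 0 := hb
    change u (a * b) = 0
    simp [ha', hb']
  one_mem' := rfl
  inv_mem' := by
    intro a ha
    have ha' : u a = 0 := ha
    change u a⁻¹ = 0
    simp [ha']

lemma closed_A : IsClosed (A : Set G) := by
  have h : (A : Set G) = ⋂ j, {g : G | v g j = 0} := by
    ext g
    simp only [Set.mem_iInter]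
    constructor
    · intro hg j
      have : v g = 0 := hg
      change v g j = 0
      rw [this]; rfl
    · intro hg
      change v g = 0
      ext j
      exact hg j
  rw [h]
  exact isClosed_iInter (fun j => isClosed_eq (continuous_v j) continuous_const)

lemma closed_B : IsClosed (B : Set G) := by
  have h : (B : Set G) = ⋂ j, {g : G | u g j = 0} := by
    ext g
    simp only [Set.mem_iInter]
    constructor
    · intro hg j
      have : u g = 0 := hg
      change u g j = 0
      rw [this]; rfl
    · intro hg
      change u g = 0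
      ext j
      exact hg j
  rw [h]
  exact isClosed_iInter (fun j => isClosed_eq (continuous_u j) continuous_const)

lemma discrete_A : DiscreteTopology A := by
  refine DiscreteTopology.of_continuous_injective (f := fun a : A => u a.1 - v a.1)
    (continuous_D.comp continuous_subtype_val) ?_
  intro a b hab
  have ha : v a.1 = 0 := a.2
  have hb : v b.1 = 0 := b.2
  simp only [ha, hb, sub_zero] at hab
  exact Subtype.ext (G_ext hab (ha.trans hb.symm))

lemma discrete_B : DiscreteTopology B := by
  refine DiscreteTopology.of_continuous_injective (f := fun a : B => u a.1 - v a.1)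
    (continuous_D.comp continuous_subtype_val) ?_
  intro a b hab
  have ha : u a.1 = 0 := a.2
  have hb : u b.1 = 0 := b.2
  simp only [ha, hb, zero_sub, neg_inj] at hab
  exact Subtype.ext (G_ext (ha.trans hb.symm) hab)

/-- the elements tending to the identity -/
def g (n : ℕ) : G := Multiplicative.ofAdd (Finsupp.single n 1, Finsupp.single n 1)

lemma tendsto_g : Tendsto g atTop (𝓝 (1 : G)) := by
  rw [nhds_induced, tendsto_comap_iff]
  have h1 : F 1 = (0, 0) := by
    refine Prod.ext ?_ ?_
    · simp [F]
    · funext j; simp [F]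
  rw [h1, nhds_prod_eq]
  refine Tendsto.prodMk ?_ ?_
  · have : (fun n => (F (g n)).1) = fun _ => (0 : V) := by
      funext n
      simp [F, g, u, v]
    exact this ▸ tendsto_const_nhds
  · rw [tendsto_pi_nhds]
    intro j
    refine tendsto_const_nhds.congr' ?_
    filter_upwards [eventually_gt_atTop j] with n hn
    have : (Finsupp.single n (1 : ℤ)) j = 0 := Finsupp.single_eq_of_ne (by omega)
    simp only [F, g, v]
    exact this.symm

lemma g_ne (n : ℕ) : g n ≠ 1 := by
  intro h
  have h1 : u (g n) n = u (1 : G) n := by rw [h]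
  simp [g, u] at h1

lemma not_discrete : ¬ DiscreteTopology G := by
  intro h
  have h1 : ∀ᶠ n in atTop, g n ∈ ({(1 : G)} : Set G) :=
    tendsto_g (IsOpen.mem_nhds (isOpen_discrete {(1 : G)}) rfl)
  obtain ⟨n, hn⟩ := h1.exists
  exact g_ne n hn

end top

/-- The negation of the preceding statement: Let G be a topological lattice-ordered group with closed normal ℓ-subgroups A, B such that multiplication A×B→G is an ℓ-isomorphism. Then this map is a homeomorphism from the product topology onto G. -/
theorem result :
    ¬ (∀ (G : Type) [Group G] [Lattice G] [MulLeftMono G] [MulRightMono G]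
      [TopologicalSpace G] [IsTopologicalGroup G] [TopologicalLattice G]
      (A B : Subgroup G),
      A.Normal → B.Normal →
      IsClosed (A : Set G) → IsClosed (B : Set G) →
      (∀ x ∈ A, ∀ y ∈ A, x ⊔ y ∈ A ∧ x ⊓ y ∈ A) →
      (∀ x ∈ B, ∀ y ∈ B, x ⊔ y ∈ B ∧ x ⊓ y ∈ B) →
      ∀ φ : (↥A × ↥B) → G, (∀ p, φ p = (p.1 : G) * (p.2 : G)) →
      Function.Bijective φ →
      (∀ p q : ↥A × ↥B, p ≤ q ↔ φ p ≤ φ q) →
      ∃ e : (↥A × ↥B) ≃ₜ G, ∀ p, e p = φ p) := by
  intro H
  letI : TopologicalSpace G := topG
  haveI : IsTopologicalGroup G := instTG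
  haveI : TopologicalLattice G := instTL
  have hA : A.Normal := inferInstance
  have hB : B.Normal := inferInstance
  obtain ⟨e, -⟩ := H G A B hA hB closed_A closed_B
    (by
      intro x hx y hy
      have hx' : v x = 0 := hx
      have hy' : v y = 0 := hy
      refine ⟨?_, ?_⟩
      · change v (x ⊔ y) = 0
        rw [v_sup, hx', hy', sup_idem]
      · change v (x ⊓ y) = 0
        rw [v_inf, hx', hy', inf_idem])
    (by
      intro x hx y hy
      have hx' : u x = 0 := hx
      have hy' : u y = 0 := hy
      refine ⟨?_, ?_⟩
      · change u (x ⊔ y) = 0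
        rw [u_sup, hx', hy', sup_idem]
      · change u (x ⊓ y) = 0
        rw [u_inf, hx', hy', inf_idem])
    (fun p => (p.1 : G) * (p.2 : G)) (fun p => rfl)
    (by
      constructor
      · intro p q hpq
        have h1 : u ((p.1 : G) * (p.2 : G)) = u ((q.1 : G) * (q.2 : G)) := congrArg u hpq
        have h2 : v ((p.1 : G) * (p.2 : G)) = v ((q.1 : G) * (q.2 : G)) := congrArg v hpq
        have a1 : v (p.1 : G) = 0 := p.1.2
        have a2 : v (q.1 : G) = 0 := q.1.2
        have b1 : u (p.2 : G) = 0 := p.2.2
        have b2 : u (q.2 : G) = 0 := q.2.2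
        rw [u_mul, u_mul, b1, b2, add_zero, add_zero] at h1
        rw [v_mul, v_mul, a1, a2, zero_add, zero_add] at h2
        exact Prod.ext (Subtype.ext (G_ext h1 (a1.trans a2.symm)))
          (Subtype.ext (G_ext (b1.trans b2.symm) h2))
      · intro x
        refine ⟨(⟨Multiplicative.ofAdd (u x, 0), rfl⟩, ⟨Multiplicative.ofAdd (0, v x), rfl⟩), ?_⟩
        refine G_ext ?_ ?_
        · rw [u_mul]; exact add_zero _
        · rw [v_mul]; exact zero_add _)
    (by
      intro p q
      have a1 : v (p.1 : G) = 0 := p.1.2
      have a2 : v (q.1 : G) = 0 := q.1.2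
      have b1 : u (p.2 : G) = 0 := p.2.2
      have b2 : u (q.2 : G) = 0 := q.2.2
      have hle : ∀ x y : G, x ≤ y ↔ (u x ≤ u y ∧ v x ≤ v y) := fun x y => Iff.rfl
      have h1 : p ≤ q ↔ ((p.1 : G) ≤ (q.1 : G) ∧ (p.2 : G) ≤ (q.2 : G)) := Iff.rfl
      rw [h1, hle, hle, hle, u_mul, u_mul, v_mul, v_mul, a1, a2, b1, b2]
      simp)
  haveI := discrete_A
  haveI := discrete_B
  haveI : DiscreteTopology (↥A × ↥B) := inferInstance
  have hG : DiscreteTopology G := e.symm.isEmbedding.discreteTopology
  exact not_discrete hG

end

end Pool.Agent.S01176
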