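import Pool.Statements.S01188
import Pool.Agent.Helper30.NilUniv

set_option autoImplicit false
open Pool Pool.MP_734462_al

namespace Pool.Agent.S01188

open Pool.Agent.Helper30.NilUniv

universe u v

lemma countable_of_rank {F : Type u} [Field F] [Countable F] {A : Type v} [AddCommGroup A]
    [Module F A] (h : Module.rank F A ≤ Cardinal.aleph0) : Countable A := by
  have b := Module.Free.chooseBasis F A
  have h1 : Countable (Module.Free.ChooseBasisIndex F A) := by
    rw [← Cardinal.mk_le_aleph0_iff, ← Module.Free.rank_eq_card_chooseBasisIndex]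
    exact h
  exact b.repr.toEquiv.injective.countable

lemma iterate_coe {F : Type u} [Field F] {A : Type v} [NonUnitalRing A]
    [Module F A] [IsScalarTower F A A] [SMulCommClass F A A] (a : A) (n : ℕ) :
    (((fun x : A => a * x)^[n] a : A) : Unitization F A) = (a : Unitization F A) ^ (n + 1) := by
  induction n with
  | zero => simp
  | succ n ih =>
    rw [Function.iterate_succ_apply', pow_succ', ← ih]
    exact Unitization.inr_mul F a _

lemma iterate_val {F : Type u} [Field F] {Q : Type v} [Ring Q] [Algebra F Q]
    (B : NonUnitalSubalgebra F Q) (b : B) (n : ℕ) :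
    (((fun x : B => b * x)^[n] b : B) : Q) = (b : Q) ^ (n + 1) := by
  induction n with
  | zero => simp
  | succ n ih =>
    rw [Function.iterate_succ_apply', pow_succ', ← ih]
    rfl

/-- The negation of the preceding statement: For every field F there is an associative nil F-algebra A of at most countable dimension such that every nil F-algebra of at most countable dimension is the image of a surjective algebra homomorphism from A. -/
theorem result :
    ¬ (∀ (F : Type) [Field F],
      ∃ (A : Type) (_instR : NonUnitalRing A) (_instM : Module F A)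
        (_instT : IsScalarTower F A A) (_instC : SMulCommClass F A A),
        (∀ a : A, ∃ n : ℕ, (fun x : A => a * x)^[n] a = 0) ∧
        Module.rank F A ≤ Cardinal.aleph0 ∧
        ∀ (B : Type) [NonUnitalRing B] [Module F B] [IsScalarTower F B B]
          [SMulCommClass F B B],
          (∀ b : B, ∃ n : ℕ, (fun x : B => b * x)^[n] b = 0) →
          Module.rank F B ≤ Cardinal.aleph0 →
            ∃ f : A →ₙₐ[F] B, Function.Surjective f) := by
  intro H
  have : Fact (Nat.Prime 2) := ⟨Nat.prime_two⟩
  obtain ⟨A, _, _, _, _, hnil, hrk, huniv⟩ := H (ZMod 2)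
  have hc : Countable A := countable_of_rank hrk
  obtain ⟨Q, _, _, B, hBc, hBn, hB⟩ := main (ZMod 2) A (by
    intro a
    obtain ⟨n, hn⟩ := hnil a
    refine ⟨Polynomial.X ^ (n + 1), by simp, by simp, ?_⟩
    rw [map_pow, Polynomial.aeval_X, ← iterate_coe, hn]
    simp)
  apply hB
  refine huniv B ?_ ?_
  · intro b
    obtain ⟨n, hn⟩ := hBn b
    refine ⟨n, ?_⟩
    apply Subtype.ext
    rw [iterate_val, pow_succ, hn, zero_mul]
    rfl
  · refine (rank_le_card (ZMod 2) B).trans ?_
    rw [Cardinal.mk_le_aleph0_iff]
    exact hBc

end Pool.Agent.S01188
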