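import Pool.Statements.S01219
import Pool.Agent.Helper844.Ret

set_option autoImplicit false
open Pool Pool.MP_7692ce_al

namespace Pool.Agent.S01219

open Pool.Agent.Helper844.Sys Pool.Agent.Helper844.Ret Pool.Agent.Helper844.Dio

open Nat.Partrec (Code)

theorem comp_pred {α β : Type} [Primcodable α] [Primcodable β] {p : β → Prop} {g : α → β}
    (hp : ComputablePred p) (hg : Computable g) : ComputablePred (fun a => p (g a)) := by
  obtain ⟨f, hf, rfl⟩ := ComputablePred.computable_iff.1 hp
  exact ComputablePred.computable_iff.2 ⟨fun a => f (g a), hf.comp hg, rfl⟩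

/-- a recursively enumerable set of natural numbers that is not computable -/
theorem exists_halting : ∃ S : ℕ → Prop, REPred S ∧ ¬ ComputablePred S := by
  refine ⟨fun n => (Code.eval (Denumerable.ofNat Code n) 0).Dom, ?_, ?_⟩
  · have h1 : Partrec fun n : ℕ => Code.eval (Denumerable.ofNat Code n) 0 :=
      Code.eval_part.comp (Computable.ofNat Code) (Computable.const 0)
    exact h1.dom_re
  · intro h
    have h2 := comp_pred h (Computable.encode (α := Code))
    refine ComputablePred.halting_problem 0 (h2.of_eq fun c => ?_)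
    rw [Denumerable.ofNat_encode]

/-- the words giving the subgroup -/
def wrd {N : ℕ} (a s t : Fin N) (n : ℕ) : List (List (Fin N × Bool)) :=
  [(a, true) :: (List.range (4 * n)).map (fun _ => (s, true)), [(t, true)]]

theorem wrd_computable {N : ℕ} (a s t : Fin N) : Computable (wrd a s t) := by
  apply Primrec.to_comp
  unfold wrd
  have h1 : Primrec fun n : ℕ => (List.range (4 * n)).map (fun _ => (s, true)) :=
    Primrec.list_map (Primrec.list_range.comp (Primrec.nat_mul.comp (Primrec.const 4) Primrec.id))
      (Primrec.const (s, true)).to₂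
  have h2 : Primrec fun n : ℕ => (a, true) :: (List.range (4 * n)).map (fun _ => (s, true)) :=
    Primrec.list_cons.comp (Primrec.const (a, true)) h1
  exact Primrec.list_cons.comp h2 (Primrec.const [[(t, true)]])

theorem mk_wrd {N : ℕ} (s : Fin N) (m : ℕ) :
    FreeGroup.mk ((List.range m).map (fun _ => (s, true))) = FreeGroup.of s ^ m := by
  induction m with
  | zero => rfl
  | succ m ih =>
    rw [List.range_succ, List.map_append, ← FreeGroup.mul_mk, ih, pow_succ]
    rfl

/-- Some nilpotent group G with a finite generating set has undecidable retract problem: no algorithm decides, from a finite list of words, whether the subgroup they generate is a retract of G. -/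
theorem result :
    ∃ (G : Type) (_ : Group G), Group.IsNilpotent G ∧
      ∃ (n : ℕ) (φ : FreeGroup (Fin n) →* G), Function.Surjective φ ∧
        ¬ ComputablePred (fun L : List (List (Fin n × Bool)) =>
          ∃ r : G →* G,
            r.range = Subgroup.closure {g : G | ∃ w ∈ L, φ (FreeGroup.mk w) = g} ∧
            ∀ h ∈ Subgroup.closure {g : G | ∃ w ∈ L, φ (FreeGroup.mk w) = g}, r h = h) := by
  obtain ⟨S, hre, hnc⟩ := exists_halting
  obtain ⟨V, _, f, L, hsys⟩ := exists_system S (dprm hre)
  -- the set is nonempty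
  have hne : ∃ n₀, S n₀ := by
    by_contra hcon
    push Not at hcon
    apply hnc
    refine ComputablePred.computable_iff.2 ⟨fun _ => false, Computable.const false, ?_⟩
    funext n
    simp [hcon n]
  obtain ⟨n₀, hn₀⟩ := hne
  obtain ⟨x₀, hx₀f, hx₀⟩ := (hsys (1 - 4 * n₀)).2 ⟨n₀, hn₀, rfl⟩
  have key : ∀ n : ℕ, (∃ r : Grp f L →* Grp f L, r.range = Hn f L n ∧
      ∀ h ∈ Hn f L n, r h = h) ↔ S n := by
    intro n
    constructor
    · rintro ⟨r, hr, hfix⟩
      obtain ⟨x, hx, hxL⟩ := solution_of_retract n n₀ x₀ hx₀ hx₀f r hr hfix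
      obtain ⟨m, hm, hm2⟩ := (hsys (x f)).1 ⟨x, rfl, hxL⟩
      have : m = n := by
        rcases hx with h | h <;> omega
      rwa [this] at hm
    · intro hn
      obtain ⟨x, hxf, hx⟩ := (hsys (1 - 4 * n)).2 ⟨n, hn, rfl⟩
      exact retract_of_solution n x hx hxf
  refine ⟨Grp f L, inferInstance, grp_nilpotent, Fintype.card (Gen V), ?_⟩
  let e := Fintype.equivFin (Gen V)
  let φ : FreeGroup (Fin (Fintype.card (Gen V))) →* Grp f L :=
    (mkG f L).comp (FreeGroup.freeGroupCongr e.symm).toMonoidHom
  refine ⟨φ, ?_, ?_⟩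
  · intro y
    obtain ⟨z, rfl⟩ := PresentedGroup.mk_surjective (rels f L) y
    obtain ⟨z', rfl⟩ := (FreeGroup.freeGroupCongr e.symm).surjective z
    exact ⟨z', rfl⟩
  · intro hcomp
    apply hnc
    have h1 := comp_pred hcomp
      (wrd_computable (e (Sum.inl 0)) (e (Sum.inl 1)) (e (Sum.inl 2)))
    refine h1.of_eq fun n => ?_
    rw [← key n]
    have hφ : ∀ g : Gen V, φ (FreeGroup.of (e g)) = mkG f L (FreeGroup.of g) := by
      intro g
      change mkG f L ((FreeGroup.freeGroupCongr e.symm) (FreeGroup.of (e g))) = _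
      congr 1
      simp
    have hset : {g : Grp f L | ∃ w ∈ wrd (e (Sum.inl 0)) (e (Sum.inl 1)) (e (Sum.inl 2)) n,
        φ (FreeGroup.mk w) = g} = {hel f L n, mkG f L gT} := by
      have w1 : φ (FreeGroup.mk ((e (Sum.inl 0), true) ::
          (List.range (4 * n)).map (fun _ => (e (Sum.inl 1), true)))) = hel f L n := by
        have : FreeGroup.mk ((e (Sum.inl 0), true) ::
            (List.range (4 * n)).map (fun _ => (e (Sum.inl 1), true))) =
            FreeGroup.of (e (Sum.inl 0)) * FreeGroup.of (e (Sum.inl 1)) ^ (4 * n) := by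
          rw [← mk_wrd, FreeGroup.of, FreeGroup.mul_mk]
          rfl
        rw [this, map_mul, map_pow, hφ, hφ]
        rfl
      have w2 : φ (FreeGroup.mk [(e (Sum.inl 2), true)]) = mkG f L gT := hφ (Sum.inl 2)
      ext g
      simp only [wrd, List.mem_cons, List.not_mem_nil, or_false, Set.mem_ofPred_eq,
        Set.mem_insert_iff, Set.mem_singleton_iff]
      constructor
      · rintro ⟨w, rfl | rfl, rfl⟩
        · left; exact w1
        · right; exact w2
      · rintro (rfl | rfl)
        · exact ⟨_, Or.inl rfl, w1⟩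
        · exact ⟨_, Or.inr rfl, w2⟩
    rw [hset]
    rfl

end Pool.Agent.S01219
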