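import Pool.Statements.S01233
import Pool.Agent.Helper889.Na.Main
import Pool.Agent.Helper889.Na.NfB
import Pool.Agent.Helper889.Na.Transp

set_option autoImplicit false
open Pool Pool.MP_778634_al

namespace Pool.Agent.S01233

/-- There is a finite invertible automaton over a finite alphabet whose state transformations of finite words generate a group that has no invariant finitely additive probability mean and contains no free subgroup of rank 2. -/
theorem result :
    ∃ (d n : ℕ) (σ : Fin n → Equiv.Perm (Fin d)) (τ : Fin n → Fin d → Fin n)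
      (f : Fin n → Equiv.Perm (List (Fin d))),
      (∀ q : Fin n, f q [] = []) ∧
      (∀ (q : Fin n) (x : Fin d) (w : List (Fin d)),
          f q (x :: w) = σ q x :: f (τ q x) w) ∧
      (¬ ∃ m : Set ↥(Subgroup.closure (Set.range f)) → ℝ,
          (∀ A, 0 ≤ m A) ∧ m Set.univ = 1 ∧
          (∀ A B, Disjoint A B → m (A ∪ B) = m A + m B) ∧
          (∀ (g : ↥(Subgroup.closure (Set.range f))) A,
              m ((fun x => g * x) '' A) = m A)) ∧
      (¬ ∃ φ : FreeGroup (Fin 2) →* ↥(Subgroup.closure (Set.range f)),
          Function.Injective φ) := by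
  obtain ⟨c, -, -⟩ := Pool.Agent.Helper889.Na.core_ex
  refine Pool.Agent.Helper889.Na.transport ?_ Pool.Agent.Helper889.Na.no_free
  rintro ⟨m, h0, h1, hadd, hinv⟩
  exact c.no_mean m h0 h1 hadd hinv

end Pool.Agent.S01233
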