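import Pool.Statements.S01236
import Pool.Agent.Helper313.PowEmb

set_option autoImplicit false
open scoped Pointwise
open Pool Pool.MP_77870d_al

namespace Pool.Agent.S01236

open Pool.Agent.Helper313.PowEmb

/-- The counterexample: powers of one element s (here s k is the power k+1), for each m a cyclic
orbit of length m+1 on which s acts by rotation, and a zero. -/
inductive Q : Type
  | s (k : ℕ) : Q
  | q (m : ℕ) (j : ZMod (m + 1)) : Q
  | z : Q

namespace Q

/-- The product. -/
def mulQ : Q → Q → Q
  | s k, s l => s (k + l + 1)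
  | s k, q m j => q m (j + (k + 1))
  | q m j, s k => q m (j + (k + 1))
  | s _, z => z
  | q _ _, q _ _ => z
  | q _ _, z => z
  | z, _ => z

instance : Mul Q := ⟨mulQ⟩

theorem ss (k l : ℕ) : s k * s l = s (k + l + 1) := rfl
theorem sq (k m : ℕ) (j : ZMod (m + 1)) : s k * q m j = q m (j + (k + 1)) := rfl
theorem qs (k m : ℕ) (j : ZMod (m + 1)) : q m j * s k = q m (j + (k + 1)) := rfl
theorem sz (k : ℕ) : s k * z = z := rfl
theorem qq (m n : ℕ) (i : ZMod (m + 1)) (j : ZMod (n + 1)) : q m i * q n j = z := rfl
theorem qz (m : ℕ) (j : ZMod (m + 1)) : q m j * z = z := rfl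
theorem zx (x : Q) : z * x = z := rfl

instance : CommSemigroup Q where
  mul_assoc := by
    intro a b c
    cases a <;> cases b <;> cases c <;>
      simp only [ss, sq, qs, sz, qq, qz, zx, s.injEq, q.injEq, heq_eq_eq, true_and] <;>
      (try push_cast) <;> (try ring)
  mul_comm := by
    intro a b
    cases a <;> cases b <;>
      simp only [ss, sq, qs, sz, qq, qz, zx, s.injEq, q.injEq, heq_eq_eq, true_and] <;>
      (try ring)

end Q

open Q

/-- The size of the orbit of an element. -/
def idx : Q → ℕ
  | .s _ => 1
  | .q m _ => m + 1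
  | .z => 1

theorem idx_mul (x y : Q) : idx (x * y) = 1 ∨ idx (x * y) = idx x ∨ idx (x * y) = idx y := by
  cases x <;> cases y <;> simp [ss, sq, qs, sz, qq, qz, zx, idx]

theorem coe_s_pow (l k N : ℕ) :
    (WithOne.coe (s l) : WithOne Q) * (WithOne.coe (s k)) ^ N
      = WithOne.coe (s (l + N * (k + 1))) := by
  induction N with
  | zero => simp
  | succ N ih =>
    rw [pow_succ, ← mul_assoc, ih, ← WithOne.coe_mul, ss]
    congr 2; ring

theorem coe_q_pow (m k N : ℕ) (j : ZMod (m + 1)) :
    (WithOne.coe (q m j) : WithOne Q) * (WithOne.coe (s k)) ^ N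
      = WithOne.coe (q m (j + N * (k + 1))) := by
  induction N with
  | zero => simp
  | succ N ih =>
    rw [pow_succ, ← mul_assoc, ih, ← WithOne.coe_mul, qs]
    congr 2; push_cast; ring

theorem z_mul (Z : WithOne Q) : (WithOne.coe z : WithOne Q) * Z = WithOne.coe z := by
  induction Z with
  | one => rw [mul_one]
  | coe x => rw [← WithOne.coe_mul, zx]

theorem not_s (x : Q) (hx : ∀ k, x ≠ s k) (Z : WithOne Q) :
    ∀ k, (WithOne.coe x : WithOne Q) * Z ≠ WithOne.coe (s k) := by
  intro k
  induction Z with
  | one =>
    rw [mul_one]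
    intro h
    exact hx k (WithOne.coe_injective h)
  | coe y =>
    rw [← WithOne.coe_mul]
    intro h
    have h' := WithOne.coe_injective h
    cases x with
    | s l => exact hx l rfl
    | q m j => cases y <;> simp only [qs, qq, qz] at h' <;> cases h'
    | z => cases h'

theorem antiQ (r t : Q) (N : ℕ) (hN : 1 ≤ N) (hidx : idx r ∣ N) (Z : WithOne Q)
    (h : (WithOne.coe r : WithOne Q) * (WithOne.coe t) ^ N * Z = WithOne.coe r) :
    (WithOne.coe r : WithOne Q) * (WithOne.coe t) ^ N = WithOne.coe r := by
  obtain ⟨N', rfl⟩ : ∃ N', N = N' + 1 := ⟨N - 1, by omega⟩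
  cases r with
  | z => exact z_mul _
  | s l =>
    exfalso
    by_cases ht : ∃ k, t = s k
    · obtain ⟨k, rfl⟩ := ht
      rw [coe_s_pow] at h
      have hpos : 0 < (N' + 1) * (k + 1) := Nat.mul_pos (Nat.succ_pos _) (Nat.succ_pos _)
      induction Z with
      | one =>
        rw [mul_one] at h
        have h' := WithOne.coe_injective h
        injection h' with h'
        omega
      | coe y =>
        rw [← WithOne.coe_mul] at h
        have h' := WithOne.coe_injective h
        cases y with
        | s i =>
          rw [ss] at h'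
          injection h' with h'
          omega
        | q m j => rw [sq] at h'; cases h'
        | z => rw [sz] at h'; cases h'
    · push Not at ht
      have h1 : ∀ k, s l * t ≠ s k := by
        intro k
        cases t with
        | s i => exact absurd rfl (ht i)
        | q m j => rw [sq]; intro h; cases h
        | z => rw [sz]; intro h; cases h
      rw [pow_succ', ← mul_assoc, mul_assoc, ← WithOne.coe_mul] at h
      exact not_s _ h1 _ _ h
  | q m j =>
    cases t with
    | s k =>
      rw [coe_q_pow]
      congr 2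
      simp only [idx] at hidx
      have : ((N' + 1 : ℕ) : ZMod (m + 1)) = 0 := (ZMod.natCast_eq_zero_iff _ _).2 hidx
      rw [this, zero_mul, add_zero]
    | q m' j' =>
      exfalso
      rw [pow_succ', ← mul_assoc, mul_assoc, ← WithOne.coe_mul, qq, z_mul] at h
      have h' := WithOne.coe_injective h
      cases h'
    | z =>
      exfalso
      rw [pow_succ', ← mul_assoc, mul_assoc, ← WithOne.coe_mul, qz, z_mul] at h
      have h' := WithOne.coe_injective h
      cases h'

theorem local_embed (T : Subsemigroup Q)
    (hT : ∃ F : Finset Q, Subsemigroup.closure (F : Set Q) = T) :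
    ∃ (G : Type) (_ : Group G), IsMulTorsion G ∧
      ∃ f : T →ₙ* Set G, Function.Injective f := by
  obtain ⟨F, rfl⟩ := hT
  set P : ℕ := ∏ x ∈ F, idx x with hP
  have hPpos : 0 < P := by
    apply Finset.prod_pos
    intro x _
    cases x <;> simp [idx]
  have hdvd : ∀ x ∈ Subsemigroup.closure (F : Set Q), idx x ∣ P := by
    intro x hx
    induction hx using Subsemigroup.closure_induction with
    | mem x hx => exact Finset.dvd_prod_of_mem idx hx
    | mul x y _ _ ihx ihy =>
      rcases idx_mul x y with h | h | h <;> rw [h]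
      · exact one_dvd _
      · exact ihx
      · exact ihy
  obtain ⟨G, hG, hG1, f, hf, -⟩ := embed (S := Subsemigroup.closure (F : Set Q))
    (fun _ => 2 * P) (fun _ => by omega) (by
      intro r t Z _ h
      have hinj := WithOne.mapMulHom_injective
        (f := MulMemClass.subtype (Subsemigroup.closure (F : Set Q)))
        (fun a b hab => Subtype.ext hab)
      apply hinj
      have h2 := congrArg
        (WithOne.mapMulHom (MulMemClass.subtype (Subsemigroup.closure (F : Set Q)))) h
      simp only [map_mul, map_pow, WithOne.mapMulHom_coe] at h2 ⊢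
      exact antiQ _ _ _ (by omega) (Dvd.dvd.mul_left (hdvd _ r.2) 2) _ h2)
  exact ⟨G, hG.toGroup, hG1, f, hf⟩

theorem not_global : ¬ ∃ (G : Type) (_ : Group G), IsMulTorsion G ∧
      ∃ f : Q →ₙ* Set G, Function.Injective f := by
  rintro ⟨G, _, hG, f, hf⟩
  have hne : (f (s 0)).Nonempty := by
    by_contra h
    rw [Set.not_nonempty_iff_eq_empty] at h
    have h1 : f (s 1) = f (s 0) := by
      have : s 1 = s 0 * s 0 := rfl
      rw [this, map_mul, h, Set.empty_mul]
    have h2 := hf h1
    injection h2 with h2
    exact absurd h2 (by norm_num)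
  obtain ⟨a, ha⟩ := hne
  obtain ⟨N, hN, haN⟩ := isOfFinOrder_iff_pow_eq_one.1 (hG a)
  have hpow : ∀ k, a ^ (k + 1) ∈ f (s k) := by
    intro k
    induction k with
    | zero => simpa using ha
    | succ k ih =>
      have : s (k + 1) = s k * s 0 := by rw [ss]
      rw [this, map_mul, pow_succ]
      exact Set.mul_mem_mul ih ha
  have h1 : (1 : G) ∈ f (s (N - 1)) := by
    have := hpow (N - 1)
    rwa [Nat.sub_add_cancel hN, haN] at this
  have hsub : ∀ x : Q, f x ⊆ f (x * s (N - 1)) := by
    intro x g hg
    rw [map_mul]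
    exact ⟨g, hg, 1, h1, mul_one g⟩
  have hstep : ∀ i : ℕ, f (q N ((i * N : ℕ) : ZMod (N + 1)))
      ⊆ f (q N (((i + 1) * N : ℕ) : ZMod (N + 1))) := by
    intro i
    have h2 := hsub (q N ((i * N : ℕ) : ZMod (N + 1)))
    have h3 : q N ((i * N : ℕ) : ZMod (N + 1)) * s (N - 1)
        = q N (((i + 1) * N : ℕ) : ZMod (N + 1)) := by
      rw [qs]
      congr 1
      have : ((N - 1 : ℕ) : ZMod (N + 1)) + 1 = ((N : ℕ) : ZMod (N + 1)) := by
        rw [← Nat.cast_one (R := ZMod (N + 1)), ← Nat.cast_add, Nat.sub_add_cancel hN]
      rw [this]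
      push_cast
      ring
    rwa [h3] at h2
  have hchain : ∀ i : ℕ, f (q N ((1 * N : ℕ) : ZMod (N + 1)))
      ⊆ f (q N (((i + 1) * N : ℕ) : ZMod (N + 1))) := by
    intro i
    induction i with
    | zero => exact subset_rfl
    | succ i ih => exact ih.trans (hstep _)
  have h0 : ((((N + 1) * N : ℕ)) : ZMod (N + 1)) = ((0 * N : ℕ) : ZMod (N + 1)) := by
    rw [zero_mul, Nat.cast_zero, ZMod.natCast_eq_zero_iff]
    exact dvd_mul_right _ _
  have h4 : f (q N ((0 * N : ℕ) : ZMod (N + 1))) = f (q N ((1 * N : ℕ) : ZMod (N + 1))) := by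
    apply Set.Subset.antisymm
    · exact hstep 0
    · have := hchain N
      rwa [h0] at this
  have h5 := hf h4
  injection h5 with _ h5
  rw [zero_mul, one_mul, Nat.cast_zero] at h5
  have h6 := (ZMod.natCast_eq_zero_iff N (N + 1)).1 h5.symm
  have := Nat.le_of_dvd hN h6
  omega

/-- The negation of the preceding statement: For every semigroup S: if each finitely generated subsemigroup of S embeds into the semigroup of all subsets of some torsion group, then S itself embeds into the semigroup of all subsets of some torsion group. -/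
theorem result :
    ¬ (∀ (S : Type) [Semigroup S],
      (∀ T : Subsemigroup S, (∃ F : Finset S, Subsemigroup.closure (F : Set S) = T) →
        ∃ (G : Type) (_ : Group G), Monoid.IsTorsion G ∧
          ∃ f : T →ₙ* Set G, Function.Injective f) →
      ∃ (G : Type) (_ : Group G), Monoid.IsTorsion G ∧
        ∃ f : S →ₙ* Set G, Function.Injective f) := by
  intro h
  exact not_global (h Q local_embed)

end Pool.Agent.S01236
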