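import Pool.Statements.S01237
import Pool.Agent.Helper619.Split4.G_final

set_option autoImplicit false
open Pool Pool.MP_77d03c_al

namespace Pool.Agent.S01237

/-- There is a function f such that every nilpotent 2-group generated by at most d elements, having an automorphism φ of order 4 with x·φ(x)·φ²(x)·φ³(x)=1 for all x, has derived length at most f(d). -/
theorem result :
    ∃ f : ℕ → ℕ, ∀ (G : Type) [Group G], IsPGroup 2 G → Group.IsNilpotent G →
      ∀ d : ℕ, (∃ s : Finset G, s.card ≤ d ∧ Subgroup.closure (s : Set G) = ⊤) →
      ∀ φ : MulAut G, orderOf φ = 4 →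
        (∀ x : G, x * φ x * φ (φ x) * φ (φ (φ x)) = 1) →
        derivedSeries G (f d) = ⊥ := by
  exact Pool.Agent.Helper619.Split4.final

end Pool.Agent.S01237
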