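import Pool.Statements.S01242

set_option autoImplicit false
open Pool Pool.MP_783016_al

namespace Pool.Agent.S01242

open Polynomial

noncomputable section

/-- The coefficient ring `F_3[t]`. -/
abbrev K : Type := (ZMod 3)[X]

/-- The ambient ring: triples (indexed by `ZMod 3`) of polynomials in `x` over `F_3[t]`. -/
abbrev B : Type := ZMod 3 → K[X]

lemma three_K : (3 : K) = 0 := by
  have h : ((3 : ℕ) : K) = 0 := CharP.cast_eq_zero K 3
  exact_mod_cast h

lemma sum_three {M : Type} [AddCommMonoid M] (g : ZMod 3 → M) : ∑ i, g i = g 0 + g 1 + g 2 := by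
  exact Fin.sum_univ_three g

/-- The ring of triples with equal constant terms whose `x`-coefficients sum to zero. -/
def A : Subalgebra K[X] B where
  carrier := {g | (∀ i, (g i).coeff 0 = (g 0).coeff 0) ∧ ∑ i, (g i).coeff 1 = 0}
  mul_mem' := by
    rintro a b ⟨ha, ha'⟩ ⟨hb, hb'⟩
    refine ⟨fun i => ?_, ?_⟩
    · simp only [Pi.mul_apply, mul_coeff_zero]
      rw [ha i, hb i]
    · simp only [Pi.mul_apply, mul_coeff_one]
      have : ∀ i, (a i).coeff 0 * (b i).coeff 1 + (a i).coeff 1 * (b i).coeff 0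
          = (a 0).coeff 0 * (b i).coeff 1 + (b 0).coeff 0 * (a i).coeff 1 := by
        intro i; rw [ha i, hb i]; ring
      simp only [this]
      rw [Finset.sum_add_distrib, ← Finset.mul_sum, ← Finset.mul_sum, ha', hb']
      simp
  add_mem' := by
    rintro a b ⟨ha, ha'⟩ ⟨hb, hb'⟩
    refine ⟨fun i => ?_, ?_⟩
    · simp only [Pi.add_apply, coeff_add]
      rw [ha i, hb i]
    · simp only [Pi.add_apply, coeff_add]
      rw [Finset.sum_add_distrib, ha', hb']
      simp
  algebraMap_mem' := by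
    intro r
    refine ⟨fun i => rfl, ?_⟩
    have : ∀ i : ZMod 3, ((algebraMap K[X] B r) i) = r := fun i => rfl
    simp only [this, sum_three]
    have h3 := three_K
    linear_combination (r.coeff 1) * h3

instance : IsNoetherian K[X] A :=
  inferInstanceAs (IsNoetherian K[X] (Subalgebra.toSubmodule A))

instance : IsNoetherianRing A :=
  isNoetherian_of_tower K[X] inferInstance

/-- the element `t + i` -/
def u (i : ZMod 3) : K := X + C i

/-- the element `x` of `A`. -/
def xA : A := algebraMap K[X] A X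

lemma xA_coe (i : ZMod 3) : (xA : B) i = X := rfl

lemma xA_pow_coe (n : ℕ) (i : ZMod 3) : ((xA ^ n : A) : B) i = X ^ n := by
  rw [SubmonoidClass.coe_pow, Pi.pow_apply, xA_coe]

lemma sum_u : ∑ i, u i = 0 := by
  rw [sum_three]
  have h3 := three_K
  have h2 : (C (0 : ZMod 3) + C 1 + C 2 : K) = 0 := by
    rw [← C_add, ← C_add]
    have : (0 + 1 + 2 : ZMod 3) = 0 := by decide
    rw [this, C_0]
  unfold u
  linear_combination X * h3 + h2

/-- the element `f = ((t + i) x)_i` of `A`. -/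
def f : A := ⟨fun i => C (u i) * X, by
  refine ⟨fun i => by simp, ?_⟩
  simp only [coeff_C_mul, coeff_X_one, mul_one]
  exact sum_u⟩

lemma f_coe (i : ZMod 3) : (f : B) i = C (u i) * X := rfl

lemma f_pow_coe (m : ℕ) (i : ZMod 3) : ((f ^ m : A) : B) i = C (u i ^ m) * X ^ m := by
  rw [SubmonoidClass.coe_pow, Pi.pow_apply, f_coe, mul_pow, C_pow]

/-- the power sum -/
def P (m : ℕ) : K := ∑ i, u i ^ m

lemma xA_pow_dvd_low (m n : ℕ) (h : n + 2 ≤ m) : xA ^ n ∣ f ^ m := by
  refine ⟨⟨fun i => C (u i ^ m) * X ^ (m - n), fun i => ?_, ?_⟩, ?_⟩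
  · simp only [coeff_C_mul, coeff_X_pow]
    rw [if_neg (by omega)]; simp
  · simp only [coeff_C_mul, coeff_X_pow]
    rw [if_neg (by omega)]; simp
  · apply Subtype.ext
    funext i
    rw [f_pow_coe]
    change _ = ((xA ^ n : A) : B) i * (C (u i ^ m) * X ^ (m - n))
    rw [xA_pow_coe]
    have : X ^ m = (X : K[X]) ^ n * X ^ (m - n) := by rw [← pow_add]; congr 1; omega
    rw [this]; ring

lemma dvd_pred_iff (m : ℕ) : xA ^ m ∣ f ^ (m + 1) ↔ P (m + 1) = 0 := by
  constructor
  · rintro ⟨g, hg⟩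
    have h1 : ∀ i, (g : B) i = C (u i ^ (m + 1)) * X := by
      intro i
      have h2 : ((f ^ (m + 1) : A) : B) i = ((xA ^ m * g : A) : B) i := by rw [hg]
      have h3 : ((xA ^ m * g : A) : B) i = ((xA ^ m : A) : B) i * (g : B) i := rfl
      rw [h3, f_pow_coe, xA_pow_coe] at h2
      have h4 : (X : K[X]) ^ m ≠ 0 := pow_ne_zero _ X_ne_zero
      apply mul_left_cancel₀ h4
      rw [← h2]; ring
    have h5 := g.2.2
    have h6 : ∀ i, ((g : B) i).coeff 1 = u i ^ (m + 1) := by
      intro i; rw [h1 i, coeff_C_mul, coeff_X_one, mul_one]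
    simp only [h6] at h5
    exact h5
  · intro h
    refine ⟨⟨fun i => C (u i ^ (m + 1)) * X, fun i => by simp, ?_⟩, ?_⟩
    · simp only [coeff_C_mul, coeff_X_one, mul_one]
      exact h
    · apply Subtype.ext
      funext i
      rw [f_pow_coe]
      change _ = ((xA ^ m : A) : B) i * (C (u i ^ (m + 1)) * X)
      rw [xA_pow_coe]
      ring

lemma not_dvd_self (m : ℕ) : ¬ xA ^ (m + 1) ∣ f ^ (m + 1) := by
  rintro ⟨g, hg⟩
  have h1 : ∀ i, (g : B) i = C (u i ^ (m + 1)) := by
    intro i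
    have h2 : ((f ^ (m + 1) : A) : B) i = ((xA ^ (m + 1) * g : A) : B) i := by rw [hg]
    have h3 : ((xA ^ (m + 1) * g : A) : B) i = ((xA ^ (m + 1) : A) : B) i * (g : B) i := rfl
    rw [h3, f_pow_coe, xA_pow_coe] at h2
    have h4 : (X : K[X]) ^ (m + 1) ≠ 0 := pow_ne_zero _ X_ne_zero
    apply mul_left_cancel₀ h4
    rw [← h2]; ring
  have h5 := g.2.1 1
  rw [h1 1, h1 0] at h5
  simp only [coeff_C_zero] at h5
  have h6 := congrArg (Polynomial.eval (0 : ZMod 3)) h5
  unfold u at h6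
  simp at h6

lemma P_pow (k : ℕ) : P (3 ^ k) = 0 := by
  unfold P
  have h : ∀ i, u i ^ 3 ^ k = X ^ 3 ^ k + C i := by
    intro i
    unfold u
    rw [add_pow_char_pow, ← C_pow, ZMod.pow_card_pow]
  simp only [h]
  rw [sum_three]
  have h3 := three_K
  have h2 : (C (0 : ZMod 3) + C 1 + C 2 : K) = 0 := by
    rw [← C_add, ← C_add]
    have : (0 + 1 + 2 : ZMod 3) = 0 := by decide
    rw [this, C_0]
  linear_combination (X ^ 3 ^ k) * h3 + h2

lemma P_ne (k T : ℕ) (hT : 0 < T) (hk : T < 3 ^ k) : P (3 ^ k + T) ≠ 0 := by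
  intro h0
  have h : ∀ i, u i ^ (3 ^ k + T) = X ^ 3 ^ k * u i ^ T + C i * u i ^ T := by
    intro i
    rw [pow_add]
    have : u i ^ 3 ^ k = X ^ 3 ^ k + C i := by
      unfold u
      rw [add_pow_char_pow, ← C_pow, ZMod.pow_card_pow]
    rw [this]; ring
  unfold P at h0
  simp only [h] at h0
  rw [Finset.sum_add_distrib, ← Finset.mul_sum] at h0
  set β : K := ∑ i, C i * u i ^ T with hβ
  have hdvd : (X : K) ^ 3 ^ k ∣ β := by
    refine ⟨- ∑ i, u i ^ T, ?_⟩
    linear_combination h0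
  have hdeg : β.natDegree ≤ T := by
    apply natDegree_sum_le_of_forall_le
    intro i _
    refine (natDegree_C_mul_le _ _).trans ?_
    refine (natDegree_pow_le).trans ?_
    have : (u i).natDegree ≤ 1 := by
      unfold u
      exact (natDegree_X_add_C i).le
    calc T * (u i).natDegree ≤ T * 1 := Nat.mul_le_mul_left _ this
      _ = T := mul_one _
  have hz : β = 0 := by
    apply eq_zero_of_dvd_of_natDegree_lt hdvd
    rw [natDegree_X_pow]
    omega
  have h6 := congrArg (Polynomial.eval (2 : ZMod 3)) hz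
  rw [hβ, sum_three] at h6
  unfold u at h6
  simp only [eval_add, eval_mul, eval_pow, eval_X, eval_C, eval_zero] at h6
  have e1 : (2 + 1 : ZMod 3) = 0 := by decide
  have e2 : (2 + 2 : ZMod 3) = 1 := by decide
  rw [e1, e2, zero_pow (by omega)] at h6
  revert h6
  simp
  decide

/-- the ideal `I = (x)`. -/
def I : Ideal A := Ideal.span {xA}

/-- the ideal `J = (f)`. -/
def J : Ideal A := Ideal.span {f}

lemma le_iff (m n : ℕ) : J ^ m ≤ I ^ n ↔ xA ^ n ∣ f ^ m := by
  unfold I J
  rw [Ideal.span_singleton_pow, Ideal.span_singleton_pow, Ideal.span_singleton_le_span_singleton]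

lemma v_eq (m : ℕ) : (P (m + 2) = 0 → sSup {n : ℕ | J ^ (m + 2) ≤ I ^ n} = m + 1) ∧
    (P (m + 2) ≠ 0 → sSup {n : ℕ | J ^ (m + 2) ≤ I ^ n} = m) := by
  have hno : ∀ n, m + 2 ≤ n → ¬ J ^ (m + 2) ≤ I ^ n := by
    intro n hn h
    rw [le_iff] at h
    exact not_dvd_self (m + 1) ((pow_dvd_pow _ hn).trans h)
  constructor
  · intro hP
    have hset : {n : ℕ | J ^ (m + 2) ≤ I ^ n} = Set.Iic (m + 1) := by
      ext n
      simp only [Set.mem_ofPred_eq, Set.mem_Iic]
      constructor
      · intro h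
        by_contra hn
        exact hno n (by omega) h
      · intro h
        rw [le_iff]
        have : xA ^ (m + 1) ∣ f ^ (m + 2) := (dvd_pred_iff (m + 1)).2 hP
        exact (pow_dvd_pow _ h).trans this
    rw [hset, csSup_Iic]
  · intro hP
    have hset : {n : ℕ | J ^ (m + 2) ≤ I ^ n} = Set.Iic m := by
      ext n
      simp only [Set.mem_ofPred_eq, Set.mem_Iic]
      constructor
      · intro h
        by_contra hn
        rcases Nat.lt_or_ge n (m + 2) with h1 | h1
        · have h2 : n = m + 1 := by omega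
          subst h2
          rw [le_iff] at h
          exact hP ((dvd_pred_iff (m + 1)).1 h)
        · exact hno n h1 h
      · intro h
        rw [le_iff]
        exact xA_pow_dvd_low _ _ (by omega)
    rw [hset, csSup_Iic]

lemma xA_pow_ne (n : ℕ) : xA ^ n ≠ 0 := by
  intro h
  have h1 : ((xA ^ n : A) : B) 0 = ((0 : A) : B) 0 := by rw [h]
  rw [xA_pow_coe] at h1
  exact pow_ne_zero n X_ne_zero h1

lemma u_ne (i : ZMod 3) : u i ≠ 0 := by
  unfold u
  exact X_add_C_ne_zero i

lemma f_pow_ne (n : ℕ) : f ^ n ≠ 0 := by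
  intro h
  have h1 : ((f ^ n : A) : B) 0 = ((0 : A) : B) 0 := by rw [h]
  rw [f_pow_coe] at h1
  have h2 : C (u 0 ^ n) * (X : K[X]) ^ n ≠ 0 :=
    mul_ne_zero (C_ne_zero.2 (pow_ne_zero _ (u_ne 0))) (pow_ne_zero n X_ne_zero)
  exact h2 h1

lemma iInf_I : (⨅ n : ℕ, I ^ n) = ⊥ := by
  rw [eq_bot_iff]
  intro g hg
  rw [Ideal.mem_iInf] at hg
  rw [Ideal.mem_bot]
  apply Subtype.ext
  funext i
  change (g : B) i = 0
  by_contra hne
  have h1 := hg (((g : B) i).natDegree + 1)
  unfold I at h1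
  rw [Ideal.span_singleton_pow, Ideal.mem_span_singleton] at h1
  obtain ⟨c, hc⟩ := h1
  have h2 : (g : B) i = X ^ (((g : B) i).natDegree + 1) * (c : B) i := by
    have h3 : (g : B) i = ((xA ^ (((g : B) i).natDegree + 1) * c : A) : B) i := by rw [← hc]
    have h4 : ((xA ^ (((g : B) i).natDegree + 1) * c : A) : B) i
      = ((xA ^ (((g : B) i).natDegree + 1) : A) : B) i * (c : B) i := rfl
    rw [h4, xA_pow_coe] at h3
    exact h3
  apply hne
  apply eq_zero_of_dvd_of_natDegree_lt (⟨_, h2⟩ : (X : K[X]) ^ (((g : B) i).natDegree + 1) ∣ _)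
  rw [natDegree_X_pow]
  omega

lemma J_le : J ≤ I.radical := by
  unfold J
  rw [Ideal.span_singleton_le_iff_mem]
  refine ⟨3, ?_⟩
  unfold I
  rw [Ideal.mem_span_singleton]
  have := xA_pow_dvd_low 3 1 (by norm_num)
  rwa [pow_one] at this

/-- The negation of the preceding statement: Let A be Noetherian, J ⊆ rad I, I not nilpotent, ⋂ Iⁿ = 0, J not nilpotent, and v(m) the largest n with Jᵐ ⊆ Iⁿ. Then some t > 0 satisfies v(m+1+t) − v(m+t) = v(m+1) − v(m) for all large m. -/
theorem result :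
    ¬ (∀ (A : Type) [CommRing A] [IsNoetherianRing A] (I J : Ideal A),
      J ≤ I.radical → (∀ n : ℕ, I ^ n ≠ ⊥) → (⨅ n : ℕ, I ^ n) = ⊥ →
      (∀ m : ℕ, J ^ m ≠ ⊥) →
      ∃ t : ℕ, 0 < t ∧ ∃ M : ℕ, ∀ m : ℕ, M ≤ m →
        ((sSup {n : ℕ | J ^ (m + 1 + t) ≤ I ^ n} : ℕ) : ℤ)
            - ((sSup {n : ℕ | J ^ (m + t) ≤ I ^ n} : ℕ) : ℤ)
          = ((sSup {n : ℕ | J ^ (m + 1) ≤ I ^ n} : ℕ) : ℤ)
            - ((sSup {n : ℕ | J ^ m ≤ I ^ n} : ℕ) : ℤ)) := by
  intro H
  obtain ⟨t, ht, M, hM⟩ := H A I J J_le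
    (by
      intro n
      unfold I
      rw [Ideal.span_singleton_pow, Ne, Ideal.span_singleton_eq_bot]
      exact xA_pow_ne n)
    iInf_I
    (by
      intro n
      unfold J
      rw [Ideal.span_singleton_pow, Ne, Ideal.span_singleton_eq_bot]
      exact f_pow_ne n)
  -- the sequence `v`
  let v : ℕ → ℤ := fun m => ((sSup {n : ℕ | J ^ m ≤ I ^ n} : ℕ) : ℤ)
  have hv0 : ∀ m, P (m + 2) = 0 → v (m + 2) = m + 1 := by
    intro m h
    have := (v_eq m).1 h
    simp only [v]
    rw [this]; push_cast; ring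
  have hv1 : ∀ m, P (m + 2) ≠ 0 → v (m + 2) = m := by
    intro m h
    have := (v_eq m).2 h
    simp only [v]
    rw [this]
  have hb : ∀ m : ℕ, 2 ≤ m → (m : ℤ) - 2 ≤ v m ∧ v m ≤ (m : ℤ) - 1 := by
    intro m hm
    obtain ⟨k, rfl⟩ : ∃ k, m = k + 2 := ⟨m - 2, by omega⟩
    by_cases h : P (k + 2) = 0
    · rw [hv0 k h]; push_cast; constructor <;> linarith
    · rw [hv1 k h]; push_cast; constructor <;> linarith
  have hper : ∀ m, M ≤ m → v (m + 1 + t) - v (m + t) = v (m + 1) - v m := hM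
  -- the difference is constant from `M` on
  have hconst : ∀ j m, M ≤ m → v (m + j + t) - v (m + j) = v (m + t) - v m := by
    intro j
    induction j with
    | zero => intro m _; simp
    | succ j ih =>
      intro m hm
      have h1 := hper (m + j) (by omega)
      have h2 := ih m hm
      have e1 : m + (j + 1) + t = m + j + 1 + t := by ring
      have e2 : m + (j + 1) = m + j + 1 := by ring
      rw [e1, e2]
      linarith
  -- choose a large power of three
  set k := M + t + 2 with hk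
  have hlt : k < 3 ^ k := Nat.lt_pow_self (by norm_num)
  have hq0 : v (3 ^ k) = (3 ^ k : ℕ) - 1 := by
    obtain ⟨a, ha⟩ : ∃ a, 3 ^ k = a + 2 := ⟨3 ^ k - 2, by omega⟩
    have := hv0 a (by rw [← ha]; exact P_pow k)
    rw [ha, this]; push_cast; ring
  have hq1 : v (3 ^ k + t) = (3 ^ k : ℕ) + t - 2 := by
    obtain ⟨a, ha⟩ : ∃ a, 3 ^ k + t = a + 2 := ⟨3 ^ k + t - 2, by omega⟩
    have := hv1 a (by rw [← ha]; exact P_ne k t ht (by omega))
    rw [ha, this]
    have : ((3 ^ k : ℕ) : ℤ) + t = a + 2 := by exact_mod_cast ha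
    linarith
  -- the constant difference is `t - 1`
  set N := M + 2 with hN
  have hc : ∀ j, v (N + j + t) - v (N + j) = t - 1 := by
    intro j
    have h1 := hconst (j + 2) M le_rfl
    have h2 := hconst (3 ^ k - M) M le_rfl
    have e1 : M + (3 ^ k - M) = 3 ^ k := by omega
    rw [e1, hq0, hq1] at h2
    have e2 : M + (j + 2) = N + j := by omega
    rw [e2] at h1
    rw [h1]
    linarith
  have c1 := hc 0
  have c2 := hc t
  have b1 := hb (N + 0) (by omega)
  have b2 := hb (N + t + t) (by omega)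
  have e : N + 0 + t = N + t := by ring
  rw [e] at c1
  push_cast at b1 b2
  linarith [b1.1, b1.2, b2.1, b2.2]

end

end Pool.Agent.S01242
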