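import Pool.Statements.S01244
import Pool.Agent.Helper218.Ex3

set_option autoImplicit false
open Pool Pool.MP_783189_al
open Pool.Agent.Helper218

namespace Pool.Agent.S01244

/-- one step of a composition series -/
theorem step {G : Type} [Group G] (A C : Subgroup G) (hAC : A ≤ C) (hn : (A.subgroupOf C).Normal)
    (hp : Nat.Prime (A.subgroupOf C).index) :
    A ≤ C ∧ (A.subgroupOf C).Normal ∧ A.subgroupOf C ≠ ⊤ ∧
      ∀ M : Subgroup ↥C, M.Normal → A.subgroupOf C ≤ M → M = A.subgroupOf C ∨ M = ⊤ := by
  refine ⟨hAC, hn, ?_, ?_⟩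
  · intro h
    rw [h, Subgroup.index_top] at hp
    exact Nat.not_prime_one hp
  · intro M _ hM
    have h1 := Subgroup.relIndex_mul_index hM
    have h2 : Nat.Prime ((A.subgroupOf C).relIndex M * M.index) := by rw [h1]; exact hp
    rcases Nat.prime_mul_iff.1 h2 with ⟨_, h3⟩ | ⟨_, h3⟩
    · right
      exact Subgroup.index_eq_one.1 h3
    · left
      exact le_antisymm (Subgroup.relIndex_eq_one.1 h3) hM

theorem card_T7 : Nat.card T7 = 3 := by
  have h : IsPrimitiveRoot (2 : ZMod 7) 3 := by
    apply IsPrimitiveRoot.mk_of_lt _ (by norm_num) (by decide)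
    intro l h1 h2
    interval_cases l <;> decide
  exact h.card_rootsOfUnity

theorem card_ker : Nat.card (E.proj (V := ZMod 7)).ker = 7 := by
  have e : (E.proj (V := ZMod 7)).ker ≃ ZMod 7 :=
    { toFun := fun x => x.1.v
      invFun := fun v => ⟨⟨1, v⟩, rfl⟩
      left_inv := by
        rintro ⟨x, hx⟩
        have hx' : x.t = 1 := hx
        exact Subtype.ext (E.ext hx'.symm rfl)
      right_inv := fun v => rfl }
  rw [Nat.card_congr e, Nat.card_zmod]

theorem comp : ∃ (n : ℕ) (s : Fin (n + 1) → Subgroup (E (ZMod 7))), s 0 = ⊥ ∧ s (Fin.last n) = ⊤ ∧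
      ∀ i : Fin n, s i.castSucc ≤ s i.succ ∧
        ((s i.castSucc).subgroupOf (s i.succ)).Normal ∧
        (s i.castSucc).subgroupOf (s i.succ) ≠ ⊤ ∧
        ∀ M : Subgroup ↥(s i.succ), M.Normal →
          (s i.castSucc).subgroupOf (s i.succ) ≤ M →
            M = (s i.castSucc).subgroupOf (s i.succ) ∨ M = ⊤ := by
  refine ⟨2, ![⊥, (E.proj (V := ZMod 7)).ker, ⊤], rfl, rfl, ?_⟩
  intro i
  fin_cases i
  · apply step ⊥ (E.proj (V := ZMod 7)).ker bot_le
    · rw [Subgroup.bot_subgroupOf]; infer_instance
    · rw [Subgroup.bot_subgroupOf, Subgroup.index_bot, card_ker]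
      norm_num
  · apply step (E.proj (V := ZMod 7)).ker ⊤ le_top
    · infer_instance
    · have h1 : ((E.proj (V := ZMod 7)).ker.subgroupOf ⊤).index =
          (E.proj (V := ZMod 7)).ker.index := Subgroup.relIndex_top_right _
      rw [h1, Subgroup.index_ker]
      have h2 : (E.proj (V := ZMod 7)).range = ⊤ :=
        MonoidHom.range_eq_top.2 (fun t => ⟨⟨t, 0⟩, rfl⟩)
      rw [h2, Subgroup.card_top, card_T7]
      norm_num


/-- The negation of the preceding statement: For every group G with a composition series, only finitely many Fitting classes are contained in the smallest Fitting class containing G (classes closed under isomorphism, normal subgroups and products of two normal subgroups). -/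
theorem result :
    ¬ (∀ (G : Type) [Group G],
    (∃ (n : ℕ) (s : Fin (n + 1) → Subgroup G), s 0 = ⊥ ∧ s (Fin.last n) = ⊤ ∧
      ∀ i : Fin n, s i.castSucc ≤ s i.succ ∧
        ((s i.castSucc).subgroupOf (s i.succ)).Normal ∧
        (s i.castSucc).subgroupOf (s i.succ) ≠ ⊤ ∧
        ∀ M : Subgroup ↥(s i.succ), M.Normal →
          (s i.castSucc).subgroupOf (s i.succ) ≤ M →
            M = (s i.castSucc).subgroupOf (s i.succ) ∨ M = ⊤) →
    Set.Finite {F : (H : Type) → Group H → Prop |
      ((∀ (H K : Type) (iH : Group H) (iK : Group K), Nonempty (H ≃* K) → F H iH → F K iK) ∧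
       (∀ (H : Type) (iH : Group H) (N : Subgroup H), N.Normal → F H iH →
          F (↥N) inferInstance) ∧
       (∀ (H : Type) (iH : Group H) (N M : Subgroup H), N.Normal → M.Normal →
          F (↥N) inferInstance → F (↥M) inferInstance → F (↥(N ⊔ M)) inferInstance)) ∧
      ∀ (K : Type) (iK : Group K), F K iK →
        ∀ E : (H : Type) → Group H → Prop,
          ((∀ (H K : Type) (iH : Group H) (iK : Group K), Nonempty (H ≃* K) → E H iH → E K iK) ∧
           (∀ (H : Type) (iH : Group H) (N : Subgroup H), N.Normal → E H iH →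
              E (↥N) inferInstance) ∧
           (∀ (H : Type) (iH : Group H) (N M : Subgroup H), N.Normal → M.Normal →
              E (↥N) inferInstance → E (↥M) inferInstance → E (↥(N ⊔ M)) inferInstance)) →
          E G inferInstance → E K iK}) := by
  intro hall
  have hfin := hall (E (ZMod 7)) comp
  revert hfin
  -- the classes
  let Fm : ℕ → (H : Type) → Group H → Prop := fun m H iH =>
    (@Cls 7 3 (m + 1) H iH) ∧ ∀ Q : (H : Type) → Group H → Prop,
          ((∀ (H K : Type) (iH : Group H) (iK : Group K), Nonempty (H ≃* K) → Q H iH → Q K iK) ∧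
           (∀ (H : Type) (iH : Group H) (N : Subgroup H), N.Normal → Q H iH →
              Q (↥N) inferInstance) ∧
           (∀ (H : Type) (iH : Group H) (N M : Subgroup H), N.Normal → M.Normal →
              Q (↥N) inferInstance → Q (↥M) inferInstance → Q (↥(N ⊔ M)) inferInstance)) →
          Q (E (ZMod 7)) inferInstance → Q H iH
  have hinj : Function.Injective Fm := by
    intro m k hmk
    by_contra hne
    let F := GaloisField 7 (m + 1)
    have hcard : Nat.card F = 7 ^ (m + 1) := GaloisField.card 7 (m + 1) (Nat.succ_ne_zero m)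
    have h1 : Fm m (B (LinearMap.id : F →ₗ[ZMod 7] F)) inferInstance := by
      refine ⟨B.cls inferInstance Function.surjective_id hcard, ?_⟩
      rintro Q ⟨hi, hs, hn⟩ hQ
      exact FitCls.mem_B (Q := fun H [i : Group H] => Q H i)
        ⟨fun H K iH iK => hi H K iH iK, fun H iH => hs H iH, fun H iH => hn H iH⟩ hQ
    rw [hmk] at h1
    refine B.not_cls (lam := (LinearMap.id : F →ₗ[ZMod 7] F)) inferInstance
      Function.surjective_id ?_ h1.1
    rw [hcard]
    intro h2
    have h3 := Nat.pow_right_injective (by norm_num : 2 ≤ 7) h2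
    omega
  apply Set.infinite_of_injective_forall_mem hinj
  intro m
  refine ⟨⟨?_, ?_, ?_⟩, ?_⟩
  · rintro H K iH iK ⟨e⟩ hH
    refine ⟨Cls_iso e hH.1, ?_⟩
    intro Q hQ hG
    exact hQ.1 H K iH iK ⟨e⟩ (hH.2 Q hQ hG)
  · intro H iH N hN hH
    refine ⟨Cls_normal (by norm_num) N hN hH.1, ?_⟩
    intro Q hQ hG
    exact hQ.2.1 H iH N hN (hH.2 Q hQ hG)
  · intro H iH N M hN hM h1 h2
    refine ⟨Cls_sup (by norm_num) (by norm_num) N M hN hM h1.1 h2.1, ?_⟩
    intro Q hQ hG
    exact hQ.2.2 H iH N M hN hM (h1.2 Q hQ hG) (h2.2 Q hQ hG)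
  · intro H iH hH Q hQ hG
    exact hH.2 Q hQ hG

end Pool.Agent.S01244
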