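import Pool.Statements.S01247
import Mathlib

set_option autoImplicit false
open Pool Pool.MP_78970a_al

namespace Pool.Agent.S01247

/-
Overview. We build a countable simple subgroup of SL(2,C) in which only the identity has a trace
of the form m + 1/m with m a root of unity.  Call a countable subgroup with that trace property
good.  Extension step: given a good group G and x, y in G with y not 1, there are new elements
c1, c2, h such that the group generated by G, c1, c2, h is good and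
  h (y c1 y c1^-1) h^-1 = x c2 y c2^-1,
so that x lies in the normal closure of y.  The elements c1, c2 are chosen with polynomial entries
in a parameter so that y c1 y c1^-1 and x c2 y c2^-1 have the same trace, and h is a generic
conjugator; goodness follows from a leading coefficient (ping-pong) argument for words.
Iterating over all pairs gives the simple group.
-/

open Matrix Polynomial

abbrev MC := Matrix (Fin 2) (Fin 2) ℂ
abbrev SLC := Matrix.SpecialLinearGroup (Fin 2) ℂ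
abbrev PM := Matrix (Fin 2) (Fin 2) ℂ[X]

/-- The trace of an element of SL(2,C). -/
def tr (g : SLC) : ℂ := Matrix.trace (g : MC)

/-- the traces of elements of SL(2,C) whose eigenvalues are roots of unity -/
def Z : Set ℂ := {e | ∃ μ : ℂ, (∃ n : ℕ, 0 < n ∧ μ ^ n = 1) ∧ e = μ + μ⁻¹}

theorem Z_countable : Z.Countable := by
  have : Z ⊆ ⋃ n : ℕ, (fun μ : ℂ => μ + μ⁻¹) '' {μ | (X ^ (n + 1) - 1 : ℂ[X]).IsRoot μ} := by
    rintro e ⟨μ, ⟨n, hn, hμ⟩, rfl⟩
    rw [Set.mem_iUnion]
    refine ⟨n - 1, μ, ?_, rfl⟩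
    simp only [Set.mem_ofPred_eq, IsRoot.def, eval_sub, eval_pow, eval_X, eval_one]
    rw [Nat.sub_add_cancel hn, hμ, sub_self]
  refine Set.Countable.mono this (Set.countable_iUnion fun n => ?_)
  apply Set.Countable.image
  apply Set.Finite.countable
  apply Polynomial.finite_setOfPred_isRoot
  intro h
  have := congrArg (Polynomial.eval 0) h
  simp at this

theorem two_mem_Z : (2 : ℂ) ∈ Z := ⟨1, ⟨1, one_pos, by simp⟩, by norm_num⟩

theorem neg_two_mem_Z : (-2 : ℂ) ∈ Z := ⟨-1, ⟨2, two_pos, by norm_num⟩, by norm_num⟩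

/-- A countable subgroup in which only the identity has a trace in `Z`. -/
def Good (G : Subgroup SLC) : Prop :=
  (G : Set SLC).Countable ∧ ∀ g ∈ G, tr g ∈ Z → g = 1

theorem tr_mul_comm (a b : SLC) : tr (a * b) = tr (b * a) := by
  simp only [tr, Matrix.SpecialLinearGroup.coe_mul]
  exact Matrix.trace_mul_comm _ _

theorem tr_one : tr (1 : SLC) = 2 := by
  simp [tr]

/-- constant polynomial matrix -/
noncomputable def pm (g : SLC) : PM := (g : MC).map C

/-- evaluation of a polynomial matrix -/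
noncomputable def ev (s : ℂ) : PM →+* MC := (Polynomial.evalRingHom s).mapMatrix

theorem ev_pm (s : ℂ) (g : SLC) : ev s (pm g) = (g : MC) := by
  ext i j
  simp [ev, pm]

section words

variable {ι : Type}

noncomputable def HP (H : ι → PM) (L : List (SLC × ι)) : PM :=
  (L.map (fun p => pm p.1 * H p.2)).prod

noncomputable def val (h : ι → SLC) (L : List (SLC × ι)) : SLC :=
  (L.map (fun p => p.1 * h p.2)).prod

theorem HP_nil (H : ι → PM) : HP H [] = 1 := by simp [HP]
theorem HP_cons (H : ι → PM) (p : SLC × ι) (L : List (SLC × ι)) :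
    HP H (p :: L) = pm p.1 * H p.2 * HP H L := by simp [HP]
theorem val_nil (h : ι → SLC) : val h [] = 1 := by simp [val]
theorem val_cons (h : ι → SLC) (p : SLC × ι) (L : List (SLC × ι)) :
    val h (p :: L) = p.1 * h p.2 * val h L := by simp [val]
theorem val_append (h : ι → SLC) (L L' : List (SLC × ι)) :
    val h (L ++ L') = val h L * val h L' := by simp [val]
theorem HP_append (H : ι → PM) (L L' : List (SLC × ι)) :
    HP H (L ++ L') = HP H L * HP H L' := by simp [HP]

theorem ev_HP (H : ι → PM) (h : ι → SLC) (s : ℂ) (hh : ∀ a, ev s (H a) = s • (h a : MC))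
    (L : List (SLC × ι)) : ev s (HP H L) = s ^ L.length • (val h L : MC) := by
  induction L with
  | nil => simp [HP_nil, val_nil]
  | cons p L ih =>
    rw [HP_cons, val_cons, map_mul, map_mul, ih, ev_pm, hh]
    simp only [Matrix.SpecialLinearGroup.coe_mul, List.length_cons, pow_succ,
      Matrix.mul_smul, Matrix.smul_mul, smul_smul]

/-- the pairing deciding whether two letters separated by a group element cancel to leading order -/
def pr (φ v : ι → (Fin 2 → ℂ)) (a : ι) (g : SLC) (b : ι) : ℂ := φ a ⬝ᵥ ((g : MC) *ᵥ v b)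

def Rel (φ v : ι → (Fin 2 → ℂ)) (p q : SLC × ι) : Prop := pr φ v p.2 q.1 q.2 ≠ 0

theorem lead (H : ι → PM) (φ v : ι → (Fin 2 → ℂ))
    (hH : ∀ a, ev 0 (H a) = Matrix.vecMulVec (v a) (φ a))
    (L : List (SLC × ι)) : ∀ p : SLC × ι, List.IsChain (Rel φ v) (p :: L) →
      ∃ c : ℂ, c ≠ 0 ∧ ev 0 (HP H (p :: L)) =
        c • Matrix.vecMulVec ((p.1 : MC) *ᵥ v p.2) (φ ((p :: L).getLast (by simp)).2) := by
  induction L with
  | nil =>
    intro p _
    refine ⟨1, one_ne_zero, ?_⟩
    rw [HP_cons, HP_nil, mul_one, map_mul, ev_pm, hH, one_smul, Matrix.mul_vecMulVec,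
      List.getLast_singleton]
  | cons q L ih =>
    intro p hc
    rw [List.isChain_cons_cons] at hc
    obtain ⟨c, hc0, hc1⟩ := ih q hc.2
    refine ⟨pr φ v p.2 q.1 q.2 * c, mul_ne_zero hc.1 hc0, ?_⟩
    have e1 : (p.1 : MC) * Matrix.vecMulVec (v p.2) (φ p.2)
        = Matrix.vecMulVec ((p.1 : MC) *ᵥ v p.2) (φ p.2) := Matrix.mul_vecMulVec _ _ _
    rw [HP_cons, map_mul, map_mul, ev_pm, hH, hc1, Matrix.mul_smul, e1,
      Matrix.vecMulVec_mul_vecMulVec]
    have : (p :: q :: L).getLast (by simp) = (q :: L).getLast (by simp) := by simp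
    rw [this]
    simp only [pr]
    ext i j
    simp only [Matrix.smul_apply, Matrix.vecMulVec_apply, smul_eq_mul, Pi.smul_apply]
    ring

/-- Every element of the group generated by `G` and the letters is a reduced word. -/
theorem reduced (G : Subgroup SLC) (h : ι → SLC) (φ v : ι → (Fin 2 → ℂ))
    (hp : ∀ a b, ∀ g ∈ G, pr φ v a g b = 0 → h a * g * h b ∈ G)
    (hi : ∀ a, ∃ b, (h a)⁻¹ = h b) :
    ∀ W ∈ Subgroup.closure ((G : Set SLC) ∪ Set.range h), ∃ (L : List (SLC × ι)) (g : SLC),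
      (∀ p ∈ L, p.1 ∈ G) ∧ g ∈ G ∧ List.IsChain (Rel φ v) L ∧ W = val h L * g := by
  -- left multiplication by an element of `G`
  have hG : ∀ k ∈ G, ∀ W, (∃ (L : List (SLC × ι)) (g : SLC),
      (∀ p ∈ L, p.1 ∈ G) ∧ g ∈ G ∧ List.IsChain (Rel φ v) L ∧ W = val h L * g) →
      (∃ (L : List (SLC × ι)) (g : SLC),
      (∀ p ∈ L, p.1 ∈ G) ∧ g ∈ G ∧ List.IsChain (Rel φ v) L ∧ k * W = val h L * g) := by
    rintro k hk W ⟨L, g, hL, hg, hc, rfl⟩
    cases L with
    | nil =>
      refine ⟨[], k * g, by simp, mul_mem hk hg, by simp, by simp [val_nil]⟩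
    | cons p L =>
      refine ⟨(k * p.1, p.2) :: L, g, ?_, hg, ?_, ?_⟩
      · intro q hq
        rcases List.mem_cons.1 hq with rfl | hq
        · exact mul_mem hk (hL p (by simp))
        · exact hL q (by simp [hq])
      · cases L with
        | nil => simp
        | cons q L =>
          rw [List.isChain_cons_cons] at hc ⊢
          exact hc
      · simp only [val_cons, mul_assoc]
  have hh : ∀ a, ∀ W, (∃ (L : List (SLC × ι)) (g : SLC),
      (∀ p ∈ L, p.1 ∈ G) ∧ g ∈ G ∧ List.IsChain (Rel φ v) L ∧ W = val h L * g) →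
      (∃ (L : List (SLC × ι)) (g : SLC),
      (∀ p ∈ L, p.1 ∈ G) ∧ g ∈ G ∧ List.IsChain (Rel φ v) L ∧ h a * W = val h L * g) := by
    rintro a W ⟨L, g, hL, hg, hc, rfl⟩
    cases L with
    | nil =>
      refine ⟨[(1, a)], g, ?_, hg, by simp, by simp [val_cons, val_nil]⟩
      intro p hp'
      simp only [List.mem_singleton] at hp'
      subst hp'
      exact one_mem _
    | cons p L =>
      by_cases hz : pr φ v a p.1 p.2 = 0
      · have hk := hp a p.2 p.1 (hL p (by simp)) hz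
        have := hG _ hk (val h L * g) ⟨L, g, fun q hq => hL q (by simp [hq]), hg, hc.tail, rfl⟩
        obtain ⟨L', g', h1, h2, h3, h4⟩ := this
        refine ⟨L', g', h1, h2, h3, ?_⟩
        rw [← h4, val_cons]
        simp only [mul_assoc]
      · refine ⟨(1, a) :: p :: L, g, ?_, hg, ?_, ?_⟩
        · intro q hq
          rcases List.mem_cons.1 hq with rfl | hq
          · exact one_mem _
          · exact hL q hq
        · rw [List.isChain_cons_cons]
          exact ⟨hz, hc⟩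
        · simp only [val_cons, mul_assoc, one_mul]
  intro W hW
  induction hW using Subgroup.closure_induction_left with
  | one => exact ⟨[], 1, by simp, one_mem _, by simp, by simp [val_nil]⟩
  | mul_left x hx y hy ih =>
    rcases hx with hx | ⟨a, rfl⟩
    · exact hG x hx y ih
    · exact hh a y ih
  | inv_mul_cancel x hx y hy ih =>
    rcases hx with hx | ⟨a, rfl⟩
    · exact hG x⁻¹ (inv_mem hx) y ih
    · obtain ⟨b, hb⟩ := hi a
      rw [hb]
      exact hh b y ih

/-- `s` avoids the roots of all the nonzero polynomials produced by words. -/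
structure Generic (G : Subgroup SLC) (H : ι → PM) (s : ℂ) : Prop where
  ne : s ≠ 0
  tr_ne : ∀ (L : List (SLC × ι)) (g : SLC), (∀ p ∈ L, p.1 ∈ G) → g ∈ G → ∀ e ∈ Z,
    Matrix.trace (HP H L * pm g) - C e * X ^ L.length ≠ 0 →
    (Matrix.trace (HP H L * pm g) - C e * X ^ L.length).eval s ≠ 0
  eq_ne : ∀ (L L' : List (SLC × ι)) (g g' : SLC), (∀ p ∈ L, p.1 ∈ G) → (∀ p ∈ L', p.1 ∈ G) →
    g ∈ G → g' ∈ G → ∀ i j, (HP H L * pm g - HP H L' * pm g') i j ≠ 0 →
    ((HP H L * pm g - HP H L' * pm g') i j).eval s ≠ 0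

/-- avoiding the roots of countably many nonzero polynomials -/
theorem exists_avoid {κ : Type} [Countable κ] (P : κ → ℂ[X]) (S : Set ℂ) (hS : S.Countable) :
    ∃ s, s ∉ S ∧ ∀ k, P k ≠ 0 → (P k).eval s ≠ 0 := by
  have h1 : (⋃ k, {x | P k ≠ 0 ∧ (P k).IsRoot x}).Countable := by
    apply Set.countable_iUnion
    intro k
    by_cases hk : P k = 0
    · simp [hk]
    · exact ((Polynomial.finite_setOfPred_isRoot hk).subset (fun x hx => hx.2)).countable
  have h2 := h1.union hS
  have h3 : ∃ s, s ∉ (⋃ k, {x | P k ≠ 0 ∧ (P k).IsRoot x}) ∪ S := by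
    by_contra hcon
    push Not at hcon
    have : (Set.univ : Set ℂ).Countable := h2.mono (fun x _ => hcon x)
    exact not_countable_complex this
  obtain ⟨s, hs⟩ := h3
  refine ⟨s, fun h => hs (Or.inr h), fun k hk h0 => hs (Or.inl ?_)⟩
  rw [Set.mem_iUnion]
  exact ⟨k, hk, h0⟩

theorem exists_generic [Countable ι] (G : Subgroup SLC) (hG : (G : Set SLC).Countable)
    (H : ι → PM) : ∃ s, Generic G H s := by
  have : Countable G := hG.to_subtype
  have : Countable Z := Z_countable.to_subtype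
  let inc : List (G × ι) → List (SLC × ι) := List.map (fun p => ((p.1 : SLC), p.2))
  have hinc : ∀ L : List (SLC × ι), (∀ p ∈ L, p.1 ∈ G) → ∃ L', inc L' = L := by
    intro L
    induction L with
    | nil => intro _; exact ⟨[], rfl⟩
    | cons p L ih =>
      intro hL
      obtain ⟨L', hL'⟩ := ih (fun q hq => hL q (by simp [hq]))
      refine ⟨(⟨p.1, hL p (by simp)⟩, p.2) :: L', ?_⟩
      simp [inc] at hL' ⊢
      exact hL'
  obtain ⟨s, hs0, hs⟩ := exists_avoid
    (κ := (List (G × ι) × G × Z) ⊕ (List (G × ι) × List (G × ι) × G × G × Fin 2 × Fin 2))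
    (fun k => match k with
      | Sum.inl (L, g, e) =>
        Matrix.trace (HP H (inc L) * pm g) - C (e : ℂ) * X ^ L.length
      | Sum.inr (L, L', g, g', i, j) => (HP H (inc L) * pm g - HP H (inc L') * pm g') i j)
    {0} (Set.countable_singleton 0)
  refine ⟨s, ⟨by simpa using hs0, ?_, ?_⟩⟩
  · intro L g hL hg e he h0
    obtain ⟨L', rfl⟩ := hinc L hL
    have hlen : (inc L').length = L'.length := by simp [inc]
    have := hs (Sum.inl (L', ⟨g, hg⟩, ⟨e, he⟩))
    simp only at this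
    rw [← hlen] at this
    exact this h0
  · intro L L' g g' hL hL' hg hg' i j h0
    obtain ⟨L1, rfl⟩ := hinc L hL
    obtain ⟨L2, rfl⟩ := hinc L' hL'
    exact hs (Sum.inr (L1, L2, ⟨g, hg⟩, ⟨g', hg'⟩, i, j)) h0

/-- The hypotheses of the ping-pong argument at a generic parameter. -/
structure Setup (G : Subgroup SLC) (H : ι → PM) (φ v : ι → (Fin 2 → ℂ)) (s : ℂ) (h : ι → SLC) :
    Prop where
  good : Good G
  gen : Generic G H s
  lead0 : ∀ a, ev 0 (H a) = Matrix.vecMulVec (v a) (φ a)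
  evs : ∀ a, ev s (H a) = s • (h a : MC)
  self : ∀ a, ∀ g ∈ G, pr φ v a g a ≠ 0
  pinch : ∀ a b, ∀ g ∈ G, pr φ v a g b = 0 → h a * g * h b ∈ G
  inv : ∀ a, ∃ b, (h a)⁻¹ = h b

theorem Setup.trace_one {G : Subgroup SLC} {H : ι → PM} {φ v : ι → (Fin 2 → ℂ)} {s : ℂ}
    {h : ι → SLC} (S : Setup G H φ v s h) : ∀ (n : ℕ) (L : List (SLC × ι)), L.length = n →
      (∀ p ∈ L, p.1 ∈ G) → List.IsChain (Rel φ v) L → ∀ g ∈ G,
      tr (val h L * g) ∈ Z → val h L * g = 1 := by
  intro n
  induction n using Nat.strong_induction_on with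
  | _ n ih =>
  intro L hn hL hc g hg ht
  cases L with
  | nil =>
    rw [val_nil, one_mul] at ht ⊢
    exact S.good.2 g hg ht
  | cons p L' =>
    -- move `g` to the front
    set p' : SLC × ι := (g * p.1, p.2) with hp'
    have hv : val h (p' :: L') = g * val h (p :: L') := by
      simp only [val_cons, hp', mul_assoc]
    have hL1 : ∀ q ∈ (p' :: L'), q.1 ∈ G := by
      intro q hq
      rcases List.mem_cons.1 hq with rfl | hq
      · exact mul_mem hg (hL p (by simp))
      · exact hL q (by simp [hq])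
    have hc1 : List.IsChain (Rel φ v) (p' :: L') := by
      cases L' with
      | nil => simp
      | cons q L'' =>
        rw [List.isChain_cons_cons] at hc ⊢
        exact hc
    have ht1 : tr (val h (p' :: L')) ∈ Z := by
      rw [hv, tr_mul_comm]
      exact ht
    suffices hone : val h (p' :: L') = 1 by
      rw [hv] at hone
      have : val h (p :: L') = g⁻¹ := eq_inv_of_mul_eq_one_right hone
      rw [this, inv_mul_cancel]
    by_cases hw : pr φ v ((p' :: L').getLast (by simp)).2 p'.1 p'.2 = 0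
    · -- wrap-around cancellation
      rcases List.eq_nil_or_concat L' with rfl | ⟨L2, q, rfl⟩
      · exfalso
        simp only [List.getLast_singleton] at hw
        exact S.self _ _ (hL1 p' (by simp)) hw
      · have hlast : ((p' :: (L2 ++ [q])).getLast (by simp)) = q := by
          rw [List.getLast_cons (by simp), List.getLast_append_singleton]
        rw [List.concat_eq_append] at *
        rw [hlast] at hw
        have hk := S.pinch _ _ _ (hL1 p' (by simp)) hw
        have hq : q.1 ∈ G := hL1 q (by simp)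
        have hval : val h (p' :: (L2 ++ [q])) =
            (p'.1 * h p'.2) * (val h L2 * (q.1 * (h q.2 * p'.1 * h p'.2))) * (p'.1 * h p'.2)⁻¹ := by
          rw [val_cons, val_append, val_cons, val_nil]
          group
        have htr : tr (val h (p' :: (L2 ++ [q]))) =
            tr (val h L2 * (q.1 * (h q.2 * p'.1 * h p'.2))) := by
          rw [hval, tr_mul_comm, ← mul_assoc, inv_mul_cancel, one_mul]
        rw [htr] at ht1
        have := ih L2.length (by rw [← hn]; simp) L2 rfl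
          (fun r hr => hL1 r (by simp [hr])) ?_ (q.1 * (h q.2 * p'.1 * h p'.2))
          (mul_mem hq hk) ht1
        · rw [hval, this, mul_one, mul_inv_cancel]
        · have h3 := hc1.tail
          simp only [List.tail_cons] at h3
          exact (List.isChain_append.1 h3).1
    · -- cyclically reduced: the trace is not constant
      exfalso
      obtain ⟨c, hc0, hc2⟩ := lead H φ v S.lead0 L' p' hc1
      have key : ∀ e ∈ Z, tr (val h (p' :: L')) ≠ e := by
        intro e he htr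
        have h0 : (Matrix.trace (HP H (p' :: L') * pm 1) -
            C e * X ^ (p' :: L').length).eval 0 ≠ 0 := by
          have h1 : (Matrix.trace (HP H (p' :: L') * pm 1)).eval 0 =
              Matrix.trace (ev 0 (HP H (p' :: L') * pm 1)) := by
            simp [ev, Matrix.trace_fin_two]
          rw [Polynomial.eval_sub, h1, map_mul, ev_pm, hc2]
          simp only [Matrix.SpecialLinearGroup.coe_one, mul_one, Matrix.trace_smul,
            Polynomial.eval_mul, Polynomial.eval_C, Polynomial.eval_pow, Polynomial.eval_X,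
            List.length_cons, ne_eq, Nat.add_eq_zero_iff, one_ne_zero, and_false,
            not_false_eq_true, zero_pow, mul_zero, sub_zero, smul_eq_mul]
          apply mul_ne_zero hc0
          rw [Matrix.trace_vecMulVec]
          rw [dotProduct_comm]
          exact hw
        have h2 : (Matrix.trace (HP H (p' :: L') * pm 1) -
            C e * X ^ (p' :: L').length) ≠ 0 := by
          intro h3
          rw [h3] at h0
          simp at h0
        have h4 := S.gen.tr_ne (p' :: L') 1 hL1 (one_mem _) e he h2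
        apply h4
        have h1 : (Matrix.trace (HP H (p' :: L') * pm 1)).eval s =
              Matrix.trace (ev s (HP H (p' :: L') * pm 1)) := by
            simp [ev, Matrix.trace_fin_two]
        rw [Polynomial.eval_sub, h1, map_mul, ev_pm, ev_HP H h s S.evs]
        simp only [Matrix.SpecialLinearGroup.coe_one, mul_one, Matrix.trace_smul,
            Polynomial.eval_mul, Polynomial.eval_C, Polynomial.eval_pow, Polynomial.eval_X,
            smul_eq_mul]
        rw [show Matrix.trace ((val h (p' :: L') : SLC) : MC) = tr (val h (p' :: L')) from rfl, htr]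
        ring
      exact key _ ht1 rfl

/-- the new group is again good -/
theorem Setup.good_closure {G : Subgroup SLC} {H : ι → PM} {φ v : ι → (Fin 2 → ℂ)} {s : ℂ}
    {h : ι → SLC} [Countable ι] (S : Setup G H φ v s h) :
    Good (Subgroup.closure ((G : Set SLC) ∪ Set.range h)) := by
  have hred := reduced G h φ v S.pinch S.inv
  constructor
  · have : Countable G := S.good.1.to_subtype
    have hsub : ((Subgroup.closure ((G : Set SLC) ∪ Set.range h) : Subgroup SLC) : Set SLC) ⊆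
        Set.range (fun w : List (G × ι) × G =>
          val h (w.1.map (fun p => ((p.1 : SLC), p.2))) * (w.2 : SLC)) := by
      intro W hW
      obtain ⟨L, g, hL, hg, -, rfl⟩ := hred W hW
      have hinc : ∀ L : List (SLC × ι), (∀ p ∈ L, p.1 ∈ G) →
          ∃ L' : List (G × ι), L'.map (fun p => ((p.1 : SLC), p.2)) = L := by
        intro L
        induction L with
        | nil => intro _; exact ⟨[], rfl⟩
        | cons p L ih =>
          intro hL
          obtain ⟨L', hL'⟩ := ih (fun q hq => hL q (by simp [hq]))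
          refine ⟨(⟨p.1, hL p (by simp)⟩, p.2) :: L', ?_⟩
          simp at hL' ⊢
          exact hL'
      obtain ⟨L', rfl⟩ := hinc L hL
      exact ⟨(L', ⟨g, hg⟩), rfl⟩
    exact (Set.countable_range _).mono hsub
  · intro W hW ht
    obtain ⟨L, g, hL, hg, hc, rfl⟩ := hred W hW
    exact S.trace_one L.length L rfl hL hc g hg ht

end words

/-- an element of SL(2,C) from its entries -/
def mk4 (a b c d : ℂ) (h : a * d - b * c = 1) : SLC :=
  ⟨!![a, b; c, d], by rw [Matrix.det_fin_two]; exact h⟩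

theorem coe_mk4 (a b c d : ℂ) (h : a * d - b * c = 1) :
    ((mk4 a b c d h : SLC) : MC) = !![a, b; c, d] := rfl

/-- diagonal element -/
noncomputable def D (μ : ℂˣ) : SLC := mk4 (μ : ℂ) 0 0 ((μ⁻¹ : ℂˣ) : ℂ) (by simp)

theorem coe_D (μ : ℂˣ) : ((D μ : SLC) : MC) = !![(μ : ℂ), 0; 0, ((μ⁻¹ : ℂˣ) : ℂ)] := rfl

theorem sl_ext {a b : SLC} (h : (a : MC) = (b : MC)) : a = b := Subtype.ext h

theorem tr_conj (k g : SLC) : tr (k * g * k⁻¹) = tr g := by
  rw [tr_mul_comm, ← mul_assoc, inv_mul_cancel, one_mul]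

theorem coe_inv_eq (k : SLC) :
    ((k⁻¹ : SLC) : MC) = !![(k : MC) 1 1, -(k : MC) 0 1; -(k : MC) 1 0, (k : MC) 0 0] := by
  rw [Matrix.SpecialLinearGroup.coe_inv, Matrix.adjugate_fin_two]

theorem det_eq (k : SLC) : (k : MC) 0 0 * (k : MC) 1 1 - (k : MC) 0 1 * (k : MC) 1 0 = 1 := by
  have := k.2
  rwa [Matrix.det_fin_two] at this

theorem tr_eq (k : SLC) : tr k = (k : MC) 0 0 + (k : MC) 1 1 := by
  simp [tr, Matrix.trace_fin_two]

/-- A matrix with distinct eigenvalues is diagonalisable in SL(2,C). -/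
theorem exists_diag (g : SLC) (μ : ℂˣ) (h1 : (μ : ℂ) + ((μ⁻¹ : ℂˣ) : ℂ) = tr g)
    (h2 : (μ : ℂ) ≠ ((μ⁻¹ : ℂˣ) : ℂ)) : ∃ Q : SLC, g = Q * D μ * Q⁻¹ := by
  have hd := det_eq g
  rw [tr_eq] at h1
  set a := (g : MC) 0 0 with ha
  set b := (g : MC) 0 1 with hb
  set c := (g : MC) 1 0 with hc
  set d := (g : MC) 1 1 with hdd
  set m := (μ : ℂ) with hm
  set m' := ((μ⁻¹ : ℂˣ) : ℂ) with hm'
  have hmm : m * m' = 1 := by simp [hm, hm']
  have hne : m' - m ≠ 0 := sub_ne_zero.2 h2.symm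
  have hge : (g : MC) = !![a, b; c, d] := by
    rw [ha, hb, hc, hdd]; exact Matrix.eta_fin_two _
  suffices h : ∃ Q : SLC, g * Q = Q * D μ by
    obtain ⟨Q, hQ⟩ := h
    refine ⟨Q, ?_⟩
    rw [← hQ, mul_inv_cancel_right]
  by_cases hb0 : b = 0
  · by_cases hc0 : c = 0
    · rw [hb0, hc0] at hd hge
      have had : (a - m) * (a - m') = 0 := by linear_combination (-a) * h1 + hmm - hd
      rcases mul_eq_zero.1 had with h | h
      · have h3 : a = m := by linear_combination h
        have h4 : d = m' := by linear_combination (-1 : ℂ) * h1 - h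
        refine ⟨1, ?_⟩
        apply sl_ext
        simp only [mul_one, one_mul]
        rw [coe_D, hge, h3, h4]
      · have h3 : a = m' := by linear_combination h
        have h4 : d = m := by linear_combination (-1 : ℂ) * h1 - h
        refine ⟨mk4 0 (-1) 1 0 (by norm_num), ?_⟩
        apply sl_ext
        rw [Matrix.SpecialLinearGroup.coe_mul, Matrix.SpecialLinearGroup.coe_mul, coe_mk4]
        rw [coe_D, hge, h3, h4]
        ext i j
        fin_cases i <;> fin_cases j <;> simp [Matrix.mul_apply, Fin.sum_univ_two, ← hm, ← hm']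
    · have hδ : c * (m - m') ≠ 0 := mul_ne_zero hc0 (sub_ne_zero.2 h2)
      obtain ⟨t, ht⟩ : ∃ t, c * (m - m') * t = 1 := ⟨(c * (m - m'))⁻¹, mul_inv_cancel₀ hδ⟩
      refine ⟨mk4 (m - d) ((m' - d) * t) c (c * t) ?_, ?_⟩
      · linear_combination ht
      · apply sl_ext
        rw [Matrix.SpecialLinearGroup.coe_mul, Matrix.SpecialLinearGroup.coe_mul, coe_mk4]
        rw [coe_D, hge, ← hm, ← hm']
        ext i j
        fin_cases i <;> fin_cases j <;>
          simp only [Matrix.mul_apply, Fin.sum_univ_two, Matrix.of_apply, Matrix.cons_val',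
            Matrix.cons_val_zero, Matrix.cons_val_one,
            Matrix.cons_val_fin_one, Fin.zero_eta, Fin.mk_one, Fin.isValue, mul_zero, add_zero,
            zero_add]
        · linear_combination (-m) * h1 + hmm - hd
        · linear_combination t * ((-m') * h1 + hmm - hd)
        · ring
        · ring
  · have hδ : b * (m' - m) ≠ 0 := mul_ne_zero hb0 hne
    obtain ⟨t, ht⟩ : ∃ t, b * (m' - m) * t = 1 := ⟨(b * (m' - m))⁻¹, mul_inv_cancel₀ hδ⟩
    refine ⟨mk4 b (b * t) (m - a) ((m' - a) * t) ?_, ?_⟩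
    · linear_combination ht
    · apply sl_ext
      rw [Matrix.SpecialLinearGroup.coe_mul, Matrix.SpecialLinearGroup.coe_mul, coe_mk4]
      rw [coe_D, hge, ← hm, ← hm']
      ext i j
      fin_cases i <;> fin_cases j <;>
        simp only [Matrix.mul_apply, Fin.sum_univ_two, Matrix.of_apply, Matrix.cons_val',
          Matrix.cons_val_zero, Matrix.cons_val_one,
          Matrix.cons_val_fin_one, Fin.zero_eta, Fin.mk_one, Fin.isValue, mul_zero, add_zero,
            zero_add]
      · ring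
      · ring
      · linear_combination (-m) * h1 + hmm - hd
      · linear_combination t * ((-m') * h1 + hmm - hd)

/-- trace of a commutator with a diagonal element -/
theorem tr_comm_D (k : SLC) (μ : ℂˣ) (h : (k : MC) 0 1 = 0 ∨ (k : MC) 1 0 = 0) :
    tr (k * D μ * k⁻¹ * (D μ)⁻¹) = 2 := by
  have hd := det_eq k
  have hμ : (μ : ℂ) * ((μ⁻¹ : ℂˣ) : ℂ) = 1 := by simp
  rw [tr_eq]
  simp only [Matrix.SpecialLinearGroup.coe_mul, coe_inv_eq, coe_D]
  set m := (μ : ℂ) with hm
  set m' := ((μ⁻¹ : ℂˣ) : ℂ) with hm'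
  set a := (k : MC) 0 0
  set b := (k : MC) 0 1
  set c := (k : MC) 1 0
  set d := (k : MC) 1 1
  simp only [Matrix.mul_apply, Fin.sum_univ_two, Matrix.of_apply, Matrix.cons_val',
            Matrix.cons_val_zero, Matrix.cons_val_one,
            Matrix.cons_val_fin_one]
  have hbc : b * c = 0 := by rcases h with h | h <;> rw [h] <;> ring
  simp only [mul_zero, add_zero, zero_add, neg_zero]
  linear_combination (2 * a * d) * hμ + 2 * hd + (2 - m * m - m' * m') * hbc

theorem exists_mu (τ : ℂ) (h2 : τ ≠ 2) (h3 : τ ≠ -2) :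
    ∃ μ : ℂˣ, (μ : ℂ) + ((μ⁻¹ : ℂˣ) : ℂ) = τ ∧ (μ : ℂ) ≠ ((μ⁻¹ : ℂˣ) : ℂ) := by
  obtain ⟨δ, hδ⟩ := IsAlgClosed.exists_pow_nat_eq (τ ^ 2 - 4) (n := 2) (by norm_num)
  have hδ0 : δ ≠ 0 := by
    intro h
    rw [h] at hδ
    have : (τ - 2) * (τ + 2) = 0 := by linear_combination -hδ
    rcases mul_eq_zero.1 this with h | h
    · exact h2 (by linear_combination h)
    · exact h3 (by linear_combination h)
  refine ⟨⟨(τ + δ) / 2, (τ - δ) / 2, by linear_combination (-1/4 : ℂ) * hδ,
    by linear_combination (-1/4 : ℂ) * hδ⟩, ?_, ?_⟩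
  · simp only [Units.inv_mk]
    ring
  · simp only [Units.inv_mk, ne_eq]
    intro h
    apply hδ0
    linear_combination h

theorem pr_entry (A B g : SLC) (e f : Fin 2 → ℂ) :
    (e ᵥ* (A : MC)) ⬝ᵥ ((g : MC) *ᵥ ((B : MC) *ᵥ f)) =
      e ⬝ᵥ (((A * g * B : SLC) : MC) *ᵥ f) := by
  rw [Matrix.SpecialLinearGroup.coe_mul, Matrix.SpecialLinearGroup.coe_mul,
    ← Matrix.mulVec_mulVec, ← Matrix.mulVec_mulVec, ← Matrix.dotProduct_mulVec]

/-- conjugates of a diagonal element commute with it when an entry of the conjugator vanishes -/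
theorem tr_comm_D' (k : SLC) (μ : ℂˣ) (h : (k : MC) 0 0 = 0) :
    tr ((k * D μ * k⁻¹) * D μ * (k * D μ * k⁻¹)⁻¹ * (D μ)⁻¹) = 2 := by
  apply tr_comm_D
  left
  simp only [Matrix.SpecialLinearGroup.coe_mul, coe_inv_eq, coe_D]
  simp only [Matrix.mul_apply, Fin.sum_univ_two, Matrix.of_apply, Matrix.cons_val',
            Matrix.cons_val_zero, Matrix.cons_val_one,
            Matrix.cons_val_fin_one, h]
  ring

/-- commuting test in a good group -/
theorem Good.comm {G : Subgroup SLC} (hG : Good G) {a b : SLC} (ha : a ∈ G) (hb : b ∈ G)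
    (h : tr (a * b * a⁻¹ * b⁻¹) = 2) : a * b = b * a := by
  have h1 : a * b * a⁻¹ * b⁻¹ = 1 :=
    hG.2 _ (mul_mem (mul_mem (mul_mem ha hb) (inv_mem ha)) (inv_mem hb)) (by rw [h]; exact two_mem_Z)
  have h2 : a * b * a⁻¹ = b := mul_inv_eq_one.1 h1
  exact mul_inv_eq_iff_eq_mul.1 h2

theorem tr_comm_conj (Q a b : SLC) :
    tr ((Q * a * Q⁻¹) * (Q * b * Q⁻¹) * (Q * a * Q⁻¹)⁻¹ * (Q * b * Q⁻¹)⁻¹) =
      tr (a * b * a⁻¹ * b⁻¹) := by
  have : (Q * a * Q⁻¹) * (Q * b * Q⁻¹) * (Q * a * Q⁻¹)⁻¹ * (Q * b * Q⁻¹)⁻¹ =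
      Q * (a * b * a⁻¹ * b⁻¹) * Q⁻¹ := by group
  rw [this, tr_conj]

/-- HNN-type step: two elements with the same trace, each generating its own centraliser and not
conjugate into a common torus, become conjugate in a larger good group. -/
theorem hnn (G : Subgroup SLC) (hG : Good G) (w w' : SLC) (hw : w ∈ G) (hw' : w' ∈ G)
    (hw1 : w ≠ 1) (ht : tr w = tr w')
    (R1 : ∀ g ∈ G, g * w = w * g → ∃ k : ℤ, g = w ^ k)
    (R2 : ∀ g ∈ G, g * w' = w' * g → ∃ k : ℤ, g = w' ^ k)
    (R3 : ∀ g ∈ G, (g * w' * g⁻¹) * w ≠ w * (g * w' * g⁻¹)) :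
    ∃ G' : Subgroup SLC, Good G' ∧ G ≤ G' ∧ ∃ h ∈ G', h * w * h⁻¹ = w' := by
  obtain ⟨μ, hμ1, hμ2⟩ := exists_mu (tr w)
    (fun h => hw1 (hG.2 w hw (by rw [h]; exact two_mem_Z)))
    (fun h => hw1 (hG.2 w hw (by rw [h]; exact neg_two_mem_Z)))
  obtain ⟨Q, hQ⟩ := exists_diag w μ hμ1 hμ2
  obtain ⟨Q', hQ'⟩ := exists_diag w' μ (by rw [hμ1, ht]) hμ2
  let H : Bool → PM := fun b => bif b then pm Q' * !![1, 0; 0, X ^ 2] * pm Q⁻¹
    else pm Q * !![X ^ 2, 0; 0, 1] * pm Q'⁻¹
  obtain ⟨s, hs⟩ := exists_generic G hG.1 H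
  let σ : ℂˣ := Units.mk0 s hs.ne
  let h : Bool → SLC := fun b => bif b then Q' * D σ⁻¹ * Q⁻¹ else Q * D σ * Q'⁻¹
  let v : Bool → (Fin 2 → ℂ) := fun b => bif b then (Q' : MC) *ᵥ ![1, 0] else (Q : MC) *ᵥ ![0, 1]
  let φ : Bool → (Fin 2 → ℂ) := fun b => bif b then ![1, 0] ᵥ* ((Q⁻¹ : SLC) : MC)
    else ![0, 1] ᵥ* ((Q'⁻¹ : SLC) : MC)
  have hDinv : D σ⁻¹ = (D σ)⁻¹ := by
    apply sl_ext
    rw [coe_inv_eq, coe_D, coe_D]
    simp
  have hinv : h false = (h true)⁻¹ := by
    simp only [h, cond_true, cond_false, hDinv]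
    group
  -- the relevant entries
  have ptt : ∀ g, pr φ v true g true = ((Q⁻¹ * g * Q' : SLC) : MC) 0 0 := by
    intro g
    simp only [pr, φ, v, cond_true, pr_entry]
    simp [Matrix.mulVec, dotProduct, Fin.sum_univ_two]
  have ptf : ∀ g, pr φ v true g false = ((Q⁻¹ * g * Q : SLC) : MC) 0 1 := by
    intro g
    simp only [pr, φ, v, cond_true, cond_false, pr_entry]
    simp [Matrix.mulVec, dotProduct, Fin.sum_univ_two]
  have pft : ∀ g, pr φ v false g true = ((Q'⁻¹ * g * Q' : SLC) : MC) 1 0 := by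
    intro g
    simp only [pr, φ, v, cond_true, cond_false, pr_entry]
    simp [Matrix.mulVec, dotProduct, Fin.sum_univ_two]
  have pff : ∀ g, pr φ v false g false = ((Q'⁻¹ * g * Q : SLC) : MC) 1 1 := by
    intro g
    simp only [pr, φ, v, cond_false, pr_entry]
    simp [Matrix.mulVec, dotProduct, Fin.sum_univ_two]
  -- nonvanishing
  have key3 : ∀ g ∈ G, ((Q⁻¹ * g * Q' : SLC) : MC) 0 0 ≠ 0 := by
    intro g hg h0
    have h1 := tr_comm_D' _ μ h0
    rw [← tr_comm_conj Q] at h1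
    have e1 : Q * (Q⁻¹ * g * Q' * D μ * (Q⁻¹ * g * Q')⁻¹) * Q⁻¹ = g * w' * g⁻¹ := by
      rw [hQ']; group
    rw [e1, ← hQ] at h1
    exact R3 g hg (hG.comm (mul_mem (mul_mem hg hw') (inv_mem hg)) hw h1)
  have key3' : ∀ g ∈ G, ((Q'⁻¹ * g * Q : SLC) : MC) 1 1 ≠ 0 := by
    intro g hg h0
    have h1 := key3 g⁻¹ (inv_mem hg)
    apply h1
    have e1 : Q⁻¹ * g⁻¹ * Q' = (Q'⁻¹ * g * Q)⁻¹ := by group
    rw [e1, coe_inv_eq]
    simpa using h0
  have key1 : ∀ g ∈ G, ((Q⁻¹ * g * Q : SLC) : MC) 0 1 = 0 → ∃ k : ℤ, g = w ^ k := by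
    intro g hg h0
    apply R1 g hg
    have h1 := tr_comm_D _ μ (Or.inl h0)
    rw [← tr_comm_conj Q] at h1
    have e1 : Q * (Q⁻¹ * g * Q) * Q⁻¹ = g := by group
    rw [e1, ← hQ] at h1
    exact hG.comm hg hw h1
  have key2 : ∀ g ∈ G, ((Q'⁻¹ * g * Q' : SLC) : MC) 1 0 = 0 → ∃ k : ℤ, g = w' ^ k := by
    intro g hg h0
    apply R2 g hg
    have h1 := tr_comm_D _ μ (Or.inr h0)
    rw [← tr_comm_conj Q'] at h1
    have e1 : Q' * (Q'⁻¹ * g * Q') * Q'⁻¹ = g := by group
    rw [e1, ← hQ'] at h1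
    exact hG.comm hg hw' h1
  have hconj : h true * w * (h true)⁻¹ = w' := by
    have hc : D σ⁻¹ * D μ * (D σ⁻¹)⁻¹ = D μ := by
      rw [hDinv, inv_inv]
      have : (D σ)⁻¹ * D μ = D μ * (D σ)⁻¹ := by
        apply sl_ext
        rw [Matrix.SpecialLinearGroup.coe_mul, Matrix.SpecialLinearGroup.coe_mul, coe_inv_eq,
          coe_D, coe_D]
        ext i j
        fin_cases i <;> fin_cases j <;> simp [mul_comm]
      rw [this, inv_mul_cancel_right]
    rw [hQ', ← hc, hQ]
    simp only [h, cond_true]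
    group
  have S : Setup G H φ v s h := by
    refine ⟨hG, hs, ?_, ?_, ?_, ?_, ?_⟩
    · intro a
      cases a
      · simp only [H, φ, v, cond_false]
        rw [map_mul, map_mul, ev_pm, ev_pm, ← Matrix.vecMulVec_mul, ← Matrix.mul_vecMulVec]
        congr 2
        ext i j
        fin_cases i <;> fin_cases j <;> simp [ev, Matrix.vecMulVec_apply]
      · simp only [H, φ, v, cond_true]
        rw [map_mul, map_mul, ev_pm, ev_pm, ← Matrix.vecMulVec_mul, ← Matrix.mul_vecMulVec]
        congr 2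
        ext i j
        fin_cases i <;> fin_cases j <;> simp [ev, Matrix.vecMulVec_apply]
    · intro a
      have hσ : (σ : ℂ) = s := rfl
      have hσ' : ((σ⁻¹ : ℂˣ) : ℂ) = s⁻¹ := by simp [σ]
      cases a
      · simp only [H, h, cond_false]
        rw [map_mul, map_mul, ev_pm, ev_pm, Matrix.SpecialLinearGroup.coe_mul,
          Matrix.SpecialLinearGroup.coe_mul, ← Matrix.smul_mul, ← Matrix.mul_smul]
        congr 2
        rw [coe_D, hσ, hσ']
        ext i j
        fin_cases i <;> fin_cases j <;> simp [ev, hs.ne, pow_two]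
      · simp only [H, h, cond_true]
        rw [map_mul, map_mul, ev_pm, ev_pm, Matrix.SpecialLinearGroup.coe_mul,
          Matrix.SpecialLinearGroup.coe_mul, ← Matrix.smul_mul, ← Matrix.mul_smul]
        congr 2
        rw [coe_D, inv_inv, hσ, hσ']
        ext i j
        fin_cases i <;> fin_cases j <;> simp [ev, hs.ne, pow_two]
    · intro a g hg
      cases a
      · rw [pff]; exact key3' g hg
      · rw [ptt]; exact key3 g hg
    · intro a b g hg h0
      cases a <;> cases b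
      · rw [pff] at h0; exact absurd h0 (key3' g hg)
      · rw [pft] at h0
        obtain ⟨k, rfl⟩ := key2 g hg h0
        have : h false * w' ^ k * h true = w ^ k := by
          rw [hinv, ← hconj, conj_zpow]
          group
        rw [this]
        exact zpow_mem hw k
      · rw [ptf] at h0
        obtain ⟨k, rfl⟩ := key1 g hg h0
        have : h true * w ^ k * h false = w' ^ k := by
          rw [hinv, ← conj_zpow, hconj]
        rw [this]
        exact zpow_mem hw' k
      · rw [ptt] at h0; exact absurd h0 (key3 g hg)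
    · intro a
      cases a
      · exact ⟨true, by rw [hinv, inv_inv]⟩
      · exact ⟨false, hinv.symm⟩
  refine ⟨_, S.good_closure, fun g hg => Subgroup.subset_closure (Or.inl hg), h true,
    Subgroup.subset_closure (Or.inr ⟨true, rfl⟩), hconj⟩

section free

variable {ι : Type}

/-- Ping-pong situation in which the letters generate freely over `G`. -/
structure FSetup (G : Subgroup SLC) (H : ι → PM) (φ v : ι → (Fin 2 → ℂ)) (s : ℂ) (h : ι → SLC)
    (bar : ι → ι) : Prop extends Setup G H φ v s h where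
  bar_bar : ∀ a, bar (bar a) = a
  bar_ne : ∀ a, bar a ≠ a
  hbar : ∀ a, h (bar a) = (h a)⁻¹
  pr0 : ∀ a b, ∀ g ∈ G, pr φ v a g b = 0 → b = bar a ∧ g = 1
  pr1 : ∀ a, pr φ v a 1 (bar a) = 0

/-- `g` has a reduced expression with `n` letters. -/
def RepN (G : Subgroup SLC) (φ v : ι → (Fin 2 → ℂ)) (h : ι → SLC) (n : ℕ) (g : SLC) : Prop :=
  ∃ (L : List (SLC × ι)) (k : SLC), L.length = n ∧
      (∀ p ∈ L, p.1 ∈ G) ∧ k ∈ G ∧ List.IsChain (Rel φ v) L ∧ g = val h L * k

theorem RepN.mul_left {G : Subgroup SLC} {φ v : ι → (Fin 2 → ℂ)} {h : ι → SLC} {n : ℕ}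
    {g : SLC} (hr : RepN G φ v h n g) {k : SLC} (hk : k ∈ G) : RepN G φ v h n (k * g) := by
  obtain ⟨L, g', hn, hL, hg, hc, rfl⟩ := hr
  cases L with
  | nil =>
    refine ⟨[], k * g', hn, by simp, mul_mem hk hg, by simp, by simp [val_nil]⟩
  | cons p L =>
    refine ⟨(k * p.1, p.2) :: L, g', hn, ?_, hg, ?_, ?_⟩
    · intro q hq
      rcases List.mem_cons.1 hq with rfl | hq
      · exact mul_mem hk (hL p (by simp))
      · exact hL q (by simp [hq])
    · cases L with
      | nil => simp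
      | cons q L =>
        rw [List.isChain_cons_cons] at hc ⊢
        exact hc
    · simp only [val_cons, mul_assoc]

/-- an equality between words of the same length holds for the leading matrices -/
theorem Setup.lead_eq {G : Subgroup SLC} {H : ι → PM} {φ v : ι → (Fin 2 → ℂ)} {s : ℂ}
    {h : ι → SLC} (S : Setup G H φ v s h) (L L' : List (SLC × ι)) (g g' : SLC)
    (hL : ∀ p ∈ L, p.1 ∈ G) (hL' : ∀ p ∈ L', p.1 ∈ G) (hg : g ∈ G) (hg' : g' ∈ G)
    (hlen : L.length = L'.length) (he : val h L * g = val h L' * g') :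
    ev 0 (HP H L) * (g : MC) = ev 0 (HP H L') * (g' : MC) := by
  have h1 : HP H L * pm g - HP H L' * pm g' = 0 := by
    refine Matrix.ext fun i j => ?_
    by_contra hne
    have h2 := S.gen.eq_ne L L' g g' hL hL' hg hg' i j hne
    apply h2
    have h3 : (eval s ((HP H L * pm g - HP H L' * pm g') i j)) =
        (ev s (HP H L * pm g - HP H L' * pm g')) i j := by
      simp [ev]
    rw [h3, map_sub, map_mul, map_mul, ev_pm, ev_pm, ev_HP H h s S.evs, ev_HP H h s S.evs,
      Matrix.smul_mul, Matrix.smul_mul, ← Matrix.SpecialLinearGroup.coe_mul,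
      ← Matrix.SpecialLinearGroup.coe_mul, he, hlen, sub_self]
    rfl
  have h4 := congrArg (ev 0) h1
  rw [map_sub, map_mul, map_mul, ev_pm, ev_pm, map_zero] at h4
  exact sub_eq_zero.1 h4

/-- the element `u c_a z c_a⁻¹` -/
def E (h : ι → SLC) (bar : ι → ι) (a : ι) (u z : SLC) : SLC := u * h a * z * h (bar a)

theorem rank_one {x ψ y χ r : Fin 2 → ℂ} {α β : ℂ}
    (h : α • Matrix.vecMulVec x ψ = β • Matrix.vecMulVec y χ) (hα : α ≠ 0) (hψ : ψ ≠ 0)
    (hr : r ⬝ᵥ y = 0) : r ⬝ᵥ x = 0 := by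
  have h1 := congrArg (fun M => r ᵥ* M) h
  simp only [Matrix.vecMul_smul, Matrix.vecMul_vecMulVec, hr, zero_smul, smul_zero] at h1
  rcases smul_eq_zero.1 h1 with h2 | h2
  · exact absurd h2 hα
  · rcases smul_eq_zero.1 h2 with h3 | h3
    · exact h3
    · exact absurd h3 hψ

variable {G : Subgroup SLC} {H : ι → PM} {φ v : ι → (Fin 2 → ℂ)} {s : ℂ} {h : ι → SLC}
  {bar : ι → ι}

theorem FSetup.phi_ne (S : FSetup G H φ v s h bar) (a : ι) : φ a ≠ 0 := by
  intro h0
  apply S.self a 1 (one_mem _)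
  simp [pr, h0]

theorem FSetup.lead2 (S : FSetup G H φ v s h bar) (a b : ι) (k z : SLC) :
    ev 0 (HP H [(k, a), (z, b)]) =
      pr φ v a z b • Matrix.vecMulVec ((k : MC) *ᵥ v a) (φ b) := by
  rw [HP_cons, HP_cons, HP_nil, mul_one, map_mul, map_mul, map_mul, ev_pm, ev_pm, S.lead0,
    S.lead0]
  have e1 : (k : MC) * Matrix.vecMulVec (v a) (φ a)
        = Matrix.vecMulVec ((k : MC) *ᵥ v a) (φ a) := Matrix.mul_vecMulVec _ _ _
  have e2 : (z : MC) * Matrix.vecMulVec (v b) (φ b)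
        = Matrix.vecMulVec ((z : MC) *ᵥ v b) (φ b) := Matrix.mul_vecMulVec _ _ _
  rw [e1, e2, Matrix.vecMulVec_mul_vecMulVec]
  simp only [pr]
  ext i j
  simp only [Matrix.smul_apply, Matrix.vecMulVec_apply, smul_eq_mul, Pi.smul_apply]
  ring

theorem vecMul_ne {x : Fin 2 → ℂ} (hx : x ≠ 0) (g : SLC) : x ᵥ* (g : MC) ≠ 0 := by
  intro h0
  apply hx
  have h1 : (x ᵥ* (g : MC)) ᵥ* ((g⁻¹ : SLC) : MC) = x := by
    rw [Matrix.vecMul_vecMul, ← Matrix.SpecialLinearGroup.coe_mul, mul_inv_cancel,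
      Matrix.SpecialLinearGroup.coe_one, Matrix.vecMul_one]
  rw [← h1, h0, Matrix.zero_vecMul]

/-- comparison of leading matrices -/
theorem FSetup.compare (S : FSetup G H φ v s h bar) (p : SLC × ι) (L : List (SLC × ι)) (k : SLC)
    (hc : List.IsChain (Rel φ v) (p :: L)) (a b : ι) (m z m' z' g : SLC)
    (B : List (SLC × ι))
    (hn1 : pr φ v ((p :: L).getLast (by simp)).2 m a ≠ 0)
    (hn2 : pr φ v a z (bar a) ≠ 0)
    (he : ev 0 (HP H ((p :: L) ++ [(m, a), (z, bar a)])) * (g : MC) =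
      ev 0 (HP H ([(m', b), (z', bar b)] ++ B)) * (k : MC)) :
    pr φ v (bar b) (m'⁻¹ * p.1) p.2 = 0 := by
  obtain ⟨c, hc0, hc1⟩ := lead H φ v S.lead0 L p hc
  rw [HP_append, HP_append, map_mul, map_mul, S.lead2, S.lead2, hc1] at he
  set q := (p :: L).getLast (by simp) with hq
  have he' : (c * pr φ v a z (bar a) * pr φ v q.2 m a) •
      Matrix.vecMulVec ((p.1 : MC) *ᵥ v p.2) (φ (bar a) ᵥ* (g : MC)) =
      pr φ v b z' (bar b) • Matrix.vecMulVec ((m' : MC) *ᵥ v b)
        ((φ (bar b) ᵥ* (ev 0 (HP H B))) ᵥ* (k : MC)) := by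
    have e1 : (c * pr φ v a z (bar a) * pr φ v q.2 m a) •
      Matrix.vecMulVec ((p.1 : MC) *ᵥ v p.2) (φ (bar a) ᵥ* (g : MC)) =
      c • Matrix.vecMulVec ((p.1 : MC) *ᵥ v p.2) (φ q.2) *
        (pr φ v a z (bar a) • Matrix.vecMulVec ((m : MC) *ᵥ v a) (φ (bar a))) * (g : MC) := by
      rw [Matrix.smul_mul, Matrix.mul_smul, Matrix.vecMulVec_mul_vecMulVec, Matrix.smul_mul,
        Matrix.smul_mul, Matrix.vecMulVec_mul]
      simp only [pr]
      ext i j
      simp only [Matrix.smul_apply, Matrix.vecMulVec_apply, smul_eq_mul, Pi.smul_apply,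
        Matrix.smul_vecMul]
      ring
    rw [e1, he, Matrix.smul_mul, Matrix.smul_mul, Matrix.vecMulVec_mul, Matrix.vecMulVec_mul]
  have hne : c * pr φ v a z (bar a) * pr φ v q.2 m a ≠ 0 := mul_ne_zero (mul_ne_zero hc0 hn2) hn1
  have hr : (φ (bar b) ᵥ* ((m'⁻¹ : SLC) : MC)) ⬝ᵥ ((m' : MC) *ᵥ v b) = 0 := by
    rw [← Matrix.dotProduct_mulVec, Matrix.mulVec_mulVec, ← Matrix.SpecialLinearGroup.coe_mul,
      inv_mul_cancel]
    have := S.pr1 (bar b)
    rw [S.bar_bar] at this
    exact this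
  have h3 := rank_one he' hne (vecMul_ne (S.phi_ne _) g) hr
  rw [← Matrix.dotProduct_mulVec, Matrix.mulVec_mulVec, ← Matrix.SpecialLinearGroup.coe_mul] at h3
  exact h3

/-- the head of a reduced word conjugating one special element into another -/
theorem FSetup.head (S : FSetup G H φ v s h bar) (p : SLC × ι) (L : List (SLC × ι)) (k : SLC)
    (hL : ∀ q ∈ (p :: L), q.1 ∈ G) (hk : k ∈ G) (hc : List.IsChain (Rel φ v) (p :: L))
    (a b : ι) (u z u' z' : SLC) (hu : u ∈ G) (hz : z ∈ G) (hu' : u' ∈ G) (hz' : z' ∈ G)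
    (hu1 : u ≠ 1) (hz1 : z ≠ 1)
    (he : val h (p :: L) * k * E h bar a u z = E h bar b u' z' * (val h (p :: L) * k)) :
    p = (u', b) ∨ p = (1, b) := by
  have hpz : pr φ v a z (bar a) ≠ 0 := fun h0 => hz1 (S.pr0 _ _ z hz h0).2
  have hp1 : p.1 ∈ G := hL p (by simp)
  by_cases h1 : pr φ v ((p :: L).getLast (by simp)).2 (k * u) a = 0
  · -- use the inverse equation
    right
    have hku := (S.pr0 _ _ (k * u) (mul_mem hk hu) h1).2
    have hk1 : k ≠ 1 := by
      rintro rfl
      apply hu1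
      rwa [one_mul] at hku
    have h2 : pr φ v ((p :: L).getLast (by simp)).2 k a ≠ 0 :=
      fun h0 => hk1 (S.pr0 _ _ k hk h0).2
    have hpz' : pr φ v a z⁻¹ (bar a) ≠ 0 := by
      intro h0
      apply hz1
      have := (S.pr0 _ _ z⁻¹ (inv_mem hz) h0).2
      rwa [inv_eq_one] at this
    have he' : val h ((p :: L) ++ [(k, a), (z⁻¹, bar a)]) * u⁻¹ =
        val h ([(1, b), (z'⁻¹, bar b)] ++ ((u'⁻¹ * p.1, p.2) :: L)) * k := by
      have e1 : val h ((p :: L) ++ [(k, a), (z⁻¹, bar a)]) * u⁻¹ =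
          val h (p :: L) * k * (E h bar a u z)⁻¹ := by
        simp only [val_append, val_cons, val_nil, E, S.hbar]
        group
      have e2 : val h ([(1, b), (z'⁻¹, bar b)] ++ ((u'⁻¹ * p.1, p.2) :: L)) * k =
          (E h bar b u' z')⁻¹ * (val h (p :: L) * k) := by
        simp only [val_append, val_cons, val_nil, E, S.hbar]
        group
      rw [e1, e2]
      rw [mul_inv_eq_iff_eq_mul, mul_assoc, he]
      group
    have hlead := S.lead_eq _ _ _ _ ?_ ?_ (inv_mem hu) hk (by simp) he'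
    · have h3 := S.compare p L k hc a b k z⁻¹ 1 z'⁻¹ u⁻¹ _ h2 hpz' hlead
      have h4 := S.pr0 _ _ _ (mul_mem (inv_mem (one_mem _)) hp1) h3
      rw [S.bar_bar] at h4
      apply Prod.ext
      · simpa using h4.2
      · exact h4.1
    · intro r hr
      simp only [List.cons_append, List.mem_cons, List.mem_append, List.not_mem_nil, or_false]
        at hr
      rcases hr with rfl | hr | rfl | rfl
      · exact hp1
      · exact hL r (by simp [hr])
      · exact hk
      · exact inv_mem hz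
    · intro r hr
      simp only [List.cons_append, List.mem_cons, List.nil_append] at hr
      rcases hr with rfl | rfl | rfl | hr
      · exact one_mem _
      · exact inv_mem hz'
      · exact mul_mem (inv_mem hu') hp1
      · exact hL r (by simp [hr])
  · left
    have he' : val h ((p :: L) ++ [(k * u, a), (z, bar a)]) * 1 =
        val h ([(u', b), (z', bar b)] ++ (p :: L)) * k := by
      have e1 : val h ((p :: L) ++ [(k * u, a), (z, bar a)]) * 1 =
          val h (p :: L) * k * (E h bar a u z) := by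
        simp only [val_append, val_cons, val_nil, E]
        group
      have e2 : val h ([(u', b), (z', bar b)] ++ (p :: L)) * k =
          (E h bar b u' z') * (val h (p :: L) * k) := by
        simp only [val_append, val_cons, val_nil, E]
        group
      rw [e1, e2, he]
    have hlead := S.lead_eq _ _ _ _ ?_ ?_ (one_mem _) hk (by simp) he'
    · have h3 := S.compare p L k hc a b (k * u) z u' z' 1 _ h1 hpz hlead
      have h4 := S.pr0 _ _ _ (mul_mem (inv_mem hu') hp1) h3
      rw [S.bar_bar] at h4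
      apply Prod.ext
      · exact (inv_mul_eq_one.1 h4.2).symm
      · exact h4.1
    · intro r hr
      simp only [List.cons_append, List.mem_cons, List.mem_append, List.not_mem_nil, or_false]
        at hr
      rcases hr with rfl | hr | rfl | rfl
      · exact hp1
      · exact hL r (by simp [hr])
      · exact mul_mem hk hu
      · exact hz
    · intro r hr
      simp only [List.cons_append, List.mem_cons, List.nil_append] at hr
      rcases hr with rfl | rfl | rfl | hr
      · exact hu'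
      · exact hz'
      · exact hp1
      · exact hL r (by simp [hr])

theorem FSetup.v_ne (S : FSetup G H φ v s h bar) (a : ι) : v a ≠ 0 := by
  intro h0
  apply S.self a 1 (one_mem _)
  simp [pr, h0]

theorem mulVec_ne {x : Fin 2 → ℂ} (hx : x ≠ 0) (g : SLC) : (g : MC) *ᵥ x ≠ 0 := by
  intro h0
  apply hx
  have h1 : ((g⁻¹ : SLC) : MC) *ᵥ ((g : MC) *ᵥ x) = x := by
    rw [Matrix.mulVec_mulVec, ← Matrix.SpecialLinearGroup.coe_mul, inv_mul_cancel,
      Matrix.SpecialLinearGroup.coe_one, Matrix.one_mulVec]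
  rw [← h1, h0, Matrix.mulVec_zero]

theorem rank_one_col {x ψ y χ c : Fin 2 → ℂ} {α β : ℂ}
    (h : α • Matrix.vecMulVec x ψ = β • Matrix.vecMulVec y χ) (hβ : β ≠ 0) (hy : y ≠ 0)
    (hr : ψ ⬝ᵥ c = 0) : χ ⬝ᵥ c = 0 := by
  have h1 := congrArg (fun M => M *ᵥ c) h
  simp only [Matrix.smul_mulVec, Matrix.vecMulVec_mulVec, hr] at h1
  by_contra hne
  have h2 : β • (MulOpposite.op (χ ⬝ᵥ c) • y) = 0 := by
    rw [← h1]
    simp
  rcases smul_eq_zero.1 h2 with h3 | h3
  · exact hβ h3
  · rcases smul_eq_zero.1 h3 with h4 | h4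
    · exact hne (MulOpposite.op_injective h4)
    · exact hy h4

theorem FSetup.eclaim_zero (S : FSetup G H φ v s h bar) (k : SLC) (hk : k ∈ G)
    (a b : ι) (u z u' z' : SLC) (hu : u ∈ G) (hz : z ∈ G) (hu' : u' ∈ G) (hz' : z' ∈ G)
    (hz1 : z ≠ 1) (hz1' : z' ≠ 1)
    (he : k * E h bar a u z = E h bar b u' z' * k) :
    b = a ∧ u' = u ∧ z' = z ∧ k = 1 := by
  have hpz : pr φ v a z (bar a) ≠ 0 := fun h0 => hz1 (S.pr0 _ _ z hz h0).2
  have hpz' : pr φ v b z' (bar b) ≠ 0 := fun h0 => hz1' (S.pr0 _ _ z' hz' h0).2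
  have he' : val h [(k * u, a), (z, bar a)] * 1 = val h [(u', b), (z', bar b)] * k := by
    have e1 : val h [(k * u, a), (z, bar a)] * 1 = k * E h bar a u z := by
      simp only [val_cons, val_nil, E]
      group
    have e2 : val h [(u', b), (z', bar b)] * k = E h bar b u' z' * k := by
      simp only [val_cons, val_nil, E]
      group
    rw [e1, e2, he]
  have hlead := S.lead_eq _ _ _ _ ?_ ?_ (one_mem _) hk (by simp) he'
  · rw [S.lead2, S.lead2, Matrix.smul_mul, Matrix.smul_mul, Matrix.vecMulVec_mul,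
      Matrix.vecMulVec_mul, Matrix.SpecialLinearGroup.coe_one, Matrix.vecMul_one] at hlead
    have hr : (φ (bar b) ᵥ* ((u'⁻¹ : SLC) : MC)) ⬝ᵥ ((u' : MC) *ᵥ v b) = 0 := by
      rw [← Matrix.dotProduct_mulVec, Matrix.mulVec_mulVec, ← Matrix.SpecialLinearGroup.coe_mul,
        inv_mul_cancel]
      have := S.pr1 (bar b)
      rw [S.bar_bar] at this
      exact this
    have h3 := rank_one hlead hpz (S.phi_ne _) hr
    rw [← Matrix.dotProduct_mulVec, Matrix.mulVec_mulVec,
      ← Matrix.SpecialLinearGroup.coe_mul] at h3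
    have h4 := S.pr0 _ _ _ (mul_mem (inv_mem hu') (mul_mem hk hu)) h3
    rw [S.bar_bar] at h4
    obtain ⟨rfl, h5⟩ := h4
    have hcol : φ (bar a) ⬝ᵥ v a = 0 := by
      have := S.pr1 (bar a)
      rw [S.bar_bar] at this
      simpa [pr] using this
    have h6 := rank_one_col hlead hpz' (mulVec_ne (S.v_ne _) _) hcol
    rw [← Matrix.dotProduct_mulVec] at h6
    have h7 := (S.pr0 _ _ _ hk h6).2
    subst h7
    rw [one_mul] at h5
    have h8 : u' = u := inv_mul_eq_one.1 h5
    subst h8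
    refine ⟨rfl, rfl, ?_, rfl⟩
    rw [one_mul, mul_one] at he
    simp only [E] at he
    have := mul_right_cancel he
    exact (mul_left_cancel this).symm
  · intro r hr
    simp only [List.mem_cons, List.not_mem_nil, or_false] at hr
    rcases hr with rfl | rfl
    · exact mul_mem hk hu
    · exact hz
  · intro r hr
    simp only [List.mem_cons, List.not_mem_nil, or_false] at hr
    rcases hr with rfl | rfl
    · exact hu'
    · exact hz'

/-- classification of the elements conjugating one special element into another -/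
theorem FSetup.eclaim (S : FSetup G H φ v s h bar) : ∀ (n : ℕ) (g : SLC), RepN G φ v h n g →
    ∀ (a b : ι) (u z u' z' : SLC), u ∈ G → z ∈ G → u' ∈ G → z' ∈ G → u ≠ 1 → z ≠ 1 → u' ≠ 1 →
    z' ≠ 1 → g * E h bar a u z = E h bar b u' z' * g →
    (b = a ∧ u' = u ∧ z' = z ∧ ∃ m : ℤ, g = (E h bar b u' z') ^ m) ∨
    (b = bar a ∧ u' = z ∧ z' = u ∧ ∃ m : ℤ, g = (E h bar b u' z') ^ m * (u' * h b)) := by
  intro n
  induction n with
  | zero =>
    rintro g ⟨L, k, hn, hL, hk, hc, rfl⟩ a b u z u' z' hu hz hu' hz' hu1 hz1 hu1' hz1' he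
    rw [List.length_eq_zero_iff] at hn
    subst hn
    rw [val_nil, one_mul] at he ⊢
    obtain ⟨h1, h2, h3, h4⟩ := S.eclaim_zero k hk a b u z u' z' hu hz hu' hz' hz1 hz1' he
    exact Or.inl ⟨h1, h2, h3, 0, by rw [h4, zpow_zero]⟩
  | succ n ih =>
    rintro g ⟨L, k, hn, hL, hk, hc, rfl⟩ a b u z u' z' hu hz hu' hz' hu1 hz1 hu1' hz1' he
    cases L with
    | nil => simp at hn
    | cons p L =>
      have hrep : RepN G φ v h n (val h L * k) :=
        ⟨L, k, by simpa using hn, fun q hq => hL q (by simp [hq]), hk, hc.tail, rfl⟩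
      set g1 := val h L * k with hg1
      have hE'' : E h bar (bar b) z' u' = z' * h (bar b) * u' * h b := by
        simp only [E, S.bar_bar]
      have hconj : (u' * h b) * E h bar (bar b) z' u' * (u' * h b)⁻¹ = E h bar b u' z' := by
        rw [hE'', E, S.hbar]
        group
      have hconjz : ∀ m : ℤ, (u' * h b) * (E h bar (bar b) z' u') ^ m =
          (E h bar b u' z') ^ m * (u' * h b) := by
        intro m
        rw [← hconj, conj_zpow]
        group
      have hvk : val h (p :: L) * k = p.1 * h p.2 * g1 := by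
        rw [val_cons, hg1, mul_assoc]
      rcases S.head p L k hL hk hc a b u z u' z' hu hz hu' hz' hu1 hz1 he with rfl | rfl
      · rw [hvk] at he ⊢
        simp only at he ⊢
        have he1 : g1 * E h bar a u z = E h bar (bar b) z' u' * g1 := by
          have : (u' * h b) * (g1 * E h bar a u z) =
              (u' * h b) * (E h bar (bar b) z' u' * g1) := by
            rw [← mul_assoc, he, ← hconj]
            group
          exact mul_left_cancel this
        rcases ih g1 hrep a (bar b) u z z' u' hu hz hz' hu' hu1 hz1 hz1' hu1' he1 with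
          ⟨h1, h2, h3, m, h4⟩ | ⟨h1, h2, h3, m, h4⟩
        · right
          refine ⟨?_, h3, h2, m, ?_⟩
          · rw [← h1, S.bar_bar]
          · rw [h4, hconjz]
        · left
          have hb : b = a := by
            have := congrArg bar h1
            rwa [S.bar_bar, S.bar_bar] at this
          refine ⟨hb, h3, h2, m + 1, ?_⟩
          rw [h4, ← mul_assoc, hconjz, _root_.zpow_add, zpow_one]
          simp only [E, mul_assoc]
      · rw [hvk] at he ⊢
        simp only [one_mul] at he ⊢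
        have he1 : (z' * g1) * E h bar a u z = E h bar (bar b) z' u' * (z' * g1) := by
          have : (h b * z'⁻¹) * ((z' * g1) * E h bar a u z) =
              (h b * z'⁻¹) * (E h bar (bar b) z' u' * (z' * g1)) := by
            have e1 : (h b * z'⁻¹) * ((z' * g1) * E h bar a u z) =
                h b * g1 * E h bar a u z := by group
            rw [e1, he, hE'', E, S.hbar]
            group
          exact mul_left_cancel this
        have hEinv : h b * z'⁻¹ = (E h bar b u' z')⁻¹ * (u' * h b) := by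
          simp only [E, S.hbar]
          group
        have hg : h b * g1 = (E h bar b u' z')⁻¹ * ((u' * h b) * (z' * g1)) := by
          have : h b * g1 = (h b * z'⁻¹) * (z' * g1) := by group
          rw [this, hEinv]
          group
        rcases ih (z' * g1) (hrep.mul_left hz') a (bar b) u z z' u' hu hz hz' hu' hu1 hz1 hz1'
          hu1' he1 with ⟨h1, h2, h3, m, h4⟩ | ⟨h1, h2, h3, m, h4⟩
        · right
          refine ⟨?_, h3, h2, -1 + m, ?_⟩
          · rw [← h1, S.bar_bar]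
          · rw [hg, h4, hconjz, _root_.zpow_add, _root_.zpow_neg_one]
            simp only [mul_assoc]
        · left
          have hb : b = a := by
            have := congrArg bar h1
            rwa [S.bar_bar, S.bar_bar] at this
          refine ⟨hb, h3, h2, -1 + (m + 1), ?_⟩
          have e5 : (u' * h b) * (z' * g1) = (E h bar b u' z') ^ m * (E h bar b u' z') := by
            rw [h4, ← mul_assoc, hconjz]
            simp only [E, mul_assoc]
          rw [hg, e5, _root_.zpow_add, _root_.zpow_add, _root_.zpow_neg_one, zpow_one]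

end free

def det2 (u z : Fin 2 → ℂ) : ℂ := u 0 * z 1 - u 1 * z 0

theorem det2_mulVec (Q : SLC) (u z : Fin 2 → ℂ) :
    det2 ((Q : MC) *ᵥ u) ((Q : MC) *ᵥ z) = det2 u z := by
  have hd := det_eq Q
  simp only [det2, Matrix.mulVec, dotProduct, Fin.sum_univ_two]
  linear_combination (u 0 * z 1 - u 1 * z 0) * hd

theorem inv_mulVec (Q : SLC) (z : Fin 2 → ℂ) :
    (Q : MC) *ᵥ (((Q⁻¹ : SLC) : MC) *ᵥ z) = z := by
  rw [Matrix.mulVec_mulVec, ← Matrix.SpecialLinearGroup.coe_mul, mul_inv_cancel,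
      Matrix.SpecialLinearGroup.coe_one, Matrix.one_mulVec]

theorem det2_inv (Q : SLC) (u z : Fin 2 → ℂ) :
    det2 ((Q : MC) *ᵥ u) z = det2 u (((Q⁻¹ : SLC) : MC) *ᵥ z) := by
  conv_lhs => rw [← inv_mulVec Q z]
  rw [det2_mulVec]

theorem det2_swap (u z : Fin 2 → ℂ) : det2 u z = - det2 z u := by
  simp only [det2]; ring

theorem good_scalar {G : Subgroup SLC} (hG : Good G) {g : SLC} (hg : g ∈ G) (Q : SLC)
    (h01 : ((Q⁻¹ * g * Q : SLC) : MC) 0 1 = 0) (h10 : ((Q⁻¹ * g * Q : SLC) : MC) 1 0 = 0)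
    (h00 : ((Q⁻¹ * g * Q : SLC) : MC) 0 0 = ((Q⁻¹ * g * Q : SLC) : MC) 1 1) : g = 1 := by
  have hd := det_eq (Q⁻¹ * g * Q)
  rw [h01, h10, ← h00] at hd
  have htr : tr g = tr (Q⁻¹ * g * Q) := by
    rw [tr_mul_comm, ← mul_assoc, mul_inv_cancel, one_mul]
  rw [tr_eq (Q⁻¹ * g * Q), ← h00] at htr
  apply hG.2 g hg
  have h1 : (((Q⁻¹ * g * Q : SLC) : MC) 0 0 - 1) * (((Q⁻¹ * g * Q : SLC) : MC) 0 0 + 1) = 0 := by
    linear_combination hd
  rcases mul_eq_zero.1 h1 with h2 | h2
  · have h3 : tr g = 2 := by rw [htr]; linear_combination 2 * h2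
    rw [h3]; exact two_mem_Z
  · have h3 : tr g = -2 := by rw [htr]; linear_combination 2 * h2
    rw [h3]; exact neg_two_mem_Z

/-- choice of a point in general position -/
theorem pick {G : Subgroup SLC} (hG : Good G) (Q : SLC) {κ : Type} [Countable κ]
    (U : κ → (Fin 2 → ℂ)) (hU : ∀ k, U k ≠ 0) :
    ∃ p : ℂ, p ≠ 0 ∧ (∀ g ∈ G, g ≠ 1 →
      det2 ((Q : MC) *ᵥ ![p, 1]) ((g : MC) *ᵥ ((Q : MC) *ᵥ ![p, 1])) ≠ 0) ∧
      (∀ k, ∀ g ∈ G, det2 ((Q : MC) *ᵥ ![p, 1]) ((g : MC) *ᵥ U k) ≠ 0) := by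
  have : Countable G := hG.1.to_subtype
  obtain ⟨p, hp0, hp⟩ := exists_avoid (κ := G ⊕ (κ × G))
    (fun k => match k with
      | Sum.inl g => C (((Q⁻¹ * g * Q : SLC) : MC) 1 0) * X ^ 2 +
          C (((Q⁻¹ * g * Q : SLC) : MC) 1 1 - ((Q⁻¹ * g * Q : SLC) : MC) 0 0) * X -
          C (((Q⁻¹ * g * Q : SLC) : MC) 0 1)
      | Sum.inr (k, g) => C ((((Q⁻¹ * g : SLC) : MC) *ᵥ U k) 1) * X -
          C ((((Q⁻¹ * g : SLC) : MC) *ᵥ U k) 0))
    {0} (Set.countable_singleton 0)
  refine ⟨p, by simpa using hp0, ?_, ?_⟩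
  · intro g hg hg1
    have h1 := hp (Sum.inl ⟨g, hg⟩)
    simp only at h1
    have h2 : C (((Q⁻¹ * g * Q : SLC) : MC) 1 0) * X ^ 2 +
          C (((Q⁻¹ * g * Q : SLC) : MC) 1 1 - ((Q⁻¹ * g * Q : SLC) : MC) 0 0) * X -
          C (((Q⁻¹ * g * Q : SLC) : MC) 0 1) ≠ 0 := by
      intro h0
      apply hg1
      have e0 := congrArg (fun P => Polynomial.coeff P 0) h0
      have e1 := congrArg (fun P => Polynomial.coeff P 1) h0
      have e2 := congrArg (fun P => Polynomial.coeff P 2) h0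
      simp [Polynomial.coeff_X, Polynomial.coeff_C] at e0 e1 e2
      apply good_scalar hG hg Q
      · simpa using e0
      · simpa using e2
      · simpa using (sub_eq_zero.1 e1).symm
    have h3 := h1 h2
    rw [det2_inv, Matrix.mulVec_mulVec, Matrix.mulVec_mulVec,
      ← Matrix.SpecialLinearGroup.coe_mul, ← Matrix.SpecialLinearGroup.coe_mul]
    simp only [eval_sub, eval_add, eval_mul, eval_C, eval_pow, eval_X] at h3
    intro h4
    apply h3
    rw [← h4]
    simp only [det2, Matrix.mulVec, dotProduct, Fin.sum_univ_two, Matrix.cons_val_zero,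
      Matrix.cons_val_one, Matrix.cons_val_fin_one]
    ring
  · intro k g hg
    have h1 := hp (Sum.inr (k, ⟨g, hg⟩))
    simp only at h1
    have hne : ((Q⁻¹ * g : SLC) : MC) *ᵥ U k ≠ 0 := mulVec_ne (hU k) _
    rw [det2_inv, Matrix.mulVec_mulVec, ← Matrix.SpecialLinearGroup.coe_mul]
    generalize ((Q⁻¹ * g : SLC) : MC) *ᵥ U k = z at *
    have h2 : C (z 1) * X - C (z 0) ≠ 0 := by
      intro h0
      apply hne
      have e0 := congrArg (fun P => Polynomial.coeff P 0) h0
      have e1 := congrArg (fun P => Polynomial.coeff P 1) h0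
      simp [Polynomial.coeff_X, Polynomial.coeff_C] at e0 e1
      ext i
      fin_cases i
      · simpa using e0
      · simpa using e1
    have h3 := h1 h2
    simp only [eval_sub, eval_mul, eval_C, eval_X] at h3
    intro h4
    apply h3
    rw [← h4]
    simp only [det2, Matrix.cons_val_zero,
      Matrix.cons_val_one, Matrix.cons_val_fin_one]
    ring

def VV (Q : Bool → SLC) (p q : Bool → ℂ) (a : Bool × Bool) : Fin 2 → ℂ :=
  (Q a.1 : MC) *ᵥ ![if a.2 then p a.1 else q a.1, 1]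

def bb (a : Bool × Bool) : Bool × Bool := (a.1, !a.2)

theorem freeStep {G : Subgroup SLC} (hG : Good G) (Q : Bool → SLC) (A B C' D' : Bool → ℂ[X])
    (γ p q : Bool → ℂ) (hγ : ∀ i, γ i ≠ 0) (hA : ∀ i, (A i).eval 0 = γ i * p i)
    (hB : ∀ i, (B i).eval 0 = -(γ i * p i * q i)) (hC : ∀ i, (C' i).eval 0 = γ i)
    (hD : ∀ i, (D' i).eval 0 = -(γ i * q i)) (hdet : ∀ i, A i * D' i - B i * C' i = X ^ 2)
    (hgen : ∀ g ∈ G, ∀ a b, det2 (VV Q p q a) ((g : MC) *ᵥ VV Q p q b) = 0 → a = b ∧ g = 1) :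
    ∃ (s : ℂ) (H : Bool × Bool → PM) (φ : Bool × Bool → (Fin 2 → ℂ)) (h : Bool × Bool → SLC),
      s ≠ 0 ∧ FSetup G H φ (VV Q p q) s h bb ∧
      (∀ i, s • (h (i, true) : MC) = (Q i : MC) *
        !![(A i).eval s, (B i).eval s; (C' i).eval s, (D' i).eval s] * (((Q i)⁻¹ : SLC) : MC)) ∧
      (∀ i, s • (h (i, false) : MC) = (Q i : MC) *
        !![(D' i).eval s, -(B i).eval s; -(C' i).eval s, (A i).eval s] *
          (((Q i)⁻¹ : SLC) : MC)) := by
  let H : Bool × Bool → PM := fun a => pm (Q a.1) *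
    (if a.2 then !![A a.1, B a.1; C' a.1, D' a.1] else !![D' a.1, -B a.1; -C' a.1, A a.1]) *
    pm (Q a.1)⁻¹
  obtain ⟨s, hs⟩ := exists_generic G hG.1 H
  have hs0 := hs.ne
  have hdets : ∀ i, (A i).eval s * (D' i).eval s - (B i).eval s * (C' i).eval s = s ^ 2 := by
    intro i
    have := congrArg (Polynomial.eval s) (hdet i)
    simpa using this
  have hd1 : ∀ i, ((A i).eval s / s) * ((D' i).eval s / s) -
      ((B i).eval s / s) * ((C' i).eval s / s) = 1 := by
    intro i
    field_simp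
    exact hdets i
  let h : Bool × Bool → SLC := fun a =>
    if a.2 then Q a.1 * mk4 _ _ _ _ (hd1 a.1) * (Q a.1)⁻¹
    else (Q a.1 * mk4 _ _ _ _ (hd1 a.1) * (Q a.1)⁻¹)⁻¹
  let φ : Bool × Bool → (Fin 2 → ℂ) := fun a =>
    (if a.2 then ![γ a.1, -(γ a.1 * q a.1)] else ![-γ a.1, γ a.1 * p a.1]) ᵥ*
      (((Q a.1)⁻¹ : SLC) : MC)
  have hpr : ∀ a g b, pr φ (VV Q p q) a g b =
      (if a.2 then - γ a.1 else γ a.1) * det2 (VV Q p q (bb a)) ((g : MC) *ᵥ VV Q p q b) := by
    rintro ⟨i, e⟩ g b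
    cases e
    · simp only [pr, φ, bb, VV, Bool.false_eq_true, if_false, Bool.not_false, if_true]
      rw [det2_inv, ← Matrix.dotProduct_mulVec]
      generalize ((((Q i)⁻¹ : SLC) : MC) *ᵥ ((g : MC) *ᵥ ((Q b.1 : MC) *ᵥ
        ![if b.2 = true then p b.1 else q b.1, 1]))) = z
      simp only [det2, dotProduct, Fin.sum_univ_two, Matrix.cons_val_zero,
        Matrix.cons_val_one, Matrix.cons_val_fin_one]
      ring
    · simp only [pr, φ, bb, VV, if_true, Bool.not_true, Bool.false_eq_true, if_false]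
      rw [det2_inv, ← Matrix.dotProduct_mulVec]
      generalize ((((Q i)⁻¹ : SLC) : MC) *ᵥ ((g : MC) *ᵥ ((Q b.1 : MC) *ᵥ
        ![if b.2 = true then p b.1 else q b.1, 1]))) = z
      simp only [det2, dotProduct, Fin.sum_univ_two, Matrix.cons_val_zero,
        Matrix.cons_val_one, Matrix.cons_val_fin_one]
      ring
  have hκ : ∀ a : Bool × Bool, (if a.2 then - γ a.1 else γ a.1) ≠ 0 := by
    rintro ⟨i, e⟩
    cases e
    · simpa using hγ i
    · simpa using hγ i
  have hbb : ∀ a, bb (bb a) = a := by rintro ⟨i, e⟩; simp [bb]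
  have hbne : ∀ a, bb a ≠ a := by rintro ⟨i, e⟩; cases e <;> simp [bb]
  have hpr0 : ∀ a b, ∀ g ∈ G, pr φ (VV Q p q) a g b = 0 → b = bb a ∧ g = 1 := by
    intro a b g hg h0
    rw [hpr] at h0
    rcases mul_eq_zero.1 h0 with h1 | h1
    · exact absurd h1 (hκ a)
    · have := hgen g hg _ _ h1
      exact ⟨this.1.symm, this.2⟩
  have hhb : ∀ a, h (bb a) = (h a)⁻¹ := by
    rintro ⟨i, e⟩
    cases e <;> simp [h, bb]
  have evtrue : ∀ i, ev s (H (i, true)) = (Q i : MC) *
        !![(A i).eval s, (B i).eval s; (C' i).eval s, (D' i).eval s] *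
          (((Q i)⁻¹ : SLC) : MC) := by
    intro i
    simp only [H, if_true]
    rw [map_mul, map_mul, ev_pm, ev_pm]
    congr 2
    ext k l
    fin_cases k <;> fin_cases l <;> simp [ev]
  have evfalse : ∀ i, ev s (H (i, false)) = (Q i : MC) *
        !![(D' i).eval s, -(B i).eval s; -(C' i).eval s, (A i).eval s] *
          (((Q i)⁻¹ : SLC) : MC) := by
    intro i
    simp only [H, Bool.false_eq_true, if_false]
    rw [map_mul, map_mul, ev_pm, ev_pm]
    congr 2
    ext k l
    fin_cases k <;> fin_cases l <;> simp [ev]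
  have htrue : ∀ i, s • (h (i, true) : MC) = (Q i : MC) *
        !![(A i).eval s, (B i).eval s; (C' i).eval s, (D' i).eval s] *
          (((Q i)⁻¹ : SLC) : MC) := by
    intro i
    simp only [h, if_true]
    rw [Matrix.SpecialLinearGroup.coe_mul, Matrix.SpecialLinearGroup.coe_mul, coe_mk4,
      ← Matrix.smul_mul, ← Matrix.mul_smul]
    congr 2
    ext k l
    fin_cases k <;> fin_cases l <;> simp <;> field_simp
  have hfalse : ∀ i, s • (h (i, false) : MC) = (Q i : MC) *
        !![(D' i).eval s, -(B i).eval s; -(C' i).eval s, (A i).eval s] *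
          (((Q i)⁻¹ : SLC) : MC) := by
    intro i
    have e1 : h (i, false) = Q i * (mk4 _ _ _ _ (hd1 i))⁻¹ * (Q i)⁻¹ := by
      simp only [h, Bool.false_eq_true, if_false]
      group
    rw [e1, Matrix.SpecialLinearGroup.coe_mul, Matrix.SpecialLinearGroup.coe_mul, coe_inv_eq,
      coe_mk4, ← Matrix.smul_mul, ← Matrix.mul_smul]
    congr 2
    ext k l
    fin_cases k <;> fin_cases l <;> simp <;> field_simp
  refine ⟨s, H, φ, h, hs0, ⟨⟨hG, hs, ?_, ?_, ?_, ?_, ?_⟩, hbb, hbne, hhb, hpr0, ?_⟩, htrue, hfalse⟩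
  · rintro ⟨i, e⟩
    cases e
    · simp only [H, Bool.false_eq_true, if_false, φ, VV]
      rw [map_mul, map_mul, ev_pm, ev_pm, ← Matrix.vecMulVec_mul, ← Matrix.mul_vecMulVec]
      congr 2
      ext k l
      fin_cases k <;> fin_cases l <;> simp [ev, Matrix.vecMulVec_apply, hA, hB, hC, hD] <;> ring
    · simp only [H, if_true, φ, VV]
      rw [map_mul, map_mul, ev_pm, ev_pm, ← Matrix.vecMulVec_mul, ← Matrix.mul_vecMulVec]
      congr 2
      ext k l
      fin_cases k <;> fin_cases l <;> simp [ev, Matrix.vecMulVec_apply, hA, hB, hC, hD] <;> ring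
  · rintro ⟨i, e⟩
    cases e
    · rw [evfalse, hfalse]
    · rw [evtrue, htrue]
  · intro a g hg h0
    exact hbne a (hpr0 a a g hg h0).1.symm
  · intro a b g hg h0
    obtain ⟨rfl, rfl⟩ := hpr0 a b g hg h0
    rw [hhb, mul_one, mul_inv_cancel]
    exact one_mem _
  · intro a
    exact ⟨bb a, (hhb a).symm⟩
  · intro a
    rw [hpr, Matrix.SpecialLinearGroup.coe_one, Matrix.one_mulVec]
    simp only [det2]
    ring

theorem quad (r r' r'' : ℂ) (hr : r ≠ 0) :
    ∃ r1 r2 : ℂ, r * (r1 + r2) = -r' ∧ r * (r1 * r2) = r'' := by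
  obtain ⟨δ, hδ⟩ := IsAlgClosed.exists_pow_nat_eq (r' ^ 2 - 4 * r * r'') (n := 2) (by norm_num)
  refine ⟨(-r' + δ) / (2 * r), (-r' - δ) / (2 * r), ?_, ?_⟩
  · field_simp
    ring
  · field_simp
    linear_combination -hδ

theorem trace_conj4 (Q : SLC) (a b c d : MC) :
    Matrix.trace (((Q : MC) * a * ((Q⁻¹ : SLC) : MC)) * ((Q : MC) * b * ((Q⁻¹ : SLC) : MC)) *
      ((Q : MC) * c * ((Q⁻¹ : SLC) : MC)) * ((Q : MC) * d * ((Q⁻¹ : SLC) : MC))) =
    Matrix.trace (a * b * c * d) := by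
  have h1 : ((Q⁻¹ : SLC) : MC) * (Q : MC) = 1 := by
    rw [← Matrix.SpecialLinearGroup.coe_mul, inv_mul_cancel, Matrix.SpecialLinearGroup.coe_one]
  have h2 : ∀ M : MC, ((Q⁻¹ : SLC) : MC) * ((Q : MC) * M) = M := by
    intro M; rw [← Matrix.mul_assoc, h1, Matrix.one_mul]
  simp only [Matrix.mul_assoc, h2]
  rw [Matrix.trace_mul_comm]
  simp only [Matrix.mul_assoc, h1, Matrix.mul_one]

/-- the geometric part of the extension step -/
theorem exists_free {G : Subgroup SLC} (hG : Good G) {x y : SLC} (hx : x ∈ G) (hy : y ∈ G)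
    (hx1 : x ≠ 1) (hy1 : y ≠ 1) :
    ∃ (s : ℂ) (H : Bool × Bool → PM) (φ v : Bool × Bool → (Fin 2 → ℂ)) (h : Bool × Bool → SLC),
      FSetup G H φ v s h bb ∧
      tr (E h bb (true, true) y y) = tr (E h bb (false, true) x y) := by
  obtain ⟨lam, hl1, hl2⟩ := exists_mu (tr y)
    (fun h => hy1 (hG.2 y hy (by rw [h]; exact two_mem_Z)))
    (fun h => hy1 (hG.2 y hy (by rw [h]; exact neg_two_mem_Z)))
  obtain ⟨Q, hQ⟩ := exists_diag y lam hl1 hl2
  have hll : (lam : ℂ) * ((lam⁻¹ : ℂˣ) : ℂ) = 1 := by simp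
  set l := (lam : ℂ) with hl
  set l' := ((lam⁻¹ : ℂˣ) : ℂ) with hl'
  have hne1 : ∀ p : ℂ, ∀ Q : SLC, (Q : MC) *ᵥ ![p, 1] ≠ 0 := by
    intro p Q
    apply mulVec_ne
    intro h0
    have := congrFun h0 1
    simp at this
  obtain ⟨p2, hp20, hp2, -⟩ := pick hG 1 (κ := Empty) (fun e => e.elim) (fun e => e.elim)
  obtain ⟨q2, hq20, hq2, hq2'⟩ := pick hG 1 (κ := Unit)
    (fun _ => ((1 : SLC) : MC) *ᵥ ![p2, 1]) (fun _ => hne1 _ _)
  obtain ⟨p1, hp10, hp1, hp1'⟩ := pick hG Q (κ := Bool)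
    (fun e => ((1 : SLC) : MC) *ᵥ ![if e then p2 else q2, 1]) (fun _ => hne1 _ _)
  obtain ⟨q1, hq10, hq1, hq1'⟩ := pick hG Q (κ := Option Bool)
    (fun e => match e with
      | none => (Q : MC) *ᵥ ![p1, 1]
      | some e => ((1 : SLC) : MC) *ᵥ ![if e then p2 else q2, 1])
    (fun e => by cases e <;> exact hne1 _ _)
  -- the second letter
  let f : ℂ → ℂ := fun s => Matrix.trace ((x : MC) *
    !![s + p2, (p2 - q2) * s - p2 * q2; 1, s - q2] * (y : MC) *
    !![s - q2, -((p2 - q2) * s - p2 * q2); -1, s + p2])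
  have hf : ∀ s, f s = f 0 + (f 1 - f (-1)) / 2 * s + ((f 1 + f (-1)) / 2 - f 0) * s ^ 2 := by
    intro s
    simp only [f, Matrix.trace_fin_two, Matrix.mul_apply, Fin.sum_univ_two, Matrix.of_apply,
      Matrix.cons_val', Matrix.cons_val_zero, Matrix.cons_val_one, Matrix.cons_val_fin_one]
    ring
  have hf0 : f 0 ≠ 0 := by
    have h1 := hp2 x hx hx1
    have h2 := hq2 y hy hy1
    have h3 : f 0 = - det2 (((1 : SLC) : MC) *ᵥ ![p2, 1])
        ((x : MC) *ᵥ (((1 : SLC) : MC) *ᵥ ![p2, 1])) *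
        det2 (((1 : SLC) : MC) *ᵥ ![q2, 1]) ((y : MC) *ᵥ (((1 : SLC) : MC) *ᵥ ![q2, 1])) := by
      rw [Matrix.SpecialLinearGroup.coe_one, Matrix.one_mulVec, Matrix.one_mulVec]
      simp only [f, Matrix.trace_fin_two, Matrix.mul_apply, Fin.sum_univ_two, Matrix.of_apply,
        Matrix.cons_val', Matrix.cons_val_zero, Matrix.cons_val_one, Matrix.cons_val_fin_one,
        det2, Matrix.mulVec, dotProduct]
      ring
    rw [h3]
    exact mul_ne_zero (neg_ne_zero.2 h1) h2
  set α0 := f 0 with hα0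
  set α1 := (f 1 - f (-1)) / 2 with hα1
  set α2 := (f 1 + f (-1)) / 2 - f 0 with hα2
  have hK : (l - l') ^ 2 ≠ 0 := pow_ne_zero 2 (sub_ne_zero.2 hl2)
  set K := (l - l') ^ 2 with hKdef
  set r := α0 / K with hr
  set r' := α1 / K with hr'
  set r'' := (α2 - (l ^ 2 + l' ^ 2)) / K with hr''
  have hr0 : r ≠ 0 := div_ne_zero hf0 hK
  obtain ⟨r1, r2, hr1, hr2⟩ := quad r r' r'' hr0
  obtain ⟨s1, s2, hs1, hs2⟩ := quad r r' (r'' + 1) hr0
  obtain ⟨γ, hγ⟩ := IsAlgClosed.exists_pow_nat_eq (-r / (p1 * q1)) (n := 2) (by norm_num)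
  have hpq : p1 * q1 ≠ 0 := mul_ne_zero hp10 hq10
  have hγr : -(γ ^ 2 * (p1 * q1)) = r := by
    rw [hγ]; field_simp
  have hγ0 : γ ≠ 0 := by
    rintro rfl
    apply hr0
    rw [← hγr]; ring
  let QQ : Bool → SLC := fun i => if i then Q else 1
  let pp : Bool → ℂ := fun i => if i then p1 else p2
  let qq : Bool → ℂ := fun i => if i then q1 else q2
  let gg : Bool → ℂ := fun i => if i then γ else 1
  let A : Bool → ℂ[X] := fun i => if i then C (γ * p1) * (1 - C s1 * X) else X + C p2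
  let B : Bool → ℂ[X] := fun i => if i then -(C (γ * p1 * q1) * (1 - C r2 * X)) else
    C (p2 - q2) * X - C (p2 * q2)
  let C' : Bool → ℂ[X] := fun i => if i then C γ * (1 - C r1 * X) else 1
  let D' : Bool → ℂ[X] := fun i => if i then -(C (γ * q1) * (1 - C s2 * X)) else X - C q2
  obtain ⟨s, H, φ, h, hs0, hF, ht, hf'⟩ := freeStep hG QQ A B C' D' gg pp qq
    (by rintro (_ | _) <;> simp [gg, hγ0])
    (by rintro (_ | _) <;> simp [A, gg, pp])
    (by rintro (_ | _) <;> simp [B, gg, pp, qq])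
    (by rintro (_ | _) <;> simp [C', gg])
    (by rintro (_ | _) <;> simp [D', gg, qq])
    (by
      rintro (_ | _)
      · simp only [A, B, C', D', Bool.false_eq_true, if_false]
        apply Polynomial.funext
        intro t
        simp
        ring
      · simp only [A, B, C', D', if_true]
        apply Polynomial.funext
        intro t
        simp
        linear_combination ((1 - s1 * t) * (1 - s2 * t) - (1 - r1 * t) * (1 - r2 * t)) * hγr +
          t ^ 2 * (hs2 - hr2) - t * (hs1 - hr1))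
    (by
      have swap : ∀ (u w : Fin 2 → ℂ), (∀ g ∈ G, det2 u ((g : MC) *ᵥ w) ≠ 0) →
          ∀ g ∈ G, det2 w ((g : MC) *ᵥ u) ≠ 0 := by
        intro u w hh g hg h0
        apply hh g⁻¹ (inv_mem hg)
        have h1 := det2_inv g⁻¹ w u
        rw [inv_inv] at h1
        rw [det2_swap, h1, h0, neg_zero]
      have e1 : ∀ g ∈ G, det2 ((Q : MC) *ᵥ ![p1, 1]) ((g : MC) *ᵥ ((Q : MC) *ᵥ ![p1, 1])) = 0 →
          g = 1 := fun g hg h0 => by_contra fun hc => hp1 g hg hc h0
      have e2 : ∀ g ∈ G, det2 ((Q : MC) *ᵥ ![q1, 1]) ((g : MC) *ᵥ ((Q : MC) *ᵥ ![q1, 1])) = 0 →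
          g = 1 := fun g hg h0 => by_contra fun hc => hq1 g hg hc h0
      have e3 : ∀ g ∈ G, det2 (((1 : SLC) : MC) *ᵥ ![p2, 1])
          ((g : MC) *ᵥ (((1 : SLC) : MC) *ᵥ ![p2, 1])) = 0 →
          g = 1 := fun g hg h0 => by_contra fun hc => hp2 g hg hc h0
      have e4 : ∀ g ∈ G, det2 (((1 : SLC) : MC) *ᵥ ![q2, 1])
          ((g : MC) *ᵥ (((1 : SLC) : MC) *ᵥ ![q2, 1])) = 0 →
          g = 1 := fun g hg h0 => by_contra fun hc => hq2 g hg hc h0
      have e5 := hq2' ()
      have e6 := hp1' true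
      have e7 := hp1' false
      have e8 := hq1' none
      have e9 := hq1' (some true)
      have e10 := hq1' (some false)
      simp only [if_true, Bool.false_eq_true, if_false] at e5 e6 e7 e8 e9 e10
      rintro g hg ⟨i, e⟩ ⟨j, e'⟩ h0
      cases i <;> cases e <;> cases j <;> cases e' <;>
        simp only [VV, QQ, pp, qq, if_true, Bool.false_eq_true, if_false] at h0
      · exact ⟨rfl, e4 g hg h0⟩
      · exact absurd h0 (e5 g hg)
      · exact absurd h0 (swap _ _ e10 g hg)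
      · exact absurd h0 (swap _ _ e7 g hg)
      · exact absurd h0 (swap _ _ e5 g hg)
      · exact ⟨rfl, e3 g hg h0⟩
      · exact absurd h0 (swap _ _ e9 g hg)
      · exact absurd h0 (swap _ _ e6 g hg)
      · exact absurd h0 (e10 g hg)
      · exact absurd h0 (e9 g hg)
      · exact ⟨rfl, e2 g hg h0⟩
      · exact absurd h0 (e8 g hg)
      · exact absurd h0 (e7 g hg)
      · exact absurd h0 (e6 g hg)
      · exact absurd h0 (swap _ _ e8 g hg)
      · exact ⟨rfl, e1 g hg h0⟩)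
  refine ⟨s, H, φ, VV QQ pp qq, h, hF, ?_⟩
  -- compare the traces
  have hT : ∀ (i : Bool) (u z : SLC), s ^ 2 * tr (E h bb (i, true) u z) =
      Matrix.trace ((u : MC) * (s • (h (i, true) : MC)) * (z : MC) *
        (s • (h (i, false) : MC))) := by
    intro i u z
    simp only [E, bb, Bool.not_true, tr, Matrix.SpecialLinearGroup.coe_mul, Matrix.mul_smul,
      Matrix.smul_mul, Matrix.trace_smul, smul_eq_mul]
    ring
  have h1 : s ^ 2 * tr (E h bb (false, true) x y) = f s := by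
    rw [hT, ht, hf']
    simp only [QQ, Bool.false_eq_true, if_false, inv_one, Matrix.SpecialLinearGroup.coe_one,
      Matrix.one_mul, Matrix.mul_one, A, B, C', D', f]
    simp
  have h2 : s ^ 2 * tr (E h bb (true, true) y y) = K * (r * ((1 - r1 * s) * (1 - r2 * s))) +
      (l ^ 2 + l' ^ 2) * s ^ 2 := by
    rw [hT, ht, hf']
    simp only [QQ, if_true]
    rw [hQ, Matrix.SpecialLinearGroup.coe_mul, Matrix.SpecialLinearGroup.coe_mul, trace_conj4,
      coe_D, ← hl, ← hl']
    simp only [A, B, C', D', if_true]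
    simp only [Matrix.trace_fin_two, Matrix.mul_apply, Fin.sum_univ_two, Matrix.of_apply,
      Matrix.cons_val', Matrix.cons_val_zero, Matrix.cons_val_one, Matrix.cons_val_fin_one,
      eval_mul, eval_sub, eval_neg, eval_C, eval_one, eval_X]
    linear_combination ((l ^ 2 + l' ^ 2) * (1 - s1 * s) * (1 - s2 * s) -
      2 * l * l' * (1 - r1 * s) * (1 - r2 * s)) * hγr +
      (l ^ 2 + l' ^ 2) * (-s * (hs1 - hr1) + s ^ 2 * (hs2 - hr2))
  have h3 : s ^ 2 * tr (E h bb (true, true) y y) = s ^ 2 * tr (E h bb (false, true) x y) := by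
    rw [h1, h2, hf s]
    have e1 : K * r = α0 := by rw [hr]; field_simp
    have e2 : K * r' = α1 := by rw [hr']; field_simp
    have e3 : K * r'' = α2 - (l ^ 2 + l' ^ 2) := by rw [hr'']; field_simp
    linear_combination e1 + s * e2 + s ^ 2 * e3 - K * s * hr1 + K * s ^ 2 * hr2
  exact mul_left_cancel₀ (pow_ne_zero 2 hs0) h3

theorem D_mul (μ ν : ℂˣ) : D (μ * ν) = D μ * D ν := by
  apply sl_ext
  rw [Matrix.SpecialLinearGroup.coe_mul, coe_D, coe_D, coe_D]
  ext i j
  fin_cases i <;> fin_cases j <;> simp [mul_comm]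

theorem D_one : D 1 = 1 := by
  apply sl_ext
  rw [coe_D, Matrix.SpecialLinearGroup.coe_one]
  ext i j
  fin_cases i <;> fin_cases j <;> simp

theorem D_zpow (μ : ℂˣ) (k : ℤ) : D (μ ^ k) = (D μ) ^ k := by
  let F : ℂˣ →* SLC := { toFun := D, map_one' := D_one, map_mul' := D_mul }
  exact map_zpow F μ k

theorem tr_D (μ : ℂˣ) : tr (D μ) = (μ : ℂ) + ((μ⁻¹ : ℂˣ) : ℂ) := by
  rw [tr_eq, coe_D]
  simp

/-- a power of `w` with the same trace as `w` is `w` or its inverse -/
theorem pow_eq {G : Subgroup SLC} (hG : Good G) {w : SLC} (hw : w ∈ G) (hw1 : w ≠ 1) (k : ℤ)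
    (h : tr (w ^ k) = tr w) : k = 1 ∨ k = -1 := by
  obtain ⟨μ, hμ1, hμ2⟩ := exists_mu (tr w)
    (fun h => hw1 (hG.2 w hw (by rw [h]; exact two_mem_Z)))
    (fun h => hw1 (hG.2 w hw (by rw [h]; exact neg_two_mem_Z)))
  obtain ⟨Q, hQ⟩ := exists_diag w μ hμ1 hμ2
  have hno : ∀ n : ℤ, n ≠ 0 → μ ^ n ≠ 1 := by
    intro n hn h1
    apply hw1
    apply hG.2 w hw
    refine ⟨(μ : ℂ), ⟨n.natAbs, Int.natAbs_pos.2 hn, ?_⟩, ?_⟩
    · have h2 : μ ^ n.natAbs = 1 := by
        rcases Int.natAbs_eq n with h3 | h3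
        · rw [h3, zpow_natCast] at h1; exact h1
        · rw [h3, _root_.zpow_neg, zpow_natCast, inv_eq_one] at h1; exact h1
      have h3 := congrArg (fun u : ℂˣ => (u : ℂ)) h2
      simpa using h3
    · rw [← hμ1]; simp
  have h1 : w ^ k = Q * D (μ ^ k) * Q⁻¹ := by
    rw [D_zpow, hQ, conj_zpow]
  rw [h1, tr_conj, tr_D, ← hμ1] at h
  set ν := μ ^ k with hν
  have h2 : ((ν : ℂ) - μ) * ((ν : ℂ) * μ - 1) = 0 := by
    have e1 : (ν : ℂ) * ((ν⁻¹ : ℂˣ) : ℂ) = 1 := by simp
    have e2 : (μ : ℂ) * ((μ⁻¹ : ℂˣ) : ℂ) = 1 := by simp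
    linear_combination ((ν : ℂ) * μ) * h - (μ : ℂ) * e1 + (ν : ℂ) * e2
  rcases mul_eq_zero.1 h2 with h3 | h3
  · left
    have h4 : ν = μ := Units.ext (sub_eq_zero.1 h3)
    by_contra hne
    apply hno (k - 1) (sub_ne_zero.2 hne)
    rw [_root_.zpow_sub, ← hν, h4, zpow_one, mul_inv_cancel]
  · right
    have h4 : ν * μ = 1 := by
      apply Units.ext
      rw [Units.val_mul, Units.val_one]
      exact sub_eq_zero.1 h3
    by_contra hne
    apply hno (k + 1) (by intro h5; exact hne (by linarith))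
    rw [_root_.zpow_add, ← hν, zpow_one, h4]

/-- the extension step -/
theorem ext1 {G : Subgroup SLC} (hG : Good G) {x y : SLC} (hx : x ∈ G) (hy : y ∈ G)
    (hx1 : x ≠ 1) (hy1 : y ≠ 1) :
    ∃ G' : Subgroup SLC, Good G' ∧ G ≤ G' ∧
      x ∈ Subgroup.closure {z | ∃ k ∈ G', z = k * y * k⁻¹} ∧ ∃ k ∈ G', k * y ≠ y * k := by
  obtain ⟨s, H, φ, v, h, S, htr⟩ := exists_free hG hx hy hx1 hy1
  set a : Bool × Bool := (true, true) with ha
  set b : Bool × Bool := (false, true) with hb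
  set G2 := Subgroup.closure ((G : Set SLC) ∪ Set.range h) with hG2
  have hgood : Good G2 := S.good_closure
  have hle : G ≤ G2 := fun g hg => Subgroup.subset_closure (Or.inl hg)
  have hmem : ∀ c, h c ∈ G2 := fun c => Subgroup.subset_closure (Or.inr ⟨c, rfl⟩)
  have hE : ∀ c u z, u ∈ G → z ∈ G → E h bb c u z ∈ G2 := fun c u z hu hz =>
    mul_mem (mul_mem (mul_mem (hle hu) (hmem c)) (hle hz)) (hmem _)
  have hrep : ∀ g ∈ G2, ∃ n, RepN G φ v h n g := by
    intro g hg
    obtain ⟨L, k, hL, hk, hc, rfl⟩ := reduced G h φ v S.pinch S.inv g hg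
    exact ⟨L.length, L, k, rfl, hL, hk, hc, rfl⟩
  set w := E h bb a y y with hw
  set w' := E h bb b x y with hw'
  have hwG : w ∈ G2 := hE _ _ _ hy hy
  have hwG' : w' ∈ G2 := hE _ _ _ hx hy
  have hab : b ≠ a := by simp [ha, hb]
  have hab' : b ≠ bb a := by simp [ha, hb, bb]
  have haa : a ≠ bb a := (S.bar_ne a).symm
  have hbb' : b ≠ bb b := (S.bar_ne b).symm
  have R1 : ∀ g ∈ G2, g * w = w * g → ∃ k : ℤ, g = w ^ k := by
    intro g hg hc
    obtain ⟨n, hn⟩ := hrep g hg
    rcases S.eclaim n g hn a a y y y y hy hy hy hy hy1 hy1 hy1 hy1 hc with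
      ⟨-, -, -, m, hm⟩ | ⟨h1, -⟩
    · exact ⟨m, hm⟩
    · exact absurd h1 haa
  have R2 : ∀ g ∈ G2, g * w' = w' * g → ∃ k : ℤ, g = w' ^ k := by
    intro g hg hc
    obtain ⟨n, hn⟩ := hrep g hg
    rcases S.eclaim n g hn b b x y x y hx hy hx hy hx1 hy1 hx1 hy1 hc with
      ⟨-, -, -, m, hm⟩ | ⟨h1, -⟩
    · exact ⟨m, hm⟩
    · exact absurd h1 hbb'
  have hyw : y * w ≠ w * y := by
    intro hc
    exact hy1 (S.eclaim_zero y hy a a y y y y hy hy hy hy hy1 hy1 hc).2.2.2
  have hw1 : w ≠ 1 := by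
    intro h1
    apply hyw
    rw [h1, mul_one, one_mul]
  have R3 : ∀ g ∈ G2, (g * w' * g⁻¹) * w ≠ w * (g * w' * g⁻¹) := by
    intro g hg hc
    obtain ⟨k, hk⟩ := R1 _ (mul_mem (mul_mem hg hwG') (inv_mem hg)) hc
    have ht : tr (w ^ k) = tr w := by
      rw [← hk, tr_conj, hw, hw', htr]
    rcases pow_eq hgood hwG hw1 k ht with rfl | rfl
    · rw [zpow_one] at hk
      have h1 : g * w' = w * g := by rw [← hk]; group
      obtain ⟨n, hn⟩ := hrep g hg
      rcases S.eclaim n g hn b a x y y y hx hy hy hy hx1 hy1 hy1 hy1 h1 with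
        ⟨h2, -⟩ | ⟨h2, -⟩
      · exact hab h2.symm
      · apply hab'
        rw [h2, S.bar_bar]
    · rw [_root_.zpow_neg_one] at hk
      have h0 : w⁻¹ = y * E h bb a y⁻¹ y⁻¹ * y⁻¹ := by
        rw [hw]
        simp only [E, S.hbar]
        group
      have h1 : (y⁻¹ * g) * w' = E h bb a y⁻¹ y⁻¹ * (y⁻¹ * g) := by
        have h2 : g * w' = w⁻¹ * g := by rw [← hk]; group
        rw [mul_assoc, h2, h0]
        group
      obtain ⟨n, hn⟩ := hrep (y⁻¹ * g) (mul_mem (inv_mem (hle hy)) hg)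
      have hyi : y⁻¹ ≠ 1 := fun h => hy1 (inv_eq_one.1 h)
      rcases S.eclaim n _ hn b a x y y⁻¹ y⁻¹ hx hy (inv_mem hy) (inv_mem hy) hx1 hy1 hyi hyi h1
        with ⟨h2, -⟩ | ⟨h2, -⟩
      · exact hab h2.symm
      · apply hab'
        rw [h2, S.bar_bar]
  obtain ⟨G', hgood', hle', k, hk, hconj⟩ := hnn G2 hgood w w' hwG hwG' hw1 htr R1 R2 R3
  refine ⟨G', hgood', hle.trans hle', ?_, w, hle' hwG, fun hc => hyw hc.symm⟩
  have hin : ∀ g ∈ G', g * y * g⁻¹ ∈ Subgroup.closure {z | ∃ k ∈ G', z = k * y * k⁻¹} :=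
    fun g hg => Subgroup.subset_closure ⟨g, hg, rfl⟩
  have ex : x = (k * y * k⁻¹) * ((k * h a) * y * (k * h a)⁻¹) * (h b * y * (h b)⁻¹)⁻¹ := by
    have e1 : x = w' * (h b * y * (h b)⁻¹)⁻¹ := by
      rw [hw']
      simp only [E, S.hbar]
      group
    rw [e1, ← hconj, hw]
    simp only [E, S.hbar]
    group
  rw [ex]
  refine mul_mem (mul_mem (hin _ hk) (hin _ (mul_mem hk (hle' (hmem a))))) (inv_mem (hin _ ?_))
  exact hle' (hmem b)

theorem good_iSup {F : ℕ → Subgroup SLC} (hm : Monotone F) (hg : ∀ n, Good (F n)) :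
    Good (⨆ n, F n) := by
  have hmem : ∀ x, x ∈ (⨆ n, F n) ↔ ∃ n, x ∈ F n := fun x =>
    Subgroup.mem_iSup_of_directed hm.directed_le
  constructor
  · have : ((⨆ n, F n : Subgroup SLC) : Set SLC) = ⋃ n, (F n : Set SLC) := by
      ext x
      simp only [SetLike.mem_coe, hmem, Set.mem_iUnion]
    rw [this]
    exact Set.countable_iUnion fun n => (hg n).1
  · intro g hgm ht
    obtain ⟨n, hn⟩ := (hmem g).1 hgm
    exact (hg n).2 g hn ht

/-- the subgroup generated by the `G`-conjugates of `y` -/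
def NC (G : Subgroup SLC) (y : SLC) : Subgroup SLC :=
  Subgroup.closure {z | ∃ k ∈ G, z = k * y * k⁻¹}

theorem NC_mono {G G' : Subgroup SLC} (h : G ≤ G') (y : SLC) : NC G y ≤ NC G' y :=
  Subgroup.closure_mono fun _ ⟨k, hk, hz⟩ => ⟨k, h hk, hz⟩

theorem ext2 {G : Subgroup SLC} (hG : Good G) {x y : SLC} (hx : x ∈ G) (hy : y ∈ G) :
    ∃ G' : Subgroup SLC, Good G' ∧ G ≤ G' ∧ (y ≠ 1 → x ∈ NC G' y) := by
  by_cases hy1 : y = 1
  · exact ⟨G, hG, le_rfl, fun h => absurd hy1 h⟩
  · by_cases hx1 : x = 1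
    · exact ⟨G, hG, le_rfl, fun _ => by rw [hx1]; exact one_mem _⟩
    · obtain ⟨G', h1, h2, h3, -⟩ := ext1 hG hx hy hx1 hy1
      exact ⟨G', h1, h2, fun _ => h3⟩

theorem ext_all {G : Subgroup SLC} (hG : Good G) :
    ∃ G' : Subgroup SLC, Good G' ∧ G ≤ G' ∧ ∀ x ∈ G, ∀ y ∈ G, y ≠ 1 → x ∈ NC G' y := by
  have : Countable G := hG.1.to_subtype
  obtain ⟨e, he⟩ := exists_surjective_nat (G × G)
  -- the next group handles the pair `e n`
  have step : ∀ (n : ℕ) (F : {F : Subgroup SLC // Good F ∧ G ≤ F}),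
      ∃ F' : {F : Subgroup SLC // Good F ∧ G ≤ F}, F.1 ≤ F'.1 ∧
        (((e n).2 : SLC) ≠ 1 → ((e n).1 : SLC) ∈ NC F'.1 (e n).2) := by
    rintro n ⟨F, hF, hle⟩
    obtain ⟨F', h1, h2, h3⟩ := ext2 hF (hle (e n).1.2) (hle (e n).2.2)
    exact ⟨⟨F', h1, hle.trans h2⟩, h2, h3⟩
  choose next hnext using step
  let F : ℕ → {F : Subgroup SLC // Good F ∧ G ≤ F} := fun n =>
    Nat.rec ⟨G, hG, le_rfl⟩ (fun n F => next n F) n
  have hF : ∀ n, F (n + 1) = next n (F n) := fun n => rfl
  have hmono : Monotone (fun n => (F n).1) := by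
    apply monotone_nat_of_le_succ
    intro n
    rw [hF]
    exact (hnext n (F n)).1
  refine ⟨⨆ n, (F n).1, good_iSup hmono fun n => (F n).2.1, ?_, ?_⟩
  · exact (F 0).2.2.trans (le_iSup (fun n => (F n).1) 0)
  · intro x hx y hy hy1
    obtain ⟨n, hn⟩ := he (⟨x, hx⟩, ⟨y, hy⟩)
    have h1 := (hnext n (F n)).2
    rw [hn] at h1
    exact NC_mono (le_iSup (fun n => (F n).1) (n + 1)) _ (h1 hy1)

/-- the starting element -/
noncomputable def g0 : SLC := D (Units.mk0 2 two_ne_zero)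

theorem norm_eq_one_of_pow {μ : ℂ} {n : ℕ} (hn : 0 < n) (h : μ ^ n = 1) : ‖μ‖ = 1 :=
  Complex.norm_eq_one_of_pow_eq_one h hn.ne'

theorem good_zpowers : Good (Subgroup.zpowers g0) := by
  constructor
  · exact Set.countable_coe_iff.1 (inferInstanceAs (Countable (Subgroup.zpowers g0)))
  · rintro g ⟨k, rfl⟩ ⟨μ, ⟨n, hn, hμ⟩, he⟩
    simp only at he ⊢
    have hμ1 := norm_eq_one_of_pow hn hμ
    have hμ0 : μ ≠ 0 := by
      rintro rfl
      rw [norm_zero] at hμ1
      exact zero_ne_one hμ1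
    rw [g0, ← D_zpow, tr_D] at he
    set ν := (Units.mk0 (2 : ℂ) two_ne_zero) ^ k with hν
    have hν1 : (ν : ℂ) * ((ν⁻¹ : ℂˣ) : ℂ) = 1 := by simp
    have hμ2 : μ * μ⁻¹ = 1 := mul_inv_cancel₀ hμ0
    have h2 : ((ν : ℂ) - μ) * ((ν : ℂ) * μ - 1) = 0 := by
      linear_combination ((ν : ℂ) * μ) * he - (μ : ℂ) * hν1 + (ν : ℂ) * hμ2
    have hnorm : ‖(ν : ℂ)‖ = 1 := by
      rcases mul_eq_zero.1 h2 with h3 | h3
      · rw [sub_eq_zero.1 h3, hμ1]
      · have h4 := congrArg norm (sub_eq_zero.1 h3)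
        rw [norm_mul, hμ1, mul_one, norm_one] at h4
        exact h4
    have hk : k = 0 := by
      rw [hν, Units.val_zpow_eq_zpow_val, Units.val_mk0, norm_zpow, Complex.norm_ofNat] at hnorm
      by_contra hk
      rcases lt_or_gt_of_ne hk with hk | hk
      · have := zpow_lt_one_of_neg₀ (a := (2 : ℝ)) (by norm_num) hk
        linarith
      · have := one_lt_zpow₀ (a := (2 : ℝ)) (by norm_num) hk
        linarith
    rw [hk, zpow_zero]

theorem g0_ne : g0 ≠ 1 := by
  intro h
  have := congrArg (fun g : SLC => (g : MC) 0 0) h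
  simp [g0, coe_D] at this

theorem simple_of {G : Subgroup SLC} (hkey : ∀ x ∈ G, ∀ y ∈ G, y ≠ 1 → x ∈ NC G y)
    {g : SLC} (hg : g ∈ G) (hg1 : g ≠ 1) : IsSimpleGroup G := by
  have : Nontrivial G := ⟨⟨⟨g, hg⟩, 1, fun h => hg1 (congrArg Subtype.val h)⟩⟩
  refine { eq_bot_or_eq_top_of_normal := ?_ }
  intro N hN
  by_cases hbot : N = ⊥
  · exact Or.inl hbot
  · right
    obtain ⟨y, hyN, hy1⟩ := N.bot_or_exists_ne_one.resolve_left hbot
    rw [eq_top_iff]
    intro x _
    have h1 : (x : SLC) ∈ NC G (y : SLC) :=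
      hkey x x.2 y y.2 (fun h => hy1 (Subtype.ext h))
    have h2 : NC G (y : SLC) ≤ N.map G.subtype := by
      rw [NC, Subgroup.closure_le]
      rintro z ⟨c, hc, rfl⟩
      have h3 := hN.conj_mem y hyN (⟨c, hc⟩ : G)
      exact ⟨_, h3, rfl⟩
    obtain ⟨x', hx', hxx⟩ := h2 h1
    have : x' = x := Subtype.ext hxx
    rwa [← this]

/-- a good group which is simple and non-commutative -/
theorem exists_simple : ∃ G : Subgroup SLC, Good G ∧ IsSimpleGroup G ∧
    ∃ a b : G, a * b ≠ b * a := by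
  -- a non-abelian good group containing `g0`
  obtain ⟨G1, hG1, hle1, -, k, hk, hne⟩ := ext1 good_zpowers (Subgroup.mem_zpowers g0)
    (Subgroup.mem_zpowers g0) g0_ne g0_ne
  have step : ∀ F : {F : Subgroup SLC // Good F}, ∃ F' : {F : Subgroup SLC // Good F},
      F.1 ≤ F'.1 ∧ ∀ x ∈ F.1, ∀ y ∈ F.1, y ≠ 1 → x ∈ NC F'.1 y := by
    rintro ⟨F, hF⟩
    obtain ⟨F', h1, h2, h3⟩ := ext_all hF
    exact ⟨⟨F', h1⟩, h2, h3⟩
  choose next hnext using step
  let F : ℕ → {F : Subgroup SLC // Good F} := fun n => Nat.rec ⟨G1, hG1⟩ (fun _ F => next F) n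
  have hF : ∀ n, F (n + 1) = next (F n) := fun n => rfl
  have hmono : Monotone (fun n => (F n).1) := by
    apply monotone_nat_of_le_succ
    intro n
    rw [hF]
    exact (hnext (F n)).1
  have hmem : ∀ x, x ∈ (⨆ n, (F n).1) ↔ ∃ n, x ∈ (F n).1 := fun x =>
    Subgroup.mem_iSup_of_directed hmono.directed_le
  set G := ⨆ n, (F n).1 with hGdef
  have hG : Good G := good_iSup hmono fun n => (F n).2
  have hkey : ∀ x ∈ G, ∀ y ∈ G, y ≠ 1 → x ∈ NC G y := by
    intro x hx y hy hy1
    obtain ⟨m, hm⟩ := (hmem x).1 hx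
    obtain ⟨n, hn⟩ := (hmem y).1 hy
    have h1 := (hnext (F (max m n))).2 x (hmono (le_max_left m n) hm) y
      (hmono (le_max_right m n) hn) hy1
    exact NC_mono (le_iSup (fun n => (F n).1) (max m n + 1)) _ h1
  have hleG : G1 ≤ G := le_iSup (fun n => (F n).1) 0
  have hg0 : g0 ∈ G := hleG (hle1 (Subgroup.mem_zpowers g0))
  have hkG : k ∈ G := hleG hk
  refine ⟨G, hG, simple_of hkey hg0 g0_ne, ⟨k, hkG⟩, ⟨g0, hg0⟩, ?_⟩
  intro h
  exact hne (congrArg Subtype.val h)

theorem good_torsion_free {G : Subgroup SLC} (hG : Good G) {g : SLC} (hg : g ∈ G) {n : ℕ}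
    (hn : 0 < n) (h : g ^ n = 1) : g = 1 := by
  by_contra hg1
  obtain ⟨μ, hμ1, hμ2⟩ := exists_mu (tr g)
    (fun h => hg1 (hG.2 g hg (by rw [h]; exact two_mem_Z)))
    (fun h => hg1 (hG.2 g hg (by rw [h]; exact neg_two_mem_Z)))
  obtain ⟨Q, hQ⟩ := exists_diag g μ hμ1 hμ2
  apply hg1
  apply hG.2 g hg
  have h1 : g ^ (n : ℤ) = Q * D (μ ^ (n : ℤ)) * Q⁻¹ := by
    rw [D_zpow, hQ, conj_zpow]
  rw [zpow_natCast, h, zpow_natCast] at h1
  have h2 : D (μ ^ n) = 1 := by
    have h3 : D (μ ^ n) = Q⁻¹ * (Q * D (μ ^ n) * Q⁻¹) * Q := by group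
    rw [h3, ← h1]
    group
  have h3 : ((μ ^ n : ℂˣ) : ℂ) = 1 := by
    have := congrArg (fun g : SLC => (g : MC) 0 0) h2
    simpa [coe_D] using this
  refine ⟨(μ : ℂ), ⟨n, hn, ?_⟩, ?_⟩
  · simpa using h3
  · rw [← hμ1]; simp

theorem main : ∃ (K : Type) (_ : Field K) (n : ℕ)
      (G : Subgroup (Matrix.GeneralLinearGroup (Fin n) K)),
      IsSimpleGroup G ∧ ∀ g : G, g ≠ 1 → ¬ IsOfFinOrder g := by
  obtain ⟨G, hG, hs, a, b, hab⟩ := exists_simple
  have hinj := Matrix.SpecialLinearGroup.toGL_injective (n := Fin 2) (R := ℂ)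
  let e := G.equivMapOfInjective Matrix.SpecialLinearGroup.toGL hinj
  refine ⟨ℂ, inferInstance, 2, G.map Matrix.SpecialLinearGroup.toGL, ?_, ?_⟩
  · exact e.symm.isSimpleGroup
  · intro g hg1 hfin
    rw [isOfFinOrder_iff_pow_eq_one] at hfin
    obtain ⟨n, hn, hgn⟩ := hfin
    apply hg1
    have h1 : (e.symm g) ^ n = 1 := by rw [← map_pow, hgn, map_one]
    have h2 : ((e.symm g : G) : SLC) ^ n = 1 := congrArg Subtype.val h1
    have h4 := good_torsion_free hG (e.symm g).2 hn h2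
    have h5 : e.symm g = 1 := Subtype.ext h4
    have h6 := congrArg e h5
    rwa [MulEquiv.apply_symm_apply, map_one] at h6

/-- There is a field K, a natural number n, and a subgroup of the invertible n×n matrices over K that is a simple group in which every non-identity element has infinite order. -/
theorem result :
    ∃ (K : Type) (_ : Field K) (n : ℕ)
      (G : Subgroup (Matrix.GeneralLinearGroup (Fin n) K)),
      IsSimpleGroup G ∧ ∀ g : G, g ≠ 1 → ¬ IsOfFinOrder g := by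
  exact main

end Pool.Agent.S01247
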