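import Pool.Statements.S01283
import Pool.Agent.Helper476.ACC

set_option autoImplicit false
open Pool Pool.MP_7ab5f9_al

namespace Pool.Agent.S01283

open Pool.Agent.Helper476.ACC in
theorem gen_prod_left (K L : Type) [Group K] [Group L] [Finite K] [Finite L] (H : Type) [Group H]
    (h : gen K H) : gen (K × L) H := by
  intro E hE hKL
  exact h E hE (hE.1 (K × L) K hKL (MonoidHom.fst K L) (fun x => ⟨(x, 1), rfl⟩))

open Pool.Agent.Helper476.ACC in
theorem gen_prod_right (K L : Type) [Group K] [Group L] [Finite K] [Finite L] :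
    gen (K × L) L := by
  intro E hE hKL
  exact hE.1 (K × L) L hKL (MonoidHom.snd K L) (fun x => ⟨(1, x), rfl⟩)

open Pool.Agent.Helper476.ACC in
/-- core: the ascending chain condition argument -/
theorem core (G : Type) [Group G] [Finite G] (F : ∀ (X : Type), [Group X] → Prop)
    (hF : IsForm F)
    (hne : ∃ (X : Type) (inst : Group X), Finite X ∧ @F X inst)
    (hsub : ∀ (H : Type) [Group H] [Finite H], F H → gen G H) :
    ∃ (K : Type) (instK : Group K), Finite K ∧
        ∀ (H : Type) [Group H] [Finite H], (F H ↔ gen K H) := by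
  classical
  by_contra hcon
  have hstep : ∀ (K : Type) (iK : Group K), Finite K → F K →
      ∃ (H : Type) (iH : Group H), Finite H ∧ F H ∧ ¬ gen K H := by
    intro K iK fK hK
    by_contra h
    apply hcon
    refine ⟨K, iK, fK, ?_⟩
    intro H iH fH
    constructor
    · intro hH
      by_contra h2
      exact h ⟨H, iH, fH, hH, h2⟩
    · intro hH
      exact hH F hF hK
  let St := {p : (Σ (K : Type), Group K) // Finite p.1 ∧ @F p.1 p.2}
  have hstep' : ∀ p : St, ∃ H : St, ¬ @gen p.1.1 p.1.2 H.1.1 H.1.2 := by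
    rintro ⟨⟨K, iK⟩, fK, hK⟩
    obtain ⟨H, iH, fH, hH, h⟩ := hstep K iK fK hK
    exact ⟨⟨⟨H, iH⟩, fH, hH⟩, h⟩
  choose nxt hnxt using hstep'
  have hprod : ∀ p q : St, Finite (p.1.1 × q.1.1) ∧
      @F (p.1.1 × q.1.1) (@Prod.instGroup _ _ p.1.2 q.1.2) := by
    rintro ⟨⟨K, iK⟩, fK, hK⟩ ⟨⟨H, iH⟩, fH, hH⟩
    refine ⟨inferInstance, ?_⟩
    have h1 : F ((K × H) ⧸ (MonoidHom.fst K H).ker) :=
      hF.1 K _ hK (QuotientGroup.quotientKerEquivOfSurjective _
        (fun k => ⟨(k, 1), rfl⟩)).symm.toMonoidHom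
        (QuotientGroup.quotientKerEquivOfSurjective _ (fun k => ⟨(k, 1), rfl⟩)).symm.surjective
    have h2 : F ((K × H) ⧸ (MonoidHom.snd K H).ker) :=
      hF.1 H _ hH (QuotientGroup.quotientKerEquivOfSurjective _
        (fun k => ⟨(1, k), rfl⟩)).symm.toMonoidHom
        (QuotientGroup.quotientKerEquivOfSurjective _ (fun k => ⟨(1, k), rfl⟩)).symm.surjective
    have h3 := hF.2 (K × H) _ _ h1 h2
    refine hF.1 _ (K × H) h3 (QuotientGroup.lift _ (MonoidHom.id (K × H)) ?_) ?_
    · rintro ⟨x, y⟩ ⟨hx, hy⟩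
      exact Prod.ext hx hy
    · intro x
      exact ⟨QuotientGroup.mk x, rfl⟩
  let pr : St → St → St := fun p q => ⟨⟨p.1.1 × q.1.1, @Prod.instGroup _ _ p.1.2 q.1.2⟩, hprod p q⟩
  obtain ⟨X0, iX0, fX0, hX0⟩ := hne
  let s : ℕ → St := fun k => Nat.rec ⟨⟨X0, iX0⟩, fX0, hX0⟩ (fun _ p => pr p (nxt p)) k
  have hs : ∀ k, s (k + 1) = pr (s k) (nxt (s k)) := fun k => rfl
  let Fk : ℕ → (∀ (X : Type), [Group X] → Prop) := fun k => @gen (s k).1.1 (s k).1.2
  have hFk : ∀ k, IsForm (Fk k) := fun k => @gen_form (s k).1.1 (s k).1.2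
  have hFkF : ∀ k (H : Type) [Group H], Fk k H → F H := by
    intro k H _ hH
    exact hH F hF (s k).2.2
  have hFkG : ∀ k (H : Type) [Group H] [Finite H], Fk k H → gen G H := by
    intro k H _ _ hH
    exact hsub H (hFkF k H hH)
  have hmono1 : ∀ k (H : Type) [Group H], Fk k H → Fk (k + 1) H := by
    intro k H _ hH
    exact @gen_prod_left (s k).1.1 (nxt (s k)).1.1 (s k).1.2 (nxt (s k)).1.2 (s k).2.1
      (nxt (s k)).2.1 H _ hH
  have hnext : ∀ k, @Fk (k + 1) (nxt (s k)).1.1 (nxt (s k)).1.2 := by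
    intro k
    exact @gen_prod_right (s k).1.1 (nxt (s k)).1.1 (s k).1.2 (nxt (s k)).1.2 (s k).2.1
      (nxt (s k)).2.1
  have hmono : ∀ k l, k ≤ l → ∀ (H : Type) [Group H] [Finite H], Fk k H → Fk l H := by
    intro k l hkl
    induction hkl with
    | refl => intro H _ _ h; exact h
    | step _ ih => intro H _ _ h; exact hmono1 _ H (ih H h)
  letI : LinearOrder G := LinearOrder.lift' (Finite.equivFin G) (Finite.equivFin G).injective
  have hall : ∀ k, ∃ m : ℕ, 0 < m ∧ ∃ a : Fin m → G, ∃ g ∈ frk (Fk k) m a, g ∉ frk (Fk (k + 1)) m a := by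
    intro k
    letI iH : Group (nxt (s k)).1.1 := (nxt (s k)).1.2
    haveI fH : Finite (nxt (s k)).1.1 := (nxt (s k)).2.1
    let H := (nxt (s k)).1.1
    let e := Finite.equivFin H
    refine ⟨Nat.card H, Nat.card_pos, ?_⟩
    let f : FreeGroup (Fin (Nat.card H)) →* H := FreeGroup.lift (fun i => e.symm i)
    have hf : Function.Surjective f := by
      intro y
      refine ⟨FreeGroup.of (e y), ?_⟩
      simp [f]
    have hw : ∃ w ∈ KK (Fk k) (Nat.card H), f w ≠ 1 := by
      by_contra hno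
      push Not at hno
      apply hnxt (s k)
      exact mem_of_kills (G := G) (Fk k) (Nat.card H) (hFk k) (hFkG k)
        ⟨(s k).1.1, (s k).1.2, (s k).2.1, @gen_self (s k).1.1 (s k).1.2⟩ H f hf hno
    obtain ⟨w, hw1, hw2⟩ := hw
    exact fork_diff (Fk k) (Fk (k + 1)) _ (hFkG (k + 1)) (hmono k (k + 1) (Nat.le_succ k)) w hw1
      (fun h => hw2 (h H (hnext k) f hf))
  choose m hm a g hg1 hg2 using hall
  obtain ⟨i, j, hij, hA, σ, h, haj, hσh, hh, hle⟩ :=
    words_wqo m hm a (fun k => frk (Fk k) (m k) (a k))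
  have h1 : g i ∈ frk (Fk j) (m j) (a j) := by
    have h2 := hg1 i
    have hA' : frk (Fk i) (m i) (a i) = frk (Fk j) (m j) (a j) := hA
    rwa [hA'] at h2
  have h2 := frk_mono (Fk j) (a i) (a j) σ h haj hσh hh hle h1
  exact hg2 i (frk_anti (Fk (i + 1)) (Fk j) (m i) (hmono (i + 1) j hij) (a i) h2)

/-- For every finite group G, every nonempty formation of finite groups contained in the formation generated by G is itself generated by a single finite group K, i.e. on finite groups it equals the smallest formation containing K. -/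
theorem result :
    ∀ (G : Type) [Group G] [Finite G] (F : ∀ (X : Type), [Group X] → Prop),
      (∀ (X Y : Type) [Group X] [Group Y] [Finite X], F X →
          ∀ f : X →* Y, Function.Surjective f → F Y) →
      (∀ (X : Type) [Group X] [Finite X] (N₁ N₂ : Subgroup X) [N₁.Normal] [N₂.Normal],
          F (X ⧸ N₁) → F (X ⧸ N₂) → F (X ⧸ (N₁ ⊓ N₂))) →
      (∃ (X : Type) (inst : Group X), Finite X ∧ @F X inst) →
      (∀ (H : Type) [Group H] [Finite H], F H →
        ∀ (E : ∀ (X : Type), [Group X] → Prop),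
          (∀ (X Y : Type) [Group X] [Group Y] [Finite X], E X →
              ∀ f : X →* Y, Function.Surjective f → E Y) →
          (∀ (X : Type) [Group X] [Finite X] (N₁ N₂ : Subgroup X) [N₁.Normal] [N₂.Normal],
              E (X ⧸ N₁) → E (X ⧸ N₂) → E (X ⧸ (N₁ ⊓ N₂))) →
          E G → E H) →
      ∃ (K : Type) (instK : Group K), Finite K ∧
        ∀ (H : Type) [Group H] [Finite H],
          (F H ↔
            ∀ (E : ∀ (X : Type), [Group X] → Prop),
              (∀ (X Y : Type) [Group X] [Group Y] [Finite X], E X →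
                  ∀ f : X →* Y, Function.Surjective f → E Y) →
              (∀ (X : Type) [Group X] [Finite X] (N₁ N₂ : Subgroup X) [N₁.Normal] [N₂.Normal],
                  E (X ⧸ N₁) → E (X ⧸ N₂) → E (X ⧸ (N₁ ⊓ N₂))) →
              @E K instK → E H) := by
  intro G _ _ F h1 h2 h3 h4
  exact core G F ⟨h1, h2⟩ h3 (fun H _ _ hH E hE hG => h4 H hH E hE.1 hE.2 hG) |>.imp
    fun K hK => hK.imp fun iK hK => ⟨hK.1, fun H _ _ => by
      rw [hK.2 H]
      exact ⟨fun h E e1 e2 hEK => h E ⟨e1, e2⟩ hEK, fun h E hE hEK => h E hE.1 hE.2 hEK⟩⟩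

end Pool.Agent.S01283
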