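import Pool.Statements.S01289
import Pool.Agent.Helper134.NumG

set_option autoImplicit false
open Pool Pool.MP_7c6b96_al

namespace Pool.Agent.S01289

open Pool.Agent.Helper134

lemma count_Gm (r : ℕ) (hr : 0 < r) :
    {Q : Set (Gm (xr r)) | IsCone Q}.encard = ((4 * r : ℕ) : ℕ∞) := by
  have hdom := ar_domain r hr
  have h10 : (1 : AR r) ≠ 0 := one_ne_zero
  rw [encard_Gm (cof_of_mono (ar_mono r hr) h10 (fr_one r hr)), encard_acones (ar_mono r hr) h10,
    encard_posroots, ← mul_assoc]
  push_cast
  norm_num

/-- For every positive integer k there is a group whose set of total orders invariant under left and right multiplication has exactly 2k elements. -/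
theorem result :
    ∀ k : ℕ, 0 < k →
      ∃ (G : Type) (_ : Group G),
        {r : G → G → Prop | IsLinearOrder G r ∧
            ∀ a b c d : G, r a b → r (c * a * d) (c * b * d)}.encard
          = ((2 * k : ℕ) : ℕ∞) := by
  intro k hk
  rcases Nat.even_or_odd' k with ⟨r, h | h⟩
  · have hr : 0 < r := by omega
    refine ⟨Gm (xr r), inferInstance, ?_⟩
    rw [encard_orders, count_Gm r hr, h]
    congr 1
    ring
  · rcases Nat.eq_zero_or_pos r with h0 | hr
    · refine ⟨Multiplicative ℤ, inferInstance, ?_⟩
      rw [encard_orders, encard_int, h, h0]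
      norm_num
    · refine ⟨commutator (PL.KK (dr r hr)), inferInstance, ?_⟩
      rw [encard_orders, PL.encard_commutator, encard_int]
      have e : {Q : Set (Gm (dr r hr).x) | IsCone Q}.encard = ((4 * r : ℕ) : ℕ∞) := count_Gm r hr
      rw [e, h]
      push_cast
      ring

end Pool.Agent.S01289
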