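import Pool.Statements.S01313
-- import your own Pool.Agent.* helpers here

set_option autoImplicit false
open scoped Pointwise Topology
open Pool Pool.MP_7ead4a_al

namespace Pool.Agent.S01313

/-! ### Closure of a set under a family of binary operations -/

section Closure

open Cardinal

/-- The closure of `S` under the binary operations `F i`. -/
def clo {ι α : Type} (F : ι → α → α → α) (S : Set α) : Set α :=
  ⋂₀ {S' | S ⊆ S' ∧ ∀ i, ∀ x ∈ S', ∀ y ∈ S', F i x y ∈ S'}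

variable {ι α : Type} (F : ι → α → α → α)

lemma subset_clo (S : Set α) : S ⊆ clo F S :=
  Set.subset_sInter fun _ h => h.1

lemma clo_min {S S' : Set α} (h : S ⊆ S') (hc : ∀ i, ∀ x ∈ S', ∀ y ∈ S', F i x y ∈ S') :
    clo F S ⊆ S' :=
  Set.sInter_subset_of_mem ⟨h, hc⟩

lemma clo_closed (S : Set α) (i : ι) {x y : α} (hx : x ∈ clo F S) (hy : y ∈ clo F S) :
    F i x y ∈ clo F S := by
  intro S' hS'
  exact hS'.2 i x (hx S' hS') y (hy S' hS')

lemma clo_mono {S S' : Set α} (h : S ⊆ S') : clo F S ⊆ clo F S' :=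
  clo_min F (h.trans (subset_clo F S')) fun i _ hx _ hy => clo_closed F S' i hx hy

/-- Finite stages of the closure. -/
def stage (S : Set α) : ℕ → Set α
  | 0 => S
  | n + 1 => stage S n ∪ Set.range fun p : ι × stage S n × stage S n => F p.1 p.2.1 p.2.2

lemma stage_mono (S : Set α) : Monotone (stage F S) :=
  monotone_nat_of_le_succ fun _ => Set.subset_union_left

lemma clo_subset_stage (S : Set α) : clo F S ⊆ ⋃ n, stage F S n := by
  refine clo_min F (Set.subset_iUnion (stage F S) 0) ?_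
  intro i x hx y hy
  obtain ⟨m, hm⟩ := Set.mem_iUnion.1 hx
  obtain ⟨n, hn⟩ := Set.mem_iUnion.1 hy
  have hm' := stage_mono F S (le_max_left m n) hm
  have hn' := stage_mono F S (le_max_right m n) hn
  refine Set.mem_iUnion.2 ⟨max m n + 1, Or.inr ⟨(i, ⟨x, hm'⟩, ⟨y, hn'⟩), rfl⟩⟩

lemma card_clo_le (S : Set α) (κ : Cardinal) (hκ : ℵ₀ ≤ κ) (hS : #S ≤ κ) (hι : #ι ≤ κ) :
    #(clo F S) ≤ κ := by
  have hst : ∀ n, #(stage F S n) ≤ κ := by
    intro n
    induction n with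
    | zero => exact hS
    | succ n ih =>
      refine (mk_union_le _ _).trans ?_
      refine (add_le_add ih (mk_range_le.trans ?_)).trans (add_eq_self hκ).le
      simp only [mk_prod, lift_id]
      calc #ι * (#(stage F S n) * #(stage F S n)) ≤ κ * (κ * κ) :=
            mul_le_mul' hι (mul_le_mul' ih ih)
        _ = κ := by rw [mul_eq_self hκ, mul_eq_self hκ]
  refine (mk_le_mk_of_subset (clo_subset_stage F S)).trans ?_
  refine (mk_iUnion_le _).trans ?_
  calc #ℕ * ⨆ n, #(stage F S n) ≤ κ * κ := by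
        refine mul_le_mul' (by simpa using hκ) ?_
        exact ciSup_le' hst
    _ = κ := mul_eq_self hκ

end Closure

/-! ### Closeness at different levels -/

section Levels

variable {G : Type} [Group G]

/-- A decreasing sequence of symmetric sets containing `1` with `N (i+1) ^ 2 ⊆ N i`. -/
structure Levels (N : ℕ → Set G) : Prop where
  one : ∀ i, (1 : G) ∈ N i
  inv : ∀ i x, x ∈ N i → x⁻¹ ∈ N i
  mul : ∀ i x y, x ∈ N (i + 1) → y ∈ N (i + 1) → x * y ∈ N i

/-- `x` and `y` are close at level `i` in the left uniformity. -/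
def near (N : ℕ → Set G) (i : ℕ) (x y : G) : Prop := x⁻¹ * y ∈ N i

variable {N : ℕ → Set G} (hN : Levels N)
include hN

lemma near_refl (i : ℕ) (x : G) : near N i x x := by
  unfold near; rw [inv_mul_cancel]; exact hN.one i

lemma near_symm {i : ℕ} {x y : G} (h : near N i x y) : near N i y x := by
  unfold near at *
  have := hN.inv i _ h
  rwa [mul_inv_rev, inv_inv] at this

lemma near_trans {i : ℕ} {x y z : G} (h : near N (i + 1) x y) (h' : near N (i + 1) y z) :
    near N i x z := by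
  unfold near at *
  have := hN.mul i _ _ h h'
  rwa [mul_assoc, mul_inv_cancel_left] at this

lemma near_succ {i : ℕ} {x y : G} (h : near N (i + 1) x y) : near N i x y :=
  near_trans hN h (near_refl hN _ _)

lemma near_mono {i j : ℕ} (hij : i ≤ j) {x y : G} (h : near N j x y) : near N i x y := by
  induction hij with
  | refl => exact h
  | step _ ih => exact ih (near_succ hN h)

omit hN in
lemma near_left (i : ℕ) (g x y : G) : near N i (g * x) (g * y) ↔ near N i x y := by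
  unfold near
  rw [mul_inv_rev, mul_assoc, inv_mul_cancel_left]

lemma near_trans4 {i : ℕ} {x y z w u : G} (h1 : near N (i + 2) x y) (h2 : near N (i + 2) y z)
    (h3 : near N (i + 2) z w) (h4 : near N (i + 2) w u) : near N i x u :=
  near_trans hN (near_trans hN h1 h2) (near_trans hN h3 h4)

end Levels

lemma exists_max_pairwise {α : Type} (r : α → α → Prop) (hs : ∀ x y, r x y → r y x) (x0 : α) :
    ∃ A : Set α, x0 ∈ A ∧ A.Pairwise r ∧ ∀ x, x ∈ A ∨ ∃ y ∈ A, ¬ r y x := by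
  obtain ⟨m, hxm, hm⟩ := zorn_subset_nonempty {A : Set α | A.Pairwise r} (by
    intro c hc hch hne
    refine ⟨⋃₀ c, ?_, fun s hs => Set.subset_sUnion_of_mem hs⟩
    exact (Set.pairwise_sUnion hch.directedOn).2 fun a ha => hc ha) {x0}
    (Set.pairwise_singleton _ _)
  refine ⟨m, hxm rfl, hm.1, ?_⟩
  intro x
  by_contra hcon
  push Not at hcon
  obtain ⟨hx, hr⟩ := hcon
  have hins : insert x m ∈ {A : Set α | A.Pairwise r} := by
    refine hm.1.insert ?_
    intro b hb _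
    exact ⟨hs _ _ (hr b hb), hr b hb⟩
  exact hx (hm.2 hins (Set.subset_insert _ _) (Set.mem_insert _ _))

section Main

variable {G : Type} [Group G] [TopologicalSpace G] [IsTopologicalGroup G]

lemma exists_levels {U : Set G} (hU : U ∈ 𝓝 (1 : G)) :
    ∃ N : ℕ → Set G, Levels N ∧ (∀ i, N i ∈ 𝓝 (1 : G)) ∧ N 0 ⊆ U := by
  have key : ∀ M : {M : Set G // M ∈ 𝓝 (1 : G)}, ∃ M' : {M : Set G // M ∈ 𝓝 (1 : G)},
      (∀ x ∈ M'.1, x⁻¹ ∈ M'.1) ∧ (∀ x ∈ M'.1, ∀ y ∈ M'.1, x * y ∈ M.1) := by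
    rintro ⟨M, hM⟩
    obtain ⟨V, hV, hVM⟩ := exists_nhds_one_split hM
    refine ⟨⟨V ∩ V⁻¹, Filter.inter_mem hV (inv_mem_nhds_one G hV)⟩, ?_, ?_⟩
    · rintro x ⟨h1, h2⟩
      refine ⟨h2, ?_⟩
      rw [Set.mem_inv, inv_inv]
      exact h1
    · rintro x ⟨h1, _⟩ y ⟨h2, _⟩
      exact hVM x h1 y h2
  choose f hf1 hf2 using key
  let N : ℕ → {M : Set G // M ∈ 𝓝 (1 : G)} := fun n => Nat.rec (f ⟨U, hU⟩) (fun _ M => f M) n
  have hN1 : ∀ i, (1 : G) ∈ (N i).1 := fun i => mem_of_mem_nhds (N i).2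
  refine ⟨fun n => (N n).1, ⟨hN1, ?_, ?_⟩, fun i => (N i).2, ?_⟩
  · intro i x hx
    cases i with
    | zero => exact hf1 ⟨U, hU⟩ x hx
    | succ i => exact hf1 (N i) x hx
  · intro i x y hx hy
    exact hf2 (N i) x hx y hy
  · intro x hx
    have := hf2 ⟨U, hU⟩ x hx 1 (hN1 0)
    simpa using this

/-- `F`-balancedness in a more convenient form. -/
lemma fbal (hF : ∀ X : Set G, ∀ U ∈ 𝓝 (1 : G), ∃ V ∈ 𝓝 (1 : G), V * X ⊆ X * U)
    (X M : Set G) (hM : M ∈ 𝓝 (1 : G)) :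
    ∃ V ∈ 𝓝 (1 : G), (∀ v ∈ V, v⁻¹ ∈ V) ∧ ∀ v ∈ V, ∀ x ∈ X, ∃ y ∈ X, y⁻¹ * (v * x) ∈ M := by
  obtain ⟨V, hV, hVX⟩ := hF X M hM
  refine ⟨V ∩ V⁻¹, Filter.inter_mem hV (inv_mem_nhds_one G hV), ?_, ?_⟩
  · rintro x ⟨h1, h2⟩
    refine ⟨h2, ?_⟩
    rw [Set.mem_inv, inv_inv]
    exact h1
  · rintro v ⟨hv, _⟩ x hx
    obtain ⟨y, hy, m, hm, hym⟩ := Set.mem_mul.1 (hVX (Set.mul_mem_mul hv hx))
    refine ⟨y, hy, ?_⟩
    rw [← hym, inv_mul_cancel_left]
    exact hm

omit [TopologicalSpace G] [IsTopologicalGroup G] in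
/-- Order preserving permutations of a well-ordered set are trivial, in the form used below. -/
lemma order_rigid {D : Type} [LinearOrder D] [WellFoundedLT D] (V : Set G)
    (hVi : ∀ v ∈ V, v⁻¹ ∈ V) (f : G → D → D) (X : Set D)
    (h1 : ∀ v ∈ V, ∀ x ∈ X, f v x ∈ X)
    (h2 : ∀ v ∈ V, ∀ x ∈ X, ∀ y ∈ X, y ≤ x → f v y ≤ f v x)
    (h3 : ∀ v ∈ V, ∀ x, f v⁻¹ (f v x) = x) :
    ∀ v ∈ V, ∀ x ∈ X, f v x = x := by
  have key : ∀ v ∈ V, ∀ x ∈ X, x ≤ f v x := by
    intro v hv x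
    induction x using WellFoundedLT.induction with
    | ind x ih =>
      intro hx
      by_contra hlt
      rw [not_le] at hlt
      have h4 := ih (f v x) hlt (h1 v hv x hx)
      have h5 := h2 v hv x hx (f v x) (h1 v hv x hx) hlt.le
      have h6 : f v (f v x) = f v x := le_antisymm h5 h4
      have h7 := h3 v hv (f v x)
      rw [h6, h3 v hv x] at h7
      exact absurd h7 hlt.ne'
  intro v hv x hx
  refine le_antisymm ?_ (key v hv x hx)
  have := key v⁻¹ (hVi v hv) (f v x) (h1 v hv x hx)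
  rwa [h3 v hv x] at this

open Cardinal in
/-- The main step: in an `F`-balanced group every uniformly separated set is balanced. -/
theorem main_fix (hF : ∀ X : Set G, ∀ U ∈ 𝓝 (1 : G), ∃ V ∈ 𝓝 (1 : G), V * X ⊆ X * U)
    {N : ℕ → Set G} (hN : Levels N) (hNn : ∀ i, N i ∈ 𝓝 (1 : G))
    (D : Set G) (hD : D.Pairwise fun x y => ¬ near N 2 x y) :
    ∃ V ∈ 𝓝 (1 : G), ∀ v ∈ V, ∀ d ∈ D, near N 2 d (v * d) := by
  classical
  -- uniqueness in `D`
  have hDeq : ∀ x y : D, near N 2 (x : G) (y : G) → x = y := by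
    intro x y hxy
    by_contra hne
    exact hD x.2 y.2 (fun h => hne (Subtype.ext h)) hxy
  -- the transversal `T`
  obtain ⟨T, h1T, hTp, hTmax⟩ := exists_max_pairwise
    (fun t t' : G => ∀ v ∈ N 7, ¬ near N 5 (v * t) t') (by
      intro t t' h v hv hcon
      refine h v⁻¹ (hN.inv _ _ hv) ?_
      have := (near_left (N := N) 5 v⁻¹ (v * t') t).2 hcon
      rw [inv_mul_cancel_left] at this
      exact near_symm hN this) 1
  have hTcov : ∀ a : G, ∃ t ∈ T, ∃ v ∈ N 7, near N 5 (v * t) a := by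
    intro a
    rcases hTmax a with ha | ⟨t, ht, hta⟩
    · exact ⟨a, ha, 1, hN.one 7, by rw [one_mul]; exact near_refl hN _ _⟩
    · push Not at hta
      obtain ⟨v, hv, hva⟩ := hta
      exact ⟨t, ht, v, hv, hva⟩
  have hTfix : ∃ V ∈ 𝓝 (1 : G), ∀ v ∈ V, ∀ t ∈ T, near N 7 t (v * t) := by
    obtain ⟨V, hV, _, hVT⟩ := fbal hF T (N 7) (hNn 7)
    refine ⟨V ∩ N 7, Filter.inter_mem hV (hNn 7), ?_⟩
    rintro v ⟨hv, hv7⟩ t ht
    obtain ⟨t', ht', hn⟩ := hVT v hv t ht
    by_cases htt : t = t'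
    · subst htt; exact hn
    · exact absurd (near_symm hN (near_mono hN (by norm_num : 5 ≤ 7) hn)) (hTp ht ht' htt v hv7)
  -- neighbourhoods uniformly fixing `T`
  have hMT : {m : G | ∀ t ∈ T, t⁻¹ * (m * t) ∈ N 7} ∈ 𝓝 (1 : G) := by
    obtain ⟨V, hV, hVT⟩ := hTfix
    exact Filter.mem_of_superset hV fun v hv t ht => hVT v hv t ht
  have hFT : ∀ X : Set G, ∃ V ∈ 𝓝 (1 : G), (∀ v ∈ V, v⁻¹ ∈ V) ∧
      ∀ v ∈ V, ∀ x ∈ X, ∃ y ∈ X, ∀ t ∈ T, near N 7 (y * t) (v * x * t) := by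
    intro X
    obtain ⟨V, hV, hVi, hVX⟩ := fbal hF X _ hMT
    refine ⟨V, hV, hVi, ?_⟩
    intro v hv x hx
    obtain ⟨y, hy, hyt⟩ := hVX v hv x hx
    refine ⟨y, hy, fun t ht => ?_⟩
    have := hyt t ht
    unfold near
    rw [mul_inv_rev]
    simpa only [mul_assoc] using this
  -- connecting elements
  have hcov : ∀ x y : G, ∃ g : G, ∃ t ∈ T, near N 7 x g ∧ near N 5 (g * t) y := by
    intro x y
    obtain ⟨t, ht, v, hv, hn⟩ := hTcov (x⁻¹ * y)
    refine ⟨x * v, t, ht, ?_, ?_⟩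
    · unfold near; rw [inv_mul_cancel_left]; exact hv
    · have := (near_left (N := N) 5 x _ _).2 hn
      rwa [mul_inv_cancel_left, ← mul_assoc] at this
  choose g τ hτ hg1 hg2 using hcov
  -- a small set at least as big as `D` makes `D` small
  have P4 : ∀ X : Set G, (X.Pairwise fun x y => ¬ near N 5 x y) →
      (∃ V ∈ 𝓝 (1 : G), ∀ v ∈ V, ∀ x ∈ X, near N 7 x (v * x)) → #D ≤ #X →
      ∃ V ∈ 𝓝 (1 : G), ∀ v ∈ V, ∀ d ∈ D, near N 2 d (v * d) := by
    rintro X hX ⟨V1, hV1, hVX⟩ hcard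
    obtain ⟨φ⟩ := (Cardinal.le_def _ _).1 hcard
    obtain ⟨V2, hV2, _, hVQ⟩ := hFT (Set.range fun d : D => g (φ d) d)
    refine ⟨V1 ∩ V2, Filter.inter_mem hV1 hV2, ?_⟩
    rintro v ⟨hv1, hv2⟩ d hd
    obtain ⟨_, ⟨d', rfl⟩, hq⟩ := hVQ v hv2 _ ⟨⟨d, hd⟩, rfl⟩
    have e1 : near N 7 ((φ d' : X) : G) (g (φ d') d') := hg1 _ _
    have e2 : near N 7 (g (φ d') d') (v * g (φ ⟨d, hd⟩) d) := by
      have := hq 1 h1T
      simpa using this
    have e3 : near N 7 (v * g (φ ⟨d, hd⟩) d) (v * ((φ ⟨d, hd⟩ : X) : G)) :=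
      (near_left 7 _ _ _).2 (near_symm hN (hg1 _ _))
    have e4 : near N 7 (v * ((φ ⟨d, hd⟩ : X) : G)) ((φ ⟨d, hd⟩ : X) : G) :=
      near_symm hN (hVX v hv1 _ (φ ⟨d, hd⟩).2)
    have e5 : near N 5 ((φ d' : X) : G) ((φ ⟨d, hd⟩ : X) : G) := near_trans4 hN e1 e2 e3 e4
    have e6 : φ d' = φ ⟨d, hd⟩ := by
      by_contra hne
      exact hX (φ d').2 (φ ⟨d, hd⟩).2 (fun h => hne (Subtype.ext h)) e5
    have e7 : d' = ⟨d, hd⟩ := φ.injective e6
    subst e7
    have f1 : near N 5 d (g (φ ⟨d, hd⟩) d * τ (φ ⟨d, hd⟩) d) := near_symm hN (hg2 _ _)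
    have f2 : near N 5 (g (φ ⟨d, hd⟩) d * τ (φ ⟨d, hd⟩) d)
        (v * g (φ ⟨d, hd⟩) d * τ (φ ⟨d, hd⟩) d) :=
      near_mono hN (by norm_num) (hq _ (hτ _ _))
    have f3 : near N 5 (v * g (φ ⟨d, hd⟩) d * τ (φ ⟨d, hd⟩) d) (v * d) := by
      rw [mul_assoc]
      exact (near_left 5 _ _ _).2 (hg2 _ _)
    exact near_succ hN (near_trans4 hN f1 f2 f3 (near_refl hN _ _))
  by_contra hcontra
  -- `T` has smaller cardinality than `D`
  have hTD : #T < #D := by
    by_contra hle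
    rw [not_lt] at hle
    refine hcontra (P4 T ?_ hTfix hle)
    intro t ht t' ht' hne hn
    exact hTp ht ht' hne 1 (hN.one 7) (by rwa [one_mul])
  -- the permutations of `D` induced by small elements
  obtain ⟨V0, hV0, hV0i, hV0D⟩ := fbal hF D (N 7) (hNn 7)
  have hf : ∀ v : G, ∀ d : D, ∃ d' : D, v ∈ V0 → near N 7 (d' : G) (v * d) := by
    intro v d
    by_cases hv : v ∈ V0
    · obtain ⟨d', hd', hn⟩ := hV0D v hv d d.2
      exact ⟨⟨d', hd'⟩, fun _ => hn⟩
    · exact ⟨d, fun h => absurd h hv⟩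
  choose f hf using hf
  have hff : ∀ v ∈ V0, ∀ d : D, f v⁻¹ (f v d) = d := by
    intro v hv d
    apply hDeq
    have e1 : near N 7 (v⁻¹ * (f v d : G)) d := by
      have := (near_left 7 v⁻¹ _ _).2 (hf v d hv)
      rwa [inv_mul_cancel_left] at this
    have e2 : near N 7 (f v⁻¹ (f v d) : G) (v⁻¹ * (f v d : G)) := hf v⁻¹ (f v d) (hV0i v hv)
    exact near_mono hN (by norm_num) (near_trans hN e2 e1)
  obtain ⟨_, _⟩ := exists_wellFoundedLT D
  -- it suffices to exhibit a rigid subset `X'` of full cardinality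
  have hfin : ∀ (V : Set G) (X' : Set D), V ∈ 𝓝 (1 : G) → V ⊆ V0 → (∀ v ∈ V, v⁻¹ ∈ V) →
      (∀ v ∈ V, ∀ x ∈ X', f v x ∈ X') →
      (∀ v ∈ V, ∀ x ∈ X', ∀ y ∈ X', y ≤ x → f v y ≤ f v x) → #D ≤ #X' → False := by
    intro V X' hV hVV0 hVi h1 h2 hcard
    have hrig := order_rigid V hVi f X' h1 h2 fun v hv x => hff v (hVV0 hv) x
    refine hcontra (P4 ((↑) '' X') ?_ ⟨V, hV, ?_⟩ ?_)
    · rintro _ ⟨x, _, rfl⟩ _ ⟨y, _, rfl⟩ hne hn
      exact hne (congrArg _ (hDeq x y (near_mono hN (by norm_num) hn)))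
    · rintro v hv _ ⟨x, hx, rfl⟩
      have := hf v x (hVV0 hv)
      rwa [hrig v hv x hx] at this
    · rwa [Cardinal.mk_image_eq Subtype.val_injective]
  -- a common computation
  have hcomp : ∀ v ∈ V0, ∀ x y x' : D, ∀ q : G, near N 7 (x' : G) q →
      (∀ t ∈ T, near N 7 (q * t) (v * g x y * t)) →
      x' = f v x ∧ near N 3 (q * τ x y) (f v y : G) := by
    intro v hv x y x' q hx'q hq
    constructor
    · apply hDeq
      have e2 : near N 7 q (v * g x y) := by
        have := hq 1 h1T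
        simpa using this
      have e3 : near N 7 (v * g x y) (v * (x : G)) := (near_left 7 _ _ _).2 (near_symm hN (hg1 _ _))
      have e4 : near N 7 (v * (x : G)) (f v x : G) := near_symm hN (hf v x hv)
      exact near_mono hN (by norm_num) (near_trans4 hN hx'q e2 e3 e4)
    · have e1 : near N 5 (q * τ x y) (v * g x y * τ x y) :=
        near_mono hN (by norm_num) (hq _ (hτ _ _))
      have e2 : near N 5 (v * g x y * τ x y) (v * (y : G)) := by
        rw [mul_assoc]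
        exact (near_left 5 _ _ _).2 (hg2 _ _)
      have e3 : near N 5 (v * (y : G)) (f v y : G) :=
        near_mono hN (by norm_num) (near_symm hN (hf v y hv))
      exact near_trans4 hN e1 e2 e3 (near_refl hN _ _)
  by_cases hTfin : T.Finite
  · -- finitely many types: encode the well-order directly
    choose W hW hWi hWX using fun t : G =>
      hFT {q : G | ∃ x y : D, y ≤ x ∧ near N 7 (x : G) q ∧ near N 5 (q * t) (y : G)}
    refine hfin (V0 ∩ ⋂ t ∈ T, W t) Set.univ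
      (Filter.inter_mem hV0 ((Filter.biInter_mem hTfin).2 fun t _ => hW t))
      Set.inter_subset_left ?_ (fun _ _ _ _ => Set.mem_univ _) ?_ (by simp)
    · rintro v ⟨hv0, hv⟩
      refine ⟨hV0i v hv0, ?_⟩
      rw [Set.mem_iInter₂] at hv ⊢
      exact fun t ht => hWi t v (hv t ht)
    · rintro v ⟨hv0, hv⟩ x _ y _ hyx
      rw [Set.mem_iInter₂] at hv
      obtain ⟨q, ⟨x', y', hyx', hx'q, hqy'⟩, hq⟩ := hWX (τ x y) v (hv _ (hτ _ _)) (g x y)
        ⟨x, y, hyx, hg1 _ _, hg2 _ _⟩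
      obtain ⟨c1, c2⟩ := hcomp v hv0 x y x' q hx'q hq
      have c3 : y' = f v y := by
        apply hDeq
        exact near_trans hN (near_symm hN (near_mono hN (by norm_num) hqy')) c2
      rw [← c1, ← c3]
      exact hyx'
  · -- infinitely many types: encode a chain of closed sets
    have hTinf : ℵ₀ ≤ #T := Cardinal.infinite_iff.1 (Set.infinite_coe_iff.2 hTfin)
    let F : T → D → D → D := fun t x y =>
      if h : ∃ d : D, near N 3 (g x y * t) (d : G) then h.choose else x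
    have hF3 : ∀ (t : T) (x y d : D), near N 3 (g x y * t) (d : G) → F t x y = d := by
      intro t x y d hd
      have h : ∃ d : D, near N 3 (g x y * t) (d : G) := ⟨d, hd⟩
      have h' : F t x y = h.choose := dif_pos h
      rw [h']
      exact hDeq _ _ (near_trans hN (near_symm hN h.choose_spec) hd)
    let R : D → Set D := fun x => clo F {y | y ≤ x}
    let X' : Set D := {x | x ∉ clo F {y | y < x}}
    have hRx : ∀ x, x ∈ R x := fun x => subset_clo F _ (Set.mem_ofPred_eq ▸ le_refl x)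
    have hcloX : ∀ x : D, x ∈ clo F X' := by
      intro x
      induction x using WellFoundedLT.induction with
      | ind x ih =>
        by_cases hx : x ∈ X'
        · exact subset_clo F _ hx
        · have hx' : x ∈ clo F {y | y < x} := by
            by_contra hcon
            exact hx hcon
          exact clo_min F (fun y hy => ih y hy) (fun i a ha b hb => clo_closed F _ i ha hb) hx'
    have hcardX : #D ≤ #X' := by
      by_contra hlt
      rw [not_le] at hlt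
      have h1 : #(clo F X') ≤ max #X' #T :=
        card_clo_le F X' _ (hTinf.trans (le_max_right _ _)) (le_max_left _ _) (le_max_right _ _)
      have h2 : clo F X' = Set.univ := Set.eq_univ_of_forall hcloX
      rw [h2, Cardinal.mk_univ] at h1
      exact absurd h1 (not_le.2 (max_lt hlt hTD))
    have hRlt : ∀ x ∈ X', ∀ y, x ∈ R y → x ≤ y := by
      intro x hx y hxy
      by_contra hlt
      rw [not_le] at hlt
      exact hx (clo_mono F (fun z hz => lt_of_le_of_lt hz hlt) hxy)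
    obtain ⟨V3, hV3, hV3i, hV3X⟩ := hFT {q : G | ∃ x ∈ X', near N 7 (x : G) q ∧
      ∀ t ∈ T, ∀ d : D, near N 3 (q * t) (d : G) → d ∈ R x}
    have hmem : ∀ x ∈ X', ∀ y ∈ R x, g x y ∈ {q : G | ∃ x ∈ X', near N 7 (x : G) q ∧
        ∀ t ∈ T, ∀ d : D, near N 3 (q * t) (d : G) → d ∈ R x} := by
      intro x hx y hy
      refine ⟨x, hx, hg1 _ _, ?_⟩
      intro t ht d hd
      rw [← hF3 ⟨t, ht⟩ x y d hd]
      exact clo_closed F _ _ (hRx x) hy
    have hstep : ∀ v ∈ V0 ∩ V3, ∀ x ∈ X', ∀ y ∈ R x, f v x ∈ X' ∧ f v y ∈ R (f v x) := by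
      rintro v ⟨hv0, hv3⟩ x hx y hy
      obtain ⟨q, ⟨x', hx', hx'q, hqR⟩, hq⟩ := hV3X v hv3 (g x y) (hmem x hx y hy)
      obtain ⟨c1, c2⟩ := hcomp v hv0 x y x' q hx'q hq
      rw [← c1]
      exact ⟨hx', hqR _ (hτ _ _) _ c2⟩
    refine hfin (V0 ∩ V3) X' (Filter.inter_mem hV0 hV3) Set.inter_subset_left
      (fun v hv => ⟨hV0i v hv.1, hV3i v hv.2⟩) (fun v hv x hx => (hstep v hv x hx x (hRx x)).1)
      ?_ hcardX
    intro v hv x hx y hy hyx
    have hyR : y ∈ R x := subset_clo F _ hyx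
    exact hRlt _ (hstep v hv y hy y (hRx y)).1 _ (hstep v hv x hx y hyR).2

end Main

/-- Every topological group in which, for every subset X and identity neighbourhood U, some identity neighbourhood V has VX inside XU, has every identity neighbourhood containing a conjugation-invariant identity neighbourhood. -/
theorem result :
    ∀ (G : Type) [Group G] [TopologicalSpace G] [IsTopologicalGroup G],
      (∀ X : Set G, ∀ U ∈ 𝓝 (1 : G), ∃ V ∈ 𝓝 (1 : G), V * X ⊆ X * U) →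
      ∀ U ∈ 𝓝 (1 : G), ∃ V ∈ 𝓝 (1 : G), V ⊆ U ∧
        ∀ g x : G, x ∈ V → g * x * g⁻¹ ∈ V := by
  intro G _ _ _ hF U hU
  obtain ⟨N, hN, hNn, hNU⟩ := exists_levels hU
  obtain ⟨D, -, hDp, hDmax⟩ := exists_max_pairwise (fun x y : G => ¬ near N 2 x y)
    (fun x y h h' => h (near_symm hN h')) 1
  obtain ⟨V, hV, hVD⟩ := main_fix hF hN hNn D hDp
  have hDcov : ∀ g : G, ∃ d ∈ D, near N 2 d g := by
    intro g
    rcases hDmax g with hg | ⟨d, hd, hdg⟩
    · exact ⟨g, hg, near_refl hN _ _⟩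
    · exact ⟨d, hd, not_not.1 hdg⟩
  refine ⟨{x : G | ∀ h : G, h⁻¹ * (x * h) ∈ N 0}, ?_, ?_, ?_⟩
  · refine Filter.mem_of_superset hV ?_
    intro v hv h
    obtain ⟨d, hd, hdh⟩ := hDcov h
    have e1 : near N 2 h d := near_symm hN hdh
    have e2 : near N 2 d (v * d) := hVD v hv d hd
    have e3 : near N 2 (v * d) (v * h) := (near_left 2 _ _ _).2 hdh
    exact near_trans4 hN e1 e2 e3 (near_refl hN _ _)
  · intro x hx
    have := hx 1
    rw [inv_one, one_mul, mul_one] at this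
    exact hNU this
  · intro g x hx h
    have := hx (g⁻¹ * h)
    have e : (g⁻¹ * h)⁻¹ * (x * (g⁻¹ * h)) = h⁻¹ * (g * x * g⁻¹ * h) := by group
    rwa [e] at this

end Pool.Agent.S01313
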