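import Pool.Statements.S01321
import Pool.Agent.Helper986.RatVA.Final

set_option autoImplicit false
open Pool Pool.MP_7f70a7_al

namespace Pool.Agent.S01321

/-- Every finitely generated solvable group in which the complement of every rational subset is rational has a finite-index subgroup whose elements commute pairwise, i.e. is virtually abelian. -/
theorem result :
    ∀ (G : Type) [Group G], Group.FG G → IsSolvable G →
      (∀ S : Set G,
        (∃ r : RegularExpression G, S = {g : G | ∃ w ∈ r.matches', w.prod = g}) →
        ∃ r : RegularExpression G, Sᶜ = {g : G | ∃ w ∈ r.matches', w.prod = g}) →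
      ∃ H : Subgroup G, H.index ≠ 0 ∧ ∀ a ∈ H, ∀ b ∈ H, a * b = b * a := by
  intro G _ hfg hsolv hcompl
  have hI : RatVA.PropI G := by
    apply RatVA.propI_of_compl
    intro X hX
    rw [RatVA.isRat_iff] at hX ⊢
    exact hcompl X hX
  exact RatVA.va_of_propI hI hfg hsolv

end Pool.Agent.S01321
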