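import Pool.Statements.S01346
-- import your own Pool.Agent.* helpers here
import Pool.Agent.Helper732.HopfZG.Final

set_option autoImplicit false
open Pool Pool.MP_836a1f_al

namespace Pool.Agent.S01346

/-- The negation of the preceding statement: For every group G, if every surjective group endomorphism of G is injective, then every surjective ring endomorphism of the integral group ring ℤ[G] is injective. -/
theorem result :
    ¬ (∀ (G : Type) [Group G],
      (∀ f : G →* G, Function.Surjective f → Function.Injective f) →
      ∀ φ : MonoidAlgebra ℤ G →+* MonoidAlgebra ℤ G,
        Function.Surjective φ → Function.Injective φ) := by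
  intro h
  obtain ⟨G, hG, hHopf, Φ, hΦs, hΦi⟩ := Pool.Agent.Helper732.HopfZG.final
  exact hΦi (@h G hG hHopf Φ hΦs)

end Pool.Agent.S01346
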