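import Pool.Statements.S01356
import Pool.Agent.Helper886.SR.Gelfand
import Pool.Agent.Helper886.SR.Solv
import Pool.Agent.Helper886.SR.NC

set_option autoImplicit false
open CategoryTheory MonoidalCategory
open Pool Pool.MP_83ca68_al

namespace Pool.Agent.S01356

open Pool.Agent.Helper886.SR in
theorem aux (c : ℕ) (hc : ∀ n, derivedSeries (Gp n) c = ⊥) : False := by
  obtain ⟨X, hX, hN⟩ := exists_NC c
  apply hN
  apply central_of_rot
  apply rot_of_red
  intro n
  have h1 : (red n).rangeRestrict X ∈ derivedSeries (Gp n) c :=
    map_derivedSeries_le_derivedSeries (red n).rangeRestrict c (Subgroup.mem_map_of_mem _ hX)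
  have h2 : (red n).rangeRestrict X ∈ (⊥ : Subgroup (Gp n)) := by
    rw [← hc n]
    exact h1
  have h3 := Subgroup.mem_bot.mp h2
  exact congrArg Subtype.val h3

/-- The negation of the preceding statement: There is a constant c such that every finite soluble group in which each element is conjugate to its inverse, and in which every tensor product of two irreducible complex representations is multiplicity-free, has derived length at most c. -/
theorem result :
    ¬ (∃ c : ℕ, ∀ (G : Type) [Group G] [Fintype G], IsSolvable G →
      (∀ g : G, IsConj g g⁻¹) →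
      (∀ U V W : FDRep ℂ G, CategoryTheory.Simple U → CategoryTheory.Simple V →
        CategoryTheory.Simple W → Module.finrank ℂ (U ⟶ V ⊗ W) ≤ 1) →
      derivedSeries G c = ⊥) := by
  rintro ⟨c, hc⟩
  refine aux c fun n => ?_
  have hp := Pool.Agent.Helper886.SR.Gp_pair n
  letI : Fintype (Pool.Agent.Helper886.SR.Gp n) := Fintype.ofFinite _
  refine hc (Pool.Agent.Helper886.SR.Gp n) (Pool.Agent.Helper886.SR.Gp_solvable n) ?_ ?_
  · intro x
    obtain ⟨g, hg, -⟩ := hp x x
    exact isConj_iff.mpr ⟨g, hg⟩
  · intro U V W hU hV hW
    exact Pool.Agent.Helper886.SR.multFree hp U V W hU hV hW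

end Pool.Agent.S01356
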