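import Pool.Statements.S01364
import Pool.Agent.Helper29.NilPart2
import Pool.Agent.Helper29.NilId

set_option autoImplicit false
open Pool Pool.MP_84759c_al

namespace Pool.Agent.S01364

/-- The negation of the preceding statement: There is a finite set of l-group identities of the form 1 ≤ w1 ⊔ … ⊔ wn such that an l-group satisfies them exactly when it satisfies every such identity true in all nilpotent l-groups. -/
theorem result :
    ¬ (∃ E : Finset (Finset (FreeGroup ℕ)),
      ∀ (G : Type) [Group G] [Lattice G] [MulLeftMono G] [MulRightMono G],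
        ((∀ s ∈ E, ∀ hs : s.Nonempty, ∀ v : ℕ → G,
            (1 : G) ≤ s.sup' hs (fun w => FreeGroup.lift v w)) ↔
          (∀ s : Finset (FreeGroup ℕ), ∀ hs : s.Nonempty,
            (∀ (H : Type) [Group H] [Lattice H] [MulLeftMono H] [MulRightMono H],
              Group.IsNilpotent H → ∀ v : ℕ → H,
                (1 : H) ≤ s.sup' hs (fun w => FreeGroup.lift v w)) →
            ∀ v : ℕ → G, (1 : G) ≤ s.sup' hs (fun w => FreeGroup.lift v w)))) := by
  open Pool.Agent.Helper29 in
  rintro ⟨E, hE⟩
  -- nilpotent ℓ-groups satisfy `E`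
  have h1 : ∀ (H : Type) [Group H] [Lattice H] [MulLeftMono H] [MulRightMono H],
      Group.IsNilpotent H → ∀ s ∈ E, ∀ hs : s.Nonempty, ∀ v : ℕ → H,
        (1 : H) ≤ s.sup' hs (fun w => FreeGroup.lift v w) := by
    intro H _ _ _ _ hn
    exact (hE H).mpr (fun s hs hval v => hval H hn v)
  obtain ⟨p, hp, h2⟩ := part2 E h1
  -- so some `G_p` satisfies all identities valid in nilpotent ℓ-groups
  have h3 := (hE (DG p).G).mp h2
  obtain ⟨N, v, hv⟩ := DG_fails p
  have hne : (idn (p + 1) N).Nonempty := ⟨w0, Finset.mem_insert_self _ _⟩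
  have h4 := h3 (idn (p + 1) N) hne (by
    intro H _ _ _ _ hn v
    exact idn_valid hn (by have := hp.out.pos; omega) N hne v) v
  rw [Finset.le_sup'_iff] at h4
  obtain ⟨w, hw, h5⟩ := h4
  exact absurd (hv w hw) (not_lt.mpr h5)

end Pool.Agent.S01364
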