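import Pool.Statements.S01366
import Pool.Agent.Helper698.KH

set_option autoImplicit false
open Matrix
open Pool Pool.MP_847b33_al

namespace Pool.Agent.S01366

/-- The negation of the preceding statement: For every field K and proper homogeneous ideal I in K[x1..xn] such that the residue field has a linear free resolution over S/I, S/I is graded-isomorphic to A/(regular sequence of linear forms) with A having a quadratic Gröbner basis. -/
theorem result :
    ¬ (∀ (K : Type) [Field K] (n : ℕ) (I : Ideal (MvPolynomial (Fin n) K)),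
    (∀ f ∈ I, ∀ d : ℕ, MvPolynomial.homogeneousComponent d f ∈ I) → I ≠ ⊤ →
    (∃ b : ℕ → ℕ, ∃ D : (i : ℕ) → Matrix (Fin (b i)) (Fin (b (i + 1))) (MvPolynomial (Fin n) K ⧸ I),
      (∀ i j k, ∃ p : MvPolynomial (Fin n) K, p.IsHomogeneous 1 ∧ D i j k = Ideal.Quotient.mk I p) ∧
      b 0 = 1 ∧
      (∀ v : Fin (b 0) → MvPolynomial (Fin n) K ⧸ I,
        (∃ w, D 0 *ᵥ w = v) ↔
          ∀ j, v j ∈ Ideal.span (Set.range fun t : Fin n => Ideal.Quotient.mk I (MvPolynomial.X t))) ∧
      (∀ i, D i * D (i + 1) = 0) ∧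
      (∀ i (v : Fin (b (i + 1)) → MvPolynomial (Fin n) K ⧸ I), D i *ᵥ v = 0 → ∃ w, D (i + 1) *ᵥ w = v)) →
    ∃ (m : ℕ) (J : Ideal (MvPolynomial (Fin m) K)),
      (∀ f ∈ J, ∀ d : ℕ, MvPolynomial.homogeneousComponent d f ∈ J) ∧
      (∃ ord : MonomialOrder (Fin m),
        Ideal.span ((fun f : MvPolynomial (Fin m) K => MvPolynomial.monomial (ord.degree f) (1 : K)) ''
            {f | f ∈ J ∧ f ≠ 0}) ≤
        Ideal.span ((fun f : MvPolynomial (Fin m) K => MvPolynomial.monomial (ord.degree f) (1 : K)) ''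
            {f | f ∈ J ∧ f ≠ 0 ∧ (ord.degree f).degree = 2})) ∧
      ∃ ys : List (MvPolynomial (Fin m) K ⧸ J),
        (∀ y ∈ ys, ∃ q : MvPolynomial (Fin m) K, q.IsHomogeneous 1 ∧ y = Ideal.Quotient.mk J q) ∧
        RingTheory.Sequence.IsRegular (MvPolynomial (Fin m) K ⧸ J) ys ∧
        ∃ φ : (MvPolynomial (Fin n) K ⧸ I) ≃ₐ[K] ((MvPolynomial (Fin m) K ⧸ J) ⧸ Ideal.ofList ys),
          ∀ p : MvPolynomial (Fin n) K, p.IsHomogeneous 1 →
            ∃ q : MvPolynomial (Fin m) K, q.IsHomogeneous 1 ∧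
              φ (Ideal.Quotient.mk I p) = Ideal.Quotient.mk (Ideal.ofList ys) (Ideal.Quotient.mk J q)) := by
  intro H
  have hhom : ∀ f ∈ Helper698.Kos.II ℚ, ∀ d : ℕ,
      MvPolynomial.homogeneousComponent d f ∈ Helper698.Kos.II ℚ := by
    intro f hf d
    obtain ⟨h0, h1, h2⟩ := Helper698.Kos.mem_II.1 hf
    refine Helper698.Kos.mem_II.2 ⟨?_, fun j => ?_, fun k => ?_⟩
    · rw [MvPolynomial.coeff_homogeneousComponent]
      split_ifs
      · exact h0
      · rfl
    · have := h1 j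
      unfold Helper698.Kos.c1 at this ⊢
      rw [MvPolynomial.coeff_homogeneousComponent]
      split_ifs
      · exact this
      · rfl
    · have := h2 k
      unfold Helper698.Kos.c2 at this ⊢
      rw [MvPolynomial.coeff_homogeneousComponent, MvPolynomial.coeff_homogeneousComponent]
      have e1 : (Finsupp.single k 2 : Fin 5 →₀ ℕ).degree = 2 := by simp
      have e2 : (Finsupp.single (k - 1) 1 + Finsupp.single (k + 1) 1 : Fin 5 →₀ ℕ).degree = 2 := by
        simp
      rw [e1, e2]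
      split_ifs
      · exact this
      · rw [add_zero]
  have hne : Helper698.Kos.II ℚ ≠ ⊤ := by
    intro h
    have h1 : (1 : MvPolynomial (Fin 5) ℚ) ∈ Helper698.Kos.II ℚ := by rw [h]; trivial
    have h2 := (Helper698.Kos.mem_II.1 h1).1
    rw [MvPolynomial.coeff_zero_one] at h2
    exact one_ne_zero h2
  obtain ⟨m, J, hJ, ⟨ord, hGB⟩, ys, hys, hreg, φ, hφ⟩ := H ℚ 5 (Helper698.Kos.II ℚ) hhom hne (by
    obtain ⟨b, D, h1, h2, h3, h4, h5⟩ := Helper698.Kos.linear_resolution ℚ
    exact ⟨b, D, h1, h2, h3, h4, h5⟩)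
  exact Helper698.Kos.main_contra (by norm_num) (by norm_num) J hJ ord hGB ys hys hreg φ hφ

end Pool.Agent.S01366
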