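import Pool.Statements.S01368
import Pool.Agent.Helper476.T19

set_option autoImplicit false
open Pool Pool.MP_84bb83_al

namespace Pool.Agent.S01368

/-- The negation of the preceding statement: There is a saturated (equivalently local) formation of finite groups that equals a product MH of two formations both different from (1), and whenever it equals such a product MH, neither M nor H is saturated. -/
theorem result :
    ¬ (∃ F : (G : Type) → [Group G] → Prop,
      ((∀ (A B : Type) [Group A] [Group B], Nonempty (A ≃* B) → F A → F B) ∧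
        F Unit ∧
        (∀ (G : Type) [Group G] [Finite G] (N : Subgroup G) [N.Normal], F G → F (G ⧸ N)) ∧
        (∀ (G : Type) [Group G] [Finite G] (N₁ N₂ : Subgroup G) [N₁.Normal] [N₂.Normal],
          F (G ⧸ N₁) → F (G ⧸ N₂) → F (G ⧸ (N₁ ⊓ N₂)))) ∧
      (∀ (G : Type) [Group G] [Finite G], F (G ⧸ frattini G) → F G) ∧
      (∃ (M H : (G : Type) → [Group G] → Prop),
        ((∀ (A B : Type) [Group A] [Group B], Nonempty (A ≃* B) → M A → M B) ∧
          M Unit ∧
          (∀ (G : Type) [Group G] [Finite G] (N : Subgroup G) [N.Normal], M G → M (G ⧸ N)) ∧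
          (∀ (G : Type) [Group G] [Finite G] (N₁ N₂ : Subgroup G) [N₁.Normal] [N₂.Normal],
            M (G ⧸ N₁) → M (G ⧸ N₂) → M (G ⧸ (N₁ ⊓ N₂)))) ∧
        ((∀ (A B : Type) [Group A] [Group B], Nonempty (A ≃* B) → H A → H B) ∧
          H Unit ∧
          (∀ (G : Type) [Group G] [Finite G] (N : Subgroup G) [N.Normal], H G → H (G ⧸ N)) ∧
          (∀ (G : Type) [Group G] [Finite G] (N₁ N₂ : Subgroup G) [N₁.Normal] [N₂.Normal],
            H (G ⧸ N₁) → H (G ⧸ N₂) → H (G ⧸ (N₁ ⊓ N₂)))) ∧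
        (∃ (G : Type) (_ : Group G), Finite G ∧ Nontrivial G ∧ M G) ∧
        (∃ (G : Type) (_ : Group G), Finite G ∧ Nontrivial G ∧ H G) ∧
        (∀ (G : Type) [Group G] [Finite G],
          F G ↔ ∀ (R : Subgroup G) [R.Normal], H (G ⧸ R) →
            (∀ (N : Subgroup G) [N.Normal], H (G ⧸ N) → R ≤ N) → M ↥R)) ∧
      (∀ (M H : (G : Type) → [Group G] → Prop),
        ((∀ (A B : Type) [Group A] [Group B], Nonempty (A ≃* B) → M A → M B) ∧
          M Unit ∧
          (∀ (G : Type) [Group G] [Finite G] (N : Subgroup G) [N.Normal], M G → M (G ⧸ N)) ∧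
          (∀ (G : Type) [Group G] [Finite G] (N₁ N₂ : Subgroup G) [N₁.Normal] [N₂.Normal],
            M (G ⧸ N₁) → M (G ⧸ N₂) → M (G ⧸ (N₁ ⊓ N₂)))) →
        ((∀ (A B : Type) [Group A] [Group B], Nonempty (A ≃* B) → H A → H B) ∧
          H Unit ∧
          (∀ (G : Type) [Group G] [Finite G] (N : Subgroup G) [N.Normal], H G → H (G ⧸ N)) ∧
          (∀ (G : Type) [Group G] [Finite G] (N₁ N₂ : Subgroup G) [N₁.Normal] [N₂.Normal],
            H (G ⧸ N₁) → H (G ⧸ N₂) → H (G ⧸ (N₁ ⊓ N₂)))) →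
        (∃ (G : Type) (_ : Group G), Finite G ∧ Nontrivial G ∧ M G) →
        (∃ (G : Type) (_ : Group G), Finite G ∧ Nontrivial G ∧ H G) →
        (∀ (G : Type) [Group G] [Finite G],
          F G ↔ ∀ (R : Subgroup G) [R.Normal], H (G ⧸ R) →
            (∀ (N : Subgroup G) [N.Normal], H (G ⧸ N) → R ≤ N) → M ↥R) →
        (¬ ∀ (G : Type) [Group G] [Finite G], M (G ⧸ frattini G) → M G) ∧
        (¬ ∀ (G : Type) [Group G] [Finite G], H (G ⧸ frattini G) → H G))) := by
  rintro ⟨F, ⟨hF1, hF2, hF3, hF4⟩, hS, ⟨M, H, ⟨hM1, hM2, hM3, hM4⟩, ⟨hH1, hH2, hH3, hH4⟩, hMn, hHn,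
    hprod⟩, hall⟩
  have hF : Pool.Agent.Helper476.T.Fmn F :=
    Pool.Agent.Helper476.T.Frm.fmn ⟨hF1, hF2, hF3, hF4⟩
  have hM : Pool.Agent.Helper476.T.Fmn M :=
    Pool.Agent.Helper476.T.Frm.fmn ⟨hM1, hM2, hM3, hM4⟩
  have hH : Pool.Agent.Helper476.T.Fmn H :=
    Pool.Agent.Helper476.T.Frm.fmn ⟨hH1, hH2, hH3, hH4⟩
  have hFMH : ∀ (G : Type) [Group G] [Finite G],
      F G ↔ M (Pool.Agent.Helper476.T.res H G) := fun G _ _ =>
    (hprod G).trans (Pool.Agent.Helper476.T.prod_iff hH M G).symm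
  have hHF : ∀ (G : Type) [Group G] [Finite G], H G → F G := by
    intro G _ _ hG
    rw [hFMH, Pool.Agent.Helper476.T.res_eq_bot hH hG]
    exact hM.triv _
  by_cases hcase : ∀ (G : Type) [Group G] [Finite G], F G → H G
  · -- the two classes coincide on finite groups
    refine (hall M H ⟨hM1, hM2, hM3, hM4⟩ ⟨hH1, hH2, hH3, hH4⟩ hMn hHn hprod).2 ?_
    intro G _ _ hG
    exact hcase G (hS G (hHF _ hG))
  · push Not at hcase
    obtain ⟨G₀, _, _, hG₀, hG₀H⟩ := hcase
    have hmm := Pool.Agent.Helper476.T.mm_fmn F H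
    have hfrm := Pool.Agent.Helper476.T.Frm.of_LF (π₀ := Pool.Agent.Helper476.T.pi0 F H) hmm
    refine (hall (Pool.Agent.Helper476.T.LF (Pool.Agent.Helper476.T.pi0 F H)
      (Pool.Agent.Helper476.T.mm F H)) H ⟨hfrm.iso, hfrm.one, hfrm.q, hfrm.inf⟩
      ⟨hH1, hH2, hH3, hH4⟩ ?_ hHn ?_).1 ?_
    · refine ⟨Pool.Agent.Helper476.T.res H G₀, inferInstance, inferInstance, ?_,
        Pool.Agent.Helper476.T.main_mp hF hS hH hG₀⟩
      rw [Subgroup.nontrivial_iff_ne_bot]
      intro h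
      exact hG₀H (Pool.Agent.Helper476.T.of_res_eq_bot hH h)
    · intro G _ _
      exact (Pool.Agent.Helper476.T.main_iff hF hS hM hH hFMH G).trans
        (Pool.Agent.Helper476.T.prod_iff hH _ G)
    · intro G _ _ hG
      exact Pool.Agent.Helper476.T.LF_sat hmm _ G rfl hG

end Pool.Agent.S01368
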