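import Pool.Statements.S01386
-- import your own Pool.Agent.* helpers here

set_option autoImplicit false
open Pool Pool.MP_864522_al

namespace Pool.Agent.S01386

section Helpers
open Function Set

/-- branch -/
def br (b : ℕ → Bool) : ℕ → ℕ
  | 0 => 1
  | (n+1) => 2 * br b n + (if b n then 1 else 0)

lemma br_bounds (b : ℕ → Bool) (n : ℕ) : 2^n ≤ br b n ∧ br b n < 2^(n+1) := by
  induction n with
  | zero => simp [br]
  | succ n ih =>
    simp only [br]
    obtain ⟨h1, h2⟩ := ih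
    constructor
    · rw [pow_succ]; split_ifs <;> omega
    · rw [pow_succ]; split_ifs <;> omega

lemma log_br (b : ℕ → Bool) (n : ℕ) : Nat.log 2 (br b n) = n := by
  obtain ⟨h1, h2⟩ := br_bounds b n
  exact (Nat.log_eq_iff (by right; constructor <;> [norm_num; omega])).2 ⟨h1, h2⟩

lemma br_agree (b b' : ℕ → Bool) (n : ℕ) (h : br b n = br b' n) : ∀ i < n, b i = b' i := by
  induction n with
  | zero => intro i hi; omega
  | succ n ih =>
    simp only [br] at h
    have h1 : br b n = br b' n := by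
      split_ifs at h <;> omega
    have h2 : b n = b' n := by
      rw [h1] at h
      cases hb : b n <;> cases hb' : b' n <;> simp_all
    intro i hi
    rcases Nat.lt_succ_iff_lt_or_eq.1 hi with hi | rfl
    · exact ih h1 i hi
    · exact h2

/-- eventual difference -/
lemma br_ne (b b' : ℕ → Bool) (h : b ≠ b') : ∃ N, ∀ n ≥ N, br b n ≠ br b' n := by
  obtain ⟨i, hi⟩ := Function.ne_iff.1 h
  refine ⟨i+1, fun n hn he => hi (br_agree b b' n he i (by omega))⟩

/-- the involution exchanging `2^n` and `br b n` for all `n`. -/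
def tf (b : ℕ → Bool) (x : ℕ) : ℕ := Equiv.swap (2 ^ (Nat.log 2 x)) (br b (Nat.log 2 x)) x

lemma log_tf (b : ℕ → Bool) (x : ℕ) : Nat.log 2 (tf b x) = Nat.log 2 x := by
  unfold tf
  rw [Equiv.swap_apply_def]
  split_ifs with h1 h2
  · rw [log_br]
  · rw [Nat.log_pow (by norm_num)]
  · rfl

lemma tf_tf (b : ℕ → Bool) : Function.Involutive (tf b) := by
  intro x
  have h := log_tf b x
  unfold tf at h ⊢
  rw [h, Equiv.swap_apply_self]

def t (b : ℕ → Bool) : Equiv.Perm ℕ := Function.Involutive.toPerm (tf b) (tf_tf b)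

lemma t_apply (b : ℕ → Bool) (x : ℕ) : t b x = tf b x := rfl

lemma t_inv (b : ℕ → Bool) : (t b)⁻¹ = t b := by
  ext x; rfl

lemma t_pow (b : ℕ → Bool) (n : ℕ) : t b (2^n) = br b n := by
  rw [t_apply, tf, Nat.log_pow (by norm_num), Equiv.swap_apply_left]

lemma t_br (b : ℕ → Bool) (n : ℕ) : t b (br b n) = 2^n := by
  rw [t_apply, tf, log_br, Equiv.swap_apply_right]

/-- words -/
def W (S : Set (Equiv.Perm ℕ)) : ℕ → Set (Equiv.Perm ℕ)
  | 0 => {1}
  | (n+1) => {g | ∃ s ∈ S, ∃ y ∈ W S n, g = s * y}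

lemma exists_W (S : Set (Equiv.Perm ℕ)) (g : Equiv.Perm ℕ) (hg : g ∈ Submonoid.closure S) :
    ∃ n, g ∈ W S n := by
  induction hg using Submonoid.closure_induction_left with
  | one => exact ⟨0, rfl⟩
  | mul_left x hx y hy ih =>
    obtain ⟨n, hn⟩ := ih
    exact ⟨n+1, x, hx, y, hn, rfl⟩

lemma exists_W' (S : Set (Equiv.Perm ℕ)) (g : Equiv.Perm ℕ) (hg : g ∈ Subgroup.closure S) :
    ∃ n, g ∈ W (S ∪ S⁻¹) n := by
  apply exists_W
  rw [← Subgroup.closure_toSubmonoid]
  exact hg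

/-- Key lemma -/
lemma key {ι : Type} (S V : Set (Equiv.Perm ℕ)) (hV : V.Countable)
    (T : (ℕ → Bool) → Set (Equiv.Perm ℕ)) (hT : ∀ b, (T b).Countable)
    (hTs : ∀ b, ∀ s ∈ T b, ∀ z, z ∉ Set.range (br b) → s z = z)
    (hS : ∀ s ∈ S, s ∈ V ∨ ∃ b, s ∈ T b) (n : ℕ) :
    ∀ R0 : Set ι, ¬ R0.Countable → ∀ g : ι → Equiv.Perm ℕ, (∀ r ∈ R0, g r ∈ W S n) →
      ∃ R1 ⊆ R0, ¬ R1.Countable ∧ ∃ a : Equiv.Perm ℕ,
        ∃ L : List ((ι → (ℕ → Bool)) × Equiv.Perm ℕ), (∀ q ∈ L, InjOn q.1 R1) ∧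
          ∀ r ∈ R1, ∀ x, (∀ q ∈ L, q.2 x ∉ Set.range (br (q.1 r))) → g r x = a x := by
  induction n with
  | zero =>
    intro R0 hR0 g hg
    refine ⟨R0, subset_rfl, hR0, 1, [], by simp, fun r hr x _ => ?_⟩
    rw [show g r = 1 from hg r hr]
  | succ n ih =>
    intro R0 hR0 g hg
    have hg' : ∀ r, ∃ s y : Equiv.Perm ℕ, r ∈ R0 → s ∈ S ∧ y ∈ W S n ∧ g r = s * y := by
      intro r
      by_cases hr : r ∈ R0
      · obtain ⟨s, hs, y, hy, h⟩ := hg r hr
        exact ⟨s, y, fun _ => ⟨hs, hy, h⟩⟩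
      · exact ⟨1, 1, fun h => absurd h hr⟩
    choose s y hsy using hg'
    obtain ⟨R1, hR10, hR1, a, L, hL1, hL2⟩ := ih R0 hR0 y (fun r hr => (hsy r hr).2.1)
    by_cases hc : (s '' R1).Countable
    · -- constant
      have : ∃ v, ¬ (R1 ∩ s ⁻¹' {v}).Countable := by
        by_contra hcon
        push Not at hcon
        apply hR1
        have : R1 ⊆ ⋃ v ∈ s '' R1, (R1 ∩ s ⁻¹' {v}) := by
          intro r hr
          simp only [mem_iUnion]
          exact ⟨s r, ⟨r, hr, rfl⟩, hr, rfl⟩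
        exact (hc.biUnion (fun v _ => hcon v)).mono this
      obtain ⟨v, hv⟩ := this
      refine ⟨R1 ∩ s ⁻¹' {v}, inter_subset_left.trans hR10, hv, v * a, L,
        fun q hq => (hL1 q hq).mono inter_subset_left, fun r hr x hx => ?_⟩
      rw [(hsy r (hR10 hr.1)).2.2, Equiv.Perm.mul_apply, Equiv.Perm.mul_apply,
        hL2 r hr.1 x hx, show s r = v from hr.2]
    · -- many
      let D : Set ι := {r | r ∈ R1 ∧ s r ∉ V}
      have hDR : D ⊆ R1 := fun r hr => hr.1
      have hD : ¬ (s '' D).Countable := by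
        intro h
        apply hc
        refine (hV.union h).mono ?_
        rintro _ ⟨r, hr, rfl⟩
        by_cases hrV : s r ∈ V
        · exact Or.inl hrV
        · exact Or.inr ⟨r, ⟨hr, hrV⟩, rfl⟩
      have hb : ∀ r, ∃ b, r ∈ D → s r ∈ T b := by
        intro r
        by_cases hr : r ∈ D
        · obtain ⟨b, hb⟩ := (hS (s r) (hsy r (hR10 hr.1)).1).resolve_left hr.2
          exact ⟨b, fun _ => hb⟩
        · exact ⟨fun _ => false, fun h => absurd h hr⟩
      choose β hβ using hb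
      have hβD : ¬ (β '' D).Countable := by
        intro h
        apply hD
        refine (h.biUnion (t := fun b _ => T b) (fun b _ => hT b)).mono ?_
        rintro _ ⟨r, hr, rfl⟩
        simp only [mem_iUnion]
        exact ⟨β r, ⟨r, hr, rfl⟩, hβ r hr⟩
      obtain ⟨R2, hR2, hbij⟩ := Set.SurjOn.exists_bijOn_subset (surjOn_image β D)
      refine ⟨R2, hR2.trans (hDR.trans hR10), ?_, a, (β, a) :: L, ?_, ?_⟩
      · intro h
        apply hβD
        rw [← hbij.image_eq]
        exact h.image β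
      · intro q hq
        rcases List.mem_cons.1 hq with rfl | hq
        · exact hbij.injOn
        · exact (hL1 q hq).mono (hR2.trans hDR)
      · intro r hr x hx
        have hrD := hR2 hr
        have hr1 := hDR hrD
        rw [(hsy r (hR10 hr1)).2.2, Equiv.Perm.mul_apply,
          hL2 r hr1 x (fun q hq => hx q (List.mem_cons_of_mem _ hq))]
        exact hTs (β r) _ (hβ r hrD) _ (hx (β, a) List.mem_cons_self)

lemma unc : Uncountable (ℕ → Bool) := by
  rw [← Cardinal.aleph0_lt_mk_iff]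
  have : Cardinal.mk (ℕ → Bool) = 2 ^ Cardinal.aleph0 := by simp
  rw [this]
  exact Cardinal.cantor _

/-- Smallness of H-type sets -/
lemma small (S V : Set (Equiv.Perm ℕ)) (hV : V.Countable)
    (T : (ℕ → Bool) → Set (Equiv.Perm ℕ)) (hT : ∀ b, (T b).Countable)
    (hTs : ∀ b, ∀ s ∈ T b, ∀ z, z ∉ Set.range (br b) → s z = z)
    (hS : ∀ s ∈ S ∪ S⁻¹, s ∈ V ∨ ∃ b, s ∈ T b) : Subgroup.closure S ≠ ⊤ := by
  classical
  intro htop
  have hall : ∀ r : ℕ → Bool, ∃ n, t r ∈ W (S ∪ S⁻¹) n := by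
    intro r
    apply exists_W'
    rw [htop]; trivial
  have hunc : ¬ (Set.univ : Set (ℕ → Bool)).Countable := by
    rw [Set.countable_univ_iff]
    have := unc
    exact not_countable
  have hn : ∃ n, ¬ {r : ℕ → Bool | t r ∈ W (S ∪ S⁻¹) n}.Countable := by
    by_contra hcon
    push Not at hcon
    apply hunc
    refine (Set.countable_iUnion hcon).mono ?_
    intro r _
    simp only [mem_iUnion]
    exact hall r
  obtain ⟨n, hn⟩ := hn
  obtain ⟨R1, hR10, hR1, a, L, hL1, hL2⟩ :=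
    key (S ∪ S⁻¹) V hV T hT hTs hS n _ hn t (fun r hr => hr)
  have hinf : R1.Infinite := fun h => hR1 h.countable
  obtain ⟨I, hIR, hIcard⟩ := hinf.exists_subset_card_eq (L.length + 2)
  -- eventually
  have e1 : ∀ᶠ k in Filter.atTop, ∀ r ∈ I, ∀ r' ∈ I, r ≠ r' → br r k ≠ br r' k := by
    rw [Filter.eventually_all_finset]
    intro r hr
    rw [Filter.eventually_all_finset]
    intro r' hr'
    by_cases h : r = r'
    · exact Filter.Eventually.of_forall (fun k hk => absurd h hk)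
    · obtain ⟨N, hN⟩ := br_ne r r' h
      filter_upwards [Filter.eventually_ge_atTop N] with k hk _
      exact hN k hk
  have e2 : ∀ᶠ k in Filter.atTop, ∀ q ∈ L.toFinset, ∀ r ∈ I, ∀ r' ∈ I, r ≠ r' →
      ¬ (q.2 (2^k) ∈ Set.range (br (q.1 r)) ∧ q.2 (2^k) ∈ Set.range (br (q.1 r'))) := by
    rw [Filter.eventually_all_finset]
    intro q hq
    rw [Filter.eventually_all_finset]
    intro r hr
    rw [Filter.eventually_all_finset]
    intro r' hr'
    by_cases h : r = r'
    · exact Filter.Eventually.of_forall (fun k hk => absurd h hk)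
    · have h2 : q.1 r ≠ q.1 r' := fun h3 =>
        h (hL1 q (List.mem_toFinset.1 hq) (hIR hr) (hIR hr') h3)
      obtain ⟨N, hN⟩ := br_ne _ _ h2
      have hfin : (Set.range (br (q.1 r)) ∩ Set.range (br (q.1 r'))).Finite := by
        refine (Set.finite_lt_nat (2^(N+1))).subset ?_
        rintro _ ⟨⟨i, rfl⟩, ⟨j, hj⟩⟩
        have hij : j = i := by
          rw [← log_br (q.1 r') j, hj, log_br]
        subst hij
        have hjN : j < N := by
          by_contra hcon
          exact hN j (by omega) hj.symm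
        have := (br_bounds (q.1 r) j).2
        have h4 : 2^(j+1) ≤ 2^(N+1) := Nat.pow_le_pow_right (by norm_num) (by omega)
        exact lt_of_lt_of_le this h4
      have hinj : Injective (fun k : ℕ => q.2 (2^k)) :=
        q.2.injective.comp (Nat.pow_right_injective (le_refl 2))
      have := hinj.tendsto_cofinite.eventually (hfin.compl_mem_cofinite)
      rw [Nat.cofinite_eq_atTop] at this
      filter_upwards [this] with k hk _ h5
      exact hk h5
  obtain ⟨k, hk1, hk2⟩ := (e1.and e2).exists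
  let J := I.filter (fun r => t r (2^k) ≠ a (2^k))
  have hJ : L.length + 1 ≤ J.card := by
    have h1 : (I.filter (fun r => ¬ (t r (2^k) ≠ a (2^k)))).card ≤ 1 := by
      rw [Finset.card_le_one]
      intro r hr r' hr'
      rw [Finset.mem_filter] at hr hr'
      by_contra hne
      apply hk1 r hr.1 r' hr'.1 hne
      have h2 := not_not.1 hr.2
      have h3 := not_not.1 hr'.2
      rw [← t_pow, ← t_pow, h2, h3]
    have h2 := Finset.card_filter_add_card_filter_not (s := I) (fun r => t r (2^k) ≠ a (2^k))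
    simp only [J]
    omega
  have hq : ∀ r ∈ J, ∃ q ∈ L.toFinset, q.2 (2^k) ∈ Set.range (br (q.1 r)) := by
    intro r hr
    rw [Finset.mem_filter] at hr
    by_contra hcon
    push Not at hcon
    exact hr.2 (hL2 r (hIR hr.1) _ (fun q hq => hcon q (List.mem_toFinset.2 hq)))
  have hne : Nonempty ((((ℕ → Bool) → (ℕ → Bool)) × Equiv.Perm ℕ)) := ⟨⟨id, 1⟩⟩
  choose! Q hQ1 hQ2 using hq
  obtain ⟨r, hr, r', hr', hrr, hQQ⟩ := Finset.exists_ne_map_eq_of_card_lt_of_maps_to
    (lt_of_le_of_lt (List.toFinset_card_le L) (by omega : L.length < J.card)) hQ1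
  have hrI := (Finset.mem_filter.1 hr).1
  have hrI' := (Finset.mem_filter.1 hr').1
  exact hk2 (Q r) (hQ1 r hr) r hrI r' hrI' hrr ⟨hQ2 r hr, by rw [hQQ]; exact hQ2 r' hr'⟩


/-- General extension -/
lemma ext_perm (D : Set ℕ) (e : ℕ → ℕ) (he : InjOn e D) (hD : Dᶜ.Infinite)
    (hI : (e '' D)ᶜ.Infinite) : ∃ u : Equiv.Perm ℕ, ∀ x ∈ D, u x = e x := by
  classical
  have h1 : Infinite {x // ¬ (x ∈ D)} := hD.to_subtype
  have h2 : Infinite {x // ¬ (x ∈ e '' D)} := hI.to_subtype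
  obtain ⟨f⟩ := nonempty_equiv_of_countable (α := {x // ¬ (x ∈ D)}) (β := {x // ¬ (x ∈ e '' D)})
  let g : {x // x ∈ D} ≃ {x // x ∈ e '' D} := Equiv.Set.imageOfInjOn e D he
  refine ⟨Equiv.subtypeCongr g f, fun x hx => ?_⟩
  simp [Equiv.subtypeCongr, hx]
  rfl

lemma ext_sym (X B : Set ℕ) (hB : B ⊆ X) (e : ℕ → ℕ) (he : InjOn e B) (hm : MapsTo e B X)
    (h1 : (X \ B).Infinite) (h2 : (X \ e '' B).Infinite) :
    ∃ u : Equiv.Perm ℕ, (∀ x ∈ B, u x = e x) ∧ ∀ x, x ∉ X → u x = x := by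
  classical
  let e' : ℕ → ℕ := fun x => if x ∈ B then e x else x
  have key : ∀ x, x ∉ X → x ∉ B := fun x hx hb => hx (hB hb)
  obtain ⟨u, hu⟩ := ext_perm (B ∪ Xᶜ) e' (by
    intro x hx y hy hxy
    simp only [e'] at hxy
    rcases hx with hx | hx <;> rcases hy with hy | hy
    · rw [if_pos hx, if_pos hy] at hxy; exact he hx hy hxy
    · rw [if_pos hx, if_neg (key y hy)] at hxy
      exact absurd (hxy ▸ hm hx) hy
    · rw [if_neg (key x hx), if_pos hy] at hxy
      exact absurd (hxy ▸ hm hy) hx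
    · rw [if_neg (key x hx), if_neg (key y hy)] at hxy; exact hxy) (by
    refine h1.mono ?_
    rintro x ⟨hx, hxb⟩ (h | h)
    · exact hxb h
    · exact h hx) (by
    refine h2.mono ?_
    rintro x ⟨hx, hxb⟩ ⟨y, hy, rfl⟩
    rcases hy with hy | hy
    · apply hxb
      simp only [e', if_pos hy]
      exact ⟨y, hy, rfl⟩
    · simp only [e', if_neg (key y hy)] at hx
      exact hy hx)
  refine ⟨u, fun x hx => ?_, fun x hx => ?_⟩
  · rw [hu x (Or.inl hx)]; simp [e', hx]
  · rw [hu x (Or.inr hx)]; simp [e', key x hx]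

lemma odd_part_infinite (X : Set ℕ) (φ : ℕ → ℕ) (hφ : Injective φ) (hX : ∀ n, φ n ∈ X) (B : Set ℕ) :
    (X \ (fun b => φ (2 * b)) '' B).Infinite := by
  have h : (Set.range (fun b => φ (2 * b + 1))).Infinite := by
    apply Set.infinite_range_of_injective
    intro a b hab
    have := hφ hab
    omega
  refine h.mono ?_
  rintro _ ⟨b, rfl⟩
  refine ⟨hX _, ?_⟩
  rintro ⟨c, -, hc⟩
  have := hφ hc
  omega

lemma case1 (K : Subgroup (Equiv.Perm ℕ)) (X Y : Set ℕ) (hXY : ∀ x, x ∈ X ∨ x ∈ Y)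
    (hX : ∀ p : Equiv.Perm ℕ, (∀ x, x ∉ X → p x = x) → p ∈ K)
    (hY : ∀ p : Equiv.Perm ℕ, (∀ x, x ∉ Y → p x = x) → p ∈ K)
    (hi : (X ∩ Y).Infinite) (s : Equiv.Perm ℕ) (hs : {x | x ∈ X ∧ s x ∈ X}.Infinite) : s ∈ K := by
  let φ : ℕ ↪ {x | x ∈ X ∧ s x ∈ X} := Set.Infinite.natEmbedding _ hs
  have hφ : Injective (fun n => (φ n : ℕ)) := fun a b h => φ.injective (Subtype.ext h)
  have hφX : ∀ n, (φ n : ℕ) ∈ X := fun n => (φ n).2.1
  have hφsX : ∀ n, s (φ n : ℕ) ∈ X := fun n => (φ n).2.2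
  have hBX : X \ Y ⊆ X := sdiff_subset
  have hinf : (X \ (X \ Y)).Infinite := by
    refine hi.mono ?_
    rintro x ⟨h1, h2⟩
    exact ⟨h1, fun h => h.2 h2⟩
  obtain ⟨σ, hσ1, hσ2⟩ := ext_sym X (X \ Y) hBX (fun b => (φ (2 * b) : ℕ))
    (by intro a _ b _ h; have := hφ h; omega) (fun b _ => hφX _) hinf
    (odd_part_infinite X (fun n => (φ n : ℕ)) hφ hφX _)
  obtain ⟨u, hu1, hu2⟩ := ext_sym X (X \ Y) hBX (fun b => s (φ (2 * b) : ℕ))
    (by intro a _ b _ h; have := hφ (s.injective h); omega) (fun b _ => hφsX _) hinf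
    (odd_part_infinite X (fun n => s (φ n : ℕ)) (s.injective.comp hφ) hφsX _)
  have hw : u⁻¹ * s * σ ∈ K := by
    apply hY
    intro x hx
    have hxB : x ∈ X \ Y := ⟨(hXY x).resolve_right hx, hx⟩
    rw [Equiv.Perm.mul_apply, Equiv.Perm.mul_apply, hσ1 x hxB, Equiv.Perm.inv_eq_iff_eq, hu1 x hxB]
  have hs : s = u * (u⁻¹ * s * σ) * σ⁻¹ := by group
  rw [hs]
  exact K.mul_mem (K.mul_mem (hX u hu2) hw) (K.inv_mem (hX σ hσ2))

lemma dnt (K : Subgroup (Equiv.Perm ℕ)) (X Y : Set ℕ) (hXY : ∀ x, x ∈ X ∨ x ∈ Y)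
    (hX : ∀ p : Equiv.Perm ℕ, (∀ x, x ∉ X → p x = x) → p ∈ K)
    (hY : ∀ p : Equiv.Perm ℕ, (∀ x, x ∉ Y → p x = x) → p ∈ K)
    (hi : (X ∩ Y).Infinite) : K = ⊤ := by
  rw [Subgroup.eq_top_iff']
  intro s
  by_cases hs : {x | x ∈ X ∧ s x ∈ X}.Infinite
  · exact case1 K X Y hXY hX hY hi s hs
  · let ψ : ℕ ↪ (X ∩ Y : Set ℕ) := Set.Infinite.natEmbedding _ hi
    have hψ : Injective (fun n => (ψ n : ℕ)) := fun a b h => ψ.injective (Subtype.ext h)
    have hinf : (Y \ (Y \ X)).Infinite := by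
      refine hi.mono ?_
      rintro x ⟨h1, h2⟩
      exact ⟨h2, fun h => h.2 h1⟩
    obtain ⟨w, hw1, hw2⟩ := ext_sym Y (Y \ X) sdiff_subset (fun c => (ψ (2 * c) : ℕ))
      (by intro a _ b _ h; have := hψ h; omega) (fun b _ => (ψ _).2.2) hinf
      (odd_part_infinite Y (fun n => (ψ n : ℕ)) hψ (fun n => (ψ n).2.2) _)
    have h1 : w * s ∈ K := by
      apply case1 K X Y hXY hX hY hi
      have hXinf : X.Infinite := hi.mono Set.inter_subset_left
      refine (hXinf.sdiff (Set.not_infinite.1 hs)).mono ?_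
      rintro x ⟨hx, hx2⟩
      refine ⟨hx, ?_⟩
      have h3 : s x ∉ X := fun h => hx2 ⟨hx, h⟩
      have h4 : s x ∈ Y \ X := ⟨(hXY _).resolve_left h3, h3⟩
      rw [Equiv.Perm.mul_apply, hw1 _ h4]
      exact (ψ _).2.1
    have h2 : s = w⁻¹ * (w * s) := by group
    rw [h2]
    exact K.mul_mem (K.inv_mem (hY w hw2)) h1

/-- locally bounded sets do not generate -/
lemma bounded_ne_top (S : Set (Equiv.Perm ℕ)) (F : ℕ → ℕ) (hF : ∀ s ∈ S ∪ S⁻¹, ∀ z, s z ≤ F z) :
    Subgroup.closure S ≠ ⊤ := by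
  intro htop
  let F' : ℕ → ℕ := fun m => ∑ z ∈ Finset.range (m+1), F z
  have hF' : ∀ z m, z ≤ m → F z ≤ F' m := by
    intro z m h
    exact Finset.single_le_sum (f := F) (fun _ _ => Nat.zero_le _) (Finset.mem_range.2 (by omega))
  have hW : ∀ n, ∀ g ∈ W (S ∪ S⁻¹) n, ∀ x, g x ≤ F'^[n] x := by
    intro n
    induction n with
    | zero => intro g hg x; rw [show g = 1 from hg]; simp
    | succ n ih =>
      rintro g ⟨s, hs, y, hy, rfl⟩ x
      rw [Equiv.Perm.mul_apply, Function.iterate_succ_apply']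
      exact (hF s hs _).trans (hF' _ _ (ih y hy x))
  let g : ℕ → ℕ := fun n => ∑ i ∈ Finset.range (n+1), (F'^[i] (2*i) + 1)
  have hg1 : ∀ n, F'^[n] (2*n) < g n := by
    intro n
    have := Finset.single_le_sum (f := fun i => F'^[i] (2*i) + 1) (s := Finset.range (n+1))
      (fun _ _ => Nat.zero_le _) (Finset.mem_range.2 (Nat.lt_succ_self n))
    simp only [g]
    omega
  have hg2 : StrictMono g := by
    apply strictMono_nat_of_lt_succ
    intro n
    simp only [g]
    rw [Finset.sum_range_succ _ (n+1)]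
    omega
  let j : ℕ ⊕ ℕ ↪ ℕ := ⟨fun p => Sum.elim (fun n => 2 * n) (fun n => 2 * g n + 1) p, by
    rintro (a | a) (b | b) h <;> simp only [Sum.elim_inl, Sum.elim_inr] at h
    · congr 1; omega
    · omega
    · omega
    · congr 1
      apply hg2.injective
      omega⟩
  let y : Equiv.Perm ℕ := Equiv.Perm.viaEmbedding (Equiv.sumComm ℕ ℕ) j
  have hy : ∀ n, y (2 * n) = 2 * g n + 1 := by
    intro n
    have h := Equiv.Perm.viaEmbedding_apply (Equiv.sumComm ℕ ℕ) j (Sum.inl n)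
    exact h
  have hy2 : y ∈ Subgroup.closure S := by rw [htop]; trivial
  obtain ⟨n, hn⟩ := exists_W' S y hy2
  have h3 := hW n y hn (2 * n)
  rw [hy] at h3
  have := hg1 n
  omega

/-- The level subgroup -/
def P : Subgroup (Equiv.Perm ℕ) where
  carrier := {p | ∀ x, Nat.log 2 (p x) = Nat.log 2 x}
  mul_mem' := by
    intro a b ha hb x
    rw [Equiv.Perm.mul_apply, ha, hb]
  one_mem' := by intro x; simp
  inv_mem' := by
    intro a ha x
    have := ha (a⁻¹ x)
    rw [show a (a⁻¹ x) = x by simp] at this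
    exact this.symm

lemma t_mem_P (b : ℕ → Bool) : t b ∈ P := fun x => log_tf b x


/-- The index set: permutations supported on the powers of two. -/
def M0 : Set ℕ := Set.range (fun n : ℕ => 2 ^ n)

/-- The label attached to a permutation. -/
def chi (p : Equiv.Perm ℕ) : ℕ → Bool := fun i => decide (p i.unpair.1 = i.unpair.2)

lemma chi_inj : Injective chi := by
  intro p p' h
  ext x
  have h1 := congrFun h (Nat.pair x (p x))
  simp only [chi, Nat.unpair_pair, decide_true] at h1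
  exact (of_decide_eq_true h1.symm).symm

/-- Transport of `p` to the branch of its label. -/
def hh (p : Equiv.Perm ℕ) : Equiv.Perm ℕ := t (chi p) * p * (t (chi p))⁻¹

lemma hh_fix (p : Equiv.Perm ℕ) (hp : ∀ x, x ∉ M0 → p x = x) (z : ℕ)
    (hz : z ∉ Set.range (br (chi p))) : hh p z = z := by
  have h1 : t (chi p) z ∉ M0 := by
    rintro ⟨n, hn⟩
    apply hz
    refine ⟨n, ?_⟩
    have h2 : t (chi p) (t (chi p) z) = z := tf_tf _ z
    rw [← h2, ← hn, t_pow]
  rw [hh, t_inv, Equiv.Perm.mul_apply, Equiv.Perm.mul_apply, hp _ h1]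
  exact tf_tf _ z

lemma hh_inv_fix (p : Equiv.Perm ℕ) (hp : ∀ x, x ∉ M0 → p x = x) (z : ℕ)
    (hz : z ∉ Set.range (br (chi p))) : (hh p)⁻¹ z = z := by
  rw [Equiv.Perm.inv_eq_iff_eq, hh_fix p hp z hz]

lemma M0_infinite : M0.Infinite :=
  Set.infinite_range_of_injective (Nat.pow_right_injective (le_refl 2))

lemma M0_compl_infinite : (M0ᶜ).Infinite := by
  have h : (Set.range (fun n : ℕ => 2 * n + 3)).Infinite :=
    Set.infinite_range_of_injective (fun a b h => by omega)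
  refine h.mono ?_
  rintro _ ⟨n, rfl⟩ ⟨m, hm⟩
  simp only at hm
  rcases m with _ | m
  · simp at hm
  · rw [pow_succ] at hm; omega

/-- A permutation carrying `M0` onto a given infinite co-infinite set. -/
lemma exists_move (X : Set ℕ) (h1 : X.Infinite) (h2 : Xᶜ.Infinite) :
    ∃ f : Equiv.Perm ℕ, ∀ x, f x ∈ X ↔ x ∈ M0 := by
  classical
  have i1 : Infinite {x // x ∈ M0} := M0_infinite.to_subtype
  have i2 : Infinite {x // x ∈ X} := h1.to_subtype
  have i3 : Infinite {x // ¬ x ∈ M0} := M0_compl_infinite.to_subtype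
  have i4 : Infinite {x // ¬ x ∈ X} := h2.to_subtype
  obtain ⟨e⟩ := nonempty_equiv_of_countable (α := {x // x ∈ M0}) (β := {x // x ∈ X})
  obtain ⟨f⟩ := nonempty_equiv_of_countable (α := {x // ¬ x ∈ M0}) (β := {x // ¬ x ∈ X})
  refine ⟨Equiv.subtypeCongr e f, fun x => ?_⟩
  by_cases hx : x ∈ M0
  · simp only [Equiv.subtypeCongr, hx, iff_true]
    simp [hx]
  · simp only [Equiv.subtypeCongr, hx, iff_false]
    simp only [Equiv.trans_apply]
    rw [Equiv.sumCompl_symm_apply_of_neg hx]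
    simp only [Equiv.sumCongr_apply, Sum.map_inr, Equiv.sumCompl_apply_inr]
    exact (f ⟨x, hx⟩).2

lemma sym_of_move (K : Subgroup (Equiv.Perm ℕ)) (hK : ∀ p : Equiv.Perm ℕ, (∀ x, x ∉ M0 → p x = x) → p ∈ K)
    (X : Set ℕ) (f : Equiv.Perm ℕ) (hf : ∀ x, f x ∈ X ↔ x ∈ M0) (hfK : f ∈ K) :
    ∀ p : Equiv.Perm ℕ, (∀ x, x ∉ X → p x = x) → p ∈ K := by
  intro p hp
  have h1 : f⁻¹ * p * f ∈ K := by
    apply hK
    intro x hx
    rw [Equiv.Perm.mul_apply, Equiv.Perm.mul_apply, hp (f x) (fun h => hx ((hf x).1 h)),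
      Equiv.Perm.inv_eq_iff_eq]
  have h2 : p = f * (f⁻¹ * p * f) * f⁻¹ := by group
  rw [h2]
  exact K.mul_mem (K.mul_mem hfK h1) (K.inv_mem hfK)

lemma inf_mod (r : ℕ) (hr : r < 3) (X : Set ℕ) (h : ∀ n, n % 3 = r → n ∈ X) : X.Infinite := by
  have h1 : (Set.range (fun n : ℕ => 3 * n + r)).Infinite :=
    Set.infinite_range_of_injective (fun a b h => by omega)
  refine h1.mono ?_
  rintro _ ⟨n, rfl⟩
  apply h
  simp only
  omega

end Helpers

/-- The negation of the preceding statement: If two subgroups G and H together generate the full permutation group of ℕ, then for some finite set U of permutations, either G together with U or H together with U generates the whole group. -/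
theorem result :
    ¬ (∀ G H : Subgroup (Equiv.Perm ℕ), G ⊔ H = ⊤ →
      ∃ U : Finset (Equiv.Perm ℕ),
        G ⊔ Subgroup.closure (↑U : Set (Equiv.Perm ℕ)) = ⊤ ∨
        H ⊔ Subgroup.closure (↑U : Set (Equiv.Perm ℕ)) = ⊤) := by
  intro hmain
  classical
  let X : Set ℕ := {n | n % 3 ≠ 0}
  let Y : Set ℕ := {n | n % 3 ≠ 1}
  obtain ⟨f1, hf1⟩ := exists_move X (inf_mod 1 (by norm_num) _ (fun n hn => by simp [X, hn]))
    (inf_mod 0 (by norm_num) _ (fun n hn => by simp [X, hn]))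
  obtain ⟨f2, hf2⟩ := exists_move Y (inf_mod 0 (by norm_num) _ (fun n hn => by simp [Y, hn]))
    (inf_mod 1 (by norm_num) _ (fun n hn => by simp [Y, hn]))
  let G : Subgroup (Equiv.Perm ℕ) := Subgroup.closure ((P : Set (Equiv.Perm ℕ)) ∪ {f1, f2})
  let A : Set (Equiv.Perm ℕ) := {s | ∃ p : Equiv.Perm ℕ, (∀ x, x ∉ M0 → p x = x) ∧ s = hh p}
  let H : Subgroup (Equiv.Perm ℕ) := Subgroup.closure A
  have hGH : G ⊔ H = ⊤ := by
    have hK : ∀ p : Equiv.Perm ℕ, (∀ x, x ∉ M0 → p x = x) → p ∈ G ⊔ H := by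
      intro p hp
      have h1 : hh p ∈ G ⊔ H :=
        (le_sup_right : H ≤ G ⊔ H) (Subgroup.subset_closure ⟨p, hp, rfl⟩)
      have h2 : t (chi p) ∈ G ⊔ H :=
        (le_sup_left : G ≤ G ⊔ H) (Subgroup.subset_closure (Or.inl (t_mem_P _)))
      have h3 : p = (t (chi p))⁻¹ * hh p * t (chi p) := by rw [hh]; group
      rw [h3]
      exact Subgroup.mul_mem _ (Subgroup.mul_mem _ (Subgroup.inv_mem _ h2) h1) h2
    have k1 : f1 ∈ G ⊔ H :=
      (le_sup_left : G ≤ G ⊔ H) (Subgroup.subset_closure (Or.inr (by simp)))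
    have k2 : f2 ∈ G ⊔ H :=
      (le_sup_left : G ≤ G ⊔ H) (Subgroup.subset_closure (Or.inr (by simp)))
    refine dnt (G ⊔ H) X Y ?_ (sym_of_move _ hK X f1 hf1 k1) (sym_of_move _ hK Y f2 hf2 k2) ?_
    · intro x
      by_cases h : x % 3 = 0
      · right; simp [Y, h]
      · left; simp [X, h]
    · exact inf_mod 2 (by norm_num) _ (fun n hn => by simp [X, Y, hn])
  obtain ⟨U, hU | hU⟩ := hmain G H hGH
  · -- G side
    have h1 : G ⊔ Subgroup.closure (↑U : Set (Equiv.Perm ℕ)) =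
        Subgroup.closure (((P : Set (Equiv.Perm ℕ)) ∪ {f1, f2}) ∪ (↑U : Set (Equiv.Perm ℕ))) := by
      rw [Subgroup.closure_union]
    rw [h1] at hU
    let V : Finset (Equiv.Perm ℕ) := {f1, f2} ∪ U
    refine bounded_ne_top _ (fun z => 2 ^ (Nat.log 2 z + 1) + ∑ v ∈ V, (v z + v⁻¹ z)) ?_ hU
    have hP : ∀ s ∈ P, ∀ z, s z ≤ 2 ^ (Nat.log 2 z + 1) := by
      intro s hs z
      have h2 : Nat.log 2 (s z) = Nat.log 2 z := hs z
      rw [← h2]
      exact (Nat.lt_pow_succ_log_self (by norm_num) _).le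
    have hV : ∀ v ∈ V, ∀ z, v z + v⁻¹ z ≤ ∑ v ∈ V, (v z + v⁻¹ z) := by
      intro v hv z
      exact Finset.single_le_sum (f := fun v : Equiv.Perm ℕ => v z + v⁻¹ z)
        (fun _ _ => Nat.zero_le _) hv
    have hmemV : ∀ s, s ∈ ((P : Set (Equiv.Perm ℕ)) ∪ {f1, f2}) ∪ (↑U : Set (Equiv.Perm ℕ)) →
        s ∈ P ∨ s ∈ V := by
      intro s hs
      rcases hs with (hs | hs) | hs
      · exact Or.inl hs
      · right
        simp only [V, Finset.mem_union, Finset.mem_insert, Finset.mem_singleton]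
        left
        simpa using hs
      · right
        simp only [V, Finset.mem_union]
        right
        simpa using hs
    intro s hs z
    rcases hs with hs | hs
    · rcases hmemV s hs with h | h
      · exact (hP s h z).trans (Nat.le_add_right _ _)
      · exact le_trans (le_trans (Nat.le_add_right _ _) (hV s h z)) (Nat.le_add_left _ _)
    · rcases hmemV s⁻¹ hs with h | h
      · have h3 : s ∈ P := by
          have := P.inv_mem h
          rwa [inv_inv] at this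
        exact (hP s h3 z).trans (Nat.le_add_right _ _)
      · refine le_trans (le_trans ?_ (hV s⁻¹ h z)) (Nat.le_add_left _ _)
        rw [inv_inv]
        exact Nat.le_add_left _ _
  · -- H side
    have h1 : H ⊔ Subgroup.closure (↑U : Set (Equiv.Perm ℕ)) =
        Subgroup.closure (A ∪ (↑U : Set (Equiv.Perm ℕ))) := by
      rw [Subgroup.closure_union]
    rw [h1] at hU
    let T : (ℕ → Bool) → Set (Equiv.Perm ℕ) := fun b =>
      {s | ∃ p : Equiv.Perm ℕ, (∀ x, x ∉ M0 → p x = x) ∧ chi p = b ∧ (s = hh p ∨ s = (hh p)⁻¹)}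
    refine small _ ((↑U : Set (Equiv.Perm ℕ)) ∪ (↑U : Set (Equiv.Perm ℕ))⁻¹)
      (U.countable_toSet.union ?_) T ?_ ?_ ?_ hU
    · exact (U.finite_toSet.inv).countable
    · intro b
      by_cases hb : ∃ p, chi p = b
      · obtain ⟨p, hp⟩ := hb
        refine (Set.Finite.countable (s := {hh p, (hh p)⁻¹}) (by simp)).mono ?_
        rintro s ⟨p', -, hp', hs⟩
        have : p' = p := chi_inj (hp'.trans hp.symm)
        subst this
        simpa using hs
      · have : T b = ∅ := by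
          ext s
          simp only [T, Set.mem_ofPred_eq, Set.mem_empty_iff_false, iff_false]
          rintro ⟨p, -, hp, -⟩
          exact hb ⟨p, hp⟩
        rw [this]
        exact Set.countable_empty
    · rintro b s ⟨p, hp, rfl, rfl | rfl⟩ z hz
      · exact hh_fix p hp z hz
      · exact hh_inv_fix p hp z hz
    · intro s hs
      rcases hs with (⟨p, hp, rfl⟩ | hs) | hs
      · exact Or.inr ⟨chi p, p, hp, rfl, Or.inl rfl⟩
      · exact Or.inl (Or.inl hs)
      · rcases hs with ⟨p, hp, h⟩ | hs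
        · refine Or.inr ⟨chi p, p, hp, rfl, Or.inr ?_⟩
          rw [← h, inv_inv]
        · exact Or.inl (Or.inr hs)

end Pool.Agent.S01386
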