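import Pool.Statements.S01388
import Pool.Agent.Helper878.PM.Final

set_option autoImplicit false
open Pool Pool.MP_8669a5_al

namespace Pool.Agent.S01388

/-- The negation of the preceding statement: Every metabelian group G is free metabelian on some set (isomorphic to F(X)/F(X)'') whenever every homomorphism from G into a metabelian group lifts along every surjection between metabelian groups. -/
theorem result :
    ¬ (∀ (G : Type) [Group G], derivedSeries G 2 = ⊥ →
      (∀ (A B : Type) [Group A] [Group B], derivedSeries A 2 = ⊥ → derivedSeries B 2 = ⊥ →
        ∀ (π : A →* B), Function.Surjective π →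
          ∀ f : G →* B, ∃ g : G →* A, π.comp g = f) →
      ∃ (X : Type), Nonempty (G ≃* (FreeGroup X ⧸ derivedSeries (FreeGroup X) 2))) := by
  intro h
  obtain ⟨S, ⟨e⟩⟩ := h Pool.Agent.Helper878.PM.PP' Pool.Agent.Helper878.PM.metabelian
    (fun G H _ _ hG _ f hf g => Pool.Agent.Helper878.PM.projective hG f hf g)
  exact Pool.Agent.Helper878.PM.not_free S e

end Pool.Agent.S01388
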