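import Pool.Statements.S01392
import Pool.Agent.Helper707.IFinal

set_option autoImplicit false
open Pool Pool.MP_874ce0_al

namespace Pool.Agent.S01392

/-- The negation of the preceding statement: For every finitely generated one-relator inverse monoid Inv<X : w = 1>, built as the free monoid on X and its formal inverses modulo Wagner's relations and w = 1: if deciding which words equal 1 is computable, then deciding equality of words is computable. -/
theorem result :
    ¬ (∀ (n : ℕ) (w : List (Fin n ⊕ Fin n)) (c : Con (FreeMonoid (Fin n ⊕ Fin n))),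
      c = conGen (fun a b : FreeMonoid (Fin n ⊕ Fin n) =>
        (∃ u : FreeMonoid (Fin n ⊕ Fin n),
          a = u * FreeMonoid.ofList ((FreeMonoid.toList u).reverse.map Sum.swap) * u ∧ b = u) ∨
        (∃ u v : FreeMonoid (Fin n ⊕ Fin n),
          a = u * FreeMonoid.ofList ((FreeMonoid.toList u).reverse.map Sum.swap) *
              (v * FreeMonoid.ofList ((FreeMonoid.toList v).reverse.map Sum.swap)) ∧
          b = v * FreeMonoid.ofList ((FreeMonoid.toList v).reverse.map Sum.swap) *
              (u * FreeMonoid.ofList ((FreeMonoid.toList u).reverse.map Sum.swap))) ∨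
        (a = FreeMonoid.ofList w ∧ b = 1)) →
      ComputablePred (fun x : List (Fin n ⊕ Fin n) => c (FreeMonoid.ofList x) 1) →
      ComputablePred (fun p : List (Fin n ⊕ Fin n) × List (Fin n ⊕ Fin n) =>
        c (FreeMonoid.ofList p.1) (FreeMonoid.ofList p.2))) := by
  intro hall
  obtain ⟨n, w, h1, h2⟩ := Helper707.IFinal.main
  exact h2 (hall n w (Helper707.IModel.cg w) rfl h1)

end Pool.Agent.S01392
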