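-- Disproof: G = Z_2 x Perm(Z_2 x Fin 3), the second factor with the discrete metric.
import Pool.Statements.S01412

set_option autoImplicit false
open Pool Pool.MP_8999af_al

namespace Pool.Agent.S01412

instance fact2 : Fact (Nat.Prime 2) := ⟨Nat.prime_two⟩

noncomputable instance decZ2 : DecidableEq ℤ_[2] := Classical.decEq _

/-- The space of points: one copy of a three element set for each 2-adic integer. -/
abbrev Om : Type := ℤ_[2] × Fin 3

/-- The group of all permutations of `Om`, to be used with the discrete metric. -/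
def D : Type := Equiv.Perm Om

instance : Group D := inferInstanceAs (Group (Equiv.Perm Om))

open Classical in
/-- The discrete distance on `D`. -/
noncomputable def dD (a b : D) : ℝ := if a = b then 0 else 1

theorem dD_self (a : D) : dD a a = 0 := by simp [dD]
theorem dD_ne {a b : D} (h : a ≠ b) : dD a b = 1 := by simp [dD, h]

/-- The discrete metric on `D`. -/
noncomputable instance : MetricSpace D where
  dist := dD
  dist_self a := dD_self a
  dist_comm a b := by
    by_cases h : a = b
    · rw [h]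
    · rw [dD_ne h, dD_ne (Ne.symm h)]
  dist_triangle a b c := by
    by_cases h1 : a = b
    · subst h1; rw [dD_self]; simp
    · by_cases h2 : b = c
      · subst h2; rw [dD_self]; simp
      · rw [dD_ne h1, dD_ne h2]
        by_cases h3 : a = c
        · rw [h3, dD_self]; norm_num
        · rw [dD_ne h3]; norm_num
  eq_of_dist_eq_zero {a b} h := by
    by_contra hne
    have h' : dD a b = 0 := h
    rw [dD_ne hne] at h'
    exact one_ne_zero h'

theorem dist_D {a b : D} (h : a ≠ b) : dist a b = 1 := dD_ne h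

instance : DiscreteTopology D := by
  apply DiscreteTopology.of_forall_le_dist (r := 1) one_pos
  intro a b h
  rw [dist_D h]

instance : IsTopologicalGroup D where
  continuous_mul := continuous_of_discreteTopology
  continuous_inv := continuous_of_discreteTopology

instance : CompleteSpace D := by
  apply Metric.complete_of_cauchySeq_tendsto
  intro u hu
  obtain ⟨N, hN⟩ := Metric.cauchySeq_iff'.1 hu 1 one_pos
  refine ⟨u N, ?_⟩
  apply tendsto_const_nhds.congr'
  filter_upwards [Filter.eventually_ge_atTop N] with n hn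
  by_contra hne
  have h1 := hN n hn
  rw [dist_D (Ne.symm hne)] at h1
  exact lt_irrefl _ h1

/-- The metric group of the counterexample. -/
abbrev G : Type := Multiplicative ℤ_[2] × D

/-- Translation by `x` in every fibre. -/
noncomputable def T : Multiplicative ℤ_[2] →* Equiv.Perm Om where
  toFun x :=
    { toFun := fun p => (p.1 + Multiplicative.toAdd x, p.2)
      invFun := fun p => (p.1 - Multiplicative.toAdd x, p.2)
      left_inv := fun p => by simp
      right_inv := fun p => by simp }
  map_one' := by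
    apply Equiv.ext
    intro p
    show (p.1 + Multiplicative.toAdd 1, p.2) = p
    simp
  map_mul' x y := by
    apply Equiv.ext
    intro p
    show (p.1 + Multiplicative.toAdd (x * y), p.2)
      = ((p.1 + Multiplicative.toAdd y) + Multiplicative.toAdd x, p.2)
    rw [toAdd_mul]
    ring_nf

/-- The transposition exchanging the first two points of the fibre over `0`. -/
noncomputable def phi : Equiv.Perm Om :=
  Equiv.swap ((0 : ℤ_[2]), (0 : Fin 3)) ((0 : ℤ_[2]), (1 : Fin 3))

/-- The transposition exchanging the last two points of the fibre over `1`. -/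
noncomputable def psi : Equiv.Perm Om :=
  Equiv.swap ((1 : ℤ_[2]), (1 : Fin 3)) ((1 : ℤ_[2]), (2 : Fin 3))

/-- The conjugate of `phi` by the translation by `-x`. -/
noncomputable def A (x : Multiplicative ℤ_[2]) : Equiv.Perm Om := (T x)⁻¹ * phi * T x

theorem A_eq (x : Multiplicative ℤ_[2]) :
    A x = Equiv.swap (-Multiplicative.toAdd x, (0 : Fin 3))
      (-Multiplicative.toAdd x, (1 : Fin 3)) := by
  have h := Equiv.swap_apply_apply ((T x)⁻¹) ((0 : ℤ_[2]), (0 : Fin 3))
    ((0 : ℤ_[2]), (1 : Fin 3))
  have h0 : ((T x)⁻¹) ((0 : ℤ_[2]), (0 : Fin 3))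
      = (-Multiplicative.toAdd x, (0 : Fin 3)) := by
    show ((0 : ℤ_[2]) - Multiplicative.toAdd x, (0 : Fin 3)) = _
    rw [zero_sub]
  have h1 : ((T x)⁻¹) ((0 : ℤ_[2]), (1 : Fin 3))
      = (-Multiplicative.toAdd x, (1 : Fin 3)) := by
    show ((0 : ℤ_[2]) - Multiplicative.toAdd x, (1 : Fin 3)) = _
    rw [zero_sub]
  rw [h0, h1] at h
  rw [h, inv_inv]
  rfl

theorem comm_phi_psi : phi * psi = psi * phi := by
  have h := Equiv.swap_apply_apply phi ((1 : ℤ_[2]), (1 : Fin 3))
    ((1 : ℤ_[2]), (2 : Fin 3))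
  have h0 : phi ((1 : ℤ_[2]), (1 : Fin 3)) = ((1 : ℤ_[2]), (1 : Fin 3)) := by
    apply Equiv.swap_apply_of_ne_of_ne
    · intro e; exact one_ne_zero (congrArg Prod.fst e)
    · intro e; exact one_ne_zero (congrArg Prod.fst e)
  have h1 : phi ((1 : ℤ_[2]), (2 : Fin 3)) = ((1 : ℤ_[2]), (2 : Fin 3)) := by
    apply Equiv.swap_apply_of_ne_of_ne
    · intro e; exact one_ne_zero (congrArg Prod.fst e)
    · intro e; exact one_ne_zero (congrArg Prod.fst e)
  rw [h0, h1] at h
  have h2 : psi = phi * psi * phi⁻¹ := by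
    exact h
  calc phi * psi = (phi * psi * phi⁻¹) * phi := by group
    _ = psi * phi := by rw [← h2]

theorem A_comm (x : Multiplicative ℤ_[2]) (hx : -Multiplicative.toAdd x ≠ 1) :
    A x * psi * (A x)⁻¹ = psi := by
  have h := Equiv.swap_apply_apply (A x) ((1 : ℤ_[2]), (1 : Fin 3))
    ((1 : ℤ_[2]), (2 : Fin 3))
  have h0 : (A x) ((1 : ℤ_[2]), (1 : Fin 3)) = ((1 : ℤ_[2]), (1 : Fin 3)) := by
    rw [A_eq]
    apply Equiv.swap_apply_of_ne_of_ne
    · intro e; exact hx (congrArg Prod.fst e).symm
    · intro e; exact hx (congrArg Prod.fst e).symm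
  have h1 : (A x) ((1 : ℤ_[2]), (2 : Fin 3)) = ((1 : ℤ_[2]), (2 : Fin 3)) := by
    rw [A_eq]
    apply Equiv.swap_apply_of_ne_of_ne
    · intro e; exact hx (congrArg Prod.fst e).symm
    · intro e; exact hx (congrArg Prod.fst e).symm
  rw [h0, h1] at h
  have h2 : psi = A x * psi * (A x)⁻¹ := by
    exact h
  exact h2.symm

/-- The value of the product of the four homomorphisms. -/
noncomputable def W (x : Multiplicative ℤ_[2]) : Equiv.Perm Om := A x * psi * (A x)⁻¹ * psi⁻¹

theorem W_eq_one (x : Multiplicative ℤ_[2]) (hx : -Multiplicative.toAdd x ≠ 1) : W x = 1 := by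
  rw [W, A_comm x hx]; group

/-- The exceptional point. -/
noncomputable def x0 : Multiplicative ℤ_[2] := Multiplicative.ofAdd (-1)

theorem W_eq_one' (x : Multiplicative ℤ_[2]) (hx : x ≠ x0) : W x = 1 := by
  apply W_eq_one
  intro h
  apply hx
  have : Multiplicative.toAdd x = -1 := by rw [← h]; ring
  exact this

theorem W_x0 : W x0 ≠ 1 := by
  intro h
  have hA : A x0 = Equiv.swap ((1 : ℤ_[2]), (0 : Fin 3)) ((1 : ℤ_[2]), (1 : Fin 3)) := by
    rw [A_eq]
    have : -Multiplicative.toAdd x0 = (1 : ℤ_[2]) := by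
      show -(-1 : ℤ_[2]) = 1
      ring
    rw [this]
  have h2 : A x0 * psi = psi * A x0 := by
    have : A x0 * psi * (A x0)⁻¹ * psi⁻¹ = 1 := h
    calc A x0 * psi = (A x0 * psi * (A x0)⁻¹ * psi⁻¹) * (psi * A x0) := by group
      _ = psi * A x0 := by rw [this, one_mul]
  have h3 := congrArg (fun (f : Equiv.Perm Om) => f ((1 : ℤ_[2]), (0 : Fin 3))) h2
  have e1 : psi ((1 : ℤ_[2]), (0 : Fin 3)) = ((1 : ℤ_[2]), (0 : Fin 3)) := by
    apply Equiv.swap_apply_of_ne_of_ne
    · intro e; exact absurd (congrArg Prod.snd e) (by decide)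
    · intro e; exact absurd (congrArg Prod.snd e) (by decide)
  have e2 : A x0 ((1 : ℤ_[2]), (0 : Fin 3)) = ((1 : ℤ_[2]), (1 : Fin 3)) := by
    rw [hA, Equiv.swap_apply_left]
  have e3 : psi ((1 : ℤ_[2]), (1 : Fin 3)) = ((1 : ℤ_[2]), (2 : Fin 3)) := by
    exact Equiv.swap_apply_left ((1 : ℤ_[2]), (1 : Fin 3)) ((1 : ℤ_[2]), (2 : Fin 3))
  simp only [Equiv.Perm.mul_apply] at h3
  rw [e1, e2, e3] at h3
  exact absurd (congrArg Prod.snd h3) (by decide)

theorem W_prod (x : Multiplicative ℤ_[2]) :
    (T x)⁻¹ * (phi * T x * phi⁻¹) * ((phi * psi) * (T x)⁻¹ * (phi * psi)⁻¹)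
      * (psi * T x * psi⁻¹) = W x := by
  have h : (phi * psi)⁻¹ * psi = phi⁻¹ := by
    rw [comm_phi_psi]; group
  calc (T x)⁻¹ * (phi * T x * phi⁻¹) * ((phi * psi) * (T x)⁻¹ * (phi * psi)⁻¹)
      * (psi * T x * psi⁻¹)
      = (T x)⁻¹ * phi * T x * psi * (T x)⁻¹ * ((phi * psi)⁻¹ * psi) * T x * psi⁻¹ := by
        group
    _ = (T x)⁻¹ * phi * T x * psi * (T x)⁻¹ * phi⁻¹ * T x * psi⁻¹ := by rw [h]
    _ = W x := by unfold W A; group

/-- Conjugation by `g` after translation. -/
noncomputable def cT (g : Equiv.Perm Om) : G →* G where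
  toFun p := (1, (g * T p.1 * g⁻¹ : Equiv.Perm Om))
  map_one' := by
    apply Prod.ext
    · rfl
    · show g * T 1 * g⁻¹ = 1
      rw [map_one]; group
  map_mul' p q := by
    apply Prod.ext
    · show (1 : Multiplicative ℤ_[2]) = 1 * 1
      rw [one_mul]
    · show g * T (p.1 * q.1) * g⁻¹ = (g * T p.1 * g⁻¹) * (g * T q.1 * g⁻¹)
      rw [map_mul]; group

/-- Conjugation by `g` after the inverse translation. -/
noncomputable def cTi (g : Equiv.Perm Om) : G →* G where
  toFun p := (1, (g * (T p.1)⁻¹ * g⁻¹ : Equiv.Perm Om))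
  map_one' := by
    apply Prod.ext
    · rfl
    · show g * (T 1)⁻¹ * g⁻¹ = 1
      rw [map_one]; group
  map_mul' p q := by
    apply Prod.ext
    · show (1 : Multiplicative ℤ_[2]) = 1 * 1
      rw [one_mul]
    · show g * (T (p.1 * q.1))⁻¹ * g⁻¹ = (g * (T p.1)⁻¹ * g⁻¹) * (g * (T q.1)⁻¹ * g⁻¹)
      rw [mul_comm p.1 q.1, map_mul]; group

/-- The four homomorphisms. -/
noncomputable def U : Fin 4 → G →* G := ![cTi 1, cT phi, cTi (phi * psi), cT psi]

/-- The permutation `W x` seen in the discrete group. -/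
noncomputable def WD (x : Multiplicative ℤ_[2]) : D := W x

theorem U_prod (p : G) : (List.ofFn (fun i => U i p)).prod = (1, WD p.1) := by
  have h : (List.ofFn (fun i => U i p)).prod
      = cTi 1 p * (cT phi p * (cTi (phi * psi) p * cT psi p)) := by
    simp [List.ofFn_succ, U]
  rw [h]
  apply Prod.ext
  · show (1 : Multiplicative ℤ_[2]) * (1 * (1 * 1)) = 1
    simp
  · show (1 * (T p.1)⁻¹ * 1⁻¹) * ((phi * T p.1 * phi⁻¹) * (((phi * psi) * (T p.1)⁻¹ * (phi * psi)⁻¹)
      * (psi * T p.1 * psi⁻¹))) = W p.1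
    rw [← W_prod]
    group

theorem clopen_ball (r : ℝ) : IsClopen (Metric.ball x0 r) := by
  have h : IsClopen (Metric.ball (Multiplicative.toAdd x0) r) :=
    IsUltrametricDist.isClopen_ball _ _
  exact h.preimage continuous_toAdd

open Classical in
theorem cont_ite (B : Set (Multiplicative ℤ_[2])) (hB : IsClopen B) (d : D) :
    Continuous (fun x : Multiplicative ℤ_[2] => if x ∈ B then d else (1 : D)) := by
  refine Continuous.if (fun a ha => ?_) continuous_const continuous_const
  have h : frontier B = ∅ := hB.frontier_eq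
  have ha' : a ∈ frontier B := ha
  rw [h] at ha'
  exact ha'.elim

/-- The negation of the preceding statement: In a complete metric non-commutative topological group G, if U1,...,Un are homomorphisms G→G and x ↦ U1(x)⋯Un(x) is of some Baire class (iterated pointwise sequential limits of continuous maps), then that map is continuous. -/
theorem result :
    ¬ (∀ (G : Type) [Group G] [MetricSpace G] [IsTopologicalGroup G] [CompleteSpace G],
      (∃ a b : G, a * b ≠ b * a) →
      ∀ (n : ℕ) (U : Fin n → G →* G),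
        (∀ S : Set (G → G),
          (∀ f : G → G, Continuous f → f ∈ S) →
          (∀ (f : ℕ → G → G) (g : G → G), (∀ k, f k ∈ S) →
            (∀ x, Filter.Tendsto (fun k => f k x) Filter.atTop (nhds (g x))) → g ∈ S) →
          (fun x => (List.ofFn (fun i => U i x)).prod) ∈ S) →
        Continuous (fun x => (List.ofFn (fun i => U i x)).prod)) := by
  classical
  intro H
  have hU : (fun x : G => (List.ofFn (fun i => U i x)).prod) = fun p => (1, WD p.1) := by
    funext p
    exact U_prod p
  have H1 := H G ⟨((1 : Multiplicative ℤ_[2]), (A x0 : Equiv.Perm Om)),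
    ((1 : Multiplicative ℤ_[2]), (psi : Equiv.Perm Om)), by
    intro e
    have e2 : A x0 * psi = psi * A x0 := congrArg Prod.snd e
    apply W_x0
    unfold W
    rw [e2]; group⟩ 4 U
  rw [hU] at H1
  have H2 : Continuous (fun p : G => ((1 : Multiplicative ℤ_[2]), WD p.1)) := by
    apply H1
    intro S hS1 hS2
    apply hS2 (fun k p => (1, if p.1 ∈ Metric.ball x0 (1 / ((k : ℝ) + 1)) then WD x0 else 1))
    · intro k
      apply hS1
      exact Continuous.prodMk continuous_const
        ((cont_ite _ (clopen_ball _) (WD x0)).comp continuous_fst)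
    · intro p
      apply Filter.Tendsto.prodMk_nhds tendsto_const_nhds
      by_cases hp : p.1 = x0
      · apply tendsto_const_nhds.congr
        intro k
        rw [hp, if_pos]
        exact Metric.mem_ball_self (by positivity)
      · have hW : WD p.1 = 1 := W_eq_one' p.1 hp
        rw [hW]
        apply tendsto_const_nhds.congr'
        have hd : 0 < dist p.1 x0 := dist_pos.2 hp
        have hl := tendsto_one_div_add_atTop_nhds_zero_nat (𝕜 := ℝ)
        filter_upwards [hl.eventually (gt_mem_nhds hd)] with k hk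
        rw [if_neg]
        intro hmem
        rw [Metric.mem_ball] at hmem
        linarith
  have H3 : Continuous (fun x : Multiplicative ℤ_[2] => WD x) := by
    have h1 : Continuous (fun x : Multiplicative ℤ_[2] => ((x, (1 : D)) : G)) :=
      Continuous.prodMk continuous_id continuous_const
    have h2 := Continuous.comp H2 h1
    have h3 := Continuous.snd h2
    exact h3
  have hopen : IsOpen ({x0} : Set (Multiplicative ℤ_[2])) := by
    have h4 : IsOpen ((fun x : Multiplicative ℤ_[2] => WD x) ⁻¹' {WD x0}) :=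
      (isOpen_discrete _).preimage H3
    have h5 : ((fun x : Multiplicative ℤ_[2] => WD x) ⁻¹' {WD x0}) = {x0} := by
      ext x
      simp only [Set.mem_preimage, Set.mem_singleton_iff]
      constructor
      · intro hx
        by_contra hne
        have h6 : WD x = 1 := W_eq_one' x hne
        rw [h6] at hx
        exact W_x0 hx.symm
      · intro hx; rw [hx]
    rw [← h5]; exact h4
  have hopen2 : IsOpen ({(-1 : ℤ_[2])} : Set ℤ_[2]) := hopen.preimage continuous_ofAdd
  obtain ⟨e, he, hball⟩ := Metric.isOpen_singleton_iff.1 hopen2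
  obtain ⟨n, hn⟩ := exists_pow_lt_of_lt_one he (by norm_num : (1 / 2 : ℝ) < 1)
  have h7 : (-1 + (2 : ℤ_[2]) ^ n) = -1 := by
    apply hball
    rw [dist_eq_norm]
    have h8 : (-1 + (2 : ℤ_[2]) ^ n) - (-1) = ((2 : ℕ) : ℤ_[2]) ^ n := by push_cast; ring
    rw [h8, norm_pow, PadicInt.norm_p]
    push_cast
    rw [← one_div]
    exact hn
  have h9 : (2 : ℤ_[2]) ^ n = 0 := by
    calc (2 : ℤ_[2]) ^ n = (-1 + (2 : ℤ_[2]) ^ n) + 1 := by ring
      _ = 0 := by rw [h7]; ring
  exact pow_ne_zero n two_ne_zero h9

end Pool.Agent.S01412
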