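import Pool.Statements.S01428
import Pool.Agent.Helper702.TwFin

set_option autoImplicit false
open Pool Pool.MP_8b7a67_al

namespace Pool.Agent.S01428

open Pool.Agent.Helper702 Pool.Agent.Helper702.Tw Nat.Partrec

/-- the halting set as a set of natural numbers -/
def haltSet (a : ℕ) : Prop := (Code.eval (Denumerable.ofNat Code a) 0).Dom

theorem haltSet_re : REPred haltSet := by
  have h : Partrec fun a : ℕ => Code.eval (Denumerable.ofNat Code a) 0 :=
    Code.eval_part.comp (Primrec.ofNat Code).to_comp (Computable.const 0)
  exact h.dom_re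

theorem haltSet_not_computable : ¬ ComputablePred haltSet := by
  intro h
  apply ComputablePred.halting_problem 0
  obtain ⟨inst, hc⟩ := h
  have h2 : Computable fun c : Code => decide (haltSet (Encodable.encode c)) :=
    hc.comp Computable.encode
  refine ⟨fun c => Classical.dec _, h2.of_eq fun c => ?_⟩
  simp [haltSet]

/-- The negation of the preceding statement: There is a computable procedure that, given a rank r, automorphisms of the free group of rank r given by generator images, and an equation in constants and twisted variables x_i^φ, decides whether the equation has a solution in that free group. -/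
theorem result :
    ¬ (∃ f : ℕ × List ((ℕ ⊕ ℕ) × Bool) × List (ℕ × List (List (ℕ × Bool))) → Bool,
      Computable f ∧
      ∀ (r : ℕ) (w : List ((ℕ ⊕ ℕ) × Bool)) (S : List (ℕ × List (List (ℕ × Bool)))),
        (∀ p ∈ w, ∀ j : ℕ, p.1 = Sum.inr j → j < S.length) →
        (∀ q ∈ S, q.2.length = r ∧
          Function.Bijective
            (FreeGroup.lift (fun k : Fin r =>
              FreeGroup.lift
                (fun m : ℕ => if h : m < r then FreeGroup.of (⟨m, h⟩ : Fin r) else 1)
                (FreeGroup.mk (q.2.getD k.val [])))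
              : FreeGroup (Fin r) → FreeGroup (Fin r))) →
        (f (r, w, S) = true ↔
          ∃ x : ℕ → FreeGroup (Fin r),
            FreeGroup.lift
              (Sum.elim
                (fun m : ℕ => if h : m < r then FreeGroup.of (⟨m, h⟩ : Fin r) else 1)
                (fun j : ℕ =>
                  FreeGroup.lift (fun k : Fin r =>
                    FreeGroup.lift
                      (fun m : ℕ => if h : m < r then FreeGroup.of (⟨m, h⟩ : Fin r) else 1)
                      (FreeGroup.mk ((S.getD j (0, [])).2.getD k.val [])))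
                    (x (S.getD j (0, [])).1)))
              (FreeGroup.mk w) = 1)) := by
  rintro ⟨f, hf, hspec⟩
  obtain ⟨p0, v, hv⟩ := main_red haltSet_re
  set R : FreeGroup (ℕ ⊕ ℕ) := con 2 ^ 2 * ((v * con 3 * v * (con 3)⁻¹ * con 2) ^ 2)⁻¹ with hR
  obtain ⟨N, hN0, hN⟩ : ∃ N : ℕ, p0 < N ∧ ∀ p ∈ R.toWord, ∀ j : ℕ, p.1 = Sum.inr j → j < 5 * N := by
    have : ∀ L : List ((ℕ ⊕ ℕ) × Bool), ∃ N : ℕ, ∀ p ∈ L, ∀ j : ℕ, p.1 = Sum.inr j → j < 5 * N := by
      intro L
      induction L with
      | nil => exact ⟨0, by simp⟩
      | cons q L ih =>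
        obtain ⟨N, hN⟩ := ih
        have : ∃ M : ℕ, ∀ j : ℕ, q.1 = Sum.inr j → j < 5 * M := by
          rcases q with ⟨m | j, b⟩
          · exact ⟨0, by simp⟩
          · refine ⟨j + 1, fun j' hj' => ?_⟩
            have : j = j' := by simpa using hj'
            omega
        obtain ⟨M, hM⟩ := this
        refine ⟨N + M, fun p hp j hj => ?_⟩
        rcases List.mem_cons.1 hp with rfl | h
        · have := hM j hj; omega
        · have := hN p h j hj; omega
    obtain ⟨N, hN⟩ := this R.toWord
    exact ⟨N + p0 + 1, by omega, fun p hp j hj => by have := hN p hp j hj; omega⟩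
  have hbd : ∀ n, ∀ p ∈ wl p0 R.toWord n, ∀ j : ℕ, p.1 = Sum.inr j → j < (Sl N).length := by
    intro n p hp j hj
    rw [Sl_length]
    have hpart : ∀ q ∈ ((Sum.inr (5 * p0) : ℕ ⊕ ℕ), true) :: (List.range n).map (fun _ => ((Sum.inl 2 : ℕ ⊕ ℕ), false)),
        ∀ j : ℕ, q.1 = Sum.inr j → j < 5 * N := by
      intro q hq j hj
      rcases List.mem_cons.1 hq with rfl | h
      · have : 5 * p0 = j := by simpa using hj
        omega
      · obtain ⟨_, _, rfl⟩ := List.mem_map.1 h
        simp at hj
    rcases List.mem_append.1 hp with h | h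
    · exact hpart p h j hj
    · rcases List.mem_append.1 h with h | h
      · exact hpart p h j hj
      · exact hN p h j hj
  have hbij : ∀ q ∈ Sl N, q.2.length = 6 ∧
          Function.Bijective
            (FreeGroup.lift (fun k : Fin 6 =>
              FreeGroup.lift
                (fun m : ℕ => if h : m < 6 then FreeGroup.of (⟨m, h⟩ : Fin 6) else 1)
                (FreeGroup.mk (q.2.getD k.val [])))
              : FreeGroup (Fin 6) → FreeGroup (Fin 6)) := by
    intro q hq
    obtain ⟨j, hj, rfl⟩ := List.mem_map.1 hq
    exact ⟨im_length _, aut_bij _⟩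
  have key : ∀ n : ℕ, haltSet n ↔ f (6, wl p0 R.toWord n, Sl N) = true := by
    intro n
    rw [hspec 6 _ _ (hbd n) hbij, hv n]
    apply exists_congr
    intro x
    have h1 : FreeGroup.mk (wl p0 R.toWord n) = comb (sym p0 0 * (con 2)⁻¹ ^ n) v := by
      rw [mk_wl, FreeGroup.mk_toWord, hR, comb]
    rw [← h1]
    have h2 : ∀ g : ℕ ⊕ ℕ → FreeGroup (Fin 6), FreeGroup.lift g (FreeGroup.mk (wl p0 R.toWord n)) =
        ((wl p0 R.toWord n).map fun p => cond p.2 (g p.1) (g p.1)⁻¹).prod := fun g => FreeGroup.lift_mk
    rw [ev, h2, h2]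
    have h3 : ∀ p ∈ wl p0 R.toWord n, Sum.elim (lett 6) (fun j => aut (im (j % 5)) (x (j / 5))) p.1 =
        Sum.elim (fun m : ℕ => if h : m < 6 then FreeGroup.of (⟨m, h⟩ : Fin 6) else 1)
                (fun j : ℕ =>
                  FreeGroup.lift (fun k : Fin 6 =>
                    FreeGroup.lift
                      (fun m : ℕ => if h : m < 6 then FreeGroup.of (⟨m, h⟩ : Fin 6) else 1)
                      (FreeGroup.mk (((Sl N).getD j (0, [])).2.getD k.val [])))
                    (x ((Sl N).getD j (0, [])).1)) p.1 := by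
      intro p hp
      rcases hp1 : p.1 with m | j
      · rfl
      · have hj := hbd n p hp j hp1
        rw [Sl_length] at hj
        simp only [Sum.elim_inr]
        rw [Sl_getD N j hj]
        rfl
    rw [List.map_congr_left (g := fun p => cond p.2 (Sum.elim (fun m : ℕ => if h : m < 6 then FreeGroup.of (⟨m, h⟩ : Fin 6) else 1)
                (fun j : ℕ =>
                  FreeGroup.lift (fun k : Fin 6 =>
                    FreeGroup.lift
                      (fun m : ℕ => if h : m < 6 then FreeGroup.of (⟨m, h⟩ : Fin 6) else 1)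
                      (FreeGroup.mk (((Sl N).getD j (0, [])).2.getD k.val [])))
                    (x ((Sl N).getD j (0, [])).1)) p.1) (Sum.elim (fun m : ℕ => if h : m < 6 then FreeGroup.of (⟨m, h⟩ : Fin 6) else 1)
                (fun j : ℕ =>
                  FreeGroup.lift (fun k : Fin 6 =>
                    FreeGroup.lift
                      (fun m : ℕ => if h : m < 6 then FreeGroup.of (⟨m, h⟩ : Fin 6) else 1)
                      (FreeGroup.mk (((Sl N).getD j (0, [])).2.getD k.val [])))
                    (x ((Sl N).getD j (0, [])).1)) p.1)⁻¹) (fun p hp => by rw [h3 p hp])]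
  apply haltSet_not_computable
  have hc : Computable fun n : ℕ => f (6, wl p0 R.toWord n, Sl N) :=
    hf.comp ((Primrec.const 6).pair ((wl_computable p0 R.toWord).pair (Primrec.const (Sl N)))).to_comp
  refine ⟨fun n => Classical.dec _, hc.of_eq fun n => ?_⟩
  by_cases hn : haltSet n
  · simp [hn, (key n).1 hn]
  · have : f (6, wl p0 R.toWord n, Sl N) ≠ true := fun h => hn ((key n).2 h)
    simp [hn, this]

end Pool.Agent.S01428
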