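import Pool.Statements.S01431
import Pool.Agent.Helper356.Amalg3
-- import your own Pool.Agent.* helpers here

set_option autoImplicit false
open Pool Pool.MP_8b9c46_al

namespace Pool.Agent.S01431

/-- For distinct positive k, l, take the groups of circle maps lifting Möbius circle maps through z↦z^k and z↦z^l; both contain the rotations. The natural map from their amalgamated product over the rotation group into circle permutations is injective. -/
theorem result :
    ∀ (k l : ℕ), 0 < k → 0 < l → k ≠ l →
    ∀ (S : ℕ → Set (Equiv.Perm Circle)),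
      (∀ (n : ℕ) (F : Equiv.Perm Circle), F ∈ S n ↔
        (Continuous (⇑F) ∧ ∃ a b : ℂ, Complex.normSq a - Complex.normSq b = 1 ∧
          ∀ z : Circle, ((F z : Circle) : ℂ) ^ n =
            (a * (z : ℂ) ^ n + b) / ((starRingEnd ℂ) b * (z : ℂ) ^ n + (starRingEnd ℂ) a))) →
    ∀ (R : Set (Equiv.Perm Circle)),
      (∀ F : Equiv.Perm Circle, F ∈ R ↔ ∃ c : Circle, ∀ z : Circle, F z = c * z) →
    Function.Injective
      (Monoid.PushoutI.lift
        (φ := fun i : Bool => Subgroup.inclusion
          (Subgroup.closure_mono (Set.subset_union_right : R ⊆ S (cond i k l) ∪ R)))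
        (fun i : Bool => (Subgroup.closure (S (cond i k l) ∪ R)).subtype)
        (Subgroup.closure R).subtype
        (fun i => MonoidHom.ext fun x => rfl)) :=
  Pool.Agent.Helper356.Amalg.main_injective

end Pool.Agent.S01431
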