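import Pool.Statements.S01443
import Pool.Agent.Helper151.NS.Final
import Pool.Agent.Helper151.NS.VBridge

set_option autoImplicit false
open Pool Pool.MP_8de11f_al

namespace Pool.Agent.S01443

/-- For every m > 3, among numerical semigroups with 4 minimal generators and multiplicity m, the minimal number of generators of the defining toric ideal is at most floor(2+2√m), and this value is attained. -/
theorem result :
    ∀ m : ℕ, 3 < m →
      (∀ a : Fin 4 → ℕ, StrictMono a → a 0 = m → Finset.univ.gcd a = 1 →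
        (∀ i : Fin 4, a i ∉ AddSubmonoid.closure (a '' {j : Fin 4 | j ≠ i})) →
        sInf {n : ℕ | ∃ s : Finset (MvPolynomial (Fin 4) ℚ), s.card = n ∧
          Ideal.span (s : Set (MvPolynomial (Fin 4) ℚ)) =
            RingHom.ker (MvPolynomial.aeval
              (fun i : Fin 4 => (Polynomial.X : Polynomial ℚ) ^ (a i)))}
          ≤ ⌊(2 : ℝ) + 2 * Real.sqrt (m : ℝ)⌋₊) ∧
      (∃ a : Fin 4 → ℕ, StrictMono a ∧ a 0 = m ∧ Finset.univ.gcd a = 1 ∧
        (∀ i : Fin 4, a i ∉ AddSubmonoid.closure (a '' {j : Fin 4 | j ≠ i})) ∧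
        sInf {n : ℕ | ∃ s : Finset (MvPolynomial (Fin 4) ℚ), s.card = n ∧
          Ideal.span (s : Set (MvPolynomial (Fin 4) ℚ)) =
            RingHom.ker (MvPolynomial.aeval
              (fun i : Fin 4 => (Polynomial.X : Polynomial ℚ) ^ (a i)))}
          = ⌊(2 : ℝ) + 2 * Real.sqrt (m : ℝ)⌋₊) :=
  Pool.Agent.Helper151.NS.main_of_comb
    (fun m r B C hm h => Pool.Agent.Helper151.NS.VBridge.comb m r B C hm h)

end Pool.Agent.S01443
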