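import Pool.Statements.S01454
import Pool.Agent.Helper476.C6

set_option autoImplicit false
open Pool Pool.MP_8ef39f_al
open Pool.Agent.Helper476.C

namespace Pool.Agent.S01454

/-- The negation of the preceding statement: For every finite group G, there are only finitely many formations of finite groups closed under subnormal (equivalently, normal) subgroups that are contained in the formation generated by G. -/
theorem result :
    ¬ (∀ (G : Type) [Group G] [Finite G],
      Set.Finite
        {F : ∀ (H : Type) [Group H], Prop |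
          (∀ (H : Type) [Group H], F H → Finite H) ∧
          (∀ (H K : Type) [Group H] [Group K], (H ≃* K) → F H → F K) ∧
          (∀ (H : Type) [Group H] (N : Subgroup H) [N.Normal], F H → F (H ⧸ N)) ∧
          (∀ (H : Type) [Group H] (N₁ N₂ : Subgroup H) [N₁.Normal] [N₂.Normal],
              F (H ⧸ N₁) → F (H ⧸ N₂) → F (H ⧸ (N₁ ⊓ N₂))) ∧
          (∀ (H : Type) [Group H] (N : Subgroup H), N.Normal → F H → F N) ∧
          (∀ (H : Type) [Group H], F H →
              ∀ F' : ∀ (K : Type) [Group K], Prop,
                (∀ (K : Type) [Group K], F' K → Finite K) →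
                (∀ (K L : Type) [Group K] [Group L], (K ≃* L) → F' K → F' L) →
                (∀ (K : Type) [Group K] (N : Subgroup K) [N.Normal], F' K → F' (K ⧸ N)) →
                (∀ (K : Type) [Group K] (N₁ N₂ : Subgroup K) [N₁.Normal] [N₂.Normal],
                    F' (K ⧸ N₁) → F' (K ⧸ N₂) → F' (K ⧸ (N₁ ⊓ N₂))) →
                F' G → F' H)}) := by
  intro hfin
  haveI := hyp7.fin
  have h := hfin (G7 × L7 × Subgroup.zpowers z7)
  let Φ : ℕ → (∀ (H : Type) [Group H], Prop) := fun n => FF L7 z7 (n + 1)
  have hinj : Function.Injective Φ := by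
    have key : ∀ m m', m < m' → Φ m ≠ Φ m' := by
      intro m m' hlt heq
      have hanti : ∀ k, ∀ (H : Type) [Group H], FF L7 z7 (m + 2 + k) H → FF L7 z7 (m + 2) H := by
        intro k
        induction k with
        | zero => intro H _ hH; exact hH
        | succ k ih => intro H _ hH; exact ih H (FF_anti _ (by omega) H hH)
      have h1 : FF L7 z7 (m + 1) (Hn hyp7 (m + 1 + 1)) := Hn_mem hyp7 (m + 1)
      have h2 : Φ m' (Hn hyp7 (m + 1 + 1)) := by rw [← heq]; exact h1
      have h3 : FF L7 z7 (m' + 1) (Hn hyp7 (m + 1 + 1)) := h2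
      obtain ⟨k, hk⟩ : ∃ k, m' + 1 = m + 2 + k := ⟨m' - m - 1, by omega⟩
      rw [hk] at h3
      have q : Quo L7 z7 (G7 ⧸ Subgroup.center G7) (QuotientGroup.mk' _) := by
        refine ⟨QuotientGroup.mk'_surjective _, ?_⟩
        intro g
        constructor
        · intro hg
          have hg' : g ∈ Subgroup.center G7 := (QuotientGroup.eq_one_iff g).1 hg
          apply centralizer7
          intro l _
          exact ((Subgroup.mem_center_iff.1 hg') l).symm
        · rintro (rfl | rfl)
          · exact map_one _
          · apply (QuotientGroup.eq_one_iff z7).2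
            rw [Subgroup.mem_center_iff]
            exact z7_central
      exact Hn_not q hyp7 (m + 1 + 1) (by omega) (hanti k _ h3)
    intro m m' heq
    rcases lt_trichotomy m m' with h1 | h1 | h1
    · exact absurd heq (key m m' h1)
    · exact h1
    · exact absurd heq.symm (key m' m h1)
  refine Set.infinite_range_of_injective hinj (h.subset ?_)
  rintro _ ⟨n, rfl⟩
  refine ⟨?_, ?_, ?_, ?_, ?_, ?_⟩
  · intro H _ hH
    exact FF_finite hyp7 _ H hH
  · intro H K _ _ e hH
    exact FF_surj _ H K e.toMonoidHom e.surjective hH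
  · intro H _ N _ hH
    exact FF_surj _ H _ (QuotientGroup.mk' N) (QuotientGroup.mk'_surjective N) hH
  · intro H _ N₁ N₂ _ _ hH1 hH2
    exact FF_r0 _ H N₁ N₂ hH1 hH2
  · intro H _ N hN hH
    exact FF_normal hyp7 _ H N hN hH
  · intro H _ hH F' hF1 hF2 hF3 hF4 hF'
    refine FF_gen hyp7 _ H hH F' ⟨hF1, ?_, ?_⟩ hF'
    · intro K K' _ _ f hf hK
      exact hF2 _ _ (QuotientGroup.quotientKerEquivOfSurjective f hf) (hF3 K f.ker hK)
    · intro K _ N₁ N₂ _ _ hN hK1 hK2
      have h5 := hF4 K N₁ N₂ hK1 hK2
      refine hF2 _ _ ?_ h5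
      exact (QuotientGroup.quotientMulEquivOfEq hN).trans QuotientGroup.quotientBot

end Pool.Agent.S01454
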