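import Pool.Statements.S01457
import Pool.Agent.Helper441.PwInc

set_option autoImplicit false
open Pool Pool.MP_8f228a_al

namespace Pool.Agent.S01457

open Pool.Agent.Helper441.PwInc

/-- There is a proper subgroup G of the permutations of ℕ that is transitive on ℕ and, for any two orderings of ℕ each isomorphic to the rationals, contains a permutation carrying the first ordering onto the second. -/
theorem result :
    ∃ G : Subgroup (Equiv.Perm ℕ), G ≠ ⊤ ∧
      (∀ a b : ℕ, ∃ g ∈ G, g a = b) ∧
      ∀ r s : ℕ → ℕ → Prop,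
        Nonempty (r ≃r (fun p q : ℚ => p < q)) →
        Nonempty (s ≃r (fun p q : ℚ => p < q)) →
        ∃ g ∈ G, ∀ x y : ℕ, s (g x) (g y) ↔ r x y := by
  refine ⟨PO, PO_ne_top, PO_transitive, ?_⟩
  rintro r s ⟨e₁⟩ ⟨e₂⟩
  exact exists_mem_PO (ext_order e₁ e₂) (ext_order e₂ e₁)

end Pool.Agent.S01457
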