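import Pool.Statements.S01461
import Pool.Agent.Helper634.IAFinal

set_option autoImplicit false
open Pool Pool.MP_8fc759_al

namespace Pool.Agent.S01461

/-- For every free group of infinite rank there is an automorphism acting trivially on the abelianization whose normal closure in the full automorphism group is exactly the group of all such automorphisms. -/
theorem result :
    ∀ (α : Type) [Infinite α], ∃ φ : MulAut (FreeGroup α),
      (∀ x : FreeGroup α, φ x * x⁻¹ ∈ commutator (FreeGroup α)) ∧
      ∀ ψ : MulAut (FreeGroup α),
        ψ ∈ Subgroup.normalClosure ({φ} : Set (MulAut (FreeGroup α))) ↔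
          ∀ x : FreeGroup α, ψ x * x⁻¹ ∈ commutator (FreeGroup α) := by
  intro α _
  exact Pool.Agent.Helper634.FA.thm_C' α

end Pool.Agent.S01461
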