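import Pool.Statements.S01468

set_option autoImplicit false
open Pool Pool.MP_90339f_al

namespace Pool.Agent.S01468


section uni
variable {K : Type} [Field K] {I : Type} [LinearOrder I] [WellFoundedLT I]

/-- the vector to which the operator `T n` sends the basis vector `α` -/
noncomputable def tv (K : Type) [Field K] (ψ : I → ℕ → I) (n : ℕ) (α : I) : I →₀ K :=
  if ψ α n < α then Finsupp.single (ψ α n) 1 else 0

noncomputable def T (K : Type) [Field K] (ψ : I → ℕ → I) (n : ℕ) : (I →₀ K) →ₗ[K] (I →₀ K) :=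
  Finsupp.linearCombination K (tv K ψ n)

lemma tv_apply (ψ : I → ℕ → I) (n : ℕ) (α β : I) :
    tv K ψ n α β = if ψ α n < α ∧ ψ α n = β then 1 else 0 := by
  unfold tv
  by_cases h : ψ α n < α
  · simp [h, Finsupp.single_apply]
  · simp [h]

lemma T_apply (ψ : I → ℕ → I) (n : ℕ) (v : I →₀ K) (β : I) :
    T K ψ n v β = ∑ α ∈ v.support, v α * (if ψ α n < α ∧ ψ α n = β then 1 else 0) := by
  rw [T, Finsupp.linearCombination_apply, Finsupp.sum, Finsupp.finsetSum_apply]
  refine Finset.sum_congr rfl fun α _ => ?_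
  rw [Finsupp.smul_apply, tv_apply, smul_eq_mul]

/-- vectors supported strictly below `γ` -/
def Lw (K : Type) [Field K] (γ : I) : Submodule K (I →₀ K) where
  carrier := {v | ∀ β, γ ≤ β → v β = 0}
  add_mem' := by
    intro v w hv hw β hβ
    simp [hv β hβ, hw β hβ]
  zero_mem' := by intro β _; rfl
  smul_mem' := by
    intro c v hv β hβ
    simp [hv β hβ]

lemma T_zero_of (ψ : I → ℕ → I) (n : ℕ) (v : I →₀ K) (β : I) (h : ∀ α, β < α → v α = 0) :
    T K ψ n v β = 0 := by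
  rw [T_apply]
  refine Finset.sum_eq_zero fun α _ => ?_
  by_cases h1 : ψ α n < α ∧ ψ α n = β
  · rw [h α (h1.2 ▸ h1.1), zero_mul]
  · rw [if_neg h1, mul_zero]

noncomputable def E (ψ : I → ℕ → I) (x : ℕ → K) (n : ℕ) : (I →₀ K) →ₗ[K] (I →₀ K) :=
  LinearMap.id + x n • T K ψ n

lemma E_apply (ψ : I → ℕ → I) (x : ℕ → K) (n : ℕ) (v : I →₀ K) (β : I) :
    E ψ x n v β = v β + x n * T K ψ n v β := by
  simp [E]

lemma exists_max (v : I →₀ K) (γ : I) (h : v ∉ Lw K γ) :
    ∃ β, γ ≤ β ∧ v β ≠ 0 ∧ ∀ α, β < α → v α = 0 := by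
  classical
  have hne : (v.support.filter (fun β => γ ≤ β)).Nonempty := by
    by_contra hcon
    rw [Finset.not_nonempty_iff_eq_empty] at hcon
    apply h
    intro β hβ
    by_contra hv
    have : β ∈ v.support.filter (fun β => γ ≤ β) := by simp [hv, hβ]
    rw [hcon] at this
    exact absurd this (Finset.notMem_empty _)
  obtain ⟨β, hβ, hmax⟩ := (v.support.filter (fun β => γ ≤ β)).exists_max_image id hne
  simp only [Finset.mem_filter, Finsupp.mem_support_iff] at hβ hmax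
  refine ⟨β, hβ.2, hβ.1, fun α hα => ?_⟩
  by_contra hv
  have := hmax α ⟨hv, hβ.2.trans hα.le⟩
  exact absurd this (not_le.2 hα)

lemma exists_max' (v : I →₀ K) (h : v ≠ 0) :
    ∃ β, v β ≠ 0 ∧ ∀ α, β < α → v α = 0 := by
  have : ∃ γ, v γ ≠ 0 := by
    by_contra hcon
    push Not at hcon
    exact h (Finsupp.ext hcon)
  obtain ⟨γ, hγ⟩ := this
  obtain ⟨β, _, h1, h2⟩ := exists_max v γ (fun hv => hγ (hv γ le_rfl))
  exact ⟨β, h1, h2⟩

lemma E_mem (ψ : I → ℕ → I) (x : ℕ → K) (n : ℕ) (v : I →₀ K) (γ : I) :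
    E ψ x n v ∈ Lw K γ ↔ v ∈ Lw K γ := by
  constructor
  · intro h
    by_contra hv
    obtain ⟨β, hβ, h1, h2⟩ := exists_max v γ hv
    have := h β hβ
    rw [E_apply, T_zero_of ψ n v β h2, mul_zero, add_zero] at this
    exact h1 this
  · intro h β hβ
    rw [E_apply, T_zero_of ψ n v β (fun α hα => h α (hβ.trans hα.le)), mul_zero, add_zero, h β hβ]

lemma E_inj (ψ : I → ℕ → I) (x : ℕ → K) (n : ℕ) : Function.Injective (E ψ x n) := by
  rw [← LinearMap.ker_eq_bot, LinearMap.ker_eq_bot']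
  intro v hv
  by_contra h
  obtain ⟨β, h1, h2⟩ := exists_max' v h
  have := congrArg (fun f : I →₀ K => f β) hv
  simp only [E_apply, T_zero_of ψ n v β h2, mul_zero, add_zero, Finsupp.coe_zero, Pi.zero_apply] at this
  exact h1 this

lemma E_surj (ψ : I → ℕ → I) (x : ℕ → K) (n : ℕ) : Function.Surjective (E ψ x n) := by
  rw [← LinearMap.range_eq_top]
  have key : ∀ α : I, Finsupp.single α (1 : K) ∈ LinearMap.range (E ψ x n) := by
    intro α
    induction α using WellFoundedLT.induction with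
    | ind α ih =>
      have h1 : E ψ x n (Finsupp.single α 1) = Finsupp.single α 1 + x n • tv K ψ n α := by
        simp [E, T]
      have h2 : tv K ψ n α ∈ LinearMap.range (E ψ x n) := by
        unfold tv
        split_ifs with h
        · exact ih _ h
        · exact Submodule.zero_mem _
      have h3 : Finsupp.single α (1 : K) = E ψ x n (Finsupp.single α 1) - x n • tv K ψ n α := by
        rw [h1]; simp
      rw [h3]
      exact Submodule.sub_mem _ (LinearMap.mem_range_self _ _) (Submodule.smul_mem _ _ h2)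
  rw [eq_top_iff]
  intro v _
  induction v using Finsupp.induction_linear with
  | zero => exact Submodule.zero_mem _
  | add f g hf hg => exact Submodule.add_mem _ (hf trivial) (hg trivial)
  | single a b =>
    have : Finsupp.single a b = b • Finsupp.single a (1 : K) := by simp
    rw [this]
    exact Submodule.smul_mem _ _ (key a)

noncomputable def EE (ψ : I → ℕ → I) (x : ℕ → K) (n : ℕ) : (I →₀ K) ≃ₗ[K] (I →₀ K) :=
  LinearEquiv.ofBijective (E ψ x n) ⟨E_inj ψ x n, E_surj ψ x n⟩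

lemma EE_apply (ψ : I → ℕ → I) (x : ℕ → K) (n : ℕ) (v : I →₀ K) : EE ψ x n v = E ψ x n v := rfl

noncomputable def D (ψ : I → ℕ → I) (x : ℕ → K) : ℕ → ((I →₀ K) ≃ₗ[K] (I →₀ K))
  | 0 => LinearEquiv.refl K _
  | n+1 => (D ψ x n).trans (EE ψ x n)

lemma D_succ (ψ : I → ℕ → I) (x : ℕ → K) (n : ℕ) (v : I →₀ K) :
    D ψ x (n+1) v = E ψ x n (D ψ x n v) := rfl

lemma D_mem (ψ : I → ℕ → I) (x : ℕ → K) (n : ℕ) (v : I →₀ K) (γ : I) :
    D ψ x n v ∈ Lw K γ ↔ v ∈ Lw K γ := by
  induction n with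
  | zero => rfl
  | succ n ih => rw [D_succ, E_mem, ih]

lemma D_lead (ψ : I → ℕ → I) (x : ℕ → K) (n : ℕ) (v : I →₀ K) (α : I)
    (h : ∀ β, α < β → v β = 0) : D ψ x n v α = v α ∧ ∀ β, α < β → D ψ x n v β = 0 := by
  induction n with
  | zero => exact ⟨rfl, h⟩
  | succ n ih =>
    obtain ⟨h1, h2⟩ := ih
    constructor
    · rw [D_succ, E_apply, T_zero_of _ _ _ _ h2, mul_zero, add_zero, h1]
    · intro β hβ
      rw [D_succ, E_apply, T_zero_of _ _ _ _ (fun δ hδ => h2 δ (hβ.trans hδ)), mul_zero, add_zero,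
        h2 β hβ]

/-- coefficientwise application of an automorphism -/
noncomputable def mp (I : Type) (σ : K ≃+* K) : (I →₀ K) →+ (I →₀ K) :=
  Finsupp.mapRange.addMonoidHom σ.toAddMonoidHom

@[simp] lemma mp_apply (σ : K ≃+* K) (v : I →₀ K) (β : I) : mp I σ v β = σ (v β) := by
  simp [mp]

lemma mp_smul (σ : K ≃+* K) (c : K) (v : I →₀ K) : mp I σ (c • v) = σ c • mp I σ v := by
  ext β; simp

lemma mp_tv (ψ : I → ℕ → I) (σ : K ≃+* K) (n : ℕ) (α : I) : mp I σ (tv K ψ n α) = tv K ψ n α := by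
  ext β
  rw [mp_apply, tv_apply]
  split_ifs <;> simp

lemma mp_T (ψ : I → ℕ → I) (σ : K ≃+* K) (n : ℕ) (v : I →₀ K) :
    mp I σ (T K ψ n v) = T K ψ n (mp I σ v) := by
  induction v using Finsupp.induction_linear with
  | zero => simp
  | add f g hf hg => simp only [map_add, hf, hg]
  | single a b =>
    have h1 : Finsupp.single a b = b • Finsupp.single a (1 : K) := by simp
    have h2 : mp I σ (Finsupp.single a b) = σ b • Finsupp.single a (1 : K) := by
      ext β; simp [Finsupp.single_apply]; split_ifs <;> simp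
    rw [h2, h1, map_smul, mp_smul, map_smul]
    simp [T, mp_tv]

lemma mp_E (ψ : I → ℕ → I) (x : ℕ → K) (σ : K ≃+* K) (n : ℕ) (hσ : σ (x n) = x n) (v : I →₀ K) :
    mp I σ (E ψ x n v) = E ψ x n (mp I σ v) := by
  ext β
  rw [mp_apply, E_apply, E_apply, map_add, map_mul, hσ, mp_apply, ← mp_T, mp_apply]

lemma mp_D (ψ : I → ℕ → I) (x : ℕ → K) (σ : K ≃+* K) (n : ℕ) (hσ : ∀ j < n, σ (x j) = x j)
    (v : I →₀ K) : mp I σ (D ψ x n v) = D ψ x n (mp I σ v) := by
  induction n with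
  | zero => rfl
  | succ n ih =>
    rw [D_succ, D_succ, mp_E ψ x σ n (hσ n (by omega)), ih (fun j hj => hσ j (by omega))]

/-- the twisted action at level `n` -/
noncomputable def R (ψ : I → ℕ → I) (x : ℕ → K) (n : ℕ) (σ : K ≃+* K) (v : I →₀ K) : I →₀ K :=
  (D ψ x n).symm (mp I σ (D ψ x n v))

lemma D_R (ψ : I → ℕ → I) (x : ℕ → K) (n : ℕ) (σ : K ≃+* K) (v : I →₀ K) :
    D ψ x n (R ψ x n σ v) = mp I σ (D ψ x n v) := by
  simp [R]

lemma R_succ (ψ : I → ℕ → I) (x : ℕ → K) (n : ℕ) (σ : K ≃+* K) (hσ : σ (x n) = x n) (v : I →₀ K) :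
    R ψ x (n+1) σ v = R ψ x n σ v := by
  apply (D ψ x (n+1)).injective
  rw [D_R, D_succ, D_succ, D_R, mp_E ψ x σ n hσ]

lemma R_eq (ψ : I → ℕ → I) (x : ℕ → K) (n m : ℕ) (hnm : n ≤ m) (σ : K ≃+* K)
    (hσ : ∀ j, n ≤ j → σ (x j) = x j) (v : I →₀ K) :
    R ψ x m σ v = R ψ x n σ v := by
  induction m, hnm using Nat.le_induction with
  | base => rfl
  | succ m hm ih => rw [R_succ ψ x m σ (hσ m hm), ih]

variable (ψ : I → ℕ → I) (x : ℕ → K) (s : ℕ → (K ≃+* K))

theorem main_claim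
    (hψ : ∀ α β, β < α → ∀ m, ∃ n, m ≤ n ∧ ψ α n = β)
    (hs : ∀ i j, i ≠ j → s i (x j) = x j) (hs' : ∀ j, s j (x j) ≠ x j)
    (hfin : ∀ a : K, ∃ N, ∀ j, N ≤ j → s j a = a)
    (N : Submodule K (I →₀ K)) (hN : ∀ j, ∀ v ∈ N, R ψ x (j+1) (s j) v ∈ N) (α : I) :
    ∀ v ∈ N, v α ≠ 0 → (∀ β, α < β → v β = 0) → ∀ β, β ≤ α → Finsupp.single β (1 : K) ∈ N := by
  induction α using WellFoundedLT.induction with
  | ind α ih =>
  intro v hv hvα hv0
  -- normalise
  wlog h1 : v α = 1 generalizing v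
  · refine this ((v α)⁻¹ • v) (N.smul_mem _ hv) ?_ ?_ ?_
    · simp [hvα]
    · intro β hβ; simp [hv0 β hβ]
    · simp [hvα]
  by_cases hall : ∀ β, β < α → Finsupp.single β (1 : K) ∈ N
  · intro β hβ
    rcases hβ.lt_or_eq with h | rfl
    · exact hall β h
    · have h2 : v - Finsupp.single β 1 ∈ N := by
        have : ∀ w : I →₀ K, (∀ δ, β ≤ δ → w δ = 0) → w ∈ N := by
          intro w hw
          rw [← Finsupp.sum_single w]
          refine Submodule.sum_mem _ fun δ hδ => ?_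
          have hδ' : δ < β := by
            by_contra hcon
            exact (Finsupp.mem_support_iff.1 hδ) (hw δ (not_lt.1 hcon))
          have h3 : Finsupp.single δ (w δ) = w δ • Finsupp.single δ (1 : K) := by simp
          rw [h3]
          exact N.smul_mem _ (hall δ hδ')
        apply this
        intro δ hδ
        rcases hδ.lt_or_eq with h | rfl
        · rw [Finsupp.sub_apply, hv0 δ h, Finsupp.single_apply, if_neg h.ne, sub_zero]
        · rw [Finsupp.sub_apply, h1, Finsupp.single_apply, if_pos rfl, sub_self]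
      have h3 := N.sub_mem hv h2
      simpa using h3
  · exfalso
    push Not at hall
    obtain ⟨β0, hβ0, hβ0N⟩ := hall
    obtain ⟨γ, ⟨hγα, hγN⟩, hγmin⟩ : ∃ γ, (γ < α ∧ Finsupp.single γ (1 : K) ∉ N) ∧
        ∀ β, β < γ → ¬ (β < α ∧ Finsupp.single β (1 : K) ∉ N) := by
      have := WellFounded.has_min (wellFounded_lt (α := I))
        {γ | γ < α ∧ Finsupp.single γ (1 : K) ∉ N} ⟨β0, hβ0, hβ0N⟩
      obtain ⟨γ, h1, h2⟩ := this
      exact ⟨γ, h1, fun β hβ hcon => h2 β hcon hβ⟩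
    -- elements of N below α lie below γ
    have hlow : ∀ u ∈ N, (∀ β, α ≤ β → u β = 0) → u ∈ Lw K γ := by
      intro u hu hu0
      by_contra hcon
      obtain ⟨δ, hδ, h2, h3⟩ := exists_max u γ hcon
      have hδα : δ < α := by
        by_contra h4
        exact h2 (hu0 δ (not_lt.1 h4))
      exact hγN (ih δ hδα u hu h2 h3 γ hδ)
    -- w n = D n v
    have hfix1 : ∀ n j, j < n → ∀ β, γ ≤ β → s j (D ψ x n v β) = D ψ x n v β := by
      intro n j hj β hβ
      have hR : R ψ x n (s j) v = R ψ x (j+1) (s j) v :=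
        R_eq ψ x (j+1) n hj (s j) (fun i hi => hs j i (by omega)) v
      have hm : R ψ x n (s j) v - v ∈ N := N.sub_mem (hR ▸ hN j v hv) hv
      have hD : D ψ x n (R ψ x n (s j) v - v) = mp I (s j) (D ψ x n v) - D ψ x n v := by
        rw [map_sub, D_R]
      obtain ⟨e1, e2⟩ := D_lead ψ x n v α hv0
      have h3 : D ψ x n (R ψ x n (s j) v - v) ∈ Lw K α := by
        intro β hβ
        rw [hD, Finsupp.sub_apply, mp_apply]
        rcases hβ.lt_or_eq with h | rfl
        · rw [e2 β h]; simp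
        · rw [e1, h1]; simp
      have h4 : R ψ x n (s j) v - v ∈ Lw K γ := hlow _ hm ((D_mem ψ x n _ α).1 h3)
      have h5 := (D_mem ψ x n _ γ).2 h4
      have h6 := h5 β hβ
      rw [hD, Finsupp.sub_apply, mp_apply, sub_eq_zero] at h6
      exact h6
    obtain ⟨N0, hN0⟩ : ∃ N0, ∀ j, N0 ≤ j → ∀ β, s j (v β) = v β := by
      have : ∀ t : Finset I, ∃ N0, ∀ j, N0 ≤ j → ∀ β ∈ t, s j (v β) = v β := by
        classical
        intro t
        induction t using Finset.induction_on with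
        | empty => exact ⟨0, by simp⟩
        | insert a t _ iht =>
          obtain ⟨N1, h1⟩ := iht
          obtain ⟨N2, h2⟩ := hfin (v a)
          refine ⟨max N1 N2, fun j hj β hβ => ?_⟩
          rcases Finset.mem_insert.1 hβ with rfl | hβ
          · exact h2 j (by omega)
          · exact h1 j (by omega) β hβ
      obtain ⟨N0, h⟩ := this v.support
      refine ⟨N0, fun j hj β => ?_⟩
      by_cases hβ : β ∈ v.support
      · exact h j hj β hβ
      · rw [Finsupp.notMem_support_iff.1 hβ]; simp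
    have hfix2 : ∀ n j, N0 ≤ n → n ≤ j → ∀ β, s j (D ψ x n v β) = D ψ x n v β := by
      intro n j hn hj β
      have h2 : mp I (s j) v = v := by
        ext δ; rw [mp_apply, hN0 j (by omega)]
      have h3 := mp_D ψ x (s j) n (fun i hi => hs j i (by omega)) v
      rw [h2] at h3
      rw [← mp_apply, h3]
    have hfix : ∀ n, N0 ≤ n → ∀ β, γ ≤ β → ∀ j, s j (D ψ x n v β) = D ψ x n v β := by
      intro n hn β hβ j
      rcases Nat.lt_or_ge j n with h | h
      · exact hfix1 n j h β hβ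
      · exact hfix2 n j hn h β
    -- T n (w n) vanishes above γ
    have hT : ∀ n, N0 ≤ n → ∀ β, γ ≤ β → T K ψ n (D ψ x n v) β = 0 := by
      intro n hn β hβ
      by_contra hcon
      have e1 : ∀ j, s j (T K ψ n (D ψ x n v) β) = T K ψ n (D ψ x n v) β := by
        intro j
        rw [T_apply, map_sum]
        refine Finset.sum_congr rfl fun δ _ => ?_
        by_cases h2 : ψ δ n < δ ∧ ψ δ n = β
        · rw [if_pos h2, mul_one]
          exact hfix n hn δ (hβ.trans (h2.2 ▸ h2.1.le)) j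
        · rw [if_neg h2, mul_zero, map_zero]
      have e2 := hfix (n+1) (by omega) β hβ n
      rw [D_succ, E_apply, map_add, map_mul, e1 n, hfix n hn β hβ n, add_right_inj] at e2
      exact hs' n (mul_right_cancel₀ hcon e2)
    have hstab : ∀ n, N0 ≤ n → ∀ β, γ ≤ β → D ψ x n v β = D ψ x N0 v β := by
      intro n hn
      induction n, hn using Nat.le_induction with
      | base => intro β _; rfl
      | succ n hn ihn =>
        intro β hβ
        rw [D_succ, E_apply, hT n hn β hβ, mul_zero, add_zero, ihn β hβ]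
    -- choose δ
    obtain ⟨δ, hδα, hγδ, hδ⟩ : ∃ δ, δ < α ∧ γ ≤ δ ∧ ∀ β, δ < β → β < α → D ψ x N0 v β = 0 := by
      classical
      by_cases hex : (D ψ x N0 v - Finsupp.single α 1) ∈ Lw K γ
      · refine ⟨γ, hγα, le_rfl, fun β hβ hβα => ?_⟩
        have := hex β hβ.le
        rw [Finsupp.sub_apply, Finsupp.single_apply, if_neg hβα.ne', sub_zero] at this
        exact this
      · obtain ⟨δ, e1, e2, e3⟩ := exists_max _ γ hex
        obtain ⟨f1, f2⟩ := D_lead ψ x N0 v α hv0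
        have e4 : δ < α := by
          by_contra h4
          apply e2
          rcases (not_lt.1 h4).lt_or_eq with h5 | h5
          · rw [Finsupp.sub_apply, f2 δ h5, Finsupp.single_apply, if_neg h5.ne, sub_zero]
          · rw [← h5, Finsupp.sub_apply, f1, h1, Finsupp.single_apply, if_pos rfl, sub_self]
        refine ⟨δ, e4, e1, fun β hβ hβα => ?_⟩
        have := e3 β hβ
        rw [Finsupp.sub_apply, Finsupp.single_apply, if_neg hβα.ne', sub_zero] at this
        exact this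
    obtain ⟨n, hn, hψn⟩ := hψ α δ hδα N0
    have hfinal := hT n hn δ hγδ
    obtain ⟨f1, f2⟩ := D_lead ψ x n v α hv0
    rw [T_apply, Finset.sum_eq_single α] at hfinal
    · rw [f1, h1, hψn, if_pos ⟨hδα, rfl⟩] at hfinal
      simp at hfinal
    · intro β _ hβα
      by_cases h2 : ψ β n < β ∧ ψ β n = δ
      · have hδβ : δ < β := h2.2 ▸ h2.1
        have : D ψ x n v β = 0 := by
          rcases lt_or_gt_of_ne hβα with h3 | h3
          · rw [hstab n hn β (hγδ.trans hδβ.le)]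
            exact hδ β hδβ h3
          · exact f2 β h3
        rw [this, zero_mul]
      · rw [if_neg h2, mul_zero]
    · intro h2
      rw [Finsupp.notMem_support_iff.1 h2, zero_mul]

end uni

abbrev Om := AlgebraicClosure (ZMod 2)

noncomputable def q (i : ℕ) : ℕ := Nat.nth Nat.Prime i

lemma q_prime (i : ℕ) : (q i).Prime := Nat.nth_mem_of_infinite Nat.infinite_setOfPred_prime i

lemma q_inj {i j : ℕ} (h : q i = q j) : i = j :=
  Nat.nth_injective Nat.infinite_setOfPred_prime h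

noncomputable def Q (N : ℕ) : ℕ := ∏ i ∈ Finset.range N, q i

lemma Q_zero : Q 0 = 1 := by simp [Q]
lemma Q_succ (N : ℕ) : Q (N+1) = Q N * q N := by simp [Q, Finset.prod_range_succ]

lemma q_dvd {i N : ℕ} (h : i < N) : q i ∣ Q N :=
  Finset.dvd_prod_of_mem _ (Finset.mem_range.2 h)

lemma Q_coprime {i N : ℕ} (h : N ≤ i) : Nat.Coprime (Q N) (q i) := by
  unfold Q
  apply Nat.Coprime.prod_left
  intro j hj
  rw [Nat.coprime_primes (q_prime j) (q_prime i)]
  intro hji
  have := q_inj hji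
  have := Finset.mem_range.1 hj
  omega

lemma Q_pos (N : ℕ) : 0 < Q N := Finset.prod_pos fun i _ => (q_prime i).pos

lemma Q_dvd {N M : ℕ} (h : N ≤ M) : Q N ∣ Q M := by
  induction M, h using Nat.le_induction with
  | base => exact dvd_rfl
  | succ M _ ih => rw [Q_succ]; exact ih.mul_right _

lemma modEq_Q {N a b : ℕ} (h : ∀ i < N, a ≡ b [MOD q i]) : a ≡ b [MOD Q N] := by
  induction N with
  | zero => rw [Q_zero]; exact Nat.modEq_one
  | succ N ih =>
    rw [Q_succ]
    exact (Nat.modEq_and_modEq_iff_modEq_mul (Q_coprime le_rfl)).1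
      ⟨ih fun i hi => h i (by omega), h N (by omega)⟩

/-- exponents with prescribed residues -/
noncomputable def u (b : ℕ → ℕ) : ℕ → ℕ
  | 0 => 0
  | N+1 => Nat.chineseRemainder (Q_coprime (le_refl N)) (u b N) (b N)

lemma u_succ_mod (b : ℕ → ℕ) (N : ℕ) : u b (N+1) ≡ u b N [MOD Q N] :=
  (Nat.chineseRemainder (Q_coprime (le_refl N)) (u b N) (b N)).2.1

lemma u_mod (b : ℕ → ℕ) (N i : ℕ) (h : i < N) : u b N ≡ b i [MOD q i] := by
  induction N with
  | zero => omega
  | succ N ih =>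
    rcases Nat.lt_succ_iff_lt_or_eq.1 h with h1 | h1
    · exact ((u_succ_mod b N).of_dvd (q_dvd h1)).trans (ih h1)
    · subst h1
      exact (Nat.chineseRemainder (Q_coprime (le_refl i)) (u b i) (b i)).2.2

/-- periodicity facts -/
lemma per_mul {m : ℕ} {x : Om} (h : x ^ (2 ^ m) = x) (k : ℕ) : x ^ (2 ^ (m * k)) = x := by
  induction k with
  | zero => simp
  | succ k ih => rw [Nat.mul_succ, pow_add, pow_mul, ih, h]

lemma per_modEq {m a b : ℕ} {x : Om} (h : x ^ (2 ^ m) = x) (hab : a ≡ b [MOD m]) :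
    x ^ (2 ^ a) = x ^ (2 ^ b) := by
  wlog hle : a ≤ b generalizing a b
  · exact (this hab.symm (by omega)).symm
  · obtain ⟨k, hk⟩ := (Nat.modEq_iff_dvd' hle).1 hab
    have : b = m * k + a := by omega
    rw [this, pow_add, pow_mul, per_mul h]

lemma per_of_le {N M : ℕ} (hNM : N ≤ M) {x : Om} (h : x ^ (2 ^ Q N) = x) : x ^ (2 ^ Q M) = x := by
  obtain ⟨k, hk⟩ := Q_dvd hNM
  rw [hk]; exact per_mul h k

/-- the field of all elements of square-free degree over the prime field -/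
noncomputable def K : Subfield Om where
  carrier := {x | ∃ N, x ^ (2 ^ Q N) = x}
  mul_mem' := by
    rintro x y ⟨N, hN⟩ ⟨M, hM⟩
    refine ⟨max N M, ?_⟩
    rw [mul_pow, per_of_le (le_max_left N M) hN, per_of_le (le_max_right N M) hM]
  one_mem' := ⟨0, by simp⟩
  add_mem' := by
    rintro x y ⟨N, hN⟩ ⟨M, hM⟩
    refine ⟨max N M, ?_⟩
    rw [add_pow_char_pow, per_of_le (le_max_left N M) hN, per_of_le (le_max_right N M) hM]
  zero_mem' := ⟨0, by simp [Q_zero]⟩
  neg_mem' := by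
    rintro x ⟨N, hN⟩
    refine ⟨N, ?_⟩
    rw [CharTwo.neg_eq, hN]
  inv_mem' := by
    rintro x ⟨N, hN⟩
    refine ⟨N, ?_⟩
    rw [inv_pow, hN]

lemma mem_K {x : Om} : x ∈ K ↔ ∃ N, x ^ (2 ^ Q N) = x := Iff.rfl

noncomputable def lev (x : K) : ℕ := Classical.choose (mem_K.1 x.2)
lemma lev_spec (x : K) : (x : Om) ^ (2 ^ Q (lev x)) = x := Classical.choose_spec (mem_K.1 x.2)

/-- the map with exponents `b` -/
noncomputable def sgf (b : ℕ → ℕ) (x : K) : K := x ^ (2 ^ (u b (lev x)))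

lemma u_mod_le (b : ℕ → ℕ) {N M : ℕ} (h : N ≤ M) : u b M ≡ u b N [MOD Q N] := by
  induction M, h using Nat.le_induction with
  | base => rfl
  | succ M hM ih => exact ((u_succ_mod b M).of_dvd (Q_dvd hM)).trans ih

lemma sgf_apply (b : ℕ → ℕ) (x : K) {N : ℕ} (h : (x : Om) ^ (2 ^ Q N) = x) :
    ((sgf b x : K) : Om) = (x : Om) ^ (2 ^ (u b N)) := by
  have h1 : ((sgf b x : K) : Om) = (x : Om) ^ (2 ^ (u b (lev x))) := by
    simp [sgf]
  rw [h1, ← per_modEq (lev_spec x) (u_mod_le b (le_max_left (lev x) N)),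
    ← per_modEq h (u_mod_le b (le_max_right (lev x) N))]

lemma exists_common (x y : K) : ∃ N, (x : Om) ^ (2 ^ Q N) = x ∧ (y : Om) ^ (2 ^ Q N) = y :=
  ⟨max (lev x) (lev y), per_of_le (le_max_left _ _) (lev_spec x),
    per_of_le (le_max_right _ _) (lev_spec y)⟩

noncomputable def sgh (b : ℕ → ℕ) : K →+* K where
  toFun := sgf b
  map_one' := by
    apply Subtype.ext
    rw [sgf_apply b 1 (N := 0) (by simp)]
    simp
  map_zero' := by
    apply Subtype.ext
    rw [sgf_apply b 0 (N := 0) (by simp [Q_zero])]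
    simp
  map_mul' := by
    intro x y
    obtain ⟨N, hx, hy⟩ := exists_common x y
    apply Subtype.ext
    rw [sgf_apply b (x * y) (N := N) (by rw [Subfield.coe_mul, mul_pow, hx, hy])]
    rw [Subfield.coe_mul, Subfield.coe_mul, sgf_apply b x hx, sgf_apply b y hy, mul_pow]
  map_add' := by
    intro x y
    obtain ⟨N, hx, hy⟩ := exists_common x y
    apply Subtype.ext
    rw [sgf_apply b (x + y) (N := N) (by rw [Subfield.coe_add, add_pow_char_pow, hx, hy])]
    rw [Subfield.coe_add, Subfield.coe_add, sgf_apply b x hx, sgf_apply b y hy, add_pow_char_pow]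

lemma sgh_apply (b : ℕ → ℕ) (x : K) {N : ℕ} (h : (x : Om) ^ (2 ^ Q N) = x) :
    ((sgh b x : K) : Om) = (x : Om) ^ (2 ^ (u b N)) := sgf_apply b x h

lemma sgh_fix (b : ℕ → ℕ) (x : K) {N : ℕ} (h : (x : Om) ^ (2 ^ Q N) = x) :
    ((sgh b x : K) : Om) ^ (2 ^ Q N) = (sgh b x : K) := by
  rw [sgh_apply b x h, ← pow_mul, mul_comm, pow_mul, h]

lemma sgh_comp (b c d : ℕ → ℕ) (h : ∀ i, b i + c i ≡ d i [MOD q i]) (x : K) :
    sgh b (sgh c x) = sgh d x := by
  obtain ⟨N, hx⟩ := mem_K.1 x.2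
  apply Subtype.ext
  rw [sgh_apply b (sgh c x) (sgh_fix c x hx), sgh_apply c x hx, sgh_apply d x hx, ← pow_mul,
    ← pow_add]
  apply per_modEq hx
  apply modEq_Q
  intro i hi
  have h1 := u_mod b N i hi
  have h2 := u_mod c N i hi
  have h3 := u_mod d N i hi
  exact (((h2.add h1).trans (by rw [add_comm]; exact h i))).trans h3.symm

lemma sgh_zero (x : K) (b : ℕ → ℕ) (h : ∀ i, b i ≡ 0 [MOD q i]) : sgh b x = x := by
  obtain ⟨N, hx⟩ := mem_K.1 x.2
  apply Subtype.ext
  rw [sgh_apply b x hx]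
  have : u b N ≡ 0 [MOD Q N] := modEq_Q fun i hi => (u_mod b N i hi).trans (h i)
  rw [per_modEq hx this]; simp

lemma neg_mod (b : ℕ → ℕ) (i : ℕ) : b i + (q i - 1) * b i ≡ 0 [MOD q i] := by
  have : b i + (q i - 1) * b i = q i * b i := by
    obtain ⟨k, hk⟩ : ∃ k, q i = k + 1 := ⟨q i - 1, by have := (q_prime i).pos; omega⟩
    rw [hk]; simp; ring
  rw [this]
  exact (Nat.modEq_zero_iff_dvd.2 (dvd_mul_right _ _))

noncomputable def sg (b : ℕ → ℕ) : K ≃+* K :=
  RingEquiv.ofRingHom (sgh b) (sgh (fun i => (q i - 1) * b i))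
    (by
      ext x
      rw [RingHom.comp_apply, sgh_comp b _ (fun _ => 0) (neg_mod b), sgh_zero x _ (fun _ => rfl)]
      rfl)
    (by
      ext x
      rw [RingHom.comp_apply, sgh_comp _ b (fun _ => 0) (fun i => by rw [add_comm]; exact neg_mod b i),
        sgh_zero x _ (fun _ => rfl)]
      rfl)

@[simp] lemma sg_apply (b : ℕ → ℕ) (x : K) : sg b x = sgh b x := rfl

lemma sg_mul (b c d : ℕ → ℕ) (h : ∀ i, b i + c i ≡ d i [MOD q i]) : sg b * sg c = sg d := by
  ext1 x
  exact sgh_comp b c d h x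

lemma sg_one (b : ℕ → ℕ) (h : ∀ i, b i ≡ 0 [MOD q i]) : sg b = 1 := by
  ext1 x
  exact sgh_zero x b h

lemma sg_pow (b : ℕ → ℕ) (k : ℕ) : sg b ^ k = sg (fun i => k * b i) := by
  induction k with
  | zero => rw [pow_zero, sg_one _ (fun i => by simp [Nat.ModEq])]
  | succ k ih =>
    rw [pow_succ, ih]
    apply sg_mul
    intro i
    rw [Nat.succ_mul]

lemma sg_congr (b c : ℕ → ℕ) (h : ∀ i, b i ≡ c i [MOD q i]) : sg b = sg c := by
  have h0 : sg (fun _ => 0) = 1 := sg_one _ (fun _ => rfl)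
  have := sg_mul (fun _ => 0) b c (fun i => by simpa using h i)
  rwa [h0, one_mul] at this

/-- automorphisms supported on the first `N` primes -/
def BN (N : ℕ) : Subgroup (K ≃+* K) where
  carrier := {σ | ∃ b : ℕ → ℕ, (∀ i, N ≤ i → b i = 0) ∧ σ = sg b}
  mul_mem' := by
    rintro _ _ ⟨b, hb, rfl⟩ ⟨c, hc, rfl⟩
    exact ⟨fun i => b i + c i, fun i hi => by simp [hb i hi, hc i hi], sg_mul b c _ (fun i => rfl)⟩
  one_mem' := ⟨fun _ => 0, fun _ _ => rfl, (sg_one _ (fun _ => rfl)).symm⟩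
  inv_mem' := by
    rintro _ ⟨b, hb, rfl⟩
    refine ⟨fun i => (q i - 1) * b i, fun i hi => by simp [hb i hi], ?_⟩
    rw [inv_eq_iff_mul_eq_one, sg_mul b _ (fun _ => 0) (neg_mod b), sg_one _ (fun _ => rfl)]

lemma BN_mono {N M : ℕ} (h : N ≤ M) : BN N ≤ BN M := by
  rintro _ ⟨b, hb, rfl⟩
  exact ⟨b, fun i hi => hb i (by omega), rfl⟩

/-- the generator of `BN N` -/
noncomputable def eN (N : ℕ) : K ≃+* K := sg (fun i => if i < N then 1 else 0)

lemma BN_le (N : ℕ) : BN N ≤ Subgroup.zpowers (eN N) := by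
  rintro _ ⟨b, hb, rfl⟩
  refine ⟨(u b N : ℤ), ?_⟩
  simp only [zpow_natCast, eN]
  rw [sg_pow]
  apply sg_congr
  intro i
  by_cases h : i < N
  · simpa [h] using u_mod b N i h
  · simp [h, hb i (by omega)]
    rfl

/-- the whole group -/
def B : Subgroup (K ≃+* K) where
  carrier := {σ | ∃ N, σ ∈ BN N}
  mul_mem' := by
    rintro σ τ ⟨N, hN⟩ ⟨M, hM⟩
    exact ⟨max N M, (BN _).mul_mem (BN_mono (le_max_left _ _) hN) (BN_mono (le_max_right _ _) hM)⟩
  one_mem' := ⟨0, (BN 0).one_mem⟩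
  inv_mem' := by
    rintro σ ⟨N, hN⟩
    exact ⟨N, (BN N).inv_mem hN⟩

/-- the elements `x i` and automorphisms `s i` -/
lemma exists_x (i : ℕ) : ∃ x : K, (x : Om) ^ (2 ^ q i) = x ∧ (x : Om) ^ 2 ≠ x := by
  have hq := (q_prime i).two_le
  have h4 : 4 ≤ 2 ^ q i := by
    calc 4 = 2 ^ 2 := by norm_num
      _ ≤ 2 ^ q i := Nat.pow_le_pow_right (by norm_num) hq
  have hn : ((2 ^ q i - 1 : ℕ) : Om) ≠ 0 := by
    rw [Nat.cast_sub (by omega)]
    have : ((2 : ℕ) : Om) = 0 := CharP.cast_eq_zero Om 2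
    rw [Nat.cast_pow, this, zero_pow (by omega)]
    simp
  have : NeZero ((2 ^ q i - 1 : ℕ) : Om) := ⟨hn⟩
  obtain ⟨z, hz⟩ := HasEnoughRootsOfUnity.exists_primitiveRoot Om (2 ^ q i - 1)
  have hz1 : z ^ (2 ^ q i) = z := by
    have : 2 ^ q i = (2 ^ q i - 1) + 1 := by omega
    rw [this, pow_succ, hz.pow_eq_one, one_mul]
  have hz0 : z ≠ 0 := hz.ne_zero (by omega)
  refine ⟨⟨z, i+1, ?_⟩, hz1, ?_⟩
  · obtain ⟨k, hk⟩ := q_dvd (Nat.lt_succ_self i)
    rw [Nat.succ_eq_add_one] at hk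
    rw [hk]; exact per_mul hz1 k
  · intro h
    have h1 : z = 1 := by
      have : z * z = z * 1 := by rw [mul_one, ← sq]; exact h
      exact mul_left_cancel₀ hz0 this
    rw [h1] at hz
    have := hz.eq_orderOf
    rw [orderOf_one] at this
    omega

noncomputable def xx (i : ℕ) : K := Classical.choose (exists_x i)
lemma xx_spec (i : ℕ) : (xx i : Om) ^ (2 ^ q i) = xx i ∧ (xx i : Om) ^ 2 ≠ xx i :=
  Classical.choose_spec (exists_x i)

lemma sg_xx (b : ℕ → ℕ) (i : ℕ) : ((sg b (xx i) : K) : Om) = (xx i : Om) ^ (2 ^ b i) := by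
  have h : (xx i : Om) ^ (2 ^ Q (i+1)) = xx i := by
    obtain ⟨k, hk⟩ := q_dvd (Nat.lt_succ_self i)
    rw [Nat.succ_eq_add_one] at hk
    rw [hk]; exact per_mul (xx_spec i).1 k
  rw [sg_apply, sgh_apply b _ h]
  exact per_modEq (xx_spec i).1 (u_mod b (i+1) i (by omega))

noncomputable def ss (i : ℕ) : K ≃+* K := sg (fun j => if j = i then 1 else 0)

lemma ss_mem (i : ℕ) : ss i ∈ B :=
  ⟨i+1, _, fun j hj => by simp; omega, rfl⟩

lemma ss_xx (i j : ℕ) (h : i ≠ j) : ss i (xx j) = xx j := by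
  apply Subtype.ext
  rw [ss, sg_xx]
  simp [h.symm]

lemma ss_xx' (j : ℕ) : ss j (xx j) ≠ xx j := by
  intro h
  have := congrArg Subtype.val h
  rw [ss, sg_xx] at this
  simp at this
  exact (xx_spec j).2 this

lemma ss_fin (a : K) : ∃ N, ∀ j, N ≤ j → ss j a = a := by
  obtain ⟨N, hN⟩ := mem_K.1 a.2
  refine ⟨N, fun j hj => ?_⟩
  apply Subtype.ext
  rw [ss, sg_apply, sgh_apply _ a hN]
  have : u (fun k => if k = j then 1 else 0) N ≡ 0 [MOD Q N] := modEq_Q fun i hi =>
    (u_mod _ N i hi).trans (by simp [show i ≠ j by omega]; rfl)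
  rw [per_modEq hN this]; simp

lemma B_level (σ : K ≃+* K) (h : σ ∈ B) : ∃ N, ∀ j, N ≤ j → σ (xx j) = xx j := by
  obtain ⟨N, b, hb, rfl⟩ := h
  refine ⟨N, fun j hj => ?_⟩
  apply Subtype.ext
  rw [sg_xx, hb j hj]; simp

lemma sg_comm (b c : ℕ → ℕ) : sg b * sg c = sg c * sg b := by
  rw [sg_mul b c (fun i => b i + c i) (fun _ => rfl), sg_mul c b (fun i => b i + c i)
    (fun i => by rw [add_comm])]

lemma B_comm (σ τ : B) : σ * τ = τ * σ := by
  obtain ⟨_, N, b, hb, rfl⟩ := σ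
  obtain ⟨_, M, c, hc, rfl⟩ := τ
  exact Subtype.ext (sg_comm b c)


/-! ### the group -/

noncomputable def ph : B →* MulAut Kˣ where
  toFun σ := Units.mapEquiv (σ : K ≃+* K).toMulEquiv
  map_one' := by ext; rfl
  map_mul' := by intro σ τ; ext; rfl

@[simp] lemma ph_apply (σ : B) (a : Kˣ) : ((ph σ a : Kˣ) : K) = (σ : K ≃+* K) (a : K) := rfl

abbrev G := Kˣ ⋊[ph] B

lemma G_solv : Group.IsSolvable G := by
  have h1 : Group.IsSolvable Kˣ := Group.isSolvable_of_comm mul_comm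
  have h2 : Group.IsSolvable B := Group.isSolvable_of_comm B_comm
  exact Group.isSolvable_of_ker_le_range (SemidirectProduct.inl : Kˣ →* G) SemidirectProduct.rightHom
    (SemidirectProduct.range_inl_eq_ker_rightHom).ge

/-- finite level subgroups -/
def GN (N : ℕ) : Subgroup G where
  carrier := {g | ((g.left : K) : Om) ^ (2 ^ Q N) = (g.left : K) ∧ (g.right : K ≃+* K) ∈ BN N}
  mul_mem' := by
    rintro g h ⟨h1, h2⟩ ⟨h3, h4⟩
    refine ⟨?_, (BN N).mul_mem h2 h4⟩
    have h5 : (((g.right : K ≃+* K) (h.left : K) : K) : Om) ^ (2 ^ Q N) =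
        (((g.right : K ≃+* K) (h.left : K) : K) : Om) := by
      obtain ⟨b, _, hb⟩ := h2
      rw [hb, sg_apply]
      exact sgh_fix b _ h3
    rw [SemidirectProduct.mul_left, Units.val_mul, ph_apply, Subfield.coe_mul, mul_pow, h1, h5]
  one_mem' := ⟨by simp, (BN N).one_mem⟩
  inv_mem' := by
    rintro g ⟨h1, h2⟩
    refine ⟨?_, (BN N).inv_mem h2⟩
    have h3 : (((g.left⁻¹ : Kˣ) : K) : Om) ^ (2 ^ Q N) = (((g.left⁻¹ : Kˣ) : K) : Om) := by
      rw [Units.val_inv_eq_inv_val, Subfield.coe_inv, inv_pow, h1]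
    obtain ⟨b, _, hb⟩ := (BN N).inv_mem h2
    rw [SemidirectProduct.inv_left, ph_apply]
    have h4 : (((g.right⁻¹ : B) : K ≃+* K)) = sg b := hb
    rw [h4, sg_apply]
    exact sgh_fix b _ h3

lemma GN_mono {N M : ℕ} (h : N ≤ M) : GN N ≤ GN M := by
  rintro g ⟨h1, h2⟩
  exact ⟨per_of_le h h1, BN_mono h h2⟩

lemma exists_GN (g : G) : ∃ N, g ∈ GN N := by
  obtain ⟨N, hN⟩ := mem_K.1 (g.left : K).2
  obtain ⟨M, hM⟩ := g.right.2
  exact ⟨max N M, per_of_le (le_max_left _ _) hN, BN_mono (le_max_right _ _) hM⟩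

lemma FG_le_GN (H : Subgroup G) (hH : H.FG) : ∃ N, H ≤ GN N := by
  obtain ⟨S, rfl⟩ := hH
  have : ∃ N, ∀ g ∈ S, g ∈ GN N := by
    classical
    induction S using Finset.induction_on with
    | empty => exact ⟨0, by simp⟩
    | insert a t _ ih =>
      obtain ⟨N, hN⟩ := ih
      obtain ⟨M, hM⟩ := exists_GN a
      refine ⟨max N M, fun g hg => ?_⟩
      rcases Finset.mem_insert.1 hg with rfl | hg
      · exact GN_mono (le_max_right _ _) hM
      · exact GN_mono (le_max_left _ _) (hN g hg)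
  obtain ⟨N, hN⟩ := this
  exact ⟨N, (Subgroup.closure_le _).2 hN⟩

lemma rank_two (H : Subgroup G) (hH : H.FG) :
    ∃ s : Finset G, s.card ≤ 2 ∧ Subgroup.closure (s : Set G) = H := by
  classical
  obtain ⟨N, hN⟩ := FG_le_GN H hH
  -- the kernel part
  set A : Subgroup Kˣ := H.comap SemidirectProduct.inl with hA
  have hn : 2 ^ Q N - 1 ≠ 0 := by
    have : 2 ^ 1 ≤ 2 ^ Q N := Nat.pow_le_pow_right (by norm_num) (Q_pos N)
    omega
  have : NeZero (2 ^ Q N - 1) := ⟨hn⟩
  have hAle : A ≤ rootsOfUnity (2 ^ Q N - 1) K := by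
    intro a ha
    have h1 := (hN ha).1
    rw [mem_rootsOfUnity]
    have h2 : (a : K) ^ (2 ^ Q N) = a := by
      apply Subtype.ext
      simpa using h1
    have h3 : 2 ^ Q N = (2 ^ Q N - 1) + 1 := by omega
    rw [h3, pow_succ] at h2
    have h4 : (a : K) ^ (2 ^ Q N - 1) = 1 := by
      have h5 : (a : K) ^ (2 ^ Q N - 1) * a = 1 * a := by rw [h2, one_mul]
      exact mul_right_cancel₀ a.ne_zero h5
    ext
    simpa using congrArg Subtype.val h4
  have hAc : IsCyclic A := Subgroup.isCyclic_of_le hAle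
  obtain ⟨a, ha⟩ := (Subgroup.isCyclic_iff_exists_zpowers_eq_top A).1 hAc
  have hC : H.map (SemidirectProduct.rightHom : G →* B) ≤ (BN N).subgroupOf B := by
    rintro _ ⟨g, hg, rfl⟩
    exact (hN hg).2
  have heN : eN N ∈ BN N := ⟨_, fun i hi => by simp; omega, rfl⟩
  have hC2 : (BN N).subgroupOf B ≤ Subgroup.zpowers (⟨eN N, N, heN⟩ : B) := by
    intro σ hσ
    obtain ⟨k, hk⟩ := BN_le N hσ
    refine ⟨k, ?_⟩
    apply Subtype.ext
    simpa using hk
  have hCc : IsCyclic (H.map (SemidirectProduct.rightHom : G →* B)) :=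
    Subgroup.isCyclic_of_le (hC.trans hC2)
  obtain ⟨c, hc⟩ := (Subgroup.isCyclic_iff_exists_zpowers_eq_top _).1 hCc
  have hcm : c ∈ H.map (SemidirectProduct.rightHom : G →* B) := hc ▸ Subgroup.mem_zpowers c
  obtain ⟨h, hh, rfl⟩ := hcm
  have ham : a ∈ A := ha ▸ Subgroup.mem_zpowers a
  refine ⟨{SemidirectProduct.inl a, h}, Finset.card_le_two, ?_⟩
  apply le_antisymm
  · rw [Subgroup.closure_le]
    intro g hg
    simp only [Finset.coe_insert, Finset.coe_singleton, Set.mem_insert_iff,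
      Set.mem_singleton_iff] at hg
    rcases hg with rfl | rfl
    · exact ham
    · exact hh
  · intro g hg
    have h1 : (SemidirectProduct.rightHom : G →* B) g ∈
        H.map (SemidirectProduct.rightHom : G →* B) := ⟨g, hg, rfl⟩
    rw [← hc] at h1
    obtain ⟨k, hk⟩ := h1
    have hk' : (SemidirectProduct.rightHom : G →* B) (h ^ k) = SemidirectProduct.rightHom g := by
      rw [map_zpow]; exact hk
    have h2 : g * (h ^ k)⁻¹ ∈ (SemidirectProduct.rightHom : G →* B).ker := by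
      rw [MonoidHom.mem_ker, map_mul, map_inv, hk', mul_inv_cancel]
    rw [← SemidirectProduct.range_inl_eq_ker_rightHom] at h2
    obtain ⟨z, hz⟩ := h2
    have hzA : z ∈ A := by
      change SemidirectProduct.inl z ∈ H
      rw [hz]
      exact H.mul_mem hg (H.inv_mem (H.zpow_mem hh k))
    rw [← ha] at hzA
    obtain ⟨l, hl⟩ := hzA
    have h3 : g = (SemidirectProduct.inl a : G) ^ l * h ^ k := by
      rw [← map_zpow]
      simp only at hl
      rw [hl, hz]; group
    rw [h3]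
    have m1 : (SemidirectProduct.inl a : G) ∈
        Subgroup.closure ((({SemidirectProduct.inl a, h} : Finset G) : Set G)) :=
      Subgroup.subset_closure (by simp)
    have m2 : h ∈ Subgroup.closure ((({SemidirectProduct.inl a, h} : Finset G) : Set G)) :=
      Subgroup.subset_closure (by simp)
    exact Subgroup.mul_mem _ (Subgroup.zpow_mem _ m1 l) (Subgroup.zpow_mem _ m2 k)

/-! ### the module -/

noncomputable def lvl (σ : B) : ℕ := Classical.choose (B_level σ σ.2)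
lemma lvl_spec (σ : B) : ∀ j, lvl σ ≤ j → (σ : K ≃+* K) (xx j) = xx j :=
  Classical.choose_spec (B_level σ σ.2)

section modl
variable {I : Type} [LinearOrder I] [WellFoundedLT I] (ψ : I → ℕ → I)

noncomputable def rho (σ : B) (v : I →₀ K) : I →₀ K := R ψ xx (lvl σ) σ v

lemma rho_eq (σ : B) (n : ℕ) (hn : ∀ j, n ≤ j → (σ : K ≃+* K) (xx j) = xx j) (v : I →₀ K) :
    rho ψ σ v = R ψ xx n σ v := by
  rcases le_total n (lvl σ) with h | h
  · exact R_eq ψ xx n (lvl σ) h σ hn v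
  · exact (R_eq ψ xx (lvl σ) n h σ (lvl_spec σ) v).symm

lemma R_add (n : ℕ) (σ : K ≃+* K) (v w : I →₀ K) :
    R ψ xx n σ (v + w) = R ψ xx n σ v + R ψ xx n σ w := by
  simp [R]

lemma R_smul (n : ℕ) (σ : K ≃+* K) (c : K) (v : I →₀ K) :
    R ψ xx n σ (c • v) = σ c • R ψ xx n σ v := by
  rw [R, map_smul, mp_smul, map_smul]; rfl

lemma R_mul (n : ℕ) (σ τ : K ≃+* K) (v : I →₀ K) :
    R ψ xx n (σ * τ) v = R ψ xx n σ (R ψ xx n τ v) := by
  apply (D ψ xx n).injective
  rw [D_R, D_R, D_R]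
  ext β
  simp

lemma R_one (n : ℕ) (v : I →₀ K) : R ψ xx n 1 v = v := by
  apply (D ψ xx n).injective
  rw [D_R]
  ext β
  simp

lemma rho_add (σ : B) (v w : I →₀ K) : rho ψ σ (v + w) = rho ψ σ v + rho ψ σ w := R_add ψ _ _ v w
lemma rho_smul (σ : B) (c : K) (v : I →₀ K) : rho ψ σ (c • v) = (σ : K ≃+* K) c • rho ψ σ v :=
  R_smul ψ _ _ c v
lemma rho_one (v : I →₀ K) : rho ψ 1 v = v := R_one ψ _ v
lemma rho_mul (σ τ : B) (v : I →₀ K) : rho ψ (σ * τ) v = rho ψ σ (rho ψ τ v) := by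
  set n := max (lvl σ) (lvl τ) with hn
  have h1 : ∀ j, n ≤ j → (σ : K ≃+* K) (xx j) = xx j := fun j hj => lvl_spec σ j (by omega)
  have h2 : ∀ j, n ≤ j → (τ : K ≃+* K) (xx j) = xx j := fun j hj => lvl_spec τ j (by omega)
  have h3 : ∀ j, n ≤ j → ((σ * τ : B) : K ≃+* K) (xx j) = xx j := by
    intro j hj
    change (σ : K ≃+* K) ((τ : K ≃+* K) (xx j)) = xx j
    rw [h2 j hj, h1 j hj]
  rw [rho_eq ψ _ n h3, rho_eq ψ τ n h2, rho_eq ψ σ n h1]
  exact R_mul ψ n σ τ v

noncomputable def rp : Representation ℤ G (I →₀ K) where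
  toFun g :=
    { toFun := fun v => (g.left : K) • rho ψ g.right v
      map_add' := fun v w => by rw [rho_add, smul_add]
      map_smul' := fun c v => by
        have : rho ψ g.right (c • v) = c • rho ψ g.right v := by
          have h1 := map_zsmul (AddMonoidHom.mk' (rho ψ g.right) (rho_add ψ g.right)) c v
          simpa using h1
        simp only [this, RingHom.id_apply]
        rw [smul_comm] }
  map_one' := by
    apply LinearMap.ext
    intro v
    change ((1 : G).left : K) • rho ψ (1 : G).right v = v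
    simp [rho_one]
  map_mul' g h := by
    apply LinearMap.ext
    intro v
    change ((g * h).left : K) • rho ψ (g * h).right v =
      (g.left : K) • rho ψ g.right ((h.left : K) • rho ψ h.right v)
    rw [SemidirectProduct.mul_left, SemidirectProduct.mul_right, rho_mul, rho_smul, smul_smul]
    rfl

lemma rp_apply (g : G) (v : I →₀ K) : rp ψ g v = (g.left : K) • rho ψ g.right v := rfl

abbrev Mo := (rp ψ).asModule

lemma smul_eq (g : G) (v : Mo ψ) : (MonoidAlgebra.of ℤ G g) • v =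
    ((rp ψ).asModuleEquiv.symm (rp ψ g ((rp ψ).asModuleEquiv v)) : Mo ψ) := by
  rw [Representation.asModuleEquiv_symm_map_rho]; rfl

/-- submodules are stable under scalars and automorphisms -/
noncomputable def toK (P : Submodule (MonoidAlgebra ℤ G) (Mo ψ)) : Submodule K (I →₀ K) where
  carrier := {v | (rp ψ).asModuleEquiv.symm v ∈ P}
  add_mem' := by
    intro v w hv hw
    exact P.add_mem hv hw
  zero_mem' := P.zero_mem
  smul_mem' := by
    intro c v hv
    by_cases hc : c = 0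
    · subst hc
      rw [zero_smul]
      exact P.zero_mem
    · have hv' : (rp ψ).asModuleEquiv.symm v ∈ P := hv
      have h1 := P.smul_mem (MonoidAlgebra.of ℤ G (SemidirectProduct.inl (Units.mk0 c hc))) hv'
      rw [smul_eq] at h1
      have h2 : rp ψ (SemidirectProduct.inl (Units.mk0 c hc) : G)
          ((rp ψ).asModuleEquiv ((rp ψ).asModuleEquiv.symm v)) = c • v := by
        rw [rp_apply]
        simp [rho_one]
      rw [h2] at h1
      exact h1

lemma toK_mem (P : Submodule (MonoidAlgebra ℤ G) (Mo ψ)) (v : I →₀ K) :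
    v ∈ toK ψ P ↔ (rp ψ).asModuleEquiv.symm v ∈ P := Iff.rfl

lemma toK_rho (P : Submodule (MonoidAlgebra ℤ G) (Mo ψ)) (σ : B) (v : I →₀ K) (hv : v ∈ toK ψ P) :
    rho ψ σ v ∈ toK ψ P := by
  have hv' : (rp ψ).asModuleEquiv.symm v ∈ P := hv
  have h1 := P.smul_mem (MonoidAlgebra.of ℤ G (SemidirectProduct.inr σ)) hv'
  rw [smul_eq] at h1
  have h2 : rp ψ (SemidirectProduct.inr σ : G)
      ((rp ψ).asModuleEquiv ((rp ψ).asModuleEquiv.symm v)) = rho ψ σ v := by
    rw [rp_apply]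
    simp
  rw [h2] at h1
  exact h1

lemma toK_R (P : Submodule (MonoidAlgebra ℤ G) (Mo ψ)) (j : ℕ) (v : I →₀ K) (hv : v ∈ toK ψ P) :
    R ψ xx (j+1) (ss j) v ∈ toK ψ P := by
  have h1 := toK_rho ψ P ⟨ss j, ss_mem j⟩ v hv
  rwa [rho_eq ψ ⟨ss j, ss_mem j⟩ (j+1) (fun i hi => ss_xx j i (by omega))] at h1

variable (hψ : ∀ α β, β < α → ∀ m, ∃ n, m ≤ n ∧ ψ α n = β)
include hψ

lemma toK_lower (P : Submodule (MonoidAlgebra ℤ G) (Mo ψ)) (v : I →₀ K) (hv : v ∈ toK ψ P)
    (α : I) (hα : v α ≠ 0) (β : I) (hβ : β ≤ α) : Finsupp.single β (1 : K) ∈ toK ψ P := by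
  obtain ⟨δ, h1, h2, h3⟩ := exists_max v α (fun h => hα (h α le_rfl))
  exact main_claim ψ xx ss hψ ss_xx ss_xx' ss_fin (toK ψ P) (toK_R ψ P) δ v hv h2 h3 β (hβ.trans h1)

/-- the set of indices -/
def LL (P : Submodule (MonoidAlgebra ℤ G) (Mo ψ)) : Set I := {α | Finsupp.single α (1 : K) ∈ toK ψ P}

lemma LL_lower (P : Submodule (MonoidAlgebra ℤ G) (Mo ψ)) (α β : I) (hα : α ∈ LL ψ P)
    (hβ : β ≤ α) : β ∈ LL ψ P :=
  toK_lower ψ hψ P _ hα α (by simp) β hβ

lemma LL_spec (P : Submodule (MonoidAlgebra ℤ G) (Mo ψ)) (v : I →₀ K) :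
    v ∈ toK ψ P ↔ ∀ α, v α ≠ 0 → α ∈ LL ψ P := by
  constructor
  · intro hv α hα
    exact toK_lower ψ hψ P v hv α hα α le_rfl
  · intro h
    rw [← Finsupp.sum_single v]
    refine Submodule.sum_mem _ fun δ hδ => ?_
    have h3 : Finsupp.single δ (v δ) = v δ • Finsupp.single δ (1 : K) := by simp
    rw [h3]
    exact (toK ψ P).smul_mem _ (h δ (Finsupp.mem_support_iff.1 hδ))

lemma le_of_LL (P P' : Submodule (MonoidAlgebra ℤ G) (Mo ψ)) (h : LL ψ P ⊆ LL ψ P') : P ≤ P' := by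
  intro m hm
  have h1 : (rp ψ).asModuleEquiv m ∈ toK ψ P := by
    rw [toK_mem]; simpa using hm
  have h2 : (rp ψ).asModuleEquiv m ∈ toK ψ P' := by
    rw [LL_spec ψ hψ]
    intro α hα
    exact h ((LL_spec ψ hψ P _).1 h1 α hα)
  rw [toK_mem] at h2
  simpa using h2

open Classical in
noncomputable def gg (P : Submodule (MonoidAlgebra ℤ G) (Mo ψ)) : WithTop I :=
  if h : (LL ψ P)ᶜ.Nonempty then ((wellFounded_lt (α := I)).min (LL ψ P)ᶜ h : I) else ⊤

lemma gg_lt (P P' : Submodule (MonoidAlgebra ℤ G) (Mo ψ)) (h : P < P') : gg ψ P < gg ψ P' := by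
  have hne : (LL ψ P)ᶜ.Nonempty := by
    by_contra hcon
    apply not_le_of_gt h
    apply le_of_LL ψ hψ
    intro α _
    by_contra hα
    exact hcon ⟨α, hα⟩
  have h1 : gg ψ P = ((wellFounded_lt (α := I)).min (LL ψ P)ᶜ hne : I) := dif_pos hne
  set α0 := (wellFounded_lt (α := I)).min (LL ψ P)ᶜ hne with hα0
  have h2 : α0 ∉ LL ψ P := WellFounded.min_mem _ _ hne
  have h3 : ∀ β, β < α0 → β ∈ LL ψ P := by
    intro β hβ
    by_contra hcon
    exact WellFounded.not_lt_min _ _ hcon hβ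
  have h4 : α0 ∈ LL ψ P' := by
    by_contra hcon
    apply not_le_of_gt h
    apply le_of_LL ψ hψ
    intro β hβ
    apply h3
    by_contra hlt
    exact hcon (LL_lower ψ hψ P' β α0 hβ (not_lt.1 hlt))
  rw [h1]
  by_cases hne' : (LL ψ P')ᶜ.Nonempty
  · have h5 : gg ψ P' = ((wellFounded_lt (α := I)).min (LL ψ P')ᶜ hne' : I) := dif_pos hne'
    rw [h5, WithTop.coe_lt_coe]
    by_contra hcon
    have h6 : (wellFounded_lt (α := I)).min (LL ψ P')ᶜ hne' ∉ LL ψ P' := WellFounded.min_mem _ _ hne'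
    exact h6 (LL_lower ψ hψ P' α0 _ h4 (not_lt.1 hcon))
  · have h5 : gg ψ P' = ⊤ := dif_neg hne'
    rw [h5]
    exact WithTop.coe_lt_top _

lemma artin : IsArtinian (MonoidAlgebra ℤ G) (Mo ψ) := by
  refine ⟨?_⟩
  exact Subrelation.wf (fun {P P'} h => gg_lt ψ hψ P P' h) (InvImage.wf (gg ψ) wellFounded_lt)

end modl

abbrev W1 : Type := (Cardinal.aleph 1).ord.ToType

lemma W1_countable (α : W1) : (Set.Iio α).Countable := by
  have h1 : Cardinal.mk (Set.Iio α) < Cardinal.aleph 1 := by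
    have := Cardinal.mk_Iio_lt α (by simp)
    simpa using this
  rw [← Cardinal.le_aleph0_iff_set_countable]
  have h2 : Cardinal.aleph 1 = Order.succ Cardinal.aleph0 := by
    simp
  exact Order.lt_succ_iff.1 (h1.trans_eq h2)

lemma W1_uncountable : ¬ Countable W1 := by
  intro h
  have h1 := Cardinal.mk_le_aleph0_iff.2 h
  rw [Cardinal.mk_ord_toType] at h1
  exact absurd h1 (not_le.2 Cardinal.aleph0_lt_aleph_one)

lemma exists_psi : ∃ ψ : W1 → ℕ → W1, ∀ α β, β < α → ∀ m, ∃ n, m ≤ n ∧ ψ α n = β := by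
  have key : ∀ α : W1, ∃ f : ℕ → W1, ∀ β, β < α → ∀ m, ∃ n, m ≤ n ∧ f n = β := by
    intro α
    by_cases hne : (Set.Iio α).Nonempty
    · obtain ⟨f, hf⟩ := (W1_countable α).exists_eq_range hne
      refine ⟨fun n => f n.unpair.1, fun β hβ m => ?_⟩
      have : β ∈ Set.range f := hf ▸ hβ
      obtain ⟨k, hk⟩ := this
      exact ⟨Nat.pair k m, Nat.right_le_pair k m, by simp [hk]⟩
    · exact ⟨fun _ => α, fun β hβ => absurd ⟨β, hβ⟩ hne⟩
  choose ψ hψ using key
  exact ⟨ψ, hψ⟩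

/-- The negation of the preceding statement: Take G solvable with some r such that every finitely generated subgroup of G is generated by at most r elements. Then every Artinian module over the integral group ring ℤG is countable. -/
theorem result :
    ¬ (∀ (G : Type) [Group G], IsSolvable G →
      (∃ r : ℕ, ∀ H : Subgroup G, H.FG →
          ∃ s : Finset G, s.card ≤ r ∧ Subgroup.closure (s : Set G) = H) →
      ∀ (M : Type) [AddCommGroup M] [Module (MonoidAlgebra ℤ G) M],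
        IsArtinian (MonoidAlgebra ℤ G) M → Countable M) := by
  intro hall
  obtain ⟨ψ, hψ⟩ := exists_psi
  have h1 : Countable (Mo ψ) := hall G G_solv ⟨2, rank_two⟩ (Mo ψ) (artin ψ hψ)
  apply W1_uncountable
  have hinj : Function.Injective (fun α : W1 => (Finsupp.single α (1 : K) : W1 →₀ K)) :=
    Finsupp.single_left_injective one_ne_zero
  exact hinj.countable (β := Mo ψ)

end Pool.Agent.S01468
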