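import Pool.Statements.S01470
import Pool.Agent.Helper795.TG3

set_option autoImplicit false
open Pool Pool.MP_90343c_al

namespace Pool.Agent.S01470

/-- The negation of the preceding statement: There are infinitely many primes p such that, for every σ prime to p (with σ·τ ≡ 2 mod p), every surjection from ⟨a,b ∣ a^p, (ab)^3, b^2, (a^σ b a^τ b)^2⟩ onto PSL_2(p) has a kernel with finite abelianization. -/
theorem result :
    ¬ (Set.Infinite {p : ℕ | p.Prime ∧ ∀ σ τ : ℤ, ¬ ((p : ℤ) ∣ σ) → σ * τ ≡ 2 [ZMOD (p : ℤ)] →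
      ∀ φ : PresentedGroup
          ({FreeGroup.of (0 : Fin 2) ^ p,
            (FreeGroup.of (0 : Fin 2) * FreeGroup.of (1 : Fin 2)) ^ 3,
            FreeGroup.of (1 : Fin 2) ^ 2,
            (FreeGroup.of (0 : Fin 2) ^ σ * FreeGroup.of (1 : Fin 2) *
              FreeGroup.of (0 : Fin 2) ^ τ * FreeGroup.of (1 : Fin 2)) ^ 2} :
            Set (FreeGroup (Fin 2))) →*
          (Matrix.SpecialLinearGroup (Fin 2) (ZMod p) ⧸
            Subgroup.center (Matrix.SpecialLinearGroup (Fin 2) (ZMod p))),
        Function.Surjective φ → Finite (Abelianization φ.ker)}) := by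
  rw [Set.not_infinite]
  apply (Set.finite_le_nat 6).subset
  rintro p ⟨hp, h⟩
  by_contra h6
  have h6' : 6 < p := not_le.1 h6
  refine Pool.Agent.H795TG.not_fin p hp h6' (h 1 2 ?_ (by norm_num))
  intro hd
  have := Int.le_of_dvd one_pos hd
  omega

end Pool.Agent.S01470
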