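import Pool.Statements.S01482
-- import your own Pool.Agent.* helpers here
import Pool.Agent.Helper336.Splitting

set_option autoImplicit false
open Pool Pool.MP_9155ad_al

namespace Pool.Agent.S01482

/-- The negation of the preceding statement: For every prime p and all d, n there is f such that every nilpotent p-group generated by at most d elements with an automorphism φ satisfying φ^(p^n)=1 and x·φ(x)···φ^(p^n−1)(x)=1 for all x has derived length at most f. -/
theorem result :
    ¬ (∀ p : ℕ, p.Prime → ∀ d n : ℕ, ∃ f : ℕ,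
      ∀ (G : Type) [Group G],
        Group.IsNilpotent G → IsPGroup p G →
        (∃ S : Finset G, S.card ≤ d ∧ Subgroup.closure (S : Set G) = ⊤) →
        ∀ φ : MulAut G, φ ^ (p ^ n) = 1 →
          (∀ x : G, ((List.range (p ^ n)).map (fun i => (φ ^ i) x)).prod = 1) →
          derivedSeries G f = ⊥) := by
  intro h
  obtain ⟨f, hf⟩ := h 2 Nat.prime_two 2 4
  obtain ⟨G, hG, hfin, hp, hnil, ⟨x, y, hxy⟩, ⟨φ, hφ1, hφ2⟩, hder⟩ :=
    Pool.Agent.Helper336.Splitting.main f
  classical
  refine hder (hf G hnil hp ⟨{x, y}, Finset.card_le_two, ?_⟩ φ hφ1 hφ2)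
  rw [Finset.coe_pair]
  exact hxy

end Pool.Agent.S01482
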