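import Pool.Statements.S01484

set_option autoImplicit false
set_option linter.unusedSectionVars false
set_option linter.unusedVariables false
open Pool Pool.MP_918b6a_al

namespace Pool.Agent.S01484

/-! An `l`-simple lattice-ordered group with a nontrivial proper convex normal subgroup.

`TL` is a totally ordered group of tame maps `(x, n) ↦ (s x, n + b x)` of `ℝ × ℤ`: near every `x`
from the left, `s` is affine with slope a power of `2` and `b` vanishes, and everything is trivial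
near infinity. It is ordered by the germ at the highest nontrivial place. `SS` is the subgroup of
the elements all of whose slope exponents are even. `GG SS` is the lattice-ordered group of all
bijections `f` of `TL` commuting with right multiplication by `SS`, of bounded support, with
`(f w * w⁻¹)⁻¹ * (f v * v⁻¹)` infinitely smaller than `v * w⁻¹` for `w ≠ v`. It is `l`-simple.
The subgroup `NN` consists of the `f` for which `f w * w⁻¹` has `s = id` and whose `b`-parts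
change sign along odd translations; it is normal and contains no positive element but `1`. -/

namespace CN

section OGroup
variable {L : Type} [Group L] [LinearOrder L] [MulLeftMono L] [MulRightMono L]

/-- `a` is infinitely smaller than `b`. -/
def LL (a b : L) : Prop := ∀ n : ℕ, |a|ₘ ^ n < |b|ₘ

lemma ab_mul_le {x y m : L} (hx : |x|ₘ ≤ m) (hy : |y|ₘ ≤ m) : |x * y|ₘ ≤ m * m := by
  rw [mabs_le'] at hx hy ⊢
  refine ⟨mul_le_mul' hx.1 hy.1, ?_⟩
  rw [mul_inv_rev]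
  exact mul_le_mul' hy.2 hx.2

lemma ab_conj (u x : L) : |u * x * u⁻¹|ₘ = u * |x|ₘ * u⁻¹ := by
  rcases le_total 1 x with h | h
  · have h1 : 1 ≤ u * x * u⁻¹ := by
      calc (1 : L) = u * 1 * u⁻¹ := by group
        _ ≤ u * x * u⁻¹ := mul_le_mul_left (mul_le_mul_right h u) u⁻¹
    rw [mabs_of_one_le h, mabs_of_one_le h1]
  · have h1 : u * x * u⁻¹ ≤ 1 := by
      calc u * x * u⁻¹ ≤ u * 1 * u⁻¹ := mul_le_mul_left (mul_le_mul_right h u) u⁻¹
        _ = 1 := by group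
    rw [mabs_of_le_one h, mabs_of_le_one h1]
    group

lemma one_le_ab (x : L) : 1 ≤ |x|ₘ := one_le_mabs x

lemma one_lt_ab {x : L} (h : x ≠ 1) : 1 < |x|ₘ := by
  rcases lt_or_gt_of_ne h with h | h
  · rw [mabs_of_le_one h.le]; exact Left.one_lt_inv_iff.mpr h
  · rw [mabs_of_one_le h.le]; exact h

lemma LL.ne {a b : L} (h : LL a b) : b ≠ 1 := by
  rintro rfl
  have := h 0
  simp at this

lemma LL_one {k : L} (h : k ≠ 1) : LL 1 k := by
  intro n
  simpa using one_lt_ab h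

lemma LL.lt {a b : L} (h : LL a b) : |a|ₘ < |b|ₘ := by simpa using h 1

lemma LL.two {a b : L} (h : LL a b) : |a|ₘ * |a|ₘ < |b|ₘ := by simpa [pow_two] using h 2

lemma LL.inv {a b : L} (h : LL a b) : LL a⁻¹ b := by
  intro n; rw [mabs_inv]; exact h n

lemma LL.inv_right {a b : L} (h : LL a b) : LL a b⁻¹ := by
  intro n; rw [mabs_inv]; exact h n

lemma LL.of_abs_le {a b c : L} (h : LL a b) (hc : |c|ₘ ≤ |a|ₘ) : LL c b := by
  intro n
  exact (pow_le_pow_left' hc n).trans_lt (h n)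

lemma LL.mul {x y z : L} (hx : LL x z) (hy : LL y z) : LL (x * y) z := by
  intro n
  have key : ∀ m : L, LL m z → |x|ₘ ≤ |m|ₘ → |y|ₘ ≤ |m|ₘ → |x * y|ₘ ^ n < |z|ₘ := by
    intro m hm h1 h2
    have h3 := ab_mul_le h1 h2
    calc |x * y|ₘ ^ n ≤ (|m|ₘ * |m|ₘ) ^ n := pow_le_pow_left' h3 n
      _ = |m|ₘ ^ (2 * n) := by rw [← pow_two, ← pow_mul]
      _ < |z|ₘ := hm _
  rcases le_total |x|ₘ |y|ₘ with h | h
  · exact key y hy h le_rfl
  · exact key x hx le_rfl h

lemma LL.conj {x y : L} (h : LL x y) (u : L) : LL (u * x * u⁻¹) (u * y * u⁻¹) := by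
  intro n
  rw [ab_conj, ab_conj, conj_pow]
  have := h n
  exact mul_lt_mul_left (mul_lt_mul_right this u) u⁻¹

lemma LL.of_mul_left {v k z : L} (hv : LL v k) (hz : LL z (v * k)) : LL z k := by
  intro n
  by_contra hcon
  rw [not_lt] at hcon
  have h1 : |v * k|ₘ ≤ |k|ₘ * |k|ₘ := ab_mul_le hv.lt.le le_rfl
  have h2 : |k|ₘ * |k|ₘ ≤ |z|ₘ ^ n * |z|ₘ ^ n := mul_le_mul' hcon hcon
  have h3 := hz (n + n)
  rw [pow_add] at h3
  exact absurd (h3.trans_le (h1.trans h2)) (lt_irrefl _)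

lemma LL.to_mul_left {v k z : L} (hv : LL v k) (hz : LL z k) : LL z (v * k) := by
  intro n
  by_contra hcon
  rw [not_lt] at hcon
  have key : ∀ m : L, |v|ₘ ≤ m → |z|ₘ ^ n ≤ m → m * m < |k|ₘ → False := by
    intro m h1 h2 h3
    have h4 : |v⁻¹ * (v * k)|ₘ ≤ m * m := by
      apply ab_mul_le
      · rw [mabs_inv]; exact h1
      · exact hcon.trans h2
    rw [inv_mul_cancel_left] at h4
    exact absurd (h3.trans_le h4) (lt_irrefl _)
  rcases le_total |v|ₘ (|z|ₘ ^ n) with h | h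
  · refine key _ h le_rfl ?_
    rw [← pow_add]
    exact hz _
  · exact key _ le_rfl h hv.two

lemma LL.one_lt_mul {v k : L} (hv : LL v k) (hk : 1 < k) : 1 < v * k := by
  have h1 : v⁻¹ < k := by
    calc v⁻¹ ≤ |v|ₘ := inv_le_mabs v
      _ < |k|ₘ := hv.lt
      _ = k := mabs_of_one_le hk.le
  calc (1 : L) = v * v⁻¹ := (mul_inv_cancel v).symm
    _ < v * k := mul_lt_mul_right h1 v

lemma LL.between {a b x k : L} (h1 : a ≤ x) (h2 : x ≤ b) (ha : LL a k) (hb : LL b k) :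
    LL x k := by
  rcases le_total 1 x with h | h
  · apply hb.of_abs_le
    rw [mabs_of_one_le h, mabs_of_one_le (h.trans h2)]
    exact h2
  · apply ha.of_abs_le
    rw [mabs_of_le_one h, mabs_of_le_one (h1.trans h)]
    exact inv_le_inv_iff.mpr h1


/-! ### The group of tame equivariant bijections -/

def tau (f : L ≃o L) (w : L) : L := f w * w⁻¹

lemma tau_mul_self (f : L ≃o L) (w : L) : tau f w * w = f w := by
  unfold tau; group

structure IsG (S : Subgroup L) (f : L ≃o L) : Prop where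
  eqv : ∀ w s, s ∈ S → f (w * s) = f w * s
  tame : ∀ w v, w ≠ v → LL ((tau f w)⁻¹ * tau f v) (v * w⁻¹)
  bdd : ∃ k : L, ∀ w, f w ≠ w → ∃ s ∈ S, |w * s|ₘ ≤ k

lemma ne_inv_ne {v w : L} (h : w ≠ v) : v * w⁻¹ ≠ 1 := by
  intro h1
  exact h (mul_inv_eq_one.mp h1).symm

lemma IsG.one (S : Subgroup L) : IsG S (1 : L ≃o L) where
  eqv := fun w s _ => rfl
  tame := fun w v h => by
    have : (tau (1 : L ≃o L) w)⁻¹ * tau (1 : L ≃o L) v = 1 := by
      simp [tau]
    rw [this]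
    exact LL_one (ne_inv_ne h)
  bdd := ⟨1, fun w h => absurd rfl h⟩

lemma tau_mul (f g : L ≃o L) (w : L) : tau (f * g) w = tau f (g w) * tau g w := by
  unfold tau
  rw [RelIso.mul_apply]
  group

lemma IsG.mul {S : Subgroup L} {f g : L ≃o L} (hf : IsG S f) (hg : IsG S g) :
    IsG S (f * g) where
  eqv := fun w s hs => by
    rw [RelIso.mul_apply, RelIso.mul_apply, hg.eqv w s hs, hf.eqv _ s hs]
  tame := fun w v h => by
    have hne : g w ≠ g v := fun h1 => h (g.injective h1)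
    have h1 := hg.tame w v h
    have h2 := hf.tame (g w) (g v) hne
    rw [tau_mul, tau_mul]
    have h3 : LL ((tau g w)⁻¹ * ((tau f (g w))⁻¹ * tau f (g v)) * (tau g w)⁻¹⁻¹) (((tau g w)⁻¹ * tau g v) * (v * w⁻¹)) := by
      have h4 := h2.conj (tau g w)⁻¹
      have h5 : (tau g w)⁻¹ * (g v * (g w)⁻¹) * (tau g w)⁻¹⁻¹ =
          ((tau g w)⁻¹ * tau g v) * (v * w⁻¹) := by
        unfold tau; group
      rw [h5] at h4
      exact h4
    have h6 := h1.of_mul_left h3
    have h7 := h6.mul h1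
    have h8 : (tau g w)⁻¹ * ((tau f (g w))⁻¹ * tau f (g v)) * (tau g w)⁻¹⁻¹ *
        ((tau g w)⁻¹ * tau g v) = (tau f (g w) * tau g w)⁻¹ * (tau f (g v) * tau g v) := by
      group
    rwa [h8] at h7
  bdd := by
    obtain ⟨k, hk⟩ := hf.bdd
    obtain ⟨l, hl⟩ := hg.bdd
    refine ⟨k ⊔ l, fun w hw => ?_⟩
    by_cases h1 : g w = w
    · rw [RelIso.mul_apply, h1] at hw
      obtain ⟨s, hs, h⟩ := hk w hw
      exact ⟨s, hs, h.trans le_sup_left⟩
    · obtain ⟨s, hs, h⟩ := hl w h1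
      exact ⟨s, hs, h.trans le_sup_right⟩

lemma tau_inv (f : L ≃o L) (w : L) : tau f⁻¹ (f w) = (tau f w)⁻¹ := by
  unfold tau
  rw [RelIso.inv_apply_self]
  group

lemma IsG.inv {S : Subgroup L} {f : L ≃o L} (hf : IsG S f) : IsG S f⁻¹ where
  eqv := fun w s hs => by
    apply f.injective
    rw [RelIso.apply_inv_self, hf.eqv _ s hs, RelIso.apply_inv_self]
  tame := fun w v h => by
    obtain ⟨w', rfl⟩ := f.surjective w
    obtain ⟨v', rfl⟩ := f.surjective v
    have hne : w' ≠ v' := fun h1 => h (by rw [h1])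
    rw [tau_inv, tau_inv]
    have h1 := hf.tame w' v' hne
    have h2 := h1.to_mul_left h1.inv
    have h3 := h2.conj (tau f w')
    have h4 : tau f w' * ((tau f w')⁻¹ * tau f v')⁻¹ * (tau f w')⁻¹ =
        (tau f w')⁻¹⁻¹ * (tau f v')⁻¹ := by group
    have h5 : tau f w' * ((tau f w')⁻¹ * tau f v' * (v' * w'⁻¹)) * (tau f w')⁻¹ =
        f v' * (f w')⁻¹ := by
      unfold tau; group
    rwa [h4, h5] at h3
  bdd := by
    obtain ⟨k, hk⟩ := hf.bdd
    refine ⟨k, fun w hw => hk w fun h => hw ?_⟩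
    apply f.injective
    rw [RelIso.apply_inv_self, h]

/-- pointwise supremum of order automorphisms -/
def osup (f g : L ≃o L) : L ≃o L :=
  StrictMono.orderIsoOfRightInverse (fun x => f x ⊔ g x)
    (fun x y h => max_lt_max (f.strictMono h) (g.strictMono h))
    (fun x => f⁻¹ x ⊓ g⁻¹ x)
    (fun x => by
      show f (f⁻¹ x ⊓ g⁻¹ x) ⊔ g (f⁻¹ x ⊓ g⁻¹ x) = x
      rw [f.map_inf, g.map_inf, RelIso.apply_inv_self, RelIso.apply_inv_self]
      rcases le_total (f⁻¹ x) (g⁻¹ x) with h | h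
      · have h1 : x ≤ f (g⁻¹ x) := by
          have := f.monotone h
          rwa [RelIso.apply_inv_self] at this
        rw [inf_eq_left.mpr h1]
        exact sup_eq_left.mpr inf_le_right
      · have h1 : x ≤ g (f⁻¹ x) := by
          have := g.monotone h
          rwa [RelIso.apply_inv_self] at this
        rw [inf_eq_right.mpr h1]
        exact sup_eq_right.mpr inf_le_left)

lemma osup_apply (f g : L ≃o L) (x : L) : osup f g x = f x ⊔ g x := rfl

lemma tau_osup (f g : L ≃o L) (x : L) : tau (osup f g) x = tau f x ⊔ tau g x := by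
  unfold tau
  rw [osup_apply]
  rcases le_total (f x) (g x) with h | h
  · rw [sup_eq_right.mpr h, sup_eq_right.mpr (mul_le_mul_left h _)]
  · rw [sup_eq_left.mpr h, sup_eq_left.mpr (mul_le_mul_left h _)]

lemma IsG.sup_aux {a a' b b' k : L} (h1 : LL (a⁻¹ * a') k) (h2 : LL (b⁻¹ * b') k)
    (hab : b ≤ a) : LL ((a ⊔ b)⁻¹ * (a' ⊔ b')) k := by
  rw [sup_eq_left.mpr hab]
  rcases le_total b' a' with h | h
  · rw [sup_eq_left.mpr h]; exact h1
  · rw [sup_eq_right.mpr h]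
    refine LL.between (mul_le_mul_right h _) ?_ h1 h2
    exact mul_le_mul_left (inv_le_inv_iff.mpr hab) _

lemma IsG.sup {S : Subgroup L} {f g : L ≃o L} (hf : IsG S f) (hg : IsG S g) :
    IsG S (osup f g) where
  eqv := fun w s hs => by
    rw [osup_apply, osup_apply, hf.eqv w s hs, hg.eqv w s hs]
    rcases le_total (f w) (g w) with h | h
    · rw [sup_eq_right.mpr h, sup_eq_right.mpr (mul_le_mul_left h _)]
    · rw [sup_eq_left.mpr h, sup_eq_left.mpr (mul_le_mul_left h _)]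
  tame := fun w v h => by
    rw [tau_osup, tau_osup]
    rcases le_total (tau g w) (tau f w) with hc | hc
    · exact IsG.sup_aux (hf.tame w v h) (hg.tame w v h) hc
    · rw [sup_comm (tau f w), sup_comm (tau f v)]
      exact IsG.sup_aux (hg.tame w v h) (hf.tame w v h) hc
  bdd := by
    obtain ⟨k, hk⟩ := hf.bdd
    obtain ⟨l, hl⟩ := hg.bdd
    refine ⟨k ⊔ l, fun w hw => ?_⟩
    by_cases h1 : g w = w
    · have h2 : f w ≠ w := by
        intro h2
        apply hw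
        rw [osup_apply, h1, h2, sup_idem]
      obtain ⟨s, hs, h⟩ := hk w h2
      exact ⟨s, hs, h.trans le_sup_left⟩
    · obtain ⟨s, hs, h⟩ := hl w h1
      exact ⟨s, hs, h.trans le_sup_right⟩

def gSub (S : Subgroup L) : Subgroup (L ≃o L) where
  carrier := {f | IsG S f}
  mul_mem' := fun hf hg => hf.mul hg
  one_mem' := IsG.one S
  inv_mem' := fun hf => hf.inv

def GG (S : Subgroup L) : Type := gSub S

noncomputable instance (S : Subgroup L) : Group (GG S) := inferInstanceAs (Group (gSub S))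

namespace GG
variable {S : Subgroup L}

def ap (f : GG S) (x : L) : L := f.1 x

lemma ext {f g : GG S} (h : ∀ x, f.ap x = g.ap x) : f = g :=
  Subtype.ext (RelIso.ext h)

lemma ap_mul (f g : GG S) (x : L) : (f * g).ap x = f.ap (g.ap x) := rfl
lemma ap_one (x : L) : (1 : GG S).ap x = x := rfl
lemma ap_inv_ap (f : GG S) (x : L) : (f⁻¹).ap (f.ap x) = x := by
  rw [← ap_mul, inv_mul_cancel, ap_one]
lemma ap_ap_inv (f : GG S) (x : L) : f.ap ((f⁻¹).ap x) = x := by
  rw [← ap_mul, mul_inv_cancel, ap_one]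
lemma ap_strictMono (f : GG S) : StrictMono f.ap := f.1.strictMono
lemma ap_mono (f : GG S) {x y : L} (h : x ≤ y) : f.ap x ≤ f.ap y := f.1.monotone h
lemma ap_inj (f : GG S) {x y : L} (h : f.ap x = f.ap y) : x = y := f.1.injective h

def t (f : GG S) (x : L) : L := tau f.1 x
lemma t_mul_self (f : GG S) (x : L) : f.t x * x = f.ap x := tau_mul_self _ _
lemma t_def (f : GG S) (x : L) : f.t x = f.ap x * x⁻¹ := rfl
lemma isG (f : GG S) : IsG S f.1 := f.2
lemma eqv (f : GG S) (w : L) {s : L} (hs : s ∈ S) : f.ap (w * s) = f.ap w * s :=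
  f.2.eqv w s hs
lemma t_eqv (f : GG S) (w : L) {s : L} (hs : s ∈ S) : f.t (w * s) = f.t w := by
  rw [t_def, t_def, f.eqv w hs]; group
lemma tame (f : GG S) {w v : L} (h : w ≠ v) : LL ((f.t w)⁻¹ * f.t v) (v * w⁻¹) :=
  f.2.tame w v h

noncomputable instance : PartialOrder (GG S) where
  le f g := ∀ x, f.ap x ≤ g.ap x
  le_refl f x := le_rfl
  le_trans f g h h1 h2 x := (h1 x).trans (h2 x)
  le_antisymm f g h1 h2 := ext fun x => le_antisymm (h1 x) (h2 x)

lemma le_def {f g : GG S} : f ≤ g ↔ ∀ x, f.ap x ≤ g.ap x := Iff.rfl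

def gsup (f g : GG S) : GG S := ⟨osup f.1 g.1, IsG.sup f.2 g.2⟩
lemma ap_gsup (f g : GG S) (x : L) : (gsup f g).ap x = f.ap x ⊔ g.ap x := rfl

lemma inv_le_inv'' {f g : GG S} (h : f ≤ g) : g⁻¹ ≤ f⁻¹ := by
  intro x
  have h1 := h ((g⁻¹).ap x)
  rw [ap_ap_inv] at h1
  have h2 := (f⁻¹).ap_mono h1
  rwa [ap_inv_ap] at h2

noncomputable instance : Lattice (GG S) where
  sup := gsup
  le_sup_left f g x := by rw [ap_gsup]; exact le_sup_left
  le_sup_right f g x := by rw [ap_gsup]; exact le_sup_right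
  sup_le f g h h1 h2 x := by rw [ap_gsup]; exact sup_le (h1 x) (h2 x)
  inf f g := (gsup f⁻¹ g⁻¹)⁻¹
  inf_le_left f g := by
    have h : f⁻¹ ≤ gsup f⁻¹ g⁻¹ := fun x => by rw [ap_gsup]; exact le_sup_left
    have := inv_le_inv'' h
    rwa [inv_inv] at this
  inf_le_right f g := by
    have h : g⁻¹ ≤ gsup f⁻¹ g⁻¹ := fun x => by rw [ap_gsup]; exact le_sup_right
    have := inv_le_inv'' h
    rwa [inv_inv] at this
  le_inf f g h h1 h2 := by
    have h3 : gsup g⁻¹ h⁻¹ ≤ f⁻¹ := fun x => by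
      rw [ap_gsup]; exact sup_le (inv_le_inv'' h1 x) (inv_le_inv'' h2 x)
    have := inv_le_inv'' h3
    rwa [inv_inv] at this

instance : MulLeftMono (GG S) := ⟨fun f _ _ h x => f.ap_mono (h x)⟩
instance : MulRightMono (GG S) := ⟨fun f _ _ h x => h (f.ap x)⟩

lemma one_lt_sub {x y : L} (h : x < y) : 1 < y * x⁻¹ := by
  calc (1 : L) = x * x⁻¹ := (mul_inv_cancel x).symm
    _ < y * x⁻¹ := mul_lt_mul_left h _

/-- construction of order automorphisms -/
def mkIso (T T' : L → L)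
    (hT : ∀ w, T (T' w * w) * T' w = 1)
    (htame : ∀ w v, w ≠ v → LL ((T w)⁻¹ * T v) (v * w⁻¹)) : L ≃o L :=
  StrictMono.orderIsoOfRightInverse (fun x => T x * x)
    (fun x y h => by
      have h1 := (htame x y h.ne).one_lt_mul (one_lt_sub h)
      have h2 : T x * ((T x)⁻¹ * T y * (y * x⁻¹)) * x = T y * y := by group
      calc T x * x = T x * 1 * x := by group
        _ < T x * ((T x)⁻¹ * T y * (y * x⁻¹)) * x :=
          mul_lt_mul_left (mul_lt_mul_right h1 _) _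
        _ = T y * y := h2)
    (fun x => T' x * x)
    (fun x => by
      show T (T' x * x) * (T' x * x) = x
      rw [← mul_assoc, hT, one_mul])

lemma tau_mkIso {T T' : L → L} (hT : ∀ w, T (T' w * w) * T' w = 1)
    (htame : ∀ w v, w ≠ v → LL ((T w)⁻¹ * T v) (v * w⁻¹)) (x : L) :
    tau (mkIso T T' hT htame) x = T x := by
  show T x * x * x⁻¹ = T x
  group

/-- construction of elements -/
def mkG (S : Subgroup L) (T T' : L → L)
    (hT : ∀ w, T (T' w * w) * T' w = 1)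
    (htame : ∀ w v, w ≠ v → LL ((T w)⁻¹ * T v) (v * w⁻¹))
    (heq : ∀ w s, s ∈ S → T (w * s) = T w)
    (hbdd : ∃ k : L, ∀ w, T w ≠ 1 → ∃ s ∈ S, |w * s|ₘ ≤ k) : GG S :=
  ⟨mkIso T T' hT htame,
   { eqv := fun w s hs => by
       show T (w * s) * (w * s) = T w * w * s
       rw [heq w s hs]; group
     tame := fun w v h => by
       rw [tau_mkIso, tau_mkIso]
       exact htame w v h
     bdd := by
       obtain ⟨k, hk⟩ := hbdd
       refine ⟨k, fun w hw => hk w fun h => hw ?_⟩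
       show T w * w = w
       rw [h, one_mul] }⟩

lemma t_mkG {S : Subgroup L} {T T' : L → L} (hT : ∀ w, T (T' w * w) * T' w = 1)
    (htame : ∀ w v, w ≠ v → LL ((T w)⁻¹ * T v) (v * w⁻¹))
    (heq : ∀ w s, s ∈ S → T (w * s) = T w)
    (hbdd : ∃ k : L, ∀ w, T w ≠ 1 → ∃ s ∈ S, |w * s|ₘ ≤ k) (x : L) :
    (mkG S T T' hT htame heq hbdd).t x = T x := tau_mkIso hT htame x

/-! ### localised translations -/

/-- the convex subgroup generated by `k ≥ 1` -/
def Cv (k : L) (hk : 1 ≤ k) : Subgroup L where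
  carrier := {x | ∃ n : ℕ, |x|ₘ ≤ k ^ n}
  one_mem' := ⟨0, by simp⟩
  mul_mem' := by
    rintro x y ⟨n, hn⟩ ⟨m, hm⟩
    refine ⟨(n + m) + (n + m), ?_⟩
    rw [pow_add]
    exact ab_mul_le (hn.trans (pow_le_pow_right' hk (Nat.le_add_right n m)))
      (hm.trans (pow_le_pow_right' hk (Nat.le_add_left m n)))
  inv_mem' := by
    rintro x ⟨n, hn⟩
    exact ⟨n, by rw [mabs_inv]; exact hn⟩

lemma mem_Cv {k : L} (hk : 1 ≤ k) {x : L} : x ∈ Cv k hk ↔ ∃ n : ℕ, |x|ₘ ≤ k ^ n := Iff.rfl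

lemma mem_Cv_of_le {k : L} (hk : 1 ≤ k) {x : L} (h : |x|ₘ ≤ k) : x ∈ Cv k hk :=
  ⟨1, by rwa [pow_one]⟩

/-- `w` lies in `C(k) S` -/
def InCS (S : Subgroup L) (k : L) (hk : 1 ≤ k) (w : L) : Prop := ∃ s ∈ S, w * s ∈ Cv k hk

lemma InCS.mul_right {S : Subgroup L} {k : L} {hk : 1 ≤ k} {w s : L} (hs : s ∈ S) :
    InCS S k hk (w * s) ↔ InCS S k hk w := by
  constructor
  · rintro ⟨r, hr, h⟩
    exact ⟨s * r, S.mul_mem hs hr, by rwa [← mul_assoc]⟩
  · rintro ⟨r, hr, h⟩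
    exact ⟨s⁻¹ * r, S.mul_mem (S.inv_mem hs) hr, by
      have : w * s * (s⁻¹ * r) = w * r := by group
      rwa [this]⟩

lemma InCS.mul_left {S : Subgroup L} {k : L} {hk : 1 ≤ k} {w c : L} (hc : c ∈ Cv k hk) :
    InCS S k hk (c * w) ↔ InCS S k hk w := by
  constructor
  · rintro ⟨r, hr, h⟩
    refine ⟨r, hr, ?_⟩
    have h2 := (Cv k hk).mul_mem ((Cv k hk).inv_mem hc) h
    have : c⁻¹ * (c * w * r) = w * r := by group
    rwa [this] at h2
  · rintro ⟨r, hr, h⟩
    refine ⟨r, hr, ?_⟩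
    have h2 := (Cv k hk).mul_mem hc h
    rwa [← mul_assoc] at h2

open Classical in
/-- left multiplication by `c` on `C(k) S`, identity elsewhere -/
noncomputable def locT (S : Subgroup L) (k : L) (hk : 1 ≤ k) (c : L) (w : L) : L :=
  if InCS S k hk w then c else 1

lemma locT_pos {S : Subgroup L} {k : L} {hk : 1 ≤ k} {c w : L} (h : InCS S k hk w) :
    locT S k hk c w = c := if_pos h
lemma locT_neg {S : Subgroup L} {k : L} {hk : 1 ≤ k} {c w : L} (h : ¬ InCS S k hk w) :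
    locT S k hk c w = 1 := if_neg h

lemma loc_inv (S : Subgroup L) (k : L) (hk : 1 ≤ k) (c : L) (hc : c ∈ Cv k hk) (w : L) :
    locT S k hk c (locT S k hk c⁻¹ w * w) * locT S k hk c⁻¹ w = 1 := by
  by_cases h : InCS S k hk w
  · rw [locT_pos h, locT_pos ((InCS.mul_left ((Cv k hk).inv_mem hc)).mpr h), mul_inv_cancel]
  · rw [locT_neg h, one_mul, locT_neg h, one_mul]

lemma LL_of_notMem {k : L} {hk : 1 ≤ k} {c x : L} (hc : c ∈ Cv k hk) (hx : x ∉ Cv k hk) :
    LL c x := by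
  intro n
  by_contra h
  rw [not_lt] at h
  obtain ⟨m, hm⟩ := hc
  apply hx
  refine ⟨m * n, h.trans ?_⟩
  rw [pow_mul]
  exact pow_le_pow_left' hm n

lemma loc_tame (S : Subgroup L) (k : L) (hk : 1 ≤ k) (c : L) (hc : c ∈ Cv k hk) (w v : L)
    (hne : w ≠ v) : LL ((locT S k hk c w)⁻¹ * locT S k hk c v) (v * w⁻¹) := by
  have h1 := ne_inv_ne hne
  by_cases hw : InCS S k hk w <;> by_cases hv : InCS S k hk v
  · rw [locT_pos hw, locT_pos hv, inv_mul_cancel]; exact LL_one h1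
  · rw [locT_pos hw, locT_neg hv, mul_one]
    refine LL_of_notMem ((Cv k hk).inv_mem hc) fun h => hv ?_
    have := (InCS.mul_left (S := S) (w := w) h).mpr hw
    have h2 : v * w⁻¹ * w = v := by group
    rwa [h2] at this
  · rw [locT_neg hw, locT_pos hv, inv_one, one_mul]
    refine LL_of_notMem hc fun h => hw ?_
    have := (InCS.mul_left (S := S) (w := w) h).mp (by
      have h2 : v * w⁻¹ * w = v := by group
      rwa [h2])
    exact this
  · rw [locT_neg hw, locT_neg hv, inv_one, one_mul]; exact LL_one h1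

/-- there is an upper bound for `C(k)` -/
def Unb (L : Type) [Group L] [LinearOrder L] : Prop := ∀ k : L, ∃ l : L, LL k l

noncomputable def loc (S : Subgroup L) (hU : Unb L) (k : L) (hk : 1 ≤ k) (c : L)
    (hc : c ∈ Cv k hk) : GG S :=
  mkG S (locT S k hk c) (locT S k hk c⁻¹) (loc_inv S k hk c hc) (loc_tame S k hk c hc)
    (fun w s hs => by
      by_cases h : InCS S k hk w
      · rw [locT_pos h, locT_pos ((InCS.mul_right hs).mpr h)]
      · rw [locT_neg h, locT_neg fun h2 => h ((InCS.mul_right hs).mp h2)])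
    (by
      obtain ⟨l, hl⟩ := hU k
      refine ⟨|l|ₘ, fun w hw => ?_⟩
      have h : InCS S k hk w := by
        by_contra h
        exact hw (locT_neg h)
      obtain ⟨s, hs, n, hn⟩ := h
      refine ⟨s, hs, hn.trans ?_⟩
      have := hl n
      rw [mabs_of_one_le hk] at this
      exact this.le)

lemma t_loc (S : Subgroup L) (hU : Unb L) (k : L) (hk : 1 ≤ k) (c : L)
    (hc : c ∈ Cv k hk) (w : L) : (loc S hU k hk c hc).t w = locT S k hk c w := t_mkG _ _ _ _ w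

lemma ap_loc_pos {S : Subgroup L} (hU : Unb L) {k : L} (hk : 1 ≤ k) {c : L}
    (hc : c ∈ Cv k hk) {w : L} (h : InCS S k hk w) : (loc S hU k hk c hc).ap w = c * w := by
  rw [← t_mul_self, t_loc, locT_pos h]

lemma ap_loc_neg {S : Subgroup L} (hU : Unb L) {k : L} (hk : 1 ≤ k) {c : L}
    (hc : c ∈ Cv k hk) {w : L} (h : ¬ InCS S k hk w) : (loc S hU k hk c hc).ap w = w := by
  rw [← t_mul_self, t_loc, locT_neg h, one_mul]

lemma ap_loc_inv_pos {S : Subgroup L} (hU : Unb L) {k : L} (hk : 1 ≤ k) {c : L}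
    (hc : c ∈ Cv k hk) {w : L} (h : InCS S k hk w) : ((loc S hU k hk c hc)⁻¹).ap w = c⁻¹ * w := by
  apply (loc S hU k hk c hc).ap_inj
  rw [ap_ap_inv, ap_loc_pos hU hk hc ((InCS.mul_left ((Cv k hk).inv_mem hc)).mpr h)]
  group

lemma ap_loc_inv_neg {S : Subgroup L} (hU : Unb L) {k : L} (hk : 1 ≤ k) {c : L}
    (hc : c ∈ Cv k hk) {w : L} (h : ¬ InCS S k hk w) :
    ((loc S hU k hk c hc)⁻¹).ap w = w := by
  apply (loc S hU k hk c hc).ap_inj
  rw [ap_ap_inv, ap_loc_neg hU hk hc h]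


/-! ### simplicity -/

lemma conj_pow_le {S : Subgroup L} {k u : L} (hk : 1 ≤ k) (hk' : 1 ≤ u * k * u⁻¹) {x : L} :
    u * x * u⁻¹ ∈ Cv (u * k * u⁻¹) hk' ↔ x ∈ Cv k hk := by
  rw [mem_Cv, mem_Cv]
  have h : ∀ n : ℕ, |u * x * u⁻¹|ₘ ≤ (u * k * u⁻¹) ^ n ↔ |x|ₘ ≤ k ^ n := by
    intro n
    rw [ab_conj, conj_pow, mul_le_mul_iff_right, mul_le_mul_iff_left]
  simp only [h]

theorem simple (S : Subgroup L) (hU : Unb L)
    (h1 : ∀ k k₃ : L, 1 < k → ∃ u ∈ S, k₃ ≤ u * k * u⁻¹)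
    (h3 : ∀ c : L, 1 < c → ∃ k, 1 < k ∧ LL k c)
    (J : Subgroup (GG S)) (hn : J.Normal)
    (hc : ∀ a b g : GG S, a ∈ J → b ∈ J → a ≤ g → g ≤ b → g ∈ J)
    (hs : ∀ a b : GG S, a ∈ J → b ∈ J → a ⊔ b ∈ J ∧ a ⊓ b ∈ J) : J = ⊥ ∨ J = ⊤ := by
  by_cases hJ : J = ⊥
  · exact Or.inl hJ
  right
  -- a strictly positive element of J
  obtain ⟨⟨a0, ha0⟩, hne⟩ := (Subgroup.ne_bot_iff_exists_ne_one).mp hJ
  have hne0 : a0 ≠ 1 := fun h => hne (Subtype.ext h)
  obtain ⟨a, haJ, w0, haw⟩ : ∃ a : GG S, a ∈ J ∧ ∃ w0, w0 < a.ap w0 := by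
    by_contra hcon
    push Not at hcon
    apply hne0
    apply ext
    intro x
    rw [ap_one]
    refine le_antisymm (hcon a0 ha0 x) ?_
    have := hcon a0⁻¹ (J.inv_mem ha0) (a0.ap x)
    rwa [ap_inv_ap] at this
  -- replace by positive part
  obtain ⟨a, haJ, ha1, haw⟩ : ∃ a : GG S, a ∈ J ∧ 1 ≤ a ∧ w0 < a.ap w0 := by
    refine ⟨a ⊔ 1, (hs a 1 haJ J.one_mem).1, le_sup_right, ?_⟩
    have h2 : a ≤ a ⊔ 1 := le_sup_left
    exact haw.trans_le (h2 w0)
  -- move w0 to 1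
  obtain ⟨a, haJ, ha1, haw⟩ : ∃ a : GG S, a ∈ J ∧ 1 ≤ a ∧ 1 < a.ap 1 := by
    have hk : 1 ≤ |w0|ₘ := one_le_ab w0
    have hmem : w0⁻¹ ∈ Cv |w0|ₘ hk := mem_Cv_of_le hk (by rw [mabs_inv])
    have hin : InCS S |w0|ₘ hk w0 := ⟨1, S.one_mem, by
      rw [mul_one]; exact mem_Cv_of_le hk le_rfl⟩
    set h := loc S hU |w0|ₘ hk w0⁻¹ hmem with hh
    have e1 : h.ap w0 = 1 := by
      rw [hh, ap_loc_pos hU hk hmem hin]; group
    have e2 : (h⁻¹).ap 1 = w0 := by
      rw [← e1, ap_inv_ap]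
    refine ⟨h * a * h⁻¹, hn.conj_mem a haJ h, ?_, ?_⟩
    · intro x
      rw [ap_mul, ap_mul, ap_one]
      have := h.ap_mono (ha1 ((h⁻¹).ap x))
      rwa [ap_one, ap_ap_inv] at this
    · rw [ap_mul, ap_mul, e2]
      have := h.ap_strictMono haw
      rwa [e1] at this
  have htc : a.t 1 = a.ap 1 := by rw [t_def]; group
  obtain ⟨k, hk1, hkc⟩ := h3 (a.ap 1) haw
  have hk := hk1.le
  have hkm : k ∈ Cv k hk := mem_Cv_of_le hk (by rw [mabs_of_one_le hk])
  have hlocJ : loc S hU k hk k hkm ∈ J := by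
    refine hc 1 a _ J.one_mem haJ ?_ ?_
    · intro x
      rw [ap_one]
      by_cases hx : InCS S k hk x
      · rw [ap_loc_pos hU hk hkm hx]
        exact le_mul_of_one_le_left' hk
      · rw [ap_loc_neg hU hk hkm hx]
    · intro x
      by_cases hx : InCS S k hk x
      · rw [ap_loc_pos hU hk hkm hx, ← t_mul_self]
        apply mul_le_mul_left
        obtain ⟨s, hsS, n, hn⟩ := hx
        rw [← a.t_eqv x hsS]
        by_cases hy : (1 : L) = x * s
        · rw [← hy, htc]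
          have := hkc.lt
          rw [mabs_of_one_le hk, mabs_of_one_le haw.le] at this
          exact this.le
        · have h2 := a.tame hy
          rw [htc, inv_one, mul_one] at h2
          have h4 : ((a.ap 1)⁻¹ * a.t (x * s))⁻¹ ≤ k ^ n :=
            (inv_le_mabs _).trans (h2.lt.le.trans hn)
          have h5 : k ^ (n + 1) < a.ap 1 := by
            have := hkc (n + 1)
            rwa [mabs_of_one_le hk, mabs_of_one_le haw.le] at this
          have h6 : k * (k ^ n) < a.ap 1 := by rwa [← pow_succ']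
          have h7 : k * ((a.ap 1)⁻¹ * a.t (x * s))⁻¹ ≤ a.ap 1 :=
            (mul_le_mul_right h4 k).trans h6.le
          have h8 := mul_le_mul_left h7 ((a.ap 1)⁻¹ * a.t (x * s))
          rw [inv_mul_cancel_right, mul_inv_cancel_left] at h8
          exact h8
      · rw [ap_loc_neg hU hk hkm hx]
        exact ha1 x
  -- domination of every element
  have hdom : ∀ b : GG S, ∃ j ∈ J, b ≤ j := by
    intro b
    obtain ⟨k1, hk1b⟩ := b.isG.bdd
    obtain ⟨u, huS, hu⟩ := h1 k (|b.t 1|ₘ * (k1 ⊔ 1) * 1) hk1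
    set k' := u * k * u⁻¹ with hk'
    have hm : |b.t 1|ₘ * (k1 ⊔ 1) ≤ k' := by rwa [mul_one] at hu
    have hk'1 : 1 ≤ k' := by
      refine le_trans ?_ hm
      exact one_le_mul (one_le_ab _) le_sup_right
    have hk1' : k1 ≤ k' := by
      refine le_trans ?_ hm
      calc k1 ≤ k1 ⊔ 1 := le_sup_left
        _ ≤ |b.t 1|ₘ * (k1 ⊔ 1) := le_mul_of_one_le_left' (one_le_ab _)
    have hk'm : k' ∈ Cv k' hk'1 := mem_Cv_of_le hk'1 (by rw [mabs_of_one_le hk'1])
    -- the conjugator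
    have hm4 : 1 ≤ |u|ₘ ⊔ k := hk.trans le_sup_right
    have hu4 : u ∈ Cv (|u|ₘ ⊔ k) hm4 := mem_Cv_of_le hm4 le_sup_left
    have hk4 : k ∈ Cv (|u|ₘ ⊔ k) hm4 := mem_Cv_of_le hm4 (by
      rw [mabs_of_one_le hk]; exact le_sup_right)
    have hsub : ∀ x, x ∈ Cv k hk → x ∈ Cv (|u|ₘ ⊔ k) hm4 := by
      rintro x ⟨n, hn⟩
      exact ⟨n, hn.trans (pow_le_pow_left' le_sup_right n)⟩
    set h := loc S hU (|u|ₘ ⊔ k) hm4 u hu4 with hh
    have hconj : h * loc S hU k hk k hkm * h⁻¹ = loc S hU k' hk'1 k' hk'm := by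
      apply ext
      intro x
      rw [ap_mul, ap_mul]
      by_cases hx : InCS S (|u|ₘ ⊔ k) hm4 x
      · rw [hh, ap_loc_inv_pos hU hm4 hu4 hx]
        by_cases hx2 : InCS S k hk (u⁻¹ * x)
        · have hx3 : InCS S k' hk'1 x := by
            obtain ⟨s, hsS, h5⟩ := hx2
            refine ⟨s * u⁻¹, S.mul_mem hsS (S.inv_mem huS), ?_⟩
            have h6 := (conj_pow_le (S := S) hk hk'1).mpr h5
            have h7 : u * (u⁻¹ * x * s) * u⁻¹ = x * (s * u⁻¹) := by group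
            rwa [h7] at h6
          rw [ap_loc_pos hU hk hkm hx2, ap_loc_pos hU hk'1 hk'm hx3, ap_loc_pos hU hm4 hu4]
          · rw [hk']; group
          · rw [InCS.mul_left hk4, InCS.mul_left ((Cv _ hm4).inv_mem hu4)]
            exact hx
        · have hx3 : ¬ InCS S k' hk'1 x := by
            rintro ⟨s, hsS, h5⟩
            apply hx2
            refine ⟨s * u, S.mul_mem hsS huS, ?_⟩
            apply (conj_pow_le (S := S) hk hk'1).mp
            have h7 : u * (u⁻¹ * x * (s * u)) * u⁻¹ = x * s := by group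
            rwa [h7]
          rw [ap_loc_neg hU hk hkm hx2, ap_loc_neg hU hk'1 hk'm hx3, ap_loc_pos hU hm4 hu4]
          · group
          · rw [InCS.mul_left ((Cv _ hm4).inv_mem hu4)]
            exact hx
      · rw [hh, ap_loc_inv_neg hU hm4 hu4 hx]
        have hx2 : ¬ InCS S k hk x := by
          rintro ⟨s, hsS, h5⟩
          exact hx ⟨s, hsS, hsub _ h5⟩
        have hx3 : ¬ InCS S k' hk'1 x := by
          rintro ⟨s, hsS, h5⟩
          apply hx
          refine ⟨s * u, S.mul_mem hsS huS, ?_⟩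
          have h6 : u⁻¹ * (x * s) * u ∈ Cv k hk := by
            apply (conj_pow_le (S := S) hk hk'1).mp
            have h7 : u * (u⁻¹ * (x * s) * u) * u⁻¹ = x * s := by group
            rwa [h7]
          have h8 := (Cv _ hm4).mul_mem hu4 (hsub _ h6)
          have h9 : u * (u⁻¹ * (x * s) * u) = x * (s * u) := by group
          rwa [h9] at h8
        rw [ap_loc_neg hU hk hkm hx2, ap_loc_neg hU hk'1 hk'm hx3, ap_loc_neg hU hm4 hu4 hx]
    refine ⟨loc S hU k' hk'1 k' hk'm, ?_, ?_⟩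
    · rw [← hconj]
      exact hn.conj_mem _ hlocJ h
    · intro x
      by_cases hbx : b.ap x = x
      · rw [hbx]
        by_cases hx : InCS S k' hk'1 x
        · rw [ap_loc_pos hU hk'1 hk'm hx]
          exact le_mul_of_one_le_left' hk'1
        · rw [ap_loc_neg hU hk'1 hk'm hx]
      · obtain ⟨s, hsS, hxs⟩ := hk1b x hbx
        have hx : InCS S k' hk'1 x := ⟨s, hsS, mem_Cv_of_le hk'1 (hxs.trans hk1')⟩
        rw [ap_loc_pos hU hk'1 hk'm hx, ← t_mul_self]
        apply mul_le_mul_left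
        rw [← b.t_eqv x hsS]
        refine le_trans ?_ hm
        by_cases hy : (1 : L) = x * s
        · rw [← hy]
          calc b.t 1 ≤ |b.t 1|ₘ := le_mabs_self _
            _ ≤ |b.t 1|ₘ * (k1 ⊔ 1) := le_mul_of_one_le_right' le_sup_right
        · have h2 := b.tame hy
          rw [inv_one, mul_one] at h2
          calc b.t (x * s) = b.t 1 * ((b.t 1)⁻¹ * b.t (x * s)) := by group
            _ ≤ |b.t 1|ₘ * |(b.t 1)⁻¹ * b.t (x * s)|ₘ :=
              mul_le_mul' (le_mabs_self _) (le_mabs_self _)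
            _ ≤ |b.t 1|ₘ * (k1 ⊔ 1) :=
              mul_le_mul_right (h2.lt.le.trans (hxs.trans le_sup_left)) _
  rw [eq_top_iff]
  intro b _
  obtain ⟨j, hj, hbj⟩ := hdom b
  obtain ⟨j', hj', hbj'⟩ := hdom b⁻¹
  refine hc j'⁻¹ j b (J.inv_mem hj') hj ?_ hbj
  have := inv_le_inv'' hbj'
  rwa [inv_inv] at this

end GG

end OGroup

/-! ### The concrete totally ordered group -/

/-- tame maps `(x, n) ↦ (s x, n + b x)` of `ℝ × ℤ` -/
structure TL where
  s : ℝ ≃o ℝ
  b : ℝ → ℤ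
  tm : ∀ x, ∃ e : ℤ, ∃ z, z < x ∧ ∀ y, z < y → y < x →
    s y = s x - (2 : ℝ) ^ e * (x - y) ∧ b y = 0
  tp : ∃ T, ∀ x, T < x → s x = x ∧ b x = 0

namespace TL

def IsExp (s : ℝ ≃o ℝ) (b : ℝ → ℤ) (x : ℝ) (e : ℤ) : Prop :=
  ∃ z, z < x ∧ ∀ y, z < y → y < x → s y = s x - (2 : ℝ) ^ e * (x - y) ∧ b y = 0

lemma ext' {f g : TL} (h1 : ∀ x, f.s x = g.s x) (h2 : ∀ x, f.b x = g.b x) : f = g := by
  obtain ⟨s, b, _, _⟩ := f
  obtain ⟨s', b', _, _⟩ := g
  have e1 : s = s' := RelIso.ext h1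
  have e2 : b = b' := funext h2
  subst e1 e2
  rfl

lemma IsExp.unique {s : ℝ ≃o ℝ} {b : ℝ → ℤ} {x : ℝ} {e e' : ℤ} (h : IsExp s b x e)
    (h' : IsExp s b x e') : e = e' := by
  obtain ⟨z, hz, h⟩ := h
  obtain ⟨z', hz', h'⟩ := h'
  obtain ⟨y, hy1, hy2⟩ := exists_between (max_lt hz hz')
  have h1 := (h y ((le_max_left _ _).trans_lt hy1) hy2).1
  have h2 := (h' y ((le_max_right _ _).trans_lt hy1) hy2).1
  have h3 : (2 : ℝ) ^ e * (x - y) = (2 : ℝ) ^ e' * (x - y) := by linarith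
  have h4 : x - y ≠ 0 := by
    intro h; linarith
  have h5 := mul_right_cancel₀ h4 h3
  exact zpow_right_injective₀ (by norm_num) (by norm_num) h5

lemma IsExp.comp {s s' : ℝ ≃o ℝ} {b b' : ℝ → ℤ} {x : ℝ} {e e' : ℤ} (h : IsExp s b x e)
    (h' : IsExp s' b' (s x) e') :
    IsExp (s.trans s') (fun x => b x + b' (s x)) x (e' + e) := by
  obtain ⟨z, hz, h⟩ := h
  obtain ⟨z', hz', h'⟩ := h'
  refine ⟨max z (s.symm z'), max_lt hz (by rw [OrderIso.symm_apply_lt]; exact hz'), ?_⟩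
  intro y hy1 hy2
  have h1 := h y ((le_max_left _ _).trans_lt hy1) hy2
  have h2 : z' < s y := by
    rw [← OrderIso.symm_apply_lt]
    exact (le_max_right _ _).trans_lt hy1
  have h3 := h' (s y) h2 (s.strictMono hy2)
  simp only [OrderIso.trans_apply]
  refine ⟨?_, by rw [h1.2, h3.2, add_zero]⟩
  rw [h3.1, zpow_add₀ (by norm_num), mul_assoc]
  congr 1
  rw [h1.1]
  ring

lemma IsExp.symm {s : ℝ ≃o ℝ} {b : ℝ → ℤ} {x : ℝ} {e : ℤ} (h : IsExp s b (s.symm x) e) :
    IsExp s.symm (fun x => - b (s.symm x)) x (-e) := by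
  obtain ⟨z, hz, h⟩ := h
  refine ⟨s z, by rw [← OrderIso.lt_symm_apply]; exact hz, ?_⟩
  intro y hy1 hy2
  have h1 : z < s.symm y := by rwa [OrderIso.lt_symm_apply]
  have h2 : s.symm y < s.symm x := s.symm.strictMono hy2
  obtain ⟨h3, h4⟩ := h _ h1 h2
  refine ⟨?_, by show -b (s.symm y) = 0; rw [h4, neg_zero]⟩
  rw [s.apply_symm_apply, s.apply_symm_apply] at h3
  have h5 : (2 : ℝ) ^ (-e) * (2 : ℝ) ^ e = 1 := by
    rw [← zpow_add₀ (by norm_num)]; simp
  have h6 : (2 : ℝ) ^ (-e) * (x - y) = (s.symm x - s.symm y) := by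
    have : x - y = (2 : ℝ) ^ e * (s.symm x - s.symm y) := by linarith
    rw [this, ← mul_assoc, h5, one_mul]
  linarith

lemma isExp_one (x : ℝ) : IsExp (OrderIso.refl ℝ) (fun _ => 0) x 0 :=
  ⟨x - 1, by linarith, fun y _ _ => by simp⟩

instance : Mul TL := ⟨fun f g =>
  { s := g.s.trans f.s
    b := fun x => g.b x + f.b (g.s x)
    tm := fun x => by
      obtain ⟨e, he⟩ := g.tm x
      obtain ⟨e', he'⟩ := f.tm (g.s x)
      exact ⟨e' + e, IsExp.comp he he'⟩
    tp := by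
      obtain ⟨T, hT⟩ := g.tp
      obtain ⟨T', hT'⟩ := f.tp
      refine ⟨max T T', fun x hx => ?_⟩
      have h1 := hT x ((le_max_left _ _).trans_lt hx)
      have h2 := hT' x ((le_max_right _ _).trans_lt hx)
      simp only [OrderIso.trans_apply]
      rw [h1.1, h1.2, h2.1, h2.2]
      simp }⟩

instance : One TL := ⟨
  { s := OrderIso.refl ℝ
    b := fun _ => 0
    tm := fun x => ⟨0, isExp_one x⟩
    tp := ⟨0, fun x _ => ⟨rfl, rfl⟩⟩ }⟩

instance : Inv TL := ⟨fun f =>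
  { s := f.s.symm
    b := fun x => - f.b (f.s.symm x)
    tm := fun x => by
      obtain ⟨e, he⟩ := f.tm (f.s.symm x)
      exact ⟨-e, IsExp.symm he⟩
    tp := by
      obtain ⟨T, hT⟩ := f.tp
      refine ⟨T, fun x hx => ?_⟩
      have h1 : f.s.symm x = x := by
        rw [OrderIso.symm_apply_eq]; exact (hT x hx).1.symm
      rw [h1, (hT x hx).2]
      exact ⟨rfl, by simp⟩ }⟩

lemma mul_s (f g : TL) (x : ℝ) : (f * g).s x = f.s (g.s x) := rfl
lemma mul_b (f g : TL) (x : ℝ) : (f * g).b x = g.b x + f.b (g.s x) := rfl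
lemma one_s (x : ℝ) : (1 : TL).s x = x := rfl
lemma one_b (x : ℝ) : (1 : TL).b x = 0 := rfl
lemma inv_s (f : TL) (x : ℝ) : (f⁻¹).s x = f.s.symm x := rfl
lemma inv_b (f : TL) (x : ℝ) : (f⁻¹).b x = - f.b (f.s.symm x) := rfl

noncomputable instance : Group TL := Group.ofLeftAxioms
  (fun f g h => ext' (fun x => rfl) (fun x => by
    simp only [mul_b, mul_s]; ring))
  (fun f => ext' (fun x => rfl) (fun x => by
    simp only [mul_b, one_b, add_zero]))
  (fun f => ext' (fun x => by simp only [mul_s, inv_s, one_s, OrderIso.symm_apply_apply])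
    (fun x => by
      simp only [mul_b, inv_b, one_b, OrderIso.symm_apply_apply]; ring))

lemma inv_s_s (f : TL) (x : ℝ) : (f⁻¹).s (f.s x) = x := f.s.symm_apply_apply x
lemma s_inv_s (f : TL) (x : ℝ) : f.s ((f⁻¹).s x) = x := f.s.apply_symm_apply x

/-- the left exponent -/
noncomputable def e (f : TL) (x : ℝ) : ℤ := (f.tm x).choose
lemma e_spec (f : TL) (x : ℝ) : IsExp f.s f.b x (f.e x) := (f.tm x).choose_spec
lemma e_eq {f : TL} {x : ℝ} {n : ℤ} (h : IsExp f.s f.b x n) : f.e x = n :=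
  (f.e_spec x).unique h

lemma e_mul (f g : TL) (x : ℝ) : (f * g).e x = f.e (g.s x) + g.e x :=
  e_eq (IsExp.comp (g.e_spec x) (f.e_spec (g.s x)))

lemma e_one (x : ℝ) : (1 : TL).e x = 0 := e_eq (isExp_one x)

lemma e_inv (f : TL) (x : ℝ) : (f⁻¹).e x = - f.e ((f⁻¹).s x) :=
  e_eq (IsExp.symm (f.e_spec (f.s.symm x)))

/-- trivial above `z` -/
def TA (f : TL) (z : ℝ) : Prop := ∀ x, z < x → f.s x = x ∧ f.b x = 0

lemma TA.fix {f : TL} {z : ℝ} (h : f.TA z) : f.s z = z := by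
  rcases lt_trichotomy (f.s z) z with h1 | h1 | h1
  · have h2 : z < f.s.symm z := by rwa [OrderIso.lt_symm_apply]
    have h3 := (h _ h2).1
    rw [f.s.apply_symm_apply] at h3
    exact absurd h3 h2.ne
  · exact h1
  · obtain ⟨x, hx1, hx2⟩ := exists_between h1
    have h3 := (h x hx1).1
    have h4 := f.s.strictMono hx1
    rw [h3] at h4
    exact absurd (hx2.trans h4) (lt_irrefl _)

lemma TA.mono {f : TL} {z z' : ℝ} (h : f.TA z) (hz : z ≤ z') : f.TA z' :=
  fun x hx => h x (hz.trans_lt hx)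

lemma TA.one (z : ℝ) : (1 : TL).TA z := fun _ _ => ⟨rfl, rfl⟩

lemma TA.mul {f g : TL} {z : ℝ} (hf : f.TA z) (hg : g.TA z) : (f * g).TA z := by
  intro x hx
  rw [mul_s, mul_b, (hg x hx).1, (hg x hx).2, (hf x hx).1, (hf x hx).2]
  simp

lemma TA.inv {f : TL} {z : ℝ} (hf : f.TA z) : (f⁻¹).TA z := by
  intro x hx
  have h1 : f.s.symm x = x := by
    rw [OrderIso.symm_apply_eq]; exact (hf x hx).1.symm
  rw [inv_s, inv_b, h1, (hf x hx).2]
  simp

lemma TA.pow {f : TL} {z : ℝ} (hf : f.TA z) (n : ℕ) : (f ^ n).TA z := by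
  induction n with
  | zero => rw [pow_zero]; exact TA.one z
  | succ n ih => rw [pow_succ]; exact ih.mul hf

def TB (f : TL) (z : ℝ) : Prop := ∃ z', z' < z ∧ ∀ y, z' < y → y < z → f.s y = y ∧ f.b y = 0

lemma TB_of_TA {f : TL} {z t : ℝ} (h : f.TA z) (hz : z < t) : f.TB t :=
  ⟨z, hz, fun y hy _ => h y hy⟩

def PosAt (f : TL) (t : ℝ) : Prop := f.TA t ∧
  ((∃ z, z < t ∧ ∀ y, z < y → y < t → y < f.s y) ∨ (0 < f.b t ∧ f.TB t))

def Pos (f : TL) : Prop := ∃ t, f.PosAt t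

lemma TB_iff_of_fix {f : TL} {t : ℝ} (h : f.TA t) : f.TB t ↔ f.e t = 0 := by
  constructor
  · rintro ⟨z, hz, h1⟩
    apply e_eq
    refine ⟨z, hz, fun y hy1 hy2 => ?_⟩
    rw [(h1 y hy1 hy2).1, h.fix]
    refine ⟨by simp, (h1 y hy1 hy2).2⟩
  · intro h0
    obtain ⟨z, hz, h1⟩ := f.e_spec t
    rw [h0, h.fix] at h1
    exact ⟨z, hz, fun y hy1 hy2 => ⟨by rw [(h1 y hy1 hy2).1]; simp, (h1 y hy1 hy2).2⟩⟩

lemma posAt_iff {f : TL} {t : ℝ} :
    f.PosAt t ↔ f.TA t ∧ (f.e t < 0 ∨ (f.e t = 0 ∧ 0 < f.b t)) := by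
  constructor
  · rintro ⟨hA, h | ⟨h1, h2⟩⟩
    · refine ⟨hA, Or.inl ?_⟩
      obtain ⟨z, hz, h⟩ := h
      obtain ⟨z', hz', h'⟩ := f.e_spec t
      obtain ⟨y, hy1, hy2⟩ := exists_between (max_lt hz hz')
      have h3 := h y ((le_max_left _ _).trans_lt hy1) hy2
      have h4 := (h' y ((le_max_right _ _).trans_lt hy1) hy2).1
      rw [hA.fix] at h4
      by_contra h5
      push Not at h5
      have h6 : (1 : ℝ) ≤ (2 : ℝ) ^ (f.e t) := one_le_zpow₀ (by norm_num) h5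
      nlinarith
    · exact ⟨hA, Or.inr ⟨(TB_iff_of_fix hA).mp h2, h1⟩⟩
  · rintro ⟨hA, h | ⟨h1, h2⟩⟩
    · refine ⟨hA, Or.inl ?_⟩
      obtain ⟨z', hz', h'⟩ := f.e_spec t
      refine ⟨z', hz', fun y hy1 hy2 => ?_⟩
      have h4 := (h' y hy1 hy2).1
      rw [hA.fix] at h4
      have h6 : (2 : ℝ) ^ (f.e t) < 1 := zpow_lt_one_of_neg₀ (by norm_num) h
      nlinarith
    · exact ⟨hA, Or.inr ⟨h2, (TB_iff_of_fix hA).mpr h1⟩⟩

lemma pos_tri {f : TL} (hf : f ≠ 1) : f.Pos ∨ (f⁻¹).Pos := by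
  obtain ⟨T, hT⟩ := f.tp
  set D : Set ℝ := {x | ¬ (f.s x = x ∧ f.b x = 0)} with hD
  have hne : D.Nonempty := by
    by_contra h
    rw [Set.not_nonempty_iff_eq_empty] at h
    apply hf
    have h2 : ∀ x, f.s x = x ∧ f.b x = 0 := by
      intro x
      by_contra h3
      have : x ∈ D := h3
      rw [h] at this
      exact this
    exact ext' (fun x => (h2 x).1) (fun x => (h2 x).2)
  have hbd : BddAbove D := ⟨T, fun x hx => by
    by_contra h
    exact hx (hT x (not_le.mp h))⟩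
  set t := sSup D with ht
  have hA : f.TA t := by
    intro x hx
    by_contra h
    exact absurd (le_csSup hbd h) (not_le.mpr hx)
  rcases lt_trichotomy (f.e t) 0 with h | h | h
  · exact Or.inl ⟨t, posAt_iff.mpr ⟨hA, Or.inl h⟩⟩
  · have hbt : f.b t ≠ 0 := by
      intro h0
      obtain ⟨z, hz, h1⟩ := (TB_iff_of_fix hA).mpr h
      obtain ⟨y, hyD, hy⟩ := exists_lt_of_lt_csSup hne hz
      rcases lt_trichotomy y t with h2 | h2 | h2
      · exact hyD (h1 y hy h2)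
      · rw [h2] at hyD
        exact hyD ⟨hA.fix, h0⟩
      · exact hyD (hA y h2)
    rcases lt_or_gt_of_ne hbt with h1 | h1
    · right
      refine ⟨t, posAt_iff.mpr ⟨hA.inv, Or.inr ⟨?_, ?_⟩⟩⟩
      · rw [e_inv, hA.inv.fix, h, neg_zero]
      · rw [inv_b]
        have : f.s.symm t = t := hA.inv.fix
        rw [this]; omega
    · exact Or.inl ⟨t, posAt_iff.mpr ⟨hA, Or.inr ⟨h, h1⟩⟩⟩
  · right
    refine ⟨t, posAt_iff.mpr ⟨hA.inv, Or.inl ?_⟩⟩
    rw [e_inv, hA.inv.fix]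
    omega

lemma PosAt.not_TA {f : TL} {t z : ℝ} (h : f.PosAt t) (hz : z < t) : ¬ f.TA z := by
  intro hA
  rw [posAt_iff] at h
  have h1 := (TB_iff_of_fix h.1).mp (TB_of_TA hA hz)
  rcases h.2 with h2 | h2
  · omega
  · have := (hA t hz).2
    omega

lemma pos_asym {f : TL} (h : f.Pos) (h' : (f⁻¹).Pos) : False := by
  obtain ⟨t, ht⟩ := h
  obtain ⟨t', ht'⟩ := h'
  rcases lt_trichotomy t t' with h | h | h
  · exact ht'.not_TA h ht.1.inv
  · subst h
    rw [posAt_iff] at ht ht'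
    have hA := ht.1
    have h1 := ht'.2
    rw [e_inv, hA.inv.fix, inv_b] at h1
    have h3 : f.s.symm t = t := hA.inv.fix
    rw [h3] at h1
    have h2 := ht.2
    omega
  · have := ht'.1.inv
    rw [inv_inv] at this
    exact ht.not_TA h this

lemma PosAt.mul {f g : TL} {t : ℝ} (hf : f.PosAt t) (hg : g.PosAt t) : (f * g).PosAt t := by
  rw [posAt_iff] at hf hg ⊢
  refine ⟨hf.1.mul hg.1, ?_⟩
  rw [e_mul, mul_b, hg.1.fix]
  have h1 := hf.2
  have h2 := hg.2
  omega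

lemma TA.e_eq_zero {g : TL} {z t : ℝ} (hg : g.TA z) (hz : z < t) : g.e t = 0 :=
  (TB_iff_of_fix (hg.mono hz.le)).mp (TB_of_TA hg hz)

lemma PosAt.mul_TA {f g : TL} {t z : ℝ} (hf : f.PosAt t) (hg : g.TA z) (hz : z < t) :
    (f * g).PosAt t := by
  rw [posAt_iff] at hf ⊢
  refine ⟨hf.1.mul (hg.mono hz.le), ?_⟩
  rw [e_mul, mul_b, (hg t hz).1, (hg t hz).2, hg.e_eq_zero hz]
  have h1 := hf.2
  omega

lemma PosAt.TA_mul {f g : TL} {t z : ℝ} (hf : f.PosAt t) (hg : g.TA z) (hz : z < t) :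
    (g * f).PosAt t := by
  rw [posAt_iff] at hf ⊢
  refine ⟨(hg.mono hz.le).mul hf.1, ?_⟩
  rw [e_mul, mul_b, hf.1.fix, (hg t hz).2, hg.e_eq_zero hz]
  have h1 := hf.2
  omega

lemma Pos.mul {f g : TL} (hf : f.Pos) (hg : g.Pos) : (f * g).Pos := by
  obtain ⟨t, ht⟩ := hf
  obtain ⟨t', ht'⟩ := hg
  rcases lt_trichotomy t t' with h | h | h
  · exact ⟨t', ht'.TA_mul ht.1 h⟩
  · subst h; exact ⟨t, ht.mul ht'⟩
  · exact ⟨t, ht.mul_TA ht'.1 h⟩

lemma conj_s_fix {f u : TL} {x : ℝ} (h : f.s ((u⁻¹).s x) = (u⁻¹).s x) :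
    (u * f * u⁻¹).s x = x := by
  rw [mul_s, mul_s, h, s_inv_s]

lemma conj_b_fix {f u : TL} {x : ℝ} (h : f.s ((u⁻¹).s x) = (u⁻¹).s x) :
    (u * f * u⁻¹).b x = f.b ((u⁻¹).s x) := by
  rw [mul_b, mul_b, inv_b, h, ← inv_s]
  ring

lemma conj_e_fix {f u : TL} {x : ℝ} (h : f.s ((u⁻¹).s x) = (u⁻¹).s x) :
    (u * f * u⁻¹).e x = f.e ((u⁻¹).s x) := by
  rw [e_mul, e_mul, e_inv, h]
  ring

lemma TA.conj {f : TL} {z : ℝ} (hf : f.TA z) (u : TL) : (u * f * u⁻¹).TA (u.s z) := by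
  intro x hx
  have h1 : z < (u⁻¹).s x := by
    have : z < u.s.symm x := by rwa [OrderIso.lt_symm_apply]
    exact this
  have h2 := hf _ h1
  rw [conj_s_fix h2.1, conj_b_fix h2.1]
  exact ⟨rfl, h2.2⟩

lemma PosAt.conj {f : TL} {t : ℝ} (hf : f.PosAt t) (u : TL) :
    (u * f * u⁻¹).PosAt (u.s t) := by
  rw [posAt_iff] at hf ⊢
  have h : f.s ((u⁻¹).s (u.s t)) = (u⁻¹).s (u.s t) := by rw [inv_s_s]; exact hf.1.fix
  refine ⟨hf.1.conj u, ?_⟩
  rw [conj_e_fix h, conj_b_fix h, inv_s_s]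
  exact hf.2

lemma Pos.conj {f : TL} (hf : f.Pos) (u : TL) : (u * f * u⁻¹).Pos := by
  obtain ⟨t, ht⟩ := hf
  exact ⟨_, ht.conj u⟩

noncomputable instance : LinearOrder TL where
  le f g := f = g ∨ (g * f⁻¹).Pos
  lt f g := (g * f⁻¹).Pos
  le_refl f := Or.inl rfl
  le_trans f g h := by
    rintro (rfl | h1) (rfl | h2)
    · exact Or.inl rfl
    · exact Or.inr h2
    · exact Or.inr h1
    · right
      have := h2.mul h1
      have e1 : h * g⁻¹ * (g * f⁻¹) = h * f⁻¹ := by group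
      rwa [e1] at this
  lt_iff_le_not_ge f g := by
    constructor
    · intro h
      refine ⟨Or.inr h, ?_⟩
      rintro (rfl | h1)
      · rw [mul_inv_cancel] at h
        exact pos_asym h (by rwa [inv_one])
      · have e1 : f * g⁻¹ = (g * f⁻¹)⁻¹ := by group
        rw [e1] at h1
        exact pos_asym h h1
    · rintro ⟨rfl | h, h2⟩
      · exact absurd (Or.inl rfl) h2
      · exact h
  le_antisymm f g := by
    rintro (rfl | h1) (h2 | h2)
    · rfl
    · rfl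
    · exact h2.symm
    · have e1 : f * g⁻¹ = (g * f⁻¹)⁻¹ := by group
      rw [e1] at h2
      exact (pos_asym h1 h2).elim
  le_total f g := by
    by_cases h : f = g
    · exact Or.inl (Or.inl h)
    · have h1 : g * f⁻¹ ≠ 1 := fun h2 => h (mul_inv_eq_one.mp h2).symm
      rcases pos_tri h1 with h2 | h2
      · exact Or.inl (Or.inr h2)
      · right; right
        have e1 : f * g⁻¹ = (g * f⁻¹)⁻¹ := by group
        rwa [e1]
  toDecidableLE := Classical.decRel _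

lemma lt_iff {f g : TL} : f < g ↔ (g * f⁻¹).Pos := Iff.rfl
lemma one_lt_iff {f : TL} : 1 < f ↔ f.Pos := by rw [lt_iff, inv_one, mul_one]

instance : MulRightMono TL := ⟨by
  rintro u f g (rfl | h)
  · exact Or.inl rfl
  · right
    have e1 : g * u * (f * u)⁻¹ = g * f⁻¹ := by group
    show (g * u * (f * u)⁻¹).Pos
    rwa [e1]⟩

instance : MulLeftMono TL := ⟨by
  rintro u f g (rfl | h)
  · exact Or.inl rfl
  · right
    have e1 : u * g * (u * f)⁻¹ = u * (g * f⁻¹) * u⁻¹ := by group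
    show (u * g * (u * f)⁻¹).Pos
    rw [e1]
    exact h.conj u⟩

end TL

/-! ### Further facts on `TL` -/

namespace TL

lemma PosAt.one_lt {f : TL} {t : ℝ} (h : f.PosAt t) : 1 < f := one_lt_iff.mpr ⟨t, h⟩

lemma TA.mabs {f : TL} {z : ℝ} (h : f.TA z) : (|f|ₘ).TA z := by
  rcases le_total 1 f with h1 | h1
  · rw [mabs_of_one_le h1]; exact h
  · rw [mabs_of_le_one h1]; exact h.inv

lemma lt_of_TA {f g : TL} {t z : ℝ} (hf : f.PosAt t) (hg : g.TA z) (hz : z < t) : g < f := by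
  rw [lt_iff]
  exact ⟨t, hf.mul_TA hg.inv hz⟩

lemma LL_of_TA {f g : TL} {t z : ℝ} (hf : f.PosAt t) (hg : g.TA z) (hz : z < t) : LL g f := by
  intro n
  rw [mabs_of_one_le hf.one_lt.le]
  exact lt_of_TA hf (hg.mabs.pow n) hz

lemma exists_posAt {f : TL} (h : 1 < f) : ∃ t, f.PosAt t := one_lt_iff.mp h

lemma exists_TA (f : TL) : ∃ z, f.TA z := f.tp

/-- base level elements -/
noncomputable def bel (l : ℝ) (n : ℤ) : TL where
  s := OrderIso.refl ℝ
  b := fun x => if x = l then n else 0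
  tm := fun x => by
    refine ⟨0, if l < x then l else x - 1, ?_, ?_⟩
    · split_ifs with h
      · exact h
      · linarith
    · intro y hy1 hy2
      refine ⟨by simp, ?_⟩
      have : y ≠ l := by
        rintro rfl
        rw [if_pos hy2] at hy1
        exact lt_irrefl _ hy1
      simp [this]
  tp := ⟨l, fun x hx => ⟨rfl, by simp [hx.ne']⟩⟩

lemma bel_s (l : ℝ) (n : ℤ) (x : ℝ) : (bel l n).s x = x := rfl
lemma bel_b (l : ℝ) (n : ℤ) (x : ℝ) : (bel l n).b x = if x = l then n else 0 := rfl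
lemma bel_TA (l : ℝ) (n : ℤ) : (bel l n).TA l := fun x hx => ⟨rfl, by
  rw [bel_b, if_neg hx.ne']⟩

lemma e_of_s {f : TL} (h : ∀ x, f.s x = x) (x : ℝ) : f.e x = 0 := by
  have h1 := f.e_spec x
  obtain ⟨z, hz, h2⟩ := h1
  apply e_eq
  refine ⟨z, hz, fun y hy1 hy2 => ?_⟩
  rw [h, h]
  exact ⟨by simp, (h2 y hy1 hy2).2⟩

lemma bel_add (l : ℝ) (m n : ℤ) : bel l m * bel l n = bel l (m + n) :=
  ext' (fun x => rfl) (fun x => by
    rw [mul_b, bel_b, bel_b, bel_b, bel_s]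
    split_ifs <;> ring)

lemma bel_zero (l : ℝ) : bel l 0 = 1 :=
  ext' (fun x => rfl) (fun x => by rw [bel_b, one_b]; simp)

lemma bel_inv (l : ℝ) (m : ℤ) : (bel l m)⁻¹ = bel l (-m) := by
  rw [inv_eq_iff_mul_eq_one, bel_add, add_neg_cancel, bel_zero]

lemma bel_posAt (l : ℝ) {n : ℤ} (hn : 0 < n) : (bel l n).PosAt l := by
  rw [posAt_iff]
  refine ⟨bel_TA l n, Or.inr ⟨e_of_s (fun x => rfl) l, ?_⟩⟩
  rw [bel_b, if_pos rfl]; exact hn

/-- scaling towards `q` from the left -/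
noncomputable def sclFun (q : ℝ) (c : ℝ) (x : ℝ) : ℝ := if x < q then q - c * (q - x) else x

lemma sclFun_mono (q : ℝ) {c : ℝ} (hc : 0 < c) : StrictMono (sclFun q c) := by
  intro x y hxy
  unfold sclFun
  split_ifs with h1 h2 h2
  · nlinarith
  · have : 0 < c * (q - x) := mul_pos hc (by linarith)
    linarith
  · linarith
  · exact hxy

lemma sclFun_inv (q : ℝ) {c d : ℝ} (hc : 0 < c) (hd : 0 < d) (hcd : c * d = 1) (x : ℝ) :
    sclFun q c (sclFun q d x) = x := by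
  unfold sclFun
  by_cases h : x < q
  · rw [if_pos h, if_pos]
    · have : c * (q - (q - d * (q - x))) = (c * d) * (q - x) := by ring
      rw [this, hcd]; ring
    · have : 0 < d * (q - x) := mul_pos hd (by linarith)
      linarith
  · rw [if_neg h, if_neg h]

/-- scaling towards `q` with left exponent `n` -/
noncomputable def scl (q : ℝ) (n : ℤ) : TL where
  s := (sclFun_mono q (c := (2 : ℝ) ^ n) (by positivity)).orderIsoOfRightInverse _
    (sclFun q ((2 : ℝ) ^ (-n))) (fun x => sclFun_inv q (by positivity) (by positivity) (by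
      rw [← zpow_add₀ (by norm_num)]; simp) x)
  b := fun _ => 0
  tm := fun x => by
    by_cases h : x ≤ q
    · refine ⟨n, x - 1, by linarith, fun y _ hy2 => ⟨?_, rfl⟩⟩
      show sclFun q _ y = sclFun q _ x - _
      unfold sclFun
      rw [if_pos (hy2.trans_le h)]
      split_ifs with h2
      · ring
      · have : x = q := le_antisymm h (not_lt.mp h2)
        rw [this]
    · refine ⟨0, q, not_le.mp h, fun y hy1 hy2 => ⟨?_, rfl⟩⟩
      show sclFun q _ y = sclFun q _ x - _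
      unfold sclFun
      rw [if_neg (not_lt.mpr hy1.le), if_neg (not_lt.mpr (not_le.mp h).le)]
      simp
  tp := ⟨q, fun x hx => ⟨by
    show sclFun q _ x = x
    unfold sclFun
    rw [if_neg (not_lt.mpr hx.le)], rfl⟩⟩

lemma scl_s (q : ℝ) (n : ℤ) (x : ℝ) : (scl q n).s x = sclFun q ((2 : ℝ) ^ n) x := rfl

lemma scl_TA (q : ℝ) (n : ℤ) : (scl q n).TA q := by
  intro x hx
  refine ⟨?_, rfl⟩
  rw [scl_s]
  unfold sclFun
  rw [if_neg (not_lt.mpr hx.le)]

lemma scl_e (q : ℝ) (n : ℤ) (x : ℝ) : (scl q n).e x = if x ≤ q then n else 0 := by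
  apply e_eq
  split_ifs with h
  · refine ⟨x - 1, by linarith, fun y _ hy2 => ⟨?_, rfl⟩⟩
    show sclFun q _ y = sclFun q _ x - _
    unfold sclFun
    rw [if_pos (hy2.trans_le h)]
    split_ifs with h2
    · ring
    · have : x = q := le_antisymm h (not_lt.mp h2)
      rw [this]
  · refine ⟨q, not_le.mp h, fun y hy1 hy2 => ⟨?_, rfl⟩⟩
    show sclFun q _ y = sclFun q _ x - _
    unfold sclFun
    rw [if_neg (not_lt.mpr hy1.le), if_neg (not_lt.mpr (not_le.mp h).le)]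
    simp

/-- the subgroup of elements with even exponents -/
def SS : Subgroup TL where
  carrier := {f | ∀ x, Even (f.e x)}
  mul_mem' := fun {f g} hf hg x => by
    rw [e_mul]
    exact (hf _).add (hg x)
  one_mem' := fun x => by rw [e_one]; exact Even.zero
  inv_mem' := fun {f} hf x => by
    rw [e_inv]
    exact (hf _).neg

lemma mem_SS {f : TL} : f ∈ SS ↔ ∀ x, Even (f.e x) := Iff.rfl

lemma mem_SS_of_s {f : TL} (h : ∀ x, f.s x = x) : f ∈ SS := fun x => by
  rw [e_of_s h]; exact Even.zero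

lemma scl_mem (q : ℝ) (n : ℤ) : scl q (2 * n) ∈ SS := fun x => by
  rw [scl_e]
  split_ifs
  · exact even_two_mul n
  · exact Even.zero

lemma unb : GG.Unb TL := by
  intro k
  obtain ⟨z, hz⟩ := exists_TA k
  exact ⟨bel (z + 1) 1, LL_of_TA (bel_posAt (z + 1) one_pos) hz (by linarith)⟩

lemma hyp3 (c : TL) (hc : 1 < c) : ∃ k, 1 < k ∧ LL k c := by
  obtain ⟨t, ht⟩ := exists_posAt hc
  exact ⟨bel (t - 1) 1, (bel_posAt (t - 1) one_pos).one_lt,
    LL_of_TA ht (bel_TA (t - 1) 1) (by linarith)⟩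

lemma hyp1 (k k₃ : TL) (hk : 1 < k) : ∃ u ∈ SS, k₃ ≤ u * k * u⁻¹ := by
  obtain ⟨t, ht⟩ := exists_posAt hk
  obtain ⟨T, hT⟩ := exists_TA k₃
  set q := max t T + 1 with hq
  have h1 : t < q := (le_max_left t T).trans_lt (by linarith)
  have h2 : T < q := (le_max_right t T).trans_lt (by linarith)
  obtain ⟨n, hn⟩ := pow_unbounded_of_one_lt ((q - t) / (q - T)) (show (1 : ℝ) < 4 by norm_num)
  refine ⟨scl q (2 * (-(n : ℤ))), scl_mem q _, ?_⟩
  have h3 : T < (scl q (2 * (-(n : ℤ)))).s t := by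
    rw [scl_s]
    unfold sclFun
    rw [if_pos h1]
    have h4 : (2 : ℝ) ^ (2 * (-(n : ℤ))) = ((4 : ℝ) ^ n)⁻¹ := by
      rw [zpow_mul, zpow_neg, zpow_natCast]
      norm_num
    rw [h4]
    have h5 : (q - t) < (4 : ℝ) ^ n * (q - T) := by
      rwa [div_lt_iff₀ (by linarith)] at hn
    have h6 : ((4 : ℝ) ^ n)⁻¹ * (q - t) < q - T := by
      rw [inv_mul_lt_iff₀ (by positivity)]
      exact h5
    linarith
  exact (lt_of_TA (ht.conj _) hT h3).le

lemma le_of_e_lt {f : TL} {z : ℝ} (hf : f.TA z) (he : f.e z < 0) : f.PosAt z :=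
  posAt_iff.mpr ⟨hf, Or.inl he⟩

lemma e_nonpos {f : TL} {z : ℝ} (hf : f.TA z) (h1 : 1 ≤ f) : f.e z ≤ 0 := by
  by_contra h
  push Not at h
  have h2 : (f⁻¹).PosAt z := posAt_iff.mpr ⟨hf.inv, Or.inl (by rw [e_inv, hf.inv.fix]; omega)⟩
  have h3 := h2.one_lt
  rw [Left.one_lt_inv_iff] at h3
  exact absurd h3 (not_lt.mpr h1)

lemma e_inv_TA {f : TL} {z : ℝ} (hf : f.TA z) : (f⁻¹).e z = - f.e z := by
  rw [e_inv, hf.inv.fix]

lemma e_mul_TA {f g : TL} {z : ℝ} (hg : g.TA z) : (f * g).e z = f.e z + g.e z := by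
  rw [e_mul, hg.fix]

lemma e_pow_TA {f : TL} {z : ℝ} (hf : f.TA z) (n : ℕ) : (f ^ n).e z = n * f.e z := by
  induction n with
  | zero => rw [pow_zero, e_one]; simp
  | succ n ih => rw [pow_succ, e_mul_TA hf, ih]; push_cast; ring

lemma e_mabs {f : TL} {z : ℝ} (hf : f.TA z) : (|f|ₘ).e z = - |f.e z| := by
  rcases le_total 1 f with h | h
  · rw [mabs_of_one_le h, abs_of_nonpos (e_nonpos hf h), neg_neg]
  · rw [mabs_of_le_one h, e_inv_TA hf]
    have h1 : 1 ≤ f⁻¹ := Left.one_le_inv_iff.mpr h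
    have h2 := e_nonpos hf.inv h1
    rw [e_inv_TA hf] at h2
    rw [abs_of_nonneg (by omega)]

/-- if `k ∉ TA z` then `k` is infinitely larger than elements of `TA z` -/
lemma LL_of_not_TA {k a : TL} {z : ℝ} (hk : ¬ k.TA z) (ha : a.TA z) : LL a k := by
  have hk1 : k ≠ 1 := by
    rintro rfl
    exact hk (TA.one z)
  obtain ⟨t, ht⟩ := exists_posAt (one_lt_ab hk1)
  have hzt : z < t := by
    by_contra h
    push Not at h
    apply hk
    have h1 := ht.1.mono h
    rcases le_total 1 k with h2 | h2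
    · rwa [mabs_of_one_le h2] at h1
    · rw [mabs_of_le_one h2] at h1
      have := h1.inv
      rwa [inv_inv] at this
  intro n
  exact lt_of_TA ht (ha.mabs.pow n) hzt

lemma LL_of_e {k a : TL} {z : ℝ} (hk : k.TA z) (ha : a.TA z) (h1 : k.e z ≠ 0)
    (h2 : a.e z = 0) : LL a k := by
  intro n
  rw [lt_iff]
  refine ⟨z, le_of_e_lt (hk.mabs.mul (ha.mabs.pow n).inv) ?_⟩
  rw [e_mul_TA (ha.mabs.pow n).inv, e_inv_TA (ha.mabs.pow n), e_pow_TA ha.mabs, e_mabs ha,
    e_mabs hk, h2]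
  have : 0 < |k.e z| := abs_pos.mpr h1
  simp only [abs_zero, neg_zero, mul_zero, add_zero]
  omega

lemma LL.e_zero {k a : TL} {z : ℝ} (hk : k.TA z) (ha : a.TA z) (h : LL a k) : a.e z = 0 := by
  by_contra h0
  have h1 : 0 < |a.e z| := abs_pos.mpr h0
  have h2 := h ((|k.e z|).toNat + 1)
  have h3 : (|k|ₘ) < (|a|ₘ ^ ((|k.e z|).toNat + 1)) := by
    rw [lt_iff]
    refine ⟨z, le_of_e_lt ((ha.mabs.pow _).mul hk.mabs.inv) ?_⟩
    rw [e_mul_TA hk.mabs.inv, e_inv_TA hk.mabs, e_pow_TA ha.mabs, e_mabs ha, e_mabs hk]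
    have h5 : 0 ≤ |k.e z| := abs_nonneg _
    push_cast
    rw [Int.toNat_of_nonneg h5]
    nlinarith
  exact absurd (h2.trans h3) (lt_irrefl _)

lemma LL.TA_right {k v : TL} {z : ℝ} (h : LL v k) (hp : (v * k).TA z) :
    k.TA z ∧ v.TA z ∧ v.e z = 0 := by
  have hk : k.TA z := by
    by_contra hk
    have h1 := LL_of_not_TA hk hp
    have h2 := h.inv.mul h1
    have h3 : v⁻¹ * (v * k) = k := by group
    rw [h3] at h2
    exact absurd h2.lt (lt_irrefl _)
  have hv : v.TA z := by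
    by_contra hv
    exact absurd ((LL_of_not_TA hv hk).lt.trans h.lt) (lt_irrefl _)
  exact ⟨hk, hv, LL.e_zero hk hv h⟩

end TL

/-! ### The normal subgroup -/

open TL

abbrev GT : Type := GG SS

/-- the sign attached to an integer -/
def sg (n : ℤ) : ℤ := if Even n then 1 else -1

lemma sg_even {n : ℤ} (h : Even n) : sg n = 1 := if_pos h
lemma sg_odd {n : ℤ} (h : ¬ Even n) : sg n = -1 := if_neg h

lemma t_of_B (f : GT) (w v : TL) (hv : ∀ x, v.s x = x) : f.t (v * w) = f.t w := by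
  have h : v * w = w * (w⁻¹ * v * w⁻¹⁻¹) := by group
  rw [h, f.t_eqv]
  apply mem_SS_of_s
  intro x
  exact conj_s_fix (hv _)

lemma t_mul' (f g : GT) (w : TL) : (f * g).t w = f.t (g.ap w) * g.t w := tau_mul f.1 g.1 w

lemma t_inv' (f : GT) (w : TL) : (f⁻¹).t (f.ap w) = (f.t w)⁻¹ := tau_inv f.1 w

def NN : Subgroup GT where
  carrier := {f | (∀ w x, (f.t w).s x = x) ∧
    ∀ w x k, TA k x → (f.t (k * w)).b x = sg (k.e x) * (f.t w).b x}
  one_mem' := by
    have h : ∀ w, (1 : GT).t w = 1 := by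
      intro w
      rw [GG.t_def, GG.ap_one]; group
    refine ⟨fun w x => by rw [h]; rfl, fun w x k _ => ?_⟩
    rw [h, h, one_b, mul_zero]
  mul_mem' := by
    rintro f g ⟨hf1, hf2⟩ ⟨hg1, hg2⟩
    have h : ∀ w, (f * g).t w = f.t w * g.t w := by
      intro w
      rw [t_mul', ← GG.t_mul_self g w, t_of_B f w _ (hg1 w)]
    refine ⟨fun w x => ?_, fun w x k hk => ?_⟩
    · rw [h, mul_s, hg1, hf1]
    · rw [h, h, mul_b, mul_b, hg1, hg1, hf2 w x k hk, hg2 w x k hk]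
      ring
  inv_mem' := by
    rintro f ⟨hf1, hf2⟩
    have h : ∀ w, (f⁻¹).t w = (f.t w)⁻¹ := by
      intro w
      have h1 : (f⁻¹).t w = (f.t ((f⁻¹).ap w))⁻¹ := by
        have := t_inv' f ((f⁻¹).ap w)
        rwa [GG.ap_ap_inv] at this
      rw [h1]
      congr 1
      have h2 : w = f.t ((f⁻¹).ap w) * (f⁻¹).ap w := by
        rw [GG.t_mul_self, GG.ap_ap_inv]
      conv_rhs => rw [h2]
      rw [t_of_B f _ _ (hf1 _)]
    have h3 : ∀ w x, ((f.t w)⁻¹).s x = x := by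
      intro w x
      rw [inv_s, OrderIso.symm_apply_eq, hf1]
    refine ⟨fun w x => by rw [h, h3], fun w x k hk => ?_⟩
    have h4 : ∀ w x, ((f.t w)⁻¹).b x = - (f.t w).b x := by
      intro w x
      rw [inv_b]
      have := h3 w x
      rw [inv_s] at this
      rw [this]
    rw [h, h, h4, h4, hf2 w x k hk]
    ring

lemma mem_NN {f : GT} : f ∈ NN ↔ (∀ w x, (f.t w).s x = x) ∧
    ∀ w x k, TA k x → (f.t (k * w)).b x = sg (k.e x) * (f.t w).b x := Iff.rfl

lemma NN_normal : NN.Normal := by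
  constructor
  rintro m ⟨hm1, hm2⟩ g
  have key : ∀ w, (g * m * g⁻¹).t (g.ap w) = g.t w * m.t w * (g.t w)⁻¹ := by
    intro w
    rw [t_mul', GG.ap_inv_ap, t_mul', t_inv', ← GG.t_mul_self m w, t_of_B g w _ (hm1 w)]
  have hb : ∀ (u b : TL), (∀ x, b.s x = x) → ∀ x, (u * b * u⁻¹).b x = b.b ((u⁻¹).s x) :=
    fun u b hb x => conj_b_fix (hb _)
  refine ⟨fun w x => ?_, fun w x k hk => ?_⟩
  · obtain ⟨w', rfl⟩ : ∃ w', w = g.ap w' := ⟨(g⁻¹).ap w, (GG.ap_ap_inv g w).symm⟩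
    rw [key]
    exact conj_s_fix (hm1 _ _)
  · obtain ⟨w', rfl⟩ : ∃ w', w = g.ap w' := ⟨(g⁻¹).ap w, (GG.ap_ap_inv g w).symm⟩
    obtain ⟨w2, hw2⟩ : ∃ w2, k * g.ap w' = g.ap w2 :=
      ⟨(g⁻¹).ap (k * g.ap w'), (GG.ap_ap_inv g _).symm⟩
    set u := g.t w' with hu
    set k' := w2 * w'⁻¹ with hk'
    have hw2' : w2 = k' * w' := by rw [hk']; group
    set v := u⁻¹ * g.t w2 with hv
    have hgt : g.t w2 = u * v := by rw [hv]; group
    set z := (u⁻¹).s x with hz
    have hux : u.s z = x := s_inv_s u x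
    have hvk : v * k' = u⁻¹ * k * u⁻¹⁻¹ := by
      have e1 : k * (u * w') = (u * v) * w2 := by
        rw [← hgt, hu, GG.t_mul_self, GG.t_mul_self, hw2]
      have e2 : v * k' = u⁻¹ * ((u * v) * w2) * w'⁻¹ := by rw [hk']; group
      rw [e2, ← e1]; group
    have hTA : (v * k').TA z := by
      rw [hvk, hz]
      exact hk.conj u⁻¹
    have he : (v * k').e z = k.e x := by
      rw [hvk]
      have h1 : k.s ((u⁻¹⁻¹).s z) = (u⁻¹⁻¹).s z := by
        rw [inv_inv, hux]; exact hk.fix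
      rw [conj_e_fix h1, inv_inv, hux]
    have hmain : k'.TA z ∧ k'.e z = k.e x ∧ (v⁻¹).s z = z := by
      by_cases hkk : w' = w2
      · have e1 : k' = 1 := by rw [hk', hkk]; group
        have e2 : v = 1 := by rw [hv, hu, hkk]; group
        rw [e2, e1, one_mul] at he
        refine ⟨by rw [e1]; exact TA.one z, by rw [e1]; exact he, by rw [e2, inv_one, one_s]⟩
      · have h1 : LL v k' := g.tame hkk
        obtain ⟨h2, h3, h4⟩ := LL.TA_right h1 hTA
        refine ⟨h2, ?_, h3.inv.fix⟩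
        rw [e_mul_TA h2, h4, zero_add] at he
        exact he
    obtain ⟨h1, h2, h3⟩ := hmain
    rw [hw2, key, key, hb _ _ (hm1 _), hb _ _ (hm1 _), hgt]
    have e3 : ((u * v)⁻¹).s x = z := by
      rw [mul_inv_rev, mul_s, ← hz, h3]
    rw [e3, ← hz, hw2', hm2 w' z k' h1, h2]

lemma NN_triv {m : GT} (hm : m ∈ NN) (h1 : 1 ≤ m) : m = 1 := by
  obtain ⟨hm1, hm2⟩ := hm
  apply GG.ext
  intro w
  rw [GG.ap_one]
  by_contra hne
  have h2 : 1 < m.t w := by
    rw [GG.t_def]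
    refine GG.one_lt_sub (lt_of_le_of_ne ?_ (Ne.symm hne))
    have := h1 w
    rwa [GG.ap_one] at this
  obtain ⟨t, ht⟩ := exists_posAt h2
  have ht' := posAt_iff.mp ht
  rw [e_of_s (hm1 w)] at ht'
  have hpos : 0 < (m.t w).b t := by
    have := ht'.2
    omega
  -- odd element
  set k := scl t 1 with hk
  have hkT : k.TA t := scl_TA t 1
  have hke : k.e t = 1 := by rw [hk, scl_e, if_pos le_rfl]
  have h3 := hm2 w t k hkT
  rw [hke, sg_odd (by decide)] at h3
  have hkw : w ≠ k * w := by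
    intro h
    have : k = 1 := by
      calc k = k * w * w⁻¹ := by group
        _ = 1 := by rw [← h]; group
    rw [this, e_one] at hke
    omega
  have h4 := m.tame hkw
  have h5 : k * w * w⁻¹ = k := by group
  rw [h5] at h4
  have h6 : ((m.t w)⁻¹ * m.t (k * w)).TA t := by
    by_contra h
    exact absurd ((LL_of_not_TA h hkT).lt.trans h4.lt) (lt_irrefl _)
  have h7 : (m.t (k * w)).TA t := by
    have := ht.1.mul h6
    rwa [mul_inv_cancel_left] at this
  have h8 : ((m.t (k * w))⁻¹).PosAt t := by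
    rw [posAt_iff]
    refine ⟨h7.inv, Or.inr ⟨?_, ?_⟩⟩
    · rw [e_inv_TA h7, e_of_s (hm1 _), neg_zero]
    · rw [inv_b]
      have : (m.t (k * w)).s.symm t = t := h7.inv.fix
      rw [this, h3]
      omega
  have h9 := h8.one_lt
  rw [Left.one_lt_inv_iff] at h9
  have h10 : m.ap (k * w) < k * w := by
    rw [← GG.t_mul_self]
    calc m.t (k * w) * (k * w) < 1 * (k * w) := mul_lt_mul_left h9 _
      _ = k * w := one_mul _
  have h11 := h1 (k * w)
  rw [GG.ap_one] at h11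
  exact absurd (h10.trans_le h11) (lt_irrefl _)

/-! ### a nontrivial element -/

def InE (w : TL) : Prop := ∃ k : TL, k.TA 0 ∧ Even (k.e 0) ∧ k⁻¹ * w ∈ SS
def InO (w : TL) : Prop := ∃ k : TL, k.TA 0 ∧ ¬ Even (k.e 0) ∧ k⁻¹ * w ∈ SS

lemma not_InE_InO {w : TL} (h : InE w) (h' : InO w) : False := by
  obtain ⟨k, hk1, hk2, hk3⟩ := h
  obtain ⟨k', hk1', hk2', hk3'⟩ := h'
  have h1 := SS.mul_mem hk3' (SS.inv_mem hk3)
  have h2 : k'⁻¹ * w * (k⁻¹ * w)⁻¹ = k'⁻¹ * k := by group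
  rw [h2] at h1
  have h3 := h1 0
  rw [e_mul_TA hk1, e_inv_TA hk1'] at h3
  apply hk2'
  have h4 : k'.e 0 = k.e 0 - (-k'.e 0 + k.e 0) := by ring
  rw [h4]
  exact hk2.sub h3

lemma InE_mul {k w : TL} (hk : k.TA 0) (he : Even (k.e 0)) : InE (k * w) ↔ InE w := by
  constructor
  · rintro ⟨l, h1, h2, h3⟩
    refine ⟨k⁻¹ * l, hk.inv.mul h1, ?_, ?_⟩
    · rw [e_mul_TA h1, e_inv_TA hk]; exact he.neg.add h2
    · have : (k⁻¹ * l)⁻¹ * w = l⁻¹ * (k * w) := by group
      rwa [this]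
  · rintro ⟨l, h1, h2, h3⟩
    refine ⟨k * l, hk.mul h1, ?_, ?_⟩
    · rw [e_mul_TA h1]; exact he.add h2
    · have : (k * l)⁻¹ * (k * w) = l⁻¹ * w := by group
      rwa [this]

lemma InO_mul {k w : TL} (hk : k.TA 0) (he : Even (k.e 0)) : InO (k * w) ↔ InO w := by
  constructor
  · rintro ⟨l, h1, h2, h3⟩
    refine ⟨k⁻¹ * l, hk.inv.mul h1, ?_, ?_⟩
    · rw [e_mul_TA h1, e_inv_TA hk]
      intro h4
      apply h2
      have := h4.add he
      have e1 : -k.e 0 + l.e 0 + k.e 0 = l.e 0 := by ring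
      rwa [e1] at this
    · have : (k⁻¹ * l)⁻¹ * w = l⁻¹ * (k * w) := by group
      rwa [this]
  · rintro ⟨l, h1, h2, h3⟩
    refine ⟨k * l, hk.mul h1, ?_, ?_⟩
    · rw [e_mul_TA h1]
      intro h4
      apply h2
      have := h4.sub he
      have e1 : k.e 0 + l.e 0 - k.e 0 = l.e 0 := by ring
      rwa [e1] at this
    · have : (k * l)⁻¹ * (k * w) = l⁻¹ * w := by group
      rwa [this]

lemma InE_mul_odd {k w : TL} (hk : k.TA 0) (he : ¬ Even (k.e 0)) : InE (k * w) ↔ InO w := by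
  rw [Int.not_even_iff_odd] at he
  constructor
  · rintro ⟨l, h1, h2, h3⟩
    refine ⟨k⁻¹ * l, hk.inv.mul h1, ?_, ?_⟩
    · rw [e_mul_TA h1, e_inv_TA hk, Int.not_even_iff_odd]; exact he.neg.add_even h2
    · have : (k⁻¹ * l)⁻¹ * w = l⁻¹ * (k * w) := by group
      rwa [this]
  · rintro ⟨l, h1, h2, h3⟩
    rw [Int.not_even_iff_odd] at h2
    refine ⟨k * l, hk.mul h1, ?_, ?_⟩
    · rw [e_mul_TA h1]; exact he.add_odd h2
    · have : (k * l)⁻¹ * (k * w) = l⁻¹ * w := by group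
      rwa [this]

lemma InO_mul_odd {k w : TL} (hk : k.TA 0) (he : ¬ Even (k.e 0)) : InO (k * w) ↔ InE w := by
  have h1 : ¬ Even ((k⁻¹).e 0) := by
    rw [e_inv_TA hk, even_neg]; exact he
  have h2 := InE_mul_odd (w := k * w) hk.inv h1
  rw [inv_mul_cancel_left] at h2
  exact h2.symm

open Classical in
noncomputable def chi (w : TL) : ℤ := if InE w then 1 else if InO w then -1 else 0

lemma chi_E {w : TL} (h : InE w) : chi w = 1 := if_pos h
lemma chi_O {w : TL} (h : InO w) : chi w = -1 := by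
  unfold chi
  rw [if_neg (fun h1 => not_InE_InO h1 h), if_pos h]
lemma chi_N {w : TL} (h : ¬ InE w) (h' : ¬ InO w) : chi w = 0 := by
  unfold chi
  rw [if_neg h, if_neg h']

lemma chi_mul {k w : TL} (hk : k.TA 0) : chi (k * w) = sg (k.e 0) * chi w := by
  by_cases he : Even (k.e 0)
  · rw [sg_even he, one_mul]
    by_cases h1 : InE w
    · rw [chi_E h1, chi_E ((InE_mul hk he).mpr h1)]
    · by_cases h2 : InO w
      · rw [chi_O h2, chi_O ((InO_mul hk he).mpr h2)]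
      · rw [chi_N h1 h2, chi_N (fun h => h1 ((InE_mul hk he).mp h))
          (fun h => h2 ((InO_mul hk he).mp h))]
  · rw [sg_odd he]
    by_cases h1 : InE w
    · rw [chi_E h1, chi_O ((InO_mul_odd hk he).mpr h1)]; rfl
    · by_cases h2 : InO w
      · rw [chi_O h2, chi_E ((InE_mul_odd hk he).mpr h2)]; rfl
      · rw [chi_N h1 h2, chi_N (fun h => h2 ((InE_mul_odd hk he).mp h))
          (fun h => h1 ((InO_mul_odd hk he).mp h))]; rfl

lemma chi_S {w s : TL} (hs : s ∈ SS) : chi (w * s) = chi w := by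
  have h : ∀ (w s k : TL), s ∈ SS → (k⁻¹ * (w * s) ∈ SS ↔ k⁻¹ * w ∈ SS) := by
    intro w s k hs
    rw [← mul_assoc]
    exact Subgroup.mul_mem_cancel_right SS hs
  have h1 : InE (w * s) ↔ InE w := by
    unfold InE
    simp only [fun k => h w s k hs]
  have h2 : InO (w * s) ↔ InO w := by
    unfold InO
    simp only [fun k => h w s k hs]
  by_cases h3 : InE w
  · rw [chi_E h3, chi_E (h1.mpr h3)]
  · by_cases h4 : InO w
    · rw [chi_O h4, chi_O (h2.mpr h4)]
    · rw [chi_N h3 h4, chi_N (fun h => h3 (h1.mp h)) (fun h => h4 (h2.mp h))]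

lemma chi_bel (n : ℤ) (w : TL) : chi (bel 0 n * w) = chi w := by
  rw [chi_mul (bel_TA 0 n), e_of_s (fun x => rfl), sg_even Even.zero, one_mul]

lemma bel_ne {n : ℤ} (h : n ≠ 0) : bel 0 n ≠ 1 := by
  intro h1
  have : (bel 0 n).b 0 = 0 := by rw [h1]; rfl
  rw [bel_b, if_pos rfl] at this
  exact h this

noncomputable def mm : GT := GG.mkG SS (fun w => bel 0 (chi w)) (fun w => bel 0 (- chi w))
  (fun w => by
    show bel 0 (chi (bel 0 (-chi w) * w)) * bel 0 (-chi w) = 1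
    rw [chi_bel, bel_add, add_neg_cancel, bel_zero])
  (fun w v hne => by
    show LL ((bel 0 (chi w))⁻¹ * bel 0 (chi v)) (v * w⁻¹)
    rw [bel_inv, bel_add]
    set k := v * w⁻¹ with hk
    have hk1 : k ≠ 1 := ne_inv_ne hne
    by_cases hT : k.TA 0
    · have hv : v = k * w := by rw [hk]; group
      by_cases he : Even (k.e 0)
      · rw [hv, chi_mul hT, sg_even he, one_mul, neg_add_cancel, bel_zero]
        exact LL_one hk1
      · apply LL_of_e hT (bel_TA 0 _) ?_ (e_of_s (fun x => rfl) _)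
        intro h0
        rw [h0] at he
        exact he Even.zero
    · exact LL_of_not_TA hT (bel_TA 0 _))
  (fun w s hs => by
    show bel 0 (chi (w * s)) = bel 0 (chi w)
    rw [chi_S hs])
  (by
    refine ⟨bel 1 1, fun w hw => ?_⟩
    have h0 : chi w ≠ 0 := by
      intro h0
      apply hw
      show bel 0 (chi w) = 1
      rw [h0, bel_zero]
    have h1 : ∃ k : TL, k.TA 0 ∧ k⁻¹ * w ∈ SS := by
      by_cases hE : InE w
      · obtain ⟨k, h1, _, h3⟩ := hE
        exact ⟨k, h1, h3⟩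
      · by_cases hO : InO w
        · obtain ⟨k, h1, _, h3⟩ := hO
          exact ⟨k, h1, h3⟩
        · exact absurd (chi_N hE hO) h0
    obtain ⟨k, h1, h2⟩ := h1
    refine ⟨(k⁻¹ * w)⁻¹, SS.inv_mem h2, ?_⟩
    have h3 : w * (k⁻¹ * w)⁻¹ = k := by group
    rw [h3]
    exact (lt_of_TA (bel_posAt 1 one_pos) h1.mabs (by norm_num)).le)

lemma t_mm (w : TL) : mm.t w = bel 0 (chi w) := GG.t_mkG _ _ _ _ w

lemma mm_mem : mm ∈ NN := by
  refine ⟨fun w x => by rw [t_mm]; rfl, fun w x k hk => ?_⟩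
  rw [t_mm, t_mm, bel_b, bel_b]
  by_cases hx : x = 0
  · subst hx
    rw [if_pos rfl, if_pos rfl, chi_mul hk]
  · rw [if_neg hx, if_neg hx, mul_zero]

lemma mm_ne : mm ≠ 1 := by
  intro h
  have h1 : mm.t 1 = 1 := by
    rw [h, GG.t_def, GG.ap_one]; group
  rw [t_mm] at h1
  have h2 : InE 1 := ⟨1, TA.one 0, by rw [e_one]; exact Even.zero, by
    rw [inv_one, one_mul]; exact SS.one_mem⟩
  rw [chi_E h2] at h1
  exact bel_ne one_ne_zero h1

lemma main : ¬ (∀ (G : Type) [Group G] [Lattice G] [MulLeftMono G] [MulRightMono G],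
      (∀ H : Subgroup G, H.Normal →
          (∀ a b g : G, a ∈ H → b ∈ H → a ≤ g → g ≤ b → g ∈ H) →
          (∀ a b : G, a ∈ H → b ∈ H → a ⊔ b ∈ H ∧ a ⊓ b ∈ H) →
          H = ⊥ ∨ H = ⊤) →
      ∀ H : Subgroup G, H.Normal →
        (∀ a b g : G, a ∈ H → b ∈ H → a ≤ g → g ≤ b → g ∈ H) →
        H = ⊥ ∨ H = ⊤) := by
  intro hall
  have h1 := hall GT (fun H hn hc hs => GG.simple SS unb hyp1 hyp3 H hn hc hs) NN NN_normal ?_
  · rcases h1 with h1 | h1
    · have h2 := mm_mem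
      rw [h1, Subgroup.mem_bot] at h2
      exact mm_ne h2
    · have hall2 : ∀ m : GT, 1 ≤ m → m = 1 := fun m hm => NN_triv (by rw [h1]; trivial) hm
      apply mm_ne
      have h2 := hall2 (mm ⊔ 1) le_sup_right
      have h3 : mm ≤ 1 := by
        calc mm ≤ mm ⊔ 1 := le_sup_left
          _ = 1 := h2
      have h4 : 1 ≤ mm⁻¹ := by
        have := GG.inv_le_inv'' h3
        rwa [inv_one] at this
      have h5 := hall2 _ h4
      rwa [inv_eq_one] at h5
  · intro a b g ha hb hag hgb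
    have h2 : 1 ≤ b * a⁻¹ := by
      calc (1 : GT) = a * a⁻¹ := (mul_inv_cancel a).symm
        _ ≤ b * a⁻¹ := mul_le_mul_left (hag.trans hgb) _
    have h3 := NN_triv (NN.mul_mem hb (NN.inv_mem ha)) h2
    have h4 : b = a := mul_inv_eq_one.mp h3
    rw [h4] at hgb
    rw [le_antisymm hgb hag]
    exact ha

end CN

/-- The negation of the preceding statement: In any lattice-ordered group whose only normal convex sublattice-subgroups are trivial or everything, every normal convex subgroup is also trivial or everything. -/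
theorem result :
    ¬ (∀ (G : Type) [Group G] [Lattice G] [MulLeftMono G] [MulRightMono G],
      (∀ H : Subgroup G, H.Normal →
          (∀ a b g : G, a ∈ H → b ∈ H → a ≤ g → g ≤ b → g ∈ H) →
          (∀ a b : G, a ∈ H → b ∈ H → a ⊔ b ∈ H ∧ a ⊓ b ∈ H) →
          H = ⊥ ∨ H = ⊤) →
      ∀ H : Subgroup G, H.Normal →
        (∀ a b g : G, a ∈ H → b ∈ H → a ≤ g → g ≤ b → g ∈ H) →
        H = ⊥ ∨ H = ⊤) := by
  exact CN.main

end Pool.Agent.S01484
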