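import Pool.Statements.S01488

set_option autoImplicit false
open Pool Pool.MP_91def8_al

namespace Pool.Agent.S01488

/-- The alternating group on five letters. -/
abbrev P : Type := alternatingGroup (Fin 5)

/-- Permutation action of the alternating group on functions on five letters. -/
def act (A : Type) [CommGroup A] : P →* MulAut (Fin 5 → A) where
  toFun σ :=
    { toFun := fun a i => a ((σ : Equiv.Perm (Fin 5))⁻¹ i)
      invFun := fun a i => a ((σ : Equiv.Perm (Fin 5)) i)
      left_inv := fun a => by funext i; simp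
      right_inv := fun a => by funext i; simp
      map_mul' := fun a b => by funext i; simp }
  map_one' := by
    ext a i
    simp
  map_mul' σ τ := by
    ext a i
    simp

/-- The permutational wreath product. -/
abbrev W (A : Type) [CommGroup A] : Type := SemidirectProduct (Fin 5 → A) P (act A)

/-- A five-cycle. -/
def c5 : P := ⟨finRotate 5, Equiv.Perm.mem_alternatingGroup.mpr (by decide)⟩

/-- A three-cycle. -/
def d3 : P := ⟨Equiv.swap 0 1 * Equiv.swap 0 2, Equiv.Perm.mem_alternatingGroup.mpr (by decide)⟩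

theorem perfect : (⁅(⊤ : Subgroup P), (⊤ : Subgroup P)⁆ : Subgroup P) = ⊤ := by
  have : IsSimpleGroup P := alternatingGroup.isSimpleGroup (by simp)
  rcases IsSimpleGroup.eq_bot_or_eq_top_of_normal (⁅(⊤ : Subgroup P), (⊤ : Subgroup P)⁆ : Subgroup P)
    inferInstance with h | h
  · exfalso
    have h1 : ∀ a b : P, a * b * a⁻¹ * b⁻¹ = 1 := by
      intro a b
      have h2 := Subgroup.commutator_mem_commutator (H₁ := (⊤ : Subgroup P)) (H₂ := (⊤ : Subgroup P))
        (Subgroup.mem_top a) (Subgroup.mem_top b)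
      rw [h] at h2
      exact Subgroup.mem_bot.mp h2
    have h2 := congrArg (Subtype.val) (h1 c5 d3)
    have h3 : ¬ (finRotate 5 * (Equiv.swap 0 1 * Equiv.swap 0 2) * (finRotate 5)⁻¹ *
      (Equiv.swap 0 1 * Equiv.swap 0 2)⁻¹ = (1 : Equiv.Perm (Fin 5))) := by decide
    exact h3 h2
  · exact h

theorem exists_sub {F : Type} [Group F] (Φ : F →* P) (hΦ : Function.Surjective Φ)
    {ι : Type} (N : ι → Subgroup F) (hN : ∀ i, (N i).Normal) (S : Finset ι)
    (hS : ∀ i ∈ S, ¬ N i ≤ Φ.ker) :
    ∃ M : Subgroup F, M.Normal ∧ M.map Φ = ⊤ ∧ ∀ i ∈ S, M ≤ ⁅N i, N i⁆ := by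
  classical
  have : IsSimpleGroup P := alternatingGroup.isSimpleGroup (by simp)
  induction S using Finset.induction_on with
  | empty =>
    refine ⟨⊤, inferInstance, ?_, by simp⟩
    rw [← MonoidHom.range_eq_map]
    exact MonoidHom.range_eq_top.mpr hΦ
  | insert i S hi ih =>
    obtain ⟨M, hM, hMΦ, hMS⟩ := ih (fun j hj => hS j (Finset.mem_insert_of_mem hj))
    have := hM
    have := hN i
    have hmap : (N i).map Φ = ⊤ := by
      have : ((N i).map Φ).Normal := Subgroup.Normal.map (hN i) Φ hΦ
      rcases IsSimpleGroup.eq_bot_or_eq_top_of_normal ((N i).map Φ) inferInstance with h | h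
      · exact absurd ((Subgroup.map_eq_bot_iff _).mp h) (hS i (Finset.mem_insert_self _ _))
      · exact h
    refine ⟨⁅M, ⁅N i, N i⁆⁆, inferInstance, ?_, ?_⟩
    · rw [Subgroup.map_commutator, Subgroup.map_commutator, hMΦ, hmap, perfect, perfect]
    · intro j hj
      rcases Finset.mem_insert.mp hj with rfl | hj
      · exact Subgroup.commutator_le_right _ _
      · exact (Subgroup.commutator_le_left _ _).trans (hMS j hj)

/-- The kernel comparison: if the kernel of θ lies in that of Φ, they coincide. -/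
theorem ker_eq {F : Type} [Group F] (Φ θ : F →* P) (hΦ : Function.Surjective Φ)
    (h : θ.ker ≤ Φ.ker) : Φ.ker ≤ θ.ker := by
  have h1 : Φ.ker.index = Nat.card P := by
    rw [Subgroup.index_ker, MonoidHom.range_eq_top.mpr hΦ, Subgroup.card_top]
  have h2 : θ.ker.index ≤ Nat.card P := by
    rw [Subgroup.index_ker]
    exact Subgroup.card_le_card_group _
  have h3 := Subgroup.relIndex_mul_index h
  have h4 : 0 < Nat.card P := Nat.card_pos
  have h5 : θ.ker.relIndex Φ.ker = 1 := by
    rw [h1] at h3
    have h6 : θ.ker.relIndex Φ.ker * Nat.card P ≤ 1 * Nat.card P := by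
      rw [h3, one_mul]; exact h2
    have h7 : θ.ker.relIndex Φ.ker ≤ 1 := Nat.le_of_mul_le_mul_right h6 h4
    have h8 : θ.ker.relIndex Φ.ker ≠ 0 := by
      intro h0
      rw [h0, zero_mul] at h3
      have : θ.ker.index ≠ 0 := by
        rw [Subgroup.index_ker]
        exact Nat.card_pos.ne'
      exact this h3.symm
    omega
  exact Subgroup.relIndex_eq_one.mp h5

theorem cyc : ∀ σ : Equiv.Perm (Fin 5), σ ^ 5 = 1 → σ ≠ 1 → ∀ i : Fin 5,
    Function.Bijective ![i, σ⁻¹ i, σ⁻¹ (σ⁻¹ i), σ⁻¹ (σ⁻¹ (σ⁻¹ i)), σ⁻¹ (σ⁻¹ (σ⁻¹ (σ⁻¹ i)))] := by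
  decide +kernel

/-- The product-of-coordinates homomorphism on the wreath product. -/
def prodHom (A : Type) [CommGroup A] : W A →* A where
  toFun g := ∏ i, g.left i
  map_one' := by simp
  map_mul' g h := by
    rw [SemidirectProduct.mul_left]
    have h1 : ∀ i, (g.left * (act A g.right) h.left) i =
        g.left i * h.left ((g.right : Equiv.Perm (Fin 5))⁻¹ i) := fun i => rfl
    rw [Finset.prod_congr rfl (fun i _ => h1 i), Finset.prod_mul_distrib]
    congr 1
    exact Equiv.prod_comp ((g.right : Equiv.Perm (Fin 5))⁻¹) (fun i => h.left i)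

/-- An element over a five-cycle with trivial coordinate product has order dividing five. -/
theorem pow_five {A : Type} [CommGroup A] (g : W A) (h1 : g.right ^ 5 = 1) (h2 : g.right ≠ 1)
    (h3 : prodHom A g = 1) : g ^ 5 = 1 := by
  apply SemidirectProduct.ext
  · funext i
    have e : g ^ 5 = g * (g * (g * (g * g))) := by simp only [pow_succ, pow_zero, one_mul, mul_assoc]
    have h4 : (g ^ 5).left i = g.left i * (g.left ((g.right : Equiv.Perm (Fin 5))⁻¹ i) *
        (g.left ((g.right : Equiv.Perm (Fin 5))⁻¹ ((g.right : Equiv.Perm (Fin 5))⁻¹ i)) *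
        (g.left ((g.right : Equiv.Perm (Fin 5))⁻¹ ((g.right : Equiv.Perm (Fin 5))⁻¹
          ((g.right : Equiv.Perm (Fin 5))⁻¹ i))) *
        g.left ((g.right : Equiv.Perm (Fin 5))⁻¹ ((g.right : Equiv.Perm (Fin 5))⁻¹
          ((g.right : Equiv.Perm (Fin 5))⁻¹ ((g.right : Equiv.Perm (Fin 5))⁻¹ i))))))) := by
      rw [e]; rfl
    have hσ : (g.right : Equiv.Perm (Fin 5)) ^ 5 = 1 := by
      have := congrArg Subtype.val h1
      simpa using this
    have hσ1 : (g.right : Equiv.Perm (Fin 5)) ≠ 1 := by
      intro h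
      exact h2 (Subtype.ext h)
    have h5 : ∏ j, g.left j = 1 := h3
    generalize (g.right : Equiv.Perm (Fin 5)) = σ at *
    have h6 := (cyc σ hσ hσ1 i).prod_comp (fun j => g.left j)
    rw [h5, Fin.prod_univ_five] at h6
    rw [h4]
    simpa [mul_assoc] using h6
  · rw [show (g ^ 5).right = g.right ^ 5 from map_pow SemidirectProduct.rightHom g 5, h1]
    rfl

theorem exists_surj : ∃ (k : ℕ) (f₁ : Fin k → P), Function.Surjective (FreeGroup.lift f₁) := by
  obtain ⟨k, ⟨e⟩⟩ := Finite.exists_equiv_fin P
  refine ⟨k, e.symm, ?_⟩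
  intro p
  refine ⟨FreeGroup.of (e p), ?_⟩
  simp

theorem exists_word {k : ℕ} (f₁ : Fin k → P) (surj₁ : Function.Surjective (FreeGroup.lift f₁)) :
    ∃ w : FreeGroup (Fin k), FreeGroup.lift f₁ w = c5 ∧
    ∀ f : Fin k → P, ¬ (FreeGroup.lift f).ker ≤ (FreeGroup.lift f₁).ker →
      w ∈ ⁅(FreeGroup.lift f).ker, (FreeGroup.lift f).ker⁆ := by
  classical
  obtain ⟨M, -, hM1, hM2⟩ := exists_sub (FreeGroup.lift f₁) surj₁
    (fun f : Fin k → P => (FreeGroup.lift f).ker) (fun f => inferInstance)
    (Finset.univ.filter (fun f : Fin k → P => ¬ (FreeGroup.lift f).ker ≤ (FreeGroup.lift f₁).ker))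
    (fun f hf => (Finset.mem_filter.mp hf).2)
  have h : c5 ∈ M.map (FreeGroup.lift f₁) := by rw [hM1]; exact Subgroup.mem_top _
  obtain ⟨w, hw, hw2⟩ := h
  exact ⟨w, hw2, fun f hf => hM2 f (Finset.mem_filter.mpr ⟨Finset.mem_univ _, hf⟩) hw⟩

theorem c5_pow : c5 ^ 5 = 1 := by
  apply Subtype.ext
  change (finRotate 5) ^ 5 = (1 : Equiv.Perm (Fin 5))
  decide

theorem c5_ne : c5 ≠ 1 := by
  intro h
  have h1 := congrArg Subtype.val h
  have h2 : ¬ (finRotate 5 = (1 : Equiv.Perm (Fin 5))) := by decide
  exact h2 h1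

theorem law {k : ℕ} (f₁ : Fin k → P) (surj₁ : Function.Surjective (FreeGroup.lift f₁))
    (w : FreeGroup (Fin k)) (hw1 : FreeGroup.lift f₁ w = c5)
    (hw2 : ∀ f : Fin k → P, ¬ (FreeGroup.lift f).ker ≤ (FreeGroup.lift f₁).ker →
      w ∈ ⁅(FreeGroup.lift f).ker, (FreeGroup.lift f).ker⁆)
    (A : Type) [CommGroup A] (f : Fin k → W A) : (FreeGroup.lift f w) ^ 5 = 1 := by
  have hθ : FreeGroup.lift (fun i => (f i).right) =
      (SemidirectProduct.rightHom (φ := act A)).comp (FreeGroup.lift f) := by
    ext i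
    simp
  have hθw : FreeGroup.lift (fun i => (f i).right) w = (FreeGroup.lift f w).right := by
    rw [hθ]; rfl
  by_cases hk : (FreeGroup.lift (fun i => (f i).right)).ker ≤ (FreeGroup.lift f₁).ker
  · have hk2 := ker_eq _ _ surj₁ hk
    apply pow_five
    · rw [← hθw, ← map_pow]
      apply hk2
      rw [MonoidHom.mem_ker, map_pow, hw1, c5_pow]
    · rw [← hθw]
      intro h
      have : w ∈ (FreeGroup.lift f₁).ker := hk h
      rw [MonoidHom.mem_ker, hw1] at this
      exact c5_ne this
    · have h1 : w ∈ ⁅(FreeGroup.lift (fun _ : Fin k => (1 : P))).ker,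
          (FreeGroup.lift (fun _ : Fin k => (1 : P))).ker⁆ := by
        apply hw2
        intro h
        have : w ∈ (FreeGroup.lift f₁).ker := by
          apply h
          rw [MonoidHom.mem_ker]
          have : FreeGroup.lift (fun _ : Fin k => (1 : P)) = 1 := by
            ext i; simp
          rw [this]; rfl
        rw [MonoidHom.mem_ker, hw1] at this
        exact c5_ne this
      have h2 : ⁅(FreeGroup.lift (fun _ : Fin k => (1 : P))).ker,
          (FreeGroup.lift (fun _ : Fin k => (1 : P))).ker⁆ ≤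
          ((prodHom A).comp (FreeGroup.lift f)).ker := by
        rw [Subgroup.commutator_le]
        intro a _ b _
        rw [MonoidHom.mem_ker, map_commutatorElement, commutatorElement_eq_one_iff_mul_comm, mul_comm]
      exact h2 h1
  · have h1 := hw2 _ hk
    have h2 : ⁅(FreeGroup.lift (fun i => (f i).right)).ker,
        (FreeGroup.lift (fun i => (f i).right)).ker⁆ ≤ (FreeGroup.lift f).ker := by
      rw [Subgroup.commutator_le]
      intro a ha b hb
      rw [MonoidHom.mem_ker, hθ] at ha hb
      rw [MonoidHom.mem_ker, map_commutatorElement, commutatorElement_eq_one_iff_mul_comm]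
      have ha' : (FreeGroup.lift f a).right = 1 := ha
      have hb' : (FreeGroup.lift f b).right = 1 := hb
      apply SemidirectProduct.ext
      · rw [SemidirectProduct.mul_left, SemidirectProduct.mul_left, ha', hb', map_one, MulAut.one_apply,
          MulAut.one_apply, mul_comm]
      · rw [SemidirectProduct.mul_right, SemidirectProduct.mul_right, ha', hb']
    have h3 : FreeGroup.lift f w = 1 := h2 h1
    rw [h3, one_pow]

/-- Functoriality of the wreath product. -/
def mapW {A B : Type} [CommGroup A] [CommGroup B] (h : A →* B) : W A →* W B :=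
  SemidirectProduct.map (h.compLeft (Fin 5)) (MonoidHom.id P) (fun σ => by ext a i; rfl)

instance finW (B : Type) [CommGroup B] [Finite B] : Finite (W B) :=
  Finite.of_equiv _ (SemidirectProduct.equivProd (φ := act B)).symm

theorem resFin (g : W (Multiplicative ℤ)) (hg : g ≠ 1) :
    ∃ H : Subgroup (W (Multiplicative ℤ)), H.Normal ∧ H.FiniteIndex ∧ g ∉ H := by
  by_cases h : g.right = 1
  · have h1 : ∃ i, g.left i ≠ 1 := by
      by_contra hc
      push Not at hc
      exact hg (SemidirectProduct.ext (funext hc) h)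
    obtain ⟨i, hi⟩ := h1
    let z : ℤ := Multiplicative.toAdd (g.left i)
    have hz : z ≠ 0 := fun h0 => hi h0
    let m : ℕ := z.natAbs + 1
    let q : Multiplicative ℤ →* Multiplicative (ZMod m) :=
      AddMonoidHom.toMultiplicative (Int.castAddHom (ZMod m))
    refine ⟨(mapW q).ker, inferInstance, inferInstance, ?_⟩
    intro hmem
    rw [MonoidHom.mem_ker] at hmem
    have h2 : (mapW q g).left i = 1 := by rw [hmem]; rfl
    have h3 : ((z : ℤ) : ZMod m) = 0 := h2
    rw [ZMod.intCast_zmod_eq_zero_iff_dvd] at h3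
    have h4 : (m : ℤ) ∣ z := h3
    have h5 := Int.natAbs_dvd_natAbs.mpr h4
    have h6 : m ≤ z.natAbs := Nat.le_of_dvd (Int.natAbs_pos.mpr hz) (by simpa using h5)
    omega
  · refine ⟨(SemidirectProduct.rightHom (φ := act (Multiplicative ℤ))).ker, inferInstance,
      inferInstance, ?_⟩
    intro hmem
    exact h hmem

/-- Base element. -/
def b0 : Fin 5 → Multiplicative ℤ := fun i => if i = 0 then Multiplicative.ofAdd 1 else 1

/-- An element of infinite order in the base. -/
def u0 : Fin 5 → Multiplicative ℤ := (act (Multiplicative ℤ) c5⁻¹) b0 * b0⁻¹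

theorem u0_zero : u0 0 = Multiplicative.ofAdd (-1) := by
  have h1 : u0 0 = b0 (finRotate 5 0) * (b0 0)⁻¹ := rfl
  rw [h1]
  rfl

theorem main : ∃ (k : ℕ) (w : FreeGroup (Fin k)),
    (∀ f : Fin k → W (Multiplicative ℤ), (FreeGroup.lift f w) ^ 5 = 1) ∧
    ∃ t : W (Multiplicative ℤ), ¬ IsOfFinOrder t ∧
      t ∈ Subgroup.closure (Set.range fun f : Fin k → W (Multiplicative ℤ) => FreeGroup.lift f w) := by
  obtain ⟨k, f₁, hs⟩ := exists_surj
  obtain ⟨w, hw1, hw2⟩ := exists_word f₁ hs
  refine ⟨k, w, law f₁ hs w hw1 hw2 (Multiplicative ℤ), SemidirectProduct.inl u0, ?_, ?_⟩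
  · intro h
    rw [isOfFinOrder_iff_pow_eq_one] at h
    obtain ⟨n, hn, hn1⟩ := h
    rw [← map_pow] at hn1
    have h1 : (u0 ^ n) 0 = 1 := by
      have := SemidirectProduct.inl_injective (hn1.trans (map_one _).symm)
      rw [this]; rfl
    rw [Pi.pow_apply, u0_zero] at h1
    have h2 : n • (-1 : ℤ) = 0 := h1
    simp at h2
    omega
  · have hv : (SemidirectProduct.inr c5 : W (Multiplicative ℤ)) ∈
        Subgroup.closure (Set.range fun f : Fin k → W (Multiplicative ℤ) => FreeGroup.lift f w) := by
      apply Subgroup.subset_closure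
      refine ⟨fun i => SemidirectProduct.inr (f₁ i), ?_⟩
      have : FreeGroup.lift (fun i => (SemidirectProduct.inr (f₁ i) : W (Multiplicative ℤ))) =
          (SemidirectProduct.inr).comp (FreeGroup.lift f₁) := by
        refine FreeGroup.ext_hom _ _ (fun i => ?_)
        rw [MonoidHom.comp_apply, FreeGroup.lift_apply_of, FreeGroup.lift_apply_of]
      change FreeGroup.lift (fun i => (SemidirectProduct.inr (f₁ i) : W (Multiplicative ℤ))) w = _
      rw [this, MonoidHom.comp_apply, hw1]
    have hv2 : (SemidirectProduct.inl b0 : W (Multiplicative ℤ)) * SemidirectProduct.inr c5 *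
        (SemidirectProduct.inl b0)⁻¹ ∈
        Subgroup.closure (Set.range fun f : Fin k → W (Multiplicative ℤ) => FreeGroup.lift f w) := by
      apply Subgroup.subset_closure
      refine ⟨fun i => (SemidirectProduct.inl b0 : W (Multiplicative ℤ)) *
        SemidirectProduct.inr (f₁ i) * (SemidirectProduct.inl b0)⁻¹, ?_⟩
      have : FreeGroup.lift (fun i => (SemidirectProduct.inl b0 : W (Multiplicative ℤ)) *
          SemidirectProduct.inr (f₁ i) * (SemidirectProduct.inl b0)⁻¹) =
          (MulAut.conj (SemidirectProduct.inl b0 : W (Multiplicative ℤ))).toMonoidHom.comp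
          ((SemidirectProduct.inr).comp (FreeGroup.lift f₁)) := by
        refine FreeGroup.ext_hom _ _ (fun i => ?_)
        rw [MonoidHom.comp_apply, MonoidHom.comp_apply, FreeGroup.lift_apply_of,
          FreeGroup.lift_apply_of]
        rfl
      change FreeGroup.lift (fun i => (SemidirectProduct.inl b0 : W (Multiplicative ℤ)) *
          SemidirectProduct.inr (f₁ i) * (SemidirectProduct.inl b0)⁻¹) w = _
      rw [this, MonoidHom.comp_apply, MonoidHom.comp_apply, hw1]
      rfl
    have h3 := Subgroup.mul_mem _ (Subgroup.inv_mem _ hv) hv2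
    have h4 : (SemidirectProduct.inr c5 : W (Multiplicative ℤ))⁻¹ *
        ((SemidirectProduct.inl b0 : W (Multiplicative ℤ)) * SemidirectProduct.inr c5 *
        (SemidirectProduct.inl b0)⁻¹) = SemidirectProduct.inl u0 := by
      rw [u0, map_mul, SemidirectProduct.inl_aut]
      simp [mul_assoc]
    rw [← h4]
    exact h3

/-- The negation of the preceding statement: For every n ≥ 1, every group word w and every residually finite group G in which all values of w have order dividing n, every finitely generated subgroup of the verbal subgroup w(G) is finite. -/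
theorem result :
    ¬ (∀ (n : ℕ), 0 < n → ∀ (k : ℕ) (w : FreeGroup (Fin k)) (G : Type) [Group G],
      (∀ g : G, g ≠ 1 → ∃ H : Subgroup G, H.Normal ∧ H.FiniteIndex ∧ g ∉ H) →
      (∀ f : Fin k → G, (FreeGroup.lift f w) ^ n = 1) →
      ∀ s : Finset G,
        (↑s : Set G) ⊆
          (Subgroup.closure (Set.range fun f : Fin k → G => FreeGroup.lift f w) : Set G) →
        (Subgroup.closure (↑s : Set G) : Set G).Finite) := by
  intro H
  obtain ⟨k, w, hw, t, ht, htm⟩ := main
  have h := H 5 (by norm_num) k w (W (Multiplicative ℤ)) resFin hw {t} (by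
    intro x hx
    rw [Finset.mem_coe, Finset.mem_singleton] at hx
    rw [hx]
    exact htm)
  apply ht
  rw [Finset.coe_singleton, ← Subgroup.zpowers_eq_closure] at h
  exact finite_zpowers.mp h

end Pool.Agent.S01488
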