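import Pool.Statements.S01508
import Pool.Agent.Helper199.NavarroRep

set_option autoImplicit false
open Pool Pool.MP_943e8c_al

namespace Pool.Agent.S01508

/-- The negation of the preceding statement: For every finite group G, the product over primes p dividing ∣G∣ of the largest irreducible complex representation dimension of a Sylow p-subgroup is at most the largest irreducible complex representation dimension of G. -/
theorem result :
    ¬ (∀ (G : Type) [Group G] [Fintype G],
      ∏ p ∈ (Fintype.card G).primeFactors,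
          sSup {n : ℕ | ∃ P : Sylow p G, ∃ V : FDRep ℂ ↥(P : Subgroup G),
            CategoryTheory.Simple V ∧ Module.finrank ℂ V = n}
        ≤ sSup {n : ℕ | ∃ V : FDRep ℂ G,
            CategoryTheory.Simple V ∧ Module.finrank ℂ V = n}) := by
  intro hconj
  classical
  open Pool.Agent.Helper199.Navarro Pool.Agent.Helper199.RepDim in
  have hmain := hconj G
  have hcard : Fintype.card Pool.Agent.Helper199.Navarro.G = 2 ^ 3 * 3 ^ 10 := by
    rw [← Nat.card_eq_fintype_card]
    exact Pool.Agent.Helper199.Navarro.cardG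
  have hpf : (2 ^ 3 * 3 ^ 10 : ℕ).primeFactors = {2, 3} := by
    rw [Nat.primeFactors_mul (by norm_num) (by norm_num), Nat.primeFactors_prime_pow (by norm_num) Nat.prime_two,
      Nat.primeFactors_prime_pow (by norm_num) Nat.prime_three]
    rfl
  rw [hcard, hpf] at hmain
  rw [Finset.prod_pair (by norm_num)] at hmain
  have hbdd : ∀ p : ℕ, BddAbove {n : ℕ | ∃ P : Sylow p Pool.Agent.Helper199.Navarro.G,
      ∃ V : FDRep ℂ ↥(P : Subgroup Pool.Agent.Helper199.Navarro.G),
      CategoryTheory.Simple V ∧ Module.finrank ℂ V = n} := by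
    intro p
    refine ⟨Nat.card Pool.Agent.Helper199.Navarro.G, ?_⟩
    rintro n ⟨P, V, hV, rfl⟩
    exact (Pool.Agent.Helper199.RepDim.finrank_le_card V).trans
      (Nat.card_le_card_of_injective _ (P : Subgroup Pool.Agent.Helper199.Navarro.G).subtype_injective)
  have h2 : 2 ≤ sSup {n : ℕ | ∃ P : Sylow 2 Pool.Agent.Helper199.Navarro.G,
      ∃ V : FDRep ℂ ↥(P : Subgroup Pool.Agent.Helper199.Navarro.G),
      CategoryTheory.Simple V ∧ Module.finrank ℂ V = n} := by
    obtain ⟨P, V, hV, hd⟩ := Pool.Agent.Helper199.Navarro.lower2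
    exact hd.trans (le_csSup (hbdd 2) ⟨P, V, hV, rfl⟩)
  have h3 : 81 ≤ sSup {n : ℕ | ∃ P : Sylow 3 Pool.Agent.Helper199.Navarro.G,
      ∃ V : FDRep ℂ ↥(P : Subgroup Pool.Agent.Helper199.Navarro.G),
      CategoryTheory.Simple V ∧ Module.finrank ℂ V = n} := by
    obtain ⟨P, V, hV, hd⟩ := Pool.Agent.Helper199.Navarro.lower3
    exact hd.trans (le_csSup (hbdd 3) ⟨P, V, hV, rfl⟩)
  have hup : sSup {n : ℕ | ∃ V : FDRep ℂ Pool.Agent.Helper199.Navarro.G,
      CategoryTheory.Simple V ∧ Module.finrank ℂ V = n} ≤ 108 := by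
    apply csSup_le'
    rintro n ⟨V, hV, rfl⟩
    exact Pool.Agent.Helper199.Navarro.upper V
  have h162 := Nat.mul_le_mul h2 h3
  have := (h162.trans hmain).trans hup
  omega

end Pool.Agent.S01508
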