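-- Proof of the negation (frozen statement S01510).
import Pool.Statements.S01510
import Mathlib

set_option autoImplicit false
open Pool Pool.MP_9442c3_al

namespace Pool.Agent.S01510

section bigpowers
open Matrix


/-- If `e² = f² (τ² - 4)` with `f ≠ 0` then `τ² = 4`. -/
theorem sq_lemma {e f τ : ℤ} (hf : f ≠ 0) (h : e ^ 2 = f ^ 2 * (τ ^ 2 - 4)) : τ ^ 2 = 4 := by
  have h1 : f ∣ e := by
    rw [← Int.pow_dvd_pow_iff (n := 2) two_ne_zero]
    exact ⟨_, h⟩
  obtain ⟨k, rfl⟩ := h1
  have h2 : k ^ 2 = τ ^ 2 - 4 := by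
    have : f ^ 2 * (k ^ 2) = f ^ 2 * (τ ^ 2 - 4) := by rw [← h]; ring
    exact mul_left_cancel₀ (pow_ne_zero 2 hf) this
  -- work with absolute values
  have h3 : |k| ^ 2 = |τ| ^ 2 - 4 := by rw [sq_abs, sq_abs]; exact h2
  have hk := abs_nonneg k
  have ht := abs_nonneg τ
  have hlt : |k| < |τ| := by nlinarith
  have h4 : (|τ| - |k|) * (|τ| + |k|) = 4 := by nlinarith
  have h5 : |τ| - |k| ≤ 2 := by nlinarith
  have h6 : |τ| - |k| = 1 ∨ |τ| - |k| = 2 := by omega
  rcases h6 with h6 | h6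
  · rw [h6, one_mul] at h4; omega
  · rw [h6] at h4
    have : |τ| = 2 := by omega
    rw [← sq_abs, this]; norm_num

/-- Integers `a + μ b = 0` with `μ` a root of `X² - t X + 1`, `t ≥ 3`. -/
theorem irr_lemma {t a b : ℤ} {μ : ℝ} (ht : 3 ≤ t) (hμ : μ ^ 2 - t * μ + 1 = 0)
    (h : (a : ℝ) + μ * b = 0) : a = 0 ∧ b = 0 := by
  have hb : b = 0 := by
    by_contra hb
    have h1 : (2 * a + t * b) ^ 2 = b ^ 2 * (t ^ 2 - 4) := by
      have ha : (a : ℝ) = -(μ * b) := by linarith
      have : ((2 * a + t * b : ℤ) : ℝ) ^ 2 = ((b ^ 2 * (t ^ 2 - 4) : ℤ) : ℝ) := by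
        push_cast
        rw [ha]
        linear_combination 4 * (b : ℝ) ^ 2 * hμ
      exact_mod_cast this
    have := sq_lemma hb h1
    nlinarith
  subst hb
  refine ⟨?_, rfl⟩
  have : (a : ℝ) = 0 := by simpa using h
  exact_mod_cast this

/-- Unipotent case. -/
theorem unip_lemma {p q r a b c d : ℤ} (hN : p ^ 2 + q * r = 0) (hne : ¬ (p = 0 ∧ q = 0 ∧ r = 0))
    (hdet : a * d - b * c = 1) (htr : p * (a - d) + q * c + r * b = 0) :
    q * c = r * b ∧ 2 * p * b = q * (a - d) ∧ r * (a - d) = 2 * p * c := by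
  have e1 : (q * c - r * b) ^ 2 = p ^ 2 * ((a + d) ^ 2 - 4) := by
    have h1 : q * c + r * b = -(p * (a - d)) := by linarith
    have : (q * c - r * b) ^ 2 = (q * c + r * b) ^ 2 - 4 * (q * r) * (b * c) := by ring
    rw [this, h1, show q * r = -p ^ 2 by linarith, show b * c = a * d - 1 by linarith]
    ring
  have e2 : (2 * p * b - q * (a - d)) ^ 2 = q ^ 2 * ((a + d) ^ 2 - 4) := by
    linear_combination (4 * b ^ 2) * hN - 4 * q * b * htr - 4 * q ^ 2 * hdet
  have e3 : (r * (a - d) - 2 * p * c) ^ 2 = r ^ 2 * ((a + d) ^ 2 - 4) := by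
    linear_combination (4 * c ^ 2) * hN - 4 * r * c * htr - 4 * r ^ 2 * hdet
  have hτ : (a + d) ^ 2 = 4 := by
    by_cases hp : p = 0
    · by_cases hq : q = 0
      · have hr : r ≠ 0 := fun h => hne ⟨hp, hq, h⟩
        exact sq_lemma hr e3
      · exact sq_lemma hq e2
    · exact sq_lemma hp e1
  rw [hτ] at e1 e2 e3
  simp only [sub_self, mul_zero] at e1 e2 e3
  have f1 := pow_eq_zero_iff (two_ne_zero) |>.mp e1
  have f2 := pow_eq_zero_iff (two_ne_zero) |>.mp e2
  have f3 := pow_eq_zero_iff (two_ne_zero) |>.mp e3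
  exact ⟨by linarith, by linarith, by linarith⟩

/-- Cast of integer matrices to real ones. -/
noncomputable def toR : Matrix (Fin 2) (Fin 2) ℤ →+* Matrix (Fin 2) (Fin 2) ℝ :=
  (Int.castRingHom ℝ).mapMatrix

theorem toR_apply (M : Matrix (Fin 2) (Fin 2) ℤ) (i j : Fin 2) : toR M i j = (M i j : ℝ) := by
  simp [toR]

/-- Integer version: entries. `Q = [a,b;c,d]`, `y = [e,f;g,h]`. -/
theorem comm_of_zero {a b c d e f g h : ℤ} {μ : ℝ} (hQ : a * d - b * c = 1) (hy : e * h - f * g = 1)
    (ht : 2 ≤ a + d) (hne : ¬ (a = 1 ∧ b = 0 ∧ c = 0 ∧ d = 1))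
    (hμ : μ ^ 2 - ((a + d : ℤ) : ℝ) * μ + 1 = 0)
    (hz : (!![(a : ℝ) - μ, b; c, d - μ] * !![(e : ℝ), f; g, h]) * !![(d : ℝ) - μ, -b; -c, a - μ] = 0) :
    b * g = f * c ∧ a * f + b * h = e * b + f * d ∧ c * e + d * g = g * a + h * c := by
  have z00 := congrFun (congrFun hz 0) 0
  have z01 := congrFun (congrFun hz 0) 1
  have z10 := congrFun (congrFun hz 1) 0
  have z11 := congrFun (congrFun hz 1) 1
  simp [Matrix.mul_apply, Fin.sum_univ_two] at z00 z01 z10 z11
  rcases eq_or_lt_of_le ht with ht2 | ht3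
  · -- unipotent case
    have hμ1 : μ = 1 := by
      rw [← ht2] at hμ
      push_cast at hμ
      nlinarith
    subst hμ1
    have hd : d = 2 - a := by omega
    subst hd
    obtain ⟨p, rfl⟩ : ∃ p, a = p + 1 := ⟨a - 1, by ring⟩
    have hN : p ^ 2 + b * c = 0 := by linarith
    have hne' : ¬ (p = 0 ∧ b = 0 ∧ c = 0) := by
      rintro ⟨rfl, rfl, rfl⟩
      apply hne
      simp
    have w00 : p * (p * (e - h) + b * g + c * f) = 0 := by
      have : ((p * (p * (e - h) + b * g + c * f) : ℤ) : ℝ) = 0 := by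
        push_cast at z00 ⊢
        have hN' : (p : ℝ) ^ 2 + b * c = 0 := by exact_mod_cast hN
        linear_combination -z00 - (h : ℝ) * hN'
      exact_mod_cast this
    have w01 : b * (p * (e - h) + b * g + c * f) = 0 := by
      have : ((b * (p * (e - h) + b * g + c * f) : ℤ) : ℝ) = 0 := by
        push_cast at z01 ⊢
        have hN' : (p : ℝ) ^ 2 + b * c = 0 := by exact_mod_cast hN
        linear_combination -z01 + (f : ℝ) * hN'
      exact_mod_cast this
    have w10 : c * (p * (e - h) + b * g + c * f) = 0 := by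
      have : ((c * (p * (e - h) + b * g + c * f) : ℤ) : ℝ) = 0 := by
        push_cast at z10 ⊢
        have hN' : (p : ℝ) ^ 2 + b * c = 0 := by exact_mod_cast hN
        linear_combination -z10 + (g : ℝ) * hN'
      exact_mod_cast this
    have hτ : p * (e - h) + b * g + c * f = 0 := by
      by_contra hτ
      apply hne'
      exact ⟨(mul_eq_zero.mp w00).resolve_right hτ, (mul_eq_zero.mp w01).resolve_right hτ,
        (mul_eq_zero.mp w10).resolve_right hτ⟩
    obtain ⟨u1, u2, u3⟩ := unip_lemma hN hne' hy hτ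
    refine ⟨by linarith, by linarith, by linarith⟩
  · -- irrational case
    have ht3' : 3 ≤ a + d := ht3
    have key : ∀ A B Y : ℤ, (A : ℝ) + μ * B + (μ ^ 2 - ((a + d : ℤ) : ℝ) * μ + 1) * Y = 0 → A = 0 ∧ B = 0 := by
      intro A B Y h0
      rw [hμ, zero_mul, add_zero] at h0
      exact irr_lemma ht3' hμ h0
    have k00 := (key ((a * e + b * g) * d - (a * f + b * h) * c - e) (f * c - b * g) e (by
      push_cast
      linear_combination z00)).2
    have k01 := (key (-(a * e + b * g) * b + (a * f + b * h) * a - f)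
      (d * f - b * h + e * b - f * a) f (by
      push_cast
      linear_combination z01)).2
    have k10 := (key ((c * e + d * g) * d - (c * f + d * h) * c - g)
      (a * g - c * e - g * d + h * c) g (by
      push_cast
      linear_combination z10)).2
    refine ⟨by linarith, by linarith, by linarith⟩

section limit

def U (t : ℤ) : ℕ → ℤ
  | 0 => 0
  | 1 => 1
  | (n + 2) => t * U t (n + 1) - U t n

variable {t : ℤ}

theorem U_step (n : ℕ) : U t (n + 2) = t * U t (n + 1) - U t n := rfl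

theorem U_mono (ht : 2 ≤ t) : ∀ n, 0 ≤ U t n ∧ U t n + 1 ≤ U t (n + 1) := by
  intro n
  induction n with
  | zero => simp [U]
  | succ n ih =>
    obtain ⟨h1, h2⟩ := ih
    refine ⟨by omega, ?_⟩
    rw [U_step]
    nlinarith

theorem U_ge (ht : 2 ≤ t) (n : ℕ) : (n : ℤ) ≤ U t n := by
  induction n with
  | zero => simp [U]
  | succ n ih =>
    have := (U_mono ht n).2
    push_cast
    linarith

theorem cassini (n : ℕ) : U t (n + 1) ^ 2 - U t n * U t (n + 2) = 1 := by
  induction n with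
  | zero => simp [U]
  | succ n ih =>
    rw [← ih, U_step (n + 1), U_step n]
    ring

/-- The ratio sequence. -/
noncomputable def rr (t : ℤ) (n : ℕ) : ℝ := (U t n : ℝ) / (U t (n + 1) : ℝ)

theorem U_pos (ht : 2 ≤ t) (n : ℕ) : (0 : ℝ) < (U t (n + 1) : ℝ) := by
  have := U_mono ht n
  have h : 0 < U t (n + 1) := by omega
  exact_mod_cast h

theorem rr_mono (ht : 2 ≤ t) : Monotone (rr t) := by
  apply monotone_nat_of_le_succ
  intro n
  unfold rr
  rw [div_le_div_iff₀ (U_pos ht n) (U_pos ht (n + 1))]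
  have h := cassini (t := t) n
  have : U t n * U t (n + 1 + 1) ≤ U t (n + 1) * U t (n + 1) := by
    rw [show n + 1 + 1 = n + 2 from rfl]
    nlinarith
  exact_mod_cast this

theorem rr_le_one (ht : 2 ≤ t) (n : ℕ) : rr t n ≤ 1 := by
  unfold rr
  rw [div_le_one (U_pos ht n)]
  have := (U_mono ht n).2
  have h : U t n ≤ U t (n + 1) := by omega
  exact_mod_cast h

theorem rr_rec (ht : 2 ≤ t) (n : ℕ) : rr t (n + 1) * ((t : ℝ) - rr t n) = 1 := by
  unfold rr
  have h1 := (U_pos ht n).ne'
  have h2 := (U_pos ht (n + 1)).ne'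
  have h3 : ((U t (n + 1 + 1) : ℤ) : ℝ) = t * U t (n + 1) - U t n := by
    rw [show n + 1 + 1 = n + 2 from rfl, U_step]
    push_cast
    ring
  rw [h3] at h2
  rw [h3]
  field_simp
  exact div_self (by rwa [mul_comm] at h2)

theorem rr_tendsto (ht : 2 ≤ t) : ∃ μ : ℝ, Filter.Tendsto (rr t) Filter.atTop (nhds μ) ∧
    μ ^ 2 - (t : ℝ) * μ + 1 = 0 := by
  have hb : BddAbove (Set.range (rr t)) := ⟨1, by rintro _ ⟨n, rfl⟩; exact rr_le_one ht n⟩
  have h1 := tendsto_atTop_ciSup (rr_mono ht) hb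
  refine ⟨_, h1, ?_⟩
  set μ := ⨆ i, rr t i
  have h2 : Filter.Tendsto (fun n => rr t (n + 1)) Filter.atTop (nhds μ) :=
    h1.comp (Filter.tendsto_add_atTop_nat 1)
  have h3 : Filter.Tendsto (fun n => rr t (n + 1) * ((t : ℝ) - rr t n)) Filter.atTop
      (nhds (μ * ((t : ℝ) - μ))) := h2.mul (tendsto_const_nhds.sub h1)
  have h4 : Filter.Tendsto (fun n => rr t (n + 1) * ((t : ℝ) - rr t n)) Filter.atTop (nhds 1) := by
    simp only [rr_rec ht]
    exact tendsto_const_nhds
  have h5 := tendsto_nhds_unique h3 h4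
  linarith

end limit

section rank
variable {P X Z : Matrix (Fin 2) (Fin 2) ℝ}

theorem rank_one (hP : P 0 0 * P 1 1 = P 0 1 * P 1 0) : ∃ u v : Fin 2 → ℝ, P = Matrix.vecMulVec u v := by
  by_cases h00 : P 0 0 = 0
  · rw [h00, zero_mul] at hP
    rcases mul_eq_zero.mp hP.symm with h | h
    · refine ⟨![0, 1], ![P 1 0, P 1 1], ?_⟩
      ext i j
      fin_cases i <;> fin_cases j <;> simp [Matrix.vecMulVec, h00, h]
    · refine ⟨![P 0 1, P 1 1], ![0, 1], ?_⟩
      ext i j
      fin_cases i <;> fin_cases j <;> simp [Matrix.vecMulVec, h00, h]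
  · refine ⟨![1, P 1 0 / P 0 0], ![P 0 0, P 0 1], ?_⟩
    ext i j
    fin_cases i <;> fin_cases j <;> simp [Matrix.vecMulVec]
    · field_simp
    · field_simp
      linarith

theorem mul_ne_zero_of_rank (hP : P 0 0 * P 1 1 = P 0 1 * P 1 0) (h1 : X * P ≠ 0) (h2 : P * Z ≠ 0) :
    X * P * Z ≠ 0 := by
  obtain ⟨u, v, rfl⟩ := rank_one hP
  rw [Matrix.mul_vecMulVec] at h1
  rw [Matrix.vecMulVec_mul] at h2
  rw [Matrix.mul_vecMulVec, Matrix.vecMulVec_mul]
  intro h
  have hu : X.mulVec u ≠ 0 := by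
    rintro h0
    apply h1
    rw [h0]
    ext i j; simp [Matrix.vecMulVec]
  have hv : Matrix.vecMul v Z ≠ 0 := by
    rintro h0
    apply h2
    rw [h0]
    ext i j; simp [Matrix.vecMulVec]
  obtain ⟨i, hi⟩ := Function.ne_iff.mp hu
  obtain ⟨j, hj⟩ := Function.ne_iff.mp hv
  have := congrFun (congrFun h i) j
  simp only [Matrix.vecMulVec_apply, Matrix.zero_apply] at this
  rcases mul_eq_zero.mp this with h | h
  · exact hi h
  · exact hj h

end rank

/-- Good lists of pairs relative to `Q`. -/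
def Good {G : Type*} [Group G] (Q : G) : List (G × G) → Prop
  | [] => False
  | [p] => Q * p.1 ≠ p.1 * Q
  | (p :: q :: L) => Q * p.1 ≠ p.1 * Q ∧ Q * p.2 ≠ p.2 * Q ∧ Good Q (q :: L)

abbrev S2 := Matrix.SpecialLinearGroup (Fin 2) ℤ

/-- Real matrix of an integer unimodular matrix. -/
noncomputable def RR (g : S2) : Matrix (Fin 2) (Fin 2) ℝ := toR g.1

theorem RR_mul (g h : S2) : RR (g * h) = RR g * RR h := by
  unfold RR
  rw [Matrix.SpecialLinearGroup.coe_mul, map_mul]

theorem RR_one : RR 1 = 1 := by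
  unfold RR
  rw [Matrix.SpecialLinearGroup.coe_one, map_one]

theorem RR_inv_mul (g : S2) : RR g⁻¹ * RR g = 1 := by
  rw [← RR_mul, inv_mul_cancel, RR_one]

theorem RR_mul_inv (g : S2) : RR g * RR g⁻¹ = 1 := by
  rw [← RR_mul, mul_inv_cancel, RR_one]

/-- The trace. -/
def tr (g : S2) : ℤ := g.1 0 0 + g.1 1 1

theorem inv_entries (g : S2) : (g⁻¹).1 = !![g.1 1 1, -g.1 0 1; -g.1 1 0, g.1 0 0] := by
  rw [Matrix.SpecialLinearGroup.coe_inv, Matrix.adjugate_fin_two]

theorem tr_inv (g : S2) : tr g⁻¹ = tr g := by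
  unfold tr
  rw [inv_entries]
  simp
  ring

theorem det_entries (g : S2) : g.1 0 0 * g.1 1 1 - g.1 0 1 * g.1 1 0 = 1 := by
  have := g.2
  rwa [Matrix.det_fin_two] at this

theorem pow_formula (Q : S2) (n : ℕ) :
    (Q ^ (n + 1)).1 = U (tr Q) (n + 1) • Q.1 - U (tr Q) n • (1 : Matrix (Fin 2) (Fin 2) ℤ) := by
  induction n with
  | zero => simp [U]
  | succ n ih =>
    rw [pow_succ, Matrix.SpecialLinearGroup.coe_mul, ih, U_step]
    have hCH : Q.1 * Q.1 = tr Q • Q.1 - 1 := by
      have hd := det_entries Q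
      ext i j
      fin_cases i <;> fin_cases j <;>
        simp [Matrix.mul_apply, Fin.sum_univ_two, tr, -zsmul_eq_mul] <;> linarith
    rw [sub_mul, smul_mul_assoc, smul_mul_assoc, hCH, one_mul]
    module

theorem RR_pow (Q : S2) (ht : 2 ≤ tr Q) (n : ℕ) :
    RR (Q ^ (n + 1)) = (U (tr Q) (n + 1) : ℝ) • (RR Q - rr (tr Q) n • 1) := by
  have h := (U_pos ht n).ne'
  unfold RR
  rw [pow_formula, map_sub, map_zsmul, map_zsmul, map_one, smul_sub, smul_smul]
  unfold rr
  rw [mul_div_cancel₀ _ h]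
  congr 1
  · ext i j; simp
  · ext i j; simp

theorem RR_pow_inv (Q : S2) (ht : 2 ≤ tr Q) (n : ℕ) :
    RR (Q ^ (n + 1))⁻¹ = (U (tr Q) (n + 1) : ℝ) • (RR Q⁻¹ - rr (tr Q) n • 1) := by
  rw [← inv_pow, RR_pow Q⁻¹ (by rw [tr_inv]; exact ht), tr_inv]

/-- Products along lists. -/
noncomputable def prodR (X X' : Matrix (Fin 2) (Fin 2) ℝ) (L : List (S2 × S2)) :
    Matrix (Fin 2) (Fin 2) ℝ :=
  (L.map (fun p => X * RR p.1 * X' * RR p.2)).prod

theorem prodR_cons (X X' : Matrix (Fin 2) (Fin 2) ℝ) (p : S2 × S2) (L : List (S2 × S2)) :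
    prodR X X' (p :: L) = (X * RR p.1 * X' * RR p.2) * prodR X X' L := by
  simp [prodR]

theorem prodR_nil (X X' : Matrix (Fin 2) (Fin 2) ℝ) : prodR X X' [] = 1 := by
  simp [prodR]

theorem prodR_smul (c : ℝ) (X X' : Matrix (Fin 2) (Fin 2) ℝ) (L : List (S2 × S2)) :
    prodR (c • X) (c • X') L = (c ^ 2) ^ L.length • prodR X X' L := by
  induction L with
  | nil => simp [prodR_nil]
  | cons p L ih =>
    rw [prodR_cons, prodR_cons, ih, List.length_cons, pow_succ]
    simp only [smul_mul_assoc, mul_smul_comm, smul_smul]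
    congr 1
    ring

theorem prodR_word (Q : S2) (L : List (S2 × S2)) (n : ℕ) :
    RR (L.map (fun p => Q ^ n * p.1 * (Q ^ n)⁻¹ * p.2)).prod =
      prodR (RR (Q ^ n)) (RR (Q ^ n)⁻¹) L := by
  induction L with
  | nil => simp [prodR_nil, RR_one]
  | cons p L ih =>
    rw [List.map_cons, List.prod_cons, RR_mul, ih, prodR_cons, RR_mul, RR_mul, RR_mul]

theorem prodR_continuous (A B : Matrix (Fin 2) (Fin 2) ℝ) (L : List (S2 × S2)) :
    Continuous (fun r : ℝ => prodR (A - r • 1) (B - r • 1) L) := by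
  induction L with
  | nil => simp only [prodR_nil]; exact continuous_const
  | cons p L ih =>
    simp only [prodR_cons]
    have h1 : Continuous (fun r : ℝ => A - r • (1 : Matrix (Fin 2) (Fin 2) ℝ)) :=
      continuous_const.sub (continuous_id.smul continuous_const)
    have h2 : Continuous (fun r : ℝ => B - r • (1 : Matrix (Fin 2) (Fin 2) ℝ)) :=
      continuous_const.sub (continuous_id.smul continuous_const)
    exact (((h1.mul continuous_const).mul h2).mul continuous_const).mul ih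

/-- The key nonvanishing of triple products. -/
theorem triple_ne_zero {Q y : S2} {μ : ℝ} (ht : 2 ≤ tr Q) (hQ : Q ≠ 1)
    (hμ : μ ^ 2 - (tr Q : ℝ) * μ + 1 = 0) (hc : Q * y ≠ y * Q) :
    (RR Q - μ • 1) * RR y * (RR Q⁻¹ - μ • 1) ≠ 0 := by
  intro hz
  apply hc
  have e1 : RR Q - μ • 1 = !![(Q.1 0 0 : ℝ) - μ, Q.1 0 1; Q.1 1 0, Q.1 1 1 - μ] := by
    ext i j; fin_cases i <;> fin_cases j <;> simp [RR, toR_apply]
  have e2 : RR y = !![(y.1 0 0 : ℝ), y.1 0 1; y.1 1 0, y.1 1 1] := by
    ext i j; fin_cases i <;> fin_cases j <;> simp [RR, toR_apply]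
  have e3 : RR Q⁻¹ - μ • 1 = !![(Q.1 1 1 : ℝ) - μ, -Q.1 0 1; -Q.1 1 0, Q.1 0 0 - μ] := by
    unfold RR
    rw [inv_entries]
    ext i j; fin_cases i <;> fin_cases j <;> simp [toR_apply]
  rw [e1, e2, e3] at hz
  have hne : ¬ (Q.1 0 0 = 1 ∧ Q.1 0 1 = 0 ∧ Q.1 1 0 = 0 ∧ Q.1 1 1 = 1) := by
    rintro ⟨h1, h2, h3, h4⟩
    apply hQ
    ext i j
    fin_cases i <;> fin_cases j <;> simp [h1, h2, h3, h4]
  have h := comm_of_zero (det_entries Q) (det_entries y) ht hne hμ hz
  obtain ⟨h1, h2, h3⟩ := h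
  ext i j
  fin_cases i <;> fin_cases j <;> simp [Matrix.mul_apply, Fin.sum_univ_two] <;> linarith

theorem sing {Q : S2} {μ : ℝ} (hμ : μ ^ 2 - (tr Q : ℝ) * μ + 1 = 0) :
    (RR Q - μ • 1) 0 0 * (RR Q - μ • 1) 1 1 = (RR Q - μ • 1) 0 1 * (RR Q - μ • 1) 1 0 := by
  have hd : ((Q.1 0 0 : ℝ)) * Q.1 1 1 - Q.1 0 1 * Q.1 1 0 = 1 := by
    exact_mod_cast det_entries Q
  simp [RR, toR_apply]
  unfold tr at hμ
  push_cast at hμ
  linear_combination hμ + hd

theorem left_cancel {g : S2} {M : Matrix (Fin 2) (Fin 2) ℝ} (h : M ≠ 0) : RR g * M ≠ 0 := by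
  intro h0
  apply h
  have : RR g⁻¹ * (RR g * M) = M := by rw [← mul_assoc, RR_inv_mul, one_mul]
  rw [← this, h0, mul_zero]

theorem right_cancel {g : S2} {M : Matrix (Fin 2) (Fin 2) ℝ} (h : M ≠ 0) : M * RR g ≠ 0 := by
  intro h0
  apply h
  have : (M * RR g) * RR g⁻¹ = M := by rw [mul_assoc, RR_mul_inv, mul_one]
  rw [← this, h0, zero_mul]

theorem prodR_ne_zero {Q : S2} {μ : ℝ} (ht : 2 ≤ tr Q) (hQ : Q ≠ 1)
    (hμ : μ ^ 2 - (tr Q : ℝ) * μ + 1 = 0) (L : List (S2 × S2)) (hL : Good Q L) :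
    prodR (RR Q - μ • 1) (RR Q⁻¹ - μ • 1) L ≠ 0 := by
  have ht' : 2 ≤ tr Q⁻¹ := by rw [tr_inv]; exact ht
  have hμ' : μ ^ 2 - (tr Q⁻¹ : ℝ) * μ + 1 = 0 := by rw [tr_inv]; exact hμ
  have hQ' : Q⁻¹ ≠ 1 := inv_ne_one.mpr hQ
  induction L with
  | nil => exact hL.elim
  | cons p L ih =>
    cases L with
    | nil =>
      have hc : Q * p.1 ≠ p.1 * Q := hL
      rw [prodR_cons, prodR_nil, mul_one]
      exact right_cancel (triple_ne_zero ht hQ hμ hc)
    | cons q L =>
      obtain ⟨hc1, hc2, hgood⟩ := hL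
      have hrec := ih hgood
      rw [prodR_cons]
      set P := RR Q - μ • 1
      set P' := RR Q⁻¹ - μ • 1
      have h1 : P * RR p.1 * P' ≠ 0 := triple_ne_zero ht hQ hμ hc1
      have hc2' : Q⁻¹ * p.2 ≠ p.2 * Q⁻¹ := by
        intro h
        apply hc2
        calc Q * p.2 = Q * (p.2 * Q⁻¹) * Q := by group
          _ = Q * (Q⁻¹ * p.2) * Q := by rw [h]
          _ = p.2 * Q := by group
      have h2 : P' * RR p.2 * P ≠ 0 := by
        have := triple_ne_zero ht' hQ' hμ' hc2'
        rwa [inv_inv] at this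
      have h3 : P * RR p.1 * P' * (RR p.2 * P) ≠ 0 :=
        mul_ne_zero_of_rank (sing hμ') h1 (by rwa [← mul_assoc])
      have h4 : (P * RR p.1 * P' * RR p.2) * P ≠ 0 := by rwa [mul_assoc]
      rw [prodR_cons] at hrec ⊢
      have e : P * RR q.1 * P' * RR q.2 * prodR P P' L = P * (RR q.1 * P' * RR q.2 * prodR P P' L) := by
        simp only [mul_assoc]
      rw [e] at hrec ⊢
      rw [← mul_assoc]
      exact mul_ne_zero_of_rank (sing hμ) h4 hrec

theorem Good.length_pos {G : Type*} [Group G] {Q : G} {L : List (G × G)} (h : Good Q L) :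
    1 ≤ L.length := by
  cases L with
  | nil => exact h.elim
  | cons p L => simp

/-- Big powers in `SL(2, ℤ)`, trace at least two. -/
theorem BP_S2 (Q : S2) (ht : 2 ≤ tr Q) (hQ : Q ≠ 1) (x0 : S2) (L : List (S2 × S2))
    (hL : Good Q L) :
    ∃ N : ℕ, ∀ n ≥ N, x0 * (L.map (fun p => Q ^ n * p.1 * (Q ^ n)⁻¹ * p.2)).prod ≠ 1 := by
  obtain ⟨μ, hlim, hμ⟩ := rr_tendsto ht
  set f : ℝ → Matrix (Fin 2) (Fin 2) ℝ :=
    fun r => RR x0 * prodR (RR Q - r • 1) (RR Q⁻¹ - r • 1) L with hf
  have hfc : Continuous f := continuous_const.mul (prodR_continuous _ _ L)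
  have hfμ : f μ ≠ 0 := left_cancel (prodR_ne_zero ht hQ hμ L hL)
  obtain ⟨i, hi⟩ := Function.ne_iff.mp hfμ
  obtain ⟨j, hj⟩ := Function.ne_iff.mp hi
  have hj' : f μ i j ≠ 0 := hj
  have hent : Continuous (fun r => |f r i j|) := (hfc.matrix_elem i j).abs
  have hten : Filter.Tendsto (fun n => |f (rr (tr Q) n) i j|) Filter.atTop (nhds |f μ i j|) :=
    (hent.tendsto μ).comp hlim
  have hpos : 0 < |f μ i j| := abs_pos.mpr hj'
  have hev := hten.eventually (lt_mem_nhds (show |f μ i j| / 2 < |f μ i j| by linarith))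
  obtain ⟨N1, hN1⟩ := Filter.eventually_atTop.mp hev
  obtain ⟨N2, hN2⟩ := exists_nat_gt (1 / (|f μ i j| / 2))
  refine ⟨max N1 N2 + 1, ?_⟩
  intro n hn hW
  obtain ⟨m, rfl⟩ : ∃ m, n = m + 1 := ⟨n - 1, by omega⟩
  have hm1 : N1 ≤ m := by have := le_max_left N1 N2; omega
  have hm2 : N2 ≤ m := by have := le_max_right N1 N2; omega
  have h1 := congrArg RR hW
  rw [RR_mul, prodR_word, RR_pow Q ht, RR_pow_inv Q ht, prodR_smul, RR_one, mul_smul_comm] at h1
  have h2 := congrFun (congrFun h1 i) j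
  rw [Matrix.smul_apply, smul_eq_mul] at h2
  set c : ℝ := (U (tr Q) (m + 1) : ℝ) with hc
  have hcm : (m : ℝ) + 1 ≤ c := by
    have := U_ge ht (m + 1)
    have h : (((m + 1 : ℕ) : ℤ) : ℝ) ≤ ((U (tr Q) (m + 1) : ℤ) : ℝ) := Int.cast_le.mpr this
    rw [hc]
    push_cast at h
    exact h
  have hc1 : 1 ≤ c := by
    have : (0 : ℝ) ≤ m := Nat.cast_nonneg m
    linarith
  have hck : c ≤ (c ^ 2) ^ L.length := by
    have hk := hL.length_pos
    calc c ≤ c ^ 2 := by nlinarith
      _ = (c ^ 2) ^ 1 := (pow_one _).symm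
      _ ≤ (c ^ 2) ^ L.length := pow_le_pow_right₀ (by nlinarith) hk
  have h3 : |(c ^ 2) ^ L.length * f (rr (tr Q) m) i j| ≤ 1 := by
    have : (c ^ 2) ^ L.length * f (rr (tr Q) m) i j = (1 : Matrix (Fin 2) (Fin 2) ℝ) i j := h2
    rw [this, Matrix.one_apply]
    split_ifs <;> simp
  rw [abs_mul, abs_of_pos (by positivity)] at h3
  have h4 := hN1 m hm1
  have h5 : (m : ℝ) + 1 ≤ (c ^ 2) ^ L.length := hcm.trans hck
  have h6 : ((m : ℝ) + 1) * (|f μ i j| / 2) < 1 := by
    have h7 : 0 ≤ |f (rr (tr Q) m) i j| := abs_nonneg _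
    have : (0 : ℝ) ≤ m := Nat.cast_nonneg m
    calc ((m : ℝ) + 1) * (|f μ i j| / 2) < ((m : ℝ) + 1) * |f (rr (tr Q) m) i j| := by
          apply mul_lt_mul_of_pos_left h4; linarith
      _ ≤ (c ^ 2) ^ L.length * |f (rr (tr Q) m) i j| := mul_le_mul_of_nonneg_right h5 h7
      _ ≤ 1 := h3
  have h8 : (N2 : ℝ) ≤ m := by exact_mod_cast hm2
  have h9 : 1 / (|f μ i j| / 2) < (m : ℝ) + 1 := by linarith
  rw [div_lt_iff₀ (by linarith)] at h9
  linarith

/-- The negative of a matrix. -/
theorem BP_S2' (Q : S2) (ht : 2 ≤ |tr Q|) (hQ : Q ≠ 1) (hQ' : Q ≠ -1) (x0 : S2) (L : List (S2 × S2))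
    (hL : Good Q L) :
    ∃ N : ℕ, ∀ n ≥ N, x0 * (L.map (fun p => Q ^ n * p.1 * (Q ^ n)⁻¹ * p.2)).prod ≠ 1 := by
  rcases le_abs.mp ht with h | h
  · exact BP_S2 Q h hQ x0 L hL
  · have htr : tr (-Q) = -tr Q := by
      unfold tr
      simp
      ring
    have hgood : Good (-Q) L := by
      clear x0
      induction L with
      | nil => exact hL.elim
      | cons p L ih =>
        cases L with
        | nil =>
          have : Q * p.1 ≠ p.1 * Q := hL
          show -Q * p.1 ≠ p.1 * -Q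
          rw [neg_mul, mul_neg]
          exact fun h => this (neg_injective h)
        | cons q L =>
          obtain ⟨h1, h2, h3⟩ := hL
          refine ⟨?_, ?_, ih h3⟩
          · rw [neg_mul, mul_neg]
            exact fun h => h1 (neg_injective h)
          · rw [neg_mul, mul_neg]
            exact fun h => h2 (neg_injective h)
    obtain ⟨N, hN⟩ := BP_S2 (-Q) (by rw [htr]; exact h) (fun h => hQ' (by rw [← h, neg_neg]))
      x0 L hgood
    refine ⟨N, fun n hn => ?_⟩
    have := hN n hn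
    have e : ∀ p : S2 × S2, (-Q) ^ n * p.1 * ((-Q) ^ n)⁻¹ * p.2 = Q ^ n * p.1 * (Q ^ n)⁻¹ * p.2 := by
      intro p
      rcases Nat.even_or_odd n with he | ho
      · rw [he.neg_pow]
      · rw [ho.neg_pow]
        have : (-(Q ^ n))⁻¹ = -(Q ^ n)⁻¹ := by
          rw [inv_eq_iff_mul_eq_one]
          simp
        rw [this]
        simp
    simpa only [e] using this

/-! ### The representation of the free group of rank two -/

abbrev H0 := FreeGroup (Fin 2)

def sA : S2 := ⟨!![1, 2; 0, 1], by simp [Matrix.det_fin_two]⟩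
def sB : S2 := ⟨!![1, 0; 2, 1], by simp [Matrix.det_fin_two]⟩

/-- The Sanov representation. -/
def sig : H0 →* S2 := FreeGroup.lift ![sA, sB]

def gA : GL (Fin 2) ℚ :=
  ⟨!![1, 2; 0, 1], !![1, -2; 0, 1],
    by ext i j; fin_cases i <;> fin_cases j <;> norm_num [Matrix.mul_apply, Fin.sum_univ_two],
    by ext i j; fin_cases i <;> fin_cases j <;> norm_num [Matrix.mul_apply, Fin.sum_univ_two]⟩

def gB : GL (Fin 2) ℚ :=
  ⟨!![1, 0; 2, 1], !![1, 0; -2, 1],
    by ext i j; fin_cases i <;> fin_cases j <;> norm_num [Matrix.mul_apply, Fin.sum_univ_two],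
    by ext i j; fin_cases i <;> fin_cases j <;> norm_num [Matrix.mul_apply, Fin.sum_univ_two]⟩

def XX : Fin 2 → Set (OnePoint ℚ) :=
  ![{z | z.elim True (fun t => 1 < t)}, {z | z.elim False (fun t => 0 ≤ t ∧ t ≤ 1)}]

def YY : Fin 2 → Set (OnePoint ℚ) :=
  ![{z | z.elim False (fun t => t ≤ -1)}, {z | z.elim False (fun t => -1 < t ∧ t < 0)}]

open scoped Function Pointwise in
theorem rho_injective : Function.Injective (FreeGroup.lift ![gA, gB]) := by
  apply FreeGroup.injective_lift_of_ping_pong ![gA, gB] XX YY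
  · intro i
    fin_cases i
    · exact ⟨OnePoint.infty, by simp [XX]⟩
    · exact ⟨((0 : ℚ) : OnePoint ℚ), by simp [XX]⟩
  · intro i j hij
    rw [Function.onFun, Set.disjoint_left]
    intro z h1 h2
    induction z using OnePoint.rec <;> fin_cases i <;> fin_cases j <;> simp_all [XX] <;> linarith
  · intro i j hij
    rw [Function.onFun, Set.disjoint_left]
    intro z h1 h2
    induction z using OnePoint.rec <;> fin_cases i <;> fin_cases j <;> simp_all [YY] <;> linarith
  · intro i j
    rw [Set.disjoint_left]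
    intro z h1 h2
    induction z using OnePoint.rec <;> fin_cases i <;> fin_cases j <;> simp_all [XX, YY] <;> linarith
  · intro i
    rw [Set.smul_set_subset_iff]
    intro z hz
    induction z using OnePoint.rec with
    | infty =>
      rw [OnePoint.smul_infty_eq_ite]
      fin_cases i <;> simp_all [XX, YY, gA, gB]
      norm_num
    | coe t =>
      rw [OnePoint.smul_some_eq_ite]
      fin_cases i <;> simp_all [XX, YY, gA, gB]
      · linarith
      · rcases le_or_gt t (-1) with h | h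
        · have h1 : 2 * t + 1 < 0 := by linarith
          rw [if_neg h1.ne]
          simp only [OnePoint.elim_some]
          exact ⟨div_nonneg_of_nonpos (by linarith) h1.le, by rw [div_le_one_of_neg h1]; linarith⟩
        · have h0 := hz h
          have h1 : 0 < 2 * t + 1 := by linarith
          rw [if_neg h1.ne']
          simp only [OnePoint.elim_some]
          exact ⟨div_nonneg h0 h1.le, by rw [div_le_one h1]; linarith⟩
  · intro i
    rw [Set.smul_set_subset_iff]
    intro z hz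
    induction z using OnePoint.rec with
    | infty =>
      rw [OnePoint.smul_infty_eq_ite]
      fin_cases i <;> simp_all [XX, YY, gA, gB]
      norm_num
    | coe t =>
      rw [OnePoint.smul_some_eq_ite]
      fin_cases i <;> simp_all [XX, YY, gA, gB]
      · linarith
      · rcases lt_or_ge t 0 with h | h
        · have h1 : 0 < -(2 * t) + 1 := by linarith
          rw [if_neg h1.ne']
          simp only [OnePoint.elim_some]
          exact ⟨by rw [lt_div_iff₀ h1]; linarith, div_neg_of_neg_of_pos h h1⟩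
        · have h0 := hz h
          have h1 : -(2 * t) + 1 < 0 := by linarith
          rw [if_neg h1.ne]
          simp only [OnePoint.elim_some]
          exact ⟨by rw [lt_div_iff_of_neg h1]; linarith, div_neg_of_pos_of_neg (by linarith) h1⟩

theorem mapGL_entry (g : S2) (j k : Fin 2) :
    ((Matrix.SpecialLinearGroup.mapGL ℚ g : GL (Fin 2) ℚ) : Matrix (Fin 2) (Fin 2) ℚ) j k =
      ((g.1 j k : ℤ) : ℚ) := rfl

theorem sig_injective : Function.Injective sig := by
  have h : (Matrix.SpecialLinearGroup.mapGL ℚ).comp sig = FreeGroup.lift ![gA, gB] := by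
    apply FreeGroup.ext_hom
    intro i
    apply Units.ext
    ext j k
    rw [MonoidHom.comp_apply, mapGL_entry]
    fin_cases i <;> fin_cases j <;> fin_cases k <;>
      simp [sig, sA, sB, gA, gB]
  have h2 := rho_injective
  rw [← h, MonoidHom.coe_comp] at h2
  exact Function.Injective.of_comp h2

/-- Commuting matrices, entries. -/
theorem comm_iff (g h : S2) : g * h = h * g ↔
    g.1 0 1 * h.1 1 0 = h.1 0 1 * g.1 1 0 ∧
    g.1 0 1 * (h.1 0 0 - h.1 1 1) = h.1 0 1 * (g.1 0 0 - g.1 1 1) ∧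
    g.1 1 0 * (h.1 0 0 - h.1 1 1) = h.1 1 0 * (g.1 0 0 - g.1 1 1) := by
  constructor
  · intro e
    have e2 := congrArg Subtype.val e
    rw [Matrix.SpecialLinearGroup.coe_mul, Matrix.SpecialLinearGroup.coe_mul] at e2
    have e00 := congrFun (congrFun e2 0) 0
    have e01 := congrFun (congrFun e2 0) 1
    have e10 := congrFun (congrFun e2 1) 0
    simp only [Matrix.mul_apply, Fin.sum_univ_two] at e00 e01 e10
    refine ⟨by linarith, by linarith, by linarith⟩
  · rintro ⟨e1, e2, e3⟩
    apply Subtype.ext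
    rw [Matrix.SpecialLinearGroup.coe_mul, Matrix.SpecialLinearGroup.coe_mul]
    ext i j
    fin_cases i <;> fin_cases j <;> simp only [Matrix.mul_apply, Fin.sum_univ_two] <;>
      simp <;> linarith

theorem scalar_cases (Q : S2) (h1 : Q.1 0 1 = 0) (h2 : Q.1 1 0 = 0) (h3 : Q.1 0 0 - Q.1 1 1 = 0) :
    Q * Q = 1 := by
  have hd := det_entries Q
  rw [h1, h2] at hd
  have h4 : Q.1 1 1 = Q.1 0 0 := by linarith
  rw [h4] at hd
  apply Subtype.ext
  rw [Matrix.SpecialLinearGroup.coe_mul, Matrix.SpecialLinearGroup.coe_one]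
  ext i j
  fin_cases i <;> fin_cases j <;> simp [Matrix.mul_apply, Fin.sum_univ_two, h1, h2, h4] <;> linarith

theorem comm_trans_S2 {Q g h : S2} (hQ : Q * Q ≠ 1) (hg : Q * g = g * Q) (hh : Q * h = h * Q) :
    g * h = h * g := by
  rw [comm_iff] at hg hh ⊢
  obtain ⟨a1, a2, a3⟩ := hg
  obtain ⟨b1, b2, b3⟩ := hh
  have hne : ¬ (Q.1 0 1 = 0 ∧ Q.1 1 0 = 0 ∧ Q.1 0 0 - Q.1 1 1 = 0) := fun ⟨h1, h2, h3⟩ =>
    hQ (scalar_cases Q h1 h2 h3)
  generalize Q.1 0 1 = p at *
  generalize Q.1 1 0 = q at *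
  generalize Q.1 0 0 - Q.1 1 1 = r at *
  generalize g.1 0 1 = a at *
  generalize g.1 1 0 = b at *
  generalize g.1 0 0 - g.1 1 1 = c at *
  generalize h.1 0 1 = d at *
  generalize h.1 1 0 = e at *
  generalize h.1 0 0 - h.1 1 1 = f at *
  by_cases hp : p = 0
  · by_cases hq : q = 0
    · have hr : r ≠ 0 := fun h => hne ⟨hp, hq, h⟩
      subst hp hq
      have ha : a = 0 := by
        have : a * r = 0 := by linarith
        exact (mul_eq_zero.mp this).resolve_right hr
      have hb : b = 0 := by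
        have : b * r = 0 := by linarith
        exact (mul_eq_zero.mp this).resolve_right hr
      have hd : d = 0 := by
        have : d * r = 0 := by linarith
        exact (mul_eq_zero.mp this).resolve_right hr
      have he : e = 0 := by
        have : e * r = 0 := by linarith
        exact (mul_eq_zero.mp this).resolve_right hr
      subst ha hb hd he
      simp
    · have g1 : a * e = d * b := mul_left_cancel₀ hq (by linear_combination (-e) * a1 + b * b1)
      have g3 : b * f = e * c := mul_left_cancel₀ hq (by linear_combination b * b3 - e * a3)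
      have g2 : a * f = d * c := mul_left_cancel₀ hq (by linear_combination (-f) * a1 + c * b1 + p * g3)
      exact ⟨g1, g2, g3⟩
  · have g1 : a * e = d * b := mul_left_cancel₀ hp (by linear_combination a * b1 - d * a1)
    have g2 : a * f = d * c := mul_left_cancel₀ hp (by linear_combination a * b2 - d * a2)
    have g3 : b * f = e * c := mul_left_cancel₀ hp (by linear_combination f * a1 - c * b1 + q * g2)
    exact ⟨g1, g2, g3⟩

theorem pow_eq_one_H {T : H0} {n : ℕ} (hn : n ≠ 0) (h : sig T ^ n = 1) : T = 1 := by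
  rw [← map_pow, ← map_one sig] at h
  have h1 := sig_injective h
  have h2 : T ^ n = 1 ^ n := by rw [h1, one_pow]
  exact pow_left_injective hn h2

theorem tr_ge {T : H0} (hT : T ≠ 1) : 2 ≤ |tr (sig T)| := by
  by_contra hlt
  push Not at hlt
  set Q := sig T with hQ
  have hCH : Q.1 * Q.1 = tr Q • Q.1 - 1 := by
    have hd := det_entries Q
    ext i j
    fin_cases i <;> fin_cases j <;>
      simp [Matrix.mul_apply, Fin.sum_univ_two, tr, -zsmul_eq_mul] <;> linarith
  have h3 : tr Q = 0 ∨ tr Q = 1 ∨ tr Q = -1 := by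
    rw [abs_lt] at hlt
    omega
  apply hT
  rcases h3 with h3 | h3 | h3
  · apply pow_eq_one_H (n := 4) (by norm_num)
    rw [← hQ]
    rw [h3, zero_smul, zero_sub] at hCH
    apply Subtype.ext
    rw [Matrix.SpecialLinearGroup.coe_pow, Matrix.SpecialLinearGroup.coe_one]
    calc Q.1 ^ 4 = (Q.1 * Q.1) * (Q.1 * Q.1) := by noncomm_ring
      _ = 1 := by rw [hCH]; noncomm_ring
  · apply pow_eq_one_H (n := 6) (by norm_num)
    rw [← hQ]
    rw [h3, one_smul] at hCH
    apply Subtype.ext
    rw [Matrix.SpecialLinearGroup.coe_pow, Matrix.SpecialLinearGroup.coe_one]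
    have h4 : Q.1 * Q.1 * Q.1 = -1 := by
      calc Q.1 * Q.1 * Q.1 = (Q.1 - 1) * Q.1 := by rw [hCH]
        _ = Q.1 * Q.1 - Q.1 := by noncomm_ring
        _ = -1 := by rw [hCH]; noncomm_ring
    calc Q.1 ^ 6 = (Q.1 * Q.1 * Q.1) * (Q.1 * Q.1 * Q.1) := by noncomm_ring
      _ = 1 := by rw [h4]; noncomm_ring
  · apply pow_eq_one_H (n := 3) (by norm_num)
    rw [← hQ]
    rw [h3, neg_smul, one_smul] at hCH
    apply Subtype.ext
    rw [Matrix.SpecialLinearGroup.coe_pow, Matrix.SpecialLinearGroup.coe_one]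
    calc Q.1 ^ 3 = (Q.1 * Q.1) * Q.1 := by noncomm_ring
      _ = (-Q.1 - 1) * Q.1 := by rw [hCH]
      _ = -(Q.1 * Q.1) - Q.1 := by noncomm_ring
      _ = 1 := by rw [hCH]; noncomm_ring

theorem comm_trans_H {T g h : H0} (hT : T ≠ 1) (hg : T * g = g * T) (hh : T * h = h * T) :
    g * h = h * g := by
  apply sig_injective
  rw [map_mul, map_mul]
  apply comm_trans_S2 (Q := sig T)
  · intro h2
    exact hT (pow_eq_one_H (n := 2) two_ne_zero (by rw [pow_two]; exact h2))
  · rw [← map_mul, ← map_mul, hg]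
  · rw [← map_mul, ← map_mul, hh]

theorem Good.map {T : H0} {L : List (H0 × H0)} (h : Good T L) :
    Good (sig T) (L.map (fun p => (sig p.1, sig p.2))) := by
  induction L with
  | nil => exact h.elim
  | cons p L ih =>
    cases L with
    | nil =>
      have h1 : T * p.1 ≠ p.1 * T := h
      show sig T * sig p.1 ≠ sig p.1 * sig T
      rw [← map_mul, ← map_mul]
      exact fun h2 => h1 (sig_injective h2)
    | cons q L =>
      obtain ⟨h1, h2, h3⟩ := h
      refine ⟨?_, ?_, ih h3⟩
      · rw [← map_mul, ← map_mul]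
        exact fun h => h1 (sig_injective h)
      · rw [← map_mul, ← map_mul]
        exact fun h => h2 (sig_injective h)

theorem Good.ne_one {T : H0} {L : List (H0 × H0)} (h : Good T L) : T ≠ 1 := by
  rintro rfl
  match L, h with
  | [p], h => exact h (by simp)
  | (p :: q :: L), h => exact h.1 (by simp)

/-- Big powers in the free group of rank two. -/
theorem BP_H (T x0 : H0) (L : List (H0 × H0)) (hL : Good T L) :
    ∃ N : ℕ, ∀ n ≥ N, x0 * (L.map (fun p => T ^ n * p.1 * (T ^ n)⁻¹ * p.2)).prod ≠ 1 := by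
  have hT := hL.ne_one
  obtain ⟨N, hN⟩ := BP_S2' (sig T) (tr_ge hT)
    (fun h => hT (pow_eq_one_H (n := 1) one_ne_zero (by rw [pow_one]; exact h)))
    (fun h => hT (pow_eq_one_H (n := 2) two_ne_zero (by rw [h]; simp)))
    (sig x0) _ hL.map
  refine ⟨N, fun n hn h1 => hN n hn ?_⟩
  have h2 := congrArg sig h1
  rw [map_mul, map_one, map_list_prod, List.map_map] at h2
  rw [← h2, List.map_map]
  congr 2
  apply List.map_congr_left
  intro p _
  simp

/-- A finite set of nontrivial elements can be avoided by centralizers. -/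
theorem exists_T (D : List H0) : ∃ T : H0, ∀ d ∈ D, d ≠ 1 → T * d ≠ d * T := by
  by_contra hall
  push Not at hall
  set Ti : ℕ → H0 := fun i => (FreeGroup.of 0) ^ i * FreeGroup.of 1 with hTi
  choose f hf using fun i => hall (Ti i)
  have hinf : ∃ i j : ℕ, i ≠ j ∧ (⟨f i, (hf i).1⟩ : {d // d ∈ D}) = ⟨f j, (hf j).1⟩ := by
    have : Finite {d // d ∈ D} := by
      have := List.finite_toSet D
      exact this.to_subtype
    obtain ⟨i, j, hij, h⟩ := Finite.exists_ne_map_eq_of_infinite
      (fun i => (⟨f i, (hf i).1⟩ : {d // d ∈ D}))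
    exact ⟨i, j, hij, h⟩
  obtain ⟨i, j, hij, h⟩ := hinf
  have hfe : f i = f j := congrArg Subtype.val h
  have hc : Ti i * Ti j = Ti j * Ti i := by
    apply comm_trans_H (T := f i) (hf i).2.1
    · exact (hf i).2.2.symm
    · rw [hfe]; exact (hf j).2.2.symm
  have hc2 : sig (Ti i) * sig (Ti j) = sig (Ti j) * sig (Ti i) := by
    rw [← map_mul, ← map_mul, hc]
  rw [comm_iff] at hc2
  have hp : ∀ i : ℕ, (sA ^ i).1 = !![1, 2 * (i : ℤ); 0, 1] := by
    intro i
    induction i with
    | zero => ext a b; fin_cases a <;> fin_cases b <;> simp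
    | succ n ih =>
      rw [pow_succ, Matrix.SpecialLinearGroup.coe_mul, ih]
      ext a b
      fin_cases a <;> fin_cases b <;> simp [sA, Matrix.mul_apply, Fin.sum_univ_two]
      ring
  have hs : ∀ i : ℕ, (sig (Ti i)).1 = !![1 + 4 * (i : ℤ), 2 * (i : ℤ); 2, 1] := by
    intro i
    rw [hTi]
    simp only [map_mul, map_pow]
    rw [show sig (FreeGroup.of 0) = sA by simp [sig], show sig (FreeGroup.of 1) = sB by simp [sig],
      Matrix.SpecialLinearGroup.coe_mul, hp]
    ext a b
    fin_cases a <;> fin_cases b <;> simp [sB, Matrix.mul_apply, Fin.sum_univ_two]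
    ring
  rw [hs, hs] at hc2
  simp at hc2
  apply hij
  have := hc2.1
  omega

/-- Centralizer of an element that is visibly not a proper power. -/
theorem cent {α : Type} (g p : FreeGroup α) (h : g * p = p * g)
    (χ : FreeGroup α →* Multiplicative ℤ) (hχ : χ p = Multiplicative.ofAdd 1) :
    g ∈ Subgroup.zpowers p := by
  classical
  set G := Subgroup.closure ({g, p} : Set (FreeGroup α)) with hG
  have hcomm : ∀ a b : G, a * b = b * a := by
    have h1 : ∀ x ∈ ({g, p} : Set (FreeGroup α)), ∀ y ∈ ({g, p} : Set (FreeGroup α)), x * y = y * x := by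
      intro x hx y hy
      rcases hx with rfl | hx <;> rcases hy with rfl | hy
      · rfl
      · rw [Set.mem_singleton_iff] at hy; rw [hy, h]
      · rw [Set.mem_singleton_iff] at hx; rw [hx, h]
      · rw [Set.mem_singleton_iff] at hx hy; rw [hx, hy]
    intro a b
    obtain ⟨a, ha⟩ := a
    obtain ⟨b, hb⟩ := b
    apply Subtype.ext
    show a * b = b * a
    have hsub : G ≤ Subgroup.centralizer (G : Set (FreeGroup α)) := by
      have e1 : G ≤ Subgroup.centralizer ({g, p} : Set (FreeGroup α)) := by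
        rw [hG, Subgroup.closure_le]
        intro x hx
        rw [SetLike.mem_coe, Subgroup.mem_centralizer_iff]
        intro y hy
        exact h1 y hy x hx
      rw [hG, Subgroup.closure_le]
      intro x hx
      rw [SetLike.mem_coe, Subgroup.mem_centralizer_iff]
      intro y hy
      exact (Subgroup.mem_centralizer_iff.mp (e1 hy) x hx).symm
    exact (Subgroup.mem_centralizer_iff.mp (hsub ha) b hb).symm
  have hgG : g ∈ G := Subgroup.subset_closure (by simp)
  have hpG : p ∈ G := Subgroup.subset_closure (by simp)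
  have hsub : ∀ s t : IsFreeGroup.Generators G, s = t := by
    intro s t
    by_contra hst
    let f : IsFreeGroup.Generators G → Equiv.Perm (Fin 3) :=
      fun u => if u = s then Equiv.swap 0 1 else Equiv.swap 1 2
    have h1 := congrArg (IsFreeGroup.lift f) (hcomm (IsFreeGroup.of s) (IsFreeGroup.of t))
    rw [map_mul, map_mul, IsFreeGroup.lift_of, IsFreeGroup.lift_of] at h1
    simp only [f, if_true, if_neg (Ne.symm hst)] at h1
    exact absurd h1 (by decide)
  have hcyc : ∃ c : G, ∀ x : G, ∃ k : ℤ, x = c ^ k := by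
    let e := IsFreeGroup.toFreeGroup G
    by_cases hne : Nonempty (IsFreeGroup.Generators G)
    · obtain ⟨s⟩ := hne
      refine ⟨e.symm (FreeGroup.of s), ?_⟩
      have h2 : ∀ w : FreeGroup (IsFreeGroup.Generators G), ∃ k : ℤ, w = FreeGroup.of s ^ k := by
        intro w
        induction w using FreeGroup.induction_on with
        | C1 => exact ⟨0, by simp⟩
        | of x => exact ⟨1, by rw [hsub x s]; simp⟩
        | inv_of x _ => exact ⟨-1, by rw [hsub x s]; simp⟩
        | mul x y hx hy =>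
          obtain ⟨k, rfl⟩ := hx
          obtain ⟨l, rfl⟩ := hy
          exact ⟨k + l, by rw [_root_.zpow_add]⟩
      intro x
      obtain ⟨k, hk⟩ := h2 (e x)
      refine ⟨k, ?_⟩
      rw [← map_zpow, ← hk, MulEquiv.symm_apply_apply]
    · refine ⟨1, fun x => ⟨0, ?_⟩⟩
      have h2 : ∀ w : FreeGroup (IsFreeGroup.Generators G), w = 1 := by
        intro w
        induction w using FreeGroup.induction_on with
        | C1 => rfl
        | of x => exact absurd ⟨x⟩ hne
        | inv_of x _ => exact absurd ⟨x⟩ hne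
        | mul x y hx hy => rw [hx, hy, one_mul]
      have h3 := h2 (e x)
      rw [zpow_zero]
      exact e.injective (h3.trans (map_one e).symm)
  obtain ⟨c, hc⟩ := hcyc
  obtain ⟨k, hk⟩ := hc ⟨p, hpG⟩
  obtain ⟨l, hl⟩ := hc ⟨g, hgG⟩
  have hk' : p = (c : FreeGroup α) ^ k := congrArg Subtype.val hk
  have hl' : g = (c : FreeGroup α) ^ l := congrArg Subtype.val hl
  have h3 : (Multiplicative.toAdd (χ c)) * k = 1 := by
    rw [hk', map_zpow] at hχ
    have := congrArg Multiplicative.toAdd hχ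
    simpa [mul_comm] using this
  have h4 : k = 1 ∨ k = -1 := by
    have := Int.isUnit_iff.mp (IsUnit.of_mul_eq_one_right _ h3)
    exact this
  rcases h4 with h4 | h4
  · rw [h4, zpow_one] at hk'
    rw [hk', hl']
    exact ⟨l, rfl⟩
  · have : (c : FreeGroup α) = p ^ (-1 : ℤ) := by rw [hk', h4]; simp
    rw [hl', this, ← _root_.zpow_mul]
    exact ⟨_, rfl⟩



end bigpowers


section decomp
variable {G A B : Type*} [Group G] [Group A] [Group B]

/-- Alternating lists. -/
def GoodG (π : B) (p : A) : List (B × A) → Prop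
  | [] => True
  | [t] => t.1 ∉ Subgroup.zpowers π
  | (t :: t' :: L) => t.1 ∉ Subgroup.zpowers π ∧ t.2 ∉ Subgroup.zpowers p ∧ GoodG π p (t' :: L)

theorem GoodG.tail {π : B} {p : A} {t : B × A} {L : List (B × A)} (h : GoodG π p (t :: L)) :
    GoodG π p L := by
  cases L with
  | nil => trivial
  | cons t' L => exact h.2.2

theorem GoodG.head {π : B} {p : A} {t : B × A} {L : List (B × A)} (h : GoodG π p (t :: L)) :
    t.1 ∉ Subgroup.zpowers π := by
  cases L with
  | nil => exact h
  | cons t' L => exact h.1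

theorem GoodG.replace {π : B} {p : A} {t : B × A} {L : List (B × A)} (h : GoodG π p (t :: L))
    {w : B} (hw : w ∉ Subgroup.zpowers π) : GoodG π p ((w, t.2) :: L) := by
  cases L with
  | nil => exact hw
  | cons t' L => exact ⟨hw, h.2.1, h.2.2⟩

/-- The element described by an alternating list. -/
def ev (iA : A →* G) (iB : B →* G) (a : A) (L : List (B × A)) : G :=
  iA a * (L.map (fun t => iB t.1 * iA t.2)).prod

theorem ev_cons (iA : A →* G) (iB : B →* G) (a : A) (t : B × A) (L : List (B × A)) :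
    ev iA iB a (t :: L) = iA a * iB t.1 * ev iA iB t.2 L := by
  simp [ev, mul_assoc]

theorem ev_mul (iA : A →* G) (iB : B →* G) (u a : A) (L : List (B × A)) :
    iA u * ev iA iB a L = ev iA iB (u * a) L := by
  simp [ev, mul_assoc]

/-- Decomposition of the elements of a group generated by two subgroups. -/
theorem decomp (iA : A →* G) (iB : B →* G) (p : A) (π : B) (hp : iA p = iB π)
    (hgen : Subgroup.closure (Set.range iA ∪ Set.range iB) = ⊤) (g : G) :
    ∃ (a : A) (L : List (B × A)), GoodG π p L ∧ g = ev iA iB a L := by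
  set D : Set G := {g | ∃ (a : A) (L : List (B × A)), GoodG π p L ∧ g = ev iA iB a L} with hD
  have hpk : ∀ k : ℤ, iB (π ^ k) = iA (p ^ k) := by
    intro k; rw [map_zpow, map_zpow, hp]
  have h1 : (1 : G) ∈ D := ⟨1, [], trivial, by simp [ev]⟩
  have hA : ∀ (u : A) (d : G), d ∈ D → iA u * d ∈ D := by
    rintro u d ⟨a, L, hL, rfl⟩
    exact ⟨u * a, L, hL, ev_mul iA iB u a L⟩
  have hB : ∀ (v : B) (d : G), d ∈ D → iB v * d ∈ D := by
    rintro v d hd
    by_cases hv : v ∈ Subgroup.zpowers π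
    · obtain ⟨k, rfl⟩ := Subgroup.mem_zpowers_iff.mp hv
      rw [hpk]
      exact hA _ _ hd
    obtain ⟨a, L, hL, rfl⟩ := hd
    cases L with
    | nil =>
      exact ⟨1, [(v, a)], hv, by simp [ev]⟩
    | cons t L =>
      by_cases ha : a ∈ Subgroup.zpowers p
      · obtain ⟨k, rfl⟩ := Subgroup.mem_zpowers_iff.mp ha
        rw [ev_cons, ← hpk, ← mul_assoc, ← mul_assoc, ← map_mul, ← map_mul]
        by_cases hw : v * π ^ k * t.1 ∈ Subgroup.zpowers π
        · obtain ⟨j, hj⟩ := Subgroup.mem_zpowers_iff.mp hw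
          rw [← hj, hpk]
          exact hA _ _ ⟨t.2, L, hL.tail, rfl⟩
        · refine ⟨1, (v * π ^ k * t.1, t.2) :: L, hL.replace hw, ?_⟩
          rw [ev_cons]
          simp
      · refine ⟨1, (v, a) :: t :: L, ⟨hv, ha, hL⟩, ?_⟩
        rw [ev_cons iA iB 1 (v, a)]
        simp
  have key : ∀ g : G, (∀ d ∈ D, g * d ∈ D) ∧ (∀ d ∈ D, g⁻¹ * d ∈ D) := by
    intro g
    have hg : g ∈ Subgroup.closure (Set.range iA ∪ Set.range iB) := by rw [hgen]; trivial
    induction hg using Subgroup.closure_induction with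
    | mem x hx =>
      rcases hx with ⟨u, rfl⟩ | ⟨v, rfl⟩
      · refine ⟨hA u, ?_⟩
        rw [← map_inv]
        exact hA _
      · refine ⟨hB v, ?_⟩
        rw [← map_inv]
        exact hB _
    | one =>
      simp
    | mul x y _ _ hx hy =>
      refine ⟨fun d hd => ?_, fun d hd => ?_⟩
      · rw [mul_assoc]
        exact hx.1 _ (hy.1 _ hd)
      · rw [mul_inv_rev, mul_assoc]
        exact hy.2 _ (hx.2 _ hd)
    | inv x _ hx =>
      rw [inv_inv]
      exact ⟨hx.2, hx.1⟩
  have := (key g).1 1 h1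
  rw [mul_one] at this
  exact this

end decomp

abbrev K3 := FreeGroup (Fin 3)

/-- The free factor of rank two. -/
def jj : H0 →* K3 := FreeGroup.lift ![FreeGroup.of 0, FreeGroup.of 1]

/-- The cyclic free factor. -/
def zz : Multiplicative ℤ →* K3 := zpowersHom K3 (FreeGroup.of 2)

/-- Retractions onto the rank two factor. -/
def thK (h : H0) : K3 →* H0 := FreeGroup.lift ![FreeGroup.of 0, FreeGroup.of 1, h]

theorem thK_jj (h : H0) (u : H0) : thK h (jj u) = u := by
  have : (thK h).comp jj = MonoidHom.id H0 := by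
    ext i
    fin_cases i <;> simp [thK, jj]
  exact DFunLike.congr_fun this u

theorem thK_zz (h : H0) (e : Multiplicative ℤ) : thK h (zz e) = h ^ (Multiplicative.toAdd e) := by
  simp [thK, zz, zpowersHom_apply]

theorem gen_K3 : Subgroup.closure (Set.range jj ∪ Set.range zz) = ⊤ := by
  rw [eq_top_iff]
  have : ∀ i : Fin 3, (FreeGroup.of i : K3) ∈ Subgroup.closure (Set.range jj ∪ Set.range zz) := by
    intro i
    apply Subgroup.subset_closure
    fin_cases i
    · exact Or.inl ⟨FreeGroup.of 0, by simp [jj]⟩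
    · exact Or.inl ⟨FreeGroup.of 1, by simp [jj]⟩
    · exact Or.inr ⟨Multiplicative.ofAdd 1, by simp [zz, zpowersHom_apply]⟩
  intro g hg
  clear hg
  induction g using FreeGroup.induction_on with
  | C1 => exact one_mem _
  | of x => exact this x
  | inv_of x h => exact inv_mem h
  | mul x y hx hy => exact mul_mem hx hy

theorem goodT {T : H0} {L : List (Multiplicative ℤ × H0)}
    (hG : GoodG (1 : Multiplicative ℤ) (1 : H0) L) (hne : L ≠ [])
    (h1 : ∀ t ∈ L, (FreeGroup.of 1 : H0) ^ (Multiplicative.toAdd t.1) ≠ 1 →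
      T * (FreeGroup.of 1 : H0) ^ (Multiplicative.toAdd t.1) ≠
        (FreeGroup.of 1 : H0) ^ (Multiplicative.toAdd t.1) * T)
    (h2 : ∀ t ∈ L, t.2 ≠ 1 → T * t.2 ≠ t.2 * T) :
    Good T (L.map (fun t => ((FreeGroup.of 1 : H0) ^ (Multiplicative.toAdd t.1), t.2))) := by
  have hb : ∀ t : Multiplicative ℤ, t ∉ Subgroup.zpowers (1 : Multiplicative ℤ) →
      (FreeGroup.of 1 : H0) ^ (Multiplicative.toAdd t) ≠ 1 := by
    intro t ht h
    apply ht
    have h3 := congrArg (FreeGroup.lift (fun _ : Fin 2 => Multiplicative.ofAdd (1 : ℤ))) h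
    rw [map_zpow, FreeGroup.lift_apply_of, MonoidHom.map_one] at h3
    have h4 : t = 1 := by
      have h5 := congrArg Multiplicative.toAdd h3
      rw [toAdd_zpow, toAdd_ofAdd, toAdd_one, smul_eq_mul, mul_one] at h5
      exact Multiplicative.toAdd.injective h5
    rw [h4]
    exact one_mem _
  have hu : ∀ u : H0, u ∉ Subgroup.zpowers (1 : H0) → u ≠ 1 := by
    rintro u hu rfl
    exact hu (one_mem _)
  induction L with
  | nil => exact absurd rfl hne
  | cons t L ih =>
    cases L with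
    | nil =>
      have h3 : t.1 ∉ Subgroup.zpowers (1 : Multiplicative ℤ) := hG
      exact h1 t (by simp) (hb _ h3)
    | cons t' L =>
      obtain ⟨h3, h4, h5⟩ := hG
      refine ⟨h1 t (by simp) (hb _ h3), h2 t (by simp) (hu _ h4), ?_⟩
      exact ih h5 (by simp) (fun s hs => h1 s (List.mem_cons_of_mem _ hs))
        (fun s hs => h2 s (List.mem_cons_of_mem _ hs))

/-- Retractions discriminate the free group of rank three. -/
theorem R_K (S : Finset K3) (hS : ∀ s ∈ S, s ≠ 1) : ∃ h : H0, ∀ s ∈ S, thK h s ≠ 1 := by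
  classical
  choose a L hG hev using fun s : K3 =>
    decomp jj zz (1 : H0) (1 : Multiplicative ℤ) (by simp) gen_K3 s
  obtain ⟨T, hT⟩ := exists_T (S.toList.flatMap (fun s =>
    ((L s).map (fun t => (FreeGroup.of 1 : H0) ^ (Multiplicative.toAdd t.1))) ++
    ((L s).map (fun t => t.2))))
  have hev2 : ∀ s ∈ S, ∀ᶠ n : ℕ in Filter.atTop, thK (T ^ n * FreeGroup.of 1 * (T ^ n)⁻¹) s ≠ 1 := by
    intro s hs
    by_cases hL : L s = []
    · refine Filter.Eventually.of_forall (fun n => ?_)
      have h1 := hev s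
      rw [hL] at h1
      simp only [ev, List.map_nil, List.prod_nil, mul_one] at h1
      rw [h1, thK_jj]
      intro h2
      apply hS s hs
      rw [h1, h2, map_one]
    · have hgood : Good T ((L s).map (fun t => ((FreeGroup.of 1 : H0) ^ (Multiplicative.toAdd t.1), t.2))) := by
        apply goodT (hG s) hL
        · intro t ht
          apply hT
          rw [List.mem_flatMap]
          refine ⟨s, Finset.mem_toList.mpr hs, ?_⟩
          rw [List.mem_append]
          exact Or.inl (List.mem_map.mpr ⟨t, ht, rfl⟩)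
        · intro t ht
          apply hT
          rw [List.mem_flatMap]
          refine ⟨s, Finset.mem_toList.mpr hs, ?_⟩
          rw [List.mem_append]
          exact Or.inr (List.mem_map.mpr ⟨t, ht, rfl⟩)
      obtain ⟨N, hN⟩ := BP_H T (a s) _ hgood
      refine Filter.eventually_atTop.mpr ⟨N, fun n hn h => hN n hn ?_⟩
      rw [← h]
      conv_rhs => rw [hev s]
      rw [ev, map_mul, thK_jj, map_list_prod, List.map_map, List.map_map]
      congr 2
      apply List.map_congr_left
      intro t _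
      simp only [Function.comp, map_mul, thK_jj, thK_zz]
      rw [conj_zpow]
  have hall : ∀ᶠ n : ℕ in Filter.atTop, ∀ s ∈ S, thK (T ^ n * FreeGroup.of 1 * (T ^ n)⁻¹) s ≠ 1 :=
    (Filter.eventually_all_finset S).mpr hev2
  obtain ⟨n, hn⟩ := hall.exists
  exact ⟨_, hn⟩



abbrev F3 := FreeGroup (Fin 3)
abbrev F2 := FreeGroup (Fin 2)
abbrev F4 := FreeGroup (Fin 4)

/-- First vertex group inside `K3`. -/
def etaA : F3 →* K3 :=
  FreeGroup.lift ![FreeGroup.of 0, FreeGroup.of 1, FreeGroup.of 2 * FreeGroup.of 0 * (FreeGroup.of 2)⁻¹]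

/-- Second vertex group inside `K3`. -/
def etaB : F2 →* K3 := FreeGroup.map ![0, 2]

theorem etaB_injective : Function.Injective etaB := by
  apply FreeGroup.map_injective
  decide

/-- The action used for the injectivity of `etaA`. -/
def actX : Equiv.Perm (F3 × Bool) where
  toFun t := (bif t.2 then FreeGroup.of 2 * t.1 else FreeGroup.of 0 * t.1, t.2)
  invFun t := (bif t.2 then (FreeGroup.of 2)⁻¹ * t.1 else (FreeGroup.of 0)⁻¹ * t.1, t.2)
  left_inv := by rintro ⟨g, _ | _⟩ <;> simp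
  right_inv := by rintro ⟨g, _ | _⟩ <;> simp

def actB : Equiv.Perm (F3 × Bool) where
  toFun t := (bif t.2 then t.1 else FreeGroup.of 1 * t.1, t.2)
  invFun t := (bif t.2 then t.1 else (FreeGroup.of 1)⁻¹ * t.1, t.2)
  left_inv := by rintro ⟨g, _ | _⟩ <;> simp
  right_inv := by rintro ⟨g, _ | _⟩ <;> simp

def actY : Equiv.Perm (F3 × Bool) where
  toFun t := (t.1, !t.2)
  invFun t := (t.1, !t.2)
  left_inv := by rintro ⟨g, _ | _⟩ <;> simp
  right_inv := by rintro ⟨g, _ | _⟩ <;> simp

def act : K3 →* Equiv.Perm (F3 × Bool) := FreeGroup.lift ![actX, actB, actY]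

theorem act_etaA (w : F3) : ∀ g : F3, act (etaA w) (g, false) = (w * g, false) := by
  induction w using FreeGroup.induction_on with
  | C1 => intro g; simp
  | of i =>
    intro g
    fin_cases i
    · simp [etaA, act, actX]
    · simp [etaA, act, actB]
    · simp only [etaA, act, FreeGroup.lift_apply_of]
      simp [actX, actY]
  | inv_of i ih =>
    intro g
    have h := ih ((FreeGroup.of i)⁻¹ * g)
    rw [mul_inv_cancel_left] at h
    rw [map_inv, map_inv, ← h]
    exact (act (etaA (FreeGroup.of i))).symm_apply_apply _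
  | mul x y hx hy =>
    intro g
    rw [map_mul, map_mul, Equiv.Perm.mul_apply, hy, hx, mul_assoc]

theorem etaA_injective : Function.Injective etaA := by
  rw [injective_iff_map_eq_one]
  intro w hw
  have h := act_etaA w 1
  rw [hw, map_one, Equiv.Perm.one_apply] at h
  have := congrArg Prod.fst h
  simpa using this.symm

/-- The embedding of the rank two group. -/
def iota : H0 →* F4 :=
  FreeGroup.lift ![FreeGroup.of 2 * FreeGroup.of 3 * (FreeGroup.of 2)⁻¹ * (FreeGroup.of 2)⁻¹ *
    (FreeGroup.of 3)⁻¹ * FreeGroup.of 1 * FreeGroup.of 1, FreeGroup.of 0]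

def iA : F3 →* F4 := FreeGroup.lift ![iota (FreeGroup.of 0), FreeGroup.of 0, FreeGroup.of 1]
def iB : F2 →* F4 := FreeGroup.lift ![FreeGroup.of 2, FreeGroup.of 3]

def p0 : F3 := FreeGroup.of 2 * FreeGroup.of 2 * (FreeGroup.of 0)⁻¹
def pi0 : F2 := FreeGroup.of 1 * FreeGroup.of 0 * FreeGroup.of 0 * (FreeGroup.of 1)⁻¹ * (FreeGroup.of 0)⁻¹

theorem iA_p0 : iA p0 = iB pi0 := by
  simp [iA, iB, p0, pi0, iota]
  group

theorem eta_p0 : etaA p0 = etaB pi0 := by
  simp [etaA, etaB, p0, pi0, mul_assoc]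

theorem gen_F4 : Subgroup.closure (Set.range iA ∪ Set.range iB) = ⊤ := by
  rw [eq_top_iff]
  have : ∀ i : Fin 4, (FreeGroup.of i : F4) ∈ Subgroup.closure (Set.range iA ∪ Set.range iB) := by
    intro i
    apply Subgroup.subset_closure
    fin_cases i
    · exact Or.inl ⟨FreeGroup.of 1, by simp [iA]⟩
    · exact Or.inl ⟨FreeGroup.of 2, by simp [iA]⟩
    · exact Or.inr ⟨FreeGroup.of 0, by simp [iB]⟩
    · exact Or.inr ⟨FreeGroup.of 1, by simp [iB]⟩
  intro g hg
  clear hg
  induction g using FreeGroup.induction_on with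
  | C1 => exact one_mem _
  | of x => exact this x
  | inv_of x h => exact inv_mem h
  | mul x y hx hy => exact mul_mem hx hy

theorem cent_p0 {g : F3} (h : g ∉ Subgroup.zpowers p0) : g * p0 ≠ p0 * g := by
  intro hc
  apply h
  apply cent g p0 hc (FreeGroup.lift ![Multiplicative.ofAdd (-1), 1, 1])
  simp [p0]

theorem cent_pi0 {g : F2} (h : g ∉ Subgroup.zpowers pi0) : g * pi0 ≠ pi0 * g := by
  intro hc
  apply h
  apply cent g pi0 hc (FreeGroup.lift ![Multiplicative.ofAdd 1, 1])
  simp [pi0]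

/-- The family of retractions. -/
def phi (h : H0) (n : ℕ) : F4 →* H0 :=
  FreeGroup.lift ![FreeGroup.of 1, h * FreeGroup.of 0 * h⁻¹,
    (thK h (etaA p0)) ^ n * FreeGroup.of 0 * ((thK h (etaA p0)) ^ n)⁻¹,
    (thK h (etaA p0)) ^ n * h * ((thK h (etaA p0)) ^ n)⁻¹]

theorem phi_iB (h : H0) (n : ℕ) (w : F2) : phi h n (iB w) =
    (thK h (etaA p0)) ^ n * thK h (etaB w) * ((thK h (etaA p0)) ^ n)⁻¹ := by
  have : (phi h n).comp iB = (MulAut.conj ((thK h (etaA p0)) ^ n)).toMonoidHom.comp ((thK h).comp etaB) := by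
    ext i
    fin_cases i <;> simp [phi, iB, thK, etaB, -map_pow, MulAut.conj_apply]
  exact DFunLike.congr_fun this w

theorem phi_iota (h : H0) (n : ℕ) (w : H0) : phi h n (iota w) = w := by
  have : (phi h n).comp iota = MonoidHom.id H0 := by
    ext i
    fin_cases i
    · have e1 : iota (FreeGroup.of 0) = (iB pi0)⁻¹ * FreeGroup.of 1 * FreeGroup.of 1 := by
        simp [iota, iB, pi0]; group
      have e2 : phi h n (iB pi0) = thK h (etaA p0) := by
        rw [phi_iB, ← eta_p0]
        group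
      show phi h n (iota (FreeGroup.of 0)) = FreeGroup.of 0
      rw [e1, map_mul, map_mul, map_inv, e2]
      simp [phi, p0, etaA, thK]
      group
    · simp [phi, iota]
  exact DFunLike.congr_fun this w

theorem phi_iA (h : H0) (n : ℕ) (w : F3) : phi h n (iA w) = thK h (etaA w) := by
  have : (phi h n).comp iA = (thK h).comp etaA := by
    ext i
    fin_cases i
    · show phi h n (iA (FreeGroup.of 0)) = thK h (etaA (FreeGroup.of 0))
      have : iA (FreeGroup.of 0) = iota (FreeGroup.of 0) := by simp [iA]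
      rw [this, phi_iota]
      simp [thK, etaA]
    · simp [phi, iA, thK, etaA]
    · simp [phi, iA, thK, etaA]
  exact DFunLike.congr_fun this w



theorem goodPi {h : H0} {L : List (F2 × F3)} (hG : GoodG pi0 p0 L) (hne : L ≠ [])
    (h1 : ∀ t ∈ L, etaB (t.1 * pi0 * t.1⁻¹ * pi0⁻¹) ≠ 1 → thK h (etaB (t.1 * pi0 * t.1⁻¹ * pi0⁻¹)) ≠ 1)
    (h2 : ∀ t ∈ L, etaA (t.2 * p0 * t.2⁻¹ * p0⁻¹) ≠ 1 → thK h (etaA (t.2 * p0 * t.2⁻¹ * p0⁻¹)) ≠ 1) :
    Good (thK h (etaA p0)) (L.map (fun t => (thK h (etaB t.1), thK h (etaA t.2)))) := by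
  have hB : ∀ t ∈ L, t.1 ∉ Subgroup.zpowers pi0 →
      thK h (etaA p0) * thK h (etaB t.1) ≠ thK h (etaB t.1) * thK h (etaA p0) := by
    intro t ht hn hc
    have h3 : etaB (t.1 * pi0 * t.1⁻¹ * pi0⁻¹) ≠ 1 := by
      intro h4
      have h5 : t.1 * pi0 * t.1⁻¹ * pi0⁻¹ = 1 := etaB_injective (h4.trans (map_one _).symm)
      apply cent_pi0 hn
      rw [mul_inv_eq_one, mul_inv_eq_iff_eq_mul] at h5
      exact h5
    apply h1 t ht h3
    rw [eta_p0, ← map_mul, ← map_mul, ← map_mul, ← map_mul] at hc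
    simp only [map_mul, map_inv] at hc ⊢
    rw [mul_inv_eq_one, mul_inv_eq_iff_eq_mul]
    exact hc.symm
  have hA : ∀ t ∈ L, t.2 ∉ Subgroup.zpowers p0 →
      thK h (etaA p0) * thK h (etaA t.2) ≠ thK h (etaA t.2) * thK h (etaA p0) := by
    intro t ht hn hc
    have h3 : etaA (t.2 * p0 * t.2⁻¹ * p0⁻¹) ≠ 1 := by
      intro h4
      have h5 : t.2 * p0 * t.2⁻¹ * p0⁻¹ = 1 := etaA_injective (h4.trans (map_one _).symm)
      apply cent_p0 hn
      rw [mul_inv_eq_one, mul_inv_eq_iff_eq_mul] at h5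
      exact h5
    apply h2 t ht h3
    simp only [map_mul, map_inv]
    rw [mul_inv_eq_one, mul_inv_eq_iff_eq_mul]
    exact hc.symm
  clear h1 h2
  induction L with
  | nil => exact absurd rfl hne
  | cons t L ih =>
    cases L with
    | nil =>
      have h3 : t.1 ∉ Subgroup.zpowers pi0 := hG
      exact hB t (by simp) h3
    | cons t' L =>
      obtain ⟨h3, h4, h5⟩ := hG
      refine ⟨hB t (by simp) h3, hA t (by simp) h4, ?_⟩
      exact ih h5 (by simp) (fun s hs => hB s (List.mem_cons_of_mem _ hs))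
        (fun s hs => hA s (List.mem_cons_of_mem _ hs))

/-- Discrimination by retractions. -/
theorem disc (S : Finset F4) (hS : ∀ s ∈ S, s ≠ 1) :
    ∃ φ : F4 →* H0, (∀ u : H0, φ (iota u) = u) ∧ ∀ s ∈ S, φ s ≠ 1 := by
  classical
  choose a L hG hev using fun s : F4 => decomp iA iB p0 pi0 iA_p0 gen_F4 s
  set R : Finset K3 := (S.biUnion (fun s =>
    insert (etaA (a s)) (((L s).map (fun t => etaB (t.1 * pi0 * t.1⁻¹ * pi0⁻¹))).toFinset ∪
    ((L s).map (fun t => etaA (t.2 * p0 * t.2⁻¹ * p0⁻¹))).toFinset))).filter (fun x => x ≠ 1) with hR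
  obtain ⟨h, hh⟩ := R_K R (fun s hs => (Finset.mem_filter.mp hs).2)
  have hev2 : ∀ s ∈ S, ∀ᶠ n : ℕ in Filter.atTop, phi h n s ≠ 1 := by
    intro s hs
    by_cases hL : L s = []
    · refine Filter.Eventually.of_forall (fun n => ?_)
      have h1 := hev s
      rw [hL] at h1
      simp only [ev, List.map_nil, List.prod_nil, mul_one] at h1
      rw [h1, phi_iA]
      apply hh
      rw [hR, Finset.mem_filter]
      refine ⟨?_, ?_⟩
      · rw [Finset.mem_biUnion]
        exact ⟨s, hs, Finset.mem_insert_self _ _⟩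
      · intro h2
        apply hS s hs
        rw [h1, etaA_injective (h2.trans (map_one _).symm), map_one]
    · have hgood : Good (thK h (etaA p0))
          ((L s).map (fun t => (thK h (etaB t.1), thK h (etaA t.2)))) := by
        apply goodPi (hG s) hL
        · intro t ht hne
          apply hh
          rw [hR, Finset.mem_filter]
          refine ⟨?_, hne⟩
          rw [Finset.mem_biUnion]
          refine ⟨s, hs, Finset.mem_insert_of_mem (Finset.mem_union_left _ ?_)⟩
          rw [List.mem_toFinset]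
          exact List.mem_map.mpr ⟨t, ht, rfl⟩
        · intro t ht hne
          apply hh
          rw [hR, Finset.mem_filter]
          refine ⟨?_, hne⟩
          rw [Finset.mem_biUnion]
          refine ⟨s, hs, Finset.mem_insert_of_mem (Finset.mem_union_right _ ?_)⟩
          rw [List.mem_toFinset]
          exact List.mem_map.mpr ⟨t, ht, rfl⟩
      obtain ⟨N, hN⟩ := BP_H _ (thK h (etaA (a s))) _ hgood
      refine Filter.eventually_atTop.mpr ⟨N, fun n hn h0 => hN n hn ?_⟩
      rw [← h0]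
      conv_rhs => rw [hev s]
      rw [ev, map_mul, phi_iA, map_list_prod, List.map_map, List.map_map]
      congr 2
      apply List.map_congr_left
      intro t _
      simp only [Function.comp, map_mul, phi_iA, phi_iB]
  have hall : ∀ᶠ n : ℕ in Filter.atTop, ∀ s ∈ S, phi h n s ≠ 1 :=
    (Filter.eventually_all_finset S).mpr hev2
  obtain ⟨n, hn⟩ := hall.exists
  exact ⟨phi h n, phi_iota h n, hn⟩

/-- The subgroup. -/
def HH : Subgroup F4 := iota.range

/-- Existential closedness. -/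
theorem ec (n : ℕ) (E I : Finset (Monoid.Coprod (FreeGroup (Fin n)) ↥HH))
    (hx : ∃ x : Fin n → F4,
      (∀ w ∈ E, Monoid.Coprod.lift (FreeGroup.lift x) HH.subtype w = 1) ∧
      (∀ v ∈ I, Monoid.Coprod.lift (FreeGroup.lift x) HH.subtype v ≠ 1)) :
    ∃ y : Fin n → ↥HH,
      (∀ w ∈ E, Monoid.Coprod.lift (FreeGroup.lift y) (MonoidHom.id ↥HH) w = 1) ∧
      (∀ v ∈ I, Monoid.Coprod.lift (FreeGroup.lift y) (MonoidHom.id ↥HH) v ≠ 1) := by
  classical
  obtain ⟨x, hE, hI⟩ := hx
  obtain ⟨φ, hφ, hS⟩ := disc (I.image (fun v => Monoid.Coprod.lift (FreeGroup.lift x) HH.subtype v))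
    (by
      intro s hs
      obtain ⟨v, hv, rfl⟩ := Finset.mem_image.mp hs
      exact hI v hv)
  set r : F4 →* ↥HH := iota.rangeRestrict.comp φ with hr
  have hcomp : Monoid.Coprod.lift (FreeGroup.lift (fun i => r (x i))) (MonoidHom.id ↥HH) =
      r.comp (Monoid.Coprod.lift (FreeGroup.lift x) HH.subtype) := by
    apply Monoid.Coprod.hom_ext
    · rw [Monoid.Coprod.lift_comp_inl, MonoidHom.comp_assoc, Monoid.Coprod.lift_comp_inl]
      ext i
      simp
    · rw [Monoid.Coprod.lift_comp_inr, MonoidHom.comp_assoc, Monoid.Coprod.lift_comp_inr]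
      ext ⟨_, u, rfl⟩
      show iota u = iota (φ (iota u))
      rw [hφ]
  refine ⟨fun i => r (x i), ?_, ?_⟩
  · intro w hw
    rw [hcomp, MonoidHom.comp_apply, hE w hw, map_one]
  · intro v hv h
    rw [hcomp, MonoidHom.comp_apply] at h
    apply hS _ (Finset.mem_image_of_mem _ hv)
    have h2 : φ (iota (φ (Monoid.Coprod.lift (FreeGroup.lift x) HH.subtype v))) = φ (1 : F4) :=
      congrArg (fun z : ↥HH => φ z.1) h
    rwa [hφ, map_one] at h2



abbrev GG := DihedralGroup 3

/-- Solutions of the defining equation in the dihedral group. -/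
abbrev Sol (g : GG) := {t : GG × GG × GG // t.2.1 * t.2.2 * t.2.1⁻¹ * t.2.1⁻¹ * t.2.2⁻¹ * t.1 * t.1 = g}

theorem card_one : Fintype.card (Sol 1) = 54 := by decide +kernel
theorem card_sr : Fintype.card (Sol (DihedralGroup.sr 0)) = 36 := by decide +kernel

/-- The homomorphisms from the subgroup. -/
def psi (g : GG) : ↥HH →* GG := (FreeGroup.lift ![g, 1]).comp ((phi 1 0).comp HH.subtype)

theorem psi_iota (g : GG) (u : H0) : psi g ⟨iota u, ⟨u, rfl⟩⟩ = FreeGroup.lift ![g, 1] u := by
  show FreeGroup.lift ![g, 1] (phi 1 0 (iota u)) = _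
  rw [phi_iota]

/-- Extensions of a homomorphism. -/
abbrev Fib (g : GG) := {φ : F4 →* GG // φ.comp HH.subtype = psi g}

/-- Fibres via a complement. -/
noncomputable def fibK (K : Subgroup F4)
    (hK : Function.Bijective (Monoid.Coprod.lift HH.subtype K.subtype)) (g : GG) :
    Fib g ≃ (↥K →* GG) where
  toFun φ := φ.1.comp K.subtype
  invFun κ := ⟨(Monoid.Coprod.lift (psi g) κ).comp (MulEquiv.ofBijective _ hK).symm.toMonoidHom, by
    ext h
    have h1 : (MulEquiv.ofBijective _ hK).symm (HH.subtype h) = Monoid.Coprod.inl h := by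
      rw [MulEquiv.symm_apply_eq]
      simp
    show Monoid.Coprod.lift (psi g) κ ((MulEquiv.ofBijective _ hK).symm (HH.subtype h)) = _
    rw [h1, Monoid.Coprod.lift_apply_inl]⟩
  left_inv φ := by
    apply Subtype.ext
    refine MonoidHom.ext fun x => ?_
    show Monoid.Coprod.lift (psi g) (φ.1.comp K.subtype) ((MulEquiv.ofBijective _ hK).symm x) = φ.1 x
    have h2 : Monoid.Coprod.lift (psi g) (φ.1.comp K.subtype) =
        φ.1.comp (Monoid.Coprod.lift HH.subtype K.subtype) := by
      apply Monoid.Coprod.hom_ext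
      · rw [Monoid.Coprod.lift_comp_inl, MonoidHom.comp_assoc, Monoid.Coprod.lift_comp_inl, φ.2]
      · rw [Monoid.Coprod.lift_comp_inr, MonoidHom.comp_assoc, Monoid.Coprod.lift_comp_inr]
    rw [h2]
    show φ.1 ((MulEquiv.ofBijective _ hK) ((MulEquiv.ofBijective _ hK).symm x)) = φ.1 x
    rw [MulEquiv.apply_symm_apply]
  right_inv κ := by
    ext k
    have h1 : (MulEquiv.ofBijective _ hK).symm (K.subtype k) = Monoid.Coprod.inr k := by
      rw [MulEquiv.symm_apply_eq]
      simp
    show Monoid.Coprod.lift (psi g) κ ((MulEquiv.ofBijective _ hK).symm (K.subtype k)) = _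
    rw [h1, Monoid.Coprod.lift_apply_inr]

theorem hom_iota (φ : F4 →* GG) : φ (iota (FreeGroup.of 0)) =
    φ (FreeGroup.of 2) * φ (FreeGroup.of 3) * (φ (FreeGroup.of 2))⁻¹ * (φ (FreeGroup.of 2))⁻¹ *
      (φ (FreeGroup.of 3))⁻¹ * φ (FreeGroup.of 1) * φ (FreeGroup.of 1) := by
  simp [iota]

theorem fib_cond {φ : F4 →* GG} {g : GG} :
    φ.comp HH.subtype = psi g ↔ φ (iota (FreeGroup.of 0)) = g ∧ φ (FreeGroup.of 0) = 1 := by
  constructor
  · intro h
    have h1 : ∀ u : H0, φ (iota u) = FreeGroup.lift ![g, 1] u := by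
      intro u
      rw [← psi_iota g u, ← h]
      rfl
    refine ⟨?_, ?_⟩
    · rw [h1]; simp
    · have := h1 (FreeGroup.of 1)
      simpa [iota] using this
  · rintro ⟨h1, h2⟩
    have h3 : φ.comp iota = FreeGroup.lift ![g, 1] := by
      ext i
      fin_cases i
      · simpa using h1
      · simpa [iota] using h2
    ext ⟨_, u, rfl⟩
    rw [psi_iota, ← h3]
    rfl

/-- Fibres via solutions. -/
noncomputable def fibS (g : GG) : Fib g ≃ Sol g where
  toFun φ := ⟨(φ.1 (FreeGroup.of 1), φ.1 (FreeGroup.of 2), φ.1 (FreeGroup.of 3)), by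
    have := (fib_cond.mp φ.2).1
    rw [hom_iota] at this
    exact this⟩
  invFun t := ⟨FreeGroup.lift ![1, t.1.1, t.1.2.1, t.1.2.2], by
    rw [fib_cond, hom_iota]
    have := t.2
    simp at this ⊢
    exact this⟩
  left_inv φ := by
    apply Subtype.ext
    ext i
    have h0 := (fib_cond.mp φ.2).2
    fin_cases i <;> simp [h0]
  right_inv t := by
    apply Subtype.ext
    simp

theorem not_factor (K : Subgroup F4)
    (hK : Function.Bijective (Monoid.Coprod.lift HH.subtype K.subtype)) : False := by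
  have h1 : Nat.card (Sol 1) = Nat.card (Sol (DihedralGroup.sr 0)) := by
    exact Nat.card_congr ((fibS 1).symm.trans ((fibK K hK 1).trans
      ((fibK K hK (DihedralGroup.sr 0)).symm.trans (fibS (DihedralGroup.sr 0)))))
  rw [Nat.card_eq_fintype_card, Nat.card_eq_fintype_card, card_one, card_sr] at h1
  omega


/-- The negation of the preceding statement: In a free group of rank r ≥ 2, any subgroup H where every finite system of equations and inequations with constants in H that is solvable in the group is also solvable in H is nonabelian and is a free factor (the group is H free product some K). -/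
theorem result :
    ¬ (∀ (r : ℕ), 2 ≤ r → ∀ H : Subgroup (FreeGroup (Fin r)),
      (∀ (n : ℕ) (E I : Finset (Monoid.Coprod (FreeGroup (Fin n)) ↥H)),
        (∃ x : Fin n → FreeGroup (Fin r),
          (∀ w ∈ E, Monoid.Coprod.lift (FreeGroup.lift x) H.subtype w = 1) ∧
          (∀ v ∈ I, Monoid.Coprod.lift (FreeGroup.lift x) H.subtype v ≠ 1)) →
        (∃ y : Fin n → ↥H,
          (∀ w ∈ E, Monoid.Coprod.lift (FreeGroup.lift y) (MonoidHom.id ↥H) w = 1) ∧
          (∀ v ∈ I, Monoid.Coprod.lift (FreeGroup.lift y) (MonoidHom.id ↥H) v ≠ 1))) →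
      (∃ a ∈ H, ∃ b ∈ H, a * b ≠ b * a) ∧
      ∃ K : Subgroup (FreeGroup (Fin r)),
        Function.Bijective (Monoid.Coprod.lift H.subtype K.subtype)) := by
  intro hall
  obtain ⟨_, K, hK⟩ := hall 4 (by norm_num) HH ec
  exact not_factor K hK

end Pool.Agent.S01510
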