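import Pool.Statements.S01512
import Pool.Agent.Helper476.NM10

set_option autoImplicit false
open Classical
open Pool Pool.MP_947bdc_al

namespace Pool.Agent.S01512

/-- The negation of the preceding statement: There is a function f such that every finite p-group whose irreducible complex characters are all induced from linear characters of normal subgroups has derived length at most f(p). -/
theorem result :
    ¬ (∃ f : ℕ → ℕ, ∀ (p : ℕ), p.Prime → ∀ (P : Type) [Group P] [Fintype P],
      IsPGroup p P →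
      (∀ V : FDRep ℂ P, CategoryTheory.Simple V →
        ∃ N : Subgroup P, N.Normal ∧ ∃ lam : N →* ℂˣ, ∀ g : P,
          V.character g = (Nat.card N : ℂ)⁻¹ *
            ∑ x : P, (if h : x * g * x⁻¹ ∈ N then ((lam ⟨x * g * x⁻¹, h⟩ : ℂˣ) : ℂ) else 0)) →
      derivedSeries P (f p) = ⊥) := by
  rintro ⟨f, hf⟩
  have : Fact (Nat.Prime 3) := ⟨Nat.prime_three⟩
  obtain ⟨G, iG, hfin, hpg, hrep, hder⟩ := Pool.Agent.Helper476.NM.main 3 (f 3) le_rfl
  have := Fintype.ofFinite G
  apply hder
  apply hf 3 Nat.prime_three G hpg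
  intro V hV
  obtain ⟨N, hN, ν, h1, h2, h3, v, hv, hv'⟩ := hrep V hV
  let lam0 : N →* ℂ :=
    { toFun := fun m => ν m.1
      map_one' := h1
      map_mul' := fun s t => h2 s.1 s.2 t.1 t.2 }
  refine ⟨N, hN, lam0.toHomUnits, fun g => ?_⟩
  have := hN
  have := hV
  rw [Pool.Agent.Helper476.NM.char_formula V N ν h1 h2 h3 v hv hv' g]
  have hsum : (∑ x : G, (if x * g * x⁻¹ ∈ N then ν (x * g * x⁻¹) else 0)) =
      ∑ x : G, (if h : x * g * x⁻¹ ∈ N then ((lam0.toHomUnits ⟨x * g * x⁻¹, h⟩ : ℂˣ) : ℂ) else 0) := by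
    refine Finset.sum_congr rfl fun x _ => ?_
    by_cases h : x * g * x⁻¹ ∈ N
    · rw [if_pos h, dif_pos h]
      rfl
    · rw [if_neg h, dif_neg h]
  rw [hsum]

end Pool.Agent.S01512
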