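import Pool.Statements.S01520
import Pool.Agent.Helper638.Data15

set_option autoImplicit false
open Pool Pool.MP_954a1f_al

namespace Pool.Agent.S01520

/-- The negation of the preceding statement: For all a, b ≥ 1, the group with generators x, y and relations x = [x,y,...,y] (a copies of y) and y = [y,x,...,x] (b copies of x) is finite, using left-normed commutators [u,v]=u⁻¹v⁻¹uv. -/
theorem result :
    ¬ (∀ a b : ℕ, 1 ≤ a → 1 ≤ b →
      Finite (PresentedGroup
        ({(fun z : FreeGroup (Fin 2) =>
              z⁻¹ * (FreeGroup.of (1 : Fin 2))⁻¹ * z * FreeGroup.of (1 : Fin 2))^[a]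
              (FreeGroup.of (0 : Fin 2)) * (FreeGroup.of (0 : Fin 2))⁻¹,
          (fun z : FreeGroup (Fin 2) =>
              z⁻¹ * (FreeGroup.of (0 : Fin 2))⁻¹ * z * FreeGroup.of (0 : Fin 2))^[b]
              (FreeGroup.of (1 : Fin 2)) * (FreeGroup.of (1 : Fin 2))⁻¹} :
          Set (FreeGroup (Fin 2))))) := by
  intro h
  have hfin := h 15 15 (by norm_num) (by norm_num)
  have hinf := Pool.Agent.Helper638.infinite_rel 1 1
  have e : Set.range (Pool.Agent.Helper638.rel (15 * 1) (15 * 1)) =
      ({(fun z : FreeGroup (Fin 2) =>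
              z⁻¹ * (FreeGroup.of (1 : Fin 2))⁻¹ * z * FreeGroup.of (1 : Fin 2))^[15]
              (FreeGroup.of (0 : Fin 2)) * (FreeGroup.of (0 : Fin 2))⁻¹,
          (fun z : FreeGroup (Fin 2) =>
              z⁻¹ * (FreeGroup.of (0 : Fin 2))⁻¹ * z * FreeGroup.of (0 : Fin 2))^[15]
              (FreeGroup.of (1 : Fin 2)) * (FreeGroup.of (1 : Fin 2))⁻¹} :
          Set (FreeGroup (Fin 2))) := by
    rw [Pool.Agent.Helper638.rel, Matrix.range_cons, Matrix.range_cons, Matrix.range_empty,
      Set.union_empty, Set.singleton_union]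
    rfl
  rw [e] at hinf
  exact not_finite_iff_infinite.2 hinf hfin

end Pool.Agent.S01520
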