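import Pool.Statements.S01546

set_option autoImplicit false
open Pool Pool.MP_96de0f_al

namespace Pool.Agent.S01546


/-!
The quasi-variety generated by the wreath product does not cover the abelian one.  The group `HH`
below is a non-abelian subdirect product of totally ordered groups inside a reduced power of the
wreath product.  Its base consists of germs of sequences which are locally images, under finitely
many integral Laurent operators, of a coherent family of non-zero integer sequences of finite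
support: on every window of bounded length each operator maps the coherent sequence to values of
constant sign.  The coherent sequences are built by induction on the degree of the operators.
The quasi-identity `x ⊓ y⁻¹ x y = 1 → x = 1` then separates `HH` from the wreath product.
-/

open Polynomial Filter Topology

/-- The shift on two-sided real sequences. -/
noncomputable def shiftEnd : Module.End ℝ (ℤ → ℝ) where
  toFun f := fun i => f (i - 1)
  map_add' _ _ := rfl
  map_smul' _ _ := rfl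

/-- A real polynomial acts on two-sided sequences, the variable acting as the shift. -/
noncomputable def act (P : ℝ[X]) (f : ℤ → ℝ) : ℤ → ℝ := (aeval shiftEnd P) f

lemma shiftEnd_pow (k : ℕ) (f : ℤ → ℝ) (i : ℤ) : (shiftEnd ^ k) f i = f (i - k) := by
  induction k generalizing i with
  | zero => simp
  | succ k ih =>
    rw [pow_succ', Module.End.mul_apply]
    change (shiftEnd ^ k) f (i - 1) = _
    rw [ih]
    congr 1
    push_cast
    ring

lemma act_eq {D : ℕ} {P : ℝ[X]} (hP : P.natDegree ≤ D) (f : ℤ → ℝ) (i : ℤ) :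
    act P f i = ∑ k ∈ Finset.range (D + 1), P.coeff k * f (i - k) := by
  unfold act
  rw [Polynomial.aeval_eq_sum_range' (Nat.lt_succ_of_le hP)]
  simp [LinearMap.sum_apply, Finset.sum_apply, shiftEnd_pow]

lemma act_mul (P Q : ℝ[X]) (f : ℤ → ℝ) : act (P * Q) f = act P (act Q f) := by
  unfold act
  rw [map_mul, Module.End.mul_apply]

lemma act_linear (θ : ℝ) (f : ℤ → ℝ) : act (X - C θ) f = fun i => f (i - 1) - θ * f i := by
  unfold act
  rw [map_sub, aeval_X, aeval_C]
  rfl

lemma act_smul (P : ℝ[X]) (c : ℝ) (f : ℤ → ℝ) : act P (fun i => c * f i) = fun i => c * act P f i := by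
  unfold act
  have : (fun i => c * f i) = c • f := rfl
  rw [this, map_smul]
  rfl

/-- Sign constancy on windows. -/
def SC (W : ℕ) (h : ℤ → ℝ) : Prop :=
  ∀ i : ℤ, (∀ j, i ≤ j → j ≤ i + W → 0 ≤ h j) ∨ (∀ j, i ≤ j → j ≤ i + W → h j ≤ 0)

/-- A piece: asymptotically geometric sequences whose images under all polynomials of a set have
constant sign on windows. -/
structure Piece (S : Set ℝ[X]) (W : ℕ) (α β : ℝ) (f : ℤ → ℝ) : Prop where
  nonneg : ∀ i, 0 ≤ f i
  left : ∃ M, 0 < f M ∧ ∀ i ≤ M, f (i - 1) = α * f i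
  right : ∃ N, 0 < f N ∧ ∀ i ≥ N, f (i + 1) = β * f i
  lo : ∀ i, α * f i ≤ f (i - 1)
  hi : ∀ i, β * f i ≤ f (i + 1)
  good : ∀ P ∈ S, SC W (act P f)

lemma SC_of_nonneg {W : ℕ} {h : ℤ → ℝ} (hh : ∀ i, 0 ≤ h i) : SC W h :=
  fun _ => Or.inl fun j _ _ => hh j

lemma SC_of_nonpos {W : ℕ} {h : ℤ → ℝ} (hh : ∀ i, h i ≤ 0) : SC W h :=
  fun _ => Or.inr fun j _ _ => hh j

/-- Degree zero. -/
lemma base_piece (S : Set ℝ[X]) (hS : ∀ P ∈ S, P.natDegree ≤ 0) (W : ℕ) {α β : ℝ} (hα : 0 ≤ α)
    (hβ : 0 ≤ β) (hαβ : α * β < 1) : ∃ f, Piece S W α β f := by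
  let f : ℤ → ℝ := fun i => if i ≤ 0 then α ^ (-i).toNat else β ^ i.toNat
  have f0 : f 0 = 1 := by simp [f]
  have fneg : ∀ n : ℕ, f (-n) = α ^ n := by
    intro n
    simp [f]
  have fpos : ∀ n : ℕ, f n = β ^ n := by
    intro n
    rcases Nat.eq_zero_or_pos n with h | h
    · subst h; simp [f]
    · simp only [f]
      rw [if_neg (by omega)]
      simp
  have hnn : ∀ i, 0 ≤ f i := by
    intro i
    simp only [f]
    split_ifs
    · positivity
    · positivity
  have hl : ∀ i ≤ 0, f (i - 1) = α * f i := by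
    intro i hi
    obtain ⟨n, rfl⟩ : ∃ n : ℕ, i = -n := ⟨(-i).toNat, by omega⟩
    have : (-(n : ℤ) - 1) = -((n + 1 : ℕ) : ℤ) := by push_cast; ring
    rw [this, fneg, fneg, pow_succ']
  have hr : ∀ i ≥ 0, f (i + 1) = β * f i := by
    intro i hi
    obtain ⟨n, rfl⟩ : ∃ n : ℕ, i = n := ⟨i.toNat, by omega⟩
    have : ((n : ℤ) + 1) = ((n + 1 : ℕ) : ℤ) := by push_cast; ring
    rw [this, fpos, fpos, pow_succ']
  refine ⟨f, hnn, ⟨0, by rw [f0]; exact one_pos, hl⟩, ⟨0, by rw [f0]; exact one_pos, hr⟩, ?_, ?_, ?_⟩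
  · intro i
    rcases le_or_gt i 0 with h | h
    · exact (hl i h).ge
    · have h1 := hr (i - 1) (by omega)
      rw [sub_add_cancel] at h1
      rw [h1, ← mul_assoc]
      have := hnn (i - 1)
      nlinarith
  · intro i
    rcases le_or_gt 0 i with h | h
    · exact (hr i h).ge
    · have h1 := hl (i + 1) (by omega)
      rw [add_sub_cancel_right] at h1
      rw [h1, ← mul_assoc]
      have := hnn (i + 1)
      nlinarith
  · intro P hP
    have hact : ∀ i, act P f i = P.coeff 0 * f i := by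
      intro i
      rw [act_eq (hS P hP)]
      simp
    rcases le_total 0 (P.coeff 0) with h | h
    · apply SC_of_nonneg
      intro i
      rw [hact]
      exact mul_nonneg h (hnn i)
    · apply SC_of_nonpos
      intro i
      rw [hact]
      exact mul_nonpos_of_nonpos_of_nonneg h (hnn i)

/-- Sequences of ratio close to `θ`, where `θ` is not a root. -/
lemma sign_of_ratio {D : ℕ} {P : ℝ[X]} (hP : P.natDegree ≤ D) {θ β : ℝ} (hθ : 0 ≤ θ) (hβ : θ ≤ β)
    (hc : ∑ k ∈ Finset.range (D + 1), |P.coeff k| * (β ^ k - θ ^ k) ≤ |P.eval θ|)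
    {f : ℤ → ℝ} (hnn : ∀ i, 0 ≤ f i) (hlo : ∀ i, θ * f i ≤ f (i - 1))
    (hhi : ∀ i, f (i - 1) ≤ β * f i) (W : ℕ) : SC W (act P f) := by
  have h1 : ∀ (k : ℕ) (i : ℤ), θ ^ k * f i ≤ f (i - k) ∧ f (i - k) ≤ β ^ k * f i := by
    intro k
    induction k with
    | zero => intro i; simp
    | succ k ih =>
      intro i
      have h2 := ih (i - 1)
      have h3 : i - 1 - (k : ℤ) = i - ((k + 1 : ℕ) : ℤ) := by push_cast; ring
      rw [h3] at h2
      have h4 : 0 ≤ θ ^ k := pow_nonneg hθ k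
      have h5 : 0 ≤ β ^ k := pow_nonneg (hθ.trans hβ) k
      constructor
      · calc θ ^ (k + 1) * f i = θ ^ k * (θ * f i) := by ring
          _ ≤ θ ^ k * f (i - 1) := mul_le_mul_of_nonneg_left (hlo i) h4
          _ ≤ _ := h2.1
      · calc f (i - ((k + 1 : ℕ) : ℤ)) ≤ β ^ k * f (i - 1) := h2.2
          _ ≤ β ^ k * (β * f i) := mul_le_mul_of_nonneg_left (hhi i) h5
          _ = β ^ (k + 1) * f i := by ring
  have hev : P.eval θ = ∑ k ∈ Finset.range (D + 1), P.coeff k * θ ^ k :=
    Polynomial.eval_eq_sum_range' (Nat.lt_succ_of_le hP) θ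
  have h2 : ∀ i, |act P f i - P.eval θ * f i| ≤ |P.eval θ| * f i := by
    intro i
    rw [act_eq hP, hev, Finset.sum_mul, ← Finset.sum_sub_distrib]
    calc |∑ k ∈ Finset.range (D + 1), (P.coeff k * f (i - k) - P.coeff k * θ ^ k * f i)|
        ≤ ∑ k ∈ Finset.range (D + 1), |P.coeff k * f (i - k) - P.coeff k * θ ^ k * f i| :=
          Finset.abs_sum_le_sum_abs _ _
      _ ≤ ∑ k ∈ Finset.range (D + 1), |P.coeff k| * (β ^ k - θ ^ k) * f i := by
          apply Finset.sum_le_sum
          intro k _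
          have h3 := h1 k i
          have h4 : P.coeff k * f (i - k) - P.coeff k * θ ^ k * f i
              = P.coeff k * (f (i - k) - θ ^ k * f i) := by ring
          rw [h4, abs_mul, mul_assoc]
          apply mul_le_mul_of_nonneg_left _ (abs_nonneg _)
          rw [abs_of_nonneg (by linarith [h3.1])]
          have : (β ^ k - θ ^ k) * f i = β ^ k * f i - θ ^ k * f i := by ring
          rw [this]
          linarith [h3.2]
      _ = (∑ k ∈ Finset.range (D + 1), |P.coeff k| * (β ^ k - θ ^ k)) * f i := by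
          rw [Finset.sum_mul]
      _ ≤ |P.eval θ| * f i := mul_le_mul_of_nonneg_right hc (hnn i)
      _ = _ := by rw [hev]
  rcases le_total 0 (P.eval θ) with h | h
  · apply SC_of_nonneg
    intro i
    have h3 := (abs_le.mp (h2 i)).1
    rw [abs_of_nonneg h] at h3
    linarith
  · apply SC_of_nonpos
    intro i
    have h3 := (abs_le.mp (h2 i)).2
    rw [abs_of_nonpos h] at h3
    linarith

/-- Every admissible pair of end ratios is attained. -/
def AllPieces (W D : ℕ) : Prop :=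
  ∀ S : Set ℝ[X], S.Finite → (∀ P ∈ S, P.natDegree ≤ D) → ∀ α β : ℝ, 0 ≤ α → 0 ≤ β → α * β < 1 →
    ∃ f, Piece S W α β f

/-- Half crossing to the right. -/
lemma right_step {W D : ℕ} (IH : AllPieces W D) (S : Set ℝ[X]) (hfin : S.Finite)
    (hS : ∀ P ∈ S, P.natDegree ≤ D + 1) {θ : ℝ} (hθ : 0 ≤ θ) :
    ∀ᶠ β in 𝓝[>] θ, ∃ f, Piece S W θ β⁻¹ f := by
  have hev : ∀ᶠ β in 𝓝[>] θ, ∀ P ∈ S, P.eval θ ≠ 0 →
      ∑ k ∈ Finset.range (D + 1 + 1), |P.coeff k| * (β ^ k - θ ^ k) ≤ |P.eval θ| := by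
    rw [Filter.eventually_all_finite hfin]
    intro P _
    by_cases h : P.eval θ = 0
    · exact Filter.Eventually.of_forall fun β hn => absurd h hn
    · have hcont : Continuous
          (fun β : ℝ => ∑ k ∈ Finset.range (D + 1 + 1), |P.coeff k| * (β ^ k - θ ^ k)) := by
        fun_prop
      have h0 : (∑ k ∈ Finset.range (D + 1 + 1), |P.coeff k| * (θ ^ k - θ ^ k)) < |P.eval θ| := by
        simp only [sub_self, mul_zero, Finset.sum_const_zero]
        exact abs_pos.mpr h
      have h1 := (hcont.tendsto θ).eventually (gt_mem_nhds h0)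
      exact (h1.filter_mono nhdsWithin_le_nhds).mono fun β hβ _ => hβ.le
  have hgt : ∀ᶠ β in 𝓝[>] θ, θ < β := eventually_mem_nhdsWithin
  filter_upwards [hev, hgt] with β hβ hβθ
  have hβ0 : 0 < β := hθ.trans_lt hβθ
  let S' : Set ℝ[X] := (fun P => P /ₘ (X - C θ)) '' S
  obtain ⟨g, hg⟩ := IH S' (hfin.image _) (by
    rintro _ ⟨P, hP, rfl⟩
    simp only
    rw [natDegree_divByMonic _ (monic_X_sub_C θ), natDegree_X_sub_C]
    have := hS P hP
    omega) 0 β⁻¹ le_rfl (inv_nonneg.mpr hβ0.le) (by simp)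
  obtain ⟨N, hN, hNr⟩ := hg.right
  obtain ⟨M, hM, hMl⟩ := hg.left
  have hd : 0 < β - θ := sub_pos.mpr hβθ
  let u : ℕ → ℝ := fun n => Nat.rec (g N / (β - θ)) (fun n r => θ * r + g (N - n)) n
  have u0 : u 0 = g N / (β - θ) := rfl
  have usucc : ∀ n, u (n + 1) = θ * u n + g (N - n) := fun n => rfl
  let f : ℤ → ℝ := fun i => if N ≤ i then g i / (β - θ) else u (N - i).toNat
  have fge : ∀ i, N ≤ i → f i = g i / (β - θ) := fun i hi => if_pos hi
  have fle : ∀ n : ℕ, f (N - n) = u n := by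
    intro n
    rcases Nat.eq_zero_or_pos n with h | h
    · subst h
      rw [u0]
      simp [f]
    · simp only [f]
      rw [if_neg (by omega)]
      congr 1
      omega
  have heq : ∀ i, f (i - 1) = θ * f i + g i := by
    intro i
    rcases le_or_gt i N with h | h
    · obtain ⟨n, hn⟩ : ∃ n : ℕ, i = N - n := ⟨(N - i).toNat, by omega⟩
      subst hn
      have h1 : N - (n : ℤ) - 1 = N - ((n + 1 : ℕ) : ℤ) := by push_cast; ring
      rw [h1, fle, fle, usucc]
    · rw [fge _ (by omega : N ≤ i - 1), fge _ h.le]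
      have h1 := hNr (i - 1) (by omega)
      rw [sub_add_cancel] at h1
      rw [h1]
      field_simp
      ring
  have hnn : ∀ i, 0 ≤ f i := by
    have h1 : ∀ n, 0 ≤ u n := by
      intro n
      induction n with
      | zero => rw [u0]; positivity
      | succ n ih =>
        rw [usucc]
        have := hg.nonneg (N - n)
        positivity
    intro i
    rcases le_or_gt N i with h | h
    · rw [fge i h]
      have := hg.nonneg i
      positivity
    · obtain ⟨n, hn⟩ : ∃ n : ℕ, i = N - n := ⟨(N - i).toNat, by omega⟩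
      subst hn
      rw [fle]
      exact h1 n
  have hbd : ∀ i, g i ≤ (β - θ) * f i := by
    intro i
    rcases le_or_gt N i with h | h
    · rw [fge i h]
      apply le_of_eq
      field_simp
    · obtain ⟨n, hn⟩ : ∃ n : ℕ, i = N - n := ⟨(N - i).toNat, by omega⟩
      subst hn
      clear h
      induction n with
      | zero =>
        have h2 : N - ((0 : ℕ) : ℤ) = N := by simp
        rw [h2, fge N le_rfl]
        apply le_of_eq
        field_simp
      | succ n ih =>
        have h1 : N - ((n + 1 : ℕ) : ℤ) = N - (n : ℤ) - 1 := by push_cast; ring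
        rw [h1, heq]
        have h2 := hg.hi (N - n - 1)
        rw [sub_add_cancel] at h2
        have h3 : g (N - n - 1) ≤ β * g (N - n) := by
          have h4 := mul_le_mul_of_nonneg_left h2 hβ0.le
          rwa [← mul_assoc, mul_inv_cancel₀ hβ0.ne', one_mul] at h4
        have h5 : θ * g (N - n) ≤ θ * ((β - θ) * f (N - n)) := mul_le_mul_of_nonneg_left ih hθ
        nlinarith
  have hup : ∀ i, f (i - 1) ≤ β * f i := by
    intro i
    rw [heq]
    have := hbd i
    linarith
  have hlow : ∀ i, θ * f i ≤ f (i - 1) := by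
    intro i
    rw [heq]
    linarith [hg.nonneg i]
  refine ⟨f, hnn, ⟨M - 1, ?_, ?_⟩, ⟨N, ?_, ?_⟩, hlow, ?_, ?_⟩
  · rw [heq]
    have := hnn M
    positivity
  · intro i hi
    rw [heq]
    have h1 := hMl (i + 1) (by omega)
    rw [add_sub_cancel_right, zero_mul] at h1
    rw [h1, add_zero]
  · rw [fge N le_rfl]
    positivity
  · intro i hi
    rw [fge _ hi, fge _ (by omega), hNr i hi]
    ring
  · intro i
    have h1 := hup (i + 1)
    rw [add_sub_cancel_right] at h1
    rw [inv_mul_le_iff₀ hβ0]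
    exact h1
  · intro P hP
    by_cases h : P.eval θ = 0
    · have h1 : (P /ₘ (X - C θ)) * (X - C θ) = P := by
        rw [mul_comm]
        exact mul_divByMonic_eq_iff_isRoot.mpr h
      have h2 : act P f = act (P /ₘ (X - C θ)) g := by
        conv_lhs => rw [← h1]
        rw [act_mul, act_linear]
        congr 1
        funext i
        rw [heq]
        ring
      rw [h2]
      exact hg.good _ ⟨P, hP, rfl⟩
    · exact sign_of_ratio (hS P hP) hθ hβθ.le (hβ P hP h) hnn hlow hup W

/-- Reflection. -/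
lemma reflect_piece {W D : ℕ} {S : Set ℝ[X]} (hS : ∀ P ∈ S, P.natDegree ≤ D) {α β : ℝ}
    {f : ℤ → ℝ} (hf : Piece (reflect D '' S) W α β f) : Piece S W β α (fun i => f (-i)) := by
  refine ⟨fun i => hf.nonneg _, ?_, ?_, ?_, ?_, ?_⟩
  · obtain ⟨N, h1, h2⟩ := hf.right
    refine ⟨-N, by simpa using h1, fun i hi => ?_⟩
    have h3 := h2 (-i) (by omega)
    have h4 : -(i - 1) = -i + 1 := by ring
    rw [h4, h3]
  · obtain ⟨M, h1, h2⟩ := hf.left
    refine ⟨-M, by simpa using h1, fun i hi => ?_⟩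
    have h3 := h2 (-i) (by omega)
    have h4 : -(i + 1) = -i - 1 := by ring
    rw [h4, h3]
  · intro i
    have h3 := hf.hi (-i)
    have h4 : -(i - 1) = -i + 1 := by ring
    rw [h4]
    exact h3
  · intro i
    have h3 := hf.lo (-i)
    have h4 : -(i + 1) = -i - 1 := by ring
    rw [h4]
    exact h3
  · intro P hP
    have hd : (reflect D P).natDegree ≤ D :=
      (natDegree_reflect_le).trans (by simp [hS P hP])
    have key : ∀ i, act P (fun i => f (-i)) i = act (reflect D P) f (D - i) := by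
      intro i
      rw [act_eq (hS P hP), act_eq hd, ← Finset.sum_range_reflect]
      apply Finset.sum_congr rfl
      intro k hk
      have hk' : k ≤ D := Nat.lt_succ_iff.mp (Finset.mem_range.mp hk)
      have h1 : D + 1 - 1 - k = D - k := by omega
      rw [h1, coeff_reflect, revAt_le hk']
      congr 2
      push_cast [Nat.cast_sub hk']
      ring
    have h2 := hf.good _ ⟨P, hP, rfl⟩
    intro i
    rcases h2 (D - i - W) with h | h
    · left
      intro j h3 h4
      rw [key]
      exact h _ (by omega) (by omega)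
    · right
      intro j h3 h4
      rw [key]
      exact h _ (by omega) (by omega)

/-- Half crossing to the left. -/
lemma left_step {W D : ℕ} (IH : AllPieces W D) (S : Set ℝ[X]) (hfin : S.Finite)
    (hS : ∀ P ∈ S, P.natDegree ≤ D + 1) {θ : ℝ} (hθ : 0 ≤ θ) :
    ∀ᶠ a in 𝓝[>] θ, ∃ f, Piece S W a⁻¹ θ f := by
  have h := right_step IH (reflect (D + 1) '' S) (hfin.image _) (by
    rintro _ ⟨P, hP, rfl⟩
    exact (natDegree_reflect_le).trans (by simp [hS P hP])) hθ
  filter_upwards [h] with a ⟨f, hf⟩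
  exact ⟨_, reflect_piece hS hf⟩

lemma act_congr {D : ℕ} {P : ℝ[X]} (hP : P.natDegree ≤ D) {f g : ℤ → ℝ} {j : ℤ}
    (h : ∀ i, j - D ≤ i → i ≤ j → f i = g i) : act P f j = act P g j := by
  rw [act_eq hP, act_eq hP]
  apply Finset.sum_congr rfl
  intro k hk
  have hk' : k ≤ D := Nat.lt_succ_iff.mp (Finset.mem_range.mp hk)
  rw [h (j - k) (by omega) (by omega)]

lemma act_translate {D : ℕ} {P : ℝ[X]} (hP : P.natDegree ≤ D) (f : ℤ → ℝ) (τ j : ℤ) :
    act P (fun i => f (i - τ)) j = act P f (j - τ) := by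
  rw [act_eq hP, act_eq hP]
  apply Finset.sum_congr rfl
  intro k _
  congr 2
  ring

/-- Gluing. -/
lemma glue {W D : ℕ} {S : Set ℝ[X]} (hS : ∀ P ∈ S, P.natDegree ≤ D) {α s δ : ℝ} (hs : 0 < s)
    (hαs : α ≤ s) (hδ : δ ≤ s⁻¹) (h1 : ∃ f, Piece S W α s⁻¹ f) (h2 : ∃ f, Piece S W s δ f) :
    ∃ f, Piece S W α δ f := by
  obtain ⟨f₁, hf₁⟩ := h1
  obtain ⟨f₂, hf₂⟩ := h2
  obtain ⟨N₁, hN₁, hN₁r⟩ := hf₁.right
  obtain ⟨M₁, hM₁, hM₁l⟩ := hf₁.left
  obtain ⟨N₂, hN₂, hN₂r⟩ := hf₂.right
  obtain ⟨M₂, hM₂, hM₂l⟩ := hf₂.left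
  set E : ℕ := W + D with hE
  set τ : ℤ := N₁ + E - M₂ with hτ
  have e1 : ∀ k : ℕ, s ^ k * f₁ (N₁ + k) = f₁ N₁ := by
    intro k
    induction k with
    | zero => simp
    | succ k ih =>
      have h3 := hN₁r (N₁ + k) (by omega)
      have h4 : N₁ + ((k + 1 : ℕ) : ℤ) = N₁ + k + 1 := by push_cast; ring
      rw [h4, h3, pow_succ, ← ih]
      field_simp
  have e2 : ∀ k : ℕ, f₂ (M₂ - k) = s ^ k * f₂ M₂ := by
    intro k
    induction k with
    | zero => simp
    | succ k ih =>
      have h3 := hM₂l (M₂ - k) (by omega)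
      have h4 : M₂ - ((k + 1 : ℕ) : ℤ) = M₂ - k - 1 := by push_cast; ring
      rw [h4, h3, ih, pow_succ]
      ring
  set c : ℝ := f₁ N₁ / (s ^ E * f₂ M₂) with hc
  have hcpos : 0 < c := by positivity
  have hov : ∀ i, N₁ ≤ i → i ≤ N₁ + E → f₁ i = c * f₂ (i - τ) := by
    intro i hi1 hi2
    obtain ⟨k, hk⟩ : ∃ k : ℕ, i = N₁ + k := ⟨(i - N₁).toNat, by omega⟩
    subst hk
    have hkE : k ≤ E := by omega
    have h3 : N₁ + (k : ℤ) - τ = M₂ - ((E - k : ℕ) : ℤ) := by
      rw [hτ]; push_cast [Nat.cast_sub hkE]; ring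
    rw [h3, e2, hc]
    have h4 := e1 k
    have h5 : s ^ E = s ^ k * s ^ (E - k) := by
      rw [← pow_add]; congr 1; omega
    have hsk : s ^ k ≠ 0 := by positivity
    have hsk' : s ^ (E - k) ≠ 0 := by positivity
    have hM2' : f₂ M₂ ≠ 0 := hM₂.ne'
    rw [h5, ← h4]
    field_simp
  let F : ℤ → ℝ := fun i => if i ≤ N₁ + E then f₁ i else c * f₂ (i - τ)
  have F1 : ∀ i, i ≤ N₁ + E → F i = f₁ i := fun i hi => if_pos hi
  have F2 : ∀ i, N₁ ≤ i → F i = c * f₂ (i - τ) := by
    intro i hi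
    rcases le_or_gt i (N₁ + E) with h | h
    · rw [F1 i h]; exact hov i hi h
    · exact if_neg (by omega)
  have hnn : ∀ i, 0 ≤ F i := by
    intro i
    rcases le_or_gt i (N₁ + E) with h | h
    · rw [F1 i h]; exact hf₁.nonneg i
    · rw [F2 i (by omega)]; exact mul_nonneg hcpos.le (hf₂.nonneg _)
  refine ⟨F, hnn, ?_, ?_, ?_, ?_, ?_⟩
  · rcases le_or_gt M₁ N₁ with h | h
    · refine ⟨M₁, by rw [F1 _ (by omega)]; exact hM₁, fun i hi => ?_⟩
      rw [F1 _ (by omega), F1 _ (by omega), hM₁l i hi]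
    · refine ⟨N₁, by rw [F1 _ (by omega)]; exact hN₁, fun i hi => ?_⟩
      rw [F1 _ (by omega), F1 _ (by omega), hM₁l i (by omega)]
  · rcases le_or_gt N₁ (N₂ + τ) with h | h
    · refine ⟨N₂ + τ, ?_, fun i hi => ?_⟩
      · rw [F2 _ h, add_sub_cancel_right]; positivity
      · rw [F2 _ (by omega), F2 _ (by omega)]
        have h3 := hN₂r (i - τ) (by omega)
        have h4 : i + 1 - τ = i - τ + 1 := by ring
        rw [h4, h3]; ring
    · refine ⟨N₁, by rw [F1 _ (by omega)]; exact hN₁, fun i hi => ?_⟩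
      rw [F2 _ (by omega), F2 _ (by omega)]
      have h3 := hN₂r (i - τ) (by omega)
      have h4 : i + 1 - τ = i - τ + 1 := by ring
      rw [h4, h3]; ring
  · intro i
    rcases le_or_gt i (N₁ + E) with h | h
    · rw [F1 _ h, F1 _ (by omega)]; exact hf₁.lo i
    · have h3 : F i = c * f₂ (i - τ) := F2 i (by omega)
      have h4 : F (i - 1) = c * f₂ (i - τ - 1) := by
        rw [F2 _ (by omega)]; congr 2; ring
      have h5 := hf₂.lo (i - τ)
      calc α * F i ≤ s * F i := mul_le_mul_of_nonneg_right hαs (hnn i)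
        _ = c * (s * f₂ (i - τ)) := by rw [h3]; ring
        _ ≤ c * f₂ (i - τ - 1) := mul_le_mul_of_nonneg_left h5 hcpos.le
        _ = F (i - 1) := h4.symm
  · intro i
    rcases le_or_gt N₁ i with h | h
    · have h3 : F i = c * f₂ (i - τ) := F2 i h
      have h4 : F (i + 1) = c * f₂ (i - τ + 1) := by
        rw [F2 _ (by omega)]; congr 2; ring
      have h5 := hf₂.hi (i - τ)
      calc δ * F i = c * (δ * f₂ (i - τ)) := by rw [h3]; ring
        _ ≤ c * f₂ (i - τ + 1) := mul_le_mul_of_nonneg_left h5 hcpos.le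
        _ = F (i + 1) := h4.symm
    · calc δ * F i ≤ s⁻¹ * F i := mul_le_mul_of_nonneg_right hδ (hnn i)
        _ = s⁻¹ * f₁ i := by rw [F1 _ (by omega)]
        _ ≤ f₁ (i + 1) := hf₁.hi i
        _ = F (i + 1) := (F1 _ (by omega)).symm
  · intro P hP i
    rcases le_or_gt (i + W) (N₁ + E) with h | h
    · have h3 : ∀ j, i ≤ j → j ≤ i + W → act P F j = act P f₁ j := by
        intro j _ hj2
        apply act_congr (hS P hP)
        intro i' _ h5
        exact F1 i' (by omega)
      rcases hf₁.good P hP i with h4 | h4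
      · left
        intro j hj1 hj2
        rw [h3 j hj1 hj2]
        exact h4 j hj1 hj2
      · right
        intro j hj1 hj2
        rw [h3 j hj1 hj2]
        exact h4 j hj1 hj2
    · have h3 : ∀ j, i ≤ j → j ≤ i + W → act P F j = c * act P f₂ (j - τ) := by
        intro j hj1 _
        have h4 : act P F j = act P (fun i => c * f₂ (i - τ)) j := by
          apply act_congr (hS P hP)
          intro i' h5 _
          exact F2 i' (by omega)
        rw [h4, act_smul P c (fun i => f₂ (i - τ))]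
        change c * act P (fun i => f₂ (i - τ)) j = _
        rw [act_translate (hS P hP)]
      rcases hf₂.good P hP (i - τ) with h4 | h4
      · left
        intro j hj1 hj2
        rw [h3 j hj1 hj2]
        exact mul_nonneg hcpos.le (h4 _ (by omega) (by omega))
      · right
        intro j hj1 hj2
        rw [h3 j hj1 hj2]
        exact mul_nonpos_of_nonneg_of_nonpos hcpos.le (h4 _ (by omega) (by omega))

/-- Main existence statement. -/
lemma allPieces (W D : ℕ) : AllPieces W D := by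
  induction D with
  | zero => exact fun S _ hS α β hα hβ hαβ => base_piece S hS W hα hβ hαβ
  | succ D IH =>
    intro S hfin hS
    -- finite right ratio
    have key : ∀ α β : ℝ, 0 ≤ α → α < β → ∃ f, Piece S W α β⁻¹ f := by
      intro α β hα hαβ
      let T : Set ℝ := {s | α < s ∧ s ≤ β ∧ ∃ f, Piece S W α s⁻¹ f}
      have hR := fun {θ : ℝ} (hθ : 0 ≤ θ) => right_step IH S hfin hS hθ
      have hL := fun {θ : ℝ} (hθ : 0 ≤ θ) => left_step IH S hfin hS hθ
      -- pieces from `θ` to slightly larger points, within a bound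
      have hR' : ∀ θ, 0 ≤ θ → θ < β → ∃ b, θ < b ∧ b ≤ β ∧ ∃ f, Piece S W θ b⁻¹ f := by
        intro θ hθ hθβ
        have h1 : ∀ᶠ b in 𝓝[>] θ, θ < b := eventually_mem_nhdsWithin
        have h2 : ∀ᶠ b in 𝓝[>] θ, b < β :=
          (gt_mem_nhds hθβ : ∀ᶠ b in 𝓝 θ, b < β).filter_mono nhdsWithin_le_nhds
        obtain ⟨b, hb1, hb2, hb3⟩ := ((h1.and (h2.and (hR hθ)))).exists
        exact ⟨b, hb1, hb2.le, hb3⟩
      have hTne : T.Nonempty := by
        obtain ⟨b, h1, h2, h3⟩ := hR' α hα hαβ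
        exact ⟨b, h1, h2, h3⟩
      have hTbdd : BddAbove T := ⟨β, fun s hs => hs.2.1⟩
      set c := sSup T with hc
      have hcβ : c ≤ β := csSup_le hTne fun s hs => hs.2.1
      obtain ⟨s₀, hs₀⟩ := hTne
      have hαc : α < c := hs₀.1.trans_le (le_csSup hTbdd hs₀)
      have hc0 : 0 < c := hα.trans_lt hαc
      have hcT : c ∈ T := by
        -- pieces from slightly smaller points to `c`
        have h1 := hL (inv_nonneg.mpr hc0.le)
        have h2 : Tendsto (fun x : ℝ => x⁻¹) (𝓝[<] c) (𝓝[>] c⁻¹) := by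
          apply tendsto_nhdsWithin_of_tendsto_nhds_of_eventually_within
          · exact (tendsto_inv₀ hc0.ne').mono_left nhdsWithin_le_nhds
          · have h3 : ∀ᶠ x in 𝓝[<] c, x < c := eventually_mem_nhdsWithin
            have h4 : ∀ᶠ x in 𝓝[<] c, 0 < x :=
              (lt_mem_nhds hc0 : ∀ᶠ x in 𝓝 c, 0 < x).filter_mono nhdsWithin_le_nhds
            filter_upwards [h3, h4] with x hx1 hx2
            exact (inv_lt_inv₀ hc0 hx2).mpr hx1
        have h3 := h2.eventually h1
        simp only [inv_inv] at h3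
        rw [eventually_iff_exists_mem] at h3
        obtain ⟨V, hV, hV'⟩ := h3
        rw [mem_nhdsLT_iff_exists_Ioo_subset' hαc] at hV
        obtain ⟨l, hl, hlV⟩ := hV
        obtain ⟨s, hsT, hls⟩ := exists_lt_of_lt_csSup ⟨s₀, hs₀⟩ (hl : l < c)
        have hsc : s ≤ c := le_csSup hTbdd hsT
        rcases hsc.eq_or_lt with h | h
        · rw [← h]; exact hsT
        · have h4 := hV' s (hlV ⟨hls, h⟩)
          refine ⟨hαc, hcβ, ?_⟩
          have hs0 : 0 < s := hα.trans_lt hsT.1
          exact glue hS hs0 hsT.1.le ((inv_le_inv₀ hc0 hs0).mpr h.le) hsT.2.2 h4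
      rcases hcβ.eq_or_lt with h | h
      · rw [← h]; exact hcT.2.2
      · exfalso
        obtain ⟨b, h1, h2, h3⟩ := hR' c hc0.le h
        have h4 : b ∈ T := by
          refine ⟨hαc.trans h1, h2, ?_⟩
          exact glue hS hc0 hαc.le ((inv_le_inv₀ (hc0.trans h1) hc0).mpr h1.le) hcT.2.2 h3
        exact absurd (le_csSup hTbdd h4) (not_le.mpr h1)
    intro α β hα hβ hαβ
    rcases hβ.eq_or_lt with h | h
    · subst h
      have h1 := left_step IH S hfin hS (le_refl (0 : ℝ))
      have h2 : ∀ᶠ a in 𝓝[>] (0 : ℝ), 0 < a := eventually_mem_nhdsWithin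
      have h3 : ∀ᶠ a in 𝓝[>] (0 : ℝ), α * a < 1 := by
        have h4 : Tendsto (fun a : ℝ => α * a) (𝓝 0) (𝓝 (α * 0)) :=
          (continuous_const.mul continuous_id).tendsto 0
        rw [mul_zero] at h4
        exact (h4.eventually (gt_mem_nhds one_pos)).filter_mono nhdsWithin_le_nhds
      obtain ⟨a, ha1, ha2, ha3⟩ := (h1.and (h2.and h3)).exists
      have ha4 : α < a⁻¹ := by
        rw [← one_div, lt_div_iff₀ ha2]
        exact ha3
      exact glue hS (inv_pos.mpr ha2) ha4.le (inv_nonneg.mpr (inv_nonneg.mpr ha2.le))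
        (key α a⁻¹ hα ha4) ha1
    · have h1 : α < β⁻¹ := by
        rw [← one_div, lt_div_iff₀ h]
        exact hαβ
      have h2 := key α β⁻¹ hα h1
      rwa [inv_inv] at h2


/-- A rational linear functional positive on a finite set of positive reals. -/
lemma exists_pos_functional (X : Finset ℝ) (hX : ∀ x ∈ X, 0 < x) :
    ∃ φ : ℝ →ₗ[ℚ] ℚ, ∀ x ∈ X, 0 < φ x := by
  classical
  let V : Submodule ℚ ℝ := Submodule.span ℚ (X : Set ℝ)
  have : FiniteDimensional ℚ V := FiniteDimensional.span_finset ℚ X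
  let b := Module.finBasis ℚ V
  let n := Module.finrank ℚ V
  have hmem : ∀ x ∈ X, x ∈ V := fun x hx => Submodule.subset_span hx
  let L : {x // x ∈ X} → (Fin n → ℝ) → ℝ := fun x y =>
    ∑ j, ((b.repr ⟨x.1, hmem x.1 x.2⟩ j : ℚ) : ℝ) * y j
  have hLb : ∀ x, L x (fun j => (b j : ℝ)) = x.1 := by
    intro x
    have h1 := b.sum_repr ⟨x.1, hmem x.1 x.2⟩
    have h2 := congrArg (fun v : V => (v : ℝ)) h1
    simp only [Submodule.coe_sum, Submodule.coe_smul] at h2
    simp only [Rat.smul_def] at h2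
    exact h2
  have hopen : IsOpen {y : Fin n → ℝ | ∀ x, 0 < L x y} := by
    have : {y : Fin n → ℝ | ∀ x, 0 < L x y} = ⋂ x, {y | 0 < L x y} := by
      ext y; simp
    rw [this]
    apply isOpen_iInter_of_finite
    intro x
    apply isOpen_lt continuous_const
    simp only [L]
    fun_prop
  have hb : (fun j => (b j : ℝ)) ∈ {y : Fin n → ℝ | ∀ x, 0 < L x y} := by
    intro x
    rw [hLb]
    exact hX x.1 x.2
  obtain ⟨ε, hε, hball⟩ := Metric.isOpen_iff.mp hopen _ hb
  have hq : ∀ j : Fin n, ∃ q : ℚ, dist (q : ℝ) (b j : ℝ) < ε := by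
    intro j
    obtain ⟨q, hq1, hq2⟩ := exists_rat_btwn (show (b j : ℝ) < (b j : ℝ) + ε by linarith)
    refine ⟨q, ?_⟩
    rw [Real.dist_eq, abs_lt]
    constructor <;> linarith
  choose q hq using hq
  have hqin : (fun j => (q j : ℝ)) ∈ {y : Fin n → ℝ | ∀ x, 0 < L x y} :=
    hball ((dist_pi_lt_iff hε).mpr hq)
  obtain ⟨φ, hφ⟩ := LinearMap.exists_extend (b.constr ℚ q)
  refine ⟨φ, fun x hx => ?_⟩
  have h1 : φ x = b.constr ℚ q ⟨x, hmem x hx⟩ := by
    rw [← hφ]; rfl
  have h2 := hqin ⟨x, hx⟩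
  have h3 : ((φ x : ℚ) : ℝ) = L ⟨x, hx⟩ (fun j => (q j : ℝ)) := by
    rw [h1, Module.Basis.constr_apply_fintype]
    simp only [L, Module.Basis.equivFun_apply, smul_eq_mul]
    push_cast
    rfl
  rw [← h3] at h2
  exact_mod_cast h2

/-- Integral Laurent operators on two-sided sequences. -/
def op {A : Type} [AddCommGroup A] (c : ℤ →₀ ℤ) (f : ℤ → A) (i : ℤ) : A :=
  c.sum fun k a => a • f (i + k)

lemma op_map {A B : Type} [AddCommGroup A] [AddCommGroup B] (φ : A →+ B) (c : ℤ →₀ ℤ)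
    (f : ℤ → A) (i : ℤ) : φ (op c f i) = op c (fun j => φ (f j)) i := by
  unfold op
  rw [map_finsuppSum]
  simp

/-- The polynomial attached to an operator. -/
noncomputable def toPoly (m : ℕ) (c : ℤ →₀ ℤ) : ℝ[X] :=
  ∑ j ∈ Finset.range (2 * m + 1), C ((c (m - j) : ℤ) : ℝ) * X ^ j

lemma toPoly_coeff (m : ℕ) (c : ℤ →₀ ℤ) (k : ℕ) (hk : k ≤ 2 * m) :
    (toPoly m c).coeff k = ((c (m - k) : ℤ) : ℝ) := by
  unfold toPoly
  rw [finsetSum_coeff]
  simp only [coeff_C_mul, coeff_X_pow]
  rw [Finset.sum_eq_single k]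
  · simp
  · intro b _ hb
    rw [if_neg (Ne.symm hb), mul_zero]
  · intro h
    exact absurd (Finset.mem_range.mpr (by omega)) h

lemma toPoly_natDegree (m : ℕ) (c : ℤ →₀ ℤ) : (toPoly m c).natDegree ≤ 2 * m := by
  unfold toPoly
  apply natDegree_sum_le_of_forall_le
  intro j hj
  refine (natDegree_C_mul_X_pow_le _ _).trans ?_
  have := Finset.mem_range.mp hj
  omega

lemma act_toPoly (m : ℕ) (c : ℤ →₀ ℤ) (hc : ∀ k, c k ≠ 0 → -(m : ℤ) ≤ k ∧ k ≤ m) (f : ℤ → ℝ)
    (i : ℤ) : act (toPoly m c) f (i + m) = op c f i := by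
  rw [act_eq (toPoly_natDegree m c)]
  unfold op
  have h1 : c.support ⊆ (Finset.range (2 * m + 1)).image (fun j : ℕ => (m : ℤ) - j) := by
    intro k hk
    rw [Finsupp.mem_support_iff] at hk
    have h2 := hc k hk
    rw [Finset.mem_image]
    exact ⟨((m : ℤ) - k).toNat, by rw [Finset.mem_range]; omega, by omega⟩
  rw [Finsupp.sum_of_support_subset _ h1 _ (by simp), Finset.sum_image]
  · apply Finset.sum_congr rfl
    intro j hj
    rw [toPoly_coeff _ _ _ (by have := Finset.mem_range.mp hj; omega), zsmul_eq_mul]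
    congr 2
    ring
  · intro a _ b _ hab
    simp only at hab
    omega

/-- Sign-coherent integer sequences of finite support. -/
theorem exists_seq (Q : Finset (ℤ →₀ ℤ)) (K : ℕ) : ∃ f : ℤ → ℤ, f ≠ 0 ∧
    (Function.support f).Finite ∧ ∀ c ∈ Q, ∀ i : ℤ,
      (∀ j, i - K ≤ j → j ≤ i + K → 0 ≤ op c f j) ∨
      (∀ j, i - K ≤ j → j ≤ i + K → op c f j ≤ 0) := by
  classical
  -- a common bound for the supports
  obtain ⟨m, hm⟩ : ∃ m : ℕ, ∀ c ∈ Q, ∀ k, c k ≠ 0 → -(m : ℤ) ≤ k ∧ k ≤ m := by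
    refine ⟨Q.sup fun c => c.support.sup fun k => k.natAbs, fun c hc k hk => ?_⟩
    have h1 : k.natAbs ≤ c.support.sup fun k => k.natAbs :=
      Finset.le_sup (f := fun k : ℤ => k.natAbs) (Finsupp.mem_support_iff.mpr hk)
    have h2 : (c.support.sup fun k => k.natAbs) ≤ Q.sup fun c => c.support.sup fun k => k.natAbs :=
      Finset.le_sup (f := fun c : ℤ →₀ ℤ => c.support.sup fun k => k.natAbs) hc
    omega
  obtain ⟨f, hf⟩ := allPieces (2 * K) (2 * m) ((toPoly m) '' Q) (Q.finite_toSet.image _)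
    (by rintro _ ⟨c, _, rfl⟩; exact toPoly_natDegree m c) 0 0 le_rfl le_rfl (by simp)
  obtain ⟨M, hM, hMl⟩ := hf.left
  obtain ⟨N, hN, hNr⟩ := hf.right
  have hlt : ∀ i, i < M → f i = 0 := by
    intro i hi
    have := hMl (i + 1) (by omega)
    rwa [add_sub_cancel_right, zero_mul] at this
  have hgt : ∀ i, N < i → f i = 0 := by
    intro i hi
    have := hNr (i - 1) (by omega)
    rwa [sub_add_cancel, zero_mul] at this
  -- all relevant values
  let J : Finset ℤ := Finset.Icc (M - m) (N + m)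
  have hJ : ∀ c ∈ Q, ∀ j, j ∉ J → op c f j = 0 := by
    intro c hc j hj
    rw [Finset.mem_Icc] at hj
    unfold op
    apply Finset.sum_eq_zero
    intro k hk
    have h1 := hm c hc k (Finsupp.mem_support_iff.mp hk)
    have h2 : f (j + k) = 0 := by
      by_cases h3 : j < M - m
      · exact hlt _ (by omega)
      · exact hgt _ (by omega)
    simp [h2]
  let U : Finset ℝ := insert (f M) (Finset.image₂ (fun c j => op c f j) Q J)
  let X : Finset ℝ := (U ∪ U.image (fun x => -x)).filter (fun x => 0 < x)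
  obtain ⟨φ, hφ⟩ := exists_pos_functional X (fun x hx => (Finset.mem_filter.mp hx).2)
  have hφU : ∀ x ∈ U, (0 ≤ x → 0 ≤ φ x) ∧ (x ≤ 0 → φ x ≤ 0) := by
    intro x hx
    constructor
    · intro h
      rcases h.eq_or_lt with h | h
      · rw [← h]; simp
      · exact (hφ x (Finset.mem_filter.mpr ⟨Finset.mem_union_left _ hx, h⟩)).le
    · intro h
      rcases h.eq_or_lt with h | h
      · rw [h]; simp
      · have h1 := hφ (-x) (Finset.mem_filter.mpr ⟨Finset.mem_union_right _
          (Finset.mem_image_of_mem _ hx), by linarith⟩)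
        rw [map_neg] at h1
        linarith
  have hφM : 0 < φ (f M) :=
    hφ _ (Finset.mem_filter.mpr ⟨Finset.mem_union_left _ (Finset.mem_insert_self _ _), hM⟩)
  -- clear denominators
  obtain ⟨d, hd⟩ := IsLocalization.exist_integer_multiples_of_finset (nonZeroDivisors ℤ)
    ((Finset.Icc M N).image (fun i => φ (f i)))
  have hd' : ∀ i, ∃ z : ℤ, (z : ℚ) = |((d : ℤ) : ℚ)| * φ (f i) := by
    intro i
    by_cases hi : M ≤ i ∧ i ≤ N
    · obtain ⟨z, hz⟩ := hd (φ (f i)) (Finset.mem_image.mpr ⟨i, Finset.mem_Icc.mpr hi, rfl⟩)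
      have hz' : (z : ℚ) = ((d : ℤ) : ℚ) * φ (f i) := by
        rw [eq_intCast] at hz
        rw [hz]
        simp [Algebra.smul_def]
      rcases abs_choice ((d : ℤ) : ℚ) with h | h
      · exact ⟨z, by rw [h, hz']⟩
      · refine ⟨-z, ?_⟩
        rw [h]
        push_cast
        rw [hz']
        ring
    · refine ⟨0, ?_⟩
      have h1 : f i = 0 := by
        by_cases h : M ≤ i
        · exact hgt i (by omega)
        · exact hlt i (by omega)
      rw [h1]
      simp
  have hdpos : 0 < |((d : ℤ) : ℚ)| := by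
    rw [abs_pos]
    exact_mod_cast nonZeroDivisors.coe_ne_zero d
  choose g hg using hd'
  let ψ : ℝ →+ ℚ := (AddMonoidHom.mulLeft (|((d : ℤ) : ℚ)|)).comp φ.toAddMonoidHom
  have hψ : ∀ x, ψ x = |((d : ℤ) : ℚ)| * φ x := fun x => rfl
  have hop : ∀ (c : ℤ →₀ ℤ) (j : ℤ), ((op c g j : ℤ) : ℚ) = |((d : ℤ) : ℚ)| * φ (op c f j) := by
    intro c j
    have h1 := op_map (Int.castAddHom ℚ) c g j
    have h2 := op_map ψ c f j
    rw [← hψ, h2]
    refine h1.trans ?_
    congr 1
    funext i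
    rw [hψ, ← hg]
    rfl
  refine ⟨g, ?_, ?_, ?_⟩
  · intro h0
    have h1 := hg M
    rw [h0] at h1
    have h2 : 0 < |((d : ℤ) : ℚ)| * φ (f M) := mul_pos hdpos hφM
    rw [← h1] at h2
    simp at h2
  · apply (Set.finite_Icc M N).subset
    intro i hi
    rw [Function.mem_support] at hi
    rw [Set.mem_Icc]
    by_contra h
    apply hi
    have h1 : f i = 0 := by
      by_cases h2 : M ≤ i
      · exact hgt i (by omega)
      · exact hlt i (by omega)
    have h2 := hg i
    rw [h1, map_zero, mul_zero] at h2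
    exact_mod_cast h2
  · intro c hc i
    have hval : ∀ j, (0 ≤ op c f j → 0 ≤ op c g j) ∧ (op c f j ≤ 0 → op c g j ≤ 0) := by
      intro j
      have h1 := hop c j
      by_cases hj : j ∈ J
      · have h2 := hφU (op c f j) (Finset.mem_insert_of_mem (Finset.mem_image₂_of_mem hc hj))
        constructor
        · intro h
          have h3 := mul_nonneg hdpos.le (h2.1 h)
          rw [← h1] at h3
          exact_mod_cast h3
        · intro h
          have h3 := mul_nonpos_of_nonneg_of_nonpos hdpos.le (h2.2 h)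
          rw [← h1] at h3
          exact_mod_cast h3
      · rw [hJ c hc j hj, map_zero, mul_zero] at h1
        have h3 : op c g j = 0 := by exact_mod_cast h1
        rw [h3]
        exact ⟨fun _ => le_rfl, fun _ => le_rfl⟩
    have h1 := hf.good _ ⟨c, hc, rfl⟩ (i - K + m)
    have h2 : ∀ j, op c f j = act (toPoly m c) f (j + m) := fun j =>
      (act_toPoly m c (hm c hc) f j).symm
    rcases h1 with h | h
    · left
      intro j hj1 hj2
      apply (hval j).1
      rw [h2]
      exact h _ (by omega) (by push_cast; omega)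
    · right
      intro j hj1 hj2
      apply (hval j).2
      rw [h2]
      exact h _ (by omega) (by push_cast; omega)

/-! ### Lexicographic wreath type groups -/

/-- A shift on an abelian lattice-ordered group. -/
class Sh (A : Type) [AddCommGroup A] [Lattice A] where
  sh : ℤ → A → A
  sh_zero : ∀ x, sh 0 x = x
  sh_sh : ∀ m n x, sh m (sh n x) = sh (n + m) x
  sh_add : ∀ m x y, sh m (x + y) = sh m x + sh m y
  sh_mono : ∀ m x y, x ≤ y → sh m x ≤ sh m y

/-- Pairs: a top integer and an element of the base. -/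
@[ext]
structure LW (A : Type) where
  n : ℤ
  x : A

section LWsec

variable {A : Type} [AddCommGroup A] [Lattice A] [Sh A]

open Sh

lemma sh_map_zero (m : ℤ) : sh m (0 : A) = 0 := by
  have h := sh_add m (0 : A) 0
  rw [add_zero] at h
  exact left_eq_add.mp h

lemma sh_map_neg (m : ℤ) (x : A) : sh m (-x) = -sh m x := by
  have h := sh_add m x (-x)
  rw [add_neg_cancel, sh_map_zero] at h
  exact eq_neg_of_add_eq_zero_right h.symm

instance : Mul (LW A) := ⟨fun p q => ⟨p.n + q.n, q.x + sh q.n p.x⟩⟩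
instance : One (LW A) := ⟨⟨0, 0⟩⟩
instance : Inv (LW A) := ⟨fun p => ⟨-p.n, -sh (-p.n) p.x⟩⟩

@[simp] lemma mul_n (p q : LW A) : (p * q).n = p.n + q.n := rfl
@[simp] lemma mul_x (p q : LW A) : (p * q).x = q.x + sh q.n p.x := rfl
omit [Lattice A] [Sh A] in
@[simp] lemma one_n : (1 : LW A).n = 0 := rfl
omit [Lattice A] [Sh A] in
@[simp] lemma one_x : (1 : LW A).x = 0 := rfl
@[simp] lemma inv_n (p : LW A) : (p⁻¹).n = -p.n := rfl
@[simp] lemma inv_x (p : LW A) : (p⁻¹).x = -sh (-p.n) p.x := rfl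

instance : Group (LW A) :=
  Group.ofLeftAxioms
    (fun a b c => by
      ext
      · simp [add_assoc]
      · simp only [mul_x, mul_n, sh_add, sh_sh, add_assoc])
    (fun a => by
      ext
      · simp
      · simp [sh_map_zero])
    (fun a => by
      ext
      · simp
      · simp [sh_map_neg, sh_sh, sh_zero])

instance : LE (LW A) := ⟨fun p q => p.n < q.n ∨ (p.n = q.n ∧ p.x ≤ q.x)⟩

omit [AddCommGroup A] [Sh A] in
lemma lw_le_def (p q : LW A) : p ≤ q ↔ p.n < q.n ∨ (p.n = q.n ∧ p.x ≤ q.x) := Iff.rfl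

instance : PartialOrder (LW A) where
  le := (· ≤ ·)
  le_refl p := Or.inr ⟨rfl, le_rfl⟩
  le_trans p q r h1 h2 := by
    rw [lw_le_def] at *
    rcases h1 with h1 | ⟨h1, h1'⟩ <;> rcases h2 with h2 | ⟨h2, h2'⟩
    · exact Or.inl (h1.trans h2)
    · exact Or.inl (h2 ▸ h1)
    · exact Or.inl (h1 ▸ h2)
    · exact Or.inr ⟨h1.trans h2, h1'.trans h2'⟩
  le_antisymm p q h1 h2 := by
    rw [lw_le_def] at *
    rcases h1 with h1 | ⟨h1, h1'⟩ <;> rcases h2 with h2 | ⟨h2, h2'⟩
    · exact absurd h1 (not_lt.mpr h2.le)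
    · exact absurd h1 (by rw [h2]; exact lt_irrefl _)
    · exact absurd h2 (by rw [h1]; exact lt_irrefl _)
    · exact LW.ext h1 (le_antisymm h1' h2')

instance : Lattice (LW A) where
  sup p q := if p.n < q.n then q else if q.n < p.n then p else ⟨p.n, p.x ⊔ q.x⟩
  inf p q := if p.n < q.n then p else if q.n < p.n then q else ⟨p.n, p.x ⊓ q.x⟩
  le_sup_left p q := by
    rw [lw_le_def]
    split_ifs with h1 h2
    · exact Or.inl h1
    · exact Or.inr ⟨rfl, le_rfl⟩
    · exact Or.inr ⟨rfl, le_sup_left⟩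
  le_sup_right p q := by
    rw [lw_le_def]
    split_ifs with h1 h2
    · exact Or.inr ⟨rfl, le_rfl⟩
    · exact Or.inl h2
    · exact Or.inr ⟨le_antisymm (not_lt.mp h1) (not_lt.mp h2), le_sup_right⟩
  sup_le p q r hp hq := by
    rw [lw_le_def] at *
    split_ifs with h1 h2
    · exact hq
    · exact hp
    · rcases hp with hp | ⟨hp, hp'⟩
      · exact Or.inl hp
      · rcases hq with hq | ⟨hq, hq'⟩
        · exact absurd (hp ▸ hq) h2
        · exact Or.inr ⟨hp, sup_le hp' hq'⟩
  inf_le_left p q := by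
    rw [lw_le_def]
    split_ifs with h1 h2
    · exact Or.inr ⟨rfl, le_rfl⟩
    · exact Or.inl h2
    · exact Or.inr ⟨rfl, inf_le_left⟩
  inf_le_right p q := by
    rw [lw_le_def]
    split_ifs with h1 h2
    · exact Or.inl h1
    · exact Or.inr ⟨rfl, le_rfl⟩
    · exact Or.inr ⟨(le_antisymm (not_lt.mp h1) (not_lt.mp h2)).symm, inf_le_right⟩
  le_inf r p q hp hq := by
    rw [lw_le_def] at *
    split_ifs with h1 h2
    · exact hp
    · exact hq
    · rcases hp with hp | ⟨hp, hp'⟩
      · exact Or.inl hp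
      · rcases hq with hq | ⟨hq, hq'⟩
        · exact absurd (hp ▸ hq) h1
        · exact Or.inr ⟨hp, le_inf hp' hq'⟩

omit [AddCommGroup A] [Sh A] in
lemma sup_def' (p q : LW A) : p ⊔ q =
    if p.n < q.n then q else if q.n < p.n then p else ⟨p.n, p.x ⊔ q.x⟩ := rfl

omit [AddCommGroup A] [Sh A] in
lemma inf_def' (p q : LW A) : p ⊓ q =
    if p.n < q.n then p else if q.n < p.n then q else ⟨p.n, p.x ⊓ q.x⟩ := rfl

instance [AddLeftMono A] : MulLeftMono (LW A) := ⟨fun r p q h => by
  rw [lw_le_def] at *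
  simp only [mul_n, mul_x]
  rcases h with h | ⟨h, h'⟩
  · exact Or.inl (by omega)
  · right
    refine ⟨by rw [h], ?_⟩
    rw [h]
    exact add_le_add_left h' _⟩

instance [AddLeftMono A] : MulRightMono (LW A) := ⟨fun r p q h => by
  change p * r ≤ q * r
  rw [lw_le_def] at *
  simp only [mul_n, mul_x]
  rcases h with h | ⟨h, h'⟩
  · exact Or.inl (by omega)
  · exact Or.inr ⟨by rw [h], add_le_add_right (sh_mono _ _ _ h') _⟩⟩

end LWsec

section Concrete

instance : Sh (ℤ → ℤ) where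
  sh m f := fun i => f (i + m)
  sh_zero f := by funext i; simp
  sh_sh m n f := by funext i; simp only; congr 1; ring
  sh_add _ _ _ := rfl
  sh_mono m x y h := fun i => h (i + m)

lemma sh_apply (m : ℤ) (f : ℤ → ℤ) (i : ℤ) : Sh.sh m f i = f (i + m) := rfl

/-- Concrete elements as permutations of the plane. -/
def toPerm : LW (ℤ → ℤ) →* Equiv.Perm (ℤ × ℤ) where
  toFun p :=
    { toFun := fun ω => (ω.1 + p.n, ω.2 + p.x ω.1)
      invFun := fun ω => (ω.1 - p.n, ω.2 - p.x (ω.1 - p.n))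
      left_inv := fun ω => by simp
      right_inv := fun ω => by simp }
  map_one' := by ext ω <;> simp
  map_mul' p q := by
    ext ω
    · simp [add_comm, add_left_comm]
    · simp [sh_apply, add_assoc]

lemma toPerm_apply (p : LW (ℤ → ℤ)) (ω : ℤ × ℤ) : toPerm p ω = (ω.1 + p.n, ω.2 + p.x ω.1) := rfl

lemma ev_sup (ω : ℤ × ℤ) (p q : LW (ℤ → ℤ)) :
    toLex (toPerm (p ⊔ q) ω) = toLex (toPerm p ω) ⊔ toLex (toPerm q ω) := by
  rw [sup_def']
  simp only [toPerm_apply]
  split_ifs with h1 h2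
  · symm
    rw [sup_eq_right, Prod.Lex.toLex_le_toLex]
    left; simpa using h1
  · symm
    rw [sup_eq_left, Prod.Lex.toLex_le_toLex]
    left; simpa using h2
  · have h3 : p.n = q.n := le_antisymm (not_lt.mp h2) (not_lt.mp h1)
    rcases le_total (p.x ω.1) (q.x ω.1) with h | h
    · have h4 : (p.x ⊔ q.x) ω.1 = q.x ω.1 := sup_eq_right.mpr h
      simp only [h4, h3]
      symm
      rw [sup_eq_right, Prod.Lex.toLex_le_toLex]
      right; simpa using h
    · have h4 : (p.x ⊔ q.x) ω.1 = p.x ω.1 := sup_eq_left.mpr h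
      simp only [h4, h3]
      symm
      rw [sup_eq_left, Prod.Lex.toLex_le_toLex]
      right; simpa using h

lemma ev_inf (ω : ℤ × ℤ) (p q : LW (ℤ → ℤ)) :
    toLex (toPerm (p ⊓ q) ω) = toLex (toPerm p ω) ⊓ toLex (toPerm q ω) := by
  rw [inf_def']
  simp only [toPerm_apply]
  split_ifs with h1 h2
  · symm
    rw [inf_eq_left, Prod.Lex.toLex_le_toLex]
    left; simpa using h1
  · symm
    rw [inf_eq_right, Prod.Lex.toLex_le_toLex]
    left; simpa using h2
  · have h3 : p.n = q.n := le_antisymm (not_lt.mp h2) (not_lt.mp h1)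
    rcases le_total (p.x ω.1) (q.x ω.1) with h | h
    · have h4 : (p.x ⊓ q.x) ω.1 = p.x ω.1 := inf_eq_left.mpr h
      simp only [h4, h3]
      symm
      rw [inf_eq_left, Prod.Lex.toLex_le_toLex]
      right; simpa using h
    · have h4 : (p.x ⊓ q.x) ω.1 = q.x ω.1 := inf_eq_right.mpr h
      simp only [h4, h3]
      symm
      rw [inf_eq_right, Prod.Lex.toLex_le_toLex]
      right; simpa using h

/-- The lattice-group term of a matrix of words. -/
def term {G : Type} [Group G] [Lattice G] {k m : ℕ}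
    (u : Fin (m + 1) → Fin (m + 1) → FreeGroup (Fin k)) (x : Fin k → G) : G :=
  Finset.univ.sup' Finset.univ_nonempty (fun i =>
    Finset.univ.inf' Finset.univ_nonempty (fun j => FreeGroup.lift x (u i j)))

lemma lift_toPerm {k : ℕ} (r : Fin k → LW (ℤ → ℤ)) (w : FreeGroup (Fin k)) :
    FreeGroup.lift (fun l => toPerm (r l)) w = toPerm (FreeGroup.lift r w) := by
  have : FreeGroup.lift (fun l => toPerm (r l)) = toPerm.comp (FreeGroup.lift r) := by
    ext l
    · simp
    · simp
  rw [this]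
  rfl

lemma term_toPerm {k m : ℕ} (u : Fin (m + 1) → Fin (m + 1) → FreeGroup (Fin k))
    (r : Fin k → LW (ℤ → ℤ)) (ω : ℤ × ℤ) :
    Finset.univ.sup' Finset.univ_nonempty (fun i => Finset.univ.inf' Finset.univ_nonempty
      (fun j => toLex ((FreeGroup.lift (fun l => toPerm (r l)) (u i j)) ω)))
      = toLex (toPerm (term u r) ω) := by
  unfold term
  rw [Finset.apply_sup'_eq_sup'_comp Finset.univ_nonempty
    (fun p : LW (ℤ → ℤ) => toLex (toPerm p ω)) (ev_sup ω)]
  congr 1
  funext i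
  simp only [Function.comp_apply]
  rw [Finset.apply_inf'_eq_inf'_comp Finset.univ_nonempty
    (fun p : LW (ℤ → ℤ) => toLex (toPerm p ω)) (ev_inf ω)]
  congr 1
  funext j
  simp only [Function.comp_apply]
  rw [lift_toPerm]

lemma toPerm_eq_one (p : LW (ℤ → ℤ)) : (∀ ω, toLex (toPerm p ω) = toLex ω) ↔ p = 1 := by
  constructor
  · intro h
    ext a
    · have h1 := congrArg Prod.fst (toLex_inj.mp (h (0, 0)))
      simpa [toPerm_apply] using h1
    · have h1 := congrArg Prod.snd (toLex_inj.mp (h (a, 0)))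
      simpa [toPerm_apply] using h1
  · rintro rfl ω
    simp

/-- The index set. -/
abbrev Idx : Type := Finset (ℤ →₀ ℤ) × ℕ

/-- The filter. -/
abbrev Lf : Filter Idx := Filter.atTop

/-- Germs of sequences. -/
abbrev GG : Type := Filter.Germ Lf (ℤ → ℤ)

noncomputable instance : Sh GG where
  sh m := Filter.Germ.map (Sh.sh m)
  sh_zero x := by
    induction x using Filter.Germ.inductionOn with
    | _ f =>
      rw [Filter.Germ.map_coe]
      congr 1
      funext s
      exact Sh.sh_zero (f s)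
  sh_sh m n x := by
    induction x using Filter.Germ.inductionOn with
    | _ f =>
      rw [Filter.Germ.map_coe, Filter.Germ.map_coe, Filter.Germ.map_coe]
      congr 1
      funext s
      exact Sh.sh_sh m n (f s)
  sh_add m x y := by
    induction x, y using Filter.Germ.inductionOn₂ with
    | _ f g =>
      rw [← Filter.Germ.coe_add, Filter.Germ.map_coe, Filter.Germ.map_coe, Filter.Germ.map_coe,
        ← Filter.Germ.coe_add]
      congr 1
  sh_mono m x y h := by
    induction x, y using Filter.Germ.inductionOn₂ with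
    | _ f g =>
      rw [Filter.Germ.map_coe, Filter.Germ.map_coe, Filter.Germ.coe_le] at *
      filter_upwards [h] with s hs
      exact Sh.sh_mono m _ _ hs

lemma sh_coe (m : ℤ) (f : Idx → ℤ → ℤ) :
    Sh.sh m (f : GG) = ((fun s i => f s (i + m) : Idx → ℤ → ℤ) : GG) := rfl

example : AddLeftMono GG := inferInstance

end Concrete

section Final

/-- A sequence of concrete elements representing an element with germ base. -/
def Rel (p : LW GG) (r : Idx → LW (ℤ → ℤ)) : Prop :=
  (∀ s, (r s).n = p.n) ∧ p.x = ((fun s => (r s).x : Idx → ℤ → ℤ) : GG)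

lemma Rel.one : Rel 1 (fun _ => 1) := ⟨fun _ => rfl, rfl⟩

lemma Rel.mul {p q : LW GG} {r t : Idx → LW (ℤ → ℤ)} (h1 : Rel p r) (h2 : Rel q t) :
    Rel (p * q) (fun s => r s * t s) := by
  refine ⟨fun s => by simp [h1.1 s, h2.1 s], ?_⟩
  rw [mul_x, h1.2, h2.2, sh_coe, ← Filter.Germ.coe_add]
  congr 1
  funext s
  simp only [Pi.add_apply, mul_x]
  congr 1
  funext i
  rw [sh_apply, h2.1 s]

lemma Rel.inv {p : LW GG} {r : Idx → LW (ℤ → ℤ)} (h1 : Rel p r) :
    Rel p⁻¹ (fun s => (r s)⁻¹) := by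
  refine ⟨fun s => by simp [h1.1 s], ?_⟩
  rw [inv_x, h1.2, sh_coe, ← Filter.Germ.coe_neg]
  congr 1
  funext s
  simp only [Pi.neg_apply, inv_x]
  congr 1
  funext i
  rw [sh_apply, h1.1 s]

lemma Rel.sup {p q : LW GG} {r t : Idx → LW (ℤ → ℤ)} (h1 : Rel p r) (h2 : Rel q t) :
    Rel (p ⊔ q) (fun s => r s ⊔ t s) := by
  simp only [sup_def', h1.1, h2.1]
  split_ifs with h3 h4
  · exact h2
  · exact h1
  · refine ⟨fun s => rfl, ?_⟩
    simp only
    rw [h1.2, h2.2]
    rfl

lemma Rel.inf {p q : LW GG} {r t : Idx → LW (ℤ → ℤ)} (h1 : Rel p r) (h2 : Rel q t) :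
    Rel (p ⊓ q) (fun s => r s ⊓ t s) := by
  simp only [inf_def', h1.1, h2.1]
  split_ifs with h3 h4
  · exact h1
  · exact h2
  · refine ⟨fun s => rfl, ?_⟩
    simp only
    rw [h1.2, h2.2]
    rfl

lemma Rel.lift {k : ℕ} {x : Fin k → LW GG} {r : Fin k → Idx → LW (ℤ → ℤ)}
    (h : ∀ l, Rel (x l) (r l)) (w : FreeGroup (Fin k)) :
    Rel (FreeGroup.lift x w) (fun s => FreeGroup.lift (fun l => r l s) w) := by
  induction w using FreeGroup.induction_on with
  | C1 => simpa using Rel.one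
  | of l => simpa using h l
  | inv_of l ih => simpa using ih.inv
  | mul a b ha hb => simpa using ha.mul hb

lemma Rel.sup' {ι : Type} {t : Finset ι} (ht : t.Nonempty) {F : ι → LW GG}
    {R : ι → Idx → LW (ℤ → ℤ)} (h : ∀ i, Rel (F i) (R i)) :
    Rel (t.sup' ht F) (fun s => t.sup' ht (fun i => R i s)) := by
  induction ht using Finset.Nonempty.cons_induction with
  | singleton a => simpa using h a
  | cons a t ha ht ih =>
    simp only [Finset.sup'_cons ht]
    exact (h a).sup ih

lemma Rel.inf' {ι : Type} {t : Finset ι} (ht : t.Nonempty) {F : ι → LW GG}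
    {R : ι → Idx → LW (ℤ → ℤ)} (h : ∀ i, Rel (F i) (R i)) :
    Rel (t.inf' ht F) (fun s => t.inf' ht (fun i => R i s)) := by
  induction ht using Finset.Nonempty.cons_induction with
  | singleton a => simpa using h a
  | cons a t ha ht ih =>
    simp only [Finset.inf'_cons ht]
    exact (h a).inf ih

lemma Rel.term {k m : ℕ} (u : Fin (m + 1) → Fin (m + 1) → FreeGroup (Fin k))
    {x : Fin k → LW GG} {r : Fin k → Idx → LW (ℤ → ℤ)} (h : ∀ l, Rel (x l) (r l)) :
    Rel (term u x) (fun s => term u (fun l => r l s)) :=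
  Rel.sup' _ fun _ => Rel.inf' _ fun _ => Rel.lift h _

lemma Rel.eq_one_iff {p : LW GG} {r : Idx → LW (ℤ → ℤ)} (h : Rel p r) :
    p = 1 ↔ ∀ᶠ s in Lf, r s = 1 := by
  constructor
  · intro hp
    have h1 : p.n = 0 := congrArg LW.n hp
    have h2 : ((fun s => (r s).x : Idx → ℤ → ℤ) : GG) = ((fun _ => 0 : Idx → ℤ → ℤ) : GG) := by
      rw [← h.2]
      exact congrArg LW.x hp
    rw [Filter.Germ.coe_eq] at h2
    filter_upwards [h2] with s hs
    exact LW.ext ((h.1 s).trans h1) hs
  · intro hp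
    apply LW.ext
    · obtain ⟨s, hs⟩ := hp.exists
      rw [← h.1 s, hs]
      rfl
    · rw [h.2]
      apply Filter.Germ.coe_eq.mpr
      filter_upwards [hp] with s hs
      rw [hs]
      rfl

/-- The coherent family. -/
noncomputable def fam (s : Idx) : ℤ → ℤ := (exists_seq s.1 s.2).choose

lemma fam_ne (s : Idx) : fam s ≠ 0 := (exists_seq s.1 s.2).choose_spec.1

lemma fam_fin (s : Idx) : (Function.support (fam s)).Finite := (exists_seq s.1 s.2).choose_spec.2.1

lemma fam_sign (d : ℤ →₀ ℤ) (K : ℕ) : ∀ᶠ s in Lf, ∀ i : ℤ,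
    (∀ j, i - K ≤ j → j ≤ i + K → 0 ≤ op d (fam s) j) ∨
    (∀ j, i - K ≤ j → j ≤ i + K → op d (fam s) j ≤ 0) := by
  filter_upwards [Filter.eventually_ge_atTop (({d}, K) : Idx)] with s hs i
  have h1 : d ∈ s.1 := hs.1 (Finset.mem_singleton_self d)
  have h2 : K ≤ s.2 := hs.2
  rcases (exists_seq s.1 s.2).choose_spec.2.2 d h1 i with h | h
  · exact Or.inl fun j hj1 hj2 => h j (by omega) (by omega)
  · exact Or.inr fun j hj1 hj2 => h j (by omega) (by omega)

lemma op_add' (c d : ℤ →₀ ℤ) (f : ℤ → ℤ) (j : ℤ) : op (c + d) f j = op c f j + op d f j := by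
  unfold op
  apply Finsupp.sum_add_index' <;> simp [add_mul]

lemma op_neg' (c : ℤ →₀ ℤ) (f : ℤ → ℤ) (j : ℤ) : op (-c) f j = -op c f j := by
  have h := op_add' c (-c) f j
  rw [add_neg_cancel] at h
  have h0 : op (0 : ℤ →₀ ℤ) f j = 0 := by simp [op]
  rw [h0] at h
  linarith

lemma op_sub' (c d : ℤ →₀ ℤ) (f : ℤ → ℤ) (j : ℤ) : op (c - d) f j = op c f j - op d f j := by
  rw [sub_eq_add_neg, op_add', op_neg', ← sub_eq_add_neg]

/-- Translated operator. -/
noncomputable def tr (m : ℤ) (c : ℤ →₀ ℤ) : ℤ →₀ ℤ := c.mapDomain (· + m)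

lemma op_tr (m : ℤ) (c : ℤ →₀ ℤ) (f : ℤ → ℤ) (j : ℤ) : op (tr m c) f j = op c f (j + m) := by
  unfold op tr
  rw [Finsupp.sum_mapDomain_index (by simp) (by intro b a₁ a₂; simp [add_mul])]
  apply Finsupp.sum_congr
  intro k _
  congr 2
  ring

/-- Sequences which are locally images of the coherent family. -/
def Loc (ρ : Idx → ℤ → ℤ) : Prop :=
  ∃ Q : Finset (ℤ →₀ ℤ), ∀ K : ℕ, ∀ᶠ s in Lf, ∀ i : ℤ, ∃ c ∈ Q, ∀ j, i - K ≤ j → j ≤ i + K →
    ρ s j = op c (fam s) j

lemma Loc.zero : Loc (fun _ _ => 0) :=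
  ⟨{0}, fun _ => Filter.Eventually.of_forall fun s i => ⟨0, Finset.mem_singleton_self _,
    fun j _ _ => by simp [op]⟩⟩

lemma loc_fam : Loc fam :=
  ⟨{Finsupp.single 0 1}, fun _ => Filter.Eventually.of_forall fun s i =>
    ⟨Finsupp.single 0 1, Finset.mem_singleton_self _, fun j _ _ => by simp [op]⟩⟩

lemma Loc.add {ρ ρ' : Idx → ℤ → ℤ} (h : Loc ρ) (h' : Loc ρ') :
    Loc (fun s i => ρ s i + ρ' s i) := by
  classical
  obtain ⟨Q, hQ⟩ := h
  obtain ⟨Q', hQ'⟩ := h'
  refine ⟨Finset.image₂ (· + ·) Q Q', fun K => ?_⟩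
  filter_upwards [hQ K, hQ' K] with s h1 h2 i
  obtain ⟨c, hc, hc'⟩ := h1 i
  obtain ⟨d, hd, hd'⟩ := h2 i
  refine ⟨c + d, Finset.mem_image₂_of_mem hc hd, fun j hj1 hj2 => ?_⟩
  rw [op_add', hc' j hj1 hj2, hd' j hj1 hj2]

lemma Loc.neg {ρ : Idx → ℤ → ℤ} (h : Loc ρ) : Loc (fun s i => -ρ s i) := by
  classical
  obtain ⟨Q, hQ⟩ := h
  refine ⟨Q.image (fun c => -c), fun K => ?_⟩
  filter_upwards [hQ K] with s h1 i
  obtain ⟨c, hc, hc'⟩ := h1 i
  refine ⟨-c, Finset.mem_image_of_mem _ hc, fun j hj1 hj2 => ?_⟩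
  rw [op_neg', hc' j hj1 hj2]

lemma Loc.shift {ρ : Idx → ℤ → ℤ} (h : Loc ρ) (m : ℤ) : Loc (fun s i => ρ s (i + m)) := by
  classical
  obtain ⟨Q, hQ⟩ := h
  refine ⟨Q.image (tr m), fun K => ?_⟩
  filter_upwards [hQ K] with s h1 i
  obtain ⟨c, hc, hc'⟩ := h1 (i + m)
  refine ⟨tr m c, Finset.mem_image_of_mem _ hc, fun j hj1 hj2 => ?_⟩
  rw [op_tr, hc' (j + m) (by omega) (by omega)]

lemma Loc.supinf {ρ ρ' : Idx → ℤ → ℤ} (h : Loc ρ) (h' : Loc ρ') :
    Loc (fun s i => ρ s i ⊔ ρ' s i) ∧ Loc (fun s i => ρ s i ⊓ ρ' s i) := by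
  classical
  obtain ⟨Q, hQ⟩ := h
  obtain ⟨Q', hQ'⟩ := h'
  have hs : ∀ K : ℕ, ∀ᶠ s in Lf, ∀ c ∈ Q, ∀ c' ∈ Q', ∀ i : ℤ,
      (∀ j, i - K ≤ j → j ≤ i + K → 0 ≤ op (c - c') (fam s) j) ∨
      (∀ j, i - K ≤ j → j ≤ i + K → op (c - c') (fam s) j ≤ 0) := by
    intro K
    rw [Filter.eventually_all_finset]
    intro c _
    rw [Filter.eventually_all_finset]
    intro c' _
    exact fam_sign (c - c') K
  constructor
  · refine ⟨Q ∪ Q', fun K => ?_⟩
    filter_upwards [hQ K, hQ' K, hs K] with s h1 h2 h3 i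
    obtain ⟨c, hc, hc'⟩ := h1 i
    obtain ⟨d, hd, hd'⟩ := h2 i
    rcases h3 c hc d hd i with h4 | h4
    · refine ⟨c, Finset.mem_union_left _ hc, fun j hj1 hj2 => ?_⟩
      have h5 := h4 j hj1 hj2
      rw [op_sub'] at h5
      rw [← hc' j hj1 hj2] at h5 ⊢
      rw [← hd' j hj1 hj2] at h5
      exact sup_eq_left.mpr (by linarith)
    · refine ⟨d, Finset.mem_union_right _ hd, fun j hj1 hj2 => ?_⟩
      have h5 := h4 j hj1 hj2
      rw [op_sub'] at h5
      rw [← hd' j hj1 hj2] at h5 ⊢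
      rw [← hc' j hj1 hj2] at h5
      exact sup_eq_right.mpr (by linarith)
  · refine ⟨Q ∪ Q', fun K => ?_⟩
    filter_upwards [hQ K, hQ' K, hs K] with s h1 h2 h3 i
    obtain ⟨c, hc, hc'⟩ := h1 i
    obtain ⟨d, hd, hd'⟩ := h2 i
    rcases h3 c hc d hd i with h4 | h4
    · refine ⟨d, Finset.mem_union_right _ hd, fun j hj1 hj2 => ?_⟩
      have h5 := h4 j hj1 hj2
      rw [op_sub'] at h5
      rw [← hd' j hj1 hj2] at h5 ⊢
      rw [← hc' j hj1 hj2] at h5
      exact inf_eq_right.mpr (by linarith)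
    · refine ⟨c, Finset.mem_union_left _ hc, fun j hj1 hj2 => ?_⟩
      have h5 := h4 j hj1 hj2
      rw [op_sub'] at h5
      rw [← hc' j hj1 hj2] at h5 ⊢
      rw [← hd' j hj1 hj2] at h5
      exact inf_eq_left.mpr (by linarith)

lemma Loc.finite {ρ : Idx → ℤ → ℤ} (h : Loc ρ) :
    ∀ᶠ s in Lf, (Function.support (ρ s)).Finite := by
  obtain ⟨Q, hQ⟩ := h
  filter_upwards [hQ 0] with s hs
  have h1 : Function.support (ρ s) ⊆
      ⋃ c ∈ Q, ⋃ k ∈ c.support, (fun i => i + k) ⁻¹' Function.support (fam s) := by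
    intro i hi
    obtain ⟨c, hc, hc'⟩ := hs i
    rw [Function.mem_support, hc' i (by simp) (by simp)] at hi
    obtain ⟨k, hk, hk'⟩ := Finset.exists_ne_zero_of_sum_ne_zero hi
    simp only [Set.mem_iUnion]
    refine ⟨c, hc, k, hk, ?_⟩
    rw [Set.mem_preimage, Function.mem_support]
    intro h0
    exact hk' (by simp [h0])
  refine Set.Finite.subset ?_ h1
  apply Set.Finite.biUnion Q.finite_toSet
  intro c _
  apply Set.Finite.biUnion c.support.finite_toSet
  intro k _
  exact (fam_fin s).preimage ((add_left_injective k).injOn)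

/-- Vanishing from disjointness with a translate. -/
lemma Loc.vanish {ρ : Idx → ℤ → ℤ} (h : Loc ρ) (m : ℤ)
    (hd : ∀ᶠ s in Lf, ∀ i, ρ s i ⊓ ρ s (i + m) = 0) : ∀ᶠ s in Lf, ∀ i, ρ s i = 0 := by
  obtain ⟨Q, hQ⟩ := h
  have hs : ∀ᶠ s in Lf, ∀ c ∈ Q, ∀ i : ℤ,
      (∀ j, i - m.natAbs ≤ j → j ≤ i + m.natAbs → 0 ≤ op (c - tr m c) (fam s) j) ∨
      (∀ j, i - m.natAbs ≤ j → j ≤ i + m.natAbs → op (c - tr m c) (fam s) j ≤ 0) := by
    rw [Filter.eventually_all_finset]
    intro c _
    exact fam_sign (c - tr m c) m.natAbs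
  filter_upwards [hQ m.natAbs, hs, hd] with s h1 h2 h3 i
  obtain ⟨c, hc, hc'⟩ := h1 i
  rcases h2 c hc i with h4 | h4
  · have h5 := h4 (i - m) (by omega) (by omega)
    rw [op_sub', op_tr, sub_add_cancel, ← hc' _ (by omega) (by omega),
      ← hc' _ (by omega) (by omega)] at h5
    have h6 := h3 (i - m)
    rw [sub_add_cancel, inf_eq_right.mpr (by linarith)] at h6
    exact h6
  · have h5 := h4 i (by omega) (by omega)
    rw [op_sub', op_tr, ← hc' _ (by omega) (by omega), ← hc' _ (by omega) (by omega)] at h5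
    have h6 := h3 i
    rw [inf_eq_left.mpr (by linarith)] at h6
    exact h6

/-- The base of the new group. -/
def InB (g : GG) : Prop := ∃ ρ : Idx → ℤ → ℤ, g = (ρ : GG) ∧ Loc ρ

/-- The new group. -/
def SS : Subgroup (LW GG) where
  carrier := {p | InB p.x}
  one_mem' := ⟨_, rfl, Loc.zero⟩
  mul_mem' := by
    rintro p q ⟨ρ, h1, h2⟩ ⟨ρ', h1', h2'⟩
    refine ⟨_, ?_, h2'.add (h2.shift q.n)⟩
    rw [mul_x, h1, h1', sh_coe]
    rfl
  inv_mem' := by
    rintro p ⟨ρ, h1, h2⟩
    refine ⟨_, ?_, (h2.shift (-p.n)).neg⟩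
    rw [inv_x, h1, sh_coe]
    rfl

lemma SS_sup {p q : LW GG} (hp : p ∈ SS) (hq : q ∈ SS) : p ⊔ q ∈ SS := by
  rw [sup_def']
  split_ifs
  · exact hq
  · exact hp
  · obtain ⟨ρ, h1, h2⟩ := hp
    obtain ⟨ρ', h1', h2'⟩ := hq
    refine ⟨_, ?_, (h2.supinf h2').1⟩
    simp only
    rw [h1, h1']
    rfl

lemma SS_inf {p q : LW GG} (hp : p ∈ SS) (hq : q ∈ SS) : p ⊓ q ∈ SS := by
  rw [inf_def']
  split_ifs
  · exact hp
  · exact hq
  · obtain ⟨ρ, h1, h2⟩ := hp
    obtain ⟨ρ', h1', h2'⟩ := hq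
    refine ⟨_, ?_, (h2.supinf h2').2⟩
    simp only
    rw [h1, h1']
    rfl

/-- The carrier of the counterexample. -/
def HH : Type := ↥SS

noncomputable instance : Group HH := inferInstanceAs (Group ↥SS)

noncomputable instance : Lattice HH :=
  Subtype.lattice (P := fun p => p ∈ SS) (fun _ _ hp hq => SS_sup hp hq)
    (fun _ _ hp hq => SS_inf hp hq)

/-- The inclusion. -/
def HH.val (a : HH) : LW GG := Subtype.val a

lemma HH.val_injective : Function.Injective HH.val := Subtype.val_injective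

lemma HH.val_mul (a b : HH) : (a * b).val = a.val * b.val := rfl
lemma HH.val_inv (a : HH) : (a⁻¹).val = (a.val)⁻¹ := rfl
lemma HH.val_one : (1 : HH).val = 1 := rfl
lemma HH.val_sup (a b : HH) : (a ⊔ b).val = a.val ⊔ b.val := rfl
lemma HH.val_inf (a b : HH) : (a ⊓ b).val = a.val ⊓ b.val := rfl

instance : MulLeftMono HH := ⟨fun r p q h => by
  have h' : p.val ≤ q.val := h
  exact (mul_le_mul_right h' r.val : r.val * p.val ≤ r.val * q.val)⟩

instance : MulRightMono HH := ⟨fun r p q h => by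
  have h' : p.val ≤ q.val := h
  exact (mul_le_mul_left h' r.val : p.val * r.val ≤ q.val * r.val)⟩

lemma term_val {k m : ℕ} (u : Fin (m + 1) → Fin (m + 1) → FreeGroup (Fin k)) (x : Fin k → HH) :
    (term u x).val = term u (fun l => (x l).val) := by
  have hl : ∀ w : FreeGroup (Fin k), (FreeGroup.lift x w).val
      = FreeGroup.lift (fun l => (x l).val) w := by
    intro w
    induction w using FreeGroup.induction_on with
    | C1 => simp [HH.val_one]
    | of l => simp
    | inv_of l ih => simp [HH.val_inv]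
    | mul a b ha hb => rw [map_mul, map_mul, HH.val_mul, ha, hb]
  unfold term
  rw [Finset.apply_sup'_eq_sup'_comp Finset.univ_nonempty HH.val HH.val_sup]
  congr 1
  funext i
  simp only [Function.comp_apply]
  rw [Finset.apply_inf'_eq_inf'_comp Finset.univ_nonempty HH.val HH.val_inf]
  congr 1
  funext j
  exact hl _

/-- Every quasi-identity of the wreath product holds in the new group. -/
lemma quasi {k m : ℕ} (u v : Fin (m + 1) → Fin (m + 1) → FreeGroup (Fin k))
    (huv : ∀ x : Fin k → Equiv.Perm (ℤ × ℤ),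
      (∀ l, ∃ n : ℤ, ∃ f : ℤ →₀ ℤ, ∀ a b : ℤ, x l (a, b) = (a + n, b + f a)) →
      (∀ ω : ℤ × ℤ, Finset.univ.sup' Finset.univ_nonempty (fun i =>
        Finset.univ.inf' Finset.univ_nonempty (fun j => toLex ((FreeGroup.lift x (u i j)) ω)))
          = toLex ω) →
      (∀ ω : ℤ × ℤ, Finset.univ.sup' Finset.univ_nonempty (fun i =>
        Finset.univ.inf' Finset.univ_nonempty (fun j => toLex ((FreeGroup.lift x (v i j)) ω)))
          = toLex ω))
    (x : Fin k → HH) (hx : term u x = 1) : term v x = 1 := by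
  classical
  -- representatives of finite support
  have hrep : ∀ l, ∃ r : Idx → LW (ℤ → ℤ), Rel (x l).val r ∧
      ∀ s, (Function.support (r s).x).Finite := by
    intro l
    obtain ⟨ρ, h1, h2⟩ : InB (x l).val.x := (x l).2
    refine ⟨fun s => ⟨(x l).val.n, if (Function.support (ρ s)).Finite then ρ s else 0⟩,
      ⟨fun s => rfl, ?_⟩, ?_⟩
    · rw [h1]
      apply Filter.Germ.coe_eq.mpr
      filter_upwards [h2.finite] with s hs
      rw [if_pos hs]
    · intro s
      simp only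
      split_ifs with h
      · exact h
      · simp
  choose r hr hrf using hrep
  have hu : ∀ᶠ s in Lf, term u (fun l => r l s) = 1 := by
    rw [← (Rel.term u hr).eq_one_iff, ← term_val, hx, HH.val_one]
  have hv : ∀ᶠ s in Lf, term v (fun l => r l s) = 1 := by
    filter_upwards [hu] with s hs
    have h1 := huv (fun l => toPerm (r l s)) (fun l => ⟨(r l s).n,
      Finsupp.ofSupportFinite (r l s).x (hrf l s), fun a b => rfl⟩) (by
        intro ω
        rw [term_toPerm, hs]
        simp)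
    apply (toPerm_eq_one _).mp
    intro ω
    rw [← term_toPerm]
    exact h1 ω
  rw [← (Rel.term v hr).eq_one_iff, ← term_val] at hv
  exact HH.val_injective hv

/-- The left hand side of the separating quasi-identity. -/
def uu : Fin 2 → Fin 2 → FreeGroup (Fin 2) := fun _ j =>
  if j = 0 then FreeGroup.of 0 else (FreeGroup.of 1)⁻¹ * FreeGroup.of 0 * FreeGroup.of 1

/-- The right hand side of the separating quasi-identity. -/
def vv : Fin 2 → Fin 2 → FreeGroup (Fin 2) := fun _ _ => FreeGroup.of 0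

lemma term_uu {G : Type} [Group G] [Lattice G] (x : Fin 2 → G) :
    term (m := 1) uu x = x 0 ⊓ ((x 1)⁻¹ * x 0 * x 1) := by
  have h : (fun i : Fin 2 => Finset.univ.inf' Finset.univ_nonempty
      (fun j => FreeGroup.lift x (uu i j))) = fun _ => x 0 ⊓ ((x 1)⁻¹ * x 0 * x 1) := by
    funext i
    apply le_antisymm
    · apply le_inf
      · refine (Finset.inf'_le _ (Finset.mem_univ 0)).trans_eq ?_
        simp [uu]
      · refine (Finset.inf'_le _ (Finset.mem_univ 1)).trans_eq ?_
        simp [uu]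
    · apply Finset.le_inf'
      intro j _
      by_cases hj : j = 0
      · subst hj
        simp [uu]
      · simp [uu, hj]
  unfold term
  rw [h, Finset.sup'_const]

lemma term_vv {G : Type} [Group G] [Lattice G] (x : Fin 2 → G) :
    term (m := 1) vv x = x 0 := by
  unfold term
  simp [vv]

/-- The separating quasi-identity holds in the new group. -/
lemma sep (a b : HH) (h : a ⊓ (b⁻¹ * a * b) = 1) : a = 1 := by
  have h1 := congrArg HH.val h
  rw [HH.val_inf, HH.val_mul, HH.val_mul, HH.val_inv, HH.val_one] at h1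
  obtain ⟨ρ, hρ1, hρ2⟩ : InB a.val.x := a.2
  set p := a.val with hp
  set q := b.val with hq
  have h2 : (q⁻¹ * p * q).n = p.n := by simp
  rw [inf_def', h2, if_neg (lt_irrefl _), if_neg (lt_irrefl _)] at h1
  have hn : p.n = 0 := congrArg LW.n h1
  have hx : p.x ⊓ (q⁻¹ * p * q).x = 0 := congrArg LW.x h1
  have h3 : (q⁻¹ * p * q).x = Sh.sh q.n p.x := by
    simp only [mul_x, inv_x, hn, Sh.sh_add, sh_map_neg, Sh.sh_sh]
    simp [Sh.sh_zero]
  rw [h3, hρ1, sh_coe] at hx
  have hx' : ((fun s i => ρ s i ⊓ ρ s (i + q.n) : Idx → ℤ → ℤ) : GG)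
      = ((fun _ _ => 0 : Idx → ℤ → ℤ) : GG) := hx
  rw [Filter.Germ.coe_eq] at hx'
  have h4 := hρ2.vanish q.n (by
    filter_upwards [hx'] with s hs i
    exact congrFun hs i)
  apply HH.val_injective
  apply LW.ext
  · exact hn
  · rw [← hp, hρ1]
    apply Filter.Germ.coe_eq.mpr
    filter_upwards [h4] with s hs
    funext i
    exact hs i

lemma nonabelian : ∃ a b : HH, a * b ≠ b * a := by
  refine ⟨⟨⟨1, 0⟩, ⟨_, rfl, Loc.zero⟩⟩, ⟨⟨0, (fam : GG)⟩, ⟨_, rfl, loc_fam⟩⟩, ?_⟩
  intro h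
  have h1 := congrArg (fun a : HH => a.val.x) h
  have h2 : (fam : GG) + Sh.sh 0 (0 : GG) = (0 : GG) + Sh.sh 1 (fam : GG) := h1
  rw [Sh.sh_zero, add_zero, zero_add, sh_coe, Filter.Germ.coe_eq] at h2
  obtain ⟨s, hs⟩ := h2.exists
  have h3 : ∀ i : ℤ, fam s i = fam s (i + 1) := fun i => congrFun hs i
  apply fam_ne s
  -- a shift invariant sequence of finite support vanishes
  have h4 : ∀ (i : ℤ) (n : ℕ), fam s i = fam s (i + n) := by
    intro i n
    induction n with
    | zero => simp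
    | succ n ih =>
      rw [ih, h3]
      congr 1
      push_cast
      ring
  by_contra h5
  obtain ⟨i, hi⟩ := Function.ne_iff.mp h5
  have h6 : Set.Infinite (Function.support (fam s)) := by
    apply Set.infinite_of_injective_forall_mem (f := fun n : ℕ => i + (n : ℤ))
    · intro a b hab
      simpa using hab
    · intro n
      rw [Function.mem_support, ← h4 i n]
      exact hi
  exact h6 (fam_fin s)

end Final

/-- The negation of the preceding statement: Every abelian ℓ-group satisfies all quasi-identities of ℤ wr ℤ, and for any non-abelian ℓ-group H in that quasi-variety, quasi-identities true in H and all abelian ℓ-groups hold in ℤ wr ℤ; i.e. its quasi-variety covers the abelian one. -/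
theorem result :
    ¬ ((∀ (K : Type) [Group K] [Lattice K] [MulLeftMono K] [MulRightMono K],
      (∀ a b : K, a * b = b * a) →
      ∀ (k m : ℕ) (u v : Fin (m + 1) → Fin (m + 1) → FreeGroup (Fin k)),
        (∀ x : Fin k → Equiv.Perm (ℤ × ℤ),
          (∀ l, ∃ n : ℤ, ∃ f : ℤ →₀ ℤ, ∀ a b : ℤ, x l (a, b) = (a + n, b + f a)) →
          (∀ ω : ℤ × ℤ, Finset.univ.sup' Finset.univ_nonempty (fun i => Finset.univ.inf' Finset.univ_nonempty (fun j => toLex ((FreeGroup.lift x (u i j)) ω))) = toLex ω) →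
          (∀ ω : ℤ × ℤ, Finset.univ.sup' Finset.univ_nonempty (fun i => Finset.univ.inf' Finset.univ_nonempty (fun j => toLex ((FreeGroup.lift x (v i j)) ω))) = toLex ω)) →
        (∀ x : Fin k → K,
          Finset.univ.sup' Finset.univ_nonempty (fun i => Finset.univ.inf' Finset.univ_nonempty (fun j => FreeGroup.lift x (u i j))) = 1 →
          Finset.univ.sup' Finset.univ_nonempty (fun i => Finset.univ.inf' Finset.univ_nonempty (fun j => FreeGroup.lift x (v i j))) = 1)) ∧
    (∀ (H : Type) [Group H] [Lattice H] [MulLeftMono H] [MulRightMono H],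
      (∃ a b : H, a * b ≠ b * a) →
      (∀ (k m : ℕ) (u v : Fin (m + 1) → Fin (m + 1) → FreeGroup (Fin k)),
        (∀ x : Fin k → Equiv.Perm (ℤ × ℤ),
          (∀ l, ∃ n : ℤ, ∃ f : ℤ →₀ ℤ, ∀ a b : ℤ, x l (a, b) = (a + n, b + f a)) →
          (∀ ω : ℤ × ℤ, Finset.univ.sup' Finset.univ_nonempty (fun i => Finset.univ.inf' Finset.univ_nonempty (fun j => toLex ((FreeGroup.lift x (u i j)) ω))) = toLex ω) →
          (∀ ω : ℤ × ℤ, Finset.univ.sup' Finset.univ_nonempty (fun i => Finset.univ.inf' Finset.univ_nonempty (fun j => toLex ((FreeGroup.lift x (v i j)) ω))) = toLex ω)) →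
        (∀ x : Fin k → H,
          Finset.univ.sup' Finset.univ_nonempty (fun i => Finset.univ.inf' Finset.univ_nonempty (fun j => FreeGroup.lift x (u i j))) = 1 →
          Finset.univ.sup' Finset.univ_nonempty (fun i => Finset.univ.inf' Finset.univ_nonempty (fun j => FreeGroup.lift x (v i j))) = 1)) →
      ∀ (k m : ℕ) (u v : Fin (m + 1) → Fin (m + 1) → FreeGroup (Fin k)),
        (∀ x : Fin k → H,
          Finset.univ.sup' Finset.univ_nonempty (fun i => Finset.univ.inf' Finset.univ_nonempty (fun j => FreeGroup.lift x (u i j))) = 1 →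
          Finset.univ.sup' Finset.univ_nonempty (fun i => Finset.univ.inf' Finset.univ_nonempty (fun j => FreeGroup.lift x (v i j))) = 1) →
        (∀ (K : Type) [Group K] [Lattice K] [MulLeftMono K] [MulRightMono K],
          (∀ a b : K, a * b = b * a) →
          ∀ x : Fin k → K,
            Finset.univ.sup' Finset.univ_nonempty (fun i => Finset.univ.inf' Finset.univ_nonempty (fun j => FreeGroup.lift x (u i j))) = 1 →
            Finset.univ.sup' Finset.univ_nonempty (fun i => Finset.univ.inf' Finset.univ_nonempty (fun j => FreeGroup.lift x (v i j))) = 1) →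
        (∀ x : Fin k → Equiv.Perm (ℤ × ℤ),
          (∀ l, ∃ n : ℤ, ∃ f : ℤ →₀ ℤ, ∀ a b : ℤ, x l (a, b) = (a + n, b + f a)) →
          (∀ ω : ℤ × ℤ, Finset.univ.sup' Finset.univ_nonempty (fun i => Finset.univ.inf' Finset.univ_nonempty (fun j => toLex ((FreeGroup.lift x (u i j)) ω))) = toLex ω) →
          (∀ ω : ℤ × ℤ, Finset.univ.sup' Finset.univ_nonempty (fun i => Finset.univ.inf' Finset.univ_nonempty (fun j => toLex ((FreeGroup.lift x (v i j)) ω))) = toLex ω)))) := by
  rintro ⟨-, h⟩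
  have key := h HH nonabelian (fun k m u v huv x hx => quasi u v huv x hx) 2 1 uu vv
    (fun x hx => by
      have h1 : term (m := 1) uu x = 1 := hx
      rw [term_uu] at h1
      have h2 : term (m := 1) vv x = 1 := by
        rw [term_vv]
        exact sep _ _ h1
      exact h2)
    (fun K _ _ _ _ hK x hx => by
      have h1 : term (m := 1) uu x = 1 := hx
      rw [term_uu] at h1
      have h2 : term (m := 1) vv x = 1 := by
        rw [term_vv]
        have h3 : (x 1)⁻¹ * x 0 * x 1 = x 0 := by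
          rw [hK ((x 1)⁻¹) (x 0), inv_mul_cancel_right]
        rw [h3, inf_idem] at h1
        exact h1
      exact h2)
  let p : Fin 2 → LW (ℤ → ℤ) := ![⟨0, fun i => if i = 0 then 1 else 0⟩, ⟨1, 0⟩]
  have hp := key (fun l => toPerm (p l)) (by
    intro l
    refine ⟨(p l).n, Finsupp.ofSupportFinite (p l).x ?_, fun a b => rfl⟩
    fin_cases l
    · apply (Set.finite_singleton (0 : ℤ)).subset
      intro i hi
      by_contra h0
      apply hi
      simp only [p]
      exact if_neg h0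
    · simp [p]) (by
    intro ω
    rw [term_toPerm]
    have h1 : term (m := 1) uu p = 1 := by
      rw [term_uu]
      have hn : ((p 1)⁻¹ * p 0 * p 1).n = (p 0).n := by simp [p]
      rw [inf_def', hn, if_neg (lt_irrefl _), if_neg (lt_irrefl _)]
      apply LW.ext
      · rfl
      · funext i
        have hx : ((p 1)⁻¹ * p 0 * p 1).x i = (p 0).x (i + 1) := by
          simp [p, sh_apply]
        change (p 0).x i ⊓ ((p 1)⁻¹ * p 0 * p 1).x i = 0
        rw [hx]
        simp only [p, Matrix.cons_val_zero]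
        split_ifs with h2 h3
        · omega
        · rfl
        · rfl
        · rfl
    rw [h1]
    simp) (0, 0)
  rw [term_toPerm, term_vv] at hp
  have h2 := congrArg Prod.snd (toLex_inj.mp hp)
  simp [toPerm_apply, p] at h2

end Pool.Agent.S01546
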