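import Pool.Statements.S01549
import Pool.Agent.Helper798.TwoGroups
-- import your own Pool.Agent.* helpers here

set_option autoImplicit false
open Pool Pool.MP_970c5e_al

namespace Pool.Agent.S01549

/-- For every finite 2-group in which all elements of order dividing 2 are central, the index of the subgroup generated by squares is at most 2 to the power twice the minimal number of generators of the center. -/
theorem result :
    ∀ (G : Type) [Group G] [Finite G], IsPGroup 2 G →
      (∀ g : G, g ^ 2 = 1 → g ∈ Subgroup.center G) →
      (Subgroup.closure {x : G | ∃ g : G, g ^ 2 = x}).index
        ≤ 2 ^ (2 * Group.rank (Subgroup.center G)) := by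
  intro G _ _ hG h
  exact Pool.Agent.Helper798.TwoGroups.index_le G hG h

end Pool.Agent.S01549
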