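import Pool.Statements.S01563
import Pool.Agent.Helper213.LbE
import Pool.Agent.Helper213.LbS
import Pool.Agent.Helper213.Core
import Pool.Agent.Helper213.UbE
import Pool.Agent.Helper213.UbS
import Pool.Agent.Helper213.LbSx

set_option autoImplicit false
open Pool Pool.MP_97e6ed_al

namespace Pool.Agent.S01563

open Pool.Agent.Helper213

theorem lower_S (n s : ℕ) (hs : 1 ≤ s) (l₁ l₂ : MvPolynomial (Fin n) ℂ)
    (h₁ : l₁ ∈ MvPolynomial.homogeneousSubmodule (Fin n) ℂ 1)
    (h₂ : l₂ ∈ MvPolynomial.homogeneousSubmodule (Fin n) ℂ 1) :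
    Count.PC (n + 2) ((n : ℤ) + 2 - 2 * (s : ℤ)) ≤ Module.finrank ℂ
      (↥(MvPolynomial.homogeneousSubmodule (Fin n) ℂ s) ⧸
        Submodule.comap (MvPolynomial.homogeneousSubmodule (Fin n) ℂ s).subtype
          (Submodule.restrictScalars ℂ
            (Ideal.span (Set.range (fun i : Fin n => (MvPolynomial.X i : MvPolynomial (Fin n) ℂ) ^ 2)
              ∪ {l₁ ^ 2, l₂ ^ 2})))) := by
  by_cases hw : 2 * s ≤ n + 2
  · obtain ⟨w, hw⟩ : ∃ w, 2 * s + w = n + 2 := ⟨n + 2 - 2 * s, by omega⟩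
    have e1 : (n : ℤ) + 2 - 2 * (s : ℤ) = (w : ℤ) := by
      have : (2 * s + w : ℤ) = n + 2 := by exact_mod_cast hw
      linarith
    rw [e1, Count.count_S]
    set a : ℕ → ℂ := fun i => if i = 0 then 1 else
      if h : i - 1 < n then MvPolynomial.coeff (Finsupp.single ⟨i - 1, h⟩ 1) l₁ else 0 with ha
    set b : ℕ → ℂ := fun i => if i = 0 then 0 else
      if h : i - 1 < n then MvPolynomial.coeff (Finsupp.single ⟨i - 1, h⟩ 1) l₂ else 1 with hb
    have hk := LbS.ker_all (n + 2) s w hs hw a b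
    set D := (Walk.T false w (n + 2) w).card
    set K := LinearMap.ker (LbS.Tab (n + 2) s a b)
    let B := Module.finBasis ℂ K
    let c : Fin D → Finset ℕ → ℂ := fun k I => LbS.ext (n + 2) s (B (Fin.castLE hk k)).1 I
    have hmemK : ∀ x : K, LbS.Ta (n + 2) s a x.1 = 0 ∧ LbS.Ta (n + 2) s b x.1 = 0 := by
      intro x
      have h := x.2
      rw [LinearMap.mem_ker] at h
      exact ⟨congrArg Prod.fst h, congrArg Prod.snd h⟩
    refine LbSx.lb_S_transfer n s D hs l₁ l₂ h₁ h₂ a b ?_ ?_ ?_ ?_ ?_ ?_ c ?_ ?_ ?_ ?_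
    · simp [ha]
    · intro i
      simp [ha]
    · simp [ha]
    · simp [hb]
    · intro i
      simp [hb]
    · simp [hb]
    · intro k I hI
      simp only [c, LbS.ext]
      rw [dif_neg]
      intro h
      exact hI (Finset.mem_powersetCard.1 h)
    · rw [Fintype.linearIndependent_iff]
      intro g hg
      have hB : LinearIndependent ℂ (fun k : Fin D => B (Fin.castLE hk k)) :=
        B.linearIndependent.comp _ (Fin.castLE_injective hk)
      rw [Fintype.linearIndependent_iff] at hB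
      apply hB g
      apply Subtype.ext
      funext I
      have h1 := congrFun hg I.1
      simp only [Finset.sum_apply, Pi.smul_apply, smul_eq_mul, Pi.zero_apply, c, LbS.ext] at h1
      simp only [Submodule.coe_sum, Submodule.coe_smul, Finset.sum_apply, Pi.smul_apply,
        smul_eq_mul, Submodule.coe_zero, Pi.zero_apply]
      rw [← h1]
      refine Finset.sum_congr rfl (fun k _ => ?_)
      rw [dif_pos I.2]
    · intro k J hJ hJs
      have h1 := (hmemK (B (Fin.castLE hk k))).1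
      exact congrFun h1 ⟨J, Finset.mem_powersetCard.2 ⟨hJ, by omega⟩⟩
    · intro k J hJ hJs
      have h1 := (hmemK (B (Fin.castLE hk k))).2
      exact congrFun h1 ⟨J, Finset.mem_powersetCard.2 ⟨hJ, by omega⟩⟩
  · rw [Count.PC_nonpos (n + 2) (by omega) _ (by omega)]
    exact Nat.zero_le _

/-- For all n and s≥1, the minimal (generic) degree-s dimension of E/(f,g) for quadrics f,g in the n-generator exterior algebra, and of C[x]/(x_i², l₁², l₂²) for linear l₁,l₂, both equal the number of ±1 paths of length n+2 from 0 to n+2−2s staying in [0, n+2−2s]. -/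
theorem result :
    ∀ n s : ℕ, 1 ≤ s →
      ∃ a : ℕ,
        a = {c : Fin (n + 2) → Bool |
              (∀ k : Fin (n + 3),
                0 ≤ (∑ i ∈ Finset.univ.filter (fun i : Fin (n + 2) => i.val < k.val),
                      (if c i then (1 : ℤ) else -1)) ∧
                (∑ i ∈ Finset.univ.filter (fun i : Fin (n + 2) => i.val < k.val),
                      (if c i then (1 : ℤ) else -1)) ≤ (n : ℤ) + 2 - 2 * (s : ℤ)) ∧
              (∑ i : Fin (n + 2), (if c i then (1 : ℤ) else -1)) = (n : ℤ) + 2 - 2 * (s : ℤ)}.ncard ∧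
        (∀ f ∈ LinearMap.range (ExteriorAlgebra.ι ℂ : (Fin n → ℂ) →ₗ[ℂ] ExteriorAlgebra ℂ (Fin n → ℂ)) ^ 2,
          ∀ g ∈ LinearMap.range (ExteriorAlgebra.ι ℂ : (Fin n → ℂ) →ₗ[ℂ] ExteriorAlgebra ℂ (Fin n → ℂ)) ^ 2,
            a ≤ Module.finrank ℂ
              (↥(LinearMap.range (ExteriorAlgebra.ι ℂ : (Fin n → ℂ) →ₗ[ℂ] ExteriorAlgebra ℂ (Fin n → ℂ)) ^ s) ⧸
                Submodule.comap (LinearMap.range (ExteriorAlgebra.ι ℂ : (Fin n → ℂ) →ₗ[ℂ] ExteriorAlgebra ℂ (Fin n → ℂ)) ^ s).subtype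
                  (Submodule.span ℂ {x : ExteriorAlgebra ℂ (Fin n → ℂ) |
                    ∃ u v : ExteriorAlgebra ℂ (Fin n → ℂ), x = u * f * v ∨ x = u * g * v}))) ∧
        (∃ f ∈ LinearMap.range (ExteriorAlgebra.ι ℂ : (Fin n → ℂ) →ₗ[ℂ] ExteriorAlgebra ℂ (Fin n → ℂ)) ^ 2,
          ∃ g ∈ LinearMap.range (ExteriorAlgebra.ι ℂ : (Fin n → ℂ) →ₗ[ℂ] ExteriorAlgebra ℂ (Fin n → ℂ)) ^ 2,
            Module.finrank ℂ
              (↥(LinearMap.range (ExteriorAlgebra.ι ℂ : (Fin n → ℂ) →ₗ[ℂ] ExteriorAlgebra ℂ (Fin n → ℂ)) ^ s) ⧸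
                Submodule.comap (LinearMap.range (ExteriorAlgebra.ι ℂ : (Fin n → ℂ) →ₗ[ℂ] ExteriorAlgebra ℂ (Fin n → ℂ)) ^ s).subtype
                  (Submodule.span ℂ {x : ExteriorAlgebra ℂ (Fin n → ℂ) |
                    ∃ u v : ExteriorAlgebra ℂ (Fin n → ℂ), x = u * f * v ∨ x = u * g * v})) = a) ∧
        (∀ l₁ ∈ MvPolynomial.homogeneousSubmodule (Fin n) ℂ 1,
          ∀ l₂ ∈ MvPolynomial.homogeneousSubmodule (Fin n) ℂ 1,
            a ≤ Module.finrank ℂ
              (↥(MvPolynomial.homogeneousSubmodule (Fin n) ℂ s) ⧸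
                Submodule.comap (MvPolynomial.homogeneousSubmodule (Fin n) ℂ s).subtype
                  (Submodule.restrictScalars ℂ
                    (Ideal.span (Set.range (fun i : Fin n => (MvPolynomial.X i : MvPolynomial (Fin n) ℂ) ^ 2)
                      ∪ {l₁ ^ 2, l₂ ^ 2}))))) ∧
        (∃ l₁ ∈ MvPolynomial.homogeneousSubmodule (Fin n) ℂ 1,
          ∃ l₂ ∈ MvPolynomial.homogeneousSubmodule (Fin n) ℂ 1,
            Module.finrank ℂ
              (↥(MvPolynomial.homogeneousSubmodule (Fin n) ℂ s) ⧸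
                Submodule.comap (MvPolynomial.homogeneousSubmodule (Fin n) ℂ s).subtype
                  (Submodule.restrictScalars ℂ
                    (Ideal.span (Set.range (fun i : Fin n => (MvPolynomial.X i : MvPolynomial (Fin n) ℂ) ^ 2)
                      ∪ {l₁ ^ 2, l₂ ^ 2})))) = a) := by
  intro n s hs
  refine ⟨Count.PC (n + 2) ((n : ℤ) + 2 - 2 * (s : ℤ)), rfl, ?_, ?_, ?_, ?_⟩
  · intro f hf g hg
    exact LbE.lbE n s hs f g hf hg
  · obtain ⟨δ, h0, hcore⟩ := Core.core_E n s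
    obtain ⟨f, hf, g, hg, hle⟩ := UbEx.ub_E_transfer n s hs δ h0 (Core.GG n s) hcore
    refine ⟨f, hf, g, hg, le_antisymm ?_ ?_⟩
    · rw [← Core.card_GG]; exact hle
    · exact LbE.lbE n s hs f g hf hg
  · intro l₁ h₁ l₂ h₂
    exact lower_S n s hs l₁ l₂ h₁ h₂
  · obtain ⟨δ, h0, hcore⟩ := Core.core_S n s
    obtain ⟨l₁, h₁, l₂, h₂, hle⟩ := UbSx.ub_S_transfer n s hs δ h0 (Core.GG n s) hcore
    refine ⟨l₁, h₁, l₂, h₂, le_antisymm ?_ ?_⟩
    · rw [← Core.card_GG]; exact hle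
    · exact lower_S n s hs l₁ l₂ h₁ h₂

end Pool.Agent.S01563
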