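import Pool.Statements.S01569
import Pool.Agent.Helper798.UPoset.Final

set_option autoImplicit false
open Pool Pool.MP_984e59_al

namespace Pool.Agent.S01569

/-- For the countable universal homogeneous poset, every subgroup of its automorphism group that has fewer than continuum many cosets and acts transitively on the points is the whole automorphism group. -/
theorem result :
    ∀ (Ω : Type) [PartialOrder Ω] [Countable Ω],
      (∀ (α : Type) [Finite α] [PartialOrder α], Nonempty (α ↪o Ω)) →
      (∀ (A B : Set Ω), A.Finite → ∀ f : A ≃o B, ∃ g : Ω ≃o Ω, ∀ a : A, g a.1 = (f a).1) →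
      ∀ H : Subgroup (Ω ≃o Ω),
        Cardinal.mk ((Ω ≃o Ω) ⧸ H) < Cardinal.continuum →
        (∀ x y : Ω, ∃ h ∈ H, h x = y) →
        H = ⊤ := by
  intro Ω _ _ huniv hhom H hH htr
  exact Pool.Agent.Helper798.UPoset.main huniv hhom H hH htr

end Pool.Agent.S01569
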