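import Pool.Statements.S01574
import Pool.Agent.Helper453.PNot

set_option autoImplicit false
open Pool Pool.MP_998096_al

namespace Pool.Agent.S01574

/-- The negation of the preceding statement: Every residually finite torsion group in which each element has finitely many conjugates and whose centre is countable embeds in a restricted direct product of finite groups, i.e. finitely supported tuples. -/
theorem result :
    ¬ (∀ (G : Type) [Group G],
      (∀ g : G, g ≠ 1 → ∃ N : Subgroup G, N.Normal ∧ N.index ≠ 0 ∧ g ∉ N) →
      Monoid.IsTorsion G →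
      (∀ g : G, Set.Finite {h : G | IsConj g h}) →
      Countable (Subgroup.center G) →
      ∃ (ι : Type) (F : ι → Type) (_ : ∀ i, Group (F i)) (_ : ∀ i, Finite (F i)),
        ∃ f : G →* ((i : ι) → F i),
          Function.Injective f ∧ ∀ g : G, Set.Finite {i : ι | f g i ≠ 1}) := by
  intro H
  have hN1 : ∀ i, (Helper453.Ex.N i).Normal := Helper453.Ex.N_normal
  obtain ⟨G, inst, h1, h2, h3, h4, h5⟩ := Helper453.Wreath.wrap Helper453.Ex.N
    Helper453.Ex.N_fi Helper453.Ex.N_pf Helper453.Ex.N_count Helper453.Ex.P_torsion
    Helper453.Ex.P_fc Helper453.Ex.P_rf Helper453.PNot.P_not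
  exact h5 (H G h1 h2 h3 h4)

end Pool.Agent.S01574
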