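import Pool.Statements.S01576
import Pool.Agent.Helper684.Closing
import Pool.Agent.Helper684.RepOps

set_option autoImplicit false
open Pool Pool.MP_99e35a_al

namespace Pool.Agent.S01576

/-- The negation of the preceding statement: For any group G and char-0 field k, any nonzero k-representation V with no invariant subspaces besides 0 and V, in which each g−1 is nilpotent on each vector, has G acting as the identity. -/
theorem result :
    ¬ (∀ (k : Type) [Field k] [CharZero k] (G : Type) [Group G]
      (V : Type) [AddCommGroup V] [Module k V] (ρ : Representation k G V),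
      Nontrivial V →
      (∀ W : Submodule k V, (∀ g : G, ∀ v ∈ W, ρ g v ∈ W) → W = ⊥ ∨ W = ⊤) →
      (∀ g : G, ∀ v : V, ∃ n : ℕ, ((ρ g - 1) ^ n) v = 0) →
      ∀ g : G, ρ g = 1) := by
  intro h
  obtain ⟨T, hT, hxy, huni⟩ := Pool.Agent.Helper684.limit_ops (k := ℂ)
    Pool.Agent.Helper684.hdom' Pool.Agent.Helper684.hclo
  obtain ⟨V, i1, i2, ρ, h1, h2, h3, g, hg⟩ := Pool.Agent.Helper684.rep_of_ops T hT hxy huni
  exact hg (h ℂ (FreeGroup (Fin 2)) V ρ h1 h2 h3 g)

end Pool.Agent.S01576
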