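import Pool.Statements.S01588
import Pool.Agent.Helper376.Product

set_option autoImplicit false
open Pool Pool.MP_9b0338_al

namespace Pool.Agent.S01588

/-- The negation of the preceding statement: For every finitely presented group and any two finite generating sets, the Cayley graph has bounded retreat depth (a uniform D such that each g escapes arbitrarily far without dropping below word length ∣g∣−D) for one set iff for the other. -/
theorem result :
    ¬ (∀ (G : Type) [Group G],
      (∃ n : ℕ, ∃ f : FreeGroup (Fin n) →* G, Function.Surjective f ∧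
        ∃ r : Finset (FreeGroup (Fin n)), f.ker = Subgroup.normalClosure (r : Set (FreeGroup (Fin n)))) →
      ∀ S T : Finset G,
        Subgroup.closure (S : Set G) = ⊤ →
        Subgroup.closure (T : Set G) = ⊤ →
        ((∃ D : ℕ, ∀ g : G, ∀ R : ℕ, ∃ h : G,
            R ≤ (SimpleGraph.fromRel (fun a b : G => a⁻¹ * b ∈ S)).dist 1 h ∧
            ∃ p : (SimpleGraph.fromRel (fun a b : G => a⁻¹ * b ∈ S)).Walk g h,
              ∀ v ∈ p.support,
                (SimpleGraph.fromRel (fun a b : G => a⁻¹ * b ∈ S)).dist 1 g ≤
                  (SimpleGraph.fromRel (fun a b : G => a⁻¹ * b ∈ S)).dist 1 v + D) ↔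
         (∃ D : ℕ, ∀ g : G, ∀ R : ℕ, ∃ h : G,
            R ≤ (SimpleGraph.fromRel (fun a b : G => a⁻¹ * b ∈ T)).dist 1 h ∧
            ∃ p : (SimpleGraph.fromRel (fun a b : G => a⁻¹ * b ∈ T)).Walk g h,
              ∀ v ∈ p.support,
                (SimpleGraph.fromRel (fun a b : G => a⁻¹ * b ∈ T)).dist 1 g ≤
                  (SimpleGraph.fromRel (fun a b : G => a⁻¹ * b ∈ T)).dist 1 v + D))) := by
  intro H
  have h := H (Helper376.DL.P × Helper376.DL.P) Helper376.DL.fp_PP Helper376.DL.Svee
    Helper376.DL.Sperp Helper376.DL.Svee_gen Helper376.DL.Sperp_gen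
  exact Helper376.DL.perp_unbounded (h.1 Helper376.DL.vee_bounded)

end Pool.Agent.S01588
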