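import Pool.Statements.S01602
import Pool.Agent.Helper907.LatI

set_option autoImplicit false
open Pool Pool.MP_9bf990_al

namespace Pool.Agent.S01602

/-- The negation of the preceding statement: There exists a nonempty, isomorphism-closed, quotient- and subdirect-product-closed, Frattini-saturated class F of finite groups that is not subgroup-closed, such that in every finite group the F-subnormal subgroups (maximal chains from G with each step containing the F-residual) are closed under ⊓ -/
theorem result :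
    ¬ (∃ F : (G : Type) → [Group G] → Prop,
      (∀ (G : Type) [Group G], F G → Finite G) ∧
      (∀ (G H : Type) [Group G] [Group H], Nonempty (G ≃* H) → F G → F H) ∧
      F Unit ∧
      (∀ (G : Type) [Group G] [Finite G] (N : Subgroup G) [N.Normal], F G → F (G ⧸ N)) ∧
      (∀ (G : Type) [Group G] [Finite G] (N₁ N₂ : Subgroup G) [N₁.Normal] [N₂.Normal],
          F (G ⧸ N₁) → F (G ⧸ N₂) → F (G ⧸ (N₁ ⊓ N₂))) ∧
      (∀ (G : Type) [Group G] [Finite G], F (G ⧸ frattini G) → F G) ∧
      ¬ (∀ (G : Type) [Group G] [Finite G], F G → ∀ H : Subgroup G, F H) ∧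
      (∀ (G : Type) [Group G] [Finite G] (T : Set (Subgroup G)),
        T = {H : Subgroup G | ∀ S : Set (Subgroup G), ⊤ ∈ S →
              (∀ K ∈ S, ∀ L : Subgroup G, L < K →
                (∀ M : Subgroup G, L ≤ M → M ≤ K → M = L ∨ M = K) →
                (∃ N : Subgroup K, ∃ _ : N.Normal, F (K ⧸ N) ∧ N ≤ L.subgroupOf K) →
                L ∈ S) →
              H ∈ S} →
        ∀ A ∈ T, ∀ B ∈ T, A ⊓ B ∈ T ∧ A ⊔ B ∈ T)) := by
  rintro ⟨F, -, hiso, hunit, hquot, hinf, hfrat, hnh, hlat⟩
  apply hnh
  have hF : Pool.Agent.Helper907.Lat.Fm F := ⟨hiso, hunit, hquot, hinf, hfrat⟩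
  intro G _ _ hG H
  exact Pool.Agent.Helper907.Lat.hereditary hF
    (fun G _ _ A hA B hB => (hlat G (Pool.Agent.Helper907.Lat.TT F G) rfl A hA B hB).2)
    (Nat.card G) G rfl hG H

end Pool.Agent.S01602
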