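import Pool.Statements.S01604
import Pool.Agent.Helper987.Main24

set_option autoImplicit false
open Pool Pool.MP_9c3b79_al

namespace Pool.Agent.S01604

/-- The negation of the preceding statement: For positive integers s ≠ t, the group ⟨σ1,σ2,σ3 : σ1^4=σ2^4=σ3^3=(σ1σ2)^2=(σ2σ3)^2=(σ1σ2σ3)^2=(σ1⁻¹σ2)^s(σ1σ2⁻¹)^t=1⟩ is finite iff {s,t} is {1,2}, {1,3}, {1,4} or {2,3}. -/
theorem result :
    ¬ (∀ s t : ℕ, 0 < s → 0 < t → s ≠ t →
      (Finite (PresentedGroup
        ({FreeGroup.of (0 : Fin 3) ^ 4,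
          FreeGroup.of (1 : Fin 3) ^ 4,
          FreeGroup.of (2 : Fin 3) ^ 3,
          (FreeGroup.of (0 : Fin 3) * FreeGroup.of (1 : Fin 3)) ^ 2,
          (FreeGroup.of (1 : Fin 3) * FreeGroup.of (2 : Fin 3)) ^ 2,
          (FreeGroup.of (0 : Fin 3) * FreeGroup.of (1 : Fin 3) * FreeGroup.of (2 : Fin 3)) ^ 2,
          ((FreeGroup.of (0 : Fin 3))⁻¹ * FreeGroup.of (1 : Fin 3)) ^ s *
            (FreeGroup.of (0 : Fin 3) * (FreeGroup.of (1 : Fin 3))⁻¹) ^ t}
          : Set (FreeGroup (Fin 3)))) ↔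
        ((s = 1 ∧ t = 2) ∨ (s = 2 ∧ t = 1) ∨
         (s = 1 ∧ t = 3) ∨ (s = 3 ∧ t = 1) ∨
         (s = 1 ∧ t = 4) ∨ (s = 4 ∧ t = 1) ∨
         (s = 2 ∧ t = 3) ∨ (s = 3 ∧ t = 2)))) := by
  intro hall
  have h24 := (hall 2 4 (by norm_num) (by norm_num) (by norm_num)).1 ?_
  · omega
  · set rels : Set (FreeGroup (Fin 3)) :=
      {FreeGroup.of (0 : Fin 3) ^ 4,
          FreeGroup.of (1 : Fin 3) ^ 4,
          FreeGroup.of (2 : Fin 3) ^ 3,
          (FreeGroup.of (0 : Fin 3) * FreeGroup.of (1 : Fin 3)) ^ 2,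
          (FreeGroup.of (1 : Fin 3) * FreeGroup.of (2 : Fin 3)) ^ 2,
          (FreeGroup.of (0 : Fin 3) * FreeGroup.of (1 : Fin 3) * FreeGroup.of (2 : Fin 3)) ^ 2,
          ((FreeGroup.of (0 : Fin 3))⁻¹ * FreeGroup.of (1 : Fin 3)) ^ 2 *
            (FreeGroup.of (0 : Fin 3) * (FreeGroup.of (1 : Fin 3))⁻¹) ^ 4} with hrels
    refine Pool.Agent.Helper987.Cert24.finiteC (G := PresentedGroup rels)
      (PresentedGroup.of (0 : Fin 3)) (PresentedGroup.of (1 : Fin 3))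
      (PresentedGroup.of (2 : Fin 3)) ?_ ?_
    · have h := PresentedGroup.closure_range_of rels
      rw [← h]
      congr 1
      ext x
      simp only [Set.mem_insert_iff, Set.mem_singleton_iff, Set.mem_range]
      constructor
      · rintro (rfl | rfl | rfl)
        · exact ⟨0, rfl⟩
        · exact ⟨1, rfl⟩
        · exact ⟨2, rfl⟩
      · rintro ⟨i, rfl⟩
        fin_cases i
        · exact Or.inl rfl
        · exact Or.inr (Or.inl rfl)
        · exact Or.inr (Or.inr rfl)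
    · have key : ∀ r ∈ rels, PresentedGroup.mk rels r = 1 := fun r hr =>
        PresentedGroup.one_of_mem hr
      refine ⟨?_, ?_, ?_, ?_, ?_, ?_, ?_⟩
      · exact key (FreeGroup.of (0 : Fin 3) ^ 4) (by simp [hrels])
      · exact key (FreeGroup.of (1 : Fin 3) ^ 4) (by simp [hrels])
      · exact key (FreeGroup.of (2 : Fin 3) ^ 3) (by simp [hrels])
      · exact key ((FreeGroup.of (0 : Fin 3) * FreeGroup.of (1 : Fin 3)) ^ 2) (by simp [hrels])
      · exact key ((FreeGroup.of (1 : Fin 3) * FreeGroup.of (2 : Fin 3)) ^ 2) (by simp [hrels])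
      · exact key ((FreeGroup.of (0 : Fin 3) * FreeGroup.of (1 : Fin 3) *
          FreeGroup.of (2 : Fin 3)) ^ 2) (by simp [hrels])
      · exact key (((FreeGroup.of (0 : Fin 3))⁻¹ * FreeGroup.of (1 : Fin 3)) ^ 2 *
            (FreeGroup.of (0 : Fin 3) * (FreeGroup.of (1 : Fin 3))⁻¹) ^ 4) (by simp [hrels])

end Pool.Agent.S01604
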