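import Pool.Statements.S01618
import Pool.Agent.Helper181.ThinE

set_option autoImplicit false
open Pool Pool.MP_9e7887_al

namespace Pool.Agent.S01618

open Pool.Agent.Helper181.Thin in
/-- The negation of the preceding statement: For every prime p there are finitely many profinite groups such that every infinite pro-p group whose antichains of closed normal subgroups have at most p+1 elements is topologically isomorphic to one of them. -/
theorem result :
    ¬ (∀ p : ℕ, p.Prime → ∃ n : ℕ, ∃ F : Fin n → ProfiniteGrp.{0},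
      ∀ G : ProfiniteGrp.{0}, Infinite G →
        (∀ N : Subgroup G, IsOpen (N : Set G) → N.Normal → ∃ k : ℕ, N.index = p ^ k) →
        (∀ S : Set (Subgroup G), (∀ H ∈ S, IsClosed (H : Set G) ∧ H.Normal) →
            IsAntichain (· ≤ ·) S → S.encard ≤ ((p + 1 : ℕ) : ℕ∞)) →
        ∃ i : Fin n, Nonempty (G ≃ₜ* F i)) := by
  intro hall
  obtain ⟨n, F, hF⟩ := hall 3 Nat.prime_three
  have key : ∀ e : Fin (n + 1), ∃ i : Fin n,
      ∃ (hT : IsTopologicalRing (Re (e + 1))), Nonempty ((De (show 1 ≤ (e : ℕ) + 1 by omega)).G ≃ₜ* F i) := by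
    intro e
    have he : 1 ≤ (e : ℕ) + 1 := by omega
    have hT := topRingRe he
    have hC := compactRe he
    have hT2 := t2Re he
    have hTD := tdRe he
    obtain ⟨i, hi⟩ := hF (ProfiniteGrp.of (De he).G) (De he).infinite_G
      (fun N hN _ => (De he).proP N hN)
      (fun S hS hA => by
        have := (De he).antichain_bound S
          (fun H hH hne => (De he).thin_structure H (hS H hH).2 (hS H hH).1 hne) hA
        exact this)
    exact ⟨i, hT, hi⟩
  choose f hT hf using key
  obtain ⟨e, e', hne, hee⟩ := Fintype.exists_ne_map_eq_of_card_lt f (by simp)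
  have main : ∀ a b : Fin (n + 1), (a : ℕ) < b → f a = f b → False := by
    intro a b hab hfab
    have ha : 1 ≤ (a : ℕ) + 1 := by omega
    have hb : 1 ≤ (b : ℕ) + 1 := by omega
    have hT := topRingRe ha
    have hC := compactRe ha
    have hT2 := t2Re ha
    have hT' := topRingRe hb
    have hC' := compactRe hb
    have hT2' := t2Re hb
    obtain ⟨φ⟩ := hf a
    obtain ⟨ψ⟩ := hf b
    rw [← hfab] at ψ
    exact (De ha).not_iso (De hb) (show (a : ℕ) + 1 < (b : ℕ) + 1 by omega) (φ.trans ψ.symm)
  rcases lt_trichotomy (e : ℕ) (e' : ℕ) with h | h | h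
  · exact main e e' h hee
  · exact hne (Fin.ext h)
  · exact main e' e h hee.symm

end Pool.Agent.S01618
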