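import Pool.Statements.S01636
import Pool.Agent.Helper285.LampReg

set_option autoImplicit false
open Pool Pool.MP_a0ba37_al

namespace Pool.Agent.S01636

open Pool.Agent.Helper285.Lamp

/-- the generating set -/
noncomputable def gens : Finset LG := Finset.univ.map ⟨r, r_inj⟩

theorem dec_ex (a : gens) : ∃ c, r c = (a : LG) := by
  obtain ⟨c, _, hc⟩ := Finset.mem_map.1 a.2
  exact ⟨c, hc⟩

noncomputable def dec (a : gens) : Bool := Classical.choose (dec_ex a)

theorem dec_spec (a : gens) : r (dec a) = (a : LG) := Classical.choose_spec (dec_ex a)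

noncomputable def enc (c : Bool) : gens := ⟨r c, by simp [gens]⟩

theorem dec_enc (c : Bool) : dec (enc c) = c := r_inj (by rw [dec_spec]; rfl)

noncomputable def tr (x : gens × Bool) : Bool × Bool := (dec x.1, x.2)

noncomputable def utr (x : Bool × Bool) : gens × Bool := (enc x.1, x.2)

theorem tr_utr (x : Bool × Bool) : tr (utr x) = x := by
  simp [tr, utr, dec_enc]

theorem value_eq (w : List (gens × Bool)) :
    (w.map (fun x : gens × Bool => if x.2 then (x.1 : LG) else (x.1 : LG)⁻¹)).prod =
      val (w.map tr) := by
  unfold val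
  rw [List.map_map]
  congr 1
  apply List.map_congr_left
  rintro ⟨a, d⟩ _
  simp only [Function.comp_apply, tr, lt]
  have h := dec_spec a
  cases d
  · exact congrArg (fun y : LG => y⁻¹) h.symm
  · exact h.symm

theorem map_utr (w : W) : (w.map utr).map tr = w := by
  rw [List.map_map]
  have : tr ∘ utr = id := funext tr_utr
  rw [this, List.map_id]

theorem sphere_iff (n : ℕ) (g : LG) :
    ((∃ w : List (gens × Bool), w.length = n ∧
        (w.map (fun x : gens × Bool => if x.2 then (x.1 : LG) else (x.1 : LG)⁻¹)).prod = g) ∧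
      (∀ v : List (gens × Bool),
        (v.map (fun x : gens × Bool => if x.2 then (x.1 : LG) else (x.1 : LG)⁻¹)).prod = g →
          n ≤ v.length)) ↔ len g = n := by
  simp only [value_eq]
  constructor
  · rintro ⟨⟨w, hw, hg⟩, h⟩
    apply le_antisymm
    · have := len_val_le (w.map tr)
      rw [hg, List.length_map, hw] at this; exact this
    · obtain ⟨v, hv, hvg⟩ := exists_word g
      have := h (v.map utr) (by rw [map_utr]; exact hvg)
      rw [List.length_map, hv] at this; exact this
  · rintro rfl
    obtain ⟨v, hv, hvg⟩ := exists_word g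
    refine ⟨⟨v.map utr, by rw [List.length_map, hv], by rw [map_utr]; exact hvg⟩, ?_⟩
    intro w hw
    have := len_val_le (w.map tr)
    rw [hw, List.length_map] at this; exact this

theorem gens_closure : Subgroup.closure (gens : Set LG) = ⊤ := by
  rw [eq_top_iff]
  intro g _
  obtain ⟨w, _, rfl⟩ := exists_word g
  unfold val
  apply Subgroup.list_prod_mem
  intro x hx
  obtain ⟨⟨c, d⟩, _, rfl⟩ := List.mem_map.1 hx
  have h1 : r c ∈ Subgroup.closure (gens : Set LG) :=
    Subgroup.subset_closure (by simp [gens])
  simp only [lt]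
  split_ifs
  · exact h1
  · exact Subgroup.inv_mem _ h1

/-- The negation of the preceding statement: For every group with finite generating set A: the sphere-size series for word length over A and its inverses is rational iff some DFA-recognized, prefix-closed set of geodesic words has exactly one word per group element. -/
theorem result :
    ¬ (∀ (G : Type) [Group G] (A : Finset G), Subgroup.closure (A : Set G) = ⊤ →
      ((∃ P Q : Polynomial ℚ, Q ≠ 0 ∧
          (Q : PowerSeries ℚ) * PowerSeries.mk (fun n : ℕ =>
            ((Nat.card {g : G //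
              (∃ w : List (A × Bool), w.length = n ∧
                (w.map (fun x : A × Bool => if x.2 then (x.1 : G) else (x.1 : G)⁻¹)).prod = g) ∧
              (∀ v : List (A × Bool),
                (v.map (fun x : A × Bool => if x.2 then (x.1 : G) else (x.1 : G)⁻¹)).prod = g →
                  n ≤ v.length)} : ℕ) : ℚ)) = (P : PowerSeries ℚ)) ↔
       ∃ L : Language (A × Bool),
         (∃ σ : Type, ∃ _ : Fintype σ, ∃ M : DFA (A × Bool) σ, M.accepts = L) ∧
         (∀ w v : List (A × Bool), w ++ v ∈ L → w ∈ L) ∧
         (∀ g : G, ∃! w : List (A × Bool), w ∈ L ∧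
            (w.map (fun x : A × Bool => if x.2 then (x.1 : G) else (x.1 : G)⁻¹)).prod = g) ∧
         (∀ w ∈ L, ∀ v : List (A × Bool),
            (v.map (fun x : A × Bool => if x.2 then (x.1 : G) else (x.1 : G)⁻¹)).prod =
              (w.map (fun x : A × Bool => if x.2 then (x.1 : G) else (x.1 : G)⁻¹)).prod →
            w.length ≤ v.length))) := by
  intro H
  have h := (H LG gens gens_closure).1
  obtain ⟨P, Q, hQ, hPQ⟩ := rational
  have hgf : PowerSeries.mk (fun n : ℕ =>
      ((Nat.card {g : LG //
        (∃ w : List (gens × Bool), w.length = n ∧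
          (w.map (fun x : gens × Bool => if x.2 then (x.1 : LG) else (x.1 : LG)⁻¹)).prod = g) ∧
        (∀ v : List (gens × Bool),
          (v.map (fun x : gens × Bool => if x.2 then (x.1 : LG) else (x.1 : LG)⁻¹)).prod = g →
            n ≤ v.length)} : ℕ) : ℚ)) = gf len := by
    unfold gf
    congr 1
    ext n
    congr 1
    exact Nat.card_congr (Equiv.subtypeEquivRight (sphere_iff n))
  obtain ⟨L, ⟨σ, hσ, D, rfl⟩, -, h2, h3⟩ := h ⟨P, Q, hQ, by rw [hgf]; exact hPQ⟩
  refine no_regular tr σ D ?_ ?_
  · intro w hw
    obtain ⟨v, hv, hvg⟩ := exists_word (val (w.map tr))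
    have := h3 w hw (v.map utr) (by rw [value_eq, value_eq, map_utr]; exact hvg)
    rw [List.length_map, hv] at this; exact this
  · intro g
    obtain ⟨w, ⟨hw, hg⟩, -⟩ := h2 g
    exact ⟨w, hw, by rw [← value_eq]; exact hg⟩

end Pool.Agent.S01636
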