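import Pool.Statements.S01639
import Pool.Agent.EngelMc.Final

set_option autoImplicit false
open Pool Pool.MP_a1472e_al

namespace Pool.Agent.S01639

/-- In any group where descending chains of centralizers stabilize, a conjugation-closed subset X with [x,y,...,y]=1 (repeat count depending on x,y) for all x,y in X generates a subgroup whose finitely generated subgroups are all nilpotent. -/
theorem result :
    ∀ (G : Type) [Group G],
      (∀ c : ℕ → Set G, Antitone (fun n => Subgroup.centralizer (c n)) →
        ∃ N : ℕ, ∀ n : ℕ, N ≤ n → Subgroup.centralizer (c n) = Subgroup.centralizer (c N)) →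
      ∀ X : Set G, (∀ g : G, ∀ x ∈ X, g * x * g⁻¹ ∈ X) →
        (∀ x ∈ X, ∀ y ∈ X, ∃ n : ℕ, (fun z : G => z⁻¹ * y⁻¹ * z * y)^[n] x = 1) →
        ∀ S : Finset G, (↑S : Set G) ⊆ (Subgroup.closure X : Set G) →
          Group.IsNilpotent (Subgroup.closure (↑S : Set G)) := by
  intro G _ hMC X hX hE S hS
  have h1 : EngelMc.LN (Subgroup.closure X) := EngelMc.main hMC hX hE
  have h2 : EngelMc.Nil (Subgroup.closure (↑S : Set G)) := h1 (↑S : Set G) S.finite_toSet hS
  exact (Subgroup.isNilpotent_iff_lowerCentralSeries _).2 h2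

end Pool.Agent.S01639
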