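import Pool.Statements.S01646

set_option autoImplicit false
open Pool Pool.MP_a19302_al

namespace Pool.Agent.S01646

/-- Basis states `(m, c, p)`. -/
abbrev St : Type := ℕ × ℕ × ℕ

/-- The space on which the algebra acts. -/
abbrev W : Type := St →₀ ℚ

/-- The basis vector of the state `(m, c, p)`. -/
noncomputable def e (m c p : ℕ) : W := Finsupp.single (m, c, p) 1

/-- The operator `y`: `(m, c, p) ↦ (m, c, p + 1)`. -/
noncomputable def opY : Module.End ℚ W :=
  Finsupp.linearCombination ℚ (fun s : St => e s.1 s.2.1 (s.2.2 + 1))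

/-- The operator `x`: `(m, c, m) ↦ (m, c + 1, 0)` if `c < m`, and every other state is killed. -/
noncomputable def opX : Module.End ℚ W :=
  Finsupp.linearCombination ℚ (fun s : St =>
    if s.2.2 = s.1 ∧ s.2.1 < s.1 then e s.1 (s.2.1 + 1) 0 else 0)

lemma opY_e (m c p : ℕ) : opY (e m c p) = e m c (p + 1) := by
  simp [opY, e, Finsupp.linearCombination_single]

lemma opX_e (m c p : ℕ) :
    opX (e m c p) = if p = m ∧ c < m then e m (c + 1) 0 else 0 := by
  unfold opX
  conv_lhs => rw [e]
  rw [Finsupp.linearCombination_single, one_smul]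

lemma opY_pow_e (m c p i : ℕ) : (opY ^ i) (e m c p) = e m c (p + i) := by
  induction i with
  | zero => simp
  | succ i ih =>
    rw [pow_succ', Module.End.mul_apply, ih, opY_e]
    rfl

lemma ext_e {f g : Module.End ℚ W} (h : ∀ m c p, f (e m c p) = g (e m c p)) : f = g := by
  apply Finsupp.lhom_ext
  rintro ⟨m, c, p⟩ b
  have : (Finsupp.single (m, c, p) b : W) = b • e m c p := by
    simp [e]
  rw [this, map_smul, map_smul, h]

lemma rel (i m : ℕ) (h : i ≠ m) : opX * opY ^ i * opX * opY ^ m * opX = 0 := by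
  apply ext_e
  intro m0 c p
  simp only [Module.End.mul_apply, opX_e, LinearMap.zero_apply]
  split_ifs with h1
  · rw [opY_pow_e, opX_e]
    split_ifs with h2
    · rw [opY_pow_e, opX_e]
      rw [if_neg]
      omega
    · simp
  · simp

lemma e_ne_zero (m c p : ℕ) : e m c p ≠ 0 := by
  simp [e]

/-- The algebra generated by `x` and `y`. -/
noncomputable abbrev Alg : Subalgebra ℚ (Module.End ℚ W) := Algebra.adjoin ℚ {opX, opY}

noncomputable def x : Alg := ⟨opX, Algebra.subset_adjoin (by simp)⟩
noncomputable def y : Alg := ⟨opY, Algebra.subset_adjoin (by simp)⟩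

/-- States of the `m`-th block at level between `c` and `m`. -/
noncomputable def F (m c : ℕ) : Submodule ℚ W :=
  Finsupp.supported ℚ ℚ {s : St | s.1 = m ∧ c ≤ s.2.1 ∧ s.2.1 ≤ m}

/-- The other states. -/
noncomputable def G (m : ℕ) : Submodule ℚ W :=
  Finsupp.supported ℚ ℚ {s : St | s.1 ≠ m ∨ m < s.2.1}

lemma e_mem_F (m c c' p : ℕ) (h : c ≤ c') (h' : c' ≤ m) : e m c' p ∈ F m c := by
  unfold F e
  apply Finsupp.single_mem_supported
  exact ⟨rfl, h, h'⟩

lemma e_mem_G (m m' c' p : ℕ) (h : m' ≠ m ∨ m < c') : e m' c' p ∈ G m := by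
  unfold G e
  apply Finsupp.single_mem_supported
  exact h

lemma F_induct (m c : ℕ) (f : Module.End ℚ W) (Q : Submodule ℚ W)
    (h : ∀ c' p, c ≤ c' → c' ≤ m → f (e m c' p) ∈ Q) : ∀ w ∈ F m c, f w ∈ Q := by
  have : F m c ≤ Q.comap f := by
    unfold F
    rw [Finsupp.supported_eq_span_single, Submodule.span_le]
    rintro _ ⟨⟨m', c', p⟩, ⟨h1, h2, h3⟩, rfl⟩
    simp only at h1 h2 h3
    subst h1
    exact h c' p h2 h3
  exact this

lemma G_induct (m : ℕ) (f : Module.End ℚ W) (Q : Submodule ℚ W)
    (h : ∀ m' c' p, (m' ≠ m ∨ m < c') → f (e m' c' p) ∈ Q) : ∀ w ∈ G m, f w ∈ Q := by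
  have : G m ≤ Q.comap f := by
    unfold G
    rw [Finsupp.supported_eq_span_single, Submodule.span_le]
    rintro _ ⟨⟨m', c', p⟩, h1, rfl⟩
    exact h m' c' p h1
  exact this

lemma alg_F (a : Module.End ℚ W) (ha : a ∈ Alg) (m c : ℕ) : ∀ w ∈ F m c, a w ∈ F m c := by
  induction ha using Algebra.adjoin_induction with
  | mem a ha =>
    rcases ha with rfl | rfl
    · apply F_induct
      intro c' p h1 h2
      rw [opX_e]
      split_ifs with h
      · exact e_mem_F _ _ _ _ (by omega) (by omega)
      · exact zero_mem _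
    · apply F_induct
      intro c' p h1 h2
      rw [opY_e]
      exact e_mem_F _ _ _ _ (by omega) (by omega)
  | algebraMap r =>
    intro w hw
    rw [Module.algebraMap_end_apply]
    exact Submodule.smul_mem _ _ hw
  | add a b _ _ ha hb =>
    intro w hw
    exact add_mem (ha w hw) (hb w hw)
  | mul a b _ _ ha hb =>
    intro w hw
    exact ha _ (hb w hw)

lemma alg_G (a : Module.End ℚ W) (ha : a ∈ Alg) (m : ℕ) : ∀ w ∈ G m, a w ∈ G m := by
  induction ha using Algebra.adjoin_induction with
  | mem a ha =>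
    rcases ha with rfl | rfl
    · apply G_induct
      intro m' c' p h1
      rw [opX_e]
      split_ifs with h
      · exact e_mem_G _ _ _ _ (by omega)
      · exact zero_mem _
    · apply G_induct
      intro m' c' p h1
      rw [opY_e]
      exact e_mem_G _ _ _ _ (by omega)
  | algebraMap r =>
    intro w hw
    rw [Module.algebraMap_end_apply]
    exact Submodule.smul_mem _ _ hw
  | add a b _ _ ha hb =>
    intro w hw
    exact add_mem (ha w hw) (hb w hw)
  | mul a b _ _ ha hb =>
    intro w hw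
    exact ha _ (hb w hw)

/-- The `m`-th nilpotent ideal. -/
noncomputable def I (m : ℕ) : TwoSidedIdeal Alg :=
  TwoSidedIdeal.mk' {a : Alg | (∀ w ∈ G m, (a : Module.End ℚ W) w = 0) ∧
      ∀ c, ∀ w ∈ F m c, (a : Module.End ℚ W) w ∈ F m (c + 1)}
    (by
      refine ⟨?_, ?_⟩
      · intro w _; simp
      · intro c w _; simp)
    (by
      rintro a b ⟨ha1, ha2⟩ ⟨hb1, hb2⟩
      refine ⟨?_, ?_⟩
      · intro w hw
        simp [ha1 w hw, hb1 w hw]
      · intro c w hw
        exact add_mem (ha2 c w hw) (hb2 c w hw))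
    (by
      rintro a ⟨ha1, ha2⟩
      refine ⟨?_, ?_⟩
      · intro w hw
        simp [ha1 w hw]
      · intro c w hw
        exact neg_mem (ha2 c w hw))
    (by
      rintro b a ⟨ha1, ha2⟩
      refine ⟨?_, ?_⟩
      · intro w hw
        show (b : Module.End ℚ W) ((a : Module.End ℚ W) w) = 0
        rw [ha1 w hw, map_zero]
      · intro c w hw
        exact alg_F _ b.2 _ _ _ (ha2 c w hw))
    (by
      rintro a b ⟨ha1, ha2⟩
      refine ⟨?_, ?_⟩
      · intro w hw
        exact ha1 _ (alg_G _ b.2 _ _ hw)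
      · intro c w hw
        exact ha2 c _ (alg_F _ b.2 _ _ _ hw))

lemma mem_I (m : ℕ) (a : Alg) : a ∈ I m ↔ ((∀ w ∈ G m, (a : Module.End ℚ W) w = 0) ∧
      ∀ c, ∀ w ∈ F m c, (a : Module.End ℚ W) w ∈ F m (c + 1)) := by
  unfold I
  rw [TwoSidedIdeal.mem_mk']
  rfl

lemma list_F (m : ℕ) (l : List Alg) (hl : ∀ a ∈ l, a ∈ I m) :
    ∀ c, ∀ w ∈ F m c, (l.prod : Module.End ℚ W) w ∈ F m (c + l.length) := by
  induction l with
  | nil => intro c w hw; simpa using hw
  | cons a l ih =>
    intro c w hw
    have h1 := ih (fun b hb => hl b (List.mem_cons_of_mem _ hb)) c w hw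
    have h2 := ((mem_I m a).1 (hl a List.mem_cons_self)).2 _ _ h1
    simpa [add_assoc] using h2

lemma list_G (m : ℕ) (l : List Alg) (hl : ∀ a ∈ l, a ∈ I m) (hne : l ≠ []) :
    ∀ w ∈ G m, (l.prod : Module.End ℚ W) w = 0 := by
  cases l with
  | nil => exact absurd rfl hne
  | cons a l =>
    intro w hw
    have h2 := ((mem_I m a).1 (hl a List.mem_cons_self)).1 _ (alg_G _ l.prod.2 m w hw)
    simpa using h2

lemma I_nilp (m : ℕ) : ∃ r : ℕ, ∀ f : Fin r → Alg, (∀ i, f i ∈ I m) → (List.ofFn f).prod = 0 := by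
  refine ⟨m + 1, fun f hf => ?_⟩
  have hl : ∀ a ∈ List.ofFn f, a ∈ I m := by
    intro a ha
    rw [List.mem_ofFn] at ha
    obtain ⟨i, rfl⟩ := ha
    exact hf i
  apply Subtype.ext
  apply ext_e
  intro m' c' p
  by_cases h : m' ≠ m ∨ m < c'
  · rw [list_G m _ hl (by simp) _ (e_mem_G _ _ _ _ h)]
    simp
  · have h1 : m' = m := by omega
    subst h1
    have := list_F m' _ hl 0 (e m' c' p) (e_mem_F _ _ _ _ (by omega) (by omega))
    rw [List.length_ofFn] at this
    unfold F at this
    have h0 : {s : St | s.1 = m' ∧ 0 + (m' + 1) ≤ s.2.1 ∧ s.2.1 ≤ m'} = ∅ := by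
      ext s
      simp only [Set.mem_ofPred_eq, Set.mem_empty_iff_false, iff_false]
      omega
    rw [h0] at this
    rw [Finsupp.supported_empty, Submodule.mem_bot] at this
    rw [this]
    simp

/-- The element `x y^m x y^m`. -/
noncomputable def z (m : ℕ) : Alg := x * y ^ m * (x * y ^ m)

lemma z_apply (m : ℕ) (w : W) : (z m : Module.End ℚ W) w =
    opX ((opY ^ m) (opX ((opY ^ m) w))) := by
  simp [z, x, y, Module.End.mul_apply]

lemma z_mem (m : ℕ) : z m ∈ I m := by
  rw [mem_I]
  constructor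
  · intro w hw
    have : (z m : Module.End ℚ W) w ∈ (⊥ : Submodule ℚ W) := by
      revert w
      apply G_induct
      intro m' c' p h
      rw [z_apply, opY_pow_e, opX_e]
      split_ifs with h1
      · rw [opY_pow_e, opX_e, if_neg]
        · simp
        · omega
      · simp
    simpa using this
  · intro c
    apply F_induct
    intro c' p h1 h2
    rw [z_apply, opY_pow_e, opX_e]
    split_ifs with h3
    · rw [opY_pow_e, opX_e]
      split_ifs with h4
      · exact e_mem_F _ _ _ _ (by omega) (by omega)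
      · exact zero_mem _
    · simp

lemma z_pow (m j : ℕ) (h : 2 * j ≤ m) :
    (((z m) ^ j : Alg) : Module.End ℚ W) (e m 0 0) = e m (2 * j) 0 := by
  induction j with
  | zero => simp
  | succ j ih =>
    rw [pow_succ']
    have : ((z m * z m ^ j : Alg) : Module.End ℚ W) (e m 0 0) =
        (z m : Module.End ℚ W) (((z m ^ j : Alg) : Module.End ℚ W) (e m 0 0)) := rfl
    rw [this, ih (by omega), z_apply, opY_pow_e, opX_e, if_pos (by omega), opY_pow_e, opX_e,
      if_pos (by omega)]
    rfl

/-- The word `y^i (x y^m)^k x y^j`. -/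
noncomputable def wd (i m k j : ℕ) : Alg := y ^ i * (x * y ^ m) ^ k * x * y ^ j

lemma relA (i m : ℕ) (h : i ≠ m) : x * y ^ i * x * y ^ m * x = 0 := by
  apply Subtype.ext
  have := rel i m h
  simpa [x, y] using this

lemma x_wd_zero (i m j : ℕ) : x * wd i m 0 j = wd 0 i 1 j := by
  simp [wd, mul_assoc]

lemma x_wd_eq (m k j : ℕ) : x * wd m m k j = wd 0 m (k + 1) j := by
  simp [wd, mul_assoc, pow_succ']

lemma x_wd_ne (i m k j : ℕ) (h : i ≠ m) : x * wd i m (k + 1) j = 0 := by
  have h1 := relA i m h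
  cases k with
  | zero =>
    have : x * wd i m (0 + 1) j = (x * y ^ i * x * y ^ m * x) * y ^ j := by
      simp [wd, mul_assoc]
    rw [this, h1, zero_mul]
  | succ k =>
    have : x * wd i m (k + 1 + 1) j = (x * y ^ i * x * y ^ m * x) * (y ^ m * (x * y ^ m) ^ k * x * y ^ j) := by
      simp [wd, mul_assoc, pow_succ']
    rw [this, h1, zero_mul]

open Classical in
/-- Spanning words of length at most `n`. -/
noncomputable def T (n : ℕ) : Finset Alg :=
  (Finset.range (n + 1)).image (fun i => y ^ i) ∪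
  ((Finset.range (n + 1)) ×ˢ (Finset.range (n + 1)) ×ˢ (Finset.range (n + 1)) ×ˢ
    (Finset.range (n + 1))).image (fun q => wd q.1 q.2.1 q.2.2.1 q.2.2.2)

lemma T_card (n : ℕ) : (T n).card ≤ 2 * (n + 1) ^ 4 := by
  classical
  unfold T
  refine (Finset.card_union_le _ _).trans ?_
  refine (Nat.add_le_add Finset.card_image_le Finset.card_image_le).trans ?_
  simp only [Finset.card_product, Finset.card_range]
  have : n + 1 ≤ (n + 1) ^ 4 := Nat.le_self_pow (by norm_num) _
  have h2 : (n + 1) * ((n + 1) * ((n + 1) * (n + 1))) = (n + 1) ^ 4 := by ring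
  omega

lemma y_pow_mem_T (n i : ℕ) (h : i ≤ n) : y ^ i ∈ Submodule.span ℚ (T n : Set Alg) := by
  classical
  apply Submodule.subset_span
  rw [Finset.mem_coe]
  unfold T
  rw [Finset.mem_union]
  left
  rw [Finset.mem_image]
  exact ⟨i, by simp; omega, rfl⟩

lemma wd_mem_T (n i m k j : ℕ) (h1 : i ≤ n) (h2 : m ≤ n) (h3 : k ≤ n) (h4 : j ≤ n) :
    wd i m k j ∈ Submodule.span ℚ (T n : Set Alg) := by
  classical
  apply Submodule.subset_span
  rw [Finset.mem_coe]
  unfold T
  rw [Finset.mem_union]
  right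
  rw [Finset.mem_image]
  exact ⟨(i, m, k, j), by simp; omega, rfl⟩

/-- The generating subspace. -/
noncomputable def V : Submodule ℚ Alg := Submodule.span ℚ {1, x, y}

lemma mem_T (n : ℕ) (t : Alg) (ht : t ∈ (T n : Set Alg)) :
    (∃ i ≤ n, t = y ^ i) ∨ (∃ i ≤ n, ∃ m ≤ n, ∃ k ≤ n, ∃ j ≤ n, t = wd i m k j) := by
  classical
  rw [Finset.mem_coe] at ht
  unfold T at ht
  rw [Finset.mem_union, Finset.mem_image, Finset.mem_image] at ht
  rcases ht with ⟨i, hi, rfl⟩ | ⟨⟨i, m, k, j⟩, hi, rfl⟩
  · left
    exact ⟨i, by simpa [Nat.lt_succ_iff] using hi, rfl⟩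
  · right
    simp only [Finset.mem_product, Finset.mem_range] at hi
    exact ⟨i, by omega, m, by omega, k, by omega, j, by omega, rfl⟩

lemma V_pow_le (n : ℕ) : V ^ n ≤ Submodule.span ℚ (T n : Set Alg) := by
  induction n with
  | zero =>
    rw [pow_zero, Submodule.one_eq_span, Submodule.span_le]
    rintro _ rfl
    have := y_pow_mem_T 0 0 le_rfl
    simpa using this
  | succ n ih =>
    rw [pow_succ']
    refine (mul_le_mul' le_rfl ih).trans ?_
    unfold V
    rw [Submodule.span_mul_span, Submodule.span_le]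
    rintro _ ⟨a, ha, t, ht, rfl⟩
    simp only [SetLike.mem_coe]
    rcases mem_T n t ht with ⟨i, hi, rfl⟩ | ⟨i, hi, m, hm, k, hk, j, hj, rfl⟩
    · rcases ha with rfl | rfl | rfl
      · rw [one_mul]
        exact y_pow_mem_T _ _ (by omega)
      · have : x * y ^ i = wd 0 0 0 i := by simp [wd]
        rw [this]
        exact wd_mem_T _ _ _ _ _ (by omega) (by omega) (by omega) (by omega)
      · rw [← pow_succ']
        exact y_pow_mem_T _ _ (by omega)
    · rcases ha with rfl | rfl | rfl
      · rw [one_mul]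
        exact wd_mem_T _ _ _ _ _ (by omega) (by omega) (by omega) (by omega)
      · cases k with
        | zero =>
          rw [x_wd_zero]
          exact wd_mem_T _ _ _ _ _ (by omega) (by omega) (by omega) (by omega)
        | succ k =>
          by_cases h : i = m
          · subst h
            rw [x_wd_eq]
            exact wd_mem_T _ _ _ _ _ (by omega) (by omega) (by omega) (by omega)
          · rw [x_wd_ne _ _ _ _ h]
            exact zero_mem _
      · have : y * wd i m k j = wd (i + 1) m k j := by simp [wd, mul_assoc, pow_succ']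
        rw [this]
        exact wd_mem_T _ _ _ _ _ (by omega) (by omega) (by omega) (by omega)

lemma adjoin_top : Algebra.adjoin ℚ ({x, y} : Set Alg) = ⊤ := by
  have h := Algebra.adjoin_adjoin_coe_preimage (R := ℚ) (s := ({opX, opY} : Set (Module.End ℚ W)))
  rw [← h]
  congr 1
  ext a
  constructor
  · rintro (rfl | rfl)
    · left; rfl
    · right; rfl
  · rintro (h | h)
    · left; exact Subtype.ext h
    · right; exact Subtype.ext h

/-- The negation of the preceding statement: Every finitely generated associative algebra over a field with polynomially bounded growth (finite GK dimension) has a nilpotent two-sided ideal containing every nilpotent two-sided ideal. -/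
theorem result :
    ¬ (∀ (k : Type) [Field k] (A : Type) [Ring A] [Algebra k A],
      Algebra.FiniteType k A →
      (∃ V : Submodule k A, FiniteDimensional k V ∧ (1 : A) ∈ V ∧
          Algebra.adjoin k (V : Set A) = ⊤ ∧
          ∃ C d : ℕ, ∀ n : ℕ, Module.finrank k ↥(V ^ n) ≤ C * (n + 1) ^ d) →
      ∃ N : TwoSidedIdeal A,
        (∃ m : ℕ, ∀ f : Fin m → A, (∀ i, f i ∈ N) → (List.ofFn f).prod = 0) ∧
        ∀ I : TwoSidedIdeal A,
          (∃ m : ℕ, ∀ f : Fin m → A, (∀ i, f i ∈ I) → (List.ofFn f).prod = 0) → I ≤ N) := by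
  intro H
  have hft : Algebra.FiniteType ℚ Alg := by
    classical
    constructor
    rw [← adjoin_top]
    exact ⟨{x, y}, by simp⟩
  obtain ⟨N, ⟨r, hr⟩, hN⟩ := H ℚ Alg hft (by
    refine ⟨V, ?_, ?_, ?_, 2, 4, ?_⟩
    · unfold V
      exact FiniteDimensional.span_of_finite ℚ (Set.toFinite ({1, x, y} : Set Alg))
    · exact Submodule.subset_span (by simp)
    · unfold V
      rw [Algebra.adjoin_span, eq_top_iff, ← adjoin_top]
      exact Algebra.adjoin_mono (by intro a ha; right; exact ha)
    · intro n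
      refine (Submodule.finrank_mono (V_pow_le n)).trans ?_
      exact (finrank_span_finset_le_card (T n)).trans (T_card n))
  have h1 : z (2 * r) ∈ N := hN _ (I_nilp (2 * r)) (z_mem _)
  have h2 := hr (fun _ => z (2 * r)) (fun _ => h1)
  rw [List.ofFn_const, List.prod_replicate] at h2
  have h3 := z_pow (2 * r) r le_rfl
  rw [h2] at h3
  exact e_ne_zero _ _ _ h3.symm

end Pool.Agent.S01646
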