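-- Copy of the starting file for the frozen statement, with a proof by an explicit group.
import Pool.Statements.S01648
import Pool.Agent.Helper407.CatF

set_option autoImplicit false
open Pool Pool.MP_a1de5b_al

namespace Pool.Agent.S01648

open Pool.Agent.Helper407.Cat

/-- two disjoint sequences of odd primes -/
theorem exists_primes : ∃ r q : ℕ → ℕ, (∀ j, (r j).Prime) ∧ StrictMono r ∧ (∀ j, r j ≠ 2) ∧
    (∀ i, (q i).Prime) ∧ Function.Injective q ∧ (∀ i j, q i ≠ r j) ∧ (∀ i, q i ≠ 2) := by
  have hinf : {p : ℕ | p.Prime}.Infinite := Nat.infinite_setOfPred_prime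
  have hmono : StrictMono (Nat.nth Nat.Prime) := Nat.nth_strictMono hinf
  have hprime : ∀ n, (Nat.nth Nat.Prime n).Prime := fun n => Nat.nth_mem_of_infinite hinf n
  have h2 : ∀ n, 0 < n → Nat.nth Nat.Prime n ≠ 2 := by
    intro n hn
    have h1 := hmono hn
    have h3 := (hprime 0).two_le
    omega
  refine ⟨fun j => Nat.nth Nat.Prime (2 * j + 1), fun i => Nat.nth Nat.Prime (2 * i + 2),
    fun j => hprime _, fun a b hab => hmono (by omega), fun j => h2 _ (by omega),
    fun i => hprime _, ?_, ?_, fun i => h2 _ (by omega)⟩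
  · intro a b hab
    have := hmono.injective hab
    omega
  · intro i j h
    have := hmono.injective h
    omega

/-- The negation of the preceding statement: For every periodic locally soluble group G: G is isomorphic to every group locally equivalent to it iff G has a well-ordered ascending normal series with finite factors and every Sylow p-subgroup is Chernikov. -/
theorem result :
    ¬ (∀ (G : Type) [Group G], Monoid.IsTorsion G →
    (∀ K : Subgroup G, K.FG → IsSolvable K) →
    ((∀ (H : Type) [Group H],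
        ((∀ K : Subgroup G, K.FG → ∃ L : Subgroup H, Nonempty (K ≃* L)) ∧
         (∀ L : Subgroup H, L.FG → ∃ K : Subgroup G, Nonempty (L ≃* K))) →
        Nonempty (G ≃* H)) ↔
     ((∃ f : Ordinal.{0} → Subgroup G, f 0 = ⊥ ∧ (∀ o, (f o).Normal) ∧
        (∀ o, f o ≤ f (Order.succ o) ∧ (f o).relIndex (f (Order.succ o)) ≠ 0) ∧
        (∀ o, Order.IsSuccLimit o → f o = ⨆ (o' : Ordinal.{0}) (_ : o' < o), f o') ∧
        ∃ o, f o = ⊤) ∧
      ∀ p : ℕ, p.Prime → ∀ P : Sylow p G, ∃ N : Subgroup G,
        N ≤ P.toSubgroup ∧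
        (∀ g ∈ P.toSubgroup, ∀ n ∈ N, g * n * g⁻¹ ∈ N) ∧
        N.relIndex P.toSubgroup ≠ 0 ∧
        (∀ x ∈ N, ∀ y ∈ N, x * y = y * x) ∧
        (∀ x ∈ N, ∀ n : ℕ, 0 < n → ∃ y ∈ N, y ^ n = x) ∧
        (∀ x ∈ N, IsOfFinOrder x) ∧
        {x : G | x ∈ N ∧ (orderOf x).Prime}.Finite))) := by
  intro hmain
  obtain ⟨r, q, hr, hmono, hr2, hq, hqinj, hqr, hq2⟩ := exists_primes
  have hT : ∀ i, Nonempty (Stage r (i + 1) i) := fun i =>
    exists_stage hr hmono.injective hr2 (Nat.succ_le_succ (Nat.zero_le i)) i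
  have T : ∀ i, Stage r (i + 1) i := fun i => Classical.choice (hT i)
  obtain ⟨S, hS1, hS2⟩ := exists_sys hr hmono hq hqinj hqr hq2 T
  have h1 := (hmain S.G S.torsion S.fg_solvable).1
    (fun H _ h => Sys.categorical S H h.1 h.2)
  choose x hx1 hx2 using hS1
  let Q0 : Subgroup S.G :=
    { carrier := {y | ∀ i, y.1 i = 1 ∨ y.1 i = x i}
      one_mem' := fun i => Or.inl rfl
      mul_mem' := by
        intro a b ha hb i
        change a.1 i * b.1 i = 1 ∨ a.1 i * b.1 i = x i
        rcases ha i with h | h <;> rcases hb i with h' | h'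
        · left; rw [h, h', mul_one]
        · right; rw [h, h', one_mul]
        · right; rw [h, h', mul_one]
        · left
          rw [h, h', ← pow_two, ← hx2 i, pow_orderOf_eq_one]
      inv_mem' := by
        intro a ha i
        change (a.1 i)⁻¹ = 1 ∨ (a.1 i)⁻¹ = x i
        rcases ha i with h | h
        · left; rw [h, inv_one]
        · right
          rw [h, inv_eq_iff_mul_eq_one, ← pow_two, ← hx2 i, pow_orderOf_eq_one] }
  have hQ0 : IsPGroup 2 Q0 := by
    intro y
    refine ⟨1, ?_⟩
    apply Subtype.ext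
    apply Subtype.ext
    funext i
    change (y.1.1 i) ^ (2 ^ 1) = 1
    rcases y.2 i with h | h
    · rw [h, one_pow]
    · rw [h, pow_one, ← hx2 i, pow_orderOf_eq_one]
  obtain ⟨P, hP⟩ := hQ0.exists_le_sylow
  obtain ⟨N, hNP, -, hN3, -, hN5, -, -⟩ := h1.2 2 Nat.prime_two P
  have hN : N = ⊥ := by
    rw [eq_bot_iff]
    intro z hz
    obtain ⟨y, hy, hyz⟩ := hN5 z hz 2 (by norm_num)
    rw [Subgroup.mem_bot, ← hyz]
    obtain ⟨m, hm⟩ := P.isPGroup' ⟨y, hNP hy⟩
    have hm' : y ^ (2 ^ m) = 1 := congrArg Subtype.val hm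
    apply Subtype.ext
    funext i
    apply hS2 i (y.1 i) m
    exact congrFun (congrArg Subtype.val hm') i
  rw [hN, Subgroup.relIndex_bot_left] at hN3
  have hfin : Finite P.toSubgroup := Nat.finite_of_card_ne_zero hN3
  let g : ℕ → P.toSubgroup := fun i =>
    ⟨⟨Pi.mulSingle i (x i), S.D_le_G i (S.mulSingle_mem_D le_rfl (hx1 i))⟩, hP (by
      intro k
      change (Pi.mulSingle i (x i) : ∀ i, S.Y i) k = 1 ∨
        (Pi.mulSingle i (x i) : ∀ i, S.Y i) k = x k
      by_cases hk : k = i
      · subst hk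
        right
        exact Pi.mulSingle_eq_same k (x k)
      · left
        exact Pi.mulSingle_eq_of_ne hk _)⟩
  have hg : Function.Injective g := by
    intro i j hij
    by_contra hne
    have h2 : (Pi.mulSingle i (x i) : ∀ i, S.Y i) = Pi.mulSingle j (x j) :=
      congrArg (fun z : P.toSubgroup => z.1.1) hij
    have h3 := congrFun h2 i
    rw [Pi.mulSingle_eq_same, Pi.mulSingle_eq_of_ne hne] at h3
    have h4 := hx2 i
    rw [h3, orderOf_one] at h4
    omega
  exact not_injective_infinite_finite g hg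

end Pool.Agent.S01648
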