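import Pool.Statements.S01649
import Pool.Agent.Helper878.PrimMain

set_option autoImplicit false
open Pool Pool.MP_a23033_al

namespace Pool.Agent.S01649

open Pool.Agent.Helper878.Prim Pool.Agent.Helper878.Skew Pool.Agent.Helper878.PrimMain

/-! ### the injective endomorphism -/

section words
variable {G : Type*} [Group G]

/-- the image of `x` -/
def al1 (x y : G) : G :=
  cj x (PT x y x) * (cj (x * x * x) (PT x y x))⁻¹ * (PT x y x)⁻¹ * x
/-- the image of `y` -/
def al2 (x y : G) : G :=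
  (cj x (PT x y x))⁻¹ * (cj (y * x) (PT x y x))⁻¹ * cj (x * x) (PT x y x)
    * cj (x * y * x) (PT x y x) * (PT x y y)⁻¹ * y
/-- the conjugating element -/
def nn (x y : G) : G :=
  cj y⁻¹ (PT x y y) * cj x (PT x y x) * (cj (x * y⁻¹) (PT x y x))⁻¹ * (PT x y x)⁻¹
    * cj y⁻¹ (PT x y x)

variable {H : Type*} [Group H] (f : G →* H)
theorem map_al1 (a b : G) : f (al1 a b) = al1 (f a) (f b) := by simp [al1, map_PT, map_cj]
theorem map_al2 (a b : G) : f (al2 a b) = al2 (f a) (f b) := by simp [al2, map_PT, map_cj]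
theorem map_nn (a b : G) : f (nn a b) = nn (f a) (f b) := by simp [nn, map_PT, map_cj]

end words

section aff
variable {Λ : Type*} [Ring Λ] {Γ : Subgroup Λˣ}

theorem al1_tr {x y : Aff Γ} {p : Λ} (hp : PT x y x = tr p) :
    al1 x y = tr ((x.c - x.c * x.c * x.c - 1) * p) * x := by
  simp only [al1, hp, cj_tr, tr_inv, tr_mul, mul_c]
  congr 2; noncomm_ring
theorem al2_tr {x y : Aff Γ} {p q : Λ} (hp : PT x y x = tr p) (hq : PT x y y = tr q) :
    al2 x y = tr ((-x.c - y.c * x.c + x.c * x.c + x.c * y.c * x.c) * p - q) * y := by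
  simp only [al2, hp, hq, cj_tr, tr_inv, tr_mul, mul_c]
  congr 2; noncomm_ring
theorem nn_tr {x y : Aff Γ} {p q : Λ} (hp : PT x y x = tr p) (hq : PT x y y = tr q) :
    nn x y = tr (y.ci * q + (x.c - x.c * y.ci - 1 + y.ci) * p) := by
  simp only [nn, hp, hq, cj_tr, tr_inv, tr_mul, mul_c, inv_c]
  congr 1; noncomm_ring

/-- the relation between the values of `π_x` and `π_y` -/
theorem rel {g k : Λ} (h : g * k = -(k * g)) (h3 : (3 : Λ) = 0) (a b : Λ) :
    (1 + k) * (a - (g - 1) * ((1 + k) * a + (1 + g) * b)) +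
      (1 + g) * (b - (k - 1) * ((1 + k) * a + (1 + g) * b)) = 0 := by
  have h1 : ∀ w, g * (k * w) = -(k * (g * w)) := by
    intro w; rw [← mul_assoc, h, neg_mul, mul_assoc]
  have e2 : ∀ w : Λ, (-3 : ℤ) • w = 0 := by
    intro w; rw [zsmul_eq_mul]; simp [h3]
  simp only [mul_add, add_mul, mul_sub, sub_mul, mul_neg, neg_mul, mul_assoc, mul_one, one_mul,
    h1, h, neg_neg]
  abel_nf
  simp [e2, h3]

/-- the identity behind `α(h) = n⁻¹ x n` -/
theorem al_ring {g k ki p q : Λ} (h : g * k = -(k * g)) (hi : g * ki = -(ki * g))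
    (hk' : ki * k = 1) (h3 : (3 : Λ) = 0) (hr : (1 + k) * p + (1 + g) * q = 0) :
    -(((g - g * g * g - 1) * p + p) + ki * (((-g - k * g + g * g + g * k * g) * p - q) + q))
      + (g - g * g * g - 1) * p
      = -(ki * q + (g - g * ki - 1 + ki) * p) + g * (ki * q + (g - g * ki - 1 + ki) * p) := by
  have h1 : ∀ w, g * (k * w) = -(k * (g * w)) := by
    intro w; rw [← mul_assoc, h, neg_mul, mul_assoc]
  have h2 : ∀ w, g * (ki * w) = -(ki * (g * w)) := by
    intro w; rw [← mul_assoc, hi, neg_mul, mul_assoc]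
  have h5 : ∀ w, ki * (k * w) = w := by
    intro w; rw [← mul_assoc, hk', one_mul]
  have e2 : ∀ w : Λ, (-3 : ℤ) • w = 0 := by
    intro w; rw [zsmul_eq_mul]; simp [h3]
  have hr2 : ki * ((1 + k) * p + (1 + g) * q) = 0 := by rw [hr, mul_zero]
  have key : (-(((g - g * g * g - 1) * p + p) + ki * (((-g - k * g + g * g + g * k * g) * p - q) + q))
      + (g - g * g * g - 1) * p)
      - (-(ki * q + (g - g * ki - 1 + ki) * p) + g * (ki * q + (g - g * ki - 1 + ki) * p))
      - ki * ((1 + k) * p + (1 + g) * q) = 0 := by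
    simp only [mul_add, add_mul, mul_sub, sub_mul, mul_neg, neg_mul, mul_assoc, mul_one, one_mul,
      h1, h, h2, hi, h5, neg_neg]
    abel_nf
    simp [e2, h3]
  rw [hr2, sub_zero, sub_eq_zero] at key
  exact key

/-- the shift conditions for `α` -/
theorem al_cond {g k p q : Λ} (h : g * k = -(k * g)) (hr : (1 + k) * p + (1 + g) * q = 0) :
    (1 + k) * ((g - g * g * g - 1) * p) +
      (1 + g) * ((-g - k * g + g * g + g * k * g) * p - q) = 0 := by
  have h1 : ∀ w, g * (k * w) = -(k * (g * w)) := by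
    intro w; rw [← mul_assoc, h, neg_mul, mul_assoc]
  have key : (1 + k) * ((g - g * g * g - 1) * p) +
      (1 + g) * ((-g - k * g + g * g + g * k * g) * p - q) + ((1 + k) * p + (1 + g) * q) = 0 := by
    simp only [mul_add, add_mul, mul_sub, sub_mul, mul_neg, neg_mul, mul_assoc, mul_one, one_mul,
      h1, h, neg_neg]
    abel
  rw [hr, add_zero] at key
  exact key

/-- the endomorphism sends `h` to a conjugate of `x` -/
theorem al_h (hΓ : ∀ a b : Aff Γ, a.c * b.c = b.c * a.c ∨ a.c * b.c = -(b.c * a.c))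
    (h3 : (3 : Λ) = 0) (x y : Aff Γ) :
    hw (al1 x y) (al2 x y) = (nn x y)⁻¹ * x * nn x y := by
  rcases hΓ x y with h | h
  · have h1 : ∀ t, PT x y t = 1 := fun t => PT_comm h
    have e1 : al1 x y = x := by simp [al1, h1, cj]
    have e2 : al2 x y = y := by simp [al2, h1, cj]
    rw [e1, e2]
    simp [hw, nn, h1, cj]
  · obtain ⟨p, hp, hp'⟩ : ∃ n, PT x y x = tr n ∧
      n = x.v - (x.c - 1) * ((1 + y.c) * x.v + (1 + x.c) * y.v) := ⟨_, PT_anti h3 h x, rfl⟩
    obtain ⟨q, hq, hq'⟩ : ∃ n, PT x y y = tr n ∧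
      n = y.v - (y.c - 1) * ((1 + y.c) * x.v + (1 + x.c) * y.v) := ⟨_, PT_anti h3 h y, rfl⟩
    have hr : (1 + y.c) * p + (1 + x.c) * q = 0 := by rw [hp', hq']; exact rel h h3 _ _
    have s1 : ∀ t γ, PT (tr ((x.c - x.c * x.c * x.c - 1) * p) * x)
        (tr ((-x.c - y.c * x.c + x.c * x.c + x.c * y.c * x.c) * p - q) * y) (tr γ * t)
          = tr γ * PT x y t :=
      fun t γ => PT_shift h3 h (al_cond h hr) t γ
    rw [al1_tr hp, al2_tr hp hq, nn_tr hp hq]
    rw [hw_anti (by rw [s1, hp, tr_mul]) (by rw [s1, hq, tr_mul])]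
    have hyci : x.c * y.ci = -(y.ci * x.c) := id_yi h (c_mul_ci y) (ci_mul_c y)
    have key := al_ring h hyci (ci_mul_c y) h3 hr
    apply ext_c
    · simp
    · simp only [mul_v, mul_c, tr_v, tr_c, tr_ci, inv_v, one_mul, tr_mul_ci, inv_c]
      rw [← add_assoc, key]
      noncomm_ring

/-- triples with equal linear parts and a linear relation between the vector parts -/
def Lsub (a b : Λ) : Subgroup (Aff Γ × Aff Γ × Aff Γ) where
  carrier := {p | p.1.u = p.2.1.u ∧ p.1.u = p.2.2.u ∧ p.1.v = p.2.1.v * a + p.2.2.v * b}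
  one_mem' := ⟨rfl, rfl, by simp⟩
  mul_mem' := by
    rintro ⟨p, q, r⟩ ⟨p', q', r'⟩ ⟨hu1, hu2, h1⟩ ⟨hu1', hu2', h1'⟩
    simp only at hu1 hu2 h1 hu1' hu2' h1'
    refine ⟨?_, ?_, ?_⟩
    · change p.u * p'.u = q.u * q'.u
      rw [hu1, hu1']
    · change p.u * p'.u = r.u * r'.u
      rw [hu2, hu2']
    · change p.v + p.c * p'.v = (q.v + q.c * q'.v) * a + (r.v + r.c * r'.v) * b
      have e1 : q.c = p.c := by simp only [Aff.c, hu1]
      have e2 : r.c = p.c := by simp only [Aff.c, hu2]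
      rw [h1, h1', e1, e2]; noncomm_ring
  inv_mem' := by
    rintro ⟨p, q, r⟩ ⟨hu1, hu2, h1⟩
    simp only at hu1 hu2 h1
    refine ⟨?_, ?_, ?_⟩
    · change p.u⁻¹ = q.u⁻¹
      rw [hu1]
    · change p.u⁻¹ = r.u⁻¹
      rw [hu2]
    · change -(p.ci * p.v) = -(q.ci * q.v) * a + -(r.ci * r.v) * b
      have e1 : q.ci = p.ci := by simp only [Aff.ci, hu1]
      have e2 : r.ci = p.ci := by simp only [Aff.ci, hu2]
      rw [h1, e1, e2]; noncomm_ring

/-- linearity of word values in the vector parts -/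
theorem lin {g k : Γ} (f : Fin 2 → Aff Γ) (h0 : (f 0).u = g) (h1 : (f 1).u = k)
    (w : FreeGroup (Fin 2)) :
    (FreeGroup.lift f w).v =
      (FreeGroup.lift (![⟨g, 1⟩, ⟨k, 0⟩] : Fin 2 → Aff Γ) w).v * (f 0).v +
      (FreeGroup.lift (![⟨g, 0⟩, ⟨k, 1⟩] : Fin 2 → Aff Γ) w).v * (f 1).v := by
  let F : FreeGroup (Fin 2) →* Aff Γ × Aff Γ × Aff Γ :=
    FreeGroup.lift (fun j => (f j, (![⟨g, 1⟩, ⟨k, 0⟩] : Fin 2 → Aff Γ) j,
      (![⟨g, 0⟩, ⟨k, 1⟩] : Fin 2 → Aff Γ) j))
  have h2 : F.range ≤ Lsub (f 0).v (f 1).v := by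
    rw [FreeGroup.range_lift_eq_closure, Subgroup.closure_le]
    rintro _ ⟨j, rfl⟩
    fin_cases j
    · refine ⟨h0, h0, ?_⟩
      change (f 0).v = 1 * (f 0).v + 0 * (f 1).v
      simp
    · refine ⟨h1, h1, ?_⟩
      change (f 1).v = 0 * (f 0).v + 1 * (f 1).v
      simp
  have h3 := (h2 ⟨w, rfl⟩).2.2
  have e1 : (F w).1 = FreeGroup.lift f w := by
    have : (MonoidHom.fst _ _).comp F = FreeGroup.lift f := FreeGroup.ext_hom _ _ (fun j => by simp [F])
    exact DFunLike.congr_fun this w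
  have e2 : (F w).2.1 = FreeGroup.lift (![⟨g, 1⟩, ⟨k, 0⟩] : Fin 2 → Aff Γ) w := by
    have : (MonoidHom.fst _ _).comp ((MonoidHom.snd _ _).comp F) =
      FreeGroup.lift (![⟨g, 1⟩, ⟨k, 0⟩] : Fin 2 → Aff Γ) := FreeGroup.ext_hom _ _ (fun j => by simp [F])
    exact DFunLike.congr_fun this w
  have e3 : (F w).2.2 = FreeGroup.lift (![⟨g, 0⟩, ⟨k, 1⟩] : Fin 2 → Aff Γ) w := by
    have : (MonoidHom.snd _ _).comp ((MonoidHom.snd _ _).comp F) =
      FreeGroup.lift (![⟨g, 0⟩, ⟨k, 1⟩] : Fin 2 → Aff Γ) := FreeGroup.ext_hom _ _ (fun j => by simp [F])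
    exact DFunLike.congr_fun this w
  rw [e1, e2, e3] at h3
  exact h3

theorem inj_ring {g k D E : Λ} [NoZeroDivisors Λ] (h : g * k = -(k * g)) (h3 : (3 : Λ) = 0)
    (hg1 : g - 1 ≠ 0) (hg2 : 1 - g * g ≠ 0) (hg0 : g ≠ 0)
    (hE1 : D * (g - 1) + E * (k - 1) = 0)
    (hE2 : D * ((g - g * g * g - 1) * (0 - (g - 1) * ((1 + k) * 0 + (1 + g) * 1)) + 0) +
      E * ((-g - k * g + g * g + g * k * g) * (0 - (g - 1) * ((1 + k) * 0 + (1 + g) * 1))
        - (1 - (k - 1) * ((1 + k) * 0 + (1 + g) * 1)) + 1) = 0) : D = 0 ∧ E = 0 := by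
  have h1 : ∀ w, g * (k * w) = -(k * (g * w)) := by
    intro w; rw [← mul_assoc, h, neg_mul, mul_assoc]
  have e2 : ∀ w : Λ, (-3 : ℤ) • w = 0 := by
    intro w; rw [zsmul_eq_mul]; simp [h3]
  have key : E * (g * (1 - g * g)) = 0 := by
    have e : (D * ((g - g * g * g - 1) * (0 - (g - 1) * ((1 + k) * 0 + (1 + g) * 1)) + 0) +
      E * ((-g - k * g + g * g + g * k * g) * (0 - (g - 1) * ((1 + k) * 0 + (1 + g) * 1))
        - (1 - (k - 1) * ((1 + k) * 0 + (1 + g) * 1)) + 1)) -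
      (D * (g - 1) + E * (k - 1)) * ((1 + g) * (1 - g * (1 - g * g))) - E * (g * (1 - g * g)) = 0 := by
      simp only [mul_add, add_mul, mul_sub, sub_mul, mul_neg, neg_mul, mul_assoc, mul_one, one_mul,
        h1, h, neg_neg, mul_zero]
      abel_nf
      simp [e2, h3]
    rw [hE1, hE2, zero_mul, sub_zero, zero_sub, neg_eq_zero] at e
    exact e
  have hE : E = 0 := by
    rcases mul_eq_zero.mp key with h | h
    · exact h
    · rcases mul_eq_zero.mp h with h | h
      · exact absurd h hg0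
      · exact absurd h hg2
  refine ⟨?_, hE⟩
  rw [hE, zero_mul, add_zero] at hE1
  rcases mul_eq_zero.mp hE1 with h | h
  · exact h
  · exact absurd h hg1

end aff

theorem two_ne {Λ : Type*} [Ring Λ] [Nontrivial Λ] (h3 : (3 : Λ) = 0) : ∀ k : Λ, k = -k → k = 0 := by
  intro k hk
  have e2 : k + k = 0 := by nth_rewrite 2 [hk]; exact add_neg_cancel k
  have e3 : k + k + k = 0 := by
    have : k + k + k = 3 * k := by noncomm_ring
    rw [this, h3, zero_mul]
  rw [e2, zero_add] at e3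
  exact e3

theorem nz_ring {Λ : Type*} [Ring Λ] [NoZeroDivisors Λ] [Nontrivial Λ] {g k : Λ}
    (hgk : g * k = -(k * g)) (h3 : (3 : Λ) = 0) (hk0 : k ≠ 0) :
    g - 1 ≠ 0 ∧ 1 - g * g ≠ 0 := by
  have hg1 : g - 1 ≠ 0 := by
    intro h0
    rw [sub_eq_zero] at h0
    rw [h0, one_mul, mul_one] at hgk
    exact hk0 (two_ne h3 _ hgk)
  refine ⟨hg1, ?_⟩
  intro h0
  have h6 : (g - 1) * (g + 1) = 0 := by
    have : (g - 1) * (g + 1) = -(1 - g * g) := by
      noncomm_ring
    rw [this, h0, neg_zero]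
  rcases mul_eq_zero.mp h6 with h7 | h7
  · exact hg1 h7
  · have h8 : g = -1 := eq_neg_of_add_eq_zero_left h7
    rw [h8, neg_mul, one_mul, mul_neg, mul_one, neg_neg] at hgk
    exact hk0 (two_ne h3 _ hgk.symm)

theorem inj (w : FreeGroup (Fin 2))
    (hw : ∀ f : Fin 2 → TT, FreeGroup.lift (![al1 (f 0) (f 1), al2 (f 0) (f 1)] : Fin 2 → TT) w = 1)
    (f : Fin 2 → TT) : FreeGroup.lift f w = 1 := by
  rcases hGam (f 0) (f 1) with h | h
  · have h1 : ∀ t, PT (f 0) (f 1) t = 1 := fun t => PT_comm h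
    have e : (![al1 (f 0) (f 1), al2 (f 0) (f 1)] : Fin 2 → TT) = f := by
      funext j
      fin_cases j
      · simp [al1, h1, cj]
      · simp [al2, h1, cj]
    have := hw f
    rw [e] at this
    exact this
  · set g := (f 0).u with hg
    set k := (f 1).u with hk
    set f1 : Fin 2 → TT := ![⟨g, 1⟩, ⟨k, 0⟩] with hf1
    set f2 : Fin 2 → TT := ![⟨g, 0⟩, ⟨k, 1⟩] with hf2
    set D := (FreeGroup.lift f1 w).v with hD
    set E := (FreeGroup.lift f2 w).v with hE
    have hgk : ((g : Lamˣ) : Lam) * ((k : Lamˣ) : Lam) = -(((k : Lamˣ) : Lam) * ((g : Lamˣ) : Lam)) := h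
    have hu1 : ∀ (a b : Lam), (FreeGroup.lift (![⟨g, a⟩, ⟨k, b⟩] : Fin 2 → TT) w).u =
        (FreeGroup.lift f w).u := by
      intro a b
      apply lift_u
      intro j; fin_cases j <;> rfl
    -- the linear part is trivial
    have hal2 := hw f2
    have hc2 : (f2 0).c * (f2 1).c = -((f2 1).c * (f2 0).c) := hgk
    have hp := PT_anti three hc2 (f2 0)
    have hq := PT_anti three hc2 (f2 1)
    have e2 := lin (![al1 (f2 0) (f2 1), al2 (f2 0) (f2 1)] : Fin 2 → TT) (g := g) (k := k)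
      (by
        change (al1 (f2 0) (f2 1)).u = g
        rw [al1_tr hp, mul_u]
        change 1 * g = g
        rw [one_mul])
      (by
        change (al2 (f2 0) (f2 1)).u = k
        rw [al2_tr hp hq, mul_u]
        change 1 * k = k
        rw [one_mul]) w
    have hu : (FreeGroup.lift f w).u = 1 := by
      rw [← hu1 0 1]
      have : (FreeGroup.lift (![al1 (f2 0) (f2 1), al2 (f2 0) (f2 1)] : Fin 2 → TT) w).u
        = (FreeGroup.lift (![⟨g, 0⟩, ⟨k, 1⟩] : Fin 2 → TT) w).u := by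
        apply lift_u
        intro j; fin_cases j
        · change (al1 (f2 0) (f2 1)).u = g
          rw [al1_tr hp, mul_u]
          change 1 * g = g
          rw [one_mul]
        · change (al2 (f2 0) (f2 1)).u = k
          rw [al2_tr hp hq, mul_u]
          change 1 * k = k
          rw [one_mul]
      rw [← this, hal2]
      rfl
    -- fundamental formula
    have e1 : D * (((g : Lamˣ) : Lam) - 1) + E * (((k : Lamˣ) : Lam) - 1) = 0 := by
      have h1 := lin (![⟨g, ((g : Lamˣ) : Lam) - 1⟩, ⟨k, ((k : Lamˣ) : Lam) - 1⟩] : Fin 2 → TT)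
        (g := g) (k := k) rfl rfl w
      have h2 : FreeGroup.lift (![⟨g, ((g : Lamˣ) : Lam) - 1⟩, ⟨k, ((k : Lamˣ) : Lam) - 1⟩] : Fin 2 → TT) w
          = (tr (1 : Lam))⁻¹ * FreeGroup.lift (![⟨g, 0⟩, ⟨k, 0⟩] : Fin 2 → TT) w * tr (1 : Lam) := by
        have : FreeGroup.lift (![⟨g, ((g : Lamˣ) : Lam) - 1⟩, ⟨k, ((k : Lamˣ) : Lam) - 1⟩] : Fin 2 → TT) =
          (MulAut.conj (tr (1 : Lam))⁻¹).toMonoidHom.comp
            (FreeGroup.lift (![⟨g, 0⟩, ⟨k, 0⟩] : Fin 2 → TT)) := by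
          apply FreeGroup.ext_hom
          intro j
          fin_cases j
          · apply ext_c
            · simp
            · simp [sub_eq_neg_add]
          · apply ext_c
            · simp
            · simp [sub_eq_neg_add]
        rw [this]
        simp [MulAut.conj_apply]
      have h3 : (FreeGroup.lift (![⟨g, 0⟩, ⟨k, 0⟩] : Fin 2 → TT) w).v = 0 := by
        have := lin (![⟨g, 0⟩, ⟨k, 0⟩] : Fin 2 → TT) (g := g) (k := k) rfl rfl w
        rw [this]; simp
      have h4 : (FreeGroup.lift (![⟨g, 0⟩, ⟨k, 0⟩] : Fin 2 → TT) w).u = 1 := by rw [hu1, hu]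
      have h5 : FreeGroup.lift (![⟨g, 0⟩, ⟨k, 0⟩] : Fin 2 → TT) w = 1 := by
        ext1
        · exact h4
        · exact h3
      rw [h2, h5, mul_one, inv_mul_cancel] at h1
      exact h1.symm
    obtain ⟨gL, hgL⟩ : ∃ gL : Lam, gL = ((g : Lamˣ) : Lam) := ⟨_, rfl⟩
    obtain ⟨kL, hkL⟩ : ∃ kL : Lam, kL = ((k : Lamˣ) : Lam) := ⟨_, rfl⟩
    have e3 : D * ((gL - gL * gL * gL - 1) * (0 - (gL - 1) * ((1 + kL) * 0 + (1 + gL) * 1)) + 0) +
      E * ((-gL - kL * gL + gL * gL + gL * kL * gL) * (0 - (gL - 1) *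
        ((1 + kL) * 0 + (1 + gL) * 1))
        - (1 - (kL - 1) * ((1 + kL) * 0 + (1 + gL) * 1))
        + 1) = 0 := by
      rw [hal2] at e2
      change (0 : Lam) = D * (al1 (f2 0) (f2 1)).v + E * (al2 (f2 0) (f2 1)).v at e2
      rw [al1_tr hp, al2_tr hp hq, tr_mul_v, tr_mul_v] at e2
      subst hgL
      subst hkL
      exact e2.symm
    have hk0 : kL ≠ 0 := by rw [hkL]; exact Units.ne_zero _
    have hg0 : gL ≠ 0 := by rw [hgL]; exact Units.ne_zero _
    rw [← hgL, ← hkL] at hgk e1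
    obtain ⟨hg1, hg2⟩ := nz_ring hgk three hk0
    obtain ⟨hD0, hE0⟩ := inj_ring hgk three hg1 hg2 hg0 e1 e3
    have e6 := lin f (g := g) (k := k) rfl rfl w
    ext1
    · exact hu
    · rw [e6]
      change D * _ + E * _ = 0
      rw [hD0, hE0]; simp

/-- There is a variety of groups (given by laws), a rank r, and an element h of the relatively free group of rank r that is not primitive, together with an injective endomorphism of that group sending h to a primitive element. -/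
theorem result :
    ∃ (W : Set (FreeGroup ℕ)) (r : ℕ) (V : Subgroup (FreeGroup (Fin r))),
      V = Subgroup.closure
        {x : FreeGroup (Fin r) | ∃ (f : ℕ → FreeGroup (Fin r)) (w : FreeGroup ℕ),
          w ∈ W ∧ FreeGroup.lift f w = x} ∧
      ∃ (h : FreeGroup (Fin r)) (g : Fin r → FreeGroup (Fin r)),
        (¬ ∃ (a b : Fin r → FreeGroup (Fin r)) (i : Fin r),
            (∀ j : Fin r, (FreeGroup.lift b (a j))⁻¹ * FreeGroup.of j ∈ V) ∧
            (∀ j : Fin r, (FreeGroup.lift a (b j))⁻¹ * FreeGroup.of j ∈ V) ∧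
            (a i)⁻¹ * h ∈ V) ∧
        (∀ w : FreeGroup (Fin r), FreeGroup.lift g w ∈ V → w ∈ V) ∧
        (∃ (a b : Fin r → FreeGroup (Fin r)) (i : Fin r),
            (∀ j : Fin r, (FreeGroup.lift b (a j))⁻¹ * FreeGroup.of j ∈ V) ∧
            (∀ j : Fin r, (FreeGroup.lift a (b j))⁻¹ * FreeGroup.of j ∈ V) ∧
            (a i)⁻¹ * FreeGroup.lift g h ∈ V) := by
  refine ⟨laws, 2, K 2, ?_, hw (FreeGroup.of 0) (FreeGroup.of 1),
    ![al1 (FreeGroup.of 0) (FreeGroup.of 1), al2 (FreeGroup.of 0) (FreeGroup.of 1)], ?_, ?_, ?_⟩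
  · have h := instances_eq 2
    have h2 : {x : FreeGroup (Fin 2) | ∃ (f : ℕ → FreeGroup (Fin 2)) (w : FreeGroup ℕ),
          w ∈ laws ∧ FreeGroup.lift f w = x} = (K 2 : Set (FreeGroup (Fin 2))) := by
      rw [← h]
      ext x
      constructor
      · rintro ⟨f, w, hw, rfl⟩; exact ⟨w, hw, f, rfl⟩
      · rintro ⟨w, hw, f, rfl⟩; exact ⟨f, w, hw, rfl⟩
    rw [h2, Subgroup.closure_eq]
  · rintro ⟨a, b, i, ha, hb, hi⟩
    refine NP a b ?_ i ?_
    · intro j f
      have := hb j f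
      rw [map_mul, map_inv, inv_mul_eq_one, FreeGroup.lift_apply_of] at this
      exact this
    · intro f
      have := hi f
      rw [map_mul, map_inv, inv_mul_eq_one, map_hw, FreeGroup.lift_apply_of, FreeGroup.lift_apply_of] at this
      exact this
  · intro w hw
    apply inj
    intro f
    have := hw f
    rw [lift_lift] at this
    convert this using 2
    congr 1
    funext j
    fin_cases j
    · change _ = FreeGroup.lift f (al1 (FreeGroup.of 0) (FreeGroup.of 1))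
      rw [map_al1, FreeGroup.lift_apply_of, FreeGroup.lift_apply_of]; rfl
    · change _ = FreeGroup.lift f (al2 (FreeGroup.of 0) (FreeGroup.of 1))
      rw [map_al2, FreeGroup.lift_apply_of, FreeGroup.lift_apply_of]; rfl
  · set n : FreeGroup (Fin 2) := nn (FreeGroup.of 0) (FreeGroup.of 1) with hn
    have h1 : FreeGroup.lift (fun j : Fin 2 => n⁻¹ * FreeGroup.of j * n) =
        (MulAut.conj n⁻¹).toMonoidHom := FreeGroup.ext_hom _ _ (fun j => by simp)
    have h2 : FreeGroup.lift (fun j : Fin 2 => n * FreeGroup.of j * n⁻¹) =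
        (MulAut.conj n).toMonoidHom := FreeGroup.ext_hom _ _ (fun j => by simp)
    refine ⟨fun j => n⁻¹ * FreeGroup.of j * n, fun j => n * FreeGroup.of j * n⁻¹, 0, ?_, ?_, ?_⟩
    · intro j
      rw [h2]
      have : (MulAut.conj n).toMonoidHom (n⁻¹ * FreeGroup.of j * n) = FreeGroup.of j := by
        simp [MulAut.conj_apply, mul_assoc]
      rw [this, inv_mul_cancel]
      exact one_mem _
    · intro j
      rw [h1]
      have : (MulAut.conj n⁻¹).toMonoidHom (n * FreeGroup.of j * n⁻¹) = FreeGroup.of j := by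
        simp [MulAut.conj_apply, mul_assoc]
      rw [this, inv_mul_cancel]
      exact one_mem _
    · intro f
      rw [map_mul, map_inv, inv_mul_eq_one, lift_lift, map_hw]
      rw [FreeGroup.lift_apply_of, FreeGroup.lift_apply_of]
      have e1 : FreeGroup.lift f (al1 (FreeGroup.of 0) (FreeGroup.of 1)) = al1 (f 0) (f 1) := by
        rw [map_al1, FreeGroup.lift_apply_of, FreeGroup.lift_apply_of]
      have e2 : FreeGroup.lift f (al2 (FreeGroup.of 0) (FreeGroup.of 1)) = al2 (f 0) (f 1) := by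
        rw [map_al2, FreeGroup.lift_apply_of, FreeGroup.lift_apply_of]
      have e3 : FreeGroup.lift f n = nn (f 0) (f 1) := by
        rw [hn, map_nn, FreeGroup.lift_apply_of, FreeGroup.lift_apply_of]
      change _ = hw (FreeGroup.lift f (al1 (FreeGroup.of 0) (FreeGroup.of 1)))
        (FreeGroup.lift f (al2 (FreeGroup.of 0) (FreeGroup.of 1)))
      rw [e1, e2, al_h hGam three, map_mul, map_mul, map_inv, e3, FreeGroup.lift_apply_of]

end Pool.Agent.S01649
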