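import Pool.Statements.S01653
import Pool.Agent.Helper29.Forward
import Pool.Agent.Helper29.Backward

set_option autoImplicit false
open Pool Pool.MP_a2b285_al
open Pool.Agent.Helper29

namespace Pool.Agent.S01653

/-- For every m-group G (ℓ-group with an order-reversing involutive automorphism), G is normal-valued (ab ≤ b²a² for a,b ≥ 1) iff G lies in the variety generated by all n-fold products A^n of the abelian m-group variety. -/
theorem result :
  ∀ (G : Type) [Group G] [Lattice G] [MulLeftMono G] [MulRightMono G] (σ : G → G),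
    (∀ x y : G, σ (x * y) = σ x * σ y) → (∀ x y : G, x ≤ y → σ y ≤ σ x) →
    (∀ x : G, σ (σ x) = x) →
    ((∀ a b : G, 1 ≤ a → 1 ≤ b → a * b ≤ b * b * (a * a)) ↔
     ∃ (P : Type) (_ : Group P) (_ : Lattice P) (_ : MulLeftMono P) (_ : MulRightMono P)
       (τ : P → P) (f : P → G),
       (∀ x y : P, τ (x * y) = τ x * τ y) ∧ (∀ x y : P, x ≤ y → τ y ≤ τ x) ∧
       (∀ x : P, τ (τ x) = x) ∧ Function.Surjective f ∧
       (∀ a b : P, f (a * b) = f a * f b ∧ f (a ⊔ b) = f a ⊔ f b ∧
          f (a ⊓ b) = f a ⊓ f b ∧ f (τ a) = σ (f a)) ∧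
       ∀ x y : P, x ≠ y →
         ∃ (K : Type) (_ : Group K) (_ : Lattice K) (_ : MulLeftMono K) (_ : MulRightMono K)
           (ρ : K → K) (h : P → K),
           (∀ u v : K, ρ (u * v) = ρ u * ρ v) ∧ (∀ u v : K, u ≤ v → ρ v ≤ ρ u) ∧
           (∀ u : K, ρ (ρ u) = u) ∧
           (∀ a b : P, h (a * b) = h a * h b ∧ h (a ⊔ b) = h a ⊔ h b ∧
              h (a ⊓ b) = h a ⊓ h b ∧ h (τ a) = ρ (h a)) ∧
           h x ≠ h y ∧
           ∃ n : ℕ, ∃ H : ℕ → Set K, H 0 = {1} ∧ H n = Set.univ ∧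
             ∀ i : ℕ, (1 : K) ∈ H i ∧
               (∀ a ∈ H i, ∀ b ∈ H i, a * b ∈ H i ∧ a⁻¹ ∈ H i ∧ a ⊔ b ∈ H i ∧
                  a ⊓ b ∈ H i ∧ ρ a ∈ H i) ∧
               (∀ a ∈ H i, ∀ b ∈ H i, ∀ c : K, a ≤ c → c ≤ b → c ∈ H i) ∧
               (∀ a ∈ H i, ∀ g : K, g * a * g⁻¹ ∈ H i) ∧
               H i ⊆ H (i + 1) ∧
               (∀ a ∈ H (i + 1), ∀ b ∈ H (i + 1), a * b * a⁻¹ * b⁻¹ ∈ H i)) := by
  intro G _ _ _ _ σ hσ hanti hinv
  constructor
  · intro law
    obtain ⟨P, i1, i2, i3, i4, τ, f, h1, h2, h3, h4, h5, h6⟩ := forward σ law hσ hanti hinv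
    refine ⟨P, i1, i2, i3, i4, τ, f, h1, h2, h3, h4, h5, ?_⟩
    intro x y hxy
    obtain ⟨n, h, h7, h8⟩ := h6 x y hxy
    have hs := MW.series n
    exact ⟨MW n, inferInstance, inferInstance, inferInstance, inferInstance, MW.star, h,
      fun u v => MW.star_mul u v, fun u v huv => MW.star_anti huv, fun u => MW.star_star u,
      h7, h8, n, MW.Hs n, hs.1, hs.2.1, hs.2.2⟩
  · rintro ⟨P, _, _, _, _, τ, f, h1, h2, h3, h4, h5, h6⟩
    -- the law holds in P
    have lawP : ∀ a b : P, 1 ≤ a → 1 ≤ b → a * b ≤ b * b * (a * a) := by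
      intro a b ha hb
      by_contra hcon
      have hne : a * b ⊓ (b * b * (a * a)) ≠ a * b := fun h => hcon (inf_eq_left.mp h)
      obtain ⟨K, _, _, _, _, ρ, h, k1, k2, k3, k4, k5, n, H, H0, Hn, hH⟩ := h6 _ _ hne
      have hK : NV K := by
        refine series_nv n H H0 Hn (fun i => (hH i).1) ?_ ?_ ?_ ?_ ?_ ?_
        · intro i a ha b hb; exact ((hH i).2.1 a ha b hb).1
        · intro i a ha; exact ((hH i).2.1 a ha a ha).2.1
        · intro i a ha b hb; exact ((hH i).2.1 a ha b hb).2.2.1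
        · intro i a ha b hb c h1 h2; exact (hH i).2.2.1 a ha b hb c h1 h2
        · intro i a ha g; exact (hH i).2.2.2.1 a ha g
        · intro i a ha b hb; exact (hH i).2.2.2.2.2 a ha b hb
      apply k5
      have hmul : ∀ a b : P, h (a * b) = h a * h b := fun a b => (k4 a b).1
      have hsup : ∀ a b : P, h (a ⊔ b) = h a ⊔ h b := fun a b => (k4 a b).2.1
      have hinf : ∀ a b : P, h (a ⊓ b) = h a ⊓ h b := fun a b => (k4 a b).2.2.1
      have hone : h 1 = 1 := by
        have := hmul 1 1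
        rw [mul_one] at this
        exact (mul_eq_left.mp this.symm)
      have hle : ∀ {a b : P}, a ≤ b → h a ≤ h b := by
        intro a b hab
        have := hsup a b
        rw [sup_eq_right.mpr hab] at this
        rw [this]; exact le_sup_left
      rw [hinf, hmul, hmul, hmul, hmul, inf_eq_left]
      apply hK
      · rw [← hone]; exact hle ha
      · rw [← hone]; exact hle hb
    intro a b ha hb
    obtain ⟨x, rfl⟩ := h4 a
    obtain ⟨y, rfl⟩ := h4 b
    have hmul : ∀ a b : P, f (a * b) = f a * f b := fun a b => (h5 a b).1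
    have hsup : ∀ a b : P, f (a ⊔ b) = f a ⊔ f b := fun a b => (h5 a b).2.1
    have hone : f 1 = 1 := by
      have := hmul 1 1
      rw [mul_one] at this
      exact (mul_eq_left.mp this.symm)
    have hle : ∀ {a b : P}, a ≤ b → f a ≤ f b := by
      intro a b hab
      have := hsup a b
      rw [sup_eq_right.mpr hab] at this
      rw [this]; exact le_sup_left
    have e1 : f (x ⊔ 1) = f x := by rw [hsup, hone]; exact sup_eq_left.mpr ha
    have e2 : f (y ⊔ 1) = f y := by rw [hsup, hone]; exact sup_eq_left.mpr hb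
    have := hle (lawP (x ⊔ 1) (y ⊔ 1) le_sup_right le_sup_right)
    rw [hmul, hmul, hmul, hmul, e1, e2] at this
    exact this

end Pool.Agent.S01653
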