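import Pool.Statements.S01657
import Pool.Agent.Helper816.HSFinal
import Pool.Agent.Helper733.HS.A6

set_option autoImplicit false
open Pool Pool.MP_a2efaf_al

namespace Pool.Agent.S01657

/-- For every field and numerical semigroup with minimal generators g0<…<ge, the tangent-cone ideal of its semigroup ring needs no more generators than that of the semigroup minimally generated by g0, g0+1, …, min(ge, 2g0−1). -/
theorem result :
    ∀ (k : Type) [Field k] (e : ℕ) (g : Fin (e + 1) → ℕ),
      StrictMono g → 0 < g 0 →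
      Finset.univ.gcd g = 1 →
      (∀ i, g i ∉ AddSubmonoid.closure (g '' {j | j ≠ i})) →
      ∀ (m : ℕ), m = min (g (Fin.last e)) (2 * g 0 - 1) + 1 - g 0 →
      ∀ (IΓ : Ideal (MvPolynomial (Fin (e + 1)) k)) (IT : Ideal (MvPolynomial (Fin m) k)),
        IΓ = Ideal.span {p | ∃ f ∈ RingHom.ker (MvPolynomial.aeval
              (fun i : Fin (e + 1) => (Polynomial.X : Polynomial k) ^ g i)),
              ∃ n : ℕ, p = MvPolynomial.homogeneousComponent n f ∧
                ∀ n' < n, MvPolynomial.homogeneousComponent n' f = 0} →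
        IT = Ideal.span {p | ∃ f ∈ RingHom.ker (MvPolynomial.aeval
              (fun j : Fin m => (Polynomial.X : Polynomial k) ^ (g 0 + (j : ℕ)))),
              ∃ n : ℕ, p = MvPolynomial.homogeneousComponent n f ∧
                ∀ n' < n, MvPolynomial.homogeneousComponent n' f = 0} →
        ∀ t : Finset (MvPolynomial (Fin m) k), Ideal.span (t : Set (MvPolynomial (Fin m) k)) = IT →
          ∃ s : Finset (MvPolynomial (Fin (e + 1)) k), s.card ≤ t.card ∧
            Ideal.span (s : Set (MvPolynomial (Fin (e + 1)) k)) = IΓ := by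
  intro k _ e g hg h0 hgcd hmin m hm IΓ IT hΓ hT t ht
  refine Pool.Agent.Helper816.HSFinal.concl k e g hg h0 (fun he => ?_) m hm IΓ IT hΓ hT t ht
  obtain ⟨S, h1, h2⟩ := Pool.Agent.Helper733.HS.SG.main_bound ⟨he, hg, h0, hgcd, hmin⟩ k
  exact ⟨S, h2, h1⟩

end Pool.Agent.S01657
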