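import Pool.Statements.S01666
import Pool.Agent.Helper928.AltFinal

set_option autoImplicit false
open Pool Pool.MP_a47eec_al

namespace Pool.Agent.S01666

open Pool.Agent.Helper928.AltSuper Pool.Agent.Helper928.AltData Pool.Agent.Helper928.AltSound
  Pool.Agent.Helper928.AltIdent Pool.Agent.Helper928.StdGraded Pool.Agent.Helper928.AltEnv
  Pool.Agent.Helper928.AltFinal

abbrev U := FreeNonUnitalNonAssocAlgebra ℚ ℕ

/-- first identity -/
noncomputable def f : U := fE (fun i : Fin 5 => FreeNonUnitalNonAssocAlgebra.of ℚ (i : ℕ))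
/-- second identity -/
noncomputable def g : U := fE (fun i : Fin 5 => FreeNonUnitalNonAssocAlgebra.of ℚ (5 + (i : ℕ)))
/-- third identity -/
noncomputable def h : U := hE (fun i : Fin 9 => FreeNonUnitalNonAssocAlgebra.of ℚ (10 + (i : ℕ)))

section
variable {A : Type} [NonUnitalNonAssocRing A] [Module ℚ A] [IsScalarTower ℚ A A] [SMulCommClass ℚ A A]

lemma ev (ψ : ℕ → A) (P : U) :
    P.coeff.sum (fun m c => c • FreeMagma.lift ψ m) = FreeNonUnitalNonAssocAlgebra.lift ℚ ψ P := rfl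

lemma ev_f (ψ : ℕ → A) : f.coeff.sum (fun m c => c • FreeMagma.lift ψ m) = fE (fun i : Fin 5 => ψ i) := by
  rw [ev, f, map_fE]
  simp only [FreeNonUnitalNonAssocAlgebra.lift_of_apply]

lemma ev_g (ψ : ℕ → A) : g.coeff.sum (fun m c => c • FreeMagma.lift ψ m) = fE (fun i : Fin 5 => ψ (5 + i)) := by
  rw [ev, g, map_fE]
  simp only [FreeNonUnitalNonAssocAlgebra.lift_of_apply]

lemma ev_h (ψ : ℕ → A) : h.coeff.sum (fun m c => c • FreeMagma.lift ψ m) = hE (fun i : Fin 9 => ψ (10 + i)) := by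
  rw [ev, h, map_hE]
  simp only [FreeNonUnitalNonAssocAlgebra.lift_of_apply]
end

/-- inclusion of the envelope -/
noncomputable def incl : BS →ₙₐ[ℚ] R := NonUnitalSubalgebraClass.subtype BS

lemma incl_ph (n : ℕ) (hn : n < 19) : incl (ph n) = tl X (Ex [⟨n, hn⟩]) := ph_coe n hn

lemma incl_f : incl (fE (fun i : Fin 5 => ph i)) = tl F5 (Ex [0, 1, 2, 3, 4]) := by
  rw [map_fE]
  have h1 := fE_eval (fun i : Fin 5 => (⟨(i : ℕ), by omega⟩ : Fin 19))
  have h2 : (fun i : Fin 5 => incl (ph i)) = fun i : Fin 5 => tl X (Ex [(⟨(i : ℕ), by omega⟩ : Fin 19)]) := by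
    funext i
    exact incl_ph i _
  rw [h2, h1]
  rfl

lemma incl_g : incl (fE (fun i : Fin 5 => ph (5 + i))) = tl F5 (Ex [5, 6, 7, 8, 9]) := by
  rw [map_fE]
  have h1 := fE_eval (fun i : Fin 5 => (⟨5 + (i : ℕ), by omega⟩ : Fin 19))
  have h2 : (fun i : Fin 5 => incl (ph (5 + i))) = fun i : Fin 5 => tl X (Ex [(⟨5 + (i : ℕ), by omega⟩ : Fin 19)]) := by
    funext i
    exact incl_ph (5 + i) _
  rw [h2, h1]
  rfl

lemma incl_h : incl (hE (fun i : Fin 9 => ph (10 + i))) =
    (Nat.factorial 9 : ℤ) • tl (Hs 8) (Ex [10, 11, 12, 13, 14, 15, 16, 17, 18]) := by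
  rw [map_hE]
  have h1 := hE_eval (fun i : Fin 9 => (⟨10 + (i : ℕ), by omega⟩ : Fin 19))
  have h2 : (fun i : Fin 9 => incl (ph (10 + i))) = fun i : Fin 9 => tl X (Ex [(⟨10 + (i : ℕ), by omega⟩ : Fin 19)]) := by
    funext i
    exact incl_ph (10 + i) _
  rw [h2, h1]
  rfl

lemma Ex_top : Ex [0, 1, 2, 3, 4] * (Ex [5, 6, 7, 8, 9] * Ex [10, 11, 12, 13, 14, 15, 16, 17, 18]) = top ℚ 19 := by
  rw [← Ex_append, ← Ex_append]
  have h1 : ([0, 1, 2, 3, 4] ++ ([5, 6, 7, 8, 9] ++ [10, 11, 12, 13, 14, 15, 16, 17, 18]) : List (Fin 19)) =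
    List.ofFn (fun i : Fin 19 => i) := by decide
  rw [h1, Ex_ofFn]
  rfl

lemma top_ne : top ℚ 19 ≠ 0 := by
  intro h0
  have h1 := φ_top ℚ 19
  rw [h0, map_zero] at h1
  exact absurd h1 (by norm_num)

lemma tl_nil (u : Lam) : tl [] u = 0 := by
  funext k
  show coef k [] • u = 0
  rw [coef, zero_smul]

theorem key : (fE (fun i : Fin 5 => ph i) * fE (fun i : Fin 5 => ph (5 + i))) * hE (fun i : Fin 9 => ph (10 + i)) ≠
    fE (fun i : Fin 5 => ph i) * (fE (fun i : Fin 5 => ph (5 + i)) * hE (fun i : Fin 9 => ph (10 + i))) := by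
  intro hyp
  have h1 := congrArg incl hyp
  rw [map_mul, map_mul, map_mul, map_mul, incl_f, incl_g, incl_h, tl_mul okF5 okF5,
    tl_congr (fun k _ => mul_FF k), tl_nil, zero_mul, mul_smul_comm, tl_mul okF5 (okHs 8 le_rfl),
    tl_congr (fun k _ => mul_FH k), mul_smul_comm, tl_mul okF5 okFH, Ex_top] at h1
  have h2 := congrFun h1 (⟨73, by decide⟩ : Fin 74)
  have h3 : (0 : Lam) = (Nat.factorial 9 : ℤ) • (coef 73 (mulL F5 FH) • top ℚ 19) := h2
  rw [mul_FFH, smul_smul, ← Int.cast_smul_eq_zsmul ℚ] at h3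
  have h4 := smul_eq_zero.mp h3.symm
  rcases h4 with h4 | h4
  · exact absurd h4 (by norm_num [Nat.factorial])
  · exact top_ne h4

/-- the identity as a linear equivalence -/
noncomputable def e0 : (Matrix (Fin 2) (Fin 2) ℚ × Matrix (Fin 2) (Fin 2) ℚ) ≃ₗ[ℚ] Zorn where
  toFun x := x
  invFun x := x
  map_add' _ _ := rfl
  map_smul' _ _ := rfl
  left_inv _ := rfl
  right_inv _ := rfl

/-- The negation of the preceding statement: Over a char-0 field, any three identities of the split octonions, evaluated in any alternative algebra at any substitution, satisfy (fg)h = f(gh); i.e. the ideal of such identities in the free alternative algebra is associative. -/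
theorem result :
    ¬ (∀ (F : Type) [Field F] [CharZero F]
    (C : Type) [NonUnitalNonAssocRing C] [Module F C] [IsScalarTower F C C] [SMulCommClass F C C]
    (e : (Matrix (Fin 2) (Fin 2) F × Matrix (Fin 2) (Fin 2) F) ≃ₗ[F] C),
    (∀ x y : Matrix (Fin 2) (Fin 2) F × Matrix (Fin 2) (Fin 2) F,
      e (x.1 * y.1 + Matrix.adjugate y.2 * x.2, y.2 * x.1 + x.2 * Matrix.adjugate y.1) = e x * e y) →
    ∀ f g h : FreeMagma ℕ →₀ F,
      (∀ ψ : ℕ → C, f.sum (fun m c => c • FreeMagma.lift ψ m) = 0) →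
      (∀ ψ : ℕ → C, g.sum (fun m c => c • FreeMagma.lift ψ m) = 0) →
      (∀ ψ : ℕ → C, h.sum (fun m c => c • FreeMagma.lift ψ m) = 0) →
      ∀ (B : Type) [NonUnitalNonAssocRing B] [Module F B] [IsScalarTower F B B] [SMulCommClass F B B],
        (∀ x y : B, (x * x) * y = x * (x * y) ∧ (y * x) * x = y * (x * x)) →
        ∀ φ : ℕ → B,
          (f.sum (fun m c => c • FreeMagma.lift φ m) * g.sum (fun m c => c • FreeMagma.lift φ m))
              * h.sum (fun m c => c • FreeMagma.lift φ m) =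
          f.sum (fun m c => c • FreeMagma.lift φ m)
              * (g.sum (fun m c => c • FreeMagma.lift φ m) * h.sum (fun m c => c • FreeMagma.lift φ m))) := by
  intro H
  have h1 := H ℚ Zorn e0
    (fun x y => rfl) f.coeff g.coeff h.coeff
    (fun ψ => by rw [ev_f]; exact Zorn.fE_zero _) (fun ψ => by rw [ev_g]; exact Zorn.fE_zero _)
    (fun ψ => by rw [ev_h]; exact Zorn.hE_zero _) BS (fun x y => BS_alt x y) ph
  rw [ev_f, ev_g, ev_h] at h1
  exact key h1


end Pool.Agent.S01666
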