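import Pool.Statements.S01667
import Pool.Agent.Helper122.Torsion

set_option autoImplicit false
open Pool Pool.MP_a48479_al

namespace Pool.Agent.S01667

/-- For every one-relator group on finitely many generators that has a nontrivial element of finite order, every subgroup meeting the subgroup generated by all finite-order elements trivially is a free group. -/
theorem result :
    ∀ (n : ℕ) (r : FreeGroup (Fin n)),
      (∃ g : PresentedGroup ({r} : Set (FreeGroup (Fin n))), g ≠ 1 ∧ IsOfFinOrder g) →
      ∀ H : Subgroup (PresentedGroup ({r} : Set (FreeGroup (Fin n)))),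
        H ⊓ Subgroup.closure
            {g : PresentedGroup ({r} : Set (FreeGroup (Fin n))) | IsOfFinOrder g} = ⊥ →
        IsFreeGroup H := by
  intro n r hr H hH
  obtain ⟨s, m, hm, rfl, hs⟩ := Pool.Agent.Helper122.power_of_torsion r hr
  exact Pool.Agent.Helper122.Cuts.free_of_torsion s m hm hs H hH

end Pool.Agent.S01667
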