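import Pool.Statements.S01670
import Pool.Agent.Helper904.GS.Rad
-- import your own Pool.Agent.* helpers here

set_option autoImplicit false
open Pool Pool.MP_a4a6a3_al

namespace Pool.Agent.S01670

/-- The negation of the preceding statement: If every element of a group G has finite order, G has an element of order 2, and each such element's centralizer is locally finite, then G has a nontrivial normal subgroup in which every finitely generated subgroup is finite. -/
theorem result :
    ¬ (∀ (G : Type) [Group G],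
      Monoid.IsTorsion G →
      (∃ x : G, orderOf x = 2) →
      (∀ x : G, orderOf x = 2 →
        ∀ s : Finset G, (↑s : Set G) ⊆ ↑(Subgroup.centralizer ({x} : Set G)) →
          Finite (Subgroup.closure (↑s : Set G))) →
      ∃ N : Subgroup G, N.Normal ∧ N ≠ ⊥ ∧
        ∀ s : Finset G, (↑s : Set G) ⊆ ↑N → Finite (Subgroup.closure (↑s : Set G))) := by
  intro h
  obtain ⟨G, inst, σ, F, H⟩ := Pool.Agent.Helper904.GS.exists_group
  have hσ : QuotientGroup.mk' (Pool.Agent.Helper904.GS.rad G) σ ≠ 1 := fun h1 =>
    H.σ_notMem_rad ((QuotientGroup.eq_one_iff (N := Pool.Agent.Helper904.GS.rad G) σ).1 h1)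
  have t1 : Monoid.IsTorsion (G ⧸ Pool.Agent.Helper904.GS.rad G) := by
    intro g
    obtain ⟨g, rfl⟩ := QuotientGroup.mk'_surjective _ g
    rw [isOfFinOrder_iff_pow_eq_one]
    obtain ⟨n, hn, hg⟩ := H.tor g
    exact ⟨n, hn, by rw [← map_pow, hg, map_one]⟩
  have t2 : ∃ x : G ⧸ Pool.Agent.Helper904.GS.rad G, orderOf x = 2 := by
    refine ⟨QuotientGroup.mk' _ σ, orderOf_eq_prime ?_ hσ⟩
    rw [← map_pow, pow_two, H.hσ2, map_one]
  obtain ⟨N, hN, hne, hlf⟩ := h (G ⧸ Pool.Agent.Helper904.GS.rad G) t1 t2 (by
    intro x hx s hs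
    refine H.cen_all x hx _ s.finite_toSet (fun y hy => ?_)
    have := Subgroup.mem_centralizer_singleton_iff.1 (hs hy)
    exact this.symm)
  refine hne (Pool.Agent.Helper904.GS.rad_quot hN (fun s hs hsN => ?_))
  have h1 := hlf hs.toFinset (by simpa using hsN)
  rwa [Set.Finite.coe_toFinset] at h1

end Pool.Agent.S01670
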