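import Pool.Statements.S01680
import Pool.Agent.Helper705.SRF.Inst

set_option autoImplicit false
open Pool Pool.MP_a5fc06_al

namespace Pool.Agent.S01680

open Pool.Agent.Helper705.SRF

/-- The negation of the preceding statement: For every set of group laws and every rank, if the relatively free group (free group modulo the verbal subgroup of those laws) is soluble, then every nontrivial element avoids some finite-index subgroup, i.e. the group is residually finite. -/
theorem result :
    ¬ (∀ (W : Set (FreeGroup ℕ)) (α : Type),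
      IsSolvable (FreeGroup α ⧸ Subgroup.normalClosure
        {x : FreeGroup α | ∃ w ∈ W, ∃ φ : FreeGroup ℕ →* FreeGroup α, φ w = x}) →
      ∀ g : FreeGroup α ⧸ Subgroup.normalClosure
          {x : FreeGroup α | ∃ w ∈ W, ∃ φ : FreeGroup ℕ →* FreeGroup α, φ w = x},
        g ≠ 1 →
          ∃ H : Subgroup (FreeGroup α ⧸ Subgroup.normalClosure
              {x : FreeGroup α | ∃ w ∈ W, ∃ φ : FreeGroup ℕ →* FreeGroup α, φ w = x}),
            H.index ≠ 0 ∧ g ∉ H) := by
  intro h
  obtain ⟨V, hV, hlaw, hnot, n, hn⟩ := main_cover (Aff.toPerm (S := KK) (s := sX))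
    (Aff.comm_sq two_KK) (Aff.key two_KK sX_pow) (yy sX (1 : KK) (RatFunc.X ^ 2)) h1_inst h2_inst
  let U : Set (FreeGroup ℕ) :=
    {w | ∀ ψ : FreeGroup ℕ →* FF (Aff.toPerm (S := KK) (s := sX)), ψ w ∈ V}
  have hU := h U ℕ
  set R : Subgroup (FreeGroup ℕ) := Subgroup.normalClosure
    {x : FreeGroup ℕ | ∃ w ∈ U, ∃ φ : FreeGroup ℕ →* FreeGroup ℕ, φ w = x} with hR
  have hUR : ∀ w ∈ U, w ∈ R := fun w hw =>
    Subgroup.subset_normalClosure ⟨w, hw, MonoidHom.id _, rfl⟩
  have hRU : ∀ w ∈ R, ∀ ψ : FreeGroup ℕ →* FF (Aff.toPerm (S := KK) (s := sX)), ψ w ∈ V := by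
    intro w hw ψ
    have hle : R ≤ V.comap ψ := by
      apply Subgroup.normalClosure_le_normal
      rintro _ ⟨w, hw, φ, rfl⟩
      exact hw (ψ.comp φ)
    exact hle hw
  have hsol : Group.IsSolvable (FreeGroup ℕ ⧸ R) := by
    refine ⟨n, ?_⟩
    rw [← map_derivedSeries_eq (QuotientGroup.mk'_surjective R) n, Subgroup.map_eq_bot_iff,
      QuotientGroup.ker_mk']
    intro w hw
    apply hUR
    intro ψ
    exact hn (map_derivedSeries_le_derivedSeries ψ n ⟨w, hw, rfl⟩)
  have hg : (QuotientGroup.mk (fw (fun i => FreeGroup.of i) 1) : FreeGroup ℕ ⧸ R) ≠ 1 := by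
    intro e
    rw [QuotientGroup.eq_one_iff] at e
    have := hRU _ e (FreeGroup.lift (fun i => FreeGroup.of (yy sX (1 : KK) (RatFunc.X ^ 2) i)))
    rw [map_fw] at this
    simp only [FreeGroup.lift_apply_of] at this
    exact hnot this
  obtain ⟨H, hH, hgH⟩ := hU hsol _ hg
  apply hgH
  have : H.FiniteIndex := ⟨hH⟩
  have hfin : H.normalCore.FiniteIndex := H.finiteIndex_normalCore
  apply H.normalCore_le
  rw [← QuotientGroup.eq_one_iff]
  let φ : FreeGroup ℕ →* (FreeGroup ℕ ⧸ R) ⧸ H.normalCore :=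
    (QuotientGroup.mk' H.normalCore).comp (QuotientGroup.mk' R)
  change φ (fw (fun i => FreeGroup.of i) 1) = 1
  have hk : H.normalCore.index ≠ 0 := hfin.index_ne_zero
  have e1 : φ (fw (fun i => FreeGroup.of i) H.normalCore.index *
      (fw (fun i => FreeGroup.of i) 1)⁻¹) = 1 := by
    have : fw (fun i => FreeGroup.of i) H.normalCore.index *
      (fw (fun i => FreeGroup.of i) 1)⁻¹ ∈ R := by
      apply hUR
      intro ψ
      rw [map_mul, map_inv, map_fw, map_fw]
      exact hlaw _ _ hk
    change QuotientGroup.mk' H.normalCore (QuotientGroup.mk' R _) = 1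
    have h2 : QuotientGroup.mk' R (fw (fun i => FreeGroup.of i) H.normalCore.index *
      (fw (fun i => FreeGroup.of i) 1)⁻¹) = 1 := (QuotientGroup.eq_one_iff _).mpr this
    rw [h2, map_one]
  rw [map_mul, map_inv, mul_inv_eq_one] at e1
  rw [← e1, map_fw]
  have e6 : (φ (FreeGroup.of 6)) ^ H.normalCore.index = 1 := by
    change QuotientGroup.mk' H.normalCore (QuotientGroup.mk' R (FreeGroup.of 6)) ^ _ = 1
    rw [← map_pow]
    exact (QuotientGroup.eq_one_iff _).mpr (Subgroup.pow_index_mem _ _)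
  have e7 : gw (fun i => φ (FreeGroup.of i)) H.normalCore.index = 1 := by
    unfold gw
    rw [e6, commutatorElement_one_right]
  unfold fw
  rw [e7]
  simp

end Pool.Agent.S01680
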