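import Pool.Statements.S01689

set_option autoImplicit false
open Pool Pool.MP_a8364e_al

namespace Pool.Agent.S01689

section Abstract

variable {V : Type} [AddCommGroup V]

def Aff (X : Subgroup (Equiv.Perm V)) (hadd : ∀ L ∈ X, ∀ u v, L (u + v) = L u + L v) :
    Subgroup (Equiv.Perm V) where
  carrier := {π | ∃ L ∈ X, ∃ w, ∀ p, π p = L p + w}
  mul_mem' := by
    rintro π π' ⟨L, hL, w, h⟩ ⟨L', hL', w', h'⟩
    refine ⟨L * L', X.mul_mem hL hL', L w' + w, fun p => ?_⟩
    rw [Equiv.Perm.mul_apply, h, h', hadd L hL, Equiv.Perm.mul_apply, add_assoc]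
  one_mem' := ⟨1, X.one_mem, 0, fun p => by simp⟩
  inv_mem' := by
    rintro π ⟨L, hL, w, h⟩
    refine ⟨L⁻¹, X.inv_mem hL, L⁻¹ (-w), fun p => ?_⟩
    rw [Equiv.Perm.inv_eq_iff_eq, h, ← hadd L⁻¹ (X.inv_mem hL)]
    simp

variable {X : Subgroup (Equiv.Perm V)} {hadd : ∀ L ∈ X, ∀ u v, L (u + v) = L u + L v}

lemma L_zero (hadd : ∀ L ∈ X, ∀ u v, L (u + v) = L u + L v) {L : Equiv.Perm V} (hL : L ∈ X) :
    L 0 = 0 := by
  have := hadd L hL 0 0
  simpa using this

lemma L_neg (hadd : ∀ L ∈ X, ∀ u v, L (u + v) = L u + L v) {L : Equiv.Perm V} (hL : L ∈ X) (v : V) :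
    L (-v) = - L v := by
  have := hadd L hL (-v) v
  rw [neg_add_cancel, L_zero hadd hL] at this
  exact eq_neg_of_add_eq_zero_left this.symm

/-- translation -/
def tr (v : V) : Aff X hadd :=
  ⟨Equiv.addRight v, 1, X.one_mem, v, fun p => by simp⟩

lemma tr_apply (v p : V) : (tr v : Aff X hadd).1 p = p + v := rfl

lemma tr_add (u v : V) : (tr (u + v) : Aff X hadd) = tr u * tr v := by
  apply Subtype.ext
  ext p
  simp only [Subgroup.coe_mul, Equiv.Perm.mul_apply, tr_apply]
  abel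

lemma tr_injective : Function.Injective (tr : V → Aff X hadd) := by
  intro u v h
  have := congrArg (fun π : Aff X hadd => π.1 0) h
  simpa [tr_apply] using this

lemma tr_zero : (tr 0 : Aff X hadd) = 1 := by
  apply Subtype.ext
  ext p
  simp [tr_apply]

lemma tr_neg (u : V) : (tr (-u) : Aff X hadd) = (tr u)⁻¹ := by
  rw [eq_inv_iff_mul_eq_one, ← tr_add, neg_add_cancel, tr_zero]

/-- linear element -/
def lin (L : X) : Aff X hadd := ⟨L.1, L.1, L.2, 0, fun p => by simp⟩

lemma lin_apply (L : X) (p : V) : (lin L : Aff X hadd).1 p = L.1 p := rfl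

/-- every element decomposes. -/
lemma decomp (π : Aff X hadd) : ∃ (L : X) (w : V), π = tr w * lin L := by
  obtain ⟨π, L, hL, w, h⟩ := π
  refine ⟨⟨L, hL⟩, w, ?_⟩
  apply Subtype.ext
  ext p
  simp only [Subgroup.coe_mul, Equiv.Perm.mul_apply, tr_apply, lin_apply]
  exact h p

lemma lin_conj (L : X) (v : V) : (lin L : Aff X hadd) * tr v * (lin L)⁻¹ = tr (L.1 v) := by
  rw [mul_inv_eq_iff_eq_mul]
  apply Subtype.ext
  ext p
  simp only [Subgroup.coe_mul, Equiv.Perm.mul_apply, tr_apply, lin_apply]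
  exact hadd _ L.2 _ _

lemma gen_conj (L : X) (w v : V) : (tr w * lin L : Aff X hadd) * tr v * (tr w * lin L)⁻¹ = tr (L.1 v) := by
  have : (tr w * lin L : Aff X hadd) * tr v * (tr w * lin L)⁻¹
      = tr w * (lin L * tr v * (lin L)⁻¹) * (tr w)⁻¹ := by group
  rw [this, lin_conj, ← tr_neg, ← tr_add, ← tr_add]
  congr 1
  abel

lemma tr_conj (L : X) (w u : V) : ((tr u : Aff X hadd) * (tr w * lin L) * (tr u)⁻¹)
    = tr (w + (u - L.1 u)) * lin L := by
  rw [mul_inv_eq_iff_eq_mul]
  apply Subtype.ext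
  ext p
  simp only [Subgroup.coe_mul, Equiv.Perm.mul_apply, tr_apply, lin_apply]
  rw [hadd _ L.2]
  abel

/-- FC characterization -/
lemma fc_iff [Finite X]
    (hFC : ∀ L ∈ X, L ≠ 1 → Set.Infinite (Set.range fun v => L v - v)) (π : Aff X hadd) :
    (Set.range fun g : Aff X hadd => g * π * g⁻¹).Finite ↔ ∃ v, π = tr v := by
  constructor
  · intro hfin
    obtain ⟨L, w, rfl⟩ := decomp π
    by_cases hL : L.1 = 1
    · refine ⟨w, ?_⟩
      have : (lin L : Aff X hadd) = 1 := by
        apply Subtype.ext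
        exact hL
      rw [this, mul_one]
    · exfalso
      apply hFC L.1 L.2 hL
      have h2 : (Set.range fun v => L.1 v - v) ⊆
          (fun π : Aff X hadd => w - π.1 0) '' (Set.range fun g : Aff X hadd => g * (tr w * lin L) * g⁻¹) := by
        rintro _ ⟨v, rfl⟩
        refine ⟨_, ⟨tr v, rfl⟩, ?_⟩
        simp only
        rw [tr_conj]
        simp only [Subgroup.coe_mul, Equiv.Perm.mul_apply, tr_apply, lin_apply]
        rw [L_zero hadd L.2]
        abel
      exact (hfin.image _).subset h2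
  · rintro ⟨v, rfl⟩
    have : (Set.range fun g : Aff X hadd => g * tr v * g⁻¹) ⊆ Set.range (fun L : X => (tr (L.1 v) : Aff X hadd)) := by
      rintro _ ⟨g, rfl⟩
      obtain ⟨L, w, rfl⟩ := decomp g
      exact ⟨L, (gen_conj L w v).symm⟩
    exact (Set.finite_range _).subset this

lemma fc_aut (φ : MulAut (Aff X hadd)) (π : Aff X hadd) :
    (Set.range fun g : Aff X hadd => g * φ π * g⁻¹).Finite ↔
    (Set.range fun g : Aff X hadd => g * π * g⁻¹).Finite := by
  have : (Set.range fun g : Aff X hadd => g * φ π * g⁻¹) = φ '' (Set.range fun g : Aff X hadd => g * π * g⁻¹) := by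
    ext y
    constructor
    · rintro ⟨g, rfl⟩
      refine ⟨_, ⟨φ.symm g, rfl⟩, ?_⟩
      simp
    · rintro ⟨_, ⟨g, rfl⟩, rfl⟩
      exact ⟨φ g, by simp⟩
  rw [this, Set.finite_image_iff φ.injective.injOn]

lemma aut_tr [Finite X]
    (hFC : ∀ L ∈ X, L ≠ 1 → Set.Infinite (Set.range fun v => L v - v)) (φ : MulAut (Aff X hadd)) (v : V) :
    ∃ w, φ (tr v) = tr w := by
  rw [← fc_iff hFC, fc_aut, fc_iff hFC]
  exact ⟨v, rfl⟩

/-- main abstract theorem about automorphisms -/
theorem aut_inner [Finite X] (h3 : ∀ v : V, v + v + v = 0)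
    (hneg : Equiv.neg V ∈ X)
    (hFC : ∀ L ∈ X, L ≠ 1 → Set.Infinite (Set.range fun v => L v - v))
    (hN : ∀ g : V ≃+ V, (∀ L ∈ X, ∃ L' ∈ X, ∀ v, g (L v) = L' (g v)) → (g.toEquiv : Equiv.Perm V) ∈ X)
    (φ : MulAut (Aff X hadd)) : ∃ g : Aff X hadd, φ = MulAut.conj g := by
  classical
  -- the map on V
  choose f hf using aut_tr (hadd := hadd) hFC φ
  choose f' hf' using aut_tr (hadd := hadd) hFC φ⁻¹
  have hff' : ∀ v, f (f' v) = v := by
    intro v
    apply tr_injective (X := X) (hadd := hadd)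
    rw [← hf, ← hf']
    simp
  have hf'f : ∀ v, f' (f v) = v := by
    intro v
    apply tr_injective (X := X) (hadd := hadd)
    rw [← hf', ← hf]
    simp
  have fadd : ∀ u v, f (u + v) = f u + f v := by
    intro u v
    apply tr_injective (X := X) (hadd := hadd)
    rw [← hf, tr_add, tr_add, map_mul, hf, hf]
  let g : V ≃+ V := { toFun := f, invFun := f', left_inv := hf'f, right_inv := hff', map_add' := fadd }
  have hg : (g.toEquiv : Equiv.Perm V) ∈ X := by
    apply hN
    intro L hL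
    obtain ⟨L', w, hw⟩ := decomp (φ (lin ⟨L, hL⟩))
    refine ⟨L'.1, L'.2, fun v => ?_⟩
    have h1 := congrArg φ (lin_conj (hadd := hadd) ⟨L, hL⟩ v)
    rw [map_mul, map_mul, map_inv, hw, hf, hf, gen_conj] at h1
    exact (tr_injective h1).symm
  let gL : X := ⟨g.toEquiv, hg⟩
  -- φ1 = conj(lin g)⁻¹ φ
  let φ1 : MulAut (Aff X hadd) := (MulAut.conj (lin gL))⁻¹ * φ
  have h1tr : ∀ v, φ1 (tr v) = tr v := by
    intro v
    change (MulAut.conj (lin gL))⁻¹ (φ (tr v)) = _
    rw [MulAut.inv_apply, MulEquiv.symm_apply_eq, hf, MulAut.conj_apply, lin_conj]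
    rfl
  -- for any φ fixing translations, the linear part is preserved
  have key : ∀ (ψ : MulAut (Aff X hadd)), (∀ v, ψ (tr v) = tr v) → ∀ L : X, ∃ w, ψ (lin L) = tr w * lin L := by
    intro ψ hψ L
    obtain ⟨L', w, hw⟩ := decomp (ψ (lin L))
    refine ⟨w, ?_⟩
    have : L' = L := by
      apply Subtype.ext
      ext v
      have h1 := congrArg ψ (lin_conj (hadd := hadd) L v)
      rw [map_mul, map_mul, map_inv, hw, hψ, hψ, gen_conj] at h1
      exact tr_injective h1
    rw [hw, this]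
  let z : X := ⟨Equiv.neg V, hneg⟩
  obtain ⟨d, hd⟩ := key φ1 h1tr z
  let φ2 : MulAut (Aff X hadd) := (MulAut.conj (tr (-d)))⁻¹ * φ1
  have h2tr : ∀ v, φ2 (tr v) = tr v := by
    intro v
    change (MulAut.conj (tr (-d)))⁻¹ (φ1 (tr v)) = _
    rw [MulAut.inv_apply, MulEquiv.symm_apply_eq, h1tr, MulAut.conj_apply, ← tr_neg, ← tr_add, ← tr_add]
    congr 1
    abel
  have h2z : φ2 (lin z) = lin z := by
    change (MulAut.conj (tr (-d)))⁻¹ (φ1 (lin z)) = _
    rw [MulAut.inv_apply, MulEquiv.symm_apply_eq, hd, MulAut.conj_apply]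
    have := tr_conj (hadd := hadd) z 0 (-d)
    rw [tr_zero, one_mul] at this
    rw [this]
    congr 2
    change d = 0 + (-d - -(-d))
    have := h3 d
    rw [neg_neg, zero_add, eq_sub_iff_add_eq, eq_neg_iff_add_eq_zero]
    exact this
  have h2lin : ∀ L : X, φ2 (lin L) = lin L := by
    intro L
    obtain ⟨w, hw⟩ := key φ2 h2tr L
    have hcomm : (lin z : Aff X hadd) * lin L * (lin z)⁻¹ = lin L := by
      rw [mul_inv_eq_iff_eq_mul]
      apply Subtype.ext
      ext p
      simp only [Subgroup.coe_mul, Equiv.Perm.mul_apply, lin_apply]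
      change - (L.1 p) = L.1 (-p)
      rw [L_neg hadd L.2]
    have h4 := congrArg φ2 hcomm
    rw [map_mul, map_mul, map_inv, h2z, hw] at h4
    have h5 : (lin z : Aff X hadd) * (tr w * lin L) * (lin z)⁻¹ = tr (-w) * lin L := by
      have : (lin z : Aff X hadd) * (tr w * lin L) * (lin z)⁻¹
        = (lin z * tr w * (lin z)⁻¹) * (lin z * lin L * (lin z)⁻¹) := by group
      rw [this, hcomm, lin_conj]
      rfl
    rw [h5] at h4
    have h6 : -w = w := tr_injective (mul_right_cancel h4)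
    have h7 : w = 0 := by
      have := h3 w
      have h8 : w + w = 0 := by
        nth_rewrite 1 [← h6]
        simp
      rw [h8, zero_add] at this
      exact this
    rw [hw, h7, tr_zero, one_mul]
  have h2 : φ2 = 1 := by
    ext1 π
    obtain ⟨L, w, rfl⟩ := decomp π
    rw [map_mul, h2tr, h2lin]
    rfl
  refine ⟨lin gL * tr (-d), ?_⟩
  have h9 : φ = MulAut.conj (lin gL) * (MulAut.conj (tr (-d)) * φ2) := by
    simp [φ2, φ1]
  rw [h9, h2, mul_one, map_mul]

theorem center_triv (h3 : ∀ v : V, v + v + v = 0) (hneg : Equiv.neg V ∈ X) :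
    Subgroup.center (Aff X hadd) = ⊥ := by
  rw [eq_bot_iff]
  intro π hπ
  rw [Subgroup.mem_center_iff] at hπ
  rw [Subgroup.mem_bot]
  obtain ⟨L, w, rfl⟩ := decomp π
  have h1 : ∀ v, L.1 v = v := by
    intro v
    have := hπ (tr v)
    have h2 : (tr v : Aff X hadd) = tr w * lin L * tr v * (tr w * lin L)⁻¹ := by
      rw [← this]; group
    rw [gen_conj] at h2
    exact (tr_injective h2).symm
  have h2 : (lin L : Aff X hadd) = 1 := by
    apply Subtype.ext
    ext p
    simp [lin_apply, h1]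
  rw [h2, mul_one] at hπ ⊢
  have h3' := hπ (lin ⟨Equiv.neg V, hneg⟩)
  have h4 : (lin ⟨Equiv.neg V, hneg⟩ : Aff X hadd) * tr w * (lin ⟨Equiv.neg V, hneg⟩)⁻¹ = tr w := by
    rw [h3']; group
  rw [lin_conj] at h4
  have h6 : -w = w := tr_injective h4
  have h7 : w = 0 := by
    have := h3 w
    have h8 : w + w = 0 := by
      nth_rewrite 1 [← h6]
      simp
    rw [h8, zero_add] at this
    exact this
  rw [h7, tr_zero]

/-- local finiteness criterion -/
theorem loc_fin [Finite X] (h : ∀ S : Set V, S.Finite → ∃ U : AddSubgroup V, (U : Set V).Finite ∧ S ⊆ U ∧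
    ∀ L ∈ X, ∀ u ∈ U, L u ∈ U) (s : Finset (Aff X hadd)) :
    ((Subgroup.closure (s : Set (Aff X hadd)) : Subgroup (Aff X hadd)) : Set (Aff X hadd)).Finite := by
  obtain ⟨U, hUf, hSU, hU⟩ := h ((fun π : Aff X hadd => π.1 0) '' (s : Set (Aff X hadd))) ((s.finite_toSet).image _)
  let K : Subgroup (Aff X hadd) :=
    { carrier := {π | π.1 0 ∈ U}
      mul_mem' := by
        intro a b ha hb
        obtain ⟨L, w, rfl⟩ := decomp a
        simp only [Set.mem_ofPred_eq, Subgroup.coe_mul, Equiv.Perm.mul_apply, tr_apply, lin_apply] at ha hb ⊢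
        rw [L_zero hadd L.2, zero_add] at ha
        exact U.add_mem (hU _ L.2 _ hb) ha
      one_mem' := by simp
      inv_mem' := by
        intro a ha
        obtain ⟨L, w, rfl⟩ := decomp a
        simp only [Set.mem_ofPred_eq, Subgroup.coe_mul, Equiv.Perm.mul_apply, tr_apply, lin_apply] at ha ⊢
        rw [L_zero hadd L.2, zero_add] at ha
        have : (((tr w * lin L : Aff X hadd)⁻¹).1 : Equiv.Perm V) 0 = L.1⁻¹ (-w) := by
          change ((tr w * lin L : Aff X hadd).1)⁻¹ 0 = _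
          rw [Equiv.Perm.inv_eq_iff_eq]
          simp [tr_apply, lin_apply]
        rw [this]
        exact hU _ (X.inv_mem L.2) _ (U.neg_mem ha) }
  have hsK : Subgroup.closure (s : Set (Aff X hadd)) ≤ K := by
    rw [Subgroup.closure_le]
    intro π hπ
    exact hSU ⟨π, hπ, rfl⟩
  refine Set.Finite.subset ?_ hsK
  have : (K : Set (Aff X hadd)) ⊆ (fun q : V × X => tr q.1 * lin q.2) '' ((U : Set V) ×ˢ Set.univ) := by
    intro π hπ
    obtain ⟨L, w, rfl⟩ := decomp π
    refine ⟨(w, L), ⟨?_, trivial⟩, rfl⟩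
    change (tr w * lin L : Aff X hadd).1 0 ∈ U at hπ
    simp only [Subgroup.coe_mul, Equiv.Perm.mul_apply, tr_apply, lin_apply] at hπ
    rw [L_zero hadd L.2, zero_add] at hπ
    exact hπ
  exact ((hUf.prod Set.finite_univ).image _).subset this

end Abstract


section Concrete

open Polynomial

abbrev R := (ZMod 3)[X]

/-- the linear map with the given parameters -/
noncomputable def F (e1 e2 b a c d : ZMod 3) (p : R × R) : R × R :=
  (C e1 * p.1.comp (C b * X + C a) + (C c + C d * X) * p.2.comp (C b * X + C a),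
    C e2 * p.2.comp (C b * X + C a))

lemma F_F (e1 e2 b a c d e1' e2' b' a' c' d' : ZMod 3) (p : R × R) :
    F e1 e2 b a c d (F e1' e2' b' a' c' d' p) =
      F (e1 * e1') (e2 * e2') (b' * b) (b' * a + a')
        (e1 * c' + e1 * d' * a + c * e2') (e1 * d' * b + d * e2') p := by
  have hq : (C b' * X + C a' : R).comp (C b * X + C a) = C (b' * b) * X + C (b' * a + a') := by
    simp only [add_comp, mul_comp, C_comp, X_comp, C_mul, C_add]
    ring
  unfold F
  simp only [add_comp, mul_comp, C_comp, X_comp, comp_assoc]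
  rw [← hq]
  ext1
  · simp only [add_comp, mul_comp, C_comp, X_comp, C_mul, C_add]
    ring
  · simp only [add_comp, mul_comp, C_comp, X_comp, C_mul]
    ring

lemma F_one (p : R × R) : F 1 1 1 0 0 0 p = p := by
  unfold F
  ext1 <;> simp

lemma F_add (e1 e2 b a c d : ZMod 3) (p q : R × R) :
    F e1 e2 b a c d (p + q) = F e1 e2 b a c d p + F e1 e2 b a c d q := by
  unfold F
  ext1
  · simp only [Prod.fst_add, Prod.snd_add, add_comp]
    ring
  · simp only [Prod.snd_add, add_comp]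
    ring

noncomputable def XX : Subgroup (Equiv.Perm (R × R)) where
  carrier := {π | ∃ e1 e2 b a c d : ZMod 3, e1 ≠ 0 ∧ e2 ≠ 0 ∧ b ≠ 0 ∧
    ∀ p, π p = F e1 e2 b a c d p}
  mul_mem' := by
    rintro π π' ⟨e1, e2, b, a, c, d, h1, h2, h3, h⟩ ⟨e1', e2', b', a', c', d', h1', h2', h3', h'⟩
    refine ⟨e1 * e1', e2 * e2', b' * b, b' * a + a', e1 * c' + e1 * d' * a + c * e2',
      e1 * d' * b + d * e2', mul_ne_zero h1 h1', mul_ne_zero h2 h2', mul_ne_zero h3' h3,
      fun p => ?_⟩
    rw [Equiv.Perm.mul_apply, h', h, F_F]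
  one_mem' := ⟨1, 1, 1, 0, 0, 0, one_ne_zero, one_ne_zero, one_ne_zero, fun p => by
    rw [F_one]; rfl⟩
  inv_mem' := by
    rintro π ⟨e1, e2, b, a, c, d, h1, h2, h3, h⟩
    refine ⟨e1, e2, b, -(b * a), e1 * b * d * e2 * a - e1 * c * e2, -(e1 * b * d * e2), h1, h2, h3,
      fun p => ?_⟩
    rw [Equiv.Perm.inv_eq_iff_eq, h, F_F]
    have key : ∀ e1 e2 b a c d : ZMod 3, e1 ≠ 0 → e2 ≠ 0 → b ≠ 0 →
      e1 * e1 = 1 ∧ e2 * e2 = 1 ∧ b * b = 1 ∧ b * a + -(b * a) = 0 ∧
      e1 * (e1 * b * d * e2 * a - e1 * c * e2) + e1 * -(e1 * b * d * e2) * a + c * e2 = 0 ∧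
      e1 * -(e1 * b * d * e2) * b + d * e2 = 0 := by decide
    obtain ⟨k1, k2, k3, k4, k5, k6⟩ := key e1 e2 b a c d h1 h2 h3
    rw [k1, k2, k3, k4, k5, k6, F_one]

lemma XX_add : ∀ L ∈ XX, ∀ u v, L (u + v) = L u + L v := by
  rintro L ⟨e1, e2, b, a, c, d, h1, h2, h3, h⟩ u v
  rw [h, h, h, F_add]

instance : Finite XX := by
  have : (XX : Set (Equiv.Perm (R × R))).Finite := by
    have hinj : Set.InjOn (fun π : Equiv.Perm (R × R) => (π : R × R → R × R))
        (XX : Set (Equiv.Perm (R × R))) := fun _ _ _ _ h => Equiv.coe_fn_injective h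
    apply Set.Finite.of_finite_image _ hinj
    have : (fun π : Equiv.Perm (R × R) => (π : R × R → R × R)) '' (XX : Set (Equiv.Perm (R × R))) ⊆
        Set.range (fun q : ZMod 3 × ZMod 3 × ZMod 3 × ZMod 3 × ZMod 3 × ZMod 3 =>
          F q.1 q.2.1 q.2.2.1 q.2.2.2.1 q.2.2.2.2.1 q.2.2.2.2.2) := by
      rintro _ ⟨π, ⟨e1, e2, b, a, c, d, h1, h2, h3, h⟩, rfl⟩
      exact ⟨(e1, e2, b, a, c, d), funext fun p => (h p).symm⟩
    exact (Set.finite_range _).subset this
  exact this

lemma three (v : R × R) : v + v + v = 0 := by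
  have : (3 : R) = 0 := by
    have : ((3 : ℕ) : R) = 0 := CharP.cast_eq_zero R 3
    exact_mod_cast this
  have h : ∀ r : R, r + r + r = 0 := by
    intro r
    have : r + r + r = 3 * r := by ring
    rw [this, ‹(3 : R) = 0›, zero_mul]
  ext1
  · exact h _
  · exact h _

lemma neg_mem : Equiv.neg (R × R) ∈ XX := by
  refine ⟨-1, -1, 1, 0, 0, 0, by decide, by decide, by decide, fun p => ?_⟩
  unfold F
  ext1 <;> simp

/-- invariant polynomial -/
noncomputable def Z : R := (X ^ 3 - X) ^ 2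

lemma Z_comp (b a : ZMod 3) (hb : b ≠ 0) : Z.comp (C b * X + C a) = Z := by
  unfold Z
  have h3 : (C b * X + C a : R) ^ 3 = C b * X ^ 3 + C a := by
    have : ((C b * X + C a : R)) ^ 3 = (C b * X) ^ 3 + (C a) ^ 3 := by
      exact add_pow_char _ _ 3
    rw [this, mul_pow, ← C_pow, ← C_pow]
    have k : ∀ b : ZMod 3, b ^ 3 = b := by decide
    rw [k, k]
  simp only [pow_comp, sub_comp, X_comp]
  rw [h3]
  have : (C b * X ^ 3 + C a - (C b * X + C a) : R) = C b * (X ^ 3 - X) := by ring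
  rw [this, mul_pow, ← C_pow]
  have k : ∀ b : ZMod 3, b ≠ 0 → b ^ 2 = 1 := by decide
  rw [k b hb, C_1, one_mul]

lemma Z_deg : 0 < Z.natDegree := by
  have h : (X ^ 3 - X : R).natDegree = 3 := by
    compute_degree!
  unfold Z
  rw [natDegree_pow, h]
  norm_num

lemma Zpow_inj (r : R) (hr : r ≠ 0) : Function.Injective (fun m : ℕ => Z ^ m * r) := by
  intro m n h
  simp only at h
  have h1 := mul_right_cancel₀ hr h
  have h2 := congrArg natDegree h1
  rw [natDegree_pow, natDegree_pow] at h2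
  exact Nat.eq_of_mul_eq_mul_right Z_deg h2

lemma F_Z (e1 e2 b a c d : ZMod 3) (hb : b ≠ 0) (m : ℕ) (p : R × R) :
    F e1 e2 b a c d (Z ^ m * p.1, Z ^ m * p.2) =
      (Z ^ m * (F e1 e2 b a c d p).1, Z ^ m * (F e1 e2 b a c d p).2) := by
  unfold F
  simp only [mul_comp, pow_comp, Z_comp b a hb]
  ext1
  · simp only
    ring
  · simp only
    ring

lemma XX_FC : ∀ L ∈ XX, L ≠ 1 → Set.Infinite (Set.range fun v => L v - v) := by
  rintro L ⟨e1, e2, b, a, c, d, h1, h2, h3, h⟩ hne
  have : ∃ v, L v ≠ v := by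
    by_contra hcon
    push Not at hcon
    apply hne
    ext1 v
    exact hcon v
  obtain ⟨v, hv⟩ := this
  have hinj : Function.Injective (fun m : ℕ => ((Z ^ m * (L v - v).1, Z ^ m * (L v - v).2) : R × R)) := by
    intro m n hmn
    simp only [Prod.mk.injEq] at hmn
    have : (L v - v).1 ≠ 0 ∨ (L v - v).2 ≠ 0 := by
      by_contra hcon
      push Not at hcon
      apply hv
      rw [← sub_eq_zero]
      exact Prod.ext hcon.1 hcon.2
    rcases this with h0 | h0
    · exact Zpow_inj _ h0 hmn.1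
    · exact Zpow_inj _ h0 hmn.2
  refine (Set.infinite_range_of_injective hinj).mono ?_
  rintro _ ⟨m, rfl⟩
  refine ⟨(Z ^ m * v.1, Z ^ m * v.2), ?_⟩
  simp only
  rw [h, h, F_Z _ _ _ _ _ _ h3]
  ext1
  · simp only [Prod.fst_sub]
    ring
  · simp only [Prod.snd_sub]
    ring

/-- the quadratic elements -/
lemma quad (e1 e2 b a c d : ZMod 3) (h1 : e1 ≠ 0) (h2 : e2 ≠ 0) (h3 : b ≠ 0)
    (h : ∀ v : R × R, F e1 e2 b a c d (F e1 e2 b a c d v) + v =
      F e1 e2 b a c d v + F e1 e2 b a c d v) :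
    e1 = 1 ∧ e2 = 1 ∧ b = 1 ∧ a = 0 := by
  have t1 := congrArg (fun p : R × R => p.1.eval 0) (h (1, 0))
  have t2 := congrArg (fun p : R × R => p.2.eval 0) (h (0, 1))
  have t3 := congrArg (fun p : R × R => p.1.eval 0) (h (X, 0))
  have t4 := congrArg (fun p : R × R => p.1.eval 1) (h (X, 0))
  have t5 := congrArg (fun p : R × R => p.1.eval 0) (h (X ^ 2, 0))
  simp [F] at t1 t2 t3 t4 t5
  revert t1 t2 t3 t4 t5 h1 h2 h3
  clear h
  revert e1 e2 b a
  decide


/-- self-normalising -/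
lemma XX_N (g : (R × R) ≃+ (R × R))
    (H : ∀ L ∈ XX, ∃ L' ∈ XX, ∀ v, g (L v) = L' (g v)) :
    (g.toEquiv : Equiv.Perm (R × R)) ∈ XX := by
  -- step 1 : the maps `u_w`
  have hU : ∀ c d : ZMod 3, ∃ c' d' : ZMod 3, ∀ f h : R,
      g ((C c + C d * X) * h, 0) = ((C c' + C d' * X) * (g (f, h)).2, 0) := by
    intro c d
    -- the element of XX
    let L : Equiv.Perm (R × R) :=
      { toFun := F 1 1 1 0 c d
        invFun := F 1 1 1 0 (-c) (-d)
        left_inv := fun p => by
          rw [F_F]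
          have : F (1 * 1) (1 * 1) (1 * 1) (1 * 0 + 0) (1 * c + 1 * d * 0 + -c * 1)
            (1 * d * 1 + -d * 1) p = F 1 1 1 0 0 0 p := by
            congr 1 <;> ring
          rw [this, F_one]
        right_inv := fun p => by
          rw [F_F]
          have : F (1 * 1) (1 * 1) (1 * 1) (1 * 0 + 0) (1 * -c + 1 * -d * 0 + c * 1)
            (1 * -d * 1 + d * 1) p = F 1 1 1 0 0 0 p := by
            congr 1 <;> ring
          rw [this, F_one] }
    have hL : L ∈ XX := ⟨1, 1, 1, 0, c, d, one_ne_zero, one_ne_zero, one_ne_zero, fun p => rfl⟩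
    have hLv : ∀ f h : R, L (f, h) = (f, h) + ((C c + C d * X) * h, 0) := by
      intro f h
      change F 1 1 1 0 c d (f, h) = _
      unfold F
      ext1 <;> simp
    obtain ⟨L', ⟨e1', e2', b', a', c', d', h1, h2, h3, hL'⟩, hg⟩ := H L hL
    have hquad : ∀ v : R × R, F e1' e2' b' a' c' d' (F e1' e2' b' a' c' d' v) + v =
      F e1' e2' b' a' c' d' v + F e1' e2' b' a' c' d' v := by
      intro v
      obtain ⟨u, rfl⟩ := g.surjective v
      rw [← hL', ← hL', ← hg, ← hg, ← map_add, ← map_add]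
      congr 1
      obtain ⟨f, h⟩ := u
      rw [hLv f h]
      have : L ((f, h) + ((C c + C d * X) * h, 0)) = (f, h) + ((C c + C d * X) * h, 0) +
          ((C c + C d * X) * h, 0) := by
        rw [Prod.mk_add_mk, add_zero, hLv]
      rw [this]
      abel
    obtain ⟨rfl, rfl, rfl, rfl⟩ := quad _ _ _ _ _ _ h1 h2 h3 hquad
    refine ⟨c', d', fun f h => ?_⟩
    have h5 := hg (f, h)
    rw [hLv, map_add, hL'] at h5
    have h6 : F 1 1 1 0 c' d' (g (f, h)) = g (f, h) + ((C c' + C d' * X) * (g (f, h)).2, 0) := by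
      unfold F
      ext1 <;> simp
    rw [h6] at h5
    exact add_left_cancel h5
  -- components
  obtain ⟨c1, d1, hU1⟩ := hU 1 0
  obtain ⟨c2, d2, hU2⟩ := hU 0 1
  have hC1 : (C (1 : ZMod 3) + C 0 * X : R) = 1 := by simp
  have hC2 : (C (0 : ZMod 3) + C 1 * X : R) = X := by simp
  simp only [hC1, one_mul] at hU1
  simp only [hC2] at hU2
  -- D
  set D : R → R := fun h => (g (0, h)).2 with hD
  have hD0 : ∀ h, (g (0, h)).2 = D h := fun h => rfl
  have hg1 : ∀ h, g (h, 0) = ((C c1 + C d1 * X) * D h, 0) := fun h => hU1 0 h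
  have hDadd : ∀ f h, D (f + h) = D f + D h := by
    intro f h
    have : ((0 : R), f + h) = (0, f) + (0, h) := by simp
    rw [hD]
    simp only
    rw [this, map_add, Prod.snd_add]
  have hsnd : ∀ f h, (g (f, h)).2 = D h := by
    intro f h
    have : (f, h) = (f, 0) + ((0 : R), h) := by simp
    rw [this, map_add, Prod.snd_add, hg1, hD0]
    simp
  have hDsurj : Function.Surjective D := by
    intro y
    obtain ⟨⟨f, h⟩, hfh⟩ := g.surjective (0, y)
    refine ⟨h, ?_⟩
    rw [← hsnd f h, hfh]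
  have hunit : IsUnit (C c1 + C d1 * X : R) := by
    obtain ⟨⟨f, h⟩, hfh⟩ := g.surjective ((1 : R), 0)
    have hDh : D h = 0 := by rw [← hsnd f h, hfh]
    have hh : h = 0 := by
      have h1 := hg1 h
      rw [hDh, mul_zero] at h1
      have h2 : g (h, 0) = g 0 := by rw [h1, map_zero]; rfl
      have h3 := g.injective h2
      exact congrArg Prod.fst h3
    rw [hh, hg1] at hfh
    have := congrArg Prod.fst hfh
    exact IsUnit.of_mul_eq_one _ this
  obtain ⟨r, hr, hrC⟩ := Polynomial.isUnit_iff.1 hunit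
  have hr0 : r ≠ 0 := hr.ne_zero
  have hrr : r * r = 1 := by
    revert hr0; clear hrC hr; revert r; decide
  -- D intertwines
  set q : R := C (r * c2) + C (r * d2) * X with hq
  have hDX : ∀ h, D (X * h) = q * D h := by
    intro h
    have h1 := hU2 0 h
    rw [hg1, hD0, ← hrC] at h1
    have h2 := congrArg Prod.fst h1
    simp only at h2
    have h3 : C r * (C r * D (X * h)) = C r * ((C c2 + C d2 * X) * D h) := by rw [h2]
    rw [← mul_assoc, ← C_mul, hrr, C_1, one_mul] at h3
    rw [h3, hq, C_mul, C_mul]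
    ring
  have hDzero : D 0 = 0 := by
    have := hDadd 0 0
    simpa using this
  have hDC : ∀ (c : ZMod 3) h, D (C c * h) = C c * D h := by
    intro c h
    let D' : R →+ R := { toFun := D, map_zero' := hDzero, map_add' := hDadd }
    have := ZMod.map_smul D' c h
    rw [smul_eq_C_mul, smul_eq_C_mul] at this
    exact this
  have hDpow : ∀ n : ℕ, D (X ^ n) = q ^ n * D 1 := by
    intro n
    induction n with
    | zero => simp
    | succ n ih => rw [pow_succ', hDX, ih, pow_succ']; ring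
  have hDcomp : ∀ f, D f = f.comp q * D 1 := by
    intro f
    induction f using Polynomial.induction_on' with
    | add f h hf hh => rw [hDadd, hf, hh, add_comp, add_mul]
    | monomial n a =>
      rw [← C_mul_X_pow_eq_monomial, hDC, hDpow]
      simp only [mul_comp, C_comp, pow_comp, X_comp]
      ring
  -- D 1 is a unit
  have hD1 : IsUnit (D 1) := by
    obtain ⟨h, hh⟩ := hDsurj 1
    rw [hDcomp] at hh
    exact IsUnit.of_mul_eq_one _ (by rw [mul_comm]; exact hh)
  obtain ⟨u, hu, huC⟩ := Polynomial.isUnit_iff.1 hD1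
  have hu0 : u ≠ 0 := hu.ne_zero
  have hb0 : r * d2 ≠ 0 := by
    intro h0
    obtain ⟨h, hh⟩ := hDsurj X
    rw [hDcomp, ← huC, hq, h0] at hh
    simp only [C_0, zero_mul, add_zero, comp_C] at hh
    have := congrArg (fun p : R => p.coeff 1) hh
    rw [← C_mul] at this
    simp at this
  -- step 3
  let t : Equiv.Perm (R × R) :=
      { toFun := F 1 (-1) 1 0 0 0
        invFun := F 1 (-1) 1 0 0 0
        left_inv := fun p => by
          rw [F_F]
          have : F (1 * 1) (-1 * -1) (1 * 1) (1 * 0 + 0) (1 * 0 + 1 * 0 * 0 + 0 * -1)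
            (1 * 0 * 1 + 0 * -1) p = F 1 1 1 0 0 0 p := by
            congr 1
          rw [this, F_one]
        right_inv := fun p => by
          rw [F_F]
          have : F (1 * 1) (-1 * -1) (1 * 1) (1 * 0 + 0) (1 * 0 + 1 * 0 * 0 + 0 * -1)
            (1 * 0 * 1 + 0 * -1) p = F 1 1 1 0 0 0 p := by
            congr 1
          rw [this, F_one] }
  have ht : t ∈ XX := ⟨1, -1, 1, 0, 0, 0, one_ne_zero, by decide, one_ne_zero, fun p => rfl⟩
  have htv : ∀ f h : R, t (f, h) = (f, -h) := by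
    intro f h
    change F 1 (-1) 1 0 0 0 (f, h) = _
    unfold F
    ext1 <;> simp
  obtain ⟨L', ⟨e1', e2', b', a', c', d', h1, h2, h3, hL'⟩, hg⟩ := H t ht
  have hy : ∀ y : R, F e1' e2' b' a' c' d' (y, 0) = (y, 0) := by
    intro y
    obtain ⟨h, hh⟩ := hDsurj (C r * y)
    have h5 := hg (h, 0)
    rw [htv, neg_zero, hg1, hh, ← hrC, ← mul_assoc, ← C_mul, hrr, C_1, one_mul, hL'] at h5
    exact h5.symm
  have hy1 := congrArg (fun p : R × R => p.1.coeff 0) (hy 1)
  have hy2 := congrArg (fun p : R × R => p.1.coeff 0) (hy X)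
  have hy3 := congrArg (fun p : R × R => p.1.coeff 1) (hy X)
  simp [F, coeff_C] at hy1 hy2 hy3
  subst hy1
  simp at hy2 hy3
  subst hy2 hy3
  -- B
  set B : R → R := fun h => (g (0, h)).1 with hB
  have hBD : ∀ h, g (0, h) = (B h, D h) := fun h => rfl
  have hBh : ∀ h, B h = (C c' + C d' * X) * D h := by
    intro h
    have h5 := hg (0, h)
    rw [htv, hL'] at h5
    have h6 : ((0 : R), -h) = -(0, h) := by simp
    rw [h6, map_neg, hBD] at h5
    have h7 := congrArg Prod.fst h5
    unfold F at h7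
    simp only [Prod.fst_neg, C_1, one_mul, C_0, add_zero, comp_X] at h7
    have h8 := congrArg Prod.fst (three (B h, 0))
    simp only [Prod.fst_add, Prod.fst_zero] at h8
    linear_combination h8 + h7
  refine ⟨r * u, u, r * d2, r * c2, c' * u, d' * u, mul_ne_zero hr0 hu0, hu0, hb0, fun p => ?_⟩
  obtain ⟨f, h⟩ := p
  have h9 : (f, h) = (f, 0) + ((0 : R), h) := by simp
  change g (f, h) = _
  rw [h9, map_add, hg1, hBD, hBh, ← hrC, hDcomp f, hDcomp h, ← huC]
  unfold F
  have hqq : C (r * d2) * X + C (r * c2) = q := by rw [hq]; ring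
  rw [hqq]
  ext1
  · simp only [Prod.fst_add, Prod.snd_add, C_mul, add_zero, zero_add]
    ring
  · simp only [Prod.snd_add, zero_add]
    ring

/-- local finiteness input -/
lemma XX_loc (S : Set (R × R)) (hS : S.Finite) : ∃ U : AddSubgroup (R × R), (U : Set (R × R)).Finite ∧
    S ⊆ U ∧ ∀ L ∈ XX, ∀ u ∈ U, L u ∈ U := by
  -- a degree bound
  obtain ⟨N, hN⟩ : ∃ N : ℕ, ∀ p ∈ S, p.1.natDegree ≤ N ∧ p.2.natDegree ≤ N := by
    have h1 := (hS.image (fun p : R × R => max p.1.natDegree p.2.natDegree)).bddAbove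
    obtain ⟨N, hN⟩ := h1
    refine ⟨N, fun p hp => ?_⟩
    have := hN ⟨p, hp, rfl⟩
    simp only [sup_le_iff] at this
    exact this
  let U1 : Submodule (ZMod 3) R := degreeLT (ZMod 3) (N + 2)
  let U2 : Submodule (ZMod 3) R := degreeLT (ZMod 3) (N + 1)
  have hU : ∀ (M : ℕ) (p : R), p ∈ degreeLT (ZMod 3) (M + 1) ↔ p.natDegree ≤ M := by
    intro M p
    rw [mem_degreeLT, degree_lt_iff_coeff_zero, natDegree_le_iff_coeff_eq_zero]
    exact Iff.rfl
  have hU1 : ∀ p : R, p ∈ U1 ↔ p.natDegree ≤ N + 1 := hU (N + 1)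
  have hU2 : ∀ p : R, p ∈ U2 ↔ p.natDegree ≤ N := hU N
  have hf1 : (U1 : Set R).Finite := by
    have : Finite U1 := Module.finite_of_finite (ZMod 3)
    exact this
  have hf2 : (U2 : Set R).Finite := by
    have : Finite U2 := Module.finite_of_finite (ZMod 3)
    exact this
  refine ⟨(U1.prod U2).toAddSubgroup, ?_, ?_, ?_⟩
  · have : (((U1.prod U2).toAddSubgroup : AddSubgroup (R × R)) : Set (R × R)) = (U1 : Set R) ×ˢ (U2 : Set R) := by
      ext p
      simp
    rw [this]
    exact hf1.prod hf2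
  · intro p hp
    have := hN p hp
    change p.1 ∈ U1 ∧ p.2 ∈ U2
    rw [hU1, hU2]
    omega
  · rintro L ⟨e1, e2, b, a, c, d, h1, h2, h3, h⟩ p hp
    change p.1 ∈ U1 ∧ p.2 ∈ U2 at hp
    change (L p).1 ∈ U1 ∧ (L p).2 ∈ U2
    rw [hU1, hU2] at hp ⊢
    rw [h]
    unfold F
    have hcomp : ∀ f : R, (f.comp (C b * X + C a)).natDegree ≤ f.natDegree := by
      intro f
      refine natDegree_comp_le.trans ?_
      have := natDegree_linear_le (a := b) (b := a)
      nlinarith
    have hC : ∀ (e : ZMod 3) (f : R), (C e * f).natDegree ≤ f.natDegree := natDegree_C_mul_le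
    refine ⟨?_, ?_⟩
    · refine (natDegree_add_le _ _).trans ?_
      rw [sup_le_iff]
      refine ⟨((hC _ _).trans (hcomp _)).trans hp.1, ?_⟩
      refine natDegree_mul_le.trans ?_
      have h5 := natDegree_linear_le (a := d) (b := c)
      rw [add_comm] at h5
      have h6 := (hcomp p.2).trans hp.2
      omega
    · exact ((hC _ _).trans (hcomp _)).trans hp.2

instance : Countable R := by
  rw [← Cardinal.mk_le_aleph0_iff]
  refine Polynomial.cardinalMk_le_max.trans ?_
  rw [sup_le_iff]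
  exact ⟨Cardinal.mk_le_aleph0_iff.2 inferInstance, le_rfl⟩

end Concrete

/-- There is a countable infinite group in which every finitely generated subgroup is finite, the centre is trivial, and every automorphism is conjugation by some group element. -/
theorem result :
    ∃ (G : Type) (_ : Group G), Countable G ∧ Infinite G ∧
      (∀ s : Finset G, ((Subgroup.closure (s : Set G) : Subgroup G) : Set G).Finite) ∧
      Subgroup.center G = ⊥ ∧
      ∀ φ : MulAut G, ∃ g : G, φ = MulAut.conj g := by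
  refine ⟨Aff XX XX_add, inferInstance, ?_, ?_, ?_, ?_, ?_⟩
  · have hs : Function.Surjective (fun q : (R × R) × XX => (tr q.1 * lin q.2 : Aff XX XX_add)) := by
      intro π
      obtain ⟨L, w, rfl⟩ := decomp π
      exact ⟨(w, L), rfl⟩
    exact hs.countable
  · exact Infinite.of_injective _ (tr_injective (X := XX) (hadd := XX_add))
  · exact loc_fin XX_loc
  · exact center_triv three neg_mem
  · exact aut_inner three neg_mem XX_FC XX_N

end Pool.Agent.S01689
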