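import Pool.Statements.S01696
-- import your own Pool.Agent.* helpers here

set_option autoImplicit false
open Pool Pool.MP_a8b576_al

namespace Pool.Agent.S01696
open Function Set

section MNdef
variable {G : Type} [Group G] [LinearOrder G] [MulLeftMono G] [MulRightMono G]

lemma fin_of_wf (S : Set G) (h1 : S.IsWF) (h2 : S.WellFoundedOn (fun a b => b < a)) : S.Finite := by
  by_contra hinf
  have hinf' : S.Infinite := hinf
  have hp : S.IsPWO := Set.isPWO_iff_isWF.mpr h1
  have : Infinite S := hinf'.to_subtype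
  let f : ℕ ↪ S := Infinite.natEmbedding S
  obtain ⟨g, hg⟩ := hp.exists_monotone_subseq (f := fun n => (f n : G)) (fun n => (f n).2)
  have hs : StrictMono (fun n => (f (g n) : G)) := by
    refine Monotone.strictMono_of_injective hg ?_
    intro a b hab
    have := f.injective (Subtype.ext hab)
    exact g.injective this
  rw [Set.wellFoundedOn_iff_no_descending_seq] at h2
  exact h2 ⟨⟨fun n => (f (g n) : G), hs.injective⟩, fun {a b} => by
    change (f (g b) : G) < (f (g a) : G) ↔ b < a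
    exact hs.lt_iff_lt⟩ (fun n => (f (g n)).2)

lemma fin_pair {S T : Set G} (hS : S.IsPWO) (hT : T.IsPWO) (g : G) :
    {a : G | a ∈ S ∧ a⁻¹ * g ∈ T}.Finite := by
  apply fin_of_wf
  · exact hS.isWF.mono (fun a h => h.1)
  · have hT' := hT.isWF
    have hm : MapsTo (fun a => a⁻¹ * g) {a : G | a ∈ S ∧ a⁻¹ * g ∈ T} T := fun a h => h.2
    have := Set.WellFoundedOn.mapsTo (fun a => a⁻¹ * g) hm hT'
    refine this.mono' ?_
    intro a _ b _ h
    exact mul_lt_mul_left (inv_lt_inv_iff.mpr h) g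

lemma pwo_mul {S T : Set G} (hS : S.IsPWO) (hT : T.IsPWO) :
    {g : G | ∃ a ∈ S, ∃ b ∈ T, a * b = g}.IsPWO := by
  have := (hS.prod hT).image_of_monotone (f := fun p : G × G => p.1 * p.2)
    (fun p q h => mul_le_mul' h.1 h.2)
  refine this.mono ?_
  rintro g ⟨a, ha, b, hb, rfl⟩
  exact ⟨(a, b), ⟨ha, hb⟩, rfl⟩

lemma pwo_closure {S : Set G} (hS : S.IsPWO) (h1 : ∀ a ∈ S, 1 ≤ a) :
    (Submonoid.closure S : Set G).IsPWO := by
  rw [Submonoid.closure_eq_image_prod]
  refine (hS.partiallyWellOrderedOn_sublistForall₂ (· ≤ ·)).image_of_monotone_on ?_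
  exact fun l1 _ l2 hl2 h12 => h12.prod_le_prod' fun x hx => h1 x <| hl2 x hx

variable (G) in
def MNsub : AddSubgroup (G → ℚ) where
  carrier := {f | (support f).IsPWO}
  add_mem' {f g} hf hg := (hf.union hg).mono (support_add f g)
  zero_mem' := by simp
  neg_mem' {f} hf := by
    change (support (-f)).IsPWO
    rw [support_neg]; exact hf

variable (G) in
def MN : Type := ↥(MNsub G)

noncomputable instance : AddCommGroup (MN G) := inferInstanceAs (AddCommGroup ↥(MNsub G))

def MN.c (x : MN G) : G → ℚ := x.1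

lemma MN.pwo (x : MN G) : (support x.c).IsPWO := x.2

@[ext] lemma MN.ext {x y : MN G} (h : ∀ g, x.c g = y.c g) : x = y := Subtype.ext (funext h)

@[simp] lemma MN.c_add (x y : MN G) (g : G) : (x + y).c g = x.c g + y.c g := rfl
@[simp] lemma MN.c_zero (g : G) : (0 : MN G).c g = 0 := rfl
@[simp] lemma MN.c_neg (x : MN G) (g : G) : (-x).c g = - x.c g := rfl
@[simp] lemma MN.c_sub (x y : MN G) (g : G) : (x - y).c g = x.c g - y.c g := rfl

def MN.mk (f : G → ℚ) (hf : (support f).IsPWO) : MN G := ⟨f, hf⟩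
@[simp] lemma MN.c_mk (f : G → ℚ) (hf : (support f).IsPWO) (g : G) : (MN.mk f hf).c g = f g := rfl

lemma fs (x y : MN G) (g : G) : HasFiniteSupport (fun a => x.c a * y.c (a⁻¹ * g)) := by
  refine (fin_pair x.pwo y.pwo g).subset ?_
  intro a ha
  have ha' : x.c a * y.c (a⁻¹ * g) ≠ 0 := ha
  exact ⟨left_ne_zero_of_mul ha', right_ne_zero_of_mul ha'⟩

noncomputable instance : Mul (MN G) where
  mul x y := MN.mk (fun g => ∑ᶠ a, x.c a * y.c (a⁻¹ * g)) (by
    refine (pwo_mul x.pwo y.pwo).mono ?_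
    intro g hg
    obtain ⟨a, ha⟩ : ∃ a, x.c a * y.c (a⁻¹ * g) ≠ 0 := by
      by_contra hcon
      push Not at hcon
      exact hg (finsum_eq_zero_of_forall_eq_zero hcon)
    exact ⟨a, left_ne_zero_of_mul ha, a⁻¹ * g, right_ne_zero_of_mul ha, by group⟩)

lemma MN.c_mul (x y : MN G) (g : G) : (x * y).c g = ∑ᶠ a, x.c a * y.c (a⁻¹ * g) := rfl

noncomputable def MN.single (h : G) (q : ℚ) : MN G :=
  MN.mk (fun g => if g = h then q else 0) (by
    refine (Set.finite_singleton h).isPWO.mono ?_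
    intro g hg
    by_contra hne
    exact hg (if_neg hne))

lemma MN.c_single (h : G) (q : ℚ) (g : G) : (MN.single h q).c g = if g = h then q else 0 := rfl

lemma MN.single_mul (h : G) (q : ℚ) (y : MN G) (g : G) :
    (MN.single h q * y).c g = q * y.c (h⁻¹ * g) := by
  rw [MN.c_mul, finsum_eq_single _ h]
  · rw [MN.c_single, if_pos rfl]
  · intro a ha
    rw [MN.c_single, if_neg ha, zero_mul]

lemma MN.mul_single (h : G) (q : ℚ) (y : MN G) (g : G) :
    (y * MN.single h q).c g = y.c (g * h⁻¹) * q := by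
  rw [MN.c_mul, finsum_eq_single _ (g * h⁻¹)]
  · rw [MN.c_single, if_pos (by group)]
  · intro a ha
    rw [MN.c_single, if_neg, mul_zero]
    intro h'
    apply ha
    rw [← h']; group

noncomputable instance : One (MN G) := ⟨MN.single 1 1⟩

lemma MN.one_def : (1 : MN G) = MN.single 1 1 := rfl

lemma MN.assoc (x y z : MN G) : x * y * z = x * (y * z) := by
  ext g
  rw [MN.c_mul, MN.c_mul]
  have e1 : ∀ c, (x * y).c c * z.c (c⁻¹ * g) = ∑ᶠ a, x.c a * y.c (a⁻¹ * c) * z.c (c⁻¹ * g) := by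
    intro c
    rw [MN.c_mul, finsum_mul]
  have e2 : ∀ a, x.c a * (y * z).c (a⁻¹ * g) = ∑ᶠ c, x.c a * y.c (a⁻¹ * c) * z.c (c⁻¹ * g) := by
    intro a
    rw [MN.c_mul, mul_finsum, ← finsum_comp_equiv (Equiv.mulLeft a⁻¹)]
    refine finsum_congr fun c => ?_
    simp only [Equiv.coe_mulLeft]
    rw [mul_assoc]
    congr 3
    group
  rw [finsum_congr e1, finsum_congr e2]
  have hfin : HasFiniteSupport (fun p : G × G => x.c p.2 * y.c (p.2⁻¹ * p.1) * z.c (p.1⁻¹ * g)) := by
    have hA := fin_pair (pwo_mul x.pwo y.pwo) z.pwo g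
    have hB : ∀ c : G, {a : G | a ∈ support x.c ∧ a⁻¹ * c ∈ support y.c}.Finite := fun c =>
      fin_pair x.pwo y.pwo c
    refine (hA.biUnion (t := fun c => (fun a => (c, a)) '' {a : G | a ∈ support x.c ∧ a⁻¹ * c ∈ support y.c})
      (fun c _ => (hB c).image _)).subset ?_
    rintro ⟨c, a⟩ h
    have h' : x.c a * y.c (a⁻¹ * c) * z.c (c⁻¹ * g) ≠ 0 := h
    have h1 := left_ne_zero_of_mul h'
    have hx := left_ne_zero_of_mul h1
    have hy := right_ne_zero_of_mul h1
    have hz := right_ne_zero_of_mul h'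
    simp only [Set.mem_iUnion]
    exact ⟨c, ⟨⟨a, hx, a⁻¹ * c, hy, by group⟩, hz⟩, a, ⟨hx, hy⟩, rfl⟩
  have hfin2 : HasFiniteSupport (fun p : G × G => x.c p.1 * y.c (p.1⁻¹ * p.2) * z.c (p.2⁻¹ * g)) := by
    have := hfin.preimage (f := Prod.swap) (Prod.swap_injective.injOn)
    exact this
  rw [← finsum_curry (fun p : G × G => x.c p.2 * y.c (p.2⁻¹ * p.1) * z.c (p.1⁻¹ * g)) hfin,
    ← finsum_curry (fun p : G × G => x.c p.1 * y.c (p.1⁻¹ * p.2) * z.c (p.2⁻¹ * g)) hfin2]
  rw [← finsum_comp_equiv (Equiv.prodComm G G)]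
  rfl

noncomputable instance : Ring (MN G) where
  __ := (inferInstance : AddCommGroup (MN G))
  mul_assoc := MN.assoc
  one_mul x := by ext g; rw [MN.one_def, MN.single_mul]; simp
  mul_one x := by ext g; rw [MN.one_def, MN.mul_single]; simp
  left_distrib x y z := by
    ext g
    rw [MN.c_mul, MN.c_add, MN.c_mul, MN.c_mul, ← finsum_add_distrib (fs x y g) (fs x z g)]
    refine finsum_congr fun a => ?_
    rw [MN.c_add, mul_add]
  right_distrib x y z := by
    ext g
    rw [MN.c_mul, MN.c_add, MN.c_mul, MN.c_mul, ← finsum_add_distrib (fs x z g) (fs y z g)]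
    refine finsum_congr fun a => ?_
    rw [MN.c_add, add_mul]
  zero_mul x := by
    ext g
    rw [MN.c_mul]
    simp
  mul_zero x := by
    ext g
    rw [MN.c_mul]
    simp

def MN.pos (x : MN G) : Prop := ∃ g, 0 < x.c g ∧ ∀ a, a < g → x.c a = 0

lemma MN.exists_lead (x : MN G) (hx : x ≠ 0) : ∃ g, x.c g ≠ 0 ∧ ∀ a, a < g → x.c a = 0 := by
  have hne : (support x.c).Nonempty := by
    by_contra h
    rw [Set.not_nonempty_iff_eq_empty, support_eq_empty_iff] at h
    exact hx (MN.ext fun g => congrFun h g)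
  refine ⟨x.pwo.isWF.min hne, x.pwo.isWF.min_mem hne, fun a ha => ?_⟩
  by_contra h
  exact x.pwo.isWF.not_lt_min hne h ha

lemma MN.pos_or (x : MN G) (hx : x ≠ 0) : x.pos ∨ (-x).pos := by
  obtain ⟨g, hg, h⟩ := x.exists_lead hx
  rcases lt_or_gt_of_ne hg with h' | h'
  · right
    exact ⟨g, by simpa using h', fun a ha => by simp [h a ha]⟩
  · left
    exact ⟨g, h', h⟩

lemma MN.pos_add {x y : MN G} (hx : x.pos) (hy : y.pos) : (x + y).pos := by
  obtain ⟨g, hg, h⟩ := hx
  obtain ⟨g', hg', h'⟩ := hy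
  rcases lt_trichotomy g g' with hlt | rfl | hlt
  · exact ⟨g, by rw [MN.c_add, h' g hlt, add_zero]; exact hg, fun a ha => by
      rw [MN.c_add, h a ha, h' a (ha.trans hlt), add_zero]⟩
  · exact ⟨g, by rw [MN.c_add]; exact add_pos hg hg', fun a ha => by
      rw [MN.c_add, h a ha, h' a ha, add_zero]⟩
  · exact ⟨g', by rw [MN.c_add, h g' hlt, zero_add]; exact hg', fun a ha => by
      rw [MN.c_add, h' a ha, h a (ha.trans hlt), add_zero]⟩

lemma MN.pos_mul {x y : MN G} (hx : x.pos) (hy : y.pos) : (x * y).pos := by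
  obtain ⟨g, hg, h⟩ := hx
  obtain ⟨g', hg', h'⟩ := hy
  refine ⟨g * g', ?_, ?_⟩
  · rw [MN.c_mul, finsum_eq_single _ g]
    · rw [inv_mul_cancel_left]; exact mul_pos hg hg'
    · intro a ha
      rcases lt_or_gt_of_ne ha with hlt | hlt
      · rw [h a hlt, zero_mul]
      · rw [h' (a⁻¹ * (g * g')), mul_zero]
        rw [← mul_assoc]
        have : a⁻¹ * g < 1 := by
          rw [inv_mul_lt_iff_lt_mul, mul_one]; exact hlt
        calc a⁻¹ * g * g' < 1 * g' := mul_lt_mul_left this g'
          _ = g' := one_mul _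
  · intro b hb
    rw [MN.c_mul]
    refine finsum_eq_zero_of_forall_eq_zero fun a => ?_
    by_cases hlt : a < g
    · rw [h a hlt, zero_mul]
    · rw [h' (a⁻¹ * b), mul_zero]
      push Not at hlt
      have : a⁻¹ ≤ g⁻¹ := inv_le_inv_iff.mpr hlt
      calc a⁻¹ * b ≤ g⁻¹ * b := mul_le_mul_left this b
        _ < g⁻¹ * (g * g') := mul_lt_mul_right hb g⁻¹
        _ = g' := by group

lemma MN.not_pos_zero : ¬ (0 : MN G).pos := by
  rintro ⟨g, hg, _⟩
  simp at hg

lemma MN.single_pos (h : G) (q : ℚ) (hq : 0 < q) : (MN.single h q).pos :=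
  ⟨h, by rw [MN.c_single, if_pos rfl]; exact hq, fun a ha => by
    rw [MN.c_single, if_neg ha.ne]⟩

lemma MN.one_pos : (1 : MN G).pos := MN.single_pos 1 1 _root_.one_pos

variable (G) in
def cone : RingCone (MN G) where
  carrier := {x | x = 0 ∨ x.pos}
  mul_mem' {x y} hx hy := by
    rcases hx with rfl | hx
    · left; rw [zero_mul]
    · rcases hy with rfl | hy
      · left; rw [mul_zero]
      · right; exact MN.pos_mul hx hy
  one_mem' := Or.inr MN.one_pos
  add_mem' {x y} hx hy := by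
    rcases hx with rfl | hx
    · rwa [zero_add]
    · rcases hy with rfl | hy
      · rw [add_zero]; right; exact hx
      · right; exact MN.pos_add hx hy
  zero_mem' := Or.inl rfl
  eq_zero_of_mem_of_neg_mem' {x} hx hy := by
    rcases hx with rfl | hx
    · rfl
    · rcases hy with hy | hy
      · exact neg_eq_zero.mp hy
      · exfalso
        have := MN.pos_add hx hy
        rw [add_neg_cancel] at this
        exact MN.not_pos_zero this

instance : HasMemOrNegMem (cone G) where
  mem_or_neg_mem x := by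
    by_cases hx : x = 0
    · left; exact Or.inl hx
    · rcases x.pos_or hx with h | h
      · left; exact Or.inr h
      · right; exact Or.inr h

open Classical in
noncomputable instance : LinearOrder (MN G) := LinearOrder.mkOfAddGroupCone (cone G)

instance : IsOrderedRing (MN G) := IsOrderedRing.mkOfCone (cone G)

lemma MN.le_iff (x y : MN G) : x ≤ y ↔ (y - x = 0 ∨ (y - x).pos) := Iff.rfl

lemma MN.lt_iff (x y : MN G) : x < y ↔ (y - x).pos := by
  rw [lt_iff_le_and_ne, MN.le_iff]
  constructor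
  · rintro ⟨h | h, hne⟩
    · exact absurd (sub_eq_zero.mp h).symm hne
    · exact h
  · intro h
    refine ⟨Or.inr h, ?_⟩
    rintro rfl
    rw [sub_self] at h
    exact MN.not_pos_zero h

instance : Nontrivial (MN G) := ⟨⟨1, 0, fun h => by
  have : (1 : MN G).pos := MN.one_pos
  rw [h] at this
  exact MN.not_pos_zero this⟩⟩

instance : NoZeroDivisors (MN G) where
  eq_zero_or_eq_zero_of_mul_eq_zero {x y} h := by
    by_contra hcon
    push Not at hcon
    obtain ⟨hx, hy⟩ := hcon
    rcases x.pos_or hx with hx' | hx' <;> rcases y.pos_or hy with hy' | hy'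
    · have := MN.pos_mul hx' hy'
      rw [h] at this; exact MN.not_pos_zero this
    · have := MN.pos_mul hx' hy'
      rw [mul_neg, h, neg_zero] at this; exact MN.not_pos_zero this
    · have := MN.pos_mul hx' hy'
      rw [neg_mul, h, neg_zero] at this; exact MN.not_pos_zero this
    · have := MN.pos_mul hx' hy'
      rw [neg_mul_neg, h] at this; exact MN.not_pos_zero this


/-- right inverse of a series with constant term one -/
lemma MN.exists_inv_one (z : MN G) (h1 : z.c 1 = 1) (h0 : ∀ a, a < 1 → z.c a = 0) :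
    ∃ y : MN G, z * y = 1 := by
  classical
  let S : Set G := (Submonoid.closure (support z.c) : Set G)
  have hS : S.IsPWO := by
    apply pwo_closure z.pwo
    intro a ha
    by_contra hlt
    push Not at hlt
    exact ha (h0 a hlt)
  have hwf : WellFounded (fun a b : S => (a : G) < (b : G)) := hS.isWF
  let F : (g : S) → ((g' : S) → (g' : G) < (g : G) → ℚ) → ℚ := fun g rec =>
    (if (g : G) = 1 then 1 else 0) -
      ∑ᶠ a : G, z.c a * (if h : a⁻¹ * (g : G) ∈ S ∧ a⁻¹ * (g : G) < (g : G) then rec ⟨a⁻¹ * g, h.1⟩ h.2 else 0)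
  let y' : S → ℚ := hwf.fix F
  have hy' : ∀ g : S, y' g = (if (g : G) = 1 then 1 else 0) -
      ∑ᶠ a : G, z.c a * (if h : a⁻¹ * (g : G) ∈ S ∧ a⁻¹ * (g : G) < (g : G) then y' ⟨a⁻¹ * g, h.1⟩ else 0) :=
    fun g => hwf.fix_eq F g
  let yf : G → ℚ := fun g => if h : g ∈ S then y' ⟨g, h⟩ else 0
  have hyS : support yf ⊆ S := by
    intro g hg
    by_contra hn
    exact hg (dif_neg hn)
  let y : MN G := MN.mk yf (hS.mono hyS)
  refine ⟨y, ?_⟩
  ext g
  rw [MN.one_def, MN.c_single, MN.c_mul]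
  by_cases hg : g ∈ S
  · have e : ∀ a, z.c a * y.c (a⁻¹ * g) = (if a = 1 then y.c g else 0) +
        z.c a * (if h : a⁻¹ * g ∈ S ∧ a⁻¹ * g < g then y' ⟨a⁻¹ * g, h.1⟩ else 0) := by
      intro a
      by_cases ha : a = 1
      · subst ha
        rw [if_pos rfl, dif_neg (fun h => by simp at h), h1, mul_zero, add_zero, one_mul]
        simp
      · rw [if_neg ha, zero_add]
        by_cases hz : z.c a = 0
        · rw [hz, zero_mul, zero_mul]
        · have h1a : 1 < a := by
            rcases lt_trichotomy a 1 with h | h | h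
            · exact absurd (h0 a h) hz
            · exact absurd h ha
            · exact h
          have hlt : a⁻¹ * g < g := by
            rw [inv_mul_lt_iff_lt_mul]
            exact lt_mul_of_one_lt_left' g h1a
          by_cases hm : a⁻¹ * g ∈ S
          · rw [dif_pos ⟨hm, hlt⟩]
            congr 1
            exact dif_pos hm
          · rw [dif_neg (fun h => hm h.1)]
            congr 1
            exact dif_neg hm
    rw [finsum_congr e, finsum_add_distrib, finsum_eq_single _ 1 (fun a ha => if_neg ha), if_pos rfl]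
    · have : y.c g = y' ⟨g, hg⟩ := dif_pos hg
      rw [this, hy' ⟨g, hg⟩]
      simp
    · refine (Set.finite_singleton (1 : G)).subset ?_
      intro a ha
      by_contra hne
      exact ha (if_neg hne)
    · refine (fs z y g).subset ?_
      intro a ha
      have ha' : z.c a * (if h : a⁻¹ * g ∈ S ∧ a⁻¹ * g < g then y' ⟨a⁻¹ * g, h.1⟩ else 0) ≠ 0 := ha
      have hza := left_ne_zero_of_mul ha'
      have hd := right_ne_zero_of_mul ha'
      have hcond : a⁻¹ * g ∈ S ∧ a⁻¹ * g < g := by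
        by_contra hc
        exact hd (dif_neg hc)
      rw [dif_pos hcond] at hd
      refine mul_ne_zero hza ?_
      have : y.c (a⁻¹ * g) = y' ⟨a⁻¹ * g, hcond.1⟩ := dif_pos hcond.1
      rw [this]; exact hd
  · have hg1 : g ≠ 1 := by
      rintro rfl
      exact hg (Submonoid.one_mem _)
    rw [if_neg hg1]
    refine finsum_eq_zero_of_forall_eq_zero fun a => ?_
    by_cases hz : z.c a = 0
    · rw [hz, zero_mul]
    · have hy0 : y.c (a⁻¹ * g) = 0 := by
        by_contra hne
        have hm : a⁻¹ * g ∈ S := hyS hne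
        apply hg
        have ha : a ∈ S := Submonoid.subset_closure hz
        have := Submonoid.mul_mem _ ha hm
        rwa [mul_inv_cancel_left] at this
      rw [hy0, mul_zero]

lemma MN.exists_inv (x : MN G) (hx : x ≠ 0) : ∃ y : MN G, x * y = 1 := by
  obtain ⟨g, hg, h⟩ := x.exists_lead hx
  obtain ⟨y, hy⟩ := MN.exists_inv_one (MN.single g⁻¹ (x.c g)⁻¹ * x)
    (by rw [MN.single_mul]; simp [hg])
    (fun a ha => by
      rw [MN.single_mul, inv_inv, h (g * a) (mul_lt_of_lt_one_right' g ha), mul_zero])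
  refine ⟨y * MN.single g⁻¹ (x.c g)⁻¹, ?_⟩
  have hu : MN.single g (x.c g) * MN.single g⁻¹ (x.c g)⁻¹ = (1 : MN G) := by
    ext a
    rw [MN.single_mul, MN.c_single, MN.one_def, MN.c_single]
    by_cases ha : a = 1
    · subst ha; simp [hg]
    · rw [if_neg ha, if_neg, mul_zero]
      intro h'
      apply ha
      calc a = g * (g⁻¹ * a) := by group
        _ = 1 := by rw [h']; group
  have hu' : MN.single g⁻¹ (x.c g)⁻¹ * MN.single g (x.c g) = (1 : MN G) := by
    ext a
    rw [MN.single_mul, MN.c_single, MN.one_def, MN.c_single]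
    by_cases ha : a = 1
    · subst ha; simp [hg]
    · rw [if_neg ha, if_neg, mul_zero]
      intro h'
      apply ha
      calc a = g⁻¹ * (g⁻¹⁻¹ * a) := by group
        _ = 1 := by rw [h']; group
  calc x * (y * MN.single g⁻¹ (x.c g)⁻¹)
      = (MN.single g (x.c g) * MN.single g⁻¹ (x.c g)⁻¹) * x * (y * MN.single g⁻¹ (x.c g)⁻¹) := by
        rw [hu, one_mul]
    _ = MN.single g (x.c g) * ((MN.single g⁻¹ (x.c g)⁻¹ * x) * y) * MN.single g⁻¹ (x.c g)⁻¹ := by
        noncomm_ring
    _ = 1 := by rw [hy, mul_one, hu]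

lemma MN.unit_or (x : MN G) : IsUnit x ∨ x = 0 := by
  by_cases hx : x = 0
  · right; exact hx
  · left
    obtain ⟨y, hy⟩ := x.exists_inv hx
    have hy0 : y ≠ 0 := by
      rintro rfl
      rw [mul_zero] at hy
      exact zero_ne_one hy
    have : (y * x - 1) * y = 0 := by
      rw [sub_mul, mul_assoc, hy, mul_one, one_mul, sub_self]
    rcases mul_eq_zero.mp this with h | h
    · exact ⟨⟨x, y, hy, sub_eq_zero.mp h⟩, rfl⟩
    · exact absurd h hy0

noncomputable instance : DivisionRing (MN G) := DivisionRing.ofIsUnitOrEqZero MN.unit_or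

instance : IsStrictOrderedRing (MN G) := IsOrderedRing.toIsStrictOrderedRing (MN G)

lemma MN.single_mul_single (g h : G) : (MN.single g 1 * MN.single h 1 : MN G) = MN.single (g * h) 1 := by
  ext a
  rw [MN.single_mul, MN.c_single, MN.c_single, one_mul]
  by_cases ha : a = g * h
  · rw [if_pos ha, if_pos]
    rw [ha]; group
  · rw [if_neg ha, if_neg]
    intro h'
    apply ha
    rw [← h']; group

lemma MN.single_lt_single (g h : G) (hgh : g < h) : (MN.single h 1 : MN G) < MN.single g 1 := by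
  rw [MN.lt_iff]
  refine ⟨g, ?_, ?_⟩
  · rw [MN.c_sub, MN.c_single, MN.c_single, if_pos rfl, if_neg hgh.ne]; norm_num
  · intro a ha
    rw [MN.c_sub, MN.c_single, MN.c_single, if_neg ha.ne, if_neg (ha.trans hgh).ne, sub_self]

end MNdef

instance ns2 : Zsqrtd.Nonsquare 2 := ⟨fun n h => by
  rcases n with _ | _ | n
  · omega
  · omega
  · nlinarith [h, Nat.zero_le n]⟩

abbrev O := ℤ√((2 : ℕ) : ℤ)


def r : Oˣ where
  val := ⟨1, 1⟩
  inv := ⟨-1, 1⟩
  val_inv := by decide
  inv_val := by decide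

def R (n : ℤ) : O := ((r ^ n : Oˣ) : O)

lemma R_zero : R 0 = 1 := by simp [R]
lemma R_add (a b : ℤ) : R (a + b) = R a * R b := by simp [R, zpow_add]
lemma R_one : R 1 = ⟨1, 1⟩ := by simp [R]; rfl

lemma r_pos : 0 < (r : O) := by decide
lemma rinv_pos : 0 < ((r⁻¹ : Oˣ) : O) := by decide

lemma R_pos (n : ℤ) : 0 < R n := by
  unfold R
  rcases n with n | n
  · simp only [Int.ofNat_eq_natCast, zpow_natCast, Units.val_pow_eq_pow_val]
    exact pow_pos r_pos n
  · rw [zpow_negSucc, ← inv_pow, Units.val_pow_eq_pow_val]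
    exact pow_pos rinv_pos _

def S (n : ℤ) : O := star (R n)
lemma S_zero : S 0 = 1 := by simp [S, R_zero]
lemma S_add (a b : ℤ) : S (a + b) = S a * S b := by simp [S, R_add]

lemma S_two_pos (n : ℤ) : 0 < S (2 * n) := by
  rw [two_mul, S_add]
  apply mul_self_pos.mpr
  intro h
  unfold S at h
  rw [star_eq_zero] at h
  exact (R_pos n).ne' h

@[ext] structure H where
  k : ℤ
  l : ℤ
  m : O
  y : O
  x : O

namespace H

instance : Mul H := ⟨fun a b => ⟨a.k + b.k, a.l + b.l, a.m + R a.k * b.m, a.y + R (a.k - 2 * a.l) * b.y,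
  a.x + S (2 * (a.k - a.l)) * b.x + star a.m * star (R (a.k - 2 * a.l) * b.y)⟩⟩
instance : One H := ⟨⟨0, 0, 0, 0, 0⟩⟩
instance : Inv H := ⟨fun a => ⟨-a.k, -a.l, -(R (-a.k) * a.m), -(R (-(a.k - 2 * a.l)) * a.y),
  -(S (-(2 * (a.k - a.l))) * a.x) + star (R (-a.k) * a.m) * star (R (-(a.k - 2 * a.l)) * a.y)⟩⟩

lemma mul_def (a b : H) : a * b = ⟨a.k + b.k, a.l + b.l, a.m + R a.k * b.m, a.y + R (a.k - 2 * a.l) * b.y,
  a.x + S (2 * (a.k - a.l)) * b.x + star a.m * star (R (a.k - 2 * a.l) * b.y)⟩ := rfl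
lemma one_def : (1 : H) = ⟨0, 0, 0, 0, 0⟩ := rfl
lemma inv_def (a : H) : a⁻¹ = ⟨-a.k, -a.l, -(R (-a.k) * a.m), -(R (-(a.k - 2 * a.l)) * a.y),
  -(S (-(2 * (a.k - a.l))) * a.x) + star (R (-a.k) * a.m) * star (R (-(a.k - 2 * a.l)) * a.y)⟩ := rfl

instance : Group H := Group.ofLeftAxioms
  (fun a b c => by
    simp only [mul_def]
    ext1
    · simp only; ring
    · simp only; ring
    · simp only [R_add]; ring
    · simp only
      rw [show a.k + b.k - 2 * (a.l + b.l) = (a.k - 2 * a.l) + (b.k - 2 * b.l) by ring, R_add]; ring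
    · simp only
      rw [show a.k + b.k - 2 * (a.l + b.l) = (a.k - 2 * a.l) + (b.k - 2 * b.l) by ring, R_add,
        show 2 * (a.k + b.k - (a.l + b.l)) = 2 * (a.k - a.l) + 2 * (b.k - b.l) by ring, S_add]
      have e : S (2 * (a.k - a.l)) = S a.k * S (a.k - 2 * a.l) := by
        rw [← S_add]; congr 1; ring
      simp only [mul_add, star_add, star_mul', e]
      simp only [S]
      ring)
  (fun a => by
    simp only [mul_def, one_def]
    ext1
    · simp
    · simp
    · simp [R_zero]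
    · simp [R_zero]
    · simp [S_zero, R_zero])
  (fun a => by
    simp only [mul_def, one_def, inv_def]
    ext1
    · simp
    · simp
    · simp
    · simp only
      rw [show -a.k - 2 * -a.l = -(a.k - 2 * a.l) by ring]; ring
    · simp only
      rw [show -a.k - 2 * -a.l = -(a.k - 2 * a.l) by ring,
        show 2 * (-a.k - -a.l) = -(2 * (a.k - a.l)) by ring]
      simp only [star_neg, star_mul']
      ring)


def toL (a : H) : ℤ ×ₗ (ℤ ×ₗ (O ×ₗ (O ×ₗ O))) := toLex (a.k, toLex (a.l, toLex (a.m, toLex (a.y, a.x))))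

lemma toL_inj : Function.Injective toL := by
  intro a b h
  simp only [toL, EmbeddingLike.apply_eq_iff_eq, Prod.mk.injEq] at h
  obtain ⟨h1, h2, h3, h4, h5⟩ := h
  exact H.ext h1 h2 h3 h4 h5

noncomputable instance : LinearOrder H := LinearOrder.lift' toL toL_inj

lemma lt_iff (a b : H) : a < b ↔ a.k < b.k ∨ a.k = b.k ∧ (a.l < b.l ∨ a.l = b.l ∧
    (a.m < b.m ∨ a.m = b.m ∧ (a.y < b.y ∨ a.y = b.y ∧ a.x < b.x))) := by
  change toL a < toL b ↔ _
  simp only [toL, Prod.Lex.toLex_lt_toLex]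

lemma left_mul (c a b : H) (h : a < b) : c * a < c * b := by
  rw [lt_iff] at h ⊢
  simp only [mul_def]
  rcases h with h | ⟨h1, h | ⟨h2, h | ⟨h3, h | ⟨h4, h⟩⟩⟩⟩
  · left; linarith
  · right; exact ⟨by rw [h1], Or.inl (by linarith)⟩
  · right; refine ⟨by rw [h1], Or.inr ⟨by rw [h2], Or.inl ?_⟩⟩
    have := mul_lt_mul_of_pos_left h (R_pos c.k)
    linarith
  · right; refine ⟨by rw [h1], Or.inr ⟨by rw [h2], Or.inr ⟨by rw [h3], Or.inl ?_⟩⟩⟩
    have := mul_lt_mul_of_pos_left h (R_pos (c.k - 2 * c.l))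
    linarith
  · right; refine ⟨by rw [h1], Or.inr ⟨by rw [h2], Or.inr ⟨by rw [h3], Or.inr ⟨by rw [h4], ?_⟩⟩⟩⟩
    have := mul_lt_mul_of_pos_left h (S_two_pos (c.k - c.l))
    rw [h4]
    linarith

lemma right_mul (c a b : H) (h : a < b) : a * c < b * c := by
  rw [lt_iff] at h ⊢
  simp only [mul_def]
  rcases h with h | ⟨h1, h | ⟨h2, h | ⟨h3, h | ⟨h4, h⟩⟩⟩⟩
  · left; linarith
  · right; exact ⟨by rw [h1], Or.inl (by linarith)⟩
  · right; refine ⟨by rw [h1], Or.inr ⟨by rw [h2], Or.inl ?_⟩⟩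
    rw [h1]; linarith
  · right; refine ⟨by rw [h1], Or.inr ⟨by rw [h2], Or.inr ⟨by rw [h1, h3], Or.inl ?_⟩⟩⟩
    rw [h1, h2]; linarith
  · right; refine ⟨by rw [h1], Or.inr ⟨by rw [h2], Or.inr ⟨by rw [h1, h3], Or.inr ⟨by rw [h1, h2, h4], ?_⟩⟩⟩⟩
    rw [h1, h2, h3]; linarith

instance : MulLeftMono H := ⟨fun c a b h => by
  rcases eq_or_lt_of_le h with rfl | h
  · exact le_rfl
  · exact (left_mul c a b h).le⟩

instance : MulRightMono H := ⟨fun c a b h => by
  rcases eq_or_lt_of_le h with rfl | h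
  · exact le_rfl
  · exact (right_mul c a b h).le⟩

def v : H := ⟨1, 0, 0, 0, 0⟩
def h : H := ⟨0, 1, 0, 0, 0⟩
def d : H := ⟨0, 0, -1, 0, 0⟩
def e : H := ⟨0, 0, 0, 1, -1⟩
def w : H := d * v

lemma hv : h * v = v * h := by
  simp [h, v, mul_def]
lemma hd : h * d = d * h := by
  simp [h, d, mul_def, R_zero]
lemma hw : h * w = w * h := by
  rw [w, ← mul_assoc, hd, mul_assoc, hv, mul_assoc]

lemma R_two : R 2 = ⟨3, 2⟩ := by
  rw [show (2 : ℤ) = 1 + 1 by norm_num, R_add, R_one]; decide
lemma R_neg_one : R (-1) = ⟨-1, 1⟩ := by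
  have := R_add 1 (-1)
  rw [add_neg_cancel, R_zero, R_one] at this
  calc R (-1) = (⟨-1, 1⟩ * ⟨1, 1⟩ : O) * R (-1) := by rw [show (⟨-1, 1⟩ * ⟨1, 1⟩ : O) = 1 by decide, one_mul]
    _ = ⟨-1, 1⟩ * (⟨1, 1⟩ * R (-1)) := mul_assoc _ _ _
    _ = ⟨-1, 1⟩ := by rw [← this, mul_one]
lemma R_neg_two : R (-2) = ⟨3, -2⟩ := by
  rw [show (-2 : ℤ) = -1 + -1 by norm_num, R_add, R_neg_one]; decide

lemma c1 : e * (w * w * h) < w * w * h * e := by
  rw [lt_iff]
  simp [e, w, d, v, h, mul_def, R_zero, R_one, R_two, S]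
  decide
lemma c2 : e * (v * v * h) < v * v * h * e := by
  rw [lt_iff]
  simp [e, d, v, h, mul_def, R_zero, R_one, R_two, S]
  decide
lemma c3 : w * v * h * e < e * (w * v * h) := by
  rw [lt_iff]
  simp [e, w, d, v, h, mul_def, R_zero, R_one, R_two, S]
  decide

end H

section fin0
variable {L : Type} [DivisionRing L] [LinearOrder L] [IsStrictOrderedRing L]

lemma comm_root (w h k : L) (hw : 0 < w) (hc : h * w = w * h) (hk : 0 < k) (hk2 : k * k = h) :
    k * w = w * k := by
  have hwi : 0 < w⁻¹ := inv_pos.mpr hw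
  set k' := w⁻¹ * k * w with hk'
  have hk'0 : 0 < k' := mul_pos (mul_pos hwi hk) hw
  have e : k' * k' = k * k := by
    rw [hk']
    calc w⁻¹ * k * w * (w⁻¹ * k * w) = w⁻¹ * k * (w * w⁻¹) * k * w := by noncomm_ring
      _ = w⁻¹ * (k * k * w) := by rw [mul_inv_cancel₀ hw.ne']; noncomm_ring
      _ = w⁻¹ * w * h := by rw [hk2, hc]; noncomm_ring
      _ = k * k := by rw [inv_mul_cancel₀ hw.ne', one_mul, hk2]
  have hkk : k' = k := by
    rcases lt_trichotomy k' k with hlt | heq | hlt
    · exact absurd e (mul_lt_mul'' hlt hlt hk'0.le hk'0.le).ne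
    · exact heq
    · exact absurd e (mul_lt_mul'' hlt hlt hk.le hk.le).ne'
  calc k * w = w * (w⁻¹ * k * w) := by
        rw [← mul_assoc, ← mul_assoc, mul_inv_cancel₀ hw.ne', one_mul]
    _ = w * k := by rw [← hk', hkk]

lemma half (a e : L) (ha : 0 < a) (h : a * a * e < e * (a * a)) : a * e < e * a := by
  by_contra hcon
  push Not at hcon
  have h1 : e * a * a ≤ a * e * a := mul_le_mul_of_nonneg_right hcon ha.le
  have h2 : a * (e * a) ≤ a * (a * e) := mul_le_mul_of_nonneg_left hcon ha.le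
  rw [← mul_assoc, ← mul_assoc] at h2
  rw [← mul_assoc] at h
  exact absurd h (not_lt.mpr (h1.trans h2))

theorem no_root (w v h e k : L) (hw0 : 0 < w) (hv0 : 0 < v) (hwc : h * w = w * h)
    (hvc : h * v = v * h) (h1 : w * w * h * e < e * (w * w * h)) (h2 : v * v * h * e < e * (v * v * h))
    (h3 : e * (w * v * h) < w * v * h * e) (hk : 0 < k) (hk2 : k * k = h) : False := by
  have kw := comm_root w h k hw0 hwc hk hk2
  have kv := comm_root v h k hv0 hvc hk hk2
  have ea : w * k * (w * k) = w * w * h := by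
    rw [← hk2]
    calc w * k * (w * k) = w * (k * w) * k := by noncomm_ring
      _ = w * w * (k * k) := by rw [kw]; noncomm_ring
  have eb : v * k * (v * k) = v * v * h := by
    rw [← hk2]
    calc v * k * (v * k) = v * (k * v) * k := by noncomm_ring
      _ = v * v * (k * k) := by rw [kv]; noncomm_ring
  have eab : w * k * (v * k) = w * v * h := by
    rw [← hk2]
    calc w * k * (v * k) = w * (k * v) * k := by noncomm_ring
      _ = w * v * (k * k) := by rw [kv]; noncomm_ring
  have ha : 0 < w * k := mul_pos hw0 hk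
  have hb : 0 < v * k := mul_pos hv0 hk
  have ia := half (w * k) e ha (by rw [ea]; exact h1)
  have ib := half (v * k) e hb (by rw [eb]; exact h2)
  have j1 : w * k * (v * k * e) < w * k * (e * (v * k)) := mul_lt_mul_of_pos_left ib ha
  have j2 : w * k * e * (v * k) < e * (w * k) * (v * k) := mul_lt_mul_of_pos_right ia hb
  have j3 : w * v * h * e < e * (w * v * h) := by
    rw [← eab]
    calc w * k * (v * k) * e = w * k * (v * k * e) := by noncomm_ring
      _ < w * k * (e * (v * k)) := j1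
      _ = w * k * e * (v * k) := by noncomm_ring
      _ < e * (w * k) * (v * k) := j2
      _ = e * (w * k * (v * k)) := by noncomm_ring
  exact absurd h3 (not_lt.mpr j3.le)

end fin0



/-- The negation of the preceding statement: Every ordered division ring K : Type admits a strictly monotone ring hom into an ordered division ring L : Type in which every positive element has a positive n-th root for all n ≥ 1. -/
theorem result :
    ¬ (∀ (K : Type) [DivisionRing K] [LinearOrder K] [IsStrictOrderedRing K],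
      ∃ (L : Type) (_ : DivisionRing L) (_ : LinearOrder L) (_ : IsStrictOrderedRing L)
        (f : K →+* L), StrictMono f ∧
          ∀ x : L, 0 < x → ∀ n : ℕ, 0 < n → ∃ y : L, 0 < y ∧ y ^ n = x) := by
  intro hall
  obtain ⟨L, i1, i2, i3, f, hf, hroot⟩ := hall (MN H)
  let s : H → MN H := fun g => MN.single g 1
  have sm : ∀ a b, s a * s b = s (a * b) := MN.single_mul_single
  have sl : ∀ a b, a < b → s b < s a := MN.single_lt_single
  have sp : ∀ a, 0 < s a := fun a => by
    rw [MN.lt_iff, sub_zero]; exact MN.single_pos a 1 one_pos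
  have fp : ∀ a, 0 < f (s a) := fun a => by
    have := hf (sp a)
    rwa [map_zero] at this
  have fm : ∀ a b, f (s a) * f (s b) = f (s (a * b)) := fun a b => by rw [← map_mul, sm]
  obtain ⟨k, hk, hk2⟩ := hroot (f (s H.h)) (fp _) 2 (by norm_num)
  apply no_root (f (s H.w)) (f (s H.v)) (f (s H.h)) (f (s H.e)) k (fp _) (fp _)
  · rw [fm, fm, H.hw]
  · rw [fm, fm, H.hv]
  · simp only [fm]
    exact hf (sl _ _ H.c1)
  · simp only [fm]
    exact hf (sl _ _ H.c2)
  · simp only [fm]
    exact hf (sl _ _ H.c3)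
  · exact hk
  · rw [← pow_two]; exact hk2

end Pool.Agent.S01696
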