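import Pool.Statements.S01697
import Pool.Agent.Helper895.AltFree

set_option autoImplicit false
open Pool Pool.MP_a8cdcd_al

namespace Pool.Agent.S01697

/-- The free alternative ring on 3 generators (free magma ring over ℤ modulo the ideal of alternative laws) is semiprime: any ideal whose products all vanish modulo the alternative-law ideal is itself contained in that ideal. -/
theorem result :
    ∀ J : TwoSidedIdeal (MonoidAlgebra ℤ (FreeMagma (Fin 3))),
      (∀ a b : MonoidAlgebra ℤ (FreeMagma (Fin 3)),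
          (a * a) * b - a * (a * b) ∈ J ∧ (b * a) * a - b * (a * a) ∈ J) →
      (∀ x ∈ J, ∀ y ∈ J, ∀ K : TwoSidedIdeal (MonoidAlgebra ℤ (FreeMagma (Fin 3))),
          (∀ a b : MonoidAlgebra ℤ (FreeMagma (Fin 3)),
              (a * a) * b - a * (a * b) ∈ K ∧ (b * a) * a - b * (a * a) ∈ K) →
          x * y ∈ K) →
      ∀ x ∈ J, ∀ K : TwoSidedIdeal (MonoidAlgebra ℤ (FreeMagma (Fin 3))),
          (∀ a b : MonoidAlgebra ℤ (FreeMagma (Fin 3)),
              (a * a) * b - a * (a * b) ∈ K ∧ (b * a) * a - b * (a * a) ∈ K) →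
          x ∈ K := by
  intro J _ hJ x hx K hK
  have hc := Pool.Agent.Helper895.Alt.isAltCon_gen
  set c := ringConGen (fun (p q : MonoidAlgebra ℤ (FreeMagma (Fin 3))) =>
    ∃ a b : MonoidAlgebra ℤ (FreeMagma (Fin 3)),
      (p = (a * a) * b ∧ q = a * (a * b)) ∨ (p = (b * a) * a ∧ q = b * (a * a))) with hcdef
  have h1 : x * x ∈ TwoSidedIdeal.ofRingCon c := by
    apply hJ x hx x hx
    intro a b
    rw [← TwoSidedIdeal.rel_iff, ← TwoSidedIdeal.rel_iff]
    exact hc.law a b
  have h2 : ((x : c.Quotient) * (x : c.Quotient)) = 0 := (RingCon.eq c).mpr h1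
  have h3 : (x : c.Quotient) = ((0 : MonoidAlgebra ℤ (FreeMagma (Fin 3))) : c.Quotient) :=
    Pool.Agent.Helper895.Alt.sq_zero hc h2
  have h4 : c x 0 := (RingCon.eq c).mp h3
  have h5 : c ≤ K.ringCon := hc.le _ (fun a b => by
    rw [TwoSidedIdeal.rel_iff, TwoSidedIdeal.rel_iff]; exact hK a b)
  exact h5 h4

end Pool.Agent.S01697
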