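import Pool.Statements.S01704
import Pool.Agent.Helper6.QV3

set_option autoImplicit false
open Pool Pool.MP_a96036_al

namespace Pool.Agent.S01704

/-- The negation of the preceding statement: For every finite set of ℓ-group quasi-identities there is a finite set of identities such that an ℓ-group satisfies them iff it satisfies every identity holding in all ℓ-groups that obey the quasi-identities. -/
theorem result :
    ¬ (∀ Q : List (List (List (ℕ ⊕ Fin 5) × List (ℕ ⊕ Fin 5)) × (List (ℕ ⊕ Fin 5) × List (ℕ ⊕ Fin 5))),
      ∃ E : List (List (ℕ ⊕ Fin 5) × List (ℕ ⊕ Fin 5)),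
        ∀ (G : Type) [Group G] [Lattice G] [MulLeftMono G] [MulRightMono G],
          ((∀ e ∈ E, ∀ v : ℕ → G,
              (List.foldl (fun (s : List G) (a : ℕ ⊕ Fin 5) =>
                Sum.elim (fun i : ℕ => v i :: s)
                  (fun k : Fin 5 => (![(1 : G), (s.headD 1)⁻¹, s.tail.headD 1 * s.headD 1,
                    s.tail.headD 1 ⊔ s.headD 1, s.tail.headD 1 ⊓ s.headD 1] k) :: s.tail.tail) a)
                ([] : List G) e.1).headD 1
              = (List.foldl (fun (s : List G) (a : ℕ ⊕ Fin 5) =>
                Sum.elim (fun i : ℕ => v i :: s)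
                  (fun k : Fin 5 => (![(1 : G), (s.headD 1)⁻¹, s.tail.headD 1 * s.headD 1,
                    s.tail.headD 1 ⊔ s.headD 1, s.tail.headD 1 ⊓ s.headD 1] k) :: s.tail.tail) a)
                ([] : List G) e.2).headD 1)
          ↔
          (∀ e : List (ℕ ⊕ Fin 5) × List (ℕ ⊕ Fin 5),
            (∀ (H : Type) [Group H] [Lattice H] [MulLeftMono H] [MulRightMono H],
              (∀ q ∈ Q, ∀ w : ℕ → H,
                (∀ p ∈ q.1,
                  (List.foldl (fun (s : List H) (a : ℕ ⊕ Fin 5) =>
                    Sum.elim (fun i : ℕ => w i :: s)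
                      (fun k : Fin 5 => (![(1 : H), (s.headD 1)⁻¹, s.tail.headD 1 * s.headD 1,
                        s.tail.headD 1 ⊔ s.headD 1, s.tail.headD 1 ⊓ s.headD 1] k) :: s.tail.tail) a)
                    ([] : List H) p.1).headD 1
                  = (List.foldl (fun (s : List H) (a : ℕ ⊕ Fin 5) =>
                    Sum.elim (fun i : ℕ => w i :: s)
                      (fun k : Fin 5 => (![(1 : H), (s.headD 1)⁻¹, s.tail.headD 1 * s.headD 1,
                        s.tail.headD 1 ⊔ s.headD 1, s.tail.headD 1 ⊓ s.headD 1] k) :: s.tail.tail) a)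
                    ([] : List H) p.2).headD 1) →
                (List.foldl (fun (s : List H) (a : ℕ ⊕ Fin 5) =>
                    Sum.elim (fun i : ℕ => w i :: s)
                      (fun k : Fin 5 => (![(1 : H), (s.headD 1)⁻¹, s.tail.headD 1 * s.headD 1,
                        s.tail.headD 1 ⊔ s.headD 1, s.tail.headD 1 ⊓ s.headD 1] k) :: s.tail.tail) a)
                    ([] : List H) q.2.1).headD 1
                  = (List.foldl (fun (s : List H) (a : ℕ ⊕ Fin 5) =>
                    Sum.elim (fun i : ℕ => w i :: s)
                      (fun k : Fin 5 => (![(1 : H), (s.headD 1)⁻¹, s.tail.headD 1 * s.headD 1,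
                        s.tail.headD 1 ⊔ s.headD 1, s.tail.headD 1 ⊓ s.headD 1] k) :: s.tail.tail) a)
                    ([] : List H) q.2.2).headD 1) →
              ∀ w : ℕ → H,
                (List.foldl (fun (s : List H) (a : ℕ ⊕ Fin 5) =>
                    Sum.elim (fun i : ℕ => w i :: s)
                      (fun k : Fin 5 => (![(1 : H), (s.headD 1)⁻¹, s.tail.headD 1 * s.headD 1,
                        s.tail.headD 1 ⊔ s.headD 1, s.tail.headD 1 ⊓ s.headD 1] k) :: s.tail.tail) a)
                    ([] : List H) e.1).headD 1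
                  = (List.foldl (fun (s : List H) (a : ℕ ⊕ Fin 5) =>
                    Sum.elim (fun i : ℕ => w i :: s)
                      (fun k : Fin 5 => (![(1 : H), (s.headD 1)⁻¹, s.tail.headD 1 * s.headD 1,
                        s.tail.headD 1 ⊔ s.headD 1, s.tail.headD 1 ⊓ s.headD 1] k) :: s.tail.tail) a)
                    ([] : List H) e.2).headD 1) →
            ∀ v : ℕ → G,
              (List.foldl (fun (s : List G) (a : ℕ ⊕ Fin 5) =>
                Sum.elim (fun i : ℕ => v i :: s)
                  (fun k : Fin 5 => (![(1 : G), (s.headD 1)⁻¹, s.tail.headD 1 * s.headD 1,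
                    s.tail.headD 1 ⊔ s.headD 1, s.tail.headD 1 ⊓ s.headD 1] k) :: s.tail.tail) a)
                ([] : List G) e.1).headD 1
              = (List.foldl (fun (s : List G) (a : ℕ ⊕ Fin 5) =>
                Sum.elim (fun i : ℕ => v i :: s)
                  (fun k : Fin 5 => (![(1 : G), (s.headD 1)⁻¹, s.tail.headD 1 * s.headD 1,
                    s.tail.headD 1 ⊔ s.headD 1, s.tail.headD 1 ⊓ s.headD 1] k) :: s.tail.tail) a)
                ([] : List G) e.2).headD 1))) := by
  exact Pool.Agent.Helper6.QV.main

end Pool.Agent.S01704
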