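import Pool.Statements.S01711
import Pool.Agent.Helper667.ACRel

set_option autoImplicit false
open Pool Pool.MP_a9e0e5_al

namespace Pool.Agent.S01711

/-- For finite G with operator group Ω and k = minimal number of Ω-normal generators ≥ 2, two normally generating k-tuples are AC-equivalent (with conjugation by G and Ω) iff their images in G/[G,G] are AC-equivalent (with Ω-action). -/
theorem result :
    ∀ (G Ω : Type) [Group G] [Finite G] [Group Ω] [MulDistribMulAction Ω G] (k : ℕ),
      2 ≤ k →
      (∃ u : Fin k → G, ∀ H : Subgroup G, H.Normal → (∀ ω : Ω, ∀ h ∈ H, ω • h ∈ H) →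
          (∀ i, u i ∈ H) → H = ⊤) →
      (∀ m : ℕ, m < k → ∀ u : Fin m → G, ¬ (∀ H : Subgroup G, H.Normal →
          (∀ ω : Ω, ∀ h ∈ H, ω • h ∈ H) → (∀ i, u i ∈ H) → H = ⊤)) →
      ∀ U V : Fin k → G,
        (∀ H : Subgroup G, H.Normal → (∀ ω : Ω, ∀ h ∈ H, ω • h ∈ H) →
          (∀ i, U i ∈ H) → H = ⊤) →
        (∀ H : Subgroup G, H.Normal → (∀ ω : Ω, ∀ h ∈ H, ω • h ∈ H) →
          (∀ i, V i ∈ H) → H = ⊤) →
        (Relation.ReflTransGen
            (fun a b : Fin k → G =>
              (∃ i j : Fin k, i ≠ j ∧
                (b = Function.update a i (a i * a j) ∨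
                 b = Function.update a i (a i * (a j)⁻¹) ∨
                 b = Function.update a i (a j * a i) ∨
                 b = Function.update a i ((a j)⁻¹ * a i))) ∨
              (∃ i : Fin k, b = Function.update a i (a i)⁻¹) ∨
              (∃ (i : Fin k) (g : G), b = Function.update a i (g⁻¹ * a i * g)) ∨
              (∃ (i : Fin k) (ω : Ω), b = Function.update a i (ω • a i)))
            U V ↔
          Relation.ReflTransGen
            (fun a b : Fin k → Abelianization G =>
              (∃ i j : Fin k, i ≠ j ∧
                (b = Function.update a i (a i * a j) ∨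
                 b = Function.update a i (a i * (a j)⁻¹) ∨
                 b = Function.update a i (a j * a i) ∨
                 b = Function.update a i ((a j)⁻¹ * a i))) ∨
              (∃ i : Fin k, b = Function.update a i (a i)⁻¹) ∨
              (∃ (i : Fin k) (ω : Ω) (g : G), Abelianization.of g = a i ∧
                b = Function.update a i (Abelianization.of (ω • g))))
            (fun i => Abelianization.of (U i)) (fun i => Abelianization.of (V i))) := by
  intro G Ω _ _ _ _ k hk _ _ U V hU hV
  have hor : ∀ x y : G, (Abelianization.of x = Abelianization.of y) ↔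
      x⁻¹ * y ∈ commutator G := fun x y => QuotientGroup.eq
  constructor
  · intro h
    induction h with
    | refl => exact Relation.ReflTransGen.refl
    | @tail b c _ hs ih =>
      have key : ∀ (i : Fin k) (x : G),
          (fun l => Abelianization.of ((Function.update b i x) l)) =
          Function.update (fun l => Abelianization.of (b l)) i (Abelianization.of x) := by
        intro i x
        funext l
        by_cases hl : l = i
        · subst hl; simp
        · rw [Function.update_of_ne hl, Function.update_of_ne hl]
      rcases hs with ⟨i, j, hij, h⟩ | ⟨i, rfl⟩ | ⟨i, g, rfl⟩ | ⟨i, ω, rfl⟩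
      · refine Relation.ReflTransGen.tail (ih (fun H h1 h2 h3 => ?_)) ?_
        · exact hV H h1 h2 (Helper667.ACRel.step_mem (Ω := Ω) ⟨h1, h2⟩
            (Or.inl ⟨i, j, hij, h⟩) h3)
        · refine Or.inl ⟨i, j, hij, ?_⟩
          rcases h with rfl | rfl | rfl | rfl
          · exact Or.inl (by rw [key, map_mul])
          · exact Or.inr (Or.inl (by rw [key, map_mul, map_inv]))
          · exact Or.inr (Or.inr (Or.inl (by rw [key, map_mul])))
          · exact Or.inr (Or.inr (Or.inr (by rw [key, map_mul, map_inv])))
      · refine Relation.ReflTransGen.tail (ih (fun H h1 h2 h3 => ?_)) ?_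
        · exact hV H h1 h2 (Helper667.ACRel.step_mem (Ω := Ω) ⟨h1, h2⟩
            (Or.inr (Or.inl ⟨i, rfl⟩)) h3)
        · exact Or.inr (Or.inl ⟨i, by rw [key, map_inv]⟩)
      · have h1 : (fun l => Abelianization.of ((Function.update b i (g⁻¹ * b i * g)) l)) =
            fun l => Abelianization.of (b l) := by
          rw [key, map_mul, map_mul, map_inv, mul_right_comm, inv_mul_cancel, one_mul,
            Function.update_eq_self i (fun l => Abelianization.of (b l))]
        rw [h1]
        refine ih (fun H h1 h2 h3 => ?_)
        exact hV H h1 h2 (Helper667.ACRel.step_mem (Ω := Ω) ⟨h1, h2⟩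
            (Or.inr (Or.inr (Or.inl ⟨i, g, rfl⟩))) h3)
      · refine Relation.ReflTransGen.tail (ih (fun H h1 h2 h3 => ?_)) ?_
        · exact hV H h1 h2 (Helper667.ACRel.step_mem (Ω := Ω) ⟨h1, h2⟩
            (Or.inr (Or.inr (Or.inr ⟨i, ω, rfl⟩))) h3)
        · exact Or.inr (Or.inr ⟨i, ω, b i, rfl, key i _⟩)
  · intro h
    have lift : ∀ c : Fin k → Abelianization G,
        Relation.ReflTransGen
          (fun a b : Fin k → Abelianization G =>
            (∃ i j : Fin k, i ≠ j ∧
              (b = Function.update a i (a i * a j) ∨
               b = Function.update a i (a i * (a j)⁻¹) ∨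
               b = Function.update a i (a j * a i) ∨
               b = Function.update a i ((a j)⁻¹ * a i))) ∨
            (∃ i : Fin k, b = Function.update a i (a i)⁻¹) ∨
            (∃ (i : Fin k) (ω : Ω) (g : G), Abelianization.of g = a i ∧
              b = Function.update a i (Abelianization.of (ω • g))))
          (fun i => Abelianization.of (U i)) c →
        ∃ V' : Fin k → G, Helper667.ACRel.ACE Ω U V' ∧
          (fun i => Abelianization.of (V' i)) = c := by
      intro c hc
      induction hc with
      | refl => exact ⟨U, Relation.ReflTransGen.refl, rfl⟩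
      | @tail d e _ hs ih =>
        obtain ⟨b, hb, rfl⟩ := ih
        have key : ∀ (i : Fin k) (x : G),
            (fun l => Abelianization.of ((Function.update b i x) l)) =
            Function.update (fun l => Abelianization.of (b l)) i (Abelianization.of x) := by
          intro i x
          funext l
          by_cases hl : l = i
          · subst hl; simp
          · rw [Function.update_of_ne hl, Function.update_of_ne hl]
        rcases hs with ⟨i, j, hij, h⟩ | ⟨i, rfl⟩ | ⟨i, ω, g, hg, rfl⟩
        · rcases h with rfl | rfl | rfl | rfl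
          · exact ⟨_, hb.tail (Or.inl ⟨i, j, hij, Or.inl rfl⟩), by rw [key, map_mul]⟩
          · exact ⟨_, hb.tail (Or.inl ⟨i, j, hij, Or.inr (Or.inl rfl)⟩), by
              rw [key, map_mul, map_inv]⟩
          · exact ⟨_, hb.tail (Or.inl ⟨i, j, hij, Or.inr (Or.inr (Or.inl rfl))⟩), by
              rw [key, map_mul]⟩
          · exact ⟨_, hb.tail (Or.inl ⟨i, j, hij, Or.inr (Or.inr (Or.inr rfl))⟩), by
              rw [key, map_mul, map_inv]⟩
        · exact ⟨_, hb.tail (Or.inr (Or.inl ⟨i, rfl⟩)), by rw [key, map_inv]⟩
        · refine ⟨_, hb.tail (Or.inr (Or.inr (Or.inr ⟨i, ω, rfl⟩))), ?_⟩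
          rw [key]
          congr 1
          rw [hor] at hg ⊢
          have h1 := (Helper667.ACRel.inv_commutator (Ω := Ω) (G := G)).2 ω _
            ((commutator G).inv_mem hg)
          simpa [smul_mul', smul_inv'] using h1
    obtain ⟨V', h1, h2⟩ := lift _ h
    refine Relation.ReflTransGen.trans h1 ?_
    refine Helper667.ACRel.core hk _ G rfl V' V (Helper667.ACRel.ace_ngen h1 hU) hV ?_
    intro l
    exact (hor _ _).mp (congrFun h2 l)

end Pool.Agent.S01711
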