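import Pool.Statements.S01714
import Mathlib

set_option autoImplicit false
open Pool Pool.MP_aa6e24_al

namespace Pool.Agent.S01714

/-
The counterexample is G = A_5 x C_2 with t = (involution, generator).  All centralisers of elements
of D are 2-groups, O_2(G) = 1 x C_2 misses D, but the product of two distinct commuting conjugates
of t lies in A_5 x 1 and is not conjugate to t.
-/

abbrev A5 : Type := alternatingGroup (Fin 5)
abbrev C2 : Type := Multiplicative (ZMod 2)

theorem cent : ∀ c d : A5, d ≠ 1 → d * d = 1 → c * d = d * c → c * c = 1 := by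
  decide +kernel

theorem c2_sq : ∀ c : C2, c * c = 1 := by decide

/-- the involution (0 1)(2 3) -/
def t0 : A5 := ⟨Equiv.swap 0 1 * Equiv.swap 2 3, by rw [Equiv.Perm.mem_alternatingGroup]; decide⟩

/-- the element (1 2)(3 0), conjugating to (0 2)(1 3) -/
def y0 : A5 := ⟨Equiv.swap 1 2 * Equiv.swap 2 3, by rw [Equiv.Perm.mem_alternatingGroup]; decide⟩

theorem t0_ne : t0 ≠ 1 := by decide
theorem t0_sq : t0 * t0 = 1 := by decide
theorem prod_ne : t0 * (y0 * t0 * y0⁻¹) ≠ 1 := by decide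
theorem prod_sq : (t0 * (y0 * t0 * y0⁻¹)) * (t0 * (y0 * t0 * y0⁻¹)) = 1 := by decide

def z : C2 := Multiplicative.ofAdd 1

theorem z_ne : z ≠ 1 := by decide

def t : A5 × C2 := (t0, z)

theorem card_A5 : Nat.card A5 = 60 := by
  rw [nat_card_alternatingGroup]
  simp [Nat.factorial]

/-- an element lying in all Sylow 2-subgroups has trivial first component -/
theorem fst_eq_one (d : A5 × C2) (h : ∀ P : Sylow 2 (A5 × C2), d ∈ (P : Subgroup (A5 × C2))) :
    d.1 = 1 := by
  classical
  obtain ⟨P⟩ : Nonempty (Sylow 2 (A5 × C2)) := inferInstance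
  set N := (P : Subgroup (A5 × C2)).normalCore with hN
  have hd : d ∈ N := by
    intro b
    have h1 := h (b⁻¹ • P)
    rw [Sylow.coe_subgroup_smul, Subgroup.mem_pointwise_smul_iff_inv_smul_mem, ← map_inv,
      inv_inv] at h1
    exact h1
  have hNp : IsPGroup 2 N := P.2.to_le (Subgroup.normalCore_le _)
  let f : A5 × C2 →* A5 := MonoidHom.fst A5 C2
  have hf : Function.Surjective f := fun a => ⟨(a, 1), rfl⟩
  have hnorm : (N.map f).Normal := Subgroup.Normal.map inferInstance f hf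
  have : IsSimpleGroup A5 := alternatingGroup.isSimpleGroup (by simp)
  rcases hnorm.eq_bot_or_eq_top with hb | ht
  · have h2 : f d ∈ N.map f := ⟨d, hd, rfl⟩
    rw [hb, Subgroup.mem_bot] at h2
    exact h2
  · exfalso
    have h3 : IsPGroup 2 (N.map f) := hNp.map f
    rw [ht] at h3
    obtain ⟨k, hk⟩ := IsPGroup.iff_card.1 h3
    rw [Subgroup.card_top, card_A5] at hk
    have h5 : 5 ∣ 2 ^ k := by rw [← hk]; norm_num
    have := (Nat.Prime.dvd_of_dvd_pow (by norm_num) h5)
    norm_num at this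

theorem D_fst (d : A5 × C2)
    (hd : (∃ x : A5 × C2, d = x * t * x⁻¹) ∨
      (∃ x y : A5 × C2, d = x * t * x⁻¹ * (y * t * y⁻¹) ∧ orderOf d = 2)) :
    d.1 ≠ 1 ∧ d.1 * d.1 = 1 := by
  rcases hd with ⟨x, rfl⟩ | ⟨x, y, hxy, ho⟩
  · constructor
    · intro h
      apply t0_ne
      have h1 : x.1 * t0 * x.1⁻¹ = 1 := h
      have h2 : x.1 * t0 = x.1 := by simpa using mul_inv_eq_one.1 h1
      simpa using h2
    · show (x.1 * t0 * x.1⁻¹) * (x.1 * t0 * x.1⁻¹) = 1
      have : (x.1 * t0 * x.1⁻¹) * (x.1 * t0 * x.1⁻¹) = x.1 * (t0 * t0) * x.1⁻¹ := by group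
      rw [this, t0_sq]
      group
  · have hsq : d * d = 1 := by
      have := pow_orderOf_eq_one d
      rw [ho, pow_two] at this
      exact this
    have hd1 : d ≠ 1 := by
      intro h
      rw [h, orderOf_one] at ho
      norm_num at ho
    refine ⟨?_, congrArg Prod.fst hsq⟩
    intro h
    apply hd1
    apply Prod.ext
    · exact h
    · have h2 : d.2 = x.2 * z * x.2⁻¹ * (y.2 * z * y.2⁻¹) := congrArg Prod.snd hxy
      rw [h2]
      have h3 : ∀ a b : C2, a * z * a⁻¹ * (b * z * b⁻¹) = 1 := by decide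
      exact h3 _ _

theorem cent_pgroup (d : A5 × C2) (h1 : d.1 ≠ 1) (h2 : d.1 * d.1 = 1) :
    IsPGroup 2 (Subgroup.centralizer ({d} : Set (A5 × C2))) := by
  rintro ⟨c, hc⟩
  refine ⟨1, ?_⟩
  rw [Subgroup.mem_centralizer_singleton_iff] at hc
  apply Subtype.ext
  show c ^ (2 ^ 1) = 1
  rw [pow_one, pow_two]
  apply Prod.ext
  · exact cent c.1 d.1 h1 h2 (congrArg Prod.fst hc)
  · exact c2_sq c.2

/-- The negation of the preceding statement: For all finite groups G and t of order 2: if every element of D (conjugates of t, or order-2 products of two conjugates) misses some Sylow 2-subgroup, and for each d∈D commuting with t, t lies in every Sylow 2-subgroup of C_G(d), then every order-2 product of two conjugates of t is a conjugate of t. -/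
theorem result :
    ¬ (∀ (G : Type) [Group G] [Finite G] (t : G), orderOf t = 2 →
      (∀ d : G, ((∃ x : G, d = x * t * x⁻¹) ∨
          (∃ x y : G, d = x * t * x⁻¹ * (y * t * y⁻¹) ∧ orderOf d = 2)) →
        ∃ P : Sylow 2 G, d ∉ (P : Subgroup G)) →
      (∀ d : G, ((∃ x : G, d = x * t * x⁻¹) ∨
          (∃ x y : G, d = x * t * x⁻¹ * (y * t * y⁻¹) ∧ orderOf d = 2)) →
        d * t = t * d →
        ∀ P : Sylow 2 (Subgroup.centralizer ({d} : Set G)),
          t ∈ (P : Subgroup (Subgroup.centralizer ({d} : Set G))).map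
                (Subgroup.centralizer ({d} : Set G)).subtype) →
      ∀ x y : G, orderOf (x * t * x⁻¹ * (y * t * y⁻¹)) = 2 →
        ∃ z : G, x * t * x⁻¹ * (y * t * y⁻¹) = z * t * z⁻¹) := by
  intro H
  have ht : orderOf t = 2 := by
    apply orderOf_eq_prime
    · rw [pow_two]
      exact Prod.ext t0_sq (c2_sq z)
    · intro h
      exact t0_ne (congrArg Prod.fst h)
  have hprod : orderOf ((1 : A5 × C2) * t * 1⁻¹ * ((y0, 1) * t * (y0, 1)⁻¹)) = 2 := by
    apply orderOf_eq_prime
    · rw [pow_two]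
      apply Prod.ext
      · show (1 * t0 * 1⁻¹ * (y0 * t0 * y0⁻¹)) * (1 * t0 * 1⁻¹ * (y0 * t0 * y0⁻¹)) = 1
        simpa using prod_sq
      · exact c2_sq _
    · intro h
      have h1 : 1 * t0 * 1⁻¹ * (y0 * t0 * y0⁻¹) = 1 := congrArg Prod.fst h
      apply prod_ne
      simpa using h1
  have hA : ∀ d : A5 × C2, ((∃ x : A5 × C2, d = x * t * x⁻¹) ∨
      (∃ x y : A5 × C2, d = x * t * x⁻¹ * (y * t * y⁻¹) ∧ orderOf d = 2)) →
      ∃ P : Sylow 2 (A5 × C2), d ∉ (P : Subgroup (A5 × C2)) := by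
    intro d hd
    by_contra hcon
    push Not at hcon
    exact (D_fst d hd).1 (fst_eq_one d hcon)
  obtain ⟨w, hw⟩ := H (A5 × C2) t ht hA (by
    intro d hd hc P
    have hp := cent_pgroup d (D_fst d hd).1 (D_fst d hd).2
    have htop : (P : Subgroup (Subgroup.centralizer ({d} : Set (A5 × C2)))) = ⊤ := by
      have : IsPGroup 2 (⊤ : Subgroup (Subgroup.centralizer ({d} : Set (A5 × C2)))) :=
        hp.to_subgroup ⊤
      exact (P.3 this le_top).symm
    refine ⟨⟨t, ?_⟩, ?_, rfl⟩
    · rw [Subgroup.mem_centralizer_singleton_iff]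
      exact hc.symm
    · rw [htop]
      exact Subgroup.mem_top _) 1 (y0, 1) hprod
  have h1 : (1 : C2) * z * 1⁻¹ * (1 * z * 1⁻¹) = w.2 * z * w.2⁻¹ := congrArg Prod.snd hw
  have h2 : ∀ w : C2, (1 : C2) * z * 1⁻¹ * (1 * z * 1⁻¹) ≠ w * z * w⁻¹ := by decide
  exact h2 _ h1

end Pool.Agent.S01714
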