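import Pool.Statements.S01721
-- import your own Pool.Agent.* helpers here
import Pool.Agent.Helper868.RegFour6

set_option autoImplicit false
open Pool Pool.MP_aaae20_al

namespace Pool.Agent.S01721

/-- Let G be a group in which every element has finite order, with an automorphism of order exactly 4 that fixes only the identity. Then every finitely generated subgroup of G is finite. -/
theorem result :
    ∀ (G : Type) [Group G] (φ : MulAut G),
      Monoid.IsTorsion G →
      orderOf φ = 4 →
      (∀ g : G, φ g = g → g = 1) →
      ∀ H : Subgroup G, H.FG → Finite H := by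
  intro G _ φ ht ho hreg H hH
  have h4 : φ ^ 4 = 1 := by rw [← ho]; exact pow_orderOf_eq_one φ
  refine H868.RegFour.regular_four φ.toMonoidHom (fun g => ht g) ?_ hreg H hH
  intro g
  have h1 : (φ ^ 4) g = g := by rw [h4]; rfl
  have h2 : (φ ^ 4) g = φ (φ (φ (φ g))) := by
    rw [pow_succ, pow_succ, pow_two]; rfl
  rw [h2] at h1
  exact h1

end Pool.Agent.S01721
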