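import Pool.Statements.S01735

set_option autoImplicit false
open Filter Topology
open Pool Pool.MP_ab8afa_al

namespace Pool.Agent.S01735

/-- growth factors -/
def A (n : ℕ) : ℕ := 2 ^ ((n + 2) ^ 3)

def P : ℕ → ℕ
  | 0 => 1
  | (n+1) => A n * P n + 1

def R : ℕ → ℕ
  | 0 => 1
  | (n+1) => A n * R n

theorem A_pos (n : ℕ) : 0 < A n := by unfold A; positivity

theorem two_le_A (n : ℕ) : 2 ≤ A n := by
  unfold A
  calc 2 = 2 ^ 1 := by norm_num
    _ ≤ 2 ^ ((n + 2) ^ 3) := Nat.pow_le_pow_right (by norm_num) (Nat.one_le_pow _ _ (by omega))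

theorem P_pos (n : ℕ) : 0 < P n := by
  cases n with
  | zero => simp [P]
  | succ n => simp [P]

theorem R_pos (n : ℕ) : 0 < R n := by
  induction n with
  | zero => simp [R]
  | succ n ih => simp only [R]; exact Nat.mul_pos (A_pos n) ih

theorem two_mul_R_le (n : ℕ) : 2 * R n ≤ R (n + 1) := by
  simp only [R]
  exact Nat.mul_le_mul_right _ (two_le_A n)

theorem R_growth (n j : ℕ) : 2 ^ j * R n ≤ R (n + j) := by
  induction j with
  | zero => simp
  | succ j ih =>
    calc 2 ^ (j + 1) * R n = 2 * (2 ^ j * R n) := by ring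
      _ ≤ 2 * R (n + j) := Nat.mul_le_mul_left _ ih
      _ ≤ R (n + j + 1) := two_mul_R_le _

theorem inv_R_le (n j : ℕ) : (1 : ℝ) / R (n + j) ≤ (1 / R n) * (1 / 2) ^ j := by
  have h := R_growth n j
  have h1 : (0:ℝ) < R n := by exact_mod_cast R_pos n
  have h2 : (0:ℝ) < R (n + j) := by exact_mod_cast R_pos (n + j)
  have h3 : (2:ℝ) ^ j * R n ≤ R (n + j) := by exact_mod_cast h
  rw [one_div_pow, one_div_mul_one_div]
  apply one_div_le_one_div_of_le (by positivity)
  linarith

theorem summable_inv_R : Summable (fun n => (1 : ℝ) / R n) := by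
  apply Summable.of_nonneg_of_le (g := fun n => (1 : ℝ) / R n) (f := fun j => (1/2:ℝ)^j)
  · intro n
    positivity
  · intro n
    have := inv_R_le 0 n
    simpa [R] using this
  · exact summable_geometric_of_lt_one (by norm_num) (by norm_num)

noncomputable def Th : ℝ := ∑' n, (1 : ℝ) / R n

/-- defect -/
noncomputable def ep (n : ℕ) : ℝ := R n * Th - P n

theorem P_div_R (n : ℕ) : (P n : ℝ) / R n = ∑ j ∈ Finset.range (n + 1), (1 : ℝ) / R j := by
  induction n with
  | zero => simp [P, R]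
  | succ n ih =>
    rw [Finset.sum_range_succ, ← ih]
    have h1 : (0:ℝ) < R n := by exact_mod_cast R_pos n
    have h2 : (0:ℝ) < A n := by exact_mod_cast A_pos n
    simp only [P, R]
    push_cast
    field_simp

theorem ep_eq (n : ℕ) : ep n = R n * ∑' j, (1 : ℝ) / R (j + (n + 1)) := by
  have h := summable_inv_R.sum_add_tsum_nat_add (n + 1)
  have h1 : (0:ℝ) < R n := by exact_mod_cast R_pos n
  have h2 := P_div_R n
  rw [ep, Th, ← h, ← h2]
  field_simp
  ring

theorem ep_nonneg (n : ℕ) : 0 ≤ ep n := by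
  rw [ep_eq]
  apply mul_nonneg (by positivity)
  apply tsum_nonneg
  intro j
  positivity

theorem ep_le (n : ℕ) : ep n ≤ 2 / A n := by
  rw [ep_eq]
  have h1 : (0:ℝ) < R n := by exact_mod_cast R_pos n
  have h2 : (0:ℝ) < A n := by exact_mod_cast A_pos n
  have h3 : ∑' j, (1 : ℝ) / R (j + (n + 1)) ≤ ∑' j, (1 / (R (n + 1) : ℝ)) * (1 / 2) ^ j := by
    apply Summable.tsum_le_tsum
    · intro j
      have := inv_R_le (n + 1) j
      rwa [add_comm (n + 1) j] at this
    · exact (summable_nat_add_iff (n + 1)).mpr summable_inv_R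
    · exact (summable_geometric_of_lt_one (by norm_num) (by norm_num)).mul_left _
  rw [tsum_mul_left, tsum_geometric_of_lt_one (by norm_num) (by norm_num)] at h3
  have h4 : (R (n + 1) : ℝ) = A n * R n := by simp [R]
  rw [h4] at h3
  calc R n * ∑' j, (1 : ℝ) / R (j + (n + 1)) ≤ R n * (1 / (A n * R n) * (1 - 1 / 2)⁻¹) := by
        gcongr
    _ = 2 / A n := by field_simp; norm_num

noncomputable def al (n : ℕ) : ℝ := (1 / 2) ^ n

theorem ep_le_al (n m : ℕ) (h : n ≤ m) : ep m ≤ (1 / 2) ^ ((n + 1) ^ 3) * al m := by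
  refine (ep_le m).trans ?_
  rw [al, A, ← pow_add]
  push_cast
  rw [div_le_iff₀ (by positivity)]
  have h1 : (n + 1) ^ 3 + m + 1 ≤ (m + 2) ^ 3 := by
    calc (n + 1) ^ 3 + m + 1 ≤ (m + 1) ^ 3 + m + 1 := by gcongr
      _ ≤ (m + 2) ^ 3 := by ring_nf; nlinarith
  calc (2:ℝ) = (1/2) ^ ((n + 1) ^ 3 + m) * 2 ^ ((n + 1) ^ 3 + m + 1) := by
        rw [pow_succ (2:ℝ) ((n + 1) ^ 3 + m), ← mul_assoc, ← mul_pow]; norm_num
    _ ≤ _ := by
        gcongr
        norm_num

theorem one_lt_Th : 1 < Th := by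
  have h := summable_inv_R.sum_add_tsum_nat_add 2
  rw [← Th] at h
  have h0 : 0 ≤ ∑' i, (1:ℝ) / R (i + 2) := tsum_nonneg (fun i => by positivity)
  have h1 : (0:ℝ) < R 1 := by exact_mod_cast R_pos 1
  rw [Finset.sum_range_succ, Finset.sum_range_one] at h
  have : (1:ℝ) / R 0 = 1 := by simp [R]
  rw [this] at h
  have : 0 < (1:ℝ) / R 1 := by positivity
  linarith

noncomputable def g (z : ℤ) : ℝ := Real.cos (2 * Real.pi * z / Th)

noncomputable def E (k : ℕ →₀ ℤ) : ℝ := k.sum (fun i c => (c : ℝ) * ep i)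

noncomputable def cost (k : ℕ →₀ ℤ) : ℝ := k.sum (fun i c => |(c : ℝ)| * al i)

theorem rep_eq (k : ℕ →₀ ℤ) : ((k.sum (fun i c => c * (P i : ℤ)) : ℤ) : ℝ) =
    Th * ((k.sum (fun i c => c * (R i : ℤ)) : ℤ) : ℝ) - E k := by
  unfold E Finsupp.sum
  push_cast
  rw [Finset.mul_sum, ← Finset.sum_sub_distrib]
  apply Finset.sum_congr rfl
  intro i _
  rw [ep]
  ring

theorem g_add (z : ℤ) (k : ℕ →₀ ℤ) : g (z + k.sum (fun i c => c * (P i : ℤ))) =
    Real.cos (2 * Real.pi * z / Th - 2 * Real.pi / Th * E k) := by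
  have hT : Th ≠ 0 := by have := one_lt_Th; positivity
  rw [g, Int.cast_add, rep_eq]
  rw [show 2 * Real.pi * (z + (Th * ((k.sum (fun i c => c * (R i : ℤ)) : ℤ) : ℝ) - E k)) / Th =
    2 * Real.pi * z / Th - 2 * Real.pi / Th * E k +
      ((k.sum (fun i c => c * (R i : ℤ)) : ℤ) : ℝ) * (2 * Real.pi) by field_simp; ring]
  exact Real.cos_add_int_mul_two_pi _ _

theorem al_pos (n : ℕ) : 0 < al n := by unfold al; positivity

theorem abs_E_le (k : ℕ →₀ ℤ) : |E k| ≤ cost k := by
  unfold E cost Finsupp.sum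
  refine (Finset.abs_sum_le_sum_abs _ _).trans (Finset.sum_le_sum fun i _ => ?_)
  change |(k i : ℝ) * ep i| ≤ |(k i : ℝ)| * al i
  rw [abs_mul, abs_of_nonneg (ep_nonneg i)]
  refine mul_le_mul_of_nonneg_left ?_ (abs_nonneg _)
  refine (ep_le_al i i le_rfl).trans ?_
  have := al_pos i
  have h : ((1:ℝ) / 2) ^ ((i + 1) ^ 3) ≤ 1 := pow_le_one₀ (by norm_num) (by norm_num)
  nlinarith

theorem abs_cos_sub_cos_le (x y : ℝ) : |Real.cos x - Real.cos y| ≤ |x - y| := by
  have := Real.lipschitzWith_cos.dist_le_mul x y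
  simpa [Real.dist_eq] using this

theorem two_pi_div_Th_le : 2 * Real.pi / Th ≤ 2 * Real.pi := by
  have := one_lt_Th
  have := Real.pi_pos
  rw [div_le_iff₀ (by positivity)]
  nlinarith

theorem g_lip (u v : ℤ) (k : ℕ →₀ ℤ) (hk : k.sum (fun i c => c * (P i : ℤ)) = u - v) :
    |g u - g v| ≤ 2 * Real.pi * cost k := by
  have h := g_add v k
  rw [hk, add_sub_cancel] at h
  rw [h, g]
  refine (abs_cos_sub_cos_le _ _).trans ?_
  rw [show 2 * Real.pi * v / Th - 2 * Real.pi / Th * E k - 2 * Real.pi * v / Th =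
    -(2 * Real.pi / Th * E k) by ring, abs_neg, abs_mul]
  have h1 := one_lt_Th
  have h2 := Real.pi_pos
  rw [abs_of_nonneg (by positivity)]
  have := two_pi_div_Th_le
  have := abs_E_le k
  gcongr

/-- values of `g` at integers having a representation of cost less than `2^s` -/
def V (s : ℕ) : Set ℝ :=
  {v | ∃ k : ℕ →₀ ℤ, cost k < 2 ^ s ∧ v = g (k.sum (fun i c => c * (P i : ℤ)))}

theorem cost_coeff (k : ℕ →₀ ℤ) (i : ℕ) : |(k i : ℝ)| * al i ≤ cost k := by
  by_cases hi : i ∈ k.support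
  · unfold cost Finsupp.sum
    exact Finset.single_le_sum (f := fun i => |(k i : ℝ)| * al i)
      (fun j _ => mul_nonneg (abs_nonneg _) (al_pos j).le) hi
  · have : k i = 0 := by simpa using hi
    rw [this]
    unfold cost Finsupp.sum
    simp only [Int.cast_zero, abs_zero, zero_mul]
    exact Finset.sum_nonneg (fun j _ => mul_nonneg (abs_nonneg _) (al_pos j).le)

theorem coeff_bound (k : ℕ →₀ ℤ) (s n i : ℕ) (hk : cost k < 2 ^ s) (hi : i < n) :
    |k i| ≤ 2 ^ (s + n) := by
  have h1 := (cost_coeff k i).trans_lt hk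
  rw [al] at h1
  have h2 : |(k i : ℝ)| < 2 ^ s * 2 ^ i := by
    have h3 : |(k i : ℝ)| = (|(k i : ℝ)| * (1 / 2) ^ i) * 2 ^ i := by
      rw [mul_assoc, ← mul_pow]; norm_num
    rw [h3]
    gcongr
  have h4 : |(k i : ℝ)| ≤ 2 ^ (s + n) := by
    refine h2.le.trans ?_
    rw [← pow_add]
    exact pow_le_pow_right₀ (by norm_num) (by omega)
  exact_mod_cast h4

theorem E_split (k : ℕ →₀ ℤ) (n : ℕ) :
    |E k - ∑ i : Fin n, (k i : ℝ) * ep i| ≤ (1 / 2) ^ ((n + 1) ^ 3) * cost k := by
  have h1 : E k = ∑ i ∈ k.support.filter (· < n), (k i : ℝ) * ep i +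
      ∑ i ∈ k.support.filter (fun i => ¬ i < n), (k i : ℝ) * ep i := by
    rw [Finset.sum_filter_add_sum_filter_not]
    rfl
  have h2 : ∑ i : Fin n, (k i : ℝ) * ep i = ∑ i ∈ k.support.filter (· < n), (k i : ℝ) * ep i := by
    rw [Fin.sum_univ_eq_sum_range (fun i => (k i : ℝ) * ep i) n]
    symm
    apply Finset.sum_subset
    · intro i hi
      simp only [Finset.mem_filter] at hi
      exact Finset.mem_range.mpr hi.2
    · intro i hi hi2
      have : k i = 0 := by
        by_contra hne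
        apply hi2
        simp only [Finset.mem_filter, Finsupp.mem_support_iff]
        exact ⟨hne, Finset.mem_range.mp hi⟩
      rw [this]
      simp
  rw [h1, h2, add_sub_cancel_left]
  refine (Finset.abs_sum_le_sum_abs _ _).trans ?_
  calc ∑ i ∈ k.support.filter (fun i => ¬ i < n), |(k i : ℝ) * ep i|
      ≤ ∑ i ∈ k.support.filter (fun i => ¬ i < n), (1 / 2) ^ ((n + 1) ^ 3) * (|(k i : ℝ)| * al i) := by
        apply Finset.sum_le_sum
        intro i hi
        simp only [Finset.mem_filter, not_lt] at hi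
        rw [abs_mul, abs_of_nonneg (ep_nonneg i)]
        have := ep_le_al n i hi.2
        calc |(k i : ℝ)| * ep i ≤ |(k i : ℝ)| * ((1 / 2) ^ ((n + 1) ^ 3) * al i) := by gcongr
          _ = _ := by ring
    _ ≤ ∑ i ∈ k.support, (1 / 2) ^ ((n + 1) ^ 3) * (|(k i : ℝ)| * al i) := by
        apply Finset.sum_le_sum_of_subset_of_nonneg (Finset.filter_subset _ _)
        intro i _ _
        have := al_pos i
        positivity
    _ = _ := by
        rw [← Finset.mul_sum]
        rfl

theorem V_cover (s n : ℕ) : closure (V s) ⊆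
    ⋃ f ∈ Fintype.piFinset (fun _ : Fin n => Finset.Icc (-2 ^ (s + n) : ℤ) (2 ^ (s + n))),
      Metric.closedBall (Real.cos (2 * Real.pi / Th * ∑ i : Fin n, (f i : ℝ) * ep i))
        (2 * Real.pi * ((1 / 2) ^ ((n + 1) ^ 3) * 2 ^ s)) := by
  apply closure_minimal
  · rintro v ⟨k, hk, rfl⟩
    simp only [Set.mem_iUnion]
    refine ⟨fun i => k i, ?_, ?_⟩
    · rw [Fintype.mem_piFinset]
      intro i
      rw [Finset.mem_Icc]
      have := coeff_bound k s n i hk i.2
      rw [abs_le] at this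
      exact this
    · rw [Metric.mem_closedBall, Real.dist_eq]
      have h := g_add 0 k
      rw [zero_add] at h
      rw [h]
      simp only [Int.cast_zero, mul_zero, zero_div, zero_sub, Real.cos_neg]
      refine (abs_cos_sub_cos_le _ _).trans ?_
      rw [← mul_sub, abs_mul]
      have h1 := one_lt_Th
      have h2 := Real.pi_pos
      rw [abs_of_nonneg (by positivity : 0 ≤ 2 * Real.pi / Th)]
      have h3 := two_pi_div_Th_le
      have h4 := E_split k n
      have h5 : (1 / 2 : ℝ) ^ ((n + 1) ^ 3) * cost k ≤ (1 / 2) ^ ((n + 1) ^ 3) * 2 ^ s := by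
        gcongr
      have h6 := h4.trans h5
      gcongr
  · exact (Finset.finite_toSet _).isClosed_biUnion (fun _ _ => Metric.isClosed_closedBall)

theorem volume_V (s n : ℕ) : MeasureTheory.volume (closure (V s)) ≤
    ENNReal.ofReal ((2 * 2 ^ (s + n) + 1) ^ n * (2 * (2 * Real.pi * ((1 / 2) ^ ((n + 1) ^ 3) * 2 ^ s)))) := by
  refine (MeasureTheory.measure_mono (V_cover s n)).trans ?_
  refine (MeasureTheory.measure_biUnion_finset_le _ _).trans ?_
  simp only [Real.volume_closedBall]
  rw [Finset.sum_const, Fintype.card_piFinset, nsmul_eq_mul]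
  rw [ENNReal.ofReal_mul (p := (2 * 2 ^ (s + n) + 1) ^ n) (by positivity)]
  refine mul_le_mul' ?_ (le_refl _)
  simp only [Int.card_Icc, Finset.prod_const, Finset.card_univ, Fintype.card_fin]
  rw [← ENNReal.ofReal_natCast]
  apply ENNReal.ofReal_le_ofReal
  push_cast
  refine pow_le_pow_left₀ (by positivity) ?_ n
  have : (((2:ℤ) ^ (s + n) + 1 - -2 ^ (s + n)).toNat : ℝ) = 2 * 2 ^ (s + n) + 1 := by
    have h : ((2:ℤ) ^ (s + n) + 1 - -2 ^ (s + n)).toNat = 2 * 2 ^ (s + n) + 1 := by
      have : (2:ℤ) ^ (s + n) = ((2 ^ (s + n) : ℕ) : ℤ) := by push_cast; rfl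
      rw [this]
      omega
    rw [h]
    push_cast
    ring
  exact this.le

theorem volume_V_zero (s : ℕ) : MeasureTheory.volume (closure (V s)) = 0 := by
  have h : ∀ n : ℕ, MeasureTheory.volume (closure (V s)) ≤ ENNReal.ofReal ((1/2) ^ n * 2 ^ (s * s + s + 10)) := by
    intro n
    refine (volume_V s n).trans (ENNReal.ofReal_le_ofReal ?_)
    have h1 : (2 * 2 ^ (s + n) + 1 : ℝ) ^ n ≤ (2 ^ (s + n + 2)) ^ n := by
      gcongr
      have : (1:ℝ) ≤ 2 ^ (s + n) := one_le_pow₀ (by norm_num)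
      rw [pow_add (2:ℝ) (s + n) 2]
      linarith
    have h2 : 2 * (2 * Real.pi * ((1 / 2) ^ ((n + 1) ^ 3) * 2 ^ s)) ≤ 2 ^ (s + 4) * (1 / 2) ^ ((n + 1) ^ 3) := by
      have := Real.pi_le_four
      have h3 : (0:ℝ) ≤ (1 / 2) ^ ((n + 1) ^ 3) * 2 ^ s := by positivity
      rw [pow_add]
      nlinarith
    calc (2 * 2 ^ (s + n) + 1 : ℝ) ^ n * (2 * (2 * Real.pi * ((1 / 2) ^ ((n + 1) ^ 3) * 2 ^ s)))
        ≤ (2 ^ (s + n + 2)) ^ n * (2 ^ (s + 4) * (1 / 2) ^ ((n + 1) ^ 3)) := by
          have := Real.pi_pos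
          gcongr
      _ = 2 ^ ((s + n + 2) * n + (s + 4)) * (1 / 2) ^ ((n + 1) ^ 3) := by
          rw [← pow_mul, ← mul_assoc, ← pow_add]
      _ ≤ (1/2) ^ n * 2 ^ (s * s + s + 10) := by
          have h5 : (s + n + 2) * n + (s + 4) + n ≤ (n + 1) ^ 3 + (s * s + s + 10) := by
            have h6 : s * n ≤ s * s + n * n := by
              rcases le_total s n with h | h
              · exact (Nat.mul_le_mul_right n h).trans (Nat.le_add_left _ _)
              · exact (Nat.mul_le_mul_left s h).trans (Nat.le_add_right _ _)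
            calc (s + n + 2) * n + (s + 4) + n = s * n + (n * n + 3 * n + s + 4) := by ring
              _ ≤ (s * s + n * n) + (n * n + 3 * n + s + 4) := Nat.add_le_add_right h6 _
              _ ≤ (s * s + n * n) + (n * n + 3 * n + s + 4) + (n ^ 3 + n * n + 7) := Nat.le_add_right _ _
              _ = (n + 1) ^ 3 + (s * s + s + 10) := by ring
          have h7 : (2:ℝ) ^ ((s + n + 2) * n + (s + 4) + n) ≤ 2 ^ ((n + 1) ^ 3 + (s * s + s + 10)) :=
            pow_le_pow_right₀ (by norm_num) h5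
          rw [pow_add (2:ℝ) _ n, pow_add (2:ℝ) ((n + 1) ^ 3)] at h7
          rw [one_div_pow, one_div_pow, mul_one_div, one_div_mul_eq_div, div_le_div_iff₀ (by positivity) (by positivity)]
          linarith
  have h8 : Tendsto (fun n : ℕ => ENNReal.ofReal ((1/2) ^ n * 2 ^ (s * s + s + 10))) atTop (𝓝 0) := by
    rw [← ENNReal.ofReal_zero]
    apply ENNReal.tendsto_ofReal
    rw [← zero_mul ((2:ℝ) ^ (s * s + s + 10))]
    exact (tendsto_pow_atTop_nhds_zero_of_lt_one (by norm_num) (by norm_num)).mul_const _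
  have h9 := ge_of_tendsto' h8 h
  exact le_antisymm h9 bot_le

theorem g_zero : g 0 = 1 := by simp [g]

theorem g_one_lt : g 1 < 1 := by
  refine lt_of_le_of_ne (Real.cos_le_one _) ?_
  intro h
  rw [g, Real.cos_eq_one_iff] at h
  obtain ⟨n, hn⟩ := h
  have h1 := one_lt_Th
  have h2 := Real.pi_pos
  have h3 : (n : ℝ) * Th = 1 := by
    have h5 : (n : ℝ) * (2 * Real.pi) * Th = 2 * Real.pi := by
      rw [hn]
      field_simp
      simp
    have h6 : (2 * Real.pi) * ((n : ℝ) * Th) = 2 * Real.pi * 1 := by linarith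
    exact mul_left_cancel₀ (by positivity) h6
  have h4 : 0 < n := by
    by_contra hcon
    have : (n : ℝ) ≤ 0 := by exact_mod_cast (not_lt.mp hcon)
    nlinarith
  have h5 : (1:ℝ) ≤ n := by exact_mod_cast h4
  nlinarith

theorem exists_v : ∃ v : ℝ, g 1 < v ∧ v < 1 ∧ ∀ s, v ∉ closure (V s) := by
  have h0 : MeasureTheory.volume (⋃ s, closure (V s)) = 0 :=
    MeasureTheory.measure_iUnion_null volume_V_zero
  by_contra hcon
  push Not at hcon
  have h1 : Set.Ioo (g 1) 1 ⊆ ⋃ s, closure (V s) := by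
    intro v hv
    obtain ⟨s, hs⟩ := hcon v hv.1 hv.2
    exact Set.mem_iUnion.mpr ⟨s, hs⟩
  have h2 := MeasureTheory.measure_mono_null h1 h0
  rw [Real.volume_Ioo, ENNReal.ofReal_eq_zero] at h2
  have := g_one_lt
  linarith

/-- There exist positive integers p_n and reals a_n with a_1=1 strictly decreasing to 0, a_n(p_{n+1}/p_n-1)≥1, and gcd-1 tails, and a split of ℤ into nonempty X and its complement Y, such that for x_i in X and y_i in Y the three N-series are never all convergent. -/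
theorem result :
    ∃ p : ℕ → ℕ, ∃ a : ℕ → ℝ,
      a 0 = 1 ∧ StrictAnti a ∧ Tendsto a atTop (𝓝 0) ∧
      (∀ n, 0 < p n) ∧
      (∀ n, 1 ≤ a n * ((p (n + 1) : ℝ) / (p n : ℝ) - 1)) ∧
      (∀ m : ℕ, ∃ s : Finset ℕ, (∀ n ∈ s, m < n) ∧ s.gcd p = 1) ∧
      ∃ X : Set ℤ, X.Nonempty ∧ Xᶜ.Nonempty ∧
        ∀ N : ℤ → ℝ,
          (∀ z : ℤ, N z = sInf {r : ℝ | ∃ k : ℕ →₀ ℤ,
              (k.sum (fun i c => c * (p i : ℤ))) = z ∧
              r = k.sum (fun i c => |(c : ℝ)| * a i)}) →
          ∀ x y : ℕ → ℤ, (∀ i, x i ∈ X) → (∀ i, y i ∈ Xᶜ) →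
            ¬ (Summable (fun i => N (x i - x (i + 1))) ∧
               Summable (fun i => N (y i - y (i + 1))) ∧
               Summable (fun i => N (x i - y i))) := by
  obtain ⟨v, hv1, hv2, hv3⟩ := exists_v
  refine ⟨P, al, ?_, ?_, ?_, P_pos, ?_, ?_, {z | v < g z}, ⟨0, ?_⟩, ⟨1, ?_⟩, ?_⟩
  · simp [al]
  · intro m n hmn
    exact pow_lt_pow_right_of_lt_one₀ (by norm_num) (by norm_num) hmn
  · exact tendsto_pow_atTop_nhds_zero_of_lt_one (by norm_num) (by norm_num)
  · intro n
    have h1 : (0:ℝ) < P n := by exact_mod_cast P_pos n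
    have h2 : (P (n + 1) : ℝ) / P n = A n + 1 / P n := by
      simp only [P]
      push_cast
      field_simp
    rw [h2]
    have h3 : (0:ℝ) < 1 / P n := by positivity
    have h4 : (2:ℝ) ^ n + 1 ≤ A n := by
      have : 2 ^ n + 1 ≤ A n := by
        calc 2 ^ n + 1 ≤ 2 ^ n + 2 ^ n := Nat.add_le_add_left Nat.one_le_two_pow _
          _ = 2 ^ (n + 1) := by ring
          _ ≤ 2 ^ ((n + 2) ^ 3) := Nat.pow_le_pow_right (by norm_num) (by ring_nf; nlinarith)
      exact_mod_cast this
    have h5 : (2:ℝ) ^ n * al n = 1 := by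
      rw [al, ← mul_pow]; norm_num
    have h6 := al_pos n
    nlinarith
  · intro m
    refine ⟨{m + 1, m + 2}, ?_, ?_⟩
    · intro n hn
      simp only [Finset.mem_insert, Finset.mem_singleton] at hn
      omega
    · rw [Finset.gcd_insert, Finset.gcd_singleton]
      simp only [normalize_eq]
      change Nat.gcd (P (m + 1)) (P (m + 2)) = 1
      rw [show P (m + 2) = 1 + A (m + 1) * P (m + 1) by simp only [P]; ring]
      simp
  · change v < g 0
    rw [g_zero]
    exact hv2
  · change ¬ v < g 1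
    exact not_lt.mpr hv1.le
  · intro N hN x y hx hy ⟨hs1, hs2, hs3⟩
    have hN' : ∀ z, N z = sInf {r : ℝ | ∃ k : ℕ →₀ ℤ,
        (k.sum (fun i c => c * (P i : ℤ))) = z ∧ r = cost k} := hN
    have hne : ∀ z : ℤ, {r : ℝ | ∃ k : ℕ →₀ ℤ,
        (k.sum (fun i c => c * (P i : ℤ))) = z ∧ r = cost k}.Nonempty := by
      intro z
      refine ⟨_, Finsupp.single 0 z, ?_, rfl⟩
      rw [Finsupp.sum_single_index (by simp)]
      simp [P]
    have hcost : ∀ k, 0 ≤ cost k := by
      intro k
      exact (mul_nonneg (abs_nonneg _) (al_pos 0).le).trans (cost_coeff k 0)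
    have hbdd : ∀ z : ℤ, BddBelow {r : ℝ | ∃ k : ℕ →₀ ℤ,
        (k.sum (fun i c => c * (P i : ℤ))) = z ∧ r = cost k} := by
      intro z
      refine ⟨0, ?_⟩
      rintro r ⟨k, _, rfl⟩
      exact hcost k
    have hNnn : ∀ z, 0 ≤ N z := by
      intro z
      rw [hN']
      apply le_csInf (hne z)
      rintro r ⟨k, _, rfl⟩
      exact hcost k
    have hlip : ∀ u w : ℤ, |g u - g w| ≤ 2 * Real.pi * N (u - w) := by
      intro u w
      have hpi := Real.pi_pos
      rw [← div_le_iff₀' (by positivity), hN']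
      apply le_csInf (hne _)
      rintro r ⟨k, hk, rfl⟩
      rw [div_le_iff₀' (by positivity)]
      exact g_lip u w k hk
    have hadd : ∀ u w : ℤ, N (u + w) ≤ N u + N w := by
      intro u w
      apply le_of_forall_pos_lt_add
      intro e he
      obtain ⟨r1, ⟨k1, hk1, rfl⟩, hr1⟩ := exists_lt_of_csInf_lt (hne u)
        (show sInf _ < N u + e / 2 by rw [← hN']; linarith)
      obtain ⟨r2, ⟨k2, hk2, rfl⟩, hr2⟩ := exists_lt_of_csInf_lt (hne w)
        (show sInf _ < N w + e / 2 by rw [← hN']; linarith)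
      have h1 : N (u + w) ≤ cost (k1 + k2) := by
        rw [hN']
        apply csInf_le (hbdd _)
        refine ⟨k1 + k2, ?_, rfl⟩
        rw [Finsupp.sum_add_index' (by simp) (by intros; ring), hk1, hk2]
      have h2 : cost (k1 + k2) ≤ cost k1 + cost k2 := by
        classical
        unfold cost
        rw [Finsupp.sum_of_support_subset (k1 + k2) (s := k1.support ∪ k2.support)
            Finsupp.support_add _ (by simp),
          Finsupp.sum_of_support_subset k1 (s := k1.support ∪ k2.support)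
            Finset.subset_union_left _ (by simp),
          Finsupp.sum_of_support_subset k2 (s := k1.support ∪ k2.support)
            Finset.subset_union_right _ (by simp), ← Finset.sum_add_distrib]
        apply Finset.sum_le_sum
        intro i _
        rw [Finsupp.add_apply, ← add_mul]
        push_cast
        have := abs_add_le (k1 i : ℝ) (k2 i : ℝ)
        have := al_pos i
        gcongr
      linarith
    have hneg : ∀ u w : ℤ, N (u - w) = N (w - u) := by
      have key : ∀ z : ℤ, N (-z) ≤ N z := by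
        intro z
        rw [hN' z]
        apply le_csInf (hne z)
        rintro r ⟨k, hk, rfl⟩
        rw [hN']
        have h1 : cost (-k) = cost k := by
          unfold cost
          rw [Finsupp.sum_neg_index (by simp)]
          simp
        rw [← h1]
        apply csInf_le (hbdd _)
        refine ⟨-k, ?_, rfl⟩
        rw [Finsupp.sum_neg_index (by simp), ← hk]
        simp only [neg_mul]
        rw [Finsupp.sum_neg]
      intro u w
      have h1 := key (u - w)
      have h2 := key (w - u)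
      rw [neg_sub] at h1 h2
      exact le_antisymm h2 h1
    have hNx : ∀ i, N (x i) ≤ N (x 0) + ∑ j ∈ Finset.range i, N (x j - x (j + 1)) := by
      intro i
      induction i with
      | zero => simp
      | succ i ih =>
        have h1 := hadd (x i) (x (i + 1) - x i)
        rw [add_sub_cancel, hneg] at h1
        rw [Finset.sum_range_succ]
        linarith
    obtain ⟨s, hs⟩ := pow_unbounded_of_one_lt (N (x 0) + ∑' j, N (x j - x (j + 1))) (one_lt_two)
    have hxV : ∀ i, g (x i) ∈ V s := by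
      intro i
      have h1 : N (x i) < 2 ^ s := by
        refine lt_of_le_of_lt ((hNx i).trans ?_) hs
        gcongr
        exact hs1.sum_le_tsum _ (fun j _ => hNnn _)
      rw [hN'] at h1
      obtain ⟨r, ⟨k, hk, rfl⟩, hr⟩ := exists_lt_of_csInf_lt (hne _) h1
      exact ⟨k, hr, by rw [hk]⟩
    have hcau : CauchySeq (fun i => g (x i)) := by
      apply cauchySeq_of_summable_dist
      apply Summable.of_nonneg_of_le (fun i => dist_nonneg) (fun i => ?_) (hs1.mul_left (2 * Real.pi))
      rw [Real.dist_eq]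
      exact hlip _ _
    obtain ⟨τ, hτ⟩ := cauchySeq_tendsto_of_complete hcau
    have hdiff : Tendsto (fun i => g (x i) - g (y i)) atTop (𝓝 0) := by
      have h1 := (hs3.mul_left (2 * Real.pi)).tendsto_atTop_zero
      apply squeeze_zero_norm (fun i => ?_) h1
      rw [Real.norm_eq_abs]
      exact hlip _ _
    have hτy : Tendsto (fun i => g (y i)) atTop (𝓝 τ) := by
      have := hτ.sub hdiff
      simpa using this
    have h1 : v ≤ τ := ge_of_tendsto' hτ (fun i => le_of_lt (hx i))
    have h2 : τ ≤ v := le_of_tendsto' hτy (fun i => not_lt.mp (hy i))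
    have h3 : v = τ := le_antisymm h1 h2
    apply hv3 s
    rw [h3]
    exact mem_closure_of_tendsto hτ (Filter.Eventually.of_forall hxV)

end Pool.Agent.S01735
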