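import Pool.Statements.S01737
import Pool.Agent.Helper157.AbaMain

set_option autoImplicit false
open Pool Pool.MP_aba4aa_al

namespace Pool.Agent.S01737

/-- For every even positive integer k there is a group on which exactly k distinct partial orders are both two-sided translation invariant and lattice orders (all pairs have joins and meets). -/
theorem result :
    ∀ k : ℕ, 0 < k → Even k →
      ∃ (G : Type) (_ : Group G),
        Set.ncard {r : G → G → Prop |
          (∀ a, r a a) ∧
          (∀ a b c, r a b → r b c → r a c) ∧
          (∀ a b, r a b → r b a → a = b) ∧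
          (∀ a b c d, r a b → r (c * a * d) (c * b * d)) ∧
          (∀ a b, ∃ s, r a s ∧ r b s ∧ ∀ u, r a u → r b u → r s u) ∧
          (∀ a b, ∃ t, r t a ∧ r t b ∧ ∀ u, r u a → r u b → r u t)} = k := by
  intro k hk he
  exact Pool.Agent.Helper157.main k hk he

end Pool.Agent.S01737
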