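import Pool.Statements.S01740

/-!
A topological group which embeds in the multiplicative semigroup of no topological ring.

The group is the group `H` of all increasing bijections `f` of the line such that `f` and `f⁻¹` are
uniformly continuous, with the topology of uniform convergence (the sets
`{f | ∀ x, |f x - x| < ε}` are a basis of neighbourhoods of the identity).

Idea: let `f : H → R` be a continuous multiplicative map to a topological ring.  Put `g = T (1/n)`
(translation by `1/n`) and `r = f 1 + f g + ... + f (g ^ (n - 1))`.  If `u` commutes with `g` then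
`f u` commutes with `r`.  The translation `T (1/(8 n))` is a product `x * y`, where `x` and `y`
commute with `g`, and each of them fixes an interval; so each of them can be conjugated, by elements
`u` near the identity (uniformly in `n`) which commute with `g`, to elements as close to `1` as we
like.  Hence `r * (f x - f 1) = f u * (r * (f (u⁻¹ * x * u) - f 1)) * f u⁻¹` is the product of two
factors near `f 1` and a factor as close to `0` as we like, and the same for `y`.  Therefore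
`f (T 1) - f 1 = r * (f g - f 1)` lies in every neighbourhood of `0`, so `T 1` lies in every
neighbourhood of `1` in the topology induced by `f`.
-/

set_option autoImplicit false
open Pool Pool.MP_abd870_al

namespace Pool.Agent.S01740

open Topology Filter

/-- The group of increasing bijections of the line which are uniformly continuous in both
directions. -/
def H : Subgroup (ℝ ≃o ℝ) where
  carrier := {f | UniformContinuous f ∧ UniformContinuous (f⁻¹ : ℝ ≃o ℝ)}
  mul_mem' := by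
    rintro f g ⟨hf, hf'⟩ ⟨hg, hg'⟩
    refine ⟨hf.comp hg, ?_⟩
    rw [mul_inv_rev]
    exact hg'.comp hf'
  one_mem' := ⟨uniformContinuous_id, by rw [inv_one]; exact uniformContinuous_id⟩
  inv_mem' := by
    rintro f ⟨hf, hf'⟩
    exact ⟨hf', by rw [inv_inv]; exact hf⟩

/-- evaluation -/
def ev (f : H) (x : ℝ) : ℝ := (f : ℝ ≃o ℝ) x

theorem ev_mul (f g : H) (x : ℝ) : ev (f * g) x = ev f (ev g x) := rfl
theorem ev_one (x : ℝ) : ev 1 x = x := rfl
theorem ev_inv (f : H) (x : ℝ) : ev f (ev f⁻¹ x) = x := by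
  rw [← ev_mul, mul_inv_cancel, ev_one]
theorem ev_inv' (f : H) (x : ℝ) : ev f⁻¹ (ev f x) = x := by
  rw [← ev_mul, inv_mul_cancel, ev_one]
theorem ext_ev {f g : H} (h : ∀ x, ev f x = ev g x) : f = g := by
  apply Subtype.ext
  apply DFunLike.ext
  exact h
theorem ev_lt (f : H) {x y : ℝ} (h : x < y) : ev f x < ev f y := (f : ℝ ≃o ℝ).strictMono h
theorem ev_le (f : H) {x y : ℝ} (h : x ≤ y) : ev f x ≤ ev f y := (f : ℝ ≃o ℝ).monotone h
theorem ev_uc (f : H) : UniformContinuous (ev f) := f.2.1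

/-- uniform balls around the identity -/
def ball (ε : ℝ) : Set H := {f | ∀ x : ℝ, |ev f x - x| < ε}

@[instance_reducible]
def basis : GroupFilterBasis H where
  sets := {S | ∃ ε : ℝ, 0 < ε ∧ S = ball ε}
  nonempty := ⟨ball 1, 1, one_pos, rfl⟩
  inter_sets := by
    rintro _ _ ⟨a, ha, rfl⟩ ⟨b, hb, rfl⟩
    refine ⟨ball (min a b), ⟨min a b, lt_min ha hb, rfl⟩, ?_⟩
    intro f hf
    exact ⟨fun x => (hf x).trans_le (min_le_left _ _), fun x => (hf x).trans_le (min_le_right _ _)⟩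
  one' := by
    rintro _ ⟨a, ha, rfl⟩ x
    rw [ev_one, sub_self, abs_zero]
    exact ha
  mul' := by
    rintro _ ⟨a, ha, rfl⟩
    refine ⟨ball (a / 2), ⟨a / 2, by positivity, rfl⟩, ?_⟩
    rintro _ ⟨f, hf, g, hg, rfl⟩ x
    have h1 := hf (ev g x)
    have h2 := hg x
    change |ev (f * g) x - x| < a
    rw [ev_mul]
    calc |ev f (ev g x) - x| = |(ev f (ev g x) - ev g x) + (ev g x - x)| := by ring_nf
      _ ≤ |ev f (ev g x) - ev g x| + |ev g x - x| := abs_add_le _ _
      _ < a := by linarith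
  inv' := by
    rintro _ ⟨a, ha, rfl⟩
    refine ⟨ball a, ⟨a, ha, rfl⟩, ?_⟩
    intro f hf x
    have h1 := hf (ev f⁻¹ x)
    rw [ev_inv, abs_sub_comm] at h1
    exact h1
  conj' := by
    rintro h _ ⟨a, ha, rfl⟩
    obtain ⟨d, hd, hd'⟩ := Metric.uniformContinuous_iff.mp (ev_uc h) a ha
    refine ⟨ball d, ⟨d, hd, rfl⟩, ?_⟩
    intro f hf x
    have h1 := hf (ev h⁻¹ x)
    have h2 := hd' (a := ev f (ev h⁻¹ x)) (b := ev h⁻¹ x) (by rw [Real.dist_eq]; exact h1)
    rw [Real.dist_eq, ev_inv] at h2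
    exact h2

instance : TopologicalSpace H := basis.topology
instance : IsTopologicalGroup H := basis.isTopologicalGroup

theorem mem_nhds_iff' {S : Set H} : S ∈ 𝓝 (1 : H) ↔ ∃ ε : ℝ, 0 < ε ∧ ball ε ⊆ S := by
  rw [basis.nhds_one_hasBasis.mem_iff]
  constructor
  · rintro ⟨U, ⟨ε, hε, rfl⟩, h⟩
    exact ⟨ε, hε, h⟩
  · rintro ⟨ε, hε, h⟩
    exact ⟨ball ε, ⟨ε, hε, rfl⟩, h⟩

theorem core {G : Type} [Group G] [TopologicalSpace G] [IsTopologicalGroup G]
    {R : Type} [Ring R] [TopologicalSpace R] [IsTopologicalRing R]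
    (f : G →ₙ* R) (hf : Continuous f) (t : G)
    (h : ∀ W ∈ 𝓝 (1 : G), ∃ (g z x y : G) (N : ℕ), g ^ N = t ∧ z ^ 8 = g ∧ x * y = z ∧
      y ∈ W ∧ z ∈ W ∧
      (∀ W' ∈ 𝓝 (1 : G), ∃ u ∈ W, Commute u g ∧ u⁻¹ * x * u ∈ W') ∧
      (∀ W' ∈ 𝓝 (1 : G), ∃ u ∈ W, Commute u g ∧ u⁻¹ * y * u ∈ W')) :
    ∀ V ∈ 𝓝 (0 : R), f t - f 1 ∈ V := by
  intro V hV
  let Φ : (G × G × G × G) × (R × R) → R := fun p =>
    (f p.1.1 * p.2.1 * f p.1.1⁻¹ * f p.1.2.2.1 +
      f p.1.2.1 * p.2.2 * f p.1.2.1⁻¹) * ∑ i ∈ Finset.range 8, f (p.1.2.2.2 ^ i)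
  have hΦ : Continuous Φ := by
    have hs : Continuous fun p : (G × G × G × G) × (R × R) =>
        ∑ i ∈ Finset.range 8, f (p.1.2.2.2 ^ i) :=
      continuous_finsetSum _ fun i _ => hf.comp (by fun_prop)
    have h1 : Continuous fun p : (G × G × G × G) × (R × R) => f p.1.1 := hf.comp (by fun_prop)
    have h2 : Continuous fun p : (G × G × G × G) × (R × R) => f p.1.1⁻¹ := hf.comp (by fun_prop)
    have h3 : Continuous fun p : (G × G × G × G) × (R × R) => f p.1.2.2.1 :=
      hf.comp (by fun_prop)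
    have h4 : Continuous fun p : (G × G × G × G) × (R × R) => f p.1.2.1 := hf.comp (by fun_prop)
    have h5 : Continuous fun p : (G × G × G × G) × (R × R) => f p.1.2.1⁻¹ :=
      hf.comp (by fun_prop)
    have h6 : Continuous fun p : (G × G × G × G) × (R × R) => p.2.1 := by fun_prop
    have h7 : Continuous fun p : (G × G × G × G) × (R × R) => p.2.2 := by fun_prop
    exact ((((h1.mul h6).mul h2).mul h3).add ((h4.mul h7).mul h5)).mul hs
  have hΦ0 : Φ ((1, 1, 1, 1), (0, 0)) = 0 := by simp [Φ]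
  have hpre : Φ ⁻¹' V ∈ 𝓝 (((1, 1, 1, 1), (0, 0)) : (G × G × G × G) × (R × R)) :=
    hΦ.continuousAt (by rw [hΦ0]; exact hV)
  obtain ⟨A, hA, B, hB, hAB⟩ := mem_nhds_prod_iff.mp hpre
  obtain ⟨A1, hA1, A', hA', hA''⟩ := mem_nhds_prod_iff.mp hA
  obtain ⟨A2, hA2, C', hC', hC''⟩ := mem_nhds_prod_iff.mp hA'
  obtain ⟨A3, hA3, A4, hA4, hD⟩ := mem_nhds_prod_iff.mp hC'
  obtain ⟨B1, hB1, B2, hB2, hBB⟩ := mem_nhds_prod_iff.mp hB
  obtain ⟨g, z, x, y, N, hgN, hz8, hxy, hy, hz, hx', hy'⟩ :=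
    h (A1 ∩ A2 ∩ (A3 ∩ A4)) (inter_mem (inter_mem hA1 hA2) (inter_mem hA3 hA4))
  set r : R := ∑ j ∈ Finset.range N, f (g ^ j) with hr
  have hcont : Continuous fun w : G => r * (f w - f 1) :=
    continuous_const.mul (hf.sub continuous_const)
  have hW' : ∀ B' ∈ 𝓝 (0 : R), {w : G | r * (f w - f 1) ∈ B'} ∈ 𝓝 (1 : G) := by
    intro B' hB'
    apply hcont.continuousAt
    change B' ∈ 𝓝 (r * (f 1 - f 1))
    rw [sub_self, mul_zero]
    exact hB'
  obtain ⟨u1, hu1, hc1, hm1⟩ := hx' _ (hW' B1 hB1)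
  obtain ⟨u2, hu2, hc2, hm2⟩ := hy' _ (hW' B2 hB2)
  have hcr : ∀ u : G, Commute u g → f u * r = r * f u := by
    intro u hu
    rw [hr, Finset.mul_sum, Finset.sum_mul]
    refine Finset.sum_congr rfl fun j _ => ?_
    rw [← map_mul, ← map_mul, (hu.pow_right j).eq]
  have hconj : ∀ u w : G, Commute u g →
      f u * (r * (f (u⁻¹ * w * u) - f 1)) * f u⁻¹ = r * (f w - f 1) := by
    intro u w hu
    rw [← mul_assoc (f u) r, hcr u hu, mul_assoc r, mul_assoc r]
    congr 1
    rw [mul_sub, sub_mul, ← map_mul, ← map_mul, ← map_mul, ← map_mul]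
    congr 2 <;> group
  have hmem : Φ ((u1, u2, y, z), (r * (f (u1⁻¹ * x * u1) - f 1),
      r * (f (u2⁻¹ * y * u2) - f 1))) ∈ V := by
    apply hAB
    refine ⟨hA'' ⟨hu1.1.1, hC'' ⟨hu2.1.2, hD ⟨hy.2.1, hz.2.2⟩⟩⟩, hBB ⟨hm1, hm2⟩⟩
  have hval : Φ ((u1, u2, y, z), (r * (f (u1⁻¹ * x * u1) - f 1),
      r * (f (u2⁻¹ * y * u2) - f 1))) = f t - f 1 := by
    change (f u1 * (r * (f (u1⁻¹ * x * u1) - f 1)) * f u1⁻¹ * f y +
      f u2 * (r * (f (u2⁻¹ * y * u2) - f 1)) * f u2⁻¹) *
        ∑ i ∈ Finset.range 8, f (z ^ i) = f t - f 1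
    rw [hconj u1 x hc1, hconj u2 y hc2]
    have e1 : r * (f x - f 1) * f y + r * (f y - f 1) = r * (f z - f 1) := by
      rw [mul_assoc, ← mul_add, sub_mul, ← map_mul, ← map_mul, one_mul, hxy]
      congr 1
      abel
    rw [e1, mul_assoc]
    have e2 : (f z - f 1) * ∑ i ∈ Finset.range 8, f (z ^ i) = f g - f 1 := by
      rw [Finset.mul_sum]
      have : ∀ i ∈ Finset.range 8, (f z - f 1) * f (z ^ i) = f (z ^ (i + 1)) - f (z ^ i) := by
        intro i _
        rw [sub_mul, ← map_mul, ← map_mul, one_mul, pow_succ']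
      rw [Finset.sum_congr rfl this, Finset.sum_range_sub (fun i => f (z ^ i)), hz8, pow_zero]
    rw [e2, hr, Finset.sum_mul]
    have : ∀ j ∈ Finset.range N, f (g ^ j) * (f g - f 1) = f (g ^ (j + 1)) - f (g ^ j) := by
      intro j _
      rw [mul_sub, ← map_mul, ← map_mul, mul_one, pow_succ]
    rw [Finset.sum_congr rfl this, Finset.sum_range_sub (fun i => f (g ^ i)), hgN, pow_zero]
  rw [← hval]
  exact hmem

theorem exists_pert (ψ : ℝ → ℝ) (h : ∀ x y, |ψ x - ψ y| ≤ (1 / 2) * |x - y|) :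
    ∃ f : H, ∀ x, ev f x = x + ψ x := by
  have hlow : ∀ x y : ℝ, (1 / 2) * |x - y| ≤ |(x + ψ x) - (y + ψ y)| := by
    intro x y
    have h1 := h x y
    have h2 : |x - y| ≤ |(x + ψ x) - (y + ψ y)| + |ψ x - ψ y| := by
      calc |x - y| = |((x + ψ x) - (y + ψ y)) + (ψ y - ψ x)| := by ring_nf
        _ ≤ |(x + ψ x) - (y + ψ y)| + |ψ y - ψ x| := abs_add_le _ _
        _ = _ := by rw [abs_sub_comm (ψ y)]
    linarith
  have hup : ∀ x y : ℝ, |(x + ψ x) - (y + ψ y)| ≤ 2 * |x - y| := by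
    intro x y
    have h1 := h x y
    have h2 : |(x + ψ x) - (y + ψ y)| ≤ |x - y| + |ψ x - ψ y| := by
      calc |(x + ψ x) - (y + ψ y)| = |(x - y) + (ψ x - ψ y)| := by ring_nf
        _ ≤ _ := abs_add_le _ _
    have h3 := abs_nonneg (x - y)
    linarith
  have hmono : StrictMono fun x => x + ψ x := by
    intro x y hxy
    have h1 := h x y
    rw [abs_sub_comm x y, abs_of_pos (sub_pos.mpr hxy)] at h1
    have h2 := le_abs_self (ψ x - ψ y)
    change x + ψ x < y + ψ y
    linarith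
  have huc : UniformContinuous fun x => x + ψ x := by
    apply LipschitzWith.uniformContinuous (K := 2)
    apply LipschitzWith.of_dist_le_mul
    intro x y
    rw [Real.dist_eq, Real.dist_eq]
    exact hup x y
  have hsurj : Function.Surjective fun x => x + ψ x := by
    apply huc.continuous.surjective
    · apply tendsto_atTop_mono' _ (f₁ := fun x => ψ 0 + (1 / 2) * x)
      · filter_upwards [eventually_ge_atTop (0 : ℝ)] with x hx
        have h1 := h 0 x
        have h2 := le_abs_self (ψ 0 - ψ x)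
        rw [abs_sub_comm 0 x, sub_zero, abs_of_nonneg hx] at h1
        linarith
      · exact tendsto_atTop_add_const_left _ _ (tendsto_id.const_mul_atTop (by norm_num))
    · apply tendsto_atBot_mono' _ (f₁ := fun x => ψ 0 + (1 / 2) * x)
      · filter_upwards [eventually_le_atBot (0 : ℝ)] with x hx
        have h1 := h 0 x
        have h2 := neg_le_abs (ψ 0 - ψ x)
        rw [zero_sub, abs_neg, abs_of_nonpos hx] at h1
        linarith
      · exact tendsto_atBot_add_const_left _ _ (tendsto_id.const_mul_atBot (by norm_num))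
  refine ⟨⟨hmono.orderIsoOfSurjective _ hsurj, huc, ?_⟩, fun x => rfl⟩
  apply LipschitzWith.uniformContinuous (K := 2)
  apply LipschitzWith.of_dist_le_mul
  intro p q
  set e : ℝ ≃o ℝ := hmono.orderIsoOfSurjective _ hsurj with he
  have h1 := hlow ((e⁻¹ : ℝ ≃o ℝ) p) ((e⁻¹ : ℝ ≃o ℝ) q)
  have hp : (e⁻¹ : ℝ ≃o ℝ) p + ψ ((e⁻¹ : ℝ ≃o ℝ) p) = p := e.apply_symm_apply p
  have hq : (e⁻¹ : ℝ ≃o ℝ) q + ψ ((e⁻¹ : ℝ ≃o ℝ) q) = q := e.apply_symm_apply q
  rw [hp, hq] at h1
  rw [Real.dist_eq, Real.dist_eq]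
  change _ ≤ (2 : ℝ) * _
  linarith

/-- distance to the nearest integer -/
noncomputable def D (x : ℝ) : ℝ := |x - round x|

theorem D_le (x : ℝ) (n : ℤ) : D x ≤ |x - n| := round_le x n

theorem D_lip (x y : ℝ) : |D x - D y| ≤ |x - y| := by
  have key : ∀ x y : ℝ, D x - D y ≤ |x - y| := by
    intro x y
    have h1 := D_le x (round y)
    have h2 : |x - round y| ≤ |x - y| + |y - round y| := abs_sub_le _ _ _
    change _ ≤ _ + D y at h2
    linarith
  rw [abs_le]
  constructor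
  · have := key y x
    rw [abs_sub_comm] at this
    linarith
  · exact key x y

theorem D_add_one (x : ℝ) : D (x + 1) = D x := by
  unfold D
  rw [round_add_one]
  push_cast
  congr 1
  ring

theorem D_nonneg (x : ℝ) : 0 ≤ D x := abs_nonneg _

theorem D_pos {x : ℝ} (h0 : 0 < x) (h1 : x < 1) : 0 < D x := by
  unfold D
  rw [abs_pos, sub_ne_zero]
  intro h
  have a0 : (0 : ℝ) < (round x : ℝ) := by linarith
  have a1 : (round x : ℝ) < 1 := by linarith
  have b0 : (0 : ℤ) < round x := by exact_mod_cast a0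
  have b1 : round x < (1 : ℤ) := by exact_mod_cast a1
  omega

theorem D_ge {x : ℝ} (h0 : 3 / 8 ≤ x) (h1 : x ≤ 5 / 8) : 3 / 8 ≤ D x := by
  unfold D
  rcases le_or_gt (round x) 0 with h | h
  · have h' : ((round x : ℤ) : ℝ) ≤ 0 := by exact_mod_cast h
    exact le_trans (by linarith) (le_abs_self _)
  · have h' : (1 : ℝ) ≤ ((round x : ℤ) : ℝ) := by exact_mod_cast h
    exact le_trans (by linarith) (neg_le_abs _)

theorem exists_T (a : ℝ) : ∃ f : H, ∀ x, ev f x = x + a :=
  exists_pert (fun _ => a) (by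
    intro x y
    rw [sub_self, abs_zero]
    positivity)

/-- translation by `a` -/
noncomputable def T (a : ℝ) : H := (exists_T a).choose

theorem ev_T (a x : ℝ) : ev (T a) x = x + a := (exists_T a).choose_spec x

theorem T_pow (a : ℝ) (n : ℕ) : (T a) ^ n = T (n * a) := by
  induction n with
  | zero =>
    apply ext_ev
    intro x
    rw [pow_zero, ev_one, ev_T]
    push_cast
    ring
  | succ n ih =>
    apply ext_ev
    intro x
    rw [pow_succ, ih, ev_mul, ev_T, ev_T, ev_T]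
    push_cast
    ring

theorem commute_iff (c : H) : Commute c (T 1) ↔ ∀ w, ev c (w + 1) = ev c w + 1 := by
  constructor
  · intro h w
    have h1 := congrArg (fun k => ev k w) h.eq
    simp only [ev_mul, ev_T] at h1
    exact h1
  · intro h
    apply ext_ev
    intro w
    rw [ev_mul, ev_mul, ev_T, ev_T, h]

theorem shift_int {c : H} (h : Commute c (T 1)) (w : ℝ) (j : ℤ) :
    ev c (w + j) = ev c w + j := by
  rw [commute_iff] at h
  induction j using Int.induction_on with
  | zero => simp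
  | succ i ih =>
    have e : (w + ((i + 1 : ℤ) : ℝ)) = (w + ((i : ℤ) : ℝ)) + 1 := by push_cast; ring
    rw [e, h, ih]
    push_cast
    ring
  | pred i ih =>
    have e : (w + ((-(i : ℤ) : ℤ) : ℝ)) = (w + ((-(i : ℤ) - 1 : ℤ) : ℝ)) + 1 := by push_cast; ring
    rw [e, h] at ih
    have e2 : ev c (w + ((-(i : ℤ) - 1 : ℤ) : ℝ)) = ev c w + ((-(i : ℤ) : ℤ) : ℝ) - 1 := by
      linarith
    rw [e2]
    push_cast
    ring

/-- every real lies in some `[a + j, a + j + 1)`. -/
theorem exists_floor (a w : ℝ) : ∃ j : ℤ, ∃ p : ℝ, a ≤ p ∧ p < a + 1 ∧ w = p + j := by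
  refine ⟨⌊w - a⌋, w - ⌊w - a⌋, ?_, ?_, by ring⟩
  · have := Int.floor_le (w - a)
    linarith
  · have := Int.lt_floor_add_one (w - a)
    linarith

theorem shrink (c : H) (hc : Commute c (T 1)) (a b m : ℝ) (ham : a < m) (hmb : m < b)
    (hba : b < a + 1) (hfix : ∀ w, a ≤ w → w ≤ b → ev c w = w) (ε : ℝ) (hε : 0 < ε) :
    ∃ u : H, Commute u (T 1) ∧ (∀ w, |ev u w - w| ≤ 1) ∧ ∀ w, |ev (u⁻¹ * c * u) w - w| < ε := by
  obtain ⟨v, hv⟩ := exists_pert (fun w => (1 / 2) * D (w - m)) (by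
    intro x y
    rw [← mul_sub, abs_mul, abs_of_pos (by norm_num : (0 : ℝ) < 1 / 2)]
    have := D_lip (x - m) (y - m)
    have e : x - m - (y - m) = x - y := by ring
    rw [e] at this
    linarith)
  have hvT : Commute v (T 1) := by
    rw [commute_iff]
    intro w
    rw [hv, hv]
    have e : w + 1 - m = (w - m) + 1 := by ring
    rw [e, D_add_one]
    ring
  have hDm : D (m - m) = 0 := by
    have := D_le (m - m) 0
    have h2 := D_nonneg (m - m)
    simp at this
    simpa using le_antisymm (by simpa using this) h2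
  have hvm : ev v m = m := by
    rw [hv, hDm]
    ring
  have hpowm : ∀ k : ℕ, ev (v ^ k) m = m := by
    intro k
    induction k with
    | zero => rw [pow_zero, ev_one]
    | succ k ih => rw [pow_succ, ev_mul, hvm, ih]
  have hcomk : ∀ k : ℕ, Commute (v ^ k) (T 1) := fun k => hvT.pow_left k
  have hpowm1 : ∀ k : ℕ, ev (v ^ k) (m + 1) = m + 1 := by
    intro k
    rw [(commute_iff _).mp (hcomk k), hpowm]
  -- the orbit of `b`
  have hlim : Tendsto (fun k : ℕ => ev (v ^ k) b) atTop (𝓝 (m + 1)) := by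
    have hmono : Monotone fun k : ℕ => ev (v ^ k) b := by
      apply monotone_nat_of_le_succ
      intro k
      rw [pow_succ', ev_mul, hv]
      have := D_nonneg (ev (v ^ k) b - m)
      linarith
    have hbd : ∀ k : ℕ, ev (v ^ k) b ≤ m + 1 := by
      intro k
      rw [← hpowm1 k]
      exact ev_le _ (by linarith)
    have hbdd : BddAbove (Set.range fun k : ℕ => ev (v ^ k) b) :=
      ⟨m + 1, by rintro _ ⟨k, rfl⟩; exact hbd k⟩
    have ht := tendsto_atTop_ciSup hmono hbdd
    set L := ⨆ k : ℕ, ev (v ^ k) b with hL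
    have hLle : L ≤ m + 1 := ciSup_le hbd
    have hbL : b ≤ L := by
      have := le_ciSup hbdd 0
      simpa [ev_one] using this
    have hvL : ev v L = L := by
      have h1 : Tendsto (fun k : ℕ => ev (v ^ (k + 1)) b) atTop (𝓝 L) :=
        ht.comp (tendsto_add_atTop_nat 1)
      have h2 : Tendsto (fun k : ℕ => ev v (ev (v ^ k) b)) atTop (𝓝 (ev v L)) :=
        ((ev_uc v).continuous.tendsto L).comp ht
      have h3 : (fun k : ℕ => ev (v ^ (k + 1)) b) = fun k : ℕ => ev v (ev (v ^ k) b) := by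
        funext k
        rw [pow_succ', ev_mul]
      rw [h3] at h1
      exact tendsto_nhds_unique h2 h1
    have hD0 : D (L - m) = 0 := by
      rw [hv] at hvL
      linarith
    have hLm : L = m + 1 := by
      rcases hLle.eq_or_lt with h | h
      · exact h
      · exfalso
        have := D_pos (x := L - m) (by linarith) (by linarith)
        linarith
    rw [hLm] at ht
    exact ht
  obtain ⟨k, hk⟩ := (hlim.eventually (lt_mem_nhds (show m + 1 - ε < m + 1 by linarith))).exists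
  refine ⟨(v ^ k)⁻¹, (hcomk k).inv_left, ?_, ?_⟩
  · intro w
    set p := ev (v ^ k)⁻¹ w with hp
    have hw : w = ev (v ^ k) p := by rw [hp, ev_inv]
    rw [hw]
    obtain ⟨j, q, hq1, hq2, hq3⟩ := exists_floor m p
    rw [hq3, shift_int (hcomk k)]
    have h1 : m ≤ ev (v ^ k) q := by
      rw [← hpowm k]
      exact ev_le _ hq1
    have h2 : ev (v ^ k) q ≤ m + 1 := by
      rw [← hpowm1 k]
      exact ev_le _ hq2.le
    rw [abs_le]
    constructor <;> linarith
  · intro w
    rw [inv_inv, ev_mul, ev_mul]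
    set p := ev (v ^ k)⁻¹ w with hp
    have hw : w = ev (v ^ k) p := by rw [hp, ev_inv]
    rw [hw]
    obtain ⟨j, q, hq1, hq2, hq3⟩ := exists_floor a p
    rw [hq3, shift_int hc, shift_int (hcomk k), shift_int (hcomk k)]
    rcases le_or_gt q b with hqb | hqb
    · rw [hfix q hq1 hqb, sub_self, abs_zero]
      exact hε
    · have hca1 : ev c (a + 1) = a + 1 := by
        rw [(commute_iff _).mp hc, hfix a le_rfl (by linarith)]
      have h1 : b ≤ ev c q := by
        calc b = ev c b := (hfix b (by linarith) le_rfl).symm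
          _ ≤ ev c q := ev_le c hqb.le
      have h2 : ev c q ≤ m + 1 := by
        calc ev c q ≤ ev c (a + 1) := ev_le c hq2.le
          _ = a + 1 := hca1
          _ ≤ m + 1 := by linarith
      have h3 : ev (v ^ k) b ≤ ev (v ^ k) (ev c q) := ev_le _ h1
      have h4 : ev (v ^ k) (ev c q) ≤ m + 1 := by
        rw [← hpowm1 k]
        exact ev_le _ h2
      have h5 : ev (v ^ k) b ≤ ev (v ^ k) q := ev_le _ hqb.le
      have h6 : ev (v ^ k) q ≤ m + 1 := by
        rw [← hpowm1 k]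
        exact ev_le _ (by linarith)
      rw [abs_lt]
      constructor <;> linarith

theorem base : ∃ x y : H, x * y = T (1 / 8) ∧ (∀ w, |ev y w - w| ≤ 1) ∧
    (∀ ε : ℝ, 0 < ε → ∃ u : H, Commute u (T 1) ∧ (∀ w, |ev u w - w| ≤ 1) ∧
      ∀ w, |ev (u⁻¹ * x * u) w - w| < ε) ∧
    (∀ ε : ℝ, 0 < ε → ∃ u : H, Commute u (T 1) ∧ (∀ w, |ev u w - w| ≤ 1) ∧
      ∀ w, |ev (u⁻¹ * y * u) w - w| < ε) := by
  obtain ⟨y, hy⟩ := exists_pert (fun w => (1 / 2) * min (max (D w - 1 / 8) 0) (1 / 4)) (by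
    intro p q
    rw [← mul_sub, abs_mul, abs_of_pos (by norm_num : (0 : ℝ) < 1 / 2)]
    have h0 := D_lip p q
    have h1 : |min (max (D p - 1 / 8) 0) (1 / 4) - min (max (D q - 1 / 8) 0) (1 / 4)| ≤
        |max (D p - 1 / 8) 0 - max (D q - 1 / 8) 0| := by
      have := abs_min_sub_min_le_max (max (D p - 1 / 8) 0) (1 / 4 : ℝ) (max (D q - 1 / 8) 0) (1 / 4)
      simpa using this
    have h2 : |max (D p - 1 / 8) 0 - max (D q - 1 / 8) 0| ≤ |D p - D q| := by
      have := abs_max_sub_max_le_max (D p - 1 / 8) (0 : ℝ) (D q - 1 / 8) 0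
      simpa using this
    linarith)
  have hyT : Commute y (T 1) := by
    rw [commute_iff]
    intro w
    rw [hy, hy, D_add_one]
    ring
  have hTT : Commute (T (1 / 8)) (T 1) := by
    rw [commute_iff]
    intro w
    rw [ev_T, ev_T]
    ring
  refine ⟨T (1 / 8) * y⁻¹, y, by group, ?_, ?_, ?_⟩
  · intro w
    rw [hy]
    have h1 : 0 ≤ min (max (D w - 1 / 8) 0) (1 / 4 : ℝ) := le_min (le_max_right _ _) (by norm_num)
    have h2 : min (max (D w - 1 / 8) 0) (1 / 4 : ℝ) ≤ 1 / 4 := min_le_right _ _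
    rw [abs_le]
    constructor <;> linarith
  · intro ε hε
    refine shrink _ (hTT.mul_left hyT.inv_left) (1 / 2) (3 / 4) (5 / 8) (by norm_num) (by norm_num)
      (by norm_num) ?_ ε hε
    intro w hw1 hw2
    have h1 : ev y (w - 1 / 8) = w := by
      rw [hy]
      have h2 := D_ge (x := w - 1 / 8) (by linarith) (by linarith)
      have h3 : (1 / 4 : ℝ) ≤ max (D (w - 1 / 8) - 1 / 8) 0 := le_max_of_le_left (by linarith)
      rw [min_eq_right h3]
      ring
    have h2 : ev y⁻¹ w = w - 1 / 8 := by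
      conv_lhs => rw [← h1]
      rw [ev_inv']
    rw [ev_mul, h2, ev_T]
    ring
  · intro ε hε
    refine shrink _ hyT (-1 / 8) (1 / 8) 0 (by norm_num) (by norm_num) (by norm_num) ?_ ε hε
    intro w hw1 hw2
    rw [hy]
    have h1 : D w ≤ 1 / 8 := by
      have h2 := D_le w 0
      rw [Int.cast_zero, sub_zero] at h2
      refine h2.trans ?_
      rw [abs_le]
      constructor <;> linarith
    rw [max_eq_right (by linarith : D w - 1 / 8 ≤ 0), min_eq_left (by norm_num : (0 : ℝ) ≤ 1 / 4)]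
    ring

theorem exists_dil (δ : ℝ) (hδ : 0 < δ) : ∃ d : H, ∀ x, ev d x = δ * x := by
  refine ⟨⟨OrderIso.mulLeft₀ δ hδ, ?_, ?_⟩, fun x => rfl⟩
  · exact Real.uniformContinuous_const_mul
  · change UniformContinuous ((OrderIso.mulLeft₀ δ hδ).symm)
    rw [OrderIso.mulLeft₀_symm]
    exact Real.uniformContinuous_const_mul

theorem main (W : Set H) (hW : W ∈ 𝓝 (1 : H)) :
    ∃ (g z x y : H) (N : ℕ), g ^ N = T 1 ∧ z ^ 8 = g ∧ x * y = z ∧ y ∈ W ∧ z ∈ W ∧
      (∀ W' ∈ 𝓝 (1 : H), ∃ u ∈ W, Commute u g ∧ u⁻¹ * x * u ∈ W') ∧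
      (∀ W' ∈ 𝓝 (1 : H), ∃ u ∈ W, Commute u g ∧ u⁻¹ * y * u ∈ W') := by
  obtain ⟨ε0, hε0, hW⟩ := mem_nhds_iff'.mp hW
  obtain ⟨n, hn⟩ := exists_nat_one_div_lt hε0
  set δ : ℝ := 1 / ((n : ℝ) + 1) with hδ
  have hn0 : (0 : ℝ) < (n : ℝ) + 1 := by positivity
  have hδ0 : 0 < δ := by positivity
  obtain ⟨d, hd⟩ := exists_dil δ hδ0
  obtain ⟨x, y, hxy, hyd, hxs, hys⟩ := base
  have hdinv : ∀ w, ev d⁻¹ w = w / δ := by
    intro w
    have h1 : ev d (w / δ) = w := by
      rw [hd]
      field_simp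
    conv_lhs => rw [← h1]
    rw [ev_inv']
  have hconj : ∀ (f : H) (w : ℝ), ev (MulAut.conj d f) w - w = δ * (ev f (w / δ) - w / δ) := by
    intro f w
    rw [MulAut.conj_apply, ev_mul, ev_mul, hdinv, hd]
    field_simp
  have hmemW : ∀ f : H, (∀ w, |ev f w - w| ≤ 1) → MulAut.conj d f ∈ W := by
    intro f hf
    apply hW
    intro w
    rw [hconj, abs_mul, abs_of_pos hδ0]
    have := hf (w / δ)
    calc δ * |ev f (w / δ) - w / δ| ≤ δ * 1 := by gcongr
      _ < ε0 := by linarith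
  have hmem' : ∀ p : H, (∀ ε : ℝ, 0 < ε → ∃ u : H, Commute u (T 1) ∧ (∀ w, |ev u w - w| ≤ 1) ∧
      ∀ w, |ev (u⁻¹ * p * u) w - w| < ε) → ∀ W' ∈ 𝓝 (1 : H), ∃ u ∈ W,
        Commute u (MulAut.conj d (T 1)) ∧ u⁻¹ * (MulAut.conj d p) * u ∈ W' := by
    intro p hp W' hW'
    obtain ⟨ε', hε', hW'⟩ := mem_nhds_iff'.mp hW'
    obtain ⟨u, hu1, hu2, hu3⟩ := hp (ε' / δ) (by positivity)
    refine ⟨MulAut.conj d u, hmemW u hu2, hu1.map (MulAut.conj d), hW' ?_⟩
    intro w
    rw [← map_inv, ← map_mul, ← map_mul, hconj, abs_mul, abs_of_pos hδ0]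
    have := hu3 (w / δ)
    rw [lt_div_iff₀ hδ0] at this
    linarith
  refine ⟨MulAut.conj d (T 1), MulAut.conj d (T (1 / 8)), MulAut.conj d x, MulAut.conj d y,
    n + 1, ?_, ?_, ?_, hmemW y hyd, hmemW _ ?_, hmem' x hxs, hmem' y hys⟩
  · apply ext_ev
    intro w
    have h1 : MulAut.conj d (T 1) = T δ := by
      apply ext_ev
      intro w
      have := hconj (T 1) w
      rw [ev_T] at this
      rw [ev_T]
      linarith
    rw [h1, T_pow]
    congr 2
    rw [hδ]
    push_cast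
    field_simp
  · rw [← map_pow, T_pow]
    norm_num
  · rw [← map_mul, hxy]
  · intro w
    rw [ev_T, abs_le]
    constructor <;> linarith

/-- The negation of the preceding statement: Every topological group G admits a topological ring R and a multiplicative map from G into R that is a topological embedding (injective and a homeomorphism onto its image). -/
theorem result :
    ¬ (∀ (G : Type) [Group G] [TopologicalSpace G] [IsTopologicalGroup G],
      ∃ (R : Type) (_ : Ring R) (_ : TopologicalSpace R),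
        IsTopologicalRing R ∧ ∃ f : G →ₙ* R, Topology.IsEmbedding f) := by
  intro hall
  obtain ⟨R, iR, tR, hR, f, hf⟩ := hall H
  have hcore := core f hf.continuous (T 1) main
  have hU : {g : H | |ev g 0| < 1} ∈ 𝓝 (1 : H) :=
    mem_nhds_iff'.mpr ⟨1, one_pos, fun g hg => by
      have := hg 0
      rw [sub_zero] at this
      exact this⟩
  rw [hf.isInducing.nhds_eq_comap (1 : H)] at hU
  obtain ⟨O, hO, hOU⟩ := Filter.mem_comap.mp hU
  have hV : {r : R | f 1 + r ∈ O} ∈ 𝓝 (0 : R) := by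
    have hc : ContinuousAt (fun r : R => f 1 + r) 0 :=
      (continuous_const.add continuous_id).continuousAt
    apply hc
    change O ∈ 𝓝 (f 1 + 0)
    rw [add_zero]
    exact hO
  have h1 := hcore _ hV
  change f 1 + (f (T 1) - f 1) ∈ O at h1
  rw [add_sub_cancel] at h1
  have h2 : T 1 ∈ {g : H | |ev g 0| < 1} := hOU h1
  change |ev (T 1) 0| < 1 at h2
  rw [ev_T] at h2
  norm_num at h2

end Pool.Agent.S01740
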