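import Pool.Statements.S01748
import Pool.Agent.Helper671.Disc7
import Pool.Agent.Helper671.LCSide

set_option autoImplicit false
open Pool Pool.MP_acac23_al

namespace Pool.Agent.S01748

/-- The negation of the preceding statement: For every finite group A: if A is isomorphic to the group of topological automorphisms of some Hausdorff locally compact group, then A is isomorphic to the automorphism group of some (discrete) group. -/
theorem result :
    ¬ (∀ (A : Type) [Group A] [Finite A],
      (∃ (G : Type) (_ : Group G) (_ : TopologicalSpace G) (_ : IsTopologicalGroup G)
          (_ : LocallyCompactSpace G) (_ : T2Space G)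
          (e : A ≃ ContinuousMulEquiv G G),
          ∀ a b : A, e (a * b) = (e b).trans (e a)) →
      ∃ (H : Type) (_ : Group H), Nonempty (MulAut H ≃* A)) := by
  intro h
  obtain ⟨H, hH, ⟨Ψ⟩⟩ := h Helper671.A7 Helper671.lc_side
  exact Helper671.no_discrete H Ψ

end Pool.Agent.S01748
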