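-- Proof of the frozen statement S01749.
import Pool.Statements.S01749
import Mathlib

set_option autoImplicit false
open Pool Pool.MP_ace734_al

namespace Pool.Agent.S01749



abbrev XX := Fin 16 × ZMod 4

/-- table of the first involution -/
def tab0 : Fin 16 → XX :=
  ![(2, 0), (3, 0), (0, 0), (1, 0), (6, 0), (7, 0), (4, 0), (5, 0),
    (10, 0), (11, 0), (8, 0), (9, 0), (14, 0), (15, 0), (12, 0), (13, 0)]
/-- table of the second involution -/
def tab1 : Fin 16 → XX :=
  ![(3, 1), (2, 1), (1, 3), (0, 3), (8, 0), (9, 0), (14, 1), (15, 3),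
    (4, 0), (5, 0), (13, 1), (12, 1), (11, 3), (10, 3), (6, 3), (7, 1)]
/-- table of the third involution -/
def tab2 : Fin 16 → XX :=
  ![(4, 0), (5, 0), (6, 0), (7, 0), (0, 0), (1, 0), (2, 0), (3, 0),
    (12, 0), (13, 0), (14, 0), (15, 0), (8, 0), (9, 0), (10, 0), (11, 0)]

def act (t : Fin 16 → XX) (s : XX) : XX := ((t s.1).1, (t s.1).2 + s.2)

def rot (s : XX) : XX := (s.1, s.2 + 1)

/-- the antilinear structure map on labelled basis vectors -/
def jsw : Fin 16 → Fin 16 := ![1, 0, 3, 2, 5, 4, 7, 6, 9, 8, 11, 10, 13, 12, 15, 14]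
def jsg : Fin 16 → ZMod 4 := ![2, 0, 2, 0, 2, 0, 2, 0, 2, 0, 2, 0, 2, 0, 2, 0]
def JJ (s : XX) : XX := (jsw s.1, jsg s.1 - s.2)

theorem act0_inv : Function.Involutive (act tab0) := by unfold Function.Involutive; decide +kernel
theorem act1_inv : Function.Involutive (act tab1) := by unfold Function.Involutive; decide +kernel
theorem act2_inv : Function.Involutive (act tab2) := by unfold Function.Involutive; decide +kernel

/-- Permutations commuting with the rotation and the structure map. -/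
def CC : Subgroup (Equiv.Perm XX) where
  carrier := {g | (∀ s, g (rot s) = rot (g s)) ∧ (∀ s, g (JJ s) = JJ (g s))}
  one_mem' := ⟨fun _ => rfl, fun _ => rfl⟩
  mul_mem' := by
    rintro g h ⟨g1, g2⟩ ⟨h1, h2⟩
    refine ⟨fun s => ?_, fun s => ?_⟩
    · simp only [Equiv.Perm.mul_apply]; rw [h1, g1]
    · simp only [Equiv.Perm.mul_apply]; rw [h2, g2]
  inv_mem' := by
    rintro g ⟨g1, g2⟩
    refine ⟨fun s => ?_, fun s => ?_⟩
    · rw [Equiv.Perm.inv_eq_iff_eq, g1, show g (g⁻¹ s) = s from g.apply_symm_apply s]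
    · rw [Equiv.Perm.inv_eq_iff_eq, g2, show g (g⁻¹ s) = s from g.apply_symm_apply s]

def R0 : CC := ⟨act0_inv.toPerm, by decide +kernel, by decide +kernel⟩
def R1 : CC := ⟨act1_inv.toPerm, by decide +kernel, by decide +kernel⟩
def R2 : CC := ⟨act2_inv.toPerm, by decide +kernel, by decide +kernel⟩

theorem rot_mem (g : CC) (x : Fin 16) (k : ZMod 4) :
    g.1 (x, k) = ((g.1 (x, 0)).1, (g.1 (x, 0)).2 + k) := by
  have h : ∀ n : ℕ, g.1 (x, (n : ZMod 4)) = ((g.1 (x, 0)).1, (g.1 (x, 0)).2 + n) := by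
    intro n
    induction n with
    | zero => simp
    | succ n ih =>
      have h1 := g.2.1 (x, (n : ZMod 4))
      rw [ih] at h1
      have h2 : rot (x, (n : ZMod 4)) = (x, ((n + 1 : ℕ) : ZMod 4)) := by simp [rot]
      rw [h2] at h1
      rw [h1]
      simp [rot, add_assoc]
  have := h k.val
  rwa [ZMod.natCast_zmod_val] at this

/-- Powers of the imaginary unit. -/
noncomputable def e4 (k : ZMod 4) : ℂ := Complex.I ^ k.val

theorem e4_add (k l : ZMod 4) : e4 (k + l) = e4 k * e4 l := by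
  unfold e4
  rw [← pow_add, ZMod.val_add]
  have := Complex.I_pow_eq_pow_mod (k.val + l.val)
  exact this.symm

theorem e4_zero : e4 0 = 1 := by simp [e4]

theorem e4_neg (k : ZMod 4) : e4 (-k) = (starRingEnd ℂ) (e4 k) := by
  have h1 : e4 (-k) * e4 k = 1 := by rw [← e4_add, neg_add_cancel, e4_zero]
  have h2 : (starRingEnd ℂ) (e4 k) * e4 k = 1 := by
    unfold e4
    rw [map_pow, Complex.conj_I, ← mul_pow]
    simp
  have h3 : e4 k ≠ 0 := by
    intro h
    rw [h, mul_zero] at h1
    exact zero_ne_one h1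
  exact mul_right_cancel₀ h3 (h1.trans h2.symm)

theorem e4_ne_zero (k : ZMod 4) : e4 k ≠ 0 := by
  unfold e4
  exact pow_ne_zero _ Complex.I_ne_zero

/-- Labelled basis vectors. -/
noncomputable def vec (s : XX) : Fin 16 → ℂ := Pi.single s.1 (e4 s.2)

noncomputable def MM (g : CC) : Matrix (Fin 16) (Fin 16) ℂ := Matrix.of fun y x => vec (g.1 (x, 0)) y

theorem MM_vec (g : CC) (s : XX) : (MM g).mulVec (vec s) = vec (g.1 s) := by
  obtain ⟨x, k⟩ := s
  ext y
  rw [rot_mem g x k]
  simp only [vec, Matrix.mulVec_single, MM, Matrix.of_apply, Pi.smul_apply, Matrix.col_apply,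
    MulOpposite.smul_eq_mul_unop, MulOpposite.unop_op]
  rw [e4_add]
  by_cases h : y = (g.1 (x, 0)).1
  · rw [h]; simp
  · rw [Pi.single_eq_of_ne h, Pi.single_eq_of_ne h, zero_mul]

theorem MM_col (g : CC) (x : Fin 16) : (MM g).col x = vec (g.1 (x, 0)) := by
  ext y
  simp [MM, Matrix.col_apply]

/-- The monomial representation. -/
noncomputable def MMhom : CC →* Matrix (Fin 16) (Fin 16) ℂ where
  toFun := MM
  map_one' := by
    ext y x
    simp [MM, vec, e4_zero, Matrix.one_apply, Pi.single_apply]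
  map_mul' g h := by
    ext y x
    have h1 : (MM g * MM h) y x = (MM g).mulVec (vec (h.1 (x, 0))) y := by
      rw [← MM_col h x]
      rfl
    rw [h1, MM_vec]
    rfl

noncomputable def TT : CC →* GL (Fin 16) ℂ := MMhom.toHomUnits

theorem TT_coe (g : CC) : ((TT g : GL (Fin 16) ℂ) : Matrix (Fin 16) (Fin 16) ℂ) = MM g := rfl


/-- The intersection property from two projections and a sign. -/
theorem IP {Γ C : Type} [Group Γ] [Group C] (ρ : Fin 3 → Γ) (hinv : ∀ i, ρ i * ρ i = 1)
    (hc : ρ 0 * ρ 2 = ρ 2 * ρ 0) (p1 p2 : Γ →* C) (th : Γ →* ℤˣ)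
    (hsep : ∀ g, p1 g = 1 → p2 g = 1 → th g = 1 → g = 1)
    (h0 : p1 (ρ 0) = p2 (ρ 0)) (h1 : p1 (ρ 1) = p2 (ρ 1)) (h2 : p2 (ρ 2) = 1)
    (t0 : th (ρ 0) = 1) (t1 : th (ρ 1) = 1)
    (n0 : p2 (ρ 0) ≠ 1) (n1 : p2 (ρ 1) ≠ 1) (n01 : p2 (ρ 0) ≠ p2 (ρ 1)) (I J : Set (Fin 3)) :
    Subgroup.closure (ρ '' I) ⊓ Subgroup.closure (ρ '' J) = Subgroup.closure (ρ '' (I ∩ J)) := by
  have F2 : ∀ I : Set (Fin 3), (2 : Fin 3) ∉ I → ∀ g ∈ Subgroup.closure (ρ '' I),
      p1 g = p2 g ∧ th g = 1 := by
    intro I hI g hg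
    induction hg using Subgroup.closure_induction with
    | mem x hx =>
      obtain ⟨i, hi, rfl⟩ := hx
      fin_cases i
      · exact ⟨h0, t0⟩
      · exact ⟨h1, t1⟩
      · exact absurd hi hI
    | one => simp
    | mul x y _ _ hx hy => rw [map_mul, map_mul, map_mul, hx.1, hx.2, hy.1, hy.2]; simp
    | inv x _ hx => rw [map_inv, map_inv, map_inv, hx.1, hx.2]; simp
  have Fi : ∀ (a : Fin 3) (x : C), x * x = 1 → ∀ I : Set (Fin 3),
      (∀ i ∈ I, p2 (ρ i) = 1 ∨ p2 (ρ i) = x) → ∀ g ∈ Subgroup.closure (ρ '' I), p2 g = 1 ∨ p2 g = x := by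
    intro a x hx I hI g hg
    induction hg using Subgroup.closure_induction with
    | mem y hy =>
      obtain ⟨i, hi, rfl⟩ := hy
      exact hI i hi
    | one => simp
    | mul y z _ _ hy hz =>
      rw [map_mul]
      rcases hy with hy | hy <;> rcases hz with hz | hz <;> rw [hy, hz] <;> simp [hx]
    | inv y _ hy =>
      rw [map_inv]
      rcases hy with hy | hy <;> rw [hy]
      · simp
      · right; exact inv_eq_of_mul_eq_one_left hx
  have q0 : p2 (ρ 0) * p2 (ρ 0) = 1 := by rw [← map_mul, hinv, map_one]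
  have q1 : p2 (ρ 1) * p2 (ρ 1) = 1 := by rw [← map_mul, hinv, map_one]
  have F0 : ∀ I : Set (Fin 3), (0 : Fin 3) ∉ I → ∀ g ∈ Subgroup.closure (ρ '' I),
      p2 g = 1 ∨ p2 g = p2 (ρ 1) := by
    intro I hI
    apply Fi 1 _ q1
    intro i hi
    fin_cases i
    · exact absurd hi hI
    · exact Or.inr rfl
    · exact Or.inl h2
  have F1 : ∀ I : Set (Fin 3), (1 : Fin 3) ∉ I → ∀ g ∈ Subgroup.closure (ρ '' I),
      p2 g = 1 ∨ p2 g = p2 (ρ 0) := by
    intro I hI
    apply Fi 0 _ q0
    intro i hi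
    fin_cases i
    · exact Or.inr rfl
    · exact absurd hi hI
    · exact Or.inl h2
  -- elements of the subgroup generated by `ρ 0` and `ρ 2`
  have F3 : ∀ I : Set (Fin 3), (1 : Fin 3) ∉ I → ∀ g ∈ Subgroup.closure (ρ '' I),
      g ∈ Subgroup.closure (ρ '' {2}) ∨ g * ρ 0 ∈ Subgroup.closure (ρ '' {2}) := by
    intro I hI g hg
    have hZ : ∀ z ∈ Subgroup.closure (ρ '' {2}), z * ρ 0 = ρ 0 * z := by
      intro z hz
      induction hz using Subgroup.closure_induction with
      | mem x hx =>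
        obtain ⟨i, hi, rfl⟩ := hx
        rw [Set.mem_singleton_iff] at hi
        rw [hi, hc]
      | one => simp
      | mul x y _ _ hx hy => rw [mul_assoc, hy, ← mul_assoc, hx, mul_assoc]
      | inv x _ hx =>
        calc x⁻¹ * ρ 0 = x⁻¹ * (ρ 0 * x) * x⁻¹ := by group
          _ = x⁻¹ * (x * ρ 0) * x⁻¹ := by rw [hx]
          _ = ρ 0 * x⁻¹ := by group
    have hinv0 : (ρ 0)⁻¹ = ρ 0 := inv_eq_of_mul_eq_one_left (hinv 0)
    induction hg using Subgroup.closure_induction with
    | mem x hx =>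
      obtain ⟨i, hi, rfl⟩ := hx
      fin_cases i
      · right
        show ρ 0 * ρ 0 ∈ _
        rw [hinv 0]
        exact one_mem _
      · exact absurd hi hI
      · left
        exact Subgroup.subset_closure ⟨2, rfl, rfl⟩
    | one => left; exact one_mem _
    | mul x y _ _ hx hy =>
      rcases hx with hx | hx <;> rcases hy with hy | hy
      · left; exact mul_mem hx hy
      · right; rw [mul_assoc]; exact mul_mem hx hy
      · right
        rw [mul_assoc, hZ y hy, ← mul_assoc]
        exact mul_mem hx hy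
      · left
        have e1 : x * y = (x * ρ 0) * (y * ρ 0) := by
          have := hZ _ hy
          rw [mul_assoc, hinv 0, mul_one] at this
          calc x * y = x * (ρ 0 * (y * ρ 0)) := by rw [← this]
            _ = (x * ρ 0) * (y * ρ 0) := by rw [mul_assoc]
        rw [e1]
        exact mul_mem hx hy
    | inv x _ hx =>
      rcases hx with hx | hx
      · left; exact inv_mem hx
      · right
        have h3 := inv_mem hx
        rw [mul_inv_rev, hinv0] at h3
        have h4 := hZ _ h3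
        have e1 : x⁻¹ * ρ 0 = ρ 0 * x⁻¹ := by
          have h5 : ρ 0 * x⁻¹ * ρ 0 = ρ 0 * (ρ 0 * x⁻¹) := h4
          have h6 : ρ 0 * (ρ 0 * x⁻¹) = x⁻¹ := by rw [← mul_assoc, hinv 0, one_mul]
          rw [h6] at h5
          calc x⁻¹ * ρ 0 = (ρ 0 * ρ 0) * (x⁻¹ * ρ 0) := by rw [hinv 0, one_mul]
            _ = ρ 0 * (ρ 0 * x⁻¹ * ρ 0) := by simp only [mul_assoc]
            _ = ρ 0 * x⁻¹ := by rw [h5]
        rw [e1]
        exact h3
  have mono : ∀ {A B : Set (Fin 3)}, A ⊆ B → Subgroup.closure (ρ '' A) ≤ Subgroup.closure (ρ '' B) :=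
    fun h => Subgroup.closure_mono (Set.image_mono h)
  -- main asymmetric statement
  have key : ∀ I J : Set (Fin 3), ((2 : Fin 3) ∉ I ∨ (1 : Fin 3) ∉ I) → ∀ g,
      g ∈ Subgroup.closure (ρ '' I) → g ∈ Subgroup.closure (ρ '' J) →
      g ∈ Subgroup.closure (ρ '' (I ∩ J)) := by
    intro I J hIJ g hgI hgJ
    by_cases c2 : (2 : Fin 3) ∈ I
    · have c1 : (1 : Fin 3) ∉ I := by tauto
      by_cases d2 : (2 : Fin 3) ∈ J
      · by_cases c0 : (0 : Fin 3) ∈ I ∧ (0 : Fin 3) ∉ J
        · -- the essential case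
          have hm : g ∈ Subgroup.closure (ρ '' {2}) := by
            rcases F3 I c1 g hgI with h | h
            · exact h
            · exfalso
              have h3 : p2 (g * ρ 0) = 1 := by
                have : ∀ z ∈ Subgroup.closure (ρ '' {2}), p2 z = 1 := by
                  intro z hz
                  induction hz using Subgroup.closure_induction with
                  | mem x hx =>
                    obtain ⟨i, hi, rfl⟩ := hx
                    rw [Set.mem_singleton_iff] at hi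
                    rw [hi, h2]
                  | one => simp
                  | mul x y _ _ hx hy => rw [map_mul, hx, hy, one_mul]
                  | inv x _ hx => rw [map_inv, hx, inv_one]
                exact this _ h
              rw [map_mul] at h3
              rcases F0 J c0.2 g hgJ with h4 | h4
              · rw [h4, one_mul] at h3; exact n0 h3
              · rw [h4] at h3
                apply n01
                calc p2 (ρ 0) = (p2 (ρ 1) * p2 (ρ 1)) * p2 (ρ 0) := by rw [q1, one_mul]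
                  _ = p2 (ρ 1) * (p2 (ρ 1) * p2 (ρ 0)) := by rw [mul_assoc]
                  _ = p2 (ρ 1) := by rw [h3, mul_one]
          refine mono ?_ hm
          intro i hi
          rw [Set.mem_singleton_iff] at hi
          rw [hi]
          exact ⟨c2, d2⟩
        · refine mono ?_ hgI
          intro i hi
          refine ⟨hi, ?_⟩
          fin_cases i
          · by_contra h; exact c0 ⟨hi, h⟩
          · exact absurd hi c1
          · exact d2
      · -- `2 ∉ J`
        obtain ⟨e1, e2⟩ := F2 J d2 g hgJ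
        rcases F1 I c1 g hgI with h | h
        · have : g = 1 := hsep g (e1.trans h) h e2
          rw [this]; exact one_mem _
        · have hg : g = ρ 0 := by
            have : g * ρ 0 = 1 := by
              apply hsep
              · rw [map_mul, e1, h, h0, q0]
              · rw [map_mul, h, q0]
              · rw [map_mul, e2, t0, one_mul]
            calc g = g * ρ 0 * ρ 0 := by rw [mul_assoc, hinv, mul_one]
              _ = ρ 0 := by rw [this, one_mul]
          by_cases c0 : (0 : Fin 3) ∈ I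
          · by_cases d0 : (0 : Fin 3) ∈ J
            · rw [hg]; exact Subgroup.subset_closure ⟨0, ⟨c0, d0⟩, rfl⟩
            · exfalso
              rcases F0 J d0 g hgJ with h4 | h4
              · exact n0 (h.symm.trans h4)
              · exact n01 (h.symm.trans h4)
          · exfalso
            rcases F0 I c0 g hgI with h4 | h4
            · exact n0 (h.symm.trans h4)
            · exact n01 (h.symm.trans h4)
    · -- `2 ∉ I`
      obtain ⟨e1, e2⟩ := F2 I c2 g hgI
      by_cases hb : ((0 : Fin 3) ∈ I → (0 : Fin 3) ∈ J) ∧ ((1 : Fin 3) ∈ I → (1 : Fin 3) ∈ J)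
      · refine mono ?_ hgI
        intro i hi
        refine ⟨hi, ?_⟩
        fin_cases i
        · exact hb.1 hi
        · exact hb.2 hi
        · exact absurd hi c2
      · -- `p2 g` is `1`, or one of the two involutions
        have hgen : ∀ i : Fin 3, p1 (ρ i) = p2 (ρ i) → th (ρ i) = 1 → p2 g = p2 (ρ i) → g = ρ i := by
          intro i a1 a2 a3
          have : g * ρ i = 1 := by
            apply hsep
            · rw [map_mul, e1, a3, a1, ← map_mul, hinv, map_one]
            · rw [map_mul, a3, ← map_mul, hinv, map_one]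
            · rw [map_mul, e2, a2, one_mul]
          calc g = g * ρ i * ρ i := by rw [mul_assoc, hinv, mul_one]
            _ = ρ i := by rw [this, one_mul]
        have h1g : p2 g = 1 → g ∈ Subgroup.closure (ρ '' (I ∩ J)) := by
          intro h
          have : g = 1 := hsep g (e1.trans h) h e2
          rw [this]; exact one_mem _
        by_cases c0 : (0 : Fin 3) ∈ I ∩ J
        · -- then `1 ∉ I ∩ J`
          have c1 : (1 : Fin 3) ∉ I ∨ (1 : Fin 3) ∉ J := by
            by_contra hcon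
            push Not at hcon
            apply hb
            exact ⟨fun _ => c0.2, fun _ => hcon.2⟩
          have h5 : p2 g = 1 ∨ p2 g = p2 (ρ 0) := by
            rcases c1 with c1 | c1
            · exact F1 I c1 g hgI
            · exact F1 J c1 g hgJ
          rcases h5 with h5 | h5
          · exact h1g h5
          · rw [hgen 0 h0 t0 h5]
            exact Subgroup.subset_closure ⟨0, c0, rfl⟩
        · have c0' : (0 : Fin 3) ∉ I ∨ (0 : Fin 3) ∉ J := by
            by_contra hcon
            push Not at hcon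
            exact c0 hcon
          have h5 : p2 g = 1 ∨ p2 g = p2 (ρ 1) := by
            rcases c0' with c1 | c1
            · exact F0 I c1 g hgI
            · exact F0 J c1 g hgJ
          rcases h5 with h5 | h5
          · exact h1g h5
          · by_cases c1 : (1 : Fin 3) ∈ I ∩ J
            · rw [hgen 1 h1 t1 h5]
              exact Subgroup.subset_closure ⟨1, c1, rfl⟩
            · exfalso
              have c1' : (1 : Fin 3) ∉ I ∨ (1 : Fin 3) ∉ J := by
                by_contra hcon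
                push Not at hcon
                exact c1 hcon
              have h6 : p2 g = 1 ∨ p2 g = p2 (ρ 0) := by
                rcases c1' with c1 | c1
                · exact F1 I c1 g hgI
                · exact F1 J c1 g hgJ
              rcases h6 with h6 | h6
              · exact n1 (h5.symm.trans h6)
              · exact n01 (h6.symm.trans h5)
  apply le_antisymm
  · rintro g ⟨hgI, hgJ⟩
    by_cases hI : (2 : Fin 3) ∉ I ∨ (1 : Fin 3) ∉ I
    · exact key I J hI g hgI hgJ
    · by_cases hJ : (2 : Fin 3) ∉ J ∨ (1 : Fin 3) ∉ J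
      · rw [Set.inter_comm]
        exact key J I hJ g hgJ hgI
      · push Not at hI hJ
        by_cases c0 : (0 : Fin 3) ∈ I
        · refine mono ?_ hgJ
          intro i hi
          refine ⟨?_, hi⟩
          fin_cases i
          · exact c0
          · exact hI.2
          · exact hI.1
        · refine mono ?_ hgI
          intro i hi
          refine ⟨hi, ?_⟩
          fin_cases i
          · exact absurd hi c0
          · exact hJ.2
          · exact hJ.1
  · exact le_inf (mono Set.inter_subset_left) (mono Set.inter_subset_right)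



/-- generators in the ambient group -/
def rhoA : Fin 3 → CC × CC × ℤˣ := ![(R0, R0, 1), (R1, R1, 1), (R2, 1, -1)]

/-- The group. -/
abbrev GG := ↥(Subgroup.closure (Set.range rhoA))

def rho (i : Fin 3) : GG := ⟨rhoA i, Subgroup.subset_closure ⟨i, rfl⟩⟩

theorem R0_sq : R0 * R0 = 1 := by
  apply Subtype.ext; apply Equiv.ext; intro x; exact act0_inv x
theorem R1_sq : R1 * R1 = 1 := by
  apply Subtype.ext; apply Equiv.ext; intro x; exact act1_inv x
theorem R2_sq : R2 * R2 = 1 := by
  apply Subtype.ext; apply Equiv.ext; intro x; exact act2_inv x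

theorem comm02 : ∀ s : XX, act tab0 (act tab2 s) = act tab2 (act tab0 s) := by decide +kernel

theorem R02 : R0 * R2 = R2 * R0 := by
  apply Subtype.ext; apply Equiv.ext; intro x; exact comm02 x

theorem R0_apply : R0.1 (0, 0) = (2, 0) := rfl
theorem R1_apply : R1.1 (0, 0) = (3, 1) := rfl
theorem R2_apply : R2.1 (0, 0) = (4, 0) := rfl

theorem R0_ne : R0 ≠ 1 := by
  intro h
  have : R0.1 (0, 0) = (1 : CC).1 (0, 0) := by rw [h]
  rw [R0_apply] at this
  exact absurd this (by decide)
theorem R1_ne : R1 ≠ 1 := by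
  intro h
  have : R1.1 (0, 0) = (1 : CC).1 (0, 0) := by rw [h]
  rw [R1_apply] at this
  exact absurd this (by decide)
theorem R01_ne : R0 ≠ R1 := by
  intro h
  have : R0.1 (0, 0) = R1.1 (0, 0) := by rw [h]
  rw [R0_apply, R1_apply] at this
  exact absurd this (by decide)

theorem rhoA_sq (i : Fin 3) : rhoA i * rhoA i = 1 := by
  fin_cases i
  · show ((R0 * R0, R0 * R0, 1 * 1) : CC × CC × ℤˣ) = 1
    rw [R0_sq]; rfl
  · show ((R1 * R1, R1 * R1, 1 * 1) : CC × CC × ℤˣ) = 1
    rw [R1_sq]; rfl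
  · show ((R2 * R2, 1 * 1, (-1) * (-1)) : CC × CC × ℤˣ) = 1
    rw [R2_sq]; simp

theorem rho_sq (i : Fin 3) : rho i * rho i = 1 := Subtype.ext (rhoA_sq i)

theorem rho_ne (i : Fin 3) : rho i ≠ 1 := by
  intro h
  have h1 : rhoA i = 1 := congrArg Subtype.val h
  fin_cases i
  · exact R0_ne (congrArg Prod.fst h1)
  · exact R1_ne (congrArg Prod.fst h1)
  · have : (-1 : ℤˣ) = 1 := congrArg (fun z : CC × CC × ℤˣ => z.2.2) h1
    exact absurd this (by decide)

theorem rho_comm : rho 0 * rho 2 = rho 2 * rho 0 := by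
  apply Subtype.ext
  show ((R0 * R2, R0 * 1, 1 * (-1)) : CC × CC × ℤˣ) = (R2 * R0, 1 * R0, (-1) * 1)
  rw [R02]; simp

theorem rho_gen : Subgroup.closure (Set.range rho) = ⊤ := by
  have h : Set.range rho = ((↑) : GG → CC × CC × ℤˣ) ⁻¹' (Set.range rhoA) := by
    ext g
    constructor
    · rintro ⟨i, rfl⟩; exact ⟨i, rfl⟩
    · rintro ⟨i, hi⟩; exact ⟨i, Subtype.ext hi⟩
  rw [h]
  exact Subgroup.closure_closure_coe_preimage

def p1 : GG →* CC := (MonoidHom.fst CC (CC × ℤˣ)).comp (Subgroup.subtype _)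
def p2 : GG →* CC := ((MonoidHom.fst CC ℤˣ).comp (MonoidHom.snd CC (CC × ℤˣ))).comp (Subgroup.subtype _)
def th : GG →* ℤˣ := ((MonoidHom.snd CC ℤˣ).comp (MonoidHom.snd CC (CC × ℤˣ))).comp (Subgroup.subtype _)

theorem inter (I J : Set (Fin 3)) :
    Subgroup.closure (rho '' I) ⊓ Subgroup.closure (rho '' J) = Subgroup.closure (rho '' (I ∩ J)) := by
  apply IP rho rho_sq rho_comm p1 p2 th
  · intro g h1 h2 h3
    exact Subtype.ext (Prod.ext h1 (Prod.ext h2 h3))
  · rfl
  · rfl
  · rfl
  · rfl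
  · rfl
  · exact R0_ne
  · exact R1_ne
  · exact R01_ne

/-- The representation. -/
noncomputable def rep : GG →* GL (Fin 16) ℂ := TT.comp p1

theorem rep_coe (g : GG) : ((rep g : GL (Fin 16) ℂ) : Matrix (Fin 16) (Fin 16) ℂ) = MM (p1 g) := rfl

/-- words in the generators -/
def wd (w : List (Fin 3)) : GG := (w.map rho).prod

def tabs : Fin 3 → Fin 16 → XX := ![tab0, tab1, tab2]

def actw (w : List (Fin 3)) (s : XX) : XX := w.foldr (fun i s => act (tabs i) s) s

theorem p1_rho (i : Fin 3) (s : XX) : (p1 (rho i)).1 s = act (tabs i) s := by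
  fin_cases i <;> rfl

theorem p1_wd (w : List (Fin 3)) (s : XX) : (p1 (wd w)).1 s = actw w s := by
  induction w generalizing s with
  | nil => rfl
  | cons i w ih =>
    have : wd (i :: w) = rho i * wd w := by simp [wd]
    rw [this, map_mul]
    show (p1 (rho i)).1 ((p1 (wd w)).1 s) = _
    rw [ih, p1_rho]
    rfl

/-- diagonal words -/
def w1 : List (Fin 3) := [1,2,1,2,1,2,1,2]
def w2 : List (Fin 3) := [0,1,2,1,0,1,2,1,2]
def w3 : List (Fin 3) := [1,0,1,2,1,0,2,1,2]

def k1 : Fin 16 → ZMod 4 := ![3,1,3,1,1,3,1,3,3,1,1,3,1,3,3,1]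
def k2 : Fin 16 → ZMod 4 := ![0,0,2,2,2,2,0,0,3,1,1,3,3,1,1,3]
def k3 : Fin 16 → ZMod 4 := ![1,3,3,1,0,0,2,2,1,3,2,2,0,0,3,1]

theorem w1_diag : ∀ x : Fin 16, actw w1 (x, 0) = (x, k1 x) := by decide +kernel
theorem w2_diag : ∀ x : Fin 16, actw w2 (x, 0) = (x, k2 x) := by decide +kernel
theorem w3_diag : ∀ x : Fin 16, actw w3 (x, 0) = (x, k3 x) := by decide +kernel
theorem separate : ∀ x y : Fin 16, k1 x = k1 y → k2 x = k2 y → k3 x = k3 y → x = y := by
  decide +kernel

theorem MM_diag (g : CC) (k : Fin 16 → ZMod 4) (h : ∀ x, g.1 (x, 0) = (x, k x)) (v : Fin 16 → ℂ) (y : Fin 16) :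
    (MM g).mulVec v y = e4 (k y) * v y := by
  have : MM g = Matrix.diagonal (fun x => e4 (k x)) := by
    ext a b
    simp only [MM, Matrix.of_apply, h, vec]
    by_cases hab : a = b
    · rw [hab]; simp
    · rw [Pi.single_eq_of_ne hab, Matrix.diagonal_apply_ne _ hab]
  rw [this, Matrix.mulVec_diagonal]

theorem e4_sum (m : ZMod 4) : 1 + e4 m + e4 m * e4 m + e4 m * e4 m * e4 m = if m = 0 then 4 else 0 := by
  have h : ∀ m : ZMod 4, m = 0 ∨ m = 1 ∨ m = 2 ∨ m = 3 := by decide
  have v1 : (1 : ZMod 4).val = 1 := rfl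
  have v2 : (2 : ZMod 4).val = 2 := rfl
  have v3 : (3 : ZMod 4).val = 3 := rfl
  have I3 : Complex.I ^ 3 = -Complex.I := by rw [pow_succ, Complex.I_sq]; ring
  rcases h m with rfl | rfl | rfl | rfl
  · rw [if_pos rfl, e4_zero]; norm_num
  · rw [if_neg (by decide)]
    unfold e4
    rw [v1, pow_one, Complex.I_mul_I]; ring
  · rw [if_neg (by decide)]
    unfold e4
    rw [v2, Complex.I_sq]; ring
  · rw [if_neg (by decide)]
    unfold e4
    rw [v3, I3, neg_mul_neg, Complex.I_mul_I]; ring

/-- Projection of an invariant subspace with a diagonal element. -/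
theorem proj (W : Submodule ℂ (Fin 16 → ℂ)) (g : CC) (k : Fin 16 → ZMod 4)
    (h : ∀ x, g.1 (x, 0) = (x, k x)) (hW : ∀ v ∈ W, (MM g).mulVec v ∈ W) (m : ZMod 4)
    (v : Fin 16 → ℂ) (hv : v ∈ W) : (fun y => if k y = m then 4 * v y else 0) ∈ W := by
  set c := e4 (-m) with hc
  have h1 := hW v hv
  have h2 := hW _ h1
  have h3 := hW _ h2
  have h4 : v + c • (MM g).mulVec v + (c * c) • (MM g).mulVec ((MM g).mulVec v) +
      (c * c * c) • (MM g).mulVec ((MM g).mulVec ((MM g).mulVec v)) ∈ W :=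
    W.add_mem (W.add_mem (W.add_mem hv (W.smul_mem _ h1)) (W.smul_mem _ h2)) (W.smul_mem _ h3)
  convert h4 using 1
  ext y
  simp only [Pi.add_apply, Pi.smul_apply, smul_eq_mul, MM_diag g k h]
  have h5 := e4_sum (-m + k y)
  rw [e4_add, ← hc] at h5
  have h6 : (-m + k y = 0) ↔ (k y = m) := by
    constructor
    · intro h; exact (neg_add_eq_zero.mp h).symm
    · intro h; rw [h]; simp
  have h7 : (if k y = m then 4 * v y else 0) = (if -m + k y = 0 then (4 : ℂ) else 0) * v y := by
    by_cases hk : k y = m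
    · rw [if_pos hk, if_pos (h6.mpr hk)]
    · rw [if_neg hk, if_neg (fun h => hk (h6.mp h)), zero_mul]
  rw [h7, ← h5]
  ring

def paths : Fin 16 → List (Fin 3) :=
  ![[], [1,0], [0], [1], [2], [2,1,0], [2,0], [2,1], [1,2], [1,2,1,0], [0,1,2], [2,1,2,1], [2,1,2], [0,1,2,1], [1,2,0], [1,2,1]]

theorem paths_spec : ∀ x : Fin 16, (actw (paths x) (0, 0)).1 = x ∧ (actw (paths x).reverse (x, 0)).1 = 0 := by
  decide +kernel

theorem irred (W : Submodule ℂ (Fin 16 → ℂ))
    (hW : ∀ g : GG, ∀ v ∈ W, Matrix.mulVec ((rep g : GL (Fin 16) ℂ) : Matrix (Fin 16) (Fin 16) ℂ) v ∈ W) :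
    W = ⊥ ∨ W = ⊤ := by
  by_cases hbot : W = ⊥
  · exact Or.inl hbot
  right
  obtain ⟨v, hv, hne⟩ := (Submodule.ne_bot_iff W).mp hbot
  obtain ⟨x, hx⟩ := Function.ne_iff.mp hne
  have hx' : v x ≠ 0 := hx
  have hW' : ∀ g : GG, ∀ v ∈ W, (MM (p1 g)).mulVec v ∈ W := hW
  have s1 := proj W (p1 (wd w1)) k1 (fun x => by rw [p1_wd, w1_diag]) (hW' _) (k1 x) v hv
  have s2 := proj W (p1 (wd w2)) k2 (fun x => by rw [p1_wd, w2_diag]) (hW' _) (k2 x) _ s1
  have s3 := proj W (p1 (wd w3)) k3 (fun x => by rw [p1_wd, w3_diag]) (hW' _) (k3 x) _ s2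
  have hsx : (Pi.single x 1 : Fin 16 → ℂ) ∈ W := by
    have h1 := W.smul_mem ((64 * v x)⁻¹) s3
    convert h1 using 1
    ext y
    by_cases hy : y = x
    · subst hy
      simp only [Pi.single_eq_same, Pi.smul_apply, smul_eq_mul, if_true]
      field_simp
      norm_num
    · rw [Pi.single_eq_of_ne hy]
      simp only [Pi.smul_apply, smul_eq_mul]
      by_cases a3 : k3 y = k3 x
      · by_cases a2 : k2 y = k2 x
        · by_cases a1 : k1 y = k1 x
          · exact absurd (separate y x a1 a2 a3) hy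
          · rw [if_pos a3, if_pos a2, if_neg a1]; simp
        · rw [if_pos a3, if_neg a2]; simp
      · rw [if_neg a3]; simp
  have hmove : ∀ (g : GG) (a b : Fin 16), ((p1 g).1 (a, 0)).1 = b → (Pi.single a 1 : Fin 16 → ℂ) ∈ W →
      (Pi.single b 1 : Fin 16 → ℂ) ∈ W := by
    intro g a b hab ha
    have h1 := hW' g _ ha
    have h2 : (Pi.single a 1 : Fin 16 → ℂ) = vec (a, 0) := by simp [vec, e4_zero]
    rw [h2, MM_vec] at h1
    have h3 : vec ((p1 g).1 (a, 0)) = e4 ((p1 g).1 (a, 0)).2 • (Pi.single b 1 : Fin 16 → ℂ) := by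
      unfold vec
      rw [hab, ← Pi.single_smul]
      simp
    rw [h3] at h1
    have h4 := W.smul_mem (e4 ((p1 g).1 (a, 0)).2)⁻¹ h1
    rwa [inv_smul_smul₀ (e4_ne_zero _)] at h4
  have h0 : (Pi.single 0 1 : Fin 16 → ℂ) ∈ W := by
    apply hmove (wd (paths x).reverse) x 0 _ hsx
    rw [p1_wd]
    exact (paths_spec x).2
  have hall : ∀ y : Fin 16, (Pi.single y 1 : Fin 16 → ℂ) ∈ W := by
    intro y
    apply hmove (wd (paths y)) 0 y _ h0
    rw [p1_wd]
    exact (paths_spec y).1
  rw [eq_top_iff]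
  intro u _
  have : u = ∑ y, u y • (Pi.single y 1 : Fin 16 → ℂ) := by
    ext z
    simp [Finset.sum_apply, Pi.single_apply]
  rw [this]
  exact W.sum_mem (fun y _ => W.smul_mem _ (hall y))



abbrev Mat := Matrix (Fin 16) (Fin 16) ℂ

/-- Entrywise conjugation. -/
noncomputable def bar : Mat →+* Mat := (starRingEnd ℂ).mapMatrix

theorem bar_apply (M : Mat) (i j : Fin 16) : bar M i j = (starRingEnd ℂ) (M i j) := rfl

noncomputable def Om : Mat := Matrix.of fun y x => vec (JJ (x, 0)) y

theorem Om_col (x : Fin 16) : Om.col x = vec (JJ (x, 0)) := by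
  ext y; simp [Om, Matrix.col_apply]

theorem Om_vec (y : Fin 16) (k : ZMod 4) : Om.mulVec (vec (y, -k)) = vec (JJ (y, k)) := by
  ext z
  simp only [vec, Matrix.mulVec_single, Om, Matrix.of_apply, Pi.smul_apply, Matrix.col_apply,
    MulOpposite.smul_eq_mul_unop, MulOpposite.unop_op, JJ]
  by_cases h : z = jsw y
  · rw [h, Pi.single_eq_same, Pi.single_eq_same, ← e4_add, sub_zero, sub_eq_add_neg]
  · rw [Pi.single_eq_of_ne h, Pi.single_eq_of_ne h, zero_mul]

theorem ext_col {A B : Mat} (h : ∀ x, A.col x = B.col x) : A = B := by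
  ext i j
  exact congrFun (h j) i

theorem mul_col (A B : Mat) (x : Fin 16) : (A * B).col x = A.mulVec (B.col x) := rfl

theorem bar_col (g : CC) (x : Fin 16) :
    (bar (MM g)).col x = vec ((g.1 (x, 0)).1, -(g.1 (x, 0)).2) := by
  ext y
  show (starRingEnd ℂ) (vec (g.1 (x, 0)) y) = _
  unfold vec
  by_cases h : y = (g.1 (x, 0)).1
  · rw [h, Pi.single_eq_same, Pi.single_eq_same, e4_neg]
  · rw [Pi.single_eq_of_ne h, Pi.single_eq_of_ne h, map_zero]

theorem MM_Om (g : CC) : MM g * Om = Om * bar (MM g) := by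
  apply ext_col
  intro x
  rw [mul_col, mul_col, Om_col, MM_vec, bar_col, Om_vec, g.2.2]

theorem js_spec : ∀ x : Fin 16, jsw (jsw x) = x ∧ jsg (jsw x) - (-(jsg x)) = 2 := by decide +kernel

theorem Om_sq : Om * Om = -1 := by
  apply ext_col
  intro x
  rw [mul_col, Om_col]
  have h1 : JJ (x, 0) = (jsw x, -(-(jsg x))) := by simp [JJ]
  rw [h1, Om_vec]
  have h2 : JJ (jsw x, -(jsg x)) = (x, 2) := by
    unfold JJ
    exact Prod.ext (js_spec x).1 (js_spec x).2
  rw [h2]
  ext y
  have h3 : e4 2 = -1 := by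
    unfold e4
    rw [show (2 : ZMod 4).val = 2 from rfl, Complex.I_sq]
  simp only [vec, Matrix.col_apply, Matrix.neg_apply, h3]
  by_cases h : y = x
  · rw [h]; simp
  · rw [Pi.single_eq_of_ne h, Matrix.one_apply_ne h, neg_zero]

theorem Om_bar : bar Om = Om := by
  ext y x
  show (starRingEnd ℂ) (vec (JJ (x, 0)) y) = vec (JJ (x, 0)) y
  have h1 : ∀ x : Fin 16, jsg x = 0 ∨ jsg x = 2 := by decide
  have h3 : e4 2 = -1 := by
    unfold e4
    rw [show (2 : ZMod 4).val = 2 from rfl, Complex.I_sq]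
  simp only [vec, JJ, sub_zero]
  by_cases h : y = jsw x
  · rw [h, Pi.single_eq_same]
    rcases h1 x with h1 | h1 <;> rw [h1]
    · rw [e4_zero, map_one]
    · rw [h3]; simp
  · rw [Pi.single_eq_of_ne h, map_zero]

theorem trace_real (g : CC) : (Matrix.trace (MM g)).im = 0 := by
  have h1 : MM g = -(Om * bar (MM g) * Om) := by
    rw [← MM_Om, mul_assoc, Om_sq]; simp
  have h2 : Matrix.trace (MM g) = (starRingEnd ℂ) (Matrix.trace (MM g)) := by
    calc Matrix.trace (MM g) = -Matrix.trace (Om * bar (MM g) * Om) := by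
          conv_lhs => rw [h1]
          rw [Matrix.trace_neg]
      _ = -Matrix.trace (Om * Om * bar (MM g)) := by
          rw [Matrix.trace_mul_comm, ← mul_assoc]
      _ = Matrix.trace (bar (MM g)) := by rw [Om_sq]; simp
      _ = (starRingEnd ℂ) (Matrix.trace (MM g)) := by
          simp [Matrix.trace, bar_apply]
  have h3 := congrArg Complex.im h2
  rw [Complex.conj_im] at h3
  linarith

/-- Schur's lemma. -/
theorem schur (K : Mat) (hK : ∀ g : GG, MM (p1 g) * K = K * MM (p1 g)) : ∃ c : ℂ, K = c • 1 := by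
  obtain ⟨c, hc⟩ := Module.End.exists_eigenvalue (Matrix.mulVecLin K)
  obtain ⟨v, hv⟩ := hc.exists_hasEigenvector
  have hv1 : K.mulVec v = c • v := hv.apply_eq_smul
  have hv2 : v ≠ 0 := hv.2
  set W : Submodule ℂ (Fin 16 → ℂ) := LinearMap.ker (Matrix.mulVecLin (K - c • 1)) with hW
  have hmem : ∀ u, u ∈ W ↔ K.mulVec u = c • u := by
    intro u
    rw [hW, LinearMap.mem_ker, Matrix.mulVecLin_apply, Matrix.sub_mulVec, sub_eq_zero,
      Matrix.smul_mulVec, Matrix.one_mulVec]
  have hinv : W = ⊥ ∨ W = ⊤ := by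
    apply irred
    intro g u hu
    rw [hmem] at hu ⊢
    rw [rep_coe, Matrix.mulVec_mulVec, ← hK g, ← Matrix.mulVec_mulVec, hu, Matrix.mulVec_smul]
  rcases hinv with h | h
  · exfalso
    apply hv2
    have : v ∈ W := (hmem v).mpr hv1
    rw [h] at this
    exact (Submodule.mem_bot ℂ).mp this
  · refine ⟨c, ?_⟩
    apply ext_col
    intro x
    have h1 : (Pi.single x 1 : Fin 16 → ℂ) ∈ W := by rw [h]; trivial
    rw [hmem, Matrix.mulVec_single_one] at h1
    rw [h1]
    ext y
    simp [Matrix.col_apply, Pi.single_apply, Matrix.one_apply]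

theorem not_real : ¬ ∃ P : GL (Fin 16) ℂ, ∀ g : GG, ∀ i j : Fin 16,
    (((P * rep g * P⁻¹ : GL (Fin 16) ℂ) : Matrix (Fin 16) (Fin 16) ℂ) i j).im = 0 := by
  rintro ⟨P, hP⟩
  set A : Mat := (P : Mat) with hA
  set B : Mat := ((P⁻¹ : GL (Fin 16) ℂ) : Mat) with hB
  have hAB : A * B = 1 := by rw [hA, hB, ← Units.val_mul, mul_inv_cancel, Units.val_one]
  have hBA : B * A = 1 := by rw [hA, hB, ← Units.val_mul, inv_mul_cancel, Units.val_one]
  have hreal : ∀ g : GG, bar A * bar (MM (p1 g)) * bar B = A * MM (p1 g) * B := by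
    intro g
    rw [← map_mul, ← map_mul]
    ext i j
    rw [bar_apply]
    have h1 := hP g i j
    have h2 : ((P * rep g * P⁻¹ : GL (Fin 16) ℂ) : Mat) = A * MM (p1 g) * B := rfl
    rw [h2] at h1
    exact Complex.conj_eq_iff_im.mpr h1
  have hbAB : bar A * bar B = 1 := by rw [← map_mul, hAB, map_one]
  have hbBA : bar B * bar A = 1 := by rw [← map_mul, hBA, map_one]
  set N : Mat := B * bar A with hN
  have hcomm : ∀ g : GG, MM (p1 g) * N = N * bar (MM (p1 g)) := by
    intro g
    calc MM (p1 g) * N = (B * A) * MM (p1 g) * (B * bar A) := by rw [hBA, one_mul]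
      _ = B * (A * MM (p1 g) * B) * bar A := by simp only [mul_assoc]
      _ = B * (bar A * bar (MM (p1 g)) * bar B) * bar A := by rw [hreal]
      _ = B * bar A * bar (MM (p1 g)) * (bar B * bar A) := by simp only [mul_assoc]
      _ = N * bar (MM (p1 g)) := by rw [hbBA, mul_one]
  clear_value N
  obtain ⟨c, hc⟩ := schur (N * Om) (by
    intro g
    have h1 : bar (MM (p1 g)) * Om = Om * MM (p1 g) := by
      have h2 := congrArg bar (MM_Om (p1 g))
      rw [map_mul, map_mul, Om_bar] at h2
      rw [h2]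
      congr 1
      ext i j
      simp [bar_apply]
    rw [← mul_assoc, hcomm, mul_assoc N, h1, ← mul_assoc])
  have hN2 : N = -(c • Om) := by
    have h1 : N * Om * Om = c • Om := by rw [hc, smul_mul_assoc, one_mul]
    rw [mul_assoc, Om_sq] at h1
    rw [← h1]; simp
  have hNN : N * bar N = 1 := by
    rw [hN, map_mul]
    have : bar (bar A) = A := by ext i j; simp [bar_apply]
    rw [this]
    calc B * bar A * (bar B * A) = B * (bar A * bar B) * A := by simp only [mul_assoc]
      _ = 1 := by rw [hbAB, mul_one, hBA]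
  have hbN : bar N = -((starRingEnd ℂ) c • Om) := by
    rw [hN2, map_neg]
    congr 1
    ext i j
    rw [bar_apply, Matrix.smul_apply, smul_eq_mul, map_mul, ← bar_apply, Om_bar]
    rfl
  rw [hbN, hN2, neg_mul_neg, smul_mul_smul_comm, Om_sq] at hNN
  have h5 := congrFun (congrFun hNN 0) 0
  simp only [Matrix.smul_apply, Matrix.neg_apply, Matrix.one_apply_eq, smul_eq_mul, mul_neg,
    mul_one] at h5
  rw [Complex.mul_conj] at h5
  have h6 := congrArg Complex.re h5
  simp at h6
  have h7 := Complex.normSq_nonneg c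
  linarith


/-- Some finite group generated by involutions with non-adjacent ones commuting and the intersection property has an irreducible complex matrix representation with real character that is not conjugate to a real representation. -/
theorem result :
    ∃ (Γ : Type) (_ : Group Γ), Finite Γ ∧
      ∃ (r : ℕ) (ρ : Fin r → Γ),
        (∀ i, ρ i ≠ 1 ∧ ρ i * ρ i = 1) ∧
        Subgroup.closure (Set.range ρ) = ⊤ ∧
        (∀ i j : Fin r, (i : ℕ) + 2 ≤ (j : ℕ) → (ρ i * ρ j) ^ 2 = 1) ∧
        (∀ I J : Set (Fin r),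
          Subgroup.closure (ρ '' I) ⊓ Subgroup.closure (ρ '' J) =
            Subgroup.closure (ρ '' (I ∩ J))) ∧
        ∃ (n : ℕ) (T : Γ →* GL (Fin n) ℂ),
          0 < n ∧
          (∀ W : Submodule ℂ (Fin n → ℂ),
            (∀ g : Γ, ∀ v ∈ W,
              Matrix.mulVec ((T g : GL (Fin n) ℂ) : Matrix (Fin n) (Fin n) ℂ) v ∈ W) →
            W = ⊥ ∨ W = ⊤) ∧
          (∀ g : Γ,
            (Matrix.trace ((T g : GL (Fin n) ℂ) : Matrix (Fin n) (Fin n) ℂ)).im = 0) ∧
          ¬ ∃ P : GL (Fin n) ℂ, ∀ g : Γ, ∀ i j : Fin n,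
            (((P * T g * P⁻¹ : GL (Fin n) ℂ) : Matrix (Fin n) (Fin n) ℂ) i j).im = 0 := by
  refine ⟨GG, inferInstance, inferInstance, 3, rho, fun i => ⟨rho_ne i, rho_sq i⟩, rho_gen, ?_, inter,
    16, rep, by norm_num, irred, ?_, not_real⟩
  · intro i j hij
    have h : i = 0 ∧ j = 2 := by
      constructor
      · apply Fin.ext; have := j.2; have := i.2; simp only [Fin.val_zero]; omega
      · apply Fin.ext; have := j.2; have := i.2; simp only [Fin.val_two]; omega
    rw [h.1, h.2, pow_two]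
    calc rho 0 * rho 2 * (rho 0 * rho 2) = rho 0 * rho 2 * (rho 2 * rho 0) := by rw [rho_comm]
      _ = rho 0 * (rho 2 * rho 2) * rho 0 := by simp only [mul_assoc]
      _ = 1 := by rw [rho_sq, mul_one, rho_sq]
  · intro g
    exact trace_real _

end Pool.Agent.S01749
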