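import Pool.Statements.S01751
import Pool.Agent.Helper931.Final

set_option autoImplicit false
open Pool Pool.MP_ad980a_al

namespace Pool.Agent.S01751

/-- For every two-sided subshift over a finite alphabet, every finitely generated group of bijections locally equal to shift powers is elementary amenable, or every finitely presented group surjecting onto it contains a nonabelian free subgroup. -/
theorem result :
  ∀ (n : ℕ) (Ω : Set (ℤ → Fin n)),
    (∀ x : ℤ → Fin n, x ∈ Ω ↔ (fun i => x (i + 1)) ∈ Ω) →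
    (∀ x : ℤ → Fin n,
      (∀ N : ℕ, ∃ y ∈ Ω, ∀ i : ℤ, |i| ≤ (N : ℤ) → y i = x i) → x ∈ Ω) →
    ∀ H : Subgroup (Equiv.Perm ↥Ω), H.FG →
      (∀ g ∈ H, ∀ x : ↥Ω, ∃ N : ℕ, ∃ m : ℤ, ∀ y : ↥Ω,
        (∀ i : ℤ, |i| ≤ (N : ℤ) → (y : ℤ → Fin n) i = (x : ℤ → Fin n) i) →
          ((g y : ↥Ω) : ℤ → Fin n) = fun i => (y : ℤ → Fin n) (i + m)) →
      (∀ P : ∀ (G : Type) [Group G], Prop,
          (∀ (G : Type) [Group G] [Finite G], P G) →
          (∀ (G : Type) [Group G], (∀ a b : G, a * b = b * a) → P G) →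
          (∀ (G G' : Type) [Group G] [Group G'], (G ≃* G') → P G → P G') →
          (∀ (G : Type) [Group G] (S : Subgroup G), P G → P ↥S) →
          (∀ (G : Type) [Group G] (N : Subgroup G) [N.Normal], P G → P (G ⧸ N)) →
          (∀ (G : Type) [Group G] (N : Subgroup G) [N.Normal],
            P ↥N → P (G ⧸ N) → P G) →
          (∀ (G : Type) [Group G], (∀ S : Subgroup G, S.FG → P ↥S) → P G) →
          P ↥H) ∨
      (∀ (m : ℕ) (rels : Set (FreeGroup (Fin m))), rels.Finite →
        ∀ φ : PresentedGroup rels →* ↥H, Function.Surjective φ →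
          ∃ f : FreeGroup (Fin 2) →* PresentedGroup rels, Function.Injective f) := by
  intro n Ω hshift hclosed H _ hloc
  by_cases hsec : ∀ (m : ℕ) (rels : Set (FreeGroup (Fin m))), rels.Finite →
        ∀ φ : PresentedGroup rels →* ↥H, Function.Surjective φ →
          ∃ f : FreeGroup (Fin 2) →* PresentedGroup rels, Function.Injective f
  · exact Or.inr hsec
  · left
    intro P h1 h2 h3 h4 h5 h6 h7
    push Not at hsec
    obtain ⟨m, rels, hrels, φ, hφ, hno⟩ := hsec
    refine Pool.Agent.H931.main_proof P ⟨h1, h2, h3, h4, h5, h6, h7⟩ n Ω hshift hclosed H hloc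
      m rels hrels φ hφ ?_
    rintro ⟨f, hf⟩
    exact hno f hf

end Pool.Agent.S01751
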