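import Pool.Statements.S01776

set_option autoImplicit false
open Pool Pool.MP_afddf0_al

namespace Pool.Agent.S01776

open Matrix

/-! ### Right transductions on a free algebra -/

section Transduction

variable {k : Type} [Field k] {Y : Type}

/-- The augmentation. -/
noncomputable def eps : FreeAlgebra k Y →ₐ[k] k := FreeAlgebra.lift k (fun _ => (0 : k))

open Classical in
/-- The triangular representation carrying a right transduction. -/
noncomputable def tri (i : Y) :
    FreeAlgebra k Y →ₐ[k] Matrix (Fin 2) (Fin 2) (FreeAlgebra k Y) :=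
  FreeAlgebra.lift k (fun j => !![FreeAlgebra.ι k j, if i = j then 1 else 0; 0, 0])

/-- The right transduction: `T i f` is the coefficient of `x_i` in
`f = eps f + ∑ i, (T i f) * x_i`. -/
noncomputable def T (i : Y) (f : FreeAlgebra k Y) : FreeAlgebra k Y := tri i f 0 1

lemma tri_eq (i : Y) (f : FreeAlgebra k Y) :
    tri i f = !![f, T i f; 0, algebraMap k _ (eps f)] := by
  have key : tri i f 0 0 = f ∧ tri i f 1 0 = 0 ∧ tri i f 1 1 = algebraMap k _ (eps f) := by
    induction f using FreeAlgebra.induction with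
    | grade0 r =>
      rw [AlgHom.commutes, AlgHom.commutes]
      simp [Matrix.algebraMap_matrix_apply]
    | grade1 j => simp [tri, eps]
    | mul a b ha hb =>
      obtain ⟨h1, h2, h3⟩ := ha
      obtain ⟨g1, g2, g3⟩ := hb
      simp [Matrix.mul_apply, Fin.sum_univ_two, h1, h2, h3, g1, g2, g3]
    | add a b ha hb =>
      obtain ⟨h1, h2, h3⟩ := ha
      obtain ⟨g1, g2, g3⟩ := hb
      simp [h1, h2, h3, g1, g2, g3]
  obtain ⟨h1, h2, h3⟩ := key
  ext a b
  fin_cases a <;> fin_cases b
  · exact h1
  · rfl
  · exact h2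
  · exact h3

lemma T_mul (i : Y) (f g : FreeAlgebra k Y) :
    T i (f * g) = f * T i g + T i f * algebraMap k _ (eps g) := by
  have h : T i (f * g) = (tri i f * tri i g) 0 1 := by rw [T, map_mul]
  rw [h, tri_eq i f, tri_eq i g]
  simp [Matrix.mul_apply, Fin.sum_univ_two]

lemma T_add (i : Y) (f g : FreeAlgebra k Y) : T i (f + g) = T i f + T i g := by
  simp [T]

lemma T_sub (i : Y) (f g : FreeAlgebra k Y) : T i (f - g) = T i f - T i g := by
  simp [T]

lemma T_algebraMap (i : Y) (r : k) : T i (algebraMap k (FreeAlgebra k Y) r) = 0 := by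
  rw [T, AlgHom.commutes]
  simp [Matrix.algebraMap_matrix_apply]

lemma T_zero (i : Y) : T i (0 : FreeAlgebra k Y) = 0 := by
  simp [T]

lemma T_mul_algebraMap (i : Y) (f : FreeAlgebra k Y) (r : k) :
    T i (f * algebraMap k _ r) = T i f * algebraMap k _ r := by
  rw [T_mul, T_algebraMap]
  simp

open Classical in
lemma T_ι (i j : Y) : T i (FreeAlgebra.ι k j) = if i = j then 1 else 0 := by
  simp [T, tri]

/-- The expansion `f = eps f + ∑ (T i f) x_i`. -/
lemma expand (f : FreeAlgebra k Y) : ∃ s : Finset Y, ∀ t : Finset Y, s ⊆ t →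
    f = algebraMap k _ (eps f) + ∑ i ∈ t, T i f * FreeAlgebra.ι k i := by
  classical
  induction f using FreeAlgebra.induction with
  | grade0 r =>
    refine ⟨∅, fun t _ => ?_⟩
    rw [AlgHom.commutes]
    simp [T_algebraMap]
  | grade1 j =>
    refine ⟨{j}, fun t ht => ?_⟩
    have hj : j ∈ t := ht (Finset.mem_singleton_self j)
    simp only [T_ι]
    simp [eps, hj]
  | mul a b ha hb =>
    obtain ⟨s, hs⟩ := ha
    obtain ⟨s', hs'⟩ := hb
    refine ⟨s ∪ s', fun t ht => ?_⟩
    have h1 := hs t (Finset.union_subset_left ht)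
    have h2 := hs' t (Finset.union_subset_right ht)
    have h3 : ∑ i ∈ t, T i (a * b) * FreeAlgebra.ι k i =
        a * ∑ i ∈ t, T i b * FreeAlgebra.ι k i +
        (∑ i ∈ t, T i a * FreeAlgebra.ι k i) * algebraMap k _ (eps b) := by
      rw [Finset.mul_sum, Finset.sum_mul, ← Finset.sum_add_distrib]
      refine Finset.sum_congr rfl fun i _ => ?_
      rw [T_mul, add_mul, mul_assoc, mul_assoc, mul_assoc, (Algebra.commutes (eps b) _)]
    rw [h3]
    have e1 : ∑ i ∈ t, T i b * FreeAlgebra.ι k i = b - algebraMap k _ (eps b) :=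
      eq_sub_of_add_eq' h2.symm
    have e2 : ∑ i ∈ t, T i a * FreeAlgebra.ι k i = a - algebraMap k _ (eps a) :=
      eq_sub_of_add_eq' h1.symm
    rw [e1, e2, map_mul, map_mul]
    noncomm_ring
  | add a b ha hb =>
    obtain ⟨s, hs⟩ := ha
    obtain ⟨s', hs'⟩ := hb
    refine ⟨s ∪ s', fun t ht => ?_⟩
    have h1 := hs t (Finset.union_subset_left ht)
    have h2 := hs' t (Finset.union_subset_right ht)
    have h3 : ∑ i ∈ t, T i (a + b) * FreeAlgebra.ι k i =
        ∑ i ∈ t, T i a * FreeAlgebra.ι k i + ∑ i ∈ t, T i b * FreeAlgebra.ι k i := by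
      rw [← Finset.sum_add_distrib]
      refine Finset.sum_congr rfl fun i _ => ?_
      rw [T_add, add_mul]
    rw [h3]
    have e1 : ∑ i ∈ t, T i b * FreeAlgebra.ι k i = b - algebraMap k _ (eps b) :=
      eq_sub_of_add_eq' h2.symm
    have e2 : ∑ i ∈ t, T i a * FreeAlgebra.ι k i = a - algebraMap k _ (eps a) :=
      eq_sub_of_add_eq' h1.symm
    rw [e1, e2, map_add, map_add]
    abel

lemma eq_of_T_eq_zero (f : FreeAlgebra k Y) (h : ∀ i, T i f = 0) :
    f = algebraMap k _ (eps f) := by
  obtain ⟨s, hs⟩ := expand f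
  have := hs s (Finset.Subset.refl s)
  simpa [h] using this

/-- `Bd n f` says that all monomials of `f` have length less than `n`. -/
def Bd : ℕ → FreeAlgebra k Y → Prop
  | 0, f => f = 0
  | n + 1, f => ∀ i, Bd n (T i f)

lemma Bd_zero (n : ℕ) : Bd n (0 : FreeAlgebra k Y) := by
  induction n with
  | zero => rfl
  | succ n ih => intro i; rw [T_zero]; exact ih

lemma Bd_succ (n : ℕ) : ∀ f : FreeAlgebra k Y, Bd n f → Bd (n + 1) f := by
  induction n with
  | zero => intro f hf i; rw [show f = 0 from hf, T_zero]; rfl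
  | succ n ih => intro f hf i; exact ih _ (hf i)

lemma Bd_mono {n m : ℕ} (h : n ≤ m) (f : FreeAlgebra k Y) (hf : Bd n f) : Bd m f := by
  induction m, h using Nat.le_induction with
  | base => exact hf
  | succ m _ ih => exact Bd_succ m f ih

lemma Bd_add (n : ℕ) : ∀ f g : FreeAlgebra k Y, Bd n f → Bd n g → Bd n (f + g) := by
  induction n with
  | zero => intro f g hf hg; rw [show f = 0 from hf, show g = 0 from hg, add_zero]; rfl
  | succ n ih => intro f g hf hg i; rw [T_add]; exact ih _ _ (hf i) (hg i)

lemma Bd_mul_algebraMap (n : ℕ) (r : k) :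
    ∀ f : FreeAlgebra k Y, Bd n f → Bd n (f * algebraMap k _ r) := by
  induction n with
  | zero => intro f hf; rw [show f = 0 from hf, zero_mul]; rfl
  | succ n ih => intro f hf i; rw [T_mul_algebraMap]; exact ih _ (hf i)

lemma Bd_neg (n : ℕ) (f : FreeAlgebra k Y) (hf : Bd n f) : Bd n (-f) := by
  have := Bd_mul_algebraMap n (-1) f hf
  simpa using this

lemma Bd_sub (n : ℕ) (f g : FreeAlgebra k Y) (hf : Bd n f) (hg : Bd n g) : Bd n (f - g) := by
  rw [sub_eq_add_neg]
  exact Bd_add n _ _ hf (Bd_neg n g hg)

lemma Bd_one_algebraMap (r : k) : Bd 1 (algebraMap k (FreeAlgebra k Y) r) := by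
  intro i
  rw [T_algebraMap]
  rfl

lemma Bd_mul (n m : ℕ) : ∀ f g : FreeAlgebra k Y, Bd n f → Bd m g → Bd (n + m) (f * g) := by
  intro f
  induction m with
  | zero => intro g _ hg; rw [show g = 0 from hg, mul_zero]; exact Bd_zero _
  | succ m ih =>
    intro g hf hg i
    rw [T_mul]
    apply Bd_add
    · exact ih _ hf (hg i)
    · apply Bd_mul_algebraMap
      have : Bd (n + m + 1) f := Bd_mono (by omega) f hf
      exact this i

lemma exists_Bd (f : FreeAlgebra k Y) : ∃ n, Bd n f := by
  classical
  induction f using FreeAlgebra.induction with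
  | grade0 r => exact ⟨1, Bd_one_algebraMap r⟩
  | grade1 j =>
    refine ⟨2, fun i => ?_⟩
    rw [T_ι]
    split_ifs
    · rw [← map_one (algebraMap k (FreeAlgebra k Y))]
      exact Bd_one_algebraMap 1
    · exact Bd_zero _
  | mul a b ha hb =>
    obtain ⟨n, hn⟩ := ha
    obtain ⟨m, hm⟩ := hb
    exact ⟨n + m, Bd_mul n m a b hn hm⟩
  | add a b ha hb =>
    obtain ⟨n, hn⟩ := ha
    obtain ⟨m, hm⟩ := hb
    exact ⟨max n m, Bd_add _ _ _ (Bd_mono (le_max_left _ _) _ hn)
      (Bd_mono (le_max_right _ _) _ hm)⟩

/-- Iterated transduction along a word. -/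
noncomputable def Tw : List Y → FreeAlgebra k Y → FreeAlgebra k Y
  | [], f => f
  | i :: w, f => Tw w (T i f)

lemma Tw_add (w : List Y) : ∀ f g : FreeAlgebra k Y, Tw w (f + g) = Tw w f + Tw w g := by
  induction w with
  | nil => intro f g; rfl
  | cons i w ih => intro f g; simp only [Tw]; rw [T_add, ih]

lemma Tw_mul_algebraMap (w : List Y) (r : k) :
    ∀ f : FreeAlgebra k Y, Tw w (f * algebraMap k _ r) = Tw w f * algebraMap k _ r := by
  induction w with
  | nil => intro f; rfl
  | cons i w ih => intro f; simp only [Tw]; rw [T_mul_algebraMap, ih]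

lemma Bd_Tw (w : List Y) (n : ℕ) : ∀ f : FreeAlgebra k Y, Bd n f → Bd n (Tw w f) := by
  induction w with
  | nil => intro f hf; exact hf
  | cons i w ih => intro f hf; exact ih _ (Bd_succ n f hf i)

/-- The transduction of a product. -/
lemma Tw_mul (w : List Y) (n : ℕ) (f : FreeAlgebra k Y) (hf : Bd (n + 1) f) :
    ∀ g : FreeAlgebra k Y, ∃ r, Bd n r ∧ Tw w (f * g) = f * Tw w g + r := by
  induction w with
  | nil => intro g; exact ⟨0, Bd_zero n, (add_zero _).symm⟩
  | cons i w ih =>
    intro g
    obtain ⟨r, hr, h⟩ := ih (T i g)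
    refine ⟨r + Tw w (T i f) * algebraMap k _ (eps g), ?_, ?_⟩
    · exact Bd_add n _ _ hr (Bd_mul_algebraMap n _ _ (Bd_Tw w n _ (hf i)))
    · simp only [Tw]
      rw [T_mul, Tw_add, h, Tw_mul_algebraMap, add_assoc]

/-- Every nonzero element has a monomial of maximal length. -/
lemma exists_leading (n : ℕ) : ∀ f : FreeAlgebra k Y, Bd n f → f ≠ 0 →
    ∃ (w : List Y) (c : k), c ≠ 0 ∧ Tw w f = algebraMap k _ c := by
  induction n with
  | zero => intro f hf h; exact absurd hf h
  | succ n ih =>
    intro f hf h
    by_cases h0 : ∀ i, T i f = 0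
    · have h1 := eq_of_T_eq_zero f h0
      refine ⟨[], eps f, ?_, h1⟩
      intro h2
      rw [h2, map_zero] at h1
      exact h h1
    · push Not at h0
      obtain ⟨i, hi⟩ := h0
      obtain ⟨w, c, hc, hw⟩ := ih (T i f) (hf i) hi
      exact ⟨i :: w, c, hc, hw⟩

/-- Two right dependent elements of a free algebra generate a principal right ideal. -/
lemma bezout (N : ℕ) : ∀ (n m : ℕ) (a b u v : FreeAlgebra k Y), n + m ≤ N → Bd n a → Bd m b →
    a * u = b * v → u ≠ 0 → v ≠ 0 →
    ∃ c α β γ δ : FreeAlgebra k Y, a = c * α ∧ b = c * β ∧ c = a * γ + b * δ := by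
  induction N with
  | zero =>
    intro n m a b u v hN ha _ _ _ _
    have hn : n = 0 := by omega
    subst hn
    refine ⟨b, 0, 1, 0, 1, ?_, ?_, ?_⟩
    · rw [mul_zero]; exact ha
    · rw [mul_one]
    · rw [mul_zero, mul_one, zero_add]
  | succ N ih =>
    -- the reduction step
    have step : ∀ (n m : ℕ) (a b u v : FreeAlgebra k Y), n + m ≤ N + 1 → m ≤ n → Bd n a →
        Bd m b → a * u = b * v → u ≠ 0 → v ≠ 0 →
        ∃ c α β γ δ : FreeAlgebra k Y, a = c * α ∧ b = c * β ∧ c = a * γ + b * δ := by
      intro n m a b u v hN hmn ha hb h hu hv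
      cases n with
      | zero =>
        refine ⟨b, 0, 1, 0, 1, ?_, ?_, ?_⟩
        · rw [mul_zero]; exact ha
        · rw [mul_one]
        · rw [mul_zero, mul_one, zero_add]
      | succ n =>
        cases m with
        | zero =>
          refine ⟨a, 1, 0, 1, 0, ?_, ?_, ?_⟩
          · rw [mul_one]
          · rw [mul_zero]; exact hb
          · rw [mul_zero, mul_one, add_zero]
        | succ m =>
          obtain ⟨l, hl⟩ := exists_Bd u
          obtain ⟨w, c, hc, hw⟩ := exists_leading l u hl hu
          obtain ⟨r, hr, h1⟩ := Tw_mul w n a ha u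
          obtain ⟨s, hs, h2⟩ := Tw_mul w m b hb v
          rw [h, h2, hw] at h1
          set c' := Tw w v * algebraMap k _ c⁻¹ with hc'
          have hcc : algebraMap k (FreeAlgebra k Y) c * algebraMap k _ c⁻¹ = 1 := by
            rw [← map_mul, mul_inv_cancel₀ hc, map_one]
          have ha' : a - b * c' = (s - r) * algebraMap k _ c⁻¹ := by
            have e1 : a * (algebraMap k _ c * algebraMap k _ c⁻¹) - b * c' =
                (s - r) * algebraMap k _ c⁻¹ := by
              rw [hc']
              have e2 : a * algebraMap k _ c = b * Tw w v + s - r := by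
                rw [h1]; abel
              rw [← mul_assoc, e2]
              noncomm_ring
            rw [hcc, mul_one] at e1
            exact e1
          have hbd : Bd n (a - b * c') := by
            rw [ha']
            exact Bd_mul_algebraMap n _ _ (Bd_sub n _ _ (Bd_mono (by omega) _ hs) hr)
          by_cases h0 : a - b * c' = 0
          · refine ⟨b, c', 1, 0, 1, ?_, ?_, ?_⟩
            · exact sub_eq_zero.mp h0
            · rw [mul_one]
            · rw [mul_zero, mul_one, zero_add]
          · have h3 : (a - b * c') * u = b * (v - c' * u) := by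
              rw [sub_mul, h]; noncomm_ring
            have hv' : v - c' * u ≠ 0 := by
              intro e
              rw [e, mul_zero] at h3
              exact (mul_ne_zero h0 hu) h3
            obtain ⟨d, α, β, γ, δ, g1, g2, g3⟩ := ih n (m + 1) (a - b * c') b u (v - c' * u)
              (by omega) hbd hb h3 hu hv'
            refine ⟨d, α + β * c', β, γ, δ - c' * γ, ?_, g2, ?_⟩
            · have : a = (a - b * c') + b * c' := by abel
              rw [mul_add, ← mul_assoc, ← g1, ← g2]
              exact this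
            · calc d = (a - b * c') * γ + b * δ := g3
                _ = a * γ + b * (δ - c' * γ) := by noncomm_ring
    intro n m a b u v hN ha hb h hu hv
    rcases le_total m n with hmn | hmn
    · exact step n m a b u v hN hmn ha hb h hu hv
    · obtain ⟨c, α, β, γ, δ, h1, h2, h3⟩ :=
        step m n b a v u (by omega) hmn hb ha h.symm hv hu
      exact ⟨c, β, α, δ, γ, h2, h1, by rw [add_comm]; exact h3⟩

lemma Tw_one (w : List Y) (hw : w ≠ []) : Tw w (1 : FreeAlgebra k Y) = 0 := by
  cases w with
  | nil => exact absurd rfl hw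
  | cons i w =>
    have h0 : T i (1 : FreeAlgebra k Y) = 0 := by
      rw [← map_one (algebraMap k (FreeAlgebra k Y)), T_algebraMap]
    have h1 : Tw w (0 : FreeAlgebra k Y) = 0 := Bd_Tw w 0 0 rfl
    simp only [Tw, h0, h1]

/-- Right invertible elements are scalars. -/
lemma scalar_of_mul_eq_one (e h : FreeAlgebra k Y) (he : e * h = 1) :
    ∃ c : k, c ≠ 0 ∧ e = algebraMap k _ c := by
  have hh : h ≠ 0 := by
    rintro rfl
    rw [mul_zero] at he
    exact zero_ne_one he
  obtain ⟨l, hl⟩ := exists_Bd h
  obtain ⟨w, c, hc, hw⟩ := exists_leading l h hl hh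
  have hcc : algebraMap k (FreeAlgebra k Y) c * algebraMap k _ c⁻¹ = 1 := by
    rw [← map_mul, mul_inv_cancel₀ hc, map_one]
  by_cases hw0 : w = []
  · subst hw0
    refine ⟨c⁻¹, inv_ne_zero hc, ?_⟩
    have h1 : h = algebraMap k _ c := hw
    calc e = e * (algebraMap k _ c * algebraMap k _ c⁻¹) := by rw [hcc, mul_one]
      _ = algebraMap k _ c⁻¹ := by rw [← mul_assoc, ← h1, he, one_mul]
  · exfalso
    classical
    have hex : ∃ n, Bd n e := exists_Bd e
    have hmin : ∀ {m : ℕ}, m < Nat.find hex → ¬ Bd m e := fun hm => Nat.find_min hex hm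
    have hspec := Nat.find_spec hex
    cases hn : Nat.find hex with
    | zero =>
      rw [hn] at hspec
      rw [show e = 0 from hspec, zero_mul] at he
      exact zero_ne_one he
    | succ n =>
      rw [hn] at hspec hmin
      obtain ⟨r, hr, h1⟩ := Tw_mul w n e hspec h
      rw [he, Tw_one w hw0, hw] at h1
      apply hmin (Nat.lt_succ_self n)
      have h2 : e = (0 - r) * algebraMap k _ c⁻¹ := by
        have e2 : e * algebraMap k _ c = 0 - r := eq_sub_of_add_eq h1.symm
        rw [← e2, mul_assoc, hcc, mul_one]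
      rw [h2]
      exact Bd_mul_algebraMap n _ _ (Bd_sub n _ _ (Bd_zero n) hr)

end Transduction

/-! ### The derivation -/

/-- The free algebra on two generators over the field with two elements. -/
abbrev F : Type := FreeAlgebra (ZMod 2) Bool

/-- The first generator. -/
noncomputable def x : F := FreeAlgebra.ι (ZMod 2) false

/-- The second generator. -/
noncomputable def y : F := FreeAlgebra.ι (ZMod 2) true

/-- The values of the derivation on the generators: `x` goes to `x ^ 2` and `y` to `1`. -/
noncomputable def dgen : Bool → F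
  | false => x * x
  | true => 1

/-- The triangular representation carrying the derivation. -/
noncomputable def rep : F →ₐ[ZMod 2] Matrix (Fin 2) (Fin 2) F :=
  FreeAlgebra.lift (ZMod 2) (fun j => !![FreeAlgebra.ι (ZMod 2) j, dgen j; 0,
    FreeAlgebra.ι (ZMod 2) j])

/-- The derivation with `x ↦ x ^ 2` and `y ↦ 1`. -/
noncomputable def der : Module.End (ZMod 2) F where
  toFun f := rep f 0 1
  map_add' a b := by simp
  map_smul' c a := by simp

lemma rep_eq (f : F) : rep f = !![f, der f; 0, f] := by
  have key : rep f 0 0 = f ∧ rep f 1 0 = 0 ∧ rep f 1 1 = f := by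
    induction f using FreeAlgebra.induction with
    | grade0 r =>
      rw [AlgHom.commutes]
      simp [Matrix.algebraMap_matrix_apply]
    | grade1 j => simp [rep]
    | mul a b ha hb =>
      obtain ⟨h1, h2, h3⟩ := ha
      obtain ⟨g1, g2, g3⟩ := hb
      simp [Matrix.mul_apply, Fin.sum_univ_two, h1, h2, h3, g1, g2, g3]
    | add a b ha hb =>
      obtain ⟨h1, h2, h3⟩ := ha
      obtain ⟨g1, g2, g3⟩ := hb
      simp [h1, h2, h3, g1, g2, g3]
  obtain ⟨h1, h2, h3⟩ := key
  ext a b
  fin_cases a <;> fin_cases b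
  · exact h1
  · rfl
  · exact h2
  · exact h3

lemma der_mul (f g : F) : der (f * g) = der f * g + f * der g := by
  have h : der (f * g) = (rep f * rep g) 0 1 := by rw [← map_mul]; rfl
  rw [h, rep_eq f, rep_eq g]
  simp [Matrix.mul_apply, Fin.sum_univ_two]
  abel

lemma der_x : der x = x * x := by
  simp [der, rep, x, dgen]

lemma der_y : der y = 1 := by
  simp [der, rep, y, dgen]

lemma der_algebraMap (r : ZMod 2) : der (algebraMap (ZMod 2) F r) = 0 := by
  change rep _ 0 1 = 0
  rw [AlgHom.commutes]
  simp [Matrix.algebraMap_matrix_apply]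

lemma two_eq (a : F) : a + a = 0 := CharTwo.add_self_eq_zero a

lemma der_der (f : F) : der (der f) = 0 := by
  induction f using FreeAlgebra.induction with
  | grade0 r => rw [der_algebraMap, map_zero]
  | grade1 j =>
    cases j with
    | false =>
      change der (der x) = 0
      rw [der_x, der_mul, der_x, ← mul_assoc]
      exact two_eq _
    | true =>
      change der (der y) = 0
      rw [der_y, ← map_one (algebraMap (ZMod 2) F), der_algebraMap]
  | mul a b ha hb =>
    rw [der_mul, map_add, der_mul, der_mul, ha, hb, zero_mul, mul_zero, zero_add, add_zero]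
    exact two_eq _
  | add a b ha hb => rw [map_add, map_add, ha, hb, add_zero]

lemma eq_one_of_ne_zero : ∀ r : ZMod 2, r ≠ 0 → r = 1 := by decide

lemma x_ne : x ≠ 0 := FreeAlgebra.ι_ne_zero _

/-- The subalgebra of constants is not free. -/
lemma not_free : ¬ ∃ (Y : Type) (f : FreeAlgebra (ZMod 2) Y →ₐ[ZMod 2] F),
    Function.Injective f ∧ Set.range f = {a | der a = 0} := by
  rintro ⟨Y, f, hinj, hrange⟩
  have hmem : ∀ a : F, der a = 0 → ∃ b, f b = a := by
    intro a ha
    have : a ∈ Set.range f := by rw [hrange]; exact ha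
    exact this
  have d1 : der (x * x) = 0 := by
    rw [der_mul, der_x, ← mul_assoc]
    exact two_eq _
  have d2 : der (x + x * x * y) = 0 := by
    rw [map_add, der_mul, d1, der_x, der_y, zero_mul, zero_add, mul_one]
    exact two_eq _
  have d3 : der (x + y * (x * x)) = 0 := by
    rw [map_add, der_mul, d1, der_x, der_y, mul_zero, add_zero, one_mul]
    exact two_eq _
  obtain ⟨A, hA⟩ := hmem _ d1
  obtain ⟨B, hB⟩ := hmem _ d2
  obtain ⟨C, hC⟩ := hmem _ d3
  have hrel : A * C = B * A := by
    apply hinj
    rw [map_mul, map_mul, hA, hB, hC]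
    noncomm_ring
  have hA0 : A ≠ 0 := by
    rintro rfl
    rw [map_zero] at hA
    exact mul_ne_zero x_ne x_ne hA.symm
  have hC0 : C ≠ 0 := by
    rintro rfl
    rw [map_zero] at hC
    have h1 := congrArg der hC
    have h2 : x = y * (x * x) := by
      have := two_eq (y * (x * x))
      calc x = 0 + x := (zero_add x).symm
        _ = (y * (x * x) + y * (x * x)) + x := by rw [this]
        _ = y * (x * x) + (x + y * (x * x)) := by abel
        _ = y * (x * x) := by rw [← hC, add_zero]
    have h3 : (1 - y * x) * x = 0 := by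
      calc (1 - y * x) * x = x - y * (x * x) := by noncomm_ring
        _ = 0 := by rw [← h2, sub_self]
    rcases mul_eq_zero.mp h3 with h4 | h4
    · have h5 := congrArg (eps (k := ZMod 2) (Y := Bool)) h4
      simp [eps, x, y] at h5
    · exact x_ne h4
  obtain ⟨n, hn⟩ := exists_Bd A
  obtain ⟨m, hm⟩ := exists_Bd B
  obtain ⟨c, α, β, γ, δ, g1, g2, g3⟩ := bezout (n + m) n m A B C A le_rfl hn hm hrel hC0 hA0
  have k1 := congrArg f g1
  have k2 := congrArg f g2
  have k3 := congrArg f g3
  rw [map_mul, hA] at k1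
  rw [map_mul, hB] at k2
  rw [map_add, map_mul, map_mul, hA, hB] at k3
  set e : F := x * f γ + (1 + x * y) * f δ with he
  have hc : f c = x * e := by
    rw [k3, he]
    noncomm_ring
  have e1 : x = e * f α := by
    have : x * x = x * (e * f α) := by
      rw [← mul_assoc, ← hc]
      exact k1
    exact mul_left_cancel₀ x_ne this
  have e2 : 1 + x * y = e * f β := by
    have : x * (1 + x * y) = x * (e * f β) := by
      rw [← mul_assoc, ← hc, ← k2]
      noncomm_ring
    exact mul_left_cancel₀ x_ne this
  have e3 : e * (f β - f α * y) = 1 := by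
    calc e * (f β - f α * y) = e * f β - e * f α * y := by noncomm_ring
      _ = (1 + x * y) - x * y := by rw [← e1, ← e2]
      _ = 1 := by abel
  obtain ⟨r, hr, her⟩ := scalar_of_mul_eq_one _ _ e3
  have hr1 : r = 1 := eq_one_of_ne_zero r hr
  have hcx : f c = x := by
    rw [hc, her, hr1, map_one, mul_one]
  have hd : der (f c) = 0 := by
    have : f c ∈ Set.range f := ⟨c, rfl⟩
    rw [hrange] at this
    exact this
  rw [hcx, der_x] at hd
  exact mul_ne_zero x_ne x_ne hd

/-- The negation of the preceding statement: Over a field of prime characteristic p, for any finite-dimensional space of derivations of a free associative algebra closed under commutators and p-th powers, the common kernel of those derivations is itself a free algebra. -/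
theorem result :
    ¬ (∀ (p : ℕ) (k : Type) [Field k] [CharP k p], p.Prime →
    ∀ (X : Type) (L : Submodule k (Module.End k (FreeAlgebra k X))),
      FiniteDimensional k L →
      (∀ D ∈ L, ∀ a b : FreeAlgebra k X, D (a * b) = D a * b + a * D b) →
      (∀ D₁ ∈ L, ∀ D₂ ∈ L, D₁ * D₂ - D₂ * D₁ ∈ L) →
      (∀ D ∈ L, D ^ p ∈ L) →
      ∃ (Y : Type) (f : FreeAlgebra k Y →ₐ[k] FreeAlgebra k X),
        Function.Injective f ∧ Set.range f = {a | ∀ D ∈ L, D a = 0}) := by
  intro H
  have hp : Nat.Prime 2 := Nat.prime_two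
  have : Fact (Nat.Prime 2) := ⟨hp⟩
  have hpow : der ^ 2 = 0 := by
    ext f
    rw [pow_two]
    exact der_der f
  obtain ⟨Y, f, hinj, hrange⟩ := H 2 (ZMod 2) hp Bool (Submodule.span (ZMod 2) {der})
    inferInstance
    (by
      intro D hD a b
      obtain ⟨c, rfl⟩ := Submodule.mem_span_singleton.mp hD
      simp only [LinearMap.smul_apply]
      rw [der_mul, smul_add, smul_mul_assoc, mul_smul_comm])
    (by
      intro D₁ h₁ D₂ h₂
      obtain ⟨c, rfl⟩ := Submodule.mem_span_singleton.mp h₁
      obtain ⟨d, rfl⟩ := Submodule.mem_span_singleton.mp h₂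
      rw [smul_mul_smul_comm, smul_mul_smul_comm, mul_comm d c, sub_self]
      exact Submodule.zero_mem _)
    (by
      intro D hD
      obtain ⟨c, rfl⟩ := Submodule.mem_span_singleton.mp hD
      rw [smul_pow, hpow, smul_zero]
      exact Submodule.zero_mem _)
  apply not_free
  refine ⟨Y, f, hinj, ?_⟩
  rw [hrange]
  ext a
  constructor
  · intro h
    exact h der (Submodule.mem_span_singleton_self _)
  · intro h D hD
    obtain ⟨c, rfl⟩ := Submodule.mem_span_singleton.mp hD
    rw [LinearMap.smul_apply, show der a = 0 from h, smul_zero]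

end Pool.Agent.S01776
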