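import Pool.Statements.S01782
-- import your own Pool.Agent.* helpers here

set_option autoImplicit false
open Pool Pool.MP_b0cbe6_al

namespace Pool.Agent.S01782

/-! Counterexample of order 1152 = 2^7 * 3^2 for the prime 2. Let V be elementary abelian of order
64, realised as triples (x, y, x + y) over an elementary abelian group W of order 8, permuted by the
symmetric group S3, and let L be the product of S3 with a cyclic group C3. The two groups are the
semidirect products of V by L in which L acts through the projection to C3 (cyclic shifts of the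
triples) and through the projection to S3, respectively. Both have irreducible character degrees
1 (6 times), 2 (3 times), 3 (42 times) and 6 (21 times). The first has abelian Sylow 2-subgroups
and the second does not. -/


abbrev S3 := Equiv.Perm (Fin 3)
abbrev C3 := Multiplicative (ZMod 3)
abbrev L := S3 × C3
abbrev W := ZMod 2 × ZMod 2 × ZMod 2
abbrev V := W × W

def tri (v : V) : Fin 3 → W := ![v.1, v.2, v.1 + v.2]
def act (σ : S3) (v : V) : V := (tri v (σ⁻¹ 0), tri v (σ⁻¹ 1))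

def dot (a b : W) : ZMod 2 := a.1 * b.1 + a.2.1 * b.2.1 + a.2.2 * b.2.2
def bil (x v : V) : ZMod 2 := dot x.1 v.2 + dot x.2 v.1

lemma tri_act : ∀ (σ : S3) (v : V) (i : Fin 3), tri (act σ v) i = tri v (σ⁻¹ i) := by
  decide +kernel

lemma act_one (v : V) : act 1 v = v := by
  simp [act, tri]

lemma act_mul (σ τ : S3) (v : V) : act (σ * τ) v = act σ (act τ v) := by
  have h : ∀ i : Fin 3, tri (act τ v) (σ⁻¹ i) = tri v ((σ * τ)⁻¹ i) := by
    intro i
    rw [tri_act]; simp [mul_inv_rev]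
  show (tri v ((σ * τ)⁻¹ 0), tri v ((σ * τ)⁻¹ 1)) = (tri (act τ v) (σ⁻¹ 0), tri (act τ v) (σ⁻¹ 1))
  rw [h, h]

lemma tri_add (v w : V) (i : Fin 3) : tri (v + w) i = tri v i + tri w i := by
  fin_cases i
  · simp [tri]
  · simp [tri]
  · simp only [tri]
    show v.1 + w.1 + (v.2 + w.2) = (v.1 + v.2) + (w.1 + w.2)
    abel

lemma act_add (σ : S3) (v w : V) : act σ (v + w) = act σ v + act σ w := by
  unfold act
  rw [tri_add, tri_add]; rfl

lemma bil_act : ∀ (σ : S3) (x v : V), bil (act σ x) (act σ v) = bil x v := by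
  decide +kernel

lemma orthZ : ∀ u : V, (∑ x : V, (if bil x u = 0 then (1 : ℤ) else -1)) = if u = 0 then 64 else 0 := by
  decide +kernel

lemma bil_add (x v w : V) : bil x (v + w) = bil x v + bil x w := by
  simp only [bil, dot, Prod.fst_add, Prod.snd_add]; ring

lemma bil_zero_left (v : V) : bil 0 v = 0 := by simp [bil, dot]
lemma bil_zero_right (v : V) : bil v 0 = 0 := by simp [bil, dot]

noncomputable def sg (a : ZMod 2) : ℂ := if a = 0 then 1 else -1

lemma sg_zero : sg 0 = 1 := by simp [sg]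

lemma sg_add (a b : ZMod 2) : sg (a + b) = sg a * sg b := by
  have h11 : (1 : ZMod 2) + 1 = 0 := by decide
  have ha : a = 0 ∨ a = 1 := by revert a; decide
  have hb : b = 0 ∨ b = 1 := by revert b; decide
  rcases ha with rfl | rfl <;> rcases hb with rfl | rfl <;> simp [sg, h11]

lemma orth (u : V) : (∑ x : V, sg (bil x u)) = if u = 0 then 64 else 0 := by
  have h := congrArg (Int.cast : ℤ → ℂ) (orthZ u)
  rw [Int.cast_sum] at h
  rw [show (∑ x : V, sg (bil x u)) = ∑ x : V, ((if bil x u = 0 then (1 : ℤ) else -1 : ℤ) : ℂ) from ?_, h]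
  · split_ifs <;> simp
  · refine Finset.sum_congr rfl fun x _ => ?_
    unfold sg; split_ifs <;> simp

/-- Fourier inversion on `V`. -/
lemma fourier (g : V → ℂ) (h : ∀ x : V, ∑ v : V, g v * sg (bil x v) = 0) : ∀ w, g w = 0 := by
  intro w
  have h1 : ∑ x : V, sg (bil x w) * ∑ v : V, g v * sg (bil x v) = 0 := by
    simp [h]
  have h2 : ∑ x : V, sg (bil x w) * ∑ v : V, g v * sg (bil x v)
      = ∑ v : V, g v * ∑ x : V, sg (bil x (v + w)) := by
    simp_rw [Finset.mul_sum]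
    rw [Finset.sum_comm]
    refine Finset.sum_congr rfl fun v _ => Finset.sum_congr rfl fun x _ => ?_
    rw [bil_add, sg_add]; ring
  rw [h2] at h1
  simp_rw [orth] at h1
  have h3 : ∀ v : V, (v + w = 0 ↔ v = w) := by
    intro v
    have hw : w + w = 0 := by
      have : ∀ w : V, w + w = 0 := by decide +kernel
      exact this w
    constructor
    · intro h; 
      have := congrArg (· + w) h
      simpa [add_assoc, hw] using this
    · rintro rfl; exact hw
  simp_rw [h3] at h1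
  simp at h1
  exact h1

/-- The semidirect product of `V` by `L`, acting through `π`. -/
structure Gp (π : L →* S3) where
  v : V
  l : L
deriving DecidableEq

namespace Gp
variable {π : L →* S3}

@[ext] lemma ext' {a b : Gp π} (h1 : a.v = b.v) (h2 : a.l = b.l) : a = b := by
  cases a; cases b; simp_all

def equiv (π : L →* S3) : Gp π ≃ V × L where
  toFun a := (a.v, a.l)
  invFun a := ⟨a.1, a.2⟩
  left_inv _ := rfl
  right_inv _ := rfl

instance : Fintype (Gp π) := Fintype.ofEquiv _ (equiv π).symm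

instance : Mul (Gp π) := ⟨fun a b => ⟨a.v + act (π a.l) b.v, a.l * b.l⟩⟩
instance : One (Gp π) := ⟨⟨0, 1⟩⟩
instance : Inv (Gp π) := ⟨fun a => ⟨act (π a.l)⁻¹ (-a.v), a.l⁻¹⟩⟩

lemma mul_v (a b : Gp π) : (a * b).v = a.v + act (π a.l) b.v := rfl
lemma mul_l (a b : Gp π) : (a * b).l = a.l * b.l := rfl
lemma one_v : (1 : Gp π).v = 0 := rfl
lemma one_l : (1 : Gp π).l = 1 := rfl
lemma inv_v (a : Gp π) : (a⁻¹).v = act (π a.l)⁻¹ (-a.v) := rfl
lemma inv_l (a : Gp π) : (a⁻¹).l = a.l⁻¹ := rfl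

lemma act_zero (σ : S3) : act σ 0 = 0 := by
  have := act_add σ 0 0
  simpa using this

instance : Group (Gp π) := Group.ofLeftAxioms
  (by
    intro a b c
    apply ext'
    · simp only [mul_v, mul_l, map_mul, act_mul, act_add, add_assoc]
    · simp only [mul_l, mul_assoc])
  (by
    intro a
    apply ext'
    · simp only [mul_v, one_v, one_l, map_one, act_one, zero_add]
    · simp only [mul_l, one_l, one_mul])
  (by
    intro a
    apply ext'
    · simp only [mul_v, inv_v, inv_l, one_v, map_inv]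
      rw [← act_add]; simp [act_zero]
    · simp only [mul_l, inv_l, one_l, inv_mul_cancel])

lemma card : Fintype.card (Gp π) = 1152 := by
  rw [Fintype.card_congr (equiv π)]
  simp [Fintype.card_perm, Nat.factorial]

end Gp


section rep
variable {π : L →* S3} {O T : Type} [Fintype O] [DecidableEq O] [Group T] [DecidableEq T]
  (α : L →* Equiv.Perm O) (x : O → V) (t : L →* T)

open MonoidAlgebra in
/-- The monomial representation attached to an orbit. -/
noncomputable def repFun (g : Gp π) : Matrix O O (MonoidAlgebra ℂ T) :=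
  Matrix.of fun a b => if a = α g.l b then single (t g.l) (sg (bil (x a) g.v)) else 0

open MonoidAlgebra in
noncomputable def repMon (hx : ∀ l a, x (α l a) = act (π l) (x a)) :
    Gp π →* Matrix O O (MonoidAlgebra ℂ T) where
  toFun := repFun α x t
  map_one' := by
    ext a b : 2
    simp only [repFun, Matrix.of_apply, Gp.one_l, Gp.one_v, map_one, Equiv.Perm.one_apply,
      bil_zero_right, sg_zero, Matrix.one_apply]
    rfl
  map_mul' := by
    intro g h
    ext a b : 2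
    simp only [repFun, Matrix.of_apply, Matrix.mul_apply, Gp.mul_l, Gp.mul_v, map_mul,
      Equiv.Perm.mul_apply]
    rw [Finset.sum_eq_single (α h.l b)]
    · by_cases hab : a = α g.l (α h.l b)
      · simp only [hab, if_true, single_mul_single]
        congr 1
        rw [hx, bil_add, sg_add, bil_act, hx, ← hx]
      · simp [hab]
    · intro c _ hc
      simp [hc]
    · simp

noncomputable def rep (hx : ∀ l a, x (α l a) = act (π l) (x a)) :
    MonoidAlgebra ℂ (Gp π) →ₐ[ℂ] Matrix O O (MonoidAlgebra ℂ T) :=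
  MonoidAlgebra.lift ℂ _ _ (repMon α x t hx)

open MonoidAlgebra in
lemma rep_coeff (hx : ∀ l a, x (α l a) = act (π l) (x a)) (f : MonoidAlgebra ℂ (Gp π))
    (a : O) (l : L) (hu : ∀ l', α l' (α l⁻¹ a) = a → t l' = t l → l' = l) :
    (rep α x t hx f a (α l⁻¹ a)).coeff (t l) = ∑ v : V, f.coeff ⟨v, l⟩ * sg (bil (x a) v) := by
  have h1 : rep α x t hx f = ∑ g : Gp π, f.coeff g • repFun α x t g := by
    rw [rep, MonoidAlgebra.lift_apply]
    rw [Finsupp.sum_fintype _ _ (by simp)]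
    rfl
  have h2 : (rep α x t hx f a (α l⁻¹ a)).coeff (t l)
      = ∑ g : Gp π, f.coeff g * (repFun α x t g a (α l⁻¹ a)).coeff (t l) := by
    rw [h1, Matrix.sum_apply]
    simp only [Matrix.smul_apply, coeff_sum, coeff_smul, Finsupp.coe_finsetSum,
      Finset.sum_apply, Finsupp.coe_smul, Pi.smul_apply, smul_eq_mul]
  rw [h2, ← (Gp.equiv π).symm.sum_comp, Fintype.sum_prod_type]
  refine Finset.sum_congr rfl fun v _ => ?_
  rw [Finset.sum_eq_single l]
  · simp only [repFun, Matrix.of_apply]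
    have h3 : a = α ((Gp.equiv π).symm (v, l)).l (α l⁻¹ a) := by
      show a = α l (α l⁻¹ a)
      rw [← Equiv.Perm.mul_apply, ← map_mul]; simp
    rw [if_pos h3, coeff_single]
    show f.coeff ⟨v, l⟩ * (Finsupp.single (t l) (sg (bil (x a) v))) (t l) = _
    rw [Finsupp.single_eq_same]
  · intro l' _ hl'
    simp only [repFun, Matrix.of_apply]
    by_cases h3 : a = α ((Gp.equiv π).symm (v, l')).l (α l⁻¹ a)
    · rw [if_pos h3, coeff_single]
      have h4 : t l' ≠ t l := fun h => hl' (hu l' h3.symm h)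
      show f.coeff ⟨v, l'⟩ * (Finsupp.single (t l') (sg (bil (x a) v))) (t l) = _
      rw [Finsupp.single_apply, if_neg h4, mul_zero]
    · rw [if_neg h3]; simp
  · simp
end rep


def wn : Fin 8 → W := ![(0,0,0), (1,0,0), (0,1,0), (1,1,0), (0,0,1), (1,0,1), (0,1,1), (1,1,1)]

def repG : Fin 21 → V := ![(wn 0, wn 1), (wn 0, wn 2), (wn 0, wn 3), (wn 0, wn 4), (wn 0, wn 5), (wn 0, wn 6), (wn 0, wn 7), (wn 1, wn 2), (wn 1, wn 3), (wn 1, wn 4), (wn 1, wn 5), (wn 1, wn 6), (wn 1, wn 7), (wn 2, wn 4), (wn 2, wn 5), (wn 2, wn 6), (wn 2, wn 7), (wn 3, wn 4), (wn 3, wn 5), (wn 3, wn 6), (wn 3, wn 7)]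
def repH : Fin 7 → V := ![(wn 1, wn 2), (wn 1, wn 4), (wn 1, wn 6), (wn 2, wn 4), (wn 2, wn 5), (wn 3, wn 4), (wn 3, wn 5)]
def yv : Fin 7 → W := ![wn 1, wn 2, wn 3, wn 4, wn 5, wn 6, wn 7]
def xa (y : W) (a : Fin 3) : V := if a = 0 then (0, y) else if a = 1 then (y, 0) else (y, y)

def cycHom : C3 →* S3 where
  toFun c := (finRotate 3) ^ (c.toAdd.val)
  map_one' := by decide
  map_mul' := by decide

def π1 : L →* S3 := cycHom.comp (MonoidHom.snd S3 C3)
def π2 : L →* S3 := MonoidHom.fst S3 C3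

lemma surjG : ∀ x : V, x = 0 ∨ ∃ j : Fin 21, ∃ a : C3, x = act (cycHom a) (repG j) := by
  decide +kernel

lemma surjH : ∀ x : V, x = 0 ∨ (∃ y : Fin 7, ∃ a : Fin 3, x = xa (yv y) a) ∨
    ∃ l : Fin 7, ∃ τ : S3, x = act τ (repH l) := by
  decide +kernel

lemma xa_act : ∀ (y : W) (σ : S3) (a : Fin 3), xa y (σ a) = act σ (xa y a) := by
  decide +kernel

lemma uniq_sign : ∀ (σ τ : S3) (a : Fin 3), τ (σ⁻¹ a) = a → Equiv.Perm.sign τ = Equiv.Perm.sign σ → τ = σ := by
  decide +kernel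


lemma finrankMA (T : Type) [Fintype T] [Monoid T] :
    Module.finrank ℂ (MonoidAlgebra ℂ T) = Fintype.card T := by
  rw [(MonoidAlgebra.coeffLinearEquiv (M := T) (S := ℂ) ℂ).finrank_eq]
  simp

instance finMA (T : Type) [Fintype T] [Monoid T] : Module.Finite ℂ (MonoidAlgebra ℂ T) :=
  Module.Finite.equiv (MonoidAlgebra.coeffLinearEquiv (M := T) (S := ℂ) ℂ).symm

/-! Orbit data -/
def α0 : L →* Equiv.Perm Unit := 1
lemma hx0 (π : L →* S3) : ∀ (l : L) (a : Unit), (fun _ => (0 : V)) (α0 l a) = act (π l) ((fun _ => (0 : V)) a) := by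
  intro l a; simp [Gp.act_zero]

noncomputable def rep0 (π : L →* S3) :
    MonoidAlgebra ℂ (Gp π) →ₐ[ℂ] Matrix Unit Unit (MonoidAlgebra ℂ L) :=
  rep α0 (fun _ => 0) (MonoidHom.id L) (hx0 π)

def mulL (X : Type) [Group X] : X →* Equiv.Perm X where
  toFun a := Equiv.mulLeft a
  map_one' := by ext; simp
  map_mul' a b := by ext; simp

def αG : L →* Equiv.Perm C3 := (mulL C3).comp (MonoidHom.snd S3 C3)
def xG (j : Fin 21) (a : C3) : V := act (cycHom a) (repG j)
lemma hxG (j : Fin 21) : ∀ (l : L) (a : C3), xG j (αG l a) = act (π1 l) (xG j a) := by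
  intro l a
  show act (cycHom (l.2 * a)) (repG j) = act (cycHom l.2) (act (cycHom a) (repG j))
  rw [map_mul, act_mul]

noncomputable def repGj (j : Fin 21) :
    MonoidAlgebra ℂ (Gp π1) →ₐ[ℂ] Matrix C3 C3 (MonoidAlgebra ℂ S3) :=
  rep αG (xG j) (MonoidHom.fst S3 C3) (hxG j)

def αH1 : L →* Equiv.Perm (Fin 3) := MonoidHom.fst S3 C3
def tH1 : L →* ℤˣ × C3 := (Equiv.Perm.sign.comp (MonoidHom.fst S3 C3)).prod (MonoidHom.snd S3 C3)
lemma hxH1 (y : Fin 7) : ∀ (l : L) (a : Fin 3), xa (yv y) (αH1 l a) = act (π2 l) (xa (yv y) a) := by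
  intro l a
  exact xa_act (yv y) l.1 a

noncomputable def repH1 (j : Fin 7) :
    MonoidAlgebra ℂ (Gp π2) →ₐ[ℂ] Matrix (Fin 3) (Fin 3) (MonoidAlgebra ℂ (ℤˣ × C3)) :=
  rep αH1 (xa (yv j)) tH1 (hxH1 j)

def αH2 : L →* Equiv.Perm S3 := (mulL S3).comp (MonoidHom.fst S3 C3)
def xH2 (j : Fin 7) (a : S3) : V := act a (repH j)
lemma hxH2 (j : Fin 7) : ∀ (l : L) (a : S3), xH2 j (αH2 l a) = act (π2 l) (xH2 j a) := by
  intro l a
  show act (l.1 * a) (repH j) = act (l.1) (act a (repH j))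
  rw [act_mul]

noncomputable def repH2 (j : Fin 7) :
    MonoidAlgebra ℂ (Gp π2) →ₐ[ℂ] Matrix S3 S3 (MonoidAlgebra ℂ C3) :=
  rep αH2 (xH2 j) (MonoidHom.snd S3 C3) (hxH2 j)

abbrev PG := Matrix Unit Unit (MonoidAlgebra ℂ L) × (Fin 21 → Matrix C3 C3 (MonoidAlgebra ℂ S3))
abbrev PH := Matrix Unit Unit (MonoidAlgebra ℂ L) ×
  ((Fin 7 → Matrix (Fin 3) (Fin 3) (MonoidAlgebra ℂ (ℤˣ × C3))) ×
   (Fin 7 → Matrix S3 S3 (MonoidAlgebra ℂ C3)))

noncomputable def ΨG : MonoidAlgebra ℂ (Gp π1) →ₐ[ℂ] PG :=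
  (rep0 π1).prod (AlgHom.pi repGj)

noncomputable def ΨH : MonoidAlgebra ℂ (Gp π2) →ₐ[ℂ] PH :=
  (rep0 π2).prod ((AlgHom.pi repH1).prod (AlgHom.pi repH2))

lemma eq_zero_of_fourier {π : L →* S3} (f : MonoidAlgebra ℂ (Gp π))
    (h : ∀ (x : V) (l : L), ∑ v : V, f.coeff ⟨v, l⟩ * sg (bil x v) = 0) : f = 0 := by
  apply MonoidAlgebra.ext
  ext g
  exact fourier (fun v => f.coeff ⟨v, g.l⟩) (fun x => h x g.l) g.v

lemma rep0_zero {π : L →* S3} (f : MonoidAlgebra ℂ (Gp π)) (h : rep0 π f = 0) (l : L) :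
    ∑ v : V, f.coeff ⟨v, l⟩ * sg (bil 0 v) = 0 := by
  have := rep_coeff α0 (fun _ => 0) (MonoidHom.id L) (hx0 π) f () l (fun l' _ h => h)
  rw [← this]
  have h2 : rep α0 (fun _ => 0) (MonoidHom.id L) (hx0 π) f = 0 := h
  rw [h2]; simp

lemma ΨG_inj : Function.Injective ΨG := by
  rw [injective_iff_map_eq_zero]
  intro f hf
  have h0 : rep0 π1 f = 0 := congrArg Prod.fst hf
  have h1 : ∀ j, repGj j f = 0 := fun j => congrFun (congrArg Prod.snd hf) j
  apply eq_zero_of_fourier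
  intro x l
  rcases surjG x with rfl | ⟨j, a, rfl⟩
  · exact rep0_zero f h0 l
  · have := rep_coeff αG (xG j) (MonoidHom.fst S3 C3) (hxG j) f a l (by
      intro l' h1 h2
      apply Prod.ext h2
      have : l'.2 * (l.2⁻¹ * a) = a := h1
      rw [← mul_assoc] at this
      have h3 : l'.2 * l.2⁻¹ = 1 := by simpa using this
      exact mul_inv_eq_one.mp h3)
    show ∑ v : V, f.coeff ⟨v, l⟩ * sg (bil (xG j a) v) = 0
    rw [← this]
    have h2 : rep αG (xG j) (MonoidHom.fst S3 C3) (hxG j) f = 0 := h1 j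
    rw [h2]; simp

lemma ΨH_inj : Function.Injective ΨH := by
  rw [injective_iff_map_eq_zero]
  intro f hf
  have h0 : rep0 π2 f = 0 := congrArg Prod.fst hf
  have h1 : ∀ j, repH1 j f = 0 := fun j => congrFun (congrArg (fun z => z.2.1) hf) j
  have h2 : ∀ j, repH2 j f = 0 := fun j => congrFun (congrArg (fun z => z.2.2) hf) j
  apply eq_zero_of_fourier
  intro x l
  rcases surjH x with rfl | ⟨j, a, rfl⟩ | ⟨j, a, rfl⟩
  · exact rep0_zero f h0 l
  · have := rep_coeff αH1 (xa (yv j)) tH1 (hxH1 j) f a l (by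
      intro l' h1 h2
      have h3 : Equiv.Perm.sign l'.1 = Equiv.Perm.sign l.1 := congrArg (fun z : ℤˣ × C3 => z.1) h2
      have h4 : l'.2 = l.2 := congrArg (fun z : ℤˣ × C3 => z.2) h2
      exact Prod.ext (uniq_sign l.1 l'.1 a h1 h3) h4)
    rw [← this]
    have h2 : rep αH1 (xa (yv j)) tH1 (hxH1 j) f = 0 := h1 j
    rw [h2]; simp
  · have := rep_coeff αH2 (xH2 j) (MonoidHom.snd S3 C3) (hxH2 j) f a l (by
      intro l' h1 h2
      refine Prod.ext ?_ h2
      have : l'.1 * (l.1⁻¹ * a) = a := h1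
      rw [← mul_assoc] at this
      have h3 : l'.1 * l.1⁻¹ = 1 := by simpa using this
      exact mul_inv_eq_one.mp h3)
    show ∑ v : V, f.coeff ⟨v, l⟩ * sg (bil (xH2 j a) v) = 0
    rw [← this]
    have h3 : rep αH2 (xH2 j) (MonoidHom.snd S3 C3) (hxH2 j) f = 0 := h2 j
    rw [h3]; simp

lemma finrank_PG : Module.finrank ℂ PG = 1152 := by
  simp [Module.finrank_prod, Module.finrank_pi_fintype, Module.finrank_matrix, finrankMA,
    Fintype.card_perm, Nat.factorial]

lemma finrank_PH : Module.finrank ℂ PH = 1152 := by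
  simp [Module.finrank_prod, Module.finrank_pi_fintype, Module.finrank_matrix, finrankMA,
    Fintype.card_perm, Nat.factorial]

noncomputable def eG : MonoidAlgebra ℂ (Gp π1) ≃ₐ[ℂ] PG :=
  AlgEquiv.ofBijective ΨG ⟨ΨG_inj, by
    have := (LinearMap.injective_iff_surjective_of_finrank_eq_finrank
      (f := ΨG.toLinearMap) (by rw [finrankMA, Gp.card, finrank_PG])).1 ΨG_inj
    exact this⟩

noncomputable def eH : MonoidAlgebra ℂ (Gp π2) ≃ₐ[ℂ] PH :=
  AlgEquiv.ofBijective ΨH ⟨ΨH_inj, by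
    have := (LinearMap.injective_iff_surjective_of_finrank_eq_finrank
      (f := ΨH.toLinearMap) (by rw [finrankMA, Gp.card, finrank_PH])).1 ΨH_inj
    exact this⟩


/-! Algebra isomorphisms -/
section algs
variable {n ι κ : Type} [Fintype n] [DecidableEq n] 

noncomputable def matPi (A : Type) [Ring A] [Algebra ℂ A] [Fintype ι] :
    Matrix n n (ι → A) ≃ₐ[ℂ] (ι → Matrix n n A) := AlgEquiv.ofRingEquiv
  (f := 
    { toFun := fun M i => Matrix.of fun a b => M a b i
      invFun := fun F => Matrix.of fun a b i => F i a b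
      left_inv := fun _ => rfl
      right_inv := fun _ => rfl
      map_mul' := by
        intro M N
        funext i
        ext a b
        show (M * N) a b i = _
        rw [Matrix.mul_apply, Finset.sum_apply]
        rfl
      map_add' := fun _ _ => rfl }) (by
    intro r
    funext i
    ext a b
    show (algebraMap ℂ (Matrix n n (ι → A)) r) a b i = (algebraMap ℂ (Matrix n n A) r) a b
    rw [Matrix.algebraMap_matrix_apply, Matrix.algebraMap_matrix_apply]
    split_ifs <;> rfl)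

noncomputable def matProd (A B : Type) [Ring A] [Algebra ℂ A] [Ring B] [Algebra ℂ B] :
    Matrix n n (A × B) ≃ₐ[ℂ] (Matrix n n A × Matrix n n B) := AlgEquiv.ofRingEquiv
  (f := 
    { toFun := fun M => (Matrix.of fun a b => (M a b).1, Matrix.of fun a b => (M a b).2)
      invFun := fun F => Matrix.of fun a b => (F.1 a b, F.2 a b)
      left_inv := fun _ => rfl
      right_inv := fun _ => rfl
      map_mul' := by
        intro M N
        refine Prod.ext ?_ ?_
        · ext a b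
          show ((M * N) a b).1 = _
          rw [Matrix.mul_apply, Prod.fst_sum]
          rfl
        · ext a b
          show ((M * N) a b).2 = _
          rw [Matrix.mul_apply, Prod.snd_sum]
          rfl
      map_add' := fun _ _ => rfl }) (by
    intro r
    refine Prod.ext ?_ ?_
    · ext a b
      show ((algebraMap ℂ (Matrix n n (A × B)) r) a b).1 = (algebraMap ℂ (Matrix n n A) r) a b
      rw [Matrix.algebraMap_matrix_apply, Matrix.algebraMap_matrix_apply]
      split_ifs <;> rfl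
    · ext a b
      show ((algebraMap ℂ (Matrix n n (A × B)) r) a b).2 = (algebraMap ℂ (Matrix n n B) r) a b
      rw [Matrix.algebraMap_matrix_apply, Matrix.algebraMap_matrix_apply]
      split_ifs <;> rfl)

def curryAlg (ι κ A : Type) [Ring A] [Algebra ℂ A] :
    (ι → κ → A) ≃ₐ[ℂ] (ι × κ → A) := AlgEquiv.ofRingEquiv
  (f := 
    { toFun := fun F p => F p.1 p.2
      invFun := fun F i k => F (i, k)
      left_inv := fun _ => rfl
      right_inv := fun _ => rfl
      map_mul' := fun _ _ => rfl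
      map_add' := fun _ _ => rfl }) (fun _ => rfl)

noncomputable def piProdAlg (ι A B : Type) [Ring A] [Algebra ℂ A] [Ring B] [Algebra ℂ B] :
    (ι → A × B) ≃ₐ[ℂ] ((ι → A) × (ι → B)) := AlgEquiv.ofRingEquiv
  (f := 
    { toFun := fun F => (fun i => (F i).1, fun i => (F i).2)
      invFun := fun F i => (F.1 i, F.2 i)
      left_inv := fun _ => rfl
      right_inv := fun _ => rfl
      map_mul' := fun _ _ => rfl
      map_add' := fun _ _ => rfl }) (fun _ => rfl)

def prodSwap (A B : Type) [Ring A] [Algebra ℂ A] [Ring B] [Algebra ℂ B] :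
    (A × B) ≃ₐ[ℂ] (B × A) := AlgEquiv.ofRingEquiv
  (f := 
    { toFun := fun F => (F.2, F.1)
      invFun := fun F => (F.2, F.1)
      left_inv := fun _ => rfl
      right_inv := fun _ => rfl
      map_mul' := fun _ _ => rfl
      map_add' := fun _ _ => rfl }) (fun _ => rfl)

def reidx (A : Type) [Ring A] [Algebra ℂ A] (e : ι ≃ κ) : (ι → A) ≃ₐ[ℂ] (κ → A) := AlgEquiv.ofRingEquiv
  (f := 
    { toFun := fun F k => F (e.symm k)
      invFun := fun F i => F (e i)
      left_inv := fun F => by funext i; simp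
      right_inv := fun F => by funext i; simp
      map_mul' := fun _ _ => rfl
      map_add' := fun _ _ => rfl }) (fun _ => rfl)

end algs

section WA

/-- In a commutative product of matrix algebras all blocks have size one. -/
lemma block_one {A : Type} [Ring A] [Algebra ℂ A] {n : ℕ} {d : Fin n → ℕ} (hd : ∀ i, NeZero (d i))
    (e : A ≃ₐ[ℂ] Π i, Matrix (Fin (d i)) (Fin (d i)) ℂ) (hcomm : ∀ x y : A, x * y = y * x)
    (i : Fin n) : d i = 1 := by
  classical
  by_contra hne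
  have h2 : 2 ≤ d i := by
    have := (hd i).out
    omega
  have hc : ∀ x y : (Π i, Matrix (Fin (d i)) (Fin (d i)) ℂ), x * y = y * x := by
    intro x y
    have := congrArg e (hcomm (e.symm x) (e.symm y))
    simpa using this
  let a : Fin (d i) := ⟨0, by omega⟩
  let b : Fin (d i) := ⟨1, by omega⟩
  have hab : a ≠ b := by simp [a, b]
  have h := congrFun (hc (Function.update 0 i (Matrix.single a b 1)) (Function.update 0 i (Matrix.single b a 1))) i
  simp only [Pi.mul_apply, Function.update_self, Matrix.single_mul_single_same, mul_one] at h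
  have h3 := congrFun (congrFun h a) a
  simp [hab.symm] at h3

noncomputable def fin1Alg : Matrix (Fin 1) (Fin 1) ℂ ≃ₐ[ℂ] ℂ := AlgEquiv.ofRingEquiv
  (f := 
    { toFun := fun M => M 0 0
      invFun := fun r => Matrix.of fun _ _ => r
      left_inv := fun M => by
        ext a b
        rw [Subsingleton.elim a 0, Subsingleton.elim b 0]; rfl
      right_inv := fun r => rfl
      map_mul' := by
        intro M N
        simp [Matrix.mul_apply]
      map_add' := fun _ _ => rfl }) (by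
    intro r
    show (algebraMap ℂ (Matrix (Fin 1) (Fin 1) ℂ) r) 0 0 = r
    rw [Matrix.algebraMap_matrix_apply]
    simp)

noncomputable def one1Alg {m : ℕ} (h : m = 1) : Matrix (Fin m) (Fin m) ℂ ≃ₐ[ℂ] ℂ :=
  (Matrix.reindexAlgEquiv ℂ ℂ (finCongr h)).trans fin1Alg

lemma commAlg (T : Type) [Group T] [Fintype T] (hT : ∀ a b : T, a * b = b * a) :
    Nonempty (MonoidAlgebra ℂ T ≃ₐ[ℂ] (Fin (Fintype.card T) → ℂ)) := by
  have : Module.Finite ℂ (MonoidAlgebra ℂ T) :=
    Module.Finite.equiv (MonoidAlgebra.coeffLinearEquiv (M := T) (S := ℂ) ℂ).symm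
  obtain ⟨n, d, hd, ⟨e⟩⟩ := IsSemisimpleRing.exists_algEquiv_pi_matrix_of_isAlgClosed ℂ (MonoidAlgebra ℂ T)
  have hcomm : ∀ x y : MonoidAlgebra ℂ T, x * y = y * x := by
    let : CommGroup T := { (inferInstance : Group T) with mul_comm := hT }
    intro x y
    exact mul_comm x y
  have h1 := block_one hd e hcomm
  have e2 : (Π i, Matrix (Fin (d i)) (Fin (d i)) ℂ) ≃ₐ[ℂ] (Fin n → ℂ) :=
    AlgEquiv.piCongrRight fun i => one1Alg (h1 i)
  have e3 := e.trans e2
  have hn : n = Fintype.card T := by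
    have h := e3.toLinearEquiv.finrank_eq
    rw [(MonoidAlgebra.coeffLinearEquiv (M := T) (S := ℂ) ℂ).finrank_eq] at h
    simpa using h.symm
  subst hn
  exact ⟨e3⟩


/-- The block structure of the group algebra of a non-commutative group of order six. -/
lemma sixAlg (T : Type) [Group T] [Fintype T] (hT : Fintype.card T = 6)
    (hnc : ∃ a b : T, a * b ≠ b * a) :
    Nonempty (MonoidAlgebra ℂ T ≃ₐ[ℂ] (Matrix (Fin 2) (Fin 2) ℂ × (Fin 2 → ℂ))) := by
  classical
  have : Module.Finite ℂ (MonoidAlgebra ℂ T) :=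
    Module.Finite.equiv (MonoidAlgebra.coeffLinearEquiv (M := T) (S := ℂ) ℂ).symm
  obtain ⟨n, d, hd, ⟨e⟩⟩ := IsSemisimpleRing.exists_algEquiv_pi_matrix_of_isAlgClosed ℂ (MonoidAlgebra ℂ T)
  have hsum : ∑ i, d i * d i = 6 := by
    have h := e.toLinearEquiv.finrank_eq
    rw [(MonoidAlgebra.coeffLinearEquiv (M := T) (S := ℂ) ℂ).finrank_eq] at h
    simp [Module.finrank_pi_fintype, Module.finrank_matrix, hT] at h
    exact h.symm
  have hex : ∃ i0, d i0 ≠ 1 := by
    by_contra hcon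
    push Not at hcon
    obtain ⟨a, b, hab⟩ := hnc
    apply hab
    have hc : ∀ x y : (Π i, Matrix (Fin (d i)) (Fin (d i)) ℂ), x * y = y * x := by
      intro x y
      have e2 : (Π i, Matrix (Fin (d i)) (Fin (d i)) ℂ) ≃ₐ[ℂ] (Fin n → ℂ) :=
        AlgEquiv.piCongrRight fun i => one1Alg (hcon i)
      apply e2.injective
      rw [map_mul, map_mul, mul_comm]
    have h1 : MonoidAlgebra.single a (1:ℂ) * MonoidAlgebra.single b 1
        = MonoidAlgebra.single b (1:ℂ) * MonoidAlgebra.single a 1 := by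
      apply e.injective
      rw [map_mul, map_mul, hc]
    rw [MonoidAlgebra.single_mul_single, MonoidAlgebra.single_mul_single] at h1
    rw [one_mul, MonoidAlgebra.single_left_inj one_ne_zero] at h1
    exact h1
  obtain ⟨i0, hi0⟩ := hex
  have hpos : ∀ i, 1 ≤ d i := fun i => Nat.one_le_iff_ne_zero.mpr (hd i).out
  have hsplit : d i0 * d i0 + ∑ i : {i // i ≠ i0}, d i * d i = 6 := by
    rw [← hsum, ← Finset.add_sum_erase _ _ (Finset.mem_univ i0)]
    congr 1
    rw [← Finset.sum_subtype (Finset.univ.erase i0) (p := fun i => i ≠ i0) (fun x => by simp)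
      (fun i => d i * d i)]
  have hd0 : d i0 = 2 := by
    have := hpos i0
    have h2 : 2 ≤ d i0 := by omega
    have h3 : d i0 < 3 := by
      by_contra hcon
      push Not at hcon
      have : 9 ≤ d i0 * d i0 := Nat.mul_le_mul hcon hcon
      omega
    omega
  have hrest : ∑ i : {i // i ≠ i0}, d i * d i = 2 := by
    rw [hd0] at hsplit; omega
  have hone : ∀ i : {i // i ≠ i0}, d i = 1 := by
    intro i
    by_contra hcon
    have := hpos i
    have h2 : 2 ≤ d i := by omega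
    have h3 : 4 ≤ d i * d i := Nat.mul_le_mul h2 h2
    have h4 : d i * d i ≤ ∑ i : {i // i ≠ i0}, d i * d i :=
      Finset.single_le_sum (f := fun i : {i // i ≠ i0} => d i * d i) (fun _ _ => Nat.zero_le _) (Finset.mem_univ i)
    omega
  have hcard : Fintype.card {i // i ≠ i0} = 2 := by
    rw [← hrest]
    rw [Finset.sum_congr rfl (g := fun _ => 1) (fun i _ => by rw [hone i])]
    simp
  let F : (Π i, Matrix (Fin (d i)) (Fin (d i)) ℂ) →ₐ[ℂ]
      Matrix (Fin (d i0)) (Fin (d i0)) ℂ × (Π i : {i // i ≠ i0}, Matrix (Fin (d i)) (Fin (d i)) ℂ) :=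
    (Pi.evalAlgHom ℂ (fun i => Matrix (Fin (d i)) (Fin (d i)) ℂ) i0).prod
      (AlgHom.pi fun i : {i // i ≠ i0} => Pi.evalAlgHom ℂ (fun i => Matrix (Fin (d i)) (Fin (d i)) ℂ) i.1)
  have hF : Function.Bijective F :=
    (Equiv.piSplitAt i0 (fun i => Matrix (Fin (d i)) (Fin (d i)) ℂ)).bijective
  let e1 := AlgEquiv.ofBijective F hF
  let e2 : (Π i : {i // i ≠ i0}, Matrix (Fin (d i)) (Fin (d i)) ℂ) ≃ₐ[ℂ] ({i // i ≠ i0} → ℂ) :=
    AlgEquiv.piCongrRight fun i => one1Alg (hone i)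
  let e3 : ({i // i ≠ i0} → ℂ) ≃ₐ[ℂ] (Fin 2 → ℂ) := reidx ℂ (Fintype.equivFinOfCardEq hcard)
  let e4 : Matrix (Fin (d i0)) (Fin (d i0)) ℂ ≃ₐ[ℂ] Matrix (Fin 2) (Fin 2) ℂ :=
    Matrix.reindexAlgEquiv ℂ ℂ (finCongr hd0)
  exact ⟨(e.trans e1).trans (AlgEquiv.prodCongr e4 (e2.trans e3))⟩

end WA

abbrev A3 := Matrix (Fin 3) (Fin 3) ℂ
abbrev A6 := Matrix (Fin 6) (Fin 6) ℂ
abbrev PC := Matrix Unit Unit (MonoidAlgebra ℂ L) × ((Fin 21 → A6) × (Fin 42 → A3))

lemma PG_equiv : Nonempty (PG ≃ₐ[ℂ] PC) := by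
  obtain ⟨e⟩ := sixAlg S3 (by simp [Fintype.card_perm, Nat.factorial]) (by
    refine ⟨Equiv.swap 0 1, Equiv.swap 1 2, ?_⟩
    decide)
  let r3 : C3 ≃ Fin 3 := Fintype.equivFinOfCardEq (by simp)
  let r6 : C3 × Fin 2 ≃ Fin 6 := Fintype.equivFinOfCardEq (by simp)
  let e1 : Matrix C3 C3 (Matrix (Fin 2) (Fin 2) ℂ) ≃ₐ[ℂ] A6 :=
    (Matrix.compAlgEquiv C3 (Fin 2) ℂ ℂ).trans (Matrix.reindexAlgEquiv ℂ ℂ r6)
  let e2 : Matrix C3 C3 (Fin 2 → ℂ) ≃ₐ[ℂ] (Fin 2 → A3) :=
    (matPi ℂ).trans (AlgEquiv.piCongrRight fun _ => Matrix.reindexAlgEquiv ℂ ℂ r3)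
  let e3 : Matrix C3 C3 (MonoidAlgebra ℂ S3) ≃ₐ[ℂ] (A6 × (Fin 2 → A3)) :=
    (e.mapMatrix.trans (matProd _ _)).trans (AlgEquiv.prodCongr e1 e2)
  let e4 : (Fin 21 → Matrix C3 C3 (MonoidAlgebra ℂ S3)) ≃ₐ[ℂ] (Fin 21 → (A6 × (Fin 2 → A3))) :=
    AlgEquiv.piCongrRight fun _ => e3
  let r42 : Fin 21 × Fin 2 ≃ Fin 42 := Fintype.equivFinOfCardEq (by simp)
  let e5 : (Fin 21 → Fin 2 → A3) ≃ₐ[ℂ] (Fin 42 → A3) := (curryAlg _ _ _).trans (reidx _ r42)
  let e6 : (Fin 21 → (A6 × (Fin 2 → A3))) ≃ₐ[ℂ] ((Fin 21 → A6) × (Fin 42 → A3)) :=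
    (piProdAlg _ _ _).trans (AlgEquiv.prodCongr AlgEquiv.refl e5)
  exact ⟨AlgEquiv.prodCongr AlgEquiv.refl (e4.trans e6)⟩

lemma PH_equiv : Nonempty (PH ≃ₐ[ℂ] PC) := by
  obtain ⟨e⟩ := commAlg (ℤˣ × C3) (fun a b => mul_comm a b)
  obtain ⟨e'⟩ := commAlg C3 (fun a b => mul_comm a b)
  have hc : Fintype.card (ℤˣ × C3) = 6 := by simp
  have hc' : Fintype.card C3 = 3 := by simp
  rw [hc] at e
  rw [hc'] at e'
  let r6 : S3 ≃ Fin 6 := Fintype.equivFinOfCardEq (by simp [Fintype.card_perm, Nat.factorial])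
  let e1 : Matrix (Fin 3) (Fin 3) (MonoidAlgebra ℂ (ℤˣ × C3)) ≃ₐ[ℂ] (Fin 6 → A3) :=
    e.mapMatrix.trans (matPi ℂ)
  let e2 : Matrix S3 S3 (MonoidAlgebra ℂ C3) ≃ₐ[ℂ] (Fin 3 → A6) :=
    (e'.mapMatrix.trans (matPi ℂ)).trans (AlgEquiv.piCongrRight fun _ => Matrix.reindexAlgEquiv ℂ ℂ r6)
  let r42 : Fin 7 × Fin 6 ≃ Fin 42 := Fintype.equivFinOfCardEq (by simp)
  let r21 : Fin 7 × Fin 3 ≃ Fin 21 := Fintype.equivFinOfCardEq (by simp)
  let e3 : (Fin 7 → Matrix (Fin 3) (Fin 3) (MonoidAlgebra ℂ (ℤˣ × C3))) ≃ₐ[ℂ] (Fin 42 → A3) :=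
    ((AlgEquiv.piCongrRight fun _ => e1).trans (curryAlg _ _ _)).trans (reidx _ r42)
  let e4 : (Fin 7 → Matrix S3 S3 (MonoidAlgebra ℂ C3)) ≃ₐ[ℂ] (Fin 21 → A6) :=
    ((AlgEquiv.piCongrRight fun _ => e2).trans (curryAlg _ _ _)).trans (reidx _ r21)
  let e5 : ((Fin 7 → Matrix (Fin 3) (Fin 3) (MonoidAlgebra ℂ (ℤˣ × C3))) ×
   (Fin 7 → Matrix S3 S3 (MonoidAlgebra ℂ C3))) ≃ₐ[ℂ] ((Fin 21 → A6) × (Fin 42 → A3)) :=
    (AlgEquiv.prodCongr e3 e4).trans (prodSwap _ _)
  exact ⟨AlgEquiv.prodCongr AlgEquiv.refl e5⟩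

theorem algIso : Nonempty (MonoidAlgebra ℂ (Gp π1) ≃ₐ[ℂ] MonoidAlgebra ℂ (Gp π2)) := by
  obtain ⟨a⟩ := PG_equiv
  obtain ⟨b⟩ := PH_equiv
  exact ⟨(eG.trans a).trans (eH.trans b).symm⟩

/-! Sylow subgroups -/

def projS (π : L →* S3) : Gp π →* S3 where
  toFun g := g.l.1
  map_one' := rfl
  map_mul' _ _ := rfl

def projC (π : L →* S3) : Gp π →* C3 where
  toFun g := g.l.2
  map_one' := rfl
  map_mul' _ _ := rfl

lemma s3_two : ∀ σ : S3, σ ^ 6 = 1 := by decide +kernel
lemma s3_comm : ∀ σ τ : S3, σ ^ 2 = 1 → τ ^ 2 = 1 → (σ * τ) ^ 2 = 1 → σ * τ = τ * σ := by decide +kernel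
lemma c3_three : ∀ c : C3, c ^ 3 = 1 := by decide

lemma sylow_comm (P : Sylow 2 (Gp π1)) : ∀ x ∈ (P : Subgroup (Gp π1)), ∀ y ∈ (P : Subgroup (Gp π1)),
    x * y = y * x := by
  have hpow : ∀ x ∈ (P : Subgroup (Gp π1)), ∃ k : ℕ, x ^ 2 ^ k = 1 := by
    intro x hx
    obtain ⟨k, hk⟩ := P.isPGroup' ⟨x, hx⟩
    exact ⟨k, congrArg Subtype.val hk⟩
  have hσ : ∀ x ∈ (P : Subgroup (Gp π1)), (projS π1 x) ^ 2 = 1 := by
    intro x hx
    obtain ⟨k, hk⟩ := hpow x hx
    have h1 : (projS π1 x) ^ 2 ^ k = 1 := by rw [← map_pow, hk, map_one]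
    have h2 := orderOf_dvd_of_pow_eq_one h1
    have h3 := orderOf_dvd_of_pow_eq_one (s3_two (projS π1 x))
    have h4 : orderOf (projS π1 x) ∣ 2 := by
      obtain ⟨j, hj, hj2⟩ := (Nat.dvd_prime_pow Nat.prime_two).1 h2
      rw [hj2] at h3 ⊢
      have : j ≤ 1 := by
        by_contra hcon
        push Not at hcon
        have h5 : 2 ^ 2 ∣ 6 := (pow_dvd_pow 2 hcon).trans h3
        omega
      exact (pow_dvd_pow 2 this).trans (by norm_num)
    exact orderOf_dvd_iff_pow_eq_one.1 h4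
  have hc : ∀ x ∈ (P : Subgroup (Gp π1)), projC π1 x = 1 := by
    intro x hx
    obtain ⟨k, hk⟩ := hpow x hx
    have h1 : (projC π1 x) ^ 2 ^ k = 1 := by rw [← map_pow, hk, map_one]
    have h2 := orderOf_dvd_of_pow_eq_one h1
    have h3 := orderOf_dvd_of_pow_eq_one (c3_three (projC π1 x))
    have h4 : Nat.Coprime (2 ^ k) 3 := Nat.Coprime.pow_left k (by norm_num)
    exact orderOf_eq_one_iff.1 (Nat.eq_one_of_dvd_coprimes h4 h2 h3)
  intro x hx y hy
  have hxy := mul_mem hx hy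
  have h1 := s3_comm _ _ (hσ x hx) (hσ y hy) (by rw [← map_mul]; exact hσ _ hxy)
  have hx1 : π1 x.l = 1 := by
    show cycHom x.l.2 = 1
    rw [show x.l.2 = 1 from hc x hx, map_one]
  have hy1 : π1 y.l = 1 := by
    show cycHom y.l.2 = 1
    rw [show y.l.2 = 1 from hc y hy, map_one]
  apply Gp.ext'
  · rw [Gp.mul_v, Gp.mul_v, hx1, hy1, act_one, act_one, add_comm]
  · rw [Gp.mul_l, Gp.mul_l]
    exact Prod.ext h1 (mul_comm _ _)

def projL (π : L →* S3) : Gp π →* L where
  toFun g := g.l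
  map_one' := rfl
  map_mul' _ _ := rfl

lemma sylow_not_comm : ∃ Q : Sylow 2 (Gp π2), ∃ x ∈ (Q : Subgroup (Gp π2)), ∃ y ∈ (Q : Subgroup (Gp π2)),
    x * y ≠ y * x := by
  have hker : IsPGroup 2 (projL π2).ker := by
    rintro ⟨x, hx⟩
    refine ⟨1, Subtype.ext ?_⟩
    have hx' : x.l = 1 := hx
    show x ^ 2 ^ 1 = 1
    rw [pow_one, pow_two]
    apply Gp.ext'
    · rw [Gp.mul_v, hx', map_one, act_one]
      have : ∀ w : V, w + w = 0 := by decide +kernel
      exact this x.v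
    · rw [Gp.mul_l, hx']; rfl
  let c : L := (Equiv.swap 0 1, 1)
  have hz : IsPGroup 2 (Subgroup.zpowers c) := by
    apply IsPGroup.of_card (n := 1)
    rw [Nat.card_zpowers]
    rw [pow_one]
    exact orderOf_eq_prime (by decide) (by decide)
  have hR : IsPGroup 2 ((Subgroup.zpowers c).comap (projL π2)) :=
    hz.comap_of_ker_isPGroup _ hker
  obtain ⟨Q, hQ⟩ := hR.exists_le_sylow
  refine ⟨Q, ⟨((1,0,0),0), 1⟩, hQ ?_, ⟨0, c⟩, hQ ?_, ?_⟩
  · show (1 : L) ∈ Subgroup.zpowers c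
    exact one_mem _
  · show c ∈ Subgroup.zpowers c
    exact Subgroup.mem_zpowers c
  · intro h
    have := congrArg Gp.v h
    revert this
    decide

/-- The negation of the preceding statement: For finite groups G and H with isomorphic complex group algebras (equivalently, the same multiset of irreducible character degrees) and any prime p, G has abelian Sylow p-subgroups iff H does. -/
theorem result :
    ¬ (∀ (G H : Type) [Group G] [Fintype G] [Group H] [Fintype H],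
      Nonempty (MonoidAlgebra ℂ G ≃ₐ[ℂ] MonoidAlgebra ℂ H) →
      ∀ p : ℕ, p.Prime →
        ((∀ P : Sylow p G, ∀ x ∈ (P : Subgroup G), ∀ y ∈ (P : Subgroup G), x * y = y * x) ↔
         (∀ Q : Sylow p H, ∀ x ∈ (Q : Subgroup H), ∀ y ∈ (Q : Subgroup H), x * y = y * x))) := by
  intro h
  have h1 := (h (Gp π1) (Gp π2) algIso 2 Nat.prime_two).1 sylow_comm
  obtain ⟨Q, x, hx, y, hy, hxy⟩ := sylow_not_comm
  exact hxy (h1 Q x hx y hy)

end Pool.Agent.S01782
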