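import Pool.Statements.S01788
import Pool.Agent.Helper804.Cut.Main

set_option autoImplicit false
open Pool Pool.MP_b0fe5a_al

namespace Pool.Agent.S01788

/-- The negation of the preceding statement: For every finite group G in which each generator of every cyclic subgroup ⟨x⟩ is conjugate to x or x⁻¹, every Sylow 3-subgroup P has the same property, with conjugacy taken inside P. -/
theorem result :
    ¬ (∀ (G : Type) [Group G] [Finite G],
      (∀ x y : G, Subgroup.zpowers y = Subgroup.zpowers x → IsConj y x ∨ IsConj y x⁻¹) →
      ∀ P : Sylow 3 G,
        ∀ x y : ↥(P : Subgroup G),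
          Subgroup.zpowers y = Subgroup.zpowers x → IsConj y x ∨ IsConj y x⁻¹) := by
  exact Pool.Agent.Helper804.Cut.not_cut

end Pool.Agent.S01788
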