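import Pool.Statements.S01792
import Pool.Agent.Helper475.Asdim
import Pool.Agent.Helper475.Geod
import Pool.Agent.Helper475.NoZ2
import Pool.Agent.Helper475.Torsion
import Pool.Agent.Helper475.FreeSep

set_option autoImplicit false
open Filter
open Pool Pool.MP_b1d060_al

namespace Pool.Agent.S01792

open Pool.Agent.Helper475
open Pool.Agent.Helper475.FreeSep
open SemidirectProduct

section

variable {T : Type} [Group T]

/-- The flat. -/
def Q (γ : ℤ → T) (z : Fin 4 → ℤ) : GG T := inr (fun i => γ (z i))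

variable (S : Finset T) (hS : Subgroup.closure (S : Set T) = ⊤) (γ : ℤ → T)
  (hγ : ∀ i j : ℤ, (SimpleGraph.fromRel (fun g h : T => g⁻¹ * h ∈ S)).dist (γ i) (γ j) =
    (i - j).natAbs)

include hS hγ

theorem Q_low (z z' : Fin 4 → ℤ) (i : Fin 4) :
    (z i - z' i).natAbs ≤ (gr S).dist (Q γ z) (Q γ z') := by
  have h := proj_lip S hS i (Q γ z) (Q γ z')
  simp only [Q, right_inr] at h
  rw [hγ] at h
  exact h

theorem Q_step (z : Fin 4 → ℤ) (i : Fin 4) :
    (gr S).dist (Q γ z) (Q γ (Function.update z i (z i + 1))) ≤ 1 := by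
  classical
  have hadj : (SimpleGraph.fromRel (fun g h : T => g⁻¹ * h ∈ S)).Adj (γ (z i)) (γ (z i + 1)) := by
    rw [← SimpleGraph.dist_eq_one_iff_adj, hγ]
    simp
  rw [SimpleGraph.fromRel_adj] at hadj
  have hne : Q γ z ≠ Q γ (Function.update z i (z i + 1)) := by
    intro h
    have h1 := congrArg (fun g : GG T => g.right i) h
    simp only [Q, right_inr, Function.update_self] at h1
    exact hadj.1 h1
  refine (SimpleGraph.dist_eq_one_iff_adj.2 ?_).le
  rw [SimpleGraph.fromRel_adj]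
  refine ⟨hne, ?_⟩
  rcases hadj.2 with h | h
  · left
    rw [mem_gens]
    right
    refine ⟨i, _, h, ?_⟩
    simp only [Q]
    rw [← map_inv, ← map_mul]
    congr 1
    funext j
    by_cases hj : j = i
    · subst hj; simp
    · simp [Function.update_of_ne hj, Pi.mulSingle_eq_of_ne hj]
  · right
    rw [mem_gens]
    right
    refine ⟨i, _, h, ?_⟩
    simp only [Q]
    rw [← map_inv, ← map_mul]
    congr 1
    funext j
    by_cases hj : j = i
    · subst hj; simp
    · simp [Function.update_of_ne hj, Pi.mulSingle_eq_of_ne hj]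

theorem Q_move_nat (z : Fin 4 → ℤ) (i : Fin 4) (m : ℕ) :
    (gr S).dist (Q γ z) (Q γ (Function.update z i (z i + m))) ≤ m := by
  classical
  induction m with
  | zero => simp
  | succ m ih =>
    have h1 := Q_step S hS γ hγ (Function.update z i (z i + m)) i
    have h2 := (gr_connected S hS).dist_triangle (u := Q γ z)
      (v := Q γ (Function.update z i (z i + m)))
      (w := Q γ (Function.update (Function.update z i (z i + m)) i
        ((Function.update z i (z i + m)) i + 1)))
    rw [Function.update_idem, Function.update_self] at h1 h2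
    have e : z i + ((m + 1 : ℕ) : ℤ) = z i + m + 1 := by push_cast; ring
    rw [e]
    omega

theorem Q_move (z : Fin 4 → ℤ) (i : Fin 4) (t : ℤ) :
    (gr S).dist (Q γ z) (Q γ (Function.update z i t)) ≤ (z i - t).natAbs := by
  classical
  rcases le_total (z i) t with h | h
  · have h1 := Q_move_nat S hS γ hγ z i (t - z i).toNat
    have e : z i + ((t - z i).toNat : ℤ) = t := by omega
    rw [e] at h1
    omega
  · have h1 := Q_move_nat S hS γ hγ (Function.update z i t) i (z i - t).toNat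
    rw [Function.update_self, Function.update_idem] at h1
    have e : t + ((z i - t).toNat : ℤ) = z i := by omega
    rw [e, Function.update_eq_self, SimpleGraph.dist_comm] at h1
    omega

theorem Q_up_aux (z z' : Fin 4 → ℤ) (s : Finset (Fin 4)) :
    (gr S).dist (Q γ z) (Q γ (fun i => if i ∈ s then z' i else z i)) ≤
      ∑ i ∈ s, (z i - z' i).natAbs := by
  classical
  induction s using Finset.induction_on with
  | empty => simp
  | insert a s ha ih =>
    have e : (fun i => if i ∈ insert a s then z' i else z i) =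
        Function.update (fun i => if i ∈ s then z' i else z i) a (z' a) := by
      funext i
      by_cases hi : i = a
      · subst hi; simp
      · rw [Function.update_of_ne hi]
        simp [Finset.mem_insert, hi]
    rw [e, Finset.sum_insert ha]
    have h1 := Q_move S hS γ hγ (fun i => if i ∈ s then z' i else z i) a (z' a)
    rw [if_neg ha] at h1
    have h2 := (gr_connected S hS).dist_triangle (u := Q γ z)
      (v := Q γ (fun i => if i ∈ s then z' i else z i))
      (w := Q γ (Function.update (fun i => if i ∈ s then z' i else z i) a (z' a)))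
    omega

theorem Q_up (z z' : Fin 4 → ℤ) :
    (gr S).dist (Q γ z) (Q γ z') ≤ ∑ i, (z i - z' i).natAbs := by
  classical
  have := Q_up_aux S hS γ hγ z z' Finset.univ
  simpa using this

/-- The asymptotic dimension is at least four. -/
theorem asdim_ge : ¬ ∀ r : ℕ, ∃ (ι : Type) (U : ι → Set (GG T)) (D : ℕ),
    (∀ x : GG T, ∃ i, x ∈ U i) ∧
    (∀ i, ∀ x ∈ U i, ∀ y ∈ U i, (gr S).dist x y ≤ D) ∧
    ∀ x : GG T, {i : ι | ∃ y ∈ U i, (gr S).dist x y ≤ r}.encard ≤ ((4 : ℕ) : ℕ∞) := by
  apply Asdim.asdim_lower (gr S) 4 (fun x => Q γ (fun i : Fin 4 => (x i : ℤ))) 4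
  · intro x y hxy
    refine (Q_up S hS γ hγ _ _).trans ?_
    calc ∑ i : Fin 4, ((x i : ℤ) - (y i : ℤ)).natAbs ≤ ∑ _i : Fin 4, 1 := by
          apply Finset.sum_le_sum
          intro i _
          rcases hxy i i.2 with h | h <;> rw [h] <;> push_cast <;> omega
      _ = 4 := by simp
  · intro x y i hi
    exact Q_low S hS γ hγ (fun i : Fin 4 => (x i : ℤ)) (fun i : Fin 4 => (y i : ℤ)) ⟨i, hi⟩

/-- Extension of a point of the plane to a point of four-space. -/
def ext2 (a : Fin 2 → ℤ) (i : Fin 4) : ℤ := if h : (i : ℕ) < 2 then a ⟨i, h⟩ else 0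

omit hS hγ in
theorem walk_branch (a0 : A4 T) {u v : GG T} (p : (gr S).Walk u v)
    (hp : ∀ w ∈ p.support, w ≠ inr a0) (hu : last u.left = some (a0, false)) :
    last v.left = some (a0, false) := by
  classical
  induction p with
  | nil => exact hu
  | @cons u b v hub q ih =>
    rw [SimpleGraph.Walk.support_cons] at hp
    have hb : b ≠ inr a0 := hp b (List.mem_cons_of_mem _ q.start_mem_support)
    apply ih (fun w hw => hp w (List.mem_cons_of_mem _ hw))
    rcases step S u b hub with ⟨e, h1, h2⟩ | ⟨h1, -⟩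
    · have hu1 : u.left ≠ 1 := by
        intro h
        rw [h] at hu
        simp [last] at hu
      by_cases hb1 : b.left = 1
      · exfalso
        rw [hb1] at h2
        have h3 : (u.left)⁻¹ = FreeGroup.mk [(u.right, e)] := (eq_inv_of_mul_eq_one_right h2.symm).symm ▸ rfl
        simp only [last] at hu
        rw [h3, FreeGroup.toWord_mk, FreeGroup.reduce_singleton] at hu
        simp only [List.getLast?_singleton, Option.some.injEq, Prod.mk.injEq] at hu
        apply hb
        apply SemidirectProduct.ext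
        · rw [hb1, left_inr]
        · rw [h1, right_inr, hu.1]
      · rw [h2] at hb1 ⊢
        rw [last_step _ _ _ hu1 hb1]
        exact hu
    · rw [h1]; exact hu

theorem separation : ∃ f : (Fin 2 → ℤ) → GG T,
    (∃ ρ : ℕ → ℕ, ∀ a b, (gr S).dist (f a) (f b) ≤ ρ (∑ i, |a i - b i|).toNat) ∧
    (∃ ρ : ℕ → ℕ, Tendsto ρ atTop atTop ∧
      ∀ a b, ρ (∑ i, |a i - b i|).toNat ≤ (gr S).dist (f a) (f b)) ∧
    (∃ L : ℕ, ∀ D : ℕ, ∃ x y : GG T,
      (∀ z, L + D < (gr S).dist x (f z)) ∧ (∀ z, L + D < (gr S).dist y (f z)) ∧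
      ¬ ∃ p : (gr S).Walk x y, ∀ v ∈ p.support, ∀ z, L < (gr S).dist v (f z)) := by
  classical
  refine ⟨fun a => Q γ (ext2 a), ⟨id, ?_⟩, ⟨fun m => m / 2, ?_, ?_⟩, 0, ?_⟩
  · intro a b
    refine (Q_up S hS γ hγ _ _).trans ?_
    rw [Fin.sum_univ_four, Fin.sum_univ_two]
    have e0 : ∀ a : Fin 2 → ℤ, ext2 a 0 = a 0 := fun a => rfl
    have e1 : ∀ a : Fin 2 → ℤ, ext2 a 1 = a 1 := fun a => rfl
    have e2 : ∀ a : Fin 2 → ℤ, ext2 a 2 = 0 := fun a => rfl
    have e3 : ∀ a : Fin 2 → ℤ, ext2 a 3 = 0 := fun a => rfl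
    rw [e0, e0, e1, e1, e2, e2, e3, e3, Int.abs_eq_natAbs, Int.abs_eq_natAbs]
    simp only [id]
    omega
  · exact Filter.tendsto_atTop_atTop.2 (fun b => ⟨2 * b, fun a ha => by omega⟩)
  · intro a b
    have h0 := Q_low S hS γ hγ (ext2 a) (ext2 b) 0
    have h1 := Q_low S hS γ hγ (ext2 a) (ext2 b) 1
    have e0 : ∀ a : Fin 2 → ℤ, ext2 a 0 = a 0 := fun a => rfl
    have e1 : ∀ a : Fin 2 → ℤ, ext2 a 1 = a 1 := fun a => rfl
    rw [e0, e0] at h0
    rw [e1, e1] at h1
    rw [Fin.sum_univ_two, Int.abs_eq_natAbs, Int.abs_eq_natAbs]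
    simp only
    omega
  · intro D
    set a0 : A4 T := fun i => γ (ext2 0 i) with ha0
    have hf0 : Q γ (ext2 0) = inr a0 := rfl
    have hdeep : ∀ (x : GG T) (z : Fin 2 → ℤ),
        (Multiplicative.toAdd (esum x.left)).natAbs = D + 1 →
        0 + D < (gr S).dist x (Q γ (ext2 z)) := by
      intro x z hx
      have h := esum_lip S hS x (Q γ (ext2 z))
      simp only [Q, left_inr, map_one, toAdd_one, sub_zero] at h
      rw [hx] at h
      simp only [Q]
      omega
    have hl : ∀ w : FreeGroup (A4 T), (inl w * inr a0 : GG T).left = w := by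
      intro w
      rw [mul_left, left_inl, left_inr, map_one, mul_one]
    refine ⟨inl (FreeGroup.of a0 ^ (D + 1)) * inr a0, inl ((FreeGroup.of a0 ^ (D + 1))⁻¹) * inr a0,
      fun z => hdeep _ z ?_, fun z => hdeep _ z ?_, ?_⟩
    · rw [hl]
      simp only [esum, map_pow, FreeGroup.lift_apply_of, toAdd_pow, toAdd_ofAdd, nsmul_eq_mul,
        mul_one]
      omega
    · rw [hl]
      simp only [esum, map_inv, map_pow, FreeGroup.lift_apply_of, toAdd_inv, toAdd_pow,
        toAdd_ofAdd, nsmul_eq_mul, mul_one]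
      omega
    · rintro ⟨p, hp⟩
      have h1 : ∀ w ∈ p.support, w ≠ inr a0 := by
        intro w hw e
        have := hp w hw 0
        change 0 < (gr S).dist w (Q γ (ext2 0)) at this
        rw [hf0, e, SimpleGraph.dist_self] at this
        omega
      have h2 := walk_branch S a0 p h1 (by
        rw [hl]
        simp only [last]
        rw [FreeGroup.toWord_inv, FreeGroup.toWord_of_pow]
        simp [FreeGroup.invRev, List.getLast?_replicate])
      rw [hl] at h2
      simp only [last, inv_inv] at h2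
      rw [FreeGroup.toWord_of_pow, List.getLast?_replicate] at h2
      simp at h2

end

/-- The negation of the preceding statement: For n>3 and G finitely generated with asymptotic dimension at least n, if a coarsely embedded copy of Z^(n-2) coarsely separates the Cayley graph, then G acts on a tree without inversions or fixed vertex with all edge stabilizers virtually Z^(n-2). -/
theorem result :
    ¬ (∀ (n : ℕ), 3 < n → ∀ (G : Type) [Group G] (S : Finset G),
      Subgroup.closure (S : Set G) = ⊤ →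
      ∀ Γ : SimpleGraph G, Γ = SimpleGraph.fromRel (fun g h : G => g⁻¹ * h ∈ S) →
      (¬ ∀ r : ℕ, ∃ (ι : Type) (U : ι → Set G) (D : ℕ),
          (∀ x : G, ∃ i, x ∈ U i) ∧
          (∀ i, ∀ x ∈ U i, ∀ y ∈ U i, Γ.dist x y ≤ D) ∧
          ∀ x : G, {i : ι | ∃ y ∈ U i, Γ.dist x y ≤ r}.encard ≤ (n : ℕ∞)) →
      (∃ f : (Fin (n - 2) → ℤ) → G,
          (∃ ρ : ℕ → ℕ, ∀ a b, Γ.dist (f a) (f b) ≤ ρ (∑ i, |a i - b i|).toNat) ∧
          (∃ ρ : ℕ → ℕ, Tendsto ρ atTop atTop ∧
              ∀ a b, ρ (∑ i, |a i - b i|).toNat ≤ Γ.dist (f a) (f b)) ∧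
          (∃ L : ℕ, ∀ D : ℕ, ∃ x y : G,
              (∀ z, L + D < Γ.dist x (f z)) ∧ (∀ z, L + D < Γ.dist y (f z)) ∧
              ¬ ∃ p : Γ.Walk x y, ∀ v ∈ p.support, ∀ z, L < Γ.dist v (f z))) →
      ∃ (T : Type) (Γt : SimpleGraph T) (ρ : G →* Equiv.Perm T),
        Γt.IsTree ∧
        (∀ g u v, Γt.Adj u v → Γt.Adj (ρ g u) (ρ g v)) ∧
        (∀ g u v, Γt.Adj u v → ¬ (ρ g u = v ∧ ρ g v = u)) ∧
        (∀ v, ∃ g, ρ g v ≠ v) ∧
        ∀ u v, Γt.Adj u v → ∀ H : Subgroup G, (∀ g, g ∈ H ↔ (ρ g u = u ∧ ρ g v = v)) →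
          ∃ K : Subgroup G, K ≤ H ∧ (K.subgroupOf H).index ≠ 0 ∧
            Nonempty (K ≃* Multiplicative (Fin (n - 2) → ℤ))) := by
  classical
  intro H
  obtain ⟨T, instT, S, hS, hinf, htor⟩ := Torsion.exists_inf_torsion
  obtain ⟨γ, hγ⟩ := Geod.exists_geodesic_line T S hS
  obtain ⟨X, Γt, ρ, htree, -, -, hmove, hstab⟩ := H 4 (by norm_num) (GG T) (gens S)
    (gens_closure S hS) (gr S) rfl (asdim_ge S hS γ hγ) (separation S hS γ hγ)
  -- the tree has an edge
  have hne : Nonempty X := htree.1.nonempty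
  obtain ⟨v0⟩ := hne
  obtain ⟨g, hg⟩ := hmove v0
  have hedge : ∀ w, w ≠ v0 → Γt.Walk v0 w → ∃ u, Γt.Adj v0 u := by
    intro w hw p
    cases p with
    | nil => exact absurd rfl hw
    | cons h q => exact ⟨_, h⟩
  obtain ⟨p⟩ := htree.1.preconnected v0 (ρ g v0)
  obtain ⟨u, hu⟩ := hedge _ hg p
  let St : Subgroup (GG T) :=
    { carrier := {g | ρ g v0 = v0 ∧ ρ g u = u}
      one_mem' := by simp
      mul_mem' := by
        rintro a b ⟨ha1, ha2⟩ ⟨hb1, hb2⟩
        exact ⟨by rw [map_mul, Equiv.Perm.mul_apply, hb1, ha1],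
          by rw [map_mul, Equiv.Perm.mul_apply, hb2, ha2]⟩
      inv_mem' := by
        rintro a ⟨ha1, ha2⟩
        exact ⟨by rw [map_inv, Equiv.Perm.inv_eq_iff_eq, ha1],
          by rw [map_inv, Equiv.Perm.inv_eq_iff_eq, ha2]⟩ }
  obtain ⟨K, -, -, hK⟩ := hstab v0 u hu St (fun g => Iff.rfl)
  exact NoZ2.no_free_abelian (A4 T) (A4 T) (fun a => IsOfFinOrder.pi (fun i => htor (a i)))
    (act (A4 T)) 2 le_rfl K hK

end Pool.Agent.S01792
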