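import Pool.Statements.S01795
import Pool.Agent.Helper851.Fin3

set_option autoImplicit false
open Pool Pool.MP_b21f3c_al

namespace Pool.Agent.S01795

/-- Among saturated subgroup-closed formations of finite groups that contain all supersoluble groups and in which joins of two normal supersoluble subgroups stay supersoluble, there is one containing all the others. -/
theorem result :
    ∀ (U : (G : Type) → [Group G] → Prop),
      (∀ (G : Type) [Group G], U G ↔
        ∃ (n : ℕ) (s : Fin (n + 1) → Subgroup G), s 0 = ⊥ ∧ s (Fin.last n) = ⊤ ∧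
          (∀ i, (s i).Normal) ∧
          ∀ i : Fin n, s i.castSucc ≤ s i.succ ∧
            ∃ g ∈ s i.succ, ∀ x ∈ s i.succ, ∃ k : ℤ, x * (g ^ k)⁻¹ ∈ s i.castSucc) →
      ∀ (Mem : ((G : Type) → [Group G] → Prop) → Prop),
        (∀ H : (G : Type) → [Group G] → Prop, Mem H ↔
          ((∀ (G G' : Type) [Group G] [Group G'], Finite G → Nonempty (G ≃* G') → H G → H G') ∧
           (∀ (G : Type) [Group G] [Finite G] (N : Subgroup G) [N.Normal], H G → H (G ⧸ N)) ∧
           (∀ (G : Type) [Group G] [Finite G] (N₁ N₂ : Subgroup G) [N₁.Normal] [N₂.Normal],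
              N₁ ⊓ N₂ = ⊥ → H (G ⧸ N₁) → H (G ⧸ N₂) → H G) ∧
           (∀ (G : Type) [Group G] [Finite G] (K : Subgroup G), H G → H ↥K) ∧
           (∀ (G : Type) [Group G] [Finite G], H (G ⧸ frattini G) → H G) ∧
           (∀ (G : Type) [Group G] [Finite G], U G → H G) ∧
           (∀ (G : Type) [Group G] [Finite G], H G → ∀ A B : Subgroup G, A.Normal → B.Normal →
              U ↥A → U ↥B → U ↥(A ⊔ B)))) →
        ∃ H : (G : Type) → [Group G] → Prop, Mem H ∧
          ∀ H' : (G : Type) → [Group G] → Prop, Mem H' →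
            ∀ (G : Type) [Group G] [Finite G], H' G → H G := by
  intro U hU Mem hMem
  have hUS : ∀ (G : Type) [Group G], U G ↔ Helper851.SS G := fun G _ =>
    (hU G).trans (Helper851.SS_iff G).symm
  have key : ∀ H : (G : Type) → [Group G] → Prop, Mem H ↔ Helper851.Cls H := by
    intro H
    rw [hMem H]
    constructor
    · rintro ⟨h1, h2, h3, h4, h5, h6, h7⟩
      exact
        { iso := h1
          quot := h2
          sdir := h3
          sub := h4
          sat := h5
          ss := fun G _ _ h => h6 G ((hUS G).mpr h)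
          rad := fun G _ _ hG A B hA hB hAs hBs =>
            (hUS _).mp (h7 G hG A B hA hB ((hUS _).mpr hAs) ((hUS _).mpr hBs)) }
    · intro h
      exact ⟨h.iso, h.quot, h.sdir, h.sub, h.sat, fun G _ _ hG => h.ss G ((hUS G).mp hG),
        fun G _ _ hG A B hA hB hAs hBs =>
          (hUS _).mpr (h.rad G hG A B hA hB ((hUS _).mp hAs) ((hUS _).mp hBs))⟩
  refine ⟨fun G _ => Helper851.H0 G, (key _).mpr Helper851.cls_H0, ?_⟩
  intro H' hH' G _ _ hG
  exact Helper851.maximality ((key H').mp hH') hG

end Pool.Agent.S01795
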