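import Pool.Statements.S01797

set_option autoImplicit false
open Pool Pool.MP_b2231e_al

namespace Pool.Agent.S01797

namespace FC

/-- point-cofinite separating family of normal subgroups of finite index -/
def SDF (Γ : Type) [Group Γ] : Prop :=
  ∃ (I : Type) (N : I → Subgroup Γ), (∀ i, (N i).Normal) ∧ (∀ i, (N i).FiniteIndex) ∧
    (∀ x, {i | x ∉ N i}.Finite) ∧ (∀ x, (∀ i, x ∈ N i) → x = 1)

theorem fi_comap {G G' : Type} [Group G] [Group G'] (f : G' →* G) (N : Subgroup G)
    (h : N.FiniteIndex) : (N.comap f).FiniteIndex := by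
  constructor
  rw [Subgroup.index_comap]
  exact (Subgroup.instFiniteIndex_subgroupOf N f.range).index_ne_zero

theorem SDF.comap {Γ Γ' : Type} [Group Γ] [Group Γ'] (φ : Γ' →* Γ) (hφ : Function.Injective φ)
    (h : SDF Γ) : SDF Γ' := by
  obtain ⟨I, N, h1, h2, h3, h4⟩ := h
  refine ⟨I, fun i => (N i).comap φ, fun i => ?_, fun i => ?_, fun x => ?_, fun x hx => ?_⟩
  · exact (h1 i).comap φ
  · exact fi_comap φ _ (h2 i)
  · exact h3 (φ x)
  · apply hφ
    rw [map_one]
    exact h4 _ (fun i => hx i)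

theorem SDF.toProd {Γ : Type} [Group Γ] (h : SDF Γ) :
    ∃ (ι : Type) (F : ι → Type) (inst : ∀ i, Group (F i)) (_ : ∀ i, Finite (F i))
        (f : Γ →* ((i : ι) → F i)),
        Function.Injective f ∧ ∀ x, {i : ι | f x i ≠ 1}.Finite := by
  obtain ⟨I, N, h1, h2, h3, h4⟩ := h
  have := h1
  have := h2
  refine ⟨I, fun i => Γ ⧸ N i, fun i => inferInstance, fun i => inferInstance,
    { toFun := fun x i => QuotientGroup.mk x
      map_one' := rfl
      map_mul' := fun x y => rfl }, ?_, ?_⟩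
  · rw [injective_iff_map_eq_one]
    intro x hx
    apply h4
    intro i
    have := congrFun hx i
    exact (QuotientGroup.eq_one_iff x).mp this
  · intro x
    refine (h3 x).subset ?_
    intro i hi hx
    exact hi ((QuotientGroup.eq_one_iff x).mpr hx)

/-- P. Hall: countable, locally normal, residually finite -/
theorem SDF.of_countable {Γ : Type} [Group Γ] [Countable Γ]
    (hLF : ∀ x : Γ, ∃ N : Subgroup Γ, N.Normal ∧ (N : Set Γ).Finite ∧ x ∈ N)
    (hRF : ∀ x : Γ, x ≠ 1 → ∃ N : Subgroup Γ, N.Normal ∧ N.FiniteIndex ∧ x ∉ N) : SDF Γ := by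
  classical
  obtain ⟨e, he⟩ := exists_surjective_nat Γ
  -- finite normal subgroups
  have hex : ∀ s : ℕ, ((Subgroup.normalClosure (e '' {k | k ≤ s}) : Subgroup Γ) : Set Γ).Finite := by
    intro s
    induction s with
    | zero =>
      obtain ⟨N, hN1, hN2, hN3⟩ := hLF (e 0)
      refine hN2.subset ?_
      apply Subgroup.normalClosure_le_normal
      rintro _ ⟨k, hk, rfl⟩
      have : k = 0 := by simpa using hk
      subst this
      exact hN3
    | succ s ih =>
      obtain ⟨N, hN1, hN2, hN3⟩ := hLF (e (s+1))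
      have hfin : (((Subgroup.normalClosure (e '' {k | k ≤ s}) ⊔ N : Subgroup Γ)) : Set Γ).Finite := by
        rw [Subgroup.mul_normal]
        exact ih.mul hN2
      refine hfin.subset ?_
      apply Subgroup.normalClosure_le_normal
      rintro _ ⟨k, hk, rfl⟩
      have hk' : k ≤ s + 1 := hk
      rcases Nat.lt_or_ge s k with h | h
      · have : k = s + 1 := by omega
        subst this
        exact Subgroup.mem_sup_right hN3
      · exact Subgroup.mem_sup_left (Subgroup.subset_normalClosure ⟨k, h, rfl⟩)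
  set D : ℕ → Subgroup Γ := fun s => Subgroup.normalClosure (e '' {k | k ≤ s}) with hD
  have hDmono : Monotone D := by
    intro a b hab
    apply Subgroup.normalClosure_mono
    apply Set.image_mono
    intro k hk
    exact le_trans hk hab
  have hDe : ∀ n m, n ≤ m → e n ∈ D m := by
    intro n m hnm
    exact Subgroup.subset_normalClosure ⟨n, hnm, rfl⟩
  -- complements
  have hN : ∀ n, ∃ N : Subgroup Γ, N.Normal ∧ N.FiniteIndex ∧ ∀ x ∈ D n, x ∈ N → x = 1 := by
    intro n
    have : ∀ x : Γ, ∃ N : Subgroup Γ, N.Normal ∧ N.FiniteIndex ∧ (x ≠ 1 → x ∉ N) := by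
      intro x
      by_cases hx : x = 1
      · exact ⟨⊤, inferInstance, inferInstance, fun h => absurd hx h⟩
      · obtain ⟨N, h1, h2, h3⟩ := hRF x hx
        exact ⟨N, h1, h2, fun _ => h3⟩
    choose M hM1 hM2 hM3 using this
    have : Finite (D n) := (hex n).to_subtype
    refine ⟨⨅ x : D n, M x, ?_, ?_, ?_⟩
    · have := hM1
      exact Subgroup.normal_iInf_normal (fun x => hM1 _)
    · have := hM2
      exact Subgroup.finiteIndex_iInf (fun x => hM2 _)
    · intro x hx hxN
      by_contra hne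
      have := (Subgroup.mem_iInf.mp hxN) ⟨x, hx⟩
      exact hM3 x hne this
  choose N hN1 hN2 hN3 using hN
  let L : ℕ → Subgroup Γ := fun n => match n with
    | 0 => N 0
    | (n+1) => D n ⊔ N (n+1)
  refine ⟨ℕ, L, ?_, ?_, ?_, ?_⟩
  · intro n
    cases n with
    | zero => exact hN1 0
    | succ n =>
      have := hN1 (n+1)
      show (D n ⊔ N (n+1)).Normal
      have : (D n).Normal := Subgroup.normalClosure_normal
      infer_instance
  · intro n
    cases n with
    | zero => exact hN2 0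
    | succ n =>
      have := hN2 (n+1)
      show (D n ⊔ N (n+1)).FiniteIndex
      exact Subgroup.finiteIndex_of_le (le_sup_right : N (n+1) ≤ _)
  · intro x
    obtain ⟨m, rfl⟩ := he x
    refine (Set.finite_Iic m).subset ?_
    intro n hn
    by_contra hlt
    apply hn
    simp only [Set.mem_Iic, not_le] at hlt
    obtain ⟨k, rfl⟩ : ∃ k, n = k + 1 := ⟨n - 1, by omega⟩
    exact Subgroup.mem_sup_left (hDe m k (by omega))
  · intro x hx
    by_contra hne
    obtain ⟨m, rfl⟩ := he x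
    have hex2 : ∃ k, e m ∈ D k := ⟨m, hDe m m le_rfl⟩
    classical
    have hspec := Nat.find_spec hex2
    have hmin := fun k => Nat.find_min hex2 (m := k)
    set k := Nat.find hex2 with hk
    rcases Nat.eq_zero_or_pos k with h0 | hpos
    · have h1 := hx 0
      rw [h0] at hspec
      exact hne (hN3 0 _ hspec h1)
    · obtain ⟨j, hj⟩ : ∃ j, k = j + 1 := ⟨k - 1, by omega⟩
      have h1 : e m ∈ D j ⊔ N (j+1) := hx (j+1)
      have := hN1 (j+1)
      rw [Subgroup.mem_sup_of_normal_right] at h1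
      obtain ⟨d, hd, y, hy, hdy⟩ := h1
      have hyD : y ∈ D (j+1) := by
        have : y = d⁻¹ * e m := by rw [← hdy]; group
        rw [this]
        exact mul_mem (inv_mem (hDmono (Nat.le_succ j) hd)) (hj ▸ hspec)
      have hy1 := hN3 (j+1) y hyD hy
      rw [hy1, mul_one] at hdy
      apply hmin j (by omega)
      rw [← hdy]
      exact hd

section chain

variable {Γ ι : Type} [Group Γ] [LinearOrder ι] [WellFoundedLT ι]
  (Q : ι → Subgroup Γ) (ρ : ι → Γ →* Γ)

/-- `Tr Q ρ i x y` : the iterated retraction of `x` into `Q i` is `y` -/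
inductive Tr (i : ι) : Γ → Γ → Prop
  | base (x : Γ) : x ∈ Q i → Tr i x x
  | step (b : ι) (x y : Γ) : i < b → x ∈ Q b → Tr i (ρ b x) y → Tr i x y

variable {Q ρ}

theorem Tr.mem {i : ι} {x y : Γ} (h : Tr Q ρ i x y) : y ∈ Q i := by
  induction h with
  | base x hx => exact hx
  | step b x y _ _ _ ih => exact ih

/-- the hypotheses on the chain -/
structure Chain (Q : ι → Subgroup Γ) (ρ : ι → Γ →* Γ) : Prop where
  mono : ∀ i j, i ≤ j → Q i ≤ Q j
  range : ∀ i x, ρ i x = 1 ∨ ∃ j < i, ρ i x ∈ Q j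
  fix : ∀ i x, (∃ j < i, x ∈ Q j) → ρ i x = x

theorem Tr.base_eq (hc : Chain Q ρ) {i : ι} {x y : Γ} (h : Tr Q ρ i x y) (hx : x ∈ Q i) :
    y = x := by
  induction h with
  | base x _ => rfl
  | step b x y hb _ _ ih =>
    have := hc.fix b x ⟨i, hb, hx⟩
    rw [this] at ih
    exact ih hx

theorem Tr.red (hc : Chain Q ρ) {i : ι} {x y : Γ} (h : Tr Q ρ i x y) :
    ∀ b, i < b → x ∈ Q b → Tr Q ρ i (ρ b x) y := by
  induction h with
  | base x hx =>
    intro b hb _
    rw [hc.fix b x ⟨i, hb, hx⟩]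
    exact Tr.base x hx
  | step b' x y hb' hxb' h ih =>
    intro b hb hxb
    rcases lt_trichotomy b' b with hlt | heq | hgt
    · rw [hc.fix b x ⟨b', hlt, hxb'⟩]
      exact Tr.step b' x y hb' hxb' h
    · subst heq
      exact h
    · have h2 := hc.fix b' x ⟨b, hgt, hxb⟩
      rw [h2] at ih
      exact ih b hb hxb

theorem Tr.total (hc : Chain Q ρ) (i : ι) : ∀ b x, x ∈ Q b → ∃ y, Tr Q ρ i x y := by
  intro b
  induction b using WellFoundedLT.induction with
  | ind b ih =>
    intro x hx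
    rcases le_or_gt b i with h | h
    · exact ⟨x, Tr.base x (hc.mono _ _ h hx)⟩
    · rcases hc.range b x with h1 | ⟨j, hj, hxj⟩
      · refine ⟨1, Tr.step b x 1 h hx ?_⟩
        rw [h1]
        exact Tr.base 1 (one_mem _)
      · obtain ⟨y, hy⟩ := ih j hj _ hxj
        exact ⟨y, Tr.step b x y h hx hy⟩

theorem Tr.uniq (hc : Chain Q ρ) (i : ι) : ∀ b x y y', x ∈ Q b → Tr Q ρ i x y → Tr Q ρ i x y' →
    y = y' := by
  intro b
  induction b using WellFoundedLT.induction with
  | ind b ih =>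
    intro x y y' hx h h'
    rcases le_or_gt b i with hbi | hbi
    · have hxi := hc.mono _ _ hbi hx
      rw [h.base_eq hc hxi, h'.base_eq hc hxi]
    · have h1 := h.red hc b hbi hx
      have h2 := h'.red hc b hbi hx
      rcases hc.range b x with h3 | ⟨j, hj, hxj⟩
      · rw [h3] at h1 h2
        rw [h1.base_eq hc (one_mem _), h2.base_eq hc (one_mem _)]
      · exact ih j hj _ y y' hxj h1 h2

theorem Tr.mul (hc : Chain Q ρ) (i : ι) : ∀ b x x' y y', x ∈ Q b → x' ∈ Q b →
    Tr Q ρ i x y → Tr Q ρ i x' y' → Tr Q ρ i (x * x') (y * y') := by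
  intro b
  induction b using WellFoundedLT.induction with
  | ind b ih =>
    intro x x' y y' hx hx' h h'
    rcases le_or_gt b i with hbi | hbi
    · have hxi := hc.mono _ _ hbi hx
      have hxi' := hc.mono _ _ hbi hx'
      rw [h.base_eq hc hxi, h'.base_eq hc hxi']
      exact Tr.base _ (mul_mem hxi hxi')
    · have h1 := h.red hc b hbi hx
      have h2 := h'.red hc b hbi hx'
      refine Tr.step b _ _ hbi (mul_mem hx hx') ?_
      rw [map_mul]
      rcases hc.range b x with h3 | ⟨j, hj, hxj⟩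
      · have hy : y = 1 := by
          rw [h3] at h1
          exact h1.base_eq hc (one_mem _)
        rw [hy, h3, one_mul, one_mul]
        exact h2
      · rcases hc.range b x' with h3' | ⟨j', hj', hxj'⟩
        · have hy : y' = 1 := by
            rw [h3'] at h2
            exact h2.base_eq hc (one_mem _)
          rw [hy, h3', mul_one, mul_one]
          exact h1
        · refine ih (max j j') (max_lt hj hj') _ _ _ _ (hc.mono _ _ (le_max_left _ _) hxj)
            (hc.mono _ _ (le_max_right _ _) hxj') h1 h2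

theorem Tr.finite (hc : Chain Q ρ) : ∀ b x, x ∈ Q b →
    {i | ∃ y, Tr Q ρ i x y ∧ ¬ (y = 1 ∨ ∃ j < i, y ∈ Q j)}.Finite := by
  intro b
  induction b using WellFoundedLT.induction with
  | ind b ih =>
    intro x hx
    have key : {i | ∃ y, Tr Q ρ i x y ∧ ¬ (y = 1 ∨ ∃ j < i, y ∈ Q j)} ⊆
        {b} ∪ {i | ∃ y, Tr Q ρ i (ρ b x) y ∧ ¬ (y = 1 ∨ ∃ j < i, y ∈ Q j)} := by
      rintro i ⟨y, hy, hn⟩
      rcases lt_trichotomy i b with h | h | h
      · right
        exact ⟨y, hy.red hc b h hx, hn⟩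
      · left
        exact h
      · exfalso
        apply hn
        right
        refine ⟨b, h, ?_⟩
        rw [hy.base_eq hc (hc.mono _ _ h.le hx)]
        exact hx
    refine Set.Finite.subset ((Set.finite_singleton b).union ?_) key
    rcases hc.range b x with h1 | ⟨j, hj, hxj⟩
    · rw [h1]
      refine Set.Finite.subset Set.finite_empty ?_
      rintro i ⟨y, hy, hn⟩
      exact (hn (Or.inl (hy.base_eq hc (one_mem _)))).elim
    · exact ih j hj _ hxj

theorem SDF.of_chain (hc : Chain Q ρ) (P : Subgroup Γ) (hP : ∀ x, x ∈ P ↔ ∃ i, x ∈ Q i)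
    (hn : ∀ i, (Q i).Normal) (hS : ∀ i, SDF (Q i)) : SDF P := by
  classical
  -- projections
  have hex : ∀ (i : ι) (x : P), ∃ y, Tr Q ρ i x.1 y := by
    intro i x
    obtain ⟨b, hb⟩ := (hP x.1).mp x.2
    exact Tr.total hc i b x.1 hb
  choose f hf using hex
  have hcommon : ∀ x y : P, ∃ b, x.1 ∈ Q b ∧ y.1 ∈ Q b := by
    intro x y
    obtain ⟨b, hb⟩ := (hP x.1).mp x.2
    obtain ⟨c, hcc⟩ := (hP y.1).mp y.2
    exact ⟨max b c, hc.mono _ _ (le_max_left _ _) hb, hc.mono _ _ (le_max_right _ _) hcc⟩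
  have hfmul : ∀ i x y, f i (x * y) = f i x * f i y := by
    intro i x y
    obtain ⟨b, hx, hy⟩ := hcommon x y
    exact Tr.uniq hc i b (x.1 * y.1) _ _ (mul_mem hx hy) (hf i (x * y))
      (Tr.mul hc i b _ _ _ _ hx hy (hf i x) (hf i y))
  let π : ∀ i, P →* Q i := fun i => MonoidHom.mk' (fun x => ⟨f i x, (hf i x).mem⟩) (by
    intro x y
    apply Subtype.ext
    exact hfmul i x y)
  -- complementary projection
  have hρmem : ∀ i x, ρ i x ∈ Q i := by
    intro i x
    rcases hc.range i x with h | ⟨j, hj, h⟩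
    · rw [h]; exact one_mem _
    · exact hc.mono _ _ hj.le h
  have hρρ : ∀ i x, ρ i (ρ i x) = ρ i x := by
    intro i x
    rcases hc.range i x with h | ⟨j, hj, h⟩
    · rw [h, map_one]
    · exact hc.fix i _ ⟨j, hj, h⟩
  -- range of ρ i is normal
  have hρnorm : ∀ i x y, ρ i (y * ρ i x * y⁻¹) = y * ρ i x * y⁻¹ := by
    intro i x y
    rcases hc.range i x with h | ⟨j, hj, h⟩
    · rw [h]; simp
    · exact hc.fix i _ ⟨j, hj, (hn j).conj_mem _ h y⟩
  have hcomm : ∀ i x y, (x * (ρ i x)⁻¹) * ρ i y = ρ i y * (x * (ρ i x)⁻¹) := by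
    intro i x y
    -- commutator lies in both
    set u := x * (ρ i x)⁻¹ with hu
    have hu1 : ρ i u = 1 := by
      rw [hu, map_mul, map_inv, hρρ, mul_inv_cancel]
    have h1 := hρnorm i y u
    rw [map_mul, map_mul, map_inv, hu1, hρρ] at h1
    rw [one_mul, inv_one, mul_one] at h1
    calc u * ρ i y = (u * ρ i y * u⁻¹) * u := by group
      _ = ρ i y * u := by rw [← h1]
  let ν : ∀ i, Q i →* Q i := fun i => MonoidHom.mk' (fun x => ⟨x.1 * (ρ i x.1)⁻¹,
      mul_mem x.2 (inv_mem (hρmem i _))⟩) (by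
    intro x y
    apply Subtype.ext
    show (x.1 * y.1) * (ρ i (x.1 * y.1))⁻¹ = (x.1 * (ρ i x.1)⁻¹) * (y.1 * (ρ i y.1)⁻¹)
    rw [map_mul, mul_inv_rev]
    have h1 := hcomm i y.1 x.1⁻¹
    rw [map_inv] at h1
    calc (x.1 * y.1) * ((ρ i y.1)⁻¹ * (ρ i x.1)⁻¹) = x.1 * ((y.1 * (ρ i y.1)⁻¹) * (ρ i x.1)⁻¹) := by
          group
      _ = x.1 * ((ρ i x.1)⁻¹ * (y.1 * (ρ i y.1)⁻¹)) := by rw [h1]
      _ = _ := by group)
  choose I N h1 h2 h3 h4 using hS
  have hνker : ∀ i (x : Q i), (x.1 = 1 ∨ ∃ j < i, x.1 ∈ Q j) ↔ ν i x = 1 := by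
    intro i x
    constructor
    · intro h
      apply Subtype.ext
      show x.1 * (ρ i x.1)⁻¹ = 1
      rcases h with h | h
      · rw [h]; simp
      · rw [hc.fix i _ h]; simp
    · intro h
      have h' : x.1 * (ρ i x.1)⁻¹ = 1 := congrArg Subtype.val h
      have h'' : x.1 = ρ i x.1 := by
        rwa [mul_inv_eq_one] at h'
      rcases hc.range i x.1 with h5 | h5
      · left; rw [h'', h5]
      · right; rw [h'']; exact h5
  refine ⟨Σ i, I i, fun p => (N p.1 p.2).comap ((ν p.1).comp (π p.1)), fun p => ?_, fun p => ?_,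
    fun x => ?_, fun x hx => ?_⟩
  · exact (h1 p.1 p.2).comap _
  · exact fi_comap _ _ (h2 p.1 p.2)
  · obtain ⟨b, hb⟩ := (hP x.1).mp x.2
    have hfin := Tr.finite hc b x.1 hb
    have : {p : Σ i, I i | x ∉ (N p.1 p.2).comap ((ν p.1).comp (π p.1))} ⊆
        ⋃ i ∈ {i | ∃ y, Tr Q ρ i x.1 y ∧ ¬ (y = 1 ∨ ∃ j < i, y ∈ Q j)},
          (fun l => (⟨i, l⟩ : Σ i, I i)) '' {l | ν i (π i x) ∉ N i l} := by
      rintro ⟨i, l⟩ hp
      simp only [Set.mem_iUnion]
      refine ⟨i, ⟨f i x, hf i x, ?_⟩, ⟨l, hp, rfl⟩⟩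
      intro hcon
      apply hp
      show ν i (π i x) ∈ N i l
      have : ν i (π i x) = 1 := (hνker i (π i x)).mp hcon
      rw [this]
      exact one_mem _
    refine Set.Finite.subset (Set.Finite.biUnion hfin ?_) this
    intro i _
    exact (h3 i (ν i (π i x))).image _
  · by_contra hne
    obtain ⟨b, hb⟩ := (hP x.1).mp x.2
    have hne' : {i | x.1 ∈ Q i}.Nonempty := ⟨b, hb⟩
    obtain ⟨i, himem, himin'⟩ := (wellFounded_lt (α := ι)).has_min {i | x.1 ∈ Q i} hne'
    have himem : x.1 ∈ Q i := himem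
    have himin : ∀ j < i, x.1 ∉ Q j := fun j hj hm => himin' j hm hj
    have hπ : π i x = ⟨x.1, himem⟩ := by
      apply Subtype.ext
      exact (hf i x).base_eq hc himem
    have h5 : ν i (π i x) = 1 := h4 i _ (fun l => hx ⟨i, l⟩)
    rw [hπ, ← hνker] at h5
    rcases h5 with h5 | ⟨j, hj, h5⟩
    · exact hne (Subtype.ext h5)
    · exact himin j hj h5

end chain

section card

open Cardinal

section closure

variable {Ω : Type} (F : Finset Ω → Set Ω)

/-- closed under the finitary operation `F` -/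
def Closed (C : Set Ω) : Prop := ∀ s : Finset Ω, ↑s ⊆ C → F s ⊆ C

/-- the closure -/
def cl (A : Set Ω) : Set Ω := ⋂₀ {C | Closed F C ∧ A ⊆ C}

variable {F}

theorem subset_cl (A : Set Ω) : A ⊆ cl F A := by
  intro x hx C hC
  exact hC.2 hx

theorem cl_closed (A : Set Ω) : Closed F (cl F A) := by
  intro s hs x hx C hC
  exact hC.1 s (fun y hy => hs hy C hC) hx

theorem cl_min {A C : Set Ω} (hC : Closed F C) (hA : A ⊆ C) : cl F A ⊆ C := by
  intro x hx
  exact hx C ⟨hC, hA⟩

theorem mk_finset_le (α : Type) : #(Finset α) ≤ max ℵ₀ #α := by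
  cases finite_or_infinite α with
  | inl h => exact le_max_of_le_left (le_of_lt (lt_aleph0_of_finite _))
  | inr h => rw [mk_finset_of_infinite]; exact le_max_right _ _

/-- one step of the closure -/
def stepC (F : Finset Ω → Set Ω) (S : Set Ω) : Set Ω :=
  S ∪ ⋃ s : Finset S, F (s.map (Function.Embedding.subtype (· ∈ S)))

/-- the iterated steps -/
def itC (F : Finset Ω → Set Ω) (A : Set Ω) : ℕ → Set Ω
  | 0 => A
  | (n+1) => stepC F (itC F A n)

theorem mk_cl_le (hF : ∀ s, (F s).Countable) (A : Set Ω) : #(cl F A) ≤ max ℵ₀ #A := by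
  set κ := max ℵ₀ #A with hκ
  have hB0 : itC F A 0 = A := rfl
  have hBs : ∀ n, itC F A (n+1) = stepC F (itC F A n) := fun n => rfl
  generalize itC F A = B at hB0 hBs
  have hBmono : Monotone B := by
    apply monotone_nat_of_le_succ
    intro n
    rw [hBs, stepC]
    exact Set.subset_union_left
  have hcard : ∀ n, #(B n) ≤ κ := by
    intro n
    induction n with
    | zero => rw [hB0]; exact le_max_right _ _
    | succ n ih =>
      rw [hBs, stepC]
      refine (mk_union_le _ _).trans ?_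
      have h1 : #(⋃ s : Finset (B n), F (s.map (Function.Embedding.subtype (· ∈ B n)))) ≤ κ := by
        refine (mk_iUnion_le _).trans ?_
        have h2 : #(Finset (B n)) ≤ κ :=
          (mk_finset_le _).trans (max_le (le_max_left _ _) ih)
        have h3 : (⨆ s : Finset (B n), #(F (s.map (Function.Embedding.subtype (· ∈ B n))))) ≤ ℵ₀ := by
          apply ciSup_le'
          intro s
          rw [le_aleph0_iff_set_countable]
          exact hF _
        calc _ ≤ κ * κ := mul_le_mul' h2 (h3.trans (le_max_left _ _))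
          _ = κ := mul_eq_self (le_max_left _ _)
      calc _ ≤ κ + κ := add_le_add ih h1
        _ = κ := add_eq_self (le_max_left _ _)
  have hUclosed : Closed F (⋃ n, B n) := by
    intro s hs
    have : ∃ n, ↑s ⊆ B n := by
      exact (hBmono.directed_le).exists_mem_subset_of_finset_subset_biUnion hs
    obtain ⟨n, hn⟩ := this
    intro x hx
    refine Set.mem_iUnion.mpr ⟨n+1, ?_⟩
    rw [hBs, stepC]
    right
    classical
    refine Set.mem_iUnion.mpr ⟨s.subtype (· ∈ B n), ?_⟩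
    have : (s.subtype (· ∈ B n)).map (Function.Embedding.subtype _) = s := by
      rw [Finset.subtype_map]
      exact Finset.filter_true_of_mem (fun x hx => hn hx)
    rw [this]
    exact hx
  have hle : cl F A ⊆ ⋃ n, B n := cl_min hUclosed (by
    have := Set.subset_iUnion B 0
    rwa [hB0] at this)
  refine (mk_le_mk_of_subset hle).trans ?_
  refine (mk_iUnion_le _).trans ?_
  have h3 : (⨆ n, #(B n)) ≤ κ := ciSup_le' hcard
  calc _ ≤ κ * κ := mul_le_mul' (by rw [mk_nat]; exact le_max_left _ _) h3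
    _ = κ := mul_eq_self (le_max_left _ _)

end closure

theorem SDF.of_system {Γ Ω : Type} [Group Γ] (F : Finset Ω → Set Ω) (hF : ∀ s, (F s).Countable)
    (P : Set Ω → Subgroup Γ)
    (hn : ∀ C, Closed F C → (P C).Normal)
    (hmono : ∀ C C', C ⊆ C' → P C ≤ P C')
    (hfin : ∀ C, Closed F C → ∀ x ∈ P C, ∃ s : Finset Ω, ↑s ⊆ C ∧
      ∀ C', Closed F C' → ↑s ⊆ C' → x ∈ P C')
    (hρ : ∀ C, Closed F C → ∃ ρ : Γ →* Γ, (∀ x, ρ x ∈ P C) ∧ ∀ x ∈ P C, ρ x = x)
    (hbase : ∀ C, Closed F C → C.Countable → SDF (P C)) :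
    ∀ C, Closed F C → SDF (P C) := by
  classical
  suffices h : ∀ κ : Cardinal.{0}, ∀ C, Closed F C → #C = κ → SDF (P C) from
    fun C hC => h _ C hC rfl
  intro κ
  induction κ using WellFoundedLT.induction with
  | ind κ ih =>
    intro C hC hκ
    rcases le_or_gt κ ℵ₀ with hle | hgt
    · apply hbase C hC
      rw [← le_aleph0_iff_set_countable, hκ]
      exact hle
    · obtain ⟨_, _, hord⟩ := exists_ord_eq_type_lt C
      let D : C → Set Ω := fun i => cl F (Subtype.val '' Set.Iic i)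
      have hDclosed : ∀ i, Closed F (D i) := fun i => cl_closed _
      have hDC : ∀ i, D i ⊆ C := fun i => cl_min hC (by rintro _ ⟨x, _, rfl⟩; exact x.2)
      have hDmem : ∀ i : C, i.1 ∈ D i := fun i => subset_cl _ ⟨i, le_refl i, rfl⟩
      have hDmono : ∀ i j, i ≤ j → D i ⊆ D j := by
        intro i j hij
        apply cl_min (hDclosed j)
        refine subset_trans (Set.image_mono ?_) (subset_cl _)
        exact Set.Iic_subset_Iic.mpr hij
      have hDcard : ∀ i, #(D i) < κ := by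
        intro i
        refine (mk_cl_le hF _).trans_lt ?_
        apply max_lt hgt
        refine (mk_image_le).trans_lt ?_
        rw [← hκ]
        exact mk_Iic_lt i hord (by rw [hκ]; exact hgt.le)
      -- union of the smaller ones
      have hQ' : ∀ i : C, (∃ j, j < i) → ∃ E, Closed F E ∧ ∀ x, x ∈ P E ↔ ∃ j < i, x ∈ P (D j) := by
        rintro i ⟨j0, hj0⟩
        have hcl : Closed F (⋃ j : {j // j < i}, D j) := by
          intro s hs
          have : ∃ j : {j // j < i}, ↑s ⊆ D j := by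
            have hdir : Directed (· ⊆ ·) (fun j : {j // j < i} => D j) := by
              intro a b
              refine ⟨⟨max a.1 b.1, max_lt a.2 b.2⟩, hDmono _ _ (le_max_left _ _),
                hDmono _ _ (le_max_right _ _)⟩
            have : Nonempty {j // j < i} := ⟨⟨j0, hj0⟩⟩
            exact hdir.exists_mem_subset_of_finset_subset_biUnion hs
          obtain ⟨j, hj⟩ := this
          exact (hDclosed j s hj).trans (Set.subset_iUnion (fun j : {j // j < i} => D j) j)
        refine ⟨_, hcl, fun x => ⟨fun hx => ?_, fun ⟨j, hj, hx⟩ => ?_⟩⟩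
        · obtain ⟨s, hs, hs'⟩ := hfin _ hcl x hx
          have : ∃ j : {j // j < i}, ↑s ⊆ D j := by
            have hdir : Directed (· ⊆ ·) (fun j : {j // j < i} => D j) := by
              intro a b
              refine ⟨⟨max a.1 b.1, max_lt a.2 b.2⟩, hDmono _ _ (le_max_left _ _),
                hDmono _ _ (le_max_right _ _)⟩
            have : Nonempty {j // j < i} := ⟨⟨j0, hj0⟩⟩
            exact hdir.exists_mem_subset_of_finset_subset_biUnion hs
          obtain ⟨j, hj⟩ := this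
          exact ⟨j.1, j.2, hs' _ (hDclosed _) hj⟩
        · exact hmono _ _ (Set.subset_iUnion (fun j : {j // j < i} => D j) ⟨j, hj⟩) hx
      have hρ' : ∀ i : C, ∃ ρ : Γ →* Γ, (∀ x, ρ x = 1 ∨ ∃ j < i, ρ x ∈ P (D j)) ∧
          ∀ x, (∃ j < i, x ∈ P (D j)) → ρ x = x := by
        intro i
        by_cases hi : ∃ j, j < i
        · obtain ⟨E, hE, hE'⟩ := hQ' i hi
          obtain ⟨ρ, h1, h2⟩ := hρ E hE
          exact ⟨ρ, fun x => Or.inr ((hE' _).mp (h1 x)), fun x hx => h2 x ((hE' _).mpr hx)⟩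
        · refine ⟨1, fun x => Or.inl rfl, fun x hx => ?_⟩
          obtain ⟨j, hj, _⟩ := hx
          exact absurd ⟨j, hj⟩ hi
      choose ρ hρ1 hρ2 using hρ'
      have hc : Chain (fun i => P (D i)) ρ :=
        { mono := fun i j hij => hmono _ _ (hDmono i j hij)
          range := hρ1
          fix := hρ2 }
      refine SDF.of_chain hc (P C) ?_ (fun i => hn _ (hDclosed i))
        (fun i => ih _ (hDcard i) _ (hDclosed i) rfl)
      intro x
      constructor
      · intro hx
        obtain ⟨s, hs, hs'⟩ := hfin C hC x hx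
        have : ∃ j : C, ↑s ⊆ D j := by
          have hdir : Directed (· ⊆ ·) D := by
            intro a b
            exact ⟨max a b, hDmono _ _ (le_max_left _ _), hDmono _ _ (le_max_right _ _)⟩
          have : Nonempty C := by
            rw [← mk_ne_zero_iff, hκ]
            exact (aleph0_pos.trans hgt).ne'
          have hsub : (s : Set Ω) ⊆ ⋃ j, D j := by
            intro y hy
            exact Set.mem_iUnion.mpr ⟨⟨y, hs hy⟩, hDmem _⟩
          exact hdir.exists_mem_subset_of_finset_subset_biUnion hsub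
        obtain ⟨j, hj⟩ := this
        exact ⟨j, hs' _ (hDclosed j) hj⟩
      · rintro ⟨i, hi⟩
        exact hmono _ _ (hDC i) hi

end card

section li0

open scoped commutatorElement

section li

variable {G : Type} [Group G]

/-- locally inner maps -/
def LI (f : G → G) : Prop := ∀ s : Finset G, ∃ c : G, ∀ g ∈ s, f g = c⁻¹ * g * c

/-- displacement -/
def dl (x : MulAut G) (g : G) : G := g⁻¹ * x g

theorem dl_eq (x : MulAut G) (g : G) : x g = g * dl x g := by
  unfold dl; group

theorem dl_mul (x y : MulAut G) (g : G) : dl (x * y) g = dl x g * x (dl y g) := by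
  unfold dl
  rw [MulAut.mul_apply, map_mul, map_inv]
  group

theorem dl_inv (x : MulAut G) (g : G) : dl x⁻¹ g = (dl x (x⁻¹ g))⁻¹ := by
  unfold dl
  rw [MulAut.apply_inv_self]
  group

/-- finitary locally inner automorphisms -/
def XX (G : Type) [Group G] : Subgroup (MulAut G) where
  carrier := {x | LI (x : G → G) ∧ (Set.range (dl x)).Finite}
  one_mem' := by
    refine ⟨fun s => ⟨1, fun g _ => by simp⟩, ?_⟩
    refine (Set.finite_singleton (1 : G)).subset ?_
    rintro _ ⟨g, rfl⟩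
    simp [dl]
  mul_mem' := by
    rintro x y ⟨hx, hx'⟩ ⟨hy, hy'⟩
    classical
    constructor
    · intro s
      obtain ⟨c, hc⟩ := hy s
      obtain ⟨d, hd⟩ := hx (s.image y)
      refine ⟨c * d, fun g hg => ?_⟩
      rw [MulAut.mul_apply, hd _ (Finset.mem_image_of_mem _ hg), hc g hg]
      group
    · refine (hx'.mul (hy'.image x)).subset ?_
      rintro _ ⟨g, rfl⟩
      rw [dl_mul]
      exact Set.mul_mem_mul ⟨g, rfl⟩ ⟨_, ⟨g, rfl⟩, rfl⟩
  inv_mem' := by
    rintro x ⟨hx, hx'⟩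
    classical
    constructor
    · intro s
      obtain ⟨c, hc⟩ := hx (s.image (x⁻¹ : MulAut G))
      refine ⟨c⁻¹, fun g hg => ?_⟩
      have := hc _ (Finset.mem_image_of_mem _ hg)
      rw [MulAut.apply_inv_self] at this
      nth_rw 2 [this]
      group
    · refine (hx'.inv).subset ?_
      rintro _ ⟨g, rfl⟩
      rw [dl_inv]
      exact Set.inv_mem_inv.mpr ⟨_, rfl⟩

theorem LI.center {x : MulAut G} (hx : LI (x : G → G)) {z : G} (hz : z ∈ Subgroup.center G) :
    x z = z := by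
  obtain ⟨c, hc⟩ := hx {z}
  rw [hc z (by simp), mul_assoc, ← Subgroup.mem_center_iff.mp hz c]
  group

theorem LI.normal {x : MulAut G} (hx : LI (x : G → G)) {N : Subgroup G} (hN : N.Normal) {g : G}
    (hg : g ∈ N) : x g ∈ N := by
  obtain ⟨c, hc⟩ := hx {g}
  rw [hc g (by simp)]
  have := hN.conj_mem g hg c⁻¹
  simpa using this

theorem LI.dl_comm {x : MulAut G} (hx : LI (x : G → G)) (g : G) : dl x g ∈ commutator G := by
  obtain ⟨c, hc⟩ := hx {g}
  unfold dl
  rw [hc g (by simp)]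
  have : g⁻¹ * (c⁻¹ * g * c) = ⁅g⁻¹, c⁻¹⁆ := by
    rw [commutatorElement_def]; group
  rw [this]
  exact Subgroup.commutator_mem_commutator (Subgroup.mem_top _) (Subgroup.mem_top _)

theorem LI.dl_normal {x : MulAut G} (hx : LI (x : G → G)) {N : Subgroup G} (hN : N.Normal) {g : G}
    (hg : g ∈ N) : dl x g ∈ N := mul_mem (inv_mem hg) (hx.normal hN hg)

/-- finite conjugacy classes -/
def FCG (G : Type) [Group G] : Prop := ∀ g : G, {h : G | IsConj g h}.Finite

theorem FCG.fin (hFC : FCG G) (g : G) : {u | ∃ c, u = c⁻¹ * g * c}.Finite := by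
  refine (hFC g).subset ?_
  rintro _ ⟨c, rfl⟩
  show IsConj g _
  rw [isConj_iff]
  exact ⟨c⁻¹, by simp⟩

theorem conj_mem_XX (hFC : FCG G) (c : G) : MulAut.conj c ∈ XX G := by
  constructor
  · intro s
    exact ⟨c⁻¹, fun g _ => by simp⟩
  · refine ((hFC.fin c).image (fun u => u * c⁻¹)).subset ?_
    rintro _ ⟨g, rfl⟩
    refine ⟨g⁻¹ * c * g, ⟨g, rfl⟩, ?_⟩
    simp only [dl, MulAut.conj_apply]
    group

theorem XX.li {x : MulAut G} (hx : x ∈ XX G) : LI (x : G → G) := hx.1

theorem XX_classes {x : MulAut G} (hx : x ∈ XX G) :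
    {w | ∃ y ∈ XX G, w = y⁻¹ * x * y}.Finite := by
  classical
  set T : Set (MulAut G) := {t | ∃ c, t = (MulAut.conj c)⁻¹ * x * MulAut.conj c} with hT
  have hTf : T.Finite := by
    refine (hx.2.image (fun u => MulAut.conj u * x)).subset ?_
    rintro _ ⟨c, rfl⟩
    refine ⟨dl x c, ⟨c, rfl⟩, ?_⟩
    ext g
    have e1 : ((MulAut.conj c)⁻¹ * x * MulAut.conj c) g = c⁻¹ * x (c * g * c⁻¹) * c := by
      rw [MulAut.mul_apply, MulAut.mul_apply, ← map_inv, MulAut.conj_apply, MulAut.conj_apply,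
        inv_inv]
    have e2 : (MulAut.conj (dl x c) * x) g = (c⁻¹ * x c) * x g * (c⁻¹ * x c)⁻¹ := by
      rw [MulAut.mul_apply, MulAut.conj_apply]
      rfl
    show (MulAut.conj (dl x c) * x) g = _
    rw [e1, e2, map_mul, map_mul, map_inv]
    group
  refine hTf.subset ?_
  rintro u ⟨y, hy, rfl⟩
  by_contra hcon
  set u := y⁻¹ * x * y with hu
  have h1 : ∀ t : MulAut G, ∃ w, t ≠ u → u w ≠ t w := by
    intro t
    by_cases h : t = u
    · exact ⟨1, fun h' => absurd h h'⟩
    · by_contra hc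
      push Not at hc
      apply h
      ext w
      exact (hc w).2.symm
  choose w hw using h1
  obtain ⟨c, hc⟩ := hy.1 (hTf.toFinset.image w ∪ hTf.toFinset.image (fun t => u (w t)))
  set t0 := (MulAut.conj c⁻¹)⁻¹ * x * MulAut.conj c⁻¹ with ht0
  have ht0T : t0 ∈ T := ⟨c⁻¹, rfl⟩
  have hne : t0 ≠ u := by
    intro h
    rw [h] at ht0T
    exact hcon ht0T
  apply hw t0 hne
  have h2 := hc (w t0) (Finset.mem_union_left _ (Finset.mem_image_of_mem _ (hTf.mem_toFinset.mpr ht0T)))
  have h3 := hc (u (w t0)) (Finset.mem_union_right _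
    (Finset.mem_image_of_mem (fun t => u (w t)) (hTf.mem_toFinset.mpr ht0T)))
  have h4 : y (u (w t0)) = x (y (w t0)) := by
    rw [hu]
    simp [MulAut.mul_apply]
  have h5 : t0 (w t0) = c * x (y (w t0)) * c⁻¹ := by
    have : t0 (w t0) = c * x (c⁻¹ * w t0 * c) * c⁻¹ := by
      rw [ht0]
      simp [MulAut.mul_apply, MulAut.conj_apply]
    rw [this, ← h2]
  rw [h5, ← h4, h3]
  group

theorem li_toMulAut (hFC : FCG G) {f : G → G} (hf : LI f) : ∃ x : MulAut G, ∀ g, x g = f g := by
  classical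
  have hmul : ∀ a b, f (a * b) = f a * f b := by
    intro a b
    obtain ⟨c, hc⟩ := hf {a, b, a * b}
    rw [hc a (by simp), hc b (by simp), hc (a * b) (by simp)]
    group
  have hinj : Function.Injective f := by
    intro a b hab
    obtain ⟨c, hc⟩ := hf {a, b}
    rw [hc a (by simp), hc b (by simp)] at hab
    simpa using hab
  have hsurj : Function.Surjective f := by
    intro g
    have hmaps : Set.MapsTo f {u | ∃ c, u = c⁻¹ * g * c} {u | ∃ c, u = c⁻¹ * g * c} := by
      rintro _ ⟨c, rfl⟩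
      obtain ⟨d, hd⟩ := hf {c⁻¹ * g * c}
      refine ⟨c * d, ?_⟩
      rw [hd _ (by simp)]
      group
    have := (hFC.fin g).to_subtype
    have hs : Function.Surjective (hmaps.restrict f _ _) := by
      apply Finite.surjective_of_injective
      intro a b hab
      exact Subtype.ext (hinj (congrArg Subtype.val hab))
    obtain ⟨u, hu⟩ := hs ⟨g, 1, by simp⟩
    exact ⟨u.1, congrArg Subtype.val hu⟩
  exact ⟨MulEquiv.ofBijective (MonoidHom.mk' f hmul) ⟨hinj, hsurj⟩, fun g => rfl⟩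

theorem exists_finite_reps {A B : Type} (f : A → B) (h : (Set.range f).Finite) :
    ∃ T : Finset A, ∀ a, ∃ t ∈ T, f a = f t := by
  classical
  have := h.to_subtype
  choose r hr using fun b : Set.range f => b.2
  have := Fintype.ofFinite (Set.range f)
  refine ⟨Finset.univ.image r, fun a => ⟨r ⟨f a, a, rfl⟩, ?_, ?_⟩⟩
  · exact Finset.mem_image_of_mem _ (Finset.mem_univ _)
  · exact (hr ⟨f a, a, rfl⟩).symm

theorem lemmaA (hFC : FCG G) (R : Subgroup G) (hRn : R.Normal) (hR : (R : Set G).Finite) :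
    ∃ S : Finset G, ∀ H : Subgroup G, ↑S ⊆ (H : Set G) → ∀ y : MulAut G,
      (∀ h ∈ H, dl y h ∈ R) → (∀ s ∈ S, y s = s) → ∀ h ∈ H, dl y h ∈ Subgroup.center G := by
  classical
  have := hR.to_subtype
  obtain ⟨T, hT⟩ : ∃ T : Finset G, ∀ g, ∃ t ∈ T, (fun r : R => g⁻¹ * r.1 * g) =
      (fun r : R => t⁻¹ * r.1 * t) := by
    apply exists_finite_reps (fun (g : G) (r : R) => g⁻¹ * r.1 * g)
    refine (Set.Finite.pi' (fun r : R => hFC.fin r.1)).subset ?_
    rintro _ ⟨g, rfl⟩ r
    exact ⟨g, rfl⟩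
  have hfin : (↑T ∪ (R : Set G) ∪ ⋃ t ∈ T, (fun u => u * t) '' {u | ∃ c, u = c⁻¹ * t⁻¹ * c}).Finite := by
    refine ((T.finite_toSet.union hR).union ?_)
    exact Set.Finite.biUnion T.finite_toSet (fun t _ => (hFC.fin t⁻¹).image _)
  refine ⟨hfin.toFinset, ?_⟩
  intro H hSH y hy hyS h hh
  have hS : ∀ g, g ∈ (↑T ∪ (R : Set G) ∪ ⋃ t ∈ T, (fun u => u * t) '' {u | ∃ c, u = c⁻¹ * t⁻¹ * c}) →
      y g = g ∧ g ∈ H := by
    intro g hg
    have hg' := hfin.mem_toFinset.mpr hg
    exact ⟨hyS g hg', hSH hg'⟩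
  have hT' : ∀ t ∈ T, y t = t ∧ t ∈ H := fun t ht => hS t (Or.inl (Or.inl ht))
  have hc' : ∀ t ∈ T, ∀ g, y (g⁻¹ * t⁻¹ * g * t) = g⁻¹ * t⁻¹ * g * t := by
    intro t ht g
    refine (hS _ (Or.inr ?_)).1
    simp only [Set.mem_iUnion]
    exact ⟨t, ht, _, ⟨g, rfl⟩, rfl⟩
  obtain ⟨t, ht, hteq⟩ := hT h
  have hteq' : ∀ r ∈ R, h⁻¹ * r * h = t⁻¹ * r * t := fun r hr => congrFun hteq ⟨r, hr⟩
  set g := h * t⁻¹ with hg
  have hgH : g ∈ H := mul_mem hh (inv_mem (hT' t ht).2)
  have hgc : ∀ r ∈ R, g * r = r * g := by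
    intro r hr
    have := hteq' r hr
    have h2 : r * h = h * (t⁻¹ * r * t) := by rw [← this]; group
    have h3 : r * g = g * r := by
      rw [hg]
      calc r * (h * t⁻¹) = (r * h) * t⁻¹ := by group
        _ = h * t⁻¹ * r := by rw [h2]; group
    exact h3.symm
  set r := dl y g with hr
  have hrR : r ∈ R := hy g hgH
  have hyg : y g = g * r := dl_eq y g
  have hcommT : ∀ s ∈ T, s⁻¹ * r * s = r := by
    intro s hs
    have e1 : y (s⁻¹ * g * s) = s⁻¹ * (g * r) * s := by
      rw [map_mul, map_mul, map_inv, hyg, (hT' s hs).1]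
    have e2 : y (s⁻¹ * g * s) = g * r * (g⁻¹ * s⁻¹ * g * s) := by
      have : s⁻¹ * g * s = g * (g⁻¹ * s⁻¹ * g * s) := by group
      rw [this, map_mul, hyg, hc' s hs g]
    have e3 : g * r * (g⁻¹ * s⁻¹ * g * s) = r * (s⁻¹ * g * s) := by
      rw [hgc r hrR]; group
    -- s⁻¹ g s commutes with R
    have e4 : (s⁻¹ * g * s) * r = r * (s⁻¹ * g * s) := by
      have hr' : s * r * s⁻¹ ∈ R := hRn.conj_mem r hrR s
      have := hgc _ hr'
      calc (s⁻¹ * g * s) * r = s⁻¹ * (g * (s * r * s⁻¹)) * s := by group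
        _ = s⁻¹ * ((s * r * s⁻¹) * g) * s := by rw [this]
        _ = _ := by group
    have e5 : (s⁻¹ * g * s) * (s⁻¹ * r * s) = (s⁻¹ * g * s) * r := by
      rw [e4, ← e3, ← e2, e1]; group
    exact mul_left_cancel e5
  have hcen : r ∈ Subgroup.center G := by
    rw [Subgroup.mem_center_iff]
    intro a
    obtain ⟨s, hs, hseq⟩ := hT a
    have h1 : a⁻¹ * r * a = s⁻¹ * r * s := congrFun hseq ⟨r, hrR⟩
    rw [hcommT s hs] at h1
    calc a * r = a * (a⁻¹ * r * a) := by rw [h1]
      _ = r * a := by group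
  have : dl y h = r := by
    have hh' : h = g * t := by rw [hg]; group
    unfold dl
    rw [hh', map_mul, hyg, (hT' t ht).1]
    calc (g * t)⁻¹ * (g * r * t) = t⁻¹ * r * t := by group
      _ = r := hcommT t ht
  rw [this]
  exact hcen

theorem compactness (hFC : FCG G) (S : Finset G) (σ : G → G) (R : Set G) (hR : R.Finite)
    (h : ∀ W : Finset G, ∃ x ∈ XX G, (∀ s ∈ S, x s = σ s) ∧ ∀ w ∈ W, dl x w ∈ R) :
    ∃ x ∈ XX G, (∀ s ∈ S, x s = σ s) ∧ ∀ g, dl x g ∈ R := by
  classical
  choose x hx hxS hxR using h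
  let U : Ultrafilter (Finset G) := Ultrafilter.of Filter.atTop
  have hU : (U : Filter (Finset G)) ≤ Filter.atTop := Ultrafilter.of_le _
  have hval : ∀ g, ∃ v, ∀ᶠ W in (U : Filter (Finset G)), x W g = v := by
    intro g
    have hmem : (⋃ v ∈ {u | ∃ c, u = c⁻¹ * g * c}, {W | x W g = v}) ∈ U := by
      have : (⋃ v ∈ {u | ∃ c, u = c⁻¹ * g * c}, {W | x W g = v}) = Set.univ := by
        rw [Set.eq_univ_iff_forall]
        intro W
        simp only [Set.mem_iUnion]
        obtain ⟨c, hc⟩ := (hx W).1 {g}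
        exact ⟨x W g, ⟨c, hc g (by simp)⟩, rfl⟩
      rw [this]
      exact Filter.univ_mem
    rw [Ultrafilter.finite_biUnion_mem_iff (hFC.fin g)] at hmem
    obtain ⟨v, _, hv⟩ := hmem
    exact ⟨v, hv⟩
  choose φ hφ using hval
  have hLI : LI φ := by
    intro s
    have : ∀ᶠ W in (U : Filter (Finset G)), ∀ g ∈ s, x W g = φ g := by
      rw [Filter.eventually_all_finset]
      intro g _
      exact hφ g
    obtain ⟨W, hW⟩ := this.exists
    obtain ⟨c, hc⟩ := (hx W).1 s
    exact ⟨c, fun g hg => by rw [← hW g hg, hc g hg]⟩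
  obtain ⟨y, hy⟩ := li_toMulAut hFC hLI
  have hyR : ∀ g, dl y g ∈ R := by
    intro g
    have h1 : ∀ᶠ W in (U : Filter (Finset G)), {g} ≤ W :=
      (Filter.eventually_ge_atTop {g}).filter_mono hU
    obtain ⟨W, hW1, hW2⟩ := (h1.and (hφ g)).exists
    have := hxR W g (hW1 (Finset.mem_singleton_self g))
    unfold dl at this ⊢
    rw [hy, ← hW2]
    exact this
  refine ⟨y, ⟨?_, ?_⟩, ?_, hyR⟩
  · have : (y : G → G) = φ := funext hy
    rw [this]
    exact hLI
  · refine hR.subset ?_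
    rintro _ ⟨g, rfl⟩
    exact hyR g
  · intro s hs
    obtain ⟨W, hW⟩ := (hφ s).exists
    rw [hy, ← hW]
    exact hxS W s hs

theorem lemmaB0 (hFC : FCG G) (R : Subgroup G) (hRn : R.Normal) (hR : (R : Set G).Finite) :
    ∃ (W : Finset G) (K : Set (MulAut G)), K.Finite ∧ (∀ k ∈ K, k ∈ XX G) ∧
      ∀ H : Subgroup G, ↑W ⊆ (H : Set G) → ∀ x ∈ XX G, (∀ h ∈ H, dl x h ∈ R) →
        ∃ k ∈ K, ∀ h ∈ H, dl (k⁻¹ * x) h ∈ Subgroup.center G := by
  classical
  obtain ⟨S, hS⟩ := lemmaA hFC R hRn hR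
  set TT : Set (S → G) := {σ | ∃ x ∈ XX G, ∀ s, σ s = x s.1} with hTT
  have hTf : TT.Finite := by
    refine (Set.Finite.pi' (fun s : S => hFC.fin s.1)).subset ?_
    rintro σ ⟨x, hx, hσ⟩ s
    obtain ⟨c, hc⟩ := hx.1 {s.1}
    exact ⟨c, by rw [hσ s, hc _ (by simp)]⟩
  have hex : ∀ σ : S → G, ∃ (W : Finset G) (k : MulAut G), k ∈ XX G ∧
      (((∀ s, σ s = k s.1) ∧ ∀ g, dl k g ∈ R) ∨
        ∀ x ∈ XX G, (∀ s, σ s = x s.1) → ∃ w ∈ W, dl x w ∉ R) := by
    intro σ
    by_cases h : ∃ k ∈ XX G, (∀ s, σ s = k s.1) ∧ ∀ g, dl k g ∈ R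
    · obtain ⟨k, hk, h1⟩ := h
      exact ⟨∅, k, hk, Or.inl h1⟩
    · have : ∃ W : Finset G, ∀ x ∈ XX G, (∀ s, σ s = x s.1) → ∃ w ∈ W, dl x w ∉ R := by
        by_contra hcon
        push Not at hcon
        apply h
        obtain ⟨x, hx, hx1, hx2⟩ := compactness hFC S
          (fun g => if hg : g ∈ S then σ ⟨g, hg⟩ else 1) R hR (by
            intro W
            obtain ⟨x, hx, h1, h2⟩ := hcon W
            refine ⟨x, hx, fun s hs => ?_, h2⟩
            simp only [hs, dif_pos]
            exact (h1 ⟨s, hs⟩).symm)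
        refine ⟨x, hx, fun s => ?_, hx2⟩
        rw [hx1 s.1 s.2]
        simp
      obtain ⟨W, hW⟩ := this
      exact ⟨W, 1, one_mem _, Or.inr hW⟩
  choose Wf kf hkf hWk using hex
  refine ⟨S ∪ hTf.toFinset.biUnion Wf, kf '' TT, hTf.image _, ?_, ?_⟩
  · rintro _ ⟨σ, _, rfl⟩
    exact hkf σ
  · intro H hWH x hx hxR
    set σ : S → G := fun s => x s.1 with hσ
    have hσT : σ ∈ TT := ⟨x, hx, fun s => rfl⟩
    rcases hWk σ with ⟨h1, h2⟩ | h1
    · refine ⟨kf σ, ⟨σ, hσT, rfl⟩, ?_⟩
      apply hS H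
      · intro s hs
        exact hWH (Finset.mem_coe.mpr (Finset.mem_union_left _ hs))
      · intro h hh
        rw [dl_mul, dl_inv]
        refine mul_mem (inv_mem (h2 _)) ?_
        have hk := (inv_mem (hkf σ) : (kf σ)⁻¹ ∈ XX G)
        exact hk.1.normal hRn (hxR h hh)
      · intro s hs
        rw [MulAut.mul_apply]
        have := h1 ⟨s, hs⟩
        rw [hσ] at this
        simp only at this
        rw [this, MulAut.inv_apply_self]
    · obtain ⟨w, hw, hw'⟩ := h1 x hx (fun s => rfl)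
      exfalso
      apply hw'
      apply hxR
      apply hWH
      rw [Finset.mem_coe]
      exact Finset.mem_union_right _ (Finset.mem_biUnion.mpr ⟨σ, hTf.mem_toFinset.mpr hσT, hw⟩)

end li

end li0

section modules

theorem zmod_double_ann (n : ℕ) [NeZero n] (a b : ZMod n) (h : ∀ r, r * a = 0 → r * b = 0) :
    ∃ c, b = a * c := by
  set d := Nat.gcd a.val n with hd
  have hnpos : 0 < n := Nat.pos_of_ne_zero (NeZero.ne n)
  have hdpos : 0 < d := Nat.gcd_pos_of_pos_right _ hnpos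
  have hdn : d ∣ n := Nat.gcd_dvd_right _ _
  have hda : d ∣ a.val := Nat.gcd_dvd_left _ _
  have h1 : ((n / d : ℕ) : ZMod n) * a = 0 := by
    obtain ⟨k, hk⟩ := hda
    obtain ⟨m, hm⟩ := hdn
    have h2 : n / d = m := by
      rw [hm]; exact Nat.mul_div_cancel_left m hdpos
    have h3 : a = ((a.val : ℕ) : ZMod n) := (ZMod.natCast_zmod_val a).symm
    rw [h2, h3, hk, ← Nat.cast_mul]
    have h4 : m * (d * k) = n * k := by rw [← mul_assoc, mul_comm m d, ← hm]
    rw [h4, Nat.cast_mul]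
    simp
  have h5 := h _ h1
  have h6 : d ∣ b.val := by
    have h7 : b = ((b.val : ℕ) : ZMod n) := (ZMod.natCast_zmod_val b).symm
    rw [h7, ← Nat.cast_mul, ZMod.natCast_eq_zero_iff] at h5
    obtain ⟨m, hm⟩ := hdn
    have h2 : n / d = m := by
      rw [hm]; exact Nat.mul_div_cancel_left m hdpos
    rw [h2] at h5
    have hmpos : 0 < m := by
      rcases Nat.eq_zero_or_pos m with h0 | h0
      · rw [h0, mul_zero] at hm; omega
      · exact h0
    have h8 : m * d ∣ m * b.val := by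
      rw [mul_comm m d, ← hm]; exact h5
    exact Nat.dvd_of_mul_dvd_mul_left hmpos h8
  obtain ⟨k, hk⟩ := h6
  have h9 : ((d : ℕ) : ZMod n) = a * ((Nat.gcdA a.val n : ℤ) : ZMod n) := by
    have := Nat.gcd_eq_gcd_ab a.val n
    have h10 : (((Nat.gcd a.val n : ℕ) : ℤ) : ZMod n) =
      (((a.val : ℤ) * Nat.gcdA a.val n + (n : ℤ) * Nat.gcdB a.val n : ℤ) : ZMod n) := by
      rw [this]
    push_cast at h10
    rw [ZMod.natCast_zmod_val] at h10
    simpa using h10
  refine ⟨((Nat.gcdA a.val n : ℤ) : ZMod n) * (k : ZMod n), ?_⟩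
  have h7 : b = ((b.val : ℕ) : ZMod n) := (ZMod.natCast_zmod_val b).symm
  rw [h7, hk, Nat.cast_mul, h9]
  ring

theorem injective_of_closed {G : Type} (n : ℕ) [NeZero n] (E : Submodule (ZMod n) (G → ZMod n))
    (hE : ∀ e ∈ E, ∀ φ : ZMod n → ZMod n, (φ 0 = 0) → (fun g => φ (e g)) ∈ E) :
    Module.Injective (ZMod n) E := by
  classical
  apply Module.Baer.injective
  intro I g
  have hpir : IsPrincipalIdealRing (ZMod n) :=
    IsPrincipalIdealRing.of_surjective (Int.castRingHom (ZMod n)) (ZMod.intCast_surjective)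
  obtain ⟨a, ha⟩ := (hpir.principal I)
  have haI : a ∈ I := by rw [ha]; exact Submodule.mem_span_singleton_self a
  set e := g ⟨a, haI⟩ with he
  have hann : ∀ r : ZMod n, r * a = 0 → r • e = 0 := by
    intro r hr
    rw [he, ← map_smul]
    have : r • (⟨a, haI⟩ : I) = 0 := by
      apply Subtype.ext
      exact hr
    rw [this, map_zero]
  have hpt : ∀ x, ∃ c, e.1 x = a * c := by
    intro x
    apply zmod_double_ann
    intro r hr
    have := congrArg (fun z : E => z.1 x) (hann r hr)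
    simpa using this
  let φ : ZMod n → ZMod n := fun b => if b = 0 then 0 else
    (if h : ∃ c, b = a * c then h.choose else 0)
  have hφ : ∀ b, (∃ c, b = a * c) → a * φ b = b := by
    intro b hb
    by_cases h0 : b = 0
    · simp [φ, h0]
    · simp only [φ, h0, if_false, hb, dif_pos]
      exact hb.choose_spec.symm
  let e' : E := ⟨fun x => φ (e.1 x), hE _ e.2 φ (by simp [φ])⟩
  have he' : a • e' = e := by
    apply Subtype.ext
    funext x
    exact hφ _ (hpt x)
  refine ⟨LinearMap.toSpanSingleton (ZMod n) E e', ?_⟩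
  intro x hx
  have hx' := hx
  rw [ha] at hx'
  obtain ⟨r, hr⟩ := Submodule.mem_span_singleton.mp hx'
  have e1 : (⟨x, hx⟩ : I) = r • (⟨a, haI⟩ : I) := Subtype.ext hr.symm
  rw [LinearMap.toSpanSingleton_apply, e1, map_smul, ← he, ← he', ← hr, smul_assoc]

theorem exists_retraction {G : Type} (n : ℕ) [NeZero n] (E : Submodule (ZMod n) (G → ZMod n))
    (hE : ∀ e ∈ E, ∀ φ : ZMod n → ZMod n, (φ 0 = 0) → (fun g => φ (e g)) ∈ E) (H : Set G)
    (hinj : ∀ e ∈ E, (∀ h ∈ H, e h = 0) → e = 0) :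
    ∃ r : (H → ZMod n) →ₗ[ZMod n] (G → ZMod n), (∀ f, r f ∈ E) ∧
      ∀ e ∈ E, r (fun h => e h.1) = e := by
  have := injective_of_closed n E hE
  let res : E →ₗ[ZMod n] (H → ZMod n) :=
    { toFun := fun e h => e.1 h.1
      map_add' := fun _ _ => rfl
      map_smul' := fun _ _ => rfl }
  have hres : Function.Injective res := by
    rw [← LinearMap.ker_eq_bot, LinearMap.ker_eq_bot']
    intro e he
    apply Subtype.ext
    exact hinj e.1 e.2 (fun h hh => congrFun he ⟨h, hh⟩)
  obtain ⟨h, hh⟩ := this.out res hres LinearMap.id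
  refine ⟨E.subtype.comp h, fun f => (h f).2, fun e he => ?_⟩
  have := hh ⟨e, he⟩
  exact congrArg Subtype.val this

end modules

section om

/-- sorts of elements used in the closure argument -/
inductive Om (G : Type) [Group G] (J : Type) (n : J → ℕ) : Type
  | g : G → Om G J n
  | x : MulAut G → Om G J n
  | e : (j : J) → (G → ZMod (n j)) → Om G J n

variable {G J : Type} [Group G] {n : J → ℕ} [∀ j, NeZero (n j)] (chi : (j : J) → G → ZMod (n j))

/-- the central part of the derived subgroup -/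
def ZZ (G : Type) [Group G] : Subgroup G := Subgroup.center G ⊓ commutator G

/-- standing assumptions -/
structure Dat : Prop where
  fc : FCG G
  lf : ∀ s : Set G, s.Finite → s ⊆ (commutator G : Set G) →
    ((Subgroup.normalClosure s : Subgroup G) : Set G).Finite
  chi_mul : ∀ j z z', z ∈ ZZ G → z' ∈ ZZ G → chi j (z * z') = chi j z + chi j z'
  chi_fin : ∀ z ∈ ZZ G, {j | chi j z ≠ 0}.Finite
  chi_sep : ∀ z ∈ ZZ G, (∀ j, chi j z = 0) → z = 1

/-- requirements for single elements -/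
def U1 (a : Om G J n) (t : Set (Om G J n)) : Prop :=
  match a with
  | Om.g a => Om.g a⁻¹ ∈ t ∧ (∀ c : G, Om.g (c⁻¹ * a * c) ∈ t) ∧
      (∀ c : G, ∃ c', Om.g c' ∈ t ∧ c⁻¹ * a * c = c'⁻¹ * a * c')
  | Om.x k => k ∈ XX G → (Om.x k⁻¹ ∈ t ∧ (∀ y ∈ XX G, Om.x (y⁻¹ * k * y) ∈ t) ∧
      ((∃ g, dl k g ∉ Subgroup.center G) → ∃ g, Om.g g ∈ t ∧ dl k g ∉ Subgroup.center G) ∧
      ((∀ g, dl k g ∈ Subgroup.center G) → ∀ j, (fun g => chi j (dl k g)) ≠ 0 →
        Om.e j (fun g => chi j (dl k g)) ∈ t))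
  | Om.e j f => (∀ φ : ZMod (n j) → ZMod (n j), Om.e j (fun g => φ (f g)) ∈ t) ∧
      ((∃ g, f g ≠ 0) → ∃ g, Om.g g ∈ t ∧ f g ≠ 0)

/-- requirements for pairs -/
def U2 (a b : Om G J n) (t : Set (Om G J n)) : Prop :=
  (∀ u v : G, a = Om.g u → b = Om.g v → Om.g (u * v) ∈ t) ∧
  (∀ u v : MulAut G, a = Om.x u → b = Om.x v → Om.x (u * v) ∈ t) ∧
  (∀ j, ∀ u v : G → ZMod (n j), a = Om.e j u → b = Om.e j v → Om.e j (fun g => u g + v g) ∈ t)

/-- requirements for finite sets -/
def U3 (s : Finset (Om G J n)) (t : Set (Om G J n)) : Prop :=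
  ∀ R : Subgroup G, R.Normal → (∀ r, r ∈ R ↔ Om.g r ∈ s) → ∀ H : Subgroup G,
    (∀ a, Om.g a ∈ t → a ∈ H) → ∀ x ∈ XX G, (∀ h ∈ H, dl x h ∈ R) →
      ∃ k ∈ XX G, Om.x k ∈ t ∧ ∀ h ∈ H, dl (k⁻¹ * x) h ∈ Subgroup.center G

variable {chi}

omit [∀ j, NeZero (n j)] in
theorem U1.mono {a : Om G J n} {t t' : Set (Om G J n)} (h : t ⊆ t') (hu : U1 chi a t) :
    U1 chi a t' := by
  cases a with
  | g a =>
    obtain ⟨h1, h2, h3⟩ := hu
    refine ⟨h h1, fun c => h (h2 c), fun c => ?_⟩
    obtain ⟨c', hc', hc''⟩ := h3 c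
    exact ⟨c', h hc', hc''⟩
  | x k =>
    intro hk
    obtain ⟨h1, h2, h3, h4⟩ := hu hk
    refine ⟨h h1, fun y hy => h (h2 y hy), fun hg => ?_, fun hg j hj => h (h4 hg j hj)⟩
    obtain ⟨g, hg1, hg2⟩ := h3 hg
    exact ⟨g, h hg1, hg2⟩
  | e j f =>
    obtain ⟨h1, h2⟩ := hu
    refine ⟨fun φ => h (h1 φ), fun hg => ?_⟩
    obtain ⟨g, hg1, hg2⟩ := h2 hg
    exact ⟨g, h hg1, hg2⟩

omit [∀ j, NeZero (n j)] in
theorem U2.mono {a b : Om G J n} {t t' : Set (Om G J n)} (h : t ⊆ t') (hu : U2 a b t) :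
    U2 a b t' :=
  ⟨fun u v h1 h2 => h (hu.1 u v h1 h2), fun u v h1 h2 => h (hu.2.1 u v h1 h2),
    fun j u v h1 h2 => h (hu.2.2 j u v h1 h2)⟩

omit [∀ j, NeZero (n j)] in
theorem U3.mono {s : Finset (Om G J n)} {t t' : Set (Om G J n)} (h : t ⊆ t') (hu : U3 s t) :
    U3 s t' := by
  intro R hR hs H hH x hx hxR
  obtain ⟨k, hk, hk1, hk2⟩ := hu R hR hs H (fun a ha => hH a (h ha)) x hx hxR
  exact ⟨k, hk, h hk1, hk2⟩

omit [∀ j, NeZero (n j)] in
theorem chid_fin (hD : Dat chi) {k : MulAut G} (hk : k ∈ XX G) (H : Set G)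
    (hc : ∀ h ∈ H, dl k h ∈ Subgroup.center G) : {j | ∃ h ∈ H, chi j (dl k h) ≠ 0}.Finite := by
  have hfin : (dl k '' H).Finite := hk.2.subset (Set.image_subset_range _ _)
  refine (Set.Finite.biUnion hfin (t := fun z => {j | chi j z ≠ 0}) ?_).subset ?_
  · rintro _ ⟨h, hh, rfl⟩
    exact hD.chi_fin _ ⟨hc h hh, hk.1.dl_comm h⟩
  · rintro j ⟨h, hh, hj⟩
    simp only [Set.mem_iUnion]
    exact ⟨dl k h, ⟨h, hh, rfl⟩, hj⟩

theorem exU1 (hD : Dat chi) (a : Om G J n) : ∃ t : Set (Om G J n), t.Countable ∧ U1 chi a t := by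
  classical
  cases a with
  | g a =>
    have : ∀ u : G, ∃ c', (∃ c, u = c⁻¹ * a * c) → u = c'⁻¹ * a * c' := by
      intro u
      by_cases h : ∃ c, u = c⁻¹ * a * c
      · obtain ⟨c, hc⟩ := h
        exact ⟨c, fun _ => hc⟩
      · exact ⟨1, fun h' => absurd h' h⟩
    choose w hw using this
    refine ⟨{Om.g a⁻¹} ∪ Om.g '' {u | ∃ c, u = c⁻¹ * a * c} ∪
      Om.g '' (w '' {u | ∃ c, u = c⁻¹ * a * c}), ?_, ?_⟩
    · exact ((Set.countable_singleton _).union ((hD.fc.fin a).countable.image _)).union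
        (((hD.fc.fin a).countable.image _).image _)
    · refine ⟨Or.inl (Or.inl rfl), fun c => Or.inl (Or.inr ⟨_, ⟨c, rfl⟩, rfl⟩), fun c => ?_⟩
      exact ⟨w (c⁻¹ * a * c), Or.inr ⟨_, ⟨_, ⟨c, rfl⟩, rfl⟩, rfl⟩, hw _ ⟨c, rfl⟩⟩
  | x k =>
    by_cases hk : k ∈ XX G
    · have h1 : ∃ w, (∃ g, dl k g ∉ Subgroup.center G) → dl k w ∉ Subgroup.center G := by
        by_cases h : ∃ g, dl k g ∉ Subgroup.center G
        · obtain ⟨g, hg⟩ := h
          exact ⟨g, fun _ => hg⟩
        · exact ⟨1, fun h' => absurd h' h⟩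
      obtain ⟨w, hw⟩ := h1
      refine ⟨{Om.x k⁻¹} ∪ Om.x '' {u | ∃ y ∈ XX G, u = y⁻¹ * k * y} ∪ {Om.g w} ∪
        {o | (∀ g, dl k g ∈ Subgroup.center G) ∧ ∃ j, (fun g => chi j (dl k g)) ≠ 0 ∧
          o = Om.e j (fun g => chi j (dl k g))}, ?_, ?_⟩
      · refine (((Set.countable_singleton _).union ((XX_classes hk).countable.image _)).union
          (Set.countable_singleton _)).union ?_
        by_cases hc : ∀ g, dl k g ∈ Subgroup.center G
        · have hf := chid_fin hD hk Set.univ (fun h _ => hc h)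
          refine (hf.countable.image (fun j => Om.e j (fun g => chi j (dl k g)))).mono ?_
          rintro o ⟨_, j, hj, rfl⟩
          refine ⟨j, ?_, rfl⟩
          obtain ⟨g, hg⟩ := Function.ne_iff.mp hj
          exact ⟨g, trivial, hg⟩
        · have : {o : Om G J n | (∀ g, dl k g ∈ Subgroup.center G) ∧
            ∃ j, (fun g => chi j (dl k g)) ≠ 0 ∧ o = Om.e j (fun g => chi j (dl k g))} = ∅ := by
            rw [Set.eq_empty_iff_forall_notMem]
            rintro o ⟨h, _⟩
            exact hc h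
          rw [this]
          exact Set.countable_empty
      · intro _
        refine ⟨Or.inl (Or.inl (Or.inl rfl)), fun y hy => Or.inl (Or.inl (Or.inr ⟨_, ⟨y, hy, rfl⟩, rfl⟩)),
          fun h => ⟨w, Or.inl (Or.inr rfl), hw h⟩, fun h j hj => Or.inr ⟨h, j, hj, rfl⟩⟩
    · exact ⟨∅, Set.countable_empty, fun h => absurd h hk⟩
  | e j f =>
    have h1 : ∃ w, (∃ g, f g ≠ 0) → f w ≠ 0 := by
      by_cases h : ∃ g, f g ≠ 0
      · obtain ⟨g, hg⟩ := h
        exact ⟨g, fun _ => hg⟩
      · exact ⟨1, fun h' => absurd h' h⟩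
    obtain ⟨w, hw⟩ := h1
    have : Fintype (ZMod (n j)) := Fintype.ofFinite _
    refine ⟨Set.range (fun φ : ZMod (n j) → ZMod (n j) => Om.e j (fun g => φ (f g))) ∪ {Om.g w},
      ((Set.finite_range _).countable).union (Set.countable_singleton _), ?_, ?_⟩
    · intro φ
      exact Or.inl ⟨φ, rfl⟩
    · intro h
      exact ⟨w, Or.inr rfl, hw h⟩

omit [∀ j, NeZero (n j)] in
theorem exU2 (a b : Om G J n) : ∃ t : Set (Om G J n), t.Countable ∧ U2 a b t := by
  have key : ∀ t : Set (Om G J n), t.Countable →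
      (∀ u v : G, a = Om.g u → b = Om.g v → Om.g (u * v) ∈ t) →
      (∀ u v : MulAut G, a = Om.x u → b = Om.x v → Om.x (u * v) ∈ t) →
      (∀ j, ∀ u v : G → ZMod (n j), a = Om.e j u → b = Om.e j v →
        Om.e j (fun g => u g + v g) ∈ t) →
      ∃ t : Set (Om G J n), t.Countable ∧ U2 a b t := fun t h0 h1 h2 h3 => ⟨t, h0, h1, h2, h3⟩
  cases a with
  | g u =>
    cases b with
    | g v =>
      refine key {Om.g (u * v)} (Set.countable_singleton _) ?_ ?_ ?_
      · rintro u' v' h1 h2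
        cases h1; cases h2; rfl
      · rintro u' v' h1 h2
        cases h1
      · rintro j u' v' h1 h2
        cases h1
    | x v =>
      refine key ∅ Set.countable_empty ?_ ?_ ?_
      · rintro u' v' h1 h2
        cases h2
      · rintro u' v' h1 h2
        cases h1
      · rintro j u' v' h1 h2
        cases h1
    | e j v =>
      refine key ∅ Set.countable_empty ?_ ?_ ?_
      · rintro u' v' h1 h2
        cases h2
      · rintro u' v' h1 h2
        cases h1
      · rintro j u' v' h1 h2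
        cases h1
  | x u =>
    cases b with
    | g v =>
      refine key ∅ Set.countable_empty ?_ ?_ ?_
      · rintro u' v' h1 h2
        cases h1
      · rintro u' v' h1 h2
        cases h2
      · rintro j u' v' h1 h2
        cases h1
    | x v =>
      refine key {Om.x (u * v)} (Set.countable_singleton _) ?_ ?_ ?_
      · rintro u' v' h1 h2
        cases h1
      · rintro u' v' h1 h2
        cases h1; cases h2; rfl
      · rintro j u' v' h1 h2
        cases h1
    | e j v =>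
      refine key ∅ Set.countable_empty ?_ ?_ ?_
      · rintro u' v' h1 h2
        cases h1
      · rintro u' v' h1 h2
        cases h2
      · rintro j u' v' h1 h2
        cases h1
  | e j u =>
    cases b with
    | g v =>
      refine key ∅ Set.countable_empty ?_ ?_ ?_
      · rintro u' v' h1 h2
        cases h1
      · rintro u' v' h1 h2
        cases h1
      · rintro j u' v' h1 h2
        cases h2
    | x v =>
      refine key ∅ Set.countable_empty ?_ ?_ ?_
      · rintro u' v' h1 h2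
        cases h1
      · rintro u' v' h1 h2
        cases h1
      · rintro j u' v' h1 h2
        cases h2
    | e j' v =>
      by_cases hj : j = j'
      · subst hj
        refine key {Om.e j (fun g => u g + v g)} (Set.countable_singleton _) ?_ ?_ ?_
        · rintro u' v' h1 h2
          cases h1
        · rintro u' v' h1 h2
          cases h1
        · rintro j u' v' h1 h2
          cases h1; cases h2; rfl
      · refine key ∅ Set.countable_empty ?_ ?_ ?_
        · rintro u' v' h1 h2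
          cases h1
        · rintro u' v' h1 h2
          cases h1
        · rintro j'' u' v' h1 h2
          cases h1; cases h2
          exact absurd rfl hj

omit [∀ j, NeZero (n j)] in
theorem exU3 (hD : Dat chi) (s : Finset (Om G J n)) :
    ∃ t : Set (Om G J n), t.Countable ∧ U3 s t := by
  classical
  by_cases hR : ∃ R : Subgroup G, R.Normal ∧ (∀ r, r ∈ R ↔ Om.g r ∈ s)
  · obtain ⟨R, hR1, hR2⟩ := hR
    have hfin : (R : Set G).Finite := by
      have : Set.InjOn (Om.g : G → Om G J n) (R : Set G) := by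
        intro a _ b _ hab
        cases hab; rfl
      refine Set.Finite.of_finite_image ?_ this
      refine s.finite_toSet.subset ?_
      rintro _ ⟨r, hr, rfl⟩
      exact (hR2 r).mp hr
    obtain ⟨W, K, hK, hK1, hWK⟩ := lemmaB0 hD.fc R hR1 hfin
    refine ⟨Om.g '' (W : Set G) ∪ Om.x '' K,
      (W.countable_toSet.image _).union (hK.countable.image _), ?_⟩
    intro R' hR' hR2' H hH x hx hxR
    have hRR : R' = R := by
      ext r
      rw [hR2, hR2']
    subst hRR
    obtain ⟨k, hk, hk2⟩ := hWK H (fun a ha => hH a (Or.inl ⟨a, ha, rfl⟩)) x hx hxR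
    exact ⟨k, hK1 k hk, Or.inr ⟨k, hk, rfl⟩, hk2⟩
  · refine ⟨∅, Set.countable_empty, ?_⟩
    intro R hR1 hR2
    exact absurd ⟨R, hR1, hR2⟩ hR

/-- all requirements -/
def Req (chi : (j : J) → G → ZMod (n j)) (s : Finset (Om G J n)) (t : Set (Om G J n)) : Prop :=
  Om.g 1 ∈ t ∧ Om.x 1 ∈ t ∧ (∀ a ∈ s, U1 chi a t) ∧ (∀ a ∈ s, ∀ b ∈ s, U2 a b t) ∧ U3 s t

theorem exReq (hD : Dat chi) (s : Finset (Om G J n)) :
    ∃ t : Set (Om G J n), t.Countable ∧ Req chi s t := by
  choose f1 hf1 hf1' using exU1 hD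
  choose f2 hf2 hf2' using (exU2 : ∀ a b : Om G J n, _)
  obtain ⟨t3, ht3, ht3'⟩ := exU3 hD s
  refine ⟨{Om.g 1, Om.x 1} ∪ (⋃ a ∈ s, f1 a) ∪ (⋃ a ∈ s, ⋃ b ∈ s, f2 a b) ∪ t3, ?_, ?_⟩
  · refine ((Set.Countable.union ?_ ?_).union ?_).union ht3
    · exact (Set.toFinite _).countable
    · exact Set.Countable.biUnion s.countable_toSet (fun a _ => hf1 a)
    · exact Set.Countable.biUnion s.countable_toSet (fun a _ =>
        Set.Countable.biUnion s.countable_toSet (fun b _ => hf2 a b))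
  · refine ⟨by simp, by simp, fun a ha => (hf1' a).mono ?_, fun a ha b hb => (hf2' a b).mono ?_,
      ht3'.mono ?_⟩
    · intro o ho
      refine Or.inl (Or.inl (Or.inr ?_))
      exact Set.mem_biUnion (Finset.mem_coe.mpr ha) ho
    · intro o ho
      refine Or.inl (Or.inr ?_)
      exact Set.mem_biUnion (Finset.mem_coe.mpr ha) (Set.mem_biUnion (Finset.mem_coe.mpr hb) ho)
    · intro o ho
      exact Or.inr ho

end om

section gam

variable {G J : Type} [Group G] {n : J → ℕ}

/-- finitely supported families of class functions -/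
def V0 (G : Type) [Group G] {J : Type} (n : J → ℕ) : AddSubgroup ((j : J) → G → ZMod (n j)) where
  carrier := {v | {j | v j ≠ 0}.Finite ∧ ∀ j g c, v j (c⁻¹ * g * c) = v j g}
  zero_mem' := by
    refine ⟨?_, fun _ _ _ => rfl⟩
    convert Set.finite_empty
    ext j; simp
  add_mem' := by
    rintro v w ⟨hv, hv'⟩ ⟨hw, hw'⟩
    refine ⟨(hv.union hw).subset ?_, fun j g c => ?_⟩
    · intro j hj
      by_contra hc
      simp only [Set.mem_union, not_or] at hc
      apply hj
      have h1 : v j = 0 := by by_contra h; exact hc.1 h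
      have h2 : w j = 0 := by by_contra h; exact hc.2 h
      show v j + w j = 0
      rw [h1, h2, add_zero]
    · show v j _ + w j _ = v j g + w j g
      rw [hv', hw']
  neg_mem' := by
    rintro v ⟨hv, hv'⟩
    refine ⟨hv.subset ?_, fun j g c => ?_⟩
    · intro j hj h
      apply hj
      show - v j = 0
      rw [h, neg_zero]
    · show - v j _ = - v j g
      rw [hv']

theorem dl_class {y : MulAut G} {h c : G} (hh : dl y h ∈ Subgroup.center G)
    (hc : dl y c ∈ Subgroup.center G) : dl y (c⁻¹ * h * c) = dl y h := by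
  have e1 := dl_eq y h
  have e2 := dl_eq y c
  have h1 := Subgroup.mem_center_iff.mp hh
  have h2 := Subgroup.mem_center_iff.mp hc
  have e3 : y (c⁻¹ * h * c) = (c * dl y c)⁻¹ * (h * dl y h) * (c * dl y c) := by
    rw [map_mul, map_mul, map_inv, ← e1, ← e2]
  have : dl y (c⁻¹ * h * c) = (c⁻¹ * h * c)⁻¹ * y (c⁻¹ * h * c) := rfl
  rw [this, e3]
  calc (c⁻¹ * h * c)⁻¹ * ((c * dl y c)⁻¹ * (h * dl y h) * (c * dl y c))
      = c⁻¹ * h⁻¹ * c * ((dl y c)⁻¹ * (c⁻¹ * h * (dl y h * c) * dl y c)) := by group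
    _ = c⁻¹ * h⁻¹ * c * ((dl y c)⁻¹ * (c⁻¹ * h * (c * dl y h) * dl y c)) := by rw [h1 c]
    _ = c⁻¹ * h⁻¹ * c * ((dl y c)⁻¹ * ((c⁻¹ * h * c * dl y h) * dl y c)) := by group
    _ = c⁻¹ * h⁻¹ * c * ((dl y c)⁻¹ * (dl y c * (c⁻¹ * h * c * dl y h))) := by
        rw [h2 (c⁻¹ * h * c * dl y h)]
    _ = dl y h := by group

theorem dl_hom {y : MulAut G} {a b : G} (hh : dl y a ∈ Subgroup.center G) :
    dl y (a * b) = dl y a * dl y b := by
  have h1 := Subgroup.mem_center_iff.mp hh
  unfold dl at *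
  rw [map_mul]
  calc (a * b)⁻¹ * (y a * y b) = b⁻¹ * (a⁻¹ * y a) * y b := by group
    _ = (a⁻¹ * y a) * b⁻¹ * y b := by rw [h1 b⁻¹]
    _ = _ := by group

theorem central_of_dl {d : MulAut G} (hd : ∀ g, dl d g ∈ Subgroup.center G) {y : MulAut G}
    (hy : LI (y : G → G)) : d * y = y * d := by
  ext g
  rw [MulAut.mul_apply, MulAut.mul_apply]
  rw [dl_eq d (y g), dl_eq d g, map_mul, hy.center (hd g)]
  congr 1
  obtain ⟨c, hc⟩ := hy {g}
  rw [hc g (by simp)]
  exact dl_class (hd g) (hd c)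

/-- the big product -/
abbrev G0 (G : Type) [Group G] {J : Type} (n : J → ℕ) : Type :=
  (XX G) × Multiplicative (V0 G n)

/-- second component as a function -/
def fn (p : G0 G n) : (j : J) → G → ZMod (n j) := (Multiplicative.toAdd p.2).1

theorem fn_mul (p q : G0 G n) (j : J) (g : G) : fn (p * q) j g = fn p j g + fn q j g := rfl
theorem fn_inv (p : G0 G n) (j : J) (g : G) : fn p⁻¹ j g = - fn p j g := rfl
theorem fn_one (j : J) (g : G) : fn (1 : G0 G n) j g = 0 := rfl

theorem G0_ext {p q : G0 G n} (h1 : p.1.1 = q.1.1) (h2 : ∀ j g, fn p j g = fn q j g) : p = q := by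
  apply Prod.ext
  · exact Subtype.ext h1
  · apply Multiplicative.toAdd.injective
    apply Subtype.ext
    funext j g
    exact h2 j g

variable (chi : (j : J) → G → ZMod (n j))

/-- the relation subgroup -/
def Del (hD : Dat chi) : Subgroup (G0 G n) where
  carrier := {p | (∀ g, dl p.1.1 g ∈ Subgroup.center G) ∧ ∀ j g, fn p j g = - chi j (dl p.1.1 g)}
  one_mem' := by
    have h1 : ∀ g : G, dl (1 : MulAut G) g = 1 := fun g => by simp [dl]
    refine ⟨fun g => ?_, fun j g => ?_⟩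
    · show dl (1 : MulAut G) g ∈ _
      rw [h1]; exact one_mem _
    · have := hD.chi_mul j 1 1 (one_mem _) (one_mem _)
      have h2 : chi j 1 = 0 := by simpa using this
      show (0 : ZMod (n j)) = - chi j (dl (1 : MulAut G) g)
      rw [h1, h2, neg_zero]
  mul_mem' := by
    rintro p q ⟨hp, hp'⟩ ⟨hq, hq'⟩
    have h1 : ∀ g, dl (p * q).1.1 g = dl p.1.1 g * dl q.1.1 g := by
      intro g
      show dl (p.1.1 * q.1.1) g = _
      rw [dl_mul, p.1.2.1.center (hq g)]
    refine ⟨fun g => ?_, fun j g => ?_⟩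
    · rw [h1]; exact mul_mem (hp g) (hq g)
    · rw [fn_mul, h1, hp', hq', hD.chi_mul j _ _ ⟨hp g, p.1.2.1.dl_comm g⟩ ⟨hq g, q.1.2.1.dl_comm g⟩]
      ring
  inv_mem' := by
    rintro p ⟨hp, hp'⟩
    have h1 : ∀ g, dl (p⁻¹).1.1 g = (dl p.1.1 g)⁻¹ := by
      intro g
      show dl (p.1.1)⁻¹ g = _
      rw [dl_inv]
      congr 1
      have hinv := (inv_mem p.1.2 : (p.1.1)⁻¹ ∈ XX G)
      obtain ⟨c, hc⟩ := hinv.1 {g}
      rw [hc g (by simp)]
      exact dl_class (hp g) (hp c)
    refine ⟨fun g => ?_, fun j g => ?_⟩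
    · rw [h1]; exact inv_mem (hp g)
    · rw [fn_inv, h1, hp']
      have h2 := hD.chi_mul j (dl p.1.1 g) (dl p.1.1 g)⁻¹ ⟨hp g, p.1.2.1.dl_comm g⟩
        (inv_mem ⟨hp g, p.1.2.1.dl_comm g⟩)
      have h3 := hD.chi_mul j 1 1 (one_mem _) (one_mem _)
      have h4 : chi j 1 = 0 := by simpa using h3
      rw [mul_inv_cancel, h4] at h2
      have : chi j (dl p.1.1 g)⁻¹ = - chi j (dl p.1.1 g) := by
        rw [eq_neg_iff_add_eq_zero, add_comm, ← h2]
      rw [this]

theorem Del_normal (hD : Dat chi) : (Del chi hD).Normal := by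
  constructor
  intro p hp q
  have h1 : (q * p * q⁻¹) = p := by
    apply G0_ext
    · show q.1.1 * p.1.1 * (q.1.1)⁻¹ = p.1.1
      rw [← central_of_dl hp.1 q.1.2.1]
      group
    · intro j g
      rw [fn_mul, fn_mul, fn_inv]
      ring
  rw [h1]
  exact hp

end gam

section closed

variable {G J : Type} [Group G] {n : J → ℕ} [∀ j, NeZero (n j)] {chi : (j : J) → G → ZMod (n j)}
  (hD : Dat chi)

/-- the closure operation -/
noncomputable def FF (s : Finset (Om G J n)) : Set (Om G J n) := (exReq hD s).choose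

theorem FF_countable (s : Finset (Om G J n)) : (FF hD s).Countable := (exReq hD s).choose_spec.1

theorem FF_req (s : Finset (Om G J n)) : Req chi s (FF hD s) := (exReq hD s).choose_spec.2

variable {hD} {C : Set (Om G J n)} (hC : Closed (FF hD) C)

include hC

theorem c_g1 : Om.g 1 ∈ C := hC ∅ (by simp) (FF_req hD ∅).1

theorem c_x1 : Om.x 1 ∈ C := hC ∅ (by simp) (FF_req hD ∅).2.1

theorem c_U1 {a : Om G J n} (ha : a ∈ C) : U1 chi a C := by
  classical
  have := (FF_req hD {a}).2.2.1 a (by simp)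
  exact this.mono (hC {a} (by simpa using ha))

theorem c_U2 {a b : Om G J n} (ha : a ∈ C) (hb : b ∈ C) : U2 a b C := by
  classical
  have := (FF_req hD {a, b}).2.2.2.1 a (by simp) b (by simp)
  refine this.mono (hC {a, b} ?_)
  intro o ho
  simp only [Finset.coe_insert, Finset.coe_singleton, Set.mem_insert_iff, Set.mem_singleton_iff] at ho
  rcases ho with rfl | rfl
  · exact ha
  · exact hb

theorem c_U3 {s : Finset (Om G J n)} (hs : ↑s ⊆ C) : U3 s C :=
  (FF_req hD s).2.2.2.2.mono (hC s hs)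

/-- the subgroup of `G` -/
def HH : Subgroup G where
  carrier := {a | Om.g a ∈ C}
  one_mem' := c_g1 hC
  mul_mem' := fun {a b} ha hb => (c_U2 hC ha hb).1 a b rfl rfl
  inv_mem' := fun ha => (c_U1 hC ha).1

theorem mem_HH {a : G} : a ∈ HH hC ↔ Om.g a ∈ C := Iff.rfl

theorem HH_conj {a : G} (ha : a ∈ HH hC) (c : G) : c⁻¹ * a * c ∈ HH hC := (c_U1 hC ha).2.1 c

theorem HH_normal : (HH hC).Normal := by
  constructor
  intro a ha c
  have := HH_conj hC ha c⁻¹
  simpa using this

theorem HH_conj' {a : G} (ha : a ∈ HH hC) (c : G) : ∃ c' ∈ HH hC, c⁻¹ * a * c = c'⁻¹ * a * c' :=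
  (c_U1 hC ha).2.2 c

theorem dl_li_HH {y : MulAut G} (hy : ∀ h ∈ HH hC, dl y h ∈ Subgroup.center G) {x : MulAut G}
    (hx : LI (x : G → G)) {h : G} (hh : h ∈ HH hC) : dl y (x h) = dl y h := by
  obtain ⟨c, hc⟩ := hx {h}
  rw [hc h (by simp)]
  obtain ⟨c', hc', he⟩ := HH_conj' hC hh c
  rw [he]
  exact dl_class (hy h hh) (hy c' hc')

/-- functions -/
def EE (j : J) : Submodule (ZMod (n j)) (G → ZMod (n j)) where
  carrier := {f | f = 0 ∨ (Om.e j f ∈ C ∧ ∀ g c, f (c⁻¹ * g * c) = f g)}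
  zero_mem' := Or.inl rfl
  add_mem' := by
    rintro f f' (rfl | ⟨hf, hf'⟩) (rfl | ⟨hg, hg'⟩)
    · left; simp
    · right; rw [zero_add]; exact ⟨hg, hg'⟩
    · right; rw [add_zero]; exact ⟨hf, hf'⟩
    · right
      refine ⟨(c_U2 hC hf hg).2.2 j f f' rfl rfl, fun g c => ?_⟩
      show f _ + f' _ = f g + f' g
      rw [hf', hg']
  smul_mem' := by
    rintro r f (rfl | ⟨hf, hf'⟩)
    · left; simp
    · right
      refine ⟨(c_U1 hC hf).1 (fun a => r * a), fun g c => ?_⟩
      show r * f _ = r * f g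
      rw [hf']

theorem EE_comp (j : J) (e : G → ZMod (n j)) (he : e ∈ EE hC j) (φ : ZMod (n j) → ZMod (n j))
    (h0 : φ 0 = 0) : (fun g => φ (e g)) ∈ EE hC j := by
  rcases he with rfl | ⟨he, he'⟩
  · left
    funext g
    exact h0
  · right
    refine ⟨(c_U1 hC he).1 φ, fun g c => ?_⟩
    show φ (e _) = φ (e g)
    rw [he']

theorem EE_inj (j : J) (e : G → ZMod (n j)) (he : e ∈ EE hC j)
    (h0 : ∀ h ∈ (HH hC : Set G), e h = 0) : e = 0 := by
  rcases he with rfl | ⟨he, he'⟩
  · rfl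
  · by_contra hne
    obtain ⟨g, hg⟩ := Function.ne_iff.mp hne
    obtain ⟨g', hg', hg''⟩ := (c_U1 hC he).2 ⟨g, hg⟩
    exact hg'' (h0 g' hg')

theorem EE_class (j : J) (e : G → ZMod (n j)) (he : e ∈ EE hC j) (g c : G) :
    e (c⁻¹ * g * c) = e g := by
  rcases he with rfl | ⟨he, he'⟩
  · rfl
  · exact he' g c

theorem exR (j : J) : ∃ r : (↥(HH hC : Set G) → ZMod (n j)) →ₗ[ZMod (n j)] (G → ZMod (n j)),
    (∀ f, r f ∈ EE hC j) ∧ ∀ e ∈ EE hC j, r (fun h : ↥(HH hC : Set G) => e h.1) = e :=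
  exists_retraction (n j) (EE hC j) (EE_comp hC j) _ (EE_inj hC j)

theorem exK {x : MulAut G} (hx : x ∈ XX G) : ∃ k ∈ XX G, Om.x k ∈ C ∧
    ∀ h ∈ HH hC, dl (k⁻¹ * x) h ∈ Subgroup.center G := by
  classical
  have hfin : (dl x '' (HH hC : Set G)).Finite := hx.2.subset (Set.image_subset_range _ _)
  have hsub : dl x '' (HH hC : Set G) ⊆ (commutator G : Set G) := by
    rintro _ ⟨h, _, rfl⟩
    exact hx.1.dl_comm h
  have hR := hD.lf _ hfin hsub
  set R := Subgroup.normalClosure (dl x '' (HH hC : Set G)) with hRdef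
  have hRH : R ≤ HH hC := by
    have := HH_normal hC
    apply Subgroup.normalClosure_le_normal
    rintro _ ⟨h, hh, rfl⟩
    exact hx.1.dl_normal this hh
  have hs : ↑(hR.toFinset.image (Om.g : G → Om G J n)) ⊆ C := by
    intro o ho
    rw [Finset.mem_coe, Finset.mem_image] at ho
    obtain ⟨r, hr, rfl⟩ := ho
    exact hRH (hR.mem_toFinset.mp hr)
  obtain ⟨k, hk1, hk2, hk3⟩ := c_U3 hC hs R Subgroup.normalClosure_normal (by
    intro r
    constructor
    · intro hr
      exact Finset.mem_image_of_mem _ (hR.mem_toFinset.mpr hr)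
    · intro hr
      obtain ⟨r', hr', he⟩ := Finset.mem_image.mp hr
      cases he
      exact hR.mem_toFinset.mp hr') (HH hC) (fun a ha => ha) x hx
      (fun h hh => Subgroup.subset_normalClosure ⟨h, hh, rfl⟩)
  exact ⟨k, hk1, hk2, hk3⟩

/-- elements of `K` that are central on `H` are central -/
theorem c4 {k : MulAut G} (hk : k ∈ XX G) (hkC : Om.x k ∈ C)
    (h : ∀ h ∈ HH hC, dl k h ∈ Subgroup.center G) : ∀ g, dl k g ∈ Subgroup.center G := by
  by_contra hcon
  push Not at hcon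
  obtain ⟨g, hg, hg'⟩ := (c_U1 hC hkC hk).2.2.1 hcon
  exact hg' (h g hg)

theorem c8 {k : MulAut G} (hk : k ∈ XX G) (hkC : Om.x k ∈ C)
    (h : ∀ g, dl k g ∈ Subgroup.center G) (j : J) : (fun g => chi j (dl k g)) ∈ EE hC j := by
  by_cases h0 : (fun g => chi j (dl k g)) = 0
  · exact Or.inl h0
  · right
    refine ⟨(c_U1 hC hkC hk).2.2.2 h j h0, fun g c => ?_⟩
    show chi j (dl k (c⁻¹ * g * c)) = chi j (dl k g)
    rw [dl_class (h g) (h c)]

end closed

section PP

variable {G J : Type} [Group G] {n : J → ℕ} [∀ j, NeZero (n j)] {chi : (j : J) → G → ZMod (n j)}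
  {hD : Dat chi}

/-- elements of the product lying in `C` -/
def PPset (C : Set (Om G J n)) : Set (G0 G n) :=
  {p | Om.x p.1.1 ∈ C ∧ ∀ j, (fn p j = 0 ∨ Om.e j (fn p j) ∈ C)}

/-- the subgroup -/
def PP {C : Set (Om G J n)} (hC : Closed (FF hD) C) : Subgroup (G0 G n) where
  carrier := PPset C
  one_mem' := ⟨c_x1 hC, fun j => Or.inl rfl⟩
  mul_mem' := by
    rintro p q ⟨hp, hp'⟩ ⟨hq, hq'⟩
    refine ⟨(c_U2 hC hp hq).2.1 _ _ rfl rfl, fun j => ?_⟩
    rcases hp' j with h1 | h1
    · rcases hq' j with h2 | h2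
      · left
        show fn p j + fn q j = 0
        rw [h1, h2, add_zero]
      · right
        show Om.e j (fn p j + fn q j) ∈ C
        rw [h1, zero_add]; exact h2
    · rcases hq' j with h2 | h2
      · right
        show Om.e j (fn p j + fn q j) ∈ C
        rw [h2, add_zero]; exact h1
      · right
        exact (c_U2 hC h1 h2).2.2 j _ _ rfl rfl
  inv_mem' := by
    rintro p ⟨hp, hp'⟩
    refine ⟨((c_U1 hC hp) p.1.2).1, fun j => ?_⟩
    rcases hp' j with h1 | h1
    · left
      show - fn p j = 0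
      rw [h1, neg_zero]
    · right
      exact (c_U1 hC h1).1 (fun a => - a)

variable (hD)

/-- the group -/
abbrev Gam : Type := G0 G n ⧸ Del chi hD

instance : (Del chi hD).Normal := Del_normal chi hD

/-- images -/
def PG (C : Set (Om G J n)) : Subgroup (Gam hD) :=
  Subgroup.map (QuotientGroup.mk' (Del chi hD)) (Subgroup.closure (PPset C))

variable {hD}

theorem mem_PG {C : Set (Om G J n)} (hC : Closed (FF hD) C) (x : Gam hD) :
    x ∈ PG hD C ↔ ∃ p ∈ PPset C, (QuotientGroup.mk p : Gam hD) = x := by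
  have h1 : Subgroup.closure (PPset C) = PP hC := by
    have : (PPset C) = (PP hC : Set (G0 G n)) := rfl
    rw [this, Subgroup.closure_eq]
  unfold PG
  rw [h1]
  rfl

theorem PG_mono (C C' : Set (Om G J n)) (h : C ⊆ C') : PG hD C ≤ PG hD C' := by
  apply Subgroup.map_mono
  apply Subgroup.closure_mono
  rintro p ⟨hp, hp'⟩
  refine ⟨h hp, fun j => ?_⟩
  rcases hp' j with h1 | h1
  · exact Or.inl h1
  · exact Or.inr (h h1)

open Classical in
/-- finite code of an element -/
noncomputable def code (p : G0 G n) : Finset (Om G J n) :=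
  insert (Om.x p.1.1) ((Multiplicative.toAdd p.2).2.1.toFinset.image (fun j => Om.e j (fn p j)))

theorem code_sub (C : Set (Om G J n)) (p : G0 G n) : p ∈ PPset C ↔ ↑(code p) ⊆ C := by
  classical
  constructor
  · rintro ⟨hp, hp'⟩ o ho
    rw [code, Finset.mem_coe, Finset.mem_insert] at ho
    rcases ho with rfl | ho
    · exact hp
    · obtain ⟨j, hj, rfl⟩ := Finset.mem_image.mp ho
      rcases hp' j with h1 | h1
      · exact absurd h1 ((Set.Finite.mem_toFinset _).mp hj)
      · exact h1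
  · intro h
    refine ⟨h (by rw [code, Finset.mem_coe]; exact Finset.mem_insert_self _ _), fun j => ?_⟩
    by_cases hj : fn p j = 0
    · exact Or.inl hj
    · right
      apply h
      rw [code, Finset.mem_coe]
      apply Finset.mem_insert_of_mem
      exact Finset.mem_image_of_mem _ ((Set.Finite.mem_toFinset _).mpr hj)

theorem code_inj : Function.Injective (code : G0 G n → Finset (Om G J n)) := by
  classical
  intro p q h
  have h1 : p.1.1 = q.1.1 := by
    have : (Om.x p.1.1 : Om G J n) ∈ code q := by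
      rw [← h, code]; exact Finset.mem_insert_self _ _
    rw [code, Finset.mem_insert] at this
    rcases this with h1 | h1
    · exact Om.x.inj h1
    · obtain ⟨j, _, hj⟩ := Finset.mem_image.mp h1
      cases hj
  have h2 : ∀ p q : G0 G n, code p = code q → ∀ j, fn p j ≠ 0 → fn p j = fn q j := by
    intro p q h j hj
    have : (Om.e j (fn p j) : Om G J n) ∈ code q := by
      rw [← h, code]
      apply Finset.mem_insert_of_mem
      exact Finset.mem_image_of_mem _ ((Set.Finite.mem_toFinset _).mpr hj)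
    rw [code, Finset.mem_insert] at this
    rcases this with h1 | h1
    · cases h1
    · obtain ⟨j', _, hj'⟩ := Finset.mem_image.mp h1
      injection hj' with h3 h4
      subst h3
      exact (eq_of_heq h4).symm
  apply G0_ext h1
  intro j g
  by_cases hj : fn p j = 0
  · by_cases hj' : fn q j = 0
    · rw [hj, hj']
    · rw [h2 q p h.symm j hj']
  · rw [h2 p q h j hj]

theorem PG_fin (C : Set (Om G J n)) (hC : Closed (FF hD) C) (x : Gam hD) (hx : x ∈ PG hD C) :
    ∃ s : Finset (Om G J n), ↑s ⊆ C ∧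
      ∀ C', Closed (FF hD) C' → ↑s ⊆ C' → x ∈ PG hD C' := by
  obtain ⟨p, hp, rfl⟩ := (mem_PG hC x).mp hx
  refine ⟨code p, (code_sub C p).mp hp, fun C' hC' hs => ?_⟩
  exact (mem_PG hC' _).mpr ⟨p, (code_sub C' p).mpr hs, rfl⟩

theorem PPset_countable (C : Set (Om G J n)) (hc : C.Countable) : (PPset C).Countable := by
  classical
  have := hc.to_subtype
  let f : PPset C → Finset C := fun p => (code p.1).subtype (· ∈ C)
  have hf : Function.Injective f := by
    intro p q hpq
    apply Subtype.ext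
    apply code_inj
    ext o
    have h1 := (code_sub C p.1).mp p.2
    have h2 := (code_sub C q.1).mp q.2
    constructor
    · intro ho
      have : (⟨o, h1 ho⟩ : C) ∈ f p := Finset.mem_subtype.mpr ho
      rw [hpq] at this
      exact Finset.mem_subtype.mp this
    · intro ho
      have : (⟨o, h2 ho⟩ : C) ∈ f q := Finset.mem_subtype.mpr ho
      rw [← hpq] at this
      exact Finset.mem_subtype.mp this
  exact hf.countable

theorem PG_normal (C : Set (Om G J n)) (hC : Closed (FF hD) C) : (PG hD C).Normal := by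
  constructor
  intro x hx y
  obtain ⟨p, ⟨hp, hp'⟩, rfl⟩ := (mem_PG hC x).mp hx
  obtain ⟨q, rfl⟩ := QuotientGroup.mk_surjective y
  refine (mem_PG hC _).mpr ⟨q * p * q⁻¹, ⟨?_, fun j => ?_⟩, rfl⟩
  · have := ((c_U1 hC hp) p.1.2).2.1 (q.1.1)⁻¹ (inv_mem q.1.2)
    rw [inv_inv] at this
    exact this
  · have : fn (q * p * q⁻¹) j = fn p j := by
      funext g
      rw [fn_mul, fn_mul, fn_inv]
      ring
    rw [this]
    exact hp' j

end PP

section retr

variable {G J : Type} [Group G] {n : J → ℕ} [∀ j, NeZero (n j)] {chi : (j : J) → G → ZMod (n j)}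
  {hD : Dat chi}

omit [∀ j, NeZero (n j)] in
theorem chi_one (hD : Dat chi) (j : J) : chi j 1 = 0 := by
  have := hD.chi_mul j 1 1 (one_mem _) (one_mem _)
  simpa using this

theorem exRho {C : Set (Om G J n)} (hC : Closed (FF hD) C) :
    ∃ ρ : Gam hD →* Gam hD, (∀ x, ρ x ∈ PG hD C) ∧ ∀ x ∈ PG hD C, ρ x = x := by
  classical
  choose r hr1 hr2 using exR hC
  choose k hk1 hk2 hk3 using (fun x : XX G => exK hC x.2)
  -- the functional part
  set w : MulAut G → ((j : J) → G → ZMod (n j)) → ((j : J) → G → ZMod (n j)) :=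
    fun y v j => r j (fun h : ↥(HH hC : Set G) => v j h.1 + chi j (dl y h.1)) with hw
  have hwV : ∀ y ∈ XX G, (∀ h ∈ HH hC, dl y h ∈ Subgroup.center G) → ∀ v ∈ V0 G n,
      w y v ∈ V0 G n := by
    intro y hy hyc v hv
    constructor
    · refine (hv.1.union (chid_fin hD hy (HH hC : Set G) hyc)).subset ?_
      intro j hj
      by_contra hcon
      simp only [Set.mem_union, not_or] at hcon
      obtain ⟨h1, h2⟩ := hcon
      apply hj
      have h1' : v j = 0 := by by_contra h; exact h1 h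
      have h2' : ∀ h ∈ HH hC, chi j (dl y h) = 0 := by
        intro h hh
        by_contra h3
        exact h2 ⟨h, hh, h3⟩
      have : (fun h : ↥(HH hC : Set G) => v j h.1 + chi j (dl y h.1)) = 0 := by
        funext h
        rw [h1', h2' h.1 h.2]
        simp
      show r j _ = 0
      rw [this, map_zero]
    · intro j g c
      exact EE_class hC j _ (hr1 j _) g c
  -- elements
  let el : (kk : XX G) → (y : MulAut G) → (v : V0 G n) → y ∈ XX G →
      (∀ h ∈ HH hC, dl y h ∈ Subgroup.center G) → G0 G n :=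
    fun kk y v hy hyc => (kk, Multiplicative.ofAdd ⟨w y v.1, hwV y hy hyc v.1 v.2⟩)
  have hfn_el : ∀ kk y v hy hyc j, fn (el kk y v hy hyc) j =
      r j (fun h : ↥(HH hC : Set G) => v.1 j h.1 + chi j (dl y h.1)) := fun _ _ _ _ _ _ => rfl
  have hWD : ∀ (k1 k2 : XX G) (y1 y2 : MulAut G) (v : V0 G n) (hy1 : y1 ∈ XX G) (hy2 : y2 ∈ XX G)
      (hc1 : ∀ h ∈ HH hC, dl y1 h ∈ Subgroup.center G)
      (hc2 : ∀ h ∈ HH hC, dl y2 h ∈ Subgroup.center G),
      Om.x k1.1 ∈ C → Om.x k2.1 ∈ C → k1.1 * y1 = k2.1 * y2 →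
      (QuotientGroup.mk (el k1 y1 v hy1 hc1) : Gam hD) = QuotientGroup.mk (el k2 y2 v hy2 hc2) := by
    intro k1 k2 y1 y2 v hy1 hy2 hc1 hc2 hk1C hk2C heq
    rw [QuotientGroup.eq]
    set d := k1.1⁻¹ * k2.1 with hd
    have hdX : d ∈ XX G := mul_mem (inv_mem k1.2) k2.2
    have hdC : Om.x d ∈ C := by
      have h1 := ((c_U1 hC hk1C) k1.2).1
      exact (c_U2 hC h1 hk2C).2.1 _ _ rfl rfl
    have hyd : y1 = d * y2 := by
      rw [hd, mul_assoc, ← heq]; group
    have hdl : ∀ h ∈ HH hC, dl y1 h = dl d h * dl y2 h := by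
      intro h hh
      rw [hyd, dl_mul, hdX.1.center (hc2 h hh)]
    have hdH : ∀ h ∈ HH hC, dl d h ∈ Subgroup.center G := by
      intro h hh
      have : dl d h = dl y1 h * (dl y2 h)⁻¹ := by rw [hdl h hh]; group
      rw [this]
      exact mul_mem (hc1 h hh) (inv_mem (hc2 h hh))
    have hdG := c4 hC hdX hdC hdH
    refine ⟨hdG, fun j g => ?_⟩
    show - r j _ g + r j _ g = - chi j (dl d g)
    have h1 := hr2 j _ (c8 hC hdX hdC hdG j)
    have h2 : (fun h : ↥(HH hC : Set G) => v.1 j h.1 + chi j (dl y1 h.1)) =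
        (fun h : ↥(HH hC : Set G) => v.1 j h.1 + chi j (dl y2 h.1)) +
        (fun h : ↥(HH hC : Set G) => chi j (dl d h.1)) := by
      funext h
      show _ = (v.1 j h.1 + chi j (dl y2 h.1)) + chi j (dl d h.1)
      rw [hdl h.1 h.2, hD.chi_mul j _ _ ⟨hdH h.1 h.2, hdX.1.dl_comm _⟩ ⟨hc2 h.1 h.2, hy2.1.dl_comm _⟩]
      ring
    rw [h2, map_add]
    have h3 := congrFun h1 g
    show - (r j _ g + r j _ g) + r j _ g = _
    rw [h3]
    ring
  -- the remainder
  let yy : XX G → MulAut G := fun x => (k x)⁻¹ * x.1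
  have hyX : ∀ x, yy x ∈ XX G := fun x => mul_mem (inv_mem (hk1 x)) x.2
  let ρ0 : G0 G n → Gam hD := fun p => QuotientGroup.mk
    (el ⟨k p.1, hk1 p.1⟩ (yy p.1) (Multiplicative.toAdd p.2) (hyX p.1) (hk3 p.1))
  have hρ0 : ∀ (p : G0 G n) (k' : XX G) (y' : MulAut G) (hy' : y' ∈ XX G)
      (hc' : ∀ h ∈ HH hC, dl y' h ∈ Subgroup.center G), Om.x k'.1 ∈ C → p.1.1 = k'.1 * y' →
      ρ0 p = QuotientGroup.mk (el k' y' (Multiplicative.toAdd p.2) hy' hc') := by
    intro p k' y' hy' hc' hkC heq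
    refine hWD ⟨k p.1, hk1 p.1⟩ k' (yy p.1) y' (Multiplicative.toAdd p.2) (hyX p.1) hy'
      (hk3 p.1) hc' (hk2 p.1) hkC ?_
    show k p.1 * ((k p.1)⁻¹ * p.1.1) = _
    rw [← heq]; group
  have hmul : ∀ p q, ρ0 (p * q) = ρ0 p * ρ0 q := by
    intro p q
    set kp := k p.1
    set kq := k q.1
    set yp := yy p.1 with hyp
    set yq := yy q.1 with hyq
    have hy'X : kq⁻¹ * yp * kq * yq ∈ XX G :=
      mul_mem (mul_mem (mul_mem (inv_mem (hk1 q.1)) (hyX p.1)) (hk1 q.1)) (hyX q.1)
    have hdl : ∀ h ∈ HH hC, dl (kq⁻¹ * yp * kq * yq) h = dl yp h * dl yq h := by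
      intro h hh
      have e1 : (kq⁻¹ * yp * kq * yq) h = h * (dl yp h * dl yq h) := by
        rw [MulAut.mul_apply, MulAut.mul_apply, MulAut.mul_apply, dl_eq yq h, map_mul,
          (hk1 q.1).1.center (hk3 q.1 h hh), map_mul, (hyX p.1).1.center (hk3 q.1 h hh),
          dl_eq yp (kq h), dl_li_HH hC (hk3 p.1) (hk1 q.1).1 hh, map_mul, map_mul,
          MulAut.inv_apply_self]
        have hinv := (inv_mem (hk1 q.1) : kq⁻¹ ∈ XX G)
        rw [hinv.1.center (hk3 p.1 h hh), hinv.1.center (hk3 q.1 h hh), mul_assoc]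
      unfold dl at e1 ⊢
      rw [e1]
      group
    have hc' : ∀ h ∈ HH hC, dl (kq⁻¹ * yp * kq * yq) h ∈ Subgroup.center G := by
      intro h hh
      rw [hdl h hh]
      exact mul_mem (hk3 p.1 h hh) (hk3 q.1 h hh)
    rw [hρ0 (p * q) ⟨kp * kq, mul_mem (hk1 p.1) (hk1 q.1)⟩ _ hy'X hc'
      ((c_U2 hC (hk2 p.1) (hk2 q.1)).2.1 _ _ rfl rfl) (by
        show p.1.1 * q.1.1 = (kp * kq) * (kq⁻¹ * yp * kq * yq)
        have h1 : yp = kp⁻¹ * p.1.1 := rfl
        have h2 : yq = kq⁻¹ * q.1.1 := rfl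
        rw [h1, h2]
        group)]
    show QuotientGroup.mk _ = QuotientGroup.mk (_ * _)
    congr 1
    apply G0_ext
    · rfl
    · intro j g
      rw [fn_mul]
      have hAB : (fun h : ↥(HH hC : Set G) => ((Multiplicative.toAdd p.2).1 j h.1 +
          (Multiplicative.toAdd q.2).1 j h.1) + chi j (dl (kq⁻¹ * yp * kq * yq) h.1)) =
          (fun h : ↥(HH hC : Set G) => (Multiplicative.toAdd p.2).1 j h.1 + chi j (dl yp h.1)) +
          (fun h : ↥(HH hC : Set G) => (Multiplicative.toAdd q.2).1 j h.1 + chi j (dl yq h.1)) := by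
        funext h
        show ((Multiplicative.toAdd p.2).1 j h.1 + (Multiplicative.toAdd q.2).1 j h.1) +
          chi j (dl (kq⁻¹ * yp * kq * yq) h.1) =
            ((Multiplicative.toAdd p.2).1 j h.1 + chi j (dl yp h.1))
            + ((Multiplicative.toAdd q.2).1 j h.1 + chi j (dl yq h.1))
        rw [hdl h.1 h.2, hD.chi_mul j _ _ ⟨hk3 p.1 h.1 h.2, (hyX p.1).1.dl_comm _⟩
          ⟨hk3 q.1 h.1 h.2, (hyX q.1).1.dl_comm _⟩]
        ring
      show r j (fun h : ↥(HH hC : Set G) => ((Multiplicative.toAdd p.2).1 j h.1 +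
          (Multiplicative.toAdd q.2).1 j h.1) + chi j (dl (kq⁻¹ * yp * kq * yq) h.1)) g = _
      rw [hAB, map_add]
      rfl
  have hdl1 : ∀ g : G, dl (1 : MulAut G) g = 1 := fun g => by simp [dl]
  have hker : ∀ p ∈ Del chi hD, ρ0 p = 1 := by
    intro p hp
    rw [hρ0 p 1 p.1.1 p.1.2 (fun h _ => hp.1 h) (c_x1 hC) (by simp)]
    rw [QuotientGroup.eq_one_iff]
    have : el 1 p.1.1 (Multiplicative.toAdd p.2) p.1.2 (fun h _ => hp.1 h) = 1 := by
      apply G0_ext
      · rfl
      · intro j g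
        rw [fn_one]
        show r j (fun h : ↥(HH hC : Set G) => (Multiplicative.toAdd p.2).1 j h.1 +
            chi j (dl p.1.1 h.1)) g = 0
        have : (fun h : ↥(HH hC : Set G) => (Multiplicative.toAdd p.2).1 j h.1 +
            chi j (dl p.1.1 h.1)) = 0 := by
          funext h
          have := hp.2 j h.1
          unfold fn at this
          rw [this]
          simp
        rw [this, map_zero]
        rfl
    rw [this]
    exact one_mem _
  let ρ : Gam hD →* Gam hD := QuotientGroup.lift (Del chi hD) (MonoidHom.mk' ρ0 hmul) hker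
  have hρmk : ∀ p : G0 G n, ρ (QuotientGroup.mk p) = ρ0 p := fun p => rfl
  refine ⟨ρ, ?_, ?_⟩
  · intro x
    obtain ⟨p, rfl⟩ := QuotientGroup.mk_surjective x
    rw [hρmk]
    refine (mem_PG hC _).mpr ⟨_, ⟨hk2 p.1, fun j => ?_⟩, rfl⟩
    rcases hr1 j (fun h : ↥(HH hC : Set G) => (Multiplicative.toAdd p.2).1 j h.1 +
      chi j (dl (yy p.1) h.1)) with h1 | h1
    · left
      exact h1
    · right
      exact h1.1
  · intro x hx
    obtain ⟨p, ⟨hp, hp'⟩, rfl⟩ := (mem_PG hC x).mp hx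
    rw [hρmk, hρ0 p p.1 1 (one_mem _) (fun h _ => by rw [hdl1]; exact one_mem _) hp (by simp)]
    congr 1
    apply G0_ext
    · rfl
    · intro j g
      show r j (fun h : ↥(HH hC : Set G) => (Multiplicative.toAdd p.2).1 j h.1 +
            chi j (dl (1 : MulAut G) h.1)) g = _
      have h1 : fn p j ∈ EE hC j := by
        rcases hp' j with h1 | h1
        · exact Or.inl h1
        · exact Or.inr ⟨h1, (Multiplicative.toAdd p.2).2.2 j⟩
      have h2 := hr2 j _ h1
      have h3 : (fun h : ↥(HH hC : Set G) => (Multiplicative.toAdd p.2).1 j h.1 +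
            chi j (dl (1 : MulAut G) h.1)) = (fun h : ↥(HH hC : Set G) => fn p j h.1) := by
        funext h
        rw [hdl1, chi_one hD]
        simp [fn]
      rw [h3, h2]

end retr

section lf

variable {G J : Type} [Group G] {n : J → ℕ} [∀ j, NeZero (n j)] {chi : (j : J) → G → ZMod (n j)}

/-- elements with displacement in `R` -/
def XR (R : Subgroup G) (hR : R.Normal) : Subgroup (XX G) where
  carrier := {x | ∀ g, dl x.1 g ∈ R}
  one_mem' := by
    intro g
    have : dl (1 : MulAut G) g = 1 := by simp [dl]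
    show dl (1 : MulAut G) g ∈ R
    rw [this]; exact one_mem _
  mul_mem' := by
    intro x y hx hy g
    show dl (x.1 * y.1) g ∈ R
    rw [dl_mul]
    exact mul_mem (hx g) (x.2.1.normal hR (hy g))
  inv_mem' := by
    intro x hx g
    show dl (x.1)⁻¹ g ∈ R
    rw [dl_inv]
    exact inv_mem (hx _)

theorem XR_normal (R : Subgroup G) (hR : R.Normal) : (XR R hR).Normal := by
  constructor
  intro x hx c g
  show dl (c.1 * x.1 * (c.1)⁻¹) g ∈ R
  have : dl (c.1 * x.1 * (c.1)⁻¹) g = c.1 (dl x.1 ((c.1)⁻¹ g)) := by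
    unfold dl
    rw [map_mul, map_inv, MulAut.mul_apply, MulAut.mul_apply, MulAut.apply_inv_self]
  rw [this]
  exact c.2.1.normal hR (hx _)

theorem XX_lf (hD : Dat chi) (x : XX G) :
    ∃ N : Subgroup (XX G), N.Normal ∧ (N : Set (XX G)).Finite ∧ x ∈ N := by
  classical
  set F : Subgroup (XX G) := Subgroup.normalClosure {x} with hF
  have hxF : x ∈ F := Subgroup.subset_normalClosure rfl
  refine ⟨F, Subgroup.normalClosure_normal, ?_, hxF⟩
  -- finitely generated
  have hconj : (Group.conjugatesOfSet ({x} : Set (XX G))).Finite := by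
    have h1 := XX_classes x.2
    refine Set.Finite.of_finite_image (f := Subtype.val) (h1.subset ?_) (Subtype.val_injective.injOn)
    rintro _ ⟨w, hw, rfl⟩
    rw [Group.mem_conjugatesOfSet_iff] at hw
    obtain ⟨a, ha, hc⟩ := hw
    rw [Set.mem_singleton_iff] at ha
    subst ha
    rw [isConj_iff] at hc
    obtain ⟨c, hc⟩ := hc
    refine ⟨(c.1)⁻¹, inv_mem c.2, ?_⟩
    rw [← hc]
    simp
  have hfg : F.FG := by
    rw [Subgroup.fg_iff]
    exact ⟨_, rfl, hconj⟩
  -- the finite normal subgroup of G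
  have hRfin := hD.lf (Set.range (dl x.1)) x.2.2 (by
    rintro _ ⟨g, rfl⟩
    exact x.2.1.dl_comm g)
  set R := Subgroup.normalClosure (Set.range (dl x.1)) with hR
  have hRn : R.Normal := Subgroup.normalClosure_normal
  have hFR : F ≤ XR R hRn := by
    have := XR_normal R hRn
    apply Subgroup.normalClosure_le_normal
    intro w hw
    rw [Set.mem_singleton_iff] at hw
    subst hw
    intro g
    exact Subgroup.subset_normalClosure ⟨g, rfl⟩
  obtain ⟨S, hS⟩ := lemmaA hD.fc R hRn hRfin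
  -- pointwise stabilizer
  set F0 : Subgroup F := ⨅ s ∈ S, MulAction.stabilizer F s with hF0
  have hF0mem : ∀ y : F, y ∈ F0 → ∀ s ∈ S, y.1.1 s = s := by
    intro y hy s hs
    rw [hF0, Subgroup.mem_iInf] at hy
    have := hy s
    rw [Subgroup.mem_iInf] at this
    exact this hs
  have hF0fi : F0.FiniteIndex := by
    apply Subgroup.finiteIndex_iInf'
    intro s _
    constructor
    rw [MulAction.index_stabilizer]
    have hfin : (MulAction.orbit F s).Finite := by
      refine (hD.fc.fin s).subset ?_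
      rintro _ ⟨y, rfl⟩
      obtain ⟨c, hc⟩ := y.1.2.1 {s}
      exact ⟨c, hc s (by simp)⟩
    intro h0
    rw [Set.ncard_eq_zero hfin] at h0
    have : s ∈ MulAction.orbit F s := MulAction.mem_orbit_self s
    rw [h0] at this
    exact this
  have hcen : ∀ y : F, y ∈ F0 → ∀ g, dl y.1.1 g ∈ Subgroup.center G := by
    intro y hy g
    exact hS ⊤ (by simp) y.1.1 (fun h _ => hFR y.2 h) (hF0mem y hy) g trivial
  have hcomm : ∀ y z : F0, y * z = z * y := by
    intro y z
    apply Subtype.ext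
    apply Subtype.ext
    apply Subtype.ext
    exact central_of_dl (hcen y.1 y.2) z.1.1.2.1
  have hpow : ∀ y : F0, ∀ m : ℕ, ∀ g, (y.1.1.1 ^ m) g = g * (dl y.1.1.1 g) ^ m := by
    intro y m
    induction m with
    | zero => intro g; simp
    | succ m ih =>
      intro g
      rw [pow_succ', MulAut.mul_apply, ih, map_mul, map_pow, y.1.1.2.1.center (hcen y.1 y.2 g),
        dl_eq y.1.1.1 g, mul_assoc, ← pow_succ']
  have := hRfin.to_subtype
  have htors : Monoid.IsTorsion F0 := by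
    intro y
    rw [isOfFinOrder_iff_pow_eq_one]
    refine ⟨Nat.card R, Nat.card_pos, ?_⟩
    apply Subtype.ext
    apply Subtype.ext
    apply Subtype.ext
    ext g
    show (y.1.1.1 ^ (Nat.card R)) g = g
    rw [hpow]
    have h1 : dl y.1.1.1 g ∈ R := hFR y.1.2 g
    have h2 : (⟨dl y.1.1.1 g, h1⟩ : R) ^ Nat.card R = 1 := pow_card_eq_one'
    have h3 : (dl y.1.1.1 g) ^ Nat.card R = 1 := congrArg Subtype.val h2
    rw [h3, mul_one]
  have hFfg : Group.FG F := (Group.fg_iff_subgroup_fg F).mpr hfg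
  have hF0fg : Group.FG F0 := inferInstance
  letI : CommGroup F0 := { (inferInstance : Group F0) with mul_comm := hcomm }
  have hF0fin : Finite F0 := CommGroup.finite_of_fg_torsion F0 htors
  have hFfin : Finite F := (Subgroup.finite_iff_finite_and_finiteIndex F0).mpr ⟨hF0fin, hF0fi⟩
  exact Set.toFinite _

theorem V0_tors (v : V0 G n) : IsOfFinOrder (Multiplicative.ofAdd v) := by
  classical
  rw [isOfFinOrder_iff_pow_eq_one]
  refine ⟨∏ j ∈ v.2.1.toFinset, n j, ?_, ?_⟩
  · exact Finset.prod_pos (fun j _ => Nat.pos_of_ne_zero (NeZero.ne (n j)))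
  · set M := ∏ j ∈ v.2.1.toFinset, n j with hM
    have : M • v = 0 := by
      apply Subtype.ext
      funext j g
      show M • (v.1 j g) = 0
      by_cases hj : v.1 j = 0
      · rw [hj]; simp
      · have h1 : n j ∣ M := Finset.dvd_prod_of_mem _ ((Set.Finite.mem_toFinset _).mpr hj)
        rw [nsmul_eq_mul]
        have h2 : ((M : ℕ) : ZMod (n j)) = 0 := (ZMod.natCast_eq_zero_iff _ _).mpr h1
        rw [h2, zero_mul]
    show Multiplicative.ofAdd (M • v) = 1
    rw [this]
    rfl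

theorem Gam_lf (hD : Dat chi) (x : Gam hD) :
    ∃ N : Subgroup (Gam hD), N.Normal ∧ (N : Set (Gam hD)).Finite ∧ x ∈ N := by
  obtain ⟨p, rfl⟩ := QuotientGroup.mk_surjective x
  obtain ⟨N, hN1, hN2, hN3⟩ := XX_lf hD p.1
  have h2 : ((Subgroup.zpowers p.2 : Subgroup (Multiplicative (V0 G n))) :
      Set (Multiplicative (V0 G n))).Finite := by
    have := V0_tors (Multiplicative.toAdd p.2)
    rw [← finite_zpowers] at this
    exact this
  refine ⟨(N.prod (Subgroup.zpowers p.2)).map (QuotientGroup.mk' (Del chi hD)), ?_, ?_, ?_⟩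
  · have : (N.prod (Subgroup.zpowers p.2)).Normal := inferInstance
    exact this.map _ (QuotientGroup.mk'_surjective _)
  · rw [Subgroup.coe_map]
    apply Set.Finite.image
    rw [Subgroup.coe_prod]
    exact hN2.prod h2
  · exact ⟨p, ⟨hN3, Subgroup.mem_zpowers _⟩, rfl⟩

theorem dl_inv_central {x : MulAut G} (hx : x ∈ XX G) {g : G} (h : dl x g ∈ Subgroup.center G) :
    dl x⁻¹ g = (dl x g)⁻¹ := by
  have hinv := (inv_mem hx : x⁻¹ ∈ XX G)
  have h1 : x⁻¹ (x g) = g := MulAut.inv_apply_self _ _ _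
  rw [dl_eq x g, map_mul, hinv.1.center h] at h1
  have h2 : x⁻¹ g = g * (dl x g)⁻¹ := by
    rw [eq_mul_inv_iff_mul_eq]; exact h1
  have : dl x⁻¹ g = g⁻¹ * x⁻¹ g := rfl
  rw [this, h2]; group

/-- normal subgroups of finite index -/
def NN (hD : Dat chi) (u : G) (J0 : Finset J) : Subgroup (G0 G n) where
  carrier := {q | ∀ g, (∃ c, g = c⁻¹ * u * c) → (dl q.1.1 g ∈ Subgroup.center G ∧
    ∀ j ∈ J0, chi j (dl q.1.1 g) + fn q j g = 0)}
  one_mem' := by
    intro g _
    have : dl (1 : MulAut G) g = 1 := by simp [dl]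
    refine ⟨?_, fun j _ => ?_⟩
    · show dl (1 : MulAut G) g ∈ _
      rw [this]; exact one_mem _
    · show chi j (dl (1 : MulAut G) g) + 0 = 0
      rw [this, chi_one hD, add_zero]
  mul_mem' := by
    intro p q hp hq g hg
    obtain ⟨h1, h2⟩ := hp g hg
    obtain ⟨h3, h4⟩ := hq g hg
    have h5 : dl (p.1.1 * q.1.1) g = dl p.1.1 g * dl q.1.1 g := by
      rw [dl_mul, p.1.2.1.center h3]
    refine ⟨?_, fun j hj => ?_⟩
    · show dl (p.1.1 * q.1.1) g ∈ _
      rw [h5]; exact mul_mem h1 h3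
    · show chi j (dl (p.1.1 * q.1.1) g) + (fn p j g + fn q j g) = 0
      rw [h5, hD.chi_mul j _ _ ⟨h1, p.1.2.1.dl_comm g⟩ ⟨h3, q.1.2.1.dl_comm g⟩]
      have := h2 j hj
      have := h4 j hj
      linear_combination h2 j hj + h4 j hj
  inv_mem' := by
    intro p hp g hg
    obtain ⟨h1, h2⟩ := hp g hg
    have h5 : dl (p.1.1)⁻¹ g = (dl p.1.1 g)⁻¹ := dl_inv_central p.1.2 h1
    refine ⟨?_, fun j hj => ?_⟩
    · show dl (p.1.1)⁻¹ g ∈ _
      rw [h5]; exact inv_mem h1
    · show chi j (dl (p.1.1)⁻¹ g) + (- fn p j g) = 0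
      have h6 := hD.chi_mul j (dl p.1.1 g) (dl p.1.1 g)⁻¹ ⟨h1, p.1.2.1.dl_comm g⟩
        (inv_mem ⟨h1, p.1.2.1.dl_comm g⟩)
      rw [mul_inv_cancel, chi_one hD] at h6
      rw [h5]
      linear_combination - h2 j hj - h6

theorem NN_normal (hD : Dat chi) (u : G) (J0 : Finset J) : (NN hD u J0).Normal := by
  constructor
  intro p hp q g hg
  have hinv := (inv_mem q.1.2 : (q.1.1)⁻¹ ∈ XX G)
  obtain ⟨c, hc⟩ := hinv.1 {g}
  have hcg := hc g (by simp)
  have hg' : ∃ c, (q.1.1)⁻¹ g = c⁻¹ * u * c := by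
    obtain ⟨d, hd⟩ := hg
    refine ⟨d * c, ?_⟩
    rw [hcg, hd]; group
  obtain ⟨h1, h2⟩ := hp _ hg'
  have h3 : dl (q.1.1 * p.1.1 * (q.1.1)⁻¹) g = dl p.1.1 ((q.1.1)⁻¹ g) := by
    have : (q.1.1 * p.1.1 * (q.1.1)⁻¹) g = g * dl p.1.1 ((q.1.1)⁻¹ g) := by
      rw [MulAut.mul_apply, MulAut.mul_apply, dl_eq p.1.1 ((q.1.1)⁻¹ g), map_mul,
        q.1.2.1.center h1, MulAut.apply_inv_self]
    have h4 : dl (q.1.1 * p.1.1 * (q.1.1)⁻¹) g = g⁻¹ * (q.1.1 * p.1.1 * (q.1.1)⁻¹) g := rfl
    rw [h4, this]; group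
  refine ⟨?_, fun j hj => ?_⟩
  · show dl (q.1.1 * p.1.1 * (q.1.1)⁻¹) g ∈ _
    rw [h3]; exact h1
  · show chi j (dl (q.1.1 * p.1.1 * (q.1.1)⁻¹) g) + (fn q j g + fn p j g + - fn q j g) = 0
    have h5 : fn p j ((q.1.1)⁻¹ g) = fn p j g := by
      rw [hcg]
      exact (Multiplicative.toAdd p.2).2.2 j g c
    rw [h3]
    have h6 := h2 j hj
    rw [h5] at h6
    linear_combination h6

theorem Del_le_NN (hD : Dat chi) (u : G) (J0 : Finset J) : Del chi hD ≤ NN hD u J0 := by
  intro p hp g _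
  refine ⟨hp.1 g, fun j _ => ?_⟩
  rw [hp.2 j g]; ring

theorem NN_fi (hD : Dat chi) (u : G) (J0 : Finset J) : (NN hD u J0).FiniteIndex := by
  classical
  have hcls := hD.fc.fin u
  set A : Subgroup (XX G) := ⨅ s ∈ hcls.toFinset, MulAction.stabilizer (XX G) s with hA
  have hAfi : A.FiniteIndex := by
    apply Subgroup.finiteIndex_iInf'
    intro s _
    constructor
    rw [MulAction.index_stabilizer]
    have hfin : (MulAction.orbit (XX G) s).Finite := by
      refine (hD.fc.fin s).subset ?_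
      rintro _ ⟨y, rfl⟩
      obtain ⟨c, hc⟩ := y.2.1 {s}
      exact ⟨c, hc s (by simp)⟩
    intro h0
    rw [Set.ncard_eq_zero hfin] at h0
    have : s ∈ MulAction.orbit (XX G) s := MulAction.mem_orbit_self s
    rw [h0] at this
    exact this
  have hAmem : ∀ y : XX G, y ∈ A → ∀ s ∈ hcls.toFinset, y.1 s = s := by
    intro y hy s hs
    rw [hA, Subgroup.mem_iInf] at hy
    have := hy s
    rw [Subgroup.mem_iInf] at this
    exact this hs
  let ev : (j : J) → G0 G n →* Multiplicative (ZMod (n j)) := fun j =>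
    { toFun := fun p => Multiplicative.ofAdd (fn p j u)
      map_one' := rfl
      map_mul' := fun p q => rfl }
  have hB : (⨅ j ∈ J0, (ev j).ker : Subgroup (G0 G n)).FiniteIndex := by
    apply Subgroup.finiteIndex_iInf'
    intro j _
    infer_instance
  have h1 : (A.comap (MonoidHom.fst (XX G) (Multiplicative (V0 G n)))).FiniteIndex :=
    fi_comap _ _ hAfi
  have h2 : (A.comap (MonoidHom.fst (XX G) (Multiplicative (V0 G n))) ⊓
    ⨅ j ∈ J0, (ev j).ker : Subgroup (G0 G n)).FiniteIndex := inferInstance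
  refine Subgroup.finiteIndex_of_le (H := A.comap (MonoidHom.fst (XX G) (Multiplicative (V0 G n))) ⊓
    ⨅ j ∈ J0, (ev j).ker) ?_
  rintro p ⟨hp1, hp2⟩ g hg
  have h3 : p.1.1 g = g := hAmem p.1 hp1 g (hcls.mem_toFinset.mpr hg)
  have h4 : dl p.1.1 g = 1 := by unfold dl; rw [h3]; group
  refine ⟨by rw [h4]; exact one_mem _, fun j hj => ?_⟩
  have h5 : fn p j u = 0 := by
    have := (Subgroup.mem_iInf.mp ((Subgroup.mem_iInf.mp hp2) j)) hj
    exact this
  obtain ⟨c, rfl⟩ := hg
  have h6 : fn p j (c⁻¹ * u * c) = fn p j u := (Multiplicative.toAdd p.2).2.2 j u c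
  rw [h4, chi_one hD, h6, h5, add_zero]

theorem Gam_rf (hD : Dat chi) (x : Gam hD) (hx : x ≠ 1) :
    ∃ N : Subgroup (Gam hD), N.Normal ∧ N.FiniteIndex ∧ x ∉ N := by
  classical
  obtain ⟨p, rfl⟩ := QuotientGroup.mk_surjective x
  have hp : p ∉ Del chi hD := fun h => hx ((QuotientGroup.eq_one_iff p).mpr h)
  have key : ∃ u J0, p ∉ NN hD u J0 := by
    by_contra hcon
    push Not at hcon
    apply hp
    refine ⟨fun g => (hcon g ∅ g ⟨1, by simp⟩).1, fun j g => ?_⟩
    have := (hcon g {j} g ⟨1, by simp⟩).2 j (by simp)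
    linear_combination this
  obtain ⟨u, J0, hu⟩ := key
  have hn := NN_normal hD u J0
  have hfi := NN_fi hD u J0
  refine ⟨(NN hD u J0).map (QuotientGroup.mk' (Del chi hD)), ?_, ?_, ?_⟩
  · exact hn.map _ (QuotientGroup.mk'_surjective _)
  · constructor
    intro h0
    have := Subgroup.index_map_dvd (NN hD u J0) (QuotientGroup.mk'_surjective (Del chi hD))
    rw [h0, zero_dvd_iff] at this
    exact hfi.index_ne_zero this
  · rintro ⟨q, hq, hqp⟩
    have h1 : q⁻¹ * p ∈ Del chi hD := QuotientGroup.eq.mp hqp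
    have h2 := Del_le_NN hD u J0 h1
    apply hu
    have : p = q * (q⁻¹ * p) := by group
    rw [this]
    exact mul_mem hq h2

theorem PG_base (hD : Dat chi) (C : Set (Om G J n)) (hC : Closed (FF hD) C) (hc : C.Countable) :
    SDF (PG hD C) := by
  have hcount : Countable (PG hD C) := by
    have h1 := (PPset_countable C hc).image (fun p => (QuotientGroup.mk p : Gam hD))
    refine Set.Countable.mono ?_ h1
    intro x hx
    obtain ⟨p, hp, hpx⟩ := (mem_PG hC x).mp hx
    exact ⟨p, hp, hpx⟩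
  apply SDF.of_countable
  · intro x
    obtain ⟨N, h1, h2, h3⟩ := Gam_lf hD x.1
    refine ⟨N.subgroupOf (PG hD C), ?_, ?_, h3⟩
    · exact Subgroup.Normal.subgroupOf h1 _
    · exact Set.Finite.preimage (f := (Subtype.val : PG hD C → Gam hD))
        (Subtype.val_injective.injOn) h2
  · intro x hx
    obtain ⟨N, h1, h2, h3⟩ := Gam_rf hD x.1 (fun h => hx (Subtype.ext h))
    exact ⟨N.subgroupOf (PG hD C), Subgroup.Normal.subgroupOf h1 _, inferInstance, h3⟩

theorem Gam_SDF (hD : Dat chi) : SDF (Gam hD) := by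
  have h1 := SDF.of_system (FF hD) (FF_countable hD) (PG hD) PG_normal PG_mono PG_fin
    (fun C hC => exRho hC) (PG_base hD) Set.univ (fun s _ => Set.subset_univ _)
  have h2 : ∀ x : Gam hD, x ∈ PG hD Set.univ := by
    intro x
    obtain ⟨p, rfl⟩ := QuotientGroup.mk_surjective x
    exact (mem_PG (fun s _ => Set.subset_univ _) _).mpr ⟨p, ⟨trivial, fun j => Or.inr trivial⟩, rfl⟩
  let φ : Gam hD →* PG hD Set.univ :=
    { toFun := fun x => ⟨x, h2 x⟩
      map_one' := rfl
      map_mul' := fun _ _ => rfl }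
  exact h1.comap φ (fun a b hab => congrArg Subtype.val hab)

end lf

section final

variable {G : Type} [Group G]

theorem lf_of_embed (hFC : FCG G) (ι : Type) (F : ι → Type) [∀ i, Group (F i)]
    [∀ i, Finite (F i)] (f : ↥(commutator G) →* ((i : ι) → F i)) (hf : Function.Injective f)
    (hs : ∀ x, {i : ι | f x i ≠ 1}.Finite) (s : Set G) (hsf : s.Finite)
    (hsc : s ⊆ (commutator G : Set G)) :
    ((Subgroup.normalClosure s : Subgroup G) : Set G).Finite := by
  classical
  set t := Group.conjugatesOfSet s with ht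
  have htf : t.Finite := by
    have : t = ⋃ a ∈ s, {h | IsConj a h} := by
      ext x
      simp only [ht, Group.mem_conjugatesOfSet_iff, Set.mem_iUnion, exists_prop]
      rfl
    rw [this]
    exact Set.Finite.biUnion hsf (fun a _ => hFC a)
  have htc : t ⊆ (commutator G : Set G) := Group.conjugatesOfSet_subset hsc
  -- the finite support
  let t' : Set (commutator G) := Subtype.val ⁻¹' t
  have ht'f : t'.Finite := Set.Finite.preimage (Subtype.val_injective.injOn) htf
  set I0 : Set ι := ⋃ u ∈ t', {i | f u i ≠ 1} with hI0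
  have hI0f : I0.Finite := Set.Finite.biUnion ht'f (fun u _ => hs u)
  let P : Subgroup (commutator G) :=
    { carrier := {x | ∀ i, i ∉ I0 → f x i = 1}
      one_mem' := fun i _ => by rw [map_one]; rfl
      mul_mem' := by
        intro a b ha hb i hi
        rw [map_mul, Pi.mul_apply, ha i hi, hb i hi, one_mul]
      inv_mem' := by
        intro a ha i hi
        rw [map_inv, Pi.inv_apply, ha i hi, inv_one] }
  have := hI0f.to_subtype
  have hPfin : Finite P := by
    let φ : P → ((i : I0) → F i.1) := fun x i => f x.1 i.1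
    apply Finite.of_injective φ
    intro a b hab
    apply Subtype.ext
    apply hf
    funext i
    by_cases hi : i ∈ I0
    · exact congrFun hab ⟨i, hi⟩
    · rw [a.2 i hi, b.2 i hi]
  have hle : Subgroup.normalClosure s ≤ P.map (commutator G).subtype := by
    show Subgroup.closure t ≤ _
    rw [Subgroup.closure_le]
    intro x hx
    refine ⟨⟨x, htc hx⟩, ?_, rfl⟩
    intro i hi
    by_contra hne
    apply hi
    rw [hI0]
    exact Set.mem_biUnion (show (⟨x, htc hx⟩ : commutator G) ∈ t' from hx) hne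
  refine Set.Finite.subset ?_ hle
  rw [Subgroup.coe_map]
  exact (Set.toFinite (P : Set (commutator G))).image _

theorem exists_data (hFC : FCG G) (ι : Type) (F : ι → Type) [∀ i, Group (F i)]
    [∀ i, Finite (F i)] (f : ↥(commutator G) →* ((i : ι) → F i)) (hf : Function.Injective f)
    (hs : ∀ x, {i : ι | f x i ≠ 1}.Finite) :
    ∃ (J : Type) (n : J → ℕ) (_ : ∀ j, NeZero (n j)) (chi : (j : J) → G → ZMod (n j)),
      Dat chi := by
  classical
  let Zc : Subgroup (commutator G) := (ZZ G).subgroupOf (commutator G)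
  let A : (i : ι) → Subgroup (F i) := fun i => Zc.map ((Pi.evalMonoidHom F i).comp f)
  have hcomm : ∀ i, ∀ a b : A i, a * b = b * a := by
    rintro i ⟨_, x, hx, rfl⟩ ⟨_, y, hy, rfl⟩
    apply Subtype.ext
    have h1 : x * y = y * x := by
      apply Subtype.ext
      exact (Subgroup.mem_center_iff.mp hx.1 y.1).symm
    show ((Pi.evalMonoidHom F i).comp f) x * ((Pi.evalMonoidHom F i).comp f) y =
      ((Pi.evalMonoidHom F i).comp f) y * ((Pi.evalMonoidHom F i).comp f) x
    rw [← map_mul, h1, map_mul]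
  have hdec : ∀ i, ∃ (K : Type) (_ : Fintype K) (n : K → ℕ), (∀ k, 1 < n k) ∧
      ∃ e : A i → ((k : K) → Multiplicative (ZMod (n k))), Function.Injective e ∧
        ∀ a b, e (a * b) = e a * e b := by
    intro i
    let _ : CommGroup (A i) := { (inferInstance : Group (A i)) with mul_comm := hcomm i }
    obtain ⟨K, hK, n, hn, ⟨e⟩⟩ := CommGroup.equiv_prod_multiplicative_zmod_of_finite (A i)
    exact ⟨K, hK, n, hn, e, e.injective, map_mul e⟩
  choose K hK n hn e he hemul using hdec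
  have he1 : ∀ i, e i 1 = 1 := by
    intro i
    have := hemul i 1 1
    rw [mul_one] at this
    exact left_eq_mul.mp this
  let chi : (p : Σ i, K i) → G → ZMod (n p.1 p.2) := fun p g =>
    if h : g ∈ ZZ G then Multiplicative.toAdd (e p.1 ⟨f ⟨g, h.2⟩ p.1, ⟨⟨g, h.2⟩, h, rfl⟩⟩ p.2) else 0
  have hchi : ∀ (p : Σ i, K i) (g : G) (h : g ∈ ZZ G), chi p g =
      Multiplicative.toAdd (e p.1 ⟨f ⟨g, h.2⟩ p.1, ⟨⟨g, h.2⟩, h, rfl⟩⟩ p.2) := by
    intro p g h
    simp only [chi, h, dif_pos]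
  refine ⟨Σ i, K i, fun p => n p.1 p.2, fun p => ⟨(lt_trans Nat.zero_lt_one (hn p.1 p.2)).ne'⟩, chi, ?_⟩
  refine ⟨hFC, fun s h1 h2 => lf_of_embed hFC ι F f hf hs s h1 h2, ?_, ?_, ?_⟩
  · intro p z z' hz hz'
    rw [hchi p z hz, hchi p z' hz', hchi p (z * z') (mul_mem hz hz')]
    rw [← toAdd_mul, ← Pi.mul_apply, ← hemul]
    congr 2
    apply Subtype.ext
    show f ⟨z * z', _⟩ p.1 = f ⟨z, _⟩ p.1 * f ⟨z', _⟩ p.1
    rw [← Pi.mul_apply, ← map_mul]
    rfl
  · intro z hz
    refine Set.Finite.subset (s := ⋃ i ∈ {i | f ⟨z, hz.2⟩ i ≠ 1}, Set.range (Sigma.mk i)) ?_ ?_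
    · refine Set.Finite.biUnion (hs _) (fun i _ => ?_)
      have := hK i
      exact Set.finite_range _
    · rintro ⟨i, k⟩ hp
      simp only [Set.mem_iUnion]
      refine ⟨i, ?_, k, rfl⟩
      intro h1
      apply hp
      rw [hchi ⟨i, k⟩ z hz]
      have h2 : (⟨f ⟨z, hz.2⟩ i, ⟨⟨z, hz.2⟩, hz, rfl⟩⟩ : A i) = 1 := Subtype.ext h1
      show Multiplicative.toAdd (e i ⟨f ⟨z, hz.2⟩ i, _⟩ k) = 0
      rw [h2, he1]
      rfl
  · intro z hz h0
    have h1 : f ⟨z, hz.2⟩ = 1 := by
      funext i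
      have h2 : e i ⟨f ⟨z, hz.2⟩ i, ⟨⟨z, hz.2⟩, hz, rfl⟩⟩ = e i 1 := by
        rw [he1]
        funext k
        have := h0 ⟨i, k⟩
        rw [hchi ⟨i, k⟩ z hz] at this
        exact Multiplicative.toAdd.injective this
      exact congrArg Subtype.val (he i h2)
    have h3 : (⟨z, hz.2⟩ : commutator G) = 1 := by
      apply hf
      rw [h1, map_one]
    exact congrArg Subtype.val h3

theorem main {J : Type} {n : J → ℕ} [∀ j, NeZero (n j)] {chi : (j : J) → G → ZMod (n j)}
    (hD : Dat chi) : SDF (G ⧸ Subgroup.center G) := by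
  let φ : G →* Gam hD := (QuotientGroup.mk' (Del chi hD)).comp
    { toFun := fun g => ((⟨MulAut.conj g, conj_mem_XX hD.fc g⟩ : XX G),
        (1 : Multiplicative (V0 G n)))
      map_one' := by
        apply Prod.ext
        · apply Subtype.ext
          simp
        · rfl
      map_mul' := fun a b => by
        apply Prod.ext
        · apply Subtype.ext
          simp
        · simp }
  have hker : ∀ g, φ g = 1 ↔ g ∈ Subgroup.center G := by
    intro g
    have h1 : φ g = 1 ↔ (((⟨MulAut.conj g, conj_mem_XX hD.fc g⟩ : XX G),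
        (1 : Multiplicative (V0 G n))) : G0 G n) ∈ Del chi hD := QuotientGroup.eq_one_iff _
    rw [h1]
    constructor
    · rintro ⟨h2, h3⟩
      rw [Subgroup.mem_center_iff]
      intro a
      have h4 : dl (MulAut.conj g) a = 1 := by
        apply hD.chi_sep _ ⟨h2 a, (conj_mem_XX hD.fc g).1.dl_comm a⟩
        intro j
        have := h3 j a
        have h5 : fn (((⟨MulAut.conj g, conj_mem_XX hD.fc g⟩ : XX G),
          (1 : Multiplicative (V0 G n))) : G0 G n) j a = 0 := rfl
        rw [h5] at this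
        exact neg_eq_zero.mp this.symm
      have h5 : a⁻¹ * (g * a * g⁻¹) = 1 := h4
      have h6 : g * a * g⁻¹ = a := by
        rw [inv_mul_eq_one] at h5
        exact h5.symm
      calc a * g = (g * a * g⁻¹) * g := by rw [h6]
        _ = g * a := by group
    · intro hg
      have h4 : ∀ a, dl (MulAut.conj g) a = 1 := by
        intro a
        have := Subgroup.mem_center_iff.mp hg a
        show a⁻¹ * (g * a * g⁻¹) = 1
        rw [← this]; group
      refine ⟨fun a => ?_, fun j a => ?_⟩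
      · show dl (MulAut.conj g) a ∈ _
        rw [h4]; exact one_mem _
      · show (0 : ZMod (n j)) = - chi j (dl (MulAut.conj g) a)
        rw [h4, chi_one hD, neg_zero]
  let ψ : G ⧸ Subgroup.center G →* Gam hD := QuotientGroup.lift _ φ (fun g hg => (hker g).mpr hg)
  refine (Gam_SDF hD).comap ψ ?_
  rw [injective_iff_map_eq_one]
  intro x hx
  obtain ⟨g, rfl⟩ := QuotientGroup.mk_surjective x
  rw [QuotientGroup.eq_one_iff]
  exact (hker g).mp hx

end final

end FC

/-- For every group with finite conjugacy classes whose derived subgroup embeds in a restricted direct product of finite groups, the quotient by its center also embeds in a restricted direct product of finite groups. -/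
theorem result :
  ∀ (G : Type) [Group G],
    (∀ g : G, {h : G | IsConj g h}.Finite) →
    (∃ (ι : Type) (F : ι → Type) (inst : ∀ i, Group (F i)) (_ : ∀ i, Finite (F i))
        (f : ↥(commutator G) →* ((i : ι) → F i)),
        Function.Injective f ∧ ∀ x, {i : ι | f x i ≠ 1}.Finite) →
    (∃ (ι : Type) (F : ι → Type) (inst : ∀ i, Group (F i)) (_ : ∀ i, Finite (F i))
        (f : (G ⧸ Subgroup.center G) →* ((i : ι) → F i)),
        Function.Injective f ∧ ∀ x, {i : ι | f x i ≠ 1}.Finite) := by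
  intro G _ hFC hG
  obtain ⟨ι, F, inst, hfin, f, hf, hs⟩ := hG
  obtain ⟨J, n, hn, chi, hD⟩ := FC.exists_data hFC ι F f hf hs
  exact (FC.main hD).toProd

end Pool.Agent.S01797
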