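import Pool.Statements.S01800

set_option autoImplicit false
open Pool Pool.MP_b22f0d_al

namespace Pool.Agent.S01800

/-! A Lie algebra of maximal class, of dimension `32`, over the field with two elements, with basis
`e 0, ..., e 31`; the generators are `e 0` and `e 1`, and `e k` has weight `k` for `k ≥ 2`. -/

/-- rows of the multiplication table, as bit masks -/
def rows : List ℕ := [1413825618, 733658029, 1046996602, 22287686, 33431525, 16846870, 25270301,
  21058578, 14810650, 1114390, 1671581, 1392978, 1040890, 4358, 6533, 5446, 8165, 4118, 6173, 5138,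
  3610, 278, 413, 338, 250, 6, 5, 6, 5, 6, 1, 0]

/-- the degrees modulo `11` -/
def degs : List ℕ := [7, 1, 8, 9, 10, 6, 7, 3, 4, 5, 6, 2, 3, 4, 5, 1, 2, 9, 10, 6, 7, 8, 9, 5, 6,
  7, 8, 4, 5, 1, 2, 9]

/-- the weight -/
def wt (i : ℕ) : ℕ := if i < 2 then 1 else i

/-- the index of the product of two basis elements, if it is not zero -/
def T (i j : Fin 32) : Option (Fin 32) :=
  if (rows.getD i.val 0).testBit j.val then
    (if h : wt i.val + wt j.val < 32 then some ⟨wt i.val + wt j.val, h⟩ else none)
  else none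

def dg (i : Fin 32) : ZMod 11 := ((degs.getD i.val 0 : ℕ) : ZMod 11)

lemma T_symm : ∀ i j : Fin 32, T i j = T j i := by decide +kernel

lemma T_self : ∀ i : Fin 32, T i i = none := by decide +kernel

lemma T_jac : ∀ i j k : Fin 32,
    ((T j k).bind (T i) = (T i j).bind (fun t => T t k) ∧ (T i k).bind (T j) = none) ∨
    ((T j k).bind (T i) = (T i k).bind (T j) ∧ (T i j).bind (fun t => T t k) = none) ∨
    ((T i j).bind (fun t => T t k) = (T i k).bind (T j) ∧ (T j k).bind (T i) = none) := by
  decide +kernel

lemma dg_ne : ∀ i : Fin 32, dg i ≠ 0 := by decide +kernel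

lemma T_deg : ∀ i j t : Fin 32, T i j = some t → dg t = dg i + dg j := by decide +kernel

/-- the underlying additive group -/
def LL : Type := Fin 32 → ZMod 2

instance : AddCommGroup LL := inferInstanceAs (AddCommGroup (Fin 32 → ZMod 2))
instance : Module (ZMod 2) LL := inferInstanceAs (Module (ZMod 2) (Fin 32 → ZMod 2))

/-- the basis -/
def e (i : Fin 32) : LL := (Pi.single i (1 : ZMod 2) : Fin 32 → ZMod 2)

def val : Option (Fin 32) → LL
  | none => 0
  | some t => e t

def br (u v : LL) : LL := ∑ i : Fin 32, ∑ j : Fin 32, (u i * v j) • val (T i j)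

lemma add_apply' (u v : LL) (i : Fin 32) : (u + v) i = u i + v i := rfl

lemma zero_apply' (i : Fin 32) : (0 : LL) i = 0 := rfl

lemma br_add_left (u u' v : LL) : br (u + u') v = br u v + br u' v := by
  unfold br
  rw [← Finset.sum_add_distrib]
  refine Finset.sum_congr rfl fun i _ => ?_
  rw [← Finset.sum_add_distrib]
  refine Finset.sum_congr rfl fun j _ => ?_
  rw [add_apply', add_mul, add_smul]

lemma br_add_right (u v v' : LL) : br u (v + v') = br u v + br u v' := by
  unfold br
  rw [← Finset.sum_add_distrib]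
  refine Finset.sum_congr rfl fun i _ => ?_
  rw [← Finset.sum_add_distrib]
  refine Finset.sum_congr rfl fun j _ => ?_
  rw [add_apply', mul_add, add_smul]

lemma br_comm (u v : LL) : br u v = br v u := by
  unfold br
  rw [Finset.sum_comm]
  refine Finset.sum_congr rfl fun i _ => Finset.sum_congr rfl fun j _ => ?_
  rw [T_symm, mul_comm]

lemma br_zero_left (v : LL) : br 0 v = 0 := by
  unfold br
  refine Finset.sum_eq_zero fun i _ => Finset.sum_eq_zero fun j _ => ?_
  rw [zero_apply', zero_mul, zero_smul]

lemma br_zero_right (v : LL) : br v 0 = 0 := by rw [br_comm, br_zero_left]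

lemma e_apply (i j : Fin 32) : (e i) j = if j = i then 1 else 0 := by
  unfold e
  exact Pi.single_apply i 1 j

lemma br_e (i j : Fin 32) : br (e i) (e j) = val (T i j) := by
  unfold br
  rw [Finset.sum_eq_single i]
  · rw [Finset.sum_eq_single j]
    · rw [e_apply, e_apply, if_pos rfl, if_pos rfl, mul_one, one_smul]
    · intro j' _ hj
      rw [e_apply j, if_neg hj, mul_zero, zero_smul]
    · intro h; exact absurd (Finset.mem_univ _) h
  · intro i' _ hi
    refine Finset.sum_eq_zero fun j' _ => ?_
    rw [e_apply i, if_neg hi, zero_mul, zero_smul]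
  · intro h; exact absurd (Finset.mem_univ _) h

lemma add_self' (u : LL) : u + u = 0 := by
  funext i
  rw [add_apply', zero_apply']
  exact CharTwo.add_self_eq_zero _

lemma br_val_right (i : Fin 32) (o : Option (Fin 32)) : br (e i) (val o) = val (o.bind (T i)) := by
  cases o with
  | none => exact br_zero_right _
  | some t => exact br_e i t

lemma br_val_left (o : Option (Fin 32)) (k : Fin 32) :
    br (val o) (e k) = val (o.bind (fun t => T t k)) := by
  cases o with
  | none => exact br_zero_left _
  | some t => exact br_e t k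

/-- every element is a sum of basis elements -/
lemma span_e (P : LL → Prop) (h0 : P 0) (hadd : ∀ u v, P u → P v → P (u + v))
    (he : ∀ i, P (e i)) (u : LL) : P u := by
  have hz : ∀ z : ZMod 2, z = 0 ∨ z = 1 := by decide
  have key : ∀ s : Finset (Fin 32), P (∑ i ∈ s, (u i) • e i) := by
    intro s
    induction s using Finset.induction_on with
    | empty => rw [Finset.sum_empty]; exact h0
    | insert i s hi ih =>
      rw [Finset.sum_insert hi]
      refine hadd _ _ ?_ ih
      rcases hz (u i) with h | h
      · rw [h, zero_smul]; exact h0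
      · rw [h, one_smul]; exact he i
  have hu : u = ∑ i, (u i) • e i := by
    funext j
    have h2 : (∑ i, (u i) • e i : LL) j = ∑ i, ((u i) • e i) j :=
      Finset.sum_apply j Finset.univ (fun i => ((u i) • e i : Fin 32 → ZMod 2))
    rw [h2, Finset.sum_eq_single j]
    · change u j = u j * (e j) j
      rw [e_apply, if_pos rfl, mul_one]
    · intro i _ hi
      change u i * (e i) j = 0
      rw [e_apply, if_neg (Ne.symm hi), mul_zero]
    · intro h; exact absurd (Finset.mem_univ _) h
  rw [hu]
  exact key _

lemma jac (x y z : LL) : br x (br y z) = br (br x y) z + br y (br x z) := by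
  induction x using span_e with
  | h0 => simp only [br_zero_left, br_zero_right, add_zero]
  | hadd u v hu hv =>
    simp only [br_add_left, br_add_right, hu, hv]
    abel
  | he i =>
  induction y using span_e with
  | h0 => simp only [br_zero_left, br_zero_right, add_zero]
  | hadd u v hu hv =>
    simp only [br_add_left, br_add_right, hu, hv]
    abel
  | he j =>
  induction z using span_e with
  | h0 => simp only [br_zero_right, add_zero]
  | hadd u v hu hv =>
    simp only [br_add_right, hu, hv]
    abel
  | he k =>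
    rw [br_e, br_e, br_e, br_val_right, br_val_left, br_val_right]
    rcases T_jac i j k with ⟨h1, h2⟩ | ⟨h1, h2⟩ | ⟨h1, h2⟩
    · rw [h1, h2]; exact (add_zero _).symm
    · rw [h1, h2]; exact (zero_add _).symm
    · rw [h1, h2]; exact (add_self' _).symm

lemma br_self (u : LL) : br u u = 0 := by
  induction u using span_e with
  | h0 => exact br_zero_left _
  | hadd u v hu hv =>
    rw [br_add_left, br_add_right, br_add_right, hu, hv, br_comm v u, zero_add, add_zero]
    exact add_self' _
  | he i => rw [br_e, T_self]; rfl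

instance : LieRing LL where
  bracket := br
  add_lie := br_add_left
  lie_add := br_add_right
  lie_self := br_self
  leibniz_lie := jac

lemma lie_def (u v : LL) : ⁅u, v⁆ = br u v := rfl

/-- the homogeneous components -/
def Lg (i : ZMod 11) : AddSubgroup LL where
  carrier := {u | ∀ k : Fin 32, dg k ≠ i → u k = 0}
  add_mem' := by
    intro u v hu hv k hk
    rw [add_apply', hu k hk, hv k hk, add_zero]
  zero_mem' := fun k _ => rfl
  neg_mem' := by
    intro u hu k hk
    change -(u k) = 0
    rw [hu k hk, neg_zero]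

lemma mem_Lg (i : ZMod 11) (u : LL) : u ∈ Lg i ↔ ∀ k : Fin 32, dg k ≠ i → u k = 0 := Iff.rfl

lemma Lg_zero : Lg 0 = ⊥ := by
  rw [eq_bot_iff]
  intro u hu
  rw [AddSubgroup.mem_bot]
  funext k
  exact hu k (dg_ne k)

/-- projection to a homogeneous component -/
def pr (i : ZMod 11) : LL →+ Lg i where
  toFun u := ⟨fun k => if dg k = i then u k else 0, fun k hk => if_neg hk⟩
  map_zero' := by
    apply Subtype.ext
    funext k
    change (if dg k = i then (0 : ZMod 2) else 0) = 0
    simp
  map_add' u v := by
    apply Subtype.ext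
    funext k
    change (if dg k = i then u k + v k else 0) =
      (if dg k = i then u k else 0) + (if dg k = i then v k else 0)
    split_ifs <;> simp

/-- the decomposition map -/
noncomputable def decomp : LL →+ DirectSum (ZMod 11) (fun i => Lg i) :=
  ∑ i : ZMod 11, (DirectSum.of (fun i => Lg i) i).comp (pr i)

lemma pr_coe_self (i : ZMod 11) (y : Lg i) : pr i (y : LL) = y := by
  apply Subtype.ext
  funext k
  change (if dg k = i then (y : LL) k else 0) = (y : LL) k
  split_ifs with h
  · rfl
  · exact (y.2 k h).symm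

lemma pr_coe_ne (i j : ZMod 11) (h : i ≠ j) (y : Lg i) : pr j (y : LL) = 0 := by
  apply Subtype.ext
  funext k
  change (if dg k = j then (y : LL) k else 0) = 0
  split_ifs with hk
  · exact y.2 k (fun h' => h (h'.symm.trans hk))
  · rfl

lemma sum_pr (u : LL) : ∑ i : ZMod 11, ((pr i u : Lg i) : LL) = u := by
  funext k
  have h2 : (∑ i : ZMod 11, ((pr i u : Lg i) : LL)) k = ∑ i : ZMod 11, (((pr i u : Lg i) : LL) k) :=
    Finset.sum_apply k Finset.univ (fun i => (((pr i u : Lg i) : LL) : Fin 32 → ZMod 2))
  rw [h2, Finset.sum_eq_single (dg k)]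
  · change (if dg k = dg k then u k else 0) = u k
    rw [if_pos rfl]
  · intro i _ hi
    change (if dg k = i then u k else 0) = 0
    rw [if_neg (Ne.symm hi)]
  · intro h; exact absurd (Finset.mem_univ _) h

lemma internal : DirectSum.IsInternal Lg := by
  have h1 : (DirectSum.coeAddMonoidHom Lg).comp decomp = AddMonoidHom.id LL := by
    ext u
    simp only [decomp, AddMonoidHom.comp_apply, AddMonoidHom.finsetSum_apply, map_sum,
      DirectSum.coeAddMonoidHom_of, AddMonoidHom.id_apply]
    rw [sum_pr]
  have h2 : decomp.comp (DirectSum.coeAddMonoidHom Lg) = AddMonoidHom.id _ := by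
    apply DirectSum.addHom_ext
    intro i y
    simp only [decomp, AddMonoidHom.comp_apply, AddMonoidHom.finsetSum_apply,
      DirectSum.coeAddMonoidHom_of, AddMonoidHom.id_apply]
    rw [Finset.sum_eq_single i]
    · rw [pr_coe_self]
    · intro j _ hj
      rw [pr_coe_ne i j (Ne.symm hj), map_zero]
    · intro h; exact absurd (Finset.mem_univ _) h
  refine ⟨?_, ?_⟩
  · intro a b hab
    have h3 := DFunLike.congr_fun h2 a
    have h4 := DFunLike.congr_fun h2 b
    simp only [AddMonoidHom.comp_apply, AddMonoidHom.id_apply] at h3 h4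
    rw [← h3, ← h4, hab]
  · intro u
    exact ⟨decomp u, DFunLike.congr_fun h1 u⟩

lemma lie_mem (i j : ZMod 11) (x : LL) (hx : x ∈ Lg i) (y : LL) (hy : y ∈ Lg j) :
    ⁅x, y⁆ ∈ Lg (i + j) := by
  intro k hk
  have h2 : (⁅x, y⁆ : LL) k = ∑ a : Fin 32, ∑ b : Fin 32, (x a * y b) * (val (T a b) k) := by
    change (∑ a : Fin 32, ∑ b : Fin 32, (x a * y b) • val (T a b) : LL) k = _
    have h3 := Finset.sum_apply k Finset.univ
      (fun a => (∑ b : Fin 32, (x a * y b) • val (T a b) : Fin 32 → ZMod 2))
    refine h3.trans (Finset.sum_congr rfl fun a _ => ?_)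
    have h4 := Finset.sum_apply k Finset.univ
      (fun b => ((x a * y b) • val (T a b) : Fin 32 → ZMod 2))
    exact h4
  rw [h2]
  refine Finset.sum_eq_zero fun a _ => Finset.sum_eq_zero fun b _ => ?_
  by_cases ha : dg a = i
  · by_cases hb : dg b = j
    · cases hT : T a b with
      | none => change (x a * y b) * 0 = 0; rw [mul_zero]
      | some t =>
        have ht := T_deg a b t hT
        change (x a * y b) * (e t k) = 0
        rw [e_apply, if_neg, mul_zero]
        rintro rfl
        exact hk (by rw [ht, ha, hb])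
    · rw [hy b hb, mul_zero, zero_mul]
  · rw [hx a ha, zero_mul, zero_mul]

/-- the sequence of generators -/
def gens : List (Fin 32) := [1, 1, 1, 0, 1, 0, 1, 1, 1, 0, 1, 1, 1, 0, 1, 0, 1, 0, 1, 1, 1, 0, 1, 1,
  1, 0, 1, 0, 1, 0]

lemma fold_val (l : List (Fin 32)) (o : Option (Fin 32)) :
    List.foldl (fun a b => ⁅a, b⁆) (val o) (l.map e) =
      val (List.foldl (fun o b => o.bind (fun t => T t b)) o l) := by
  induction l generalizing o with
  | nil => rfl
  | cons b l ih =>
    rw [List.map_cons, List.foldl_cons, List.foldl_cons, lie_def, br_val_left, ih]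

/-- The negation of the preceding statement: For every prime p>2, every Z/p-graded Lie ring with zero degree-0 part has all left-normed commutators of weight (p^2-1)/4+1 zero, and some such Lie ring has a nonzero one of weight (p^2-1)/4; i.e. h(p)=(p^2-1)/4. -/
theorem result :
    ¬ (∀ p : ℕ, p.Prime → 2 < p →
    (∀ (L : Type) [LieRing L] (Lg : ZMod p → AddSubgroup L),
      DirectSum.IsInternal Lg → Lg 0 = ⊥ →
      (∀ i j : ZMod p, ∀ x ∈ Lg i, ∀ y ∈ Lg j, ⁅x, y⁆ ∈ Lg (i + j)) →
      ∀ x : Fin ((p ^ 2 - 1) / 4 + 1) → L,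
        List.foldl (fun a b => ⁅a, b⁆) (x 0)
          (List.ofFn (fun k : Fin ((p ^ 2 - 1) / 4) => x k.succ)) = 0) ∧
    (∃ (L : Type) (_ : LieRing L) (Lg : ZMod p → AddSubgroup L),
      DirectSum.IsInternal Lg ∧ Lg 0 = ⊥ ∧
      (∀ i j : ZMod p, ∀ x ∈ Lg i, ∀ y ∈ Lg j, ⁅x, y⁆ ∈ Lg (i + j)) ∧
      ∃ x : Fin ((p ^ 2 - 1) / 4 - 1 + 1) → L,
        List.foldl (fun a b => ⁅a, b⁆) (x 0)
          (List.ofFn (fun k : Fin ((p ^ 2 - 1) / 4 - 1) => x k.succ)) ≠ 0)) := by
  intro h
  have h11 := (h 11 (by norm_num) (by norm_num)).1 LL Lg internal Lg_zero lie_mem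
  have hx := h11 (fun k => e ((0 :: gens).getD k.val 0))
  have hl : List.ofFn (fun k : Fin ((11 ^ 2 - 1) / 4) =>
      e ((0 :: gens).getD (k.succ : Fin ((11 ^ 2 - 1) / 4 + 1)).val 0)) = gens.map e := by
    have h1 : List.ofFn (fun k : Fin ((11 ^ 2 - 1) / 4) =>
        ((0 :: gens).getD (k.succ : Fin ((11 ^ 2 - 1) / 4 + 1)).val 0)) = gens := by decide +kernel
    rw [← h1, List.map_ofFn]
    rfl
  rw [hl] at hx
  have h0 : e ((0 :: gens).getD (0 : Fin ((11 ^ 2 - 1) / 4 + 1)).val 0) = val (some 0) := rfl
  rw [h0, fold_val] at hx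
  have h2 : List.foldl (fun o b => o.bind (fun t => T t b)) (some 0) gens = some 31 := by
    decide +kernel
  rw [h2] at hx
  have h3 := congrFun hx (31 : Fin 32)
  change (e 31) 31 = 0 at h3
  rw [e_apply, if_pos rfl] at h3
  exact one_ne_zero h3

end Pool.Agent.S01800
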