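import Pool.Statements.S01802


set_option autoImplicit false
open Pool Pool.MP_b22f56_al

namespace Pool.Agent.S01802



open HNNExtension

section Britton

variable {G : Type*} [Group G] {A B : Subgroup G} {φ : A ≃* B}
variable {E Q κ : Type*} [Group E] [Group Q]

/-- value of a word in the group `Q` -/
def evalQ (e : E →* Q) (s : κ → Q) : E → List (κ × ℤˣ × E) → Q
  | x, [] => e x
  | x, a :: l => e x * s a.1 ^ (a.2.1 : ℤ) * evalQ e s a.2.2 l

def lft (gL gR : κ → G) (a : κ × ℤˣ × E) : G := if a.2.1 = 1 then gL a.1 else (gR a.1)⁻¹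

def rgt (gL gR : κ → G) (a : κ × ℤˣ × E) : G := if a.2.1 = 1 then gR a.1 else (gL a.1)⁻¹

def lftL (gL gR : κ → G) : List (κ × ℤˣ × E) → G
  | [] => 1
  | a :: _ => lft gL gR a

def conv (ψ : E →* G) (gL gR : κ → G) : List (κ × ℤˣ × E) → List (ℤˣ × G)
  | [] => []
  | a :: l => (a.2.1, rgt gL gR a * ψ a.2.2 * lftL gL gR l) :: conv ψ gL gR l

def RR (A B : Subgroup G) (ψ : E →* G) (gL gR : κ → G) (a b : κ × ℤˣ × E) : Prop :=
  rgt gL gR a * ψ a.2.2 * lft gL gR b ∈ toSubgroup A B a.2.1 → a.2.1 = b.2.1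

theorem conv_chain (ψ : E →* G) (gL gR : κ → G) (l : List (κ × ℤˣ × E))
    (h : l.IsChain (RR A B ψ gL gR)) :
    (conv ψ gL gR l).IsChain
      (fun a b => a.2 ∈ toSubgroup A B a.1 → a.1 = b.1) := by
  induction l with
  | nil => simp [conv]
  | cons a l ih =>
    cases l with
    | nil => simp [conv]
    | cons b l =>
      rw [List.isChain_cons_cons] at h
      have := ih h.2
      simp only [conv] at this ⊢
      rw [List.isChain_cons_cons]
      exact ⟨h.1, this⟩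

theorem eval_conv (e : E →* Q) (s : κ → Q) (ψ : E →* G) (gL gR : κ → G)
    (Ψ : Q →* HNNExtension G A B φ) (he : ∀ x, Ψ (e x) = of (ψ x))
    (hs : ∀ i, Ψ (s i) = of (gL i) * t * of (gR i))
    (l : List (κ × ℤˣ × E)) (x : E) :
    Ψ (evalQ e s x l) = of (ψ x) * of (lftL gL gR l) *
      ((conv ψ gL gR l).map (fun y => (t ^ (y.1 : ℤ) * of y.2 : HNNExtension G A B φ))).prod := by
  induction l generalizing x with
  | nil => simp [evalQ, conv, lftL, he]
  | cons a l ih =>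
    obtain ⟨i, ε, y⟩ := a
    have key : (of (gL i) * t * of (gR i) : HNNExtension G A B φ) ^ (ε : ℤ)
        = of (lft gL gR (i, ε, y)) * t ^ (ε : ℤ) * of (rgt gL gR (i, ε, y)) := by
      rcases Int.units_eq_one_or ε with h | h
      · subst h; simp [lft, rgt]
      · subst h; simp [lft, rgt, mul_assoc]
    simp only [evalQ, conv, lftL, map_mul, map_zpow, he, hs, List.map_cons, List.prod_cons, ih]
    rw [key]
    simp only [mul_assoc]

theorem reduced_exists (e : E →* Q) (s : κ → Q) (ψ : E →* G) (gL gR : κ → G)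
    (hA : ∀ i j x, gR i * ψ x * (gR j)⁻¹ ∈ A → i = j ∧ ∃ y, s i * e x * (s i)⁻¹ = e y)
    (hB : ∀ i j x, (gL i)⁻¹ * ψ x * gL j ∈ B → i = j ∧ ∃ y, (s i)⁻¹ * e x * s i = e y)
    (hgen : Subgroup.closure (Set.range e ∪ Set.range s) = ⊤) (w : Q) :
    ∃ x l, w = evalQ e s x l ∧ l.IsChain (RR A B ψ gL gR) := by
  have step : ∀ (i : κ) (ε : ℤˣ) (w : Q),
      (∃ x l, w = evalQ e s x l ∧ l.IsChain (RR A B ψ gL gR)) →
      ∃ x l, s i ^ (ε : ℤ) * w = evalQ e s x l ∧ l.IsChain (RR A B ψ gL gR) := by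
    rintro i ε w ⟨x, l, rfl, hl⟩
    by_cases hc : ((i, ε, x) :: l).IsChain (RR A B ψ gL gR)
    · exact ⟨1, (i, ε, x) :: l, by simp [evalQ], hc⟩
    · cases l with
      | nil => simp at hc
      | cons b l =>
        obtain ⟨j, δ, y⟩ := b
        rw [List.isChain_cons_cons] at hc
        have hR : ¬ RR A B ψ gL gR (i, ε, x) (j, δ, y) := fun h => hc ⟨h, hl⟩
        unfold RR at hR
        push Not at hR
        obtain ⟨h1, h2⟩ := hR
        have hl' : l.IsChain (RR A B ψ gL gR) := hl.tail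
        rcases Int.units_eq_one_or ε with h | h
        · subst h
          have hδ : δ = -1 := by
            rcases Int.units_eq_one_or δ with h | h
            · exact absurd h.symm h2
            · exact h
          subst hδ
          simp only [rgt, lft, toSubgroup] at h1
          simp at h1
          obtain ⟨rfl, z, hz⟩ := hA i j x h1
          refine ⟨z * y, l, ?_, hl'⟩
          have e1 : evalQ e s (z * y) l = e z * evalQ e s y l := by
            cases l <;> simp [evalQ, mul_assoc]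
          rw [e1, ← hz]
          simp [evalQ, mul_assoc]
        · subst h
          have hδ : δ = 1 := by
            rcases Int.units_eq_one_or δ with h | h
            · exact h
            · exact absurd h.symm h2
          subst hδ
          have hne : ¬ ((-1 : ℤˣ) = 1) := by decide
          simp only [rgt, lft, toSubgroup] at h1
          simp [hne] at h1
          obtain ⟨rfl, z, hz⟩ := hB i j x h1
          refine ⟨z * y, l, ?_, hl'⟩
          have e1 : evalQ e s (z * y) l = e z * evalQ e s y l := by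
            cases l <;> simp [evalQ, mul_assoc]
          rw [e1, ← hz]
          simp [evalQ, mul_assoc]
  have base : ∀ (z : E) (w : Q),
      (∃ x l, w = evalQ e s x l ∧ l.IsChain (RR A B ψ gL gR)) →
      ∃ x l, e z * w = evalQ e s x l ∧ l.IsChain (RR A B ψ gL gR) := by
    rintro z w ⟨x, l, rfl, hl⟩
    refine ⟨z * x, l, ?_, hl⟩
    cases l <;> simp [evalQ, mul_assoc]
  have hw : w ∈ Subgroup.closure (Set.range e ∪ Set.range s) := by rw [hgen]; trivial
  induction hw using Subgroup.closure_induction_left with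
  | one => exact ⟨1, [], by simp [evalQ], by simp⟩
  | mul_left x hx y hy ih =>
    rcases hx with ⟨z, rfl⟩ | ⟨i, rfl⟩
    · exact base z y ih
    · simpa using step i 1 y ih
  | inv_mul_cancel x hx y hy ih =>
    rcases hx with ⟨z, rfl⟩ | ⟨i, rfl⟩
    · simpa using base z⁻¹ y ih
    · simpa using step i (-1) y ih

theorem mem_base (e : E →* Q) (s : κ → Q) (ψ : E →* G) (gL gR : κ → G)
    (Ψ : Q →* HNNExtension G A B φ) (he : ∀ x, Ψ (e x) = of (ψ x))
    (hs : ∀ i, Ψ (s i) = of (gL i) * t * of (gR i))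
    (hA : ∀ i j x, gR i * ψ x * (gR j)⁻¹ ∈ A → i = j ∧ ∃ y, s i * e x * (s i)⁻¹ = e y)
    (hB : ∀ i j x, (gL i)⁻¹ * ψ x * gL j ∈ B → i = j ∧ ∃ y, (s i)⁻¹ * e x * s i = e y)
    (hgen : Subgroup.closure (Set.range e ∪ Set.range s) = ⊤) (w : Q)
    (hw : Ψ w ∈ (of.range : Subgroup (HNNExtension G A B φ))) : ∃ x, w = e x := by
  obtain ⟨x, l, rfl, hl⟩ := reduced_exists e s ψ gL gR hA hB hgen w
  let W : HNNExtension.NormalWord.ReducedWord G A B :=
    { head := ψ x * lftL gL gR l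
      toList := conv ψ gL gR l
      chain := conv_chain ψ gL gR l hl }
  have hW : W.prod φ = Ψ (evalQ e s x l) := by
    rw [eval_conv e s ψ gL gR Ψ he hs]
    simp [HNNExtension.NormalWord.ReducedWord.prod, W]
  have hnil := HNNExtension.ReducedWord.toList_eq_nil_of_mem_of_range φ W (by rw [hW]; exact hw)
  cases l with
  | nil => exact ⟨x, rfl⟩
  | cons a l => simp [W, conv] at hnil

end Britton

section Grp

abbrev F3 := FreeGroup (Fin 3)
abbrev Zm := Multiplicative ℤ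
abbrev GG := F3 × Zm

def fa : F3 := FreeGroup.of 0
def fb : F3 := FreeGroup.of 1
def fc : F3 := FreeGroup.of 2
def fw : F3 := fc * fa⁻¹ * fb * fa * fb⁻¹

/-- exponent of the third generator -/
def cexp : F3 →* Zm := FreeGroup.lift ![1, 1, Multiplicative.ofAdd 1]

def aexp : F3 →* Zm := FreeGroup.lift ![Multiplicative.ofAdd 1, 1, 1]

theorem cexp_a : cexp fa = 1 := by simp [cexp, fa]
theorem cexp_b : cexp fb = 1 := by simp [cexp, fb]
theorem cexp_c : cexp fc = Multiplicative.ofAdd 1 := by simp [cexp, fc]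
theorem cexp_w : cexp fw = Multiplicative.ofAdd 1 := by
  simp [fw, cexp_a, cexp_b, cexp_c]
theorem aexp_a : aexp fa = Multiplicative.ofAdd 1 := by simp [aexp, fa]
theorem aexp_b : aexp fb = 1 := by simp [aexp, fb]
theorem aexp_c : aexp fc = 1 := by simp [aexp, fc]
theorem aexp_w : aexp fw = 1 := by
  simp [fw, aexp_a, aexp_b, aexp_c]

def al : Zm × Zm →* GG := (zpowersHom F3 fw).prodMap (MonoidHom.id Zm)

def be : Zm × Zm →* GG :=
  MonoidHom.prod ((zpowersHom F3 fc).comp (MonoidHom.fst Zm Zm / MonoidHom.snd Zm Zm))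
    (MonoidHom.snd Zm Zm)

theorem al_apply (i j : ℤ) : al (Multiplicative.ofAdd i, Multiplicative.ofAdd j)
    = (fw ^ i, Multiplicative.ofAdd j) := by
  simp [al]

theorem be_apply (i j : ℤ) : be (Multiplicative.ofAdd i, Multiplicative.ofAdd j)
    = (fc ^ (i - j), Multiplicative.ofAdd j) := by
  simp only [be, MonoidHom.prod_apply, MonoidHom.comp_apply, MonoidHom.div_apply,
    MonoidHom.coe_fst, MonoidHom.coe_snd]
  rfl

theorem zpow_w_inj {i j : ℤ} (h : fw ^ i = fw ^ j) : i = j := by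
  have := congrArg cexp h
  simpa [cexp_w, ← ofAdd_zsmul] using this

theorem zpow_c_inj {i j : ℤ} (h : fc ^ i = fc ^ j) : i = j := by
  have := congrArg cexp h
  simpa [cexp_c, ← ofAdd_zsmul] using this

theorem al_inj : Function.Injective al := by
  rintro ⟨i, j⟩ ⟨i', j'⟩ h
  have h' : al (Multiplicative.ofAdd (Multiplicative.toAdd i), Multiplicative.ofAdd (Multiplicative.toAdd j))
    = al (Multiplicative.ofAdd (Multiplicative.toAdd i'), Multiplicative.ofAdd (Multiplicative.toAdd j')) := h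
  rw [al_apply, al_apply, Prod.mk.injEq] at h'
  have h1 := zpow_w_inj h'.1
  have h2 := h'.2
  simp at h1 h2
  rw [h1, h2]

theorem be_inj : Function.Injective be := by
  rintro ⟨i, j⟩ ⟨i', j'⟩ h
  have h' : be (Multiplicative.ofAdd (Multiplicative.toAdd i), Multiplicative.ofAdd (Multiplicative.toAdd j))
    = be (Multiplicative.ofAdd (Multiplicative.toAdd i'), Multiplicative.ofAdd (Multiplicative.toAdd j')) := h
  rw [be_apply, be_apply, Prod.mk.injEq] at h'
  have h1 := zpow_c_inj h'.1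
  have h2 : j = j' := by simpa using h'.2
  subst h2
  have h3 : i = i' := by
    have : Multiplicative.toAdd i = Multiplicative.toAdd i' := by omega
    simpa using this
  rw [h3]

abbrev AA : Subgroup GG := al.range
abbrev BB : Subgroup GG := be.range

noncomputable def ph : AA ≃* BB :=
  (MonoidHom.ofInjective al_inj).symm.trans (MonoidHom.ofInjective be_inj)

theorem ph_apply (i j : ℤ) (h : (fw ^ i, Multiplicative.ofAdd j) ∈ AA) :
    ((ph ⟨(fw ^ i, Multiplicative.ofAdd j), h⟩ : BB) : GG) = (fc ^ (i - j), Multiplicative.ofAdd j) := by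
  have : (⟨(fw ^ i, Multiplicative.ofAdd j), h⟩ : AA) =
      MonoidHom.ofInjective al_inj (Multiplicative.ofAdd i, Multiplicative.ofAdd j) := by
    apply Subtype.ext
    rw [MonoidHom.ofInjective_apply, al_apply]
  rw [this]
  simp only [ph, MulEquiv.trans_apply, MulEquiv.symm_apply_apply]
  rw [MonoidHom.ofInjective_apply, be_apply]

abbrev G0 := HNNExtension GG AA BB ph

theorem memA (i j : ℤ) : (fw ^ i, Multiplicative.ofAdd j) ∈ AA := ⟨_, al_apply i j⟩
theorem memB (i j : ℤ) : (fc ^ i, Multiplicative.ofAdd j) ∈ BB :=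
  ⟨(Multiplicative.ofAdd (i + j), Multiplicative.ofAdd j), by rw [be_apply]; simp⟩

theorem of_memA {g : GG} (h : g ∈ AA) : ∃ i j : ℤ, g = (fw ^ i, Multiplicative.ofAdd j) := by
  obtain ⟨⟨i, j⟩, rfl⟩ := h
  exact ⟨Multiplicative.toAdd i, Multiplicative.toAdd j, al_apply _ _⟩

theorem of_memB {g : GG} (h : g ∈ BB) : ∃ i j : ℤ, g = (fc ^ i, Multiplicative.ofAdd j) := by
  obtain ⟨⟨i, j⟩, rfl⟩ := h
  exact ⟨Multiplicative.toAdd i - Multiplicative.toAdd j, Multiplicative.toAdd j, be_apply _ _⟩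

theorem t_rel (i j : ℤ) : (t * of (fw ^ i, Multiplicative.ofAdd j) : G0)
    = of (fc ^ (i - j), Multiplicative.ofAdd j) * t := by
  have := t_mul_of (φ := ph) ⟨(fw ^ i, Multiplicative.ofAdd j), memA i j⟩
  rw [ph_apply] at this
  exact this

theorem t_conj (i j : ℤ) : (t * of (fw ^ i, Multiplicative.ofAdd j) * t⁻¹ : G0)
    = of (fc ^ (i - j), Multiplicative.ofAdd j) := by
  rw [t_rel]; group

end Grp
set_option linter.unusedSimpArgs false

section Schreier

abbrev E7 := FreeGroup (Fin 7)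

def gV : E7 := FreeGroup.of 0
def gp : E7 := FreeGroup.of 1
def gq : E7 := FreeGroup.of 2
def gw : E7 := FreeGroup.of 3
def gX : E7 := FreeGroup.of 4
def gb : E7 := FreeGroup.of 5
def gc : E7 := FreeGroup.of 6

def gb2 : E7 := gc⁻¹ * gw * gb
def gW : E7 := (gp⁻¹ * gq * gp * gq⁻¹)⁻¹ * gV * gb2 * gX⁻¹ * gb⁻¹ * gX

def fr : F3 := fa⁻¹ * fc

def ff1 : Zm := Multiplicative.ofAdd 1

def psi : E7 →* GG := FreeGroup.lift
  ![(fa⁻¹ * fw * fw * fa, ff1), (fr * fa * fr⁻¹, 1), (fr * fb * fr⁻¹, 1), (fw, ff1⁻¹),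
    (fa * fa, 1), (fb, 1), (fc, ff1)]

theorem psi_V : psi gV = (fa⁻¹ * fw * fw * fa, ff1) := by simp [psi, gV]
theorem psi_p : psi gp = (fr * fa * fr⁻¹, 1) := by simp [psi, gp]
theorem psi_q : psi gq = (fr * fb * fr⁻¹, 1) := by simp [psi, gq]
theorem psi_w : psi gw = (fw, ff1⁻¹) := by simp [psi, gw]
theorem psi_X : psi gX = (fa * fa, 1) := by simp [psi, gX]
theorem psi_b : psi gb = (fb, 1) := by simp [psi, gb]
theorem psi_c : psi gc = (fc, ff1) := by simp [psi, gc]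

def lab (σ : Equiv.Perm (Fin 3)) (l : Fin 3 → E7) : Equiv.Perm (Fin 3 × E7) where
  toFun x := (σ x.1, l x.1 * x.2)
  invFun x := (σ.symm x.1, (l (σ.symm x.1))⁻¹ * x.2)
  left_inv x := by simp
  right_inv x := by simp

def Th : F3 →* Equiv.Perm (Fin 3 × E7) := FreeGroup.lift
  ![lab (Equiv.swap 0 1) ![1, gX, gp], lab 1 ![gb, gb2, gq], lab (Equiv.swap 1 2) ![gc, gW, 1]]

theorem Ta0 (e : E7) : Th fa (0, e) = (1, e) := by simp [Th, fa, lab]
theorem Ta1 (e : E7) : Th fa (1, e) = (0, gX * e) := by simp [Th, fa, lab]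
theorem Ta2 (e : E7) : Th fa (2, e) = (2, gp * e) := by
  simp [Th, fa, lab]; decide
theorem Tb0 (e : E7) : Th fb (0, e) = (0, gb * e) := by simp [Th, fb, lab]
theorem Tb1 (e : E7) : Th fb (1, e) = (1, gb2 * e) := by simp [Th, fb, lab]
theorem Tb2 (e : E7) : Th fb (2, e) = (2, gq * e) := by simp [Th, fb, lab]
theorem Tc0 (e : E7) : Th fc (0, e) = (0, gc * e) := by
  simp [Th, fc, lab]; decide
theorem Tc1 (e : E7) : Th fc (1, e) = (2, gW * e) := by simp [Th, fc, lab]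
theorem Tc2 (e : E7) : Th fc (2, e) = (1, e) := by simp [Th, fc, lab]

theorem Tai0 (e : E7) : (Th fa)⁻¹ (0, e) = (1, gX⁻¹ * e) := by
  rw [Equiv.Perm.inv_eq_iff_eq, Ta1]; simp
theorem Tai1 (e : E7) : (Th fa)⁻¹ (1, e) = (0, e) := by
  rw [Equiv.Perm.inv_eq_iff_eq, Ta0]
theorem Tai2 (e : E7) : (Th fa)⁻¹ (2, e) = (2, gp⁻¹ * e) := by
  rw [Equiv.Perm.inv_eq_iff_eq, Ta2]; simp
theorem Tbi0 (e : E7) : (Th fb)⁻¹ (0, e) = (0, gb⁻¹ * e) := by
  rw [Equiv.Perm.inv_eq_iff_eq, Tb0]; simp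
theorem Tbi1 (e : E7) : (Th fb)⁻¹ (1, e) = (1, gb2⁻¹ * e) := by
  rw [Equiv.Perm.inv_eq_iff_eq, Tb1]; simp
theorem Tbi2 (e : E7) : (Th fb)⁻¹ (2, e) = (2, gq⁻¹ * e) := by
  rw [Equiv.Perm.inv_eq_iff_eq, Tb2]; simp
theorem Tci0 (e : E7) : (Th fc)⁻¹ (0, e) = (0, gc⁻¹ * e) := by
  rw [Equiv.Perm.inv_eq_iff_eq, Tc0]; simp
theorem Tci1 (e : E7) : (Th fc)⁻¹ (1, e) = (2, e) := by
  rw [Equiv.Perm.inv_eq_iff_eq, Tc2]
theorem Tci2 (e : E7) : (Th fc)⁻¹ (2, e) = (1, gW⁻¹ * e) := by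
  rw [Equiv.Perm.inv_eq_iff_eq, Tc1]; simp

theorem Tw0 (e : E7) : Th fw (0, e) = (0, gw * e) := by
  simp only [fw, map_mul, map_inv, Equiv.Perm.mul_apply, Ta0, Ta1, Ta2, Tb0, Tb1, Tb2, Tc0, Tc1,
    Tc2, Tai0, Tai1, Tai2, Tbi0, Tbi1, Tbi2, Tci0, Tci1, Tci2]
  simp only [gb2, Prod.mk.injEq, true_and]
  group

theorem Tw1 (e : E7) : Th fw (1, e) = (2, gW * gX⁻¹ * gb * gX * gb2⁻¹ * e) := by
  simp only [fw, map_mul, map_inv, Equiv.Perm.mul_apply, Ta0, Ta1, Ta2, Tb0, Tb1, Tb2, Tc0, Tc1,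
    Tc2, Tai0, Tai1, Tai2, Tbi0, Tbi1, Tbi2, Tci0, Tci1, Tci2]
  simp only [Prod.mk.injEq, true_and]
  group

theorem Tw2 (e : E7) : Th fw (2, e) = (1, gp⁻¹ * gq * gp * gq⁻¹ * e) := by
  simp only [fw, map_mul, map_inv, Equiv.Perm.mul_apply, Ta0, Ta1, Ta2, Tb0, Tb1, Tb2, Tc0, Tc1,
    Tc2, Tai0, Tai1, Tai2, Tbi0, Tbi1, Tbi2, Tci0, Tci1, Tci2]
  simp only [Prod.mk.injEq, true_and]
  group

theorem Th_psi (g : E7) (e : E7) : Th (psi g).1 (0, e) = (0, g * e) := by
  induction g using FreeGroup.induction_on generalizing e with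
  | C1 => simp
  | of i =>
    fin_cases i
    · change Th (psi gV).1 (0, e) = (0, gV * e)
      rw [psi_V]
      simp only [map_mul, map_inv, Equiv.Perm.mul_apply, Ta0, Tai1, Tw1, Tw2]
      simp only [Prod.mk.injEq, true_and, gW]
      group
    · change Th (psi gp).1 (0, e) = (0, gp * e)
      rw [psi_p]
      simp only [fr, mul_inv_rev, inv_inv, map_mul, map_inv, Equiv.Perm.mul_apply, Ta0, Tci1, Ta2,
        Tc2, Tai1]
    · change Th (psi gq).1 (0, e) = (0, gq * e)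
      rw [psi_q]
      simp only [fr, mul_inv_rev, inv_inv, map_mul, map_inv, Equiv.Perm.mul_apply, Ta0, Tci1, Tb2,
        Tc2, Tai1]
    · change Th (psi gw).1 (0, e) = (0, gw * e)
      rw [psi_w]
      exact Tw0 e
    · change Th (psi gX).1 (0, e) = (0, gX * e)
      rw [psi_X]
      simp only [map_mul, Equiv.Perm.mul_apply, Ta0, Ta1]
    · change Th (psi gb).1 (0, e) = (0, gb * e)
      rw [psi_b]
      exact Tb0 e
    · change Th (psi gc).1 (0, e) = (0, gc * e)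
      rw [psi_c]
      exact Tc0 e
  | inv_of i ih =>
    rw [map_inv, Prod.fst_inv, map_inv, Equiv.Perm.inv_eq_iff_eq, ih]
    simp
  | mul x y hx hy =>
    rw [map_mul, Prod.fst_mul, map_mul, Equiv.Perm.mul_apply, hy, hx, mul_assoc]

theorem psi_fst_inj {x y : E7} (h : (psi x).1 = (psi y).1) : x = y := by
  have h1 := Th_psi x 1
  rw [h, Th_psi y 1] at h1
  simpa using h1.symm


/-- the underlying permutation representation -/
def pm : F3 →* Equiv.Perm (Fin 3) := FreeGroup.lift ![Equiv.swap 0 1, 1, Equiv.swap 1 2]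

theorem pm_a : pm fa = Equiv.swap 0 1 := by simp [pm, fa]
theorem pm_b : pm fb = 1 := by simp [pm, fb]
theorem pm_c : pm fc = Equiv.swap 1 2 := by simp [pm, fc]
theorem pm_w : pm fw = Equiv.swap 1 2 := by
  simp [fw, pm_a, pm_b, pm_c]

theorem Th_fst (g : F3) (x : Fin 3 × E7) : (Th g x).1 = pm g x.1 := by
  induction g using FreeGroup.induction_on generalizing x with
  | C1 => simp
  | of i => fin_cases i <;> simp [Th, pm, lab]
  | inv_of i ih =>
    have := ih ((Th (FreeGroup.of i))⁻¹ x)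
    rw [← Equiv.Perm.mul_apply, mul_inv_cancel, Equiv.Perm.one_apply] at this
    rw [map_inv, map_inv, this, ← Equiv.Perm.mul_apply, inv_mul_cancel, Equiv.Perm.one_apply]
  | mul a b ha hb => rw [map_mul, map_mul, Equiv.Perm.mul_apply, Equiv.Perm.mul_apply, ha, hb]

theorem pm_psi (x : E7) : pm (psi x).1 0 = 0 := by
  have := Th_fst (psi x).1 (0, 1)
  rw [Th_psi] at this
  exact this.symm

theorem sw_even {m : ℤ} (h : ((Equiv.swap 1 2 : Equiv.Perm (Fin 3)) ^ m) 1 = 1) : ∃ k, m = 2 * k := by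
  rcases Int.even_or_odd' m with ⟨k, hk | hk⟩
  · exact ⟨k, hk⟩
  · exfalso
    rw [hk, zpow_add, zpow_mul] at h
    have h2 : (Equiv.swap 1 2 : Equiv.Perm (Fin 3)) ^ (2 : ℤ) = 1 := by decide
    rw [h2] at h
    simp at h

theorem sw_fix (m : ℤ) : ((Equiv.swap 1 2 : Equiv.Perm (Fin 3)) ^ m) 0 = 0 := by
  apply Equiv.Perm.zpow_apply_eq_self_of_apply_eq_self
  decide

theorem sw_ne (m : ℤ) : ((Equiv.swap 1 2 : Equiv.Perm (Fin 3)) ^ m) 1 ≠ 0 := by
  intro h
  have := ((Equiv.swap 1 2 : Equiv.Perm (Fin 3)) ^ m).injective (h.trans (sw_fix m).symm)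
  exact absurd this (by decide)

/-- if `g = u^m` type elements are in the stabiliser -/
theorem case_even {u : F3} (hu : pm u = Equiv.swap 1 2) {m : ℤ} {x : E7}
    (h : (psi x).1 = fa⁻¹ * u ^ m * fa) : ∃ k, m = 2 * k := by
  have h1 := pm_psi x
  rw [h] at h1
  simp only [map_mul, map_inv, map_zpow, Equiv.Perm.mul_apply, pm_a, hu] at h1
  apply sw_even
  have h2 : (Equiv.swap 0 1 : Equiv.Perm (Fin 3)) 0 = 1 := by decide
  rw [h2, Equiv.Perm.inv_eq_iff_eq, h2] at h1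
  exact h1

theorem case_no1 {u : F3} (hu : pm u = Equiv.swap 1 2) {m : ℤ} {x : E7}
    (h : (psi x).1 = u ^ m * fa) : False := by
  have h1 := pm_psi x
  rw [h] at h1
  simp only [map_mul, map_inv, map_zpow, Equiv.Perm.mul_apply, pm_a, hu] at h1
  have h2 : (Equiv.swap 0 1 : Equiv.Perm (Fin 3)) 0 = 1 := by decide
  rw [h2] at h1
  exact sw_ne m h1

theorem case_no2 {u : F3} (hu : pm u = Equiv.swap 1 2) {m : ℤ} {x : E7}
    (h : (psi x).1 = fa⁻¹ * u ^ m) : False := by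
  have h1 := pm_psi x
  rw [h] at h1
  simp only [map_mul, map_inv, map_zpow, Equiv.Perm.mul_apply, pm_a, hu] at h1
  have h2 : (Equiv.swap 0 1 : Equiv.Perm (Fin 3)) 0 = 1 := by decide
  rw [sw_fix, Equiv.Perm.inv_eq_iff_eq, h2] at h1
  exact absurd h1 (by decide)

end Schreier

section Surface

abbrev rels (g : ℕ) : Set (FreeGroup (Fin g × Fin 2)) :=
  {((List.finRange g).map (fun i : Fin g =>
            FreeGroup.of (i, (0 : Fin 2)) * FreeGroup.of (i, (1 : Fin 2)) *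
            (FreeGroup.of (i, (0 : Fin 2)))⁻¹ * (FreeGroup.of (i, (1 : Fin 2)))⁻¹)).prod}

abbrev SG (g : ℕ) := PresentedGroup (rels g)

def sA (i : Fin 4) : SG 4 := PresentedGroup.of (i, (0 : Fin 2))
def sB (i : Fin 4) : SG 4 := PresentedGroup.of (i, (1 : Fin 2))

theorem fr4 : List.finRange 4 = [0, 1, 2, 3] := by decide

def cm {Q : Type*} [Group Q] (x y : Q) : Q := x * y * x⁻¹ * y⁻¹

theorem surf_rel : cm (sA 0) (sB 0) * cm (sA 1) (sB 1) * cm (sA 2) (sB 2) * cm (sA 3) (sB 3) = 1 := by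
  have h : PresentedGroup.mk (rels 4) (((List.finRange 4).map (fun i : Fin 4 =>
            FreeGroup.of (i, (0 : Fin 2)) * FreeGroup.of (i, (1 : Fin 2)) *
            (FreeGroup.of (i, (0 : Fin 2)))⁻¹ * (FreeGroup.of (i, (1 : Fin 2)))⁻¹)).prod) = 1 :=
    PresentedGroup.one_of_mem (Set.mem_singleton _)
  rw [fr4] at h
  simp only [List.map_cons, List.map_nil, List.prod_cons, List.prod_nil, mul_one, map_mul,
    map_inv] at h
  simp only [cm, sA, sB, PresentedGroup.of]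
  simpa only [mul_assoc] using h

def fg {Q : Type*} (f g : Fin 4 → Q) (x : Fin 4 × Fin 2) : Q := if x.2 = 0 then f x.1 else g x.1

theorem fg_rel {Q : Type*} [Group Q] (f g : Fin 4 → Q)
    (h : cm (f 0) (g 0) * cm (f 1) (g 1) * cm (f 2) (g 2) * cm (f 3) (g 3) = 1) :
    ∀ r ∈ rels 4, FreeGroup.lift (fg f g) r = 1 := by
  intro r hr
  rw [Set.mem_singleton_iff] at hr
  rw [hr, fr4]
  simp only [List.map_cons, List.map_nil, List.prod_cons, List.prod_nil, mul_one, map_mul,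
    map_inv, FreeGroup.lift_apply_of, fg]
  simp only [cm] at h
  simpa [mul_assoc] using h

def mkHom {Q : Type*} [Group Q] (f g : Fin 4 → Q)
    (h : cm (f 0) (g 0) * cm (f 1) (g 1) * cm (f 2) (g 2) * cm (f 3) (g 3) = 1) : SG 4 →* Q :=
  PresentedGroup.toGroup (fg_rel f g h)

theorem mkHom_A {Q : Type*} [Group Q] (f g : Fin 4 → Q)
    (h : cm (f 0) (g 0) * cm (f 1) (g 1) * cm (f 2) (g 2) * cm (f 3) (g 3) = 1) (i : Fin 4) :
    mkHom f g h (sA i) = f i := by
  unfold mkHom sA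
  rw [PresentedGroup.toGroup.of]
  simp [fg]

theorem mkHom_B {Q : Type*} [Group Q] (f g : Fin 4 → Q)
    (h : cm (f 0) (g 0) * cm (f 1) (g 1) * cm (f 2) (g 2) * cm (f 3) (g 3) = 1) (i : Fin 4) :
    mkHom f g h (sB i) = g i := by
  unfold mkHom sB
  rw [PresentedGroup.toGroup.of]
  simp [fg]

theorem SG_ext {Q : Type*} [Group Q] {f g : SG 4 →* Q} (hA : ∀ i, f (sA i) = g (sA i))
    (hB : ∀ i, f (sB i) = g (sB i)) : f = g := by
  apply PresentedGroup.ext
  rintro ⟨i, j⟩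
  fin_cases j
  · exact hA i
  · exact hB i

theorem SG_gen (S : Subgroup (SG 4)) (hA : ∀ i, sA i ∈ S) (hB : ∀ i, sB i ∈ S) : S = ⊤ := by
  rw [eq_top_iff, ← PresentedGroup.closure_range_of (rels 4), Subgroup.closure_le]
  rintro _ ⟨⟨i, j⟩, rfl⟩
  fin_cases j
  · exact hA i
  · exact hB i

end Surface

section Embed

open HNNExtension

theorem fstz (x : GG) (m : ℤ) : (x ^ m).1 = x.1 ^ m := map_zpow (MonoidHom.fst F3 Zm) x m

theorem psi_b2 : psi gb2 = (fc⁻¹ * fw * fb, ff1⁻¹ * ff1⁻¹) := by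
  simp only [gb2, map_mul, map_inv, psi_c, psi_w, psi_b]
  simp only [Prod.mk_mul_mk, Prod.inv_mk, mul_one]

theorem psi_W : psi gW = (fa⁻¹ * fc ^ (2 : ℤ) * fa, Multiplicative.ofAdd (-1)) := by
  simp only [gW, map_mul, map_inv, psi_V, psi_p, psi_q, psi_X, psi_b, psi_b2]
  simp only [Prod.mk_mul_mk, Prod.inv_mk, mul_one]
  rw [Prod.mk.injEq]
  constructor
  · simp only [fw, fr, zpow_two]
    group
  · simp only [ff1]
    rfl

theorem conj_V : ((fa, 1) : GG) * psi gV * ((fa, 1) : GG)⁻¹ = (fw ^ (2 : ℤ), Multiplicative.ofAdd 1) := by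
  rw [psi_V]
  simp only [Prod.mk_mul_mk, Prod.inv_mk, mul_one, one_mul, ff1]
  rw [Prod.mk.injEq]
  exact ⟨by rw [zpow_two]; group, by simp⟩

theorem psi_w' : psi gw = (fw ^ (1 : ℤ), Multiplicative.ofAdd (-1)) := by
  rw [psi_w, zpow_one]; rfl

theorem psi_c' : psi gc = (fc ^ (1 : ℤ), Multiplicative.ofAdd 1) := by
  rw [psi_c, zpow_one]; rfl

noncomputable def JJ : E7 →* G0 := of.comp psi

theorem rel_V : (t * of ((fa, 1) : GG) : G0) * JJ gV * (t * of ((fa, 1) : GG))⁻¹ = JJ gc := by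
  have : (t * of ((fa, 1) : GG) : G0) * JJ gV * (t * of ((fa, 1) : GG))⁻¹
      = t * of (((fa, 1) : GG) * psi gV * ((fa, 1) : GG)⁻¹) * t⁻¹ := by
    simp only [JJ, MonoidHom.comp_apply, map_mul, map_inv]; group
  rw [this, conj_V, t_conj]
  simp only [JJ, MonoidHom.comp_apply]
  rw [psi_c']
  norm_num

theorem rel_w : (of ((fa⁻¹, 1) : GG) * t : G0) * JJ gw * (of ((fa⁻¹, 1) : GG) * t)⁻¹ = JJ gW := by
  have : (of ((fa⁻¹, 1) : GG) * t : G0) * JJ gw * (of ((fa⁻¹, 1) : GG) * t)⁻¹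
      = of ((fa⁻¹, 1) : GG) * (t * of (psi gw) * t⁻¹) * of ((fa⁻¹, 1) : GG)⁻¹ := by
    simp only [JJ, MonoidHom.comp_apply, map_inv]; group
  rw [this, psi_w', t_conj, ← map_mul, ← map_mul]
  simp only [JJ, MonoidHom.comp_apply]
  rw [psi_W]
  simp only [Prod.mk_mul_mk, Prod.inv_mk, mul_one, one_mul, inv_inv]
  norm_num

theorem total_rel :
    cm (t * of ((fa, 1) : GG) : G0) (JJ gV) * cm (JJ gp⁻¹) (JJ gq) *
      cm (of ((fa⁻¹, 1) : GG) * t) (JJ gw) * cm (JJ (gw * gX⁻¹ * gw⁻¹)) (JJ (gw * gb * gw⁻¹)) = 1 := by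
  have h0 : cm (t * of ((fa, 1) : GG) : G0) (JJ gV) = JJ (gc * gV⁻¹) := by
    unfold cm; rw [rel_V, map_mul, map_inv]
  have h2 : cm (of ((fa⁻¹, 1) : GG) * t : G0) (JJ gw) = JJ (gW * gw⁻¹) := by
    unfold cm; rw [rel_w, map_mul, map_inv]
  rw [h0, h2]
  simp only [cm, ← map_mul, ← map_inv]
  have : gc * gV⁻¹ * (gp⁻¹ * gq * gp⁻¹⁻¹ * gq⁻¹) * (gW * gw⁻¹) *
      (gw * gX⁻¹ * gw⁻¹ * (gw * gb * gw⁻¹) * (gw * gX⁻¹ * gw⁻¹)⁻¹ * (gw * gb * gw⁻¹)⁻¹) = 1 := by
    simp only [gW, gb2]; group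
  rw [this, map_one]

noncomputable def PsA : Fin 4 → G0 :=
  ![t * of ((fa, 1) : GG), JJ gp⁻¹, of ((fa⁻¹, 1) : GG) * t, JJ (gw * gX⁻¹ * gw⁻¹)]
noncomputable def PsB : Fin 4 → G0 := ![JJ gV, JJ gq, JJ gw, JJ (gw * gb * gw⁻¹)]

noncomputable def Ps : SG 4 →* G0 := mkHom PsA PsB total_rel

def ee : E7 →* SG 4 := FreeGroup.lift
  ![sB 0, (sA 1)⁻¹, sB 1, sB 2, (sB 2)⁻¹ * (sA 3)⁻¹ * sB 2, (sB 2)⁻¹ * sB 3 * sB 2,
    sA 0 * sB 0 * (sA 0)⁻¹]

theorem ee_V : ee gV = sB 0 := by simp [ee, gV]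
theorem ee_p : ee gp = (sA 1)⁻¹ := by simp [ee, gp]
theorem ee_q : ee gq = sB 1 := by simp [ee, gq]
theorem ee_w : ee gw = sB 2 := by simp [ee, gw]
theorem ee_X : ee gX = (sB 2)⁻¹ * (sA 3)⁻¹ * sB 2 := by simp [ee, gX]
theorem ee_b : ee gb = (sB 2)⁻¹ * sB 3 * sB 2 := by simp [ee, gb]
theorem ee_c : ee gc = sA 0 * sB 0 * (sA 0)⁻¹ := by simp [ee, gc]

theorem PsA_eq (i : Fin 4) : Ps (sA i) = PsA i := mkHom_A _ _ _ i
theorem PsB_eq (i : Fin 4) : Ps (sB i) = PsB i := mkHom_B _ _ _ i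

theorem Ps_ee (x : E7) : Ps (ee x) = JJ x := by
  have : Ps.comp ee = JJ := by
    apply FreeGroup.ext_hom
    intro i
    rw [MonoidHom.comp_apply]
    fin_cases i
    · change Ps (ee gV) = JJ gV
      rw [ee_V, PsB_eq]; rfl
    · change Ps (ee gp) = JJ gp
      rw [ee_p, map_inv, PsA_eq]; simp [PsA]
    · change Ps (ee gq) = JJ gq
      rw [ee_q, PsB_eq]; rfl
    · change Ps (ee gw) = JJ gw
      rw [ee_w, PsB_eq]; rfl
    · change Ps (ee gX) = JJ gX
      rw [ee_X, map_mul, map_mul, map_inv, map_inv, PsA_eq, PsB_eq]; simp [PsA, PsB]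
    · change Ps (ee gb) = JJ gb
      rw [ee_b, map_mul, map_mul, map_inv, PsB_eq, PsB_eq]; simp [PsB]; group
    · change Ps (ee gc) = JJ gc
      rw [ee_c, map_mul, map_mul, map_inv, PsB_eq, PsA_eq]
      exact rel_V
  rw [← this]; rfl

theorem ee_W : sA 2 * sB 2 * (sA 2)⁻¹ = ee gW := by
  have h := surf_rel
  have h2 : cm (sA 2) (sB 2) = (cm (sA 1) (sB 1))⁻¹ * (cm (sA 0) (sB 0))⁻¹ * (cm (sA 3) (sB 3))⁻¹ := by
    have : cm (sA 2) (sB 2) = (cm (sA 1) (sB 1))⁻¹ * (cm (sA 0) (sB 0))⁻¹ *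
      (cm (sA 0) (sB 0) * cm (sA 1) (sB 1) * cm (sA 2) (sB 2) * cm (sA 3) (sB 3)) *
      (cm (sA 3) (sB 3))⁻¹ := by group
    rw [this, h]; group
  have h3 : sA 2 * sB 2 * (sA 2)⁻¹ = cm (sA 2) (sB 2) * sB 2 := by unfold cm; group
  rw [h3, h2]
  simp only [gW, gb2, map_mul, map_inv, ee_V, ee_p, ee_q, ee_w, ee_X, ee_b, ee_c, cm]
  group

def ss : Fin 2 → SG 4 := ![sA 2, sA 0]
def gL : Fin 2 → GG := ![(fa⁻¹, 1), 1]
def gR : Fin 2 → GG := ![1, (fa, 1)]

theorem Ps_ss (i : Fin 2) : Ps (ss i) = of (gL i) * t * of (gR i) := by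
  fin_cases i
  · change Ps (sA 2) = of ((fa⁻¹, 1) : GG) * t * of (1 : GG)
    rw [PsA_eq, map_one, mul_one]; rfl
  · change Ps (sA 0) = of (1 : GG) * t * of ((fa, 1) : GG)
    rw [PsA_eq, map_one, one_mul]; rfl

theorem ss_gen : Subgroup.closure (Set.range ee ∪ Set.range ss) = ⊤ := by
  have he : ∀ x, ee x ∈ Subgroup.closure (Set.range ee ∪ Set.range ss) := fun x =>
    Subgroup.subset_closure (Or.inl ⟨x, rfl⟩)
  have hs : ∀ x, ss x ∈ Subgroup.closure (Set.range ee ∪ Set.range ss) := fun x =>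
    Subgroup.subset_closure (Or.inr ⟨x, rfl⟩)
  apply SG_gen
  · intro i
    fin_cases i
    · exact hs 1
    · have := he gp⁻¹
      rw [map_inv, ee_p, inv_inv] at this
      exact this
    · exact hs 0
    · have := he (gw * gX⁻¹ * gw⁻¹)
      rw [map_mul, map_mul, map_inv, map_inv, ee_w, ee_X] at this
      have e : sB 2 * ((sB 2)⁻¹ * (sA 3)⁻¹ * sB 2)⁻¹ * (sB 2)⁻¹ = sA 3 := by group
      rw [e] at this
      exact this
  · intro i
    fin_cases i
    · have := he gV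
      rw [ee_V] at this; exact this
    · have := he gq
      rw [ee_q] at this; exact this
    · have := he gw
      rw [ee_w] at this; exact this
    · have := he (gw * gb * gw⁻¹)
      rw [map_mul, map_mul, map_inv, ee_w, ee_b] at this
      have e : sB 2 * ((sB 2)⁻¹ * sB 3 * sB 2) * (sB 2)⁻¹ = sB 3 := by group
      rw [e] at this
      exact this

theorem hA11 (x : E7) (h : psi x ∈ AA) : ∃ y, sA 2 * ee x * (sA 2)⁻¹ = ee y := by
  obtain ⟨m, n, h⟩ := of_memA h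
  have hx : x = gw ^ m := by
    apply psi_fst_inj
    rw [h, map_zpow, psi_w, fstz]
  refine ⟨gW ^ m, ?_⟩
  rw [hx, map_zpow, map_zpow, ← ee_W, ee_w, conj_zpow]

theorem hA22 (x : E7) (h : ((fa, 1) : GG) * psi x * ((fa, 1) : GG)⁻¹ ∈ AA) :
    ∃ y, sA 0 * ee x * (sA 0)⁻¹ = ee y := by
  obtain ⟨m, n, h⟩ := of_memA h
  have h1 : (psi x).1 = fa⁻¹ * fw ^ m * fa := by
    have := congrArg Prod.fst h
    simp only [Prod.fst_mul, Prod.fst_inv] at this
    rw [← this]; group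
  obtain ⟨k, rfl⟩ := case_even pm_w h1
  have hx : x = gV ^ k := by
    apply psi_fst_inj
    rw [h1, map_zpow, psi_V, fstz, zpow_mul]
    have : fa⁻¹ * fw * fw * fa = fa⁻¹ * (fw ^ (2 : ℤ)) * (fa⁻¹)⁻¹ := by rw [zpow_two]; group
    rw [this, conj_zpow]; group
  refine ⟨gc ^ k, ?_⟩
  rw [hx, map_zpow, map_zpow, ee_V, ee_c, conj_zpow]

theorem hA12 (x : E7) (h : psi x * ((fa, 1) : GG)⁻¹ ∈ AA) : False := by
  obtain ⟨m, n, h⟩ := of_memA h
  apply case_no1 pm_w (m := m) (x := x)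
  have := congrArg Prod.fst h
  simp only [Prod.fst_mul, Prod.fst_inv] at this
  rw [← this]; group

theorem hA21 (x : E7) (h : ((fa, 1) : GG) * psi x ∈ AA) : False := by
  obtain ⟨m, n, h⟩ := of_memA h
  apply case_no2 pm_w (m := m) (x := x)
  have := congrArg Prod.fst h
  simp only [Prod.fst_mul] at this
  rw [← this]; group

theorem hB11 (x : E7) (h : ((fa⁻¹, 1) : GG)⁻¹ * psi x * ((fa⁻¹, 1) : GG) ∈ BB) :
    ∃ y, (sA 2)⁻¹ * ee x * sA 2 = ee y := by
  obtain ⟨m, n, h⟩ := of_memB h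
  have h1 : (psi x).1 = fa⁻¹ * fc ^ m * fa := by
    have := congrArg Prod.fst h
    simp only [Prod.fst_mul, Prod.fst_inv] at this
    rw [← this]; group
  obtain ⟨k, rfl⟩ := case_even pm_c h1
  have hx : x = gW ^ k := by
    apply psi_fst_inj
    rw [h1, map_zpow, psi_W, fstz, zpow_mul]
    have : fa⁻¹ * fc ^ (2 : ℤ) * fa = fa⁻¹ * (fc ^ (2 : ℤ)) * (fa⁻¹)⁻¹ := by group
    rw [this, conj_zpow]; group
  refine ⟨gw ^ k, ?_⟩
  rw [hx, map_zpow, map_zpow, ← ee_W, ee_w, conj_zpow]; group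

theorem hB22 (x : E7) (h : psi x ∈ BB) : ∃ y, (sA 0)⁻¹ * ee x * sA 0 = ee y := by
  obtain ⟨m, n, h⟩ := of_memB h
  have hx : x = gc ^ m := by
    apply psi_fst_inj
    rw [h, map_zpow, psi_c, fstz]
  refine ⟨gV ^ m, ?_⟩
  rw [hx, map_zpow, map_zpow, ee_V, ee_c, conj_zpow]; group

theorem hB12 (x : E7) (h : ((fa⁻¹, 1) : GG)⁻¹ * psi x ∈ BB) : False := by
  obtain ⟨m, n, h⟩ := of_memB h
  apply case_no2 pm_c (m := m) (x := x)
  have := congrArg Prod.fst h
  simp only [Prod.fst_mul, Prod.fst_inv] at this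
  rw [← this]; group

theorem hB21 (x : E7) (h : psi x * ((fa⁻¹, 1) : GG) ∈ BB) : False := by
  obtain ⟨m, n, h⟩ := of_memB h
  apply case_no1 pm_c (m := m) (x := x)
  have := congrArg Prod.fst h
  simp only [Prod.fst_mul] at this
  rw [← this]; group

theorem Ps_base (w : SG 4) (hw : Ps w ∈ (of.range : Subgroup G0)) : ∃ x, w = ee x := by
  refine mem_base ee ss psi gL gR Ps (fun x => Ps_ee x) Ps_ss ?_ ?_ ss_gen w hw
  · intro i j x h
    fin_cases i <;> fin_cases j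
    · refine ⟨rfl, hA11 x ?_⟩
      simpa [gR] using h
    · exact (hA12 x (by simpa [gR] using h)).elim
    · exact (hA21 x (by simpa [gR] using h)).elim
    · refine ⟨rfl, hA22 x ?_⟩
      simpa [gR] using h
  · intro i j x h
    fin_cases i <;> fin_cases j
    · refine ⟨rfl, hB11 x ?_⟩
      simpa [gL] using h
    · exact (hB12 x (by simpa [gL] using h)).elim
    · exact (hB21 x (by simpa [gL] using h)).elim
    · refine ⟨rfl, hB22 x ?_⟩
      simpa [gL] using h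

theorem Ps_inj : Function.Injective Ps := by
  rw [injective_iff_map_eq_one]
  intro w hw
  obtain ⟨x, rfl⟩ := Ps_base w (by rw [hw]; exact one_mem _)
  rw [Ps_ee] at hw
  have h1 : psi x = 1 := of_injective ph (by rw [map_one]; exact hw)
  have h2 : x = 1 := psi_fst_inj (by rw [h1, map_one])
  rw [h2, map_one]

/-- the element that cannot be separated -/
def gam : F3 := cm (fa⁻¹ * fc * fa) fw

theorem gam_not_mem : (of ((gam, 1) : GG) : G0) ∉ Ps.range := by
  rintro ⟨w, hw⟩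
  obtain ⟨x, rfl⟩ := Ps_base w (by rw [hw]; exact ⟨_, rfl⟩)
  rw [Ps_ee] at hw
  have h1 : psi x = (gam, 1) := of_injective ph hw
  have h2 := pm_psi x
  rw [h1] at h2
  revert h2
  simp only [gam, cm, map_mul, map_inv, pm_a, pm_c, pm_w]
  decide

end Embed

section NonSep

open HNNExtension

noncomputable def ef : G0 := of ((1, Multiplicative.ofAdd 1) : GG)
noncomputable def eW : G0 := of ((fw, 1) : GG)
noncomputable def eT : G0 := of ((fa⁻¹, 1) : GG) * t
noncomputable def eZ : G0 := of ((fa⁻¹ * fc * fa, 1) : GG)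

theorem ef_comm (x : F3) : ef * of ((x, 1) : GG) = of ((x, 1) : GG) * ef := by
  unfold ef
  rw [← map_mul, ← map_mul, Prod.mk_mul_mk, Prod.mk_mul_mk]
  simp

theorem rel1 : ef * eT = eT * (eW * ef) := by
  have h := t_rel 1 1
  have h1 : (of ((fw ^ (1 : ℤ), Multiplicative.ofAdd 1) : GG) : G0) = eW * ef := by
    unfold eW ef
    rw [← map_mul, Prod.mk_mul_mk]; simp
  have h2 : (of ((fc ^ ((1 : ℤ) - 1), Multiplicative.ofAdd 1) : GG) : G0) = ef := by
    unfold ef; simp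
  rw [h1, h2] at h
  unfold eT
  rw [← mul_assoc, ef_comm, mul_assoc, mul_assoc, h]

theorem rel2 : eT * ef = eZ⁻¹ * ef * eT := by
  have h := t_rel 0 1
  have h1 : (of ((fw ^ (0 : ℤ), Multiplicative.ofAdd 1) : GG) : G0) = ef := by
    unfold ef; simp
  rw [h1] at h
  unfold eT
  rw [mul_assoc, h, ← mul_assoc, ← mul_assoc]
  congr 1
  unfold eZ ef
  rw [← map_inv, ← map_mul, ← map_mul, ← map_mul]
  congr 1
  simp only [Prod.mk_mul_mk, Prod.inv_mk, mul_one, one_mul, inv_one]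
  rw [Prod.mk.injEq]
  exact ⟨by group, rfl⟩

theorem eW_ef_comm : eW * ef = ef * eW := (ef_comm fw).symm

theorem ef_pow_T (j : ℤ) : ef ^ j * eT = eT * (ef ^ (2 * j) * (eW * ef⁻¹) ^ j) := by
  have h1 : ef ^ j = (eT * (eW * ef) * eT⁻¹) ^ j := by
    rw [← rel1]; group
  have h2 : Commute ef eW := eW_ef_comm.symm
  rw [h1, conj_zpow]
  have h3 : (eW * ef) ^ j = ef ^ (2 * j) * (eW * ef⁻¹) ^ j := by
    rw [h2.symm.mul_zpow, h2.symm.inv_right.mul_zpow, ((h2.zpow_zpow j j).eq).symm, two_mul,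
      zpow_add, mul_assoc, inv_zpow, (((h2.zpow_zpow j j).symm).inv_right).eq]
    group
  rw [h3]; group

theorem nonsep (K : Subgroup G0) (hfin : K.FiniteIndex) (hK : Ps.range ≤ K) :
    of ((gam, 1) : GG) ∈ K := by
  have hT : eT ∈ K := hK ⟨sA 2, by rw [PsA_eq]; rfl⟩
  have hW : eW * ef⁻¹ ∈ K := hK ⟨sB 2, by
    rw [PsB_eq]
    change of (psi gw) = eW * ef⁻¹
    have h1 : psi gw = ((fw, 1) : GG) * ((1, Multiplicative.ofAdd 1) : GG)⁻¹ := by
      rw [psi_w]; simp [ff1]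
    rw [h1, map_mul, map_inv]; rfl⟩
  let c : ℤ → G0 ⧸ K := fun j => ((ef ^ j : G0) : G0 ⧸ K)
  have hcmul : ∀ (g : G0) (j : ℤ), g • c j = ((g * ef ^ j : G0) : G0 ⧸ K) := fun g j => rfl
  have hcT : ∀ j, eT • c (2 * j) = c j := by
    intro j
    rw [hcmul]
    change ((eT * ef ^ (2 * j) : G0) : G0 ⧸ K) = ((ef ^ j : G0) : G0 ⧸ K)
    rw [QuotientGroup.eq]
    have : (eT * ef ^ (2 * j))⁻¹ * ef ^ j = (eW * ef⁻¹) ^ j * eT⁻¹ := by
      have h := ef_pow_T j
      have h' : ef ^ j = eT * (ef ^ (2 * j) * (eW * ef⁻¹) ^ j) * eT⁻¹ := by rw [← h]; group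
      calc (eT * ef ^ (2 * j))⁻¹ * ef ^ j
          = (eT * ef ^ (2 * j))⁻¹ * (eT * (ef ^ (2 * j) * (eW * ef⁻¹) ^ j) * eT⁻¹) := by rw [← h']
        _ = _ := by group
    rw [this]
    exact K.mul_mem (K.zpow_mem hW j) (K.inv_mem hT)
  have hcW : ∀ j, eW • c j = c (j + 1) := by
    intro j
    rw [hcmul]
    change ((eW * ef ^ j : G0) : G0 ⧸ K) = ((ef ^ (j + 1) : G0) : G0 ⧸ K)
    rw [QuotientGroup.eq]
    have h2 : Commute ef eW := eW_ef_comm.symm
    have : (eW * ef ^ j)⁻¹ * ef ^ (j + 1) = (eW * ef⁻¹)⁻¹ := by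
      rw [(h2.symm.zpow_right j).eq, zpow_add, zpow_one, mul_inv_rev, mul_inv_rev, inv_inv]
      have h3 : eW⁻¹ * (ef ^ j)⁻¹ * (ef ^ j * ef) = eW⁻¹ * ef := by group
      rw [h3, (h2.symm.inv_left).eq]
    rw [this]
    exact K.inv_mem hW
  have hcf : ∀ j, ef • c j = c (j + 1) := by
    intro j
    rw [hcmul]
    change ((ef * ef ^ j : G0) : G0 ⧸ K) = ((ef ^ (j + 1) : G0) : G0 ⧸ K)
    rw [add_comm, zpow_add, zpow_one]
  -- odd period
  have hodd : ∃ r : ℤ, ef ^ (2 * r - 1) ∈ K := by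
    obtain ⟨n, hn0, -, hn⟩ := Subgroup.exists_pow_mem_of_index_ne_zero hfin.index_ne_zero ef
    obtain ⟨k, m, hm, rfl⟩ := Nat.exists_eq_two_pow_mul_odd hn0.ne'
    have key : ∀ k : ℕ, ef ^ (2 ^ k * m) ∈ K → ef ^ m ∈ K := by
      intro k
      induction k with
      | zero => intro h; simpa using h
      | succ k ih =>
        intro h
        apply ih
        have h2 := ef_pow_T ((2 ^ k * m : ℕ) : ℤ)
        have h3 : ef ^ ((2 ^ k * m : ℕ) : ℤ) = eT * (ef ^ (2 * ((2 ^ k * m : ℕ) : ℤ)) *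
          (eW * ef⁻¹) ^ ((2 ^ k * m : ℕ) : ℤ)) * eT⁻¹ := by rw [← h2]; group
        rw [zpow_natCast] at h3
        rw [h3]
        refine K.mul_mem (K.mul_mem hT (K.mul_mem ?_ (K.zpow_mem hW _))) (K.inv_mem hT)
        have h4 : (2 * ((2 ^ k * m : ℕ) : ℤ)) = ((2 ^ (k + 1) * m : ℕ) : ℤ) := by
          push_cast; ring
        rw [h4, zpow_natCast]
        exact h
    have h5 := key k hn
    obtain ⟨q, hq⟩ := hm
    refine ⟨q + 1, ?_⟩
    have : (2 * ((q : ℤ) + 1) - 1) = ((m : ℕ) : ℤ) := by rw [hq]; push_cast; ring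
    rw [this, zpow_natCast]
    exact h5
  obtain ⟨r, hr⟩ := hodd
  have hper : ∀ j, c (j + (2 * r - 1)) = c j := by
    intro j
    change ((ef ^ (j + (2 * r - 1)) : G0) : G0 ⧸ K) = ((ef ^ j : G0) : G0 ⧸ K)
    rw [QuotientGroup.eq]
    have : (ef ^ (j + (2 * r - 1)))⁻¹ * ef ^ j = (ef ^ (2 * r - 1))⁻¹ := by group
    rw [this]
    exact K.inv_mem hr
  have hTi : ∀ j, eT⁻¹ • c j = c (2 * j) := by
    intro j; rw [inv_smul_eq_iff, hcT]
  have hfi : ∀ j, ef⁻¹ • c j = c (j - 1) := by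
    intro j; rw [inv_smul_eq_iff, hcf]; congr 1; ring
  have hWi : ∀ j, eW⁻¹ • c j = c (j - 1) := by
    intro j; rw [inv_smul_eq_iff, hcW]; congr 1; ring
  have hZi : ∀ j, eZ⁻¹ • c j = c (j + r - 1) := by
    intro j
    have h1 : eZ⁻¹ = eT * ef * eT⁻¹ * ef⁻¹ := by
      rw [rel2]; group
    rw [h1, mul_smul, mul_smul, mul_smul, hfi, hTi, hcf]
    have h2 : c (2 * (j - 1) + 1) = c (2 * (j + r - 1)) := by
      rw [← hper (2 * (j - 1) + 1)]
      congr 1
      ring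
    rw [h2, hcT]
  have hZ : ∀ j, eZ • c (j + r - 1) = c j := by
    intro j
    rw [← inv_inv eZ, inv_smul_eq_iff, hZi]
  have hfinal : (of ((gam, 1) : GG) : G0) • c 0 = c 0 := by
    have h1 : (of ((gam, 1) : GG) : G0) = eZ * eW * eZ⁻¹ * eW⁻¹ := by
      unfold eZ eW
      rw [← map_mul, ← map_inv, ← map_mul, ← map_inv, ← map_mul]
      congr 1
    rw [h1, mul_smul, mul_smul, mul_smul, hWi, hZi, hcW]
    have h2 : c (0 - 1 + r - 1 + 1) = c (0 + r - 1) := by congr 1; ring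
    rw [h2, hZ]
  rw [hcmul] at hfinal
  change ((of ((gam, 1) : GG) * ef ^ (0 : ℤ) : G0) : G0 ⧸ K) = ((ef ^ (0 : ℤ) : G0) : G0 ⧸ K) at hfinal
  rw [zpow_zero, mul_one, eq_comm, QuotientGroup.eq, inv_one, one_mul] at hfinal
  exact hfinal

end NonSep

section Lifts

abbrev FF := FreeGroup (Fin 4)

def zx : FF := FreeGroup.of 0
def zy : FF := FreeGroup.of 1
def zu : FF := FreeGroup.of 2
def zt : FF := FreeGroup.of 3
def dd : FF := cm zx zy * cm zu zt

def mkAut (f g : Fin 4 → FF) (h1 : ∀ i, FreeGroup.lift g (f i) = FreeGroup.of i)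
    (h2 : ∀ i, FreeGroup.lift f (g i) = FreeGroup.of i) : MulAut FF :=
  MonoidHom.toMulEquiv (FreeGroup.lift f) (FreeGroup.lift g)
    (by apply FreeGroup.ext_hom; intro i; simp [h1])
    (by apply FreeGroup.ext_hom; intro i; simp [h2])

theorem mkAut_apply (f g : Fin 4 → FF) (h1 : ∀ i, FreeGroup.lift g (f i) = FreeGroup.of i)
    (h2 : ∀ i, FreeGroup.lift f (g i) = FreeGroup.of i) (z : FF) :
    mkAut f g h1 h2 z = FreeGroup.lift f z := rfl

theorem mkAut_inv_apply (f g : Fin 4 → FF) (h1 : ∀ i, FreeGroup.lift g (f i) = FreeGroup.of i)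
    (h2 : ∀ i, FreeGroup.lift f (g i) = FreeGroup.of i) (z : FF) :
    (mkAut f g h1 h2)⁻¹ z = FreeGroup.lift g z := rfl

def x' : FF := dd⁻¹ * zx
def y' : FF := (cm zu zt)⁻¹ * zy
def v' : FF := cm zx zy * zu
def y2 : FF := zt * (cm zx zy)⁻¹

def fX : Fin 4 → FF := ![zx, x' * zy * zx⁻¹, x' * zu * x'⁻¹, x' * zt * x'⁻¹]
def fXi : Fin 4 → FF := ![zx, x'⁻¹ * zy * zx, x'⁻¹ * zu * x', x'⁻¹ * zt * x']
def fM : Fin 4 → FF := ![zx * zy * y'⁻¹, y' * zy * y'⁻¹, y' * zu * y'⁻¹, y' * zt * y'⁻¹]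
def fMi : Fin 4 → FF := ![zx * zy⁻¹ * y', y'⁻¹ * zy * y', y'⁻¹ * zu * y', y'⁻¹ * zt * y']
def fV : Fin 4 → FF := ![v' * zx * v'⁻¹, v' * zy * v'⁻¹, v' * zu * v'⁻¹, zt * zu * v'⁻¹]
def fVi : Fin 4 → FF := ![v'⁻¹ * zx * v', v'⁻¹ * zy * v', v'⁻¹ * zu * v', zt * zu⁻¹ * v']
def fS : Fin 4 → FF := ![y2 * zx * y2⁻¹, y2 * zy * y2⁻¹,
  y2 * (zt⁻¹ * cm zx zy * zu * zt) * y2⁻¹, y2 * zt * y2⁻¹]
def fSi : Fin 4 → FF := ![y2⁻¹ * zx * y2, y2⁻¹ * zy * y2,
  y2⁻¹ * ((cm zx zy)⁻¹ * zt * zu * zt⁻¹) * y2, y2⁻¹ * zt * y2]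
def fF : Fin 4 → FF := ![zx, zy, zu, zt * zu]
def fFi : Fin 4 → FF := ![zx, zy, zu, zt * zu⁻¹]

theorem lz0 {Q : Type*} [Group Q] (f : Fin 4 → Q) : FreeGroup.lift f zx = f 0 := by simp [zx]
theorem lz1 {Q : Type*} [Group Q] (f : Fin 4 → Q) : FreeGroup.lift f zy = f 1 := by simp [zy]
theorem lz2 {Q : Type*} [Group Q] (f : Fin 4 → Q) : FreeGroup.lift f zu = f 2 := by simp [zu]
theorem lz3 {Q : Type*} [Group Q] (f : Fin 4 → Q) : FreeGroup.lift f zt = f 3 := by simp [zt]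

theorem forall4 {P : Fin 4 → Prop} (h0 : P 0) (h1 : P 1) (h2 : P 2) (h3 : P 3) : ∀ i, P i := by
  intro i; fin_cases i <;> assumption

theorem hX1 : ∀ i, FreeGroup.lift fXi (fX i) = FreeGroup.of i := by
  apply forall4
  all_goals
    simp only [fX, fXi, Matrix.cons_val_zero, Matrix.cons_val_one, Matrix.cons_val, map_mul, map_inv, x', y', v', y2, dd, cm, lz0, lz1, lz2, lz3]
    simp only [zx, zy, zu, zt]
    try group
    try rfl

theorem hX2 : ∀ i, FreeGroup.lift fX (fXi i) = FreeGroup.of i := by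
  apply forall4
  all_goals
    simp only [fXi, fX, Matrix.cons_val_zero, Matrix.cons_val_one, Matrix.cons_val, map_mul, map_inv, x', y', v', y2, dd, cm, lz0, lz1, lz2, lz3]
    simp only [zx, zy, zu, zt]
    try group
    try rfl

def aX : MulAut FF := mkAut fX fXi hX1 hX2

theorem aX_dd : aX dd = dd := by
  rw [aX, mkAut_apply]
  simp only [fX, Matrix.cons_val_zero, Matrix.cons_val_one, Matrix.cons_val, map_mul, map_inv, x', y', v', y2, dd, cm, lz0, lz1, lz2, lz3]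
  group

theorem hM1 : ∀ i, FreeGroup.lift fMi (fM i) = FreeGroup.of i := by
  apply forall4
  all_goals
    simp only [fM, fMi, Matrix.cons_val_zero, Matrix.cons_val_one, Matrix.cons_val, map_mul, map_inv, x', y', v', y2, dd, cm, lz0, lz1, lz2, lz3]
    simp only [zx, zy, zu, zt]
    try group
    try rfl

theorem hM2 : ∀ i, FreeGroup.lift fM (fMi i) = FreeGroup.of i := by
  apply forall4
  all_goals
    simp only [fMi, fM, Matrix.cons_val_zero, Matrix.cons_val_one, Matrix.cons_val, map_mul, map_inv, x', y', v', y2, dd, cm, lz0, lz1, lz2, lz3]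
    simp only [zx, zy, zu, zt]
    try group
    try rfl

def aM : MulAut FF := mkAut fM fMi hM1 hM2

theorem aM_dd : aM dd = dd := by
  rw [aM, mkAut_apply]
  simp only [fM, Matrix.cons_val_zero, Matrix.cons_val_one, Matrix.cons_val, map_mul, map_inv, x', y', v', y2, dd, cm, lz0, lz1, lz2, lz3]
  group

theorem hV1 : ∀ i, FreeGroup.lift fVi (fV i) = FreeGroup.of i := by
  apply forall4
  all_goals
    simp only [fV, fVi, Matrix.cons_val_zero, Matrix.cons_val_one, Matrix.cons_val, map_mul, map_inv, x', y', v', y2, dd, cm, lz0, lz1, lz2, lz3]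
    simp only [zx, zy, zu, zt]
    try group
    try rfl

theorem hV2 : ∀ i, FreeGroup.lift fV (fVi i) = FreeGroup.of i := by
  apply forall4
  all_goals
    simp only [fVi, fV, Matrix.cons_val_zero, Matrix.cons_val_one, Matrix.cons_val, map_mul, map_inv, x', y', v', y2, dd, cm, lz0, lz1, lz2, lz3]
    simp only [zx, zy, zu, zt]
    try group
    try rfl

def aV : MulAut FF := mkAut fV fVi hV1 hV2

theorem aV_dd : aV dd = dd := by
  rw [aV, mkAut_apply]
  simp only [fV, Matrix.cons_val_zero, Matrix.cons_val_one, Matrix.cons_val, map_mul, map_inv, x', y', v', y2, dd, cm, lz0, lz1, lz2, lz3]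
  group

theorem hS1 : ∀ i, FreeGroup.lift fSi (fS i) = FreeGroup.of i := by
  apply forall4
  all_goals
    simp only [fS, fSi, Matrix.cons_val_zero, Matrix.cons_val_one, Matrix.cons_val, map_mul, map_inv, x', y', v', y2, dd, cm, lz0, lz1, lz2, lz3]
    simp only [zx, zy, zu, zt]
    try group
    try rfl

theorem hS2 : ∀ i, FreeGroup.lift fS (fSi i) = FreeGroup.of i := by
  apply forall4
  all_goals
    simp only [fSi, fS, Matrix.cons_val_zero, Matrix.cons_val_one, Matrix.cons_val, map_mul, map_inv, x', y', v', y2, dd, cm, lz0, lz1, lz2, lz3]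
    simp only [zx, zy, zu, zt]
    try group
    try rfl

def aS : MulAut FF := mkAut fS fSi hS1 hS2

theorem aS_dd : aS dd = dd := by
  rw [aS, mkAut_apply]
  simp only [fS, Matrix.cons_val_zero, Matrix.cons_val_one, Matrix.cons_val, map_mul, map_inv, x', y', v', y2, dd, cm, lz0, lz1, lz2, lz3]
  group

theorem hF1 : ∀ i, FreeGroup.lift fFi (fF i) = FreeGroup.of i := by
  apply forall4
  all_goals
    simp only [fF, fFi, Matrix.cons_val_zero, Matrix.cons_val_one, Matrix.cons_val, map_mul, map_inv, x', y', v', y2, dd, cm, lz0, lz1, lz2, lz3]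
    simp only [zx, zy, zu, zt]
    try group
    try rfl

theorem hF2 : ∀ i, FreeGroup.lift fF (fFi i) = FreeGroup.of i := by
  apply forall4
  all_goals
    simp only [fFi, fF, Matrix.cons_val_zero, Matrix.cons_val_one, Matrix.cons_val, map_mul, map_inv, x', y', v', y2, dd, cm, lz0, lz1, lz2, lz3]
    simp only [zx, zy, zu, zt]
    try group
    try rfl

def aF : MulAut FF := mkAut fF fFi hF1 hF2

theorem aF_dd : aF dd = dd := by
  rw [aF, mkAut_apply]
  simp only [fF, Matrix.cons_val_zero, Matrix.cons_val_one, Matrix.cons_val, map_mul, map_inv, x', y', v', y2, dd, cm, lz0, lz1, lz2, lz3]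
  group


theorem aut_ext {p q : MulAut FF} (h0 : p zx = q zx) (h1 : p zy = q zy) (h2 : p zu = q zu)
    (h3 : p zt = q zt) : p = q := by
  have : p.toMonoidHom = q.toMonoidHom := by
    apply FreeGroup.ext_hom
    apply forall4
    exacts [h0, h1, h2, h3]
  ext z
  exact DFunLike.congr_fun this z

theorem comm_FX : aF * aX = aX * aF := by
  apply aut_ext
  all_goals
    simp only [MulAut.mul_apply, aF, aX, mkAut_apply, fX, fF, Matrix.cons_val_zero, Matrix.cons_val_one, Matrix.cons_val, map_mul, map_inv, x', y', v', y2, dd, cm, lz0, lz1, lz2, lz3]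
    try group

theorem comm_FM : aF * aM = aM * aF := by
  apply aut_ext
  all_goals
    simp only [MulAut.mul_apply, aF, aM, mkAut_apply, fM, fF, Matrix.cons_val_zero, Matrix.cons_val_one, Matrix.cons_val, map_mul, map_inv, x', y', v', y2, dd, cm, lz0, lz1, lz2, lz3]
    try group

theorem comm_FV : aF * aV = aV * aF := by
  apply aut_ext
  all_goals
    simp only [MulAut.mul_apply, aF, aV, mkAut_apply, fV, fF, Matrix.cons_val_zero, Matrix.cons_val_one, Matrix.cons_val, map_mul, map_inv, x', y', v', y2, dd, cm, lz0, lz1, lz2, lz3]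
    try group

theorem rel_SF : aS * aF = aV⁻¹ * aF * aS := by
  apply aut_ext
  all_goals
    simp only [MulAut.mul_apply, aF, aV, aS, mkAut_apply, mkAut_inv_apply, fS, fVi, fF, Matrix.cons_val_zero, Matrix.cons_val_one, Matrix.cons_val, map_mul, map_inv, x', y', v', y2, dd, cm, lz0, lz1, lz2, lz3]
    try group

def c1 : Fin 4 → FF := ![zx * zx * zy⁻¹ * zt * zu * zt⁻¹ * zu⁻¹ * zy * zx⁻¹,
    zx * zy⁻¹ * zu * zt * zu⁻¹ * zt⁻¹ * zy * zx⁻¹ * zt * zu * zt⁻¹ * zu⁻¹ * zy * zx * zy⁻¹ * zt * zu * zt⁻¹ * zu⁻¹ * zy * zx⁻¹,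
    zx * zy⁻¹ * zu * zt * zu⁻¹ * zt⁻¹ * zu * zt * zu * zt⁻¹ * zu⁻¹ * zy * zx⁻¹,
    zx * zy⁻¹ * zu * zt * zu⁻¹ * zt * zu * zt⁻¹ * zu⁻¹ * zy * zx⁻¹]

def c2 : Fin 4 → FF := ![zx * zu * zt * zu⁻¹ * zt⁻¹ * zx * zt * zu * zt⁻¹ * zu⁻¹ * zx⁻¹,
    zx * zu * zt * zu⁻¹ * zt⁻¹ * zx⁻¹ * zt * zu * zt⁻¹ * zu⁻¹ * zy * zx * zt * zu * zt⁻¹ * zu⁻¹ * zx⁻¹,
    zx * zu * zt * zu⁻¹ * zt⁻¹ * zu * zt * zu * zt⁻¹ * zu⁻¹ * zx⁻¹,
    zx * zu * zt * zu⁻¹ * zt * zu * zt⁻¹ * zu⁻¹ * zx⁻¹]

def c3 : Fin 4 → FF := ![zx * zy * zx⁻¹ * zy⁻¹ * zu * zt * zu⁻¹ * zt⁻¹ * zy * zx * zy⁻¹ * zx * zy * zx⁻¹ * zy⁻¹ * zt * zu * zt⁻¹ * zu⁻¹ * zy * zx * zy⁻¹ * zx⁻¹,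
    zx * zy * zx⁻¹ * zy⁻¹ * zu * zt * zu⁻¹ * zt⁻¹ * zy * zx * zy⁻¹ * zx⁻¹ * zy * zx * zy * zx⁻¹ * zy⁻¹ * zt * zu * zt⁻¹ * zu⁻¹ * zy * zx * zy⁻¹ * zx⁻¹,
    zx * zy * zx⁻¹ * zy⁻¹ * zu * zt * zu⁻¹ * zt⁻¹ * zu * zt * zu⁻¹ * zt⁻¹ * zu * zt * zu * zt⁻¹ * zu⁻¹ * zt * zu * zt⁻¹ * zu⁻¹ * zy * zx * zy⁻¹ * zx⁻¹,
    zx * zy * zx⁻¹ * zy⁻¹ * zu * zt * zu⁻¹ * zt⁻¹ * zu * zt * zu⁻¹ * zt * zu * zt⁻¹ * zu⁻¹ * zt * zu * zt⁻¹ * zu⁻¹ * zy * zx * zy⁻¹ * zx⁻¹]

def c4 : Fin 4 → FF := ![zx * zy * zx⁻¹ * zy⁻¹ * zu * zt * zu⁻¹ * zt⁻¹ * zx * zy * zx⁻¹ * zy⁻¹ * zu * zy * zx * zy⁻¹ * zx * zy * zx⁻¹ * zy⁻¹ * zu⁻¹ * zy * zx * zy⁻¹ * zx⁻¹ * zt * zu * zt⁻¹ * zu⁻¹ * zy * zx * zy⁻¹ * zx⁻¹,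
    zx * zy * zx⁻¹ * zy⁻¹ * zu * zt * zu⁻¹ * zt⁻¹ * zx * zy * zx⁻¹ * zy⁻¹ * zu * zy * zx * zy⁻¹ * zx⁻¹ * zy * zx * zy * zx⁻¹ * zy⁻¹ * zu⁻¹ * zy * zx * zy⁻¹ * zx⁻¹ * zt * zu * zt⁻¹ * zu⁻¹ * zy * zx * zy⁻¹ * zx⁻¹,
    zx * zy * zx⁻¹ * zy⁻¹ * zu * zt * zu⁻¹ * zt⁻¹ * zx * zy * zx⁻¹ * zy⁻¹ * zu * zy * zx * zy⁻¹ * zx⁻¹ * zt * zu⁻¹ * zt⁻¹ * zx * zy * zx⁻¹ * zy⁻¹ * zu * zy * zx * zy⁻¹ * zx⁻¹ * zt * zu * zt⁻¹ * zx * zy * zx⁻¹ * zy⁻¹ * zu⁻¹ * zy * zx * zy⁻¹ * zx⁻¹ * zt * zu * zt⁻¹ * zu⁻¹ * zy * zx * zy⁻¹ * zx⁻¹,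
    zx * zy * zx⁻¹ * zy⁻¹ * zu * zt * zu⁻¹ * zt⁻¹ * zx * zy * zx⁻¹ * zy⁻¹ * zu * zy * zx * zy⁻¹ * zx⁻¹ * zt * zu⁻¹ * zy * zx * zy⁻¹ * zx⁻¹ * zt * zu * zt⁻¹ * zx * zy * zx⁻¹ * zy⁻¹ * zu⁻¹ * zy * zx * zy⁻¹ * zx⁻¹ * zt * zu * zt⁻¹ * zu⁻¹ * zy * zx * zy⁻¹ * zx⁻¹]

def d1 : Fin 4 → FF := ![zt * zu * zy * zx * zy⁻¹ * zx * zy * zx⁻¹ * zy⁻¹ * zu⁻¹ * zt⁻¹,
    zt * zu * zy * zx * zy⁻¹ * zx⁻¹ * zy * zx * zy * zx⁻¹ * zy⁻¹ * zu⁻¹ * zt⁻¹,
    zt * zu * zy * zx * zy⁻¹ * zx⁻¹ * zu⁻¹ * zt⁻¹ * zx * zy * zx⁻¹ * zy⁻¹ * zu * zt * zu * zx * zy * zx⁻¹ * zy⁻¹ * zu⁻¹ * zt⁻¹,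
    zt * zu * zy * zx * zy⁻¹ * zx⁻¹ * zu⁻¹ * zy * zx * zy⁻¹ * zx⁻¹ * zt * zu * zx * zy * zx⁻¹ * zy⁻¹ * zu⁻¹ * zt⁻¹]

def d2 : Fin 4 → FF := ![zt * zu * zt⁻¹ * zy * zx * zy⁻¹ * zx * zy * zx⁻¹ * zy⁻¹ * zt * zu⁻¹ * zt⁻¹,
    zt * zu * zt⁻¹ * zy * zx * zy⁻¹ * zx⁻¹ * zy * zx * zy * zx⁻¹ * zy⁻¹ * zt * zu⁻¹ * zt⁻¹,
    zt * zu * zt⁻¹ * zy * zx * zy⁻¹ * zx⁻¹ * zt * zu⁻¹ * zt⁻¹ * zx * zy * zx⁻¹ * zy⁻¹ * zu * zy * zx * zy⁻¹ * zx⁻¹ * zt * zu * zt⁻¹ * zx * zy * zx⁻¹ * zy⁻¹ * zt * zu⁻¹ * zt⁻¹,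
    zt * zu * zt⁻¹ * zy * zx * zy⁻¹ * zx⁻¹ * zt * zu⁻¹ * zy * zx * zy⁻¹ * zx⁻¹ * zt * zu * zt⁻¹ * zx * zy * zx⁻¹ * zy⁻¹ * zt * zu⁻¹ * zt⁻¹]

theorem c1_eq : ∀ i, FreeGroup.lift fX (fMi i) = c1 i := by
  apply forall4
  all_goals
    simp only [c1, fX, fMi, Matrix.cons_val_zero, Matrix.cons_val_one, Matrix.cons_val, map_mul, map_inv, x', y', v', y2, dd, cm, lz0, lz1, lz2, lz3]
    try group

theorem c2_eq : ∀ i, FreeGroup.lift fM (c1 i) = c2 i := by
  apply forall4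
  all_goals
    simp only [c2, fM, c1, Matrix.cons_val_zero, Matrix.cons_val_one, Matrix.cons_val, map_mul, map_inv, x', y', v', y2, dd, cm, lz0, lz1, lz2, lz3]
    try group

theorem c3_eq : ∀ i, FreeGroup.lift fXi (c2 i) = c3 i := by
  apply forall4
  all_goals
    simp only [c3, fXi, c2, Matrix.cons_val_zero, Matrix.cons_val_one, Matrix.cons_val, map_mul, map_inv, x', y', v', y2, dd, cm, lz0, lz1, lz2, lz3]
    try group

theorem c4_eq : ∀ i, FreeGroup.lift fV (c3 i) = c4 i := by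
  apply forall4
  all_goals
    simp only [c4, fV, c3, Matrix.cons_val_zero, Matrix.cons_val_one, Matrix.cons_val, map_mul, map_inv, x', y', v', y2, dd, cm, lz0, lz1, lz2, lz3]
    try group

theorem d1_eq : ∀ i, FreeGroup.lift fV (fS i) = d1 i := by
  apply forall4
  all_goals
    simp only [d1, fV, fS, Matrix.cons_val_zero, Matrix.cons_val_one, Matrix.cons_val, map_mul, map_inv, x', y', v', y2, dd, cm, lz0, lz1, lz2, lz3]
    try group

theorem d2_eq : ∀ i, FreeGroup.lift fSi (d1 i) = d2 i := by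
  apply forall4
  all_goals
    simp only [d2, fSi, d1, Matrix.cons_val_zero, Matrix.cons_val_one, Matrix.cons_val, map_mul, map_inv, x', y', v', y2, dd, cm, lz0, lz1, lz2, lz3]
    try group

theorem cd_eq : ∀ i, c4 i = dd * dd * d2 i * (dd * dd)⁻¹ := by
  apply forall4
  all_goals
    simp only [c4, d2, Matrix.cons_val_zero, Matrix.cons_val_one, Matrix.cons_val, map_mul, map_inv, x', y', v', y2, dd, cm, lz0, lz1, lz2, lz3]
    try group


theorem mk_of (f g : Fin 4 → FF) (h1 : ∀ i, FreeGroup.lift g (f i) = FreeGroup.of i)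
    (h2 : ∀ i, FreeGroup.lift f (g i) = FreeGroup.of i) (i : Fin 4) :
    mkAut f g h1 h2 (FreeGroup.of i) = f i := by
  rw [mkAut_apply, FreeGroup.lift_apply_of]

theorem mk_inv_of (f g : Fin 4 → FF) (h1 : ∀ i, FreeGroup.lift g (f i) = FreeGroup.of i)
    (h2 : ∀ i, FreeGroup.lift f (g i) = FreeGroup.of i) (i : Fin 4) :
    (mkAut f g h1 h2)⁻¹ (FreeGroup.of i) = g i := by
  rw [mkAut_inv_apply, FreeGroup.lift_apply_of]

theorem aV_apply (z : FF) : aV z = FreeGroup.lift fV z := rfl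
theorem aX_apply (z : FF) : aX z = FreeGroup.lift fX z := rfl
theorem aM_apply (z : FF) : aM z = FreeGroup.lift fM z := rfl
theorem aS_apply (z : FF) : aS z = FreeGroup.lift fS z := rfl
theorem aF_apply (z : FF) : aF z = FreeGroup.lift fF z := rfl
theorem aXi_apply (z : FF) : aX⁻¹ z = FreeGroup.lift fXi z := rfl
theorem aMi_apply (z : FF) : aM⁻¹ z = FreeGroup.lift fMi z := rfl
theorem aSi_apply (z : FF) : aS⁻¹ z = FreeGroup.lift fSi z := rfl

theorem aut_ext' {p q : MulAut FF} (h : ∀ i, p (FreeGroup.of i) = q (FreeGroup.of i)) : p = q := by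
  have : p.toMonoidHom = q.toMonoidHom := by
    apply FreeGroup.ext_hom
    exact h
  ext z
  exact DFunLike.congr_fun this z

theorem rel_W : aV * aX⁻¹ * aM * aX * aM⁻¹ = MulAut.conj (dd * dd) * (aS⁻¹ * aV * aS) := by
  have key : ∀ i, (aV * aX⁻¹ * aM * aX * aM⁻¹) (FreeGroup.of i)
      = (MulAut.conj (dd * dd) * (aS⁻¹ * aV * aS)) (FreeGroup.of i) := by
    intro i
    simp only [MulAut.mul_apply, MulAut.conj_apply]
    rw [aMi_apply, FreeGroup.lift_apply_of, aX_apply, c1_eq, aM_apply, c2_eq, aXi_apply, c3_eq,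
      aV_apply, c4_eq, aS_apply, FreeGroup.lift_apply_of, aV_apply, d1_eq, aSi_apply, d2_eq, cd_eq]
  exact aut_ext' key

end Lifts

section Double

open HNNExtension

abbrev Stab : Subgroup (MulAut FF) := MulAction.stabilizer (MulAut FF) dd

theorem mem_Stab (p : MulAut FF) : p ∈ Stab ↔ p dd = dd := Iff.rfl

def jj : FF →* SG 4 := FreeGroup.lift ![sA 0, sB 0, sA 1, sB 1]
def jk : FF →* SG 4 := FreeGroup.lift ![sB 3, sA 3, sB 2, sA 2]

theorem jj_x : jj zx = sA 0 := by simp [jj, zx]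
theorem jj_y : jj zy = sB 0 := by simp [jj, zy]
theorem jj_u : jj zu = sA 1 := by simp [jj, zu]
theorem jj_t : jj zt = sB 1 := by simp [jj, zt]
theorem jk_x : jk zx = sB 3 := by simp [jk, zx]
theorem jk_y : jk zy = sA 3 := by simp [jk, zy]
theorem jk_u : jk zu = sB 2 := by simp [jk, zu]
theorem jk_t : jk zt = sA 2 := by simp [jk, zt]

theorem cm_inv {Q : Type*} [Group Q] (x y : Q) : (cm x y)⁻¹ = cm y x := by
  unfold cm; group

theorem map_cm {Q R : Type*} [Group Q] [Group R] (f : Q →* R) (x y : Q) :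
    f (cm x y) = cm (f x) (f y) := by
  simp [cm]

theorem jj_jk : jj dd = jk dd := by
  have h := surf_rel
  simp only [dd, map_mul, map_cm, jj_x, jj_y, jj_u, jj_t, jk_x, jk_y, jk_u, jk_t]
  rw [← cm_inv (sA 3) (sB 3), ← cm_inv (sA 2) (sB 2)]
  have h2 : cm (sA 0) (sB 0) * cm (sA 1) (sB 1) = (cm (sA 0) (sB 0) * cm (sA 1) (sB 1) *
    cm (sA 2) (sB 2) * cm (sA 3) (sB 3)) * ((cm (sA 3) (sB 3))⁻¹ * (cm (sA 2) (sB 2))⁻¹) := by group
  rw [h2, h, one_mul]

section Glue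

variable {Q : Type*} [Group Q]

theorem glue_rel (α β : FF →* Q) (h : α dd = β dd) :
    cm (α zx) (α zy) * cm (α zu) (α zt) * cm (β zt) (β zu) * cm (β zy) (β zx) = 1 := by
  have h1 : cm (α zx) (α zy) * cm (α zu) (α zt) = cm (β zx) (β zy) * cm (β zu) (β zt) := by
    simpa only [dd, map_mul, map_cm] using h
  rw [h1, ← cm_inv (β zx) (β zy), ← cm_inv (β zu) (β zt)]
  group

def glue (α β : FF →* Q) (h : α dd = β dd) : SG 4 →* Q :=
  mkHom ![α zx, α zu, β zt, β zy] ![α zy, α zt, β zu, β zx] (glue_rel α β h)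

theorem FF_ext {α β : FF →* Q} (h0 : α zx = β zx) (h1 : α zy = β zy) (h2 : α zu = β zu)
    (h3 : α zt = β zt) : α = β := by
  apply FreeGroup.ext_hom
  exact forall4 h0 h1 h2 h3

theorem glA0 (α β : FF →* Q) (h : α dd = β dd) : glue α β h (sA 0) = α zx := mkHom_A _ _ _ 0
theorem glA1 (α β : FF →* Q) (h : α dd = β dd) : glue α β h (sA 1) = α zu := mkHom_A _ _ _ 1
theorem glA2 (α β : FF →* Q) (h : α dd = β dd) : glue α β h (sA 2) = β zt := mkHom_A _ _ _ 2
theorem glA3 (α β : FF →* Q) (h : α dd = β dd) : glue α β h (sA 3) = β zy := mkHom_A _ _ _ 3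
theorem glB0 (α β : FF →* Q) (h : α dd = β dd) : glue α β h (sB 0) = α zy := mkHom_B _ _ _ 0
theorem glB1 (α β : FF →* Q) (h : α dd = β dd) : glue α β h (sB 1) = α zt := mkHom_B _ _ _ 1
theorem glB2 (α β : FF →* Q) (h : α dd = β dd) : glue α β h (sB 2) = β zu := mkHom_B _ _ _ 2
theorem glB3 (α β : FF →* Q) (h : α dd = β dd) : glue α β h (sB 3) = β zx := mkHom_B _ _ _ 3

theorem glue_jj (α β : FF →* Q) (h : α dd = β dd) : (glue α β h).comp jj = α := by
  apply FF_ext <;> rw [MonoidHom.comp_apply]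
  · rw [jj_x, glA0]
  · rw [jj_y, glB0]
  · rw [jj_u, glA1]
  · rw [jj_t, glB1]

theorem glue_jk (α β : FF →* Q) (h : α dd = β dd) : (glue α β h).comp jk = β := by
  apply FF_ext <;> rw [MonoidHom.comp_apply]
  · rw [jk_x, glB3]
  · rw [jk_y, glA3]
  · rw [jk_u, glB2]
  · rw [jk_t, glA2]

theorem two_ext {p q : SG 4 →* Q} (h1 : p.comp jj = q.comp jj) (h2 : p.comp jk = q.comp jk) :
    p = q := by
  have a1 := fun z => DFunLike.congr_fun h1 z
  have a2 := fun z => DFunLike.congr_fun h2 z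
  simp only [MonoidHom.comp_apply] at a1 a2
  have b0 := a1 zx
  have b1 := a1 zy
  have b2 := a1 zu
  have b3 := a1 zt
  have b4 := a2 zx
  have b5 := a2 zy
  have b6 := a2 zu
  have b7 := a2 zt
  rw [jj_x] at b0
  rw [jj_y] at b1
  rw [jj_u] at b2
  rw [jj_t] at b3
  rw [jk_x] at b4
  rw [jk_y] at b5
  rw [jk_u] at b6
  rw [jk_t] at b7
  exact SG_ext (forall4 b0 b2 b7 b5) (forall4 b1 b3 b6 b4)

end Glue

def fold : SG 4 →* FF := glue (MonoidHom.id FF) (MonoidHom.id FF) rfl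

theorem fold_jj (z : FF) : fold (jj z) = z := DFunLike.congr_fun (glue_jj _ _ rfl) z

theorem DE_h (p : Stab) : (jj.comp (p : MulAut FF).toMonoidHom) dd =
    (jk.comp (p : MulAut FF).toMonoidHom) dd := by
  change jj ((p : MulAut FF) dd) = jk ((p : MulAut FF) dd)
  rw [(mem_Stab _).1 p.2]
  exact jj_jk

def DE (p : Stab) : SG 4 →* SG 4 :=
  glue (jj.comp (p : MulAut FF).toMonoidHom) (jk.comp (p : MulAut FF).toMonoidHom) (DE_h p)

theorem DE_jj (p : Stab) (z : FF) : DE p (jj z) = jj ((p : MulAut FF) z) :=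
  DFunLike.congr_fun (glue_jj _ _ (DE_h p)) z

theorem DE_jk (p : Stab) (z : FF) : DE p (jk z) = jk ((p : MulAut FF) z) :=
  DFunLike.congr_fun (glue_jk _ _ (DE_h p)) z

theorem DE_mul (p q : Stab) : DE (p * q) = (DE p).comp (DE q) := by
  apply two_ext
  · ext z
    simp [DE_jj]
  · ext z
    simp [DE_jk]

theorem DE_one : DE 1 = MonoidHom.id _ := by
  apply two_ext
  · ext z
    simp [DE_jj]
  · ext z
    simp [DE_jk]

def DD : Stab →* MulAut (SG 4) where
  toFun p := MonoidHom.toMulEquiv (DE p) (DE p⁻¹)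
    (by rw [← DE_mul, inv_mul_cancel, DE_one]) (by rw [← DE_mul, mul_inv_cancel, DE_one])
  map_one' := by
    ext z
    change DE 1 z = z
    rw [DE_one]; rfl
  map_mul' p q := by
    ext z
    change DE (p * q) z = DE p (DE q z)
    rw [DE_mul]; rfl

theorem DD_apply (p : Stab) (z : SG 4) : DD p z = DE p z := rfl

def Inn : Subgroup (MulAut (SG 4)) :=
  Subgroup.normalClosure (Set.range (fun x : SG 4 => MulAut.conj x))

instance : Inn.Normal := Subgroup.normalClosure_normal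

theorem mem_Inn {p : MulAut (SG 4)} (h : p ∈ Inn) : ∃ w, p = MulAut.conj w := by
  have hn : (MulAut.conj (G := SG 4)).range.Normal := by
    constructor
    rintro _ ⟨w, rfl⟩ g
    refine ⟨g w, ?_⟩
    ext z
    simp
  have : Inn ≤ (MulAut.conj (G := SG 4)).range := by
    unfold Inn
    apply Subgroup.normalClosure_le_normal
    rintro _ ⟨w, rfl⟩
    exact ⟨w, rfl⟩
  obtain ⟨w, hw⟩ := this h
  exact ⟨w, hw.symm⟩

theorem conj_mem_Inn (w : SG 4) : MulAut.conj w ∈ Inn :=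
  Subgroup.subset_normalClosure ⟨w, rfl⟩

abbrev OutS := MulAut (SG 4) ⧸ Inn

def qD : Stab →* OutS := (QuotientGroup.mk' Inn).comp DD

theorem conj_dd_mem (n : ℤ) : MulAut.conj (dd ^ n) ∈ Stab := by
  rw [mem_Stab, MulAut.conj_apply]
  group

theorem qD_conj (n : ℤ) : qD ⟨MulAut.conj (dd ^ n), conj_dd_mem n⟩ = 1 := by
  unfold qD
  rw [MonoidHom.comp_apply, QuotientGroup.mk'_apply, QuotientGroup.eq_one_iff]
  have : DD ⟨MulAut.conj (dd ^ n), conj_dd_mem n⟩ = MulAut.conj (jj dd ^ n) := by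
    have h : (DD ⟨MulAut.conj (dd ^ n), conj_dd_mem n⟩).toMonoidHom
        = (MulAut.conj (jj dd ^ n)).toMonoidHom := by
      apply two_ext
      · apply MonoidHom.ext
        intro z
        change DE _ (jj z) = jj dd ^ n * jj z * (jj dd ^ n)⁻¹
        rw [DE_jj, ← map_zpow, ← map_mul, ← map_inv, ← map_mul]
        rfl
      · apply MonoidHom.ext
        intro z
        change DE _ (jk z) = jj dd ^ n * jk z * (jj dd ^ n)⁻¹
        rw [jj_jk, DE_jk, ← map_zpow, ← map_mul, ← map_inv, ← map_mul]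
        rfl
    ext z
    exact DFunLike.congr_fun h z
  rw [this]
  exact conj_mem_Inn _

/-- if the double of `p` is inner then `p` is conjugation by an element centralising `dd` -/
theorem qD_eq_one {p : Stab} (h : qD p = 1) :
    ∃ w : FF, w * dd = dd * w ∧ ∀ z, (p : MulAut FF) z = w * z * w⁻¹ := by
  unfold qD at h
  rw [MonoidHom.comp_apply, QuotientGroup.mk'_apply, QuotientGroup.eq_one_iff] at h
  obtain ⟨w, hw⟩ := mem_Inn h
  have key : ∀ z, (p : MulAut FF) z = fold w * z * (fold w)⁻¹ := by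
    intro z
    have h1 : DD p (jj z) = w * jj z * w⁻¹ := by rw [hw]; rfl
    rw [DD_apply, DE_jj] at h1
    have h2 := congrArg fold h1
    rw [fold_jj, map_mul, map_mul, map_inv, fold_jj] at h2
    exact h2
  refine ⟨fold w, ?_, key⟩
  have h3 := key dd
  rw [(mem_Stab _).1 p.2] at h3
  rw [← mul_inv_eq_iff_eq_mul]
  exact h3.symm

end Double

section PhiDef

open HNNExtension

def bX : Stab := ⟨aX, aX_dd⟩
def bM : Stab := ⟨aM, aM_dd⟩
def bV : Stab := ⟨aV, aV_dd⟩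
def bS : Stab := ⟨aS, aS_dd⟩
def bF : Stab := ⟨aF, aF_dd⟩

theorem commFX : Commute bX bF := Subtype.ext comm_FX.symm
theorem commFM : Commute bM bF := Subtype.ext comm_FM.symm
theorem commFV : Commute bV bF := Subtype.ext comm_FV.symm

def LF : F3 →* Stab := FreeGroup.lift ![bX, bM, bV]

theorem LF_a : LF fa = bX := by simp [LF, fa]
theorem LF_b : LF fb = bM := by simp [LF, fb]
theorem LF_c : LF fc = bV := by simp [LF, fc]

theorem LF_comm (x : F3) : Commute (LF x) bF := by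
  induction x using FreeGroup.induction_on with
  | C1 => simp
  | of i =>
    fin_cases i
    · change Commute (LF fa) bF
      rw [LF_a]; exact commFX
    · change Commute (LF fb) bF
      rw [LF_b]; exact commFM
    · change Commute (LF fc) bF
      rw [LF_c]; exact commFV
  | inv_of i ih => rw [map_inv]; exact ih.inv_left
  | mul x y hx hy => rw [map_mul]; exact hx.mul_left hy

def LZ : Zm →* Stab := zpowersHom Stab bF

theorem LZ_apply (j : ℤ) : LZ (Multiplicative.ofAdd j) = bF ^ j := rfl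

def LB : GG →* Stab := MonoidHom.noncommCoprod LF LZ (by
  intro m n
  exact (LF_comm m).zpow_right (Multiplicative.toAdd n))

theorem LB_apply (x : F3) (j : ℤ) : LB (x, Multiplicative.ofAdd j) = LF x * bF ^ j := rfl

theorem LB_fst (x : F3) : LB (x, 1) = LF x := by
  have := LB_apply x 0
  rw [zpow_zero, mul_one] at this
  exact this

theorem relF : bS * bF * bS⁻¹ = bV⁻¹ * bF := by
  apply Subtype.ext
  change aS * aF * aS⁻¹ = aV⁻¹ * aF
  rw [rel_SF, mul_assoc, mul_inv_cancel, mul_one]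

theorem relW : bS * LF fw * bS⁻¹ = ⟨MulAut.conj (dd ^ (2 : ℤ)), conj_dd_mem 2⟩ * bV := by
  have h1 : LF fw = bV * bX⁻¹ * bM * bX * bM⁻¹ := by
    simp only [fw, map_mul, map_inv, LF_a, LF_b, LF_c]
  rw [h1]
  apply Subtype.ext
  change aS * (aV * aX⁻¹ * aM * aX * aM⁻¹) * aS⁻¹ = MulAut.conj (dd ^ (2 : ℤ)) * aV
  rw [rel_W]
  have h2 : aS * MulAut.conj (dd * dd) = MulAut.conj (dd * dd) * aS := by
    ext z
    simp only [MulAut.mul_apply, MulAut.conj_apply, map_mul, map_inv, aS_dd]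
  rw [← mul_assoc, h2, zpow_two]
  group

noncomputable def PhB : GG →* OutS := qD.comp LB

theorem Ph_rel (a : AA) : qD bS * PhB ↑a = PhB (ph a : GG) * qD bS := by
  obtain ⟨g, hg⟩ := a
  obtain ⟨i, j, rfl⟩ := of_memA hg
  rw [ph_apply]
  simp only [PhB, MonoidHom.comp_apply, LB_apply, map_mul, map_zpow]
  have hf : qD bS * qD bF * (qD bS)⁻¹ = (qD bV)⁻¹ * qD bF := by
    rw [← map_mul, ← map_inv, ← map_mul, relF, map_mul, map_inv]
  have hw : qD bS * qD (LF fw) * (qD bS)⁻¹ = qD bV := by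
    rw [← map_mul, ← map_inv, ← map_mul, relW, map_mul, qD_conj, one_mul]
  have hc : Commute (qD bV) (qD bF) := commFV.map qD
  have h1 : qD bS * (qD (LF fw) ^ i * qD bF ^ j) * (qD bS)⁻¹ = qD bV ^ (i - j) * qD bF ^ j := by
    have e : qD bS * (qD (LF fw) ^ i * qD bF ^ j) * (qD bS)⁻¹
        = (qD bS * (qD (LF fw) ^ i) * (qD bS)⁻¹) * (qD bS * qD bF ^ j * (qD bS)⁻¹) := by group
    rw [e, ← conj_zpow, ← conj_zpow, hw, hf, hc.inv_left.mul_zpow, zpow_sub, inv_zpow, mul_assoc]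
  rw [LF_c, ← h1]
  group

noncomputable def Ph : G0 →* OutS := HNNExtension.lift PhB (qD bS) Ph_rel

theorem Ph_of (g : GG) : Ph (of g) = qD (LB g) := by
  unfold Ph; rw [lift_of]; rfl

theorem Ph_t : Ph t = qD bS := by
  unfold Ph; rw [lift_t]

noncomputable def ep : FF →* G0 := FreeGroup.lift
  ![of ((fa, 1) : GG), of ((fa⁻¹ * fb * fa, 1) : GG), of ((fc⁻¹ * fw * fc, 1) : GG),
    of ((fc⁻¹, 1) : GG) * t * of ((fc, 1) : GG)]

noncomputable def oA : G0 := of ((fa, 1) : GG)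
noncomputable def oB : G0 := of ((fb, 1) : GG)
noncomputable def oC : G0 := of ((fc, 1) : GG)

theorem of_F3 (x y : F3) : (of ((x * y, 1) : GG) : G0) = of ((x, 1) : GG) * of ((y, 1) : GG) := by
  rw [← map_mul, Prod.mk_mul_mk, mul_one]

theorem of_F3i (x : F3) : (of ((x⁻¹, 1) : GG) : G0) = (of ((x, 1) : GG))⁻¹ := by
  rw [← map_inv, Prod.inv_mk, inv_one]

theorem of_W : (of ((fw, 1) : GG) : G0) = oC * oA⁻¹ * oB * oA * oB⁻¹ := by
  simp only [fw, of_F3, of_F3i]; rfl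

theorem ep_x : ep zx = oA := by simp [ep, zx, oA]
theorem ep_y : ep zy = oA⁻¹ * oB * oA := by
  have : ep zy = of ((fa⁻¹ * fb * fa, 1) : GG) := by simp [ep, zy]
  rw [this]; simp only [of_F3, of_F3i]; rfl
theorem ep_u : ep zu = oA⁻¹ * oB * oA * oB⁻¹ * oC := by
  have : ep zu = of ((fc⁻¹ * fw * fc, 1) : GG) := by simp [ep, zu]
  rw [this]; simp only [of_F3, of_F3i, of_W]
  change oC⁻¹ * (oC * oA⁻¹ * oB * oA * oB⁻¹) * oC = _
  group
theorem ep_t : ep zt = oC⁻¹ * t * oC := by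
  have : ep zt = of ((fc⁻¹, 1) : GG) * t * of ((fc, 1) : GG) := by simp [ep, zt]
  rw [this]; simp only [of_F3i]; rfl

theorem tW : (t : G0) * (oC * oA⁻¹ * oB * oA * oB⁻¹) = oC * t := by
  have h := t_rel 1 0
  rw [← of_W]
  simpa [oC] using h

theorem tF : (t : G0) * ef = oC⁻¹ * ef * t := by
  have h := t_rel 0 1
  have h1 : (of ((fw ^ (0 : ℤ), Multiplicative.ofAdd 1) : GG) : G0) = ef := by
    unfold ef; simp
  have h2 : (of ((fc ^ ((0 : ℤ) - 1), Multiplicative.ofAdd 1) : GG) : G0) = oC⁻¹ * ef := by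
    unfold ef oC
    rw [← map_inv, ← map_mul]
    simp
  rw [h1, h2] at h
  exact h

/-- relation used to simplify: `t * u * t⁻¹ = c` -/
theorem ep_tu : ep zt * ep zu * (ep zt)⁻¹ = oC := by
  rw [ep_t, ep_u]
  have : oC⁻¹ * t * oC * (oA⁻¹ * oB * oA * oB⁻¹ * oC) * (oC⁻¹ * t * oC)⁻¹
      = oC⁻¹ * (t * (oC * oA⁻¹ * oB * oA * oB⁻¹)) * t⁻¹ * oC := by group
  rw [this, tW]; group

theorem ep_xy : cm (ep zx) (ep zy) = oB * oA⁻¹ * oB⁻¹ * oA := by
  rw [ep_x, ep_y]; unfold cm; group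

theorem ep_ut : cm (ep zu) (ep zt) = oA⁻¹ * oB * oA * oB⁻¹ := by
  have : cm (ep zu) (ep zt) = ep zu * (ep zt * ep zu * (ep zt)⁻¹)⁻¹ := by unfold cm; group
  rw [this, ep_tu, ep_u]; group

theorem ep_dd : ep dd = 1 := by
  simp only [dd, map_mul, map_cm, ep_xy, ep_ut]; group

end PhiDef

section Compat

open HNNExtension

/-- pairs (automorphism, group element) that are compatible under `ep` -/
def CS : Subgroup (Stab × G0) where
  carrier := {x | ∀ z, ep ((x.1 : MulAut FF) z) = x.2 * ep z * x.2⁻¹}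
  one_mem' := by intro z; simp
  mul_mem' := by
    intro x y hx hy z
    change ep ((x.1 : MulAut FF) ((y.1 : MulAut FF) z)) = x.2 * y.2 * ep z * (x.2 * y.2)⁻¹
    rw [hx, hy]; group
  inv_mem' := by
    intro x hx z
    change ep ((x.1 : MulAut FF)⁻¹ z) = x.2⁻¹ * ep z * x.2⁻¹⁻¹
    have h := hx ((x.1 : MulAut FF)⁻¹ z)
    have h2 : (x.1 : MulAut FF) ((x.1 : MulAut FF)⁻¹ z) = z := by
      rw [← MulAut.mul_apply, mul_inv_cancel]; rfl
    rw [h2] at h
    rw [h]; group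

theorem mem_CS {x : Stab × G0} : x ∈ CS ↔ ∀ z, ep ((x.1 : MulAut FF) z) = x.2 * ep z * x.2⁻¹ :=
  Iff.rfl

theorem mem_CS_of {p : Stab} {g : G0} (h0 : ep ((p : MulAut FF) zx) = g * ep zx * g⁻¹)
    (h1 : ep ((p : MulAut FF) zy) = g * ep zy * g⁻¹)
    (h2 : ep ((p : MulAut FF) zu) = g * ep zu * g⁻¹)
    (h3 : ep ((p : MulAut FF) zt) = g * ep zt * g⁻¹) : (p, g) ∈ CS := by
  have : ep.comp (p : MulAut FF).toMonoidHom = (MulAut.conj g).toMonoidHom.comp ep := by
    apply FF_ext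
    exacts [h0, h1, h2, h3]
  intro z
  exact DFunLike.congr_fun this z

theorem aX_x : aX zx = zx := by rw [aX_apply, lz0]; rfl
theorem aX_y : aX zy = x' * zy * zx⁻¹ := by rw [aX_apply, lz1]; rfl
theorem aX_u : aX zu = x' * zu * x'⁻¹ := by rw [aX_apply, lz2]; rfl
theorem aX_t : aX zt = x' * zt * x'⁻¹ := by rw [aX_apply, lz3]; rfl
theorem aM_x : aM zx = zx * zy * y'⁻¹ := by rw [aM_apply, lz0]; rfl
theorem aM_y : aM zy = y' * zy * y'⁻¹ := by rw [aM_apply, lz1]; rfl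
theorem aM_u : aM zu = y' * zu * y'⁻¹ := by rw [aM_apply, lz2]; rfl
theorem aM_t : aM zt = y' * zt * y'⁻¹ := by rw [aM_apply, lz3]; rfl
theorem aV_x : aV zx = v' * zx * v'⁻¹ := by rw [aV_apply, lz0]; rfl
theorem aV_y : aV zy = v' * zy * v'⁻¹ := by rw [aV_apply, lz1]; rfl
theorem aV_u : aV zu = v' * zu * v'⁻¹ := by rw [aV_apply, lz2]; rfl
theorem aV_t : aV zt = zt * zu * v'⁻¹ := by rw [aV_apply, lz3]; rfl
theorem aS_x : aS zx = y2 * zx * y2⁻¹ := by rw [aS_apply, lz0]; rfl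
theorem aS_y : aS zy = y2 * zy * y2⁻¹ := by rw [aS_apply, lz1]; rfl
theorem aS_u : aS zu = y2 * (zt⁻¹ * cm zx zy * zu * zt) * y2⁻¹ := by rw [aS_apply, lz2]; rfl
theorem aS_t : aS zt = y2 * zt * y2⁻¹ := by rw [aS_apply, lz3]; rfl
theorem aF_x : aF zx = zx := by rw [aF_apply, lz0]; rfl
theorem aF_y : aF zy = zy := by rw [aF_apply, lz1]; rfl
theorem aF_u : aF zu = zu := by rw [aF_apply, lz2]; rfl
theorem aF_t : aF zt = zt * zu := by rw [aF_apply, lz3]; rfl

theorem ep_x' : ep x' = oA := by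
  rw [x', map_mul, map_inv, ep_dd, ep_x]; group
theorem ep_y' : ep y' = oB := by
  rw [y', map_mul, map_inv, map_cm, ep_ut, ep_y]; group
theorem ep_v' : ep v' = oC := by
  rw [v', map_mul, map_cm, ep_xy, ep_u]; group
theorem ep_y2 : ep y2 = t := by
  rw [y2, map_mul, map_inv, map_cm, ep_xy, ep_t]
  have : oC⁻¹ * t * oC * (oB * oA⁻¹ * oB⁻¹ * oA)⁻¹ = oC⁻¹ * (t * (oC * oA⁻¹ * oB * oA * oB⁻¹)) := by
    group
  rw [this, tW]; group

theorem cs_X : (bX, oA) ∈ CS := by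
  apply mem_CS_of
  · change ep (aX zx) = _
    rw [aX_x, ep_x]; group
  · change ep (aX zy) = _
    rw [aX_y, map_mul, map_mul, map_inv, ep_x', ep_x]
  · change ep (aX zu) = _
    rw [aX_u, map_mul, map_mul, map_inv, ep_x']
  · change ep (aX zt) = _
    rw [aX_t, map_mul, map_mul, map_inv, ep_x']

theorem cs_M : (bM, oB) ∈ CS := by
  apply mem_CS_of
  · change ep (aM zx) = _
    rw [aM_x, map_mul, map_mul, map_inv, ep_y', ep_x, ep_y]; group
  · change ep (aM zy) = _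
    rw [aM_y, map_mul, map_mul, map_inv, ep_y']
  · change ep (aM zu) = _
    rw [aM_u, map_mul, map_mul, map_inv, ep_y']
  · change ep (aM zt) = _
    rw [aM_t, map_mul, map_mul, map_inv, ep_y']

theorem cs_V : (bV, oC) ∈ CS := by
  apply mem_CS_of
  · change ep (aV zx) = _
    rw [aV_x, map_mul, map_mul, map_inv, ep_v']
  · change ep (aV zy) = _
    rw [aV_y, map_mul, map_mul, map_inv, ep_v']
  · change ep (aV zu) = _
    rw [aV_u, map_mul, map_mul, map_inv, ep_v']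
  · change ep (aV zt) = _
    rw [aV_t, map_mul, map_mul, map_inv, ep_v']
    have h : ep zt * ep zu = oC * ep zt := by rw [← ep_tu]; group
    rw [h]

theorem cs_S : (bS, (t : G0)) ∈ CS := by
  apply mem_CS_of
  · change ep (aS zx) = _
    rw [aS_x, map_mul, map_mul, map_inv, ep_y2]
  · change ep (aS zy) = _
    rw [aS_y, map_mul, map_mul, map_inv, ep_y2]
  · change ep (aS zu) = _
    have h : ep (zt⁻¹ * cm zx zy * zu * zt) = ep zu := by
      have h1 : ep (cm zx zy * zu) = oC := ep_v'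
      have h2 : zt⁻¹ * cm zx zy * zu * zt = zt⁻¹ * (cm zx zy * zu) * zt := by group
      rw [h2, map_mul, map_mul, map_inv, h1, ← ep_tu]; group
    rw [aS_u, map_mul, map_mul, map_inv, ep_y2, h]
  · change ep (aS zt) = _
    rw [aS_t, map_mul, map_mul, map_inv, ep_y2]

theorem ef_A : ef * oA = oA * ef := ef_comm fa
theorem ef_B : ef * oB = oB * ef := ef_comm fb
theorem ef_C : ef * oC = oC * ef := ef_comm fc

theorem conj_of_comm {Q : Type*} [Group Q] {x y : Q} (h : x * y = y * x) : y = x * y * x⁻¹ := by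
  rw [h]; group

theorem cs_F : (bF, ef) ∈ CS := by
  have hA : Commute ef oA := ef_A
  have hB : Commute ef oB := ef_B
  have hC : Commute ef oC := ef_C
  apply mem_CS_of
  · change ep (aF zx) = _
    rw [aF_x]
    apply conj_of_comm
    rw [ep_x]; exact hA
  · change ep (aF zy) = _
    rw [aF_y]
    apply conj_of_comm
    rw [ep_y]
    exact (hA.inv_right.mul_right hB).mul_right hA
  · change ep (aF zu) = _
    rw [aF_u]
    apply conj_of_comm
    rw [ep_u]
    exact (((hA.inv_right.mul_right hB).mul_right hA).mul_right hB.inv_right).mul_right hC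
  · change ep (aF zt) = _
    rw [aF_t, map_mul]
    have h1 : ep zt * ep zu = oC * ep zt := by rw [← ep_tu]; group
    have h2 : ef * t = oC * t * ef := by
      have h := tF
      have h' : oC * (t * ef) = oC * (oC⁻¹ * ef * t) := by rw [h]
      rw [← mul_assoc] at h'
      rw [h']; group
    rw [h1, ep_t]
    have h3 : ef * (oC⁻¹ * t * oC) * ef⁻¹ = oC⁻¹ * (ef * t) * oC * ef⁻¹ := by
      have : ef * oC⁻¹ = oC⁻¹ * ef := hC.inv_right
      rw [← mul_assoc, ← mul_assoc, this]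
      group
    rw [h3, h2]
    have h4 : oC⁻¹ * (oC * t * ef) * oC * ef⁻¹ = t * (ef * oC) * ef⁻¹ := by group
    rw [h4, ef_C]; group

theorem LG_mem (g : GG) : (LB g, (of g : G0)) ∈ CS := by
  have hF : ∀ x : F3, (LB (x, 1), (of ((x, 1) : GG) : G0)) ∈ CS := by
    intro x
    induction x using FreeGroup.induction_on with
    | C1 =>
      have : ((1 : F3), (1 : Zm)) = (1 : GG) := rfl
      rw [this, map_one, map_one]; exact CS.one_mem
    | of i =>
      rw [LB_fst]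
      fin_cases i
      · change (LF fa, oA) ∈ CS
        rw [LF_a]; exact cs_X
      · change (LF fb, oB) ∈ CS
        rw [LF_b]; exact cs_M
      · change (LF fc, oC) ∈ CS
        rw [LF_c]; exact cs_V
    | inv_of i ih =>
      have h := CS.inv_mem ih
      have : (((FreeGroup.of i)⁻¹ : F3), (1 : Zm)) = ((FreeGroup.of i, 1) : GG)⁻¹ := by simp
      rw [this, map_inv, map_inv]
      exact h
    | mul x y hx hy =>
      have h := CS.mul_mem hx hy
      have : ((x * y : F3), (1 : Zm)) = ((x, 1) : GG) * ((y, 1) : GG) := by simp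
      rw [this, map_mul, map_mul]
      exact h
  obtain ⟨x, n⟩ := g
  have h1 : ((x, n) : GG) = ((x, 1) : GG) * ((1, Multiplicative.ofAdd 1) : GG) ^ (Multiplicative.toAdd n) := by
    apply Prod.ext
    · simp [fstz]
    · have : (((1, Multiplicative.ofAdd 1) : GG) ^ (Multiplicative.toAdd n)).2
        = (Multiplicative.ofAdd (1 : ℤ)) ^ (Multiplicative.toAdd n) :=
        map_zpow (MonoidHom.snd F3 Zm) _ _
      rw [Prod.snd_mul, this, ← ofAdd_zsmul]
      simp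
  have h2 : (LB ((1, Multiplicative.ofAdd 1) : GG), (of ((1, Multiplicative.ofAdd 1) : GG) : G0)) ∈ CS := by
    have h3 : LB ((1, Multiplicative.ofAdd 1) : GG) = bF := by
      rw [LB_apply, map_one, one_mul, zpow_one]
    rw [h3]; exact cs_F
  have h3 := CS.mul_mem (hF x) (CS.zpow_mem h2 (Multiplicative.toAdd n))
  rw [h1, map_mul, map_mul, map_zpow, map_zpow]
  exact h3

theorem good (g : G0) : ∃ p : Stab, qD p = Ph g ∧ (p, g) ∈ CS := by
  induction g using HNNExtension.induction_on with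
  | of g => exact ⟨LB g, (Ph_of g).symm, LG_mem g⟩
  | t => exact ⟨bS, Ph_t.symm, cs_S⟩
  | mul x y hx hy =>
    obtain ⟨p, hp, hp'⟩ := hx
    obtain ⟨q, hq, hq'⟩ := hy
    exact ⟨p * q, by rw [map_mul, map_mul, hp, hq], CS.mul_mem hp' hq'⟩
  | inv x hx =>
    obtain ⟨p, hp, hp'⟩ := hx
    exact ⟨p⁻¹, by rw [map_inv, map_inv, hp], CS.inv_mem hp'⟩

end Compat

section FreeCentral

/-- a commutative free group is generated by one element -/
theorem cyclic_of_comm {X : Type*} (h : ∀ x y : FreeGroup X, x * y = y * x) :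
    ∃ v : FreeGroup X, ∀ z, ∃ n : ℤ, z = v ^ n := by
  classical
  have hs : ∀ a b : X, a = b := by
    intro a b
    by_contra hab
    let f : FreeGroup X →* Equiv.Perm (Fin 3) :=
      FreeGroup.lift (fun z => if z = a then Equiv.swap 0 1 else Equiv.swap 1 2)
    have h1 := congrArg f (h (FreeGroup.of a) (FreeGroup.of b))
    have hba : b ≠ a := fun h => hab h.symm
    simp only [map_mul, f, FreeGroup.lift_apply_of, if_true, if_neg hba] at h1
    revert h1
    decide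
  by_cases hX : Nonempty X
  · obtain ⟨a⟩ := hX
    refine ⟨FreeGroup.of a, fun z => ?_⟩
    induction z using FreeGroup.induction_on with
    | C1 => exact ⟨0, by simp⟩
    | of i => exact ⟨1, by rw [hs i a, zpow_one]⟩
    | inv_of i ih => exact ⟨-1, by rw [hs i a, zpow_neg, zpow_one]⟩
    | mul x y hx hy =>
      obtain ⟨n, rfl⟩ := hx
      obtain ⟨m, rfl⟩ := hy
      exact ⟨n + m, by rw [zpow_add]⟩
  · refine ⟨1, fun z => ⟨0, ?_⟩⟩
    have : IsEmpty X := not_nonempty_iff.mp hX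
    exact Subsingleton.elim _ _

theorem common_power {u v : FF} (h : u * v = v * u) : ∃ (r : FF) (m n : ℤ), u = r ^ m ∧ v = r ^ n := by
  let S : Subgroup FF := Subgroup.closure {u, v}
  have hc : ∀ x y : S, x * y = y * x := by
    have : IsMulCommutative S := by
      apply Subgroup.isMulCommutative_closure
      rintro x (rfl | rfl) y (rfl | rfl)
      · rfl
      · exact h
      · exact h.symm
      · rfl
    intro x y
    exact mul_comm' x y
  obtain ⟨r, hr⟩ := cyclic_of_comm (X := IsFreeGroup.Generators S) (by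
    intro x y
    have := hc (IsFreeGroup.mulEquiv S x) (IsFreeGroup.mulEquiv S y)
    rw [← map_mul, ← map_mul] at this
    exact (IsFreeGroup.mulEquiv S).injective this)
  have hu : u ∈ S := Subgroup.subset_closure (by simp)
  have hv : v ∈ S := Subgroup.subset_closure (by simp)
  obtain ⟨m, hm⟩ := hr ((IsFreeGroup.mulEquiv S).symm ⟨u, hu⟩)
  obtain ⟨n, hn⟩ := hr ((IsFreeGroup.mulEquiv S).symm ⟨v, hv⟩)
  refine ⟨(IsFreeGroup.mulEquiv S r : S), m, n, ?_, ?_⟩
  · have := congrArg (IsFreeGroup.mulEquiv S) hm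
    rw [MulEquiv.apply_symm_apply, map_zpow] at this
    have := congrArg Subtype.val this
    simpa using this
  · have := congrArg (IsFreeGroup.mulEquiv S) hn
    rw [MulEquiv.apply_symm_apply, map_zpow] at this
    have := congrArg Subtype.val this
    simpa using this

def ex : FF →* Zm := FreeGroup.lift ![Multiplicative.ofAdd 1, 1, 1, 1]
def ey : FF →* Zm := FreeGroup.lift ![1, Multiplicative.ofAdd 1, 1, 1]

def hX : Equiv.Perm (ℤ × ℤ × ℤ) where
  toFun p := (p.1 + 1, p.2.1, p.2.2)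
  invFun p := (p.1 - 1, p.2.1, p.2.2)
  left_inv p := by simp
  right_inv p := by simp

def hY : Equiv.Perm (ℤ × ℤ × ℤ) where
  toFun p := (p.1, p.2.1 + 1, p.2.2 + p.1)
  invFun p := (p.1, p.2.1 - 1, p.2.2 - p.1)
  left_inv p := by simp
  right_inv p := by simp

def hei : FF →* Equiv.Perm (ℤ × ℤ × ℤ) := FreeGroup.lift ![hX, hY, 1, 1]

theorem hei_form (z : FF) : ∃ c : ℤ, ∀ p : ℤ × ℤ × ℤ, hei z p =
    (p.1 + Multiplicative.toAdd (ex z), p.2.1 + Multiplicative.toAdd (ey z),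
      p.2.2 + Multiplicative.toAdd (ey z) * p.1 + c) := by
  induction z using FreeGroup.induction_on with
  | C1 => exact ⟨0, fun p => by simp⟩
  | of i =>
    refine ⟨0, fun p => ?_⟩
    fin_cases i <;> simp [hei, ex, ey, hX, hY]
  | inv_of i ih =>
    fin_cases i
    · refine ⟨0, fun p => ?_⟩
      rw [map_inv, Equiv.Perm.inv_eq_iff_eq]
      simp [hei, ex, ey, hX, hY]
    · refine ⟨0, fun p => ?_⟩
      rw [map_inv, Equiv.Perm.inv_eq_iff_eq]
      simp [hei, ex, ey, hX, hY]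
    · refine ⟨0, fun p => ?_⟩
      simp [hei, ex, ey, hX, hY]
    · refine ⟨0, fun p => ?_⟩
      simp [hei, ex, ey, hX, hY]
  | mul x y hx hy =>
    obtain ⟨c, hc⟩ := hx
    obtain ⟨d, hd⟩ := hy
    refine ⟨c + d + Multiplicative.toAdd (ey x) * Multiplicative.toAdd (ex y), fun p => ?_⟩
    have e1 : ex (x * y) = ex x * ex y := map_mul _ _ _
    have e2 : ey (x * y) = ey x * ey y := map_mul _ _ _
    rw [map_mul, Equiv.Perm.mul_apply, hd, hc, e1, e2]
    simp only [toAdd_mul, Prod.mk.injEq]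
    refine ⟨by ring, by ring, by ring⟩

theorem hei_pow {z : FF} {c : ℤ} (h : ∀ p : ℤ × ℤ × ℤ, hei z p = (p.1, p.2.1, p.2.2 + c)) (n : ℤ) :
    ∀ p : ℤ × ℤ × ℤ, hei (z ^ n) p = (p.1, p.2.1, p.2.2 + n * c) := by
  induction n using Int.induction_on with
  | zero => intro p; simp
  | succ n ih =>
    intro p
    rw [zpow_add, zpow_one, map_mul, Equiv.Perm.mul_apply, h, ih]
    simp only [Prod.mk.injEq, true_and]; ring
  | pred n ih =>
    intro p
    rw [zpow_sub, zpow_one, map_mul, map_inv, Equiv.Perm.mul_apply]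
    have : (hei z)⁻¹ p = (p.1, p.2.1, p.2.2 - c) := by
      rw [Equiv.Perm.inv_eq_iff_eq, h]; simp
    rw [this, ih]
    simp only [Prod.mk.injEq, true_and]; ring

theorem hei_dd (p : ℤ × ℤ × ℤ) : hei dd p = (p.1, p.2.1, p.2.2 + (-1)) := by
  have h1 : hei zx = hX := by simp [hei, zx]
  have h2 : hei zy = hY := by simp [hei, zy]
  have h3 : hei zu = 1 := by simp [hei, zu]
  have h4 : hei zt = 1 := by simp [hei, zt]
  have h5 : hei dd = hX * hY * hX⁻¹ * hY⁻¹ := by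
    simp [dd, cm, h1, h2, h3, h4]
  rw [h5]
  have h6 : hX⁻¹ = hX.symm := rfl
  have h7 : hY⁻¹ = hY.symm := rfl
  rw [h6, h7]
  simp only [Equiv.Perm.mul_apply]
  simp [hX, hY]
  ring

theorem cent_dd {u : FF} (h : u * dd = dd * u) : ∃ n : ℤ, u = dd ^ n := by
  obtain ⟨r, m, n, hu, hd⟩ := common_power h
  obtain ⟨c, hc⟩ := hei_form r
  have h1 : (Multiplicative.toAdd (ex r)) * n = 0 := by
    have h2 := congrArg (fun z => Multiplicative.toAdd (ex z)) hd
    simp only [map_zpow, toAdd_zpow] at h2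
    have h3 : ex dd = 1 := by simp [dd, cm]
    rw [h3] at h2
    simp at h2
    rcases h2 with h2 | h2
    · rw [h2]; ring
    · rw [h2]; simp
  have h1' : (Multiplicative.toAdd (ey r)) * n = 0 := by
    have h2 := congrArg (fun z => Multiplicative.toAdd (ey z)) hd
    simp only [map_zpow, toAdd_zpow] at h2
    have h3 : ey dd = 1 := by simp [dd, cm]
    rw [h3] at h2
    simp at h2
    rcases h2 with h2 | h2
    · rw [h2]; ring
    · rw [h2]; simp
  have hn : n ≠ 0 := by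
    rintro rfl
    rw [zpow_zero] at hd
    have := hei_dd (0, 0, 0)
    rw [hd] at this
    simp at this
  have e1 : Multiplicative.toAdd (ex r) = 0 := by
    rcases mul_eq_zero.mp h1 with h | h
    · exact h
    · exact absurd h hn
  have e2 : Multiplicative.toAdd (ey r) = 0 := by
    rcases mul_eq_zero.mp h1' with h | h
    · exact h
    · exact absurd h hn
  have hc' : ∀ p : ℤ × ℤ × ℤ, hei r p = (p.1, p.2.1, p.2.2 + c) := by
    intro p
    rw [hc, e1, e2]; simp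
  have h4 := hei_pow hc' n (0, 0, 0)
  rw [← hd, hei_dd] at h4
  simp at h4
  -- h4 : -1 = n * c
  have h5 : n = 1 ∨ n = -1 := by
    have : n ∣ 1 := ⟨-c, by rw [mul_neg, ← h4]; norm_num⟩
    exact Int.isUnit_iff.mp (isUnit_of_dvd_one this)
  rcases h5 with rfl | rfl
  · rw [zpow_one] at hd
    exact ⟨m, by rw [hd, hu]⟩
  · refine ⟨-m, ?_⟩
    rw [hd, hu, ← zpow_mul]; congr 1; ring

end FreeCentral

section HNNCentral

open HNNExtension

theorem right_mul {G : Type*} [Group G] {A B : Subgroup G} (φ : A ≃* B) (b : G) (l : List (ℤˣ × G))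
    (hl : l.IsChain (fun a b => a.2 ∈ toSubgroup A B a.1 → a.1 = b.1)) (hne : l ≠ []) :
    ∃ l' : List (ℤˣ × G), l'.IsChain (fun a b => a.2 ∈ toSubgroup A B a.1 → a.1 = b.1) ∧
      l'.map Prod.fst = l.map Prod.fst ∧
      (l'.map (fun y => (t ^ (y.1 : ℤ) * of y.2 : HNNExtension G A B φ))).prod =
      (l.map (fun y => (t ^ (y.1 : ℤ) * of y.2 : HNNExtension G A B φ))).prod * of b := by
  induction l with
  | nil => exact absurd rfl hne
  | cons a l ih =>
    cases l with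
    | nil =>
      refine ⟨[(a.1, a.2 * b)], by simp, by simp, ?_⟩
      simp [mul_assoc]
    | cons c l =>
      rw [List.isChain_cons_cons] at hl
      obtain ⟨l', h1, h2, h3⟩ := ih hl.2 (by simp)
      cases l' with
      | nil => simp at h2
      | cons c' l' =>
        refine ⟨a :: c' :: l', ?_, ?_, ?_⟩
        · rw [List.isChain_cons_cons]
          refine ⟨?_, h1⟩
          intro h
          have := hl.1 h
          simp only [List.map_cons, List.cons.injEq] at h2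
          rw [h2.1]; exact this
        · simp only [List.map_cons] at h2 ⊢
          rw [h2]
        · rw [List.map_cons, List.prod_cons, h3]
          conv_rhs => rw [List.map_cons, List.prod_cons]
          simp only [mul_assoc]

theorem exists_reduced {G : Type*} [Group G] {A B : Subgroup G} (φ : A ≃* B)
    (g : HNNExtension G A B φ) : ∃ w : NormalWord.ReducedWord G A B, w.prod φ = g := by
  obtain ⟨d⟩ := NormalWord.TransversalPair.nonempty G A B
  refine ⟨((NormalWord.equiv φ d) g).toReducedWord, ?_⟩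
  exact (NormalWord.equiv φ d).left_inv g

theorem cent_base {g : G0} (h : g * oA = oA * g) : ∃ b : GG, g = of b := by
  obtain ⟨w, hw⟩ := exists_reduced ph g
  by_cases hne : w.toList = []
  · refine ⟨w.head, ?_⟩
    rw [← hw]
    simp [NormalWord.ReducedWord.prod, hne]
  · exfalso
    obtain ⟨l', h1, h2, h3⟩ := right_mul ph ((fa, 1) : GG) w.toList w.chain hne
    let w1 : NormalWord.ReducedWord GG AA BB := ⟨w.head, l', h1⟩
    let w2 : NormalWord.ReducedWord GG AA BB := ⟨((fa, 1) : GG) * w.head, w.toList, w.chain⟩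
    have e1 : w1.prod ph = g * oA := by
      rw [← hw]
      simp only [NormalWord.ReducedWord.prod, w1, h3, oA, mul_assoc]
    have e2 : w2.prod ph = oA * g := by
      rw [← hw]
      simp only [NormalWord.ReducedWord.prod, w2, oA, mul_assoc, map_mul]
    have key := (ReducedWord.map_fst_eq_and_of_prod_eq ph (w₁ := w1) (w₂ := w2)
      (by rw [e1, e2, h])).2
    have hne' : l' ≠ [] := by
      rintro rfl
      simp at h2
      exact hne h2
    cases l' with
    | nil => exact hne' rfl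
    | cons c l' =>
      have k := key c.1 (by simp [w1])
      have k2 : w.head⁻¹ * (((fa, 1) : GG) * w.head) ∈ toSubgroup AA BB (-c.1) := k
      have k3 : aexp (w.head⁻¹ * (((fa, 1) : GG) * w.head)).1 = Multiplicative.ofAdd 1 := by
        simp only [Prod.fst_mul, Prod.fst_inv, map_mul, map_inv, aexp_a]
        rw [mul_comm, mul_assoc, mul_inv_cancel, mul_one]
      have k4 : ∀ z : GG, z ∈ toSubgroup AA BB (-c.1) → aexp z.1 = 1 := by
        intro z hz
        rcases Int.units_eq_one_or (-c.1) with hc | hc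
        · rw [hc, toSubgroup_one] at hz
          obtain ⟨i, j, rfl⟩ := of_memA hz
          simp [aexp_w]
        · rw [hc, toSubgroup_neg_one] at hz
          obtain ⟨i, j, rfl⟩ := of_memB hz
          simp [aexp_c]
      rw [k4 _ k2] at k3
      exact absurd k3 (by decide)

theorem cent_t {b : GG} (h : (of b : G0) * t = t * of b) : b ∈ AA := by
  by_contra hb
  let w : NormalWord.ReducedWord GG AA BB := ⟨1, [(1, b), (-1, 1)], by
    rw [List.isChain_cons_cons]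
    exact ⟨fun h => absurd h hb, by simp⟩⟩
  have e : w.prod ph = of b := by
    simp only [NormalWord.ReducedWord.prod, w]
    simp only [map_one, List.map_cons, List.map_nil, List.prod_cons, List.prod_nil, Units.val_one,
      zpow_one, Units.val_neg, zpow_neg, one_mul, mul_one]
    rw [← h]; group
  have := ReducedWord.toList_eq_nil_of_mem_of_range ph w (by rw [e]; exact ⟨b, rfl⟩)
  simp [w] at this

def pz : F3 →* Equiv.Perm ℤ := FreeGroup.lift ![Equiv.swap 0 1, 1, Equiv.addRight 1]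

theorem add_pow (n : ℤ) (x : ℤ) : ((Equiv.addRight (1 : ℤ)) ^ n : Equiv.Perm ℤ) x = x + n := by
  induction n using Int.induction_on generalizing x with
  | zero => simp
  | succ n ih =>
    rw [zpow_add, zpow_one, Equiv.Perm.mul_apply, ih, Equiv.coe_addRight]
    ring
  | pred n ih =>
    rw [zpow_sub, zpow_one, Equiv.Perm.mul_apply]
    have : (Equiv.addRight (1 : ℤ) : Equiv.Perm ℤ)⁻¹ x = x - 1 := by
      rw [Equiv.Perm.inv_eq_iff_eq, Equiv.coe_addRight]; ring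
    rw [this, ih]
    ring

theorem cent_G0 {g : G0} (hA : g * oA = oA * g) (hC : g * oC = oC * g) (ht : g * t = t * g) :
    g = 1 := by
  obtain ⟨b, rfl⟩ := cent_base hA
  obtain ⟨i, j, rfl⟩ := of_memA (cent_t ht)
  have h1 := t_rel i j
  rw [← ht] at h1
  have h2 := mul_right_cancel h1
  have h3 := of_injective ph h2
  rw [Prod.mk.injEq] at h3
  have h4 : i = i - j := by
    have := congrArg (fun z => Multiplicative.toAdd (cexp z)) h3.1
    simpa [cexp_c, cexp_w] using this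
  have hj : j = 0 := by omega
  subst hj
  rw [sub_zero] at h3
  rw [h3.1] at hA
  have h5 : (of ((fc ^ i, Multiplicative.ofAdd 0) : GG) : G0) * oA =
    of (((fc ^ i, Multiplicative.ofAdd 0) : GG) * ((fa, 1) : GG)) := by rw [map_mul]; rfl
  have h6 : oA * (of ((fc ^ i, Multiplicative.ofAdd 0) : GG) : G0) =
    of (((fa, 1) : GG) * ((fc ^ i, Multiplicative.ofAdd 0) : GG)) := by rw [map_mul]; rfl
  rw [h5, h6] at hA
  have h7 := congrArg Prod.fst (of_injective ph hA)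
  simp only [Prod.mk_mul_mk] at h7
  have hi : i = 0 := by
    by_contra hi
    have h8 := congrArg pz h7
    have e1 : pz fc = Equiv.addRight 1 := by simp [pz, fc]
    have e2 : pz fa = Equiv.swap 0 1 := by simp [pz, fa]
    rw [map_mul, map_mul, map_zpow, e1, e2] at h8
    have h9 := congrArg (fun (p : Equiv.Perm ℤ) => p 0) h8
    simp only [Equiv.Perm.mul_apply, add_pow, Equiv.swap_apply_left, zero_add] at h9
    rw [Equiv.swap_apply_def] at h9
    split_ifs at h9 <;> omega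
  subst hi
  exact map_one _

end HNNCentral

section Final

open HNNExtension

theorem Ph_inj : Function.Injective Ph := by
  rw [injective_iff_map_eq_one]
  intro g hg
  obtain ⟨p, hp, hpg⟩ := good g
  rw [hg] at hp
  obtain ⟨w, hw, hconj⟩ := qD_eq_one hp
  obtain ⟨n, rfl⟩ := cent_dd hw
  have key : ∀ z, g * ep z = ep z * g := by
    intro z
    have h := (mem_CS.mp hpg) z
    change ep ((p : MulAut FF) z) = g * ep z * g⁻¹ at h
    rw [hconj, map_mul, map_mul, map_inv, map_zpow, ep_dd, one_zpow, one_mul, inv_one, mul_one] at h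
    calc g * ep z = (g * ep z * g⁻¹) * g := by group
      _ = ep z * g := by rw [← h]
  have hA : Commute g oA := by rw [← ep_x]; exact key zx
  have hB : Commute g oB := by
    rw [← ep_y']; exact key y'
  have hC : Commute g oC := by
    rw [← ep_v']; exact key v'
  have ht : Commute g t := by
    rw [← ep_y2]; exact key y2
  exact cent_G0 hA hC ht

theorem comap_fin {G K : Type*} [Group G] [Group K] (f : G →* K) (N : Subgroup K)
    (h : N.FiniteIndex) : (N.comap f).FiniteIndex := by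
  constructor
  rw [Subgroup.index_comap]
  have : (N.subgroupOf f.range).FiniteIndex := inferInstance
  exact this.index_ne_zero

theorem nonsep' (N : Subgroup OutS) (hN : N.FiniteIndex) (hle : (Ph.comp Ps).range ≤ N) :
    Ph (of ((gam, 1) : GG)) ∈ N := by
  have := nonsep (N.comap Ph) (comap_fin Ph N hN) (by
    rintro _ ⟨w, rfl⟩
    exact hle ⟨w, rfl⟩)
  exact this

/-- The negation of the preceding statement: For every g, each subgroup of Out(π₁ of the genus-g surface) that is isomorphic to a closed genus-h surface group (h≥2) is separable: every element outside it avoids some finite-index subgroup containing it. -/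
theorem result :
    ¬ (∀ g : ℕ,
    ∀ H : Subgroup (MulAut (PresentedGroup ({((List.finRange g).map (fun i : Fin g =>
            FreeGroup.of (i, (0 : Fin 2)) * FreeGroup.of (i, (1 : Fin 2)) *
            (FreeGroup.of (i, (0 : Fin 2)))⁻¹ * (FreeGroup.of (i, (1 : Fin 2)))⁻¹)).prod} :
            Set (FreeGroup (Fin g × Fin 2)))) ⧸
        Subgroup.normalClosure (Set.range (fun x : PresentedGroup ({((List.finRange g).map (fun i : Fin g =>
            FreeGroup.of (i, (0 : Fin 2)) * FreeGroup.of (i, (1 : Fin 2)) *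
            (FreeGroup.of (i, (0 : Fin 2)))⁻¹ * (FreeGroup.of (i, (1 : Fin 2)))⁻¹)).prod} :
            Set (FreeGroup (Fin g × Fin 2))) => MulAut.conj x))),
    (∃ h : ℕ, 2 ≤ h ∧ Nonempty (H ≃* PresentedGroup ({((List.finRange h).map (fun i : Fin h =>
            FreeGroup.of (i, (0 : Fin 2)) * FreeGroup.of (i, (1 : Fin 2)) *
            (FreeGroup.of (i, (0 : Fin 2)))⁻¹ * (FreeGroup.of (i, (1 : Fin 2)))⁻¹)).prod} :
            Set (FreeGroup (Fin h × Fin 2))))) →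
    ∀ x, x ∉ H → ∃ N : Subgroup _, N.FiniteIndex ∧ H ≤ N ∧ x ∉ N) := by
  intro hall
  have hinj : Function.Injective (Ph.comp Ps) := by
    rw [MonoidHom.coe_comp]; exact Ph_inj.comp Ps_inj
  have hx : Ph (of ((gam, 1) : GG)) ∉ (Ph.comp Ps).range := by
    rintro ⟨w, hw⟩
    exact gam_not_mem ⟨w, Ph_inj hw⟩
  obtain ⟨N, hN, hle, hxN⟩ := hall 4 (Ph.comp Ps).range
    ⟨4, by norm_num, ⟨(MonoidHom.ofInjective hinj).symm⟩⟩ (Ph (of ((gam, 1) : GG))) hx
  exact hxN (nonsep' N hN hle)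

end Final

end Pool.Agent.S01802
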