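import Pool.Statements.S01812
import Pool.Agent.Helper94.Grp

set_option autoImplicit false
open Pool Pool.MP_b39e30_al

namespace Pool.Agent.S01812

/-- The negation of the preceding statement: In every radical group (ascending series with locally nilpotent factors), an element is a bounded left Engel element exactly when it lies in the subgroup generated by all elements generating subnormal cyclic subgroups, i.e. the Baer radical. -/
theorem result :
    ¬ (∀ (G : Type) [Group G],
      (∃ S : Ordinal.{0} → Subgroup G,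
        Monotone S ∧
        (∀ α : Ordinal.{0}, ∀ g : G, g ∈ S α →
          g = 1 ∨ ∃ β : Ordinal.{0}, β < α ∧ g ∈ S (Order.succ β)) ∧
        (∀ α : Ordinal.{0}, ∀ a : G, a ∈ S (Order.succ α) →
          ∀ b : G, b ∈ S α → a * b * a⁻¹ ∈ S α) ∧
        (∀ α : Ordinal.{0}, ∀ F : Set G, F.Finite →
          F ⊆ (S (Order.succ α) : Set G) →
          ∃ n : ℕ, ∀ h0 : G, h0 ∈ Subgroup.closure F →
            ∀ hs : List G, hs.length = n →
              (∀ b : G, b ∈ hs → b ∈ Subgroup.closure F) →
                hs.foldl (fun a b : G => a⁻¹ * b⁻¹ * a * b) h0 ∈ S α) ∧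
        (∃ β : Ordinal.{0}, S β = ⊤)) →
      ∀ x : G,
        (∃ n : ℕ, ∀ g : G, (fun y : G => y⁻¹ * x⁻¹ * y * x)^[n] g = 1) ↔
          x ∈ Subgroup.closure
            {y : G | ∃ n : ℕ, ∃ K : ℕ → Subgroup G,
              K 0 = Subgroup.zpowers y ∧ K n = ⊤ ∧
              ∀ i : ℕ, i < n → (K i ≤ K (i + 1) ∧
                ∀ a : G, a ∈ K (i + 1) → ∀ b : G, b ∈ K i → a * b * a⁻¹ ∈ K i)}) := by
  intro H
  have key := H (Pool.Agent.Helper94.GI Pool.Agent.Helper94.JJ) ?_ Pool.Agent.Helper94.aa
  · -- the element `1 + e_{01}` is bounded left Engel but not in the Baer radical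
    have h2 := key.1 Pool.Agent.Helper94.bounded_engel
    refine Pool.Agent.Helper94.not_mem_Gam (((Subgroup.closure_le _).2 ?_) h2)
    rintro y ⟨n, K, h0, hn, hK⟩
    exact Pool.Agent.Helper94.subnormal_mem Pool.Agent.Helper94.good y n K h0 hn hK
  · refine ⟨fun α => if α = 0 then ⊥ else ⊤, ?_, ?_, ?_, ?_, ⟨1, by simp⟩⟩
    · intro α β hαβ
      by_cases hα : α = 0
      · simp [hα]
      · have hβ : β ≠ 0 := by
          rintro rfl; exact hα (le_antisymm hαβ zero_le)
        simp [hα, hβ]
    · intro α g hg
      by_cases hα : α = 0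
      · left; simpa [hα] using hg
      · right
        exact ⟨0, zero_le.lt_of_ne (Ne.symm hα), by simp⟩
    · intro α a _ b hb
      by_cases hα : α = 0
      · simp only [hα, if_true, Subgroup.mem_bot] at hb ⊢
        rw [hb]; simp
      · simp [hα]
    · intro α F hF _
      by_cases hα : α = 0
      · simp only [hα, if_true]
        exact Pool.Agent.Helper94.finite_nilpotent F hF
      · exact ⟨0, fun _ _ _ _ _ => by simp [hα]⟩

end Pool.Agent.S01812
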