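import Pool.Statements.S01813
import Pool.Agent.Helper816.Growth
import Pool.Agent.Helper816.Count
import Pool.Agent.Helper816.Residues

set_option autoImplicit false
open Pool Pool.MP_b3fe82_al

namespace Pool.Agent.S01813

/-- For every numerical semigroup with minimal generators g₀<…<g_e, the kernel congruence of the factorization map has a generating set of at most C(g_e−g₀+1, 2) relations, i.e. ρ(Γ) ≤ C(width+1, 2). -/
theorem result :
    ∀ (e : ℕ) (g : Fin (e + 1) → ℕ),
      StrictMono g → 0 < g 0 → Finset.univ.gcd g = 1 →
      (∀ i, g i ∉ AddSubmonoid.closure (g '' {j | j ≠ i})) →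
      ∃ R : Finset ((Fin (e + 1) → ℕ) × (Fin (e + 1) → ℕ)),
        R.card ≤ (g (Fin.last e) - g 0 + 1).choose 2 ∧
        ∀ a b : Fin (e + 1) → ℕ,
          (addConGen (fun x y => (x, y) ∈ R)) a b ↔
            ∑ i, a i * g i = ∑ i, b i * g i := by
  intro e g hg h0 _ _
  have hpos : ∀ i, 0 < g i := fun i => lt_of_lt_of_le h0 (hg.monotone (Fin.zero_le i))
  rcases Nat.eq_zero_or_pos e with he | he
  · subst he
    refine ⟨∅, by simp, ?_⟩
    intro a b
    constructor
    · intro h
      have h1 : a = b := by
        have hle : addConGen (fun x y => (x, y) ∈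
            (∅ : Finset ((Fin (0 + 1) → ℕ) × (Fin (0 + 1) → ℕ)))) ≤ ⊥ := by
          rw [AddCon.addConGen_le]
          intro x y hxy
          simp at hxy
        exact hle h
      rw [h1]
    · intro h
      have h1 : a = b := by
        funext i
        have h2 : i = 0 := by
          apply Fin.ext
          have := i.isLt
          simp only [Fin.val_zero]
          omega
        subst h2
        rw [Fin.sum_univ_one, Fin.sum_univ_one] at h
        exact Nat.eq_of_mul_eq_mul_right h0 h
      rw [h1]
      exact AddCon.refl _ _
  · obtain ⟨B, R, hB, hR, hgen⟩ := Pool.Agent.Helper816.Count.count (g := g) he hpos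
    obtain ⟨h1, h2⟩ := Pool.Agent.Helper816.Residues.residues he hg B hB
    refine ⟨R, ?_, hgen⟩
    generalize g (Fin.last e) - g 0 = w at *
    rw [Nat.choose_two_right, Nat.add_sub_cancel, Nat.le_div_iff_mul_le (by norm_num)]
    nlinarith

end Pool.Agent.S01813
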