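import Pool.Statements.S01820

set_option autoImplicit false
open Pool Pool.MP_b442e4_al

namespace Pool.Agent.S01820

noncomputable section

/-- An uncountable elementary abelian 3-group, written additively. -/
abbrev E : Type := (Set ℕ) →₀ ZMod 3

/-- The split extension of `E` by a group of order two acting by inversion. -/
@[ext] structure D : Type where
  v : E
  s : ℤˣ

namespace D

instance : Mul D := ⟨fun a b => ⟨a.v + (a.s : ℤ) • b.v, a.s * b.s⟩⟩
instance : One D := ⟨⟨0, 1⟩⟩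
instance : Inv D := ⟨fun a => ⟨-(((a.s⁻¹ : ℤˣ) : ℤ) • a.v), a.s⁻¹⟩⟩

@[simp] lemma mul_v (a b : D) : (a * b).v = a.v + (a.s : ℤ) • b.v := rfl
@[simp] lemma mul_s (a b : D) : (a * b).s = a.s * b.s := rfl
@[simp] lemma one_v : (1 : D).v = 0 := rfl
@[simp] lemma one_s : (1 : D).s = 1 := rfl
@[simp] lemma inv_v (a : D) : (a⁻¹).v = -(((a.s⁻¹ : ℤˣ) : ℤ) • a.v) := rfl
@[simp] lemma inv_s (a : D) : (a⁻¹).s = a.s⁻¹ := rfl

instance : Group D := Group.ofLeftAxioms
  (fun a b c => by
    ext1
    · simp [smul_add, mul_smul, add_assoc]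
    · simp [mul_assoc])
  (fun a => by ext1 <;> simp)
  (fun a => by ext1 <;> simp)

/-- The inclusion of `E`. -/
def incl (e : E) : D := ⟨e, 1⟩

@[simp] lemma incl_v (e : E) : (incl e).v = e := rfl
@[simp] lemma incl_s (e : E) : (incl e).s = 1 := rfl

lemma incl_add (e f : E) : incl (e + f) = incl e * incl f := by
  ext1 <;> simp

/-- The involution. -/
def t : D := ⟨0, -1⟩

@[simp] lemma t_v : t.v = 0 := rfl
@[simp] lemma t_s : t.s = -1 := rfl

lemma t_mul_t : t * t = 1 := by ext1 <;> simp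

lemma conj_t (e : E) : t * incl e * t⁻¹ = (incl e)⁻¹ := by
  ext1 <;> simp

lemma eq_incl_or (a : D) : a = incl a.v ∨ a = incl a.v * t := by
  rcases Int.units_eq_one_or a.s with h | h
  · left; ext1 <;> simp [h]
  · right; ext1 <;> simp [h]

lemma three_smul (e : E) : e + e + e = 0 := by
  ext i
  simp only [Finsupp.coe_add, Pi.add_apply, Finsupp.coe_zero, Pi.zero_apply]
  generalize e i = x
  revert x
  decide

lemma incl_pow_three (e : E) : incl e ^ 3 = 1 := by
  have : incl e ^ 3 = incl (e + e + e) := by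
    rw [incl_add, incl_add, pow_three, mul_assoc]
  rw [this, three_smul]; rfl

lemma sq_eq (a : D) : ∃ e : E, a ^ 2 = incl e := by
  refine ⟨(a ^ 2).v, ?_⟩
  ext1
  · rfl
  · rw [pow_two]; simp

lemma incl_comm (e f : E) : incl e * incl f = incl f * incl e := by
  rw [← incl_add, ← incl_add, add_comm]

lemma pow_six (a : D) : a ^ 6 = 1 := by
  obtain ⟨e, he⟩ := sq_eq a
  have : a ^ 6 = (a ^ 2) ^ 3 := by rw [← pow_mul]
  rw [this, he, incl_pow_three]

lemma sq_comm (a b : D) : a ^ 2 * b ^ 2 = b ^ 2 * a ^ 2 := by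
  obtain ⟨e, he⟩ := sq_eq a
  obtain ⟨f, hf⟩ := sq_eq b
  rw [he, hf, incl_comm]

/-- The sign homomorphism. -/
def sgn : D →* ℤˣ where
  toFun a := a.s
  map_one' := rfl
  map_mul' _ _ := rfl

@[simp] lemma sgn_apply (a : D) : sgn a = a.s := rfl

lemma not_countable : ¬ Countable D := by
  intro h
  have h1 : Function.Injective (fun x : Set ℕ => incl (Finsupp.single x (1 : ZMod 3))) := by
    intro x y hxy
    have h2 : Finsupp.single x (1 : ZMod 3) = Finsupp.single y (1 : ZMod 3) := congrArg D.v hxy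
    have h3 : (1 : ZMod 3) ≠ 0 := by decide
    exact (Finsupp.single_left_inj h3).1 h2
  have h4 : Countable (Set ℕ) := h1.countable
  obtain ⟨f, hf⟩ := exists_surjective_nat (Set ℕ)
  exact Function.cantor_surjective f hf

end D

/-- The two laws: sixth powers are trivial and squares commute. -/
def S : Set (FreeGroup ℕ) :=
  {(FreeGroup.of 0) ^ 6, (FreeGroup.of 0) ^ 2 * (FreeGroup.of 1) ^ 2 *
    ((FreeGroup.of 0) ^ 2)⁻¹ * ((FreeGroup.of 1) ^ 2)⁻¹}

lemma laws_iff (K : Type) [Group K] :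
    (∀ w ∈ S, ∀ f : ℕ → K, FreeGroup.lift f w = 1) ↔
      (∀ x : K, x ^ 6 = 1) ∧ (∀ x y : K, x ^ 2 * y ^ 2 = y ^ 2 * x ^ 2) := by
  constructor
  · intro h
    refine ⟨fun x => ?_, fun x y => ?_⟩
    · have := h _ (Or.inl rfl) (fun _ => x)
      simpa using this
    · have := h _ (Or.inr rfl) (fun n => if n = 0 then x else y)
      simp only [map_mul, map_pow, map_inv, FreeGroup.lift_apply_of] at this
      simp only [if_true, one_ne_zero, if_false] at this
      rw [mul_inv_eq_one, mul_inv_eq_iff_eq_mul] at this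
      exact this
  · rintro ⟨h1, h2⟩ w hw f
    rcases hw with rfl | rfl
    · simp [h1]
    · simp only [map_mul, map_pow, map_inv, FreeGroup.lift_apply_of]
      rw [h2]; group

/-- Homomorphisms from `D` are built from a linear family and an involution inverting it. -/
def ofData {A : Type} [Group A] (σ : E → A) (s : A)
    (hσ : ∀ e f, σ (e + f) = σ e * σ f) (hs : s * s = 1)
    (hc : ∀ e, s * σ e * s⁻¹ = (σ e)⁻¹) : D →* A where
  toFun a := σ a.v * (if a.s = 1 then 1 else s)
  map_one' := by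
    have h0 : σ 0 = 1 := by
      have := hσ 0 0
      simpa using this
    simp [h0]
  map_mul' a b := by
    have h0 : σ 0 = 1 := by
      have := hσ 0 0
      simpa using this
    have hneg : ∀ e, σ (-e) = (σ e)⁻¹ := by
      intro e
      have := hσ e (-e)
      rw [add_neg_cancel, h0] at this
      exact (inv_eq_of_mul_eq_one_right this.symm).symm
    have hc' : ∀ e, (σ e)⁻¹ * s = s * σ e := by
      intro e
      rw [← hc]; group
    rcases Int.units_eq_one_or a.s with h | h <;> rcases Int.units_eq_one_or b.s with k | k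
    · simp [h, k, hσ]
    · simp [h, k, hσ, mul_assoc]
    · simp [h, k, hσ, hneg, mul_assoc, hc']
    · have hne : (-1 : ℤˣ) ≠ 1 := by decide
      simp only [D.mul_v, D.mul_s, h, k, hne, if_false, hσ, mul_assoc]
      simp [hneg]
      rw [← mul_assoc s, ← hc', mul_assoc, hs, mul_one]

lemma projective (A B : Type) [Group A] [Group B]
    (hA : (∀ x : A, x ^ 6 = 1) ∧ (∀ x y : A, x ^ 2 * y ^ 2 = y ^ 2 * x ^ 2))
    (π : A →* B) (hπ : Function.Surjective π) (φ : D →* B) :
    ∃ ψ : D →* A, π.comp ψ = φ := by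
  obtain ⟨hA6, hA2⟩ := hA
  obtain ⟨a, ha⟩ := hπ (φ D.t)
  set s := a ^ 3 with hs
  have hss : s * s = 1 := by
    rw [hs, ← pow_add]; exact hA6 a
  have hπs : π s = φ D.t := by
    rw [hs, map_pow, ha, pow_succ, pow_two, ← map_mul, D.t_mul_t, map_one, one_mul]
  have hsinv : s⁻¹ = s := inv_eq_of_mul_eq_one_right hss
  have key : ∀ y : B, y ^ 3 = 1 → φ D.t * y * (φ D.t)⁻¹ = y⁻¹ →
      ∃ v : A, π v = y ∧ (∃ p q : A, v = p ^ 2 * q ^ 2) ∧ s * v * s⁻¹ = v⁻¹ := by
    intro y hy hty
    obtain ⟨x, hx⟩ := hπ y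
    refine ⟨(s * x ^ 4 * s⁻¹) * (x ^ 4)⁻¹, ?_, ?_, ?_⟩
    · have h1 : φ D.t * y ^ 4 * (φ D.t)⁻¹ = (y⁻¹) ^ 4 := by
        rw [← hty, conj_pow]
      have h2 : y ^ 4 = y := by rw [pow_succ, hy, one_mul]
      simp only [map_mul, map_inv, map_pow, hx, hπs]
      rw [h1, inv_pow, h2, ← mul_inv_rev, inv_eq_iff_mul_eq_one, ← pow_two, ← pow_succ, hy]
    · refine ⟨s * x ^ 2 * s⁻¹, (x ^ 2)⁻¹, ?_⟩
      rw [conj_pow, inv_pow, ← pow_mul]
    · rw [mul_inv_rev, inv_inv, mul_inv_rev, mul_inv_rev, inv_inv]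
      have h1 : s * (s * x ^ 4 * s⁻¹ * (x ^ 4)⁻¹) * s⁻¹ = (s * s) * x ^ 4 * s⁻¹ * (x ^ 4)⁻¹ * s⁻¹ := by
        simp only [mul_assoc]
      rw [h1, hss, one_mul, hsinv]
      simp only [mul_assoc]
  have key2 : ∀ x : Set ℕ, ∃ v : A, π v = φ (D.incl (Finsupp.single x 1)) ∧
      (∃ p q : A, v = p ^ 2 * q ^ 2) ∧ s * v * s⁻¹ = v⁻¹ := by
    intro x
    apply key
    · rw [← map_pow, D.incl_pow_three, map_one]
    · rw [← map_inv, ← map_mul, ← map_mul, D.conj_t, map_inv]
  choose v hv1 hv2 hv3 using key2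
  let W : Subgroup A := Subgroup.closure {a : A | ∃ p : A, a = p ^ 2}
  have hcomm : ∀ x ∈ {a : A | ∃ p : A, a = p ^ 2}, ∀ y ∈ {a : A | ∃ p : A, a = p ^ 2},
      x * y = y * x := by
    rintro _ ⟨p, rfl⟩ _ ⟨q, rfl⟩
    exact hA2 p q
  letI : CommGroup W := Subgroup.closureCommGroupOfComm hcomm
  have hvW : ∀ x, v x ∈ W := by
    intro x
    obtain ⟨p, q, hpq⟩ := hv2 x
    rw [hpq]
    exact W.mul_mem (Subgroup.subset_closure ⟨p, rfl⟩) (Subgroup.subset_closure ⟨q, rfl⟩)
  have hv3' : ∀ x, v x ^ 3 = 1 := by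
    intro x
    obtain ⟨p, q, hpq⟩ := hv2 x
    have hc : Commute (p ^ 2) (q ^ 2) := hA2 p q
    rw [hpq, hc.mul_pow, ← pow_mul, ← pow_mul, hA6, hA6, one_mul]
  let w : Set ℕ → Additive W := fun x => Additive.ofMul ⟨v x, hvW x⟩
  have hw3 : ∀ x, (3 : ℤ) • w x = 0 := by
    intro x
    have h1 : (⟨v x, hvW x⟩ : W) ^ 3 = 1 := by
      apply Subtype.ext
      simpa using hv3' x
    have h2 : (3 : ℤ) • w x = Additive.ofMul ((⟨v x, hvW x⟩ : W) ^ (3 : ℤ)) := rfl
    rw [h2]
    have h3 : ((⟨v x, hvW x⟩ : W) ^ (3 : ℤ)) = 1 := by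
      rw [← h1]; exact zpow_ofNat _ 3
    rw [h3]; rfl
  let τ : E →+ Additive W := Finsupp.liftAddHom
    (fun x => ZMod.lift 3 ⟨zmultiplesHom (Additive W) (w x), by simpa using hw3 x⟩)
  let σ : E → A := fun e => ((Additive.toMul (τ e) : W) : A)
  have hσadd : ∀ e f, σ (e + f) = σ e * σ f := by
    intro e f
    simp only [σ, map_add, toMul_add, Subgroup.coe_mul]
  have hσ0 : σ 0 = 1 := by
    have := hσadd 0 0
    simpa using this
  have hσ1 : ∀ x, σ (Finsupp.single x 1) = v x := by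
    intro x
    have h1 : τ (Finsupp.single x 1) = w x := by
      simp only [τ, Finsupp.liftAddHom_apply_single]
      have := ZMod.lift_coe 3 (A := Additive W) ⟨zmultiplesHom (Additive W) (w x), by simpa using hw3 x⟩ 1
      simpa using this
    simp only [σ, h1]
    rfl
  have hall : ∀ e : E, π (σ e) = φ (D.incl e) ∧ s * σ e * s⁻¹ = (σ e)⁻¹ := by
    have hadd : ∀ e f : E, (π (σ e) = φ (D.incl e) ∧ s * σ e * s⁻¹ = (σ e)⁻¹) →
        (π (σ f) = φ (D.incl f) ∧ s * σ f * s⁻¹ = (σ f)⁻¹) →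
        (π (σ (e + f)) = φ (D.incl (e + f)) ∧ s * σ (e + f) * s⁻¹ = (σ (e + f))⁻¹) := by
      rintro e f ⟨he1, he2⟩ ⟨hf1, hf2⟩
      constructor
      · rw [hσadd, map_mul, he1, hf1, D.incl_add, map_mul]
      · have h1 : s * σ (e + f) * s⁻¹ = (s * σ e * s⁻¹) * (s * σ f * s⁻¹) := by
          rw [hσadd]; group
        have h2 : (σ (e + f))⁻¹ = (σ e)⁻¹ * (σ f)⁻¹ := by
          rw [add_comm e f, hσadd, mul_inv_rev]
        rw [h1, h2, he2, hf2]
    have hzero : π (σ 0) = φ (D.incl 0) ∧ s * σ 0 * s⁻¹ = (σ 0)⁻¹ := by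
      constructor
      · rw [hσ0, map_one]
        exact (map_one φ).symm
      · rw [hσ0]; group
    have hone : ∀ x, π (σ (Finsupp.single x 1)) = φ (D.incl (Finsupp.single x 1)) ∧
        s * σ (Finsupp.single x 1) * s⁻¹ = (σ (Finsupp.single x 1))⁻¹ := by
      intro x
      rw [hσ1]
      exact ⟨hv1 x, hv3 x⟩
    intro e
    induction e using Finsupp.induction_linear with
    | zero => exact hzero
    | add e f he hf => exact hadd e f he hf
    | single x c =>
      have hc : ∀ c : ZMod 3, c = 0 ∨ c = 1 ∨ c = 1 + 1 := by decide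
      rcases hc c with rfl | rfl | rfl
      · rw [Finsupp.single_zero]; exact hzero
      · exact hone x
      · rw [Finsupp.single_add]; exact hadd _ _ (hone x) (hone x)
  refine ⟨ofData σ s hσadd hss (fun e => (hall e).2), ?_⟩
  ext a
  have happ : ∀ a : D, ofData σ s hσadd hss (fun e => (hall e).2) a =
      σ a.v * (if a.s = 1 then 1 else s) := fun _ => rfl
  rw [MonoidHom.comp_apply, happ, map_mul, (hall a.v).1]
  rcases Int.units_eq_one_or a.s with h | h
  · rw [if_pos h, map_one, mul_one]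
    congr 1
    ext1 <;> simp [h]
  · rw [if_neg (by rw [h]; decide), hπs, ← map_mul]
    congr 1
    ext1 <;> simp [h]

lemma countable_of_closure {G : Type} [Group G] (s : Set G) (hs : s.Countable)
    (h : Subgroup.closure s = ⊤) : Countable G := by
  haveI : Countable s := hs
  have h1 : Function.Surjective (FreeGroup.lift (fun x : s => (x : G))) := by
    rw [FreeGroup.lift_surjective_iff_closure_range_eq_top, Subtype.range_coe]
    exact h
  haveI : Countable (FreeGroup s) := by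
    unfold FreeGroup; infer_instance
  exact h1.countable

/-- The coproduct property fails for countably generated factors. -/
lemma no_decomp (I : Type) (H : I → Type) [∀ i, Group (H i)] (ι : ∀ i, H i →* D)
    (hlaw : ∀ i, (∀ x : H i, x ^ 6 = 1) ∧ (∀ x y : H i, x ^ 2 * y ^ 2 = y ^ 2 * x ^ 2))
    (hcount : ∀ i, ∃ s : Set (H i), s.Countable ∧ Subgroup.closure s = ⊤)
    (huniv : ∀ (K : Type) [Group K],
        ((∀ x : K, x ^ 6 = 1) ∧ (∀ x y : K, x ^ 2 * y ^ 2 = y ^ 2 * x ^ 2)) →
        ∀ g : ∀ i, H i →* K, ∃! θ : D →* K, ∀ i, θ.comp (ι i) = g i) : False := by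
  classical
  -- retractions onto the factors
  have hret : ∀ j, ∃ ρ : D →* H j, ρ.comp (ι j) = MonoidHom.id _ ∧
      ∀ i, i ≠ j → ρ.comp (ι i) = 1 := by
    intro j
    obtain ⟨θ, hθ, -⟩ := huniv (H j) (hlaw j)
      (fun i => if h : i = j then h ▸ MonoidHom.id _ else 1)
    refine ⟨θ, ?_, ?_⟩
    · have := hθ j
      simpa using this
    · intro i hi
      have := hθ i
      simpa [hi] using this
  have hZ : (∀ x : ℤˣ, x ^ 6 = 1) ∧ (∀ x y : ℤˣ, x ^ 2 * y ^ 2 = y ^ 2 * x ^ 2) := by decide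
  -- homomorphisms to the group of order two
  have hhom : ∀ θ : D →* ℤˣ, θ = 1 ∨ θ = D.sgn := by
    intro θ
    have h1 : ∀ e, θ (D.incl e) = 1 := by
      intro e
      have h2 : θ (D.incl e) ^ 3 = 1 := by rw [← map_pow, D.incl_pow_three, map_one]
      have h3 : ∀ u : ℤˣ, u ^ 3 = 1 → u = 1 := by decide
      exact h3 _ h2
    rcases Int.units_eq_one_or (θ D.t) with h | h
    · left
      ext1 a
      rcases D.eq_incl_or a with ha | ha
      · rw [ha, h1]; rfl
      · rw [ha, map_mul, h1, h]; rfl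
    · right
      ext1 a
      rcases D.eq_incl_or a with ha | ha
      · rw [ha, h1]; rfl
      · rw [ha, map_mul, h1, h]; simp
  have hsgn : D.sgn ≠ 1 := by
    intro h
    have := DFunLike.congr_fun h D.t
    simp at this
  -- exactly one factor carries the sign
  obtain ⟨j, hj⟩ : ∃ j, D.sgn.comp (ι j) ≠ 1 := by
    by_contra hcon
    push Not at hcon
    obtain ⟨θ, -, hθ⟩ := huniv ℤˣ hZ (fun _ => 1)
    have h1 := hθ D.sgn hcon
    have h2 := hθ 1 (fun i => rfl)
    exact hsgn (h1.trans h2.symm)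
  have hother : ∀ i, i ≠ j → D.sgn.comp (ι i) = 1 := by
    intro i hi
    obtain ⟨θ, hθ, -⟩ := huniv ℤˣ hZ (fun k => if k = j then D.sgn.comp (ι k) else 1)
    rcases hhom θ with rfl | rfl
    · exfalso
      have := hθ j
      rw [if_pos rfl] at this
      exact hj this.symm
    · have := hθ i
      rwa [if_neg hi] at this
  obtain ⟨h0, hh0⟩ : ∃ h0, D.sgn (ι j h0) ≠ 1 := by
    by_contra hcon
    push Not at hcon
    exact hj (by ext1 x; exact hcon x)
  have htriv : ∀ i, i ≠ j → ∀ x : H i, x = 1 := by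
    intro i hi x
    obtain ⟨ρ, hρ1, hρ2⟩ := hret i
    have hρx : ρ (ι i x) = x := DFunLike.congr_fun hρ1 x
    have hρ0 : ρ (ι j h0) = 1 := DFunLike.congr_fun (hρ2 j (Ne.symm hi)) h0
    have hsx : (ι i x).s = 1 := DFunLike.congr_fun (hother i hi) x
    have hs0 : (ι j h0).s = -1 := by
      rcases Int.units_eq_one_or (ι j h0).s with h | h
      · exact absurd h hh0
      · exact h
    have hconj : ι j h0 * ι i x * (ι j h0)⁻¹ = (ι i x)⁻¹ := by
      ext1
      · simp [hsx, hs0]
      · simp [hsx, hs0]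
    have h1 : x = x⁻¹ := by
      have := congrArg ρ hconj
      rw [map_mul, map_mul, map_inv, map_inv, hρ0, hρx] at this
      simpa using this
    have h2 : x ^ 3 = 1 := by
      have h3 : (ι i x) ^ 3 = 1 := by
        have h4 : ι i x = D.incl (ι i x).v := by
          ext1
          · rfl
          · simp [hsx]
        rw [h4, D.incl_pow_three]
      have := congrArg ρ h3
      rwa [map_pow, hρx, map_one] at this
    have h5 : x * x = 1 := by
      nth_rewrite 2 [h1]; exact mul_inv_cancel x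
    rw [pow_succ, pow_two, h5, one_mul] at h2
    exact h2
  -- so the distinguished factor is everything
  obtain ⟨ρ, hρ1, hρ2⟩ := hret j
  have hid : (ι j).comp ρ = MonoidHom.id D := by
    obtain ⟨θ, -, hθ⟩ := huniv D ⟨D.pow_six, D.sq_comm⟩ ι
    have h1 := hθ ((ι j).comp ρ) (by
      intro i
      by_cases hi : i = j
      · subst hi
        rw [MonoidHom.comp_assoc, hρ1, MonoidHom.comp_id]
      · ext1 x
        rw [htriv i hi x, map_one, map_one])
    have h2 := hθ (MonoidHom.id D) (by intro i; rfl)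
    exact h1.trans h2.symm
  have hsurj : Function.Surjective (ι j) := by
    intro d
    exact ⟨ρ d, DFunLike.congr_fun hid d⟩
  obtain ⟨s, hs, hgen⟩ := hcount j
  have hcH : Countable (H j) := countable_of_closure s hs hgen
  exact D.not_countable hsurj.countable

/-- The negation of the preceding statement: For every group variety given by laws, every projective group of the variety that is not finitely generated is the coproduct in the variety (the 𝔐-free product) of a family of countably generated projective groups of the variety. -/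
theorem result :
    ¬ (∀ (S : Set (FreeGroup ℕ)) (G : Type) [Group G],
    (∀ w ∈ S, ∀ f : ℕ → G, FreeGroup.lift f w = 1) →
    (∀ (A B : Type) [Group A] [Group B],
      (∀ w ∈ S, ∀ f : ℕ → A, FreeGroup.lift f w = 1) →
      (∀ w ∈ S, ∀ f : ℕ → B, FreeGroup.lift f w = 1) →
      ∀ (π : A →* B), Function.Surjective π →
        ∀ (φ : G →* B), ∃ ψ : G →* A, π.comp ψ = φ) →
    ¬ Group.FG G →
    ∃ (I : Type) (H : I → Type) (_ : ∀ i, Group (H i)) (ι : ∀ i, H i →* G),
      (∀ i,
        (∀ w ∈ S, ∀ f : ℕ → H i, FreeGroup.lift f w = 1) ∧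
        (∃ s : Set (H i), s.Countable ∧ Subgroup.closure s = ⊤) ∧
        (∀ (A B : Type) [Group A] [Group B],
          (∀ w ∈ S, ∀ f : ℕ → A, FreeGroup.lift f w = 1) →
          (∀ w ∈ S, ∀ f : ℕ → B, FreeGroup.lift f w = 1) →
          ∀ (π : A →* B), Function.Surjective π →
            ∀ (φ : H i →* B), ∃ ψ : H i →* A, π.comp ψ = φ)) ∧
      (∀ (K : Type) [Group K],
        (∀ w ∈ S, ∀ f : ℕ → K, FreeGroup.lift f w = 1) →
        ∀ g : ∀ i, H i →* K, ∃! θ : G →* K, ∀ i, θ.comp (ι i) = g i)) := by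
  intro hmain
  have hnfg : ¬ Group.FG D := by
    intro h
    obtain ⟨s, hs, hfin⟩ := Group.fg_iff.1 h
    exact D.not_countable (countable_of_closure s hfin.countable hs)
  obtain ⟨I, H, instH, ι, h1, h2⟩ := hmain S D ((laws_iff D).2 ⟨D.pow_six, D.sq_comm⟩)
    (fun A B _ _ hA _ π hπ φ => projective A B ((laws_iff A).1 hA) π hπ φ) hnfg
  exact no_decomp I H ι (fun i => (laws_iff (H i)).1 (h1 i).1) (fun i => (h1 i).2.1)
    (fun K _ hK g => h2 K ((laws_iff K).2 hK) g)

end

end Pool.Agent.S01820
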