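import Pool.Statements.S01823
-- import your own Pool.Agent.* helpers here

set_option autoImplicit false
open Pool Pool.MP_b4fb0e_al

namespace Pool.Agent.S01823

/-- the addition table of `{0,1,3} + {0,1,2,4}` modulo 7; the value 6 never occurs -/
def ad (a : Fin 3) (b : Fin 4) : Fin 6 :=
  (![![0, 1, 2, 4], ![1, 2, 3, 5], ![3, 4, 5, 0]] : Fin 3 → Fin 4 → Fin 6) a b

@[ext] structure S where
  b : Fin 4
  mid : List (Fin 6)
  a : Fin 3
deriving DecidableEq

instance : Mul S := ⟨fun s t => ⟨s.b, s.mid ++ ad s.a t.b :: t.mid, t.a⟩⟩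

theorem mul_def (s t : S) : s * t = ⟨s.b, s.mid ++ ad s.a t.b :: t.mid, t.a⟩ := rfl

instance : Semigroup S where
  mul_assoc x y z := by
    simp [mul_def]

theorem conv_aux {F : Type} [Field F] (h2 : (2 : F) ≠ 0) (a0 a1 a3 b0 b1 b2 b4 : F)
    (e0 : a0 * b0 + a3 * b4 = 0) (e1 : a0 * b1 + a1 * b0 = 0) (e2 : a0 * b2 + a1 * b1 = 0)
    (e3 : a1 * b2 + a3 * b0 = 0) (e4 : a0 * b4 + a3 * b1 = 0) (e5 : a1 * b4 + a3 * b2 = 0) :
    (a0 = 0 ∧ a1 = 0 ∧ a3 = 0) ∨ (b0 = 0 ∧ b1 = 0 ∧ b2 = 0 ∧ b4 = 0) := by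
  by_cases h0 : a0 = 0
  · subst h0
    by_cases h3 : a3 = 0
    · subst h3
      by_cases h1 : a1 = 0
      · left; exact ⟨rfl, h1, rfl⟩
      · right
        simp_all
    · right
      simp_all
  · right
    have k1 : a0 ^ 2 * b2 = a1 ^ 2 * b0 := by linear_combination a0 * e2 - a1 * e1
    have k2 : a0 ^ 2 * b4 = a1 * a3 * b0 := by linear_combination a0 * e4 - a3 * e1
    have k3 : 2 * (a1 ^ 2 * a3 * b0) = 0 := by
      linear_combination a0 ^ 2 * e5 - a3 * k1 - a1 * k2
    have k4 : (a0 ^ 3 + a3 ^ 2 * a1) * b0 = 0 := by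
      linear_combination a0 ^ 2 * e0 - a3 * k2
    have hb0 : b0 = 0 := by
      by_contra hb
      have k5 : a1 ^ 2 * a3 = 0 := by
        have := (mul_eq_zero.1 k3).resolve_left h2
        exact (mul_eq_zero.1 this).resolve_right hb
      have k6 : a0 ^ 3 + a3 ^ 2 * a1 = 0 := (mul_eq_zero.1 k4).resolve_right hb
      have k7 : a1 = 0 ∨ a3 = 0 := by
        rcases mul_eq_zero.1 k5 with h | h
        · left; exact pow_eq_zero_iff (two_ne_zero) |>.1 h
        · right; exact h
      have k8 : a0 ^ 3 = 0 := by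
        rcases k7 with h | h
        · rw [h] at k6; simpa using k6
        · rw [h] at k6; simpa using k6
      exact h0 (pow_eq_zero_iff (three_ne_zero) |>.1 k8)
    subst hb0
    simp only [mul_zero, add_zero, zero_add] at e0 e1 k1 k2
    refine ⟨rfl, ?_, ?_, ?_⟩
    · simpa [h0] using e1
    · simpa [h0] using k1
    · simpa [h0] using k2

/-- no zero divisors for the slot convolution -/
theorem conv {F : Type} [Field F] (h2 : (2 : F) ≠ 0) (P : Fin 3 → F) (Q : Fin 4 → F)
    (h : ∀ c : Fin 6, ∑ p : Fin 3 × Fin 4, (if ad p.1 p.2 = c then P p.1 * Q p.2 else 0) = 0) :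
    P = 0 ∨ Q = 0 := by
  have e0 := h 0
  have e1 := h 1
  have e2 := h 2
  have e3 := h 3
  have e4 := h 4
  have e5 := h 5
  simp only [Fintype.sum_prod_type, Fin.sum_univ_succ, Fin.sum_univ_zero, ad] at e0 e1 e2 e3 e4 e5
  simp [Fin.ext_iff] at e0 e1 e2 e3 e4 e5
  rcases conv_aux h2 (P 0) (P 1) (P 2) (Q 0) (Q 1) (Q 2) (Q 3) e0 e1 e2 e3 e4 e5 with
    ⟨h1, h2, h3⟩ | ⟨h1, h2, h3, h4⟩
  · left
    funext i
    fin_cases i <;> assumption
  · right
    funext i
    fin_cases i <;> assumption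

theorem decomp (s t : S) (n m : ℕ) (hs : s.mid.length ≤ n) (ht : t.mid.length ≤ m)
    (b : Fin 4) (u v : List (Fin 6)) (a : Fin 3) (hu : u.length = n) (hv : v.length = m)
    (c : Fin 6) (h : s * t = ⟨b, u ++ c :: v, a⟩) :
    s = ⟨b, u, s.a⟩ ∧ t = ⟨t.b, v, a⟩ ∧ ad s.a t.b = c := by
  rw [mul_def, S.mk.injEq] at h
  obtain ⟨h1, h2, h3⟩ := h
  have hl := congrArg List.length h2
  simp only [List.length_append, List.length_cons] at hl
  have hl1 : s.mid.length = u.length := by omega
  obtain ⟨h4, h5⟩ := List.append_inj h2 hl1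
  rw [List.cons.injEq] at h5
  refine ⟨?_, ?_, h5.1⟩
  · ext1
    · exact h1
    · exact h4
    · rfl
  · ext1
    · rfl
    · exact h5.2
    · exact h3

/-- coefficient of a product at a top degree word -/
theorem coeff_top {F : Type} [Field F] (x y : MonoidAlgebra F S) (n m : ℕ)
    (hx : ∀ s, x.coeff s ≠ 0 → s.mid.length ≤ n) (hy : ∀ s, y.coeff s ≠ 0 → s.mid.length ≤ m)
    (b : Fin 4) (u v : List (Fin 6)) (a : Fin 3) (hu : u.length = n) (hv : v.length = m)
    (c : Fin 6) :
    (x * y).coeff ⟨b, u ++ c :: v, a⟩ =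
      ∑ p : Fin 3 × Fin 4, (if ad p.1 p.2 = c then x.coeff ⟨b, u, p.1⟩ * y.coeff ⟨p.2, v, a⟩ else 0) := by
  classical
  rw [MonoidAlgebra.coeff_mul]
  simp only [Finsupp.sum]
  rw [← Finset.sum_product']
  rw [← Finset.sum_filter, ← Finset.sum_filter]
  refine Finset.sum_bij_ne_zero (fun p _ _ => (p.1.a, p.2.b)) ?_ ?_ ?_ ?_
  · rintro ⟨s, t⟩ hp hne
    simp only [Finset.mem_filter, Finset.mem_product, Finsupp.mem_support_iff] at hp
    obtain ⟨⟨hs, ht⟩, he⟩ := hp
    obtain ⟨-, -, h3⟩ := decomp s t n m (hx s hs) (hy t ht) b u v a hu hv c he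
    simpa using h3
  · rintro ⟨s, t⟩ hp hne ⟨s', t'⟩ hp' hne' heq
    simp only [Finset.mem_filter, Finset.mem_product, Finsupp.mem_support_iff] at hp hp'
    obtain ⟨⟨hs, ht⟩, he⟩ := hp
    obtain ⟨⟨hs', ht'⟩, he'⟩ := hp'
    obtain ⟨h1, h2, -⟩ := decomp s t n m (hx s hs) (hy t ht) b u v a hu hv c he
    obtain ⟨h1', h2', -⟩ := decomp s' t' n m (hx s' hs') (hy t' ht') b u v a hu hv c he'
    simp only [Prod.mk.injEq] at heq
    rw [h1, h2, h1', h2', heq.1, heq.2]
  · rintro ⟨i, j⟩ hp hne
    simp only [Finset.mem_filter, Finset.mem_univ, true_and] at hp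
    refine ⟨(⟨b, u, i⟩, ⟨j, v, a⟩), ?_, hne, rfl⟩
    simp only [Finset.mem_filter, Finset.mem_product, Finsupp.mem_support_iff]
    refine ⟨⟨left_ne_zero_of_mul hne, right_ne_zero_of_mul hne⟩, ?_⟩
    rw [mul_def, hp]
  · rintro ⟨s, t⟩ hp hne
    simp only [Finset.mem_filter, Finset.mem_product, Finsupp.mem_support_iff] at hp
    obtain ⟨⟨hs, ht⟩, he⟩ := hp
    obtain ⟨h1, h2, -⟩ := decomp s t n m (hx s hs) (hy t ht) b u v a hu hv c he
    simp only
    rw [← h1, ← h2]

theorem exists_topS {F : Type} [Field F] (x : MonoidAlgebra F S) (hx : x ≠ 0) :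
    ∃ s, x.coeff s ≠ 0 ∧ ∀ t, x.coeff t ≠ 0 → t.mid.length ≤ s.mid.length := by
  have h : x.coeff.support.Nonempty := by
    rw [Finsupp.support_nonempty_iff]
    rwa [Ne, MonoidAlgebra.coeff_eq_zero]
  obtain ⟨s, hs, hmax⟩ := Finset.exists_max_image x.coeff.support (fun s => s.mid.length) h
  refine ⟨s, Finsupp.mem_support_iff.1 hs, fun t ht => hmax t (Finsupp.mem_support_iff.2 ht)⟩

theorem noZeroDivisors {F : Type} [Field F] (h2 : (2 : F) ≠ 0) :
    NoZeroDivisors (MonoidAlgebra F S) := by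
  constructor
  intro x y hxy
  by_contra hne
  push Not at hne
  obtain ⟨s, hs, hsm⟩ := exists_topS x hne.1
  obtain ⟨t, ht, htm⟩ := exists_topS y hne.2
  have key := conv h2 (fun i => x.coeff ⟨s.b, s.mid, i⟩) (fun j => y.coeff ⟨j, t.mid, t.a⟩) (by
    intro c
    have := coeff_top x y _ _ hsm htm s.b s.mid t.mid t.a rfl rfl c
    rw [hxy] at this
    rw [← this]
    rfl)
  rcases key with h | h
  · exact hs (congrFun h s.a)
  · exact ht (congrFun h t.b)

/-- not embeddable in characteristic 7 -/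
theorem not_embed (D : Type) [DivisionRing D] (f : MonoidAlgebra (ZMod 7) S →ₙ+* D)
    (hf : Function.Injective f) : False := by
  let x : Fin 4 → Fin 3 → D := fun b a => f (MonoidAlgebra.single ⟨b, [], a⟩ 1)
  have hx0 : ∀ b a, x b a ≠ 0 := by
    intro b a h
    have h1 : MonoidAlgebra.single (⟨b, [], a⟩ : S) (1 : ZMod 7) = 0 := hf (by rw [map_zero]; exact h)
    rw [MonoidAlgebra.single_eq_zero] at h1
    exact absurd h1 (by decide)
  have hmul : ∀ b a b' a' c c', ad a b' = ad c c' → x b a * x b' a' = x b c * x c' a' := by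
    intro b a b' a' c c' h
    simp only [x, ← map_mul, MonoidAlgebra.single_mul_single, mul_def, h]
  have h7 : (7 : D) = 0 := by
    have h1 : (7 : ℕ) • x 0 0 = 0 := by
      simp only [x]
      rw [← map_nsmul]
      have : (7 : ℕ) • MonoidAlgebra.single (⟨0, [], 0⟩ : S) (1 : ZMod 7) = 0 := by
        rw [MonoidAlgebra.smul_single]
        have : (7 : ℕ) • (1 : ZMod 7) = 0 := by decide
        rw [this, MonoidAlgebra.single_zero]
      rw [this, map_zero]
    rw [nsmul_eq_mul] at h1
    exact_mod_cast (mul_eq_zero.1 h1).resolve_right (hx0 0 0)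
  -- names
  set y := x 0 0 with hy
  have hy0 : y ≠ 0 := hx0 0 0
  set l := y⁻¹ * x 0 1 with hl
  have e1 : x 0 1 = y * l := by rw [hl, ← mul_assoc, mul_inv_cancel₀ hy0, one_mul]
  -- x_{b,0} = β_b * y
  have r1 : x 0 1 * x 0 0 = x 0 0 * x 1 0 := hmul 0 1 0 0 0 1 (by decide)
  have r2 : x 0 1 * x 1 0 = x 0 0 * x 2 0 := hmul 0 1 1 0 0 2 (by decide)
  have r3 : x 0 1 * x 2 0 = x 0 2 * x 0 0 := hmul 0 1 2 0 2 0 (by decide)
  have r4 : x 0 2 * x 1 0 = x 0 0 * x 3 0 := hmul 0 2 1 0 0 3 (by decide)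
  have r5 : x 0 2 * x 3 0 = x 0 0 * x 0 0 := hmul 0 2 3 0 0 0 (by decide)
  rw [← hy] at r1 r2 r3 r4 r5
  have b1 : x 1 0 = l * y := by
    apply mul_left_cancel₀ hy0
    rw [← r1, e1]
    simp only [mul_assoc]
  have b2 : x 2 0 = l ^ 2 * y := by
    apply mul_left_cancel₀ hy0
    rw [← r2, e1, b1]
    simp only [mul_assoc, pow_succ, pow_zero, one_mul]
  have b3 : x 0 2 = y * l ^ 3 := by
    apply mul_right_cancel₀ hy0
    rw [← r3, e1, b2]
    simp only [mul_assoc, pow_succ, pow_zero, one_mul]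
  have b4 : x 3 0 = l ^ 4 * y := by
    apply mul_left_cancel₀ hy0
    rw [← r4, b3, b1]
    simp only [mul_assoc, pow_succ, pow_zero, one_mul]
  have b5 : l ^ 7 = 1 := by
    apply mul_left_cancel₀ hy0
    apply mul_right_cancel₀ hy0
    rw [mul_one, ← r5, b3, b4]
    simp only [mul_assoc, pow_succ, pow_zero, one_mul]
  have i1 : Fact (Nat.Prime 7) := ⟨by norm_num⟩
  have i2 : CharP D 7 := (CharP.charP_iff_prime_eq_zero (by norm_num)).2 (by exact_mod_cast h7)
  have hl1 : l = 1 := by
    have := sub_pow_char_of_commute (p := 7) (x := l) (y := 1) (Commute.one_right l)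
    rw [b5, one_pow, sub_self] at this
    exact sub_eq_zero.1 (pow_eq_zero_iff (by norm_num) |>.1 this)
  have h01 : x 0 1 = x 0 0 := by rw [e1, hl1, mul_one]
  have h02 := hf h01
  rw [MonoidAlgebra.single_left_inj (by decide)] at h02
  simp at h02

open Multiplicative

open Multiplicative

section General

variable {K : Type} [Field K] [MulSemiringAction (Multiplicative ℕ) K]

/-- skew polynomial ring -/
abbrev R (K : Type) [Field K] [MulSemiringAction (Multiplicative ℕ) K] : Type :=
  SkewMonoidAlgebra K (Multiplicative ℕ)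

/-- coefficient of `v ^ n` -/
def cf (f : R K) (n : ℕ) : K := f.coeff (ofAdd n)

theorem cf_ext {f g : R K} (h : ∀ n, cf f n = cf g n) : f = g :=
  SkewMonoidAlgebra.ext (fun a => h (toAdd a))

@[simp] theorem cf_zero (n : ℕ) : cf (0 : R K) n = 0 := rfl
@[simp] theorem cf_add (f g : R K) (n : ℕ) : cf (f + g) n = cf f n + cf g n := by
  simp [cf]
@[simp] theorem cf_sub (f g : R K) (n : ℕ) : cf (f - g) n = cf f n - cf g n := by
  simp [cf]

theorem cf_mul (f g : R K) (n : ℕ) :
    cf (f * g) n = ∑ p ∈ Finset.HasAntidiagonal.antidiagonal n, cf f p.1 * (ofAdd p.1 • cf g p.2) := by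
  classical
  unfold cf
  rw [SkewMonoidAlgebra.coeff_mul_antidiagonal_of_finset f g (ofAdd n)
    ((Finset.HasAntidiagonal.antidiagonal n).map ⟨fun p => (ofAdd p.1, ofAdd p.2), by
      intro p q h; simpa [Prod.ext_iff] using h⟩)]
  · rw [Finset.sum_map]
    rfl
  · rintro ⟨a, b⟩
    rw [Finset.mem_map]
    constructor
    · rintro ⟨⟨i, j⟩, h1, h2⟩
      rw [Finset.HasAntidiagonal.mem_antidiagonal] at h1
      rw [← h2, ← h1]; rfl
    · intro h
      exact ⟨(toAdd a, toAdd b), Finset.HasAntidiagonal.mem_antidiagonal.2 (congrArg toAdd h), rfl⟩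

theorem smul_ne (n : Multiplicative ℕ) {x : K} (hx : x ≠ 0) : n • x ≠ 0 := by
  intro h
  have h1 : n • (x * x⁻¹) = 0 := by rw [smul_mul', h, zero_mul]
  rw [mul_inv_cancel₀ hx, smul_one] at h1
  exact one_ne_zero h1

theorem exists_top (f : R K) (hf : f ≠ 0) : ∃ n, cf f n ≠ 0 ∧ ∀ m, n < m → cf f m = 0 := by
  have h : f.support.Nonempty := by
    rw [Finset.nonempty_iff_ne_empty]
    rwa [Ne, SkewMonoidAlgebra.support_eq_empty]
  obtain ⟨s, hs, hmax⟩ := Finset.exists_max_image f.support (fun s => toAdd s) h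
  refine ⟨toAdd s, SkewMonoidAlgebra.mem_support_iff.1 hs, fun m hm => ?_⟩
  by_contra hne
  have := hmax (ofAdd m) (SkewMonoidAlgebra.mem_support_iff.2 hne)
  rw [toAdd_ofAdd] at this
  omega

theorem cf_mul_top (f g : R K) (n m : ℕ) (hf : ∀ k, n < k → cf f k = 0)
    (hg : ∀ k, m < k → cf g k = 0) :
    cf (f * g) (n + m) = cf f n * (ofAdd n • cf g m) := by
  rw [cf_mul, Finset.sum_eq_single (n, m)]
  · rintro ⟨i, j⟩ hij hne
    simp only [Finset.HasAntidiagonal.mem_antidiagonal] at hij
    by_cases h : n < i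
    · rw [hf i h, zero_mul]
    · have : m < j := by
        by_contra h2
        apply hne
        ext <;> simp <;> omega
      rw [hg j this, smul_zero, mul_zero]
  · intro h
    simp at h

theorem cf_mul_gt (f g : R K) (n m : ℕ) (hf : ∀ k, n < k → cf f k = 0)
    (hg : ∀ k, m < k → cf g k = 0) (k : ℕ) (hk : n + m < k) :
    cf (f * g) k = 0 := by
  rw [cf_mul]
  apply Finset.sum_eq_zero
  rintro ⟨i, j⟩ hij
  simp only [Finset.HasAntidiagonal.mem_antidiagonal] at hij
  by_cases h : n < i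
  · rw [hf i h, zero_mul]
  · rw [hg j (by omega), smul_zero, mul_zero]

instance : NoZeroDivisors (R K) where
  eq_zero_or_eq_zero_of_mul_eq_zero := by
    intro f g h
    by_contra hne
    push Not at hne
    obtain ⟨n, hn, hn'⟩ := exists_top f hne.1
    obtain ⟨m, hm, hm'⟩ := exists_top g hne.2
    have := cf_mul_top f g n m hn' hm'
    rw [h, cf_zero] at this
    exact mul_ne_zero hn (smul_ne _ hm) this.symm

instance : Nontrivial (R K) := by
  refine ⟨⟨0, 1, fun h => ?_⟩⟩
  have := congrArg (fun f => SkewMonoidAlgebra.coeff f 1) h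
  simp at this

/-- the monomial `a v ^ n` -/
noncomputable def mono (n : ℕ) (a : K) : R K := SkewMonoidAlgebra.single (ofAdd n) a

theorem cf_mono (n : ℕ) (a : K) (m : ℕ) : cf (mono n a) m = if n = m then a else 0 := by
  classical
  unfold cf mono
  rw [SkewMonoidAlgebra.coeff_single_apply]
  simp

theorem mono_mul_mono (n m : ℕ) (a b : K) : mono n a * mono m b = mono (n + m) (a * (ofAdd n • b)) := by
  unfold mono
  rw [SkewMonoidAlgebra.single_mul_single]
  rfl

theorem ore_aux : ∀ (N : ℕ) (a b : R K) (n m : ℕ), n + m ≤ N → (∀ k, n < k → cf a k = 0) →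
    (∀ k, m < k → cf b k = 0) → a ≠ 0 → b ≠ 0 → ∃ x y : R K, x ≠ 0 ∧ y ≠ 0 ∧ x * a = y * b := by
  intro N
  induction N using Nat.strong_induction_on with
  | _ N ih =>
  -- the case m ≤ n
  have main : ∀ (a b : R K) (n m : ℕ), m ≤ n → n + m ≤ N → (∀ k, n < k → cf a k = 0) →
    (∀ k, m < k → cf b k = 0) → a ≠ 0 → b ≠ 0 → ∃ x y : R K, x ≠ 0 ∧ y ≠ 0 ∧ x * a = y * b := by
    intro a b n m hmn hN ha hb ha0 hb0
    obtain ⟨n', hn1, hn2⟩ := exists_top a ha0
    obtain ⟨m', hm1, hm2⟩ := exists_top b hb0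
    have hn' : n' ≤ n := by
      by_contra h
      exact hn1 (ha n' (by omega))
    have hm' : m' ≤ m := by
      by_contra h
      exact hm1 (hb m' (by omega))
    by_cases hlt : n' + m' < N
    · exact ih (n' + m') hlt a b n' m' le_rfl hn2 hm2 ha0 hb0
    have e1 : n' = n := by omega
    have e2 : m' = m := by omega
    have e3 : n + m = N := by omega
    subst e1 e2
    -- leading terms cancel
    set q : R K := mono (n' - m') (cf a n' * (ofAdd (n' - m') • cf b m')⁻¹) with hq
    have hs : (ofAdd (n' - m') • cf b m') ≠ 0 := smul_ne _ hm1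
    have hqtop : ∀ k, n' - m' < k → cf q k = 0 := by
      intro k hk
      rw [hq, cf_mono, if_neg (by omega)]
    have hqb : cf (q * b) n' = cf a n' := by
      have h1 := cf_mul_top q b (n' - m') m' hqtop hm2
      rw [Nat.sub_add_cancel hmn] at h1
      rw [h1, hq, cf_mono, if_pos rfl, mul_assoc, inv_mul_cancel₀ hs, mul_one]
    set c : R K := a - q * b with hc
    have hctop : ∀ k, n' ≤ k → cf c k = 0 := by
      intro k hk
      rcases Nat.lt_or_eq_of_le hk with h | h
      · rw [hc, cf_sub, hn2 k h, cf_mul_gt q b (n' - m') m' hqtop hm2 k (by omega), sub_zero]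
      · rw [← h, hc, cf_sub, hqb, sub_self]
    by_cases hc0 : c = 0
    · have h1 : a = q * b := sub_eq_zero.1 hc0
      refine ⟨1, q, one_ne_zero, ?_, ?_⟩
      · rintro h2
        apply ha0
        rw [h1, h2, zero_mul]
      · rw [one_mul, h1]
    · have hpos : 0 < n' := by
        by_contra h
        apply hc0
        apply cf_ext
        intro k
        rw [hctop k (by omega), cf_zero]
      obtain ⟨x, y, hx, hy, hxy⟩ := ih (n' - 1 + m') (by omega) c b (n' - 1) m' le_rfl
        (fun k hk => hctop k (by omega)) hm2 hc0 hb0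
      refine ⟨x, x * q + y, hx, ?_, ?_⟩
      · intro h2
        have h3 : x * a = 0 := by
          have : x * a = (x * q + y) * b := by
            rw [add_mul, ← hxy, hc, mul_sub, ← mul_assoc]
            abel
          rw [this, h2, zero_mul]
        rcases mul_eq_zero.1 h3 with h | h
        · exact hx h
        · exact ha0 h
      · rw [add_mul, ← hxy, hc, mul_sub, ← mul_assoc]
        abel
  intro a b n m hN ha hb ha0 hb0
  rcases le_total m n with h | h
  · exact main a b n m h hN ha hb ha0 hb0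
  · obtain ⟨x, y, hx, hy, hxy⟩ := main b a m n h (by omega) hb ha hb0 ha0
    exact ⟨y, x, hy, hx, hxy.symm⟩

theorem ore_nonempty : Nonempty (OreLocalization.OreSet (nonZeroDivisors (R K))) := by
  rw [OreLocalization.nonempty_oreSet_iff_of_noZeroDivisors]
  intro r s
  by_cases hr : r = 0
  · exact ⟨0, 1, by simp [hr]⟩
  · have hs : (s : R K) ≠ 0 := nonZeroDivisors.coe_ne_zero s
    obtain ⟨n, -, hn⟩ := exists_top r hr
    obtain ⟨m, -, hm⟩ := exists_top (s : R K) hs
    obtain ⟨x, y, hx, hy, hxy⟩ := ore_aux (n + m) r s n m le_rfl hn hm hr hs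
    exact ⟨y, ⟨x, mem_nonZeroDivisors_of_ne_zero hx⟩, hxy⟩

theorem exists_div : ∃ (D : Type) (_ : DivisionRing D) (f : R K →+* D), Function.Injective f := by
  classical
  have h := ore_nonempty (K := K)
  let i1 : OreLocalization.OreSet (nonZeroDivisors (R K)) := h.some
  let i2 : DivisionRing (OreLocalization (nonZeroDivisors (R K)) (R K)) := inferInstance
  exact ⟨OreLocalization (nonZeroDivisors (R K)) (R K), i2, OreLocalization.numeratorRingHom,
    OreLocalization.numeratorHom_inj (fun x hx => hx.1)⟩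

end General


/-! ### the concrete skew polynomial ring -/

section Concrete

open Polynomial

variable (E K : Type) [Field E] [Field K] [Algebra E K] [CharP E 3] [CharP K 3]

instance : Fact (Nat.Prime 3) := ⟨by norm_num⟩

/-- the Frobenius action -/
@[reducible] def frobAct : MulSemiringAction (Multiplicative ℕ) K where
  smul n x := x ^ (3 ^ (toAdd n))
  one_smul x := by
    show x ^ (3 ^ 0) = x
    simp
  mul_smul m n x := by
    show x ^ (3 ^ (toAdd m + toAdd n)) = (x ^ (3 ^ (toAdd n))) ^ (3 ^ (toAdd m))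
    rw [← pow_mul, pow_add, mul_comm]
  smul_zero n := by
    show (0 : K) ^ (3 ^ (toAdd n)) = 0
    exact zero_pow (by positivity)
  smul_add n x y := by
    show (x + y) ^ (3 ^ (toAdd n)) = x ^ (3 ^ (toAdd n)) + y ^ (3 ^ (toAdd n))
    exact add_pow_char_pow x y 3 _
  smul_one n := one_pow _
  smul_mul n x y := mul_pow _ _ _

attribute [local instance] frobAct

variable {E K}

theorem smul_K (n : ℕ) (x : K) : ofAdd n • x = x ^ (3 ^ n) := rfl

noncomputable def v : R K := mono 1 1
noncomputable def w (t : K) : R K := mono 1 t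

theorem cf_mono_mul (n : ℕ) (a : K) (f : R K) (m : ℕ) :
    cf (mono n a * f) (n + m) = a * (ofAdd n • cf f m) := by
  rw [cf_mul, Finset.sum_eq_single (n, m)]
  · rw [cf_mono, if_pos rfl]
  · rintro ⟨i, j⟩ hij hne
    rw [Finset.HasAntidiagonal.mem_antidiagonal] at hij
    rw [cf_mono, if_neg, zero_mul]
    rintro rfl
    apply hne
    simp only at hij
    ext
    · rfl
    · simp only; omega
  · intro h
    simp at h

theorem cf_mono_mul_lt (n : ℕ) (a : K) (f : R K) (m : ℕ) (h : m < n) :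
    cf (mono n a * f) m = 0 := by
  rw [cf_mul]
  apply Finset.sum_eq_zero
  rintro ⟨i, j⟩ hij
  rw [Finset.HasAntidiagonal.mem_antidiagonal] at hij
  simp only at hij
  rw [cf_mono, if_neg (by omega), zero_mul]

theorem step_indep {t : K} (ht : ∀ x : K, x ^ 3 ≠ t) (u u' : R K) (h : v * u + w t * u' = 0) :
    u = 0 ∧ u' = 0 := by
  have hu' : u' = 0 := by
    apply cf_ext
    intro n
    have h1 := congrArg (fun f => cf f (1 + n)) h
    simp only [cf_add, v, w, cf_mono_mul, smul_K, pow_one, one_mul, cf_zero] at h1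
    by_contra hne
    rw [cf_zero] at hne
    apply ht (-(cf u n) / cf u' n)
    rw [div_pow, div_eq_iff (pow_ne_zero _ hne)]
    linear_combination -h1
  refine ⟨?_, hu'⟩
  rw [hu', mul_zero, add_zero] at h
  apply cf_ext
  intro n
  have h1 := congrArg (fun f => cf f (1 + n)) h
  simp only [v, cf_mono_mul, smul_K, pow_one, one_mul, cf_zero] at h1
  rw [cf_zero]
  exact pow_eq_zero_iff (three_ne_zero) |>.1 h1

theorem right_indep {t : K} (ht : ∀ x : K, x ^ 3 ≠ t) : ∀ (k : ℕ) (u : ℕ → R K),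
    ∑ j ∈ Finset.range k, v ^ j * (w t * u j) = 0 → ∀ j, j < k → u j = 0 := by
  intro k
  induction k with
  | zero => intro u _ j hj; omega
  | succ k ih =>
    intro u h j hj
    rw [Finset.sum_range_succ'] at h
    have h2 : v * (∑ j ∈ Finset.range k, v ^ j * (w t * u (j + 1))) + w t * u 0 = 0 := by
      rw [← h, Finset.mul_sum, pow_zero, one_mul]
      congr 1
      apply Finset.sum_congr rfl
      intro i _
      rw [pow_succ', mul_assoc]
    obtain ⟨h3, h4⟩ := step_indep ht _ _ h2
    rcases Nat.eq_zero_or_pos j with rfl | hpos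
    · exact h4
    · obtain ⟨i, rfl⟩ : ∃ i, j = i + 1 := ⟨j - 1, by omega⟩
      exact ih (fun j => u (j + 1)) h3 i (by omega)

variable (K) in
/-- scalars of `E` -/
noncomputable def C : E →+* R K where
  toFun a := mono 0 (algebraMap E K a)
  map_one' := by
    rw [map_one]; rfl
  map_mul' a b := by
    rw [mono_mul_mono, map_mul, smul_K]
    simp
  map_zero' := by
    apply cf_ext; intro n; rw [cf_mono]; simp
  map_add' a b := by
    apply cf_ext; intro n; rw [cf_add, cf_mono, cf_mono, cf_mono, map_add]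
    split_ifs <;> simp

theorem C_def (a : E) : C K a = mono 0 (algebraMap E K a) := rfl

theorem v_mul_C (a : E) : v * C K a = C K (a ^ 3) * v := by
  rw [C_def, C_def, v, mono_mul_mono, mono_mul_mono, smul_K, smul_K]
  simp

theorem w_mul_C (t : K) (a : E) : w t * C K a = C K (a ^ 3) * w t := by
  rw [C_def, C_def, w, mono_mul_mono, mono_mul_mono, smul_K, smul_K]
  simp [mul_comm]

theorem vpow_mul_C (j : ℕ) (a : E) : v ^ j * C K a = C K (a ^ (3 ^ j)) * v ^ j := by
  induction j generalizing a with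
  | zero => simp
  | succ j ih =>
    rw [pow_succ, mul_assoc, v_mul_C, ← mul_assoc, ih, mul_assoc, ← pow_mul]
    congr 3
    ring

theorem vw_mul_C (t : K) (j : ℕ) (a : E) :
    v ^ j * (w t * C K a) = C K (a ^ (3 ^ (j + 1))) * (v ^ j * w t) := by
  rw [w_mul_C, ← mul_assoc, vpow_mul_C, mul_assoc, ← pow_mul]
  congr 3
  ring

theorem vander {γ : E} (hγ : IsPrimitiveRoot γ 7) (α : Fin 6 → E)
    (h : ∀ j, j < 6 → ∑ e : Fin 6, α e * γ ^ ((e : ℕ) * 3 ^ (j + 1)) = 0) :
    α = 0 := by
  apply Matrix.eq_zero_of_forall_index_sum_mul_pow_eq_zero (f := fun j : Fin 6 => γ ^ (3 ^ ((j : ℕ) + 1)))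
  · intro i j hij
    simp only at hij
    have h1 : ∀ n : ℕ, γ ^ n = γ ^ (n % 7) := by
      intro n
      conv_lhs => rw [← Nat.mod_add_div n 7, pow_add, pow_mul, hγ.pow_eq_one, one_pow, mul_one]
    rw [h1, h1 (3 ^ ((j : ℕ) + 1))] at hij
    have h2 := hγ.pow_inj (Nat.mod_lt _ (by norm_num)) (Nat.mod_lt _ (by norm_num)) hij
    clear hij
    revert h2
    revert i j
    decide
  · intro j
    rw [← h j j.2]
    apply Finset.sum_congr rfl
    intro i _
    rw [← pow_mul]
    congr 2
    ring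

/-- `X₀` -/
noncomputable def X0 (t : K) : R K := ∑ j ∈ Finset.range 6, v ^ j * w t

noncomputable def zz (t : K) (γ : E) : List (Fin 6) → R K
  | [] => 1
  | e :: L => X0 t * (C K (γ ^ (e : ℕ)) * zz t γ L)

/-- lists of length at most `n` -/
def Ls : ℕ → Finset (List (Fin 6))
  | 0 => {[]}
  | n + 1 => insert [] ((Finset.univ ×ˢ Ls n).image (fun p : Fin 6 × List (Fin 6) => p.1 :: p.2))

theorem sum_Ls {M : Type} [AddCommMonoid M] (n : ℕ) (g : List (Fin 6) → M) :
    ∑ L ∈ Ls (n + 1), g L = g [] + ∑ e : Fin 6, ∑ L ∈ Ls n, g (e :: L) := by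
  rw [Ls, Finset.sum_insert, Finset.sum_image, Finset.sum_product]
  · rintro ⟨a, b⟩ _ ⟨c, d⟩ _ h
    simpa using h
  · simp

theorem mem_Ls (n : ℕ) (L : List (Fin 6)) (h : L.length ≤ n) : L ∈ Ls n := by
  induction n generalizing L with
  | zero =>
    have : L = [] := List.length_eq_zero_iff.1 (by omega)
    simp [Ls, this]
  | succ n ih =>
    cases L with
    | nil => simp [Ls]
    | cons e L =>
      simp only [Ls, Finset.mem_insert, Finset.mem_image, Finset.mem_product, Finset.mem_univ,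
        true_and]
      right
      exact ⟨(e, L), ih L (by simpa using h), rfl⟩

theorem zz_indep [IsAlgClosed E] {t : K} (ht : ∀ x : K, x ^ 3 ≠ t) {γ : E}
    (hγ : IsPrimitiveRoot γ 7) : ∀ (n : ℕ) (α : List (Fin 6) → E),
    ∑ L ∈ Ls n, C K (α L) * zz t γ L = 0 → ∀ L ∈ Ls n, α L = 0 := by
  have hC : Function.Injective (C (E := E) K) := RingHom.injective _
  intro n
  induction n with
  | zero =>
    intro α h L hL
    simp only [Ls, Finset.mem_singleton] at hL
    subst hL
    simp only [Ls, Finset.sum_singleton, zz, mul_one] at h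
    exact hC (by rw [h, map_zero])
  | succ n ih =>
    intro α h
    rw [sum_Ls] at h
    -- roots
    have hr : ∀ (a : E) (j : ℕ), ∃ b : E, b ^ (3 ^ (j + 1)) = a := fun a j =>
      IsAlgClosed.exists_pow_nat_eq a (by positivity)
    choose r hr using hr
    set u : ℕ → R K := fun j => ∑ L ∈ Ls n, C K (∑ e : Fin 6, r (α (e :: L)) j * γ ^ (e : ℕ)) * zz t γ L
      with hu
    have h1 : ∑ e : Fin 6, ∑ L ∈ Ls n, C K (α (e :: L)) * zz t γ (e :: L) =
        ∑ j ∈ Finset.range 6, v ^ j * (w t * u j) := by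
      have h2 : ∀ e L, C K (α (e :: L)) * zz t γ (e :: L) =
          ∑ j ∈ Finset.range 6, v ^ j * (w t * (C K (r (α (e :: L)) j * γ ^ (e : ℕ)) * zz t γ L)) := by
        intro e L
        rw [zz, X0, Finset.sum_mul, Finset.mul_sum]
        apply Finset.sum_congr rfl
        intro j _
        rw [map_mul]
        have h3 := vw_mul_C t j (r (α (e :: L)) j)
        rw [hr] at h3
        rw [← mul_assoc (C K (α (e :: L))), ← h3]
        simp only [mul_assoc]
      simp only [h2]
      rw [Finset.sum_comm]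
      have h4 : ∀ L ∈ Ls n, ∑ e : Fin 6, ∑ j ∈ Finset.range 6,
          v ^ j * (w t * (C K (r (α (e :: L)) j * γ ^ (e : ℕ)) * zz t γ L)) =
          ∑ j ∈ Finset.range 6, v ^ j * (w t * (C K (∑ e : Fin 6, r (α (e :: L)) j * γ ^ (e : ℕ)) * zz t γ L)) := by
        intro L _
        rw [Finset.sum_comm]
        apply Finset.sum_congr rfl
        intro j _
        rw [map_sum, Finset.sum_mul, Finset.mul_sum, Finset.mul_sum]
      rw [Finset.sum_congr rfl h4, Finset.sum_comm]
      apply Finset.sum_congr rfl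
      intro j _
      rw [hu]
      simp only
      rw [Finset.mul_sum, Finset.mul_sum]
    rw [h1] at h
    have h5 : α [] = 0 := by
      have h6 := congrArg (fun f => cf f 0) h
      simp only [cf_add, zz, mul_one, cf_zero] at h6
      have h7 : cf (∑ j ∈ Finset.range 6, v ^ j * (w t * u j)) 0 = 0 := by
        have h8 : ∑ j ∈ Finset.range 6, v ^ j * (w t * u j) =
            w t * u 0 + v * (∑ j ∈ Finset.range 5, v ^ j * (w t * u (j + 1))) := by
          rw [Finset.sum_range_succ', add_comm, pow_zero, one_mul]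
          congr 1
          rw [Finset.mul_sum]
          apply Finset.sum_congr rfl
          intro i _
          rw [pow_succ', mul_assoc]
        rw [h8, cf_add, w, v, cf_mono_mul_lt _ _ _ _ (by norm_num), cf_mono_mul_lt _ _ _ _ (by norm_num),
          add_zero]
      rw [h7, add_zero, C_def, cf_mono, if_pos rfl] at h6
      exact (algebraMap E K).injective (by rw [h6, map_zero])
    have h9 : ∑ j ∈ Finset.range 6, v ^ j * (w t * u j) = 0 := by
      rw [h5, map_zero, zero_mul, zero_add] at h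
      exact h
    have h10 := right_indep ht 6 u h9
    have h11 : ∀ L ∈ Ls n, (fun e => α (e :: L)) = 0 := by
      intro L hL
      apply vander hγ
      intro j hj
      have h12 := ih _ (h10 j hj) L hL
      have h13 := congrArg (fun x => x ^ (3 ^ (j + 1))) h12
      rw [sum_pow_char_pow, zero_pow (by positivity)] at h13
      rw [← h13]
      apply Finset.sum_congr rfl
      intro e _
      rw [mul_pow, hr, ← pow_mul]
    intro L hL
    rw [Ls, Finset.mem_insert, Finset.mem_image] at hL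
    rcases hL with rfl | ⟨⟨e, L'⟩, hL', rfl⟩
    · exact h5
    · rw [Finset.mem_product] at hL'
      exact congrFun (h11 L' hL'.2) e


theorem zz_append (t : K) (γ : E) (L L' : List (Fin 6)) :
    zz t γ (L ++ L') = zz t γ L * zz t γ L' := by
  induction L with
  | nil => simp [zz]
  | cons e L ih => simp only [List.cons_append, zz, ih, mul_assoc]

def be : Fin 4 → Fin 6 := ![0, 1, 2, 4]
def al : Fin 3 → Fin 6 := ![0, 1, 3]

theorem ad_mod : ∀ (a : Fin 3) (b : Fin 4), ((al a : ℕ) + (be b : ℕ)) % 7 = (ad a b : ℕ) := by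
  decide

theorem γ_ad {γ : E} (hγ : IsPrimitiveRoot γ 7) (a : Fin 3) (b : Fin 4) :
    γ ^ (al a : ℕ) * γ ^ (be b : ℕ) = γ ^ (ad a b : ℕ) := by
  rw [← pow_add, ← ad_mod a b]
  conv_lhs => rw [← Nat.mod_add_div ((al a : ℕ) + (be b : ℕ)) 7, pow_add, pow_mul, hγ.pow_eq_one,
    one_pow, mul_one]

noncomputable def Psi (t : K) {γ : E} (hγ : IsPrimitiveRoot γ 7) : S →ₙ* R K where
  toFun s := C K (γ ^ (be s.b : ℕ)) * zz t γ (s.mid ++ [al s.a])
  map_mul' s s' := by
    have h1 : C K (γ ^ (al s.a : ℕ)) * C K (γ ^ (be s'.b : ℕ)) = C K (γ ^ (ad s.a s'.b : ℕ)) := by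
      rw [← map_mul, γ_ad hγ]
    simp only [mul_def, List.append_assoc, List.cons_append, zz_append, zz, mul_one]
    rw [← h1]
    simp only [mul_assoc]

theorem Psi_apply (t : K) {γ : E} (hγ : IsPrimitiveRoot γ 7) (s : S) :
    Psi t hγ s = C K (γ ^ (be s.b : ℕ)) * zz t γ (s.mid ++ [al s.a]) := rfl

variable (E K) in
noncomputable def scal : ZMod 3 →+* R K := (C K).comp (ZMod.castHom (dvd_refl 3) E)

theorem scal_comm (c : ZMod 3) (x : R K) : Commute (scal E K c) x := by
  have h : c = ((c.val : ℕ) : ZMod 3) := (ZMod.natCast_zmod_val c).symm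
  rw [h, map_natCast]
  exact Nat.cast_commute _ _

noncomputable def emb (t : K) {γ : E} (hγ : IsPrimitiveRoot γ 7) :
    MonoidAlgebra (ZMod 3) S →ₙ+* R K where
  toFun := MonoidAlgebra.liftNC (scal E K : ZMod 3 →+ R K) (Psi t hγ)
  map_mul' x y := MonoidAlgebra.liftNC_mul (scal E K) (Psi t hγ) x y (fun _ => scal_comm _ _)
  map_zero' := map_zero _
  map_add' := map_add _

def gg (s : S) : Fin 6 × List (Fin 6) := (be s.b, s.mid ++ [al s.a])

theorem gg_inj : Function.Injective gg := by
  have h1 : Function.Injective be := by decide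
  have h2 : Function.Injective al := by decide
  intro s s' h
  simp only [gg, Prod.mk.injEq] at h
  obtain ⟨h3, h4⟩ := h
  have h5 := List.append_inj' h4 rfl
  ext1
  · exact h1 h3
  · exact h5.1
  · exact h2 (by simpa using h5.2)

theorem emb_inj [IsAlgClosed E] {t : K} (ht : ∀ x : K, x ^ 3 ≠ t) {γ : E}
    (hγ : IsPrimitiveRoot γ 7) : Function.Injective (emb t hγ) := by
  rw [injective_iff_map_eq_zero]
  intro x hx
  have hx1 : x.coeff.sum (fun s a => scal E K a * Psi t hγ s) = 0 := hx
  set y := x.coeff.mapDomain gg with hy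
  have hy1 : y.sum (fun p a => scal E K a * (C K (γ ^ (p.1 : ℕ)) * zz t γ p.2)) = 0 := by
    rw [hy, Finsupp.sum_mapDomain_index]
    · exact hx1
    · intro p; rw [map_zero, zero_mul]
    · intro p a b; rw [map_add, add_mul]
  set n := y.support.sup (fun p => p.2.length) with hn
  have hsub : y.support ⊆ Finset.univ ×ˢ Ls n := by
    intro p hp
    rw [Finset.mem_product]
    refine ⟨Finset.mem_univ _, mem_Ls n p.2 ?_⟩
    exact Finset.le_sup (f := fun p : Fin 6 × List (Fin 6) => p.2.length) hp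
  rw [Finsupp.sum_of_support_subset y hsub _ (by intro p _; rw [map_zero, zero_mul]),
    Finset.sum_product_right] at hy1
  have hy2 : ∑ L ∈ Ls n, C K (∑ e : Fin 6, (ZMod.castHom (dvd_refl 3) E) (y (e, L)) * γ ^ (e : ℕ)) *
      zz t γ L = 0 := by
    rw [← hy1]
    apply Finset.sum_congr rfl
    intro L _
    rw [map_sum, Finset.sum_mul]
    apply Finset.sum_congr rfl
    intro e _
    rw [map_mul, mul_assoc]
    rfl
  have hy3 := zz_indep ht hγ n _ hy2
  have hy0 : y = 0 := by
    ext p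
    by_cases hp : p ∈ y.support
    · have hpL := (Finset.mem_product.1 (hsub hp)).2
      have h1 := hy3 p.2 hpL
      have h2 : (fun e : Fin 6 => (ZMod.castHom (dvd_refl 3) E) (y (e, p.2))) = 0 := by
        apply vander hγ
        intro j hj
        have h13 := congrArg (fun x => x ^ (3 ^ (j + 1))) h1
        rw [sum_pow_char_pow, zero_pow (by positivity)] at h13
        rw [← h13]
        apply Finset.sum_congr rfl
        intro e _
        rw [mul_pow, ← map_pow, ZMod.pow_card_pow, ← pow_mul]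
      have h3 := congrFun h2 p.1
      simp only [Pi.zero_apply] at h3
      apply (ZMod.castHom (dvd_refl 3) E).injective
      rw [Finsupp.coe_zero, Pi.zero_apply, map_zero]
      exact h3
    · simpa using hp
  have hx0 : x.coeff = 0 := by
    apply Finsupp.mapDomain_injective gg_inj
    rw [← hy, hy0, Finsupp.mapDomain_zero]
  exact MonoidAlgebra.coeff_eq_zero.1 hx0

end Concrete

section Final

open Polynomial

instance : CharP (FractionRing (AlgebraicClosure (ZMod 3))[X]) 3 :=
  charP_of_injective_algebraMap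
    (FaithfulSMul.algebraMap_injective (AlgebraicClosure (ZMod 3)) _) 3

theorem X_not_cube (F : Type) [Field F] (x : FractionRing F[X]) :
    x ^ 3 ≠ algebraMap F[X] (FractionRing F[X]) X := by
  intro h
  obtain ⟨p, q, hq, rfl⟩ := IsFractionRing.div_surjective (A := F[X]) x
  have hq0 : q ≠ 0 := nonZeroDivisors.ne_zero hq
  have hq1 : algebraMap F[X] (FractionRing F[X]) q ≠ 0 := by
    intro h0
    exact hq0 ((IsFractionRing.injective F[X] (FractionRing F[X])) (by rw [h0, map_zero]))
  rw [div_pow, div_eq_iff (pow_ne_zero _ hq1), ← map_pow, ← map_pow, ← map_mul] at h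
  have h2 := IsFractionRing.injective F[X] (FractionRing F[X]) h
  have h3 := congrArg natDegree h2
  rw [natDegree_pow, natDegree_mul X_ne_zero (pow_ne_zero _ hq0), natDegree_X, natDegree_pow] at h3
  omega

theorem exists_gamma : ∃ g : AlgebraicClosure (ZMod 3), IsPrimitiveRoot g 7 := by
  have h7 : ((7 : ℕ) : AlgebraicClosure (ZMod 3)) ≠ 0 := by
    rw [Ne, CharP.cast_eq_zero_iff (AlgebraicClosure (ZMod 3)) 3]
    decide
  have : NeZero ((7 : ℕ) : AlgebraicClosure (ZMod 3)) := ⟨h7⟩
  exact HasEnoughRootsOfUnity.exists_primitiveRoot (AlgebraicClosure (ZMod 3)) 7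

theorem embeds : ∃ (D : Type) (_ : DivisionRing D) (f : MonoidAlgebra (ZMod 3) S →ₙ+* D),
    Function.Injective f := by
  obtain ⟨γ, hγ⟩ := exists_gamma
  let i := frobAct (FractionRing (AlgebraicClosure (ZMod 3))[X])
  obtain ⟨D, hD, f, hf⟩ := exists_div (K := FractionRing (AlgebraicClosure (ZMod 3))[X])
  let t : FractionRing (AlgebraicClosure (ZMod 3))[X] :=
    algebraMap (AlgebraicClosure (ZMod 3))[X] (FractionRing (AlgebraicClosure (ZMod 3))[X]) X
  have ht : ∀ x, x ^ 3 ≠ t := X_not_cube (AlgebraicClosure (ZMod 3))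
  refine ⟨D, hD, f.toNonUnitalRingHom.comp (emb t hγ), ?_⟩
  exact hf.comp (emb_inj ht hγ)

theorem two3 : (2 : ZMod 3) ≠ 0 := by decide
theorem two7 : (2 : ZMod 7) ≠ 0 := by decide


end Final


/-- There is a semigroup S and fields F1, F2 such that both semigroup algebras F1[S] and F2[S] have no zero divisors, F1[S] embeds injectively into some division ring, but F2[S] embeds into no division ring. -/
theorem result :
    ∃ (S : Type) (_ : Semigroup S) (F₁ F₂ : Type) (_ : Field F₁) (_ : Field F₂),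
      NoZeroDivisors (MonoidAlgebra F₁ S) ∧ NoZeroDivisors (MonoidAlgebra F₂ S) ∧
      (∃ (D : Type) (_ : DivisionRing D) (f : MonoidAlgebra F₁ S →ₙ+* D),
          Function.Injective f) ∧
      ¬ ∃ (D : Type) (_ : DivisionRing D) (f : MonoidAlgebra F₂ S →ₙ+* D),
          Function.Injective f := by
  have i7 : Fact (Nat.Prime 7) := ⟨by norm_num⟩
  refine ⟨S, inferInstance, ZMod 3, ZMod 7, inferInstance, inferInstance,
    noZeroDivisors two3, noZeroDivisors two7, embeds, ?_⟩
  rintro ⟨D, hD, f, hf⟩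
  exact not_embed D f hf

end Pool.Agent.S01823
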