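import Pool.Statements.S01831
set_option autoImplicit false
open Pool Pool.MP_b5696c_al
open scoped commutatorElement

namespace Pool.Agent.S01831

/-- The base 64 digit number i of N. -/
def ev (N i : Nat) : Nat := (N >>> (6 * i)) % 64

/-- Table of the forty transvections of the symplectic space of dimension 4 over the field with
three elements, acting on the forty projective points. -/
def TB : Nat := 0x9c09a18c30627d57461cd6582d111c4d23176ce21640a25a3d415e8029259660240610a37c651c35a21829254478b5d064e24c5916cf1d315d0e28270279428620e47de1936c935831075411744a68e1d22d63c865515c8e00660668248809c27de34c4856475d46094c445a3dc2ce74a58854641b0e58639e00c08e49417cd29c6d11495d52146191103dd31e2ce4d61c649a8429a28029630229837cb74d15a4085d35581d26c43de28c39c2545864599e10649228c10c28607c72096da64f34e5544de71d10614c2ca4504965d89669c00c10a59a78607de75c30a2cd38f65a6d24501441935542481d85978a48c09e69648e28607d14905154ce3cd30b2892071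8511a6d975e7176160c204011396430e4a021e01d61a0c16569d41877d03cb8cd88a2518661555c26dc9c454b3a242025c7406c16026961a64df4483ca90c3634a11e51540d95de52610e8ca4601c079c0986436d654695225f3cc8a42cd84842715369705d3c99448d18532c17576d901e09655f3241501ce9a050a3489c68920dc61a2263d012285431e5c301a6dc0567ca4d28c524e9d52e094d1c69116027599cf1e448485529709c68065d0d62d47c546220e94c8132663468d079805b9e69554d410615b65a0430985d61c825245085f80c2ca8e290d38f71d7804114a48e214418304271d7985d65544cc28b7e08659e62481cf34e65b68030b28920718511e75c6da6585d68e48a69e58217d14905154ce3cd0c20407a61875a284b68495c6cc8245c854050f44305035f64a26361d16738249319d9568c884a6de1272e06625c94d401204f09134c7da9181dc1660d03959c672425684c66674481a2a35c70154c23d00d235b2df60889e16544e0549d631b1621e076125c11a8d894b05439240054235798a7c87866640d33d158a96468526078876188465898c54e0c04524c13672d771f1c66e33c25102e65858d922071e8476e41189ca3824d101050334c5e525d7c66a254f0521c82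648e26165de75c9e59841854904410c23ce34c2ca6996df8214d45409e694c28b5976228e46da6451060c10935153ce35c79d2481e17e041244069b65d79c5d858c2ca2481c61445544d24503ce3639229a796085f0c20404665dc36285b56374e4df6584a76948255903e478c00b1880c11c414224a5d294d8de85950e91c7da55842681b4d64673e274a2c02411822040c714c9d742474d85a4de3a26d47d84655606529963e370030a0861c324420504b9cd69462272049e7d198f6535e45568dd85094e6c12c524700c0840ca18835996455876045f41c6e73d45e35a24d27a198e68c14300824a0441822c76e63588d37a041275f3da9555e29145a145c9ce64508a2001cb0c430604971e7648e238d3d35546da6607e19679924505d66091c804308614428b3009e695a65b34f39e75c45049f8605544e38a45985c304228b3061441c92005544d24503ce3679a59238a181f79d71b69961758c2ca2481c61440c20408a68649608e77d97586dc5da7964143d24ce4553472c624a1483040c10029e19208e68a57de61b5da75971654f48e45441334c1891482c72840020c18639678229267d869c79765b7563d14d539049434620a3051c92c40800439a59e29238607dd71e65b6985d65135504913ce34b28c1c9206144043080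

/-- Image of the point q under the transvection with centre p. -/
def tf (p q : Nat) : Nat := ev TB (40 * p + q)

/-- Bounded universal quantifier as a Boolean. -/
def allN (f : Nat → Bool) : Nat → Bool
  | 0 => true
  | n + 1 => f n && allN f n

theorem allN_iff (f : Nat → Bool) (n : Nat) : allN f n = true ↔ ∀ i < n, f i = true := by
  induction n with
  | zero => simp [allN]
  | succ n ih =>
    simp only [allN, Bool.and_eq_true, ih]
    constructor
    · rintro ⟨h1, h2⟩ i hi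
      rcases Nat.lt_succ_iff_lt_or_eq.mp hi with h | h
      · exact h2 i h
      · exact h ▸ h1
    · intro h
      exact ⟨h n (Nat.lt_succ_self n), fun i hi => h i (Nat.lt_succ_of_lt hi)⟩

theorem ev_lt (N i : Nat) : ev N i < 64 := Nat.mod_lt _ (by norm_num)

theorem chk1 : allN (fun p => allN (fun q => Nat.blt (tf p q) 40 && Nat.beq (tf p (tf p (tf p q))) q) 40) 40 = true := by
  decide +kernel

theorem chk2 : allN (fun p => allN (fun q => allN (fun r =>
    Nat.beq (tf p (tf q r)) (tf (tf p q) (tf p r))) 40) 40) 40 = true := by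
  decide +kernel

theorem tf_lt' {p q : Nat} (hp : p < 40) (hq : q < 40) : tf p q < 40 := by
  have h := (allN_iff _ _).1 ((allN_iff _ _).1 chk1 p hp) q hq
  simp only [Bool.and_eq_true, Nat.blt_eq, Nat.beq_eq] at h
  exact h.1

theorem tf_lt (p q : Fin 40) : tf p q < 40 := tf_lt' p.2 q.2

theorem tf_cube (p q : Fin 40) : tf p (tf p (tf p q)) = q := by
  have h := (allN_iff _ _).1 ((allN_iff _ _).1 chk1 p p.2) q q.2
  simp only [Bool.and_eq_true, Nat.blt_eq, Nat.beq_eq] at h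
  exact h.2

theorem tf_quandle (p q r : Fin 40) : tf p (tf q r) = tf (tf p q) (tf p r) := by
  have h := (allN_iff _ _).1 ((allN_iff _ _).1 ((allN_iff _ _).1 chk2 p p.2) q q.2) r r.2
  simpa only [Nat.beq_eq] using h

abbrev P40 := Equiv.Perm (Fin 40)

/-- The transvection with centre p as a permutation of the forty points. -/
def tr (p : Fin 40) : P40 where
  toFun q := ⟨tf p q, tf_lt p q⟩
  invFun q := ⟨tf p (tf p q), tf_lt p ⟨tf p q, tf_lt p q⟩⟩
  left_inv q := Fin.ext (tf_cube p q)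
  right_inv q := Fin.ext (tf_cube p q)

theorem tr_val (p q : Fin 40) : ((tr p q : Fin 40) : Nat) = tf p q := rfl

theorem tr_quandle (p q r : Fin 40) : tr p (tr q r) = tr (tr p q) (tr p r) :=
  Fin.ext (tf_quandle p q r)

/-- The group generated by the transvections. -/
def G : Subgroup P40 := Subgroup.closure (Set.range tr)

theorem tr_mem (p : Fin 40) : tr p ∈ G := Subgroup.subset_closure ⟨p, rfl⟩

theorem conj_tr {g : P40} (hg : g ∈ G) : ∀ p, g * tr p = tr (g p) * g := by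
  induction hg using Subgroup.closure_induction with
  | mem x hx =>
    obtain ⟨q, rfl⟩ := hx
    intro p
    ext r
    exact congrArg Fin.val (tr_quandle q p r)
  | one => intro p; simp
  | mul x y _ _ hx hy =>
    intro p
    rw [mul_assoc, hy p, ← mul_assoc, hx, mul_assoc]
    rfl
  | inv x _ hx =>
    intro p
    have h := hx (x⁻¹ p)
    have e : x (x⁻¹ p) = p := by simp
    rw [e] at h
    calc x⁻¹ * tr p = x⁻¹ * (tr p * x) * x⁻¹ := by group
      _ = x⁻¹ * (x * tr (x⁻¹ p)) * x⁻¹ := by rw [h]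
      _ = tr (x⁻¹ p) * x⁻¹ := by group

theorem app_tr {g : P40} (hg : g ∈ G) (p q : Fin 40) : g (tr p q) = tr (g p) (g q) :=
  congrArg (fun f : P40 => f q) (conj_tr hg p)

theorem adj_iff {g : P40} (hg : g ∈ G) (p q : Fin 40) : tr (g p) (g q) = g q ↔ tr p q = q := by
  rw [← app_tr hg, g.injective.eq_iff]

/-- Closure machine on bit masks. -/
def run (tst : Nat → Nat → Nat → Bool) : List (Nat × Nat × Nat) → Nat → Nat
  | [], m => m
  | (r, a, x) :: l, m =>
    run tst l (if (Nat.testBit m x && tst m r a) = true then m ||| 2 ^ (tf r x) else m)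

theorem run_inv (tst : Nat → Nat → Nat → Bool) (S : Nat → Prop)
    (h : ∀ m r a x, (∀ i, m.testBit i = true → S i) → S x → tst m r a = true → S (tf r x)) :
    ∀ (l : List (Nat × Nat × Nat)) (m : Nat), (∀ i, m.testBit i = true → S i) →
      ∀ i, (run tst l m).testBit i = true → S i := by
  intro l
  induction l with
  | nil => intro m hm i hi; exact hm i hi
  | cons c l ih =>
    obtain ⟨r, a, x⟩ := c
    intro m hm
    simp only [run]
    split_ifs with hc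
    · apply ih
      intro i hi
      rw [Nat.testBit_or, Bool.or_eq_true] at hi
      rcases hi with hi | hi
      · exact hm i hi
      · rw [Nat.testBit_two_pow] at hi
        have : tf r x = i := by simpa using hi
        rw [← this]
        rw [Bool.and_eq_true] at hc
        exact h m r a x hm (hm x hc.1) hc.2
    · exact ih m hm

def fixSteps : List (Nat × Nat × Nat) := [(0, 0, 1), (1, 0, 0), (1, 0, 5), (5, 0, 1), (5, 0, 13), (5, 0, 2), (5, 0, 3), (13, 0, 5), (13, 0, 11), (13, 0, 8), (13, 0, 9), (13, 0, 7), (0, 0, 11), (0, 0, 36), (1, 0, 23), (1, 0, 9), (1, 0, 38), (5, 0, 36), (5, 0, 34), (5, 0, 35), (13, 0, 34), (13, 0, 35), (2, 0, 11), (2, 0, 36), (2, 0, 29), (11, 0, 23), (11, 0, 38), (11, 0, 27), (11, 0, 25), (11, 0, 30), (8, 0, 25), (8, 0, 24), (8, 0, 31), (8, 0, 21), (23, 0, 32), (9, 0, 24)]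

theorem chkFix : run (fun m r _ => Nat.testBit m r) fixSteps 8227 = 2 ^ 40 - 1 := by
  decide +kernel

theorem mask_all {S : Nat → Prop} {N : Nat} (hN : N = 2 ^ 40 - 1)
    (h : ∀ i, N.testBit i = true → S i) (i : Fin 40) : S i := by
  apply h
  rw [hN, Nat.testBit_two_pow_sub_one]
  simp

theorem fix_all {g : P40} (hg : g ∈ G) (h0 : g 0 = 0) (h1 : g 1 = 1)
    (h2 : g 5 = 5) (h3 : g 13 = 13) : g = 1 := by
  have key := run_inv (fun m r _ => Nat.testBit m r)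
    (fun y => ∃ h : y < 40, g ⟨y, h⟩ = ⟨y, h⟩) ?_ fixSteps 8227 ?_
  · ext i
    obtain ⟨_, hi⟩ := mask_all chkFix key i
    exact congrArg Fin.val hi
  · rintro m r _ x hm ⟨hx, hx'⟩ hr
    obtain ⟨hr1, hr2⟩ := hm r hr
    refine ⟨tf_lt' hr1 hx, ?_⟩
    have := app_tr hg ⟨r, hr1⟩ ⟨x, hx⟩
    rw [hr2, hx'] at this
    exact this
  · intro i hi
    have hlt : i < 40 := by
      by_contra hcon
      have : Nat.testBit 8227 i = false := by
        apply Nat.testBit_lt_two_pow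
        calc (8227 : Nat) < 2 ^ 40 := by norm_num
          _ ≤ 2 ^ i := Nat.pow_le_pow_right (by norm_num) (by omega)
      rw [this] at hi
      exact Bool.noConfusion hi
    refine ⟨hlt, ?_⟩
    have hcases : i = 0 ∨ i = 1 ∨ i = 5 ∨ i = 13 := by
      revert hi
      revert hlt
      revert i
      decide +kernel
    rcases hcases with rfl | rfl | rfl | rfl
    · exact h0
    · exact h1
    · exact h2
    · exact h3

def blkSteps : List (List (Nat × Nat × Nat)) := [[(0, 0, 1), (1, 1, 0), (5, 0, 1), (5, 0, 2), (5, 0, 3), (6, 0, 1), (6, 0, 2), (6, 0, 3), (7, 0, 2), (7, 0, 12), (13, 0, 8), (13, 0, 9), (13, 0, 7), (13, 0, 12), (13, 0, 11), (13, 0, 10), (13, 0, 6), (13, 0, 5), (14, 0, 1), (14, 0, 2), (14, 0, 3), (14, 0, 12), (14, 0, 11), (14, 0, 10), (14, 0, 5), (14, 0, 32), (14, 0, 33), (15, 0, 1), (15, 0, 2), (15, 0, 3), (15, 0, 8), (15, 0, 9), (15, 0, 7), (15, 0, 33), (16, 0, 2), (16, 0, 21), (16, 0, 25), (22, 0,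 4)],
  [(0, 0, 2), (2, 2, 0), (5, 0, 2), (5, 0, 3), (5, 0, 1), (6, 0, 2), (6, 0, 3), (6, 0, 1), (7, 0, 2), (7, 0, 12), (13, 0, 9), (13, 0, 7), (13, 0, 8), (13, 0, 11), (13, 0, 10), (13, 0, 12), (13, 0, 6), (13, 0, 5), (14, 0, 2), (14, 0, 3), (14, 0, 1), (14, 0, 11), (14, 0, 10), (14, 0, 12), (14, 0, 5), (14, 0, 32), (14, 0, 33), (15, 0, 2), (15, 0, 3), (15, 0, 1), (15, 0, 9), (15, 0, 7), (15, 0, 8), (15, 0, 33), (16, 0, 2), (16, 0, 21), (16, 0, 25), (22, 0, 4)],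
  [(0, 0, 3), (1, 0, 3), (5, 0, 3), (5, 0, 1), (5, 0, 2), (6, 0, 3), (6, 0, 1), (6, 0, 2), (7, 0, 2), (7, 0, 12), (13, 0, 7), (13, 0, 8), (13, 0, 9), (13, 0, 10), (13, 0, 12), (13, 0, 11), (13, 0, 6), (13, 0, 5), (14, 0, 3), (14, 0, 1), (14, 0, 2), (14, 0, 10), (14, 0, 12), (14, 0, 11), (14, 0, 5), (14, 0, 32), (14, 0, 33), (15, 0, 3), (15, 0, 1), (15, 0, 2), (15, 0, 7), (15, 0, 8), (15, 0, 9), (15, 0, 33), (16, 0, 2), (16, 0, 21), (16, 0, 25), (22, 0, 4)],
  [(1, 4, 0), (2, 4, 0), (3, 4, 0), (5, 0, 3), (5, 0, 1), (5, 0, 2), (6, 0, 3), (6, 0, 1), (6, 0, 2), (7, 0, 2), (7, 0, 12), (13, 0, 4), (13, 0, 7), (13, 0, 8), (13, 0, 9), (13, 0, 10), (13, 0, 12), (13, 0, 11), (13, 0, 6), (13, 0, 5), (14, 0, 3), (14, 0, 1), (14, 0, 2), (14, 0, 10), (14, 0, 12), (14, 0, 11), (14, 0, 31), (14, 0, 32), (14, 0, 33), (15, 0, 3), (15, 0, 1), (15, 0, 2), (15, 0, 7), (15, 0, 8), (15, 0, 9), (16, 0, 2), (16, 0, 21), (22, 0, 4)],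
  [(13, 0, 5), (14, 0, 5), (14, 0, 33), (15, 0, 5), (15, 0, 33), (15, 0, 31), (16, 32, 0), (16, 32, 5), (16, 32, 33), (16, 32, 31), (16, 32, 22), (16, 32, 23), (17, 32, 0), (17, 32, 5), (17, 32, 33), (17, 32, 31), (17, 32, 22), (17, 32, 23), (17, 32, 26), (18, 32, 0), (18, 32, 5), (18, 32, 33), (18, 32, 31), (18, 32, 22), (18, 32, 23), (18, 32, 4), (19, 5, 0), (19, 5, 24), (19, 5, 18), (19, 5, 38), (19, 5, 17), (19, 5, 7), (20, 5, 0), (20, 5, 17), (21, 5, 0), (21, 5, 16), (22, 0, 4), (22, 0, 6)],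
  [(13, 0, 6), (14, 0, 6), (14, 0, 32), (15, 0, 6), (15, 0, 32), (15, 0, 33), (16, 6, 0), (16, 6, 33), (16, 6, 23), (16, 6, 31), (16, 6, 22), (17, 6, 0), (17, 6, 33), (17, 6, 23), (17, 6, 31), (17, 6, 22), (18, 6, 0), (18, 6, 33), (18, 6, 23), (18, 6, 31), (18, 6, 22), (19, 6, 0), (19, 6, 31), (19, 6, 24), (19, 6, 18), (19, 6, 28), (19, 6, 12), (19, 6, 17), (19, 6, 7), (20, 6, 0), (20, 6, 10), (20, 6, 9), (20, 6, 17), (21, 6, 0), (21, 6, 16), (22, 0, 6), (22, 0, 32), (22, 0, 4)],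
  [(0, 0, 7), (1, 7, 0), (1, 7, 8), (2, 8, 0), (2, 8, 7), (2, 8, 5), (3, 7, 0), (3, 7, 5), (3, 7, 10), (5, 0, 2), (13, 0, 7), (13, 0, 8), (13, 0, 5), (13, 0, 11), (13, 0, 10), (13, 0, 12), (13, 0, 6), (13, 0, 9), (14, 0, 3), (14, 0, 5), (14, 0, 1), (14, 0, 11), (14, 0, 10), (14, 0, 2), (14, 0, 12), (14, 0, 33), (14, 0, 32), (15, 0, 7), (15, 0, 8), (15, 0, 3), (15, 0, 1), (15, 0, 2), (15, 0, 9), (15, 0, 33), (16, 0, 2), (16, 0, 25), (16, 0, 21), (22, 0, 4)],
  [(0, 0, 8), (2, 8, 0), (2, 8, 9), (3, 9, 0), (3, 9, 8), (3, 9, 5), (5, 0, 8), (5, 0, 12), (6, 0, 11), (7, 0, 2), (13, 0, 8), (13, 0, 9), (13, 0, 5), (13, 0, 10), (13, 0, 12), (13, 0, 11), (13, 0, 7), (13, 0, 6), (14, 0, 1), (14, 0, 5), (14, 0, 2), (14, 0, 10), (14, 0, 12), (14, 0, 11), (14, 0, 3), (14, 0, 33), (14, 0, 32), (15, 0, 8), (15, 0, 9), (15, 0, 1), (15, 0, 2), (15, 0, 3), (15, 0, 7), (15, 0, 33), (16, 0, 2), (16, 0, 25), (16, 0, 21), (22, 0, 4)],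
  [(0, 0, 9), (1, 7, 0), (1, 7, 9), (2, 3, 0), (2, 3, 9), (2, 3, 7), (3, 9, 0), (5, 0, 9), (5, 0, 1), (7, 0, 2), (13, 0, 9), (13, 0, 7), (13, 0, 12), (13, 0, 5), (13, 0, 11), (13, 0, 10), (13, 0, 8), (13, 0, 6), (14, 0, 3), (14, 0, 12), (14, 0, 1), (14, 0, 5), (14, 0, 11), (14, 0, 2), (14, 0, 10), (14, 0, 33), (14, 0, 32), (15, 0, 9), (15, 0, 7), (15, 0, 3), (15, 0, 1), (15, 0, 2), (15, 0, 8), (15, 0, 33), (16, 0, 2), (16, 0, 21), (16, 0, 25), (22, 0, 4)],
  [(0, 0, 10), (1, 10, 0), (1, 10, 12), (2, 12, 0), (2, 12, 10), (2, 12, 6), (3, 10, 0), (3, 10, 6), (3, 10, 7), (5, 0, 8), (13, 0, 10), (13, 0, 12), (13, 0, 6), (13, 0, 9), (13, 0, 7), (13, 0, 8), (13, 0, 5), (13, 0, 11), (14, 0, 10), (14, 0, 12), (14, 0, 3), (14, 0, 1), (14, 0, 2), (14, 0, 5), (14, 0, 11), (14, 0, 32), (14, 0, 33), (15, 0, 3), (15, 0, 1), (15, 0, 9), (15, 0, 7), (15, 0, 2), (15, 0, 8), (15, 0, 33), (16, 0, 2), (16, 0, 21), (16, 0, 25), (22, 0,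 4)],
  [(0, 0, 11), (1, 10, 0), (1, 10, 11), (2, 3, 0), (2, 3, 11), (2, 3, 10), (3, 11, 0), (5, 0, 3), (6, 0, 1), (7, 0, 12), (13, 0, 11), (13, 0, 10), (13, 0, 8), (13, 0, 6), (13, 0, 9), (13, 0, 7), (13, 0, 12), (13, 0, 5), (14, 0, 11), (14, 0, 10), (14, 0, 3), (14, 0, 1), (14, 0, 2), (14, 0, 12), (14, 0, 5), (14, 0, 32), (14, 0, 33), (15, 0, 3), (15, 0, 8), (15, 0, 1), (15, 0, 9), (15, 0, 2), (15, 0, 7), (15, 0, 33), (16, 0, 2), (16, 0, 25), (16, 0, 21), (22, 0, 4)],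
  [(0, 0, 12), (2, 12, 0), (2, 12, 11), (3, 11, 0), (3, 11, 12), (3, 11, 6), (5, 0, 12), (5, 0, 2), (6, 0, 3), (7, 0, 12), (13, 0, 12), (13, 0, 11), (13, 0, 6), (13, 0, 7), (13, 0, 8), (13, 0, 9), (13, 0, 10), (13, 0, 5), (14, 0, 12), (14, 0, 11), (14, 0, 1), (14, 0, 2), (14, 0, 3), (14, 0, 10), (14, 0, 5), (14, 0, 32), (14, 0, 33), (15, 0, 1), (15, 0, 2), (15, 0, 7), (15, 0, 8), (15, 0, 3), (15, 0, 9), (15, 0, 33), (16, 0, 2), (16, 0, 21), (16, 0, 25), (22, 0, 4)],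
  [(1, 13, 0), (2, 13, 0), (3, 13, 0), (4, 0, 13), (5, 0, 13), (5, 0, 3), (5, 0, 1), (5, 0, 2), (5, 0, 22), (6, 0, 13), (6, 0, 3), (6, 0, 1), (6, 0, 2), (6, 0, 22), (6, 0, 23), (7, 0, 13), (7, 0, 2), (7, 0, 22), (7, 0, 24), (7, 0, 12), (7, 0, 33), (7, 0, 31), (8, 0, 13), (8, 0, 22), (8, 0, 24), (8, 0, 33), (8, 0, 31), (8, 0, 25), (9, 0, 13), (9, 0, 22), (9, 0, 24), (9, 0, 33), (9, 0, 31), (9, 0, 15), (10, 0, 29), (10, 0, 17), (11, 0, 16), (13, 0, 22)],
  [(4, 0, 14), (5, 0, 14), (5, 0, 23), (6, 0, 14), (6, 0, 23), (6, 0, 24), (7, 14, 0), (7, 14, 24), (7, 14, 33), (7, 14, 22), (7, 14, 31), (8, 14, 0), (8, 14, 24), (8, 14, 33), (8, 14, 22), (8, 14, 31), (9, 14, 0), (9, 14, 24), (9, 14, 33), (9, 14, 22), (9, 14, 31), (10, 14, 0), (10, 14, 22), (10, 14, 32), (10, 14, 9), (10, 14, 34), (10, 14, 17), (10, 14, 8), (10, 14, 19), (11, 14, 0), (11, 14, 16), (11, 14, 20), (11, 14, 8), (12, 14, 0), (12, 14, 7), (13, 0, 23), (13,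 0, 22), (16, 0, 2)],
  [(4, 0, 15), (5, 0, 15), (5, 0, 24), (6, 0, 15), (6, 0, 24), (6, 0, 22), (7, 23, 0), (7, 23, 15), (7, 23, 24), (7, 23, 22), (7, 23, 31), (7, 23, 33), (8, 23, 0), (8, 23, 15), (8, 23, 24), (8, 23, 22), (8, 23, 31), (8, 23, 33), (8, 23, 39), (9, 23, 0), (9, 23, 15), (9, 23, 24), (9, 23, 22), (9, 23, 31), (9, 23, 33), (9, 23, 13), (10, 15, 0), (10, 15, 32), (10, 15, 9), (10, 15, 29), (10, 15, 8), (10, 15, 19), (11, 15, 0), (11, 15, 8), (12, 15, 0), (12, 15, 7), (13, 0, 22), (13, 0, 23)],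
  [(0, 0, 16), (1, 16, 0), (1, 16, 17), (2, 17, 0), (2, 17, 16), (2, 17, 14), (3, 16, 0), (3, 16, 14), (3, 16, 19), (4, 0, 16), (4, 0, 17), (4, 0, 14), (4, 0, 20), (4, 0, 19), (4, 0, 21), (4, 0, 15), (5, 0, 16), (5, 0, 17), (5, 0, 3), (5, 0, 1), (5, 0, 2), (5, 0, 15), (5, 0, 25), (5, 0, 23), (5, 0, 24), (6, 0, 3), (6, 0, 1), (6, 0, 20), (6, 0, 19), (6, 0, 2), (6, 0, 21), (6, 0, 24), (7, 0, 2), (7, 0, 12), (7, 0, 39), (7, 0, 37), (8, 0, 22), (13, 0, 22)],
  [(0, 0, 17), (2, 17, 0), (2, 17, 18), (3, 18, 0), (3, 18, 17), (3, 18, 14), (4, 0, 17), (4, 0, 18), (4, 0, 14), (4, 0, 19), (4, 0, 21), (5, 0, 17), (5, 0, 18), (5, 0, 1), (5, 0, 14), (5, 0, 2), (5, 0, 26), (5, 0, 23), (6, 0, 1), (6, 0, 14), (6, 0, 2), (6, 0, 19), (6, 0, 21), (6, 0, 23), (6, 0, 28), (6, 0, 8), (6, 0, 24), (7, 0, 2), (7, 0, 21), (7, 0, 27), (7, 0, 12), (7, 0, 37), (8, 17, 0), (8, 17, 26), (8, 17, 33), (8, 17, 38), (8, 17, 6), (13, 0, 22)],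
  [(0, 0, 18), (1, 16, 0), (1, 16, 18), (2, 3, 0), (2, 3, 18), (2, 3, 16), (3, 18, 0), (4, 0, 18), (4, 0, 16), (4, 0, 21), (4, 0, 14), (4, 0, 20), (5, 0, 18), (5, 0, 16), (5, 0, 3), (5, 0, 1), (5, 0, 14), (5, 0, 2), (5, 0, 27), (5, 0, 23), (6, 0, 3), (6, 0, 21), (6, 0, 1), (6, 0, 14), (6, 0, 20), (6, 0, 2), (6, 0, 30), (6, 0, 23), (6, 0, 24), (7, 0, 16), (7, 0, 2), (7, 0, 27), (7, 0, 37), (7, 0, 12), (7, 0, 22), (8, 0, 15), (8, 0, 13), (13, 0, 22)],
  [(0, 0, 19), (1, 19, 0), (1, 19, 21), (2, 21, 0), (2, 21, 19), (2, 21, 15), (3, 19, 0), (3, 19, 15), (3, 19, 16), (4, 0, 19), (4, 0, 21), (4, 0, 15), (4, 0, 18), (4, 0, 16), (4, 0, 17), (4, 0, 14), (5, 0, 3), (5, 0, 15), (5, 0, 1), (5, 0, 18), (5, 0, 16), (5, 0, 2), (5, 0, 17), (5, 0, 24), (5, 0, 23), (6, 0, 19), (6, 0, 21), (6, 0, 3), (6, 0, 1), (6, 0, 2), (6, 0, 28), (6, 0, 24), (7, 0, 15), (7, 0, 2), (7, 0, 37), (7, 0, 12), (8, 0, 33), (13, 0, 22)],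
  [(0, 0, 20), (1, 19, 0), (1, 19, 20), (2, 3, 0), (2, 3, 20), (2, 3, 19), (3, 20, 0), (4, 0, 20), (4, 0, 19), (4, 0, 17), (4, 0, 15), (4, 0, 18), (5, 0, 3), (5, 0, 17), (5, 0, 1), (5, 0, 15), (5, 0, 18), (5, 0, 2), (5, 0, 26), (5, 0, 24), (6, 0, 20), (6, 0, 19), (6, 0, 3), (6, 0, 1), (6, 0, 15), (6, 0, 2), (6, 0, 29), (6, 0, 24), (6, 0, 22), (7, 0, 2), (7, 0, 12), (7, 0, 21), (7, 0, 33), (8, 0, 39), (8, 0, 38), (9, 0, 15), (10, 0, 29), (13, 0, 22)],
  [(0, 0, 21), (2, 21, 0), (2, 21, 20), (3, 20, 0), (3, 20, 21), (3, 20, 15), (4, 0, 21), (4, 0, 20), (4, 0, 15), (4, 0, 16), (4, 0, 17), (5, 0, 1), (5, 0, 15), (5, 0, 2), (5, 0, 16), (5, 0, 17), (5, 0, 24), (5, 0, 25), (6, 0, 21), (6, 0, 20), (6, 0, 1), (6, 0, 15), (6, 0, 2), (6, 0, 30), (6, 0, 24), (6, 0, 8), (6, 0, 22), (7, 0, 2), (7, 0, 16), (7, 0, 37), (7, 0, 39), (7, 0, 12), (8, 21, 0), (8, 21, 15), (8, 21, 22), (8, 21, 6), (10, 0, 29), (13, 0, 22)],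
  [(1, 22, 0), (2, 22, 0), (3, 22, 0), (4, 0, 22), (5, 0, 22), (5, 0, 3), (5, 0, 1), (5, 0, 2), (5, 0, 31), (6, 0, 22), (6, 0, 3), (6, 0, 1), (6, 0, 2), (6, 0, 31), (6, 0, 32), (7, 0, 22), (7, 0, 2), (7, 0, 31), (7, 0, 33), (7, 0, 12), (7, 0, 15), (7, 0, 13), (8, 0, 22), (8, 0, 31), (8, 0, 33), (8, 0, 15), (8, 0, 13), (8, 0, 34), (9, 0, 22), (9, 0, 31), (9, 0, 33), (9, 0, 15), (9, 0, 13), (9, 0, 24), (10, 0, 38), (10, 0, 26), (11, 0, 25), (13, 0, 22)],
  [(4, 0, 23), (5, 0, 23), (5, 0, 32), (6, 0, 23), (6, 0, 32), (6, 0, 33), (7, 23, 0), (7, 23, 33), (7, 23, 15), (7, 23, 31), (7, 23, 13), (8, 23, 0), (8, 23, 33), (8, 23, 15), (8, 23, 31), (8, 23, 13), (9, 23, 0), (9, 23, 33), (9, 23, 15), (9, 23, 31), (9, 23, 13), (10, 23, 0), (10, 23, 31), (10, 23, 14), (10, 23, 9), (10, 23, 16), (10, 23, 26), (10, 23, 8), (10, 23, 28), (11, 23, 0), (11, 23, 25), (11, 23, 29), (11, 23, 8), (12, 23, 0), (12, 23, 7), (13, 0, 23), (13,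 0, 32), (13, 0, 22)],
  [(4, 0, 24), (5, 0, 24), (5, 0, 33), (6, 0, 24), (6, 0, 33), (6, 0, 31), (7, 32, 0), (7, 32, 24), (7, 32, 33), (7, 32, 31), (7, 32, 13), (7, 32, 15), (8, 32, 0), (8, 32, 24), (8, 32, 33), (8, 32, 31), (8, 32, 13), (8, 32, 15), (8, 32, 21), (9, 32, 0), (9, 32, 24), (9, 32, 33), (9, 32, 31), (9, 32, 13), (9, 32, 15), (9, 32, 22), (10, 24, 0), (10, 24, 14), (10, 24, 9), (10, 24, 38), (10, 24, 8), (10, 24, 28), (11, 24, 0), (11, 24, 8), (12, 24, 0), (12, 24, 7), (13, 0, 22), (13, 0, 23)],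
  [(0, 0, 25), (1, 25, 0), (1, 25, 26), (2, 26, 0), (2, 26, 25), (2, 26, 23), (3, 25, 0), (3, 25, 23), (3, 25, 28), (4, 0, 25), (4, 0, 26), (4, 0, 23), (4, 0, 29), (4, 0, 28), (4, 0, 30), (4, 0, 24), (5, 0, 25), (5, 0, 26), (5, 0, 3), (5, 0, 1), (5, 0, 2), (5, 0, 24), (5, 0, 34), (5, 0, 32), (5, 0, 33), (6, 0, 3), (6, 0, 1), (6, 0, 29), (6, 0, 28), (6, 0, 2), (6, 0, 30), (6, 0, 33), (7, 0, 2), (7, 0, 12), (7, 0, 21), (7, 0, 19), (8, 0, 31), (13, 0, 22)],
  [(0, 0, 26), (2, 26, 0), (2, 26, 27), (3, 27, 0), (3, 27, 26), (3, 27, 23), (4, 0, 26), (4, 0, 27), (4, 0, 23), (4, 0, 28), (4, 0, 30), (5, 0, 26), (5, 0, 27), (5, 0, 1), (5, 0, 23), (5, 0, 2), (5, 0, 35), (5, 0, 32), (6, 0, 1), (6, 0, 23), (6, 0, 2), (6, 0, 28), (6, 0, 30), (6, 0, 32), (6, 0, 37), (6, 0, 8), (6, 0, 33), (7, 0, 2), (7, 0, 30), (7, 0, 36), (7, 0, 12), (7, 0, 19), (8, 26, 0), (8, 26, 35), (8, 26, 15), (8, 26, 20), (8, 26, 6), (13, 0, 22)],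
  [(0, 0, 27), (1, 25, 0), (1, 25, 27), (2, 3, 0), (2, 3, 27), (2, 3, 25), (3, 27, 0), (4, 0, 27), (4, 0, 25), (4, 0, 30), (4, 0, 23), (4, 0, 29), (5, 0, 27), (5, 0, 25), (5, 0, 3), (5, 0, 1), (5, 0, 23), (5, 0, 2), (5, 0, 36), (5, 0, 32), (6, 0, 3), (6, 0, 30), (6, 0, 1), (6, 0, 23), (6, 0, 29), (6, 0, 2), (6, 0, 39), (6, 0, 32), (6, 0, 33), (7, 0, 25), (7, 0, 2), (7, 0, 36), (7, 0, 19), (7, 0, 12), (7, 0, 31), (8, 0, 24), (8, 0, 22), (13, 0, 22)],
  [(0, 0, 28), (1, 28, 0), (1, 28, 30), (2, 30, 0), (2, 30, 28), (2, 30, 24), (3, 28, 0), (3, 28, 24), (3, 28, 25), (4, 0, 28), (4, 0, 30), (4, 0, 24), (4, 0, 27), (4, 0, 25), (4, 0, 26), (4, 0, 23), (5, 0, 3), (5, 0, 24), (5, 0, 1), (5, 0, 27), (5, 0, 25), (5, 0, 2), (5, 0, 26), (5, 0, 33), (5, 0, 32), (6, 0, 28), (6, 0, 30), (6, 0, 3), (6, 0, 1), (6, 0, 2), (6, 0, 37), (6, 0, 33), (7, 0, 24), (7, 0, 2), (7, 0, 19), (7, 0, 12), (8, 0, 15), (13, 0, 22)],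
  [(0, 0, 29), (1, 28, 0), (1, 28, 29), (2, 3, 0), (2, 3, 29), (2, 3, 28), (3, 29, 0), (4, 0, 29), (4, 0, 28), (4, 0, 26), (4, 0, 24), (4, 0, 27), (5, 0, 3), (5, 0, 26), (5, 0, 1), (5, 0, 24), (5, 0, 27), (5, 0, 2), (5, 0, 35), (5, 0, 33), (6, 0, 29), (6, 0, 28), (6, 0, 3), (6, 0, 1), (6, 0, 24), (6, 0, 2), (6, 0, 38), (6, 0, 33), (6, 0, 31), (7, 0, 2), (7, 0, 12), (7, 0, 30), (7, 0, 15), (8, 0, 21), (8, 0, 20), (9, 0, 24), (10, 0, 38), (13, 0, 22)],
  [(0, 0, 30), (2, 30, 0), (2, 30, 29), (3, 29, 0), (3, 29, 30), (3, 29, 24), (4, 0, 30), (4, 0, 29), (4, 0, 24), (4, 0, 25), (4, 0, 26), (5, 0, 1), (5, 0, 24), (5, 0, 2), (5, 0, 25), (5, 0, 26), (5, 0, 33), (5, 0, 34), (6, 0, 30), (6, 0, 29), (6, 0, 1), (6, 0, 24), (6, 0, 2), (6, 0, 39), (6, 0, 33), (6, 0, 8), (6, 0, 31), (7, 0, 2), (7, 0, 25), (7, 0, 19), (7, 0, 21), (7, 0, 12), (8, 30, 0), (8, 30, 24), (8, 30, 31), (8, 30, 6), (10, 0, 38), (13, 0, 22)],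
  [(1, 31, 0), (2, 31, 0), (3, 31, 0), (4, 0, 31), (5, 0, 31), (5, 0, 3), (5, 0, 1), (5, 0, 2), (5, 0, 13), (6, 0, 31), (6, 0, 3), (6, 0, 1), (6, 0, 2), (6, 0, 13), (6, 0, 14), (7, 0, 31), (7, 0, 2), (7, 0, 13), (7, 0, 15), (7, 0, 12), (7, 0, 24), (7, 0, 22), (8, 0, 31), (8, 0, 13), (8, 0, 15), (8, 0, 24), (8, 0, 22), (8, 0, 16), (9, 0, 31), (9, 0, 13), (9, 0, 15), (9, 0, 24), (9, 0, 22), (9, 0, 33), (10, 0, 20), (10, 0, 35), (11, 0, 34), (13, 0, 22)],
  [(4, 0, 32), (5, 0, 32), (5, 0, 14), (6, 0, 32), (6, 0, 14), (6, 0, 15), (7, 32, 0), (7, 32, 15), (7, 32, 24), (7, 32, 13), (7, 32, 22), (8, 32, 0), (8, 32, 15), (8, 32, 24), (8, 32, 13), (8, 32, 22), (9, 32, 0), (9, 32, 15), (9, 32, 24), (9, 32, 13), (9, 32, 22), (10, 32, 0), (10, 32, 13), (10, 32, 23), (10, 32, 9), (10, 32, 25), (10, 32, 35), (10, 32, 8), (10, 32, 37), (11, 32, 0), (11, 32, 34), (11, 32, 38), (11, 32, 8), (12, 32, 0), (12, 32, 7), (13, 0, 22), (13,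 0, 23), (14, 0, 6)],
  [(4, 0, 33), (5, 0, 33), (5, 0, 15), (6, 0, 33), (6, 0, 15), (6, 0, 13), (7, 14, 0), (7, 14, 33), (7, 14, 15), (7, 14, 13), (7, 14, 22), (7, 14, 24), (8, 14, 0), (8, 14, 33), (8, 14, 15), (8, 14, 13), (8, 14, 22), (8, 14, 24), (8, 14, 30), (9, 14, 0), (9, 14, 33), (9, 14, 15), (9, 14, 13), (9, 14, 22), (9, 14, 24), (9, 14, 31), (10, 33, 0), (10, 33, 23), (10, 33, 9), (10, 33, 20), (10, 33, 8), (10, 33, 37), (11, 33, 0), (11, 33, 8), (12, 33, 0), (12, 33, 7), (13, 0, 22), (13, 0, 23)],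
  [(0, 0, 34), (1, 34, 0), (1, 34, 35), (2, 35, 0), (2, 35, 34), (2, 35, 32), (3, 34, 0), (3, 34, 32), (3, 34, 37), (4, 0, 34), (4, 0, 35), (4, 0, 32), (4, 0, 38), (4, 0, 37), (4, 0, 39), (4, 0, 33), (5, 0, 34), (5, 0, 35), (5, 0, 3), (5, 0, 1), (5, 0, 2), (5, 0, 33), (5, 0, 16), (5, 0, 14), (5, 0, 15), (6, 0, 3), (6, 0, 1), (6, 0, 38), (6, 0, 37), (6, 0, 2), (6, 0, 39), (6, 0, 15), (7, 0, 2), (7, 0, 12), (7, 0, 30), (7, 0, 28), (8, 0, 13), (13, 0, 22)],
  [(0, 0, 35), (2, 35, 0), (2, 35, 36), (3, 36, 0), (3, 36, 35), (3, 36, 32), (4, 0, 35), (4, 0, 36), (4, 0, 32), (4, 0, 37), (4, 0, 39), (5, 0, 35), (5, 0, 36), (5, 0, 1), (5, 0, 32), (5, 0, 2), (5, 0, 17), (5, 0, 14), (6, 0, 1), (6, 0, 32), (6, 0, 2), (6, 0, 37), (6, 0, 39), (6, 0, 14), (6, 0, 19), (6, 0, 8), (6, 0, 15), (7, 0, 2), (7, 0, 39), (7, 0, 18), (7, 0, 12), (7, 0, 28), (8, 35, 0), (8, 35, 17), (8, 35, 24), (8, 35, 29), (8, 35, 6), (13, 0, 22)],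
  [(0, 0, 36), (1, 34, 0), (1, 34, 36), (2, 3, 0), (2, 3, 36), (2, 3, 34), (3, 36, 0), (4, 0, 36), (4, 0, 34), (4, 0, 39), (4, 0, 32), (4, 0, 38), (5, 0, 36), (5, 0, 34), (5, 0, 3), (5, 0, 1), (5, 0, 32), (5, 0, 2), (5, 0, 18), (5, 0, 14), (6, 0, 3), (6, 0, 39), (6, 0, 1), (6, 0, 32), (6, 0, 38), (6, 0, 2), (6, 0, 21), (6, 0, 14), (6, 0, 15), (7, 0, 34), (7, 0, 2), (7, 0, 18), (7, 0, 28), (7, 0, 12), (7, 0, 13), (8, 0, 33), (8, 0, 31), (13, 0, 22)],
  [(0, 0, 37), (1, 37, 0), (1, 37, 39), (2, 39, 0), (2, 39, 37), (2, 39, 33), (3, 37, 0), (3, 37, 33), (3, 37, 34), (4, 0, 37), (4, 0, 39), (4, 0, 33), (4, 0, 36), (4, 0, 34), (4, 0, 35), (4, 0, 32), (5, 0, 3), (5, 0, 33), (5, 0, 1), (5, 0, 36), (5, 0, 34), (5, 0, 2), (5, 0, 35), (5, 0, 15), (5, 0, 14), (6, 0, 37), (6, 0, 39), (6, 0, 3), (6, 0, 1), (6, 0, 2), (6, 0, 19), (6, 0, 15), (7, 0, 33), (7, 0, 2), (7, 0, 28), (7, 0, 12), (8, 0, 24), (13, 0, 22)],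
  [(0, 0, 38), (1, 37, 0), (1, 37, 38), (2, 3, 0), (2, 3, 38), (2, 3, 37), (3, 38, 0), (4, 0, 38), (4, 0, 37), (4, 0, 35), (4, 0, 33), (4, 0, 36), (5, 0, 3), (5, 0, 35), (5, 0, 1), (5, 0, 33), (5, 0, 36), (5, 0, 2), (5, 0, 17), (5, 0, 15), (6, 0, 38), (6, 0, 37), (6, 0, 3), (6, 0, 1), (6, 0, 33), (6, 0, 2), (6, 0, 20), (6, 0, 15), (6, 0, 13), (7, 0, 2), (7, 0, 12), (7, 0, 39), (7, 0, 24), (8, 0, 30), (8, 0, 29), (9, 0, 33), (10, 0, 20), (13, 0, 22)],
  [(0, 0, 39), (2, 39, 0), (2, 39, 38), (3, 38, 0), (3, 38, 39), (3, 38, 33), (4, 0, 39), (4, 0, 38), (4, 0, 33), (4, 0, 34), (4, 0, 35), (5, 0, 1), (5, 0, 33), (5, 0, 2), (5, 0, 34), (5, 0, 35), (5, 0, 15), (5, 0, 16), (6, 0, 39), (6, 0, 38), (6, 0, 1), (6, 0, 33), (6, 0, 2), (6, 0, 21), (6, 0, 15), (6, 0, 8), (6, 0, 13), (7, 0, 2), (7, 0, 34), (7, 0, 28), (7, 0, 30), (7, 0, 12), (8, 39, 0), (8, 39, 33), (8, 39, 13), (8, 39, 6), (10, 0, 20), (13, 0, 22)]]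

def blkTst (m r a : Nat) : Bool := Nat.blt r 40 && (Nat.testBit m a && Nat.testBit m (tf r a))

theorem chkBlk : allN (fun q => Nat.beq q 0 ||
    Nat.beq (run blkTst (blkSteps.getD (q - 1) []) (2 ^ q ||| 1)) (2 ^ 40 - 1)) 40 = true := by
  decide +kernel

theorem block_all {B : Set (Fin 40)} (hB : MulAction.IsBlock G B) (h0 : (0 : Fin 40) ∈ B)
    {q : Fin 40} (hq : q ∈ B) (hq0 : q ≠ 0) : B = Set.univ := by
  have hc := (allN_iff _ _).1 chkBlk q q.2
  simp only [Bool.or_eq_true, Nat.beq_eq] at hc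
  have hc' := hc.resolve_left (fun h => hq0 (Fin.ext h))
  have key := run_inv blkTst (fun y => ∃ h : y < 40, (⟨y, h⟩ : Fin 40) ∈ B) ?_
    (blkSteps.getD (q - 1) []) (2 ^ (q : Nat) ||| 1) ?_
  · ext i
    obtain ⟨_, hi⟩ := mask_all hc' key i
    exact ⟨fun _ => trivial, fun _ => hi⟩
  · rintro m r a x hm ⟨hx, hx'⟩ ht
    simp only [blkTst, Bool.and_eq_true, Nat.blt_eq] at ht
    obtain ⟨hr, ha, hb⟩ := ht
    obtain ⟨ha1, ha2⟩ := hm a ha
    obtain ⟨hb1, hb2⟩ := hm _ hb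
    refine ⟨tf_lt' hr hx, ?_⟩
    have e := hB.smul_eq_of_mem (g := (⟨tr ⟨r, hr⟩, tr_mem _⟩ : G)) ha2 hb2
    rw [← e]
    exact ⟨⟨x, hx⟩, hx', rfl⟩
  · intro i hi
    rw [Nat.testBit_or, Bool.or_eq_true, Nat.testBit_two_pow] at hi
    rcases hi with hi | hi
    · have : (q : Nat) = i := by simpa using hi
      subst this
      exact ⟨q.2, hq⟩
    · have : i = 0 := by
        by_contra hne
        have hh : Nat.testBit 1 i = false := by
          apply Nat.testBit_lt_two_pow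
          exact Nat.one_lt_two_pow hne
        rw [hh] at hi
        exact Bool.noConfusion hi
      subst this
      exact ⟨by norm_num, h0⟩

instance primG : MulAction.IsPreprimitive G (Fin 40) := by
  apply MulAction.IsPreprimitive.of_isTrivialBlock_of_notMem_fixedPoints (a := (0 : Fin 40))
  · intro h
    have h1 := h ⟨tr 1, tr_mem _⟩
    revert h1
    show ¬ (tr 1 0 = 0)
    decide +kernel
  · intro B h0 hB
    by_cases hs : ∃ q ∈ B, q ≠ (0 : Fin 40)
    · obtain ⟨q, hq, hq0⟩ := hs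
      exact Or.inr (block_all hB h0 hq hq0)
    · left
      push Not at hs
      intro x hx y hy
      rw [hs x hx, hs y hy]

theorem exists_map (p : Fin 40) : ∃ g ∈ G, g 0 = p := by
  obtain ⟨g, hg⟩ := MulAction.exists_smul_eq G (0 : Fin 40) p
  exact ⟨g, g.2, hg⟩

/-- Products of transvections. -/
def wd (l : List (Fin 40)) : P40 := (l.map tr).prod

theorem wd_mem (l : List (Fin 40)) : wd l ∈ G := by
  induction l with
  | nil => exact G.one_mem
  | cons p l ih => simpa [wd] using G.mul_mem (tr_mem p) ih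

theorem chkComm : wd [4, 5, 5] * wd [13, 15, 15] = tr 0 * (wd [13, 15, 15] * wd [4, 5, 5]) := by
  apply Equiv.ext
  decide +kernel

theorem tr_comm (p : Fin 40) : tr p ∈ ⁅G, G⁆ := by
  obtain ⟨g, hg, hgp⟩ := exists_map p
  have e0 : tr 0 = ⁅wd [4, 5, 5], wd [13, 15, 15]⁆ := by
    rw [commutatorElement_def, chkComm]; group
  have e1 : tr p = ⁅g * wd [4, 5, 5] * g⁻¹, g * wd [13, 15, 15] * g⁻¹⁆ := by
    have h := conj_tr hg 0
    rw [hgp] at h
    have : tr p = g * tr 0 * g⁻¹ := by rw [h]; group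
    rw [this, e0, commutatorElement_def, commutatorElement_def]; group
  rw [e1]
  exact Subgroup.commutator_mem_commutator (G.mul_mem (G.mul_mem hg (wd_mem _)) (G.inv_mem hg))
    (G.mul_mem (G.mul_mem hg (wd_mem _)) (G.inv_mem hg))

theorem perfectG : commutator G = ⊤ := by
  apply Subgroup.map_injective G.subtype_injective
  rw [Subgroup.map_subtype_commutator]
  apply le_antisymm
  · rintro _ h
    have : ⁅G, G⁆ ≤ G := Subgroup.commutator_le.2 fun a ha b hb => by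
      rw [commutatorElement_def]
      exact G.mul_mem (G.mul_mem (G.mul_mem ha hb) (G.inv_mem ha)) (G.inv_mem hb)
    exact ⟨⟨_, this h⟩, trivial, rfl⟩
  · rintro _ ⟨x, _, rfl⟩
    have : G ≤ ⁅G, G⁆ := by
      unfold G
      rw [Subgroup.closure_le]
      rintro _ ⟨p, rfl⟩
      exact tr_comm p
    exact this x.2

theorem conj_tr' (g : G) (p : Fin 40) :
    g * ⟨tr p, tr_mem p⟩ * g⁻¹ = (⟨tr (g • p), tr_mem _⟩ : G) := by
  apply Subtype.ext
  show (g : P40) * tr p * (g : P40)⁻¹ = tr ((g : P40) p)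
  rw [conj_tr g.2]; group

noncomputable def iwa : MulAction.IwasawaStructure G (Fin 40) where
  T p := Subgroup.zpowers ⟨tr p, tr_mem p⟩
  is_comm p := inferInstance
  is_conj g p := by
    ext x
    rw [Subgroup.mem_smul_pointwise_iff_exists]
    constructor
    · intro hx
      obtain ⟨k, rfl⟩ := Subgroup.mem_zpowers_iff.1 hx
      refine ⟨⟨tr p, tr_mem p⟩ ^ k, Subgroup.mem_zpowers_iff.2 ⟨k, rfl⟩, ?_⟩
      rw [MulAut.smul_def, MulAut.conj_apply, ← conj_tr' g p, conj_zpow]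
    · rintro ⟨y, hy, rfl⟩
      obtain ⟨k, rfl⟩ := Subgroup.mem_zpowers_iff.1 hy
      rw [MulAut.smul_def, MulAut.conj_apply, ← conj_zpow, conj_tr' g p]
      exact Subgroup.mem_zpowers_iff.2 ⟨k, rfl⟩
  is_generator := by
    have hT : Subgroup.closure ((↑) ⁻¹' Set.range tr : Set G) = ⊤ :=
      Subgroup.closure_closure_coe_preimage
    rw [eq_top_iff, ← hT, Subgroup.closure_le]
    rintro ⟨x, hx⟩ ⟨p, hp⟩
    have : (⟨x, hx⟩ : G) = ⟨tr p, tr_mem p⟩ := Subtype.ext hp.symm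
    rw [this]
    exact Subgroup.mem_iSup_of_mem p (Subgroup.mem_zpowers _)

instance : Nontrivial G := by
  refine ⟨⟨1, ⟨tr 1, tr_mem _⟩, ?_⟩⟩
  intro h
  have h1 : (1 : P40) 0 = tr 1 0 := congrArg (fun f : G => (f : P40) 0) h
  revert h1
  decide +kernel

theorem simpleG : IsSimpleGroup G :=
  MulAction.IwasawaStructure.isSimpleGroup perfectG iwa inferInstance


theorem step_bound (P : Subgroup P40) (p : Fin 40) (S : Finset (Fin 40))
    (hS : ∀ σ ∈ P, σ p ∈ S) :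
    Nat.card P ≤ S.card * Nat.card (P ⊓ MulAction.stabilizer P40 p : Subgroup P40) := by
  classical
  let ρ : Fin 40 → P40 := fun b => if h : ∃ τ ∈ P, τ p = b then h.choose else 1
  have hρ : ∀ σ ∈ P, ρ (σ p) ∈ P ∧ ρ (σ p) p = σ p := by
    intro σ hσ
    have h : ∃ τ ∈ P, τ p = σ p := ⟨σ, hσ, rfl⟩
    simp only [ρ, dif_pos h]
    exact h.choose_spec
  let f : P → S × (P ⊓ MulAction.stabilizer P40 p : Subgroup P40) := fun σ =>
    (⟨(σ : P40) p, hS σ σ.2⟩, ⟨(ρ ((σ : P40) p))⁻¹ * σ, by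
      refine Subgroup.mem_inf.2 ⟨P.mul_mem (P.inv_mem (hρ σ σ.2).1) σ.2, ?_⟩
      rw [MulAction.mem_stabilizer_iff]
      show (ρ ((σ : P40) p))⁻¹ ((σ : P40) p) = p
      rw [Equiv.Perm.inv_eq_iff_eq]
      exact ((hρ σ σ.2).2).symm⟩)
  have hf : Function.Injective f := by
    intro σ τ h
    have h1 : (σ : P40) p = (τ : P40) p := congrArg (fun x => (x.1 : Fin 40)) h
    have h2 : (ρ ((σ : P40) p))⁻¹ * (σ : P40) = (ρ ((τ : P40) p))⁻¹ * (τ : P40) :=
      congrArg (fun x => (x.2 : P40)) h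
    rw [h1] at h2
    exact Subtype.ext (mul_left_cancel h2)
  have := Nat.card_le_card_of_injective f hf
  rwa [Nat.card_prod, Nat.card_eq_fintype_card (α := S), Fintype.card_coe] at this

theorem card_G_le : Nat.card G ≤ 25920 := by
  have b1 := step_bound G 0 Finset.univ (fun _ _ => Finset.mem_univ _)
  have b2 := step_bound (G ⊓ MulAction.stabilizer P40 (0 : Fin 40)) 1
    (Finset.univ.filter fun q => ¬ tr 0 q = q) (by
      intro σ hσ
      obtain ⟨hG, h1⟩ := Subgroup.mem_inf.1 hσ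
      rw [MulAction.mem_stabilizer_iff] at h1
      have h1' : σ 0 = 0 := h1
      rw [Finset.mem_filter]
      refine ⟨Finset.mem_univ _, ?_⟩
      have h := adj_iff hG 0 1
      rw [h1'] at h
      rw [h]
      decide +kernel)
  have b3 := step_bound (G ⊓ MulAction.stabilizer P40 (0 : Fin 40) ⊓
      MulAction.stabilizer P40 (1 : Fin 40)) 5
    (Finset.univ.filter fun q => tr 0 q = q ∧ q ≠ 0 ∧ ¬ tr 1 q = q) (by
      intro σ hσ
      obtain ⟨hσ', h2⟩ := Subgroup.mem_inf.1 hσ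
      obtain ⟨hG, h1⟩ := Subgroup.mem_inf.1 hσ'
      rw [MulAction.mem_stabilizer_iff] at h1 h2
      have h1' : σ 0 = 0 := h1
      have h2' : σ 1 = 1 := h2
      rw [Finset.mem_filter]
      have e1 := adj_iff hG 0 5
      have e2 := adj_iff hG 1 5
      rw [h1'] at e1
      rw [h2'] at e2
      refine ⟨Finset.mem_univ _, ?_, ?_, ?_⟩
      · rw [e1]; decide +kernel
      · intro h
        rw [← h1'] at h
        have := σ.injective h
        revert this
        decide +kernel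
      · rw [e2]; decide +kernel)
  have b4 := step_bound (G ⊓ MulAction.stabilizer P40 (0 : Fin 40) ⊓
      MulAction.stabilizer P40 (1 : Fin 40) ⊓ MulAction.stabilizer P40 (5 : Fin 40)) 13
    (Finset.univ.filter fun q => tr 0 q = q ∧ tr 1 q = q ∧ ¬ tr 5 q = q) (by
      intro σ hσ
      obtain ⟨hσ'', h3⟩ := Subgroup.mem_inf.1 hσ
      obtain ⟨hσ', h2⟩ := Subgroup.mem_inf.1 hσ''
      obtain ⟨hG, h1⟩ := Subgroup.mem_inf.1 hσ'
      rw [MulAction.mem_stabilizer_iff] at h1 h2 h3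
      have h1' : σ 0 = 0 := h1
      have h2' : σ 1 = 1 := h2
      have h3' : σ 5 = 5 := h3
      rw [Finset.mem_filter]
      have e1 := adj_iff hG 0 13
      have e2 := adj_iff hG 1 13
      have e3 := adj_iff hG 5 13
      rw [h1'] at e1
      rw [h2'] at e2
      rw [h3'] at e3
      refine ⟨Finset.mem_univ _, ?_, ?_, ?_⟩
      · rw [e1]; decide +kernel
      · rw [e2]; decide +kernel
      · rw [e3]; decide +kernel)
  have b5 : (G ⊓ MulAction.stabilizer P40 (0 : Fin 40) ⊓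
      MulAction.stabilizer P40 (1 : Fin 40) ⊓ MulAction.stabilizer P40 (5 : Fin 40) ⊓
      MulAction.stabilizer P40 (13 : Fin 40) : Subgroup P40) = ⊥ := by
    rw [eq_bot_iff]
    intro σ hσ
    obtain ⟨hσ3, h4⟩ := Subgroup.mem_inf.1 hσ
    obtain ⟨hσ'', h3⟩ := Subgroup.mem_inf.1 hσ3
    obtain ⟨hσ', h2⟩ := Subgroup.mem_inf.1 hσ''
    obtain ⟨hG, h1⟩ := Subgroup.mem_inf.1 hσ'
    rw [MulAction.mem_stabilizer_iff] at h1 h2 h3 h4
    exact Subgroup.mem_bot.2 (fix_all hG h1 h2 h3 h4)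
  rw [b5, Subgroup.card_bot] at b4
  have c1 : (Finset.univ : Finset (Fin 40)).card = 40 := by simp
  have c2 : (Finset.univ.filter fun q => ¬ tr 0 q = q).card = 27 := by decide +kernel
  have c3 : (Finset.univ.filter fun q => tr 0 q = q ∧ q ≠ 0 ∧ ¬ tr 1 q = q).card = 8 := by
    decide +kernel
  have c4 : (Finset.univ.filter fun q => tr 0 q = q ∧ tr 1 q = q ∧ ¬ tr 5 q = q).card = 3 := by
    decide +kernel
  rw [c1] at b1
  rw [c2] at b2
  rw [c3] at b3
  rw [c4] at b4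
  omega

/-- The number N encodes the permutation. -/
def Rep (σ : P40) (N : Nat) : Prop := ∀ i : Fin 40, ((σ i : Fin 40) : Nat) = ev N i

instance (σ : P40) (N : Nat) : Decidable (Rep σ N) := by unfold Rep; infer_instance

def pack (d : Nat → Nat) : Nat → Nat
  | 0 => 0
  | n + 1 => pack d n + d n * 2 ^ (6 * n)

theorem pack_lt (d : Nat → Nat) (hd : ∀ k, d k < 64) : ∀ n, pack d n < 2 ^ (6 * n)
  | 0 => by simp [pack]
  | n + 1 => by
    have h1 := pack_lt d hd n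
    have h2 : d n * 2 ^ (6 * n) ≤ 63 * 2 ^ (6 * n) :=
      Nat.mul_le_mul_right _ (Nat.le_of_lt_succ (hd n))
    have h3 : 2 ^ (6 * (n + 1)) = 64 * 2 ^ (6 * n) := by rw [mul_add, pow_add]; norm_num [mul_comm]
    rw [pack, h3]
    omega

theorem ev_pack (d : Nat → Nat) (hd : ∀ k, d k < 64) : ∀ n i, i < n → ev (pack d n) i = d i
  | 0, i, h => absurd h (Nat.not_lt_zero i)
  | n + 1, i, h => by
    rcases Nat.lt_succ_iff_lt_or_eq.mp h with h' | h'
    · rw [← ev_pack d hd n i h']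
      obtain ⟨k, rfl⟩ : ∃ k, n = i + 1 + k := ⟨n - (i + 1), by omega⟩
      unfold ev
      rw [Nat.shiftRight_eq_div_pow, Nat.shiftRight_eq_div_pow, pack]
      have e : 2 ^ (6 * (i + 1 + k)) = 2 ^ (6 * i) * (64 * 2 ^ (6 * k)) := by
        rw [mul_add, mul_add, pow_add, pow_add]; norm_num [mul_assoc]
      rw [e]
      have e2 : pack d (i + 1 + k) + d (i + 1 + k) * (2 ^ (6 * i) * (64 * 2 ^ (6 * k)))
          = pack d (i + 1 + k) + 2 ^ (6 * i) * (64 * (d (i + 1 + k) * 2 ^ (6 * k))) := by ring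
      rw [e2, Nat.add_mul_div_left _ _ (by positivity), Nat.add_mul_mod_self_left]
    · subst h'
      unfold ev
      rw [Nat.shiftRight_eq_div_pow, pack, Nat.add_mul_div_right _ _ (by positivity),
        Nat.div_eq_of_lt (pack_lt d hd i), zero_add, Nat.mod_eq_of_lt (hd i)]

/-- Code of a product. -/
def cmp (N M : Nat) : Nat := pack (fun k => ev N (ev M k)) 40

def idc : Nat := 1093317306902421746902640126436031210600226870931347987187368312011759680

theorem rep_one : Rep 1 idc := by decide +kernel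

theorem rep_mul {σ τ : P40} {N M : Nat} (h1 : Rep σ N) (h2 : Rep τ M) : Rep (σ * τ) (cmp N M) := by
  intro i
  rw [cmp, ev_pack _ (fun k => ev_lt _ _) 40 i i.2]
  show ((σ (τ i) : Fin 40) : Nat) = _
  rw [h1 (τ i), h2 i]

theorem rep_inj {σ τ : P40} {N : Nat} (h1 : Rep σ N) (h2 : Rep τ N) : σ = τ := by
  ext i
  rw [h1 i, h2 i]

theorem cover (S : Set P40) (L Lg : List Nat)
    (hS : ∀ s ∈ S, (∃ N ∈ Lg, Rep s N) ∧ (∃ N ∈ Lg, Rep s⁻¹ N)) (h1 : idc ∈ L)
    (hc : (Lg.all fun N => L.all fun M => L.any fun K => Nat.beq (cmp N M) K) = true) :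
    ∀ σ ∈ Subgroup.closure S, ∃ N ∈ L, Rep σ N := by
  have hc' : ∀ N ∈ Lg, ∀ M ∈ L, cmp N M ∈ L := by
    intro N hN M hM
    rw [List.all_eq_true] at hc
    have := hc N hN
    rw [List.all_eq_true] at this
    have := this M hM
    rw [List.any_eq_true] at this
    obtain ⟨K, hK, e⟩ := this
    rw [Nat.beq_eq] at e
    rwa [e]
  intro σ hσ
  induction hσ using Subgroup.closure_induction_left with
  | one => exact ⟨idc, h1, rep_one⟩
  | mul_left x hx y _ ih =>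
    obtain ⟨M, hM, hy⟩ := ih
    obtain ⟨N, hN, hx'⟩ := (hS x hx).1
    exact ⟨cmp N M, hc' N hN M hM, rep_mul hx' hy⟩
  | inv_mul_cancel x hx y _ ih =>
    obtain ⟨M, hM, hy⟩ := ih
    obtain ⟨N, hN, hx'⟩ := (hS x hx).2
    exact ⟨cmp N M, hc' N hN M hM, rep_mul hx' hy⟩

def eqv (N M : Nat) : Bool := allN (fun k => Nat.beq (ev N k) (ev M k)) 40

theorem eqv_of_rep {σ : P40} {N M : Nat} (h1 : Rep σ N) (h2 : Rep σ M) : eqv N M = true := by
  rw [eqv, allN_iff]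
  intro i hi
  rw [Nat.beq_eq, ← h1 ⟨i, hi⟩, ← h2 ⟨i, hi⟩]

theorem card_ge (P : Subgroup P40) (L Lg : List Nat) (par : List (Nat × Nat)) (n : Nat)
    (hG : ∀ k < 2, ∃ σ ∈ P, Rep σ (Lg.getD k 0))
    (h1 : L.getD 0 0 = idc)
    (hp : allN (fun i => Nat.beq i 0 || (Nat.blt (par.getD i (0, 0)).2 i &&
      (Nat.blt (par.getD i (0, 0)).1 2 &&
      Nat.beq (cmp (Lg.getD (par.getD i (0, 0)).1 0) (L.getD (par.getD i (0, 0)).2 0))
        (L.getD i 0)))) n = true)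
    (hd : allN (fun i => allN (fun j => Nat.beq i j || !(eqv (L.getD i 0) (L.getD j 0))) n) n = true) :
    n ≤ Nat.card P := by
  have hreal : ∀ i, i < n → ∃ σ ∈ P, Rep σ (L.getD i 0) := by
    intro i
    induction i using Nat.strong_induction_on with
    | _ i ih =>
      intro hi
      have h := (allN_iff _ _).1 hp i hi
      simp only [Bool.or_eq_true, Bool.and_eq_true, Nat.beq_eq, Nat.blt_eq] at h
      rcases h with h | ⟨h2, h3, h4⟩
      · subst h
        rw [h1]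
        exact ⟨1, P.one_mem, rep_one⟩
      · obtain ⟨τ, hτ, hτ'⟩ := ih _ h2 (h2.trans hi)
        obtain ⟨γ, hγ, hγ'⟩ := hG _ h3
        refine ⟨γ * τ, P.mul_mem hγ hτ, ?_⟩
        rw [← h4]
        exact rep_mul hγ' hτ'
  choose! f hf hf' using hreal
  have hinj : Function.Injective (fun i : Fin n => (⟨f i, hf i i.2⟩ : P)) := by
    intro i j hij
    have e : f i = f j := congrArg (fun x : P => (x : P40)) hij
    have ri := hf' i i.2
    have rj := hf' j j.2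
    rw [e] at ri
    have h := (allN_iff _ _).1 ((allN_iff _ _).1 hd i i.2) j j.2
    simp only [Bool.or_eq_true, Nat.beq_eq, Bool.not_eq_true'] at h
    rcases h with h | h
    · exact Fin.ext h
    · rw [eqv_of_rep ri rj] at h
      exact absurd h (by decide)
  have := Nat.card_le_card_of_injective _ hinj
  rwa [Nat.card_eq_fintype_card, Fintype.card_fin] at this

def cnt (f : Nat → Bool) : Nat → Nat
  | 0 => 0
  | n + 1 => cnt f n + (f n).toNat

theorem card_filter_cnt (n : Nat) (P : Fin n → Prop) [DecidablePred P] (f : Nat → Bool)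
    (h : ∀ i : Fin n, P i ↔ f i = true) : (Finset.univ.filter P).card = cnt f n := by
  rw [Finset.card_filter]
  have e : ∀ i : Fin n, (if P i then 1 else 0) = (f i).toNat := by
    intro i
    by_cases hi : P i
    · rw [if_pos hi, (h i).1 hi]; rfl
    · rw [if_neg hi]
      have : f i = false := by
        by_contra hcon
        exact hi ((h i).2 (by simpa using hcon))
      rw [this]; rfl
  rw [Finset.sum_congr rfl (fun i _ => e i)]
  clear e h
  induction n with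
  | zero => simp [cnt]
  | succ n ih =>
    rw [Fin.sum_univ_castSucc, cnt]
    have := ih (fun i => f i = true)
    simp only [Fin.val_castSucc, Fin.val_last]
    rw [this]

/-- Numbers of fixed points, of points adjacent or equal to their image, and of points fixed by
the square. -/
def i1 (σ : P40) : Nat := (Finset.univ.filter fun i => σ i = i).card
def i2 (σ : P40) : Nat := (Finset.univ.filter fun i => tr i (σ i) = σ i).card
def i3 (σ : P40) : Nat := (Finset.univ.filter fun i => σ (σ i) = i).card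

def key (σ : P40) : Nat := i1 σ + 64 * i2 σ + 4096 * i3 σ

theorem key_conj {g : P40} (hg : g ∈ G) (σ : P40) : key (g * σ * g⁻¹) = key σ := by
  have hgi : ∀ i, g⁻¹ (g i) = i := fun i => by simp
  have e1 : i1 σ = i1 (g * σ * g⁻¹) := by
    apply Finset.card_equiv g
    intro i
    rw [Finset.mem_filter, Finset.mem_filter]
    simp only [Finset.mem_univ, true_and, Equiv.Perm.mul_apply, hgi, g.injective.eq_iff]
  have e2 : i2 σ = i2 (g * σ * g⁻¹) := by
    apply Finset.card_equiv g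
    intro i
    rw [Finset.mem_filter, Finset.mem_filter]
    simp only [Finset.mem_univ, true_and, Equiv.Perm.mul_apply, hgi]
    exact (adj_iff hg _ _).symm
  have e3 : i3 σ = i3 (g * σ * g⁻¹) := by
    apply Finset.card_equiv g
    intro i
    rw [Finset.mem_filter, Finset.mem_filter]
    simp only [Finset.mem_univ, true_and, Equiv.Perm.mul_apply, hgi, g.injective.eq_iff]
  rw [key, key, e1, e2, e3]

def keyc (c : Nat) : Nat :=
  cnt (fun i => Nat.beq (ev c i) i) 40 + 64 * cnt (fun i => Nat.beq (tf i (ev c i)) (ev c i)) 40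
    + 4096 * cnt (fun i => Nat.beq (ev c (ev c i)) i) 40

theorem key_rep {σ : P40} {c : Nat} (h : Rep σ c) : key σ = keyc c := by
  rw [key, keyc]
  congr 1
  · congr 1
    · apply card_filter_cnt
      intro i
      rw [Nat.beq_eq, ← h i, Fin.ext_iff]
    · congr 1
      apply card_filter_cnt
      intro i
      rw [Nat.beq_eq, ← h i, Fin.ext_iff]
      rfl
  · congr 1
    apply card_filter_cnt
    intro i
    rw [Nat.beq_eq, ← h i, ← h (σ i), Fin.ext_iff]


/-- General bookkeeping for sets of the form P R with P a subgroup and R a list of four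
elements. -/
theorem quot_key {P : Subgroup P40} (hP : P ≤ G) (R : Fin 4 → P40) (keys : List Nat)
    (h : ∀ π ∈ P, ∀ i j : Fin 4, π * (R j * (R i)⁻¹) = 1 ∨ key (π * (R j * (R i)⁻¹)) ∈ keys)
    {π π' : P40} (hπ : π ∈ P) (hπ' : π' ∈ P) (i j : Fin 4) :
    π' * R j = π * R i ∨ key ((π' * R j) * (π * R i)⁻¹) ∈ keys := by
  have e : (π' * R j) * (π * R i)⁻¹ = π * (π⁻¹ * π' * (R j * (R i)⁻¹)) * π⁻¹ := by group
  rcases h (π⁻¹ * π') (P.mul_mem (P.inv_mem hπ) hπ') i j with h1 | h1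
  · left
    rw [h1, mul_one, mul_inv_cancel] at e
    exact mul_inv_eq_one.1 e
  · right
    rw [e, key_conj (hP hπ)]
    exact h1

def LK : List Nat := [
  0x9e69648e28607de75c6da6585d65544d24503ce34c2ca2481c61440c2040,
  0x1605889992e371b9c762111e90a4434d40903803496a51977cc76249504f,
  0x96798a2cc5976248a36996c51060830545533ce35d71e2072617e0491400,
  0x7632978046a61d815f78b89b2250924c355000f3468563247099d951104e,
  0x7d71879db70b8da94915682429e55204345338034866684461d88c50240f,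
  0x5858256892a478866684461d88c5520434533803671db5df18b72350240f,
  0x9a59de71d18414a30b65b69f8214524030813ce3628e41c92166175154c0,
  0x88b7845e06672457d891c31a1e645405209300f36158674a8c895b0d540e,
  0x72431f1581da9a158674a8c895b45405209300f3571202e27a76490d540e,
  0x60484995a8dc2d99887c65ca7a40944125413803476e75a016231d0d14cf,
  0x29d8d68469486d71202e27a764945405209300f3457d891c31a1e60d540e,
  0x19f5e664878a9076e75a016231d09441254138036525a11885c8cb0d14cf,
  0x81615b1e732276525a11885c8cb0944125413803599887c65ca7a40d14cf,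
  0x65a6e292310519d71e2072617e00830545533ce34b28c9e5997598491400,
  0x31c9201176e521f6052a375926754341444100f3561a189e2c799a4824ce,
  0x1c825c75e7e180b28c9e59975980830545533ce3648a36996c5106491400,
  0x8ca7587c52599d61a189e2c799a54341444100f34481770c9256c84824ce,
  0x7a22c65a198768481770c9256c854341444100f35f6052a37592674824ce,
  0x8581276c791e2896a51977cc7624434d40903803662198055a32dc49504f,
  0x5c67da26574c8a62198055a32dc4434d409038035b9c762111e90a49504f,
  0x12161922689d3271db5df18b72355204345338035a94915682429e50240f,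
  0x6d968c28b81f8628e41c92166174524030813ce35c79d9669c41855154c0,
  0x2472238a46165dc79d9669c41854524030813ce34a30b65b69f8215154c0,
  0x2de88561f21b9468563247099d90924c355000f3605c48dd2a668751104e,
  0x90c7211969c96605c48dd2a66870924c355000f35815f78b89b22551104e,
  0x69b65d79c5d858c2ca2481c61445544d24503ce3639229a796085f0c2040,
  0x2091cb30a1461239229a796085f5544d24503ce35e75c6da6585d60c2040]

def gK : Fin 2 → P40 := ![wd [16, 1, 1], wd [14, 0, 0]]

def GK : Subgroup P40 := Subgroup.closure (Set.range gK)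

def cgK : List Nat := [
  0x1605889992e371b9c762111e90a4434d40903803496a51977cc76249504f,
  0x96798a2cc5976248a36996c51060830545533ce35d71e2072617e0491400,
  0x7632978046a61d815f78b89b2250924c355000f3468563247099d951104e,
  0x9a59de71d18414a30b65b69f8214524030813ce3628e41c92166175154c0]

def parK : List (Nat × Nat) := [(0, 0), (0, 0), (1, 0), (0, 1), (1, 1), (0, 2), (1, 2), (1, 3), (0, 4), (1, 4), (0, 5), (1, 5), (0, 6), (0, 7), (1, 7), (0, 8), (1, 8), (0, 9), (1, 11), (1, 12), (0, 13), (1, 13), (0, 14), (1, 16), (1, 17), (1, 21), (1, 22)]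

theorem coverK : ∀ σ ∈ GK, ∃ N ∈ LK, Rep σ N := by
  apply cover (Set.range gK) LK cgK
  · rintro _ ⟨k, rfl⟩
    revert k
    decide +kernel
  · decide +kernel
  · decide +kernel

theorem GK_le : GK ≤ G := by
  unfold GK
  rw [Subgroup.closure_le]
  rintro _ ⟨k, rfl⟩
  fin_cases k
  · exact wd_mem _
  · exact wd_mem _

theorem gK_mem (k : Fin 2) : gK k ∈ GK := Subgroup.subset_closure ⟨k, rfl⟩

theorem cardK : 27 ≤ Nat.card GK := by
  apply card_ge GK LK cgK parK 27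
  · intro k hk
    refine ⟨gK ⟨k, hk⟩, gK_mem _, ?_⟩
    have : ∀ k : Fin 2, Rep (gK k) (cgK.getD k 0) := by decide +kernel
    exact this ⟨k, hk⟩
  · decide +kernel
  · decide +kernel
  · decide +kernel

def RX : Fin 4 → P40 := ![wd [], wd [1, 1, 0], wd [1, 0, 1], wd [0, 1, 1]]

def LDX : List Nat := [
  0x9e69648e28607de75c6da6585d65544d24503ce34c2ca2481c61440c2040,
  0x8629a58248e77d865d7176da7963d05133924553461cb2852483040400c2,
  0x9a38279219627dd69779b61c65651139548f4d034b20530918a1c4083001,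
  0x9618e08a79267dc61a5d979b7564cf44e41549434a1881473092c4001083,
  0x8259228669e37d771b65875e6963934903d45513452891c62cc2040400c2,
  0x9278639a08a57db79869d5d97164953d150e41334930620b147284083001,
  0x8a09e19639a47d95de61c69d6d640e54f4d151234714c18a20b244001083]

theorem repDX : ∀ i j : Fin 4, ∃ M ∈ LDX, Rep (RX j * (RX i)⁻¹) M := by decide +kernel

def keysX : List Nat := [17796, 21313, 33028, 54093]

theorem tabX : (LK.all fun N => LDX.all fun M =>
    Nat.beq (cmp N M) idc || keysX.any fun k => Nat.beq k (keyc (cmp N M))) = true := by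
  decide +kernel

theorem tab_use {L LD keys : List Nat} (ht : (L.all fun N => LD.all fun M =>
    Nat.beq (cmp N M) idc || keys.any fun k => Nat.beq k (keyc (cmp N M))) = true)
    {σ τ : P40} {N M : Nat} (hN : N ∈ L) (hM : M ∈ LD) (h1 : Rep σ N) (h2 : Rep τ M) :
    σ * τ = 1 ∨ key (σ * τ) ∈ keys := by
  have h := rep_mul h1 h2
  rw [List.all_eq_true] at ht
  have ht := ht N hN
  rw [List.all_eq_true] at ht
  have ht := ht M hM
  rw [Bool.or_eq_true, List.any_eq_true] at ht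
  rcases ht with ht | ⟨k, hk, ht⟩
  · left
    rw [Nat.beq_eq] at ht
    rw [ht] at h
    exact rep_inj h rep_one
  · right
    rw [Nat.beq_eq] at ht
    rw [key_rep h, ← ht]
    exact hk

theorem keyX : ∀ π ∈ GK, ∀ i j : Fin 4,
    π * (RX j * (RX i)⁻¹) = 1 ∨ key (π * (RX j * (RX i)⁻¹)) ∈ keysX := by
  intro π hπ i j
  obtain ⟨N, hN, h1⟩ := coverK π hπ
  obtain ⟨M, hM, h2⟩ := repDX i j
  exact tab_use tabX hN hM h1 h2

theorem sepX : ∀ i j : Fin 4, i ≠ j → ∀ N ∈ LK, ¬ Rep (RX j * (RX i)⁻¹) N := by decide +kernel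

theorem sqX : ∀ j : Fin 4, ∀ N ∈ LK, ¬ Rep (RX 1 * RX 1 * (RX j)⁻¹) N := by decide +kernel

def LH : List Nat := [
  0x9e69648e28607de75c6da6585d65544d24503ce34c2ca2481c61440c2040,
  0x91b1217879d828c5e525d7c66a23824d101050336315998b5a021c54f052,
  0x12674e0515e31e719c89820335255300b6df64c86458908f42515e68a814,
  0x8497273169066636849972a07470cf4c049009535e21f6c58982e5394051,
  0x3a27979d010326435d0861e561130a01b51f4da8411489964a33dc55980b,
  0x71b5c304069e5a48251c62d535139348524a7e39e18a63d440420c759602,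
  0x7a618c81b34140495c4433da84b5405168872245ce4822997dd1676098d3,
  0x5c27049123a520161e98d2631906990142df2958673c788544359d31381b,
  0xc731a9107159a13573e05841808d948908a4dd9c120b6e245e52539f605,
  0x3119cd11f79a08e8462a541d0db9095224c70185e014f9922c165c5488d6,
  0x94969505274c8a16045a014e3400d344899929e9271db50241c2e35df18f,
  0x72235a81462748e8dd42559585b3002c50891c11174666537de3e41880ca,
  0x31b82360934141c12501551d9c53920a21d62e168344f65f2972241a6793,
  0x68f95c8510c42c118c6cd99e81075f48214a64e9e45161c80158978d3609,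
  0x34a71e38b31d3e00e79a108195f6085135872555c46504456da4869008e2,
  0x5568dd85094e6e735a51889c81279f4663d94d79012c524700c0840ca188,
  0x69091839f71599784d66349e9540482c22890061203d68916e74dd3070c5,
  0x8c090d70a31d3c39e06444175498660874d64866982146d11417e538b7a2,
  0x74261580b1a44570de4a314c8546806cf9882673844224ca7dc581347959,
  0x94735d6021a444379740488e9c98d21483e658171a01b7d328c52180b559,
  0x7118588d30c42cc0467dd4955e291458528242078d6e62001e764e94f689,
  0x8c961e1a634142570448e0979080d13c75a21677550147ca65a2e181b313,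
  0x9228c10c28607dc79d5154c610530b29141259761a6d920724d3ce9669c0,
  0x7541259c055c14182324d6cc6105ca44f2197c39210a258b48e1da7931a6,
  0x61975c5db69e5a09648a19a78df1872ca14920c10e4d240f51544d0400c2,
  0x35994c0c58d75185646e73c110a18b09389698e69c7d000825d460852787,
  0x5520465df74c8848584c345c8cb9c76e664800d3a058509052429e68994f,
  0x7508460ca94e6da9cd7de44c10204b14f6664a07185221c02644d78d6548,
  0x61f38330771598d5e12012e775380f58a2425257a365245b884006910685,
  0x79284d9598d75159187dc41a3a69db3d64e24607462c22402012840c5307,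
  0x543a170990665a12321e7cd5425e62900122e56033d389b1601dd3169d1,
  0x5cf18e60582101a54c45e2239c27522546cb9a40dc4074d92a588135611f,
  0x18a0d58d694e6cd6a72c11645d361489998f08431e7d10091dc4a0850748,
  0x11635718f82101531a41c1c392679120b51b88195d4892936630a760539f,
  0x9409c679355c16306029744e68784288864f41830d25b2d25a47c3114766,
  0x420e79668607dd71e2cc28d38f69b6504911441955131c92185978e2900,
  0x84778154f9d82a531708e4e07088c564041189a19d25f2d698d50311b912,
  0x39106068a5e31dc9c64d502578591625b7cb48d0d88883d00a164c766114,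
  0x19379d11455c1608c10a18a40df3496d93c81da3972914962cc4189c0966,
  0x19f5e568974c8981211e76e478a8161592262e37034d141408e00d05254f,
  0xc819c3626274a374e4579840479505891423e478c00b7d94d56e181468a,
  0x35f12354879a0863a12645017198053d31e26c376529048b9970189d1316,
  0x84876468504d4c354e88466078995628045298c61c1df50f0866e35cb9d0,
  0x54b8253471a445e5c301a6dc0561108a620f52132348529f4ce267602759,
  0x5d09e055910325d90d28c02370f0452147db4589460875929a14da7a238b,
  0x9cb5e174804d4d53831dc7d83261226520116e31a558a0943e025e685910,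
  0x8133177023a52187813e71e154a36625f50b59d0da64046216340691211b,
  0x69480318862749d3a300c2de90f5d19822456e15654164df6441c136270a,
  0x81954e7a210324d7641412216931821df6d43dc8cc2804a65a54589d05cb,
  0x1129203133a521e05865a0037569cf1cb7d44068cd9891518a12957025db,
  0x4f56411b9d829794c16364d0d47497d044021c80e0935a62c689a787852,
  0x80a6847665e31c67275a426131962221f2db15e9554c04023c348d051394,
  0x9d63013949066448da3c34d894b7887d24001dd81798a1626cd095709851,
  0xc005875969e5a59204ce48430886298928544d5461cb5103e77e35db702,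
  0x38560435682100c69549d2650627101db2d40a78de44864a4c39a418f5df,
  0x9056a75cb04d4ce0d55a52868db7077d148025e8048993c251898c748850,
  0x6138da94f0c42c63015245a739935b98a08589755d7d200721e420851709,
  0x8c854c9d179a0a118e1603d760094a40789365c0642542e649d6c311f356,
  0x78b3a390031d3e780321851a1921194161d37e506198215b45725570a362,
  0x3050de8528d75246152c609d81171f4225932840676cf20901a98e959347]

def gH : Fin 2 → P40 := ![wd [13, 16], wd [28, 38]]

def GH : Subgroup P40 := Subgroup.closure (Set.range gH)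

def cgH : List Nat := [
  0x91b1217879d828c5e525d7c66a23824d101050336315998b5a021c54f052,
  0x12674e0515e31e719c89820335255300b6df64c86458908f42515e68a814,
  0x8497273169066636849972a07470cf4c049009535e21f6c58982e5394051,
  0x7a618c81b34140495c4433da84b5405168872245ce4822997dd1676098d3]

def parH : List (Nat × Nat) := [(0, 0), (0, 0), (1, 0), (0, 1), (1, 1), (0, 2), (1, 2), (1, 3), (0, 4), (1, 4), (0, 5), (1, 5), (0, 6), (0, 7), (1, 7), (0, 8), (1, 8), (0, 9), (1, 10), (0, 11), (1, 11), (0, 12), (1, 12), (0, 13), (1, 13), (0, 14), (1, 15), (0, 16), (1, 16), (0, 17), (1, 17), (0, 18), (1, 18), (0, 19), (0, 20), (1, 21), (0, 22), (1, 22), (1, 23), (0, 24), (1, 24), (0, 25), (1, 25), (1, 26), (0, 27), (1, 29), (1, 30), (0, 31), (0, 32), (0, 34), (0, 35), (1, 35), (0, 36), (0, 37), (0, 43), (0, 45), (0, 46), (1, 48), (1, 49), (1, 54)]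

theorem coverH : ∀ σ ∈ GH, ∃ N ∈ LH, Rep σ N := by
  apply cover (Set.range gH) LH cgH
  · rintro _ ⟨k, rfl⟩
    revert k
    decide +kernel
  · decide +kernel
  · decide +kernel

theorem GH_le : GH ≤ G := by
  unfold GH
  rw [Subgroup.closure_le]
  rintro _ ⟨k, rfl⟩
  fin_cases k
  · exact wd_mem _
  · exact wd_mem _

theorem gH_mem (k : Fin 2) : gH k ∈ GH := Subgroup.subset_closure ⟨k, rfl⟩

theorem cardH : 60 ≤ Nat.card GH := by
  apply card_ge GH LH cgH parH 60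
  · intro k hk
    refine ⟨gH ⟨k, hk⟩, gH_mem _, ?_⟩
    have : ∀ k : Fin 2, Rep (gH k) (cgH.getD k 0) := by decide +kernel
    exact this ⟨k, hk⟩
  · decide +kernel
  · decide +kernel
  · decide +kernel

def RY : Fin 4 → P40 := ![wd [], wd [1, 23, 26], wd [3, 6, 10], wd [0, 12, 16, 31]]

def LDY : List Nat := [
  0x9e69648e28607de75c6da6585d65544d24503ce34c2ca2481c61440c2040,
  0x14e7c85222d19427590da7005d62634c680d32640f8445641d29ca6de058,
  0x61f3a441a55c98f5a06e24674dd84d5d26637a550224a2c80460040cc1c5,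
  0x2598835a25938c5910e28054dd2d05c671409f8de54486405260a6cf1e7]

theorem repDY : ∀ i j : Fin 4, ∃ M ∈ LDY, Rep (RY j * (RY i)⁻¹) M := by decide +kernel

def keysY : List Nat := [640, 1024, 16642, 16644, 17408, 17794, 164864, 166408]

theorem tabY : (LH.all fun N => LDY.all fun M =>
    Nat.beq (cmp N M) idc || keysY.any fun k => Nat.beq k (keyc (cmp N M))) = true := by
  decide +kernel

theorem keyY : ∀ π ∈ GH, ∀ i j : Fin 4,
    π * (RY j * (RY i)⁻¹) = 1 ∨ key (π * (RY j * (RY i)⁻¹)) ∈ keysY := by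
  intro π hπ i j
  obtain ⟨N, hN, h1⟩ := coverH π hπ
  obtain ⟨M, hM, h2⟩ := repDY i j
  exact tab_use tabY hN hM h1 h2

theorem sepY : ∀ i j : Fin 4, i ≠ j → ∀ N ∈ LH, ¬ Rep (RY j * (RY i)⁻¹) N := by decide +kernel

theorem sqY : ∀ j : Fin 4, ∀ N ∈ LH, ¬ Rep (RY 1 * gH 1 * (RY j)⁻¹) N := by decide +kernel

theorem keys_disj : ∀ k ∈ keysX, k ∉ keysY := by decide +kernel

theorem RX_mem (i : Fin 4) : RX i ∈ G := by
  fin_cases i <;> exact wd_mem _

theorem RY_mem (i : Fin 4) : RY i ∈ G := by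
  fin_cases i <;> exact wd_mem _

theorem uniq {P : Subgroup P40} {L : List Nat} (hc : ∀ σ ∈ P, ∃ N ∈ L, Rep σ N)
    {R : Fin 4 → P40} (hs : ∀ i j : Fin 4, i ≠ j → ∀ N ∈ L, ¬ Rep (R j * (R i)⁻¹) N)
    {π π' : P40} (hπ : π ∈ P) (hπ' : π' ∈ P) {i j : Fin 4} (h : π' * R j = π * R i) :
    π' = π ∧ j = i := by
  by_cases hij : i = j
  · subst hij
    exact ⟨mul_right_cancel h, rfl⟩
  · exfalso
    have e : R j * (R i)⁻¹ = π'⁻¹ * π := by
      have : R j = π'⁻¹ * (π * R i) := by rw [← h]; group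
      rw [this]; group
    obtain ⟨N, hN, hr⟩ := hc (π'⁻¹ * π) (P.mul_mem (P.inv_mem hπ') hπ)
    rw [← e] at hr
    exact hs i j hij N hN hr

def setA : Set G := {σ | ∃ π ∈ GK, ∃ i : Fin 4, (σ : P40) = π * RX i}

def setB : Set G := {σ | ∃ π ∈ GH, ∃ i : Fin 4, (σ : P40) = π * RY i}

/-- The product map attached to g. -/
def phi (g : G) (x : (GK × Fin 4) × (GH × Fin 4)) : G :=
  (⟨(x.1.1 : P40) * RX x.1.2, G.mul_mem (GK_le x.1.1.2) (RX_mem _)⟩ : G)⁻¹ * g *
    ⟨(x.2.1 : P40) * RY x.2.2, G.mul_mem (GH_le x.2.1.2) (RY_mem _)⟩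

theorem phi_inj (g : G) : Function.Injective (phi g) := by
  rintro ⟨⟨a, i⟩, ⟨b, j⟩⟩ ⟨⟨a', i'⟩, ⟨b', j'⟩⟩ h
  have h' : ((a : P40) * RX i)⁻¹ * (g : P40) * ((b : P40) * RY j) =
      ((a' : P40) * RX i')⁻¹ * (g : P40) * ((b' : P40) * RY j') :=
    congrArg (fun x : G => (x : P40)) h
  have e : ((a' : P40) * RX i') * ((a : P40) * RX i)⁻¹ =
      (g : P40) * (((b' : P40) * RY j') * ((b : P40) * RY j)⁻¹) * (g : P40)⁻¹ := by
    calc ((a' : P40) * RX i') * ((a : P40) * RX i)⁻¹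
        = ((a' : P40) * RX i') * (((a : P40) * RX i)⁻¹ * (g : P40) * ((b : P40) * RY j)) *
            ((b : P40) * RY j)⁻¹ * (g : P40)⁻¹ := by group
      _ = ((a' : P40) * RX i') * (((a' : P40) * RX i')⁻¹ * (g : P40) * ((b' : P40) * RY j')) *
            ((b : P40) * RY j)⁻¹ * (g : P40)⁻¹ := by rw [h']
      _ = _ := by group
  have qa := quot_key GK_le RX keysX keyX a.2 a'.2 i i'
  have qb := quot_key GH_le RY keysY keyY b.2 b'.2 j j'
  have hab : (a' : P40) * RX i' = (a : P40) * RX i ∧ (b' : P40) * RY j' = (b : P40) * RY j := by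
    rcases qa with qa | qa
    · refine ⟨qa, ?_⟩
      rw [qa, mul_inv_cancel] at e
      have e2 : ((b' : P40) * RY j') * ((b : P40) * RY j)⁻¹ = 1 := by
        have := congrArg (fun x => (g : P40)⁻¹ * x * (g : P40)) e
        simp only [mul_one, inv_mul_cancel] at this
        rw [this]; group
      exact mul_inv_eq_one.1 e2
    · exfalso
      rcases qb with qb | qb
      · rw [qb, mul_inv_cancel, mul_one, mul_inv_cancel] at e
        rw [e] at qa
        have h1 : key (1 : P40) ∉ keysX := by decide +kernel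
        exact h1 qa
      · rw [e, key_conj g.2] at qa
        exact keys_disj _ qa qb
  obtain ⟨u1, u2⟩ := uniq coverK sepX a.2 a'.2 hab.1
  obtain ⟨v1, v2⟩ := uniq coverH sepY b.2 b'.2 hab.2
  subst u2
  subst v2
  have u3 : a' = a := Subtype.ext u1
  have v3 : b' = b := Subtype.ext v1
  subst u3
  subst v3
  rfl

theorem phi_surj (g : G) : Function.Surjective (phi g) := by
  have hc : Nat.card G ≤ Nat.card ((GK × Fin 4) × (GH × Fin 4)) := by
    rw [Nat.card_prod, Nat.card_prod, Nat.card_prod, Nat.card_fin]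
    calc Nat.card G ≤ 27 * 4 * (60 * 4) := card_G_le
      _ ≤ _ := Nat.mul_le_mul (Nat.mul_le_mul_right 4 cardK) (Nat.mul_le_mul_right 4 cardH)
  exact ((phi_inj g).bijective_of_nat_card_le hc).2

theorem exact_pair (g h : G) : Set.ncard ((fun a => g⁻¹ * a * h) '' setA ∩ setB) = 1 := by
  rw [Set.ncard_eq_one]
  obtain ⟨⟨⟨a, i⟩, ⟨b, j⟩⟩, hx⟩ := phi_surj g h
  refine ⟨⟨(b : P40) * RY j, G.mul_mem (GH_le b.2) (RY_mem _)⟩, ?_⟩
  ext y
  constructor
  · rintro ⟨⟨z, ⟨a', ha', i', hz⟩, hy⟩, ⟨b', hb', j', hy'⟩⟩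
    have e : phi g ((⟨a', ha'⟩, i'), (⟨b', hb'⟩, j')) = h := by
      apply Subtype.ext
      show ((a' : P40) * RX i')⁻¹ * (g : P40) * ((b' : P40) * RY j') = (h : P40)
      rw [← hz, ← hy', ← hy]
      show ((z : P40))⁻¹ * (g : P40) * ((g : P40)⁻¹ * (z : P40) * (h : P40)) = (h : P40)
      group
    rw [← hx] at e
    have e' := phi_inj g e
    have e1 : (⟨b', hb'⟩ : GH) = b := congrArg (fun x => x.2.1) e'
    have e2 : j' = j := congrArg (fun x => x.2.2) e'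
    subst e1
    subst e2
    exact Subtype.ext hy'
  · intro hy
    rw [Set.mem_singleton_iff] at hy
    subst hy
    refine ⟨⟨⟨(a : P40) * RX i, G.mul_mem (GK_le a.2) (RX_mem _)⟩, ⟨a, a.2, i, rfl⟩, ?_⟩,
      ⟨b, b.2, j, rfl⟩⟩
    apply Subtype.ext
    have hx' : ((a : P40) * RX i)⁻¹ * (g : P40) * ((b : P40) * RY j) = (h : P40) :=
      congrArg (fun x : G => (x : P40)) hx
    show (g : P40)⁻¹ * ((a : P40) * RX i) * (h : P40) = (b : P40) * RY j
    rw [← hx']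
    group

theorem RX_zero : RX 0 = 1 := rfl
theorem RY_zero : RY 0 = 1 := rfl

theorem coset_eq {A : Set G} (h1 : (1 : G) ∈ A) {H : Subgroup G} {x : G}
    (hA : A = (fun y => x * y) '' (H : Set G)) : ∀ a ∈ A, ∀ b ∈ A, a * b ∈ A := by
  have hx : x ∈ H := by
    rw [hA] at h1
    obtain ⟨y, hy, e⟩ := h1
    have : x = y⁻¹ := eq_inv_of_mul_eq_one_left e
    rw [this]
    exact H.inv_mem hy
  have hmem : ∀ a, a ∈ A ↔ a ∈ H := by
    intro a
    rw [hA]
    constructor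
    · rintro ⟨y, hy, rfl⟩
      exact H.mul_mem hx hy
    · intro ha
      exact ⟨x⁻¹ * a, H.mul_mem (H.inv_mem hx) ha, by group⟩
  intro a ha b hb
  exact (hmem _).2 (H.mul_mem ((hmem _).1 ha) ((hmem _).1 hb))

theorem notA : ¬ ∃ H : Subgroup G, ∃ x : G, setA = (fun y => x * y) '' (H : Set G) := by
  rintro ⟨H, x, hA⟩
  have h1 : (1 : G) ∈ setA := ⟨1, GK.one_mem, 0, by rw [RX_zero]; rfl⟩
  have h2 : (⟨RX 1, RX_mem 1⟩ : G) ∈ setA := ⟨1, GK.one_mem, 1, by rw [one_mul]⟩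
  obtain ⟨π, hπ, j, e⟩ := coset_eq h1 hA _ h2 _ h2
  have e' : RX 1 * RX 1 = π * RX j := e
  obtain ⟨N, hN, hr⟩ := coverK π hπ
  apply sqX j N hN
  rw [e', mul_assoc, mul_inv_cancel, mul_one]
  exact hr

theorem notB : ¬ ∃ H : Subgroup G, ∃ x : G, setB = (fun y => x * y) '' (H : Set G) := by
  rintro ⟨H, x, hA⟩
  have h1 : (1 : G) ∈ setB := ⟨1, GH.one_mem, 0, by rw [RY_zero]; rfl⟩
  have h2 : (⟨RY 1, RY_mem 1⟩ : G) ∈ setB := ⟨1, GH.one_mem, 1, by rw [one_mul]⟩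
  have h3 : (⟨gH 1, GH_le (gH_mem 1)⟩ : G) ∈ setB := ⟨gH 1, gH_mem 1, 0, by rw [RY_zero, mul_one]⟩
  obtain ⟨π, hπ, j, e⟩ := coset_eq h1 hA _ h2 _ h3
  have e' : RY 1 * gH 1 = π * RY j := e
  obtain ⟨N, hN, hr⟩ := coverH π hπ
  apply sqY j N hN
  rw [e', mul_assoc, mul_inv_cancel, mul_one]
  exact hr

/-- There is a finite simple group G and subsets A, B of G, neither a coset of a subgroup, such that for all g, h in G the set g⁻¹Ah meets B in exactly one element. -/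
theorem result :
    ∃ (G : Type) (_ : Group G), Finite G ∧ IsSimpleGroup G ∧
      ∃ A B : Set G,
        (¬ ∃ H : Subgroup G, ∃ x : G, A = (fun y => x * y) '' (H : Set G)) ∧
        (¬ ∃ H : Subgroup G, ∃ x : G, B = (fun y => x * y) '' (H : Set G)) ∧
        ∀ g h : G, Set.ncard ((fun a => g⁻¹ * a * h) '' A ∩ B) = 1 := by
  exact ⟨G, inferInstance, inferInstance, simpleG, setA, setB, notA, notB, exact_pair⟩

end Pool.Agent.S01831
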