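import Pool.Statements.S01844
import Pool.Agent.Helper944.Char

set_option autoImplicit false
open Pool Pool.MP_b5e13b_al

namespace Pool.Agent.S01844

/-- The negation of the preceding statement: For each class (locally nilpotent torsion-free; locally soluble π-groups, any π; locally soluble torsion-free; locally soluble), every existentially closed member G has no characteristic subgroups other than 1 and G. -/
theorem result :
    ¬ (∀ (P : (H : Type) → Group H → Prop),
      (P = (fun (H : Type) (i : Group H) =>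
              (∀ S : Finset H, Group.IsNilpotent (Subgroup.closure (S : Set H))) ∧
              (∀ g : H, g ≠ 1 → orderOf g = 0)) ∨
       (∃ π : Set ℕ, P = (fun (H : Type) (i : Group H) =>
              (∀ S : Finset H, IsSolvable (Subgroup.closure (S : Set H))) ∧
              (∀ g : H, orderOf g ≠ 0 ∧ ∀ p : ℕ, p.Prime → p ∣ orderOf g → p ∈ π))) ∨
       P = (fun (H : Type) (i : Group H) =>
              (∀ S : Finset H, IsSolvable (Subgroup.closure (S : Set H))) ∧
              (∀ g : H, g ≠ 1 → orderOf g = 0)) ∨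
       P = (fun (H : Type) (i : Group H) =>
              (∀ S : Finset H, IsSolvable (Subgroup.closure (S : Set H))))) →
      ∀ (G : Type) (instG : Group G), P G instG →
        (∀ (H : Type) (iH : Group H), P H iH →
          ∀ f : G →* H, Function.Injective f →
            ∀ n : ℕ, ∀ E U : Finset (Monoid.Coprod G (FreeGroup (Fin n))),
              (∃ x : Fin n → H,
                  (∀ w ∈ E, Monoid.Coprod.lift f (FreeGroup.lift x) w = 1) ∧
                  (∀ w ∈ U, Monoid.Coprod.lift f (FreeGroup.lift x) w ≠ 1)) →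
              ∃ y : Fin n → G,
                  (∀ w ∈ E, Monoid.Coprod.lift (MonoidHom.id G) (FreeGroup.lift y) w = 1) ∧
                  (∀ w ∈ U, Monoid.Coprod.lift (MonoidHom.id G) (FreeGroup.lift y) w ≠ 1)) →
        ∀ N : Subgroup G, N.Characteristic → N = ⊥ ∨ N = ⊤) := by
  intro h
  have : Fact (Nat.Prime 2) := ⟨Nat.prime_two⟩
  obtain ⟨G, gG, v, hG⟩ := Pool.Agent.Helper944.exists_rich_omega (p := 2)
    (V := Pool.Agent.Helper944.Lab) Pool.Agent.Helper944.Om_not_countable
    Pool.Agent.Helper944.Om_Iic Pool.Agent.Helper944.LabΛ Pool.Agent.Helper944.LabΛ_mono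
    Pool.Agent.Helper944.LabΛ_countable Pool.Agent.Helper944.LabΛ_cover
  have hchar := Pool.Agent.Helper944.small_characteristic hG
  have hmain := h _ (Or.inr (Or.inl ⟨{2}, rfl⟩)) G gG
    ⟨fun S => hG.closure_solvable _ S.finite_toSet, fun g => hG.order g⟩
    (by
      intro H iH hH f hf n E U hx
      obtain ⟨x, hE, hU⟩ := hx
      exact hG.ec H hH.1 hH.2 f hf n E U x hE hU) _ hchar
  obtain ⟨α, _⟩ := Pool.Agent.Helper944.exists_above Pool.Agent.Helper944.Om_not_countable
    Pool.Agent.Helper944.Om_Iic ∅ Set.countable_empty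
  rcases hmain with hbot | htop
  · obtain ⟨x, hx⟩ := hG.surj ((toLex ((α : WithTop Pool.Agent.Helper944.Om), (0 : ℚ)) :
      WithTop Pool.Agent.Helper944.Om ×ₗ ℚ) : Pool.Agent.Helper944.Lab)
    have hxs : x ∈ Pool.Agent.Helper944.small Pool.Agent.Helper944.Lab v hG := by
      rw [Pool.Agent.Helper944.mem_small, hx]
      exact Pool.Agent.Helper944.Lab_Iic_small α 0
    rw [hbot, Subgroup.mem_bot] at hxs
    rw [hxs, hG.val.one] at hx
    exact WithBot.bot_ne_coe hx
  · obtain ⟨x, hx⟩ := hG.surj ((toLex ((⊤ : WithTop Pool.Agent.Helper944.Om), (0 : ℚ)) :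
      WithTop Pool.Agent.Helper944.Om ×ₗ ℚ) : Pool.Agent.Helper944.Lab)
    have hxs : x ∈ Pool.Agent.Helper944.small Pool.Agent.Helper944.Lab v hG := by
      rw [htop]; exact Subgroup.mem_top x
    rw [Pool.Agent.Helper944.mem_small, hx] at hxs
    exact Pool.Agent.Helper944.Lab_Iic_big 0 hxs

end Pool.Agent.S01844
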