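import Pool.Statements.S01865
import Pool.Agent.H652.SR.Main

set_option autoImplicit false
open Pool Pool.MP_b7b920_al

namespace Pool.Agent.S01865

/-- In every torsion-free soluble group, each finite-index subgroup has the same special (Mal'cev) rank as the group, meaning for each r: all f.g. subgroups of G are r-generated iff all f.g. subgroups of H are. -/
theorem result :
    ∀ (G : Type) [Group G], IsSolvable G → (∀ g : G, IsOfFinOrder g → g = 1) →
      ∀ H : Subgroup G, H.index ≠ 0 →
        ∀ r : ℕ,
          ((∀ K : Subgroup G, K.FG →
              ∃ s : Finset G, s.card ≤ r ∧ Subgroup.closure (s : Set G) = K) ↔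
           (∀ K : Subgroup G, K ≤ H → K.FG →
              ∃ s : Finset G, s.card ≤ r ∧ Subgroup.closure (s : Set G) = K)) := by
  intro G _ hs htf H hH r
  exact Pool.Agent.H652.SR.main G hs htf H hH r

end Pool.Agent.S01865
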