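import Pool.Statements.S01869
import Pool.Agent.Helper807.NF.Main9

set_option autoImplicit false
open scoped TensorProduct
open Pool Pool.MP_b83182_al

namespace Pool.Agent.S01869

/-- Some finite-dimensional nilpotent real Lie algebra has ℚ-forms falling into exactly k isomorphism classes, with k finite and at least 2. -/
theorem result :
    ∃ (L : Type) (_ : LieRing L) (_ : LieAlgebra ℝ L),
      FiniteDimensional ℝ L ∧
      (∃ n : ℕ, LieModule.lowerCentralSeries ℝ L L n = ⊥) ∧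
      ∃ k : ℕ, 1 < k ∧
        ∃ (M : Fin k → Type) (_ : ∀ i, LieRing (M i)) (_ : ∀ i, LieAlgebra ℚ (M i)),
          (∀ i, Nonempty (L ≃ₗ⁅ℝ⁆ ℝ ⊗[ℚ] M i)) ∧
          (∀ i j, Nonempty (M i ≃ₗ⁅ℚ⁆ M j) → i = j) ∧
          ∀ (N : Type) (_ : LieRing N) (_ : LieAlgebra ℚ N),
            Nonempty (L ≃ₗ⁅ℝ⁆ ℝ ⊗[ℚ] N) → ∃ i, Nonempty (N ≃ₗ⁅ℚ⁆ M i) := by
  refine ⟨Helper807.NF.LR, inferInstance, inferInstance, Helper807.NF.fd ℝ _,
    ⟨3, Helper807.NF.nilp⟩, 2, one_lt_two,
    fun i => Helper807.NF.LL ℚ (![Helper807.NF.tA, Helper807.NF.tB] i),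
    fun _ => inferInstance, fun _ => inferInstance, ?_, ?_, ?_⟩
  · intro i
    fin_cases i
    · obtain ⟨e⟩ := Helper807.NF.base_change Helper807.NF.tA
      have h : (fun i => ((Helper807.NF.tA i : ℚ) : ℝ)) = fun _ => (1 : ℝ) := by
        ext i; simp
      unfold Helper807.NF.LT at e
      rw [h] at e
      exact ⟨e⟩
    · obtain ⟨e⟩ := Helper807.NF.base_change Helper807.NF.tB
      obtain ⟨f⟩ := Helper807.NF.real_iso
      exact ⟨f.trans e⟩
  · intro i j h
    fin_cases i <;> fin_cases j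
    · rfl
    · exact absurd h Helper807.NF.not_iso
    · obtain ⟨e⟩ := h
      exact absurd ⟨e.symm⟩ Helper807.NF.not_iso
    · rfl
  · rintro N _ _ ⟨Φ⟩
    rcases Helper807.NF.two_classes Φ with h | h
    · exact ⟨0, h⟩
    · exact ⟨1, h⟩

end Pool.Agent.S01869
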