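import Pool.Statements.S01878
import Pool.Agent.Helper184.LsdFinal

set_option autoImplicit false
open Pool Pool.MP_b97972_al

namespace Pool.Agent.S01878

/-- The negation of the preceding statement: For a nonempty Latin square, if its determinant in commuting symbol variables factors over ℂ into distinct irreducibles, each raised to its own degree, then the square is a group multiplication table up to reordering rows and relabelling symbols. -/
theorem result :
    ¬ (∀ (n : ℕ), 0 < n → ∀ (L : Fin n → Fin n → Fin n),
    (∀ i, Function.Bijective (L i)) →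
    (∀ j, Function.Bijective (fun i => L i j)) →
    (∃ (k : ℕ) (P : Fin k → MvPolynomial (Fin n) ℂ) (c : ℂ), c ≠ 0 ∧
      (∀ j, Irreducible (P j)) ∧
      (∀ i j, i ≠ j → ¬ Associated (P i) (P j)) ∧
      (Matrix.of (fun i j => (MvPolynomial.X (L i j) : MvPolynomial (Fin n) ℂ))).det
        = MvPolynomial.C c * ∏ j, P j ^ (P j).totalDegree) →
    ∃ (G : Type) (_ : Group G) (a : Fin n ≃ G) (b : Fin n ≃ G) (e : G ≃ Fin n),
      ∀ i j, L i j = e (a i * b j)) := by
  exact Pool.Agent.Helper184.Lsd.main

end Pool.Agent.S01878
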