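import Pool.Statements.S01881
-- import your own Pool.Agent.* helpers here

set_option autoImplicit false
open Pool Pool.MP_b9977e_al

namespace Pool.Agent.S01881

section aux
open MvPolynomial

lemma aeval_mon {e : ℕ} (g : Fin e → ℕ) (u : Fin e →₀ ℕ) (c : ℚ) :
    MvPolynomial.aeval (fun i : Fin e => (Polynomial.X : Polynomial ℚ) ^ g i) (monomial u c)
      = Polynomial.C c * Polynomial.X ^ (Finsupp.weight g u) := by
  rw [MvPolynomial.aeval_monomial]
  congr 1
  rw [Finsupp.weight_apply, Finsupp.prod, Finsupp.sum, ← Finset.prod_pow_eq_pow_sum]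
  apply Finset.prod_congr rfl
  intro i _
  rw [← pow_mul, smul_eq_mul, mul_comm]

lemma binom_mem_ker {e : ℕ} (g : Fin e → ℕ) (u v : Fin e →₀ ℕ)
    (h : Finsupp.weight g u = Finsupp.weight g v) :
    (monomial u (1:ℚ) - monomial v 1) ∈
      RingHom.ker (MvPolynomial.aeval (fun i : Fin e => (Polynomial.X : Polynomial ℚ) ^ g i)) := by
  rw [RingHom.mem_ker, map_sub, aeval_mon, aeval_mon, h, sub_self]

lemma weight_sub_single {e : ℕ} (g : Fin e → ℕ) (u : Fin e →₀ ℕ) (i : Fin e) (hi : u i ≠ 0) :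
    ∃ u' : Fin e →₀ ℕ, u = Finsupp.single i 1 + u' ∧ Finsupp.weight g u = g i + Finsupp.weight g u' := by
  have h1 : u = Finsupp.single i 1 + (u - Finsupp.single i 1) := by
    rw [add_comm, tsub_add_cancel_of_le]
    rw [Finsupp.single_le_iff]
    omega
  refine ⟨u - Finsupp.single i 1, h1, ?_⟩
  conv_lhs => rw [h1]
  rw [map_add, Finsupp.weight_single, one_smul]

lemma step {e : ℕ} (g : Fin e → ℕ) (i : Fin e) (u v : Fin e →₀ ℕ)
    (h : Finsupp.weight g u = Finsupp.weight g v) :
    (monomial (Finsupp.single i 1 + u) (1:ℚ) - monomial (Finsupp.single i 1 + v) 1) ∈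
    Ideal.span (Set.range (MvPolynomial.X : Fin e → MvPolynomial (Fin e) ℚ)) *
      RingHom.ker (MvPolynomial.aeval (fun i : Fin e => (Polynomial.X : Polynomial ℚ) ^ g i)) := by
  have : (monomial (Finsupp.single i 1 + u) (1:ℚ) - monomial (Finsupp.single i 1 + v) 1)
      = X i * (monomial u (1:ℚ) - monomial v 1) := by
    rw [mul_sub, X, monomial_mul, monomial_mul, one_mul]
  rw [this]
  exact Ideal.mul_mem_mul (Ideal.subset_span ⟨i, rfl⟩) (binom_mem_ker g u v h)

lemma binom_mem {e : ℕ} (g : Fin e → ℕ) (d : ℕ) (hd : 0 < d)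
    (H : ∀ i j : Fin e, i ≠ j → ∃ z : Fin e →₀ ℕ, d = g i + g j + Finsupp.weight g z)
    (u v : Fin e →₀ ℕ) (hu : Finsupp.weight g u = d) (hv : Finsupp.weight g v = d) :
    (monomial u (1:ℚ) - monomial v 1) ∈
    Ideal.span (Set.range (MvPolynomial.X : Fin e → MvPolynomial (Fin e) ℚ)) *
      RingHom.ker (MvPolynomial.aeval (fun i : Fin e => (Polynomial.X : Polynomial ℚ) ^ g i)) := by
  have hu0 : ∃ i, u i ≠ 0 := by
    by_contra hcon
    push Not at hcon
    have : u = 0 := by ext i; simpa using hcon i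
    rw [this, map_zero] at hu
    omega
  have hv0 : ∃ i, v i ≠ 0 := by
    by_contra hcon
    push Not at hcon
    have : v = 0 := by ext i; simpa using hcon i
    rw [this, map_zero] at hv
    omega
  obtain ⟨i, hi⟩ := hu0
  obtain ⟨j, hj⟩ := hv0
  obtain ⟨u', hu', hwu⟩ := weight_sub_single g u i hi
  obtain ⟨v', hv', hwv⟩ := weight_sub_single g v j hj
  by_cases hij : i = j
  · subst hij
    rw [hu', hv']
    apply step
    omega
  · obtain ⟨z, hz⟩ := H i j hij
    have e1 := step g i u' (Finsupp.single j 1 + z) (by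
      rw [map_add, Finsupp.weight_single, one_smul]; omega)
    have e2 := step g j (Finsupp.single i 1 + z) v' (by
      rw [map_add, Finsupp.weight_single, one_smul]; omega)
    have : (monomial u (1:ℚ) - monomial v 1) =
      (monomial (Finsupp.single i 1 + u') (1:ℚ) - monomial (Finsupp.single i 1 + (Finsupp.single j 1 + z)) 1)
      + (monomial (Finsupp.single j 1 + (Finsupp.single i 1 + z)) (1:ℚ) - monomial (Finsupp.single j 1 + v') 1) := by
      rw [← hu', ← hv', ← add_assoc, ← add_assoc, add_comm (Finsupp.single i 1) (Finsupp.single j 1)]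
      ring
    rw [this]
    exact Ideal.add_mem _ e1 e2

lemma poly_mem {e : ℕ} (g : Fin e → ℕ) (d : ℕ) (hd : 0 < d)
    (H : ∀ i j : Fin e, i ≠ j → ∃ z : Fin e →₀ ℕ, d = g i + g j + Finsupp.weight g z)
    (f : MvPolynomial (Fin e) ℚ)
    (hf : f ∈ RingHom.ker (MvPolynomial.aeval (fun i : Fin e => (Polynomial.X : Polynomial ℚ) ^ g i)))
    (hh : MvPolynomial.IsWeightedHomogeneous (fun i : Fin e => g i) f d) :
    f ∈ Ideal.span (Set.range (MvPolynomial.X : Fin e → MvPolynomial (Fin e) ℚ)) *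
      RingHom.ker (MvPolynomial.aeval (fun i : Fin e => (Polynomial.X : Polynomial ℚ) ^ g i)) := by
  classical
  by_cases h0 : f = 0
  · rw [h0]; exact Ideal.zero_mem _
  obtain ⟨u0, hu0⟩ : f.support.Nonempty := by
    rwa [MvPolynomial.support_nonempty]
  have hw : ∀ u ∈ f.support, Finsupp.weight g u = d := by
    intro u hu
    exact hh (by simpa using hu)
  have hsum : ∑ u ∈ f.support, coeff u f = 0 := by
    have h1 := hf
    rw [RingHom.mem_ker, f.as_sum, map_sum] at h1
    have h2 : ∑ x ∈ f.support, (MvPolynomial.aeval (fun i : Fin e => (Polynomial.X : Polynomial ℚ) ^ g i)) (monomial x (coeff x f))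
       = Polynomial.C (∑ u ∈ f.support, coeff u f) * Polynomial.X ^ d := by
      rw [map_sum, Finset.sum_mul]
      apply Finset.sum_congr rfl
      intro u hu
      rw [aeval_mon, hw u hu]
    rw [h2] at h1
    have h3 := congrArg (fun p => Polynomial.coeff p d) h1
    simp only [Polynomial.coeff_C_mul_X_pow, if_true, Polynomial.coeff_zero] at h3
    exact h3
  have hf2 : f = ∑ u ∈ f.support, C (coeff u f) * (monomial u (1:ℚ) - monomial u0 1) := by
    have : ∑ u ∈ f.support, C (coeff u f) * (monomial u (1:ℚ) - monomial u0 1)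
      = (∑ u ∈ f.support, monomial u (coeff u f)) - C (∑ u ∈ f.support, coeff u f) * monomial u0 1 := by
      rw [map_sum, Finset.sum_mul, ← Finset.sum_sub_distrib]
      apply Finset.sum_congr rfl
      intro u hu
      rw [mul_sub, C_mul_monomial, mul_one]
    rw [this, hsum, ← f.as_sum]
    simp
  rw [hf2]
  apply Ideal.sum_mem
  intro u hu
  apply Ideal.mul_mem_left
  exact binom_mem g d hd H u u0 (hw u hu) (hw u0 hu0)


lemma gen_exists (S : AddSubmonoid ℕ) (e : ℕ) (g : Fin e → ℕ)
    (hg : Set.range g = {x : ℕ | x ∈ S ∧ x ≠ 0 ∧ ∀ a ∈ S, ∀ b ∈ S, a + b = x → a = 0 ∨ b = 0}) :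
    ∀ s ∈ S, ∃ z : Fin e →₀ ℕ, Finsupp.weight g z = s := by
  intro s
  induction s using Nat.strong_induction_on with
  | _ s ih =>
    intro hs
    by_cases h0 : s = 0
    · exact ⟨0, by simp [h0]⟩
    by_cases hat : ∀ a ∈ S, ∀ b ∈ S, a + b = s → a = 0 ∨ b = 0
    · have : s ∈ Set.range g := by rw [hg]; exact ⟨hs, h0, hat⟩
      obtain ⟨i, hi⟩ := this
      exact ⟨Finsupp.single i 1, by rw [Finsupp.weight_single, one_smul, hi]⟩
    · push Not at hat
      obtain ⟨a, ha, b, hb, hab, ha0, hb0⟩ := hat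
      obtain ⟨z1, hz1⟩ := ih a (by omega) ha
      obtain ⟨z2, hz2⟩ := ih b (by omega) hb
      exact ⟨z1 + z2, by rw [map_add, hz1, hz2, hab]⟩

/-- sum of an injective image in an interval starting at zero -/
lemma sum_inj_le {A : Finset ℕ} {m : ℕ} (f : ℕ → ℕ) (hf : ∀ a ∈ A, f a < m)
    (hinj : Set.InjOn f A) : ∑ a ∈ A, f a ≤ ∑ r ∈ Finset.range m, r := by
  have : ∑ a ∈ A, f a = ∑ r ∈ A.image f, r := by
    rw [Finset.sum_image hinj]
  rw [this]
  apply Finset.sum_le_sum_of_subset
  intro r hr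
  simp only [Finset.mem_image] at hr
  obtain ⟨a, ha, rfl⟩ := hr
  simpa using hf a ha

lemma key_count (S : AddSubmonoid ℕ) (F : ℕ) (hF : F ∉ S) (hF2 : ∀ n : ℕ, F < n → n ∈ S)
    (e : ℕ) (g : Fin e → ℕ) (hgS : ∀ i, g i ∈ S)
    (hgen : ∀ s ∈ S, ∃ z : Fin e →₀ ℕ, Finsupp.weight g z = s)
    (i0 : Fin e) (hm : 0 < g i0) (hpos : ∀ i, 0 < g i) :
    2 * (F + g i0) ≤ 2 * e * (Set.ncard {γ : ℕ | γ ∈ S ∧ γ < F}) + e * (g i0 - 1) := by
  classical
  set m := g i0 with hmdef
  set W := F + m with hW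
  set Ap : Finset ℕ := (Finset.range (W + 1)).filter (fun w => w ∈ S ∧ ¬ (m ≤ w ∧ w - m ∈ S)) with hAp
  have hmS : m ∈ S := hgS i0
  have hkm : ∀ k : ℕ, k * m ∈ S := by
    intro k
    have := AddSubmonoid.nsmul_mem S hmS k
    simpa using this
  -- membership
  have hApmem : ∀ w, w ∈ Ap ↔ w ∈ S ∧ ¬ (m ≤ w ∧ w - m ∈ S) := by
    intro w
    rw [hAp, Finset.mem_filter, Finset.mem_range]
    constructor
    · exact fun h => h.2
    · intro h
      refine ⟨?_, h⟩
      by_contra hcon
      apply h.2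
      exact ⟨by omega, hF2 _ (by omega)⟩
  have hle : ∀ w ∈ Ap, w ≤ W := by
    intro w hw
    rw [hAp, Finset.mem_filter, Finset.mem_range] at hw
    omega
  -- uniqueness by residues
  have huniq : ∀ w1 ∈ Ap, ∀ n ∈ S, w1 % m = n % m → w1 ≤ n := by
    intro w1 hw1 n hn hmod
    by_contra hlt
    push Not at hlt
    rw [hApmem] at hw1
    apply hw1.2
    obtain ⟨k, hk⟩ : ∃ k, w1 = n + (k + 1) * m := by
      have h1 := Nat.div_add_mod w1 m
      have h2 := Nat.div_add_mod n m
      have h3 : n / m < w1 / m := by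
        by_contra hc
        push Not at hc
        have := Nat.mul_le_mul_left m hc
        omega
      refine ⟨w1 / m - n / m - 1, ?_⟩
      have h4 : w1 / m - n / m - 1 + 1 = w1 / m - n / m := by omega
      rw [h4, Nat.sub_mul, mul_comm (w1 / m), mul_comm (n / m)]
      have := Nat.mul_le_mul_left m h3.le
      omega
    have h5 : w1 - m = n + k * m := by
      rw [hk, add_mul, one_mul]; omega
    refine ⟨?_, ?_⟩
    · rw [hk, add_mul, one_mul]; omega
    · rw [h5]; exact S.add_mem hn (hkm k)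
  have hinj : Set.InjOn (fun w => w % m) (Ap : Set ℕ) := by
    intro a ha b hb hab
    have ha' := (hApmem a).1 ha
    have hb' := (hApmem b).1 hb
    exact le_antisymm (huniq a ha b hb'.1 hab) (huniq b hb a ha'.1 hab.symm)
  have hsurj : ∀ r < m, ∃ w ∈ Ap, w % m = r := by
    intro r hr
    have hex : ∃ n, n ∈ S ∧ n % m = r := by
      refine ⟨r + (F + 1) * m, hF2 _ ?_, ?_⟩
      · have : F + 1 ≤ (F + 1) * m := Nat.le_mul_of_pos_right _ hm
        omega
      · rw [Nat.add_mul_mod_self_right, Nat.mod_eq_of_lt hr]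
    refine ⟨Nat.find hex, ?_, (Nat.find_spec hex).2⟩
    rw [hApmem]
    refine ⟨(Nat.find_spec hex).1, ?_⟩
    rintro ⟨h1, h2⟩
    apply Nat.find_min hex (m := Nat.find hex - m) (by omega)
    refine ⟨h2, ?_⟩
    rw [← Nat.mod_eq_sub_mod h1]
    exact (Nat.find_spec hex).2
  have hcard : m ≤ Ap.card := by
    have h1 : Finset.range m ⊆ Ap.image (fun w => w % m) := by
      intro r hr
      rw [Finset.mem_image]
      exact hsurj r (by simpa using hr)
    calc m = (Finset.range m).card := (Finset.card_range m).symm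
      _ ≤ _ := Finset.card_le_card h1
      _ ≤ _ := Finset.card_image_le
  set T := ∑ w ∈ Ap, (W - w) with hT
  -- lower bound for eta
  have heta : ∑ w ∈ Ap, (W - w) / m ≤ Set.ncard {γ : ℕ | γ ∈ S ∧ γ < F} := by
    have hset : {γ : ℕ | γ ∈ S ∧ γ < F} = ((Finset.range F).filter (fun n => n ∈ S) : Finset ℕ) := by
      ext n; simp [and_comm]
    rw [hset, Set.ncard_coe_finset]
    have : ∑ w ∈ Ap, (W - w) / m = (Ap.sigma (fun w => Finset.range ((W - w) / m))).card := by
      rw [Finset.card_sigma]; simp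
    rw [this]
    apply Finset.card_le_card_of_injOn (fun p => p.1 + p.2 * m)
    · rintro ⟨w, k⟩ hp
      simp only [Finset.coe_sigma, Set.mem_sigma_iff, Finset.mem_coe, Finset.mem_range] at hp
      obtain ⟨hw, hk⟩ := hp
      have hwS := ((hApmem w).1 hw).1
      have hmem : w + k * m ∈ S := S.add_mem hwS (hkm k)
      have h1 : (k + 1) * m ≤ W - w := by
        calc (k + 1) * m ≤ ((W - w) / m) * m := Nat.mul_le_mul_right m hk
          _ ≤ W - w := Nat.div_mul_le_self _ _
      rw [add_mul, one_mul] at h1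
      have h2 : w + k * m ≤ F := by omega
      have h3 : w + k * m ≠ F := fun h => hF (h ▸ hmem)
      simp only [Finset.coe_filter, Finset.mem_range, Set.mem_ofPred_eq]
      exact ⟨by omega, hmem⟩
    · rintro ⟨w, k⟩ hp ⟨w', k'⟩ hp' heq
      simp only [Finset.coe_sigma, Set.mem_sigma_iff, Finset.mem_coe, Finset.mem_range] at hp hp' heq
      have h1 : w % m = w' % m := by
        have := congrArg (fun x => x % m) heq
        simpa [Nat.add_mul_mod_self_right] using this
      have h2 : w = w' := hinj hp.1 hp'.1 h1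
      subst h2
      have h3 : k * m = k' * m := by omega
      have h4 : k = k' := Nat.eq_of_mul_eq_mul_right hm h3
      subst h4
      rfl
  -- residues of W - w
  have hres : ∑ w ∈ Ap, (W - w) % m ≤ ∑ r ∈ Finset.range m, r := by
    apply sum_inj_le (fun w => (W - w) % m)
    · intro a _
      exact Nat.mod_lt _ hm
    · intro a ha b hb hab
      apply hinj ha hb
      simp only at hab ⊢
      have ha1 := hle a ha
      have hb1 := hle b hb
      have h1 : (W - a) ≡ (W - b) [MOD m] := hab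
      have h2 : (W - a) + (a + b) ≡ (W - b) + (a + b) [MOD m] := Nat.ModEq.add_right _ h1
      have h3 : (W - a) + (a + b) = b + W := by omega
      have h4 : (W - b) + (a + b) = a + W := by omega
      rw [h3, h4] at h2
      exact (Nat.ModEq.add_right_cancel' W h2).symm
  have hTeta : T ≤ m * Set.ncard {γ : ℕ | γ ∈ S ∧ γ < F} + ∑ r ∈ Finset.range m, r := by
    have h1 : T = m * (∑ w ∈ Ap, (W - w) / m) + ∑ w ∈ Ap, (W - w) % m := by
      rw [Finset.mul_sum, ← Finset.sum_add_distrib, hT]
      apply Finset.sum_congr rfl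
      intro w _
      exact (Nat.div_add_mod _ _).symm
    rw [h1]
    exact add_le_add (Nat.mul_le_mul_left m heta) hres
  -- factorizations
  have hz : ∀ w : ℕ, ∃ z : Fin e →₀ ℕ, w ∈ S → Finsupp.weight g z = w := by
    intro w
    by_cases hw : w ∈ S
    · obtain ⟨z, hz⟩ := hgen w hw
      exact ⟨z, fun _ => hz⟩
    · exact ⟨0, fun h => absurd h hw⟩
  choose z hz using hz
  have hweight : ∀ u : Fin e →₀ ℕ, Finsupp.weight g u = ∑ i, u i * g i := by
    intro u
    rw [Finsupp.weight_apply, Finsupp.sum_fintype]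
    · simp
    · simp
  have hwS : ∀ u : Fin e →₀ ℕ, Finsupp.weight g u ∈ S := by
    intro u
    rw [hweight]
    apply AddSubmonoid.sum_mem
    intro i _
    have := AddSubmonoid.nsmul_mem S (hgS i) (u i)
    simpa using this
  -- the line argument
  have hline : ∀ i : Fin e, (∑ w ∈ Ap, z w i) * g i ≤ T := by
    intro i
    have hdec : ∀ w ∈ Ap, ∀ k < z w i, ∃ s, s ∈ Ap ∧ w = s + (k + 1) * g i := by
      intro w hw k hk
      have hw' := (hApmem w).1 hw
      have h1 : z w = Finsupp.single i (k + 1) + (z w - Finsupp.single i (k + 1)) := by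
        rw [add_comm, tsub_add_cancel_of_le]
        rw [Finsupp.single_le_iff]
        omega
      have h2 : w = (k + 1) * g i + Finsupp.weight g (z w - Finsupp.single i (k + 1)) := by
        conv_lhs => rw [← hz w hw'.1, h1]
        rw [map_add, Finsupp.weight_single, smul_eq_mul]
      refine ⟨Finsupp.weight g (z w - Finsupp.single i (k + 1)), ?_, by omega⟩
      rw [hApmem]
      refine ⟨hwS _, ?_⟩
      rintro ⟨h3, h4⟩
      apply hw'.2
      refine ⟨by omega, ?_⟩
      have h5 : w - m = (k + 1) * g i + (Finsupp.weight g (z w - Finsupp.single i (k + 1)) - m) := by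
        omega
      rw [h5]
      apply S.add_mem _ h4
      have := AddSubmonoid.nsmul_mem S (hgS i) (k + 1)
      simpa using this
    have hcount : ∑ w ∈ Ap, z w i ≤ ∑ w ∈ Ap, (W - w) / g i := by
      have e1 : ∑ w ∈ Ap, z w i = (Ap.sigma (fun w => Finset.range (z w i))).card := by
        rw [Finset.card_sigma]; simp
      have e2 : ∑ w ∈ Ap, (W - w) / g i = (Ap.sigma (fun w => Finset.range ((W - w) / g i))).card := by
        rw [Finset.card_sigma]; simp
      rw [e1, e2]
      apply Finset.card_le_card_of_injOn (fun p => (⟨p.1 - (p.2 + 1) * g i, p.2⟩ : Σ _ : ℕ, ℕ))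
      · rintro ⟨w, k⟩ hp
        simp only [Finset.coe_sigma, Set.mem_sigma_iff, Finset.mem_coe, Finset.mem_range] at hp ⊢
        obtain ⟨s, hs, hws⟩ := hdec w hp.1 k hp.2
        have h1 : w - (k + 1) * g i = s := by omega
        rw [h1]
        refine ⟨hs, ?_⟩
        have h2 := hle w hp.1
        have h3 : (k + 1) * g i ≤ W - s := by omega
        exact (Nat.le_div_iff_mul_le (hpos i)).2 h3
      · rintro ⟨w, k⟩ hp ⟨w', k'⟩ hp' heq
        simp only [Finset.coe_sigma, Set.mem_sigma_iff, Finset.mem_coe, Finset.mem_range] at hp hp'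
        simp only [Sigma.mk.injEq, heq_eq_eq] at heq
        obtain ⟨h1, h2⟩ := heq
        subst h2
        obtain ⟨s, hs, hws⟩ := hdec w hp.1 k hp.2
        obtain ⟨s', hs', hws'⟩ := hdec w' hp'.1 k hp'.2
        have h3 : w = w' := by omega
        subst h3
        rfl
    calc (∑ w ∈ Ap, z w i) * g i ≤ (∑ w ∈ Ap, (W - w) / g i) * g i := Nat.mul_le_mul_right _ hcount
      _ = ∑ w ∈ Ap, ((W - w) / g i) * g i := by rw [Finset.sum_mul]
      _ ≤ T := Finset.sum_le_sum (fun w _ => Nat.div_mul_le_self _ _)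
  have hline0 : (∑ w ∈ Ap, z w i0) = 0 := by
    apply Finset.sum_eq_zero
    intro w hw
    have hw' := (hApmem w).1 hw
    by_contra hne
    apply hw'.2
    have h1 : z w = Finsupp.single i0 1 + (z w - Finsupp.single i0 1) := by
      rw [add_comm, tsub_add_cancel_of_le]
      rw [Finsupp.single_le_iff]
      omega
    have h2 : w = m + Finsupp.weight g (z w - Finsupp.single i0 1) := by
      conv_lhs => rw [← hz w hw'.1, h1]
      rw [map_add, Finsupp.weight_single, one_smul]
    refine ⟨by omega, ?_⟩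
    have h3 : w - m = Finsupp.weight g (z w - Finsupp.single i0 1) := by omega
    rw [h3]
    exact hwS _
  have hsumw : ∑ w ∈ Ap, w ≤ (e - 1) * T := by
    have h1 : ∑ w ∈ Ap, w = ∑ i : Fin e, (∑ w ∈ Ap, z w i) * g i := by
      have : ∀ w ∈ Ap, w = ∑ i, z w i * g i := by
        intro w hw
        rw [← hweight]
        exact (hz w ((hApmem w).1 hw).1).symm
      rw [Finset.sum_congr rfl this, Finset.sum_comm]
      apply Finset.sum_congr rfl
      intro i _
      rw [Finset.sum_mul]
    rw [h1, ← Finset.add_sum_erase _ _ (Finset.mem_univ i0), hline0, zero_mul, zero_add]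
    calc ∑ i ∈ Finset.univ.erase i0, (∑ w ∈ Ap, z w i) * g i ≤ ∑ i ∈ Finset.univ.erase i0, T :=
          Finset.sum_le_sum (fun i _ => hline i)
      _ = (e - 1) * T := by
        rw [Finset.sum_const, Finset.card_erase_of_mem (Finset.mem_univ _), Finset.card_univ,
          Fintype.card_fin, smul_eq_mul]
  have htot : m * W ≤ e * T := by
    have h1 : ∑ w ∈ Ap, w + T = Ap.card * W := by
      rw [hT, ← Finset.sum_add_distrib, ← smul_eq_mul, ← Finset.sum_const]
      apply Finset.sum_congr rfl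
      intro w hw
      have := hle w hw
      omega
    have h2 : m * W ≤ Ap.card * W := Nat.mul_le_mul_right _ hcard
    have he : 1 ≤ e := by
      have := i0.2
      omega
    have h3 : e * T = (e - 1) * T + T := by
      conv_lhs => rw [show e = (e - 1) + 1 by omega]
      rw [add_mul, one_mul]
    omega
  set η := Set.ncard {γ : ℕ | γ ∈ S ∧ γ < F} with hη
  have hg2 : (∑ r ∈ Finset.range m, r) * 2 = m * (m - 1) := Finset.sum_range_id_mul_two m
  have hfin : m * (2 * W) ≤ m * (2 * e * η + e * (m - 1)) := by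
    calc m * (2 * W) = 2 * (m * W) := by ring
      _ ≤ 2 * (e * T) := by omega
      _ ≤ 2 * (e * (m * η + ∑ r ∈ Finset.range m, r)) := by
        apply Nat.mul_le_mul_left
        exact Nat.mul_le_mul_left _ hTeta
      _ = 2 * e * (m * η) + e * ((∑ r ∈ Finset.range m, r) * 2) := by ring
      _ = m * (2 * e * η + e * (m - 1)) := by rw [hg2]; ring
  exact Nat.le_of_mul_le_mul_left hfin hm

end aux

/-- Take a numerical semigroup with Frobenius number F and minimal generators g_1..g_e. Every homogeneous element of its toric ideal (grading deg x_i = g_i) outside (variables)·ideal has degree at most e·(#{elements below F} − 1) + Σg_i + 1. -/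
theorem result :
    ∀ (S : AddSubmonoid ℕ), {n : ℕ | n ∉ S}.Finite →
    ∀ (F : ℕ), F ∉ S → (∀ n : ℕ, F < n → n ∈ S) →
    ∀ (e : ℕ) (g : Fin e → ℕ), Function.Injective g →
      Set.range g = {x : ℕ | x ∈ S ∧ x ≠ 0 ∧ ∀ a ∈ S, ∀ b ∈ S, a + b = x → a = 0 ∨ b = 0} →
    ∀ (f : MvPolynomial (Fin e) ℚ) (d : ℕ),
      f ∈ RingHom.ker (MvPolynomial.aeval (fun i : Fin e => (Polynomial.X : Polynomial ℚ) ^ g i)) →
      MvPolynomial.IsWeightedHomogeneous (fun i : Fin e => g i) f d →
      f ∉ Ideal.span (Set.range (MvPolynomial.X : Fin e → MvPolynomial (Fin e) ℚ)) *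
            RingHom.ker (MvPolynomial.aeval (fun i : Fin e => (Polynomial.X : Polynomial ℚ) ^ g i)) →
      d ≤ e * (Set.ncard {γ : ℕ | γ ∈ S ∧ γ < F} - 1) + ∑ i, g i + 1 := by
  intro S _ F hF hF2 e g hginj hg f d hf hh hnot
  by_contra hcon
  push Not at hcon
  apply hnot
  have hatom : ∀ i, g i ∈ S ∧ g i ≠ 0 := by
    intro i
    have : g i ∈ Set.range g := ⟨i, rfl⟩
    rw [hg] at this
    exact ⟨this.1, this.2.1⟩
  have hgS : ∀ i, g i ∈ S := fun i => (hatom i).1
  have hpos : ∀ i, 0 < g i := fun i => Nat.pos_of_ne_zero (hatom i).2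
  have hgen := gen_exists S e g hg
  apply poly_mem g d (by omega) _ f hf hh
  intro i j hij
  have hbig : F + g i + g j < d := by
    obtain ⟨i0, -, hi0⟩ := Finset.exists_min_image Finset.univ g ⟨i, Finset.mem_univ i⟩
    have hkey := key_count S F hF hF2 e g hgS hgen i0 (hpos i0) hpos
    have hsum : g i + g j + (e - 2) * g i0 ≤ ∑ h, g h := by
      rw [← Finset.add_sum_erase _ _ (Finset.mem_univ i),
        ← Finset.add_sum_erase _ _ (Finset.mem_erase.2 ⟨hij.symm, Finset.mem_univ j⟩)]
      have h1 : (e - 2) * g i0 ≤ ∑ h ∈ (Finset.univ.erase i).erase j, g h := by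
        have h2 : ((Finset.univ.erase i).erase j).card = e - 2 := by
          rw [Finset.card_erase_of_mem (Finset.mem_erase.2 ⟨hij.symm, Finset.mem_univ j⟩),
            Finset.card_erase_of_mem (Finset.mem_univ _), Finset.card_univ, Fintype.card_fin]
          omega
        rw [← h2, ← smul_eq_mul, ← Finset.sum_const]
        exact Finset.sum_le_sum (fun h _ => hi0 h (Finset.mem_univ h))
      omega
    have he : 2 ≤ e := by
      have h1 := i.2
      have h2 := j.2
      have h3 : (i : ℕ) ≠ (j : ℕ) := fun h => hij (Fin.ext h)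
      omega
    have heta : 1 ≤ Set.ncard {γ : ℕ | γ ∈ S ∧ γ < F} := by
      rw [Nat.one_le_iff_ne_zero, Ne, Set.ncard_eq_zero (Set.Finite.subset (Set.finite_lt_nat F) (fun x hx => hx.2))]
      intro h0
      have h1 : (0 : ℕ) ∈ {γ : ℕ | γ ∈ S ∧ γ < F} := by
        refine ⟨S.zero_mem, ?_⟩
        rcases Nat.eq_zero_or_pos F with h2 | h2
        · exact absurd (h2 ▸ S.zero_mem) hF
        · exact h2
      rw [h0] at h1
      exact h1
    have hm := hpos i0
    generalize Set.ncard {γ : ℕ | γ ∈ S ∧ γ < F} = η at hkey heta hcon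
    generalize ∑ h, g h = σ at hsum hcon
    obtain ⟨e', rfl⟩ : ∃ e', e = e' + 2 := ⟨e - 2, by omega⟩
    obtain ⟨η', rfl⟩ : ∃ η', η = η' + 1 := ⟨η - 1, by omega⟩
    obtain ⟨m', hm'⟩ : ∃ m', g i0 = m' + 1 := ⟨g i0 - 1, by omega⟩
    rw [hm'] at hkey hsum
    simp only [Nat.add_sub_cancel] at hkey hsum hcon
    nlinarith [hkey, hsum, hcon, Nat.zero_le (e' * m')]
  obtain ⟨z, hz⟩ := hgen (d - g i - g j) (hF2 _ (by omega))
  exact ⟨z, by omega⟩

end Pool.Agent.S01881
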