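import Pool.Statements.S01890
import Pool.Agent.Helper580.Law.Final

set_option autoImplicit false
open Pool Pool.MP_bb0160_al

namespace Pool.Agent.S01890

/-- The negation of the preceding statement: There is a group that has a right-invariant total order and satisfies a nontrivial word law, but has no right-invariant total order in which, for all positive f, g, some n ≥ 1 gives f < fⁿ·g (i.e. no Conrad right order). -/
theorem result :
    ¬ (∃ (G : Type) (_ : Group G),
      (∃ lt : G → G → Prop,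
        (∀ a, ¬ lt a a) ∧
        (∀ a b c, lt a b → lt b c → lt a c) ∧
        (∀ a b, lt a b ∨ a = b ∨ lt b a) ∧
        (∀ a b c, lt a b → lt (a * c) (b * c))) ∧
      (∃ (k : ℕ) (w : FreeGroup (Fin k)), w ≠ 1 ∧
        ∀ f : Fin k → G, FreeGroup.lift f w = 1) ∧
      ¬ (∃ lt : G → G → Prop,
        (∀ a, ¬ lt a a) ∧
        (∀ a b c, lt a b → lt b c → lt a c) ∧
        (∀ a b, lt a b ∨ a = b ∨ lt b a) ∧
        (∀ a b c, lt a b → lt (a * c) (b * c)) ∧
        (∀ f g, lt 1 f → lt 1 g → ∃ n : ℕ, lt f (f ^ (n + 1) * g)))) := by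
  rintro ⟨G, _, ⟨lt, h1, h2, h3, h4⟩, ⟨k, w, hw, hl⟩, hcon⟩
  exact hcon (Pool.Agent.Helper580.Law.conrad_of_law lt h1 h2 h3 h4 k w hw hl)

end Pool.Agent.S01890
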