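import Pool.Statements.S01896

set_option autoImplicit false
open Pool Pool.MP_bbd7c2_al

namespace Pool.Agent.S01896

section helpers
open scoped commutatorElement

lemma iter_eq {G : Type*} [Group G] (S : Subgroup G) (c : ℕ) :
    (fun K : Subgroup G => ⁅K, S⁆)^[c] S = S.lowerCentralSeries c := by
  induction c with
  | zero => rfl
  | succ n ih => rw [Function.iterate_succ_apply', ih]; rfl

/-- The cyclic group of order l, multiplicatively -/
abbrev C (l : ℕ) := Multiplicative (ZMod l)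

/-- regular wreath product of the cyclic group of order l by B -/
abbrev Wr (l : ℕ) (B : Type) [Group B] : Type := RegularWreathProduct (C l) B

section wr
variable {l : ℕ} {B : Type} [Group B]

/-- projection onto the top group -/
abbrev pr (l : ℕ) (B : Type) [Group B] : Wr l B →* B := RegularWreathProduct.rightHom

lemma pr_surj : Function.Surjective (pr l B) := fun b => ⟨RegularWreathProduct.inl b, rfl⟩

/-- embedding of the base group -/
def io (l : ℕ) (B : Type) [Group B] : (B → C l) →* Wr l B where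
  toFun f := ⟨f, 1⟩
  map_one' := rfl
  map_mul' f g := by
    ext
    · simp
    · simp

lemma io_inj : Function.Injective (io l B) := by
  intro f g h
  exact congrArg RegularWreathProduct.left h

lemma mem_ker_pr (x : Wr l B) : x ∈ (pr l B).ker ↔ ∃ f, io l B f = x := by
  constructor
  · intro h
    refine ⟨x.left, ?_⟩
    ext
    · rfl
    · exact (MonoidHom.mem_ker.mp h).symm
  · rintro ⟨f, rfl⟩
    rfl

lemma io_pow (f : B → C l) : (io l B f) ^ l = 1 := by
  rw [← map_pow]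
  have : f ^ l = 1 := by
    funext b
    rw [Pi.pow_apply, Pi.one_apply]
    apply Multiplicative.toAdd.injective
    rw [toAdd_pow, toAdd_one, nsmul_eq_mul]
    simp
  rw [this, map_one]

/-- conjugation action on base -/
lemma conj_io (x : Wr l B) (f : B → C l) :
    x * io l B f * x⁻¹ = io l B (fun y => f (x.right⁻¹ * y)) := by
  ext y
  · simp [io]
  · simp [io]

lemma inter_bot (hl : l.Prime) (N : Subgroup (Wr l B)) [hN : N.Normal]
    (h : ∀ f, io l B f ∈ N → f = 1) : N = ⊥ := by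
  classical
  rw [eq_bot_iff]
  intro x hx
  have h1 : x.right = 1 := by
    by_contra hne
    have := Fact.mk hl
    set f : B → C l := Pi.mulSingle 1 (Multiplicative.ofAdd (1 : ZMod l)) with hf
    have h2 : io l B (fun y => f (x.right⁻¹ * y)) * (io l B f)⁻¹ ∈ N := by
      rw [← conj_io, mul_assoc, mul_assoc, ← mul_assoc (io l B f)]
      exact N.mul_mem hx (hN.conj_mem _ (N.inv_mem hx) _)
    rw [← map_inv, ← map_mul] at h2
    have h3 := congrFun (h _ h2) 1
    rw [Pi.mul_apply, Pi.inv_apply, Pi.one_apply, mul_inv_eq_one, mul_one, hf,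
      Pi.mulSingle_eq_same, Pi.mulSingle_eq_of_ne (by simpa using hne)] at h3
    have h4 : (0 : ZMod l) = 1 := congrArg Multiplicative.toAdd h3
    exact zero_ne_one h4
  have h2 : x ∈ (pr l B).ker := h1
  obtain ⟨f, rfl⟩ := (mem_ker_pr x).mp h2
  rw [h f hx, map_one]
  exact Subgroup.one_mem _

/-- no nontrivial normal p-subgroup -/
def Op (p : ℕ) (B : Type) [Group B] : Prop :=
  ∀ N : Subgroup B, N.Normal → (∀ x ∈ N, ∃ m : ℕ, x ^ p ^ m = 1) → N = ⊥

lemma op_wr {p : ℕ} (hp : p.Prime) (hl : l.Prime) (hne : p ≠ l) : Op p (Wr l B) := by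
  intro N hN h
  apply inter_bot hl
  intro f hf
  obtain ⟨m, hm⟩ := h _ hf
  have h1 : orderOf (io l B f) ∣ p ^ m := orderOf_dvd_of_pow_eq_one hm
  have h2 : orderOf (io l B f) ∣ l := orderOf_dvd_of_pow_eq_one (io_pow f)
  have h3 : Nat.Coprime (p ^ m) l := Nat.Coprime.pow_left m ((Nat.coprime_primes hp hl).mpr hne)
  have h4 : orderOf (io l B f) = 1 := Nat.eq_one_of_dvd_coprimes h3 h1 h2
  rw [orderOf_eq_one_iff] at h4
  exact io_inj (by rw [h4, map_one])

lemma coprime_normal (hl : l.Prime) (N : Subgroup (Wr l B)) [hN : N.Normal]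
    (h : ¬ l ∣ Nat.card N) : N = ⊥ := by
  apply inter_bot hl
  intro f hf
  have h2 : orderOf (io l B f) ∣ l := orderOf_dvd_of_pow_eq_one (io_pow f)
  rcases (Nat.dvd_prime hl).mp h2 with h3 | h3
  · rw [orderOf_eq_one_iff] at h3
    exact io_inj (by rw [h3, map_one])
  · exfalso
    apply h
    have h4 := orderOf_dvd_natCard (⟨_, hf⟩ : N)
    rw [Subgroup.orderOf_mk] at h4
    exact (dvd_of_eq h3.symm).trans h4

/-- the commutator map on the base -/
def Dm (b : B) (f : B → C l) : B → C l := fun y => f y * (f (b⁻¹ * y))⁻¹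

lemma Dm_mem (N : Subgroup (Wr l B)) [hN : N.Normal] (n : Wr l B) (hn : n ∈ N) (f : B → C l)
    (k : ℕ) : io l B ((Dm n.right)^[k + 1] f) ∈ N.lowerCentralSeries k := by
  have key : ∀ g : B → C l, io l B (Dm n.right g) = ⁅io l B g, n⁆ := by
    intro g
    rw [commutatorElement_def, mul_assoc (io l B g), mul_assoc (io l B g), ← map_inv, conj_io,
      ← map_mul]
    rfl
  induction k with
  | zero =>
    rw [Function.iterate_one, key, commutatorElement_def, Subgroup.lowerCentralSeries_zero]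
    exact N.mul_mem (hN.conj_mem n hn _) (N.inv_mem hn)
  | succ k ih =>
    rw [Function.iterate_succ_apply', key, Subgroup.lowerCentralSeries_succ]
    exact Subgroup.commutator_mem_commutator ih hn

lemma nilp_pow (hl : l.Prime) [Finite B] (b : B) (c : ℕ)
    (h : ∀ f : B → C l, (Dm b)^[c + 1] f = 1) : ∃ m : ℕ, b ^ l ^ m = 1 := by
  classical
  have := Fact.mk hl
  let R := Module.End (ZMod l) (B → ZMod l)
  let τ : R := LinearMap.funLeft (ZMod l) (ZMod l) (fun y => b⁻¹ * y)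
  have hτ : ∀ (g : B → ZMod l) (y : B), τ g y = g (b⁻¹ * y) := fun g y => rfl
  have hchar : CharP R l := charP_of_injective_algebraMap (R := ZMod l) (algebraMap (ZMod l) R).injective l
  have h1 : ∀ (k : ℕ) (g : B → ZMod l), (Dm b)^[k] (fun y => Multiplicative.ofAdd (g y)) =
      fun y => Multiplicative.ofAdd (((1 - τ) ^ k) g y) := by
    intro k g
    induction k with
    | zero => rfl
    | succ k ih =>
      rw [Function.iterate_succ_apply', ih, pow_succ']
      funext y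
      show Multiplicative.ofAdd (((1 - τ) ^ k) g y) *
        (Multiplicative.ofAdd (((1 - τ) ^ k) g (b⁻¹ * y)))⁻¹ =
        Multiplicative.ofAdd (((1 - τ) ^ k) g y - ((1 - τ) ^ k) g (b⁻¹ * y))
      rw [ofAdd_sub, div_eq_mul_inv]
  have h2 : (1 - τ) ^ (c + 1) = 0 := by
    apply LinearMap.ext
    intro g
    funext y
    have h3 := congrFun (h (fun y => Multiplicative.ofAdd (g y))) y
    rw [h1] at h3
    exact h3
  have h3 : (1 - τ) ^ (l ^ (c + 1)) = 0 := by
    apply pow_eq_zero_of_le _ h2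
    exact (Nat.lt_pow_self hl.one_lt).le
  rw [sub_pow_char_pow_of_commute l (c + 1) (Commute.one_left τ), one_pow, sub_eq_zero] at h3
  have h4 : ∀ (k : ℕ) (g : B → ZMod l) (y : B), (τ ^ k) g y = g ((b ^ k)⁻¹ * y) := by
    intro k
    induction k with
    | zero =>
      intro g y
      rw [pow_zero, pow_zero, inv_one, one_mul]
      rfl
    | succ k ih =>
      intro g y
      rw [pow_succ]
      show (τ ^ k) (τ g) y = _
      rw [ih, hτ, pow_succ, mul_inv_rev, mul_assoc]
  refine ⟨c + 1, ?_⟩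
  by_contra hne
  have h5 := h4 (l ^ (c + 1)) (Pi.single 1 1) (b ^ l ^ (c + 1))
  rw [← h3, inv_mul_cancel, Pi.single_eq_same] at h5
  have h6 : (Pi.single (M := fun _ : B => ZMod l) 1 1) (b ^ l ^ (c + 1)) = (1 : ZMod l) := h5
  rw [Pi.single_eq_of_ne hne] at h6
  exact zero_ne_one h6

lemma nilp_le_ker (hl : l.Prime) [Finite B] (hO : Op l B) (N : Subgroup (Wr l B)) [hN : N.Normal]
    (c : ℕ) (hc : N.lowerCentralSeries c ≤ ⊥) : N.map (pr l B) = ⊥ := by
  apply hO _ (hN.map _ pr_surj)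
  rintro _ ⟨n, hn, rfl⟩
  apply nilp_pow hl _ c
  intro f
  have h1 := hc (Dm_mem N n hn f c)
  rw [Subgroup.mem_bot] at h1
  apply io_inj
  rw [map_one]
  exact h1

end wr

lemma card_map_mul {G B : Type} [Group G] [Group B] [Finite G] (f : G →* B) (A : Subgroup G) :
    Nat.card (A.map f) * Nat.card (f.ker ⊓ A : Subgroup G) = Nat.card A := by
  rw [← Subgroup.relIndex_ker, Subgroup.relIndex, mul_comm]
  have h := Subgroup.card_mul_index (f.ker.subgroupOf A)
  rw [← h]
  congr 1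
  have e : (f.ker ⊓ A : Subgroup G) = (f.ker.subgroupOf A).map A.subtype := by
    rw [Subgroup.subgroupOf_map_subtype]
  rw [e]
  exact Subgroup.card_map_of_injective A.subtype_injective

lemma ratio_dvd {G B : Type} [Group G] [Group B] [Finite G] (f : G →* B) {A A' : Subgroup G}
    (h : A ≤ A') : Nat.card (A'.map f) / Nat.card (A.map f) ∣ Nat.card A' / Nat.card A := by
  have h1 := card_map_mul f A
  have h2 := card_map_mul f A'
  have h3 : Nat.card (A.map f) ∣ Nat.card (A'.map f) := Subgroup.card_dvd_of_le (Subgroup.map_mono h)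
  have h4 : Nat.card (f.ker ⊓ A : Subgroup G) ∣ Nat.card (f.ker ⊓ A' : Subgroup G) :=
    Subgroup.card_dvd_of_le (inf_le_inf_left _ h)
  obtain ⟨u, hu⟩ := h3
  obtain ⟨v, hv⟩ := h4
  have hpos : 0 < Nat.card (A.map f) * Nat.card (f.ker ⊓ A : Subgroup G) := by
    rw [h1]; exact Nat.card_pos
  rw [← h1, ← h2, hu, hv]
  have e : Nat.card (A.map f) * u * (Nat.card (f.ker ⊓ A : Subgroup G) * v) =
    Nat.card (A.map f) * Nat.card (f.ker ⊓ A : Subgroup G) * (u * v) := by ring
  rw [e, Nat.mul_div_cancel_left _ hpos, Nat.mul_div_cancel_left _ (Nat.pos_of_mul_pos_right hpos)]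
  exact dvd_mul_right _ _

/-- The property of one series step -/
def Stp (π : Set ℕ) {G : Type} [Group G] (T : Finset ℕ) (i : ℕ) (A A' : Subgroup G) : Prop :=
  (∀ q : ℕ, q.Prime → q ∣ Nat.card A' / Nat.card A → q ∉ π) ∨
          (i ∈ T ∧ (∀ q : ℕ, q.Prime → q ∣ Nat.card A' / Nat.card A → q ∈ π) ∧
            ∃ c : ℕ, (fun K : Subgroup G => ⁅K, A'⁆)^[c] A' ≤ A)

/-- nilpotent pi-length at most b -/
def L (π : Set ℕ) (G : Type) [Group G] (b : ℕ) : Prop :=
  ∃ (k : ℕ) (s : ℕ → Subgroup G) (T : Finset ℕ), T.card ≤ b ∧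
        s 0 = ⊥ ∧ s k = ⊤ ∧ (∀ i ≤ k, (s i).Normal) ∧ (∀ i < k, s i ≤ s (i + 1)) ∧
        ∀ i < k, Stp π T i (s i) (s (i + 1))

lemma L_map {G B : Type} [Group G] [Group B] [Finite G] (π : Set ℕ) (f : G →* B)
    (hf : Function.Surjective f) (k : ℕ) (s : ℕ → Subgroup G) (T T' : Finset ℕ) 
    (h0 : s 0 = ⊥) (hk : s k = ⊤) (hN : ∀ i ≤ k, (s i).Normal) (hs : ∀ i < k, s i ≤ s (i + 1))
    (hstp : ∀ i < k, Stp π T i (s i) (s (i + 1)))
    (hT : ∀ i ∈ T, i ∉ T' → i < k → (s (i + 1)).map f = ⊥) : L π B T'.card := by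
  refine ⟨k, fun i => (s i).map f, T', le_rfl, ?_, ?_, ?_, ?_, ?_⟩
  · show (s 0).map f = ⊥
    rw [h0, Subgroup.map_bot]
  · show (s k).map f = ⊤
    rw [hk, Subgroup.map_top_of_surjective f hf]
  · intro i hi
    exact (hN i hi).map f hf
  · intro i hi
    exact Subgroup.map_mono (hs i hi)
  · intro i hi
    have hd := ratio_dvd f (hs i hi)
    rcases hstp i hi with h1 | ⟨h1, h2, c, h3⟩
    · left
      intro q hq hqd
      exact h1 q hq (hqd.trans hd)
    · by_cases hi' : i ∈ T'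
      · right
        refine ⟨hi', fun q hq hqd => h2 q hq (hqd.trans hd), c, ?_⟩
        rw [iter_eq] at h3 ⊢
        rw [← Subgroup.map_lowerCentralSeries]
        exact Subgroup.map_mono h3
      · left
        intro q hq hqd
        exfalso
        have h4 := hT i h1 hi' hi
        have h5 : Nat.card ((s (i + 1)).map f) / Nat.card ((s i).map f) ∣ 1 := by
          have h6 : (s i).map f = ⊥ := by
            rw [eq_bot_iff, ← h4]
            exact Subgroup.map_mono (hs i hi)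
          rw [h4, h6]
          simp
        exact hq.one_lt.ne' (Nat.dvd_one.mp (hqd.trans h5))

lemma L_quot {G B : Type} [Group G] [Group B] [Finite G] (π : Set ℕ) (f : G →* B)
    (hf : Function.Surjective f) (b : ℕ) (h : L π G b) : L π B b := by
  obtain ⟨k, s, T, hT, h0, hk, hN, hs, hstp⟩ := h
  obtain ⟨k', s', T', hT', r⟩ := L_map π f hf k s T T h0 hk hN hs hstp
    (fun i h1 h2 => absurd h1 h2)
  exact ⟨k', s', T', hT'.trans hT, r⟩

lemma L_step {l : ℕ} {B : Type} [Group B] [Finite B] (hl : l.Prime) (hO : Op l B) (π : Set ℕ)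
    (hlπ : l ∈ π) (b : ℕ) (h : L π (Wr l B) b) : ∃ b', b = b' + 1 ∧ L π B b' := by
  have := Fact.mk hl
  obtain ⟨k, s, T, hT, h0, hk, hN, hs, hstp⟩ := h
  classical
  have hne : ∃ i, i < k ∧ s (i + 1) ≠ ⊥ := by
    have h1 : s k ≠ ⊥ := by
      rw [hk]
      intro h2
      have h3 : io l B (fun _ => Multiplicative.ofAdd (1 : ZMod l)) ∈ (⊤ : Subgroup (Wr l B)) :=
        Subgroup.mem_top _
      rw [h2, Subgroup.mem_bot, ← map_one (io l B)] at h3
      have h4 := congrFun (io_inj h3) 1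
      have h5 : (1 : ZMod l) = 0 := congrArg Multiplicative.toAdd h4
      exact one_ne_zero h5
    have h2 : k ≠ 0 := by
      rintro rfl
      exact h1 h0
    refine ⟨k - 1, by omega, ?_⟩
    rw [Nat.sub_add_cancel (by omega)]
    exact h1
  have hj := Nat.find_spec hne
  set j := Nat.find hne with hjdef
  have hsj : s j = ⊥ := by
    rcases Nat.eq_zero_or_pos j with h1 | h1
    · rw [h1, h0]
    · have h2 := Nat.find_min hne (m := j - 1) (by omega)
      by_contra h3
      apply h2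
      refine ⟨by omega, ?_⟩
      rw [Nat.sub_add_cancel h1]
      exact h3
  obtain ⟨hjk, hj1⟩ := hj
  have hNj := hN (j + 1) hjk
  rcases hstp j hjk with h1 | ⟨h1, h2, c, h3⟩
  · exfalso
    apply hj1
    apply coprime_normal hl
    intro hd
    apply h1 l hl _ hlπ
    rw [hsj]
    simpa using hd
  · rw [iter_eq, hsj] at h3
    have h4 := nilp_le_ker hl hO (s (j + 1)) c h3
    obtain ⟨k', s', T', hT', r⟩ := L_map π (pr l B) pr_surj k s T (T.erase j) h0 hk hN hs hstp (by
      intro i hi1 hi2 _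
      have : i = j := by
        by_contra hne
        exact hi2 (Finset.mem_erase.mpr ⟨hne, hi1⟩)
      rw [this]
      exact h4)
    rw [Finset.card_erase_of_mem h1] at hT'
    have hpos : 0 < T.card := Finset.card_pos.mpr ⟨j, h1⟩
    exact ⟨b - 1, by omega, k', s', T', by omega, r⟩

/-- normal series with factors of orders powers of given primes -/
def Ser (G : Type) [Group G] (f : ℕ → ℕ) (k : ℕ) : Prop :=
  ∃ s : ℕ → Subgroup G, s 0 = ⊥ ∧ s k = ⊤ ∧ (∀ i ≤ k, (s i).Normal) ∧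
    (∀ i < k, s i ≤ s (i + 1)) ∧
    ∀ i < k, ∃ e : ℕ, Nat.card (s (i + 1)) / Nat.card (s i) = f i ^ e

lemma card_C (l : ℕ) : Nat.card (C l) = l := by
  have h : Nat.card (C l) = Nat.card (ZMod l) := Nat.card_congr Multiplicative.toAdd
  rw [h, Nat.card_zmod]

lemma card_wr (l : ℕ) (B : Type) [Group B] [Finite B] :
    Nat.card (Wr l B) = l ^ Nat.card B * Nat.card B := by
  rw [RegularWreathProduct.card, card_C]


lemma card_comap {l : ℕ} {B : Type} [Group B] [Finite B] [NeZero l] (A : Subgroup B) :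
    Nat.card (A.comap (pr l B)) = l ^ Nat.card B * Nat.card A := by
  have h1 := Subgroup.card_mul_index (A.comap (pr l B))
  rw [Subgroup.index_comap_of_surjective _ pr_surj, card_wr] at h1
  have h2 := Subgroup.card_mul_index A
  rw [← h2] at h1
  have h3 : 0 < A.index := Nat.pos_of_ne_zero Subgroup.index_ne_zero_of_finite
  apply Nat.eq_of_mul_eq_mul_right h3
  rw [mul_assoc, h2]
  rw [h1, h2]

lemma Ser_wr {l : ℕ} {B : Type} [Group B] [Finite B] [NeZero l] {f g : ℕ → ℕ} {k : ℕ}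
    (h : Ser B f k) (hg0 : g 0 = l) (hg : ∀ i, g (i + 1) = f i) : Ser (Wr l B) g (k + 1) := by
  obtain ⟨s, h0, hk, hN, hs, hf⟩ := h
  refine ⟨fun i => Nat.casesOn i ⊥ (fun n => (s n).comap (pr l B)), rfl, ?_, ?_, ?_, ?_⟩
  · show (s k).comap (pr l B) = ⊤
    rw [hk, Subgroup.comap_top]
  · intro i hi
    cases i with
    | zero => 
      show (⊥ : Subgroup (Wr l B)).Normal
      infer_instance
    | succ n =>
      show ((s n).comap (pr l B)).Normal
      exact (hN n (by omega)).comap _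
  · intro i hi
    cases i with
    | zero => exact bot_le
    | succ n =>
      show (s n).comap (pr l B) ≤ (s (n + 1)).comap (pr l B)
      exact Subgroup.comap_mono (hs n (by omega))
  · intro i hi
    cases i with
    | zero =>
      refine ⟨Nat.card B, ?_⟩
      show Nat.card ((s 0).comap (pr l B)) / Nat.card (⊥ : Subgroup (Wr l B)) = _
      rw [card_comap, h0, Subgroup.card_bot, Subgroup.card_bot, hg0]
      simp
    | succ n =>
      obtain ⟨e, he⟩ := hf n (by omega)
      refine ⟨e, ?_⟩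
      show Nat.card ((s (n + 1)).comap (pr l B)) / Nat.card ((s n).comap (pr l B)) = _
      rw [card_comap, card_comap, hg, Nat.mul_div_mul_left _ _ (Nat.pos_of_ne_zero (by
        exact pow_ne_zero _ (NeZero.ne l)))]
      exact he

/-- Hall subgroup -/
def IsHall (π : Set ℕ) {G : Type} [Group G] (H : Subgroup G) : Prop :=
  (∀ q : ℕ, q.Prime → q ∣ Nat.card H → q ∈ π) ∧ (∀ q : ℕ, q.Prime → q ∣ H.index → q ∉ π)

lemma hall_wr {l : ℕ} (hl : l.Prime) {B : Type} [Group B] [Finite B] (π : Set ℕ)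
    (h : ∃ H : Subgroup B, IsHall π H) : ∃ H : Subgroup (Wr l B), IsHall π H := by
  have : NeZero l := ⟨hl.ne_zero⟩
  obtain ⟨H, h1, h2⟩ := h
  by_cases hp : l ∈ π
  · refine ⟨H.comap (pr l B), ?_, ?_⟩
    · intro q hq hqd
      rw [card_comap] at hqd
      rcases (Nat.Prime.dvd_mul hq).mp hqd with h3 | h3
      · rw [(Nat.prime_dvd_prime_iff_eq hq hl).mp (hq.dvd_of_dvd_pow h3)]
        exact hp
      · exact h1 q hq h3
    · rw [Subgroup.index_comap_of_surjective _ pr_surj]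
      exact h2
  · have hinj : Function.Injective (RegularWreathProduct.inl : B →* Wr l B) := by
      intro x y hxy
      exact congrArg RegularWreathProduct.right hxy
    have hc : Nat.card (H.map (RegularWreathProduct.inl : B →* Wr l B)) = Nat.card H :=
      Subgroup.card_map_of_injective hinj
    refine ⟨H.map (RegularWreathProduct.inl : B →* Wr l B), ?_, ?_⟩
    · rw [hc]; exact h1
    · have h3 := Subgroup.card_mul_index (H.map (RegularWreathProduct.inl : B →* Wr l B))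
      rw [hc, card_wr] at h3
      have h4 : (H.map (RegularWreathProduct.inl : B →* Wr l B)).index
          = l ^ Nat.card B * H.index := by
        apply Nat.eq_of_mul_eq_mul_left (Nat.card_pos (α := H))
        rw [h3, mul_left_comm, Subgroup.card_mul_index H]
      rw [h4]
      intro q hq hqd
      rcases (Nat.Prime.dvd_mul hq).mp hqd with h5 | h5
      · rw [(Nat.prime_dvd_prime_iff_eq hq hl).mp (hq.dvd_of_dvd_pow h5)]
        exact hp
      · exact h2 q hq h5

/-- the trivial group -/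
abbrev G7 : Type := Unit
abbrev G6 : Type := Wr 2 G7
abbrev G5 : Type := Wr 3 G6
abbrev G4 : Type := Wr 2 G5
abbrev G3 : Type := Wr 5 G4
abbrev G2 : Type := Wr 3 G3
abbrev G1 : Type := Wr 5 G2

lemma isHall_unit (π : Set ℕ) : ∃ H : Subgroup G7, IsHall π H := by
  refine ⟨⊤, ?_, ?_⟩
  · intro q hq hqd
    rw [Subgroup.card_top, Nat.card_unique] at hqd
    exact absurd (Nat.dvd_one.mp hqd) hq.one_lt.ne'
  · intro q hq hqd
    rw [Subgroup.index_top] at hqd
    exact absurd (Nat.dvd_one.mp hqd) hq.one_lt.ne'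

lemma isHall_G1 (π : Set ℕ) : ∃ H : Subgroup G1, IsHall π H :=
  hall_wr (by norm_num) π (hall_wr (by norm_num) π (hall_wr (by norm_num) π
    (hall_wr (by norm_num) π (hall_wr (by norm_num) π (hall_wr (by norm_num) π
    (isHall_unit π))))))

/-- sequence of primes -/
def sq : ℕ → ℕ
  | 0 => 5
  | 1 => 3
  | 2 => 5
  | 3 => 2
  | 4 => 3
  | _ => 2

lemma ser_G1 : Ser G1 sq 6 := by
  have h7 : Ser G7 (fun i => sq (i + 6)) 0 := by
    refine ⟨fun _ => ⊥, rfl, Subsingleton.elim _ _, fun _ _ => inferInstance, ?_, ?_⟩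
    · intro i hi; omega
    · intro i hi; omega
  have h6 : Ser G6 (fun i => sq (i + 5)) 1 := Ser_wr h7 rfl (fun i => rfl)
  have h5 : Ser G5 (fun i => sq (i + 4)) 2 := Ser_wr h6 rfl (fun i => rfl)
  have h4 : Ser G4 (fun i => sq (i + 3)) 3 := Ser_wr h5 rfl (fun i => rfl)
  have h3 : Ser G3 (fun i => sq (i + 2)) 4 := Ser_wr h4 rfl (fun i => rfl)
  have h2 : Ser G2 (fun i => sq (i + 1)) 5 := Ser_wr h3 rfl (fun i => rfl)
  exact Ser_wr h2 rfl (fun i => rfl)

/-- the set of primes -/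
def pis : Set ℕ := {2, 5}

lemma notL : ¬ L pis G1 3 := by
  intro h
  have p2 : Nat.Prime 2 := by norm_num
  have p3 : Nat.Prime 3 := by norm_num
  have p5 : Nat.Prime 5 := by norm_num
  obtain ⟨b1, e1, h1⟩ := L_step p5 (op_wr p5 p3 (by norm_num)) pis (Or.inr rfl) 3 h
  have h2 : L pis G3 b1 := L_quot pis (pr 3 G3) pr_surj b1 h1
  obtain ⟨b2, e2, h3⟩ := L_step p5 (op_wr p5 p2 (by norm_num)) pis (Or.inr rfl) b1 h2
  obtain ⟨b3, e3, h4⟩ := L_step p2 (op_wr p2 p3 (by norm_num)) pis (Or.inl rfl) b2 h3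
  have h5 : L pis G6 b3 := L_quot pis (pr 3 G6) pr_surj b3 h4
  obtain ⟨b4, e4, h6⟩ := L_step p2 (fun N _ _ => Subsingleton.elim _ _) pis (Or.inl rfl) b3 h5
  omega

/-- projection to G4 -/
def f14 : G1 →* G4 := (pr 5 G4).comp ((pr 3 G3).comp (pr 5 G2))

lemma f14_surj : Function.Surjective f14 :=
  (pr_surj (l := 5) (B := G4)).comp ((pr_surj (l := 3) (B := G3)).comp (pr_surj (l := 5) (B := G2)))

lemma card_ker : Nat.card f14.ker = 5 ^ Nat.card G2 * (3 ^ Nat.card G3 * 5 ^ Nat.card G4) := by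
  have h1 := Subgroup.card_mul_index f14.ker
  rw [Subgroup.index_ker, MonoidHom.range_eq_top.mpr f14_surj, Subgroup.card_top] at h1
  have h2 := card_wr 5 G2
  have h3 := card_wr 3 G3
  have h4 := card_wr 5 G4
  apply Nat.eq_of_mul_eq_mul_right (Nat.card_pos (α := G4))
  rw [h1, h2]
  calc 5 ^ Nat.card G2 * Nat.card G2 = 5 ^ Nat.card G2 * (3 ^ Nat.card G3 * (5 ^ Nat.card G4 * Nat.card G4)) := by
        congr 1
        rw [h3]
        congr 1
    _ = _ := by rw [mul_assoc, mul_assoc]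

lemma prime_of_pow {q p e : ℕ} (hq : q.Prime) (hp : p.Prime) (h : q ∣ p ^ e) : q = p :=
  (Nat.prime_dvd_prime_iff_eq hq hp).mp (hq.dvd_of_dvd_pow h)

lemma ker_primes (q : ℕ) (hq : q.Prime) (h : q ∣ Nat.card f14.ker) : q = 3 ∨ q = 5 := by
  rw [card_ker] at h
  rcases (Nat.Prime.dvd_mul hq).mp h with h | h
  · right; exact prime_of_pow hq (by norm_num) h
  · rcases (Nat.Prime.dvd_mul hq).mp h with h | h
    · left; exact prime_of_pow hq (by norm_num) h
    · right; exact prime_of_pow hq (by norm_num) h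

lemma G4_primes (q : ℕ) (hq : q.Prime) (h : q ∣ Nat.card G4) : q = 2 ∨ q = 3 := by
  rw [card_wr] at h
  rcases (Nat.Prime.dvd_mul hq).mp h with h | h
  · left; exact prime_of_pow hq (by norm_num) h
  rw [card_wr] at h
  rcases (Nat.Prime.dvd_mul hq).mp h with h | h
  · right; exact prime_of_pow hq (by norm_num) h
  rw [card_wr] at h
  rcases (Nat.Prime.dvd_mul hq).mp h with h | h
  · left; exact prime_of_pow hq (by norm_num) h
  rw [Nat.card_unique] at h
  exact absurd (Nat.dvd_one.mp h) hq.one_lt.ne'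

lemma nilp_of_primes {G : Type} [Group G] [Finite G] {p : ℕ} (hp : p.Prime)
    (h : ∀ q : ℕ, q.Prime → q ∣ Nat.card G → q = p) : Group.IsNilpotent G := by
  have := Fact.mk hp
  have h1 : IsPGroup p G := by
    rw [IsPGroup.iff_card]
    exact ⟨_, Nat.eq_prime_pow_of_unique_prime_dvd Nat.card_pos.ne'
      (fun {d} hd hd2 => h d hd hd2)⟩
  exact h1.isNilpotent

lemma nil_quot {X : Type} [Group X] (N : Subgroup X) [N.Normal] (h : Group.IsNilpotent (X ⧸ N)) :
    ∃ n : ℕ, (fun K : Subgroup X => ⁅K, (⊤ : Subgroup X)⁆)^[n] ⊤ ≤ N := by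
  rw [Subgroup.nilpotent_iff_lowerCentralSeries] at h
  obtain ⟨n, hn⟩ := h
  refine ⟨n, ?_⟩
  rw [iter_eq]
  have h2 := Subgroup.map_lowerCentralSeries (⊤ : Subgroup X) (QuotientGroup.mk' N) n
  rw [Subgroup.map_top_of_surjective _ (QuotientGroup.mk'_surjective N), hn,
    Subgroup.map_eq_bot_iff, QuotientGroup.ker_mk'] at h2
  exact h2

lemma nil_sub {X : Type} [Group X] (N : Subgroup X) (h : Group.IsNilpotent N) :
    ∃ n : ℕ, (fun K : Subgroup X => ⁅K, N⁆)^[n] N ≤ ⊥ := by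
  rw [Subgroup.isNilpotent_iff_lowerCentralSeries] at h
  obtain ⟨n, hn⟩ := h
  refine ⟨n, ?_⟩
  rw [iter_eq, hn]

/-- the nilpotent series of H -/
def tt (H : Subgroup G1) : ℕ → Subgroup H
  | 0 => ⊥
  | 1 => f14.ker.subgroupOf H
  | _ => ⊤

lemma tt_zero (H : Subgroup G1) : tt H 0 = ⊥ := rfl
lemma tt_one (H : Subgroup G1) : tt H 1 = f14.ker.subgroupOf H := rfl
lemma tt_two (H : Subgroup G1) : tt H 2 = ⊤ := rfl

lemma nilp_series (H : Subgroup G1) (hH : IsHall pis H) :
    ∃ t : ℕ → Subgroup H, t 0 = ⊥ ∧ t 2 = ⊤ ∧ (∀ i ≤ 2, (t i).Normal) ∧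
        (∀ i < 2, t i ≤ t (i + 1)) ∧
        ∀ i < 2, ∃ c : ℕ, (fun K : Subgroup H => ⁅K, t (i + 1)⁆)^[c] (t (i + 1)) ≤ t i := by
  have hS5 : Group.IsNilpotent (f14.ker.subgroupOf H) := by
    apply nilp_of_primes (show Nat.Prime 5 by norm_num)
    intro q hq hqd
    have h1 : q ∈ pis := hH.1 q hq (hqd.trans (Subgroup.card_subgroup_dvd_card _))
    have h2 : Nat.card (f14.ker.subgroupOf H) ∣ Nat.card f14.ker := by
      have h3 : Nat.card ((f14.ker.subgroupOf H).map H.subtype) = Nat.card (f14.ker.subgroupOf H) :=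
        Subgroup.card_map_of_injective H.subtype_injective
      rw [← h3, Subgroup.subgroupOf_map_subtype]
      exact Subgroup.card_dvd_of_le inf_le_left
    rcases ker_primes q hq (hqd.trans h2) with h3 | h3
    · subst h3
      rcases h1 with h1 | h1
      · norm_num at h1
      · norm_num at h1
    · exact h3
  have hQ2 : Group.IsNilpotent (H ⧸ f14.ker.subgroupOf H) := by
    apply nilp_of_primes (show Nat.Prime 2 by norm_num)
    intro q hq hqd
    have h0 : Nat.card (H ⧸ f14.ker.subgroupOf H) = Nat.card (H.map f14) := by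
      rw [← Subgroup.relIndex_ker]
      rfl
    rw [h0] at hqd
    have h1 : q ∈ pis := hH.1 q hq (hqd.trans (Subgroup.card_map_dvd _ _))
    rcases G4_primes q hq (hqd.trans (Subgroup.card_subgroup_dvd_card _)) with h3 | h3
    · exact h3
    · subst h3
      rcases h1 with h1 | h1
      · norm_num at h1
      · norm_num at h1
  refine ⟨tt H, rfl, rfl, ?_, ?_, ?_⟩
  · intro i hi
    interval_cases i
    · show (⊥ : Subgroup H).Normal
      infer_instance
    · show (f14.ker.subgroupOf H).Normal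
      infer_instance
    · show (⊤ : Subgroup H).Normal
      infer_instance
  · intro i hi
    interval_cases i
    · exact bot_le
    · exact le_top
  · intro i hi
    interval_cases i
    · exact nil_sub (f14.ker.subgroupOf H) hS5
    · exact nil_quot (f14.ker.subgroupOf H) hQ2

theorem main_neg : ¬ (∀ (G : Type) [Group G] [Finite G] (π : Set ℕ), (∀ p ∈ π, p.Prime) →
    (∃ (k : ℕ) (s : ℕ → Subgroup G), s 0 = ⊥ ∧ s k = ⊤ ∧ (∀ i ≤ k, (s i).Normal) ∧
      (∀ i < k, s i ≤ s (i + 1)) ∧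
      ∀ i < k, (∀ q : ℕ, q.Prime → q ∣ Nat.card (s (i + 1)) / Nat.card (s i) → q ∉ π) ∨
        ∃ p ∈ π, ∃ e : ℕ, Nat.card (s (i + 1)) / Nat.card (s i) = p ^ e) →
    ∀ (H : Subgroup G), (∀ q : ℕ, q.Prime → q ∣ Nat.card H → q ∈ π) →
      (∀ q : ℕ, q.Prime → q ∣ H.index → q ∉ π) →
    ∀ (a b : ℕ),
      (∃ t : ℕ → Subgroup H, t 0 = ⊥ ∧ t a = ⊤ ∧ (∀ i ≤ a, (t i).Normal) ∧
        (∀ i < a, t i ≤ t (i + 1)) ∧
        ∀ i < a, ∃ c : ℕ, (fun K : Subgroup H => ⁅K, t (i + 1)⁆)^[c] (t (i + 1)) ≤ t i) →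
      (∀ p ∈ π, ∃ (k : ℕ) (s : ℕ → Subgroup G) (T : Finset ℕ), T.card ≤ b ∧
        s 0 = ⊥ ∧ s k = ⊤ ∧ (∀ i ≤ k, (s i).Normal) ∧ (∀ i < k, s i ≤ s (i + 1)) ∧
        ∀ i < k, (¬ p ∣ Nat.card (s (i + 1)) / Nat.card (s i)) ∨
          (i ∈ T ∧ ∃ e : ℕ, Nat.card (s (i + 1)) / Nat.card (s i) = p ^ e)) →
      ∃ (k : ℕ) (s : ℕ → Subgroup G) (T : Finset ℕ), T.card ≤ a - 1 + b ∧
        s 0 = ⊥ ∧ s k = ⊤ ∧ (∀ i ≤ k, (s i).Normal) ∧ (∀ i < k, s i ≤ s (i + 1)) ∧
        ∀ i < k, (∀ q : ℕ, q.Prime → q ∣ Nat.card (s (i + 1)) / Nat.card (s i) → q ∉ π) ∨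
          (i ∈ T ∧ (∀ q : ℕ, q.Prime → q ∣ Nat.card (s (i + 1)) / Nat.card (s i) → q ∈ π) ∧
            ∃ c : ℕ, (fun K : Subgroup G => ⁅K, s (i + 1)⁆)^[c] (s (i + 1)) ≤ s i)) := by
  intro hall
  obtain ⟨s, h0, h6, hN, hs, hf⟩ := ser_G1
  obtain ⟨H, hH⟩ := isHall_G1 pis
  apply notL
  refine hall G1 pis ?_ ⟨6, s, h0, h6, hN, hs, ?_⟩ H hH.1 hH.2 2 2 (nilp_series H hH) ?_
  · rintro p (rfl | rfl) <;> norm_num
  · intro i hi
    obtain ⟨e, he⟩ := hf i hi
    rw [he]
    interval_cases i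
    · exact Or.inr ⟨5, Or.inr rfl, e, rfl⟩
    · left
      intro q hq hqd
      rw [prime_of_pow hq (show Nat.Prime 3 by norm_num) hqd]
      rintro (h | h) <;> norm_num at h
    · exact Or.inr ⟨5, Or.inr rfl, e, rfl⟩
    · exact Or.inr ⟨2, Or.inl rfl, e, rfl⟩
    · left
      intro q hq hqd
      rw [prime_of_pow hq (show Nat.Prime 3 by norm_num) hqd]
      rintro (h | h) <;> norm_num at h
    · exact Or.inr ⟨2, Or.inl rfl, e, rfl⟩
  · rintro p (rfl | rfl)
    · refine ⟨6, s, {3, 5}, le_rfl, h0, h6, hN, hs, ?_⟩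
      intro i hi
      obtain ⟨e, he⟩ := hf i hi
      rw [he]
      interval_cases i
      · left; intro h; have := prime_of_pow (show Nat.Prime 2 by norm_num) (show Nat.Prime 5 by norm_num) h; norm_num at this
      · left; intro h; have := prime_of_pow (show Nat.Prime 2 by norm_num) (show Nat.Prime 3 by norm_num) h; norm_num at this
      · left; intro h; have := prime_of_pow (show Nat.Prime 2 by norm_num) (show Nat.Prime 5 by norm_num) h; norm_num at this
      · exact Or.inr ⟨by decide, e, rfl⟩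
      · left; intro h; have := prime_of_pow (show Nat.Prime 2 by norm_num) (show Nat.Prime 3 by norm_num) h; norm_num at this
      · exact Or.inr ⟨by decide, e, rfl⟩
    · refine ⟨6, s, {0, 2}, le_rfl, h0, h6, hN, hs, ?_⟩
      intro i hi
      obtain ⟨e, he⟩ := hf i hi
      rw [he]
      interval_cases i
      · exact Or.inr ⟨by decide, e, rfl⟩
      · left; intro h; have := prime_of_pow (show Nat.Prime 5 by norm_num) (show Nat.Prime 3 by norm_num) h; norm_num at this
      · exact Or.inr ⟨by decide, e, rfl⟩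
      · left; intro h; have := prime_of_pow (show Nat.Prime 5 by norm_num) (show Nat.Prime 2 by norm_num) h; norm_num at this
      · left; intro h; have := prime_of_pow (show Nat.Prime 5 by norm_num) (show Nat.Prime 3 by norm_num) h; norm_num at this
      · left; intro h; have := prime_of_pow (show Nat.Prime 5 by norm_num) (show Nat.Prime 2 by norm_num) h; norm_num at this


end helpers

/-- The negation of the preceding statement: For a finite π-soluble group G with Hall π-subgroup H of nilpotent length ≤ a and p-length ≤ b for all p in π, G has a normal series with π′ factors and at most a−1+b nilpotent π-factors. -/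
theorem result :
    ¬ (∀ (G : Type) [Group G] [Finite G] (π : Set ℕ), (∀ p ∈ π, p.Prime) →
    (∃ (k : ℕ) (s : ℕ → Subgroup G), s 0 = ⊥ ∧ s k = ⊤ ∧ (∀ i ≤ k, (s i).Normal) ∧
      (∀ i < k, s i ≤ s (i + 1)) ∧
      ∀ i < k, (∀ q : ℕ, q.Prime → q ∣ Nat.card (s (i + 1)) / Nat.card (s i) → q ∉ π) ∨
        ∃ p ∈ π, ∃ e : ℕ, Nat.card (s (i + 1)) / Nat.card (s i) = p ^ e) →
    ∀ (H : Subgroup G), (∀ q : ℕ, q.Prime → q ∣ Nat.card H → q ∈ π) →
      (∀ q : ℕ, q.Prime → q ∣ H.index → q ∉ π) →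
    ∀ (a b : ℕ),
      (∃ t : ℕ → Subgroup H, t 0 = ⊥ ∧ t a = ⊤ ∧ (∀ i ≤ a, (t i).Normal) ∧
        (∀ i < a, t i ≤ t (i + 1)) ∧
        ∀ i < a, ∃ c : ℕ, (fun K : Subgroup H => ⁅K, t (i + 1)⁆)^[c] (t (i + 1)) ≤ t i) →
      (∀ p ∈ π, ∃ (k : ℕ) (s : ℕ → Subgroup G) (T : Finset ℕ), T.card ≤ b ∧
        s 0 = ⊥ ∧ s k = ⊤ ∧ (∀ i ≤ k, (s i).Normal) ∧ (∀ i < k, s i ≤ s (i + 1)) ∧
        ∀ i < k, (¬ p ∣ Nat.card (s (i + 1)) / Nat.card (s i)) ∨
          (i ∈ T ∧ ∃ e : ℕ, Nat.card (s (i + 1)) / Nat.card (s i) = p ^ e)) →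
      ∃ (k : ℕ) (s : ℕ → Subgroup G) (T : Finset ℕ), T.card ≤ a - 1 + b ∧
        s 0 = ⊥ ∧ s k = ⊤ ∧ (∀ i ≤ k, (s i).Normal) ∧ (∀ i < k, s i ≤ s (i + 1)) ∧
        ∀ i < k, (∀ q : ℕ, q.Prime → q ∣ Nat.card (s (i + 1)) / Nat.card (s i) → q ∉ π) ∨
          (i ∈ T ∧ (∀ q : ℕ, q.Prime → q ∣ Nat.card (s (i + 1)) / Nat.card (s i) → q ∈ π) ∧
            ∃ c : ℕ, (fun K : Subgroup G => ⁅K, s (i + 1)⁆)^[c] (s (i + 1)) ≤ s i)) := by
  exact main_neg

end Pool.Agent.S01896
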