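import Pool.Statements.S01918
-- import your own Pool.Agent.* helpers here

set_option autoImplicit false
open Pool Pool.MP_be2783_al

namespace Pool.Agent.S01918

noncomputable section

/-- Finitely supported functions from the integers to the field with three elements. -/
abbrev W : Type := ℤ →₀ ZMod 3

/-- The sparse set of integers used to define the form. -/
def S : Set ℤ := {x | ∃ N : ℕ, x = (N.factorial : ℤ) + ((Nat.unpair N).1 : ℤ)}

/-- The sign of an integer: plus one if even, minus one if odd. -/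
def sg (k : ℤ) : ℤ := ((k.negOnePow : ℤˣ) : ℤ)

lemma sg_add (k l : ℤ) : sg (k + l) = sg k * sg l := by
  unfold sg; rw [Int.negOnePow_add]; push_cast; rfl

lemma sg_zero : sg 0 = 1 := by simp [sg]

lemma sg_cases (k : ℤ) : sg k = 1 ∨ sg k = -1 := by
  unfold sg
  rcases Int.units_eq_one_or k.negOnePow with h | h <;> rw [h] <;> simp

lemma sg_mul_self (k : ℤ) : sg k * sg k = 1 := by
  rcases sg_cases k with h | h <;> rw [h] <;> norm_num

lemma sg_neg (k : ℤ) : sg (-k) = sg k := by
  unfold sg; rw [Int.negOnePow_neg]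

open Classical in
/-- The kernel of the form. -/
def c (i j : ℤ) : ZMod 3 := if j < i ∧ i - j ∈ S then (sg j : ZMod 3) else 0

/-- The bilinear form. -/
def β : W →ₗ[ZMod 3] W →ₗ[ZMod 3] ZMod 3 :=
  Finsupp.linearCombination (ZMod 3) (fun i => Finsupp.linearCombination (ZMod 3) (fun j => c i j))

/-- The shift. -/
def T (k : ℤ) : W →ₗ[ZMod 3] W := Finsupp.lmapDomain (ZMod 3) (ZMod 3) (fun i => i + k)

/-- The alternating sum functional. -/
def φ : W →ₗ[ZMod 3] ZMod 3 :=
  Finsupp.linearCombination (ZMod 3) (fun i : ℤ => (sg i : ZMod 3))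

lemma β_single (i j : ℤ) (a b : ZMod 3) :
    β (Finsupp.single i a) (Finsupp.single j b) = a * (b * c i j) := by
  simp [β, Finsupp.linearCombination_single]

lemma T_single (k i : ℤ) (a : ZMod 3) : T k (Finsupp.single i a) = Finsupp.single (i + k) a := by
  simp [T]

lemma T_zero (f : W) : T 0 f = f := by
  induction f using Finsupp.induction_linear with
  | zero => simp
  | add f g hf hg => simp [hf, hg]
  | single i a => rw [T_single]; simp

lemma T_add (k l : ℤ) (f : W) : T (k + l) f = T k (T l f) := by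
  induction f using Finsupp.induction_linear with
  | zero => simp
  | add f g hf hg => simp [hf, hg]
  | single i a => simp only [T_single]; congr 1; ring

lemma c_shift (i j k : ℤ) : c (i + k) (j + k) = (sg k : ZMod 3) * c i j := by
  unfold c
  have h1 : (i + k) - (j + k) = i - j := by ring
  have h2 : (j + k < i + k) ↔ (j < i) := by constructor <;> intro h <;> linarith
  rw [h1]
  by_cases h : j < i ∧ i - j ∈ S
  · rw [if_pos h, if_pos ⟨h2.2 h.1, h.2⟩, sg_add]
    push_cast
    ring
  · rw [if_neg h, if_neg (fun h' => h ⟨h2.1 h'.1, h'.2⟩)]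
    ring

lemma β_T (k : ℤ) (f g : W) : β (T k f) (T k g) = (sg k : ZMod 3) * β f g := by
  induction f using Finsupp.induction_linear with
  | zero => simp
  | add f f' hf hf' => simp [hf, hf', mul_add]
  | single i a =>
    induction g using Finsupp.induction_linear with
    | zero => simp
    | add g g' hg hg' => simp only [map_add, hg, hg', mul_add]
    | single j b =>
      rw [T_single, T_single, β_single, β_single, c_shift]
      ring

lemma φ_T (k : ℤ) (f : W) : φ (T k f) = (sg k : ZMod 3) * φ f := by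
  induction f using Finsupp.induction_linear with
  | zero => simp
  | add f f' hf hf' => simp [hf, hf', mul_add]
  | single i a =>
    simp only [T_single, φ, Finsupp.linearCombination_single, smul_eq_mul, sg_add]
    push_cast
    ring

/-- Multiplication by three from Z mod 3 to Z mod 9. -/
def ι : ZMod 3 →+ ZMod 9 :=
  AddMonoidHom.mk' (fun x : ZMod 3 => (3 * (x.val : ZMod 9) : ZMod 9)) (by decide)

/-- Reduction from Z mod 9 to Z mod 3. -/
def π : ZMod 9 →+* ZMod 3 := ZMod.castHom (by norm_num) (ZMod 3)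

lemma ι_inj : Function.Injective ι := by
  intro x y
  revert x y
  decide

lemma π_ι (x : ZMod 3) : π (ι x) = 0 := by
  revert x
  decide

lemma ι_sg (k : ℤ) (x : ZMod 3) : ι ((sg k : ZMod 3) * x) = (sg k : ZMod 9) * ι x := by
  rcases sg_cases k with h | h <;> rw [h] <;> simp

/-- The big group. -/
@[ext] structure G where
  w : W
  n : ZMod 9
  k : ℤ

instance : Mul G := ⟨fun x y =>
  ⟨x.w + T x.k y.w, x.n + (sg x.k : ZMod 9) * y.n + ι (β x.w (T x.k y.w)), x.k + y.k⟩⟩

instance : One G := ⟨⟨0, 0, 0⟩⟩

instance : Inv G := ⟨fun x =>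
  ⟨- T (-x.k) x.w, - ((sg x.k : ZMod 9) * x.n) + ι (β (T (-x.k) x.w) (T (-x.k) x.w)), -x.k⟩⟩

lemma mul_w (x y : G) : (x * y).w = x.w + T x.k y.w := rfl
lemma mul_n (x y : G) :
    (x * y).n = x.n + (sg x.k : ZMod 9) * y.n + ι (β x.w (T x.k y.w)) := rfl
lemma mul_k (x y : G) : (x * y).k = x.k + y.k := rfl
lemma one_w : (1 : G).w = 0 := rfl
lemma one_n : (1 : G).n = 0 := rfl
lemma one_k : (1 : G).k = 0 := rfl
lemma inv_w (x : G) : (x⁻¹).w = - T (-x.k) x.w := rfl
lemma inv_n (x : G) : (x⁻¹).n =
  - ((sg x.k : ZMod 9) * x.n) + ι (β (T (-x.k) x.w) (T (-x.k) x.w)) := rfl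
lemma inv_k (x : G) : (x⁻¹).k = - x.k := rfl

instance : Group G := Group.ofLeftAxioms
  (by
    intro x y z
    apply G.ext
    · simp only [mul_w, mul_k, map_add, T_add, add_assoc]
    · simp only [mul_w, mul_n, mul_k, map_add, T_add, sg_add, β_T, ι_sg, LinearMap.add_apply]
      push_cast
      ring
    · simp only [mul_k, add_assoc])
  (by
    intro x
    apply G.ext
    · simp [mul_w, one_w, one_k, T_zero]
    · simp [mul_n, one_w, one_n, one_k, T_zero, sg_zero]
    · simp [mul_k, one_k])
  (by
    intro x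
    apply G.ext
    · simp [mul_w, one_w, inv_w, inv_k]
    · simp only [mul_n, one_n, inv_w, inv_n, inv_k, sg_neg, map_neg, LinearMap.neg_apply]
      ring
    · simp [mul_k, one_k, inv_k])

/-- The first group. -/
def A : Subgroup G where
  carrier := {x | π x.n = φ x.w}
  mul_mem' := by
    intro x y hx hy
    simp only [Set.mem_ofPred_eq] at *
    rw [mul_n, mul_w, map_add, map_add, map_add, π_ι, hx, map_mul, hy, φ_T]
    simp
  one_mem' := by
    simp [one_n, one_w]
  inv_mem' := by
    intro x hx
    simp only [Set.mem_ofPred_eq] at *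
    rw [inv_n, inv_w, map_add, π_ι, map_neg, map_mul, hx, map_neg, φ_T, sg_neg]
    simp

/-- The second group. -/
def B : Subgroup G where
  carrier := {x | π x.n = 0}
  mul_mem' := by
    intro x y hx hy
    simp only [Set.mem_ofPred_eq] at *
    rw [mul_n, map_add, map_add, π_ι, hx, map_mul, hy]
    simp
  one_mem' := by
    simp [one_n]
  inv_mem' := by
    intro x hx
    simp only [Set.mem_ofPred_eq] at *
    rw [inv_n, map_add, π_ι, map_neg, map_mul, hx]
    simp

/-- The fibre product. -/
def H : Subgroup (A × B) where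
  carrier := {x | (x.1 : G).w = (x.2 : G).w ∧ (x.1 : G).k = (x.2 : G).k}
  mul_mem' := by
    intro x y hx hy
    simp only [Set.mem_ofPred_eq] at *
    constructor
    · simp only [Prod.fst_mul, Prod.snd_mul, Subgroup.coe_mul, mul_w, hx.1, hx.2, hy.1]
    · simp only [Prod.fst_mul, Prod.snd_mul, Subgroup.coe_mul, mul_k, hx.2, hy.2]
  one_mem' := by
    simp
  inv_mem' := by
    intro x hx
    simp only [Set.mem_ofPred_eq] at *
    constructor
    · simp only [Prod.fst_inv, Prod.snd_inv, Subgroup.coe_inv, inv_w, hx.1, hx.2]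
    · simp only [Prod.fst_inv, Prod.snd_inv, Subgroup.coe_inv, inv_k, hx.2]

open Classical in
/-- The map to the dihedral group. -/
def F (d : ZMod 9) (k : ℤ) : DihedralGroup 9 :=
  if sg k = 1 then DihedralGroup.r d else DihedralGroup.sr (-d)

lemma F_mul (d d' : ZMod 9) (k k' : ℤ) :
    F (d + (sg k : ZMod 9) * d') (k + k') = F d k * F d' k' := by
  unfold F
  rw [sg_add]
  rcases sg_cases k with h | h <;> rcases sg_cases k' with h' | h' <;> rw [h, h'] <;> simp <;> ring

/-- The surjection from the fibre product onto the dihedral group. -/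
def ψ : H →* DihedralGroup 9 :=
  MonoidHom.mk' (fun x => F ((x.1.1 : G).n - (x.1.2 : G).n) (x.1.1 : G).k) (by
    intro x y
    rw [← F_mul]
    have hx := x.2
    have hy := y.2
    simp only [H, Subgroup.mem_mk, Submonoid.mem_mk, Subsemigroup.mem_mk,
      Set.mem_ofPred_eq] at hx hy
    simp only [Subgroup.coe_mul, Prod.fst_mul, Prod.snd_mul, mul_n, mul_k]
    congr 1
    rw [hx.1, hx.2, hy.1]
    ring)

lemma ψ_surj : Function.Surjective ψ := by
  intro g
  have key : ∀ (d : ZMod 9) (k : ℤ), ∃ x, ψ x = F d k := by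
    intro d k
    have hA : (⟨Finsupp.single 0 (π d), d, k⟩ : G) ∈ A := by
      show π d = φ (Finsupp.single 0 (π d))
      simp [φ, Finsupp.linearCombination_single, sg_zero]
    have hB : (⟨Finsupp.single 0 (π d), 0, k⟩ : G) ∈ B := by
      show π 0 = 0
      simp
    refine ⟨⟨(⟨_, hA⟩, ⟨_, hB⟩), ?_⟩, ?_⟩
    · exact ⟨rfl, rfl⟩
    · show F (d - 0) k = F d k
      rw [sub_zero]
  cases g with
  | r d =>
    obtain ⟨x, hx⟩ := key d 0
    refine ⟨x, ?_⟩
    rw [hx]
    simp [F, sg_zero]
  | sr d =>
    obtain ⟨x, hx⟩ := key (-d) 1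
    refine ⟨x, ?_⟩
    rw [hx]
    have : sg 1 = -1 := by simp [sg]
    simp [F, this]

lemma S_sparse (D k : ℕ) (hk : 0 < k) : ∃ M : ℤ, (k : ℤ) ∣ M ∧ (D : ℤ) < M ∧ M + D ∈ S ∧
    ∀ d : ℤ, -(D : ℤ) ≤ d → d < D → M + d ∉ S := by
  set R : ℕ := k + D + 3 with hR
  set N : ℕ := Nat.pair D R with hN
  have hNR : R ≤ N := Nat.right_le_pair D R
  have hfac : ∀ n : ℕ, n ≤ n.factorial := Nat.self_le_factorial
  refine ⟨(N.factorial : ℤ), ?_, ?_, ?_, ?_⟩
  · exact_mod_cast Nat.dvd_factorial hk (by omega)
  · have := hfac N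
    have h2 : D < N.factorial := by omega
    exact_mod_cast h2
  · refine ⟨N, ?_⟩
    rw [hN, Nat.unpair_pair]
  · rintro d hd1 hd2 ⟨N', hN'⟩
    have hu : (Nat.unpair N').1 ≤ N' := Nat.unpair_left_le N'
    rcases lt_trichotomy N' N with h | h | h
    · -- smaller index
      obtain ⟨n, hn⟩ : ∃ n, N = n + 1 := ⟨N - 1, by omega⟩
      have h1 : N'.factorial ≤ n.factorial := Nat.factorial_le (by omega)
      have h2 : N.factorial = (n + 1) * n.factorial := by rw [hn, Nat.factorial_succ]
      have h3 : 2 ≤ n.factorial := by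
        have := hfac n
        omega
      have h4 : n.factorial + n * 2 ≤ N.factorial := by
        rw [h2]
        nlinarith
      have h5 : ((N'.factorial : ℕ) : ℤ) + ((Nat.unpair N').1 : ℤ) ≤ (n.factorial : ℤ) + n := by
        have : N'.factorial + (Nat.unpair N').1 ≤ n.factorial + n := by omega
        exact_mod_cast this
      have h6 : (n.factorial : ℤ) + n * 2 ≤ (N.factorial : ℤ) := by exact_mod_cast h4
      have h7 : (D : ℤ) < n := by
        have : D < n := by omega
        exact_mod_cast this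
      linarith
    · -- equal index
      rw [h, hN, Nat.unpair_pair] at hN'
      simp only at hN'
      linarith
    · -- larger index
      have h1 : (N + 1).factorial ≤ N'.factorial := Nat.factorial_le (by omega)
      rw [Nat.factorial_succ] at h1
      have h2 := hfac N
      have h3 : N.factorial + N ≤ N'.factorial := by nlinarith
      have h4 : (N.factorial : ℤ) + N ≤ N'.factorial := by exact_mod_cast h3
      have h5 : (D : ℤ) < N := by
        have : D < N := by omega
        exact_mod_cast this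
      have h6 : (0 : ℤ) ≤ ((Nat.unpair N').1 : ℤ) := by positivity
      linarith

lemma β_T_left (M : ℤ) (f g : W) :
    β (T M f) g = ∑ i ∈ f.support, ∑ j ∈ g.support, f i * (g j * c (i + M) j) := by
  unfold β T
  rw [Finsupp.lmapDomain_apply, Finsupp.linearCombination_mapDomain,
    Finsupp.linearCombination_apply, Finsupp.sum, LinearMap.sum_apply]
  refine Finset.sum_congr rfl fun i _ => ?_
  rw [LinearMap.smul_apply, Function.comp_apply, Finsupp.linearCombination_apply, Finsupp.sum,
    smul_eq_mul, Finset.mul_sum]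
  rfl

lemma β_T_right (M : ℤ) (f g : W) :
    β f (T M g) = ∑ i ∈ f.support, ∑ j ∈ g.support, f i * (g j * c i (j + M)) := by
  unfold β T
  rw [Finsupp.linearCombination_apply, Finsupp.sum, LinearMap.sum_apply]
  refine Finset.sum_congr rfl fun i _ => ?_
  rw [LinearMap.smul_apply, Finsupp.lmapDomain_apply, Finsupp.linearCombination_mapDomain,
    Finsupp.linearCombination_apply, Finsupp.sum, smul_eq_mul, Finset.mul_sum]
  rfl

lemma form_ne (w : W) (hw : w ≠ 0) (k : ℤ) (hk : k ≠ 0) :
    ∃ m : ℤ, β (T (m * k) w) w - β w (T (m * k) w) ≠ 0 := by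
  have hne : w.support.Nonempty := Finsupp.support_nonempty_iff.2 hw
  set a := w.support.min' hne with ha
  set b := w.support.max' hne with hb
  have haw : a ∈ w.support := Finset.min'_mem _ _
  have hbw : b ∈ w.support := Finset.max'_mem _ _
  have hab : a ≤ b := Finset.min'_le _ _ hbw
  obtain ⟨D, hD⟩ : ∃ D : ℕ, (D : ℤ) = b - a := ⟨(b - a).toNat, by omega⟩
  obtain ⟨M, hkM, hDM, hMS, hMn⟩ := S_sparse D k.natAbs (by omega)
  obtain ⟨m, hm⟩ : k ∣ M := Int.natAbs_dvd.1 hkM
  refine ⟨m, ?_⟩
  rw [mul_comm m k, ← hm, β_T_left, β_T_right]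
  have hlo : ∀ i ∈ w.support, a ≤ i := fun i hi => Finset.min'_le _ _ hi
  have hhi : ∀ i ∈ w.support, i ≤ b := fun i hi => Finset.le_max' _ _ hi
  have h0 : ∑ i ∈ w.support, ∑ j ∈ w.support, w i * (w j * c i (j + M)) = 0 := by
    refine Finset.sum_eq_zero fun i hi => Finset.sum_eq_zero fun j hj => ?_
    have : c i (j + M) = 0 := by
      unfold c
      rw [if_neg]
      rintro ⟨h1, -⟩
      have := hlo j hj
      have := hhi i hi
      linarith
    rw [this]
    ring
  rw [h0, sub_zero]
  have hz : ∀ i ∈ w.support, ∀ j ∈ w.support, ¬ (i = b ∧ j = a) → c (i + M) j = 0 := by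
    intro i hi j hj hij
    unfold c
    rw [if_neg]
    rintro ⟨-, h2⟩
    have h3 : M + (i - j) ∈ S := by
      have : M + (i - j) = i + M - j := by ring
      rw [this]
      exact h2
    refine hMn (i - j) ?_ ?_ h3
    · have := hlo i hi
      have := hhi j hj
      linarith
    · rcases lt_or_eq_of_le (hhi i hi) with h | h
      · have := hlo j hj
        linarith
      · have h4 : j ≠ a := fun h' => hij ⟨h, h'⟩
        have := lt_of_le_of_ne (hlo j hj) (Ne.symm h4)
        linarith
  rw [Finset.sum_eq_single b, Finset.sum_eq_single a]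
  · have hc : c (b + M) a = (sg a : ZMod 3) := by
      unfold c
      rw [if_pos]
      refine ⟨by linarith, ?_⟩
      have : b + M - a = M + D := by rw [hD]; ring
      rw [this]
      exact hMS
    rw [hc]
    have h1 : w a ≠ 0 := Finsupp.mem_support_iff.1 haw
    have h2 : w b ≠ 0 := Finsupp.mem_support_iff.1 hbw
    have h3 : (sg a : ZMod 3) ≠ 0 := by
      rcases sg_cases a with h | h <;> rw [h] <;> decide
    have : Fact (Nat.Prime 3) := ⟨by norm_num⟩
    exact mul_ne_zero h2 (mul_ne_zero h1 h3)
  · intro j hj hja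
    rw [hz b hbw j hj (fun h => hja h.2)]
    ring
  · intro h
    exact absurd haw h
  · intro i hi hib
    refine Finset.sum_eq_zero fun j hj => ?_
    rw [hz i hi j hj (fun h => hib h.1)]
    ring
  · intro h
    exact absurd hbw h

lemma three_nsmul_W (w : W) : w + w + w = 0 := by
  ext i
  simp only [Finsupp.add_apply, Finsupp.zero_apply]
  generalize w i = x
  revert x
  decide

lemma cube (x : G) (hx : x.k = 0) : x * x * x = ⟨0, 3 * x.n, 0⟩ := by
  apply G.ext
  · simp only [mul_w, mul_k, hx, T_zero, add_zero]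
    exact three_nsmul_W _
  · simp only [mul_n, mul_w, mul_k, hx, T_zero, add_zero, sg_zero, map_add, LinearMap.add_apply]
    have h3 : ∀ v : ZMod 3, ι v + ι v + ι v = 0 := by decide
    have := h3 (β x.w x.w)
    push_cast
    linear_combination this
  · simp [mul_k, hx]

lemma zpow_k (x : G) (m : ℤ) : (x ^ m).k = m * x.k := by
  have h : ∀ n : ℕ, (x ^ n).k = n * x.k := by
    intro n
    induction n with
    | zero => simp [one_k]
    | succ n ih => rw [pow_succ, mul_k, ih]; push_cast; ring
  cases m with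
  | ofNat n => simpa using h n
  | negSucc n =>
    rw [zpow_negSucc, inv_k, h, Int.negSucc_eq]
    push_cast
    ring

lemma no_section (P : Subgroup G) (hP : ∀ x ∈ P, 3 * x.n ≠ 0 → x.w ≠ 0) :
    ¬ ∃ L : Subgroup P, ∃ f : L →* DihedralGroup 9, Function.Surjective f := by
  rintro ⟨L, f, hf⟩
  obtain ⟨a, ha⟩ := hf (DihedralGroup.r 1)
  obtain ⟨b, hb⟩ := hf (DihedralGroup.sr 0)
  set j : L →* G := P.subtype.comp L.subtype with hj
  have hinj : Function.Injective j := by
    rw [hj]
    intro x y hxy
    apply Subtype.ext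
    apply Subtype.ext
    exact hxy
  have hjP : ∀ x : L, j x ∈ P := fun x => (x : P).2
  obtain ⟨y, hy⟩ : ∃ y : L, y = a * b * a⁻¹ * b⁻¹ := ⟨_, rfl⟩
  have hfy : f y = DihedralGroup.r 2 := by
    rw [hy]
    simp only [map_mul, map_inv, ha, hb]
    decide
  have hyk : (j y).k = 0 := by
    rw [hy]
    simp only [map_mul, map_inv, mul_k, inv_k]
    ring
  obtain ⟨z, hz⟩ : ∃ z : L, z = y * y * y := ⟨_, rfl⟩
  have hfz : f z = DihedralGroup.r 6 := by
    rw [hz]
    simp only [map_mul, hfy]
    decide
  have hjz : j z = ⟨0, 3 * (j y).n, 0⟩ := by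
    rw [hz, map_mul, map_mul, cube _ hyk]
  set u : ZMod 9 := 3 * (j y).n with hu
  have hu0 : u ≠ 0 := by
    intro h
    have : z = 1 := by
      apply hinj
      rw [hjz, h, map_one]
      rfl
    rw [this, map_one] at hfz
    exact absurd hfz (by decide)
  have hw : (j y).w ≠ 0 := hP _ (hjP y) hu0
  have hbk : (j b).k ≠ 0 := by
    intro h0
    have hcomm : b * z = z * b := by
      apply hinj
      rw [map_mul, map_mul, hjz]
      apply G.ext
      · simp only [mul_w, map_zero, add_zero, zero_add, T_zero]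
      · simp only [mul_n, map_zero, LinearMap.zero_apply, h0, sg_zero]
        push_cast
        ring
      · simp [mul_k]
    have := congrArg f hcomm
    rw [map_mul, map_mul, hb, hfz] at this
    exact absurd this (by decide)
  obtain ⟨m, hm⟩ := form_ne (j y).w hw (j b).k hbk
  obtain ⟨g, hg⟩ : ∃ g : L, g = b ^ m := ⟨_, rfl⟩
  obtain ⟨y', hy'⟩ : ∃ y' : L, y' = g * y * g⁻¹ := ⟨_, rfl⟩
  have hgk : (j g).k = m * (j b).k := by
    rw [hg, map_zpow, zpow_k]
  have hy'g : y' * g = g * y := by
    rw [hy']
    group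
  have hy'k : (j y').k = 0 := by
    rw [hy', map_mul, map_mul, map_inv, mul_k, mul_k, inv_k, hyk]
    ring
  have hy'w : (j y').w = T (m * (j b).k) (j y).w := by
    have h1 := congrArg (fun x => (j x).w) hy'g
    simp only [map_mul, mul_w, hy'k, T_zero, hgk] at h1
    rw [add_comm] at h1
    exact add_left_cancel h1
  set v : ZMod 3 := β (T (m * (j b).k) (j y).w) (j y).w - β (j y).w (T (m * (j b).k) (j y).w) with hv
  have hcomm : j (y' * y) = j (y * y') * ⟨0, ι v, 0⟩ := by
    rw [map_mul, map_mul]
    apply G.ext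
    · simp only [mul_w, hyk, hy'k, mul_k, T_zero, map_zero, add_zero]
      rw [add_comm]
    · simp only [mul_n, mul_w, hyk, hy'k, mul_k, T_zero, map_zero, add_zero, sg_zero, hy'w, hv,
        map_sub]
      push_cast
      ring
    · simp only [mul_k, hyk, hy'k, add_zero]
  have hcase : ι v = u ∨ ι v = u + u := by
    have hall : ∀ (v : ZMod 3) (n : ZMod 9), v ≠ 0 → 3 * n ≠ 0 →
        ι v = 3 * n ∨ ι v = 3 * n + 3 * n := by decide
    exact hall v (j y).n hm hu0
  have hfin : y' * y = y * y' * z ∨ y' * y = y * y' * (z * z) := by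
    rcases hcase with h | h
    · left
      apply hinj
      rw [hcomm, h, map_mul j (y * y') z, hjz]
    · right
      apply hinj
      rw [hcomm, h, map_mul j (y * y') (z * z), map_mul j z z, hjz]
      congr 1
      apply G.ext
      · simp only [mul_w, map_zero, add_zero]
      · simp only [mul_n, sg_zero, map_zero]
        push_cast
        ring
      · simp only [mul_k, add_zero]
  have hD : ∀ h : DihedralGroup 9,
      (h * DihedralGroup.r 2 * h⁻¹) * DihedralGroup.r 2 ≠
        DihedralGroup.r 2 * (h * DihedralGroup.r 2 * h⁻¹) * DihedralGroup.r 6 ∧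
      (h * DihedralGroup.r 2 * h⁻¹) * DihedralGroup.r 2 ≠
        DihedralGroup.r 2 * (h * DihedralGroup.r 2 * h⁻¹) *
          (DihedralGroup.r 6 * DihedralGroup.r 6) := by
    decide
  have hfy' : f y' = f g * DihedralGroup.r 2 * (f g)⁻¹ := by
    rw [hy', map_mul, map_mul, map_inv, hfy]
  rcases hfin with h | h
  · have h1 := congrArg f h
    rw [map_mul, map_mul, map_mul, hfy', hfy, hfz] at h1
    exact (hD (f g)).1 h1
  · have h1 := congrArg f h
    rw [map_mul, map_mul, map_mul, map_mul, hfy', hfy, hfz] at h1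
    exact (hD (f g)).2 h1

lemma A_cond : ∀ x ∈ A, 3 * x.n ≠ 0 → x.w ≠ 0 := by
  intro x hx h3 hw
  have h1 : π x.n = φ x.w := hx
  rw [hw, map_zero] at h1
  have h2 : ∀ n : ZMod 9, π n = 0 → 3 * n = 0 := by decide
  exact h3 (h2 _ h1)

lemma B_cond : ∀ x ∈ B, 3 * x.n ≠ 0 → x.w ≠ 0 := by
  intro x hx h3
  have h1 : π x.n = 0 := hx
  have h2 : ∀ n : ZMod 9, π n = 0 → 3 * n = 0 := by decide
  exact absurd (h2 _ h1) h3

end

/-- The negation of the preceding statement: For all groups A and B, if some subgroup of A×B maps onto the dihedral group of order 18, then some subgroup of A or some subgroup of B maps onto that dihedral group. -/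
theorem result :
    ¬ (∀ (A B : Type) [Group A] [Group B],
      (∃ H : Subgroup (A × B), ∃ f : H →* DihedralGroup 9, Function.Surjective f) →
      ((∃ H : Subgroup A, ∃ f : H →* DihedralGroup 9, Function.Surjective f) ∨
       (∃ H : Subgroup B, ∃ f : H →* DihedralGroup 9, Function.Surjective f))) := by
  intro h
  rcases h A B ⟨H, ψ, ψ_surj⟩ with h1 | h1
  · exact no_section A A_cond h1
  · exact no_section B B_cond h1

end Pool.Agent.S01918
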