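import Pool.Statements.S01929
import Pool.Agent.Helper58.SL2b

set_option autoImplicit false
open Pool Pool.MP_bfb3ed_al

namespace Pool.Agent.S01929

/-- The universal cover of SL2(R), modelled as continuous lifts to the real line of projective maps of det-1 matrices under composition, admits an injective group homomorphism into the permutation group of the naturals. -/
theorem result :
    ∀ S : Set (ℝ → ℝ),
      S = {f : ℝ → ℝ | Continuous f ∧
        ∃ M : Matrix (Fin 2) (Fin 2) ℝ, M.det = 1 ∧
          ∀ x : ℝ,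
            (M.mulVec ![Real.cos (Real.pi * x), Real.sin (Real.pi * x)]) 0
                * Real.sin (Real.pi * f x)
              - (M.mulVec ![Real.cos (Real.pi * x), Real.sin (Real.pi * x)]) 1
                * Real.cos (Real.pi * f x) = 0} →
      ∃ φ : (ℝ → ℝ) → Equiv.Perm ℕ,
        (∀ f ∈ S, ∀ g ∈ S, φ (f ∘ g) = φ f * φ g) ∧
        (∀ f ∈ S, ∀ g ∈ S, φ f = φ g → f = g) := by
  intro S hS
  classical
  obtain ⟨ρ, hρ⟩ := Pool.Agent.Helper58.SL2.exists_embedding_Gt
  have hex : ∀ f ∈ S, ∃ a : Pool.Agent.Helper58.SL2.Gt, Pool.Agent.Helper58.SL2.Φ a = f := by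
    intro f hf
    rw [hS] at hf
    exact Pool.Agent.Helper58.SL2.exists_of_mem hf.1 hf.2
  refine ⟨fun f => if h : ∃ a : Pool.Agent.Helper58.SL2.Gt, Pool.Agent.Helper58.SL2.Φ a = f then
    ρ h.choose else 1, ?_, ?_⟩
  · intro f hf g hg
    have h1 := hex f hf
    have h2 := hex g hg
    have h3 : Pool.Agent.Helper58.SL2.Φ (h1.choose * h2.choose) = f ∘ g := by
      funext x
      rw [Pool.Agent.Helper58.SL2.Φ_mul, h1.choose_spec, h2.choose_spec]
      rfl
    have h4 : ∃ a : Pool.Agent.Helper58.SL2.Gt, Pool.Agent.Helper58.SL2.Φ a = f ∘ g := ⟨_, h3⟩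
    have h5 : h4.choose = h1.choose * h2.choose :=
      Pool.Agent.Helper58.SL2.Φ_injective (h4.choose_spec.trans h3.symm)
    simp only [dif_pos h1, dif_pos h2, dif_pos h4, h5, map_mul]
  · intro f hf g hg hfg
    have h1 := hex f hf
    have h2 := hex g hg
    simp only [dif_pos h1, dif_pos h2] at hfg
    have h3 := hρ hfg
    rw [← h1.choose_spec, ← h2.choose_spec, h3]

end Pool.Agent.S01929
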