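import Pool.Statements.S01946

set_option autoImplicit false
open Pool Pool.MP_c12e41_al

namespace Pool.Agent.S01946

open Finset

/-- The base of the wreath product: all functions from the integers to the units of the integers. -/
abbrev V := ℤ → ℤˣ

/-- The shift action of the integers on `V`. -/
def shift : Multiplicative ℤ →* MulAut V where
  toFun k :=
    { toFun := fun f i => f (i - Multiplicative.toAdd k)
      invFun := fun f i => f (i + Multiplicative.toAdd k)
      left_inv := fun f => by funext i; simp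
      right_inv := fun f => by funext i; simp
      map_mul' := fun f g => by funext i; simp }
  map_one' := by ext f i; simp
  map_mul' k l := by
    ext f i
    simp only [toAdd_mul, MulEquiv.coe_mk, Equiv.coe_fn_mk, MulAut.mul_apply]
    congr 2
    ring

/-- The unrestricted wreath product of a group of order two by the integers. -/
abbrev G := V ⋊[shift] Multiplicative ℤ

abbrev KV := MonoidAlgebra ℚ V
abbrev KG := MonoidAlgebra ℚ G

/-- The embedding of group algebras induced by `V ≤ G`. -/
noncomputable def ι : KV →ₐ[ℚ] KG :=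
  MonoidAlgebra.mapDomainAlgHom ℚ ℚ (SemidirectProduct.inl : V →* G)

/-- The shift on the group algebra of `V`. -/
noncomputable def σ : KV →ₐ[ℚ] KV :=
  MonoidAlgebra.mapDomainAlgHom ℚ ℚ ((shift (Multiplicative.ofAdd 1)) : V ≃* V).toMonoidHom

/-- The generator of the top group. -/
noncomputable def T : KG := MonoidAlgebra.single (SemidirectProduct.inr (Multiplicative.ofAdd 1)) 1

/-- The involution at position `i`. -/
def s (i : ℤ) : V := Pi.mulSingle i (-1)

noncomputable def e (i : ℤ) : KV := 1 + MonoidAlgebra.single (s i) 1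
noncomputable def f (i : ℤ) : KV := 1 - MonoidAlgebra.single (s i) 1

lemma s_mul_s (i : ℤ) : s i * s i = 1 := by
  unfold s
  rw [← Pi.mulSingle_mul]
  simp

lemma f_mul_e (i : ℤ) : f i * e i = 0 := by
  unfold f e
  have : (MonoidAlgebra.single (s i) (1 : ℚ) : KV) * MonoidAlgebra.single (s i) 1 = 1 := by
    rw [MonoidAlgebra.single_mul_single, s_mul_s, one_mul]; rfl
  linear_combination (-1 : KV) * this

lemma shift_s (i : ℤ) : (shift (Multiplicative.ofAdd 1)) (s i) = s (i + 1) := by
  funext j
  change s i (j - 1) = s (i + 1) j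
  unfold s
  by_cases h : j = i + 1
  · subst h; simp
  · rw [Pi.mulSingle_eq_of_ne h, Pi.mulSingle_eq_of_ne]
    intro h'; apply h; omega

lemma σ_e (i : ℤ) : σ (e i) = e (i + 1) := by
  unfold σ e
  rw [map_add, map_one]
  congr 1
  simp [MonoidAlgebra.mapDomainAlgHom_apply, MonoidAlgebra.mapDomain_single, shift_s]

lemma T_mul (x : KV) : T * ι x = ι (σ x) * T := by
  induction x using MonoidAlgebra.induction_linear with
  | zero => simp
  | add x y hx hy => rw [map_add, map_add, map_add, mul_add, add_mul, hx, hy]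
  | single g c =>
    unfold T ι σ
    simp only [MonoidAlgebra.mapDomainAlgHom_apply, MonoidAlgebra.mapDomain_single,
      MonoidAlgebra.single_mul_single]
    congr 1
    · ext
      · simp
      · simp
    · ring

lemma T_pow_mul (k : ℕ) (x : KV) : T ^ k * ι x = ι (σ^[k] x) * T ^ k := by
  induction k generalizing x with
  | zero => simp
  | succ k ih =>
    rw [pow_succ, mul_assoc, T_mul, ← mul_assoc, ih, Function.iterate_succ_apply, mul_assoc]

lemma σ_iter_e (k : ℕ) (i : ℤ) : σ^[k] (e i) = e (i + k) := by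
  induction k generalizing i with
  | zero => simp
  | succ k ih =>
    rw [Function.iterate_succ_apply, σ_e, ih]
    congr 1
    push_cast; ring

lemma σ_iter_prod (k : ℕ) {α : Type} (t : Finset α) (h : α → KV) :
    σ^[k] (∏ i ∈ t, h i) = ∏ i ∈ t, σ^[k] (h i) := by
  induction k generalizing h with
  | zero => simp
  | succ k ih =>
    rw [Function.iterate_succ_apply, map_prod, ih]
    rfl

/-- The product of the elements `e (-i)` for `i < N`. -/
noncomputable def Q (N : ℕ) : KV := ∏ i ∈ range N, e (-(i : ℤ))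

noncomputable def α : KG := (1 - T) * ι (e 0)

lemma e_dvd (k N : ℕ) (h : k < N) : ∃ y : KV, σ^[k] (Q N) = e 0 * y := by
  unfold Q
  rw [σ_iter_prod]
  refine ⟨∏ i ∈ (range N).erase k, σ^[k] (e (-(i : ℤ))), ?_⟩
  rw [← Finset.mul_prod_erase _ _ (mem_range.mpr h), σ_iter_e]
  simp

lemma ann_step (x : KG) (hx : x * α = 0) (k N : ℕ) (h : k < N) :
    x * T ^ (k + 1) * ι (Q N) = x * T ^ k * ι (Q N) := by
  obtain ⟨y, hy⟩ := e_dvd k N h
  have h1 : x * (1 - T) * (T ^ k * ι (Q N)) = 0 := by
    rw [T_pow_mul, hy, map_mul]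
    have : x * (1 - T) * (ι (e 0) * ι y * T ^ k) = (x * ((1 - T) * ι (e 0))) * (ι y * T ^ k) := by
      simp only [mul_assoc]
    rw [this]
    change (x * α) * _ = 0
    rw [hx, zero_mul]
  have h2 : x * (1 - T) * (T ^ k * ι (Q N)) = x * T ^ k * ι (Q N) - x * T ^ (k + 1) * ι (Q N) := by
    rw [pow_succ']
    noncomm_ring
  rw [h2] at h1
  exact (sub_eq_zero.mp h1).symm

lemma ann_pow (x : KG) (hx : x * α = 0) (N : ℕ) :
    x * T ^ N * ι (Q N) = x * ι (Q N) := by
  have : ∀ k ≤ N, x * T ^ k * ι (Q N) = x * ι (Q N) := by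
    intro k
    induction k with
    | zero => intro _; simp
    | succ k ih => intro hk; rw [ann_step x hx k N hk, ih (by omega)]
  exact this N le_rfl

/-- The exponent of the top component. -/
def deg (g : G) : ℤ := Multiplicative.toAdd g.right

lemma deg_mul (g h : G) : deg (g * h) = deg g + deg h := by
  simp [deg]

lemma supp_ι (y : KV) (g : G) (hg : g ∈ (ι y).coeff.support) : deg g = 0 := by
  classical
  unfold ι at hg
  rw [MonoidAlgebra.mapDomainAlgHom_apply] at hg
  have := Finsupp.mapDomain_support hg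
  rw [Finset.mem_image] at this
  obtain ⟨a, _, rfl⟩ := this
  simp [deg]

lemma supp_T (N : ℕ) (g : G) (hg : g ∈ (T ^ N).coeff.support) : deg g = N := by
  classical
  unfold T at hg
  rw [MonoidAlgebra.single_pow] at hg
  have := Finsupp.support_single_subset hg
  rw [Finset.mem_singleton] at this
  have h2 : (SemidirectProduct.inr (Multiplicative.ofAdd (1 : ℤ)) : G) ^ N
      = SemidirectProduct.inr ((Multiplicative.ofAdd (1 : ℤ)) ^ N) := (map_pow _ _ _).symm
  rw [this, h2]
  unfold deg
  rw [SemidirectProduct.right_inr]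
  simp

lemma ann_kill (x : KG) (hx : x * α = 0) : ∃ M : ℕ, ∀ N, M ≤ N → x * ι (Q N) = 0 := by
  classical
  refine ⟨2 * (x.coeff.support.sup fun g => (deg g).natAbs) + 1, fun N hN => ?_⟩
  have hb : ∀ g ∈ x.coeff.support, (deg g).natAbs ≤ x.coeff.support.sup fun g => (deg g).natAbs :=
    fun g hg => Finset.le_sup (f := fun g => (deg g).natAbs) hg
  set r := x.coeff.support.sup fun g => (deg g).natAbs with hr
  have key := ann_pow x hx N
  by_contra hne
  have hne' : (x * ι (Q N)).coeff ≠ 0 := fun h => hne (MonoidAlgebra.coeff_eq_zero.mp h)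
  obtain ⟨g, hg⟩ := Finsupp.support_nonempty_iff.mpr hne'
  have h1 := MonoidAlgebra.support_coeff_mul_subset _ _ hg
  rw [Finset.mem_mul] at h1
  obtain ⟨g1, hg1, g2, hg2, hg12⟩ := h1
  have d1 : deg g = deg g1 := by rw [← hg12, deg_mul, supp_ι _ _ hg2, add_zero]
  rw [← key] at hg
  have h2 := MonoidAlgebra.support_coeff_mul_subset _ _ hg
  rw [Finset.mem_mul] at h2
  obtain ⟨g3, hg3, g4, hg4, hg34⟩ := h2
  have h3 := MonoidAlgebra.support_coeff_mul_subset _ _ hg3
  rw [Finset.mem_mul] at h3
  obtain ⟨g5, hg5, g6, hg6, hg56⟩ := h3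
  have d2 : deg g = deg g5 + N := by
    rw [← hg34, deg_mul, supp_ι _ _ hg4, add_zero, ← hg56, deg_mul, supp_T _ _ hg6]
  have b1 := hb g1 hg1
  have b2 := hb g5 hg5
  omega

/-- The elements of the annihilator showing that it is not finitely generated. -/
noncomputable def A (N : ℕ) : KV := f 0 * (∏ i ∈ range N, e (i + 1)) * f (N + 1)

noncomputable def γ (N : ℕ) : KG := ι (A N) * ∑ k ∈ range (N + 1), T ^ k

lemma γ_mul_α (N : ℕ) : γ N * α = 0 := by
  unfold γ α
  have h1 : ι (A N) * (∑ k ∈ range (N + 1), T ^ k) * ((1 - T) * ι (e 0)) =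
      ι (A N) * ((∑ k ∈ range (N + 1), T ^ k) * (1 - T)) * ι (e 0) := by
    simp only [mul_assoc]
  rw [h1, geom_sum_mul_neg, mul_sub, sub_mul, mul_one, mul_assoc (ι (A N)) (T ^ (N + 1)), T_pow_mul,
    σ_iter_e, ← map_mul, ← mul_assoc, ← map_mul]
  have h2 : A N * e 0 = 0 := by
    unfold A
    rw [mul_comm (f 0 * _), mul_comm (f 0)]
    have := f_mul_e 0
    linear_combination ((f (N + 1)) * (∏ i ∈ range N, e (i + 1))) * this
  have h3 : A N * e (0 + ((N + 1 : ℕ) : ℤ)) = 0 := by
    unfold A
    have h4 : (0 + ((N + 1 : ℕ) : ℤ)) = (N : ℤ) + 1 := by push_cast; ring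
    rw [h4, mul_assoc, f_mul_e, mul_zero]
  rw [h2, h3]
  simp

/-- The sign character of `V` used at position `j`. -/
def chi (N : ℕ) (j : ℤ) : V →* ℚ where
  toFun v := (((v j * v (j + N + 1) : ℤˣ) : ℤ) : ℚ)
  map_one' := by simp
  map_mul' v w := by
    simp only [Pi.mul_apply, Units.val_mul, Int.cast_mul]
    ring

/-- The representation of `G` on functions induced from the character. -/
def rho (N : ℕ) : G →* Module.End ℚ (ℤ → ℚ) where
  toFun g :=
    { toFun := fun φ j => chi N j g.left * φ (j - deg g)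
      map_add' := fun φ ψ => by funext j; simp only [Pi.add_apply]; ring
      map_smul' := fun c φ => by
        funext j; simp only [Pi.smul_apply, smul_eq_mul, RingHom.id_apply]; ring }
  map_one' := by
    ext φ j
    simp [deg]
  map_mul' g h := by
    apply LinearMap.ext
    intro φ
    funext j
    change chi N j (g * h).left * φ (j - deg (g * h)) =
      chi N j g.left * (chi N (j - deg g) h.left * φ (j - deg g - deg h))
    rw [deg_mul, SemidirectProduct.mul_left, map_mul]
    have h1 : chi N j ((shift g.right) h.left) = chi N (j - deg g) h.left := by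
      change (((h.left (j - deg g) * h.left (j + N + 1 - deg g) : ℤˣ) : ℤ) : ℚ) =
        (((h.left (j - deg g) * h.left (j - deg g + N + 1) : ℤˣ) : ℤ) : ℚ)
      have : j + N + 1 - deg g = j - deg g + N + 1 := by ring
      rw [this]
    have h2 : j - (deg g + deg h) = j - deg g - deg h := by ring
    rw [h1, h2]
    ring

noncomputable def Rho (N : ℕ) : KG →ₐ[ℚ] Module.End ℚ (ℤ → ℚ) :=
  MonoidAlgebra.lift ℚ (Module.End ℚ (ℤ → ℚ)) G (rho N)

noncomputable def Chi (N : ℕ) (j : ℤ) : KV →ₐ[ℚ] ℚ :=
  MonoidAlgebra.lift ℚ ℚ V (chi N j)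

lemma Rho_ι (N : ℕ) (x : KV) (φ : ℤ → ℚ) (j : ℤ) : Rho N (ι x) φ j = Chi N j x * φ j := by
  induction x using MonoidAlgebra.induction_linear with
  | zero => simp
  | add x y hx hy =>
    rw [map_add, map_add, map_add, LinearMap.add_apply, Pi.add_apply, hx, hy, add_mul]
  | single g c =>
    unfold Rho ι Chi
    rw [MonoidAlgebra.mapDomainAlgHom_apply, MonoidAlgebra.mapDomain_single,
      MonoidAlgebra.lift_single, MonoidAlgebra.lift_single, LinearMap.smul_apply, Pi.smul_apply,
      smul_eq_mul, smul_eq_mul]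
    change c * (chi N j g * φ (j - 0)) = _
    rw [sub_zero, mul_assoc]

lemma Rho_T (N : ℕ) (φ : ℤ → ℚ) (j : ℤ) : Rho N T φ j = φ (j - 1) := by
  unfold Rho T
  rw [MonoidAlgebra.lift_single, one_smul]
  change chi N j 1 * φ (j - 1) = _
  rw [map_one, one_mul]

lemma Rho_T_pow (N k : ℕ) (φ : ℤ → ℚ) (j : ℤ) : Rho N (T ^ k) φ j = φ (j - k) := by
  induction k generalizing j with
  | zero => simp
  | succ k ih =>
    rw [pow_succ', map_mul, Module.End.mul_apply, Rho_T, ih]
    congr 1
    push_cast; ring

lemma chi_s (N : ℕ) (j i : ℤ) :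
    chi N j (s i) = (if i = j then -1 else 1) * (if i = j + N + 1 then -1 else 1) := by
  change ((((s i) j * (s i) (j + N + 1) : ℤˣ) : ℤ) : ℚ) = _
  rw [Units.val_mul, Int.cast_mul]
  have : ∀ m : ℤ, ((((s i) m : ℤˣ) : ℤ) : ℚ) = if i = m then -1 else 1 := by
    intro m
    unfold s
    by_cases h : i = m
    · subst h; simp
    · rw [Pi.mulSingle_eq_of_ne (fun h' => h h'.symm), if_neg h]; simp
  rw [this, this]

lemma Chi_e (N : ℕ) (j i : ℤ) (h1 : i ≠ j) (h2 : i ≠ j + N + 1) : Chi N j (e i) = 2 := by
  unfold Chi e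
  rw [map_add, map_one, MonoidAlgebra.lift_single, chi_s, if_neg h1, if_neg h2]
  norm_num

lemma Chi_f (N : ℕ) (j i : ℤ) (h : i = j ∨ i = j + N + 1) : Chi N j (f i) = 2 := by
  unfold Chi f
  rw [map_sub, map_one, MonoidAlgebra.lift_single, chi_s]
  rcases h with h | h
  · subst h
    rw [if_pos rfl, if_neg (by omega)]
    norm_num
  · subst h
    rw [if_neg (by omega), if_pos rfl]
    norm_num

lemma γ_mul_Q_ne (N : ℕ) : γ N * ι (Q N) ≠ 0 := by
  intro h
  have h1 : Rho N (γ N * ι (Q N)) (Pi.single (-(N : ℤ)) 1) 0 = 0 := by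
    rw [h, map_zero]; rfl
  unfold γ at h1
  rw [mul_assoc, map_mul, Module.End.mul_apply, Rho_ι, map_mul, Module.End.mul_apply, map_sum,
    LinearMap.sum_apply, Finset.sum_apply] at h1
  have h2 : ∀ k ∈ range (N + 1), Rho N (T ^ k) (Rho N (ι (Q N)) (Pi.single (-(N : ℤ)) 1)) 0 =
      if k = N then (2 : ℚ) ^ N else 0 := by
    intro k hk
    rw [Rho_T_pow, Rho_ι]
    by_cases hkN : k = N
    · subst hkN
      rw [if_pos rfl, zero_sub, Pi.single_eq_same, mul_one]
      unfold Q
      rw [map_prod]
      rw [Finset.prod_congr rfl (g := fun _ => (2 : ℚ))]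
      · simp
      · intro i hi
        rw [mem_range] at hi
        apply Chi_e
        · omega
        · omega
    · rw [if_neg hkN, Pi.single_eq_of_ne, mul_zero]
      omega
  rw [Finset.sum_congr rfl h2, Finset.sum_ite_eq' (range (N + 1)) N, if_pos (by simp)] at h1
  have h3 : Chi N 0 (A N) = 2 * 2 ^ N * 2 := by
    unfold A
    rw [map_mul, map_mul, map_prod, Chi_f N 0 0 (Or.inl rfl), Chi_f N 0 (N + 1) (Or.inr (by ring))]
    rw [Finset.prod_congr rfl (g := fun _ => (2 : ℚ))]
    · simp
    · intro i hi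
      rw [mem_range] at hi
      apply Chi_e
      · omega
      · omega
  rw [h3] at h1
  have : (2 : ℚ) * 2 ^ N * 2 * 2 ^ N ≠ 0 := by positivity
  exact this h1

/-- The negation of the preceding statement: For every field K, every group G and every element a of the group algebra K[G], the set of x with x·a = 0 equals the left ideal generated by some finite set of elements of K[G]. -/
theorem result :
    ¬ (∀ (K : Type) [Field K] (G : Type) [Group G] (a : MonoidAlgebra K G),
      ∃ s : Finset (MonoidAlgebra K G),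
        ((Submodule.span (MonoidAlgebra K G) (s : Set (MonoidAlgebra K G)) :
            Set (MonoidAlgebra K G)) = {x : MonoidAlgebra K G | x * a = 0})) := by
  intro hall
  obtain ⟨t, ht⟩ := hall ℚ G α
  have hmem : ∀ x : KG, x ∈ Submodule.span KG (t : Set KG) ↔ x * α = 0 := by
    intro x
    have := Set.ext_iff.mp ht x
    exact this
  have hex : ∀ x ∈ t, ∃ M : ℕ, ∀ N, M ≤ N → x * ι (Q N) = 0 := fun x hx =>
    ann_kill x ((hmem x).mp (Submodule.subset_span hx))
  choose! M hM using hex
  set N := t.sup M with hN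
  have hall' : ∀ x ∈ Submodule.span KG (t : Set KG), x * ι (Q N) = 0 := by
    intro x hx
    induction hx using Submodule.span_induction with
    | mem x hx => exact hM x hx N (Finset.le_sup (f := M) hx)
    | zero => simp
    | add x y _ _ hx hy => rw [add_mul, hx, hy, add_zero]
    | smul a x _ hx => rw [smul_eq_mul, mul_assoc, hx, mul_zero]
  exact γ_mul_Q_ne N (hall' _ ((hmem _).mpr (γ_mul_α N)))

end Pool.Agent.S01946
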