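import Pool.Statements.S01968
import Mathlib

set_option autoImplicit false
open Pool Pool.MP_c3451b_al

namespace Pool.Agent.S01968

/-- infinite binary sequences -/
abbrev X := ℕ → Bool

/-- prepend a letter -/
def cns (e : Bool) (x : X) : X
  | 0 => e
  | n + 1 => x n

@[simp] theorem cns_zero (e : Bool) (x : X) : cns e x 0 = e := rfl
@[simp] theorem cns_succ (e : Bool) (x : X) (n : ℕ) : cns e x (n + 1) = x n := rfl

theorem cns_inj {e e' : Bool} {x y : X} : cns e x = cns e' y ↔ e = e' ∧ x = y := by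
  constructor
  · intro h
    exact ⟨congrFun h 0, funext fun n => congrFun h (n + 1)⟩
  · rintro ⟨rfl, rfl⟩; rfl

theorem exists_cns (x : X) : ∃ e y, x = cns e y :=
  ⟨x 0, fun n => x (n + 1), by funext n; cases n <;> rfl⟩

theorem perm_ext {g h : Equiv.Perm X} (H : ∀ e x, g (cns e x) = h (cns e x)) : g = h := by
  ext1 x
  obtain ⟨e, y, rfl⟩ := exists_cns x
  exact H e y

/-- the action below the vertex `e` -/
def LF (e : Bool) (g : X → X) (x : X) : X := if x 0 = e then cns e (g fun n => x (n + 1)) else x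

theorem LF_same (e : Bool) (g : X → X) (x : X) : LF e g (cns e x) = cns e (g x) := by
  unfold LF
  rw [if_pos (cns_zero e x)]
  rfl

theorem LF_diff {e e' : Bool} (h : e' ≠ e) (g : X → X) (x : X) : LF e g (cns e' x) = cns e' x := by
  unfold LF
  rw [if_neg (by rw [cns_zero]; exact h)]

/-- the embedding of the group of permutations below the vertex `e` -/
def L (e : Bool) : Equiv.Perm X →* Equiv.Perm X where
  toFun g := ⟨LF e g, LF e g.symm, fun x => by
    obtain ⟨e', y, rfl⟩ := exists_cns x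
    by_cases h : e' = e
    · subst h; rw [LF_same, LF_same, Equiv.symm_apply_apply]
    · rw [LF_diff h, LF_diff h], fun x => by
    obtain ⟨e', y, rfl⟩ := exists_cns x
    by_cases h : e' = e
    · subst h; rw [LF_same, LF_same, Equiv.apply_symm_apply]
    · rw [LF_diff h, LF_diff h]⟩
  map_one' := by
    apply perm_ext
    intro e' x
    by_cases h : e' = e
    · subst h; exact LF_same _ _ _
    · exact LF_diff h _ _
  map_mul' g k := by
    apply perm_ext
    intro e' x
    rw [Equiv.Perm.mul_apply]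
    change LF e (⇑(g * k)) (cns e' x) = LF e g (LF e k (cns e' x))
    by_cases h : e' = e
    · subst h; rw [LF_same, LF_same, LF_same]; rfl
    · rw [LF_diff h, LF_diff h, LF_diff h]

@[simp] theorem L_ff (g : Equiv.Perm X) (x : X) : L false g (cns false x) = cns false (g x) :=
  LF_same false g x
@[simp] theorem L_ft (g : Equiv.Perm X) (x : X) : L false g (cns true x) = cns true x :=
  LF_diff (e := false) (e' := true) (by decide) g x
@[simp] theorem L_tt (g : Equiv.Perm X) (x : X) : L true g (cns true x) = cns true (g x) :=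
  LF_same true g x
@[simp] theorem L_tf (g : Equiv.Perm X) (x : X) : L true g (cns false x) = cns false x :=
  LF_diff (e := true) (e' := false) (by decide) g x

theorem L_comm (g h : Equiv.Perm X) : L false g * L true h = L true h * L false g := by
  apply perm_ext
  intro e x
  cases e <;> simp [Equiv.Perm.mul_apply]

theorem L_inj (e : Bool) {g h : Equiv.Perm X} (H : L e g = L e h) : g = h := by
  ext1 x
  have := congrArg (fun p : Equiv.Perm X => p (cns e x)) H
  cases e <;> simpa [cns_inj] using this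

/-! ### the generators -/

/-- the generator `a` -/
def aF (x : X) (j : ℕ) : Bool := if j = 0 then !x j else x j

theorem aF_cns (e : Bool) (x : X) : aF (cns e x) = cns (!e) x := by
  funext j; cases j <;> simp [aF]

theorem aF_inv : Function.Involutive aF := by
  intro x
  obtain ⟨e, y, rfl⟩ := exists_cns x
  rw [aF_cns, aF_cns, Bool.not_not]

/-- the generator `a` -/
def a : Equiv.Perm X := aF_inv.toPerm aF

@[simp] theorem a_cns (e : Bool) (x : X) : a (cns e x) = cns (!e) x := aF_cns e x

open Classical in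
/-- the generators `b, c, d` -/
noncomputable def gF (r : ℕ) (x : X) (j : ℕ) : Bool :=
  if (∃ k, j = k + 1 ∧ x k = false ∧ (∀ i < k, x i = true) ∧ (k + r) % 3 ≠ 2) then !x j else x j

theorem gF_true (r : ℕ) (x : X) : gF r (cns true x) = cns true (gF (r + 1) x) := by
  classical
  funext j
  rcases j with _ | j
  · simp [gF]
  · unfold gF
    simp only [cns_succ]
    have : (∃ k, j + 1 = k + 1 ∧ cns true x k = false ∧ (∀ i < k, cns true x i = true) ∧
        (k + r) % 3 ≠ 2) ↔ (∃ k, j = k + 1 ∧ x k = false ∧ (∀ i < k, x i = true) ∧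
        (k + (r + 1)) % 3 ≠ 2) := by
      constructor
      · rintro ⟨k, hk, h1, h2, h3⟩
        rcases k with _ | k
        · simp at h1
        · refine ⟨k, by omega, h1, fun i hi => h2 (i + 1) (by omega), by
            rw [show k + (r + 1) = k + 1 + r by ring]; exact h3⟩
      · rintro ⟨k, hk, h1, h2, h3⟩
        refine ⟨k + 1, by omega, h1, ?_, by rw [show k + 1 + r = k + (r + 1) by ring]; exact h3⟩
        intro i hi
        rcases i with _ | i
        · rfl
        · exact h2 i (by omega)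
    exact if_congr this rfl rfl

theorem gF_false (r : ℕ) (x : X) : gF r (cns false x) = cns false (if r % 3 ≠ 2 then aF x else x) := by
  classical
  funext j
  rcases j with _ | j
  · simp [gF]
  · unfold gF
    simp only [cns_succ]
    have : (∃ k, j + 1 = k + 1 ∧ cns false x k = false ∧ (∀ i < k, cns false x i = true) ∧
        (k + r) % 3 ≠ 2) ↔ (j = 0 ∧ r % 3 ≠ 2) := by
      constructor
      · rintro ⟨k, hk, h1, h2, h3⟩
        rcases k with _ | k
        · exact ⟨by omega, by simpa using h3⟩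
        · have := h2 0 (by omega)
          simp at this
      · rintro ⟨rfl, h⟩
        exact ⟨0, rfl, rfl, by simp, by simpa using h⟩
    refine (if_congr this rfl rfl).trans ?_
    by_cases hr : r % 3 ≠ 2
    · rw [if_pos hr]
      unfold aF
      simp [hr]
    · rw [if_neg hr]
      simp [hr]

theorem gF_inv (r : ℕ) : Function.Involutive (gF r) := by
  have key : ∀ j : ℕ, ∀ r : ℕ, ∀ x : X, gF r (gF r x) j = x j := by
    intro j
    induction j with
    | zero =>
      intro r x
      obtain ⟨e, y, rfl⟩ := exists_cns x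
      cases e
      · rw [gF_false, gF_false]; rfl
      · rw [gF_true, gF_true]; rfl
    | succ j ih =>
      intro r x
      obtain ⟨e, y, rfl⟩ := exists_cns x
      cases e
      · rw [gF_false, gF_false]
        split_ifs with h
        · rw [aF_inv]
        · rfl
      · rw [gF_true, gF_true]
        exact ih (r + 1) y
  intro x
  funext j
  exact key j r x

/-- the generators `b, c, d` -/
noncomputable def gp (r : ℕ) : Equiv.Perm X := (gF_inv r).toPerm (gF r)

noncomputable def b : Equiv.Perm X := gp 0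
noncomputable def c : Equiv.Perm X := gp 1
noncomputable def d : Equiv.Perm X := gp 2

theorem gp_three (r : ℕ) : gp (r + 3) = gp r := by
  classical
  ext1 x
  change gF (r + 3) x = gF r x
  funext j
  unfold gF
  have : ∀ k, (k + (r + 3)) % 3 = (k + r) % 3 := fun k => by omega
  refine if_congr ?_ rfl rfl
  constructor
  · rintro ⟨k, h1, h2, h3, h4⟩
    exact ⟨k, h1, h2, h3, by rw [← this k]; exact h4⟩
  · rintro ⟨k, h1, h2, h3, h4⟩
    exact ⟨k, h1, h2, h3, by rw [this k]; exact h4⟩

@[simp] theorem b_f (x : X) : b (cns false x) = cns false (a x) := by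
  change gF 0 _ = _
  rw [gF_false]; rfl
@[simp] theorem b_t (x : X) : b (cns true x) = cns true (c x) := by
  change gF 0 _ = _
  rw [gF_true]; rfl
@[simp] theorem c_f (x : X) : c (cns false x) = cns false (a x) := by
  change gF 1 _ = _
  rw [gF_false]; rfl
@[simp] theorem c_t (x : X) : c (cns true x) = cns true (d x) := by
  change gF 1 _ = _
  rw [gF_true]; rfl
@[simp] theorem d_f (x : X) : d (cns false x) = cns false x := by
  change gF 2 _ = _
  rw [gF_false]; rfl
@[simp] theorem d_t (x : X) : d (cns true x) = cns true (b x) := by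
  change gF 2 _ = _
  rw [gF_true]
  have := congrArg (fun p : Equiv.Perm X => p x) (gp_three 0)
  exact congrArg (cns true) this

theorem a_a : a * a = 1 := by
  ext1 x; exact aF_inv x
theorem b_b : b * b = 1 := by
  ext1 x; exact gF_inv 0 x
theorem c_c : c * c = 1 := by
  ext1 x; exact gF_inv 1 x
theorem d_d : d * d = 1 := by
  ext1 x; exact gF_inv 2 x

theorem b_eq : b = L false a * L true c := by
  apply perm_ext
  intro e x
  cases e <;> simp [Equiv.Perm.mul_apply]
theorem c_eq : c = L false a * L true d := by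
  apply perm_ext
  intro e x
  cases e <;> simp [Equiv.Perm.mul_apply]
theorem d_eq : d = L true b := by
  apply perm_ext
  intro e x
  cases e <;> simp

theorem bcd : b * c = d ∧ c * d = b ∧ d * b = c := by
  have key : ∀ j : ℕ, ∀ x : X, b (c x) j = d x j ∧ c (d x) j = b x j ∧ d (b x) j = c x j := by
    intro j
    induction j with
    | zero =>
      intro x
      obtain ⟨e, y, rfl⟩ := exists_cns x
      cases e <;> simp
    | succ j ih =>
      intro x
      obtain ⟨e, y, rfl⟩ := exists_cns x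
      have ha : a (a y) = y := aF_inv y
      cases e
      · simp [ha]
      · obtain ⟨h1, h2, h3⟩ := ih y
        simp [h1, h2, h3]
  refine ⟨?_, ?_, ?_⟩ <;> (ext1 x; funext j)
  · exact (key j x).1
  · exact (key j x).2.1
  · exact (key j x).2.2

theorem cb : c * b = d := by
  have h := bcd.1
  have h2 : (b * c)⁻¹ = d⁻¹ := by rw [h]
  rw [mul_inv_rev, inv_eq_of_mul_eq_one_left b_b, inv_eq_of_mul_eq_one_left c_c,
    inv_eq_of_mul_eq_one_left d_d] at h2
  exact h2

theorem aLa (g : Equiv.Perm X) : a * L false g * a = L true g := by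
  apply perm_ext
  intro e x
  cases e <;> simp [Equiv.Perm.mul_apply]
theorem aLa' (g : Equiv.Perm X) : a * L true g * a = L false g := by
  apply perm_ext
  intro e x
  cases e <;> simp [Equiv.Perm.mul_apply]

/-- the group -/
noncomputable def G : Subgroup (Equiv.Perm X) := Subgroup.closure {a, b, c, d}

theorem a_mem : a ∈ G := Subgroup.subset_closure (by simp)
theorem b_mem : b ∈ G := Subgroup.subset_closure (by simp)
theorem c_mem : c ∈ G := Subgroup.subset_closure (by simp)
theorem d_mem : d ∈ G := Subgroup.subset_closure (by simp)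

/-! ### word calculus -/

theorem bd : b * d = c := by
  obtain ⟨h1, h2, h3⟩ := bcd
  rw [← h1, ← mul_assoc, b_b, one_mul]
theorem dc : d * c = b := by
  obtain ⟨h1, h2, h3⟩ := bcd
  rw [← h1, mul_assoc, c_c, mul_one]

theorem aa' (g : Equiv.Perm X) : a * (a * g) = g := by rw [← mul_assoc, a_a, one_mul]
theorem bb' (g : Equiv.Perm X) : b * (b * g) = g := by rw [← mul_assoc, b_b, one_mul]
theorem cc' (g : Equiv.Perm X) : c * (c * g) = g := by rw [← mul_assoc, c_c, one_mul]
theorem dd' (g : Equiv.Perm X) : d * (d * g) = g := by rw [← mul_assoc, d_d, one_mul]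
theorem bc' (g : Equiv.Perm X) : b * (c * g) = d * g := by rw [← mul_assoc, bcd.1]
theorem cb' (g : Equiv.Perm X) : c * (b * g) = d * g := by rw [← mul_assoc, cb]
theorem cd' (g : Equiv.Perm X) : c * (d * g) = b * g := by rw [← mul_assoc, bcd.2.1]
theorem dc' (g : Equiv.Perm X) : d * (c * g) = b * g := by rw [← mul_assoc, dc]
theorem bd' (g : Equiv.Perm X) : b * (d * g) = c * g := by rw [← mul_assoc, bd]
theorem db' (g : Equiv.Perm X) : d * (b * g) = c * g := by rw [← mul_assoc, bcd.2.2]

theorem a_inv : a⁻¹ = a := inv_eq_of_mul_eq_one_left a_a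
theorem b_inv : b⁻¹ = b := inv_eq_of_mul_eq_one_left b_b
theorem c_inv : c⁻¹ = c := inv_eq_of_mul_eq_one_left c_c
theorem d_inv : d⁻¹ = d := inv_eq_of_mul_eq_one_left d_d

/-- the pair `(g, h)` acting on the two halves -/
def pr (g h : Equiv.Perm X) : Equiv.Perm X := L false g * L true h

theorem pr_mul (g h g' h' : Equiv.Perm X) : pr g h * pr g' h' = pr (g * g') (h * h') := by
  unfold pr
  rw [map_mul, map_mul, mul_assoc, ← mul_assoc (L true h), ← L_comm g' h]
  simp only [mul_assoc]

theorem pr_inv (g h : Equiv.Perm X) : (pr g h)⁻¹ = pr g⁻¹ h⁻¹ := by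
  unfold pr
  rw [mul_inv_rev, map_inv, map_inv, ← map_inv, ← map_inv, L_comm]

theorem apra (g h : Equiv.Perm X) : a * (pr g h * a) = pr h g := by
  unfold pr
  have : a * (L false g * L true h * a) = (a * L false g * a) * (a * L true h * a) := by
    simp only [mul_assoc, aa']
  rw [this, aLa, aLa', L_comm]

theorem L_false_eq (g : Equiv.Perm X) : L false g = pr g 1 := by
  unfold pr; rw [map_one, mul_one]
theorem L_true_eq (g : Equiv.Perm X) : L true g = pr 1 g := by
  unfold pr; rw [map_one, one_mul]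
theorem b_pr : b = pr a c := b_eq
theorem c_pr : c = pr a d := c_eq
theorem d_pr : d = pr 1 b := by rw [← L_true_eq]; exact d_eq

/-- the generators of the branching subgroup -/
noncomputable def t : Equiv.Perm X := a * (b * (a * b))
noncomputable def v : Equiv.Perm X := pr t 1
noncomputable def w : Equiv.Perm X := pr 1 t

theorem t_inv : t⁻¹ = b * (a * (b * a)) := by
  unfold t
  simp only [mul_inv_rev, a_inv, b_inv, mul_assoc]

theorem t_pr : t = pr (c * a) (a * c) := by
  unfold t
  have : a * (b * (a * b)) = (a * (b * a)) * b := by simp only [mul_assoc]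
  rw [this]
  nth_rewrite 1 [b_pr]
  rw [apra]
  nth_rewrite 1 [b_pr]
  rw [pr_mul]

theorem v_inv : v⁻¹ = pr t⁻¹ 1 := by unfold v; rw [pr_inv, inv_one]
theorem w_inv : w⁻¹ = pr 1 t⁻¹ := by unfold w; rw [pr_inv, inv_one]

theorem ata : a * t * a = t⁻¹ := by
  rw [t_inv]; unfold t
  simp only [mul_assoc, aa']
theorem ava : a * v * a = w := by
  unfold v w; rw [mul_assoc, apra]
theorem awa : a * w * a = v := by
  unfold v w; rw [mul_assoc, apra]
theorem btb : b * t * b = t⁻¹ := by
  rw [t_inv]; unfold t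
  simp only [mul_assoc, b_b, mul_one]
theorem bvb : b * v * b = v⁻¹ := by
  rw [v_inv, b_pr]; unfold v
  rw [pr_mul, pr_mul, mul_one, c_c, ata]
theorem ctc_word : c * t * c = (a * c)⁻¹ * t⁻¹ * (a * c) := by
  rw [t_inv]; unfold t
  simp only [mul_inv_rev, a_inv, c_inv, mul_assoc, aa', bcd.1]
theorem dtd_word : d * t * d = (a * c)⁻¹ * t * (a * c) := by
  unfold t
  simp only [mul_inv_rev, a_inv, c_inv, mul_assoc, aa', cb', bd]
theorem conj_w (g : Equiv.Perm X) : t⁻¹ * pr 1 g * t = pr 1 ((a * c)⁻¹ * g * (a * c)) := by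
  have e : t⁻¹ = pr (c * a)⁻¹ (a * c)⁻¹ := by rw [← pr_inv, ← t_pr]
  rw [e]
  have e2 : pr (c * a)⁻¹ (a * c)⁻¹ * pr 1 g * t =
      pr (c * a)⁻¹ (a * c)⁻¹ * pr 1 g * pr (c * a) (a * c) := by rw [← t_pr]
  rw [e2, pr_mul, pr_mul, mul_one, inv_mul_cancel]
theorem bwb : b * w * b = t⁻¹ * w⁻¹ * t := by
  rw [w_inv, conj_w, ← ctc_word, b_pr]
  unfold w
  rw [pr_mul, pr_mul, mul_one, a_a]
theorem ctc : c * t * c = t⁻¹ * w := by
  have e1 : c * t * c = pr (a * (c * a) * a) (d * (a * c) * d) := by
    have : pr (a * (c * a) * a) (d * (a * c) * d) = pr a d * pr (c * a) (a * c) * pr a d := by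
      rw [pr_mul, pr_mul]
    rw [this, ← c_pr, ← t_pr]
  have e2 : t⁻¹ * w = pr (c * a)⁻¹ ((a * c)⁻¹ * t) := by
    have : pr (c * a)⁻¹ ((a * c)⁻¹ * t) = pr (c * a)⁻¹ (a * c)⁻¹ * pr 1 t := by
      rw [pr_mul, mul_one]
    rw [this, ← pr_inv, ← t_pr]; rfl
  rw [e1, e2]
  unfold t
  simp only [mul_inv_rev, a_inv, c_inv, mul_assoc, aa', a_a, mul_one, bcd.2.1, cb']
theorem cvc : c * v * c = v⁻¹ := by
  rw [v_inv, c_pr]; unfold v
  rw [pr_mul, pr_mul, mul_one, d_d, ata]
theorem cwc : c * w * c = t⁻¹ * w * t := by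
  have : t⁻¹ * w * t = pr 1 (d * t * d) := by
    rw [dtd_word, ← conj_w]; rfl
  rw [this, c_pr]
  unfold w
  rw [pr_mul, pr_mul, mul_one, a_a]
theorem dtd : d * t * d = w⁻¹ * t := by
  have e1 : d * t * d = pr (c * a) (b * (a * c) * b) := by
    have : pr (c * a) (b * (a * c) * b) = pr 1 b * pr (c * a) (a * c) * pr 1 b := by
      rw [pr_mul, pr_mul, one_mul, mul_one]
    rw [this, ← d_pr, ← t_pr]
  have e2 : w⁻¹ * t = pr (c * a) (t⁻¹ * (a * c)) := by
    have : pr (c * a) (t⁻¹ * (a * c)) = pr 1 t⁻¹ * pr (c * a) (a * c) := by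
      rw [pr_mul, one_mul]
    rw [this, ← t_pr, w_inv]
  rw [e1, e2, t_inv]
  simp only [mul_assoc, aa', cb, bcd.1]
theorem dvd : d * v * d = v := by
  rw [d_pr]; unfold v
  rw [pr_mul, pr_mul, one_mul, mul_one, mul_one, b_b]
theorem dwd : d * w * d = w⁻¹ := by
  rw [w_inv, d_pr]; unfold w
  rw [pr_mul, pr_mul, one_mul, mul_one, btb]

/-- the branching subgroup -/
noncomputable def K : Subgroup (Equiv.Perm X) := Subgroup.closure {t, v, w}

theorem t_mem : t ∈ K := Subgroup.subset_closure (by simp)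
theorem v_mem : v ∈ K := Subgroup.subset_closure (by simp)
theorem w_mem : w ∈ K := Subgroup.subset_closure (by simp)

theorem conjK {s : Equiv.Perm X} (hs : s * s = 1) (h1 : s * t * s ∈ K) (h2 : s * v * s ∈ K)
    (h3 : s * w * s ∈ K) {k : Equiv.Perm X} (hk : k ∈ K) : s * k * s ∈ K := by
  induction hk using Subgroup.closure_induction with
  | mem x hx =>
    rcases hx with rfl | rfl | rfl
    · exact h1
    · exact h2
    · exact h3
  | one => rw [mul_one, hs]; exact K.one_mem
  | mul x y _ _ hx hy =>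
    have : s * (x * y) * s = (s * x * s) * (s * y * s) := by
      have : (s * x * s) * (s * y * s) = s * x * (s * s) * y * s := by simp only [mul_assoc]
      rw [this, hs]; simp only [mul_assoc, one_mul]
    rw [this]; exact K.mul_mem hx hy
  | inv x _ hx =>
    have : s * x⁻¹ * s = (s * x * s)⁻¹ := by
      rw [mul_inv_rev, mul_inv_rev, inv_eq_of_mul_eq_one_left hs, mul_assoc]
    rw [this]; exact K.inv_mem hx

theorem aK {k : Equiv.Perm X} (hk : k ∈ K) : a * k * a ∈ K :=
  conjK a_a (by rw [ata]; exact K.inv_mem t_mem) (by rw [ava]; exact w_mem)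
    (by rw [awa]; exact v_mem) hk
theorem bK {k : Equiv.Perm X} (hk : k ∈ K) : b * k * b ∈ K :=
  conjK b_b (by rw [btb]; exact K.inv_mem t_mem) (by rw [bvb]; exact K.inv_mem v_mem)
    (by rw [bwb]; exact K.mul_mem (K.mul_mem (K.inv_mem t_mem) (K.inv_mem w_mem)) t_mem) hk
theorem cK {k : Equiv.Perm X} (hk : k ∈ K) : c * k * c ∈ K :=
  conjK c_c (by rw [ctc]; exact K.mul_mem (K.inv_mem t_mem) w_mem)
    (by rw [cvc]; exact K.inv_mem v_mem)
    (by rw [cwc]; exact K.mul_mem (K.mul_mem (K.inv_mem t_mem) w_mem) t_mem) hk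
theorem dK {k : Equiv.Perm X} (hk : k ∈ K) : d * k * d ∈ K :=
  conjK d_d (by rw [dtd]; exact K.mul_mem (K.inv_mem w_mem) t_mem)
    (by rw [dvd]; exact v_mem) (by rw [dwd]; exact K.inv_mem w_mem) hk

theorem t_memG : t ∈ G := G.mul_mem a_mem (G.mul_mem b_mem (G.mul_mem a_mem b_mem))
theorem v_memG : v ∈ G := by
  have e : v = (b * (a * (d * a))) * (b * (a * (d * a))) := by
    have h1 : b * (a * (d * a)) = pr (a * b) c := by
      have : b * (a * (d * a)) = pr a c * (a * (pr 1 b * a)) := by rw [← b_pr, ← d_pr]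
      rw [this, apra, pr_mul, mul_one]
    rw [h1, pr_mul, c_c]
    unfold v t
    simp only [mul_assoc]
  rw [e]
  have := G.mul_mem b_mem (G.mul_mem a_mem (G.mul_mem d_mem a_mem))
  exact G.mul_mem this this
theorem w_memG : w ∈ G := by
  rw [← ava]; exact G.mul_mem (G.mul_mem a_mem v_memG) a_mem

theorem K_le : K ≤ G := by
  unfold K
  rw [Subgroup.closure_le]
  rintro x (rfl | rfl | rfl)
  · exact t_memG
  · exact v_memG
  · exact w_memG

theorem L_false_t : L false t = v := L_false_eq t

theorem LK_false {k : Equiv.Perm X} (hk : k ∈ K) : L false k ∈ K := by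
  have h1 : L false t ∈ K := by rw [L_false_t]; exact v_mem
  have h2 : L false w ∈ K := by
    have e1 : w = t * (d * t * d)⁻¹ := by rw [dtd, mul_inv_rev, inv_inv]; group
    have e2 : L false (d * t * d) = a * (c * (a * v * a) * c) * a := by
      have : a * (c * (a * v * a) * c) * a = (a * (c * a)) * v * (a * (c * a)) := by
        simp only [mul_assoc]
      rw [this]
      have h : a * (c * a) = pr d a := by
        have : a * (c * a) = a * (pr a d * a) := by rw [← c_pr]
        rw [this, apra]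
      rw [h]; unfold v
      rw [pr_mul, pr_mul, L_false_eq, mul_one, a_a]
    rw [e1, map_mul, map_inv, e2]
    exact K.mul_mem h1 (K.inv_mem (aK (cK (aK v_mem))))
  have h3 : L false v ∈ K := by
    have e : L false v = b * L false w * b := by
      rw [← awa, L_false_eq, L_false_eq]
      have : b * pr w 1 * b = pr a c * pr w 1 * pr a c := by rw [← b_pr]
      rw [this, pr_mul, pr_mul, mul_one, c_c]
    rw [e]; exact bK h2
  induction hk using Subgroup.closure_induction with
  | mem x hx =>
    rcases hx with rfl | rfl | rfl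
    · exact h1
    · exact h3
    · exact h2
  | one => rw [map_one]; exact K.one_mem
  | mul x y _ _ hx hy => rw [map_mul]; exact K.mul_mem hx hy
  | inv x _ hx => rw [map_inv]; exact K.inv_mem hx

theorem LK_true {k : Equiv.Perm X} (hk : k ∈ K) : L true k ∈ K := by
  rw [← aLa]; exact aK (LK_false hk)

/-! ### contraction -/

/-- the nucleus -/
def Nuc (s : Equiv.Perm X) : Prop := s = 1 ∨ s = a ∨ s = b ∨ s = c ∨ s = d

/-- prepend a word -/
def pre (u : List Bool) (x : X) : X := u.foldr cns x

@[simp] theorem pre_nil (x : X) : pre [] x = x := rfl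
@[simp] theorem pre_cons (e : Bool) (u : List Bool) (x : X) : pre (e :: u) x = cns e (pre u x) := rfl
theorem pre_append (u u' : List Bool) (x : X) : pre (u ++ u') x = pre u (pre u' x) := by
  unfold pre; rw [List.foldr_append]

theorem pre_inj : ∀ {u u' : List Bool} {x y : X}, u.length = u'.length → pre u x = pre u' y →
    u = u' ∧ x = y := by
  intro u
  induction u with
  | nil =>
    intro u' x y hl h
    have : u' = [] := List.eq_nil_of_length_eq_zero (by simpa using hl.symm)
    subst this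
    exact ⟨rfl, h⟩
  | cons e u ih =>
    intro u' x y hl h
    rcases u' with _ | ⟨e', u'⟩
    · simp at hl
    · rw [pre_cons, pre_cons, cns_inj] at h
      obtain ⟨h1, h2⟩ := ih (by simpa using hl) h.2
      exact ⟨by rw [h.1, h1], h2⟩

theorem nuc_sec {s : Equiv.Perm X} (hs : Nuc s) (e : Bool) :
    ∃ e' s', Nuc s' ∧ ∀ x, s (cns e x) = cns e' (s' x) := by
  rcases hs with rfl | rfl | rfl | rfl | rfl
  · exact ⟨e, 1, Or.inl rfl, fun x => rfl⟩
  · exact ⟨!e, 1, Or.inl rfl, fun x => a_cns e x⟩
  · cases e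
    · exact ⟨false, a, by simp [Nuc], b_f⟩
    · exact ⟨true, c, by simp [Nuc], b_t⟩
  · cases e
    · exact ⟨false, a, by simp [Nuc], c_f⟩
    · exact ⟨true, d, by simp [Nuc], c_t⟩
  · cases e
    · exact ⟨false, 1, by simp [Nuc], d_f⟩
    · exact ⟨true, b, by simp [Nuc], d_t⟩

theorem nuc_sec_list : ∀ (u : List Bool) {s : Equiv.Perm X}, Nuc s →
    ∃ u' : List Bool, u'.length = u.length ∧ ∃ s', Nuc s' ∧ ∀ x, s (pre u x) = pre u' (s' x) := by
  intro u
  induction u with
  | nil => intro s hs; exact ⟨[], rfl, s, hs, fun x => rfl⟩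
  | cons e u ih =>
    intro s hs
    obtain ⟨e', s1, hs1, h1⟩ := nuc_sec hs e
    obtain ⟨u', hl, s2, hs2, h2⟩ := ih hs1
    refine ⟨e' :: u', by simp [hl], s2, hs2, fun x => ?_⟩
    rw [pre_cons, h1, h2, pre_cons]

/-- the finite group `{1, b, c, d}` -/
def V4 (s : Equiv.Perm X) : Prop := s = 1 ∨ s = b ∨ s = c ∨ s = d

theorem V4_mul {s s' : Equiv.Perm X} (h : V4 s) (h' : V4 s') : V4 (s * s') := by
  rcases h with rfl | rfl | rfl | rfl <;> rcases h' with rfl | rfl | rfl | rfl <;>
    simp [V4, b_b, c_c, d_d, bcd, cb, bd, dc]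

theorem V4_nuc {s : Equiv.Perm X} (h : V4 s) : Nuc s := by
  rcases h with rfl | rfl | rfl | rfl <;> simp [Nuc]

theorem nuc_cases {s : Equiv.Perm X} (h : Nuc s) : s = a ∨ V4 s := by
  rcases h with rfl | rfl | rfl | rfl | rfl <;> simp [V4]

theorem nuc_mul {s s' : Equiv.Perm X} (hs : Nuc s) (hs' : Nuc s') (e : Bool) :
    ∃ e' s'', Nuc s'' ∧ ∀ x, s (s' (cns e x)) = cns e' (s'' x) := by
  rcases nuc_cases hs with rfl | h
  · obtain ⟨e', s1, h1, h2⟩ := nuc_sec hs' e
    exact ⟨!e', s1, h1, fun x => by rw [h2, a_cns]⟩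
  · rcases nuc_cases hs' with rfl | h'
    · obtain ⟨e', s1, h1, h2⟩ := nuc_sec hs (!e)
      exact ⟨e', s1, h1, fun x => by rw [a_cns, h2]⟩
    · exact nuc_sec (V4_nuc (V4_mul h h')) e

/-- all sections at some level lie in the nucleus -/
def P (g : Equiv.Perm X) : Prop := ∃ n : ℕ, ∀ u : List Bool, u.length = n →
  ∃ u' : List Bool, u'.length = n ∧ ∃ s, Nuc s ∧ ∀ x, g (pre u x) = pre u' (s x)

theorem P_mul {s g : Equiv.Perm X} (hs : Nuc s) (hg : P g) : P (s * g) := by
  obtain ⟨n, hn⟩ := hg
  refine ⟨n + 1, fun u hu => ?_⟩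
  obtain ⟨u0, e, rfl⟩ : ∃ u0 e, u = u0 ++ [e] := by
    refine ⟨u.dropLast, u.getLast (by rintro rfl; simp at hu), ?_⟩
    rw [List.dropLast_append_getLast]
  have hl : u0.length = n := by simpa using hu
  obtain ⟨u1, hl1, s1, hs1, h1⟩ := hn u0 hl
  obtain ⟨u2, hl2, s2, hs2, h2⟩ := nuc_sec_list u1 hs
  obtain ⟨e3, s3, hs3, h3⟩ := nuc_mul hs2 hs1 e
  refine ⟨u2 ++ [e3], by simp [hl2, hl1], s3, hs3, fun x => ?_⟩
  rw [Equiv.Perm.mul_apply, pre_append, h1, h2, pre_append]
  congr 1
  exact h3 x

theorem P_of_mem {g : Equiv.Perm X} (hg : g ∈ G) : P g := by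
  have key : (∀ h, P h → P (g * h)) ∧ (∀ h, P h → P (g⁻¹ * h)) := by
    induction hg using Subgroup.closure_induction with
    | mem x hx =>
      rcases hx with rfl | rfl | rfl | rfl
      · exact ⟨fun h hh => P_mul (by simp [Nuc]) hh,
          fun h hh => by rw [a_inv]; exact P_mul (by simp [Nuc]) hh⟩
      · exact ⟨fun h hh => P_mul (by simp [Nuc]) hh,
          fun h hh => by rw [b_inv]; exact P_mul (by simp [Nuc]) hh⟩
      · exact ⟨fun h hh => P_mul (by simp [Nuc]) hh,
          fun h hh => by rw [c_inv]; exact P_mul (by simp [Nuc]) hh⟩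
      · exact ⟨fun h hh => P_mul (by simp [Nuc]) hh,
          fun h hh => by rw [d_inv]; exact P_mul (by simp [Nuc]) hh⟩
    | one => exact ⟨fun h hh => by rw [one_mul]; exact hh, fun h hh => by
        rw [inv_one, one_mul]; exact hh⟩
    | mul x y _ _ hx hy =>
      refine ⟨fun h hh => ?_, fun h hh => ?_⟩
      · rw [mul_assoc]; exact hx.1 _ (hy.1 _ hh)
      · rw [mul_inv_rev, mul_assoc]; exact hy.2 _ (hx.2 _ hh)
    | inv x _ hx => exact ⟨hx.2, by rw [inv_inv]; exact hx.1⟩
  have h1 : P 1 := ⟨0, fun u hu => ⟨u, hu, 1, Or.inl rfl, fun x => rfl⟩⟩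
  have := key.1 1 h1
  rwa [mul_one] at this

/-- an element of the group equal to its own section at the vertex `0` is trivial -/
theorem eq_one_of_fix {k : Equiv.Perm X} (hk : k ∈ G)
    (h : ∀ x, k (cns false x) = cns false (k x)) : k = 1 := by
  obtain ⟨n, hn⟩ := P_of_mem hk
  obtain ⟨u', hl, s, hs, hx⟩ := hn (List.replicate n false) (by simp)
  have h2 : ∀ m x, k (pre (List.replicate m false) x) = pre (List.replicate m false) (k x) := by
    intro m
    induction m with
    | zero => intro x; rfl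
    | succ m ih => intro x; rw [List.replicate_succ, pre_cons, h, ih, pre_cons]
  have h3 : k = s := by
    ext1 x
    have h4 := (h2 n x).symm.trans (hx x)
    exact (pre_inj (by simp [hl]) h4).2
  subst h3
  set x0 : X := fun _ => false with hx0
  rcases hs with h' | h' | h' | h' | h'
  · exact h'
  · exfalso
    have := h x0
    rw [h', a_cns, cns_inj] at this
    exact absurd this.1 (by decide)
  · exfalso
    have := h (cns false x0)
    rw [h', b_f, cns_inj] at this
    have := this.2
    rw [a_cns, b_f, cns_inj] at this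
    exact absurd this.1 (by decide)
  · exfalso
    have := h (cns false x0)
    rw [h', c_f, cns_inj] at this
    have := this.2
    rw [a_cns, c_f, cns_inj] at this
    exact absurd this.1 (by decide)
  · exfalso
    have := h (cns true (cns false (cns false x0)))
    rw [h', d_f, cns_inj] at this
    have := this.2
    rw [d_t, cns_inj] at this
    have := this.2
    rw [b_f, cns_inj] at this
    have := this.2
    rw [a_cns, cns_inj] at this
    exact absurd this.1 (by decide)

/-! ### the counterexample -/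

theorem t_ne : t ≠ 1 := by
  intro h
  have := congrArg (fun p : Equiv.Perm X => p (cns true (cns true fun _ => false))) h
  simp only [t, Equiv.Perm.mul_apply, Equiv.Perm.one_apply] at this
  simp [cns_inj] at this

/-- a nontrivial commutator of elements of `K` -/
noncomputable def kap : Equiv.Perm X := t * w * t⁻¹ * w⁻¹

theorem kap_mem : kap ∈ K :=
  K.mul_mem (K.mul_mem (K.mul_mem t_mem w_mem) (K.inv_mem t_mem)) (K.inv_mem w_mem)

theorem kap_ne : kap ≠ 1 := by
  intro h
  have h1 : t * w = w * t := by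
    unfold kap at h
    rw [mul_inv_eq_one, mul_inv_eq_iff_eq_mul] at h
    exact h
  have h2 : t⁻¹ * w * t = w := by
    rw [mul_assoc, ← h1, ← mul_assoc, inv_mul_cancel, one_mul]
  -- `t⁻¹ w t = pr 1 (d t d)`
  have h3 : t⁻¹ * w * t = pr 1 (d * t * d) := by
    rw [dtd_word, ← conj_w]; rfl
  rw [h3] at h2
  unfold w at h2
  rw [← L_true_eq, ← L_true_eq] at h2
  have h4 := L_inj true h2
  rw [dtd] at h4
  have h5 : w = 1 := by
    have : w⁻¹ * t = 1 * t := by rw [h4, one_mul]
    exact inv_eq_one.1 (mul_right_cancel this)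
  unfold w at h5
  rw [← L_true_eq, ← map_one (L true)] at h5
  exact t_ne (L_inj true h5)

theorem pr_inj {g h g' h' : Equiv.Perm X} (H : pr g h = pr g' h') : g = g' ∧ h = h' := by
  constructor
  · ext1 x
    have := congrArg (fun p : Equiv.Perm X => p (cns false x)) H
    simpa [pr, Equiv.Perm.mul_apply, cns_inj] using this
  · ext1 x
    have := congrArg (fun p : Equiv.Perm X => p (cns true x)) H
    simpa [pr, Equiv.Perm.mul_apply, cns_inj] using this

/-- iterates of `L false` -/
def Lf : ℕ → (Equiv.Perm X →* Equiv.Perm X)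
  | 0 => MonoidHom.id _
  | n + 1 => (L false).comp (Lf n)

theorem Lf_zero (g : Equiv.Perm X) : Lf 0 g = g := rfl
theorem Lf_succ (n : ℕ) (g : Equiv.Perm X) : Lf (n + 1) g = L false (Lf n g) := rfl

theorem Lf_mem (n : ℕ) {g : Equiv.Perm X} (hg : g ∈ K) : Lf n g ∈ K := by
  induction n with
  | zero => exact hg
  | succ n ih => rw [Lf_succ]; exact LK_false ih

theorem Lf_comm (x y : Equiv.Perm X) : ∀ m n : ℕ, m < n →
    Commute (Lf m (L true x)) (Lf n (L true y)) := by
  intro m
  induction m with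
  | zero =>
    intro n hn
    obtain ⟨n, rfl⟩ : ∃ n', n = n' + 1 := ⟨n - 1, by omega⟩
    rw [Lf_zero, Lf_succ]
    exact (L_comm _ _).symm
  | succ m ih =>
    intro n hn
    obtain ⟨n, rfl⟩ : ∃ n', n = n' + 1 := ⟨n - 1, by omega⟩
    rw [Lf_succ, Lf_succ]
    exact (ih n (by omega)).map (L false)

/-- the copies of `K` below the vertices `1 0^n 1` -/
def E (n : ℕ) : Equiv.Perm X →* Equiv.Perm X := (L true).comp ((Lf n).comp (L true))

theorem E_apply (n : ℕ) (g : Equiv.Perm X) : E n g = L true (Lf n (L true g)) := rfl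

theorem E_mem (n : ℕ) {g : Equiv.Perm X} (hg : g ∈ K) : E n g ∈ G :=
  K_le (LK_true (Lf_mem n (LK_true hg)))

theorem E_comm {m n : ℕ} (h : m ≠ n) (x y : Equiv.Perm X) : Commute (E m x) (E n y) := by
  rw [E_apply, E_apply]
  rcases lt_or_gt_of_ne h with h | h
  · exact (Lf_comm x y m n h).map (L true)
  · exact ((Lf_comm y x n m h).map (L true)).symm

/-- finite products approximating the fixed point -/
noncomputable def ks : ℕ → Equiv.Perm X
  | 0 => 1
  | n + 1 => L true kap * L false (ks n)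

theorem ks_mem (n : ℕ) : ks n ∈ K := by
  induction n with
  | zero => exact K.one_mem
  | succ n ih => exact K.mul_mem (LK_true kap_mem) (LK_false ih)

theorem ks_succ (n : ℕ) : ks (n + 1) = L true kap * L false (ks n) := rfl

theorem ks_succ' (n : ℕ) : ks (n + 1) = ks n * Lf n (L true kap) := by
  induction n with
  | zero => rw [ks_succ, Lf_zero]; simp [ks]
  | succ n ih =>
    rw [ks_succ (n + 1)]
    nth_rewrite 1 [ih]
    rw [map_mul, ← mul_assoc, ← ks_succ, Lf_succ]

/-- the first diagonal embedding -/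
def D1 : Equiv.Perm X →* Equiv.Perm X where
  toFun g := pr g g
  map_one' := by unfold pr; rw [map_one, map_one, one_mul]
  map_mul' g h := (pr_mul g g h h).symm

/-- the second diagonal embedding -/
def D2 : Equiv.Perm X →* Equiv.Perm X where
  toFun g := pr g (L false g)
  map_one' := by unfold pr; rw [map_one, map_one, one_mul]
  map_mul' g h := by rw [map_mul, pr_mul]

theorem D1_apply (g : Equiv.Perm X) : D1 g = pr g g := rfl
theorem D2_apply (g : Equiv.Perm X) : D2 g = pr g (L false g) := rfl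

theorem D1_mem {g : Equiv.Perm X} (hg : g ∈ K) : D1 g ∈ G :=
  G.mul_mem (K_le (LK_false hg)) (K_le (LK_true hg))
theorem D2_mem {g : Equiv.Perm X} (hg : g ∈ K) : D2 g ∈ G :=
  G.mul_mem (K_le (LK_false hg)) (K_le (LK_true (LK_false hg)))

theorem fg_aux (D : Equiv.Perm X →* Equiv.Perm X) (h : K.map D ≤ G) :
    ((K.map D).subgroupOf G).FG := by
  have h1 : (K.map D).FG := (Subgroup.fg_iff _).2
    ⟨D '' {t, v, w}, by rw [← MonoidHom.map_closure]; rfl, (Set.toFinite _).image _⟩
  have : Group.FG (K.map D) := (Group.fg_iff_subgroup_fg _).2 h1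
  have : Group.FG ((K.map D).subgroupOf G) :=
    Group.fg_of_surjective (f := (Subgroup.subgroupOfEquivOfLe h).symm.toMonoidHom)
      (Subgroup.subgroupOfEquivOfLe h).symm.surjective
  exact (Group.fg_iff_subgroup_fg _).1 this

theorem gp_spec (r : ℕ) (x : X) (j : ℕ) : gp r x j ≠ x j ↔
    ∃ k, j = k + 1 ∧ x k = false ∧ (∀ i < k, x i = true) ∧ (k + r) % 3 ≠ 2 := by
  classical
  change gF r x j ≠ x j ↔ _
  unfold gF
  by_cases h : ∃ k, j = k + 1 ∧ x k = false ∧ (∀ i < k, x i = true) ∧ (k + r) % 3 ≠ 2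
  · refine iff_of_true ?_ h
    rw [if_pos h]
    cases x j <;> simp
  · refine iff_of_false ?_ h
    rw [if_neg h]
    simp

/-- The negation of the preceding statement: In the Grigorchuk group (generated by a, b=(a,c), c=(a,d), d=(1,b) acting on binary sequences), every product set A1...An of finitely generated subgroups is closed in the profinite topology. -/
theorem result :
    ¬ (∀ a b c d : Equiv.Perm (ℕ → Bool),
      (∀ x j, a x j ≠ x j ↔ j = 0) →
      (∀ x j, b x j ≠ x j ↔ ∃ k, j = k + 1 ∧ x k = false ∧ (∀ i < k, x i = true) ∧ k % 3 ≠ 2) →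
      (∀ x j, c x j ≠ x j ↔ ∃ k, j = k + 1 ∧ x k = false ∧ (∀ i < k, x i = true) ∧ k % 3 ≠ 1) →
      (∀ x j, d x j ≠ x j ↔ ∃ k, j = k + 1 ∧ x k = false ∧ (∀ i < k, x i = true) ∧ k % 3 ≠ 0) →
      ∀ G : Subgroup (Equiv.Perm (ℕ → Bool)),
        G = Subgroup.closure ({a, b, c, d} : Set (Equiv.Perm (ℕ → Bool))) →
        ∀ (n : ℕ) (A : Fin n → Subgroup G), (∀ i, (A i).FG) →
          ∀ g : G, (∀ f : Fin n → G, (∀ i, f i ∈ A i) → (List.ofFn f).prod ≠ g) →
            ∃ N : Subgroup G, N.FiniteIndex ∧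
              ∀ f : Fin n → G, (∀ i, f i ∈ A i) → ∀ m ∈ N, (List.ofFn f).prod * m ≠ g) := by
  intro H
  have hD1 : K.map D1 ≤ G := by
    rintro _ ⟨k, hk, rfl⟩; exact D1_mem hk
  have hD2 : K.map D2 ≤ G := by
    rintro _ ⟨k, hk, rfl⟩; exact D2_mem hk
  have hprod : ∀ f : Fin 2 → G, (List.ofFn f).prod = f 0 * f 1 := by
    intro f; simp [List.ofFn_succ]
  have H2 := H a b c d
    (fun x j => by
      change aF x j ≠ x j ↔ j = 0
      unfold aF
      by_cases h : j = 0
      · refine iff_of_true ?_ h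
        rw [if_pos h]; cases x j <;> simp
      · refine iff_of_false ?_ h
        rw [if_neg h]; simp)
    (fun x j => gp_spec 0 x j)
    (fun x j => (gp_spec 1 x j).trans (by
      constructor
      · rintro ⟨k, h1, h2, h3, h4⟩; exact ⟨k, h1, h2, h3, by omega⟩
      · rintro ⟨k, h1, h2, h3, h4⟩; exact ⟨k, h1, h2, h3, by omega⟩))
    (fun x j => (gp_spec 2 x j).trans (by
      constructor
      · rintro ⟨k, h1, h2, h3, h4⟩; exact ⟨k, h1, h2, h3, by omega⟩
      · rintro ⟨k, h1, h2, h3, h4⟩; exact ⟨k, h1, h2, h3, by omega⟩))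
    G rfl 2 ![(K.map D1).subgroupOf G, (K.map D2).subgroupOf G]
    (by
      intro i
      fin_cases i
      · exact fg_aux D1 hD1
      · exact fg_aux D2 hD2)
    ⟨L true (L true kap), K_le (LK_true (LK_true kap_mem))⟩
    (by
      intro f hf he
      rw [hprod] at he
      obtain ⟨k, hk, hk'⟩ : ((f 0 : G) : Equiv.Perm X) ∈ K.map D1 := hf 0
      obtain ⟨l, hl, hl'⟩ : ((f 1 : G) : Equiv.Perm X) ∈ K.map D2 := hf 1
      have he' := congrArg Subtype.val he
      change ((f 0 : G) : Equiv.Perm X) * ((f 1 : G) : Equiv.Perm X) = L true (L true kap) at he'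
      rw [← hk', ← hl', D1_apply, D2_apply, pr_mul, L_true_eq (L true kap)] at he'
      obtain ⟨e1, e2⟩ := pr_inj he'
      have e3 : l = k⁻¹ := eq_inv_of_mul_eq_one_right e1
      rw [e3, map_inv, mul_inv_eq_iff_eq_mul] at e2
      have e4 : k = 1 := by
        apply eq_one_of_fix (K_le hk)
        intro x
        nth_rewrite 1 [e2]
        rw [Equiv.Perm.mul_apply, L_ff, L_tf]
      rw [e4, map_one, mul_one, ← map_one (L true)] at e2
      exact kap_ne (L_inj true e2).symm)
  obtain ⟨N, hN, hcon⟩ := H2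
  set N' := N.normalCore with hN'
  have : N'.FiniteIndex := by infer_instance
  have : Finite (G ⧸ N') := Subgroup.finite_quotient_of_finiteIndex
  obtain ⟨m, n, hmn, hq⟩ := Finite.exists_ne_map_eq_of_infinite
    (fun n : ℕ => (QuotientGroup.mk (⟨E n t, E_mem n t_mem⟩ : G) : G ⧸ N'))
  -- the element below the vertex `1 0^n 1` is in `N'`
  have hmem : (⟨E n kap, E_mem n kap_mem⟩ : G) ∈ N' := by
    rw [← QuotientGroup.eq_one_iff]
    have e1 : (⟨E n kap, E_mem n kap_mem⟩ : G) = ⟨E n t, E_mem n t_mem⟩ * ⟨E n w, E_mem n w_mem⟩ *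
        (⟨E n t, E_mem n t_mem⟩ : G)⁻¹ * (⟨E n w, E_mem n w_mem⟩ : G)⁻¹ := by
      apply Subtype.ext
      change E n kap = E n t * E n w * (E n t)⁻¹ * (E n w)⁻¹
      unfold kap
      simp only [map_mul, map_inv]
    have e2 : (⟨E m t, E_mem m t_mem⟩ : G) * ⟨E n w, E_mem n w_mem⟩ =
        ⟨E n w, E_mem n w_mem⟩ * ⟨E m t, E_mem m t_mem⟩ := by
      apply Subtype.ext
      exact E_comm hmn t w
    rw [e1]
    simp only [QuotientGroup.mk_mul, QuotientGroup.mk_inv]
    have hq' : (QuotientGroup.mk (⟨E n t, E_mem n t_mem⟩ : G) : G ⧸ N') =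
      QuotientGroup.mk (⟨E m t, E_mem m t_mem⟩ : G) := hq.symm
    rw [hq', ← QuotientGroup.mk_mul, e2, QuotientGroup.mk_mul, mul_inv_cancel_right, mul_inv_cancel]
  set z : G := ⟨L true (L false (ks n)), K_le (LK_true (LK_false (ks_mem n)))⟩ with hz
  have hm : z * ⟨E n kap, E_mem n kap_mem⟩ * z⁻¹ ∈ N :=
    N.normalCore_le ((inferInstance : N'.Normal).conj_mem _ hmem z)
  refine hcon ![⟨D1 (ks n), D1_mem (ks_mem n)⟩, ⟨D2 (ks n)⁻¹, D2_mem (K.inv_mem (ks_mem n))⟩] ?_ _ hm ?_
  · intro i
    fin_cases i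
    · exact ⟨ks n, ks_mem n, rfl⟩
    · exact ⟨(ks n)⁻¹, K.inv_mem (ks_mem n), rfl⟩
  · rw [hprod]
    apply Subtype.ext
    change D1 (ks n) * D2 (ks n)⁻¹ * (L true (L false (ks n)) * E n kap *
      (L true (L false (ks n)))⁻¹) = L true (L true kap)
    rw [D1_apply, D2_apply, pr_mul, mul_inv_cancel, ← L_true_eq, E_apply, ← map_inv, ← map_mul,
      ← map_mul, ← map_mul]
    congr 1
    rw [map_inv]
    have e1 : ks n * Lf n (L true kap) = L true kap * L false (ks n) := by
      rw [← ks_succ', ks_succ]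
    calc ks n * (L false (ks n))⁻¹ * (L false (ks n) * Lf n (L true kap) * (L false (ks n))⁻¹)
        = ks n * Lf n (L true kap) * (L false (ks n))⁻¹ := by group
      _ = L true kap := by rw [e1, mul_inv_cancel_right]

end Pool.Agent.S01968
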