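import Pool.Statements.S01987
-- import your own Pool.Agent.* helpers here
import Pool.Agent.Helper816.Final1987

set_option autoImplicit false
open Pool Pool.MP_c69dad_al

namespace Pool.Agent.S01987

/-- For every field k and minimally generated numerical semigroup s_0<…<s_n, the semigroup ring k[S] has a free resolution over k[X_0..X_n] whose t-th rank is at most t·C(s_n−s_0+1, t+1) for all t ≥ 1. -/
theorem result :
  ∀ (k : Type) [Field k] (n : ℕ) (s : Fin (n+1) → ℕ),
    StrictMono s → 0 < s 0 → Finset.univ.gcd s = 1 →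
    (∀ i : Fin (n+1), s i ∉ AddSubmonoid.closure
        (Set.range (fun j : {j : Fin (n+1) // j ≠ i} => s j.1))) →
    ∃ (b : ℕ → ℕ)
      (d₀ : (Fin (b 1) → MvPolynomial (Fin (n+1)) k) →ₗ[MvPolynomial (Fin (n+1)) k]
              MvPolynomial (Fin (n+1)) k)
      (d : ∀ t : ℕ, (Fin (b (t+1+1)) → MvPolynomial (Fin (n+1)) k) →ₗ[MvPolynomial (Fin (n+1)) k]
              (Fin (b (t+1)) → MvPolynomial (Fin (n+1)) k)),
      LinearMap.range d₀ = RingHom.ker
          (MvPolynomial.aeval (fun i : Fin (n+1) => (Polynomial.X : Polynomial k) ^ s i)) ∧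
      LinearMap.range (d 0) = LinearMap.ker d₀ ∧
      (∀ t : ℕ, LinearMap.range (d (t+1)) = LinearMap.ker (d t)) ∧
      (∀ t : ℕ, 1 ≤ t → b t ≤ t * Nat.choose (s (Fin.last n) - s 0 + 1) (t+1)) := by
  intro k _ n s hs h0 _ hmin
  exact Pool.Agent.Helper816.Final1987.main k n s hs h0 hmin

end Pool.Agent.S01987
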