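import Pool.Statements.S01995
import Pool.Agent.Helper455.KZ.Main

set_option autoImplicit false
open Pointwise
open Pool Pool.MP_c8cedc_al

namespace Pool.Agent.S01995

/-- There is an infinite finitely generated group with Kazhdan's Property (T) such that, for every c > 1, some finite generating set has a ball of some radius n with fewer than c^n elements, i.e. the group is not of uniformly exponential growth. -/
theorem result :
    ∃ (G : Type) (_ : Group G), Infinite G ∧ Group.FG G ∧
      (∃ S : Finset G, ∃ ε : ℝ, 0 < ε ∧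
        ∀ (H : Type) [NormedAddCommGroup H] [InnerProductSpace ℂ H] [CompleteSpace H]
          (π : G →* unitary (H →L[ℂ] H)),
          (∃ v : H, ‖v‖ = 1 ∧ ∀ s ∈ S, ‖(π s : H →L[ℂ] H) v - v‖ < ε) →
            ∃ w : H, w ≠ 0 ∧ ∀ g : G, (π g : H →L[ℂ] H) w = w) ∧
      ∀ c : ℝ, 1 < c → ∃ S : Finset G, Subgroup.closure (S : Set G) = ⊤ ∧
        ∃ n : ℕ, ((((S : Set G) ∪ (S : Set G)⁻¹ ∪ {1}) ^ n).ncard : ℝ) < c ^ n := by
  haveI : Fact (Nat.Prime 2) := ⟨Nat.prime_two⟩
  let K := GaloisField 2 8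
  haveI : Finite K := inferInstanceAs (Finite (GaloisField 2 8))
  letI : Fintype K := Fintype.ofFinite K
  have hK : Fintype.card K = 256 := by
    rw [← Nat.card_eq_fintype_card, GaloisField.card 2 8 (by norm_num)]; norm_num
  haveI : CharP K 2 := inferInstanceAs (CharP (GaloisField 2 8) 2)
  have hK2 : ∀ x : K, x + x = 0 := fun x => CharTwo.add_self_eq_zero x
  let R := Module.End K (ℕ → K)
  have h2 : ∀ x : R, x + x = 0 := Helper455.KZ.model_char K hK2
  have h1 : (1 : R) ≠ 0 := one_ne_zero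
  let C : Helper455.KZ.Leav R := Helper455.KZ.model K
  obtain ⟨S, hS, _⟩ := Helper455.KZ.exists_gens (K := K) C h2 0
  exact ⟨Helper455.KZ.GG K C, inferInstance, Helper455.KZ.GG_infinite C h2 h1, ⟨⟨S, hS⟩⟩,
    Helper455.KZ.propT C hK h2, fun c hc => Helper455.KZ.not_ueg C hK h2 c hc⟩

end Pool.Agent.S01995
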