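import Pool.Statements.S02011
import Pool.Agent.Helper642.C1

set_option autoImplicit false
open Pool Pool.MP_c9c98b_al

namespace Pool.Agent.S02011

/-- There is a group G all of whose central extensions are residually nilpotent, yet some central extension of some central extension of G is not residually nilpotent. -/
theorem result :
    ∃ (G : Type) (hG : Group G),
      (∀ (E : Type) (hE : Group E) (f : E →* G), Function.Surjective f →
        f.ker ≤ Subgroup.center E →
        ∀ g : E, g ≠ 1 →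
          ∃ (H : Type) (hH : Group H) (φ : E →* H), Group.IsNilpotent H ∧ φ g ≠ 1) ∧
      ∃ (E₁ : Type) (h₁ : Group E₁) (f₁ : E₁ →* G)
        (E₂ : Type) (h₂ : Group E₂) (f₂ : E₂ →* E₁),
        Function.Surjective f₁ ∧ f₁.ker ≤ Subgroup.center E₁ ∧
        Function.Surjective f₂ ∧ f₂.ker ≤ Subgroup.center E₂ ∧
        ∃ g : E₂, g ≠ 1 ∧
          ∀ (H : Type) (hH : Group H) (φ : E₂ →* H), Group.IsNilpotent H → φ g = 1 := by
  refine ⟨Pool.Agent.Helper642.C1.G, inferInstance, ?_, ?_⟩
  · intro E hE f hf hc g hg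
    by_cases hfg : f g = 1
    · exact Pool.Agent.Helper642.C1.detectKer E f hf hc g hg hfg
    · obtain ⟨H, hH, φ, hN, hφ⟩ := Pool.Agent.Helper642.C1.detectG (f g) hfg
      exact ⟨H, hH, φ.comp f, hN, hφ⟩
  · obtain ⟨f₁, h1, h2⟩ := Pool.Agent.Helper642.Pres.ext1
    obtain ⟨f₂, h3, h4⟩ := Pool.Agent.Helper642.Pres.ext2
    refine ⟨_, inferInstance, f₁, _, inferInstance, f₂, h1, h2, h3, h4,
      PresentedGroup.mk Pool.Agent.Helper642.Pres.R2 (Pool.Agent.Helper642.Pres.b 0),
      Pool.Agent.Helper642.ModelM.b0_ne, ?_⟩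
    intro H hH φ hN
    exact Pool.Agent.Helper642.Pres.killed H φ

end Pool.Agent.S02011
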