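import Pool.Statements.S02015
import Pool.Agent.Helper122.Cohop.Final

set_option autoImplicit false
open Pool Pool.MP_ca6812_al

namespace Pool.Agent.S02015

open Pool.Agent.Helper122

theorem crdc_rot {α : Type} {A B : List (α × Bool)} (h : CRdc (A ++ B)) : CRdc (B ++ A) := by
  intro C D hCD
  rcases List.append_eq_append_iff.1 hCD with ⟨E, hE1, hE2⟩ | ⟨E, hE1, hE2⟩
  · -- C = B ++ E, A = E ++ D
    have := h E (D ++ B) (by rw [hE2]; simp)
    rw [hE1]
    simpa using this
  · -- B = C ++ E, D = E ++ A
    have := h (A ++ C) E (by rw [hE1]; simp)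
    rw [hE2]
    simpa using this

/-- For every one-relator group on finitely many generators that has a nontrivial element of finite order and is not a free product of two nontrivial groups, every injective endomorphism is surjective. -/
theorem result :
    ∀ (k : ℕ) (w : FreeGroup (Fin k)),
      (∃ g : PresentedGroup ({w} : Set (FreeGroup (Fin k))), g ≠ 1 ∧ IsOfFinOrder g) →
      (∀ (A B : Type) [Group A] [Group B], Nontrivial A → Nontrivial B →
        IsEmpty (PresentedGroup ({w} : Set (FreeGroup (Fin k))) ≃* Monoid.Coprod A B)) →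
      ∀ f : PresentedGroup ({w} : Set (FreeGroup (Fin k))) →*
          PresentedGroup ({w} : Set (FreeGroup (Fin k))),
        Function.Injective f → Function.Surjective f := by
  intro k w htor hI f hf
  by_cases hfin : Finite (PresentedGroup ({w} : Set (FreeGroup (Fin k))))
  · exact Finite.surjective_of_injective hf
  obtain ⟨s, n, hn, hw, hs⟩ := power_of_torsion w htor
  obtain ⟨R0, hR0, hconj0⟩ := exists_crdc s
  have hs0 : NotPow (FreeGroup.mk R0) := hs.conj hconj0
  have hR0ne : R0 ≠ [] := by
    rintro rfl
    exact hs0.ne_one rfl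
  obtain ⟨A, B, hAB, hst⟩ := exists_stack R0 hR0 hR0ne hs0
  obtain ⟨R, hRdef⟩ : ∃ R, R = B ++ A := ⟨_, rfl⟩
  rw [← hRdef] at hst
  have hR : CRdc R := by
    rw [hRdef]; apply crdc_rot; rw [← hAB]; exact hR0
  have hRne : R ≠ [] := by
    intro h
    apply hR0ne
    rw [h] at hRdef
    have h5 : B = [] ∧ A = [] := by simpa using hRdef.symm
    rw [hAB, h5.1, h5.2]; rfl
  have hconj1 : IsConj (FreeGroup.mk R) (FreeGroup.mk R0) := by
    rw [isConj_iff]
    refine ⟨FreeGroup.mk A, ?_⟩
    rw [hRdef, hAB, mk_app, mk_app]
    group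
  have hconj : IsConj (FreeGroup.mk (rpow R n)) w := by
    obtain ⟨c, hc⟩ := isConj_iff.1 (hconj1.trans hconj0)
    rw [isConj_iff]
    refine ⟨c, ?_⟩
    rw [mk_rpow, hw, ← hc, conj_pow]
  have hker : (PresentedGroup.mk ({w} : Set (FreeGroup (Fin k)))).ker =
      Subgroup.normalClosure {FreeGroup.mk (rpow R n)} := by
    rw [pres_ker, normalClosure_conj hconj]
  refine cohopf_main k (fun i => PresentedGroup.of i) ?_ (PresentedGroup.mk _)
    (PresentedGroup.mk_surjective _) R hR hRne hst n hn hker hI ?_ f hf
  · exact PresentedGroup.closure_range_of _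
  · intro m
    constructor
    intro e
    rcases Nat.eq_zero_or_pos m with rfl | hm
    · obtain ⟨g, hg, hgfin⟩ := htor
      have h1 : IsOfFinOrder (e g) := e.toMonoidHom.isOfFinOrder hgfin
      rw [isOfFinOrder_iff_pow_eq_one] at h1
      obtain ⟨j, hj, h2⟩ := h1
      have h3 : (j : ℤ) * (Multiplicative.toAdd (e g) : ℤ) = 0 := by
        have h4 := congrArg Multiplicative.toAdd h2
        rw [toAdd_pow, toAdd_one] at h4
        rw [nsmul_eq_mul] at h4
        exact h4
      have h5 : (Multiplicative.toAdd (e g) : ℤ) = 0 := by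
        rcases mul_eq_zero.1 h3 with h | h
        · exfalso
          have : j = 0 := by exact_mod_cast h
          omega
        · exact h
      apply hg
      apply e.injective
      rw [map_one]
      exact h5
    · have : NeZero m := ⟨by omega⟩
      apply hfin
      have : Finite (Multiplicative (ZMod m)) := (inferInstance : Finite (ZMod m))
      exact Finite.of_equiv _ e.toEquiv.symm

end Pool.Agent.S02015
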