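import Pool.Statements.S02020
-- import your own Pool.Agent.* helpers here

set_option autoImplicit false
open Pool Pool.MP_cacfbf_al

namespace Pool.Agent.S02020

/-! Counterexample: `p = 3`, `L = gl_3(F_3)` with `x^[3] = x^3`.  Inside `u(L)` there is a copy
`R` of `M_2(F_3) × F_3` (as a unital subalgebra), and `n(R) = 2` is not a power of `3`. -/

section standard

open Equiv

theorem sum_perm_succ {n : ℕ} {M : Type} [AddCommMonoid M] (g : Perm (Fin (n+1)) → M) :
    ∑ σ, g σ = ∑ i : Fin (n+1), ∑ τ : Perm (Fin n), g (Perm.decomposeFin.symm (i, τ)) := by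
  rw [← (Equiv.Perm.decomposeFin.symm).sum_comp, Fintype.sum_prod_type]

theorem sum_perm_zero {M : Type} [AddCommMonoid M] (g : Perm (Fin 0) → M) :
    ∑ σ, g σ = g 1 := by
  rw [Fintype.sum_eq_single]
  intro x hx
  exact absurd (Subsingleton.elim _ _) hx

theorem std2 {A : Type} [Ring A] (x : Fin 2 → A) :
    (∑ σ : Equiv.Perm (Fin 2), ((Equiv.Perm.sign σ : ℤˣ) : ℤ) • (List.ofFn fun i => x (σ i)).prod)
      = x 0 * x 1 - x 1 * x 0 := by
  simp only [sum_perm_succ, sum_perm_zero]
  simp [Fin.sum_univ_succ, List.ofFn_succ, Equiv.swap_apply_def]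
  abel

/-- the standard polynomial of degree four, written out -/
def S4 {A : Type} [Ring A] (a b c d : A) : A :=
  (a * (b * (c * d)) - a * (b * (d * c)) - a * (c * (b * d)) + a * (c * (d * b))
    - a * (d * (c * b)) + a * (d * (b * c)))
  - (b * (a * (c * d)) - b * (a * (d * c)) - b * (c * (a * d)) + b * (c * (d * a))
    - b * (d * (c * a)) + b * (d * (a * c)))
  + (c * (a * (b * d)) - c * (a * (d * b)) - c * (b * (a * d)) + c * (b * (d * a))
    - c * (d * (b * a)) + c * (d * (a * b)))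
  - (d * (a * (b * c)) - d * (a * (c * b)) - d * (b * (a * c)) + d * (b * (c * a))
    - d * (c * (b * a)) + d * (c * (a * b)))

open Equiv.Perm in
theorem std4 {A : Type} [Ring A] (x : Fin 4 → A) :
    (∑ σ : Equiv.Perm (Fin 4), ((Equiv.Perm.sign σ : ℤˣ) : ℤ) • (List.ofFn fun i => x (σ i)).prod)
      = S4 (x 0) (x 1) (x 2) (x 3) := by
  simp only [sum_perm_succ, sum_perm_zero]
  simp only [decomposeFin.symm_sign, List.ofFn_succ, List.ofFn_zero, decomposeFin_symm_apply_zero,
    decomposeFin_symm_apply_succ, List.prod_cons, List.prod_nil, mul_one, Equiv.Perm.sign_one]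
  simp only [Fin.sum_univ_succ, Fin.sum_univ_zero, add_zero, Fin.reduceSucc, Fin.isValue,
    Fin.succ_ne_zero, if_true, if_false, one_mul]
  simp only [swap_self, refl_apply, Fin.reduceSucc, swap_apply_right,
    swap_apply_def, Fin.reduceEq, if_false, Fin.isValue]
  simp only [Units.val_neg, Units.val_one, one_smul, neg_smul, neg_mul, one_mul, neg_neg, mul_one]
  unfold S4
  abel

theorem S4_comm {A : Type} [CommRing A] (a b c d : A) : S4 a b c d = 0 := by
  unfold S4; ring

theorem S4_mat {A : Type} [CommRing A] (a b c d : Matrix (Fin 2) (Fin 2) A) : S4 a b c d = 0 := by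
  ext i j
  fin_cases i <;> fin_cases j <;> simp [S4, Matrix.mul_apply, Fin.sum_univ_two] <;> ring

theorem S4_map {A B : Type} [Ring A] [Ring B] (f : A →+* B) (a b c d : A) :
    f (S4 a b c d) = S4 (f a) (f b) (f c) (f d) := by
  simp only [S4, map_sub, map_add, map_mul]

theorem S4_prod (a b c d : Matrix (Fin 2) (Fin 2) (ZMod 3) × ZMod 3) : S4 a b c d = 0 := by
  apply Prod.ext
  · exact (S4_map (RingHom.fst _ _) a b c d).trans (S4_mat _ _ _ _)
  · exact (S4_map (RingHom.snd _ _) a b c d).trans (S4_comm _ _ _ _)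

end standard

section units

/-- The algebra map `M_2(F_3) × F_3 → A` given by a system of `2 × 2` matrix units. -/
def unitsHom {A : Type} [Ring A] [Algebra (ZMod 3) A] (a b c d : A)
    (haa : a * a = a) (hab : a * b = b) (hac : a * c = 0) (had : a * d = 0)
    (hba : b * a = 0) (hbb : b * b = 0) (hbc : b * c = a) (hbd : b * d = b)
    (hca : c * a = c) (hcb : c * b = d) (hcc : c * c = 0) (hcd : c * d = 0)
    (hda : d * a = 0) (hdb : d * b = 0) (hdc : d * c = c) (hdd : d * d = d) :
    Matrix (Fin 2) (Fin 2) (ZMod 3) × ZMod 3 →ₐ[ZMod 3] A :=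
  AlgHom.ofLinearMap
    { toFun := fun m => m.1 0 0 • a + m.1 0 1 • b + m.1 1 0 • c + m.1 1 1 • d
        + m.2 • (1 - a - d)
      map_add' := by
        intro m n
        simp only [Prod.fst_add, Prod.snd_add, Matrix.add_apply, add_smul]
        abel
      map_smul' := by
        intro r m
        simp only [Prod.smul_fst, Prod.smul_snd, Matrix.smul_apply, smul_eq_mul, mul_smul,
          RingHom.id_apply, smul_add] }
    (by simp)
    (by
      intro m n
      simp only [LinearMap.coe_mk, AddHom.coe_mk, Prod.fst_mul, Prod.snd_mul, Matrix.mul_apply,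
        Fin.sum_univ_two]
      have q1 : a * (1 - a - d) = 0 := by rw [mul_sub, mul_sub, mul_one, haa, had]; simp
      have q2 : b * (1 - a - d) = 0 := by rw [mul_sub, mul_sub, mul_one, hba, hbd]; simp
      have q3 : c * (1 - a - d) = 0 := by rw [mul_sub, mul_sub, mul_one, hca, hcd]; simp
      have q4 : d * (1 - a - d) = 0 := by rw [mul_sub, mul_sub, mul_one, hda, hdd]; simp
      have r1 : (1 - a - d) * a = 0 := by rw [sub_mul, sub_mul, one_mul, haa, hda]; simp
      have r2 : (1 - a - d) * b = 0 := by rw [sub_mul, sub_mul, one_mul, hab, hdb]; simp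
      have r3 : (1 - a - d) * c = 0 := by rw [sub_mul, sub_mul, one_mul, hac, hdc]; simp
      have r4 : (1 - a - d) * d = 0 := by rw [sub_mul, sub_mul, one_mul, had, hdd]; simp
      have q5 : (1 - a - d) * (1 - a - d) = 1 - a - d := by
        rw [mul_sub, mul_sub, r1, r4, mul_one]; simp
      generalize (1 - a - d) = q at *
      simp only [add_mul, mul_add, smul_mul_smul_comm, haa, hab, hac, had, hba, hbb, hbc, hbd, hca,
        hcb, hcc, hcd, hda, hdb, hdc, hdd, q1, q2, q3, q4, r1, r2, r3, r4, q5, smul_zero, add_zero,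
        zero_add, add_smul]
      abel)

end units

section lie

attribute [local instance 100] LieRing.ofAssociativeRing

/-- The Lie algebra `gl_3(F_3)`. -/
abbrev L : Type := Matrix (Fin 3) (Fin 3) (ZMod 3)

abbrev U : Type := UniversalEnvelopingAlgebra (ZMod 3) L

noncomputable abbrev io : L →ₗ⁅ZMod 3⁆ U := UniversalEnvelopingAlgebra.ι (ZMod 3)

/-- the `3`-map of `gl_3(F_3)` -/
def f : L → L := fun x => x ^ 3

theorem three_zero (A : Type) [Ring A] [Algebra (ZMod 3) A] : (3 : A) = 0 := by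
  have h : (3 : ZMod 3) = 0 := by decide
  have h2 : (3 : A) = algebraMap (ZMod 3) A 3 := (map_ofNat (algebraMap (ZMod 3) A) 3).symm
  rw [h2, h, map_zero]

/-- Jacobson's formula in characteristic three -/
theorem cube_add {A : Type} [Ring A] [Algebra (ZMod 3) A] (x y : A) :
    (x + y) ^ 3 = x ^ 3 + y ^ 3 + (x * (x * y - y * x) - (x * y - y * x) * x)
      + (y * (y * x - x * y) - (y * x - x * y) * y) := by
  have h : (x + y) ^ 3 = x ^ 3 + y ^ 3 + (x * (x * y - y * x) - (x * y - y * x) * x)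
      + (y * (y * x - x * y) - (y * x - x * y) * y) + 3 * (x * y * x + y * x * y) := by
    noncomm_ring
  rw [h, three_zero, zero_mul, add_zero]

theorem cube_ad {A : Type} [Ring A] [Algebra (ZMod 3) A] (x y : A) :
    x ^ 3 * y - y * x ^ 3 = x * (x * (x * y - y * x) - (x * y - y * x) * x)
      - (x * (x * y - y * x) - (x * y - y * x) * x) * x := by
  have h : x ^ 3 * y - y * x ^ 3 = x * (x * (x * y - y * x) - (x * y - y * x) * x)
      - (x * (x * y - y * x) - (x * y - y * x) * x) * x + 3 * (x * x * y * x - x * y * x * x) := by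
    noncomm_ring
  rw [h, three_zero, zero_mul, add_zero]

theorem io_lie (x y : L) : io (x * y - y * x) = io x * io y - io y * io x := by
  have h := LieHom.map_lie io x y
  rw [LieRing.of_associative_ring_bracket, LieRing.of_associative_ring_bracket] at h
  exact h

theorem cond1 (x y : L) :
    (io (x + y)) ^ 3 - io (f (x + y)) = ((io x) ^ 3 - io (f x)) + ((io y) ^ 3 - io (f y)) := by
  unfold f
  rw [map_add, cube_add (io x), cube_add x y, map_add, map_add, map_add, io_lie, io_lie, io_lie,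
    io_lie]
  abel

theorem cond2 (a : ZMod 3) (x : L) :
    (io (a • x)) ^ 3 - io (f (a • x)) = a ^ 3 • ((io x) ^ 3 - io (f x)) := by
  unfold f
  rw [map_smul, smul_pow, smul_pow, map_smul, smul_sub]

theorem cond3 (x y : L) : Commute ((io x) ^ 3 - io (f x)) (io y) := by
  have h1 := cube_ad (io x) (io y)
  have h2 : io (x ^ 3) * io y - io y * io (x ^ 3) =
      io x * (io x * (io x * io y - io y * io x) - (io x * io y - io y * io x) * io x)
      - (io x * (io x * io y - io y * io x) - (io x * io y - io y * io x) * io x) * io x := by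
    rw [← io_lie (x ^ 3) y, cube_ad x y, io_lie, io_lie, io_lie]
  have h3 : io x ^ 3 * io y - io y * io x ^ 3 = io (x ^ 3) * io y - io y * io (x ^ 3) :=
    h1.trans h2.symm
  show (io x ^ 3 - io (x ^ 3)) * io y = io y * (io x ^ 3 - io (x ^ 3))
  rw [sub_mul, mul_sub, sub_eq_sub_iff_sub_eq_sub]
  exact h3

/-- the defining relation of the restricted enveloping algebra -/
abbrev rel : U → U → Prop :=
  fun a b => ∃ x : L, a = (UniversalEnvelopingAlgebra.ι (ZMod 3) x) ^ 3 ∧
    b = UniversalEnvelopingAlgebra.ι (ZMod 3) (f x)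

/-- the restricted enveloping algebra -/
abbrev u : Type := RingQuot rel

/-- the canonical map `L → u(L)` -/
noncomputable def j (x : L) : u := RingQuot.mkAlgHom (ZMod 3) rel (io x)

theorem j_cube (x : L) : j x ^ 3 = j (x ^ 3) := by
  have h : RingQuot.mkAlgHom (ZMod 3) rel ((io x) ^ 3)
      = RingQuot.mkAlgHom (ZMod 3) rel (io (f x)) :=
    RingQuot.mkAlgHom_rel (ZMod 3) ⟨x, rfl, rfl⟩
  rw [map_pow] at h
  exact h

theorem j_lie (x y : L) : j x * j y - j y * j x = j (x * y - y * x) := by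
  unfold j
  rw [io_lie, map_sub, map_mul, map_mul]

theorem j_zero : j 0 = 0 := by
  unfold j
  rw [map_zero, map_zero]

/-- the representation `u(L) → M_3(F_3)` -/
theorem exists_pi : ∃ π : u →ₐ[ZMod 3] L, ∀ x, π (j x) = x := by
  let φ : U →ₐ[ZMod 3] L := UniversalEnvelopingAlgebra.lift (ZMod 3) (LieHom.id : L →ₗ⁅ZMod 3⁆ L)
  have hφ : ∀ x : L, φ (io x) = x := by
    intro x
    exact UniversalEnvelopingAlgebra.lift_ι_apply (ZMod 3) (LieHom.id : L →ₗ⁅ZMod 3⁆ L) x
  have hrel : ∀ ⦃a b : U⦄, rel a b → φ a = φ b := by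
    rintro a b ⟨x, rfl, rfl⟩
    have h1 := hφ x
    have h2 := hφ (f x)
    rw [map_pow]
    exact (congrArg (· ^ 3) h1).trans h2.symm
  refine ⟨RingQuot.liftAlgHom (ZMod 3) ⟨φ, hrel⟩, ?_⟩
  intro x
  exact (RingQuot.liftAlgHom_mkAlgHom_apply (ZMod 3) φ hrel _).trans (hφ x)

/-- the diagonal matrix `diag(0,1,2)` -/
def hh : L := !![0, 0, 0; 0, 1, 0; 0, 0, 2]
/-- the cyclic permutation matrix -/
def xx : L := !![0, 0, 1; 1, 0, 0; 0, 1, 0]

noncomputable def H : u := j hh
noncomputable def X : u := j xx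
noncomputable def C : u := j 1

theorem H3 : H * H * H = H := by
  have h := j_cube hh
  have h2 : hh ^ 3 = hh := by decide
  rw [h2] at h
  have h3 : H ^ 3 = H * H * H := by noncomm_ring
  rw [← h3]
  exact h

theorem X3 : X * X * X = C := by
  have h := j_cube xx
  have h2 : xx ^ 3 = 1 := by decide
  rw [h2] at h
  have h3 : X ^ 3 = X * X * X := by noncomm_ring
  rw [← h3]
  exact h

theorem C3 : C * C * C = C := by
  have h := j_cube 1
  rw [one_pow] at h
  have h3 : C ^ 3 = C * C * C := by noncomm_ring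
  rw [← h3]
  exact h

theorem HX : H * X = X * H + X := by
  have h := j_lie hh xx
  have h2 : hh * xx - xx * hh = xx := by decide
  rw [h2] at h
  exact (sub_eq_iff_eq_add.1 h).trans (add_comm _ _)

theorem C_comm (x : L) : C * j x = j x * C := by
  have h := j_lie 1 x
  rw [one_mul, mul_one, sub_self, j_zero] at h
  exact sub_eq_zero.1 h

theorem CH : C * H = H * C := C_comm _
theorem CX : C * X = X * C := C_comm _

end lie

section abstractunits

theorem ee_idem {A : Type} [Ring A] [Algebra (ZMod 3) A] {C : A} (hC : C * C * C = C) :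
    (-(C * C + C)) * (-(C * C + C)) = -(C * C + C) := by
  have h3 := three_zero A
  have h : (-(C * C + C)) * (-(C * C + C))
      = -(C * C + C) + (C * C * C - C) * (C + 2) + 3 * (C * C + C) := by
    noncomm_ring
  rw [h, hC, h3]; simp

theorem C_ee {A : Type} [Ring A] {C : A} (hC : C * C * C = C) :
    C * (-(C * C + C)) = -(C * C + C) := by
  have h : C * (-(C * C + C)) = -(C * C + C) - (C * C * C - C) := by noncomm_ring
  rw [h, hC]; simp

theorem q0_idem {A : Type} [Ring A] {H : A} (hH : H * H * H = H) :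
    (1 - H * H) * (1 - H * H) = 1 - H * H := by
  have h : (1 - H * H) * (1 - H * H) = 1 - H * H + (H * H * H - H) * H := by noncomm_ring
  rw [h, hH]; simp

theorem q1_idem {A : Type} [Ring A] [Algebra (ZMod 3) A] {H : A} (hH : H * H * H = H) :
    (-(H * H + H)) * (-(H * H + H)) = -(H * H + H) := ee_idem hH

theorem q0_q1 {A : Type} [Ring A] {H : A} (hH : H * H * H = H) :
    (1 - H * H) * (-(H * H + H)) = 0 := by
  have h : (1 - H * H) * (-(H * H + H)) = (H * H * H - H) * (H + 1) := by noncomm_ring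
  rw [h, hH]; simp

theorem q1_q0 {A : Type} [Ring A] {H : A} (hH : H * H * H = H) :
    (-(H * H + H)) * (1 - H * H) = 0 := by
  have h : (-(H * H + H)) * (1 - H * H) = (H * H * H - H) * (H + 1) := by noncomm_ring
  rw [h, hH]; simp

theorem q1_X {A : Type} [Ring A] [Algebra (ZMod 3) A] {H X : A} (hHX : H * X = X * H + X) :
    (-(H * H + H)) * X = X * (1 - H * H) := by
  have h3 := three_zero A
  have h : (-(H * H + H)) * X = X * (1 - H * H) - (H * (H * X - (X * H + X))
      + (H * X - (X * H + X)) * H + 2 * (H * X - (X * H + X))) - 3 * (X * H + X) := by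
    noncomm_ring
  rw [h, hHX, h3]; simp

theorem q0_X_X {A : Type} [Ring A] [Algebra (ZMod 3) A] {H X : A} (hHX : H * X = X * H + X) :
    (1 - H * H) * (X * X) = X * X * (-(H * H + H)) := by
  have h3 := three_zero A
  have h1 : H * (X * X) = X * X * H + 2 * (X * X) := by
    rw [← mul_assoc, hHX, add_mul, mul_assoc X H X, hHX]
    noncomm_ring
  have h : (1 - H * H) * (X * X) = X * X * (-(H * H + H)) 
      - (H * (H * (X * X) - (X * X * H + 2 * (X * X)))
      + (H * (X * X) - (X * X * H + 2 * (X * X))) * H + 2 * (H * (X * X) - (X * X * H + 2 * (X * X))))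
      - 3 * (X * X * H + X * X) := by
    noncomm_ring
  rw [h, h1, h3]; simp

/-- a system of matrix units and the resulting algebra map -/
theorem exists_hom {A : Type} [Ring A] [Algebra (ZMod 3) A] (q0 q1 X E : A)
    (h00 : q0 * q0 = q0) (h11 : q1 * q1 = q1) (h01 : q0 * q1 = 0) (h10 : q1 * q0 = 0)
    (h1X : q1 * X = X * q0) (h0XX : q0 * (X * X) = X * X * q1)
    (hE0 : E * q0 = q0 * E) (hE1 : E * q1 = q1 * E) (hEX : E * X = X * E) (hEE : E * E = E)
    (hX3 : X * (X * X) * E = E) :
    ∃ ψ : Matrix (Fin 2) (Fin 2) (ZMod 3) × ZMod 3 →ₐ[ZMod 3] A,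
      ψ (!![0, 1; 0, 0], 0) = X * X * q1 * E ∧ ψ (!![0, 0; 1, 0], 0) = X * q0 * E := by
  have hEXX : E * (X * X) = X * X * E := by rw [← mul_assoc, hEX, mul_assoc, hEX, mul_assoc]
  -- a generic rule: `E` can be moved to the right
  have m0 : ∀ y z : A, E * y = y * E → (z * E) * (y * E) = z * y * E := by
    intro y z h
    rw [mul_assoc, ← mul_assoc E y E, h, mul_assoc y E E, hEE, ← mul_assoc]
  have eq0 : E * q0 = q0 * E := hE0
  have eq1 : E * q1 = q1 * E := hE1
  have eX0 : E * (X * q0) = X * q0 * E := by rw [← mul_assoc, hEX, mul_assoc, hE0, mul_assoc]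
  have eX1 : E * (X * X * q1) = X * X * q1 * E := by
    rw [← mul_assoc, hEXX, mul_assoc, hE1, mul_assoc (X * X) q1 E]
  have k1 : X * (X * X) * q0 = q0 * (X * (X * X)) := by
    calc X * (X * X) * q0 = X * X * (X * q0) := by simp only [mul_assoc]
      _ = X * X * (q1 * X) := by rw [h1X]
      _ = (X * X * q1) * X := by simp only [mul_assoc]
      _ = q0 * (X * X) * X := by rw [h0XX]
      _ = q0 * (X * (X * X)) := by simp only [mul_assoc]
  have k2 : X * (X * X) * q1 = q1 * (X * (X * X)) := by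
    calc X * (X * X) * q1 = X * (X * X * q1) := by simp only [mul_assoc]
      _ = X * (q0 * (X * X)) := by rw [h0XX]
      _ = (X * q0) * (X * X) := by simp only [mul_assoc]
      _ = q1 * X * (X * X) := by rw [h1X]
      _ = q1 * (X * (X * X)) := by simp only [mul_assoc]
  refine ⟨unitsHom (q0 * E) (X * X * q1 * E) (X * q0 * E) (q1 * E) ?_ ?_ ?_ ?_ ?_ ?_ ?_ ?_ ?_ ?_
    ?_ ?_ ?_ ?_ ?_ ?_, ?_, ?_⟩
  · rw [m0 _ _ eq0, h00]
  · rw [m0 _ _ eX1, ← mul_assoc q0, h0XX, mul_assoc (X * X), h11]
  · rw [m0 _ _ eX0, ← h1X, ← mul_assoc, h01, zero_mul, zero_mul]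
  · rw [m0 _ _ eq1, h01, zero_mul]
  · rw [m0 _ _ eq0, mul_assoc (X * X), h10, mul_zero, zero_mul]
  · rw [m0 _ _ eX1]
    have : X * X * q1 * (X * X * q1) = 0 := by
      calc X * X * q1 * (X * X * q1) = X * X * q1 * (q0 * (X * X)) := by rw [h0XX]
        _ = X * X * (q1 * q0) * (X * X) := by simp only [mul_assoc]
        _ = 0 := by rw [h10, mul_zero, zero_mul]
    rw [this, zero_mul]
  · rw [m0 _ _ eX0]
    have : X * X * q1 * (X * q0) = q0 * (X * (X * X)) := by
      calc X * X * q1 * (X * q0) = X * X * q1 * (q1 * X) := by rw [h1X]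
        _ = X * X * (q1 * q1) * X := by simp only [mul_assoc]
        _ = X * X * (q1 * X) := by rw [h11]; simp only [mul_assoc]
        _ = X * X * (X * q0) := by rw [h1X]
        _ = X * (X * X) * q0 := by simp only [mul_assoc]
        _ = q0 * (X * (X * X)) := k1
    rw [this, mul_assoc, hX3]
  · rw [m0 _ _ eq1, mul_assoc (X * X), h11]
  · rw [m0 _ _ eq0, mul_assoc X, h00]
  · rw [m0 _ _ eX1]
    have : X * q0 * (X * X * q1) = q1 * (X * (X * X)) := by
      calc X * q0 * (X * X * q1) = X * q0 * (q0 * (X * X)) := by rw [h0XX]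
        _ = X * (q0 * q0) * (X * X) := by simp only [mul_assoc]
        _ = X * (q0 * (X * X)) := by rw [h00]; simp only [mul_assoc]
        _ = X * (X * X * q1) := by rw [h0XX]
        _ = X * (X * X) * q1 := by simp only [mul_assoc]
        _ = q1 * (X * (X * X)) := k2
    rw [this, mul_assoc, hX3]
  · rw [m0 _ _ eX0]
    have : X * q0 * (X * q0) = 0 := by
      calc X * q0 * (X * q0) = X * q0 * (q1 * X) := by rw [h1X]
        _ = X * (q0 * q1) * X := by simp only [mul_assoc]
        _ = 0 := by rw [h01, mul_zero, zero_mul]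
    rw [this, zero_mul]
  · rw [m0 _ _ eq1, mul_assoc X, h01, mul_zero, zero_mul]
  · rw [m0 _ _ eq0, h10, zero_mul]
  · rw [m0 _ _ eX1, ← h0XX, ← mul_assoc, h10, zero_mul, zero_mul]
  · rw [m0 _ _ eX0, ← mul_assoc q1, h1X, mul_assoc X, h00]
  · rw [m0 _ _ eq1, h11]
  · simp [unitsHom]
  · simp [unitsHom]

end abstractunits

section final

attribute [local instance 100] LieRing.ofAssociativeRing

/-- the central idempotent -/
noncomputable def E : u := -(C * C + C)

theorem E_comm (x : L) : E * j x = j x * E := by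
  have h : E * j x = j x * E - (C * (C * j x - j x * C) + (C * j x - j x * C) * C
      + (C * j x - j x * C)) := by
    unfold E; noncomm_ring
  rw [h, C_comm]; simp

theorem exists_psi : ∃ ψ : Matrix (Fin 2) (Fin 2) (ZMod 3) × ZMod 3 →ₐ[ZMod 3] u,
    ψ (!![0, 1; 0, 0], 0) = X * X * (-(H * H + H)) * E ∧
    ψ (!![0, 0; 1, 0], 0) = X * (1 - H * H) * E := by
  have hEH : E * H = H * E := E_comm hh
  have hEX : E * X = X * E := E_comm xx
  have hEHH : E * (H * H) = H * H * E := by rw [← mul_assoc, hEH, mul_assoc, hEH, mul_assoc]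
  refine exists_hom (1 - H * H) (-(H * H + H)) X E (q0_idem H3) (q1_idem H3) (q0_q1 H3) (q1_q0 H3)
    (q1_X HX) (q0_X_X HX) ?_ ?_ hEX (ee_idem C3) ?_
  · rw [mul_sub, sub_mul, hEHH, mul_one, one_mul]
  · rw [mul_neg, neg_mul, mul_add, add_mul, hEHH, hEH]
  · rw [← mul_assoc, X3]
    exact C_ee C3

theorem S4_ne : (S4 (FreeAlgebra.ι (ZMod 3) (0 : Fin 4)) (FreeAlgebra.ι (ZMod 3) 1)
    (FreeAlgebra.ι (ZMod 3) 2) (FreeAlgebra.ι (ZMod 3) 3) : FreeAlgebra (ZMod 3) (Fin 4)) ≠ 0 := by
  intro h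
  let v : Fin 4 → L := ![!![1, 0, 0; 0, 0, 0; 0, 0, 0], !![0, 1, 0; 0, 0, 0; 0, 0, 0],
    !![0, 0, 0; 0, 1, 0; 0, 0, 0], !![0, 0, 0; 0, 0, 1; 0, 0, 0]]
  have h1 := congrArg (FreeAlgebra.lift (ZMod 3) v) h
  have h2 := S4_map (FreeAlgebra.lift (ZMod 3) v).toRingHom
    (FreeAlgebra.ι (ZMod 3) (0 : Fin 4)) (FreeAlgebra.ι (ZMod 3) 1)
    (FreeAlgebra.ι (ZMod 3) 2) (FreeAlgebra.ι (ZMod 3) 3)
  have h3 : S4 (v 0) (v 1) (v 2) (v 3) = 0 := by
    have h4 : S4 (v 0) (v 1) (v 2) (v 3) = FreeAlgebra.lift (ZMod 3) v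
      (S4 (FreeAlgebra.ι (ZMod 3) (0 : Fin 4)) (FreeAlgebra.ι (ZMod 3) 1)
        (FreeAlgebra.ι (ZMod 3) 2) (FreeAlgebra.ι (ZMod 3) 3)) := by
      refine Eq.trans ?_ h2.symm
      simp
    rw [h4, h1, map_zero]
  have h5 : S4 (v 0) (v 1) (v 2) (v 3) ≠ 0 := by decide
  exact h5 h3

theorem diag_pow_ne (m : ℕ) : (!![1, 0, 0; 0, -1, 0; 0, 0, 0] : L) ^ m ≠ 0 := by
  have h : ((!![1, 0, 0; 0, -1, 0; 0, 0, 0] : L) ^ m) 0 0 = 1 := by
    induction m with
    | zero => simp
    | succ m ih =>
      rw [pow_succ', Matrix.mul_apply, Fin.sum_univ_three, ih]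
      simp
  intro h0
  rw [h0] at h
  exact zero_ne_one h

end final

/-- The negation of the preceding statement: For any restricted Lie algebra L over a field of characteristic p and any PI subalgebra R of its restricted enveloping algebra, the least n such that some power of the standard polynomial S_{2n} vanishes identically on R is a power of p. -/
theorem result :
    ¬ (∀ (p : ℕ), p.Prime → ∀ (F : Type) [Field F] [CharP F p]
      (L : Type) [LieRing L] [LieAlgebra F L] (f : L → L),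
      (∀ x y : L,
        (UniversalEnvelopingAlgebra.ι F (x + y)) ^ p - UniversalEnvelopingAlgebra.ι F (f (x + y)) =
          ((UniversalEnvelopingAlgebra.ι F x) ^ p - UniversalEnvelopingAlgebra.ι F (f x)) +
          ((UniversalEnvelopingAlgebra.ι F y) ^ p - UniversalEnvelopingAlgebra.ι F (f y))) →
      (∀ (a : F) (x : L),
        (UniversalEnvelopingAlgebra.ι F (a • x)) ^ p - UniversalEnvelopingAlgebra.ι F (f (a • x)) =
          a ^ p • ((UniversalEnvelopingAlgebra.ι F x) ^ p - UniversalEnvelopingAlgebra.ι F (f x))) →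
      (∀ x y : L,
        Commute ((UniversalEnvelopingAlgebra.ι F x) ^ p - UniversalEnvelopingAlgebra.ι F (f x))
          (UniversalEnvelopingAlgebra.ι F y)) →
      ∀ R : Subalgebra F (RingQuot (fun a b : UniversalEnvelopingAlgebra F L =>
          ∃ x : L, a = (UniversalEnvelopingAlgebra.ι F x) ^ p ∧ b = UniversalEnvelopingAlgebra.ι F (f x))),
      (∃ k : ℕ, ∃ φ : FreeAlgebra F (Fin k), φ ≠ 0 ∧
          ∀ x : Fin k → R, FreeAlgebra.lift F x φ = 0) →
      ∀ n : ℕ,
        (∃ m : ℕ, 1 ≤ m ∧ ∀ x : Fin (2 * n) → R,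
          (∑ σ : Equiv.Perm (Fin (2 * n)),
            ((Equiv.Perm.sign σ : ℤˣ) : ℤ) • (List.ofFn fun i => x (σ i)).prod) ^ m = 0) →
        (∀ n' : ℕ, n' < n → ¬ ∃ m : ℕ, 1 ≤ m ∧ ∀ x : Fin (2 * n') → R,
          (∑ σ : Equiv.Perm (Fin (2 * n')),
            ((Equiv.Perm.sign σ : ℤˣ) : ℤ) • (List.ofFn fun i => x (σ i)).prod) ^ m = 0) →
        ∃ k : ℕ, n = p ^ k) := by
  intro Hyp
  obtain ⟨ψ, hψ1, hψ2⟩ := exists_psi
  obtain ⟨π, hπ⟩ := exists_pi
  have hS4 : ∀ a b c d : ψ.range, S4 a b c d = 0 := by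
    rintro ⟨_, a, rfl⟩ ⟨_, b, rfl⟩ ⟨_, c, rfl⟩ ⟨_, d, rfl⟩
    apply Subtype.ext
    refine (S4_map ψ.range.val.toRingHom _ _ _ _).trans ?_
    refine (S4_map ψ.toRingHom a b c d).symm.trans ?_
    rw [S4_prod, map_zero]
    rfl
  let _ : LieRing L := LieRing.ofAssociativeRing
  have key := Hyp 3 Nat.prime_three (ZMod 3) L f cond1 cond2 cond3 ψ.range
    ⟨4, _, S4_ne, by
      intro x
      have h2 := S4_map (FreeAlgebra.lift (ZMod 3) x).toRingHom
        (FreeAlgebra.ι (ZMod 3) (0 : Fin 4)) (FreeAlgebra.ι (ZMod 3) 1)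
        (FreeAlgebra.ι (ZMod 3) 2) (FreeAlgebra.ι (ZMod 3) 3)
      exact h2.trans (hS4 _ _ _ _)⟩ 2
    ⟨1, le_refl 1, by
      intro x
      rw [pow_one]
      exact (std4 x).trans (hS4 _ _ _ _)⟩
    (by
      intro n' hn'
      rintro ⟨m, hm, hx⟩
      have hn : n' = 0 ∨ n' = 1 := by omega
      rcases hn with rfl | rfl
      · have h0 := hx (fun i => 0)
        have h1 : (∑ σ : Equiv.Perm (Fin (2 * 0)), ((Equiv.Perm.sign σ : ℤˣ) : ℤ) •
            (List.ofFn fun i => (fun _ : Fin (2 * 0) => (0 : ψ.range)) (σ i)).prod) = 1 := by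
          refine (sum_perm_zero _).trans ?_
          simp
        rw [h1, one_pow] at h0
        have h2 : (1 : u) = 0 := congrArg Subtype.val h0
        have h3 := congrArg π h2
        rw [map_one, map_zero] at h3
        exact one_ne_zero h3
      · let y1 : ψ.range := ⟨_, (!![0, 1; 0, 0], 0), rfl⟩
        let y2 : ψ.range := ⟨_, (!![0, 0; 1, 0], 0), rfl⟩
        have h0 := hx ![y1, y2]
        have h1 : (∑ σ : Equiv.Perm (Fin (2 * 1)), ((Equiv.Perm.sign σ : ℤˣ) : ℤ) •
            (List.ofFn fun i => ![y1, y2] (σ i)).prod) = y1 * y2 - y2 * y1 := std2 ![y1, y2]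
        rw [h1] at h0
        have h2 := congrArg (fun z : ψ.range => π (z : u)) h0
        have h3 : π (((y1 * y2 - y2 * y1) ^ m : ψ.range) : u)
            = (!![1, 0, 0; 0, -1, 0; 0, 0, 0] : L) ^ m := by
          have e1 : ((y1 : ψ.range) : u) = X * X * (-(H * H + H)) * E := hψ1
          have e2 : ((y2 : ψ.range) : u) = X * (1 - H * H) * E := hψ2
          rw [SubmonoidClass.coe_pow, map_pow]
          congr 1
          rw [AddSubgroupClass.coe_sub, MulMemClass.coe_mul, MulMemClass.coe_mul, e1, e2]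
          simp only [map_sub, map_mul, map_neg, map_add, map_one, X, H, E, C, hπ]
          decide
        have h4 : π (((y1 * y2 - y2 * y1) ^ m : ψ.range) : u) = 0 := by
          rw [h2]
          exact map_zero π
        rw [h3] at h4
        exact diag_pow_ne m h4)
  obtain ⟨k, hk⟩ := key
  rcases k with _ | k
  · simp at hk
  · rw [pow_succ] at hk
    omega

end Pool.Agent.S02020
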