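import Pool.Statements.S02028
-- import your own Pool.Agent.* helpers here

set_option autoImplicit false
open Pool Pool.MP_cb8b78_al

namespace Pool.Agent.S02028

/-!
A counterexample: a finitely generated group `GG = NN ⋊ ℤ`, where `NN` is an infinite locally
finite group all of whose Sylow subgroups are finite.

Let `G₀ = ℤ/2 = ⟨a⟩`, `t = 1`, and let `G_{n+1}` be the regular wreath product of `ℤ/m_n` with
`G_n`, where all prime factors of `m_n = (n+2)! + 1` are larger than `n + 2`; put `a' = a` and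
`t' = 1_V t`, where `1_V` is the indicator function of the subgroup `V` of `G_n` generated by
`t^i a t^{-i}`, `1 ≤ i ≤ n`.  Then `t'^i a' t'^{-i} = t^i a t^{-i}` for `i ≤ n`, but not for
`i = n + 1`.  The group `GG` is generated by `a` and `t` in the product of all `G_n` and `ℤ`.
A finitely generated metabelian section of `GG` has a commutator subgroup which is abelian,
of bounded exponent and locally finite, hence finite, because for every `e` the orders of the
finite `e`-subgroups of `NN` are bounded; so the section is virtually nilpotent.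
-/

open RegularWreathProduct

/-- A finite group with two marked elements. -/
structure Stage where
  G : Type
  grp : Group G
  fin : Finite G
  a : G
  t : G

attribute [instance] Stage.grp Stage.fin

/-- The orders of the fibres: all prime factors of `mm n` are larger than `n + 2`. -/
def mm (n : ℕ) : ℕ := (n + 2).factorial + 1

instance (n : ℕ) : NeZero (mm n) := ⟨by unfold mm; omega⟩

/-- The conjugates `t ^ j a t ^ (-j)`. -/
def Stage.x (S : Stage) (j : ℕ) : S.G := S.t ^ j * S.a * (S.t ^ j)⁻¹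

/-- The subgroup generated by `x 1, ..., x n`. -/
def Stage.V (S : Stage) (n : ℕ) : Subgroup S.G :=
  Subgroup.closure {g | ∃ i, 1 ≤ i ∧ i ≤ n ∧ g = S.x i}

/-- The subgroup generated by `x 0, ..., x (n-1)`. -/
def Stage.U (S : Stage) (n : ℕ) : Subgroup S.G :=
  Subgroup.closure {g | ∃ i, i < n ∧ g = S.x i}

open Classical in
/-- The indicator function of `V n`. -/
noncomputable def Stage.ind (S : Stage) (n : ℕ) : S.G → Multiplicative (ZMod (mm n)) :=
  fun x => if x ∈ S.V n then Multiplicative.ofAdd 1 else 1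

/-- The next stage: the regular wreath product of `ℤ/mm n` with the group of the present stage. -/
noncomputable def next (n : ℕ) (S : Stage) : Stage where
  G := Multiplicative (ZMod (mm n)) ≀ᵣ S.G
  grp := inferInstance
  fin := inferInstance
  a := inl S.a
  t := ⟨S.ind n, S.t⟩

/-- The sequence of finite marked groups. -/
noncomputable def stage : ℕ → Stage
  | 0 => ⟨Multiplicative (ZMod 2), inferInstance, inferInstance, Multiplicative.ofAdd 1, 1⟩
  | n + 1 => next n (stage n)

section

variable (n : ℕ) (S : Stage)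

/-- inclusion -/
noncomputable def inc : S.G →* (next n S).G := (inl : S.G →* Multiplicative (ZMod (mm n)) ≀ᵣ S.G)

/-- projection -/
noncomputable def prj : (next n S).G →* S.G :=
  (rightHom : Multiplicative (ZMod (mm n)) ≀ᵣ S.G →* S.G)

/-- base element -/
noncomputable def ee : (next n S).G :=
  (⟨S.ind n, 1⟩ : Multiplicative (ZMod (mm n)) ≀ᵣ S.G)

theorem prj_inc (g : S.G) : prj n S (inc n S g) = g := rfl

theorem prj_ee : prj n S (ee n S) = 1 := rfl

theorem inc_injective : Function.Injective (inc n S) := fun g h hgh => by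
  rw [← prj_inc n S g, ← prj_inc n S h, hgh]

theorem next_a : (next n S).a = inc n S S.a := rfl

theorem next_t : (next n S).t = ee n S * inc n S S.t := by
  show (⟨S.ind n, S.t⟩ : Multiplicative (ZMod (mm n)) ≀ᵣ S.G) = ⟨S.ind n, 1⟩ * inl S.t
  ext x
  · simp
  · simp

theorem prj_a : prj n S (next n S).a = S.a := rfl

theorem prj_t : prj n S (next n S).t = S.t := rfl

theorem one_ne : (Multiplicative.ofAdd (1 : ZMod (mm n))) ≠ 1 := by
  intro h
  have h1 : (1 : ZMod (mm n)) = 0 := h
  have h2 : 1 < mm n := by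
    unfold mm
    have := Nat.factorial_pos (n + 2)
    omega
  have : Fact (1 < mm n) := ⟨h2⟩
  exact one_ne_zero h1

theorem commute_iff (g : S.G) : Commute (ee n S) (inc n S g) ↔ g ∈ S.V n := by
  constructor
  · intro h
    have h1 : ((⟨S.ind n, 1⟩ : Multiplicative (ZMod (mm n)) ≀ᵣ S.G) * inl g).left g =
        (inl g * (⟨S.ind n, 1⟩ : Multiplicative (ZMod (mm n)) ≀ᵣ S.G)).left g :=
      congrFun (congrArg RegularWreathProduct.left h) g
    simp only [mul_left, left_inl, right_inl, Pi.mul_apply, Pi.one_apply, mul_one, one_mul,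
      inv_mul_cancel] at h1
    unfold Stage.ind at h1
    rw [if_pos (one_mem _)] at h1
    by_contra hg
    rw [if_neg hg] at h1
    exact one_ne n h1.symm
  · intro hg
    show (⟨S.ind n, 1⟩ : Multiplicative (ZMod (mm n)) ≀ᵣ S.G) * inl g =
        inl g * (⟨S.ind n, 1⟩ : Multiplicative (ZMod (mm n)) ≀ᵣ S.G)
    refine RegularWreathProduct.ext ?_ ?_
    · funext x
      show S.ind n x * 1 = 1 * S.ind n (g⁻¹ * x)
      rw [mul_one, one_mul]
      unfold Stage.ind
      by_cases hx : x ∈ S.V n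
      · rw [if_pos hx, if_pos (mul_mem (inv_mem hg) hx)]
      · rw [if_neg hx, if_neg]
        intro h
        apply hx
        have := mul_mem hg h
        rwa [mul_inv_cancel_left] at this
    · show (1 : S.G) * g = g * 1
      rw [mul_one, one_mul]

theorem x_zero : S.x 0 = S.a := by simp [Stage.x]

theorem x_succ (j : ℕ) : S.x (j + 1) = S.t * S.x j * S.t⁻¹ := by
  unfold Stage.x
  rw [pow_succ']
  group

theorem x_mem_V {i : ℕ} (h1 : 1 ≤ i) (h2 : i ≤ n) : S.x i ∈ S.V n :=
  Subgroup.subset_closure ⟨i, h1, h2, rfl⟩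

theorem next_x {j : ℕ} (hj : j ≤ n) : (next n S).x j = inc n S (S.x j) := by
  induction j with
  | zero => rw [x_zero, x_zero, next_a]
  | succ j ih =>
    rw [x_succ, ih (by omega), next_t, x_succ]
    have h1 : Commute (ee n S) (inc n S (S.t * S.x j * S.t⁻¹)) := by
      rw [commute_iff, ← x_succ]
      exact x_mem_V n S (by omega) hj
    have h2 : ee n S * inc n S S.t * inc n S (S.x j) * (ee n S * inc n S S.t)⁻¹ =
        ee n S * inc n S (S.t * S.x j * S.t⁻¹) * (ee n S)⁻¹ := by
      simp only [map_mul, map_inv, mul_inv_rev]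
      group
    rw [h2, h1.eq, mul_inv_cancel_right]

theorem next_x_succ : (next n S).x (n + 1) =
    ee n S * inc n S (S.x (n + 1)) * (ee n S)⁻¹ := by
  rw [x_succ, next_x n S le_rfl, next_t, x_succ]
  simp only [map_mul, map_inv, mul_inv_rev]
  group

theorem prj_x (j : ℕ) : prj n S ((next n S).x j) = S.x j := by
  unfold Stage.x
  rw [map_mul, map_mul, map_inv, map_pow, prj_a, prj_t]

theorem V_conj : S.V n = (S.U n).map (MulAut.conj S.t).toMonoidHom := by
  unfold Stage.V Stage.U
  rw [MonoidHom.map_closure]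
  congr 1
  ext g
  constructor
  · rintro ⟨i, h1, h2, rfl⟩
    refine ⟨S.x (i - 1), ⟨i - 1, by omega, rfl⟩, ?_⟩
    show S.t * S.x (i - 1) * S.t⁻¹ = S.x i
    rw [← x_succ]
    congr 1
    omega
  · rintro ⟨_, ⟨i, h1, rfl⟩, rfl⟩
    refine ⟨i + 1, by omega, by omega, ?_⟩
    show S.t * S.x i * S.t⁻¹ = S.x (i + 1)
    rw [← x_succ]

theorem key (h : S.x n ∉ S.U n) : (next n S).x (n + 1) ∉ (next n S).U (n + 1) := by
  intro hmem
  have h1 : (next n S).U (n + 1) ≤ (inc n S).range := by
    unfold Stage.U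
    rw [Subgroup.closure_le]
    rintro _ ⟨i, hi, rfl⟩
    exact ⟨S.x i, (next_x n S (by omega)).symm⟩
  obtain ⟨g, hg⟩ := h1 hmem
  rw [next_x_succ] at hg
  have h2 : g = S.x (n + 1) := by
    have := congrArg (prj n S) hg
    rw [prj_inc, map_mul, map_mul, map_inv, prj_ee, prj_inc] at this
    simpa using this
  rw [h2] at hg
  have h3 : Commute (ee n S) (inc n S (S.x (n + 1))) := by
    have := congrArg (· * ee n S) hg
    simp only [inv_mul_cancel_right] at this
    exact this.symm
  rw [commute_iff, V_conj] at h3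
  obtain ⟨u, hu, hut⟩ := h3
  have h4 : u = S.x n := by
    have h5 : S.t * u * S.t⁻¹ = S.x (n + 1) := hut
    rw [x_succ] at h5
    have h6 := mul_right_cancel h5
    exact mul_left_cancel h6
  rw [h4] at hu
  exact h hu

end

theorem key_stage (n : ℕ) : (stage n).x n ∉ (stage n).U n := by
  induction n with
  | zero =>
    intro h
    have h1 : (stage 0).U 0 = ⊥ := by
      unfold Stage.U
      rw [Subgroup.closure_eq_bot_iff]
      rintro g ⟨i, hi, -⟩
      omega
    rw [h1, Subgroup.mem_bot, x_zero] at h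
    have h2 : (Multiplicative.ofAdd (1 : ZMod 2)) = 1 := h
    have h3 : (1 : ZMod 2) = 0 := h2
    exact absurd h3 (by decide)
  | succ n ih => exact key n (stage n) ih


/-! ### orders -/

/-- order of the stage -/
noncomputable def cc (n : ℕ) : ℕ := Nat.card (stage n).G

theorem cc_succ (n : ℕ) : cc (n + 1) = mm n ^ cc n * cc n := by
  show Nat.card (Multiplicative (ZMod (mm n)) ≀ᵣ (stage n).G) = _
  rw [RegularWreathProduct.card]
  unfold cc
  congr 2
  show Nat.card (ZMod (mm n)) = _
  simp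

theorem prime_mm {n p : ℕ} (hp : p.Prime) (h : p ∣ mm n) : n + 2 < p := by
  by_contra hlt
  push Not at hlt
  have h1 : p ∣ (n + 2).factorial := hp.dvd_factorial.2 hlt
  have h2 : p ∣ 1 := (Nat.dvd_add_right h1).1 h
  exact hp.one_lt.ne' (Nat.dvd_one.1 h2)

theorem cc_dvd (e b : ℕ) (hb : ∀ p : ℕ, p.Prime → p ∣ b → p ≤ e) (n : ℕ) (hn : e ≤ n)
    (h : b ∣ cc n) : b ∣ cc e := by
  induction n, hn using Nat.le_induction with
  | base => exact h
  | succ n hn ih =>
    apply ih
    rw [cc_succ] at h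
    have hcop : Nat.Coprime b (mm n) := by
      rw [Nat.coprime_iff_gcd_eq_one]
      by_contra hne
      obtain ⟨p, hp, hpd⟩ := Nat.exists_prime_and_dvd hne
      have h1 := hb p hp (hpd.trans (Nat.gcd_dvd_left _ _))
      have h2 := prime_mm hp (hpd.trans (Nat.gcd_dvd_right _ _))
      omega
    exact (Nat.Coprime.pow_right (cc n) hcop).dvd_of_dvd_mul_left h


/-! ### the group -/

/-- The ambient product. -/
abbrev PP : Type := (∀ n, (stage n).G) × Multiplicative ℤ

/-- first generator -/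
noncomputable def AA : PP := (fun n => (stage n).a, 1)

/-- second generator -/
noncomputable def TT : PP := (fun n => (stage n).t, Multiplicative.ofAdd 1)

/-- the group -/
noncomputable def GG : Subgroup PP := Subgroup.closure {AA, TT}

/-- conjugates -/
noncomputable def XX (j : ℕ) : PP := TT ^ j * AA * (TT ^ j)⁻¹

theorem XX_fst (j n : ℕ) : (XX j).1 n = (stage n).x j := rfl

theorem XX_snd (j : ℕ) : (XX j).2 = 1 := by
  show (TT ^ j).2 * 1 * ((TT ^ j).2)⁻¹ = 1
  simp

theorem XX_succ (j : ℕ) : XX (j + 1) = TT * XX j * TT⁻¹ := by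
  unfold XX
  rw [pow_succ']
  group

theorem AA_mem : AA ∈ GG := Subgroup.subset_closure (by simp)
theorem TT_mem : TT ∈ GG := Subgroup.subset_closure (by simp)
theorem XX_mem (j : ℕ) : XX j ∈ GG :=
  mul_mem (mul_mem (pow_mem TT_mem j) AA_mem) (inv_mem (pow_mem TT_mem j))

/-- `XX 0, ..., XX m` generate. -/
noncomputable def WW (m : ℕ) : Subgroup PP := Subgroup.closure {w | ∃ j, j ≤ m ∧ w = XX j}

theorem WW_le (m : ℕ) : WW m ≤ GG := by
  unfold WW
  rw [Subgroup.closure_le]
  rintro _ ⟨j, -, rfl⟩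
  exact XX_mem j

theorem WW_mono {m m' : ℕ} (h : m ≤ m') : WW m ≤ WW m' :=
  Subgroup.closure_mono fun _ ⟨j, hj, e⟩ => ⟨j, hj.trans h, e⟩

theorem WW_snd {m : ℕ} {w : PP} (hw : w ∈ WW m) : w.2 = 1 := by
  have : WW m ≤ (MonoidHom.snd (∀ n, (stage n).G) (Multiplicative ℤ)).ker := by
    unfold WW
    rw [Subgroup.closure_le]
    rintro _ ⟨j, -, rfl⟩
    exact XX_snd j
  exact this hw

theorem WW_conj {m : ℕ} {w : PP} (hw : w ∈ WW m) : TT * w * TT⁻¹ ∈ WW (m + 1) := by
  have : (WW m).map (MulAut.conj TT).toMonoidHom ≤ WW (m + 1) := by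
    unfold WW
    rw [MonoidHom.map_closure, Subgroup.closure_le]
    rintro _ ⟨_, ⟨j, hj, rfl⟩, rfl⟩
    show TT * XX j * TT⁻¹ ∈ _
    rw [← XX_succ]
    exact Subgroup.subset_closure ⟨j + 1, by omega, rfl⟩
  exact this ⟨w, hw, rfl⟩

theorem WW_conj_pow {m : ℕ} {w : PP} (hw : w ∈ WW m) (k : ℕ) :
    TT ^ k * w * (TT ^ k)⁻¹ ∈ WW (m + k) := by
  induction k with
  | zero => simpa using hw
  | succ k ih =>
    have := WW_conj ih
    have e : TT ^ (k + 1) * w * (TT ^ (k + 1))⁻¹ = TT * (TT ^ k * w * (TT ^ k)⁻¹) * TT⁻¹ := by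
      rw [pow_succ']
      group
    rw [e]
    exact this

/-- compatibility of the components -/
theorem prj_comp {w : PP} (hw : w ∈ GG) (n : ℕ) : prj n (stage n) (w.1 (n + 1)) = w.1 n := by
  induction hw using Subgroup.closure_induction with
  | mem x hx =>
    rcases hx with rfl | hx
    · rfl
    · have : x = TT := hx
      subst this
      rfl
  | one => exact map_one _
  | mul x y _ _ hx hy =>
    have : prj n (stage n) ((x * y).1 (n + 1)) =
      prj n (stage n) (x.1 (n + 1)) * prj n (stage n) (y.1 (n + 1)) := map_mul _ _ _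
    rw [this, hx, hy]
    rfl
  | inv x _ hx =>
    have : prj n (stage n) ((x⁻¹).1 (n + 1)) = (prj n (stage n) (x.1 (n + 1)))⁻¹ := map_inv _ _
    rw [this, hx]
    rfl

theorem inc_comp {m : ℕ} {w : PP} (hw : w ∈ WW m) {n : ℕ} (hn : m ≤ n) :
    w.1 (n + 1) = inc n (stage n) (w.1 n) := by
  induction hw using Subgroup.closure_induction with
  | mem x hx =>
    obtain ⟨j, hj, rfl⟩ := hx
    rw [XX_fst, XX_fst]
    exact next_x n (stage n) (hj.trans hn)
  | one => exact (map_one _).symm
  | mul x y _ _ hx hy =>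
    have : inc n (stage n) ((x * y).1 n) =
      inc n (stage n) (x.1 n) * inc n (stage n) (y.1 n) := map_mul _ _ _
    rw [this, ← hx, ← hy]
    rfl
  | inv x _ hx =>
    have : inc n (stage n) ((x⁻¹).1 n) = (inc n (stage n) (x.1 n))⁻¹ := map_inv _ _
    rw [this, ← hx]
    rfl

theorem comp_inj {m : ℕ} {w : PP} (hw : w ∈ WW m) {n : ℕ} (hn : m ≤ n) (h : w.1 n = 1) :
    w = 1 := by
  have up : ∀ k, w.1 (n + k) = 1 := by
    intro k
    induction k with
    | zero => exact h
    | succ k ih =>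
      have := inc_comp hw (n := n + k) (by omega)
      rw [ih, map_one] at this
      exact this
  have down : ∀ k, ∀ i, i + k = n → w.1 i = 1 := by
    intro k
    induction k with
    | zero =>
      intro i hi
      have : i = n := by omega
      subst this
      exact h
    | succ k ih =>
      intro i hi
      have h1 := prj_comp (WW_le m hw) i
      rw [ih (i + 1) (by omega)] at h1
      exact h1.symm.trans (map_one (prj i (stage i)))
  have h2 := WW_snd hw
  refine Prod.ext ?_ h2
  funext i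
  rcases le_total n i with hi | hi
  · obtain ⟨k, rfl⟩ := Nat.exists_eq_add_of_le hi
    exact up k
  · exact down (n - i) i (by omega)

/-- evaluation at `n` -/
noncomputable def ev (m n : ℕ) : WW m →* (stage n).G :=
  ((Pi.evalMonoidHom (fun n => (stage n).G) n).comp
    (MonoidHom.fst (∀ n, (stage n).G) (Multiplicative ℤ))).comp (WW m).subtype

theorem ev_injective {m n : ℕ} (h : m ≤ n) : Function.Injective (ev m n) := by
  rw [injective_iff_map_eq_one]
  rintro ⟨w, hw⟩ hw1
  exact Subtype.ext (comp_inj hw h hw1)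

instance WW_finite (m : ℕ) : Finite (WW m) := Finite.of_injective _ (ev_injective (le_refl m))

theorem WW_card {m n : ℕ} (h : m ≤ n) (B : Subgroup PP) (hB : B ≤ WW m) :
    Nat.card B ∣ cc n := by
  have h1 : Nat.card B ∣ Nat.card (WW m) := Subgroup.card_dvd_of_le hB
  have h2 : Nat.card (WW m) ∣ cc n := Subgroup.card_dvd_of_injective _ (ev_injective h)
  exact h1.trans h2

/-- elements conjugate into the windows -/
theorem decomp {w : PP} (hw : w ∈ GG) : ∃ (l : PP) (j : ℤ), w = l * TT ^ j ∧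
    ∃ k m : ℕ, TT ^ k * l * (TT ^ k)⁻¹ ∈ WW m := by
  induction hw using Subgroup.closure_induction with
  | mem x hx =>
    rcases hx with rfl | hx
    · refine ⟨AA, 0, by simp, 0, 0, ?_⟩
      simp only [pow_zero, one_mul, inv_one, mul_one]
      exact Subgroup.subset_closure ⟨0, le_rfl, by simp [XX]⟩
    · have : x = TT := hx
      subst this
      exact ⟨1, 1, by simp, 0, 0, by simp⟩
  | one => exact ⟨1, 0, by simp, 0, 0, by simp⟩
  | mul x y _ _ hx hy =>
    obtain ⟨l, i, rfl, k, m, h⟩ := hx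
    obtain ⟨l', j, rfl, k', m', h'⟩ := hy
    refine ⟨l * (TT ^ i * l' * (TT ^ i)⁻¹), i + j, ?_, k + k' + i.natAbs, m + m' + k + k' +
      2 * i.natAbs, ?_⟩
    · rw [zpow_add]; group
    · have e : TT ^ (k + k' + i.natAbs) * (l * (TT ^ i * l' * (TT ^ i)⁻¹)) *
          (TT ^ (k + k' + i.natAbs))⁻¹ =
          (TT ^ (k' + i.natAbs) * (TT ^ k * l * (TT ^ k)⁻¹) * (TT ^ (k' + i.natAbs))⁻¹) *
          (TT ^ (k + (i.natAbs + i).toNat) * (TT ^ k' * l' * (TT ^ k')⁻¹) *
            (TT ^ (k + (i.natAbs + i).toNat))⁻¹) := by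
        have h1 : ((i.natAbs + i).toNat : ℤ) = i.natAbs + i := by
          rw [Int.toNat_of_nonneg]
          omega
        simp only [← zpow_natCast, Nat.cast_add, h1]
        group
      rw [e]
      apply mul_mem
      · exact WW_mono (by omega) (WW_conj_pow h _)
      · refine WW_mono ?_ (WW_conj_pow h' _)
        omega
  | inv x _ hx =>
    obtain ⟨l, i, rfl, k, m, h⟩ := hx
    refine ⟨TT ^ (-i) * l⁻¹ * (TT ^ (-i))⁻¹, -i, ?_, k + i.natAbs, m + 2 * i.natAbs, ?_⟩
    · group
    · have e : TT ^ (k + i.natAbs) * (TT ^ (-i) * l⁻¹ * (TT ^ (-i))⁻¹) *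
          (TT ^ (k + i.natAbs))⁻¹ =
          (TT ^ (i.natAbs + -i).toNat * (TT ^ k * l * (TT ^ k)⁻¹) *
            (TT ^ (i.natAbs + -i).toNat)⁻¹)⁻¹ := by
        have h1 : ((i.natAbs + -i).toNat : ℤ) = i.natAbs + -i := by
          rw [Int.toNat_of_nonneg]
          omega
        simp only [← zpow_natCast, Nat.cast_add, h1]
        group
      rw [e]
      apply inv_mem
      refine WW_mono ?_ (WW_conj_pow h _)
      omega

theorem decomp_ker {w : PP} (hw : w ∈ GG) (h : w.2 = 1) :
    ∃ k m : ℕ, TT ^ k * w * (TT ^ k)⁻¹ ∈ WW m := by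
  obtain ⟨l, j, rfl, k, m, hl⟩ := decomp hw
  have h1 := WW_snd hl
  have h2 : l.2 = 1 := by
    have : (TT ^ k * l * (TT ^ k)⁻¹).2 = (TT ^ k).2 * l.2 * ((TT ^ k).2)⁻¹ := rfl
    rw [this] at h1
    simpa using h1
  have h3 : (l * TT ^ j).2 = l.2 * (Multiplicative.ofAdd (1 : ℤ)) ^ j := by
    have e1 : (MonoidHom.snd (∀ n, (stage n).G) (Multiplicative ℤ)) (l * TT ^ j) =
        (MonoidHom.snd (∀ n, (stage n).G) (Multiplicative ℤ)) l *
        ((MonoidHom.snd (∀ n, (stage n).G) (Multiplicative ℤ)) TT) ^ j := by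
      rw [map_mul, map_zpow]
    exact e1
  rw [h3, h2, one_mul] at h
  have h4 : j = 0 := by
    have : Multiplicative.ofAdd (j • (1 : ℤ)) = 1 := by
      rw [ofAdd_zsmul]; exact h
    have h5 : j • (1 : ℤ) = 0 := this
    simpa using h5
  subst h4
  exact ⟨k, m, by simpa using hl⟩

/-- monotonicity of the windows -/
theorem window_mono {w : PP} {k m k' m' : ℕ} (h : TT ^ k * w * (TT ^ k)⁻¹ ∈ WW m) (hk : k ≤ k')
    (hm : m + k' ≤ m') : TT ^ k' * w * (TT ^ k')⁻¹ ∈ WW m' := by
  obtain ⟨d, rfl⟩ := Nat.exists_eq_add_of_le hk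
  have e : TT ^ (k + d) * w * (TT ^ (k + d))⁻¹ = TT ^ d * (TT ^ k * w * (TT ^ k)⁻¹) *
      (TT ^ d)⁻¹ := by
    rw [add_comm, pow_add]
    group
  rw [e]
  exact WW_mono (by omega) (WW_conj_pow h d)

/-- finite sets of elements of the kernel lie in a common window -/
theorem common_window (F : Finset PP) (hF : ∀ w ∈ F, w ∈ GG ∧ w.2 = 1) :
    ∃ k m : ℕ, ∀ w ∈ F, TT ^ k * w * (TT ^ k)⁻¹ ∈ WW m := by
  classical
  induction F using Finset.induction_on with
  | empty => exact ⟨0, 0, fun w hw => absurd hw (Finset.notMem_empty w)⟩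
  | insert x F _ ih =>
    obtain ⟨k, m, h⟩ := ih fun w hw => hF w (Finset.mem_insert_of_mem hw)
    obtain ⟨k', m', h'⟩ := decomp_ker (hF x (Finset.mem_insert_self x F)).1
      (hF x (Finset.mem_insert_self x F)).2
    refine ⟨k + k', m + m' + k + k', fun w hw => ?_⟩
    rcases Finset.mem_insert.1 hw with rfl | hw
    · exact window_mono h' (by omega) (by omega)
    · exact window_mono (h w hw) (by omega) (by omega)

/-- local finiteness with control of the orders -/
theorem loc_fin (F : Set PP) (hfin : F.Finite) (hF : ∀ w ∈ F, w ∈ GG ∧ w.2 = 1) :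
    Finite (Subgroup.closure F) ∧ ∃ m, ∀ n, m ≤ n → Nat.card (Subgroup.closure F) ∣ cc n := by
  obtain ⟨k, m, h⟩ := common_window hfin.toFinset (by simpa using hF)
  simp only [Set.Finite.mem_toFinset] at h
  set c := (MulAut.conj (TT ^ k)).toMonoidHom with hc
  have h1 : (Subgroup.closure F).map c ≤ WW m := by
    rw [MonoidHom.map_closure, Subgroup.closure_le]
    rintro _ ⟨w, hw, rfl⟩
    exact h w hw
  have e : Subgroup.closure F ≃* (Subgroup.closure F).map c :=
    (Subgroup.closure F).equivMapOfInjective c (MulAut.conj (TT ^ k)).injective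
  have hfin2 : Finite ((Subgroup.closure F).map c) :=
    Finite.of_injective _ (Subgroup.inclusion_injective h1)
  refine ⟨Finite.of_equiv _ e.symm.toEquiv, m, fun n hn => ?_⟩
  rw [Nat.card_congr e.toEquiv]
  exact WW_card hn _ h1

/-- strictness -/
theorem XX_not_mem (j : ℕ) (w : PP) (hw : w ∈ Subgroup.closure {w | ∃ i, i < j ∧ w = XX i}) :
    w ≠ XX j := by
  rintro rfl
  apply key_stage j
  have : (Subgroup.closure {w | ∃ i, i < j ∧ w = XX i}) ≤
      ((stage j).U j).comap ((Pi.evalMonoidHom (fun n => (stage n).G) j).comp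
        (MonoidHom.fst (∀ n, (stage n).G) (Multiplicative ℤ))) := by
    rw [Subgroup.closure_le]
    rintro _ ⟨i, hi, rfl⟩
    exact Subgroup.subset_closure ⟨i, hi, rfl⟩
  exact this hw

open scoped commutatorElement

/-! ### nilpotent groups -/

/-- In a nilpotent group with torsion normal subgroup `T`, every element has a positive power
commuting with a given element of `T`. -/
theorem nilp_aux {K : Type*} [Group K] (T : Subgroup K) [T.Normal]
    (hT : ∀ x ∈ T, ∃ r : ℕ, 1 ≤ r ∧ x ^ r = 1) (z : K) (i : ℕ) :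
    ∀ y ∈ T, y ∈ Subgroup.upperCentralSeries K i → ∃ l : ℕ, 1 ≤ l ∧ Commute (z ^ l) y := by
  induction i with
  | zero =>
    intro y _ hy
    have : y = 1 := by simpa using hy
    exact ⟨1, le_rfl, by rw [this]; exact Commute.one_right _⟩
  | succ i ih =>
    intro y hyT hy
    rw [Subgroup.mem_upperCentralSeries_succ_iff] at hy
    have hc1 : y * z * y⁻¹ * z⁻¹ ∈ Subgroup.upperCentralSeries K i := hy z
    have hc2 : y * z * y⁻¹ * z⁻¹ ∈ T := by
      have h1 : z * y⁻¹ * z⁻¹ ∈ T := Subgroup.Normal.conj_mem inferInstance _ (inv_mem hyT) z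
      have h2 := mul_mem hyT h1
      have e : y * (z * y⁻¹ * z⁻¹) = y * z * y⁻¹ * z⁻¹ := by group
      rwa [e] at h2
    set c := y * z * y⁻¹ * z⁻¹ with hc
    obtain ⟨l, hl, hcomm⟩ := ih c hc2 hc1
    -- `y z^l y⁻¹ = e z^l` with `e ∈ T` commuting with `z^l`
    have key : ∀ j : ℕ, ∃ e ∈ T, y * z ^ j * y⁻¹ = e * z ^ j ∧ Commute (z ^ l) e := by
      intro j
      induction j with
      | zero => exact ⟨1, one_mem _, by simp, Commute.one_right _⟩
      | succ j ihj =>
        obtain ⟨e, heT, he1, he2⟩ := ihj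
        refine ⟨e * (z ^ j * c * (z ^ j)⁻¹), mul_mem heT
          (Subgroup.Normal.conj_mem inferInstance _ hc2 _), ?_, ?_⟩
        · have h1 : y * z ^ (j + 1) * y⁻¹ = (y * z ^ j * y⁻¹) * (y * z * y⁻¹) := by
            rw [pow_succ]; group
          have h2 : y * z * y⁻¹ = c * z := by rw [hc]; group
          rw [h1, he1, h2, pow_succ]
          group
        · apply Commute.mul_right he2
          apply Commute.mul_right
          · apply Commute.mul_right
            · exact (Commute.refl z).pow_pow l j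
            · exact hcomm
          · exact ((Commute.refl z).pow_pow l j).inv_right
    obtain ⟨e, heT, he1, he2⟩ := key l
    obtain ⟨r, hr, her⟩ := hT e heT
    refine ⟨l * r, Nat.mul_pos hl hr, ?_⟩
    have h3 : y * z ^ (l * r) * y⁻¹ = z ^ (l * r) := by
      have h4 : y * z ^ (l * r) * y⁻¹ = (y * z ^ l * y⁻¹) ^ r := by
        rw [pow_mul, conj_pow]
      rw [h4, he1, he2.symm.mul_pow, her, one_mul, pow_mul]
    have h5 : y * z ^ (l * r) = z ^ (l * r) * y := by
      calc y * z ^ (l * r) = (y * z ^ (l * r) * y⁻¹) * y := by group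
        _ = _ := by rw [h3]
    exact h5.symm

/-- A group with a normal subgroup... centralizer of a finite commutator subgroup. -/
theorem virt_nilp_of_finite_commutator {Q : Type} [Group Q] (hfin : Finite (commutator Q)) :
    ∃ K : Subgroup Q, K.FiniteIndex ∧ Group.IsNilpotent K := by
  set f : Q →* MulAut (commutator Q) := MulAut.conjNormal with hf
  have hfin2 : Finite (MulAut (commutator Q)) := inferInstance
  refine ⟨f.ker, inferInstance, ?_⟩
  have hcomm : ∀ g ∈ f.ker, ∀ h ∈ commutator Q, g * h = h * g := by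
    intro g hg h hh
    have h1 : f g ⟨h, hh⟩ = ⟨h, hh⟩ := by
      have : f g = 1 := hg
      rw [this]; rfl
    have h2 : g * h * g⁻¹ = h := by
      have := congrArg Subtype.val h1
      rw [hf, MulAut.conjNormal_apply] at this
      exact this
    calc g * h = (g * h * g⁻¹) * g := by group
      _ = h * g := by rw [h2]
  refine ⟨⟨2, ?_⟩⟩
  rw [eq_top_iff]
  intro x _
  rw [Subgroup.mem_upperCentralSeries_succ_iff]
  intro y
  rw [Subgroup.mem_upperCentralSeries_succ_iff]
  intro z
  rw [Subgroup.upperCentralSeries_zero, Subgroup.mem_bot]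
  have h1 : ((⁅x, y⁆ : f.ker) : Q) ∈ commutator Q :=
    Subgroup.commutator_mem_commutator (Subgroup.mem_top (x : Q)) (Subgroup.mem_top (y : Q))
  have h2 := hcomm z.1 z.2 _ h1
  have h3 : z * ⁅x, y⁆ = ⁅x, y⁆ * z := Subtype.ext h2
  rw [commutatorElement_def ⁅x, y⁆ z, ← h3]
  group

/-- the commutator subgroup is the normal closure of the commutators of generators -/
theorem commutator_le_normalClosure {Q : Type} [Group Q] (S : Set Q)
    (hS : Subgroup.closure S = ⊤) :
    commutator Q ≤ Subgroup.normalClosure {c | ∃ x ∈ S, ∃ y ∈ S, c = ⁅x, y⁆} := by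
  set R := Subgroup.normalClosure {c | ∃ x ∈ S, ∃ y ∈ S, c = ⁅x, y⁆} with hR
  have hgen : ∀ x ∈ S, ∀ y ∈ S, ⁅x, y⁆ ∈ R := fun x hx y hy =>
    Subgroup.subset_normalClosure ⟨x, hx, y, hy, rfl⟩
  -- in the quotient, generators commute
  have hcomm : ∀ x y : Q, (x : Q ⧸ R) * y = (y : Q ⧸ R) * x := by
    have h1 : ∀ x ∈ S, ∀ y : Q, (x : Q ⧸ R) * y = (y : Q ⧸ R) * x := by
      intro x hx y
      have hy : y ∈ Subgroup.closure S := by rw [hS]; trivial
      induction hy using Subgroup.closure_induction with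
      | mem y hy =>
        have h2 := hgen x hx y hy
        have h3 : ((⁅x, y⁆ : Q) : Q ⧸ R) = 1 := (QuotientGroup.eq_one_iff _).2 h2
        rw [commutatorElement_def] at h3
        simp only [QuotientGroup.mk_mul, QuotientGroup.mk_inv] at h3
        rw [mul_inv_eq_one, mul_inv_eq_iff_eq_mul] at h3
        exact h3
      | one => simp
      | mul a b _ _ ha hb =>
        simp only [QuotientGroup.mk_mul]
        rw [← mul_assoc, ha, mul_assoc, hb, mul_assoc]
      | inv a _ ha =>
        simp only [QuotientGroup.mk_inv]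
        have : Commute (x : Q ⧸ R) (a : Q ⧸ R) := ha
        exact this.inv_right
    intro x y
    have hx : x ∈ Subgroup.closure S := by rw [hS]; trivial
    induction hx using Subgroup.closure_induction with
    | mem x hx => exact h1 x hx y
    | one => simp
    | mul a b _ _ ha hb =>
      simp only [QuotientGroup.mk_mul]
      rw [mul_assoc, hb, ← mul_assoc, ha, mul_assoc]
    | inv a _ ha =>
      simp only [QuotientGroup.mk_inv]
      have : Commute (a : Q ⧸ R) (y : Q ⧸ R) := ha
      exact this.inv_left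
  rw [commutator_def, Subgroup.commutator_le]
  intro x _ y _
  rw [← QuotientGroup.eq_one_iff, commutatorElement_def]
  simp only [QuotientGroup.mk_mul, QuotientGroup.mk_inv]
  rw [hcomm x y]
  group


/-! ### the group as a type -/

/-- the homomorphism to `ℤ` -/
noncomputable def ph : GG →* Multiplicative ℤ :=
  (MonoidHom.snd (∀ n, (stage n).G) (Multiplicative ℤ)).comp GG.subtype

/-- the locally finite kernel -/
noncomputable def NN : Subgroup GG := ph.ker

instance : NN.Normal := by unfold NN; infer_instance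

theorem mem_NN {w : GG} : w ∈ NN ↔ (w : PP).2 = 1 := Iff.rfl

theorem locfin (F : Set GG) (hfin : F.Finite) (hF : ∀ w ∈ F, w ∈ NN) :
    Finite (Subgroup.closure F) ∧ ∃ m, ∀ n, m ≤ n → Nat.card (Subgroup.closure F) ∣ cc n := by
  have h := loc_fin (GG.subtype '' F) (hfin.image _) (by
    rintro _ ⟨w, hw, rfl⟩
    exact ⟨w.2, hF w hw⟩)
  have e : Subgroup.closure F ≃* (Subgroup.closure F).map GG.subtype :=
    (Subgroup.closure F).equivMapOfInjective GG.subtype GG.subtype_injective
  rw [← MonoidHom.map_closure] at h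
  obtain ⟨h1, m, h2⟩ := h
  refine ⟨Finite.of_equiv _ e.symm.toEquiv, m, fun n hn => ?_⟩
  rw [Nat.card_congr e.toEquiv]
  exact h2 n hn

theorem torsion {w : GG} (hw : w ∈ NN) : ∃ r : ℕ, 1 ≤ r ∧ w ^ r = 1 := by
  obtain ⟨h1, -⟩ := locfin {w} (Set.finite_singleton w) (by
    rintro _ rfl
    exact hw)
  have h2 : IsOfFinOrder (⟨w, Subgroup.subset_closure rfl⟩ : Subgroup.closure {w}) :=
    isOfFinOrder_of_finite _
  obtain ⟨r, hr, h3⟩ := h2.exists_pow_eq_one
  exact ⟨r, hr, congrArg Subtype.val h3⟩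

theorem fg_GG : Group.FG GG := by
  classical
  rw [Group.fg_iff_subgroup_fg]
  refine ⟨{AA, TT}, ?_⟩
  simp only [Finset.coe_insert, Finset.coe_singleton]
  rfl

theorem not_virt_nilp : ¬ ∃ K : Subgroup GG, K.FiniteIndex ∧ Group.IsNilpotent K := by
  rintro ⟨K, hK, hnil⟩
  set x : ℕ → GG := fun j => ⟨XX j, XX_mem j⟩ with hx
  set t : GG := ⟨TT, TT_mem⟩ with ht
  have hfinq : Finite (GG ⧸ K) := inferInstance
  obtain ⟨i, j, hij, hcoset⟩ : ∃ i j : ℕ, i < j ∧ (x i : GG ⧸ K) = x j := by
    obtain ⟨i, j, hne, h⟩ := Finite.exists_ne_map_eq_of_infinite (fun j : ℕ => (x j : GG ⧸ K))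
    rcases lt_or_gt_of_ne hne with h1 | h1
    · exact ⟨i, j, h1, h⟩
    · exact ⟨j, i, h1, h.symm⟩
  have hy : (x i)⁻¹ * x j ∈ K := QuotientGroup.eq.1 hcoset
  obtain ⟨k, hk, -, htk⟩ := K.exists_pow_mem_of_index_ne_zero hK.index_ne_zero t
  have hyN : (x i)⁻¹ * x j ∈ NN := by
    rw [mem_NN]
    show ((XX i).2)⁻¹ * (XX j).2 = 1
    rw [XX_snd, XX_snd]
    simp
  obtain ⟨c, hc⟩ := hnil.nilpotent'
  obtain ⟨l, hl, hcomm⟩ := nilp_aux (NN.subgroupOf K) (by
      intro w hw
      obtain ⟨r, hr, h⟩ := torsion (w := (w : GG)) hw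
      exact ⟨r, hr, Subtype.ext h⟩) (⟨t ^ k, htk⟩ : K) c ⟨(x i)⁻¹ * x j, hy⟩ hyN (by
      rw [hc]; trivial)
  have hM : (TT ^ (k * l)) * ((XX i)⁻¹ * XX j) = ((XX i)⁻¹ * XX j) * TT ^ (k * l) := by
    have h1 := congrArg (fun w : K => ((w : GG) : PP)) hcomm.eq
    have h2 : (TT ^ k) ^ l * ((XX i)⁻¹ * XX j) = ((XX i)⁻¹ * XX j) * (TT ^ k) ^ l := h1
    rwa [← pow_mul] at h2
  have hM1 : 1 ≤ k * l := Nat.mul_pos hk hl
  set M := k * l with hMdef
  have hshift : ∀ a : ℕ, TT ^ M * XX a * (TT ^ M)⁻¹ = XX (a + M) := by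
    intro a
    unfold XX
    rw [add_comm, pow_add]
    group
  have h3 : (XX (i + M))⁻¹ * XX (j + M) = (XX i)⁻¹ * XX j := by
    rw [← hshift i, ← hshift j]
    calc (TT ^ M * XX i * (TT ^ M)⁻¹)⁻¹ * (TT ^ M * XX j * (TT ^ M)⁻¹) =
        (TT ^ M * ((XX i)⁻¹ * XX j)) * (TT ^ M)⁻¹ := by group
      _ = _ := by rw [hM]; group
  refine XX_not_mem (j + M) (XX (i + M) * ((XX i)⁻¹ * XX j)) ?_ ?_
  · apply mul_mem
    · exact Subgroup.subset_closure ⟨i + M, by omega, rfl⟩
    · apply mul_mem
      · exact inv_mem (Subgroup.subset_closure ⟨i, by omega, rfl⟩)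
      · exact Subgroup.subset_closure ⟨j, by omega, rfl⟩
  · rw [← h3, mul_inv_cancel_left]

/-! ### sections -/

section

variable (H : Subgroup GG) (N₀ : Subgroup H) [N₀.Normal]

/-- finite sets of elements of a section which lift to the kernel generate finite subgroups -/
theorem section_locfin (F : Set (H ⧸ N₀)) (hfin : F.Finite)
    (hF : ∀ q ∈ F, ∃ h : H, (h : GG) ∈ NN ∧ (h : H ⧸ N₀) = q) :
    Finite (Subgroup.closure F) ∧ ∃ m, ∀ n, m ≤ n → Nat.card (Subgroup.closure F) ∣ cc n := by
  choose! lift h1 h2 using hF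
  obtain ⟨hfinB, m, hm⟩ := locfin (H.subtype '' (lift '' F)) ((hfin.image _).image _) (by
    rintro _ ⟨_, ⟨q, hq, rfl⟩, rfl⟩
    exact h1 q hq)
  rw [← MonoidHom.map_closure] at hfinB hm
  have e : Subgroup.closure (lift '' F) ≃* (Subgroup.closure (lift '' F)).map H.subtype :=
    (Subgroup.closure (lift '' F)).equivMapOfInjective H.subtype H.subtype_injective
  have hfinC : Finite (Subgroup.closure (lift '' F)) := Finite.of_equiv _ e.symm.toEquiv
  have h3 : Subgroup.closure F = (Subgroup.closure (lift '' F)).map (QuotientGroup.mk' N₀) := by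
    rw [MonoidHom.map_closure]
    congr 1
    ext q
    constructor
    · intro hq
      exact ⟨lift q, ⟨q, hq, rfl⟩, h2 q hq⟩
    · rintro ⟨_, ⟨q', hq', rfl⟩, rfl⟩
      have := h2 q' hq'
      show ((lift q' : H) : H ⧸ N₀) ∈ F
      rw [this]
      exact hq'
  have h4 : Nat.card (Subgroup.closure F) ∣ Nat.card (Subgroup.closure (lift '' F)) := by
    rw [h3]
    exact Subgroup.card_map_dvd _ _
  refine ⟨?_, m, fun n hn => ?_⟩
  · rw [h3]
    have h5 : (((Subgroup.closure (lift '' F)).map (QuotientGroup.mk' N₀) : Subgroup (H ⧸ N₀)) :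
        Set (H ⧸ N₀)).Finite := by
      rw [Subgroup.coe_map]
      exact (Set.toFinite _).image _
    exact h5.to_subtype
  · refine h4.trans ?_
    rw [Nat.card_congr e.toEquiv]
    exact hm n hn

theorem comm_lift (q : H ⧸ N₀) (hq : q ∈ commutator (H ⧸ N₀)) :
    ∃ h : H, (h : GG) ∈ NN ∧ (h : H ⧸ N₀) = q := by
  have : commutator (H ⧸ N₀) ≤ (NN.subgroupOf H).map (QuotientGroup.mk' N₀) := by
    rw [commutator_def, Subgroup.commutator_le]
    intro x _ y _
    obtain ⟨h, rfl⟩ := QuotientGroup.mk_surjective x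
    obtain ⟨k, rfl⟩ := QuotientGroup.mk_surjective y
    refine ⟨⁅h, k⁆, ?_, rfl⟩
    show ph ((⁅h, k⁆ : H) : GG) = 1
    rw [commutatorElement_def]
    simp only [Subgroup.coe_mul, Subgroup.coe_inv, map_mul, map_inv]
    rw [mul_comm (ph (h : GG))]
    group
  obtain ⟨h, hh, hq'⟩ := this hq
  exact ⟨h, hh, hq'⟩

theorem finite_commutator (hfg : Group.FG (H ⧸ N₀)) (hder : derivedSeries (H ⧸ N₀) 2 = ⊥) :
    Finite (commutator (H ⧸ N₀)) := by
  classical
  obtain ⟨S, hS, hSfin⟩ := Group.fg_iff.1 hfg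
  -- the commutator subgroup is abelian
  have habel : ∀ x ∈ commutator (H ⧸ N₀), ∀ y ∈ commutator (H ⧸ N₀), Commute x y := by
    intro x hx y hy
    have h1 : ⁅x, y⁆ ∈ derivedSeries (H ⧸ N₀) 2 := by
      apply Subgroup.commutator_mem_commutator
      · exact hx
      · exact hy
    rw [hder, Subgroup.mem_bot] at h1
    exact commutatorElement_eq_one_iff_commute.1 h1
  -- exponent
  set C : Set (H ⧸ N₀) := {c | ∃ x ∈ S, ∃ y ∈ S, c = ⁅x, y⁆} with hC
  have hCfin : C.Finite := by
    have : C = (fun p : (H ⧸ N₀) × (H ⧸ N₀) => ⁅p.1, p.2⁆) '' (S ×ˢ S) := by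
      ext c
      constructor
      · rintro ⟨x, hx, y, hy, rfl⟩
        exact ⟨(x, y), ⟨hx, hy⟩, rfl⟩
      · rintro ⟨⟨x, y⟩, ⟨hx, hy⟩, rfl⟩
        exact ⟨x, hx, y, hy, rfl⟩
    rw [this]
    exact (hSfin.prod hSfin).image _
  have hCA : C ⊆ commutator (H ⧸ N₀) := by
    rintro _ ⟨x, -, y, -, rfl⟩
    exact Subgroup.commutator_mem_commutator (Subgroup.mem_top x) (Subgroup.mem_top y)
  have htors : ∀ q ∈ commutator (H ⧸ N₀), 0 < orderOf q := by
    intro q hq
    obtain ⟨h1, -⟩ := section_locfin H N₀ {q} (Set.finite_singleton q) (by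
      rintro _ rfl
      exact comm_lift H N₀ _ hq)
    have h2 : IsOfFinOrder (⟨q, Subgroup.subset_closure rfl⟩ : Subgroup.closure {q}) :=
      isOfFinOrder_of_finite _
    have h3 : IsOfFinOrder q := by
      obtain ⟨r, hr, h3⟩ := h2.exists_pow_eq_one
      exact isOfFinOrder_iff_pow_eq_one.2 ⟨r, hr, congrArg Subtype.val h3⟩
    exact h3.orderOf_pos
  set e : ℕ := ∏ c ∈ hCfin.toFinset, orderOf c with he
  have hepos : 0 < e := Finset.prod_pos fun c hc => htors c (hCA (by simpa using hc))
  have hexpC : ∀ c ∈ C, c ^ e = 1 := by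
    intro c hc
    apply orderOf_dvd_iff_pow_eq_one.1
    exact Finset.dvd_prod_of_mem _ (by simpa using hc)
  have hexp : ∀ q ∈ commutator (H ⧸ N₀), q ^ e = 1 := by
    intro q hq
    have h1 : Subgroup.normalClosure C ≤ commutator (H ⧸ N₀) :=
      Subgroup.normalClosure_le_normal hCA
    have h2 : q ∈ Subgroup.closure (Group.conjugatesOfSet C) :=
      commutator_le_normalClosure S hS hq
    induction h2 using Subgroup.closure_induction with
    | mem x hx =>
      obtain ⟨c, hc, hcx⟩ := Group.mem_conjugatesOfSet_iff.1 hx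
      obtain ⟨g, rfl⟩ := isConj_iff.1 hcx
      rw [conj_pow, hexpC c hc]
      group
    | one => simp
    | mul x y hx hy hx' hy' =>
      have hxA : x ∈ commutator (H ⧸ N₀) := h1 hx
      have hyA : y ∈ commutator (H ⧸ N₀) := h1 hy
      rw [(habel x hxA y hyA).mul_pow, hx' hxA, hy' hyA, one_mul]
    | inv x hx hx' =>
      have hxA : x ∈ commutator (H ⧸ N₀) := h1 hx
      rw [inv_pow, hx' hxA, inv_one]
  -- finite subgroups have bounded order
  have hbound : ∀ F : Set (H ⧸ N₀), F.Finite → F ⊆ commutator (H ⧸ N₀) →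
      Finite (Subgroup.closure F) ∧ Nat.card (Subgroup.closure F) ≤ cc e := by
    intro F hfin hF
    obtain ⟨h1, m, hm⟩ := section_locfin H N₀ F hfin (fun q hq => comm_lift H N₀ q (hF hq))
    refine ⟨h1, ?_⟩
    have hcle : Subgroup.closure F ≤ commutator (H ⧸ N₀) := (Subgroup.closure_le _).2 hF
    have hpos : 0 < cc e := Nat.card_pos
    apply Nat.le_of_dvd hpos
    apply cc_dvd e _ _ (m + e) (by omega) (hm (m + e) (by omega))
    intro p hp hpd
    have : Fact p.Prime := ⟨hp⟩
    obtain ⟨z, hz⟩ := exists_prime_orderOf_dvd_card' p hpd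
    have h2 : (z : H ⧸ N₀) ^ e = 1 := hexp z (hcle z.2)
    have h3 : z ^ e = 1 := Subtype.ext h2
    have h4 : p ∣ e := by
      rw [← hz]
      exact orderOf_dvd_of_pow_eq_one h3
    exact Nat.le_of_dvd hepos h4
  by_contra hinf
  rw [not_finite_iff_infinite] at hinf
  have hinf2 : (commutator (H ⧸ N₀) : Set (H ⧸ N₀)).Infinite := Set.infinite_coe_iff.1 hinf
  obtain ⟨F, hF, hFc⟩ := hinf2.exists_subset_card_eq (cc e + 1)
  obtain ⟨h1, h2⟩ := hbound F F.finite_toSet hF
  have h3 : F.card ≤ Nat.card (Subgroup.closure (F : Set (H ⧸ N₀))) := by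
    have h4 : (F : Set (H ⧸ N₀)) ⊆ Subgroup.closure (F : Set (H ⧸ N₀)) := Subgroup.subset_closure
    have h5 : Nat.card (F : Set (H ⧸ N₀)) ≤
        Nat.card ((Subgroup.closure (F : Set (H ⧸ N₀)) : Subgroup (H ⧸ N₀)) : Set (H ⧸ N₀)) :=
      Nat.card_mono (Set.toFinite _) h4
    simpa using h5
  omega

end

/-! ### elementary amenability -/

theorem elem_amen (P : ∀ (H : Type) [Group H], Prop)
    (hfin : ∀ (H : Type) [Group H] [Finite H], P H)
    (hcomm : ∀ (H : Type) [CommGroup H], P H)
    (hiso : ∀ (H K : Type) [Group H] [Group K], Nonempty (H ≃* K) → P H → P K)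
    (hsub : ∀ (H : Type) [Group H] (K : Subgroup H), P H → P K)
    (hext : ∀ (H : Type) [Group H] (N : Subgroup H) [N.Normal], P N → P (H ⧸ N) → P H)
    (hdir : ∀ (H : Type) [Group H] (S : Set (Subgroup H)),
        DirectedOn (fun A B => A ≤ B) S → sSup S = ⊤ → (∀ K ∈ S, P K) → P H) :
    P GG := by
  apply hext GG NN
  · -- the kernel is a directed union of finite groups
    have lf : ∀ F : Set NN, F.Finite → Finite (Subgroup.closure F) := by
      intro F hF
      obtain ⟨h, -⟩ := locfin (NN.subtype '' F) (hF.image _) (by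
        rintro _ ⟨w, -, rfl⟩
        exact w.2)
      rw [← MonoidHom.map_closure] at h
      exact Finite.of_equiv _
        ((Subgroup.closure F).equivMapOfInjective NN.subtype NN.subtype_injective).symm.toEquiv
    apply hdir NN {K | Finite K}
    · intro A hA B hB
      have hA' : Finite A := hA
      have hB' : Finite B := hB
      refine ⟨A ⊔ B, ?_, le_sup_left, le_sup_right⟩
      show Finite (A ⊔ B : Subgroup NN)
      have h1 : A ⊔ B = Subgroup.closure ((A : Set NN) ∪ B) := by
        rw [Subgroup.closure_union, Subgroup.closure_eq, Subgroup.closure_eq]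
      rw [h1]
      exact lf _ ((Set.toFinite _).union (Set.toFinite _))
    · rw [eq_top_iff]
      intro w _
      have h1 : Subgroup.closure {w} ≤ sSup {K : Subgroup NN | Finite K} :=
        le_sSup (lf {w} (Set.finite_singleton w))
      exact h1 (Subgroup.subset_closure rfl)
    · intro K hK
      have hK' : Finite K := hK
      exact hfin K
  · have h1 : P ph.range := hsub (Multiplicative ℤ) ph.range (hcomm (Multiplicative ℤ))
    exact hiso ph.range (GG ⧸ NN) ⟨(QuotientGroup.quotientKerEquivRange ph).symm⟩ h1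


/-- The negation of the preceding statement: Every finitely generated elementary amenable group that is not virtually nilpotent has a subgroup H and a normal subgroup N of H with H/N finitely generated, metabelian, and not virtually nilpotent. -/
theorem result :
    ¬ (∀ (G : Type) [Group G] [Group.FG G],
    (∀ P : ∀ (H : Type) [Group H], Prop,
      (∀ (H : Type) [Group H] [Finite H], P H) →
      (∀ (H : Type) [CommGroup H], P H) →
      (∀ (H K : Type) [Group H] [Group K], Nonempty (H ≃* K) → P H → P K) →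
      (∀ (H : Type) [Group H] (K : Subgroup H), P H → P K) →
      (∀ (H : Type) [Group H] (N : Subgroup H) [N.Normal], P H → P (H ⧸ N)) →
      (∀ (H : Type) [Group H] (N : Subgroup H) [N.Normal], P N → P (H ⧸ N) → P H) →
      (∀ (H : Type) [Group H] (S : Set (Subgroup H)),
        DirectedOn (fun A B => A ≤ B) S → sSup S = ⊤ → (∀ K ∈ S, P K) → P H) →
      P G) →
    (¬ ∃ K : Subgroup G, K.FiniteIndex ∧ Group.IsNilpotent K) →
    ∃ (H : Subgroup G) (N : Subgroup H) (_ : N.Normal),
      Group.FG (H ⧸ N) ∧ derivedSeries (H ⧸ N) 2 = ⊥ ∧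
      ¬ ∃ K : Subgroup (H ⧸ N), K.FiniteIndex ∧ Group.IsNilpotent K) := by
  intro h
  have hfg : Group.FG GG := fg_GG
  obtain ⟨H, N, hN, h1, h2, h3⟩ := h GG
    (fun P p1 p2 p3 p4 _ p6 p7 => elem_amen P p1 p2 p3 p4 p6 p7) not_virt_nilp
  exact h3 (virt_nilp_of_finite_commutator (finite_commutator H N h1 h2))

end Pool.Agent.S02028
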