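import Pool.Statements.S02030
import Pool.Agent.Helper557.PadicFinal

set_option autoImplicit false
open Pool Pool.MP_cbb20d_al

namespace Pool.Agent.S02030

/-- The negation of the preceding statement: For every prime p and k ≥ 1 there is m ≥ 1 such that, for all n: invertible n×n p-adic integer matrices A, B commuting mod p^m are congruent mod p^k to commuting invertible p-adic integer matrices A', B'. -/
theorem result :
    ¬ (∀ (p : ℕ) (hp : Fact (Nat.Prime p)), ∀ k : ℕ, 1 ≤ k → ∃ m : ℕ, 1 ≤ m ∧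
      ∀ (n : ℕ) (A B : Matrix (Fin n) (Fin n) (PadicInt p)),
        IsUnit A → IsUnit B →
        (∀ i j : Fin n, (p : PadicInt p) ^ m ∣ (A * B - B * A) i j) →
        ∃ A' B' : Matrix (Fin n) (Fin n) (PadicInt p),
          IsUnit A' ∧ IsUnit B' ∧ A' * B' = B' * A' ∧
          (∀ i j : Fin n, (p : PadicInt p) ^ k ∣ (A - A') i j) ∧
          (∀ i j : Fin n, (p : PadicInt p) ^ k ∣ (B - B') i j)) := by
  intro H
  obtain ⟨m, hm, hH⟩ := H 2 ⟨Nat.prime_two⟩ 2 (by norm_num)
  have : Fact (Nat.Prime 2) := ⟨Nat.prime_two⟩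
  obtain ⟨n, A, B, hA, hB, hAB, hno⟩ := Pool.Agent.Helper557.PadicFinal.main 2 m
  obtain ⟨A', B', _, _, hc, h1, h2⟩ := hH n A B hA hB hAB
  exact hno A' B' hc h1 h2

end Pool.Agent.S02030
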