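import Pool.Statements.S02043
import Pool.Agent.Helper232.RZ.N_main0
import Pool.Agent.Helper232.RZ.N_dim

set_option autoImplicit false
open Pool Pool.MP_cd53cf_al

namespace Pool.Agent.S02043

/-- Over any artin algebra, an indecomposable pure-injective module that is the only such module (up to isomorphism) in some rep-Zariski basic open set given by a pp-pair has finite length over its endomorphism ring. -/
theorem result :
  ∀ (k R : Type) [CommRing k] [IsArtinianRing k] [Ring R] [Algebra k R] [Module.Finite k R]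
    (N : Type) [AddCommGroup N] [Module R N],
    (Nontrivial N ∧ ∀ A B : Submodule R N, IsCompl A B → A = ⊥ ∨ B = ⊥) →
    (∀ (I J : Type) (a : J → I →₀ R) (b : J → N),
      (∀ F : Finset J, ∃ x : I → N, ∀ j ∈ F, ((a j).sum fun i r => r • x i) = b j) →
      ∃ x : I → N, ∀ j, ((a j).sum fun i r => r • x i) = b j) →
    (∃ (n m p m' p' : ℕ) (A : Fin m → Fin n → R) (B : Fin m → Fin p → R)
        (C : Fin m' → Fin n → R) (D : Fin m' → Fin p' → R),
      (∀ x : Fin n → N,
        (∃ y : Fin p → N, ∀ i, (∑ j, A i j • x j) + ∑ l, B i l • y l = 0) →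
        (∃ y : Fin p' → N, ∀ i, (∑ j, C i j • x j) + ∑ l, D i l • y l = 0)) ∧
      ∀ (M : Type) [AddCommGroup M] [Module R M],
        (Nontrivial M ∧ ∀ A' B' : Submodule R M, IsCompl A' B' → A' = ⊥ ∨ B' = ⊥) →
        (∀ (I J : Type) (a : J → I →₀ R) (b : J → M),
          (∀ F : Finset J, ∃ x : I → M, ∀ j ∈ F, ((a j).sum fun i r => r • x i) = b j) →
          ∃ x : I → M, ∀ j, ((a j).sum fun i r => r • x i) = b j) →
        (∀ x : Fin n → M,
          (∃ y : Fin p → M, ∀ i, (∑ j, A i j • x j) + ∑ l, B i l • y l = 0) →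
          (∃ y : Fin p' → M, ∀ i, (∑ j, C i j • x j) + ∑ l, D i l • y l = 0)) →
        Nonempty (M ≃ₗ[R] N)) →
    IsFiniteLength (Module.End R N) N := by
  intro k R _ _ _ _ _ N _ _ hind hac h
  obtain ⟨n, m, p, m', p', A, B, C, D, h1, h2⟩ := h
  have hU : Pool.Agent.Helper232.RZ.Uniq
      {(⟨n, (⟨m, p, A, B⟩, ⟨m', p', C, D⟩)⟩ :
        Σ n : ℕ, Pool.Agent.Helper232.RZ.PP R n × Pool.Agent.Helper232.RZ.PP R n)} N :=
    { ac := hac
      ind := hind
      mem := by
        intro q hq
        rw [Set.mem_singleton_iff] at hq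
        subst hq
        exact h1
      uniq := by
        intro M _ _ hi ha hm
        exact h2 M hi ha (fun x hx => hm _ (Set.mem_singleton _) x hx) }
  exact Pool.Agent.Helper232.RZ.main0 _ N hU
    (fun θ => Pool.Agent.Helper232.RZ.dim (k := k) _ _ N hU θ)

end Pool.Agent.S02043
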