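import Pool.Statements.S02046
import Pool.Agent.Helper638.CDB.Final

set_option autoImplicit false
open Pool Pool.MP_cdb312_al

namespace Pool.Agent.S02046

/-- The negation of the preceding statement: There is l such that every finitely presented soluble group has a finite-index subgroup with a normal series of length l whose successive factors are all nilpotent. -/
theorem result :
    ¬ (∃ l : ℕ, ∀ (G : Type) [Group G], IsSolvable G →
      (∃ (n : ℕ) (φ : FreeGroup (Fin n) →* G), Function.Surjective φ ∧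
        ∃ S : Finset (FreeGroup (Fin n)),
          Subgroup.normalClosure (↑S : Set (FreeGroup (Fin n))) = φ.ker) →
      ∃ H : Subgroup G, H.index ≠ 0 ∧
        ∃ K : ℕ → Subgroup G, K 0 = ⊥ ∧ K l = H ∧
          (∀ i, K i ≤ H) ∧
          (∀ i, ∀ h ∈ H, ∀ k ∈ K i, h * k * h⁻¹ ∈ K i) ∧
          ∀ i, i < l → K i ≤ K (i + 1) ∧
            ∃ c : ℕ, ∃ L : ℕ → Subgroup G, L 0 = K (i + 1) ∧
              (∀ j, L (j + 1) = ⁅L j, K (i + 1)⁆) ∧ L c ≤ K i) := by
  rintro ⟨l, h⟩
  obtain ⟨G, hG, hS, hfp, hno⟩ := Pool.Agent.Helper638.CDB.main l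
  exact hno (h G hS hfp)

end Pool.Agent.S02046
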