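import Pool.Statements.S02052
import Pool.Agent.Helper173.SobMain

set_option autoImplicit false
open Pool Pool.MP_ce0ff0_al

namespace Pool.Agent.S02052

/-- The negation of the preceding statement: For every ring, every nonempty irreducible Ziegler-closed class of indecomposable pure-injective modules (basic opens: maps from F not factoring through f: F→G, F,G finitely presented) contains a module lying in every basic open that meets the class. -/
theorem result :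
    ¬ (∀ (R : Type) [Ring R] (C : ∀ (N : Type) [AddCommGroup N] [Module R N], Prop),
      (∀ (N : Type) [AddCommGroup N] [Module R N], C N →
        (Nontrivial N ∧ ∀ P Q : Submodule R N, IsCompl P Q → P = ⊥ ∨ Q = ⊥) ∧
        (∀ (A B : Type) [AddCommGroup A] [Module R A] [AddCommGroup B] [Module R B]
            (u : A →ₗ[R] B),
          (∀ (F G : Type) [AddCommGroup F] [Module R F] [AddCommGroup G] [Module R G]
              [Module.FinitePresentation R F] [Module.FinitePresentation R G]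
              (f : F →ₗ[R] G) (a : F →ₗ[R] A) (b : G →ₗ[R] B),
              b ∘ₗ f = u ∘ₗ a → ∃ c : G →ₗ[R] A, c ∘ₗ f = a) →
          ∀ g : A →ₗ[R] N, ∃ h : B →ₗ[R] N, h ∘ₗ u = g)) →
      (∀ (N : Type) [AddCommGroup N] [Module R N],
        ((Nontrivial N ∧ ∀ P Q : Submodule R N, IsCompl P Q → P = ⊥ ∨ Q = ⊥) ∧
        (∀ (A B : Type) [AddCommGroup A] [Module R A] [AddCommGroup B] [Module R B]
            (u : A →ₗ[R] B),
          (∀ (F G : Type) [AddCommGroup F] [Module R F] [AddCommGroup G] [Module R G]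
              [Module.FinitePresentation R F] [Module.FinitePresentation R G]
              (f : F →ₗ[R] G) (a : F →ₗ[R] A) (b : G →ₗ[R] B),
              b ∘ₗ f = u ∘ₗ a → ∃ c : G →ₗ[R] A, c ∘ₗ f = a) →
          ∀ g : A →ₗ[R] N, ∃ h : B →ₗ[R] N, h ∘ₗ u = g)) →
        (∀ (F G : Type) [AddCommGroup F] [Module R F] [AddCommGroup G] [Module R G]
            [Module.FinitePresentation R F] [Module.FinitePresentation R G]
            (f : F →ₗ[R] G),
            (∃ g : F →ₗ[R] N, ∀ h : G →ₗ[R] N, h ∘ₗ f ≠ g) →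
            ∃ (M : Type) (_ : AddCommGroup M) (_ : Module R M), C M ∧
              ∃ g : F →ₗ[R] M, ∀ h : G →ₗ[R] M, h ∘ₗ f ≠ g) →
        C N) →
      (∃ (M : Type) (_ : AddCommGroup M) (_ : Module R M), C M) →
      (∀ (F₁ G₁ : Type) [AddCommGroup F₁] [Module R F₁] [AddCommGroup G₁] [Module R G₁]
          [Module.FinitePresentation R F₁] [Module.FinitePresentation R G₁]
          (f₁ : F₁ →ₗ[R] G₁)
          (F₂ G₂ : Type) [AddCommGroup F₂] [Module R F₂] [AddCommGroup G₂] [Module R G₂]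
          [Module.FinitePresentation R F₂] [Module.FinitePresentation R G₂]
          (f₂ : F₂ →ₗ[R] G₂),
          (∃ (M : Type) (_ : AddCommGroup M) (_ : Module R M), C M ∧
              ∃ g : F₁ →ₗ[R] M, ∀ h : G₁ →ₗ[R] M, h ∘ₗ f₁ ≠ g) →
          (∃ (M : Type) (_ : AddCommGroup M) (_ : Module R M), C M ∧
              ∃ g : F₂ →ₗ[R] M, ∀ h : G₂ →ₗ[R] M, h ∘ₗ f₂ ≠ g) →
          ∃ (M : Type) (_ : AddCommGroup M) (_ : Module R M), C M ∧
              (∃ g : F₁ →ₗ[R] M, ∀ h : G₁ →ₗ[R] M, h ∘ₗ f₁ ≠ g) ∧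
              (∃ g : F₂ →ₗ[R] M, ∀ h : G₂ →ₗ[R] M, h ∘ₗ f₂ ≠ g)) →
      ∃ (N : Type) (_ : AddCommGroup N) (_ : Module R N), C N ∧
        ∀ (F G : Type) [AddCommGroup F] [Module R F] [AddCommGroup G] [Module R G]
          [Module.FinitePresentation R F] [Module.FinitePresentation R G]
          (f : F →ₗ[R] G),
          (∃ (M : Type) (_ : AddCommGroup M) (_ : Module R M), C M ∧
              ∃ g : F →ₗ[R] M, ∀ h : G →ₗ[R] M, h ∘ₗ f ≠ g) →
          ∃ g : F →ₗ[R] N, ∀ h : G →ₗ[R] N, h ∘ₗ f ≠ g) := by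
  intro H
  obtain ⟨W, _, _, e, _, _, hcoh, hnt⟩ := Helper173.Sob.exists_data
  have hmono : ∀ (β β' : W), β ≤ β' → ∀ (F G : Type) [AddCommGroup F]
      [Module (Helper173.Sob.RR e) F] [AddCommGroup G] [Module (Helper173.Sob.RR e) G]
      [Module.FinitePresentation (Helper173.Sob.RR e) F] (f : F →ₗ[Helper173.Sob.RR e] G),
      Helper173.Sob.OO f (Helper173.Sob.NN e β) → Helper173.Sob.OO f (Helper173.Sob.NN e β') :=
    fun β β' h F G _ _ _ _ _ f hf => Helper173.Sob.spec_le h (hcoh β' β h) f hf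
  obtain ⟨N, _, _, ⟨⟨⟨_, hind⟩, hpi⟩, hN1⟩, hgen⟩ := H (Helper173.Sob.RR e)
    (fun N _ _ => ((Nontrivial N ∧ ∀ P Q : Submodule (Helper173.Sob.RR e) N,
        IsCompl P Q → P = ⊥ ∨ Q = ⊥) ∧ Helper173.Sob.PInj (Helper173.Sob.RR e) N) ∧
      ∀ (F G : Type) [AddCommGroup F] [Module (Helper173.Sob.RR e) F] [AddCommGroup G]
        [Module (Helper173.Sob.RR e) G] [Module.FinitePresentation (Helper173.Sob.RR e) F]
        [Module.FinitePresentation (Helper173.Sob.RR e) G] (f : F →ₗ[Helper173.Sob.RR e] G),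
        Helper173.Sob.OO f N → ∃ β, Helper173.Sob.OO f (Helper173.Sob.NN e β))
    (fun N _ _ hN => hN.1)
    (fun N _ _ hN1 hN2 => ⟨hN1, fun F G _ _ _ _ _ _ f hf => by
      obtain ⟨M, _, _, hM, hfM⟩ := hN2 F G f hf
      exact hM.2 F G f hfM⟩)
    (by
      obtain ⟨β⟩ := (inferInstance : Nonempty W)
      exact ⟨Helper173.Sob.NN e β, inferInstance, inferInstance,
        ⟨⟨Helper173.Sob.NN_nontrivial β, Helper173.Sob.NN_indec β⟩,
          (Helper173.Sob.NN_inj β).pInj⟩, fun F G _ _ _ _ _ _ f hf => ⟨β, hf⟩⟩)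
    (by
      intro F₁ G₁ _ _ _ _ _ _ f₁ F₂ G₂ _ _ _ _ _ _ f₂ h1 h2
      obtain ⟨M₁, _, _, hM₁, hf₁⟩ := h1
      obtain ⟨M₂, _, _, hM₂, hf₂⟩ := h2
      obtain ⟨β₁, hβ₁⟩ := hM₁.2 F₁ G₁ f₁ hf₁
      obtain ⟨β₂, hβ₂⟩ := hM₂.2 F₂ G₂ f₂ hf₂
      refine ⟨Helper173.Sob.NN e (max β₁ β₂), inferInstance, inferInstance,
        ⟨⟨⟨Helper173.Sob.NN_nontrivial _, Helper173.Sob.NN_indec _⟩,
          (Helper173.Sob.NN_inj _).pInj⟩, fun F G _ _ _ _ _ _ f hf => ⟨_, hf⟩⟩, ?_, ?_⟩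
      · exact hmono β₁ _ (le_max_left _ _) F₁ G₁ f₁ hβ₁
      · exact hmono β₂ _ (le_max_right _ _) F₂ G₂ f₂ hβ₂)
  refine Helper173.Sob.no_generic hnt N hpi hind hN1 ?_
  intro F G _ _ _ _ _ _ f β hf
  exact hgen F G f ⟨Helper173.Sob.NN e β, inferInstance, inferInstance,
    ⟨⟨⟨Helper173.Sob.NN_nontrivial β, Helper173.Sob.NN_indec β⟩,
      (Helper173.Sob.NN_inj β).pInj⟩, fun F G _ _ _ _ _ _ f hf => ⟨β, hf⟩⟩, hf⟩

end Pool.Agent.S02052
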