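import Pool.Statements.S02057
import Pool.Agent.Helper441.CharSum

set_option autoImplicit false
open CategoryTheory
open Pool Pool.MP_cf197e_al

namespace Pool.Agent.S02057

/-- For every finite group G and automorphism α, some set of pairwise non-isomorphic irreducible complex representations has total dimension at least the number of g with α(g) = g⁻¹; equivalently, the sum of irreducible degrees is at least that number. -/
theorem result :
    ∀ (G : Type) [Group G] [Finite G] (α : G ≃* G),
      ∃ (n : ℕ) (V : Fin n → FDRep ℂ G),
        (∀ i, Simple (V i)) ∧
        (∀ i j, Nonempty (V i ≅ V j) → i = j) ∧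
        Nat.card {g : G // α g = g⁻¹} ≤ ∑ i, Module.finrank ℂ (V i) := by
  intro G _ _ α
  exact Helper441.CharSum.final G α

end Pool.Agent.S02057
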