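import Pool.Statements.S02069

set_option autoImplicit false
open Pool Pool.MP_d068a1_al

namespace Pool.Agent.S02069

open Topology Pointwise Set

section alg
variable {G : Type} [Group G]

/-- conjugation by `x^k` -/
def ph (x : G) (k : ℤ) (g : G) : G := x^k * g * (x^k)⁻¹

theorem ph_ph (x : G) (k l : ℤ) (g : G) : ph x k (ph x l g) = ph x (k+l) g := by
  unfold ph; rw [zpow_add]; group

theorem ph_zero (x g : G) : ph x 0 g = g := by simp [ph]

theorem ph_mul (x : G) (k : ℤ) (g h : G) : ph x k (g*h) = ph x k g * ph x k h := by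
  unfold ph; group

theorem ph_inv (x : G) (k : ℤ) (g : G) : ph x k g⁻¹ = (ph x k g)⁻¹ := by
  unfold ph; group

theorem ph_one (x : G) (k : ℤ) : ph x k 1 = 1 := by simp [ph]

/-- the subgroup `⋂_{k ≤ n} x^k U x^{-k}` -/
def Un (U : Subgroup G) (x : G) (n : ℕ) : Subgroup G where
  carrier := {g | ∀ k : ℕ, k ≤ n → ph x (-(k:ℤ)) g ∈ U}
  mul_mem' := by
    intro a b ha hb k hk
    rw [ph_mul]
    exact U.mul_mem (ha k hk) (hb k hk)
  one_mem' := by
    intro k _
    rw [ph_one]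
    exact U.one_mem
  inv_mem' := by
    intro a ha k hk
    rw [ph_inv]
    exact U.inv_mem (ha k hk)

/-- the subgroup `⋂_{k ≥ 0} x^k U x^{-k}` -/
def Up (U : Subgroup G) (x : G) : Subgroup G where
  carrier := {g | ∀ k : ℕ, ph x (-(k:ℤ)) g ∈ U}
  mul_mem' := by
    intro a b ha hb k
    rw [ph_mul]
    exact U.mul_mem (ha k) (hb k)
  one_mem' := by
    intro k
    rw [ph_one]
    exact U.one_mem
  inv_mem' := by
    intro a ha k
    rw [ph_inv]
    exact U.inv_mem (ha k)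

theorem mem_Un {U : Subgroup G} {x : G} {n : ℕ} {g : G} :
    g ∈ Un U x n ↔ ∀ k : ℕ, k ≤ n → ph x (-(k:ℤ)) g ∈ U := Iff.rfl

theorem mem_Up {U : Subgroup G} {x : G} {g : G} :
    g ∈ Up U x ↔ ∀ k : ℕ, ph x (-(k:ℤ)) g ∈ U := Iff.rfl

theorem Up_le_Un (U : Subgroup G) (x : G) (n : ℕ) : Up U x ≤ Un U x n :=
  fun _ hg k _ => hg k

theorem Up_ph {U : Subgroup G} {x : G} {g : G} (hg : g ∈ Up U x) (m : ℕ) :
    ph x (-(m:ℤ)) g ∈ Up U x := by
  intro k
  rw [ph_ph]
  have := hg (k + m)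
  have e : (-(k:ℤ) + -(m:ℤ)) = -((k+m : ℕ):ℤ) := by push_cast; ring
  rw [e]; exact this

/-- the finite iteration -/
theorem iter {U : Subgroup G} {x : G} {N : ℕ}
    (h : ∀ v ∈ Un U x N, ∃ a ∈ Up U x, a⁻¹ * v ∈ Un U x N ∧ ph x 1 (a⁻¹ * v) ∈ Un U x N) (m : ℕ) :
    ∀ v ∈ Un U x N, ∃ a ∈ Up U x, ∀ k : ℕ, k ≤ m → ph x (k:ℤ) (a⁻¹ * v) ∈ Un U x N := by
  induction m with
  | zero =>
    intro v hv
    refine ⟨1, Subgroup.one_mem _, fun k hk => ?_⟩
    obtain rfl : k = 0 := by omega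
    simpa [ph_zero] using hv
  | succ m ih =>
    intro v hv
    obtain ⟨a, ha, hw⟩ := ih v hv
    obtain ⟨a1, ha1, hb, hb'⟩ := h _ (hw m le_rfl)
    refine ⟨a * ph x (-(m:ℤ)) a1, Subgroup.mul_mem _ ha (Up_ph ha1 m), fun k hk => ?_⟩
    have e : (a * ph x (-(m:ℤ)) a1)⁻¹ * v = (ph x (-(m:ℤ)) a1)⁻¹ * (a⁻¹ * v) := by group
    have e2 : (a * ph x (-(m:ℤ)) a1)⁻¹ * v = ph x (-(m:ℤ)) (a1⁻¹ * ph x (m:ℤ) (a⁻¹ * v)) := by
      rw [e, ph_mul, ph_inv, ph_ph]
      simp [ph_zero]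
    rcases Nat.lt_or_ge k m with hkm | hkm
    · rw [e, ph_mul, ph_inv, ph_ph]
      refine Subgroup.mul_mem _ (Subgroup.inv_mem _ ?_) (hw k hkm.le)
      have e3 : ((k:ℤ) + -(m:ℤ)) = -((m - k : ℕ):ℤ) := by
        push_cast [Nat.cast_sub hkm.le]; ring
      rw [e3]
      exact Up_le_Un U x N (Up_ph ha1 _)
    · rcases Nat.eq_or_lt_of_le hkm with hk1 | hk1
      · rw [e2, ph_ph, ← hk1]
        simpa [ph_zero] using hb
      · obtain rfl : k = m + 1 := by omega
        rw [e2, ph_ph]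
        have e4 : (((m+1 : ℕ):ℤ) + -(m:ℤ)) = 1 := by push_cast; ring
        rw [e4]; exact hb'

theorem pow_mem {U : Subgroup G} {x : G} {N : ℕ}
    (h : ∀ v ∈ Un U x N, ∃ a ∈ Up U x, a⁻¹ * v ∈ Un U x N ∧ ph x 1 (a⁻¹ * v) ∈ Un U x N)
    {v : G} (hv : v ∈ Un U x N) (n : ℕ) :
    ∃ s ∈ Un U x N, ∃ t ∈ Un U x N, (x * v)^n = s * x^n * t := by
  induction n with
  | zero => exact ⟨1, Subgroup.one_mem _, 1, Subgroup.one_mem _, by simp⟩
  | succ n ih =>
    obtain ⟨s, hs, t, ht, e⟩ := ih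
    obtain ⟨a, ha, hw⟩ := iter h n t⁻¹ (Subgroup.inv_mem _ ht)
    have h1 : ph x (n:ℤ) (t * a) ∈ Un U x N := by
      have := Subgroup.inv_mem _ (hw n le_rfl)
      rw [← ph_inv] at this
      have e1 : (a⁻¹ * t⁻¹)⁻¹ = t * a := by group
      rwa [e1] at this
    have h2 : ph x (-1) a⁻¹ ∈ Un U x N := by
      have := Up_le_Un U x N (Up_ph (Subgroup.inv_mem _ ha) 1)
      simpa using this
    refine ⟨s * ph x (n:ℤ) (t * a), Subgroup.mul_mem _ hs h1, ph x (-1) a⁻¹ * v,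
      Subgroup.mul_mem _ h2 hv, ?_⟩
    rw [pow_succ, e]
    unfold ph
    rw [pow_succ]
    simp only [zpow_natCast, zpow_neg, zpow_one, inv_inv]
    group

end alg

section top
variable {G : Type} [Group G] [TopologicalSpace G] [IsTopologicalGroup G]

theorem cont_ph (x : G) (k : ℤ) : Continuous (ph x k) := by
  unfold ph; fun_prop

theorem key_fact {U : Subgroup G} (hUo : IsOpen (U : Set G)) (hUc : IsCompact (U : Set G)) (x : G) :
    ∃ N : ℕ, ∀ v ∈ Un U x N, ∃ a ∈ Up U x, a⁻¹ * v ∈ Un U x N ∧ ph x 1 (a⁻¹ * v) ∈ Un U x N := by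
  have hUcl : IsClosed (U : Set G) := Subgroup.isClosed_of_isOpen U hUo
  let C : ℕ → Set G := fun n => {g | ∀ k : ℕ, k ≤ n → ph x (-(k:ℤ) - 1) g ∈ U}
  have hCcl : ∀ n, IsClosed (C n) := by
    intro n
    have : C n = ⋂ k : ℕ, ⋂ _ : k ≤ n, (ph x (-(k:ℤ) - 1)) ⁻¹' (U : Set G) := by
      ext g; simp [C]
    rw [this]
    exact isClosed_iInter fun k => isClosed_iInter fun _ => hUcl.preimage (cont_ph x _)
  have hCcpt : ∀ n, IsCompact (C n) := by
    intro n
    refine (hUc.image (cont_ph x 1)).of_isClosed_subset (hCcl n) ?_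
    intro g hg
    refine ⟨ph x (-1) g, by simpa using hg 0 (Nat.zero_le _), ?_⟩
    rw [ph_ph]; simp [ph_zero]
  have hdir : Directed (· ⊇ ·) C := by
    apply directed_of_isDirected_le
    intro i j hij g hg k hk
    exact hg k (hk.trans hij)
  let O : Set G := ⋃ a ∈ {a : G | ph x (-1) a ∈ Up U x}, {g | a⁻¹ * g ∈ U}
  have hO : IsOpen O := by
    refine isOpen_biUnion fun a _ => ?_
    exact hUo.preimage (continuous_const.mul continuous_id)
  obtain ⟨N, hN⟩ := exists_subset_nhds_of_isCompact' hdir hCcpt hCcl (U := O) (by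
    intro g hg
    refine hO.mem_nhds ?_
    refine mem_biUnion (x := g) ?_ ?_
    · intro k
      rw [ph_ph]
      have := mem_iInter.1 hg k k le_rfl
      have e : (-(k:ℤ) + -1) = -(k:ℤ) - 1 := by ring
      rw [e]; exact this
    · simp only [mem_ofPred_eq, inv_mul_cancel]
      exact U.one_mem)
  refine ⟨N, fun v hv => ?_⟩
  have hv1 : ph x 1 v ∈ C N := by
    intro k hk
    rw [ph_ph]
    have e : (-(k:ℤ) - 1 + 1) = -(k:ℤ) := by ring
    rw [e]; exact hv k hk
  have := hN hv1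
  simp only [O, mem_iUnion, mem_ofPred_eq, exists_prop] at this
  obtain ⟨a', ha', hu⟩ := this
  have hb : (ph x (-1) a')⁻¹ * v ∈ Un U x N :=
    Subgroup.mul_mem _ (Subgroup.inv_mem _ (Up_le_Un U x N ha')) hv
  have e1 : ph x 1 ((ph x (-1) a')⁻¹ * v) = a'⁻¹ * ph x 1 v := by
    rw [ph_mul, ph_inv, ph_ph]; simp [ph_zero]
  refine ⟨ph x (-1) a', ha', hb, ?_⟩
  intro k hk
  rcases Nat.eq_zero_or_pos k with h0 | h0
  · subst h0
    rw [e1]; simpa [ph_zero] using hu
  · rw [ph_ph]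
    have e2 : (-(k:ℤ) + 1) = -((k-1 : ℕ):ℤ) := by
      push_cast [Nat.cast_sub h0]; ring
    rw [e2]
    exact hb (k-1) (by omega)

theorem isOpen_Un {U : Subgroup G} (hUo : IsOpen (U : Set G)) (x : G) (n : ℕ) :
    IsOpen (Un U x n : Set G) := by
  have : (Un U x n : Set G) = ⋂ k ∈ {k : ℕ | k ≤ n}, (ph x (-(k:ℤ))) ⁻¹' (U : Set G) := by
    ext g; simp [mem_Un]
  rw [this]
  exact (Set.finite_le_nat n).isOpen_biInter fun k _ => hUo.preimage (cont_ph x _)

theorem isCompact_Un {U : Subgroup G} (hUo : IsOpen (U : Set G)) (hUc : IsCompact (U : Set G))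
    (x : G) (n : ℕ) : IsCompact (Un U x n : Set G) := by
  refine hUc.of_isClosed_subset (Subgroup.isClosed_of_isOpen _ (isOpen_Un hUo x n)) ?_
  intro g hg
  simpa [ph_zero] using hg 0 (Nat.zero_le _)

theorem exists_cpt_open [LocallyCompactSpace G] [T2Space G] [TotallyDisconnectedSpace G] :
    ∃ U : Subgroup G, IsOpen (U : Set G) ∧ IsCompact (U : Set G) := by
  obtain ⟨K, hK, hK1⟩ := exists_compact_mem_nhds (1 : G)
  obtain ⟨W, hW, hW1, hWK⟩ := (loc_compact_Haus_tot_disc_of_zero_dim (H := G)).mem_nhds_iff.1 hK1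
  have hWcl : IsClopen W := hW
  have hWc : IsCompact W := hK.of_isClosed_subset hWcl.1 hWK
  obtain ⟨V, hV1, hV⟩ := compact_open_separated_mul_right hWc hWcl.2 (Subset.refl W)
  let S : Subgroup G :=
    { carrier := {g | ∀ w ∈ W, w * g ∈ W ∧ w * g⁻¹ ∈ W}
      mul_mem' := by
        intro a b ha hb w hw
        refine ⟨?_, ?_⟩
        · rw [← mul_assoc]
          exact (hb _ (ha w hw).1).1
        · rw [mul_inv_rev, ← mul_assoc]
          exact (ha _ (hb w hw).2).2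
      one_mem' := by
        intro w hw
        simpa using hw
      inv_mem' := by
        intro a ha w hw
        rw [inv_inv]
        exact ⟨(ha w hw).2, (ha w hw).1⟩ }
  have hSo : IsOpen (S : Set G) := by
    refine Subgroup.isOpen_of_mem_nhds S (g := 1) ?_
    have hV2 : V ∩ V⁻¹ ∈ 𝓝 (1 : G) := Filter.inter_mem hV1 (inv_mem_nhds_one G hV1)
    refine Filter.mem_of_superset hV2 ?_
    rintro g ⟨hg1, hg2⟩ w hw
    exact ⟨hV (mul_mem_mul hw hg1), hV (mul_mem_mul hw hg2)⟩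
  refine ⟨S, hSo, hWc.of_isClosed_subset (Subgroup.isClosed_of_isOpen S hSo) ?_⟩
  intro g hg
  simpa using (hg 1 hW1).1

/-- an element of the closure of a compactly covered subgroup generates a relatively compact
subgroup -/
theorem zpow_cpt [LocallyCompactSpace G] [T2Space G] [TotallyDisconnectedSpace G] (H : Subgroup G)
    (hH : ∀ x ∈ H, ∃ K : Subgroup G, K ≤ H ∧ IsCompact (K : Set G) ∧ x ∈ K) {x : G}
    (hx : x ∈ closure (H : Set G)) :
    ∃ Q : Set G, IsCompact Q ∧ ∀ n : ℤ, x ^ n ∈ Q := by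
  obtain ⟨U, hUo, hUc⟩ := exists_cpt_open (G := G)
  obtain ⟨N, hN⟩ := key_fact hUo hUc x
  have hVo := isOpen_Un hUo x N
  have hVc := isCompact_Un hUo hUc x N
  have hxV : IsOpen ((fun g => x⁻¹ * g) ⁻¹' (Un U x N : Set G)) :=
    hVo.preimage (continuous_const.mul continuous_id)
  obtain ⟨p, hpV, hpH⟩ := mem_closure_iff.1 hx _ hxV (by
    simp only [mem_preimage, inv_mul_cancel]
    exact Subgroup.one_mem _)
  obtain ⟨K, -, hKc, hpK⟩ := hH p hpH
  have hp : x * (x⁻¹ * p) = p := by group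
  refine ⟨(Un U x N : Set G) * (K : Set G) * (Un U x N : Set G), (hVc.mul hKc).mul hVc, ?_⟩
  have hnat : ∀ n : ℕ, ∃ s ∈ Un U x N, ∃ t ∈ Un U x N, p ^ n = s * x ^ n * t := by
    intro n
    have := pow_mem hN hpV n
    rwa [hp] at this
  intro n
  obtain ⟨m, rfl | rfl⟩ := n.eq_nat_or_neg
  · obtain ⟨s, hs, t, ht, e⟩ := hnat m
    have : x ^ (m:ℤ) = s⁻¹ * p ^ m * t⁻¹ := by rw [e, zpow_natCast]; group
    rw [this]
    exact mul_mem_mul (mul_mem_mul (Subgroup.inv_mem _ hs) (Subgroup.pow_mem _ hpK m))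
      (Subgroup.inv_mem _ ht)
  · obtain ⟨s, hs, t, ht, e⟩ := hnat m
    have : x ^ (-(m:ℤ)) = t * (p ^ m)⁻¹ * s := by rw [e, zpow_neg, zpow_natCast]; group
    rw [this]
    exact mul_mem_mul (mul_mem_mul ht (Subgroup.inv_mem _ (Subgroup.pow_mem _ hpK m))) hs

end top

/-- In every Hausdorff, locally compact, totally disconnected group, any subgroup that is a union of compact subgroups and is maximal under inclusion with this property is a closed subset. -/
theorem result :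
    ∀ (G : Type) [Group G] [TopologicalSpace G] [IsTopologicalGroup G]
      [LocallyCompactSpace G] [T2Space G] [TotallyDisconnectedSpace G]
      (H : Subgroup G),
      (∀ x ∈ H, ∃ K : Subgroup G, K ≤ H ∧ IsCompact (K : Set G) ∧ x ∈ K) →
      (∀ H' : Subgroup G,
          (∀ x ∈ H', ∃ K : Subgroup G, K ≤ H' ∧ IsCompact (K : Set G) ∧ x ∈ K) →
          H ≤ H' → H' ≤ H) →
      IsClosed (H : Set G) := by
  intro G _ _ _ _ _ _ H hH hmax
  have hle : H.topologicalClosure ≤ H := by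
    refine hmax _ ?_ H.le_topologicalClosure
    intro x hx
    have hx' : x ∈ closure (H : Set G) := hx
    obtain ⟨Q, hQ, hxQ⟩ := zpow_cpt H hH hx'
    refine ⟨(Subgroup.zpowers x).topologicalClosure, ?_, ?_, ?_⟩
    · refine Subgroup.topologicalClosure_minimal _ ?_ H.isClosed_topologicalClosure
      rw [Subgroup.zpowers_le]
      exact hx
    · refine hQ.of_isClosed_subset (Subgroup.isClosed_topologicalClosure _) ?_
      refine closure_minimal ?_ hQ.isClosed
      rintro _ ⟨n, rfl⟩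
      exact hxQ n
    · exact Subgroup.le_topologicalClosure _ (Subgroup.mem_zpowers x)
  have heq : (H : Set G) = closure (H : Set G) :=
    Subset.antisymm subset_closure hle
  rw [heq]
  exact isClosed_closure

end Pool.Agent.S02069
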