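import Pool.Statements.S02102
import Pool.Agent.Helper313.CubeG

set_option autoImplicit false
open Pool Pool.MP_d2f6cf_al

namespace Pool.Agent.S02102

/-- The negation of the preceding statement: For finite groups G, H with isomorphic subgroup lattices of G^3 and H^3, there is a bijection G to H under which each group's multiplication, transported to the other's set, is a two-variable word map of the other group. -/
theorem result :
    ¬ (∀ (G H : Type) [Group G] [Group H] [Finite G] [Finite H],
      Nonempty (Subgroup (G × G × G) ≃o Subgroup (H × H × H)) →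
      ∃ f : G ≃ H,
        (∃ w : FreeGroup (Fin 2), ∀ x y : G,
            f.symm (f x * f y) = FreeGroup.lift ![x, y] w) ∧
        (∃ w : FreeGroup (Fin 2), ∀ x y : H,
            f (f.symm x * f.symm y) = FreeGroup.lift ![x, y] w)) := by
  intro H
  obtain ⟨f, ⟨w, hw⟩, -⟩ := H
    (Pool.Agent.Helper313.Cube.G1 Pool.Agent.Helper313.Cube.theSetup)
    (Pool.Agent.Helper313.Cube.H1 Pool.Agent.Helper313.Cube.theSetup)
    ⟨Pool.Agent.Helper313.Cube.latIso Pool.Agent.Helper313.Cube.theSetup⟩
  obtain ⟨C⟩ := Pool.Agent.Helper313.Cube.extract Pool.Agent.Helper313.Cube.theSetup f w hw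
  exact Pool.Agent.Helper313.Cube.core_false C

end Pool.Agent.S02102
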