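import Pool.Statements.S02104
-- import your own Pool.Agent.* helpers here

set_option autoImplicit false
open Pool Pool.MP_d30538_al

namespace Pool.Agent.S02104

open scoped commutatorElement

/-- The two generators. -/
abbrev gx : FreeGroup (Fin 2) := FreeGroup.of 0

abbrev gy : FreeGroup (Fin 2) := FreeGroup.of 1

/-- The first relator `x y² x y⁻²`. -/
def r1 : FreeGroup (Fin 2) := gx * (gy ^ 2 * gx * (gy ^ 2)⁻¹)

/-- The homomorphism to the dihedral group of order `32`. -/
def f : FreeGroup (Fin 2) →* DihedralGroup 16 :=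
  FreeGroup.lift ![DihedralGroup.sr 0, DihedralGroup.r (-1)]

/-- The homomorphism to the cyclic group of order `4`. -/
def g : FreeGroup (Fin 2) →* Multiplicative (ZMod 4) :=
  FreeGroup.lift ![Multiplicative.ofAdd 1, 1]

theorem f_r1 : f r1 = DihedralGroup.r 4 := by
  simp only [f, r1, map_mul, map_inv, map_pow, FreeGroup.lift_apply_of]
  decide

theorem g_r1 : g r1 = Multiplicative.ofAdd 2 := by
  simp only [g, r1, map_mul, map_inv, map_pow, FreeGroup.lift_apply_of]
  decide

/-- The subgroup of the product which contains the image of the normal closure of `r1`. -/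
def K1 : Subgroup (DihedralGroup 16 × Multiplicative (ZMod 4)) where
  carrier := {p | ∃ k : ℤ, p = (DihedralGroup.r (4 * k : ℤ), Multiplicative.ofAdd ((2 * k : ℤ) : ZMod 4))}
  one_mem' := ⟨0, by simp; rfl⟩
  mul_mem' := by
    rintro _ _ ⟨a, rfl⟩ ⟨b, rfl⟩
    refine ⟨a + b, ?_⟩
    rw [Prod.mk_mul_mk, DihedralGroup.r_mul_r, ← ofAdd_add]
    push_cast
    ring_nf
  inv_mem' := by
    rintro _ ⟨a, rfl⟩
    refine ⟨-a, ?_⟩
    rw [Prod.inv_mk, DihedralGroup.inv_r, ← ofAdd_neg]
    push_cast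
    ring_nf

instance : K1.Normal where
  conj_mem := by
    rintro _ ⟨a, rfl⟩ ⟨d, c⟩
    cases d with
    | r i =>
      refine ⟨a, ?_⟩
      rw [Prod.inv_mk, Prod.mk_mul_mk, Prod.mk_mul_mk, DihedralGroup.r_mul_r,
        DihedralGroup.inv_r, DihedralGroup.r_mul_r, mul_comm c, mul_inv_cancel_right]
      congr 2
      ring
    | sr i =>
      refine ⟨-a, ?_⟩
      rw [Prod.inv_mk, Prod.mk_mul_mk, Prod.mk_mul_mk, DihedralGroup.sr_mul_r,
        DihedralGroup.inv_sr, DihedralGroup.sr_mul_sr, mul_comm c, mul_inv_cancel_right]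
      congr 2
      · push_cast; ring
      · have h4 : ((4 * a : ℤ) : ZMod 4) = 0 := by
          rw [ZMod.intCast_zmod_eq_zero_iff_dvd]; simp
        have : ((2 * a : ℤ) : ZMod 4) - ((2 * -a : ℤ) : ZMod 4) = 0 := by
          rw [← Int.cast_sub, ← h4]; congr 1; ring
        rw [sub_eq_zero.mp this]

theorem mem_K1 {w : FreeGroup (Fin 2)} (hw : w ∈ Subgroup.normalClosure {r1}) :
    (f w, g w) ∈ K1 := by
  have h : Subgroup.normalClosure {r1} ≤ K1.comap (f.prod g) := by
    apply Subgroup.normalClosure_le_normal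
    rintro _ rfl
    refine ⟨1, ?_⟩
    rw [MonoidHom.prod_apply, f_r1, g_r1]
    rfl
  exact h hw

/-- The rotations. -/
def Rot : Subgroup (DihedralGroup 16) where
  carrier := {p | ∃ i : ZMod 16, p = DihedralGroup.r i}
  one_mem' := ⟨0, rfl⟩
  mul_mem' := by
    rintro _ _ ⟨a, rfl⟩ ⟨b, rfl⟩
    exact ⟨a + b, rfl⟩
  inv_mem' := by
    rintro _ ⟨a, rfl⟩
    exact ⟨-a, rfl⟩

instance : Rot.Normal where
  conj_mem := by
    rintro _ ⟨a, rfl⟩ d
    cases d with
    | r i => exact ⟨_, rfl⟩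
    | sr i => exact ⟨_, rfl⟩

theorem rot_comm {p q : DihedralGroup 16} (hp : p ∈ Rot) (hq : q ∈ Rot) : ⁅p, q⁆ = 1 := by
  obtain ⟨i, rfl⟩ := hp
  obtain ⟨j, rfl⟩ := hq
  rw [commutatorElement_eq_one_iff_mul_comm, DihedralGroup.r_mul_r, DihedralGroup.r_mul_r,
    add_comm]

theorem f_R1 {w : FreeGroup (Fin 2)} (hw : w ∈ Subgroup.normalClosure {r1}) : f w ∈ Rot := by
  obtain ⟨k, hk⟩ := mem_K1 hw
  exact ⟨_, (Prod.mk.inj hk).1⟩

theorem f_R3 {w : FreeGroup (Fin 2)} (hw : w ∈ Subgroup.normalClosure {gy ^ 2}) : f w ∈ Rot := by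
  have h : Subgroup.normalClosure {gy ^ 2} ≤ Rot.comap f := by
    apply Subgroup.normalClosure_le_normal
    rintro _ rfl
    exact ⟨-1 + -1, by simp [f, pow_two]⟩
  exact h hw

theorem g_R3 {w : FreeGroup (Fin 2)} (hw : w ∈ Subgroup.normalClosure {gy ^ 2}) : g w = 1 := by
  have h : Subgroup.normalClosure {gy ^ 2} ≤ g.ker := by
    apply Subgroup.normalClosure_le_normal
    rintro _ rfl
    simp [g, MonoidHom.mem_ker]
  exact h hw

theorem comm_of_even (j : ℤ) (d : DihedralGroup 16) :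
    ⁅d, DihedralGroup.r ((4 * (2 * j) : ℤ) : ZMod 16)⁆ = 1 := by
  have h16 : ((4 * (2 * j) : ℤ) : ZMod 16) + ((4 * (2 * j) : ℤ) : ZMod 16) = 0 := by
    rw [← Int.cast_add, ZMod.intCast_zmod_eq_zero_iff_dvd]
    exact ⟨j, by push_cast; ring⟩
  have h16' : ((4 * (2 * j) : ℤ) : ZMod 16) = -((4 * (2 * j) : ℤ) : ZMod 16) :=
    eq_neg_of_add_eq_zero_left h16
  rw [commutatorElement_eq_one_iff_mul_comm]
  cases d with
  | r i => rw [DihedralGroup.r_mul_r, DihedralGroup.r_mul_r, add_comm]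
  | sr i =>
    rw [DihedralGroup.sr_mul_r, DihedralGroup.r_mul_sr, sub_eq_add_neg, ← h16']

theorem f_central {a w : FreeGroup (Fin 2)} (h1 : w ∈ Subgroup.normalClosure {r1})
    (h3 : w ∈ Subgroup.normalClosure {gy ^ 2}) : ⁅f a, f w⁆ = 1 := by
  obtain ⟨k, hk⟩ := mem_K1 h1
  obtain ⟨hf, hg⟩ := Prod.mk.inj hk
  rw [g_R3 h3] at hg
  have h2 : ((2 * k : ℤ) : ZMod 4) = 0 := (congrArg Multiplicative.toAdd hg).symm
  rw [ZMod.intCast_zmod_eq_zero_iff_dvd] at h2
  obtain ⟨j, hj⟩ := h2
  have hj' : k = 2 * j := by push_cast at hj; omega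
  rw [hf, hj']
  exact comm_of_even j _

/-- The exceptional element. -/
def z : FreeGroup (Fin 2) := ⁅r1, gx⁆

theorem f_z : f z ≠ 1 := by
  rw [z, map_commutatorElement, f_r1]
  simp only [f, FreeGroup.lift_apply_of]
  decide

theorem r1_mem1 : r1 ∈ Subgroup.normalClosure ({r1} : Set (FreeGroup (Fin 2))) :=
  Subgroup.subset_normalClosure rfl

theorem x_mem2 : gx ∈ Subgroup.normalClosure ({gx} : Set (FreeGroup (Fin 2))) :=
  Subgroup.subset_normalClosure rfl

theorem w_mem3 : gy ^ 2 ∈ Subgroup.normalClosure ({gy ^ 2} : Set (FreeGroup (Fin 2))) :=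
  Subgroup.subset_normalClosure rfl

theorem r1_mem2 : r1 ∈ Subgroup.normalClosure ({gx} : Set (FreeGroup (Fin 2))) := by
  rw [r1]
  exact mul_mem x_mem2 (Subgroup.Normal.conj_mem inferInstance _ x_mem2 _)

/-- The correction factor. -/
def rho : FreeGroup (Fin 2) := r1⁻¹ * (gx * gx)

theorem rho_mem3 : rho ∈ Subgroup.normalClosure ({gy ^ 2} : Set (FreeGroup (Fin 2))) := by
  have e : rho = gy ^ 2 * (gx⁻¹ * (gy ^ 2)⁻¹ * gx⁻¹⁻¹) := by
    rw [rho, r1]; group
  rw [e]
  exact mul_mem w_mem3 (Subgroup.Normal.conj_mem inferInstance _ (inv_mem w_mem3) _)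

theorem z_mem1 : z ∈ Subgroup.normalClosure ({r1} : Set (FreeGroup (Fin 2))) := by
  have e : z = r1 * (gx * r1⁻¹ * gx⁻¹) := by rw [z, commutatorElement_def]; group
  rw [e]
  exact mul_mem r1_mem1 (Subgroup.Normal.conj_mem inferInstance _ (inv_mem r1_mem1) _)

theorem z_mem2 : z ∈ Subgroup.normalClosure ({gx} : Set (FreeGroup (Fin 2))) := by
  rw [z, commutatorElement_def]
  exact mul_mem (Subgroup.Normal.conj_mem inferInstance _ x_mem2 _) (inv_mem x_mem2)

theorem z_mem3 : z ∈ Subgroup.normalClosure ({gy ^ 2} : Set (FreeGroup (Fin 2))) := by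
  have e : z = (gx * gx) * (rho⁻¹ * (gx * rho * gx⁻¹)) * (gx * gx)⁻¹ := by
    rw [z, commutatorElement_def, rho]; group
  rw [e]
  exact Subgroup.Normal.conj_mem inferInstance _ (mul_mem (inv_mem rho_mem3)
    (Subgroup.Normal.conj_mem inferInstance _ rho_mem3 _)) _

/-- The negation of the preceding statement: In any free group with normal closures R1,R2,R3 of single elements, if x lies in R1∩R2∩R3 and some positive power of x lies in [R1,R2∩R3][R2,R1∩R3][R3,R1∩R2], then x itself lies in that subgroup. -/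
theorem result :
    ¬ (∀ (α : Type) (r₁ r₂ r₃ x : FreeGroup α) (n : ℕ), 0 < n →
      x ∈ Subgroup.normalClosure ({r₁} : Set (FreeGroup α)) ⊓
          Subgroup.normalClosure ({r₂} : Set (FreeGroup α)) ⊓
          Subgroup.normalClosure ({r₃} : Set (FreeGroup α)) →
      x ^ n ∈
        (⁅Subgroup.normalClosure ({r₁} : Set (FreeGroup α)),
            Subgroup.normalClosure ({r₂} : Set (FreeGroup α)) ⊓
              Subgroup.normalClosure ({r₃} : Set (FreeGroup α))⁆ ⊔
          ⁅Subgroup.normalClosure ({r₂} : Set (FreeGroup α)),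
            Subgroup.normalClosure ({r₁} : Set (FreeGroup α)) ⊓
              Subgroup.normalClosure ({r₃} : Set (FreeGroup α))⁆ ⊔
          ⁅Subgroup.normalClosure ({r₃} : Set (FreeGroup α)),
            Subgroup.normalClosure ({r₁} : Set (FreeGroup α)) ⊓
              Subgroup.normalClosure ({r₂} : Set (FreeGroup α))⁆) →
      x ∈
        (⁅Subgroup.normalClosure ({r₁} : Set (FreeGroup α)),
            Subgroup.normalClosure ({r₂} : Set (FreeGroup α)) ⊓
              Subgroup.normalClosure ({r₃} : Set (FreeGroup α))⁆ ⊔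
          ⁅Subgroup.normalClosure ({r₂} : Set (FreeGroup α)),
            Subgroup.normalClosure ({r₁} : Set (FreeGroup α)) ⊓
              Subgroup.normalClosure ({r₃} : Set (FreeGroup α))⁆ ⊔
          ⁅Subgroup.normalClosure ({r₃} : Set (FreeGroup α)),
            Subgroup.normalClosure ({r₁} : Set (FreeGroup α)) ⊓
              Subgroup.normalClosure ({r₂} : Set (FreeGroup α))⁆)) := by
  intro h
  have key := h (Fin 2) r1 gx (gy ^ 2) z 2 (by norm_num) ⟨⟨z_mem1, z_mem2⟩, z_mem3⟩ ?_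
  · have hle : ⁅Subgroup.normalClosure ({r1} : Set (FreeGroup (Fin 2))),
            Subgroup.normalClosure ({gx} : Set (FreeGroup (Fin 2))) ⊓
              Subgroup.normalClosure ({gy ^ 2} : Set (FreeGroup (Fin 2)))⁆ ⊔
          ⁅Subgroup.normalClosure ({gx} : Set (FreeGroup (Fin 2))),
            Subgroup.normalClosure ({r1} : Set (FreeGroup (Fin 2))) ⊓
              Subgroup.normalClosure ({gy ^ 2} : Set (FreeGroup (Fin 2)))⁆ ⊔
          ⁅Subgroup.normalClosure ({gy ^ 2} : Set (FreeGroup (Fin 2))),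
            Subgroup.normalClosure ({r1} : Set (FreeGroup (Fin 2))) ⊓
              Subgroup.normalClosure ({gx} : Set (FreeGroup (Fin 2)))⁆ ≤ f.ker := by
      refine sup_le (sup_le ?_ ?_) ?_
      · rw [Subgroup.commutator_le]
        intro a ha b hb
        rw [MonoidHom.mem_ker, map_commutatorElement]
        exact rot_comm (f_R1 ha) (f_R3 hb.2)
      · rw [Subgroup.commutator_le]
        intro a _ b hb
        rw [MonoidHom.mem_ker, map_commutatorElement]
        exact f_central hb.1 hb.2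
      · rw [Subgroup.commutator_le]
        intro a ha b hb
        rw [MonoidHom.mem_ker, map_commutatorElement]
        exact rot_comm (f_R3 ha) (f_R1 hb.1)
    exact f_z (hle key)
  · set J := ⁅Subgroup.normalClosure ({r1} : Set (FreeGroup (Fin 2))),
            Subgroup.normalClosure ({gx} : Set (FreeGroup (Fin 2))) ⊓
              Subgroup.normalClosure ({gy ^ 2} : Set (FreeGroup (Fin 2)))⁆ ⊔
          ⁅Subgroup.normalClosure ({gx} : Set (FreeGroup (Fin 2))),
            Subgroup.normalClosure ({r1} : Set (FreeGroup (Fin 2))) ⊓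
              Subgroup.normalClosure ({gy ^ 2} : Set (FreeGroup (Fin 2)))⁆ ⊔
          ⁅Subgroup.normalClosure ({gy ^ 2} : Set (FreeGroup (Fin 2))),
            Subgroup.normalClosure ({r1} : Set (FreeGroup (Fin 2))) ⊓
              Subgroup.normalClosure ({gx} : Set (FreeGroup (Fin 2)))⁆ with hJ
    have hJn : J.Normal := by rw [hJ]; infer_instance
    have hA0 : ⁅rho, r1⁆ ∈ J :=
      (le_sup_right : _ ≤ J) (Subgroup.commutator_mem_commutator rho_mem3 ⟨r1_mem1, r1_mem2⟩)
    have hB : ⁅gx, z⁆ ∈ J :=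
      ((le_sup_right : _ ≤ _ ⊔ _).trans (le_sup_left : _ ≤ J))
        (Subgroup.commutator_mem_commutator x_mem2 ⟨z_mem1, z_mem3⟩)
    have e : z ^ 2 = z * ⁅gx, z⁆⁻¹ * z⁻¹ * (r1 * ⁅rho, r1⁆⁻¹ * r1⁻¹) := by
      rw [z, rho]
      simp only [commutatorElement_def, pow_two]
      group
    rw [e]
    exact mul_mem (hJn.conj_mem _ (inv_mem hB) _) (hJn.conj_mem _ (inv_mem hA0) _)

end Pool.Agent.S02104
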