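import Pool.Statements.S02115

set_option autoImplicit false
open Pool Pool.MP_d4adc1_al

namespace Pool.Agent.S02115

/-- Swap the two coordinates when `k` is odd. -/
def sw (k : ℤ) (p : ℤ × ℤ) : ℤ × ℤ := if Even k then p else p.swap

lemma sw_add (k : ℤ) (p q : ℤ × ℤ) : sw k (p + q) = sw k p + sw k q := by
  unfold sw; split_ifs <;> simp

lemma sw_zero_left (p : ℤ × ℤ) : sw 0 p = p := by
  simp [sw]

lemma sw_zero (k : ℤ) : sw k 0 = 0 := by
  unfold sw; split_ifs <;> simp

lemma sw_add_left (k l : ℤ) (p : ℤ × ℤ) : sw (k + l) p = sw k (sw l p) := by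
  unfold sw
  by_cases hk : Even k <;> by_cases hl : Even l <;> simp [hk, hl, Int.even_add]

lemma sw_mono (k : ℤ) {p q : ℤ × ℤ} (h : p ≤ q) : sw k p ≤ sw k q := by
  unfold sw; split_ifs
  · exact h
  · exact ⟨h.2, h.1⟩

/-- The semidirect product of `ℤ × ℤ` by `ℤ`, the generator acting by the swap. -/
@[ext] structure K where
  k : ℤ
  p : ℤ × ℤ

instance : Mul K := ⟨fun a b => ⟨a.k + b.k, a.p + sw a.k b.p⟩⟩
instance : One K := ⟨⟨0, 0⟩⟩
instance : Inv K := ⟨fun a => ⟨-a.k, -(sw (-a.k) a.p)⟩⟩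

lemma mul_def (a b : K) : a * b = ⟨a.k + b.k, a.p + sw a.k b.p⟩ := rfl
lemma one_def : (1 : K) = ⟨0, 0⟩ := rfl
lemma inv_def (a : K) : a⁻¹ = ⟨-a.k, -(sw (-a.k) a.p)⟩ := rfl

instance : Group K := Group.ofLeftAxioms
  (by
    intro a b c
    simp only [mul_def, sw_add, sw_add_left, add_assoc])
  (by
    intro a
    simp only [mul_def, one_def, zero_add, sw_zero_left])
  (by
    intro a
    simp only [mul_def, one_def, inv_def, neg_add_cancel])

instance : LE K := ⟨fun a b => a.k < b.k ∨ (a.k = b.k ∧ a.p ≤ b.p)⟩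

lemma le_def (a b : K) : a ≤ b ↔ a.k < b.k ∨ (a.k = b.k ∧ a.p ≤ b.p) := Iff.rfl

instance : PartialOrder K where
  le := (· ≤ ·)
  le_refl a := Or.inr ⟨rfl, le_refl _⟩
  le_trans a b c hab hbc := by
    rw [le_def] at *
    rcases hab with hab | ⟨hab, hab'⟩ <;> rcases hbc with hbc | ⟨hbc, hbc'⟩
    · left; omega
    · left; omega
    · left; omega
    · right; exact ⟨hab.trans hbc, hab'.trans hbc'⟩
  le_antisymm a b hab hba := by
    rw [le_def] at *
    rcases hab with hab | ⟨hab, hab'⟩ <;> rcases hba with hba | ⟨hba, hba'⟩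
    · omega
    · omega
    · omega
    · exact K.ext hab (le_antisymm hab' hba')

instance : Lattice K where
  sup a b := if a.k < b.k then b else if b.k < a.k then a else ⟨a.k, a.p ⊔ b.p⟩
  inf a b := if a.k < b.k then a else if b.k < a.k then b else ⟨a.k, a.p ⊓ b.p⟩
  le_sup_left a b := by
    show _ ≤ ite _ _ _
    split_ifs with h1 h2
    · exact Or.inl h1
    · exact le_refl _
    · exact Or.inr ⟨rfl, le_sup_left⟩
  le_sup_right a b := by
    show _ ≤ ite _ _ _
    split_ifs with h1 h2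
    · exact le_refl _
    · exact Or.inl h2
    · exact Or.inr ⟨by show b.k = a.k; omega, le_sup_right⟩
  sup_le a b c hac hbc := by
    show ite _ _ _ ≤ _
    split_ifs with h1 h2
    · exact hbc
    · exact hac
    · rw [le_def] at *
      rcases hac with hac | ⟨hac, hac'⟩ <;> rcases hbc with hbc | ⟨hbc, hbc'⟩
      · left; exact hac
      · left; exact hac
      · left; show a.k < c.k; omega
      · right; exact ⟨hac, sup_le hac' hbc'⟩
  inf_le_left a b := by
    show ite _ _ _ ≤ _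
    split_ifs with h1 h2
    · exact le_refl _
    · exact Or.inl h2
    · exact Or.inr ⟨rfl, inf_le_left⟩
  inf_le_right a b := by
    show ite _ _ _ ≤ _
    split_ifs with h1 h2
    · exact Or.inl h1
    · exact le_refl _
    · exact Or.inr ⟨by show a.k = b.k; omega, inf_le_right⟩
  le_inf a b c hab hac := by
    show _ ≤ ite _ _ _
    split_ifs with h1 h2
    · exact hab
    · exact hac
    · rw [le_def] at *
      rcases hab with hab | ⟨hab, hab'⟩ <;> rcases hac with hac | ⟨hac, hac'⟩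
      · left; exact hab
      · left; exact hab
      · left; show a.k < b.k; omega
      · right; exact ⟨hab, le_inf hab' hac'⟩

lemma K_mul_left {a b : K} (c : K) (h : a ≤ b) : c * a ≤ c * b := by
  rw [le_def] at *
  simp only [mul_def]
  rcases h with h | ⟨h, h'⟩
  · left; omega
  · right
    exact ⟨by rw [h], add_le_add_right (sw_mono _ h') _⟩

lemma K_mul_right {a b : K} (c : K) (h : a ≤ b) : a * c ≤ b * c := by
  rw [le_def] at *
  simp only [mul_def]
  rcases h with h | ⟨h, h'⟩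
  · left; omega
  · right
    refine ⟨by rw [h], ?_⟩
    rw [h]
    exact add_le_add_left h' _

/-- The two factors. -/
abbrev Z2 : Type := Multiplicative (ℤ ×ₗ ℤ)

/-- first exponent -/
def fst (a : Z2) : ℤ := (ofLex (Multiplicative.toAdd a)).1
/-- second exponent -/
def snd (a : Z2) : ℤ := (ofLex (Multiplicative.toAdd a)).2

/-- the element with exponents `x`, `y` -/
def mk (x y : ℤ) : Z2 := Multiplicative.ofAdd (toLex (x, y))

@[simp] lemma fst_mul (a b : Z2) : fst (a * b) = fst a + fst b := rfl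
@[simp] lemma snd_mul (a b : Z2) : snd (a * b) = snd a + snd b := rfl
@[simp] lemma fst_one : fst 1 = 0 := rfl
@[simp] lemma snd_one : snd 1 = 0 := rfl
@[simp] lemma fst_mk (x y : ℤ) : fst (mk x y) = x := rfl
@[simp] lemma snd_mk (x y : ℤ) : snd (mk x y) = y := rfl

lemma Z2_ext {a b : Z2} (h1 : fst a = fst b) (h2 : snd a = snd b) : a = b := by
  have : ofLex (Multiplicative.toAdd a) = ofLex (Multiplicative.toAdd b) := Prod.ext h1 h2
  exact this

lemma Z2_le (a b : Z2) : a ≤ b ↔ fst a < fst b ∨ (fst a = fst b ∧ snd a ≤ snd b) := by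
  show (Multiplicative.toAdd a) ≤ (Multiplicative.toAdd b) ↔ _
  rw [Prod.Lex.le_iff]
  rfl

/-- The homomorphism given by two commuting elements. -/
def hom {H : Type} [Group H] (X Y : H) (h : Commute X Y) : Z2 →* H :=
  MonoidHom.mk' (fun a => X ^ fst a * Y ^ snd a) (by
    intro a b
    simp only [fst_mul, snd_mul, zpow_add]
    have := ((h.zpow_right (snd a)).zpow_left (fst b)).eq
    calc X ^ fst a * X ^ fst b * (Y ^ snd a * Y ^ snd b)
        = X ^ fst a * (X ^ fst b * Y ^ snd a) * Y ^ snd b := by group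
      _ = X ^ fst a * (Y ^ snd a * X ^ fst b) * Y ^ snd b := by rw [this]
      _ = _ := by group)

lemma hom_apply {H : Type} [Group H] (X Y : H) (h : Commute X Y) (a : Z2) :
    hom X Y h a = X ^ fst a * Y ^ snd a := rfl

/-- The embeddings of the amalgamated subgroup: `(a, b) ↦ (a, 2b)` and `(a, b) ↦ (2a, b)`. -/
def phi : ∀ _ : Fin 2, Z2 →* Z2 := fun i =>
  if i = 0 then hom (mk 1 0) (mk 0 2) (Commute.all _ _) else hom (mk 2 0) (mk 0 1) (Commute.all _ _)

lemma fst_zpow (a : Z2) (n : ℤ) : fst (a ^ n) = n * fst a := by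
  show (ofLex (Multiplicative.toAdd (a ^ n))).1 = _
  rw [toAdd_zpow]
  show n • (ofLex (Multiplicative.toAdd a)).1 = _
  rw [smul_eq_mul]; rfl

lemma snd_zpow (a : Z2) (n : ℤ) : snd (a ^ n) = n * snd a := by
  show (ofLex (Multiplicative.toAdd (a ^ n))).2 = _
  rw [toAdd_zpow]
  show n • (ofLex (Multiplicative.toAdd a)).2 = _
  rw [smul_eq_mul]; rfl

lemma phi_zero (a : Z2) : phi 0 a = mk (fst a) (2 * snd a) := by
  apply Z2_ext <;> simp [phi, hom_apply, fst_zpow, snd_zpow, mul_comm]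

lemma phi_one (a : Z2) : phi 1 a = mk (2 * fst a) (snd a) := by
  apply Z2_ext <;> simp [phi, hom_apply, fst_zpow, snd_zpow, mul_comm]

/-- the amalgamated product -/
abbrev P : Type := Monoid.PushoutI phi

/-- the generator of the second factor -/
def s : P := Monoid.PushoutI.of (φ := phi) 1 (mk 1 0)
/-- the generator of the first factor -/
def t : P := Monoid.PushoutI.of (φ := phi) 0 (mk 0 1)

lemma s_sq : s ^ 2 = Monoid.PushoutI.of (φ := phi) 0 (mk 1 0) := by
  have h0 := Monoid.PushoutI.of_apply_eq_base (φ := phi) 0 (mk 1 0)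
  have h1 := Monoid.PushoutI.of_apply_eq_base (φ := phi) 1 (mk 1 0)
  have e0 : phi 0 (mk 1 0) = mk 1 0 := by rw [phi_zero]; rfl
  have e1 : phi 1 (mk 1 0) = (mk 1 0) ^ 2 := by rw [phi_one]; rfl
  rw [e0] at h0
  rw [e1, map_pow] at h1
  rw [h0]; exact h1

lemma t_sq : t ^ 2 = Monoid.PushoutI.of (φ := phi) 1 (mk 0 1) := by
  have h0 := Monoid.PushoutI.of_apply_eq_base (φ := phi) 0 (mk 0 1)
  have h1 := Monoid.PushoutI.of_apply_eq_base (φ := phi) 1 (mk 0 1)
  have e0 : phi 0 (mk 0 1) = (mk 0 1) ^ 2 := by rw [phi_zero]; rfl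
  have e1 : phi 1 (mk 0 1) = mk 0 1 := by rw [phi_one]; rfl
  rw [e0, map_pow] at h0
  rw [e1] at h1
  rw [h1]; exact h0

lemma comm_s2_t : Commute (s ^ 2) t := by
  rw [s_sq]
  exact (Commute.all (mk 1 0) (mk 0 1)).map (Monoid.PushoutI.of (φ := phi) 0)

lemma comm_s_t2 : Commute s (t ^ 2) := by
  rw [t_sq]
  exact (Commute.all (mk 1 0) (mk 0 1)).map (Monoid.PushoutI.of (φ := phi) 1)

/-- the element `s t⁻¹` -/
def u : P := s * t⁻¹
/-- the element `t⁻¹ s` -/
def v : P := t⁻¹ * s

lemma t_u : t * u = v * t := by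
  have h : t ^ 2 * s = s * t ^ 2 := comm_s_t2.eq.symm
  have : t * (t * (s * t⁻¹)) = t * (t⁻¹ * s * t) := by
    calc t * (t * (s * t⁻¹)) = (t ^ 2 * s) * t⁻¹ := by simp only [pow_two]; group
      _ = (s * t ^ 2) * t⁻¹ := by rw [h]
      _ = t * (t⁻¹ * s * t) := by simp only [pow_two]; group
  exact mul_left_cancel this

lemma t_v : t * v = u * t := by
  unfold u v; group

lemma uv_comm : Commute u v := by
  show u * v = v * u
  have h : s ^ 2 * t = t * s ^ 2 := comm_s2_t.eq
  have h' : t ^ 2 * s = s * t ^ 2 := comm_s_t2.eq.symm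
  have h2 : s * t⁻¹ ^ 2 = t⁻¹ ^ 2 * s := by
    have := (comm_s_t2.inv_right).eq
    rw [inv_pow]; exact this
  have h3 : s ^ 2 * t⁻¹ = t⁻¹ * s ^ 2 := (comm_s2_t.inv_right).eq
  unfold u v
  calc s * t⁻¹ * (t⁻¹ * s) = (s * t⁻¹ ^ 2) * s := by group
    _ = (t⁻¹ ^ 2 * s) * s := by rw [h2]
    _ = t⁻¹ * (t⁻¹ * s ^ 2) := by simp only [pow_two]; group
    _ = t⁻¹ * (s ^ 2 * t⁻¹) := by rw [h3]
    _ = t⁻¹ * s * (s * t⁻¹) := by simp only [pow_two]; group

lemma tk_even (k : ℤ) (hk : Even k) : Commute (t ^ k) u ∧ Commute (t ^ k) v := by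
  obtain ⟨j, rfl⟩ := hk
  have h1 : Commute (t ^ 2) u := by
    show t ^ 2 * u = u * t ^ 2
    calc t ^ 2 * u = t * (t * u) := by simp only [pow_two]; group
      _ = t * (v * t) := by rw [t_u]
      _ = (t * v) * t := by group
      _ = (u * t) * t := by rw [t_v]
      _ = u * t ^ 2 := by simp only [pow_two]; group
  have h2 : Commute (t ^ 2) v := by
    show t ^ 2 * v = v * t ^ 2
    calc t ^ 2 * v = t * (t * v) := by simp only [pow_two]; group
      _ = t * (u * t) := by rw [t_v]
      _ = (t * u) * t := by group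
      _ = (v * t) * t := by rw [t_u]
      _ = v * t ^ 2 := by simp only [pow_two]; group
  have e : t ^ (j + j) = (t ^ 2) ^ j := by
    rw [← zpow_natCast, ← zpow_mul]; congr 1; push_cast; ring
  rw [e]
  exact ⟨h1.zpow_left j, h2.zpow_left j⟩

lemma semi (k m n : ℤ) : t ^ k * (u ^ m * v ^ n) = u ^ (sw k (m, n)).1 * v ^ (sw k (m, n)).2 * t ^ k := by
  by_cases hk : Even k
  · obtain ⟨h1, h2⟩ := tk_even k hk
    simp only [sw, if_pos hk]
    exact ((h1.zpow_right m).mul_right (h2.zpow_right n)).eq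
  · simp only [sw, if_neg hk, Prod.swap]
    have hk' : Even (k - 1) := by
      rw [Int.even_sub]; simp [hk]
    obtain ⟨h1, h2⟩ := tk_even (k - 1) hk'
    have hu : SemiconjBy (t ^ k) u v := by
      have : t ^ k = t * t ^ (k - 1) := by rw [← zpow_one_add]; congr 1; ring
      rw [this]
      exact SemiconjBy.mul_left (show SemiconjBy t u v from t_u) h1
    have hv : SemiconjBy (t ^ k) v u := by
      have : t ^ k = t * t ^ (k - 1) := by rw [← zpow_one_add]; congr 1; ring
      rw [this]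
      exact SemiconjBy.mul_left (show SemiconjBy t v u from t_v) h2
    have := ((hu.zpow_right m).mul_right (hv.zpow_right n)).eq
    rw [this]
    have hc := ((uv_comm.zpow_left n).zpow_right m).eq
    rw [hc]

/-- The map from the model to the amalgamated product. -/
def psi : K →* P := MonoidHom.mk' (fun a => u ^ a.p.1 * v ^ a.p.2 * t ^ a.k) (by
  intro a b
  simp only [mul_def, Prod.fst_add, Prod.snd_add, zpow_add]
  have h := semi a.k b.p.1 b.p.2
  have hc := ((uv_comm.zpow_left (sw a.k b.p).1).zpow_right a.p.2).eq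
  calc u ^ a.p.1 * u ^ (sw a.k b.p).1 * (v ^ a.p.2 * v ^ (sw a.k b.p).2) * (t ^ a.k * t ^ b.k)
      = u ^ a.p.1 * (u ^ (sw a.k b.p).1 * v ^ a.p.2) * v ^ (sw a.k b.p).2 * (t ^ a.k * t ^ b.k) := by
        group
    _ = u ^ a.p.1 * (v ^ a.p.2 * u ^ (sw a.k b.p).1) * v ^ (sw a.k b.p).2 * (t ^ a.k * t ^ b.k) := by
        rw [hc]
    _ = u ^ a.p.1 * v ^ a.p.2 * (u ^ (sw a.k b.p).1 * v ^ (sw a.k b.p).2 * t ^ a.k) * t ^ b.k := by
        group
    _ = u ^ a.p.1 * v ^ a.p.2 * (t ^ a.k * (u ^ b.p.1 * v ^ b.p.2)) * t ^ b.k := by rw [h]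
    _ = _ := by group)

lemma psi_apply (a : K) : psi a = u ^ a.p.1 * v ^ a.p.2 * t ^ a.k := rfl

/-- the image of `s` in the model -/
def sK : K := ⟨1, (1, 0)⟩
/-- the image of `t` in the model -/
def tK : K := ⟨1, (0, 0)⟩

lemma odd_one' : ¬ Even (1 : ℤ) := by decide

lemma sK_sq : sK ^ 2 = ⟨2, (1, 1)⟩ := by
  rw [pow_two]; simp [mul_def, sK, sw]

lemma tK_sq : tK ^ 2 = ⟨2, (0, 0)⟩ := by
  rw [pow_two]; simp [mul_def, tK, sw]

lemma comm1 : Commute (sK ^ 2) tK := by
  show sK ^ 2 * tK = tK * sK ^ 2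
  rw [sK_sq]; simp [mul_def, tK, sw]

lemma comm2 : Commute sK (tK ^ 2) := by
  show sK * tK ^ 2 = tK ^ 2 * sK
  rw [tK_sq]; simp [mul_def, sK, sw]

/-- The map from the amalgamated product to the model. -/
def f : P →* K := Monoid.PushoutI.lift
  (fun i : Fin 2 => if i = 0 then hom (sK ^ 2) tK comm1 else hom sK (tK ^ 2) comm2)
  (hom (sK ^ 2) (tK ^ 2) (comm2.pow_left 2))
  (by
    intro i
    fin_cases i
    · ext a
      · simp [hom_apply, phi_zero, zpow_mul]
      · simp [hom_apply, phi_zero, zpow_mul]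
      · simp [hom_apply, phi_zero, zpow_mul]
    · ext a
      · simp [hom_apply, phi_one, zpow_mul]
      · simp [hom_apply, phi_one, zpow_mul]
      · simp [hom_apply, phi_one, zpow_mul])

lemma f_s : f s = sK := by
  unfold f s
  rw [Monoid.PushoutI.lift_of]
  simp [hom_apply]

lemma f_t : f t = tK := by
  unfold f t
  rw [Monoid.PushoutI.lift_of]
  simp [hom_apply]

lemma psi_sK : psi sK = s := by
  rw [psi_apply]; simp [sK, u]

lemma psi_tK : psi tK = t := by
  rw [psi_apply]; simp [tK]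

lemma psi_f (x : P) : psi (f x) = x := by
  have : psi.comp f = MonoidHom.id P := by
    apply Monoid.PushoutI.hom_ext_nonempty
    intro i
    fin_cases i
    · ext a
      show psi (f (Monoid.PushoutI.of (φ := phi) 0 a)) = Monoid.PushoutI.of (φ := phi) 0 a
      have ha : a = (mk 1 0) ^ fst a * (mk 0 1) ^ snd a := by
        apply Z2_ext <;> simp [fst_zpow, snd_zpow]
      have h1 : Monoid.PushoutI.of (φ := phi) 0 a = (s ^ 2) ^ fst a * t ^ snd a := by
        conv_lhs => rw [ha]
        rw [map_mul, map_zpow, map_zpow, ← s_sq]; rfl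
      rw [h1]
      simp only [map_mul, map_zpow, map_pow, f_s, f_t, psi_sK, psi_tK]
    · ext a
      show psi (f (Monoid.PushoutI.of (φ := phi) 1 a)) = Monoid.PushoutI.of (φ := phi) 1 a
      have ha : a = (mk 1 0) ^ fst a * (mk 0 1) ^ snd a := by
        apply Z2_ext <;> simp [fst_zpow, snd_zpow]
      have h1 : Monoid.PushoutI.of (φ := phi) 1 a = s ^ fst a * (t ^ 2) ^ snd a := by
        conv_lhs => rw [ha]
        rw [map_mul, map_zpow, map_zpow, ← t_sq]; rfl
      rw [h1]
      simp only [map_mul, map_zpow, map_pow, f_s, f_t, psi_sK, psi_tK]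
  exact DFunLike.congr_fun this x

/-- The inclusion of the normal subgroup. -/
def i1 : Multiplicative (ℤ × ℤ) →* K := MonoidHom.mk' (fun p => ⟨0, Multiplicative.toAdd p⟩) (by
  intro a b
  simp [mul_def, sw_zero_left])

/-- The inclusion of the complement. -/
def i2 : Multiplicative ℤ →* K := MonoidHom.mk' (fun k => ⟨Multiplicative.toAdd k, 0⟩) (by
  intro a b
  simp [mul_def, sw_zero])

lemma zpow_i1 (p : ℤ × ℤ) (n : ℤ) : (⟨0, p⟩ : K) ^ n = ⟨0, n • p⟩ := by
  have := map_zpow i1 (Multiplicative.ofAdd p) n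
  rw [← ofAdd_zsmul] at this
  exact this.symm

lemma zpow_i2 (k : ℤ) (n : ℤ) : (⟨k, 0⟩ : K) ^ n = ⟨n • k, 0⟩ := by
  have := map_zpow i2 (Multiplicative.ofAdd k) n
  rw [← ofAdd_zsmul] at this
  exact this.symm

lemma f_u : f u = ⟨0, (1, 0)⟩ := by
  unfold u
  rw [map_mul, map_inv, f_s, f_t]
  simp [mul_def, inv_def, sK, tK, sw]

lemma f_v : f v = ⟨0, (0, 1)⟩ := by
  unfold v
  rw [map_mul, map_inv, f_s, f_t]
  simp [mul_def, inv_def, sK, tK, sw]

lemma f_psi (a : K) : f (psi a) = a := by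
  rw [psi_apply, map_mul, map_mul, map_zpow, map_zpow, map_zpow, f_u, f_v, f_t, zpow_i1, zpow_i1]
  have : tK = ⟨1, 0⟩ := rfl
  rw [this, zpow_i2]
  simp [mul_def, sw_zero_left]

/-- The lattice order on the amalgamated product, transported from the model. -/
@[instance_reducible] def latP : Lattice P where
  le a b := f a ≤ f b
  le_refl a := le_refl _
  le_trans a b c h h' := le_trans (α := K) h h'
  le_antisymm a b h h' := by
    rw [← psi_f a, ← psi_f b, le_antisymm h h']
  sup a b := psi (f a ⊔ f b)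
  inf a b := psi (f a ⊓ f b)
  le_sup_left a b := by
    show f a ≤ f (psi (f a ⊔ f b))
    rw [f_psi]; exact le_sup_left
  le_sup_right a b := by
    show f b ≤ f (psi (f a ⊔ f b))
    rw [f_psi]; exact le_sup_right
  sup_le a b c hac hbc := by
    show f (psi (f a ⊔ f b)) ≤ f c
    rw [f_psi]; exact sup_le hac hbc
  inf_le_left a b := by
    show f (psi (f a ⊓ f b)) ≤ f a
    rw [f_psi]; exact inf_le_left
  inf_le_right a b := by
    show f (psi (f a ⊓ f b)) ≤ f b
    rw [f_psi]; exact inf_le_right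
  le_inf a b c hab hac := by
    show f a ≤ f (psi (f b ⊓ f c))
    rw [f_psi]; exact le_inf hab hac

lemma latP_inv (a b c : P) (h : latP.le a b) : latP.le (c * a) (c * b) ∧ latP.le (a * c) (b * c) := by
  constructor
  · show f (c * a) ≤ f (c * b)
    rw [map_mul, map_mul]
    exact K_mul_left _ h
  · show f (a * c) ≤ f (b * c)
    rw [map_mul, map_mul]
    exact K_mul_right _ h

lemma conj_inv : t * (u * v⁻¹) * t⁻¹ = (u * v⁻¹)⁻¹ := by
  have hc := uv_comm.eq
  have h1 : t * u * t⁻¹ = v := by rw [t_u]; group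
  have h2 : t * v * t⁻¹ = u := by rw [t_v]; group
  calc t * (u * v⁻¹) * t⁻¹ = (t * u * t⁻¹) * (t * v * t⁻¹)⁻¹ := by group
    _ = v * u⁻¹ := by rw [h1, h2]
    _ = (u * v⁻¹)⁻¹ := by group

lemma w_ne : u * v⁻¹ ≠ 1 := by
  intro h
  have h1 := congrArg f h
  rw [map_mul, map_inv, map_one, f_u, f_v] at h1
  have h2 := congrArg (fun a : K => a.p.1) h1
  simp [mul_def, inv_def, sw, one_def] at h2

lemma no_order : ¬ ∃ O : LinearOrder P, ∀ a b c : P,
    O.le a b → O.le (c * a) (c * b) ∧ O.le (a * c) (b * c) := by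
  rintro ⟨O, hO⟩
  have key : ∀ a b : P, O.le a b → O.le (t * a * t⁻¹) (t * b * t⁻¹) := fun a b h =>
    (hO _ _ _ ((hO a b t h).1)).2
  apply w_ne
  rcases O.le_total (u * v⁻¹) 1 with h | h
  · have h1 := key _ _ h
    rw [conj_inv, mul_one, mul_inv_cancel] at h1
    have h2 := (hO _ _ (u * v⁻¹) h1).1
    rw [mul_inv_cancel, mul_one] at h2
    exact O.le_antisymm _ _ h h2
  · have h1 := key _ _ h
    rw [conj_inv, mul_one, mul_inv_cancel] at h1
    have h2 := (hO _ _ (u * v⁻¹) h1).1
    rw [mul_inv_cancel, mul_one] at h2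
    exact O.le_antisymm _ _ h2 h

/-- There exist two bi-ordered groups and a common subgroup embedded in both with the same induced order, whose amalgamated free product admits a bi-invariant lattice order but no bi-invariant total order. -/
theorem result :
    ∃ (G : Fin 2 → Type) (_ : ∀ i, Group (G i)) (_ : ∀ i, LinearOrder (G i))
      (A : Type) (_ : Group A) (φ : ∀ i, A →* G i),
      (∀ (i : Fin 2) (a b c : G i), a ≤ b → c * a ≤ c * b ∧ a * c ≤ b * c) ∧
      (∀ i, Function.Injective (φ i)) ∧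
      (∀ a b : A, φ 0 a ≤ φ 0 b ↔ φ 1 a ≤ φ 1 b) ∧
      (∃ L : Lattice (Monoid.PushoutI φ), ∀ a b c : Monoid.PushoutI φ,
          L.le a b → L.le (c * a) (c * b) ∧ L.le (a * c) (b * c)) ∧
      ¬ ∃ O : LinearOrder (Monoid.PushoutI φ), ∀ a b c : Monoid.PushoutI φ,
          O.le a b → O.le (c * a) (c * b) ∧ O.le (a * c) (b * c) := by
  refine ⟨fun _ => Z2, fun _ => inferInstance, fun _ => inferInstance, Z2, inferInstance, phi,
    ?_, ?_, ?_, ?_, ?_⟩
  · intro i a b c h
    simp only [Z2_le, fst_mul, snd_mul] at h ⊢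
    constructor
    · rcases h with h | ⟨h, h'⟩
      · left; omega
      · right; exact ⟨by omega, by omega⟩
    · rcases h with h | ⟨h, h'⟩
      · left; omega
      · right; exact ⟨by omega, by omega⟩
  · intro i
    fin_cases i
    · intro a b h
      change phi 0 a = phi 0 b at h
      rw [phi_zero, phi_zero] at h
      have h1 := congrArg fst h
      have h2 := congrArg snd h
      simp only [fst_mk, snd_mk] at h1 h2
      exact Z2_ext (by omega) (by omega)
    · intro a b h
      change phi 1 a = phi 1 b at h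
      rw [phi_one, phi_one] at h
      have h1 := congrArg fst h
      have h2 := congrArg snd h
      simp only [fst_mk, snd_mk] at h1 h2
      exact Z2_ext (by omega) (by omega)
  · intro a b
    rw [phi_zero, phi_zero, phi_one, phi_one]
    simp only [Z2_le, fst_mk, snd_mk]
    constructor
    · rintro (h | ⟨h, h'⟩)
      · left; omega
      · right; exact ⟨by omega, by omega⟩
    · rintro (h | ⟨h, h'⟩)
      · left; omega
      · right; exact ⟨by omega, by omega⟩
  · exact ⟨latP, latP_inv⟩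
  · exact no_order

end Pool.Agent.S02115
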