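import Pool.Statements.S02118

set_option autoImplicit false
open Pool Pool.MP_d4d493_al

namespace Pool.Agent.S02118

noncomputable section

/-- The field of formal Laurent series over the complex numbers. -/
def E0 : Type := LaurentSeries ℂ

instance : Field E0 := inferInstanceAs (Field (LaurentSeries ℂ))

/-- constants -/
def constHom : ℂ →+* E0 := (HahnSeries.C : ℂ →+* HahnSeries ℤ ℂ)

instance : Algebra ℂ E0 := constHom.toAlgebra

/-- coefficients -/
def cf (f : E0) (n : ℤ) : ℂ := HahnSeries.coeff (f : LaurentSeries ℂ) n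

/-- monomials -/
def mono (n : ℤ) : E0 := (HahnSeries.single n (1 : ℂ) : LaurentSeries ℂ)

theorem E0_ext {f g : E0} (h : ∀ n, cf f n = cf g n) : f = g := by
  apply HahnSeries.ext
  funext n
  exact h n

theorem cf_add (f g : E0) (n : ℤ) : cf (f + g) n = cf f n + cf g n := rfl
theorem cf_zero (n : ℤ) : cf 0 n = 0 := rfl
theorem smul_def' (c : ℂ) (f : E0) : c • f = constHom c * f := rfl
theorem coeff_const_mul (c : ℂ) (f : HahnSeries ℤ ℂ) (n : ℤ) :
    (HahnSeries.C c * f).coeff n = c * f.coeff n := by
  rw [HahnSeries.C_mul_eq_smul]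
  rfl
theorem cf_smul (c : ℂ) (f : E0) (n : ℤ) : cf (c • f) n = c * cf f n :=
  coeff_const_mul c f n

/-- The Euler operator on Hahn series, multiplying the coefficient of degree n by n. -/
def thetaL (f : HahnSeries ℤ ℂ) : HahnSeries ℤ ℂ where
  coeff := fun n => (n : ℂ) * f.coeff n
  isPWO_support' := f.isPWO_support.mono (by
        intro n hn
        simp only [Function.mem_support, ne_eq, mul_eq_zero, not_or] at hn
        exact hn.2)

/-- The Euler operator. -/
def thetaFun (f : E0) : E0 := thetaL f

theorem theta_cf (f : E0) (n : ℤ) : cf (thetaFun f) n = (n : ℂ) * cf f n := rfl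

theorem theta_support (f : HahnSeries ℤ ℂ) : (thetaL f).support ⊆ f.support := by
  intro n hn
  have h1 : (n : ℂ) * f.coeff n ≠ 0 := hn
  exact right_ne_zero_of_mul h1

theorem cf_mul_theta (f g : HahnSeries ℤ ℂ) (n : ℤ) :
    (n : ℂ) * (f * g).coeff n = (thetaL f * g).coeff n + (f * thetaL g).coeff n := by
  rw [HahnSeries.coeff_mul,
    HahnSeries.coeff_mul_left' (x := thetaL f) f.isPWO_support (theta_support f),
    HahnSeries.coeff_mul_right' (y := thetaL g) g.isPWO_support (theta_support g),
    Finset.mul_sum, ← Finset.sum_add_distrib]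
  refine Finset.sum_congr rfl ?_
  intro ij hij
  rw [Finset.mem_antidiagonal] at hij
  have e1 : (thetaL f).coeff ij.1 = (ij.1 : ℂ) * f.coeff ij.1 := rfl
  have e2 : (thetaL g).coeff ij.2 = (ij.2 : ℂ) * g.coeff ij.2 := rfl
  rw [e1, e2, ← hij.2.2]
  push_cast
  ring

theorem theta_mul (f g : E0) : thetaFun (f * g) = thetaFun f * g + f * thetaFun g := by
  apply E0_ext
  intro n
  rw [theta_cf, cf_add]
  exact cf_mul_theta f g n

theorem theta_eq_zero {h : E0} (hh : thetaFun h = 0) : ∃ c : ℂ, h = algebraMap ℂ E0 c := by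
  refine ⟨cf h 0, ?_⟩
  apply E0_ext
  intro n
  have e0 : cf (algebraMap ℂ E0 (cf h 0)) n = HahnSeries.coeff (HahnSeries.single (0 : ℤ) (cf h 0)) n := rfl
  rw [e0]
  by_cases hn : n = 0
  · subst hn
    simp
  · have h1 : (n : ℂ) * cf h n = 0 := by
      rw [← theta_cf, hh]; rfl
    have h2 : (n : ℂ) ≠ 0 := by exact_mod_cast hn
    have h3 : cf h n = 0 := by
      rcases mul_eq_zero.mp h1 with h4 | h4
      · exact absurd h4 h2
      · exact h4
    rw [h3, HahnSeries.coeff_single_of_ne hn]

/-- The Euler derivation. -/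
def theta : Derivation ℂ E0 E0 :=
  Derivation.mk'
    { toFun := thetaFun
      map_add' := by
        intro f g
        apply E0_ext
        intro n
        rw [theta_cf, cf_add, cf_add, theta_cf, theta_cf]
        ring
      map_smul' := by
        intro c f
        apply E0_ext
        intro n
        rw [theta_cf, cf_smul, RingHom.id_apply, cf_smul, theta_cf]
        ring }
    (by
      intro a b
      change thetaFun (a * b) = a • thetaFun b + b • thetaFun a
      rw [theta_mul, smul_eq_mul, smul_eq_mul]
      ring)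

theorem theta_apply (f : E0) : theta f = thetaFun f := rfl

theorem not_fd : ¬ FiniteDimensional ℂ E0 := by
  intro hfd
  have hli : LinearIndependent ℂ (fun n : ℕ => mono (n : ℤ)) := by
    rw [linearIndependent_iff']
    intro s g hs i hi
    have hcs : ∀ t : Finset ℕ, cf (∑ j ∈ t, g j • mono (j : ℤ)) (i : ℤ)
        = ∑ j ∈ t, g j * cf (mono (j : ℤ)) (i : ℤ) := by
      intro t
      induction t using Finset.induction_on with
      | empty => simp [cf_zero]
      | insert a t hat ih =>
        rw [Finset.sum_insert hat, Finset.sum_insert hat, cf_add, ih, cf_smul]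
    have h1 := hcs s
    rw [hs, cf_zero, Finset.sum_eq_single i] at h1
    · have h2 : cf (mono (i : ℤ)) (i : ℤ) = 1 := by
        unfold cf mono
        simp
      rw [h2, mul_one] at h1
      exact h1.symm
    · intro b _ hb
      have h3 : ((i : ℤ)) ≠ (b : ℤ) := by exact_mod_cast (Ne.symm hb)
      have h4 : cf (mono (b : ℤ)) (i : ℤ) = 0 := by
        unfold cf mono
        exact HahnSeries.coeff_single_of_ne h3
      rw [h4, mul_zero]
    · intro h; exact absurd hi h
  have := hli.finite
  exact not_finite ℕ

/-- A subspace containing all products of two elements of a subspace of finite codimension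
is everything. -/
theorem prod_span (V S : Submodule ℂ E0) (hV : FiniteDimensional ℂ (E0 ⧸ V))
    (hVS : ∀ f ∈ V, ∀ g ∈ V, f * g ∈ S) : S = ⊤ := by
  have hVinf : ¬ FiniteDimensional ℂ V := by
    intro h
    exact not_fd (Module.Finite.of_submodule_quotient V)
  have hVne : V ≠ ⊥ := by
    rintro rfl
    exact hVinf inferInstance
  obtain ⟨f0, hf0, hf0ne⟩ := (Submodule.ne_bot_iff V).mp hVne
  -- multiplication maps
  let mulq : V →ₗ[ℂ] ((E0 ⧸ V) →ₗ[ℂ] (E0 ⧸ S)) :=
    { toFun := fun f => V.mapQ S (LinearMap.mulLeft ℂ (f : E0)) (by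
        intro g hg
        exact hVS _ f.2 _ hg)
      map_add' := by
        intro f g
        apply Submodule.linearMap_qext
        apply LinearMap.ext
        intro x
        change S.mkQ (((f + g : V) : E0) * x)
          = S.mkQ ((f : E0) * x) + S.mkQ ((g : E0) * x)
        rw [← map_add, Submodule.coe_add, add_mul]
      map_smul' := by
        intro c f
        apply Submodule.linearMap_qext
        apply LinearMap.ext
        intro x
        change S.mkQ (((c • f : V) : E0) * x)
          = c • S.mkQ ((f : E0) * x)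
        rw [← map_smul, Submodule.coe_smul, smul_mul_assoc] }
  have hSfin : FiniteDimensional ℂ (E0 ⧸ S) := by
    have hsurj : Function.Surjective (mulq ⟨f0, hf0⟩) := by
      intro y
      obtain ⟨y, rfl⟩ := Submodule.Quotient.mk_surjective S y
      refine ⟨Submodule.Quotient.mk (f0⁻¹ * y), ?_⟩
      change Submodule.Quotient.mk (f0 * (f0⁻¹ * y)) = _
      rw [← mul_assoc, mul_inv_cancel₀ hf0ne, one_mul]
    exact Module.Finite.of_surjective _ hsurj
  have hninj : ¬ Function.Injective mulq := by
    intro hinj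
    exact hVinf (Module.Finite.of_injective mulq hinj)
  have : LinearMap.ker mulq ≠ ⊥ := by
    intro h
    exact hninj (LinearMap.ker_eq_bot.mp h)
  obtain ⟨f, hf, hfne⟩ := (Submodule.ne_bot_iff _).mp this
  have hfne' : (f : E0) ≠ 0 := by
    intro h
    exact hfne (Subtype.ext h)
  rw [eq_top_iff]
  intro y _
  have h1 : mulq f (Submodule.Quotient.mk ((f : E0)⁻¹ * y)) = 0 := by
    rw [LinearMap.mem_ker.mp hf]; rfl
  have h2 : mulq f (Submodule.Quotient.mk ((f : E0)⁻¹ * y))
      = Submodule.Quotient.mk ((f : E0) * ((f : E0)⁻¹ * y)) := rfl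
  rw [h2, ← mul_assoc, mul_inv_cancel₀ hfne', one_mul] at h1
  exact (Submodule.Quotient.mk_eq_zero S).mp h1

/-- The Lie algebra: pairs of Laurent series, with bracket the Wronskian of the first
components placed in the second component. -/
@[ext] structure L0 where
  /-- first component -/
  a : E0
  /-- second component -/
  b : E0

/-- The bijection with the product. -/
def e0 : L0 ≃ E0 × E0 where
  toFun x := (x.a, x.b)
  invFun x := ⟨x.1, x.2⟩
  left_inv _ := rfl
  right_inv _ := rfl

instance : AddCommGroup L0 := e0.addCommGroup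
instance : Module ℂ L0 := e0.module ℂ

instance : Bracket L0 L0 := ⟨fun x y => ⟨0, x.a * theta y.a - theta x.a * y.a⟩⟩

@[simp] theorem add_a (x y : L0) : (x + y).a = x.a + y.a := rfl
@[simp] theorem add_b (x y : L0) : (x + y).b = x.b + y.b := rfl
@[simp] theorem neg_a (x : L0) : (-x).a = -x.a := rfl
@[simp] theorem neg_b (x : L0) : (-x).b = -x.b := rfl
@[simp] theorem smul_a (c : ℂ) (y : L0) : (c • y).a = c • y.a := rfl
@[simp] theorem smul_b (c : ℂ) (y : L0) : (c • y).b = c • y.b := rfl
@[simp] theorem zero_a : (0 : L0).a = 0 := rfl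
@[simp] theorem zero_b : (0 : L0).b = 0 := rfl
@[simp] theorem br_a (x y : L0) : ⁅x, y⁆.a = 0 := rfl
@[simp] theorem br_b (x y : L0) : ⁅x, y⁆.b = x.a * theta y.a - theta x.a * y.a := rfl

instance : LieRing L0 where
  add_lie x y z := by
    ext1
    · simp
    · simp only [add_a, add_b, br_b, map_add]; ring
  lie_add x y z := by
    ext1
    · simp
    · simp only [add_a, add_b, br_b, map_add]; ring
  lie_self x := by
    ext1
    · simp
    · simp only [zero_b, br_b]; ring
  leibniz_lie x y z := by
    ext1
    · simp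
    · simp only [add_b, br_b, br_a, map_zero]; ring

instance : LieAlgebra ℂ L0 where
  lie_smul c x y := by
    ext1
    · simp
    · simp only [smul_a, smul_b, br_b]
      rw [Derivation.map_smul, mul_smul_comm, mul_smul_comm, smul_sub]

/-- The negation of the preceding statement: Let L be a 2-step nilpotent Lie algebra over an algebraically closed field, where each non-central element's centralizer lies in a finite-dimensional subspace plus the center. Then every nonzero element lies outside some Lie ideal of finite codimension. -/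
theorem result :
    ¬ (∀ (K : Type) (L : Type) [Field K] [IsAlgClosed K] [LieRing L] [LieAlgebra K L],
      (∀ x y z : L, ⁅x, ⁅y, z⁆⁆ = 0) →
      (∀ x : L, (∃ y : L, ⁅x, y⁆ ≠ 0) →
        ∃ W : Submodule K L, FiniteDimensional K W ∧
          ∀ y : L, ⁅x, y⁆ = 0 →
            ∃ w ∈ W, ∃ z : L, (∀ u : L, ⁅z, u⁆ = 0) ∧ y = w + z) →
      ∀ x : L, x ≠ 0 →
        ∃ I : LieIdeal K L, x ∉ I ∧ FiniteDimensional K (L ⧸ (I : Submodule K L))) := by
  intro h
  have hnil : ∀ x y z : L0, ⁅x, ⁅y, z⁆⁆ = 0 := by
    intro x y z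
    ext1 <;> simp
  have hcent : ∀ x : L0, (∃ y : L0, ⁅x, y⁆ ≠ 0) →
        ∃ W : Submodule ℂ L0, FiniteDimensional ℂ W ∧
          ∀ y : L0, ⁅x, y⁆ = 0 →
            ∃ w ∈ W, ∃ z : L0, (∀ u : L0, ⁅z, u⁆ = 0) ∧ y = w + z := by
    intro x hx
    have hf : x.a ≠ 0 := by
      intro h0
      obtain ⟨y, hy⟩ := hx
      apply hy
      ext1 <;> simp [h0]
    refine ⟨Submodule.span ℂ {x}, inferInstance, ?_⟩
    intro y hy
    have hy2 : x.a * theta y.a - theta x.a * y.a = 0 := by
      rw [← br_b, hy]; rfl
    have hy3 : theta (y.a / x.a) = 0 := by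
      have e1 : y.a = (y.a / x.a) * x.a := by field_simp
      have e2 : theta y.a = theta (y.a / x.a) * x.a + (y.a / x.a) * theta x.a := by
        conv_lhs => rw [e1]
        rw [theta_apply, theta_apply, theta_apply, theta_mul]
      have e3 : x.a * x.a * theta (y.a / x.a) = 0 := by
        have : x.a * x.a * theta (y.a / x.a) = x.a * theta y.a - theta x.a * y.a := by
          rw [e2]
          field_simp
          ring
        rw [this, hy2]
      rcases mul_eq_zero.mp e3 with e4 | e4
      · exact absurd (mul_self_eq_zero.mp e4) hf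
      · exact e4
    obtain ⟨c, hc⟩ := theta_eq_zero hy3
    have hyc : y.a = c • x.a := by
      have e1 : y.a = (y.a / x.a) * x.a := by field_simp
      rw [e1, hc, Algebra.smul_def]
    refine ⟨c • x, Submodule.smul_mem _ _ (Submodule.mem_span_singleton_self x),
      ⟨0, y.b - c • x.b⟩, ?_, ?_⟩
    · intro u
      ext1 <;> simp
    · ext1
      · simp [hyc]
      · simp
  have hm1 : mono 1 ≠ 0 := by
    intro h1
    have h2 : cf (mono 1) 1 = 0 := by rw [h1]; rfl
    have h3 : cf (mono 1) 1 = 1 := by
      unfold cf mono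
      simp
    rw [h3] at h2
    exact one_ne_zero h2
  have hne : (⟨0, mono 1⟩ : L0) ≠ (0 : L0) := by
    intro h0
    exact hm1 (congrArg L0.b h0)
  obtain ⟨I, hI, hfin⟩ := h ℂ L0 hnil hcent _ hne
  apply hI
  let fstL : L0 →ₗ[ℂ] E0 :=
    { toFun := fun x => x.a
      map_add' := fun _ _ => rfl
      map_smul' := fun _ _ => rfl }
  let V : Submodule ℂ E0 := Submodule.map fstL (I : Submodule ℂ L0)
  have hV : FiniteDimensional ℂ (E0 ⧸ V) := by
    let q : (L0 ⧸ (I : Submodule ℂ L0)) →ₗ[ℂ] (E0 ⧸ V) :=
      Submodule.mapQ _ _ fstL (Submodule.le_comap_map fstL _)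
    have hq : Function.Surjective q := by
      intro y
      obtain ⟨y, rfl⟩ := Submodule.Quotient.mk_surjective V y
      exact ⟨Submodule.Quotient.mk (⟨y, 0⟩ : L0), rfl⟩
    exact Module.Finite.of_surjective q hq
  have hT : theta (mono 1) = mono 1 := by
    apply E0_ext
    intro n
    rw [theta_apply, theta_cf]
    by_cases hn : n = 1
    · subst hn; simp
    · have h4 : cf (mono 1) n = 0 := by
        unfold cf mono
        exact HahnSeries.coeff_single_of_ne hn
      rw [h4, mul_zero]
  let inrT : E0 →ₗ[ℂ] L0 :=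
    { toFun := fun b => ⟨0, b * mono 1⟩
      map_add' := by
        intro a b
        ext1
        · simp
        · simp only [add_b]; ring
      map_smul' := by
        intro c b
        ext1
        · simp
        · simp }
  let S : Submodule ℂ E0 := Submodule.comap inrT (I : Submodule ℂ L0)
  -- the square relation
  have hsq : ∀ f ∈ V, inrT (f * f) ∈ (I : Submodule ℂ L0) := by
    intro f hf
    obtain ⟨x, hx, hxf⟩ := hf
    have hxf' : x.a = f := hxf
    have hmem : ⁅(⟨f * mono 1, 0⟩ : L0), x⁆ ∈ I := lie_mem_right ℂ L0 I _ _ hx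
    have heq : inrT (f * f) = - ⁅(⟨f * mono 1, 0⟩ : L0), x⁆ := by
      ext1
      · change (0 : E0) = - 0
        simp
      · change f * f * mono 1 = - ((f * mono 1) * theta x.a - theta (f * mono 1) * x.a)
        rw [theta_apply (f * mono 1), hxf', theta_mul, ← theta_apply, ← theta_apply, hT]
        ring
    rw [heq]
    exact Submodule.neg_mem _ hmem
  have hVS : ∀ f ∈ V, ∀ g ∈ V, f * g ∈ S := by
    intro f hf g hg
    have h1 := hsq (f + g) (Submodule.add_mem _ hf hg)
    have h2 := hsq f hf
    have h3 := hsq g hg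
    have h4 : inrT (f * g) = (2⁻¹ : ℂ) • (inrT ((f + g) * (f + g)) - inrT (f * f) - inrT (g * g)) := by
      rw [← map_sub, ← map_sub, ← map_smul]
      congr 1
      have : (f + g) * (f + g) - f * f - g * g = (2 : ℂ) • (f * g) := by
        rw [two_smul]; ring
      rw [this, smul_smul]
      norm_num
    change inrT (f * g) ∈ (I : Submodule ℂ L0)
    rw [h4]
    exact Submodule.smul_mem _ _ (Submodule.sub_mem _ (Submodule.sub_mem _ h1 h2) h3)
  have hS := prod_span V S hV hVS
  have hfinal : (1 : E0) ∈ S := by rw [hS]; trivial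
  have h5 : inrT 1 ∈ (I : Submodule ℂ L0) := hfinal
  have h6 : inrT 1 = (⟨0, mono 1⟩ : L0) := by
    ext1
    · rfl
    · change (1 : E0) * mono 1 = mono 1
      rw [one_mul]
  rw [h6] at h5
  exact h5

end

end Pool.Agent.S02118
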