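import Pool.Statements.S02124
import Pool.Agent.Helper386.D5V.Helper386_LOC_Final

set_option autoImplicit false
open scoped TensorProduct
open Pool Pool.MP_d5741c_al

namespace Pool.Agent.S02124

/-- The negation of the preceding statement: If two central division algebras of dimension 9 over a field K are split by exactly the same extension fields of transcendence degree at most 1, then the second is isomorphic to the first or to its opposite (equivalently, their Brauer classes generate the same subgroup). -/
theorem result :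
    ¬ (∀ (K : Type) [Field K] (D₁ D₂ : Type) [DivisionRing D₁] [DivisionRing D₂]
    [Algebra K D₁] [Algebra K D₂],
    Algebra.IsCentral K D₁ → Algebra.IsCentral K D₂ →
    Module.finrank K D₁ = 9 → Module.finrank K D₂ = 9 →
    (∀ (L : Type) [Field L] [Algebra K L], Algebra.trdeg K L ≤ 1 →
      (Nonempty ((L ⊗[K] D₁) ≃ₐ[L] Matrix (Fin 3) (Fin 3) L) ↔
       Nonempty ((L ⊗[K] D₂) ≃ₐ[L] Matrix (Fin 3) (Fin 3) L))) →
    Nonempty (D₂ ≃ₐ[K] D₁) ∨ Nonempty (D₂ ≃ₐ[K] D₁ᵐᵒᵖ)) := by
  exact Pool.Agent.Helper740.C3.S02124_of_LOC FFT.locStmt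

end Pool.Agent.S02124
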