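import Pool.Statements.S02126
import Pool.Agent.Helper172.GC.Main

set_option autoImplicit false
open Pool Pool.MP_d589a8_al

namespace Pool.Agent.S02126

/-- The negation of the preceding statement: For each m ≥ 2 there is c > 0 such that, for large finite nonabelian simple G, a random m-tuple has no nontrivial reduced relation of length < c·log∣G∣ with probability → 1. -/
theorem result :
    ¬ (∀ m : ℕ, 2 ≤ m → ∃ c : ℝ, 0 < c ∧ ∀ ε : ℝ, 0 < ε → ∃ N : ℕ,
      ∀ (G : Type) [Group G] [Fintype G], IsSimpleGroup G →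
        (∃ a b : G, a * b ≠ b * a) → N ≤ Fintype.card G →
        (1 - ε) * ((Fintype.card G : ℝ) ^ m) ≤
          (Nat.card {g : Fin m → G //
            ∀ w : FreeGroup (Fin m), w ≠ 1 →
              (w.norm : ℝ) < c * Real.log (Fintype.card G) →
                FreeGroup.lift g w ≠ 1} : ℝ)) := by
  intro hall
  obtain ⟨c, hc, h⟩ := hall 3 (by norm_num)
  obtain ⟨ε, hε, hN⟩ := Pool.Agent.Helper172.GC.main c hc
  obtain ⟨N, hG⟩ := h ε hε
  obtain ⟨n, hn5, hcard, hlt⟩ := hN N
  have hsimple : IsSimpleGroup (alternatingGroup (Fin n)) :=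
    alternatingGroup.isSimpleGroup (by simpa using hn5)
  have h1 := hG (alternatingGroup (Fin n)) hsimple
    (Pool.Agent.Helper172.GC.exists_noncomm (by omega)) hcard
  exact absurd h1 (not_le.mpr hlt)

end Pool.Agent.S02126
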