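import Pool.Statements.S02140

set_option autoImplicit false
open Pool Pool.MP_d7a7a6_al

namespace Pool.Agent.S02140


/-- parity of the p-adic valuation -/
def xv (p n : ℕ) : Bool := decide (padicValNat p n % 2 = 1)

theorem xv_not_dvd (p n : ℕ) (h : ¬ p ∣ n) : xv p n = false := by
  unfold xv
  rw [padicValNat.eq_zero_of_not_dvd h]
  rfl

theorem xv_mul (p n : ℕ) (hp : p.Prime) (hn : n ≠ 0) : xv p (p * n) = !xv p n := by
  have : Fact p.Prime := ⟨hp⟩
  unfold xv
  rw [padicValNat.mul hp.ne_zero hn, padicValNat_self]
  rcases Nat.mod_two_eq_zero_or_one (padicValNat p n) with h | h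
  · have : (1 + padicValNat p n) % 2 = 1 := by omega
    simp [h, this]
  · have : (1 + padicValNat p n) % 2 = 0 := by omega
    simp [h, this]

theorem xv_exact (p m : ℕ) (hp : p.Prime) (h : ¬ p ∣ m) : xv p (p * m) = true := by
  have hm : m ≠ 0 := by rintro rfl; exact h (dvd_zero p)
  rw [xv_mul p m hp hm, xv_not_dvd p m h]
  rfl

theorem win2 : ∀ (j i i' : ℕ), 1 ≤ i → 1 ≤ i' →
    (∀ t < 2 * 2 ^ j, xv 2 (i + t) = xv 2 (i' + t)) → i ≡ i' [MOD 2 ^ j] := by
  intro j
  induction j with
  | zero => intro i i' _ _ _; rw [pow_zero]; exact Nat.modEq_one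
  | succ j ih =>
    intro i i' hi hi' h
    have hpos : 1 ≤ 2 ^ j := Nat.one_le_two_pow
    have hps : 2 ^ (j + 1) = 2 * 2 ^ j := by rw [pow_succ, mul_comm]
    -- parity
    have hpar : i % 2 = i' % 2 := by
      by_contra hne
      let t := (6 - i % 4) % 4
      have ht : t < 4 := Nat.mod_lt _ (by norm_num)
      have ht4 : (i + t) % 4 = 2 := by
        simp only [t]; omega
      have h1 : xv 2 (i + t) = true := by
        obtain ⟨m, hm⟩ : ∃ m, i + t = 2 * m := ⟨(i + t) / 2, by omega⟩
        rw [hm]
        exact xv_exact 2 m Nat.prime_two (by omega)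
      have h2 : xv 2 (i' + t) = false := by
        apply xv_not_dvd
        omega
      have h3 := h t (by rw [hps]; omega)
      rw [h1, h2] at h3
      exact absurd h3 (by decide)
    -- offset
    obtain ⟨r, hr, a, ha⟩ : ∃ r, r < 2 ∧ ∃ a, i + r = 2 * a := ⟨i % 2, by omega, (i + i % 2) / 2, by omega⟩
    obtain ⟨a', ha'⟩ : ∃ a', i' + r = 2 * a' := ⟨(i' + r) / 2, by omega⟩
    have h4 := ih a a' (by omega) (by omega) (by
      intro s hs
      have h5 := h (r + 2 * s) (by rw [hps]; omega)
      have e1 : i + (r + 2 * s) = 2 * (a + s) := by omega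
      have e2 : i' + (r + 2 * s) = 2 * (a' + s) := by omega
      rw [e1, e2, xv_mul 2 _ Nat.prime_two (by omega), xv_mul 2 _ Nat.prime_two (by omega)] at h5
      simpa using h5)
    have h6 : 2 * a ≡ 2 * a' [MOD 2 ^ (j + 1)] := by
      rw [hps]
      exact Nat.ModEq.mul_left' 2 h4
    rw [← ha, ← ha'] at h6
    exact Nat.ModEq.add_right_cancel' r h6

theorem win3 : ∀ (j i i' : ℕ), 1 ≤ i → 1 ≤ i' →
    (∀ t < 2 * 3 ^ j, xv 3 (i + t) = xv 3 (i' + t)) → i ≡ i' [MOD 3 ^ j] := by
  intro j
  induction j with
  | zero => intro i i' _ _ _; rw [pow_zero]; exact Nat.modEq_one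
  | succ j ih =>
    intro i i' hi hi' h
    have hpos : 1 ≤ 3 ^ j := Nat.one_le_pow _ _ (by norm_num)
    have hps : 3 ^ (j + 1) = 3 * 3 ^ j := by rw [pow_succ, mul_comm]
    have hpar : i % 3 = i' % 3 := by
      by_contra hne
      obtain ⟨t, ht, ht4⟩ : ∃ t, t < 6 ∧ ((i + t) % 9 = 3 ∨ (i + t) % 9 = 6) := by
        have h9 : i % 9 < 9 := Nat.mod_lt _ (by norm_num)
        by_cases c1 : i % 9 ≤ 3
        · exact ⟨3 - i % 9, by omega, by left; omega⟩
        · by_cases c2 : i % 9 ≤ 6
          · exact ⟨6 - i % 9, by omega, by right; omega⟩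
          · exact ⟨12 - i % 9, by omega, by left; omega⟩
      have h1 : xv 3 (i + t) = true := by
        obtain ⟨m, hm⟩ : ∃ m, i + t = 3 * m := ⟨(i + t) / 3, by omega⟩
        rw [hm]
        exact xv_exact 3 m Nat.prime_three (by omega)
      have h2 : xv 3 (i' + t) = false := by
        apply xv_not_dvd
        omega
      have h3 := h t (by rw [hps]; omega)
      rw [h1, h2] at h3
      exact absurd h3 (by decide)
    obtain ⟨r, hr, a, ha⟩ : ∃ r, r < 3 ∧ ∃ a, i + r = 3 * a :=
      ⟨(3 - i % 3) % 3, by omega, (i + (3 - i % 3) % 3) / 3, by omega⟩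
    obtain ⟨a', ha'⟩ : ∃ a', i' + r = 3 * a' := ⟨(i' + r) / 3, by omega⟩
    have h4 := ih a a' (by omega) (by omega) (by
      intro s hs
      have h5 := h (r + 3 * s) (by rw [hps]; omega)
      have e1 : i + (r + 3 * s) = 3 * (a + s) := by omega
      have e2 : i' + (r + 3 * s) = 3 * (a' + s) := by omega
      rw [e1, e2, xv_mul 3 _ Nat.prime_three (by omega),
        xv_mul 3 _ Nat.prime_three (by omega)] at h5
      simpa using h5)
    have h6 : 3 * a ≡ 3 * a' [MOD 3 ^ (j + 1)] := by
      rw [hps]
      exact Nat.ModEq.mul_left' 3 h4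
    rw [← ha, ← ha'] at h6
    exact Nat.ModEq.add_right_cancel' r h6

/-- the alphabet -/
abbrev Lt : Type := Bool × Bool

/-- the infinite word -/
def ell (i : ℕ) : Lt := (xv 2 (i + 1), xv 3 (i + 1))

theorem modulus (k : ℕ) (hk : 27 ≤ k) : ∃ M : ℕ, k < M ∧
    ∀ i i' : ℕ, (∀ t < k - 1, ell (i + t) = ell (i' + t)) → i ≡ i' [MOD M] := by
  obtain ⟨j, hj1, hj2⟩ : ∃ j, 2 * 2 ^ j ≤ k - 1 ∧ k - 1 < 4 * 2 ^ j := by
    have h0 : Nat.log 2 (k - 1) ≠ 0 := by
      have : 1 ≤ Nat.log 2 (k - 1) := (Nat.le_log_iff_pow_le (by norm_num) (by omega)).mpr (by omega)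
      omega
    obtain ⟨j, hj⟩ := Nat.exists_eq_succ_of_ne_zero h0
    refine ⟨j, ?_, ?_⟩
    · have := Nat.pow_log_le_self 2 (show k - 1 ≠ 0 by omega)
      rw [hj, Nat.succ_eq_add_one, pow_succ] at this
      omega
    · have := Nat.lt_pow_succ_log_self (show 1 < 2 by norm_num) (k - 1)
      rw [hj, Nat.succ_eq_add_one, pow_succ, pow_succ] at this
      omega
  obtain ⟨l, hl1, hl2⟩ : ∃ l, 2 * 3 ^ l ≤ k - 1 ∧ k - 1 < 6 * 3 ^ l := by
    refine ⟨Nat.log 3 ((k - 1) / 2), ?_, ?_⟩
    · have := Nat.pow_log_le_self 3 (show (k - 1) / 2 ≠ 0 by omega)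
      omega
    · have := Nat.lt_pow_succ_log_self (show 1 < 3 by norm_num) ((k - 1) / 2)
      rw [pow_succ] at this
      omega
  refine ⟨2 ^ j * 3 ^ l, ?_, ?_⟩
  · obtain ⟨q, rfl⟩ : ∃ q, k = q + 1 := ⟨k - 1, by omega⟩
    simp only [Nat.add_sub_cancel] at *
    have h1 : q * q < (4 * 2 ^ j) * (6 * 3 ^ l) := Nat.mul_lt_mul'' hj2 hl2
    have h2 : (4 * 2 ^ j) * (6 * 3 ^ l) = 24 * (2 ^ j * 3 ^ l) := by ring
    rw [h2] at h1
    have h3 : 26 * q ≤ q * q := Nat.mul_le_mul_right q (by omega)
    omega
  · intro i i' h
    have hcop : Nat.Coprime (2 ^ j) (3 ^ l) := by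
      apply Nat.Coprime.pow
      decide
    rw [← Nat.modEq_and_modEq_iff_modEq_mul hcop]
    constructor
    · have := win2 j (i + 1) (i' + 1) (by omega) (by omega) (by
        intro t ht
        have h1 := congrArg Prod.fst (h t (by omega))
        simp only [ell] at h1
        rw [show i + 1 + t = i + t + 1 by omega, show i' + 1 + t = i' + t + 1 by omega]
        exact h1)
      exact Nat.ModEq.add_right_cancel' 1 this
    · have := win3 l (i + 1) (i' + 1) (by omega) (by omega) (by
        intro t ht
        have h1 := congrArg Prod.snd (h t (by omega))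
        simp only [ell] at h1
        rw [show i + 1 + t = i + t + 1 by omega, show i' + 1 + t = i' + t + 1 by omega]
        exact h1)
      exact Nat.ModEq.add_right_cancel' 1 this

/-- No word of length at least 27 has all its rotations among the factors of the infinite word. -/
theorem no_full_rotation (k : ℕ) (hk : 27 ≤ k) (w : ℕ → Lt) :
    ∃ n : ℕ, ¬ ∃ p : ℕ, ∀ t < k, ell (p + t) = w ((n + t) % k) := by
  by_contra hcon
  push Not at hcon
  choose p hp using hcon
  obtain ⟨M, hkM, hM⟩ := modulus k hk
  have hstep : ∀ n, p (n + 1) ≡ p n + 1 [MOD M] := by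
    intro n
    apply hM
    intro t ht
    rw [hp (n + 1) t (by omega)]
    have := hp n (1 + t) (by omega)
    rw [show p n + 1 + t = p n + (1 + t) by omega, this]
    congr 2
    omega
  have hall : ∀ n, p n ≡ p 0 + n [MOD M] := by
    intro n
    induction n with
    | zero => exact Nat.ModEq.refl _
    | succ n ih =>
      exact (hstep n).trans (by
        have := ih.add_right 1
        rw [show p 0 + (n + 1) = p 0 + n + 1 by omega]
        exact this)
  have h1 : p k ≡ p 0 [MOD M] := by
    apply hM
    intro t ht
    rw [hp k t (by omega), hp 0 t (by omega)]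
    congr 1
    rw [Nat.add_mod_left, Nat.zero_add]
  have h2 : p 0 + k ≡ p 0 + 0 [MOD M] := (hall k).symm.trans h1
  have h3 : k ≡ 0 [MOD M] := Nat.ModEq.add_left_cancel' _ h2
  have h4 : M ∣ k := (Nat.modEq_zero_iff_dvd).mp h3
  have := Nat.le_of_dvd (by omega) h4
  omega



section adj
variable {F R : Type} [Field F] [NonUnitalRing R] [Module F R]
  [IsScalarTower F R R] [SMulCommClass F R R]

theorem inv_form (u : (Unitization F R)ˣ) (r : R) (h : (u : Unitization F R) = 1 + Unitization.inr r) :
    ∃ s : R, ((u⁻¹ : (Unitization F R)ˣ) : Unitization F R) = 1 + Unitization.inr s := by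
  have h1 : ((u⁻¹ : (Unitization F R)ˣ) : Unitization F R).fst = 1 := by
    have h2 : (((u⁻¹ : (Unitization F R)ˣ) : Unitization F R) * u).fst = 1 := by
      rw [Units.inv_mul, Unitization.fst_one]
    rw [Unitization.fst_mul, h, Unitization.fst_add, Unitization.fst_one, Unitization.fst_inr,
      add_zero, mul_one] at h2
    exact h2
  refine ⟨((u⁻¹ : (Unitization F R)ˣ) : Unitization F R).snd, ?_⟩
  apply Unitization.ext
  · simp [h1]
  · simp

theorem gen_lemma (Rk : ℕ → AddSubgroup R) (h1 : Rk 1 = ⊤) (hanti : ∀ k, Rk (k + 1) ≤ Rk k)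
    (hmul : ∀ i j a b, a ∈ Rk i → b ∈ Rk j → a * b ∈ Rk (i + j))
    (N : ℕ) (hN1 : 1 ≤ N) (hN : Rk N = ⊥)
    (H : Subgroup (Unitization F R)ˣ)
    (hlong : ∀ k, 1 ≤ k → ∀ r ∈ Rk k, r ∈ AddSubgroup.closure
      (({c | ∃ i j a b, i + j = k ∧ a ∈ Rk i ∧ b ∈ Rk j ∧ c = a * b - b * a} ∪
        {c | c ∈ Rk k ∧ ∃ h ∈ H, (h : Unitization F R) = 1 + Unitization.inr c}) ∪
        (Rk (k + 1) : Set R))) :
    ∀ r : R, ∃ h ∈ H, ((h : (Unitization F R)ˣ) : Unitization F R) = 1 + Unitization.inr r := by
  have hle : ∀ i j, i ≤ j → Rk j ≤ Rk i := by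
    intro i j hij
    induction hij with
    | refl => exact le_refl _
    | step _ ih => exact (hanti _).trans ih
  have hall : ∀ x : R, x ∈ Rk 1 := by intro x; rw [h1]; trivial
  -- main claim
  have main : ∀ k, 1 ≤ k → ∀ r : R, ∃ h ∈ H, ∃ e ∈ Rk k,
      ((h : (Unitization F R)ˣ) : Unitization F R) = 1 + Unitization.inr (r + e) := by
    intro k hk
    induction k, hk using Nat.le_induction with
    | base =>
      intro r
      refine ⟨1, H.one_mem, -r, by rw [h1]; trivial, ?_⟩
      simp
    | succ k hk ih =>
      -- elements reachable at level k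
      have hstep : ∀ r ∈ Rk k, ∃ h ∈ H, ∃ e ∈ Rk (k + 1),
          ((h : (Unitization F R)ˣ) : Unitization F R) = 1 + Unitization.inr (r + e) := by
        · let S : AddSubgroup R :=
            { carrier := {r | r ∈ Rk k ∧ ∃ h ∈ H, ∃ e ∈ Rk (k + 1),
                ((h : (Unitization F R)ˣ) : Unitization F R) = 1 + Unitization.inr (r + e)}
              zero_mem' := by
                refine ⟨(Rk k).zero_mem, 1, H.one_mem, 0, (Rk (k + 1)).zero_mem, ?_⟩
                simp
              add_mem' := by
                rintro r s ⟨hr, h, hh, e, he, hr'⟩ ⟨hs, g, hg, e', he', hs'⟩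
                refine ⟨(Rk k).add_mem hr hs, h * g, H.mul_mem hh hg,
                  e + e' + (r + e) * (s + e'), ?_, ?_⟩
                · refine (Rk (k + 1)).add_mem ((Rk (k + 1)).add_mem he he') ?_
                  refine hle _ _ ?_ (hmul k k _ _ ((Rk k).add_mem hr (hanti k he))
                    ((Rk k).add_mem hs (hanti k he')))
                  omega
                · rw [Units.val_mul, hr', hs']
                  simp only [Unitization.inr_add, Unitization.inr_mul]
                  noncomm_ring
              neg_mem' := by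
                rintro r ⟨hr, h, hh, e, he, hr'⟩
                obtain ⟨s, hs⟩ := inv_form h _ hr'
                refine ⟨(Rk k).neg_mem hr, h⁻¹, H.inv_mem hh, s + r, ?_, ?_⟩
                · have h3 : (h : Unitization F R) * ((h⁻¹ : (Unitization F R)ˣ) : Unitization F R) = 1 :=
                    Units.mul_inv h
                  rw [hr', hs] at h3
                  have h4 : (Unitization.inr (r + e + s + (r + e) * s) : Unitization F R) = 0 := by
                    have : (1 + Unitization.inr (r + e) : Unitization F R) * (1 + Unitization.inr s)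
                      = 1 + Unitization.inr (r + e + s + (r + e) * s) := by
                      simp only [Unitization.inr_add, Unitization.inr_mul]
                      noncomm_ring
                    rw [this] at h3
                    simpa using h3
                  have h5 : r + e + s + (r + e) * s = 0 := by
                    apply Unitization.inr_injective (R := F)
                    rw [h4, Unitization.inr_zero]
                  have h6 : s + r = -(e + (r + e) * s) := by
                    rw [eq_neg_iff_add_eq_zero]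
                    rw [← h5]; abel
                  rw [h6]
                  refine (Rk (k + 1)).neg_mem ((Rk (k + 1)).add_mem he ?_)
                  exact hmul k 1 _ _ ((Rk k).add_mem hr (hanti k he)) (hall s)
                · rw [hs]
                  congr 2
                  abel }
          have hcl : AddSubgroup.closure
              (({c | ∃ i j a b, i + j = k ∧ a ∈ Rk i ∧ b ∈ Rk j ∧ c = a * b - b * a} ∪
        {c | c ∈ Rk k ∧ ∃ h ∈ H, (h : Unitization F R) = 1 + Unitization.inr c}) ∪
              (Rk (k + 1) : Set R)) ≤ S := by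
            rw [AddSubgroup.closure_le]
            rintro c ((hc | hc) | hc)
            · obtain ⟨i, j, a, b, hij, ha, hb, rfl⟩ := hc
              have hab : a * b - b * a ∈ Rk k := by
                refine (Rk k).sub_mem ?_ ?_
                · rw [← hij]; exact hmul i j a b ha hb
                · rw [← hij, add_comm i j]; exact hmul j i b a hb ha
              refine ⟨hab, ?_⟩
              obtain ⟨g, hg, x, hx, hgx⟩ := ih a
              obtain ⟨h, hh, y, hy, hhy⟩ := ih b
              -- the commutator
              obtain ⟨g', hg'⟩ := inv_form g _ hgx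
              obtain ⟨h', hh'⟩ := inv_form h _ hhy
              let c0 : R := (a + x) * (b + y) - (b + y) * (a + x)
              have hc0 : c0 - (a * b - b * a) ∈ Rk (k + 1) := by
                have e1 : c0 - (a * b - b * a) = (a * y + x * b + x * y) - (b * x + y * a + y * x) := by
                  simp only [c0]; noncomm_ring
                rw [e1]
                have m1 : ∀ u v : R, u ∈ Rk k → u * v ∈ Rk (k + 1) := fun u v hu => hmul k 1 u v hu (hall v)
                have m2 : ∀ u v : R, v ∈ Rk k → u * v ∈ Rk (k + 1) := fun u v hv => by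
                  rw [add_comm k 1]; exact hmul 1 k u v (hall u) hv
                exact (Rk (k + 1)).sub_mem
                  ((Rk (k + 1)).add_mem ((Rk (k + 1)).add_mem (m2 _ _ hy) (m1 _ _ hx)) (m1 _ _ hx))
                  ((Rk (k + 1)).add_mem ((Rk (k + 1)).add_mem (m2 _ _ hx) (m1 _ _ hy)) (m1 _ _ hy))
              have hc0k : c0 ∈ Rk k := by
                have : c0 = (c0 - (a * b - b * a)) + (a * b - b * a) := by abel
                rw [this]
                exact (Rk k).add_mem (hanti k hc0) hab
              have hprod : ((g * h * g⁻¹ * h⁻¹ : (Unitization F R)ˣ) : Unitization F R)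
                  = 1 + Unitization.inr (c0 + c0 * (g' + h' + g' * h')) := by
                have e2 : (g : Unitization F R) * (h : Unitization F R) = (h : Unitization F R) * (g : Unitization F R) + Unitization.inr c0 := by
                  rw [hgx, hhy]
                  simp only [c0, Unitization.inr_add, Unitization.inr_mul, Unitization.inr_sub]
                  noncomm_ring
                have e3 : ((g * h * g⁻¹ * h⁻¹ : (Unitization F R)ˣ) : Unitization F R)
                    = ((g : Unitization F R) * (h : Unitization F R)) * (((g⁻¹ : (Unitization F R)ˣ) : Unitization F R)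
                      * ((h⁻¹ : (Unitization F R)ˣ) : Unitization F R)) := by
                  simp only [Units.val_mul, mul_assoc]
                have e4 : ((h : Unitization F R) * (g : Unitization F R)) * (((g⁻¹ : (Unitization F R)ˣ) : Unitization F R)
                      * ((h⁻¹ : (Unitization F R)ˣ) : Unitization F R)) = 1 := by
                  rw [mul_assoc, ← mul_assoc (g : Unitization F R), Units.mul_inv, one_mul,
                    Units.mul_inv]
                rw [e3, e2, add_mul, e4, hg', hh']
                simp only [Unitization.inr_add, Unitization.inr_mul]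
                noncomm_ring
              refine ⟨g * h * g⁻¹ * h⁻¹, H.mul_mem (H.mul_mem (H.mul_mem hg hh) (H.inv_mem hg))
                (H.inv_mem hh), (c0 - (a * b - b * a)) + c0 * (g' + h' + g' * h'), ?_, ?_⟩
              · exact (Rk (k + 1)).add_mem hc0 (hmul k 1 _ _ hc0k (hall _))
              · rw [hprod]
                congr 2
                abel
            · obtain ⟨hck, h, hh, hhc⟩ := hc
              exact ⟨hck, h, hh, 0, (Rk (k + 1)).zero_mem, by rw [hhc, add_zero]⟩
            · refine ⟨hanti k hc, 1, H.one_mem, -c, (Rk (k + 1)).neg_mem hc, ?_⟩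
              simp
          intro r hr
          exact (hcl (hlong k hk r hr)).2
      intro r
      obtain ⟨h, hh, e, he, hr⟩ := ih r
      obtain ⟨g, hg, e', he', hs⟩ := hstep (-e) ((Rk k).neg_mem he)
      refine ⟨h * g, H.mul_mem hh hg, e' + (r + e) * (-e + e'), ?_, ?_⟩
      · refine (Rk (k + 1)).add_mem he' ?_
        have : (r + e) * (-e + e') ∈ Rk (1 + k) :=
          hmul 1 k _ _ (hall _) ((Rk k).add_mem ((Rk k).neg_mem he) (hanti k he'))
        rwa [add_comm] at this
      · rw [Units.val_mul, hr, hs]
        simp only [Unitization.inr_add, Unitization.inr_mul, Unitization.inr_neg]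
        noncomm_ring
  intro r
  obtain ⟨h, hh, e, he, hr⟩ := main N hN1 r
  rw [hN, AddSubgroup.mem_bot] at he
  subst he
  exact ⟨h, hh, by rw [hr, add_zero]⟩

end adj

section mats

open Matrix

/-- square matrices over the field with two elements -/
abbrev Mt (N : ℕ) : Type := Matrix (Fin N) (Fin N) (ZMod 2)

/-- the matrix of a letter -/
def X (N : ℕ) (a : Lt) : Mt N := fun i j => if (j : ℕ) = i + 1 ∧ ell i = a then 1 else 0

/-- the matrix of a word -/
def E (N : ℕ) (w : List Lt) : Mt N := (w.map (X N)).prod

/-- the factor of the infinite word of given position and length -/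
def fac (i k : ℕ) : List Lt := (List.range k).map (fun t => ell (i + t))

theorem fac_length (i k : ℕ) : (fac i k).length = k := by simp [fac]

theorem fac_succ (i k : ℕ) : fac i (k + 1) = ell i :: fac (i + 1) k := by
  unfold fac
  rw [List.range_succ_eq_map, List.map_cons, List.map_map, Nat.add_zero]
  congr 1
  apply List.map_congr_left
  intro t _
  simp only [Function.comp]
  congr 1
  omega

theorem E_nil (N : ℕ) : E N [] = 1 := rfl
theorem E_cons (N : ℕ) (a : Lt) (w : List Lt) : E N (a :: w) = X N a * E N w := by
  unfold E; simp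
theorem E_append (N : ℕ) (u w : List Lt) : E N (u ++ w) = E N u * E N w := by
  unfold E; simp
theorem E_single (N : ℕ) (a : Lt) : E N [a] = X N a := by
  unfold E; simp

theorem E_apply (N : ℕ) (w : List Lt) : ∀ (i j : Fin N),
    E N w i j = if (j : ℕ) = i + w.length ∧ w = fac i w.length then 1 else 0 := by
  induction w with
  | nil =>
    intro i j
    rw [E_nil, Matrix.one_apply]
    simp only [List.length_nil, Nat.add_zero, fac, List.range_zero, List.map_nil, and_true]
    by_cases h : i = j
    · subst h; simp
    · have : ¬ ((j : ℕ) = i) := fun h' => h (Fin.ext h'.symm)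
      simp [h, this]
  | cons a w ih =>
    intro i j
    rw [E_cons, Matrix.mul_apply]
    by_cases hi : (i : ℕ) + 1 < N
    · rw [Finset.sum_eq_single (⟨i + 1, hi⟩ : Fin N)]
      · rw [ih]
        simp only [X, List.length_cons, fac_succ, List.cons.injEq, true_and]
        by_cases h1 : ell i = a
        · by_cases h2 : (j : ℕ) = i + 1 + w.length
          · by_cases h3 : w = fac (i + 1) w.length
            · have h4 : (j : ℕ) = i + (w.length + 1) := by omega
              rw [if_pos h1, if_pos ⟨h2, h3⟩, if_pos ⟨h4, h1.symm, h3⟩, one_mul]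
            · rw [if_pos h1, if_neg (fun h => h3 h.2), if_neg (fun h => h3 h.2.2), mul_zero]
          · rw [if_pos h1, if_neg (fun h => h2 h.1), mul_zero,
              if_neg (fun h => h2 (by have := h.1; omega))]
        · rw [if_neg h1, zero_mul, if_neg (fun h => h1 h.2.1.symm)]
      · intro b _ hb
        have : ¬ ((b : ℕ) = i + 1 ∧ ell i = a) := by
          rintro ⟨h, _⟩
          exact hb (Fin.ext h)
        simp only [X]
        rw [if_neg this, zero_mul]
      · intro h; exact absurd (Finset.mem_univ _) h
    · rw [if_neg]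
      · apply Finset.sum_eq_zero
        intro m _
        simp only [X]
        rw [if_neg, zero_mul]
        rintro ⟨h, _⟩
        have := m.2
        omega
      · rintro ⟨h, _⟩
        have := j.2
        simp only [List.length_cons] at h
        omega

theorem E_long (N : ℕ) (w : List Lt) (h : N ≤ w.length) : E N w = 0 := by
  ext i j
  rw [E_apply, if_neg]
  · rfl
  · rintro ⟨h1, _⟩
    have := j.2
    omega

/-- the span of the matrices of words of length at least k -/
def V (N k : ℕ) : Submodule (ZMod 2) (Mt N) :=
  Submodule.span (ZMod 2) {A | ∃ w : List Lt, k ≤ w.length ∧ A = E N w}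

theorem E_mem_V (N k : ℕ) (w : List Lt) (h : k ≤ w.length) : E N w ∈ V N k :=
  Submodule.subset_span ⟨w, h, rfl⟩

theorem V_anti (N : ℕ) {k l : ℕ} (h : k ≤ l) : V N l ≤ V N k := by
  apply Submodule.span_mono
  rintro A ⟨w, hw, rfl⟩
  exact ⟨w, h.trans hw, rfl⟩

theorem V_mul (N i j : ℕ) (a b : Mt N) (ha : a ∈ V N i) (hb : b ∈ V N j) : a * b ∈ V N (i + j) := by
  have h1 : V N i * V N j ≤ V N (i + j) := by
    unfold V
    rw [Submodule.span_mul_span]
    apply Submodule.span_mono
    rintro _ ⟨_, ⟨u, hu, rfl⟩, _, ⟨w, hw, rfl⟩, rfl⟩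
    refine ⟨u ++ w, ?_, ?_⟩
    · rw [List.length_append]; omega
    · exact (E_append N u w).symm
  exact h1 (Submodule.mul_mem_mul ha hb)

theorem V_top (N : ℕ) : V N N = ⊥ := by
  rw [eq_bot_iff]
  unfold V
  rw [Submodule.span_le]
  rintro A ⟨w, hw, rfl⟩
  rw [E_long N w hw]
  exact Submodule.zero_mem _

/-- the nilpotent algebra: the span of the matrices of nonempty words -/
def Rg (N : ℕ) : NonUnitalSubalgebra (ZMod 2) (Mt N) where
  carrier := V N 1
  add_mem' := fun ha hb => (V N 1).add_mem ha hb
  zero_mem' := (V N 1).zero_mem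
  smul_mem' := fun c _ hx => (V N 1).smul_mem c hx
  mul_mem' := fun {a b} ha hb => V_anti N (by omega) (V_mul N 1 1 a b ha hb)

/-- the filtration -/
def Rk (N k : ℕ) : AddSubgroup (Rg N) where
  carrier := {r | (r : Mt N) ∈ V N k}
  add_mem' := fun ha hb => (V N k).add_mem ha hb
  zero_mem' := (V N k).zero_mem
  neg_mem' := fun ha => (V N k).neg_mem ha

theorem mem_Rk (N k : ℕ) (r : Rg N) : r ∈ Rk N k ↔ (r : Mt N) ∈ V N k := Iff.rfl

/-- the element of the algebra given by a word -/
def el (N : ℕ) (w : List Lt) (hw : w ≠ []) : Rg N :=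
  ⟨E N w, E_mem_V N 1 w (List.length_pos_of_ne_nil hw)⟩

theorem prod_mem (N : ℕ) : ∀ l : List (Rg N), l ≠ [] → ∃ y ∈ Rk N l.length,
    (l.map (fun r => (Unitization.inr r : Unitization (ZMod 2) (Rg N)))).prod = Unitization.inr y := by
  intro l
  induction l with
  | nil => intro h; exact absurd rfl h
  | cons a l ih =>
    intro _
    by_cases hl : l = []
    · subst hl
      refine ⟨a, a.2, by simp⟩
    · obtain ⟨y, hy, hprod⟩ := ih hl
      refine ⟨a * y, ?_, ?_⟩
      · rw [List.length_cons, add_comm]
        exact V_mul N 1 _ _ _ a.2 hy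
      · rw [List.map_cons, List.prod_cons, hprod, Unitization.inr_mul]

theorem nilp (N : ℕ) (hN : 1 ≤ N) (l : List (Rg N)) (hl : l.length = N) :
    (l.map (fun r => (Unitization.inr r : Unitization (ZMod 2) (Rg N)))).prod = 0 := by
  obtain ⟨y, hy, h⟩ := prod_mem N l (by rintro rfl; simp at hl; omega)
  rw [h, hl] at *
  rw [mem_Rk, V_top, Submodule.mem_bot] at hy
  have : y = 0 := Subtype.ext hy
  rw [this, Unitization.inr_zero]

theorem isnil (N : ℕ) (hN : 1 ≤ N) (r : Rg N) :
    IsNilpotent (Unitization.inr r : Unitization (ZMod 2) (Rg N)) := by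
  refine ⟨N, ?_⟩
  have := nilp N hN (List.replicate N r) (by simp)
  rw [List.map_replicate, List.prod_replicate] at this
  exact this

/-- the unit attached to an element of the algebra -/
noncomputable def un (N : ℕ) (hN : 1 ≤ N) (r : Rg N) : (Unitization (ZMod 2) (Rg N))ˣ :=
  (isnil N hN r).isUnit_one_add.unit

theorem un_val (N : ℕ) (hN : 1 ≤ N) (r : Rg N) :
    ((un N hN r : (Unitization (ZMod 2) (Rg N))ˣ) : Unitization (ZMod 2) (Rg N))
      = 1 + Unitization.inr r := rfl

/-- short words -/
abbrev T : Type := {l : List Lt // l.length < 27}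

instance : Finite T := List.finite_length_lt Lt 27

open Classical in
/-- generators -/
noncomputable def gens (N : ℕ) (hN : 1 ≤ N) (l : T) : (Unitization (ZMod 2) (Rg N))ˣ :=
  if h : l.1 ≠ [] then un N hN (el N l.1 h) else 1

theorem gens_form (N : ℕ) (hN : 1 ≤ N) (l : T) : ∃ r : Rg N,
    ((gens N hN l : (Unitization (ZMod 2) (Rg N))ˣ) : Unitization (ZMod 2) (Rg N))
      = 1 + Unitization.inr r := by
  unfold gens
  split_ifs with h
  · exact ⟨_, un_val N hN _⟩
  · exact ⟨0, by simp⟩

theorem rotate_zero_exists (N : ℕ) (w : List Lt) (hw : 27 ≤ w.length) :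
    ∃ n, E N (w.rotate n) = 0 := by
  obtain ⟨n, hn⟩ := no_full_rotation w.length hw (fun t => w.getD t (false, false))
  refine ⟨n, ?_⟩
  ext i j
  rw [E_apply, if_neg]
  · rfl
  · rintro ⟨_, h2⟩
    apply hn
    refine ⟨i, ?_⟩
    intro t ht
    rw [List.length_rotate] at h2
    have h3 : (w.rotate n)[t]? = (fac i w.length)[t]? := by rw [← h2]
    have h4 : (fac i w.length)[t]? = some (ell (i + t)) := by
      unfold fac
      rw [List.getElem?_map, List.getElem?_range ht]
      rfl
    have h5 : (w.rotate n)[t]? = w[(t + n) % w.length]? := List.getElem?_rotate ht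
    rw [h4, h5] at h3
    simp only [List.getD_eq_getElem?_getD]
    rw [add_comm n t, h3]
    rfl

theorem closure_mem (N : ℕ) (hN : 1 ≤ N) (k : ℕ) (hk : 1 ≤ k) (r : Rg N) (hr : r ∈ Rk N k) :
    r ∈ AddSubgroup.closure
      (({c | ∃ i j a b, i + j = k ∧ a ∈ Rk N i ∧ b ∈ Rk N j ∧ c = a * b - b * a} ∪
        {c | c ∈ Rk N k ∧ ∃ h ∈ Subgroup.closure (Set.range (gens N hN)),
          (h : Unitization (ZMod 2) (Rg N)) = 1 + Unitization.inr c}) ∪
        (Rk N (k + 1) : Set (Rg N))) := by
  set C := AddSubgroup.closure
      (({c | ∃ i j a b, i + j = k ∧ a ∈ Rk N i ∧ b ∈ Rk N j ∧ c = a * b - b * a} ∪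
        {c | c ∈ Rk N k ∧ ∃ h ∈ Subgroup.closure (Set.range (gens N hN)),
          (h : Unitization (ZMod 2) (Rg N)) = 1 + Unitization.inr c}) ∪
        (Rk N (k + 1) : Set (Rg N))) with hC
  have hword : ∀ w : List Lt, ∀ hw : w ≠ [], w.length = k → el N w hw ∈ C := by
    intro w hw hwk
    by_cases hlen : w.length < 27
    · apply AddSubgroup.subset_closure
      left; right
      refine ⟨E_mem_V N k w hwk.ge, gens N hN ⟨w, hlen⟩,
        Subgroup.subset_closure ⟨_, rfl⟩, ?_⟩
      unfold gens
      rw [dif_pos hw]
      exact un_val N hN _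
    · push Not at hlen
      have hrot : ∀ n, w.rotate n ≠ [] := by
        intro n h
        rw [List.rotate_eq_nil_iff] at h
        exact hw h
      have hstep : ∀ n, el N (w.rotate n) (hrot n) - el N (w.rotate (n + 1)) (hrot (n + 1)) ∈ C := by
        intro n
        obtain ⟨a, u, hau⟩ := List.exists_cons_of_ne_nil (hrot n)
        have h1 : w.rotate (n + 1) = u ++ [a] := by
          rw [← List.rotate_rotate, hau, List.rotate_cons_succ, List.rotate_zero]
        have hulen : u.length + 1 = k := by
          have := congrArg List.length hau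
          rw [List.length_rotate, List.length_cons] at this
          omega
        have hu : u ≠ [] := by
          rintro rfl
          simp at hulen
          omega
        apply AddSubgroup.subset_closure
        left; left
        refine ⟨1, u.length, el N [a] (by simp), el N u hu, by omega, ?_, ?_, ?_⟩
        · exact E_mem_V N 1 [a] (by simp)
        · exact E_mem_V N _ u le_rfl
        · apply Subtype.ext
          change E N (w.rotate n) - E N (w.rotate (n + 1)) = E N [a] * E N u - E N u * E N [a]
          rw [hau, h1, ← E_append, ← E_append]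
          rfl
      have hall : ∀ n, el N w hw - el N (w.rotate n) (hrot n) ∈ C := by
        intro n
        induction n with
        | zero =>
          have : el N (w.rotate 0) (hrot 0) = el N w hw := by
            apply Subtype.ext
            change E N (w.rotate 0) = E N w
            rw [List.rotate_zero]
          rw [this, sub_self]
          exact C.zero_mem
        | succ n ih =>
          have : el N w hw - el N (w.rotate (n + 1)) (hrot (n + 1)) =
            (el N w hw - el N (w.rotate n) (hrot n)) +
            (el N (w.rotate n) (hrot n) - el N (w.rotate (n + 1)) (hrot (n + 1))) := by abel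
          rw [this]
          exact C.add_mem ih (hstep n)
      obtain ⟨n, hn⟩ := rotate_zero_exists N w hlen
      have h0 : el N (w.rotate n) (hrot n) = 0 := Subtype.ext hn
      have := hall n
      rw [h0, sub_zero] at this
      exact this
  have hV : V N k ≤ V N 1 := V_anti N hk
  have key : ∀ (A : Mt N) (hA : A ∈ V N k), (⟨A, hV hA⟩ : Rg N) ∈ C := by
    intro A hA
    refine Submodule.span_induction (p := fun A hA => (⟨A, hV hA⟩ : Rg N) ∈ C) ?_ ?_ ?_ ?_ hA
    · rintro A ⟨w, hw, rfl⟩
      have hne : w ≠ [] := by
        rintro rfl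
        simp at hw
        omega
      by_cases hwk : w.length = k
      · exact hword w hne hwk
      · apply AddSubgroup.subset_closure
        right
        exact E_mem_V N (k + 1) w (by omega)
    · exact C.zero_mem
    · intro x y hx hy hx' hy'
      exact C.add_mem hx' hy'
    · intro c x hx hx'
      have hc : c = 0 ∨ c = 1 := by
        revert c; decide
      rcases hc with rfl | rfl
      · have : (⟨(0 : ZMod 2) • x, hV ((V N k).smul_mem 0 hx)⟩ : Rg N) = 0 := by
          apply Subtype.ext
          exact zero_smul _ _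
        rw [this]
        exact C.zero_mem
      · have : (⟨(1 : ZMod 2) • x, hV ((V N k).smul_mem 1 hx)⟩ : Rg N) = ⟨x, hV hx⟩ := by
          apply Subtype.ext
          exact one_smul _ _
        rw [this]
        exact hx'
  exact key r hr

theorem generate (N : ℕ) (hN : 1 ≤ N) (r : Rg N) :
    ∃ h ∈ Subgroup.closure (Set.range (gens N hN)),
      (h : Unitization (ZMod 2) (Rg N)) = 1 + Unitization.inr r := by
  refine gen_lemma (F := ZMod 2) (Rk N) ?_ ?_ ?_ N hN ?_
    (Subgroup.closure (Set.range (gens N hN))) (closure_mem N hN) r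
  · rw [eq_top_iff]
    intro x _
    exact x.2
  · intro k x hx
    exact V_anti N (Nat.le_succ k) hx
  · intro i j a b ha hb
    exact V_mul N i j _ _ ha hb
  · rw [eq_bot_iff]
    intro x hx
    rw [mem_Rk, V_top, Submodule.mem_bot] at hx
    rw [AddSubgroup.mem_bot]
    exact Subtype.ext hx

theorem rank_ge (n : ℕ) : (n : Cardinal) ≤ Module.rank (ZMod 2) (Rg (n + 1)) := by
  have hli : LinearIndependent (ZMod 2)
      (fun k : Fin n => el (n + 1) (fac 0 (k + 1)) (by
        intro h
        have := congrArg List.length h
        rw [fac_length] at this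
        simp at this)) := by
    rw [Fintype.linearIndependent_iff]
    intro g hg i
    have h1 := congrArg (fun r : Rg (n + 1) => (r : Mt (n + 1)) 0 (Fin.succ i)) hg
    have h2 : ∀ s : Finset (Fin n), ((∑ k ∈ s, g k • el (n + 1) (fac 0 (k + 1)) (by
        intro h
        have := congrArg List.length h
        rw [fac_length] at this
        simp at this) : Rg (n + 1)) : Mt (n + 1)) 0 (Fin.succ i) =
        ∑ k ∈ s, g k * E (n + 1) (fac 0 (k + 1)) 0 (Fin.succ i) := by
      intro s
      induction s using Finset.induction_on with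
      | empty => rfl
      | insert a s has ih =>
        rw [Finset.sum_insert has, Finset.sum_insert has, ← ih]
        rfl
    rw [h2, Finset.sum_eq_single i] at h1
    · rw [E_apply, if_pos] at h1
      · rw [mul_one] at h1
        exact h1
      · rw [fac_length]
        refine ⟨by simp [add_comm], rfl⟩
    · intro b _ hb
      rw [E_apply, if_neg, mul_zero]
      rintro ⟨h, _⟩
      rw [fac_length] at h
      apply hb
      apply Fin.ext
      simp at h
      omega
    · intro h; exact absurd (Finset.mem_univ _) h
  have := hli.cardinal_le_rank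
  simpa using this

end mats

/-- The negation of the preceding statement: There is one function f such that for every field F and every nilpotent associative F-algebra R, if the adjoint group of R is generated by d elements, then dim R is at most f(d). -/
theorem result :
    ¬ (∃ f : ℕ → ℕ, ∀ (F : Type) [Field F] (R : Type) [NonUnitalRing R] [Module F R]
      [IsScalarTower F R R] [SMulCommClass F R R],
      (∃ n : ℕ, ∀ x : Fin n → R,
        (List.ofFn (fun i => (Unitization.inr (x i) : Unitization F R))).prod = 0) →
      ∀ d : ℕ, ∀ g : Fin d → (Unitization F R)ˣ,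
        (∀ i, ∃ r : R, ((g i : (Unitization F R)ˣ) : Unitization F R) = 1 + Unitization.inr r) →
        (∀ r : R, ∃ u ∈ Subgroup.closure (Set.range g),
          (u : Unitization F R) = 1 + Unitization.inr r) →
        Module.rank F R ≤ (f d : Cardinal)) := by
  rintro ⟨f, hf⟩
  let e : Fin (Nat.card T) ≃ T := (Finite.equivFin T).symm
  have hN : 1 ≤ f (Nat.card T) + 1 + 1 := by omega
  have h := hf (ZMod 2) (Rg (f (Nat.card T) + 1 + 1))
    ⟨f (Nat.card T) + 1 + 1, fun x => by
      have := nilp (f (Nat.card T) + 1 + 1) hN (List.ofFn x) (by simp)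
      rw [List.map_ofFn] at this
      exact this⟩
    (Nat.card T) (fun i => gens (f (Nat.card T) + 1 + 1) hN (e i))
    (fun i => gens_form _ hN (e i))
    (fun r => by
      have h1 := generate (f (Nat.card T) + 1 + 1) hN r
      have h2 : Set.range (fun i => gens (f (Nat.card T) + 1 + 1) hN (e i))
          = Set.range (gens (f (Nat.card T) + 1 + 1) hN) :=
        e.surjective.range_comp (gens (f (Nat.card T) + 1 + 1) hN)
      rw [h2]
      exact h1)
  have h3 := (rank_ge (f (Nat.card T) + 1)).trans h
  rw [Nat.cast_le] at h3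
  omega

end Pool.Agent.S02140
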