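import Pool.Statements.S02146
import Pool.Agent.FBR.Endg

set_option autoImplicit false
open Pool Pool.MP_d8349b_al

namespace Pool.Agent.S02146

theorem two_zero : (2 : RatFunc (ZMod 2)) = 0 := by
  have h : (2 : ZMod 2) = 0 := by decide
  have := congrArg (algebraMap (ZMod 2) (RatFunc (ZMod 2))) h
  rwa [map_zero, map_ofNat] at this

theorem X_pow_ne (m : ℕ) (h : (RatFunc.X : RatFunc (ZMod 2)) ^ m = 1) : m = 0 := by
  have h1 : algebraMap (Polynomial (ZMod 2)) (RatFunc (ZMod 2)) (Polynomial.X ^ m) =
      algebraMap (Polynomial (ZMod 2)) (RatFunc (ZMod 2)) 1 := by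
    rw [map_pow, RatFunc.algebraMap_X, h, map_one]
  have h2 := RatFunc.algebraMap_injective _ h1
  have h3 := congrArg Polynomial.natDegree h2
  simpa using h3

noncomputable def tX : (RatFunc (ZMod 2))ˣ := Units.mk0 RatFunc.X RatFunc.X_ne_zero

theorem tX_pow (m : ℤ) (h : tX ^ m = 1) : m = 0 := by
  have h1 : (RatFunc.X : RatFunc (ZMod 2)) ^ m = 1 := by
    have := congrArg (fun u : (RatFunc (ZMod 2))ˣ => (u : RatFunc (ZMod 2))) h
    simpa [tX] using this
  rcases Int.eq_nat_or_neg m with ⟨k, rfl | rfl⟩
  · rw [zpow_natCast] at h1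
    rw [X_pow_ne k h1]
    rfl
  · rw [zpow_neg, inv_eq_one, zpow_natCast] at h1
    rw [X_pow_ne k h1]
    rfl

/-- The negation of the preceding statement: For every field K, solvable group G and finite-dimensional representation V, there is a finite set S of identities of (V,G) such that any group representation satisfying S satisfies every identity of (V,G). -/
theorem result :
    ¬ (∀ (K : Type) [Field K] (G : Type) [Group G], IsSolvable G →
      ∀ (V : Type) [AddCommGroup V] [Module K V], FiniteDimensional K V →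
      ∀ (ρ : Representation K G V),
    ∃ S : Finset (MonoidAlgebra K (FreeGroup ℕ)),
      (∀ s ∈ S, ∀ φ : FreeGroup ℕ →* G,
          Representation.asAlgebraHom (MonoidHom.comp ρ φ) s = 0) ∧
      ∀ (H : Type) [Group H] (W : Type) [AddCommGroup W] [Module K W]
        (τ : Representation K H W),
        (∀ s ∈ S, ∀ ψ : FreeGroup ℕ →* H,
            Representation.asAlgebraHom (MonoidHom.comp τ ψ) s = 0) →
        ∀ u : MonoidAlgebra K (FreeGroup ℕ),
          (∀ φ : FreeGroup ℕ →* G,
              Representation.asAlgebraHom (MonoidHom.comp ρ φ) u = 0) →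
          ∀ ψ : FreeGroup ℕ →* H,
            Representation.asAlgebraHom (MonoidHom.comp τ ψ) u = 0) := by
  intro h
  exact FBR.final two_zero tX tX_pow
    (h (RatFunc (ZMod 2)) (FBR.Con (FBR.gdat (RatFunc (ZMod 2)))) FBR.solv_con
      (RatFunc (ZMod 2) × (ZMod 2 → RatFunc (ZMod 2) × RatFunc (ZMod 2)) ×
        (ZMod 2 → RatFunc (ZMod 2)))
      inferInstance (FBR.Con.rep (FBR.gdat (RatFunc (ZMod 2)))))

end Pool.Agent.S02146
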