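import Pool.Statements.S02147
import Pool.Agent.Helper221.CubeMain

set_option autoImplicit false
open Pool Pool.MP_d888c1_al

namespace Pool.Agent.S02147


open Pool.Agent.Helper221 in
/-- auxiliary: coordinates on the cube -/
noncomputable def cubePi (x : Set.Icc (0 : Fin 4 → ℝ) 1) : ℂ × ℂ := CubeMaps.proj (1/2) x.1

open Pool.Agent.Helper221 in
lemma cubePi_inj : Function.Injective cubePi := by
  intro x y h
  apply Subtype.ext
  rw [← CubeMaps.emb_proj (1/2) x.1, ← CubeMaps.emb_proj (1/2) y.1]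
  exact congrArg _ h

open Pool.Agent.Helper221 in
lemma mem_cube {x : Fin 4 → ℝ} : x ∈ Set.Icc (0 : Fin 4 → ℝ) 1 ↔
    SqRot.sn (CubeMaps.proj (1/2) x).1 ≤ 1/2 ∧ SqRot.sn (CubeMaps.proj (1/2) x).2 ≤ 1/2 := by
  simp only [SqRot.sn, CubeMaps.proj, max_le_iff, abs_le]
  constructor
  · rintro ⟨h1, h2⟩
    have a := fun i => h1 i
    have b := fun i => h2 i
    simp only [Pi.zero_apply, Pi.one_apply] at a b
    refine ⟨⟨⟨?_, ?_⟩, ?_, ?_⟩, ⟨?_, ?_⟩, ?_, ?_⟩ <;>
      linarith [a 0, a 1, a 2, a 3, b 0, b 1, b 2, b 3]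
  · rintro ⟨⟨⟨h1, h2⟩, h3, h4⟩, ⟨h5, h6⟩, h7, h8⟩
    constructor <;> intro i <;> fin_cases i <;> simp <;> linarith

open Pool.Agent.Helper221 in
lemma cubePi_sat : ∀ x (q : ℂ × ℂ), SqRot.sn q.1 = SqRot.sn (cubePi x).1 →
    SqRot.sn q.2 = SqRot.sn (cubePi x).2 → ∃ y, cubePi y = q := by
  intro x q h1 h2
  have hx := mem_cube.1 x.2
  refine ⟨⟨CubeMaps.emb (1/2) q, mem_cube.2 ?_⟩, CubeMaps.proj_emb _ _⟩
  rw [CubeMaps.proj_emb, h1, h2]
  exact hx

open Pool.Agent.Helper221 in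
/-- auxiliary: transport to the cube -/
noncomputable def rs : Twist.presv →* Equiv.Perm (Set.Icc (0 : Fin 4 → ℝ) 1) :=
  Twist.res cubePi cubePi_inj cubePi_sat

open Pool.Agent.Helper221 in
lemma rs_val (G : Twist.presv) (x : Set.Icc (0 : Fin 4 → ℝ) 1) :
    (rs G x).1 = CubeMaps.M (1/2) G.1 x.1 := by
  have h := Twist.res_spec cubePi cubePi_inj cubePi_sat G x
  have h2 : CubeMaps.proj (1/2) (rs G x).1 = G.1 (CubeMaps.proj (1/2) x.1) := h
  rw [← CubeMaps.emb_proj (1/2) (rs G x).1, h2]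
  rfl

open Pool.Agent.Helper221 in
lemma rs_cont (G : Twist.presv) (h : CubeMaps.CPL (CubeMaps.M (1/2) G.1)) :
    Continuous (rs G) := by
  refine continuous_induced_rng.2 ?_
  have : (Subtype.val ∘ rs G) = fun x : Set.Icc (0 : Fin 4 → ℝ) 1 => CubeMaps.M (1/2) G.1 x.1 :=
    funext fun x => rs_val G x
  rw [this]
  exact h.2.comp continuous_subtype_val

open Pool.Agent.Helper221 in
lemma rs_good (G : Twist.presv) (h : CubeMaps.CPL (CubeMaps.M (1/2) G.1))
    (h' : CubeMaps.CPL (CubeMaps.M (1/2) (G⁻¹).1)) :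
    Continuous ⇑(rs G) ∧ Continuous ⇑(rs G).symm ∧
      ∃ (k : ℕ) (S : Fin k → Finset (Fin 4 → ℝ))
        (A : Fin k → ((Fin 4 → ℝ) →ᵃ[ℝ] (Fin 4 → ℝ))),
        (∀ x : Set.Icc (0 : Fin 4 → ℝ) 1,
            ∃ i, x.1 ∈ convexHull ℝ (↑(S i) : Set (Fin 4 → ℝ))) ∧
        (∀ i, ∀ x : Set.Icc (0 : Fin 4 → ℝ) 1,
            x.1 ∈ convexHull ℝ (↑(S i) : Set (Fin 4 → ℝ)) →
              (rs G x).1 = A i x.1) := by
  refine ⟨rs_cont G h, ?_, ?_⟩
  · have : (rs G).symm = rs G⁻¹ := by rw [map_inv]; rfl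
    rw [this]
    exact rs_cont _ h'
  · obtain ⟨N, S, A, h1, h2⟩ := h.1.exists_cells 0 1
    exact ⟨N, S, A, fun x => h1 x.1 x.2, fun i x hx => by rw [rs_val]; exact h2 i x.1 hx⟩

open Pool.Agent.Helper221 in
lemma main5 :
      ∃ (a : Equiv.Perm (Set.Icc (0 : Fin 4 → ℝ) 1))
        (t : Fin 5 → Equiv.Perm (Set.Icc (0 : Fin 4 → ℝ) 1)),
        (∀ g : Equiv.Perm (Set.Icc (0 : Fin 4 → ℝ) 1),
            (g = a ∨ ∃ i, g = t i) →
              Continuous ⇑g ∧ Continuous ⇑g.symm ∧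
              ∃ (k : ℕ) (S : Fin k → Finset (Fin 4 → ℝ))
                (A : Fin k → ((Fin 4 → ℝ) →ᵃ[ℝ] (Fin 4 → ℝ))),
                (∀ x : Set.Icc (0 : Fin 4 → ℝ) 1,
                    ∃ i, x.1 ∈ convexHull ℝ (↑(S i) : Set (Fin 4 → ℝ))) ∧
                (∀ i, ∀ x : Set.Icc (0 : Fin 4 → ℝ) 1,
                    x.1 ∈ convexHull ℝ (↑(S i) : Set (Fin 4 → ℝ)) →
                      (g x).1 = A i x.1)) ∧
        (∀ i j, t i * t j = t j * t i) ∧
        (∀ v w : Fin 5 → ℤ,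
            Commute
              ((List.ofFn fun i => t i ^ v i).prod * a * ((List.ofFn fun i => t i ^ v i).prod)⁻¹)
              ((List.ofFn fun i => t i ^ w i).prod * a * ((List.ofFn fun i => t i ^ w i).prod)⁻¹)) ∧
        (∀ (l : List ((Fin 5 → ℤ) × ℤ)) (v : Fin 5 → ℤ),
            (l.map Prod.fst).Nodup →
            (l.map (fun p : (Fin 5 → ℤ) × ℤ =>
                ((List.ofFn fun i => t i ^ p.1 i).prod * a *
                  ((List.ofFn fun i => t i ^ p.1 i).prod)⁻¹) ^ p.2)).prod *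
              (List.ofFn fun i => t i ^ v i).prod = 1 →
            v = 0 ∧ ∀ p ∈ l, p.2 = 0) := by
  obtain ⟨α, hα1, hα⟩ := Twist.exists_alpha 5
  have hT : ∀ v : Fin 5 → ℤ, (List.ofFn fun i => (rs (CubeMain.tN (α i))) ^ v i).prod =
      rs (List.ofFn fun i => CubeMain.tN (α i) ^ v i).prod := by
    intro v
    rw [map_list_prod, List.map_ofFn]
    congr 2
    ext1 i
    show _ = rs (CubeMain.tN (α i) ^ v i)
    rw [map_zpow]
  have hconj : ∀ v : Fin 5 → ℤ, (List.ofFn fun i => (rs (CubeMain.tN (α i))) ^ v i).prod *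
      rs (CubeMain.aN (Twist.sig (1/4))) *
      ((List.ofFn fun i => (rs (CubeMain.tN (α i))) ^ v i).prod)⁻¹ =
      rs ((List.ofFn fun i => CubeMain.tN (α i) ^ v i).prod * CubeMain.aN (Twist.sig (1/4)) *
        ((List.ofFn fun i => CubeMain.tN (α i) ^ v i).prod)⁻¹) := by
    intro v
    rw [hT, map_mul, map_mul, map_inv]
  refine ⟨rs (CubeMain.aN (Twist.sig (1/4))), fun i => rs (CubeMain.tN (α i)), ?_, ?_, ?_, ?_⟩
  · rintro g (rfl | ⟨i, rfl⟩)
    · exact rs_good _ (CubeMaps.CPL_aP _ _) (CubeMaps.CPL_aP_inv _ _)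
    · exact rs_good _ (CubeMaps.CPL_tP _ (hα1 i).1 (hα1 i).2)
        (CubeMaps.CPL_tP_inv _ (hα1 i).1 (hα1 i).2)
  · intro i j
    rw [← map_mul, ← map_mul, CubeMain.tN_comm]
  · intro v w
    rw [hconj, hconj]
    refine Commute.map ?_ rs
    rw [CubeMain.prod_tN, CubeMain.prod_tN, CubeMain.conj_aN, CubeMain.conj_aN]
    exact CubeMain.aN_comm _ _
  · intro l v hl h
    refine CubeMain.faithful hα (c := 1/4) (R := 1/2) (by norm_num) (by norm_num) l v hl ?_
    intro u w hu hw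
    have e1 : (l.map (fun p : (Fin 5 → ℤ) × ℤ =>
                ((List.ofFn fun i => (rs (CubeMain.tN (α i))) ^ p.1 i).prod *
                  rs (CubeMain.aN (Twist.sig (1/4))) *
                  ((List.ofFn fun i => (rs (CubeMain.tN (α i))) ^ p.1 i).prod)⁻¹) ^ p.2)).prod =
        rs (l.map (fun p : (Fin 5 → ℤ) × ℤ =>
        ((List.ofFn fun i => CubeMain.tN (α i) ^ p.1 i).prod * CubeMain.aN (Twist.sig (1/4)) *
          ((List.ofFn fun i => CubeMain.tN (α i) ^ p.1 i).prod)⁻¹) ^ p.2)).prod := by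
      rw [map_list_prod, List.map_map]
      congr 1
      apply List.map_congr_left
      intro p _
      rw [hconj, Function.comp_apply, map_zpow]
    rw [e1, hT, ← map_mul] at h
    obtain ⟨x, hx⟩ : ∃ x, cubePi x = (u, w) := by
      refine ⟨⟨CubeMaps.emb (1/2) (u, w), mem_cube.2 ?_⟩, CubeMaps.proj_emb _ _⟩
      rw [CubeMaps.proj_emb]
      exact ⟨hu, hw.le⟩
    rw [← hx, ← Twist.res_spec cubePi cubePi_inj cubePi_sat]
    show cubePi (rs _ x) = cubePi x
    rw [h]; rfl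

/-- For some n>1 there are PL homeomorphisms a, t_1..t_n of the cube [0,1]^(n-1) satisfying exactly the relations of Z wr Z^n faithfully, i.e. Z wr Z^n embeds in the PL homeomorphism group of the (n-1)-cube. -/
theorem result :
    ∃ n : ℕ, 1 < n ∧
      ∃ (a : Equiv.Perm (Set.Icc (0 : Fin (n - 1) → ℝ) 1))
        (t : Fin n → Equiv.Perm (Set.Icc (0 : Fin (n - 1) → ℝ) 1)),
        (∀ g : Equiv.Perm (Set.Icc (0 : Fin (n - 1) → ℝ) 1),
            (g = a ∨ ∃ i, g = t i) →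
              Continuous ⇑g ∧ Continuous ⇑g.symm ∧
              ∃ (k : ℕ) (S : Fin k → Finset (Fin (n - 1) → ℝ))
                (A : Fin k → ((Fin (n - 1) → ℝ) →ᵃ[ℝ] (Fin (n - 1) → ℝ))),
                (∀ x : Set.Icc (0 : Fin (n - 1) → ℝ) 1,
                    ∃ i, x.1 ∈ convexHull ℝ (↑(S i) : Set (Fin (n - 1) → ℝ))) ∧
                (∀ i, ∀ x : Set.Icc (0 : Fin (n - 1) → ℝ) 1,
                    x.1 ∈ convexHull ℝ (↑(S i) : Set (Fin (n - 1) → ℝ)) →
                      (g x).1 = A i x.1)) ∧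
        (∀ i j, t i * t j = t j * t i) ∧
        (∀ v w : Fin n → ℤ,
            Commute
              ((List.ofFn fun i => t i ^ v i).prod * a * ((List.ofFn fun i => t i ^ v i).prod)⁻¹)
              ((List.ofFn fun i => t i ^ w i).prod * a * ((List.ofFn fun i => t i ^ w i).prod)⁻¹)) ∧
        (∀ (l : List ((Fin n → ℤ) × ℤ)) (v : Fin n → ℤ),
            (l.map Prod.fst).Nodup →
            (l.map (fun p : (Fin n → ℤ) × ℤ =>
                ((List.ofFn fun i => t i ^ p.1 i).prod * a *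
                  ((List.ofFn fun i => t i ^ p.1 i).prod)⁻¹) ^ p.2)).prod *
              (List.ofFn fun i => t i ^ v i).prod = 1 →
            v = 0 ∧ ∀ p ∈ l, p.2 = 0) :=
  ⟨5, by norm_num, main5⟩

end Pool.Agent.S02147
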