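import Pool.Statements.S02156
import Pool.Agent.Helper815.GK2.Hopf3
import Pool.Agent.Helper815.GK2.P_domain
import Pool.Agent.Helper815.GK2.P_conn_filt
import Pool.Agent.Helper815.GK2.P_exists_filt
import Pool.Agent.Helper815.GK2.P_gk_upper
import Pool.Agent.Helper815.GK2.P_gk_lower
import Pool.Agent.Helper815.GK2.P_gk_asymp
import Pool.Agent.Helper815.GK2.P_not_two_gen

set_option autoImplicit false
open Pool Pool.MP_d9e773_al

namespace Pool.Agent.S02156

/-- The negation of the preceding statement: Over an algebraically closed field of characteristic p>0, every finitely generated connected Hopf domain of GK-dimension 2 is k[x1][x2;σ,δ], with x1^i x2^j a basis, k[x1] a Hopf subalgebra, σ an automorphism. -/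
theorem result :
    ¬ (∀ (k : Type) [Field k] [IsAlgClosed k] (p : ℕ) [CharP k p], p.Prime →
  ∀ (H : Type) [Ring H] [HopfAlgebra k H],
    IsDomain H → Algebra.FiniteType k H →
    (∀ C : Submodule k H, C ≠ ⊥ →
      (∀ c ∈ C, Coalgebra.comul (R := k) c ∈
        LinearMap.range (TensorProduct.map C.subtype C.subtype)) →
      (1 : H) ∈ C) →
    (∃ V : Submodule k H, FiniteDimensional k V ∧ (1 : H) ∈ V ∧
      Algebra.adjoin k (V : Set H) = ⊤ ∧
      (∀ ε : ℝ, 0 < ε → ∀ᶠ n : ℕ in Filter.atTop,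
        (Module.finrank k ↥(V ^ n) : ℝ) ≤ (n : ℝ) ^ ((2 : ℝ) + ε)) ∧
      (∀ ε : ℝ, 0 < ε → ∃ᶠ n : ℕ in Filter.atTop,
        (n : ℝ) ^ ((2 : ℝ) - ε) ≤ (Module.finrank k ↥(V ^ n) : ℝ))) →
    ∃ x₁ x₂ : H,
      LinearIndependent k (fun i : ℕ × ℕ => x₁ ^ i.1 * x₂ ^ i.2) ∧
      Submodule.span k (Set.range (fun i : ℕ × ℕ => x₁ ^ i.1 * x₂ ^ i.2)) = ⊤ ∧
      (∀ a ∈ Submodule.span k (Set.range (fun i : ℕ => x₁ ^ i)),
        Coalgebra.comul (R := k) a ∈ LinearMap.range
          (TensorProduct.map (Submodule.span k (Set.range (fun i : ℕ => x₁ ^ i))).subtype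
            (Submodule.span k (Set.range (fun i : ℕ => x₁ ^ i))).subtype) ∧
        HopfAlgebraStruct.antipode k a ∈ Submodule.span k (Set.range (fun i : ℕ => x₁ ^ i))) ∧
      ∃ σ : Algebra.adjoin k ({x₁} : Set H) ≃ₐ[k] Algebra.adjoin k ({x₁} : Set H),
      ∃ δ : Algebra.adjoin k ({x₁} : Set H) →ₗ[k] Algebra.adjoin k ({x₁} : Set H),
        ∀ a : Algebra.adjoin k ({x₁} : Set H),
          x₂ * (a : H) = (σ a : H) * x₂ + (δ a : H)) := by
  intro hall
  let k := AlgebraicClosure (ZMod 2)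
  have : CharP k 2 := inferInstance
  have hgen := Pool.Agent.Helper815.GK2.gen_top k
  have hcx := Pool.Agent.Helper815.GK2.Del_x k
  have hcy := Pool.Agent.Helper815.GK2.Del_y k
  have hcz := Pool.Agent.Helper815.GK2.Del_z k
  have hdom := Pool.Agent.Helper815.GK2.domain k
  have hfin : Algebra.FiniteType k (Pool.Agent.Helper815.GK2.H k) := by
    classical
    refine ⟨⟨{Pool.Agent.Helper815.GK2.x k, Pool.Agent.Helper815.GK2.y k,
      Pool.Agent.Helper815.GK2.z k}, ?_⟩⟩
    simpa using hgen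
  obtain ⟨x₁, x₂, -, hspan, -⟩ := hall k 2 Nat.prime_two (Pool.Agent.Helper815.GK2.H k) hdom hfin
    (by
      intro C hC hCC
      obtain ⟨F, h0, hmono, htop, hF⟩ := Pool.Agent.Helper815.GK2.exists_filt
        (Pool.Agent.Helper815.GK2.x k) (Pool.Agent.Helper815.GK2.y k)
        (Pool.Agent.Helper815.GK2.z k) hgen hcx hcy hcz
      exact Pool.Agent.Helper815.GK2.conn_filt F 1 h0 hmono htop hF C hC hCC)
    (by
      have hasy := Pool.Agent.Helper815.GK2.gk_asymp
        (fun n => Module.finrank k ↥((Submodule.span k ({1, Pool.Agent.Helper815.GK2.x k,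
          Pool.Agent.Helper815.GK2.y k, Pool.Agent.Helper815.GK2.z k} :
          Set (Pool.Agent.Helper815.GK2.H k))) ^ n))
        (Pool.Agent.Helper815.GK2.gk_upper k) (Pool.Agent.Helper815.GK2.gk_lower k)
      refine ⟨Submodule.span k ({1, Pool.Agent.Helper815.GK2.x k,
          Pool.Agent.Helper815.GK2.y k, Pool.Agent.Helper815.GK2.z k} :
          Set (Pool.Agent.Helper815.GK2.H k)), ?_, ?_, ?_, hasy.1, hasy.2⟩
      · exact FiniteDimensional.span_of_finite k (Set.toFinite _)
      · exact Submodule.subset_span (by simp)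
      · rw [eq_top_iff, ← hgen]
        apply Algebra.adjoin_mono
        refine Set.Subset.trans ?_ Submodule.subset_span
        intro w hw
        exact Set.mem_insert_of_mem _ hw)
  apply Pool.Agent.Helper815.GK2.not_two_gen k x₁ x₂
  rw [eq_top_iff]
  intro w _
  have hw : w ∈ Submodule.span k (Set.range (fun i : ℕ × ℕ => x₁ ^ i.1 * x₂ ^ i.2)) := by
    rw [hspan]; trivial
  have hle : Submodule.span k (Set.range (fun i : ℕ × ℕ => x₁ ^ i.1 * x₂ ^ i.2)) ≤
      Subalgebra.toSubmodule (Algebra.adjoin k ({x₁, x₂} : Set (Pool.Agent.Helper815.GK2.H k))) := by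
    rw [Submodule.span_le]
    rintro _ ⟨i, rfl⟩
    have hm : x₁ ^ i.1 * x₂ ^ i.2 ∈
        Algebra.adjoin k ({x₁, x₂} : Set (Pool.Agent.Helper815.GK2.H k)) :=
      mul_mem (pow_mem (Algebra.subset_adjoin (by simp)) _)
        (pow_mem (Algebra.subset_adjoin (by simp)) _)
    exact hm
  exact hle hw

end Pool.Agent.S02156
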