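import Pool.Statements.S02157

set_option autoImplicit false
open Pool Pool.MP_da35dd_al

namespace Pool.Agent.S02157

/-- Evaluation of a word `∏ x^m y^n` given by its list of exponent pairs. -/
def ev {G : Type*} [Group G] (x y : G) : List (ℤ × ℤ) → G
  | [] => 1
  | p :: l => x ^ p.1 * (y ^ p.2 * ev x y l)

theorem map_ev {G H : Type*} [Group G] [Group H] (f : G →* H) (x y : G) (l : List (ℤ × ℤ)) :
    f (ev x y l) = ev (f x) (f y) l := by
  induction l with
  | nil => simp [ev]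
  | cons p l ih => simp [ev, ih]

/-- Upper unipotent matrix. -/
def U (t : ℚ) : Matrix.SpecialLinearGroup (Fin 2) ℚ := ⟨!![1, t; 0, 1], by simp⟩
/-- Lower unipotent matrix. -/
def L (t : ℚ) : Matrix.SpecialLinearGroup (Fin 2) ℚ := ⟨!![1, 0; t, 1], by simp⟩

theorem U_mul (s t : ℚ) : U s * U t = U (s + t) := by
  apply Subtype.ext
  rw [Matrix.SpecialLinearGroup.coe_mul]
  simp [U, add_comm]

theorem L_mul (s t : ℚ) : L s * L t = L (s + t) := by
  apply Subtype.ext
  rw [Matrix.SpecialLinearGroup.coe_mul]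
  simp [L]

theorem U_zero : U 0 = 1 := by
  apply Subtype.ext
  simp [U, Matrix.one_fin_two]

theorem L_zero : L 0 = 1 := by
  apply Subtype.ext
  simp [L, Matrix.one_fin_two]

/-- `U` as a homomorphism. -/
def Uhom : Multiplicative ℚ →* Matrix.SpecialLinearGroup (Fin 2) ℚ where
  toFun t := U t.toAdd
  map_one' := by simpa using U_zero
  map_mul' s t := by simp [U_mul]

/-- `L` as a homomorphism. -/
def Lhom : Multiplicative ℚ →* Matrix.SpecialLinearGroup (Fin 2) ℚ where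
  toFun t := L t.toAdd
  map_one' := by simpa using L_zero
  map_mul' s t := by simp [L_mul]

theorem U_zpow (t : ℚ) (m : ℤ) : U t ^ m = U (m * t) := by
  have h := (map_zpow Uhom (Multiplicative.ofAdd t) m)
  simp only [Uhom, MonoidHom.coe_mk, OneHom.coe_mk] at h
  rw [toAdd_ofAdd] at h
  rw [← h, toAdd_zpow, toAdd_ofAdd, zsmul_eq_mul]

theorem L_zpow (t : ℚ) (m : ℤ) : L t ^ m = L (m * t) := by
  have h := (map_zpow Lhom (Multiplicative.ofAdd t) m)
  simp only [Lhom, MonoidHom.coe_mk, OneHom.coe_mk] at h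
  rw [toAdd_ofAdd] at h
  rw [← h, toAdd_zpow, toAdd_ofAdd, zsmul_eq_mul]

/-- Row-wise evaluation of the word on `U q`, `L 1`, as a quadruple of entries. -/
def evq (q : ℚ) : List (ℤ × ℤ) → ℚ × ℚ × ℚ × ℚ
  | [] => (1, 0, 0, 1)
  | p :: l =>
    let r := evq q l
    let c := p.2 * r.1 + r.2.2.1
    let d := p.2 * r.2.1 + r.2.2.2
    (r.1 + p.1 * q * c, r.2.1 + p.1 * q * d, c, d)

theorem ev_eq (q : ℚ) (l : List (ℤ × ℤ)) :
    ((ev (U q) (L 1) l : Matrix.SpecialLinearGroup (Fin 2) ℚ) : Matrix (Fin 2) (Fin 2) ℚ) =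
      !![(evq q l).1, (evq q l).2.1; (evq q l).2.2.1, (evq q l).2.2.2] := by
  induction l with
  | nil => simp [ev, evq, Matrix.one_fin_two]
  | cons p l ih =>
    rw [ev, U_zpow, L_zpow, Matrix.SpecialLinearGroup.coe_mul, Matrix.SpecialLinearGroup.coe_mul,
      ih]
    simp only [U, L, Matrix.mul_fin_two, evq]
    ext i j
    fin_cases i <;> fin_cases j <;> simp

/-- The word, read from the left. -/
def wd : List (ℤ × ℤ) :=
  [(0, -10), (-1, 149), (2, -1), (1, -2), (3, 1), (1, 4), (1, -1), (1, -1), (1, -1), (1, -1),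
   (1, -1), (1, -1), (1, -1), (1, -1), (1, -1), (1, 4), (1, 1), (3, -2), (1, -1), (2, 149),
   (-1, -10)]

theorem wd_39_10 : evq (39 / 10) wd = (1, -19042148973095781 / 97656250000000000, 0, 1) := by
  decide +kernel

theorem wd_4 : (evq 4 wd).2.2.1 ≠ 0 := by
  decide +kernel

theorem comm_rat : ev (U (39 / 10)) (L 1) wd * U (39 / 10) =
    U (39 / 10) * ev (U (39 / 10)) (L 1) wd := by
  apply Subtype.ext
  rw [Matrix.SpecialLinearGroup.coe_mul, Matrix.SpecialLinearGroup.coe_mul, ev_eq, wd_39_10]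
  simp only [U, Matrix.mul_fin_two]
  ext i j
  fin_cases i <;> fin_cases j <;> norm_num

theorem not_comm_four : ev (U 4) (L 1) wd * U 4 ≠ U 4 * ev (U 4) (L 1) wd := by
  intro h
  have h1 := congrArg (fun M : Matrix.SpecialLinearGroup (Fin 2) ℚ =>
    (M : Matrix (Fin 2) (Fin 2) ℚ)) h
  rw [Matrix.SpecialLinearGroup.coe_mul, Matrix.SpecialLinearGroup.coe_mul, ev_eq] at h1
  have h2 := congrFun (congrFun h1 0) 0
  generalize hg : evq 4 wd = r at h2
  have h3 := wd_4
  rw [hg] at h3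
  simp [U, Matrix.mul_apply, Fin.sum_univ_two] at h2
  exact h3 h2

/-- The embedding of `SL(2,ℚ)` in `GL(2,ℂ)`. -/
noncomputable def phi : Matrix.SpecialLinearGroup (Fin 2) ℚ →* GL (Fin 2) ℂ :=
  (Matrix.SpecialLinearGroup.toGL).comp (Matrix.SpecialLinearGroup.map (algebraMap ℚ ℂ))

theorem phi_coe (M : Matrix.SpecialLinearGroup (Fin 2) ℚ) (i j : Fin 2) :
    (phi M : Matrix (Fin 2) (Fin 2) ℂ) i j = ((M : Matrix (Fin 2) (Fin 2) ℚ) i j : ℂ) := by
  rfl

theorem phi_U (t : ℚ) : (phi (U t) : Matrix (Fin 2) (Fin 2) ℂ) = !![1, (t : ℂ); 0, 1] := by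
  ext i j
  rw [phi_coe]
  fin_cases i <;> fin_cases j <;> simp [U]

theorem phi_L : (phi (L 1) : Matrix (Fin 2) (Fin 2) ℂ) = !![1, 0; 1, 1] := by
  ext i j
  rw [phi_coe]
  fin_cases i <;> fin_cases j <;> simp [L]

theorem not_injective (q : ℚ) (l : List (ℤ × ℤ))
    (hc : ev (U q) (L 1) l * U q = U q * ev (U q) (L 1) l)
    (hn : ev (U 4) (L 1) l * U 4 ≠ U 4 * ev (U 4) (L 1) l) :
    ¬ Function.Injective (FreeGroup.lift (![phi (U q), phi (L 1)] : Fin 2 → GL (Fin 2) ℂ)) := by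
  intro hinj
  have e0 : FreeGroup.lift (![phi (U q), phi (L 1)] : Fin 2 → GL (Fin 2) ℂ)
      (FreeGroup.of 0) = phi (U q) := by simp
  have e1 : FreeGroup.lift (![phi (U q), phi (L 1)] : Fin 2 → GL (Fin 2) ℂ)
      (FreeGroup.of 1) = phi (L 1) := by simp
  have f0 : FreeGroup.lift (![U 4, L 1] : Fin 2 → Matrix.SpecialLinearGroup (Fin 2) ℚ)
      (FreeGroup.of 0) = U 4 := by simp
  have f1 : FreeGroup.lift (![U 4, L 1] : Fin 2 → Matrix.SpecialLinearGroup (Fin 2) ℚ)
      (FreeGroup.of 1) = L 1 := by simp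
  have key : ev (FreeGroup.of (0 : Fin 2)) (FreeGroup.of 1) l * FreeGroup.of 0 =
      FreeGroup.of 0 * ev (FreeGroup.of (0 : Fin 2)) (FreeGroup.of 1) l := by
    apply hinj
    rw [map_mul, map_mul, map_ev, e0, e1]
    have h := congrArg phi hc
    rw [map_mul, map_mul, map_ev] at h
    exact h
  have h4 := congrArg (FreeGroup.lift
    (![U 4, L 1] : Fin 2 → Matrix.SpecialLinearGroup (Fin 2) ℚ)) key
  rw [map_mul, map_mul, map_ev, f0, f1] at h4
  exact hn h4

/-- There is a rational q with 27/7 ≤ q < 4 such that the matrices [[1,q],[0,1]] and [[1,0],[1,1]] in GL(2,ℂ) satisfy a nontrivial relation, i.e. do not freely generate a free group of rank 2. -/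
theorem result :
    ∃ q : ℚ, (27 / 7 : ℚ) ≤ q ∧ q < 4 ∧
      ∃ a b : GL (Fin 2) ℂ,
        (a : Matrix (Fin 2) (Fin 2) ℂ) = !![1, (q : ℂ); 0, 1] ∧
        (b : Matrix (Fin 2) (Fin 2) ℂ) = !![1, 0; 1, 1] ∧
        ¬ Function.Injective (FreeGroup.lift (![a, b] : Fin 2 → GL (Fin 2) ℂ)) := by
  exact ⟨39 / 10, by norm_num, by norm_num, phi (U (39 / 10)), phi (L 1), phi_U _, phi_L,
    not_injective _ _ comm_rat not_comm_four⟩

end Pool.Agent.S02157
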