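import Pool.Statements.S02160

set_option autoImplicit false
open Pool Pool.MP_da5d41_al

namespace Pool.Agent.S02160

/-- Elements of the lattice.  `X j k` and `Y j k` carry a level `j` and a height `k`;
`Xi j`, `Yi j` are the same with height infinity. -/
inductive E : Type
  | X (j k : ℕ) (h : j ≤ k + 1) : E
  | Xi (j : ℕ) : E
  | Y (j k : ℕ) (h : j ≤ k) : E
  | Yi (j : ℕ) : E
  | r (k : ℕ) : E
  | b : E
  | c : E
  | one : E

namespace E

/-- The order. -/
def le : E → E → Prop
  | X j k _, X j' k' _ => j ≤ j' ∧ k ≤ k'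
  | X j _ _, Xi j' => j ≤ j'
  | X j k _, Y j' k' _ => j ≤ j' ∧ k ≤ k'
  | X j _ _, Yi j' => j ≤ j'
  | X _ k _, r l => k ≤ l
  | X _ _ _, b => True
  | X j _ _, c => j = 0
  | Xi j, Xi j' => j ≤ j'
  | Xi j, Yi j' => j ≤ j'
  | Xi _, b => True
  | Xi j, c => j = 0
  | Y j k _, Y j' k' _ => j ≤ j' ∧ k ≤ k'
  | Y j _ _, Yi j' => j ≤ j'
  | Y _ _ _, b => True
  | Yi j, Yi j' => j ≤ j'
  | Yi _, b => True
  | r k, r l => k ≤ l
  | b, b => True
  | c, c => True
  | _, one => True
  | _, _ => False

/-- The join. -/
def sup : E → E → E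
  | X j k h, X j' k' h' => X (max j j') (max k k') (by omega)
  | X j _ _, Xi j' => Xi (max j j')
  | Xi j, X j' _ _ => Xi (max j j')
  | Xi j, Xi j' => Xi (max j j')
  | X j k _, Y j' k' _ => Y (max j j') (max (max k k') (max j j')) (by omega)
  | Y j k _, X j' k' _ => Y (max j j') (max (max k k') (max j j')) (by omega)
  | Y j k _, Y j' k' _ => Y (max j j') (max (max k k') (max j j')) (by omega)
  | X j _ _, Yi j' => Yi (max j j')
  | Yi j, X j' _ _ => Yi (max j j')
  | Xi j, Y j' _ _ => Yi (max j j')
  | Y j _ _, Xi j' => Yi (max j j')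
  | Xi j, Yi j' => Yi (max j j')
  | Yi j, Xi j' => Yi (max j j')
  | Y j _ _, Yi j' => Yi (max j j')
  | Yi j, Y j' _ _ => Yi (max j j')
  | Yi j, Yi j' => Yi (max j j')
  | X _ k _, r l => r (max k l)
  | r l, X _ k _ => r (max k l)
  | r k, r l => r (max k l)
  | X _ _ _, b => b
  | Xi _, b => b
  | Y _ _ _, b => b
  | Yi _, b => b
  | b, X _ _ _ => b
  | b, Xi _ => b
  | b, Y _ _ _ => b
  | b, Yi _ => b
  | b, b => b
  | X j _ _, c => if j = 0 then c else one
  | c, X j _ _ => if j = 0 then c else one
  | Xi j, c => if j = 0 then c else one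
  | c, Xi j => if j = 0 then c else one
  | c, c => c
  | _, _ => one

/-- The meet. -/
def inf : E → E → E
  | X j k _, X j' k' _ => X (min j j') (min k k') (by omega)
  | X j k _, Xi j' => X (min j j') k (by omega)
  | Xi j, X j' k' _ => X (min j j') k' (by omega)
  | Xi j, Xi j' => Xi (min j j')
  | X j k _, Y j' k' _ => X (min j j') (min k k') (by omega)
  | Y j k _, X j' k' _ => X (min j j') (min k k') (by omega)
  | X j k _, Yi j' => X (min j j') k (by omega)
  | Yi j, X j' k' _ => X (min j j') k' (by omega)
  | Xi j, Y j' k' _ => X (min j j') k' (by omega)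
  | Y j k _, Xi j' => X (min j j') k (by omega)
  | Xi j, Yi j' => Xi (min j j')
  | Yi j, Xi j' => Xi (min j j')
  | Y j k _, Y j' k' _ => Y (min j j') (min k k') (by omega)
  | Y j k _, Yi j' => Y (min j j') k (by omega)
  | Yi j, Y j' k' _ => Y (min j j') k' (by omega)
  | Yi j, Yi j' => Yi (min j j')
  | X j k _, r l => X (min j (l + 1)) (min k l) (by omega)
  | r l, X j k _ => X (min j (l + 1)) (min k l) (by omega)
  | Xi j, r l => X (min j (l + 1)) l (by omega)
  | r l, Xi j => X (min j (l + 1)) l (by omega)
  | Y j k _, r l => X (min j (l + 1)) (min k l) (by omega)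
  | r l, Y j k _ => X (min j (l + 1)) (min k l) (by omega)
  | Yi j, r l => X (min j (l + 1)) l (by omega)
  | r l, Yi j => X (min j (l + 1)) l (by omega)
  | r k, r l => r (min k l)
  | b, r l => X (l + 1) l (by omega)
  | r l, b => X (l + 1) l (by omega)
  | c, r l => X 0 l (by omega)
  | r l, c => X 0 l (by omega)
  | b, X j k h => X j k h
  | X j k h, b => X j k h
  | b, Xi j => Xi j
  | Xi j, b => Xi j
  | b, Y j k h => Y j k h
  | Y j k h, b => Y j k h
  | b, Yi j => Yi j
  | Yi j, b => Yi j
  | b, b => b
  | X _ k _, c => X 0 k (by omega)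
  | c, X _ k _ => X 0 k (by omega)
  | Xi _, c => Xi 0
  | c, Xi _ => Xi 0
  | Y _ k _, c => X 0 k (by omega)
  | c, Y _ k _ => X 0 k (by omega)
  | Yi _, c => Xi 0
  | c, Yi _ => Xi 0
  | b, c => Xi 0
  | c, b => Xi 0
  | c, c => c
  | one, x => x
  | x, one => x

theorem le_refl' (x : E) : le x x := by
  cases x <;> simp [le]

theorem le_trans' (x y z : E) (h1 : le x y) (h2 : le y z) : le x z := by
  cases x <;> cases y <;> cases z <;> simp only [le] at h1 h2 ⊢ <;> omega

theorem le_antisymm' (x y : E) (h1 : le x y) (h2 : le y x) : x = y := by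
  cases x <;> cases y <;> simp only [le] at h1 h2 <;> first
    | rfl
    | (simp only [X.injEq, Xi.injEq, Y.injEq, Yi.injEq, r.injEq]; omega)

theorem le_sup_left' (x y : E) : le x (sup x y) := by
  cases x <;> cases y <;> simp only [sup] <;> (try split_ifs) <;> simp only [le] <;> omega

theorem le_sup_right' (x y : E) : le y (sup x y) := by
  cases x <;> cases y <;> simp only [sup] <;> (try split_ifs) <;> simp only [le] <;> omega

theorem sup_le' (x y z : E) (h1 : le x z) (h2 : le y z) : le (sup x y) z := by
  cases x <;> cases y <;> simp only [sup] <;> (try split_ifs) <;> cases z <;>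
    simp only [le] at h1 h2 ⊢ <;> omega

theorem inf_le_left' (x y : E) : le (inf x y) x := by
  cases x <;> cases y <;> simp only [inf, le] <;> omega

theorem inf_le_right' (x y : E) : le (inf x y) y := by
  cases x <;> cases y <;> simp only [inf, le] <;> omega

theorem le_inf' (x y z : E) (h1 : le x y) (h2 : le x z) : le x (inf y z) := by
  cases y <;> cases z <;> simp only [inf] <;> cases x <;>
    simp only [le] at h1 h2 ⊢ <;> omega

instance : Lattice E where
  sup := sup
  inf := inf
  le := le
  le_refl := le_refl'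
  le_trans := le_trans'
  le_antisymm := le_antisymm'
  le_sup_left := le_sup_left'
  le_sup_right := le_sup_right'
  sup_le := fun x y z => sup_le' x y z
  inf_le_left := inf_le_left'
  inf_le_right := inf_le_right'
  le_inf := fun x y z => le_inf' x y z

/-- The four generators. -/
def gens : Set E := {Y 0 0 (by omega), b, c, r 0}

theorem r_mem {S : Set E} (hG : gens ⊆ S) (hs : SupClosed S) (hi : InfClosed S) :
    ∀ k, r k ∈ S := by
  have ha : Y 0 0 (by omega) ∈ S := hG (by simp [gens])
  have hb : b ∈ S := hG (by simp [gens])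
  have hc : c ∈ S := hG (by simp [gens])
  have hd : r 0 ∈ S := hG (by simp [gens])
  intro k
  induction k with
  | zero => exact hd
  | succ k ih =>
    have h1 : X (k + 1) k (by omega) ∈ S := hi ih hb
    have h2 : Y (k + 1) (k + 1) (by omega) ∈ S := by
      have h := hs h1 ha
      have e : (X (k + 1) k (by omega) ⊔ Y 0 0 (by omega) : E) = Y (k + 1) (k + 1) (by omega) := by
        change sup _ _ = _
        simp only [sup, Y.injEq]
        omega
      rw [e] at h
      exact h
    have h3 : X 0 (k + 1) (by omega) ∈ S := hi h2 hc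
    have h4 := hs h3 hd
    have e : (X 0 (k + 1) (by omega) ⊔ r 0 : E) = r (k + 1) := by
      change sup _ _ = _
      simp only [sup, r.injEq]
      omega
    rw [e] at h4
    exact h4

theorem mem_of_gens {S : Set E} (hG : gens ⊆ S) (hs : SupClosed S) (hi : InfClosed S) (x : E) :
    x ∈ S := by
  have ha : Y 0 0 (by omega) ∈ S := hG (by simp [gens])
  have hb : b ∈ S := hG (by simp [gens])
  have hc : c ∈ S := hG (by simp [gens])
  have hr := r_mem hG hs hi
  have h0 : ∀ k, X 0 k (by omega) ∈ S := fun k => hi (hr k) hc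
  have hd : ∀ k, X (k + 1) k (by omega) ∈ S := fun k => hi (hr k) hb
  have hX : ∀ j k (h : j ≤ k + 1), X j k h ∈ S := by
    intro j k h
    rcases j with _ | j
    · exact h0 k
    · have h5 := hs (hd j) (h0 k)
      have e : (X (j + 1) j (by omega) ⊔ X 0 k (by omega) : E) = X (j + 1) k h := by
        change sup _ _ = _
        simp only [sup, X.injEq]
        omega
      rw [e] at h5
      exact h5
  have hXi0 : Xi 0 ∈ S := hi hb hc
  have hXi : ∀ j, Xi j ∈ S := by
    intro j
    have h5 := hs (hX j j (by omega)) hXi0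
    have e : (X j j (by omega) ⊔ Xi 0 : E) = Xi j := by
      change sup _ _ = _
      simp only [sup, Xi.injEq]
      omega
    rw [e] at h5
    exact h5
  have hY : ∀ j k (h : j ≤ k), Y j k h ∈ S := by
    intro j k h
    have h5 := hs (hX j k (by omega)) ha
    have e : (X j k (by omega) ⊔ Y 0 0 (by omega) : E) = Y j k h := by
      change sup _ _ = _
      simp only [sup, Y.injEq]
      omega
    rw [e] at h5
    exact h5
  have hYi : ∀ j, Yi j ∈ S := by
    intro j
    have h5 := hs (hXi j) ha
    have e : (Xi j ⊔ Y 0 0 (by omega) : E) = Yi j := by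
      change sup _ _ = _
      simp only [sup, Yi.injEq]
      omega
    rw [e] at h5
    exact h5
  have h1 : one ∈ S := hs hb hc
  cases x with
  | X j k h => exact hX j k h
  | Xi j => exact hXi j
  | Y j k h => exact hY j k h
  | Yi j => exact hYi j
  | r k => exact hr k
  | b => exact hb
  | c => exact hc
  | one => exact h1

/-- A code in a locally finite order. -/
def code : E → ℕ × ℕ × ℕ
  | X j k _ => (0, j, k)
  | Xi j => (1, j, 0)
  | Y j k _ => (2, j, k)
  | Yi j => (3, j, 0)
  | r k => (4, k, 0)
  | b => (5, 0, 0)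
  | c => (6, 0, 0)
  | one => (7, 0, 0)

theorem code_injective : Function.Injective code := by
  intro x y h
  cases x <;> cases y <;> simp_all [code]

/-- The finite indices of an element are at most `N`. -/
def small (N : ℕ) : E → Prop
  | X j k _ => j ≤ N ∧ k ≤ N
  | Xi j => j ≤ N
  | Y j k _ => j ≤ N ∧ k ≤ N
  | Yi j => j ≤ N
  | r k => k ≤ N
  | b => False
  | c => True
  | one => True

theorem small_finite (N : ℕ) : {x : E | small N x}.Finite := by
  have h : {x : E | small N x} ⊆ code ⁻¹' (Set.Iic (7, N, N)) := by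
    intro x hx
    cases x <;> simp_all [small, code, Prod.le_def]
  exact (Set.Finite.preimage code_injective.injOn (Set.finite_Iic _)).subset h

theorem small_sup (N : ℕ) (x y : E) (hx : small N x) (hy : small N y) : small N (x ⊔ y) := by
  change small N (sup x y)
  cases x <;> cases y <;> simp only [sup] <;> (try split_ifs) <;>
    simp only [small] at hx hy ⊢ <;> omega

theorem small_inf (N : ℕ) (x y : E) (hx : small N x) (hy : small N y) : small N (x ⊓ y) := by
  change small N (inf x y)
  cases x <;> cases y <;> simp only [inf] <;>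
    simp only [small] at hx hy ⊢ <;> omega

/-- Every element other than `b` is small for some bound. -/
def bound : E → ℕ
  | X j k _ => max j k
  | Xi j => j
  | Y j k _ => max j k
  | Yi j => j
  | r k => k
  | b => 0
  | c => 0
  | one => 0

theorem small_of_bound (N : ℕ) (x : E) (hb : x ≠ b) (h : bound x ≤ N) : small N x := by
  cases x <;> simp only [small, bound, ne_eq, not_true_eq_false] at * <;> omega

/-- The elements of the sublattice generated by `b`, `c` and `r k`. -/
def tri (k : ℕ) : Set E :=
  {b, c, r k, one, Xi 0, Xi (k + 1), X 0 k (by omega), X (k + 1) k (by omega)}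

theorem tri_finite (k : ℕ) : (tri k).Finite := by
  unfold tri
  exact Set.toFinite _

theorem tri_sup (k : ℕ) (x y : E) (hx : x ∈ tri k) (hy : y ∈ tri k) : x ⊔ y ∈ tri k := by
  change sup x y ∈ tri k
  simp only [tri, Set.mem_insert_iff, Set.mem_singleton_iff] at hx hy ⊢
  rcases hx with rfl | rfl | rfl | rfl | rfl | rfl | rfl | rfl <;>
    rcases hy with rfl | rfl | rfl | rfl | rfl | rfl | rfl | rfl <;>
    simp [sup]

theorem tri_inf (k : ℕ) (x y : E) (hx : x ∈ tri k) (hy : y ∈ tri k) : x ⊓ y ∈ tri k := by
  change inf x y ∈ tri k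
  simp only [tri, Set.mem_insert_iff, Set.mem_singleton_iff] at hx hy ⊢
  rcases hx with rfl | rfl | rfl | rfl | rfl | rfl | rfl | rfl <;>
    rcases hy with rfl | rfl | rfl | rfl | rfl | rfl | rfl | rfl <;>
    simp [inf]

/-- Finite antichains generate finite sublattices. -/
theorem finite_closed (A : Set E) (hA : A.Finite) (hanti : IsAntichain (· ≤ ·) A) :
    ∃ S : Set E, S.Finite ∧ A ⊆ S ∧ SupClosed S ∧ InfClosed S := by
  by_cases hbA : b ∈ A
  · have hcomp : ∀ x ∈ A, x = b ∨ x = c ∨ ∃ k, x = r k := by
      intro x hx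
      by_cases hxb : x = b
      · exact Or.inl hxb
      · have h1 : ¬ x ≤ b := hanti hx hbA hxb
        have h2 : ¬ b ≤ x := hanti hbA hx (Ne.symm hxb)
        change ¬ le x b at h1
        change ¬ le b x at h2
        cases x <;> simp [le] at *
    have huniq : ∀ k l, r k ∈ A → r l ∈ A → k = l := by
      intro k l hk hl
      by_contra hne
      have h1 : ¬ (r k : E) ≤ r l := hanti hk hl (by simpa using hne)
      have h2 : ¬ (r l : E) ≤ r k := hanti hl hk (by simpa using Ne.symm hne)
      change ¬ k ≤ l at h1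
      change ¬ l ≤ k at h2
      omega
    have hk : ∃ k, ∀ l, r l ∈ A → l = k := by
      by_cases h : ∃ k, r k ∈ A
      · obtain ⟨k, hk⟩ := h
        exact ⟨k, fun l hl => huniq l k hl hk⟩
      · exact ⟨0, fun l hl => (h ⟨l, hl⟩).elim⟩
    obtain ⟨k, hk⟩ := hk
    refine ⟨tri k, tri_finite k, ?_, fun x hx y hy => tri_sup k x y hx hy,
      fun x hx y hy => tri_inf k x y hx hy⟩
    intro x hx
    rcases hcomp x hx with rfl | rfl | ⟨l, rfl⟩
    · simp [tri]
    · simp [tri]
    · rw [hk l hx]
      simp [tri]
  · obtain ⟨N, hN⟩ := (hA.image bound).bddAbove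
    refine ⟨{x | small N x}, small_finite N, ?_, fun x hx y hy => small_sup N x y hx hy,
      fun x hx y hy => small_inf N x y hx hy⟩
    intro x hx
    exact small_of_bound N x (fun h => hbA (h ▸ hx)) (hN ⟨x, hx, rfl⟩)

end E

/-- The negation of the preceding statement: Every infinite lattice generated by finitely many elements contains a finite antichain whose generated sublattice (the smallest subset containing it and closed under join and meet) is infinite. -/
theorem result :
    ¬ (∀ (L : Type) [Lattice L], Infinite L →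
      (∃ G : Set L, G.Finite ∧
        ⋂₀ {S : Set L | G ⊆ S ∧ SupClosed S ∧ InfClosed S} = Set.univ) →
      ∃ A : Set L, A.Finite ∧ IsAntichain (· ≤ ·) A ∧
        (⋂₀ {S : Set L | A ⊆ S ∧ SupClosed S ∧ InfClosed S}).Infinite) := by
  intro h
  obtain ⟨A, hA, hanti, hinf⟩ := h E
    (Infinite.of_injective E.r (fun x y hxy => by simpa using hxy))
    ⟨E.gens, by unfold E.gens; exact Set.toFinite _, by
      apply Set.eq_univ_of_forall
      intro x S hS
      exact E.mem_of_gens hS.1 hS.2.1 hS.2.2 x⟩
  obtain ⟨S, hSf, hAS, hs, hi⟩ := E.finite_closed A hA hanti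
  exact hinf (hSf.subset (Set.sInter_subset_of_mem ⟨hAS, hs, hi⟩))

end Pool.Agent.S02160
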