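import Pool.Statements.S02165
import Pool.Agent.Helper419.PW.Fin

set_option autoImplicit false
open Filter
open Pool Pool.MP_dab459_al

namespace Pool.Agent.S02165

/-- For r ≥ 2 and any nontrivial non-primitive u in the free group F_r, the limsup of (number of automorphic images of u of reduced length ≤ n)^(1/n) equals √(2r−1). -/
theorem result :
    ∀ r : ℕ, 2 ≤ r → ∀ u : FreeGroup (Fin r), u ≠ 1 →
      (∀ i : Fin r, ¬ ∃ φ : FreeGroup (Fin r) ≃* FreeGroup (Fin r), φ (FreeGroup.of i) = u) →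
      ∀ ε : ℝ, 0 < ε →
        (∀ᶠ n : ℕ in atTop,
          ((Set.ncard {v : FreeGroup (Fin r) |
              (∃ φ : FreeGroup (Fin r) ≃* FreeGroup (Fin r), φ u = v) ∧
                (FreeGroup.toWord v).length ≤ n} : ℝ) ^ ((1 : ℝ) / (n : ℝ)))
            ≤ Real.sqrt (2 * (r : ℝ) - 1) + ε) ∧
        (∃ᶠ n : ℕ in atTop,
          Real.sqrt (2 * (r : ℝ) - 1) - ε ≤
          ((Set.ncard {v : FreeGroup (Fin r) |
              (∃ φ : FreeGroup (Fin r) ≃* FreeGroup (Fin r), φ u = v) ∧
                (FreeGroup.toWord v).length ≤ n} : ℝ) ^ ((1 : ℝ) / (n : ℝ)))) := by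
  exact PW.last_of (fun r => r + 1) (fun r => Nat.le_succ r)
    (fun r hr u hu1 hu x hx => PW.m5_final r hr u hu1 hu x hx)

end Pool.Agent.S02165
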