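import Pool.Statements.S02169
import Pool.Agent.MinTop828.Top

set_option autoImplicit false
open Filter Topology
open Pool Pool.MP_db08e8_al

namespace Pool.Agent.S02169

/-- There is a field with a Hausdorff field topology that is not locally bounded (no neighborhood of 0 is bounded), such that every Hausdorff field topology coarser than it equals it. -/
theorem result :
    ∃ (K : Type) (_ : Field K) (t : TopologicalSpace K),
      IsTopologicalDivisionRing K ∧ T2Space K ∧
      (¬ ∃ U ∈ 𝓝 (0 : K), ∀ V ∈ 𝓝 (0 : K), ∃ W ∈ 𝓝 (0 : K),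
          ∀ w ∈ W, ∀ u ∈ U, w * u ∈ V) ∧
      ∀ t' : TopologicalSpace K,
        @IsTopologicalDivisionRing K _ t' → @T2Space K t' → t ≤ t' → t' = t := by
  refine ⟨Pool.Agent.MinTop828.K, inferInstance, Pool.Agent.MinTop828.tau,
    Pool.Agent.MinTop828.tau_field, Pool.Agent.MinTop828.tau_t2,
    Pool.Agent.MinTop828.tau_not_bdd, ?_⟩
  intro t' h1 h2 h3
  exact Pool.Agent.MinTop828.tau_min t' h1 h2 h3

end Pool.Agent.S02169
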