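import Pool.Statements.S02191

set_option autoImplicit false
open Pool Pool.MP_dd6327_al


namespace Pool.Agent.S02191.SDabs

/-- The abstract data: a division ring with a one-sided valuation-like function. -/
structure Data (D : Type) [DivisionRing D] where
  w : D → WithTop ℝ
  w0 : ∀ d, w d = ⊤ ↔ d = 0
  w1 : w 1 = 0
  wadd : ∀ a b, min (w a) (w b) ≤ w (a + b)
  wneg : ∀ a, w (-a) = w a
  wmul : ∀ r d, 0 ≤ w r → w d ≤ w (r * d)
  wdiv : ∀ d d', d ≠ 0 → w d ≤ w d' → 0 ≤ w (d' * d⁻¹)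
  wsurj : ∀ c : ℝ, ∃ d, w d = c
  wx : ∀ d, d ≠ 0 → ∀ c : ℝ, 1 < c → ∃ y, 1 < w y ∧ w (d * y) < c
  phi : ∀ s : ℝ, 0 < s → ∃ φ : D ≃+* D, ∀ d, ∀ c : ℝ,
    ((c : ℝ) : WithTop ℝ) < w d ↔ ((s * c : ℝ) : WithTop ℝ) < w (φ d)

variable {D : Type} [DivisionRing D] (T : Data D)

include T

theorem j1 {a : D} (h0 : a ≠ 0) (ha : 0 < T.w a) : ¬ (0 ≤ T.w a⁻¹) := by
  intro h
  have h2 := T.wmul a⁻¹ a h
  rw [inv_mul_cancel₀ h0, T.w1] at h2
  exact absurd h2 (not_le.2 ha)

theorem jright {a r : D} (h0 : a ≠ 0) (ha : 0 < T.w a) (hr0 : r ≠ 0) (hr : 0 ≤ T.w r) :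
    0 < T.w (a * r) := by
  by_contra hc
  rw [not_lt] at hc
  have h1 := T.wdiv (a * r) 1 (mul_ne_zero h0 hr0) (by rw [T.w1]; exact hc)
  rw [one_mul] at h1
  have h2 := T.wmul r ((a * r)⁻¹) hr
  have h3 : r * (a * r)⁻¹ = a⁻¹ := by
    rw [mul_inv_rev, ← mul_assoc, mul_inv_cancel₀ hr0, one_mul]
  rw [h3] at h2
  exact j1 T h0 ha (h1.trans h2)

theorem jleft {j l : D} (h0 : j ≠ 0) (hj : 0 < T.w j) (hl0 : l ≠ 0) :
    T.w l < T.w (j * l) := by
  by_contra hc
  rw [not_lt] at hc
  have h1 := T.wdiv (j * l) l (mul_ne_zero h0 hl0) hc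
  have h3 : l * (j * l)⁻¹ = j⁻¹ := by
    rw [mul_inv_rev, ← mul_assoc, mul_inv_cancel₀ hl0, one_mul]
  rw [h3] at h1
  exact j1 T h0 hj h1

theorem one_pos' : (0 : WithTop ℝ) < 1 := by exact_mod_cast (one_pos : (0:ℝ) < 1)

/-- The ring `A`. -/
def A : NonUnitalSubring D where
  carrier := {d | 1 < T.w d}
  zero_mem' := by
    change 1 < T.w 0
    rw [(T.w0 0).2 rfl]
    exact WithTop.coe_lt_top (1:ℝ)
  add_mem' := by
    intro a b ha hb
    exact lt_of_lt_of_le (lt_min ha hb) (T.wadd a b)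
  neg_mem' := by
    intro a ha
    change 1 < T.w (-a)
    rw [T.wneg]; exact ha
  mul_mem' := by
    intro a b ha hb
    exact lt_of_lt_of_le hb (T.wmul a b ((one_pos' T).trans ha).le)

theorem mem_A {d : D} : d ∈ A T ↔ 1 < T.w d := Iff.rfl

theorem smul_mem_A {r d : D} (hr : 0 ≤ T.w r) (hd : d ∈ A T) : r * d ∈ A T :=
  lt_of_lt_of_le hd (T.wmul r d hr)

theorem exists_ne : ∃ a : A T, a ≠ 0 := by
  obtain ⟨d, hd⟩ := T.wsurj 2
  refine ⟨⟨d, ?_⟩, ?_⟩
  · rw [mem_A, hd]; exact_mod_cast (by norm_num : (1:ℝ) < 2)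
  · intro h
    have h2 : d = 0 := congrArg Subtype.val h
    rw [(T.w0 d).2 h2] at hd
    exact WithTop.top_ne_coe hd

theorem simpleA : IsSimpleRing (A T) := by
  obtain ⟨a0, ha0⟩ := exists_ne T
  constructor
  haveI : Nontrivial (TwoSidedIdeal (A T)) := by
    refine ⟨⊥, ⊤, ?_⟩
    intro h
    have h1 : a0 ∈ (⊤ : TwoSidedIdeal (A T)) := trivial
    rw [← h] at h1
    exact ha0 ((TwoSidedIdeal.mem_bot _).1 h1)
  constructor
  intro I
  by_cases hI : I = ⊥
  · exact Or.inl hI
  right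
  have : ∃ c ∈ I, c ≠ 0 := by
    by_contra hcon
    push Not at hcon
    apply hI
    apply le_antisymm _ bot_le
    intro x hx
    rw [TwoSidedIdeal.mem_bot]
    exact hcon x hx
  obtain ⟨c, hcI, hc0⟩ := this
  apply le_antisymm le_top
  intro d _
  by_cases hd : d = 0
  · rw [hd]; exact I.zero_mem
  have hd' : (d : D) ≠ 0 := fun h => hd (Subtype.ext h)
  have hc' : (c : D) ≠ 0 := fun h => hc0 (Subtype.ext h)
  -- choose real c1 with 1 < c1 < w d
  have hwd : 1 < T.w d := d.2
  have hwc : 1 < T.w c := c.2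
  obtain ⟨c1, hc1, hc1'⟩ : ∃ c1 : ℝ, 1 < c1 ∧ (c1 : WithTop ℝ) ≤ T.w d := by
    cases hw : T.w (d : D) with
    | top => exact ⟨2, by norm_num, le_top⟩
    | coe r => 
      rw [hw] at hwd
      have hr : 1 < r := by exact_mod_cast hwd
      exact ⟨r, hr, le_rfl⟩
  have hcc : (c : D) * c ≠ 0 := mul_ne_zero hc' hc'
  obtain ⟨y, hy1, hy2⟩ := T.wx ((c : D) * c) hcc c1 hc1
  have hy0 : y ≠ 0 := by
    rintro rfl
    rw [mul_zero, (T.w0 0).2 rfl] at hy2
    exact absurd hy2 (not_lt.2 le_top)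
  have hccy : (c : D) * c * y ≠ 0 := mul_ne_zero hcc hy0
  have hr := T.wdiv _ (d : D) hccy (hy2.le.trans hc1')
  set r := (d : D) * ((c : D) * c * y)⁻¹ with hrdef
  have hrc : r * c ∈ A T := smul_mem_A T hr c.2
  have hdeq : d = (⟨r * c, hrc⟩ : A T) * c * ⟨y, hy1⟩ := by
    apply Subtype.ext
    change (d : D) = r * c * c * y
    rw [mul_assoc r, mul_assoc r, hrdef, mul_assoc, inv_mul_cancel₀ hccy, mul_one]
  rw [hdeq]
  exact I.mul_mem_right _ _ (I.mul_mem_left _ _ hcI)

theorem not_div : ¬ ∃ e : A T, (∀ x : A T, e * x = x ∧ x * e = x) ∧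
    ∀ x : A T, x ≠ 0 → ∃ y : A T, x * y = e ∧ y * x = e := by
  rintro ⟨e, he, _⟩
  obtain ⟨a0, ha0⟩ := exists_ne T
  have h1 := (he a0).1
  have h2 : (e : D) * a0 = a0 := congrArg Subtype.val h1
  have ha0' : (a0 : D) ≠ 0 := fun h => ha0 (Subtype.ext h)
  have h3 : (e : D) = 1 := by
    have := mul_right_cancel₀ ha0' (h2.trans (one_mul _).symm)
    exact this
  have h4 : 1 < T.w (e : D) := e.2
  rw [h3, T.w1] at h4
  exact absurd h4 (not_lt.2 (one_pos' T).le)

theorem idem (L : NonUnitalSubring (A T)) (hL : L ≠ ⊥)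
    (hleft : ∀ r x : A T, x ∈ L → r * x ∈ L)
    (hidem : AddSubgroup.closure {z : A T | ∃ a ∈ L, ∃ b ∈ L, z = a * b} = L.toAddSubgroup) :
    Nonempty (L ≃+* A T) := by
  -- (i) stability under O
  have hO : ∀ r : D, 0 ≤ T.w r → ∀ z : A T, z ∈ L → ∀ h : r * (z : D) ∈ A T, (⟨r * z, h⟩ : A T) ∈ L := by
    intro r hr z hz h
    have hz' : z ∈ AddSubgroup.closure {z : A T | ∃ a ∈ L, ∃ b ∈ L, z = a * b} := by
      rw [hidem]; exact hz
    have key : ∀ z ∈ AddSubgroup.closure {z : A T | ∃ a ∈ L, ∃ b ∈ L, z = a * b},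
        (⟨r * z, smul_mem_A T hr z.2⟩ : A T) ∈ L := by
      intro z hz
      induction hz using AddSubgroup.closure_induction with
      | mem x hx =>
        obtain ⟨a, ha, b, hb, rfl⟩ := hx
        have : (⟨r * ((a * b : A T) : D), smul_mem_A T hr (a * b : A T).2⟩ : A T)
            = (⟨r * a, smul_mem_A T hr a.2⟩ : A T) * b := by
          apply Subtype.ext
          change r * ((a : D) * b) = r * a * b
          rw [mul_assoc]
        rw [this]
        exact hleft _ _ hb
      | zero =>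
        have : (⟨r * ((0 : A T) : D), smul_mem_A T hr (0 : A T).2⟩ : A T) = 0 := by
          apply Subtype.ext
          change r * 0 = 0
          rw [mul_zero]
        rw [this]; exact L.zero_mem
      | add x y hx hy ihx ihy =>
        have : (⟨r * ((x + y : A T) : D), smul_mem_A T hr (x + y : A T).2⟩ : A T)
            = (⟨r * x, smul_mem_A T hr x.2⟩ : A T) + ⟨r * y, smul_mem_A T hr y.2⟩ := by
          apply Subtype.ext
          change r * ((x : D) + y) = r * x + r * y
          rw [mul_add]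
        rw [this]; exact L.add_mem ihx ihy
      | neg x hx ihx =>
        have : (⟨r * ((-x : A T) : D), smul_mem_A T hr (-x : A T).2⟩ : A T)
            = -(⟨r * x, smul_mem_A T hr x.2⟩ : A T) := by
          apply Subtype.ext
          change r * (-(x : D)) = -(r * x)
          rw [mul_neg]
        rw [this]; exact L.neg_mem ihx
    exact key z hz'
  -- (ii) chain
  have hchain : ∀ d d' : A T, d ∈ L → d ≠ 0 → T.w (d : D) ≤ T.w (d' : D) → d' ∈ L := by
    intro d d' hd hd0 hle
    have hd0' : (d : D) ≠ 0 := fun h => hd0 (Subtype.ext h)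
    have h1 := T.wdiv (d : D) (d' : D) hd0' hle
    have h2 : (d' : D) * (d : D)⁻¹ * d = d' := by
      rw [mul_assoc, inv_mul_cancel₀ hd0', mul_one]
    have h3 := hO _ h1 d hd (by rw [h2]; exact d'.2)
    have h4 : (⟨(d' : D) * (d : D)⁻¹ * d, by rw [h2]; exact d'.2⟩ : A T) = d' := Subtype.ext h2
    rw [h4] at h3
    exact h3
  obtain ⟨l1, hl1, hl10⟩ : ∃ l ∈ L, l ≠ 0 := by
    by_contra hcon
    push Not at hcon
    apply hL
    apply le_antisymm _ bot_le
    intro x hx
    rw [NonUnitalSubring.mem_bot]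
    exact hcon x hx
  -- the set of values
  let V : Set ℝ := {c | ∃ l ∈ L, l ≠ 0 ∧ T.w (l : D) = c}
  have hreal : ∀ l : A T, l ≠ 0 → ∃ c : ℝ, T.w (l : D) = c := by
    intro l hl
    cases hw : T.w (l : D) with
    | top => exact absurd (Subtype.ext ((T.w0 _).1 hw)) hl
    | coe r => exact ⟨r, rfl⟩
  have hVne : V.Nonempty := by
    obtain ⟨c, hc⟩ := hreal l1 hl10
    exact ⟨c, l1, hl1, hl10, hc⟩
  have hVlb : ∀ c ∈ V, 1 < c := by
    rintro c ⟨l, hl, hl0, hc⟩
    have : 1 < T.w (l : D) := l.2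
    rw [hc] at this
    exact_mod_cast this
  have hVbdd : BddBelow V := ⟨1, fun c hc => (hVlb c hc).le⟩
  set s := sInf V with hs
  have hs1 : 1 ≤ s := le_csInf hVne (fun c hc => (hVlb c hc).le)
  -- s is not attained
  have hnot : s ∉ V := by
    rintro ⟨l0, hl0, hl00, hw0⟩
    have hl00' : (l0 : D) ≠ 0 := fun h => hl00 (Subtype.ext h)
    have hall : ∀ z ∈ AddSubgroup.closure {z : A T | ∃ a ∈ L, ∃ b ∈ L, z = a * b},
        (s : WithTop ℝ) < T.w (z : D) := by
      intro z hz
      induction hz using AddSubgroup.closure_induction with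
      | mem x hx =>
        obtain ⟨a, ha, b, hb, rfl⟩ := hx
        change (s : WithTop ℝ) < T.w ((a : D) * b)
        by_cases ha0 : a = 0
        · rw [ha0]; change _ < T.w ((0 : D) * b)
          rw [zero_mul, (T.w0 0).2 rfl]; exact WithTop.coe_lt_top s
        by_cases hb0 : b = 0
        · rw [hb0]; change _ < T.w ((a : D) * 0)
          rw [mul_zero, (T.w0 0).2 rfl]; exact WithTop.coe_lt_top s
        have ha0' : (a : D) ≠ 0 := fun h => ha0 (Subtype.ext h)
        have hb0' : (b : D) ≠ 0 := fun h => hb0 (Subtype.ext h)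
        have hle : T.w (l0 : D) ≤ T.w (b : D) := by
          obtain ⟨c, hc⟩ := hreal b hb0
          rw [hw0, hc]
          exact_mod_cast csInf_le hVbdd ⟨b, hb, hb0, hc⟩
        have hr := T.wdiv (l0 : D) b hl00' hle
        have hb' : (b : D) = (b : D) * (l0 : D)⁻¹ * l0 := by
          rw [mul_assoc, inv_mul_cancel₀ hl00', mul_one]
        have hr0 : (b : D) * (l0 : D)⁻¹ ≠ 0 := mul_ne_zero hb0' (inv_ne_zero hl00')
        have ha1 : 0 < T.w (a : D) := (one_pos' T).trans a.2
        have hj := jright T ha0' ha1 hr0 hr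
        have hj0 : (a : D) * ((b : D) * (l0 : D)⁻¹) ≠ 0 := mul_ne_zero ha0' hr0
        have := jleft T hj0 hj hl00'
        rw [hw0] at this
        rw [hb', ← mul_assoc]
        exact this
      | zero =>
        change _ < T.w (0 : D)
        rw [(T.w0 0).2 rfl]; exact WithTop.coe_lt_top s
      | add x y hx hy ihx ihy =>
        exact lt_of_lt_of_le (lt_min ihx ihy) (T.wadd x y)
      | neg x hx ihx =>
        change _ < T.w (-(x : D))
        rw [T.wneg]; exact ihx
    have h1 := hall l0 (by rw [hidem]; exact hl0)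
    rw [hw0] at h1
    exact lt_irrefl _ h1
  -- description of L
  have hdesc : ∀ d : A T, d ∈ L ↔ (s : WithTop ℝ) < T.w (d : D) := by
    intro d
    by_cases hd0 : d = 0
    · rw [hd0]
      constructor
      · intro _
        change _ < T.w (0 : D)
        rw [(T.w0 0).2 rfl]; exact WithTop.coe_lt_top s
      · intro _; exact L.zero_mem
    obtain ⟨c, hc⟩ := hreal d hd0
    rw [hc]
    constructor
    · intro hd
      have hcV : c ∈ V := ⟨d, hd, hd0, hc⟩
      have h1 : s ≤ c := csInf_le hVbdd hcV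
      have h2 : s ≠ c := fun h => hnot (h ▸ hcV)
      exact_mod_cast lt_of_le_of_ne h1 h2
    · intro hlt
      have hlt' : s < c := by exact_mod_cast hlt
      obtain ⟨c', ⟨l, hl, hl0, hc'⟩, hc'c⟩ := exists_lt_of_csInf_lt hVne hlt'
      refine hchain l d hl hl0 ?_
      rw [hc', hc]
      exact_mod_cast hc'c.le
  -- the isomorphism
  obtain ⟨φ, hφ⟩ := T.phi s (lt_of_lt_of_le one_pos hs1)
  have hφ1 : ∀ d : D, 1 < T.w d ↔ (s : WithTop ℝ) < T.w (φ d) := by
    intro d
    have := hφ d 1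
    rw [mul_one] at this
    exact this
  have hs1' : (1 : WithTop ℝ) ≤ s := by exact_mod_cast hs1
  have hmemA : ∀ d : D, 1 < T.w d → φ d ∈ A T := fun d hd =>
    lt_of_le_of_lt hs1' ((hφ1 d).1 hd)
  let f : A T → L := fun d => ⟨⟨φ d, hmemA d d.2⟩, (hdesc _).2 ((hφ1 d).1 d.2)⟩
  have hf_add : ∀ x y, f (x + y) = f x + f y := by
    intro x y
    apply Subtype.ext; apply Subtype.ext
    exact map_add φ (x : D) y
  have hf_mul : ∀ x y, f (x * y) = f x * f y := by
    intro x y
    apply Subtype.ext; apply Subtype.ext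
    exact map_mul φ (x : D) y
  have hf_inj : Function.Injective f := by
    intro x y hxy
    apply Subtype.ext
    have h1 : φ (x : D) = φ y := congrArg (fun t : L => ((t : A T) : D)) hxy
    exact φ.injective h1
  have hf_surj : Function.Surjective f := by
    intro y
    have hy : (s : WithTop ℝ) < T.w ((y : A T) : D) := (hdesc y).1 y.2
    have h1 : 1 < T.w (φ.symm ((y : A T) : D)) := by
      rw [hφ1, RingEquiv.apply_symm_apply]; exact hy
    refine ⟨⟨φ.symm ((y : A T) : D), h1⟩, ?_⟩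
    apply Subtype.ext; apply Subtype.ext
    exact φ.apply_symm_apply _
  exact ⟨(RingEquiv.symm { toFun := f
                           invFun := (Equiv.ofBijective f ⟨hf_inj, hf_surj⟩).symm
                           left_inv := (Equiv.ofBijective f ⟨hf_inj, hf_surj⟩).left_inv
                           right_inv := (Equiv.ofBijective f ⟨hf_inj, hf_surj⟩).right_inv
                           map_mul' := hf_mul
                           map_add' := hf_add })⟩

theorem main :
    ∃ (R : Type) (inst : NonUnitalRing R),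
      IsSimpleRing R ∧ NoZeroDivisors R ∧
      (¬ ∃ e : R, (∀ x : R, e * x = x ∧ x * e = x) ∧
          ∀ x : R, x ≠ 0 → ∃ y : R, x * y = e ∧ y * x = e) ∧
      ∀ L : NonUnitalSubring R, L ≠ ⊥ →
        (∀ r x : R, x ∈ L → r * x ∈ L) →
        AddSubgroup.closure {z : R | ∃ a ∈ L, ∃ b ∈ L, z = a * b} = L.toAddSubgroup →
        Nonempty (L ≃+* R) := by
  refine ⟨A T, inferInstance, simpleA T, ?_, not_div T, idem T⟩
  constructor
  intro a b hab
  have h : (a : D) * b = 0 := congrArg Subtype.val hab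
  rcases mul_eq_zero.1 h with h | h
  · exact Or.inl (Subtype.ext h)
  · exact Or.inr (Subtype.ext h)

end Pool.Agent.S02191.SDabs

namespace Pool.Agent.S02191.SDpoly

open SkewPolynomial Multiplicative

variable {F : Type} [Field F] [MulSemiringAction (Multiplicative ℕ) F]

theorem coeff_mul' (f g : SkewPolynomial F) (n : ℕ) :
    (f * g).coeff n = ∑ p ∈ Finset.HasAntidiagonal.antidiagonal n,
      f.coeff p.1 * (ofAdd p.1 • g.coeff p.2) := by
  have := SkewMonoidAlgebra.coeff_mul_antidiagonal_of_finset f g (ofAdd n)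
    (Finset.HasAntidiagonal.antidiagonal n : Finset (ℕ × ℕ)) (by
      intro p
      exact Finset.HasAntidiagonal.mem_antidiagonal)
  exact this

/-- Valuation data on the field. -/
structure FD (F : Type) [Field F] [MulSemiringAction (Multiplicative ℕ) F] where
  v : AddValuation F (WithTop ℝ)
  vsurj : ∀ c : ℝ, ∃ a, v a = c
  vact : ∀ (n : ℕ) (a : F), v (ofAdd n • a) = (v a).map (fun x => 2 ^ n * x)
  actsurj : ∀ (n : ℕ) (a : F), ∃ b : F, ofAdd n • b = a
  phi : ∀ s : ℝ, 0 < s → ∃ φ : F ≃+* F, (∀ (n : ℕ) (a : F), φ (ofAdd n • a) = ofAdd n • φ a) ∧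
    ∀ a, v (φ a) = (v a).map (fun x => s * x)

variable (T : FD F)

theorem map_le {s : ℝ} (hs : 0 < s) (x y : WithTop ℝ) :
    x.map (fun x => s * x) ≤ y.map (fun x => s * x) ↔ x ≤ y := by
  cases x with
  | top =>
    cases y with
    | top => simp
    | coe r =>
      simp only [WithTop.map_top, WithTop.map_coe, top_le_iff]
      exact ⟨fun h => absurd h WithTop.coe_ne_top, fun h => absurd h WithTop.coe_ne_top⟩
  | coe q =>
    cases y with
    | top => simp
    | coe r =>
      simp only [WithTop.map_coe]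
      constructor
      · intro h
        have : s * q ≤ s * r := by exact_mod_cast h
        exact_mod_cast le_of_mul_le_mul_left this hs
      · intro h
        have : q ≤ r := by exact_mod_cast h
        exact_mod_cast mul_le_mul_of_nonneg_left this hs.le

theorem map_zero' (s : ℝ) : (0 : WithTop ℝ).map (fun x => s * x) = 0 := by
  have : (0 : WithTop ℝ) = ((0 : ℝ) : WithTop ℝ) := rfl
  rw [this, WithTop.map_coe, mul_zero]

include T

theorem act_le (n : ℕ) (a b : F) : T.v (ofAdd n • a) ≤ T.v (ofAdd n • b) ↔ T.v a ≤ T.v b := by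
  rw [T.vact, T.vact]
  exact map_le (by positivity) _ _

theorem act_nonneg (n : ℕ) (a : F) : 0 ≤ T.v (ofAdd n • a) ↔ 0 ≤ T.v a := by
  rw [T.vact]
  have := map_le (s := 2 ^ n) (by positivity) 0 (T.v a)
  rw [map_zero'] at this
  exact this

theorem act_pos (n : ℕ) (a : F) : 0 < T.v (ofAdd n • a) ↔ 0 < T.v a := by
  rw [T.vact]
  have := map_le (s := 2 ^ n) (by positivity) (T.v a) 0
  rw [map_zero'] at this
  exact not_iff_not.1 (by rw [not_lt, not_lt]; exact this)

theorem act_zero (n : ℕ) (a : F) : T.v (ofAdd n • a) = 0 ↔ T.v a = 0 := by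
  have h1 := act_nonneg T n a
  have h2 := act_pos T n a
  constructor
  · intro h
    apply le_antisymm _ (h1.1 h.ge)
    by_contra hc
    rw [not_le] at hc
    exact absurd h (h2.2 hc).ne'
  · intro h
    apply le_antisymm _ (h1.2 h.ge)
    by_contra hc
    rw [not_le] at hc
    exact absurd h (h2.1 hc).ne'

/-- all coefficients are in the valuation ring -/
def In0 (f : SkewPolynomial F) : Prop := ∀ i, 0 ≤ T.v (f.coeff i)

/-- content zero -/
def SS (f : SkewPolynomial F) : Prop := In0 T f ∧ ∃ i, T.v (f.coeff i) = 0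

theorem In0.mul {f g : SkewPolynomial F} (hf : In0 T f) (hg : In0 T g) : In0 T (f * g) := by
  intro n
  rw [coeff_mul']
  apply T.v.map_le_sum
  intro p _
  rw [T.v.map_mul]
  exact add_nonneg (hf _) ((act_nonneg T _ _).2 (hg _))

theorem In0.add {f g : SkewPolynomial F} (hf : In0 T f) (hg : In0 T g) : In0 T (f + g) := by
  intro n
  rw [coeff_add]
  exact le_trans (le_min (hf n) (hg n)) (T.v.map_add _ _)

theorem SS.mul {f g : SkewPolynomial F} (hf : SS T f) (hg : SS T g) : SS T (f * g) := by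
  classical
  refine ⟨hf.1.mul T hg.1, ?_⟩
  let i := Nat.find hf.2
  let j := Nat.find hg.2
  have hi : T.v (f.coeff i) = 0 := Nat.find_spec hf.2
  have hj : T.v (g.coeff j) = 0 := Nat.find_spec hg.2
  have hi' : ∀ k < i, 0 < T.v (f.coeff k) := fun k hk =>
    lt_of_le_of_ne (hf.1 k) (fun h => Nat.find_min hf.2 hk h.symm)
  have hj' : ∀ k < j, 0 < T.v (g.coeff k) := fun k hk =>
    lt_of_le_of_ne (hg.1 k) (fun h => Nat.find_min hg.2 hk h.symm)
  refine ⟨i + j, ?_⟩
  rw [coeff_mul']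
  have hmem : (i, j) ∈ Finset.HasAntidiagonal.antidiagonal (i + j) :=
    Finset.HasAntidiagonal.mem_antidiagonal.2 rfl
  rw [← Finset.add_sum_erase _ _ hmem]
  have h1 : T.v (f.coeff i * (ofAdd i • g.coeff j)) = 0 := by
    rw [T.v.map_mul, hi, (act_zero T _ _).2 hj, add_zero]
  have h2 : 0 < T.v (∑ p ∈ (Finset.HasAntidiagonal.antidiagonal (i + j)).erase (i, j),
      f.coeff p.1 * (ofAdd p.1 • g.coeff p.2)) := by
    apply T.v.map_lt_sum WithTop.zero_ne_top
    intro p hp
    rw [Finset.mem_erase, Finset.HasAntidiagonal.mem_antidiagonal] at hp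
    obtain ⟨hne, hsum⟩ := hp
    rw [T.v.map_mul]
    rcases lt_trichotomy p.1 i with h | h | h
    · exact lt_of_lt_of_le (hi' _ h) (le_add_of_nonneg_right ((act_nonneg T _ _).2 (hg.1 _)))
    · exfalso
      apply hne
      ext
      · exact h
      · change p.2 = j
        omega
    · have : p.2 < j := by omega
      exact lt_of_lt_of_le ((act_pos T _ _).2 (hj' _ this)) (le_add_of_nonneg_left (hf.1 _))
  rw [T.v.map_add_eq_of_lt_left (by rw [h1]; exact h2)]
  exact h1

theorem SS.one : SS T (1 : SkewPolynomial F) := by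
  refine ⟨fun i => ?_, 0, by simp⟩
  rw [coeff_one]
  split_ifs
  · simp
  · simp

theorem SS.ne_zero {f : SkewPolynomial F} (hf : SS T f) : f ≠ 0 := by
  rintro rfl
  obtain ⟨i, hi⟩ := hf.2
  rw [coeff_zero, T.v.map_zero] at hi
  exact WithTop.top_ne_zero hi

theorem SS.X : SS T (X : SkewPolynomial F) := by
  refine ⟨fun i => ?_, 1, by simp⟩
  rw [coeff_X]
  split_ifs
  · simp
  · simp

theorem coeff_C_mul' (a : F) (f : SkewPolynomial F) (i : ℕ) : (C a * f).coeff i = a * f.coeff i := by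
  rw [coeff_mul']
  have hmem : (0, i) ∈ Finset.HasAntidiagonal.antidiagonal i :=
    Finset.HasAntidiagonal.mem_antidiagonal.2 (zero_add i)
  rw [Finset.sum_eq_single_of_mem _ hmem]
  · rw [coeff_C_zero]
    have : ofAdd 0 = (1 : Multiplicative ℕ) := rfl
    rw [this, one_smul]
  · intro p hp hne
    rw [Finset.HasAntidiagonal.mem_antidiagonal] at hp
    have : p.1 ≠ 0 := by
      intro h
      apply hne
      ext
      · exact h
      · change p.2 = i
        omega
    rw [coeff_C_ne_zero this, zero_mul]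

theorem coeff_mul_C' (a : F) (f : SkewPolynomial F) (i : ℕ) :
    (f * C a).coeff i = f.coeff i * (ofAdd i • a) := by
  rw [coeff_mul']
  have hmem : (i, 0) ∈ Finset.HasAntidiagonal.antidiagonal i :=
    Finset.HasAntidiagonal.mem_antidiagonal.2 (add_zero i)
  rw [Finset.sum_eq_single_of_mem _ hmem]
  · rw [coeff_C_zero]
  · intro p hp hne
    rw [Finset.HasAntidiagonal.mem_antidiagonal] at hp
    have : p.2 ≠ 0 := by
      intro h
      apply hne
      ext
      · change p.1 = i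
        omega
      · exact h
    rw [coeff_C_ne_zero this, smul_zero, mul_zero]

/-- left content -/
theorem left_content {f : SkewPolynomial F} (hf : f ≠ 0) : ∃ α : F, α ≠ 0 ∧ SS T (C α * f) := by
  classical
  have hne : f.support.Nonempty := by
    rw [Finset.nonempty_iff_ne_empty]
    intro h
    exact hf (support_eq_empty.1 h)
  obtain ⟨i, hi, hmin⟩ := Finset.exists_min_image f.support (fun i => T.v (f.coeff i)) hne
  have hi0 : f.coeff i ≠ 0 := mem_support_iff.1 hi
  refine ⟨(f.coeff i)⁻¹, inv_ne_zero hi0, ?_, i, ?_⟩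
  · intro j
    rw [coeff_C_mul' T]
    by_cases hj : f.coeff j = 0
    · rw [hj, mul_zero, T.v.map_zero]; exact le_top
    have h1 := hmin j (mem_support_iff.2 hj)
    have h2 : T.v 1 ≤ T.v ((f.coeff i)⁻¹ * f.coeff j) := by
      rw [← inv_mul_cancel₀ hi0, T.v.map_mul, T.v.map_mul]
      gcongr
    rwa [T.v.map_one] at h2
  · rw [coeff_C_mul' T, inv_mul_cancel₀ hi0, T.v.map_one]

/-- right content -/
theorem right_content (f : SkewPolynomial F) : ∃ f' : SkewPolynomial F, ∃ γ : F,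
    SS T f' ∧ f = f' * C γ := by
  classical
  by_cases hf : f = 0
  · refine ⟨1, 0, SS.one T, ?_⟩
    rw [hf, C_0, mul_zero]
  have hne : f.support.Nonempty := by
    rw [Finset.nonempty_iff_ne_empty]
    intro h
    exact hf (support_eq_empty.1 h)
  choose b hb using fun i => T.actsurj i (f.coeff i)
  obtain ⟨i, hi, hmin⟩ := Finset.exists_min_image f.support (fun i => T.v (b i)) hne
  have hi0 : f.coeff i ≠ 0 := mem_support_iff.1 hi
  have hbi : b i ≠ 0 := by
    intro h
    have := hb i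
    rw [h, smul_zero] at this
    exact hi0 this.symm
  refine ⟨f * C (b i)⁻¹, b i, ⟨?_, i, ?_⟩, ?_⟩
  · intro j
    rw [coeff_mul_C' T, ← hb j, ← smul_mul', act_nonneg T]
    by_cases hj : f.coeff j = 0
    · have : b j = 0 := by
        have h1 := hb j
        rw [hj] at h1
        have h2 := act_le T j 0 (b j)
        rw [h1, smul_zero] at h2
        have h3 := h2.1 le_rfl
        rw [T.v.map_zero, top_le_iff, T.v.top_iff] at h3
        exact h3
      rw [this, zero_mul, T.v.map_zero]; exact le_top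
    have h1 := hmin j (mem_support_iff.2 hj)
    have h2 : T.v 1 ≤ T.v (b j * (b i)⁻¹) := by
      rw [← mul_inv_cancel₀ hbi, T.v.map_mul, T.v.map_mul]
      gcongr
    rwa [T.v.map_one] at h2
  · rw [coeff_mul_C' T, ← hb i, ← smul_mul', mul_inv_cancel₀ hbi, smul_one, T.v.map_one]
  · rw [mul_assoc, ← C_mul, inv_mul_cancel₀ hbi, C_1, mul_one]

theorem mul_C_inj {h : SkewPolynomial F} {γ : F} (hγ : γ ≠ 0) (h0 : h * C γ = 0) : h = 0 := by
  have : h * C γ * C γ⁻¹ = h := by
    rw [mul_assoc, ← C_mul, mul_inv_cancel₀ hγ, C_1, mul_one]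
  rw [← this, h0, zero_mul]

/-- comparison of right contents -/
theorem right_content_le {h h1 : SkewPolynomial F} {γ γ1 : F} (hh : SS T h) (hh1 : In0 T h1)
    (e : h * C γ = h1 * C γ1) : T.v γ1 ≤ T.v γ := by
  obtain ⟨i, hi⟩ := hh.2
  have h2 := congrArg (fun f => T.v (f.coeff i)) e
  simp only [coeff_mul_C' T, T.v.map_mul, hi, zero_add] at h2
  have h3 : T.v (ofAdd i • γ1) ≤ T.v (ofAdd i • γ) := by
    rw [h2]
    exact le_add_of_nonneg_left (hh1 i)
  exact (act_le T i γ1 γ).1 h3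

theorem In0_of_right {h : SkewPolynomial F} {γ : F} (hh : In0 T h) (hγ : 0 ≤ T.v γ) :
    In0 T (h * C γ) := by
  intro i
  rw [coeff_mul_C' T, T.v.map_mul]
  exact add_nonneg (hh i) ((act_nonneg T _ _).2 hγ)

theorem In0_C_mul {h : SkewPolynomial F} {γ : F} (hh : In0 T h) (hγ : 0 ≤ T.v γ) :
    In0 T (C γ * h) := by
  intro i
  rw [coeff_C_mul' T, T.v.map_mul]
  exact add_nonneg hγ (hh i)

theorem In0_iff_right {h : SkewPolynomial F} {γ : F} (hh : SS T h) :
    In0 T (h * C γ) ↔ 0 ≤ T.v γ := by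
  constructor
  · intro h1
    have := right_content_le T hh h1 (γ := γ) (γ1 := 1) (by rw [C_1, mul_one])
    rwa [T.v.map_one] at this
  · exact In0_of_right T hh.1

theorem In0_C_iff {h : SkewPolynomial F} {γ : F} (hh : SS T h) :
    In0 T (C γ * h) ↔ 0 ≤ T.v γ := by
  constructor
  · intro h1
    obtain ⟨i, hi⟩ := hh.2
    have := h1 i
    rw [coeff_C_mul' T, T.v.map_mul, hi, add_zero] at this
    exact this
  · exact In0_C_mul T hh.1

theorem noZeroDiv : NoZeroDivisors (SkewPolynomial F) := by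
  constructor
  intro a b hab
  by_contra hcon
  push Not at hcon
  obtain ⟨ha, hb⟩ := hcon
  obtain ⟨α, hα, hSa⟩ := left_content T ha
  obtain ⟨b', γ, hSb, hb'⟩ := right_content T b
  have hγ : γ ≠ 0 := by
    rintro rfl
    rw [C_0, mul_zero] at hb'
    exact hb hb'
  have h1 : (C α * a) * b' ≠ 0 := (hSa.mul T hSb).ne_zero T
  apply h1
  apply mul_C_inj T hγ
  rw [mul_assoc, mul_assoc, ← hb', hab, mul_zero]


omit T in
theorem coeff_monomial_mul' (i : ℕ) (c : F) (f : SkewPolynomial F) (k : ℕ) :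
    (monomial i c * f).coeff k = if i ≤ k then c * (ofAdd i • f.coeff (k - i)) else 0 := by
  rw [coeff_mul']
  split_ifs with h
  · have hmem : (i, k - i) ∈ Finset.HasAntidiagonal.antidiagonal k :=
      Finset.HasAntidiagonal.mem_antidiagonal.2 (by change i + (k - i) = k; omega)
    rw [Finset.sum_eq_single_of_mem _ hmem]
    · rw [coeff_monomial, if_pos rfl]
    · intro p hp hne
      rw [Finset.HasAntidiagonal.mem_antidiagonal] at hp
      have : i ≠ p.1 := by
        intro h
        apply hne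
        ext
        · exact h.symm
        · change p.2 = k - i
          omega
      rw [coeff_monomial, if_neg this, zero_mul]
  · apply Finset.sum_eq_zero
    intro p hp
    rw [Finset.HasAntidiagonal.mem_antidiagonal] at hp
    have : i ≠ p.1 := by omega
    rw [coeff_monomial, if_neg this, zero_mul]

omit T [MulSemiringAction (Multiplicative ℕ) F] in
theorem coeff_sum' {ι : Type} (t : Finset ι) (g : ι → SkewPolynomial F) (k : ℕ) :
    (∑ i ∈ t, g i).coeff k = ∑ i ∈ t, (g i).coeff k := by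
  classical
  induction t using Finset.induction_on with
  | empty => simp
  | insert a t ha ih => rw [Finset.sum_insert ha, Finset.sum_insert ha, coeff_add, ih]

/-- Left Ore condition. -/
theorem ore (r s : SkewPolynomial F) (hs : s ≠ 0) : ∃ p q : SkewPolynomial F, p ≠ 0 ∧
    p * r = q * s := by
  classical
  haveI := noZeroDiv T
  obtain ⟨N, hN⟩ : ∃ N : ℕ, ∀ i, N < i → r.coeff i = 0 ∧ s.coeff i = 0 := by
    refine ⟨(r.support ∪ s.support).sup id, ?_⟩
    intro i hi
    constructor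
    · by_contra h
      have h1 : i ∈ r.support ∪ s.support := Finset.mem_union_left _ (mem_support_iff.2 h)
      have h2 := Finset.le_sup (f := id) h1
      simp only [id] at h2
      omega
    · by_contra h
      have h1 : i ∈ r.support ∪ s.support := Finset.mem_union_right _ (mem_support_iff.2 h)
      have h2 := Finset.le_sup (f := id) h1
      simp only [id] at h2
      omega
  let poly : (Fin (N + 1) → F) → SkewPolynomial F := fun a => ∑ i : Fin (N + 1), monomial (i : ℕ) (a i)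
  have hpoly : ∀ a (f : SkewPolynomial F) k, (poly a * f).coeff k =
      ∑ i : Fin (N + 1), if (i : ℕ) ≤ k then a i * (ofAdd (i : ℕ) • f.coeff (k - i)) else 0 := by
    intro a f k
    simp only [poly]
    rw [Finset.sum_mul, coeff_sum']
    apply Finset.sum_congr rfl
    intro i _
    rw [coeff_monomial_mul']
  let Φ : ((Fin (N + 1) → F) × (Fin (N + 1) → F)) →ₗ[F] (Fin (2 * N + 1) → F) :=
    { toFun := fun ab k => (poly ab.1 * r).coeff k - (poly ab.2 * s).coeff k
      map_add' := by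
        intro x y
        ext k
        simp only [hpoly, Pi.add_apply, Prod.fst_add, Prod.snd_add]
        rw [← Finset.sum_sub_distrib, ← Finset.sum_sub_distrib, ← Finset.sum_sub_distrib,
          ← Finset.sum_add_distrib]
        apply Finset.sum_congr rfl
        intro i _
        split_ifs <;> ring
      map_smul' := by
        intro c x
        ext k
        simp only [hpoly, Pi.smul_apply, Prod.smul_fst, Prod.smul_snd, smul_eq_mul,
          RingHom.id_apply]
        rw [← Finset.sum_sub_distrib, ← Finset.sum_sub_distrib, Finset.mul_sum]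
        apply Finset.sum_congr rfl
        intro i _
        split_ifs <;> ring }
  have hker : LinearMap.ker Φ ≠ ⊥ := by
    apply LinearMap.ker_ne_bot_of_finrank_lt
    rw [Module.finrank_prod, Module.finrank_fin_fun, Module.finrank_fin_fun]
    omega
  obtain ⟨ab, hab, hab0⟩ := (Submodule.ne_bot_iff _).1 hker
  have heq : ∀ k, (poly ab.1 * r).coeff k = (poly ab.2 * s).coeff k := by
    intro k
    by_cases hk : k < 2 * N + 1
    · have := congrFun (LinearMap.mem_ker.1 hab) ⟨k, hk⟩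
      exact sub_eq_zero.1 this
    · rw [hpoly, hpoly]
      apply Finset.sum_congr rfl
      intro i _
      have hi := i.2
      rw [(hN (k - i) (by omega)).1, (hN (k - i) (by omega)).2, smul_zero, mul_zero, mul_zero]
  refine ⟨poly ab.1, poly ab.2, ?_, SkewPolynomial.ext heq⟩
  intro hp
  have hq : poly ab.2 = 0 := by
    have h1 : poly ab.2 * s = 0 := by
      rw [← SkewPolynomial.ext heq, hp, zero_mul]
    exact (mul_eq_zero.1 h1).resolve_right hs
  have hco : ∀ (a : Fin (N + 1) → F) (i : Fin (N + 1)), (poly a).coeff i = a i := by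
    intro a i
    simp only [poly]
    rw [coeff_sum', Finset.sum_eq_single i]
    · rw [coeff_monomial, if_pos rfl]
    · intro j _ hj
      rw [coeff_monomial, if_neg]
      intro h
      exact hj (Fin.ext h)
    · intro h; exact absurd (Finset.mem_univ i) h
  apply hab0
  apply Prod.ext
  · ext i
    rw [← hco ab.1 i, hp]; simp
  · ext i
    rw [← hco ab.2 i, hq]; simp

/-- Normalised Ore condition, first form: for `r` integral and `s` of content zero. -/
theorem ore' (r s : SkewPolynomial F) (hr : In0 T r) (hs : SS T s) :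
    ∃ p q : SkewPolynomial F, SS T p ∧ In0 T q ∧ p * r = q * s := by
  obtain ⟨p, q, hp, hpq⟩ := ore T r s (hs.ne_zero T)
  obtain ⟨α, hα, hS⟩ := left_content T hp
  refine ⟨C α * p, C α * q, hS, ?_, by rw [mul_assoc, hpq, mul_assoc]⟩
  have h1 : In0 T (C α * q * s) := by
    rw [mul_assoc, ← hpq, ← mul_assoc]
    exact hS.1.mul T hr
  by_cases hq : C α * q = 0
  · rw [hq]
    intro i
    rw [coeff_zero, T.v.map_zero]; exact le_top
  obtain ⟨β, hβ, hS'⟩ := left_content T hq
  have h2 : C α * q = C β⁻¹ * (C β * (C α * q)) := by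
    rw [← mul_assoc, ← C_mul, inv_mul_cancel₀ hβ, C_1, one_mul]
  rw [h2] at h1 ⊢
  rw [mul_assoc] at h1
  exact In0_C_mul T hS'.1 ((In0_C_iff T (hS'.mul T hs)).1 h1)

/-- Normalised Ore condition, second form. -/
theorem ore'' (r s : SkewPolynomial F) (hr : SS T r) (hs : SS T s) :
    ∃ p q : SkewPolynomial F, SS T p ∧ SS T q ∧ p * r = q * s := by
  obtain ⟨p, q, hp, hq, hpq⟩ := ore' T r s hr.1 hs
  refine ⟨p, q, hp, ?_, hpq⟩
  have h1 : SS T (q * s) := hpq ▸ hp.mul T hr
  have hq0 : q ≠ 0 := by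
    rintro rfl
    rw [zero_mul] at h1
    exact h1.ne_zero T rfl
  obtain ⟨β, hβ, hS'⟩ := left_content T hq0
  have h2 : q = C β⁻¹ * (C β * q) := by
    rw [← mul_assoc, ← C_mul, inv_mul_cancel₀ hβ, C_1, one_mul]
  have h3 : T.v β⁻¹ = 0 := by
    rw [h2, mul_assoc] at h1
    obtain ⟨i, hi⟩ := h1.2
    rw [coeff_C_mul' T, T.v.map_mul] at hi
    have h4 := (In0_C_iff T (hS'.mul T hs)).1 h1.1
    have h5 := (hS'.mul T hs).1 i
    apply le_antisymm _ h4
    rw [← hi]
    exact le_add_of_nonneg_right h5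
  rw [h2]
  refine ⟨In0_C_mul T hS'.1 h3.ge, ?_⟩
  obtain ⟨i, hi⟩ := hS'.2
  refine ⟨i, ?_⟩
  rw [coeff_C_mul' T, T.v.map_mul, h3, hi, add_zero]

end Pool.Agent.S02191.SDpoly

namespace Pool.Agent.S02191.SDore

open nonZeroDivisors

/-- A division ring of left fractions. -/
structure OreD (P D : Type) [Ring P] [DivisionRing D] where
  ι : P →+* D
  inj : Function.Injective ι
  frac : ∀ d : D, ∃ s f : P, s ≠ 0 ∧ ι s * d = ι f
  ext : ∀ Φ : P ≃+* P, ∃ φ : D ≃+* D, ∀ f, φ (ι f) = ι (Φ f)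

theorem exists_oreD (P : Type) [Ring P] [Nontrivial P] [NoZeroDivisors P]
    (h : ∀ r s : P, s ≠ 0 → ∃ p q : P, p ≠ 0 ∧ p * r = q * s) :
    ∃ (D : Type) (_ : DivisionRing D), Nonempty (OreD P D) := by
  classical
  have h' : ∀ (r : P) (s : P⁰), ∃ (p : P⁰) (q : P), (p : P) * r = q * s := by
    intro r s
    obtain ⟨p, q, hp, hpq⟩ := h r s (nonZeroDivisors.ne_zero s.2)
    exact ⟨⟨p, mem_nonZeroDivisors_of_ne_zero hp⟩, q, hpq⟩
  choose p q hpq using h'
  letI : OreLocalization.OreSet P⁰ := OreLocalization.oreSetOfNoZeroDivisors q p hpq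
  let ι : P →+* OreLocalization P⁰ P := OreLocalization.numeratorRingHom
  have hinj : Function.Injective ι := by
    apply OreLocalization.numeratorHom_inj
    exact fun x hx => (mem_nonZeroDivisors_iff.1 hx).1
  have hfrac : ∀ d : OreLocalization P⁰ P, ∃ s f : P, s ≠ 0 ∧ ι s * d = ι f := by
    intro d
    induction d using OreLocalization.ind with
    | _ r s =>
      exact ⟨s, r, nonZeroDivisors.ne_zero s.2, OreLocalization.mul_cancel⟩
  refine ⟨OreLocalization P⁰ P, inferInstance, ⟨⟨ι, hinj, hfrac, ?_⟩⟩⟩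
  intro Φ
  have hne : ∀ s : P, s ≠ 0 → ι s ≠ 0 := by
    intro s hs h0
    exact hs (hinj (h0.trans (map_zero ι).symm))
  have hne' : ∀ s : P⁰, ι (Φ s) ≠ 0 := by
    intro s
    apply hne
    intro h0
    exact nonZeroDivisors.ne_zero s.2 (Φ.injective (h0.trans (map_zero Φ).symm))
  let fS : P⁰ →* (OreLocalization P⁰ P)ˣ :=
    { toFun := fun s => Units.mk0 (ι (Φ s)) (hne' s)
      map_one' := by ext; simp
      map_mul' := by intro x y; ext; simp }
  let φ : OreLocalization P⁰ P →+* OreLocalization P⁰ P :=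
    OreLocalization.universalHom (ι.comp (Φ : P →+* P)) fS (by intro s; rfl)
  have hφ : ∀ f, φ (ι f) = ι (Φ f) := by
    intro f
    exact OreLocalization.universalHom_commutes _ _ _
  have hbij : Function.Bijective φ := by
    refine ⟨φ.injective, ?_⟩
    intro d
    obtain ⟨s, f, hs, hsf⟩ := hfrac d
    refine ⟨(ι (Φ.symm s))⁻¹ * ι (Φ.symm f), ?_⟩
    rw [map_mul, map_inv₀, hφ, hφ, Φ.apply_symm_apply, Φ.apply_symm_apply, ← hsf, ← mul_assoc,
      inv_mul_cancel₀ (hne s hs), one_mul]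
  exact ⟨RingEquiv.ofBijective φ hbij, hφ⟩

end Pool.Agent.S02191.SDore

namespace Pool.Agent.S02191.SDcomb

open SkewPolynomial Multiplicative
open Pool.Agent.S02191.SDabs Pool.Agent.S02191.SDpoly Pool.Agent.S02191.SDore

variable {F : Type} [Field F] [MulSemiringAction (Multiplicative ℕ) F] (T : FD F)
variable {D : Type} [DivisionRing D] (E : OreD (SkewPolynomial F) D)

/-- `d = s⁻¹ f' γ` with `s, f'` of content zero. -/
def Rel (d : D) (γ : F) : Prop :=
  ∃ s f' : SkewPolynomial F, SS T s ∧ SS T f' ∧ E.ι s * d = E.ι (f' * C γ)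

theorem ι_ne {f : SkewPolynomial F} (hf : f ≠ 0) : E.ι f ≠ 0 := by
  intro h
  exact hf (E.inj (h.trans (map_zero _).symm))

theorem exists_rel (d : D) : ∃ γ, Rel T E d γ := by
  obtain ⟨s, f, hs, hsf⟩ := E.frac d
  obtain ⟨α, hα, hS⟩ := left_content T hs
  obtain ⟨f', γ, hf', hfe⟩ := right_content T (C α * f)
  refine ⟨γ, C α * s, f', hS, hf', ?_⟩
  rw [map_mul, mul_assoc, hsf, ← map_mul, hfe]

theorem rel_le {d : D} {γ γ1 : F} (h : Rel T E d γ) (h1 : Rel T E d γ1) : T.v γ ≤ T.v γ1 := by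
  obtain ⟨s, f, hs, hf, e⟩ := h
  obtain ⟨s1, f1, hs1, hf1, e1⟩ := h1
  obtain ⟨p, q, hp, hq, hpq⟩ := ore'' T s s1 hs hs1
  have h2 : p * f * C γ = q * f1 * C γ1 := by
    apply E.inj
    rw [mul_assoc, mul_assoc, map_mul, ← e, map_mul _ q, ← e1, ← mul_assoc, ← mul_assoc, ← map_mul,
      ← map_mul, hpq]
  exact right_content_le T (hq.mul T hf1) (hp.mul T hf).1 h2.symm

/-- the one sided valuation -/
noncomputable def w (d : D) : WithTop ℝ := T.v (exists_rel T E d).choose

theorem w_eq {d : D} {γ : F} (h : Rel T E d γ) : w T E d = T.v γ :=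
  le_antisymm (rel_le T E (exists_rel T E d).choose_spec h)
    (rel_le T E h (exists_rel T E d).choose_spec)

theorem key {s g : SkewPolynomial F} {d : D} {γ : F} (hs : SS T s) (hg : In0 T g)
    (e : E.ι s * d = E.ι (g * C γ)) : T.v γ ≤ w T E d := by
  obtain ⟨g', ε, hg', hge⟩ := right_content T g
  have hε : 0 ≤ T.v ε := (In0_iff_right T hg').1 (hge ▸ hg)
  have hr : Rel T E d (ε * γ) := by
    refine ⟨s, g', hs, hg', ?_⟩
    rw [e, hge, C_mul, mul_assoc]
  rw [w_eq T E hr, T.v.map_mul]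
  exact le_add_of_nonneg_left hε

theorem w_zero (d : D) : w T E d = ⊤ ↔ d = 0 := by
  constructor
  · intro h
    obtain ⟨γ, hγ⟩ := exists_rel T E d
    rw [w_eq T E hγ, T.v.top_iff] at h
    obtain ⟨s, f, hs, hf, e⟩ := hγ
    rw [h, C_0, mul_zero, map_zero] at e
    exact (mul_eq_zero.1 e).resolve_left (ι_ne E (hs.ne_zero T))
  · rintro rfl
    have : Rel T E (0 : D) 0 := ⟨1, 1, SS.one T, SS.one T, by rw [C_0, mul_zero, mul_zero, map_zero]⟩
    rw [w_eq T E this, T.v.map_zero]

theorem rel_poly {g : SkewPolynomial F} {γ : F} (hg : SS T g) : Rel T E (E.ι (g * C γ)) γ :=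
  ⟨1, g, SS.one T, hg, by rw [map_one, one_mul]⟩

theorem w_one : w T E (1 : D) = 0 := by
  have : Rel T E (1 : D) 1 := ⟨1, 1, SS.one T, SS.one T, by rw [C_1, mul_one, mul_one]⟩
  rw [w_eq T E this, T.v.map_one]

theorem w_neg (d : D) : w T E (-d) = w T E d := by
  obtain ⟨γ, hγ⟩ := exists_rel T E d
  have : Rel T E (-d) (-γ) := by
    obtain ⟨s, f, hs, hf, e⟩ := hγ
    refine ⟨s, f, hs, hf, ?_⟩
    rw [mul_neg, e, C_neg, mul_neg, map_neg]
  rw [w_eq T E this, w_eq T E hγ, T.v.map_neg]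

theorem w_mul (r d : D) (hr : 0 ≤ w T E r) : w T E d ≤ w T E (r * d) := by
  obtain ⟨ε, hε⟩ := exists_rel T E r
  obtain ⟨γ, hγ⟩ := exists_rel T E d
  rw [w_eq T E hε] at hr
  rw [w_eq T E hγ]
  obtain ⟨s, g, hs, hg, e⟩ := hε
  obtain ⟨s', f', hs', hf', e'⟩ := hγ
  obtain ⟨p, q, hp, hq, hpq⟩ := ore' T (g * C ε) s' (In0_of_right T hg.1 hr) hs'
  apply key T E (s := p * s) (g := q * f') (hp.mul T hs) (hq.mul T hf'.1)
  rw [map_mul, mul_assoc, ← mul_assoc (E.ι s), e, ← mul_assoc, ← map_mul, hpq, map_mul, mul_assoc,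
    e', ← map_mul, mul_assoc]

theorem w_add' {a b : D} (hab : w T E a ≤ w T E b) : w T E a ≤ w T E (a + b) := by
  obtain ⟨γ, hγ⟩ := exists_rel T E a
  obtain ⟨γ1, hγ1⟩ := exists_rel T E b
  rw [w_eq T E hγ, w_eq T E hγ1] at hab
  by_cases h0 : γ = 0
  · have hb : w T E b = ⊤ := by
      rw [w_eq T E hγ1]
      rw [h0, T.v.map_zero, top_le_iff] at hab
      exact hab
    rw [(w_zero T E b).1 hb, add_zero]
  rw [w_eq T E hγ]
  obtain ⟨s, f, hs, hf, e⟩ := hγ
  obtain ⟨s1, f1, hs1, hf1, e1⟩ := hγ1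
  obtain ⟨p, q, hp, hq, hpq⟩ := ore'' T s s1 hs hs1
  have hδ : 0 ≤ T.v (γ1 * γ⁻¹) := by
    have : T.v (γ * γ⁻¹) ≤ T.v (γ1 * γ⁻¹) := by
      rw [T.v.map_mul, T.v.map_mul]
      gcongr
    rwa [mul_inv_cancel₀ h0, T.v.map_one] at this
  apply key T E (s := p * s) (g := p * f + q * f1 * C (γ1 * γ⁻¹)) (hp.mul T hs)
    ((hp.mul T hf).1.add T (In0_of_right T (hq.mul T hf1).1 hδ))
  have h1 : E.ι (p * s) * a = E.ι (p * f * C γ) := by
    rw [map_mul, mul_assoc, e, ← map_mul, mul_assoc]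
  have h2 : E.ι (p * s) * b = E.ι (q * f1 * C γ1) := by
    rw [hpq, map_mul, mul_assoc, e1, ← map_mul, mul_assoc]
  rw [mul_add, h1, h2, ← map_add, add_mul, mul_assoc (q * f1), ← C_mul, mul_assoc γ1,
    inv_mul_cancel₀ h0, mul_one]

theorem w_add (a b : D) : min (w T E a) (w T E b) ≤ w T E (a + b) := by
  rcases le_total (w T E a) (w T E b) with h | h
  · exact (min_le_left _ _).trans (w_add' T E h)
  · rw [add_comm]
    exact (min_le_right _ _).trans (w_add' T E h)

theorem w_mul_nonneg {a b : D} (ha : 0 ≤ w T E a) (hb : 0 ≤ w T E b) : 0 ≤ w T E (a * b) :=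
  hb.trans (w_mul T E a b ha)

theorem w_inv_nonneg {s : SkewPolynomial F} (hs : SS T s) : 0 ≤ w T E (E.ι s)⁻¹ := by
  have : Rel T E (E.ι s)⁻¹ 1 := ⟨s, 1, hs, SS.one T, by
    rw [mul_inv_cancel₀ (ι_ne E (hs.ne_zero T)), C_1, mul_one, map_one]⟩
  rw [w_eq T E this, T.v.map_one]

theorem w_poly_nonneg {g : SkewPolynomial F} (hg : In0 T g) : 0 ≤ w T E (E.ι g) := by
  have := key T E (s := 1) (g := g) (d := E.ι g) (γ := 1) (SS.one T) hg (by
    rw [map_one, one_mul, C_1, mul_one])
  rwa [T.v.map_one] at this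

theorem In0_C {a : F} (ha : 0 ≤ T.v a) : In0 T (C a) := by
  have := In0_C_mul T (SS.one T).1 ha
  rwa [mul_one] at this

theorem w_div (d d' : D) (hd : d ≠ 0) (h : w T E d ≤ w T E d') : 0 ≤ w T E (d' * d⁻¹) := by
  obtain ⟨γ, hγ⟩ := exists_rel T E d
  obtain ⟨γ1, hγ1⟩ := exists_rel T E d'
  have hγ0 : γ ≠ 0 := by
    rintro rfl
    apply hd
    rw [← w_zero T E, w_eq T E hγ, T.v.map_zero]
  rw [w_eq T E hγ, w_eq T E hγ1] at h
  obtain ⟨s, f, hs, hf, e⟩ := hγ
  obtain ⟨s1, f1, hs1, hf1, e1⟩ := hγ1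
  have hδ : 0 ≤ T.v (γ1 * γ⁻¹) := by
    have : T.v (γ * γ⁻¹) ≤ T.v (γ1 * γ⁻¹) := by
      rw [T.v.map_mul, T.v.map_mul]
      gcongr
    rwa [mul_inv_cancel₀ hγ0, T.v.map_one] at this
  have hιs := ι_ne E (hs.ne_zero T)
  have hιs1 := ι_ne E (hs1.ne_zero T)
  have hιf := ι_ne E (hf.ne_zero T)
  have hCγ : E.ι (C γ) ≠ 0 := ι_ne E (fun h => hγ0 (C_eq_zero.1 h))
  have hd1 : d = (E.ι s)⁻¹ * (E.ι f * E.ι (C γ)) := by
    rw [← map_mul, ← e, ← mul_assoc, inv_mul_cancel₀ hιs, one_mul]
  have hd2 : d' = (E.ι s1)⁻¹ * (E.ι f1 * (E.ι (C (γ1 * γ⁻¹)) * E.ι (C γ))) := by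
    rw [← map_mul, ← C_mul, mul_assoc γ1, inv_mul_cancel₀ hγ0, mul_one, ← map_mul, ← e1,
      ← mul_assoc, inv_mul_cancel₀ hιs1, one_mul]
  have hd3 : d⁻¹ = (E.ι (C γ))⁻¹ * ((E.ι f)⁻¹ * E.ι s) := by
    rw [hd1, mul_inv_rev, mul_inv_rev, inv_inv, mul_assoc]
  have hd4 : d' * d⁻¹ = (E.ι s1)⁻¹ * (E.ι f1 * (E.ι (C (γ1 * γ⁻¹)) * ((E.ι f)⁻¹ * E.ι s))) := by
    rw [hd3]
    nth_rewrite 1 [hd2]
    simp only [mul_assoc]
    rw [← mul_assoc (E.ι (C γ)), mul_inv_cancel₀ hCγ, one_mul]
  rw [hd4]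
  refine w_mul_nonneg T E (w_inv_nonneg T E hs1) ?_
  refine w_mul_nonneg T E (w_poly_nonneg T E hf1.1) ?_
  refine w_mul_nonneg T E (w_poly_nonneg T E (In0_C T hδ)) ?_
  exact w_mul_nonneg T E (w_inv_nonneg T E hf) (w_poly_nonneg T E hs.1)

theorem w_surj (c : ℝ) : ∃ d, w T E d = c := by
  obtain ⟨a, ha⟩ := T.vsurj c
  exact ⟨E.ι (1 * C a), by rw [w_eq T E (rel_poly T E (SS.one T)), ha]⟩

theorem SS_X_pow (n : ℕ) : SS T ((X : SkewPolynomial F) ^ n) := by
  induction n with
  | zero => rw [pow_zero]; exact SS.one T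
  | succ n ih => rw [pow_succ]; exact ih.mul T (SS.X T)

theorem X_pow_C (n : ℕ) (a : F) : (X : SkewPolynomial F) ^ n * C a = C (ofAdd n • a) * X ^ n := by
  rw [← monomial_one_right_eq_X_pow, monomial_mul_C, C_mul_monomial, φ_iterate_apply, one_mul,
    mul_one]

theorem w_x (d : D) (hd : d ≠ 0) (c : ℝ) (hc : 1 < c) : ∃ y, 1 < w T E y ∧ w T E (d * y) < c := by
  obtain ⟨γ, hγ⟩ := exists_rel T E d
  have hγ0 : γ ≠ 0 := by
    rintro rfl
    apply hd
    rw [← w_zero T E, w_eq T E hγ, T.v.map_zero]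
  obtain ⟨g, hg⟩ : ∃ g : ℝ, T.v γ = g := by
    cases hv : T.v γ with
    | top => exact absurd (T.v.top_iff.1 hv) hγ0
    | coe r => exact ⟨r, rfl⟩
  obtain ⟨c', hc'⟩ := T.vsurj (1 + (c - 1) / 2)
  obtain ⟨n, hn⟩ : ∃ n : ℕ, g / 2 ^ n < (c - 1) / 2 := by
    obtain ⟨n, hn⟩ := pow_unbounded_of_one_lt (g / ((c - 1) / 2)) (one_lt_two)
    refine ⟨n, ?_⟩
    have h1 : (0:ℝ) < (c - 1) / 2 := by linarith
    rw [div_lt_iff₀ h1] at hn
    rw [div_lt_iff₀ (by positivity)]
    linarith
  obtain ⟨γn, hγn⟩ := T.actsurj n γ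
  have hvn : T.v γn = ((g / 2 ^ n : ℝ) : WithTop ℝ) := by
    have h1 := T.vact n γn
    rw [hγn, hg] at h1
    cases hv : T.v γn with
    | top => rw [hv] at h1; simp at h1
    | coe r =>
      rw [hv, WithTop.map_coe] at h1
      have h2 : g = 2 ^ n * r := by exact_mod_cast h1
      rw [h2]
      congr 1
      field_simp
  refine ⟨E.ι (X ^ n * C c'), ?_, ?_⟩
  · rw [w_eq T E (rel_poly T E (SS_X_pow T n)), hc']
    have : (1:ℝ) < 1 + (c - 1) / 2 := by linarith
    exact_mod_cast this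
  · have hr : Rel T E (d * E.ι (X ^ n * C c')) (γn * c') := by
      obtain ⟨s, f, hs, hf, e⟩ := hγ
      refine ⟨s, f * X ^ n, hs, hf.mul T (SS_X_pow T n), ?_⟩
      rw [← mul_assoc, e, ← map_mul]
      congr 1
      rw [C_mul, mul_assoc, ← mul_assoc (C γ), ← hγn, ← X_pow_C]
      simp only [mul_assoc]
    rw [w_eq T E hr, T.v.map_mul, hvn, hc']
    have : g / 2 ^ n + (1 + (c - 1) / 2) < c := by linarith
    exact_mod_cast this

/-- coefficientwise map -/
noncomputable def mapP (φ : F →+* F) (hφ : ∀ (n : ℕ) (a : F), φ (ofAdd n • a) = ofAdd n • φ a) :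
    SkewPolynomial F →+* SkewPolynomial F where
  toFun f := (⟨Finsupp.mapRange φ (map_zero φ) (SkewMonoidAlgebra.coeff f)⟩ :
    SkewMonoidAlgebra F (Multiplicative ℕ))
  map_zero' := by
    apply SkewPolynomial.ext
    intro n
    change φ (coeff (0 : SkewPolynomial F) n) = _
    rw [coeff_zero, map_zero]
  map_one' := by
    apply SkewPolynomial.ext
    intro n
    change φ (coeff (1 : SkewPolynomial F) n) = _
    rw [coeff_one]
    split_ifs <;> simp
  map_add' x y := by
    apply SkewPolynomial.ext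
    intro n
    rw [coeff_add]
    change φ (coeff (x + y : SkewPolynomial F) n) = φ (coeff x n) + φ (coeff y n)
    rw [coeff_add, map_add]
  map_mul' x y := by
    apply SkewPolynomial.ext
    intro n
    rw [coeff_mul']
    change φ (coeff (x * y : SkewPolynomial F) n) = ∑ p ∈ Finset.HasAntidiagonal.antidiagonal n,
      φ (coeff x p.1) * (ofAdd p.1 • φ (coeff y p.2))
    rw [coeff_mul', map_sum]
    apply Finset.sum_congr rfl
    intro p _
    rw [map_mul, hφ]

theorem coeff_mapP (φ : F →+* F) (hφ : ∀ (n : ℕ) (a : F), φ (ofAdd n • a) = ofAdd n • φ a)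
    (f : SkewPolynomial F) (n : ℕ) : coeff (mapP φ hφ f) n = φ (coeff f n) := rfl

/-- coefficientwise automorphism -/
noncomputable def mapE (φ : F ≃+* F) (hφ : ∀ (n : ℕ) (a : F), φ (ofAdd n • a) = ofAdd n • φ a) :
    SkewPolynomial F ≃+* SkewPolynomial F :=
  RingEquiv.ofRingHom (mapP (φ : F →+* F) hφ)
    (mapP (φ.symm : F →+* F) (by
      intro n a
      apply φ.injective
      change φ (φ.symm (ofAdd n • a)) = φ (ofAdd n • φ.symm a)
      rw [hφ, φ.apply_symm_apply, φ.apply_symm_apply]))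
    (by
      apply RingHom.ext
      intro f
      apply SkewPolynomial.ext
      intro n
      change φ (φ.symm (coeff f n)) = coeff f n
      exact φ.apply_symm_apply _)
    (by
      apply RingHom.ext
      intro f
      apply SkewPolynomial.ext
      intro n
      change φ.symm (φ (coeff f n)) = coeff f n
      exact φ.symm_apply_apply _)

theorem coeff_mapE (φ : F ≃+* F) (hφ : ∀ (n : ℕ) (a : F), φ (ofAdd n • a) = ofAdd n • φ a)
    (f : SkewPolynomial F) (n : ℕ) : coeff (mapE φ hφ f) n = φ (coeff f n) := rfl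

theorem mapE_C (φ : F ≃+* F) (hφ : ∀ (n : ℕ) (a : F), φ (ofAdd n • a) = ofAdd n • φ a)
    (a : F) : mapE φ hφ (C a) = C (φ a) := by
  apply SkewPolynomial.ext
  intro n
  rw [coeff_mapE, coeff_C, coeff_C]
  split_ifs <;> simp

theorem w_phi (s : ℝ) (hs : 0 < s) : ∃ φ : D ≃+* D, ∀ d, ∀ c : ℝ,
    ((c : ℝ) : WithTop ℝ) < w T E d ↔ ((s * c : ℝ) : WithTop ℝ) < w T E (φ d) := by
  obtain ⟨φ, hφ, hv⟩ := T.phi s hs
  obtain ⟨ψ, hψ⟩ := E.ext (mapE φ hφ)
  have hnn : ∀ a : F, 0 ≤ T.v (φ a) ↔ 0 ≤ T.v a := by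
    intro a
    rw [hv]
    have := map_le hs 0 (T.v a)
    rw [map_zero'] at this
    exact this
  have hz : ∀ a : F, T.v a = 0 → T.v (φ a) = 0 := by
    intro a ha
    rw [hv, ha, map_zero']
  have hSS : ∀ f : SkewPolynomial F, SS T f → SS T (mapE φ hφ f) := by
    intro f hf
    refine ⟨fun i => ?_, ?_⟩
    · rw [coeff_mapE, hnn]; exact hf.1 i
    · obtain ⟨i, hi⟩ := hf.2
      exact ⟨i, by rw [coeff_mapE]; exact hz _ hi⟩
  have hrel : ∀ d γ, Rel T E d γ → Rel T E (ψ d) (φ γ) := by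
    rintro d γ ⟨t, f, ht, hf, e⟩
    refine ⟨mapE φ hφ t, mapE φ hφ f, hSS t ht, hSS f hf, ?_⟩
    rw [← hψ, ← map_mul, e, hψ, map_mul, mapE_C]
  refine ⟨ψ, fun d c => ?_⟩
  obtain ⟨γ, hγ⟩ := exists_rel T E d
  rw [w_eq T E hγ, w_eq T E (hrel d γ hγ), hv]
  have h1 := map_le hs (T.v γ) (c : WithTop ℝ)
  rw [WithTop.map_coe] at h1
  exact not_iff_not.1 (by rw [not_lt, not_lt]; exact h1.symm)

/-- the assembled data -/
noncomputable def data : Data D where
  w := w T E
  w0 := w_zero T E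
  w1 := w_one T E
  wadd := w_add T E
  wneg := w_neg T E
  wmul := w_mul T E
  wdiv := w_div T E
  wsurj := w_surj T E
  wx := w_x T E
  phi := w_phi T E

end Pool.Agent.S02191.SDcomb

namespace Pool.Agent.S02191.SDhahn

open Multiplicative
open Pool.Agent.S02191.SDpoly

abbrev K : Type := ℚ
abbrev HF : Type := HahnSeries ℝ K

/-- scaling of exponents -/
noncomputable def scale (s : ℝ) (hs : 0 < s) : HF →+* HF :=
  HahnSeries.embDomainRingHom (AddMonoidHom.mulLeft s)
    (fun a b h => by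
      change s * a = s * b at h
      exact mul_left_cancel₀ hs.ne' h)
    (fun a b => by
      change s * a ≤ s * b ↔ a ≤ b
      exact mul_le_mul_iff_of_pos_left hs)

theorem scale_coeff (s : ℝ) (hs : 0 < s) (a : HF) (b : ℝ) :
    (scale s hs a).coeff (s * b) = a.coeff b :=
  HahnSeries.embDomain_coeff (f := ⟨⟨fun x => s * x, fun a b h => mul_left_cancel₀ hs.ne' h⟩,
    fun {a b} => mul_le_mul_iff_of_pos_left hs⟩) (x := a) (a := b)

theorem scale_coeff' (s : ℝ) (hs : 0 < s) (a : HF) (b : ℝ) :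
    (scale s hs a).coeff b = a.coeff (b / s) := by
  rw [← scale_coeff s hs a (b / s), mul_div_cancel₀ _ hs.ne']

theorem scale_order (s : ℝ) (hs : 0 < s) (a : HF) :
    (scale s hs a).orderTop = a.orderTop.map (fun x => s * x) :=
  HahnSeries.orderTop_embDomain (f := ⟨⟨fun x => s * x, fun a b h => mul_left_cancel₀ hs.ne' h⟩,
    fun {a b} => mul_le_mul_iff_of_pos_left hs⟩) (x := a)

theorem scale_scale (s t : ℝ) (hs : 0 < s) (ht : 0 < t) (a : HF) :
    scale s hs (scale t ht a) = scale (s * t) (mul_pos hs ht) a := by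
  ext b
  rw [scale_coeff', scale_coeff', scale_coeff', div_div]

theorem scale_congr {s t : ℝ} (hs : 0 < s) (ht : 0 < t) (h : s = t) (a : HF) :
    scale s hs a = scale t ht a := by
  subst h; rfl

theorem scale_one (a : HF) : scale 1 one_pos a = a := by
  ext b
  rw [scale_coeff', div_one]

@[instance_reducible]
noncomputable def act : MulSemiringAction (Multiplicative ℕ) HF where
  smul n a := scale (2 ^ (toAdd n)) (by positivity) a
  one_smul a := by
    change scale (2 ^ 0) _ a = a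
    rw [scale_congr _ one_pos (pow_zero 2), scale_one]
  mul_smul m n a := by
    change scale (2 ^ (toAdd (m * n))) _ a = scale (2 ^ (toAdd m)) _ (scale (2 ^ (toAdd n)) _ a)
    rw [scale_scale]
    exact scale_congr _ _ (by rw [toAdd_mul, pow_add]) a
  smul_zero n := map_zero _
  smul_add n a b := map_add _ a b
  smul_one n := map_one _
  smul_mul n a b := map_mul _ a b

attribute [local instance] act

theorem act_def (n : ℕ) (a : HF) : ofAdd n • a = scale (2 ^ n) (by positivity) a := rfl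

noncomputable def scaleE (s : ℝ) (hs : 0 < s) : HF ≃+* HF :=
  RingEquiv.ofRingHom (scale s hs) (scale s⁻¹ (inv_pos.2 hs))
    (by
      apply RingHom.ext
      intro a
      change scale s hs (scale s⁻¹ (inv_pos.2 hs) a) = a
      rw [scale_scale, scale_congr _ one_pos (mul_inv_cancel₀ hs.ne'), scale_one])
    (by
      apply RingHom.ext
      intro a
      change scale s⁻¹ (inv_pos.2 hs) (scale s hs a) = a
      rw [scale_scale, scale_congr _ one_pos (inv_mul_cancel₀ hs.ne'), scale_one])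

/-- the data -/
noncomputable def fd : FD HF where
  v := HahnSeries.addVal ℝ K
  vsurj c := ⟨HahnSeries.single c 1, by
    rw [HahnSeries.addVal_apply, HahnSeries.orderTop_single one_ne_zero]⟩
  vact n a := by
    rw [HahnSeries.addVal_apply, HahnSeries.addVal_apply, act_def, scale_order]
  actsurj n a := ⟨(scaleE (2 ^ n) (by positivity)).symm a,
    (scaleE (2 ^ n) (by positivity)).apply_symm_apply a⟩
  phi s hs := by
    refine ⟨scaleE s hs, ?_, ?_⟩
    · intro n a
      change scale s hs (scale (2 ^ n) _ a) = scale (2 ^ n) _ (scale s hs a)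
      rw [scale_scale, scale_scale]
      exact scale_congr _ _ (mul_comm _ _) a
    · intro a
      rw [HahnSeries.addVal_apply, HahnSeries.addVal_apply]
      exact scale_order s hs a

end Pool.Agent.S02191.SDhahn

namespace Pool.Agent.S02191

attribute [local instance] SDhahn.act

/-- There is a possibly non-unital simple ring without zero divisors that is not a division ring and is ring-isomorphic to each of its nonzero left ideals L satisfying L·L = L. -/
theorem result :
    ∃ (R : Type) (inst : NonUnitalRing R),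
      IsSimpleRing R ∧ NoZeroDivisors R ∧
      (¬ ∃ e : R, (∀ x : R, e * x = x ∧ x * e = x) ∧
          ∀ x : R, x ≠ 0 → ∃ y : R, x * y = e ∧ y * x = e) ∧
      ∀ L : NonUnitalSubring R, L ≠ ⊥ →
        (∀ r x : R, x ∈ L → r * x ∈ L) →
        AddSubgroup.closure {z : R | ∃ a ∈ L, ∃ b ∈ L, z = a * b} = L.toAddSubgroup →
        Nonempty (L ≃+* R) := by
  let T := SDhahn.fd
  have hnz := SDpoly.noZeroDiv T
  obtain ⟨D, hD, ⟨E⟩⟩ := SDore.exists_oreD (SkewPolynomial SDhahn.HF) (SDpoly.ore T)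
  exact SDabs.main (SDcomb.data T E)

end Pool.Agent.S02191
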