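import Pool.Statements.S02194

set_option autoImplicit false
open Pool Pool.MP_de34bb_al

namespace Pool.Agent.S02194

open Matrix Matrix.SpecialLinearGroup
open scoped LinearAlgebra.Projectivization Pointwise commutatorElement

variable {ι F : Type*} [Field F] [DecidableEq ι] [Fintype ι]

theorem diag2n_decomp {i j : ι} (hij : i ≠ j) (a : F) (ha : a ≠ 0) :
    diag2n hij a ha = SpecialLinearGroup.transvection hij a *
      SpecialLinearGroup.transvection hij.symm (- a⁻¹) *
      SpecialLinearGroup.transvection hij a *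
      SpecialLinearGroup.transvection hij (-1) *
      SpecialLinearGroup.transvection hij.symm 1 *
      SpecialLinearGroup.transvection hij (-1) := by
  apply Subtype.ext
  simp only [coe_mul, transvection_coe, diag2n_coe]
  have e : (diagonal (fun k ↦ if k = i then a else if k = j then a⁻¹ else 1) : Matrix ι ι F) =
      1 + single i i (a - 1) + single j j (a⁻¹ - 1) := by
    ext k l
    by_cases hkl : k = l
    · subst hkl
      by_cases h1 : k = i
      · subst h1
        simp [hij.symm, single_apply]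
      · by_cases h2 : k = j
        · subst h2
          simp [h1, single_apply, hij]
        · simp [h1, h2, single_apply, Ne.symm h1, Ne.symm h2]
    · simp [hkl, single_apply]
      grind
  rw [e]
  have h1 : (single i j a : Matrix ι ι F) * single i j a = 0 := single_mul_single_of_ne _ _ _ _ hij.symm _
  simp only [mul_add, add_mul, mul_one, one_mul, single_mul_single_same, 
    single_mul_single_of_ne _ _ _ _ hij, single_mul_single_of_ne _ _ _ _ hij.symm, zero_mul, mul_zero, add_zero, zero_add]
  obtain ⟨E, hE⟩ : ∃ E : ι → ι → Matrix ι ι F, ∀ p q c, single p q c = c • E p q :=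
    ⟨fun p q => single p q 1, by simp⟩
  simp only [hE]
  have h2 : a * a⁻¹ = 1 := mul_inv_cancel₀ ha
  have h3 : a⁻¹ * a = 1 := inv_mul_cancel₀ ha
  simp only [mul_neg, neg_mul, h2, h3, mul_one, one_mul, neg_neg]
  module

theorem gen_induction [Nontrivial ι] (P : SpecialLinearGroup ι F → Prop)
    (M : SpecialLinearGroup ι F)
    (htransvec : ∀ (i j : ι) (hij : i ≠ j) (a : F), P (SpecialLinearGroup.transvection hij a))
    (hmul : ∀ A B, P A → P B → P (A * B)) : P M := by
  refine diagonal_transvection_induction' P M (fun i j hij c hc ↦ ?_) htransvec hmul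
  rw [diag2n_decomp]
  refine hmul _ _ (hmul _ _ (hmul _ _ (hmul _ _ (hmul _ _ ?_ ?_) ?_) ?_) ?_) ?_
  all_goals exact htransvec _ _ _ _

theorem commutator_top (h3 : ∀ i j : ι, ∃ k, k ≠ i ∧ k ≠ j) [Nontrivial ι] :
    commutator (SpecialLinearGroup ι F) = ⊤ := by
  rw [eq_top_iff]
  intro M _
  refine gen_induction (· ∈ commutator (SpecialLinearGroup ι F)) M ?_ (fun _ _ ↦ mul_mem)
  intro i j hij a
  obtain ⟨k, hki, hkj⟩ := h3 i j
  have e : (SpecialLinearGroup.transvection hij a : SpecialLinearGroup ι F) =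
      ⁅SpecialLinearGroup.transvection hki.symm (1 : F), SpecialLinearGroup.transvection hkj a⁆ := by
    rw [commutatorElement_def, transvection_inv, transvection_inv]
    apply Subtype.ext
    simp only [coe_mul, transvection_coe]
    simp only [mul_add, add_mul, mul_one, one_mul, single_mul_single_same, 
      single_mul_single_of_ne _ _ _ _ hij, single_mul_single_of_ne _ _ _ _ hij.symm,
      single_mul_single_of_ne _ _ _ _ hki, single_mul_single_of_ne _ _ _ _ hki.symm,
      single_mul_single_of_ne _ _ _ _ hkj, single_mul_single_of_ne _ _ _ _ hkj.symm, zero_mul, mul_zero, add_zero, zero_add]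
    obtain ⟨E, hE⟩ : ∃ E : ι → ι → Matrix ι ι F, ∀ p q c, single p q c = c • E p q :=
      ⟨fun p q => single p q 1, by simp⟩
    simp only [hE]
    module
  show SpecialLinearGroup.transvection hij a ∈ commutator (SpecialLinearGroup ι F)
  rw [e]
  exact Subgroup.commutator_mem_commutator (Subgroup.mem_top _) (Subgroup.mem_top _)


theorem iSup_lineStab [Nontrivial ι] :
    (⨆ p : ℙ F (ι → F), lineStab p.submodule) = (⊤ : Subgroup (SpecialLinearGroup ι F)) := by
  rw [eq_top_iff]
  intro M _
  refine gen_induction (· ∈ (⨆ p : ℙ F (ι → F), lineStab p.submodule)) M ?_ (fun _ _ ↦ mul_mem)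
  intro i j hij a
  refine Subgroup.mem_iSup_of_mem (Projectivization.mk F (Pi.single i (1 : F) : ι → F)
    (Pi.single_ne_zero_iff.2 one_ne_zero)) ?_
  rw [Projectivization.submodule_mk]
  exact SL2Gen.transvection_mem_lineStab hij a

/-- The Iwasawa structure for the action of the special linear group on the projective space. -/
noncomputable def iwa [Nontrivial ι] :
    MulAction.IwasawaStructure (SpecialLinearGroup ι F) (ℙ F (ι → F)) where
  T p := lineStab p.submodule
  is_comm p := by
    rw [← Projectivization.mk_rep p, Projectivization.submodule_mk]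
    exact lineStab_isMulCommutative_of_span p.rep p.rep_nonzero
  is_conj g p := by
    rw [PSL.smul_submodule, Matrix.SpecialLinearGroup.lineStab_smul]
  is_generator := iSup_lineStab

theorem normal_SL (h3 : ∀ i j : ι, ∃ k, k ≠ i ∧ k ≠ j) [Nontrivial ι]
    (N : Subgroup (SpecialLinearGroup ι F)) [N.Normal] :
    N = ⊤ ∨ N ≤ Subgroup.center (SpecialLinearGroup ι F) := by
  by_cases h : MulAction.fixedPoints N (ℙ F (ι → F)) = .univ
  · right
    intro n hn
    rw [← Projectivization.SL_mulAction_ker, MonoidHom.mem_ker]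
    ext x
    have := Set.eq_univ_iff_forall.mp h x ⟨n, hn⟩
    simpa using this
  · left
    have := iwa.commutator_le N h
    rw [commutator_top h3] at this
    exact top_le_iff.mp this


instance fact5 : Fact (Nat.Prime 5) := ⟨by norm_num⟩

abbrev K5 := ZMod 5

/-- The ambient group. -/
abbrev G5 := GL (Fin 4) K5

/-- The order 4 reflection. -/
def rA : G5 :=
  ⟨diagonal ![1, 1, 1, 2], diagonal ![1, 1, 1, 3], by decide, by decide⟩

theorem rA_pow4 : rA ^ 4 = 1 := by
  apply Units.ext
  decide

theorem rA_pow2 : rA ^ 2 ≠ 1 := by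
  intro h
  have := congrArg (fun g : G5 => (g : Matrix (Fin 4) (Fin 4) K5) 3 3) h
  revert this
  decide

theorem order_rA : orderOf rA = 4 := by
  have : orderOf rA = 2 ^ (1 + 1) := by
    apply orderOf_eq_prime_pow
    · simpa using rA_pow2
    · simpa using rA_pow4
  simpa using this

/-- The special linear group inside the general linear group. -/
def LL : Subgroup G5 := (Matrix.GeneralLinearGroup.det (n := Fin 4) (R := K5)).ker

theorem mem_LL {g : G5} : g ∈ LL ↔ Matrix.det (g : Matrix (Fin 4) (Fin 4) K5) = 1 := by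
  constructor
  · intro hg
    have := congrArg Units.val (show Matrix.GeneralLinearGroup.det g = 1 from hg)
    simpa using this
  · intro hg
    show Matrix.GeneralLinearGroup.det g = 1
    apply Units.ext
    simpa using hg

theorem toGL_mem (M : SpecialLinearGroup (Fin 4) K5) : toGL M ∈ LL := by
  rw [mem_LL, coe_GL_coe_matrix]
  exact M.2

theorem LL_eq : LL = (toGL (n := Fin 4) (R := K5)).range := by
  ext g
  constructor
  · intro hg
    obtain ⟨M, hM⟩ : ∃ M : SpecialLinearGroup (Fin 4) K5, M.1 = g.1 := ⟨⟨g.1, mem_LL.mp hg⟩, rfl⟩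
    refine ⟨M, ?_⟩
    apply Units.ext
    rw [coe_GL_coe_matrix]
    exact hM
  · rintro ⟨M, rfl⟩
    exact toGL_mem M

theorem three (i j : Fin 4) : ∃ k, k ≠ i ∧ k ≠ j := by
  revert i j
  decide

theorem LL_perfect : ⁅LL, LL⁆ = LL := by
  rw [LL_eq, MonoidHom.range_eq_map, ← Subgroup.map_commutator]
  congr 1
  exact commutator_top three

theorem scalar_of_centralizer {g : G5} (hg : g ∈ Subgroup.centralizer (LL : Set G5)) :
    ∃ c : K5, (g : Matrix (Fin 4) (Fin 4) K5) = Matrix.scalar (Fin 4) c := by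
  have h : (g : Matrix (Fin 4) (Fin 4) K5) ∈ Set.range (Matrix.scalar (Fin 4)) := by
    apply Matrix.mem_range_scalar_of_commute_transvectionStruct
    intro t
    have h1 := Subgroup.mem_centralizer_iff.mp hg (toGL t.toSpecialLinearGroup) (toGL_mem _)
    have h2 := congrArg Units.val h1
    rw [Units.val_mul, Units.val_mul, coe_GL_coe_matrix] at h2
    exact h2
  obtain ⟨c, hc⟩ := h
  exact ⟨c, hc.symm⟩

theorem centralizer_le : Subgroup.centralizer (LL : Set G5) ≤ LL := by
  intro g hg
  obtain ⟨c, hc⟩ := scalar_of_centralizer hg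
  have hu : IsUnit (Matrix.det (g : Matrix (Fin 4) (Fin 4) K5)) :=
    (Matrix.isUnit_iff_isUnit_det _).mp g.isUnit
  rw [mem_LL]
  rw [hc, Matrix.scalar_apply, Matrix.det_diagonal] at hu ⊢
  simp only [Finset.prod_const, Finset.card_univ, Fintype.card_fin] at hu ⊢
  have hne : c ^ 4 ≠ 0 := hu.ne_zero
  have key : ∀ c : K5, c ^ 4 ≠ 0 → c ^ 4 = 1 := by decide
  exact key c hne

theorem LL_normal (N : Subgroup G5) (hN : N ≤ LL)
    (hn : ∀ l ∈ LL, ∀ n ∈ N, l * n * l⁻¹ ∈ N) :
    N = LL ∨ N ≤ Subgroup.centralizer (LL : Set G5) := by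
  have hnor : (N.comap (toGL (n := Fin 4) (R := K5))).Normal := by
    constructor
    intro n hn' g
    show toGL (g * n * g⁻¹) ∈ N
    rw [map_mul, map_mul, map_inv]
    exact hn _ (toGL_mem g) _ hn'
  rcases normal_SL three (N.comap (toGL (n := Fin 4) (R := K5))) with h | h
  · left
    apply le_antisymm hN
    rw [LL_eq]
    rintro _ ⟨M, rfl⟩
    have : M ∈ N.comap (toGL (n := Fin 4) (R := K5)) := by rw [h]; trivial
    exact this
  · right
    intro n hn'
    rw [Subgroup.mem_centralizer_iff]
    intro l hl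
    have hn2 := hN hn'
    have hl' : l ∈ LL := hl
    rw [LL_eq] at hn2 hl'
    obtain ⟨M, rfl⟩ := hn2
    obtain ⟨M', rfl⟩ := hl'
    have hc := h (show M ∈ N.comap (toGL (n := Fin 4) (R := K5)) from hn')
    rw [← map_mul, ← map_mul, Subgroup.mem_center_iff.mp hc M']

/-- The group generated by the reflection. -/
def AA : Subgroup G5 := Subgroup.zpowers rA

theorem card_AA : Nat.card AA = 4 := by
  rw [AA, Nat.card_zpowers, order_rA]

theorem mem_AA {x : G5} (hx : x ∈ AA) : x = 1 ∨ x = rA ∨ x = rA ^ 2 ∨ x = rA ^ 3 := by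
  obtain ⟨k, rfl⟩ := hx
  have h : rA ^ k = rA ^ (k % 4) := by
    have := zpow_mod_orderOf rA k
    rw [order_rA] at this
    exact this.symm
  have h1 := Int.emod_nonneg k (show (4 : ℤ) ≠ 0 by norm_num)
  have h2 := Int.emod_lt_of_pos k (show (0 : ℤ) < 4 by norm_num)
  simp only [h]
  have h3 : k % 4 = 0 ∨ k % 4 = 1 ∨ k % 4 = 2 ∨ k % 4 = 3 := by omega
  rcases h3 with h3 | h3 | h3 | h3 <;> rw [h3]
  · left; simp
  · right; left; simp
  · right; right; left; norm_cast
  · right; right; right; norm_cast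

theorem comm_of_comm_sq {g : G5} (h : g * rA ^ 2 = rA ^ 2 * g) : g * rA = rA * g := by
  have h1 := congrArg (fun u : G5 => (u : Matrix (Fin 4) (Fin 4) K5)) h
  simp only [Units.val_mul] at h1
  have e2 : ((rA ^ 2 : G5) : Matrix (Fin 4) (Fin 4) K5) = diagonal ![1, 1, 1, 4] := by
    decide
  rw [e2] at h1
  apply Units.ext
  rw [Units.val_mul, Units.val_mul]
  have e1 : ((rA : G5) : Matrix (Fin 4) (Fin 4) K5) = diagonal ![1, 1, 1, 2] := rfl
  rw [e1]
  ext i j
  have hij := congrFun (congrFun h1 i) j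
  rw [Matrix.mul_diagonal, Matrix.diagonal_mul] at hij ⊢
  generalize (g : Matrix (Fin 4) (Fin 4) K5) i j = z at hij ⊢
  revert hij
  revert z i j
  decide

theorem AA_TI (g : G5) : (∀ x ∈ AA, g * x * g⁻¹ ∈ AA → x = 1) ∨ (∀ x ∈ AA, g * x * g⁻¹ ∈ AA) := by
  by_cases h : ∀ x ∈ AA, g * x * g⁻¹ ∈ AA → x = 1
  · left; exact h
  · right
    push Not at h
    obtain ⟨x, hx, hgx, hne⟩ := h
    have key : g * rA ^ 2 * g⁻¹ = rA ^ 2 := by
      have hsq : ∀ z ∈ AA, z ≠ 1 → z ^ 2 = rA ^ 2 ∨ z = rA ^ 2 := by
        intro z hz hz1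
        rcases mem_AA hz with h | h | h | h
        · exact absurd h hz1
        · left; rw [h]
        · right; exact h
        · left
          rw [h, ← pow_mul, show 3 * 2 = 4 + 2 from rfl, pow_add, rA_pow4, one_mul]
      have hmem : g * rA ^ 2 * g⁻¹ ∈ AA := by
        rcases hsq x hx hne with h | h
        · rw [← h]
          have := AA.mul_mem hgx hgx
          convert this using 1
          rw [pow_two]
          group
        · rw [← h]; exact hgx
      have hne' : g * rA ^ 2 * g⁻¹ ≠ 1 := by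
        intro h
        apply rA_pow2
        have : rA ^ 2 = g⁻¹ * (g * rA ^ 2 * g⁻¹) * g := by group
        rw [this, h]
        group
      rcases hsq _ hmem hne' with h | h
      · exfalso
        apply rA_pow2
        have h5 : (g * rA ^ 2 * g⁻¹) ^ 2 = g * rA ^ 4 * g⁻¹ := by
          rw [conj_pow, ← pow_mul]
        rw [h5, rA_pow4] at h
        rw [← h]
        group
      · exact h
    have hc : g * rA = rA * g := comm_of_comm_sq (mul_inv_eq_iff_eq_mul.mp key)
    rintro y ⟨k, rfl⟩
    have : Commute g (rA ^ k) := (show Commute g rA from hc).zpow_right k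
    simp only
    rw [this.eq, mul_inv_cancel_right]
    exact ⟨k, rfl⟩

theorem AA_inf : AA ⊓ (LL ⊔ Subgroup.centralizer (LL : Set G5)) = ⊥ := by
  rw [sup_eq_left.mpr centralizer_le, eq_bot_iff]
  rintro x ⟨hx, hx'⟩
  rw [Subgroup.mem_bot]
  have hd := mem_LL.mp hx'
  rcases mem_AA hx with h | h | h | h
  · exact h
  · exfalso
    rw [h] at hd
    revert hd
    decide
  · exfalso
    rw [h] at hd
    revert hd
    decide
  · exfalso
    rw [h] at hd
    revert hd
    decide

theorem AA_not_le : ¬ AA ≤ Subgroup.centralizer (LL : Set G5) := by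
  intro h
  have h1 : rA ∈ Subgroup.centralizer (LL : Set G5) := h (Subgroup.mem_zpowers rA)
  obtain ⟨c, hc⟩ := scalar_of_centralizer h1
  have h2 := congrFun (congrFun hc 0) 0
  have h3 := congrFun (congrFun hc 3) 3
  simp [rA] at h2 h3
  rw [← h2] at h3
  revert h3
  decide

theorem LL_ne_bot : LL ≠ ⊥ := by
  intro h
  have h1 : toGL (SpecialLinearGroup.transvection (show (0 : Fin 4) ≠ 1 by decide) (1 : K5)) ∈ LL := toGL_mem _
  rw [h, Subgroup.mem_bot] at h1
  have h2 := congrArg (fun u : G5 => (u : Matrix (Fin 4) (Fin 4) K5) 0 1) h1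
  simp [transvection_coe] at h2

theorem result :
    ¬ (∀ (G : Type) [Group G] [Finite G] (A L : Subgroup G),
      IsCyclic A → Nat.card A = 4 →
      (∀ g : G, (∀ x ∈ A, g * x * g⁻¹ ∈ A → x = 1) ∨ (∀ x ∈ A, g * x * g⁻¹ ∈ A)) →
      L ≠ ⊥ →
      ⁅L, L⁆ = L →
      (∀ N : Subgroup G, N ≤ L → (∀ l ∈ L, ∀ n ∈ N, l * n * l⁻¹ ∈ N) →
          N = L ∨ N ≤ Subgroup.centralizer (L : Set G)) →
      (∃ n : ℕ, ∃ H : ℕ → Subgroup G, H 0 = L ∧ H n = ⊤ ∧
          ∀ i < n, H i ≤ H (i + 1) ∧ ∀ x ∈ H (i + 1), ∀ y ∈ H i, x * y * x⁻¹ ∈ H i) →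
      A ⊓ (L ⊔ Subgroup.centralizer (L : Set G)) = ⊥ →
      A ≤ Subgroup.centralizer (L : Set G)) := by
  intro hall
  refine AA_not_le (hall G5 AA LL ?_ card_AA AA_TI LL_ne_bot LL_perfect LL_normal ?_ AA_inf)
  · exact Subgroup.isCyclic_zpowers rA
  · refine ⟨1, fun n => if n = 0 then LL else ⊤, by simp, by simp, ?_⟩
    intro i hi
    obtain rfl : i = 0 := by omega
    refine ⟨by simp, fun x _ y hy => ?_⟩
    simp only [if_true] at hy ⊢
    rw [mem_LL] at hy ⊢
    rw [Units.val_mul, Units.val_mul, Matrix.det_mul, Matrix.det_mul, hy, mul_one, ← Matrix.det_mul,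
      ← Units.val_mul, mul_inv_cancel, Units.val_one, Matrix.det_one]

end Pool.Agent.S02194
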