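import Pool.Statements.S02198
import Pool.Agent.Helper914.S5

set_option autoImplicit false
open Pool Pool.MP_debbfb_al

namespace Pool.Agent.S02198

/-- finite closures inside a `2`-torsion subgroup are nilpotent -/
theorem nilp {G : Type} [Group G] (A : Subgroup G) (hA : ∀ a ∈ A, ∃ k : ℕ, a ^ 2 ^ k = 1)
    (s : Finset G) (hs : (s : Set G) ⊆ (A : Set G)) (hf : Finite (Subgroup.closure (s : Set G))) :
    Group.IsNilpotent (Subgroup.closure (s : Set G)) := by
  have hle : Subgroup.closure (s : Set G) ≤ A := (Subgroup.closure_le A).2 hs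
  have h2 : Fact (Nat.Prime 2) := ⟨Nat.prime_two⟩
  have hp : IsPGroup 2 (Subgroup.closure (s : Set G)) := by
    rintro ⟨g, hg⟩
    obtain ⟨k, hk⟩ := hA g (hle hg)
    exact ⟨k, Subtype.ext hk⟩
  exact hp.isNilpotent

open Equiv Pool.Agent.Helper914.Tower Pool.Agent.Helper914.Wr in
/-- The negation of the preceding statement: If a group whose finitely generated subgroups are all finite equals AB for two subgroups A, B whose finitely generated subgroups are nilpotent, then every finitely generated subgroup of the group is solvable. -/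
theorem result' :
    ¬ (∀ (G : Type) [Group G],
      (∀ s : Finset G, Finite (Subgroup.closure (s : Set G))) →
      ∀ A B : Subgroup G,
        (∀ s : Finset G, (s : Set G) ⊆ (A : Set G) →
          Group.IsNilpotent (Subgroup.closure (s : Set G))) →
        (∀ s : Finset G, (s : Set G) ⊆ (B : Set G) →
          Group.IsNilpotent (Subgroup.closure (s : Set G))) →
        (∀ g : G, ∃ a ∈ A, ∃ b ∈ B, g = a * b) →
        ∀ s : Finset G, IsSolvable (Subgroup.closure (s : Set G))) := by
  intro H
  obtain ⟨l, hl⟩ := Pool.Agent.Helper914.S5.exists_program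
  obtain ⟨A, B, hA, hB, hM, hAB⟩ := GG_fact (n := 128) (N := 120) l hl
  obtain ⟨hA2, hB2⟩ := hM (Submonoid.powers 2) ⟨7, by norm_num⟩
  have hlf := GG_locally_finite (n := 128) (N := 120) (H := Perm (ZMod 5))
  classical
  let f : Perm (ZMod 5) →* GG 128 120 (Perm (ZMod 5)) :=
    (io 128 120).codRestrict (GG 128 120 (Perm (ZMod 5))) (fun x => ⟨0, ⟨x, rfl⟩⟩)
  have hfi : Function.Injective f := by
    intro x y hxy
    have : NeZero 120 := ⟨by norm_num⟩
    exact io_inj 128 120 (congrArg Subtype.val hxy)
  have key := H (GG 128 120 (Perm (ZMod 5))) hlf (A.subgroupOf _) (B.subgroupOf _) ?_ ?_ ?_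
    (Finset.univ.image f)
  · refine Pool.Agent.Helper914.S5.not_solvable ?_
    have key' : Group.IsSolvable (Subgroup.closure ((Finset.univ.image f :
        Finset (GG 128 120 (Perm (ZMod 5)))) : Set (GG 128 120 (Perm (ZMod 5))))) := key
    refine Group.isSolvable_of_isSolvable_injective
      (f := f.codRestrict (Subgroup.closure ((Finset.univ.image f : Finset _) : Set _))
        (fun x => Subgroup.subset_closure (by simp))) ?_
    intro x y hxy
    exact hfi (congrArg Subtype.val hxy)
  · intro s hs
    refine nilp _ ?_ s hs (hlf s)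
    rintro ⟨a, ha⟩ ha'
    obtain ⟨e, ⟨k, rfl⟩, h1⟩ := hA2 a ha'
    exact ⟨k, Subtype.ext h1⟩
  · intro s hs
    refine nilp _ ?_ s hs (hlf s)
    rintro ⟨a, ha⟩ ha'
    obtain ⟨e, ⟨k, rfl⟩, h1⟩ := hB2 a ha'
    exact ⟨k, Subtype.ext h1⟩
  · rintro ⟨g, hg⟩
    obtain ⟨a, ha, b, hb, hab⟩ := hAB g hg
    exact ⟨⟨a, hA ha⟩, ha, ⟨b, hB hb⟩, hb, Subtype.ext hab⟩

/-- The negation of the preceding statement: If a group whose finitely generated subgroups are all finite equals AB for two subgroups A, B whose finitely generated subgroups are nilpotent, then every finitely generated subgroup of the group is solvable. -/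
theorem result :
    ¬ (∀ (G : Type) [Group G],
      (∀ s : Finset G, Finite (Subgroup.closure (s : Set G))) →
      ∀ A B : Subgroup G,
        (∀ s : Finset G, (s : Set G) ⊆ (A : Set G) →
          Group.IsNilpotent (Subgroup.closure (s : Set G))) →
        (∀ s : Finset G, (s : Set G) ⊆ (B : Set G) →
          Group.IsNilpotent (Subgroup.closure (s : Set G))) →
        (∀ g : G, ∃ a ∈ A, ∃ b ∈ B, g = a * b) →
        ∀ s : Finset G, IsSolvable (Subgroup.closure (s : Set G))) :=
  result'

end Pool.Agent.S02198
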