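import Pool.Statements.S02202

set_option autoImplicit false
open Pool Pool.MP_df51bf_al

namespace Pool.Agent.S02202

/-- the homomorphism with `true ↦ 1`, `false ↦ 0` to `ℤ/2` -/
def phi : FreeGroup Bool →* Multiplicative (ZMod 2) :=
  FreeGroup.lift (fun i => if i = true then Multiplicative.ofAdd 1 else 1)

/-- the homomorphism with `true ↦ 0`, `false ↦ 1` to `ℤ` -/
def psi : FreeGroup Bool →* Multiplicative ℤ :=
  FreeGroup.lift (fun i => if i = true then 1 else Multiplicative.ofAdd 1)

section
open scoped commutatorElement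

theorem key {X : Type} [Group X] (T N : Subgroup X) [T.Normal] [N.Normal] (x : X)
    (hN : N = Subgroup.normalClosure {x ^ 2}) (hT : ∀ g : X, g ∈ T ∨ g * x⁻¹ ∈ T) :
    ⁅(⊤ : Subgroup X), N⁆ ≤ ⁅T, N⁆ := by
  set C := ⁅T, N⁆ with hC
  have hCn : C.Normal := by rw [hC]; infer_instance
  have hx2 : x ^ 2 ∈ N := by
    rw [hN]; exact Subgroup.subset_normalClosure rfl
  -- elements commuting with the image of x ^ 2
  have hT' : ∀ g ∈ T, (QuotientGroup.mk' C) g * (QuotientGroup.mk' C) (x ^ 2)
      = (QuotientGroup.mk' C) (x ^ 2) * (QuotientGroup.mk' C) g := by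
    intro g hg
    have h1 : ⁅g, x ^ 2⁆ ∈ C := Subgroup.commutator_mem_commutator hg hx2
    have h2 : (QuotientGroup.mk' C) ⁅g, x ^ 2⁆ = 1 := by
      rw [← MonoidHom.mem_ker, QuotientGroup.ker_mk']; exact h1
    rw [map_commutatorElement] at h2
    exact commutatorElement_eq_one_iff_mul_comm.mp h2
  have hcent : N ≤ (Subgroup.center (X ⧸ C)).comap (QuotientGroup.mk' C) := by
    rw [hN]
    apply Subgroup.normalClosure_le_normal
    intro z hz
    rw [Set.mem_singleton_iff] at hz
    subst hz
    rw [SetLike.mem_coe, Subgroup.mem_comap, Subgroup.mem_center_iff]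
    intro q
    obtain ⟨g, rfl⟩ := QuotientGroup.mk'_surjective C q
    rcases hT g with hg | hg
    · exact hT' g hg
    · have h3 := hT' _ hg
      have hxx : (QuotientGroup.mk' C) x * (QuotientGroup.mk' C) (x ^ 2)
          = (QuotientGroup.mk' C) (x ^ 2) * (QuotientGroup.mk' C) x := by
        rw [← map_mul, ← map_mul]
        congr 1
        group
      have hgx : (QuotientGroup.mk' C) g
          = (QuotientGroup.mk' C) (g * x⁻¹) * (QuotientGroup.mk' C) x := by
        rw [← map_mul]; simp
      rw [hgx, mul_assoc, hxx, ← mul_assoc, h3, mul_assoc]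
  rw [Subgroup.commutator_le]
  intro g _ n hn
  have h4 := hcent hn
  rw [Subgroup.mem_comap, Subgroup.mem_center_iff] at h4
  have h5 := h4 ((QuotientGroup.mk' C) g)
  have h6 : (QuotientGroup.mk' C) ⁅g, n⁆ = 1 := by
    rw [map_commutatorElement]
    exact commutatorElement_eq_one_iff_mul_comm.mpr h5
  rwa [← MonoidHom.mem_ker, QuotientGroup.ker_mk'] at h6

end

/-- The negation of the preceding statement: Take a free group X of rank at least 2, a nontrivial normal subgroup N that is not a maximal subgroup, and a proper subgroup T containing N. Then [T,N] is a proper subgroup of [X,N]. -/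
theorem result :
    ¬ (∀ (α : Type) (a b : α), a ≠ b →
      ∀ (N T : Subgroup (FreeGroup α)), N.Normal → N ≠ ⊥ → ¬ IsCoatom N →
        N ≤ T → T ≠ ⊤ →
          ⁅T, N⁆ < ⁅(⊤ : Subgroup (FreeGroup α)), N⁆) := by
  intro h
  set x : FreeGroup Bool := FreeGroup.of true with hx
  set y : FreeGroup Bool := FreeGroup.of false with hy
  have hphix : phi x = Multiplicative.ofAdd 1 := by simp [phi, hx]
  have hpsix : psi x = 1 := by simp [psi, hx]
  have hphiy : phi y = 1 := by simp [phi, hy]
  have hpsiy : psi y = Multiplicative.ofAdd 1 := by simp [psi, hy]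
  have h2 : (Multiplicative.ofAdd (1 : ZMod 2)) ^ 2 = 1 := by decide
  have hNT : Subgroup.normalClosure {x ^ 2} ≤ phi.ker := by
    apply Subgroup.normalClosure_le_normal
    intro z hz
    rw [Set.mem_singleton_iff] at hz
    subst hz
    rw [SetLike.mem_coe, MonoidHom.mem_ker, map_pow, hphix, h2]
  have hNpsi : Subgroup.normalClosure {x ^ 2} ≤ psi.ker := by
    apply Subgroup.normalClosure_le_normal
    intro z hz
    rw [Set.mem_singleton_iff] at hz
    subst hz
    rw [SetLike.mem_coe, MonoidHom.mem_ker, map_pow, hpsix, one_pow]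
  have hNbot : Subgroup.normalClosure {x ^ 2} ≠ ⊥ := by
    intro hb
    have h3 : x ^ 2 ∈ Subgroup.normalClosure {x ^ 2} := Subgroup.subset_normalClosure rfl
    rw [hb, Subgroup.mem_bot] at h3
    have h4 : (FreeGroup.lift (fun _ : Bool => Multiplicative.ofAdd (1 : ℤ))) (x ^ 2) = 1 := by
      rw [h3, map_one]
    rw [map_pow, hx, FreeGroup.lift_apply_of] at h4
    exact absurd h4 (by decide)
  have hTtop : phi.ker ≠ ⊤ := by
    intro ht
    have h3 : x ∈ phi.ker := by rw [ht]; trivial
    rw [MonoidHom.mem_ker, hphix] at h3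
    exact absurd h3 (by decide)
  have hyT : y ∈ phi.ker := by rw [MonoidHom.mem_ker, hphiy]
  have hyN : y ∉ Subgroup.normalClosure {x ^ 2} := by
    intro h3
    have h4 := hNpsi h3
    rw [MonoidHom.mem_ker, hpsiy] at h4
    exact absurd h4 (by decide)
  have hco : ¬ IsCoatom (Subgroup.normalClosure {x ^ 2}) := by
    intro hc
    have h3 : Subgroup.normalClosure {x ^ 2} < phi.ker := by
      refine lt_of_le_of_ne hNT ?_
      intro he
      apply hyN
      rw [he]; exact hyT
    exact hTtop (hc.2 _ h3)
  have hlt := h Bool true false (by decide) (Subgroup.normalClosure {x ^ 2}) phi.ker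
    inferInstance hNbot hco hNT hTtop
  refine absurd (key phi.ker (Subgroup.normalClosure {x ^ 2}) x rfl ?_) (not_le_of_gt hlt)
  intro g
  by_cases hg : phi g = 1
  · left; exact hg
  · right
    rw [MonoidHom.mem_ker, map_mul, map_inv, hphix]
    generalize phi g = t at hg
    revert t
    decide

end Pool.Agent.S02202
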