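import Pool.Statements.S02212
import Pool.Agent.Helper476.E0d

set_option autoImplicit false
open Pool Pool.MP_e00c87_al

namespace Pool.Agent.S02212

/-- The negation of the preceding statement: For any saturated formation F and finite soluble minimal non-F-group G whose F-residual is a Sylow p-subgroup, that residual is a homomorphic image of the Sylow p-subgroup of PSU(3,q) over the field of order q², q = p^n, for some n ≥ 1. -/
theorem result :
    ¬ (∀ (F : ∀ (H : Type) [Group H], Prop),
    (∀ (H K : Type) [Group H] [Group K] [Finite H] (f : H →* K),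
        Function.Surjective f → F H → F K) →
    (∀ (H K₁ K₂ : Type) [Group H] [Group K₁] [Group K₂] [Finite H]
        (f₁ : H →* K₁) (f₂ : H →* K₂),
        Function.Surjective f₁ → Function.Surjective f₂ → F K₁ → F K₂ →
        F ↥(f₁.prod f₂).range) →
    (∀ (H K : Type) [Group H] [Group K] [Finite H] (f : H →* K),
        Function.Surjective f → (∀ M : Subgroup H, IsCoatom M → f.ker ≤ M) →
        F K → F H) →
    ∀ (G : Type) [Group G] [Finite G],
      IsSolvable G → ¬ F G → (∀ K : Subgroup G, K ≠ ⊤ → F ↥K) →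
      ∀ (p : ℕ) [Fact p.Prime] (R : Subgroup G),
        R = sInf {K : Subgroup G | ∃ (H : Type) (_ : Group H) (_ : Finite H),
              F H ∧ ∃ f : G →* H, Function.Surjective f ∧ f.ker = K} →
        (∃ P : Sylow p G, (P : Subgroup G) = R) →
        ∃ n : ℕ, 0 < n ∧
          ∃ φ : GaloisField p (2 * n) × GaloisField p (2 * n) → G,
            (∀ x : GaloisField p (2 * n) × GaloisField p (2 * n),
                x.2 + x.2 ^ (p ^ n) + x.1 ^ (p ^ n + 1) = 0 → φ x ∈ R) ∧
            (∀ g ∈ R, ∃ x : GaloisField p (2 * n) × GaloisField p (2 * n),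
                x.2 + x.2 ^ (p ^ n) + x.1 ^ (p ^ n + 1) = 0 ∧ φ x = g) ∧
            (∀ x y : GaloisField p (2 * n) × GaloisField p (2 * n),
                x.2 + x.2 ^ (p ^ n) + x.1 ^ (p ^ n + 1) = 0 →
                y.2 + y.2 ^ (p ^ n) + y.1 ^ (p ^ n + 1) = 0 →
                φ (x.1 + y.1, x.2 + y.2 - x.1 * y.1 ^ (p ^ n)) = φ x * φ y)) := by
  intro hall
  open Pool.Agent.Helper476.E0 SemidirectProduct in
  have hker : (inl : P →* Pool.Agent.Helper476.E0.G).range ≠ ⊥ := by
    intro h
    have h1 : (inl i1 : Pool.Agent.Helper476.E0.G) ∈ (inl : P →* Pool.Agent.Helper476.E0.G).range :=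
      ⟨i1, rfl⟩
    rw [h, Subgroup.mem_bot, ← map_one (inl : P →* Pool.Agent.Helper476.E0.G)] at h1
    have h2 := inl_injective h1
    revert h2
    decide
  open Pool.Agent.Helper476.E0 SemidirectProduct in
  have hnot : ¬ NF Pool.Agent.Helper476.E0.G := by
    intro h
    apply hker
    rw [eq_bot_iff]
    rintro _ ⟨p, rfl⟩
    have := key _ (MonoidHom.id Pool.Agent.Helper476.E0.G) Function.surjective_id h p
    exact this
  open Pool.Agent.Helper476.E0 SemidirectProduct in
  have hres : (inl : P →* Pool.Agent.Helper476.E0.G).range =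
      sInf {K : Subgroup Pool.Agent.Helper476.E0.G | ∃ (H : Type) (_ : Group H) (_ : Finite H),
              NF H ∧ ∃ f : Pool.Agent.Helper476.E0.G →* H, Function.Surjective f ∧ f.ker = K} := by
    apply le_antisymm
    · apply le_sInf
      rintro K ⟨H, iH, fH, hF, f, hf, rfl⟩
      rintro _ ⟨p, rfl⟩
      exact key H f hf hF p
    · apply sInf_le
      refine ⟨Multiplicative (ZMod 9), inferInstance, inferInstance,
        ⟨⊤, inferInstance, ?_, fun x => trivial⟩, rightHom, rightHom_surjective, ?_⟩
      · rw [Group.isNilpotent_top]; infer_instance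
      · rw [range_inl_eq_ker_rightHom]
  open Pool.Agent.Helper476.E0 SemidirectProduct in
  have hsyl : ∃ P2 : Sylow 2 Pool.Agent.Helper476.E0.G,
      (P2 : Subgroup Pool.Agent.Helper476.E0.G) = (inl : P →* Pool.Agent.Helper476.E0.G).range := by
    refine ⟨ker_pgroup.toSylow ?_, rfl⟩
    rw [range_inl_eq_ker_rightHom, Subgroup.index_ker, MonoidHom.range_eq_top.2 rightHom_surjective,
      Nat.card_congr Subgroup.topEquiv.toEquiv, Nat.card_eq_fintype_card]
    decide
  obtain ⟨n, hn, f, h1, h2, h3⟩ := hall Pool.Agent.Helper476.E0.NF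
    Pool.Agent.Helper476.E0.nf_surj
    (fun H K₁ K₂ _ _ _ _ f₁ f₂ _ _ a b => Pool.Agent.Helper476.E0.nf_sub H K₁ K₂ f₁ f₂ a b)
    Pool.Agent.Helper476.E0.nf_sat Pool.Agent.Helper476.E0.G
    Pool.Agent.Helper476.E0.G_solvable hnot Pool.Agent.Helper476.E0.sub_nf 2 _ hres hsyl
  exact Pool.Agent.Helper476.E0.no_phi (GaloisField 2 (2 * n)) n hn
    (GaloisField.card 2 (2 * n) (by omega)) f _ rfl h1 h2 h3

end Pool.Agent.S02212
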