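import Pool.Statements.S02214
import Pool.Agent.Helper912.FCGroup
import Pool.Agent.Helper912.FCModel

set_option autoImplicit false
open Pool Pool.MP_e032dc_al

namespace Pool.Agent.S02214

/-- The negation of the preceding statement: Let G be a transitive p-group of finitarily supported permutations of an infinite set, with every finite set inside a finite block and every cycle support a block. Then G has a subgroup that is not FC but all of whose proper subgroups are FC. -/
theorem result :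
    ¬ (∀ (Ω : Type) [Infinite Ω] (p : ℕ), p.Prime →
      ∀ G : Subgroup (Equiv.Perm Ω),
        (∀ g ∈ G, {x : Ω | g x ≠ x}.Finite) →
        (∀ g ∈ G, ∃ n : ℕ, g ^ (p ^ n) = 1) →
        (∀ x y : Ω, ∃ g ∈ G, g x = y) →
        (∀ F : Set Ω, F.Finite → ∃ B : Set Ω, F ⊆ B ∧ B.Finite ∧
            ∀ h ∈ G, (⇑h '' B = B ∨ Disjoint (⇑h '' B) B)) →
        (∀ g ∈ G, ∀ x : Ω, ∀ h ∈ G,
            (⇑h '' Set.range (fun n : ℤ => (g ^ n) x) = Set.range (fun n : ℤ => (g ^ n) x) ∨
             Disjoint (⇑h '' Set.range (fun n : ℤ => (g ^ n) x))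
               (Set.range (fun n : ℤ => (g ^ n) x)))) →
        ∃ H : Subgroup (Equiv.Perm Ω), H ≤ G ∧
          ¬ (∀ a ∈ H, {b : Equiv.Perm Ω | ∃ c ∈ H, b = c * a * c⁻¹}.Finite) ∧
          ∀ K : Subgroup (Equiv.Perm Ω), K < H →
            ∀ a ∈ K, {b : Equiv.Perm Ω | ∃ c ∈ K, b = c * a * c⁻¹}.Finite) := by
  intro hall
  have hA := Pool.Agent.Helper912.FC.PA_pru
  have := hA.infinite
  obtain ⟨H, hHG, hnFC, hmin⟩ := hall Pool.Agent.Helper912.FC.PA 2 Nat.prime_two
    (Pool.Agent.Helper912.FC.GG Pool.Agent.Helper912.FC.PA)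
    (fun g hg => hg.1)
    (fun g hg => Pool.Agent.Helper912.FC.GG.two_pow hA hg)
    (fun x y => Pool.Agent.Helper912.FC.GG.transitive hA x y)
    (by
      intro F hF
      obtain ⟨n, hn⟩ := hA.finite_sub hF
      refine ⟨{y | y - 0 ∈ (Pool.Agent.Helper912.FC.D n : AddSubgroup Pool.Agent.Helper912.FC.PA)}, ?_, ?_, ?_⟩
      · intro x hx
        simpa using hn x hx
      · simpa using hA.finite_D n
      · intro h hh
        exact Pool.Agent.Helper912.FC.block_D hh n 0)
    (by
      intro g hg x h hh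
      obtain ⟨j, hj, _⟩ := Pool.Agent.Helper912.FC.cycle_eq hA hg x
      rw [hj]
      exact Pool.Agent.Helper912.FC.block_D hh j x)
  have htr := Pool.Agent.Helper912.FC.trans_of_not_FC hA hHG hnFC
  obtain ⟨K, hK, hKtr⟩ := Pool.Agent.Helper912.FC.exists_proper hA hHG htr
  exact Pool.Agent.Helper912.FC.not_FC_of_trans hA (le_trans hK.le hHG) hKtr (hmin K hK)

end Pool.Agent.S02214
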