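import Pool.Statements.S02216
import Pool.Agent.Helper385.Char2

set_option autoImplicit false
open Pool Pool.MP_e05a1e_al

namespace Pool.Agent.S02216

open Matrix

/-- the word `[x,y]²[x⁻¹,y⁻¹]²` -/
def wd : FreeGroup (Fin 2) :=
  (FreeGroup.of 0 * FreeGroup.of 1 * (FreeGroup.of 0)⁻¹ * (FreeGroup.of 1)⁻¹) ^ 2 *
    ((FreeGroup.of 0)⁻¹ * (FreeGroup.of 1)⁻¹ * FreeGroup.of 0 * FreeGroup.of 1) ^ 2

/-- its reduced form -/
def lst : List (Fin 2 × Bool) :=
  [(0, true), (1, true), (0, false), (1, false), (0, true), (1, true), (0, false), (1, false),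
   (0, false), (1, false), (0, true), (1, true), (0, false), (1, false), (0, true), (1, true)]

theorem wd_toWord : wd.toWord = lst := by
  have h : wd = FreeGroup.mk lst := by rfl
  rw [h, FreeGroup.toWord_mk]
  decide

theorem wd_ne_one : wd ≠ 1 := by
  intro h
  have := wd_toWord
  rw [h, FreeGroup.toWord_one] at this
  simp [lst] at this

theorem wd_not_power (v : FreeGroup (Fin 2)) (k : ℕ) (hk : 2 ≤ k) : wd ≠ v ^ k := by
  intro h
  have h1 := wd_toWord
  rw [h, FreeGroup.toWord_pow,
    FreeGroup.reduceCyclically.reduce_flatten_replicate FreeGroup.isReduced_toWord] at h1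
  rw [if_neg (by omega)] at h1
  set C := FreeGroup.reduceCyclically.conjugator v.toWord
  set R := FreeGroup.reduceCyclically v.toWord
  have hC : C = [] := by
    rcases hC : C with _ | ⟨c, C'⟩
    · rfl
    · exfalso
      rw [hC] at h1
      have h2 := congrArg List.head? h1
      have h3 : lst.getLast? = some (c.1, !c.2) := by
        rw [← h1, FreeGroup.invRev, List.map_cons, List.reverse_cons, ← List.append_assoc,
          List.getLast?_concat]
      simp [lst] at h2 h3
      rw [h2] at h3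
      simp at h3
  rw [hC] at h1
  simp only [List.nil_append, FreeGroup.invRev, List.map_nil, List.reverse_nil,
    List.append_nil] at h1
  have hlen := congrArg List.length h1
  rw [List.length_flatten, List.map_replicate, List.sum_replicate] at hlen
  have hl16 : lst.length = 16 := rfl
  rw [hl16, smul_eq_mul] at hlen
  have hkd : k ∣ 16 := ⟨R.length, hlen.symm⟩
  have hk16 : k ≤ 16 := Nat.le_of_dvd (by norm_num) hkd
  have hR : R = lst.take R.length := by
    rw [← h1]
    obtain ⟨k', rfl⟩ : ∃ k', k = k' + 1 := ⟨k - 1, by omega⟩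
    rw [List.replicate_succ, List.flatten_cons, List.take_left']
    rfl
  interval_cases k
  · have : R.length = 8 := by omega
    rw [this] at hR
    rw [hR] at h1
    revert h1; decide
  all_goals first
    | (exfalso; revert hkd; decide)
    | skip
  · have : R.length = 4 := by omega
    rw [this] at hR
    rw [hR] at h1
    revert h1; decide
  · have : R.length = 2 := by omega
    rw [this] at hR
    rw [hR] at h1
    revert h1; decide
  · have : R.length = 1 := by omega
    rw [this] at hR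
    rw [hR] at h1
    revert h1; decide

section Main

variable (K : Type) [Field K]

/-- `SL₂(K)` inside `GL₂(K)` -/
def HH : Subgroup (GL (Fin 2) K) :=
  (Matrix.SpecialLinearGroup.toGL : SpecialLinearGroup (Fin 2) K →* GL (Fin 2) K).range

theorem mem_HH (g : GL (Fin 2) K) : g ∈ HH K ↔
    (g : Matrix (Fin 2) (Fin 2) K) 0 0 * (g : Matrix (Fin 2) (Fin 2) K) 1 1 -
      (g : Matrix (Fin 2) (Fin 2) K) 0 1 * (g : Matrix (Fin 2) (Fin 2) K) 1 0 = 1 := by
  constructor
  · rintro ⟨A, rfl⟩
    have := A.det_coe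
    rwa [Matrix.det_fin_two] at this
  · intro h
    refine ⟨⟨(g : Matrix (Fin 2) (Fin 2) K), by rw [Matrix.det_fin_two]; exact h⟩, ?_⟩
    apply Units.ext
    rfl

theorem closed_HH : ∃ S : Set (MvPolynomial (Fin 2 × Fin 2) K), ∀ g : GL (Fin 2) K,
    g ∈ HH K ↔ ∀ p ∈ S, MvPolynomial.eval
      (fun ij : Fin 2 × Fin 2 => (↑g : Matrix (Fin 2) (Fin 2) K) ij.1 ij.2) p = 0 := by
  refine ⟨{MvPolynomial.X (0, 0) * MvPolynomial.X (1, 1) -
    MvPolynomial.X (0, 1) * MvPolynomial.X (1, 0) - 1}, ?_⟩
  intro g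
  rw [mem_HH]
  simp [sub_eq_zero]

theorem irred_HH [Infinite K] (p q : MvPolynomial (Fin 2 × Fin 2) K)
    (hpq : ∀ g ∈ HH K, MvPolynomial.eval
      (fun ij : Fin 2 × Fin 2 => (↑g : Matrix (Fin 2) (Fin 2) K) ij.1 ij.2) (p * q) = 0) :
    (∀ g ∈ HH K, MvPolynomial.eval
      (fun ij : Fin 2 × Fin 2 => (↑g : Matrix (Fin 2) (Fin 2) K) ij.1 ij.2) p = 0) ∨
    (∀ g ∈ HH K, MvPolynomial.eval
      (fun ij : Fin 2 × Fin 2 => (↑g : Matrix (Fin 2) (Fin 2) K) ij.1 ij.2) q = 0) := by
  let Φ : MvPolynomial (Fin 2 × Fin 2) K →ₐ[K] MvPolynomial (Fin 4) K :=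
    MvPolynomial.aeval (fun ij => Pool.Agent.Helper385.Char2.parP K ij.1 ij.2)
  have hΦ : ∀ (r : MvPolynomial (Fin 2 × Fin 2) K) (v : Fin 4 → K),
      MvPolynomial.aeval v (Φ r) =
        MvPolynomial.aeval (fun ij : Fin 2 × Fin 2 =>
          Pool.Agent.Helper385.Char2.par v ij.1 ij.2) r := by
    intro r v
    have := MvPolynomial.comp_aeval_apply (σ := Fin 2 × Fin 2)
      (fun ij => Pool.Agent.Helper385.Char2.parP K ij.1 ij.2) (MvPolynomial.aeval v) r
    rw [this]
    congr 2
    funext ij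
    exact Pool.Agent.Helper385.Char2.eval_parP v ij.1 ij.2
  have hsurj : ∀ g ∈ HH K, ∃ v : Fin 4 → K, Pool.Agent.Helper385.Char2.par v =
      fun i j => (↑g : Matrix (Fin 2) (Fin 2) K) i j := by
    intro g hg
    rw [mem_HH] at hg
    obtain ⟨v, hv⟩ := Pool.Agent.Helper385.Char2.par_surj _ _ _ _ hg
    refine ⟨v, ?_⟩
    rw [hv]
    funext i j
    fin_cases i <;> fin_cases j <;> rfl
  have hmem : ∀ v : Fin 4 → K, ∃ g ∈ HH K, Pool.Agent.Helper385.Char2.par v =
      fun i j => (↑g : Matrix (Fin 2) (Fin 2) K) i j := by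
    intro v
    refine ⟨Matrix.SpecialLinearGroup.toGL ⟨Matrix.of (Pool.Agent.Helper385.Char2.par v), by
      rw [Matrix.det_fin_two]; exact Pool.Agent.Helper385.Char2.par_det v⟩, ⟨_, rfl⟩, rfl⟩
  have h0 : Φ p * Φ q = 0 := by
    rw [← map_mul]
    apply MvPolynomial.funext
    intro v
    obtain ⟨g, hg, hgv⟩ := hmem v
    have h1 := hpq g hg
    have h2 := hΦ (p * q) v
    rw [hgv] at h2
    rw [map_zero]
    exact h2.trans h1
  rcases mul_eq_zero.mp h0 with h | h
  · left
    intro g hg
    obtain ⟨v, hv⟩ := hsurj g hg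
    have h2 := hΦ p v
    rw [h, map_zero, hv] at h2
    exact h2.symm
  · right
    intro g hg
    obtain ⟨v, hv⟩ := hsurj g hg
    have h2 := hΦ q v
    rw [h, map_zero, hv] at h2
    exact h2.symm

/-- the isomorphism of `SL₂` with its image -/
noncomputable def iso : SpecialLinearGroup (Fin 2) K ≃* HH K :=
  MonoidHom.ofInjective Matrix.SpecialLinearGroup.toGL_injective

theorem simple_HH [IsAlgClosed K] [CharP K 2] : IsSimpleGroup (HH K) := by
  have : IsSimpleGroup (SpecialLinearGroup (Fin 2) K) := Pool.Agent.Helper385.Char2.simple_SL2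
  exact (iso K).symm.isSimpleGroup

end Main


/-- The negation of the preceding statement: For every algebraically closed K and every Zariski-closed irreducible subgroup of GL_n(K) that is simple as an abstract group, every word map from a word that is nontrivial and not a proper power is surjective. -/
theorem result :
    ¬ (∀ (K : Type) [Field K] [IsAlgClosed K] (n : ℕ) (H : Subgroup (GL (Fin n) K)),
      (∃ S : Set (MvPolynomial (Fin n × Fin n) K), ∀ g : GL (Fin n) K,
        g ∈ H ↔ ∀ p ∈ S,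
          MvPolynomial.eval (fun ij : Fin n × Fin n => (↑g : Matrix (Fin n) (Fin n) K) ij.1 ij.2) p = 0) →
      (∀ p q : MvPolynomial (Fin n × Fin n) K,
        (∀ g ∈ H, MvPolynomial.eval
            (fun ij : Fin n × Fin n => (↑g : Matrix (Fin n) (Fin n) K) ij.1 ij.2) (p * q) = 0) →
        (∀ g ∈ H, MvPolynomial.eval
            (fun ij : Fin n × Fin n => (↑g : Matrix (Fin n) (Fin n) K) ij.1 ij.2) p = 0) ∨
        (∀ g ∈ H, MvPolynomial.eval
            (fun ij : Fin n × Fin n => (↑g : Matrix (Fin n) (Fin n) K) ij.1 ij.2) q = 0)) →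
      IsSimpleGroup H →
      ∀ (d : ℕ) (w : FreeGroup (Fin d)), w ≠ 1 →
        (∀ (v : FreeGroup (Fin d)) (k : ℕ), 2 ≤ k → w ≠ v ^ k) →
        ∀ h : H, ∃ x : Fin d → H, FreeGroup.lift x w = h) := by
  intro hall
  let K : Type := AlgebraicClosure (ZMod 2)
  have : Fact (Nat.Prime 2) := ⟨Nat.prime_two⟩
  have hchar : CharP K 2 := charP_of_injective_algebraMap
    (algebraMap (ZMod 2) (AlgebraicClosure (ZMod 2))).injective 2
  have hinf : Infinite K := IsAlgClosed.instInfinite
  let h0 : SpecialLinearGroup (Fin 2) K := ⟨!![1, 1; 0, 1], by simp [Matrix.det_fin_two_of]⟩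
  obtain ⟨x, hx⟩ := hall K 2 (HH K) (closed_HH K) (irred_HH K) (simple_HH K) 2 wd wd_ne_one
    (fun v k hk => wd_not_power v k hk) (iso K h0)
  have h1 := congrArg (iso K).symm hx
  rw [MulEquiv.symm_apply_apply] at h1
  have h2 := Pool.Agent.Helper385.PSL2.map_lift (iso K).symm.toMonoidHom x wd
  change (iso K).symm (FreeGroup.lift x wd) = _ at h2
  rw [h1] at h2
  refine Pool.Agent.Helper385.Char2.word_ne ((iso K).symm (x 0)) ((iso K).symm (x 1)) h0 ?_ ?_ ?_
  · intro h
    have := congrArg (fun A : SpecialLinearGroup (Fin 2) K => A 0 1) h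
    simp [h0] at this
  · have : (h0 : Matrix (Fin 2) (Fin 2) K).trace = 2 := by
      rw [Matrix.trace_fin_two]
      change (1 : K) + 1 = 2
      norm_num
    rw [this]
    exact CharTwo.two_eq_zero
  · rw [h2]
    simp [wd]

end Pool.Agent.S02216
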