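import Pool.Statements.S02228
import Pool.Agent.Helper429.IR.Abs
import Pool.Agent.Helper429.IR.Wit

set_option autoImplicit false
open Pool Pool.MP_e13a39_al

namespace Pool.Agent.S02228

/-- The negation of the preceding statement: Every group variety (as a fully invariant subgroup of laws in the countable free group) is an irredundant join of varieties, none of which is the join of two proper subvarieties. -/
theorem result :
    ¬ (∀ A : Subgroup (FreeGroup ℕ),
      (∀ φ : FreeGroup ℕ →* FreeGroup ℕ, ∀ w ∈ A, φ w ∈ A) →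
      ∃ S : Set (Subgroup (FreeGroup ℕ)),
        (∀ N ∈ S, ∀ φ : FreeGroup ℕ →* FreeGroup ℕ, ∀ w ∈ N, φ w ∈ N) ∧
        sInf S = A ∧
        (∀ N ∈ S, sInf (S \ {N}) ≠ A) ∧
        (∀ N ∈ S, ¬ ∃ M₁ M₂ : Subgroup (FreeGroup ℕ),
            (∀ φ : FreeGroup ℕ →* FreeGroup ℕ, ∀ w ∈ M₁, φ w ∈ M₁) ∧
            (∀ φ : FreeGroup ℕ →* FreeGroup ℕ, ∀ w ∈ M₂, φ w ∈ M₂) ∧
            N < M₁ ∧ N < M₂ ∧ M₁ ⊓ M₂ = N)) :=
  Pool.Agent.Helper429.IR.abstract Pool.Agent.Helper429.IR.HW Pool.Agent.Helper429.IR.WW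
    Pool.Agent.Helper429.IR.WW_laws Pool.Agent.Helper429.IR.WW_not_law

end Pool.Agent.S02228
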