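import Pool.Statements.S02236

set_option autoImplicit false
open scoped Pointwise
open Pool Pool.MP_e18f8a_al

namespace Pool.Agent.S02236

/-- The group `ℤ × ZMod (N+1)`, written multiplicatively. -/
abbrev Gr (N : ℕ) : Type := Multiplicative (ℤ × ZMod (N + 1))

/-- the element at level `k` with second coordinate `h`. -/
def el (N : ℕ) (k : ℤ) (h : ZMod (N + 1)) : Gr N := Multiplicative.ofAdd (k, h)

/-- the level of an element. -/
def lev (N : ℕ) (x : Gr N) : ℤ := (Multiplicative.toAdd x).1

theorem lev_mul (N : ℕ) (x y : Gr N) : lev N (x * y) = lev N x + lev N y := rfl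

theorem lev_one (N : ℕ) : lev N 1 = 0 := rfl

theorem el_mul (N : ℕ) (k l : ℤ) (h g : ZMod (N + 1)) :
    el N k h * el N l g = el N (k + l) (h + g) := rfl

theorem el_inv (N : ℕ) (k : ℤ) (h : ZMod (N + 1)) : (el N k h)⁻¹ = el N (-k) (-h) := rfl

theorem el_lev (N : ℕ) (x : Gr N) : x = el N (lev N x) (Multiplicative.toAdd x).2 := rfl

theorem el_inj (N : ℕ) (k : ℤ) (h g : ZMod (N + 1)) (e : el N k h = el N k g) : h = g := by
  have := congrArg (fun x : Gr N => (Multiplicative.toAdd x).2) e
  exact this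

/-- the set `{1} ∪ xH ∪ x⁻¹H`. -/
noncomputable def A (N : ℕ) : Finset (Gr N) := by
  classical
  exact insert 1 ((Finset.univ.image (fun h : ZMod (N + 1) => el N 1 h)) ∪
    (Finset.univ.image (fun h : ZMod (N + 1) => el N (-1) h)))

theorem mem_A (N : ℕ) (x : Gr N) : x ∈ A N ↔ x = 1 ∨ lev N x = 1 ∨ lev N x = -1 := by
  classical
  unfold A
  simp only [Finset.mem_insert, Finset.mem_union, Finset.mem_image, Finset.mem_univ, true_and]
  constructor
  · rintro (h | ⟨h, rfl⟩ | ⟨h, rfl⟩)
    · exact Or.inl h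
    · exact Or.inr (Or.inl rfl)
    · exact Or.inr (Or.inr rfl)
  · rintro (h | h | h)
    · exact Or.inl h
    · refine Or.inr (Or.inl ⟨(Multiplicative.toAdd x).2, ?_⟩)
      conv_rhs => rw [el_lev N x, h]
    · refine Or.inr (Or.inr ⟨(Multiplicative.toAdd x).2, ?_⟩)
      conv_rhs => rw [el_lev N x, h]

theorem card_A (N : ℕ) : N + 1 ≤ (A N).card := by
  classical
  have h1 : (Finset.univ.image (fun h : ZMod (N + 1) => el N 1 h)) ⊆ A N := by
    intro x hx
    obtain ⟨h, -, rfl⟩ := Finset.mem_image.mp hx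
    exact (mem_A N _).2 (Or.inr (Or.inl rfl))
  have h2 := Finset.card_le_card h1
  rw [Finset.card_image_of_injective _ (fun a b e => el_inj N 1 a b e)] at h2
  simpa [ZMod.card] using h2

theorem abs_lev (N : ℕ) (x : Gr N) (hx : x ∈ A N) : -1 ≤ lev N x ∧ lev N x ≤ 1 := by
  rcases (mem_A N x).1 hx with h | h | h
  · subst h; simp [lev_one]
  · omega
  · omega

theorem approx (N : ℕ) : IsApproximateSubgroup (3 : ℝ) (A N : Set (Gr N)) := by
  classical
  refine ⟨?_, ?_, ?_⟩
  · exact (mem_A N 1).2 (Or.inl rfl)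
  · ext x
    rw [Set.mem_inv]
    simp only [Finset.mem_coe, mem_A]
    have hl : lev N x⁻¹ = - lev N x := rfl
    rw [hl, inv_eq_one]
    constructor
    · rintro (h | h | h)
      · exact Or.inl h
      · right; right; omega
      · right; left; omega
    · rintro (h | h | h)
      · exact Or.inl h
      · right; right; omega
      · right; left; omega
  · refine ⟨{1, el N 1 0, el N (-1) 0}, ?_, ?_⟩
    · have : ({1, el N 1 0, el N (-1) 0} : Finset (Gr N)).card ≤ 3 := Finset.card_le_three
      exact_mod_cast this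
    · intro y hy
      rw [pow_two, Set.mem_mul] at hy
      obtain ⟨a, ha, b, hb, rfl⟩ := hy
      rw [Set.mem_smul]
      have hla := abs_lev N a ha
      have hlb := abs_lev N b hb
      have key : ∀ k : ℤ, (k = 1 ∨ k = -1) → lev N a = k → (lev N b = 1 ∨ lev N b = -1) →
          ∃ u ∈ (({1, el N 1 0, el N (-1) 0} : Finset (Gr N)) : Set (Gr N)),
            ∃ v ∈ (A N : Set (Gr N)), u • v = a * b := by
        intro k hk hak hb1
        refine ⟨el N k 0, ?_, (el N k 0)⁻¹ * (a * b), ?_, ?_⟩
        · rcases hk with hk | hk <;> simp [hk]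
        · refine (mem_A N _).2 (Or.inr ?_)
          have hl : lev N (el N k 0)⁻¹ = -k := rfl
          rw [lev_mul, lev_mul, hl, hak]
          rcases hb1 with h | h
          · left; omega
          · right; omega
        · rw [smul_eq_mul, mul_inv_cancel_left]
      rcases (mem_A N a).1 ha with h1 | h1
      · exact ⟨1, by simp, b, hb, by simp [h1]⟩
      · rcases (mem_A N b).1 hb with h2 | h2
        · exact ⟨1, by simp, a, ha, by simp [h2]⟩
        · rcases h1 with h1 | h1
          · exact key 1 (Or.inl rfl) h1 h2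
          · exact key (-1) (Or.inr rfl) h1 h2

theorem lev_pow (N : ℕ) (x : Gr N) (n : ℕ) : lev N (x ^ n) = n * lev N x := by
  induction n with
  | zero => simp [lev_one]
  | succ n ih => rw [pow_succ, lev_mul, ih]; push_cast; ring

theorem lev_pow_A (N : ℕ) (inst : DecidableEq (Gr N)) (n : ℕ) :
    ∀ x : Gr N, x ∈ (A N) ^ n → -(n : ℤ) ≤ lev N x ∧ lev N x ≤ n := by
  induction n with
  | zero =>
    intro x hx
    rw [pow_zero, Finset.mem_one] at hx
    subst hx; simp [lev_one]
  | succ n ih =>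
    intro x hx
    rw [pow_succ, Finset.mem_mul] at hx
    obtain ⟨y, hy, z, hz, rfl⟩ := hx
    have h1 := ih y hy
    have h2 := abs_lev N z hz
    rw [lev_mul]; push_cast
    constructor <;> omega

/-- The negation of the preceding statement: There are absolute constants c, C > 0 such that every finite K-approximate group A in any group contains a subset S with ∣S∣ at least c·K^(-C)·∣A∣ and S^8 contained in A^4. -/
theorem result :
    ¬ (∃ c : ℝ, 0 < c ∧ ∃ C : ℝ, 0 < C ∧
      ∀ (G : Type) [Group G] [DecidableEq G] (K : ℝ) (A : Finset G),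
        1 ≤ K → IsApproximateSubgroup K (A : Set G) →
        ∃ S : Finset G, S ⊆ A ∧
          c * K ^ (-C) * (A.card : ℝ) ≤ (S.card : ℝ) ∧ S ^ 8 ⊆ A ^ 4) := by
  rintro ⟨c, hc, C, hC, H⟩
  have h3 : (0 : ℝ) < c * (3 : ℝ) ^ (-C) := by positivity
  obtain ⟨N, hN⟩ := exists_nat_gt (1 / (c * (3 : ℝ) ^ (-C)))
  obtain ⟨S, hS, hcard, hpow⟩ := H (Gr N) 3 (A N) (by norm_num) (approx N)
  have hS1 : S ⊆ {1} := by
    intro s hs
    have hsA := hS hs
    have h8 : s ^ 8 ∈ (A N) ^ 4 := hpow (Finset.pow_mem_pow hs)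
    have hl := lev_pow_A N _ 4 _ h8
    rw [lev_pow] at hl
    have hab := abs_lev N s hsA
    rcases (mem_A N s).1 hsA with h | h | h
    · simp [h]
    · rw [h] at hl; norm_num at hl
    · rw [h] at hl; norm_num at hl
  have hS2 : (S.card : ℝ) ≤ 1 := by
    have := Finset.card_le_card hS1
    rw [Finset.card_singleton] at this
    exact_mod_cast this
  have hA : ((N : ℝ) + 1) ≤ ((A N).card : ℝ) := by exact_mod_cast card_A N
  have h5 : 1 < c * (3 : ℝ) ^ (-C) * N := by
    rw [div_lt_iff₀ h3] at hN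
    linarith
  have h6 : c * (3 : ℝ) ^ (-C) * ((N : ℝ) + 1) ≤ c * (3 : ℝ) ^ (-C) * ((A N).card : ℝ) :=
    mul_le_mul_of_nonneg_left hA h3.le
  nlinarith

end Pool.Agent.S02236
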