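-- Statement S02238 (negation of the problem MP_e1f2e6_al).
import Pool.Statements.S02238
import Pool.Agent.Helper886.Tower.Final

/-!
# The automorphism tower of a finitely generated torsion-free nilpotent group can have
infinitely many isomorphism types

The group is a lattice `GG` (on `ℤ² × ℤ × ℤ²`) in the free nilpotent group of class 3 and rank 2.
Its automorphism group is `B = UU ℤ ⋊ GL₂(ℤ)`.  For a group `A` let `NN` be the set of elements
all of whose conjugates are equal to the element or to its inverse.  In `B` this is an infinite
cyclic group `⟨z⟩`, and (`lemma1`) if `A` is centreless with `NN(A) = ⟨z⟩` infinite cyclic then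
`NN(Aut A) = ⟨φ⟩` with `φ² = conj z`.  On the other hand the commutators of the characteristic
subgroup `E` of elements commuting with all their conjugates modulo `NN` are not affected by the
passage from `A` to `Aut A` (`Stage.next`); this distinguishes all the terms of the tower.
-/

set_option autoImplicit false
open Pool Pool.MP_e1f2e6_al

namespace Pool.Agent.S02238

/-- The negation of the preceding statement: For every finitely generated torsion-free nilpotent group G, the sequence G, Aut G, Aut Aut G, … has only finitely many isomorphism types: some N exists so each term is isomorphic to one of the first N+1 terms. -/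
theorem result :
    ¬ (∀ (G : Type) [Group G], Group.FG G → Group.IsNilpotent G →
      (∀ g : G, ∀ n : ℕ, n ≠ 0 → g ^ n = 1 → g = 1) →
      ∀ (A : ℕ → Type) [∀ n, Group (A n)],
        Nonempty (A 0 ≃* G) →
        (∀ n : ℕ, Nonempty (A (n + 1) ≃* MulAut (A n))) →
        ∃ N : ℕ, ∀ n : ℕ, ∃ m : ℕ, m ≤ N ∧ Nonempty (A n ≃* A m)) := by
  intro H
  obtain ⟨N, hN⟩ := H Pool.Agent.Helper886.Tower.GG Pool.Agent.Helper886.Tower.GG.fg
    Pool.Agent.Helper886.Tower.GG.nilpotent Pool.Agent.Helper886.Tower.GG.torsion_free
    (fun n => (Pool.Agent.Helper886.Tower.Tow n).1)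
    ⟨MulEquiv.refl Pool.Agent.Helper886.Tower.GG⟩
    (fun n => ⟨MulEquiv.refl (MulAut (Pool.Agent.Helper886.Tower.Tow n).1)⟩)
  obtain ⟨m, hm, f⟩ := hN (N + 1)
  exact Pool.Agent.Helper886.Tower.not_iso (Nat.lt_succ_of_le hm) f

end Pool.Agent.S02238
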