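import Pool.Statements.S02241
import Pool.Agent.Helper356.Circ4
import Pool.Agent.Helper356.Circ5

set_option autoImplicit false
open Real
open Pool Pool.MP_e2537c_al

namespace Pool.Agent.S02241

/-- There exist n ≥ 4 and a group of homeomorphisms of the circle that can map any counterclockwise-ordered n-tuple of distinct points onto any other such tuple, but fails to do so for some pair of ordered (n+1)-tuples. -/
theorem result :
    ∃ n : ℕ, 4 ≤ n ∧ ∃ Γ : Subgroup (Circle ≃ₜ Circle),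
      (∀ x y : Fin n → Circle,
        (∃ t : Fin n → ℝ, StrictMono t ∧ (∀ i j, t j < t i + 2 * π) ∧
            ∀ i, x i = Circle.exp (t i)) →
        (∃ s : Fin n → ℝ, StrictMono s ∧ (∀ i j, s j < s i + 2 * π) ∧
            ∀ i, y i = Circle.exp (s i)) →
        ∃ γ ∈ Γ, ∀ i, x i = γ (y i)) ∧
      ¬ (∀ x y : Fin (n + 1) → Circle,
        (∃ t : Fin (n + 1) → ℝ, StrictMono t ∧ (∀ i j, t j < t i + 2 * π) ∧
            ∀ i, x i = Circle.exp (t i)) →
        (∃ s : Fin (n + 1) → ℝ, StrictMono s ∧ (∀ i j, s j < s i + 2 * π) ∧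
            ∀ i, y i = Circle.exp (s i)) →
        ∃ γ ∈ Γ, ∀ i, x i = γ (y i)) := by
  obtain ⟨Γ, hAA, hTr, htrans, hno⟩ := Pool.Agent.Helper356.Circ.exists_group (n := 4)
    Pool.Agent.Helper356.Circ.pp_mem Pool.Agent.Helper356.Circ.ppqq
  refine ⟨4, le_refl 4, Pool.Agent.Helper356.Circ.circGroup Γ, ?_, ?_⟩
  · rintro x y ⟨t, ht1, ht2, hx⟩ ⟨s, hs1, hs2, hy⟩
    obtain ⟨g, hg, hgs⟩ := htrans s ⟨hs1, hs2⟩ t ⟨ht1, ht2⟩
    obtain ⟨F, hF⟩ := Pool.Agent.Helper356.Circ.exists_homeo (hAA hg)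
    refine ⟨F, ⟨g, hg, hF⟩, fun i => ?_⟩
    rw [hx, hy, hF, hgs]
  · intro h
    obtain ⟨F, ⟨f, hf, hFf⟩, hF⟩ := h (fun i => Circle.exp (Pool.Agent.Helper356.Circ.qq i))
      (fun i => Circle.exp (Pool.Agent.Helper356.Circ.pp i))
      ⟨_, Pool.Agent.Helper356.Circ.qq_mem.1, Pool.Agent.Helper356.Circ.qq_mem.2, fun i => rfl⟩
      ⟨_, Pool.Agent.Helper356.Circ.pp_mem.1, Pool.Agent.Helper356.Circ.pp_mem.2, fun i => rfl⟩
    obtain ⟨m, hm⟩ := Pool.Agent.Helper356.Circ.window Pool.Agent.Helper356.Circ.pp_mem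
      Pool.Agent.Helper356.Circ.qq_mem (hAA hf) (fun i => (hF i).trans (hFf _))
    exact hno _ (Γ.mul_mem (Γ.zpow_mem hTr m) hf) hm

end Pool.Agent.S02241
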