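import Pool.Statements.S02268

set_option autoImplicit false
open Pool Pool.MP_e5a68b_al

namespace Pool.Agent.S02268

/-- The sign `(-1)^i`. -/
def sg (i : ℤ) : ℤ := ((Int.negOnePow i : ℤˣ) : ℤ)

theorem sg_zero : sg 0 = 1 := by simp [sg]

theorem sg_add (i j : ℤ) : sg (i + j) = sg i * sg j := by
  simp [sg, Int.negOnePow_add]

theorem sg_neg (i : ℤ) : sg (-i) = sg i := by
  simp [sg, Int.negOnePow_neg]

theorem sg_one : sg 1 = -1 := by simp [sg]

theorem sg_mul_self (i : ℤ) : sg i * sg i = 1 := by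
  rw [← sg_add]
  simp [sg, Int.negOnePow_even _ ⟨i, rfl⟩]

/-- A concrete model of the Klein bottle group. -/
@[ext] structure KB where
  i : ℤ
  k : ℤ

namespace KB

instance : Mul KB := ⟨fun x y => ⟨x.i + y.i, x.k + sg x.i * y.k⟩⟩
instance : One KB := ⟨⟨0, 0⟩⟩
instance : Inv KB := ⟨fun x => ⟨-x.i, - (sg x.i * x.k)⟩⟩

@[simp] theorem mul_i (x y : KB) : (x * y).i = x.i + y.i := rfl
@[simp] theorem mul_k (x y : KB) : (x * y).k = x.k + sg x.i * y.k := rfl
@[simp] theorem one_i : (1 : KB).i = 0 := rfl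
@[simp] theorem one_k : (1 : KB).k = 0 := rfl
@[simp] theorem inv_i (x : KB) : (x⁻¹).i = -x.i := rfl
@[simp] theorem inv_k (x : KB) : (x⁻¹).k = - (sg x.i * x.k) := rfl

instance : Group KB := Group.ofLeftAxioms
  (by
    intro a b c
    ext
    · simp [add_assoc]
    · simp [sg_add]; ring)
  (by
    intro a
    ext
    · simp
    · simp [sg_zero])
  (by
    intro a
    ext
    · simp
    · simp [sg_neg])

end KB

/-- The Klein bottle group of the statement. -/
abbrev K : Type := PresentedGroup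
  ({(FreeGroup.of (0 : Fin 2))⁻¹ * FreeGroup.of 1 * FreeGroup.of 0 * FreeGroup.of 1} :
            Set (FreeGroup (Fin 2)))

def ka : K := PresentedGroup.of 0
def kb : K := PresentedGroup.of 1

theorem ka_kb : ka⁻¹ * kb * ka * kb = 1 := by
  have h : (PresentedGroup.mk ({(FreeGroup.of (0 : Fin 2))⁻¹ * FreeGroup.of 1 * FreeGroup.of 0 * FreeGroup.of 1} :
            Set (FreeGroup (Fin 2)))) ((FreeGroup.of (0 : Fin 2))⁻¹ * FreeGroup.of 1 * FreeGroup.of 0 * FreeGroup.of 1) = 1 :=
    PresentedGroup.one_of_mem rfl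
  simpa [ka, kb, PresentedGroup.of] using h

theorem ka_conj : ka * kb * ka⁻¹ = kb⁻¹ := by
  have h := ka_kb
  have h2 : kb * ka * kb = ka := by
    have := congrArg (fun t => ka * t) h
    simpa [mul_assoc] using this
  have h3 : ka * kb = kb⁻¹ * ka := by
    rw [eq_inv_mul_iff_mul_eq]
    simpa [mul_assoc] using h2
  rw [h3]; group

theorem ka_conj_zpow (k : ℤ) : ka * kb ^ k * ka⁻¹ = kb ^ (-k) := by
  rw [← conj_zpow, ka_conj, inv_zpow, zpow_neg]

theorem ka_conj_zpow' (k : ℤ) : ka⁻¹ * kb ^ k * ka = kb ^ (-k) := by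
  have h := ka_conj_zpow (-k)
  rw [neg_neg] at h
  rw [← h]; group

theorem kab_conj (i k : ℤ) : ka ^ i * kb ^ k * (ka ^ i)⁻¹ = kb ^ (sg i * k) := by
  induction i using Int.induction_on with
  | zero => simp [sg_zero]
  | succ i ih =>
    have h : ka ^ ((i : ℤ) + 1) = ka * ka ^ (i : ℤ) := by rw [add_comm, zpow_add, zpow_one]
    rw [h, mul_inv_rev]
    have h2 : ka * ka ^ (i : ℤ) * kb ^ k * ((ka ^ (i : ℤ))⁻¹ * ka⁻¹) =
      ka * (ka ^ (i : ℤ) * kb ^ k * (ka ^ (i : ℤ))⁻¹) * ka⁻¹ := by group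
    rw [h2, ih, ka_conj_zpow, sg_add, sg_one]
    congr 1; ring
  | pred i ih =>
    have h : ka ^ (-(i : ℤ) - 1) = ka⁻¹ * ka ^ (-(i : ℤ)) := by
      rw [show -(i : ℤ) - 1 = -1 + -(i : ℤ) by ring, zpow_add, zpow_neg_one]
    rw [h, mul_inv_rev]
    have h2 : ka⁻¹ * ka ^ (-(i : ℤ)) * kb ^ k * ((ka ^ (-(i : ℤ)))⁻¹ * ka⁻¹⁻¹) =
      ka⁻¹ * (ka ^ (-(i : ℤ)) * kb ^ k * (ka ^ (-(i : ℤ)))⁻¹) * ka := by group
    rw [h2, ih, ka_conj_zpow', sub_eq_add_neg, sg_add, sg_neg 1, sg_one]
    congr 1; ring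

/-- The embedding of the model into the presented group. -/
def iota : KB →* K where
  toFun x := kb ^ x.k * ka ^ x.i
  map_one' := by simp
  map_mul' x y := by
    have h := kab_conj x.i y.k
    have h2 : ka ^ x.i * kb ^ y.k = kb ^ (sg x.i * y.k) * ka ^ x.i := by
      rw [← h]; group
    simp only [KB.mul_i, KB.mul_k, zpow_add]
    calc kb ^ x.k * kb ^ (sg x.i * y.k) * (ka ^ x.i * ka ^ y.i)
        = kb ^ x.k * (kb ^ (sg x.i * y.k) * ka ^ x.i) * ka ^ y.i := by group
      _ = kb ^ x.k * (ka ^ x.i * kb ^ y.k) * ka ^ y.i := by rw [h2]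
      _ = _ := by group

/-- The map from the presented group onto the model. -/
def proj : K →* KB := PresentedGroup.toGroup (f := ![⟨1, 0⟩, ⟨0, 1⟩]) (by
  intro r hr
  rw [Set.mem_singleton_iff] at hr
  subst hr
  ext
  · simp
  · simp [sg_one, sg_neg, sg_zero])

theorem proj_ka : proj ka = ⟨1, 0⟩ := by
  simp [proj, ka]

theorem proj_kb : proj kb = ⟨0, 1⟩ := by
  simp [proj, kb]

theorem iota_proj (x : K) : iota (proj x) = x := by
  have h : iota.comp proj = MonoidHom.id K := by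
    ext j
    fin_cases j
    · simp [proj, iota, ka]
    · simp [proj, iota, kb]
  exact DFunLike.congr_fun h x

theorem proj_zpow_kb (k : ℤ) : (proj (kb ^ k)) = ⟨0, k⟩ := by
  rw [map_zpow, proj_kb]
  induction k using Int.induction_on with
  | zero => simp; rfl
  | succ i ih => rw [zpow_add, ih, zpow_one]; ext <;> simp [sg_zero]
  | pred i ih => rw [sub_eq_add_neg, zpow_add, ih, zpow_neg_one]; ext <;> simp [sg_zero]

theorem proj_zpow_ka (k : ℤ) : (proj (ka ^ k)) = ⟨k, 0⟩ := by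
  rw [map_zpow, proj_ka]
  induction k using Int.induction_on with
  | zero => simp; rfl
  | succ i ih => rw [zpow_add, ih, zpow_one]; ext <;> simp
  | pred i ih => rw [sub_eq_add_neg, zpow_add, ih, zpow_neg_one]; ext <;> simp

theorem proj_iota (x : KB) : proj (iota x) = x := by
  simp only [iota, MonoidHom.coe_mk, OneHom.coe_mk, map_mul, proj_zpow_kb, proj_zpow_ka]
  ext <;> simp


/-- The sign attached to a class modulo two. -/
def sn (a : ZMod 2) : ℤ := if a = 0 then 1 else -1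

theorem sn_zero : sn 0 = 1 := by simp [sn]

theorem sn_add : ∀ a b : ZMod 2, sn (a + b) = sn a * sn b := by decide

theorem sn_mul_self : ∀ a : ZMod 2, sn a * sn a = 1 := by decide

theorem sn_neg : ∀ a : ZMod 2, sn (-a) = sn a := by decide

theorem sn_cast (a : ZMod 2) (k : ℤ) : ((sn a * k : ℤ) : ZMod 2) = (k : ZMod 2) := by
  have h : ((sn a : ℤ) : ZMod 2) = 1 := by
    revert a; decide
  rw [Int.cast_mul, h, one_mul]

theorem sg_eq_sn (i : ℤ) : sg i = sn (i : ZMod 2) := by
  rcases Int.even_or_odd i with h | h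
  · have h2 : (i : ZMod 2) = 0 := by
      obtain ⟨m, rfl⟩ := h
      push_cast
      exact CharTwo.add_self_eq_zero _
    simp [sg, sn, h2, Int.negOnePow_even _ h]
  · have h2 : (i : ZMod 2) = 1 := by
      obtain ⟨m, rfl⟩ := h
      push_cast
      rw [show (2 : ZMod 2) = 0 from rfl]; simp
    simp [sg, sn, h2, Int.negOnePow_odd _ h]

/-- The pairing on vectors over the field with two elements. -/
def pr {r : ℕ} (a b : Fin r → ZMod 2) : ZMod 2 := ∑ i, a i * b i

theorem pr_add {r : ℕ} (a b c : Fin r → ZMod 2) : pr a (b + c) = pr a b + pr a c := by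
  simp [pr, mul_add, Finset.sum_add_distrib]

theorem pr_neg {r : ℕ} (a b : Fin r → ZMod 2) : pr a (-b) = - pr a b := by
  simp [pr]

theorem pr_zero {r : ℕ} (a : Fin r → ZMod 2) : pr a 0 = 0 := by
  simp [pr]

theorem pr_single {r : ℕ} (a : Fin r → ZMod 2) (j : Fin r) : pr a (Pi.single j 1) = a j := by
  simp [pr, Pi.single_apply]

/-- The group with no nontrivial map to the Klein bottle group. -/
@[ext] structure GG (r : ℕ) where
  φ : Fin r → ZMod 2
  k : {ε : Fin r → ZMod 2 // ε ≠ 0} → (Fin r → ZMod 2) → ℤ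
  par : ∀ ε f, (k ε f : ZMod 2) = pr f φ

namespace GG

variable {r : ℕ}

instance : Mul (GG r) := ⟨fun x y => ⟨x.φ + y.φ, fun ε f => x.k ε f + sn (pr ε.1 x.φ) * y.k ε f, by
  intro ε f
  rw [Int.cast_add, sn_cast, x.par, y.par, pr_add]⟩⟩
instance : One (GG r) := ⟨⟨0, fun _ _ => 0, by intro ε f; simp [pr_zero]⟩⟩
instance : Inv (GG r) := ⟨fun x => ⟨-x.φ, fun ε f => - (sn (pr ε.1 x.φ) * x.k ε f), by
  intro ε f
  rw [Int.cast_neg, sn_cast, x.par, pr_neg]⟩⟩

@[simp] theorem mul_φ (x y : GG r) : (x * y).φ = x.φ + y.φ := rfl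
@[simp] theorem mul_k (x y : GG r) (ε f) : (x * y).k ε f = x.k ε f + sn (pr ε.1 x.φ) * y.k ε f := rfl
@[simp] theorem one_φ : (1 : GG r).φ = 0 := rfl
@[simp] theorem one_k (ε f) : (1 : GG r).k ε f = 0 := rfl
@[simp] theorem inv_φ (x : GG r) : (x⁻¹).φ = -x.φ := rfl
@[simp] theorem inv_k (x : GG r) (ε f) : (x⁻¹).k ε f = - (sn (pr ε.1 x.φ) * x.k ε f) := rfl

instance : Group (GG r) := Group.ofLeftAxioms
  (by
    intro a b c
    ext
    · simp [add_assoc]
    · simp [pr_add, sn_add]; ring)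
  (by
    intro a
    ext
    · simp
    · simp [pr_zero, sn_zero])
  (by
    intro a
    ext
    · simp only [mul_φ, inv_φ, one_φ, Pi.add_apply, Pi.neg_apply, Pi.zero_apply]
      exact neg_add_cancel _
    · simp only [mul_k, inv_k, inv_φ, one_k, pr_neg, sn_neg]
      ring)

end GG

theorem pr_single_left {r : ℕ} (a : Fin r → ZMod 2) (j : Fin r) : pr (Pi.single j 1) a = a j := by
  simp [pr, Pi.single_apply]

theorem exists_orth {N : ℕ} (v : Fin N → (Fin (N + 1) → ZMod 2)) :
    ∃ ε : Fin (N + 1) → ZMod 2, ε ≠ 0 ∧ ∀ j, pr ε (v j) = 0 := by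
  let L : (Fin (N + 1) → ZMod 2) →ₗ[ZMod 2] (Fin N → ZMod 2) := Matrix.mulVecLin (Matrix.of v)
  have h : LinearMap.ker L ≠ ⊥ := by
    apply LinearMap.ker_ne_bot_of_finrank_lt
    simp
  obtain ⟨ε, hε, hne⟩ := Submodule.exists_mem_ne_zero_of_ne_bot h
  refine ⟨ε, hne, fun j => ?_⟩
  have h2 : L ε = 0 := hε
  have h3 := congrFun h2 j
  simp only [L, Matrix.mulVecLin_apply, Matrix.mulVec, dotProduct, Matrix.of_apply, Pi.zero_apply] at h3
  rw [← h3, pr]
  exact Finset.sum_congr rfl fun i _ => mul_comm _ _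

theorem lemmaA {N : ℕ} (F : FreeGroup (Fin N) →* GG (N + 1)) (w : FreeGroup (Fin N))
    (hw : F w ≠ 1) :
    ∃ F' : FreeGroup (Fin N) →* KB, F' w ≠ 1 ∧ ∀ s, F s = 1 → F' s = 1 := by
  obtain ⟨ε0, hε0, horth⟩ := exists_orth (fun j : Fin N => (F (FreeGroup.of j)).φ)
  have horth2 : ∀ u, pr ε0 (F u).φ = 0 := by
    let P : FreeGroup (Fin N) →* Multiplicative (ZMod 2) :=
      { toFun := fun u => Multiplicative.ofAdd (pr ε0 (F u).φ)
        map_one' := by simp [pr_zero]
        map_mul' := fun u v => by simp [pr_add] }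
    have hP : P = 1 := by
      ext j
      simp [P, horth j]
    intro u
    have := DFunLike.congr_fun hP u
    simpa [P] using this
  let T : {ε : Fin (N + 1) → ZMod 2 // ε ≠ 0} → (Fin (N + 1) → ZMod 2) → (FreeGroup (Fin N) →* KB) :=
    fun ε f =>
      { toFun := fun u => ⟨(F u).k ⟨ε0, hε0⟩ ε.1, (F u).k ε f⟩
        map_one' := by simp; rfl
        map_mul' := fun u v => by
          ext
          · simp [horth2, sn_zero]
          · simp [sg_eq_sn, (F u).par] }
  by_contra hcon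
  push Not at hcon
  have hall : ∀ ε f, T ε f w = 1 := by
    intro ε f
    by_contra h
    obtain ⟨s, hs, hs2⟩ := hcon (T ε f) h
    apply hs2
    change (⟨(F s).k ⟨ε0, hε0⟩ ε.1, (F s).k ε f⟩ : KB) = 1
    rw [hs]
    rfl
  have hk : ∀ ε f, (F w).k ε f = 0 := by
    intro ε f
    have := congrArg KB.k (hall ε f)
    simpa [T] using this
  apply hw
  ext j
  · have h1 := (F w).par ⟨ε0, hε0⟩ (Pi.single j 1)
    rw [hk, pr_single_left] at h1
    simpa using h1.symm
  · rw [hk]; rfl

/-- Iterated words. -/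
def Wd {r : ℕ} : List (Fin r) → FreeGroup (Fin r) → FreeGroup (Fin r)
  | [], v => v
  | i :: L, v => Wd L (v * (FreeGroup.of i * v * (FreeGroup.of i)⁻¹))

theorem Wd_expo {r : ℕ} (F : FreeGroup (Fin r) →* KB) (L : List (Fin r)) (v : FreeGroup (Fin r)) :
    (F (Wd L v)).i = 2 ^ L.length * (F v).i := by
  induction L generalizing v with
  | nil => simp [Wd]
  | cons i L ih =>
    rw [Wd, ih]
    simp only [map_mul, map_inv, KB.mul_i, KB.inv_i, List.length_cons, pow_succ]
    ring

theorem Wd_k {r : ℕ} (F : FreeGroup (Fin r) →* KB) (hF : ∀ i, (F (FreeGroup.of i)).i = 0)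
    (L : List (Fin r)) (v : FreeGroup (Fin r)) (hv : (F v).i = 0) :
    (F (Wd L v)).k = 2 ^ L.length * (F v).k := by
  induction L generalizing v with
  | nil => simp [Wd]
  | cons i L ih =>
    rw [Wd, ih]
    · simp only [map_mul, map_inv, KB.mul_i, KB.mul_k, KB.inv_i, KB.inv_k, List.length_cons, pow_succ, hv, hF, sg_zero]
      ring_nf
      simp [sg_zero]
    · simp [hv, hF]

/-- The generators of the test group. -/
def gen {r : ℕ} (i : Fin r) : GG r := ⟨Pi.single i 1, fun _ f => if f i = 0 then 0 else 1, by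
  intro ε f
  rw [pr_single]
  generalize f i = t
  revert t
  decide⟩

/-- The evaluation at the generators. -/
def ev (r : ℕ) : FreeGroup (Fin r) →* GG r := FreeGroup.lift gen

@[simp] theorem ev_of {r : ℕ} (i : Fin r) : ev r (FreeGroup.of i) = gen i := by simp [ev]

@[simp] theorem gen_φ {r : ℕ} (i : Fin r) : (gen i).φ = Pi.single i 1 := rfl

theorem Wd_GG {r : ℕ} (L : List (Fin r)) (v : FreeGroup (Fin r)) (hv : (ev r v).φ = 0) :
    (ev r (Wd L v)).φ = 0 ∧ ∀ ε f, (ev r (Wd L v)).k ε f =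
      (L.map (fun i => 1 + sn (ε.1 i))).prod * (ev r v).k ε f := by
  induction L generalizing v with
  | nil => simp [Wd, hv]
  | cons i L ih =>
    rw [Wd]
    obtain ⟨h1, h2⟩ := ih (v * (FreeGroup.of i * v * (FreeGroup.of i)⁻¹)) (by
      simp only [map_mul, map_inv, GG.mul_φ, GG.inv_φ, hv, ev_of]
      simp)
    refine ⟨h1, fun ε f => ?_⟩
    rw [h2]
    simp only [map_mul, map_inv, GG.mul_k, GG.mul_φ, GG.inv_k, hv, ev_of, pr_zero, sn_zero,
      List.map_cons, List.prod_cons, add_zero, gen_φ, pr_single, one_mul]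
    have := sn_mul_self (ε.1 i)
    linear_combination (-(List.map (fun i => 1 + sn (ε.1 i)) L).prod * (gen i).k ε f) * this

theorem prod_eq_zero {r : ℕ} (ε : {ε : Fin r → ZMod 2 // ε ≠ 0}) :
    ((List.finRange r).map (fun i => 1 + sn (ε.1 i))).prod = 0 := by
  obtain ⟨ε, hε⟩ := ε
  obtain ⟨i, hi⟩ := Function.ne_iff.mp hε
  apply List.prod_eq_zero
  rw [List.mem_map]
  refine ⟨i, List.mem_finRange i, ?_⟩
  have : ∀ t : ZMod 2, t ≠ 0 → 1 + sn t = 0 := by decide
  exact this _ hi

/-- The negation of the preceding statement: There is N such that every group satisfying all N-variable quasi-identities true in the Klein-bottle group ⟨a,b ∣ a⁻¹ba=b⁻¹⟩ satisfies every quasi-identity true in that group, i.e. its quasivariety is axiomatized in N variables. -/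
theorem result :
    ¬ (∃ N : ℕ, ∀ (G : Type) [Group G],
    (∀ (S : Finset (FreeGroup (Fin N))) (w : FreeGroup (Fin N)),
      (∀ f : FreeGroup (Fin N) →* PresentedGroup
          ({(FreeGroup.of (0 : Fin 2))⁻¹ * FreeGroup.of 1 * FreeGroup.of 0 * FreeGroup.of 1} :
            Set (FreeGroup (Fin 2))),
        (∀ s ∈ S, f s = 1) → f w = 1) →
      (∀ f : FreeGroup (Fin N) →* G, (∀ s ∈ S, f s = 1) → f w = 1)) →
    ∀ (n : ℕ) (S : Finset (FreeGroup (Fin n))) (w : FreeGroup (Fin n)),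
      (∀ f : FreeGroup (Fin n) →* PresentedGroup
          ({(FreeGroup.of (0 : Fin 2))⁻¹ * FreeGroup.of 1 * FreeGroup.of 0 * FreeGroup.of 1} :
            Set (FreeGroup (Fin 2))),
        (∀ s ∈ S, f s = 1) → f w = 1) →
      (∀ f : FreeGroup (Fin n) →* G, (∀ s ∈ S, f s = 1) → f w = 1)) := by
  rintro ⟨N, hN⟩
  have h1 := hN (GG (N + 1)) (by
    intro S w hK f hf
    by_contra hw
    obtain ⟨F', hF'w, hF'⟩ := lemmaA f w hw
    have h2 := hK (iota.comp F') (by
      intro s hs
      simp [hF' s (hf s hs)])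
    apply hF'w
    rw [← proj_iota (F' w)]
    change proj ((iota.comp F') w) = 1
    rw [h2, map_one])
  classical
  have h2 := h1 (N + 1)
    (Finset.univ.image fun j => Wd (List.finRange (N + 1)) (FreeGroup.of j * FreeGroup.of j))
    (FreeGroup.of 0) (by
      intro f hf
      have hf' : ∀ j, f (Wd (List.finRange (N + 1)) (FreeGroup.of j * FreeGroup.of j)) = 1 :=
        fun j => hf _ (Finset.mem_image_of_mem _ (Finset.mem_univ j))
      let g : FreeGroup (Fin (N + 1)) →* KB := proj.comp f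
      have hg : ∀ j, g (Wd (List.finRange (N + 1)) (FreeGroup.of j * FreeGroup.of j)) = 1 := by
        intro j
        simp [g, hf' j]
      have hgi : ∀ j, (g (FreeGroup.of j)).i = 0 := by
        intro j
        have h3 := congrArg KB.i (hg j)
        rw [Wd_expo, map_mul, KB.mul_i, KB.one_i] at h3
        have h4 : (2 : ℤ) ^ (List.finRange (N + 1)).length ≠ 0 := by positivity
        have h5 := (mul_eq_zero.mp h3).resolve_left h4
        omega
      have hgk : (g (FreeGroup.of 0)).k = 0 := by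
        have h3 := congrArg KB.k (hg 0)
        rw [Wd_k g hgi _ _ (by simp [hgi]), map_mul, KB.mul_k, hgi, sg_zero, KB.one_k] at h3
        have h4 : (2 : ℤ) ^ (List.finRange (N + 1)).length ≠ 0 := by positivity
        have h5 := (mul_eq_zero.mp h3).resolve_left h4
        omega
      have hg1 : g (FreeGroup.of 0) = 1 := by
        ext
        · rw [hgi]; rfl
        · rw [hgk]; rfl
      rw [← iota_proj (f (FreeGroup.of 0))]
      change iota (g (FreeGroup.of 0)) = 1
      rw [hg1, map_one])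
    (ev (N + 1)) (by
      intro s hs
      obtain ⟨j, -, rfl⟩ := Finset.mem_image.mp hs
      have hv : (ev (N + 1) (FreeGroup.of j * FreeGroup.of j)).φ = 0 := by
        simp only [map_mul, GG.mul_φ, ev_of]
        ext i
        exact CharTwo.add_self_eq_zero _
      obtain ⟨h3, h4⟩ := Wd_GG (List.finRange (N + 1)) (FreeGroup.of j * FreeGroup.of j) hv
      apply GG.ext
      · rw [h3]; rfl
      · funext ε f
        rw [h4, prod_eq_zero, zero_mul]
        rfl)
  have h3 := congrFun (congrArg GG.φ h2) 0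
  simp at h3

end Pool.Agent.S02268
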