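import Pool.Statements.S02292
import Pool.Agent.Helper867.Reid.Grp

set_option autoImplicit false
open Pool Pool.MP_e8be57_al

namespace Pool.Agent.S02292

/-- The negation of the preceding statement: Take the smallest isomorphism-closed class of abelian groups that contains ℤ and is closed under arbitrary direct sums and direct products. If A × B lies in this class, then A lies in it too. -/
theorem result :
    ¬ (∀ (A B : AddCommGrpCat.{0}),
      (∀ C : AddCommGrpCat.{0} → Prop,
        C (AddCommGrpCat.of ℤ) →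
        (∀ G H : AddCommGrpCat.{0}, Nonempty (G ≃+ H) → C G → C H) →
        (∀ (ι : Type) (G : ι → AddCommGrpCat.{0}), (∀ i, C (G i)) →
          C (AddCommGrpCat.of (DirectSum ι (fun i => G i)))) →
        (∀ (ι : Type) (G : ι → AddCommGrpCat.{0}), (∀ i, C (G i)) →
          C (AddCommGrpCat.of ((i : ι) → G i))) →
        C (AddCommGrpCat.of (A × B))) →
      (∀ C : AddCommGrpCat.{0} → Prop,
        C (AddCommGrpCat.of ℤ) →
        (∀ G H : AddCommGrpCat.{0}, Nonempty (G ≃+ H) → C G → C H) →
        (∀ (ι : Type) (G : ι → AddCommGrpCat.{0}), (∀ i, C (G i)) →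
          C (AddCommGrpCat.of (DirectSum ι (fun i => G i)))) →
        (∀ (ι : Type) (G : ι → AddCommGrpCat.{0}), (∀ i, C (G i)) →
          C (AddCommGrpCat.of ((i : ι) → G i))) →
        C A)) := by
  intro hall
  have h := hall (AddCommGrpCat.of Helper867.Reid.A) (AddCommGrpCat.of Helper867.Reid.S) ?_
  · have hgood := h (fun G => Helper867.Reid.Good G) Helper867.Reid.good_int
      (fun G H ⟨e⟩ hG => hG.of_equiv e)
      (fun ι G hG => Helper867.Reid.good_ds hG)
      (fun ι G hG => Helper867.Reid.good_pi hG)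
    exact Helper867.Reid.not_good_A hgood
  · intro C hZ hiso hsum hprod
    have hF : C (AddCommGrpCat.of Helper867.Reid.F) := by
      refine hiso (AddCommGrpCat.of (DirectSum ℕ (fun _ => AddCommGrpCat.of ℤ))) _ ?_
        (hsum ℕ (fun _ => AddCommGrpCat.of ℤ) (fun _ => hZ))
      exact ⟨(finsuppAddEquivDFinsupp (ι := ℕ) (M := ℤ)).symm⟩
    have hD : C (AddCommGrpCat.of Helper867.Reid.D) :=
      hprod ℕ (fun _ => AddCommGrpCat.of Helper867.Reid.F) (fun _ => hF)
    have hS : C (AddCommGrpCat.of Helper867.Reid.S) :=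
      hsum ℕ (fun _ => AddCommGrpCat.of Helper867.Reid.D) (fun _ => hD)
    exact hiso _ _ ⟨Helper867.Reid.eqv⟩ hS

end Pool.Agent.S02292
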