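import Pool.Statements.S02294
import Pool.Agent.Helper754.TwoN.J_final

set_option autoImplicit false
open Pool Pool.MP_e8d1ff_al

namespace Pool.Agent.S02294

/-- The negation of the preceding statement: For n at least 2, every irreducible (strongly connected) n-by-n zero-nonzero pattern, and every irreducible n-by-n sign pattern, whose realizations attain every monic real degree-n characteristic polynomial has at least 2n nonzero entries. -/
theorem result :
    ¬ ((∀ n : ℕ, 2 ≤ n → ∀ S : Finset (Fin n × Fin n),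
      (∀ i j : Fin n, Relation.TransGen (fun a b : Fin n => (a, b) ∈ S) i j) →
      (∀ p : Polynomial ℝ, p.Monic → p.natDegree = n →
        ∃ A : Matrix (Fin n) (Fin n) ℝ,
          (∀ i j : Fin n, A i j ≠ 0 ↔ (i, j) ∈ S) ∧ A.charpoly = p) →
      2 * n ≤ S.card) ∧
    (∀ n : ℕ, 2 ≤ n → ∀ P : Matrix (Fin n) (Fin n) SignType,
      (∀ i j : Fin n, Relation.TransGen (fun a b : Fin n => P a b ≠ 0) i j) →
      (∀ p : Polynomial ℝ, p.Monic → p.natDegree = n →
        ∃ A : Matrix (Fin n) (Fin n) ℝ,
          (∀ i j : Fin n, SignType.sign (A i j) = P i j) ∧ A.charpoly = p) →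
      2 * n ≤ (Finset.univ.filter (fun ij : Fin n × Fin n => P ij.1 ij.2 ≠ 0)).card)) := by
  rintro ⟨h, -⟩
  obtain ⟨n, S, hn, hcard, hconn, hreal⟩ := Pool.Agent.Helper754.TwoN.final
  exact absurd (h n hn S hconn hreal) (not_le.mpr hcard)

end Pool.Agent.S02294
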