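import Pool.Statements.S02297
import Pool.Agent.Helper495.E97.Final

set_option autoImplicit false
open Pool Pool.MP_e97be0_al

namespace Pool.Agent.S02297

/-- There is a simple group G such that: some n makes every element a product of n conjugates of any fixed nontrivial element; maximal abelian subgroups are all conjugate, self-normalizing, and the centralizer of each nontrivial member; and some m makes each element a product of m elements of aH for a o -/
theorem result :
    ∃ (G : Type) (_ : Group G),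
      IsSimpleGroup G ∧
      (∃ n : ℕ, ∀ g : G, g ≠ 1 → ∀ x : G,
        ∃ f : Fin n → G, (∀ i, IsConj g (f i)) ∧ (List.ofFn f).prod = x) ∧
      (∀ H K : Subgroup G,
        Maximal (fun L : Subgroup G => ∀ x ∈ L, ∀ y ∈ L, x * y = y * x) H →
        Maximal (fun L : Subgroup G => ∀ x ∈ L, ∀ y ∈ L, x * y = y * x) K →
        ∃ g : G, ∀ x : G, x ∈ K ↔ g⁻¹ * x * g ∈ H) ∧
      (∀ H : Subgroup G,
        Maximal (fun L : Subgroup G => ∀ x ∈ L, ∀ y ∈ L, x * y = y * x) H →
        (∀ g : G, (∀ x : G, x ∈ H ↔ g * x * g⁻¹ ∈ H) → g ∈ H) ∧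
        (∀ h : G, h ∈ H → h ≠ 1 → ∀ g : G, (g * h = h * g ↔ g ∈ H))) ∧
      (∃ m : ℕ, ∀ H : Subgroup G,
        Maximal (fun L : Subgroup G => ∀ x ∈ L, ∀ y ∈ L, x * y = y * x) H →
        ∀ a : G, a ∉ H → ∀ x : G,
          ∃ f : Fin m → G, (∀ i, a⁻¹ * f i ∈ H) ∧ (List.ofFn f).prod = x) := by
  exact Pool.Agent.Helper495.E97.final

end Pool.Agent.S02297
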