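import Pool.Statements.S02300
import Pool.Agent.Helper158.Stall.Grp

set_option autoImplicit false
open scoped TensorProduct
open Pool Pool.MP_e9d015_al

namespace Pool.Agent.S02300

/-- The negation of the preceding statement: For all n, primes p, and subgroups S of a finitely generated free group F whose inclusion induces an iso on H_1 with Z/p coefficients: if a in S is a product of F-conjugates of g_1..g_n in S (in order), it is such a product of S-conjugates. -/
theorem result :
    ¬ (∀ (n k p : ℕ), p.Prime → ∀ (S : Subgroup (FreeGroup (Fin k))),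
      Function.Bijective (LinearMap.rTensor (ZMod p)
        (AddMonoidHom.toIntLinearMap (MonoidHom.toAdditive (Abelianization.map S.subtype)))) →
      ∀ (a : S) (g : Fin n → S),
        (∃ c : Fin n → FreeGroup (Fin k),
          (a : FreeGroup (Fin k)) =
            (List.ofFn (fun i => c i * (g i : FreeGroup (Fin k)) * (c i)⁻¹)).prod) →
        ∃ c : Fin n → S, a = (List.ofFn (fun i => c i * g i * (c i)⁻¹)).prod) := by
  intro H
  have hofn : ∀ {β : Type} (f : ((Option (Fin 2 × Bool) × Bool) × List (Fin 3 × Bool)) → β),
      List.ofFn (fun i : Fin Helper158.Stall.data.length => f (Helper158.Stall.data.get i)) =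
        Helper158.Stall.data.map f := by
    intro β f
    conv_rhs => rw [← List.ofFn_get Helper158.Stall.data]
    rw [List.map_ofFn]
    rfl
  obtain ⟨c, hc⟩ := H Helper158.Stall.data.length 3 2 Nat.prime_two Helper158.Stall.S
    (Helper158.Stall.bij 2)
    ⟨FreeGroup.mk (Helper158.Stall.emb Helper158.Stall.aw), Helper158.Stall.emb_mem _⟩
    (fun i => ⟨FreeGroup.mk (Helper158.Stall.item (Helper158.Stall.data.get i).1),
      Helper158.Stall.item_mem _⟩)
    ⟨fun i => FreeGroup.mk (Helper158.Stall.data.get i).2, by
      show FreeGroup.mk (Helper158.Stall.emb Helper158.Stall.aw) = _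
      rw [Helper158.Stall.identity]
      exact congrArg List.prod (hofn (fun p => FreeGroup.mk p.2 *
        FreeGroup.mk (Helper158.Stall.item p.1) * (FreeGroup.mk p.2)⁻¹)).symm⟩
  refine Helper158.Stall.no_conj
    (List.ofFn (fun i => ((c i : FreeGroup (Fin 3)), (Helper158.Stall.data.get i).1)))
    ?_ ?_ ?_
  · intro p hp
    obtain ⟨i, rfl⟩ := (List.mem_ofFn' _ _).1 hp
    exact (c i).2
  · rw [List.map_ofFn]
    exact hofn Prod.fst
  · have h1 := congrArg (Subtype.val : Helper158.Stall.S → FreeGroup (Fin 3)) hc
    have h2 : (FreeGroup.mk (Helper158.Stall.emb Helper158.Stall.aw) : FreeGroup (Fin 3)) =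
        Helper158.Stall.S.subtype (List.ofFn (fun i => c i *
          (⟨FreeGroup.mk (Helper158.Stall.item (Helper158.Stall.data.get i).1),
            Helper158.Stall.item_mem _⟩ : Helper158.Stall.S) * (c i)⁻¹)).prod := h1
    rw [h2, map_list_prod, List.map_ofFn, List.map_ofFn]
    rfl

end Pool.Agent.S02300
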