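import Pool.Statements.S02314
import Pool.Agent.Helper218.Mod6

set_option autoImplicit false
open Pool Pool.MP_ea8b67_al

namespace Pool.Agent.S02314

/-- The negation of the preceding statement: The lattice of soluble Fitting classes of finite groups is modular: whenever X ⊆ Z, every group in (X join Y) meet Z lies in X join (Y meet Z), where join is the smallest soluble Fitting class containing both. -/
theorem result :
    ¬ (∀ (SF : ((G : Type) → [Group G] → Prop) → Prop),
      SF = (fun (F : (G : Type) → [Group G] → Prop) =>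
        (∀ (G : Type) [Group G], F G → Finite G ∧ IsSolvable G) ∧
        (∃ (G : Type) (_ : Group G), F G) ∧
        (∀ (G H : Type) [Group G] [Group H], (G ≃* H) → F G → F H) ∧
        (∀ (G : Type) [Group G] (N : Subgroup G), N.Normal → F G → F N) ∧
        (∀ (G : Type) [Group G] [Finite G] (N M : Subgroup G),
          N.Normal → M.Normal → F N → F M → F ↥(N ⊔ M))) →
      ∀ (X Y Z : (G : Type) → [Group G] → Prop),
        SF X → SF Y → SF Z →
        (∀ (G : Type) [Group G], X G → Z G) →
        ∀ (G : Type) [Group G],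
          ((∀ (F : (G : Type) → [Group G] → Prop), SF F →
              (∀ (H : Type) [Group H], X H → F H) →
              (∀ (H : Type) [Group H], Y H → F H) → F G) ∧ Z G) →
          ∀ (F : (G : Type) → [Group G] → Prop), SF F →
            (∀ (H : Type) [Group H], X H → F H) →
            (∀ (H : Type) [Group H], (Y H ∧ Z H) → F H) → F G) := by
  intro hall
  have h := hall _ rfl Pool.Agent.Helper218.Modu.XC Pool.Agent.Helper218.Modu.YC
    Pool.Agent.Helper218.Modu.ZC Pool.Agent.Helper218.Modu.SF_X Pool.Agent.Helper218.Modu.SF_Y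
    Pool.Agent.Helper218.Modu.SF_Z (fun G _ => Pool.Agent.Helper218.Modu.X_sub_Z G)
    Pool.Agent.Helper218.Modu.Zed
    ⟨fun F hF h1 h2 => hF.2.2.2.1 _ _ inferInstance
        (Pool.Agent.Helper218.Modu.F_Gam hF (h1 _ Pool.Agent.Helper218.Modu.X_P4)
          (h2 _ Pool.Agent.Helper218.Modu.Y_S3)), Pool.Agent.Helper218.Modu.Z_Zed⟩
    Pool.Agent.Helper218.Modu.XC Pool.Agent.Helper218.Modu.SF_X (fun H _ h => h)
    (fun H _ h => Pool.Agent.Helper218.Modu.YZ_sub_X H h.1 h.2)
  exact Pool.Agent.Helper218.Modu.nX_Zed h

end Pool.Agent.S02314
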