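import Pool.Statements.S02320
-- import your own Pool.Agent.* helpers here

set_option autoImplicit false
open Pool Pool.MP_eace53_al

namespace Pool.Agent.S02320

/-- The base field with three elements. -/
abbrev F := ZMod 3

/-- A bi-additive map. -/
structure Bil (V W : Type) [AddCommGroup V] [AddCommGroup W] where
  f : V → V → W
  addl : ∀ a b c, f (a + b) c = f a c + f b c
  addr : ∀ a b c, f a (b + c) = f a b + f a c

namespace Bil

variable {V W : Type} [AddCommGroup V] [AddCommGroup W] (β : Bil V W)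

lemma zerol (c : V) : β.f 0 c = 0 := by
  have h := β.addl 0 0 c
  rw [add_zero] at h
  exact left_eq_add.mp h

lemma zeror (c : V) : β.f c 0 = 0 := by
  have h := β.addr c 0 0
  rw [add_zero] at h
  exact left_eq_add.mp h

lemma negl (a c : V) : β.f (-a) c = - β.f a c := by
  have h := β.addl (-a) a c
  rw [neg_add_cancel, β.zerol] at h
  exact eq_neg_of_add_eq_zero_left h.symm

lemma negr (a c : V) : β.f a (-c) = - β.f a c := by
  have h := β.addr a (-c) c
  rw [neg_add_cancel, β.zeror] at h
  exact eq_neg_of_add_eq_zero_left h.symm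

lemma smulr (s : ℤˣ) (a c : V) : β.f a (s • c) = s • β.f a c := by
  rcases Int.units_eq_one_or s with rfl | rfl
  · simp
  · simp [β.negr, Units.smul_def]

lemma smull (s : ℤˣ) (a c : V) : β.f (s • a) c = s • β.f a c := by
  rcases Int.units_eq_one_or s with rfl | rfl
  · simp
  · simp [β.negl, Units.smul_def]

end Bil

/-- The group `{1, -1} ⋉ (V × W)` attached to a bi-additive map. -/
@[ext] structure Ext {V W : Type} [AddCommGroup V] [AddCommGroup W] (β : Bil V W) : Type where
  s : ℤˣ
  v : V
  w : W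

namespace Ext

variable {V W : Type} [AddCommGroup V] [AddCommGroup W] {β : Bil V W}

instance : Mul (Ext β) := ⟨fun g h => ⟨g.s * h.s, g.v + g.s • h.v, g.w + h.w + β.f g.v (g.s • h.v)⟩⟩
instance : One (Ext β) := ⟨⟨1, 0, 0⟩⟩
instance : Inv (Ext β) := ⟨fun g => ⟨g.s⁻¹, -(g.s⁻¹ • g.v), -g.w + β.f g.v g.v⟩⟩

@[simp] lemma mul_s (g h : Ext β) : (g * h).s = g.s * h.s := rfl
@[simp] lemma mul_v (g h : Ext β) : (g * h).v = g.v + g.s • h.v := rfl
@[simp] lemma mul_w (g h : Ext β) : (g * h).w = g.w + h.w + β.f g.v (g.s • h.v) := rfl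
@[simp] lemma one_s : (1 : Ext β).s = 1 := rfl
@[simp] lemma one_v : (1 : Ext β).v = 0 := rfl
@[simp] lemma one_w : (1 : Ext β).w = 0 := rfl
@[simp] lemma inv_s (g : Ext β) : (g⁻¹).s = g.s⁻¹ := rfl
@[simp] lemma inv_v (g : Ext β) : (g⁻¹).v = -(g.s⁻¹ • g.v) := rfl
@[simp] lemma inv_w (g : Ext β) : (g⁻¹).w = -g.w + β.f g.v g.v := rfl

instance : Group (Ext β) :=
  Group.ofLeftAxioms
    (by
      intro a b c
      ext
      · simp [mul_assoc]
      · simp [smul_add, mul_smul, add_assoc]
      · simp only [mul_w, mul_v, mul_s, smul_add, mul_smul, β.addr, β.addl]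
        have h : β.f (a.s • b.v) (a.s • b.s • c.v) = β.f b.v (b.s • c.v) := by
          rw [β.smull, β.smulr, smul_smul, Int.units_mul_self, one_smul]
        rw [h]
        abel)
    (by
      intro a
      ext
      · simp
      · simp
      · simp [β.zerol])
    (by
      intro a
      ext
      · simp
      · simp
      · simp only [mul_w, inv_w, inv_v, inv_s, one_w]
        have h : β.f (-(a.s⁻¹ • a.v)) (a.s⁻¹ • a.v) = - β.f a.v a.v := by
          rw [β.negl, β.smull, β.smulr, smul_smul, Int.units_mul_self, one_smul]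
        rw [h]
        abel)

/-- Homomorphisms on a subgroup, built from a pair of additive maps. -/
def homOf {V' W' : Type} [AddCommGroup V'] [AddCommGroup W'] {β' : Bil V' W'}
    (Γ : Subgroup (Ext β)) (φ : V →+ V') (ψ : W →+ W')
    (h : ∀ g g' : Ext β, g ∈ Γ → g' ∈ Γ → ψ (β.f g.v g'.v) = β'.f (φ g.v) (φ g'.v)) :
    Γ →* Ext β' where
  toFun g := ⟨g.1.s, φ g.1.v, ψ g.1.w⟩
  map_one' := by
    ext
    · simp
    · simp
    · simp
  map_mul' g g' := by
    ext
    · simp
    · simp only [Subgroup.coe_mul, mul_v, map_add]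
      rcases Int.units_eq_one_or g.1.s with hs | hs <;> simp [hs, Units.smul_def]
    · have h1 := h g.1 g'.1 g.2 g'.2
      simp only [Subgroup.coe_mul, mul_w, map_add, β.smulr, β'.smulr]
      rw [← h1]
      rcases Int.units_eq_one_or g.1.s with hs | hs <;> simp [hs, Units.smul_def]

/-- Commutators. -/
lemma comm_eq (v v' : V) (w w' : W) (hanti : ∀ a b, β.f b a = - β.f a b)
    (h3 : ∀ x : W, x + x + x = 0) :
    (⟨1, v', w'⟩ : Ext β) * ⟨1, v, w⟩ * (⟨1, v', w'⟩ : Ext β)⁻¹ * (⟨1, v, w⟩ : Ext β)⁻¹
      = ⟨1, 0, β.f v v'⟩ := by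
  ext
  · simp
  · simp
  · simp only [mul_w, mul_v, mul_s, inv_w, inv_v, inv_s, one_smul, inv_one, mul_one, β.addl,
      β.negr, β.negl]
    have e1 := hanti v v'
    have e3 := h3 (β.f v v')
    rw [e1]
    have : -(β.f v v') - (β.f v v') = β.f v v' := by
      have : β.f v v' + β.f v v' = - β.f v v' := eq_neg_of_add_eq_zero_left e3
      rw [sub_eq_add_neg, ← neg_add, this, neg_neg]
    calc _ = -(β.f v v') - (β.f v v') := by abel
      _ = _ := this

end Ext

/-! ### The finite group `H` -/

/-- The determinant form. -/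
def detB : Bil (F × F) F where
  f p q := p.1 * q.2 - p.2 * q.1
  addl a b c := by simp only [Prod.fst_add, Prod.snd_add]; ring
  addr a b c := by simp only [Prod.fst_add, Prod.snd_add]; ring

/-- `H`: the extension of the Heisenberg group over three elements by an involution. -/
abbrev H := Ext detB

instance : Finite H := by
  have : Function.Injective (fun g : H => (g.s, g.v, g.w)) := by
    intro a b hab
    simp only [Prod.mk.injEq] at hab
    exact Ext.ext hab.1 hab.2.1 hab.2.2
  exact Finite.of_injective _ this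

/-! ### The groups `G n` -/

section G

variable (n : ℕ) [NeZero n]

/-- The cyclic antisymmetric matrix. -/
def Z0 (i k : ZMod n) : F := (if k = i + 1 then 1 else 0) - (if i = k + 1 then 1 else 0)

/-- The form defining `G n`. -/
def formB : Bil ((ZMod n → F) × F) (ZMod n → ZMod n → F) where
  f p q := fun i k => p.1 i * q.1 k - q.1 i * p.1 k +
    ((∑ l, p.1 l) * q.2 - (∑ l, q.1 l) * p.2) * Z0 n i k
  addl a b c := by
    funext i k
    simp only [Prod.fst_add, Prod.snd_add, Pi.add_apply, Finset.sum_add_distrib]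
    ring
  addr a b c := by
    funext i k
    simp only [Prod.fst_add, Prod.snd_add, Pi.add_apply, Finset.sum_add_distrib]
    ring

/-- The group `G n`. -/
abbrev G := Ext (formB n)

/-- The subgroup on which two coordinates agree. -/
def Gam (j j' : ZMod n) : Subgroup (G n) where
  carrier := {g | g.v.1 j = g.v.1 j'}
  mul_mem' := by
    intro a b ha hb
    simp only [Set.mem_ofPred_eq] at *
    rcases Int.units_eq_one_or a.s with hs | hs <;> simp [hs, ha, hb, Units.smul_def]
  one_mem' := by simp
  inv_mem' := by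
    intro a ha
    simp only [Set.mem_ofPred_eq] at *
    rcases Int.units_eq_one_or a.s with hs | hs <;> simp [hs, ha, Units.smul_def]

variable {n}

/-- the additive functional `ν`. -/
def nu (j j' : ZMod n) : (ZMod n → ZMod n → F) →+ F where
  toFun M := M j (j + 1) - M j' (j + 1)
  map_zero' := by simp
  map_add' a b := by simp only [Pi.add_apply]; ring

lemma nu_form (hn : 5 ≤ n) (j j' : ZMod n) (h1 : j' ≠ j) (h2 : j' ≠ j + 2) (p q : (ZMod n → F) × F)
    (hp : p.1 j = p.1 j') (hq : q.1 j = q.1 j') :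
    nu j j' ((formB n).f p q) = (∑ l, p.1 l) * q.2 - (∑ l, q.1 l) * p.2 := by
  have e1 : Z0 n j (j + 1) = 1 := by
    have : ¬ (j = j + 1 + 1) := by
      intro h
      have h' : (2 : ZMod n) = 0 := by
        have := left_eq_add.mp (show j = j + (1 + 1) by rw [← add_assoc]; exact h)
        rw [← this]; norm_num
      have h'' : ((2 : ℕ) : ZMod n) = 0 := by exact_mod_cast h'
      rw [ZMod.natCast_eq_zero_iff] at h''
      have := Nat.le_of_dvd (by norm_num) h''
      omega
    simp [Z0, this]
  have e2 : Z0 n j' (j + 1) = 0 := by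
    have a1 : ¬ (j + 1 = j' + 1) := fun h => h1 (add_right_cancel h).symm
    have a2 : ¬ (j' = j + 1 + 1) := by
      intro h; apply h2; rw [h, add_assoc]; norm_num
    simp [Z0, a1, a2]
  simp only [nu, formB, AddMonoidHom.coe_mk, ZeroHom.coe_mk, e1, e2, hp, hq]
  ring


lemma sep (hn : 5 ≤ n) (j j' : ZMod n) (h1 : j' ≠ j) (h2 : j' ≠ j + 2) (g : Gam n j j')
    (hg : g ≠ 1) : ∃ θ : Gam n j j' →* H, θ g ≠ 1 := by
  classical
  obtain ⟨g, hgm⟩ := g
  by_cases hs : g.s = 1
  swap
  · refine ⟨Ext.homOf (Gam n j j') 0 0 (by intro _ _ _ _; simp [detB]), ?_⟩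
    intro h
    apply hs
    have := congrArg Ext.s h
    simpa [Ext.homOf] using this
  by_cases hx : g.v.1 = 0
  swap
  · obtain ⟨i, hi⟩ := Function.ne_iff.mp hx
    refine ⟨Ext.homOf (Gam n j j')
      { toFun := fun v => (v.1 i, 0), map_zero' := by simp, map_add' := by intro a b; simp } 0
      (by intro _ _ _ _; simp [detB]), ?_⟩
    intro h
    apply hi
    have := congrArg (fun z : H => z.v.1) h
    simpa [Ext.homOf] using this
  by_cases hy : g.v.2 = 0
  swap
  · refine ⟨Ext.homOf (Gam n j j')
      { toFun := fun v => (0, v.2), map_zero' := by simp, map_add' := by intro a b; simp } 0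
      (by intro _ _ _ _; simp [detB]), ?_⟩
    intro h
    apply hy
    have := congrArg (fun z : H => z.v.2) h
    simpa [Ext.homOf] using this
  by_cases hnu : nu j j' g.w = 0
  swap
  · refine ⟨Ext.homOf (Gam n j j')
      { toFun := fun v => (∑ l, v.1 l, v.2), map_zero' := by simp,
        map_add' := by intro a b; simp [Finset.sum_add_distrib] } (nu j j') ?_, ?_⟩
    · intro a b ha hb
      rw [nu_form hn j j' h1 h2 a.v b.v ha hb]
      simp only [detB, AddMonoidHom.coe_mk, ZeroHom.coe_mk]
      ring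
    · intro h
      apply hnu
      have := congrArg (fun z : H => z.w) h
      simpa [Ext.homOf] using this
  · have hw : g.w ≠ 0 := by
      intro hw
      apply hg
      apply Subtype.ext
      exact Ext.ext hs (Prod.ext hx hy) hw
    obtain ⟨i, hi⟩ := Function.ne_iff.mp hw
    obtain ⟨k, hk⟩ := Function.ne_iff.mp hi
    refine ⟨Ext.homOf (Gam n j j')
      { toFun := fun v => (v.1 i, v.1 k), map_zero' := by simp, map_add' := by intro a b; simp }
      { toFun := fun M => M i k - nu j j' M * Z0 n i k,
        map_zero' := by simp,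
        map_add' := by intro a b; simp only [Pi.add_apply, map_add]; ring } ?_, ?_⟩
    · intro a b ha hb
      simp only [AddMonoidHom.coe_mk, ZeroHom.coe_mk]
      rw [nu_form hn j j' h1 h2 a.v b.v ha hb]
      simp only [detB, formB]
      ring
    · intro h
      apply hk
      have := congrArg (fun z : H => z.w) h
      simpa [Ext.homOf, hnu] using this

/-- The subgroup `Gam` has the property of the problem. -/
lemma good (hn : 5 ≤ n) (j j' : ZMod n) (h1 : j' ≠ j) (h2 : j' ≠ j + 2) (a : Gam n j j') :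
    ∃ (I : Type) (φ : (Subgroup.normalClosure ({a} : Set (Gam n j j'))) →* (I → H)),
      Function.Injective φ := by
  refine ⟨Gam n j j' →* H,
    (MonoidHom.pi (fun θ : Gam n j j' →* H => θ)).comp (Subgroup.subtype _), ?_⟩
  rw [injective_iff_map_eq_one]
  intro x hx
  by_contra hne
  have hne' : (x : Gam n j j') ≠ 1 := fun h => hne (Subtype.ext h)
  obtain ⟨θ, hθ⟩ := sep hn j j' h1 h2 x.1 hne'
  exact hθ (congrFun hx θ)

/-- The involution. -/
def invo (n : ℕ) [NeZero n] : G n := ⟨-1, 0, 0⟩

lemma form_anti (a b : (ZMod n → F) × F) : (formB n).f b a = - (formB n).f a b := by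
  funext i k
  simp only [formB, Pi.neg_apply]
  ring

lemma form_self (a : (ZMod n → F) × F) : (formB n).f a a = 0 := by
  funext i k
  simp only [formB, Pi.zero_apply]
  ring

lemma three_F (x : F) : x + x + x = 0 := by
  revert x; decide

lemma mem_nc (v : (ZMod n → F) × F) :
    (⟨1, v, 0⟩ : G n) ∈ Subgroup.normalClosure ({invo n} : Set (G n)) := by
  have ha : invo n ∈ Subgroup.normalClosure ({invo n} : Set (G n)) :=
    Subgroup.subset_normalClosure rfl
  have h1 := Subgroup.normalClosure_normal.conj_mem _ ha (⟨1, -v, 0⟩ : G n)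
  have h2 := mul_mem h1 ha
  have h3 : -v + -v = v := by
    have : v + v + v = 0 := by
      ext
      · simp only [Prod.fst_add, Pi.add_apply]; exact three_F _
      · simp only [Prod.snd_add]; exact three_F _
    rw [← neg_add, neg_eq_iff_eq_neg]
    exact eq_neg_of_add_eq_zero_left this
  convert h2 using 1
  ext1
  · simp [invo]
  · simp [invo, Units.smul_def, h3]
  · simp [invo, (formB n).negl, (formB n).negr, (formB n).zeror, form_self,
      Units.smul_def]

/-- The elements `(1, v, 0)` of the normal closure. -/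
def nv (v : (ZMod n → F) × F) : Subgroup.normalClosure ({invo n} : Set (G n)) :=
  ⟨⟨1, v, 0⟩, mem_nc v⟩

omit [NeZero n] in
lemma three_w (x : ZMod n → ZMod n → F) : x + x + x = 0 := by
  funext i k; exact three_F _

lemma nv_cube (v : (ZMod n → F) × F) : nv v * nv v * nv v = 1 := by
  apply Subtype.ext
  ext1
  · simp [nv]
  · have : v + v + v = 0 := by
      ext
      · simp only [Prod.fst_add, Pi.add_apply]; exact three_F _
      · simp only [Prod.snd_add]; exact three_F _
    simpa [nv] using this
  · simp [nv, (formB n).addl, form_self]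

lemma units_cube (s : ℤˣ) (h : s * s * s = 1) : s = 1 := by
  rcases Int.units_eq_one_or s with rfl | rfl
  · rfl
  · simp at h

lemma nv_comm (v v' : (ZMod n → F) × F) :
    ((nv v' * nv v * (nv v')⁻¹ * (nv v)⁻¹ : Subgroup.normalClosure ({invo n} : Set (G n))) : G n)
      = ⟨1, 0, (formB n).f v v'⟩ := by
  have := Ext.comm_eq (β := formB n) v v' 0 0 form_anti three_w
  simpa [nv] using this

lemma det_anti (a b : F × F) : detB.f b a = - detB.f a b := by
  simp only [detB]; ring

section theta

variable (θ : Subgroup.normalClosure ({invo n} : Set (G n)) →* H)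

lemma theta_s (v : (ZMod n → F) × F) : (θ (nv v)).s = 1 := by
  have h := congrArg θ (nv_cube v)
  rw [map_mul, map_mul, map_one] at h
  have := congrArg Ext.s h
  exact units_cube _ (by simpa using this)

lemma theta_comm (v v' : (ZMod n → F) × F) :
    θ (nv v' * nv v * (nv v')⁻¹ * (nv v)⁻¹) = ⟨1, 0, detB.f (θ (nv v)).v (θ (nv v')).v⟩ := by
  have h1 : θ (nv v) = ⟨1, (θ (nv v)).v, (θ (nv v)).w⟩ := Ext.ext (theta_s θ v) rfl rfl
  have h2 : θ (nv v') = ⟨1, (θ (nv v')).v, (θ (nv v')).w⟩ := Ext.ext (theta_s θ v') rfl rfl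
  rw [map_mul, map_mul, map_mul, map_inv, map_inv, h1, h2]
  exact Ext.comm_eq _ _ _ _ det_anti three_F

/-- basis vectors -/
def E (i : ZMod n) : (ZMod n → F) × F := (Pi.single i 1, 0)

/-- the last basis vector -/
def bb : (ZMod n → F) × F := (0, 1)

lemma form_E_b (i : ZMod n) : (formB n).f (E i) bb = Z0 n := by
  funext p q
  simp [formB, E, bb]

lemma sum_form : ∑ i : ZMod n, (formB n).f (E i) (E (i + 1)) = Z0 n := by
  funext p q
  simp only [Finset.sum_apply, formB, E, mul_zero, zero_mul, add_zero, Z0,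
    Finset.sum_sub_distrib, sub_self]
  congr 1
  · rw [Finset.sum_eq_single p]
    · simp [Pi.single_apply]
    · intro b _ hb
      simp [Pi.single_apply, Ne.symm hb]
    · simp
  · rw [Finset.sum_eq_single q]
    · simp [Pi.single_apply]
    · intro b _ hb
      simp [Pi.single_apply, Ne.symm hb]
    · simp

lemma sum_theta (T : Finset (ZMod n)) :
    ∃ x : Subgroup.normalClosure ({invo n} : Set (G n)),
      (x : G n) = ⟨1, 0, ∑ i ∈ T, (formB n).f (E i) (E (i + 1))⟩ ∧
      θ x = ⟨1, 0, ∑ i ∈ T, detB.f (θ (nv (E i))).v (θ (nv (E (i + 1)))).v⟩ := by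
  classical
  induction T using Finset.induction_on with
  | empty => exact ⟨1, by ext1 <;> simp, by ext1 <;> simp⟩
  | insert a T ha ih =>
    obtain ⟨x, hx1, hx2⟩ := ih
    refine ⟨nv (E (a + 1)) * nv (E a) * (nv (E (a + 1)))⁻¹ * (nv (E a))⁻¹ * x, ?_, ?_⟩
    · rw [Subgroup.coe_mul, nv_comm, hx1, Finset.sum_insert ha]
      ext1 <;> simp [(formB n).zerol]
    · rw [map_mul, theta_comm, hx2, Finset.sum_insert ha]
      ext1 <;> simp [detB.zerol]

lemma theta_z (x : Subgroup.normalClosure ({invo n} : Set (G n))) (hx : (x : G n) = ⟨1, 0, Z0 n⟩) :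
    θ x = 1 := by
  obtain ⟨x', h1, h2⟩ := sum_theta θ Finset.univ
  rw [sum_form] at h1
  have hxx : x' = x := Subtype.ext (h1.trans hx.symm)
  rw [hxx] at h2
  set c := ∑ i : ZMod n, detB.f (θ (nv (E i))).v (θ (nv (E (i + 1)))).v with hc
  have h3 : ∀ i : ZMod n, detB.f (θ (nv (E i))).v (θ (nv bb)).v = c := by
    intro i
    have h4 := theta_comm θ (E i) bb
    have h5 : nv bb * nv (E i) * (nv bb)⁻¹ * (nv (E i))⁻¹ = x := by
      apply Subtype.ext
      rw [nv_comm, form_E_b, hx]
    rw [h5, h2] at h4
    exact (congrArg Ext.w h4).symm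
  have h6 : ∀ i : ZMod n, c * detB.f (θ (nv (E i))).v (θ (nv (E (i + 1)))).v =
      c * (detB.f (θ (nv (E i))).v (θ (nv (E 0))).v -
        detB.f (θ (nv (E (i + 1)))).v (θ (nv (E 0))).v) := by
    intro i
    have p1 := h3 i
    have p2 := h3 (i + 1)
    have p3 := h3 0
    generalize (θ (nv (E i))).v = P at *
    generalize (θ (nv (E (i + 1)))).v = Q at *
    generalize (θ (nv (E 0))).v = R at *
    generalize (θ (nv bb)).v = B at *
    have key : detB.f P Q * detB.f R B - detB.f P R * detB.f Q B + detB.f P B * detB.f Q R = 0 := by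
      simp only [detB]; ring
    rw [p1, p2, p3] at key
    linear_combination key
  have h7 : c * c = 0 := by
    calc c * c = ∑ i : ZMod n, c * detB.f (θ (nv (E i))).v (θ (nv (E (i + 1)))).v := by
            rw [← Finset.mul_sum, ← hc]
      _ = ∑ i : ZMod n, c * (detB.f (θ (nv (E i))).v (θ (nv (E 0))).v -
            detB.f (θ (nv (E (i + 1)))).v (θ (nv (E 0))).v) := Finset.sum_congr rfl fun i _ => h6 i
      _ = 0 := by
            have h := Equiv.sum_comp (Equiv.addRight (1 : ZMod n))
                (fun i => detB.f (θ (nv (E i))).v (θ (nv (E 0))).v)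
            simp only [Equiv.coe_addRight] at h
            rw [← Finset.mul_sum, Finset.sum_sub_distrib, h, sub_self, mul_zero]
  have h8 : c = 0 := by
    revert h7
    generalize c = d
    revert d
    decide
  rw [h2, h8]
  rfl

end theta

lemma bad (hn : 5 ≤ n) : ¬ ∃ (I : Type)
    (φ : (Subgroup.normalClosure ({invo n} : Set (G n))) →* (I → H)), Function.Injective φ := by
  rintro ⟨I, φ, hφ⟩
  let x : Subgroup.normalClosure ({invo n} : Set (G n)) :=
    nv bb * nv (E 0) * (nv bb)⁻¹ * (nv (E 0))⁻¹
  have hx : (x : G n) = ⟨1, 0, Z0 n⟩ := by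
    rw [show (x : G n) = _ from nv_comm _ _, form_E_b]
  have h1 : φ x = 1 := by
    funext i
    exact theta_z ((Pi.evalMonoidHom (fun _ : I => H) i).comp φ) x hx
  have h2 : x = 1 := hφ (by rw [h1, map_one])
  rw [h2] at hx
  have h3 := congrFun (congrFun (congrArg Ext.w hx) 0) 1
  have h4 : (1 : ZMod n) ≠ 0 := by
    intro h
    have h'' : ((1 : ℕ) : ZMod n) = 0 := by exact_mod_cast h
    rw [ZMod.natCast_eq_zero_iff] at h''
    have := Nat.le_of_dvd (by norm_num) h''
    omega
  have h5 : ¬ ((0 : ZMod n) = 1 + 1) := by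
    intro h
    have h'' : ((2 : ℕ) : ZMod n) = 0 := by
      rw [h]; norm_num
    rw [ZMod.natCast_eq_zero_iff] at h''
    have := Nat.le_of_dvd (by norm_num) h''
    omega
  simp [Z0, h5] at h3

end G

/-- The negation of the preceding statement: For every finite group H there are finitely many group quasi-identities whose models are exactly the groups in which every normal closure of one element embeds in a direct power of H. -/
theorem result :
    ¬ (∀ (H : Type) [Group H] [Finite H],
      ∃ (k : ℕ) (n : Fin k → ℕ) (prem : (i : Fin k) → List (FreeGroup (Fin (n i))))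
        (concl : (i : Fin k) → FreeGroup (Fin (n i))),
        ∀ (G : Type) [Group G],
          (∀ a : G, ∃ (I : Type) (φ : (Subgroup.normalClosure ({a} : Set G)) →* (I → H)),
              Function.Injective φ) ↔
          (∀ i : Fin k, ∀ f : Fin (n i) → G,
              (∀ p ∈ prem i, FreeGroup.lift f p = 1) → FreeGroup.lift f (concl i) = 1)) := by
  intro hall
  obtain ⟨k, m, prem, concl, hiff⟩ := hall H
  let N : ℕ := 5 + ∑ i : Fin k, 3 ^ (m i)
  have hN5 : 5 ≤ N := Nat.le_add_right _ _
  have : NeZero N := ⟨by omega⟩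
  have hNi : ∀ i : Fin k, 3 ^ (m i) < N := by
    intro i
    have : 3 ^ (m i) ≤ ∑ i : Fin k, 3 ^ (m i) :=
      Finset.single_le_sum (f := fun i => 3 ^ (m i)) (fun _ _ => Nat.zero_le _) (Finset.mem_univ i)
    have : 5 + 3 ^ (m i) ≤ N := Nat.add_le_add_left this 5
    omega
  have hbad : ¬ (∀ a : G N, ∃ (I : Type)
      (φ : (Subgroup.normalClosure ({a} : Set (G N))) →* (I → H)), Function.Injective φ) :=
    fun h => bad hN5 (h (invo N))
  rw [hiff (G N)] at hbad
  push Not at hbad
  obtain ⟨i, f, hprem, hconcl⟩ := hbad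
  -- pigeonhole
  obtain ⟨j, j', hjj, hcol⟩ : ∃ j j' : ZMod N, j ≠ j' ∧
      (fun r : Fin (m i) => (f r).v.1 j) = (fun r : Fin (m i) => (f r).v.1 j') := by
    apply Fintype.exists_ne_map_eq_of_card_lt (fun (j : ZMod N) (r : Fin (m i)) => (f r).v.1 j)
    simp only [Fintype.card_pi, ZMod.card, Finset.prod_const, Finset.card_univ, Fintype.card_fin]
    exact hNi i
  -- arrange the second inequality
  obtain ⟨j, j', h1, h2, hcol⟩ : ∃ j j' : ZMod N, j' ≠ j ∧ j' ≠ j + 2 ∧
      (∀ r : Fin (m i), (f r).v.1 j = (f r).v.1 j') := by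
    by_cases h2 : j' = j + 2
    · refine ⟨j', j, hjj, ?_, fun r => (congrFun hcol r).symm⟩
      intro h
      rw [h2] at h
      have h' : (4 : ZMod N) = 0 := by
        have := left_eq_add.mp (show j = j + (2 + 2) by rw [← add_assoc]; exact h)
        rw [← this]; norm_num
      have h'' : ((4 : ℕ) : ZMod N) = 0 := by exact_mod_cast h'
      rw [ZMod.natCast_eq_zero_iff] at h''
      have := Nat.le_of_dvd (by norm_num) h''
      omega
    · exact ⟨j, j', Ne.symm hjj, h2, fun r => congrFun hcol r⟩
  -- the tuple lies in the subgroup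
  let f' : Fin (m i) → Gam N j j' := fun r => ⟨f r, hcol r⟩
  have hcomp : ∀ u : FreeGroup (Fin (m i)),
      ((FreeGroup.lift f' u : Gam N j j') : G N) = FreeGroup.lift f u := by
    intro u
    have : (Gam N j j').subtype.comp (FreeGroup.lift f') = FreeGroup.lift f := by
      apply FreeGroup.ext_hom
      intro r
      simp [f']
    exact congrArg (fun h : FreeGroup (Fin (m i)) →* G N => h u) this
  have hgood := (hiff (Gam N j j')).mp (fun a => good hN5 j j' h1 h2 a) i f' (by
    intro p hp
    apply Subtype.ext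
    rw [hcomp]
    exact hprem p hp)
  apply hconcl
  rw [← hcomp, hgood]
  rfl

end Pool.Agent.S02320
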