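import Pool.Statements.S02322
import Pool.Agent.Helper914.Tower

set_option autoImplicit false
open Pool Pool.MP_ead43b_al

namespace Pool.Agent.S02322

open Pool.Agent.Helper914.Tower Equiv

/-- the letters -/
abbrev Lt := ZMod 3 × Bool

/-- the sign attached to a letter -/
def sg (s : Bool) : ℤ := if s then -1 else 1

theorem sg_mul (s : Bool) (y : ℤ) : sg s * (sg s * y) = y := by
  cases s <;> simp [sg]

/-- self-similarity of `ℤ × ℕ` -/
def Ph : Lt × (ℤ × ℕ) ≃ ℤ × ℕ where
  toFun := fun z => (3 * (sg z.1.2 * z.2.1) + (z.1.1.val : ℤ), boolProdNatEquivNat (z.1.2, z.2.2))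
  invFun := fun w => (((w.1 : ZMod 3), (boolProdNatEquivNat.symm w.2).1),
    (sg (boolProdNatEquivNat.symm w.2).1 * (w.1 / 3), (boolProdNatEquivNat.symm w.2).2))
  left_inv := by
    rintro ⟨⟨r, s⟩, ⟨y, n⟩⟩
    have hr : (r.val : ℤ) < 3 := by exact_mod_cast ZMod.val_lt r
    have hr0 : (0 : ℤ) ≤ r.val := by positivity
    have h1 : (3 * (sg s * y) + (r.val : ℤ)) / 3 = sg s * y := by omega
    simp only [Equiv.symm_apply_apply, h1, sg_mul]
    have h2 : (((3 * (sg s * y) + (r.val : ℤ) : ℤ)) : ZMod 3) = r := by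
      push_cast
      rw [show ((3 : ZMod 3)) = 0 from rfl]
      simp
    rw [h2]
  right_inv := by
    rintro ⟨x, m⟩
    simp only [sg_mul, Prod.mk.eta, Equiv.apply_symm_apply, Prod.mk.injEq, and_true]
    rw [ZMod.val_intCast]
    push_cast
    omega

theorem Ph_apply (r : ZMod 3) (s : Bool) (y : ℤ) (n : ℕ) :
    Ph ((r, s), (y, n)) = (3 * (sg s * y) + (r.val : ℤ), boolProdNatEquivNat (s, n)) := rfl

/-- translation by `z` -/
def hz : Multiplicative ℤ →* Perm (ℤ × ℕ) where
  toFun := fun z => Equiv.prodCongr (Equiv.addRight z.toAdd) (Equiv.refl ℕ)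
  map_one' := by ext ⟨x, n⟩ <;> simp
  map_mul' := by
    intro a b
    ext ⟨x, n⟩
    · simp [Perm.mul_apply]; ring
    · simp [Perm.mul_apply]

/-- the element of infinite order -/
def h : Perm (ℤ × ℕ) := hz (Multiplicative.ofAdd 1)

theorem h_zpow (z : ℤ) (x : ℤ) (n : ℕ) : (h ^ z) (x, n) = (x + z, n) := by
  rw [h, ← map_zpow, ← ofAdd_zsmul]
  simp [hz]

/-- rotation of the first coordinate of the letters -/
def rot (x : ZMod 3) : Perm Lt := Equiv.prodCongr (Equiv.addRight x) (Equiv.refl Bool)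

/-- the group acting on letters -/
def P : Subgroup (Perm Lt) where
  carrier := {p | ∃ a : ZMod 3, ∀ j, (p j).1 = j.1 + a}
  mul_mem' := by
    rintro p q ⟨a, ha⟩ ⟨b, hb⟩
    refine ⟨b + a, fun j => ?_⟩
    rw [Perm.mul_apply, ha, hb, add_assoc]
  one_mem' := ⟨0, fun j => by simp⟩
  inv_mem' := by
    rintro p ⟨a, ha⟩
    refine ⟨-a, fun j => ?_⟩
    have := ha (p⁻¹ j)
    rw [show p (p⁻¹ j) = j by simp] at this
    rw [this]; ring

theorem rot_mem (x : ZMod 3) : rot x ∈ P := ⟨x, fun _ => rfl⟩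

/-- exponents -/
def kap (j : Lt) (x : ℤ) : ℤ :=
  if j.2 then 1 - (x + 3 - (j.1.val : ℤ)) / 3 else (x + 3 - (j.1.val : ℤ)) / 3

def c (j : Lt) : ℤ := kap j 0

theorem kap_key (x : ℤ) : h ^ x * tr Ph h c = th Ph (fun j => h ^ kap j x) (rot (x : ZMod 3)) := by
  apply th_ext Ph
  rintro ⟨r, s⟩ ⟨y, n⟩
  rw [Perm.mul_apply, tr, th_apply, th_apply]
  simp only [Perm.coe_one, id_eq, h_zpow, Ph_apply]
  have hr : (r.val : ℤ) < 3 := by exact_mod_cast ZMod.val_lt r
  have hr0 : (0 : ℤ) ≤ r.val := by positivity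
  have h2 : ((r + (x : ZMod 3)).val : ℤ) = ((r.val : ℤ) + x) % 3 := by
    have := ZMod.val_intCast (n := 3) ((r.val : ℤ) + x)
    push_cast at this
    rw [ZMod.natCast_zmod_val] at this
    exact this
  have h3 : rot (x : ZMod 3) (r, s) = (r + (x : ZMod 3), s) := rfl
  rw [h3, Ph_apply, h2]
  simp only [c, kap, h2]
  cases s
  · simp only [sg, Bool.false_eq_true, if_false, one_mul, Prod.mk.injEq, and_true]
    omega
  · simp only [sg, if_true, Prod.mk.injEq, and_true]
    omega

theorem h_mem : h ∈ W Ph P (Subgroup.zpowers h) := by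
  have h1 := kap_key 1
  have h2 : h = th Ph (fun j => h ^ kap j 1) (rot ((1 : ℤ) : ZMod 3)) * (tr Ph h c)⁻¹ := by
    rw [← h1]; group
  rw [h2]
  refine Subgroup.mul_mem _ ⟨_, _, rot_mem _, fun j => ?_, rfl⟩ (Subgroup.inv_mem _
    ⟨_, _, P.one_mem, fun j => ?_, rfl⟩)
  · rw [← h2]; exact Subgroup.zpow_mem_zpowers _ _
  · rw [← h2]; exact Subgroup.zpow_mem_zpowers _ _

theorem c_cases (j : Lt) : c j = 0 ∨ c j = 1 := by
  obtain ⟨r, s⟩ := j
  have hr : (r.val : ℤ) < 3 := by exact_mod_cast ZMod.val_lt r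
  have hr0 : (0 : ℤ) ≤ r.val := by positivity
  cases s <;> simp only [c, kap, if_true, Bool.false_eq_true, if_false] <;> omega

/-- the swap of two letters -/
def sw : Perm Lt := Equiv.swap (1, false) (1, true)

theorem sw_mem : sw ∈ P := by
  refine ⟨0, ?_⟩
  decide

theorem kap_sw (j : Lt) : kap (sw j) 1 = c j := by
  revert j
  decide

theorem base : ∀ x : ℤ, R Ph P h c 1 (h ^ x) := by
  have h0 : R Ph P h c 1 (h ^ (0 : ℤ)) := by simpa using R_refl Ph (P := P) (h := h) (c := c) 1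
  have h1 : R Ph P h c 1 (h ^ (1 : ℤ)) := by
    refine R_lift Ph (k := fun j => h ^ c j) (p := 1) (r := sw) (k' := fun j => h ^ kap j 1)
      (p' := rot ((1 : ℤ) : ZMod 3)) P.one_mem (rot_mem _) sw_mem ?_ (kap_key 1) ?_
    · rw [one_mul, tr]
    · intro i
      rw [kap_sw]
      exact R_refl Ph _
  have main : ∀ n : ℕ, ∀ x : ℤ, (2 * x - 1).natAbs ≤ n → R Ph P h c 1 (h ^ x) := by
    intro n
    induction n with
    | zero =>
      intro x hx
      omega
    | succ n ih =>
      intro x hx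
      by_cases hx0 : x = 0
      · rw [hx0]; exact h0
      by_cases hx1 : x = 1
      · rw [hx1]; exact h1
      refine R_lift Ph (k := fun j => h ^ c j) (p := 1) (r := 1) (k' := fun j => h ^ kap j x)
        (p' := rot (x : ZMod 3)) P.one_mem (rot_mem _) P.one_mem ?_ (kap_key x) ?_
      · rw [one_mul, tr]
      · intro i
        have hc : R Ph P h c 1 (h ^ c i) := by
          rcases c_cases i with hi | hi
          · rw [hi]; exact h0
          · rw [hi]; exact h1
        refine R_trans Ph (R_symm Ph hc) (ih _ ?_)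
        obtain ⟨r, s⟩ := i
        have hr : (r.val : ℤ) < 3 := by exact_mod_cast ZMod.val_lt r
        have hr0 : (0 : ℤ) ≤ r.val := by positivity
        cases s <;> simp only [kap, Perm.coe_one, id_eq, if_true, Bool.false_eq_true, if_false] <;>
          omega
  intro x
  exact main _ x le_rfl

/-- the kernel part of `P` -/
def P0 : Subgroup (Perm Lt) where
  carrier := {p | ∀ j, (p j).1 = j.1}
  mul_mem' := by
    rintro p q hp hq j
    rw [Perm.mul_apply, hp, hq]
  one_mem' := fun j => rfl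
  inv_mem' := by
    rintro p hp j
    have := hp (p⁻¹ j)
    rw [show p (p⁻¹ j) = j by simp] at this
    exact this.symm

theorem P0_form (p : Perm Lt) (hp : p ∈ P0) (r : ZMod 3) (s : Bool) :
    p (r, s) = (r, xor s (p (r, false)).2) := by
  have h1 : ∀ s, (p (r, s)).1 = r := fun s => hp (r, s)
  have h2 : (p (r, true)).2 ≠ (p (r, false)).2 := by
    intro hh
    have : p (r, true) = p (r, false) := Prod.ext ((h1 _).trans (h1 _).symm) hh
    have := p.injective this
    simp at this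
  refine Prod.ext (h1 s) ?_
  cases s
  · simp
  · simp only [Bool.true_xor]
    exact Bool.eq_not_of_ne h2

theorem P0_comm (p q : Perm Lt) (hp : p ∈ P0) (hq : q ∈ P0) : p * q = q * p := by
  ext1 ⟨r, s⟩
  have h1 : p (q (r, s)) = (r, xor (xor s (q (r, false)).2) (p (r, false)).2) := by
    rw [P0_form q hq r s]
    exact P0_form p hp r _
  have h2 : q (p (r, s)) = (r, xor (xor s (p (r, false)).2) (q (r, false)).2) := by
    rw [P0_form p hp r s]
    exact P0_form q hq r _
  rw [Perm.mul_apply, Perm.mul_apply, h1, h2, Bool.xor_assoc, Bool.xor_assoc,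
    Bool.xor_comm (q (r, false)).2]

theorem P_solvable : Group.IsSolvable P := by
  have hP0 : Group.IsSolvable P0 := Group.isSolvable_of_comm (by
    rintro ⟨p, hp⟩ ⟨q, hq⟩
    exact Subtype.ext (P0_comm p q hp hq))
  let F : P →* Multiplicative (ZMod 3) :=
    { toFun := fun p => Multiplicative.ofAdd (((p : Perm Lt) (0, false)).1)
      map_one' := rfl
      map_mul' := by
        rintro ⟨p, a, ha⟩ ⟨q, b, hb⟩
        rw [← ofAdd_add]
        congr 1
        change ((p * q) (0, false)).1 = (p (0, false)).1 + (q (0, false)).1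
        rw [Perm.mul_apply, ha, ha (0, false), hb (0, false)]
        ring }
  let E : P0 →* P :=
    { toFun := fun p => ⟨p, 0, fun j => by rw [p.2 j, add_zero]⟩
      map_one' := rfl
      map_mul' := fun _ _ => rfl }
  refine Group.isSolvable_of_ker_le_range E F ?_
  rintro ⟨p, a, ha⟩ hp
  rw [MonoidHom.mem_ker] at hp
  have h0 : (p (0, false)).1 = 0 := hp
  rw [ha, zero_add] at h0
  exact ⟨⟨p, fun j => by rw [ha, h0, add_zero]⟩, rfl⟩

/-- The negation of the preceding statement: Suppose every finitely generated subgroup of a group G is soluble, and every element of G is a product ab with a, b taken from two periodic subgroups A and B. Then every element of G has finite order. -/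
theorem result :
    ¬ (∀ (G : Type) [Group G],
      (∀ S : Finset G, IsSolvable (Subgroup.closure (S : Set G))) →
      ∀ A B : Subgroup G,
        (∀ a ∈ A, IsOfFinOrder a) →
        (∀ b ∈ B, IsOfFinOrder b) →
        (∀ g : G, ∃ a ∈ A, ∃ b ∈ B, g = a * b) →
        Monoid.IsTorsion G) := by
  intro H
  have hPt : ∀ p ∈ P, ∃ n ∈ nonZeroDivisors ℕ, p ^ n = 1 := by
    intro p _
    exact ⟨orderOf p, mem_nonZeroDivisors_of_ne_zero (orderOf_pos p).ne', pow_orderOf_eq_one p⟩
  have hA : ∀ a ∈ AA Ph P, ∃ n ∈ nonZeroDivisors ℕ, a ^ n = 1 := by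
    rintro a ⟨n, hn⟩
    refine tow_torsion Ph _ hPt ?_ n a hn
    intro g hg
    exact ⟨1, Submonoid.one_mem _, by simpa using hg⟩
  have hB : ∀ b ∈ BB Ph P h c, ∃ n ∈ nonZeroDivisors ℕ, b ^ n = 1 := by
    rintro b ⟨n, hn⟩
    exact btow_torsion Ph _ hPt n b hn
  have hT := H (GG Ph P h h_mem) (GG_locally_solvable Ph h_mem P_solvable)
    ((AA Ph P).subgroupOf (GG Ph P h h_mem)) ((BB Ph P h c).subgroupOf (GG Ph P h h_mem))
    (by
      intro a ha
      obtain ⟨n, hn, h1⟩ := hA a ha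
      exact isOfFinOrder_iff_pow_eq_one.2 ⟨n, Nat.pos_of_ne_zero (nonZeroDivisors.ne_zero hn),
        Subtype.ext h1⟩)
    (by
      intro a ha
      obtain ⟨n, hn, h1⟩ := hB a ha
      exact isOfFinOrder_iff_pow_eq_one.2 ⟨n, Nat.pos_of_ne_zero (nonZeroDivisors.ne_zero hn),
        Subtype.ext h1⟩)
    (by
      rintro ⟨g, hg⟩
      obtain ⟨a, ha, b, hb, hab⟩ := fact Ph h_mem base g hg
      exact ⟨⟨a, AA_le Ph h_mem ha⟩, ha, ⟨b, BB_le Ph h_mem hb⟩, hb, Subtype.ext hab⟩)
  have hhG : h ∈ GG Ph P h h_mem := ⟨0, Subgroup.mem_zpowers h⟩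
  obtain ⟨n, hn, h1⟩ := isOfFinOrder_iff_pow_eq_one.1 (hT ⟨h, hhG⟩)
  have h2 : h ^ n = 1 := congrArg Subtype.val h1
  have h3 := congrArg (fun g : Perm (ℤ × ℕ) => (g (0, 0)).1) h2
  rw [← zpow_natCast] at h3
  simp only [h_zpow, Perm.coe_one, id_eq, zero_add] at h3
  omega

end Pool.Agent.S02322
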