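import Pool.Statements.S02328
-- import your own Pool.Agent.* helpers here
import Pool.Agent.Helper501.EP.Main

set_option autoImplicit false
open Pool Pool.MP_eb9bd3_al

namespace Pool.Agent.S02328

/-- The negation of the preceding statement: In every group with no element of order 2, the elements g such that every h has some iterated commutator [h,g,...,g] equal to 1 are exactly the members of some subgroup. -/
theorem result :
    ¬ (∀ (G : Type) [Group G], (∀ x : G, orderOf x ≠ 2) →
      ∃ H : Subgroup G, ∀ g : G,
        g ∈ H ↔ ∀ h : G, ∃ k : ℕ, (fun x : G => x⁻¹ * g⁻¹ * x * g)^[k] h = 1) := by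
  intro hyp
  obtain ⟨G, iG, L, hL, h2, g1, g2, e1, e2, e12⟩ := Pool.Agent.Helper501.EP.main
  obtain ⟨H, hH⟩ := hyp G (by
    intro x hx
    have h3 : x * x = 1 := by
      have := pow_orderOf_eq_one x
      rw [hx, pow_two] at this
      exact this
    have h4 : x = 1 := h2 x h3
    rw [h4, orderOf_one] at hx
    omega)
  have m1 : g1 ∈ H := (hH g1).2 e1
  have m2 : g2 ∈ H := (hH g2).2 e2
  exact e12 ((hH (g1 * g2)).1 (H.mul_mem m1 m2))

end Pool.Agent.S02328
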