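import Pool.Statements.S02335

set_option autoImplicit false
open Pool Pool.MP_ec79b7_al

namespace Pool.Agent.S02335

/-- An order preserving action of a lattice-ordered group on a complete chain. -/
structure LAct (G Λ : Type) [Group G] [Lattice G] [LinearOrder Λ] where
  act : G → Λ → Λ
  one : ∀ l, act 1 l = l
  mul : ∀ g h l, act (g * h) l = act g (act h l)
  mono : ∀ g l m, l ≤ m → act g l ≤ act g m
  sup : ∀ g h l, act (g ⊔ h) l = max (act g l) (act h l)
  inf : ∀ g h l, act (g ⊓ h) l = min (act g l) (act h l)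
  lub : ∀ S : Set Λ, ∃ a, IsLUB S a
  glb : ∀ S : Set Λ, ∃ a, IsGLB S a

/-- The Engel condition. -/
def Engel (G : Type) [Group G] : Prop :=
  ∀ x y : G, ∃ n : ℕ, (fun z : G => z⁻¹ * y⁻¹ * z * y)^[n] x = 1

namespace LAct
variable {G Λ : Type} [Group G] [Lattice G] [LinearOrder Λ] (T : LAct G Λ)

theorem inv_act (g : G) (l : Λ) : T.act g⁻¹ (T.act g l) = l := by
  rw [← T.mul, inv_mul_cancel, T.one]

theorem act_inv (g : G) (l : Λ) : T.act g (T.act g⁻¹ l) = l := by
  rw [← T.mul, mul_inv_cancel, T.one]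

theorem le_iff (g : G) (l m : Λ) : T.act g l ≤ T.act g m ↔ l ≤ m := by
  constructor
  · intro h
    have := T.mono g⁻¹ _ _ h
    rwa [T.inv_act, T.inv_act] at this
  · exact T.mono g l m

theorem lt_iff (g : G) (l m : Λ) : T.act g l < T.act g m ↔ l < m := by
  rw [← not_le, ← not_le, T.le_iff]

theorem inj (g : G) (l m : Λ) (h : T.act g l = T.act g m) : l = m := by
  have := congrArg (T.act g⁻¹) h
  rwa [T.inv_act, T.inv_act] at this

theorem mono_left {g h : G} (hgh : g ≤ h) (l : Λ) : T.act g l ≤ T.act h l := by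
  have h1 : g ⊔ h = h := sup_eq_right.mpr hgh
  have h2 := T.sup g h l
  rw [h1] at h2
  rw [h2]
  exact le_max_left _ _

theorem le_act {g : G} (hg : 1 ≤ g) (l : Λ) : l ≤ T.act g l := by
  have := T.mono_left hg l
  rwa [T.one] at this

theorem act_le {g : G} (hg : g ≤ 1) (l : Λ) : T.act g l ≤ l := by
  have := T.mono_left hg l
  rwa [T.one] at this

/-- `(p,q)` is an open interval fixed by `g` inside which `g` moves everything up. -/
def Comp (g : G) (p q : Λ) : Prop :=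
  T.act g p = p ∧ T.act g q = q ∧ ∀ l, p < l → l < q → l < T.act g l

theorem fix_inv {g : G} {p : Λ} (h : T.act g p = p) : T.act g⁻¹ p = p := by
  have := T.inv_act g p
  rwa [h] at this

theorem nc1 (hE : Engel G) {g : G} {p q : Λ} (hK : T.Comp g p q) (h : G) :
    ¬ (p < T.act h p ∧ T.act h p < q) := by
  rintro ⟨h1, h2⟩
  obtain ⟨k1, k2, k3⟩ := hK
  have hpq : p < q := h1.trans h2
  have g1 : T.act (g ⊔ 1) p = p := by rw [T.sup, k1, T.one, max_self]
  have g2 : T.act (g ⊔ 1) q = q := by rw [T.sup, k2, T.one, max_self]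
  have g3 : ∀ l, p < l → l < q → l < T.act (g ⊔ 1) l := by
    intro l hl1 hl2
    rw [T.sup]
    exact lt_max_of_lt_left (k3 l hl1 hl2)
  have g4 : (1 : G) ≤ g ⊔ 1 := le_sup_right
  have hh1 : T.act (h ⊔ 1) p = T.act h p := by
    rw [T.sup, T.one, max_eq_left h1.le]
  have hh2 : q ≤ T.act (h ⊔ 1) q := by
    rw [T.sup, T.one]; exact le_max_right _ _
  obtain ⟨n, hn⟩ := hE (h ⊔ 1) (g ⊔ 1)⁻¹
  have key : ∀ n : ℕ, p < T.act ((fun z : G => z⁻¹ * ((g ⊔ 1)⁻¹)⁻¹ * z * (g ⊔ 1)⁻¹)^[n] (h ⊔ 1)) p ∧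
      T.act ((fun z : G => z⁻¹ * ((g ⊔ 1)⁻¹)⁻¹ * z * (g ⊔ 1)⁻¹)^[n] (h ⊔ 1)) p < q ∧
      q ≤ T.act ((fun z : G => z⁻¹ * ((g ⊔ 1)⁻¹)⁻¹ * z * (g ⊔ 1)⁻¹)^[n] (h ⊔ 1)) q := by
    intro n
    induction n with
    | zero =>
      simp only [Function.iterate_zero, id]
      rw [hh1]
      exact ⟨h1, h2, hh2⟩
    | succ n ih =>
      rw [Function.iterate_succ_apply']
      generalize (fun z : G => z⁻¹ * ((g ⊔ 1)⁻¹)⁻¹ * z * (g ⊔ 1)⁻¹)^[n] (h ⊔ 1) = z at ih
      obtain ⟨i1, i2, i3⟩ := ih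
      have e1 : T.act (z⁻¹ * ((g ⊔ 1)⁻¹)⁻¹ * z * (g ⊔ 1)⁻¹) p =
          T.act z⁻¹ (T.act (g ⊔ 1) (T.act z p)) := by
        rw [T.mul, T.mul, T.mul, T.fix_inv g1, inv_inv]
      have e2 : T.act (z⁻¹ * ((g ⊔ 1)⁻¹)⁻¹ * z * (g ⊔ 1)⁻¹) q =
          T.act z⁻¹ (T.act (g ⊔ 1) (T.act z q)) := by
        rw [T.mul, T.mul, T.mul, T.fix_inv g2, inv_inv]
      rw [e1, e2]
      refine ⟨?_, ?_, ?_⟩
      · have := (T.lt_iff z⁻¹ _ _).mpr (g3 _ i1 i2)
        rwa [T.inv_act] at this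
      · have j1 : T.act (g ⊔ 1) (T.act z p) < q := by
          have := (T.lt_iff (g ⊔ 1) _ _).mpr i2
          rwa [g2] at this
        have j2 := (T.lt_iff z⁻¹ _ _).mpr (lt_of_lt_of_le j1 i3)
        rwa [T.inv_act] at j2
      · have := T.mono z⁻¹ _ _ (T.le_act g4 (T.act z q))
        rwa [T.inv_act] at this
  have := (key n).1
  rw [hn, T.one] at this
  exact lt_irrefl _ this

theorem nc2 (hE : Engel G) {g : G} {p q : Λ} (hK : T.Comp g p q) (h : G) :
    ¬ (p < T.act h q ∧ T.act h q < q) := by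
  rintro ⟨h1, h2⟩
  obtain ⟨k1, k2, k3⟩ := hK
  have g1 : T.act (g ⊔ 1) p = p := by rw [T.sup, k1, T.one, max_self]
  have g2 : T.act (g ⊔ 1) q = q := by rw [T.sup, k2, T.one, max_self]
  have g3 : ∀ l, p < l → l < q → l < T.act (g ⊔ 1) l := by
    intro l hl1 hl2
    rw [T.sup]
    exact lt_max_of_lt_left (k3 l hl1 hl2)
  have g4 : (1 : G) ≤ g ⊔ 1 := le_sup_right
  have hh1 : T.act (h ⊓ 1) q = T.act h q := by
    rw [T.inf, T.one, min_eq_left h2.le]
  have hh2 : T.act (h ⊓ 1) p ≤ p := by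
    rw [T.inf, T.one]; exact min_le_right _ _
  obtain ⟨n, hn⟩ := hE (h ⊓ 1) (g ⊔ 1)
  have key : ∀ n : ℕ, p < T.act ((fun z : G => z⁻¹ * (g ⊔ 1)⁻¹ * z * (g ⊔ 1))^[n] (h ⊓ 1)) q ∧
      T.act ((fun z : G => z⁻¹ * (g ⊔ 1)⁻¹ * z * (g ⊔ 1))^[n] (h ⊓ 1)) q < q ∧
      T.act ((fun z : G => z⁻¹ * (g ⊔ 1)⁻¹ * z * (g ⊔ 1))^[n] (h ⊓ 1)) p ≤ p := by
    intro n
    induction n with
    | zero =>
      simp only [Function.iterate_zero, id]
      rw [hh1]
      exact ⟨h1, h2, hh2⟩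
    | succ n ih =>
      rw [Function.iterate_succ_apply']
      generalize (fun z : G => z⁻¹ * (g ⊔ 1)⁻¹ * z * (g ⊔ 1))^[n] (h ⊓ 1) = z at ih
      obtain ⟨i1, i2, i3⟩ := ih
      have e1 : T.act (z⁻¹ * (g ⊔ 1)⁻¹ * z * (g ⊔ 1)) p =
          T.act z⁻¹ (T.act (g ⊔ 1)⁻¹ (T.act z p)) := by
        rw [T.mul, T.mul, T.mul, g1]
      have e2 : T.act (z⁻¹ * (g ⊔ 1)⁻¹ * z * (g ⊔ 1)) q =
          T.act z⁻¹ (T.act (g ⊔ 1)⁻¹ (T.act z q)) := by
        rw [T.mul, T.mul, T.mul, g2]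
      rw [e1, e2]
      have j0 : p < T.act (g ⊔ 1)⁻¹ (T.act z q) := by
        have := (T.lt_iff (g ⊔ 1)⁻¹ _ _).mpr i1
        rwa [T.fix_inv g1] at this
      have j1 : T.act (g ⊔ 1)⁻¹ (T.act z q) < q := by
        have := (T.lt_iff (g ⊔ 1)⁻¹ _ _).mpr i2
        rwa [T.fix_inv g2] at this
      refine ⟨?_, ?_, ?_⟩
      · have j2 := (T.lt_iff z⁻¹ _ _).mpr (lt_of_le_of_lt i3 j0)
        rwa [T.inv_act] at j2
      · have j3 := g3 _ j0 j1
        rw [T.act_inv] at j3
        have j4 := (T.lt_iff z⁻¹ _ _).mpr j3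
        rwa [T.inv_act] at j4
      · have j5 : T.act (g ⊔ 1)⁻¹ (T.act z p) ≤ T.act z p := by
          have := T.le_act g4 (T.act (g ⊔ 1)⁻¹ (T.act z p))
          rwa [T.act_inv] at this
        have j6 := T.mono z⁻¹ _ _ j5
        rwa [T.inv_act] at j6
  have := (key n).2.1
  rw [hn, T.one] at this
  exact lt_irrefl _ this

theorem block (hE : Engel G) {g : G} {p q : Λ} (hK : T.Comp g p q) (h : G) {l : Λ}
    (h1 : p < l) (h2 : l < q) (h3 : p < T.act h l) (h4 : T.act h l < q) :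
    T.act h p = p ∧ T.act h q = q := by
  have a1 : T.act h p < T.act h l := (T.lt_iff h _ _).mpr h1
  have a2 : T.act h l < T.act h q := (T.lt_iff h _ _).mpr h2
  have b1 : T.act h⁻¹ p < l := by
    have := (T.lt_iff h⁻¹ _ _).mpr h3
    rwa [T.inv_act] at this
  have b2 : l < T.act h⁻¹ q := by
    have := (T.lt_iff h⁻¹ _ _).mpr h4
    rwa [T.inv_act] at this
  constructor
  · rcases lt_trichotomy (T.act h p) p with c | c | c
    · exfalso
      have c1 := (T.lt_iff h⁻¹ _ _).mpr c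
      rw [T.inv_act] at c1
      exact T.nc1 hE hK h⁻¹ ⟨c1, b1.trans h2⟩
    · exact c
    · exact absurd ⟨c, a1.trans h4⟩ (T.nc1 hE hK h)
  · rcases lt_trichotomy (T.act h q) q with c | c | c
    · exact absurd ⟨h3.trans a2, c⟩ (T.nc2 hE hK h)
    · exact c
    · exfalso
      have c1 := (T.lt_iff h⁻¹ _ _).mpr c
      rw [T.inv_act] at c1
      exact T.nc2 hE hK h⁻¹ ⟨h1.trans b2, c1⟩

theorem exists_comp {g : G} {l : Λ} (hl : l < T.act g l) :
    ∃ p q, T.Comp g p q ∧ p < l ∧ l < q := by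
  set S : Set Λ := Set.range (fun k : ℤ => T.act (g ^ k) l) with hS
  have hgS : ∀ a ∈ S, T.act g a ∈ S := by
    rintro a ⟨k, rfl⟩
    exact ⟨1 + k, by simp only [zpow_add, zpow_one, T.mul]⟩
  have hgS' : ∀ a ∈ S, T.act g⁻¹ a ∈ S := by
    rintro a ⟨k, rfl⟩
    exact ⟨-1 + k, by simp only [zpow_add, zpow_neg, zpow_one, T.mul]⟩
  obtain ⟨p, hp⟩ := T.glb S
  obtain ⟨q, hq⟩ := T.lub S
  have hlS : l ∈ S := ⟨0, by simp [T.one]⟩
  have hgp : ∀ h : G, (∀ a ∈ S, T.act h⁻¹ a ∈ S) → T.act h p ≤ p := by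
    intro h hh
    apply hp.2
    intro a ha
    have := hp.1 (hh a ha)
    have := T.mono h _ _ this
    rwa [T.act_inv] at this
  have hgq : ∀ h : G, (∀ a ∈ S, T.act h⁻¹ a ∈ S) → q ≤ T.act h q := by
    intro h hh
    apply hq.2
    intro a ha
    have := hq.1 (hh a ha)
    have := T.mono h _ _ this
    rwa [T.act_inv] at this
  have e1 : T.act g p = p := by
    apply le_antisymm (hgp g hgS')
    have := hgp g⁻¹ (by simpa using hgS)
    have := T.mono g _ _ this
    rwa [T.act_inv] at this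
  have e2 : T.act g q = q := by
    apply le_antisymm _ (hgq g hgS')
    have := hgq g⁻¹ (by simpa using hgS)
    have := T.mono g _ _ this
    rwa [T.act_inv] at this
  refine ⟨p, q, ⟨e1, e2, ?_⟩, ?_, ?_⟩
  · intro m hpm hmq
    by_contra hcon
    have hm : T.act g m ≤ m := not_lt.mp hcon
    have hpow : ∀ j : ℕ, T.act (g ^ j) m ≤ m := by
      intro j
      induction j with
      | zero => simp [T.one]
      | succ j ih =>
        rw [pow_succ', T.mul]
        exact le_trans (T.mono g _ _ ih) hm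
    have h1 : ∃ k : ℤ, T.act (g ^ k) l < m := by
      by_contra hno
      push Not at hno
      have : m ≤ p := hp.2 (by rintro a ⟨k, rfl⟩; exact hno k)
      exact absurd hpm (not_lt.mpr this)
    have h2 : ∃ k : ℤ, m < T.act (g ^ k) l := by
      by_contra hno
      push Not at hno
      have : q ≤ m := hq.2 (by rintro a ⟨k, rfl⟩; exact hno k)
      exact absurd hmq (not_lt.mpr this)
    obtain ⟨k, hk⟩ := h1
    obtain ⟨k', hk'⟩ := h2
    have hup : ∀ (j : ℕ) (x : Λ), x < T.act g x → x ≤ T.act (g ^ j) x := by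
      intro j x hx
      induction j with
      | zero => simp [T.one]
      | succ j ih =>
        rw [pow_succ', T.mul]
        exact le_trans hx.le (T.mono g _ _ ih)
    rcases le_total k k' with hkk | hkk
    · obtain ⟨j, hj⟩ := Int.eq_ofNat_of_zero_le (sub_nonneg.mpr hkk)
      have e : g ^ k' = g ^ j * g ^ k := by
        rw [← zpow_natCast, ← hj, ← zpow_add]; congr 1; ring
      rw [e, T.mul] at hk'
      have := (T.lt_iff (g ^ j) _ _).mpr hk
      exact absurd (hk'.trans this) (not_lt.mpr (hpow j))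
    · obtain ⟨j, hj⟩ := Int.eq_ofNat_of_zero_le (sub_nonneg.mpr hkk)
      have e : g ^ k = g ^ j * g ^ k' := by
        rw [← zpow_natCast, ← hj, ← zpow_add]; congr 1; ring
      rw [e, T.mul] at hk
      have hx : T.act (g ^ k') l < T.act g (T.act (g ^ k') l) := by
        rw [← T.mul, ← zpow_one_add, add_comm, zpow_add_one, T.mul]
        exact (T.lt_iff _ _ _).mpr hl
      have := hup j _ hx
      exact absurd (hk'.trans (lt_of_le_of_lt this hk)) (lt_irrefl _)
  · have : T.act g⁻¹ l < l := by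
      have := (T.lt_iff g⁻¹ _ _).mpr hl
      rwa [T.inv_act] at this
    exact lt_of_le_of_lt (hp.1 (hgS' l hlS)) this
  · exact lt_of_lt_of_le hl (hq.1 (hgS l hlS))

/-- A null element is dominated by every fixed point free element. -/
theorem null_lt (hE : Engel G) {u v : G} {p q m : Λ} (hu : T.Comp u p q)
    (v1 : T.act v p = p) (v2 : T.act v q = q) (m1 : p < m) (m2 : m < q) (hm : T.act v m = m)
    {l : Λ} (l1 : p < l) (l2 : l < q) : T.act v l < T.act u l := by
  rcases le_or_gt (T.act v l) l with h | h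
  · exact lt_of_le_of_lt h (hu.2.2 l l1 l2)
  · obtain ⟨a, b, hab, a1, b1⟩ := T.exists_comp h
    have hp : p ≤ a := by
      by_contra hcon
      have := hab.2.2 p (not_le.mp hcon) (l1.trans b1)
      rw [v1] at this
      exact lt_irrefl _ this
    have hq : b ≤ q := by
      by_contra hcon
      have := hab.2.2 q (a1.trans l2) (not_le.mp hcon)
      rw [v2] at this
      exact lt_irrefl _ this
    have key : b ≤ T.act u a := by
      have hmm : m ≤ a ∨ b ≤ m := by
        by_contra hcon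
        push Not at hcon
        have := hab.2.2 m hcon.1 hcon.2
        rw [hm] at this
        exact lt_irrefl _ this
      rcases hmm with hmm | hmm
      · have c1 : a < T.act u a := hu.2.2 a (lt_of_lt_of_le m1 hmm) (a1.trans l2)
        by_contra hcon
        exact T.nc1 hE hab u ⟨c1, not_le.mp hcon⟩
      · have c1 : p < b := l1.trans b1
        have c2 : b < q := lt_of_le_of_lt hmm m2
        have c3 : T.act u⁻¹ b < b := by
          have := (T.lt_iff u⁻¹ _ _).mpr (hu.2.2 b c1 c2)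
          rwa [T.inv_act] at this
        have c4 : T.act u⁻¹ b ≤ a := by
          by_contra hcon
          exact T.nc2 hE hab u⁻¹ ⟨not_le.mp hcon, c3⟩
        have := T.mono u _ _ c4
        rwa [T.act_inv] at this
    have c5 : T.act v l < b := by
      have := (T.lt_iff v _ _).mpr b1
      rwa [hab.2.1] at this
    exact lt_of_lt_of_le c5 (le_trans key (T.mono u _ _ a1.le))

end LAct

namespace LAct
variable {G Λ : Type} [Group G] [Lattice G] [LinearOrder Λ] (T : LAct G Λ)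

/-- Elements fixing both endpoints and some point strictly in between. -/
def Nul (p q : Λ) (h : G) : Prop :=
  T.act h p = p ∧ T.act h q = q ∧ ∃ m, p < m ∧ m < q ∧ T.act h m = m

theorem comp_mul {p q : Λ} {f g : G} (hf : T.Comp f p q) (hg : T.Comp g p q) :
    T.Comp (f * g) p q := by
  refine ⟨by rw [T.mul, hg.1, hf.1], by rw [T.mul, hg.2.1, hf.2.1], fun l h1 h2 => ?_⟩
  rw [T.mul]
  have h3 := hg.2.2 l h1 h2
  have h4 : T.act g l < q := by
    have := (T.lt_iff g _ _).mpr h2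
    rwa [hg.2.1] at this
  exact h3.trans (hf.2.2 _ (h1.trans h3) h4)

theorem trich {p q α : Λ} (α1 : p < α) (α2 : α < q) {h : G} (h1 : T.act h p = p)
    (h2 : T.act h q = q) : T.Comp h p q ∨ T.Comp h⁻¹ p q ∨ T.Nul p q h := by
  by_cases hN : T.Nul p q h
  · exact Or.inr (Or.inr hN)
  · have hne : ∀ m, p < m → m < q → T.act h m ≠ m :=
      fun m m1 m2 hm => hN ⟨h1, h2, m, m1, m2, hm⟩
    have key : ∀ g : G, T.act g p = p → T.act g q = q → (∀ m, p < m → m < q → T.act g m ≠ m) →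
        α < T.act g α → T.Comp g p q := by
      intro g g1 g2 gne hα
      refine ⟨g1, g2, fun l l1 l2 => ?_⟩
      obtain ⟨a, b, hab, a1, b1⟩ := T.exists_comp hα
      have c1 : a ≤ p := by
        by_contra hcon
        exact gne a (not_le.mp hcon) (a1.trans α2) hab.1
      have c2 : q ≤ b := by
        by_contra hcon
        exact gne b (α1.trans b1) (not_le.mp hcon) hab.2.1
      exact hab.2.2 l (lt_of_le_of_lt c1 l1) (lt_of_lt_of_le l2 c2)
    rcases lt_trichotomy (T.act h α) α with c | c | c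
    · right; left
      refine key h⁻¹ (T.fix_inv h1) (T.fix_inv h2) ?_ ?_
      · intro m m1 m2 hm
        apply hne m m1 m2
        have := T.fix_inv hm
        rwa [inv_inv] at this
      · have := (T.lt_iff h⁻¹ _ _).mpr c
        rwa [T.inv_act] at this
    · exact absurd c (hne α α1 α2)
    · left; exact key h h1 h2 hne c

theorem comp_not_nul {p q : Λ} {f : G} (hf : T.Comp f p q) : ¬ T.Nul p q f := by
  rintro ⟨_, _, m, m1, m2, hm⟩
  have := hf.2.2 m m1 m2
  rw [hm] at this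
  exact lt_irrefl _ this

theorem nul_inv {p q : Λ} {f : G} (hf : T.Nul p q f) : T.Nul p q f⁻¹ := by
  obtain ⟨h1, h2, m, m1, m2, hm⟩ := hf
  exact ⟨T.fix_inv h1, T.fix_inv h2, m, m1, m2, T.fix_inv hm⟩

theorem nul_mul (hE : Engel G) {p q : Λ} {f g : G}
    (hf : T.Nul p q f) (hg : T.Nul p q g) : T.Nul p q (f * g) := by
  obtain ⟨f1, f2, m, m1, m2, hm⟩ := hf
  obtain ⟨g1, g2, k, k1, k2, hk⟩ := hg
  have e1 : T.act (f * g) p = p := by rw [T.mul, g1, f1]
  have e2 : T.act (f * g) q = q := by rw [T.mul, g2, f2]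
  rcases T.trich m1 m2 e1 e2 with h | h | h
  · exfalso
    have h3 := T.null_lt hE h f1 f2 m1 m2 hm k1 k2
    rw [T.mul, hk] at h3
    exact lt_irrefl _ h3
  · exfalso
    have h3 := T.null_lt hE h (T.fix_inv g1) (T.fix_inv g2) k1 k2 (T.fix_inv hk) m1 m2
    rw [mul_inv_rev, T.mul, T.fix_inv hm] at h3
    exact lt_irrefl _ h3
  · exact h

theorem comp_mul_nul (hE : Engel G) {p q : Λ} {f g : G}
    (hf : T.Comp f p q) (hg : T.Nul p q g) : T.Comp (f * g) p q := by
  obtain ⟨g1, g2, k, k1, k2, hk⟩ := id hg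
  have e1 : T.act (f * g) p = p := by rw [T.mul, g1, hf.1]
  have e2 : T.act (f * g) q = q := by rw [T.mul, g2, hf.2.1]
  rcases T.trich k1 k2 e1 e2 with h | h | h
  · exact h
  · exfalso
    have h3 := T.comp_mul h hf
    rw [mul_inv_rev, inv_mul_cancel_right] at h3
    exact T.comp_not_nul h3 (T.nul_inv hg)
  · exfalso
    have h3 := T.nul_mul hE h (T.nul_inv hg)
    rw [mul_inv_cancel_right] at h3
    exact T.comp_not_nul hf h3

theorem nul_mul_comp (hE : Engel G) {p q : Λ} {f g : G}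
    (hf : T.Comp f p q) (hg : T.Nul p q g) : T.Comp (g * f) p q := by
  obtain ⟨g1, g2, k, k1, k2, hk⟩ := id hg
  have e1 : T.act (g * f) p = p := by rw [T.mul, hf.1, g1]
  have e2 : T.act (g * f) q = q := by rw [T.mul, hf.2.1, g2]
  rcases T.trich k1 k2 e1 e2 with h | h | h
  · exact h
  · exfalso
    have h3 := T.comp_mul hf h
    rw [mul_inv_rev, mul_inv_cancel_left] at h3
    exact T.comp_not_nul h3 (T.nul_inv hg)
  · exfalso
    have h3 := T.nul_mul hE (T.nul_inv hg) h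
    rw [inv_mul_cancel_left] at h3
    exact T.comp_not_nul hf h3

theorem comp_conj {p q : Λ} {f h : G} (hf : T.Comp f p q) (h1 : T.act h p = p)
    (h2 : T.act h q = q) : T.Comp (h * f * h⁻¹) p q := by
  refine ⟨?_, ?_, fun l l1 l2 => ?_⟩
  · rw [T.mul, T.mul, T.fix_inv h1, hf.1, h1]
  · rw [T.mul, T.mul, T.fix_inv h2, hf.2.1, h2]
  · rw [T.mul, T.mul]
    have a1 : p < T.act h⁻¹ l := by
      have := (T.lt_iff h⁻¹ _ _).mpr l1
      rwa [T.fix_inv h1] at this
    have a2 : T.act h⁻¹ l < q := by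
      have := (T.lt_iff h⁻¹ _ _).mpr l2
      rwa [T.fix_inv h2] at this
    have := (T.lt_iff h _ _).mpr (hf.2.2 _ a1 a2)
    rwa [T.act_inv] at this

theorem nul_conj {p q : Λ} {f h : G} (hf : T.Nul p q f) (h1 : T.act h p = p)
    (h2 : T.act h q = q) : T.Nul p q (h * f * h⁻¹) := by
  obtain ⟨f1, f2, m, m1, m2, hm⟩ := hf
  refine ⟨?_, ?_, T.act h m, ?_, ?_, ?_⟩
  · rw [T.mul, T.mul, T.fix_inv h1, f1, h1]
  · rw [T.mul, T.mul, T.fix_inv h2, f2, h2]
  · have := (T.lt_iff h _ _).mpr m1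
    rwa [h1] at this
  · have := (T.lt_iff h _ _).mpr m2
    rwa [h2] at this
  · rw [T.mul, T.mul, T.inv_act, hm]

theorem arch {p q α : Λ} (α1 : p < α) (α2 : α < q) {u h : G} (hu : T.Comp u p q)
    (h1 : T.act h p = p) (h2 : T.act h q = q) :
    ∃ m : ℕ, T.Comp (h * u ^ m) p q ∨ T.Nul p q (h * u ^ m) := by
  have hup : ∀ m : ℕ, T.act (u ^ m) p = p ∧ T.act (u ^ m) q = q := by
    intro m
    induction m with
    | zero => simp [T.one]
    | succ m ih => rw [pow_succ, T.mul, T.mul, hu.1, hu.2.1]; exact ih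
  have key : ∃ m : ℕ, T.act h⁻¹ α < T.act (u ^ m) α := by
    by_contra hno
    push Not at hno
    set S : Set Λ := Set.range (fun m : ℕ => T.act (u ^ m) α) with hS
    obtain ⟨s, hs⟩ := T.lub S
    have s1 : s ≤ T.act h⁻¹ α := hs.2 (by rintro a ⟨m, rfl⟩; exact hno m)
    have s2 : T.act h⁻¹ α < q := by
      have := (T.lt_iff h⁻¹ _ _).mpr α2
      rwa [T.fix_inv h2] at this
    have s3 : α ≤ s := hs.1 ⟨0, by simp [T.one]⟩
    have s4 := hu.2.2 s (lt_of_lt_of_le α1 s3) (lt_of_le_of_lt s1 s2)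
    have s5 : s ≤ T.act u⁻¹ s := by
      apply hs.2
      rintro a ⟨m, rfl⟩
      have h3 := hs.1 (show T.act (u ^ (m+1)) α ∈ S from ⟨m+1, rfl⟩)
      rw [pow_succ', T.mul] at h3
      have := T.mono u⁻¹ _ _ h3
      rwa [T.inv_act] at this
    have s6 := T.mono u _ _ s5
    rw [T.act_inv] at s6
    exact absurd s4 (not_lt.mpr s6)
  obtain ⟨m, hm⟩ := key
  refine ⟨m, ?_⟩
  have e1 : T.act (h * u ^ m) p = p := by rw [T.mul, (hup m).1, h1]
  have e2 : T.act (h * u ^ m) q = q := by rw [T.mul, (hup m).2, h2]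
  have e3 : α < T.act (h * u ^ m) α := by
    rw [T.mul]
    have := (T.lt_iff h _ _).mpr hm
    rwa [T.act_inv] at this
  rcases T.trich α1 α2 e1 e2 with c | c | c
  · exact Or.inl c
  · exfalso
    have c1 := c.2.2 α α1 α2
    have c2 := (T.lt_iff (h * u ^ m) _ _).mpr c1
    rw [T.act_inv] at c2
    exact absurd (c2.trans e3) (lt_irrefl _)
  · exact Or.inr c

end LAct

open Classical in
/-- Quotient of a group by a total normal cone. -/
theorem coneQuot (H : Type) [Group H] (C : Set H) (h1 : (1 : H) ∈ C)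
    (hmul : ∀ a ∈ C, ∀ b ∈ C, a * b ∈ C)
    (hconj : ∀ a ∈ C, ∀ h, h * a * h⁻¹ ∈ C) (htot : ∀ a, a ∈ C ∨ a⁻¹ ∈ C) :
    ∃ (Q : Type) (_ : Group Q) (_ : LinearOrder Q) (_ : MulLeftMono Q) (_ : MulRightMono Q)
      (π : H →* Q), Function.Surjective π ∧ ∀ h, 1 ≤ π h ↔ h ∈ C := by
  let N : Subgroup H :=
    { carrier := {h | h ∈ C ∧ h⁻¹ ∈ C}
      one_mem' := ⟨h1, by rwa [inv_one]⟩
      mul_mem' := by
        rintro a b ⟨a1, a2⟩ ⟨b1, b2⟩
        exact ⟨hmul _ a1 _ b1, by rw [mul_inv_rev]; exact hmul _ b2 _ a2⟩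
      inv_mem' := by
        rintro a ⟨a1, a2⟩
        exact ⟨a2, by rwa [inv_inv]⟩ }
  have hN : ∀ h, h ∈ N ↔ h ∈ C ∧ h⁻¹ ∈ C := fun h => Iff.rfl
  have hNn : N.Normal := ⟨by
    intro n hn g
    rw [hN] at hn ⊢
    refine ⟨hconj _ hn.1 g, ?_⟩
    have := hconj _ hn.2 g
    have e : (g * n * g⁻¹)⁻¹ = g * n⁻¹ * g⁻¹ := by group
    rwa [e]⟩
  let r : H ⧸ N → H ⧸ N → Prop := fun x y =>
    ∃ a b : H, (QuotientGroup.mk a : H ⧸ N) = x ∧ (QuotientGroup.mk b : H ⧸ N) = y ∧ a⁻¹ * b ∈ C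
  have hr : ∀ a b : H, r (QuotientGroup.mk a) (QuotientGroup.mk b) ↔ a⁻¹ * b ∈ C := by
    intro a b
    constructor
    · rintro ⟨a', b', ha, hb, hab⟩
      have ha' : a⁻¹ * a' ∈ N := QuotientGroup.eq.mp ha.symm
      have hb' : b'⁻¹ * b ∈ N := QuotientGroup.eq.mp hb
      have e : a⁻¹ * b = (a⁻¹ * a') * (a'⁻¹ * b') * (b'⁻¹ * b) := by group
      rw [e]
      exact hmul _ (hmul _ ((hN _).mp ha').1 _ hab) _ ((hN _).mp hb').1
    · intro hab
      exact ⟨a, b, rfl, rfl, hab⟩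
  let LO : LinearOrder (H ⧸ N) :=
    { le := r
      le_refl := by
        intro x
        induction x using QuotientGroup.induction_on with
        | H a => rw [hr, inv_mul_cancel]; exact h1
      le_trans := by
        intro x y z
        induction x using QuotientGroup.induction_on with
        | H a =>
        induction y using QuotientGroup.induction_on with
        | H b =>
        induction z using QuotientGroup.induction_on with
        | H c =>
          rw [hr, hr, hr]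
          intro h2 h3
          have e : a⁻¹ * c = (a⁻¹ * b) * (b⁻¹ * c) := by group
          rw [e]
          exact hmul _ h2 _ h3
      le_antisymm := by
        intro x y
        induction x using QuotientGroup.induction_on with
        | H a =>
        induction y using QuotientGroup.induction_on with
        | H b =>
          rw [hr, hr]
          intro h2 h3
          rw [QuotientGroup.eq, hN]
          refine ⟨h2, ?_⟩
          have e : (a⁻¹ * b)⁻¹ = b⁻¹ * a := by group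
          rwa [e]
      le_total := by
        intro x y
        induction x using QuotientGroup.induction_on with
        | H a =>
        induction y using QuotientGroup.induction_on with
        | H b =>
          rw [hr, hr]
          rcases htot (a⁻¹ * b) with h | h
          · exact Or.inl h
          · right
            have e : (a⁻¹ * b)⁻¹ = b⁻¹ * a := by group
            rwa [e] at h
      toDecidableLE := fun _ _ => Classical.propDecidable _ }
  have hle : ∀ a b : H, (QuotientGroup.mk a : H ⧸ N) ≤ QuotientGroup.mk b ↔ a⁻¹ * b ∈ C := hr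
  refine ⟨H ⧸ N, inferInstance, LO, ⟨?_⟩, ⟨?_⟩, QuotientGroup.mk' N,
    QuotientGroup.mk'_surjective N, ?_⟩
  · intro c a b hab
    induction a using QuotientGroup.induction_on with
    | H a =>
    induction b using QuotientGroup.induction_on with
    | H b =>
    induction c using QuotientGroup.induction_on with
    | H c =>
      show (QuotientGroup.mk (c * a) : H ⧸ N) ≤ QuotientGroup.mk (c * b)
      rw [hle] at hab ⊢
      have e : (c * a)⁻¹ * (c * b) = a⁻¹ * b := by group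
      rwa [e]
  · intro c a b hab
    induction a using QuotientGroup.induction_on with
    | H a =>
    induction b using QuotientGroup.induction_on with
    | H b =>
    induction c using QuotientGroup.induction_on with
    | H c =>
      show (QuotientGroup.mk (a * c) : H ⧸ N) ≤ QuotientGroup.mk (b * c)
      rw [hle] at hab ⊢
      have e : (a * c)⁻¹ * (b * c) = c⁻¹ * (a⁻¹ * b) * (c⁻¹)⁻¹ := by group
      rw [e]
      exact hconj _ hab _
  · intro h
    show (QuotientGroup.mk 1 : H ⧸ N) ≤ QuotientGroup.mk h ↔ _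
    rw [hle, inv_one, one_mul]

/-- Iterated differences in an archimedean ordered group. -/
theorem diffs {Q : Type} [Group Q] [LinearOrder Q] [MulLeftMono Q] [MulRightMono Q]
    (arch : ∀ u : Q, 1 < u → ∀ h : Q, ∃ m : ℕ, 1 ≤ h * u ^ m) :
    ∀ (n : ℕ) (a : ℕ → Q),
      (∀ m, (fun (b : ℕ → Q) (m : ℕ) => (b m)⁻¹ * b (m + 1))^[n] a m = 1) →
      (∀ m, a m = 1) ∨ (∃ u, 1 < u ∧ ∃ M, ∀ m, M ≤ m → u ≤ a m) ∨
        (∃ u, 1 < u ∧ ∃ M, ∀ m, M ≤ m → a m ≤ u⁻¹) := by
  intro n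
  induction n with
  | zero => intro a h; exact Or.inl h
  | succ n ih =>
    intro a h
    have h' := ih (fun m => (a m)⁻¹ * a (m + 1)) (by
      intro m
      have := h m
      rwa [Function.iterate_succ_apply] at this)
    rcases h' with h' | ⟨u, hu, M, hM⟩ | ⟨u, hu, M, hM⟩
    · have hc : ∀ m, a m = a 0 := by
        intro m
        induction m with
        | zero => rfl
        | succ m ihm =>
          have := h' m
          rw [inv_mul_eq_one] at this
          rw [← this]; exact ihm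
      rcases lt_trichotomy (a 0) 1 with c | c | c
      · right; right
        refine ⟨(a 0)⁻¹, one_lt_inv'.mpr c, 0, fun m _ => ?_⟩
        rw [hc m, inv_inv]
      · left; intro m; rw [hc m, c]
      · right; left
        exact ⟨a 0, c, 0, fun m _ => (hc m).ge⟩
    · right; left
      have hstep : ∀ m, M ≤ m → a m * u ≤ a (m + 1) := by
        intro m hm
        have := hM m hm
        have := mul_le_mul_right this (a m)
        rwa [mul_inv_cancel_left] at this
      have hpow : ∀ j : ℕ, a M * u ^ j ≤ a (M + j) := by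
        intro j
        induction j with
        | zero => simp
        | succ j ihj =>
          calc a M * u ^ (j + 1) = a M * u ^ j * u := by rw [pow_succ, mul_assoc]
            _ ≤ a (M + j) * u := mul_le_mul_left ihj u
            _ ≤ a (M + j + 1) := hstep _ (Nat.le_add_right _ _)
      obtain ⟨j0, hj0⟩ := arch u hu (a M)
      refine ⟨u, hu, M + j0 + 1, fun m hm => ?_⟩
      obtain ⟨i, rfl⟩ := Nat.exists_eq_add_of_le hm
      have e : M + j0 + 1 + i = M + (j0 + (i + 1)) := by ring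
      rw [e]
      refine le_trans ?_ (hpow _)
      rw [pow_add, ← mul_assoc]
      have h2 : u ≤ u ^ (i + 1) := by
        rw [pow_succ]
        exact le_mul_of_one_le_left' (one_le_pow_of_one_le' hu.le i)
      exact le_trans h2 (le_mul_of_one_le_left' hj0)
    · right; right
      have hstep : ∀ m, M ≤ m → a (m + 1) ≤ a m * u⁻¹ := by
        intro m hm
        have := hM m hm
        have := mul_le_mul_right this (a m)
        rwa [mul_inv_cancel_left] at this
      have hpow : ∀ j : ℕ, a (M + j) ≤ a M * u⁻¹ ^ j := by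
        intro j
        induction j with
        | zero => simp
        | succ j ihj =>
          calc a (M + j + 1) ≤ a (M + j) * u⁻¹ := hstep _ (Nat.le_add_right _ _)
            _ ≤ a M * u⁻¹ ^ j * u⁻¹ := mul_le_mul_left ihj _
            _ = a M * u⁻¹ ^ (j + 1) := by rw [pow_succ, mul_assoc]
      obtain ⟨j0, hj0⟩ := arch u hu (a M)⁻¹
      have hj1 : a M ≤ u ^ j0 := by
        have := mul_le_mul_right hj0 (a M)
        rwa [mul_inv_cancel_left, mul_one] at this
      refine ⟨u, hu, M + j0 + 1, fun m hm => ?_⟩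
      obtain ⟨i, rfl⟩ := Nat.exists_eq_add_of_le hm
      have e : M + j0 + 1 + i = M + (j0 + (i + 1)) := by ring
      rw [e]
      refine le_trans (hpow _) ?_
      rw [pow_add, ← mul_assoc]
      have h3 : a M * u⁻¹ ^ j0 ≤ 1 := by
        have := mul_le_mul_left hj1 (u⁻¹ ^ j0)
        rwa [inv_pow, mul_inv_cancel, ← inv_pow] at this
      have h2 : u⁻¹ ^ (i + 1) ≤ u⁻¹ := by
        rw [inv_pow]
        apply inv_le_inv_iff.mpr
        rw [pow_succ]
        exact le_mul_of_one_le_left' (one_le_pow_of_one_le' hu.le i)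
      exact le_trans (mul_le_of_le_one_left' h3) h2


namespace LAct
variable {G Λ : Type} [Group G] [Lattice G] [LinearOrder Λ] (T : LAct G Λ)

/-- Main step: in an Engel l-group acting on a complete chain, if `y ⊓ x⁻¹ y x = 1`, and
`c` commutes with `x` and is an iterated difference of conjugates of `y`, then `c` acts
trivially. -/
theorem main_step [MulLeftMono G] [MulRightMono G] (hE : Engel G) {x y c : G} (hy : 1 ≤ y)
    (hxy : y ⊓ x⁻¹ * y * x = 1) (n : ℕ)
    (hc : (fun z : G => z⁻¹ * x⁻¹ * z * x)^[n] y = c) (hcx : c * x = x * c)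
    (α : Λ) : ¬ (α < T.act (c ⊔ c⁻¹) α) := by
  intro hα
  obtain ⟨p, q, hJ, α1, α2⟩ := T.exists_comp hα
  set e : G := c ⊔ c⁻¹ with he
  have he1 : 1 ≤ e := one_le_mabs c
  have hcx' : c⁻¹ * x = x * c⁻¹ := by
    calc c⁻¹ * x = c⁻¹ * (x * c) * c⁻¹ := by group
      _ = c⁻¹ * (c * x) * c⁻¹ := by rw [hcx]
      _ = x * c⁻¹ := by group
  have hex : x⁻¹ * e * x = e := by
    rw [he, mul_sup, sup_mul]
    congr 1
    · rw [mul_assoc, hcx]; group
    · rw [mul_assoc, hcx']; group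
  -- conjugates
  have hyc : ∀ m : ℕ, (x ^ m)⁻¹ * e * x ^ m = e := by
    intro m
    induction m with
    | zero => simp
    | succ m ih =>
      calc (x ^ (m+1))⁻¹ * e * x ^ (m+1) = x⁻¹ * ((x ^ m)⁻¹ * e * x ^ m) * x := by
            rw [pow_succ]; group
        _ = e := by rw [ih, hex]
  -- the sequence of truncated conjugates
  let Y : ℕ → G := fun m => (x ^ m)⁻¹ * y * x ^ m
  let a : ℕ → G := fun m => (x ^ m)⁻¹ * (y ⊓ e) * x ^ m
  have haY : ∀ m, a m = Y m ⊓ e := by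
    intro m
    show (x ^ m)⁻¹ * (y ⊓ e) * x ^ m = _
    rw [mul_inf, inf_mul, hyc]
  have hY1 : ∀ m, 1 ≤ Y m := by
    intro m
    have h1 := mul_le_mul_right hy (x ^ m)⁻¹
    have h2 := mul_le_mul_left h1 (x ^ m)
    simpa [Y] using h2
  have ha1 : ∀ m, 1 ≤ a m := by
    intro m; rw [haY]; exact le_inf (hY1 m) he1
  have hae : ∀ m, a m ≤ e := by
    intro m; rw [haY]; exact inf_le_right
  have hYY : ∀ m, Y m ⊓ Y (m+1) = 1 := by
    intro m
    have h1 : Y (m+1) = (x ^ m)⁻¹ * (x⁻¹ * y * x) * x ^ m := by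
      show (x ^ (m+1))⁻¹ * y * x ^ (m+1) = _
      rw [pow_succ']; group
      
    rw [h1]
    show (x ^ m)⁻¹ * y * x ^ m ⊓ (x ^ m)⁻¹ * (x⁻¹ * y * x) * x ^ m = 1
    rw [← inf_mul, ← mul_inf, hxy]; group
  have hstab : ∀ m, T.act (a m) p = p ∧ T.act (a m) q = q := by
    intro m
    constructor
    · apply le_antisymm _ (T.le_act (ha1 m) p)
      have := T.mono_left (hae m) p
      rwa [hJ.1] at this
    · apply le_antisymm _ (T.le_act (ha1 m) q)
      have := T.mono_left (hae m) q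
      rwa [hJ.2.1] at this
  -- not all are null
  have hnotnul : ¬ ∀ m, T.Nul p q (a m) := by
    intro hall
    have hYn : ∀ m, T.Nul p q (Y m) := by
      intro m
      obtain ⟨_, _, k, k1, k2, hk⟩ := hall m
      rw [haY, T.inf] at hk
      have hk' : T.act (Y m) k = k := by
        rcases min_choice (T.act (Y m) k) (T.act e k) with h | h
        · rw [h] at hk; exact hk
        · rw [h] at hk
          exact absurd (hJ.2.2 k k1 k2) (by rw [hk]; exact lt_irrefl _)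
      obtain ⟨b1, b2⟩ := T.block hE hJ (Y m) k1 k2 (by rw [hk']; exact k1) (by rw [hk']; exact k2)
      exact ⟨b1, b2, k, k1, k2, hk'⟩
    have hD : ∀ j m : ℕ, T.Nul p q ((x ^ m)⁻¹ * ((fun z : G => z⁻¹ * x⁻¹ * z * x)^[j] y) * x ^ m) := by
      intro j
      induction j with
      | zero => intro m; exact hYn m
      | succ j ih =>
        intro m
        rw [Function.iterate_succ_apply']
        have h1 := T.nul_mul hE (T.nul_inv (ih m)) (ih (m+1))
        generalize (fun z : G => z⁻¹ * x⁻¹ * z * x)^[j] y = w at h1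
        have e1 : (x ^ m)⁻¹ * (w⁻¹ * x⁻¹ * w * x) * x ^ m =
            ((x ^ m)⁻¹ * w * x ^ m)⁻¹ * ((x ^ (m + 1))⁻¹ * w * x ^ (m + 1)) := by
          rw [pow_succ']; group
        rw [e1]; exact h1
    have hcn : T.Nul p q c := by
      have := hD n 0
      rw [hc] at this
      simpa using this
    obtain ⟨_, _, k, k1, k2, hk⟩ := hcn
    have h2 := hJ.2.2 k k1 k2
    rw [he, T.sup, hk, T.fix_inv hk, max_self] at h2
    exact lt_irrefl _ h2
  -- the stabiliser and its cone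
  let H : Subgroup G :=
    { carrier := {h | T.act h p = p ∧ T.act h q = q}
      one_mem' := ⟨T.one _, T.one _⟩
      mul_mem' := by
        rintro f g ⟨f1, f2⟩ ⟨g1, g2⟩
        exact ⟨by rw [T.mul, g1, f1], by rw [T.mul, g2, f2]⟩
      inv_mem' := by
        rintro f ⟨f1, f2⟩
        exact ⟨T.fix_inv f1, T.fix_inv f2⟩ }
  obtain ⟨Q, iQ1, iQ2, iQ3, iQ4, π, πs, hπ⟩ := coneQuot H
    {h | T.Comp (h : G) p q ∨ T.Nul p q (h : G)}
    (Or.inr ⟨T.one _, T.one _, α, α1, α2, T.one _⟩)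
    (by
      rintro f (hf | hf) g (hg | hg)
      · exact Or.inl (T.comp_mul hf hg)
      · exact Or.inl (T.comp_mul_nul hE hf hg)
      · exact Or.inl (T.nul_mul_comp hE hg hf)
      · exact Or.inr (T.nul_mul hE hf hg))
    (by
      rintro f (hf | hf) h
      · exact Or.inl (T.comp_conj hf h.2.1 h.2.2)
      · exact Or.inr (T.nul_conj hf h.2.1 h.2.2))
    (by
      intro f
      rcases T.trich α1 α2 f.2.1 f.2.2 with h | h | h
      · exact Or.inl (Or.inl h)
      · exact Or.inr (Or.inl h)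
      · exact Or.inl (Or.inr h))
  have hπ' : ∀ h : H, 1 ≤ π h ↔ T.Comp (h : G) p q ∨ T.Nul p q (h : G) := hπ
  have hpos : ∀ h : H, 1 < π h ↔ T.Comp (h : G) p q := by
    intro h
    constructor
    · intro h1
      rcases T.trich α1 α2 h.2.1 h.2.2 with h2 | h2 | h2
      · exact h2
      · exfalso
        have h3 : 1 ≤ π h⁻¹ := (hπ' h⁻¹).mpr (Or.inl h2)
        rw [map_inv, one_le_inv'] at h3
        exact absurd h1 (not_lt.mpr h3)
      · exfalso
        have h3 : 1 ≤ π h⁻¹ := (hπ' h⁻¹).mpr (Or.inr (T.nul_inv h2))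
        rw [map_inv, one_le_inv'] at h3
        exact absurd h1 (not_lt.mpr h3)
    · intro h1
      rw [lt_iff_not_ge]
      intro h2
      rw [← one_le_inv', ← map_inv, hπ'] at h2
      rcases h2 with h2 | h2
      · have h3 := T.comp_mul h1 h2
        have e1 : (h : G) * ((h⁻¹ : H) : G) = 1 := by simp
        rw [e1] at h3
        have h4 := h3.2.2 α α1 α2
        rw [T.one] at h4
        exact lt_irrefl _ h4
      · have h3 := T.nul_inv h2
        have e1 : (((h⁻¹ : H) : G))⁻¹ = h := by simp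
        rw [e1] at h3
        exact T.comp_not_nul h1 h3
  have harch : ∀ u : Q, 1 < u → ∀ h : Q, ∃ m : ℕ, 1 ≤ h * u ^ m := by
    intro u hu h
    obtain ⟨u', rfl⟩ := πs u
    obtain ⟨h', rfl⟩ := πs h
    obtain ⟨m, hm⟩ := T.arch α1 α2 ((hpos u').mp hu) h'.2.1 h'.2.2
    refine ⟨m, ?_⟩
    rw [← map_pow, ← map_mul, hπ']
    simpa using hm
  let A : ℕ → H := fun m => ⟨a m, hstab m⟩
  obtain ⟨N, hN⟩ := hE (y ⊓ e) x
  have hDa : ∀ j m : ℕ, (fun (b : ℕ → Q) (m : ℕ) => (b m)⁻¹ * b (m + 1))^[j] (fun m => π (A m)) m =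
      π ((fun (b : ℕ → H) (m : ℕ) => (b m)⁻¹ * b (m + 1))^[j] A m) := by
    intro j
    induction j with
    | zero => intro m; rfl
    | succ j ih =>
      intro m
      rw [Function.iterate_succ_apply', Function.iterate_succ_apply', ih, ih, map_mul, map_inv]
  have hDb : ∀ j m : ℕ, (((fun (b : ℕ → H) (m : ℕ) => (b m)⁻¹ * b (m + 1))^[j] A m : H) : G) =
      (x ^ m)⁻¹ * ((fun z : G => z⁻¹ * x⁻¹ * z * x)^[j] (y ⊓ e)) * x ^ m := by
    intro j
    induction j with
    | zero => intro m; rfl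
    | succ j ih =>
      intro m
      rw [Function.iterate_succ_apply', Function.iterate_succ_apply', Subgroup.coe_mul,
        Subgroup.coe_inv, ih, ih]
      generalize (fun z : G => z⁻¹ * x⁻¹ * z * x)^[j] (y ⊓ e) = w
      rw [pow_succ']; group
  have hD0 : ∀ m, (fun (b : ℕ → Q) (m : ℕ) => (b m)⁻¹ * b (m + 1))^[N] (fun m => π (A m)) m = 1 := by
    intro m
    rw [hDa]
    have h1 : (fun (b : ℕ → H) (m : ℕ) => (b m)⁻¹ * b (m + 1))^[N] A m = 1 := by
      apply Subtype.ext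
      rw [hDb, hN]; simp
    rw [h1, map_one]
  have hA1 : ∀ m, 1 ≤ π (A m) := by
    intro m
    rw [hπ']
    rcases T.trich α1 α2 (hstab m).1 (hstab m).2 with h | h | h
    · exact Or.inl h
    · exfalso
      have h1 := h.2.2 α α1 α2
      have h2 : T.act (a m)⁻¹ α ≤ α := T.act_le (by rw [inv_le_one']; exact ha1 m) α
      exact absurd h1 (not_lt.mpr h2)
    · exact Or.inr h
  rcases diffs harch N _ hD0 with h | ⟨u, hu, M, hM⟩ | ⟨u, hu, M, hM⟩
  · apply hnotnul
    intro m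
    have h1 : 1 ≤ π (A m)⁻¹ := by rw [map_inv, h m, inv_one]
    rw [hπ'] at h1
    rcases h1 with h1 | h1
    · exfalso
      have h2 := (hpos _).mpr h1
      rw [map_inv, h m, inv_one] at h2
      exact lt_irrefl _ h2
    · have h3 := T.nul_inv h1
      simpa [A] using h3
  · have h1 := (hpos (A M)).mp (lt_of_lt_of_le hu (hM M le_rfl))
    have h2 := (hpos (A (M+1))).mp (lt_of_lt_of_le hu (hM (M+1) (Nat.le_succ M)))
    have h3 := h1.2.2 α α1 α2
    have h4 := h2.2.2 α α1 α2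
    have h5 : α < T.act (a M ⊓ a (M+1)) α := by
      rw [T.inf]; exact lt_min h3 h4
    have h6 : a M ⊓ a (M+1) ≤ 1 := by
      rw [haY, haY, ← hYY M]
      exact inf_le_inf inf_le_left inf_le_left
    exact absurd h5 (not_lt.mpr (T.act_le h6 α))
  · have h1 := hM M le_rfl
    have h2 := hA1 M
    have h3 : u⁻¹ < 1 := by rw [inv_lt_one']; exact hu
    exact absurd (lt_of_le_of_lt (h2.trans h1) h3) (lt_irrefl _)

end LAct

section Prime
set_option linter.unusedSectionVars false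
variable {G : Type} [Group G] [Lattice G] [MulLeftMono G] [MulRightMono G]

theorem inf_mul_le' {a b f : G} (ha : 1 ≤ a) (hb : 1 ≤ b) (hf : 1 ≤ f) :
    (a * b) ⊓ f ≤ (a ⊓ f) * (b ⊓ f) := by
  rw [mul_inf, inf_mul, inf_mul]
  refine le_inf (le_inf inf_le_left ?_) (le_inf ?_ ?_)
  · exact inf_le_right.trans (le_mul_of_one_le_right' hb)
  · exact inf_le_right.trans (le_mul_of_one_le_left' ha)
  · exact inf_le_right.trans (le_mul_of_one_le_right' hf)

/-- A set of strictly positive elements closed under meets. -/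
def IsFil (F : Set G) : Prop := (∀ f ∈ F, 1 < f) ∧ ∀ f ∈ F, ∀ g ∈ F, f ⊓ g ∈ F

theorem exists_max_fil (g : G) (hg : 1 < g) :
    ∃ F : Set G, IsFil F ∧ g ∈ F ∧ ∀ u : G, 1 ≤ u → u ∈ F ∨ ∃ f ∈ F, f ⊓ u = 1 := by
  obtain ⟨F, hF1, hF2⟩ := zorn_subset_nonempty {F : Set G | IsFil F}
    (by
      intro c hc hchain hne
      refine ⟨⋃₀ c, ⟨?_, ?_⟩, fun s hs => Set.subset_sUnion_of_mem hs⟩
      · rintro f ⟨s, hs, hf⟩
        exact (hc hs).1 f hf
      · rintro f ⟨s, hs, hf⟩ g ⟨t, ht, hg⟩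
        rcases hchain.total hs ht with h | h
        · exact ⟨t, ht, (hc ht).2 f (h hf) g hg⟩
        · exact ⟨s, hs, (hc hs).2 f hf g (h hg)⟩)
    {g} (⟨by rintro f rfl; exact hg, by rintro f rfl g rfl; simp⟩)
  have hFil : IsFil F := hF2.1
  refine ⟨F, hFil, hF1 rfl, ?_⟩
  intro u hu
  by_contra hcon
  push Not at hcon
  obtain ⟨h1, h2⟩ := hcon
  have hgF : g ∈ F := hF1 rfl
  have hpos : ∀ f ∈ F, 1 < f ⊓ u := fun f hf =>
    lt_of_le_of_ne (le_inf (hFil.1 f hf).le hu) (Ne.symm (h2 f hf))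
  have hu1 : 1 < u := lt_of_lt_of_le (hpos g hgF) inf_le_right
  let F' : Set G := F ∪ {u} ∪ {z | ∃ f ∈ F, z = f ⊓ u}
  have hF' : IsFil F' := by
    constructor
    · rintro f ((hf | hf) | ⟨f', hf', rfl⟩)
      · exact hFil.1 f hf
      · rw [hf]; exact hu1
      · exact hpos f' hf'
    · rintro f ((hf | hf) | ⟨f', hf', rfl⟩) g ((hg | hg) | ⟨g', hg', rfl⟩)
      · exact Or.inl (Or.inl (hFil.2 f hf g hg))
      · rw [hg]; exact Or.inr ⟨f, hf, rfl⟩
      · exact Or.inr ⟨f ⊓ g', hFil.2 f hf g' hg', by rw [inf_assoc]⟩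
      · rw [hf]; exact Or.inr ⟨g, hg, inf_comm _ _⟩
      · rw [hf, hg]; exact Or.inl (Or.inr (by simp))
      · rw [hf]
        refine Or.inr ⟨g', hg', ?_⟩
        rw [inf_comm g' u, ← inf_assoc, inf_idem]
      · exact Or.inr ⟨f' ⊓ g, hFil.2 f' hf' g hg, by rw [inf_right_comm]⟩
      · rw [hg]
        refine Or.inr ⟨f', hf', by rw [inf_assoc, inf_idem]⟩
      · refine Or.inr ⟨f' ⊓ g', hFil.2 f' hf' g' hg', ?_⟩
        rw [inf_assoc, inf_comm u, inf_assoc, inf_idem, ← inf_assoc]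
  have hsub : F ⊆ F' := fun f hf => Or.inl (Or.inl hf)
  have := hF2.2 hF' hsub
  exact h1 (this (Or.inl (Or.inr rfl)))

/-- The prime subgroup attached to a filter. -/
def primeOf (F : Set G) (hF : IsFil F) (hne : F.Nonempty) : Subgroup G where
  carrier := {x | ∃ f ∈ F, (x ⊔ x⁻¹) ⊓ f = 1}
  one_mem' := by
    obtain ⟨f, hf⟩ := hne
    exact ⟨f, hf, by simpa using (hF.1 f hf).le⟩
  mul_mem' := by
    rintro x y ⟨f, hf, hx⟩ ⟨g, hg, hy⟩
    refine ⟨f ⊓ g, hF.2 f hf g hg, ?_⟩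
    have hfg : 1 ≤ f ⊓ g := (hF.1 _ (hF.2 f hf g hg)).le
    have h1 : 1 ≤ x ⊔ x⁻¹ := one_le_mabs x
    have h2 : 1 ≤ y ⊔ y⁻¹ := one_le_mabs y
    have h3 : 1 ≤ (x * y) ⊔ (x * y)⁻¹ := one_le_mabs (x * y)
    have hx' : (x ⊔ x⁻¹) ⊓ (f ⊓ g) = 1 := by
      apply le_antisymm _ (le_inf h1 hfg)
      rw [← hx]; exact inf_le_inf_left _ inf_le_left
    have hy' : (y ⊔ y⁻¹) ⊓ (f ⊓ g) = 1 := by
      apply le_antisymm _ (le_inf h2 hfg)
      rw [← hy]; exact inf_le_inf_left _ inf_le_right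
    apply le_antisymm _ (le_inf h3 hfg)
    have h4 : (x * y) ⊔ (x * y)⁻¹ ≤ ((x ⊔ x⁻¹) * (y ⊔ y⁻¹)) * (x ⊔ x⁻¹) := by
      apply sup_le
      · exact le_trans (mul_le_mul' le_sup_left le_sup_left) (le_mul_of_one_le_right' h1)
      · rw [mul_inv_rev]
        calc y⁻¹ * x⁻¹ ≤ (y ⊔ y⁻¹) * (x ⊔ x⁻¹) := mul_le_mul' le_sup_right le_sup_right
          _ ≤ (x ⊔ x⁻¹) * ((y ⊔ y⁻¹) * (x ⊔ x⁻¹)) := le_mul_of_one_le_left' h1
          _ = _ := by rw [mul_assoc]
    calc ((x * y) ⊔ (x * y)⁻¹) ⊓ (f ⊓ g) ≤ (((x ⊔ x⁻¹) * (y ⊔ y⁻¹)) * (x ⊔ x⁻¹)) ⊓ (f ⊓ g) :=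
          inf_le_inf_right _ h4
      _ ≤ (((x ⊔ x⁻¹) * (y ⊔ y⁻¹)) ⊓ (f ⊓ g)) * ((x ⊔ x⁻¹) ⊓ (f ⊓ g)) :=
          inf_mul_le' (one_le_mul h1 h2) h1 hfg
      _ ≤ (((x ⊔ x⁻¹) ⊓ (f ⊓ g)) * ((y ⊔ y⁻¹) ⊓ (f ⊓ g))) * ((x ⊔ x⁻¹) ⊓ (f ⊓ g)) :=
          mul_le_mul_left (inf_mul_le' h1 h2 hfg) _
      _ = 1 := by rw [hx', hy', one_mul, one_mul]
  inv_mem' := by
    rintro x ⟨f, hf, hx⟩
    exact ⟨f, hf, by rw [inv_inv, sup_comm]; exact hx⟩

theorem mem_primeOf {F : Set G} {hF : IsFil F} {hne : F.Nonempty} {x : G} :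
    x ∈ primeOf F hF hne ↔ ∃ f ∈ F, (x ⊔ x⁻¹) ⊓ f = 1 := Iff.rfl

theorem mem_primeOf_pos {F : Set G} {hF : IsFil F} {hne : F.Nonempty} {x : G} (hx : 1 ≤ x) :
    x ∈ primeOf F hF hne ↔ ∃ f ∈ F, x ⊓ f = 1 := by
  rw [mem_primeOf]
  have : x ⊔ x⁻¹ = x := sup_eq_left.mpr (le_trans (inv_le_one'.mpr hx) hx)
  rw [this]

/-- Summary of the existence of primes. -/
theorem exists_prime (g : G) (hg : 1 < g) :
    ∃ (F : Set G) (P : Subgroup G), (∀ f ∈ F, 1 < f) ∧
      (∀ x : G, x ∈ P ↔ ∃ f ∈ F, (x ⊔ x⁻¹) ⊓ f = 1) ∧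
      (∀ x : G, 1 ≤ x → (x ∈ P ↔ ∃ f ∈ F, x ⊓ f = 1)) ∧
      g ∉ P ∧ (∀ x y : G, 1 ≤ x → x ≤ y → y ∈ P → x ∈ P) ∧
      (∀ d : G, d ⊔ 1 ∈ P ∨ d⁻¹ ⊔ 1 ∈ P) := by
  obtain ⟨F, hF, hgF, hmax⟩ := exists_max_fil g hg
  have hpos : ∀ x : G, 1 ≤ x → (x ∈ primeOf F hF ⟨g, hgF⟩ ↔ ∃ f ∈ F, x ⊓ f = 1) :=
    fun x hx => mem_primeOf_pos hx
  refine ⟨F, primeOf F hF ⟨g, hgF⟩, hF.1, fun x => Iff.rfl, hpos, ?_, ?_, ?_⟩
  · rw [hpos g hg.le]
    rintro ⟨f, hf, h⟩
    have := hF.1 _ (hF.2 g hgF f hf)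
    rw [h] at this
    exact lt_irrefl _ this
  · intro x y hx hxy hy
    rw [hpos x hx]
    rw [hpos y (hx.trans hxy)] at hy
    obtain ⟨f, hf, h⟩ := hy
    refine ⟨f, hf, le_antisymm ?_ (le_inf hx (hF.1 f hf).le)⟩
    rw [← h]; exact inf_le_inf_right _ hxy
  · intro d
    have h1 : (d ⊔ 1) ⊓ (d⁻¹ ⊔ 1) = 1 := oneLePart_inf_leOnePart_eq_one d
    rcases hmax (d ⊔ 1) le_sup_right with h | ⟨f, hf, h⟩
    · right
      rw [hpos _ le_sup_right]
      exact ⟨_, h, by rw [inf_comm]; exact h1⟩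
    · left
      rw [hpos _ le_sup_right]
      exact ⟨f, hf, by rw [inf_comm]; exact h⟩

/-- The chain of lower sets invariant under right multiplication by a prime. -/
def Chain (P : Subgroup G) : Type :=
  {A : Set G // (∀ a ∈ A, ∀ b ≤ a, b ∈ A) ∧ (∀ a ∈ A, ∀ p ∈ P, a * p ∈ A)}

theorem coset_total (P : Subgroup G) (hP : ∀ d : G, d ⊔ 1 ∈ P ∨ d⁻¹ ⊔ 1 ∈ P) (u v : G) :
    (∃ p ∈ P, 1 ≤ p ∧ u ≤ v * p) ∨ (∃ p ∈ P, 1 ≤ p ∧ v ≤ u * p) := by
  rcases hP (v⁻¹ * u) with h | h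
  · left
    refine ⟨_, h, le_sup_right, ?_⟩
    calc u = v * (v⁻¹ * u) := by group
      _ ≤ _ := mul_le_mul_right le_sup_left _
  · right
    refine ⟨_, h, le_sup_right, ?_⟩
    calc v = u * (v⁻¹ * u)⁻¹ := by group
      _ ≤ _ := mul_le_mul_right le_sup_left _

open Classical in
/-- The linear order on the chain. -/
@[reducible] noncomputable def chainOrder (P : Subgroup G) (hP : ∀ d : G, d ⊔ 1 ∈ P ∨ d⁻¹ ⊔ 1 ∈ P) :
    LinearOrder (Chain P) where
  le A B := A.1 ⊆ B.1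
  le_refl A := subset_refl _
  le_trans A B C h1 h2 := subset_trans h1 h2
  le_antisymm A B h1 h2 := Subtype.ext (Set.Subset.antisymm h1 h2)
  le_total A B := by
    by_contra hcon
    push Not at hcon
    obtain ⟨h1, h2⟩ := hcon
    rw [Set.not_subset] at h1 h2
    obtain ⟨a, ha, ha'⟩ := h1
    obtain ⟨b, hb, hb'⟩ := h2
    rcases coset_total P hP a b with ⟨p, hp, _, h⟩ | ⟨p, hp, _, h⟩
    · exact ha' (B.2.1 _ (B.2.2 b hb p hp) _ h)
    · exact hb' (A.2.1 _ (A.2.2 a ha p hp) _ h)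
  toDecidableLE := fun _ _ => Classical.propDecidable _

/-- The action on the chain. -/
theorem exists_action (P : Subgroup G) (hP : ∀ d : G, d ⊔ 1 ∈ P ∨ d⁻¹ ⊔ 1 ∈ P)
    (hconv : ∀ x y : G, 1 ≤ x → x ≤ y → y ∈ P → x ∈ P) (g : G) (hg : 1 ≤ g) (hgP : g ∉ P) :
    ∃ (Λ : Type) (_ : LinearOrder Λ) (T : LAct G Λ) (α : Λ), α < T.act g α := by
  let iLO : LinearOrder (Chain P) := chainOrder P hP
  have hle : ∀ A B : Chain P, A ≤ B ↔ A.1 ⊆ B.1 := fun A B => Iff.rfl
  have hsup : ∀ (A : Chain P) (u v : G), u ⊔ v ∈ A.1 ↔ u ∈ A.1 ∧ v ∈ A.1 := by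
    intro A u v
    constructor
    · intro h
      exact ⟨A.2.1 _ h _ le_sup_left, A.2.1 _ h _ le_sup_right⟩
    · rintro ⟨h1, h2⟩
      rcases coset_total P hP u v with ⟨p, hp, hp1, h⟩ | ⟨p, hp, hp1, h⟩
      · exact A.2.1 _ (A.2.2 v h2 p hp) _ (sup_le h (le_mul_of_one_le_right' hp1))
      · exact A.2.1 _ (A.2.2 u h1 p hp) _ (sup_le (le_mul_of_one_le_right' hp1) h)
  have hinf : ∀ (A : Chain P) (u v : G), u ⊓ v ∈ A.1 ↔ u ∈ A.1 ∨ v ∈ A.1 := by
    intro A u v
    constructor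
    · intro h
      rcases coset_total P hP u v with ⟨p, hp, hp1, h'⟩ | ⟨p, hp, hp1, h'⟩
      · left
        refine A.2.1 _ (A.2.2 _ h p hp) _ ?_
        rw [inf_mul]
        exact le_inf (le_mul_of_one_le_right' hp1) h'
      · right
        refine A.2.1 _ (A.2.2 _ h p hp) _ ?_
        rw [inf_mul]
        exact le_inf h' (le_mul_of_one_le_right' hp1)
    · rintro (h | h)
      · exact A.2.1 _ h _ inf_le_left
      · exact A.2.1 _ h _ inf_le_right
  let ac : G → Chain P → Chain P := fun g A =>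
    ⟨{z | g⁻¹ * z ∈ A.1}, fun a ha b hb => A.2.1 _ ha _ (mul_le_mul_right hb _),
      fun a ha p hp => by
        show g⁻¹ * (a * p) ∈ A.1
        rw [← mul_assoc]; exact A.2.2 _ ha p hp⟩
  have hac : ∀ g A z, z ∈ (ac g A).1 ↔ g⁻¹ * z ∈ A.1 := fun g A z => Iff.rfl
  have hmax : ∀ (A B : Chain P) (z : G), z ∈ (max A B).1 ↔ z ∈ A.1 ∨ z ∈ B.1 := by
    intro A B z
    rcases le_total A B with h | h
    · rw [max_eq_right h]
      exact ⟨Or.inr, fun h' => h'.elim (fun h'' => (hle _ _).mp h h'') id⟩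
    · rw [max_eq_left h]
      exact ⟨Or.inl, fun h' => h'.elim id (fun h'' => (hle _ _).mp h h'')⟩
  have hmin : ∀ (A B : Chain P) (z : G), z ∈ (min A B).1 ↔ z ∈ A.1 ∧ z ∈ B.1 := by
    intro A B z
    rcases le_total A B with h | h
    · rw [min_eq_left h]
      exact ⟨fun h' => ⟨h', (hle _ _).mp h h'⟩, fun h' => h'.1⟩
    · rw [min_eq_right h]
      exact ⟨fun h' => ⟨(hle _ _).mp h h', h'⟩, fun h' => h'.2⟩
  let T : LAct G (Chain P) :=
    { act := ac
      one := fun A => Subtype.ext (by ext z; rw [hac]; simp)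
      mul := fun g h A => Subtype.ext (by
        ext z; rw [hac, hac, hac, mul_inv_rev, mul_assoc])
      mono := fun g A B h => by
        rw [hle] at h ⊢
        intro z hz
        exact h hz
      sup := fun g h A => Subtype.ext (by
        ext z
        rw [hmax, hac, hac, hac, inv_sup, inf_mul, hinf])
      inf := fun g h A => Subtype.ext (by
        ext z
        rw [hmin, hac, hac, hac, inv_inf, sup_mul, hsup])
      lub := fun S => by
        refine ⟨⟨{z | ∃ A ∈ S, z ∈ A.1}, ?_, ?_⟩, ?_, ?_⟩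
        · rintro a ⟨A, hA, ha⟩ b hb
          exact ⟨A, hA, A.2.1 _ ha _ hb⟩
        · rintro a ⟨A, hA, ha⟩ p hp
          exact ⟨A, hA, A.2.2 _ ha _ hp⟩
        · intro A hA z hz
          exact ⟨A, hA, hz⟩
        · intro B hB
          refine (hle _ _).mpr ?_
          rintro z ⟨A, hA, hz⟩
          exact hB hA hz
      glb := fun S => by
        refine ⟨⟨{z | ∀ A ∈ S, z ∈ A.1}, ?_, ?_⟩, ?_, ?_⟩
        · intro a ha b hb A hA
          exact A.2.1 _ (ha A hA) _ hb
        · intro a ha p hp A hA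
          exact A.2.2 _ (ha A hA) _ hp
        · intro A hA
          refine (hle _ _).mpr ?_
          intro z hz
          exact hz A hA
        · intro B hB
          refine (hle _ _).mpr ?_
          intro z hz A hA
          exact hB hA hz }
  let α : Chain P := ⟨{z | ∃ p ∈ P, z ≤ p}, by
      rintro a ⟨p, hp, ha⟩ b hb
      exact ⟨p, hp, hb.trans ha⟩, by
      rintro a ⟨p, hp, ha⟩ p' hp'
      exact ⟨p * p', P.mul_mem hp hp', mul_le_mul_left ha _⟩⟩
  refine ⟨Chain P, inferInstance, T, α, ?_⟩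
  rw [lt_iff_not_ge]
  intro h
  have h1 : g ∈ (ac g α).1 := by
    rw [hac, inv_mul_cancel]
    exact ⟨1, P.one_mem, le_refl _⟩
  have h2 : g ∈ α.1 := (hle _ _).mp h h1
  obtain ⟨p, hp, hgp⟩ := h2
  exact hgP (hconv g p hg hgp hp)

end Prime

/-- Every Engel l-group satisfies: `y ⊓ y^x = 1` implies `y = 1`. -/
theorem engel_disj {G : Type} [Group G] [Lattice G] [MulLeftMono G] [MulRightMono G]
    (hE : Engel G) (x y : G) (hy : 1 ≤ y) (hxy : y ⊓ x⁻¹ * y * x = 1) : y = 1 := by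
  by_contra hne
  have hex := hE y x
  classical
  let n := Nat.find hex
  have hn : (fun z : G => z⁻¹ * x⁻¹ * z * x)^[n] y = 1 := Nat.find_spec hex
  have hn0 : n ≠ 0 := by
    intro h0
    rw [h0] at hn
    exact hne hn
  obtain ⟨k, hk⟩ := Nat.exists_eq_succ_of_ne_zero hn0
  set c := (fun z : G => z⁻¹ * x⁻¹ * z * x)^[k] y with hc
  have hc1 : c ≠ 1 := by
    intro h
    have := Nat.find_min hex (m := k) (by show k < n; omega)
    exact this h
  have hcx : c * x = x * c := by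
    rw [hk, Nat.succ_eq_add_one, Function.iterate_succ_apply', ← hc] at hn
    have h1 : c⁻¹ * x⁻¹ * c * x = 1 := hn
    calc c * x = x * c * (c⁻¹ * x⁻¹ * c * x) := by group
      _ = x * c := by rw [h1, mul_one]
  have he : 1 < c ⊔ c⁻¹ := by
    refine lt_of_le_of_ne (one_le_mabs c) ?_
    intro h
    apply hc1
    apply le_antisymm
    · rw [h]; exact le_sup_left
    · have : c⁻¹ ≤ 1 := by rw [h]; exact le_sup_right
      exact inv_le_one'.mp this
  obtain ⟨F, P, _, _, _, hgP, hconv, htot⟩ := exists_prime (c ⊔ c⁻¹) he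
  obtain ⟨Λ, _, T, α, hα⟩ := exists_action P htot hconv (c ⊔ c⁻¹) he.le hgP
  exact T.main_step hE hy hxy k rfl hcx α hα


/-- Every lattice-ordered group with the Engel property (for all x, y some iterated commutator [x,_n y] is 1) is residually totally ordered: each non-identity element survives some lattice-and-group homomorphism into a totally ordered group. -/
theorem result :
    ∀ (G : Type) [Group G] [Lattice G] [MulLeftMono G] [MulRightMono G],
      (∀ x y : G, ∃ n : ℕ, (fun z : G => z⁻¹ * y⁻¹ * z * y)^[n] x = 1) →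
      ∀ g : G, g ≠ 1 →
        ∃ (H : Type) (_ : Group H) (_ : LinearOrder H) (_ : MulLeftMono H)
          (_ : MulRightMono H) (f : G →* H),
          (∀ a b : G, f (a ⊔ b) = f a ⊔ f b) ∧
          (∀ a b : G, f (a ⊓ b) = f a ⊓ f b) ∧
          f g ≠ 1 := by
  intro G _ _ _ _ hE' g hg
  have hE : Engel G := hE'
  have he : 1 < g ⊔ g⁻¹ := by
    refine lt_of_le_of_ne (one_le_mabs g) ?_
    intro h
    apply hg
    apply le_antisymm
    · rw [h]; exact le_sup_left
    · have : g⁻¹ ≤ 1 := by rw [h]; exact le_sup_right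
      exact inv_le_one'.mp this
  obtain ⟨F, P, hF, hmem, hpos, hgP, hconv, htot⟩ := exists_prime (g ⊔ g⁻¹) he
  -- the prime is normal
  have hnorm : ∀ x : G, 1 ≤ x → x ∈ P → ∀ h : G, h * x * h⁻¹ ∈ P := by
    intro x hx hxP h
    have hx' : 1 ≤ h * x * h⁻¹ := by
      have h1 := mul_le_mul_right hx h
      have h2 := mul_le_mul_left h1 h⁻¹
      simpa using h2
    rw [hpos x hx] at hxP
    rw [hpos _ hx']
    obtain ⟨f, hf, hxf⟩ := hxP
    refine ⟨f, hf, ?_⟩
    apply engel_disj hE h (h * x * h⁻¹ ⊓ f) (le_inf hx' (hF f hf).le)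
    have h3 : h⁻¹ * (h * x * h⁻¹ ⊓ f) * h = x ⊓ h⁻¹ * f * h := by
      rw [mul_inf, inf_mul]; congr 1; group
    rw [h3]
    apply le_antisymm
    · calc h * x * h⁻¹ ⊓ f ⊓ (x ⊓ h⁻¹ * f * h) ≤ x ⊓ f :=
            le_inf (inf_le_right.trans inf_le_left) (inf_le_left.trans inf_le_right)
        _ = 1 := hxf
    · refine le_inf (le_inf hx' (hF f hf).le) (le_inf hx ?_)
      have h1 := mul_le_mul_right (hF f hf).le h⁻¹
      have h2 := mul_le_mul_left h1 h
      simpa using h2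
  -- the cone
  have hC : ∀ x y : G, 1 ≤ x → 1 ≤ y → x ∈ P → y ∈ P → x * y ∈ P :=
    fun x y _ _ hx hy => P.mul_mem hx hy
  obtain ⟨Q, iQ1, iQ2, iQ3, iQ4, π, _, hπ⟩ := coneQuot G {d | d⁻¹ ⊔ 1 ∈ P}
    (by show (1 : G)⁻¹ ⊔ 1 ∈ P; simp)
    (by
      intro a ha b hb
      have ha' : a⁻¹ ⊔ 1 ∈ P := ha
      have hb' : b⁻¹ ⊔ 1 ∈ P := hb
      show (a * b)⁻¹ ⊔ 1 ∈ P
      refine hconv _ _ le_sup_right ?_ (P.mul_mem hb' ha')
      rw [mul_inv_rev]
      exact sup_le (mul_le_mul' le_sup_left le_sup_left) (one_le_mul le_sup_right le_sup_right))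
    (by
      intro a ha h
      have ha' : a⁻¹ ⊔ 1 ∈ P := ha
      show (h * a * h⁻¹)⁻¹ ⊔ 1 ∈ P
      have h1 := hnorm _ le_sup_right ha' h
      have h2 : h * (a⁻¹ ⊔ 1) * h⁻¹ = (h * a * h⁻¹)⁻¹ ⊔ 1 := by
        rw [mul_sup, sup_mul]
        congr 1
        · group
        · group
      rwa [h2] at h1)
    (by
      intro a
      rcases htot a with h | h
      · right
        show (a⁻¹)⁻¹ ⊔ 1 ∈ P
        rwa [inv_inv]
      · left; exact h)
  have hπ' : ∀ d : G, 1 ≤ π d ↔ d⁻¹ ⊔ 1 ∈ P := hπ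
  have hle : ∀ a b : G, π a ≤ π b ↔ (b⁻¹ * a) ⊔ 1 ∈ P := by
    intro a b
    have h1 : π a ≤ π b ↔ 1 ≤ π (a⁻¹ * b) := by
      rw [map_mul, map_inv, le_inv_mul_iff_mul_le, mul_one]
    rw [h1, hπ', mul_inv_rev, inv_inv]
  have hP1 : ∀ x ∈ P, π x = 1 := by
    have key : ∀ x ∈ P, π x ≤ 1 := by
      intro x hx
      have h1 := hle x 1
      rw [map_one, inv_one, one_mul] at h1
      rw [h1]
      have h2 : x ⊔ x⁻¹ ∈ P := by
        exact (hpos _ (show 1 ≤ x ⊔ x⁻¹ from one_le_mabs x)).mpr ((hmem x).mp hx)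
      exact hconv _ _ le_sup_right (sup_le le_sup_left (one_le_mabs x)) h2
    intro x hx
    apply le_antisymm (key x hx)
    have := key x⁻¹ (P.inv_mem hx)
    rwa [map_inv, inv_le_one'] at this
  have hsup : ∀ a b : G, π (a ⊔ b) = π a ⊔ π b := by
    intro a b
    rcases htot (b⁻¹ * a) with h | h
    · have h1 : π a ≤ π b := (hle a b).mpr h
      rw [sup_eq_right.mpr h1]
      have h2 : a ⊔ b = b * ((b⁻¹ * a) ⊔ 1) := by rw [mul_sup]; group
      rw [h2, map_mul, hP1 _ h, mul_one]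
    · have h1 : π b ≤ π a := by
        rw [hle]
        have e : (b⁻¹ * a)⁻¹ = a⁻¹ * b := by group
        rwa [e] at h
      rw [sup_eq_left.mpr h1]
      have h2 : a ⊔ b = a * ((b⁻¹ * a)⁻¹ ⊔ 1) := by rw [mul_sup, sup_comm]; group
      rw [h2, map_mul, hP1 _ h, mul_one]
  refine ⟨Q, iQ1, iQ2, iQ3, iQ4, π, hsup, ?_, ?_⟩
  · intro a b
    have h1 : a ⊓ b = (a⁻¹ ⊔ b⁻¹)⁻¹ := by rw [inv_sup, inv_inv, inv_inv]
    rw [h1, map_inv, hsup, map_inv, map_inv, inv_sup, inv_inv, inv_inv]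
  · intro h1
    apply hgP
    have h2 : π (g ⊔ g⁻¹) = 1 := by rw [hsup, map_inv, h1, inv_one, sup_idem]
    have h3 := hle (g ⊔ g⁻¹) 1
    rw [h2, map_one, inv_one, one_mul] at h3
    have h4 := h3.mp le_rfl
    have h5 : g ⊔ g⁻¹ ⊔ 1 = g ⊔ g⁻¹ := sup_eq_left.mpr (one_le_mabs g)
    rwa [h5] at h4

end Pool.Agent.S02335
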