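import Pool.Statements.S02353

set_option autoImplicit false
open scoped Pointwise
open Pool Pool.MP_ee01d4_al

namespace Pool.Agent.S02353

section
variable {G : Type} [Group G] [DecidableEq G] (σ : Finset G → G)

/-- `Y` dominates `X`: adding `X` to any finite set containing `Y` does not change `σ`. -/
def Dom (X Y : Finset G) : Prop :=
  ∀ S : Finset G, S.Nonempty → σ (X ∪ (Y ∪ S)) = σ (Y ∪ S)

variable {σ}

theorem dom_trans {X Y Z : Finset G} (h1 : Dom σ X Y) (h2 : Dom σ Y Z) : Dom σ X Z := by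
  intro S hS
  have hXS : (X ∪ S).Nonempty := hS.mono Finset.subset_union_right
  have hZS : (Z ∪ S).Nonempty := hS.mono Finset.subset_union_right
  have e1 : X ∪ (Z ∪ S) = Z ∪ (X ∪ S) := by
    ext a; simp only [Finset.mem_union]; tauto
  have e2 : Y ∪ (Z ∪ (X ∪ S)) = X ∪ (Y ∪ (Z ∪ S)) := by
    ext a; simp only [Finset.mem_union]; tauto
  rw [e1, ← h2 (X ∪ S) hXS, e2, h1 (Z ∪ S) hZS, h2 S hS]

theorem dom_union {X Y Z : Finset G} (h1 : Dom σ X Z) (h2 : Dom σ Y Z) :
    Dom σ (X ∪ Y) Z := by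
  intro S hS
  have hYS : (Y ∪ S).Nonempty := hS.mono Finset.subset_union_right
  have e1 : (X ∪ Y) ∪ (Z ∪ S) = X ∪ (Z ∪ (Y ∪ S)) := by
    ext a; simp only [Finset.mem_union]; tauto
  have e2 : Z ∪ (Y ∪ S) = Y ∪ (Z ∪ S) := by
    ext a; simp only [Finset.mem_union]; tauto
  rw [e1, h1 (Y ∪ S) hYS, e2, h2 S hS]

theorem dom_of_subset {X Y : Finset G} (h : X ⊆ Y) : Dom σ X Y := by
  intro S _
  have e : X ∪ (Y ∪ S) = Y ∪ S :=
    Finset.union_eq_right.mpr (h.trans Finset.subset_union_left)
  rw [e]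

variable (hmul : ∀ X Y : Finset G, X.Nonempty → Y.Nonempty → σ (X * Y) = σ X * σ Y)

include hmul

theorem dom_mul_singleton {X Y : Finset G} (h : Dom σ X Y) (g : G) :
    Dom σ (X * {g}) (Y * {g}) := by
  intro S hS
  have hg : ({g} : Finset G).Nonempty := Finset.singleton_nonempty g
  have hS' : (S * {g⁻¹}).Nonempty := hS.mul (Finset.singleton_nonempty _)
  have e : S = (S * {g⁻¹}) * {g} := by
    rw [mul_assoc, Finset.singleton_mul_singleton, inv_mul_cancel, Finset.singleton_one, mul_one]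
  have h1 : (Y ∪ S * {g⁻¹}).Nonempty := hS'.mono Finset.subset_union_right
  have h2 : (X ∪ (Y ∪ S * {g⁻¹})).Nonempty := h1.mono Finset.subset_union_right
  have e1 : X * {g} ∪ (Y * {g} ∪ S) = (X ∪ (Y ∪ S * {g⁻¹})) * {g} := by
    rw [Finset.union_mul, Finset.union_mul, ← e]
  have e2 : Y * {g} ∪ S = (Y ∪ S * {g⁻¹}) * {g} := by
    rw [Finset.union_mul, ← e]
  rw [e1, e2, hmul _ _ h2 hg, hmul _ _ h1 hg, h _ hS']

theorem dom_mul_right {X Y : Finset G} (h : Dom σ X Y) (Z : Finset G) :
    Dom σ (X * Z) (Y * Z) := by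
  induction Z using Finset.induction_on with
  | empty => simp only [Finset.mul_empty]; exact dom_of_subset (Finset.Subset.refl _)
  | insert z Z _ ih =>
    have e : ∀ T : Finset G, T * insert z Z = T * {z} ∪ T * Z := by
      intro T
      rw [Finset.insert_eq, Finset.mul_union]
    rw [e X, e Y]
    exact dom_union
      (dom_trans (dom_mul_singleton hmul h z) (dom_of_subset Finset.subset_union_left))
      (dom_trans ih (dom_of_subset Finset.subset_union_right))

theorem dom_cancel {X Y Z : Finset G} (hZ : Z.Nonempty) (h : Dom σ (X * Z) (Y * Z)) :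
    Dom σ X Y := by
  intro S hS
  have h1 : (Y ∪ S).Nonempty := hS.mono Finset.subset_union_right
  have h2 : (X ∪ (Y ∪ S)).Nonempty := h1.mono Finset.subset_union_right
  have h3 := h (S * Z) (hS.mul hZ)
  rw [← Finset.union_mul, ← Finset.union_mul, hmul _ _ h2 hZ, hmul _ _ h1 hZ] at h3
  exact mul_right_cancel h3

theorem key {s A B : Finset G} (hA : Dom σ {1} (s ∪ A)) (hB : Dom σ {1} (s ∪ B))
    (hAB : Dom σ (A * B) s) : Dom σ {1} s := by
  have hW : (({1} : Finset G) ∪ B).Nonempty :=
    (Finset.singleton_nonempty (1 : G)).mono Finset.subset_union_left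
  have hs : Dom σ s (s * ({1} ∪ B)) := by
    apply dom_of_subset
    rw [Finset.mul_union, Finset.singleton_one, mul_one]
    exact Finset.subset_union_left
  have hsB : Dom σ (s * B) (s * ({1} ∪ B)) :=
    dom_of_subset (Finset.mul_subset_mul_left Finset.subset_union_right)
  have hB' : Dom σ B (s * ({1} ∪ B)) := by
    have h1 := dom_mul_right hmul hA B
    rw [Finset.singleton_one, one_mul, Finset.union_mul] at h1
    exact dom_trans h1 (dom_union hsB (dom_trans hAB hs))
  have h1' : Dom σ {1} (s * ({1} ∪ B)) := dom_trans hB (dom_union hs hB')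
  have hfin : Dom σ ({1} * ({1} ∪ B)) (s * ({1} ∪ B)) := by
    have e : ({1} : Finset G) * ({1} ∪ B) = {1} ∪ B := by
      rw [Finset.singleton_one, one_mul]
    rw [e]
    exact dom_union h1' hB'
  exact dom_cancel hmul hW hfin

omit hmul in
theorem dom_antisymm (hone : ∀ g : G, σ {g} = g) {g : G} (h1 : Dom σ {1} {g})
    (h2 : Dom σ {g} {1}) : g = 1 := by
  have a := h1 {g} (Finset.singleton_nonempty g)
  have b := h2 {1} (Finset.singleton_nonempty 1)
  rw [Finset.union_self, hone] at a b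
  rw [Finset.union_comm, a] at b
  exact b

/-- a set none of whose finite nonempty subsets dominates `1` -/
def Good (σ : Finset G → G) (C : Set G) : Prop :=
  ∀ S : Finset G, S.Nonempty → (↑S : Set G) ⊆ C → ¬ Dom σ {1} S

omit hmul in
theorem exists_maximal_good {g : G} (hg : ¬ Dom σ {1} {g}) :
    ∃ C : Set G, g ∈ C ∧ Good σ C ∧
      ∀ a, a ∉ C → ∃ S : Finset G, (↑S : Set G) ⊆ C ∧ Dom σ {1} (insert a S) := by
  have h0 : ({g} : Set G) ∈ {C : Set G | Good σ C} := by
    intro S hS hSg
    have : S = {g} := by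
      apply (Finset.Nonempty.subset_singleton_iff hS).1
      intro x hx
      have := hSg hx
      simpa using this
    rw [this]
    exact hg
  obtain ⟨C, hgC, hC⟩ := zorn_subset_nonempty {C : Set G | Good σ C} (by
    intro c hc hchain hne
    refine ⟨⋃₀ c, ?_, fun s hs => Set.subset_sUnion_of_mem hs⟩
    intro S hS hSc
    obtain ⟨T, hT, hST⟩ : ∃ T ∈ c, (↑S : Set G) ⊆ T := by
      have hd : DirectedOn (· ⊆ ·) c := hchain.directedOn
      exact DirectedOn.exists_mem_subset_of_finset_subset_biUnion hne hd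
        (by rwa [Set.sUnion_eq_biUnion] at hSc)
    exact hc hT S hS hST) {g} h0
  refine ⟨C, hgC (Set.mem_singleton g), hC.prop, ?_⟩
  intro a ha
  by_contra hcon
  push Not at hcon
  have hgood : Good σ (insert a C) := by
    intro T hT hTC hdom
    have hsub : (↑(T.erase a) : Set G) ⊆ C := by
      intro x hx
      simp only [Finset.coe_erase, Set.mem_diff, Finset.mem_coe, Set.mem_singleton_iff] at hx
      rcases hTC hx.1 with h | h
      · exact absurd h hx.2
      · exact h
    apply hcon (T.erase a) hsub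
    apply dom_trans hdom
    apply dom_of_subset
    intro x hx
    by_cases hxa : x = a
    · simp [hxa]
    · simp [hxa, hx]
  have := hC.le_of_ge (y := insert a C) hgood (Set.subset_insert a C)
  exact ha (this (Set.mem_insert a C))

theorem good_mul {C : Set G} (hgood : Good σ C)
    (hmax : ∀ a, a ∉ C → ∃ S : Finset G, (↑S : Set G) ⊆ C ∧ Dom σ {1} (insert a S))
    {c d : G} (hc : c ∈ C) (hd : d ∈ C) : c * d ∈ C := by
  by_contra hcd
  obtain ⟨S, hSC, hS⟩ := hmax _ hcd
  set H : Finset G := insert c (insert d S) with hH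
  have hHC : (↑H : Set G) ⊆ C := by
    intro x hx
    simp only [hH, Finset.coe_insert, Set.mem_insert_iff, Finset.mem_coe] at hx
    rcases hx with rfl | rfl | hx
    · exact hc
    · exact hd
    · exact hSC hx
  have hHne : H.Nonempty := Finset.insert_nonempty _ _
  apply hgood H hHne hHC
  have hW : (({1} : Finset G) ∪ H).Nonempty :=
    (Finset.singleton_nonempty (1 : G)).mono Finset.subset_union_left
  apply dom_cancel hmul hW
  have e : ({1} : Finset G) * ({1} ∪ H) = {1} ∪ H := by
    rw [Finset.singleton_one, one_mul]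
  have e2 : H * ({1} ∪ H) = H ∪ H * H := by
    rw [Finset.mul_union, Finset.singleton_one, mul_one]
  rw [e, e2]
  refine dom_union ?_ (dom_of_subset Finset.subset_union_left)
  apply dom_trans hS
  apply dom_of_subset
  intro x hx
  simp only [Finset.mem_insert] at hx
  rcases hx with rfl | hx
  · exact Finset.mem_union_right _ (Finset.mul_mem_mul (by simp [hH]) (by simp [hH]))
  · exact Finset.mem_union_left _ (by simp [hH, hx])

theorem compl_mul {C : Set G} (hgood : Good σ C)
    (hmax : ∀ a, a ∉ C → ∃ S : Finset G, (↑S : Set G) ⊆ C ∧ Dom σ {1} (insert a S))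
    {a b : G} (ha : a ∉ C) (hb : b ∉ C) : a * b ∉ C := by
  intro hab
  obtain ⟨S, hSC, hS⟩ := hmax _ ha
  obtain ⟨T, hTC, hT⟩ := hmax _ hb
  set s : Finset G := insert (a * b) (S ∪ T) with hs
  have hsC : (↑s : Set G) ⊆ C := by
    intro x hx
    simp only [hs, Finset.coe_insert, Finset.coe_union, Set.mem_insert_iff, Set.mem_union,
      Finset.mem_coe] at hx
    rcases hx with rfl | hx | hx
    · exact hab
    · exact hSC hx
    · exact hTC hx
  apply hgood s (Finset.insert_nonempty _ _) hsC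
  refine key hmul (A := {a}) (B := {b}) ?_ ?_ ?_
  · apply dom_trans hS
    apply dom_of_subset
    intro x hx
    simp only [Finset.mem_insert] at hx
    rcases hx with rfl | hx
    · simp
    · simp [hs, hx]
  · apply dom_trans hT
    apply dom_of_subset
    intro x hx
    simp only [Finset.mem_insert] at hx
    rcases hx with rfl | hx
    · simp
    · simp [hs, hx]
  · apply dom_of_subset
    rw [Finset.singleton_mul_singleton]
    simp [hs]

/-- separation: for `g ≠ 1` some cone `C` contains `g` or `g⁻¹`. -/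
theorem exists_cone (hone : ∀ g : G, σ {g} = g) {g : G} (hg : g ≠ 1) :
    ∃ C : Set G, (g ∈ C ∨ g⁻¹ ∈ C) ∧ (1 : G) ∉ C ∧
      (∀ c d, c ∈ C → d ∈ C → c * d ∈ C) ∧ (∀ a b, a ∉ C → b ∉ C → a * b ∉ C) := by
  have main : ∀ h : G, ¬ Dom σ {1} {h} → ∃ C : Set G, h ∈ C ∧ (1 : G) ∉ C ∧
      (∀ c d, c ∈ C → d ∈ C → c * d ∈ C) ∧ (∀ a b, a ∉ C → b ∉ C → a * b ∉ C) := by
    intro h hh
    obtain ⟨C, hC, hgood, hmax⟩ := exists_maximal_good hh
    refine ⟨C, hC, ?_, fun c d hc hd => good_mul hmul hgood hmax hc hd,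
      fun a b ha hb => compl_mul hmul hgood hmax ha hb⟩
    intro h1
    apply hgood {1} (Finset.singleton_nonempty 1)
    · simpa using h1
    · exact dom_of_subset (Finset.Subset.refl _)
  by_cases h1 : Dom σ {1} {g}
  · have h2 : ¬ Dom σ {1} {g⁻¹} := by
      intro h2
      have h3 := dom_mul_singleton hmul h2 g
      rw [Finset.singleton_mul_singleton, Finset.singleton_mul_singleton, one_mul,
        inv_mul_cancel] at h3
      exact hg (dom_antisymm hone h1 h3)
    obtain ⟨C, hC, h⟩ := main _ h2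
    exact ⟨C, Or.inr hC, h⟩
  · obtain ⟨C, hC, h⟩ := main _ h1
    exact ⟨C, Or.inl hC, h⟩

end

/-- A separating family of cones gives unique products. -/
theorem unique_of_cones {G : Type} [Group G] [DecidableEq G]
    (hcone : ∀ g : G, g ≠ 1 → ∃ C : Set G, (g ∈ C ∨ g⁻¹ ∈ C) ∧ (1 : G) ∉ C ∧
      (∀ c d, c ∈ C → d ∈ C → c * d ∈ C) ∧ (∀ a b, a ∉ C → b ∉ C → a * b ∉ C)) :
    ∀ n : ℕ, ∀ A B : Finset G, B.card = n → A.Nonempty → B.Nonempty →
      ∃ a0 ∈ A, ∃ b0 ∈ B, UniqueMul A B a0 b0 := by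
  classical
  intro n
  induction n using Nat.strong_induction_on with
  | _ n ih =>
  intro A B hBn hA hB
  by_cases hone : ∀ b ∈ B, ∀ b' ∈ B, b = b'
  · obtain ⟨a0, ha0⟩ := hA
    obtain ⟨b0, hb0⟩ := hB
    refine ⟨a0, ha0, b0, hb0, ?_⟩
    intro a b _ hb hab
    have : b = b0 := hone b hb b0 hb0
    subst this
    exact ⟨mul_right_cancel hab, rfl⟩
  · push Not at hone
    obtain ⟨x, hx, y, hy, hxy⟩ := hone
    have hg : x⁻¹ * y ≠ 1 := by
      intro h
      exact hxy (inv_mul_eq_one.1 h)
    obtain ⟨C, hC, h1C, hCmul, hCcompl⟩ := hcone _ hg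
    -- two comparable elements of `B`
    obtain ⟨b1, hb1, b2, hb2, h12⟩ : ∃ b1 ∈ B, ∃ b2 ∈ B, b1⁻¹ * b2 ∈ C := by
      rcases hC with h | h
      · exact ⟨x, hx, y, hy, h⟩
      · refine ⟨y, hy, x, hx, ?_⟩
        simpa [mul_inv_rev] using h
    -- maximal elements of the product set
    let f : G → ℕ := fun z => ((A * B).filter (fun z' => z⁻¹ * z' ∈ C)).card
    obtain ⟨z0, hz0, hz0max⟩ := Finset.exists_max_image (A * B) f (hA.mul hB)
    have hmaxz : ∀ z ∈ A * B, z⁻¹ * z0 ∉ C := by
      intro z hz hlt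
      have hlt' : f z0 < f z := by
        apply Finset.card_lt_card
        refine ⟨?_, ?_⟩
        · intro w hw
          rw [Finset.mem_filter] at hw ⊢
          refine ⟨hw.1, ?_⟩
          have := hCmul _ _ hlt hw.2
          simpa [mul_assoc] using this
        · intro hsub
          have h1 : z0 ∈ (A * B).filter (fun z' => z⁻¹ * z' ∈ C) :=
            Finset.mem_filter.2 ⟨hz0, hlt⟩
          have h2 := (Finset.mem_filter.1 (hsub h1)).2
          rw [inv_mul_cancel] at h2
          exact h1C h2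
      exact absurd (hz0max z hz) (not_le.2 hlt')
    obtain ⟨a0, ha0, b0, hb0, hab0⟩ := Finset.mem_mul.1 hz0
    let B' : Finset G := B.filter (fun b => ∀ b' ∈ B, b'⁻¹ * b ∉ C)
    let A' : Finset G := A.filter (fun a => ∀ z ∈ A * B, z⁻¹ * (a * b0) ∉ C)
    have hb0' : b0 ∈ B' := by
      refine Finset.mem_filter.2 ⟨hb0, ?_⟩
      intro b' hb' hlt
      apply hmaxz (a0 * b') (Finset.mul_mem_mul ha0 hb')
      rw [← hab0]
      simpa [mul_assoc] using hlt
    have ha0' : a0 ∈ A' := by
      refine Finset.mem_filter.2 ⟨ha0, ?_⟩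
      intro z hz
      rw [hab0]
      exact hmaxz z hz
    have hcard : B'.card < n := by
      rw [← hBn]
      apply Finset.card_lt_card
      refine ⟨Finset.filter_subset _ _, ?_⟩
      intro hsub
      have h2 := (Finset.mem_filter.1 (hsub hb2)).2 b1 hb1
      exact h2 h12
    obtain ⟨a1, ha1, b1', hb1', huniq⟩ := ih _ hcard A' B' rfl ⟨a0, ha0'⟩ ⟨b0, hb0'⟩
    have ha1A := (Finset.mem_filter.1 ha1).1
    have ha1m := (Finset.mem_filter.1 ha1).2
    have hb1B := (Finset.mem_filter.1 hb1').1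
    have hb1m := (Finset.mem_filter.1 hb1').2
    have hb0m := (Finset.mem_filter.1 hb0').2
    refine ⟨a1, ha1A, b1', hb1B, ?_⟩
    have hmax1 : ∀ z ∈ A * B, z⁻¹ * (a1 * b1') ∉ C := by
      intro z hz
      have h := hCcompl _ _ (ha1m z hz) (hb1m b0 hb0)
      simpa [mul_assoc] using h
    intro a b ha hb hab
    have hbB' : b ∈ B' := by
      refine Finset.mem_filter.2 ⟨hb, ?_⟩
      intro b' hb' hlt
      apply hmax1 (a * b') (Finset.mul_mem_mul ha hb')
      rw [← hab]
      simpa [mul_assoc] using hlt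
    have haA' : a ∈ A' := by
      refine Finset.mem_filter.2 ⟨ha, ?_⟩
      intro z hz
      have h1 := hmax1 z hz
      rw [← hab] at h1
      have h := hCcompl _ _ h1 (hb0m b hb)
      simpa [mul_assoc] using h
    exact huniq haA' hbB' hab

/-- Every group G admitting a map σ from finite non-empty subsets to G with σ{g}=g and σ(XY)=σ(X)σ(Y) is a unique product group: any two finite non-empty subsets have some product with a unique representation. -/
theorem result :
    ∀ (G : Type) [Group G] [DecidableEq G],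
      (∃ σ : Finset G → G,
          (∀ g : G, σ {g} = g) ∧
          ∀ X Y : Finset G, X.Nonempty → Y.Nonempty → σ (X * Y) = σ X * σ Y) →
      UniqueProds G := by
  intro G _ _ ⟨σ, hone, hmul⟩
  have hcone : ∀ g : G, g ≠ 1 → ∃ C : Set G, (g ∈ C ∨ g⁻¹ ∈ C) ∧ (1 : G) ∉ C ∧
      (∀ c d, c ∈ C → d ∈ C → c * d ∈ C) ∧ (∀ a b, a ∉ C → b ∉ C → a * b ∉ C) :=
    fun g hg => exists_cone hmul hone hg
  refine ⟨?_⟩
  intro A B hA hB
  exact unique_of_cones hcone _ A B rfl hA hB

end Pool.Agent.S02353
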