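import Pool.Statements.S02357
import Pool.Agent.Helper889.Si.Final
import Pool.Agent.Helper889.Si.Conc

set_option autoImplicit false
open Pool Pool.MP_ef2645_al

namespace Pool.Agent.S02357

open Pool.Agent.Helper889 Pool.Agent.Helper889.Si

/-- the second vertex of level one -/
noncomputable def u1 : S1.V 1 := fun i => (sp ((i : ℕ) + 3) : Fin 5 → ZMod ((i : ℕ) + 3))

theorem hu1 : (ow 1 : S1.V 1) ≠ u1 := by
  intro h
  have := congrFun h 0
  exact (sp_ne (show 3 ≤ 0 + 3 by omega)).1 this.symm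

theorem full : (∀ n, ∀ f ∈ alternatingGroup (S1.V (n+1)), ext (n+1) f ∈ GS (S := S1) (ow 1) u1 gL) ∧
    (∀ h, ∀ v v' : S1.V 1, v ≠ v' → pp 1 v v' h ∈ GS (S := S1) (ow 1) u1 gL) :=
  GS_full (S := S1) (fun k => sp (k+3)) (fun k => - sp (k+3)) (fun k => (sp_ne (show 3 ≤ k + 3 by omega)).2.2)
    S1_C1 S1_C2 S1_card hu1 gL gL_top

theorem infLp : Infinite Br.Lp := by
  refine Infinite.of_injective (fun n : ℤ => Br.lt (fun _ => n)) ?_
  intro a b h
  exact congrFun (congrArg Br.Lp.n h) 0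

theorem infGS : Infinite (GS (S := S1) (ow 1) u1 gL) :=
  haveI : Infinite S1.H := infLp
  inf_GS (S := S1) S1_faithful hu1 gL full.2

theorem amenGS : Br.Amenable (GS (S := S1) (ow 1) u1 gL) := by
  obtain ⟨TT, h1, h2⟩ := S1_T
  exact amenable_sub (S := S1) TT h1 h2 Tl Fol_Lp Tl_top _ (GS_le hu1 gL)

/-- Some infinite, finitely generated, simple group has an invariant finitely additive probability mean on all subsets and a symmetric, finitely supported, generating probability measure admitting a bounded non-constant harmonic function. -/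
theorem result :
    ∃ (G : Type) (_ : Group G), Infinite G ∧ Group.FG G ∧ IsSimpleGroup G ∧
      (∃ m : Set G → ℝ, m Set.univ = 1 ∧ (∀ A : Set G, 0 ≤ m A) ∧
        (∀ A B : Set G, Disjoint A B → m (A ∪ B) = m A + m B) ∧
        (∀ (g : G) (A : Set G), m ((fun x => g * x) '' A) = m A)) ∧
      ∃ μ : G →₀ ℝ, (∀ g : G, 0 ≤ μ g) ∧ Finsupp.sum μ (fun _ w => w) = 1 ∧
        (∀ g : G, μ g⁻¹ = μ g) ∧ Subgroup.closure (↑μ.support : Set G) = ⊤ ∧
        ∃ f : G → ℝ, (∃ C : ℝ, ∀ g : G, |f g| ≤ C) ∧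
          (∀ g : G, f g = Finsupp.sum μ (fun s w => w * f (g * s))) ∧
          ∃ a b : G, f a ≠ f b := by
  obtain ⟨F, hF1, hF2, hF3⟩ := exists_harmL
  exact ⟨GS (S := S1) (ow 1) u1 gL, inferInstance, infGS, fg_GS (S := S1) (ow 1) u1 gL,
    simple_GS (S := S1) S1_card hu1 gL full.1 full.2 (haveI := infGS; inferInstance),
    amen_image amenGS,
    meas_GS (S := S1) S1_faithful hu1 full.2 invL invL_spec F hF1 hF2 hF3⟩

end Pool.Agent.S02357
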