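import Pool.Statements.S02367
import Pool.Agent.Helper419.TwoGraph

set_option autoImplicit false
open Pool Pool.MP_f0391a_al

namespace Pool.Agent.S02367

open Pool.Agent.Helper419.Rado Pool.Agent.Helper419.TwoGraph

lemma adj_iff {i j : ℕ} (h : i ≠ j) :
    R.Adj i j ↔ (Nat.testBit j i = true ∨ Nat.testBit i j = true) := by
  rw [SimpleGraph.fromRel_adj]
  exact ⟨fun h' => h'.2, fun h' => ⟨h, h'⟩⟩

lemma gperm_iff (σ : Equiv.Perm ℕ) : Gperm σ ↔ ∃ S : Set ℕ, ∀ i j : ℕ, i ≠ j →
          ((Nat.testBit (σ j) (σ i) = true ∨ Nat.testBit (σ i) (σ j) = true) ↔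
            ((Nat.testBit j i = true ∨ Nat.testBit i j = true) ↔ (i ∈ S ↔ j ∈ S))) := by
  unfold Gperm
  constructor
  · rintro ⟨S, hS⟩
    refine ⟨S, fun i j hij => ?_⟩
    rw [← adj_iff hij, ← adj_iff (fun h => hij (σ.injective h))]
    exact hS i j hij
  · rintro ⟨S, hS⟩
    refine ⟨S, fun i j hij => ?_⟩
    rw [adj_iff hij, adj_iff (fun h => hij (σ.injective h))]
    exact hS i j hij

/-- the graph of a monomial -/
noncomputable def gr (m : Idx →₀ ℕ) : FG := listG ((Finsupp.toMultiset m).toList.map rep)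

lemma lo_gr (m : Idx →₀ ℕ) : Lo (gr m) := by
  apply lo_list
  intro g hg
  obtain ⟨i, -, rfl⟩ := List.mem_map.mp hg
  exact lo_of_ev (rep_good i).2

lemma gr_inj {m m' : Idx →₀ ℕ} (h : IsoG (gr m) (gr m')) : m = m' := by
  classical
  ext i
  have h1 := MM_iso (C := rep i) h
  unfold gr at h1
  rw [MM_count, MM_count] at h1
  have h2 : MM (rep i) (rep i) ≠ 0 := embs_self _
  have h3 := Nat.eq_of_mul_eq_mul_right (Nat.pos_of_ne_zero h2) h1
  have h4 : ∀ k : Idx →₀ ℕ, List.count i (Finsupp.toMultiset k).toList = k i := by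
    intro k
    rw [← Multiset.coe_count, Multiset.coe_toList, Finsupp.count_toMultiset]
  have h5 := h4 m
  have h6 := h4 m'
  rw [← h5, ← h6]
  convert h3

lemma Fg_gr (m : Idx →₀ ℕ) : Fg (gr m) = m.prod (fun i k => Fg (rep i) ^ k) := by
  unfold gr
  rw [Fg_list, List.map_map]
  have h1 : (List.map (Fg ∘ rep) (Finsupp.toMultiset m).toList).prod =
      (Multiset.map (Fg ∘ rep) (Finsupp.toMultiset m)).prod := by
    conv_rhs => rw [← Multiset.coe_toList (Finsupp.toMultiset m)]
    rw [Multiset.map_coe, Multiset.prod_coe]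
  rw [h1, Finsupp.toMultiset_map, Finsupp.prod_toMultiset, Finsupp.prod_mapDomain_index]
  · rfl
  · intro b; exact pow_zero b
  · intro b m1 m2; exact pow_add b m1 m2

lemma Lam_add {V : Type} [Fintype V] (E : Finset (Sym2 V)) {α : Type} (t : Finset α) (c : α → ℚ)
    (u : α → MvPowerSeries ℕ ℚ) : Lam E (∑ a ∈ t, c a • u a) = ∑ a ∈ t, c a * Lam E (u a) := by
  unfold Lam
  simp_rw [map_sum, Finset.mul_sum]
  rw [Finset.sum_comm]
  refine Finset.sum_congr rfl fun a _ => Finset.sum_congr rfl fun J _ => ?_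
  rw [map_smul, smul_eq_mul]
  ring

/-- The orbit algebra over ℚ of the switching-automorphism group of the random graph is generated by an algebraically independent family of homogeneous elements, i.e. it is a polynomial ring. -/
theorem result :
  ∀ K : Ideal (MvPowerSeries ℕ ℚ),
    K = Ideal.span {f : MvPowerSeries ℕ ℚ |
      ∀ s : ℕ →₀ ℕ, (∀ i, s i ≤ 1) → MvPowerSeries.coeff s f = 0} →
  ∀ T : Set (MvPowerSeries ℕ ℚ),
    T = {f : MvPowerSeries ℕ ℚ |
      (∀ σ : Equiv.Perm ℕ,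
        (∃ S : Set ℕ, ∀ i j : ℕ, i ≠ j →
          ((Nat.testBit (σ j) (σ i) = true ∨ Nat.testBit (σ i) (σ j) = true) ↔
            ((Nat.testBit j i = true ∨ Nat.testBit i j = true) ↔ (i ∈ S ↔ j ∈ S)))) →
        ∀ s : ℕ →₀ ℕ,
          MvPowerSeries.coeff (Finsupp.equivMapDomain σ s) f = MvPowerSeries.coeff s f) ∧
      ∃ N : ℕ, ∀ s : ℕ →₀ ℕ, N ≤ s.sum (fun _ e => e) → MvPowerSeries.coeff s f = 0} →
  ∃ (ι : Type) (x : ι → MvPowerSeries ℕ ℚ ⧸ K),
    (∀ i, ∃ d : ℕ, ∃ f ∈ T, Ideal.Quotient.mk K f = x i ∧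
        ∀ s : ℕ →₀ ℕ, MvPowerSeries.coeff s f ≠ 0 → s.sum (fun _ e => e) = d) ∧
    AlgebraicIndependent ℚ x ∧
    Algebra.adjoin ℚ (Set.range x) = Algebra.adjoin ℚ (Ideal.Quotient.mk K '' T) := by
  intro K hK T hT
  have hKK : K = KK := hK
  have hT' : ∀ f, f ∈ T ↔ Inv f ∧ ∃ N : ℕ, ∀ s : ℕ →₀ ℕ, N ≤ s.sum (fun _ e => e) →
      MvPowerSeries.coeff s f = 0 := by
    intro f
    rw [hT]
    constructor
    · rintro ⟨h1, h2⟩
      exact ⟨fun σ hσ => h1 σ ((gperm_iff σ).mp hσ), h2⟩
    · rintro ⟨h1, h2⟩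
      exact ⟨fun σ hσ => h1 σ ((gperm_iff σ).mpr hσ), h2⟩
  clear hK hT
  subst hKK
  have hmem : ∀ i : Idx, Fg (rep i) ∈ T := by
    intro i
    rw [hT']
    refine ⟨fun σ hσ s => fE_inv (rep_good i).2 hσ s, (rep i).1 + 1, ?_⟩
    intro s hs
    by_contra h
    have := fE_degree _ _ h
    rw [Fintype.card_fin] at this
    omega
  refine ⟨Idx, fun i => Ideal.Quotient.mk KK (Fg (rep i)), ?_, ?_, ?_⟩
  · intro i
    refine ⟨(rep i).1, Fg (rep i), hmem i, rfl, ?_⟩
    intro s hs
    have := fE_degree _ _ hs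
    rw [Fintype.card_fin] at this
    exact this
  · rw [algebraicIndependent_iff]
    intro p hp
    by_contra hne
    obtain ⟨m0, hm0⟩ := MvPolynomial.support_nonempty.mpr hne
    have h1 : Ideal.Quotient.mk KK (∑ m ∈ p.support, MvPolynomial.coeff m p • Fg (gr m)) = 0 := by
      rw [← hp, MvPolynomial.aeval_def, MvPolynomial.eval₂_eq, map_sum]
      refine Finset.sum_congr rfl fun m _ => ?_
      rw [Fg_gr, Algebra.smul_def, map_mul]
      congr 1
      rw [Finsupp.prod, map_prod]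
      refine Finset.prod_congr rfl fun i _ => ?_
      rw [map_pow]
    rw [Ideal.Quotient.eq_zero_iff_mem] at h1
    have h2 := Lam_KK (gr m0).2 _ h1
    rw [Lam_add, Finset.sum_eq_single m0] at h2
    · have h3 : MvPolynomial.coeff m0 p ≠ 0 := MvPolynomial.mem_support_iff.mp hm0
      rcases mul_eq_zero.mp h2 with h2 | h2
      · exact h3 h2
      · exact Lam_self_ne _ (lo_gr m0) h2
    · intro m _ hmm
      have h5 : Lam (gr m0).2 (Fg (gr m)) = 0 :=
        Lam_eq_zero _ (lo_gr m0) _ (lo_gr m) (fun θ hθ => hmm (gr_inj ⟨θ, hθ⟩))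
      rw [h5, mul_zero]
    · intro h; exact absurd hm0 h
  · apply le_antisymm
    · apply Algebra.adjoin_mono
      rintro _ ⟨i, rfl⟩
      exact ⟨_, hmem i, rfl⟩
    · apply Algebra.adjoin_le
      rintro _ ⟨f, hf, rfl⟩
      rw [hT'] at hf
      obtain ⟨hinv, N, hN⟩ := hf
      set A := Algebra.adjoin ℚ (Set.range fun i : Idx => Ideal.Quotient.mk KK (Fg (rep i))) with hA
      have hgen : ∀ g : FG, Good g → Ideal.Quotient.mk KK (Fg g) ∈ A := by
        intro g hg
        have h1 : IsoG (Quotient.out (⟦g⟧ : Quotient fgSetoid)) g := Quotient.mk_out g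
        let i : Idx := ⟨⟦g⟧, good_iso (fgSetoid.symm h1) hg⟩
        have h2 : Fg (rep i) = Fg g := Fg_iso h1
        rw [← h2]
        exact Algebra.subset_adjoin ⟨i, rfl⟩
      have hf2 : f - ∑ n ∈ Finset.range N, part (Fin n) f ∈ KK := by
        rw [mem_KK]
        intro s hs
        rw [map_sub, map_sum, sub_eq_zero]
        by_cases hd : s.sum (fun _ e => e) < N
        · rw [Finset.sum_eq_single (s.sum (fun _ e => e))]
          · exact (coeff_part hinv s hs (by rw [Fintype.card_fin])).symm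
          · intro n _ hn
            exact coeff_part_zero f s (by rw [Fintype.card_fin]; exact fun h => hn h.symm)
          · intro h
            exact absurd (Finset.mem_range.mpr hd) h
        · rw [hN s (not_lt.mp hd)]
          symm
          refine Finset.sum_eq_zero fun n hn => ?_
          rw [Finset.mem_range] at hn
          exact coeff_part_zero f s (by rw [Fintype.card_fin]; omega)
      have h3 := (Ideal.Quotient.mk_eq_mk_iff_sub_mem _ _).mpr hf2
      rw [SetLike.mem_coe, h3, map_sum]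
      exact A.sum_mem fun n _ => part_mem A (Ideal.Quotient.mk KK) hgen (Fin n) f

end Pool.Agent.S02367
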