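import Pool.Statements.S02374
import Pool.Agent.Helper288.BSMain
import Pool.Agent.Helper288.BSAuto

set_option autoImplicit false
open Pool Pool.MP_f0b7c6_al

namespace Pool.Agent.S02374

/-- The negation of the preceding statement: Every one-relator group in which all metabelian subgroups are abelian has a regular language of words in the generators and inverses that maps onto the group and whose words ending one generator apart stay uniformly close at every step, i.e. is automatic. -/
theorem result :
    ¬ (∀ (n : ℕ) (r : FreeGroup (Fin n)),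
      (∀ H : Subgroup (PresentedGroup ({r} : Set (FreeGroup (Fin n)))),
          derivedSeries (↥H) 2 = ⊥ → ∀ a b : ↥H, a * b = b * a) →
      ∃ (σ : Type) (_ : Fintype σ) (M : DFA (Fin n × Bool) σ),
        (∀ g : PresentedGroup ({r} : Set (FreeGroup (Fin n))),
          ∃ w : List (Fin n × Bool), w ∈ M.accepts ∧
            PresentedGroup.mk ({r} : Set (FreeGroup (Fin n))) (FreeGroup.mk w) = g) ∧
        ∃ k : ℕ, ∀ u v : List (Fin n × Bool), u ∈ M.accepts → v ∈ M.accepts →
          ((PresentedGroup.mk ({r} : Set (FreeGroup (Fin n))) (FreeGroup.mk u))⁻¹ *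
              PresentedGroup.mk ({r} : Set (FreeGroup (Fin n))) (FreeGroup.mk v) = 1 ∨
            ∃ x : Fin n × Bool,
              (PresentedGroup.mk ({r} : Set (FreeGroup (Fin n))) (FreeGroup.mk u))⁻¹ *
                PresentedGroup.mk ({r} : Set (FreeGroup (Fin n))) (FreeGroup.mk v) =
                PresentedGroup.mk ({r} : Set (FreeGroup (Fin n))) (FreeGroup.mk [x])) →
          ∀ t : ℕ, ∃ w : List (Fin n × Bool), w.length ≤ k ∧
            PresentedGroup.mk ({r} : Set (FreeGroup (Fin n))) (FreeGroup.mk (u.take t)) *
                PresentedGroup.mk ({r} : Set (FreeGroup (Fin n))) (FreeGroup.mk w) =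
              PresentedGroup.mk ({r} : Set (FreeGroup (Fin n))) (FreeGroup.mk (v.take t))) := by
  intro h
  exact Pool.Agent.Helper288.BS.not_automatic
    (h 2 Pool.Agent.Helper288.BS.rel Pool.Agent.Helper288.BS.metabelian_abelian)

end Pool.Agent.S02374
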