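import Pool.Statements.S02380
import Pool.Agent.Helper30.HopfMain
import Pool.Agent.Helper30.HopfAlg

set_option autoImplicit false
open Pool Pool.MP_f1c158_al

namespace Pool.Agent.S02380

/-- The negation of the preceding statement: If a Hopf algebra H over a field acts on an algebra R making it an H-module algebra, and R satisfies a multilinear generalized H-identity whose generalized monomials' values generate an ideal containing 1, then R satisfies a nonzero polynomial identity. -/
theorem result :
    ¬ (∀ (k : Type) [Field k] (H : Type) [Ring H] [HopfAlgebra k H]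
    (R : Type) [Ring R] [Algebra k R] [Module H R] [IsScalarTower k H R],
    (∀ (g : H) (a b : R), g • (a * b) =
        LinearMap.mul' k R
          (TensorProduct.map ((LinearMap.toSpanSingleton H R a).restrictScalars k)
            ((LinearMap.toSpanSingleton H R b).restrictScalars k) (Coalgebra.comul g))) →
    (∀ g : H, g • (1 : R) = algebraMap k R (Coalgebra.counit g)) →
    ∀ (n m : ℕ) (a : Equiv.Perm (Fin n) → Fin m → Fin (n + 1) → R)
      (h : Equiv.Perm (Fin n) → Fin m → Fin n → H),
      (∀ x : Fin n → R, ∑ σ : Equiv.Perm (Fin n), ∑ j : Fin m,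
          a σ j 0 * (List.ofFn (fun t : Fin n => (h σ j t • x (σ t)) * a σ j t.succ)).prod = 0) →
      (1 : R) ∈ TwoSidedIdeal.span
          {y : R | ∃ (σ : Equiv.Perm (Fin n)) (x : Fin n → R), y = ∑ j : Fin m,
            a σ j 0 * (List.ofFn (fun t : Fin n => (h σ j t • x (σ t)) * a σ j t.succ)).prod} →
      ∃ d : ℕ, ∃ p : FreeAlgebra k (Fin d), p ≠ 0 ∧ ∀ v : Fin d → R, FreeAlgebra.lift k v p = 0) := by
  intro H
  obtain ⟨G, hG, hV, hz, hs⟩ := Pool.Agent.Helper30.HopfMain.exists_G
  refine Pool.Agent.Helper30.HopfAlg.contra hG hV (Sum.inl 0) (fun j => j.isRight = true)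
    ?_ ?_ Pool.Agent.Helper30.HopfMain.exists_embed H
  · rintro (j | j) hj
    · simp at hj
    · exact hz j
  · rintro (j | j) hj v
    · exact hs j v
    · simp at hj

end Pool.Agent.S02380
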