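import Pool.Statements.S02383
import Pool.Agent.Helper639.RO.All

set_option autoImplicit false
open Pool Pool.MP_f21dda_al

namespace Pool.Agent.S02383

/-- In every group with a linear order invariant under right multiplication, the elements g for which some fixed n gives [x,g,…,g] = 1 (n copies of g, [a,b]=a⁻¹b⁻¹ab) for all x form a subgroup. -/
theorem result :
    ∀ (G : Type) [Group G] [LinearOrder G] [MulRightMono G],
      ∃ H : Subgroup G,
        (H : Set G) =
          {g : G | ∃ n : ℕ, ∀ x : G, (fun y : G => y⁻¹ * g⁻¹ * y * g)^[n] x = 1} := by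
  intro G _ _ _
  obtain ⟨H, hH⟩ := Pool.Agent.Helper639.RO.main_ro G (Pool.Agent.Helper639.RO.ro_of_order G)
  refine ⟨H, ?_⟩
  ext g
  exact hH g

end Pool.Agent.S02383
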