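import Pool.Statements.S02394

set_option autoImplicit false
set_option linter.style.haveILetI false
open Pool Pool.MP_f345de_al
open scoped commutatorElement

namespace Pool.Agent.S02394

section Core

theorem hom_center_kills {G : Type} [Group G] (t : G) (ht : ∀ x : G, ⁅x, t⁆ ∈ Subgroup.center G)
    (g : G) (hg : g ∈ commutator G) : ⁅g, t⁆ = 1 := by
  let φ : G →* Subgroup.center G :=
    { toFun := fun x => ⟨⁅x, t⁆, ht x⟩
      map_one' := by
        apply Subtype.ext
        simp
      map_mul' := by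
        intro x y
        apply Subtype.ext
        have e : ⁅x * y, t⁆ = x * ⁅y, t⁆ * x⁻¹ * ⁅x, t⁆ := by
          simp only [commutatorElement_def]; group
        have h1 := Subgroup.mem_center_iff.1 (ht y) x
        have h2 := Subgroup.mem_center_iff.1 (ht y) ⁅x, t⁆
        show ⁅x * y, t⁆ = ⁅x, t⁆ * ⁅y, t⁆
        rw [e, h1, h2]
        group }
  have hk : commutator G ≤ φ.ker := by
    rw [commutator_def, Subgroup.commutator_le]
    intro x _ y _
    rw [MonoidHom.mem_ker, map_commutatorElement]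
    apply commutatorElement_eq_one_iff_mul_comm.2
    exact Subtype.ext ((Subgroup.mem_center_iff.1 (φ y).2 (φ x : G)))
  have h := hk hg
  rw [MonoidHom.mem_ker] at h
  exact congrArg Subtype.val h

variable {Γ : Type} [Group Γ]

/-- For `t` central modulo `M`, the commutator of `t` with an element of the derived subgroup lies in `[Γ, M]`. -/
theorem comm_mem (M : Subgroup Γ) [M.Normal] (t : Γ) (ht : ∀ x : Γ, ⁅x, t⁆ ∈ M)
    (g : Γ) (hg : g ∈ commutator Γ) : ⁅g, t⁆ ∈ ⁅(⊤ : Subgroup Γ), M⁆ := by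
  have h3 : ⁅((g : Γ) : Γ ⧸ ⁅(⊤ : Subgroup Γ), M⁆), ((t : Γ) : Γ ⧸ ⁅(⊤ : Subgroup Γ), M⁆)⁆ = 1 := by
    apply hom_center_kills
    · intro x
      rw [Subgroup.mem_center_iff]
      intro y
      obtain ⟨x, rfl⟩ := QuotientGroup.mk_surjective x
      obtain ⟨y, rfl⟩ := QuotientGroup.mk_surjective y
      have h1 : ⁅y, ⁅x, t⁆⁆ ∈ ⁅(⊤ : Subgroup Γ), M⁆ :=
        Subgroup.commutator_mem_commutator (Subgroup.mem_top y) (ht x)
      have h2 := (QuotientGroup.eq_one_iff _).2 h1
      have h4 := commutatorElement_eq_one_iff_mul_comm.1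
        ((map_commutatorElement (QuotientGroup.mk' ⁅(⊤ : Subgroup Γ), M⁆) y ⁅x, t⁆).symm.trans h2)
      rw [map_commutatorElement] at h4
      exact h4
    · have := Subgroup.mem_map_of_mem (QuotientGroup.mk' ⁅(⊤ : Subgroup Γ), M⁆) hg
      rw [commutator_def, Subgroup.map_commutator] at this
      exact Subgroup.commutator_mono le_top le_top this
  have h5 := (map_commutatorElement (QuotientGroup.mk' ⁅(⊤ : Subgroup Γ), M⁆) g t).trans h3
  exact (QuotientGroup.eq_one_iff _).1 h5

/-- If `C ≤ M` with `M` abelian and normal, elements `x` with `[x, M] ≤ C` form a subgroup. -/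
theorem centr_closed (M C : Subgroup Γ) [hMn : M.Normal] (hCM : C ≤ M)
    (hM : ∀ x ∈ M, ∀ y ∈ M, x * y = y * x) (S : Set Γ) (hS : ∀ s ∈ S, ∀ m ∈ M, ⁅s, m⁆ ∈ C)
    (x : Γ) (hx : x ∈ Subgroup.closure S ⊔ M) : ∀ m ∈ M, ⁅x, m⁆ ∈ C := by
  let X : Subgroup Γ :=
    { carrier := {x | ∀ m ∈ M, ⁅x, m⁆ ∈ C}
      one_mem' := by
        intro m _
        rw [commutatorElement_one_left]
        exact C.one_mem
      mul_mem' := by
        intro x y hx hy m hm
        have e : ⁅x * y, m⁆ = ⁅x, ⁅y, m⁆⁆ * ⁅y, m⁆ * ⁅x, m⁆ := by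
          simp only [commutatorElement_def]; group
        rw [e]
        exact C.mul_mem (C.mul_mem (hx _ (hCM (hy m hm))) (hy m hm)) (hx m hm)
      inv_mem' := by
        intro x hx m hm
        have hm' : x⁻¹ * m * x ∈ M := by
          have := hMn.conj_mem m hm x⁻¹
          simpa using this
        have h1 := hx _ hm'
        have e : ⁅x, x⁻¹ * m * x⁆ = m * (x⁻¹ * m * x)⁻¹ := by
          simp only [commutatorElement_def]; group
        rw [e] at h1
        have e2 : ⁅x⁻¹, m⁆ = (m * (x⁻¹ * m * x)⁻¹)⁻¹ := by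
          have : (m * (x⁻¹ * m * x)⁻¹)⁻¹ = (x⁻¹ * m * x) * m⁻¹ := by group
          rw [this]
          simp only [commutatorElement_def]; group
        rw [e2]
        exact C.inv_mem h1 }
  have hle : Subgroup.closure S ⊔ M ≤ X := by
    apply sup_le
    · rw [Subgroup.closure_le]
      exact hS
    · intro y hy m hm
      have : ⁅y, m⁆ = 1 := commutatorElement_eq_one_iff_mul_comm.2 (hM y hy m hm)
      rw [this]
      exact C.one_mem
  exact hle hx

/-- A member of `closure S ⊔ M` lies in `closure T ⊔ M` for a finite subset `T` of `S`. -/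
theorem finite_support (M : Subgroup Γ) (S : Set Γ) (x : Γ) (hx : x ∈ Subgroup.closure S ⊔ M) :
    ∃ T : Finset Γ, (T : Set Γ) ⊆ S ∧ x ∈ Subgroup.closure (T : Set Γ) ⊔ M := by
  classical
  let X : Subgroup Γ :=
    { carrier := {x | ∃ T : Finset Γ, (T : Set Γ) ⊆ S ∧ x ∈ Subgroup.closure (T : Set Γ) ⊔ M}
      one_mem' := ⟨∅, by simp, Subgroup.one_mem _⟩
      mul_mem' := by
        rintro x y ⟨T, hT, hx⟩ ⟨U, hU, hy⟩
        refine ⟨T ∪ U, by simp [hT, hU], ?_⟩
        apply Subgroup.mul_mem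
        · exact (sup_le_sup_right (Subgroup.closure_mono (by simp)) M) hx
        · exact (sup_le_sup_right (Subgroup.closure_mono (by simp)) M) hy
      inv_mem' := by
        rintro x ⟨T, hT, hx⟩
        exact ⟨T, hT, Subgroup.inv_mem _ hx⟩ }
  have hle : Subgroup.closure S ⊔ M ≤ X := by
    apply sup_le
    · rw [Subgroup.closure_le]
      intro s hs
      exact ⟨{s}, by simpa using hs, (le_sup_left : _ ≤ Subgroup.closure _ ⊔ M)
        (Subgroup.subset_closure (by simp))⟩
    · intro m hm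
      exact ⟨∅, by simp, (le_sup_right : M ≤ _) hm⟩
  exact hle hx

/-- The order-theoretic heart: in a bi-ordered group there is no configuration as described. -/
theorem order_core (o : LinearOrder Γ)
    (hl : ∀ a b c : Γ, a ≤ b → c * a ≤ c * b) (hr : ∀ a b c : Γ, a ≤ b → a * c ≤ b * c)
    (M : Subgroup Γ) [hMn : M.Normal] (hM : ∀ x ∈ M, ∀ y ∈ M, x * y = y * x)
    (w t : Γ) (hw : 1 < w) (T : Finset Γ)
    (hT : ∀ s ∈ T, ∃ u : Γ, s = u * w * u⁻¹) (hTne : T.Nonempty)
    (hgen : Subgroup.closure (T : Set Γ) ⊔ M = ⊤)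
    (hrM : w * (t * w * t⁻¹) ∈ ⁅(⊤ : Subgroup Γ), M⁆) : False := by
  have hl' : ∀ a b c : Γ, a < b → c * a < c * b := by
    intro a b c h
    refine lt_of_le_of_ne (hl a b c h.le) ?_
    intro h2
    exact h.ne (mul_left_cancel h2)
  have hr' : ∀ a b c : Γ, a < b → a * c < b * c := by
    intro a b c h
    refine lt_of_le_of_ne (hr a b c h.le) ?_
    intro h2
    exact h.ne (mul_right_cancel h2)
  have hconj : ∀ u x : Γ, 1 < x → 1 < u * x * u⁻¹ := by
    intro u x hx
    have h1 := hr' _ _ u⁻¹ (hl' _ _ u hx)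
    simpa using h1
  obtain ⟨w0, hw0T, hmax⟩ := T.exists_max_image id hTne
  simp only [id] at hmax
  obtain ⟨u0, hu0⟩ := hT w0 hw0T
  have hw0 : 1 < w0 := by rw [hu0]; exact hconj u0 w hw
  -- the subgroup of elements of M infinitely small with respect to w0
  let C : Subgroup Γ :=
    { carrier := {y | y ∈ M ∧ ∀ n : ℤ, y ^ n < w0}
      one_mem' := ⟨M.one_mem, fun n => by rw [one_zpow]; exact hw0⟩
      mul_mem' := by
        rintro x y ⟨hxM, hx⟩ ⟨hyM, hy⟩
        refine ⟨M.mul_mem hxM hyM, ?_⟩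
        intro n
        have hcomm : Commute x y := hM x hxM y hyM
        rw [hcomm.mul_zpow]
        rcases le_total (x ^ n) (y ^ n) with h | h
        · have h1 : x ^ n * y ^ n ≤ y ^ n * y ^ n := hr _ _ _ h
          have h2 : y ^ n * y ^ n = y ^ (n + n) := (zpow_add y n n).symm
          rw [h2] at h1
          exact lt_of_le_of_lt h1 (hy _)
        · have h1 : x ^ n * y ^ n ≤ x ^ n * x ^ n := hl _ _ _ h
          have h2 : x ^ n * x ^ n = x ^ (n + n) := (zpow_add x n n).symm
          rw [h2] at h1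
          exact lt_of_le_of_lt h1 (hx _)
      inv_mem' := by
        rintro x ⟨hxM, hx⟩
        refine ⟨M.inv_mem hxM, ?_⟩
        intro n
        rw [inv_zpow']
        exact hx _ }
  have hCM : C ≤ M := fun y hy => hy.1
  have hS : ∀ s ∈ (T : Set Γ), ∀ m ∈ M, ⁅s, m⁆ ∈ C := by
    intro s hs m hm
    obtain ⟨u, hu⟩ := hT s hs
    have hs1 : 1 < s := by rw [hu]; exact hconj u w hw
    have hsm : s * m * s⁻¹ ∈ M := hMn.conj_mem m hm s
    -- powers of the commutator are commutators
    have hpow : ∀ m ∈ M, ⁅s, m⁆ < s := by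
      intro m hm
      -- m s m⁻¹ > 1, hence s m s⁻¹ m⁻¹ < s
      have h1 : 1 < m * s * m⁻¹ := hconj m s hs1
      have h2 := hr' _ _ s⁻¹ h1
      have h3 : m * s * m⁻¹ * s⁻¹ = ⁅s, m⁆⁻¹ := by
        simp only [commutatorElement_def]; group
      rw [one_mul, h3] at h2
      -- s⁻¹ < ⁅s,m⁆⁻¹
      have h4 := hl' _ _ ⁅s, m⁆ h2
      rw [mul_inv_cancel] at h4
      have h5 := hr' _ _ s h4
      rw [one_mul, mul_assoc, inv_mul_cancel, mul_one] at h5
      exact h5
    have hmem : ⁅s, m⁆ ∈ M := by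
      rw [commutatorElement_def]
      exact M.mul_mem hsm (M.inv_mem hm)
    refine ⟨hmem, ?_⟩
    intro n
    have hz : ⁅s, m⁆ ^ n = ⁅s, m ^ n⁆ := by
      have hc : Commute (s * m * s⁻¹) m⁻¹ := hM _ hsm _ (M.inv_mem hm)
      rw [commutatorElement_def, hc.mul_zpow, conj_zpow, commutatorElement_def, inv_zpow]
    rw [hz]
    exact lt_of_lt_of_le (hpow _ (M.zpow_mem hm n)) (hmax s hs)
  have hall : ⁅(⊤ : Subgroup Γ), M⁆ ≤ C := by
    rw [Subgroup.commutator_le]
    intro x _ m hm
    exact centr_closed M C hCM hM (T : Set Γ) hS x (by rw [hgen]; exact Subgroup.mem_top x) m hm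
  have hr0 : u0 * (w * (t * w * t⁻¹)) * u0⁻¹ ∈ ⁅(⊤ : Subgroup Γ), M⁆ :=
    (inferInstance : (⁅(⊤ : Subgroup Γ), M⁆).Normal).conj_mem _ hrM u0
  have hfin := (hall hr0).2 1
  rw [zpow_one] at hfin
  have e : u0 * (w * (t * w * t⁻¹)) * u0⁻¹ = w0 * ((u0 * t) * w * (u0 * t)⁻¹) := by
    rw [hu0]; group
  rw [e] at hfin
  have h6 := hl' _ _ w0 (hconj (u0 * t) w hw)
  rw [mul_one] at h6
  exact lt_asymm hfin h6

theorem normalClosure_eq_closure_conj (w : Γ) :
    Subgroup.normalClosure {w} = Subgroup.closure {s : Γ | ∃ u : Γ, s = u * w * u⁻¹} := by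
  rw [Subgroup.normalClosure]
  congr 1
  ext s
  simp only [Group.conjugatesOfSet, Set.mem_singleton_iff, Set.iUnion_iUnion_eq_left]
  change IsConj w s ↔ ∃ u : Γ, s = u * w * u⁻¹
  rw [isConj_iff]
  constructor
  · rintro ⟨c, hc⟩; exact ⟨c, hc.symm⟩
  · rintro ⟨c, hc⟩; exact ⟨c, hc.symm⟩

/-- A bi-ordered group has no abelian normal subgroup `M` with two-generated perfect quotient in
which one generator `a` is not central but has central square. -/
theorem no_bi (o : LinearOrder Γ)
    (hl : ∀ a b c : Γ, a ≤ b → c * a ≤ c * b) (hr : ∀ a b c : Γ, a ≤ b → a * c ≤ b * c)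
    (M : Subgroup Γ) [hMn : M.Normal] (hM : ∀ x ∈ M, ∀ y ∈ M, x * y = y * x)
    (a b : Γ) (hgen : Subgroup.closure {a, b} ⊔ M = ⊤) (hperf : commutator Γ ⊔ M = ⊤)
    (hcent : ∀ x : Γ, ⁅x, a ^ 2⁆ ∈ M) (hnc : ⁅b, a⁆ ∉ M) : False := by
  classical
  -- choose g in the commutator subgroup congruent to b
  have hb : b ∈ commutator Γ ⊔ M := by rw [hperf]; exact Subgroup.mem_top b
  obtain ⟨g, hg, m, hm, hgm⟩ := (Subgroup.mem_sup_of_normal_right).1 hb
  let π : Γ →* Γ ⧸ M := QuotientGroup.mk' M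
  have hπm : π m = 1 := (QuotientGroup.eq_one_iff m).2 hm
  have hπg : π g = π b := by rw [← hgm, map_mul, hπm, mul_one]
  have hw1 : ⁅g, a⁆ ∉ M := by
    intro h
    apply hnc
    have h1 : π ⁅g, a⁆ = 1 := (QuotientGroup.eq_one_iff _).2 h
    rw [map_commutatorElement, hπg, ← map_commutatorElement] at h1
    exact (QuotientGroup.eq_one_iff _).1 h1
  have hr0 : ⁅g, a⁆ * (a * ⁅g, a⁆ * a⁻¹) ∈ ⁅(⊤ : Subgroup Γ), M⁆ := by
    have h := comm_mem M (a ^ 2) hcent g hg
    have e : ⁅g, a ^ 2⁆ = ⁅g, a⁆ * (a * ⁅g, a⁆ * a⁻¹) := by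
      simp only [commutatorElement_def, pow_two]; group
    rwa [e] at h
  -- normal generation modulo M
  have hN : ∀ w : Γ, ⁅g, a⁆ ∈ Subgroup.normalClosure {w} → Subgroup.normalClosure {w} ⊔ M = ⊤ := by
    intro w hw
    set N : Subgroup Γ := Subgroup.normalClosure {w} ⊔ M with hNdef
    haveI : N.Normal := Subgroup.sup_normal _ _
    have hMN : M ≤ N := le_sup_right
    have hbg : ((b : Γ) : Γ ⧸ N) = (g : Γ ⧸ N) := by
      rw [← hgm]
      rw [QuotientGroup.mk_mul, (QuotientGroup.eq_one_iff m).2 (hMN hm), mul_one]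
    have hcomm : ((b : Γ) : Γ ⧸ N) * (a : Γ ⧸ N) = (a : Γ ⧸ N) * (b : Γ ⧸ N) := by
      have h1 : ((⁅g, a⁆ : Γ) : Γ ⧸ N) = 1 :=
        (QuotientGroup.eq_one_iff _).2 ((le_sup_left : _ ≤ N) hw)
      have h2 := (map_commutatorElement (QuotientGroup.mk' N) g a).symm.trans h1
      have h3 := commutatorElement_eq_one_iff_mul_comm.1 h2
      rw [hbg]
      exact h3
    -- closure of a set commuting
    have hcenter : ∀ y ∈ ({a, b} : Set Γ), ∀ x : Γ,
        ((x : Γ) : Γ ⧸ N) * (y : Γ ⧸ N) = (y : Γ ⧸ N) * (x : Γ ⧸ N) := by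
      intro y hy x
      have hx : x ∈ Subgroup.closure {a, b} ⊔ M := by rw [hgen]; exact Subgroup.mem_top x
      have hle : Subgroup.closure {a, b} ⊔ M ≤
          (Subgroup.centralizer {((y : Γ) : Γ ⧸ N)}).comap (QuotientGroup.mk' N) := by
        apply sup_le
        · rw [Subgroup.closure_le]
          intro z hz
          rw [SetLike.mem_coe, Subgroup.mem_comap, Subgroup.mem_centralizer_singleton_iff]
          rcases hy with rfl | rfl <;> rcases hz with rfl | rfl
          · rfl
          · exact hcomm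
          · exact hcomm.symm
          · rfl
        · intro z hz
          rw [Subgroup.mem_comap, Subgroup.mem_centralizer_singleton_iff]
          have : (QuotientGroup.mk' N) z = 1 := (QuotientGroup.eq_one_iff z).2 (hMN hz)
          rw [this, one_mul, mul_one]
      have := hle hx
      rw [Subgroup.mem_comap, Subgroup.mem_centralizer_singleton_iff] at this
      exact this
    have hab : ∀ x y : Γ, ((x : Γ) : Γ ⧸ N) * (y : Γ ⧸ N) = (y : Γ ⧸ N) * (x : Γ ⧸ N) := by
      intro x y
      have hy : y ∈ Subgroup.closure {a, b} ⊔ M := by rw [hgen]; exact Subgroup.mem_top y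
      have hle : Subgroup.closure {a, b} ⊔ M ≤
          (Subgroup.centralizer {((x : Γ) : Γ ⧸ N)}).comap (QuotientGroup.mk' N) := by
        apply sup_le
        · rw [Subgroup.closure_le]
          intro z hz
          rw [SetLike.mem_coe, Subgroup.mem_comap, Subgroup.mem_centralizer_singleton_iff]
          exact (hcenter z hz x).symm
        · intro z hz
          rw [Subgroup.mem_comap, Subgroup.mem_centralizer_singleton_iff]
          have : (QuotientGroup.mk' N) z = 1 := (QuotientGroup.eq_one_iff z).2 (hMN hz)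
          rw [this, one_mul, mul_one]
      have := hle hy
      rw [Subgroup.mem_comap, Subgroup.mem_centralizer_singleton_iff] at this
      exact this.symm
    have hcN : commutator Γ ≤ N := by
      rw [commutator_def, Subgroup.commutator_le]
      intro x _ y _
      apply (QuotientGroup.eq_one_iff _).1
      have h1 := map_commutatorElement (QuotientGroup.mk' N) x y
      exact h1.trans (commutatorElement_eq_one_iff_mul_comm.2 (hab x y))
    have : commutator Γ ⊔ M ≤ N := sup_le hcN hMN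
    rw [hperf] at this
    exact top_le_iff.1 this
  -- choose the sign
  obtain ⟨w, t, hw, hwN, hwr⟩ : ∃ w t : Γ, 1 < w ∧ ⁅g, a⁆ ∈ Subgroup.normalClosure {w} ∧
      w * (t * w * t⁻¹) ∈ ⁅(⊤ : Subgroup Γ), M⁆ := by
    have hne : ⁅g, a⁆ ≠ 1 := by
      intro h
      apply hw1
      rw [h]
      exact M.one_mem
    rcases lt_or_gt_of_ne hne with h | h
    · refine ⟨⁅g, a⁆⁻¹, a⁻¹, ?_, ?_, ?_⟩
      · by_contra hcon
        have h1 := hl _ _ ⁅g, a⁆ (not_lt.1 hcon)
        rw [mul_inv_cancel, mul_one] at h1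
        exact absurd h1 (not_le.2 h)
      · have h1 : ⁅g, a⁆⁻¹ ∈ Subgroup.normalClosure {⁅g, a⁆⁻¹} :=
          Subgroup.subset_normalClosure (Set.mem_singleton _)
        simpa using Subgroup.inv_mem _ h1
      · have h1 := (inferInstance : (⁅(⊤ : Subgroup Γ), M⁆).Normal).conj_mem _
          (Subgroup.inv_mem _ hr0) a⁻¹
        have e : a⁻¹ * (⁅g, a⁆ * (a * ⁅g, a⁆ * a⁻¹))⁻¹ * a⁻¹⁻¹
            = ⁅g, a⁆⁻¹ * (a⁻¹ * ⁅g, a⁆⁻¹ * a⁻¹⁻¹) := by
          generalize ⁅g, a⁆ = c
          group
        rwa [e] at h1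
    · exact ⟨⁅g, a⁆, a, h, Subgroup.subset_normalClosure (Set.mem_singleton _), hr0⟩
  have hNw := hN w hwN
  rw [normalClosure_eq_closure_conj] at hNw
  obtain ⟨T1, hT1, ha1⟩ := finite_support M {s : Γ | ∃ u : Γ, s = u * w * u⁻¹} a
    (by rw [hNw]; exact Subgroup.mem_top a)
  obtain ⟨T2, hT2, hb2⟩ := finite_support M {s : Γ | ∃ u : Γ, s = u * w * u⁻¹} b
    (by rw [hNw]; exact Subgroup.mem_top b)
  refine order_core o hl hr M hM w t hw (T1 ∪ T2 ∪ {w}) ?_ ⟨w, by simp⟩ ?_ hwr
  · intro s hs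
    simp only [Finset.mem_union, Finset.mem_singleton] at hs
    rcases hs with (hs | hs) | hs
    · exact hT1 hs
    · exact hT2 hs
    · exact ⟨1, by rw [hs]; group⟩
  · rw [← top_le_iff, ← hgen]
    apply sup_le _ le_sup_right
    rw [Subgroup.closure_le]
    rintro z (rfl | rfl)
    · exact (sup_le_sup_right (Subgroup.closure_mono (by
        intro x hx; simp only [Finset.coe_union, Set.mem_union]; exact Or.inl (Or.inl hx))) M) ha1
    · exact (sup_le_sup_right (Subgroup.closure_mono (by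
        intro x hx; simp only [Finset.coe_union, Set.mem_union]; exact Or.inl (Or.inr hx))) M) hb2

end Core

/-- A type copy of `L` carrying a well-order, used as an index type. -/
theorem right_order_of_action {G L : Type} [Group G] [LinearOrder L] (ρ : G →* (L ≃o L))
    (hρ : Function.Injective ρ) :
    ∃ o : LinearOrder G, ∀ a b c : G, a ≤ b → a * c ≤ b * c := by
  classical
  -- index type: an ordinal in bijection with L
  obtain ⟨I, hI1, hI2, ⟨e⟩⟩ : ∃ (I : Type) (_ : LinearOrder I) (_ : WellFoundedLT I), Nonempty (I ≃ L) := by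
    refine ⟨(Cardinal.mk L).ord.ToType, inferInstance, inferInstance, ?_⟩
    have := Cardinal.mk_ord_toType (Cardinal.mk L)
    exact Cardinal.eq.1 this
  let Φ : G → Lex (I → L) := fun g => toLex (fun i => (ρ g)⁻¹ (e i))
  have hΦ : Function.Injective Φ := by
    intro g h hgh
    apply hρ
    have h1 : (ρ g)⁻¹ = (ρ h)⁻¹ := by
      ext x
      have := congrFun (congrArg ofLex hgh) (e.symm x)
      simpa [Φ] using this
    exact inv_injective h1
  refine ⟨LinearOrder.lift' Φ hΦ, ?_⟩
  intro a b c hab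
  change Φ (a * c) ≤ Φ (b * c)
  have hab' : Φ a ≤ Φ b := hab
  rcases hab'.eq_or_lt with h | h
  · rw [hΦ h]
  · apply le_of_lt
    obtain ⟨i, hi, hlt⟩ := h
    have key : ∀ (g : G) (j : I), ofLex (Φ (g * c)) j = (ρ c)⁻¹ (ofLex (Φ g) j) := by
      intro g j
      simp only [Φ, ofLex_toLex, map_mul, mul_inv_rev]
      rfl
    refine ⟨i, ?_, ?_⟩
    · intro j hj
      have h1 : ofLex (Φ a) j = ofLex (Φ b) j := hi j hj
      change ofLex (Φ (a * c)) j = ofLex (Φ (b * c)) j
      rw [key, key, h1]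
    · change ofLex (Φ (a * c)) i < ofLex (Φ (b * c)) i
      rw [key, key]
      exact (OrderIso.lt_iff_lt _).2 hlt

/-- A real Moebius transformation of determinant one with positive lower left entry. -/
structure Mob where
  p : ℝ
  q : ℝ
  r : ℝ
  s : ℝ
  hr : 0 < r
  hdet : p * s - q * r = 1

/-- The universal cover of the real projective line, as an ordered set. -/
abbrev L : Type := ℤ ×ₗ WithBot ℝ

/-- The lift of a Moebius transformation to the universal cover. -/
noncomputable def lift (M : Mob) (x : L) : L :=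
  WithBot.recBotCoe (C := fun _ => L)
    (toLex ((ofLex x).1, ((M.p / M.r : ℝ) : WithBot ℝ)))
    (fun y : ℝ =>
      if M.r * y + M.s < 0 then
        toLex ((ofLex x).1, (((M.p * y + M.q) / (M.r * y + M.s) : ℝ) : WithBot ℝ))
      else if M.r * y + M.s = 0 then toLex ((ofLex x).1 + 1, (⊥ : WithBot ℝ))
      else toLex ((ofLex x).1 + 1, (((M.p * y + M.q) / (M.r * y + M.s) : ℝ) : WithBot ℝ)))
    (ofLex x).2

theorem lift_bot (M : Mob) (n : ℤ) :
    lift M (toLex (n, (⊥ : WithBot ℝ))) = toLex (n, ((M.p / M.r : ℝ) : WithBot ℝ)) := rfl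

theorem lift_neg (M : Mob) (n : ℤ) (y : ℝ) (h : M.r * y + M.s < 0) :
    lift M (toLex (n, (y : WithBot ℝ))) =
      toLex (n, (((M.p * y + M.q) / (M.r * y + M.s) : ℝ) : WithBot ℝ)) := by
  simp only [lift, ofLex_toLex, WithBot.recBotCoe_coe, if_pos h]

theorem lift_zero (M : Mob) (n : ℤ) (y : ℝ) (h : M.r * y + M.s = 0) :
    lift M (toLex (n, (y : WithBot ℝ))) = toLex (n + 1, (⊥ : WithBot ℝ)) := by
  simp only [lift, ofLex_toLex, WithBot.recBotCoe_coe, h, lt_irrefl, if_false, if_true]

theorem lift_pos (M : Mob) (n : ℤ) (y : ℝ) (h : 0 < M.r * y + M.s) :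
    lift M (toLex (n, (y : WithBot ℝ))) =
      toLex (n + 1, (((M.p * y + M.q) / (M.r * y + M.s) : ℝ) : WithBot ℝ)) := by
  simp only [lift, ofLex_toLex, WithBot.recBotCoe_coe, if_neg (not_lt.2 h.le), if_neg h.ne']

/-- The deck transformation. -/
def deck (x : L) : L := toLex ((ofLex x).1 + 1, (ofLex x).2)

theorem deck_mk (n : ℤ) (u : WithBot ℝ) : deck (toLex (n, u)) = toLex (n + 1, u) := rfl

theorem ind {P : L → Prop} (h1 : ∀ n : ℤ, P (toLex (n, ⊥)))
    (h2 : ∀ (n : ℤ) (y : ℝ), P (toLex (n, (y : WithBot ℝ)))) (x : L) : P x := by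
  obtain ⟨n, u⟩ := x
  induction u using WithBot.recBotCoe with
  | bot => exact h1 n
  | coe y => exact h2 n y

theorem aff_div (a b u d : ℝ) (hd : d ≠ 0) : a * (u / d) + b = (a * u + b * d) / d := by
  field_simp

theorem div_div_neg (u v d : ℝ) (hd : d ≠ 0) (hv : v ≠ 0) : (-u / d) / (-v / d) = u / v := by
  field_simp

theorem val_aux (p r d : ℝ) (hr : r ≠ 0) (hd : d ≠ 0) :
    ((p * d - 1) / r) / d = p / r - 1 / (r * d) := by
  field_simp

theorem val_eq (M : Mob) (y : ℝ) (h : M.r * y + M.s ≠ 0) :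
    (M.p * y + M.q) / (M.r * y + M.s) = M.p / M.r - 1 / (M.r * (M.r * y + M.s)) := by
  have hr := M.hr.ne'
  rw [← val_aux _ _ _ hr h]
  congr 1
  rw [eq_div_iff hr]
  linear_combination (-1 : ℝ) * M.hdet

theorem lift_comp (M1 M2 M3 : Mob) (hp : M1.p * M2.p + M1.q * M2.r = -M3.p)
    (hq : M1.p * M2.q + M1.q * M2.s = -M3.q) (hr : M1.r * M2.p + M1.s * M2.r = -M3.r)
    (hs : M1.r * M2.q + M1.s * M2.s = -M3.s) (x : L) : lift M1 (lift M2 x) = lift M3 x := by
  have hr1 := M1.hr
  have hr2 := M2.hr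
  have hr3 := M3.hr
  induction x using ind with
  | h1 n =>
    rw [lift_bot, lift_bot]
    have hd : M1.r * (M2.p / M2.r) + M1.s = - M3.r / M2.r := by
      field_simp
      linear_combination hr
    have hneg : M1.r * (M2.p / M2.r) + M1.s < 0 := by
      rw [hd, neg_div]
      exact neg_lt_zero.2 (div_pos hr3 hr2)
    rw [lift_neg _ _ _ hneg]
    congr 3
    rw [hd]
    field_simp
    linear_combination (-1 : ℝ) * hp
  | h2 n y =>
    have hnum : M1.p * (M2.p * y + M2.q) + M1.q * (M2.r * y + M2.s) = -(M3.p * y + M3.q) := by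
      linear_combination y * hp + hq
    have hden : M1.r * (M2.p * y + M2.q) + M1.s * (M2.r * y + M2.s) = -(M3.r * y + M3.s) := by
      linear_combination y * hr + hs
    have hkey : M2.r * (M3.r * y + M3.s) = M3.r * (M2.r * y + M2.s) + M1.r := by
      linear_combination M2.r * hs - M2.s * hr + M1.r * M2.hdet
    rcases lt_trichotomy (M2.r * y + M2.s) 0 with h2 | h2 | h2
    · rw [lift_neg _ _ _ h2]
      have hd : M1.r * ((M2.p * y + M2.q) / (M2.r * y + M2.s)) + M1.s
          = -(M3.r * y + M3.s) / (M2.r * y + M2.s) := by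
        rw [← hden, aff_div _ _ _ _ h2.ne]
      have hn : M1.p * ((M2.p * y + M2.q) / (M2.r * y + M2.s)) + M1.q
          = -(M3.p * y + M3.q) / (M2.r * y + M2.s) := by
        rw [← hnum, aff_div _ _ _ _ h2.ne]
      rcases lt_trichotomy (M3.r * y + M3.s) 0 with h3 | h3 | h3
      · have hneg : M1.r * ((M2.p * y + M2.q) / (M2.r * y + M2.s)) + M1.s < 0 := by
          rw [hd]
          exact div_neg_of_pos_of_neg (by linarith) h2
        rw [lift_neg _ _ _ hneg, lift_neg _ _ _ h3, hd, hn]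
        congr 3
        exact div_div_neg _ _ _ h2.ne h3.ne
      · have hz : M1.r * ((M2.p * y + M2.q) / (M2.r * y + M2.s)) + M1.s = 0 := by
          rw [hd, h3]; simp
        rw [lift_zero _ _ _ hz, lift_zero _ _ _ h3]
      · have hpos : 0 < M1.r * ((M2.p * y + M2.q) / (M2.r * y + M2.s)) + M1.s := by
          rw [hd]
          exact div_pos_of_neg_of_neg (by linarith) h2
        rw [lift_pos _ _ _ hpos, lift_pos _ _ _ h3, hd, hn]
        congr 3
        exact div_div_neg _ _ _ h2.ne h3.ne'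
    · rw [lift_zero _ _ _ h2, lift_bot]
      have h3 : 0 < M3.r * y + M3.s := by
        rw [h2, mul_zero, zero_add] at hkey
        by_contra hcon
        have := mul_nonpos_of_nonneg_of_nonpos hr2.le (not_lt.1 hcon)
        linarith
      rw [lift_pos _ _ _ h3]
      congr 3
      rw [h2, mul_zero, add_zero] at hnum hden
      rw [div_eq_div_iff hr1.ne' h3.ne']
      have ht : M2.p * y + M2.q ≠ 0 := by
        intro h0
        rw [h0, mul_zero] at hden
        linarith
      have e1 : M3.r * y + M3.s = -(M1.r * (M2.p * y + M2.q)) := by linarith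
      have e2 : M3.p * y + M3.q = -(M1.p * (M2.p * y + M2.q)) := by linarith
      rw [e1, e2]
      ring
    · rw [lift_pos _ _ _ h2]
      have h3 : 0 < M3.r * y + M3.s := by
        by_contra hcon
        have h4 := mul_nonpos_of_nonneg_of_nonpos hr2.le (not_lt.1 hcon)
        have h5 := mul_pos hr3 h2
        linarith
      have hd : M1.r * ((M2.p * y + M2.q) / (M2.r * y + M2.s)) + M1.s
          = -(M3.r * y + M3.s) / (M2.r * y + M2.s) := by
        rw [← hden, aff_div _ _ _ _ h2.ne']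
      have hn : M1.p * ((M2.p * y + M2.q) / (M2.r * y + M2.s)) + M1.q
          = -(M3.p * y + M3.q) / (M2.r * y + M2.s) := by
        rw [← hnum, aff_div _ _ _ _ h2.ne']
      have hneg : M1.r * ((M2.p * y + M2.q) / (M2.r * y + M2.s)) + M1.s < 0 := by
        rw [hd]
        exact div_neg_of_neg_of_pos (by linarith) h2
      rw [lift_neg _ _ _ hneg, lift_pos _ _ _ h3, hd, hn]
      congr 3
      exact div_div_neg _ _ _ h2.ne' h3.ne'

theorem lift_comp_deck (M1 M2 : Mob) (hp : M1.p * M2.p + M1.q * M2.r = -1)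
    (hq : M1.p * M2.q + M1.q * M2.s = 0) (hr : M1.r * M2.p + M1.s * M2.r = 0)
    (hs : M1.r * M2.q + M1.s * M2.s = -1) (x : L) : lift M1 (lift M2 x) = deck x := by
  have hr1 := M1.hr
  have hr2 := M2.hr
  induction x using ind with
  | h1 n =>
    rw [lift_bot, deck_mk]
    have hd : M1.r * (M2.p / M2.r) + M1.s = 0 := by
      field_simp
      linear_combination hr
    rw [lift_zero _ _ _ hd]
  | h2 n y =>
    have hnum : M1.p * (M2.p * y + M2.q) + M1.q * (M2.r * y + M2.s) = -y := by
      linear_combination y * hp + hq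
    have hden : M1.r * (M2.p * y + M2.q) + M1.s * (M2.r * y + M2.s) = -1 := by
      linear_combination y * hr + hs
    rw [deck_mk]
    rcases lt_trichotomy (M2.r * y + M2.s) 0 with h2 | h2 | h2
    · rw [lift_neg _ _ _ h2]
      have hd : M1.r * ((M2.p * y + M2.q) / (M2.r * y + M2.s)) + M1.s
          = -1 / (M2.r * y + M2.s) := by
        rw [← hden, aff_div _ _ _ _ h2.ne]
      have hn : M1.p * ((M2.p * y + M2.q) / (M2.r * y + M2.s)) + M1.q
          = -y / (M2.r * y + M2.s) := by
        rw [← hnum, aff_div _ _ _ _ h2.ne]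
      have hpos : 0 < M1.r * ((M2.p * y + M2.q) / (M2.r * y + M2.s)) + M1.s := by
        rw [hd]
        exact div_pos_of_neg_of_neg (by norm_num) h2
      rw [lift_pos _ _ _ hpos, hd, hn]
      congr 3
      rw [div_div_neg _ _ _ h2.ne one_ne_zero, div_one]
    · rw [lift_zero _ _ _ h2, lift_bot]
      congr 3
      rw [h2, mul_zero, add_zero] at hnum hden
      rw [div_eq_iff hr1.ne']
      linear_combination M1.p * hden - M1.r * hnum
    · rw [lift_pos _ _ _ h2]
      have hd : M1.r * ((M2.p * y + M2.q) / (M2.r * y + M2.s)) + M1.s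
          = -1 / (M2.r * y + M2.s) := by
        rw [← hden, aff_div _ _ _ _ h2.ne']
      have hn : M1.p * ((M2.p * y + M2.q) / (M2.r * y + M2.s)) + M1.q
          = -y / (M2.r * y + M2.s) := by
        rw [← hnum, aff_div _ _ _ _ h2.ne']
      have hneg : M1.r * ((M2.p * y + M2.q) / (M2.r * y + M2.s)) + M1.s < 0 := by
        rw [hd]
        exact div_neg_of_neg_of_pos (by norm_num) h2
      rw [lift_neg _ _ _ hneg, hd, hn]
      congr 3
      rw [div_div_neg _ _ _ h2.ne' one_ne_zero, div_one]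

theorem lex_lt_of_fst {n m : ℤ} {u v : WithBot ℝ} (h : n < m) :
    (toLex (n, u) : L) < toLex (m, v) := by
  rw [Prod.Lex.toLex_lt_toLex]
  exact Or.inl h

theorem lex_lt_of_snd {n : ℤ} {u v : WithBot ℝ} (h : u < v) :
    (toLex (n, u) : L) < toLex (n, v) := by
  rw [Prod.Lex.toLex_lt_toLex]
  exact Or.inr ⟨rfl, h⟩

theorem inv_aux {r a b : ℝ} (hr : 0 < r) (hab : a < b) (h : 0 < a * b) :
    1 / (r * b) < 1 / (r * a) := by
  have ha : a ≠ 0 := by rintro rfl; simp at h
  have hb : b ≠ 0 := by rintro rfl; simp at h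
  have e : 1 / (r * a) - 1 / (r * b) = (b - a) / (r * (a * b)) := by
    field_simp
  have : 0 < (b - a) / (r * (a * b)) := div_pos (by linarith) (mul_pos hr h)
  linarith

theorem lift_lt_same (M : Mob) (n : ℤ) {u v : WithBot ℝ} (huv : u < v) :
    lift M (toLex (n, u)) < lift M (toLex (n, v)) := by
  have hr := M.hr
  induction v using WithBot.recBotCoe with
  | bot => exact absurd huv not_lt_bot
  | coe y =>
    induction u using WithBot.recBotCoe with
    | bot =>
      rw [lift_bot]
      rcases lt_trichotomy (M.r * y + M.s) 0 with h | h | h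
      · rw [lift_neg _ _ _ h, val_eq _ _ h.ne]
        apply lex_lt_of_snd
        rw [WithBot.coe_lt_coe]
        have : 1 / (M.r * (M.r * y + M.s)) < 0 := by
          apply div_neg_of_pos_of_neg one_pos
          exact mul_neg_of_pos_of_neg hr h
        linarith
      · rw [lift_zero _ _ _ h]
        exact lex_lt_of_fst (by omega)
      · rw [lift_pos _ _ _ h]
        exact lex_lt_of_fst (by omega)
    | coe x =>
      have hxy : x < y := WithBot.coe_lt_coe.1 huv
      have hd : M.r * x + M.s < M.r * y + M.s := by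
        have := mul_lt_mul_of_pos_left hxy hr
        linarith
      rcases lt_trichotomy (M.r * x + M.s) 0 with h | h | h
      · rw [lift_neg _ _ _ h]
        rcases lt_trichotomy (M.r * y + M.s) 0 with h' | h' | h'
        · rw [lift_neg _ _ _ h', val_eq _ _ h.ne, val_eq _ _ h'.ne]
          apply lex_lt_of_snd
          rw [WithBot.coe_lt_coe]
          have := inv_aux hr hd (mul_pos_of_neg_of_neg h h')
          linarith
        · rw [lift_zero _ _ _ h']
          exact lex_lt_of_fst (by omega)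
        · rw [lift_pos _ _ _ h']
          exact lex_lt_of_fst (by omega)
      · have h' : 0 < M.r * y + M.s := by linarith
        rw [lift_zero _ _ _ h, lift_pos _ _ _ h']
        exact lex_lt_of_snd (WithBot.bot_lt_coe _)
      · have h' : 0 < M.r * y + M.s := by linarith
        rw [lift_pos _ _ _ h, lift_pos _ _ _ h', val_eq _ _ h.ne', val_eq _ _ h'.ne']
        apply lex_lt_of_snd
        rw [WithBot.coe_lt_coe]
        have := inv_aux hr hd (mul_pos h h')
        linarith

theorem lift_lt_next (M : Mob) (n : ℤ) (u : WithBot ℝ) :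
    lift M (toLex (n, u)) < lift M (toLex (n + 1, ⊥)) := by
  have hr := M.hr
  rw [lift_bot]
  induction u using WithBot.recBotCoe with
  | bot =>
    rw [lift_bot]
    exact lex_lt_of_fst (by omega)
  | coe y =>
    rcases lt_trichotomy (M.r * y + M.s) 0 with h | h | h
    · rw [lift_neg _ _ _ h]
      exact lex_lt_of_fst (by omega)
    · rw [lift_zero _ _ _ h]
      exact lex_lt_of_snd (WithBot.bot_lt_coe _)
    · rw [lift_pos _ _ _ h, val_eq _ _ h.ne']
      apply lex_lt_of_snd
      rw [WithBot.coe_lt_coe]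
      have : 0 < 1 / (M.r * (M.r * y + M.s)) := by positivity
      linarith

theorem lift_strictMono (M : Mob) : StrictMono (lift M) := by
  rintro ⟨n, u⟩ ⟨m, v⟩ h
  change lift M (toLex (n, u)) < lift M (toLex (m, v))
  have h' : (toLex (n, u) : L) < toLex (m, v) := h
  rw [Prod.Lex.toLex_lt_toLex] at h'
  rcases h' with h' | ⟨h1, h2⟩
  · simp only at h'
    have h1 : lift M (toLex (n, u)) < lift M (toLex (n + 1, ⊥)) := lift_lt_next M n u
    have h2 : lift M (toLex (n + 1, ⊥)) ≤ lift M (toLex (m, ⊥)) := by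
      rw [lift_bot, lift_bot]
      rcases (show n + 1 ≤ m from h').lt_or_eq with h3 | h3
      · exact (lex_lt_of_fst h3).le
      · rw [h3]
    have h3 : lift M (toLex (m, ⊥)) ≤ lift M (toLex (m, v)) := by
      rcases (bot_le : ⊥ ≤ v).lt_or_eq with h4 | h4
      · exact (lift_lt_same M m h4).le
      · rw [← h4]
    exact lt_of_lt_of_le h1 (h2.trans h3)
  · simp only at h1 h2
    subst h1
    exact lift_lt_same M n h2

/-- An order automorphism from a lift one of whose iterates is the deck transformation. -/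
noncomputable def liftIso (M : Mob) (g : L → L) (hg : ∀ x, lift M (g x) = deck x) : L ≃o L :=
  (lift_strictMono M).orderIsoOfSurjective (lift M) (by
    intro y
    refine ⟨g (toLex ((ofLex y).1 - 1, (ofLex y).2)), ?_⟩
    rw [hg, deck_mk, sub_add_cancel]
    rfl)

theorem liftIso_apply (M : Mob) (g : L → L) (hg : ∀ x, lift M (g x) = deck x) (x : L) :
    liftIso M g hg x = lift M x := rfl

theorem exists_lambda : ∃ l : ℝ, 3 < l ^ 2 ∧ 1 < l ∧ l ^ 3 = l ^ 2 + 2 * l - 1 := by
  have hcont : Continuous (fun x : ℝ => x ^ 3 - x ^ 2 - 2 * x + 1) := by continuity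
  have h := intermediate_value_Icc (a := (1.8 : ℝ)) (b := 1.81) (by norm_num)
    hcont.continuousOn
  have h0 : (0 : ℝ) ∈ Set.Icc ((1.8 : ℝ) ^ 3 - 1.8 ^ 2 - 2 * 1.8 + 1)
      ((1.81 : ℝ) ^ 3 - 1.81 ^ 2 - 2 * 1.81 + 1) := by
    constructor <;> norm_num
  obtain ⟨l, ⟨hl1, hl2⟩, hl⟩ := h h0
  refine ⟨l, by nlinarith, by linarith, ?_⟩
  simp only at hl
  linarith

/-- Two order automorphisms `a`, `b` of the line `L` with `a² = b³ = (b⁻¹ a)⁷ ≠ 1`. -/
theorem exists_aut : ∃ a b : L ≃o L, a ^ 2 = b ^ 3 ∧ a ^ 2 = (b⁻¹ * a) ^ 7 ∧ a ^ 2 ≠ 1 := by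
  obtain ⟨l, hl2, hl1, hl⟩ := exists_lambda
  obtain ⟨m, hm, hm2⟩ : ∃ m : ℝ, 0 < m ∧ m ^ 2 = l ^ 2 - 3 :=
    ⟨Real.sqrt (l ^ 2 - 3), Real.sqrt_pos.2 (by linarith), Real.sq_sqrt (by linarith)⟩
  have hl0 : 0 < l := by linarith
  have hl3 : 0 < l ^ 2 - 1 := by linarith
  have e1 : (l + m) * (m - l) = -3 := by linear_combination hm2
  have e2 : (1 - l ^ 2) * (1 + l - l ^ 2) = 1 := by linear_combination l * hl
  let A : Mob := ⟨l - m, 1 - l ^ 2 + l * m, 2, m - l, by norm_num, by
    linear_combination (-1 : ℝ) * hm2⟩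
  let B : Mob := ⟨1, m - l, l + m, -2, by linarith, by linear_combination (-1 : ℝ) * e1⟩
  let B2 : Mob := ⟨2, m - l, l + m, -1, by linarith, by linear_combination (-1 : ℝ) * e1⟩
  let C1 : Mob := ⟨0, -1, 1, -l, by norm_num, by ring⟩
  let C2 : Mob := ⟨1, -l, l, 1 - l ^ 2, hl0, by ring⟩
  let C3 : Mob := ⟨l, 1 - l ^ 2, l ^ 2 - 1, 1 - l ^ 2, hl3, by linear_combination e2⟩
  let C4 : Mob := ⟨l ^ 2 - 1, 1 - l ^ 2, l ^ 2 - 1, -l, hl3, by linear_combination e2⟩
  let C5 : Mob := ⟨l ^ 2 - 1, -l, l, -1, hl0, by ring⟩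
  let C6 : Mob := ⟨l, -1, 1, 0, by norm_num, by ring⟩
  have hAA : ∀ x, lift A (lift A x) = deck x := by
    apply lift_comp_deck <;> simp only [A]
    · linear_combination hm2
    · ring
    · ring
    · linear_combination hm2
  have hBB : ∀ x, lift B (lift B x) = lift B2 x := by
    apply lift_comp <;> simp only [B, B2]
    · linear_combination e1
    · ring
    · ring
    · linear_combination e1
  have hBBB : ∀ x, lift B (lift B2 x) = deck x := by
    apply lift_comp_deck <;> simp only [B, B2]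
    · linear_combination e1
    · ring
    · ring
    · linear_combination e1
  have hBC : ∀ x, lift B (lift C1 x) = lift A x := by
    apply lift_comp <;> simp only [A, B, C1]
    · ring
    · ring
    · ring
    · ring
  have hC2 : ∀ x, lift C1 (lift C1 x) = lift C2 x := by
    apply lift_comp <;> simp only [C1, C2] <;> ring
  have hC3 : ∀ x, lift C1 (lift C2 x) = lift C3 x := by
    apply lift_comp <;> simp only [C1, C2, C3]
    · ring
    · ring
    · ring
    · linear_combination hl
  have hC4 : ∀ x, lift C1 (lift C3 x) = lift C4 x := by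
    apply lift_comp <;> simp only [C1, C3, C4]
    · ring
    · ring
    · linear_combination (-1 : ℝ) * hl
    · linear_combination hl
  have hC5 : ∀ x, lift C1 (lift C4 x) = lift C5 x := by
    apply lift_comp <;> simp only [C1, C4, C5]
    · ring
    · ring
    · linear_combination (-1 : ℝ) * hl
    · ring
  have hC6 : ∀ x, lift C1 (lift C5 x) = lift C6 x := by
    apply lift_comp <;> simp only [C1, C5, C6] <;> ring
  have hC7 : ∀ x, lift C1 (lift C6 x) = deck x := by
    apply lift_comp_deck <;> simp only [C1, C6] <;> ring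
  let a : L ≃o L := liftIso A (lift A) hAA
  let b : L ≃o L := liftIso B (lift B2) hBBB
  let c : L ≃o L := liftIso C1 (lift C6) hC7
  have ha2 : ∀ x, (a ^ 2) x = deck x := by
    intro x
    rw [pow_two, RelIso.mul_apply]
    exact hAA x
  have hb3 : ∀ x, (b ^ 3) x = deck x := by
    intro x
    rw [pow_succ, pow_two, RelIso.mul_apply, RelIso.mul_apply]
    change lift B (lift B (lift B x)) = deck x
    rw [hBB x, hBBB x]
  have hc7 : ∀ x, (c ^ 7) x = deck x := by
    intro x
    have e : c ^ 7 = c * (c * (c * (c * (c * (c * c))))) := by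
      simp only [pow_succ, pow_zero, one_mul, mul_assoc]
    rw [e]
    simp only [RelIso.mul_apply]
    change lift C1 (lift C1 (lift C1 (lift C1 (lift C1 (lift C1 (lift C1 x)))))) = deck x
    rw [hC2 x, hC3 x, hC4 x, hC5 x, hC6 x, hC7 x]
  have hbc : b * c = a := by
    ext x
    rw [RelIso.mul_apply]
    exact hBC x
  refine ⟨a, b, ?_, ?_, ?_⟩
  · ext x
    rw [ha2, hb3]
  · have : b⁻¹ * a = c := by rw [← hbc]; group
    rw [this]
    ext x
    rw [ha2, hc7]
  · intro h
    have h1 := ha2 (toLex (0, ⊥))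
    rw [h] at h1
    have h2 : (toLex ((0 : ℤ), (⊥ : WithBot ℝ)) : L) = toLex (0 + 1, ⊥) := h1
    have h3 : ((0 : ℤ), (⊥ : WithBot ℝ)) = (0 + 1, ⊥) := toLex.injective h2
    have h4 := congrArg Prod.fst h3
    norm_num at h4

theorem solve_rel {G : Type} [Group G] (x y : G) (hc : y * x = x * y) (h1 : x ^ 2 = y ^ 3)
    (h2 : x ^ 2 = (y⁻¹ * x) ^ 7) : x = 1 ∧ y = 1 := by
  have hcx : Commute y x := hc
  rw [hcx.inv_left.mul_pow, inv_pow, eq_inv_mul_iff_mul_eq] at h2
  have h3 : y ^ 7 = x ^ 5 := by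
    have e : x ^ 7 = x ^ 5 * x ^ 2 := by rw [← pow_add]
    rw [e] at h2
    exact mul_right_cancel h2
  have h4 : y ^ 6 = x ^ 4 := by
    calc y ^ 6 = (y ^ 3) ^ 2 := by rw [← pow_mul]
      _ = (x ^ 2) ^ 2 := by rw [h1]
      _ = x ^ 4 := by rw [← pow_mul]
  have h5 : y = x := by
    have e1 : y ^ 7 = y ^ 6 * y := pow_succ y 6
    have e2 : x ^ 5 = x ^ 4 * x := pow_succ x 4
    rw [e1, e2, h4] at h3
    exact mul_left_cancel h3
  have h6 : x = 1 := by
    rw [h5, pow_succ x 2] at h1
    exact (mul_eq_left.1 h1.symm)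
  exact ⟨h6, by rw [h5, h6]⟩

/-- The negation of the preceding statement: For every free group F and normal subgroup H, if F/H admits a right-invariant linear order, then F/[H,H] admits a linear order invariant under both left and right multiplication. -/
theorem result :
    ¬ (∀ (α : Type) (H : Subgroup (FreeGroup α)) [H.Normal],
      (∃ o : LinearOrder (FreeGroup α ⧸ H),
          ∀ a b c : FreeGroup α ⧸ H, a ≤ b → a * c ≤ b * c) →
      ∃ o : LinearOrder (FreeGroup α ⧸ ⁅H, H⁆),
        (∀ a b c : FreeGroup α ⧸ ⁅H, H⁆, a ≤ b → c * a ≤ c * b) ∧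
        (∀ a b c : FreeGroup α ⧸ ⁅H, H⁆, a ≤ b → a * c ≤ b * c)) := by
  intro hall
  obtain ⟨a, b, hab3, hab7, ha⟩ := exists_aut
  let φ : FreeGroup Bool →* (L ≃o L) := FreeGroup.lift (fun i => cond i a b)
  let A : FreeGroup Bool := FreeGroup.of true
  let B : FreeGroup Bool := FreeGroup.of false
  have hφA : φ A = a := by simp [φ, A]
  have hφB : φ B = b := by simp [φ, B]
  let H : Subgroup (FreeGroup Bool) := φ.ker
  have hord := right_order_of_action (QuotientGroup.kerLift φ) (QuotientGroup.kerLift_injective φ)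
  obtain ⟨o, hl, hr⟩ := hall Bool H hord
  let K : Subgroup (FreeGroup Bool) := ⁅H, H⁆
  have hKH : K ≤ H := Subgroup.commutator_le_left H H
  let π : FreeGroup Bool →* FreeGroup Bool ⧸ K := QuotientGroup.mk' K
  have hπ : Function.Surjective π := QuotientGroup.mk'_surjective K
  let M : Subgroup (FreeGroup Bool ⧸ K) := H.map π
  haveI hMn : M.Normal := Subgroup.Normal.map inferInstance π hπ
  have hmemM : ∀ x : FreeGroup Bool, π x ∈ M ↔ φ x = 1 := by
    intro x
    constructor
    · rintro ⟨h, hh, hhx⟩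
      have h1 : h⁻¹ * x ∈ K := QuotientGroup.eq.1 hhx
      have h2 : x = h * (h⁻¹ * x) := by group
      have h3 : x ∈ H := by rw [h2]; exact H.mul_mem hh (hKH h1)
      exact h3
    · intro h
      exact ⟨x, h, rfl⟩
  have hM : ∀ x ∈ M, ∀ y ∈ M, x * y = y * x := by
    rintro _ ⟨x, hx, rfl⟩ _ ⟨y, hy, rfl⟩
    have h1 : ⁅x, y⁆ ∈ K := Subgroup.commutator_mem_commutator hx hy
    have h2 : π ⁅x, y⁆ = 1 := (QuotientGroup.eq_one_iff _).2 h1
    rw [map_commutatorElement] at h2
    exact commutatorElement_eq_one_iff_mul_comm.1 h2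
  have hgen : Subgroup.closure {π A, π B} ⊔ M = ⊤ := by
    have h1 : Subgroup.closure {π A, π B} = ⊤ := by
      have h2 : ({π A, π B} : Set (FreeGroup Bool ⧸ K)) = π '' (Set.range FreeGroup.of) := by
        ext z
        constructor
        · rintro (rfl | rfl)
          · exact ⟨A, ⟨true, rfl⟩, rfl⟩
          · exact ⟨B, ⟨false, rfl⟩, rfl⟩
        · rintro ⟨_, ⟨i, rfl⟩, rfl⟩
          cases i
          · exact Or.inr rfl
          · exact Or.inl rfl
      rw [h2, ← MonoidHom.map_closure, FreeGroup.closure_range_of, Subgroup.map_top_of_surjective π hπ]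
    rw [h1, top_sup_eq]
  have hcen : ∀ y : FreeGroup Bool, φ y * a ^ 2 = a ^ 2 * φ y := by
    intro y
    have hle : φ.range ≤ Subgroup.centralizer {a ^ 2} := by
      apply FreeGroup.range_lift_le
      rintro _ ⟨i, rfl⟩
      rw [SetLike.mem_coe, Subgroup.mem_centralizer_singleton_iff]
      cases i
      · change b * a ^ 2 = a ^ 2 * b
        rw [hab3]
        exact (Commute.self_pow b 3).eq
      · change a * a ^ 2 = a ^ 2 * a
        exact (Commute.self_pow a 2).eq
    have := hle ⟨y, rfl⟩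
    rwa [Subgroup.mem_centralizer_singleton_iff] at this
  have hcent : ∀ x : FreeGroup Bool ⧸ K, ⁅x, (π A) ^ 2⁆ ∈ M := by
    intro x
    obtain ⟨y, rfl⟩ := hπ x
    rw [← map_pow, ← map_commutatorElement, hmemM, map_commutatorElement, map_pow, hφA]
    exact commutatorElement_eq_one_iff_mul_comm.2 (hcen y)
  have hnc : ⁅π B, π A⁆ ∉ M := by
    rw [← map_commutatorElement, hmemM, map_commutatorElement, hφA, hφB,
      commutatorElement_eq_one_iff_mul_comm]
    intro h
    apply ha
    rw [(solve_rel a b h hab3 hab7).1, one_pow]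
  have hperf : commutator (FreeGroup Bool ⧸ K) ⊔ M = ⊤ := by
    set D : Subgroup (FreeGroup Bool ⧸ K) := commutator (FreeGroup Bool ⧸ K) ⊔ M with hD
    haveI : D.Normal := Subgroup.sup_normal _ _
    have hMD : M ≤ D := le_sup_right
    have hCD : commutator (FreeGroup Bool ⧸ K) ≤ D := le_sup_left
    let σ : (FreeGroup Bool ⧸ K) →* (FreeGroup Bool ⧸ K) ⧸ D := QuotientGroup.mk' D
    have hσ : ∀ x ∈ D, σ x = 1 := fun x hx => (QuotientGroup.eq_one_iff x).2 hx
    have hc : σ (π B) * σ (π A) = σ (π A) * σ (π B) := by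
      have h1 : ⁅π B, π A⁆ ∈ D := hCD (by
        rw [commutator_def]
        exact Subgroup.commutator_mem_commutator (Subgroup.mem_top _) (Subgroup.mem_top _))
      have h2 := hσ _ h1
      rw [map_commutatorElement] at h2
      exact commutatorElement_eq_one_iff_mul_comm.1 h2
    have h1 : (σ (π A)) ^ 2 = (σ (π B)) ^ 3 := by
      have h2 : π (A ^ 2 * (B ^ 3)⁻¹) ∈ M := by
        rw [hmemM, map_mul, map_inv, map_pow, map_pow, hφA, hφB, hab3, mul_inv_cancel]
      have h3 := hσ _ (hMD h2)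
      rw [map_mul, map_mul, map_inv, map_inv, map_pow, map_pow, map_pow, map_pow,
        mul_inv_eq_one] at h3
      exact h3
    have h2 : (σ (π A)) ^ 2 = ((σ (π B))⁻¹ * σ (π A)) ^ 7 := by
      have h2 : π (A ^ 2 * ((B⁻¹ * A) ^ 7)⁻¹) ∈ M := by
        rw [hmemM, map_mul, map_inv, map_pow, map_pow, map_mul, map_inv, hφA, hφB, hab7,
          mul_inv_cancel]
      have h3 := hσ _ (hMD h2)
      rw [map_mul, map_mul, map_inv, map_inv, map_pow, map_pow, map_pow, map_pow, map_mul,
        map_mul, map_inv, map_inv, mul_inv_eq_one] at h3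
      exact h3
    obtain ⟨hA1, hB1⟩ := solve_rel _ _ hc h1 h2
    rw [← top_le_iff, ← hgen]
    apply sup_le _ hMD
    rw [Subgroup.closure_le]
    rintro z (rfl | rfl)
    · exact (QuotientGroup.eq_one_iff _).1 hA1
    · exact (QuotientGroup.eq_one_iff _).1 hB1
  exact no_bi o hl hr M hM (π A) (π B) hgen hperf hcent hnc

end Pool.Agent.S02394
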