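import Pool.Statements.S02407
import Mathlib

set_option autoImplicit false
open Pool Pool.MP_f431e1_al

/-
Outline. Let `L` be the language of an automatic structure of `G`, accepted by an automaton with state set `Q`, and let
`Lb` be the language of all words which can be continued to a word of `L`; `d.v w` is the element represented by `w`.

* `FS`: a function on words is finite-state if it has finitely many residuals.  Every condition below turns out to be
  finite-state; this is proved with the fellow traveller property (`Data.ft`) and the closure properties of `FS`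
  (`FS.proj`, `FS_dd`, `FS_cmp`, `FS.of_rec`).
* `Data.M`: words of `Lb` which are shortlex-least among the words of `Lb` with the same value and the same state.  `M` is
  closed under taking initial segments and has at most `|Q|` words for each element.  `Data.R`: shortlex-least words of
  `Lb` for the elements of `G`; `R` is a subset of `M`, and every element has exactly one word in `R`.
* Fix a large block length `N`.  Skeleton nodes (`Data.V`): words of `M` of length `k N` having an extension in `M` of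
  length `(k+1) N`.  Each skeleton node `u` has a canonical extension `u ++ X u` in `M`; its slots are the values of
  `u ++ (X u).take j`, `j < N`, which are not values of words of `Lb` shorter than `u`.
* Nodes of the same length choose slots greedily (`Data.Got`), `j = 0, 1, ..., N - 1`.  A counting argument (`served`):
  the number of nodes competing with a given node is bounded independently of `N`, so for large `N` every node gets a
  slot.  So `Data.ph` is an injective map from skeleton nodes to elements of `G`, `ph u = v (u ++ ps u)`, the word `ps u`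
  being shorter than `N`.
* New structure: the tree of skeleton nodes `u` (letters: `(ps u)⁻¹ x ps (u x)` for a block `x` of length `N`), the node
  `u` representing `ph u`; every element which is not some `ph u` becomes a leaf below the deepest skeleton node on its
  word in `R` (letters `(ps u)⁻¹ z`, `z` shorter than `2 N`).  `Val` is the resulting language; it is closed under
  initial segments, represents every element exactly once (`Val_unique`, `Val_surj`), it is regular (`FS_Val`, `FS_Th`)
  and its words are shadowed by words of `Lb` (`shadow`), so that it has the fellow traveller property.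
-/

namespace Pool.Agent.S02407

open Set

section Part1

section FSTheory

universe u₁ u₂ u₃ u₄

/-- Finite-state functions on words: finitely many residual functions. -/
def FS {A : Type u₁} {S : Type u₂} (f : List A → S) : Prop :=
  (Set.range (fun u : List A => fun x : List A => f (u ++ x))).Finite

variable {A : Type u₁} {B : Type u₂} {S : Type u₃} {T : Type u₄}

lemma FS.comp {f : List A → S} (hf : FS f) (g : S → T) : FS (fun u => g (f u)) := by
  refine (hf.image (fun F => fun x => g (F x))).subset ?_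
  rintro _ ⟨u, rfl⟩
  exact ⟨_, ⟨u, rfl⟩, rfl⟩

lemma FS.prod {f : List A → S} {g : List A → T} (hf : FS f) (hg : FS g) :
    FS (fun u => (f u, g u)) := by
  refine ((Set.Finite.prod hf hg).image (fun p => fun x => (p.1 x, p.2 x))).subset ?_
  rintro _ ⟨u, rfl⟩
  exact ⟨(_, _), ⟨⟨u, rfl⟩, ⟨u, rfl⟩⟩, rfl⟩

lemma FS.res {f : List A → S} (hf : FS f) : FS (fun u => fun x => f (u ++ x)) := by
  refine (hf.image (fun F => fun x => fun y => F (x ++ y))).subset ?_
  rintro _ ⟨u, rfl⟩
  refine ⟨_, ⟨u, rfl⟩, ?_⟩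
  funext x y
  simp [List.append_assoc]

lemma FS.pull {f : List B → S} (hf : FS f) (φ : List A → List B)
    (hφ : ∀ u x, φ (u ++ x) = φ u ++ φ x) : FS (fun u => f (φ u)) := by
  refine (hf.image (fun F => fun x => F (φ x))).subset ?_
  rintro _ ⟨u, rfl⟩
  refine ⟨_, ⟨φ u, rfl⟩, ?_⟩
  funext x
  simp [hφ]

lemma FS.const (s : S) : FS (fun _ : List A => s) := by
  refine (Set.finite_singleton (fun _ : List A => s)).subset ?_
  rintro _ ⟨u, rfl⟩
  rfl

lemma FS.of_step {st : List A → S} (step : S → A → S) (h : ∀ u a, st (u ++ [a]) = step (st u) a)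
    (hfin : (Set.range st).Finite) : FS st := by
  have key : ∀ x u, st (u ++ x) = x.foldl step (st u) := by
    intro x
    induction x with
    | nil => intro u; simp
    | cons a x ih =>
      intro u
      have := ih (u ++ [a])
      rw [List.append_assoc, List.singleton_append] at this
      rw [this, h, List.foldl_cons]
  refine (hfin.image (fun s => fun x => x.foldl step s)).subset ?_
  rintro _ ⟨u, rfl⟩
  refine ⟨_, ⟨u, rfl⟩, ?_⟩
  funext x
  simp [key]

lemma FS.finite_range {f : List A → S} (hf : FS f) : (Set.range f).Finite := by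
  refine (hf.image (fun F => F [])).subset ?_
  rintro _ ⟨u, rfl⟩
  exact ⟨_, ⟨u, rfl⟩, by simp⟩

lemma FS.of_rec {st : List A → S} {g : List A → T} (hg : FS g) (Φ : S → T → A → S)
    (h : ∀ u a, st (u ++ [a]) = Φ (st u) (g u) a) (hfin : (Set.range st).Finite) : FS st := by
  have h1 : FS (fun u => (st u, fun x => g (u ++ x))) := by
    refine FS.of_step (fun s a => (Φ s.1 (s.2 []) a, fun x => s.2 ([a] ++ x))) ?_ ?_
    · intro u a
      simp only [h, List.append_nil, Prod.mk.injEq, true_and]
      funext x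
      simp
    · refine (Set.Finite.prod hfin hg).subset ?_
      rintro _ ⟨u, rfl⟩
      exact ⟨⟨u, rfl⟩, ⟨u, rfl⟩⟩
  exact h1.comp Prod.fst

lemma FS.proj {f : List (A × B) → S} (hf : FS f) :
    FS (fun u : List A => {s | ∃ w : List B, w.length = u.length ∧ s = f (u.zip w)}) := by
  refine ((hf.finite_subsets).image (fun X : Set (List (A × B) → S) =>
    fun x : List A => {s | ∃ F ∈ X, ∃ y : List B, y.length = x.length ∧ s = F (x.zip y)})).subset ?_
  rintro _ ⟨u, rfl⟩
  refine ⟨{F | ∃ w : List B, w.length = u.length ∧ F = fun x => f (u.zip w ++ x)}, ?_, ?_⟩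
  · rintro F ⟨w, _, rfl⟩
    exact ⟨u.zip w, rfl⟩
  · funext x
    ext s
    simp only [mem_ofPred_eq]
    constructor
    · rintro ⟨F, ⟨w, hw, rfl⟩, y, hy, rfl⟩
      refine ⟨w ++ y, by simp [hw, hy], ?_⟩
      rw [List.zip_append hw.symm]
    · rintro ⟨w, hw, rfl⟩
      have hw' : w.length = u.length + x.length := by simpa using hw
      refine ⟨_, ⟨w.take u.length, by simp [hw'], rfl⟩, w.drop u.length, by simp [hw'], ?_⟩
      rw [← List.zip_append (by simp [hw']), List.take_append_drop]

lemma FS.exists_same {p : List (A × B) → Prop} (hp : FS p) :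
    FS (fun u : List A => ∃ w : List B, w.length = u.length ∧ p (u.zip w)) := by
  have h := hp.proj.comp (fun X : Set Prop => ∃ s ∈ X, s)
  refine Eq.mp ?_ h
  congr 1
  funext u
  apply propext
  constructor
  · rintro ⟨s, ⟨w, hw, rfl⟩, hs⟩
    exact ⟨w, hw, hs⟩
  · rintro ⟨w, hw, hs⟩
    exact ⟨_, ⟨w, hw, rfl⟩, hs⟩

lemma FS.congr {f g : List A → S} (hf : FS f) (h : ∀ u, g u = f u) : FS g := by
  have : g = f := funext h
  rwa [this]

lemma FS.congrP {f g : List A → Prop} (hf : FS f) (h : ∀ u, g u ↔ f u) : FS g :=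
  hf.congr fun u => propext (h u)

lemma FS.and {f g : List A → Prop} (hf : FS f) (hg : FS g) : FS (fun u => f u ∧ g u) :=
  (hf.prod hg).comp (fun p => p.1 ∧ p.2)

lemma FS.or {f g : List A → Prop} (hf : FS f) (hg : FS g) : FS (fun u => f u ∨ g u) :=
  (hf.prod hg).comp (fun p => p.1 ∨ p.2)

lemma FS.not {f : List A → Prop} (hf : FS f) : FS (fun u => ¬ f u) :=
  hf.comp (fun p => ¬ p)

lemma FS.length_mod (N : ℕ) (hN : 0 < N) : FS (fun u : List A => u.length % N) := by
  refine FS.of_step (fun s _ => (s + 1) % N) ?_ ?_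
  · intro u a
    simp
  · refine (Set.finite_lt_nat N).subset ?_
    rintro _ ⟨u, rfl⟩
    exact Nat.mod_lt _ hN

/-- Finite-state predicates give finite automata. -/
lemma FS.exists_dfa {A : Type} {p : List A → Prop} (hp : FS p) :
    ∃ (σ : Type) (_ : Finite σ) (M : DFA A σ), ∀ u, u ∈ M.accepts ↔ p u := by
  have h : Set.Finite (Set.range (Language.leftQuotient ({u | p u} : Language A))) := by
    refine Set.Finite.subset (Set.Finite.image (fun F : List A → Prop =>
      ({x | F x} : Language A)) hp) ?_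
    rintro _ ⟨u, rfl⟩
    exact ⟨_, ⟨u, rfl⟩, rfl⟩
  obtain ⟨σ, hσ, M, hM⟩ := Language.IsRegular.of_finite_range_leftQuotient h
  refine ⟨σ, inferInstance, M, fun u => ?_⟩
  rw [hM]
  exact Iff.rfl

end FSTheory

section Key

/-- Key of a word in the shortlex order. -/
def key {A : Type} (e : A → ℕ) (n : ℕ) (u : List A) : ℕ := u.foldl (fun m a => m * n + e a + 1) 0

variable {A : Type} {e : A → ℕ} {n : ℕ}

lemma key_nil : key e n [] = 0 := rfl

lemma key_snoc (u : List A) (a : A) : key e n (u ++ [a]) = key e n u * n + e a + 1 := by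
  simp [key]

lemma key_mono (he : ∀ a, e a < n) {u v : List A} (h : key e n u < key e n v) (a b : A) :
    key e n (u ++ [a]) < key e n (v ++ [b]) := by
  rw [key_snoc, key_snoc]
  have h1 : (key e n u + 1) * n ≤ key e n v * n := Nat.mul_le_mul_right n h
  have h2 := he a
  nlinarith

lemma key_same (he : ∀ a, e a < n) : ∀ (u v : List A), u.length = v.length →
    key e n u ≤ key e n v * n := by
  intro u
  induction u using List.reverseRecOn with
  | nil => intro v _; simp [key_nil]
  | append_singleton u a ih =>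
    intro v hv
    rcases List.eq_nil_or_concat' v with rfl | ⟨v, b, rfl⟩
    · simp at hv
    · have hlen : u.length = v.length := by simpa using hv
      have := ih v hlen
      rw [key_snoc, key_snoc]
      have h2 := he a
      nlinarith

lemma key_len (he : ∀ a, e a < n) : ∀ (v u : List A), u.length < v.length →
    key e n u < key e n v := by
  intro v
  induction v using List.reverseRecOn with
  | nil => intro u hu; simp at hu
  | append_singleton v b ih =>
    intro u hu
    have hn : 1 ≤ n := by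
      have := he b
      omega
    rw [key_snoc]
    have hu' : u.length ≤ v.length := by
      simp at hu
      omega
    rcases Nat.lt_or_eq_of_le hu' with h | h
    · have := ih u h
      nlinarith
    · have := key_same he u v h
      omega

lemma key_len' (he : ∀ a, e a < n) {u v : List A} (h : key e n u ≤ key e n v) :
    u.length ≤ v.length := by
  by_contra hc
  have := key_len he u v (by omega)
  omega

lemma key_inj (he : ∀ a, e a < n) (hinj : Function.Injective e) : ∀ (u v : List A),
    key e n u = key e n v → u = v := by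
  intro u
  induction u using List.reverseRecOn with
  | nil =>
    intro v h
    rcases List.eq_nil_or_concat' v with rfl | ⟨v, b, rfl⟩
    · rfl
    · rw [key_snoc, key_nil] at h
      omega
  | append_singleton u a ih =>
    intro v h
    rcases List.eq_nil_or_concat' v with rfl | ⟨v, b, rfl⟩
    · rw [key_snoc, key_nil] at h
      omega
    · rcases Nat.lt_trichotomy (key e n u) (key e n v) with h1 | h1 | h1
      · exact absurd h (key_mono he h1 a b).ne
      · rw [ih v h1]
        rw [key_snoc, key_snoc, h1] at h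
        have : e a = e b := by omega
        rw [hinj this]
      · exact absurd h (key_mono he h1 b a).ne'

lemma FS_cmp (he : ∀ a, e a < n) : FS (fun z : List (A × A) =>
    compare (key e n (z.map Prod.fst)) (key e n (z.map Prod.snd))) := by
  refine FS.of_step (fun s c => match s with
    | Ordering.lt => Ordering.lt
    | Ordering.gt => Ordering.gt
    | Ordering.eq => compare (e c.1) (e c.2)) ?_ (Set.toFinite _)
  intro z c
  rw [List.map_append, List.map_append, List.map_singleton, List.map_singleton]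
  rcases Nat.lt_trichotomy (key e n (z.map Prod.fst)) (key e n (z.map Prod.snd)) with h | h | h
  · have h2 := key_mono he h c.1 c.2
    rw [compare_lt_iff_lt.mpr h, compare_lt_iff_lt.mpr h2]
  · rw [compare_eq_iff_eq.mpr h, key_snoc, key_snoc, h]
    simp only
    rcases Nat.lt_trichotomy (e c.1) (e c.2) with h3 | h3 | h3
    · rw [compare_lt_iff_lt.mpr h3, compare_lt_iff_lt]
      omega
    · rw [compare_eq_iff_eq.mpr h3, compare_eq_iff_eq]
      omega
    · rw [compare_gt_iff_gt.mpr h3, compare_gt_iff_gt]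
      omega
  · have h2 := key_mono he h c.2 c.1
    rw [compare_gt_iff_gt.mpr h, compare_gt_iff_gt.mpr h2]

end Key

section Diff

variable {G : Type} [Group G] {C : Type}

open Classical in
/-- The difference of the two tapes, as long as it stays in `D`. -/
noncomputable def dd (α β : C → G) (D : Set G) (z : List C) : Option G :=
  if ∀ t, ((z.take t).map α).prod⁻¹ * ((z.take t).map β).prod ∈ D then
    some ((z.map α).prod⁻¹ * (z.map β).prod) else none

variable {α β : C → G} {D : Set G}

lemma dd_eq_some {z : List C} {h : G} : dd α β D z = some h ↔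
    (∀ t, ((z.take t).map α).prod⁻¹ * ((z.take t).map β).prod ∈ D) ∧
      (z.map α).prod⁻¹ * (z.map β).prod = h := by
  unfold dd
  split_ifs with hc
  · rw [Option.some_inj]
    exact ⟨fun h => ⟨hc, h⟩, fun h => h.2⟩
  · exact ⟨fun h => by simp at h, fun h => (hc h.1).elim⟩

lemma FS_dd (hD : D.Finite) : FS (dd α β D) := by
  classical
  refine FS.of_step (fun s c => match s with
    | none => none
    | some h => if (α c)⁻¹ * h * β c ∈ D then some ((α c)⁻¹ * h * β c) else none) ?_ ?_
  · intro z c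
    have hprod : (((z ++ [c]).map α).prod)⁻¹ * ((z ++ [c]).map β).prod =
        (α c)⁻¹ * ((z.map α).prod⁻¹ * (z.map β).prod) * β c := by
      simp [mul_assoc]
    by_cases hz : ∀ t, ((z.take t).map α).prod⁻¹ * ((z.take t).map β).prod ∈ D
    · have h1 : dd α β D z = some ((z.map α).prod⁻¹ * (z.map β).prod) :=
        dd_eq_some.mpr ⟨hz, rfl⟩
      rw [h1]
      simp only
      by_cases h2 : (α c)⁻¹ * ((z.map α).prod⁻¹ * (z.map β).prod) * β c ∈ D
      · rw [if_pos h2]
        apply dd_eq_some.mpr
        refine ⟨?_, hprod⟩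
        intro t
        rcases Nat.lt_or_ge t (z.length + 1) with ht | ht
        · rw [List.take_append_of_le_length (by omega)]
          exact hz t
        · rw [List.take_of_length_le (by simpa using ht), hprod]
          exact h2
      · rw [if_neg h2]
        unfold dd
        rw [if_neg]
        intro hall
        apply h2
        have := hall (z.length + 1)
        rwa [List.take_of_length_le (by simp), hprod] at this
    · have h1 : dd α β D z = none := by
        unfold dd
        rw [if_neg hz]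
      rw [h1]
      simp only
      unfold dd
      rw [if_neg]
      intro hall
      apply hz
      intro t
      rcases Nat.lt_or_ge t (z.length + 1) with ht | ht
      · have := hall t
        rwa [List.take_append_of_le_length (by omega)] at this
      · have := hall z.length
        rw [List.take_append_of_le_length (le_refl _), List.take_length] at this
        rwa [List.take_of_length_le (by omega)]
  · refine ((hD.image some).insert none).subset ?_
    rintro _ ⟨z, rfl⟩
    unfold dd
    split_ifs with hc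
    · right
      have := hc z.length
      rw [List.take_length] at this
      exact ⟨_, this, rfl⟩
    · left
      rfl

end Diff

section Conv

variable {B : Type}

/-- Convolution of two words. -/
def cv : List B → List B → List (Option B × Option B)
  | [], [] => []
  | a :: u, [] => (some a, none) :: cv u []
  | [], b :: v => (none, some b) :: cv [] v
  | a :: u, b :: v => (some a, some b) :: cv u v

lemma cv_length : ∀ (u v : List B), (cv u v).length = max u.length v.length
  | [], [] => by simp [cv]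
  | a :: u, [] => by simp [cv, cv_length u []]
  | [], b :: v => by simp [cv, cv_length [] v]
  | a :: u, b :: v => by simp [cv, cv_length u v, Nat.succ_max_succ]

lemma cv_getElem : ∀ (u v : List B) (i : ℕ), i < max u.length v.length →
    (cv u v)[i]? = some (u[i]?, v[i]?)
  | [], [], i, h => by simp at h
  | a :: u, [], 0, h => by simp [cv]
  | a :: u, [], i + 1, h => by
    have := cv_getElem u [] i (by simp at h ⊢; omega)
    simpa [cv] using this
  | [], b :: v, 0, h => by simp [cv]
  | [], b :: v, i + 1, h => by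
    have := cv_getElem [] v i (by simp at h ⊢; omega)
    simpa [cv] using this
  | a :: u, b :: v, 0, h => by simp [cv]
  | a :: u, b :: v, i + 1, h => by
    have := cv_getElem u v i (by simp at h ⊢; omega)
    simpa [cv] using this

lemma cv_eq_ofFn (u v : List B) :
    List.ofFn (fun i : Fin (max u.length v.length) => (u[(i : ℕ)]?, v[(i : ℕ)]?)) = cv u v := by
  apply List.ext_getElem?
  intro i
  by_cases h : i < max u.length v.length
  · rw [cv_getElem u v i h, List.getElem?_ofFn]
    simp [h]
  · rw [List.getElem?_eq_none (by rw [List.length_ofFn]; omega),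
      List.getElem?_eq_none (by rw [cv_length]; omega)]

lemma cv_fst : ∀ (u v : List B), (cv u v).filterMap Prod.fst = u
  | [], [] => by simp [cv]
  | a :: u, [] => by simp [cv, cv_fst u []]
  | [], b :: v => by simp [cv, cv_fst [] v]
  | a :: u, b :: v => by simp [cv, cv_fst u v]

lemma cv_snd : ∀ (u v : List B), (cv u v).filterMap Prod.snd = v
  | [], [] => by simp [cv]
  | a :: u, [] => by simp [cv, cv_snd u []]
  | [], b :: v => by simp [cv, cv_snd [] v]
  | a :: u, b :: v => by simp [cv, cv_snd u v]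

lemma cv_take : ∀ (u v : List B) (t : ℕ), (cv u v).take t = cv (u.take t) (v.take t)
  | [], [], t => by simp [cv]
  | _ :: _, [], 0 => by simp [cv]
  | a :: u, [], t + 1 => by simpa [cv] using cv_take u [] t
  | [], _ :: _, 0 => by simp [cv]
  | [], b :: v, t + 1 => by simpa [cv] using cv_take [] v t
  | _ :: _, _ :: _, 0 => by simp [cv]
  | a :: u, b :: v, t + 1 => by simpa [cv] using cv_take u v t

/-- Well-formed padded words. -/
def Okp (p : List (Option B × Option B)) : Prop :=
  p.Pairwise (fun c c' => (c.1 = none → c'.1 = none) ∧ (c.2 = none → c'.2 = none)) ∧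
    ∀ c ∈ p, c ≠ (none, none)

lemma cv_nil_left : ∀ (v : List B), cv [] v = v.map (fun b => (none, some b))
  | [] => by simp [cv]
  | b :: v => by simp [cv, cv_nil_left v]

lemma cv_nil_right : ∀ (u : List B), cv u [] = u.map (fun b => (some b, none))
  | [] => by simp [cv]
  | b :: v => by simp [cv, cv_nil_right v]

lemma okp_cv : ∀ (u v : List B), Okp (cv u v)
  | [], [] => by simp [cv, Okp]
  | a :: u, [] => by
    have h := okp_cv u []
    rw [cv]
    refine ⟨List.pairwise_cons.mpr ⟨?_, h.1⟩, ?_⟩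
    · intro c hc
      rw [cv_nil_right] at hc
      obtain ⟨b, _, rfl⟩ := List.mem_map.mp hc
      simp
    · intro c hc
      rcases List.mem_cons.mp hc with rfl | hc
      · simp
      · exact h.2 c hc
  | [], b :: v => by
    have h := okp_cv [] v
    rw [cv]
    refine ⟨List.pairwise_cons.mpr ⟨?_, h.1⟩, ?_⟩
    · intro c hc
      rw [cv_nil_left] at hc
      obtain ⟨b, _, rfl⟩ := List.mem_map.mp hc
      simp
    · intro c hc
      rcases List.mem_cons.mp hc with rfl | hc
      · simp
      · exact h.2 c hc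
  | a :: u, b :: v => by
    have h := okp_cv u v
    rw [cv]
    refine ⟨List.pairwise_cons.mpr ⟨?_, h.1⟩, ?_⟩
    · intro c _
      simp
    · intro c hc
      rcases List.mem_cons.mp hc with rfl | hc
      · simp
      · exact h.2 c hc

lemma eq_cv_of_okp : ∀ (p : List (Option B × Option B)), Okp p →
    p = cv (p.filterMap Prod.fst) (p.filterMap Prod.snd)
  | [], _ => by simp [cv]
  | (none, none) :: p, h => absurd rfl (h.2 (none, none) (by simp))
  | (some a, none) :: p, h => by
    have hp : Okp p := ⟨(List.pairwise_cons.mp h.1).2, fun c hc => h.2 c (List.mem_cons_of_mem _ hc)⟩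
    have h2 : p.filterMap Prod.snd = [] := by
      rw [List.filterMap_eq_nil_iff]
      intro c hc
      exact ((List.pairwise_cons.mp h.1).1 c hc).2 rfl
    have ih := eq_cv_of_okp p hp
    rw [h2] at ih
    simp only [List.filterMap_cons, h2]
    rw [cv, ← ih]
  | (none, some b) :: p, h => by
    have hp : Okp p := ⟨(List.pairwise_cons.mp h.1).2, fun c hc => h.2 c (List.mem_cons_of_mem _ hc)⟩
    have h2 : p.filterMap Prod.fst = [] := by
      rw [List.filterMap_eq_nil_iff]
      intro c hc
      exact ((List.pairwise_cons.mp h.1).1 c hc).1 rfl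
    have ih := eq_cv_of_okp p hp
    rw [h2] at ih
    simp only [List.filterMap_cons, h2]
    rw [cv, ← ih]
  | (some a, some b) :: p, h => by
    have hp : Okp p := ⟨(List.pairwise_cons.mp h.1).2, fun c hc => h.2 c (List.mem_cons_of_mem _ hc)⟩
    have ih := eq_cv_of_okp p hp
    simp only [List.filterMap_cons]
    rw [cv, ← ih]

lemma FS_okp : FS (Okp (B := B)) := by
  have h : FS (fun p : List (Option B × Option B) =>
      ((Okp p, ∃ c ∈ p, c.1 = none, ∃ c ∈ p, c.2 = none) : Prop × Prop × Prop)) := by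
    refine FS.of_step (fun s c => (s.1 ∧ c ≠ (none, none) ∧ (s.2.1 → c.1 = none) ∧
      (s.2.2 → c.2 = none), s.2.1 ∨ c.1 = none, s.2.2 ∨ c.2 = none)) ?_ (Set.toFinite _)
    intro p c
    simp only [Prod.mk.injEq]
    refine ⟨?_, ?_, ?_⟩
    · apply propext
      unfold Okp
      rw [List.pairwise_append]
      constructor
      · rintro ⟨⟨h1, _, h3⟩, h4⟩
        refine ⟨⟨h1, fun d hd => h4 d (by simp [hd])⟩, h4 c (by simp), ?_, ?_⟩
        · rintro ⟨d, hd, hd'⟩
          exact (h3 d hd c (by simp)).1 hd'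
        · rintro ⟨d, hd, hd'⟩
          exact (h3 d hd c (by simp)).2 hd'
      · rintro ⟨⟨h1, h2⟩, h3, h4, h5⟩
        refine ⟨⟨h1, by simp, ?_⟩, ?_⟩
        · intro d hd c' hc'
          rw [List.mem_singleton.mp hc']
          exact ⟨fun h => h4 ⟨d, hd, h⟩, fun h => h5 ⟨d, hd, h⟩⟩
        · intro d hd
          rcases List.mem_append.mp hd with hd | hd
          · exact h2 d hd
          · rw [List.mem_singleton.mp hd]
            exact h3
    · apply propext
      simp only [List.mem_append, List.mem_singleton]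
      constructor
      · rintro ⟨d, hd | rfl, hd'⟩
        · exact Or.inl ⟨d, hd, hd'⟩
        · exact Or.inr hd'
      · rintro (⟨d, hd, hd'⟩ | h)
        · exact ⟨d, Or.inl hd, hd'⟩
        · exact ⟨c, Or.inr rfl, h⟩
    · apply propext
      simp only [List.mem_append, List.mem_singleton]
      constructor
      · rintro ⟨d, hd | rfl, hd'⟩
        · exact Or.inl ⟨d, hd, hd'⟩
        · exact Or.inr hd'
      · rintro (⟨d, hd, hd'⟩ | h)
        · exact ⟨d, Or.inl hd, hd'⟩
        · exact ⟨c, Or.inr rfl, h⟩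
  exact h.comp Prod.fst

end Conv

section FT

variable {G : Type} [Group G]

/-- Value of a word. -/
def pr {A : Type} (f : A → G) (u : List A) : G := (u.map f).prod

lemma pr_nil {A : Type} (f : A → G) : pr f [] = 1 := rfl

lemma pr_append {A : Type} (f : A → G) (u v : List A) : pr f (u ++ v) = pr f u * pr f v := by
  simp [pr]

lemma pr_single {A : Type} (f : A → G) (a : A) : pr f [a] = f a := by
  simp [pr]

/-- From the fellow traveller property and regularity to automata for the multipliers. -/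
lemma exists_pair_dfa {B : Type} (f : B → G) (L : Set (List B)) (hL : FS (fun u => u ∈ L))
    (x : G) (D : Set G) (hD : D.Finite)
    (hft : ∀ u ∈ L, ∀ v ∈ L, pr f u * x = pr f v →
      ∀ t, (pr f (u.take t))⁻¹ * pr f (v.take t) ∈ D) :
    ∃ (σ : Type) (_ : Finite σ) (M : DFA (Option B × Option B) σ),
      ∀ p : List (Option B × Option B), p ∈ M.accepts ↔
        ∃ u ∈ L, ∃ v ∈ L, (u.map f).prod * x = (v.map f).prod ∧
          p = List.ofFn (fun i : Fin (max u.length v.length) => (u[(i : ℕ)]?, v[(i : ℕ)]?)) := by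
  set α : Option B × Option B → G := fun c => (c.1.map f).getD 1 with hα
  set β : Option B × Option B → G := fun c => (c.2.map f).getD 1 with hβ
  have hα' : ∀ p : List (Option B × Option B), (p.map α).prod = pr f (p.filterMap Prod.fst) := by
    intro p
    induction p with
    | nil => simp [pr]
    | cons c p ih =>
      rw [List.map_cons, List.prod_cons, ih]
      obtain ⟨c1, c2⟩ := c
      cases c1 with
      | none => simp [hα, pr]
      | some a => simp [hα, pr]
  have hβ' : ∀ p : List (Option B × Option B), (p.map β).prod = pr f (p.filterMap Prod.snd) := by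
    intro p
    induction p with
    | nil => simp [pr]
    | cons c p ih =>
      rw [List.map_cons, List.prod_cons, ih]
      obtain ⟨c1, c2⟩ := c
      cases c2 with
      | none => simp [hβ, pr]
      | some a => simp [hβ, pr]
  have hF : FS (fun p : List (Option B × Option B) => Okp p ∧ p.filterMap Prod.fst ∈ L ∧
      p.filterMap Prod.snd ∈ L ∧ dd α β D p = some x) := by
    refine FS.and FS_okp (FS.and (hL.pull _ ?_) (FS.and (hL.pull _ ?_) ?_))
    · intro u v
      simp
    · intro u v
      simp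
    · exact (FS_dd hD).comp (fun s => s = some x)
  obtain ⟨σ, hσ, M, hM⟩ := hF.exists_dfa
  refine ⟨σ, hσ, M, fun p => ?_⟩
  rw [hM]
  constructor
  · rintro ⟨h1, h2, h3, h4⟩
    refine ⟨_, h2, _, h3, ?_, ?_⟩
    · have := (dd_eq_some.mp h4).2
      rw [hα', hβ'] at this
      rw [← this]
      unfold pr
      group
    · rw [cv_eq_ofFn]
      exact eq_cv_of_okp p h1
  · rintro ⟨u, hu, v, hv, huv, rfl⟩
    rw [cv_eq_ofFn, cv_fst, cv_snd]
    refine ⟨okp_cv u v, hu, hv, dd_eq_some.mpr ⟨?_, ?_⟩⟩
    · intro t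
      rw [hα', hβ', cv_take, cv_fst, cv_snd]
      exact hft u hu v hv huv t
    · rw [hα', hβ', cv_fst, cv_snd]
      have huv' : pr f u * x = pr f v := huv
      rw [← huv']
      group

/-- The fellow traveller property from an automaton. -/
lemma ft_of_dfa {A : Type} (f : A → G) (L : Set (List A)) (x : G)
    (h : ∃ (σ : Type) (_ : Finite σ) (M : DFA (Option A × Option A) σ),
      ∀ p : List (Option A × Option A), p ∈ M.accepts ↔
        ∃ u ∈ L, ∃ v ∈ L, (u.map f).prod * x = (v.map f).prod ∧
          p = List.ofFn (fun i : Fin (max u.length v.length) => (u[(i : ℕ)]?, v[(i : ℕ)]?))) :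
    ∃ D : Set G, D.Finite ∧ ∀ u ∈ L, ∀ v ∈ L, pr f u * x = pr f v →
      ∀ t, (pr f (u.take t))⁻¹ * pr f (v.take t) ∈ D := by
  classical
  obtain ⟨σ, hσ, M, hM⟩ := h
  set c : σ → List (Option A × Option A) := fun s =>
    if hs : ∃ c, M.evalFrom s c ∈ M.accept then hs.choose else [] with hc
  refine ⟨Set.range (fun s : σ => pr f ((c s).filterMap Prod.fst) * x *
    (pr f ((c s).filterMap Prod.snd))⁻¹), Set.finite_range _, ?_⟩
  intro u hu v hv huv t
  have hp : cv u v ∈ M.accepts := by
    rw [hM]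
    exact ⟨u, hu, v, hv, huv, (cv_eq_ofFn u v).symm⟩
  set s := M.eval ((cv u v).take t) with hs
  have hex : ∃ c, M.evalFrom s c ∈ M.accept := by
    refine ⟨(cv u v).drop t, ?_⟩
    rw [hs, DFA.eval, ← DFA.evalFrom_of_append, List.take_append_drop]
    exact hp
  have hcs : M.evalFrom s (c s) ∈ M.accept := by
    rw [hc]
    simp only [dif_pos hex]
    exact hex.choose_spec
  have hacc : (cv u v).take t ++ c s ∈ M.accepts := by
    show M.eval _ ∈ M.accept
    rw [DFA.eval, DFA.evalFrom_of_append]
    exact hcs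
  rw [hM] at hacc
  obtain ⟨u', _, v', _, huv', heq⟩ := hacc
  rw [cv_eq_ofFn] at heq
  have hu' : u' = u.take t ++ (c s).filterMap Prod.fst := by
    have := congrArg (List.filterMap Prod.fst) heq
    rw [List.filterMap_append, cv_take, cv_fst, cv_fst] at this
    exact this.symm
  have hv' : v' = v.take t ++ (c s).filterMap Prod.snd := by
    have := congrArg (List.filterMap Prod.snd) heq
    rw [List.filterMap_append, cv_take, cv_snd, cv_snd] at this
    exact this.symm
  refine ⟨s, ?_⟩
  have h1 : pr f u' * x = pr f v' := huv'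
  rw [hu', hv', pr_append, pr_append] at h1
  simp only
  rw [eq_comm, inv_mul_eq_iff_eq_mul]
  calc pr f (v.take t) = (pr f (v.take t) * pr f ((c s).filterMap Prod.snd)) *
        (pr f ((c s).filterMap Prod.snd))⁻¹ := by group
    _ = _ := by rw [← h1]; group

end FT

end Part1

section Part2

/-- Automatic data with a language closed under initial segments, described by a state map `q`. -/
structure Data (G : Type) [Group G] where
  A : Type
  f : A → G
  Q : Type
  q : List A → Q
  live : Set Q
  e : A → ℕ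
  n : ℕ
  finA : Finite A
  finQ : Finite Q
  qcongr : ∀ u v a, q u = q v → q (u ++ [a]) = q (v ++ [a])
  qFS : FS q
  pre : ∀ u a, q (u ++ [a]) ∈ live → q u ∈ live
  surj : ∀ g, ∃ u, q u ∈ live ∧ pr f u = g
  ft : ∀ g : G, ∃ D : Set G, D.Finite ∧ ∀ u v, q u ∈ live → q v ∈ live → pr f u * g = pr f v →
    ∀ t, (pr f (u.take t))⁻¹ * pr f (v.take t) ∈ D
  he : ∀ a, e a < n
  hinj : Function.Injective e

variable {G : Type} [Group G]

lemma finite_take {A : Type} (u : List A) : {v | ∃ i, v = u.take i}.Finite := by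
  refine ((Set.finite_le_nat u.length).image (fun i => u.take i)).subset ?_
  rintro _ ⟨i, rfl⟩
  rcases Nat.lt_or_ge u.length i with h | h
  · refine ⟨u.length, le_refl u.length, ?_⟩
    show u.take u.length = u.take i
    rw [List.take_length, List.take_of_length_le h.le]
  · exact ⟨i, h, rfl⟩

/-- Fellow traveller property of a language for all differences. -/
lemma ft_all {A : Type} [Finite A] (f : A → G) (L : Set (List A))
    (hsurj : ∀ g : G, ∃ w ∈ L, pr f w = g)
    (h : ∀ x : G, (x = 1 ∨ ∃ a, x = f a) → ∃ D : Set G, D.Finite ∧ ∀ u ∈ L, ∀ v ∈ L,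
      pr f u * x = pr f v → ∀ t, (pr f (u.take t))⁻¹ * pr f (v.take t) ∈ D) (g : G) :
    ∃ D : Set G, D.Finite ∧ ∀ u ∈ L, ∀ v ∈ L,
      pr f u * g = pr f v → ∀ t, (pr f (u.take t))⁻¹ * pr f (v.take t) ∈ D := by
  obtain ⟨w, hw, rfl⟩ := hsurj g
  clear hw
  induction w using List.reverseRecOn with
  | nil =>
    rw [pr_nil]
    exact h 1 (Or.inl rfl)
  | append_singleton w a ih =>
    obtain ⟨D₁, hD₁, h₁⟩ := ih
    obtain ⟨D₂, hD₂, h₂⟩ := h (f a) (Or.inr ⟨a, rfl⟩)
    refine ⟨Set.image2 (fun x y => x * y) D₁ D₂, hD₁.image2 _ hD₂, ?_⟩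
    intro u hu v hv huv t
    obtain ⟨m, hm, hm'⟩ := hsurj (pr f u * pr f w)
    refine ⟨_, h₁ u hu m hm hm'.symm t, _, h₂ m hm v hv ?_ t, ?_⟩
    · rw [hm', ← huv, pr_append, pr_single, mul_assoc]
    · simp only
      group

/-- From an automatic structure to data closed under initial segments. -/
lemma exists_data {A : Type} [Finite A] (f : A → G) (L : Language A)
    (hreg : ∃ (σ : Type) (_ : Finite σ) (M : DFA A σ), M.accepts = L)
    (hsurj : ∀ g : G, ∃ w ∈ L, (w.map f).prod = g)
    (heq : ∃ (σ : Type) (_ : Finite σ) (M : DFA (Option A × Option A) σ),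
        ∀ p : List (Option A × Option A), p ∈ M.accepts ↔
          ∃ u ∈ L, ∃ v ∈ L, (u.map f).prod = (v.map f).prod ∧
            p = List.ofFn (fun i : Fin (max u.length v.length) => (u[(i : ℕ)]?, v[(i : ℕ)]?)))
    (hmul : ∀ a : A, ∃ (σ : Type) (_ : Finite σ) (M : DFA (Option A × Option A) σ),
        ∀ p : List (Option A × Option A), p ∈ M.accepts ↔
          ∃ u ∈ L, ∃ v ∈ L, (u.map f).prod * f a = (v.map f).prod ∧
            p = List.ofFn (fun i : Fin (max u.length v.length) => (u[(i : ℕ)]?, v[(i : ℕ)]?))) :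
    Nonempty (Data G) := by
  classical
  obtain ⟨Q, hQ, M, hM⟩ := hreg
  have hft : ∀ g : G, ∃ D : Set G, D.Finite ∧ ∀ u ∈ L, ∀ v ∈ L,
      pr f u * g = pr f v → ∀ t, (pr f (u.take t))⁻¹ * pr f (v.take t) ∈ D := by
    intro g
    refine ft_all f (L : Set (List A)) hsurj ?_ g
    rintro x (rfl | ⟨a, rfl⟩)
    · exact ft_of_dfa f (L : Set (List A)) 1 (by
        simp only [mul_one]
        exact heq)
    · exact ft_of_dfa f (L : Set (List A)) (f a) (hmul a)
  have hQstep : ∀ u a, M.eval (u ++ [a]) = M.step (M.eval u) a := fun u a => by simp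
  set c : Q → List A := fun s => if hs : ∃ c, M.evalFrom s c ∈ M.accept then hs.choose else []
    with hc
  have hcs : ∀ u, (∃ c, M.evalFrom (M.eval u) c ∈ M.accept) → u ++ c (M.eval u) ∈ L := by
    intro u hu
    rw [← hM]
    have h1 : c (M.eval u) = hu.choose := by
      rw [hc]
      simp only [dif_pos hu]
    have h2 : M.evalFrom (M.eval u) (c (M.eval u)) ∈ M.accept := by
      rw [h1]
      exact hu.choose_spec
    show M.eval (u ++ c (M.eval u)) ∈ M.accept
    have h3 : M.eval (u ++ c (M.eval u)) = M.evalFrom (M.eval u) (c (M.eval u)) :=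
      DFA.evalFrom_of_append M M.start u (c (M.eval u))
    rw [h3]
    exact h2
  obtain ⟨n, ⟨en⟩⟩ := Finite.exists_equiv_fin A
  refine ⟨{ A := A, f := f, Q := Q, q := M.eval, live := {s | ∃ c, M.evalFrom s c ∈ M.accept},
            e := fun a => (en a : ℕ), n := n, finA := inferInstance, finQ := hQ, qcongr := ?_,
            qFS := ?_, pre := ?_, surj := ?_, ft := ?_, he := fun a => (en a).2,
            hinj := ?_ }⟩
  · intro u v a h
    rw [hQstep, hQstep, h]
  · exact FS.of_step M.step hQstep (Set.toFinite _)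
  · rintro u a ⟨x, hx⟩
    refine ⟨a :: x, ?_⟩
    rw [hQstep] at hx
    exact hx
  · intro g
    obtain ⟨w, hw, hw'⟩ := hsurj g
    refine ⟨w, ⟨[], ?_⟩, hw'⟩
    rw [← hM] at hw
    exact hw
  · intro g
    choose D hD hDft using hft
    have hP : Set.Finite {x : G | ∃ s : Q, ∃ i, x = pr f ((c s).take i)} := by
      have h1 : Set.Finite (⋃ s : Q, (fun v => pr f v) '' {v | ∃ i, v = (c s).take i}) :=
        Set.finite_iUnion fun s => (finite_take (c s)).image _
      refine h1.subset ?_
      rintro _ ⟨s, i, rfl⟩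
      exact Set.mem_iUnion.mpr ⟨s, _, ⟨i, rfl⟩, rfl⟩
    set P := {x : G | ∃ s : Q, ∃ i, x = pr f ((c s).take i)} with hPdef
    have hDD : Set.Finite (⋃ p : Q × Q, D ((pr f (c p.1))⁻¹ * g * pr f (c p.2))) :=
      Set.finite_iUnion fun p => hD _
    set DD := ⋃ p : Q × Q, D ((pr f (c p.1))⁻¹ * g * pr f (c p.2)) with hDDdef
    refine ⟨Set.image2 (fun x y => x * y) (Set.image2 (fun x y => x * y) P DD)
      ((fun x => x⁻¹) '' P), (hP.image2 _ hDD).image2 _ (hP.image _), ?_⟩
    intro u v hu hv huv t
    have hu' := hcs u hu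
    have hv' := hcs v hv
    set s := M.eval u with hs
    set s' := M.eval v with hs'
    have h1 := hDft ((pr f (c s))⁻¹ * g * pr f (c s')) _ hu' _ hv' (by
      rw [pr_append, pr_append, ← huv]
      group) t
    have key : ∀ (w x : List A), pr f ((w ++ x).take t) =
        pr f (w.take t) * pr f (x.take (t - w.length)) := by
      intro w x
      rw [List.take_append, pr_append]
    rw [key, key] at h1
    refine ⟨_, ⟨pr f ((c s).take (t - u.length)), ⟨s, _, rfl⟩, _,
      Set.mem_iUnion.mpr ⟨(s, s'), h1⟩, rfl⟩, _, ⟨pr f ((c s').take (t - v.length)),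
      ⟨s', _, rfl⟩, rfl⟩, ?_⟩
    simp only
    group
  · intro a b hab
    exact en.injective (Fin.ext hab)

end Part2

section Part3

variable {G : Type} [Group G]

namespace Data

variable (d : Data G)

/-- Value of a word. -/
abbrev v (u : List d.A) : G := pr d.f u

/-- Key of a word. -/
abbrev k (u : List d.A) : ℕ := key d.e d.n u

lemma v_append (u w : List d.A) : d.v (u ++ w) = d.v u * d.v w := pr_append d.f u w

lemma v_nil : d.v [] = 1 := rfl

/-- The closed language. -/
def Lb : Set (List d.A) := {u | d.q u ∈ d.live}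

/-- Least words for pairs (element, state). -/
def M : Set (List d.A) :=
  {u | u ∈ d.Lb ∧ ∀ u' ∈ d.Lb, d.v u' = d.v u → d.q u' = d.q u → d.k u ≤ d.k u'}

/-- Least words for elements. -/
def R : Set (List d.A) := {u | u ∈ d.Lb ∧ ∀ u' ∈ d.Lb, d.v u' = d.v u → d.k u ≤ d.k u'}

lemma R_sub_M {u : List d.A} (h : u ∈ d.R) : u ∈ d.M := ⟨h.1, fun u' h1 h2 _ => h.2 u' h1 h2⟩

lemma M_snoc {u : List d.A} {a : d.A} (h : u ++ [a] ∈ d.M) : u ∈ d.M := by
  refine ⟨d.pre u a h.1, ?_⟩
  intro u' hu' hv hq
  by_contra hlt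
  have hq' := d.qcongr u' u a hq
  have h1 : u' ++ [a] ∈ d.Lb := by
    show d.q (u' ++ [a]) ∈ d.live
    rw [hq']
    exact h.1
  have h2 := h.2 (u' ++ [a]) h1 (by rw [v_append, v_append, hv]) hq'
  have h3 := key_mono (n := d.n) d.he (not_le.mp hlt) a a
  exact absurd h2 (not_le.mpr h3)

lemma M_append {u : List d.A} : ∀ (w : List d.A), u ++ w ∈ d.M → u ∈ d.M := by
  intro w
  induction w using List.reverseRecOn with
  | nil => intro h; simpa using h
  | append_singleton w a ih =>
    intro h
    apply ih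
    rw [← List.append_assoc] at h
    exact d.M_snoc h

lemma M_take {u : List d.A} (h : u ∈ d.M) (t : ℕ) : u.take t ∈ d.M := by
  apply d.M_append (u.drop t)
  rwa [List.take_append_drop]

lemma M_unique {u w : List d.A} (hu : u ∈ d.M) (hw : w ∈ d.M) (hv : d.v u = d.v w)
    (hq : d.q u = d.q w) : u = w := by
  have h1 := hu.2 w hw.1 hv.symm hq.symm
  have h2 := hw.2 u hu.1 hv hq
  exact key_inj d.he d.hinj u w (le_antisymm h1 h2)

lemma R_unique {u w : List d.A} (hu : u ∈ d.R) (hw : w ∈ d.R) (hv : d.v u = d.v w) : u = w := by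
  have h1 := hu.2 w hw.1 hv.symm
  have h2 := hw.2 u hu.1 hv
  exact key_inj d.he d.hinj u w (le_antisymm h1 h2)

lemma exists_R (g : G) : ∃ r ∈ d.R, d.v r = g := by
  obtain ⟨u, hu, hg⟩ := d.surj g
  obtain ⟨r, hr, hmin⟩ := WellFounded.has_min (measure d.k).wf {u | u ∈ d.Lb ∧ d.v u = g}
    ⟨u, hu, hg⟩
  refine ⟨r, ⟨hr.1, fun u' hu' hv => ?_⟩, hr.2⟩
  exact not_lt.mp (hmin u' ⟨hu', hv.trans hr.2⟩)

open Classical in
/-- A choice from a set of words. -/
noncomputable def pick {A : Type} (S : Set (List A)) : List A :=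
  if h : S.Nonempty then h.some else []

lemma pick_mem {A : Type} {S : Set (List A)} (h : S.Nonempty) : pick S ∈ S := by
  unfold pick
  rw [dif_pos h]
  exact h.some_mem

variable (N : ℕ)

/-- Skeleton nodes. -/
def V : Set (List d.A) := {u | u ∈ d.M ∧ N ∣ u.length ∧ ∃ x, x.length = N ∧ u ++ x ∈ d.M}

/-- Canonical block below a skeleton node. -/
noncomputable def X (u : List d.A) : List d.A := pick {x | x.length = N ∧ u ++ x ∈ d.M}

lemma X_spec {u : List d.A} (hu : u ∈ d.V N) : (d.X N u).length = N ∧ u ++ d.X N u ∈ d.M :=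
  pick_mem hu.2.2

lemma X_length_le (u : List d.A) : (d.X N u).length ≤ N := by
  unfold X pick
  split_ifs with h
  · exact h.some_mem.1.le
  · simp

/-- Slot of the node at a given time. -/
noncomputable def sl (u : List d.A) (j : ℕ) : G := d.v (u ++ (d.X N u).take j)

/-- Eligible slots. -/
def El (u : List d.A) (j : ℕ) : Prop :=
  ¬ ∃ u' ∈ d.Lb, u'.length < u.length ∧ d.v u' = d.sl N u j

/-- Claims. -/
def Claim (S : Set (ℕ × List d.A)) (j : ℕ) (u : List d.A) : Prop :=
  u ∈ d.V N ∧ d.El N u j ∧ (∀ i, (i, u) ∉ S) ∧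
    ∀ i w, (i, w) ∈ S → w.length = u.length → d.sl N w i ≠ d.sl N u j

/-- Slots assigned before the given time. -/
def Got : ℕ → Set (ℕ × List d.A)
  | 0 => ∅
  | j + 1 => Got j ∪ {p | p.1 = j ∧ d.Claim N (Got j) j p.2 ∧
      ∀ w, w.length = p.2.length → d.Claim N (Got j) j w → d.sl N w j = d.sl N p.2 j →
        d.k p.2 ≤ d.k w}

variable {N}

lemma Got_mono {i j : ℕ} (h : i ≤ j) : d.Got N i ⊆ d.Got N j := by
  induction h with
  | refl => exact subset_rfl
  | step _ ih => exact ih.trans subset_union_left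

lemma Got_spec : ∀ {j : ℕ} {i : ℕ} {u : List d.A}, (i, u) ∈ d.Got N j →
    i < j ∧ u ∈ d.V N ∧ d.El N u i := by
  intro j
  induction j with
  | zero => intro i u h; exact h.elim
  | succ j ih =>
    intro i u h
    rcases h with h | ⟨h1, h2, _⟩
    · obtain ⟨h1, h2, h3⟩ := ih h
      exact ⟨by omega, h2, h3⟩
    · have h1' : i = j := h1
      subst h1'
      exact ⟨by omega, h2.1, h2.2.1⟩

lemma Got_one : ∀ {j : ℕ} {i i' : ℕ} {u : List d.A}, (i, u) ∈ d.Got N j → (i', u) ∈ d.Got N j →
    i = i' := by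
  intro j
  induction j with
  | zero => intro i i' u h; exact h.elim
  | succ j ih =>
    intro i i' u h h'
    rcases h with h | ⟨h1, h2, _⟩
    · rcases h' with h' | ⟨h1', h2', _⟩
      · exact ih h h'
      · exact absurd h (h2'.2.2.1 i)
    · rcases h' with h' | ⟨h1', h2', _⟩
      · exact absurd h' (h2.2.2.1 i')
      · have e1 : i = j := h1
        have e2 : i' = j := h1'
        rw [e1, e2]

lemma Got_inj : ∀ {j : ℕ} {i i' : ℕ} {u w : List d.A}, (i, u) ∈ d.Got N j →
    (i', w) ∈ d.Got N j → u.length = w.length → d.sl N u i = d.sl N w i' → u = w := by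
  intro j
  induction j with
  | zero => intro i i' u w h; exact h.elim
  | succ j ih =>
    intro i i' u w h h' hlen hsl
    rcases h with h | ⟨h1, h2, h3⟩
    · rcases h' with h' | ⟨h1', h2', h3'⟩
      · exact ih h h' hlen hsl
      · have e2 : i' = j := h1'
        subst e2
        exact absurd hsl (h2'.2.2.2 i u h hlen)
    · have e1 : i = j := h1
      subst e1
      rcases h' with h' | ⟨h1', h2', h3'⟩
      · exact absurd hsl.symm (h2.2.2.2 i' w h' hlen.symm)
      · have e2 : i' = i := h1'
        subst e2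
        have a1 := h3 w hlen.symm h2' hsl.symm
        have a2 := h3' u hlen h2 hsl
        exact key_inj d.he d.hinj u w (le_antisymm a1 a2)

/-- If a node is not served, all its eligible slots are taken. -/
lemma taken {u : List d.A} (hu : u ∈ d.V N) (h : ∀ i, (i, u) ∉ d.Got N N) {j : ℕ} (hj : j < N)
    (hel : d.El N u j) : ∃ i w, (i, w) ∈ d.Got N N ∧ w.length = u.length ∧
      d.sl N w i = d.sl N u j := by
  by_cases hc : d.Claim N (d.Got N j) j u
  · obtain ⟨w, hw, hmin⟩ := WellFounded.has_min (measure d.k).wf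
      {w | w.length = u.length ∧ d.Claim N (d.Got N j) j w ∧ d.sl N w j = d.sl N u j}
      ⟨u, rfl, hc, rfl⟩
    refine ⟨j, w, d.Got_mono (show j + 1 ≤ N from hj) ?_, hw.1, hw.2.2⟩
    right
    refine ⟨rfl, hw.2.1, ?_⟩
    intro w' h1 h2 h3
    exact not_lt.mp (hmin w' ⟨h1.trans hw.1, h2, h3.trans hw.2.2⟩)
  · unfold Claim at hc
    push Not at hc
    obtain ⟨i, w, h1, h2, h3⟩ := hc hu hel (fun i hi => h i (d.Got_mono hj.le hi))
    exact ⟨i, w, d.Got_mono hj.le h1, h2, h3⟩

lemma Lb_of_M {u : List d.A} (h : u ∈ d.M) : u ∈ d.Lb := h.1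

lemma M_path {u : List d.A} (hu : u ∈ d.V N) (j : ℕ) : u ++ (d.X N u).take j ∈ d.M := by
  apply d.M_append ((d.X N u).drop j)
  rw [List.append_assoc, List.take_append_drop]
  exact (d.X_spec N hu).2

/-- Every skeleton node is served if the block length is large. -/
lemma served {D₁ : Set G} (hD₁ : D₁.Finite)
    (hft : ∀ u w, u ∈ d.Lb → w ∈ d.Lb → d.v u = d.v w →
      ∀ t, (d.v (u.take t))⁻¹ * d.v (w.take t) ∈ D₁)
    (hN : (D₁.ncard * Nat.card d.Q + D₁.ncard) * Nat.card d.Q < N)
    {u : List d.A} (hu : u ∈ d.V N) : ∃ i, (i, u) ∈ d.Got N N := by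
  have hQ : Finite d.Q := d.finQ
  by_contra hcon
  push Not at hcon
  set E : Set G := {g | ∃ j, j < N ∧ d.El N u j ∧ g = d.sl N u j} with hE
  set Riv : Set (List d.A) := {w | w ∈ d.M ∧ w.length = u.length ∧ (d.v u)⁻¹ * d.v w ∈ D₁}
    with hRiv
  have hRiv_fin : Riv.Finite ∧ Riv.ncard ≤ D₁.ncard * Nat.card d.Q := by
    have hfin : (D₁ ×ˢ (univ : Set d.Q)).Finite := hD₁.prod (Set.toFinite _)
    have hmaps : ∀ w ∈ Riv, ((d.v u)⁻¹ * d.v w, d.q w) ∈ D₁ ×ˢ (univ : Set d.Q) :=
      fun w hw => ⟨hw.2.2, mem_univ _⟩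
    have hinj : InjOn (fun w => ((d.v u)⁻¹ * d.v w, d.q w)) Riv := by
      intro w hw w' hw' h
      obtain ⟨h1, h2⟩ := Prod.mk.inj h
      exact d.M_unique hw.1 hw'.1 (mul_left_cancel h1) h2
    refine ⟨Set.Finite.of_injOn hmaps hinj hfin, ?_⟩
    have := Set.ncard_le_ncard_of_injOn _ hmaps hinj hfin
    rwa [Set.ncard_prod, Set.ncard_univ] at this
  have hEle : E.ncard ≤ D₁.ncard * Nat.card d.Q := by
    classical
    have hsub : E ⊆ (fun w => if h : ∃ i, (i, w) ∈ d.Got N N then d.sl N w h.choose else 1) ''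
        Riv := by
      rintro _ ⟨j, hj, hel, rfl⟩
      obtain ⟨i, w, h1, h2, h3⟩ := d.taken hu hcon hj hel
      obtain ⟨_, hwV, _⟩ := d.Got_spec h1
      refine ⟨w, ⟨hwV.1, h2, ?_⟩, ?_⟩
      · have h4 := hft _ _ (d.Lb_of_M (d.M_path hu j)) (d.Lb_of_M (d.M_path hwV i)) h3.symm
          u.length
        rw [List.take_append_of_le_length (le_refl _), List.take_length,
          List.take_append_of_le_length h2.symm.le, ← h2, List.take_length] at h4
        exact h4
      · have hex : ∃ i, (i, w) ∈ d.Got N N := ⟨i, h1⟩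
        simp only [dif_pos hex]
        rw [d.Got_one hex.choose_spec h1]
        exact h3
    exact (Set.ncard_le_ncard hsub (hRiv_fin.1.image _)).trans
      ((Set.ncard_image_le hRiv_fin.1).trans hRiv_fin.2)
  have hEfin : E.Finite := by
    refine ((Set.finite_lt_nat N).image (fun j => d.sl N u j)).subset ?_
    rintro _ ⟨j, hj, _, rfl⟩
    exact ⟨j, hj, rfl⟩
  set E' : Set G := E ∪ (fun x => d.v u * x⁻¹) '' D₁ with hE'
  have hE'fin : E'.Finite := hEfin.union (hD₁.image _)
  have hE'le : E'.ncard ≤ D₁.ncard * Nat.card d.Q + D₁.ncard :=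
    (Set.ncard_union_le _ _).trans (Nat.add_le_add hEle (Set.ncard_image_le hD₁))
  have hmaps : ∀ j ∈ {j | j < N}, (d.sl N u j, d.q (u ++ (d.X N u).take j)) ∈
      E' ×ˢ (univ : Set d.Q) := by
    intro j hj
    refine ⟨?_, mem_univ _⟩
    by_cases hel : d.El N u j
    · exact Or.inl ⟨j, hj, hel, rfl⟩
    · right
      unfold El at hel
      push Not at hel
      obtain ⟨u', hu', hlen, hval⟩ := hel
      have h4 := hft _ _ hu' (d.Lb_of_M (d.M_path hu j)) hval u.length
      rw [List.take_append_of_le_length (le_refl _), List.take_length,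
        List.take_of_length_le hlen.le] at h4
      refine ⟨_, h4, ?_⟩
      simp only
      rw [← hval]
      group
  have hinj : InjOn (fun j => (d.sl N u j, d.q (u ++ (d.X N u).take j))) {j | j < N} := by
    intro i hi j hj h
    obtain ⟨h1, h2⟩ := Prod.mk.inj h
    have h3 := d.M_unique (d.M_path hu i) (d.M_path hu j) h1 h2
    have h4 := congrArg List.length h3
    have hX := (d.X_spec N hu).1
    have hi' : i < N := hi
    have hj' : j < N := hj
    simp only [List.length_append, List.length_take, hX] at h4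
    omega
  have hfin2 : (E' ×ˢ (univ : Set d.Q)).Finite := hE'fin.prod (Set.toFinite _)
  have h5 := Set.ncard_le_ncard_of_injOn _ hmaps hinj hfin2
  rw [Set.ncard_prod, Set.ncard_univ] at h5
  have h6 : ({j | j < N} : Set ℕ).ncard = N := by
    have : ({j | j < N} : Set ℕ) = ((Finset.range N : Finset ℕ) : Set ℕ) := by
      ext j; simp
    rw [this, Set.ncard_coe_finset, Finset.card_range]
  rw [h6] at h5
  have h7 : E'.ncard * Nat.card d.Q ≤ (D₁.ncard * Nat.card d.Q + D₁.ncard) * Nat.card d.Q :=
    Nat.mul_le_mul_right _ hE'le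
  omega

variable (N)

/-- Time at which a node is served. -/
noncomputable def jj (u : List d.A) : ℕ := sInf {i | (i, u) ∈ d.Got N N}

/-- Displacement word. -/
noncomputable def ps (u : List d.A) : List d.A := (d.X N u).take (d.jj N u)

/-- Position of a skeleton node. -/
noncomputable def ph (u : List d.A) : G := d.v (u ++ d.ps N u)

lemma ps_length_le (u : List d.A) : (d.ps N u).length ≤ N := by
  unfold ps
  rw [List.length_take]
  exact (min_le_right _ _).trans (d.X_length_le N u)

variable {N}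

lemma jj_spec {u : List d.A} (h : ∃ i, (i, u) ∈ d.Got N N) : (d.jj N u, u) ∈ d.Got N N :=
  Nat.sInf_mem h

lemma ps_length_lt {u : List d.A} (h : ∃ i, (i, u) ∈ d.Got N N) : (d.ps N u).length < N := by
  have h1 := (d.Got_spec (d.jj_spec h)).1
  unfold ps
  rw [List.length_take]
  omega

lemma ph_inj (hs : ∀ u ∈ d.V N, ∃ i, (i, u) ∈ d.Got N N) {u w : List d.A} (hu : u ∈ d.V N)
    (hw : w ∈ d.V N) (h : d.ph N u = d.ph N w) : u = w := by
  have key : ∀ {u w : List d.A}, u ∈ d.V N → w ∈ d.V N → d.ph N u = d.ph N w →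
      ¬ u.length < w.length := by
    intro u w hu hw h hlt
    obtain ⟨k, hk⟩ := hu.2.1
    obtain ⟨l, hl⟩ := hw.2.1
    have hkl : k < l := by
      by_contra hc
      have := Nat.mul_le_mul_left N (not_lt.mp hc)
      omega
    have hle : u.length + N ≤ w.length := by
      have := Nat.mul_le_mul_left N (Nat.succ_le_of_lt hkl)
      rw [Nat.mul_succ] at this
      omega
    have hel := (d.Got_spec (d.jj_spec (hs w hw))).2.2
    apply hel
    refine ⟨u ++ d.ps N u, d.Lb_of_M (d.M_path hu _), ?_, h⟩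
    have := d.ps_length_lt (hs u hu)
    rw [List.length_append]
    omega
  have hlen : u.length = w.length := by
    have h1 := key hu hw h
    have h2 := key hw hu h.symm
    omega
  exact d.Got_inj (d.jj_spec (hs u hu)) (d.jj_spec (hs w hw)) hlen h

lemma root_served (hN : 0 < N) (h0 : ([] : List d.A) ∈ d.V N) : (0, ([] : List d.A)) ∈ d.Got N N := by
  apply d.Got_mono (show 1 ≤ N from hN)
  right
  refine ⟨rfl, ⟨h0, ?_, fun i hi => hi, fun i w hi => hi.elim⟩, ?_⟩
  · rintro ⟨u', _, hlt, _⟩
    simp at hlt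
  · intro w hw _ _
    have : w = [] := by simpa using hw
    rw [this]

lemma ps_nil (hN : 0 < N) (h0 : ([] : List d.A) ∈ d.V N) : d.ps N [] = [] := by
  have h1 := d.root_served hN h0
  have h2 := d.Got_one (d.jj_spec ⟨0, h1⟩) h1
  unfold ps
  rw [h2, List.take_zero]

end Data

end Part3

section Part4

variable {G : Type} [Group G]

namespace Data

variable (d : Data G) (N : ℕ) (D : Set G)

lemma zip_take {A B : Type*} : ∀ (u : List A) (w : List B) (t : ℕ),
    (u.zip w).take t = (u.take t).zip (w.take t)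
  | [], w, t => by simp
  | _ :: _, [], t => by simp
  | _ :: _, _ :: _, 0 => by simp
  | a :: u, b :: w, t + 1 => by simp [zip_take u w t]

/-- Differences on pairs of words. -/
noncomputable def ddp (z : List (d.A × d.A)) : Option G :=
  dd (fun c => d.f c.1) (fun c => d.f c.2) D z

variable {D} in
lemma ddp_zip {u w : List d.A} (h : w.length = u.length) {g : G} :
    d.ddp D (u.zip w) = some g ↔
      (∀ t, (d.v (u.take t))⁻¹ * d.v (w.take t) ∈ D) ∧ (d.v u)⁻¹ * d.v w = g := by
  have h1 : ∀ (u w : List d.A), w.length = u.length →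
      ((u.zip w).map (fun c => d.f c.1)).prod = d.v u := by
    intro u w h
    have : (u.zip w).map (fun c => d.f c.1) = ((u.zip w).map Prod.fst).map d.f := by
      rw [List.map_map]; rfl
    rw [this, List.map_fst_zip h.symm.le]
    rfl
  have h2 : ∀ (u w : List d.A), w.length = u.length →
      ((u.zip w).map (fun c => d.f c.2)).prod = d.v w := by
    intro u w h
    have : (u.zip w).map (fun c => d.f c.2) = ((u.zip w).map Prod.snd).map d.f := by
      rw [List.map_map]; rfl
    rw [this, List.map_snd_zip h.le]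
    rfl
  unfold ddp
  rw [dd_eq_some, h1 u w h, h2 u w h]
  refine and_congr_left fun _ => forall_congr' fun t => ?_
  have h3 : (w.take t).length = (u.take t).length := by
    rw [List.length_take, List.length_take, h]
  rw [zip_take, h1 _ _ h3, h2 _ _ h3]

/-- Neighbourhood data. -/
def Nb {S : Type*} (Ψ : List d.A → S) (u : List d.A) : Set (Option G × Ordering × S) :=
  {t | ∃ w, w.length = u.length ∧ t = (d.ddp D (u.zip w), compare (d.k u) (d.k w), Ψ w)}

lemma FS_Nb (hD : D.Finite) {S : Type*} {Ψ : List d.A → S} (hΨ : FS Ψ) : FS (d.Nb D Ψ) := by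
  have h1 : FS (fun z : List (d.A × d.A) => (d.ddp D z,
      compare (key d.e d.n (z.map Prod.fst)) (key d.e d.n (z.map Prod.snd)),
      Ψ (z.map Prod.snd))) :=
    FS.prod (FS_dd hD) (FS.prod (FS_cmp d.he) (hΨ.pull _ (fun u x => by simp)))
  refine h1.proj.congr fun u => ?_
  ext t
  constructor
  · rintro ⟨w, hw, rfl⟩
    refine ⟨w, hw, ?_⟩
    rw [List.map_fst_zip hw.symm.le, List.map_snd_zip hw.le]
  · rintro ⟨w, hw, rfl⟩
    refine ⟨w, hw, ?_⟩
    rw [List.map_fst_zip hw.symm.le, List.map_snd_zip hw.le]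

lemma FS_ex (hD : D.Finite) {S T Y : Type*} {Ξ : List d.A → T} {Ψ : List d.A → S}
    (hΞ : FS Ξ) (hΨ : FS Ψ) (Rel : Y → T → Option G → Ordering → S → Prop) :
    FS (fun u => fun y => ∃ w : List d.A, w.length = u.length ∧
      Rel y (Ξ u) (d.ddp D (u.zip w)) (compare (d.k u) (d.k w)) (Ψ w)) := by
  refine ((hΞ.prod (d.FS_Nb D hD hΨ)).comp
    (fun p : T × Set (Option G × Ordering × S) => fun y : Y =>
      ∃ t ∈ p.2, Rel y p.1 t.1 t.2.1 t.2.2)).congr fun u => ?_
  funext y
  apply propext
  constructor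
  · rintro ⟨w, hw, h⟩
    exact ⟨_, ⟨w, hw, rfl⟩, h⟩
  · rintro ⟨_, ⟨w, hw, rfl⟩, h⟩
    exact ⟨w, hw, h⟩

lemma FS_ex' (hD : D.Finite) {S T : Type*} {Ξ : List d.A → T} {Ψ : List d.A → S}
    (hΞ : FS Ξ) (hΨ : FS Ψ) (Rel : T → Option G → Ordering → S → Prop) :
    FS (fun u => ∃ w : List d.A, w.length = u.length ∧
      Rel (Ξ u) (d.ddp D (u.zip w)) (compare (d.k u) (d.k w)) (Ψ w)) :=
  (d.FS_ex D hD hΞ hΨ (fun _ : Unit => Rel)).comp (fun p => p ())

/-- Shorter words of the language near a word. -/
def Fin (u : List d.A) : Set (G × d.Q) :=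
  {p | ∃ u' ∈ d.Lb, u'.length < u.length ∧ (d.v u)⁻¹ * d.v u' = p.1 ∧ d.q u' = p.2 ∧
    ∀ t, (d.v (u.take t))⁻¹ * d.v (u'.take t) ∈ D}

lemma Fin_snoc (u : List d.A) (a : d.A) : d.Fin D (u ++ [a]) =
    {p | p.1 ∈ D ∧ ((d.f a * p.1, p.2) ∈ d.Fin D u ∨ (p.2 ∈ d.live ∧
      ∃ w : List d.A, w.length = u.length ∧ d.ddp D (u.zip w) = some (d.f a * p.1) ∧
        d.q w = p.2))} := by
  ext ⟨g, s⟩
  have hval : ∀ x : G, (d.v (u ++ [a]))⁻¹ * x = (d.f a)⁻¹ * ((d.v u)⁻¹ * x) := by
    intro x
    rw [v_append, mul_inv_rev, mul_assoc]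
    congr 1
    simp [v, pr]
  constructor
  · rintro ⟨u', hu', hlen, hg, hs, hall⟩
    simp only at hg hs
    rw [hval] at hg
    have hg' : (d.v u)⁻¹ * d.v u' = d.f a * g := by
      rw [← hg]; group
    have hlen' : u'.length ≤ u.length := by
      simp at hlen
      omega
    refine ⟨?_, ?_⟩
    · have := hall (u.length + 1)
      rw [List.take_of_length_le (by simp), List.take_of_length_le (by omega), hval, hg] at this
      exact this
    · have hall' : ∀ t, (d.v (u.take t))⁻¹ * d.v (u'.take t) ∈ D := by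
        intro t
        rcases Nat.lt_or_ge u.length t with ht | ht
        · have := hall u.length
          rw [List.take_append_of_le_length (le_refl _)] at this
          rw [List.take_of_length_le ht.le]
          rw [List.take_length] at this
          rw [List.take_of_length_le (hlen'.trans ht.le)]
          rwa [List.take_of_length_le hlen'] at this
        · have := hall t
          rwa [List.take_append_of_le_length ht] at this
      rcases Nat.lt_or_eq_of_le hlen' with h | h
      · left
        exact ⟨u', hu', h, hg', hs, hall'⟩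
      · right
        refine ⟨?_, u', h, ?_, hs⟩
        · show s ∈ d.live
          rw [← hs]; exact hu'
        · rw [d.ddp_zip h]
          exact ⟨hall', hg'⟩
  · rintro ⟨hgD, h⟩
    have main : ∀ u' ∈ d.Lb, u'.length ≤ u.length → (d.v u)⁻¹ * d.v u' = d.f a * g →
        d.q u' = s → (∀ t, (d.v (u.take t))⁻¹ * d.v (u'.take t) ∈ D) →
        (g, s) ∈ d.Fin D (u ++ [a]) := by
      intro u' hu' hlen hg hs hall
      have hg' : (d.v (u ++ [a]))⁻¹ * d.v u' = g := by
        rw [hval, hg]
        group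
      refine ⟨u', hu', by simp; omega, hg', hs, ?_⟩
      intro t
      rcases Nat.lt_or_ge u.length t with ht | ht
      · rw [List.take_of_length_le (by simp; omega), List.take_of_length_le (by omega), hg']
        exact hgD
      · rw [List.take_append_of_le_length ht]
        exact hall t
    rcases h with ⟨u', hu', hlen, hg, hs, hall⟩ | ⟨hs, w, hw, hdd, hqw⟩
    · exact main u' hu' hlen.le hg hs hall
    · obtain ⟨h1, h2⟩ := (d.ddp_zip hw).mp hdd
      refine main w ?_ hw.le h2 hqw h1
      show d.q w ∈ d.live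
      rw [hqw]; exact hs

lemma FS_Fin (hD : D.Finite) : FS (d.Fin D) := by
  have hQ : Finite d.Q := d.finQ
  refine FS.of_rec (d.FS_Nb D hD d.qFS) (fun X Y a => {p | p.1 ∈ D ∧ ((d.f a * p.1, p.2) ∈ X ∨
    (p.2 ∈ d.live ∧ ∃ t ∈ Y, t.1 = some (d.f a * p.1) ∧ t.2.2 = p.2))}) ?_ ?_
  · intro u a
    rw [d.Fin_snoc]
    ext p
    refine and_congr_right fun _ => or_congr_right (and_congr_right fun _ => ?_)
    constructor
    · rintro ⟨w, h1, h2, h3⟩
      exact ⟨_, ⟨w, h1, rfl⟩, h2, h3⟩
    · rintro ⟨_, ⟨w, h1, rfl⟩, h2, h3⟩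
      exact ⟨w, h1, h2, h3⟩
  · have hfin : (D ×ˢ (univ : Set d.Q)).Finite := hD.prod (Set.toFinite _)
    refine hfin.finite_subsets.subset ?_
    rintro _ ⟨u, rfl⟩
    rintro ⟨g, s⟩ ⟨u', hu', hlen, hg, hs, hall⟩
    refine ⟨?_, mem_univ _⟩
    have := hall u.length
    rw [List.take_length, List.take_of_length_le hlen.le, hg] at this
    exact this

/-- The closeness hypothesis. -/
def Close : Prop := ∀ u w, u ∈ d.Lb → w ∈ d.Lb → ∀ y z : List d.A, y.length ≤ 2 * N →
  z.length ≤ 2 * N → d.v (u ++ y) = d.v (w ++ z) →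
    ∀ t, (d.v (u.take t))⁻¹ * d.v (w.take t) ∈ D

variable {D} {N}

lemma Close.eq (hC : d.Close N D) {u w : List d.A} (hu : u ∈ d.Lb) (hw : w ∈ d.Lb)
    (h : d.v u = d.v w) : ∀ t, (d.v (u.take t))⁻¹ * d.v (w.take t) ∈ D :=
  hC u w hu hw [] [] (by simp) (by simp) (by simpa using h)

lemma mem_M_iff (hC : d.Close N D) (u : List d.A) : u ∈ d.M ↔
    d.q u ∈ d.live ∧ (1, d.q u) ∉ d.Fin D u ∧ ¬ ∃ w : List d.A, w.length = u.length ∧
      (d.ddp D (u.zip w) = some 1 ∧ d.q w = d.q u ∧ compare (d.k u) (d.k w) = Ordering.gt) := by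
  constructor
  · rintro ⟨h1, h2⟩
    refine ⟨h1, ?_, ?_⟩
    · rintro ⟨u', hu', hlen, hv, hq, _⟩
      have := h2 u' hu' (inv_mul_eq_one.mp hv).symm hq
      exact absurd (key_len (n := d.n) d.he u u' hlen) (not_lt.mpr this)
    · rintro ⟨w, hw, hdd, hq, hc⟩
      obtain ⟨_, h3⟩ := (d.ddp_zip hw).mp hdd
      have hwL : w ∈ d.Lb := by
        show d.q w ∈ d.live
        rw [hq]; exact h1
      have := h2 w hwL (inv_mul_eq_one.mp h3).symm hq
      exact absurd (compare_gt_iff_gt.mp hc) (not_lt.mpr this)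
  · rintro ⟨h1, h2, h3⟩
    refine ⟨h1, ?_⟩
    intro u' hu' hv hq
    by_contra hlt
    rw [not_le] at hlt
    have hlen := key_len' (n := d.n) d.he hlt.le
    have hcl := Close.eq d hC h1 hu' hv.symm
    rcases Nat.lt_or_eq_of_le hlen with h | h
    · exact h2 ⟨u', hu', h, inv_mul_eq_one.mpr hv.symm, hq, hcl⟩
    · exact h3 ⟨u', h, (d.ddp_zip h).mpr ⟨hcl, inv_mul_eq_one.mpr hv.symm⟩, hq,
        compare_gt_iff_gt.mpr hlt⟩

lemma mem_R_iff (hC : d.Close N D) (u : List d.A) : u ∈ d.R ↔
    d.q u ∈ d.live ∧ (¬ ∃ s, (1, s) ∈ d.Fin D u) ∧ ¬ ∃ w : List d.A, w.length = u.length ∧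
      (d.ddp D (u.zip w) = some 1 ∧ d.q w ∈ d.live ∧
        compare (d.k u) (d.k w) = Ordering.gt) := by
  constructor
  · rintro ⟨h1, h2⟩
    refine ⟨h1, ?_, ?_⟩
    · rintro ⟨s, u', hu', hlen, hv, hq, _⟩
      have := h2 u' hu' (inv_mul_eq_one.mp hv).symm
      exact absurd (key_len (n := d.n) d.he u u' hlen) (not_lt.mpr this)
    · rintro ⟨w, hw, hdd, hq, hc⟩
      obtain ⟨_, h3⟩ := (d.ddp_zip hw).mp hdd
      have := h2 w hq (inv_mul_eq_one.mp h3).symm
      exact absurd (compare_gt_iff_gt.mp hc) (not_lt.mpr this)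
  · rintro ⟨h1, h2, h3⟩
    refine ⟨h1, ?_⟩
    intro u' hu' hv
    by_contra hlt
    rw [not_le] at hlt
    have hlen := key_len' (n := d.n) d.he hlt.le
    have hcl := Close.eq d hC h1 hu' hv.symm
    rcases Nat.lt_or_eq_of_le hlen with h | h
    · exact h2 ⟨d.q u', u', hu', h, inv_mul_eq_one.mpr hv.symm, rfl, hcl⟩
    · exact h3 ⟨u', h, (d.ddp_zip h).mpr ⟨hcl, inv_mul_eq_one.mpr hv.symm⟩, hu',
        compare_gt_iff_gt.mpr hlt⟩

lemma FS_M (hD : D.Finite) (hC : d.Close N D) : FS (fun u => u ∈ d.M) := by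
  have h1 := d.FS_ex' D hD d.qFS d.qFS
    (fun s o c s' => o = some 1 ∧ s' = s ∧ c = Ordering.gt)
  refine FS.congrP ?_ (d.mem_M_iff hC)
  refine FS.and (d.qFS.comp (fun s => s ∈ d.live)) (FS.and ?_ h1.not)
  exact ((d.FS_Fin D hD).prod d.qFS).comp (fun p => (1, p.2) ∉ p.1)

lemma FS_R (hD : D.Finite) (hC : d.Close N D) : FS (fun u => u ∈ d.R) := by
  have h1 := d.FS_ex' D hD d.qFS d.qFS
    (fun _ o c s' => o = some 1 ∧ s' ∈ d.live ∧ c = Ordering.gt)
  refine FS.congrP ?_ (d.mem_R_iff hC)
  refine FS.and (d.qFS.comp (fun s => s ∈ d.live)) (FS.and ?_ h1.not)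
  exact ((d.FS_Fin D hD).comp (fun X => ∃ s, (1, s) ∈ X)).not

lemma FS_V (hN : 0 < N) (hD : D.Finite) (hC : d.Close N D) : FS (fun u => u ∈ d.V N) := by
  have hM := d.FS_M hD hC
  refine FS.congrP (FS.and hM (FS.and ((FS.length_mod N hN).comp (fun r => r = 0))
    (hM.res.comp (fun F => ∃ x : List d.A, x.length = N ∧ F x)))) ?_
  intro u
  refine and_congr_right fun _ => and_congr_left fun _ => ?_
  exact Nat.dvd_iff_mod_eq_zero

lemma FS_X (hD : D.Finite) (hC : d.Close N D) : FS (fun u => d.X N u) :=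
  (d.FS_M hD hC).res.comp (fun F => pick {x | x.length = N ∧ F x})

lemma El_iff (hC : d.Close N D) {u : List d.A} (hu : u ∈ d.Lb) (j : ℕ) :
    d.El N u j ↔ ∀ s, (d.v ((d.X N u).take j), s) ∉ d.Fin D u := by
  constructor
  · intro h s hs
    obtain ⟨u', hu', hlen, hv, _, _⟩ := hs
    apply h
    refine ⟨u', hu', hlen, ?_⟩
    unfold sl
    rw [v_append]
    exact inv_mul_eq_iff_eq_mul.mp hv
  · rintro h ⟨u', hu', hlen, hv⟩
    unfold sl at hv
    refine h (d.q u') ⟨u', hu', hlen, ?_, rfl, ?_⟩
    · rw [hv, v_append]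
      simp only
      group
    · refine hC u u' hu hu' ((d.X N u).take j) [] ?_ (by simp) (by rw [List.append_nil, hv])
      rw [List.length_take]
      have := d.X_length_le N u
      omega

/-- Elements of `Got` seen from a node. -/
def sg (N j : ℕ) (u : List d.A) : Set ℕ := {i | (i, u) ∈ d.Got N j}

lemma sl_eq_iff (hC : d.Close N D) {u w : List d.A} (hu : u ∈ d.Lb) (hw : w ∈ d.Lb)
    (h : w.length = u.length) (i j : ℕ) : d.sl N w i = d.sl N u j ↔
      ∃ g, d.ddp D (u.zip w) = some g ∧
        g * d.v ((d.X N w).take i) = d.v ((d.X N u).take j) := by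
  unfold sl
  constructor
  · intro heq
    refine ⟨(d.v u)⁻¹ * d.v w, (d.ddp_zip h).mpr ⟨?_, rfl⟩, ?_⟩
    · refine hC u w hu hw ((d.X N u).take j) ((d.X N w).take i) ?_ ?_ heq.symm
      · rw [List.length_take]
        have := d.X_length_le N u
        omega
      · rw [List.length_take]
        have := d.X_length_le N w
        omega
    · rw [v_append, v_append] at heq
      rw [mul_assoc, heq]
      group
  · rintro ⟨g, hg, hv⟩
    obtain ⟨_, h2⟩ := (d.ddp_zip h).mp hg
    rw [v_append, v_append, ← hv, ← h2]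
    group

lemma Claim_iff (hC : d.Close N D) (j : ℕ) (u : List d.A) :
    d.Claim N (d.Got N j) j u ↔ u ∈ d.V N ∧
      (∀ s, (d.v ((d.X N u).take j), s) ∉ d.Fin D u) ∧ d.sg N j u = ∅ ∧
      ¬ ∃ w : List d.A, w.length = u.length ∧ (∃ g, d.ddp D (u.zip w) = some g ∧
        ∃ i ∈ d.sg N j w, g * d.v ((d.X N w).take i) = d.v ((d.X N u).take j)) := by
  unfold Claim
  refine and_congr_right fun hu => ?_
  have huL := d.Lb_of_M hu.1
  rw [d.El_iff hC huL]
  refine and_congr_right fun _ => ?_
  refine and_congr ?_ ?_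
  · rw [Set.eq_empty_iff_forall_notMem]
    exact Iff.rfl
  · push Not
    constructor
    · intro h w hw g hg i hi heq
      refine h i w hi hw ?_
      rw [d.sl_eq_iff hC huL (d.Lb_of_M (d.Got_spec hi).2.1.1) hw]
      exact ⟨g, hg, heq⟩
    · intro h i w hi hw heq
      rw [d.sl_eq_iff hC huL (d.Lb_of_M (d.Got_spec hi).2.1.1) hw] at heq
      obtain ⟨g, hg, heq⟩ := heq
      exact h w hw g hg i hi heq

lemma FS_sg (hN : 0 < N) (hD : D.Finite) (hC : d.Close N D) : ∀ j, FS (d.sg N j) := by
  intro j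
  induction j with
  | zero =>
    refine (FS.const (∅ : Set ℕ)).congr fun u => ?_
    ext i
    exact Iff.rfl
  | succ j ih =>
    have hX := d.FS_X hD hC
    have hClaim : FS (fun u => d.Claim N (d.Got N j) j u) := by
      refine FS.congrP ?_ (d.Claim_iff hC j)
      refine FS.and (d.FS_V hN hD hC) (FS.and ?_ (FS.and (ih.comp (fun X => X = ∅)) ?_))
      · exact ((d.FS_Fin D hD).prod hX).comp
          (fun p => ∀ s, (d.v (p.2.take j), s) ∉ p.1)
      · exact (d.FS_ex' D hD hX (ih.prod hX) (fun x o _ p =>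
          ∃ g, o = some g ∧ ∃ i ∈ p.1, g * d.v (p.2.take i) = d.v (x.take j))).not
    have hGet : FS (fun u => d.Claim N (d.Got N j) j u ∧ ¬ ∃ w : List d.A,
        w.length = u.length ∧ (∃ g, d.ddp D (u.zip w) = some g ∧
          d.Claim N (d.Got N j) j w ∧ g * d.v ((d.X N w).take j) = d.v ((d.X N u).take j) ∧
          compare (d.k u) (d.k w) = Ordering.gt)) := by
      refine FS.and hClaim ?_
      exact (d.FS_ex' D hD hX (hClaim.prod hX) (fun x o c p =>
          ∃ g, o = some g ∧ p.1 ∧ g * d.v (p.2.take j) = d.v (x.take j) ∧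
            c = Ordering.gt)).not
    refine ((ih.prod hGet).comp (fun p => {i | i ∈ p.1 ∨ (i = j ∧ p.2)})).congr fun u => ?_
    ext i
    show (i, u) ∈ d.Got N (j + 1) ↔ _
    refine or_congr Iff.rfl ?_
    refine and_congr_right fun hij => ?_
    refine and_congr_right fun hcl => ?_
    have huL := d.Lb_of_M hcl.1.1
    push Not
    constructor
    · intro h w hw g hg hclw heq hc
      have h1 := h w hw hclw (by
        rw [d.sl_eq_iff hC huL (d.Lb_of_M hclw.1.1) hw]
        exact ⟨g, hg, heq⟩)
      exact absurd (compare_gt_iff_gt.mp hc) (not_lt.mpr h1)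
    · intro h w hw hclw heq
      rw [d.sl_eq_iff hC huL (d.Lb_of_M hclw.1.1) hw] at heq
      obtain ⟨g, hg, heq⟩ := heq
      by_contra hlt
      exact h w hw g hg hclw heq (compare_gt_iff_gt.mpr (not_le.mp hlt))

lemma FS_ps (hN : 0 < N) (hD : D.Finite) (hC : d.Close N D) : FS (fun u => d.ps N u) :=
  ((d.FS_X hD hC).prod (d.FS_sg hN hD hC N)).comp
    (fun p : List d.A × Set ℕ => p.1.take (sInf p.2))

variable (N D)

/-- Local version of: the element `u y` is the position of a skeleton node of the same length. -/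
def Bd (u : List d.A) (y : List d.A) : Prop :=
  ∃ w : List d.A, w.length = u.length ∧ ∃ g, d.ddp D (u.zip w) = some g ∧ w ∈ d.V N ∧
    g * d.v (d.ps N w) = d.v y

/-- Leaves below a skeleton node. -/
def Lf (u : List d.A) (y : List d.A) : Prop :=
  y.length < 2 * N ∧ u ++ y ∈ d.R ∧ (N ≤ y.length → u ++ y.take N ∉ d.V N) ∧ ¬ d.Bd N D u y ∧
    (N ≤ y.length → ¬ d.Bd N D (u ++ y.take N) (y.drop N))

variable {N D}

lemma FS_Bd (hN : 0 < N) (hD : D.Finite) (hC : d.Close N D) : FS (d.Bd N D) :=
  d.FS_ex D hD (FS.const ()) ((d.FS_V hN hD hC).prod (d.FS_ps hN hD hC))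
    (fun y _ o _ p => ∃ g, o = some g ∧ p.1 ∧ g * d.v p.2 = d.v y)

lemma FS_Lf (hN : 0 < N) (hD : D.Finite) (hC : d.Close N D) : FS (d.Lf N D) :=
  ((d.FS_R hD hC).res.prod ((d.FS_V hN hD hC).res.prod (d.FS_Bd hN hD hC).res)).comp
    (fun p => fun y => y.length < 2 * N ∧ p.1 y ∧ (N ≤ y.length → ¬ p.2.1 (y.take N)) ∧
      ¬ p.2.2 [] y ∧ (N ≤ y.length → ¬ p.2.2 (y.take N) (y.drop N))) |>.congr (by
      intro u
      funext y
      simp only [Lf, List.append_nil])

lemma Bd_iff (hC : d.Close N D) {u y : List d.A} (hu : u ∈ d.Lb) (hy : y.length ≤ 2 * N) :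
    d.Bd N D u y ↔ ∃ w ∈ d.V N, w.length = u.length ∧ d.ph N w = d.v (u ++ y) := by
  constructor
  · rintro ⟨w, hw, g, hg, hwV, heq⟩
    obtain ⟨_, h2⟩ := (d.ddp_zip hw).mp hg
    refine ⟨w, hwV, hw, ?_⟩
    unfold ph
    rw [v_append, v_append, ← heq, ← h2]
    group
  · rintro ⟨w, hwV, hw, heq⟩
    unfold ph at heq
    refine ⟨w, hw, (d.v u)⁻¹ * d.v w, (d.ddp_zip hw).mpr ⟨?_, rfl⟩, hwV, ?_⟩
    · refine hC u w hu (d.Lb_of_M hwV.1) y (d.ps N w) hy ?_ heq.symm
      have := d.ps_length_le N w
      omega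
    · rw [v_append, v_append] at heq
      rw [mul_assoc, heq]
      group

/-- The local test for positions is correct on least representatives. -/
lemma test_iff (hC : d.Close N D) (hs : ∀ u ∈ d.V N, ∃ i, (i, u) ∈ d.Got N N)
    {u y : List d.A} (hu : N ∣ u.length) (hy : y.length < 2 * N) (hR : u ++ y ∈ d.R) :
    (d.Bd N D u y ∨ (N ≤ y.length ∧ d.Bd N D (u ++ y.take N) (y.drop N))) ↔
      ∃ w ∈ d.V N, d.ph N w = d.v (u ++ y) := by
  have hM := d.R_sub_M hR
  have huL : u ∈ d.Lb := d.Lb_of_M (d.M_append y hM)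
  have huL' : u ++ y.take N ∈ d.Lb := by
    apply d.Lb_of_M (d.M_append (y.drop N) _)
    rwa [List.append_assoc, List.take_append_drop]
  constructor
  · rintro (h | ⟨_, h⟩)
    · obtain ⟨w, hw, _, h⟩ := (d.Bd_iff hC huL hy.le).mp h
      exact ⟨w, hw, h⟩
    · obtain ⟨w, hw, _, h⟩ := (d.Bd_iff hC huL' (by rw [List.length_drop]; omega)).mp h
      rw [List.append_assoc, List.take_append_drop] at h
      exact ⟨w, hw, h⟩
  · rintro ⟨w, hw, h⟩
    have h1 : w.length ≤ (u ++ y).length := by
      by_contra hlt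
      have hel := (d.Got_spec (d.jj_spec (hs w hw))).2.2
      exact hel ⟨u ++ y, hR.1, not_le.mp hlt, h.symm⟩
    have h2 : (u ++ y).length < w.length + N := by
      have h3 := key_len' (n := d.n) d.he (hR.2 (w ++ d.ps N w) (d.Lb_of_M (d.M_path hw _)) h)
      have h5 := d.ps_length_lt (hs w hw)
      have h6 : (w ++ d.ps N w).length = w.length + (d.ps N w).length := List.length_append
      omega
    rw [List.length_append] at h1 h2
    obtain ⟨k, hk⟩ := hu
    obtain ⟨l, hl⟩ := hw.2.1
    rw [hk] at h1 h2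
    rw [hl] at h1 h2
    have h4 : l = k ∨ l = k + 1 := by
      have a1 : k ≤ l := by
        by_contra hc
        have := Nat.mul_le_mul_left N (show l + 1 ≤ k by omega)
        rw [Nat.mul_succ] at this
        omega
      have a2 : l ≤ k + 1 := by
        by_contra hc
        have := Nat.mul_le_mul_left N (show k + 2 ≤ l by omega)
        rw [Nat.mul_add] at this
        omega
      omega
    rcases h4 with rfl | rfl
    · left
      rw [d.Bd_iff hC huL hy.le]
      exact ⟨w, hw, by omega, h⟩
    · right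
      rw [Nat.mul_succ] at h1 hl
      have hyN : N ≤ y.length := by omega
      refine ⟨hyN, ?_⟩
      rw [d.Bd_iff hC huL' (by rw [List.length_drop]; omega), List.append_assoc,
        List.take_append_drop]
      refine ⟨w, hw, ?_, h⟩
      rw [List.length_append, List.length_take]
      omega

end Data

end Part4

section Part5

section Tree

variable {A : Type}

/-- Letters of the new alphabet, without length bounds. -/
abbrev Lt (A : Type) := List A × List A × List A × Bool

/-- Local data at a word. -/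
abbrev Loc (A : Type) := Prop × List A × (List A → Prop)

/-- Valid words. -/
def Val (N : ℕ) : List (Lt A) → (List A → Loc A) → Prop
  | [], _ => True
  | b :: γ, Θ => b.1 = (Θ []).2.1 ∧
      ((b.2.2.2 = true ∧ b.2.1.length = N ∧ (Θ b.2.1).1 ∧ b.2.2.1 = (Θ b.2.1).2.1 ∧
        Val N γ (fun u => Θ (b.2.1 ++ u))) ∨
      (b.2.2.2 = false ∧ b.2.2.1 = [] ∧ (Θ []).2.2 b.2.1 ∧ γ = []))

lemma Val_pre (N : ℕ) : ∀ (β γ : List (Lt A)) (Θ : List A → Loc A),
    Val N (β ++ γ) Θ → Val N β Θ
  | [], _, _, _ => trivial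
  | b :: β, γ, Θ, h => by
    obtain ⟨h1, h | h⟩ := h
    · exact ⟨h1, Or.inl ⟨h.1, h.2.1, h.2.2.1, h.2.2.2.1, Val_pre N β γ _ h.2.2.2.2⟩⟩
    · exact ⟨h1, Or.inr ⟨h.1, h.2.1, h.2.2.1, (List.append_eq_nil_iff.mp h.2.2.2).1⟩⟩

lemma Val_res (N : ℕ) : ∀ (β : List (Lt A)) (Θ : List A → Loc A),
    (∀ γ, Val N (β ++ γ) Θ ↔ False) ∨ (∀ γ, Val N (β ++ γ) Θ ↔ γ = []) ∨
      ∃ u, ∀ γ, Val N (β ++ γ) Θ ↔ Val N γ (fun x => Θ (u ++ x))
  | [], Θ => Or.inr (Or.inr ⟨[], fun γ => Iff.rfl⟩)
  | b :: β, Θ => by
    by_cases h1 : b.1 = (Θ []).2.1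
    · cases hb : b.2.2.2 with
      | true =>
        by_cases h2 : b.2.1.length = N ∧ (Θ b.2.1).1 ∧ b.2.2.1 = (Θ b.2.1).2.1
        · have h3 : ∀ γ, Val N (b :: β ++ γ) Θ ↔ Val N (β ++ γ) (fun u => Θ (b.2.1 ++ u)) := by
            intro γ
            constructor
            · rintro ⟨_, h | h⟩
              · exact h.2.2.2.2
              · rw [hb] at h
                exact absurd h.1 (by simp)
            · intro h
              exact ⟨h1, Or.inl ⟨hb, h2.1, h2.2.1, h2.2.2, h⟩⟩
          rcases Val_res N β (fun u => Θ (b.2.1 ++ u)) with h | h | ⟨u, h⟩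
          · exact Or.inl fun γ => (h3 γ).trans (h γ)
          · exact Or.inr (Or.inl fun γ => (h3 γ).trans (h γ))
          · refine Or.inr (Or.inr ⟨b.2.1 ++ u, fun γ => (h3 γ).trans ((h γ).trans ?_)⟩)
            simp only [List.append_assoc]
        · left
          intro γ
          refine iff_of_false ?_ not_false
          rintro ⟨_, h | h⟩
          · exact h2 ⟨h.2.1, h.2.2.1, h.2.2.2.1⟩
          · rw [hb] at h
            exact absurd h.1 (by simp)
      | false =>
        by_cases h2 : b.2.2.1 = [] ∧ (Θ []).2.2 b.2.1 ∧ β = []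
        · right; left
          intro γ
          constructor
          · rintro ⟨_, h | h⟩
            · rw [hb] at h
              exact absurd h.1 (by simp)
            · exact (List.append_eq_nil_iff.mp h.2.2.2).2
          · rintro rfl
            exact ⟨h1, Or.inr ⟨hb, h2.1, h2.2.1, by simp [h2.2.2]⟩⟩
        · left
          intro γ
          refine iff_of_false ?_ not_false
          rintro ⟨_, h | h⟩
          · rw [hb] at h
            exact absurd h.1 (by simp)
          · exact h2 ⟨h.2.1, h.2.2.1, (List.append_eq_nil_iff.mp h.2.2.2).1⟩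
    · left
      intro γ
      exact iff_of_false (fun h => h1 h.1) not_false

lemma FS_Val (N : ℕ) {Θ : List A → Loc A} (hΘ : FS Θ) : FS (fun β => Val N β Θ) := by
  refine ((hΘ.image (fun F => fun γ => Val N γ F)).union
    (Set.toFinite {(fun _ => False), (fun γ => γ = [])})).subset ?_
  rintro _ ⟨β, rfl⟩
  rcases Val_res N β Θ with h | h | ⟨u, h⟩
  · right; left
    funext γ
    exact propext (h γ)
  · right; right
    rw [mem_singleton_iff]
    funext γ
    exact propext (h γ)
  · left
    refine ⟨_, ⟨u, rfl⟩, ?_⟩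
    funext γ
    exact propext (h γ).symm

/-- Concatenation of the blocks. -/
def nd (β : List (Lt A)) : List A := (β.map (fun b => b.2.1)).flatten

lemma nd_nil : nd ([] : List (Lt A)) = [] := rfl

lemma nd_cons (b : Lt A) (β : List (Lt A)) : nd (b :: β) = b.2.1 ++ nd β := rfl

/-- Words using only skeleton letters. -/
def Sk (β : List (Lt A)) : Prop := ∀ b ∈ β, b.2.2.2 = true

lemma Val_cons_sk {N : ℕ} {b : Lt A} {γ : List (Lt A)} {Θ : List A → Loc A}
    (hb : b.2.2.2 = true) : Val N (b :: γ) Θ ↔ b.1 = (Θ []).2.1 ∧ b.2.1.length = N ∧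
      (Θ b.2.1).1 ∧ b.2.2.1 = (Θ b.2.1).2.1 ∧ Val N γ (fun u => Θ (b.2.1 ++ u)) := by
  constructor
  · rintro ⟨h1, h | h⟩
    · exact ⟨h1, h.2⟩
    · rw [hb] at h
      exact absurd h.1 (by simp)
  · rintro ⟨h1, h⟩
    exact ⟨h1, Or.inl ⟨hb, h⟩⟩

lemma Val_append {N : ℕ} : ∀ {β γ : List (Lt A)} {Θ : List A → Loc A}, Sk β → Val N β Θ →
    (Val N (β ++ γ) Θ ↔ Val N γ (fun x => Θ (nd β ++ x)))
  | [], γ, Θ, _, _ => Iff.rfl
  | b :: β, γ, Θ, hs, h => by
    have hb : b.2.2.2 = true := hs b (by simp)
    rw [Val_cons_sk hb] at h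
    rw [List.cons_append, Val_cons_sk hb,
      Val_append (fun c hc => hs c (List.mem_cons_of_mem _ hc)) h.2.2.2.2]
    simp only [nd_cons, List.append_assoc]
    exact ⟨fun k => k.2.2.2.2, fun k => ⟨h.1, h.2.1, h.2.2.1, h.2.2.2.1, k⟩⟩

lemma nd_length {N : ℕ} : ∀ {β : List (Lt A)} {Θ : List A → Loc A}, Sk β → Val N β Θ →
    (nd β).length = β.length * N
  | [], Θ, _, _ => by simp [nd_nil]
  | b :: β, Θ, hs, h => by
    have hb : b.2.2.2 = true := hs b (by simp)
    rw [Val_cons_sk hb] at h
    rw [nd_cons, List.length_append, nd_length (fun c hc => hs c (List.mem_cons_of_mem _ hc))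
      h.2.2.2.2, h.2.1, List.length_cons]
    ring

lemma nd_take {N : ℕ} : ∀ {β : List (Lt A)} {Θ : List A → Loc A} (t : ℕ), Sk β → Val N β Θ →
    nd (β.take t) = (nd β).take (t * N)
  | [], Θ, t, _, _ => by simp [nd_nil]
  | b :: β, Θ, 0, hs, h => by simp [nd_nil]
  | b :: β, Θ, t + 1, hs, h => by
    have hb : b.2.2.2 = true := hs b (by simp)
    rw [Val_cons_sk hb] at h
    rw [List.take_succ_cons, nd_cons, nd_cons,
      nd_take t (fun c hc => hs c (List.mem_cons_of_mem _ hc)) h.2.2.2.2, List.take_append]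
    have h1 : (t + 1) * N - b.2.1.length = t * N := by
      rw [h.2.1, Nat.succ_mul]
      omega
    have h2 : b.2.1.take ((t + 1) * N) = b.2.1 :=
      List.take_of_length_le (by rw [h.2.1, Nat.succ_mul]; omega)
    rw [h1, h2]

lemma Sk_unique {N : ℕ} (hN : 0 < N) : ∀ {β β' : List (Lt A)} {Θ : List A → Loc A}, Sk β →
    Sk β' → Val N β Θ → Val N β' Θ → nd β = nd β' → β = β'
  | [], [], Θ, _, _, _, _, _ => rfl
  | [], b' :: β', Θ, hs, hs', h, h', he => by
    have h1 := nd_length hs' h'
    rw [← he, nd_nil, List.length_nil, List.length_cons] at h1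
    have : 0 < (β'.length + 1) * N := by positivity
    omega
  | b :: β, [], Θ, hs, hs', h, h', he => by
    have h1 := nd_length hs h
    rw [he, nd_nil, List.length_nil, List.length_cons] at h1
    have : 0 < (β.length + 1) * N := by positivity
    omega
  | b :: β, b' :: β', Θ, hs, hs', h, h', he => by
    have hb : b.2.2.2 = true := hs b (by simp)
    have hb' : b'.2.2.2 = true := hs' b' (by simp)
    rw [Val_cons_sk hb] at h
    rw [Val_cons_sk hb'] at h'
    rw [nd_cons, nd_cons] at he
    obtain ⟨e1, e2⟩ := List.append_inj he (h.2.1.trans h'.2.1.symm)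
    have e3 : b = b' := by
      refine Prod.ext (h.1.trans h'.1.symm) (Prod.ext e1 (Prod.ext ?_ (hb.trans hb'.symm)))
      rw [h.2.2.2.1, h'.2.2.2.1, e1]
    subst e3
    rw [Sk_unique hN (fun c hc => hs c (List.mem_cons_of_mem _ hc))
      (fun c hc => hs' c (List.mem_cons_of_mem _ hc)) h.2.2.2.2 h'.2.2.2.2 e2]

/-- Every valid word is a skeleton word, followed by at most one leaf letter. -/
lemma Val_cases {N : ℕ} : ∀ {β : List (Lt A)} {Θ : List A → Loc A}, Val N β Θ →
    Sk β ∨ ∃ β₁ z, Sk β₁ ∧ Val N β₁ Θ ∧ (Θ (nd β₁)).2.2 z ∧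
      β = β₁ ++ [((Θ (nd β₁)).2.1, z, [], false)]
  | [], Θ, _ => Or.inl (by simp [Sk])
  | b :: β, Θ, h => by
    obtain ⟨h1, h | h⟩ := h
    · rcases Val_cases h.2.2.2.2 with h2 | ⟨β₁, z, h2, h3, h4, h5⟩
      · left
        intro c hc
        rcases List.mem_cons.mp hc with rfl | hc
        · exact h.1
        · exact h2 c hc
      · right
        refine ⟨b :: β₁, z, ?_, ?_, ?_, ?_⟩
        · intro c hc
          rcases List.mem_cons.mp hc with rfl | hc
          · exact h.1
          · exact h2 c hc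
        · exact ⟨h1, Or.inl ⟨h.1, h.2.1, h.2.2.1, h.2.2.2.1, h3⟩⟩
        · rw [nd_cons]
          exact h4
        · rw [nd_cons, h5]
          rfl
    · right
      obtain ⟨b1, b2, b3, b4⟩ := b
      simp only at h h1
      refine ⟨[], b2, by simp [Sk], trivial, h.2.2.1, ?_⟩
      rw [h.2.2.2, h1, h.1, h.2.1]
      rfl

end Tree

variable {G : Type} [Group G]

/-- Value of a letter. -/
def lv {A : Type} (f : A → G) (b : Lt A) : G := (pr f b.1)⁻¹ * pr f b.2.1 * pr f b.2.2.1

namespace Data

variable (d : Data G) (N : ℕ) (D : Set G)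

/-- Local data of the structure. -/
noncomputable def Th (u : List d.A) : Loc d.A := (u ∈ d.V N, d.ps N u, d.Lf N D u)

variable {N D}

lemma FS_Th (hN : 0 < N) (hD : D.Finite) (hC : d.Close N D) : FS (d.Th N D) :=
  (d.FS_V hN hD hC).prod ((d.FS_ps hN hD hC).prod (d.FS_Lf hN hD hC))

lemma sk_value : ∀ {β : List (Lt d.A)} {u : List d.A}, Sk β →
    Val N β (fun x => d.Th N D (u ++ x)) → u ∈ d.V N →
      u ++ nd β ∈ d.V N ∧ d.ph N u * pr (lv d.f) β = d.ph N (u ++ nd β)
  | [], u, _, _, hu => by
    simp [nd_nil, pr_nil, hu]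
  | b :: β, u, hs, h, hu => by
    have hb : b.2.2.2 = true := hs b (by simp)
    rw [Val_cons_sk hb] at h
    obtain ⟨h1, h2, h3, h4, h5⟩ := h
    have h3' : u ++ b.2.1 ∈ d.V N := h3
    have h5' : Val N β (fun x => d.Th N D ((u ++ b.2.1) ++ x)) := by
      simpa only [List.append_assoc] using h5
    obtain ⟨h6, h7⟩ := sk_value (fun c hc => hs c (List.mem_cons_of_mem _ hc)) h5' h3'
    rw [nd_cons, ← List.append_assoc]
    refine ⟨h6, ?_⟩
    rw [← h7]
    have h8 : pr (lv d.f) (b :: β) = lv d.f b * pr (lv d.f) β := by simp [pr]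
    rw [h8, ← mul_assoc]
    congr 1
    have h1' : b.1 = d.ps N u := by
      rw [h1]
      show d.ps N (u ++ []) = _
      rw [List.append_nil]
    have h4' : b.2.2.1 = d.ps N (u ++ b.2.1) := h4
    unfold lv ph
    rw [h1', h4', v_append, v_append, v_append]
    group

lemma V_take {w : List d.A} (hw : w ∈ d.V N) (i : ℕ) : w.take (i * N) ∈ d.V N := by
  have hw' := hw
  obtain ⟨h1, ⟨k, hk⟩, x, hx, hwx⟩ := hw
  rcases Nat.lt_or_ge (i * N) w.length with h | h
  · have hik : i < k := by
      by_contra hc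
      have := Nat.mul_le_mul_left N (not_lt.mp hc)
      rw [mul_comm N i] at this
      omega
    have hle : i * N + N ≤ w.length := by
      have := Nat.mul_le_mul_left N (Nat.succ_le_of_lt hik)
      rw [Nat.mul_succ, mul_comm N i] at this
      omega
    refine ⟨d.M_take h1 _, ⟨i, ?_⟩, (w.drop (i * N)).take N, ?_, ?_⟩
    · rw [List.length_take, mul_comm N i]
      omega
    · rw [List.length_take, List.length_drop]
      omega
    · rw [← List.take_add]
      exact d.M_take h1 _
  · rw [List.take_of_length_le h]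
    exact hw'

lemma exists_sk : ∀ (k : ℕ) (u x : List d.A), x.length = k * N → u ++ x ∈ d.V N →
    u ∈ d.V N → ∃ β : List (Lt d.A), Sk β ∧ Val N β (fun z => d.Th N D (u ++ z)) ∧
      nd β = x := by
  intro k
  induction k with
  | zero =>
    intro u x hx _ _
    have hx' : x = [] := by simpa using hx
    exact ⟨[], by simp [Sk], trivial, hx'.symm⟩
  | succ k ih =>
    intro u x hx hux hu
    rw [Nat.succ_mul] at hx
    have h1 : u ++ x.take N ∈ d.V N := by
      obtain ⟨l, hl⟩ := hu.2.1
      have h2 : (l + 1) * N = u.length + N := by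
        rw [hl]; ring
      have h3 := d.V_take hux (l + 1)
      rw [h2, List.take_append, List.take_of_length_le (by omega)] at h3
      have h4 : u.length + N - u.length = N := by omega
      rwa [h4] at h3
    obtain ⟨β, hs, hv, hn⟩ := ih (u ++ x.take N) (x.drop N) (by rw [List.length_drop]; omega)
      (by rw [List.append_assoc, List.take_append_drop]; exact hux) h1
    refine ⟨(d.ps N u, x.take N, d.ps N (u ++ x.take N), true) :: β, ?_, ?_, ?_⟩
    · intro c hc
      rcases List.mem_cons.mp hc with rfl | hc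
      · rfl
      · exact hs c hc
    · rw [Val_cons_sk rfl]
      refine ⟨?_, ?_, h1, rfl, ?_⟩
      · show d.ps N u = d.ps N (u ++ [])
        rw [List.append_nil]
      · show (x.take N).length = N
        rw [List.length_take]
        omega
      · simpa only [List.append_assoc] using hv
    · rw [nd_cons, hn]
      exact List.take_append_drop _ _

lemma sk_zero (hN : 0 < N) (h0 : ([] : List d.A) ∈ d.V N) {β : List (Lt d.A)} (hs : Sk β)
    (h : Val N β (d.Th N D)) : nd β ∈ d.V N ∧ pr (lv d.f) β = d.ph N (nd β) := by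
  obtain ⟨h1, h2⟩ := d.sk_value (N := N) (D := D) (u := []) hs h h0
  refine ⟨h1, ?_⟩
  have h3 : d.ph N [] = 1 := by
    unfold ph
    rw [d.ps_nil hN h0]
    rfl
  rw [h3, one_mul] at h2
  exact h2

lemma leaf_value (hN : 0 < N) (h0 : ([] : List d.A) ∈ d.V N) {β : List (Lt d.A)} (hs : Sk β)
    (h : Val N β (d.Th N D)) (z : List d.A) :
    pr (lv d.f) (β ++ [(d.ps N (nd β), z, [], false)]) = d.v (nd β ++ z) := by
  rw [pr_append, (d.sk_zero hN h0 hs h).2, pr_single]
  unfold lv ph
  rw [v_append, v_append]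
  simp only [pr_nil, mul_one]
  group

lemma Val_unique (hN : 0 < N) (hC : d.Close N D) (hserv : ∀ u ∈ d.V N, ∃ i, (i, u) ∈ d.Got N N)
    (h0 : ([] : List d.A) ∈ d.V N) {β β' : List (Lt d.A)} (h : Val N β (d.Th N D))
    (h' : Val N β' (d.Th N D)) (hv : pr (lv d.f) β = pr (lv d.f) β') : β = β' := by
  have mixed : ∀ {β : List (Lt d.A)} {β₁ : List (Lt d.A)} {z : List d.A}, Sk β →
      Val N β (d.Th N D) → Sk β₁ → Val N β₁ (d.Th N D) → d.Lf N D (nd β₁) z →
      pr (lv d.f) β ≠ pr (lv d.f) (β₁ ++ [(d.ps N (nd β₁), z, [], false)]) := by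
    intro β β₁ z hs hβ hs₁ hβ₁ hz heq
    rw [d.leaf_value hN h0 hs₁ hβ₁] at heq
    obtain ⟨h1, h2⟩ := d.sk_zero hN h0 hs hβ
    obtain ⟨h3, _⟩ := d.sk_zero hN h0 hs₁ hβ₁
    obtain ⟨a1, a2, a3, a4, a5⟩ := hz
    have h4 := (d.test_iff hC hserv h3.2.1 a1 a2).mpr ⟨nd β, h1, by rw [← h2, heq]⟩
    rcases h4 with h4 | ⟨h4, h5⟩
    · exact a4 h4
    · exact a5 h4 h5
  have split : ∀ {w w' z z' : List d.A}, w ∈ d.V N → w' ∈ d.V N → z.length < 2 * N →
      (N ≤ z.length → w ++ z.take N ∉ d.V N) → w ++ z = w' ++ z' → ¬ w.length < w'.length := by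
    intro w w' z z' hw hw' hz hz' heq hlt
    obtain ⟨k, hk⟩ := hw.2.1
    obtain ⟨l, hl⟩ := hw'.2.1
    have hlen := congrArg List.length heq
    rw [List.length_append, List.length_append] at hlen
    have hkl : k + 1 ≤ l := by
      by_contra hc
      have := Nat.mul_le_mul_left N (show l ≤ k by omega)
      omega
    have hle : w.length + N ≤ w'.length := by
      have := Nat.mul_le_mul_left N hkl
      rw [Nat.mul_succ] at this
      omega
    have hlk : l < k + 2 := by
      by_contra hc
      have := Nat.mul_le_mul_left N (not_lt.mp hc)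
      rw [Nat.mul_add] at this
      omega
    have hl' : l = k + 1 := by omega
    have hle' : w'.length = w.length + N := by
      rw [hl, hk, hl', Nat.mul_succ]
    apply hz' (by omega)
    have h1 := congrArg (List.take w'.length) heq
    rw [List.take_append_of_le_length (l₁ := w') (le_refl _), List.take_length, hle',
      List.take_append, List.take_of_length_le (by omega)] at h1
    have h4 : w.length + N - w.length = N := by omega
    rw [h4] at h1
    rw [h1]
    exact hw'
  rcases Val_cases h with hs | ⟨β₁, z, hs₁, hβ₁, hz, rfl⟩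
  · rcases Val_cases h' with hs' | ⟨β₁', z', hs₁', hβ₁', hz', rfl⟩
    · obtain ⟨h1, h2⟩ := d.sk_zero hN h0 hs h
      obtain ⟨h3, h4⟩ := d.sk_zero hN h0 hs' h'
      exact Sk_unique hN hs hs' h h' (d.ph_inj hserv h1 h3 (by rw [← h2, ← h4, hv]))
    · exact absurd hv (mixed hs h hs₁' hβ₁' hz')
  · rcases Val_cases h' with hs' | ⟨β₁', z', hs₁', hβ₁', hz', rfl⟩
    · exact absurd hv.symm (mixed hs' h' hs₁ hβ₁ hz)
    · have hv' : d.v (nd β₁ ++ z) = d.v (nd β₁' ++ z') := by
        rw [← d.leaf_value hN h0 hs₁ hβ₁, ← d.leaf_value hN h0 hs₁' hβ₁']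
        exact hv
      obtain ⟨h1, _⟩ := d.sk_zero hN h0 hs₁ hβ₁
      obtain ⟨h3, _⟩ := d.sk_zero hN h0 hs₁' hβ₁'
      obtain ⟨a1, a2, a3, _, _⟩ := hz
      obtain ⟨b1, b2, b3, _, _⟩ := hz'
      have he := d.R_unique a2 b2 hv'
      have l1 := split h1 h3 a1 a3 he
      have l2 := split h3 h1 b1 b3 he.symm
      obtain ⟨e1, e2⟩ := List.append_inj he (by omega)
      have e3 := Sk_unique hN hs₁ hs₁' hβ₁ hβ₁' e1
      rw [e3, e2]

lemma Val_surj (hN : 0 < N) (hC : d.Close N D) (hserv : ∀ u ∈ d.V N, ∃ i, (i, u) ∈ d.Got N N)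
    (h0 : ([] : List d.A) ∈ d.V N) (g : G) :
    ∃ β : List (Lt d.A), Val N β (d.Th N D) ∧ pr (lv d.f) β = g := by
  obtain ⟨r, hr, rfl⟩ := d.exists_R g
  by_cases hw : ∃ w ∈ d.V N, d.ph N w = d.v r
  · obtain ⟨w, hw, hv⟩ := hw
    obtain ⟨k, hk⟩ := hw.2.1
    obtain ⟨β, hs, h, hn⟩ := d.exists_sk (N := N) (D := D) k [] w (by rw [hk, mul_comm]) hw h0
    refine ⟨β, h, ?_⟩
    rw [(d.sk_zero hN h0 hs h).2, hn, hv]
  · have main : ∀ u z : List d.A, u ∈ d.V N → u ++ z = r → z.length < 2 * N →
        (N ≤ z.length → u ++ z.take N ∉ d.V N) →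
        ∃ β : List (Lt d.A), Val N β (d.Th N D) ∧ pr (lv d.f) β = d.v r := by
      intro u z hu huz hz hz'
      obtain ⟨k, hk⟩ := hu.2.1
      obtain ⟨β, hs, h, hn⟩ := d.exists_sk (N := N) (D := D) k [] u (by rw [hk, mul_comm]) hu h0
      have h' : Val N β (d.Th N D) := h
      refine ⟨β ++ [(d.ps N (nd β), z, [], false)], ?_, ?_⟩
      · have hLf : d.Lf N D u z := by
          have hR : u ++ z ∈ d.R := by rw [huz]; exact hr
          have ht := d.test_iff hC hserv hu.2.1 hz hR
          rw [huz] at ht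
          refine ⟨hz, hR, hz', fun hb => hw (ht.mp (Or.inl hb)), fun hl hb =>
            hw (ht.mp (Or.inr ⟨hl, hb⟩))⟩
        rw [Val_append hs h']
        refine ⟨?_, Or.inr ⟨rfl, rfl, ?_, rfl⟩⟩
        · show d.ps N (nd β) = d.ps N (nd β ++ [])
          rw [List.append_nil]
        · show d.Lf N D (nd β ++ []) z
          rw [List.append_nil, hn]
          exact hLf
      · rw [d.leaf_value hN h0 hs h, hn, huz]
    obtain ⟨k, hk1, hk2⟩ : ∃ k, N * k ≤ r.length ∧ r.length < N * k + N := by
      refine ⟨r.length / N, Nat.mul_div_le _ _, ?_⟩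
      have := Nat.lt_mul_div_succ r.length hN
      rw [Nat.mul_add, mul_one] at this
      exact this
    have hM := d.R_sub_M hr
    by_cases hV : r.take (N * k) ∈ d.V N
    · refine main (r.take (N * k)) (r.drop (N * k)) hV (List.take_append_drop _ _) ?_ ?_
      · rw [List.length_drop]; omega
      · intro h
        rw [List.length_drop] at h
        omega
    · have hk0 : 1 ≤ k := by
        by_contra hc
        have hk0 : k = 0 := by omega
        rw [hk0, Nat.mul_zero, List.take_zero] at hV
        exact hV h0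
      obtain ⟨m, hm⟩ : ∃ m, k = m + 1 := ⟨k - 1, by omega⟩
      rw [hm, Nat.mul_succ] at hk1 hk2 hV
      have htake : r.take (N * m) ++ (r.drop (N * m)).take N = r.take (N * m + N) :=
        List.take_add.symm
      refine main (r.take (N * m)) (r.drop (N * m)) ?_ (List.take_append_drop _ _) ?_ ?_
      · refine ⟨d.M_take hM _, ⟨m, by rw [List.length_take]; omega⟩, (r.drop (N * m)).take N, ?_,
          ?_⟩
        · rw [List.length_take, List.length_drop]; omega
        · rw [htake]
          exact d.M_take hM _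
      · rw [List.length_drop]; omega
      · intro _
        rw [htake]
        exact hV

/-- A single word of the closed language shadows a valid word. -/
lemma shadow (hN : 0 < N) (h0 : ([] : List d.A) ∈ d.V N) {β : List (Lt d.A)}
    (h : Val N β (d.Th N D)) : ∃ W ∈ d.Lb, d.v W = pr (lv d.f) β ∧
      ∀ t, ∃ y : List d.A, y.length ≤ 2 * N ∧
        pr (lv d.f) (β.take t) = d.v (W.take (t * N) ++ y) := by
  have main : ∀ {β₁ tl : List (Lt d.A)} {z : List d.A}, β = β₁ ++ tl → tl.length ≤ 1 → Sk β₁ →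
      Val N β₁ (d.Th N D) → z.length ≤ 2 * N → d.v (nd β₁ ++ z) = pr (lv d.f) β →
      ∀ t, ∃ y : List d.A, y.length ≤ 2 * N ∧
        pr (lv d.f) (β.take t) = d.v ((nd β₁ ++ z).take (t * N) ++ y) := by
    intro β₁ tl z hβ htl hs hβ₁ hz hv t
    have hlen := nd_length hs hβ₁
    rcases Nat.lt_or_ge β₁.length t with ht | ht
    · refine ⟨(nd β₁ ++ z).drop (t * N), ?_, ?_⟩
      · rw [List.length_drop, List.length_append, hlen]
        have : β₁.length * N ≤ t * N := Nat.mul_le_mul_right _ ht.le
        omega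
      · rw [List.take_append_drop, hv, List.take_of_length_le]
        rw [hβ, List.length_append]
        omega
    · have h1 : β.take t = β₁.take t := by
        rw [hβ, List.take_append_of_le_length ht]
      have hs' : Sk (β₁.take t) := fun c hc => hs c (List.mem_of_mem_take hc)
      have hβ' : Val N (β₁.take t) (d.Th N D) := by
        apply Val_pre N _ (β₁.drop t)
        rw [List.take_append_drop]
        exact hβ₁
      have h2 : (nd β₁ ++ z).take (t * N) = nd (β₁.take t) := by
        rw [nd_take t hs hβ₁, List.take_append_of_le_length]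
        rw [hlen]
        exact Nat.mul_le_mul_right _ ht
      refine ⟨d.ps N (nd (β₁.take t)), ?_, ?_⟩
      · have := d.ps_length_le N (nd (β₁.take t))
        omega
      · rw [h1, h2, (d.sk_zero hN h0 hs' hβ').2]
        rfl
  rcases Val_cases h with hs | ⟨β₁, z, hs₁, hβ₁, hz, hβ⟩
  · obtain ⟨h1, h2⟩ := d.sk_zero hN h0 hs h
    refine ⟨nd β ++ d.ps N (nd β), d.Lb_of_M (d.M_path h1 _), h2.symm, ?_⟩
    refine main (β₁ := β) (tl := []) (by simp) (by simp) hs h ?_ h2.symm
    have := d.ps_length_le N (nd β)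
    omega
  · have h2 : d.v (nd β₁ ++ z) = pr (lv d.f) β := by
      rw [hβ]
      exact (d.leaf_value hN h0 hs₁ hβ₁ z).symm
    exact ⟨nd β₁ ++ z, hz.2.1.1, h2, main hβ (by simp) hs₁ hβ₁ hz.1.le h2⟩

end Data

end Part5

section Part6

variable {G : Type} [Group G]

/-- Assembling the conclusion from its ingredients. -/
lemma finish {B : Type} [Finite B] (f : B → G) (L : Set (List B)) (hL : FS (fun u => u ∈ L))
    (hsurj : ∀ g : G, ∃ w ∈ L, pr f w = g)
    (hft : ∀ x : G, ∃ D : Set G, D.Finite ∧ ∀ u ∈ L, ∀ v ∈ L, pr f u * x = pr f v →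
      ∀ t, (pr f (u.take t))⁻¹ * pr f (v.take t) ∈ D)
    (hpre : ∀ u v : List B, u ++ v ∈ L → u ∈ L)
    (huniq : ∀ u ∈ L, ∀ v ∈ L, pr f u = pr f v → u = v) :
    (∃ (A : Type) (_ : Finite A) (f : A → G) (L : Language A),
      (∃ (σ : Type) (_ : Finite σ) (M : DFA A σ), M.accepts = L) ∧
      (∀ g : G, ∃ w ∈ L, (w.map f).prod = g) ∧
      (∃ (σ : Type) (_ : Finite σ) (M : DFA (Option A × Option A) σ),
        ∀ p : List (Option A × Option A), p ∈ M.accepts ↔
          ∃ u ∈ L, ∃ v ∈ L, (u.map f).prod = (v.map f).prod ∧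
            p = List.ofFn (fun i : Fin (max u.length v.length) => (u[(i : ℕ)]?, v[(i : ℕ)]?))) ∧
      (∀ a : A, ∃ (σ : Type) (_ : Finite σ) (M : DFA (Option A × Option A) σ),
        ∀ p : List (Option A × Option A), p ∈ M.accepts ↔
          ∃ u ∈ L, ∃ v ∈ L, (u.map f).prod * f a = (v.map f).prod ∧
            p = List.ofFn (fun i : Fin (max u.length v.length) => (u[(i : ℕ)]?, v[(i : ℕ)]?))) ∧
      (∀ u v : List A, u ++ v ∈ L → u ∈ L) ∧
      (∀ u ∈ L, ∀ v ∈ L, (u.map f).prod = (v.map f).prod → u = v)) := by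
  refine ⟨B, inferInstance, f, (L : Set (List B)), ?_, hsurj, ?_, ?_, hpre, huniq⟩
  · obtain ⟨σ, hσ, M, hM⟩ := hL.exists_dfa
    refine ⟨σ, hσ, M, ?_⟩
    ext u
    exact hM u
  · obtain ⟨D, hD, h⟩ := hft 1
    have := exists_pair_dfa f L hL 1 D hD h
    simp only [mul_one] at this
    exact this
  · intro a
    obtain ⟨D, hD, h⟩ := hft (f a)
    exact exists_pair_dfa f L hL (f a) D hD h

/-- The finite case. -/
lemma finite_case [Finite G] :
    (∃ (A : Type) (_ : Finite A) (f : A → G) (L : Language A),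
      (∃ (σ : Type) (_ : Finite σ) (M : DFA A σ), M.accepts = L) ∧
      (∀ g : G, ∃ w ∈ L, (w.map f).prod = g) ∧
      (∃ (σ : Type) (_ : Finite σ) (M : DFA (Option A × Option A) σ),
        ∀ p : List (Option A × Option A), p ∈ M.accepts ↔
          ∃ u ∈ L, ∃ v ∈ L, (u.map f).prod = (v.map f).prod ∧
            p = List.ofFn (fun i : Fin (max u.length v.length) => (u[(i : ℕ)]?, v[(i : ℕ)]?))) ∧
      (∀ a : A, ∃ (σ : Type) (_ : Finite σ) (M : DFA (Option A × Option A) σ),
        ∀ p : List (Option A × Option A), p ∈ M.accepts ↔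
          ∃ u ∈ L, ∃ v ∈ L, (u.map f).prod * f a = (v.map f).prod ∧
            p = List.ofFn (fun i : Fin (max u.length v.length) => (u[(i : ℕ)]?, v[(i : ℕ)]?))) ∧
      (∀ u v : List A, u ++ v ∈ L → u ∈ L) ∧
      (∀ u ∈ L, ∀ v ∈ L, (u.map f).prod = (v.map f).prod → u = v)) := by
  classical
  refine finish (B := G) (fun g => g) {u | u = [] ∨ ∃ g, g ≠ 1 ∧ u = [g]} ?_ ?_ ?_ ?_ ?_
  · refine (Set.toFinite {(fun u : List G => u ∈ {u : List G | u = [] ∨ ∃ g, g ≠ 1 ∧ u = [g]}),
      (fun _ => False), (fun u => u = [])}).subset ?_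
    rintro _ ⟨u, rfl⟩
    rcases u with _ | ⟨g, _ | ⟨h, u⟩⟩
    · left
      rfl
    · by_cases hg : g = 1
      · right; left
        funext x
        apply propext
        refine iff_of_false ?_ not_false
        rintro (h | ⟨g', h1, h2⟩)
        · simp at h
        · rw [List.cons_append, List.nil_append, List.cons.injEq] at h2
          exact h1 (h2.1 ▸ hg)
      · right; right
        rw [mem_singleton_iff]
        funext x
        apply propext
        constructor
        · rintro (h | ⟨g', h1, h2⟩)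
          · simp at h
          · rw [List.cons_append, List.nil_append, List.cons.injEq] at h2
            exact h2.2
        · rintro rfl
          exact Or.inr ⟨g, hg, rfl⟩
    · right; left
      funext x
      apply propext
      refine iff_of_false ?_ not_false
      rintro (h | ⟨g', h1, h2⟩)
      · simp at h
      · simp at h2
  · intro g
    by_cases hg : g = 1
    · exact ⟨[], Or.inl rfl, hg.symm⟩
    · exact ⟨[g], Or.inr ⟨g, hg, rfl⟩, by simp [pr]⟩
  · intro x
    exact ⟨univ, Set.toFinite _, fun _ _ _ _ _ _ => mem_univ _⟩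
  · rintro u v (h | ⟨g, hg, h⟩)
    · left
      exact (List.append_eq_nil_iff.mp h).1
    · rcases u with _ | ⟨a, u⟩
      · left
        rfl
      · right
        rw [List.cons_append, List.cons.injEq] at h
        refine ⟨g, hg, ?_⟩
        rw [h.1, (List.append_eq_nil_iff.mp h.2).1]
  · rintro u (rfl | ⟨g, hg, rfl⟩) v (rfl | ⟨g', hg', rfl⟩) h
    · rfl
    · simp [pr] at h
      exact absurd h.symm hg'
    · simp [pr] at h
      exact absurd h hg
    · simp [pr] at h
      rw [h]

namespace Data

variable (d : Data G)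

lemma exists_params : ∃ (N : ℕ) (D : Set G), 0 < N ∧ D.Finite ∧ d.Close N D ∧
    ∀ u ∈ d.V N, ∃ i, (i, u) ∈ d.Got N N := by
  have hA : Finite d.A := d.finA
  obtain ⟨D₁, hD₁, h₁⟩ := d.ft 1
  have hft : ∀ g : G, ∃ D : Set G, D.Finite ∧ ∀ u v, d.q u ∈ d.live → d.q v ∈ d.live →
    pr d.f u * g = pr d.f v →
      ∀ t, (pr d.f (u.take t))⁻¹ * pr d.f (v.take t) ∈ D := d.ft
  choose E hE hEft using hft
  set N := (D₁.ncard * Nat.card d.Q + D₁.ncard) * Nat.card d.Q + 1 with hN
  have hfin : Set.Finite {y : List d.A | y.length ≤ 2 * N} := List.finite_length_le _ _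
  refine ⟨N, ⋃ y ∈ {y : List d.A | y.length ≤ 2 * N}, ⋃ z ∈ {y : List d.A | y.length ≤ 2 * N},
    E (d.v y * (d.v z)⁻¹), by omega, ?_, ?_, ?_⟩
  · exact hfin.biUnion fun y _ => hfin.biUnion fun z _ => hE _
  · intro u w hu hw y z hy hz heq t
    refine mem_biUnion (x := y) hy (mem_biUnion (x := z) hz ?_)
    refine hEft _ u w hu hw ?_ t
    rw [v_append, v_append] at heq
    show d.v u * (d.v y * (d.v z)⁻¹) = d.v w
    rw [← mul_assoc, heq]
    group
  · intro u hu
    refine d.served hD₁ ?_ (by omega) hu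
    intro u w hu hw heq t
    exact h₁ u w hu hw (by rw [mul_one]; exact heq) t

lemma bounded {N : ℕ} {D : Set G} : ∀ {β : List (Lt d.A)} {u : List d.A},
    Val N β (fun x => d.Th N D (u ++ x)) → ∀ b ∈ β, b.1.length ≤ 2 * N ∧
      b.2.1.length ≤ 2 * N ∧ b.2.2.1.length ≤ 2 * N
  | [], _, _, b, hb => by simp at hb
  | c :: β, u, h, b, hb => by
    obtain ⟨h1, h⟩ := h
    have hc1 : c.1.length ≤ 2 * N := by
      rw [h1]
      have := d.ps_length_le N (u ++ [])
      show (d.ps N (u ++ [])).length ≤ 2 * N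
      omega
    rcases h with ⟨_, h2, _, h4, h5⟩ | ⟨_, h2, h3, h4⟩
    · rcases List.mem_cons.mp hb with rfl | hb
      · refine ⟨hc1, by omega, ?_⟩
        rw [h4]
        have := d.ps_length_le N (u ++ b.2.1)
        show (d.ps N (u ++ b.2.1)).length ≤ 2 * N
        omega
      · refine bounded (D := D) (u := u ++ c.2.1) ?_ b hb
        simpa only [List.append_assoc] using h5
    · rcases List.mem_cons.mp hb with rfl | hb
      · have h3' : d.Lf N D (u ++ []) b.2.1 := h3
        refine ⟨hc1, h3'.1.le, ?_⟩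
        rw [h2]
        simp
      · rw [h4] at hb
        simp at hb

end Data

/-- Every group with such data has an automatic structure closed under initial segments with
uniqueness. -/
theorem main (d : Data G) :
    (∃ (A : Type) (_ : Finite A) (f : A → G) (L : Language A),
      (∃ (σ : Type) (_ : Finite σ) (M : DFA A σ), M.accepts = L) ∧
      (∀ g : G, ∃ w ∈ L, (w.map f).prod = g) ∧
      (∃ (σ : Type) (_ : Finite σ) (M : DFA (Option A × Option A) σ),
        ∀ p : List (Option A × Option A), p ∈ M.accepts ↔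
          ∃ u ∈ L, ∃ v ∈ L, (u.map f).prod = (v.map f).prod ∧
            p = List.ofFn (fun i : Fin (max u.length v.length) => (u[(i : ℕ)]?, v[(i : ℕ)]?))) ∧
      (∀ a : A, ∃ (σ : Type) (_ : Finite σ) (M : DFA (Option A × Option A) σ),
        ∀ p : List (Option A × Option A), p ∈ M.accepts ↔
          ∃ u ∈ L, ∃ v ∈ L, (u.map f).prod * f a = (v.map f).prod ∧
            p = List.ofFn (fun i : Fin (max u.length v.length) => (u[(i : ℕ)]?, v[(i : ℕ)]?))) ∧
      (∀ u v : List A, u ++ v ∈ L → u ∈ L) ∧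
      (∀ u ∈ L, ∀ v ∈ L, (u.map f).prod = (v.map f).prod → u = v)) := by
  classical
  have hA : Finite d.A := d.finA
  obtain ⟨N, D, hN, hD, hC, hserv⟩ := d.exists_params
  have hfin : ∀ n, Set.Finite {y : List d.A | y.length ≤ n} := fun n => List.finite_length_le _ _
  by_cases h0 : ([] : List d.A) ∈ d.V N
  · set P : Lt d.A → Prop := fun b => b.1.length ≤ 2 * N ∧ b.2.1.length ≤ 2 * N ∧
      b.2.2.1.length ≤ 2 * N with hP
    have hPfin : Finite {b : Lt d.A // P b} := by
      have : Set.Finite {b : Lt d.A | P b} := by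
        refine ((hfin (2 * N)).prod ((hfin (2 * N)).prod ((hfin (2 * N)).prod
          (Set.finite_univ (α := Bool))))).subset ?_
        rintro b ⟨h1, h2, h3⟩
        exact ⟨h1, h2, h3, mem_univ _⟩
      exact this
    have hprf : ∀ β : List {b : Lt d.A // P b}, pr (fun b : {b : Lt d.A // P b} =>
        lv d.f b.1) β = pr (lv d.f) (β.map Subtype.val) := by
      intro β
      unfold pr
      rw [List.map_map]
      rfl
    refine finish (B := {b : Lt d.A // P b}) (fun b => lv d.f b.1)
      {β | Val N (β.map Subtype.val) (d.Th N D)} ?_ ?_ ?_ ?_ ?_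
    · exact (FS_Val N (d.FS_Th hN hD hC)).pull _ (fun u x => by simp)
    · intro g
      obtain ⟨β, hβ, hg⟩ := d.Val_surj hN hC hserv h0 g
      have hb := d.bounded (N := N) (D := D) (u := []) hβ
      lift β to List {b : Lt d.A // P b} using hb
      exact ⟨β, hβ, by rw [hprf]; exact hg⟩
    · intro x
      obtain ⟨E, hE, hEft⟩ := d.ft x
      set C : Set G := (fun y => d.v y) '' {y : List d.A | y.length ≤ 2 * N} with hCdef
      have hCfin : C.Finite := (hfin _).image _
      refine ⟨Set.image2 (fun x y => x * y) (Set.image2 (fun x y => x⁻¹ * y) C E) C,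
        (hCfin.image2 _ hE).image2 _ hCfin, ?_⟩
      intro β hβ β' hβ' heq t
      obtain ⟨W, hW, hWv, hWt⟩ := d.shadow hN h0 hβ
      obtain ⟨W', hW', hWv', hWt'⟩ := d.shadow hN h0 hβ'
      obtain ⟨y, hy, hy'⟩ := hWt t
      obtain ⟨z, hz, hz'⟩ := hWt' t
      rw [hprf, hprf] at heq
      rw [hprf, hprf, List.map_take, List.map_take, hy', hz']
      have h1 := hEft W W' hW hW' (by rw [← hWv, ← hWv'] at heq; exact heq) (t * N)
      refine ⟨_, ⟨_, ⟨y, hy, rfl⟩, _, h1, rfl⟩, _, ⟨z, hz, rfl⟩, ?_⟩
      simp only [Data.v_append]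
      group
    · intro u v h
      have h' : Val N ((u ++ v).map Subtype.val) (d.Th N D) := h
      rw [List.map_append] at h'
      exact Val_pre N _ _ _ h'
    · intro u hu v hv heq
      rw [hprf, hprf] at heq
      have := d.Val_unique hN hC hserv h0 hu hv heq
      exact List.map_injective_iff.mpr Subtype.val_injective this
  · have hnil : ([] : List d.A) ∈ d.M := by
      obtain ⟨r, hr, _⟩ := d.exists_R 1
      exact d.M_append r (d.R_sub_M hr)
    have hG : Finite G := by
      have h1 : Set.Finite ((fun y => d.v y) '' {y : List d.A | y.length ≤ N}) :=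
        (hfin _).image _
      have h2 : (univ : Set G) ⊆ (fun y => d.v y) '' {y : List d.A | y.length ≤ N} := by
        intro g _
        obtain ⟨r, hr, hg⟩ := d.exists_R g
        refine ⟨r, ?_, hg⟩
        by_contra hc
        have hc' : N < r.length := not_le.mp hc
        apply h0
        refine ⟨hnil, by simp, r.take N, by rw [List.length_take]; omega, ?_⟩
        exact d.M_take (d.R_sub_M hr) N
      exact Set.finite_univ_iff.mp (h1.subset h2)
    exact finite_case

end Part6

/-- Every group with an automatic structure (regular language of words mapping onto G, with synchronous finite automata for equality and right multiplication by each generator) also has one whose language is prefix-closed with exactly one word per element. -/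
theorem result :
  ∀ (G : Type) [Group G],
    (∃ (A : Type) (_ : Finite A) (f : A → G) (L : Language A),
      (∃ (σ : Type) (_ : Finite σ) (M : DFA A σ), M.accepts = L) ∧
      (∀ g : G, ∃ w ∈ L, (w.map f).prod = g) ∧
      (∃ (σ : Type) (_ : Finite σ) (M : DFA (Option A × Option A) σ),
        ∀ p : List (Option A × Option A), p ∈ M.accepts ↔
          ∃ u ∈ L, ∃ v ∈ L, (u.map f).prod = (v.map f).prod ∧
            p = List.ofFn (fun i : Fin (max u.length v.length) => (u[(i : ℕ)]?, v[(i : ℕ)]?))) ∧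
      (∀ a : A, ∃ (σ : Type) (_ : Finite σ) (M : DFA (Option A × Option A) σ),
        ∀ p : List (Option A × Option A), p ∈ M.accepts ↔
          ∃ u ∈ L, ∃ v ∈ L, (u.map f).prod * f a = (v.map f).prod ∧
            p = List.ofFn (fun i : Fin (max u.length v.length) => (u[(i : ℕ)]?, v[(i : ℕ)]?)))) →
    (∃ (A : Type) (_ : Finite A) (f : A → G) (L : Language A),
      (∃ (σ : Type) (_ : Finite σ) (M : DFA A σ), M.accepts = L) ∧
      (∀ g : G, ∃ w ∈ L, (w.map f).prod = g) ∧
      (∃ (σ : Type) (_ : Finite σ) (M : DFA (Option A × Option A) σ),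
        ∀ p : List (Option A × Option A), p ∈ M.accepts ↔
          ∃ u ∈ L, ∃ v ∈ L, (u.map f).prod = (v.map f).prod ∧
            p = List.ofFn (fun i : Fin (max u.length v.length) => (u[(i : ℕ)]?, v[(i : ℕ)]?))) ∧
      (∀ a : A, ∃ (σ : Type) (_ : Finite σ) (M : DFA (Option A × Option A) σ),
        ∀ p : List (Option A × Option A), p ∈ M.accepts ↔
          ∃ u ∈ L, ∃ v ∈ L, (u.map f).prod * f a = (v.map f).prod ∧
            p = List.ofFn (fun i : Fin (max u.length v.length) => (u[(i : ℕ)]?, v[(i : ℕ)]?))) ∧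
      (∀ u v : List A, u ++ v ∈ L → u ∈ L) ∧
      (∀ u ∈ L, ∀ v ∈ L, (u.map f).prod = (v.map f).prod → u = v)) := by
  rintro G _ ⟨A, hA, f, L, hreg, hsurj, heq, hmul⟩
  obtain ⟨d⟩ := exists_data f L hreg hsurj heq hmul
  exact main d

end Pool.Agent.S02407
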