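import Pool.Statements.S02414
import Pool.Agent.Helper904.Homog

set_option autoImplicit false
open Pool Pool.MP_f52e03_al

namespace Pool.Agent.S02414

/-- The negation of the preceding statement: For every infinite set X, every t at least 3 and every group G of permutations of X, it is not the case that for all t-element subsets A, B of X exactly one element of G maps A onto B. -/
theorem result :
    ¬ (∀ (X : Type) [Infinite X] (t : ℕ), 3 ≤ t →
      ∀ G : Subgroup (Equiv.Perm X),
        ¬ (∀ A B : Finset X, A.card = t → B.card = t →
            ∃! g : G, A.map (Equiv.toEmbedding (g : Equiv.Perm X)) = B)) := by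
  intro h
  obtain ⟨G, hG⟩ := Helper904.Homog.exists_sharply_homogeneous 3 (by norm_num)
  exact h ℕ 3 (le_refl 3) G hG

end Pool.Agent.S02414
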