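import Pool.Statements.S02426

set_option autoImplicit false
open Pool Pool.MP_f67ce1_al

namespace Pool.Agent.S02426

open Finset

/-- Upper triangular matrices indexed by the natural numbers. -/
abbrev IA := IncidenceAlgebra ℚ ℕ

/-- Upper triangular matrices which agree with a scalar matrix outside finitely many columns. -/
def RR : Subring IA where
  carrier := {f | ∃ (c : ℚ) (N : ℕ), ∀ a b, N ≤ b → f a b = if a = b then c else 0}
  mul_mem' := by
    rintro f g ⟨c, N, hf⟩ ⟨d, M, hg⟩
    refine ⟨c * d, max N M, fun a b hb => ?_⟩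
    have hN : N ≤ b := le_trans (le_max_left _ _) hb
    have hM : M ≤ b := le_trans (le_max_right _ _) hb
    rw [IncidenceAlgebra.mul_apply]
    have : ∀ x ∈ Icc a b, f a x * g x b = if x = b then f a b * d else 0 := by
      intro x _
      rw [hg x b hM]
      split_ifs with h
      · rw [h]
      · simp
    rw [Finset.sum_congr rfl this, Finset.sum_ite_eq']
    rw [hf a b hN]
    by_cases hab : a = b
    · subst hab; simp
    · simp [hab]
  one_mem' := ⟨1, 0, fun a b _ => by simp⟩
  add_mem' := by
    rintro f g ⟨c, N, hf⟩ ⟨d, M, hg⟩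
    refine ⟨c + d, max N M, fun a b hb => ?_⟩
    have hN : N ≤ b := le_trans (le_max_left _ _) hb
    have hM : M ≤ b := le_trans (le_max_right _ _) hb
    rw [IncidenceAlgebra.add_apply, hf a b hN, hg a b hM]
    split_ifs <;> simp
  zero_mem' := ⟨0, 0, fun a b _ => by simp [IncidenceAlgebra.zero_apply]⟩
  neg_mem' := by
    rintro f ⟨c, N, hf⟩
    refine ⟨-c, N, fun a b hb => ?_⟩
    rw [IncidenceAlgebra.neg_apply, hf a b hb]
    split_ifs <;> simp

lemma RR_ext {x y : RR} (h : ∀ a b, x.1 a b = y.1 a b) : x = y := by
  apply Subtype.ext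
  apply IncidenceAlgebra.ext
  intro a b _
  exact h a b

lemma mul_entry (x y : RR) (a b : ℕ) : (x * y).1 a b = ∑ t ∈ Icc a b, x.1 a t * y.1 t b := by
  show (x.1 * y.1) a b = _
  rw [IncidenceAlgebra.mul_apply]

lemma add_entry (x y : RR) (a b : ℕ) : (x + y).1 a b = x.1 a b + y.1 a b := rfl
lemma sub_entry (x y : RR) (a b : ℕ) : (x - y).1 a b = x.1 a b - y.1 a b := rfl
lemma zero_entry (a b : ℕ) : (0 : RR).1 a b = 0 := rfl
lemma one_entry (a b : ℕ) : (1 : RR).1 a b = if a = b then 1 else 0 := rfl

lemma entry_zero (x : RR) {a b : ℕ} (h : b < a) : x.1 a b = 0 :=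
  IncidenceAlgebra.apply_eq_zero_of_not_le (by omega) _

/-- A matrix supported in one column `m`, with entries `v a`. -/
def col (m : ℕ) (v : ℕ → ℚ) : RR :=
  ⟨⟨fun a b => if a ≤ b ∧ b = m then v a else 0, fun a b h => by
      simp only [ite_eq_right_iff, and_imp]
      intro h1; exact absurd h1 h⟩,
    ⟨0, m + 1, fun a b hb => by
      show (if a ≤ b ∧ b = m then v a else 0) = _
      have : ¬ b = m := by omega
      simp [this]⟩⟩

lemma col_entry (m : ℕ) (v : ℕ → ℚ) (a b : ℕ) :
    (col m v).1 a b = if a ≤ b ∧ b = m then v a else 0 := rfl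

/-- the matrix with a single entry. -/
def E (c : ℚ) (i j : ℕ) : RR := col j (fun a => if a = i then c else 0)

lemma E_entry (c : ℚ) {i j : ℕ} (hij : i ≤ j) (a b : ℕ) :
    (E c i j).1 a b = if a = i ∧ b = j then c else 0 := by
  unfold E
  rw [col_entry]
  by_cases h1 : b = j
  · subst h1
    by_cases h2 : a = i
    · subst h2; simp [hij]
    · simp [h2]
  · simp [h1]

/-- multiplication on the left by a one entry matrix. -/
lemma E_mul (c : ℚ) {i j : ℕ} (hij : i ≤ j) (y : RR) (a b : ℕ) :
    (E c i j * y).1 a b = if a = i then c * y.1 j b else 0 := by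
  rw [mul_entry]
  have : ∀ t ∈ Icc a b, (E c i j).1 a t * y.1 t b
      = if t = j then (if a = i then c * y.1 j b else 0) else 0 := by
    intro t _
    rw [E_entry c hij]
    by_cases h1 : t = j
    · subst h1
      by_cases h2 : a = i
      · simp [h2]
      · simp [h2]
    · simp [h1]
  rw [Finset.sum_congr rfl this, Finset.sum_ite_eq']
  by_cases h2 : a = i
  · subst h2
    by_cases h3 : j ≤ b
    · simp [hij, h3]
    · have : y.1 j b = 0 := entry_zero y (by omega)
      simp [this]
  · simp [h2]

/-- product `r * x` when `x` has only the row `m`. -/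
lemma mul_row (r x : RR) (m : ℕ) (hx : ∀ a b, a ≠ m → x.1 a b = 0) (a b : ℕ) :
    (r * x).1 a b = r.1 a m * x.1 m b := by
  rw [mul_entry]
  have : ∀ t ∈ Icc a b, r.1 a t * x.1 t b = if t = m then r.1 a m * x.1 m b else 0 := by
    intro t _
    by_cases h1 : t = m
    · subst h1; simp
    · rw [hx t b h1]; simp [h1]
  rw [Finset.sum_congr rfl this, Finset.sum_ite_eq']
  by_cases h1 : a ≤ m
  · by_cases h2 : m ≤ b
    · simp [h1, h2]
    · have : x.1 m b = 0 := entry_zero x (by omega)
      simp [this]
  · have : r.1 a m = 0 := entry_zero r (by omega)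
    simp [this]

section Proj
variable {R : Type} [Ring R]

lemma proj_of (e x : R) (hx : e * x = x) (h : ∀ r, r * x = 0 → r * e = 0) :
    Module.Projective R (Submodule.span R {x}) := by
  have key : ∀ y : Submodule.span R {x}, ∃ r : R, r * x = (y : R) := by
    intro y
    obtain ⟨r, hr⟩ := Submodule.mem_span_singleton.1 y.2
    exact ⟨r, hr⟩
  choose f hf using key
  let i : Submodule.span R {x} →ₗ[R] R :=
    { toFun := fun y => f y * e
      map_add' := by
        intro y z
        have : (f (y + z) - f y - f z) * x = 0 := by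
          rw [sub_mul, sub_mul, hf, hf, hf]; simp
        have h2 := h _ this
        rw [sub_mul, sub_mul] at h2
        have h3 : f (y + z) * e = f y * e + f z * e := by
          rw [sub_sub, sub_eq_zero] at h2; exact h2
        exact h3
      map_smul' := by
        intro c y
        have : (f (c • y) - c * f y) * x = 0 := by
          rw [sub_mul, mul_assoc, hf, hf]; simp
        have h2 := h _ this
        rw [sub_mul, sub_eq_zero, mul_assoc] at h2
        exact h2 }
  let s : R →ₗ[R] Submodule.span R {x} :=
    { toFun := fun r => ⟨r * x, Submodule.mem_span_singleton.2 ⟨r, rfl⟩⟩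
      map_add' := by intro a b; ext; simp [add_mul]
      map_smul' := by intro a b; ext; simp [mul_assoc] }
  refine Module.Projective.of_split i s ?_
  apply LinearMap.ext
  intro y
  apply Subtype.ext
  show f y * e * x = y
  rw [mul_assoc, hx, hf]

end Proj

/-- columns from `N` on vanish. -/
def Fin' (N : ℕ) (x : RR) : Prop := ∀ a b, N ≤ b → x.1 a b = 0

lemma step (J : Submodule RR RR) (N : ℕ) :
    ∃ x ∈ J, Fin' (N + 1) x ∧ Module.Projective RR (Submodule.span RR {x}) ∧
      (∀ r : RR, (∀ a, (r * x).1 a N = 0) → r * x = 0) ∧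
      (∀ y ∈ J, Fin' (N + 1) y → ∃ r : RR, Fin' N (y - r * x)) := by
  classical
  by_cases hex : ∃ m, ∃ y ∈ J, Fin' (N + 1) y ∧ y.1 m N ≠ 0
  · -- choose the largest such `m`
    have hb : ∀ m, (∃ y ∈ J, Fin' (N + 1) y ∧ y.1 m N ≠ 0) → m ≤ N := by
      rintro m ⟨y, _, _, h⟩
      by_contra hlt
      exact h (entry_zero y (by omega))
    obtain ⟨m0, hm0⟩ := hex
    have hP := Nat.findGreatest_spec (P := fun m => ∃ y ∈ J, Fin' (N + 1) y ∧ y.1 m N ≠ 0)
      (hb m0 hm0) hm0
    have hmax : ∀ k, (∃ y ∈ J, Fin' (N + 1) y ∧ y.1 k N ≠ 0) →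
        k ≤ Nat.findGreatest (fun m => ∃ y ∈ J, Fin' (N + 1) y ∧ y.1 m N ≠ 0) N :=
      fun k hk => Nat.le_findGreatest (hb k hk) hk
    set m := Nat.findGreatest (fun m => ∃ y ∈ J, Fin' (N + 1) y ∧ y.1 m N ≠ 0) N with hm
    obtain ⟨y, hyJ, hyF, hy⟩ := hP
    set x : RR := E (y.1 m N)⁻¹ m m * y with hxdef
    have hxe : ∀ a b, x.1 a b = if a = m then (y.1 m N)⁻¹ * y.1 m b else 0 := by
      intro a b; rw [hxdef, E_mul _ le_rfl]
    have hxrow : ∀ a b, a ≠ m → x.1 a b = 0 := by
      intro a b h; rw [hxe]; simp [h]
    have hx1 : x.1 m N = 1 := by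
      rw [hxe]; simp [hy]
    have hrx : ∀ (r : RR) a b, (r * x).1 a b = r.1 a m * x.1 m b :=
      fun r a b => mul_row r x m hxrow a b
    refine ⟨x, J.smul_mem _ hyJ, ?_, ?_, ?_, ?_⟩
    · intro a b hab
      rw [hxe, hyF m b hab]; simp
    · refine proj_of (E 1 m m) x ?_ ?_
      · apply RR_ext
        intro a b
        rw [E_mul _ le_rfl]
        by_cases h : a = m
        · subst h; simp
        · simp [h, hxrow a b h]
      · intro r hr
        apply RR_ext
        intro a b
        have h1 : r.1 a m = 0 := by
          have h2 := hrx r a N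
          rw [hr, hx1, mul_one] at h2
          rw [← h2]; rfl
        rw [mul_row r (E 1 m m) m (fun a b h => by rw [E_entry _ le_rfl]; simp [h]), h1, zero_mul]
        rfl
    · intro r hr
      apply RR_ext
      intro a b
      have h1 : r.1 a m = 0 := by
        have := hr a
        rw [hrx, hx1, mul_one] at this
        exact this
      rw [hrx, h1, zero_mul]; rfl
    · intro z hzJ hzF
      refine ⟨col m (fun a => z.1 a N), ?_⟩
      intro a b hab
      rw [sub_entry, hrx, col_entry]
      by_cases ham : a ≤ m
      · simp only [ham, and_self, if_true]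
        rcases eq_or_lt_of_le hab with h | h
        · subst h; rw [hx1]; ring
        · rw [hzF a b h]
          have : x.1 m b = 0 := by rw [hxe, hyF m b h]; simp
          rw [this]; ring
      · have hz : z.1 a N = 0 := by
          by_contra hne
          exact ham (hmax a ⟨z, hzJ, hzF, hne⟩)
        simp only [ham, false_and, if_false, zero_mul, sub_zero]
        rcases eq_or_lt_of_le hab with h | h
        · subst h; exact hz
        · exact hzF a b h
  · refine ⟨0, J.zero_mem, fun _ _ _ => rfl, ?_, ?_, ?_⟩
    · exact proj_of 0 0 (by simp) (by simp)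
    · intro r _; simp
    · intro y hyJ hyF
      refine ⟨0, ?_⟩
      intro a b hab
      rw [sub_entry]
      simp only [mul_zero, zero_entry, sub_zero]
      rcases eq_or_lt_of_le hab with h | h
      · subst h
        by_contra hne
        exact hex ⟨a, y, hyJ, hyF, hne⟩
      · exact hyF a b h

lemma entry_hom (a b : ℕ) : ∃ φ : RR →+ ℚ, ∀ x, φ x = x.1 a b :=
  ⟨{ toFun := fun x => x.1 a b, map_zero' := rfl, map_add' := fun _ _ => rfl }, fun _ => rfl⟩

/-- left ideals of matrices with finitely many nonzero columns are projective. -/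
lemma proj_small (J : Submodule RR RR) (hJ : ∀ x ∈ J, ∃ N, Fin' N x) :
    Module.Projective RR J := by
  classical
  choose x hxJ hxF hxP hx1 hx2 using step J
  let C : ℕ → Submodule RR RR := fun N => Submodule.span RR {x N}
  have : ∀ N, Module.Projective RR (C N) := hxP
  let Φ : (Π₀ N, C N) →ₗ[RR] RR := DFinsupp.lsum ℕ (fun N => (C N).subtype)
  have hmem : ∀ N, ∀ y ∈ C N, ∃ r : RR, y = r * x N := by
    intro N y hy
    obtain ⟨r, hr⟩ := Submodule.mem_span_singleton.1 hy
    exact ⟨r, hr.symm⟩
  have hCF : ∀ N, ∀ y ∈ C N, Fin' (N + 1) y := by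
    intro N y hy a b hab
    obtain ⟨r, rfl⟩ := hmem N y hy
    rw [mul_entry]
    apply Finset.sum_eq_zero
    intro t _
    rw [hxF N t b hab, mul_zero]
  have hinj : Function.Injective Φ := by
    rw [injective_iff_map_eq_zero]
    intro v hv
    by_contra hne
    have hs : v.support.Nonempty := by
      rw [Finset.nonempty_iff_ne_empty]
      intro h
      exact hne (DFinsupp.support_eq_empty.1 h)
    set N := v.support.max' hs with hN
    have hNs : N ∈ v.support := Finset.max'_mem _ _
    have hvN : v N ≠ 0 := (DFinsupp.mem_support_iff.1 hNs)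
    apply hvN
    have hsum : (∑ j ∈ v.support, (v j : RR)) = 0 := by
      have h1 : Φ v = ∑ j ∈ v.support, (v j : RR) := by
        show DFinsupp.lsum ℕ (fun N => (C N).subtype) v = _
        rw [DFinsupp.lsum_apply_apply, DFinsupp.sumAddHom_apply, DFinsupp.sum]
        rfl
      rw [← h1, hv]
    have hcol : ∀ a, ((v N : RR)).1 a N = 0 := by
      intro a
      obtain ⟨φ, hφ⟩ := entry_hom a N
      have h2 := congrArg φ hsum
      rw [map_sum, map_zero, Finset.sum_eq_single_of_mem N hNs] at h2
      · rw [hφ] at h2; exact h2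
      · intro j hj hjN
        rw [hφ]
        have hle : j ≤ N := Finset.le_max' _ _ hj
        exact hCF j _ (v j).2 a N (by omega)
    obtain ⟨r, hr⟩ := hmem N _ (v N).2
    apply Subtype.ext
    show (v N : RR) = 0
    rw [hr]
    apply hx1
    intro a
    rw [← hr]
    exact hcol a
  have hrange : LinearMap.range Φ = J := by
    apply le_antisymm
    · rintro _ ⟨v, rfl⟩
      have h1 : Φ v = ∑ j ∈ v.support, (v j : RR) := by
        show DFinsupp.lsum ℕ (fun N => (C N).subtype) v = _
        rw [DFinsupp.lsum_apply_apply, DFinsupp.sumAddHom_apply, DFinsupp.sum]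
        rfl
      rw [h1]
      apply Submodule.sum_mem
      intro j _
      have : C j ≤ J := Submodule.span_le.2 (by simpa using hxJ j)
      exact this (v j).2
    · have hC : ∀ j, C j ≤ LinearMap.range Φ := by
        intro j y hy
        refine ⟨DFinsupp.single j ⟨y, hy⟩, ?_⟩
        show DFinsupp.lsum ℕ (fun N => (C N).subtype) _ = _
        rw [DFinsupp.lsum_single]
        rfl
      have key : ∀ N, ∀ y ∈ J, Fin' N y → y ∈ LinearMap.range Φ := by
        intro N
        induction N with
        | zero =>
          intro y _ hy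
          have : y = 0 := RR_ext (fun a b => hy a b (Nat.zero_le _))
          rw [this]; exact Submodule.zero_mem _
        | succ N ih =>
          intro y hyJ hy
          obtain ⟨r, hr⟩ := hx2 N y hyJ hy
          have h1 : r * x N ∈ J := J.smul_mem r (hxJ N)
          have h2 := ih (y - r * x N) (J.sub_mem hyJ h1) hr
          have h3 : r * x N ∈ LinearMap.range Φ :=
            hC N (Submodule.mem_span_singleton.2 ⟨r, rfl⟩)
          have := Submodule.add_mem _ h2 h3
          simpa using this
      intro y hy
      obtain ⟨N, hN⟩ := hJ y hy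
      exact key N y hy hN
  have e1 : (Π₀ N, C N) ≃ₗ[RR] LinearMap.range Φ := LinearEquiv.ofInjective Φ hinj
  have e2 : LinearMap.range Φ ≃ₗ[RR] J := LinearEquiv.ofEq _ _ hrange
  exact Module.Projective.of_equiv' (e1.trans e2)

/-- the diagonal idempotent supported on indices at least `N`. -/
def tail (N : ℕ) : RR :=
  ⟨⟨fun a b => if a = b ∧ N ≤ b then 1 else 0, fun a b h => by
      have : ¬ a = b := fun h' => h (le_of_eq h')
      simp [this]⟩,
    ⟨1, N, fun a b hb => by
      show (if a = b ∧ N ≤ b then (1 : ℚ) else 0) = _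
      by_cases h : a = b
      · simp [h, hb]
      · simp [h]⟩⟩

lemma tail_entry (N a b : ℕ) : (tail N).1 a b = if a = b ∧ N ≤ b then 1 else 0 := rfl

lemma tail_mul (N : ℕ) (y : RR) (a b : ℕ) :
    (tail N * y).1 a b = if N ≤ a then y.1 a b else 0 := by
  rw [mul_entry]
  have : ∀ t ∈ Icc a b, (tail N).1 a t * y.1 t b
      = if t = a then (if N ≤ a then y.1 a b else 0) else 0 := by
    intro t _
    rw [tail_entry]
    by_cases h1 : t = a
    · subst h1
      by_cases h2 : N ≤ t
      · simp [h2]
      · simp [h2]
    · have : ¬ a = t := fun h => h1 h.symm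
      simp [h1, this]
  rw [Finset.sum_congr rfl this, Finset.sum_ite_eq']
  by_cases h : a ≤ b
  · simp [h]
  · have : y.1 a b = 0 := entry_zero y (by omega)
    simp [this]

lemma mul_tail (N : ℕ) (y : RR) (a b : ℕ) :
    (y * tail N).1 a b = if N ≤ b then y.1 a b else 0 := by
  rw [mul_entry]
  have : ∀ t ∈ Icc a b, y.1 a t * (tail N).1 t b
      = if t = b then (if N ≤ b then y.1 a b else 0) else 0 := by
    intro t _
    rw [tail_entry]
    by_cases h1 : t = b
    · subst h1
      by_cases h2 : N ≤ t
      · simp [h2]
      · simp [h2]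
    · simp [h1]
  rw [Finset.sum_congr rfl this, Finset.sum_ite_eq']
  by_cases h : a ≤ b
  · simp [h]
  · have : y.1 a b = 0 := entry_zero y (by omega)
    simp [this]

/-- every left ideal is projective. -/
lemma hereditary (I : Submodule RR RR) : Module.Projective RR I := by
  classical
  by_cases hI : ∀ x ∈ I, ∃ N, Fin' N x
  · exact proj_small I hI
  · push Not at hI
    obtain ⟨x, hxI, hx⟩ := hI
    obtain ⟨c, N, hc⟩ := x.2
    have hc0 : c ≠ 0 := by
      intro h
      apply hx N
      intro a b hab
      rw [hc a b hab, h]; simp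
    -- `tail N` lies in `I`
    have htail : tail N ∈ I := by
      have h1 : col 0 (fun _ => 0) = (0 : RR) := by
        apply RR_ext; intro a b; rw [col_entry]; simp [zero_entry]
      -- scalar matrix
      let S : RR := ⟨⟨fun a b => if a = b then c⁻¹ else 0, fun a b h => by
          have : ¬ a = b := fun h' => h (le_of_eq h')
          simp [this]⟩, ⟨c⁻¹, 0, fun a b _ => rfl⟩⟩
      have hS : ∀ a b, S.1 a b = if a = b then c⁻¹ else 0 := fun a b => rfl
      have h2 : tail N = S * (tail N * x) := by
        apply RR_ext
        intro a b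
        rw [mul_entry]
        have : ∀ t ∈ Icc a b, S.1 a t * (tail N * x).1 t b
            = if t = a then c⁻¹ * (tail N * x).1 a b else 0 := by
          intro t _
          rw [hS]
          by_cases h1 : t = a
          · subst h1; simp
          · have : ¬ a = t := fun h => h1 h.symm
            simp [h1, this]
        rw [Finset.sum_congr rfl this, Finset.sum_ite_eq', tail_mul, tail_entry]
        by_cases hab : a ≤ b
        · by_cases hNa : N ≤ a
          · rw [hc a b (le_trans hNa hab)]
            by_cases h3 : a = b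
            · subst h3; simp [hNa, hc0]
            · simp [h3]
          · by_cases h3 : a = b
            · subst h3; simp [hNa]
            · simp [h3, hNa]
        · have : ¬ a = b := by omega
          simp [this, hab]
      rw [h2]
      exact I.smul_mem _ (I.smul_mem _ hxI)
    -- the part of `I` supported in the first `N` columns
    let K : Submodule RR RR :=
      { carrier := {y | y ∈ I ∧ Fin' N y}
        add_mem' := by
          rintro a b ⟨ha, ha'⟩ ⟨hb, hb'⟩
          refine ⟨I.add_mem ha hb, fun i j hij => ?_⟩
          rw [add_entry, ha' i j hij, hb' i j hij, add_zero]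
        zero_mem' := ⟨I.zero_mem, fun _ _ _ => rfl⟩
        smul_mem' := by
          rintro r y ⟨hy, hy'⟩
          refine ⟨I.smul_mem r hy, fun i j hij => ?_⟩
          show (r * y).1 i j = 0
          rw [mul_entry]
          apply Finset.sum_eq_zero
          intro t _
          rw [hy' t j hij, mul_zero] }
    have hK : Module.Projective RR K := proj_small K (fun y hy => ⟨N, hy.2⟩)
    have hidem : tail N * tail N = tail N := by
      apply RR_ext
      intro a b
      rw [tail_mul, tail_entry]
      by_cases h : a = b
      · subst h; simp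
      · simp [h]
    have hT : Module.Projective RR (Submodule.span RR {tail N}) :=
      proj_of (tail N) (tail N) hidem (fun r hr => hr)
    have hsub : ∀ y : RR, y ∈ I → y - y * tail N ∈ K := by
      intro y hy
      refine ⟨I.sub_mem hy (I.smul_mem y htail), fun a b hab => ?_⟩
      rw [sub_entry, mul_tail]; simp [hab]
    let i : I →ₗ[RR] (K × Submodule.span RR {tail N}) :=
      { toFun := fun y => (⟨y - y * tail N, hsub y y.2⟩,
          ⟨y * tail N, Submodule.mem_span_singleton.2 ⟨y, rfl⟩⟩)
        map_add' := by
          intro y z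
          apply Prod.ext
          · apply Subtype.ext; simp [add_mul]; abel
          · apply Subtype.ext; simp [add_mul]
        map_smul' := by
          intro r y
          apply Prod.ext
          · apply Subtype.ext; simp [mul_assoc, mul_sub]
          · apply Subtype.ext; simp [mul_assoc] }
    have hle1 : K ≤ I := fun y hy => hy.1
    have hle2 : Submodule.span RR {tail N} ≤ I := Submodule.span_le.2 (by simpa using htail)
    let s : (K × Submodule.span RR {tail N}) →ₗ[RR] I :=
      LinearMap.coprod (Submodule.inclusion hle1) (Submodule.inclusion hle2)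
    refine Module.Projective.of_split i s ?_
    apply LinearMap.ext
    intro y
    apply Subtype.ext
    show (y : RR) - y * tail N + y * tail N = y
    abel

lemma E_mul_E (i j k : ℕ) (hij : i ≤ j) (hjk : j ≤ k) : E 1 i j * E 1 j k = E 1 i k := by
  apply RR_ext
  intro a b
  rw [E_mul _ hij, E_entry _ hjk, E_entry _ (hij.trans hjk)]
  by_cases h : a = i
  · simp [h]
  · simp [h]

lemma prod_E (n : ℕ) : ((List.range n).map (fun i => E 1 i (i + 1))).prod ≠ 0 := by
  have key : ∀ n, 0 < n → ((List.range n).map (fun i => E 1 i (i + 1))).prod = E 1 0 n := by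
    intro n hn
    induction n with
    | zero => omega
    | succ n ih =>
      rw [List.range_succ, List.map_append, List.prod_append]
      rcases Nat.eq_zero_or_pos n with h | h
      · subst h; simp
      · rw [ih h]
        simp only [List.map_cons, List.map_nil, List.prod_cons, List.prod_nil, mul_one]
        exact E_mul_E 0 n (n + 1) (Nat.zero_le _) (Nat.le_succ _)
  rcases Nat.eq_zero_or_pos n with h | h
  · subst h
    simp only [List.range_zero, List.map_nil, List.prod_nil]
    intro h
    have := congrArg (fun x : RR => x.1 0 0) h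
    simp [one_entry, zero_entry] at this
  · rw [key n h]
    intro h0
    have := congrArg (fun x : RR => x.1 0 n) h0
    simp only [E_entry 1 (Nat.zero_le n), zero_entry] at this
    simp at this

/-- The negation of the preceding statement: For every ring whose left ideals are all projective, its prime radical (intersection of all prime two-sided ideals) is nilpotent, and the quotient of the ring by the prime radical again has all left ideals projective. -/
theorem result :
    ¬ (∀ (R : Type) [Ring R], (∀ I : Submodule R R, Module.Projective R I) →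
      (∃ n : ℕ, ∀ l : List R, l.length = n →
          (∀ x ∈ l, ∀ J : TwoSidedIdeal R,
            ((∃ y : R, y ∉ J) ∧ ∀ a b : R, (∀ r : R, a * r * b ∈ J) → a ∈ J ∨ b ∈ J) →
              x ∈ J) →
          l.prod = 0) ∧
      ∀ (S : Type) [Ring S] (f : R →+* S), Function.Surjective f →
        (∀ x : R, f x = 0 ↔
          ∀ J : TwoSidedIdeal R,
            ((∃ y : R, y ∉ J) ∧ ∀ a b : R, (∀ r : R, a * r * b ∈ J) → a ∈ J ∨ b ∈ J) →
              x ∈ J) →
        ∀ I : Submodule S S, Module.Projective S I) := by
  intro H
  obtain ⟨⟨n, hn⟩, _⟩ := H RR hereditary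
  refine prod_E n (hn _ (by simp) ?_)
  intro x hx J hJ
  rw [List.mem_map] at hx
  obtain ⟨i, _, rfl⟩ := hx
  have h0 : ∀ r : RR, E 1 i (i + 1) * r * E 1 i (i + 1) ∈ J := by
    intro r
    have : E 1 i (i + 1) * r * E 1 i (i + 1) = 0 := by
      apply RR_ext
      intro a b
      rw [mul_assoc, E_mul _ (Nat.le_succ _), zero_entry]
      by_cases h : a = i
      · have h2 : (r * E 1 i (i + 1)).1 (i + 1) b = 0 := by
          rw [mul_row r (E 1 i (i+1)) i
            (fun a b h => by rw [E_entry _ (Nat.le_succ _)]; simp [h])]
          rw [entry_zero r (Nat.lt_succ_self i), zero_mul]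
        rw [h2]; simp
      · simp [h]
    rw [this]
    exact J.zero_mem
  rcases hJ.2 _ _ h0 with h | h <;> exact h

end Pool.Agent.S02426
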