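import Pool.Statements.S02440
import Pool.Agent.Helper310.Ctbl
import Pool.Agent.Helper310.Recursion

set_option autoImplicit false
open Pool Pool.MP_f7bfdf_al

namespace Pool.Agent.S02440

/-- Every nonabelian locally free group has trivial Frattini subgroup, in any universe. -/
theorem frattini_eq_bot {G : Type*} [Group G] (hfree : ∀ H : Subgroup G, H.FG → IsFreeGroup H)
    (hna : ∃ a b : G, a * b ≠ b * a) : frattini G = ⊥ := by
  by_cases hG : Cardinal.aleph0 < Cardinal.mk G
  · exact Pool.Agent.Helper310.Ctbl.frattini_eq_bot_of
      (Pool.Agent.Helper310.Recursion.exists_of_uncountable hfree hG)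
  · have : Countable G := Cardinal.mk_le_aleph0_iff.1 (not_lt.1 hG)
    exact Pool.Agent.Helper310.Ctbl.result hfree hna

/-- The negation of the preceding statement: There exists a non-abelian group in which every finitely generated subgroup is free, whose Frattini subgroup (intersection of all maximal subgroups) is non-trivial. -/
theorem result :
    ¬ (∃ (G : Type) (_ : Group G),
      (∀ H : Subgroup G, H.FG → IsFreeGroup H) ∧
      (∃ a b : G, a * b ≠ b * a) ∧
      frattini G ≠ ⊥) := by
  rintro ⟨G, _, hfree, hna, hfr⟩
  exact hfr (frattini_eq_bot hfree hna)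

end Pool.Agent.S02440
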