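import Pool.Statements.S02447
import Pool.Agent.Helper189.S3Amalg

set_option autoImplicit false
open scoped Manifold
open Pool Pool.MP_f8bbe3_al

namespace Pool.Agent.S02447

/-- Some nonabelian connected compact Lie group A has this property: whenever A embeds in two compact groups B and C, both embed in one compact group D by embeddings that agree on A. -/
theorem result :
    ∃ (A : Type) (_ : Group A) (_ : TopologicalSpace A) (_ : IsTopologicalGroup A)
      (_ : CompactSpace A) (_ : T2Space A) (_ : ConnectedSpace A) (n : ℕ)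
      (_ : ChartedSpace (EuclideanSpace ℝ (Fin n)) A)
      (_ : IsManifold (modelWithCornersSelf ℝ (EuclideanSpace ℝ (Fin n)))
        ((⊤ : ℕ∞) : WithTop ℕ∞) A)
      (_ : LieGroup (modelWithCornersSelf ℝ (EuclideanSpace ℝ (Fin n)))
        ((⊤ : ℕ∞) : WithTop ℕ∞) A),
      (∃ x y : A, x * y ≠ y * x) ∧
      ∀ (B C : Type) [Group B] [TopologicalSpace B] [IsTopologicalGroup B]
        [CompactSpace B] [T2Space B]
        [Group C] [TopologicalSpace C] [IsTopologicalGroup C]
        [CompactSpace C] [T2Space C]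
        (f : ContinuousMonoidHom A B) (g : ContinuousMonoidHom A C),
        Function.Injective f → Function.Injective g →
        ∃ (D : Type) (_ : Group D) (_ : TopologicalSpace D) (_ : IsTopologicalGroup D)
          (_ : CompactSpace D) (_ : T2Space D)
          (h : ContinuousMonoidHom B D) (k : ContinuousMonoidHom C D),
          Function.Injective h ∧ Function.Injective k ∧ ∀ a : A, h (f a) = k (g a) := by
  let i1 : IsManifold (modelWithCornersSelf ℝ (EuclideanSpace ℝ (Fin 3)))
        ((⊤ : ℕ∞) : WithTop ℕ∞) Pool.Agent.Helper189.UnitQuat.S3 :=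
    IsManifold.of_le (n := (⊤ : WithTop ℕ∞)) le_top
  let i2 : LieGroup (modelWithCornersSelf ℝ (EuclideanSpace ℝ (Fin 3)))
        ((⊤ : ℕ∞) : WithTop ℕ∞) Pool.Agent.Helper189.UnitQuat.S3 :=
    LieGroup.of_le (n := (⊤ : WithTop ℕ∞)) le_top
  refine ⟨Pool.Agent.Helper189.UnitQuat.S3, inferInstance, inferInstance, inferInstance,
    inferInstance, inferInstance, inferInstance, 3,
    Pool.Agent.Helper189.UnitQuat.instCh, i1, i2, ?_, ?_⟩
  · exact Pool.Agent.Helper189.UnitQuat.nonabelian
  · intro B C _ _ _ _ _ _ _ _ _ _ f g hf hg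
    obtain ⟨D, i3, i4, i5, i6, i7, φ, ψ, hφ, hφi, hψ, hψi, h⟩ :=
      Pool.Agent.Helper189.UnitQuat.s3_amalgamation B C f.toMonoidHom g.toMonoidHom
        f.continuous_toFun hf g.continuous_toFun hg
    exact ⟨D, i3, i4, i5, i6, i7, ⟨φ, hφ⟩, ⟨ψ, hψ⟩, hφi, hψi, h⟩

end Pool.Agent.S02447
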