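import Pool.Statements.S02457

set_option autoImplicit false

/-! ## MP_fb3574_al, S02457 (positive answer)

Every FC-group lies in the direct variety generated by the groups with finite derived subgroup
(so a fortiori in the one generated by these groups and the FC-groups with quasicyclic derived
subgroup).

Outline.
1. Gluing lemma (`Var.glue`, `lemF`): an FC-group generated by subgroups from the direct variety
   which commute modulo the centre lies in the direct variety.  This uses the case of class at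
   most two (`classTwo`), which is due to helper252 (MP_fb3574_al.ClassTwo).
2. Countable FC-groups (`countable_case`): `G` is generated by `M n` with `[M n, M m] = 1` for
   `|n - m| ≥ 2` and is a quotient of a subgroup of a restricted product of semidirect products.
3. Completion (`exists_Comp`): every FC-group `G` embeds in an FC-group `T` in which every
   finitary locally inner automorphism of `G` is induced by an element.  (An ultrapower provides
   elements inducing these automorphisms; a twist by a bilinear cocycle makes the group an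
   FC-group.)
4. Closed sets and induction on the cardinality (`Comp.mem`).
-/

namespace Pool.Agent.S02457.FCV

section card0

open Cardinal

section closure

variable {Ω : Type} (F : Finset Ω → Set Ω)

/-- closed under the finitary operation `F` -/
def Closed (C : Set Ω) : Prop := ∀ s : Finset Ω, ↑s ⊆ C → F s ⊆ C

/-- the closure -/
def cl (A : Set Ω) : Set Ω := ⋂₀ {C | Closed F C ∧ A ⊆ C}

variable {F}

theorem subset_cl (A : Set Ω) : A ⊆ cl F A := by
  intro x hx C hC
  exact hC.2 hx

theorem cl_closed (A : Set Ω) : Closed F (cl F A) := by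
  intro s hs x hx C hC
  exact hC.1 s (fun y hy => hs hy C hC) hx

theorem cl_min {A C : Set Ω} (hC : Closed F C) (hA : A ⊆ C) : cl F A ⊆ C := by
  intro x hx
  exact hx C ⟨hC, hA⟩

theorem mk_finset_le (α : Type) : #(Finset α) ≤ max ℵ₀ #α := by
  cases finite_or_infinite α with
  | inl h => exact le_max_of_le_left (le_of_lt (lt_aleph0_of_finite _))
  | inr h => rw [mk_finset_of_infinite]; exact le_max_right _ _

/-- one step of the closure -/
def stepC (F : Finset Ω → Set Ω) (S : Set Ω) : Set Ω :=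
  S ∪ ⋃ s : Finset S, F (s.map (Function.Embedding.subtype (· ∈ S)))

/-- the iterated steps -/
def itC (F : Finset Ω → Set Ω) (A : Set Ω) : ℕ → Set Ω
  | 0 => A
  | (n+1) => stepC F (itC F A n)

theorem mk_cl_le (hF : ∀ s, (F s).Countable) (A : Set Ω) : #(cl F A) ≤ max ℵ₀ #A := by
  set κ := max ℵ₀ #A with hκ
  have hB0 : itC F A 0 = A := rfl
  have hBs : ∀ n, itC F A (n+1) = stepC F (itC F A n) := fun n => rfl
  generalize itC F A = B at hB0 hBs
  have hBmono : Monotone B := by
    apply monotone_nat_of_le_succ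
    intro n
    rw [hBs, stepC]
    exact Set.subset_union_left
  have hcard : ∀ n, #(B n) ≤ κ := by
    intro n
    induction n with
    | zero => rw [hB0]; exact le_max_right _ _
    | succ n ih =>
      rw [hBs, stepC]
      refine (mk_union_le _ _).trans ?_
      have h1 : #(⋃ s : Finset (B n), F (s.map (Function.Embedding.subtype (· ∈ B n)))) ≤ κ := by
        refine (mk_iUnion_le _).trans ?_
        have h2 : #(Finset (B n)) ≤ κ :=
          (mk_finset_le _).trans (max_le (le_max_left _ _) ih)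
        have h3 : (⨆ s : Finset (B n), #(F (s.map (Function.Embedding.subtype (· ∈ B n))))) ≤ ℵ₀ := by
          apply ciSup_le'
          intro s
          rw [le_aleph0_iff_set_countable]
          exact hF _
        calc _ ≤ κ * κ := mul_le_mul' h2 (h3.trans (le_max_left _ _))
          _ = κ := mul_eq_self (le_max_left _ _)
      calc _ ≤ κ + κ := add_le_add ih h1
        _ = κ := add_eq_self (le_max_left _ _)
  have hUclosed : Closed F (⋃ n, B n) := by
    intro s hs
    have : ∃ n, ↑s ⊆ B n := by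
      exact (hBmono.directed_le).exists_mem_subset_of_finset_subset_biUnion hs
    obtain ⟨n, hn⟩ := this
    intro x hx
    refine Set.mem_iUnion.mpr ⟨n+1, ?_⟩
    rw [hBs, stepC]
    right
    classical
    refine Set.mem_iUnion.mpr ⟨s.subtype (· ∈ B n), ?_⟩
    have : (s.subtype (· ∈ B n)).map (Function.Embedding.subtype _) = s := by
      rw [Finset.subtype_map]
      exact Finset.filter_true_of_mem (fun x hx => hn hx)
    rw [this]
    exact hx
  have hle : cl F A ⊆ ⋃ n, B n := cl_min hUclosed (by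
    have := Set.subset_iUnion B 0
    rwa [hB0] at this)
  refine (mk_le_mk_of_subset hle).trans ?_
  refine (mk_iUnion_le _).trans ?_
  have h3 : (⨆ n, #(B n)) ≤ κ := ciSup_le' hcard
  calc _ ≤ κ * κ := mul_le_mul' (by rw [mk_nat]; exact le_max_left _ _) h3
    _ = κ := mul_eq_self (le_max_left _ _)

end closure

end card0

section li0

open scoped commutatorElement

section li

variable {G : Type} [Group G]

/-- locally inner maps -/
def LI (f : G → G) : Prop := ∀ s : Finset G, ∃ c : G, ∀ g ∈ s, f g = c⁻¹ * g * c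

/-- displacement -/
def dl (x : MulAut G) (g : G) : G := g⁻¹ * x g

theorem dl_eq (x : MulAut G) (g : G) : x g = g * dl x g := by
  unfold dl; group

theorem dl_mul (x y : MulAut G) (g : G) : dl (x * y) g = dl x g * x (dl y g) := by
  unfold dl
  rw [MulAut.mul_apply, map_mul, map_inv]
  group

theorem dl_inv (x : MulAut G) (g : G) : dl x⁻¹ g = (dl x (x⁻¹ g))⁻¹ := by
  unfold dl
  rw [MulAut.apply_inv_self]
  group

/-- finitary locally inner automorphisms -/
def XX (G : Type) [Group G] : Subgroup (MulAut G) where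
  carrier := {x | LI (x : G → G) ∧ (Set.range (dl x)).Finite}
  one_mem' := by
    refine ⟨fun s => ⟨1, fun g _ => by simp⟩, ?_⟩
    refine (Set.finite_singleton (1 : G)).subset ?_
    rintro _ ⟨g, rfl⟩
    simp [dl]
  mul_mem' := by
    rintro x y ⟨hx, hx'⟩ ⟨hy, hy'⟩
    classical
    constructor
    · intro s
      obtain ⟨c, hc⟩ := hy s
      obtain ⟨d, hd⟩ := hx (s.image y)
      refine ⟨c * d, fun g hg => ?_⟩
      rw [MulAut.mul_apply, hd _ (Finset.mem_image_of_mem _ hg), hc g hg]
      group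
    · refine (hx'.mul (hy'.image x)).subset ?_
      rintro _ ⟨g, rfl⟩
      rw [dl_mul]
      exact Set.mul_mem_mul ⟨g, rfl⟩ ⟨_, ⟨g, rfl⟩, rfl⟩
  inv_mem' := by
    rintro x ⟨hx, hx'⟩
    classical
    constructor
    · intro s
      obtain ⟨c, hc⟩ := hx (s.image (x⁻¹ : MulAut G))
      refine ⟨c⁻¹, fun g hg => ?_⟩
      have := hc _ (Finset.mem_image_of_mem _ hg)
      rw [MulAut.apply_inv_self] at this
      nth_rw 2 [this]
      group
    · refine (hx'.inv).subset ?_
      rintro _ ⟨g, rfl⟩
      rw [dl_inv]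
      exact Set.inv_mem_inv.mpr ⟨_, rfl⟩

theorem LI.center {x : MulAut G} (hx : LI (x : G → G)) {z : G} (hz : z ∈ Subgroup.center G) :
    x z = z := by
  obtain ⟨c, hc⟩ := hx {z}
  rw [hc z (by simp), mul_assoc, ← Subgroup.mem_center_iff.mp hz c]
  group

theorem LI.normal {x : MulAut G} (hx : LI (x : G → G)) {N : Subgroup G} (hN : N.Normal) {g : G}
    (hg : g ∈ N) : x g ∈ N := by
  obtain ⟨c, hc⟩ := hx {g}
  rw [hc g (by simp)]
  have := hN.conj_mem g hg c⁻¹
  simpa using this

theorem LI.dl_comm {x : MulAut G} (hx : LI (x : G → G)) (g : G) : dl x g ∈ commutator G := by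
  obtain ⟨c, hc⟩ := hx {g}
  unfold dl
  rw [hc g (by simp)]
  have : g⁻¹ * (c⁻¹ * g * c) = ⁅g⁻¹, c⁻¹⁆ := by
    rw [commutatorElement_def]; group
  rw [this]
  exact Subgroup.commutator_mem_commutator (Subgroup.mem_top _) (Subgroup.mem_top _)

theorem LI.dl_normal {x : MulAut G} (hx : LI (x : G → G)) {N : Subgroup G} (hN : N.Normal) {g : G}
    (hg : g ∈ N) : dl x g ∈ N := mul_mem (inv_mem hg) (hx.normal hN hg)

/-- finite conjugacy classes -/
def FCG (G : Type) [Group G] : Prop := ∀ g : G, {h : G | IsConj g h}.Finite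

theorem FCG.fin (hFC : FCG G) (g : G) : {u | ∃ c, u = c⁻¹ * g * c}.Finite := by
  refine (hFC g).subset ?_
  rintro _ ⟨c, rfl⟩
  show IsConj g _
  rw [isConj_iff]
  exact ⟨c⁻¹, by simp⟩

theorem conj_mem_XX (hFC : FCG G) (c : G) : MulAut.conj c ∈ XX G := by
  constructor
  · intro s
    exact ⟨c⁻¹, fun g _ => by simp⟩
  · refine ((hFC.fin c).image (fun u => u * c⁻¹)).subset ?_
    rintro _ ⟨g, rfl⟩
    refine ⟨g⁻¹ * c * g, ⟨g, rfl⟩, ?_⟩
    simp only [dl, MulAut.conj_apply]
    group

theorem XX.li {x : MulAut G} (hx : x ∈ XX G) : LI (x : G → G) := hx.1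

theorem XX_classes {x : MulAut G} (hx : x ∈ XX G) :
    {w | ∃ y ∈ XX G, w = y⁻¹ * x * y}.Finite := by
  classical
  set T : Set (MulAut G) := {t | ∃ c, t = (MulAut.conj c)⁻¹ * x * MulAut.conj c} with hT
  have hTf : T.Finite := by
    refine (hx.2.image (fun u => MulAut.conj u * x)).subset ?_
    rintro _ ⟨c, rfl⟩
    refine ⟨dl x c, ⟨c, rfl⟩, ?_⟩
    ext g
    have e1 : ((MulAut.conj c)⁻¹ * x * MulAut.conj c) g = c⁻¹ * x (c * g * c⁻¹) * c := by
      rw [MulAut.mul_apply, MulAut.mul_apply, ← map_inv, MulAut.conj_apply, MulAut.conj_apply,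
        inv_inv]
    have e2 : (MulAut.conj (dl x c) * x) g = (c⁻¹ * x c) * x g * (c⁻¹ * x c)⁻¹ := by
      rw [MulAut.mul_apply, MulAut.conj_apply]
      rfl
    show (MulAut.conj (dl x c) * x) g = _
    rw [e1, e2, map_mul, map_mul, map_inv]
    group
  refine hTf.subset ?_
  rintro u ⟨y, hy, rfl⟩
  by_contra hcon
  set u := y⁻¹ * x * y with hu
  have h1 : ∀ t : MulAut G, ∃ w, t ≠ u → u w ≠ t w := by
    intro t
    by_cases h : t = u
    · exact ⟨1, fun h' => absurd h h'⟩
    · by_contra hc
      push Not at hc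
      apply h
      ext w
      exact (hc w).2.symm
  choose w hw using h1
  obtain ⟨c, hc⟩ := hy.1 (hTf.toFinset.image w ∪ hTf.toFinset.image (fun t => u (w t)))
  set t0 := (MulAut.conj c⁻¹)⁻¹ * x * MulAut.conj c⁻¹ with ht0
  have ht0T : t0 ∈ T := ⟨c⁻¹, rfl⟩
  have hne : t0 ≠ u := by
    intro h
    rw [h] at ht0T
    exact hcon ht0T
  apply hw t0 hne
  have h2 := hc (w t0) (Finset.mem_union_left _ (Finset.mem_image_of_mem _ (hTf.mem_toFinset.mpr ht0T)))
  have h3 := hc (u (w t0)) (Finset.mem_union_right _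
    (Finset.mem_image_of_mem (fun t => u (w t)) (hTf.mem_toFinset.mpr ht0T)))
  have h4 : y (u (w t0)) = x (y (w t0)) := by
    rw [hu]
    simp [MulAut.mul_apply]
  have h5 : t0 (w t0) = c * x (y (w t0)) * c⁻¹ := by
    have : t0 (w t0) = c * x (c⁻¹ * w t0 * c) * c⁻¹ := by
      rw [ht0]
      simp [MulAut.mul_apply, MulAut.conj_apply]
    rw [this, ← h2]
  rw [h5, ← h4, h3]
  group

theorem li_toMulAut (hFC : FCG G) {f : G → G} (hf : LI f) : ∃ x : MulAut G, ∀ g, x g = f g := by
  classical
  have hmul : ∀ a b, f (a * b) = f a * f b := by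
    intro a b
    obtain ⟨c, hc⟩ := hf {a, b, a * b}
    rw [hc a (by simp), hc b (by simp), hc (a * b) (by simp)]
    group
  have hinj : Function.Injective f := by
    intro a b hab
    obtain ⟨c, hc⟩ := hf {a, b}
    rw [hc a (by simp), hc b (by simp)] at hab
    simpa using hab
  have hsurj : Function.Surjective f := by
    intro g
    have hmaps : Set.MapsTo f {u | ∃ c, u = c⁻¹ * g * c} {u | ∃ c, u = c⁻¹ * g * c} := by
      rintro _ ⟨c, rfl⟩
      obtain ⟨d, hd⟩ := hf {c⁻¹ * g * c}
      refine ⟨c * d, ?_⟩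
      rw [hd _ (by simp)]
      group
    have := (hFC.fin g).to_subtype
    have hs : Function.Surjective (hmaps.restrict f _ _) := by
      apply Finite.surjective_of_injective
      intro a b hab
      exact Subtype.ext (hinj (congrArg Subtype.val hab))
    obtain ⟨u, hu⟩ := hs ⟨g, 1, by simp⟩
    exact ⟨u.1, congrArg Subtype.val hu⟩
  exact ⟨MulEquiv.ofBijective (MonoidHom.mk' f hmul) ⟨hinj, hsurj⟩, fun g => rfl⟩

theorem exists_finite_reps {A B : Type} (f : A → B) (h : (Set.range f).Finite) :
    ∃ T : Finset A, ∀ a, ∃ t ∈ T, f a = f t := by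
  classical
  have := h.to_subtype
  choose r hr using fun b : Set.range f => b.2
  have := Fintype.ofFinite (Set.range f)
  refine ⟨Finset.univ.image r, fun a => ⟨r ⟨f a, a, rfl⟩, ?_, ?_⟩⟩
  · exact Finset.mem_image_of_mem _ (Finset.mem_univ _)
  · exact (hr ⟨f a, a, rfl⟩).symm

theorem lemmaA (hFC : FCG G) (R : Subgroup G) (hRn : R.Normal) (hR : (R : Set G).Finite) :
    ∃ S : Finset G, ∀ H : Subgroup G, ↑S ⊆ (H : Set G) → ∀ y : MulAut G,
      (∀ h ∈ H, dl y h ∈ R) → (∀ s ∈ S, y s = s) → ∀ h ∈ H, dl y h ∈ Subgroup.center G := by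
  classical
  have := hR.to_subtype
  obtain ⟨T, hT⟩ : ∃ T : Finset G, ∀ g, ∃ t ∈ T, (fun r : R => g⁻¹ * r.1 * g) =
      (fun r : R => t⁻¹ * r.1 * t) := by
    apply exists_finite_reps (fun (g : G) (r : R) => g⁻¹ * r.1 * g)
    refine (Set.Finite.pi' (fun r : R => hFC.fin r.1)).subset ?_
    rintro _ ⟨g, rfl⟩ r
    exact ⟨g, rfl⟩
  have hfin : (↑T ∪ (R : Set G) ∪ ⋃ t ∈ T, (fun u => u * t) '' {u | ∃ c, u = c⁻¹ * t⁻¹ * c}).Finite := by
    refine ((T.finite_toSet.union hR).union ?_)
    exact Set.Finite.biUnion T.finite_toSet (fun t _ => (hFC.fin t⁻¹).image _)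
  refine ⟨hfin.toFinset, ?_⟩
  intro H hSH y hy hyS h hh
  have hS : ∀ g, g ∈ (↑T ∪ (R : Set G) ∪ ⋃ t ∈ T, (fun u => u * t) '' {u | ∃ c, u = c⁻¹ * t⁻¹ * c}) →
      y g = g ∧ g ∈ H := by
    intro g hg
    have hg' := hfin.mem_toFinset.mpr hg
    exact ⟨hyS g hg', hSH hg'⟩
  have hT' : ∀ t ∈ T, y t = t ∧ t ∈ H := fun t ht => hS t (Or.inl (Or.inl ht))
  have hc' : ∀ t ∈ T, ∀ g, y (g⁻¹ * t⁻¹ * g * t) = g⁻¹ * t⁻¹ * g * t := by
    intro t ht g
    refine (hS _ (Or.inr ?_)).1
    simp only [Set.mem_iUnion]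
    exact ⟨t, ht, _, ⟨g, rfl⟩, rfl⟩
  obtain ⟨t, ht, hteq⟩ := hT h
  have hteq' : ∀ r ∈ R, h⁻¹ * r * h = t⁻¹ * r * t := fun r hr => congrFun hteq ⟨r, hr⟩
  set g := h * t⁻¹ with hg
  have hgH : g ∈ H := mul_mem hh (inv_mem (hT' t ht).2)
  have hgc : ∀ r ∈ R, g * r = r * g := by
    intro r hr
    have := hteq' r hr
    have h2 : r * h = h * (t⁻¹ * r * t) := by rw [← this]; group
    have h3 : r * g = g * r := by
      rw [hg]
      calc r * (h * t⁻¹) = (r * h) * t⁻¹ := by group
        _ = h * t⁻¹ * r := by rw [h2]; group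
    exact h3.symm
  set r := dl y g with hr
  have hrR : r ∈ R := hy g hgH
  have hyg : y g = g * r := dl_eq y g
  have hcommT : ∀ s ∈ T, s⁻¹ * r * s = r := by
    intro s hs
    have e1 : y (s⁻¹ * g * s) = s⁻¹ * (g * r) * s := by
      rw [map_mul, map_mul, map_inv, hyg, (hT' s hs).1]
    have e2 : y (s⁻¹ * g * s) = g * r * (g⁻¹ * s⁻¹ * g * s) := by
      have : s⁻¹ * g * s = g * (g⁻¹ * s⁻¹ * g * s) := by group
      rw [this, map_mul, hyg, hc' s hs g]
    have e3 : g * r * (g⁻¹ * s⁻¹ * g * s) = r * (s⁻¹ * g * s) := by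
      rw [hgc r hrR]; group
    -- s⁻¹ g s commutes with R
    have e4 : (s⁻¹ * g * s) * r = r * (s⁻¹ * g * s) := by
      have hr' : s * r * s⁻¹ ∈ R := hRn.conj_mem r hrR s
      have := hgc _ hr'
      calc (s⁻¹ * g * s) * r = s⁻¹ * (g * (s * r * s⁻¹)) * s := by group
        _ = s⁻¹ * ((s * r * s⁻¹) * g) * s := by rw [this]
        _ = _ := by group
    have e5 : (s⁻¹ * g * s) * (s⁻¹ * r * s) = (s⁻¹ * g * s) * r := by
      rw [e4, ← e3, ← e2, e1]; group
    exact mul_left_cancel e5
  have hcen : r ∈ Subgroup.center G := by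
    rw [Subgroup.mem_center_iff]
    intro a
    obtain ⟨s, hs, hseq⟩ := hT a
    have h1 : a⁻¹ * r * a = s⁻¹ * r * s := congrFun hseq ⟨r, hrR⟩
    rw [hcommT s hs] at h1
    calc a * r = a * (a⁻¹ * r * a) := by rw [h1]
      _ = r * a := by group
  have : dl y h = r := by
    have hh' : h = g * t := by rw [hg]; group
    unfold dl
    rw [hh', map_mul, hyg, (hT' t ht).1]
    calc (g * t)⁻¹ * (g * r * t) = t⁻¹ * r * t := by group
      _ = r := hcommT t ht
  rw [this]
  exact hcen

theorem compactness (hFC : FCG G) (S : Finset G) (σ : G → G) (R : Set G) (hR : R.Finite)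
    (h : ∀ W : Finset G, ∃ x ∈ XX G, (∀ s ∈ S, x s = σ s) ∧ ∀ w ∈ W, dl x w ∈ R) :
    ∃ x ∈ XX G, (∀ s ∈ S, x s = σ s) ∧ ∀ g, dl x g ∈ R := by
  classical
  choose x hx hxS hxR using h
  let U : Ultrafilter (Finset G) := Ultrafilter.of Filter.atTop
  have hU : (U : Filter (Finset G)) ≤ Filter.atTop := Ultrafilter.of_le _
  have hval : ∀ g, ∃ v, ∀ᶠ W in (U : Filter (Finset G)), x W g = v := by
    intro g
    have hmem : (⋃ v ∈ {u | ∃ c, u = c⁻¹ * g * c}, {W | x W g = v}) ∈ U := by
      have : (⋃ v ∈ {u | ∃ c, u = c⁻¹ * g * c}, {W | x W g = v}) = Set.univ := by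
        rw [Set.eq_univ_iff_forall]
        intro W
        simp only [Set.mem_iUnion]
        obtain ⟨c, hc⟩ := (hx W).1 {g}
        exact ⟨x W g, ⟨c, hc g (by simp)⟩, rfl⟩
      rw [this]
      exact Filter.univ_mem
    rw [Ultrafilter.finite_biUnion_mem_iff (hFC.fin g)] at hmem
    obtain ⟨v, _, hv⟩ := hmem
    exact ⟨v, hv⟩
  choose φ hφ using hval
  have hLI : LI φ := by
    intro s
    have : ∀ᶠ W in (U : Filter (Finset G)), ∀ g ∈ s, x W g = φ g := by
      rw [Filter.eventually_all_finset]
      intro g _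
      exact hφ g
    obtain ⟨W, hW⟩ := this.exists
    obtain ⟨c, hc⟩ := (hx W).1 s
    exact ⟨c, fun g hg => by rw [← hW g hg, hc g hg]⟩
  obtain ⟨y, hy⟩ := li_toMulAut hFC hLI
  have hyR : ∀ g, dl y g ∈ R := by
    intro g
    have h1 : ∀ᶠ W in (U : Filter (Finset G)), {g} ≤ W :=
      (Filter.eventually_ge_atTop {g}).filter_mono hU
    obtain ⟨W, hW1, hW2⟩ := (h1.and (hφ g)).exists
    have := hxR W g (hW1 (Finset.mem_singleton_self g))
    unfold dl at this ⊢
    rw [hy, ← hW2]
    exact this
  refine ⟨y, ⟨?_, ?_⟩, ?_, hyR⟩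
  · have : (y : G → G) = φ := funext hy
    rw [this]
    exact hLI
  · refine hR.subset ?_
    rintro _ ⟨g, rfl⟩
    exact hyR g
  · intro s hs
    obtain ⟨W, hW⟩ := (hφ s).exists
    rw [hy, ← hW]
    exact hxS W s hs

theorem lemmaB0 (hFC : FCG G) (R : Subgroup G) (hRn : R.Normal) (hR : (R : Set G).Finite) :
    ∃ (W : Finset G) (K : Set (MulAut G)), K.Finite ∧ (∀ k ∈ K, k ∈ XX G) ∧
      ∀ H : Subgroup G, ↑W ⊆ (H : Set G) → ∀ x ∈ XX G, (∀ h ∈ H, dl x h ∈ R) →
        ∃ k ∈ K, ∀ h ∈ H, dl (k⁻¹ * x) h ∈ Subgroup.center G := by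
  classical
  obtain ⟨S, hS⟩ := lemmaA hFC R hRn hR
  set TT : Set (S → G) := {σ | ∃ x ∈ XX G, ∀ s, σ s = x s.1} with hTT
  have hTf : TT.Finite := by
    refine (Set.Finite.pi' (fun s : S => hFC.fin s.1)).subset ?_
    rintro σ ⟨x, hx, hσ⟩ s
    obtain ⟨c, hc⟩ := hx.1 {s.1}
    exact ⟨c, by rw [hσ s, hc _ (by simp)]⟩
  have hex : ∀ σ : S → G, ∃ (W : Finset G) (k : MulAut G), k ∈ XX G ∧
      (((∀ s, σ s = k s.1) ∧ ∀ g, dl k g ∈ R) ∨
        ∀ x ∈ XX G, (∀ s, σ s = x s.1) → ∃ w ∈ W, dl x w ∉ R) := by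
    intro σ
    by_cases h : ∃ k ∈ XX G, (∀ s, σ s = k s.1) ∧ ∀ g, dl k g ∈ R
    · obtain ⟨k, hk, h1⟩ := h
      exact ⟨∅, k, hk, Or.inl h1⟩
    · have : ∃ W : Finset G, ∀ x ∈ XX G, (∀ s, σ s = x s.1) → ∃ w ∈ W, dl x w ∉ R := by
        by_contra hcon
        push Not at hcon
        apply h
        obtain ⟨x, hx, hx1, hx2⟩ := compactness hFC S
          (fun g => if hg : g ∈ S then σ ⟨g, hg⟩ else 1) R hR (by
            intro W
            obtain ⟨x, hx, h1, h2⟩ := hcon W
            refine ⟨x, hx, fun s hs => ?_, h2⟩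
            simp only [hs, dif_pos]
            exact (h1 ⟨s, hs⟩).symm)
        refine ⟨x, hx, fun s => ?_, hx2⟩
        rw [hx1 s.1 s.2]
        simp
      obtain ⟨W, hW⟩ := this
      exact ⟨W, 1, one_mem _, Or.inr hW⟩
  choose Wf kf hkf hWk using hex
  refine ⟨S ∪ hTf.toFinset.biUnion Wf, kf '' TT, hTf.image _, ?_, ?_⟩
  · rintro _ ⟨σ, _, rfl⟩
    exact hkf σ
  · intro H hWH x hx hxR
    set σ : S → G := fun s => x s.1 with hσ
    have hσT : σ ∈ TT := ⟨x, hx, fun s => rfl⟩
    rcases hWk σ with ⟨h1, h2⟩ | h1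
    · refine ⟨kf σ, ⟨σ, hσT, rfl⟩, ?_⟩
      apply hS H
      · intro s hs
        exact hWH (Finset.mem_coe.mpr (Finset.mem_union_left _ hs))
      · intro h hh
        rw [dl_mul, dl_inv]
        refine mul_mem (inv_mem (h2 _)) ?_
        have hk := (inv_mem (hkf σ) : (kf σ)⁻¹ ∈ XX G)
        exact hk.1.normal hRn (hxR h hh)
      · intro s hs
        rw [MulAut.mul_apply]
        have := h1 ⟨s, hs⟩
        rw [hσ] at this
        simp only at this
        rw [this, MulAut.inv_apply_self]
    · obtain ⟨w, hw, hw'⟩ := h1 x hx (fun s => rfl)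
      exfalso
      apply hw'
      apply hxR
      apply hWH
      rw [Finset.mem_coe]
      exact Finset.mem_union_right _ (Finset.mem_biUnion.mpr ⟨σ, hTf.mem_toFinset.mpr hσT, hw⟩)

end li

end li0

end Pool.Agent.S02457.FCV

namespace Pool.Agent.S02457.FCV

open scoped commutatorElement Pointwise

section var

/-- direct variety containing all groups with finite derived subgroup -/
structure Var (C : ∀ (G : Type) [Group G], Prop) : Prop where
  iso : ∀ (G H : Type) [Group G] [Group H], (G ≃* H) → C G → C H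
  sub : ∀ (G : Type) [Group G] (H : Subgroup G), C G → C ↥H
  quot : ∀ (G : Type) [Group G] (N : Subgroup G) [N.Normal], C G → C (G ⧸ N)
  prod : ∀ (ι : Type) [DecidableEq ι] (G : ι → Type) [∀ i, Group (G i)],
    (∀ i, C (G i)) → C ↥(⨆ i, (MonoidHom.mulSingle G i).range)
  fin : ∀ (G : Type) [Group G], Finite ↥(commutator G) → C G

variable {C : ∀ (G : Type) [Group G], Prop}

theorem Var.inj (hC : Var C) {H G : Type} [Group H] [Group G] (f : H →* G)
    (hf : Function.Injective f) (h : C G) : C H :=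
  hC.iso _ _ (MonoidHom.ofInjective hf).symm (hC.sub _ _ h)

theorem Var.surj (hC : Var C) {H G : Type} [Group H] [Group G] (f : G →* H)
    (hf : Function.Surjective f) (h : C G) : C H :=
  hC.iso _ _ (QuotientGroup.quotientKerEquivOfSurjective f hf) (hC.quot _ _ h)

theorem Var.sec (hC : Var C) {S P T : Type} [Group S] [Group P] [Group T] (f : S →* P)
    (g : S →* T) (hg : Function.Surjective g) (hk : ∀ s, f s = 1 → g s = 1) (h : C P) : C T := by
  have h1 : C f.range := hC.sub _ _ h
  have hk' : f.rangeRestrict.ker ≤ g.ker := by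
    intro s hs
    rw [MonoidHom.ker_rangeRestrict] at hs
    exact hk s hs
  let u : f.range →* T :=
    MonoidHom.liftOfSurjective f.rangeRestrict f.rangeRestrict_surjective ⟨g, hk'⟩
  have hu : Function.Surjective u := by
    intro t
    obtain ⟨s, hs⟩ := hg t
    refine ⟨f.rangeRestrict s, ?_⟩
    have := MonoidHom.liftOfRightInverse_comp_apply f.rangeRestrict _
      (Function.rightInverse_surjInv f.rangeRestrict_surjective) ⟨g, hk'⟩ s
    exact this.trans hs
  exact hC.surj u hu h1

theorem mem_restricted {ι : Type} [DecidableEq ι] (K : ι → Type) [∀ i, Group (K i)]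
    (x : ∀ i, K i) (hx : {i | x i ≠ 1}.Finite) :
    x ∈ (⨆ i, (MonoidHom.mulSingle K i).range) := by
  apply Submonoid.pi_mem_of_mulSingle_mem_aux hx.toFinset
  · intro i hi
    by_contra h
    exact hi (by simpa using h)
  · intro i _
    exact (le_iSup (fun i => (MonoidHom.mulSingle K i).range) i) ⟨x i, rfl⟩

theorem Var.subdirect (hC : Var C) {ι : Type} (K : ι → Type) [∀ i, Group (K i)]
    (hK : ∀ i, C (K i)) {S T : Type} [Group S] [Group T] (f : ∀ i, S →* K i)
    (hfin : ∀ s, {i | f i s ≠ 1}.Finite) (g : S →* T) (hg : Function.Surjective g)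
    (hk : ∀ s, (∀ i, f i s = 1) → g s = 1) : C T := by
  classical
  let F : S →* ↥(⨆ i, (MonoidHom.mulSingle K i).range) :=
    MonoidHom.mk' (fun s => ⟨fun i => f i s, mem_restricted K _ (hfin s)⟩) (by
      intro a b
      apply Subtype.ext
      funext i
      exact map_mul (f i) a b)
  refine hC.sec F g hg ?_ (hC.prod _ K hK)
  intro s hs
  apply hk
  intro i
  exact congrFun (congrArg Subtype.val hs) i

/-- two groups as a family -/
def BK (G H : Type) : Bool → Type
  | true => G
  | false => H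

instance BKg (G H : Type) [Group G] [Group H] : ∀ b, Group (BK G H b)
  | true => (inferInstance : Group G)
  | false => (inferInstance : Group H)

/-- the projections -/
def BKf (G H : Type) [Group G] [Group H] : ∀ b, (G × H) →* BK G H b
  | true => MonoidHom.fst G H
  | false => MonoidHom.snd G H

theorem Var.prod2 (hC : Var C) {G H : Type} [Group G] [Group H] (hG : C G) (hH : C H) :
    C (G × H) := by
  refine hC.subdirect (BK G H) ?_ (BKf G H) (fun s => Set.toFinite _) (MonoidHom.id _)
    Function.surjective_id ?_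
  · intro b
    cases b
    · exact hH
    · exact hG
  · intro s hs
    exact Prod.ext (hs true) (hs false)

/-- a family and one more factor -/
theorem Var.subdirect2 (hC : Var C) {ι : Type} (K : ι → Type) [∀ i, Group (K i)]
    (hK : ∀ i, C (K i)) {P S T : Type} [Group S] [Group T] [Group P] (hP : C P) (f : ∀ i, S →* K i)
    (q : S →* P)
    (hfin : ∀ s, {i | f i s ≠ 1}.Finite) (g : S →* T) (hg : Function.Surjective g)
    (hk : ∀ s, (∀ i, f i s = 1) → q s = 1 → g s = 1) : C T := by
  classical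
  let F : S →* ↥(⨆ i, (MonoidHom.mulSingle K i).range) :=
    MonoidHom.mk' (fun s => ⟨fun i => f i s, mem_restricted K _ (hfin s)⟩) (by
      intro a b
      apply Subtype.ext
      funext i
      exact map_mul (f i) a b)
  refine hC.sec (F.prod q) g hg ?_ (hC.prod2 (hC.prod _ K hK) hP)
  intro s hs
  have hs1 : F s = 1 := congrArg Prod.fst hs
  have hs2 : q s = 1 := congrArg Prod.snd hs
  refine hk s ?_ hs2
  intro i
  exact congrFun (congrArg Subtype.val hs1) i

end var

section commfam

/-- elements commuting with `k` modulo `A` -/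
def cmod {K : Type} [Group K] (A : Subgroup K) [A.Normal] (k : K) : Subgroup K :=
  (Subgroup.centralizer {(QuotientGroup.mk' A k)}).comap (QuotientGroup.mk' A)

theorem mem_cmod {K : Type} [Group K] (A : Subgroup K) [A.Normal] (k y : K) :
    y ∈ cmod A k ↔ ⁅k, y⁆ ∈ A := by
  unfold cmod
  rw [Subgroup.mem_comap, Subgroup.mem_centralizer_singleton_iff,
    ← QuotientGroup.eq_one_iff (N := A)]
  have : ((⁅k, y⁆ : K) : K ⧸ A) = ⁅QuotientGroup.mk' A k, QuotientGroup.mk' A y⁆ := by
    rw [← map_commutatorElement]; rfl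
  rw [this, commutatorElement_eq_one_iff_mul_comm]
  exact eq_comm

variable {K : Type} [Group K] {ι : Type} {B : ι → Type} [∀ i, Group (B i)]

theorem comm_family (Φ : ∀ i, B i →* K) (A : Subgroup K) [A.Normal]
    (hcomm : ∀ i j, i ≠ j → ∀ b b', ⁅Φ i b, Φ j b'⁆ ∈ A)
    {D : ι → Type} [∀ i, Group (D i)] (p : ∀ i, K →* D i) (hpA : ∀ i, ∀ a ∈ A, p i a = 1)
    (hp : ∀ i j, i ≠ j → ∀ b, p i (Φ j b) = 1) (hinj : ∀ i b, p i (Φ i b) = 1 → b = 1)
    (x : K) (hx : x ∈ (⨆ i, (Φ i).range) ⊔ A) (h1 : ∀ i, p i x = 1) : x ∈ A := by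
  classical
  let S : Finset ι → Subgroup K := fun s => (⨆ i ∈ s, (Φ i).range) ⊔ A
  have hSA : ∀ s, A ≤ S s := fun s => le_sup_right
  -- `p j` kills `S s` if `j ∉ s`
  have hS1 : ∀ s : Finset ι, ∀ j ∉ s, ∀ y ∈ S s, p j y = 1 := by
    intro s j hj y hy
    have : S s ≤ (p j).ker := by
      refine sup_le ?_ (fun a ha => hpA j a ha)
      refine iSup₂_le ?_
      rintro i hi _ ⟨b, rfl⟩
      refine hp j i ?_ b
      rintro rfl
      exact hj hi
    exact this hy
  have hS2 : ∀ s : Finset ι, ∀ j ∉ s, ∀ b, ∀ y ∈ S s, ⁅Φ j b, y⁆ ∈ A := by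
    intro s j hj b y hy
    have : S s ≤ cmod A (Φ j b) := by
      refine sup_le ?_ ?_
      · refine iSup₂_le ?_
        rintro i hi _ ⟨b', rfl⟩
        rw [mem_cmod]
        refine hcomm j i ?_ b b'
        rintro rfl
        exact hj hi
      · intro a ha
        rw [mem_cmod, commutatorElement_def]
        exact mul_mem (Subgroup.Normal.conj_mem inferInstance a ha _) (inv_mem ha)
    exact (mem_cmod _ _ _).mp (this hy)
  have hS3 : ∀ s : Finset ι, ∀ j ∉ s, ∀ x ∈ S (insert j s), ∃ b, ∃ y ∈ S s, x = Φ j b * y := by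
    intro s j hj x hx
    have e : S (insert j s) = (Φ j).range ⊔ S s := by
      show (⨆ i ∈ insert j s, (Φ i).range) ⊔ A = (Φ j).range ⊔ ((⨆ i ∈ s, (Φ i).range) ⊔ A)
      rw [Finset.iSup_insert, sup_assoc]
    have hn : (Φ j).range ≤ Subgroup.normalizer (S s : Set K) := by
      rintro _ ⟨b, rfl⟩
      have key : ∀ b, ∀ y ∈ S s, Φ j b * y * (Φ j b)⁻¹ ∈ S s := by
        intro b y hy
        have h3 := hSA s (hS2 s j hj b y hy)
        have : Φ j b * y * (Φ j b)⁻¹ = ⁅Φ j b, y⁆ * y := by
          rw [commutatorElement_def]; group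
        rw [this]
        exact mul_mem h3 hy
      rw [Subgroup.mem_normalizer_iff]
      intro y
      constructor
      · exact key b y
      · intro h
        have := key b⁻¹ _ h
        simpa [mul_assoc] using this
    have hx' : x ∈ ((Φ j).range : Set K) * (S s : Set K) := by
      rw [← Subgroup.coe_mul_of_left_le_normalizer_right _ _ hn, ← e]
      exact hx
    obtain ⟨_, ⟨b, rfl⟩, y, hy, rfl⟩ := Set.mem_mul.mp hx'
    exact ⟨b, y, hy, rfl⟩
  have hS4 : ∀ s : Finset ι, ∀ x ∈ S s, (∀ i ∈ s, p i x = 1) → x ∈ A := by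
    intro s
    induction s using Finset.induction_on with
    | empty =>
      intro x hx _
      have : S ∅ = A := by
        show (⨆ i ∈ (∅ : Finset ι), (Φ i).range) ⊔ A = A
        simp
      rwa [this] at hx
    | insert j s hj ih =>
      intro x hx h
      obtain ⟨b, y, hy, rfl⟩ := hS3 s j hj x hx
      have h2 := h j (Finset.mem_insert_self _ _)
      rw [map_mul, hS1 s j hj y hy, mul_one] at h2
      have h3 := hinj j b h2
      rw [h3, map_one, one_mul] at h ⊢
      exact ih y hy (fun i hi => h i (Finset.mem_insert_of_mem hi))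
  -- finite support
  have hS5 : ∃ s : Finset ι, x ∈ S s := by
    have hdir : Directed (· ≤ ·) S := by
      intro s t
      refine ⟨s ∪ t, ?_, ?_⟩
      · exact sup_le_sup_right (biSup_mono (fun i hi => Finset.mem_union_left _ hi)) _
      · exact sup_le_sup_right (biSup_mono (fun i hi => Finset.mem_union_right _ hi)) _
    have hle : (⨆ i, (Φ i).range) ⊔ A ≤ ⨆ s, S s := by
      refine sup_le (iSup_le ?_) ((hSA ∅).trans (le_iSup S ∅))
      intro i
      refine le_trans ?_ (le_iSup S {i})
      refine le_trans ?_ le_sup_left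
      exact le_biSup (fun i => (Φ i).range) (Finset.mem_singleton_self i)
    exact (Subgroup.mem_iSup_of_directed hdir).mp (hle hx)
  obtain ⟨s, hs⟩ := hS5
  exact hS4 s x hs (fun i _ => h1 i)

end commfam

section glue

variable {C : ∀ (G : Type) [Group G], Prop}

/-- The gluing lemma. -/
theorem Var.glue (hC : Var C) {ι : Type} (B : ι → Type) [∀ i, Group (B i)]
    (hB : ∀ i, C (B i)) {P T : Type} [Group P] [Group T] (hP : C P)
    (φ : ∀ i, B i →* P) (ψ : ∀ i, B i →* T) (A : Subgroup (P × T)) [A.Normal]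
    (hA : ∀ t : T, (1, t) ∈ A → t = 1)
    (hc : ∀ i j, i ≠ j → ∀ b b', ⁅(φ i b, ψ i b), (φ j b', ψ j b')⁆ ∈ A)
    (hgen : (⨆ i, (ψ i).range) = ⊤) : C T := by
  classical
  let Φ : ∀ i, B i →* ((∀ i, B i) × (P × T)) := fun i =>
    (MonoidHom.mulSingle B i).prod ((φ i).prod (ψ i))
  let S : Subgroup ((∀ i, B i) × (P × T)) := ⨆ i, (Φ i).range
  let A' : Subgroup ((∀ i, B i) × (P × T)) := (⊥ : Subgroup (∀ i, B i)).prod A
  have hA'n : A'.Normal := Subgroup.prod_normal _ _
  have hmem : ∀ i b, Φ i b ∈ S := fun i b => (le_iSup (fun i => (Φ i).range) i) ⟨b, rfl⟩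
  refine hC.subdirect2 (S := S) B hB hP
    (fun i => (Pi.evalMonoidHom B i).comp ((MonoidHom.fst _ _).comp S.subtype))
    ((MonoidHom.fst P T).comp ((MonoidHom.snd _ _).comp S.subtype)) ?_
    ((MonoidHom.snd P T).comp ((MonoidHom.snd _ _).comp S.subtype)) ?_ ?_
  · rintro ⟨s, hs⟩
    show {i | s.1 i ≠ 1}.Finite
    -- finite support
    let R : Subgroup ((∀ i, B i) × (P × T)) :=
      { carrier := {s | {i | s.1 i ≠ 1}.Finite}
        one_mem' := by simp
        mul_mem' := by
          intro a b ha hb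
          refine (ha.union hb).subset ?_
          intro i hi
          by_contra hcon
          apply hi
          simp only [Set.mem_union, Set.mem_ofPred_eq, not_or, not_not] at hcon
          show a.1 i * b.1 i = 1
          rw [hcon.1, hcon.2, one_mul]
        inv_mem' := by
          intro a ha
          refine Set.Finite.subset ha ?_
          intro i hi hcon
          apply hi
          show (a.1 i)⁻¹ = 1
          rw [hcon, inv_one] }
    have : S ≤ R := by
      refine iSup_le ?_
      rintro i _ ⟨b, rfl⟩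
      refine (Set.finite_singleton i).subset ?_
      intro j hj
      by_contra hne
      apply hj
      show Pi.mulSingle i b j = 1
      exact Pi.mulSingle_eq_of_ne hne b
    exact this hs
  · intro t
    have ht : t ∈ ⨆ i, (ψ i).range := by rw [hgen]; trivial
    have : (⨆ i, (ψ i).range) ≤
        ((MonoidHom.snd P T).comp ((MonoidHom.snd _ _).comp S.subtype)).range := by
      refine iSup_le ?_
      rintro i _ ⟨b, rfl⟩
      exact ⟨⟨Φ i b, hmem i b⟩, rfl⟩
    exact this ht
  · rintro ⟨s, hs⟩ h1 h2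
    have h1' : s.1 = 1 := funext h1
    have h2' : s.2.1 = 1 := h2
    have key : s ∈ A' := by
      refine comm_family Φ A' ?_ (D := B)
        (fun i => (Pi.evalMonoidHom B i).comp (MonoidHom.fst _ _)) ?_ ?_ ?_ s
        ((le_sup_left : S ≤ S ⊔ A') hs) h1
      · intro i j hij b b'
        refine ⟨?_, ?_⟩
        · show ⁅Pi.mulSingle i b, Pi.mulSingle j b'⁆ = 1
          rw [commutatorElement_eq_one_iff_mul_comm]
          exact Pi.mulSingle_commute hij b b'
        · exact hc i j hij b b'
      · rintro i a ⟨ha, _⟩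
        have : a.1 = 1 := ha
        show a.1 i = 1
        rw [this]; rfl
      · intro i j hij b
        show Pi.mulSingle j b i = 1
        exact Pi.mulSingle_eq_of_ne hij b
      · intro i b hb
        have : Pi.mulSingle (M := B) i b i = 1 := hb
        rwa [Pi.mulSingle_eq_same] at this
    have h3 : s.2 ∈ A := key.2
    show s.2.2 = 1
    apply hA
    rw [← h2']
    exact h3

end glue

end Pool.Agent.S02457.FCV

/-! The results of this file are due to helper252 (MP_fb3574_al.ClassTwo). -/

namespace Pool.Agent.S02457.FCV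

open scoped commutatorElement IsMulCommutative

/-- FC-groups: all conjugacy classes are finite. -/
def IsFC (G : Type) [Group G] : Prop := ∀ g : G, {h : G | IsConj g h}.Finite

/-- The class of groups with finite derived subgroup. -/
def FinDerived (G : Type) [Group G] : Prop := Finite ↥(commutator G)

/-! ### Heisenberg type groups -/

/-- The group on `A × L` with product `(a, l)(a', l') = (a + a' + B l l', l + l')`. -/
@[ext] structure Hs {A L : Type} [AddCommGroup A] [AddCommGroup L] (B : L →+ L →+ A) where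
  z : A
  v : L

namespace Hs

variable {A L : Type} [AddCommGroup A] [AddCommGroup L] {B : L →+ L →+ A}

instance : Mul (Hs B) := ⟨fun x y => ⟨x.z + y.z + B x.v y.v, x.v + y.v⟩⟩
instance : One (Hs B) := ⟨⟨0, 0⟩⟩
instance : Inv (Hs B) := ⟨fun x => ⟨-x.z + B x.v x.v, -x.v⟩⟩

@[simp] theorem mul_z (x y : Hs B) : (x * y).z = x.z + y.z + B x.v y.v := rfl
@[simp] theorem mul_v (x y : Hs B) : (x * y).v = x.v + y.v := rfl
@[simp] theorem one_z : (1 : Hs B).z = 0 := rfl
@[simp] theorem one_v : (1 : Hs B).v = 0 := rfl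
@[simp] theorem inv_z (x : Hs B) : (x⁻¹).z = -x.z + B x.v x.v := rfl
@[simp] theorem inv_v (x : Hs B) : (x⁻¹).v = -x.v := rfl

instance : Group (Hs B) := Group.ofLeftAxioms
  (by
    intro x y w
    ext
    · simp only [mul_z, mul_v, map_add, AddMonoidHom.add_apply]; abel
    · simp only [mul_v]; abel)
  (by
    intro x
    ext <;> simp)
  (by
    intro x
    ext <;> simp)

theorem comm_v (x y : Hs B) : (⁅x, y⁆).v = 0 := by
  simp [commutatorElement_def]

theorem comm_z (x y : Hs B) : (⁅x, y⁆).z = B x.v y.v - B y.v x.v := by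
  simp only [commutatorElement_def, mul_z, mul_v, inv_z, inv_v, map_add, map_neg,
    AddMonoidHom.add_apply, AddMonoidHom.neg_apply]
  abel

/-- Functoriality. -/
def map {A' L' : Type} [AddCommGroup A'] [AddCommGroup L'] {B' : L' →+ L' →+ A'}
    (f : A →+ A') (g : L →+ L') (h : ∀ l l', B' (g l) (g l') = f (B l l')) :
    Hs B →* Hs B' where
  toFun x := ⟨f x.z, g x.v⟩
  map_one' := by ext <;> simp
  map_mul' x y := by
    ext
    · simp [h]
    · simp

@[simp] theorem map_z {A' L' : Type} [AddCommGroup A'] [AddCommGroup L'] {B' : L' →+ L' →+ A'}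
    (f : A →+ A') (g : L →+ L') (h : ∀ l l', B' (g l) (g l') = f (B l l')) (x : Hs B) :
    (map f g h x).z = f x.z := rfl

@[simp] theorem map_v {A' L' : Type} [AddCommGroup A'] [AddCommGroup L'] {B' : L' →+ L' →+ A'}
    (f : A →+ A') (g : L →+ L') (h : ∀ l l', B' (g l) (g l') = f (B l l')) (x : Hs B) :
    (map f g h x).v = g x.v := rfl

/-- The subgroup `{(a, 0) : a ∈ F}`. -/
def sub (B : L →+ L →+ A) (F : AddSubgroup A) : Subgroup (Hs B) where
  carrier := {x | x.z ∈ F ∧ x.v = 0}
  one_mem' := ⟨F.zero_mem, rfl⟩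
  mul_mem' := by
    rintro x y ⟨hx, hx'⟩ ⟨hy, hy'⟩
    refine ⟨?_, ?_⟩
    · simp [hx', F.add_mem hx hy]
    · simp [hx', hy']
  inv_mem' := by
    rintro x ⟨hx, hx'⟩
    refine ⟨?_, ?_⟩
    · simp [hx', hx]
    · simp [hx']

theorem finDerived (F : AddSubgroup A) (hF : Finite F) (hB : ∀ l l', B l l' ∈ F) :
    FinDerived (Hs B) := by
  have h1 : commutator (Hs B) ≤ sub B F := by
    rw [commutator_def, Subgroup.commutator_le]
    intro x _ y _
    refine ⟨?_, comm_v x y⟩
    rw [comm_z]
    exact F.sub_mem (hB _ _) (hB _ _)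
  have h2 : Finite (sub B F) := by
    refine Finite.of_injective (fun x : sub B F => (⟨x.1.z, x.2.1⟩ : F)) ?_
    rintro ⟨x, hx⟩ ⟨y, hy⟩ h
    simp only [Subtype.mk.injEq] at h
    apply Subtype.ext
    ext
    · exact h
    · show x.v = y.v
      rw [hx.2, hy.2]
  exact Finite.of_injective _ (Subgroup.inclusion_injective h1)

end Hs

/-! ### Bilinear maps from values on a basis -/

section Bil

variable {X A : Type} [AddCommGroup A]

/-- The biadditive map on `X →₀ ℤ` with given values on the basis. -/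
noncomputable def bil (b : X → X → A) : (X →₀ ℤ) →+ (X →₀ ℤ) →+ A :=
  Finsupp.liftAddHom (fun α => zmultiplesHom _
    (Finsupp.liftAddHom (fun β => zmultiplesHom _ (b α β))))

theorem bil_single (b : X → X → A) (α β : X) (m n : ℤ) :
    bil b (Finsupp.single α m) (Finsupp.single β n) = m • n • b α β := by
  simp [bil]

theorem bil_ext {B B' : (X →₀ ℤ) →+ (X →₀ ℤ) →+ A}
    (h : ∀ α β, B (Finsupp.single α 1) (Finsupp.single β 1) =
      B' (Finsupp.single α 1) (Finsupp.single β 1)) : B = B' := by
  ext α β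
  exact h α β

theorem bil_mem (b : X → X → A) (F : AddSubgroup A) (h : ∀ α β, b α β ∈ F) (l l' : X →₀ ℤ) :
    bil b l l' ∈ F := by
  induction l using Finsupp.induction_linear with
  | zero => simp
  | add f g hf hg =>
    rw [map_add, AddMonoidHom.add_apply]
    exact F.add_mem hf hg
  | single α m =>
    induction l' using Finsupp.induction_linear with
    | zero => simp
    | add f g hf hg =>
      rw [map_add]
      exact F.add_mem hf hg
    | single β n =>
      rw [bil_single]
      exact F.zsmul_mem (F.zsmul_mem (h α β) n) m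

theorem bil_map {A' : Type} [AddCommGroup A'] (b : X → X → A) (f : A →+ A') (l l' : X →₀ ℤ) :
    bil (fun α β => f (b α β)) l l' = f (bil b l l') := by
  induction l using Finsupp.induction_linear with
  | zero => simp
  | add g g' hg hg' => simp only [map_add, AddMonoidHom.add_apply, hg, hg']
  | single α m =>
    induction l' using Finsupp.induction_linear with
    | zero => simp
    | add g g' hg hg' => simp only [map_add, hg, hg']
    | single β n => simp only [bil_single, map_zsmul]

theorem bil_filter (b : X → X → A) (p : X → Prop) [DecidablePred p]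
    (h : ∀ α β, b α β ≠ 0 → p α ∧ p β) (l l' : X →₀ ℤ) :
    bil b (Finsupp.filterAddHom p l) (Finsupp.filterAddHom p l') = bil b l l' := by
  induction l using Finsupp.induction_linear with
  | zero => simp
  | add g g' hg hg' => simp only [map_add, AddMonoidHom.add_apply, hg, hg']
  | single α m =>
    induction l' using Finsupp.induction_linear with
    | zero => simp
    | add g g' hg hg' => simp only [map_add, hg, hg']
    | single β n =>
      have e : ∀ (q : X → Prop) [DecidablePred q] (γ : X) (k : ℤ),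
          Finsupp.filterAddHom q (Finsupp.single γ k) = if q γ then Finsupp.single γ k else 0 := by
        intro q _ γ k
        show Finsupp.filter q (Finsupp.single γ k) = _
        split_ifs with hq
        · exact Finsupp.filter_single_of_pos q hq
        · exact Finsupp.filter_single_of_neg q hq
      rw [e, e, bil_single]
      by_cases h0 : b α β = 0
      · split_ifs <;> simp [bil_single, h0]
      · obtain ⟨h1, h2⟩ := h α β h0
        rw [if_pos h1, if_pos h2, bil_single]

end Bil

/-! ### The decomposition for groups of class two -/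

section Main

variable {G : Type} [Group G]

theorem comm_mul_right' (hc : commutator G ≤ Subgroup.center G) (a b c : G) :
    ⁅a, b * c⁆ = ⁅a, b⁆ * ⁅a, c⁆ := by
  have h : ⁅a, c⁆ ∈ Subgroup.center G :=
    hc (Subgroup.commutator_mem_commutator (Subgroup.mem_top a) (Subgroup.mem_top c))
  have h2 := (Subgroup.mem_center_iff.1 h) b
  have : ⁅a, b * c⁆ = ⁅a, b⁆ * (b * ⁅a, c⁆ * b⁻¹) := by
    simp only [commutatorElement_def]; group
  rw [this, h2]; group

theorem comm_mul_left' (hc : commutator G ≤ Subgroup.center G) (a b c : G) :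
    ⁅a * b, c⁆ = ⁅a, c⁆ * ⁅b, c⁆ := by
  rw [← inv_inj, commutatorElement_inv, comm_mul_right' hc, mul_inv_rev, commutatorElement_inv,
    commutatorElement_inv]
  have h : ⁅c, a⁆ ∈ Subgroup.center G :=
    hc (Subgroup.commutator_mem_commutator (Subgroup.mem_top c) (Subgroup.mem_top a))
  exact ((Subgroup.mem_center_iff.1 h) _).symm

/-- The commutator as a map into the centre. -/
def kap (hc : commutator G ≤ Subgroup.center G) (a : G) : G →* ↥(Subgroup.center G) where
  toFun b := ⟨⁅a, b⁆,
    hc (Subgroup.commutator_mem_commutator (Subgroup.mem_top a) (Subgroup.mem_top b))⟩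
  map_one' := by
    apply Subtype.ext
    exact commutatorElement_one_right a
  map_mul' b c := by
    apply Subtype.ext
    exact comm_mul_right' hc a b c

/-- The set of all commutators with a given element, an additive subgroup of the centre. -/
def R (hc : commutator G ≤ Subgroup.center G) (a : G) :
    AddSubgroup (Additive ↥(Subgroup.center G)) :=
  Subgroup.toAddSubgroup (kap hc a).range

/-- The commutator, written additively. -/
def cc (hc : commutator G ≤ Subgroup.center G) (a b : G) : Additive ↥(Subgroup.center G) :=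
  Additive.ofMul (kap hc a b)

theorem cc_mem_left (hc : commutator G ≤ Subgroup.center G) (a b : G) : cc hc a b ∈ R hc a :=
  ⟨b, rfl⟩

theorem cc_symm (hc : commutator G ≤ Subgroup.center G) (a b : G) :
    cc hc a b = - cc hc b a := by
  show Additive.ofMul (kap hc a b) = Additive.ofMul ((kap hc b a)⁻¹)
  congr 1
  apply Subtype.ext
  show ⁅a, b⁆ = ⁅b, a⁆⁻¹
  rw [commutatorElement_inv]

theorem cc_self (hc : commutator G ≤ Subgroup.center G) (a : G) : cc hc a a = 0 := by
  show Additive.ofMul (kap hc a a) = Additive.ofMul 1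
  congr 1
  apply Subtype.ext
  show ⁅a, a⁆ = 1
  rw [commutatorElement_self]

theorem cc_mem_right (hc : commutator G ≤ Subgroup.center G) (a b : G) :
    cc hc a b ∈ R hc b := by
  rw [cc_symm]
  exact (R hc b).neg_mem (cc_mem_left hc b a)

theorem R_finite (hG : IsFC G) (hc : commutator G ≤ Subgroup.center G) (a : G) :
    (R hc a : Set (Additive ↥(Subgroup.center G))).Finite := by
  have h1 : ((fun h : G => a * h⁻¹) '' {h : G | IsConj a h}).Finite := (hG a).image _
  have h2 : Set.InjOn (fun x : Additive ↥(Subgroup.center G) => ((Additive.toMul x : _) : G))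
      ((fun x : Additive ↥(Subgroup.center G) => ((Additive.toMul x : _) : G)) ⁻¹'
        ((fun h : G => a * h⁻¹) '' {h : G | IsConj a h})) := by
    intro x _ y _ h
    exact Subtype.ext h
  refine (h1.preimage h2).subset ?_
  rintro x ⟨g, hg⟩
  refine ⟨g * a * g⁻¹, isConj_iff.2 ⟨g, rfl⟩, ?_⟩
  have h3 : ((Additive.toMul x : ↥(Subgroup.center G)) : G) = ⁅a, g⁆ := by
    have := congrArg (fun t : ↥(Subgroup.center G) => (t : G)) hg
    exact this.symm
  show a * (g * a * g⁻¹)⁻¹ = ((Additive.toMul x : ↥(Subgroup.center G)) : G)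
  rw [h3, commutatorElement_def]
  group

open Classical in
/-- The commutator of a decreasing pair, placed in the coordinate `R a ⊓ R b`. -/
noncomputable def bb (hc : commutator G ≤ Subgroup.center G) (a b : G) :
    AddSubgroup (Additive ↥(Subgroup.center G)) →₀ Additive ↥(Subgroup.center G) :=
  if WellOrderingRel b a then Finsupp.single (R hc a ⊓ R hc b) (cc hc a b) else 0

/-- The ambient group. -/
abbrev E (hc : commutator G ≤ Subgroup.center G) : Type := Hs (bil (bb hc))

/-- The map from the free group on the set `G` to `E`. -/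
noncomputable def psi (hc : commutator G ≤ Subgroup.center G) : FreeGroup G →* E hc :=
  FreeGroup.lift (fun a => ⟨0, Finsupp.single a 1⟩)

/-- The sum of all coordinates. -/
noncomputable def sig (A : Type) [AddCommGroup A] (I : Type) : (I →₀ A) →+ A :=
  Finsupp.liftAddHom (fun _ => AddMonoidHom.id A)

theorem sig_single (A : Type) [AddCommGroup A] (I : Type) (i : I) (a : A) :
    sig A I (Finsupp.single i a) = a := by
  simp [sig]

theorem sig_bb (hc : commutator G ≤ Subgroup.center G) (a b : G) :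
    sig _ _ (bb hc a b) - sig _ _ (bb hc b a) = cc hc a b := by
  classical
  unfold bb
  rcases trichotomous_of WellOrderingRel a b with h | h | h
  · have h' : ¬ WellOrderingRel b a := asymm_of _ h
    rw [if_neg h', if_pos h, sig_single, map_zero, zero_sub, ← cc_symm]
  · subst h
    rw [cc_self, sub_self]
  · have h' : ¬ WellOrderingRel a b := asymm_of _ h
    rw [if_pos h, if_neg h', sig_single, map_zero, sub_zero]

omit [Group G] in
theorem free_biadd {A : Type} [AddCommGroup A] (f g : FreeGroup G → FreeGroup G → A)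
    (hf1 : ∀ x y w, f (x * y) w = f x w + f y w) (hf2 : ∀ x y w, f x (y * w) = f x y + f x w)
    (hg1 : ∀ x y w, g (x * y) w = g x w + g y w) (hg2 : ∀ x y w, g x (y * w) = g x y + g x w)
    (h : ∀ a b, f (FreeGroup.of a) (FreeGroup.of b) = g (FreeGroup.of a) (FreeGroup.of b)) :
    ∀ x y, f x y = g x y := by
  have h1 : ∀ a y, f (FreeGroup.of a) y = g (FreeGroup.of a) y := by
    intro a y
    let F1 : FreeGroup G →* Multiplicative A :=
      MonoidHom.mk' (fun y => Multiplicative.ofAdd (f (FreeGroup.of a) y)) (by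
        intro y w; rw [hf2]; rfl)
    let F2 : FreeGroup G →* Multiplicative A :=
      MonoidHom.mk' (fun y => Multiplicative.ofAdd (g (FreeGroup.of a) y)) (by
        intro y w; rw [hg2]; rfl)
    have : F1 = F2 := FreeGroup.ext_hom _ _ (fun b => congrArg Multiplicative.ofAdd (h a b))
    exact congrArg Multiplicative.toAdd (DFunLike.congr_fun this y)
  intro x y
  let F1 : FreeGroup G →* Multiplicative A :=
    MonoidHom.mk' (fun x => Multiplicative.ofAdd (f x y)) (by
      intro x w; rw [hf1]; rfl)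
  let F2 : FreeGroup G →* Multiplicative A :=
    MonoidHom.mk' (fun x => Multiplicative.ofAdd (g x y)) (by
      intro x w; rw [hg1]; rfl)
  have : F1 = F2 := FreeGroup.ext_hom _ _ (fun a => congrArg Multiplicative.ofAdd (h1 a y))
  exact congrArg Multiplicative.toAdd (DFunLike.congr_fun this x)

/-- For two words, the commutator in `G` is given by the bilinear map. -/
theorem cc_words (hc : commutator G ≤ Subgroup.center G) (u w : FreeGroup G) :
    cc hc (FreeGroup.lift id u) (FreeGroup.lift id w) =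
      sig _ _ (bil (bb hc) (psi hc u).v (psi hc w).v)
        - sig _ _ (bil (bb hc) (psi hc w).v (psi hc u).v) := by
  refine free_biadd (fun u w => cc hc (FreeGroup.lift id u) (FreeGroup.lift id w))
    (fun u w => sig _ _ (bil (bb hc) (psi hc u).v (psi hc w).v)
        - sig _ _ (bil (bb hc) (psi hc w).v (psi hc u).v)) ?_ ?_ ?_ ?_ ?_ u w
  · intro x y w
    simp only [map_mul]
    apply congrArg Additive.ofMul
    apply Subtype.ext
    exact comm_mul_left' hc _ _ _
  · intro x y w
    simp only [map_mul]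
    apply congrArg Additive.ofMul
    apply Subtype.ext
    exact comm_mul_right' hc _ _ _
  · intro x y w
    simp only [map_mul, Hs.mul_v, map_add, AddMonoidHom.add_apply]
    abel
  · intro x y w
    simp only [map_mul, Hs.mul_v, map_add, AddMonoidHom.add_apply]
    abel
  · intro a b
    simp only [psi, FreeGroup.lift_apply_of, id_eq, bil_single, one_smul]
    exact (sig_bb hc a b).symm

theorem comm_words (hc : commutator G ≤ Subgroup.center G) (w : FreeGroup G)
    (hw : w ∈ commutator (FreeGroup G)) :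
    (psi hc w).v = 0 ∧ FreeGroup.lift id w =
      ((Additive.toMul (sig _ _ (psi hc w).z) : ↥(Subgroup.center G)) : G) := by
  let S : Subgroup (FreeGroup G) :=
    { carrier := {w | (psi hc w).v = 0 ∧ FreeGroup.lift id w =
        ((Additive.toMul (sig _ _ (psi hc w).z) : ↥(Subgroup.center G)) : G)}
      one_mem' := by
        simp
      mul_mem' := by
        rintro a b ⟨ha, ha'⟩ ⟨hb, hb'⟩
        refine ⟨by simp [ha, hb], ?_⟩
        rw [map_mul, map_mul, Hs.mul_z, ha, map_zero, AddMonoidHom.zero_apply, add_zero,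
          map_add, ha', hb']
        rfl
      inv_mem' := by
        rintro a ⟨ha, ha'⟩
        refine ⟨by simp [ha], ?_⟩
        rw [map_inv, map_inv, Hs.inv_z, ha, map_zero, add_zero, map_neg, ha']
        rfl }
  have h : commutator (FreeGroup G) ≤ S := by
    rw [commutator_def, Subgroup.commutator_le]
    intro x _ y _
    refine ⟨?_, ?_⟩
    · rw [map_commutatorElement]
      exact Hs.comm_v _ _
    · rw [map_commutatorElement, map_commutatorElement, Hs.comm_z, map_sub, ← cc_words]
      rfl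
  exact h hw

theorem mem_comm_of_v (hc : commutator G ≤ Subgroup.center G) (w : FreeGroup G)
    (hw : (psi hc w).v = 0) : w ∈ commutator (FreeGroup G) := by
  let τ : (G →₀ ℤ) →+ Additive (Abelianization (FreeGroup G)) :=
    Finsupp.liftAddHom (fun a => zmultiplesHom _
      (Additive.ofMul (Abelianization.of (FreeGroup.of a))))
  let F1 : FreeGroup G →* Abelianization (FreeGroup G) :=
    MonoidHom.mk' (fun w => Additive.toMul (τ (psi hc w).v)) (by
      intro a b
      rw [map_mul, Hs.mul_v, map_add]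
      rfl)
  have h : F1 = Abelianization.of := by
    refine FreeGroup.ext_hom _ _ (fun a => ?_)
    show Additive.toMul (τ (psi hc (FreeGroup.of a)).v) = _
    simp [psi, τ]
  have h2 : Abelianization.of w = 1 := by
    rw [← h]
    show Additive.toMul (τ (psi hc w).v) = 1
    rw [hw, map_zero]
    rfl
  rw [← Abelianization.ker_of]
  exact h2

/-- The coordinates. -/
noncomputable def ev (A : Type) [AddCommGroup A] (I : Type) : Option I → ((I →₀ A) →+ A)
  | none => 0
  | some i => Finsupp.applyAddHom i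

/-- The letters active in a coordinate. -/
def act (hc : commutator G ≤ Subgroup.center G) :
    Option (AddSubgroup (Additive ↥(Subgroup.center G))) → G → Prop
  | none => fun _ => True
  | some F => fun a => F ≤ R hc a

theorem act_of_ne (hc : commutator G ≤ Subgroup.center G)
    (i : Option (AddSubgroup (Additive ↥(Subgroup.center G)))) (a b : G)
    (h : ev _ _ i (bb hc a b) ≠ 0) : act hc i a ∧ act hc i b := by
  classical
  cases i with
  | none => exact ⟨trivial, trivial⟩
  | some F =>
    have h1 : (bb hc a b) F ≠ 0 := h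
    unfold bb at h1
    split_ifs at h1 with h2
    · rw [Finsupp.single_apply] at h1
      split_ifs at h1 with h3
      · subst h3
        exact ⟨inf_le_left, inf_le_right⟩
      · exact absurd rfl h1
    · exact absurd rfl h1

/-- The factor groups. -/
abbrev KK (hc : commutator G ≤ Subgroup.center G)
    (i : Option (AddSubgroup (Additive ↥(Subgroup.center G)))) : Type :=
  Hs (bil (fun a b => ev _ _ i (bb hc a b)))

open Classical in
/-- The coordinate homomorphisms. -/
noncomputable def Th (hc : commutator G ≤ Subgroup.center G)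
    (i : Option (AddSubgroup (Additive ↥(Subgroup.center G)))) : E hc →* KK hc i :=
  Hs.map (ev _ _ i) (Finsupp.filterAddHom (act hc i)) (by
    intro l l'
    rw [bil_filter _ _ (act_of_ne hc i), bil_map])

theorem KK_finDerived (hG : IsFC G) (hc : commutator G ≤ Subgroup.center G)
    (i : Option (AddSubgroup (Additive ↥(Subgroup.center G)))) : FinDerived (KK hc i) := by
  classical
  cases i with
  | none =>
    refine Hs.finDerived ⊥ inferInstance ?_
    intro l l'
    refine bil_mem _ _ ?_ l l'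
    intro a b
    rfl
  | some F =>
    by_cases hF : Finite F
    · refine Hs.finDerived F hF ?_
      intro l l'
      refine bil_mem _ _ ?_ l l'
      intro a b
      show (bb hc a b) F ∈ F
      unfold bb
      split_ifs with h
      · rw [Finsupp.single_apply]
        split_ifs with h3
        · rw [← h3]
          exact ⟨cc_mem_left hc a b, cc_mem_right hc a b⟩
        · exact F.zero_mem
      · exact F.zero_mem
    · refine Hs.finDerived ⊥ inferInstance ?_
      intro l l'
      refine bil_mem _ _ ?_ l l'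
      intro a b
      show (bb hc a b) F ∈ _
      unfold bb
      split_ifs with h
      · rw [Finsupp.single_apply]
        split_ifs with h3
        · exfalso
          apply hF
          rw [← h3]
          exact ((R_finite hG hc a).subset (fun x hx => hx.1)).to_subtype
        · exact AddSubgroup.zero_mem _
      · exact AddSubgroup.zero_mem _

theorem Th_finite (hG : IsFC G) (hc : commutator G ≤ Subgroup.center G) (x : E hc) :
    {i | Th hc i x ≠ 1}.Finite := by
  classical
  have h1 : ∀ a : G, {F : AddSubgroup (Additive ↥(Subgroup.center G)) | F ≤ R hc a}.Finite := by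
    intro a
    have h2 := (R_finite hG hc a).finite_subsets
    exact h2.preimage (f := fun F : AddSubgroup (Additive ↥(Subgroup.center G)) =>
      (F : Set (Additive ↥(Subgroup.center G)))) SetLike.coe_injective.injOn
  have h3 : ({none} ∪ (some '' ((x.z.support : Set _) ∪
      ⋃ a ∈ (x.v.support : Set G), {F | F ≤ R hc a}))).Finite := by
    refine (Set.finite_singleton _).union (Set.Finite.image _ ?_)
    refine (Finset.finite_toSet _).union ?_
    exact Set.Finite.biUnion (Finset.finite_toSet _) (fun a _ => h1 a)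
  refine h3.subset ?_
  intro i hi
  cases i with
  | none => exact Or.inl rfl
  | some F =>
    refine Or.inr ⟨F, ?_, rfl⟩
    by_contra hn
    apply hi
    have h4 : x.z F = 0 := by
      by_contra h5
      exact hn (Or.inl (by simpa using h5))
    have h6 : ∀ a, F ≤ R hc a → x.v a = 0 := by
      intro a ha
      by_contra h5
      refine hn (Or.inr ?_)
      refine Set.mem_biUnion (x := a) ?_ ha
      simpa using h5
    apply Hs.ext
    · exact h4
    · show Finsupp.filter (fun a => F ≤ R hc a) x.v = 0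
      ext a
      rw [Finsupp.filter_apply]
      split_ifs with h7
      · exact h6 a h7
      · rfl

theorem Th_injective (hc : commutator G ≤ Subgroup.center G) (x : E hc)
    (hx : ∀ i, Th hc i x = 1) : x = 1 := by
  classical
  apply Hs.ext
  · exact Finsupp.ext (fun F => congrArg Hs.z (hx (some F)))
  · have h1 := congrArg Hs.v (hx none)
    have h2 : Finsupp.filter (act hc none) x.v = 0 := h1
    ext a
    have h3 := DFunLike.congr_fun h2 a
    rw [Finsupp.filter_apply, if_pos (show act hc none a from trivial)] at h3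
    exact h3

/-- Every FC-group of class at most two lies in the direct variety generated by the groups with
finite derived subgroup. -/
theorem classTwo {C : ∀ (G : Type) [Group G], Prop} (hC : Var C) (hG : IsFC G)
    (hc : commutator G ≤ Subgroup.center G) : C G := by
  classical
  refine hC.subdirect (KK hc) (fun i => hC.fin _ (KK_finDerived hG hc i))
    (S := FreeGroup G) (fun i => (Th hc i).comp (psi hc))
    (fun w => Th_finite hG hc (psi hc w)) (FreeGroup.lift id) ?_ ?_
  · intro g
    exact ⟨FreeGroup.of g, by simp⟩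
  · intro w h4
    have h6 := Th_injective hc _ h4
    have h7 : (psi hc w).v = 0 := by rw [h6]; rfl
    have h8 := comm_words hc w (mem_comm_of_v hc w h7)
    rw [h8.2, h6]
    simp

end Main

end Pool.Agent.S02457.FCV

namespace Pool.Agent.S02457.FCV

open scoped commutatorElement Pointwise IsMulCommutative

section lemF

variable {T : Type} [Group T] {ι : Type} (B : ι → Subgroup T)

/-- The commutator pairing of two subgroups commuting modulo the centre. -/
def kp (hc : ∀ i j, i ≠ j → ∀ b ∈ B i, ∀ b' ∈ B j, ⁅b, b'⁆ ∈ Subgroup.center T) (i j : ι)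
    (hij : i ≠ j) : B i →* (B j →* ↥(Subgroup.center T)) :=
  MonoidHom.mk' (fun b => MonoidHom.mk' (fun b' => ⟨⁅b.1, b'.1⁆, hc i j hij _ b.2 _ b'.2⟩) (by
    intro x y
    apply Subtype.ext
    show ⁅b.1, x.1 * y.1⁆ = ⁅b.1, x.1⁆ * ⁅b.1, y.1⁆
    have h : ⁅b.1, y.1⁆ ∈ Subgroup.center T := hc i j hij _ b.2 _ y.2
    have h2 := (Subgroup.mem_center_iff.1 h) x.1
    have : ⁅b.1, x.1 * y.1⁆ = ⁅b.1, x.1⁆ * (x.1 * ⁅b.1, y.1⁆ * (x.1)⁻¹) := by
      simp only [commutatorElement_def]; group
    rw [this, h2]; group)) (by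
    intro a b
    refine MonoidHom.ext (fun x => ?_)
    apply Subtype.ext
    show ⁅a.1 * b.1, x.1⁆ = ⁅a.1, x.1⁆ * ⁅b.1, x.1⁆
    have h : ⁅b.1, x.1⁆ ∈ Subgroup.center T := hc i j hij _ b.2 _ x.2
    have h2 := (Subgroup.mem_center_iff.1 h) a.1
    have h3 := (Subgroup.mem_center_iff.1 h) ⁅a.1, x.1⁆
    have : ⁅a.1 * b.1, x.1⁆ = (a.1 * ⁅b.1, x.1⁆ * (a.1)⁻¹) * ⁅a.1, x.1⁆ := by
      simp only [commutatorElement_def]; group
    rw [this, h2, h3]; group)

/-- The pairing on abelianizations. -/
def kpA (hc : ∀ i j, i ≠ j → ∀ b ∈ B i, ∀ b' ∈ B j, ⁅b, b'⁆ ∈ Subgroup.center T) (i j : ι)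
    (hij : i ≠ j) : Abelianization (B i) →* (Abelianization (B j) →* ↥(Subgroup.center T)) :=
  Abelianization.lift (MonoidHom.mk' (fun b => Abelianization.lift (kp B hc i j hij b)) (by
    intro a b
    refine Abelianization.hom_ext _ _ (MonoidHom.ext (fun x => ?_))
    simp only [MonoidHom.comp_apply, Abelianization.lift_apply_of, map_mul, MonoidHom.mul_apply]))

theorem kpA_of (hc : ∀ i j, i ≠ j → ∀ b ∈ B i, ∀ b' ∈ B j, ⁅b, b'⁆ ∈ Subgroup.center T) (i j : ι)
    (hij : i ≠ j) (b : B i) (b' : B j) :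
    ((kpA B hc i j hij (Abelianization.of b) (Abelianization.of b') : Subgroup.center T) : T) =
      ⁅b.1, b'.1⁆ := by
  unfold kpA
  rw [Abelianization.lift_apply_of]
  show ((Abelianization.lift (kp B hc i j hij b) (Abelianization.of b') : _) : T) = _
  rw [Abelianization.lift_apply_of]
  rfl

/-- The free sum of the abelianizations. -/
abbrev LL : Type := Π₀ i, Additive (Abelianization (B i))

open Classical in
/-- the inner pairing, additive. -/
noncomputable def kpL (hc : ∀ i j, i ≠ j → ∀ b ∈ B i, ∀ b' ∈ B j, ⁅b, b'⁆ ∈ Subgroup.center T)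
    (i : ι) (a : Additive (Abelianization (B i))) :
    LL B →+ Additive ↥(Subgroup.center T) :=
  DFinsupp.liftAddHom (fun j => if h : WellOrderingRel i j then
    MonoidHom.toAdditive (kpA B hc i j (fun e => by
      subst e; exact (irrefl_of WellOrderingRel _ h)) (Additive.toMul a)) else 0)

open Classical in
/-- the bilinear form -/
noncomputable def bF (hc : ∀ i j, i ≠ j → ∀ b ∈ B i, ∀ b' ∈ B j, ⁅b, b'⁆ ∈ Subgroup.center T) :
    LL B →+ LL B →+ Additive ↥(Subgroup.center T) :=
  DFinsupp.liftAddHom (fun i => AddMonoidHom.mk' (fun a => kpL B hc i a) (by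
    intro x y
    refine DFinsupp.addHom_ext (fun j c => ?_)
    unfold kpL
    rw [AddMonoidHom.add_apply, DFinsupp.liftAddHom_apply_single,
      DFinsupp.liftAddHom_apply_single, DFinsupp.liftAddHom_apply_single]
    split_ifs with h
    · rw [toMul_add, map_mul]
      rfl
    · simp))

open Classical in
theorem bF_single (hc : ∀ i j, i ≠ j → ∀ b ∈ B i, ∀ b' ∈ B j, ⁅b, b'⁆ ∈ Subgroup.center T)
    (i j : ι) (b : B i) (b' : B j) :
    ((Additive.toMul (bF B hc (DFinsupp.single i (Additive.ofMul (Abelianization.of b)))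
      (DFinsupp.single j (Additive.ofMul (Abelianization.of b')))) : Subgroup.center T) : T) =
      if WellOrderingRel i j then ⁅b.1, b'.1⁆ else 1 := by
  unfold bF
  rw [DFinsupp.liftAddHom_apply_single]
  show ((Additive.toMul (kpL B hc i _ _) : Subgroup.center T) : T) = _
  unfold kpL
  rw [DFinsupp.liftAddHom_apply_single]
  split_ifs with h
  · rw [← kpA_of B hc i j (fun e => by subst e; exact (irrefl_of WellOrderingRel _ h)) b b']
    rfl
  · rfl

/-- The class-two group. -/
abbrev HF (hc : ∀ i j, i ≠ j → ∀ b ∈ B i, ∀ b' ∈ B j, ⁅b, b'⁆ ∈ Subgroup.center T) : Type :=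
  Hs (bF B hc)

theorem Hs_central {A L : Type} [AddCommGroup A] [AddCommGroup L] {B : L →+ L →+ A} (x : Hs B)
    (hx : x.v = 0) : x ∈ Subgroup.center (Hs B) := by
  rw [Subgroup.mem_center_iff]
  intro g
  ext
  · simp only [Hs.mul_z, hx, map_zero, AddMonoidHom.zero_apply]; abel
  · simp [hx]

theorem Hs_two {A L : Type} [AddCommGroup A] [AddCommGroup L] (B : L →+ L →+ A) :
    commutator (Hs B) ≤ Subgroup.center (Hs B) := by
  rw [commutator_def, Subgroup.commutator_le]
  intro x _ y _
  exact Hs_central _ (Hs.comm_v x y)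

theorem Hs_FC {A L : Type} [AddCommGroup A] [AddCommGroup L] (B : L →+ L →+ A)
    (h : ∀ v, (Set.range (fun c => B c v - B v c)).Finite) : IsFC (Hs B) := by
  intro x
  refine ((h x.v).image (fun a => (⟨x.z + a, x.v⟩ : Hs B))).subset ?_
  rintro y hy
  obtain ⟨c, rfl⟩ := isConj_iff.mp hy
  refine ⟨_, ⟨c.v, rfl⟩, ?_⟩
  ext
  · simp only [Hs.mul_z, Hs.mul_v, Hs.inv_z, Hs.inv_v, map_add, map_neg, AddMonoidHom.add_apply]
    abel
  · simp only [Hs.mul_v, Hs.inv_v]; abel

/-- central values of commutators with `b` -/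
def FF0 (b : T) : AddSubgroup (Additive ↥(Subgroup.center T)) where
  carrier := {a | ∃ t : T, ((Additive.toMul a : Subgroup.center T) : T) = ⁅t, b⁆}
  zero_mem' := ⟨1, by simp⟩
  add_mem' := by
    rintro a a' ⟨t, ht⟩ ⟨t', ht'⟩
    refine ⟨t * t', ?_⟩
    have e : ⁅t * t', b⁆ = (t * ⁅t', b⁆ * t⁻¹) * ⁅t, b⁆ := by
      simp only [commutatorElement_def]; group
    have h2 := (Subgroup.mem_center_iff.1 (Additive.toMul a').2) t
    rw [toMul_add, Subgroup.coe_mul, e, ← ht, ← ht', h2, mul_inv_cancel_right]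
    exact (Subgroup.mem_center_iff.1 (Additive.toMul a').2) _
  neg_mem' := by
    rintro a ⟨t, ht⟩
    refine ⟨t⁻¹, ?_⟩
    have e : ⁅t⁻¹, b⁆ = t⁻¹ * ⁅t, b⁆⁻¹ * t := by
      simp only [commutatorElement_def]; group
    have h2 := (Subgroup.mem_center_iff.1 (inv_mem (Additive.toMul a).2)) t⁻¹
    rw [toMul_neg, Subgroup.coe_inv, e, ← ht, h2, inv_mul_cancel_right]

theorem FF0_finite (hT : IsFC T) (b : T) :
    (FF0 b : Set (Additive ↥(Subgroup.center T))).Finite := by
  have h1 : ((fun h : T => h * b⁻¹) '' {h : T | IsConj b h}).Finite := (hT b).image _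
  have h2 : Set.InjOn (fun x : Additive ↥(Subgroup.center T) => ((Additive.toMul x : _) : T))
      ((fun x : Additive ↥(Subgroup.center T) => ((Additive.toMul x : _) : T)) ⁻¹'
        ((fun h : T => h * b⁻¹) '' {h : T | IsConj b h})) := by
    intro x _ y _ h
    exact Subtype.ext h
  refine (h1.preimage h2).subset ?_
  rintro x ⟨t, ht⟩
  refine ⟨t * b * t⁻¹, isConj_iff.2 ⟨t, rfl⟩, ?_⟩
  show t * b * t⁻¹ * b⁻¹ = ((Additive.toMul x : ↥(Subgroup.center T)) : T)
  rw [ht, commutatorElement_def]

theorem HF_FC (hT : IsFC T)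
    (hc : ∀ i j, i ≠ j → ∀ b ∈ B i, ∀ b' ∈ B j, ⁅b, b'⁆ ∈ Subgroup.center T) :
    IsFC (HF B hc) := by
  classical
  apply Hs_FC
  have hsub : AddSubgroup.closure (⋃ i, Set.range (DFinsupp.single
      (β := fun i => Additive (Abelianization (B i))) i)) = ⊤ := by
    rw [eq_top_iff]
    intro x _
    have h1 := DFinsupp.add_closure_iUnion_range_single
      (β := fun i => Additive (Abelianization (B i)))
    have h2 : AddSubmonoid.closure (⋃ i, Set.range (DFinsupp.single
      (β := fun i => Additive (Abelianization (B i))) i)) ≤ (AddSubgroup.closure (⋃ i, Set.range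
      (DFinsupp.single (β := fun i => Additive (Abelianization (B i))) i))).toAddSubmonoid := by
      rw [AddSubmonoid.closure_le]
      exact AddSubgroup.subset_closure
    exact h2 (h1 ▸ AddSubmonoid.mem_top x)
  -- the set of v with finite range is a subgroup
  let V : AddSubgroup (LL B) :=
    { carrier := {v | (Set.range (fun c => bF B hc c v - bF B hc v c)).Finite}
      zero_mem' := by
        refine (Set.finite_singleton 0).subset ?_
        rintro _ ⟨c, rfl⟩
        simp
      add_mem' := by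
        rintro v w hv hw
        refine (hv.add hw).subset ?_
        rintro _ ⟨c, rfl⟩
        refine ⟨_, ⟨c, rfl⟩, _, ⟨c, rfl⟩, ?_⟩
        simp only [map_add, AddMonoidHom.add_apply]
        abel
      neg_mem' := by
        rintro v hv
        refine hv.neg.subset ?_
        rintro _ ⟨c, rfl⟩
        refine Set.mem_neg.mpr ⟨c, ?_⟩
        simp only [map_neg, AddMonoidHom.neg_apply]
        abel }
  suffices h : V = ⊤ by
    intro v
    have : v ∈ V := by rw [h]; trivial
    exact this
  rw [eq_top_iff, ← hsub, AddSubgroup.closure_le]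
  intro v hv
  simp only [Set.mem_iUnion] at hv
  obtain ⟨j, a, rfl⟩ := hv
  obtain ⟨b, hb⟩ : ∃ b : B j, Additive.ofMul (Abelianization.of b) = a :=
    QuotientGroup.mk_surjective a
  subst hb
  refine (FF0_finite hT b.1).subset ?_
  rintro _ ⟨c, rfl⟩
  have hcm : c ∈ (⊤ : AddSubgroup (LL B)) := trivial
  rw [← hsub] at hcm
  show bF B hc c _ - bF B hc _ c ∈ FF0 b.1
  induction hcm using AddSubgroup.closure_induction with
  | mem x hx =>
    simp only [Set.mem_iUnion] at hx
    obtain ⟨i, a, rfl⟩ := hx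
    obtain ⟨b', hb'⟩ : ∃ b' : B i, Additive.ofMul (Abelianization.of b') = a :=
      QuotientGroup.mk_surjective a
    subst hb'
    have e1 := bF_single B hc i j b' b
    have e2 := bF_single B hc j i b b'
    show ∃ t : T, _ = ⁅t, b.1⁆
    rw [toMul_sub, Subgroup.coe_div, e1, e2]
    rcases trichotomous_of WellOrderingRel i j with h | h | h
    · have h' : ¬ WellOrderingRel j i := asymm_of _ h
      rw [if_pos h, if_neg h', div_one]
      exact ⟨b'.1, rfl⟩
    · subst h
      have h' : ¬ WellOrderingRel i i := irrefl_of _ _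
      rw [if_neg h', if_neg h']
      exact ⟨1, by simp⟩
    · have h' : ¬ WellOrderingRel i j := asymm_of _ h
      rw [if_pos h, if_neg h', one_div, commutatorElement_inv]
      exact ⟨b'.1, rfl⟩
  | zero =>
    simp only [map_zero, AddMonoidHom.zero_apply, sub_self]
    exact AddSubgroup.zero_mem _
  | add x y _ _ hx hy =>
    have := AddSubgroup.add_mem _ hx hy
    simp only [map_add, AddMonoidHom.add_apply]
    convert this using 1
    abel
  | neg x _ hx =>
    have := AddSubgroup.neg_mem _ hx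
    simp only [map_neg, AddMonoidHom.neg_apply]
    convert this using 1
    abel

theorem lemF {C : ∀ (G : Type) [Group G], Prop} (hC : Var C) (hT : IsFC T)
    (hB : ∀ i, C (B i))
    (hc : ∀ i j, i ≠ j → ∀ b ∈ B i, ∀ b' ∈ B j, ⁅b, b'⁆ ∈ Subgroup.center T)
    (hgen : (⨆ i, B i) = ⊤) : C T := by
  classical
  let φ : ∀ i, B i →* HF B hc := fun i =>
    MonoidHom.mk' (fun b => ⟨0, DFinsupp.single i (Additive.ofMul (Abelianization.of b))⟩) (by
      intro a b
      apply Hs.ext
      · show (0 : Additive ↥(Subgroup.center T)) = 0 + 0 + bF B hc _ _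
        have : bF B hc (DFinsupp.single i (Additive.ofMul (Abelianization.of a)))
            (DFinsupp.single i (Additive.ofMul (Abelianization.of b))) = 0 := by
          have h1 := bF_single B hc i i a b
          rw [if_neg (irrefl_of _ _)] at h1
          exact Subtype.ext h1
        rw [this]; simp
      · show DFinsupp.single i _ = DFinsupp.single i _ + DFinsupp.single i _
        rw [← DFinsupp.single_add, map_mul]
        rfl)
  let A : Subgroup (HF B hc × T) :=
    { carrier := {q | q.1.v = 0 ∧ q.2 = ((Additive.toMul q.1.z : Subgroup.center T) : T)}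
      one_mem' := ⟨rfl, rfl⟩
      mul_mem' := by
        rintro a b ⟨h1, h2⟩ ⟨h3, h4⟩
        refine ⟨?_, ?_⟩
        · show a.1.v + b.1.v = 0
          rw [h1, h3, add_zero]
        · show a.2 * b.2 = ((Additive.toMul (a.1.z + b.1.z + bF B hc a.1.v b.1.v) : _) : T)
          rw [h1, map_zero, AddMonoidHom.zero_apply, add_zero, toMul_add, Subgroup.coe_mul, h2, h4]
      inv_mem' := by
        rintro a ⟨h1, h2⟩
        refine ⟨?_, ?_⟩
        · show - a.1.v = 0
          rw [h1, neg_zero]
        · show a.2⁻¹ = ((Additive.toMul (-a.1.z + bF B hc a.1.v a.1.v) : _) : T)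
          rw [h1, map_zero, add_zero, toMul_neg, Subgroup.coe_inv, h2] }
  have hAn : A.Normal := by
    refine ⟨?_⟩
    rintro ⟨p, t⟩ ⟨h1, h2⟩ ⟨g, s⟩
    have e1 := (Subgroup.mem_center_iff.mp (Hs_central p h1)) g
    have h2' : t = ((Additive.toMul p.z : Subgroup.center T) : T) := h2
    have e2 : s * t = t * s := by
      rw [h2']
      exact (Subgroup.mem_center_iff.mp (Additive.toMul p.z).2) s
    have : (g, s) * (p, t) * (g, s)⁻¹ = (p, t) := by
      apply Prod.ext
      · show g * p * g⁻¹ = p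
        rw [e1, mul_inv_cancel_right]
      · show s * t * s⁻¹ = t
        rw [e2, mul_inv_cancel_right]
    rw [this]
    exact ⟨h1, h2⟩
  refine hC.glue (fun i => B i) hB (P := HF B hc) (T := T)
    (classTwo hC (HF_FC B hT hc) (Hs_two _)) φ (fun i => (B i).subtype) A ?_ ?_ ?_
  · rintro t ⟨_, h⟩
    exact h
  · intro i j hij b b'
    refine ⟨Hs.comm_v _ _, ?_⟩
    show ⁅b.1, b'.1⁆ = ((Additive.toMul (⁅φ i b, φ j b'⁆ : HF B hc).z : _) : T)
    rw [Hs.comm_z]
    have e1 := bF_single B hc i j b b'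
    have e2 := bF_single B hc j i b' b
    show _ = ((Additive.toMul (bF B hc (DFinsupp.single i (Additive.ofMul (Abelianization.of b)))
      (DFinsupp.single j (Additive.ofMul (Abelianization.of b'))) -
      bF B hc (DFinsupp.single j (Additive.ofMul (Abelianization.of b')))
      (DFinsupp.single i (Additive.ofMul (Abelianization.of b)))) : Subgroup.center T) : T)
    rw [toMul_sub, Subgroup.coe_div, e1, e2]
    rcases trichotomous_of WellOrderingRel i j with h | h | h
    · have h' : ¬ WellOrderingRel j i := asymm_of _ h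
      rw [if_pos h, if_neg h', div_one]
    · exact absurd h hij
    · have h' : ¬ WellOrderingRel i j := asymm_of _ h
      rw [if_pos h, if_neg h', one_div, commutatorElement_inv]
  · rw [← hgen]
    congr 1
    funext i
    exact (B i).range_subtype

end lemF

end Pool.Agent.S02457.FCV

namespace Pool.Agent.S02457.FCV

open scoped commutatorElement Pointwise

section basics

variable {G : Type} [Group G]

theorem FCG.cent_fi (hFC : FCG G) (g : G) : (Subgroup.centralizer {g} : Subgroup G).FiniteIndex := by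
  classical
  have hfin : Finite (G ⧸ (Subgroup.centralizer {g} : Subgroup G)) := by
    have := (hFC.fin g).to_subtype
    let f : G → {u | ∃ c, u = c⁻¹ * g * c} := fun x => ⟨x * g * x⁻¹, x⁻¹, by simp⟩
    have hf : ∀ x y : G, f x = f y → (x : G ⧸ (Subgroup.centralizer {g} : Subgroup G)) = y := by
      intro x y hxy
      rw [QuotientGroup.eq, Subgroup.mem_centralizer_singleton_iff]
      have h1 : x * g * x⁻¹ = y * g * y⁻¹ := congrArg Subtype.val hxy
      calc x⁻¹ * y * g = x⁻¹ * (y * g * y⁻¹) * y := by group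
        _ = x⁻¹ * (x * g * x⁻¹) * y := by rw [h1]
        _ = g * (x⁻¹ * y) := by group
    let F : G ⧸ (Subgroup.centralizer {g} : Subgroup G) → {u | ∃ c, u = c⁻¹ * g * c} :=
      fun q => f q.out
    apply Finite.of_injective F
    intro a b hab
    have := hf _ _ hab
    rwa [QuotientGroup.out_eq', QuotientGroup.out_eq'] at this
  exact Subgroup.finiteIndex_of_finite_quotient

theorem FCG.sub (hFC : FCG G) (H : Subgroup G) : FCG H := by
  intro h
  refine ((hFC h.1).preimage (f := Subtype.val) Subtype.val_injective.injOn).subset ?_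
  intro u hu
  obtain ⟨c, hc⟩ := isConj_iff.mp hu
  refine isConj_iff.mpr ⟨c.1, ?_⟩
  exact congrArg Subtype.val hc

theorem fi_comm (h : (Subgroup.center G).FiniteIndex) : Finite ↥(commutator G) := by
  classical
  have h1 : Finite (commutatorSet G) := by
    have hq : Finite (G ⧸ Subgroup.center G) := inferInstance
    have : commutatorSet G ⊆ Set.range (fun p : (G ⧸ Subgroup.center G) × (G ⧸ Subgroup.center G) =>
        ⁅p.1.out, p.2.out⁆) := by
      rintro x ⟨a, b, rfl⟩
      have key : ∀ a : G, ∃ z ∈ Subgroup.center G, (a : G ⧸ Subgroup.center G).out = a * z := by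
        intro a
        refine ⟨a⁻¹ * (a : G ⧸ Subgroup.center G).out, ?_, by group⟩
        rw [← QuotientGroup.eq, QuotientGroup.out_eq']
      obtain ⟨z, hz, hza⟩ := key a
      obtain ⟨w, hw, hwb⟩ := key b
      refine ⟨((a : G ⧸ Subgroup.center G), (b : G ⧸ Subgroup.center G)), ?_⟩
      show ⁅(a : G ⧸ Subgroup.center G).out, (b : G ⧸ Subgroup.center G).out⁆ = ⁅a, b⁆
      rw [hza, hwb]
      have hz' := Subgroup.mem_center_iff.mp hz
      have hw' := Subgroup.mem_center_iff.mp hw
      simp only [commutatorElement_def, mul_inv_rev]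
      calc a * z * (b * w) * (z⁻¹ * a⁻¹) * (w⁻¹ * b⁻¹)
          = a * ((z * (b * w) * z⁻¹)) * a⁻¹ * w⁻¹ * b⁻¹ := by group
        _ = a * (b * w) * a⁻¹ * w⁻¹ * b⁻¹ := by
            rw [← hz' (b * w)]; group
        _ = a * b * (w * a⁻¹ * w⁻¹) * b⁻¹ := by group
        _ = a * b * a⁻¹ * b⁻¹ := by
            rw [← hw' a⁻¹]; group
    exact Set.Finite.to_subtype ((Set.finite_range _).subset this)
  infer_instance

theorem FCG.center_fi (hFC : FCG G) (hfg : Group.FG G) : (Subgroup.center G).FiniteIndex := by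
  classical
  obtain ⟨S, hS⟩ := Group.fg_iff.mp hfg
  obtain ⟨hS, hfin⟩ := hS
  have h1 : (⨅ s ∈ hfin.toFinset, (Subgroup.centralizer {s} : Subgroup G)).FiniteIndex := by
    apply Subgroup.finiteIndex_iInf'
    intro s _
    exact hFC.cent_fi s
  refine Subgroup.finiteIndex_of_le (H := ⨅ s ∈ hfin.toFinset, (Subgroup.centralizer {s} : Subgroup G)) ?_
  intro x hx
  have h2 : ∀ s ∈ S, s ∈ Subgroup.centralizer {x} := by
    intro s hs
    have := (Subgroup.mem_iInf.mp (Subgroup.mem_iInf.mp hx s)) (hfin.mem_toFinset.mpr hs)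
    rw [Subgroup.mem_centralizer_singleton_iff] at this ⊢
    exact this.symm
  have h3 : (⊤ : Subgroup G) ≤ Subgroup.centralizer {x} := by
    rw [← hS, Subgroup.closure_le]
    exact h2
  rw [Subgroup.mem_center_iff]
  intro g
  exact (Subgroup.mem_centralizer_singleton_iff.mp (h3 (Subgroup.mem_top g)))

/-- Dietzmann's lemma for FC-groups -/
theorem FCG.nc_finite (hFC : FCG G) (S : Set G) (hS : S.Finite) (ht : ∀ s ∈ S, IsOfFinOrder s) :
    ((Subgroup.normalClosure S : Subgroup G) : Set G).Finite := by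
  classical
  have hconj : (Group.conjugatesOfSet S).Finite := by
    have : Group.conjugatesOfSet S = ⋃ s ∈ S, {h | IsConj s h} := by
      ext x
      simp only [Group.mem_conjugatesOfSet_iff, Set.mem_iUnion, exists_prop]
      rfl
    rw [this]
    exact Set.Finite.biUnion hS (fun s _ => hFC s)
  set F : Subgroup G := Subgroup.normalClosure S with hF
  have hFc : F = Subgroup.closure (Group.conjugatesOfSet S) := rfl
  have hfg : F.FG := by
    rw [Subgroup.fg_iff]
    exact ⟨_, rfl, hconj⟩
  have hFfg : Group.FG F := (Group.fg_iff_subgroup_fg F).mpr hfg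
  have hFF : FCG F := hFC.sub F
  have hc := fi_comm (hFF.center_fi hFfg)
  have htors : Monoid.IsTorsion (Abelianization F) := by
    have key : ∀ x (hx : x ∈ F), (Abelianization.of (⟨x, hx⟩ : F)) ∈
        CommGroup.torsion (Abelianization F) := by
      intro x hx
      have hx' : x ∈ Subgroup.closure (Group.conjugatesOfSet S) := hx
      induction hx' using Subgroup.closure_induction with
      | mem x hxm =>
        obtain ⟨s, hs, hsx⟩ := Group.mem_conjugatesOfSet_iff.mp hxm
        obtain ⟨c, hc⟩ := isConj_iff.mp hsx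
        obtain ⟨m, hm, hsm⟩ := (isOfFinOrder_iff_pow_eq_one.mp (ht s hs))
        show IsOfFinOrder _
        rw [isOfFinOrder_iff_pow_eq_one]
        refine ⟨m, hm, ?_⟩
        rw [← map_pow]
        have : (⟨x, hx⟩ : F) ^ m = 1 := by
          apply Subtype.ext
          show x ^ m = 1
          rw [← hc, conj_pow, hsm]; simp
        rw [this, map_one]
      | one => exact one_mem (CommGroup.torsion (Abelianization F))
      | mul x y hx1 hy1 ihx ihy =>
        have := mul_mem (ihx hx1) (ihy hy1)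
        rw [← map_mul] at this
        exact this
      | inv x hx1 ihx =>
        have := inv_mem (ihx hx1)
        rw [← map_inv] at this
        exact this
    intro a
    obtain ⟨⟨x, hx⟩, rfl⟩ := QuotientGroup.mk_surjective a
    exact key x hx
  have hab : Finite (Abelianization F) := by
    have : Group.FG (Abelianization F) :=
      Group.fg_of_surjective (f := (Abelianization.of : F →* _)) QuotientGroup.mk_surjective
    exact CommGroup.finite_of_fg_torsion _ htors
  have hfi : (commutator F).FiniteIndex := by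
    have : Finite (F ⧸ commutator F) := hab
    exact Subgroup.finiteIndex_of_finite_quotient
  have hFfin : Finite F := (Subgroup.finite_iff_finite_and_finiteIndex (commutator F)).mpr ⟨hc, hfi⟩
  exact Set.toFinite _

theorem FCG.comm_torsion (hFC : FCG G) (g : G) (hg : g ∈ commutator G) : IsOfFinOrder g := by
  rw [commutator_eq_closure] at hg
  induction hg using Subgroup.closure_induction with
  | mem x hx =>
    obtain ⟨a, b, rfl⟩ := hx
    set L : Subgroup G := Subgroup.closure {a, b} with hL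
    have hfg : L.FG := by
      rw [Subgroup.fg_iff]
      exact ⟨_, rfl, Set.toFinite _⟩
    have hLfg : Group.FG L := (Group.fg_iff_subgroup_fg L).mpr hfg
    have hc := fi_comm ((hFC.sub L).center_fi hLfg)
    have haL : a ∈ L := Subgroup.subset_closure (by simp)
    have hbL : b ∈ L := Subgroup.subset_closure (by simp)
    have hmem : ⁅(⟨a, haL⟩ : L), (⟨b, hbL⟩ : L)⁆ ∈ commutator L :=
      Subgroup.commutator_mem_commutator (Subgroup.mem_top _) (Subgroup.mem_top _)
    have h1 : IsOfFinOrder (⟨_, hmem⟩ : commutator L) := isOfFinOrder_of_finite _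
    have h2 := (L.subtype.comp (commutator L).subtype).isOfFinOrder h1
    exact h2
  | one => exact IsOfFinOrder.one
  | mul x y _ _ hx hy =>
    have h1 := hFC.nc_finite {x, y} (Set.toFinite _) (by
      rintro s hs
      rcases hs with rfl | hs
      · exact hx
      · rw [Set.mem_singleton_iff] at hs; subst hs; exact hy)
    have := h1.to_subtype
    have hxm : x * y ∈ Subgroup.normalClosure {x, y} :=
      mul_mem (Subgroup.subset_normalClosure (by simp)) (Subgroup.subset_normalClosure (by simp))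
    have h2 : IsOfFinOrder (⟨_, hxm⟩ : (Subgroup.normalClosure {x, y} : Subgroup G)) :=
      isOfFinOrder_of_finite _
    exact (Subgroup.subtype _).isOfFinOrder h2
  | inv x _ hx => exact hx.inv

theorem FCG.nc_comm_finite (hFC : FCG G) (S : Set G) (hS : S.Finite)
    (ht : ∀ s ∈ S, s ∈ commutator G) :
    ((Subgroup.normalClosure S : Subgroup G) : Set G).Finite :=
  hFC.nc_finite S hS (fun s hs => hFC.comm_torsion s (ht s hs))

end basics

end Pool.Agent.S02457.FCV

namespace Pool.Agent.S02457.FCV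

open scoped commutatorElement Pointwise

section sd

variable {G : Type} [Group G]

theorem exists_reps (H : Subgroup G) (h : H.FiniteIndex) :
    ∃ T : Finset G, ∀ g, ∃ t ∈ T, t⁻¹ * g ∈ H := by
  classical
  have hfin : Finite (G ⧸ H) := inferInstance
  have := Fintype.ofFinite (G ⧸ H)
  refine ⟨Finset.univ.image (fun q : G ⧸ H => q.out), fun g => ⟨(g : G ⧸ H).out,
    Finset.mem_image_of_mem _ (Finset.mem_univ _), ?_⟩⟩
  rw [← QuotientGroup.eq, QuotientGroup.out_eq']

/-- the conjugation action of `G` on the normal subgroup `M` -/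
def QQ (M : Subgroup G) [M.Normal] : Subgroup (MulAut M) := (MulAut.conjNormal : G →* MulAut M).range

/-- the semidirect product -/
abbrev SD (M : Subgroup G) [M.Normal] : Type := M ⋊[(QQ M).subtype] (QQ M)

theorem QQ_finite (M : Subgroup G) [M.Normal] (hc : (Subgroup.centralizer (M : Set G)).FiniteIndex) :
    Finite (QQ M) := by
  have h1 : Subgroup.centralizer (M : Set G) ≤ (MulAut.conjNormal : G →* MulAut M).ker := by
    intro g hg
    rw [MonoidHom.mem_ker]
    ext m
    rw [MulAut.conjNormal_apply]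
    have := Subgroup.mem_centralizer_iff.mp hg m.1 m.2
    rw [← this]; simp
  have h2 : (MulAut.conjNormal : G →* MulAut M).ker.FiniteIndex := Subgroup.finiteIndex_of_le h1
  have h3 := Subgroup.index_ker (MulAut.conjNormal : G →* MulAut M)
  have h4 : Nat.card (QQ M) ≠ 0 := by
    unfold QQ
    rw [← h3]
    exact h2.index_ne_zero
  exact Nat.finite_of_card_ne_zero h4

theorem sd_fin (hFC : FCG G) (M : Subgroup G) [M.Normal]
    (hc : (Subgroup.centralizer (M : Set G)).FiniteIndex) : Finite ↥(commutator (SD M)) := by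
  classical
  apply fi_comm
  obtain ⟨T, hT⟩ := exists_reps _ hc
  have hQ := QQ_finite M hc
  set Z' : Subgroup M := (Subgroup.center G).subgroupOf M with hZ'
  have hZfi : Z'.FiniteIndex := by
    have h1 : (⨅ t ∈ T, ((Subgroup.centralizer {t} : Subgroup G).subgroupOf M)).FiniteIndex := by
      apply Subgroup.finiteIndex_iInf'
      intro t _
      have := hFC.cent_fi t
      infer_instance
    refine Subgroup.finiteIndex_of_le
      (H := ⨅ t ∈ T, ((Subgroup.centralizer {t} : Subgroup G).subgroupOf M)) ?_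
    intro m hm
    rw [hZ', Subgroup.mem_subgroupOf, Subgroup.mem_center_iff]
    intro g
    obtain ⟨t, ht, htg⟩ := hT g
    have h2 := Subgroup.mem_iInf.mp (Subgroup.mem_iInf.mp hm t) ht
    rw [Subgroup.mem_subgroupOf, Subgroup.mem_centralizer_singleton_iff] at h2
    have h3 := Subgroup.mem_centralizer_iff.mp htg m.1 m.2
    calc g * m.1 = t * (t⁻¹ * g * m.1) := by group
      _ = t * (m.1 * (t⁻¹ * g)) := by rw [← h3]
      _ = (t * m.1) * (t⁻¹ * g) := by group
      _ = (m.1 * t) * (t⁻¹ * g) := by rw [← h2]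
      _ = m.1 * g := by group
  have h5 : (Z'.map (SemidirectProduct.inl : M →* SD M)).FiniteIndex := by
    constructor
    have h6 : Z'.map (SemidirectProduct.inl : M →* SD M) ≤
        (⊤ : Subgroup M).map (SemidirectProduct.inl : M →* SD M) := Subgroup.map_mono le_top
    rw [← Subgroup.relIndex_mul_index h6,
      Subgroup.relIndex_map_map_of_injective _ _ SemidirectProduct.inl_injective,
      Subgroup.relIndex_top_right, ← MonoidHom.range_eq_map,
      SemidirectProduct.range_inl_eq_ker_rightHom, Subgroup.index_ker]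
    refine mul_ne_zero hZfi.index_ne_zero ?_
    exact Nat.card_ne_zero.mpr ⟨inferInstance, inferInstance⟩
  refine Subgroup.finiteIndex_of_le (H := Z'.map (SemidirectProduct.inl : M →* SD M)) ?_
  rintro _ ⟨m, hm, rfl⟩
  have hm' : m.1 ∈ Subgroup.center G := hm
  have hmc : ∀ g : G, g * m.1 = m.1 * g := Subgroup.mem_center_iff.mp hm'
  rw [Subgroup.mem_center_iff]
  intro s
  apply SemidirectProduct.ext
  · rw [SemidirectProduct.mul_left, SemidirectProduct.mul_left]
    obtain ⟨g, hg⟩ := s.right.2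
    have h7 : ((QQ M).subtype s.right) m = m := by
      show s.right.1 m = m
      rw [← hg]
      apply Subtype.ext
      rw [MulAut.conjNormal_apply, hmc g]; simp
    rw [SemidirectProduct.left_inl, SemidirectProduct.right_inl, h7, map_one, MulAut.one_apply]
    apply Subtype.ext
    exact hmc _
  · simp

end sd

section chain

variable {G : Type} [Group G]

theorem centralizer_nc_fi (hFC : FCG G) (S : Set G) (hS : S.Finite) :
    (Subgroup.centralizer ((Subgroup.normalClosure S : Subgroup G) : Set G)).FiniteIndex := by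
  classical
  have hconj : (Group.conjugatesOfSet S).Finite := by
    have : Group.conjugatesOfSet S = ⋃ s ∈ S, {h | IsConj s h} := by
      ext x
      simp only [Group.mem_conjugatesOfSet_iff, Set.mem_iUnion, exists_prop]
      rfl
    rw [this]
    exact Set.Finite.biUnion hS (fun s _ => hFC s)
  have h0 : Subgroup.centralizer ((Subgroup.normalClosure S : Subgroup G) : Set G) =
      Subgroup.centralizer (Group.conjugatesOfSet S) := Subgroup.centralizer_closure _
  rw [h0]
  have h1 : (⨅ s ∈ hconj.toFinset, (Subgroup.centralizer {s} : Subgroup G)).FiniteIndex := by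
    apply Subgroup.finiteIndex_iInf'
    intro s _
    exact hFC.cent_fi s
  refine Subgroup.finiteIndex_of_le
    (H := ⨅ s ∈ hconj.toFinset, (Subgroup.centralizer {s} : Subgroup G)) ?_
  intro x hx
  rw [Subgroup.mem_centralizer_iff]
  intro s hs
  have := (Subgroup.mem_iInf.mp (Subgroup.mem_iInf.mp hx s)) (hconj.mem_toFinset.mpr hs)
  rw [Subgroup.mem_centralizer_singleton_iff] at this
  exact this.symm

/-- The chain in a countable FC-group. -/
theorem exists_chain (hFC : FCG G) [Countable G] :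
    ∃ L : ℕ → Subgroup G, (∀ n, (L n).Normal) ∧
      (∀ n, (Subgroup.centralizer ((L n : Subgroup G) : Set G)).FiniteIndex) ∧
      (L 0 = ⊥) ∧ (L 1 = ⊥) ∧ (∀ n, L n ≤ L (n+1)) ∧ (∀ g, ∃ n, g ∈ L n) ∧
      ∀ n, ∀ g, ∃ l ∈ L (n+1), l⁻¹ * g ∈ Subgroup.centralizer ((L n : Subgroup G) : Set G) := by
  classical
  obtain ⟨e, he⟩ := exists_surjective_nat G
  have hT : ∀ F : Finset G, ∃ T : Finset G, ∀ g, ∃ t ∈ T, t⁻¹ * g ∈
      Subgroup.centralizer ((Subgroup.normalClosure (F : Set G) : Subgroup G) : Set G) :=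
    fun F => exists_reps _ (centralizer_nc_fi hFC _ F.finite_toSet)
  choose T hT using hT
  obtain ⟨F, hF0, hFs⟩ : ∃ F : ℕ → Finset G, F 0 = ∅ ∧ ∀ n, F (n+1) = F n ∪ {e n} ∪ T (F n) :=
    ⟨fun n => Nat.rec ∅ (fun n F => F ∪ {e n} ∪ T F) n, rfl, fun n => rfl⟩
  obtain ⟨F', h0, h1, h2⟩ : ∃ F' : ℕ → Finset G, F' 0 = ∅ ∧ F' 1 = ∅ ∧ ∀ n, F' (n+2) = F (n+1) :=
    ⟨fun n => F (n-1), hF0, hF0, fun n => rfl⟩
  have h2' : ∀ n, F' (n+1) = F n := by
    intro n
    rcases n with _ | n
    · rw [hF0]; exact h1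
    · exact h2 n
  have hnc : Subgroup.normalClosure ((∅ : Finset G) : Set G) = ⊥ := by simp
  refine ⟨fun n => Subgroup.normalClosure (F' n : Set G),
    fun n => Subgroup.normalClosure_normal,
    fun n => centralizer_nc_fi hFC (F' n : Set G) (F' n).finite_toSet,
    ?_, ?_, ?_, ?_, ?_⟩
  · simp only [h0, hnc]
  · simp only [h1, hnc]
  · intro n
    apply Subgroup.normalClosure_mono
    rcases n with _ | n
    · rw [h0, h1]
    · rw [h2' n, h2 n, hFs]
      intro x hx
      simp only [Finset.coe_union, Set.mem_union]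
      exact Or.inl (Or.inl hx)
  · intro g
    obtain ⟨n, rfl⟩ := he g
    refine ⟨n + 2, Subgroup.subset_normalClosure ?_⟩
    rw [h2 n, hFs]
    simp
  · intro n g
    rcases n with _ | n
    · refine ⟨1, one_mem _, ?_⟩
      simp only [h0, hnc]
      rw [Subgroup.mem_centralizer_iff]
      intro h hh
      have : h = 1 := hh
      rw [this]; simp
    · obtain ⟨t, ht, htg⟩ := hT (F n) g
      refine ⟨t, Subgroup.subset_normalClosure ?_, ?_⟩
      · rw [h2 n, hFs]
        simp [ht]
      · simp only [h2' n]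
        exact htg

end chain

end Pool.Agent.S02457.FCV

namespace Pool.Agent.S02457.FCV

open scoped commutatorElement Pointwise

section two

variable {C : ∀ (G : Type) [Group G], Prop}

theorem Var.subdirect3 (hC : Var C) {ι κ : Type} (K : ι → Type) [∀ i, Group (K i)]
    (hK : ∀ i, C (K i)) (K' : κ → Type) [∀ i, Group (K' i)]
    (hK' : ∀ i, C (K' i)) {S T : Type} [Group S] [Group T] (f : ∀ i, S →* K i)
    (f' : ∀ i, S →* K' i)
    (hfin : ∀ s, {i | f i s ≠ 1}.Finite) (hfin' : ∀ s, {i | f' i s ≠ 1}.Finite)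
    (g : S →* T) (hg : Function.Surjective g)
    (hk : ∀ s, (∀ i, f i s = 1) → (∀ i, f' i s = 1) → g s = 1) : C T := by
  classical
  let F : S →* ↥(⨆ i, (MonoidHom.mulSingle K i).range) :=
    MonoidHom.mk' (fun s => ⟨fun i => f i s, mem_restricted K _ (hfin s)⟩) (by
      intro a b
      apply Subtype.ext
      funext i
      exact map_mul (f i) a b)
  let F' : S →* ↥(⨆ i, (MonoidHom.mulSingle K' i).range) :=
    MonoidHom.mk' (fun s => ⟨fun i => f' i s, mem_restricted K' _ (hfin' s)⟩) (by
      intro a b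
      apply Subtype.ext
      funext i
      exact map_mul (f' i) a b)
  refine hC.sec (F.prod F') g hg ?_ (hC.prod2 (hC.prod _ K hK) (hC.prod _ K' hK'))
  intro s hs
  have hs1 : F s = 1 := congrArg Prod.fst hs
  have hs2 : F' s = 1 := congrArg Prod.snd hs
  refine hk s ?_ ?_
  · intro i
    exact congrFun (congrArg Subtype.val hs1) i
  · intro i
    exact congrFun (congrArg Subtype.val hs2) i

end two

/-- finitely supported families -/
def finSub {ι : Type} (K : ι → Type) [∀ i, Group (K i)] : Subgroup (∀ i, K i) where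
  carrier := {s | {i | s i ≠ 1}.Finite}
  one_mem' := by simp
  mul_mem' := by
    intro a b ha hb
    refine (ha.union hb).subset ?_
    intro i hi
    by_contra hcon
    apply hi
    simp only [Set.mem_union, Set.mem_ofPred_eq, not_or, not_not] at hcon
    show a i * b i = 1
    rw [hcon.1, hcon.2, one_mul]
  inv_mem' := by
    intro a ha
    refine Set.Finite.subset ha ?_
    intro i hi hcon
    apply hi
    show (a i)⁻¹ = 1
    rw [hcon, inv_one]

theorem mulSingle_finSub {ι : Type} [DecidableEq ι] (K : ι → Type) [∀ i, Group (K i)] (i : ι)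
    (b : K i) : Pi.mulSingle i b ∈ finSub K := by
  refine (Set.finite_singleton i).subset ?_
  intro j hj
  by_contra hne
  apply hj
  exact Pi.mulSingle_eq_of_ne hne b

section countable

variable {G : Type} [Group G] (L : ℕ → Subgroup G)

/-- the pieces -/
def MM (n : ℕ) : Subgroup G := L (n+2) ⊓ Subgroup.centralizer ((L n : Subgroup G) : Set G)

theorem MM_normal (hn : ∀ n, (L n).Normal) (n : ℕ) : (MM L n).Normal := by
  have := hn n
  have := hn (n+2)
  unfold MM
  infer_instance

theorem MM_comm (hmono : ∀ n, L n ≤ L (n+1)) (n m : ℕ) (h : n + 2 ≤ m) {x y : G}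
    (hx : x ∈ MM L n) (hy : y ∈ MM L m) : x * y = y * x := by
  have hmono' : Monotone L := monotone_nat_of_le_succ hmono
  exact Subgroup.mem_centralizer_iff.mp hy.2 x (hmono' h hx.1)

theorem MM_comm' (hmono : ∀ n, L n ≤ L (n+1)) (n m : ℕ) (h : n + 2 ≤ m ∨ m + 2 ≤ n) {x y : G}
    (hx : x ∈ MM L n) (hy : y ∈ MM L m) : x * y = y * x := by
  rcases h with h | h
  · exact MM_comm L hmono n m h hx hy
  · exact (MM_comm L hmono m n h hy hx).symm

theorem MM_fi (hfi : ∀ n, (Subgroup.centralizer ((L n : Subgroup G) : Set G)).FiniteIndex) (n : ℕ) :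
    (Subgroup.centralizer ((MM L n : Subgroup G) : Set G)).FiniteIndex := by
  have := hfi (n+2)
  refine Subgroup.finiteIndex_of_le
    (H := Subgroup.centralizer ((L (n+2) : Subgroup G) : Set G)) ?_
  apply Subgroup.centralizer_le
  intro x hx
  exact hx.1

theorem MM_gen (h1 : L 1 = ⊥) (hall : ∀ g, ∃ n, g ∈ L n)
    (hdec : ∀ n, ∀ g, ∃ l ∈ L (n+1), l⁻¹ * g ∈ Subgroup.centralizer ((L n : Subgroup G) : Set G))
    (h0 : L 0 = ⊥) (hmono : ∀ n, L n ≤ L (n+1)) (S : Subgroup G) (hS : ∀ n, MM L n ≤ S) : S = ⊤ := by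
  have key : ∀ n, L n ≤ S := by
    intro n
    induction n with
    | zero => rw [h0]; exact bot_le
    | succ n ih =>
      rcases n with _ | n
      · rw [h1]; exact bot_le
      · intro g hg
        obtain ⟨l, hl, hlg⟩ := hdec n g
        have h3 : l⁻¹ * g ∈ MM L n := ⟨(L (n+2)).mul_mem ((L (n+2)).inv_mem (hmono _ hl)) hg, hlg⟩
        have : g = l * (l⁻¹ * g) := by group
        rw [this]
        exact mul_mem (ih hl) (hS n h3)
  rw [eq_top_iff]
  intro g _
  obtain ⟨n, hn⟩ := hall g
  exact key n hn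

end countable

section countable2

variable {G : Type} [Group G] {C : ∀ (G : Type) [Group G], Prop}

theorem Var.ofPieces (hC : Var C) (M : ℕ → Subgroup G) [∀ n, (M n).Normal]
    (hcomm : ∀ n m, (n + 2 ≤ m ∨ m + 2 ≤ n) → ∀ x ∈ M n, ∀ y ∈ M m, x * y = y * x)
    (hSD : ∀ n, C (SD (M n))) (hM : ∀ n, C (M n))
    (hgen : ∀ S : Subgroup G, (∀ n, M n ≤ S) → S = ⊤) : C G := by
  classical
  let c : ∀ j, G →* QQ (M (2*j)) := fun j => (MulAut.conjNormal : G →* MulAut (M (2*j))).rangeRestrict
  have hc_one : ∀ j, ∀ g, (∀ x ∈ M (2*j), g * x = x * g) → c j g = 1 := by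
    intro j g hg
    apply Subtype.ext
    ext m
    show ((MulAut.conjNormal g m : M (2*j)) : G) = m.1
    rw [MulAut.conjNormal_apply, hg m.1 m.2]; simp
  let K : Type := (∀ j, SD (M (2*j))) × ((∀ j, M (2*j+1)) × G)
  let E : ∀ k, M (2*k) →* (∀ j, SD (M (2*j))) × ((∀ j, M (2*j+1)) × G) := fun k =>
    ((MonoidHom.mulSingle (fun j => SD (M (2*j))) k).comp SemidirectProduct.inl).prod
      ((1 : M (2*k) →* (∀ j, M (2*j+1))).prod (M (2*k)).subtype)
  let O : ∀ k, M (2*k+1) →* (∀ j, SD (M (2*j))) × ((∀ j, M (2*j+1)) × G) := fun k =>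
    (MonoidHom.pi (fun j => (SemidirectProduct.inr : QQ (M (2*j)) →* SD (M (2*j))).comp
      ((c j).comp (M (2*k+1)).subtype))).prod
      ((MonoidHom.mulSingle (fun j => M (2*j+1)) k).prod (M (2*k+1)).subtype)
  set RE : Subgroup ((∀ j, SD (M (2*j))) × ((∀ j, M (2*j+1)) × G)) := ⨆ k, (E k).range with hRE
  set RO : Subgroup ((∀ j, SD (M (2*j))) × ((∀ j, M (2*j+1)) × G)) := ⨆ k, (O k).range with hRO
  have hEmem : ∀ k b, E k b ∈ RE := fun k b => (le_iSup (fun k => (E k).range) k) ⟨b, rfl⟩
  have hOmem : ∀ k b, O k b ∈ RO := fun k b => (le_iSup (fun k => (O k).range) k) ⟨b, rfl⟩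
  -- conjugation
  have hconj : ∀ k (o : M (2*k+1)) j (e : M (2*j)),
      O k o * E j e * (O k o)⁻¹ = E j (MulAut.conjNormal o.1 e) := by
    intro k o j e
    apply Prod.ext
    · funext i
      show SemidirectProduct.inr (c i o.1) * Pi.mulSingle (M := fun j => SD (M (2*j))) j
        (SemidirectProduct.inl e) i *
        (SemidirectProduct.inr (c i o.1))⁻¹ = Pi.mulSingle (M := fun j => SD (M (2*j))) j
        (SemidirectProduct.inl (MulAut.conjNormal o.1 e)) i
      by_cases hij : i = j
      · subst hij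
        rw [Pi.mulSingle_eq_same, Pi.mulSingle_eq_same, ← map_inv, ← SemidirectProduct.inl_aut]
        rfl
      · rw [Pi.mulSingle_eq_of_ne hij, Pi.mulSingle_eq_of_ne hij]
        simp
    · apply Prod.ext
      · show Pi.mulSingle k o * 1 * (Pi.mulSingle k o)⁻¹ = (1 : ∀ j, M (2*j+1))
        simp
      · show o.1 * e.1 * (o.1)⁻¹ = ((MulAut.conjNormal o.1 e : M (2*j)) : G)
        rw [MulAut.conjNormal_apply]
  have hnorm : RO ≤ Subgroup.normalizer (RE : Set _) := by
    have key : ∀ k (o : M (2*k+1)), ∀ y ∈ RE, O k o * y * (O k o)⁻¹ ∈ RE := by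
      intro k o y hy
      have : RE ≤ RE.comap (MulAut.conj (O k o)).toMonoidHom := by
        rw [hRE]
        refine iSup_le ?_
        rintro j _ ⟨e, rfl⟩
        rw [Subgroup.mem_comap]
        show MulAut.conj (O k o) (E j e) ∈ _
        rw [MulAut.conj_apply, hconj]
        exact hEmem _ _
      exact this hy
    rw [hRO]
    refine iSup_le ?_
    rintro k _ ⟨o, rfl⟩
    rw [Subgroup.mem_normalizer_iff]
    intro y
    constructor
    · exact key k o y
    · intro h
      have := key k o⁻¹ _ h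
      rw [map_inv] at this
      simpa [mul_assoc] using this
  set S : Subgroup ((∀ j, SD (M (2*j))) × ((∀ j, M (2*j+1)) × G)) := RE ⊔ RO with hS
  have hSdec : ∀ s ∈ S, ∃ e ∈ RE, ∃ o ∈ RO, s = e * o := by
    intro s hs
    have h1 : s ∈ (RE : Set ((∀ j, SD (M (2*j))) × ((∀ j, M (2*j+1)) × G))) *
        (RO : Set ((∀ j, SD (M (2*j))) × ((∀ j, M (2*j+1)) × G))) := by
      rw [← Subgroup.coe_mul_of_right_le_normalizer_left _ _ hnorm]
      exact hs
    obtain ⟨e, he, o, ho, rfl⟩ := Set.mem_mul.mp h1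
    exact ⟨e, he, o, ho, rfl⟩
  refine hC.subdirect3 (S := S) (fun j => SD (M (2*j))) (fun j => hSD _)
    (fun j => M (2*j+1)) (fun j => hM _)
    (fun i => (Pi.evalMonoidHom _ i).comp ((MonoidHom.fst _ _).comp S.subtype))
    (fun i => (Pi.evalMonoidHom _ i).comp ((MonoidHom.fst (∀ j, M (2*j+1)) G).comp
      ((MonoidHom.snd _ _).comp S.subtype))) ?_ ?_
    ((MonoidHom.snd (∀ j, M (2*j+1)) G).comp ((MonoidHom.snd _ _).comp S.subtype)) ?_ ?_
  · rintro ⟨s, hs⟩
    show {i | s.1 i ≠ 1}.Finite
    have : S ≤ (finSub (fun j => SD (M (2*j)))).comap (MonoidHom.fst _ _) := by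
      rw [hS]
      refine sup_le (iSup_le ?_) (iSup_le ?_)
      · rintro k _ ⟨e, rfl⟩
        exact mulSingle_finSub _ k _
      · rintro k _ ⟨o, rfl⟩
        show {j | SemidirectProduct.inr (c j o.1) ≠ (1 : SD (M (2*j)))}.Finite
        refine (Set.toFinite {k, k+1}).subset ?_
        intro j hj
        by_contra hne
        apply hj
        simp only [Set.mem_insert_iff, Set.mem_singleton_iff, not_or] at hne
        rw [hc_one j o.1, map_one]
        intro x hx
        exact hcomm (2*k+1) (2*j) (by omega) _ o.2 _ hx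
    exact this hs
  · rintro ⟨s, hs⟩
    show {i | s.2.1 i ≠ 1}.Finite
    have : S ≤ (finSub (fun j => M (2*j+1))).comap ((MonoidHom.fst (∀ j, M (2*j+1)) G).comp
        (MonoidHom.snd _ _)) := by
      rw [hS]
      refine sup_le (iSup_le ?_) (iSup_le ?_)
      · rintro k _ ⟨e, rfl⟩
        exact one_mem (finSub (fun j => M (2*j+1)))
      · rintro k _ ⟨o, rfl⟩
        exact mulSingle_finSub _ k _
    exact this hs
  · intro t
    have h1 := hgen ((MonoidHom.snd (∀ j, M (2*j+1)) G).comp
      ((MonoidHom.snd _ _).comp S.subtype)).range (by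
      intro n
      rcases Nat.even_or_odd' n with ⟨k, hk | hk⟩
      · subst hk
        intro x hx
        exact ⟨⟨E k ⟨x, hx⟩, (le_sup_left : RE ≤ S) (hEmem k _)⟩, rfl⟩
      · subst hk
        intro x hx
        exact ⟨⟨O k ⟨x, hx⟩, (le_sup_right : RO ≤ S) (hOmem k _)⟩, rfl⟩)
    have : t ∈ (⊤ : Subgroup G) := trivial
    rw [← h1] at this
    exact this
  · rintro ⟨s, hs⟩ h1 h2
    obtain ⟨e, he, o, ho, rfl⟩ := hSdec s hs
    -- the odd part vanishes
    have he2 : e.2.1 = 1 := by
      have : RE ≤ ((MonoidHom.fst (∀ j, M (2*j+1)) G).comp (MonoidHom.snd (∀ j, SD (M (2*j))) _)).ker := by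
        rw [hRE]
        refine iSup_le ?_
        rintro k _ ⟨b, rfl⟩
        rfl
      exact this he
    have ho2 : ∀ i, o.2.1 i = 1 := by
      intro i
      have : (e * o).2.1 i = 1 := h2 i
      have e' : (e * o).2.1 i = e.2.1 i * o.2.1 i := rfl
      rw [e', he2] at this
      simpa using this
    have hbot : ∀ a ∈ (⊥ : Subgroup ((∀ j, SD (M (2*j))) × ((∀ j, M (2*j+1)) × G))), a = 1 :=
      fun a ha => ha
    have ho3 : o = 1 := by
      apply hbot
      refine comm_family O ⊥ ?_ (D := fun j => M (2*j+1))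
        (fun i => (Pi.evalMonoidHom _ i).comp ((MonoidHom.fst (∀ j, M (2*j+1)) G).comp
          (MonoidHom.snd _ _))) ?_ ?_ ?_ o ((le_sup_left : RO ≤ RO ⊔ ⊥) ho) ho2
      · intro i j hij b b'
        rw [Subgroup.mem_bot, commutatorElement_eq_one_iff_mul_comm]
        have hbb : b.1 * b'.1 = b'.1 * b.1 := hcomm (2*i+1) (2*j+1) (by omega) _ b.2 _ b'.2
        apply Prod.ext
        · funext k
          show SemidirectProduct.inr (c k b.1) * SemidirectProduct.inr (c k b'.1) =
            SemidirectProduct.inr (c k b'.1) * (SemidirectProduct.inr (c k b.1) : SD (M (2*k)))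
          rw [← map_mul, ← map_mul, ← map_mul, ← map_mul, hbb]
        · apply Prod.ext
          · exact Pi.mulSingle_commute (f := fun j => ↥(M (2*j+1))) hij b b'
          · exact hbb
      · rintro i a ha
        rw [hbot a ha, map_one]
      · intro i j hij b
        exact Pi.mulSingle_eq_of_ne (M := fun j => ↥(M (2*j+1))) hij b
      · intro i b hb
        have : Pi.mulSingle (M := fun j => M (2*j+1)) i b i = 1 := hb
        rwa [Pi.mulSingle_eq_same] at this
    have he3 : e = 1 := by
      apply hbot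
      refine comm_family E ⊥ ?_ (D := fun j => SD (M (2*j)))
        (fun i => (Pi.evalMonoidHom _ i).comp (MonoidHom.fst _ _)) ?_ ?_ ?_ e
        ((le_sup_left : RE ≤ RE ⊔ ⊥) he) ?_
      · intro i j hij b b'
        rw [Subgroup.mem_bot, commutatorElement_eq_one_iff_mul_comm]
        have hbb : b.1 * b'.1 = b'.1 * b.1 := hcomm (2*i) (2*j) (by omega) _ b.2 _ b'.2
        apply Prod.ext
        · exact Pi.mulSingle_commute (f := fun j => SD (M (2*j))) hij _ _
        · apply Prod.ext
          · rfl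
          · exact hbb
      · rintro i a ha
        rw [hbot a ha, map_one]
      · intro i j hij b
        exact Pi.mulSingle_eq_of_ne (M := fun j => SD (M (2*j))) hij _
      · intro i b hb
        have : Pi.mulSingle (M := fun j => SD (M (2*j))) i (SemidirectProduct.inl b) i = 1 := hb
        rw [Pi.mulSingle_eq_same] at this
        exact SemidirectProduct.inl_injective (this.trans (map_one _).symm)
      · intro i
        have h11 : (e * o).1 i = 1 := h1 i
        rw [ho3, mul_one] at h11
        exact h11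
    show (e * o).2.2 = 1
    rw [he3, ho3]; simp

end countable2

theorem countable_case {C : ∀ (G : Type) [Group G], Prop} (hC : Var C) {G : Type} [Group G]
    (hFC : FCG G) [Countable G] : C G := by
  obtain ⟨L, hn, hfi, h0, h1, hmono, hall, hdec⟩ := exists_chain hFC
  have hn' : ∀ n, (MM L n).Normal := MM_normal L hn
  have hsd : ∀ n, C (SD (MM L n)) := fun n => hC.fin _ (sd_fin hFC (MM L n) (MM_fi L hfi n))
  refine hC.ofPieces (MM L) (fun n m h x hx y hy => MM_comm' L hmono n m h hx hy) hsd ?_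
    (fun S hS => MM_gen L h1 hall hdec h0 hmono S hS)
  intro n
  exact hC.inj (SemidirectProduct.inl : MM L n →* SD (MM L n)) SemidirectProduct.inl_injective
    (hsd n)

end Pool.Agent.S02457.FCV

namespace Pool.Agent.S02457.FCV

open scoped commutatorElement Pointwise

section ultra

variable {G : Type} [Group G]

/-- finite approximation -/
theorem approx [LinearOrder (XX G)] (E : Finset (XX G)) (W : Finset G) :
    ∃ c : XX G → G, (∀ x ∈ E, ∀ w ∈ W, x.1 w = (c x)⁻¹ * w * c x) ∧
      ∀ x ∈ E, ∀ y ∈ E, x < y → y.1 (c x) = (c y)⁻¹ * c x * c y := by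
  classical
  induction E using Finset.induction_on_max with
  | empty => exact ⟨fun _ => 1, by simp, by simp⟩
  | insert y E hmax ih =>
    obtain ⟨c, h1, h2⟩ := ih
    obtain ⟨d, hd⟩ := y.2.1 (W ∪ E.image c)
    have hyE : ∀ x ∈ E, x ≠ y := fun x hx => (hmax x hx).ne
    refine ⟨Function.update c y d, ?_, ?_⟩
    · intro x hx w hw
      rcases Finset.mem_insert.mp hx with rfl | hx
      · rw [Function.update_self]
        exact hd w (Finset.mem_union_left _ hw)
      · rw [Function.update_of_ne (hyE x hx)]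
        exact h1 x hx w hw
    · intro x hx z hz hxz
      rcases Finset.mem_insert.mp hz with rfl | hz'
      · rcases Finset.mem_insert.mp hx with rfl | hx
        · exact absurd hxz (lt_irrefl _)
        · rw [Function.update_self, Function.update_of_ne (hyE x hx)]
          exact hd _ (Finset.mem_union_right _ (Finset.mem_image_of_mem _ hx))
      · rcases Finset.mem_insert.mp hx with rfl | hx
        · exact absurd (hmax z hz') (not_lt.mpr hxz.le)
        · rw [Function.update_of_ne (hyE x hx), Function.update_of_ne (hyE z hz')]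
          exact h2 x hx z hz' hxz

theorem exists_Q :
    ∃ (Q : Type) (_ : Group Q) (i : G →* Q) (q : XX G → Q), Function.Injective i ∧
      (∀ z ∈ Subgroup.center G, ∀ u : Q, i z * u = u * i z) ∧
      (∀ x g, (q x)⁻¹ * i g * q x = i (x.1 g)) ∧
      ∀ x y, ∃ t ∈ commutator G, (q x)⁻¹ * (q y)⁻¹ * q x * q y = i t := by
  classical
  let _ : LinearOrder (XX G) := linearOrderOfSTO WellOrderingRel
  choose c hc1 hc2 using fun p : Finset (XX G) × Finset G => approx p.1 p.2
  let U : Ultrafilter (Finset (XX G) × Finset G) := Ultrafilter.of Filter.atTop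
  have hU : (U : Filter (Finset (XX G) × Finset G)) ≤ Filter.atTop := Ultrafilter.of_le _
  let i : G →* Filter.Germ (U : Filter (Finset (XX G) × Finset G)) G :=
    (Filter.Germ.coeMulHom (U : Filter (Finset (XX G) × Finset G))).comp
      (MonoidHom.mk' (fun g => fun _ => g) (fun a b => rfl))
  have hiapp : ∀ g, i g = ((fun _ => g : (Finset (XX G) × Finset G) → G) :
      Filter.Germ (U : Filter (Finset (XX G) × Finset G)) G) := fun g => rfl
  let q : XX G → Filter.Germ (U : Filter (Finset (XX G) × Finset G)) G :=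
    fun x => ((fun p => c p x : (Finset (XX G) × Finset G) → G) :
      Filter.Germ (U : Filter (Finset (XX G) × Finset G)) G)
  have hev : ∀ (E : Finset (XX G)) (W : Finset G),
      ∀ᶠ p in (U : Filter (Finset (XX G) × Finset G)), E ⊆ p.1 ∧ W ⊆ p.2 := by
    intro E W
    exact (Filter.eventually_ge_atTop (E, W)).filter_mono hU |>.mono (fun p hp => hp)
  have hlt : ∀ x y, x < y → ∃ t ∈ commutator G, (q x)⁻¹ * (q y)⁻¹ * q x * q y = i t := by
    intro x y hxy
    have hmem : (⋃ v ∈ Set.range (dl y.1), {p | (c p x)⁻¹ * (c p y)⁻¹ * c p x * c p y = v}) ∈ U := by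
      have : ∀ᶠ p in (U : Filter (Finset (XX G) × Finset G)),
          p ∈ (⋃ v ∈ Set.range (dl y.1), {p | (c p x)⁻¹ * (c p y)⁻¹ * c p x * c p y = v}) := by
        filter_upwards [hev {x, y} ∅] with p hp
        simp only [Set.mem_iUnion]
        refine ⟨dl y.1 (c p x), ⟨_, rfl⟩, ?_⟩
        show (c p x)⁻¹ * (c p y)⁻¹ * c p x * c p y = dl y.1 (c p x)
        unfold dl
        rw [hc2 p x (hp.1 (by simp)) y (hp.1 (by simp)) hxy]
        group
      exact this
    rw [Ultrafilter.finite_biUnion_mem_iff y.2.2] at hmem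
    obtain ⟨v, ⟨g, rfl⟩, hv⟩ := hmem
    refine ⟨dl y.1 g, y.2.1.dl_comm g, ?_⟩
    rw [hiapp]
    have h1 : (q x)⁻¹ * (q y)⁻¹ * q x * q y = ((fun p => (c p x)⁻¹ * (c p y)⁻¹ * c p x * c p y :
        (Finset (XX G) × Finset G) → G) :
        Filter.Germ (U : Filter (Finset (XX G) × Finset G)) G) := rfl
    rw [h1, Filter.Germ.coe_eq]
    exact hv
  refine ⟨_, inferInstance, i, q, ?_, ?_, ?_, ?_⟩
  · intro a b hab
    rw [hiapp, hiapp] at hab
    exact Filter.Germ.const_inj.mp hab
  · intro z hz u
    induction u using Filter.Germ.inductionOn with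
    | _ f =>
      rw [hiapp, ← Filter.Germ.coe_mul, ← Filter.Germ.coe_mul]
      congr 1
      funext p
      exact (Subgroup.mem_center_iff.mp hz (f p)).symm
  · intro x g
    rw [hiapp, hiapp]
    have h1 : (q x)⁻¹ * ((fun _ => g : (Finset (XX G) × Finset G) → G) :
      Filter.Germ (U : Filter (Finset (XX G) × Finset G)) G) * q x = ((fun p => (c p x)⁻¹ * g * c p x :
        (Finset (XX G) × Finset G) → G) :
        Filter.Germ (U : Filter (Finset (XX G) × Finset G)) G) := rfl
    rw [h1, Filter.Germ.coe_eq]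
    filter_upwards [hev {x} {g}] with p hp
    exact (hc1 p x (hp.1 (by simp)) g (hp.2 (by simp))).symm
  · intro x y
    rcases lt_trichotomy x y with h | h | h
    · exact hlt x y h
    · subst h
      exact ⟨1, one_mem _, by rw [map_one]; group⟩
    · obtain ⟨t, ht, h1⟩ := hlt y x h
      refine ⟨t⁻¹, inv_mem ht, ?_⟩
      rw [map_inv, ← h1]
      group

end ultra

end Pool.Agent.S02457.FCV

namespace Pool.Agent.S02457.FCV

open scoped commutatorElement Pointwise IsMulCommutative

section tw

/-- twisted product of a group with an abelian group -/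
@[ext] structure Tw {Q Z L : Type} [Group Q] [CommGroup Z] [AddCommGroup L]
    (j : Z →* ↥(Subgroup.center Q)) (β : L →+ L →+ Additive Z) where
  a : Q
  m : L

namespace Tw

variable {Q Z L : Type} [Group Q] [CommGroup Z] [AddCommGroup L]
    {j : Z →* ↥(Subgroup.center Q)} {β : L →+ L →+ Additive Z}

/-- value of the cocycle -/
def co (j : Z →* ↥(Subgroup.center Q)) (z : Additive Z) : Q := (j (Additive.toMul z) : Q)

theorem co_add (z w : Additive Z) : co j (z + w) = co j z * co j w := by
  unfold co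
  rw [toMul_add, map_mul]; rfl

theorem co_zero : co j 0 = 1 := by
  unfold co
  rw [toMul_zero, map_one]; rfl

theorem co_neg (z : Additive Z) : co j (-z) = (co j z)⁻¹ := by
  unfold co
  rw [toMul_neg, map_inv]; rfl

theorem co_comm (z : Additive Z) (u : Q) : co j z * u = u * co j z :=
  (Subgroup.mem_center_iff.mp (j (Additive.toMul z)).2 u).symm

instance : Mul (Tw j β) := ⟨fun x y => ⟨x.a * y.a * co j (β x.m y.m), x.m + y.m⟩⟩
instance : One (Tw j β) := ⟨⟨1, 0⟩⟩
instance : Inv (Tw j β) := ⟨fun x => ⟨(x.a)⁻¹ * co j (β x.m x.m), -x.m⟩⟩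

theorem mul_a (x y : Tw j β) : (x * y).a = x.a * y.a * co j (β x.m y.m) := rfl
theorem mul_m (x y : Tw j β) : (x * y).m = x.m + y.m := rfl
theorem one_a : (1 : Tw j β).a = 1 := rfl
theorem one_m : (1 : Tw j β).m = 0 := rfl
theorem inv_a (x : Tw j β) : (x⁻¹).a = (x.a)⁻¹ * co j (β x.m x.m) := rfl
theorem inv_m (x : Tw j β) : (x⁻¹).m = -x.m := rfl

instance : Group (Tw j β) := Group.ofLeftAxioms
  (by
    intro x y w
    apply Tw.ext
    · simp only [mul_a, mul_m, map_add, AddMonoidHom.add_apply, co_add]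
      have h1 := co_comm (j := j) (β x.m y.m) w.a
      calc x.a * y.a * co j (β x.m y.m) * w.a * (co j (β x.m w.m) * co j (β y.m w.m))
          = x.a * y.a * (co j (β x.m y.m) * w.a) * (co j (β x.m w.m) * co j (β y.m w.m)) := by group
        _ = x.a * y.a * (w.a * co j (β x.m y.m)) * (co j (β y.m w.m) * co j (β x.m w.m)) := by
            rw [h1, co_comm (j := j) (β x.m w.m) (co j (β y.m w.m))]
        _ = x.a * y.a * w.a * (co j (β x.m y.m) * co j (β y.m w.m)) * co j (β x.m w.m) := by group
        _ = x.a * y.a * w.a * (co j (β y.m w.m) * co j (β x.m y.m)) * co j (β x.m w.m) := by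
            rw [co_comm (j := j) (β x.m y.m) (co j (β y.m w.m))]
        _ = _ := by group
    · simp only [mul_m]; abel)
  (by
    intro x
    apply Tw.ext
    · simp [mul_a, one_a, one_m, co_zero]
    · simp [mul_m, one_m])
  (by
    intro x
    apply Tw.ext
    · simp only [mul_a, inv_a, inv_m, map_neg, AddMonoidHom.neg_apply, co_neg, one_a]
      have h1 := co_comm (j := j) (β x.m x.m) x.a
      calc (x.a)⁻¹ * co j (β x.m x.m) * x.a * (co j (β x.m x.m))⁻¹
          = (x.a)⁻¹ * (co j (β x.m x.m) * x.a) * (co j (β x.m x.m))⁻¹ := by group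
        _ = 1 := by rw [h1]; group
    · simp [mul_m, inv_m, one_m])

/-- the embedding -/
def inQ (j : Z →* ↥(Subgroup.center Q)) (β : L →+ L →+ Additive Z) : Q →* Tw j β :=
  MonoidHom.mk' (fun a => ⟨a, 0⟩) (by
    intro a b
    apply Tw.ext
    · simp [mul_a, co_zero]
    · simp [mul_m])

theorem inQ_a (a : Q) : (inQ j β a).a = a := rfl
theorem inQ_m (a : Q) : (inQ j β a).m = 0 := rfl

end Tw

end tw

section pkg

variable {G : Type} [Group G]

/-- the commutator automorphism -/
def ww (x y : XX G) : MulAut G := y.1 * x.1 * (y.1)⁻¹ * (x.1)⁻¹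

theorem ww_finite (x : XX G) : (Set.range (fun y => ww x y)).Finite := by
  refine ((XX_classes x.2).image (fun u => u * (x.1)⁻¹)).subset ?_
  rintro _ ⟨y, rfl⟩
  refine ⟨y.1 * x.1 * (y.1)⁻¹, ⟨(y.1)⁻¹, inv_mem y.2, by simp⟩, rfl⟩

theorem ww_inv (x y : XX G) : ww y x = (ww x y)⁻¹ := by
  unfold ww
  group

theorem ww_finite' (x : XX G) : (Set.range (fun y => ww y x)).Finite := by
  refine ((ww_finite x).image (fun u => u⁻¹)).subset ?_
  rintro _ ⟨y, rfl⟩
  exact ⟨_, ⟨y, rfl⟩, (ww_inv x y).symm⟩

/-- The completion package. -/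
theorem exists_P :
    ∃ (P : Type) (_ : Group P) (i : G →* P) (s : XX G → P), Function.Injective i ∧
      (∀ x g, (s x)⁻¹ * i g * s x = i (x.1 g)) ∧
      ∀ x, ∃ F : Set G, F.Finite ∧ (∀ t ∈ F, t ∈ commutator G) ∧
        ∀ y, ∃ t ∈ F, (s x)⁻¹ * (s y)⁻¹ * s x * s y = i t := by
  classical
  obtain ⟨Q, _, i, q, hinj, hcen, hq, hqq⟩ := exists_Q (G := G)
  choose τ0 hτ0 hτ using hqq
  -- the automorphism induced by the commutator
  have hw : ∀ x y, ∀ g, (τ0 x y)⁻¹ * g * τ0 x y = ww x y g := by
    intro x y g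
    apply hinj
    rw [map_mul, map_mul, map_inv, ← hτ]
    unfold ww
    have e1 : ∀ x : XX G, ∀ g, (q x) * i g * (q x)⁻¹ = i ((x.1)⁻¹ g) := by
      intro x g
      have := hq x ((x.1)⁻¹ g)
      rw [MulAut.apply_inv_self] at this
      rw [← this]; group
    have : i ((y.1 * x.1 * (y.1)⁻¹ * (x.1)⁻¹) g) =
        (q y)⁻¹ * ((q x)⁻¹ * ((q y) * ((q x) * i g * (q x)⁻¹) * (q y)⁻¹) * q x) * q y := by
      rw [e1, e1, hq, hq]; rfl
    rw [this]; group
  -- the section
  let σ : MulAut G → G := fun w => if h : ∃ t ∈ commutator G, ∀ g, t⁻¹ * g * t = w g then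
    h.choose else 1
  have hσ : ∀ x y, σ (ww x y) ∈ commutator G ∧ ∀ g, (σ (ww x y))⁻¹ * g * σ (ww x y) = ww x y g := by
    intro x y
    have h : ∃ t ∈ commutator G, ∀ g, t⁻¹ * g * t = ww x y g := ⟨τ0 x y, hτ0 x y, hw x y⟩
    have : σ (ww x y) = h.choose := dif_pos h
    rw [this]
    exact h.choose_spec
  have hζ : ∀ x y, (τ0 x y)⁻¹ * σ (ww x y) ∈ Subgroup.center G := by
    intro x y
    rw [Subgroup.mem_center_iff]
    intro g
    have h1 := hw x y (τ0 x y * g * (τ0 x y)⁻¹)
    have h2 := (hσ x y).2 (τ0 x y * g * (τ0 x y)⁻¹)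
    rw [← h1] at h2
    have h3 : (τ0 x y)⁻¹ * (τ0 x y * g * (τ0 x y)⁻¹) * τ0 x y = g := by group
    rw [h3] at h2
    calc g * ((τ0 x y)⁻¹ * σ (ww x y))
        = ((σ (ww x y))⁻¹ * (τ0 x y * g * (τ0 x y)⁻¹) * σ (ww x y)) *
          ((τ0 x y)⁻¹ * σ (ww x y)) := by rw [h2]
      _ = ((τ0 x y)⁻¹ * σ (ww x y)) * (((τ0 x y)⁻¹ * σ (ww x y))⁻¹ *
          ((σ (ww x y))⁻¹ * (τ0 x y * g * (τ0 x y)⁻¹) * σ (ww x y)) *
          ((τ0 x y)⁻¹ * σ (ww x y))) := by group
      _ = ((τ0 x y)⁻¹ * σ (ww x y)) * ((σ (ww x y))⁻¹ * τ0 x y * g *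
          (τ0 x y)⁻¹ * σ (ww x y)) := by rw [h2]; group
      _ = ((τ0 x y)⁻¹ * σ (ww x y)) *
          ((σ (ww x y))⁻¹ * (τ0 x y * g * (τ0 x y)⁻¹) * σ (ww x y)) := by group
      _ = ((τ0 x y)⁻¹ * σ (ww x y)) * g := by rw [h2]
  -- the twist
  let jj : ↥(Subgroup.center G) →* ↥(Subgroup.center Q) :=
    MonoidHom.mk' (fun z => ⟨i z.1, by
      rw [Subgroup.mem_center_iff]
      intro u
      exact (hcen z.1 z.2 u).symm⟩) (by
      intro a b
      apply Subtype.ext
      exact map_mul i _ _)
  let b : XX G → XX G → Additive ↥(Subgroup.center G) := fun x y =>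
    if WellOrderingRel x y then Additive.ofMul ⟨_, hζ x y⟩ else 0
  let s : XX G → Tw jj (bil b) := fun x => ⟨q x, Finsupp.single x 1⟩
  have hlt : ∀ x y, WellOrderingRel x y →
      (s x)⁻¹ * (s y)⁻¹ * s x * s y = Tw.inQ jj (bil b) (i (σ (ww x y))) := by
    intro x y hxy
    have hyx : ¬ WellOrderingRel y x := asymm_of _ hxy
    have key : s x * s y = s y * s x * Tw.inQ jj (bil b) (i (σ (ww x y))) := by
      apply Tw.ext
      · simp only [Tw.mul_a, Tw.mul_m, Tw.inQ_a, Tw.inQ_m, map_zero, Tw.co_zero, mul_one]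
        show q x * q y * Tw.co jj (bil b (Finsupp.single x 1) (Finsupp.single y 1)) =
          q y * q x * Tw.co jj (bil b (Finsupp.single y 1) (Finsupp.single x 1)) *
            i (σ (ww x y))
        rw [bil_single, bil_single, one_smul, one_smul, one_smul, one_smul]
        have e1 : b x y = Additive.ofMul ⟨_, hζ x y⟩ := if_pos hxy
        have e2 : b y x = 0 := if_neg hyx
        rw [e1, e2, Tw.co_zero, mul_one]
        have e3 : Tw.co jj (Additive.ofMul ⟨_, hζ x y⟩) = i ((τ0 x y)⁻¹ * σ (ww x y)) := rfl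
        rw [e3, map_mul, map_inv, ← hτ]
        group
      · simp only [Tw.mul_m, Tw.inQ_m, add_zero]
        exact add_comm _ _
    calc (s x)⁻¹ * (s y)⁻¹ * s x * s y = (s x)⁻¹ * (s y)⁻¹ * (s x * s y) := by group
      _ = (s x)⁻¹ * (s y)⁻¹ * (s y * s x * Tw.inQ jj (bil b) (i (σ (ww x y)))) := by rw [key]
      _ = _ := by group
  refine ⟨Tw jj (bil b), inferInstance, (Tw.inQ jj (bil b)).comp i, s, ?_, ?_, ?_⟩
  · intro a c hac
    have : (Tw.inQ jj (bil b) (i a)).a = (Tw.inQ jj (bil b) (i c)).a := congrArg Tw.a hac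
    exact hinj this
  · intro x g
    have key : Tw.inQ jj (bil b) (i g) * s x = s x * Tw.inQ jj (bil b) (i (x.1 g)) := by
      apply Tw.ext
      · simp only [Tw.mul_a, Tw.inQ_a, Tw.inQ_m, map_zero, AddMonoidHom.zero_apply, Tw.co_zero,
          mul_one]
        show i g * q x = q x * i (x.1 g)
        rw [← hq]; group
      · simp only [Tw.mul_m, Tw.inQ_m]
        exact add_comm _ _
    show (s x)⁻¹ * Tw.inQ jj (bil b) (i g) * s x = Tw.inQ jj (bil b) (i (x.1 g))
    rw [mul_assoc, key]; group
  · intro x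
    refine ⟨{1} ∪ σ '' (Set.range (fun y => ww x y)) ∪ (σ '' (Set.range (fun y => ww y x)))⁻¹,
      ((Set.finite_singleton _).union ((ww_finite x).image σ)).union
        ((ww_finite' x).image σ).inv, ?_, ?_⟩
    · rintro t ((ht | ⟨_, ⟨y, rfl⟩, rfl⟩) | ht)
      · rw [Set.mem_singleton_iff] at ht
        rw [ht]; exact one_mem _
      · exact (hσ x y).1
      · obtain ⟨_, ⟨y, rfl⟩, h⟩ := Set.mem_inv.mp ht
        have := (hσ y x).1
        simp only at h
        rw [h] at this
        simpa using inv_mem this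
    · intro y
      rcases trichotomous_of WellOrderingRel x y with h | h | h
      · exact ⟨σ (ww x y), Or.inl (Or.inr ⟨_, ⟨y, rfl⟩, rfl⟩), hlt x y h⟩
      · subst h
        refine ⟨1, Or.inl (Or.inl rfl), ?_⟩
        rw [map_one]; group
      · refine ⟨(σ (ww y x))⁻¹, Or.inr (Set.mem_inv.mpr ⟨_, ⟨y, rfl⟩, by simp⟩), ?_⟩
        have := hlt y x h
        rw [map_inv]
        show _ = (Tw.inQ jj (bil b) (i (σ (ww y x))))⁻¹
        rw [← this]; group

end pkg

end Pool.Agent.S02457.FCV

namespace Pool.Agent.S02457.FCV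

open scoped commutatorElement Pointwise

section req

variable {G : Type} [Group G]

/-- labels -/
abbrev Om (G : Type) [Group G] : Type := G ⊕ MulAut G

/-- unary requirements -/
def U1 (a : Om G) (t : Set (Om G)) : Prop :=
  match a with
  | Sum.inl g => (Sum.inl g⁻¹ ∈ t) ∧ (∀ c : G, Sum.inl (c⁻¹ * g * c) ∈ t) ∧
      ∀ c : G, ∃ d : G, Sum.inl d ∈ t ∧ c⁻¹ * g * c = d⁻¹ * g * d
  | Sum.inr x => x ∈ XX G → (Sum.inr x⁻¹ ∈ t) ∧ (∀ y ∈ XX G, Sum.inr (y⁻¹ * x * y) ∈ t) ∧
      (x ≠ 1 → ∃ g : G, Sum.inl g ∈ t ∧ x g ≠ g)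

/-- binary requirements -/
def U2 (a b : Om G) (t : Set (Om G)) : Prop :=
  match a, b with
  | Sum.inl g, Sum.inl h => Sum.inl (g * h) ∈ t
  | Sum.inr x, Sum.inr y => Sum.inr (x * y) ∈ t
  | _, _ => True

/-- finite requirements -/
def U3 (s : Finset (Om G)) (t : Set (Om G)) : Prop :=
  ((Subgroup.normalClosure {g : G | (Sum.inl g : Om G) ∈ s} : Subgroup G) : Set G).Finite →
    ∃ (W : Finset G) (K : Set (MulAut G)), K.Finite ∧ (∀ k ∈ K, k ∈ XX G) ∧
      (∀ H : Subgroup G, ↑W ⊆ (H : Set G) → ∀ x ∈ XX G,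
        (∀ h ∈ H, dl x h ∈ Subgroup.normalClosure {g : G | (Sum.inl g : Om G) ∈ s}) →
        ∃ k ∈ K, ∀ h ∈ H, dl (k⁻¹ * x) h ∈ Subgroup.center G) ∧
      (∀ w ∈ W, Sum.inl w ∈ t) ∧ ∀ k ∈ K, Sum.inr k ∈ t

theorem U1.mono {a : Om G} {t t' : Set (Om G)} (h : t ⊆ t') (hu : U1 a t) : U1 a t' := by
  cases a with
  | inl g =>
    obtain ⟨h1, h2, h3⟩ := hu
    refine ⟨h h1, fun c => h (h2 c), fun c => ?_⟩
    obtain ⟨d, hd, hd'⟩ := h3 c
    exact ⟨d, h hd, hd'⟩
  | inr x =>
    intro hx
    obtain ⟨h1, h2, h3⟩ := hu hx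
    refine ⟨h h1, fun y hy => h (h2 y hy), fun hne => ?_⟩
    obtain ⟨g, hg, hg'⟩ := h3 hne
    exact ⟨g, h hg, hg'⟩

theorem U2.mono {a b : Om G} {t t' : Set (Om G)} (h : t ⊆ t') (hu : U2 a b t) : U2 a b t' := by
  cases a <;> cases b
  · exact h hu
  · trivial
  · trivial
  · exact h hu

theorem U3.mono {s : Finset (Om G)} {t t' : Set (Om G)} (h : t ⊆ t') (hu : U3 s t) : U3 s t' := by
  intro hf
  obtain ⟨W, K, h1, h2, h3, h4, h5⟩ := hu hf
  exact ⟨W, K, h1, h2, h3, fun w hw => h (h4 w hw), fun k hk => h (h5 k hk)⟩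

theorem exU1 (hFC : FCG G) (a : Om G) : ∃ t : Set (Om G), t.Countable ∧ U1 a t := by
  classical
  cases a with
  | inl g =>
    have h1 : ∀ u : {u | ∃ c, u = c⁻¹ * g * c}, ∃ d, u.1 = d⁻¹ * g * d := fun u => u.2
    choose d hd using h1
    have := (hFC.fin g).to_subtype
    refine ⟨{Sum.inl g⁻¹} ∪ (Sum.inl '' {u | ∃ c, u = c⁻¹ * g * c}) ∪
      (Sum.inl '' Set.range d), ?_, ?_, ?_, ?_⟩
    · exact (((Set.finite_singleton _).union ((hFC.fin g).image _)).union
        ((Set.finite_range d).image _)).countable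
    · exact Or.inl (Or.inl rfl)
    · intro c
      exact Or.inl (Or.inr ⟨_, ⟨c, rfl⟩, rfl⟩)
    · intro c
      exact ⟨d ⟨c⁻¹ * g * c, c, rfl⟩, Or.inr ⟨_, ⟨_, rfl⟩, rfl⟩, hd ⟨c⁻¹ * g * c, c, rfl⟩⟩
  | inr x =>
    by_cases hx : x ∈ XX G
    · have h1 : ∃ g : G, x ≠ 1 → x g ≠ g := by
        by_contra hcon
        push Not at hcon
        obtain ⟨hne, _⟩ := hcon 1
        apply hne
        ext g
        exact (hcon g).2
      obtain ⟨g, hg⟩ := h1
      refine ⟨{Sum.inr x⁻¹} ∪ (Sum.inr '' {w | ∃ y ∈ XX G, w = y⁻¹ * x * y}) ∪ {Sum.inl g}, ?_,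
        fun _ => ⟨?_, ?_, ?_⟩⟩
      · exact (((Set.finite_singleton _).union ((XX_classes hx).image _)).union
          (Set.finite_singleton _)).countable
      · exact Or.inl (Or.inl rfl)
      · intro y hy
        exact Or.inl (Or.inr ⟨_, ⟨y, hy, rfl⟩, rfl⟩)
      · intro hne
        exact ⟨g, Or.inr rfl, hg hne⟩
    · exact ⟨∅, Set.countable_empty, fun h => absurd h hx⟩

theorem exU2 (a b : Om G) : ∃ t : Set (Om G), t.Countable ∧ U2 a b t := by
  cases a <;> cases b
  · exact ⟨{Sum.inl _}, Set.countable_singleton _, rfl⟩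
  · exact ⟨∅, Set.countable_empty, trivial⟩
  · exact ⟨∅, Set.countable_empty, trivial⟩
  · exact ⟨{Sum.inr _}, Set.countable_singleton _, rfl⟩

theorem exU3 (hFC : FCG G) (s : Finset (Om G)) : ∃ t : Set (Om G), t.Countable ∧ U3 s t := by
  by_cases hf : ((Subgroup.normalClosure {g : G | (Sum.inl g : Om G) ∈ s} : Subgroup G) :
      Set G).Finite
  · obtain ⟨W, K, h1, h2, h3⟩ := lemmaB0 hFC _ Subgroup.normalClosure_normal hf
    refine ⟨(Sum.inl '' (W : Set G)) ∪ (Sum.inr '' K), ?_, fun _ => ⟨W, K, h1, h2, h3, ?_, ?_⟩⟩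
    · exact ((W.finite_toSet.image _).union (h1.image _)).countable
    · intro w hw
      exact Or.inl ⟨w, hw, rfl⟩
    · intro k hk
      exact Or.inr ⟨k, hk, rfl⟩
  · exact ⟨∅, Set.countable_empty, fun h => absurd h hf⟩

/-- all requirements -/
def Req (s : Finset (Om G)) (t : Set (Om G)) : Prop :=
  Sum.inl 1 ∈ t ∧ Sum.inr 1 ∈ t ∧ (∀ a ∈ s, U1 a t) ∧ (∀ a ∈ s, ∀ b ∈ s, U2 a b t) ∧ U3 s t

theorem exReq (hFC : FCG G) (s : Finset (Om G)) :
    ∃ t : Set (Om G), t.Countable ∧ Req s t := by
  choose t1 h1 h1' using exU1 hFC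
  choose t2 h2 h2' using (exU2 : ∀ a b : Om G, _)
  obtain ⟨t3, h3, h3'⟩ := exU3 hFC s
  set t : Set (Om G) := {Sum.inl 1, Sum.inr 1} ∪ (⋃ a ∈ (s : Set (Om G)), t1 a) ∪
    (⋃ a ∈ (s : Set (Om G)), ⋃ b ∈ (s : Set (Om G)), t2 a b) ∪ t3 with ht
  have hs1 : ∀ a ∈ s, t1 a ⊆ t := by
    intro a ha x hx
    refine Or.inl (Or.inl (Or.inr ?_))
    exact Set.mem_biUnion (x := a) ha hx
  have hs2 : ∀ a ∈ s, ∀ b ∈ s, t2 a b ⊆ t := by
    intro a ha b hb x hx
    refine Or.inl (Or.inr ?_)
    exact Set.mem_biUnion (x := a) ha (Set.mem_biUnion (x := b) hb hx)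
  refine ⟨t, ?_, ?_, ?_, ?_, ?_, ?_⟩
  · refine (((Set.toFinite {Sum.inl 1, Sum.inr 1}).countable.union ?_).union ?_).union h3
    · exact Set.Countable.biUnion s.countable_toSet (fun a _ => h1 a)
    · exact Set.Countable.biUnion s.countable_toSet (fun a _ =>
        Set.Countable.biUnion s.countable_toSet (fun b _ => h2 a b))
  · exact Or.inl (Or.inl (Or.inl (Or.inl rfl)))
  · exact Or.inl (Or.inl (Or.inl (Or.inr rfl)))
  · intro a ha
    exact (h1' a).mono (hs1 a ha)
  · intro a ha b hb
    exact (h2' a b).mono (hs2 a ha b hb)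
  · exact h3'.mono (fun x hx => Or.inr hx)

/-- the closure operation -/
noncomputable def FF (hFC : FCG G) (s : Finset (Om G)) : Set (Om G) := (exReq hFC s).choose

theorem FF_countable (hFC : FCG G) (s : Finset (Om G)) : (FF hFC s).Countable :=
  (exReq hFC s).choose_spec.1

theorem FF_req (hFC : FCG G) (s : Finset (Om G)) : Req s (FF hFC s) :=
  (exReq hFC s).choose_spec.2

section closed

variable {hFC : FCG G} {C : Set (Om G)} (hC : Closed (FF hFC) C)
include hC

theorem c_U1 {a : Om G} (ha : a ∈ C) : U1 a C := by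
  have := (FF_req hFC {a}).2.2.1 a (by simp)
  exact this.mono (hC {a} (by simpa using ha))

theorem c_U2 {a b : Om G} (ha : a ∈ C) (hb : b ∈ C) : U2 a b C := by
  classical
  have := (FF_req hFC {a, b}).2.2.2.1 a (by simp) b (by simp)
  refine this.mono (hC {a, b} ?_)
  intro x hx
  simp only [Finset.coe_insert, Finset.coe_singleton, Set.mem_insert_iff,
    Set.mem_singleton_iff] at hx
  rcases hx with rfl | rfl
  · exact ha
  · exact hb

theorem c_U3 {s : Finset (Om G)} (hs : ↑s ⊆ C) : U3 s C :=
  (FF_req hFC s).2.2.2.2.mono (hC s hs)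

theorem c_g1 : (Sum.inl 1 : Om G) ∈ C := hC ∅ (by simp) (FF_req hFC ∅).1

theorem c_x1 : (Sum.inr 1 : Om G) ∈ C := hC ∅ (by simp) (FF_req hFC ∅).2.1

/-- the normal subgroup of `G` -/
def HH : Subgroup G where
  carrier := {g | (Sum.inl g : Om G) ∈ C}
  one_mem' := c_g1 hC
  mul_mem' := fun {a b} ha hb => c_U2 hC ha hb
  inv_mem' := fun {a} ha => (c_U1 hC ha).1

theorem HH_normal : (HH hC).Normal := by
  refine ⟨?_⟩
  intro g hg c
  have := (c_U1 hC (a := Sum.inl g) hg).2.1 c⁻¹
  rw [inv_inv] at this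
  exact this

theorem c_conj {g : G} (hg : (Sum.inl g : Om G) ∈ C) (c : G) :
    ∃ d : G, (Sum.inl d : Om G) ∈ C ∧ c⁻¹ * g * c = d⁻¹ * g * d := (c_U1 hC hg).2.2 c

theorem c_exK {x : MulAut G} (hx : x ∈ XX G) : ∃ k ∈ XX G, (Sum.inr k : Om G) ∈ C ∧
    ∀ h : G, (Sum.inl h : Om G) ∈ C → dl (k⁻¹ * x) h ∈ Subgroup.center G := by
  classical
  have hH := HH_normal hC
  have hfin : ((dl x) '' (HH hC : Set G)).Finite := hx.2.subset (Set.image_subset_range _ _)
  set s : Finset (Om G) := hfin.toFinset.image Sum.inl with hs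
  have hsC : ↑s ⊆ C := by
    intro a ha
    simp only [hs, Finset.coe_image, Set.mem_image, Finset.mem_coe, Set.Finite.mem_toFinset] at ha
    obtain ⟨u, ⟨h, hh, rfl⟩, rfl⟩ := ha
    exact hx.1.dl_normal hH hh
  have hset : {g : G | (Sum.inl g : Om G) ∈ s} = (dl x) '' (HH hC : Set G) := by
    ext g
    simp [hs]
  have hnc : ((Subgroup.normalClosure {g : G | (Sum.inl g : Om G) ∈ s} : Subgroup G) :
      Set G).Finite := by
    rw [hset]
    apply hFC.nc_comm_finite _ hfin
    rintro _ ⟨h, _, rfl⟩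
    exact hx.1.dl_comm h
  obtain ⟨W, K, h1, h2, h3, h4, h5⟩ := c_U3 hC hsC hnc
  obtain ⟨k, hk, hk'⟩ := h3 (HH hC) (fun w hw => h4 w hw) x hx (by
    intro h hh
    apply Subgroup.subset_normalClosure
    rw [hset]
    exact ⟨h, hh, rfl⟩)
  exact ⟨k, h2 k hk, h5 k hk, fun h hh => hk' h hh⟩

theorem c_comm {l : MulAut G} (hl : l ∈ XX G) (hlC : (Sum.inr l : Om G) ∈ C) {w : MulAut G}
    (hw : w ∈ XX G) (hwz : ∀ h : G, (Sum.inl h : Om G) ∈ C → dl w h ∈ Subgroup.center G) :
    l * w = w * l := by
  have h1 : (Sum.inr (w⁻¹ * l * w) : Om G) ∈ C := (c_U1 hC hlC hl).2.1 w hw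
  have h2 : (Sum.inr l⁻¹ : Om G) ∈ C := (c_U1 hC hlC hl).1
  have h3 : (Sum.inr (l⁻¹ * (w⁻¹ * l * w)) : Om G) ∈ C := c_U2 hC h2 h1
  have h4 : l⁻¹ * (w⁻¹ * l * w) ∈ XX G :=
    mul_mem (inv_mem hl) (mul_mem (mul_mem (inv_mem hw) hl) hw)
  have h5 : l⁻¹ * (w⁻¹ * l * w) = 1 := by
    by_contra hne
    obtain ⟨h, hh, hh'⟩ := (c_U1 hC h3 h4).2.2 hne
    apply hh'
    have hz := hwz h hh
    obtain ⟨c, hc⟩ := hl.1 {h}
    have hc' := hc h (by simp)
    obtain ⟨d, hd, hd'⟩ := c_conj hC hh c
    have hzd := hwz d hd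
    -- compute
    have e1 : w h = h * dl w h := dl_eq w h
    have e2 : w d = d * dl w d := dl_eq w d
    have e3 : l (w h) = l h * dl w h := by
      rw [e1, map_mul, hl.1.center hz]
    have e4 : w (l h) = l h * dl w h := by
      rw [hc', hd', map_mul, map_mul, map_inv, e1, e2]
      have z1 := Subgroup.mem_center_iff.mp hzd
      have z2 := Subgroup.mem_center_iff.mp hz
      calc (d * dl w d)⁻¹ * (h * dl w h) * (d * dl w d)
          = (dl w d)⁻¹ * (d⁻¹ * h * dl w h * d * dl w d) := by group
        _ = (dl w d)⁻¹ * (dl w d * (d⁻¹ * h * dl w h * d)) := by rw [← z1]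
        _ = d⁻¹ * h * (dl w h * d) := by group
        _ = d⁻¹ * h * (d * dl w h) := by rw [← z2]
        _ = _ := by group
    show l⁻¹ (w⁻¹ (l (w h))) = h
    rw [e3, ← e4, MulAut.inv_apply_self, MulAut.inv_apply_self]
  calc l * w = w * l * (l⁻¹ * (w⁻¹ * l * w)) := by group
    _ = w * l := by rw [h5, mul_one]

end closed

end req

end Pool.Agent.S02457.FCV

namespace Pool.Agent.S02457.FCV

open scoped commutatorElement Pointwise

section pkg

variable {G : Type} [Group G]

/-- the completion data -/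
structure Comp {T : Type} [Group T] (i : G →* T) (s : XX G → T) : Prop where
  inj : Function.Injective i
  act : ∀ x g, (s x)⁻¹ * i g * s x = i (x.1 g)
  fin : ∀ x, ∃ F : Set G, F.Finite ∧ (∀ t ∈ F, t ∈ commutator G) ∧
        ∀ y, ∃ t ∈ F, (s x)⁻¹ * (s y)⁻¹ * s x * s y = i t
  gen : Subgroup.closure (Set.range i ∪ Set.range s) = ⊤

theorem exists_Comp : ∃ (T : Type) (_ : Group T) (i : G →* T) (s : XX G → T), Comp i s := by
  obtain ⟨P, _, i, s, h1, h2, h3⟩ := exists_P (G := G)
  set T : Subgroup P := Subgroup.closure (Set.range i ∪ Set.range s) with hT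
  have hi : ∀ g, i g ∈ T := fun g => Subgroup.subset_closure (Or.inl ⟨g, rfl⟩)
  have hs : ∀ x, s x ∈ T := fun x => Subgroup.subset_closure (Or.inr ⟨x, rfl⟩)
  refine ⟨T, inferInstance, i.codRestrict T hi, fun x => ⟨s x, hs x⟩, ?_, ?_, ?_, ?_⟩
  · intro a b hab
    exact h1 (congrArg Subtype.val hab)
  · intro x g
    exact Subtype.ext (h2 x g)
  · intro x
    obtain ⟨F, hF, hF', hF''⟩ := h3 x
    refine ⟨F, hF, hF', fun y => ?_⟩
    obtain ⟨t, ht, ht'⟩ := hF'' y
    exact ⟨t, ht, Subtype.ext ht'⟩
  · have h4 := Subgroup.closure_closure_coe_preimage (k := Set.range i ∪ Set.range s)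
    rw [← h4]
    congr 1
    ext ⟨t, ht⟩
    simp only [Set.mem_union, Set.mem_range, Set.mem_preimage]
    constructor
    · rintro (⟨g, hg⟩ | ⟨x, hx⟩)
      · exact Or.inl ⟨g, congrArg Subtype.val hg⟩
      · exact Or.inr ⟨x, congrArg Subtype.val hx⟩
    · rintro (⟨g, hg⟩ | ⟨x, hx⟩)
      · exact Or.inl ⟨g, Subtype.ext hg⟩
      · exact Or.inr ⟨x, Subtype.ext hx⟩

/-- elements with finitely many conjugates -/
def fcE (T : Type) [Group T] : Subgroup T where
  carrier := {g | {u | ∃ c, u = c⁻¹ * g * c}.Finite}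
  one_mem' := by
    refine (Set.finite_singleton (1 : T)).subset ?_
    rintro _ ⟨c, rfl⟩
    simp
  mul_mem' := by
    intro a b ha hb
    refine (ha.mul hb).subset ?_
    rintro _ ⟨c, rfl⟩
    refine Set.mem_mul.mpr ⟨_, ⟨c, rfl⟩, _, ⟨c, rfl⟩, ?_⟩
    group
  inv_mem' := by
    intro a ha
    refine ha.inv.subset ?_
    rintro _ ⟨c, rfl⟩
    refine Set.mem_inv.mpr ⟨c, ?_⟩
    group

theorem fcE_top {T : Type} [Group T] (h : fcE T = ⊤) : FCG T := by
  intro g
  have hg : g ∈ fcE T := by rw [h]; trivial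
  refine Set.Finite.subset hg ?_
  intro u hu
  obtain ⟨c, hc⟩ := isConj_iff.mp hu
  exact ⟨c⁻¹, by rw [← hc]; simp⟩

variable {T : Type} [Group T] {i : G →* T} {s : XX G → T}

/-- every element acts as an element of `XX` -/
theorem Comp.act' (hc : Comp i s) (hFC : FCG G) (t : T) :
    ∃ x : XX G, ∀ g, t⁻¹ * i g * t = i (x.1 g) := by
  have ht : t ∈ Subgroup.closure (Set.range i ∪ Set.range s) := by rw [hc.gen]; trivial
  induction ht using Subgroup.closure_induction with
  | mem t ht =>
    rcases ht with ⟨a, rfl⟩ | ⟨x, rfl⟩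
    · refine ⟨⟨MulAut.conj a⁻¹, conj_mem_XX hFC _⟩, fun g => ?_⟩
      rw [MulAut.conj_apply, inv_inv, map_mul, map_mul, map_inv]
    · exact ⟨x, fun g => hc.act x g⟩
  | one => exact ⟨1, fun g => by simp⟩
  | mul t u _ _ ht hu =>
    obtain ⟨x, hx⟩ := ht
    obtain ⟨y, hy⟩ := hu
    refine ⟨y * x, fun g => ?_⟩
    calc (t * u)⁻¹ * i g * (t * u) = u⁻¹ * (t⁻¹ * i g * t) * u := by group
      _ = i ((y * x).1 g) := by rw [hx, hy]; rfl
  | inv t _ ht =>
    obtain ⟨x, hx⟩ := ht
    refine ⟨x⁻¹, fun g => ?_⟩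
    have h1 := hx ((x.1)⁻¹ g)
    rw [MulAut.apply_inv_self] at h1
    rw [← h1]
    show (t⁻¹)⁻¹ * (t⁻¹ * i ((x.1)⁻¹ g) * t) * t⁻¹ = i ((x⁻¹ : XX G).1 g)
    have : (x⁻¹ : XX G).1 = (x.1)⁻¹ := rfl
    rw [this]; group

theorem Comp.normal_map (hc : Comp i s) (hFC : FCG G) (R : Subgroup G) (hR : R.Normal) :
    (R.map i).Normal := by
  refine ⟨?_⟩
  rintro _ ⟨r, hr, rfl⟩ t
  obtain ⟨x, hx⟩ := hc.act' hFC t⁻¹
  have := hx r
  rw [inv_inv] at this
  rw [this]
  exact ⟨_, x.2.1.normal hR hr, rfl⟩

theorem cmod' {K : Type} [Group K] (A : Subgroup K) [A.Normal] (k y : K) :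
    y ∈ cmod A k ↔ k⁻¹ * y⁻¹ * k * y ∈ A := by
  rw [mem_cmod, commutatorElement_def]
  constructor
  · intro h
    have h1 := (inferInstance : A.Normal).conj_mem _ h (k⁻¹ * y⁻¹)
    have h2 : k⁻¹ * y⁻¹ * (k * y * k⁻¹ * y⁻¹) * (k⁻¹ * y⁻¹)⁻¹ = k⁻¹ * y⁻¹ * k * y := by group
    rwa [h2] at h1
  · intro h
    have h1 := (inferInstance : A.Normal).conj_mem _ h (y * k)
    have h2 : y * k * (k⁻¹ * y⁻¹ * k * y) * (y * k)⁻¹ = k * y * k⁻¹ * y⁻¹ := by group
    rwa [h2] at h1

theorem cmod_symm {K : Type} [Group K] (A : Subgroup K) [A.Normal] (k y : K) :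
    y ∈ cmod A k ↔ k ∈ cmod A y := by
  rw [mem_cmod, mem_cmod, ← commutatorElement_inv, inv_mem_iff]

/-- The completion is an FC-group. -/
theorem Comp.FC (hc : Comp i s) (hFC : FCG G) : FCG T := by
  apply fcE_top
  rw [eq_top_iff, ← hc.gen, Subgroup.closure_le]
  rintro _ (⟨g, rfl⟩ | ⟨x, rfl⟩)
  · refine ((hFC.fin g).image i).subset ?_
    rintro _ ⟨t, rfl⟩
    obtain ⟨x, hx⟩ := hc.act' hFC t
    obtain ⟨c, hc'⟩ := x.2.1 {g}
    exact ⟨x.1 g, ⟨c, hc' g (by simp)⟩, (hx g).symm⟩
  · obtain ⟨F, hF, hF', hF''⟩ := hc.fin x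
    set R : Subgroup G := Subgroup.normalClosure (F ∪ Set.range (dl x.1)) with hR
    have hRn : R.Normal := Subgroup.normalClosure_normal
    have hRf : (R : Set G).Finite := by
      apply hFC.nc_comm_finite _ (hF.union x.2.2)
      rintro t (ht | ⟨g, rfl⟩)
      · exact hF' t ht
      · exact x.2.1.dl_comm g
    have hRn' := hc.normal_map hFC R hRn
    have key : ∀ t : T, (s x)⁻¹ * t⁻¹ * s x * t ∈ R.map i := by
      have h1 : (⊤ : Subgroup T) ≤ cmod (R.map i) (s x) := by
        rw [← hc.gen, Subgroup.closure_le]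
        rintro _ (⟨g, rfl⟩ | ⟨y, rfl⟩)
        · rw [SetLike.mem_coe, cmod']
          refine ⟨(dl x.1 g)⁻¹, inv_mem (Subgroup.subset_normalClosure (Or.inr ⟨g, rfl⟩)), ?_⟩
          have : (s x)⁻¹ * (i g)⁻¹ * s x * i g = i (x.1 g⁻¹) * i g := by
            rw [← hc.act, map_inv]
          rw [this, ← map_mul]
          congr 1
          unfold dl
          rw [map_inv]; group
        · rw [SetLike.mem_coe, cmod']
          obtain ⟨t, ht, ht'⟩ := hF'' y
          rw [ht']
          exact ⟨t, Subgroup.subset_normalClosure (Or.inl ht), rfl⟩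
      intro t
      exact (cmod' _ _ _).mp (h1 trivial)
    have hRif : ((R.map i : Subgroup T) : Set T).Finite := hRf.image i
    refine ((hRif.image (fun r => s x * r))).subset ?_
    rintro _ ⟨t, rfl⟩
    refine ⟨_, key t, ?_⟩
    group

/-- commutators lie in the image of `G` -/
theorem Comp.comm_range (hc : Comp i s) (hFC : FCG G) (t u : T) :
    t⁻¹ * u⁻¹ * t * u ∈ i.range := by
  have hn : (i.range).Normal := by
    have := hc.normal_map hFC ⊤ inferInstance
    rwa [← MonoidHom.range_eq_map] at this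
  have h0 : ∀ a ∈ Set.range i ∪ Set.range s, ∀ b ∈ Set.range i ∪ Set.range s,
      b ∈ cmod i.range a := by
    rintro a ha b hb
    rcases ha with ⟨g, rfl⟩ | ⟨x, rfl⟩
    · rw [mem_cmod, commutatorElement_def, mul_assoc, mul_assoc]
      refine mul_mem ⟨g, rfl⟩ ?_
      have := hn.conj_mem (i g)⁻¹ (inv_mem ⟨g, rfl⟩) b
      rwa [mul_assoc] at this
    · rcases hb with ⟨g, rfl⟩ | ⟨y, rfl⟩
      · rw [mem_cmod, commutatorElement_def]
        exact mul_mem (hn.conj_mem _ ⟨g, rfl⟩ _) (inv_mem ⟨g, rfl⟩)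
      · rw [cmod']
        obtain ⟨F, _, _, hF⟩ := hc.fin x
        obtain ⟨t, _, ht'⟩ := hF y
        rw [ht']
        exact ⟨t, rfl⟩
  have h1 : ∀ a ∈ Set.range i ∪ Set.range s, ∀ t : T, t ∈ cmod i.range a := by
    intro a ha t
    have : (⊤ : Subgroup T) ≤ cmod i.range a := by
      rw [← hc.gen, Subgroup.closure_le]
      exact h0 a ha
    exact this trivial
  have h2 : ∀ t u : T, u ∈ cmod i.range t := by
    intro t u
    have : (⊤ : Subgroup T) ≤ cmod i.range t := by
      rw [← hc.gen, Subgroup.closure_le]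
      intro a ha
      rw [SetLike.mem_coe, cmod_symm]
      exact h1 a ha t
    exact this trivial
  exact (cmod' _ _ _).mp (h2 t u)

/-- the image of the centre is central -/
theorem Comp.central (hc : Comp i s) (hFC : FCG G) {z : G} (hz : z ∈ Subgroup.center G) :
    i z ∈ Subgroup.center T := by
  rw [Subgroup.mem_center_iff]
  intro t
  obtain ⟨x, hx⟩ := hc.act' hFC t
  have h1 := hx z
  rw [x.2.1.center hz] at h1
  calc t * i z = t * (t⁻¹ * i z * t) := by rw [h1]
    _ = i z * t := by group

/-- the subgroup attached to a set of labels -/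
def TT (i : G →* T) (s : XX G → T) (C : Set (Om G)) : Subgroup T :=
  Subgroup.closure ({t | ∃ g : G, (Sum.inl g : Om G) ∈ C ∧ t = i g} ∪
    {t | ∃ x : XX G, (Sum.inr x.1 : Om G) ∈ C ∧ t = s x})

theorem TT_g {C : Set (Om G)} {g : G} (hg : (Sum.inl g : Om G) ∈ C) : i g ∈ TT i s C :=
  Subgroup.subset_closure (Or.inl ⟨g, hg, rfl⟩)

theorem TT_x {C : Set (Om G)} {x : XX G} (hx : (Sum.inr x.1 : Om G) ∈ C) : s x ∈ TT i s C :=
  Subgroup.subset_closure (Or.inr ⟨x, hx, rfl⟩)

theorem TT_mono {C C' : Set (Om G)} (h : C ⊆ C') : TT i s C ≤ TT i s C' := by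
  unfold TT
  rw [Subgroup.closure_le]
  rintro _ (⟨g, hg, rfl⟩ | ⟨x, hx, rfl⟩)
  · exact TT_g (h hg)
  · exact TT_x (h hx)

theorem TT_fin {C : Set (Om G)} {t : T} (ht : t ∈ TT i s C) :
    ∃ S : Finset (Om G), ↑S ⊆ C ∧ t ∈ TT i s (S : Set (Om G)) := by
  classical
  unfold TT at ht
  induction ht using Subgroup.closure_induction with
  | mem t ht =>
    rcases ht with ⟨g, hg, rfl⟩ | ⟨x, hx, rfl⟩
    · exact ⟨{Sum.inl g}, by simpa using hg, TT_g (by simp)⟩
    · exact ⟨{Sum.inr x.1}, by simpa using hx, TT_x (by simp)⟩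
  | one => exact ⟨∅, by simp, one_mem _⟩
  | mul t u _ _ ht hu =>
    obtain ⟨S, hS, hS'⟩ := ht
    obtain ⟨S', hS1, hS1'⟩ := hu
    refine ⟨S ∪ S', by simp [hS, hS1], mul_mem (TT_mono (by simp) hS') (TT_mono (by simp) hS1')⟩
  | inv t _ ht =>
    obtain ⟨S, hS, hS'⟩ := ht
    exact ⟨S, hS, inv_mem hS'⟩

theorem closure_ctbl {S : Set T} (hS : S.Countable) : Countable (Subgroup.closure S) := by
  have := hS.to_subtype
  have h1 : Subgroup.closure S ≤ (FreeGroup.lift (Subtype.val : S → T)).range := by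
    rw [Subgroup.closure_le]
    intro x hx
    exact ⟨FreeGroup.of ⟨x, hx⟩, by simp⟩
  have h2 : (((FreeGroup.lift (Subtype.val : S → T)).range : Subgroup T) : Set T).Countable :=
    Set.countable_range _
  exact (h2.mono h1).to_subtype

theorem TT_countable {C : Set (Om G)} (hC : C.Countable) : Countable (TT i s C) := by
  have h1 : ({t | ∃ g : G, (Sum.inl g : Om G) ∈ C ∧ t = i g} ∪
    {t | ∃ x : XX G, (Sum.inr x.1 : Om G) ∈ C ∧ t = s x} : Set T).Countable := by
    refine Set.Countable.union ?_ ?_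
    · have h2 : {g : G | (Sum.inl g : Om G) ∈ C}.Countable :=
        Set.Countable.preimage_of_injOn hC (fun a _ b _ h => Sum.inl_injective h)
      refine (h2.image i).mono ?_
      rintro _ ⟨g, hg, rfl⟩
      exact ⟨g, hg, rfl⟩
    · have h2 : {x : XX G | (Sum.inr x.1 : Om G) ∈ C}.Countable :=
        Set.Countable.preimage_of_injOn hC
          (f := fun x : XX G => (Sum.inr x.1 : Om G))
          (fun a _ b _ h => Subtype.ext (Sum.inr_injective h))
      refine (h2.image s).mono ?_
      rintro _ ⟨x, hx, rfl⟩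
      exact ⟨x, hx, rfl⟩
  exact closure_ctbl h1

end pkg

end Pool.Agent.S02457.FCV

namespace Pool.Agent.S02457.FCV

open scoped commutatorElement Pointwise
open Cardinal

section fin

variable {C : ∀ (G : Type) [Group G], Prop}

theorem lemF' (hC : Var C) {T : Type} [Group T] (hT : FCG T) (S : Subgroup T) {ι : Type}
    (B : ι → Subgroup T) (hBS : ∀ i, B i ≤ S) (hgen : S ≤ ⨆ i, B i) (hB : ∀ i, C (B i))
    (hc : ∀ i j, i ≠ j → ∀ b ∈ B i, ∀ b' ∈ B j, ⁅b, b'⁆ ∈ Subgroup.center T) : C S := by
  refine lemF (T := S) (B := fun i => (B i).subgroupOf S) hC (hT.sub S) ?_ ?_ ?_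
  · intro i
    exact hC.inj (Subgroup.subgroupOfEquivOfLe (hBS i)).toMonoidHom
      (Subgroup.subgroupOfEquivOfLe (hBS i)).injective (hB i)
  · intro i j hij b hb b' hb'
    have h1 := hc i j hij b.1 hb b'.1 hb'
    rw [Subgroup.mem_center_iff] at h1 ⊢
    intro g
    exact Subtype.ext (h1 g.1)
  · rw [eq_top_iff]
    intro x _
    have h1 : (⨆ i, (B i).subgroupOf S).map S.subtype = ⨆ i, B i := by
      rw [Subgroup.map_iSup]
      congr 1
      funext i
      rw [Subgroup.subgroupOf_map_subtype]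
      exact inf_eq_left.mpr (hBS i)
    have h2 : x.1 ∈ (⨆ i, (B i).subgroupOf S).map S.subtype := by
      rw [h1]
      exact hgen x.2
    obtain ⟨y, hy, hyx⟩ := h2
    have : y = x := Subtype.ext hyx
    rw [← this]
    exact hy

variable {G : Type} [Group G] {T : Type} [Group T] {i : G →* T} {s : XX G → T}

theorem Comp.mem (hC : Var C) (hc : Comp i s) (hFC : FCG G) :
    ∀ C', Closed (FF hFC) C' → C (TT i s C') := by
  classical
  suffices h : ∀ κ : Cardinal.{0}, ∀ C' : Set (Om G), Closed (FF hFC) C' → #C' = κ →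
      C (TT i s C') from fun C' hC' => h _ C' hC' rfl
  intro κ
  induction κ using WellFoundedLT.induction with
  | ind κ ih =>
    intro C' hC' hκ
    have hTFC := hc.FC hFC
    rcases le_or_gt κ ℵ₀ with hle | hgt
    · have hcount : C'.Countable := by
        rw [← le_aleph0_iff_set_countable, hκ]
        exact hle
      have := TT_countable (i := i) (s := s) hcount
      exact countable_case hC (hTFC.sub _)
    · obtain ⟨_, _, hord⟩ := exists_ord_eq_type_lt C'
      let D : C' → Set (Om G) := fun i => cl (FF hFC) (Subtype.val '' Set.Iic i)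
      have hDclosed : ∀ i, Closed (FF hFC) (D i) := fun i => cl_closed _
      have hDC : ∀ i, D i ⊆ C' := fun i => cl_min hC' (by rintro _ ⟨x, _, rfl⟩; exact x.2)
      have hDmem : ∀ i : C', i.1 ∈ D i := fun i => subset_cl _ ⟨i, le_refl i, rfl⟩
      have hDmono : ∀ i j, i ≤ j → D i ⊆ D j := by
        intro i j hij
        apply cl_min (hDclosed j)
        refine subset_trans (Set.image_mono ?_) (subset_cl _)
        exact Set.Iic_subset_Iic.mpr hij
      have hDcard : ∀ i, #(D i) < κ := by
        intro i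
        refine (mk_cl_le (FF_countable hFC) _).trans_lt ?_
        apply max_lt hgt
        refine (mk_image_le).trans_lt ?_
        rw [← hκ]
        exact mk_Iic_lt i hord (by rw [hκ]; exact hgt.le)
      -- the central subgroup
      set A : Subgroup T := (Subgroup.center G).map i with hA
      have hAn : A.Normal := hc.normal_map hFC _ inferInstance
      have hAc : A ≤ Subgroup.center T := by
        rintro _ ⟨z, hz, rfl⟩
        exact hc.central hFC hz
      let B : C' → Subgroup T := fun a =>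
        TT i s (D a) ⊓ ⨅ (b : {b // b < a}), ⨅ (t : TT i s (D b.1)), cmod A t.1
      have hBmem : ∀ a u, u ∈ B a ↔ u ∈ TT i s (D a) ∧ ∀ b < a, ∀ t ∈ TT i s (D b),
          u ∈ cmod A t := by
        intro a u
        constructor
        · rintro ⟨h1, h2⟩
          refine ⟨h1, fun b hb t ht => ?_⟩
          exact Subgroup.mem_iInf.mp (Subgroup.mem_iInf.mp h2 ⟨b, hb⟩) ⟨t, ht⟩
        · rintro ⟨h1, h2⟩
          refine ⟨h1, ?_⟩
          refine Subgroup.mem_iInf.mpr (fun b => Subgroup.mem_iInf.mpr (fun t => ?_))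
          exact h2 b.1 b.2 t.1 t.2
      have key : ∀ a, TT i s (D a) ≤ ⨆ b, B b := by
        intro a
        induction a using WellFoundedLT.induction with
        | ind a iha =>
          intro t ht
          by_cases hex : ∃ b, b < a
          · obtain ⟨b0, hb0⟩ := hex
            have hdir : Directed (· ⊆ ·) (fun j : {j // j < a} => D j) := by
              intro x y
              refine ⟨⟨max x.1 y.1, max_lt x.2 y.2⟩, hDmono _ _ (le_max_left _ _),
                hDmono _ _ (le_max_right _ _)⟩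
            set E : Set (Om G) := ⋃ j : {j // j < a}, D j with hE
            have hEcl : Closed (FF hFC) E := by
              intro S hS
              have : ∃ j : {j // j < a}, ↑S ⊆ D j := by
                have : Nonempty {j // j < a} := ⟨⟨b0, hb0⟩⟩
                exact hdir.exists_mem_subset_of_finset_subset_biUnion hS
              obtain ⟨j, hj⟩ := this
              exact (hDclosed j S hj).trans (Set.subset_iUnion (fun j : {j // j < a} => D j) j)
            obtain ⟨x, hx⟩ := hc.act' hFC t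
            obtain ⟨k, hk, hkE, hkz⟩ := c_exK hEcl x.2
            set w : MulAut G := k⁻¹ * x.1 with hw
            have hwX : w ∈ XX G := mul_mem (inv_mem hk) x.2
            set u : T := t * (s ⟨k, hk⟩)⁻¹ with hu
            have hact : ∀ g, u⁻¹ * i g * u = i (w g) := by
              intro g
              have h1 := hc.act ⟨k, hk⟩ (w g)
              have h2 : k (w g) = x.1 g := by
                rw [hw, MulAut.mul_apply, MulAut.apply_inv_self]
              have h3 : (s ⟨k, hk⟩)⁻¹ * i (w g) * s ⟨k, hk⟩ = i (x.1 g) := by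
                rw [h1]; exact congrArg i h2
              calc u⁻¹ * i g * u = s ⟨k, hk⟩ * (t⁻¹ * i g * t) * (s ⟨k, hk⟩)⁻¹ := by
                    rw [hu]; group
                _ = s ⟨k, hk⟩ * ((s ⟨k, hk⟩)⁻¹ * i (w g) * s ⟨k, hk⟩) * (s ⟨k, hk⟩)⁻¹ := by
                    rw [hx, h3]
                _ = i (w g) := by group
            have hact' : ∀ g, u * i g * u⁻¹ = i (w⁻¹ g) := by
              intro g
              have h1 := hact (w⁻¹ g)
              rw [MulAut.apply_inv_self] at h1
              rw [← h1]; group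
            obtain ⟨j, hj⟩ := Set.mem_iUnion.mp hkE
            have hskj : s ⟨k, hk⟩ ∈ TT i s (D j.1) := TT_x hj
            have hska : s ⟨k, hk⟩ ∈ TT i s (D a) := TT_mono (hDmono _ _ j.2.le) hskj
            have huB : u ∈ B a := by
              rw [hBmem]
              refine ⟨mul_mem ht (inv_mem hska), fun b hb v hv => ?_⟩
              rw [cmod_symm]
              have hle : TT i s E ≤ cmod A u := by
                unfold TT
                rw [Subgroup.closure_le]
                rintro _ (⟨g, hg, rfl⟩ | ⟨y, hy, rfl⟩)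
                · rw [SetLike.mem_coe, cmod']
                  refine ⟨(dl w g)⁻¹, inv_mem (hkz g hg), ?_⟩
                  rw [← map_inv i g, hact, ← map_mul]
                  congr 1
                  unfold dl
                  rw [map_inv]; group
                · rw [SetLike.mem_coe, cmod']
                  obtain ⟨g0, hg0⟩ := hc.comm_range hFC u (s y)
                  refine ⟨g0, ?_, hg0⟩
                  have hyw : y.1 * w = w * y.1 := c_comm hEcl y.2 hy hwX hkz
                  have hacty' : ∀ g, s y * i g * (s y)⁻¹ = i ((y.1)⁻¹ g) := by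
                    intro g
                    have h1 := hc.act y ((y.1)⁻¹ g)
                    rw [MulAut.apply_inv_self] at h1
                    rw [← h1]; group
                  have h4 : ∀ g, g0⁻¹ * g * g0 = g := by
                    intro g
                    apply hc.inj
                    rw [map_mul, map_mul, map_inv, hg0]
                    have h5 : (y.1 * w * (y.1)⁻¹ * w⁻¹) g = g := by
                      rw [hyw]; simp
                    calc (u⁻¹ * (s y)⁻¹ * u * s y)⁻¹ * i g * (u⁻¹ * (s y)⁻¹ * u * s y)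
                        = (s y)⁻¹ * (u⁻¹ * (s y * (u * i g * u⁻¹) * (s y)⁻¹) * u) * s y := by
                          group
                      _ = i ((y.1 * w * (y.1)⁻¹ * w⁻¹) g) := by
                          rw [hact', hacty', hact, hc.act]; rfl
                      _ = i g := by rw [h5]
                  show g0 ∈ Subgroup.center G
                  rw [Subgroup.mem_center_iff]
                  intro g
                  calc g * g0 = g0 * (g0⁻¹ * g * g0) := by group
                    _ = g0 * g := by rw [h4]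
              apply hle
              exact TT_mono (Set.subset_iUnion (fun j : {j // j < a} => D j) ⟨b, hb⟩) hv
            have : t = u * s ⟨k, hk⟩ := by rw [hu]; group
            rw [this]
            exact mul_mem (le_iSup B a huB) (iha j.1 j.2 hskj)
          · apply le_iSup B a
            rw [hBmem]
            refine ⟨ht, fun b hb => ?_⟩
            exact absurd ⟨b, hb⟩ hex
      refine lemF' hC hTFC (TT i s C') B ?_ ?_ ?_ ?_
      · intro a u hu
        exact TT_mono (hDC a) ((hBmem a u).mp hu).1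
      · intro t ht
        obtain ⟨S, hS, hS'⟩ := TT_fin ht
        have : ∃ j : C', ↑S ⊆ D j := by
          have hdir : Directed (· ⊆ ·) D := by
            intro a b
            exact ⟨max a b, hDmono _ _ (le_max_left _ _), hDmono _ _ (le_max_right _ _)⟩
          have : Nonempty C' := by
            rw [← mk_ne_zero_iff, hκ]
            exact (aleph0_pos.trans hgt).ne'
          have hsub : (S : Set (Om G)) ⊆ ⋃ j, D j := by
            intro y hy
            exact Set.mem_iUnion.mpr ⟨⟨y, hS hy⟩, hDmem _⟩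
          exact hdir.exists_mem_subset_of_finset_subset_biUnion hsub
        obtain ⟨j, hj⟩ := this
        exact key j (TT_mono hj hS')
      · intro a
        have h1 := ih _ (hDcard a) _ (hDclosed a) rfl
        have hle : B a ≤ TT i s (D a) := fun u hu => ((hBmem a u).mp hu).1
        exact hC.inj (Subgroup.inclusion hle) (Subgroup.inclusion_injective hle) h1
      · intro a b hab x hx y hy
        apply hAc
        rcases lt_or_gt_of_ne hab with h | h
        · have := ((hBmem b y).mp hy).2 a h x ((hBmem a x).mp hx).1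
          exact (mem_cmod _ _ _).mp this
        · have := ((hBmem a x).mp hx).2 b h y ((hBmem b y).mp hy).1
          rw [cmod_symm] at this
          exact (mem_cmod _ _ _).mp this

/-- Every FC-group lies in every direct variety containing the groups with finite derived
subgroup. -/
theorem FCG_mem (hC : Var C) {G : Type} [Group G] (hFC : FCG G) : C G := by
  obtain ⟨T, _, i, s, hc⟩ := exists_Comp (G := G)
  have h1 : C (TT i s Set.univ) := hc.mem hC hFC Set.univ (fun _ _ => Set.subset_univ _)
  refine hC.inj (i.codRestrict (TT i s Set.univ) (fun g => TT_g trivial)) ?_ h1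
  intro a b hab
  exact hc.inj (congrArg Subtype.val hab)

end fin

end Pool.Agent.S02457.FCV

open Pool Pool.MP_fb3574_al

namespace Pool.Agent.S02457

/-- Any class of groups closed under isomorphism, subgroups, quotients and restricted direct products, containing all groups with finite derived subgroup and all FC-groups with quasicyclic derived subgroup, contains every FC-group. -/
theorem result :
    ∀ C : (∀ (G : Type) [Group G], Prop),
      (∀ (G H : Type) [Group G] [Group H], (G ≃* H) → C G → C H) →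
      (∀ (G : Type) [Group G] (H : Subgroup G), C G → C ↥H) →
      (∀ (G : Type) [Group G] (N : Subgroup G) [N.Normal], C G → C (G ⧸ N)) →
      (∀ (ι : Type) [DecidableEq ι] (G : ι → Type) [∀ i, Group (G i)],
        (∀ i, C (G i)) → C ↥(⨆ i, (MonoidHom.mulSingle G i).range)) →
      (∀ (G : Type) [Group G], Finite ↥(commutator G) → C G) →
      (∀ (G : Type) [Group G], (∀ g : G, {h : G | IsConj g h}.Finite) →
        (∃ p : ℕ, p.Prime ∧
          Nonempty (↥(commutator G) ≃* ↥(⨆ n : ℕ, rootsOfUnity (p ^ n) ℂ))) → C G) →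
      ∀ (G : Type) [Group G], (∀ g : G, {h : G | IsConj g h}.Finite) → C G := by
  intro C h1 h2 h3 h4 h5 _ G _ hG
  exact Pool.Agent.S02457.FCV.FCG_mem (C := C) ⟨h1, h2, h3, h4, h5⟩ hG

end Pool.Agent.S02457
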