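import Pool.Statements.S02471
import Pool.Agent.Helper89.Final

set_option autoImplicit false
open Pool Pool.MP_fcd401_al

namespace Pool.Agent.S02471

/-- Some finitely generated residually finite group G and irrational α satisfy: log(number of subgroups of index at most n) divided by log(n!) tends to α, i.e. subgroup growth is (n!)^(α+o(1)) with α irrational. -/
theorem result :
    ∃ (G : Type) (_ : Group G), Group.FG G ∧
      (∀ g : G, g ≠ 1 → ∃ H : Subgroup G, H.FiniteIndex ∧ g ∉ H) ∧
      ∃ α : ℝ, Irrational α ∧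
        Filter.Tendsto
          (fun n : ℕ =>
            Real.log ((Set.ncard {H : Subgroup G | H.index ≠ 0 ∧ H.index ≤ n} : ℕ) : ℝ) /
              Real.log ((Nat.factorial n : ℕ) : ℝ))
          Filter.atTop (nhds α) := by
  have h2 : (0 : ℝ) ≤ Real.sqrt 2 := Real.sqrt_nonneg 2
  have h3 : Real.sqrt 2 * Real.sqrt 2 = 2 := Real.mul_self_sqrt (by norm_num)
  have h4 : 0 < Real.sqrt 2 / 2 := by positivity
  have h5 : Real.sqrt 2 / 2 ≤ 3 / 4 := by nlinarith
  have h6 : Irrational (Real.sqrt 2 / 2) := by
    have h := irrational_sqrt_two.div_natCast (m := 2) (by norm_num)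
    simpa using h
  obtain ⟨G, inst, hG1, hG2, hG3⟩ := Pool.Agent.Helper89.Final.main (Real.sqrt 2 / 2) h4 h5
  exact ⟨G, inst, hG1, hG2, Real.sqrt 2 / 2, h6, hG3⟩

end Pool.Agent.S02471
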