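import Pool.Statements.S02484

set_option autoImplicit false
open Pool Pool.MP_fe2810_al

namespace Pool.Agent.S02484

/-!
Counterexample. For `i : ℕ` let `S i = GL (2^(i+6)) (F_2)`, realised as the units of the matrix ring
indexed by `ZMod (2^(i+6))`.  `G` is the subgroup of the full product of all `S i` generated by
`X` (the transvections `1 + e_0 e_1^*`), `Y` (the transvections `1 + e_1 e_0^*`) and `T` (the cyclic
shifts).  It contains every factor `S i`.  If `M` is a normal subgroup containing all `n`-th powers,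
then every factor not contained in `M` has exponent dividing `n`, hence is of order polynomial in `n`
because `lcm (2^j - 1, j ≤ m)` is at least `2^(m^2/24)`; and the quotient `G/M` is
generated by those finitely many factors and one element of order dividing `n`.  So the index of `M`
is at most `n^49`.  `G` is not linear: over a field of characteristic two the elements `T_i` of order
`2^(i+6)` forbid it, in other characteristics the elementary abelian `2`-subgroups do.
-/


section Aux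
open Finset Matrix
open scoped commutatorElement


theorem gcd_lcm_distrib' (a x y : ℕ) (ha : a ≠ 0) (hx : x ≠ 0) (hy : y ≠ 0) :
    Nat.gcd a (Nat.lcm x y) = Nat.lcm (Nat.gcd a x) (Nat.gcd a y) := by
  have h1 : Nat.gcd a (Nat.lcm x y) ≠ 0 := Nat.gcd_ne_zero_left ha
  have h2 : Nat.gcd a x ≠ 0 := Nat.gcd_ne_zero_left ha
  have h3 : Nat.gcd a y ≠ 0 := Nat.gcd_ne_zero_left ha
  have h4 : Nat.lcm (Nat.gcd a x) (Nat.gcd a y) ≠ 0 := Nat.lcm_ne_zero h2 h3
  apply Nat.eq_of_factorization_eq h1 h4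
  intro p
  rw [Nat.factorization_gcd ha (Nat.lcm_ne_zero hx hy), Nat.factorization_lcm hx hy,
    Nat.factorization_lcm h2 h3, Nat.factorization_gcd ha hx, Nat.factorization_gcd ha hy]
  simp only [Finsupp.inf_apply, Finsupp.sup_apply]
  exact inf_sup_left _ _ _

/-- the sequence `2^k - 1` -/
def bseq (k : ℕ) : ℕ := 2 ^ k - 1

theorem bseq_pos {k : ℕ} (hk : 0 < k) : 0 < bseq k := by
  unfold bseq
  have : 2 ^ 1 ≤ 2 ^ k := Nat.pow_le_pow_right (by norm_num) hk
  omega

theorem bseq_gcd (i j : ℕ) : Nat.gcd (bseq i) (bseq j) = bseq (Nat.gcd i j) :=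
  Nat.pow_sub_one_gcd_pow_sub_one 2 i j

theorem bseq_dvd {i j : ℕ} (h : i ∣ j) : bseq i ∣ bseq j := by
  rw [← Nat.gcd_eq_left_iff_dvd, bseq_gcd, Nat.gcd_eq_left h]

theorem lcm_bseq_ne_zero (D : Finset ℕ) (hD : ∀ d ∈ D, 0 < d) : D.lcm bseq ≠ 0 := by
  rw [Ne, Finset.lcm_eq_zero_iff]
  rintro ⟨d, hd, h⟩
  exact (bseq_pos (hD d hd)).ne' h

theorem gcd_lcm_finset (a : ℕ) (ha : a ≠ 0) (D : Finset ℕ) (hD : ∀ d ∈ D, 0 < d) :
    Nat.gcd a (D.lcm bseq) = D.lcm (fun d => Nat.gcd a (bseq d)) := by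
  induction D using Finset.induction_on with
  | empty => simp
  | insert d D hd ih =>
    have hD' : ∀ e ∈ D, 0 < e := fun e he => hD e (Finset.mem_insert_of_mem he)
    rw [Finset.lcm_insert, Finset.lcm_insert, ← ih hD']
    exact gcd_lcm_distrib' a _ _ ha (bseq_pos (hD d (Finset.mem_insert_self _ _))).ne'
      (lcm_bseq_ne_zero D hD')

/-- the multiplicative complement -/
def cseq (n : ℕ) : ℕ := bseq n / (n.properDivisors).lcm bseq

theorem lcm_pd_dvd (n : ℕ) : (n.properDivisors).lcm bseq ∣ bseq n :=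
  Finset.lcm_dvd fun _ hd => bseq_dvd (Nat.mem_properDivisors.1 hd).1

theorem cseq_mul (n : ℕ) : cseq n * (n.properDivisors).lcm bseq = bseq n :=
  Nat.div_mul_cancel (lcm_pd_dvd n)

theorem cseq_pos {n : ℕ} (hn : 0 < n) : 0 < cseq n := by
  have h := cseq_mul n
  have h2 := bseq_pos hn
  rcases Nat.eq_zero_or_pos (cseq n) with h0 | h0
  · rw [h0] at h; omega
  · exact h0

theorem cseq_le {n : ℕ} (hn : 0 < n) : cseq n ≤ 2 ^ n := by
  have h1 : cseq n ≤ bseq n := Nat.div_le_self _ _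
  have h2 : bseq n ≤ 2 ^ n := Nat.sub_le _ _
  omega

theorem lcm_eq_prod (D : Finset ℕ) (hpos : ∀ d ∈ D, 0 < d)
    (hdown : ∀ d ∈ D, ∀ e, e ∣ d → e ∈ D) :
    D.lcm bseq = ∏ d ∈ D, cseq d := by
  induction D using Finset.induction_on_max with
  | empty => simp
  | insert n D hlt ih =>
    have hnD : n ∉ D := fun h => lt_irrefl _ (hlt n h)
    have hnpos : 0 < n := hpos n (Finset.mem_insert_self _ _)
    have hpos' : ∀ d ∈ D, 0 < d := fun e he => hpos e (Finset.mem_insert_of_mem he)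
    have hdown' : ∀ d ∈ D, ∀ e, e ∣ d → e ∈ D := by
      intro d hd e hed
      have h1 := hdown d (Finset.mem_insert_of_mem hd) e hed
      rcases Finset.mem_insert.1 h1 with h | h
      · exfalso
        have := Nat.le_of_dvd (hpos' d hd) hed
        have := hlt d hd
        omega
      · exact h
    have ih' := ih hpos' hdown'
    rw [Finset.lcm_insert, Finset.prod_insert hnD, ← ih']
    have hpdD : n.properDivisors ⊆ D := by
      intro e he
      have h1 := Nat.mem_properDivisors.1 he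
      have h2 := hdown n (Finset.mem_insert_self _ _) e h1.1
      rcases Finset.mem_insert.1 h2 with h | h
      · omega
      · exact h
    have hg : Nat.gcd (bseq n) (D.lcm bseq) = (n.properDivisors).lcm bseq := by
      rw [gcd_lcm_finset _ (bseq_pos hnpos).ne' D hpos']
      apply Nat.dvd_antisymm
      · apply Finset.lcm_dvd
        intro d hd
        rw [bseq_gcd]
        apply Finset.dvd_lcm
        rw [Nat.mem_properDivisors]
        refine ⟨Nat.gcd_dvd_left _ _, ?_⟩
        have := Nat.le_of_dvd (hpos' d hd) (Nat.gcd_dvd_right n d)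
        have := hlt d hd
        omega
      · apply Finset.lcm_dvd
        intro e he
        have h1 := Nat.mem_properDivisors.1 he
        have h2 : Nat.gcd (bseq n) (bseq e) = bseq e := by
          rw [bseq_gcd, Nat.gcd_eq_right h1.1]
        rw [← h2]
        exact Finset.dvd_lcm (f := fun d => Nat.gcd (bseq n) (bseq d)) (hpdD he)
    have h3 := Nat.gcd_mul_lcm (bseq n) (D.lcm bseq)
    rw [hg] at h3
    have h4 : (n.properDivisors).lcm bseq ≠ 0 :=
      lcm_bseq_ne_zero _ (fun d hd => Nat.pos_of_mem_properDivisors hd)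
    have h5 := cseq_mul n
    change Nat.lcm (bseq n) (D.lcm bseq) = _
    apply Nat.eq_of_mul_eq_mul_left (Nat.pos_of_ne_zero h4)
    rw [h3, ← h5]
    ring

theorem bseq_eq_prod {k : ℕ} (hk : 0 < k) : bseq k = ∏ d ∈ k.divisors, cseq d := by
  rw [← lcm_eq_prod]
  · apply Nat.dvd_antisymm
    · exact Finset.dvd_lcm (Nat.mem_divisors_self k hk.ne')
    · exact Finset.lcm_dvd fun d hd => bseq_dvd (Nat.mem_divisors.1 hd).1
  · intro d hd; exact Nat.pos_of_mem_divisors hd
  · intro d hd e he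
    exact Nat.mem_divisors.2 ⟨he.trans (Nat.mem_divisors.1 hd).1, hk.ne'⟩

theorem lcm_Icc_eq_prod (m : ℕ) : (Finset.Icc 1 m).lcm bseq = ∏ d ∈ Finset.Icc 1 m, cseq d := by
  apply lcm_eq_prod
  · intro d hd; exact (Finset.mem_Icc.1 hd).1
  · intro d hd e he
    have h := Finset.mem_Icc.1 hd
    have h1 := Nat.le_of_dvd (by omega) he
    have h2 := Nat.pos_of_dvd_of_pos he (by omega)
    exact Finset.mem_Icc.2 ⟨h2, by omega⟩

theorem prod_bseq (m : ℕ) :
    ∏ k ∈ Finset.Icc 1 m, bseq k = ∏ d ∈ Finset.Icc 1 m, cseq d ^ (m / d) := by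
  have h1 : ∏ k ∈ Finset.Icc 1 m, bseq k = ∏ k ∈ Finset.Icc 1 m, ∏ d ∈ k.divisors, cseq d := by
    apply Finset.prod_congr rfl
    intro k hk
    exact bseq_eq_prod (by have := Finset.mem_Icc.1 hk; omega)
  rw [h1, Finset.prod_comm' (t' := Finset.Icc 1 m) (s' := fun d => (Finset.Icc 1 m).filter (d ∣ ·))]
  · apply Finset.prod_congr rfl
    intro d hd
    rw [Finset.prod_const]
    congr 1
    have := Nat.Ioc_filter_dvd_card_eq_div m d
    rw [← this]
    rfl
  · intro k d
    simp only [Finset.mem_Icc, Nat.mem_divisors, Finset.mem_filter]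
    constructor
    · rintro ⟨⟨h1, h2⟩, h3, h4⟩
      have := Nat.le_of_dvd (by omega) h3
      have := Nat.pos_of_dvd_of_pos h3 (by omega)
      exact ⟨⟨⟨h1, h2⟩, h3⟩, by omega, by omega⟩
    · rintro ⟨⟨⟨h1, h2⟩, h3⟩, h4, h5⟩
      exact ⟨⟨h1, h2⟩, h3, by omega⟩

theorem prod_bseq_lower (m : ℕ) : 2 ^ (m * (m - 1) / 2) ≤ ∏ k ∈ Finset.Icc 1 m, bseq k := by
  have h1 : ∏ k ∈ Finset.Icc 1 m, 2 ^ (k - 1) ≤ ∏ k ∈ Finset.Icc 1 m, bseq k := by
    apply Finset.prod_le_prod'
    intro k hk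
    have hk1 := (Finset.mem_Icc.1 hk).1
    unfold bseq
    obtain ⟨j, rfl⟩ : ∃ j, k = j + 1 := ⟨k - 1, by omega⟩
    have : 0 < 2 ^ j := by positivity
    simp only [Nat.add_sub_cancel]
    rw [pow_succ]; omega
  refine le_trans (le_of_eq ?_) h1
  rw [Finset.prod_pow_eq_pow_sum, ← Finset.sum_range_id]
  congr 1
  rw [Finset.range_eq_Ico]
  have : ∑ x ∈ Finset.Icc 1 m, (x - 1) = ∑ x ∈ Finset.Ico 0 m, x := by
    have h := Finset.sum_Ico_add' (fun x => x - 1) 0 m 1
    simp only [Nat.add_sub_cancel, zero_add] at h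
    rw [h]
    rfl
  rw [this]

theorem prod_cseq_upper (m : ℕ) :
    ∏ d ∈ Finset.Icc 1 m, cseq d ^ (m / d) ≤
      2 ^ (m * (m / 4)) * (∏ d ∈ Finset.Icc 1 m, cseq d) ^ 3 := by
  have key : ∀ d ∈ Finset.Icc 1 m, cseq d ^ (m / d) ≤ (if d ≤ m / 4 then 2 ^ m else 1) * cseq d ^ 3 := by
    intro d hd
    have hd1 := Finset.mem_Icc.1 hd
    have hc := cseq_pos hd1.1
    split_ifs with h
    · calc cseq d ^ (m / d) ≤ (2 ^ d) ^ (m / d) := Nat.pow_le_pow_left (cseq_le hd1.1) _
        _ = 2 ^ (d * (m / d)) := by rw [pow_mul]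
        _ ≤ 2 ^ m := Nat.pow_le_pow_right (by norm_num) (Nat.mul_div_le m d)
        _ ≤ 2 ^ m * cseq d ^ 3 := Nat.le_mul_of_pos_right _ (by positivity)
    · rw [one_mul]
      apply Nat.pow_le_pow_right hc
      have : m / d < 4 := by
        rw [Nat.div_lt_iff_lt_mul (by omega)]
        omega
      omega
  refine le_trans (Finset.prod_le_prod' key) ?_
  rw [Finset.prod_mul_distrib, Finset.prod_pow]
  apply Nat.mul_le_mul_right
  rw [Finset.prod_ite, Finset.prod_const, Finset.prod_const_one, mul_one, ← pow_mul]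
  apply Nat.pow_le_pow_right (by norm_num)
  apply Nat.mul_le_mul_left
  have : (Finset.Icc 1 m).filter (fun x => x ≤ m / 4) ⊆ Finset.Icc 1 (m / 4) := by
    intro x hx
    simp only [Finset.mem_filter, Finset.mem_Icc] at hx ⊢
    omega
  have h2 := Finset.card_le_card this
  simpa using h2

/-- The quantitative lower bound for common multiples of `2^j-1`, `j ≤ m`. -/
theorem main_lcm_bound (r n : ℕ) (hr : 1 ≤ r) (hn : 0 < n)
    (h : ∀ j, 1 ≤ j → j ≤ 4 * r → (2 ^ j - 1) ∣ n) : 2 ^ ((4 * r) ^ 2) ≤ n ^ 24 := by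
  have hL : (Finset.Icc 1 (4 * r)).lcm bseq ∣ n :=
    Finset.lcm_dvd fun j hj => h j (Finset.mem_Icc.1 hj).1 (Finset.mem_Icc.1 hj).2
  have hLn : (Finset.Icc 1 (4 * r)).lcm bseq ≤ n := Nat.le_of_dvd hn hL
  have h1 := prod_bseq_lower (4 * r)
  rw [prod_bseq] at h1
  have h2 := h1.trans (prod_cseq_upper (4 * r))
  rw [← lcm_Icc_eq_prod] at h2
  set L := (Finset.Icc 1 (4 * r)).lcm bseq with hLdef
  have e1 : 4 * r * (4 * r - 1) / 2 = 4 * r * r + (4 * r * r - 2 * r) := by
    obtain ⟨s, rfl⟩ : ∃ s, r = s + 1 := ⟨r - 1, by omega⟩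
    have : 4 * (s + 1) - 1 = 4 * s + 3 := by omega
    rw [this]
    have h3 : 4 * (s + 1) * (s + 1) - 2 * (s + 1) = 4 * s * s + 6 * s + 2 := by
      have : 4 * (s + 1) * (s + 1) = (4 * s * s + 6 * s + 2) + 2 * (s + 1) := by ring
      omega
    rw [h3]
    have : 4 * (s + 1) * (4 * s + 3) = 2 * (4 * (s + 1) * (s + 1) + (4 * s * s + 6 * s + 2)) := by ring
    rw [this]; simp
  have e2 : 4 * r * (4 * r / 4) = 4 * r * r := by
    rw [Nat.mul_div_cancel_left _ (by norm_num)]
  rw [e1, e2, pow_add] at h2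
  have h3 : 2 ^ (4 * r * r - 2 * r) ≤ L ^ 3 := Nat.le_of_mul_le_mul_left h2 (by positivity)
  have h4 : 2 ^ (2 * r * r) ≤ L ^ 3 := by
    refine le_trans (Nat.pow_le_pow_right (by norm_num) ?_) h3
    have : 2 * r * 1 ≤ 2 * r * r := Nat.mul_le_mul_left _ hr
    have : 4 * r * r = 2 * r * r + 2 * r * r := by ring
    omega
  calc 2 ^ ((4 * r) ^ 2) = (2 ^ (2 * r * r)) ^ 8 := by rw [← pow_mul]; congr 1; ring
    _ ≤ (L ^ 3) ^ 8 := Nat.pow_le_pow_left h4 8
    _ = L ^ 24 := by rw [← pow_mul]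
    _ ≤ n ^ 24 := Nat.pow_le_pow_left hLn 24



section Mat
variable {ι : Type} [Fintype ι] [DecidableEq ι]

theorem vmv_sq (a α : ι → ZMod 2) (h : α ⬝ᵥ a = 0) :
    (1 + vecMulVec a α) * (1 + vecMulVec a α) = 1 := by
  have h2 : vecMulVec a α * vecMulVec a α = 0 := by
    rw [vecMulVec_mul_vecMulVec, h, zero_smul]; ext; simp [vecMulVec]
  have h3 : vecMulVec a α + vecMulVec a α = 0 := by
    ext i j; simp only [Matrix.add_apply, Matrix.zero_apply]; exact CharTwo.add_self_eq_zero _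
  calc (1 + vecMulVec a α) * (1 + vecMulVec a α)
      = 1 + (vecMulVec a α + vecMulVec a α) + vecMulVec a α * vecMulVec a α := by noncomm_ring
    _ = 1 := by rw [h2, h3]; simp

/-- the transvection `1 + a ⊗ α` -/
def tv (a α : ι → ZMod 2) (h : α ⬝ᵥ a = 0) : (Matrix ι ι (ZMod 2))ˣ :=
  ⟨1 + vecMulVec a α, 1 + vecMulVec a α, vmv_sq a α h, vmv_sq a α h⟩

theorem tv_val (a α : ι → ZMod 2) (h : α ⬝ᵥ a = 0) :
    (tv a α h : Matrix ι ι (ZMod 2)) = 1 + vecMulVec a α := rfl

theorem tv_inv (a α : ι → ZMod 2) (h : α ⬝ᵥ a = 0) : (tv a α h)⁻¹ = tv a α h := rfl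

theorem tv_mul_self (a α : ι → ZMod 2) (h : α ⬝ᵥ a = 0) : tv a α h * tv a α h = 1 := by
  ext1; exact vmv_sq a α h

theorem tv_congr {a α b β : ι → ZMod 2} (h : α ⬝ᵥ a = 0) (hab : a = b) (hαβ : α = β) :
    tv a α h = tv b β (by rw [← hab, ← hαβ]; exact h) := by
  subst hab; subst hαβ; rfl

theorem tv_conj (g : (Matrix ι ι (ZMod 2))ˣ) (a α : ι → ZMod 2) (h : α ⬝ᵥ a = 0) :
    g * tv a α h * g⁻¹ = tv ((g : Matrix ι ι (ZMod 2)) *ᵥ a) (α ᵥ* ((g⁻¹ : (Matrix ι ι (ZMod 2))ˣ) : Matrix ι ι (ZMod 2)))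
      (by rw [← Matrix.dotProduct_mulVec, Matrix.mulVec_mulVec, Units.inv_mul, Matrix.one_mulVec, h]) := by
  ext1
  rw [Units.val_mul, Units.val_mul, tv_val, tv_val, mul_add, add_mul, mul_one, Units.mul_inv,
    mul_vecMulVec, vecMulVec_mul]

theorem tv_commutator (a α b β : ι → ZMod 2) (ha : α ⬝ᵥ a = 0) (hb : β ⬝ᵥ b = 0)
    (h1 : α ⬝ᵥ b = 1) (h2 : β ⬝ᵥ a = 0) : ⁅tv a α ha, tv b β hb⁆ = tv a β h2 := by
  ext1
  rw [commutatorElement_def, tv_inv, tv_inv, Units.val_mul, Units.val_mul, Units.val_mul]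
  simp only [tv_val]
  have hAA : vecMulVec a α * vecMulVec a α = 0 := by
    rw [vecMulVec_mul_vecMulVec, ha, zero_smul]; ext; simp [vecMulVec]
  have hBB : vecMulVec b β * vecMulVec b β = 0 := by
    rw [vecMulVec_mul_vecMulVec, hb, zero_smul]; ext; simp [vecMulVec]
  have hBA : vecMulVec b β * vecMulVec a α = 0 := by
    rw [vecMulVec_mul_vecMulVec, h2, zero_smul]; ext; simp [vecMulVec]
  have hAB : vecMulVec a α * vecMulVec b β = vecMulVec a β := by
    rw [vecMulVec_mul_vecMulVec, h1, one_smul]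
  have hA2 : vecMulVec a α + vecMulVec a α = 0 := by
    ext i j; simp only [Matrix.add_apply, Matrix.zero_apply]; exact CharTwo.add_self_eq_zero _
  have hB2 : vecMulVec b β + vecMulVec b β = 0 := by
    ext i j; simp only [Matrix.add_apply, Matrix.zero_apply]; exact CharTwo.add_self_eq_zero _
  have hAC : vecMulVec a β + vecMulVec a β = 0 := by
    ext i j; simp only [Matrix.add_apply, Matrix.zero_apply]; exact CharTwo.add_self_eq_zero _
  rw [← hAB] at *
  set A := vecMulVec a α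
  set B := vecMulVec b β
  have e : (1 + A) * (1 + B) * (1 + A) * (1 + B)
      = 1 + (A + A) + (B + B) + A * B + (A * B + A * B) + A * A + B * B + B * A + A * A * B + A * (B * A)
        + (A * (B * B)) + (B * A) * B + A * (B * A) * B := by noncomm_ring
  rw [e, hAA, hBB, hBA, hA2, hB2, hAC]
  simp

theorem tv_commute (a α b β : ι → ZMod 2) (ha : α ⬝ᵥ a = 0) (hb : β ⬝ᵥ b = 0)
    (h1 : α ⬝ᵥ b = 0) (h2 : β ⬝ᵥ a = 0) : tv a α ha * tv b β hb = tv b β hb * tv a α ha := by
  ext1
  rw [Units.val_mul, Units.val_mul]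
  simp only [tv_val]
  have hAB : vecMulVec a α * vecMulVec b β = 0 := by
    rw [vecMulVec_mul_vecMulVec, h1, zero_smul]; ext; simp [vecMulVec]
  have hBA : vecMulVec b β * vecMulVec a α = 0 := by
    rw [vecMulVec_mul_vecMulVec, h2, zero_smul]; ext; simp [vecMulVec]
  rw [mul_add, add_mul, add_mul, mul_add, add_mul, add_mul, hAB, hBA]
  simp only [mul_one, one_mul, add_zero]
  abel

theorem zmod2_cases (x : ZMod 2) : x = 0 ∨ x = 1 := by
  revert x; decide

/-- separating two distinct nonzero functionals -/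
theorem exists_sep (α β : ι → ZMod 2) (hα : α ≠ 0) (hαβ : α ≠ β) :
    ∃ b : ι → ZMod 2, α ⬝ᵥ b = 1 ∧ β ⬝ᵥ b = 0 := by
  obtain ⟨i, hi⟩ := Function.ne_iff.1 hαβ
  rcases zmod2_cases (α i) with h0 | h1
  · have hβ : β i = 1 := by
      rcases zmod2_cases (β i) with h | h
      · exact absurd (h0.trans h.symm) hi
      · exact h
    obtain ⟨j, hj⟩ := Function.ne_iff.1 hα
    have hj1 : α j = 1 := by
      rcases zmod2_cases (α j) with h | h
      · exact absurd h hj
      · exact h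
    rcases zmod2_cases (β j) with h | h
    · exact ⟨Pi.single j 1, by simp [hj1], by simp [h]⟩
    · refine ⟨Pi.single j 1 + Pi.single i 1, ?_, ?_⟩
      · rw [dotProduct_add]; simp [hj1, h0]
      · rw [dotProduct_add]; simp [h, hβ]; decide
  · have hβ : β i = 0 := by
      rcases zmod2_cases (β i) with h | h
      · exact h
      · exact absurd (h1.trans h.symm) hi
    exact ⟨Pi.single i 1, by simp [h1], by simp [hβ]⟩

/-- a nonzero functional killing `k < card ι` vectors -/
theorem exists_kill {k : ℕ} (v : Fin k → ι → ZMod 2) (hk : k < Fintype.card ι) :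
    ∃ γ : ι → ZMod 2, γ ≠ 0 ∧ ∀ j, γ ⬝ᵥ v j = 0 := by
  let f : (ι → ZMod 2) →ₗ[ZMod 2] (Fin k → ZMod 2) :=
    { toFun := fun γ j => γ ⬝ᵥ v j
      map_add' := fun x y => by ext j; simp [add_dotProduct]
      map_smul' := fun c x => by ext j; simp [smul_dotProduct] }
  have h : f.ker ≠ ⊥ := by
    apply LinearMap.ker_ne_bot_of_finrank_lt
    rw [Module.finrank_fintype_fun_eq_card, Module.finrank_fintype_fun_eq_card]
    simpa using hk
  obtain ⟨γ, hγ, hne⟩ := (Submodule.ne_bot_iff _).1 h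
  exact ⟨γ, hne, fun j => congrFun (LinearMap.mem_ker.1 hγ) j⟩

theorem tv_mem_right (N : Subgroup (Matrix ι ι (ZMod 2))ˣ) [N.Normal] (a α β : ι → ZMod 2)
    (hα : α ≠ 0) (ha : α ⬝ᵥ a = 0) (hb : β ⬝ᵥ a = 0) (h : tv a α ha ∈ N) : tv a β hb ∈ N := by
  by_cases hαβ : α = β
  · subst hαβ; exact h
  obtain ⟨b, h1, h2⟩ := exists_sep α β hα hαβ
  rw [← tv_commutator a α b β ha h2 h1 hb]
  rw [commutatorElement_def]
  have := Subgroup.Normal.conj_mem (inferInstance : N.Normal) _ (N.inv_mem h) (tv b β h2)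
  have h3 := N.mul_mem h this
  rw [← mul_assoc, ← mul_assoc] at h3
  exact h3

theorem tv_mem_left (N : Subgroup (Matrix ι ι (ZMod 2))ˣ) [N.Normal] (a b α : ι → ZMod 2)
    (h0 : a ≠ 0) (ha : α ⬝ᵥ a = 0) (hb : α ⬝ᵥ b = 0) (h : tv a α ha ∈ N) : tv b α hb ∈ N := by
  by_cases hab : a = b
  · subst hab; exact h
  obtain ⟨β, h1, h2⟩ := exists_sep a b h0 hab
  rw [dotProduct_comm] at h1 h2
  rw [← tv_commutator b β a α h2 ha h1 hb]
  rw [commutatorElement_def]
  exact N.mul_mem (Subgroup.Normal.conj_mem (inferInstance : N.Normal) _ h (tv b β h2)) (N.inv_mem h)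

theorem tv_mem_all (N : Subgroup (Matrix ι ι (ZMod 2))ˣ) [N.Normal] (hcard : 3 ≤ Fintype.card ι)
    (a α b β : ι → ZMod 2) (h0 : a ≠ 0) (hα : α ≠ 0)
    (ha : α ⬝ᵥ a = 0) (hb : β ⬝ᵥ b = 0) (h : tv a α ha ∈ N) : tv b β hb ∈ N := by
  obtain ⟨γ, hγ, hk⟩ := exists_kill ![a, b] (by omega)
  have h1 : γ ⬝ᵥ a = 0 := hk 0
  have h2 : γ ⬝ᵥ b = 0 := hk 1
  exact tv_mem_right N b γ β hγ h2 hb (tv_mem_left N a b γ h0 h1 h2 (tv_mem_right N a α γ hα ha h1 h))

theorem exists_tv_mem (N : Subgroup (Matrix ι ι (ZMod 2))ˣ) [hN : N.Normal] (hcard : 4 ≤ Fintype.card ι)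
    (g : (Matrix ι ι (ZMod 2))ˣ) (hg : g ∈ N) (hg1 : g ≠ 1) :
    ∃ (a α : ι → ZMod 2) (h : α ⬝ᵥ a = 0), a ≠ 0 ∧ α ≠ 0 ∧ tv a α h ∈ N := by
  obtain ⟨v, hv⟩ : ∃ v : ι → ZMod 2, (g : Matrix ι ι (ZMod 2)) *ᵥ v ≠ v := by
    by_contra hcon
    push Not at hcon
    apply hg1
    ext1
    apply Matrix.toLin'.injective
    ext1 i
    ext1
    simp [hcon]
  set w := (g : Matrix ι ι (ZMod 2)) *ᵥ v with hw
  have hv0 : v ≠ 0 := by
    rintro rfl
    apply hv
    rw [hw, Matrix.mulVec_zero]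
  have hw0 : w ≠ 0 := by
    intro h0
    apply hv0
    have : ((g⁻¹ : (Matrix ι ι (ZMod 2))ˣ) : Matrix ι ι (ZMod 2)) *ᵥ w = v := by
      rw [hw, Matrix.mulVec_mulVec, Units.inv_mul, Matrix.one_mulVec]
    rw [← this, h0, Matrix.mulVec_zero]
  obtain ⟨φ, hφ, hk⟩ := exists_kill ![v, w] (by omega)
  have hφv : φ ⬝ᵥ v = 0 := hk 0
  have hφw : φ ⬝ᵥ w = 0 := hk 1
  set φ' := φ ᵥ* ((g⁻¹ : (Matrix ι ι (ZMod 2))ˣ) : Matrix ι ι (ZMod 2)) with hφ'
  have hconj := tv_conj g v φ hφv
  have hφ'w : φ' ⬝ᵥ w = 0 := by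
    rw [hφ', hw, ← Matrix.dotProduct_mulVec, Matrix.mulVec_mulVec, Units.inv_mul,
      Matrix.one_mulVec, hφv]
  have hconj' : g * tv v φ hφv * g⁻¹ = tv w φ' hφ'w := hconj
  have hφ'0 : φ' ≠ 0 := by
    intro h0
    apply hφ
    have : φ' ᵥ* (g : Matrix ι ι (ZMod 2)) = φ := by
      rw [hφ', Matrix.vecMul_vecMul, Units.inv_mul, Matrix.vecMul_one]
    rw [← this, h0, Matrix.zero_vecMul]
  have hc : tv w φ' hφ'w * tv v φ hφv ∈ N := by
    rw [← hconj']
    have := N.mul_mem hg (hN.conj_mem _ (N.inv_mem hg) (tv v φ hφv))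
    rw [tv_inv, ← mul_assoc, ← mul_assoc] at this
    exact this
  by_cases hcase : φ' = φ
  · refine ⟨w + v, φ, by rw [dotProduct_add, hφw, hφv, add_zero], ?_, hφ, ?_⟩
    · intro h0
      apply hv
      have : w = -v := eq_neg_of_add_eq_zero_left h0
      rw [this]
      ext i
      simp [ZMod.neg_eq_self_mod_two]
    · convert hc using 1
      ext1
      rw [Units.val_mul, tv_val, tv_val, tv_val, hcase, add_vecMulVec, mul_add, mul_one, add_mul,
        one_mul, vecMulVec_mul_vecMulVec, hφv, zero_smul]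
      have : vecMulVec w (0 : ι → ZMod 2) = 0 := by ext; simp [vecMulVec]
      rw [this]
      abel
  · obtain ⟨u, hu1, hu2⟩ := exists_sep φ' φ hφ'0 hcase
    obtain ⟨ψ, hψ, hk2⟩ := exists_kill ![v, w, u] (by omega)
    have hψv : ψ ⬝ᵥ v = 0 := hk2 0
    have hψw : ψ ⬝ᵥ w = 0 := hk2 1
    have hψu : ψ ⬝ᵥ u = 0 := hk2 2
    refine ⟨w, ψ, hψw, hw0, hψ, ?_⟩
    rw [← tv_commutator w φ' u ψ hφ'w hψu hu1 hψw]
    have hcomm := tv_commute v φ u ψ hφv hψu hu2 hψv
    set c := tv w φ' hφ'w * tv v φ hφv with hcdef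
    have h5 : ⁅tv w φ' hφ'w, tv u ψ hψu⁆ = c * (tv u ψ hψu * c⁻¹ * (tv u ψ hψu)⁻¹) := by
      rw [commutatorElement_def, hcdef, _root_.mul_inv_rev]
      have h6 : tv v φ hφv * (tv u ψ hψu * ((tv v φ hφv)⁻¹ * (tv w φ' hφ'w)⁻¹)) =
          tv u ψ hψu * (tv w φ' hφ'w)⁻¹ := by
        rw [← mul_assoc, hcomm]
        group
      calc tv w φ' hφ'w * tv u ψ hψu * (tv w φ' hφ'w)⁻¹ * (tv u ψ hψu)⁻¹
          = tv w φ' hφ'w * (tv u ψ hψu * (tv w φ' hφ'w)⁻¹) * (tv u ψ hψu)⁻¹ := by group
        _ = tv w φ' hφ'w * (tv v φ hφv * (tv u ψ hψu * ((tv v φ hφv)⁻¹ * (tv w φ' hφ'w)⁻¹))) *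
            (tv u ψ hψu)⁻¹ := by rw [h6]
        _ = _ := by group
    rw [h5]
    exact N.mul_mem hc (hN.conj_mem _ (N.inv_mem hc) _)

/-- elementary transvections, with junk value `1` on the diagonal -/
def El (i j : ι) : (Matrix ι ι (ZMod 2))ˣ :=
  if h : i ≠ j then tv (Pi.single i 1) (Pi.single j 1) (by simp [Ne.symm h]) else 1

theorem El_of_ne {i j : ι} (h : i ≠ j) :
    El i j = tv (Pi.single i 1) (Pi.single j 1) (by simp [Ne.symm h]) := by
  unfold El; rw [dif_pos h]

theorem El_commutator {i j k : ι} (hij : i ≠ j) (hjk : j ≠ k) (hik : i ≠ k) :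
    ⁅El i j, El j k⁆ = El i k := by
  rw [El_of_ne hij, El_of_ne hjk, El_of_ne hik]
  exact tv_commutator _ _ _ _ _ _ (by simp) (by simp [Ne.symm hik])

theorem El_commute {i j k l : ι} (hij : i ≠ j) (hkl : k ≠ l) (hjk : j ≠ k) (hil : i ≠ l) :
    ⁅El i j, El k l⁆ = 1 := by
  rw [El_of_ne hij, El_of_ne hkl, commutatorElement_eq_one_iff_mul_comm]
  exact tv_commute _ _ _ _ _ _ (by simp [hjk]) (by simp [Ne.symm hil])

theorem El_inv (i j : ι) : (El i j)⁻¹ = El i j := by
  unfold El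
  split_ifs
  · rfl
  · simp

theorem El_val {i j : ι} (h : i ≠ j) : (El i j : Matrix ι ι (ZMod 2)) = Matrix.transvection i j 1 := by
  rw [El_of_ne h, tv_val, Matrix.transvection]
  congr 1
  ext k l
  simp only [vecMulVec_apply, Pi.single_apply, Matrix.single_apply]
  by_cases h1 : k = i <;> by_cases h2 : l = j
  · simp [h1, h2]
  · simp [h2, Ne.symm h2]
  · simp [h1, Ne.symm h1]
  · simp [h1, Ne.symm h1]

theorem El_ne_one {i j : ι} (h : i ≠ j) : El i j ≠ 1 := by
  intro h1
  have h2 : (El i j : Matrix ι ι (ZMod 2)) i j = (1 : Matrix ι ι (ZMod 2)) i j := by rw [h1]; rfl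
  rw [El_val h] at h2
  simp [Matrix.transvection, h] at h2

theorem gen_top (H : Subgroup (Matrix ι ι (ZMod 2))ˣ) (h : ∀ i j : ι, i ≠ j → El i j ∈ H) : H = ⊤ := by
  rw [eq_top_iff]
  intro M _
  obtain ⟨L, L', D, hM⟩ := Matrix.Pivot.exists_list_transvec_mul_diagonal_mul_list_transvec (M : Matrix ι ι (ZMod 2))
  have hlist : ∀ L : List (Matrix.TransvectionStruct ι (ZMod 2)),
      ∃ u ∈ H, (u : Matrix ι ι (ZMod 2)) = (L.map Matrix.TransvectionStruct.toMatrix).prod := by
    intro L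
    induction L with
    | nil => exact ⟨1, H.one_mem, by simp⟩
    | cons t L ih =>
      obtain ⟨u, hu, hu2⟩ := ih
      rcases zmod2_cases t.c with hc | hc
      · refine ⟨u, hu, ?_⟩
        rw [List.map_cons, List.prod_cons, ← hu2]
        have : t.toMatrix = 1 := by
          unfold Matrix.TransvectionStruct.toMatrix
          rw [hc]; simp
        rw [this, one_mul]
      · refine ⟨El t.i t.j * u, H.mul_mem (h _ _ t.hij) hu, ?_⟩
        rw [List.map_cons, List.prod_cons, ← hu2, Units.val_mul, El_val t.hij]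
        unfold Matrix.TransvectionStruct.toMatrix
        rw [hc]
  obtain ⟨u, hu, hu2⟩ := hlist L
  obtain ⟨u', hu', hu2'⟩ := hlist L'
  rw [← hu2, ← hu2'] at hM
  have hD : Matrix.diagonal D = ((u⁻¹ * M * u'⁻¹ : (Matrix ι ι (ZMod 2))ˣ) : Matrix ι ι (ZMod 2)) := by
    rw [Units.val_mul, Units.val_mul, hM]
    calc Matrix.diagonal D = ((u⁻¹ * u : (Matrix ι ι (ZMod 2))ˣ) : Matrix ι ι (ZMod 2)) * Matrix.diagonal D *
          ((u' * u'⁻¹ : (Matrix ι ι (ZMod 2))ˣ) : Matrix ι ι (ZMod 2)) := by simp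
      _ = _ := by rw [Units.val_mul, Units.val_mul]; noncomm_ring
  have hDu : IsUnit (Matrix.diagonal D) := by rw [hD]; exact Units.isUnit _
  have hD1 : Matrix.diagonal D = 1 := by
    rw [Matrix.isUnit_diagonal, Pi.isUnit_iff] at hDu
    rw [← Matrix.diagonal_one]
    congr 1
    ext i
    rcases zmod2_cases (D i) with h0 | h1
    · have := hDu i
      rw [h0] at this
      simp at this
    · simp [h1]
  have : M = u * u' := by
    ext1
    rw [hM, hD1, mul_one, Units.val_mul]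
  rw [this]
  exact H.mul_mem hu hu'

theorem simple_GL (hcard : 4 ≤ Fintype.card ι) (N : Subgroup (Matrix ι ι (ZMod 2))ˣ) [hN : N.Normal]
    (g : (Matrix ι ι (ZMod 2))ˣ) (hg : g ∈ N) (hg1 : g ≠ 1) : N = ⊤ := by
  obtain ⟨a, α, h, ha, hα, hm⟩ := exists_tv_mem N hcard g hg hg1
  apply gen_top
  intro i j hij
  rw [El_of_ne hij]
  exact tv_mem_all N (by omega) a α _ _ ha hα h _ hm

end Mat

section Exp
variable {ι : Type} [Fintype ι] [DecidableEq ι]

theorem exp_dvd (n : ℕ) (h : ∀ g : (Matrix ι ι (ZMod 2))ˣ, g ^ n = 1) (j : ℕ) (hj : 1 ≤ j)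
    (hj2 : j ≤ Fintype.card ι) : (2 ^ j - 1) ∣ n := by
  have : Fact (Nat.Prime 2) := ⟨Nat.prime_two⟩
  let K := GaloisField 2 j
  have : Fintype K := Fintype.ofFinite K
  have hcard : Nat.card K = 2 ^ j := GaloisField.card 2 j (by omega)
  obtain ⟨u, hu⟩ := IsCyclic.exists_ofOrder_eq_natCard (α := Kˣ)
  have hcu : Nat.card Kˣ = 2 ^ j - 1 := by
    rw [Nat.card_units, hcard]
  let V := K × (Fin (Fintype.card ι - j) → ZMod 2)
  have hfr : Module.finrank (ZMod 2) V = Module.finrank (ZMod 2) (ι → ZMod 2) := by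
    rw [Module.finrank_prod, Module.finrank_fintype_fun_eq_card, Module.finrank_fintype_fun_eq_card,
      GaloisField.finrank 2 (by omega)]
    simp; omega
  let e : V ≃ₗ[ZMod 2] (ι → ZMod 2) := LinearEquiv.ofFinrankEq _ _ hfr
  let mu : K ≃ₗ[ZMod 2] K := 
    { toFun := fun x => u * x
      invFun := fun x => (u⁻¹ : Kˣ) * x
      left_inv := fun x => by simp
      right_inv := fun x => by simp
      map_add' := fun x y => by ring
      map_smul' := fun c x => by simp }
  have hmu : ∀ k : ℕ, ∀ x : K, (mu ^ k) x = (u : K) ^ k * x := by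
    intro k
    induction k with
    | zero => intro x; simp
    | succ k ih =>
      intro x
      rw [pow_succ, LinearEquiv.mul_apply, ih, pow_succ, mul_assoc]
      rfl
  let φ : V ≃ₗ[ZMod 2] V := LinearEquiv.prodCongr mu (LinearEquiv.refl _ _)
  have hφ : ∀ k : ℕ, ∀ x : V, (φ ^ k) x = ((u : K) ^ k * x.1, x.2) := by
    intro k
    induction k with
    | zero => intro x; simp
    | succ k ih =>
      intro x
      rw [pow_succ, LinearEquiv.mul_apply, ih, pow_succ, mul_assoc]
      rfl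
  -- transport
  let E : (Matrix ι ι (ZMod 2))ˣ ≃* ((ι → ZMod 2) ≃ₗ[ZMod 2] (ι → ZMod 2)) :=
    (Matrix.GeneralLinearGroup.toLin (n := ι) (R := ZMod 2)).trans
      (LinearMap.GeneralLinearGroup.generalLinearEquiv (ZMod 2) (ι → ZMod 2))
  let ψ : (ι → ZMod 2) ≃ₗ[ZMod 2] (ι → ZMod 2) := (e.symm.trans φ).trans e
  have hψ : ∀ k : ℕ, ∀ x, (ψ ^ k) (e x) = e ((φ ^ k) x) := by
    intro k
    induction k with
    | zero => intro x; simp
    | succ k ih =>
      intro x
      rw [pow_succ, LinearEquiv.mul_apply, pow_succ, LinearEquiv.mul_apply, ← ih]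
      congr 1
      simp [ψ]
  have h1 : ψ ^ n = 1 := by
    have := h (E.symm ψ)
    have h2 : E (E.symm ψ ^ n) = E 1 := by rw [this]
    rw [map_pow, map_one, MulEquiv.apply_symm_apply] at h2
    exact h2
  have h2 : (φ ^ n) ((1 : K), 0) = ((1 : K), 0) := by
    apply e.injective
    rw [← hψ, h1]
    rfl
  rw [hφ] at h2
  have h3 : (u : K) ^ n = 1 := by
    have := congrArg Prod.fst h2
    simpa using this
  have h4 : u ^ n = 1 := by
    ext; simpa using h3
  rw [← hcu, ← hu]
  exact orderOf_dvd_of_pow_eq_one h4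

theorem card_GL_le : Nat.card (Matrix ι ι (ZMod 2))ˣ ≤ 2 ^ (Fintype.card ι ^ 2) := by
  have h1 : Nat.card (Matrix ι ι (ZMod 2))ˣ ≤ Nat.card (Matrix ι ι (ZMod 2)) :=
    Nat.card_le_card_of_injective _ Units.val_injective
  refine h1.trans (le_of_eq ?_)
  have : Nat.card (Matrix ι ι (ZMod 2)) = Nat.card (ι → ι → ZMod 2) := rfl
  rw [this, Nat.card_eq_fintype_card, Fintype.card_fun, Fintype.card_fun, ZMod.card, ← pow_mul, sq]

end Exp

section Inv
variable {K : Type} [Field K]

theorem inv_bound (h2 : (2 : K) ≠ 0) (d : ℕ) : ∀ (V : Type) [AddCommGroup V] [Module K V]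
    [FiniteDimensional K V] (_ : Module.finrank K V = d) (S : Set (Module.End K V)) (_ : S.Finite)
    (_ : ∀ s ∈ S, s * s = 1) (_ : ∀ s ∈ S, ∀ t ∈ S, s * t = t * s), S.ncard ≤ 2 ^ d := by
  induction d using Nat.strong_induction_on with
  | _ d ih =>
  intro V _ _ _ hd S hfin hsq hcomm
  by_cases hall : ∀ s ∈ S, s = 1 ∨ s = -1
  · rcases Nat.eq_zero_or_pos d with h0 | hpos
    · subst h0
      have hV : Subsingleton V := Module.finrank_zero_iff.1 hd
      have : Subsingleton (Module.End K V) := inferInstance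
      have : S.ncard ≤ 1 := (Set.ncard_le_one hfin).2 (fun a _ b _ => Subsingleton.elim a b)
      simpa using this
    · have hsub : S ⊆ ({1, -1} : Set (Module.End K V)) := fun s hs => by
        rcases hall s hs with h | h
        · rw [h]; exact Set.mem_insert _ _
        · rw [h]; exact Set.mem_insert_of_mem _ rfl
      have h1 : S.ncard ≤ ({1, -1} : Set (Module.End K V)).ncard :=
        Set.ncard_le_ncard hsub (Set.toFinite _)
      have h3 : ({1, -1} : Set (Module.End K V)).ncard ≤ 2 := by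
        have := Set.ncard_insert_le (1 : Module.End K V) {-1}
        rw [Set.ncard_singleton] at this
        exact this
      calc S.ncard ≤ 2 ^ 1 := h1.trans h3
        _ ≤ 2 ^ d := Nat.pow_le_pow_right (by norm_num) hpos
  · push Not at hall
    obtain ⟨f, hf, hf1, hf2⟩ := hall
    have hff : ∀ x, f (f x) = x := fun x => by
      have := congrArg (fun g => g x) (hsq f hf)
      simpa using this
    let W1 : Submodule K V := LinearMap.ker (f - 1)
    let W2 : Submodule K V := LinearMap.ker (f + 1)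
    have m1 : ∀ x, x ∈ W1 ↔ f x = x := fun x => by
      simp only [W1, LinearMap.mem_ker, LinearMap.sub_apply, Module.End.one_apply, sub_eq_zero]
    have m2 : ∀ x, x ∈ W2 ↔ f x = -x := fun x => by
      simp only [W2, LinearMap.mem_ker, LinearMap.add_apply, Module.End.one_apply]
      exact add_eq_zero_iff_eq_neg
    have hcompl : IsCompl W1 W2 := by
      constructor
      · rw [Submodule.disjoint_def]
        intro x hx1 hx2
        rw [m1] at hx1
        rw [m2] at hx2
        have h3 : x = -x := hx1.symm.trans hx2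
        have h4 : (2 : K) • x = 0 := by
          rw [two_smul]; nth_rewrite 1 [h3]; simp
        exact (smul_eq_zero.1 h4).resolve_left h2
      · rw [codisjoint_iff, eq_top_iff]
        intro x _
        have h3 : x = (2 : K)⁻¹ • (x + f x) + (2 : K)⁻¹ • (x - f x) := by
          rw [← smul_add]
          have : x + f x + (x - f x) = (2 : K) • x := by rw [two_smul]; abel
          rw [this, smul_smul, inv_mul_cancel₀ h2, one_smul]
        rw [h3]
        apply Submodule.add_mem_sup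
        · apply Submodule.smul_mem
          rw [m1, map_add, hff, add_comm]
        · apply Submodule.smul_mem
          rw [m2, map_sub, hff]; abel
    have hd1 : W1 ≠ ⊤ := by
      intro h; apply hf1; ext x
      have : x ∈ W1 := by rw [h]; trivial
      simpa using (m1 x).1 this
    have hd2 : W2 ≠ ⊤ := by
      intro h; apply hf2; ext x
      have : x ∈ W2 := by rw [h]; trivial
      simpa using (m2 x).1 this
    have hsum := Submodule.finrank_add_eq_of_isCompl hcompl
    have hlt1 : Module.finrank K W1 < d := by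
      rw [← hd]; exact Submodule.finrank_lt hd1
    have hlt2 : Module.finrank K W2 < d := by
      rw [← hd]; exact Submodule.finrank_lt hd2
    let P1 := W1.projectionOnto W2 hcompl
    let P2 := W2.projectionOnto W1 hcompl.symm
    let r1 : Module.End K V → Module.End K W1 := fun s => P1 ∘ₗ s ∘ₗ W1.subtype
    let r2 : Module.End K V → Module.End K W2 := fun s => P2 ∘ₗ s ∘ₗ W2.subtype
    have hs1 : ∀ s ∈ S, ∀ x ∈ W1, s x ∈ W1 := by
      intro s hs x hx
      rw [m1] at hx ⊢
      have := congrArg (fun g => g x) (hcomm f hf s hs)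
      simp only [Module.End.mul_apply] at this
      rw [this, hx]
    have hs2 : ∀ s ∈ S, ∀ x ∈ W2, s x ∈ W2 := by
      intro s hs x hx
      rw [m2] at hx ⊢
      have := congrArg (fun g => g x) (hcomm f hf s hs)
      simp only [Module.End.mul_apply] at this
      rw [this, hx, map_neg]
    have hr1 : ∀ s ∈ S, ∀ x : W1, ((r1 s x : W1) : V) = s x := by
      intro s hs x
      have : P1 (s x) = ⟨s x, hs1 s hs x x.2⟩ := 
        Submodule.projectionOnto_apply_left hcompl ⟨s x, hs1 s hs x x.2⟩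
      simp only [r1, LinearMap.comp_apply, Submodule.subtype_apply, this]
    have hr2 : ∀ s ∈ S, ∀ x : W2, ((r2 s x : W2) : V) = s x := by
      intro s hs x
      have : P2 (s x) = ⟨s x, hs2 s hs x x.2⟩ := 
        Submodule.projectionOnto_apply_left hcompl.symm ⟨s x, hs2 s hs x x.2⟩
      simp only [r2, LinearMap.comp_apply, Submodule.subtype_apply, this]
    have hb1 := ih _ hlt1 W1 rfl (r1 '' S) (hfin.image _) (by
      rintro _ ⟨s, hs, rfl⟩
      ext x
      rw [Module.End.mul_apply, hr1 s hs, hr1 s hs]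
      have := congrArg (fun g => g (x : V)) (hsq s hs)
      simpa using this) (by
      rintro _ ⟨s, hs, rfl⟩ _ ⟨t, ht, rfl⟩
      ext x
      rw [Module.End.mul_apply, Module.End.mul_apply, hr1 s hs, hr1 t ht, hr1 t ht, hr1 s hs]
      have := congrArg (fun g => g (x : V)) (hcomm s hs t ht)
      simpa using this)
    have hb2 := ih _ hlt2 W2 rfl (r2 '' S) (hfin.image _) (by
      rintro _ ⟨s, hs, rfl⟩
      ext x
      rw [Module.End.mul_apply, hr2 s hs, hr2 s hs]
      have := congrArg (fun g => g (x : V)) (hsq s hs)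
      simpa using this) (by
      rintro _ ⟨s, hs, rfl⟩ _ ⟨t, ht, rfl⟩
      ext x
      rw [Module.End.mul_apply, Module.End.mul_apply, hr2 s hs, hr2 t ht, hr2 t ht, hr2 s hs]
      have := congrArg (fun g => g (x : V)) (hcomm s hs t ht)
      simpa using this)
    have hinj : Set.InjOn (fun s => (r1 s, r2 s)) S := by
      intro s hs t ht hst
      have e1 := congrArg Prod.fst hst
      have e2 := congrArg Prod.snd hst
      simp only at e1 e2
      ext x
      have hx : x ∈ W1 ⊔ W2 := by rw [hcompl.sup_eq_top]; trivial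
      obtain ⟨y, hy, z, hz, rfl⟩ := Submodule.mem_sup.1 hx
      rw [map_add, map_add]
      have a1 := hr1 s hs ⟨y, hy⟩
      have a2 := hr1 t ht ⟨y, hy⟩
      have a3 := hr2 s hs ⟨z, hz⟩
      have a4 := hr2 t ht ⟨z, hz⟩
      rw [e1] at a1
      rw [e2] at a3
      simp only at a1 a2 a3 a4
      rw [← a1, ← a3, a2, a4]
    have hle : S.ncard ≤ ((r1 '' S) ×ˢ (r2 '' S)).ncard := by
      exact Set.ncard_le_ncard_of_injOn (fun s => (r1 s, r2 s))
        (fun s hs => ⟨⟨s, hs, rfl⟩, ⟨s, hs, rfl⟩⟩) hinj ((hfin.image _).prod (hfin.image _))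
    rw [Set.ncard_prod] at hle
    calc S.ncard ≤ _ := hle
      _ ≤ 2 ^ Module.finrank K W1 * 2 ^ Module.finrank K W2 := Nat.mul_le_mul hb1 hb2
      _ = 2 ^ d := by rw [← pow_add, hsum, hd]

end Inv


section Perm
variable {ι : Type} [Fintype ι] [DecidableEq ι]

/-- permutation matrices as units -/
def Pm (σ : Equiv.Perm ι) : (Matrix ι ι (ZMod 2))ˣ :=
  ⟨Matrix.of fun i j => if i = σ j then 1 else 0, Matrix.of fun i j => if i = σ.symm j then 1 else 0,
   by
    ext i j
    simp only [Matrix.mul_apply, Matrix.of_apply, Matrix.one_apply]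
    simp, by
    ext i j
    simp only [Matrix.mul_apply, Matrix.of_apply, Matrix.one_apply]
    simp⟩

theorem Pm_conj (σ : Equiv.Perm ι) (i j : ι) : Pm σ * El i j * (Pm σ)⁻¹ = El (σ i) (σ j) := by
  by_cases h : i = j
  · subst h
    unfold El
    simp
  · have h' : σ i ≠ σ j := fun h1 => h (σ.injective h1)
    rw [El_of_ne h, El_of_ne h', tv_conj]
    apply tv_congr
    · ext k
      simp [Pm, Matrix.mulVec_single, Pi.single_apply]
    · ext k
      simp [Pm, Pi.single_apply, Units.inv_mk, Equiv.eq_symm_apply, eq_comm]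
end Perm

/-- sizes -/
def nn (i : ℕ) : ℕ := 2 ^ (i + 6)

theorem nn_pos (i : ℕ) : 0 < nn i := by unfold nn; positivity

instance (i : ℕ) : NeZero (nn i) := ⟨(nn_pos i).ne'⟩

theorem nn_ge (i : ℕ) : 64 ≤ nn i := by
  unfold nn
  calc 64 = 2 ^ 6 := by norm_num
    _ ≤ 2 ^ (i + 6) := Nat.pow_le_pow_right (by norm_num) (by omega)

theorem nn_gt (i : ℕ) : i < nn i := by
  unfold nn
  calc i < 2 ^ i := Nat.lt_two_pow_self
    _ ≤ 2 ^ (i + 6) := Nat.pow_le_pow_right (by norm_num) (by omega)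

theorem nn_dvd {j i : ℕ} (h : j ≤ i) : nn j ∣ nn i := pow_dvd_pow 2 (by omega)

theorem nn_lt {i j : ℕ} (h : i < j) : nn i < nn j := Nat.pow_lt_pow_right (by norm_num) (by omega)

/-- the i-th finite factor -/
def S (i : ℕ) : Type := (Matrix (ZMod (nn i)) (ZMod (nn i)) (ZMod 2))ˣ

instance (i : ℕ) : Group (S i) := inferInstanceAs (Group (Matrix (ZMod (nn i)) (ZMod (nn i)) (ZMod 2))ˣ)
instance (i : ℕ) : Finite (S i) := inferInstanceAs (Finite (Matrix (ZMod (nn i)) (ZMod (nn i)) (ZMod 2))ˣ)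

/-- elementary transvections in the i-th factor -/
def e (i : ℕ) (a b : ZMod (nn i)) : S i := El a b
/-- the cyclic shift in the i-th factor -/
def t (i : ℕ) : S i := Pm (Equiv.addRight 1)

theorem e_commutator (i : ℕ) {a b c : ZMod (nn i)} (h1 : a ≠ b) (h2 : b ≠ c) (h3 : a ≠ c) :
    ⁅e i a b, e i b c⁆ = e i a c := El_commutator h1 h2 h3

theorem e_commute (i : ℕ) {a b c d : ZMod (nn i)} (h1 : a ≠ b) (h2 : c ≠ d) (h3 : b ≠ c) (h4 : a ≠ d) :
    ⁅e i a b, e i c d⁆ = 1 := El_commute h1 h2 h3 h4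

theorem e_inv (i : ℕ) (a b : ZMod (nn i)) : (e i a b)⁻¹ = e i a b := El_inv a b

theorem e_ne_one (i : ℕ) {a b : ZMod (nn i)} (h : a ≠ b) : e i a b ≠ 1 := El_ne_one h

theorem t_conj (i : ℕ) (a b : ZMod (nn i)) : t i * e i a b * (t i)⁻¹ = e i (a + 1) (b + 1) :=
  Pm_conj _ a b

theorem t_conj_pow (i k : ℕ) (a b : ZMod (nn i)) :
    (t i) ^ k * e i a b * ((t i) ^ k)⁻¹ = e i (a + k) (b + k) := by
  induction k with
  | zero => simp
  | succ k ih =>
    have : (t i) ^ (k + 1) * e i a b * ((t i) ^ (k + 1))⁻¹ =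
        t i * ((t i) ^ k * e i a b * ((t i) ^ k)⁻¹) * (t i)⁻¹ := by
      rw [pow_succ']; group
    rw [this, ih, t_conj]
    push_cast
    rw [add_assoc, add_assoc]

theorem S_simple (i : ℕ) (N : Subgroup (S i)) (hN : N.Normal) (g : S i) (hg : g ∈ N) (h1 : g ≠ 1) :
    N = ⊤ := by
  have hc : 4 ≤ Fintype.card (ZMod (nn i)) := by
    rw [ZMod.card]; have := nn_ge i; omega
  exact @simple_GL (ZMod (nn i)) _ _ hc N hN g hg h1

theorem S_exp (i n : ℕ) (h : ∀ g : S i, g ^ n = 1) (j : ℕ) (hj : 1 ≤ j) (hj2 : j ≤ nn i) :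
    (2 ^ j - 1) ∣ n :=
  exp_dvd (ι := ZMod (nn i)) n h j hj (by rw [ZMod.card]; exact hj2)

theorem S_card (i : ℕ) : Nat.card (S i) ≤ 2 ^ (nn i ^ 2) := by
  have := card_GL_le (ι := ZMod (nn i))
  rw [ZMod.card] at this
  exact this

theorem cast_ne_zero (i m : ℕ) (h0 : 0 < m) (h : m < nn i) : (m : ZMod (nn i)) ≠ 0 := by
  intro h1
  rw [ZMod.natCast_eq_zero_iff] at h1
  exact absurd (Nat.le_of_dvd h0 h1) (by omega)

theorem one_ne_zero' (i : ℕ) : (1 : ZMod (nn i)) ≠ 0 := by
  have := cast_ne_zero i 1 (by norm_num) (by have := nn_ge i; omega)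
  simpa using this

theorem two_ne_zero' (i : ℕ) : (1 + 1 : ZMod (nn i)) ≠ 0 := by
  have := cast_ne_zero i 2 (by norm_num) (by have := nn_ge i; omega)
  intro h; apply this; push_cast; rw [← h]; norm_num

theorem S_gen (i : ℕ) (H : Subgroup (S i)) (ht : t i ∈ H) (he : e i 0 1 ∈ H) : H = ⊤ := by
  have h1 : ∀ k : ZMod (nn i), e i k (k + 1) ∈ H := by
    intro k
    have := t_conj_pow i k.val 0 1
    rw [ZMod.natCast_zmod_val, zero_add, add_comm 1 k] at this
    rw [← this]
    exact H.mul_mem (H.mul_mem (H.pow_mem ht _) he) (H.inv_mem (H.pow_mem ht _))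
  have h2 : ∀ j : ℕ, 1 ≤ j → j < nn i → ∀ k : ZMod (nn i), e i k (k + j) ∈ H := by
    intro j hj
    induction j, hj using Nat.le_induction with
    | base => intro _ k; simpa using h1 k
    | succ j hj ih =>
      intro hlt k
      have a1 := cast_ne_zero i j (by omega) (by omega)
      have a2 := cast_ne_zero i (j + 1) (by omega) hlt
      have : e i k (k + (j + 1 : ℕ)) = ⁅e i k (k + j), e i (k + j) (k + j + 1)⁆ := by
        rw [e_commutator i]
        · push_cast; rw [add_assoc]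
        · intro h; apply a1; simpa using h
        · intro h; apply one_ne_zero' i; simpa using h
        · intro h; apply a2; push_cast; rw [add_assoc] at h; simpa using h
      rw [this]
      have b1 := ih (by omega) k
      have b2 := h1 (k + j)
      rw [commutatorElement_def]
      exact H.mul_mem (H.mul_mem (H.mul_mem b1 b2) (H.inv_mem b1)) (H.inv_mem b2)
  apply @gen_top (ZMod (nn i)) _ _ H
  intro a b hab
  have hv : 1 ≤ (b - a).val := by
    rw [Nat.one_le_iff_ne_zero]
    intro h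
    rw [ZMod.val_eq_zero] at h
    exact hab (sub_eq_zero.1 h).symm
  have := h2 (b - a).val hv (ZMod.val_lt _) a
  rw [ZMod.natCast_zmod_val, add_sub_cancel] at this
  exact this

/-- the ambient product -/
abbrev P : Type := (i : ℕ) → S i

def X : P := fun i => e i 0 1
def Y : P := fun i => e i 1 0
def T : P := fun i => t i

/-- the group -/
def G : Subgroup P := Subgroup.closure {X, Y, T}

theorem X_mem : X ∈ G := Subgroup.subset_closure (by simp)
theorem Y_mem : Y ∈ G := Subgroup.subset_closure (by simp)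
theorem T_mem : T ∈ G := Subgroup.subset_closure (by simp)

def U (i : ℕ) : P := ⁅X, T ^ (nn i - 1) * X * (T ^ (nn i - 1))⁻¹⁆

theorem comm_mem' {G' : Type} [Group G'] (H : Subgroup G') {a b : G'} (ha : a ∈ H) (hb : b ∈ H) : ⁅a, b⁆ ∈ H := by
  rw [commutatorElement_def]
  exact H.mul_mem (H.mul_mem (H.mul_mem ha hb) (H.inv_mem ha)) (H.inv_mem hb)

theorem conj_mem' {G' : Type} [Group G'] (H : Subgroup G') {a b : G'} (ha : a ∈ H) (hb : b ∈ H) : a * b * a⁻¹ ∈ H :=
  H.mul_mem (H.mul_mem ha hb) (H.inv_mem ha)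

theorem U_mem (i : ℕ) : U i ∈ G :=
  comm_mem' G X_mem (conj_mem' G (G.pow_mem T_mem _) X_mem)

theorem U_apply (i j : ℕ) :
    U i j = ⁅e j 0 1, e j ((nn i - 1 : ℕ) : ZMod (nn j)) ((nn i - 1 : ℕ) + 1)⁆ := by
  have h : U i j = ⁅X j, (T j) ^ (nn i - 1) * X j * ((T j) ^ (nn i - 1))⁻¹⁆ := rfl
  rw [h]
  show ⁅e j 0 1, (t j) ^ (nn i - 1) * e j 0 1 * ((t j) ^ (nn i - 1))⁻¹⁆ = _
  rw [t_conj_pow, zero_add, add_comm 1]

theorem U_le (i j : ℕ) (h : j ≤ i) : U i j = (e j (-1) 1)⁻¹ := by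
  rw [U_apply]
  have h1 : ((nn i - 1 : ℕ) : ZMod (nn j)) + 1 = 0 := by
    have : ((nn i - 1 : ℕ) : ZMod (nn j)) + 1 = ((nn i : ℕ) : ZMod (nn j)) := by
      have h2 : nn i = (nn i - 1) + 1 := by have := nn_pos i; omega
      rw [h2]; push_cast; simp
    rw [this, ZMod.natCast_eq_zero_iff]
    exact nn_dvd h
  have h2 : ((nn i - 1 : ℕ) : ZMod (nn j)) = -1 := eq_neg_of_add_eq_zero_left h1
  rw [h1, h2, ← e_commutator j (a := -1) (b := 0) (c := 1)]
  · rw [commutatorElement_inv]
  · intro h; apply one_ne_zero' j; rw [← neg_eq_zero]; exact h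
  · exact (one_ne_zero' j).symm
  · intro h
    apply two_ne_zero' j
    nth_rewrite 1 [← h]
    simp

theorem U_gt (i j : ℕ) (h : i < j) : U i j = 1 := by
  rw [U_apply]
  have hlt := nn_lt h
  have hge := nn_ge i
  apply e_commute
  · exact (one_ne_zero' j).symm
  · intro h; apply one_ne_zero' j; simpa using h
  · intro h1
    have h2 : ((nn i - 2 : ℕ) : ZMod (nn j)) ≠ 0 := cast_ne_zero j _ (by omega) (by omega)
    apply h2
    have h3 : nn i - 1 = (nn i - 2) + 1 := by omega
    rw [h3] at h1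
    push_cast at h1
    simpa using h1
  · intro h1
    have h2 : ((nn i : ℕ) : ZMod (nn j)) ≠ 0 := cast_ne_zero j _ (by omega) hlt
    apply h2
    have h3 : nn i = (nn i - 1) + 1 := by omega
    rw [h3]; push_cast
    exact h1.symm

/-- single-coordinate elements -/
def ms (i : ℕ) (s : S i) : P := Pi.mulSingle i s

theorem z_mem (i : ℕ) : ms i (e i (-1) 1)⁻¹ ∈ G := by
  cases i with
  | zero =>
    have : ms 0 (e 0 (-1) 1)⁻¹ = U 0 := by
      funext j
      rcases Nat.eq_zero_or_pos j with h | h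
      · subst h; rw [U_le 0 0 le_rfl]; simp [ms]
      · rw [U_gt 0 j h]
        exact Pi.mulSingle_eq_of_ne (by omega) _
    rw [this]; exact U_mem 0
  | succ i =>
    have : ms (i + 1) (e (i + 1) (-1) 1)⁻¹ = U (i + 1) * (U i)⁻¹ := by
      funext j
      rw [Pi.mul_apply, Pi.inv_apply]
      rcases lt_trichotomy j (i + 1) with h | h | h
      · rw [U_le (i + 1) j (by omega), U_le i j (by omega), mul_inv_cancel]
        exact Pi.mulSingle_eq_of_ne (by omega) _
      · subst h
        rw [U_le (i + 1) (i + 1) le_rfl, U_gt i (i + 1) (by omega)]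
        simp [ms]
      · rw [U_gt (i + 1) j h, U_gt i j (by omega), inv_one, mul_one]
        exact Pi.mulSingle_eq_of_ne (by omega) _
    rw [this]
    exact G.mul_mem (U_mem _) (G.inv_mem (U_mem _))

theorem proj_surj (i : ℕ) (s : S i) : ∃ g ∈ G, g i = s := by
  have : G.map (Pi.evalMonoidHom S i) = ⊤ := by
    apply S_gen
    · exact ⟨T, T_mem, rfl⟩
    · exact ⟨X, X_mem, rfl⟩
  have hs : s ∈ G.map (Pi.evalMonoidHom S i) := by rw [this]; trivial
  obtain ⟨g, hg, h⟩ := hs
  exact ⟨g, hg, h⟩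

theorem ms_conj (i : ℕ) (s : S i) (g : P) : g * ms i s * g⁻¹ = ms i (g i * s * (g i)⁻¹) := by
  funext j
  rw [Pi.mul_apply, Pi.mul_apply, Pi.inv_apply]
  by_cases h : j = i
  · subst h; simp [ms]
  · simp only [ms, Pi.mulSingle_eq_of_ne h]
    simp

theorem ms_mem (i : ℕ) (s : S i) : ms i s ∈ G := by
  let H : Subgroup (S i) := G.comap (MonoidHom.mulSingle S i)
  have hH : ∀ x, x ∈ H ↔ ms i x ∈ G := fun x => Iff.rfl
  have hn : H.Normal := by
    constructor
    intro x hx r
    obtain ⟨g, hg, hgr⟩ := proj_surj i r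
    rw [hH] at hx ⊢
    rw [← hgr, ← ms_conj]
    exact conj_mem' G hg hx
  have : H = ⊤ := by
    apply S_simple i H hn ((e i (-1) 1)⁻¹)
    · rw [hH]; exact z_mem i
    · rw [Ne, inv_eq_one]
      apply e_ne_one
      intro h
      apply two_ne_zero' i
      nth_rewrite 1 [← h]
      simp
  have h2 : s ∈ H := by rw [this]; trivial
  exact h2

theorem fin_mem (N : ℕ) : ∀ g : P, (∀ i, N ≤ i → g i = 1) → g ∈ G := by
  induction N with
  | zero =>
    intro g hg
    have : g = 1 := by funext i; exact hg i (Nat.zero_le _)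
    rw [this]; exact G.one_mem
  | succ N ih =>
    intro g hg
    have h1 : g * (ms N (g N))⁻¹ ∈ G := by
      apply ih
      intro i hi
      rw [Pi.mul_apply, Pi.inv_apply]
      by_cases h : i = N
      · subst h; simp [ms]
      · rw [hg i (by omega), one_mul, inv_eq_one]
        exact Pi.mulSingle_eq_of_ne h _
    have := G.mul_mem h1 (ms_mem N (g N))
    simpa using this



/-- elements of `G` trivial below `i0`, finitely supported, lie in `M` if the factors do. -/
theorem supp_mem (M : Subgroup G) (i0 : ℕ) (hM : ∀ i, i0 ≤ i → ∀ s : S i, (⟨ms i s, ms_mem i s⟩ : G) ∈ M)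
    (N : ℕ) : ∀ g : G, (∀ i, i < i0 → g.1 i = 1) → (∀ i, N ≤ i → g.1 i = 1) → g ∈ M := by
  induction N with
  | zero =>
    intro g _ hg
    have : g = 1 := by
      apply Subtype.ext
      funext i; exact hg i (Nat.zero_le _)
    rw [this]; exact M.one_mem
  | succ N ih =>
    intro g hg1 hg2
    by_cases hN : N < i0
    · apply ih g hg1
      intro i hi
      by_cases h : i = N
      · subst h; exact hg1 i hN
      · exact hg2 i (by omega)
    · have h1 : g * (⟨ms N (g.1 N), ms_mem N _⟩ : G)⁻¹ ∈ M := by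
        apply ih
        · intro i hi
          show g.1 i * (ms N (g.1 N) i)⁻¹ = 1
          rw [hg1 i hi, one_mul, inv_eq_one]
          exact Pi.mulSingle_eq_of_ne (by omega) _
        · intro i hi
          show g.1 i * (ms N (g.1 N) i)⁻¹ = 1
          by_cases h : i = N
          · subst h; simp [ms]
          · rw [hg2 i (by omega), one_mul, inv_eq_one]
            exact Pi.mulSingle_eq_of_ne h _
      have := M.mul_mem h1 (hM N (by omega) (g.1 N))
      simpa using this

/-- truncation above -/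
def hi (i0 : ℕ) (g : P) : P := fun i => if i < i0 then 1 else g i

theorem hi_mem (i0 : ℕ) (g : P) (hg : g ∈ G) : hi i0 g ∈ G := by
  have h1 : hi i0 g = (fun i => if i < i0 then (g i)⁻¹ else 1 : P) * g := by
    funext i
    rw [Pi.mul_apply]
    unfold hi
    by_cases h : i < i0
    · simp [h]
    · simp [h]
  rw [h1]
  apply G.mul_mem _ hg
  apply fin_mem i0
  intro i hi'
  simp [show ¬ i < i0 by omega]

/-- the finite part -/
def loP (i0 : ℕ) : ((i : Fin i0) → S i) →* P where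
  toFun p := fun i => if h : i < i0 then p ⟨i, h⟩ else 1
  map_one' := by
    funext i
    by_cases h : i < i0 <;> simp [h]
  map_mul' p q := by
    funext i
    by_cases h : i < i0 <;> simp [h]

theorem loP_mem (i0 : ℕ) (p : (i : Fin i0) → S i) : loP i0 p ∈ G := by
  apply fin_mem i0
  intro i hi
  exact dif_neg (by omega)

/-- the finite part, in `G` -/
def lo (i0 : ℕ) : ((i : Fin i0) → S i) →* G := (loP i0).codRestrict G (loP_mem i0)

theorem split_eq (i0 : ℕ) (g : G) :
    g = lo i0 (fun i => g.1 i) * ⟨hi i0 g.1, hi_mem i0 g.1 g.2⟩ := by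
  apply Subtype.ext
  funext i
  show g.1 i = (if h : i < i0 then g.1 i else 1) * (if i < i0 then 1 else g.1 i)
  by_cases h : i < i0 <;> simp [h]

section Quot
variable (M : Subgroup G) [hMn : M.Normal] (i0 n : ℕ) (hn : 0 < n)
  (hM : ∀ i, i0 ≤ i → ∀ s : S i, (⟨ms i s, ms_mem i s⟩ : G) ∈ M)
  (hpow : ∀ g : G, g ^ n ∈ M)

def gX : G := ⟨hi i0 X, hi_mem i0 X X_mem⟩
def gY : G := ⟨hi i0 Y, hi_mem i0 Y Y_mem⟩
def gT : G := ⟨hi i0 T, hi_mem i0 T T_mem⟩

theorem gX_lt {i0 i : ℕ} (h : i < i0) : (gX i0).1 i = 1 := if_pos h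
theorem gY_lt {i0 i : ℕ} (h : i < i0) : (gY i0).1 i = 1 := if_pos h
theorem gT_lt {i0 i : ℕ} (h : i < i0) : (gT i0).1 i = 1 := if_pos h
theorem gX_ge {i0 i : ℕ} (h : ¬ i < i0) : (gX i0).1 i = e i 0 1 := if_neg h
theorem gY_ge {i0 i : ℕ} (h : ¬ i < i0) : (gY i0).1 i = e i 1 0 := if_neg h
theorem gT_ge {i0 i : ℕ} (h : ¬ i < i0) : (gT i0).1 i = t i := if_neg h

include hn hM hpow in
theorem gX_mem : gX i0 ∈ M := by
  set A := gX i0
  set B := gY i0
  set C := gT i0
  have h1 : C ^ (3 * n) ∈ M := by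
    rw [mul_comm, pow_mul]; exact M.pow_mem (hpow C) 3
  have h2 : ⁅C ^ (3 * n) * A * (C ^ (3 * n))⁻¹, C * A * C⁻¹⁆ ∈ M := by
    apply supp_mem M i0 hM (3 * n)
    · intro i hi
      show ⁅(C.1 i) ^ (3 * n) * A.1 i * ((C.1 i) ^ (3 * n))⁻¹, C.1 i * A.1 i * (C.1 i)⁻¹⁆ = 1
      rw [gX_lt hi, gT_lt hi]; simp
    · intro i hi
      show ⁅(C.1 i) ^ (3 * n) * A.1 i * ((C.1 i) ^ (3 * n))⁻¹, C.1 i * A.1 i * (C.1 i)⁻¹⁆ = 1
      by_cases h : i < i0
      · rw [gX_lt h, gT_lt h]; simp
      · rw [gX_ge h, gT_ge h, t_conj_pow, t_conj]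
        have hlt : 3 * n < nn i := lt_of_le_of_lt hi (nn_gt i)
        have c1 : ((3 * n : ℕ) : ZMod (nn i)) ≠ 0 := cast_ne_zero i _ (by omega) hlt
        have c2 : ((3 * n - 2 : ℕ) : ZMod (nn i)) ≠ 0 := cast_ne_zero i _ (by omega) (by omega)
        apply e_commute
        · intro h1; apply one_ne_zero' i; simpa using h1.symm
        · intro h1; apply one_ne_zero' i; simpa using h1
        · intro h1
          apply c1
          rw [zero_add] at h1
          simpa using h1
        · intro h1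
          apply c2
          have h3 : 3 * n = (3 * n - 2) + 2 := by omega
          rw [h3] at h1
          rw [Nat.cast_add, zero_add] at h1
          have h4 : ((2 : ℕ) : ZMod (nn i)) = 1 + 1 := by norm_num
          rw [h4] at h1
          simpa using h1
  have h3 : ⁅A, C * A * C⁻¹⁆ ∈ M := by
    rw [← QuotientGroup.eq_one_iff] at h2 ⊢
    have h4 : ((C ^ (3 * n) : G) : G ⧸ M) = 1 := (QuotientGroup.eq_one_iff _).2 h1
    have h5 : ((C ^ (3 * n) * A * (C ^ (3 * n))⁻¹ : G) : G ⧸ M) = A := by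
      rw [QuotientGroup.mk_mul, QuotientGroup.mk_mul, QuotientGroup.mk_inv, h4]; simp
    rw [commutatorElement_def, QuotientGroup.mk_mul, QuotientGroup.mk_mul, QuotientGroup.mk_mul,
      QuotientGroup.mk_inv, QuotientGroup.mk_inv, h5] at h2
    rw [commutatorElement_def, QuotientGroup.mk_mul, QuotientGroup.mk_mul, QuotientGroup.mk_mul,
      QuotientGroup.mk_inv, QuotientGroup.mk_inv]
    exact h2
  have h4 : A = ⁅⁅A, C * A * C⁻¹⁆, C * B * C⁻¹⁆ := by
    apply Subtype.ext
    funext i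
    show A.1 i = ⁅⁅A.1 i, C.1 i * A.1 i * (C.1 i)⁻¹⁆, C.1 i * B.1 i * (C.1 i)⁻¹⁆
    by_cases h : i < i0
    · rw [gX_lt h, gT_lt h, gY_lt h]; simp
    · rw [gX_ge h, gT_ge h, gY_ge h, t_conj, t_conj]
      have o := one_ne_zero' i
      have w := two_ne_zero' i
      rw [zero_add]
      rw [e_commutator i (a := 0) (b := 1) (c := 1 + 1)]
      · rw [e_commutator i (a := 0) (b := 1 + 1) (c := 1)]
        · exact w.symm
        · intro h1; apply o; simpa using h1
        · exact o.symm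
      · exact o.symm
      · intro h1; apply o; simpa using h1.symm
      · exact w.symm
  rw [h4, commutatorElement_def]
  have h5 := hMn.conj_mem _ (M.inv_mem h3) (C * B * C⁻¹)
  have h6 := M.mul_mem h3 h5
  rw [← mul_assoc, ← mul_assoc] at h6
  exact h6

include hn hM hpow in
theorem gY_mem : gY i0 ∈ M := by
  have hA := gX_mem M i0 n hn hM hpow
  set A := gX i0
  set B := gY i0
  set C := gT i0
  have h4 : B = ⁅C * A * C⁻¹, ⁅C * B * C⁻¹, B⁆⁆ := by
    apply Subtype.ext
    funext i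
    show B.1 i = ⁅C.1 i * A.1 i * (C.1 i)⁻¹, ⁅C.1 i * B.1 i * (C.1 i)⁻¹, B.1 i⁆⁆
    by_cases h : i < i0
    · rw [gX_lt h, gT_lt h, gY_lt h]; simp
    · rw [gX_ge h, gT_ge h, gY_ge h, t_conj, t_conj]
      have o := one_ne_zero' i
      have w := two_ne_zero' i
      rw [zero_add]
      rw [e_commutator i (a := 1 + 1) (b := 1) (c := 0)]
      · rw [e_commutator i (a := 1) (b := 1 + 1) (c := 0)]
        · intro h1; apply o; simpa using h1.symm
        · exact w
        · exact o
      · intro h1; apply o; simpa using h1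
      · exact o
      · exact w
  have hCA : C * A * C⁻¹ ∈ M := hMn.conj_mem _ hA C
  rw [h4, commutatorElement_def]
  have h5 := hMn.conj_mem _ (M.inv_mem hCA) (⁅C * B * C⁻¹, B⁆)
  have h6 := M.mul_mem hCA h5
  rw [← mul_assoc, ← mul_assoc] at h6
  exact h6

include hn hM hpow in
theorem index_bound : M.index ≤ (∏ i : Fin i0, Nat.card (S i)) * n := by
  let π : G →* G ⧸ M := QuotientGroup.mk' M
  let f1 : ((i : Fin i0) → S i) →* G ⧸ M := π.comp (lo i0)
  let f2 : Multiplicative ℤ →* G ⧸ M := zpowersHom _ (π (gT i0))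
  have hc : ∀ p k, Commute (f1 p) (f2 k) := by
    intro p k
    show Commute (π (lo i0 p)) ((π (gT i0)) ^ (Multiplicative.toAdd k))
    apply Commute.zpow_right
    have : Commute (lo i0 p) (gT i0) := by
      apply Subtype.ext
      funext i
      show (lo i0 p).1 i * (gT i0).1 i = (gT i0).1 i * (lo i0 p).1 i
      by_cases h : i < i0
      · rw [gT_lt h]; simp
      · have : (lo i0 p).1 i = 1 := dif_neg h
        rw [this]; simp
    exact this.map π
  let Φ := MonoidHom.noncommCoprod f1 f2 hc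
  have hΦ : ∀ p k, Φ (p, k) = f1 p * f2 k := fun p k => rfl
  have hsurj : Φ.range = ⊤ := by
    have hle : ∀ g : P, ∀ hg : g ∈ G, π ⟨g, hg⟩ ∈ Φ.range := by
      intro g hg
      unfold G at hg
      induction hg using Subgroup.closure_induction with
      | mem x hx =>
        simp only [Set.mem_insert_iff, Set.mem_singleton_iff] at hx
        have key : ∀ g : G, π ⟨hi i0 g.1, hi_mem i0 g.1 g.2⟩ ∈ Φ.range → π g ∈ Φ.range := by
          intro g hg
          rw [split_eq i0 g, map_mul]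
          apply Subgroup.mul_mem _ _ hg
          exact ⟨(fun i => g.1 i, 1), by rw [hΦ, map_one, mul_one]; rfl⟩
        rcases hx with rfl | rfl | rfl
        · apply key ⟨X, X_mem⟩
          have : π (gX i0) = 1 := (QuotientGroup.eq_one_iff _).2 (gX_mem M i0 n hn hM hpow)
          have h2 : π ⟨hi i0 X, hi_mem i0 X X_mem⟩ = 1 := this
          rw [h2]; exact Subgroup.one_mem _
        · apply key ⟨Y, Y_mem⟩
          have : π (gY i0) = 1 := (QuotientGroup.eq_one_iff _).2 (gY_mem M i0 n hn hM hpow)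
          have h2 : π ⟨hi i0 Y, hi_mem i0 Y Y_mem⟩ = 1 := this
          rw [h2]; exact Subgroup.one_mem _
        · apply key ⟨T, T_mem⟩
          refine ⟨(1, Multiplicative.ofAdd 1), ?_⟩
          rw [hΦ, map_one, one_mul]
          show (π (gT i0)) ^ (1 : ℤ) = _
          rw [zpow_one]; rfl
      | one =>
        have : π (⟨1, G.one_mem⟩ : G) = 1 := map_one π
        rw [this]; exact Subgroup.one_mem _
      | mul x y hx hy ihx ihy =>
        have : π (⟨x * y, G.mul_mem hx hy⟩ : G) = π ⟨x, hx⟩ * π ⟨y, hy⟩ := map_mul π (⟨x, hx⟩ : G) ⟨y, hy⟩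
        rw [this]; exact Subgroup.mul_mem _ ihx ihy
      | inv x hx ih =>
        have : π (⟨x⁻¹, G.inv_mem hx⟩ : G) = (π ⟨x, hx⟩)⁻¹ := map_inv π (⟨x, hx⟩ : G)
        rw [this]; exact Subgroup.inv_mem _ ih
    rw [eq_top_iff]
    intro q _
    obtain ⟨g, rfl⟩ := QuotientGroup.mk'_surjective M q
    exact hle g.1 g.2
  have hTn : (π (gT i0)) ^ n = 1 := by
    rw [← map_pow]; exact (QuotientGroup.eq_one_iff _).2 (hpow _)
  let F : ((i : Fin i0) → S i) × Fin n → G ⧸ M := fun pk => f1 pk.1 * (π (gT i0)) ^ (pk.2 : ℕ)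
  have hF : Function.Surjective F := by
    intro q
    have hq : q ∈ Φ.range := by rw [hsurj]; trivial
    obtain ⟨⟨p, k⟩, rfl⟩ := hq
    have hnz : (n : ℤ) ≠ 0 := by exact_mod_cast hn.ne'
    have hk1 : 0 ≤ (Multiplicative.toAdd k) % (n : ℤ) := Int.emod_nonneg _ hnz
    have hk2 : (Multiplicative.toAdd k) % (n : ℤ) < n := Int.emod_lt_of_pos _ (by exact_mod_cast hn)
    refine ⟨(p, ⟨((Multiplicative.toAdd k) % (n : ℤ)).toNat, by omega⟩), ?_⟩
    show f1 p * (π (gT i0)) ^ ((Multiplicative.toAdd k) % (n : ℤ)).toNat = f1 p * (π (gT i0)) ^ (Multiplicative.toAdd k)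
    congr 1
    have h1 : (π (gT i0)) ^ (Multiplicative.toAdd k) =
        (π (gT i0)) ^ ((Multiplicative.toAdd k) % (n : ℤ) + n * ((Multiplicative.toAdd k) / (n : ℤ))) := by
      rw [Int.emod_add_mul_ediv]
    rw [h1, _root_.zpow_add, _root_.zpow_mul, zpow_natCast, hTn, _root_.one_zpow, mul_one, ← zpow_natCast,
      Int.toNat_of_nonneg hk1]
  have hcard := Nat.card_le_card_of_surjective F hF
  rw [Nat.card_prod, Nat.card_pi, Nat.card_eq_fintype_card (α := Fin n), Fintype.card_fin] at hcard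
  rw [Subgroup.index_eq_card]
  exact hcard

end Quot


theorem dichotomy (M : Subgroup G) (hMn : M.Normal) (n : ℕ) (hpow : ∀ g : G, g ^ n ∈ M) (i : ℕ)
    (h : ∃ s : S i, (⟨ms i s, ms_mem i s⟩ : G) ∉ M) : ∀ s : S i, s ^ n = 1 := by
  obtain ⟨s0, hs0⟩ := h
  let H : Subgroup (S i) := M.comap ((MonoidHom.mulSingle S i).codRestrict G (ms_mem i))
  have hH : ∀ x, x ∈ H ↔ (⟨ms i x, ms_mem i x⟩ : G) ∈ M := fun x => Iff.rfl
  have hn : H.Normal := by
    constructor
    intro x hx r
    obtain ⟨g, hg, hgr⟩ := proj_surj i r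
    rw [hH] at hx ⊢
    have h1 := hMn.conj_mem _ hx ⟨g, hg⟩
    have h2 : (⟨g, hg⟩ : G) * ⟨ms i x, ms_mem i x⟩ * (⟨g, hg⟩ : G)⁻¹ =
        ⟨ms i (r * x * r⁻¹), ms_mem i _⟩ := by
      apply Subtype.ext
      show g * ms i x * g⁻¹ = _
      rw [ms_conj, hgr]
    rw [← h2]; exact h1
  intro s
  by_contra hne
  have hmem : s ^ n ∈ H := by
    rw [hH]
    have h1 := hpow ⟨ms i s, ms_mem i s⟩
    have h2 : (⟨ms i s, ms_mem i s⟩ : G) ^ n = ⟨ms i (s ^ n), ms_mem i _⟩ := by
      apply Subtype.ext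
      show (ms i s) ^ n = ms i (s ^ n)
      exact ((MonoidHom.mulSingle S i).map_pow s n).symm
    rw [← h2]; exact h1
  have htop := S_simple i H hn _ hmem hne
  apply hs0
  rw [← hH, htop]; trivial

theorem big_of_not (M : Subgroup G) (hMn : M.Normal) (n : ℕ) (hn : 0 < n) (hpow : ∀ g : G, g ^ n ∈ M) (i : ℕ)
    (h : ∃ s : S i, (⟨ms i s, ms_mem i s⟩ : G) ∉ M) : 2 ^ (nn i ^ 2) ≤ n ^ 24 := by
  have h1 := dichotomy M hMn n hpow i h
  have h2 : nn i = 4 * 2 ^ (i + 4) := by
    unfold nn; rw [pow_add, pow_add]; ring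
  rw [h2]
  apply main_lcm_bound _ n (Nat.one_le_two_pow) hn
  intro j hj hj2
  exact S_exp i n h1 j hj (by rw [h2]; exact hj2)

theorem sum_sq_le (k : ℕ) : ∑ i ∈ Finset.range k, nn i ^ 2 ≤ nn k ^ 2 := by
  induction k with
  | zero => simp
  | succ k ih =>
    rw [Finset.sum_range_succ]
    have : nn (k + 1) = 2 * nn k := by unfold nn; rw [show k + 1 + 6 = (k + 6) + 1 by ring, pow_succ]; ring
    rw [this]
    nlinarith [sq_nonneg (nn k)]

theorem index_final (M : Subgroup G) (hMn : M.Normal) (n : ℕ) (hn : 0 < n) (hpow : ∀ g : G, g ^ n ∈ M) :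
    M.index ≤ 1 * n ^ 49 := by
  classical
  have hex : ∃ i0, ∀ i, i0 ≤ i → ∀ s : S i, (⟨ms i s, ms_mem i s⟩ : G) ∈ M := by
    refine ⟨24 * n, fun i hi => ?_⟩
    by_contra hcon
    push Not at hcon
    have h1 := big_of_not M hMn n hn hpow i hcon
    have h2 : n ^ 24 < 2 ^ (n * 24) := by
      rw [pow_mul]; exact Nat.pow_lt_pow_left Nat.lt_two_pow_self (by norm_num)
    have h3 : nn i ^ 2 < n * 24 := (Nat.pow_lt_pow_iff_right (by norm_num)).1 (lt_of_le_of_lt h1 h2)
    have h4 := nn_gt i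
    have h5 : nn i ≤ nn i ^ 2 := by nlinarith
    omega
  have hspec := Nat.find_spec hex
  have hmin := fun m => @Nat.find_min _ _ hex m
  set i0 := Nat.find hex
  have hb := index_bound M i0 n hn hspec hpow
  rcases Nat.eq_zero_or_pos i0 with h0 | hpos
  · have hprod : (∏ i : Fin i0, Nat.card (S i)) = 1 := by
      have : IsEmpty (Fin i0) := by rw [h0]; infer_instance
      exact Finset.prod_of_isEmpty _
    rw [hprod, one_mul] at hb
    rw [one_mul]
    exact hb.trans (Nat.le_self_pow (by norm_num) n)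
  · obtain ⟨k, hk⟩ : ∃ k, i0 = k + 1 := ⟨i0 - 1, by omega⟩
    have h1 := hmin k (by omega)
    push Not at h1
    obtain ⟨i, hi, hs⟩ := h1
    have hik : i = k := by
      by_contra hne
      obtain ⟨s, hs⟩ := hs
      exact hs (hspec i (by omega) s)
    subst hik
    have h2 := big_of_not M hMn n hn hpow i hs
    have h3 : (∏ j : Fin i0, Nat.card (S j)) ≤ n ^ 48 := by
      calc (∏ j : Fin i0, Nat.card (S j)) ≤ ∏ j : Fin i0, 2 ^ (nn j ^ 2) :=
            Finset.prod_le_prod' fun j _ => S_card j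
        _ = 2 ^ (∑ j : Fin i0, nn j ^ 2) := by rw [Finset.prod_pow_eq_pow_sum]
        _ = 2 ^ (∑ j ∈ Finset.range i0, nn j ^ 2) := by
            rw [Finset.sum_range (fun j => nn j ^ 2)]
        _ ≤ 2 ^ (nn i ^ 2 + nn i ^ 2) := by
            apply Nat.pow_le_pow_right (by norm_num)
            rw [hk, Finset.sum_range_succ]
            have := sum_sq_le i
            omega
        _ = 2 ^ (nn i ^ 2) * 2 ^ (nn i ^ 2) := by rw [pow_add]
        _ ≤ n ^ 24 * n ^ 24 := Nat.mul_le_mul h2 h2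
        _ = n ^ 48 := by rw [← pow_add]
    calc M.index ≤ _ := hb
      _ ≤ n ^ 48 * n := Nat.mul_le_mul_right _ h3
      _ = 1 * n ^ 49 := by rw [one_mul, ← pow_succ]

theorem pow_normal {G' : Type} [Group G'] (n : ℕ) :
    (Subgroup.closure {x : G' | ∃ g : G', g ^ n = x}).Normal := by
  constructor
  intro x hx r
  induction hx using Subgroup.closure_induction with
  | mem x hx =>
    obtain ⟨g, rfl⟩ := hx
    apply Subgroup.subset_closure
    exact ⟨r * g * r⁻¹, conj_pow⟩
  | one => simp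
  | mul x y _ _ ihx ihy =>
    have : r * (x * y) * r⁻¹ = (r * x * r⁻¹) * (r * y * r⁻¹) := by group
    rw [this]; exact Subgroup.mul_mem _ ihx ihy
  | inv x _ ih =>
    have : r * x⁻¹ * r⁻¹ = (r * x * r⁻¹)⁻¹ := by group
    rw [this]; exact Subgroup.inv_mem _ ih

/-! non-linearity -/
section Perm2
variable {ι : Type} [Fintype ι] [DecidableEq ι]

theorem Pm_mul (σ τ : Equiv.Perm ι) : Pm (σ * τ) = Pm σ * Pm τ := by
  ext i j
  rw [Units.val_mul, Matrix.mul_apply]
  simp only [Pm, Matrix.of_apply, Equiv.Perm.mul_apply]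
  rw [Finset.sum_eq_single (τ j)]
  · simp only [if_true, mul_one]
    exact if_congr Iff.rfl rfl rfl
  · intro b _ hb
    simp [hb]
  · simp

theorem Pm_one : Pm (1 : Equiv.Perm ι) = 1 := by
  ext i j
  simp only [Pm, Matrix.of_apply, Equiv.Perm.one_apply, Units.val_one, Matrix.one_apply]
  exact if_congr Iff.rfl rfl rfl

theorem Pm_pow (σ : Equiv.Perm ι) (k : ℕ) : Pm (σ ^ k) = (Pm σ) ^ k := by
  induction k with
  | zero => rw [pow_zero, pow_zero, Pm_one]
  | succ k ih => rw [pow_succ, pow_succ, Pm_mul, ih]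

end Perm2

theorem t_pow (i : ℕ) : (t i) ^ (nn i) = 1 := by
  have h : ∀ k : ℕ, (Equiv.addRight (1 : ZMod (nn i))) ^ k = Equiv.addRight (k : ZMod (nn i)) := by
    intro k
    induction k with
    | zero => ext x; simp
    | succ k ih => rw [pow_succ, ih]; ext x; simp; ring
  show (Pm (Equiv.addRight (1 : ZMod (nn i)))) ^ (nn i) = 1
  rw [← Pm_pow, h, ← Pm_one]
  congr 1
  ext x; simp

theorem El_inj {ι : Type} [Fintype ι] [DecidableEq ι] {a b c d : ι} (h1 : a ≠ b) (h2 : c ≠ d)
    (h : El a b = El c d) : a = c := by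
  have h3 : (El a b : Matrix ι ι (ZMod 2)) a b = (El c d : Matrix ι ι (ZMod 2)) a b := by rw [h]
  rw [El_val h1, El_val h2] at h3
  by_contra hne
  simp [Matrix.transvection, h1, Ne.symm hne] at h3

theorem t_pow_ne (i k : ℕ) (h0 : 0 < k) (hk : k < nn i) : (t i) ^ k ≠ 1 := by
  intro h
  have h1 := t_conj_pow i k 0 1
  rw [h] at h1
  simp only [one_mul, inv_one, mul_one, zero_add] at h1
  have h2 : (0 : ZMod (nn i)) = k := by
    apply El_inj (one_ne_zero' i).symm _ h1
    intro h3; apply one_ne_zero' i; simpa using h3.symm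
  exact cast_ne_zero i k h0 hk h2.symm

theorem not_linear {K : Type} [Field K] {V : Type} [AddCommGroup V] [Module K V] [FiniteDimensional K V]
    (ρ : G →* Module.End K V) (hρ : Function.Injective ρ) : False := by
  set m := Module.finrank K V with hm
  have hm1 : m < 2 ^ m := Nat.lt_two_pow_self
  have hlt : 2 ^ m < nn m := Nat.pow_lt_pow_right (by norm_num) (by omega)
  let inc : S m →* G := (MonoidHom.mulSingle S m).codRestrict G (ms_mem m)
  have hinc : Function.Injective inc := by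
    intro a b hab
    have : ms m a = ms m b := congrArg Subtype.val hab
    exact Pi.mulSingle_injective m this
  have hinj : Function.Injective (ρ.comp inc) := hρ.comp hinc
  by_cases h2 : (2 : K) = 0
  · have : CharP K 2 := CharTwo.of_one_ne_zero_of_two_eq_zero one_ne_zero h2
    have : Fact (Nat.Prime 2) := ⟨Nat.prime_two⟩
    have hcp : CharP (Module.End K V) 2 ∨ Subsingleton (Module.End K V) := by
      by_cases hs : Subsingleton (Module.End K V)
      · right; exact hs
      · left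
        have : Nontrivial (Module.End K V) := not_subsingleton_iff_nontrivial.1 hs
        exact charP_of_injective_algebraMap (algebraMap K (Module.End K V)).injective 2
    rcases hcp with hcp | hs
    · set f : Module.End K V := ρ.comp inc (t m) with hf
      have h3 : f ^ (2 ^ (m + 6)) = 1 := by
        rw [hf, ← map_pow, show (2 ^ (m + 6)) = nn m from rfl, t_pow, map_one]
      have h4 : (f - 1) ^ (2 ^ (m + 6)) = 0 := by
        rw [sub_pow_char_pow_of_commute 2 _ (Commute.one_right f), h3, one_pow, sub_self]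
      have h5 : (f - 1) ^ m = 0 := by
        have h6 := IsNilpotent.charpoly_eq_X_pow_finrank (φ := f - 1) ⟨_, h4⟩
        have h7 := LinearMap.aeval_self_charpoly (f - 1)
        rw [h6] at h7
        simpa using h7
      have h6 : (f - 1) ^ (2 ^ m) = 0 := pow_eq_zero_of_le hm1.le h5
      rw [sub_pow_char_pow_of_commute 2 _ (Commute.one_right f), one_pow, sub_eq_zero] at h6
      rw [hf, ← map_pow] at h6
      have h7 : (t m) ^ (2 ^ m) = 1 := hinj (by rw [h6, map_one])
      exact t_pow_ne m (2 ^ m) (by positivity) hlt h7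
    · have h7 : (t m) ^ (2 ^ m) = 1 := hinj (Subsingleton.elim _ _)
      exact t_pow_ne m (2 ^ m) (by positivity) hlt h7
  · let J : Type := {x : ZMod (nn m) // x ≠ 0}
    let ex : (J → ZMod 2) → (ZMod (nn m) → ZMod 2) := fun β x => if h : x ≠ 0 then β ⟨x, h⟩ else 0
    have hex0 : ∀ β, ex β ⬝ᵥ Pi.single 0 1 = 0 := by
      intro β
      simp [ex]
    let τ : (J → ZMod 2) → S m := fun β => tv (Pi.single 0 1) (ex β) (hex0 β)
    have hτinj : Function.Injective τ := by
      intro β γ h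
      have h3 : (1 + vecMulVec (Pi.single 0 1) (ex β) : Matrix (ZMod (nn m)) (ZMod (nn m)) (ZMod 2)) =
          1 + vecMulVec (Pi.single 0 1) (ex γ) := congrArg Units.val h
      rw [add_right_inj] at h3
      funext x
      have h4 := congrFun (congrFun h3 0) x.1
      simp only [vecMulVec_apply, Pi.single_eq_same, one_mul, ex] at h4
      rw [dif_pos x.2, dif_pos x.2] at h4
      exact h4
    let Ψ : (J → ZMod 2) → Module.End K V := fun β => ρ.comp inc (τ β)
    have hΨ : Function.Injective Ψ := hinj.comp hτinj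
    have hb := inv_bound h2 m V hm.symm (Set.range Ψ) (Set.finite_range Ψ) (by
      rintro _ ⟨β, rfl⟩
      show (ρ.comp inc (τ β)) * (ρ.comp inc (τ β)) = 1
      rw [← map_mul]
      have : τ β * τ β = 1 := tv_mul_self _ _ (hex0 β)
      rw [this, map_one]) (by
      rintro _ ⟨β, rfl⟩ _ ⟨γ, rfl⟩
      show (ρ.comp inc (τ β)) * (ρ.comp inc (τ γ)) = (ρ.comp inc (τ γ)) * (ρ.comp inc (τ β))
      rw [← map_mul, ← map_mul]
      have : τ β * τ γ = τ γ * τ β := tv_commute _ _ _ _ (hex0 β) (hex0 γ) (hex0 β) (hex0 γ)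
      rw [this])
    have hcardJ : Fintype.card J = nn m - 1 := by
      have : Fintype.card J = Fintype.card (ZMod (nn m)) - 1 := by
        have h := Fintype.card_subtype_compl (fun x : ZMod (nn m) => x = 0)
        rw [Fintype.card_subtype_eq] at h
        exact h
      rw [this, ZMod.card]
    have hr : (Set.range Ψ).ncard = 2 ^ (nn m - 1) := by
      rw [← Set.image_univ, Set.ncard_image_of_injective _ hΨ, Set.ncard_univ,
        Nat.card_eq_fintype_card, Fintype.card_fun, ZMod.card, hcardJ]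
    rw [hr] at hb
    have := (Nat.pow_le_pow_iff_right (by norm_num : 1 < 2)).1 hb
    have := nn_gt m
    have := nn_ge m
    omega

theorem result' :
    ¬ (∀ (G : Type) [Group G] [Group.FG G],
      (∀ g : G, g ≠ 1 → ∃ N : Subgroup G, N.Normal ∧ N.FiniteIndex ∧ g ∉ N) →
      (∃ c d : ℕ, ∀ N : Subgroup G, N.Normal → N.FiniteIndex →
        ∀ n : ℕ, 0 < n →
          (N ⊔ Subgroup.closure {x : G | ∃ g : G, g ^ n = x}).index ≤ c * n ^ d) →
      ∃ (K : Type) (_ : Field K) (m : ℕ)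
        (ρ : G →* Matrix.GeneralLinearGroup (Fin m) K), Function.Injective ρ) := by
  intro h
  have : Group.FG G := by
    rw [Group.fg_iff_subgroup_fg]
    exact (Subgroup.fg_iff _).2 ⟨{X, Y, T}, rfl, Set.toFinite _⟩
  obtain ⟨K, hK, m, ρ, hρ⟩ := h G (by
    intro g hg
    have h1 : ∃ i, g.1 i ≠ 1 := by
      by_contra hcon
      push Not at hcon
      apply hg
      apply Subtype.ext
      funext i; exact hcon i
    obtain ⟨i, hi⟩ := h1
    let f : G →* S i := (Pi.evalMonoidHom S i).comp G.subtype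
    refine ⟨f.ker, inferInstance, inferInstance, ?_⟩
    intro hmem
    exact hi hmem) ⟨1, 49, by
      intro N hN _ n hn
      have := hN
      have := pow_normal (G' := G) n
      apply index_final _ inferInstance n hn
      intro g
      apply Subgroup.mem_sup_right
      exact Subgroup.subset_closure ⟨g, rfl⟩⟩
  let θ : (Matrix (Fin m) (Fin m) K) →* Module.End K (Fin m → K) :=
    (Matrix.toLinAlgEquiv' (R := K) (n := Fin m)).toAlgHom.toRingHom.toMonoidHom
  have hθ : Function.Injective θ := (Matrix.toLinAlgEquiv' (R := K) (n := Fin m)).injective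
  exact not_linear (θ.comp ((Units.coeHom _).comp ρ)) (hθ.comp (Units.val_injective.comp hρ))


end Aux

/-- The negation of the preceding statement: Every finitely generated residually finite group G whose finite quotients G/N satisfy ∣G/N : (G/N)^n∣ ≤ c·n^d for all n ≥ 1 embeds as a subgroup of GL_m(K) for some field K and some m. -/
theorem result :
    ¬ (∀ (G : Type) [Group G] [Group.FG G],
      (∀ g : G, g ≠ 1 → ∃ N : Subgroup G, N.Normal ∧ N.FiniteIndex ∧ g ∉ N) →
      (∃ c d : ℕ, ∀ N : Subgroup G, N.Normal → N.FiniteIndex →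
        ∀ n : ℕ, 0 < n →
          (N ⊔ Subgroup.closure {x : G | ∃ g : G, g ^ n = x}).index ≤ c * n ^ d) →
      ∃ (K : Type) (_ : Field K) (m : ℕ)
        (ρ : G →* Matrix.GeneralLinearGroup (Fin m) K), Function.Injective ρ) := by
  exact result'

end Pool.Agent.S02484
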