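import Pool.Statements.S02492
import Pool.Agent.Helper218.Ex3

set_option autoImplicit false
open Pool Pool.MP_fedac3_al
open Pool.Agent.Helper218

namespace Pool.Agent.S02492

/-- The negation of the preceding statement: For every finite soluble group G, only finitely many Fitting classes are contained in the smallest Fitting class containing G, so the lattice of Fitting subclasses of the Fitting class generated by G is finite. -/
theorem result :
    ¬ (∀ (G : Type) [Group G] [Finite G], IsSolvable G →
      {F : (H : Type) → [Group H] → Prop |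
        ((∀ (H : Type) [Group H], F H → Finite H) ∧
         (∀ (H K : Type) [Group H] [Group K], Nonempty (H ≃* K) → F H → F K) ∧
         (∀ (H : Type) [Group H] (N : Subgroup H), N.Normal → F H → F ↥N) ∧
         (∀ (H : Type) [Group H] (N M : Subgroup H), N.Normal → M.Normal →
            F ↥N → F ↥M → F ↥(N ⊔ M))) ∧
        ∀ Q : (H : Type) → [Group H] → Prop,
          ((∀ (H : Type) [Group H], Q H → Finite H) ∧
           (∀ (H K : Type) [Group H] [Group K], Nonempty (H ≃* K) → Q H → Q K) ∧
           (∀ (H : Type) [Group H] (N : Subgroup H), N.Normal → Q H → Q ↥N) ∧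
           (∀ (H : Type) [Group H] (N M : Subgroup H), N.Normal → M.Normal →
              Q ↥N → Q ↥M → Q ↥(N ⊔ M))) →
          Q G → ∀ (H : Type) [Group H], F H → Q H}.Finite) := by
  intro hall
  have hfin := hall (E (ZMod 7)) E.solvable
  revert hfin
  -- the classes
  let Fm : ℕ → (H : Type) → [Group H] → Prop := fun m H _ =>
    Cls 7 3 (m + 1) H ∧ ∀ Q : (H : Type) → [Group H] → Prop,
          ((∀ (H : Type) [Group H], Q H → Finite H) ∧
           (∀ (H K : Type) [Group H] [Group K], Nonempty (H ≃* K) → Q H → Q K) ∧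
           (∀ (H : Type) [Group H] (N : Subgroup H), N.Normal → Q H → Q ↥N) ∧
           (∀ (H : Type) [Group H] (N M : Subgroup H), N.Normal → M.Normal →
              Q ↥N → Q ↥M → Q ↥(N ⊔ M))) →
          Q (E (ZMod 7)) → Q H
  have hinj : Function.Injective Fm := by
    intro m k hmk
    by_contra hne
    let F := GaloisField 7 (m + 1)
    have hcard : Nat.card F = 7 ^ (m + 1) := GaloisField.card 7 (m + 1) (Nat.succ_ne_zero m)
    haveI : Finite F := inferInstance
    have h1 : Fm m (B (LinearMap.id : F →ₗ[ZMod 7] F)) := by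
      refine ⟨B.cls inferInstance Function.surjective_id hcard, ?_⟩
      rintro Q ⟨_, hi, hs, hn⟩ hQ
      exact FitCls.mem_B ⟨hi, hs, hn⟩ hQ
    rw [hmk] at h1
    refine B.not_cls (lam := (LinearMap.id : F →ₗ[ZMod 7] F)) inferInstance
      Function.surjective_id ?_ h1.1
    rw [hcard]
    intro h2
    have h3 := Nat.pow_right_injective (by norm_num : 2 ≤ 7) h2
    omega
  apply Set.infinite_of_injective_forall_mem hinj
  intro m
  refine ⟨⟨?_, ?_, ?_, ?_⟩, ?_⟩
  · intro H _ hH
    exact Cls_fin hH.1
  · rintro H K _ _ ⟨e⟩ hH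
    refine ⟨Cls_iso e hH.1, ?_⟩
    intro Q hQ hG
    exact hQ.2.1 H K ⟨e⟩ (hH.2 Q hQ hG)
  · intro H _ N hN hH
    refine ⟨Cls_normal (by norm_num) N hN hH.1, ?_⟩
    intro Q hQ hG
    exact hQ.2.2.1 H N hN (hH.2 Q hQ hG)
  · intro H _ N M hN hM h1 h2
    refine ⟨Cls_sup (by norm_num) (by norm_num) N M hN hM h1.1 h2.1, ?_⟩
    intro Q hQ hG
    exact hQ.2.2.2 H N M hN hM (h1.2 Q hQ hG) (h2.2 Q hQ hG)
  · intro Q hQ hG H _ hH
    exact hH.2 Q hQ hG

end Pool.Agent.S02492
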