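import Pool.Statements.S02505

set_option autoImplicit false
open N3d24e4eb
open Polynomial MeasureTheory ENNReal Filter
open Pool Pool.MP_00b4fe_an

namespace Pool.Agent.S02505

open Set

/-- Runge type separation: if `0` lies in the unbounded component of the complement of the
compact set `K`, then `z q(z)` is close to `1` on `K` for some polynomial `q`. -/
lemma runge0 {K : Set ℂ} (hK : IsCompact K)
    (h0 : ¬ Bornology.IsBounded (connectedComponentIn Kᶜ (0 : ℂ))) :
    ∃ q : ℂ[X], ∀ z ∈ K, ‖z * q.eval z - 1‖ < 1 / 2 := by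
  have : CompactSpace K := isCompact_iff_compactSpace.mp hK
  let S : Subalgebra ℂ C(K, ℂ) := (polynomialFunctions K).topologicalClosure
  have hS : IsClosed (S : Set C(K, ℂ)) := (polynomialFunctions K).isClosed_topologicalClosure
  let X0 : C(K, ℂ) := Polynomial.toContinuousMapOnAlgHom K X
  have hX0 : X0 ∈ polynomialFunctions K := by
    rw [polynomialFunctions]
    exact ⟨X, by simp, rfl⟩
  let x : S := ⟨X0, (polynomialFunctions K).le_topologicalClosure hX0⟩
  have hspec : spectrum ℂ ((x : S) : C(K, ℂ)) = K := by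
    have h1 : spectrum ℂ X0 = Set.range X0 := ContinuousMap.spectrum_eq_range X0
    show spectrum ℂ X0 = K
    rw [h1]
    ext z
    constructor
    · rintro ⟨y, rfl⟩
      simp [X0]
    · intro hz
      exact ⟨⟨z, hz⟩, by simp [X0]⟩
  have h0S : (0 : ℂ) ∉ spectrum ℂ x := by
    intro hmem
    have := Subalgebra.spectrum_isBounded_connectedComponentIn S x hmem
    rw [hspec] at this
    exact h0 this
  rw [spectrum.zero_notMem_iff] at h0S
  obtain ⟨u, hu⟩ := h0S
  obtain ⟨R, hR⟩ := hK.isBounded.exists_norm_le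
  have hy : ((↑(u⁻¹) : S) : C(K, ℂ)) ∈ closure (polynomialFunctions K : Set C(K, ℂ)) := by
    have := (↑(u⁻¹) : S).2
    exact this
  have hpos : 0 < 1 / (2 * (|R| + 1)) := by positivity
  obtain ⟨p, hp, hdist⟩ := Metric.mem_closure_iff.mp hy _ hpos
  obtain ⟨q, -, rfl⟩ := hp
  refine ⟨q, ?_⟩
  intro z hz
  have hxy : X0 * ((↑(u⁻¹) : S) : C(K, ℂ)) = 1 := by
    have h3 : (x : S) * (↑(u⁻¹) : S) = 1 := by
      rw [← hu]; exact Units.mul_inv u
    have := congrArg (fun s : S => (s : C(K, ℂ))) h3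
    simpa using this
  have hzy : z * ((↑(u⁻¹) : S) : C(K, ℂ)) ⟨z, hz⟩ = 1 := by
    have := congrArg (fun s : C(K, ℂ) => s ⟨z, hz⟩) hxy
    simpa [X0] using this
  have h4 : ‖q.eval z - ((↑(u⁻¹) : S) : C(K, ℂ)) ⟨z, hz⟩‖ < 1 / (2 * (|R| + 1)) := by
    rw [dist_comm] at hdist
    have h5 := lt_of_le_of_lt (ContinuousMap.dist_apply_le_dist (f := _) (g := _) ⟨z, hz⟩) hdist
    rw [dist_eq_norm] at h5
    simpa using h5
  have h6 : z * q.eval z - 1 = z * (q.eval z - ((↑(u⁻¹) : S) : C(K, ℂ)) ⟨z, hz⟩) := by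
    rw [mul_sub, hzy]
  rw [h6, norm_mul]
  have h7 : ‖z‖ ≤ |R| := le_trans (hR z hz) (le_abs_self R)
  have h8 : 0 ≤ |R| := abs_nonneg R
  calc ‖z‖ * ‖q.eval z - ((↑(u⁻¹) : S) : C(K, ℂ)) ⟨z, hz⟩‖
      ≤ |R| * ‖q.eval z - ((↑(u⁻¹) : S) : C(K, ℂ)) ⟨z, hz⟩‖ :=
        mul_le_mul_of_nonneg_right h7 (norm_nonneg _)
    _ ≤ |R| * (1 / (2 * (|R| + 1))) := mul_le_mul_of_nonneg_left h4.le h8
    _ < 1 / 2 := by
        rw [mul_one_div, div_lt_div_iff₀ (by positivity) (by norm_num)]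
        linarith


/-! ### The wall -/

/-- Rotation angle of the corridor at radius `r`. -/
noncomputable def phi (k : ℕ) (r : ℝ) : ℝ := 4 * k * (r - 1 / 2) * Real.pi

/-- The wall: the part of the annulus `1/2 ≤ |z| ≤ 3/4` off a rotating sector. -/
def wall (k : ℕ) : Set ℂ :=
  {z | 1 / 2 ≤ ‖z‖ ∧ ‖z‖ ≤ 3 / 4 ∧
    (z * Complex.exp (-(phi k ‖z‖ : ℂ) * Complex.I)).re ≤ ‖z‖ / 2}

lemma continuous_phi (k : ℕ) : Continuous (phi k) := by
  unfold phi; fun_prop

lemma isCompact_wall (k : ℕ) : IsCompact (wall k) := by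
  apply Metric.isCompact_of_isClosed_isBounded
  · have h1 : IsClosed {z : ℂ | 1 / 2 ≤ ‖z‖} := isClosed_le continuous_const continuous_norm
    have h2 : IsClosed {z : ℂ | ‖z‖ ≤ 3 / 4} := isClosed_le continuous_norm continuous_const
    have h3 : IsClosed {z : ℂ | (z * Complex.exp (-(phi k ‖z‖ : ℂ) * Complex.I)).re ≤ ‖z‖ / 2} := by
      apply isClosed_le
      · have := continuous_phi k
        fun_prop
      · fun_prop
    exact h1.inter (h2.inter h3)
  · rw [isBounded_iff_forall_norm_le]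
    exact ⟨3 / 4, fun z hz => hz.2.1⟩

lemma unbounded_wall (k : ℕ) :
    ¬ Bornology.IsBounded (connectedComponentIn (wall k)ᶜ (0 : ℂ)) := by
  intro hb
  let c : ℝ → ℂ := fun t => (t : ℂ) * Complex.exp ((phi k t : ℂ) * Complex.I)
  have hc : Continuous c := by
    have := continuous_phi k
    fun_prop
  have hnorm : ∀ t : ℝ, 0 ≤ t → ‖c t‖ = t := by
    intro t ht
    simp only [c, norm_mul, Complex.norm_exp_ofReal_mul_I, mul_one, Complex.norm_real,
      Real.norm_eq_abs, abs_of_nonneg ht]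
  have hpre : IsPreconnected (c '' Set.Ici 0) := isPreconnected_Ici.image _ hc.continuousOn
  have hsub : c '' Set.Ici 0 ⊆ connectedComponentIn (wall k)ᶜ (0 : ℂ) := by
    apply hpre.subset_connectedComponentIn
    · exact ⟨0, Set.self_mem_Ici, by simp [c]⟩
    · rintro _ ⟨t, ht, rfl⟩ ⟨h1, h2, h3⟩
      rw [Set.mem_Ici] at ht
      rw [hnorm t ht] at h1 h3
      have h4 : c t * Complex.exp (-(phi k t : ℂ) * Complex.I) = (t : ℂ) := by
        simp only [c]
        rw [mul_assoc, ← Complex.exp_add]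
        simp
      rw [h4, Complex.ofReal_re] at h3
      linarith
  obtain ⟨R, hR⟩ := (isBounded_iff_forall_norm_le.mp (hb.subset hsub))
  have h5 := hR (c (|R| + 1)) ⟨|R| + 1, Set.mem_Ici.mpr (by positivity), rfl⟩
  rw [hnorm _ (by positivity)] at h5
  have := le_abs_self R
  linarith


/-! ### The polynomials -/

/-- The reciprocal conjugate polynomial. -/
noncomputable def star' (g : ℂ[X]) : ℂ[X] := (g.map (starRingEnd ℂ)).reverse

lemma natDegree_mapconj (g : ℂ[X]) : (g.map (starRingEnd ℂ)).natDegree = g.natDegree :=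
  natDegree_map_eq_of_injective (starRingEnd ℂ).injective g

lemma eval_star' (g : ℂ[X]) (z : ℂ) (hz : z ≠ 0) :
    (star' g).eval z = z ^ g.natDegree * starRingEnd ℂ (g.eval (starRingEnd ℂ z⁻¹)) := by
  let _ : Invertible (z⁻¹) := invertibleOfNonzero (inv_ne_zero hz)
  have h := eval₂_reverse_mul_pow (RingHom.id ℂ) z⁻¹ (g.map (starRingEnd ℂ))
  rw [invOf_eq_inv, inv_inv, natDegree_mapconj] at h
  have h2 : eval₂ (RingHom.id ℂ) z⁻¹ (g.map (starRingEnd ℂ)) =
      starRingEnd ℂ (g.eval (starRingEnd ℂ z⁻¹)) := by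
    change (g.map (starRingEnd ℂ)).eval z⁻¹ = _
    rw [eval_map]
    have : z⁻¹ = starRingEnd ℂ (starRingEnd ℂ z⁻¹) := (Complex.conj_conj _).symm
    conv_lhs => rw [this]
    rw [eval₂_at_apply]
  rw [h2] at h
  have h3 : (star' g).eval z = eval₂ (RingHom.id ℂ) z (g.map (starRingEnd ℂ)).reverse := rfl
  rw [h3, ← h]
  have h4 : z ^ g.natDegree * z⁻¹ ^ g.natDegree = 1 := by
    rw [← mul_pow, mul_inv_cancel₀ hz, one_pow]
  calc _ = (z ^ g.natDegree * z⁻¹ ^ g.natDegree) *
        eval₂ (RingHom.id ℂ) z (g.map (starRingEnd ℂ)).reverse := by rw [h4, one_mul]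
    _ = _ := by ring

lemma star'_natDegree (g : ℂ[X]) (hg0 : g.coeff 0 = 1) : (star' g).natDegree = g.natDegree := by
  unfold star'
  rw [reverse_natDegree, natDegree_mapconj]
  have : (g.map (starRingEnd ℂ)).natTrailingDegree = 0 := by
    rw [natTrailingDegree_eq_zero]
    right
    rw [coeff_map, hg0]; simp
  rw [this, Nat.sub_zero]

lemma star'_monic (g : ℂ[X]) (hg0 : g.coeff 0 = 1) : (star' g).Monic := by
  unfold star' Monic
  rw [reverse_leadingCoeff, trailingCoeff]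
  have : (g.map (starRingEnd ℂ)).natTrailingDegree = 0 := by
    rw [natTrailingDegree_eq_zero]
    right
    rw [coeff_map, hg0]; simp
  rw [this, coeff_map, hg0]; simp

lemma norm_star'_le (g : ℂ[X]) (hg : ∀ z : ℂ, ‖z‖ ≤ 1 → g.eval z ≠ 0) (w : ℂ) (hw : ‖w‖ ≤ 1) :
    ‖(star' g).eval w‖ ≤ ‖g.eval w‖ := by
  have hd : DiffContOnCl ℂ (fun z => (star' g).eval z / g.eval z) (Metric.ball (0 : ℂ) 1) := by
    constructor
    · apply DifferentiableOn.div
      · exact (star' g).differentiable.differentiableOn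
      · exact g.differentiable.differentiableOn
      · intro z hz
        rw [mem_ball_zero_iff] at hz
        exact hg z hz.le
    · rw [closure_ball _ one_ne_zero]
      apply ContinuousOn.div
      · exact (star' g).continuous.continuousOn
      · exact g.continuous.continuousOn
      · intro z hz
        rw [mem_closedBall_zero_iff] at hz
        exact hg z hz
  have hfr : ∀ z ∈ frontier (Metric.ball (0 : ℂ) 1), ‖(star' g).eval z / g.eval z‖ ≤ 1 := by
    intro z hz
    rw [frontier_ball _ one_ne_zero, mem_sphere_zero_iff_norm] at hz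
    have hz0 : z ≠ 0 := by
      intro h0; rw [h0, norm_zero] at hz; norm_num at hz
    have hinv : starRingEnd ℂ z⁻¹ = z := by
      rw [map_inv₀, inv_eq_iff_eq_inv]
      rw [Complex.inv_def, Complex.normSq_eq_norm_sq, hz]
      simp
    rw [eval_star' g z hz0, hinv, norm_div, norm_mul, norm_pow, hz, one_pow, one_mul,
      RCLike.norm_conj]
    rw [div_self (norm_ne_zero_iff.mpr (hg z hz.le))]
  have h1 := Complex.norm_le_of_forall_mem_frontier_norm_le Metric.isBounded_ball hd hfr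
    (z := w) (by rw [closure_ball _ one_ne_zero, mem_closedBall_zero_iff]; exact hw)
  rw [norm_div, div_le_one (norm_pos_iff.mpr (hg w hw))] at h1
  exact h1

lemma norm_le_star' (g : ℂ[X]) (hg : ∀ z : ℂ, ‖z‖ ≤ 1 → g.eval z ≠ 0) (z : ℂ) (hz : 1 ≤ ‖z‖) :
    ‖g.eval z‖ ≤ ‖(star' g).eval z‖ := by
  have hz0 : z ≠ 0 := by
    intro h0; rw [h0, norm_zero] at hz; norm_num at hz
  obtain ⟨w, hw⟩ : ∃ w, w = starRingEnd ℂ z⁻¹ := ⟨_, rfl⟩
  have hw0 : w ≠ 0 := by
    rw [hw]; simpa using hz0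
  have hwn : ‖w‖ ≤ 1 := by
    rw [hw, RCLike.norm_conj, norm_inv]
    exact inv_le_one_of_one_le₀ hz
  have h1 := norm_star'_le g hg w hwn
  have h2 : starRingEnd ℂ w⁻¹ = z := by
    rw [hw, ← map_inv₀, inv_inv, Complex.conj_conj]
  rw [eval_star' g w hw0, h2, norm_mul, norm_pow, RCLike.norm_conj] at h1
  rw [eval_star' g z hz0, norm_mul, norm_pow, RCLike.norm_conj, ← hw]
  have h3 : ‖z‖ * ‖w‖ = 1 := by
    rw [hw, RCLike.norm_conj, norm_inv, mul_inv_cancel₀ (norm_ne_zero_iff.mpr hz0)]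
  calc ‖g.eval z‖ = (‖z‖ * ‖w‖) ^ g.natDegree * ‖g.eval z‖ := by rw [h3, one_pow, one_mul]
    _ = ‖z‖ ^ g.natDegree * (‖w‖ ^ g.natDegree * ‖g.eval z‖) := by rw [mul_pow]; ring
    _ ≤ ‖z‖ ^ g.natDegree * ‖g.eval w‖ := mul_le_mul_of_nonneg_left h1 (by positivity)

/-- The family `z^m g^*(z) + g(z)`. -/
noncomputable def fam (g : ℂ[X]) (m : ℕ) : ℂ[X] := X ^ m * star' g + g

lemma fam_natDegree_aux (g : ℂ[X]) (hg0 : g.coeff 0 = 1) (m : ℕ) (hm : 1 ≤ m) :
    (X ^ m * star' g).Monic ∧ (X ^ m * star' g).natDegree = m + g.natDegree ∧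
      g.degree < (X ^ m * star' g).degree := by
  have h1 : (X ^ m * star' g).Monic := (monic_X_pow m).mul (star'_monic g hg0)
  have h2 : (X ^ m * star' g).natDegree = m + g.natDegree := by
    rw [(monic_X_pow m).natDegree_mul (star'_monic g hg0), natDegree_X_pow,
      star'_natDegree g hg0]
  refine ⟨h1, h2, ?_⟩
  apply degree_lt_degree
  rw [h2]; omega

lemma fam_monic (g : ℂ[X]) (hg0 : g.coeff 0 = 1) (m : ℕ) (hm : 1 ≤ m) : (fam g m).Monic := by
  obtain ⟨h1, h2, h3⟩ := fam_natDegree_aux g hg0 m hm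
  exact h1.add_of_left h3

lemma fam_natDegree (g : ℂ[X]) (hg0 : g.coeff 0 = 1) (m : ℕ) (hm : 1 ≤ m) :
    (fam g m).natDegree = m + g.natDegree := by
  obtain ⟨h1, h2, h3⟩ := fam_natDegree_aux g hg0 m hm
  unfold fam
  rw [natDegree_add_eq_left_of_degree_lt h3, h2]

lemma fam_roots (g : ℂ[X]) (hg : ∀ z : ℂ, ‖z‖ ≤ 1 → g.eval z ≠ 0)
    (m : ℕ) (hm : 1 ≤ m) : (fam g m).rootSet ℂ ⊆ Metric.closedBall 0 1 := by
  intro z hz
  rw [mem_closedBall_zero_iff]
  by_contra hcon
  push Not at hcon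
  have hz' : (fam g m).eval z = 0 := by
    have := (mem_rootSet.mp hz).2
    simpa using this
  simp only [fam, eval_add, eval_mul, eval_pow, eval_X] at hz'
  have h1 : z ^ m * (star' g).eval z = -g.eval z := by linear_combination hz'
  have h2 : ‖z‖ ^ m * ‖(star' g).eval z‖ = ‖g.eval z‖ := by
    rw [← norm_pow, ← norm_mul, h1, norm_neg]
  have h3 := norm_le_star' g hg z hcon.le
  have hz0 : z ≠ 0 := by
    intro h0; rw [h0, norm_zero] at hcon; norm_num at hcon
  have h4 : 0 < ‖(star' g).eval z‖ := by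
    rw [norm_pos_iff, eval_star' g z hz0]
    apply mul_ne_zero (pow_ne_zero _ hz0)
    rw [Ne, map_eq_zero]
    apply hg
    rw [RCLike.norm_conj, norm_inv]
    exact inv_le_one_of_one_le₀ hcon.le
  have h5 : 1 < ‖z‖ ^ m := one_lt_pow₀ hcon (by omega)
  nlinarith

lemma fam_large (g : ℂ[X]) (hg : ∀ z : ℂ, ‖z‖ ≤ 1 → g.eval z ≠ 0) (m : ℕ) (z : ℂ)
    (hz : ‖z‖ ≤ 3 / 4) : ‖g.eval z‖ * (1 - (3 / 4) ^ m) ≤ ‖(fam g m).eval z‖ := by
  simp only [fam, eval_add, eval_mul, eval_pow, eval_X]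
  have h1 := norm_star'_le g hg z (by linarith)
  have h2 : ‖z‖ ^ m ≤ (3 / 4) ^ m := pow_le_pow_left₀ (norm_nonneg _) hz m
  have h3 : ‖z ^ m * (star' g).eval z‖ ≤ (3 / 4) ^ m * ‖g.eval z‖ := by
    rw [norm_mul, norm_pow]
    exact mul_le_mul h2 h1 (norm_nonneg _) (by positivity)
  have h4 : ‖g.eval z‖ ≤ ‖z ^ m * (star' g).eval z + g.eval z‖ + ‖z ^ m * (star' g).eval z‖ := by
    have : g.eval z = (z ^ m * (star' g).eval z + g.eval z) - z ^ m * (star' g).eval z := by ring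
    conv_lhs => rw [this]
    exact norm_sub_le _ _
  linarith

/-- For all large `n` there is an admissible polynomial of degree `n` exceeding one in modulus
on the wall. -/
lemma exists_poly (k : ℕ) : ∃ N : ℕ, ∀ n : ℕ, N ≤ n → ∃ f : ℂ[X], IsAdmissible n f ∧
    ∀ z ∈ wall k, 1 < ‖f.eval z‖ := by
  obtain ⟨q, hq⟩ := runge0 (isCompact_wall k) (unbounded_wall k)
  obtain ⟨L, hL⟩ := (isCompact_closedBall (0 : ℂ) 1).exists_bound_of_continuousOn
    (f := fun z => z * q.eval z) (by fun_prop)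
  set A := |L| + 1 with hA
  have hA1 : 1 ≤ A := by rw [hA]; linarith [abs_nonneg L]
  have hA0 : 0 < A := by linarith
  have hbound : ∀ z : ℂ, ‖z‖ ≤ 1 → ‖z * q.eval z‖ ≤ A := by
    intro z hz
    have := hL z (by rw [mem_closedBall_zero_iff]; exact hz)
    linarith [le_abs_self L]
  let g : ℂ[X] := 1 + C (((1 / (2 * A) : ℝ)) : ℂ) * (X * q)
  have hgeval : ∀ z : ℂ, g.eval z = 1 + ((1 / (2 * A) : ℝ) : ℂ) * (z * q.eval z) := by
    intro z; simp [g]
  have hg0 : g.coeff 0 = 1 := by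
    rw [coeff_zero_eq_eval_zero, hgeval]; simp
  have hg : ∀ z : ℂ, ‖z‖ ≤ 1 → g.eval z ≠ 0 := by
    intro z hz h0
    rw [hgeval] at h0
    have h1 : ((1 / (2 * A) : ℝ) : ℂ) * (z * q.eval z) = -1 := by linear_combination h0
    have h2 := congrArg norm h1
    rw [norm_mul, norm_neg, norm_one, Complex.norm_real, Real.norm_eq_abs,
      abs_of_pos (by positivity)] at h2
    have h3 : 1 / (2 * A) * ‖z * q.eval z‖ ≤ 1 / (2 * A) * A :=
      mul_le_mul_of_nonneg_left (hbound z hz) (by positivity)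
    have h4 : 1 / (2 * A) * A = 1 / 2 := by field_simp
    linarith
  have hgK : ∀ z ∈ wall k, 1 + 1 / (4 * A) ≤ ‖g.eval z‖ := by
    intro z hz
    have h1 := hq z hz
    have h2 : |(z * q.eval z - 1).re| ≤ ‖z * q.eval z - 1‖ := Complex.abs_re_le_norm _
    have h3 : 1 / 2 ≤ (z * q.eval z).re := by
      have h5 := abs_le.mp (le_trans h2 h1.le)
      rw [Complex.sub_re, Complex.one_re] at h5
      linarith [h5.1]
    have h4 : (g.eval z).re = 1 + 1 / (2 * A) * (z * q.eval z).re := by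
      rw [hgeval, Complex.add_re, Complex.one_re, Complex.re_ofReal_mul]
    have h5 : 1 / (2 * A) * (1 / 2) ≤ 1 / (2 * A) * (z * q.eval z).re :=
      mul_le_mul_of_nonneg_left h3 (by positivity)
    have h6 : 1 / (2 * A) * (1 / 2) = 1 / (4 * A) := by field_simp; norm_num
    have h7 := Complex.re_le_norm (g.eval z)
    linarith
  have hδ : 0 < 1 / (4 * A) := by positivity
  -- choose m large
  have htend : Tendsto (fun m : ℕ => (1 + 1 / (4 * A)) * (1 - (3 / 4 : ℝ) ^ m)) atTop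
      (nhds ((1 + 1 / (4 * A)) * (1 - 0))) := by
    apply Filter.Tendsto.const_mul
    apply Filter.Tendsto.const_sub
    exact tendsto_pow_atTop_nhds_zero_of_lt_one (by norm_num) (by norm_num)
  have hev : ∀ᶠ m : ℕ in atTop, 1 < (1 + 1 / (4 * A)) * (1 - (3 / 4 : ℝ) ^ m) := by
    apply htend.eventually_const_lt
    linarith
  obtain ⟨m₀, hm₀⟩ := eventually_atTop.mp hev
  refine ⟨m₀ + 1 + g.natDegree, ?_⟩
  intro n hn
  refine ⟨fam g (n - g.natDegree), ⟨fam_monic g hg0 _ (by omega), ?_, fam_roots g hg _ (by omega)⟩, ?_⟩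
  · rw [fam_natDegree g hg0 _ (by omega)]; omega
  · intro z hz
    have h1 := fam_large g hg (n - g.natDegree) z hz.2.1
    have h2 := hm₀ (n - g.natDegree) (by omega)
    have h3 : 0 ≤ 1 - (3 / 4 : ℝ) ^ (n - g.natDegree) := by
      have : (3 / 4 : ℝ) ^ (n - g.natDegree) ≤ 1 := pow_le_one₀ (by norm_num) (by norm_num)
      linarith
    have h4 := mul_le_mul_of_nonneg_right (hgK z hz) h3
    linarith


/-! ### Length of escape paths -/

/-- Radii of the annuli. -/
noncomputable def rad (k j : ℕ) : ℝ := 1 / 2 + j / (4 * k)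

lemma phi_rad (k j : ℕ) (hk : 1 ≤ k) : phi k (rad k j) = j * Real.pi := by
  have : (k : ℝ) ≠ 0 := by positivity
  unfold phi rad
  field_simp
  ring

lemma rad_le (k j : ℕ) (hk : 1 ≤ k) (hj : j ≤ k) : rad k j ≤ 3 / 4 := by
  have hk' : (0 : ℝ) < k := by positivity
  have hj' : (j : ℝ) ≤ k := by exact_mod_cast hj
  unfold rad
  have : (j : ℝ) / (4 * k) ≤ 1 / 4 := by
    rw [div_le_div_iff₀ (by positivity) (by norm_num)]
    linarith
  linarith

lemma le_rad (k j : ℕ) : 1 / 2 ≤ rad k j := by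
  unfold rad
  have : (0 : ℝ) ≤ (j : ℝ) / (4 * k) := by positivity
  linarith

lemma rad_lt (k j : ℕ) (hk : 1 ≤ k) : rad k j < rad k (j + 1) := by
  have hk' : (0 : ℝ) < k := by positivity
  unfold rad
  have : (j : ℝ) / (4 * k) < ((j + 1 : ℕ) : ℝ) / (4 * k) := by
    apply div_lt_div_of_pos_right _ (by positivity)
    push_cast; linarith
  linarith

/-- At the radius `rad k j` a point off the wall lies on a definite side. -/
lemma side (k j : ℕ) (hk : 1 ≤ k) (hj : j ≤ k) (z : ℂ) (hz : ‖z‖ = rad k j)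
    (hw : z ∉ wall k) : 1 / 4 < (-1) ^ j * z.re := by
  have h1 := le_rad k j
  have h2 := rad_le k j hk hj
  have h3 : ‖z‖ / 2 < (z * Complex.exp (-(phi k ‖z‖ : ℂ) * Complex.I)).re := by
    by_contra hcon
    push Not at hcon
    exact hw ⟨by rw [hz]; exact h1, by rw [hz]; exact h2, hcon⟩
  rw [hz, phi_rad k j hk] at h3
  have h4 : Complex.exp (-((j * Real.pi : ℝ) : ℂ) * Complex.I) = (((-1) ^ j : ℝ) : ℂ) := by
    have e1 : -((j * Real.pi : ℝ) : ℂ) * Complex.I = (j : ℂ) * (-(Real.pi * Complex.I)) := by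
      push_cast; ring
    rw [e1, Complex.exp_nat_mul, Complex.exp_neg, Complex.exp_pi_mul_I]
    push_cast
    norm_num
  rw [h4, mul_comm, Complex.re_ofReal_mul] at h3
  linarith

/-- A connected set from `0` to the unit circle off the wall meets every vertical line
`Re z = v`, `|v| < 1/4`, in every one of the annuli. -/
lemma crossing (k j : ℕ) (hk : 1 ≤ k) (hj : j < k) (Γ : Set ℂ) (hΓ : IsPreconnected Γ)
    (h0 : (0 : ℂ) ∈ Γ) (h1 : ∃ z ∈ Γ, ‖z‖ = 1) (hw : ∀ z ∈ Γ, z ∉ wall k) (v : ℝ)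
    (hv : v ∈ Set.Ioo (-(1 / 4) : ℝ) (1 / 4)) :
    ∃ z ∈ Γ, rad k j < ‖z‖ ∧ ‖z‖ < rad k (j + 1) ∧ z.re = v := by
  by_contra hcon
  push Not at hcon
  -- sign `σ = (-1)^j`
  obtain ⟨σ, hσ⟩ : ∃ σ : ℝ, σ = (-1) ^ j := ⟨_, rfl⟩
  have hσ1 : σ = 1 ∨ σ = -1 := by
    rw [hσ]; exact neg_one_pow_eq_or ℝ j
  have hσv : |σ * v| < 1 / 4 := by
    rw [abs_mul]
    have : |σ| = 1 := by rcases hσ1 with h | h <;> rw [h] <;> norm_num
    rw [this, one_mul, abs_lt]
    exact ⟨hv.1, hv.2⟩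
  have hlt := rad_lt k j hk
  have hside1 : ∀ z ∈ Γ, ‖z‖ = rad k j → σ * v < σ * z.re := by
    intro z hz hzr
    have := side k j hk (by omega) z hzr (hw z hz)
    rw [← hσ] at this
    linarith [(abs_lt.mp hσv).2]
  have hside2 : ∀ z ∈ Γ, ‖z‖ = rad k (j + 1) → σ * z.re < σ * v := by
    intro z hz hzr
    have := side k (j + 1) hk (by omega) z hzr (hw z hz)
    rw [pow_succ, ← hσ] at this
    linarith [(abs_lt.mp hσv).1]
  set U : Set ℂ := {z | ‖z‖ < rad k j} ∪ {z | ‖z‖ < rad k (j + 1) ∧ σ * v < σ * z.re} with hU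
  set V : Set ℂ := {z | rad k (j + 1) < ‖z‖} ∪ {z | rad k j < ‖z‖ ∧ σ * z.re < σ * v} with hV
  have hUo : IsOpen U := by
    apply IsOpen.union
    · exact isOpen_lt continuous_norm continuous_const
    · apply IsOpen.inter
      · exact isOpen_lt continuous_norm continuous_const
      · exact isOpen_lt continuous_const (continuous_const.mul Complex.continuous_re)
  have hVo : IsOpen V := by
    apply IsOpen.union
    · exact isOpen_lt continuous_const continuous_norm
    · apply IsOpen.inter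
      · exact isOpen_lt continuous_const continuous_norm
      · exact isOpen_lt (continuous_const.mul Complex.continuous_re) continuous_const
  have hdisj : Disjoint U V := by
    rw [Set.disjoint_left]
    rintro z (h | ⟨h, h'⟩) (g | ⟨g, g'⟩)
    · simp only [Set.mem_ofPred_eq] at h g; linarith
    · simp only [Set.mem_ofPred_eq] at h; linarith
    · simp only [Set.mem_ofPred_eq] at g; linarith
    · linarith
  have hsub : Γ ⊆ U ∪ V := by
    intro z hz
    rcases lt_trichotomy ‖z‖ (rad k j) with h | h | h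
    · exact Or.inl (Or.inl h)
    · exact Or.inl (Or.inr ⟨by rw [h]; exact hlt, hside1 z hz h⟩)
    · rcases lt_trichotomy ‖z‖ (rad k (j + 1)) with g | g | g
      · have hne := hcon z hz h g
        have hne' : σ * z.re ≠ σ * v := by
          intro heq
          have hσ0 : σ ≠ 0 := by rcases hσ1 with h | h <;> rw [h] <;> norm_num
          exact hne (mul_left_cancel₀ hσ0 heq)
        rcases lt_or_gt_of_ne hne' with e | e
        · exact Or.inr (Or.inr ⟨h, e⟩)
        · exact Or.inl (Or.inr ⟨g, e⟩)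
      · exact Or.inr (Or.inr ⟨h, hside2 z hz g⟩)
      · exact Or.inr (Or.inl g)
  have hΓU : Γ ⊆ U := by
    apply hΓ.subset_left_of_subset_union hUo hVo hdisj hsub
    refine ⟨0, h0, Or.inl ?_⟩
    simp only [Set.mem_ofPred_eq, norm_zero]
    linarith [le_rad k j]
  obtain ⟨z, hz, hz1⟩ := h1
  rcases hΓU hz with h | h
  · simp only [Set.mem_ofPred_eq] at h
    linarith [rad_le k j hk (by omega)]
  · have := h.1
    linarith [rad_le k (j + 1) hk (by omega)]

/-- The annuli. -/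
def ann (k j : ℕ) : Set ℂ := {z | rad k j < ‖z‖ ∧ ‖z‖ < rad k (j + 1)}

lemma isOpen_ann (k j : ℕ) : IsOpen (ann k j) :=
  (isOpen_lt continuous_const continuous_norm).inter (isOpen_lt continuous_norm continuous_const)

lemma rad_mono (k : ℕ) : Monotone (rad k) := by
  intro i j hij
  have : (i : ℝ) ≤ j := by exact_mod_cast hij
  unfold rad
  have : (i : ℝ) / (4 * k) ≤ (j : ℝ) / (4 * k) := by
    apply div_le_div_of_nonneg_right this (by positivity)
  linarith

lemma ann_disjoint (k i j : ℕ) (hij : i < j) : Disjoint (ann k i) (ann k j) := by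
  rw [Set.disjoint_left]
  rintro z ⟨_, h1⟩ ⟨h2, _⟩
  have := rad_mono k (by omega : i + 1 ≤ j)
  linarith

lemma length_piece (k j : ℕ) (hk : 1 ≤ k) (hj : j < k) (Γ : Set ℂ) (hΓ : IsPreconnected Γ)
    (h0 : (0 : ℂ) ∈ Γ) (h1 : ∃ z ∈ Γ, ‖z‖ = 1) (hw : ∀ z ∈ Γ, z ∉ wall k) :
    ENNReal.ofReal (1 / 2) ≤ μH[1] (Γ ∩ ann k j) := by
  have hlip : LipschitzWith 1 Complex.re := by
    apply LipschitzWith.of_dist_le_mul
    intro x y
    rw [Real.dist_eq, ← Complex.sub_re, NNReal.coe_one, one_mul, Complex.dist_eq]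
    exact Complex.abs_re_le_norm _
  have h2 := hlip.hausdorffMeasure_image_le (d := 1) zero_le_one (Γ ∩ ann k j)
  simp only [ENNReal.coe_one, ENNReal.rpow_one, one_mul] at h2
  refine le_trans ?_ h2
  rw [hausdorffMeasure_real]
  have h3 : Set.Ioo (-(1 / 4) : ℝ) (1 / 4) ⊆ Complex.re '' (Γ ∩ ann k j) := by
    intro v hv
    obtain ⟨z, hz, ha, hb, hc⟩ := crossing k j hk hj Γ hΓ h0 h1 hw v hv
    exact ⟨z, ⟨hz, ha, hb⟩, hc⟩
  refine le_trans ?_ (measure_mono h3)
  rw [Real.volume_Ioo]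
  apply ENNReal.ofReal_le_ofReal
  norm_num

lemma length_total (k : ℕ) (hk : 1 ≤ k) (Γ : Set ℂ) (hΓ : IsPreconnected Γ)
    (hm : MeasurableSet Γ)
    (h0 : (0 : ℂ) ∈ Γ) (h1 : ∃ z ∈ Γ, ‖z‖ = 1) (hw : ∀ z ∈ Γ, z ∉ wall k) :
    ENNReal.ofReal (k / 2) ≤ μH[1] Γ := by
  have h2 : μH[1] (⋃ j ∈ Finset.range k, Γ ∩ ann k j) =
      ∑ j ∈ Finset.range k, μH[1] (Γ ∩ ann k j) := by
    apply measure_biUnion_finset
    · intro i hi j hj hij
      rcases lt_or_gt_of_ne hij with h | h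
      · exact (ann_disjoint k i j h).mono Set.inter_subset_right Set.inter_subset_right
      · exact ((ann_disjoint k j i h).mono Set.inter_subset_right Set.inter_subset_right).symm
    · intro j _
      exact hm.inter (isOpen_ann k j).measurableSet
  have h3 : μH[1] (⋃ j ∈ Finset.range k, Γ ∩ ann k j) ≤ μH[1] Γ := by
    apply measure_mono
    intro z hz
    simp only [Set.mem_iUnion] at hz
    obtain ⟨j, _, hz⟩ := hz
    exact hz.1
  refine le_trans ?_ h3
  rw [h2]
  have h4 : ∑ j ∈ Finset.range k, ENNReal.ofReal (1 / 2) ≤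
      ∑ j ∈ Finset.range k, μH[1] (Γ ∩ ann k j) := by
    apply Finset.sum_le_sum
    intro j hj
    exact length_piece k j hk (Finset.mem_range.mp hj) Γ hΓ h0 h1 hw
  refine le_trans (le_of_eq ?_) h4
  rw [Finset.sum_const, Finset.card_range, nsmul_eq_mul, ← ENNReal.ofReal_natCast,
    ← ENNReal.ofReal_mul (by positivity)]
  congr 1
  ring

theorem result :
    ∀ M : ℝ, ∀ᶠ n : ℕ in atTop, ENNReal.ofReal M ≤ worstCase n := by
  intro M
  obtain ⟨k, hk⟩ := exists_nat_ge (2 * |M| + 1)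
  have hk1 : 1 ≤ k := by
    have : (0 : ℝ) < k := by linarith [abs_nonneg M]
    exact_mod_cast this
  have hkM : M ≤ k / 2 := by linarith [le_abs_self M]
  obtain ⟨N, hN⟩ := exists_poly k
  rw [eventually_atTop]
  refine ⟨N, ?_⟩
  intro n hn
  obtain ⟨f, hf, hfw⟩ := hN n hn
  refine le_trans ?_ (le_iSup₂_of_le f hf (le_refl _))
  unfold shortestPathLength
  refine le_iInf fun z => le_iInf fun γ => le_iInf fun hz => le_iInf fun hγ => ?_
  unfold length
  refine le_trans (ENNReal.ofReal_le_ofReal hkM) ?_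
  apply length_total k hk1
  · exact isPreconnected_range γ.continuous
  · exact (isCompact_range γ.continuous).measurableSet
  · exact ⟨0, γ.source⟩
  · exact ⟨z, ⟨1, γ.target⟩, hz⟩
  · intro w hw hwall
    have h1 := hγ hw
    have h2 := hfw w hwall
    simp only [sublevel, Set.mem_ofPred_eq] at h1
    linarith

end Pool.Agent.S02505
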