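import Pool.Statements.S02520
import Pool.Agent.Helper34.Bmoa5

set_option autoImplicit false
open Pool Pool.MP_0252b9_an

namespace Pool.Agent.S02520

/-- The negation of the preceding statement: For every analytic f on the disc with f+conj(q0) bounded for some analytic q0 (i.e. f in BMOA), some analytic q attains the least sup M of ∣f+conj q∣ over the disc and ∣f+conj q∣ has radial limit M at a.e. boundary point. -/
theorem result :
    ¬ (∀ f : ℂ → ℂ, DifferentiableOn ℂ f (Metric.ball 0 1) →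
      (∃ q₀ : ℂ → ℂ, DifferentiableOn ℂ q₀ (Metric.ball 0 1) ∧
        ∃ C : ℝ, ∀ z ∈ Metric.ball (0 : ℂ) 1, ‖f z + starRingEnd ℂ (q₀ z)‖ ≤ C) →
      ∃ q : ℂ → ℂ, DifferentiableOn ℂ q (Metric.ball 0 1) ∧ ∃ M : ℝ,
        (∀ z ∈ Metric.ball (0 : ℂ) 1, ‖f z + starRingEnd ℂ (q z)‖ ≤ M) ∧
        (∀ q' : ℂ → ℂ, DifferentiableOn ℂ q' (Metric.ball 0 1) → ∀ M' : ℝ,
          (∀ z ∈ Metric.ball (0 : ℂ) 1, ‖f z + starRingEnd ℂ (q' z)‖ ≤ M') → M ≤ M') ∧
        ∀ᵐ θ : ℝ, Filter.Tendsto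
          (fun r : ℝ => ‖f ((r : ℂ) * Complex.exp ((θ : ℂ) * Complex.I)) +
            starRingEnd ℂ (q ((r : ℂ) * Complex.exp ((θ : ℂ) * Complex.I)))‖)
          (nhdsWithin 1 (Set.Iio 1)) (nhds M)) := by
  intro h
  obtain ⟨q, hq, M, hM, hmin, hrad⟩ := h Pool.Agent.Helper34.Bmoa.F
    Pool.Agent.Helper34.Bmoa.differentiableOn_F
    ⟨fun _ => 0, differentiableOn_const 0, 1, fun z _ => by
      simpa using Pool.Agent.Helper34.Bmoa.norm_F_le_one z⟩
  exact Pool.Agent.Helper34.Bmoa.not_exists_best M hq hM hmin hrad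

end Pool.Agent.S02520
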