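import Pool.Statements.S02522
import Pool.Agent.SR871.Main

set_option autoImplicit false
open Pool Pool.MP_02726b_an

namespace Pool.Agent.S02522

/-- The negation of the preceding statement: There are a degree k and finite connected k-regular graphs of unbounded girth such that a real Banach space is not isomorphic to a uniformly convex space exactly when all these graphs embed into it with uniformly bounded bi-Lipschitz distortion. -/
theorem result :
    ¬ (∃ k : ℕ, ∃ N : ℕ → ℕ, ∃ G : ∀ n, SimpleGraph (Fin (N n)),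
      (∀ n, (G n).Connected) ∧
      (∀ n, ∀ v, ((G n).neighborSet v).ncard = k) ∧
      (∀ M : ℕ, ∃ n, (M : ℕ∞) < (G n).egirth) ∧
      ∀ (X : Type) [NormedAddCommGroup X] [NormedSpace ℝ X] [CompleteSpace X],
        ((¬ ∃ (Y : Type) (_ : NormedAddCommGroup Y) (_ : NormedSpace ℝ Y)
              (_ : UniformConvexSpace Y), Nonempty (X ≃L[ℝ] Y)) ↔
          ∃ C : ℝ, ∀ n, ∃ f : Fin (N n) → X, ∀ u v,
            (((G n).dist u v : ℕ) : ℝ) ≤ ‖f u - f v‖ ∧
              ‖f u - f v‖ ≤ C * (((G n).dist u v : ℕ) : ℝ))) := by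
  rintro ⟨k, N, G, hconn, hreg, hgirth, hiff⟩
  rcases Nat.lt_or_ge k 3 with hk | hk
  · have hemb : ∃ C : ℝ, ∀ n, ∃ f : Fin (N n) → ℂ, ∀ u v,
            (((G n).dist u v : ℕ) : ℝ) ≤ ‖f u - f v‖ ∧
              ‖f u - f v‖ ≤ C * (((G n).dist u v : ℕ) : ℝ) := by
      refine ⟨2, fun n => ?_⟩
      rcases Nat.lt_or_ge k 2 with hk2 | hk2
      · exact Pool.Agent.SR871.embed_small (N n) k (by omega) (G n) (hconn n) (hreg n)
      · have : k = 2 := by omega
        subst this
        exact Pool.Agent.SR871.embed_cycle (N n) (G n) (hconn n) (hreg n)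
    exact ((hiff ℂ).2 hemb) ⟨ℂ, inferInstance, inferInstance, inferInstance,
      ⟨ContinuousLinearEquiv.refl ℝ ℂ⟩⟩
  · obtain ⟨X, i1, i2, i3, hnot, φ, hφ0, hφs, hφn⟩ := Pool.Agent.SR871.space_exists
    obtain ⟨C, hC⟩ := (hiff X).1 hnot
    refine Pool.Agent.SR871.main_big k hk N G hconn hreg hgirth X φ hφ0 hφs hφn (max C 1)
      (le_max_right _ _) ?_
    intro n
    obtain ⟨f, hf⟩ := hC n
    refine ⟨f, fun u v => ⟨(hf u v).1, (hf u v).2.trans ?_⟩⟩
    exact mul_le_mul_of_nonneg_right (le_max_left _ _) (Nat.cast_nonneg _)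

end Pool.Agent.S02522
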