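import Pool.Statements.S02524
import Pool.Agent.H570.WS.NoLur
import Pool.Agent.H570.WS.B1
import Pool.Agent.H570.WS.B2

set_option autoImplicit false
open Pool Pool.MP_02b174_an

namespace Pool.Agent.S02524

/-- The negation of the preceding statement: Every real Banach space with strictly convex norm whose unit sphere is metrizable in the weak topology has an equivalent norm N that is LUR: N(x)=N(u_n)=1 and N(u_n+x)→2 imply N(u_n−x)→0. -/
theorem result :
    ¬ (∀ (X : Type) [NormedAddCommGroup X] [NormedSpace ℝ X] [CompleteSpace X],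
      StrictConvexSpace ℝ X →
      TopologicalSpace.MetrizableSpace ↥((toWeakSpace ℝ X) '' Metric.sphere (0 : X) 1) →
      ∃ N : Seminorm ℝ X, ∃ c C : ℝ, 0 < c ∧ 0 < C ∧
        (∀ x : X, c * ‖x‖ ≤ N x ∧ N x ≤ C * ‖x‖) ∧
        ∀ (x : X) (u : ℕ → X), N x = 1 → (∀ n, N (u n) = 1) →
          Filter.Tendsto (fun n => N (u n + x)) Filter.atTop (nhds 2) →
          Filter.Tendsto (fun n => N (u n - x)) Filter.atTop (nhds 0)) := by
  intro h
  haveI : CompleteSpace (Pool.Agent.H570.WS.Z Pool.Agent.H570.WS.hKK) :=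
    Pool.Agent.H570.WS.B1.complete_Z Pool.Agent.H570.WS.hKK
  obtain ⟨N, c, C, hc, hC, hN, hlur⟩ := h (Pool.Agent.H570.WS.Z Pool.Agent.H570.WS.hKK)
    (Pool.Agent.H570.WS.B1.strict_Z Pool.Agent.H570.WS.hKK)
    (Pool.Agent.H570.WS.B2.metr_Z Pool.Agent.H570.WS.hKK
      (fun U v v0 h1 h2 ε hε => Pool.Agent.H570.WS.kadecY U v v0 h1 h2 ε hε)
      (fun l v v0 M hb h1 ξ => Pool.Agent.H570.WS.A17.tends_all l v v0 M hb h1 ξ))
  exact Pool.Agent.H570.WS.no_lur N hc hC hN hlur

end Pool.Agent.S02524
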