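import Pool.Statements.S02525
-- import your own Pool.Agent.* helpers here
import Pool.Agent.Helper238.Square

set_option autoImplicit false
open Pool Pool.MP_03b26c_an

namespace Pool.Agent.S02525

open Pool.Agent.Helper238 in
/-- upper bound for every quadrilateral -/
theorem upper (a b c d : EuclideanSpace ℝ (Fin 2))
    (h : cr (b - a) (c - a) * cr (d - a) (c - a) < 0) :
    ∃ f : EuclideanSpace ℝ (Fin 2) → ℝ, ContDiff ℝ (⊤ : ℕ∞) f ∧
      (∫ x in quado a b c d, f x) = 0 ∧ 0 < (∫ x in quado a b c d, f x ^ 2) ∧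
      MeasureTheory.volume.real (quado a b c d) * (∫ x in quado a b c d, ‖fderiv ℝ f x‖ ^ 2) ≤
        Real.pi ^ 2 * ∫ x in quado a b c d, f x ^ 2 := by
  obtain ⟨u, v, hu, hv, ⟨x0, hx0, hind⟩, hW⟩ := hasPair_quad a b c d h
  have hu1 : ContDiff ℝ 1 u := hu.of_le (by simp)
  have hv1 : ContDiff ℝ 1 v := hv.of_le (by simp)
  have hK := isCompact_quadc a b c d
  obtain ⟨c1, c2, hpos, hle⟩ := exists_good hK interior_subset isOpen_interior hu1 hv1 x0 hx0 hind hW
  have hV : MeasureTheory.volume.real (quado a b c d) ≠ 0 := by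
    have h1 : 0 < MeasureTheory.volume (quado a b c d) := isOpen_interior.measure_pos _ ⟨x0, hx0⟩
    have h2 : MeasureTheory.volume (quado a b c d) ≠ ⊤ :=
      ((MeasureTheory.measure_mono interior_subset).trans_lt hK.measure_lt_top).ne
    exact (ENNReal.toReal_pos h1.ne' h2).ne'
  refine ⟨comb (quado a b c d) u v c1 c2, ?_, ?_, hpos, hle⟩
  · unfold comb
    fun_prop
  · exact int_comb hK interior_subset hu1 hv1 hV c1 c2

/-- For every planar quadrilateral (two triangles glued along an interior diagonal), its first nonzero Neumann eigenvalue, defined via the Rayleigh quotient, times its area is at most that eigenvalue of the unit square. -/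
theorem result :
    ∀ μ : Set (EuclideanSpace ℝ (Fin 2)) → ℝ,
      (∀ Ω : Set (EuclideanSpace ℝ (Fin 2)),
        μ Ω = sInf {r : ℝ | ∃ f : EuclideanSpace ℝ (Fin 2) → ℝ,
          ContDiff ℝ (⊤ : ℕ∞) f ∧ (∫ x in Ω, f x) = 0 ∧ 0 < (∫ x in Ω, f x ^ 2) ∧
          r = (∫ x in Ω, ‖fderiv ℝ f x‖ ^ 2) / (∫ x in Ω, f x ^ 2)}) →
      ∀ a b c d : EuclideanSpace ℝ (Fin 2),
        ((b 0 - a 0) * (c 1 - a 1) - (b 1 - a 1) * (c 0 - a 0)) *
          ((d 0 - a 0) * (c 1 - a 1) - (d 1 - a 1) * (c 0 - a 0)) < 0 →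
        μ (interior (convexHull ℝ {a, b, c} ∪ convexHull ℝ {a, c, d})) *
            (MeasureTheory.volume
              (interior (convexHull ℝ {a, b, c} ∪ convexHull ℝ {a, c, d}))).toReal ≤
          μ {x : EuclideanSpace ℝ (Fin 2) | 0 < x 0 ∧ x 0 < 1 ∧ 0 < x 1 ∧ x 1 < 1} := by
  intro μ hμ a b c d h
  have h' : Helper238.cr (b - a) (c - a) * Helper238.cr (d - a) (c - a) < 0 := by
    simpa [Helper238.cr] using h
  obtain ⟨f, hf, hf0, hfp, hle⟩ := upper a b c d h'
  have hV0 : 0 ≤ (MeasureTheory.volume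
      (interior (convexHull ℝ {a, b, c} ∪ convexHull ℝ {a, c, d}))).toReal := ENNReal.toReal_nonneg
  have h1 : μ (interior (convexHull ℝ {a, b, c} ∪ convexHull ℝ {a, c, d})) *
            (MeasureTheory.volume
              (interior (convexHull ℝ {a, b, c} ∪ convexHull ℝ {a, c, d}))).toReal ≤ Real.pi ^ 2 := by
    have h2 : μ (interior (convexHull ℝ {a, b, c} ∪ convexHull ℝ {a, c, d})) ≤
        (∫ x in interior (convexHull ℝ {a, b, c} ∪ convexHull ℝ {a, c, d}), ‖fderiv ℝ f x‖ ^ 2)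
          / (∫ x in interior (convexHull ℝ {a, b, c} ∪ convexHull ℝ {a, c, d}), f x ^ 2) := by
      rw [hμ]
      refine csInf_le ⟨0, ?_⟩ ⟨f, hf, hf0, hfp, rfl⟩
      rintro r ⟨g, _, _, hgp, rfl⟩
      exact div_nonneg (MeasureTheory.integral_nonneg fun x => sq_nonneg _) hgp.le
    refine (mul_le_mul_of_nonneg_right h2 hV0).trans ?_
    rw [div_mul_eq_mul_div, div_le_iff₀ hfp, mul_comm]
    exact hle
  refine h1.trans ?_
  rw [hμ]
  refine le_csInf ?_ ?_
  · obtain ⟨t1, t2, t3⟩ := Helper238.Sq_test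
    exact ⟨_, _, t1, t2, t3, rfl⟩
  · rintro r ⟨g, hg, hg0, hgp, rfl⟩
    rw [le_div_iff₀ hgp]
    exact Helper238.poincare_Sq g (hg.of_le (by simp)) hg0

end Pool.Agent.S02525
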