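import Pool.Statements.S02547
import Pool.Agent.Helper546.TFinal

set_option autoImplicit false
open MeasureTheory AddCircle
open Pool Pool.MP_0811ac_an

namespace Pool.Agent.S02547

/-- For every bounded symbol φ on the circle whose Toeplitz operator f ↦ P₊(φf) maps H^∞ into H^∞, the spectral radius of that operator on H^∞ equals the essential sup norm of φ. -/
theorem result :
    ∀ φ : UnitAddCircle → ℂ,
      AEStronglyMeasurable φ haarAddCircle →
      eLpNorm φ ⊤ haarAddCircle < ⊤ →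
      (∀ f : UnitAddCircle → ℂ,
        (AEStronglyMeasurable f haarAddCircle ∧ eLpNorm f ⊤ haarAddCircle < ⊤ ∧
          ∀ n : ℤ, n < 0 → fourierCoeff f n = 0) →
        ∃ g : UnitAddCircle → ℂ,
          (AEStronglyMeasurable g haarAddCircle ∧ eLpNorm g ⊤ haarAddCircle < ⊤ ∧
            ∀ n : ℤ, n < 0 → fourierCoeff g n = 0) ∧
          ∀ n : ℤ, 0 ≤ n → fourierCoeff g n = fourierCoeff (fun t => φ t * f t) n) →
      IsLUB
        {r : ℝ | ∃ c : ℂ, r = ‖c‖ ∧
          ¬ ((∀ f : UnitAddCircle → ℂ,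
                (AEStronglyMeasurable f haarAddCircle ∧ eLpNorm f ⊤ haarAddCircle < ⊤ ∧
                  ∀ n : ℤ, n < 0 → fourierCoeff f n = 0) →
                (∀ n : ℤ, 0 ≤ n → fourierCoeff (fun t => (φ t - c) * f t) n = 0) →
                f =ᵐ[haarAddCircle] 0) ∧
             (∀ g : UnitAddCircle → ℂ,
                (AEStronglyMeasurable g haarAddCircle ∧ eLpNorm g ⊤ haarAddCircle < ⊤ ∧
                  ∀ n : ℤ, n < 0 → fourierCoeff g n = 0) →
                ∃ f : UnitAddCircle → ℂ,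
                  (AEStronglyMeasurable f haarAddCircle ∧ eLpNorm f ⊤ haarAddCircle < ⊤ ∧
                    ∀ n : ℤ, n < 0 → fourierCoeff f n = 0) ∧
                  ∀ n : ℤ, 0 ≤ n →
                    fourierCoeff (fun t => (φ t - c) * f t) n = fourierCoeff g n))}
        (eLpNorm φ ⊤ haarAddCircle).toReal := by
  intro φ hφ1 hφ2 hact
  have hφ : MemLp φ ⊤ haarAddCircle := ⟨hφ1, hφ2⟩
  have hA : Pool.Agent.Helper546.Toep.Acts φ := by
    intro f hf
    obtain ⟨g, hg, hgc⟩ := hact f ⟨hf.1.1, hf.1.2, hf.2⟩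
    exact ⟨g, ⟨⟨hg.1, hg.2.1⟩, hg.2.2⟩, hgc⟩
  have key := Pool.Agent.Helper546.Toep.main hφ hA
  have hiff : ∀ c : ℂ, (Pool.Agent.Helper546.Toep.Inj φ c ∧ Pool.Agent.Helper546.Toep.Surj φ c) ↔
      ((∀ f : UnitAddCircle → ℂ,
          (AEStronglyMeasurable f haarAddCircle ∧ eLpNorm f ⊤ haarAddCircle < ⊤ ∧
            ∀ n : ℤ, n < 0 → fourierCoeff f n = 0) →
          (∀ n : ℤ, 0 ≤ n → fourierCoeff (fun t => (φ t - c) * f t) n = 0) →
          f =ᵐ[haarAddCircle] 0) ∧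
       (∀ g : UnitAddCircle → ℂ,
          (AEStronglyMeasurable g haarAddCircle ∧ eLpNorm g ⊤ haarAddCircle < ⊤ ∧
            ∀ n : ℤ, n < 0 → fourierCoeff g n = 0) →
          ∃ f : UnitAddCircle → ℂ,
            (AEStronglyMeasurable f haarAddCircle ∧ eLpNorm f ⊤ haarAddCircle < ⊤ ∧
              ∀ n : ℤ, n < 0 → fourierCoeff f n = 0) ∧
            ∀ n : ℤ, 0 ≤ n →
              fourierCoeff (fun t => (φ t - c) * f t) n = fourierCoeff g n)) := by
    intro c
    refine and_congr ?_ ?_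
    · constructor
      · intro H f hf
        exact H f ⟨⟨hf.1, hf.2.1⟩, hf.2.2⟩
      · intro H f hf
        exact H f ⟨hf.1.1, hf.1.2, hf.2⟩
    · constructor
      · intro H g hg
        obtain ⟨f, hf, hfc⟩ := H g ⟨⟨hg.1, hg.2.1⟩, hg.2.2⟩
        exact ⟨f, ⟨hf.1.1, hf.1.2, hf.2⟩, hfc⟩
      · intro H g hg
        obtain ⟨f, hf, hfc⟩ := H g ⟨hg.1.1, hg.1.2, hg.2⟩
        exact ⟨f, ⟨⟨hf.1, hf.2.1⟩, hf.2.2⟩, hfc⟩
  simp only [hiff] at key
  exact key

end Pool.Agent.S02547
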