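import Pool.Statements.S02554
import Pool.Agent.Helper164.Final

set_option autoImplicit false
open Pool Pool.MP_090684_an

namespace Pool.Agent.S02554

/-- The negation of the preceding statement: For a bounded domain bounded by n disjoint analytic Jordan curves: every n-tuple of values is the set of arc-length integrals ∫_{C_j} f∣dz∣ of some f holomorphic near the closure, if and only if the domain is not a concentric annulus. -/
theorem result :
    ¬ (∀ (n : ℕ) (G : Set ℂ) (γ : Fin n → ℝ → ℂ),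
      0 < n → IsOpen G → IsConnected G → Bornology.IsBounded G →
      (∀ j, AnalyticOnNhd ℝ (γ j) Set.univ) →
      (∀ j, Function.Periodic (γ j) 1) →
      (∀ j, Set.InjOn (γ j) (Set.Ico 0 1)) →
      (∀ j t, deriv (γ j) t ≠ 0) →
      (∀ i j, i ≠ j → Disjoint (Set.range (γ i)) (Set.range (γ j))) →
      frontier G = ⋃ j, Set.range (γ j) →
      ((∀ α : Fin n → ℂ, ∃ U : Set ℂ, IsOpen U ∧ closure G ⊆ U ∧
          ∃ f : ℂ → ℂ, DifferentiableOn ℂ f U ∧
            ∀ j, (∫ t in (0:ℝ)..1, f (γ j t) * (((‖deriv (γ j) t‖ : ℝ)) : ℂ)) = α j) ↔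
        ¬ ∃ c : ℂ, ∃ r₁ r₂ : ℝ, 0 < r₁ ∧ r₁ < r₂ ∧
            G = {z : ℂ | r₁ < ‖z - c‖ ∧ ‖z - c‖ < r₂})) := by
  intro h
  obtain ⟨G, Γ, h1, h2, h3, h4, h5, h6, h7, h8, h9, h10, κ, hκ, hrel⟩ :=
    Pool.Agent.Helper164.Final.counter
  have hiff := h 4 G Γ (by norm_num) h1 h2 h3 h4 h5 h6 h7 h8 h9
  obtain ⟨U, hU, hGU, φ, hφ, hint⟩ := hiff.mpr h10 (fun j => if j = 0 then 1 else 0)
  have := hrel U φ hU hGU hφ
  rw [hint 0, hint 1, hint 2, hint 3] at this
  simp at this
  exact hκ 0 this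

end Pool.Agent.S02554
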