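import Pool.Statements.S02555
import Pool.Agent.Helper859.MatMain

set_option autoImplicit false
open Matrix
open Pool Pool.MP_090951_an

namespace Pool.Agent.S02555

/-- A Hermitian PSD matrix density whose entries are exponentially weighted two-sided integrable parts plus arbitrary-delay impulse sums, with det bounded below by δ>0, factors as R*R with R and R⁻¹ entrywise causal and exponentially stable. -/
theorem result :
    ∀ (n : ℕ) (F : ℝ → Matrix (Fin n) (Fin n) ℂ),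
      (∀ i j : Fin n, ∃ σ : ℝ, 0 < σ ∧ ∃ (fa : ℝ → ℂ) (c : ℕ → ℂ) (τ : ℕ → ℝ),
          MeasureTheory.Integrable (fun t : ℝ => fa t * ((Real.exp (σ * |t|) : ℝ) : ℂ)) ∧
          Summable (fun k : ℕ => ‖c k‖ * Real.exp (σ * |τ k|)) ∧
          ∀ ω : ℝ, F ω i j =
            (∫ t : ℝ, fa t * Complex.exp (-((ω : ℂ) * (t : ℂ) * Complex.I))) +
              ∑' k : ℕ, c k * Complex.exp (-((ω : ℂ) * ((τ k : ℝ) : ℂ) * Complex.I))) →
      (∀ ω : ℝ, (F ω).IsHermitian ∧
          ∀ x : Fin n → ℂ, 0 ≤ (dotProduct (star x) ((F ω).mulVec x)).re) →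
      (∃ δ : ℝ, 0 < δ ∧ ∀ ω : ℝ, δ ≤ ((F ω).det).re) →
      ∃ R : ℝ → Matrix (Fin n) (Fin n) ℂ,
        (∀ ω : ℝ, IsUnit (R ω)) ∧
        (∀ ω : ℝ, F ω = (R ω).conjTranspose * R ω) ∧
        (∀ i j : Fin n, ∃ σ : ℝ, 0 < σ ∧ ∃ (fa : ℝ → ℂ) (c : ℕ → ℂ) (τ : ℕ → ℝ),
          (∀ k : ℕ, 0 ≤ τ k) ∧
          MeasureTheory.Integrable (fun t : ℝ => fa t * ((Real.exp (σ * t) : ℝ) : ℂ))
            (MeasureTheory.volume.restrict (Set.Ici (0 : ℝ))) ∧
          Summable (fun k : ℕ => ‖c k‖ * Real.exp (σ * τ k)) ∧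
          ∀ ω : ℝ, R ω i j =
            (∫ t in Set.Ici (0 : ℝ), fa t * Complex.exp (-((ω : ℂ) * (t : ℂ) * Complex.I))) +
              ∑' k : ℕ, c k * Complex.exp (-((ω : ℂ) * ((τ k : ℝ) : ℂ) * Complex.I))) ∧
        (∀ i j : Fin n, ∃ σ : ℝ, 0 < σ ∧ ∃ (fa : ℝ → ℂ) (c : ℕ → ℂ) (τ : ℕ → ℝ),
          (∀ k : ℕ, 0 ≤ τ k) ∧
          MeasureTheory.Integrable (fun t : ℝ => fa t * ((Real.exp (σ * t) : ℝ) : ℂ))
            (MeasureTheory.volume.restrict (Set.Ici (0 : ℝ))) ∧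
          Summable (fun k : ℕ => ‖c k‖ * Real.exp (σ * τ k)) ∧
          ∀ ω : ℝ, (R ω)⁻¹ i j =
            (∫ t in Set.Ici (0 : ℝ), fa t * Complex.exp (-((ω : ℂ) * (t : ℂ) * Complex.I))) +
              ∑' k : ℕ, c k * Complex.exp (-((ω : ℂ) * ((τ k : ℝ) : ℂ) * Complex.I))) := by
  intro n F hrep hpsd hdet
  rcases Nat.eq_zero_or_pos n with hn | hn
  · subst hn
    exact ⟨fun _ => 1, fun _ => isUnit_one, fun ω => Subsingleton.elim _ _,
      fun i => i.elim0, fun i => i.elim0⟩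
  · obtain ⟨δ, hδ, hdet⟩ := hdet
    obtain ⟨s, hs, g, p, g', p', hg, hp, hgn, hpn, hg', hp', hgn', hpn', hR⟩ :=
      Helper859.mat_factor hn F hrep hpsd hδ hdet
    set T := Matrix.toEuclideanCLM (n := Fin n) (𝕜 := ℂ) with hT
    have hinv : ∀ ω, T.symm (Helper859.trf g p ω) * T.symm (Helper859.trf g' p' ω) = 1 := by
      intro ω
      rw [← map_mul, (hR ω).1, map_one]
    have hinv' : ∀ ω, T.symm (Helper859.trf g' p' ω) * T.symm (Helper859.trf g p ω) = 1 := by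
      intro ω
      rw [← map_mul, (hR ω).2.1, map_one]
    refine ⟨fun ω => T.symm (Helper859.trf g p ω), fun ω => ?_, fun ω => ?_, fun i j => ?_,
      fun i j => ?_⟩
    · exact ⟨⟨_, _, hinv ω, hinv' ω⟩, rfl⟩
    · have h1 : F ω = T.symm (T (F ω)) := (StarAlgEquiv.symm_apply_apply T (F ω)).symm
      rw [h1, (hR ω).2.2, map_mul, map_star]
      rfl
    · refine Helper859.out_form hs (hg.clm (Helper859.ent i j)) (fun t ht => ?_)
        (hp.clm (Helper859.ent i j)) (fun t ht => ?_) (fun ω => ?_)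
      · rw [hgn t ht, map_zero]
      · rw [hpn t ht, map_zero]
      · rw [Helper859.trf_clm (hg.integrable hs.le) (hp.summable hs.le)]
        exact Helper859.ent_eq _ i j
    · refine Helper859.out_form hs (hg'.clm (Helper859.ent i j)) (fun t ht => ?_)
        (hp'.clm (Helper859.ent i j)) (fun t ht => ?_) (fun ω => ?_)
      · rw [hgn' t ht, map_zero]
      · rw [hpn' t ht, map_zero]
      · rw [Helper859.trf_clm (hg'.integrable hs.le) (hp'.summable hs.le),
          Matrix.inv_eq_right_inv (hinv ω)]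
        exact Helper859.ent_eq _ i j

end Pool.Agent.S02555
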