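import Pool.Statements.S02559
import Mathlib

set_option autoImplicit false
open Pool Pool.MP_092a3f_an

set_option linter.unusedSectionVars false


namespace Pool.Agent.S02559

section Aux

open MeasureTheory Metric Set Filter Topology



theorem isCompact_convexHull_of_isCompact {V : Type*} [NormedAddCommGroup V] [NormedSpace ℝ V]
    [FiniteDimensional ℝ V] {J : Set V} (hJ : IsCompact J) : IsCompact (convexHull ℝ J) := by
  classical
  rcases J.eq_empty_or_nonempty with rfl | ⟨a, ha⟩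
  · simp
  set d := Module.finrank ℝ V + 1 with hd
  set Φ : (Fin d → ℝ) × (Fin d → V) → V := fun p => ∑ i, p.1 i • p.2 i with hΦ
  have hcont : Continuous Φ := by
    fun_prop
  have hS : IsCompact ((stdSimplex ℝ (Fin d)) ×ˢ (Set.pi Set.univ (fun _ : Fin d => J))) :=
    (isCompact_stdSimplex ℝ (Fin d)).prod (isCompact_univ_pi (fun _ => hJ))
  have himg : convexHull ℝ J = Φ '' ((stdSimplex ℝ (Fin d)) ×ˢ (Set.pi Set.univ (fun _ : Fin d => J))) := by
    apply Set.Subset.antisymm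
    · intro x hx
      obtain ⟨ι, hι, z, w, hz, haff, hw, hw1, hx'⟩ := eq_pos_convex_span_of_mem_convexHull hx
      have hcard : Fintype.card ι ≤ Fintype.card (Fin d) := by
        rw [Fintype.card_fin]
        have h1 := haff.card_le_finrank_succ
        have h2 : Module.finrank ℝ (vectorSpan ℝ (Set.range z)) ≤ Module.finrank ℝ V :=
          Submodule.finrank_le _
        omega
      obtain ⟨e⟩ : Nonempty (ι ↪ Fin d) := Function.Embedding.nonempty_of_card_le hcard
      refine ⟨(Function.extend e w 0, Function.extend e z (fun _ => a)), ⟨⟨?_, ?_⟩, ?_⟩, ?_⟩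
      · intro j
        by_cases hj : ∃ i, e i = j
        · obtain ⟨i, rfl⟩ := hj
          simp only [e.injective.extend_apply]
          exact (hw i).le
        · simp [Function.extend_apply' _ _ _ hj]
      · rw [← hw1]
        symm
        apply Fintype.sum_of_injective e e.injective
        · intro j hj
          have : ¬ ∃ i, e i = j := by simpa using hj
          simp [Function.extend_apply' _ _ _ this]
        · intro i
          simp [e.injective.extend_apply]
      · intro j _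
        by_cases hj : ∃ i, e i = j
        · obtain ⟨i, rfl⟩ := hj
          simp only [e.injective.extend_apply]
          exact hz ⟨i, rfl⟩
        · simp only [Function.extend_apply' _ _ _ hj]
          exact ha
      · rw [← hx']
        symm
        apply Fintype.sum_of_injective e e.injective
        · intro j hj
          have : ¬ ∃ i, e i = j := by simpa using hj
          simp [Function.extend_apply' _ _ _ this]
        · intro i
          simp [e.injective.extend_apply]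
    · rintro x ⟨⟨w, z⟩, ⟨⟨hw0, hw1⟩, hz⟩, rfl⟩
      apply (convex_convexHull ℝ J).sum_mem (fun i _ => hw0 i) hw1
      intro i _
      exact subset_convexHull ℝ J (hz i (Set.mem_univ i))
  rw [himg]
  exact hS.image hcont

section Alg

variable {E F : Type*} [NormedAddCommGroup E] [InnerProductSpace ℝ E] [FiniteDimensional ℝ E]
  [CompleteSpace E] [NormedAddCommGroup F] [InnerProductSpace ℝ F] [FiniteDimensional ℝ F]
  [CompleteSpace F]

theorem exists_lower_bound {S : Set (E →L[ℝ] F)} (hS : IsCompact S)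
    (hsurj : ∀ A ∈ S, Function.Surjective A) :
    ∃ c : ℝ, 0 < c ∧ ∀ A ∈ S, ∀ v : F, c * ‖v‖ ≤ ‖ContinuousLinearMap.adjoint A v‖ := by
  have hT : IsCompact (S ×ˢ (sphere (0 : F) 1)) := hS.prod (isCompact_sphere 0 1)
  have hcont : Continuous (fun p : (E →L[ℝ] F) × F => ‖ContinuousLinearMap.adjoint p.1 p.2‖) := by
    fun_prop
  rcases (S ×ˢ (sphere (0 : F) 1)).eq_empty_or_nonempty with hemp | hne
  · refine ⟨1, one_pos, fun A hA v => ?_⟩
    have hv : v = 0 := by
      by_contra hv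
      have : (A, (‖v‖)⁻¹ • v) ∈ S ×ˢ (sphere (0 : F) 1) := by
        refine ⟨hA, ?_⟩
        simp [norm_smul, hv]
      rw [hemp] at this
      exact this
    simp [hv]
  · obtain ⟨⟨A₀, v₀⟩, ⟨hA₀, hv₀⟩, hmin⟩ := hT.exists_isMinOn hne hcont.continuousOn
    have hpos : 0 < ‖ContinuousLinearMap.adjoint A₀ v₀‖ := by
      rw [norm_pos_iff]
      intro h0
      obtain ⟨x, hx⟩ := hsurj A₀ hA₀ v₀
      have h1 : inner ℝ (ContinuousLinearMap.adjoint A₀ v₀) x = inner ℝ v₀ (A₀ x) :=
        ContinuousLinearMap.adjoint_inner_left A₀ x v₀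
      rw [h0, hx, inner_zero_left, real_inner_self_eq_norm_sq] at h1
      have h2 : ‖v₀‖ = 1 := by simpa using hv₀
      rw [h2] at h1
      norm_num at h1
    refine ⟨‖ContinuousLinearMap.adjoint A₀ v₀‖, hpos, fun A hA v => ?_⟩
    by_cases hv : v = 0
    · simp [hv]
    have hv' : 0 < ‖v‖ := norm_pos_iff.mpr hv
    have hmem : (A, (‖v‖)⁻¹ • v) ∈ S ×ˢ (sphere (0 : F) 1) := by
      refine ⟨hA, ?_⟩
      simp [norm_smul, hv]
    have h := isMinOn_iff.mp hmin _ hmem
    simp only [map_smul, norm_smul, norm_inv, norm_norm] at h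
    have h3 := mul_le_mul_of_nonneg_right h hv'.le
    calc _ ≤ _ := h3
      _ = _ := by field_simp

theorem exists_thick {J : Set (E →L[ℝ] F)} (hJ : IsCompact J)
    (hsurj : ∀ A ∈ convexHull ℝ J, Function.Surjective A) :
    ∃ (C : Set (E →L[ℝ] F)) (c : ℝ), 0 < c ∧ Convex ℝ C ∧ IsClosed C ∧
      (∀ B ∈ J, C ∈ 𝓝 B) ∧
      ∀ A ∈ C, ∀ v : F, c * ‖v‖ ≤ ‖ContinuousLinearMap.adjoint A v‖ := by
  have hK := isCompact_convexHull_of_isCompact hJ
  obtain ⟨c, hc, hlow⟩ := exists_lower_bound hK hsurj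
  refine ⟨cthickening (c/2) (convexHull ℝ J), c/2, by positivity,
    (convex_convexHull ℝ J).cthickening _, isClosed_cthickening, ?_, ?_⟩
  · intro B hB
    apply mem_of_superset (ball_mem_nhds B (half_pos hc))
    intro A hA
    apply mem_cthickening_of_dist_le A B (c/2) _ (subset_convexHull ℝ J hB)
    exact (mem_ball.mp hA).le
  · intro A hA v
    rw [hK.cthickening_eq_biUnion_closedBall (by positivity)] at hA
    simp only [mem_iUnion, mem_closedBall, exists_prop] at hA
    obtain ⟨A', hA', hd⟩ := hA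
    have h1 := hlow A' hA' v
    have h2 : ‖ContinuousLinearMap.adjoint A' v - ContinuousLinearMap.adjoint A v‖ ≤ (c/2) * ‖v‖ := by
      have : ContinuousLinearMap.adjoint A' v - ContinuousLinearMap.adjoint A v
          = (ContinuousLinearMap.adjoint (A' - A)) v := by
        simp
      rw [this]
      refine (ContinuousLinearMap.le_opNorm _ _).trans ?_
      gcongr
      rw [LinearIsometryEquiv.norm_map, ← dist_eq_norm, dist_comm]
      exact hd
    have h3 := norm_sub_norm_le (ContinuousLinearMap.adjoint A' v) (ContinuousLinearMap.adjoint A v)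
    linarith

theorem exists_radius {f : E → F} {x₀ : E} {K : ℝ} {U : Set E} (hU : U ∈ 𝓝 x₀)
    (hK : ∀ x ∈ U, ‖fderiv ℝ f x‖ ≤ K) {C : Set (E →L[ℝ] F)}
    (hC : ∀ B ∈ {B : E →L[ℝ] F | ∀ ε : ℝ, 0 < ε → ∀ δ : ℝ, 0 < δ →
              ∃ x : E, dist x x₀ < δ ∧ DifferentiableAt ℝ f x ∧
                ‖fderiv ℝ f x - B‖ < ε}, C ∈ 𝓝 B) :
    ∃ r : ℝ, 0 < r ∧ ∀ x ∈ ball x₀ r, DifferentiableAt ℝ f x → fderiv ℝ f x ∈ C := by
  by_contra hcon
  push Not at hcon
  have h1 : ∀ k : ℕ, ∃ x ∈ ball x₀ (1 / ((k : ℝ) + 1)), DifferentiableAt ℝ f x ∧ fderiv ℝ f x ∉ C :=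
    fun k => hcon _ (by positivity)
  choose x hx hdiff hnot using h1
  have hlim : Tendsto x atTop (𝓝 x₀) := by
    rw [tendsto_iff_dist_tendsto_zero]
    refine squeeze_zero (fun _ => dist_nonneg) (fun k => (mem_ball.mp (hx k)).le) ?_
    exact tendsto_one_div_add_atTop_nhds_zero_nat
  have hev : ∀ᶠ k in atTop, fderiv ℝ f (x k) ∈ closedBall (0 : E →L[ℝ] F) K := by
    filter_upwards [hlim.eventually_mem hU] with k hk
    simpa using hK _ hk
  obtain ⟨B, -, φ, hφ, hB⟩ := (isCompact_closedBall (0 : E →L[ℝ] F) K).tendsto_subseq'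
    hev.frequently
  have hBJ : C ∈ 𝓝 B := by
    apply hC
    intro ε hε δ hδ
    have e1 : ∀ᶠ k in atTop, dist (x (φ k)) x₀ < δ :=
      (hlim.comp hφ.tendsto_atTop).eventually (ball_mem_nhds x₀ hδ)
    have e2 : ∀ᶠ k in atTop, dist (fderiv ℝ f (x (φ k))) B < ε :=
      hB.eventually (ball_mem_nhds B hε)
    obtain ⟨k, hk1, hk2⟩ := (e1.and e2).exists
    exact ⟨x (φ k), hk1, hdiff _, by rwa [← dist_eq_norm]⟩
  obtain ⟨k, hk⟩ := (hB.eventually_mem hBJ).exists
  exact hnot _ hk

theorem isCompact_J {f : E → F} {x₀ : E} {K : ℝ} {U : Set E} (hU : U ∈ 𝓝 x₀)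
    (hK : ∀ x ∈ U, ‖fderiv ℝ f x‖ ≤ K) :
    IsCompact {B : E →L[ℝ] F | ∀ ε : ℝ, 0 < ε → ∀ δ : ℝ, 0 < δ →
              ∃ x : E, dist x x₀ < δ ∧ DifferentiableAt ℝ f x ∧
                ‖fderiv ℝ f x - B‖ < ε} := by
  apply Metric.isCompact_of_isClosed_isBounded
  · rw [← isSeqClosed_iff_isClosed]
    intro B B₀ hB hlim ε hε δ hδ
    have e2 : ∀ᶠ k in atTop, dist (B k) B₀ < ε / 2 :=
      hlim.eventually (ball_mem_nhds B₀ (half_pos hε))
    obtain ⟨k, hk⟩ := e2.exists
    obtain ⟨x, hx1, hx2, hx3⟩ := hB k (ε/2) (half_pos hε) δ hδ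
    refine ⟨x, hx1, hx2, ?_⟩
    rw [dist_eq_norm] at hk
    calc ‖fderiv ℝ f x - B₀‖ = ‖(fderiv ℝ f x - B k) + (B k - B₀)‖ := by congr 1; abel
      _ ≤ ‖fderiv ℝ f x - B k‖ + ‖B k - B₀‖ := norm_add_le _ _
      _ < ε := by linarith
  · obtain ⟨r, hr, hrU⟩ := Metric.mem_nhds_iff.mp hU
    rw [isBounded_iff_forall_norm_le]
    refine ⟨K + 1, fun B hB => ?_⟩
    obtain ⟨x, hx1, hx2, hx3⟩ := hB 1 one_pos r hr
    have h1 := hK x (hrU hx1)
    have h2 := norm_sub_norm_le B (fderiv ℝ f x)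
    rw [norm_sub_rev] at h2
    linarith


end Alg


section Moll

variable {E : Type*} [NormedAddCommGroup E] [NormedSpace ℝ E] [FiniteDimensional ℝ E]
  [MeasurableSpace E] [BorelSpace E] {vol : Measure E} [vol.IsAddHaarMeasure]
  {F : Type*} [NormedAddCommGroup F] [NormedSpace ℝ F] [FiniteDimensional ℝ F]
  {ρ : E → ℝ}

/-- the mollifying probability measure -/
noncomputable def mol (vol : Measure E) (ρ : E → ℝ) : Measure E :=
  vol.withDensity (fun z => ENNReal.ofReal (ρ z))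

theorem mol_prob (h0 : ∀ z, 0 ≤ ρ z) (hi : Integrable ρ vol)
    (h1 : ∫ z, ρ z ∂vol = 1) : IsProbabilityMeasure (mol vol ρ) := by
  constructor
  rw [mol, withDensity_apply _ MeasurableSet.univ, Measure.restrict_univ,
    ← ofReal_integral_eq_lintegral_ofReal hi (Eventually.of_forall h0), h1, ENNReal.ofReal_one]

theorem mol_ae (hc : Continuous ρ) (hs : ∀ z, 1 < ‖z‖ → ρ z = 0) :
    ∀ᵐ z ∂(mol vol ρ), ‖z‖ ≤ 1 := by
  rw [mol, ae_withDensity_iff (by fun_prop)]
  refine Eventually.of_forall fun z hz => ?_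
  by_contra hz1
  apply hz
  rw [hs z (not_le.mp hz1), ENNReal.ofReal_zero]

theorem mol_integral (hc : Continuous ρ) (h0 : ∀ z, 0 ≤ ρ z)
    {X : Type*} [NormedAddCommGroup X] [NormedSpace ℝ X] (h : E → X) :
    ∫ z, h z ∂(mol vol ρ) = ∫ z, ρ z • h z ∂vol := by
  rw [mol, integral_withDensity_eq_integral_toReal_smul (by fun_prop)
    (Eventually.of_forall fun z => ENNReal.ofReal_lt_top)]
  congr 1
  ext z
  rw [ENNReal.toReal_ofReal (h0 z)]

/-- mollified function at scale e -/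
noncomputable def gg (vol : Measure E) (ρ : E → ℝ) (f : E → F) (e : ℝ) (x : E) : F :=
  ∫ z, f (x - e • z) ∂(mol vol ρ)

/-- its derivative -/
noncomputable def GG (vol : Measure E) (ρ : E → ℝ) (f : E → F) (e : ℝ) (x : E) : E →L[ℝ] F :=
  ∫ z, fderiv ℝ f (x - e • z) ∂(mol vol ρ)

variable (hc : Continuous ρ) (h0 : ∀ z, 0 ≤ ρ z) (hi : Integrable ρ vol)
    (h1 : ∫ z, ρ z ∂vol = 1) (hs : ∀ z, 1 < ‖z‖ → ρ z = 0) {f : E → F} {L : NNReal}
    (hf : LipschitzWith L f)

include hc hs in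
theorem integrable_gg [IsProbabilityMeasure (mol vol ρ)] (hf : LipschitzWith L f) (e : ℝ) (x : E) :
    Integrable (fun z => f (x - e • z)) (mol vol ρ) := by
  have hm : AEStronglyMeasurable (fun z => f (x - e • z)) (mol vol ρ) := by
    have := hf.continuous
    exact Continuous.aestronglyMeasurable (by fun_prop)
  refine Integrable.of_bound hm (‖f x‖ + L * |e|) ?_
  filter_upwards [mol_ae (vol := vol) hc hs] with z hz
  have h2 := hf.dist_le_mul (x - e • z) x
  rw [dist_eq_norm, dist_eq_norm] at h2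
  have h3 : ‖x - e • z - x‖ ≤ |e| := by
    rw [sub_sub_cancel_left, norm_neg, norm_smul, Real.norm_eq_abs]
    nlinarith [abs_nonneg e]
  have h4 : ‖f (x - e • z)‖ ≤ ‖f x‖ + ‖f (x - e • z) - f x‖ := by
    have := norm_add_le (f x) (f (x - e • z) - f x)
    simpa using this
  have h5 : (L : ℝ) * ‖x - e • z - x‖ ≤ L * |e| := by gcongr
  linarith

include hc hs in
theorem gg_lip [IsProbabilityMeasure (mol vol ρ)] (hf : LipschitzWith L f) (e e' : ℝ) (x x' : E) :
    ‖gg vol ρ f e x - gg vol ρ f e' x'‖ ≤ L * (‖x - x'‖ + |e - e'|) := by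
  rw [gg, gg, ← integral_sub (integrable_gg hc hs hf e x) (integrable_gg hc hs hf e' x')]
  refine (norm_integral_le_of_norm_le_const (C := L * (‖x - x'‖ + |e - e'|)) ?_).trans ?_
  · filter_upwards [mol_ae (vol := vol) hc hs] with z hz
    have h2 := hf.dist_le_mul (x - e • z) (x' - e' • z)
    rw [dist_eq_norm, dist_eq_norm] at h2
    refine h2.trans ?_
    gcongr
    have : x - e • z - (x' - e' • z) = (x - x') - (e - e') • z := by
      rw [sub_smul]; abel
    rw [this]
    refine (norm_sub_le _ _).trans ?_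
    gcongr
    rw [norm_smul, Real.norm_eq_abs]
    nlinarith [abs_nonneg (e - e')]
  · simp

theorem gg_zero [IsProbabilityMeasure (mol vol ρ)] (x : E) : gg vol ρ f 0 x = f x := by
  simp [gg]

theorem ae_diff (hf : LipschitzWith L f) {e : ℝ} (he : 0 < e) (x : E) :
    ∀ᵐ z ∂(mol vol ρ), DifferentiableAt ℝ f (x - e • z) := by
  have hd := hf.ae_differentiableAt (μ := vol)
  have hq : Measure.QuasiMeasurePreserving (fun z : E => x - e • z) vol vol :=
    (quasiMeasurePreserving_sub_left_of_right_invariant vol x).comp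
      (Measure.quasiMeasurePreserving_smul (μ := vol) he.ne')
  have h2 := hq.ae hd
  exact (withDensity_absolutelyContinuous vol _).ae_le h2

include hc hs in
theorem hasFDerivAt_gg [IsProbabilityMeasure (mol vol ρ)] (hf : LipschitzWith L f)
    {e : ℝ} (he : 0 < e) (x : E) :
    Integrable (fun z => fderiv ℝ f (x - e • z)) (mol vol ρ) ∧
    HasFDerivAt (gg vol ρ f e) (GG vol ρ f e x) x := by
  apply hasFDerivAt_integral_of_dominated_loc_of_lip (s := univ) (bound := fun _ => (L : ℝ))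
    (F := fun x z => f (x - e • z)) univ_mem
  · refine Eventually.of_forall fun x' => ?_
    have := hf.continuous
    exact Continuous.aestronglyMeasurable (by fun_prop)
  · exact integrable_gg hc hs hf e x
  · have hm : Measurable (fderiv ℝ f) := measurable_fderiv ℝ f
    exact (hm.comp (by fun_prop)).aestronglyMeasurable
  · refine Eventually.of_forall fun z => ?_
    rw [lipschitzOnWith_univ]
    simp only [Real.nnabs_coe]
    refine LipschitzWith.of_dist_le_mul fun a b => ?_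
    have := hf.dist_le_mul (a - e • z) (b - e • z)
    simpa using this
  · exact integrable_const _
  · filter_upwards [ae_diff (vol := vol) hf he x] with z hz
    have h5 := hz.hasFDerivAt.comp x ((hasFDerivAt_id x).sub_const (e • z))
    simpa [Function.comp_def] using h5

include hc hs in
theorem GG_mem [IsProbabilityMeasure (mol vol ρ)] (hf : LipschitzWith L f)
    {C : Set (E →L[ℝ] F)} (hC : Convex ℝ C) (hC' : IsClosed C)
    {e : ℝ} (he : 0 < e) (x : E) (h : ∀ z, ‖z - x‖ ≤ e → DifferentiableAt ℝ f z → fderiv ℝ f z ∈ C) :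
    GG vol ρ f e x ∈ C := by
  apply hC.integral_mem hC' _ (hasFDerivAt_gg hc hs hf he x).1
  filter_upwards [ae_diff (vol := vol) hf he x, mol_ae (vol := vol) hc hs] with z hz hz1
  apply h _ _ hz
  rw [sub_sub_cancel_left, norm_neg, norm_smul, Real.norm_eq_abs, abs_of_pos he]
  nlinarith

include hc hs in
theorem GG_norm_le [IsProbabilityMeasure (mol vol ρ)] (hf : LipschitzWith L f) (e : ℝ) (x : E) :
    ‖GG vol ρ f e x‖ ≤ L := by
  rw [GG]
  refine (norm_integral_le_of_norm_le_const (C := (L : ℝ)) ?_).trans ?_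
  · exact Eventually.of_forall fun z => norm_fderiv_le_of_lipschitz ℝ hf
  · simp

include hc h0 hs in
theorem GG_lip (hf : LipschitzWith L f) {Cρ : NNReal} (hρ : LipschitzWith Cρ ρ)
    (hi : Integrable ρ vol) {e : ℝ} (he : 0 < e) (x x' : E) :
    ‖GG vol ρ f e x - GG vol ρ f e x'‖ ≤
      (Cρ * L * (2 * vol.real (closedBall 0 1)) / e) * ‖x - x'‖ := by
  set h : E := e⁻¹ • (x' - x) with hh
  set D : E → E →L[ℝ] F := fderiv ℝ f with hD
  have hDm : Measurable D := measurable_fderiv ℝ f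
  have hDb : ∀ z, ‖D z‖ ≤ L := fun z => norm_fderiv_le_of_lipschitz ℝ hf
  have e1 : GG vol ρ f e x = ∫ z, ρ z • D (x - e • z) ∂vol := by
    rw [GG, mol_integral hc h0]
  have e2 : GG vol ρ f e x' = ∫ z, ρ (z + h) • D (x - e • z) ∂vol := by
    rw [GG, mol_integral hc h0, ← integral_add_right_eq_self _ h]
    congr 1
    ext1 z
    have : x' - e • (z + h) = x - e • z := by
      rw [smul_add, hh, smul_smul, mul_inv_cancel₀ he.ne', one_smul]
      abel
    rw [this]
  have i1 : Integrable (fun z => ρ z • D (x - e • z)) vol := by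
    refine Integrable.mono' (hi.const_mul (L : ℝ)) ?_ ?_
    · exact (hc.measurable.smul (hDm.comp (by fun_prop))).aestronglyMeasurable
    · refine Eventually.of_forall fun z => ?_
      rw [norm_smul, Real.norm_eq_abs, abs_of_nonneg (h0 z), mul_comm]
      exact mul_le_mul_of_nonneg_right (hDb _) (h0 z)
  have i2 : Integrable (fun z => ρ (z + h) • D (x - e • z)) vol := by
    refine Integrable.mono' ((hi.comp_add_right h).const_mul (L : ℝ)) ?_ ?_
    · have : Measurable (fun z => ρ (z + h)) := hc.measurable.comp (by fun_prop)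
      exact (this.smul (hDm.comp (by fun_prop))).aestronglyMeasurable
    · refine Eventually.of_forall fun z => ?_
      rw [norm_smul, Real.norm_eq_abs, abs_of_nonneg (h0 _), mul_comm]
      exact mul_le_mul_of_nonneg_right (hDb _) (h0 _)
  rw [e1, e2, ← integral_sub i1 i2]
  have e3 : (fun z => ρ z • D (x - e • z) - ρ (z + h) • D (x - e • z))
      = fun z => (ρ z - ρ (z + h)) • D (x - e • z) := by
    ext1 z
    rw [sub_smul]
  rw [e3]
  set S : Set E := closedBall 0 1 ∪ closedBall (-h) 1 with hS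
  have e4 : ∫ z, (ρ z - ρ (z + h)) • D (x - e • z) ∂vol
      = ∫ z in S, (ρ z - ρ (z + h)) • D (x - e • z) ∂vol := by
    symm
    apply setIntegral_eq_integral_of_forall_compl_eq_zero
    intro z hz
    rw [hS, mem_union, not_or] at hz
    have z1 : ρ z = 0 := by
      apply hs
      have := hz.1
      rw [mem_closedBall, dist_zero_right, not_le] at this
      exact this
    have z2 : ρ (z + h) = 0 := by
      apply hs
      have := hz.2
      rw [mem_closedBall, dist_eq_norm, sub_neg_eq_add, not_le] at this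
      exact this
    rw [z1, z2, sub_zero, zero_smul]
  have hSm : vol S < ⊤ := by
    apply (measure_union_le _ _).trans_lt
    rw [ENNReal.add_lt_top]
    exact ⟨measure_closedBall_lt_top, measure_closedBall_lt_top⟩
  have hSr : vol.real S ≤ 2 * vol.real (closedBall (0 : E) 1) := by
    refine (measureReal_union_le _ _).trans ?_
    have : vol.real (closedBall (-h) 1) = vol.real (closedBall (0 : E) 1) := by
      rw [measureReal_def, measureReal_def, Measure.addHaar_closedBall_center]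
    rw [this]
    linarith
  rw [e4]
  have hn : ‖h‖ = ‖x - x'‖ / e := by
    rw [hh, norm_smul, norm_inv, Real.norm_eq_abs, abs_of_pos he, norm_sub_rev]
    field_simp
  refine (norm_setIntegral_le_of_norm_le_const (C := Cρ * ‖h‖ * L) hSm ?_).trans ?_
  · intro z _
    rw [norm_smul]
    refine mul_le_mul ?_ (hDb _) (norm_nonneg _) (by positivity)
    have := hρ.dist_le_mul z (z + h)
    rw [dist_eq_norm, dist_eq_norm, sub_add_cancel_left, norm_neg] at this
    exact this
  · calc (Cρ : ℝ) * ‖h‖ * L * vol.real S ≤ Cρ * ‖h‖ * L * (2 * vol.real (closedBall (0 : E) 1)) := by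
          gcongr
      _ = _ := by rw [hn]; ring

include hc h0 hs in
theorem GG_cont (hf : LipschitzWith L f) {e : ℝ} (he : 0 < e) (x : E) :
    ContinuousAt (fun p : ℝ × E => GG vol ρ f p.1 p.2) (e, x) := by
  set D : E → E →L[ℝ] F := fderiv ℝ f with hD
  have hDm : Measurable D := measurable_fderiv ℝ f
  have hDb : ∀ z, ‖D z‖ ≤ L := fun z => norm_fderiv_le_of_lipschitz ℝ hf
  set n := Module.finrank ℝ E with hn
  have key : ∀ p : ℝ × E, 0 < p.1 → GG vol ρ f p.1 p.2 =
      ∫ w, ((ContinuousLinearMap.lsmul ℝ ℝ).flip (D w)) ((p.1 ^ n)⁻¹ * ρ (p.1⁻¹ • (p.2 - w))) ∂vol := by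
    intro p hp
    rw [GG, mol_integral hc h0]
    have hsub : ∫ z, ρ z • D (p.2 - p.1 • z) ∂vol
        = |((p.1⁻¹) ^ n)⁻¹|⁻¹ • ∫ z, ρ (p.1⁻¹ • z) • D (p.2 - z) ∂vol := by
      have h3 := Measure.integral_comp_smul vol (fun z => ρ z • D (p.2 - p.1 • z)) (p.1⁻¹)
      simp only [smul_smul, mul_inv_cancel₀ hp.ne', one_smul] at h3
      rw [h3, smul_smul, inv_mul_cancel₀, one_smul]
      positivity
    rw [hsub, ← integral_smul]
    rw [← integral_sub_left_eq_self _ vol p.2]
    congr 1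
    ext1 w
    simp only [sub_sub_cancel, ContinuousLinearMap.flip_apply, ContinuousLinearMap.lsmul_apply]
    rw [smul_smul]
    congr 2
    rw [inv_pow, inv_inv, abs_of_pos (by positivity)]
  set s : Set (ℝ × E) := Ioo 0 (2 * e) ×ˢ ball x 1 with hsdef
  have hsopen : s ∈ 𝓝 (e, x) := by
    apply (isOpen_Ioo.prod isOpen_ball).mem_nhds
    exact ⟨⟨he, by linarith⟩, mem_ball_self one_pos⟩
  have hcont : ContinuousOn (fun p : ℝ × E =>
      ∫ w, ((ContinuousLinearMap.lsmul ℝ ℝ).flip (D w)) ((p.1 ^ n)⁻¹ * ρ (p.1⁻¹ • (p.2 - w))) ∂vol) s := by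
    apply continuousOn_integral_bilinear_of_locally_integrable_of_compact_support
      ((ContinuousLinearMap.lsmul ℝ ℝ).flip) (k := closedBall x (1 + 2 * e))
      (f := fun (p : ℝ × E) w => (p.1 ^ n)⁻¹ * ρ (p.1⁻¹ • (p.2 - w)))
      (isCompact_closedBall _ _)
    · have hne : ∀ q ∈ s ×ˢ (univ : Set E), q.1.1 ≠ 0 := by
        intro q hq
        exact hq.1.1.1.ne'
      apply ContinuousOn.mul
      · apply ContinuousOn.inv₀
        · fun_prop
        · intro q hq
          exact pow_ne_zero _ (hne q hq)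
      · apply hc.comp_continuousOn
        apply ContinuousOn.smul
        · apply ContinuousOn.inv₀
          · fun_prop
          · exact hne
        · fun_prop
    · intro p w hp hw
      have hp1 : 0 < p.1 := hp.1.1
      have : ρ (p.1⁻¹ • (p.2 - w)) = 0 := by
        apply hs
        rw [norm_smul, norm_inv, Real.norm_eq_abs, abs_of_pos hp1]
        rw [mem_closedBall, not_le] at hw
        have h5 : dist p.2 x < 1 := hp.2
        have h6 : dist w x ≤ dist w p.2 + dist p.2 x := dist_triangle _ _ _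
        have h7 : p.1 < 2 * e := hp.1.2
        have h8 : p.1 < ‖p.2 - w‖ := by
          rw [← dist_eq_norm, dist_comm]
          linarith
        rw [← div_eq_inv_mul, one_lt_div hp1]
        exact h8
      rw [this, mul_zero]
    · exact Measure.integrableOn_of_bounded (M := (L : ℝ)) measure_closedBall_lt_top.ne
        hDm.aestronglyMeasurable (Eventually.of_forall fun z => hDb z)
  apply (hcont.continuousAt hsopen).congr
  filter_upwards [hsopen] with p hp
  exact (key p hp.1.1).symm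

end Moll


section Iter

variable {E F : Type*} [NormedAddCommGroup E] [InnerProductSpace ℝ E] [FiniteDimensional ℝ E]
  [CompleteSpace E] [NormedAddCommGroup F] [InnerProductSpace ℝ F] [FiniteDimensional ℝ F]
  [CompleteSpace F]

theorem step_estimate {g : E → F} {G : E → E →L[ℝ] F} {B : Set E} (hB : Convex ℝ B)
    (hg : ∀ x ∈ B, HasFDerivAt g (G x) x) {Λ : ℝ} (hΛ0 : 0 ≤ Λ)
    (hΛ : ∀ x ∈ B, ∀ x' ∈ B, ‖G x - G x'‖ ≤ Λ * ‖x - x'‖)
    {c L θ : ℝ} (hc : 0 < c) (hθ : 0 < θ) (hL : 0 < L) (hθL : θ * L ^ 2 ≤ 1) (hcL : c ≤ L)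
    {x x' : E} (hx : x ∈ B) (hx'B : x' ∈ B)
    (hGL : ‖G x‖ ≤ L) (hlow : ∀ v, c * ‖v‖ ≤ ‖ContinuousLinearMap.adjoint (G x) v‖)
    (y : F) (hx' : x' = x + θ • ContinuousLinearMap.adjoint (G x) (y - g x)) :
    ‖y - g x'‖ ≤ (1 - θ * c ^ 2 / 2) * ‖y - g x‖ + Λ * (θ * L * ‖y - g x‖) ^ 2 := by
  set v := y - g x with hv
  set A := G x with hA
  set w := ContinuousLinearMap.adjoint A v with hw
  have hwn : ‖w‖ ≤ L * ‖v‖ := by
    refine (ContinuousLinearMap.le_opNorm _ _).trans ?_
    rw [LinearIsometryEquiv.norm_map]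
    gcongr
  have hd : x' - x = θ • w := by rw [hx']; abel
  have hdn : ‖x' - x‖ ≤ θ * L * ‖v‖ := by
    rw [hd, norm_smul, Real.norm_eq_abs, abs_of_pos hθ, mul_assoc]
    gcongr
  have hR : ‖g x' - g x - A (x' - x)‖ ≤ Λ * ‖x' - x‖ * ‖x' - x‖ := by
    have hseg : segment ℝ x x' ⊆ B := hB.segment_subset hx hx'B
    apply (convex_segment x x').norm_image_sub_le_of_norm_hasFDerivWithin_le' (f' := G)
      (fun z hz => (hg z (hseg hz)).hasFDerivWithinAt) _ (left_mem_segment ℝ x x')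
      (right_mem_segment ℝ x x')
    intro z hz
    refine (hΛ z (hseg hz) x hx).trans ?_
    gcongr
    rw [segment_eq_image_lineMap] at hz
    obtain ⟨t, ht, rfl⟩ := hz
    rw [AffineMap.lineMap_apply, vsub_eq_sub, vadd_eq_add, add_sub_cancel_right, norm_smul,
      Real.norm_eq_abs, abs_of_nonneg ht.1]
    nlinarith [norm_nonneg (x' - x), ht.2]
  have hAw : ‖A w‖ ≤ L * ‖w‖ := (ContinuousLinearMap.le_opNorm _ _).trans (by gcongr)
  have hinner : inner ℝ v (A w) = ‖w‖ ^ 2 := by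
    rw [← ContinuousLinearMap.adjoint_inner_left, ← hw, real_inner_self_eq_norm_sq]
  have hsq : ‖v - θ • A w‖ ^ 2 ≤ ((1 - θ * c ^ 2 / 2) * ‖v‖) ^ 2 := by
    have h1 : ‖v - θ • A w‖ ^ 2 = ‖v‖ ^ 2 - 2 * θ * ‖w‖ ^ 2 + θ ^ 2 * ‖A w‖ ^ 2 := by
      rw [norm_sub_sq_real, inner_smul_right, hinner, norm_smul, Real.norm_eq_abs, abs_of_pos hθ]
      ring
    have h2 : θ ^ 2 * ‖A w‖ ^ 2 ≤ θ * ‖w‖ ^ 2 := by
      have h3 : ‖A w‖ ^ 2 ≤ (L * ‖w‖) ^ 2 := by gcongr
      calc θ ^ 2 * ‖A w‖ ^ 2 ≤ θ ^ 2 * (L * ‖w‖) ^ 2 := by gcongr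
        _ = (θ * L ^ 2) * (θ * ‖w‖ ^ 2) := by ring
        _ ≤ 1 * (θ * ‖w‖ ^ 2) := by gcongr
        _ = θ * ‖w‖ ^ 2 := one_mul _
    have h4 : c ^ 2 * ‖v‖ ^ 2 ≤ ‖w‖ ^ 2 := by
      have := hlow v
      calc c ^ 2 * ‖v‖ ^ 2 = (c * ‖v‖) ^ 2 := by ring
        _ ≤ ‖w‖ ^ 2 := by gcongr
    have h5 : θ * (c ^ 2 * ‖v‖ ^ 2) ≤ θ * ‖w‖ ^ 2 := by gcongr
    rw [h1]
    nlinarith [sq_nonneg (θ * c ^ 2 / 2 * ‖v‖)]
  have h1c : 0 ≤ 1 - θ * c ^ 2 / 2 := by
    have : θ * c ^ 2 ≤ θ * L ^ 2 := by gcongr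
    linarith
  have hfin : ‖v - θ • A w‖ ≤ (1 - θ * c ^ 2 / 2) * ‖v‖ :=
    (sq_le_sq₀ (norm_nonneg _) (by positivity)).mp hsq
  have hdecomp : y - g x' = (v - θ • A w) - (g x' - g x - A (x' - x)) := by
    rw [hd, map_smul, hv]; abel
  rw [hdecomp]
  refine (norm_sub_le _ _).trans ?_
  refine add_le_add hfin (hR.trans ?_)
  rw [mul_assoc, ← sq]
  gcongr

end Iter

section Main

variable {E F : Type*} [NormedAddCommGroup E] [InnerProductSpace ℝ E] [FiniteDimensional ℝ E]
  [CompleteSpace E] [NormedAddCommGroup F] [InnerProductSpace ℝ F] [FiniteDimensional ℝ F]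
  [CompleteSpace F]

/-- the discrete gradient flow with geometrically decreasing mollification scales -/
noncomputable def XX (g : ℝ → E → F) (G : ℝ → E → E →L[ℝ] F) (θ lam : ℝ) (x₀ : E) (y₀ : F) :
    ℕ → F → E
  | 0, _ => x₀
  | j + 1, y => XX g G θ lam x₀ y₀ j y + θ • ContinuousLinearMap.adjoint
      (G (lam ^ j * ‖y - y₀‖) (XX g G θ lam x₀ y₀ j y))
      (y - g (lam ^ j * ‖y - y₀‖) (XX g G θ lam x₀ y₀ j y))

theorem iterate_main [MeasurableSpace E] [BorelSpace E] {f : E → F} {L : NNReal}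
    (hf : LipschitzWith L f)
    {C : Set (E →L[ℝ] F)} (hC : Convex ℝ C) (hC' : IsClosed C) {c₀ : ℝ} (hc₀ : 0 < c₀)
    (hlow : ∀ A ∈ C, ∀ v : F, c₀ * ‖v‖ ≤ ‖ContinuousLinearMap.adjoint A v‖) {x₀ : E} {r : ℝ}
    (hr : 0 < r)
    (hrad : ∀ x ∈ ball x₀ (2 * r), DifferentiableAt ℝ f x → fderiv ℝ f x ∈ C) :
    ∃ (t₀ γ : ℝ) (s : F → E), 0 < t₀ ∧ 0 < γ ∧ ContinuousOn s (ball (f x₀) t₀) ∧ s (f x₀) = x₀ ∧
      (∀ y ∈ ball (f x₀) t₀, f (s y) = y) ∧
      (∀ y ∈ ball (f x₀) t₀, ‖s y - x₀‖ ≤ γ * ‖y - f x₀‖) := by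
  -- the bump
  let vol : Measure E := Measure.addHaar
  let φ : ContDiffBump (0 : E) := ⟨1/2, 1, by norm_num, by norm_num⟩
  set ρ : E → ℝ := φ.normed vol with hρdef
  have hc : Continuous ρ := φ.continuous_normed
  have h0 : ∀ z, 0 ≤ ρ z := φ.nonneg_normed
  have hi : Integrable ρ vol := φ.integrable_normed
  have h1 : ∫ z, ρ z ∂vol = 1 := φ.integral_normed
  have hs : ∀ z, 1 < ‖z‖ → ρ z = 0 := by
    intro z hz
    by_contra hne
    have : z ∈ Function.support (φ.normed vol) := hne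
    rw [φ.support_normed_eq] at this
    have h3 : ‖z‖ < 1 := by simpa using this
    linarith
  obtain ⟨Cρ, hρ⟩ : ∃ Cρ, LipschitzWith Cρ ρ :=
    (φ.contDiff_normed (n := 1) (μ := vol)).lipschitzWith_of_hasCompactSupport
      φ.hasCompactSupport_normed (by simp)
  have : IsProbabilityMeasure (mol vol ρ) := mol_prob h0 hi h1
  -- constants
  set L' : ℝ := max L 1 with hL'
  set c : ℝ := min c₀ 1 with hcdef
  set C₁ : ℝ := Cρ * L * (2 * vol.real (closedBall 0 1)) + 1 with hC₁
  set M : ℝ := L' + 1 with hM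
  have hL'1 : 1 ≤ L' := le_max_right _ _
  have hLL' : (L : ℝ) ≤ L' := le_max_left _ _
  have hL'0 : 0 < L' := by linarith
  have hM0 : 0 < M := by linarith
  have hcpos : 0 < c := lt_min hc₀ one_pos
  have hc1 : c ≤ 1 := min_le_right _ _
  have hC₁0 : 0 < C₁ := by positivity
  set θ : ℝ := min (1 / L' ^ 2) (c ^ 2 / (4 * C₁ * L' ^ 2 * M)) with hθdef
  have hθ : 0 < θ := lt_min (by positivity) (by positivity)
  have hθ1 : θ * L' ^ 2 ≤ 1 := by
    have : θ ≤ 1 / L' ^ 2 := min_le_left _ _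
    calc θ * L' ^ 2 ≤ 1 / L' ^ 2 * L' ^ 2 := by gcongr
      _ = 1 := by field_simp
  have hθ2 : C₁ * θ * L' ^ 2 * M ≤ c ^ 2 / 4 := by
    have : θ ≤ c ^ 2 / (4 * C₁ * L' ^ 2 * M) := min_le_right _ _
    calc C₁ * θ * L' ^ 2 * M ≤ C₁ * (c ^ 2 / (4 * C₁ * L' ^ 2 * M)) * L' ^ 2 * M := by gcongr
      _ = c ^ 2 / 4 := by field_simp
  have hcL : c ≤ L' := hc1.trans hL'1
  have hθc : θ * c ^ 2 ≤ 1 := by
    calc θ * c ^ 2 ≤ θ * L' ^ 2 := by gcongr
      _ ≤ 1 := hθ1
  have hθc0 : 0 < θ * c ^ 2 := by positivity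
  set lam : ℝ := 1 - θ * c ^ 2 / 8 with hlam
  have hlam0 : 0 < lam := by rw [hlam]; linarith
  have hlam1 : lam < 1 := by rw [hlam]; linarith
  set γ : ℝ := 8 * L' * M / c ^ 2 with hγdef
  have hγ : 0 < γ := by positivity
  have hγlam : γ * (1 - lam) = θ * L' * M := by
    rw [hγdef, hlam]; field_simp; ring
  set t₀ : ℝ := min (r / 2) (r / (2 * γ)) with ht₀def
  have ht₀ : 0 < t₀ := lt_min (by positivity) (by positivity)
  have ht₀r : t₀ ≤ r / 2 := min_le_left _ _
  have hγt₀ : γ * t₀ ≤ r / 2 := by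
    have : t₀ ≤ r / (2 * γ) := min_le_right _ _
    calc γ * t₀ ≤ γ * (r / (2 * γ)) := by gcongr
      _ = r / 2 := by field_simp
  set y₀ : F := f x₀ with hy₀
  set g : ℝ → E → F := gg vol ρ f with hg
  set G : ℝ → E → E →L[ℝ] F := GG vol ρ f with hG
  set X : ℕ → F → E := XX g G θ lam x₀ y₀ with hX
  have hX0 : ∀ y, X 0 y = x₀ := fun y => rfl
  have hXs : ∀ j y, X (j + 1) y = X j y + θ • ContinuousLinearMap.adjoint
      (G (lam ^ j * ‖y - y₀‖) (X j y)) (y - g (lam ^ j * ‖y - y₀‖) (X j y)) := fun j y => rfl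
  have hglip : ∀ e e' x x', ‖g e x - g e' x'‖ ≤ L' * (‖x - x'‖ + |e - e'|) := by
    intro e e' x x'
    refine (gg_lip hc hs hf e e' x x').trans ?_
    gcongr
  -- displacement bound from residual bound
  have hdisp : ∀ j y, ‖y - g (lam ^ j * ‖y - y₀‖) (X j y)‖ ≤ M * (lam ^ j * ‖y - y₀‖) →
      ‖X (j + 1) y - X j y‖ ≤ θ * L' * M * (lam ^ j * ‖y - y₀‖) := by
    intro j y hres
    rw [hXs, add_sub_cancel_left, norm_smul, Real.norm_eq_abs, abs_of_pos hθ]
    have h5 : ‖ContinuousLinearMap.adjoint (G (lam ^ j * ‖y - y₀‖) (X j y))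
        (y - g (lam ^ j * ‖y - y₀‖) (X j y))‖ ≤ L' * (M * (lam ^ j * ‖y - y₀‖)) := by
      refine (ContinuousLinearMap.le_opNorm _ _).trans ?_
      rw [LinearIsometryEquiv.norm_map]
      have h6 : ‖G (lam ^ j * ‖y - y₀‖) (X j y)‖ ≤ L' :=
        (GG_norm_le hc hs hf _ _).trans hLL'
      gcongr
    calc θ * _ ≤ θ * (L' * (M * (lam ^ j * ‖y - y₀‖))) := by gcongr
      _ = _ := by ring
  -- invariants
  have hinv : ∀ y ∈ ball y₀ t₀, ∀ j, ‖X j y - x₀‖ ≤ γ * ‖y - y₀‖ * (1 - lam ^ j) ∧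
      ‖y - g (lam ^ j * ‖y - y₀‖) (X j y)‖ ≤ M * (lam ^ j * ‖y - y₀‖) := by
    intro y hy j
    rw [mem_ball, dist_eq_norm] at hy
    induction j with
    | zero =>
      refine ⟨by simp [hX0], ?_⟩
      rw [pow_zero, one_mul, hX0]
      have e1 : y - g ‖y - y₀‖ x₀ = (y - y₀) + (g 0 x₀ - g ‖y - y₀‖ x₀) := by
        have : g 0 x₀ = y₀ := gg_zero x₀
        rw [this]; abel
      rw [e1]
      refine (norm_add_le _ _).trans ?_
      have e2 := hglip 0 ‖y - y₀‖ x₀ x₀
      rw [sub_self, norm_zero, zero_add, zero_sub, abs_neg, abs_norm] at e2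
      rw [hM]
      linarith
    | succ j ih =>
      obtain ⟨ih1, ih2⟩ := ih
      have hd := hdisp j y ih2
      have hlj : 0 < lam ^ j := pow_pos hlam0 j
      have hlj1 : lam ^ j ≤ 1 := pow_le_one₀ hlam0.le hlam1.le
      have hpos1 : ‖X (j + 1) y - x₀‖ ≤ γ * ‖y - y₀‖ * (1 - lam ^ (j + 1)) := by
        have e1 : X (j + 1) y - x₀ = (X (j + 1) y - X j y) + (X j y - x₀) := by abel
        rw [e1]
        refine (norm_add_le _ _).trans ?_
        have e2 : γ * ‖y - y₀‖ * (1 - lam ^ (j + 1))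
            = (γ * (1 - lam)) * (lam ^ j * ‖y - y₀‖) + γ * ‖y - y₀‖ * (1 - lam ^ j) := by
          ring
        rw [e2, hγlam]
        exact add_le_add hd ih1
      refine ⟨hpos1, ?_⟩
      rcases eq_or_ne y y₀ with hyy | hyy
      · -- trivial case
        have t0 : ‖y - y₀‖ = 0 := by rw [hyy, sub_self, norm_zero]
        have x1 : X (j + 1) y = x₀ := by
          rw [t0, mul_zero, zero_mul] at hpos1
          exact sub_eq_zero.mp (norm_eq_zero.mp (le_antisymm hpos1 (norm_nonneg _)))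
        rw [t0, mul_zero, mul_zero, x1]
        have : g 0 x₀ = y₀ := gg_zero x₀
        rw [this, t0]
      · have tpos : 0 < ‖y - y₀‖ := by
          rw [norm_pos_iff, sub_ne_zero]; exact hyy
        set t := ‖y - y₀‖ with ht
        set ε := lam ^ j * t with hε
        have hε0 : 0 < ε := by positivity
        have hεt : ε ≤ t := by
          rw [hε]; nlinarith
        have hin : ∀ i, ‖X i y - x₀‖ ≤ γ * t * (1 - lam ^ i) → X i y ∈ ball x₀ r := by
          intro i hi'
          rw [mem_ball, dist_eq_norm]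
          have hli : 0 < lam ^ i := pow_pos hlam0 i
          have : γ * t * (1 - lam ^ i) ≤ γ * t := by
            have : 0 < γ * t := by positivity
            nlinarith
          have h7 : γ * t ≤ γ * t₀ := by gcongr
          linarith
        have hb1 := hin j ih1
        have hb2 := hin (j + 1) hpos1
        have hstep := step_estimate (g := g ε) (G := G ε) (B := ball x₀ r) (convex_ball x₀ r)
          (fun x _ => (hasFDerivAt_gg hc hs hf hε0 x).2) (Λ := C₁ / ε) (by positivity)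
          (fun x _ x' _ => by
            refine (GG_lip hc h0 hs hf hρ hi hε0 x x').trans ?_
            gcongr
            rw [hC₁]; linarith)
          hcpos hθ hL'0 hθ1 hcL hb1 hb2
          ((GG_norm_le hc hs hf _ _).trans hLL')
          (by
            have hmem : G ε (X j y) ∈ C := by
              apply GG_mem hc hs hf hC hC' hε0
              intro z hz hzd
              apply hrad z _ hzd
              rw [mem_ball] at hb1 ⊢
              have h8 : dist z x₀ ≤ dist z (X j y) + dist (X j y) x₀ := dist_triangle _ _ _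
              rw [dist_eq_norm z (X j y)] at h8
              linarith
            intro v
            refine le_trans ?_ (hlow _ hmem v)
            gcongr
            exact min_le_left _ _)
          y (hXs j y)
        have h9 : ‖y - g ε (X (j + 1) y)‖ ≤ (1 - θ * c ^ 2 / 4) * (M * ε) := by
          refine hstep.trans ?_
          have h10 : 0 ≤ 1 - θ * c ^ 2 / 2 := by linarith
          calc (1 - θ * c ^ 2 / 2) * ‖y - g ε (X j y)‖ + C₁ / ε * (θ * L' * ‖y - g ε (X j y)‖) ^ 2
              ≤ (1 - θ * c ^ 2 / 2) * (M * ε) + C₁ / ε * (θ * L' * (M * ε)) ^ 2 := by gcongr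
            _ = (1 - θ * c ^ 2 / 2) * (M * ε) + (C₁ * θ * L' ^ 2 * M) * (θ * (M * ε)) := by
                field_simp
            _ ≤ (1 - θ * c ^ 2 / 2) * (M * ε) + (c ^ 2 / 4) * (θ * (M * ε)) := by gcongr
            _ = (1 - θ * c ^ 2 / 4) * (M * ε) := by ring
        have h11 : lam ^ (j + 1) * t = lam * ε := by rw [hε]; ring
        rw [h11]
        have e1 : y - g (lam * ε) (X (j + 1) y) = (y - g ε (X (j + 1) y)) +
            (g ε (X (j + 1) y) - g (lam * ε) (X (j + 1) y)) := by abel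
        rw [e1]
        refine (norm_add_le _ _).trans ?_
        have e2 := hglip ε (lam * ε) (X (j + 1) y) (X (j + 1) y)
        have e3 : |ε - lam * ε| = (θ * c ^ 2 / 8) * ε := by
          rw [abs_of_nonneg]
          · rw [hlam]; ring
          · nlinarith
        rw [sub_self, norm_zero, zero_add, e3] at e2
        have h12 : L' * (θ * c ^ 2 / 8 * ε) ≤ M * (θ * c ^ 2 / 8 * ε) := by
          gcongr
          linarith
        calc _ ≤ (1 - θ * c ^ 2 / 4) * (M * ε) + M * (θ * c ^ 2 / 8 * ε) := by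
              linarith
          _ = M * (lam * ε) := by rw [hlam]; ring
  -- Cauchy estimates
  have hcau : ∀ y ∈ ball y₀ t₀, ∀ j, dist (X j y) (X (j + 1) y) ≤ (θ * L' * M * t₀) * lam ^ j := by
    intro y hy j
    have h := hdisp j y (hinv y hy j).2
    rw [dist_comm, dist_eq_norm]
    refine h.trans ?_
    rw [mem_ball, dist_eq_norm] at hy
    calc θ * L' * M * (lam ^ j * ‖y - y₀‖) ≤ θ * L' * M * (lam ^ j * t₀) := by gcongr
      _ = _ := by ring
  have hex : ∀ y ∈ ball y₀ t₀, ∃ s, Tendsto (fun j => X j y) atTop (𝓝 s) := fun y hy =>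
    cauchySeq_tendsto_of_complete (cauchySeq_of_le_geometric lam _ hlam1 (hcau y hy))
  choose! s hlim using hex
  have hdist : ∀ y ∈ ball y₀ t₀, ∀ j, dist (X j y) (s y) ≤ (θ * L' * M * t₀) * lam ^ j / (1 - lam) :=
    fun y hy j => dist_le_of_le_geometric_of_tendsto lam _ hlam1 (hcau y hy) (hlim y hy) j
  have hcalm : ∀ y ∈ ball y₀ t₀, ‖s y - x₀‖ ≤ γ * ‖y - y₀‖ := by
    intro y hy
    have h2 : Tendsto (fun j => ‖X j y - x₀‖) atTop (𝓝 ‖s y - x₀‖) :=
      ((hlim y hy).sub_const x₀).norm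
    refine le_of_tendsto h2 (Eventually.of_forall fun j => ?_)
    refine (hinv y hy j).1.trans ?_
    have hlj : 0 < lam ^ j := pow_pos hlam0 j
    have : 0 ≤ γ * ‖y - y₀‖ := by positivity
    nlinarith
  have hlampow : Tendsto (fun j : ℕ => lam ^ j) atTop (𝓝 0) :=
    tendsto_pow_atTop_nhds_zero_of_lt_one hlam0.le hlam1
  have hsol : ∀ y ∈ ball y₀ t₀, f (s y) = y := by
    intro y hy
    have h2 : Tendsto (fun j => f (X j y)) atTop (𝓝 (f (s y))) :=
      (hf.continuous.tendsto (s y)).comp (hlim y hy)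
    have h3 : Tendsto (fun j => f (X j y)) atTop (𝓝 y) := by
      rw [tendsto_iff_norm_sub_tendsto_zero]
      have h4 : Tendsto (fun j : ℕ => (M + L') * (lam ^ j * ‖y - y₀‖)) atTop (𝓝 0) := by
        have := (hlampow.mul_const ‖y - y₀‖).const_mul (M + L')
        simpa using this
      refine squeeze_zero (fun _ => norm_nonneg _) (fun j => ?_) h4
      have e1 : f (X j y) - y = (g 0 (X j y) - g (lam ^ j * ‖y - y₀‖) (X j y)) -
          (y - g (lam ^ j * ‖y - y₀‖) (X j y)) := by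
        have : g 0 (X j y) = f (X j y) := gg_zero _
        rw [this]; abel
      rw [e1]
      refine (norm_sub_le _ _).trans ?_
      have e2 := hglip 0 (lam ^ j * ‖y - y₀‖) (X j y) (X j y)
      have e3 := (hinv y hy j).2
      have e4 : |0 - lam ^ j * ‖y - y₀‖| = lam ^ j * ‖y - y₀‖ := by
        rw [zero_sub, abs_neg, abs_of_nonneg]
        have := pow_pos hlam0 j
        positivity
      rw [sub_self, norm_zero, zero_add, e4] at e2
      linarith
    exact tendsto_nhds_unique h2 h3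
  have hs0 : s y₀ = x₀ := by
    have h := hcalm y₀ (mem_ball_self ht₀)
    rw [sub_self, norm_zero, mul_zero] at h
    exact sub_eq_zero.mp (norm_eq_zero.mp (le_antisymm h (norm_nonneg _)))
  have hgc : Continuous (fun p : ℝ × E => g p.1 p.2) := by
    rw [continuous_iff_continuousAt]
    intro p
    rw [ContinuousAt, tendsto_iff_norm_sub_tendsto_zero]
    have h4 : Tendsto (fun q : ℝ × E => L' * (‖q.2 - p.2‖ + |q.1 - p.1|)) (𝓝 p) (𝓝 0) := by
      have : Continuous (fun q : ℝ × E => L' * (‖q.2 - p.2‖ + |q.1 - p.1|)) := by fun_prop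
      have h5 := this.tendsto p
      simpa using h5
    exact squeeze_zero (fun _ => norm_nonneg _) (fun q => hglip _ _ _ _) h4
  have hXc : ∀ j, ∀ y, y ≠ y₀ → ContinuousAt (X j) y := by
    intro j
    induction j with
    | zero => intro y _; exact continuousAt_const
    | succ j ih =>
      intro y hy
      have hpair : ContinuousAt (fun y => ((lam ^ j * ‖y - y₀‖ : ℝ), X j y)) y := by
        apply ContinuousAt.prodMk
        · fun_prop
        · exact ih y hy
      have hpos : 0 < lam ^ j * ‖y - y₀‖ := by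
        have := pow_pos hlam0 j
        have h2 : 0 < ‖y - y₀‖ := by rw [norm_pos_iff, sub_ne_zero]; exact hy
        positivity
      have cG : ContinuousAt (fun y => G (lam ^ j * ‖y - y₀‖) (X j y)) y :=
        ContinuousAt.comp (f := fun y => ((lam ^ j * ‖y - y₀‖ : ℝ), X j y))
          (g := fun p : ℝ × E => G p.1 p.2) (GG_cont hc h0 hs hf hpos (X j y)) hpair
      have cA : ContinuousAt (fun y => ContinuousLinearMap.adjoint
          (G (lam ^ j * ‖y - y₀‖) (X j y))) y :=
        ContinuousAt.comp (f := fun y => G (lam ^ j * ‖y - y₀‖) (X j y))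
          (g := fun A : E →L[ℝ] F => ContinuousLinearMap.adjoint A)
          (LinearIsometryEquiv.continuous _).continuousAt cG
      have cg : ContinuousAt (fun y => g (lam ^ j * ‖y - y₀‖) (X j y)) y :=
        ContinuousAt.comp (f := fun y => ((lam ^ j * ‖y - y₀‖ : ℝ), X j y))
          (g := fun p : ℝ × E => g p.1 p.2) hgc.continuousAt hpair
      exact (ih y hy).add (continuousAt_const.smul (cA.clm_apply (continuousAt_id.sub cg)))
  have hunif : TendstoUniformlyOn X s atTop (ball y₀ t₀) := by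
    rw [Metric.tendstoUniformlyOn_iff]
    intro ε hε
    have h4 : Tendsto (fun j : ℕ => (θ * L' * M * t₀) * lam ^ j / (1 - lam)) atTop (𝓝 0) := by
      have := (hlampow.const_mul (θ * L' * M * t₀)).div_const (1 - lam)
      simpa using this
    filter_upwards [h4.eventually_lt_const hε] with j hj y hy
    rw [dist_comm]
    exact (hdist y hy j).trans_lt hj
  have hcont : ContinuousOn s (ball y₀ t₀) := by
    intro y hy
    rcases eq_or_ne y y₀ with rfl | hyy
    · apply ContinuousAt.continuousWithinAt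
      rw [ContinuousAt, hs0, tendsto_iff_norm_sub_tendsto_zero]
      have h4 : Tendsto (fun y => γ * ‖y - y₀‖) (𝓝 y₀) (𝓝 0) := by
        have : Continuous (fun y => γ * ‖y - y₀‖) := by fun_prop
        have h5 := this.tendsto y₀
        simpa using h5
      refine squeeze_zero' (Eventually.of_forall fun _ => norm_nonneg _) ?_ h4
      filter_upwards [isOpen_ball.mem_nhds hy] with z hz
      exact hcalm z hz
    · have hopen : IsOpen (ball y₀ t₀ ∩ {y₀}ᶜ) := isOpen_ball.inter isOpen_compl_singleton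
      have h5 : ContinuousOn s (ball y₀ t₀ ∩ {y₀}ᶜ) := by
        apply (hunif.mono inter_subset_left).continuousOn
        apply Eventually.frequently
        exact Eventually.of_forall fun j z hz => (hXc j z hz.2).continuousWithinAt
      exact (h5.continuousAt (hopen.mem_nhds ⟨hy, hyy⟩)).continuousWithinAt
  exact ⟨t₀, γ, s, ht₀, hγ, hcont, hs0, hsol, hcalm⟩

end Main

theorem main (n m : ℕ) (f : EuclideanSpace ℝ (Fin n) → EuclideanSpace ℝ (Fin m))
      (x₀ : EuclideanSpace ℝ (Fin n))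
      (hf : ∃ K : NNReal, ∃ U ∈ nhds x₀, LipschitzOnWith K f U)
      (hsurj : ∀ A ∈ convexHull ℝ
          {B : EuclideanSpace ℝ (Fin n) →L[ℝ] EuclideanSpace ℝ (Fin m) |
            ∀ ε : ℝ, 0 < ε → ∀ δ : ℝ, 0 < δ →
              ∃ x : EuclideanSpace ℝ (Fin n), dist x x₀ < δ ∧ DifferentiableAt ℝ f x ∧
                ‖fderiv ℝ f x - B‖ < ε},
          Function.Surjective A) :
      ∃ V ∈ nhds (f x₀), ∃ s : EuclideanSpace ℝ (Fin m) → EuclideanSpace ℝ (Fin n),
        ∃ γ : ℝ, 0 < γ ∧ ContinuousOn s V ∧ s (f x₀) = x₀ ∧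
          (∀ y ∈ V, f (s y) = y) ∧
          ∀ y ∈ V, ‖s y - x₀‖ ≤ γ * ‖y - f x₀‖ := by
  obtain ⟨K, U, hU, hK⟩ := hf
  obtain ⟨R, hR, hRU⟩ := Metric.mem_nhds_iff.mp hU
  -- derivative bound
  have hKb : ∀ x ∈ ball x₀ R, ‖fderiv ℝ f x‖ ≤ K := by
    intro x hx
    exact norm_fderiv_le_of_lipschitzOn ℝ (isOpen_ball.mem_nhds hx) (hK.mono hRU)
  have hJc := isCompact_J (ball_mem_nhds x₀ hR) hKb
  obtain ⟨C, c, hc, hCconv, hCcl, hCnhds, hClow⟩ := exists_thick hJc hsurj
  obtain ⟨r₁, hr₁, hrad⟩ := exists_radius (ball_mem_nhds x₀ hR) hKb hCnhds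
  obtain ⟨f', hf', hEq⟩ := (hK.mono hRU).extend_finite_dimension
  set r : ℝ := min r₁ R / 2 with hr
  have hr0 : 0 < r := by have := lt_min hr₁ hR; positivity
  have h2r : 2 * r = min r₁ R := by rw [hr]; ring
  have hfx₀ : f' x₀ = f x₀ := (hEq (mem_ball_self hR)).symm
  have hrad' : ∀ x ∈ ball x₀ (2 * r), DifferentiableAt ℝ f' x → fderiv ℝ f' x ∈ C := by
    intro x hx hd
    rw [h2r, mem_ball, lt_min_iff] at hx
    have hxR : ball x₀ R ∈ 𝓝 x := isOpen_ball.mem_nhds hx.2
    have hee : f' =ᶠ[𝓝 x] f := by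
      filter_upwards [hxR] with z hz
      exact (hEq hz).symm
    rw [hee.fderiv_eq]
    exact hrad x hx.1 (hee.differentiableAt_iff.mp hd)
  obtain ⟨t₀, γ, s, ht₀, hγ, hcont, hs0, hsol, hcalm⟩ :=
    iterate_main hf' hCconv hCcl hc hClow hr0 hrad'
  rw [hfx₀] at hcont hs0 hsol hcalm
  set t : ℝ := min t₀ (R / γ) with ht
  have ht0 : 0 < t := lt_min ht₀ (by positivity)
  have hsub : ball (f x₀) t ⊆ ball (f x₀) t₀ := ball_subset_ball (min_le_left _ _)
  refine ⟨ball (f x₀) t, ball_mem_nhds _ ht0, s, γ, hγ, hcont.mono hsub, hs0, ?_, ?_⟩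
  · intro y hy
    have h1 := hcalm y (hsub hy)
    have h2 : s y ∈ ball x₀ R := by
      rw [mem_ball, dist_eq_norm]
      rw [mem_ball, dist_eq_norm] at hy
      have h3 : t ≤ R / γ := min_le_right _ _
      calc ‖s y - x₀‖ ≤ γ * ‖y - f x₀‖ := h1
        _ < γ * t := by gcongr
        _ ≤ γ * (R / γ) := by gcongr
        _ = R := by field_simp
    rw [hEq h2]
    exact hsol y (hsub hy)
  · intro y hy
    exact hcalm y (hsub hy)


end Aux

/-- If f: R^n→R^m is Lipschitz near x̄ and every matrix in its Clarke Jacobian at x̄ is surjective, then near f(x̄) some continuous right inverse s with s(f(x̄))=x̄ satisfies ‖s(y)−x̄‖ ≤ γ‖y−f(x̄)‖ for some γ>0. -/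
theorem result :
    ∀ (n m : ℕ) (f : EuclideanSpace ℝ (Fin n) → EuclideanSpace ℝ (Fin m))
      (x₀ : EuclideanSpace ℝ (Fin n)),
      (∃ K : NNReal, ∃ U ∈ nhds x₀, LipschitzOnWith K f U) →
      (∀ A ∈ convexHull ℝ
          {B : EuclideanSpace ℝ (Fin n) →L[ℝ] EuclideanSpace ℝ (Fin m) |
            ∀ ε : ℝ, 0 < ε → ∀ δ : ℝ, 0 < δ →
              ∃ x : EuclideanSpace ℝ (Fin n), dist x x₀ < δ ∧ DifferentiableAt ℝ f x ∧
                ‖fderiv ℝ f x - B‖ < ε},
          Function.Surjective A) →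
      ∃ V ∈ nhds (f x₀), ∃ s : EuclideanSpace ℝ (Fin m) → EuclideanSpace ℝ (Fin n),
        ∃ γ : ℝ, 0 < γ ∧ ContinuousOn s V ∧ s (f x₀) = x₀ ∧
          (∀ y ∈ V, f (s y) = y) ∧
          ∀ y ∈ V, ‖s y - x₀‖ ≤ γ * ‖y - f x₀‖ :=
  fun n m f x₀ hf hsurj => main n m f x₀ hf hsurj

end Pool.Agent.S02559
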