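import Pool.Statements.S02563
import Pool.Agent.Helper853.Fb.Exh
import Pool.Agent.Helper853.Fb.Vol2

set_option autoImplicit false
open Pool Pool.MP_09af40_an

namespace Pool.Agent.S02563

/-- For some n ≥ 1 there is a connected open pseudoconvex Ω in ℂⁿ carrying a nonzero square-integrable holomorphic function, on which every bounded plurisubharmonic function is constant. -/
theorem result :
    ∃ n : ℕ, 1 ≤ n ∧ ∃ Ω : Set (Fin n → ℂ), IsOpen Ω ∧ IsConnected Ω ∧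
      (∃ φ : (Fin n → ℂ) → ℝ, ContinuousOn φ Ω ∧
        (∀ a b : Fin n → ℂ, (∀ ζ : ℂ, ‖ζ‖ ≤ 1 → a + ζ • b ∈ Ω) →
          φ a ≤ (1 / (2 * Real.pi)) *
            ∫ θ in (0:ℝ)..(2 * Real.pi), φ (a + Complex.exp ((θ : ℂ) * Complex.I) • b)) ∧
        ∀ c : ℝ, IsCompact (closure {z | z ∈ Ω ∧ φ z < c}) ∧
          closure {z | z ∈ Ω ∧ φ z < c} ⊆ Ω) ∧
      (∃ f : (Fin n → ℂ) → ℂ, DifferentiableOn ℂ f Ω ∧
        MeasureTheory.MemLp f 2 (MeasureTheory.volume.restrict Ω) ∧ ∃ z ∈ Ω, f z ≠ 0) ∧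
      ∀ u : (Fin n → ℂ) → ℝ, UpperSemicontinuousOn u Ω →
        (∃ M : ℝ, ∀ z ∈ Ω, |u z| ≤ M) →
        (∀ a b : Fin n → ℂ, (∀ ζ : ℂ, ‖ζ‖ ≤ 1 → a + ζ • b ∈ Ω) →
          u a ≤ (1 / (2 * Real.pi)) *
            ∫ θ in (0:ℝ)..(2 * Real.pi), u (a + Complex.exp ((θ : ℂ) * Complex.I) • b)) →
        ∀ z ∈ Ω, ∀ w ∈ Ω, u z = u w := by
  refine ⟨3, by norm_num, Pool.Agent.Helper853.Fb.Om, Pool.Agent.Helper853.Fb.isOpen_Om,
    Pool.Agent.Helper853.Fb.isConnected_Om, ?_, ?_, ?_⟩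
  · exact ⟨Pool.Agent.Helper853.Fb.ph, Pool.Agent.Helper853.Fb.ph_continuousOn,
      Pool.Agent.Helper853.Fb.ph_sm, Pool.Agent.Helper853.Fb.ph_sublevel⟩
  · refine ⟨fun _ => 1, differentiableOn_const _, ?_, 0, Pool.Agent.Helper853.Fb.zero_mem_Om,
      one_ne_zero⟩
    have : MeasureTheory.IsFiniteMeasure
        (MeasureTheory.volume.restrict Pool.Agent.Helper853.Fb.Om) := by
      constructor
      rw [MeasureTheory.Measure.restrict_apply_univ]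
      exact Pool.Agent.Helper853.Fb.vol_Om
    exact MeasureTheory.memLp_const 1
  · intro u husc hbd hsm z hz w hw
    obtain ⟨M, hM⟩ := hbd
    have hu : Pool.Agent.Helper853.Fb.BPsh Pool.Agent.Helper853.Fb.Om u M := ⟨husc, hM, hsm⟩
    rw [Pool.Agent.Helper853.Fb.eq_zero_val hu hz, Pool.Agent.Helper853.Fb.eq_zero_val hu hw]

end Pool.Agent.S02563
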