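import Pool.Statements.S02565
import Pool.Agent.Helper506.PosAreaE

set_option autoImplicit false
open Pool Pool.MP_09c31c_an

namespace Pool.Agent.S02565

open Pool.Agent.Helper506.PosArea in
theorem result :
    ∃ a : ℕ → ℂ, Summable (fun n => ‖a n‖) ∧
      (∀ z : ℂ, ‖z‖ < 1 → deriv (fun w : ℂ => ∑' n, a n * w ^ n) z ≠ 0) ∧
      MeasureTheory.volume ((fun w : ℂ => ∑' n, a n * w ^ n) '' Metric.sphere (0 : ℂ) 1) ≠ 0 := by
  obtain ⟨F, n, M, h0, hst, h, hn, hMn, hm⟩ := exists_seq
  have hS : ∀ k, NN (F k) := fun k => (hst k).1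
  have hd := summable_dd hS h hn hm
  refine ⟨fun i => match i with | 0 => 0 | i + 1 => (dd F i : ℂ), ?_, ?_, ?_⟩
  · rw [← summable_nat_add_iff 1]
    refine hd.congr fun i => ?_
    simp only [Complex.norm_real]
    rw [Real.norm_of_nonneg (dd_nonneg hS i)]
  all_goals
    have hf : ∀ z : ℂ, ‖z‖ ≤ 1 → (∑' i : ℕ, (match i with | 0 => 0 | i + 1 => (dd F i : ℂ)) * z ^ i) =
        lim F z := by
      intro z hz
      have hs : Summable fun i : ℕ => (match i with | 0 => 0 | i + 1 => (dd F i : ℂ)) * z ^ i := by
        rw [← summable_nat_add_iff 1]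
        exact summable_lim hS hd hz
      rw [hs.tsum_eq_zero_add]
      simp only [zero_mul, zero_add]
      rfl
    have hunif := lim_tendsto hS h hn hm
  · intro z hz
    have hopen : IsOpen (Metric.ball (0 : ℂ) 1) := Metric.isOpen_ball
    have hzm : z ∈ Metric.ball (0 : ℂ) 1 := by simpa using hz
    have hloc : TendstoLocallyUniformlyOn (fun k z => prim (F k) z) (lim F) Filter.atTop
        (Metric.ball 0 1) :=
      (hunif.mono Metric.ball_subset_closedBall).tendstoLocallyUniformlyOn
    have hder := (hloc.deriv (Filter.Eventually.of_forall fun k x _ =>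
      ((hasDerivAt_prim (F k) x).differentiableAt).differentiableWithinAt) hopen).tendsto_at hzm
    have heq : deriv (fun w : ℂ => ∑' i : ℕ, (match i with | 0 => 0 | i + 1 => (dd F i : ℂ)) *
        w ^ i) z = deriv (lim F) z := by
      apply Filter.EventuallyEq.deriv_eq
      filter_upwards [hopen.mem_nhds hzm] with w hw
      exact hf w (by have : ‖w‖ < 1 := by simpa using hw
                     exact this.le)
    rw [heq]
    obtain ⟨c, hc, hev⟩ := lower_bound h0 h hn hMn hz
    have hnorm := hder.norm
    have hge : c ≤ ‖deriv (lim F) z‖ := by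
      refine ge_of_tendsto hnorm ?_
      filter_upwards [hev] with k hk
      have : deriv (fun z => prim (F k) z) z = Polynomial.aeval z (F k) :=
        (hasDerivAt_prim (F k) z).deriv
      simp only [Function.comp]
      rw [this]
      exact hk
    intro hcon
    rw [hcon, norm_zero] at hge
    linarith
  · have himg : (fun w : ℂ => ∑' i : ℕ, (match i with | 0 => 0 | i + 1 => (dd F i : ℂ)) * w ^ i) ''
        Metric.sphere (0 : ℂ) 1 = lim F '' Metric.sphere (0 : ℂ) 1 := by
      apply Set.image_congr
      intro w hw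
      exact hf w (by simpa using (mem_sphere_zero_iff_norm.mp hw).le)
    rw [himg]
    have hcont : ContinuousOn (lim F) (Metric.sphere (0 : ℂ) 1) := by
      refine (hunif.mono Metric.sphere_subset_closedBall).continuousOn
        (Filter.Frequently.of_forall fun k => ?_)
      exact fun x _ => (hasDerivAt_prim (F k) x).continuousAt.continuousWithinAt
    have hcl : IsClosed (lim F '' Metric.sphere (0 : ℂ) 1) :=
      ((isCompact_sphere (0 : ℂ) 1).image_of_continuousOn hcont).isClosed
    have hsub : KK ⊆ lim F '' Metric.sphere (0 : ℂ) 1 := by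
      intro p hp
      rw [← hcl.closure_eq, Metric.mem_closure_iff]
      intro ε hε
      have h1 : Filter.Tendsto (fun k : ℕ => (1 / 4 : ℝ) ^ k + 64 / 3 * (1 / 4) ^ k)
          Filter.atTop (nhds 0) := by
        have h2 := tendsto_pow_atTop_nhds_zero_of_lt_one (r := (1 / 4 : ℝ)) (by norm_num)
          (by norm_num)
        have h3 := h2.add (h2.const_mul (64 / 3 : ℝ))
        rwa [mul_zero, add_zero] at h3
      obtain ⟨k, hk⟩ := (h1.eventually (gt_mem_nhds hε)).exists
      obtain ⟨z, hz, -, -, hz2⟩ := (hst k).2.2 p hp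
      refine ⟨lim F z, ⟨z, by simpa using hz, rfl⟩, ?_⟩
      rw [dist_comm, dist_eq_norm]
      have h4 := lim_sub_le hS h hn hm k hz.le
      have h5 : lim F z - p = (lim F z - prim (F k) z) + (prim (F k) z - p) := by ring
      rw [h5]
      have h6 := norm_add_le (lim F z - prim (F k) z) (prim (F k) z - p)
      have h7 := es_le k
      linarith
    have hpos : 0 < MeasureTheory.volume KK :=
      Metric.measure_closedBall_pos MeasureTheory.volume _ (by norm_num)
    exact (lt_of_lt_of_le hpos (MeasureTheory.measure_mono hsub)).ne'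

end Pool.Agent.S02565
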