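import Pool.Statements.S02567
import Pool.Agent.Helper366.IV.End
import Pool.Agent.Helper366.IV.Moll
import Pool.Agent.Helper366.IV.Local
import Pool.Agent.Helper366.IV.CRep

set_option autoImplicit false
open Pool Pool.MP_09f213_an

namespace Pool.Agent.S02567

open MeasureTheory Metric Set Filter Topology Complex
open Pool.Agent.Helper366.IV
open scoped ContDiff ComplexConjugate

theorem main_local (Ω : Set ℂ) (f fx fy : ℂ → ℂ) (hΩ : IsOpen Ω)
    (hf : LocallyIntegrableOn f Ω)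
    (hfx : MemLp fx 2 (volume.restrict Ω)) (hfy : MemLp fy 2 (volume.restrict Ω))
    (hw : ∀ φ : ℂ → ℂ, ContDiff ℝ ((⊤ : ℕ∞) : WithTop ℕ∞) φ → HasCompactSupport φ → tsupport φ ⊆ Ω →
      ((∫ z, f z * fderiv ℝ φ z 1) = - ∫ z, fx z * φ z) ∧
      ((∫ z, f z * fderiv ℝ φ z Complex.I) = - ∫ z, fy z * φ z))
    (hH : ∀ φ : ℂ → ℂ, ContDiff ℝ ((⊤ : ℕ∞) : WithTop ℕ∞) φ → HasCompactSupport φ → tsupport φ ⊆ Ω →
      (∫ z, ((fx z - Complex.I * fy z) / 2 * (starRingEnd ℂ) ((fx z + Complex.I * fy z) / 2)) *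
        ((fderiv ℝ φ z 1 + Complex.I * fderiv ℝ φ z Complex.I) / 2)) = 0)
    (hJ : ∀ᵐ z ∂(volume.restrict Ω), ‖fx z + Complex.I * fy z‖ ≤ ‖fx z - Complex.I * fy z‖)
    (z₀ : ℂ) (hz₀ : z₀ ∈ Ω) :
    ∃ l : ℝ, Tendsto (fun z => Real.sqrt (‖fx z‖ ^ 2 + ‖fy z‖ ^ 2)) (ess z₀) (𝓝 l) := by
  obtain ⟨r₀, hr₀, hball⟩ := Metric.isOpen_iff.mp hΩ z₀ hz₀
  -- measurability and integrability
  have hdz : MemLp (dz fx fy) 2 (volume.restrict Ω) := by
    have := (hfx.sub (hfy.const_mul I)).const_mul (1 / 2)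
    refine this.ae_eq (ae_of_all _ fun z => ?_)
    simp only [dz, Pi.sub_apply]; ring
  have hdzb : MemLp (dzb fx fy) 2 (volume.restrict Ω) := by
    have := (hfx.add (hfy.const_mul I)).const_mul (1 / 2)
    refine this.ae_eq (ae_of_all _ fun z => ?_)
    simp only [dzb, Pi.add_apply]; ring
  have hle : ∀ᵐ z ∂(volume.restrict Ω), ‖dzb fx fy z‖ ≤ ‖dz fx fy z‖ := by
    filter_upwards [hJ] with z hz
    unfold dzb dz
    rw [norm_div, norm_div]; gcongr
  set P : ℂ → ℂ := fun z => dz fx fy z * conj (dzb fx fy z) with hP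
  have hPint : IntegrableOn P Ω := by
    have h1 : MemLp (fun z => conj (dzb fx fy z)) 2 (volume.restrict Ω) :=
      (memLp_congr_norm (Complex.continuous_conj.comp_aestronglyMeasurable hdzb.1) hdzb.1
        (ae_of_all _ fun z => RCLike.norm_conj _)).mpr hdzb
    exact MemLp.integrable_mul hdz h1
  have hPloc : LocallyIntegrableOn P Ω := hPint.locallyIntegrableOn
  -- holomorphic representative
  set r₁ := r₀ / 4 with hr₁
  have hr₁p : 0 < r₁ := by positivity
  obtain ⟨H, hHd, hHe⟩ := local_holo Ω hΩ P hPloc (fun φ h1 h2 h3 => hH φ h1 h2 h3) z₀ r₁ hr₁p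
    ((closedBall_subset_ball (by rw [hr₁]; linarith)).trans hball)
  -- bound for dzb
  have hcb : closedBall z₀ (r₁ / 2) ⊆ ball z₀ r₁ := closedBall_subset_ball (by linarith)
  obtain ⟨B, hB⟩ := (isCompact_closedBall z₀ (r₁ / 2)).exists_bound_of_continuousOn
    (hHd.continuousOn.mono hcb)
  have hB0 : 0 ≤ B := (norm_nonneg _).trans (hB z₀ (mem_closedBall_self (by positivity)))
  set m := B + 1 with hm
  have hm1 : 1 ≤ m := by linarith
  have hBm : B ≤ m ^ 2 := by nlinarith
  set r₂ := r₁ / 4 with hr₂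
  have hr₂p : 0 < r₂ := by positivity
  have hc2 : closedBall z₀ (2 * r₂) ⊆ closedBall z₀ (r₁ / 2) :=
    closedBall_subset_closedBall (by rw [hr₂]; linarith)
  have hcbΩ : ball z₀ r₁ ⊆ Ω := (ball_subset_ball (by rw [hr₁]; linarith)).trans hball
  have hdzbB : ∀ᵐ z ∂(volume.restrict (closedBall z₀ (2 * r₂))), ‖dzb fx fy z‖ ≤ m := by
    have h1 := ae_restrict_of_ae_restrict_of_subset ((hc2.trans hcb).trans hcbΩ) hle
    have h2 := ae_restrict_of_ae_restrict_of_subset (hc2.trans hcb) hHe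
    filter_upwards [h1, h2, ae_restrict_mem measurableSet_closedBall] with z e1 e2 hz
    have e3 := hB z (hc2 hz)
    rw [← e2, hP] at e3
    simp only [norm_mul, RCLike.norm_conj] at e3
    have e4 : ‖dzb fx fy z‖ ^ 2 ≤ m ^ 2 := by
      calc ‖dzb fx fy z‖ ^ 2 = ‖dzb fx fy z‖ * ‖dzb fx fy z‖ := sq _
        _ ≤ ‖dz fx fy z‖ * ‖dzb fx fy z‖ := by gcongr
        _ ≤ B := e3
        _ ≤ m ^ 2 := hBm
    exact (pow_le_pow_iff_left₀ (norm_nonneg _) (by linarith) two_ne_zero).mp e4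
  -- continuous representative
  have hdzbloc : LocallyIntegrableOn (dzb fx fy) Ω := by
    intro x hx
    obtain ⟨r, hr, hrb⟩ := Metric.isOpen_iff.mp hΩ x hx
    refine ⟨ball x r, mem_nhdsWithin_of_mem_nhds (ball_mem_nhds x hr), ?_⟩
    have : IsFiniteMeasure (volume.restrict (ball x r)) :=
      ⟨by rw [Measure.restrict_apply_univ]; exact measure_ball_lt_top⟩
    exact (hdzb.mono_measure (Measure.restrict_mono hrb le_rfl)).integrable (by norm_num)
  have hint_mul : ∀ (g φ : ℂ → ℂ), LocallyIntegrableOn g Ω → Continuous φ → HasCompactSupport φ →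
      tsupport φ ⊆ Ω → Integrable (fun z => g z * φ z) := by
    intro g φ hg hφ hc hs
    have h1 : IntegrableOn g (tsupport φ) := hg.integrableOn_compact_subset hs hc
    have h2 : IntegrableOn (fun z => g z * φ z) (tsupport φ) := by
      obtain ⟨C, hC⟩ := hφ.bounded_above_of_compact_support hc
      exact h1.mul_bdd (c := C) hφ.aestronglyMeasurable (ae_of_all _ hC)
    rw [← integrableOn_iff_integrable_of_support_subset (s := tsupport φ)]
    · exact h2
    · intro z hz
      apply subset_tsupport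
      intro h
      exact hz (by simp [h])
  have hfxloc : LocallyIntegrableOn fx Ω := by
    intro x hx
    obtain ⟨r, hr, hrb⟩ := Metric.isOpen_iff.mp hΩ x hx
    refine ⟨ball x r, mem_nhdsWithin_of_mem_nhds (ball_mem_nhds x hr), ?_⟩
    have : IsFiniteMeasure (volume.restrict (ball x r)) :=
      ⟨by rw [Measure.restrict_apply_univ]; exact measure_ball_lt_top⟩
    exact (hfx.mono_measure (Measure.restrict_mono hrb le_rfl)).integrable (by norm_num)
  have hfyloc : LocallyIntegrableOn fy Ω := by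
    intro x hx
    obtain ⟨r, hr, hrb⟩ := Metric.isOpen_iff.mp hΩ x hx
    refine ⟨ball x r, mem_nhdsWithin_of_mem_nhds (ball_mem_nhds x hr), ?_⟩
    have : IsFiniteMeasure (volume.restrict (ball x r)) :=
      ⟨by rw [Measure.restrict_apply_univ]; exact measure_ball_lt_top⟩
    exact (hfy.mono_measure (Measure.restrict_mono hrb le_rfl)).integrable (by norm_num)
  obtain ⟨f', hf'c, hf'e⟩ := local_cont Ω hΩ f (dzb fx fy) hf hdzbloc (by
    intro φ h1 h2 h3
    obtain ⟨a1, a2⟩ := hw φ h1 h2 h3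
    have hφ' : Continuous (fderiv ℝ φ) := h1.continuous_fderiv (by simp)
    have hs : ∀ v : ℂ, HasCompactSupport (fun z => fderiv ℝ φ z v) ∧
        tsupport (fun z => fderiv ℝ φ z v) ⊆ Ω := by
      intro v
      have hsub : tsupport (fun z => fderiv ℝ φ z v) ⊆ tsupport φ := by
        apply closure_minimal _ (isClosed_tsupport φ)
        intro z hz
        by_contra hcon
        apply hz
        have : fderiv ℝ φ z = 0 := by
          have := support_fderiv_subset ℝ (f := φ)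
          by_contra h
          exact hcon (this h)
        simp [this]
      exact ⟨h2.mono' (subset_tsupport _ |>.trans hsub), hsub.trans h3⟩
    have b1 : Integrable (fun z => f z * fderiv ℝ φ z 1) :=
      hint_mul _ _ hf (hφ'.clm_apply continuous_const) (hs 1).1 (hs 1).2
    have b2 : Integrable (fun z => f z * fderiv ℝ φ z I) :=
      hint_mul _ _ hf (hφ'.clm_apply continuous_const) (hs I).1 (hs I).2
    have b3 : Integrable (fun z => fx z * φ z) := hint_mul _ _ hfxloc h1.continuous h2 h3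
    have b4 : Integrable (fun z => fy z * φ z) := hint_mul _ _ hfyloc h1.continuous h2 h3
    have c1 : (∫ z, f z * ((fderiv ℝ φ z 1 + I * fderiv ℝ φ z I) / 2)) =
        (1 / 2) * ((∫ z, f z * fderiv ℝ φ z 1) + I * ∫ z, f z * fderiv ℝ φ z I) := by
      rw [← integral_const_mul, ← integral_add b1 (b2.const_mul I), ← integral_const_mul]
      congr 1; funext z; ring
    have c2 : (∫ z, dzb fx fy z * φ z) =
        (1 / 2) * ((∫ z, fx z * φ z) + I * ∫ z, fy z * φ z) := by
      rw [← integral_const_mul, ← integral_add b3 (b4.const_mul I), ← integral_const_mul]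
      congr 1; funext z; unfold dzb; ring
    rw [c1, c2, a1, a2]; ring) z₀ r₂ m hr₂p (((hc2.trans hcb).trans hcbΩ)) hdzbB
  set U := ball z₀ r₂ with hU
  have hUsub : U ⊆ closedBall z₀ (2 * r₂) :=
    ball_subset_closedBall.trans (closedBall_subset_closedBall (by linarith))
  have hU1 : U ⊆ ball z₀ r₁ := (hUsub.trans hc2).trans hcb
  have hUΩ : U ⊆ Ω := hU1.trans hcbΩ
  have hWU : W U f' fx fy := by
    apply W_of_weak U isOpen_ball f' fx fy hf'c
      (hfx.mono_measure (Measure.restrict_mono hUΩ le_rfl))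
      (hfy.mono_measure (Measure.restrict_mono hUΩ le_rfl))
    intro φ h1 h2 h3
    obtain ⟨a1, a2⟩ := hw φ h1 h2 (h3.trans hUΩ)
    have hae : ∀ᵐ z, z ∈ U → f z = f' z := (ae_restrict_iff' measurableSet_ball).mp hf'e
    have key : ∀ v : ℂ, (∫ z, f' z * fderiv ℝ φ z v) = ∫ z, f z * fderiv ℝ φ z v := by
      intro v
      apply integral_congr_ae
      filter_upwards [hae] with z hz
      by_cases h : z ∈ U
      · rw [hz h]
      · have : fderiv ℝ φ z = 0 := by
          by_contra h'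
          exact h (h3 (support_fderiv_subset ℝ (f := φ) h'))
        simp [this]
    rw [key, key]
    exact ⟨a1, a2⟩
  obtain ⟨Φ, hΦ⟩ := hHd.isExactOn_ball
  have hLoc : Loc U f' fx fy Φ H m := {
    hU := isOpen_ball
    conv := convex_ball _ _
    w := hWU
    hΦ := fun z hz => hΦ z (hU1 hz)
    hm0 := by linarith
    hm := fun z hz => (hB z (hc2 (hUsub hz))).trans hBm
    prod := ae_restrict_of_ae_restrict_of_subset hU1 hHe
    le := ae_restrict_of_ae_restrict_of_subset hUΩ hle }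
  exact hLoc.limit2 z₀ (mem_ball_self hr₂p)

/-- If f on an open planar set has L² weak derivatives, its Hopf product f_z·conj(f_z̄) is weakly antiholomorphic-free (∂_z̄ of it is 0), and its Jacobian is ≥ 0 a.e., then ∣Df∣ agrees a.e. with a continuous function. -/
theorem result :
  ∀ (Ω : Set ℂ) (f fx fy : ℂ → ℂ), IsOpen Ω →
    MeasureTheory.LocallyIntegrableOn f Ω →
    MeasureTheory.MemLp fx 2 (MeasureTheory.volume.restrict Ω) →
    MeasureTheory.MemLp fy 2 (MeasureTheory.volume.restrict Ω) →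
    (∀ φ : ℂ → ℂ, ContDiff ℝ ((⊤ : ℕ∞) : WithTop ℕ∞) φ → HasCompactSupport φ → tsupport φ ⊆ Ω →
      ((∫ z, f z * fderiv ℝ φ z 1) = - ∫ z, fx z * φ z) ∧
      ((∫ z, f z * fderiv ℝ φ z Complex.I) = - ∫ z, fy z * φ z)) →
    (∀ φ : ℂ → ℂ, ContDiff ℝ ((⊤ : ℕ∞) : WithTop ℕ∞) φ → HasCompactSupport φ → tsupport φ ⊆ Ω →
      (∫ z, ((fx z - Complex.I * fy z) / 2 * (starRingEnd ℂ) ((fx z + Complex.I * fy z) / 2)) *
        ((fderiv ℝ φ z 1 + Complex.I * fderiv ℝ φ z Complex.I) / 2)) = 0) →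
    (∀ᵐ z ∂(MeasureTheory.volume.restrict Ω), ‖fx z + Complex.I * fy z‖ ≤ ‖fx z - Complex.I * fy z‖) →
    ∃ g : ℂ → ℝ, ContinuousOn g Ω ∧
      ∀ᵐ z ∂(MeasureTheory.volume.restrict Ω), g z = Real.sqrt (‖fx z‖ ^ 2 + ‖fy z‖ ^ 2) := by
  intro Ω f fx fy hΩ hf hfx hfy hw hH hJ
  apply cont_rep Ω hΩ (fun z => Real.sqrt (‖fx z‖ ^ 2 + ‖fy z‖ ^ 2))
  intro z₀ hz₀
  obtain ⟨l, hl⟩ := main_local Ω f fx fy hΩ hf hfx hfy hw hH hJ z₀ hz₀
  refine ⟨l, fun ε hε => ?_⟩
  rw [← ess_iff]
  have := Metric.tendsto_nhds.mp hl ε hε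
  filter_upwards [this] with z hz
  rwa [Real.dist_eq] at hz

end Pool.Agent.S02567
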