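import Pool.Statements.S02569
-- import your own Pool.Agent.* helpers here

set_option autoImplicit false
open Pool Pool.MP_09f91e_an

namespace Pool.Agent.S02569

/-- There are two positive isotropic conductivities and a 3D multiple rank laminate of them whose normalized field matrix has cofactor trace strictly positive on one cell and strictly negative on another. -/
theorem result :
    ∃ s1 s2 : ℝ, 0 < s1 ∧ 0 < s2 ∧
    ∃ L : List (ℝ × ℝ × Matrix (Fin 3) (Fin 3) ℝ),
      (∀ P : List (ℝ × ℝ × Matrix (Fin 3) (Fin 3) ℝ) → Prop,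
        P [((1 : ℝ), s1, (1 : Matrix (Fin 3) (Fin 3) ℝ))] →
        P [((1 : ℝ), s2, (1 : Matrix (Fin 3) (Fin 3) ℝ))] →
        (∀ A B : List (ℝ × ℝ × Matrix (Fin 3) (Fin 3) ℝ), P A → P B →
          ∀ t : ℝ, 0 < t → t < 1 →
          ∀ n : Fin 3 → ℝ, n ≠ 0 →
          ∀ EA EB : Matrix (Fin 3) (Fin 3) ℝ,
            t • EA + (1 - t) • EB = 1 →
            (∃ c : Fin 3 → ℝ, EA - EB = Matrix.vecMulVec n c) →
            Matrix.vecMul n
              ((A.map (fun p => (p.1 * p.2.1) • p.2.2)).sum * EA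
                - (B.map (fun p => (p.1 * p.2.1) • p.2.2)).sum * EB) = 0 →
            P (A.map (fun p => (t * p.1, p.2.1, p.2.2 * EA))
                ++ B.map (fun p => ((1 - t) * p.1, p.2.1, p.2.2 * EB)))) →
        P L) ∧
      ∃ a ∈ L, ∃ b ∈ L,
        0 < (Matrix.adjugate a.2.2).trace ∧ (Matrix.adjugate b.2.2).trace < 0 := by
  refine ⟨1, 101, by norm_num, by norm_num,
    [((3/20 : ℝ), (1 : ℝ), !![8/3, -65/14, 0; -5/18, 43/28, 0; 0, 0, 1]),
     ((1/20 : ℝ), (101 : ℝ), !![4/9, -5/14, 0; 5/6, -17/28, 0; 0, 0, 1]),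
     ((1/5 : ℝ), (1 : ℝ), !![43/18, 115/28, 0; 5/6, 73/28, 0; 0, 0, 1]),
     ((3/5 : ℝ), (101 : ℝ), !![1/6, -5/28, 0; -5/18, 13/28, 0; 0, 0, 1])], ?_, ?_⟩
  · intro P h1 h2 h
    -- first simple layering of the two phases
    have hA : P [((3/4 : ℝ), (1 : ℝ), !![24/19, -5/38, 0; -5/38, 81/76, 0; 0, 0, 1]),
        ((1/4 : ℝ), (101 : ℝ), !![4/19, 15/38, 0; 15/38, 61/76, 0; 0, 0, 1])] := by
      have key := h _ _ h1 h2 (3/4) (by norm_num) (by norm_num) ![2, -1, 0]
        (by intro h0; simpa using congrFun h0 0)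
        !![24/19, -5/38, 0; -5/38, 81/76, 0; 0, 0, 1]
        !![4/19, 15/38, 0; 15/38, 61/76, 0; 0, 0, 1]
        (by ext i j; fin_cases i <;> fin_cases j <;> norm_num [Matrix.one_apply])
        ⟨![10/19, -5/19, 0], by
          ext i j; fin_cases i <;> fin_cases j <;> norm_num [Matrix.vecMulVec_apply]⟩
        (by
          ext j; fin_cases j <;>
            norm_num [Matrix.vecMul, dotProduct, Fin.sum_univ_three, Matrix.one_apply,
              Matrix.cons_val_two, Matrix.tail_cons, Matrix.head_cons])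
      have e : (1 : ℝ) - 3/4 = 1/4 := by norm_num
      rw [List.map_cons, List.map_nil, List.map_cons, List.map_nil, List.cons_append,
        List.nil_append, e] at key
      simpa only [one_mul, mul_one] using key
    -- second simple layering of the two phases
    have hB : P [((1/4 : ℝ), (1 : ℝ), !![43/13, 15/13, 0; 15/13, 41/26, 0; 0, 0, 1]),
        ((3/4 : ℝ), (101 : ℝ), !![3/13, -5/13, 0; -5/13, 21/26, 0; 0, 0, 1])] := by
      have key := h _ _ h1 h2 (1/4) (by norm_num) (by norm_num) ![2, 1, 0]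
        (by intro h0; simpa using congrFun h0 0)
        !![43/13, 15/13, 0; 15/13, 41/26, 0; 0, 0, 1]
        !![3/13, -5/13, 0; -5/13, 21/26, 0; 0, 0, 1]
        (by ext i j; fin_cases i <;> fin_cases j <;> norm_num [Matrix.one_apply])
        ⟨![20/13, 10/13, 0], by
          ext i j; fin_cases i <;> fin_cases j <;> norm_num [Matrix.vecMulVec_apply]⟩
        (by
          ext j; fin_cases j <;>
            norm_num [Matrix.vecMul, dotProduct, Fin.sum_univ_three, Matrix.one_apply,
              Matrix.cons_val_two, Matrix.tail_cons, Matrix.head_cons])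
      have e : (1 : ℝ) - 1/4 = 3/4 := by norm_num
      rw [List.map_cons, List.map_nil, List.map_cons, List.map_nil, List.cons_append,
        List.nil_append, e] at key
      simpa only [one_mul, mul_one] using key
    -- rank-two layering
    have key := h _ _ hA hB (1/5) (by norm_num) (by norm_num) ![1, 0, 0]
      (by intro h0; simpa using congrFun h0 0)
      !![19/9, -25/7, 0; 0, 1, 0; 0, 0, 1]
      !![13/18, 25/28, 0; 0, 1, 0; 0, 0, 1]
      (by ext i j; fin_cases i <;> fin_cases j <;> norm_num [Matrix.one_apply])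
      ⟨![25/18, -125/28, 0], by
        ext i j; fin_cases i <;> fin_cases j <;> norm_num [Matrix.vecMulVec_apply]⟩
      (by
        ext j; fin_cases j <;>
          norm_num [Matrix.vecMul, dotProduct, Fin.sum_univ_three, Matrix.mul_apply,
            Matrix.cons_val_two, Matrix.tail_cons, Matrix.head_cons])
    have hE1 : (!![24/19, -5/38, 0; -5/38, 81/76, 0; 0, 0, 1] : Matrix (Fin 3) (Fin 3) ℝ)
        * !![19/9, -25/7, 0; 0, 1, 0; 0, 0, 1]
        = !![8/3, -65/14, 0; -5/18, 43/28, 0; 0, 0, 1] := by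
      ext i j; fin_cases i <;> fin_cases j <;>
        norm_num [Matrix.mul_apply, Fin.sum_univ_three, Matrix.cons_val_two,
          Matrix.tail_cons, Matrix.head_cons]
    have hE2 : (!![4/19, 15/38, 0; 15/38, 61/76, 0; 0, 0, 1] : Matrix (Fin 3) (Fin 3) ℝ)
        * !![19/9, -25/7, 0; 0, 1, 0; 0, 0, 1]
        = !![4/9, -5/14, 0; 5/6, -17/28, 0; 0, 0, 1] := by
      ext i j; fin_cases i <;> fin_cases j <;>
        norm_num [Matrix.mul_apply, Fin.sum_univ_three, Matrix.cons_val_two,
          Matrix.tail_cons, Matrix.head_cons]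
    have hE3 : (!![43/13, 15/13, 0; 15/13, 41/26, 0; 0, 0, 1] : Matrix (Fin 3) (Fin 3) ℝ)
        * !![13/18, 25/28, 0; 0, 1, 0; 0, 0, 1]
        = !![43/18, 115/28, 0; 5/6, 73/28, 0; 0, 0, 1] := by
      ext i j; fin_cases i <;> fin_cases j <;>
        norm_num [Matrix.mul_apply, Fin.sum_univ_three, Matrix.cons_val_two,
          Matrix.tail_cons, Matrix.head_cons]
    have hE4 : (!![3/13, -5/13, 0; -5/13, 21/26, 0; 0, 0, 1] : Matrix (Fin 3) (Fin 3) ℝ)
        * !![13/18, 25/28, 0; 0, 1, 0; 0, 0, 1]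
        = !![1/6, -5/28, 0; -5/18, 13/28, 0; 0, 0, 1] := by
      ext i j; fin_cases i <;> fin_cases j <;>
        norm_num [Matrix.mul_apply, Fin.sum_univ_three, Matrix.cons_val_two,
          Matrix.tail_cons, Matrix.head_cons]
    rw [List.map_cons, List.map_cons, List.map_nil, List.map_cons, List.map_cons, List.map_nil,
      List.cons_append, List.cons_append, List.nil_append, hE1, hE2, hE3, hE4] at key
    have f1 : (1/5 : ℝ) * (3/4) = 3/20 := by norm_num
    have f2 : (1/5 : ℝ) * (1/4) = 1/20 := by norm_num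
    have f3 : (1 - 1/5 : ℝ) * (1/4) = 1/5 := by norm_num
    have f4 : (1 - 1/5 : ℝ) * (3/4) = 3/5 := by norm_num
    rw [f1, f2, f3, f4] at key
    exact key
  · refine ⟨((3/20 : ℝ), (1 : ℝ), !![8/3, -65/14, 0; -5/18, 43/28, 0; 0, 0, 1]), by simp,
      ((1/20 : ℝ), (101 : ℝ), !![4/9, -5/14, 0; 5/6, -17/28, 0; 0, 0, 1]), by simp, ?_, ?_⟩
    · norm_num [Matrix.adjugate_fin_three, Matrix.trace, Fin.sum_univ_three,
        Matrix.cons_val_two, Matrix.tail_cons, Matrix.head_cons]
    · norm_num [Matrix.adjugate_fin_three, Matrix.trace, Fin.sum_univ_three,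
        Matrix.cons_val_two, Matrix.tail_cons, Matrix.head_cons]

end Pool.Agent.S02569
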