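import Pool.Statements.S02573
import Pool.Agent.Helper152.WavTrans

set_option autoImplicit false
open MeasureTheory
open Pool Pool.MP_0a5c67_an

namespace Pool.Agent.S02573

/-- The set of all ψ in complex L²(ℝ) whose functions 2^(j/2) ψ(2^j x − k), for integers j and k, form an orthonormal basis of L²(ℝ) is path connected in the L² norm. -/
theorem result :
    IsPathConnected {ψ : Lp ℂ 2 (volume : Measure ℝ) |
      ∃ b : HilbertBasis (ℤ × ℤ) ℂ (Lp ℂ 2 (volume : Measure ℝ)),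
        ∀ j k : ℤ, (⇑(b (j, k)) : ℝ → ℂ) =ᵐ[volume]
          fun x : ℝ => ((((2:ℝ) ^ ((j:ℝ) / 2)) : ℝ) : ℂ) * ψ ((2:ℝ) ^ j * x - (k:ℝ))} :=
  Pool.Agent.Helper152.WavTrans.SW_pathConnected

end Pool.Agent.S02573
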