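import Pool.Statements.S02577
import Pool.Agent.Helper37.HarmZ

set_option autoImplicit false
open Pool Pool.MP_0af9a5_an

namespace Pool.Agent.S02577

/-- If φ maps the unit circle homeomorphically onto a Jordan curve J and its Poisson extension sends the open disk into the bounded complementary domain D of J, then the extension is injective on the disk with image exactly D. -/
theorem result :
    ∀ φ : ℂ → ℂ, ContinuousOn φ (Metric.sphere (0:ℂ) 1) → Set.InjOn φ (Metric.sphere (0:ℂ) 1) →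
    ∀ P : ℂ → ℂ,
      (∀ z ∈ Metric.ball (0:ℂ) 1,
        P z = ((1 / (2 * Real.pi) : ℝ) : ℂ) *
          ∫ t in (0:ℝ)..(2 * Real.pi),
            (((1 - ‖z‖ ^ 2) / ‖Complex.exp ((t : ℂ) * Complex.I) - z‖ ^ 2 : ℝ) : ℂ) *
              φ (Complex.exp ((t : ℂ) * Complex.I))) →
      (∀ z ∈ Metric.ball (0:ℂ) 1,
        P z ∉ φ '' Metric.sphere (0:ℂ) 1 ∧
          Bornology.IsBounded (connectedComponentIn (φ '' Metric.sphere (0:ℂ) 1)ᶜ (P z))) →
      Set.InjOn P (Metric.ball (0:ℂ) 1) ∧
        P '' Metric.ball (0:ℂ) 1 =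
          {w : ℂ | w ∉ φ '' Metric.sphere (0:ℂ) 1 ∧
            Bornology.IsBounded (connectedComponentIn (φ '' Metric.sphere (0:ℂ) 1)ᶜ w)} := by
  intro φ hφ hinj P hP hin
  exact Pool.Agent.Helper37.Harm.main hφ hinj hP hin

end Pool.Agent.S02577
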