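import Pool.Statements.S02584

set_option autoImplicit false
open Pool Pool.MP_0bf850_an

namespace Pool.Agent.S02584

noncomputable section

abbrev E2 : Type := EuclideanSpace ℝ (Fin 2)

/-- radial profile -/
def hp (q r : ℝ) : ℝ := min (r / q) (q * Real.sqrt r)

/-- radial map -/
def rad (q : ℝ) (x : E2) : E2 := (hp q ‖x‖ / ‖x‖) • x

lemma rad_norm (q : ℝ) (hq : 0 < q) (x : E2) : ‖rad q x‖ = hp q ‖x‖ := by
  have h0 : 0 ≤ hp q ‖x‖ := by unfold hp; positivity
  by_cases hx : x = 0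
  · subst hx; simp [rad, hp]
  · have hx' : ‖x‖ ≠ 0 := norm_ne_zero_iff.mpr hx
    rw [rad, norm_smul, Real.norm_eq_abs, abs_div, abs_of_nonneg h0, abs_of_nonneg (norm_nonneg x)]
    field_simp

/-- the basic identity -/
lemma rad_sub_sq (q : ℝ) (x y : E2) :
    ‖rad q x - rad q y‖ ^ 2 = (hp q ‖x‖ / ‖x‖ * ‖x‖) ^ 2 + (hp q ‖y‖ / ‖y‖ * ‖y‖) ^ 2
      - 2 * ((hp q ‖x‖ / ‖x‖) * (hp q ‖y‖ / ‖y‖)) * inner ℝ x y := by
  rw [rad, rad, @norm_sub_sq_real, norm_smul, norm_smul, inner_smul_left, inner_smul_right]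
  simp only [Real.norm_eq_abs, mul_pow, sq_abs, conj_trivial]
  ring

lemma rad_upper (q : ℝ) (x y : E2) (L : ℝ) (hL : 0 ≤ L)
    (h1 : (hp q ‖x‖ / ‖x‖) * (hp q ‖y‖ / ‖y‖) ≤ L ^ 2)
    (h2 : (hp q ‖x‖ / ‖x‖ * ‖x‖ - hp q ‖y‖ / ‖y‖ * ‖y‖) ^ 2 ≤ L ^ 2 * (‖x‖ - ‖y‖) ^ 2) :
    ‖rad q x - rad q y‖ ≤ L * ‖x - y‖ := by
  have key : ‖rad q x - rad q y‖ ^ 2 ≤ (L * ‖x - y‖) ^ 2 := by
    rw [rad_sub_sq, mul_pow L, @norm_sub_sq_real]
    have ht : inner ℝ x y ≤ ‖x‖ * ‖y‖ := real_inner_le_norm x y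
    nlinarith [mul_nonneg (sub_nonneg.mpr h1) (sub_nonneg.mpr ht)]
  exact le_of_sq_le_sq key (by positivity)

lemma rad_lower (q : ℝ) (x y : E2) (L : ℝ)
    (h1 : L ^ 2 ≤ (hp q ‖x‖ / ‖x‖) * (hp q ‖y‖ / ‖y‖))
    (h2 : L ^ 2 * (‖x‖ - ‖y‖) ^ 2 ≤ (hp q ‖x‖ / ‖x‖ * ‖x‖ - hp q ‖y‖ / ‖y‖ * ‖y‖) ^ 2) :
    L * ‖x - y‖ ≤ ‖rad q x - rad q y‖ := by
  have key : (L * ‖x - y‖) ^ 2 ≤ ‖rad q x - rad q y‖ ^ 2 := by
    rw [rad_sub_sq, mul_pow, @norm_sub_sq_real]
    have ht : inner ℝ x y ≤ ‖x‖ * ‖y‖ := real_inner_le_norm x y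
    nlinarith [mul_nonneg (sub_nonneg.mpr h1) (sub_nonneg.mpr ht)]
  exact le_of_sq_le_sq key (by positivity)

/-- stretch factor -/
def mf (q r : ℝ) : ℝ := min (1 / q) (q / Real.sqrt r)

lemma hp_eq (q r : ℝ) (hr : 0 < r) : hp q r = mf q r * r := by
  unfold hp mf
  have hs : 0 < Real.sqrt r := Real.sqrt_pos.mpr hr
  rw [min_mul_of_nonneg _ _ hr.le]
  congr 1
  · ring
  · rw [div_mul_eq_mul_div, eq_div_iff hs.ne', mul_assoc, Real.mul_self_sqrt hr.le]

lemma hp_div (q r : ℝ) (hr : 0 < r) : hp q r / r = mf q r := by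
  rw [hp_eq q r hr, mul_div_assoc, div_self hr.ne', mul_one]

lemma mf_pos (q r : ℝ) (hq : 0 < q) (hr : 0 < r) : 0 < mf q r := by
  have hs : 0 < Real.sqrt r := Real.sqrt_pos.mpr hr
  unfold mf; positivity

lemma mf_anti (q : ℝ) (hq : 0 < q) (a b : ℝ) (hb : 0 < b) (hab : b ≤ a) : mf q a ≤ mf q b := by
  unfold mf
  have hs : 0 < Real.sqrt b := Real.sqrt_pos.mpr hb
  have : Real.sqrt b ≤ Real.sqrt a := Real.sqrt_le_sqrt hab
  exact min_le_min le_rfl (div_le_div_of_nonneg_left hq.le hs this)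

/-- lower slope estimate -/
lemma slope_lower (q : ℝ) (hq : 0 < q) (a b : ℝ) (hb : 0 < b) (hab : b ≤ a) :
    mf q a / 2 * (a - b) ≤ mf q a * a - mf q b * b := by
  have ha : 0 < a := hb.trans_le hab
  rw [← hp_eq q a ha, ← hp_eq q b hb]
  obtain ⟨A, hA, rfl⟩ : ∃ A : ℝ, 0 < A ∧ a = A ^ 2 :=
    ⟨Real.sqrt a, Real.sqrt_pos.mpr ha, (Real.sq_sqrt ha.le).symm⟩
  obtain ⟨B, hB, rfl⟩ : ∃ B : ℝ, 0 < B ∧ b = B ^ 2 :=
    ⟨Real.sqrt b, Real.sqrt_pos.mpr hb, (Real.sq_sqrt hb.le).symm⟩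
  have hAB : B ≤ A := by
    by_contra h
    push Not at h
    nlinarith
  unfold hp mf
  rw [Real.sqrt_sq hA.le, Real.sqrt_sq hB.le]
  -- min (A^2/q) (q*A)
  rcases le_total A (q ^ 2) with h | h
  · -- a in the linear part
    have e1 : min (A ^ 2 / q) (q * A) = A ^ 2 / q := by
      apply min_eq_left
      rw [div_le_iff₀ hq]; nlinarith
    have e2 : min (1 / q) (q / A) = 1 / q := by
      apply min_eq_left
      rw [div_le_div_iff₀ hq hA]; nlinarith
    have e3 : min (B ^ 2 / q) (q * B) ≤ B ^ 2 / q := min_le_left _ _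
    rw [e1, e2]
    have : 1 / q / 2 * (A ^ 2 - B ^ 2) ≤ A ^ 2 / q - B ^ 2 / q := by
      have h3 : A ^ 2 / q - B ^ 2 / q = 1 / q * (A ^ 2 - B ^ 2) := by ring
      rw [h3]
      have h4 : 0 ≤ 1 / q * (A ^ 2 - B ^ 2) := by
        apply mul_nonneg (by positivity); nlinarith
      nlinarith
    linarith
  · have e1 : min (A ^ 2 / q) (q * A) = q * A := by
      apply min_eq_right
      rw [le_div_iff₀ hq]; nlinarith
    have e2 : min (1 / q) (q / A) = q / A := by
      apply min_eq_right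
      rw [div_le_div_iff₀ hA hq]; nlinarith
    rw [e1, e2]
    have e3 : min (B ^ 2 / q) (q * B) ≤ q * B := min_le_right _ _
    have : q / A / 2 * (A ^ 2 - B ^ 2) ≤ q * A - q * B := by
      have : q / A / 2 * (A ^ 2 - B ^ 2) = (q * (A - B)) * ((A + B) / (2 * A)) := by
        field_simp
        ring
      rw [this]
      have h5 : (A + B) / (2 * A) ≤ 1 := by
        rw [div_le_one (by positivity)]; linarith
      have h6 : 0 ≤ q * (A - B) := mul_nonneg hq.le (by linarith)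
      nlinarith
    linarith

/-- upper estimate of the radial map -/
lemma rad_le (q : ℝ) (hq : 0 < q) (x y : E2) (hy : 0 < ‖y‖) (hxy : ‖y‖ ≤ ‖x‖) :
    ‖rad q x - rad q y‖ ≤ mf q ‖y‖ * ‖x - y‖ := by
  have hx : 0 < ‖x‖ := hy.trans_le hxy
  have hmx := mf_pos q ‖x‖ hq hx
  have hmy := mf_pos q ‖y‖ hq hy
  have han := mf_anti q hq _ _ hy hxy
  have hsl := slope_lower q hq _ _ hy hxy
  apply rad_upper q x y _ hmy.le
  · rw [hp_div q _ hx, hp_div q _ hy, sq]
    exact mul_le_mul_of_nonneg_right han hmy.le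
  · rw [hp_div q _ hx, hp_div q _ hy, ← mul_pow]
    apply pow_le_pow_left₀
    · have : 0 ≤ mf q ‖x‖ / 2 * (‖x‖ - ‖y‖) := mul_nonneg (by positivity) (by linarith)
      linarith
    · nlinarith

/-- lower estimate of the radial map -/
lemma le_rad (q : ℝ) (hq : 0 < q) (x y : E2) (hy : 0 < ‖y‖) (hxy : ‖y‖ ≤ ‖x‖) :
    mf q ‖x‖ / 2 * ‖x - y‖ ≤ ‖rad q x - rad q y‖ := by
  have hx : 0 < ‖x‖ := hy.trans_le hxy
  have hmx := mf_pos q ‖x‖ hq hx
  have hmy := mf_pos q ‖y‖ hq hy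
  have han := mf_anti q hq _ _ hy hxy
  have hsl := slope_lower q hq _ _ hy hxy
  apply rad_lower q x y _
  · rw [hp_div q _ hx, hp_div q _ hy]
    nlinarith
  · rw [hp_div q _ hx, hp_div q _ hy, ← mul_pow]
    apply pow_le_pow_left₀
    · exact mul_nonneg (by positivity) (by linarith)
    · exact hsl

lemma hp_le_pow (q r : ℝ) (hq : 0 < q) (hr : 0 < r) : hp q r ≤ r ^ (3 / 4 : ℝ) := by
  obtain ⟨s, hs, rfl⟩ : ∃ s : ℝ, 0 < s ∧ r = s ^ 4 := by
    refine ⟨r ^ (1 / 4 : ℝ), Real.rpow_pos_of_pos hr _, ?_⟩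
    rw [← Real.rpow_natCast, ← Real.rpow_mul hr.le]
    norm_num
  have e1 : (s ^ 4) ^ (3 / 4 : ℝ) = s ^ 3 := by
    rw [← Real.rpow_natCast, ← Real.rpow_mul hs.le, ← Real.rpow_natCast]
    norm_num
  have e2 : Real.sqrt (s ^ 4) = s ^ 2 := by
    rw [show s ^ 4 = (s ^ 2) ^ 2 by ring, Real.sqrt_sq (by positivity)]
  rw [e1]
  unfold hp
  rw [e2]
  rcases le_total s q with h | h
  · refine (min_le_left _ _).trans ?_
    rw [div_le_iff₀ hq]
    nlinarith [pow_pos hs 3]
  · refine (min_le_right _ _).trans ?_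
    nlinarith [pow_pos hs 2]

/-- displacement estimate -/
lemma hp_disp (q r : ℝ) (hq : 0 < q) (hq1 : q ≤ 1) (hr : 0 ≤ r) (hrR : r < q ^ 2) :
    r ≤ hp q r ∧ hp q r - r < (q ^ 2 - r) / 2 := by
  obtain ⟨A, hA, rfl⟩ : ∃ A : ℝ, 0 ≤ A ∧ r = A ^ 2 :=
    ⟨Real.sqrt r, Real.sqrt_nonneg r, (Real.sq_sqrt hr).symm⟩
  have hAq : A < q := by
    by_contra h
    push Not at h
    nlinarith
  unfold hp
  rw [Real.sqrt_sq hA]
  constructor
  · apply le_min
    · rw [le_div_iff₀ hq]; nlinarith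
    · nlinarith
  · have := min_le_right (A ^ 2 / q) (q * A)
    nlinarith [mul_pos (sub_pos.mpr hAq) (sub_pos.mpr hAq)]

lemma rad_disp (q : ℝ) (hq : 0 < q) (hq1 : q ≤ 1) (x : E2) (hx : ‖x‖ < q ^ 2) :
    ‖rad q x - x‖ < (q ^ 2 - ‖x‖) / 2 := by
  obtain ⟨h1, h2⟩ := hp_disp q ‖x‖ hq hq1 (norm_nonneg x) hx
  by_cases h0 : x = 0
  · subst h0
    simp [rad]
    positivity
  · have hx' : 0 < ‖x‖ := norm_pos_iff.mpr h0
    have : rad q x - x = ((hp q ‖x‖ - ‖x‖) / ‖x‖) • x := by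
      rw [rad, sub_div, div_self hx'.ne', sub_smul, one_smul]
    rw [this, norm_smul, Real.norm_eq_abs, abs_div, abs_of_nonneg (sub_nonneg.mpr h1),
      abs_of_pos hx', div_mul_cancel₀ _ hx'.ne']
    exact h2

/-- Hoelder estimate of the radial map -/
lemma rad_holder_aux (q : ℝ) (hq : 0 < q) (x y : E2) (hxy : ‖y‖ ≤ ‖x‖) :
    ‖rad q x - rad q y‖ ≤ 4 * ‖x - y‖ ^ (3 / 4 : ℝ) := by
  by_cases h0 : x = y
  · subst h0
    simp
  have hd : 0 < ‖x - y‖ := norm_pos_iff.mpr (sub_ne_zero.mpr h0)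
  have hx : 0 < ‖x‖ := by
    rcases (norm_nonneg x).lt_or_eq with h | h
    · exact h
    · exfalso
      apply h0
      have h1 : x = 0 := norm_eq_zero.mp h.symm
      have h2 : y = 0 := norm_eq_zero.mp (le_antisymm (h ▸ hxy) (norm_nonneg y))
      rw [h1, h2]
  rcases le_or_gt ‖x‖ (2 * ‖x - y‖) with h | h
  · -- crude case
    have hmono : ∀ a b : ℝ, 0 ≤ b → b ≤ a → hp q b ≤ hp q a := by
      intro a b _ hab
      unfold hp
      apply min_le_min
      · exact div_le_div_of_nonneg_right hab hq.le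
      · exact mul_le_mul_of_nonneg_left (Real.sqrt_le_sqrt hab) hq.le
    have e1 : ‖rad q x - rad q y‖ ≤ 2 * hp q (2 * ‖x - y‖) := by
      calc ‖rad q x - rad q y‖ ≤ ‖rad q x‖ + ‖rad q y‖ := norm_sub_le _ _
        _ = hp q ‖x‖ + hp q ‖y‖ := by rw [rad_norm q hq, rad_norm q hq]
        _ ≤ hp q (2 * ‖x - y‖) + hp q (2 * ‖x - y‖) :=
            add_le_add (hmono _ _ (norm_nonneg _) h) (hmono _ _ (norm_nonneg _) (hxy.trans h))
        _ = _ := by ring
    have e2 := hp_le_pow q (2 * ‖x - y‖) hq (by positivity)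
    have e3 : (2 * ‖x - y‖) ^ (3 / 4 : ℝ) ≤ 2 * ‖x - y‖ ^ (3 / 4 : ℝ) := by
      rw [Real.mul_rpow (by norm_num) hd.le]
      apply mul_le_mul_of_nonneg_right _ (by positivity)
      calc (2 : ℝ) ^ (3 / 4 : ℝ) ≤ 2 ^ (1 : ℝ) :=
            Real.rpow_le_rpow_of_exponent_le (by norm_num) (by norm_num)
        _ = 2 := by norm_num
    linarith
  · have hy : ‖x - y‖ ≤ ‖y‖ := by
      have := norm_sub_norm_le x y
      linarith
    have hy0 : 0 < ‖y‖ := hd.trans_le hy
    calc ‖rad q x - rad q y‖ ≤ mf q ‖y‖ * ‖x - y‖ := rad_le q hq x y hy0 hxy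
      _ ≤ mf q ‖x - y‖ * ‖x - y‖ :=
          mul_le_mul_of_nonneg_right (mf_anti q hq _ _ hd hy) hd.le
      _ = hp q ‖x - y‖ := (hp_eq q _ hd).symm
      _ ≤ ‖x - y‖ ^ (3 / 4 : ℝ) := hp_le_pow q _ hq hd
      _ ≤ 4 * ‖x - y‖ ^ (3 / 4 : ℝ) := by
          have : 0 ≤ ‖x - y‖ ^ (3 / 4 : ℝ) := by positivity
          linarith

lemma rad_holder (q : ℝ) (hq : 0 < q) (x y : E2) :
    ‖rad q x - rad q y‖ ≤ 4 * ‖x - y‖ ^ (3 / 4 : ℝ) := by
  rcases le_total ‖y‖ ‖x‖ with h | h
  · exact rad_holder_aux q hq x y h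
  · rw [norm_sub_rev, norm_sub_rev x y]
    exact rad_holder_aux q hq y x h

/-- linear part -/
lemma rad_inner (q : ℝ) (hq : 0 < q) (x : E2) (hx : ‖x‖ ≤ q ^ 4) : rad q x = (1 / q) • x := by
  by_cases h0 : x = 0
  · subst h0; simp [rad]
  have hx0 : 0 < ‖x‖ := norm_pos_iff.mpr h0
  rw [rad, hp_div q _ hx0]
  congr 1
  unfold mf
  apply min_eq_left
  have hs : 0 < Real.sqrt ‖x‖ := Real.sqrt_pos.mpr hx0
  rw [div_le_div_iff₀ hq hs]
  have : Real.sqrt ‖x‖ ≤ q ^ 2 := by
    rw [show q ^ 2 = Real.sqrt ((q ^ 2) ^ 2) by rw [Real.sqrt_sq (by positivity)]]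
    apply Real.sqrt_le_sqrt
    calc ‖x‖ ≤ q ^ 4 := hx
      _ = (q ^ 2) ^ 2 := by ring
  nlinarith

/-- comparison of the stretch factors at radii t/2 and 2t -/
lemma mf_compare (q t : ℝ) (hq : 0 < q) (ht : 0 < t) : mf q (t / 2) ≤ 2 * mf q (2 * t) := by
  unfold mf
  have h1 : Real.sqrt (2 * t) = 2 * Real.sqrt (t / 2) := by
    rw [show 2 * t = 2 ^ 2 * (t / 2) by ring, Real.sqrt_mul (by norm_num), Real.sqrt_sq (by norm_num)]
  have hs : 0 < Real.sqrt (t / 2) := Real.sqrt_pos.mpr (by positivity)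
  rw [h1, mul_min_of_nonneg _ _ (by norm_num)]
  apply min_le_min
  · have : 0 < 1 / q := by positivity
    linarith
  · apply le_of_eq
    field_simp

/-- parameters of the discs -/
def qq (i : ℕ) : ℝ := 1 / (2 * ((i : ℝ) + 1))

/-- centres of the discs -/
def cc (i : ℕ) : E2 := EuclideanSpace.single 0 (1 / ((i : ℝ) + 1))

lemma qq_pos (i : ℕ) : 0 < qq i := by unfold qq; positivity

lemma qq_le (i : ℕ) : qq i ≤ 1 := by
  unfold qq
  rw [div_le_one (by positivity)]
  have : (0 : ℝ) ≤ i := Nat.cast_nonneg i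
  linarith

lemma dist_cc (i j : ℕ) : ‖cc i - cc j‖ = |1 / ((i : ℝ) + 1) - 1 / ((j : ℝ) + 1)| := by
  unfold cc
  rw [EuclideanSpace.norm_eq, Fin.sum_univ_two]
  simp [Real.sqrt_sq_eq_abs]

lemma disj_aux (i j : ℕ) (h : i < j) : qq i ^ 2 + qq j ^ 2 ≤ ‖cc i - cc j‖ := by
  rw [dist_cc]
  refine le_trans ?_ (le_abs_self _)
  unfold qq
  have hi : (0 : ℝ) < (i : ℝ) + 1 := by positivity
  have hj : (i : ℝ) + 1 ≤ j := by exact_mod_cast h
  set a : ℝ := (i : ℝ) + 1 with ha
  set b : ℝ := (j : ℝ) + 1 with hb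
  have hab : a + 1 ≤ b := by linarith
  have hb0 : 0 < b := by linarith
  have ha1 : 1 ≤ a := by
    have : (0 : ℝ) ≤ i := Nat.cast_nonneg i
    linarith
  have e : 1 / a - 1 / b = (b - a) / (a * b) := by field_simp
  rw [e]
  have h1 : (1 / (2 * b)) ^ 2 ≤ (1 / (2 * a)) ^ 2 := by
    apply pow_le_pow_left₀ (by positivity)
    apply one_div_le_one_div_of_le (by positivity)
    linarith
  have h2 : (1 / (2 * a)) ^ 2 + (1 / (2 * a)) ^ 2 ≤ (b - a) / (a * b) := by
    have : (1 / (2 * a)) ^ 2 + (1 / (2 * a)) ^ 2 = 1 / (2 * a ^ 2) := by field_simp; norm_num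
    rw [this, div_le_div_iff₀ (by positivity) (by positivity)]
    nlinarith [mul_nonneg (sub_nonneg.mpr hab) (sub_nonneg.mpr ha1), mul_pos hi hi]
  linarith

lemma disj (i j : ℕ) (h : i ≠ j) : qq i ^ 2 + qq j ^ 2 ≤ ‖cc i - cc j‖ := by
  rcases lt_or_gt_of_ne h with h | h
  · exact disj_aux i j h
  · rw [norm_sub_rev, add_comm]
    exact disj_aux j i h

lemma disc_unique (x : E2) (i j : ℕ) (hi : ‖x - cc i‖ < qq i ^ 2) (hj : ‖x - cc j‖ < qq j ^ 2) :
    i = j := by
  by_contra h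
  have h1 := disj i j h
  have h2 : ‖cc i - cc j‖ ≤ ‖x - cc i‖ + ‖x - cc j‖ := by
    have : cc i - cc j = (x - cc j) - (x - cc i) := by abel
    rw [this]
    have := norm_sub_le (x - cc j) (x - cc i)
    linarith
  linarith

open Classical in
/-- the map: identity off the discs, a radial stretch on each disc -/
def ff (x : E2) : E2 :=
  if h : ∃ i, ‖x - cc i‖ < qq i ^ 2 then cc h.choose + rad (qq h.choose) (x - cc h.choose) else x

lemma ff_in (i : ℕ) (x : E2) (h : ‖x - cc i‖ < qq i ^ 2) :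
    ff x = cc i + rad (qq i) (x - cc i) := by
  have hex : ∃ i, ‖x - cc i‖ < qq i ^ 2 := ⟨i, h⟩
  have e : hex.choose = i := disc_unique x _ _ hex.choose_spec h
  rw [ff, dif_pos hex, e]

lemma ff_out (x : E2) (h : ∀ i, ¬ ‖x - cc i‖ < qq i ^ 2) : ff x = x := by
  rw [ff, dif_neg (by push Not; push Not at h; exact h)]

lemma ff_disp_in (i : ℕ) (x : E2) (h : ‖x - cc i‖ < qq i ^ 2) :
    ‖ff x - x‖ < (qq i ^ 2 - ‖x - cc i‖) / 2 := by
  rw [ff_in i x h]
  have := rad_disp (qq i) (qq_pos i) (qq_le i) (x - cc i) h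
  have e : cc i + rad (qq i) (x - cc i) - x = rad (qq i) (x - cc i) - (x - cc i) := by abel
  rw [e]
  exact this

/-- if `x` lies in a disc which does not contain `y`, the displacement at `x` is controlled -/
lemma disp_lt (i : ℕ) (x y : E2) (hx : ‖x - cc i‖ < qq i ^ 2) (hy : ¬ ‖y - cc i‖ < qq i ^ 2) :
    ‖ff x - x‖ < ‖x - y‖ / 2 := by
  have h1 := ff_disp_in i x hx
  have h2 : ‖y - cc i‖ ≤ ‖x - cc i‖ + ‖x - y‖ := by
    have : y - cc i = (x - cc i) - (x - y) := by abel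
    rw [this]
    exact norm_sub_le _ _
  push Not at hy
  linarith

/-- if no disc contains both `x` and `y`, the displacement at `x` is controlled -/
lemma disp_le (x y : E2) (h : ∀ i, ‖x - cc i‖ < qq i ^ 2 → ¬ ‖y - cc i‖ < qq i ^ 2) :
    ‖ff x - x‖ ≤ ‖x - y‖ / 2 := by
  by_cases hx : ∃ i, ‖x - cc i‖ < qq i ^ 2
  · obtain ⟨i, hi⟩ := hx
    exact (disp_lt i x y hi (h i hi)).le
  · rw [ff_out x (by push Not at hx; simpa using hx)]
    simp
    positivity

lemma ff_inj : Function.Injective ff := by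
  intro x y hxy
  by_contra hne
  by_cases hx : ∃ i, ‖x - cc i‖ < qq i ^ 2 ∧ ‖y - cc i‖ < qq i ^ 2
  · obtain ⟨i, hi, hj⟩ := hx
    rw [ff_in i x hi, ff_in i y hj] at hxy
    have h1 : rad (qq i) (x - cc i) = rad (qq i) (y - cc i) := add_left_cancel hxy
    have key : ∀ u v : E2, u ≠ v → ‖v‖ ≤ ‖u‖ → rad (qq i) u ≠ rad (qq i) v := by
      intro u v huv hle heq
      have hu : 0 < ‖u‖ := by
        rcases (norm_nonneg u).lt_or_eq with h | h
        · exact h
        · exfalso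
          apply huv
          have h1 : u = 0 := norm_eq_zero.mp h.symm
          have h2 : v = 0 := norm_eq_zero.mp (le_antisymm (h ▸ hle) (norm_nonneg v))
          rw [h1, h2]
      rcases (norm_nonneg v).lt_or_eq with h | h
      · have h2 := le_rad (qq i) (qq_pos i) u v h hle
        rw [heq, sub_self, norm_zero] at h2
        have h3 := mf_pos (qq i) ‖u‖ (qq_pos i) hu
        have h4 : 0 < ‖u - v‖ := norm_pos_iff.mpr (sub_ne_zero.mpr huv)
        nlinarith
      · have h2 : v = 0 := norm_eq_zero.mp h.symm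
        subst h2
        have h3 := rad_norm (qq i) (qq_pos i) u
        rw [heq, rad_norm (qq i) (qq_pos i), hp_eq _ _ hu] at h3
        have h4 := mf_pos (qq i) ‖u‖ (qq_pos i) hu
        have h5 : hp (qq i) ‖(0 : E2)‖ = 0 := by simp [hp]
        rw [h5] at h3
        have : 0 < mf (qq i) ‖u‖ * ‖u‖ := mul_pos h4 hu
        linarith
    have hne' : x - cc i ≠ y - cc i := fun h => hne (sub_left_inj.mp h)
    rcases le_total ‖y - cc i‖ ‖x - cc i‖ with h | h
    · exact key _ _ hne' h h1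
    · exact key _ _ hne'.symm h h1.symm
  · push Not at hx
    have hx1 : ∀ i, ‖x - cc i‖ < qq i ^ 2 → ¬ ‖y - cc i‖ < qq i ^ 2 := by
      intro i hi; exact not_lt.mpr (hx i hi)
    have hy1 : ∀ i, ‖y - cc i‖ < qq i ^ 2 → ¬ ‖x - cc i‖ < qq i ^ 2 := by
      intro i hi hi'; exact hx1 i hi' hi
    have hd : 0 < ‖x - y‖ := norm_pos_iff.mpr (sub_ne_zero.mpr hne)
    have htri : ‖x - y‖ ≤ ‖ff x - x‖ + ‖ff y - y‖ := by
      have : x - y = (ff y - y) - (ff x - x) := by rw [hxy]; abel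
      rw [this]
      have := norm_sub_le (ff y - y) (ff x - x)
      linarith
    have e1 := disp_le x y hx1
    have e2 := disp_le y x hy1
    rw [norm_sub_rev y x] at e2
    -- one of the two is strict unless both are outside
    by_cases hxi : ∃ i, ‖x - cc i‖ < qq i ^ 2
    · obtain ⟨i, hi⟩ := hxi
      have := disp_lt i x y hi (hx1 i hi)
      linarith
    · rw [ff_out x (by push Not at hxi; simpa using hxi)] at htri
      simp at htri
      linarith

/-- global modulus of continuity -/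
lemma ff_modulus (x y : E2) : ‖ff x - ff y‖ ≤ 4 * ‖x - y‖ ^ (3 / 4 : ℝ) + 2 * ‖x - y‖ := by
  by_cases hx : ∃ i, ‖x - cc i‖ < qq i ^ 2 ∧ ‖y - cc i‖ < qq i ^ 2
  · obtain ⟨i, hi, hj⟩ := hx
    rw [ff_in i x hi, ff_in i y hj, add_sub_add_left_eq_sub]
    have := rad_holder (qq i) (qq_pos i) (x - cc i) (y - cc i)
    rw [sub_sub_sub_cancel_right] at this
    have h2 := norm_nonneg (x - y)
    linarith
  · push Not at hx
    have hx1 : ∀ i, ‖x - cc i‖ < qq i ^ 2 → ¬ ‖y - cc i‖ < qq i ^ 2 := by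
      intro i hi; exact not_lt.mpr (hx i hi)
    have hy1 : ∀ i, ‖y - cc i‖ < qq i ^ 2 → ¬ ‖x - cc i‖ < qq i ^ 2 := by
      intro i hi hi'; exact hx1 i hi' hi
    have e1 := disp_le x y hx1
    have e2 := disp_le y x hy1
    rw [norm_sub_rev y x] at e2
    have htri : ‖ff x - ff y‖ ≤ ‖ff x - x‖ + ‖x - y‖ + ‖ff y - y‖ := by
      have : ff x - ff y = (ff x - x) + (x - y) - (ff y - y) := by abel
      rw [this]
      refine (norm_sub_le _ _).trans ?_
      have := norm_add_le (ff x - x) (x - y)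
      linarith
    have : 0 ≤ ‖x - y‖ ^ (3 / 4 : ℝ) := by positivity
    linarith

lemma ff_cont : Continuous ff := by
  rw [continuous_iff_continuousAt]
  intro x
  rw [ContinuousAt, tendsto_iff_norm_sub_tendsto_zero]
  have h1 : Filter.Tendsto (fun y : E2 => 4 * ‖y - x‖ ^ (3 / 4 : ℝ) + 2 * ‖y - x‖) (nhds x) (nhds 0) := by
    have hc : Continuous (fun y : E2 => 4 * ‖y - x‖ ^ (3 / 4 : ℝ) + 2 * ‖y - x‖) := by
      have : Continuous (fun y : E2 => ‖y - x‖) := by fun_prop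
      exact (continuous_const.mul (this.rpow_const (fun _ => Or.inr (by norm_num)))).add
        (continuous_const.mul this)
    have := hc.tendsto x
    simpa using this
  exact squeeze_zero (fun y => norm_nonneg _) (fun y => ff_modulus y x) h1

lemma ff_holder (K : Set E2) (hK : IsCompact K) : ∃ C : ℝ, ∀ x ∈ K, ∀ y ∈ K,
    dist (ff x) (ff y) ≤ C * dist x y ^ (3 / 4 : ℝ) := by
  obtain ⟨D, hD⟩ := hK.isBounded.exists_norm_le
  have hD' : ∀ x ∈ K, ∀ y ∈ K, ‖x - y‖ ≤ 2 * D := by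
    intro x hx y hy
    have := norm_sub_le x y
    linarith [hD x hx, hD y hy]
  refine ⟨4 + 2 * (2 * |D|) ^ (1 / 4 : ℝ), fun x hx y hy => ?_⟩
  rw [dist_eq_norm, dist_eq_norm]
  have h1 := ff_modulus x y
  have h2 : ‖x - y‖ ≤ (2 * |D|) ^ (1 / 4 : ℝ) * ‖x - y‖ ^ (3 / 4 : ℝ) := by
    rcases (norm_nonneg (x - y)).lt_or_eq with h | h
    · calc ‖x - y‖ = ‖x - y‖ ^ (1 / 4 : ℝ) * ‖x - y‖ ^ (3 / 4 : ℝ) := by
            rw [← Real.rpow_add h]; norm_num
        _ ≤ _ := by
            apply mul_le_mul_of_nonneg_right _ (by positivity)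
            apply Real.rpow_le_rpow h.le _ (by norm_num)
            exact (hD' x hx y hy).trans (by linarith [le_abs_self D])
    · rw [← h]
      rw [Real.zero_rpow (by norm_num)]
      simp
  calc ‖ff x - ff y‖ ≤ 4 * ‖x - y‖ ^ (3 / 4 : ℝ) + 2 * ‖x - y‖ := h1
    _ ≤ 4 * ‖x - y‖ ^ (3 / 4 : ℝ) + 2 * ((2 * |D|) ^ (1 / 4 : ℝ) * ‖x - y‖ ^ (3 / 4 : ℝ)) := by linarith
    _ = _ := by ring

/-- bounded linear dilatation -/
lemma ff_dil (x : E2) : ∀ᶠ r in nhdsWithin (0:ℝ) (Set.Ioi 0),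
    ∀ y z : E2, dist y x = r → dist z x = r → dist (ff y) (ff x) ≤ 4 * dist (ff z) (ff x) := by
  by_cases hx : ∃ i, ‖x - cc i‖ < qq i ^ 2
  · obtain ⟨i, hi⟩ := hx
    set u := x - cc i with hu
    have hq := qq_pos i
    by_cases ht : ‖u‖ < qq i ^ 4
    · have hev : ∀ᶠ r in nhdsWithin (0:ℝ) (Set.Ioi 0), r < min (qq i ^ 4 - ‖u‖) (qq i ^ 2 - ‖u‖) :=
        nhdsWithin_le_nhds (Iio_mem_nhds (by apply lt_min <;> linarith))
      filter_upwards [hev] with r hr y z hy hz
      have hr1 := hr.trans_le (min_le_left _ _)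
      have hr2 := hr.trans_le (min_le_right _ _)
      have gen : ∀ w : E2, dist w x = r → dist (ff w) (ff x) = (1 / qq i) * r := by
        intro w hw
        rw [dist_eq_norm] at hw
        have hw1 : ‖w - cc i‖ ≤ ‖u‖ + r := by
          have : w - cc i = u + (w - x) := by rw [hu]; abel
          rw [this, ← hw]
          exact norm_add_le _ _
        rw [dist_eq_norm, ff_in i w (by linarith), ff_in i x hi, add_sub_add_left_eq_sub,
          rad_inner _ hq _ (by linarith), rad_inner _ hq _ ht.le, ← smul_sub, norm_smul,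
          sub_sub_sub_cancel_right, hw, Real.norm_eq_abs, abs_of_pos (by positivity)]
      rw [gen y hy, gen z hz]
      have : 0 ≤ r := by rw [← hy]; exact dist_nonneg
      have : 0 ≤ (1 / qq i) * r := by positivity
      linarith
    · push Not at ht
      have hu0 : 0 < ‖u‖ := lt_of_lt_of_le (by positivity) ht
      have hev : ∀ᶠ r in nhdsWithin (0:ℝ) (Set.Ioi 0), r < min (‖u‖ / 2) (qq i ^ 2 - ‖u‖) :=
        nhdsWithin_le_nhds (Iio_mem_nhds (by apply lt_min <;> linarith))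
      filter_upwards [hev, self_mem_nhdsWithin] with r hr hr0 y z hy hz
      have hr1 := hr.trans_le (min_le_left _ _)
      have hr2 := hr.trans_le (min_le_right _ _)
      have hr0' : 0 < r := hr0
      have gen : ∀ w : E2, dist w x = r → dist (ff w) (ff x) ≤ mf (qq i) (‖u‖ / 2) * r ∧
          mf (qq i) (2 * ‖u‖) / 2 * r ≤ dist (ff w) (ff x) := by
        intro w hw
        rw [dist_eq_norm] at hw
        set v := w - cc i with hv
        have hw1 : ‖v‖ ≤ ‖u‖ + r := by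
          have : w - cc i = u + (w - x) := by rw [hu]; abel
          rw [hv, this, ← hw]
          exact norm_add_le _ _
        have hw2 : ‖u‖ - r ≤ ‖v‖ := by
          have : u = v - (w - x) := by rw [hu, hv]; abel
          have h3 : ‖u‖ ≤ ‖v‖ + r := by
            rw [this, ← hw]
            exact norm_sub_le _ _
          linarith
        have hvr : ‖v - u‖ = r := by
          rw [hu, hv, sub_sub_sub_cancel_right, hw]
        have hv0 : 0 < ‖v‖ := by linarith
        rw [dist_eq_norm, ff_in i w (by rw [← hv]; linarith), ff_in i x hi, add_sub_add_left_eq_sub]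
        rcases le_total ‖u‖ ‖v‖ with h | h
        · have a1 := rad_le (qq i) hq v u hu0 h
          have a2 := le_rad (qq i) hq v u hu0 h
          rw [hvr] at a1 a2
          have a3 := mf_anti (qq i) hq ‖u‖ (‖u‖ / 2) (by linarith) (by linarith)
          have a4 := mf_anti (qq i) hq (2 * ‖u‖) ‖v‖ hv0 (by linarith)
          constructor
          · exact a1.trans (mul_le_mul_of_nonneg_right a3 hr0'.le)
          · refine le_trans ?_ a2
            exact mul_le_mul_of_nonneg_right (by linarith) hr0'.le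
        · have a1 := rad_le (qq i) hq u v hv0 h
          have a2 := le_rad (qq i) hq u v hv0 h
          rw [norm_sub_rev u v, hvr] at a1 a2
          rw [norm_sub_rev]
          have a3 := mf_anti (qq i) hq ‖v‖ (‖u‖ / 2) (by linarith) (by linarith)
          have a4 := mf_anti (qq i) hq (2 * ‖u‖) ‖u‖ hu0 (by linarith)
          constructor
          · exact a1.trans (mul_le_mul_of_nonneg_right a3 hr0'.le)
          · refine le_trans ?_ a2
            exact mul_le_mul_of_nonneg_right (by linarith) hr0'.le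
      obtain ⟨g1, -⟩ := gen y hy
      obtain ⟨-, g2⟩ := gen z hz
      have g3 := mf_compare (qq i) ‖u‖ hq hu0
      have g4 : mf (qq i) (‖u‖ / 2) * r ≤ 2 * mf (qq i) (2 * ‖u‖) * r :=
        mul_le_mul_of_nonneg_right g3 hr0'.le
      linarith
  · push Not at hx
    have hx' : ∀ i, ¬ ‖x - cc i‖ < qq i ^ 2 := fun i => not_lt.mpr (hx i)
    refine Filter.Eventually.of_forall fun r y z hy hz => ?_
    have gen : ∀ w : E2, dist w x = r → |dist (ff w) (ff x) - r| ≤ r / 2 := by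
      intro w hw
      have h1 : ‖ff w - w‖ ≤ ‖w - x‖ / 2 := disp_le w x (fun i _ => hx' i)
      rw [dist_eq_norm] at hw
      rw [dist_eq_norm, ff_out x hx']
      rw [hw] at h1
      have h2 : |‖ff w - x‖ - ‖w - x‖| ≤ ‖ff w - w‖ := by
        have := abs_norm_sub_norm_le (ff w - x) (w - x)
        rwa [sub_sub_sub_cancel_right] at this
      rw [hw] at h2
      linarith
    have g1 := abs_le.mp (gen y hy)
    have g2 := abs_le.mp (gen z hz)
    have : 0 ≤ r := by rw [← hy]; exact dist_nonneg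
    linarith [g1.1, g1.2, g2.1, g2.2]

/-- the weak derivative is at least `1 / q` on the inner discs -/
lemma inner_lower (g : E2 → (E2 →L[ℝ] E2)) (hg1 : MeasureTheory.LocallyIntegrableOn g Set.univ)
    (hg3 : ∀ φ : E2 → ℝ, ContDiff ℝ (⊤ : ℕ∞) φ →
        HasCompactSupport φ → tsupport φ ⊆ Set.univ →
        ∀ v : E2,
          ∫ x, (fderiv ℝ φ x v) • ff x = - ∫ x, φ x • (g x v)) (i : ℕ) :
    ∀ᵐ x : E2, x ∈ Metric.ball (cc i) (qq i ^ 4) → 1 / qq i ≤ ‖g x‖ := by
  have hq := qq_pos i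
  have hq1 := qq_le i
  have hgl : MeasureTheory.LocallyIntegrable g := MeasureTheory.locallyIntegrableOn_univ.mp hg1
  set v : E2 := EuclideanSpace.single 0 1 with hv
  have hvn : ‖v‖ = 1 := by rw [hv]; simp
  have hgv : MeasureTheory.LocallyIntegrable (fun x => g x v) := by
    intro x
    obtain ⟨s, hs, hs'⟩ := hgl x
    exact ⟨s, hs, (ContinuousLinearMap.apply ℝ E2 v).integrable_comp hs'⟩
  have hcl : MeasureTheory.LocallyIntegrable (fun _ : E2 => (1 / qq i) • v) :=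
    continuous_const.locallyIntegrable
  have main : ∀ᵐ x : E2, x ∈ Metric.ball (cc i) (qq i ^ 4) → g x v - (1 / qq i) • v = 0 := by
    apply Metric.isOpen_ball.ae_eq_zero_of_integral_contDiff_smul_eq_zero
    · exact (hgv.sub hcl).locallyIntegrableOn _
    · intro φ hφ hφc hφs
      have i1 : MeasureTheory.Integrable (fun x => φ x • g x v) :=
        hgv.integrable_smul_left_of_hasCompactSupport hφ.continuous hφc
      have i2 : MeasureTheory.Integrable (fun x => φ x • ((1 / qq i) • v)) :=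
        hcl.integrable_smul_left_of_hasCompactSupport hφ.continuous hφc
      have e0 : ∫ x, φ x • (g x v - (1 / qq i) • v)
          = (∫ x, φ x • g x v) - ∫ x, φ x • ((1 / qq i) • v) := by
        rw [← MeasureTheory.integral_sub i1 i2]
        congr 1
        ext1 x
        rw [smul_sub]
      -- the affine map
      set A : E2 → E2 := fun x => cc i + (1 / qq i) • (x - cc i) with hA
      have hAd : ∀ x, HasFDerivAt A ((1 / qq i) • ContinuousLinearMap.id ℝ E2) x := by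
        intro x
        have := ((hasFDerivAt_id (𝕜 := ℝ) x).sub_const (cc i)).const_smul (1 / qq i)
        exact this.const_add (cc i)
      have hAf : ∀ x, fderiv ℝ A x v = (1 / qq i) • v := by
        intro x
        rw [(hAd x).fderiv]
        simp
      have hAc : Continuous A := by rw [hA]; fun_prop
      have hφ1 : Continuous (fun x => fderiv ℝ φ x v) :=
        (hφ.continuous_fderiv (by simp)).clm_apply continuous_const
      have hφ2 : HasCompactSupport (fun x => fderiv ℝ φ x v) :=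
        hφc.fderiv_apply (𝕜 := ℝ) v
      have i3 : MeasureTheory.Integrable (fun x => fderiv ℝ φ x v • A x) :=
        hAc.locallyIntegrable.integrable_smul_left_of_hasCompactSupport hφ1 hφ2
      have i4 : MeasureTheory.Integrable (fun x => φ x • A x) :=
        hAc.locallyIntegrable.integrable_smul_left_of_hasCompactSupport hφ.continuous hφc
      have ibp := integral_smul_fderiv_eq_neg_fderiv_smul_of_integrable (μ := MeasureTheory.volume)
        (f := φ) (g := A) (v := v) i3 (by simpa [hAf] using i2) i4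
        (fun x _ => (hφ.differentiable (by simp)).differentiableAt)
        (fun x _ => (hAd x).differentiableAt)
      have e1 : ∫ x, φ x • ((1 / qq i) • v) = - ∫ x, fderiv ℝ φ x v • A x := by
        rw [← ibp]
        congr 1
        ext1 x
        rw [hAf]
      have e2 : ∫ x, fderiv ℝ φ x v • A x = ∫ x, fderiv ℝ φ x v • ff x := by
        congr 1
        ext1 x
        by_cases hx : x ∈ tsupport φ
        · have hxb := hφs hx
          rw [Metric.mem_ball, dist_eq_norm] at hxb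
          have hxb2 : ‖x - cc i‖ < qq i ^ 2 := by
            have : qq i ^ 4 ≤ qq i ^ 2 := pow_le_pow_of_le_one hq.le hq1 (by norm_num)
            linarith
          rw [ff_in i x hxb2, rad_inner _ hq _ hxb.le]
        · have hz : fderiv ℝ φ x = 0 := by
            by_contra hne
            exact hx (support_fderiv_subset ℝ (Function.mem_support.mpr hne))
          rw [hz]
          simp
      have e3 := hg3 φ hφ hφc (Set.subset_univ _) v
      rw [e0, e1, e2, e3]
      simp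
  filter_upwards [main] with x hx hxb
  have h1 := sub_eq_zero.mp (hx hxb)
  have h2 : ‖g x v‖ = 1 / qq i := by
    rw [h1, norm_smul, hvn, mul_one, Real.norm_eq_abs, abs_of_pos (by positivity)]
  have h3 := (g x).le_opNorm v
  rw [hvn, mul_one] at h3
  rw [← h2]
  exact h3

lemma tsum_qq : ∑' i, ENNReal.ofReal (qq i) = ⊤ := by
  by_contra h
  have h1 : Summable (fun i => (qq i)) := by
    have h2 : Summable (fun i => (Real.toNNReal (qq i))) :=
      ENNReal.tsum_coe_ne_top_iff_summable.mp h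
    have h3 := NNReal.summable_coe.mpr h2
    refine h3.congr fun i => ?_
    rw [Real.coe_toNNReal _ (qq_pos i).le]
  have h2 : Summable (fun i : ℕ => (1 : ℝ) / ((i + 1 : ℕ) : ℝ)) := by
    have := h1.mul_left 2
    refine this.congr fun i => ?_
    unfold qq
    push_cast
    field_simp
  rw [summable_nat_add_iff (f := fun i : ℕ => (1 : ℝ) / (i : ℝ)) 1] at h2
  exact Real.not_summable_one_div_natCast h2

end

/-- The negation of the preceding statement: For n≥2, every injective continuous map on an open set of ℝⁿ with bounded linear dilatation that is locally α-Hölder has a locally p-integrable weak derivative on that set for every p with n<p<n/(1−α). -/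
theorem result :
    ¬ (∀ (n : ℕ), 2 ≤ n →
  ∀ (Ω : Set (EuclideanSpace ℝ (Fin n))), IsOpen Ω →
  ∀ (f : EuclideanSpace ℝ (Fin n) → EuclideanSpace ℝ (Fin n)),
    ContinuousOn f Ω → Set.InjOn f Ω →
    (∃ H : ℝ, ∀ x ∈ Ω, ∀ᶠ r in nhdsWithin (0:ℝ) (Set.Ioi 0),
        ∀ y z : EuclideanSpace ℝ (Fin n), dist y x = r → dist z x = r →
          dist (f y) (f x) ≤ H * dist (f z) (f x)) →
  ∀ α : ℝ, 0 < α → α ≤ 1 →
    (∀ K ⊆ Ω, IsCompact K → ∃ C : ℝ, ∀ x ∈ K, ∀ y ∈ K,
        dist (f x) (f y) ≤ C * dist x y ^ α) →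
  ∀ p : ℝ, (n : ℝ) < p → p * (1 - α) < (n : ℝ) →
    ∃ g : EuclideanSpace ℝ (Fin n) →
        (EuclideanSpace ℝ (Fin n) →L[ℝ] EuclideanSpace ℝ (Fin n)),
      MeasureTheory.LocallyIntegrableOn g Ω ∧
      (∀ K ⊆ Ω, IsCompact K → ∫⁻ x in K, ENNReal.ofReal ‖g x‖ ^ p < ⊤) ∧
      ∀ φ : EuclideanSpace ℝ (Fin n) → ℝ, ContDiff ℝ (⊤ : ℕ∞) φ →
        HasCompactSupport φ → tsupport φ ⊆ Ω →
        ∀ v : EuclideanSpace ℝ (Fin n),
          ∫ x, (fderiv ℝ φ x v) • f x = - ∫ x, φ x • (g x v)) := by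
  intro H
  obtain ⟨g, hg1, hg2, hg3⟩ := H 2 le_rfl Set.univ isOpen_univ ff ff_cont.continuousOn
    ff_inj.injOn ⟨4, fun x _ => ff_dil x⟩ (3 / 4) (by norm_num) (by norm_num)
    (fun K _ hK => ff_holder K hK) 7 (by norm_num) (by norm_num)
  have hfin := hg2 (Metric.closedBall 0 3) (Set.subset_univ _) (isCompact_closedBall 0 3)
  have hsub : (⋃ i, Metric.ball (cc i) (qq i ^ 4)) ⊆ Metric.closedBall (0 : E2) 3 := by
    intro x hx
    obtain ⟨i, hi⟩ := Set.mem_iUnion.mp hx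
    rw [Metric.mem_ball, dist_eq_norm] at hi
    rw [Metric.mem_closedBall, dist_zero_right]
    have h1 : ‖cc i‖ ≤ 1 := by
      have : ‖cc i‖ = 1 / ((i : ℝ) + 1) := by
        unfold cc
        have hp0 : 0 < 1 / ((i : ℝ) + 1) := by positivity
        rw [EuclideanSpace.norm_eq, Fin.sum_univ_two]
        simp only [EuclideanSpace.single_apply, Real.norm_eq_abs, sq_abs]
        simp only [if_true, Fin.isValue, one_ne_zero, if_false]
        rw [show (0 : ℝ) ^ 2 = 0 by norm_num, add_zero, Real.sqrt_sq hp0.le]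
      rw [this, div_le_one (by positivity)]
      have : (0 : ℝ) ≤ i := Nat.cast_nonneg i
      linarith
    have h2 : qq i ^ 4 ≤ 1 := pow_le_one₀ (qq_pos i).le (qq_le i)
    have h3 : ‖x‖ ≤ ‖x - cc i‖ + ‖cc i‖ := by
      have := norm_add_le (x - cc i) (cc i)
      simpa using this
    linarith
  have hdisj : Pairwise (Function.onFun Disjoint (fun i => Metric.ball (cc i) (qq i ^ 4))) := by
    intro i j hij
    rw [Function.onFun, Set.disjoint_left]
    intro x hx hy
    rw [Metric.mem_ball, dist_eq_norm] at hx hy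
    apply hij
    apply disc_unique x i j
    · have : qq i ^ 4 ≤ qq i ^ 2 := pow_le_pow_of_le_one (qq_pos i).le (qq_le i) (by norm_num)
      linarith
    · have : qq j ^ 4 ≤ qq j ^ 2 := pow_le_pow_of_le_one (qq_pos j).le (qq_le j) (by norm_num)
      linarith
  have hle : ∫⁻ x in ⋃ i, Metric.ball (cc i) (qq i ^ 4), ENNReal.ofReal ‖g x‖ ^ (7 : ℝ) ≤
      ∫⁻ x in Metric.closedBall (0 : E2) 3, ENNReal.ofReal ‖g x‖ ^ (7 : ℝ) :=
    MeasureTheory.lintegral_mono_set hsub
  rw [MeasureTheory.lintegral_iUnion (fun i => Metric.isOpen_ball.measurableSet) hdisj] at hle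
  have hterm : ∀ i, MeasureTheory.volume (Metric.ball (0 : E2) 1) * ENNReal.ofReal (qq i) ≤
      ∫⁻ x in Metric.ball (cc i) (qq i ^ 4), ENNReal.ofReal ‖g x‖ ^ (7 : ℝ) := by
    intro i
    have hq := qq_pos i
    have h1 := inner_lower g hg1 hg3 i
    have h2 : ∫⁻ _ in Metric.ball (cc i) (qq i ^ 4), ENNReal.ofReal (1 / qq i) ^ (7 : ℝ) ≤
        ∫⁻ x in Metric.ball (cc i) (qq i ^ 4), ENNReal.ofReal ‖g x‖ ^ (7 : ℝ) := by
      apply MeasureTheory.setLIntegral_mono_ae' Metric.isOpen_ball.measurableSet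
      filter_upwards [h1] with x hx hxb
      exact ENNReal.rpow_le_rpow (ENNReal.ofReal_le_ofReal (hx hxb)) (by norm_num)
    refine le_trans ?_ h2
    have hr4 : (0 : ℝ) < qq i ^ 4 := by positivity
    rw [MeasureTheory.setLIntegral_const,
      MeasureTheory.Measure.addHaar_ball_of_pos MeasureTheory.volume (cc i) hr4,
      ENNReal.ofReal_rpow_of_pos (by positivity)]
    rw [mul_comm (ENNReal.ofReal _ ) (_ * _), mul_comm (ENNReal.ofReal _) (MeasureTheory.volume _),
      mul_assoc, ← ENNReal.ofReal_mul (by positivity)]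
    gcongr
    rw [show (7 : ℝ) = ((7 : ℕ) : ℝ) by norm_num, Real.rpow_natCast]
    have : Module.finrank ℝ E2 = 2 := by simp
    rw [this]
    apply le_of_eq
    field_simp
  have htop : (⊤ : ENNReal) ≤ ∑' i, ∫⁻ x in Metric.ball (cc i) (qq i ^ 4), ENNReal.ofReal ‖g x‖ ^ (7 : ℝ) := by
    calc (⊤ : ENNReal) = MeasureTheory.volume (Metric.ball (0 : E2) 1) * ∑' i, ENNReal.ofReal (qq i) := by
          rw [tsum_qq, ENNReal.mul_top]
          exact (Metric.measure_ball_pos _ _ (by norm_num)).ne'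
      _ = ∑' i, MeasureTheory.volume (Metric.ball (0 : E2) 1) * ENNReal.ofReal (qq i) := by
          rw [ENNReal.tsum_mul_left]
      _ ≤ _ := ENNReal.tsum_le_tsum hterm
  exact absurd (htop.trans hle) (not_le.mpr hfin)

end Pool.Agent.S02584
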