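import Pool.Statements.S02586
import Pool.Agent.Helper233.BA.Limit

set_option autoImplicit false
open Pool Pool.MP_0c4bbf_an

namespace Pool.Agent.S02586

/-- The negation of the preceding statement: For every n and every compact K in the unit sphere of ℂ^n that is not the exact zero set in the closed ball of a ball-algebra function, some point of the closed ball outside K is a common zero of all ball-algebra functions vanishing on K. -/
theorem result :
    ¬ (∀ (n : ℕ) (K : Set (EuclideanSpace ℂ (Fin n))),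
      IsCompact K →
      K ⊆ Metric.sphere (0 : EuclideanSpace ℂ (Fin n)) 1 →
      (¬ ∃ f : EuclideanSpace ℂ (Fin n) → ℂ,
          ContinuousOn f (Metric.closedBall (0 : EuclideanSpace ℂ (Fin n)) 1) ∧
          DifferentiableOn ℂ f (Metric.ball (0 : EuclideanSpace ℂ (Fin n)) 1) ∧
          {z | z ∈ Metric.closedBall (0 : EuclideanSpace ℂ (Fin n)) 1 ∧ f z = 0} = K) →
      ∃ z ∈ Metric.closedBall (0 : EuclideanSpace ℂ (Fin n)) 1, z ∉ K ∧
        ∀ f : EuclideanSpace ℂ (Fin n) → ℂ,
          ContinuousOn f (Metric.closedBall (0 : EuclideanSpace ℂ (Fin n)) 1) →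
          DifferentiableOn ℂ f (Metric.ball (0 : EuclideanSpace ℂ (Fin n)) 1) →
          (∀ w ∈ K, f w = 0) → f z = 0) := by
  intro H
  obtain ⟨z, hz, hzK, hall⟩ := H 2 Pool.Agent.Helper233.BA.KK Pool.Agent.Helper233.BA.KK_compact
    Pool.Agent.Helper233.BA.KK_sphere Pool.Agent.Helper233.BA.not_Z
  obtain ⟨M, hM⟩ := Pool.Agent.Helper233.BA.GG_ne z hz hzK
  exact hM (hall (Pool.Agent.Helper233.BA.GG M) (Pool.Agent.Helper233.BA.GG_contOn M)
    (Pool.Agent.Helper233.BA.GG_diffOn M) (fun w hw => Pool.Agent.Helper233.BA.GG_zero M w hw))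

end Pool.Agent.S02586
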