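import Pool.Statements.S02588
import Pool.Agent.Helper459.FLFin

set_option autoImplicit false
open scoped MeasureTheory
open Pool Pool.MP_0c60fc_an

namespace Pool.Agent.S02588

/-- The negation of the preceding statement: For every n, every compact totally disconnected set X in C^n with finite 1-dimensional Hausdorff measure is polynomially convex: each point outside X is separated from X by a polynomial whose modulus there exceeds its modulus everywhere on X. -/
theorem result :
    ¬ (∀ (n : ℕ) (X : Set (EuclideanSpace ℂ (Fin n))),
      IsCompact X → IsTotallyDisconnected X → μH[1] X < ⊤ →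
      ∀ z : EuclideanSpace ℂ (Fin n), z ∉ X →
        ∃ p : MvPolynomial (Fin n) ℂ,
          ∀ x ∈ X, ‖MvPolynomial.eval (fun i => WithLp.ofLp x i) p‖ <
            ‖MvPolynomial.eval (fun i => WithLp.ofLp z i) p‖) := by
  exact Pool.Agent.Helper459.FL.final

end Pool.Agent.S02588
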