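import Pool.Statements.S02590
import Pool.Agent.Helper348.WDTransfer

set_option autoImplicit false
open Pool Pool.MP_0cfab1_an

namespace Pool.Agent.S02590

/-- The negation of the preceding statement: For every non-discrete LCA group G and compact Helson set E that is not of synthesis, there is an algebra splitting of C(E) into A(G)/J_E lifting restriction to E, i.e. A(G)/J_E = M ⊕ I_E/J_E for a subalgebra M. -/
theorem result :
    ¬ (∀ (G : Type) [CommGroup G] [TopologicalSpace G] [IsTopologicalGroup G]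
    [LocallyCompactSpace G] [T2Space G],
    ¬ DiscreteTopology G →
    ∀ [MeasurableSpace (PontryaginDual G)] [BorelSpace (PontryaginDual G)]
      (μ : MeasureTheory.Measure (PontryaginDual G)) [μ.IsHaarMeasure],
    ∀ (inA : (G → ℂ) → Prop),
      (∀ f, inA f ↔ ∃ φ : PontryaginDual G → ℂ, MeasureTheory.Integrable φ μ ∧
        ∀ x, f x = ∫ χ, φ χ * ((χ x : Circle) : ℂ) ∂μ) →
    ∀ (E : Set G), IsCompact E →
    ∀ (J : (G → ℂ) → Prop),
      (∀ f, J f ↔ ∀ ε : ℝ, 0 < ε → ∃ g : G → ℂ, inA g ∧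
        (∃ U : Set G, IsOpen U ∧ E ⊆ U ∧ ∀ x ∈ U, g x = 0) ∧
        ∃ φ : PontryaginDual G → ℂ, MeasureTheory.Integrable φ μ ∧
          ∫ χ, ‖φ χ‖ ∂μ < ε ∧
          ∀ x, f x - g x = ∫ χ, φ χ * ((χ x : Circle) : ℂ) ∂μ) →
    (∀ u : C(↥E, ℂ), ∃ f, inA f ∧ ∀ x (hx : x ∈ E), f x = u ⟨x, hx⟩) →
    (∃ f, inA f ∧ (∀ x ∈ E, f x = 0) ∧ ¬ J f) →
    ∃ θ : C(↥E, ℂ) → (G → ℂ),
      (∀ u, inA (θ u)) ∧
      (∀ u x (hx : x ∈ E), θ u x = u ⟨x, hx⟩) ∧
      (∀ u v, J (θ (u + v) - θ u - θ v)) ∧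
      (∀ (c : ℂ) u, J (θ (c • u) - c • θ u)) ∧
      (∀ u v, J (θ (u * v) - θ u * θ v))) := by
  intro h
  obtain ⟨E, hE, hHel, f₀, hf₀A, hf₀0, hf₀J⟩ := WD.helson_nonsynth
  obtain ⟨Φ, hΦ⟩ := WD.transfer
  -- a representing function of small norm gives a Walsh series of small norm
  have hR : ∀ (f : WD.G → ℂ) (ε : ℝ), (∃ φ : PontryaginDual WD.G → ℂ,
      MeasureTheory.Integrable φ MeasureTheory.Measure.count ∧
      ∫ χ, ‖φ χ‖ ∂MeasureTheory.Measure.count < ε ∧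
      ∀ x, f x = ∫ χ, φ χ * ((χ x : Circle) : ℂ) ∂MeasureTheory.Measure.count) → WD.R ε f := by
    rintro f ε ⟨φ, h1, h2, h3⟩
    obtain ⟨k1, k2, k3⟩ := hΦ φ
    have hs := k1.1 h1
    refine ⟨fun S => φ (Φ S), hs, ?_, fun x => ?_⟩
    · rcases k2 with k2 | k2
      · rw [← k2]; exact h2.le
      · exact absurd hs k2
    · rw [h3 x, k3 hs x]
  have hA : ∀ f : WD.G → ℂ, (∃ φ : PontryaginDual WD.G → ℂ,
      MeasureTheory.Integrable φ MeasureTheory.Measure.count ∧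
      ∀ x, f x = ∫ χ, φ χ * ((χ x : Circle) : ℂ) ∂MeasureTheory.Measure.count) ↔ WD.A f := by
    intro f
    constructor
    · rintro ⟨φ, h1, h2⟩
      exact ⟨_, hR f (∫ χ, ‖φ χ‖ ∂MeasureTheory.Measure.count + 1) ⟨φ, h1, by linarith, h2⟩⟩
    · rintro ⟨c, a, h1, _, h3⟩
      obtain ⟨k1, k2, k3⟩ := hΦ (fun χ => a (Φ.symm χ))
      have hs : Summable (fun S => ‖a (Φ.symm (Φ S))‖) := by
        simpa only [Equiv.symm_apply_apply] using h1
      refine ⟨fun χ => a (Φ.symm χ), k1.2 hs, fun x => ?_⟩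
      rw [k3 hs x, h3 x]
      simp only [Equiv.symm_apply_apply]
  let J : (WD.G → ℂ) → Prop := fun f => ∀ ε : ℝ, 0 < ε → ∃ g : WD.G → ℂ,
    (∃ φ : PontryaginDual WD.G → ℂ,
      MeasureTheory.Integrable φ MeasureTheory.Measure.count ∧
      ∀ x, g x = ∫ χ, φ χ * ((χ x : Circle) : ℂ) ∂MeasureTheory.Measure.count) ∧
    (∃ U : Set WD.G, IsOpen U ∧ E ⊆ U ∧ ∀ x ∈ U, g x = 0) ∧
    ∃ φ : PontryaginDual WD.G → ℂ, MeasureTheory.Integrable φ MeasureTheory.Measure.count ∧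
      ∫ χ, ‖φ χ‖ ∂MeasureTheory.Measure.count < ε ∧
      ∀ x, f x - g x = ∫ χ, φ χ * ((χ x : Circle) : ℂ) ∂MeasureTheory.Measure.count
  have hJ : ∀ f, J f → WD.JE E f := by
    intro f hf ε hε
    obtain ⟨g, _, ⟨U, hU, hEU, hg⟩, hφ⟩ := hf ε hε
    refine ⟨fun x => f x - g x, hR _ ε hφ, U, hU, hEU, fun x hx => ?_⟩
    show f x = f x - g x
    rw [hg x hx, sub_zero]
  obtain ⟨θ, t1, t2, t3, t4, t5⟩ := h WD.G WD.not_discrete_G MeasureTheory.Measure.count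
    (fun f => ∃ φ : PontryaginDual WD.G → ℂ,
      MeasureTheory.Integrable φ MeasureTheory.Measure.count ∧
      ∀ x, f x = ∫ χ, φ χ * ((χ x : Circle) : ℂ) ∂MeasureTheory.Measure.count)
    (fun f => Iff.rfl) E hE.isCompact J (fun f => Iff.rfl)
    (fun u => by
      obtain ⟨f, hf, hf2⟩ := hHel u
      exact ⟨f, (hA f).2 hf, hf2⟩)
    ⟨f₀, (hA f₀).2 hf₀A, hf₀0, fun hc => hf₀J (hJ f₀ hc)⟩
  refine hf₀J (WD.split_synth (θ := θ) hE ⟨fun u => (hA _).1 (t1 u), t2, ?_, ?_, ?_⟩ hf₀A hf₀0)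
  · intro u v; exact hJ _ (t3 u v)
  · intro c u; exact hJ _ (t4 c u)
  · intro u v; exact hJ _ (t5 u v)

end Pool.Agent.S02590
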