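import Pool.Statements.S02593
import Pool.Agent.Helper827.B11

set_option autoImplicit false
open Pool Pool.MP_0d212c_an

namespace Pool.Agent.S02593

/-- Every real Banach space in which each separable subspace has separable dual (an Asplund space) admits a C^1 Fréchet-smooth real function that is not identically zero and has bounded support. -/
theorem result :
    ∀ (E : Type) [NormedAddCommGroup E] [NormedSpace ℝ E] [CompleteSpace E],
      (∀ F : Submodule ℝ E, TopologicalSpace.IsSeparable (F : Set E) →
          TopologicalSpace.SeparableSpace (F →L[ℝ] ℝ)) →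
      ∃ f : E → ℝ, ContDiff ℝ 1 f ∧ (∃ x, f x ≠ 0) ∧
        Bornology.IsBounded (Function.support f) := by
  intro E _ _ _ hA
  obtain ⟨b, b1, -, b3, b4⟩ := Pool.Agent.Helper827.B.asplund_bump (X := E) hA
  exact ⟨b, b1, ⟨0, b3⟩, b4⟩

end Pool.Agent.S02593
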