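import Pool.Statements.S02598
import Pool.Agent.Helper544.UM5

set_option autoImplicit false
open Pool Pool.MP_0dbd65_an

namespace Pool.Agent.S02598

/-- The negation of the preceding statement: There exist n > 2 and an n-dimensional real vector subspace of continuous functions ℝ → ℝ in which every nonzero function attains its global maximum at exactly one point. -/
theorem result :
    ¬ (∃ n : ℕ, 2 < n ∧ ∃ V : Submodule ℝ (ContinuousMap ℝ ℝ),
      Module.finrank ℝ V = n ∧
      ∀ f ∈ V, f ≠ 0 → ∃! x : ℝ, ∀ y : ℝ, f y ≤ f x) := by
  rintro ⟨n, hn, V, hV, hmax⟩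
  exact Pool.Agent.Helper544.UM.main hn hV hmax

end Pool.Agent.S02598
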