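import Pool.Statements.S02600
import Pool.Agent.Helper56.Compress

set_option autoImplicit false
open Pool Pool.MP_0de7f2_an

namespace Pool.Agent.S02600

/-- The negation of the preceding statement: If T is a maximal triangular algebra on a complex Hilbert space (its diagonal T ∩ T* is a masa) and P ∈ T is an orthogonal projection, then the compression PTP on the range of P is a maximal triangular algebra there. -/
theorem result :
    ¬ (∀ (H : Type) [NormedAddCommGroup H] [InnerProductSpace ℂ H] [CompleteSpace H]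
    (T : Subalgebra ℂ (H →L[ℂ] H)),
    (Set.centralizer {x | x ∈ T ∧ star x ∈ T} = {x | x ∈ T ∧ star x ∈ T} ∧
      ∀ B : Subalgebra ℂ (H →L[ℂ] H), T ≤ B →
        Set.centralizer {x | x ∈ B ∧ star x ∈ B} = {x | x ∈ B ∧ star x ∈ B} → B = T) →
    ∀ (K : Submodule ℂ H) [CompleteSpace K],
      K.subtypeL ∘L K.orthogonalProjection ∈ T →
      ∃ S : Subalgebra ℂ (K →L[ℂ] K),
        (S : Set (K →L[ℂ] K)) =
          (fun A : H →L[ℂ] H => K.orthogonalProjection ∘L A ∘L K.subtypeL) ''
            (T : Set (H →L[ℂ] H)) ∧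
        Set.centralizer {x | x ∈ S ∧ star x ∈ S} = {x | x ∈ S ∧ star x ∈ S} ∧
        ∀ B : Subalgebra ℂ (K →L[ℂ] K), S ≤ B →
          Set.centralizer {x | x ∈ B ∧ star x ∈ B} = {x | x ∈ B ∧ star x ∈ B} → B = S) := by
  intro h
  obtain ⟨T, h0, hT, hmax⟩ := Helper56.exists_max Helper56.T0 Helper56.T0_tri
  exact Helper56.not_max T h0 hT
    (h (Helper56.H2 Helper56.K) T ⟨hT, hmax⟩ Helper56.K1 (h0 Helper56.proj_mem_T0))

end Pool.Agent.S02600
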