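import Pool.Statements.S02603
import Pool.Agent.Helper685.HG
-- import your own Pool.Agent.* helpers here

set_option autoImplicit false
open MeasureTheory
open Pool Pool.MP_0eb56c_an
open Pool.Agent.Helper685.HG

namespace Pool.Agent.S02603

/-- For every p with 2<p<∞ and every finite measure μ, there is a real Hilbert space H and a bounded linear operator from H into L^p(μ) whose range is dense. -/
theorem result :
    ∀ (p : ENNReal) [Fact (1 ≤ p)], 2 < p → p ≠ ⊤ →
      ∀ (α : Type) [MeasurableSpace α] (μ : Measure α) [IsFiniteMeasure μ],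
        ∃ (H : Type) (_ : NormedAddCommGroup H) (_ : InnerProductSpace ℝ H)
          (_ : CompleteSpace H) (T : H →L[ℝ] Lp ℝ p μ), DenseRange (⇑T) := by
  intro p _ _ hp α m0 μ _
  obtain ⟨m, hm⟩ := exists_nat_ge p.toReal
  obtain ⟨K, hK1, hK⟩ := pointwise m
  set c : ℝ := K⁻¹ with hc
  have hK0 : 0 < K := by linarith
  have hcpos : 0 < c := by positivity
  have hc1 : c ≤ 1 := inv_le_one_of_one_le₀ hK1
  have hcK : K * c ^ 2 ≤ 1 := by
    have : K * c ^ 2 = c := by rw [hc]; field_simp
    rw [this]; exact hc1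
  let ι : Type := {s : Set α // MeasurableSet s}
  let A : ι → Set α := fun s => s.1
  have hA : ∀ i, MeasurableSet (A i) := fun i => i.2
  obtain ⟨_, _⟩ := exists_wellFoundedLT (α := ι)
  have hD : ∀ S : Finset ι, MemLp (DD μ A c S) p μ := DD_memLp μ A c p hA hcpos.le hc1
  have hpm : p ≤ ((2 * (m + 1) : ℕ) : ENNReal) := by
    rw [← ENNReal.ofReal_toReal hp, ← ENNReal.ofReal_natCast]
    apply ENNReal.ofReal_le_ofReal
    push_cast
    have : (0 : ℝ) ≤ m := Nat.cast_nonneg m
    linarith
  obtain ⟨C, hC, hbound⟩ := norm_bound μ A c p hp hA m K hcpos.le hc1 hcK hK1 hK hpm hD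
  obtain ⟨T, hT⟩ := exists_op (fun S => (hD S).toLp (DD μ A c S)) C hbound hC
  refine ⟨lp (fun _ : Finset ι => ℝ) 2, inferInstance, inferInstance, inferInstance, T, ?_⟩
  have hsig : sig A Set.univ = m0 := by
    apply le_antisymm (sig_le A hA Set.univ)
    intro s hs
    exact sig_mem A (I := Set.univ) (i := ⟨s, hs⟩) trivial
  intro f
  have hfW : f ∈ WW μ A c p hD Set.univ := by
    have h1 : StronglyMeasurable[sig A Set.univ] (f : α → ℝ) := by
      rw [hsig]; exact Lp.stronglyMeasurable f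
    have h2 := P_all μ A c p hp hA hD hcpos.ne' f h1 (Lp.memLp f)
    rwa [Lp.toLp_coeFn] at h2
  have hle : WW μ A c p hD Set.univ ≤
      (LinearMap.range (T : lp (fun _ : Finset ι => ℝ) 2 →ₗ[ℝ] Lp ℝ p μ)).topologicalClosure := by
    apply Submodule.topologicalClosure_mono
    rw [Submodule.span_le]
    rintro v ⟨S, _, rfl⟩
    exact hT S
  have h3 := hle hfW
  have h4 : f ∈ closure ((LinearMap.range (T : lp (fun _ : Finset ι => ℝ) 2 →ₗ[ℝ] Lp ℝ p μ) :
      Submodule ℝ (Lp ℝ p μ)) : Set (Lp ℝ p μ)) := h3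
  rw [LinearMap.coe_range] at h4
  exact h4

end Pool.Agent.S02603
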