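import Pool.Statements.S02608
import Pool.Agent.Helper519.PFinal

set_option autoImplicit false
open MeasureTheory
open Pool Pool.MP_0f15b2_an

namespace Pool.Agent.S02608

/-- The negation of the preceding statement: For Banach-valued countably additive measures with finite, perfect variations and equal ranges, the first has a Pettis density with respect to its variation if and only if the second does. -/
theorem result :
    ¬ (∀ (X : Type) [NormedAddCommGroup X] [NormedSpace ℝ X] [CompleteSpace X]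
      (Ω₁ Ω₂ : Type) [MeasurableSpace Ω₁] [MeasurableSpace Ω₂]
      (ν₁ : VectorMeasure Ω₁ X) (ν₂ : VectorMeasure Ω₂ X)
      (μ₁ : Measure Ω₁) (μ₂ : Measure Ω₂),
      (∀ A : Set Ω₁, MeasurableSet A →
        μ₁ A = ⨆ (s : Finset (Set Ω₁))
          (_ : (∀ B ∈ s, MeasurableSet B ∧ B ⊆ A) ∧ (s : Set (Set Ω₁)).PairwiseDisjoint id),
          ∑ B ∈ s, ((‖ν₁ B‖₊ : NNReal) : ENNReal)) →
      (∀ A : Set Ω₂, MeasurableSet A →
        μ₂ A = ⨆ (s : Finset (Set Ω₂))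
          (_ : (∀ B ∈ s, MeasurableSet B ∧ B ⊆ A) ∧ (s : Set (Set Ω₂)).PairwiseDisjoint id),
          ∑ B ∈ s, ((‖ν₂ B‖₊ : NNReal) : ENNReal)) →
      IsFiniteMeasure μ₁ → IsFiniteMeasure μ₂ →
      {x : X | ∃ A : Set Ω₁, MeasurableSet A ∧ ν₁ A = x} =
        {x : X | ∃ A : Set Ω₂, MeasurableSet A ∧ ν₂ A = x} →
      (∀ f : Ω₁ → ℝ, Measurable f → ∃ B : Set ℝ, MeasurableSet B ∧ B ⊆ Set.range f ∧
        μ₁ (f ⁻¹' B) = μ₁ Set.univ) →
      (∀ f : Ω₂ → ℝ, Measurable f → ∃ B : Set ℝ, MeasurableSet B ∧ B ⊆ Set.range f ∧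
        μ₂ (f ⁻¹' B) = μ₂ Set.univ) →
      ((∃ g : Ω₁ → X, ∀ φ : X →L[ℝ] ℝ, Integrable (fun ω => φ (g ω)) μ₁ ∧
          ∀ A : Set Ω₁, MeasurableSet A → φ (ν₁ A) = ∫ ω in A, φ (g ω) ∂μ₁) ↔
       (∃ g : Ω₂ → X, ∀ φ : X →L[ℝ] ℝ, Integrable (fun ω => φ (g ω)) μ₂ ∧
          ∀ A : Set Ω₂, MeasurableSet A → φ (ν₂ A) = ∫ ω in A, φ (g ω) ∂μ₂))) := by
  intro h
  have h1 := h Helper519.Pettis.Xsub Helper519.Pettis.Om ℝ
    Helper519.Pettis.nu1 Helper519.Pettis.nu2 Helper519.Pettis.mu Helper519.Pettis.lam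
    (Helper519.Pettis.vm_variation Helper519.Pettis.mu Helper519.Pettis.measurable_fst
      Helper519.Pettis.map_fst)
    (Helper519.Pettis.vm_variation Helper519.Pettis.lam Helper519.Pettis.measurable_id'
      Helper519.Pettis.map_id')
    inferInstance inferInstance Helper519.Pettis.range_eq
    Helper519.Pettis.perfect_mu Helper519.Pettis.perfect_lam
  exact Helper519.Pettis.no_pettis2 (h1.1 Helper519.Pettis.pettis1)

end Pool.Agent.S02608
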