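import Pool.Statements.S02612
import Pool.Agent.TwoWell.QSide

set_option autoImplicit false
open Matrix
open Pool Pool.MP_0febd9_an MeasureTheory

namespace Pool.Agent.S02612

/-- The negation of the preceding statement: For every m and all two-well quadratic energies on 2×m matrices (self-adjoint positive definite moduli), the infimum of the cell average of W(F+∇u) over smooth periodic u equals the sup of g(F) over rank-one convex g below W. -/
theorem result :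
    ¬ (∀ (m : ℕ) (L₁ L₂ : Matrix (Fin 2) (Fin m) ℝ →ₗ[ℝ] Matrix (Fin 2) (Fin m) ℝ)
      (F₁ F₂ : Matrix (Fin 2) (Fin m) ℝ) (k₁ k₂ : ℝ),
      (∀ A B : Matrix (Fin 2) (Fin m) ℝ,
          Matrix.trace (A * (L₁ B)ᵀ) = Matrix.trace (L₁ A * Bᵀ)) →
      (∀ A B : Matrix (Fin 2) (Fin m) ℝ,
          Matrix.trace (A * (L₂ B)ᵀ) = Matrix.trace (L₂ A * Bᵀ)) →
      (∀ A : Matrix (Fin 2) (Fin m) ℝ, A ≠ 0 → 0 < Matrix.trace (A * (L₁ A)ᵀ)) →
      (∀ A : Matrix (Fin 2) (Fin m) ℝ, A ≠ 0 → 0 < Matrix.trace (A * (L₂ A)ᵀ)) →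
      ∀ F : Matrix (Fin 2) (Fin m) ℝ,
        sInf { q : ℝ | ∃ u : (Fin 2 → ℝ) → (Fin m → ℝ),
            ContDiff ℝ ((⊤ : ℕ∞) : WithTop ℕ∞) u ∧
            (∀ (x : Fin 2 → ℝ) (z : Fin 2 → ℤ), u (x + fun i => (z i : ℝ)) = u x) ∧
            q = ∫ x in Set.univ.pi (fun _ : Fin 2 => Set.Icc (0 : ℝ) 1),
                (fun H : Matrix (Fin 2) (Fin m) ℝ =>
                    min (Matrix.trace ((H - F₁) * (L₁ (H - F₁))ᵀ) + k₁)
                        (Matrix.trace ((H - F₂) * (L₂ (H - F₂))ᵀ) + k₂))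
                  (F + Matrix.of (fun (i : Fin 2) (α : Fin m) =>
                      fderiv ℝ u x (Pi.single i (1 : ℝ)) α)) }
        =
        sSup { r : ℝ | ∃ g : Matrix (Fin 2) (Fin m) ℝ → ℝ,
            (∀ (A : Matrix (Fin 2) (Fin m) ℝ) (a : Fin 2 → ℝ) (b : Fin m → ℝ),
                ConvexOn ℝ Set.univ (fun t : ℝ => g (A + t • Matrix.vecMulVec a b))) ∧
            (∀ H : Matrix (Fin 2) (Fin m) ℝ,
                g H ≤ min (Matrix.trace ((H - F₁) * (L₁ (H - F₁))ᵀ) + k₁)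
                          (Matrix.trace ((H - F₂) * (L₂ (H - F₂))ᵀ) + k₂)) ∧
            r = g F }) := by
  intro hmain
  obtain ⟨KA, KB, hKA, hKB, hconv⟩ := TwoWell.GG_convexOn
  obtain ⟨k, K, hk, hK, hle⟩ := TwoWell.GG_le KA KB
  obtain ⟨L1, sym1, pd1, eq1⟩ := TwoWell.exists_well k K hk hK 1 (Or.inl rfl)
  obtain ⟨L2, sym2, pd2, eq2⟩ := TwoWell.exists_well k K hk hK (-1) (Or.inr rfl)
  have hmain' := hmain 11 L1 L2 ((1 : ℝ) • TwoWell.Fst) ((-1 : ℝ) • TwoWell.Fst) (1 / 100) (1 / 100)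
    sym1 sym2 pd1 pd2 TwoWell.F0m
  obtain ⟨u, hu, hper, hint⟩ := TwoWell.Qside k K hk hK
  have nn1 : ∀ H, 0 ≤ Matrix.trace ((H - (1 : ℝ) • TwoWell.Fst) * (L1 (H - (1 : ℝ) • TwoWell.Fst))ᵀ) := by
    intro H
    by_cases h : H - (1 : ℝ) • TwoWell.Fst = 0
    · rw [h]; simp
    · exact (pd1 _ h).le
  have nn2 : ∀ H, 0 ≤ Matrix.trace ((H - (-1 : ℝ) • TwoWell.Fst) * (L2 (H - (-1 : ℝ) • TwoWell.Fst))ᵀ) := by
    intro H
    by_cases h : H - (-1 : ℝ) • TwoWell.Fst = 0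
    · rw [h]; simp
    · exact (pd2 _ h).le
  have hW : ∀ H : Matrix (Fin 2) (Fin 11) ℝ,
      min (Matrix.trace ((H - (1 : ℝ) • TwoWell.Fst) * (L1 (H - (1 : ℝ) • TwoWell.Fst))ᵀ) + 1 / 100)
          (Matrix.trace ((H - (-1 : ℝ) • TwoWell.Fst) * (L2 (H - (-1 : ℝ) • TwoWell.Fst))ᵀ) + 1 / 100)
        = min (TwoWell.Wv k K 1 (TwoWell.pp H) (TwoWell.ss H))
            (TwoWell.Wv k K (-1) (TwoWell.pp H) (TwoWell.ss H)) := by
    intro H
    rw [eq1 H, eq2 H]
  refine absurd hmain' (ne_of_lt (lt_of_le_of_lt (b := 4 / 5) ?_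
    (lt_of_lt_of_le (b := 208 / 243) (by norm_num) ?_)))
  · refine le_trans (b := ∫ x in Set.univ.pi (fun _ : Fin 2 => Set.Icc (0 : ℝ) 1),
                (fun H : Matrix (Fin 2) (Fin 11) ℝ =>
                    min (Matrix.trace ((H - (1 : ℝ) • TwoWell.Fst) *
                        (L1 (H - (1 : ℝ) • TwoWell.Fst))ᵀ) + 1 / 100)
                        (Matrix.trace ((H - (-1 : ℝ) • TwoWell.Fst) *
                        (L2 (H - (-1 : ℝ) • TwoWell.Fst))ᵀ) + 1 / 100))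
                  (TwoWell.F0m + Matrix.of (fun (i : Fin 2) (α : Fin 11) =>
                      fderiv ℝ u x (Pi.single i (1 : ℝ)) α))) (csInf_le ?_ ⟨u, hu, hper, rfl⟩) ?_
    · refine ⟨0, ?_⟩
      rintro q ⟨v, _, _, rfl⟩
      apply setIntegral_nonneg_of_ae
      exact Filter.Eventually.of_forall (fun x => le_min (add_nonneg (nn1 _) (by norm_num))
        (add_nonneg (nn2 _) (by norm_num)))
    · refine (le_of_eq ?_).trans hint
      apply integral_congr_ae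
      exact Filter.Eventually.of_forall (fun x => hW _)
  · have hval : (208 / 243 : ℝ) ≤ TwoWell.GG KA KB (TwoWell.pp TwoWell.F0m) (TwoWell.ss TwoWell.F0m) := by
      rw [TwoWell.pp_F0m, TwoWell.ss_F0m]
      exact TwoWell.JR11.GG_val KA KB
    refine hval.trans (le_csSup ?_ ⟨fun H => TwoWell.GG KA KB (TwoWell.pp H) (TwoWell.ss H), ?_, ?_, rfl⟩)
    · refine ⟨min (Matrix.trace ((TwoWell.F0m - (1 : ℝ) • TwoWell.Fst) *
        (L1 (TwoWell.F0m - (1 : ℝ) • TwoWell.Fst))ᵀ) + 1 / 100)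
          (Matrix.trace ((TwoWell.F0m - (-1 : ℝ) • TwoWell.Fst) *
          (L2 (TwoWell.F0m - (-1 : ℝ) • TwoWell.Fst))ᵀ) + 1 / 100), ?_⟩
      rintro r ⟨g, _, hg, rfl⟩
      exact hg _
    · intro A a b
      have h := hconv (TwoWell.pp A) (TwoWell.ss A) _ _ (TwoWell.JM1b.R1_vecMulVec a b)
      have e : (fun t : ℝ => TwoWell.GG KA KB (TwoWell.pp (A + t • Matrix.vecMulVec a b))
          (TwoWell.ss (A + t • Matrix.vecMulVec a b))) =
          fun t : ℝ => TwoWell.GG KA KB (TwoWell.pp A + t • TwoWell.pp (Matrix.vecMulVec a b))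
          (TwoWell.ss A + t • TwoWell.ss (Matrix.vecMulVec a b)) := by
        funext t
        rw [TwoWell.pp_add_smul, TwoWell.ss_add_smul]
      show ConvexOn ℝ Set.univ (fun t : ℝ => TwoWell.GG KA KB (TwoWell.pp (A + t • Matrix.vecMulVec a b))
          (TwoWell.ss (A + t • Matrix.vecMulVec a b)))
      rw [e]
      exact h
    · intro H
      rw [hW H]
      exact le_min (hle 1 (Or.inl rfl) _ _) (hle (-1) (Or.inr rfl) _ _)

end Pool.Agent.S02612
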