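import Pool.Statements.S02617

set_option autoImplicit false
open Filter Topology
open Pool Pool.MP_10e324_an

namespace Pool.Agent.S02617

open Metric Set

theorem exists_zero_of_sphere {h : ℂ → ℂ} {c : ℂ} {r m : ℝ} (hr : 0 < r)
    (hd : DifferentiableOn ℂ h (closedBall c r)) (hs : ∀ z ∈ sphere c r, m ≤ ‖h z‖)
    (hc : ‖h c‖ < m) : ∃ z ∈ closedBall c r, h z = 0 := by
  by_contra hne
  push Not at hne
  have hm : 0 < m := lt_of_le_of_lt (norm_nonneg _) hc
  have hcl : closure (ball c r) = closedBall c r := closure_ball c hr.ne'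
  have h1 : DiffContOnCl ℂ h (ball c r) :=
    ⟨hd.mono ball_subset_closedBall, by rw [hcl]; exact hd.continuousOn⟩
  have h2 : DiffContOnCl ℂ (fun z => (h z)⁻¹) (ball c r) := by
    refine DiffContOnCl.inv h1 ?_
    intro z hz
    rw [hcl] at hz
    exact hne z hz
  have h3 := Complex.norm_le_of_forall_mem_frontier_norm_le (isBounded_ball) h2 (C := m⁻¹)
    (fun z hz => by
      rw [frontier_ball c hr.ne'] at hz
      rw [norm_inv]
      exact inv_anti₀ hm (hs z hz)) (z := c) (subset_closure (mem_ball_self hr))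
  rw [norm_inv] at h3
  have hc0 : 0 < ‖h c‖ := norm_pos_iff.mpr (hne c (mem_closedBall_self hr.le))
  have := (inv_le_inv₀ hc0 hm).mp h3
  linarith

/-- the derivative of a non-constant analytic function on the disc does not vanish near any point
of a punctured neighbourhood -/
theorem deriv_ne_of_nonconst {α : ℂ → ℂ} (hα : AnalyticOnNhd ℂ α (ball 0 1))
    (hne : ∃ a ∈ ball (0:ℂ) 1, ∃ b ∈ ball (0:ℂ) 1, α a ≠ α b) {z : ℂ} (hz : z ∈ ball (0:ℂ) 1) :
    ∀ᶠ t in 𝓝[≠] z, deriv α t ≠ 0 := by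
  rcases (hα.deriv z hz).eventually_eq_zero_or_eventually_ne_zero with h | h
  · exfalso
    have h1 : EqOn (deriv α) 0 (ball 0 1) :=
      hα.deriv.eqOn_zero_of_preconnected_of_eventuallyEq_zero
        (convex_ball (0:ℂ) 1).isPreconnected hz h
    obtain ⟨a, ha, b, hb, hab⟩ := hne
    exact hab (isOpen_ball.is_const_of_deriv_eq_zero (convex_ball (0:ℂ) 1).isPreconnected
      hα.differentiableOn h1 ha hb)
  · exact h

theorem nhds_le_map {α : ℂ → ℂ} (hα : AnalyticOnNhd ℂ α (ball 0 1))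
    (hne : ∃ a ∈ ball (0:ℂ) 1, ∃ b ∈ ball (0:ℂ) 1, α a ≠ α b) {z : ℂ} (hz : z ∈ ball (0:ℂ) 1) :
    𝓝 (α z) ≤ map α (𝓝 z) := by
  rcases (hα z hz).eventually_constant_or_nhds_le_map_nhds with h | h
  · exfalso
    obtain ⟨a, ha, b, hb, hab⟩ := hne
    have h2 := hα.eqOn_of_preconnected_of_eventuallyEq analyticOnNhd_const
      (convex_ball (0:ℂ) 1).isPreconnected hz h
    exact hab ((h2 ha).trans (h2 hb).symm)
  · exact h

/-- injective analytic functions have analytic inverses, composed form -/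
theorem factor_of_injOn {α f : ℂ → ℂ} (hα : AnalyticOnNhd ℂ α (ball 0 1))
    (hne : ∃ a ∈ ball (0:ℂ) 1, ∃ b ∈ ball (0:ℂ) 1, α a ≠ α b)
    (hinj : InjOn α (ball 0 1)) (hf : AnalyticOnNhd ℂ f (ball 0 1)) :
    ∃ φ : ℂ → ℂ, AnalyticOnNhd ℂ φ (α '' ball (0:ℂ) 1) ∧ ∀ w ∈ ball (0:ℂ) 1, f w = φ (α w) := by
  set ψ := Function.invFunOn α (ball (0:ℂ) 1) with hψ
  have hψα : ∀ z ∈ ball (0:ℂ) 1, ψ (α z) = z := fun z hz => hinj.leftInvOn_invFunOn hz
  have hψm : ∀ w ∈ α '' ball (0:ℂ) 1, ψ w ∈ ball (0:ℂ) 1 := fun w hw =>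
    Function.invFunOn_mem (by obtain ⟨z, hz, rfl⟩ := hw; exact ⟨z, hz, rfl⟩)
  have hαψ : ∀ w ∈ α '' ball (0:ℂ) 1, α (ψ w) = w := fun w hw =>
    Function.invFunOn_eq (by obtain ⟨z, hz, rfl⟩ := hw; exact ⟨z, hz, rfl⟩)
  have hopen : IsOpen (α '' ball (0:ℂ) 1) := by
    rw [isOpen_iff_mem_nhds]
    rintro w ⟨z, hz, rfl⟩
    exact (nhds_le_map hα hne hz) (image_mem_map (isOpen_ball.mem_nhds hz))
  have hcont : ∀ z ∈ ball (0:ℂ) 1, ContinuousAt ψ (α z) := by
    intro z hz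
    rw [ContinuousAt, hψα z hz]
    intro V hV
    have h1 : α '' (V ∩ ball 0 1) ∈ 𝓝 (α z) :=
      (nhds_le_map hα hne hz) (image_mem_map (inter_mem hV (isOpen_ball.mem_nhds hz)))
    rw [mem_map]
    filter_upwards [h1]
    rintro w ⟨t, ⟨htV, htB⟩, rfl⟩
    show ψ (α t) ∈ V
    rw [hψα t htB]; exact htV
  refine ⟨fun w => f (ψ w), ?_, fun w hw => by simp only [hψα w hw]⟩
  rintro w ⟨z, hz, rfl⟩
  apply Complex.analyticAt_of_differentiable_on_punctured_nhds_of_continuousAt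
  · have h1 : Tendsto ψ (𝓝[≠] (α z)) (𝓝[≠] z) := by
      apply tendsto_nhdsWithin_of_tendsto_nhds_of_eventually_within
      · have := hcont z hz
        rw [ContinuousAt, hψα z hz] at this
        exact this.mono_left nhdsWithin_le_nhds
      · have h2 : ∀ᶠ w in 𝓝[≠] (α z), w ∈ α '' ball (0:ℂ) 1 :=
          nhdsWithin_le_nhds (hopen.mem_nhds ⟨z, hz, rfl⟩)
        filter_upwards [h2, self_mem_nhdsWithin] with w hw hwne hcontra
        apply hwne
        have h3 := hαψ w hw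
        rw [mem_singleton_iff.mp hcontra] at h3
        exact h3.symm
    have h2 := h1.eventually (deriv_ne_of_nonconst hα hne hz)
    have h3 : ∀ᶠ w in 𝓝[≠] (α z), w ∈ α '' ball (0:ℂ) 1 :=
      nhdsWithin_le_nhds (hopen.mem_nhds ⟨z, hz, rfl⟩)
    filter_upwards [h2, h3] with w hw hwm
    have hm := hψm w hwm
    have h4 : HasDerivAt α (deriv α (ψ w)) (ψ w) := (hα (ψ w) hm).differentiableAt.hasDerivAt
    have h5 : ContinuousAt ψ w := by
      have := hcont (ψ w) hm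
      rwa [hαψ w hwm] at this
    have h6 : HasDerivAt ψ (deriv α (ψ w))⁻¹ w := by
      refine HasDerivAt.of_local_left_inverse h5 h4 hw ?_
      filter_upwards [hopen.mem_nhds hwm] with y hy using hαψ y hy
    exact DifferentiableAt.comp w (hf (ψ w) hm).differentiableAt h6.differentiableAt
  · have h1 := hcont z hz
    have h2 : ContinuousAt f (ψ (α z)) := by
      rw [hψα z hz]; exact (hf z hz).continuousAt
    exact ContinuousAt.comp h2 h1

/-- an unbounded analytic function has large values at points with non-zero derivative -/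
theorem exists_large {w : ℂ → ℂ} (hw : AnalyticOnNhd ℂ w (ball 0 1))
    (hub : ∀ R : ℝ, ∃ z ∈ ball (0:ℂ) 1, R < ‖w z‖) (R : ℝ) :
    ∃ z ∈ ball (0:ℂ) 1, R < ‖w z‖ ∧ deriv w z ≠ 0 := by
  have hne : ∃ a ∈ ball (0:ℂ) 1, ∃ b ∈ ball (0:ℂ) 1, w a ≠ w b := by
    obtain ⟨z, hz, h⟩ := hub ‖w 0‖
    refine ⟨z, hz, 0, mem_ball_self one_pos, fun h2 => ?_⟩
    rw [h2] at h; exact lt_irrefl _ h
  obtain ⟨z, hz, h⟩ := hub R
  have h1 := deriv_ne_of_nonconst hw hne hz
  have h2 : ∀ᶠ t in 𝓝[≠] z, R < ‖w t‖ :=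
    nhdsWithin_le_nhds ((hw z hz).continuousAt.norm.eventually (lt_mem_nhds h))
  have h3 : ∀ᶠ t in 𝓝[≠] z, t ∈ ball (0:ℂ) 1 := nhdsWithin_le_nhds (isOpen_ball.mem_nhds hz)
  obtain ⟨t, ht1, ht2, ht3⟩ := (h1.and (h2.and h3)).exists
  exact ⟨t, ht3, ht2, ht1⟩

/-- one step of the construction -/
theorem step {w : ℂ → ℂ} (hw : AnalyticOnNhd ℂ w (ball 0 1))
    (hub : ∀ R : ℝ, ∃ z ∈ ball (0:ℂ) 1, R < ‖w z‖) (P : ℂ → ℂ) (hP : Differentiable ℂ P)
    (R ε : ℝ) (hR : 0 ≤ R) (hε : 0 < ε) (k : ℕ) :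
    ∃ Q : ℂ → ℂ, Differentiable ℂ Q ∧ (∀ ζ : ℂ, ‖ζ‖ ≤ R → ‖Q ζ‖ ≤ ε) ∧ ∃ R' : ℝ, R + 1 ≤ R' ∧
      ∀ T : ℂ → ℂ, Differentiable ℂ T → (∀ ζ : ℂ, ‖ζ‖ ≤ R' → ‖T ζ‖ ≤ 1) →
        ball (0:ℂ) k ⊆ (fun z => P (w z) + Q (w z) + T (w z) + z) '' ball (0:ℂ) 1 := by
  obtain ⟨z0, hz0, hz0R, hd0⟩ := exists_large hw hub (R + 1)
  set ζ0 := w z0 with hζ0
  set d := deriv w z0 with hd
  have hdpos : 0 < ‖d‖ := norm_pos_iff.mpr hd0
  have hζpos : 0 < ‖ζ0‖ := by linarith
  have hζne : ζ0 ≠ 0 := norm_pos_iff.mp hζpos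
  obtain ⟨B, hB⟩ := (isCompact_closedBall (0:ℂ) (‖ζ0‖ + 1)).exists_bound_of_continuousOn
    hP.continuous.continuousOn
  have hB0 : 0 ≤ B := (norm_nonneg _).trans (hB 0 (by simp; positivity))
  set M : ℝ := 4 * B + 2 * k + 8 with hM
  have hMpos : 0 < M := by positivity
  -- linear approximation
  have hlin : ∀ᶠ z in 𝓝 z0, ‖w z - ζ0 - (z - z0) • d‖ ≤ ‖d‖ / 2 * ‖z - z0‖ := by
    have h1 : HasDerivAt w d z0 := (hw z0 hz0).differentiableAt.hasDerivAt
    have h2 := (hasDerivAt_iff_isLittleO.mp h1).def (c := ‖d‖ / 2) (by positivity)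
    exact h2
  have hball : ∀ᶠ z in 𝓝 z0, z ∈ ball (0:ℂ) 1 := isOpen_ball.mem_nhds hz0
  obtain ⟨ρ, hρ, hρ2⟩ := Metric.eventually_nhds_iff_ball.mp (hlin.and hball)
  -- the size of the new term on the small disc
  have hsmall : Tendsto (fun N : ℕ => (16 * (N:ℝ) * M / ‖ζ0‖) * (R / ‖ζ0‖) ^ N * (R + ‖ζ0‖))
      atTop (𝓝 0) := by
    have h1 : Tendsto (fun N : ℕ => (N:ℝ) * (R / ‖ζ0‖) ^ N) atTop (𝓝 0) := by
      apply tendsto_self_mul_const_pow_of_lt_one (by positivity)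
      rw [div_lt_one hζpos]; linarith
    have h2 := h1.mul_const (16 * M / ‖ζ0‖ * (R + ‖ζ0‖))
    rw [zero_mul] at h2
    refine h2.congr fun N => ?_
    ring
  have hrN : Tendsto (fun N : ℕ => ‖ζ0‖ / (4 * ‖d‖) / (N:ℝ)) atTop (𝓝 0) :=
    tendsto_const_div_atTop_nhds_zero_nat _
  obtain ⟨N, hN1, hN2, hN3, hN4⟩ := ((hsmall.eventually (gt_mem_nhds hε)).and
    ((hrN.eventually (gt_mem_nhds hρ)).and
      ((hrN.eventually (gt_mem_nhds (show (0:ℝ) < 1 / (2 * ‖d‖) by positivity))).and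
        (eventually_ge_atTop 1)))).exists
  have hNpos : (0:ℝ) < N := by exact_mod_cast hN4
  set r : ℝ := ‖ζ0‖ / (4 * ‖d‖) / (N:ℝ) with hr
  have hrpos : 0 < r := by positivity
  set A : ℝ := 16 * (N:ℝ) * M / ‖ζ0‖ with hA
  have hApos : 0 < A := by positivity
  refine ⟨fun ζ => A * (ζ / ζ0) ^ N * (ζ - ζ0), by fun_prop, ?_, ‖ζ0‖ + 1, by linarith, ?_⟩
  · intro ζ hζ
    rw [norm_mul, norm_mul, norm_pow, norm_div, Complex.norm_real, Real.norm_of_nonneg hApos.le]
    have h1 : ‖ζ - ζ0‖ ≤ R + ‖ζ0‖ := (norm_sub_le _ _).trans (by linarith)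
    have h2 : (‖ζ‖ / ‖ζ0‖) ^ N ≤ (R / ‖ζ0‖) ^ N := by gcongr
    calc A * (‖ζ‖ / ‖ζ0‖) ^ N * ‖ζ - ζ0‖ ≤ A * (R / ‖ζ0‖) ^ N * (R + ‖ζ0‖) := by gcongr
      _ ≤ ε := hN1.le
  · intro T hT hT1 v hv
    have hvk : ‖v‖ < k := by simpa using hv
    have hcb : closedBall z0 r ⊆ ball z0 ρ := closedBall_subset_ball hN2
    have hcb1 : closedBall z0 r ⊆ ball (0:ℂ) 1 := fun z hz => (hρ2 z (hcb hz)).2
    have hwz : ∀ z ∈ closedBall z0 r, ‖w z - ζ0‖ ≤ 3 / 2 * ‖d‖ * r := by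
      intro z hz
      have h1 := (hρ2 z (hcb hz)).1
      have h2 : ‖z - z0‖ ≤ r := by simpa [dist_eq_norm] using hz
      have h3 : ‖w z - ζ0‖ ≤ ‖w z - ζ0 - (z - z0) • d‖ + ‖(z - z0) • d‖ := by
        have := norm_add_le (w z - ζ0 - (z - z0) • d) ((z - z0) • d)
        simpa using this
      rw [norm_smul] at h3
      nlinarith
    have hws : ∀ z ∈ sphere z0 r, ‖d‖ * r / 2 ≤ ‖w z - ζ0‖ := by
      intro z hz
      have h1 := (hρ2 z (hcb (sphere_subset_closedBall hz))).1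
      have h2 : ‖z - z0‖ = r := by simpa [dist_eq_norm] using hz
      have h3 : ‖(z - z0) • d‖ ≤ ‖w z - ζ0 - (z - z0) • d‖ + ‖w z - ζ0‖ := by
        have := norm_sub_le (w z - ζ0) (w z - ζ0 - (z - z0) • d)
        rw [sub_sub_cancel] at this
        linarith
      rw [norm_smul, h2] at h3
      rw [h2] at h1
      nlinarith
    have hdr : ‖d‖ * r = ‖ζ0‖ / (4 * N) := by rw [hr]; field_simp
    have hdr1 : ‖d‖ * r ≤ 1 / 2 := by
      have h1 := mul_le_mul_of_nonneg_left hN3.le hdpos.le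
      have h2 : ‖d‖ * (1 / (2 * ‖d‖)) = 1 / 2 := by field_simp
      linarith
    have hwn : ∀ z ∈ closedBall z0 r, ‖w z‖ ≤ ‖ζ0‖ + 1 := by
      intro z hz
      have h1 := hwz z hz
      have h2 := norm_add_le (w z - ζ0) ζ0
      rw [sub_add_cancel] at h2
      nlinarith
    have hz0c : z0 ∈ closedBall z0 r := mem_closedBall_self hrpos.le
    set g : ℂ → ℂ := fun z => P (w z) + (A : ℂ) * (w z / ζ0) ^ N * (w z - ζ0) + T (w z) + z with hg
    have hPb : ∀ z ∈ closedBall z0 r, ‖P (w z)‖ ≤ B := fun z hz => hB _ (by simpa using hwn z hz)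
    have hTb : ∀ z ∈ closedBall z0 r, ‖T (w z)‖ ≤ 1 := fun z hz => hT1 _ (hwn z hz)
    have hzb : ∀ z ∈ closedBall z0 r, ‖z‖ ≤ 1 := fun z hz => by
      have := hcb1 hz
      rw [mem_ball_zero_iff] at this
      exact this.le
    suffices hkey : ∃ z ∈ closedBall z0 r, (fun z => g z - v) z = 0 by
      obtain ⟨z, hz, hzv⟩ := hkey
      exact ⟨z, hcb1 hz, sub_eq_zero.mp hzv⟩
    refine exists_zero_of_sphere (m := B + 3 + k) hrpos ?_ ?_ ?_
    · intro z hz
      have hwd := (hw z (hcb1 hz)).differentiableAt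
      have h1 : DifferentiableAt ℂ g z := by
        simp only [hg]
        have hP' : DifferentiableAt ℂ (fun z => P (w z)) z := (hP (w z)).comp z hwd
        have hT' : DifferentiableAt ℂ (fun z => T (w z)) z := (hT (w z)).comp z hwd
        fun_prop
      exact (h1.sub_const v).differentiableWithinAt
    · intro z hz
      have hzc := sphere_subset_closedBall hz
      have h1 := hws z hz
      have h2 := hwz z hzc
      have hratio : 1 - 3 / (8 * (N:ℝ)) ≤ ‖w z / ζ0‖ := by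
        have h3 : ‖ζ0‖ ≤ ‖w z‖ + ‖w z - ζ0‖ := by
          have := norm_sub_le (w z) (w z - ζ0)
          rw [sub_sub_cancel] at this
          exact this
        rw [norm_div, le_div_iff₀ hζpos]
        have h4 : 3 / 2 * ‖d‖ * r = 3 / (8 * N) * ‖ζ0‖ := by
          have : 3 / 2 * ‖d‖ * r = 3 / 2 * (‖d‖ * r) := by ring
          rw [this, hdr]; field_simp; norm_num
        rw [h4] at h2
        linarith
      have hN1' : (1:ℝ) ≤ N := by exact_mod_cast hN4
      have hpow : 5 / 8 ≤ ‖w z / ζ0‖ ^ N := by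
        have h5 : (0:ℝ) ≤ 1 - 3 / (8 * (N:ℝ)) := by
          rw [sub_nonneg, div_le_one (by positivity)]; linarith
        have h6 := one_add_mul_le_pow (a := -(3 / (8 * (N:ℝ)))) (by linarith) N
        have h7 : 1 + (N:ℝ) * -(3 / (8 * (N:ℝ))) = 5 / 8 := by field_simp; norm_num
        rw [h7, ← sub_eq_add_neg] at h6
        exact h6.trans (pow_le_pow_left₀ h5 hratio N)
      have hQ : 5 / 8 * (2 * M) ≤ ‖(A : ℂ) * (w z / ζ0) ^ N * (w z - ζ0)‖ := by
        rw [norm_mul, norm_mul, norm_pow, Complex.norm_real, Real.norm_of_nonneg hApos.le]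
        have h8 : A * (‖d‖ * r / 2) = 2 * M := by
          rw [hdr, hA]; field_simp; norm_num
        calc 5 / 8 * (2 * M) = A * (5 / 8) * (‖d‖ * r / 2) := by rw [← h8]; ring
          _ ≤ A * ‖w z / ζ0‖ ^ N * ‖w z - ζ0‖ := by gcongr
      have h9 := norm_sub_le (g z - v) (P (w z) + T (w z) + z - v)
      have h10 : g z - v - (P (w z) + T (w z) + z - v) =
          (A : ℂ) * (w z / ζ0) ^ N * (w z - ζ0) := by simp only [hg]; ring
      rw [h10] at h9
      have h11 : ‖P (w z) + T (w z) + z - v‖ ≤ B + 1 + 1 + k := by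
        have a1 := norm_sub_le (P (w z) + T (w z) + z) v
        have a2 := norm_add_le (P (w z) + T (w z)) z
        have a3 := norm_add_le (P (w z)) (T (w z))
        linarith [hPb z hzc, hTb z hzc, hzb z hzc]
      show B + 3 + k ≤ ‖g z - v‖
      have : (0:ℝ) ≤ k := by positivity
      nlinarith
    · have h10 : g z0 - v = P (w z0) + T (w z0) + z0 - v := by
        simp only [hg, ← hζ0, sub_self, mul_zero]; ring
      show ‖g z0 - v‖ < _
      rw [h10]
      have a1 := norm_sub_le (P (w z0) + T (w z0) + z0) v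
      have a2 := norm_add_le (P (w z0) + T (w z0)) z0
      have a3 := norm_add_le (P (w z0)) (T (w z0))
      linarith [hPb z0 hz0c, hTb z0 hz0c, hzb z0 hz0c]

/-- the composition of an entire function with `w`, plus the identity, can be made onto -/
theorem exists_entire {w : ℂ → ℂ} (hw : AnalyticOnNhd ℂ w (ball 0 1))
    (hub : ∀ R : ℝ, ∃ z ∈ ball (0:ℂ) 1, R < ‖w z‖) :
    ∃ E : ℂ → ℂ, Differentiable ℂ E ∧ (fun z => E (w z) + z) '' ball (0:ℂ) 1 = univ := by
  classical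
  choose! Q hQd hQs R' hR' hQc using
    fun (k : ℕ) (P : ℂ → ℂ) (hP : Differentiable ℂ P) (R : ℝ) (hR : 0 ≤ R) =>
      step hw hub P hP R ((1 / 2 : ℝ) ^ (k + 1)) hR (by positivity) k
  -- the recursion
  let st : ℕ → (ℂ → ℂ) × ℝ := fun n => Nat.rec ((fun _ => 0), 0)
    (fun k s => ((fun ζ => s.1 ζ + Q k s.1 s.2 ζ), R' k s.1 s.2)) n
  have hst0 : st 0 = ((fun _ => 0), 0) := rfl
  have hstS : ∀ k, st (k + 1) = ((fun ζ => (st k).1 ζ + Q k (st k).1 (st k).2 ζ),
      R' k (st k).1 (st k).2) := fun k => rfl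
  have hinv : ∀ k, Differentiable ℂ (st k).1 ∧ (k : ℝ) ≤ (st k).2 := by
    intro k
    induction k with
    | zero => rw [hst0]; exact ⟨differentiable_const _, by simp⟩
    | succ k ih =>
      have h0 : (0:ℝ) ≤ (st k).2 := le_trans (by positivity) ih.2
      rw [hstS k]
      refine ⟨ih.1.add (hQd k _ ih.1 _ h0), ?_⟩
      have := hR' k _ ih.1 _ h0
      push_cast
      linarith [ih.2]
  have hpos : ∀ k, (0:ℝ) ≤ (st k).2 := fun k => le_trans (by positivity) (hinv k).2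
  set q : ℕ → ℂ → ℂ := fun k => Q k (st k).1 (st k).2 with hq
  have hqd : ∀ k, Differentiable ℂ (q k) := fun k => hQd k _ (hinv k).1 _ (hpos k)
  have hqs : ∀ k, ∀ ζ : ℂ, ‖ζ‖ ≤ (st k).2 → ‖q k ζ‖ ≤ (1 / 2 : ℝ) ^ (k + 1) := fun k =>
    hQs k _ (hinv k).1 _ (hpos k)
  have hPsum : ∀ k ζ, (st k).1 ζ = ∑ j ∈ Finset.range k, q j ζ := by
    intro k ζ
    induction k with
    | zero => rw [hst0]; simp
    | succ k ih => rw [Finset.sum_range_succ, ← ih, hstS k]
  have hmono : Monotone fun k => (st k).2 := by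
    apply monotone_nat_of_le_succ
    intro k
    have := hR' k _ (hinv k).1 _ (hpos k)
    rw [hstS k]
    show (st k).2 ≤ R' k (st k).1 (st k).2
    linarith
  have hgeo : Summable fun k : ℕ => (1 / 2 : ℝ) ^ (k + 1) :=
    (summable_nat_add_iff 1).mpr (summable_geometric_of_lt_one (by norm_num) (by norm_num))
  have hsum : ∀ ζ, Summable fun j => q j ζ := by
    intro ζ
    obtain ⟨J, hJ⟩ := exists_nat_ge ‖ζ‖
    rw [← summable_nat_add_iff J]
    refine Summable.of_norm_bounded ((summable_nat_add_iff J).mpr hgeo) fun j => ?_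
    apply hqs
    exact hJ.trans ((hinv J).2.trans (hmono (by omega)))
  set E : ℂ → ℂ := fun ζ => ∑' j, q j ζ with hE
  have hEd : Differentiable ℂ E := by
    intro ζ
    obtain ⟨J, hJ⟩ := exists_nat_gt ‖ζ‖
    have h1 : DifferentiableOn ℂ (fun ζ => ∑' j, q (j + J) ζ) (ball 0 J) := by
      refine Complex.differentiableOn_tsum_of_summable_norm
        ((summable_nat_add_iff J).mpr hgeo) (fun j => (hqd _).differentiableOn) isOpen_ball ?_
      intro j ξ hξ
      apply hqs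
      have hξ' : ‖ξ‖ < J := by simpa using hξ
      exact hξ'.le.trans ((hinv J).2.trans (hmono (by omega)))
    have h2 : E = fun ζ => ∑ j ∈ Finset.range J, q j ζ + ∑' j, q (j + J) ζ := by
      funext ξ
      exact ((hsum ξ).sum_add_tsum_nat_add J).symm
    rw [h2]
    refine DifferentiableAt.add ?_ (h1.differentiableAt (isOpen_ball.mem_nhds (by simpa using hJ)))
    exact DifferentiableAt.fun_sum fun j _ => hqd j ζ
  refine ⟨E, hEd, ?_⟩
  rw [eq_univ_iff_forall]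
  intro v
  obtain ⟨k, hk⟩ := exists_nat_gt ‖v‖
  have hcov := hQc k _ (hinv k).1 _ (hpos k) (fun ζ => E ζ - (st (k + 1)).1 ζ)
    (hEd.sub (hinv (k + 1)).1) ?_ (show v ∈ ball (0:ℂ) k by simpa using hk)
  · obtain ⟨z, hz, hzv⟩ := hcov
    refine ⟨z, hz, ?_⟩
    rw [← hzv, hstS k]
    show E (w z) + z = (st k).1 (w z) + Q k (st k).1 (st k).2 (w z) + (E (w z) -
      ((st k).1 (w z) + Q k (st k).1 (st k).2 (w z))) + z
    ring
  · intro ζ hζ
    have hζ' : ‖ζ‖ ≤ (st (k + 1)).2 := hζ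
    have h3 : E ζ - (st (k + 1)).1 ζ = ∑' j, q (j + (k + 1)) ζ := by
      rw [hPsum (k + 1) ζ, hE]
      show ∑' j, q j ζ - _ = _
      rw [← (hsum ζ).sum_add_tsum_nat_add (k + 1)]
      ring
    rw [h3]
    have h4 : ∀ j, ‖q (j + (k + 1)) ζ‖ ≤ (1 / 2 : ℝ) ^ (j + (k + 1) + 1) := by
      intro j
      apply hqs
      exact hζ'.trans (hmono (show k + 1 ≤ j + (k + 1) by omega))
    have h5 : HasSum (fun j : ℕ => (1 / 2 : ℝ) ^ (j + (k + 1) + 1)) ((1 / 2 : ℝ) ^ (k + 1)) := by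
      have h6 := (hasSum_geometric_of_lt_one (r := (1 / 2 : ℝ)) (by norm_num) (by norm_num)).mul_left
        ((1 / 2 : ℝ) ^ (k + 2))
      have h7 : (1 / 2 : ℝ) ^ (k + 2) * (1 - 1 / 2)⁻¹ = (1 / 2 : ℝ) ^ (k + 1) := by
        ring
      rw [h7] at h6
      have h8 : (fun j : ℕ => (1 / 2 : ℝ) ^ (j + (k + 1) + 1)) =
          fun j => (1 / 2 : ℝ) ^ (k + 2) * (1 / 2 : ℝ) ^ j := by
        funext j
        rw [← pow_add]
        congr 1
        omega
      rw [h8]
      exact h6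
    refine (tsum_of_norm_bounded h5 h4).trans ?_
    exact pow_le_one₀ (by norm_num) (by norm_num)

theorem result :
    ∀ α : ℂ → ℂ, AnalyticOnNhd ℂ α (Metric.ball (0:ℂ) 1) →
      (∃ a ∈ Metric.ball (0:ℂ) 1, ∃ b ∈ Metric.ball (0:ℂ) 1, α a ≠ α b) →
      ((∀ f : ℂ → ℂ, AnalyticOnNhd ℂ f (Metric.ball (0:ℂ) 1) →
          (∀ z : ℕ → ℂ, (∀ n, z n ∈ Metric.ball (0:ℂ) 1) →
            Tendsto (fun n => ‖z n‖) atTop (𝓝 1) →
            (∀ K : Set ℂ, K ⊆ f '' Metric.ball (0:ℂ) 1 → IsCompact K →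
              {n : ℕ | f (z n) ∈ K}.Finite) →
            (∀ K : Set ℂ, K ⊆ α '' Metric.ball (0:ℂ) 1 → IsCompact K →
              {n : ℕ | α (z n) ∈ K}.Finite)) →
          ∃ φ : ℂ → ℂ, AnalyticOnNhd ℂ φ (α '' Metric.ball (0:ℂ) 1) ∧
            ∀ w ∈ Metric.ball (0:ℂ) 1, f w = φ (α w))
        ↔ Set.InjOn α (Metric.ball (0:ℂ) 1)) := by
  intro α hα hne
  constructor
  · intro hatom
    have hopen : IsOpen (α '' ball (0:ℂ) 1) := by
      rw [isOpen_iff_mem_nhds]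
      rintro w ⟨z, hz, rfl⟩
      exact (nhds_le_map hα hne hz) (image_mem_map (isOpen_ball.mem_nhds hz))
    -- a function `H`, analytic on the range, such that `H ∘ α + id` is onto
    obtain ⟨H, hH, hsurj⟩ : ∃ H : ℂ → ℂ, AnalyticOnNhd ℂ H (α '' ball (0:ℂ) 1) ∧
        (fun z => H (α z) + z) '' ball (0:ℂ) 1 = univ := by
      by_cases hG : α '' ball (0:ℂ) 1 = univ
      · obtain ⟨E, hE, hEs⟩ := exists_entire hα (fun R => by
          have h1 : ((|R| + 1 : ℝ) : ℂ) ∈ α '' ball (0:ℂ) 1 := by rw [hG]; trivial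
          obtain ⟨z, hz, hzR⟩ := h1
          refine ⟨z, hz, ?_⟩
          rw [hzR, Complex.norm_real, Real.norm_of_nonneg (by positivity)]
          linarith [le_abs_self R])
        exact ⟨E, fun x _ => hE.analyticAt x, hEs⟩
      · -- a boundary point of the range
        have hfr : (frontier (α '' ball (0:ℂ) 1)).Nonempty := by
          rw [nonempty_iff_ne_empty, Ne, ← isClopen_iff_frontier_eq_empty, isClopen_iff]
          push Not
          exact ⟨⟨α 0, ⟨0, mem_ball_self one_pos, rfl⟩⟩, hG⟩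
        obtain ⟨b, hb⟩ := hfr
        rw [hopen.frontier_eq] at hb
        obtain ⟨hb1, hb2⟩ := hb
        have hαb : ∀ z ∈ ball (0:ℂ) 1, α z - b ≠ 0 := fun z hz h =>
          hb2 ⟨z, hz, sub_eq_zero.mp h⟩
        have hw : AnalyticOnNhd ℂ (fun z => (α z - b)⁻¹) (ball 0 1) := fun z hz =>
          ((hα z hz).sub analyticAt_const).inv (hαb z hz)
        obtain ⟨E, hE, hEs⟩ := exists_entire hw (fun R => by
          obtain ⟨y, hy, hyd⟩ := Metric.mem_closure_iff.mp hb1 (1 / (|R| + 1)) (by positivity)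
          obtain ⟨z, hz, rfl⟩ := hy
          refine ⟨z, hz, ?_⟩
          rw [norm_inv]
          rw [dist_comm, dist_eq_norm] at hyd
          have hp : 0 < ‖α z - b‖ := norm_pos_iff.mpr (hαb z hz)
          have h2 : |R| + 1 < ‖α z - b‖⁻¹ := by
            rw [lt_inv_comm₀ (by positivity) hp, ← one_div]
            exact hyd
          linarith [le_abs_self R])
        refine ⟨fun ω => E ((ω - b)⁻¹), ?_, hEs⟩
        rintro ω ⟨z, hz, rfl⟩
        have h1 : AnalyticAt ℂ (fun ω : ℂ => (ω - b)⁻¹) (α z) :=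
          (analyticAt_id.sub analyticAt_const).inv (hαb z hz)
        exact (hE.analyticAt _).comp h1
    have hfan : AnalyticOnNhd ℂ (fun z => H (α z) + z) (ball 0 1) := fun z hz =>
      (((hH (α z) ⟨z, hz, rfl⟩).comp (hα z hz))).add analyticAt_id
    obtain ⟨φ, -, hφ⟩ := hatom (fun z => H (α z) + z) hfan (by
      intro z hz _ hL K hK hKc
      have hHK : IsCompact (H '' K) := hKc.image_of_continuousOn
        (fun x hx => (hH x (hK hx)).continuousAt.continuousWithinAt)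
      have hK' : IsCompact ((fun p : ℂ × ℂ => p.1 + p.2) '' ((H '' K) ×ˢ closedBall (0:ℂ) 1)) :=
        (hHK.prod (isCompact_closedBall 0 1)).image continuous_add
      refine (hL _ (by rw [hsurj]; exact subset_univ _) hK').subset ?_
      intro n hn
      exact ⟨(H (α (z n)), z n), ⟨⟨α (z n), hn, rfl⟩, ball_subset_closedBall (hz n)⟩, rfl⟩)
    intro x hx y hy hxy
    have h1 : H (α x) + x = φ (α x) := hφ x hx
    have h2 : H (α y) + y = φ (α y) := hφ y hy
    rw [← hxy] at h2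
    linear_combination h1 - h2
  · intro hinj f hf _
    exact factor_of_injOn hα hne hinj hf

end Pool.Agent.S02617
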