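import Pool.Statements.S02626

set_option autoImplicit false
open MeasureTheory
open Pool Pool.MP_11b517_an
open Filter Topology Set

namespace Pool.Agent.S02626

theorem key {Ω : Type} [MeasurableSpace Ω] (μ : Measure Ω) [IsProbabilityMeasure μ]
    (A B : Ω → Ω) (hB : MeasurePreserving B μ μ)
    (E : ℕ → Set Ω) (hE : ∀ n, MeasurableSet (E n)) (hEpos : ∀ n, μ (E n) ≠ 0)
    (hEA : ∀ n, ∀ ω ∈ E n, A ω = ω)
    (hEB : Tendsto (fun n => μ.real (symmDiff (B ⁻¹' E n) (E n)) / μ.real (E n)) atTop (𝓝 0))
    {X : Type} [TopologicalSpace X] [MeasurableSpace X] [BorelSpace X] [CompactSpace X]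
    [TopologicalSpace.MetrizableSpace X]
    (a b : X → X) (ha : Continuous a) (hb : Continuous b)
    (φ : Ω → X) (hφ : Measurable φ) (hφA : ∀ᵐ ω ∂μ, φ (A ω) = a (φ ω))
    (hφB : ∀ᵐ ω ∂μ, φ (B ω) = b (φ ω)) :
    ∃ ν' : Measure X, IsProbabilityMeasure ν' ∧ Measure.map b ν' = ν' ∧
      Measure.map a ν' = ν' ∧ ν' {x | a x = x}ᶜ = 0 := by
  classical
  -- normalised measures
  have hEpos' : ∀ n, 0 < μ.real (E n) := fun n =>
    ENNReal.toReal_pos (hEpos n) (measure_ne_top _ _)
  let κ : ℕ → Measure Ω := fun n => ProbabilityTheory.cond μ (E n)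
  have hκ : ∀ n, IsProbabilityMeasure (κ n) := fun n =>
    ProbabilityTheory.cond_isProbabilityMeasure (hEpos n)
  have hpm : ∀ n, IsProbabilityMeasure (Measure.map φ (κ n)) := fun n =>
    Measure.isProbabilityMeasure_map hφ.aemeasurable
  let ν : ℕ → ProbabilityMeasure X := fun n => ⟨Measure.map φ (κ n), hpm n⟩
  have hclosed : IsClosed {x | a x = x} := isClosed_eq ha continuous_id
  -- integrals
  have hint : ∀ n (f : BoundedContinuousFunction X ℝ),
      ∫ x, f x ∂(ν n : Measure X) = (μ.real (E n))⁻¹ * ∫ ω in E n, f (φ ω) ∂μ := by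
    intro n f
    change ∫ x, f x ∂(Measure.map φ (κ n)) = _
    rw [integral_map hφ.aemeasurable f.continuous.aestronglyMeasurable]
    change ∫ x, f (φ x) ∂((μ (E n))⁻¹ • μ.restrict (E n)) = _
    rw [integral_smul_measure]
    simp [Measure.real]
  -- cluster point
  obtain ⟨ν', -, U, hU⟩ : ∃ ν' ∈ (univ : Set (ProbabilityMeasure X)), ∃ U : Ultrafilter ℕ,
      (U : Filter ℕ) ≤ atTop ∧ Tendsto ν U (𝓝 ν') := by
    obtain ⟨ν', h1, h2⟩ := (isCompact_univ (X := ProbabilityMeasure X)).ultrafilter_le_nhds
      (Ultrafilter.map ν (Filter.hyperfilter ℕ)) (by simp)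
    refine ⟨ν', h1, Filter.hyperfilter ℕ, ?_, h2⟩
    rw [← Nat.cofinite_eq_atTop]
    exact Filter.hyperfilter_le_cofinite
  obtain ⟨hUtop, hUν⟩ := hU
  rw [ProbabilityMeasure.tendsto_iff_forall_integral_tendsto] at hUν
  have hfix : (ν' : Measure X) {x | a x = x}ᶜ = 0 := by
    have h1 := ProbabilityMeasure.le_liminf_measure_open_of_tendsto
      ((ProbabilityMeasure.tendsto_iff_forall_integral_tendsto).2 hUν) hclosed.isOpen_compl
    have h2 : ∀ n, (ν n : Measure X) {x | a x = x}ᶜ = 0 := by
      intro n
      change Measure.map φ (κ n) {x | a x = x}ᶜ = 0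
      rw [Measure.map_apply hφ hclosed.isOpen_compl.measurableSet]
      change ((μ (E n))⁻¹ • μ.restrict (E n)) (φ ⁻¹' {x | a x = x}ᶜ) = 0
      rw [Measure.smul_apply, Measure.restrict_apply
        (hφ hclosed.isOpen_compl.measurableSet)]
      have h3 : μ (φ ⁻¹' {x | a x = x}ᶜ ∩ E n) = 0 := by
        have : (φ ⁻¹' {x | a x = x}ᶜ ∩ E n) ⊆ {ω | ¬ (φ (A ω) = a (φ ω))} := by
          rintro ω ⟨h1, h2⟩ h3
          apply h1
          change a (φ ω) = φ ω
          rw [← h3, hEA n ω h2]
        exact measure_mono_null this (ae_iff.1 hφA)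
      rw [h3]; simp
    simp only [h2] at h1
    simpa using h1
  have hbinv : Measure.map b (ν' : Measure X) = ν' := by
    have : IsProbabilityMeasure (Measure.map b (ν' : Measure X)) :=
      Measure.isProbabilityMeasure_map hb.measurable.aemeasurable
    apply ext_of_forall_integral_eq_of_IsFiniteMeasure
    intro f
    rw [integral_map hb.measurable.aemeasurable f.continuous.aestronglyMeasurable]
    have h1 := hUν f
    have h2 := hUν (f.compContinuous ⟨b, hb⟩)
    have h3 : Tendsto (fun n => ∫ x, (f.compContinuous ⟨b, hb⟩) x ∂(ν n : Measure X)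
        - ∫ x, f x ∂(ν n : Measure X)) U (𝓝 0) := by
      refine squeeze_zero_norm (a := fun n => ‖f‖ *
        (μ.real (symmDiff (B ⁻¹' E n) (E n)) / μ.real (E n))) ?_ ?_
      · intro n
        rw [hint, hint]
        have hmeasf : Measurable (fun ω => f (φ ω)) := f.continuous.measurable.comp hφ
        have e1 : ∫ ω in E n, (f.compContinuous ⟨b, hb⟩) (φ ω) ∂μ
            = ∫ ω in E n, f (φ (B ω)) ∂μ := by
          apply setIntegral_congr_ae (hE n)
          filter_upwards [hφB] with ω hω _
          change f (b (φ ω)) = _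
          rw [hω]
        have e2 : ∫ ω in E n, f (φ ω) ∂μ = ∫ ω in B ⁻¹' (E n), f (φ (B ω)) ∂μ := by
          rw [← hB.restrict_preimage (hE n) |>.map_eq]
          rw [integral_map]
          · exact hB.measurable.aemeasurable
          · exact hmeasf.aestronglyMeasurable
        rw [e1, e2, ← mul_sub, norm_mul]
        have hbd : ∀ ω, ‖f (φ (B ω))‖ ≤ ‖f‖ := fun ω => f.norm_coe_le_norm _
        have hintg : Integrable (fun ω => f (φ (B ω))) μ := by
          refine Integrable.of_bound (C := ‖f‖)
            (hmeasf.comp hB.measurable).aestronglyMeasurable (ae_of_all _ hbd)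
        have hBE : MeasurableSet (B ⁻¹' E n) := hB.measurable (hE n)
        have e3 : ∫ ω in E n, f (φ (B ω)) ∂μ - ∫ ω in B ⁻¹' (E n), f (φ (B ω)) ∂μ
            = ∫ ω in E n \ B ⁻¹' (E n), f (φ (B ω)) ∂μ
              - ∫ ω in B ⁻¹' (E n) \ E n, f (φ (B ω)) ∂μ := by
          have k1 := integral_inter_add_sdiff (μ := μ) (s := E n) (t := B ⁻¹' E n)
            (f := fun ω => f (φ (B ω))) hBE hintg.integrableOn
          have k2 := integral_inter_add_sdiff (μ := μ) (s := B ⁻¹' E n) (t := E n)
            (f := fun ω => f (φ (B ω))) (hE n) hintg.integrableOn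
          rw [← k1, ← k2, inter_comm (B ⁻¹' E n) (E n)]
          ring
        have e4 : ‖∫ ω in E n, f (φ (B ω)) ∂μ - ∫ ω in B ⁻¹' (E n), f (φ (B ω)) ∂μ‖
            ≤ ‖f‖ * μ.real (symmDiff (B ⁻¹' E n) (E n)) := by
          rw [e3]
          refine (norm_sub_le _ _).trans ?_
          have k1 := norm_setIntegral_le_of_norm_le_const (μ := μ) (s := E n \ B ⁻¹' (E n))
            (f := fun ω => f (φ (B ω))) (C := ‖f‖) (measure_lt_top _ _) (fun ω _ => hbd ω)
          have k2 := norm_setIntegral_le_of_norm_le_const (μ := μ) (s := B ⁻¹' (E n) \ E n)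
            (f := fun ω => f (φ (B ω))) (C := ‖f‖) (measure_lt_top _ _) (fun ω _ => hbd ω)
          have k3 : μ.real (symmDiff (B ⁻¹' E n) (E n))
              = μ.real (B ⁻¹' (E n) \ E n) + μ.real (E n \ B ⁻¹' (E n)) := by
            rw [Set.symmDiff_def]
            exact measureReal_union disjoint_sdiff_sdiff ((hE n).diff hBE)
          rw [k3]
          linarith
        have hpos := hEpos' n
        rw [Real.norm_of_nonneg (inv_nonneg.2 hpos.le)]
        calc (μ.real (E n))⁻¹ * ‖∫ ω in E n, f (φ (B ω)) ∂μ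
              - ∫ ω in B ⁻¹' (E n), f (φ (B ω)) ∂μ‖
            ≤ (μ.real (E n))⁻¹ * (‖f‖ * μ.real (symmDiff (B ⁻¹' E n) (E n))) := by
              gcongr
          _ = _ := by rw [div_eq_inv_mul]; ring
      · have := (hEB.mono_left hUtop).const_mul ‖f‖
        simpa using this
    have h4 := h2.sub h1
    have h5 := tendsto_nhds_unique h4 h3
    exact sub_eq_zero.1 h5
  have hainv : Measure.map a (ν' : Measure X) = ν' := by
    have h1 : a =ᵐ[(ν' : Measure X)] id := by
      rw [Filter.EventuallyEq, ae_iff]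
      exact hfix
    rw [Measure.map_congr h1, Measure.map_id]
  exact ⟨ν', inferInstance, hbinv, hainv, hfix⟩

/-- the irrational rotation number -/
noncomputable def al : UnitAddCircle := ((Real.sqrt 2 : ℝ) : UnitAddCircle)

/-- the half turn -/
noncomputable def hf : UnitAddCircle := ((1 / 2 : ℝ) : UnitAddCircle)

lemma hf_add_hf : hf + hf = 0 := by
  unfold hf
  rw [← AddCircle.coe_add]
  norm_num

lemma hf_ne : hf ≠ 0 := by
  unfold hf
  intro h
  rw [AddCircle.coe_eq_zero_iff] at h
  obtain ⟨n, hn⟩ := h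
  have h1 : (n : ℝ) = 1 / 2 := by simpa using hn
  have h2 : ((2 * n : ℤ) : ℝ) = ((1 : ℤ) : ℝ) := by push_cast; linarith
  have h3 : 2 * n = 1 := by exact_mod_cast h2
  omega

lemma al_order : addOrderOf al = 0 := by
  rw [addOrderOf_eq_zero_iff']
  intro n hn h
  unfold al at h
  rw [← AddCircle.coe_nsmul, AddCircle.coe_eq_zero_iff] at h
  obtain ⟨m, hm⟩ := h
  have h1 : (m : ℝ) = (n : ℝ) * Real.sqrt 2 := by simpa using hm
  have h2 : Irrational ((n : ℝ) * Real.sqrt 2) :=
    irrational_sqrt_two.natCast_mul (by omega)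
  exact (Int.not_irrational m) (h1 ▸ h2)

instance : IsProbabilityMeasure (volume : Measure UnitAddCircle) :=
  ⟨by simp [AddCircle.measure_univ]⟩

lemma nsmul_al_inj {i j : ℕ} (hij : i ≠ j) : i • al ≠ j • al := by
  have := (injective_nsmul_iff_not_isOfFinAddOrder (x := al)).2
    (by rw [← addOrderOf_eq_zero_iff]; exact al_order)
  exact fun h => hij (this h)

lemma exists_r (n : ℕ) : ∃ r : ℝ, 0 < r ∧ r ≤ 1 / 2 ∧
    ((n : ℝ) + 1) * (2 * r) ≤ (1 / 8) * (1 / 2) ^ n ∧
    ∀ i ∈ Finset.range (n + 1), ∀ j ∈ Finset.range (n + 1), i ≠ j →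
      2 * r < ‖i • al - j • al‖ := by
  have h0 : Tendsto (fun r : ℝ => ((n : ℝ) + 1) * (2 * r)) (𝓝[>] 0) (𝓝 0) := by
    have : Tendsto (fun r : ℝ => ((n : ℝ) + 1) * (2 * r)) (𝓝 0) (𝓝 (((n : ℝ) + 1) * (2 * 0))) := by
      exact (continuous_const.mul (continuous_const.mul continuous_id)).tendsto 0
    simp only [mul_zero] at this
    exact this.mono_left nhdsWithin_le_nhds
  have h1 : ∀ᶠ r : ℝ in 𝓝[>] 0, ((n : ℝ) + 1) * (2 * r) ≤ (1 / 8) * (1 / 2) ^ n :=
    h0.eventually_le_const (by positivity)
  have h2 : Tendsto (fun r : ℝ => 2 * r) (𝓝[>] 0) (𝓝 0) := by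
    have : Tendsto (fun r : ℝ => 2 * r) (𝓝 0) (𝓝 (2 * 0)) :=
      (continuous_const.mul continuous_id).tendsto 0
    simp only [mul_zero] at this
    exact this.mono_left nhdsWithin_le_nhds
  have h3 : ∀ᶠ r : ℝ in 𝓝[>] 0, ∀ i ∈ Finset.range (n + 1), ∀ j ∈ Finset.range (n + 1), i ≠ j →
      2 * r < ‖i • al - j • al‖ := by
    rw [Filter.eventually_all_finset]
    intro i _
    rw [Filter.eventually_all_finset]
    intro j _
    by_cases hij : i = j
    · simp [hij]
    · have hpos : 0 < ‖i • al - j • al‖ := by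
        rw [norm_pos_iff]
        exact sub_ne_zero.2 (nsmul_al_inj hij)
      filter_upwards [h2.eventually_lt_const hpos] with r hr _
      exact hr
  have h4 : ∀ᶠ r : ℝ in 𝓝[>] 0, 2 * r < 1 := h2.eventually_lt_const one_pos
  obtain ⟨r, hr⟩ := (h1.and (h3.and (h4.and self_mem_nhdsWithin))).exists
  exact ⟨r, hr.2.2.2, by linarith [hr.2.2.1], hr.1, hr.2.1⟩

/-- radii -/
noncomputable def rad (n : ℕ) : ℝ := (exists_r n).choose

lemma rad_pos (n : ℕ) : 0 < rad n := (exists_r n).choose_spec.1
lemma rad_le (n : ℕ) : rad n ≤ 1 / 2 := (exists_r n).choose_spec.2.1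
lemma rad_sum (n : ℕ) : ((n : ℝ) + 1) * (2 * rad n) ≤ (1 / 8) * (1 / 2) ^ n :=
  (exists_r n).choose_spec.2.2.1
lemma rad_sep (n : ℕ) : ∀ i ∈ Finset.range (n + 1), ∀ j ∈ Finset.range (n + 1), i ≠ j →
      2 * rad n < ‖i • al - j • al‖ := (exists_r n).choose_spec.2.2.2

/-- levels of the small towers -/
def lev (n i : ℕ) : Set UnitAddCircle := (fun ω => ω + i • al) ⁻¹' Metric.closedBall 0 (rad n)

lemma lev_meas (n i : ℕ) : MeasurableSet (lev n i) :=
  (measurable_add_const _) Metric.isClosed_closedBall.measurableSet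

lemma lev_vol (n i : ℕ) : (volume : Measure UnitAddCircle) (lev n i) =
    ENNReal.ofReal (2 * rad n) := by
  unfold lev
  rw [measure_preimage_add_right, AddCircle.volume_closedBall]
  congr 1
  rw [min_eq_right]
  linarith [rad_le n]

lemma lev_real (n i : ℕ) : (volume : Measure UnitAddCircle).real (lev n i) = 2 * rad n := by
  rw [Measure.real, lev_vol, ENNReal.toReal_ofReal]
  linarith [rad_pos n]

lemma lev_disj (n : ℕ) : ∀ i ∈ Finset.range (n + 1), ∀ j ∈ Finset.range (n + 1), i ≠ j →
    Disjoint (lev n i) (lev n j) := by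
  intro i hi j hj hij
  rw [Set.disjoint_left]
  intro ω h1 h2
  have h3 : ‖ω + i • al‖ ≤ rad n := mem_closedBall_zero_iff.1 h1
  have h4 : ‖ω + j • al‖ ≤ rad n := mem_closedBall_zero_iff.1 h2
  have h5 : i • al - j • al = (ω + i • al) - (ω + j • al) := by abel
  have h6 := norm_sub_le (ω + i • al) (ω + j • al)
  rw [← h5] at h6
  linarith [rad_sep n i hi j hj hij]

/-- towers -/
def tow (n : ℕ) : Set UnitAddCircle := ⋃ i ∈ Finset.range (n + 1), lev n i

lemma tow_meas (n : ℕ) : MeasurableSet (tow n) :=
  Finset.measurableSet_biUnion _ (fun i _ => lev_meas n i)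

lemma tow_real (n : ℕ) : (volume : Measure UnitAddCircle).real (tow n) =
    ((n : ℝ) + 1) * (2 * rad n) := by
  unfold tow
  rw [measureReal_biUnion_finset]
  · simp [lev_real]
  · intro i hi j hj hij
    exact lev_disj n i hi j hj hij
  · intro i _; exact lev_meas n i

lemma tow_pre (n : ℕ) : (fun ω : UnitAddCircle => ω + al) ⁻¹' (tow n) =
    ⋃ i ∈ Finset.range (n + 1), lev n (i + 1) := by
  unfold tow lev
  simp only [preimage_iUnion, ← preimage_comp]
  have : ∀ i : ℕ, ((fun ω : UnitAddCircle => ω + i • al) ∘ (fun ω => ω + al))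
      = (fun ω => ω + (i + 1) • al) := by
    intro i; funext ω; simp only [Function.comp]; rw [succ_nsmul]; abel
  simp only [this]

lemma tow_symm (n : ℕ) : (volume : Measure UnitAddCircle).real
    (symmDiff ((fun ω : UnitAddCircle => ω + al) ⁻¹' (tow n)) (tow n)) ≤ 2 * (2 * rad n) := by
  have hsub : symmDiff ((fun ω : UnitAddCircle => ω + al) ⁻¹' (tow n)) (tow n) ⊆
      lev n 0 ∪ lev n (n + 1) := by
    rw [tow_pre]
    unfold tow
    intro ω hω
    simp only [mem_symmDiff, mem_iUnion, Finset.mem_range, exists_prop, not_exists, not_and] at hω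
    rcases hω with ⟨⟨i, hi, h1⟩, h2⟩ | ⟨⟨i, hi, h1⟩, h2⟩
    · right
      by_cases h : i + 1 < n + 1
      · exact absurd h1 (h2 (i + 1) h)
      · have : i = n := by omega
        rw [this] at h1; exact h1
    · left
      rcases i with _ | i
      · exact h1
      · exact absurd h1 (h2 i (by omega))
  calc _ ≤ (volume : Measure UnitAddCircle).real (lev n 0 ∪ lev n (n + 1)) :=
        measureReal_mono hsub
    _ ≤ _ := (measureReal_union_le _ _)
    _ = _ := by rw [lev_real, lev_real]; ring

lemma tow_ratio : Tendsto (fun n => (volume : Measure UnitAddCircle).real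
    (symmDiff ((fun ω : UnitAddCircle => ω + al) ⁻¹' (tow n)) (tow n)) /
      (volume : Measure UnitAddCircle).real (tow n)) atTop (𝓝 0) := by
  have h1 : Tendsto (fun n : ℕ => 2 * (1 / ((n : ℝ) + 1))) atTop (𝓝 0) := by
    simpa using (tendsto_one_div_add_atTop_nhds_zero_nat (𝕜 := ℝ)).const_mul 2
  refine squeeze_zero (fun n => by positivity) (fun n => ?_) h1
  have hr := rad_pos n
  rw [tow_real, div_le_iff₀ (by positivity)]
  refine (tow_symm n).trans (le_of_eq ?_)
  field_simp

/-- union of the towers -/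
def bad : Set UnitAddCircle := ⋃ n, tow n

lemma bad_meas : MeasurableSet bad := MeasurableSet.iUnion tow_meas

lemma bad_vol : (volume : Measure UnitAddCircle) bad ≤ ENNReal.ofReal (1 / 4) := by
  unfold bad
  refine (measure_iUnion_le _).trans ?_
  have h1 : ∀ n, (volume : Measure UnitAddCircle) (tow n) ≤
      ENNReal.ofReal ((1 / 8) * (1 / 2) ^ n) := by
    intro n
    rw [← ENNReal.ofReal_toReal (measure_ne_top volume (tow n))]
    apply ENNReal.ofReal_le_ofReal
    have := tow_real n
    rw [Measure.real] at this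
    rw [this]
    exact rad_sum n
  refine (ENNReal.tsum_le_tsum h1).trans ?_
  have hs : Summable (fun n : ℕ => (1 / 8 : ℝ) * (1 / 2) ^ n) :=
    (summable_geometric_two).mul_left _
  rw [← ENNReal.ofReal_tsum_of_nonneg (fun n => by positivity) hs]
  apply ENNReal.ofReal_le_ofReal
  rw [tsum_mul_left, tsum_geometric_two]
  norm_num

/-- the set on which the first generator acts as the half turn -/
def good : Set UnitAddCircle := (bad ∪ (fun ω => ω + hf) ⁻¹' bad)ᶜ

lemma good_meas : MeasurableSet good :=
  (bad_meas.union ((measurable_add_const _) bad_meas)).compl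

lemma good_pos : (volume : Measure UnitAddCircle) good ≠ 0 := by
  intro h
  have h1 : (volume : Measure UnitAddCircle) (bad ∪ (fun ω => ω + hf) ⁻¹' bad) = 1 := by
    have := prob_compl_eq_zero_iff (μ := (volume : Measure UnitAddCircle))
      (bad_meas.union ((measurable_add_const hf) bad_meas))
    exact this.1 h
  have h2 := measure_union_le (μ := (volume : Measure UnitAddCircle)) bad
    ((fun ω => ω + hf) ⁻¹' bad)
  rw [h1, measure_preimage_add_right] at h2
  have h3 : (1 : ENNReal) ≤ ENNReal.ofReal (1 / 4) + ENNReal.ofReal (1 / 4) :=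
    h2.trans (add_le_add bad_vol bad_vol)
  rw [← ENNReal.ofReal_add (by norm_num) (by norm_num), ← ENNReal.ofReal_one,
    ENNReal.ofReal_le_ofReal_iff (by norm_num)] at h3
  norm_num at h3

lemma good_add (ω : UnitAddCircle) : ω + hf ∈ good ↔ ω ∈ good := by
  have : ω + hf + hf = ω := by rw [add_assoc, hf_add_hf, add_zero]
  simp only [good, mem_compl_iff, mem_union, mem_preimage, this]
  tauto

open Classical in
/-- the first generator -/
noncomputable def genA (ω : UnitAddCircle) : UnitAddCircle := if ω ∈ good then ω + hf else ω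

lemma genA_invol : Function.Involutive genA := by
  intro ω
  unfold genA
  by_cases h : ω ∈ good
  · rw [if_pos h, if_pos ((good_add ω).2 h), add_assoc, hf_add_hf, add_zero]
  · rw [if_neg h, if_neg h]

lemma genA_mp : MeasurePreserving genA (volume : Measure UnitAddCircle) volume := by
  classical
  have hm : Measurable genA := by
    unfold genA
    exact Measurable.ite good_meas (measurable_add_const _) measurable_id
  refine ⟨hm, ?_⟩
  ext s hs
  rw [Measure.map_apply hm hs]
  have h1 : genA ⁻¹' s = ((fun ω => ω + hf) ⁻¹' (s ∩ good)) ∪ (s \ good) := by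
    ext ω
    simp only [mem_preimage, mem_union, mem_inter_iff, Set.mem_sdiff, good_add]
    unfold genA
    by_cases h : ω ∈ good
    · simp [h]
    · simp [h]
  rw [h1, measure_union _ (hs.diff good_meas), measure_preimage_add_right,
    measure_inter_add_sdiff s good_meas]
  rw [Set.disjoint_left]
  intro ω h2 h3
  exact h3.2 ((good_add ω).1 h2.2)

/-- the two generators -/
noncomputable def gens : Bool → Equiv.Perm UnitAddCircle
  | true => genA_invol.toPerm
  | false => Equiv.addRight al

/-- the action of the free group of rank two on the circle -/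
@[reducible] noncomputable def act : MulAction (FreeGroup Bool) UnitAddCircle :=
  MulAction.compHom UnitAddCircle (FreeGroup.lift gens)

lemma mp_inv {e : Equiv.Perm UnitAddCircle}
    (h : MeasurePreserving e (volume : Measure UnitAddCircle) volume)
    (hm : Measurable e.symm) :
    MeasurePreserving (e⁻¹ : Equiv.Perm UnitAddCircle) (volume : Measure UnitAddCircle) volume := by
  let E : UnitAddCircle ≃ᵐ UnitAddCircle := ⟨e, h.measurable, hm⟩
  have : MeasurePreserving E (volume : Measure UnitAddCircle) volume := h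
  exact this.symm

lemma act_mp (g : FreeGroup Bool) :
    MeasurePreserving (FreeGroup.lift gens g : Equiv.Perm UnitAddCircle)
      (volume : Measure UnitAddCircle) volume := by
  induction g using FreeGroup.induction_on with
  | C1 => simpa using MeasurePreserving.id (volume : Measure UnitAddCircle)
  | of x =>
    rw [FreeGroup.lift_apply_of]
    cases x
    · exact measurePreserving_add_right volume al
    · exact genA_mp
  | inv_of x ih =>
    rw [map_inv]
    refine mp_inv ih ?_
    rw [FreeGroup.lift_apply_of]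
    cases x
    · exact (measurePreserving_add_right volume (-al)).measurable
    · exact genA_mp.measurable
  | mul x y hx hy =>
    rw [map_mul]
    exact hx.comp hy

/-- The negation of the preceding statement: Every ergodic measure-preserving action of a countable free group on a standard probability space is isomorphic mod null sets to a continuous action on a compact metrizable space with exactly one invariant probability measure. -/
theorem result :
    ¬ (∀ (ι : Type) [Countable ι] (Ω : Type) [MeasurableSpace Ω] [StandardBorelSpace Ω]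
      [MulAction (FreeGroup ι) Ω] (μ : Measure Ω),
      IsProbabilityMeasure μ →
      (∀ g : FreeGroup ι, MeasurePreserving (fun ω : Ω => g • ω) μ μ) →
      (∀ s : Set Ω, MeasurableSet s →
          (∀ g : FreeGroup ι, (fun ω : Ω => g • ω) ⁻¹' s = s) → μ s = 0 ∨ μ s = 1) →
      ∃ (X : Type) (_ : TopologicalSpace X) (_ : MeasurableSpace X)
        (_ : MulAction (FreeGroup ι) X),
        BorelSpace X ∧ CompactSpace X ∧ TopologicalSpace.MetrizableSpace X ∧
        (∀ g : FreeGroup ι, Continuous (fun x : X => g • x)) ∧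
        ∃ ν : Measure X, IsProbabilityMeasure ν ∧
          (∀ g : FreeGroup ι, Measure.map (fun x : X => g • x) ν = ν) ∧
          (∀ ν' : Measure X, IsProbabilityMeasure ν' →
              (∀ g : FreeGroup ι, Measure.map (fun x : X => g • x) ν' = ν') → ν' = ν) ∧
          ∃ (φ : Ω → X) (ψ : X → Ω), Measurable φ ∧ Measurable ψ ∧
            Measure.map φ μ = ν ∧
            (∀ g : FreeGroup ι, ∀ᵐ ω ∂μ, φ (g • ω) = g • φ ω) ∧
            (∀ᵐ ω ∂μ, ψ (φ ω) = ω) ∧
            (∀ᵐ x ∂ν, φ (ψ x) = x)) := by
  intro H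
  let _ := act
  have hact : ∀ (g : FreeGroup Bool) (ω : UnitAddCircle), g • ω = FreeGroup.lift gens g ω :=
    fun g ω => rfl
  have hmp : ∀ g : FreeGroup Bool,
      MeasurePreserving (fun ω : UnitAddCircle => g • ω) volume volume := by
    intro g
    have e : (fun ω : UnitAddCircle => g • ω) = ⇑(FreeGroup.lift gens g) := by
      funext ω; exact hact g ω
    rw [e]
    exact act_mp g
  have herg : ∀ s : Set UnitAddCircle, MeasurableSet s →
      (∀ g : FreeGroup Bool, (fun ω : UnitAddCircle => g • ω) ⁻¹' s = s) →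
      (volume : Measure UnitAddCircle) s = 0 ∨ (volume : Measure UnitAddCircle) s = 1 := by
    intro s hs hinv
    have h1 : (fun ω : UnitAddCircle => ω + al) ⁻¹' s = s := by
      have h2 := hinv (FreeGroup.of false)
      have e : (fun ω : UnitAddCircle => FreeGroup.of false • ω) = fun ω => ω + al := by
        funext ω; rw [hact, FreeGroup.lift_apply_of]; rfl
      rw [e] at h2
      exact h2
    exact (AddCircle.ergodic_add_right.2 al_order).toPreErgodic.prob_eq_zero_or_one hs h1
  have H1 := H Bool UnitAddCircle volume inferInstance hmp herg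
  obtain ⟨X, tX, mX, aX, hB, hC, hM, hcont, ν, hν, hνinv, hνuniq, φ, ψ, hφ, hψ, hφν, heq, h1, h2⟩ := H1
  have heqA : ∀ᵐ ω ∂(volume : Measure UnitAddCircle),
      φ (genA ω) = (FreeGroup.of true) • φ ω := heq (FreeGroup.of true)
  have heqB : ∀ᵐ ω ∂(volume : Measure UnitAddCircle),
      φ (ω + al) = (FreeGroup.of false) • φ ω := heq (FreeGroup.of false)
  obtain ⟨ν', hν', hb', ha', hfix⟩ := key (volume : Measure UnitAddCircle) genA (fun ω => ω + al)
    (measurePreserving_add_right volume al) tow tow_meas
    (fun n h0 => by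
      have h3 := tow_real n
      rw [Measure.real, h0] at h3
      have h4 := rad_pos n
      have h5 : (0 : ℝ) < ((n : ℝ) + 1) * (2 * rad n) := by positivity
      rw [← h3] at h5
      simp at h5)
    (fun n ω hω => by
      unfold genA
      rw [if_neg]
      intro hg
      apply hg
      left
      exact mem_iUnion.2 ⟨n, hω⟩)
    tow_ratio (fun x => FreeGroup.of true • x) (fun x => FreeGroup.of false • x)
    (hcont _) (hcont _) φ hφ heqA heqB
  have hall : ∀ g : FreeGroup Bool, Measure.map (fun x : X => g • x) ν' = ν' := by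
    intro g
    induction g using FreeGroup.induction_on with
    | C1 => simp
    | of x =>
      cases x
      · exact hb'
      · exact ha'
    | inv_of x ih =>
      have h3 : Measure.map (fun y : X => (FreeGroup.of x)⁻¹ • y)
          (Measure.map (fun y : X => FreeGroup.of x • y) ν') = ν' := by
        rw [Measure.map_map (hcont _).measurable (hcont _).measurable]
        have : ((fun y : X => (FreeGroup.of x)⁻¹ • y) ∘ fun y => FreeGroup.of x • y) = id := by
          funext y; simp
        rw [this, Measure.map_id]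
      rw [ih] at h3
      exact h3
    | mul x y hx hy =>
      have h3 : (fun z : X => (x * y) • z) = (fun z => x • z) ∘ (fun z => y • z) := by
        funext z; simp [mul_smul]
      rw [h3, ← Measure.map_map (hcont _).measurable (hcont _).measurable, hy, hx]
  have hνν' : ν' = ν := hνuniq ν' hν' hall
  rw [hνν', ← hφν] at hfix
  have hcl : IsClosed {x : X | FreeGroup.of true • x = x} := isClosed_eq (hcont _) continuous_id
  rw [Measure.map_apply hφ hcl.isOpen_compl.measurableSet] at hfix
  have h3 : ∀ᵐ ω ∂(volume : Measure UnitAddCircle), FreeGroup.of true • φ ω = φ ω := by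
    rw [ae_iff]
    have e : {ω | ¬ (FreeGroup.of true • φ ω = φ ω)} =
        φ ⁻¹' {x : X | FreeGroup.of true • x = x}ᶜ := by
      ext ω; simp
    rw [e]
    exact hfix
  have h4 : ∀ᵐ ω ∂(volume : Measure UnitAddCircle), ψ (φ (genA ω)) = genA ω := by
    have h6 := genA_mp.quasiMeasurePreserving.tendsto_ae.eventually h1
    exact h6
  have h5 : ∀ᵐ ω ∂(volume : Measure UnitAddCircle), ω ∉ good := by
    filter_upwards [heqA, h1, h3, h4] with ω k1 k2 k3 k4 k5
    rw [k1, k3, k2] at k4
    unfold genA at k4
    rw [if_pos k5] at k4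
    exact hf_ne (by simpa using k4)
  exact good_pos (by simpa [ae_iff] using h5)

end Pool.Agent.S02626
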