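import Pool.Statements.S02628
import Pool.Agent.Helper34.Sing10

set_option autoImplicit false
open MeasureTheory
open Pool Pool.MP_12605b_an

namespace Pool.Agent.S02628

/-- The negation of the preceding statement: For every nonzero discrete finite measure μ on the circle there is δ>0 such that each continuous singular inner function S_ν differs from S_μ by more than δ at some point of the open unit disk. -/
theorem result :
    ¬ (∀ μ : Measure ℝ, IsFiniteMeasure μ → μ (Set.Ico 0 (2 * Real.pi))ᶜ = 0 → μ ≠ 0 →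
      (∃ C : Set ℝ, C.Countable ∧ μ Cᶜ = 0) →
      ∃ δ : ℝ, 0 < δ ∧
        ∀ ν : Measure ℝ, IsFiniteMeasure ν → ν (Set.Ico 0 (2 * Real.pi))ᶜ = 0 →
          ν.MutuallySingular volume → (∀ x : ℝ, ν {x} = 0) →
          ∃ z : ℂ, ‖z‖ < 1 ∧
            δ < ‖Complex.exp (-∫ θ, (Complex.exp ((θ : ℂ) * Complex.I) + z) /
                    (Complex.exp ((θ : ℂ) * Complex.I) - z) ∂μ)
                - Complex.exp (-∫ θ, (Complex.exp ((θ : ℂ) * Complex.I) + z) /
                    (Complex.exp ((θ : ℂ) * Complex.I) - z) ∂ν)‖) := by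
  intro h
  obtain ⟨T, hTfin, ⟨C, hC, hCs, hTC⟩, hT0, hGood⟩ :=
    Pool.Agent.Helper34.Sing.exists_limit Pool.Agent.Helper34.Sing.L1_holds
  have hsupp : T (Set.Ico 0 (2 * Real.pi))ᶜ = 0 :=
    measure_mono_null (Set.compl_subset_compl.2 (hCs.trans Set.Ioo_subset_Ico_self)) hTC
  obtain ⟨δ, hδ, hδ'⟩ := h T hTfin hsupp hT0 ⟨C, hC, hTC⟩
  obtain ⟨ν, h1, h2, h3, h4, h5⟩ := hGood δ hδ
  have hνfin : IsFiniteMeasure ν := ⟨by rw [h4]; exact measure_lt_top _ _⟩
  have hνsupp : ν (Set.Ico 0 (2 * Real.pi))ᶜ = 0 :=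
    measure_mono_null (Set.compl_subset_compl.2 Set.Ioo_subset_Ico_self) h1
  obtain ⟨z, hz, hlt⟩ := hδ' ν hνfin hνsupp h2 h3
  have h6 := h5 z hz
  exact absurd h6 (not_le.2 hlt)

end Pool.Agent.S02628
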