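import Pool.Statements.S02640
import Pool.Agent.Helper746.Final

set_option autoImplicit false
open MeasureTheory Filter Topology
open Pool Pool.MP_14ccba_an

namespace Pool.Agent.S02640

/-- The negation of the preceding statement: For n ≥ 3, every bounded quasiregular map f of the unit ball of R^n (continuous, Sobolev W^{1,n}_loc, with ∣Df∣^n ≤ K det Df a.e.) has a limit of f(r·ξ) as r → 1⁻ for almost every unit direction ξ. -/
theorem result :
    ¬ (∀ n : ℕ, 3 ≤ n →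
  ∀ f : EuclideanSpace ℝ (Fin n) → EuclideanSpace ℝ (Fin n),
    ContinuousOn f (Metric.ball (0 : EuclideanSpace ℝ (Fin n)) 1) →
    (∃ M : ℝ, ∀ x ∈ Metric.ball (0 : EuclideanSpace ℝ (Fin n)) 1, ‖f x‖ ≤ M) →
    (∃ Df : EuclideanSpace ℝ (Fin n) →
        (EuclideanSpace ℝ (Fin n) →L[ℝ] EuclideanSpace ℝ (Fin n)),
      AEStronglyMeasurable Df (volume : Measure (EuclideanSpace ℝ (Fin n))) ∧
      (∀ K : Set (EuclideanSpace ℝ (Fin n)), IsCompact K →
          K ⊆ Metric.ball (0 : EuclideanSpace ℝ (Fin n)) 1 →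
          IntegrableOn (fun x => ‖Df x‖ ^ n) K volume) ∧
      (∀ φ : EuclideanSpace ℝ (Fin n) → ℝ, ContDiff ℝ 1 φ → HasCompactSupport φ →
          tsupport φ ⊆ Metric.ball (0 : EuclideanSpace ℝ (Fin n)) 1 →
          ∀ v : EuclideanSpace ℝ (Fin n),
            ∫ x, (fderiv ℝ φ x v) • f x = - ∫ x, φ x • (Df x v)) ∧
      (∃ K : ℝ, 1 ≤ K ∧
          ∀ᵐ x ∂(volume.restrict (Metric.ball (0 : EuclideanSpace ℝ (Fin n)) 1)),
            ‖Df x‖ ^ n ≤ K * ContinuousLinearMap.det (Df x))) →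
    ∀ᵐ x ∂(volume : Measure (EuclideanSpace ℝ (Fin n))), x ≠ 0 →
      ∃ L : EuclideanSpace ℝ (Fin n),
        Tendsto (fun r : ℝ => f (r • (‖x‖⁻¹ • x)))
          (𝓝[Set.Iio 1] 1) (𝓝 L)) := by
  intro H
  open Pool.Agent.Helper746 in
  have hK : (1 : ℝ) ≤ 10 ^ 8 * KH ^ 3 := by
    have h := KH_ge
    have h1 : (1 : ℝ) ≤ KH := by linarith
    have h2 : (1 : ℝ) ≤ KH ^ 3 := one_le_pow₀ h1
    nlinarith
  obtain ⟨h1, h2, h3⟩ := Pool.Agent.Helper746.Transfer.transfer Pool.Agent.Helper746.FF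
    Pool.Agent.Helper746.p0 _ hK Pool.Agent.Helper746.FF_lip Pool.Agent.Helper746.FF_good
    Pool.Agent.Helper746.FF_far
  have hlim := H 3 le_rfl Pool.Agent.Helper746.ff h1 h2 h3
  have hno := Pool.Agent.Helper746.ae_no_limit
  have hfalse : ∀ᵐ x : EuclideanSpace ℝ (Fin 3) ∂volume, ¬ (0 < x 2) := by
    filter_upwards [hlim, hno] with x a b hx
    exact b hx (a (by rintro rfl; simp at hx))
  rw [ae_iff] at hfalse
  simp only [not_not] at hfalse
  have hopen : IsOpen {x : EuclideanSpace ℝ (Fin 3) | 0 < x 2} :=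
    isOpen_lt continuous_const (by fun_prop)
  have hne : {x : EuclideanSpace ℝ (Fin 3) | 0 < x 2}.Nonempty :=
    ⟨EuclideanSpace.single 2 1, by simp⟩
  exact (hopen.measure_pos volume hne).ne' hfalse

end Pool.Agent.S02640
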