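import Pool.Statements.S02641

set_option autoImplicit false

namespace Pool.Agent.S02641.Aux

section

open Finset

/-- sliding sums of a periodic sequence -/
noncomputable def SS {n : ℕ} (a : ZMod n → ℂ) (t : ZMod n) (v : ℕ) : ℂ :=
  ∑ j ∈ range v, a (t + (j : ZMod n))

lemma SS_add {n : ℕ} (a : ZMod n → ℂ) (t : ZMod n) (u v : ℕ) :
    SS a t (u + v) = SS a t u + SS a (t + (u : ZMod n)) v := by
  unfold SS
  rw [Finset.sum_range_add]
  congr 1
  apply Finset.sum_congr rfl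
  intro j _
  push_cast
  rw [add_assoc]

/-- energy of averages -/
noncomputable def EE {n : ℕ} [NeZero n] (a : ZMod n → ℂ) (v : ℕ) : ℝ :=
  ∑ t : ZMod n, ‖SS a t v / (v : ℂ)‖ ^ 2

lemma EE_nonneg {n : ℕ} [NeZero n] (a : ZMod n → ℂ) (v : ℕ) : 0 ≤ EE a v := by
  unfold EE
  positivity

lemma EE_le {n : ℕ} [NeZero n] (a : ZMod n → ℂ) (v : ℕ) :
    EE a v ≤ ∑ t : ZMod n, ‖a t‖ ^ 2 := by
  rcases Nat.eq_zero_or_pos v with hv | hv
  · subst hv
    unfold EE
    simp
    positivity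
  · have hv' : (0 : ℝ) < v := by exact_mod_cast hv
    have h1 : ∀ t : ZMod n, ‖SS a t v / (v : ℂ)‖ ^ 2
        ≤ (1 / (v : ℝ)) * ∑ j ∈ range v, ‖a (t + (j : ZMod n))‖ ^ 2 := by
      intro t
      rw [norm_div, div_pow]
      have h2 : ‖SS a t v‖ ^ 2 ≤ v * ∑ j ∈ range v, ‖a (t + (j : ZMod n))‖ ^ 2 := by
        have h3 : ‖SS a t v‖ ≤ ∑ j ∈ range v, ‖a (t + (j : ZMod n))‖ := norm_sum_le _ _
        have h4 : (∑ j ∈ range v, ‖a (t + (j : ZMod n))‖) ^ 2
            ≤ ((range v).card : ℝ) * ∑ j ∈ range v, ‖a (t + (j : ZMod n))‖ ^ 2 :=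
          sq_sum_le_card_mul_sum_sq
        rw [Finset.card_range] at h4
        calc ‖SS a t v‖ ^ 2 ≤ (∑ j ∈ range v, ‖a (t + (j : ZMod n))‖) ^ 2 := by gcongr
          _ ≤ _ := h4
      have h5 : ‖(v : ℂ)‖ = (v : ℝ) := by simp
      rw [h5, div_le_iff₀ (by positivity)]
      calc ‖SS a t v‖ ^ 2 ≤ v * ∑ j ∈ range v, ‖a (t + (j : ZMod n))‖ ^ 2 := h2
        _ = (1 / (v : ℝ)) * (∑ j ∈ range v, ‖a (t + (j : ZMod n))‖ ^ 2) * (v : ℝ) ^ 2 := by
            field_simp
    calc EE a v ≤ ∑ t : ZMod n, (1 / (v : ℝ)) * ∑ j ∈ range v, ‖a (t + (j : ZMod n))‖ ^ 2 := by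
          unfold EE
          exact Finset.sum_le_sum (fun t _ => h1 t)
      _ = (1 / (v : ℝ)) * ∑ j ∈ range v, ∑ t : ZMod n, ‖a (t + (j : ZMod n))‖ ^ 2 := by
          rw [← Finset.mul_sum, Finset.sum_comm]
      _ = (1 / (v : ℝ)) * ∑ j ∈ range v, ∑ t : ZMod n, ‖a t‖ ^ 2 := by
          congr 1
          apply Finset.sum_congr rfl
          intro j _
          exact Equiv.sum_comp (Equiv.addRight (j : ZMod n)) (fun t => ‖a t‖ ^ 2)
      _ = ∑ t : ZMod n, ‖a t‖ ^ 2 := by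
          rw [Finset.sum_const, Finset.card_range, nsmul_eq_mul]
          field_simp

/-- differences of adjacent averages -/
noncomputable def WW {n : ℕ} [NeZero n] (a : ZMod n → ℂ) (u v : ℕ) : ℝ :=
  ∑ t : ZMod n, ‖SS a (t + (u : ZMod n)) v / (v : ℂ) - SS a t u / (u : ℂ)‖ ^ 2

lemma var_point (X Y : ℂ) (u v : ℝ) (hu : 0 < u) (hv : 0 < v) :
    (u * v / (u + v) ^ 2) * ‖Y - X‖ ^ 2
      = (u * ‖X‖ ^ 2 + v * ‖Y‖ ^ 2) / (u + v) - ‖((u : ℂ) * X + (v : ℂ) * Y) / ((u + v : ℝ) : ℂ)‖ ^ 2 := by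
  have h1 : ∀ Z : ℂ, ‖Z‖ ^ 2 = Z.re ^ 2 + Z.im ^ 2 := by
    intro Z
    rw [← Complex.normSq_eq_norm_sq, Complex.normSq_apply]; ring
  rw [norm_div, div_pow]
  have h5 : ‖((u + v : ℝ) : ℂ)‖ = u + v := by
    rw [Complex.norm_real, Real.norm_of_nonneg (by positivity)]
  rw [h5, h1, h1, h1, h1]
  simp only [Complex.sub_re, Complex.sub_im, Complex.add_re, Complex.add_im, Complex.mul_re,
    Complex.mul_im, Complex.ofReal_re, Complex.ofReal_im]
  field_simp
  ring

lemma var_identity {n : ℕ} [NeZero n] (a : ZMod n → ℂ) (u v : ℕ) (hu : 0 < u) (hv : 0 < v) :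
    ((u : ℝ) * v / ((u : ℝ) + v) ^ 2) * WW a u v
      = ((u : ℝ) * EE a u + v * EE a v) / ((u : ℝ) + v) - EE a (u + v) := by
  have hu' : (0 : ℝ) < u := by exact_mod_cast hu
  have hv' : (0 : ℝ) < v := by exact_mod_cast hv
  have hE : EE a v = ∑ t : ZMod n, ‖SS a (t + (u : ZMod n)) v / (v : ℂ)‖ ^ 2 := by
    unfold EE
    exact (Equiv.sum_comp (Equiv.addRight (u : ZMod n)) (fun t => ‖SS a t v / (v : ℂ)‖ ^ 2)).symm
  rw [hE]
  unfold WW EE
  rw [Finset.mul_sum, Finset.mul_sum, Finset.mul_sum, ← Finset.sum_add_distrib, Finset.sum_div,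
    ← Finset.sum_sub_distrib]
  apply Finset.sum_congr rfl
  intro t _
  rw [var_point _ _ (u : ℝ) (v : ℝ) hu' hv']
  congr 3
  rw [SS_add]
  have hu'' : (u : ℂ) ≠ 0 := by exact_mod_cast hu.ne'
  have hv'' : (v : ℂ) ≠ 0 := by exact_mod_cast hv.ne'
  push_cast
  field_simp

/-- harmonic sums -/
noncomputable def HH (m : ℕ) : ℝ := ∑ i ∈ range m, 1 / ((i : ℝ) + 1)

lemma HH_succ (m : ℕ) : HH (m + 1) = HH m + 1 / ((m : ℝ) + 1) := by
  unfold HH
  rw [Finset.sum_range_succ]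

lemma HH_mono {m k : ℕ} (h : m ≤ k) : HH m ≤ HH k := by
  unfold HH
  apply Finset.sum_le_sum_of_subset_of_nonneg
  · intro x hx
    simp only [Finset.mem_range] at hx ⊢
    omega
  · intros
    positivity

/-- telescoping coefficient -/
lemma coef_sum (u m : ℕ) (hu : 0 < u) :
    ∑ v ∈ range m, 1 / (((v : ℝ) + 1) * ((u : ℝ) + v + 1))
      = (1 / (u : ℝ)) * (HH m + HH u - HH (u + m)) := by
  have hu' : (0 : ℝ) < u := by exact_mod_cast hu
  induction m with
  | zero => simp [HH]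
  | succ m ih =>
    rw [Finset.sum_range_succ, ih, ← add_assoc, HH_succ, HH_succ]
    push_cast
    field_simp
    ring

lemma coef_le (u m : ℕ) (hu : 0 < u) :
    ∑ v ∈ range m, 1 / (((v : ℝ) + 1) * ((u : ℝ) + v + 1)) ≤ (1 / (u : ℝ)) * HH u := by
  rw [coef_sum u m hu]
  have h := HH_mono (show m ≤ u + m by omega)
  have hu' : (0 : ℝ) < u := by exact_mod_cast hu
  gcongr
  linarith

lemma W_pair {n : ℕ} [NeZero n] (a : ZMod n → ℂ) (u v : ℕ) (hu : 0 < u) (hv : 0 < v) :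
    WW a u v / ((u : ℝ) + v) ^ 2
      = (EE a u - EE a (u + v)) / ((v : ℝ) * ((u : ℝ) + v))
        + (EE a v - EE a (u + v)) / ((u : ℝ) * ((u : ℝ) + v)) := by
  have hu' : (0 : ℝ) < u := by exact_mod_cast hu
  have hv' : (0 : ℝ) < v := by exact_mod_cast hv
  have h := var_identity a u v hu hv
  have h2 : WW a u v / ((u : ℝ) + v) ^ 2 = (1 / ((u : ℝ) * v)) *
      (((u : ℝ) * v / ((u : ℝ) + v) ^ 2) * WW a u v) := by
    field_simp
  rw [h2, h]
  field_simp
  ring

lemma layer_eq {n : ℕ} [NeZero n] (a : ZMod n → ℂ) (m : ℕ) :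
    ∑ i ∈ range m, WW a (i + 1) (m - i) / ((m : ℝ) + 1) ^ 2
      = 2 * ∑ i ∈ range m, (EE a (i + 1) - EE a (m + 1)) / (((m : ℝ) - i) * ((m : ℝ) + 1)) := by
  have h1 : ∀ i ∈ range m, WW a (i + 1) (m - i) / ((m : ℝ) + 1) ^ 2
      = (EE a (i + 1) - EE a (m + 1)) / (((m : ℝ) - i) * ((m : ℝ) + 1))
        + (EE a (m - i) - EE a (m + 1)) / (((i : ℝ) + 1) * ((m : ℝ) + 1)) := by
    intro i hi
    rw [Finset.mem_range] at hi
    have h := W_pair a (i + 1) (m - i) (by omega) (by omega)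
    have e1 : i + 1 + (m - i) = m + 1 := by omega
    have e2 : (((i + 1 : ℕ) : ℝ) + ((m - i : ℕ) : ℝ)) = (m : ℝ) + 1 := by
      rw [← Nat.cast_add, e1]; push_cast; ring
    have e3 : ((m - i : ℕ) : ℝ) = (m : ℝ) - i := by
      rw [Nat.cast_sub hi.le]
    rw [e1, e2, e3] at h
    rw [h]
    push_cast
    rfl
  rw [Finset.sum_congr rfl h1, Finset.sum_add_distrib, two_mul]
  congr 1
  rw [← Finset.sum_range_reflect]
  apply Finset.sum_congr rfl
  intro i hi
  rw [Finset.mem_range] at hi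
  have e1 : m - (m - 1 - i) = i + 1 := by omega
  have e2 : ((m - 1 - i : ℕ) : ℝ) + 1 = (m : ℝ) - i := by
    have : ((m - 1 - i : ℕ) : ℝ) = (m : ℝ) - 1 - i := by
      rw [Nat.cast_sub (by omega), Nat.cast_sub (by omega)]; simp
    rw [this]; ring
  rw [e1, e2]

lemma inner_harm (m : ℕ) : ∑ i ∈ range m, 1 / ((m : ℝ) - i) = HH m := by
  unfold HH
  rw [← Finset.sum_range_reflect]
  apply Finset.sum_congr rfl
  intro i hi
  rw [Finset.mem_range] at hi
  have : ((m - 1 - i : ℕ) : ℝ) = (m : ℝ) - 1 - i := by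
    rw [Nat.cast_sub (by omega), Nat.cast_sub (by omega)]; simp
  rw [this]
  congr 1
  ring

lemma sum_inv_sq_le (R : ℕ) : ∑ i ∈ range R, 1 / ((i : ℝ) + 1) ^ 2 ≤ 2 := by
  have h : ∀ R : ℕ, ∑ i ∈ range (R + 1), 1 / ((i : ℝ) + 1) ^ 2 ≤ 2 - 1 / ((R : ℝ) + 1) := by
    intro R
    induction R with
    | zero => norm_num
    | succ k ih =>
      rw [Finset.sum_range_succ]
      have hk : (0 : ℝ) ≤ k := Nat.cast_nonneg k
      have h2 : 1 / (((k + 1 : ℕ) : ℝ) + 1) ^ 2 ≤ 1 / ((k : ℝ) + 1) - 1 / (((k + 1 : ℕ) : ℝ) + 1) := by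
        push_cast
        rw [div_sub_div _ _ (by positivity) (by positivity), div_le_div_iff₀ (by positivity) (by positivity)]
        nlinarith
      linarith
  rcases Nat.eq_zero_or_pos R with hR | hR
  · subst hR; simp
  · obtain ⟨k, rfl⟩ : ∃ k, R = k + 1 := ⟨R - 1, by omega⟩
    have := h k
    have h3 : 0 ≤ 1 / ((k : ℝ) + 1) := by positivity
    linarith

theorem disc_square {n : ℕ} [NeZero n] (a : ZMod n → ℂ) (R : ℕ) :
    ∑ m ∈ range R, ∑ i ∈ range m, WW a (i + 1) (m - i) / ((m : ℝ) + 1) ^ 2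
      ≤ 4 * ∑ t : ZMod n, ‖a t‖ ^ 2 := by
  have h1 : ∑ m ∈ range R, ∑ i ∈ range m, WW a (i + 1) (m - i) / ((m : ℝ) + 1) ^ 2
      = 2 * ∑ m ∈ range R, ∑ i ∈ range m, EE a (i + 1) * (1 / (((m : ℝ) - i) * ((m : ℝ) + 1)))
        - 2 * ∑ m ∈ range R, EE a (m + 1) * (1 / ((m : ℝ) + 1)) * HH m := by
    rw [Finset.mul_sum, Finset.mul_sum, ← Finset.sum_sub_distrib]
    apply Finset.sum_congr rfl
    intro m _
    rw [layer_eq, ← inner_harm m, Finset.mul_sum, Finset.mul_sum, Finset.mul_sum, Finset.mul_sum,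
      ← Finset.sum_sub_distrib]
    apply Finset.sum_congr rfl
    intro i hi
    rw [Finset.mem_range] at hi
    have hi' : (i : ℝ) < m := by exact_mod_cast hi
    have h3 : (m : ℝ) - i ≠ 0 := by linarith
    have h4 : (m : ℝ) + 1 ≠ 0 := by positivity
    field_simp
  have h2 : ∑ m ∈ range R, ∑ i ∈ range m, EE a (i + 1) * (1 / (((m : ℝ) - i) * ((m : ℝ) + 1)))
      = ∑ i ∈ range R, ∑ m ∈ Ico (i + 1) R, EE a (i + 1) * (1 / (((m : ℝ) - i) * ((m : ℝ) + 1))) := by
    apply Finset.sum_comm'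
    intro m i
    simp only [Finset.mem_range, Finset.mem_Ico]
    omega
  have h3 : ∀ i ∈ range R, ∑ m ∈ Ico (i + 1) R, EE a (i + 1) * (1 / (((m : ℝ) - i) * ((m : ℝ) + 1)))
      ≤ EE a (i + 1) * ((1 / ((i : ℝ) + 1)) * HH (i + 1)) := by
    intro i _
    rw [← Finset.mul_sum, Finset.sum_Ico_eq_sum_range]
    apply mul_le_mul_of_nonneg_left _ (EE_nonneg a _)
    have h := coef_le (i + 1) (R - (i + 1)) (by omega)
    refine le_trans (le_of_eq ?_) (le_trans h (le_of_eq ?_))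
    · apply Finset.sum_congr rfl
      intro v _
      push_cast
      congr 2
      ring
    · push_cast; rfl
  rw [h1, h2]
  have h4 : ∑ i ∈ range R, ∑ m ∈ Ico (i + 1) R, EE a (i + 1) * (1 / (((m : ℝ) - i) * ((m : ℝ) + 1)))
      ≤ ∑ i ∈ range R, EE a (i + 1) * ((1 / ((i : ℝ) + 1)) * HH (i + 1)) := Finset.sum_le_sum h3
  have h5 : ∑ i ∈ range R, EE a (i + 1) * ((1 / ((i : ℝ) + 1)) * HH (i + 1))
      - ∑ m ∈ range R, EE a (m + 1) * (1 / ((m : ℝ) + 1)) * HH m
      = ∑ i ∈ range R, EE a (i + 1) * (1 / ((i : ℝ) + 1) ^ 2) := by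
    rw [← Finset.sum_sub_distrib]
    apply Finset.sum_congr rfl
    intro i _
    rw [HH_succ]
    have h4 : (i : ℝ) + 1 ≠ 0 := by positivity
    field_simp
    ring
  have h6 : ∑ i ∈ range R, EE a (i + 1) * (1 / ((i : ℝ) + 1) ^ 2)
      ≤ (∑ t : ZMod n, ‖a t‖ ^ 2) * 2 := by
    calc ∑ i ∈ range R, EE a (i + 1) * (1 / ((i : ℝ) + 1) ^ 2)
        ≤ ∑ i ∈ range R, (∑ t : ZMod n, ‖a t‖ ^ 2) * (1 / ((i : ℝ) + 1) ^ 2) := by
          apply Finset.sum_le_sum
          intro i _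
          have := EE_le a (i + 1)
          gcongr
      _ = (∑ t : ZMod n, ‖a t‖ ^ 2) * ∑ i ∈ range R, (1 / ((i : ℝ) + 1) ^ 2) := by
          rw [Finset.mul_sum]
      _ ≤ _ := by
          have := sum_inv_sq_le R
          have h0 : 0 ≤ ∑ t : ZMod n, ‖a t‖ ^ 2 := by positivity
          gcongr
  linarith

end

section

open Finset
open scoped ComplexConjugate

/-- discrete Cauchy kernel -/
noncomputable def kk (z : ℕ → ℂ) (p q : ℕ) : ℂ := (z q - z p)⁻¹

noncomputable def QQ (z : ℕ → ℂ) (p q r : ℕ) : ℝ := (kk z p q * conj (kk z p r)).re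

noncomputable def Th (z : ℕ → ℂ) (p q r : ℕ) : ℝ := 2 * (QQ z p q r + QQ z q p r + QQ z r p q)

/-- near identity sequences -/
def NI (z : ℕ → ℂ) : Prop := ∀ p q : ℕ, ‖z p - z q - ((p : ℂ) - q)‖ ≤ (1 / 2) * |(p : ℝ) - q|

lemma QQ_symm (z : ℕ → ℂ) (p q r : ℕ) : QQ z p q r = QQ z p r q := by
  unfold QQ
  simp only [Complex.mul_re, Complex.conj_re, Complex.conj_im]
  ring

lemma Th_swap12 (z : ℕ → ℂ) (p q r : ℕ) : Th z p q r = Th z q p r := by
  unfold Th
  rw [QQ_symm z r p q]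
  ring

lemma Th_swap23 (z : ℕ → ℂ) (p q r : ℕ) : Th z p q r = Th z p r q := by
  unfold Th
  rw [QQ_symm z p q r]
  ring

lemma kk_self (z : ℕ → ℂ) (p : ℕ) : kk z p p = 0 := by
  simp [kk]

lemma kk_anti (z : ℕ → ℂ) (p q : ℕ) : kk z p q = - kk z q p := by
  unfold kk
  rw [← neg_sub, inv_neg]

lemma Th_eq23 (z : ℕ → ℂ) (p q : ℕ) : Th z p q q = 2 * ‖kk z p q‖ ^ 2 := by
  unfold Th QQ
  rw [kk_self]
  simp only [map_zero, mul_zero, Complex.zero_re, add_zero]
  rw [Complex.mul_conj, Complex.ofReal_re, Complex.normSq_eq_norm_sq]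

lemma Th_eq12 (z : ℕ → ℂ) (p r : ℕ) : Th z p p r = 2 * ‖kk z p r‖ ^ 2 := by
  rw [Th_swap23, Th_swap12, Th_eq23, kk_anti, norm_neg]

lemma Th_eq13 (z : ℕ → ℂ) (p q : ℕ) : Th z p q p = 2 * ‖kk z p q‖ ^ 2 := by
  rw [Th_swap23, Th_eq12]

lemma menger_alg (A B : ℂ) (hA : A ≠ 0) (hB : B ≠ 0) (hAB : B - A ≠ 0) :
    2 * ((A⁻¹ * conj (B⁻¹)).re + ((-A)⁻¹ * conj ((B - A)⁻¹)).re + ((-B)⁻¹ * conj ((A - B)⁻¹)).re)
      = 4 * ((conj A * B).im) ^ 2 / (‖A‖ ^ 2 * ‖B‖ ^ 2 * ‖B - A‖ ^ 2) := by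
  have h1 : ∀ Z : ℂ, ‖Z‖ ^ 2 = Z.re ^ 2 + Z.im ^ 2 := by
    intro Z
    rw [← Complex.normSq_eq_norm_sq, Complex.normSq_apply]; ring
  have hne : ∀ Z : ℂ, Z ≠ 0 → Z.re ^ 2 + Z.im ^ 2 ≠ 0 := by
    intro Z hZ
    rw [← h1]
    exact pow_ne_zero 2 (norm_ne_zero_iff.mpr hZ)
  have hinv : ∀ X Y : ℂ, X ≠ 0 → Y ≠ 0 → (X⁻¹ * conj (Y⁻¹)).re
      = (X.re * Y.re + X.im * Y.im) / ((X.re ^ 2 + X.im ^ 2) * (Y.re ^ 2 + Y.im ^ 2)) := by
    intro X Y hX hY
    have hx := hne X hX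
    have hy := hne Y hY
    simp only [Complex.mul_re, Complex.conj_re, Complex.conj_im, Complex.inv_re, Complex.inv_im,
      Complex.normSq_apply]
    have e1 : X.re * X.re + X.im * X.im = X.re ^ 2 + X.im ^ 2 := by ring
    have e2 : Y.re * Y.re + Y.im * Y.im = Y.re ^ 2 + Y.im ^ 2 := by ring
    rw [e1, e2]
    field_simp
    ring
  have hBA : A - B ≠ 0 := by
    intro h
    apply hAB
    rw [← neg_sub, h, neg_zero]
  rw [hinv A B hA hB, hinv (-A) (B - A) (neg_ne_zero.mpr hA) hAB,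
    hinv (-B) (A - B) (neg_ne_zero.mpr hB) hBA, h1, h1, h1]
  have ha := hne A hA
  have hb := hne B hB
  have hc := hne (B - A) hAB
  simp only [Complex.neg_re, Complex.neg_im, Complex.sub_re, Complex.sub_im, Complex.mul_im,
    Complex.conj_re, Complex.conj_im] at *
  have e3 : (A.re - B.re) ^ 2 + (A.im - B.im) ^ 2 = (B.re - A.re) ^ 2 + (B.im - A.im) ^ 2 := by ring
  rw [e3, neg_sq, neg_sq, neg_sq, neg_sq]
  field_simp
  ring

lemma NI_lower {z : ℕ → ℂ} (hz : NI z) (p q : ℕ) : (1 / 2) * |(p : ℝ) - q| ≤ ‖z p - z q‖ := by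
  have h := hz p q
  have h2 : ‖((p : ℂ) - q)‖ = |(p : ℝ) - q| := by
    rw [show ((p : ℂ) - q) = (((p : ℝ) - q : ℝ) : ℂ) by push_cast; ring, Complex.norm_real,
      Real.norm_eq_abs]
  have h3 : ‖((p : ℂ) - q)‖ ≤ ‖z p - z q‖ + ‖z p - z q - ((p : ℂ) - q)‖ := by
    have : ((p : ℂ) - q) = (z p - z q) - (z p - z q - ((p : ℂ) - q)) := by ring
    calc ‖((p : ℂ) - q)‖ = ‖(z p - z q) - (z p - z q - ((p : ℂ) - q))‖ := by rw [← this]
      _ ≤ _ := norm_sub_le _ _
  linarith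

lemma NI_upper {z : ℕ → ℂ} (hz : NI z) (p q : ℕ) : ‖z p - z q‖ ≤ (3 / 2) * |(p : ℝ) - q| := by
  have h := hz p q
  have h2 : ‖((p : ℂ) - q)‖ = |(p : ℝ) - q| := by
    rw [show ((p : ℂ) - q) = (((p : ℝ) - q : ℝ) : ℂ) by push_cast; ring, Complex.norm_real,
      Real.norm_eq_abs]
  have h3 : ‖z p - z q‖ ≤ ‖((p : ℂ) - q)‖ + ‖z p - z q - ((p : ℂ) - q)‖ := by
    have : z p - z q = ((p : ℂ) - q) + (z p - z q - ((p : ℂ) - q)) := by ring
    calc ‖z p - z q‖ = ‖((p : ℂ) - q) + (z p - z q - ((p : ℂ) - q))‖ := by rw [← this]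
      _ ≤ _ := norm_add_le _ _
  linarith

lemma NI_ne {z : ℕ → ℂ} (hz : NI z) {p q : ℕ} (h : p ≠ q) : z p - z q ≠ 0 := by
  intro h0
  have h1 := NI_lower hz p q
  rw [h0, norm_zero] at h1
  have h2 : (0 : ℝ) < |(p : ℝ) - q| := by
    apply abs_pos.mpr
    intro h3
    apply h
    have : (p : ℝ) = q := by linarith
    exact_mod_cast this
  linarith

lemma Th_formula {z : ℕ → ℂ} (hz : NI z) {p q r : ℕ} (hpq : p ≠ q) (hpr : p ≠ r) (hqr : q ≠ r) :
    Th z p q r = 4 * ((conj (z q - z p) * (z r - z p)).im) ^ 2 /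
      (‖z q - z p‖ ^ 2 * ‖z r - z p‖ ^ 2 * ‖z r - z q‖ ^ 2) := by
  have h := menger_alg (z q - z p) (z r - z p) (NI_ne hz hpq.symm) (NI_ne hz hpr.symm)
    (by
      have := NI_ne hz hqr.symm
      intro h0; apply this
      linear_combination h0)
  have e1 : z r - z p - (z q - z p) = z r - z q := by ring
  have e2 : z q - z p - (z r - z p) = z q - z r := by ring
  rw [e1, e2] at h
  rw [← h]
  unfold Th QQ kk
  rw [neg_sub, neg_sub]

lemma Th_nonneg {z : ℕ → ℂ} (hz : NI z) (p q r : ℕ) : 0 ≤ Th z p q r := by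
  by_cases h1 : p = q
  · subst h1; rw [Th_eq12]; positivity
  by_cases h2 : p = r
  · subst h2; rw [Th_eq13]; positivity
  by_cases h3 : q = r
  · subst h3; rw [Th_eq23]; positivity
  rw [Th_formula hz h1 h2 h3]
  positivity

lemma Th_bound {z : ℕ → ℂ} (hz : NI z) {p q r : ℕ} (hpq : p < q) (hqr : q < r) :
    Th z p q r ≤ 64 * ‖(z r - z q) / ((r : ℂ) - q) - (z q - z p) / ((q : ℂ) - p)‖ ^ 2
      / ((r : ℝ) - p) ^ 2 := by
  have hpr : p < r := hpq.trans hqr
  have hpq' : (p : ℝ) < q := by exact_mod_cast hpq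
  have hqr' : (q : ℝ) < r := by exact_mod_cast hqr
  rw [Th_swap12, Th_formula hz hpq.ne' hqr.ne hpr.ne]
  set u : ℝ := (q : ℝ) - p with hu
  set v : ℝ := (r : ℝ) - q with hv
  have hu0 : 0 < u := by linarith
  have hv0 : 0 < v := by linarith
  set m1 : ℂ := (z q - z p) / ((q : ℂ) - p) with hm1
  set m2 : ℂ := (z r - z q) / ((r : ℂ) - q) with hm2
  have hcu : ((q : ℂ) - p) = ((u : ℝ) : ℂ) := by rw [hu]; push_cast; ring
  have hcv : ((r : ℂ) - q) = ((v : ℝ) : ℂ) := by rw [hv]; push_cast; ring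
  have hu1 : ((u : ℝ) : ℂ) ≠ 0 := by exact_mod_cast hu0.ne'
  have hv1 : ((v : ℝ) : ℂ) ≠ 0 := by exact_mod_cast hv0.ne'
  have hA : z p - z q = -((u : ℂ) * m1) := by
    rw [hm1, hcu]; field_simp; ring
  have hB : z r - z q = (v : ℂ) * m2 := by
    rw [hm2, hcv]; field_simp
  have hn1 : 1 / 2 ≤ ‖m1‖ := by
    have h := NI_lower hz q p
    rw [hm1, norm_div, hcu, Complex.norm_real, Real.norm_of_nonneg hu0.le, le_div_iff₀ hu0]
    rw [abs_of_pos hu0] at h
    exact h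
  have hn2 : 1 / 2 ≤ ‖m2‖ := by
    have h := NI_lower hz r q
    rw [hm2, norm_div, hcv, Complex.norm_real, Real.norm_of_nonneg hv0.le, le_div_iff₀ hv0]
    rw [abs_of_pos hv0] at h
    exact h
  have hn3 : (1 / 2) * (u + v) ≤ ‖z r - z p‖ := by
    have h := NI_lower hz r p
    have e : (r : ℝ) - p = u + v := by rw [hu, hv]; ring
    rw [e, abs_of_pos (by positivity)] at h
    exact h
  have e4 : (r : ℝ) - p = u + v := by rw [hu, hv]; ring
  rw [e4, hA, hB]
  have hIm : (conj (-((u : ℂ) * m1)) * ((v : ℂ) * m2)).im ^ 2 ≤ (u * v) ^ 2 * (‖m2 - m1‖ ^ 2 * ‖m2‖ ^ 2) := by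
    have e5 : conj (-((u : ℂ) * m1)) * ((v : ℂ) * m2)
        = ((u * v : ℝ) : ℂ) * (conj (m2 - m1) * m2) - ((u * v * ‖m2‖ ^ 2 : ℝ) : ℂ) := by
      simp only [map_neg, map_mul, Complex.conj_ofReal, map_sub]
      have : ((‖m2‖ ^ 2 : ℝ) : ℂ) = conj m2 * m2 := by
        rw [← Complex.normSq_eq_conj_mul_self, Complex.normSq_eq_norm_sq]
      push_cast at this ⊢
      rw [this]
      ring
    rw [e5, Complex.sub_im, Complex.ofReal_im, sub_zero, Complex.im_ofReal_mul]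
    rw [mul_pow]
    have h6 : (conj (m2 - m1) * m2).im ^ 2 ≤ ‖m2 - m1‖ ^ 2 * ‖m2‖ ^ 2 := by
      have h7 : |(conj (m2 - m1) * m2).im| ≤ ‖conj (m2 - m1) * m2‖ := Complex.abs_im_le_norm _
      rw [norm_mul, Complex.norm_conj] at h7
      rw [← mul_pow, ← sq_abs]
      gcongr
    gcongr
  have hn : ‖-((u : ℂ) * m1)‖ ^ 2 = u ^ 2 * ‖m1‖ ^ 2 := by
    rw [norm_neg, norm_mul, Complex.norm_real, Real.norm_of_nonneg hu0.le, mul_pow]
  have hn' : ‖(v : ℂ) * m2‖ ^ 2 = v ^ 2 * ‖m2‖ ^ 2 := by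
    rw [norm_mul, Complex.norm_real, Real.norm_of_nonneg hv0.le, mul_pow]
  rw [hn, hn']
  have hn1p : 0 < ‖m1‖ := by linarith
  have hn2p : 0 < ‖m2‖ := by linarith
  have hn3p : 0 < ‖z r - z p‖ := by
    have : 0 < (1 / 2) * (u + v) := by positivity
    linarith
  calc 4 * (conj (-((u : ℂ) * m1)) * ((v : ℂ) * m2)).im ^ 2
        / (u ^ 2 * ‖m1‖ ^ 2 * (v ^ 2 * ‖m2‖ ^ 2) * ‖z r - z p‖ ^ 2)
      ≤ 4 * ((u * v) ^ 2 * (‖m2 - m1‖ ^ 2 * ‖m2‖ ^ 2))
        / (u ^ 2 * ‖m1‖ ^ 2 * (v ^ 2 * ‖m2‖ ^ 2) * ‖z r - z p‖ ^ 2) := by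
        gcongr
    _ = 4 * ‖m2 - m1‖ ^ 2 / (‖m1‖ ^ 2 * ‖z r - z p‖ ^ 2) := by
        field_simp
    _ ≤ 4 * ‖m2 - m1‖ ^ 2 / ((1 / 2) ^ 2 * ((1 / 2) * (u + v)) ^ 2) := by
        gcongr
    _ = 64 * ‖m2 - m1‖ ^ 2 / (u + v) ^ 2 := by
        field_simp
        ring

end

section

open Finset
open scoped ComplexConjugate

lemma shift1 (N p : ℕ) (H : ℕ → ℝ) :
    ∑ r ∈ range N, (if p < r then H r else 0)
      = ∑ m ∈ range N, (if p + m + 1 < N then H (p + m + 1) else 0) := by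
  rw [← Finset.sum_filter, ← Finset.sum_filter]
  apply Finset.sum_nbij' (fun r => r - p - 1) (fun m => p + m + 1)
  · intro r hr
    simp only [Finset.mem_filter, Finset.mem_range] at hr ⊢
    omega
  · intro m hm
    simp only [Finset.mem_filter, Finset.mem_range] at hm ⊢
    omega
  · intro r hr
    simp only [Finset.mem_filter, Finset.mem_range] at hr
    omega
  · intro m hm
    omega
  · intro r hr
    simp only [Finset.mem_filter, Finset.mem_range] at hr
    congr 1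
    omega

lemma shift2 (N p m : ℕ) (h : p + m + 1 < N) (H : ℕ → ℝ) :
    ∑ q ∈ range N, (if p < q ∧ q < p + m + 1 then H q else 0)
      = ∑ i ∈ range m, H (p + i + 1) := by
  rw [← Finset.sum_filter]
  apply Finset.sum_nbij' (fun q => q - p - 1) (fun i => p + i + 1)
  · intro r hr
    simp only [Finset.mem_filter, Finset.mem_range] at hr ⊢
    omega
  · intro m hm
    simp only [Finset.mem_filter, Finset.mem_range] at hm ⊢
    omega
  · intro r hr
    simp only [Finset.mem_filter, Finset.mem_range] at hr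
    omega
  · intro m hm
    omega
  · intro r hr
    simp only [Finset.mem_filter, Finset.mem_range] at hr
    congr 1
    omega

/-- increments -/
noncomputable def inc (N : ℕ) (z : ℕ → ℂ) : ZMod N → ℂ := fun t => z (t.val + 1) - z t.val

lemma SS_tele (N : ℕ) [NeZero N] (z : ℕ → ℂ) (p v : ℕ) (h : p + v ≤ N) :
    SS (inc N z) (p : ZMod N) v = z (p + v) - z p := by
  unfold SS inc
  have h1 : ∀ j ∈ range v, (z (((p : ZMod N) + (j : ZMod N)).val + 1) - z ((p : ZMod N) + (j : ZMod N)).val)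
      = z (p + (j + 1)) - z (p + j) := by
    intro j hj
    rw [Finset.mem_range] at hj
    have : ((p : ZMod N) + (j : ZMod N)).val = p + j := by
      rw [← Nat.cast_add]
      exact ZMod.val_natCast_of_lt (by omega)
    rw [this]
    rfl
  rw [Finset.sum_congr rfl h1]
  exact Finset.sum_range_sub (fun j => z (p + j)) v

lemma WW_lower (N : ℕ) [NeZero N] (z : ℕ → ℂ) (i m : ℕ) (hi : i < m) :
    ∑ p ∈ range N, (if p + m + 1 < N then
      ‖(z (p + m + 1) - z (p + i + 1)) / ((m : ℂ) - i) - (z (p + i + 1) - z p) / ((i : ℂ) + 1)‖ ^ 2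
      else 0)
      ≤ WW (inc N z) (i + 1) (m - i) := by
  unfold WW
  have h1 : ∑ t : ZMod N, ‖SS (inc N z) (t + ((i + 1 : ℕ) : ZMod N)) (m - i) / ((m - i : ℕ) : ℂ)
      - SS (inc N z) t (i + 1) / ((i + 1 : ℕ) : ℂ)‖ ^ 2
      = ∑ p ∈ range N, ‖SS (inc N z) ((p : ZMod N) + ((i + 1 : ℕ) : ZMod N)) (m - i) / ((m - i : ℕ) : ℂ)
      - SS (inc N z) (p : ZMod N) (i + 1) / ((i + 1 : ℕ) : ℂ)‖ ^ 2 := by
    symm
    apply Finset.sum_nbij' (fun p => ((p : ℕ) : ZMod N)) (fun t => t.val)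
    · intro p _; exact Finset.mem_univ _
    · intro t _
      exact Finset.mem_range.mpr (ZMod.val_lt t)
    · intro p hp
      rw [Finset.mem_range] at hp
      exact ZMod.val_natCast_of_lt hp
    · intro t _
      exact ZMod.natCast_zmod_val t
    · intro p _
      rfl
  rw [h1]
  apply Finset.sum_le_sum
  intro p hp
  rw [Finset.mem_range] at hp
  split_ifs with h
  · rw [← Nat.cast_add, SS_tele N z (p + (i + 1)) (m - i) (by omega), SS_tele N z p (i + 1) (by omega)]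
    have e1 : p + (i + 1) + (m - i) = p + m + 1 := by omega
    have e2 : ((m - i : ℕ) : ℂ) = (m : ℂ) - i := by rw [Nat.cast_sub hi.le]
    rw [e1, e2]
    push_cast
    rfl
  · positivity

lemma inc_sq_le (N : ℕ) [NeZero N] {z : ℕ → ℂ} (hz : NI z) :
    ∑ t : ZMod N, ‖inc N z t‖ ^ 2 ≤ (9 / 4) * N := by
  have h1 : ∀ t : ZMod N, ‖inc N z t‖ ^ 2 ≤ 9 / 4 := by
    intro t
    unfold inc
    have h := NI_upper hz (t.val + 1) t.val
    have e : |((t.val + 1 : ℕ) : ℝ) - (t.val : ℝ)| = 1 := by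
      push_cast
      rw [add_sub_cancel_left, abs_one]
    rw [e] at h
    have h0 := norm_nonneg (z (t.val + 1) - z t.val)
    nlinarith
  calc ∑ t : ZMod N, ‖inc N z t‖ ^ 2 ≤ ∑ t : ZMod N, (9 / 4 : ℝ) := Finset.sum_le_sum (fun t _ => h1 t)
    _ = (9 / 4) * N := by
      rw [Finset.sum_const, Finset.card_univ, ZMod.card, nsmul_eq_mul]
      ring

noncomputable def GG (z : ℕ → ℂ) (p q r : ℕ) : ℝ := if p < q ∧ q < r then Th z p q r else 0

lemma GG_nonneg {z : ℕ → ℂ} (hz : NI z) (p q r : ℕ) : 0 ≤ GG z p q r := by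
  unfold GG
  split_ifs
  · exact Th_nonneg hz p q r
  · exact le_rfl

lemma GG_sum (N : ℕ) {z : ℕ → ℂ} (hz : NI z) :
    ∑ p ∈ range N, ∑ q ∈ range N, ∑ r ∈ range N, GG z p q r ≤ 576 * N := by
  rcases Nat.eq_zero_or_pos N with hN | hN
  · subst hN; simp
  have : NeZero N := ⟨hN.ne'⟩
  have h1 : ∀ p ∈ range N, ∑ q ∈ range N, ∑ r ∈ range N, GG z p q r
      = ∑ m ∈ range N, ∑ i ∈ range m, (if p + m + 1 < N then Th z p (p + i + 1) (p + m + 1) else 0) := by
    intro p _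
    rw [Finset.sum_comm]
    have h2 : ∀ r ∈ range N, ∑ q ∈ range N, GG z p q r
        = if p < r then ∑ q ∈ range N, GG z p q r else 0 := by
      intro r _
      split_ifs with h
      · rfl
      · apply Finset.sum_eq_zero
        intro q _
        unfold GG
        rw [if_neg]
        intro h3
        omega
    rw [Finset.sum_congr rfl h2, shift1 N p (fun r => ∑ q ∈ range N, GG z p q r)]
    apply Finset.sum_congr rfl
    intro m _
    split_ifs with h
    · exact shift2 N p m h (fun q => Th z p q (p + m + 1))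
    · simp
  rw [Finset.sum_congr rfl h1, Finset.sum_comm]
  have h3 : ∀ m ∈ range N, ∑ p ∈ range N, ∑ i ∈ range m,
      (if p + m + 1 < N then Th z p (p + i + 1) (p + m + 1) else 0)
      ≤ 64 * ∑ i ∈ range m, WW (inc N z) (i + 1) (m - i) / ((m : ℝ) + 1) ^ 2 := by
    intro m _
    rw [Finset.sum_comm, Finset.mul_sum]
    apply Finset.sum_le_sum
    intro i hi
    rw [Finset.mem_range] at hi
    have h4 := WW_lower N z i m hi
    calc ∑ p ∈ range N, (if p + m + 1 < N then Th z p (p + i + 1) (p + m + 1) else 0)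
        ≤ ∑ p ∈ range N, (64 / ((m : ℝ) + 1) ^ 2) * (if p + m + 1 < N then
      ‖(z (p + m + 1) - z (p + i + 1)) / ((m : ℂ) - i) - (z (p + i + 1) - z p) / ((i : ℂ) + 1)‖ ^ 2
      else 0) := by
          apply Finset.sum_le_sum
          intro p _
          split_ifs with h
          · have h5 := Th_bound hz (show p < p + i + 1 by omega) (show p + i + 1 < p + m + 1 by omega)
            have e1 : (((p + m + 1 : ℕ) : ℂ) - ((p + i + 1 : ℕ) : ℂ)) = (m : ℂ) - i := by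
              push_cast; ring
            have e2 : (((p + i + 1 : ℕ) : ℂ) - (p : ℂ)) = (i : ℂ) + 1 := by
              push_cast; ring
            have e3 : (((p + m + 1 : ℕ) : ℝ) - (p : ℝ)) = (m : ℝ) + 1 := by
              push_cast; ring
            rw [e1, e2, e3] at h5
            refine le_trans h5 (le_of_eq ?_)
            ring
          · simp
      _ = (64 / ((m : ℝ) + 1) ^ 2) * ∑ p ∈ range N, (if p + m + 1 < N then
      ‖(z (p + m + 1) - z (p + i + 1)) / ((m : ℂ) - i) - (z (p + i + 1) - z p) / ((i : ℂ) + 1)‖ ^ 2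
      else 0) := by rw [Finset.mul_sum]
      _ ≤ (64 / ((m : ℝ) + 1) ^ 2) * WW (inc N z) (i + 1) (m - i) := by gcongr
      _ = _ := by ring
  calc ∑ m ∈ range N, ∑ p ∈ range N, ∑ i ∈ range m,
      (if p + m + 1 < N then Th z p (p + i + 1) (p + m + 1) else 0)
      ≤ ∑ m ∈ range N, 64 * ∑ i ∈ range m, WW (inc N z) (i + 1) (m - i) / ((m : ℝ) + 1) ^ 2 :=
        Finset.sum_le_sum h3
    _ = 64 * ∑ m ∈ range N, ∑ i ∈ range m, WW (inc N z) (i + 1) (m - i) / ((m : ℝ) + 1) ^ 2 := by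
        rw [Finset.mul_sum]
    _ ≤ 64 * (4 * ∑ t : ZMod N, ‖inc N z t‖ ^ 2) := by
        have := disc_square (inc N z) N
        gcongr
    _ ≤ 64 * (4 * ((9 / 4) * N)) := by
        have := inc_sq_le N hz
        gcongr
    _ = 576 * N := by ring

/-- row sums of squares of the kernel -/
lemma kk_row (N : ℕ) {z : ℕ → ℂ} (hz : NI z) (p : ℕ) :
    ∑ q ∈ range N, ‖kk z p q‖ ^ 2 ≤ 16 := by
  have h1 : ∀ q : ℕ, ‖kk z p q‖ ^ 2 ≤ (if p < q then 4 / ((q : ℝ) - p) ^ 2 else 0)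
      + (if q < p then 4 / ((p : ℝ) - q) ^ 2 else 0) := by
    intro q
    rcases lt_trichotomy p q with h | h | h
    · rw [if_pos h, if_neg (by omega), add_zero]
      have hpq : (p : ℝ) < q := by exact_mod_cast h
      have h2 := NI_lower hz q p
      rw [abs_of_pos (by linarith)] at h2
      unfold kk
      rw [norm_inv, inv_pow, ← one_div]
      have h3 : 0 < (q : ℝ) - p := by linarith
      calc 1 / ‖z q - z p‖ ^ 2 ≤ 1 / ((1 / 2) * ((q : ℝ) - p)) ^ 2 := by gcongr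
        _ = _ := by field_simp; ring
    · subst h
      simp [kk]
    · rw [if_neg (by omega), if_pos h, zero_add]
      have hpq : (q : ℝ) < p := by exact_mod_cast h
      have h2 := NI_lower hz p q
      rw [abs_of_pos (by linarith)] at h2
      unfold kk
      rw [norm_inv, inv_pow, ← one_div, ← neg_sub, norm_neg]
      have h3 : 0 < (p : ℝ) - q := by linarith
      calc 1 / ‖z p - z q‖ ^ 2 ≤ 1 / ((1 / 2) * ((p : ℝ) - q)) ^ 2 := by gcongr
        _ = _ := by field_simp; ring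
  have h2 : ∑ q ∈ range N, (if p < q then 4 / ((q : ℝ) - p) ^ 2 else 0) ≤ 8 := by
    rw [shift1 N p (fun q => 4 / ((q : ℝ) - p) ^ 2)]
    calc ∑ m ∈ range N, (if p + m + 1 < N then 4 / (((p + m + 1 : ℕ) : ℝ) - p) ^ 2 else 0)
        ≤ ∑ m ∈ range N, 4 * (1 / ((m : ℝ) + 1) ^ 2) := by
          apply Finset.sum_le_sum
          intro m _
          have e : (((p + m + 1 : ℕ) : ℝ) - p) = (m : ℝ) + 1 := by push_cast; ring
          rw [e]
          split_ifs
          · apply le_of_eq; ring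
          · positivity
      _ = 4 * ∑ m ∈ range N, (1 / ((m : ℝ) + 1) ^ 2) := by rw [Finset.mul_sum]
      _ ≤ 4 * 2 := by
          have := sum_inv_sq_le N
          gcongr
      _ = 8 := by norm_num
  have h3 : ∑ q ∈ range N, (if q < p then 4 / ((p : ℝ) - q) ^ 2 else 0) ≤ 8 := by
    calc ∑ q ∈ range N, (if q < p then 4 / ((p : ℝ) - q) ^ 2 else 0)
        ≤ ∑ q ∈ range (max N p), (if q < p then 4 / ((p : ℝ) - q) ^ 2 else 0) := by
          apply Finset.sum_le_sum_of_subset_of_nonneg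
          · intro x hx
            simp only [Finset.mem_range] at hx ⊢
            exact lt_of_lt_of_le hx (le_max_left _ _)
          · intro q _ _
            split_ifs
            · positivity
            · exact le_rfl
      _ = ∑ q ∈ range p, 4 / ((p : ℝ) - q) ^ 2 := by
          rw [← Finset.sum_filter]
          apply Finset.sum_congr _ (fun _ _ => rfl)
          ext x
          simp only [Finset.mem_filter, Finset.mem_range]
          constructor
          · intro h; exact h.2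
          · intro h; exact ⟨lt_of_lt_of_le h (le_max_right _ _), h⟩
      _ = ∑ m ∈ range p, 4 * (1 / ((m : ℝ) + 1) ^ 2) := by
          rw [← Finset.sum_range_reflect]
          apply Finset.sum_congr rfl
          intro m hm
          rw [Finset.mem_range] at hm
          have : ((p - 1 - m : ℕ) : ℝ) = (p : ℝ) - 1 - m := by
            rw [Nat.cast_sub (by omega), Nat.cast_sub (by omega)]; simp
          rw [this]
          have e : (p : ℝ) - ((p : ℝ) - 1 - m) = (m : ℝ) + 1 := by ring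
          rw [e]
          ring
      _ = 4 * ∑ m ∈ range p, (1 / ((m : ℝ) + 1) ^ 2) := by rw [Finset.mul_sum]
      _ ≤ 4 * 2 := by
          have := sum_inv_sq_le p
          gcongr
      _ = 8 := by norm_num
  calc ∑ q ∈ range N, ‖kk z p q‖ ^ 2 ≤ ∑ q ∈ range N, ((if p < q then 4 / ((q : ℝ) - p) ^ 2 else 0)
      + (if q < p then 4 / ((p : ℝ) - q) ^ 2 else 0)) := Finset.sum_le_sum (fun q _ => h1 q)
    _ ≤ 16 := by
      rw [Finset.sum_add_distrib]
      linarith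

lemma Th_split {z : ℕ → ℂ} (hz : NI z) (p q r : ℕ) :
    Th z p q r ≤ ((if p = q then Th z p q r else 0) + (if q = r then Th z p q r else 0)
        + (if p = r then Th z p q r else 0))
      + (GG z p q r + GG z p r q + GG z q p r + GG z q r p + GG z r p q + GG z r q p) := by
  have h0 := Th_nonneg hz p q r
  have g1 := GG_nonneg hz p q r
  have g2 := GG_nonneg hz p r q
  have g3 := GG_nonneg hz q p r
  have g4 := GG_nonneg hz q r p
  have g5 := GG_nonneg hz r p q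
  have g6 := GG_nonneg hz r q p
  have i1 : 0 ≤ (if p = q then Th z p q r else 0) := by split_ifs <;> first | exact h0 | exact le_rfl
  have i2 : 0 ≤ (if q = r then Th z p q r else 0) := by split_ifs <;> first | exact h0 | exact le_rfl
  have i3 : 0 ≤ (if p = r then Th z p q r else 0) := by split_ifs <;> first | exact h0 | exact le_rfl
  rcases lt_trichotomy p q with a | a | a
  · rcases lt_trichotomy q r with b | b | b
    · have : GG z p q r = Th z p q r := by unfold GG; rw [if_pos ⟨a, b⟩]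
      linarith
    · rw [if_pos b] at *
      linarith
    · rcases lt_trichotomy p r with c | c | c
      · have : GG z p r q = Th z p q r := by
          unfold GG; rw [if_pos ⟨c, b⟩, Th_swap23]
        linarith
      · rw [if_pos c] at *
        linarith
      · have : GG z r p q = Th z p q r := by
          unfold GG; rw [if_pos ⟨c, a⟩, Th_swap12, Th_swap23]
        linarith
  · rw [if_pos a] at *
    linarith
  · rcases lt_trichotomy q r with b | b | b
    · rcases lt_trichotomy p r with c | c | c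
      · have : GG z q p r = Th z p q r := by
          unfold GG; rw [if_pos ⟨a, c⟩, Th_swap12]
        linarith
      · rw [if_pos c] at *
        linarith
      · have : GG z q r p = Th z p q r := by
          unfold GG; rw [if_pos ⟨b, c⟩, Th_swap23, Th_swap12]
        linarith
    · rw [if_pos b] at *
      linarith
    · have : GG z r q p = Th z p q r := by
        unfold GG; rw [if_pos ⟨b, a⟩, Th_swap12, Th_swap23, Th_swap12]
      linarith

lemma Th_total (N : ℕ) {z : ℕ → ℂ} (hz : NI z) :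
    ∑ p ∈ range N, ∑ q ∈ range N, ∑ r ∈ range N, Th z p q r ≤ 4000 * N := by
  have hG := GG_sum N hz
  have hN : (0 : ℝ) ≤ N := Nat.cast_nonneg N
  have e2 : ∑ p ∈ range N, ∑ q ∈ range N, ∑ r ∈ range N, GG z p r q
      = ∑ p ∈ range N, ∑ q ∈ range N, ∑ r ∈ range N, GG z p q r := by
    apply Finset.sum_congr rfl; intro p _
    rw [Finset.sum_comm]
  have e3 : ∑ p ∈ range N, ∑ q ∈ range N, ∑ r ∈ range N, GG z q p r
      = ∑ p ∈ range N, ∑ q ∈ range N, ∑ r ∈ range N, GG z p q r := by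
    rw [Finset.sum_comm]
  have e4 : ∑ p ∈ range N, ∑ q ∈ range N, ∑ r ∈ range N, GG z q r p
      = ∑ p ∈ range N, ∑ q ∈ range N, ∑ r ∈ range N, GG z p q r := by
    rw [Finset.sum_comm]
    apply Finset.sum_congr rfl; intro p _
    rw [Finset.sum_comm]
  have e5 : ∑ p ∈ range N, ∑ q ∈ range N, ∑ r ∈ range N, GG z r p q
      = ∑ p ∈ range N, ∑ q ∈ range N, ∑ r ∈ range N, GG z p q r := by
    rw [← e4, Finset.sum_comm]
    apply Finset.sum_congr rfl; intro p _
    rw [Finset.sum_comm]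
  have e6 : ∑ p ∈ range N, ∑ q ∈ range N, ∑ r ∈ range N, GG z r q p
      = ∑ p ∈ range N, ∑ q ∈ range N, ∑ r ∈ range N, GG z p q r := by
    rw [← e5, Finset.sum_comm]
  have hrow : ∀ p : ℕ, ∑ r ∈ range N, 2 * ‖kk z p r‖ ^ 2 ≤ 32 := by
    intro p
    rw [← Finset.mul_sum]
    have := kk_row N hz p
    linarith
  have hrow2 : ∑ p ∈ range N, ∑ r ∈ range N, 2 * ‖kk z p r‖ ^ 2 ≤ 32 * (N : ℝ) := by
    calc ∑ p ∈ range N, ∑ r ∈ range N, 2 * ‖kk z p r‖ ^ 2 ≤ ∑ p ∈ range N, (32 : ℝ) :=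
          Finset.sum_le_sum (fun p _ => hrow p)
      _ = 32 * N := by rw [Finset.sum_const, Finset.card_range, nsmul_eq_mul]; ring
  have d1 : ∑ p ∈ range N, ∑ q ∈ range N, ∑ r ∈ range N, (if p = q then Th z p q r else 0)
      ≤ 32 * (N : ℝ) := by
    refine le_trans (le_of_eq ?_) hrow2
    apply Finset.sum_congr rfl; intro p hp
    rw [Finset.sum_comm]
    apply Finset.sum_congr rfl; intro r _
    rw [Finset.sum_ite_eq, if_pos hp, Th_eq12]
  have d2 : ∑ p ∈ range N, ∑ q ∈ range N, ∑ r ∈ range N, (if q = r then Th z p q r else 0)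
      ≤ 32 * (N : ℝ) := by
    refine le_trans (le_of_eq ?_) hrow2
    apply Finset.sum_congr rfl; intro p _
    apply Finset.sum_congr rfl; intro q hq
    rw [Finset.sum_ite_eq, if_pos hq, Th_eq23]
  have d3 : ∑ p ∈ range N, ∑ q ∈ range N, ∑ r ∈ range N, (if p = r then Th z p q r else 0)
      ≤ 32 * (N : ℝ) := by
    refine le_trans (le_of_eq ?_) hrow2
    apply Finset.sum_congr rfl; intro p hp
    apply Finset.sum_congr rfl; intro q _
    rw [Finset.sum_ite_eq, if_pos hp, Th_eq13]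
  calc ∑ p ∈ range N, ∑ q ∈ range N, ∑ r ∈ range N, Th z p q r
      ≤ ∑ p ∈ range N, ∑ q ∈ range N, ∑ r ∈ range N,
        (((if p = q then Th z p q r else 0) + (if q = r then Th z p q r else 0)
        + (if p = r then Th z p q r else 0))
      + (GG z p q r + GG z p r q + GG z q p r + GG z q r p + GG z r p q + GG z r q p)) := by
        apply Finset.sum_le_sum; intro p _
        apply Finset.sum_le_sum; intro q _
        apply Finset.sum_le_sum; intro r _
        exact Th_split hz p q r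
    _ ≤ 4000 * N := by
        simp only [Finset.sum_add_distrib]
        rw [e2, e3, e4, e5, e6]
        linarith

end

section

open Finset
open scoped ComplexConjugate

noncomputable def TT (N : ℕ) (z : ℕ → ℂ) (f : ℕ → ℂ) (p : ℕ) : ℂ := ∑ q ∈ range N, kk z p q * f q

lemma TT_pair (N : ℕ) (z : ℕ → ℂ) (f g : ℕ → ℝ) (p : ℕ) :
    (TT N z (fun q => (g q : ℂ)) p * conj (TT N z (fun q => (f q : ℂ)) p)).re
      = ∑ q ∈ range N, ∑ r ∈ range N, g q * f r * QQ z p q r := by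
  unfold TT
  rw [map_sum, Finset.sum_mul_sum, Complex.re_sum]
  apply Finset.sum_congr rfl; intro q _
  rw [Complex.re_sum]
  apply Finset.sum_congr rfl; intro r _
  unfold QQ
  rw [map_mul, Complex.conj_ofReal]
  have : kk z p q * (g q : ℂ) * (conj (kk z p r) * (f r : ℂ))
      = ((g q * f r : ℝ) : ℂ) * (kk z p q * conj (kk z p r)) := by
    push_cast; ring
  rw [this, Complex.re_ofReal_mul]

lemma norm_sq_re (w : ℂ) : ‖w‖ ^ 2 = (w * conj w).re := by
  rw [Complex.mul_conj, Complex.ofReal_re, Complex.normSq_eq_norm_sq]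

lemma TT_identity (N : ℕ) (z : ℕ → ℂ) (f : ℕ → ℝ) :
    ∑ p ∈ range N, ‖TT N z (fun q => (f q : ℂ)) p‖ ^ 2
      = (1 / 2) * ∑ p ∈ range N, ∑ q ∈ range N, ∑ r ∈ range N, Th z p q r * (f q * f r)
        - 2 * ∑ q ∈ range N, f q * (TT N z (fun _ => 1) q *
            conj (TT N z (fun q => (f q : ℂ)) q)).re := by
  have h1 : ∑ p ∈ range N, ‖TT N z (fun q => (f q : ℂ)) p‖ ^ 2
      = ∑ p ∈ range N, ∑ q ∈ range N, ∑ r ∈ range N, f q * f r * QQ z p q r := by
    apply Finset.sum_congr rfl; intro p _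
    rw [norm_sq_re, TT_pair]
  have h2 : ∑ q ∈ range N, f q * (TT N z (fun _ => 1) q *
            conj (TT N z (fun q => (f q : ℂ)) q)).re
      = ∑ p ∈ range N, ∑ q ∈ range N, ∑ r ∈ range N, f q * f r * QQ z q p r := by
    rw [Finset.sum_comm]
    apply Finset.sum_congr rfl; intro q _
    have := TT_pair N z f (fun _ => 1) q
    simp only [Complex.ofReal_one] at this
    rw [this, Finset.mul_sum]
    apply Finset.sum_congr rfl; intro p _
    rw [Finset.mul_sum]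
    apply Finset.sum_congr rfl; intro r _
    ring
  have h3 : ∑ p ∈ range N, ∑ q ∈ range N, ∑ r ∈ range N, f q * f r * QQ z q p r
      = ∑ p ∈ range N, ∑ q ∈ range N, ∑ r ∈ range N, f q * f r * QQ z r p q := by
    apply Finset.sum_congr rfl; intro p _
    rw [Finset.sum_comm]
    apply Finset.sum_congr rfl; intro q _
    apply Finset.sum_congr rfl; intro r _
    ring
  have h4 : (1 / 2) * ∑ p ∈ range N, ∑ q ∈ range N, ∑ r ∈ range N, Th z p q r * (f q * f r)
      = ∑ p ∈ range N, ∑ q ∈ range N, ∑ r ∈ range N, f q * f r * QQ z p q r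
      + ∑ p ∈ range N, ∑ q ∈ range N, ∑ r ∈ range N, f q * f r * QQ z q p r
      + ∑ p ∈ range N, ∑ q ∈ range N, ∑ r ∈ range N, f q * f r * QQ z r p q := by
    simp only [Finset.mul_sum, ← Finset.sum_add_distrib]
    apply Finset.sum_congr rfl; intro p _
    apply Finset.sum_congr rfl; intro q _
    apply Finset.sum_congr rfl; intro r _
    unfold Th
    ring
  rw [h1, h2, h4, ← h3]
  ring

lemma TT_one (N : ℕ) {z : ℕ → ℂ} (hz : NI z) :
    ∑ q ∈ range N, ‖TT N z (fun _ => 1) q‖ ^ 2 ≤ 1000 * N := by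
  have h := TT_identity N z (fun _ => 1)
  have h2 := Th_total N hz
  simp only [Complex.ofReal_one, mul_one, one_mul] at h
  have h3 : ∑ q ∈ range N, (TT N z (fun _ => 1) q * conj (TT N z (fun _ => 1) q)).re
      = ∑ q ∈ range N, ‖TT N z (fun _ => 1) q‖ ^ 2 := by
    apply Finset.sum_congr rfl; intro q _
    rw [norm_sq_re]
  rw [h3] at h
  have hN : (0 : ℝ) ≤ N := Nat.cast_nonneg N
  linarith

/-- the good indices -/
noncomputable def FF (N : ℕ) (z : ℕ → ℂ) (M : ℝ) : Finset ℕ :=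
  (range N).filter (fun q => ‖TT N z (fun _ => 1) q‖ ≤ M ∧
    ∑ p ∈ range N, ∑ r ∈ range N, Th z p q r ≤ M ^ 2)

lemma FF_card (N : ℕ) {z : ℕ → ℂ} (hz : NI z) (M : ℝ) (hM : 0 < M) :
    ((N : ℝ) - (FF N z M).card) * M ^ 2 ≤ 5000 * N := by
  classical
  have h1 := TT_one N hz
  have h2 := Th_total N hz
  set P : ℕ → Prop := fun q => ‖TT N z (fun _ => 1) q‖ ≤ M ∧
    ∑ p ∈ range N, ∑ r ∈ range N, Th z p q r ≤ M ^ 2 with hP
  have h3 : ((range N).filter P).card + ((range N).filter (fun q => ¬ P q)).card = N := by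
    rw [Finset.card_filter_add_card_filter_not, Finset.card_range]
  have h4 : (N : ℝ) - (FF N z M).card = (((range N).filter (fun q => ¬ P q)).card : ℝ) := by
    have : ((FF N z M).card : ℝ) + (((range N).filter (fun q => ¬ P q)).card : ℝ) = N := by
      exact_mod_cast h3
    linarith
  have h5 : (((range N).filter (fun q => ¬ P q)).card : ℝ) * M ^ 2
      ≤ ∑ q ∈ (range N).filter (fun q => ¬ P q), (‖TT N z (fun _ => 1) q‖ ^ 2
        + ∑ p ∈ range N, ∑ r ∈ range N, Th z p q r) := by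
    rw [← nsmul_eq_mul, ← Finset.sum_const]
    apply Finset.sum_le_sum
    intro q hq
    rw [Finset.mem_filter] at hq
    have hq2 := hq.2
    have hth : 0 ≤ ∑ p ∈ range N, ∑ r ∈ range N, Th z p q r := by
      apply Finset.sum_nonneg; intro p _
      apply Finset.sum_nonneg; intro r _
      exact Th_nonneg hz p q r
    rw [hP] at hq2
    simp only [not_and_or, not_le] at hq2
    rcases hq2 with h | h
    · have : M ^ 2 ≤ ‖TT N z (fun _ => 1) q‖ ^ 2 := by gcongr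
      linarith
    · have : 0 ≤ ‖TT N z (fun _ => 1) q‖ ^ 2 := by positivity
      linarith
  have h6 : ∑ q ∈ (range N).filter (fun q => ¬ P q), (‖TT N z (fun _ => 1) q‖ ^ 2
        + ∑ p ∈ range N, ∑ r ∈ range N, Th z p q r)
      ≤ ∑ q ∈ range N, (‖TT N z (fun _ => 1) q‖ ^ 2
        + ∑ p ∈ range N, ∑ r ∈ range N, Th z p q r) := by
    apply Finset.sum_le_sum_of_subset_of_nonneg (Finset.filter_subset _ _)
    intro q _ _
    have hth : 0 ≤ ∑ p ∈ range N, ∑ r ∈ range N, Th z p q r := by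
      apply Finset.sum_nonneg; intro p _
      apply Finset.sum_nonneg; intro r _
      exact Th_nonneg hz p q r
    positivity
  have h7 : ∑ q ∈ range N, ∑ p ∈ range N, ∑ r ∈ range N, Th z p q r ≤ 4000 * N := by
    rw [Finset.sum_comm]
    exact h2
  have h8 : ∑ q ∈ range N, (‖TT N z (fun _ => 1) q‖ ^ 2
        + ∑ p ∈ range N, ∑ r ∈ range N, Th z p q r)
      = ∑ q ∈ range N, ‖TT N z (fun _ => 1) q‖ ^ 2
        + ∑ q ∈ range N, ∑ p ∈ range N, ∑ r ∈ range N, Th z p q r := Finset.sum_add_distrib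
  rw [h4]
  rw [h8] at h6
  linarith

lemma TT_real (N : ℕ) {z : ℕ → ℂ} (hz : NI z) (M : ℝ) (f : ℕ → ℝ)
    (hf : ∀ q ∈ range N, q ∉ FF N z M → f q = 0) :
    ∑ p ∈ range N, ‖TT N z (fun q => (f q : ℂ)) p‖ ^ 2 ≤ 5 * M ^ 2 * ∑ q ∈ range N, f q ^ 2 := by
  have h := TT_identity N z f
  -- curvature part
  have h1 : ∑ p ∈ range N, ∑ q ∈ range N, ∑ r ∈ range N, Th z p q r * (f q * f r)
      ≤ M ^ 2 * ∑ q ∈ range N, f q ^ 2 := by
    have ha : ∑ p ∈ range N, ∑ q ∈ range N, ∑ r ∈ range N, Th z p q r * (f q * f r)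
        ≤ ∑ p ∈ range N, ∑ q ∈ range N, ∑ r ∈ range N, Th z p q r * ((f q ^ 2 + f r ^ 2) / 2) := by
      apply Finset.sum_le_sum; intro p _
      apply Finset.sum_le_sum; intro q _
      apply Finset.sum_le_sum; intro r _
      have := Th_nonneg hz p q r
      apply mul_le_mul_of_nonneg_left _ this
      nlinarith [sq_nonneg (f q - f r)]
    have hb : ∑ p ∈ range N, ∑ q ∈ range N, ∑ r ∈ range N, Th z p q r * f r ^ 2
        = ∑ p ∈ range N, ∑ q ∈ range N, ∑ r ∈ range N, Th z p q r * f q ^ 2 := by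
      apply Finset.sum_congr rfl; intro p _
      rw [Finset.sum_comm]
      apply Finset.sum_congr rfl; intro q _
      apply Finset.sum_congr rfl; intro r _
      rw [Th_swap23]
    have hc : ∑ p ∈ range N, ∑ q ∈ range N, ∑ r ∈ range N, Th z p q r * ((f q ^ 2 + f r ^ 2) / 2)
        = ∑ p ∈ range N, ∑ q ∈ range N, ∑ r ∈ range N, Th z p q r * f q ^ 2 := by
      have : ∑ p ∈ range N, ∑ q ∈ range N, ∑ r ∈ range N, Th z p q r * ((f q ^ 2 + f r ^ 2) / 2)
        = (1 / 2) * (∑ p ∈ range N, ∑ q ∈ range N, ∑ r ∈ range N, Th z p q r * f q ^ 2)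
          + (1 / 2) * ∑ p ∈ range N, ∑ q ∈ range N, ∑ r ∈ range N, Th z p q r * f r ^ 2 := by
        simp only [Finset.mul_sum, ← Finset.sum_add_distrib]
        apply Finset.sum_congr rfl; intro p _
        apply Finset.sum_congr rfl; intro q _
        apply Finset.sum_congr rfl; intro r _
        ring
      rw [this, hb]
      ring
    have hd : ∑ p ∈ range N, ∑ q ∈ range N, ∑ r ∈ range N, Th z p q r * f q ^ 2
        = ∑ q ∈ range N, (∑ p ∈ range N, ∑ r ∈ range N, Th z p q r) * f q ^ 2 := by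
      rw [Finset.sum_comm]
      apply Finset.sum_congr rfl; intro q _
      rw [Finset.sum_mul]
      apply Finset.sum_congr rfl; intro p _
      rw [Finset.sum_mul]
    rw [hc, hd] at ha
    refine le_trans ha ?_
    rw [Finset.mul_sum]
    apply Finset.sum_le_sum
    intro q hq
    by_cases hqF : q ∈ FF N z M
    · have := (Finset.mem_filter.mp hqF).2.2
      gcongr
    · rw [hf q hq hqF]
      simp
  have h2 : -2 * ∑ q ∈ range N, f q * (TT N z (fun _ => 1) q *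
            conj (TT N z (fun q => (f q : ℂ)) q)).re
      ≤ 2 * M ^ 2 * ∑ q ∈ range N, f q ^ 2
        + (1 / 2) * ∑ p ∈ range N, ‖TT N z (fun q => (f q : ℂ)) p‖ ^ 2 := by
    rw [Finset.mul_sum, Finset.mul_sum, Finset.mul_sum, ← Finset.sum_add_distrib]
    apply Finset.sum_le_sum
    intro q hq
    by_cases hqF : q ∈ FF N z M
    · have h3 := (Finset.mem_filter.mp hqF).2.1
      set a := TT N z (fun _ => 1) q
      set b := TT N z (fun q => (f q : ℂ)) q
      have h4 : |(a * conj b).re| ≤ M * ‖b‖ := by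
        calc |(a * conj b).re| ≤ ‖a * conj b‖ := Complex.abs_re_le_norm _
          _ = ‖a‖ * ‖b‖ := by rw [norm_mul, Complex.norm_conj]
          _ ≤ M * ‖b‖ := by gcongr
      have h5 : -2 * (f q * (a * conj b).re) ≤ 2 * (|f q| * (M * ‖b‖)) := by
        have h6 : |f q * (a * conj b).re| ≤ |f q| * (M * ‖b‖) := by
          rw [abs_mul]; gcongr
        have := neg_abs_le (f q * (a * conj b).re)
        linarith
      have h7 : 2 * (|f q| * (M * ‖b‖)) ≤ 2 * M ^ 2 * f q ^ 2 + 1 / 2 * ‖b‖ ^ 2 := by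
        rw [← sq_abs (f q)]
        nlinarith [sq_nonneg (2 * M * |f q| - ‖b‖)]
      linarith
    · rw [hf q hq hqF]
      simp
  linarith

lemma TT_complex (N : ℕ) {z : ℕ → ℂ} (hz : NI z) (M : ℝ) (f : ℕ → ℂ)
    (hf : ∀ q ∈ range N, q ∉ FF N z M → f q = 0) :
    ∑ p ∈ range N, ‖TT N z f p‖ ^ 2 ≤ 10 * M ^ 2 * ∑ q ∈ range N, ‖f q‖ ^ 2 := by
  have h1 := TT_real N hz M (fun q => (f q).re) (fun q hq hq2 => by simp [hf q hq hq2])
  have h2 := TT_real N hz M (fun q => (f q).im) (fun q hq hq2 => by simp [hf q hq hq2])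
  have h3 : ∀ p, TT N z f p = TT N z (fun q => ((f q).re : ℂ)) p
      + Complex.I * TT N z (fun q => ((f q).im : ℂ)) p := by
    intro p
    unfold TT
    rw [Finset.mul_sum, ← Finset.sum_add_distrib]
    apply Finset.sum_congr rfl; intro q _
    have := Complex.re_add_im (f q)
    calc kk z p q * f q = kk z p q * (((f q).re : ℂ) + ((f q).im : ℂ) * Complex.I) := by rw [this]
      _ = _ := by ring
  have h4 : ∀ p, ‖TT N z f p‖ ^ 2 ≤ 2 * ‖TT N z (fun q => ((f q).re : ℂ)) p‖ ^ 2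
      + 2 * ‖TT N z (fun q => ((f q).im : ℂ)) p‖ ^ 2 := by
    intro p
    rw [h3 p]
    have h5 := norm_add_le (TT N z (fun q => ((f q).re : ℂ)) p)
      (Complex.I * TT N z (fun q => ((f q).im : ℂ)) p)
    rw [norm_mul, Complex.norm_I, one_mul] at h5
    have h6 := norm_nonneg (TT N z (fun q => ((f q).re : ℂ)) p + Complex.I * TT N z (fun q => ((f q).im : ℂ)) p)
    nlinarith [sq_nonneg (‖TT N z (fun q => ((f q).re : ℂ)) p‖ - ‖TT N z (fun q => ((f q).im : ℂ)) p‖)]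
  have h5 : ∑ q ∈ range N, ‖f q‖ ^ 2 = ∑ q ∈ range N, (f q).re ^ 2 + ∑ q ∈ range N, (f q).im ^ 2 := by
    rw [← Finset.sum_add_distrib]
    apply Finset.sum_congr rfl; intro q _
    rw [← Complex.normSq_eq_norm_sq, Complex.normSq_apply]; ring
  calc ∑ p ∈ range N, ‖TT N z f p‖ ^ 2 ≤ ∑ p ∈ range N, (2 * ‖TT N z (fun q => ((f q).re : ℂ)) p‖ ^ 2
      + 2 * ‖TT N z (fun q => ((f q).im : ℂ)) p‖ ^ 2) := Finset.sum_le_sum (fun p _ => h4 p)
    _ = 2 * ∑ p ∈ range N, ‖TT N z (fun q => ((f q).re : ℂ)) p‖ ^ 2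
      + 2 * ∑ p ∈ range N, ‖TT N z (fun q => ((f q).im : ℂ)) p‖ ^ 2 := by
        rw [Finset.sum_add_distrib, Finset.mul_sum, Finset.mul_sum]
    _ ≤ _ := by
        rw [h5]
        linarith

theorem disc_T1 (N : ℕ) {z : ℕ → ℂ} (hz : NI z) (M : ℝ) (hM : 0 < M) (g : ℕ → ℂ) :
    ∑ p ∈ FF N z M, ‖TT N z g p‖ ^ 2 ≤ 10 * M ^ 2 * ∑ q ∈ range N, ‖g q‖ ^ 2 := by
  classical
  set f : ℕ → ℂ := fun p => if p ∈ FF N z M then conj (TT N z g p) else 0 with hf
  have hb := TT_complex N hz M f (fun q _ hq => by simp [hf, hq])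
  have hsub : FF N z M ⊆ range N := Finset.filter_subset _ _
  have h1 : ∑ q ∈ range N, ‖f q‖ ^ 2 = ∑ p ∈ FF N z M, ‖TT N z g p‖ ^ 2 := by
    rw [← Finset.sum_subset hsub]
    · apply Finset.sum_congr rfl
      intro p hp
      simp only [hf, if_pos hp, Complex.norm_conj]
    · intro p _ hp
      simp [hf, hp]
  have h2 : ((∑ p ∈ FF N z M, ‖TT N z g p‖ ^ 2 : ℝ) : ℂ) = - ∑ q ∈ range N, g q * TT N z f q := by
    have e1 : ((∑ p ∈ FF N z M, ‖TT N z g p‖ ^ 2 : ℝ) : ℂ) = ∑ p ∈ range N, f p * TT N z g p := by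
      rw [← Finset.sum_subset hsub]
      · rw [Complex.ofReal_sum]
        apply Finset.sum_congr rfl
        intro p hp
        simp only [hf, if_pos hp]
        rw [← Complex.normSq_eq_norm_sq, Complex.normSq_eq_conj_mul_self]
      · intro p _ hp
        simp [hf, hp]
    rw [e1]
    unfold TT
    simp only [Finset.mul_sum]
    rw [Finset.sum_comm, ← Finset.sum_neg_distrib]
    apply Finset.sum_congr rfl; intro q _
    rw [← Finset.sum_neg_distrib]
    apply Finset.sum_congr rfl; intro p _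
    rw [kk_anti z p q]
    ring
  have h3 : ∑ p ∈ FF N z M, ‖TT N z g p‖ ^ 2 ≤ ∑ q ∈ range N, ‖g q‖ * ‖TT N z f q‖ := by
    have h0 : (0 : ℝ) ≤ ∑ p ∈ FF N z M, ‖TT N z g p‖ ^ 2 := by positivity
    calc ∑ p ∈ FF N z M, ‖TT N z g p‖ ^ 2 = ‖((∑ p ∈ FF N z M, ‖TT N z g p‖ ^ 2 : ℝ) : ℂ)‖ := by
          rw [Complex.norm_real, Real.norm_of_nonneg h0]
      _ = ‖∑ q ∈ range N, g q * TT N z f q‖ := by rw [h2, norm_neg]
      _ ≤ ∑ q ∈ range N, ‖g q * TT N z f q‖ := norm_sum_le _ _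
      _ = ∑ q ∈ range N, ‖g q‖ * ‖TT N z f q‖ := by simp only [norm_mul]
  have hM2 : 0 < 10 * M ^ 2 := by positivity
  have h4 : ∑ q ∈ range N, ‖g q‖ * ‖TT N z f q‖ ≤ (5 * M ^ 2) * ∑ q ∈ range N, ‖g q‖ ^ 2
      + (1 / (20 * M ^ 2)) * ∑ q ∈ range N, ‖TT N z f q‖ ^ 2 := by
    rw [Finset.mul_sum, Finset.mul_sum, ← Finset.sum_add_distrib]
    apply Finset.sum_le_sum
    intro q _
    have h5 : ‖g q‖ * ‖TT N z f q‖ ≤ 5 * M ^ 2 * ‖g q‖ ^ 2 + 1 / (20 * M ^ 2) * ‖TT N z f q‖ ^ 2 := by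
      have h6 : 5 * M ^ 2 * ‖g q‖ ^ 2 + 1 / (20 * M ^ 2) * ‖TT N z f q‖ ^ 2 - ‖g q‖ * ‖TT N z f q‖
          = (1 / (20 * M ^ 2)) * (10 * M ^ 2 * ‖g q‖ - ‖TT N z f q‖) ^ 2 := by
        field_simp
        ring
      have h7 : 0 ≤ (1 / (20 * M ^ 2)) * (10 * M ^ 2 * ‖g q‖ - ‖TT N z f q‖) ^ 2 := by positivity
      linarith
    exact h5
  have h5 : (1 / (20 * M ^ 2)) * ∑ q ∈ range N, ‖TT N z f q‖ ^ 2
      ≤ (1 / 2) * ∑ p ∈ FF N z M, ‖TT N z g p‖ ^ 2 := by
    rw [← h1]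
    calc (1 / (20 * M ^ 2)) * ∑ q ∈ range N, ‖TT N z f q‖ ^ 2
        ≤ (1 / (20 * M ^ 2)) * (10 * M ^ 2 * ∑ q ∈ range N, ‖f q‖ ^ 2) := by gcongr
      _ = (1 / 2) * ∑ q ∈ range N, ‖f q‖ ^ 2 := by
        field_simp
        ring
  linarith

end

section

open Finset MeasureTheory Filter Topology
open scoped ComplexConjugate ENNReal

/-- weak limits along an ultrafilter -/
lemma weak_ultra {H : Type*} [NormedAddCommGroup H] [InnerProductSpace ℂ H] [CompleteSpace H]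
    (x : ℕ → H) (C : ℝ) (hx : ∀ n, ‖x n‖ ≤ C) (U : Ultrafilter ℕ) :
    ∃ y : H, ‖y‖ ≤ C ∧ ∀ v : H, Tendsto (fun n => inner ℂ v (x n)) U (𝓝 (inner ℂ v y)) := by
  let φ : ℕ → WeakDual ℂ H := fun n => StrongDual.toWeakDual (InnerProductSpace.toDual ℂ H (x n))
  have hK := WeakDual.isCompact_closedBall (𝕜 := ℂ) (E := H) 0 C
  have hmem : ∀ n, φ n ∈ WeakDual.toStrongDual ⁻¹' Metric.closedBall (0 : StrongDual ℂ H) C := by
    intro n
    simp only [Set.mem_preimage, mem_closedBall_zero_iff]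
    have : ‖InnerProductSpace.toDual ℂ H (x n)‖ = ‖x n‖ := LinearIsometryEquiv.norm_map _ _
    exact this.le.trans (hx n)
  obtain ⟨ψ, hψK, hψ⟩ := hK.ultrafilter_le_nhds (U.map φ) (by
    rw [le_principal_iff]
    have : φ ⁻¹' (WeakDual.toStrongDual ⁻¹' Metric.closedBall (0 : StrongDual ℂ H) C) ∈ (U : Filter ℕ) :=
      Filter.univ_mem' hmem
    exact this)
  have hψK' : ‖WeakDual.toStrongDual ψ‖ ≤ C := by
    simpa using hψK
  refine ⟨(InnerProductSpace.toDual ℂ H).symm (WeakDual.toStrongDual ψ), ?_, ?_⟩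
  · rw [LinearIsometryEquiv.norm_map]
    exact hψK'
  · intro v
    have h1 : Tendsto φ U (𝓝 ψ) := hψ
    have h2 : Tendsto (fun n => (φ n) v) U (𝓝 (ψ v)) :=
      ((WeakDual.eval_continuous v).tendsto ψ).comp h1
    have h3 : ∀ n, (φ n) v = inner ℂ (x n) v := by
      intro n
      exact InnerProductSpace.toDual_apply_apply
    have h4 : ψ v = inner ℂ ((InnerProductSpace.toDual ℂ H).symm (WeakDual.toStrongDual ψ)) v := by
      rw [InnerProductSpace.toDual_symm_apply]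
      rfl
    rw [h4] at h2
    simp only [h3] at h2
    have h5 := (Complex.continuous_conj.tendsto _).comp h2
    have h6 : ∀ a b : H, conj (inner ℂ a b) = inner ℂ b a := fun a b => inner_conj_symm _ _
    simpa only [Function.comp_def, h6] using h5

lemma l2norm_sq (x : Lp ℂ 2 (volume : Measure ℝ)) : ‖x‖ ^ 2 = ∫ t, ‖x t‖ ^ 2 := by
  have h := @inner_self_eq_norm_sq ℂ _ _ _ _ x
  rw [L2.inner_def] at h
  rw [← h]
  have : (∫ a, inner ℂ (x a) (x a)) = ((∫ t, ‖x t‖ ^ 2 : ℝ) : ℂ) := by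
    rw [← integral_complex_ofReal]
    congr 1
    ext a
    rw [inner_self_eq_norm_sq_to_K]
    norm_cast
  rw [this]
  simp

lemma l2norm_sq' {f : ℝ → ℂ} (hf : MemLp f 2 volume) : ‖hf.toLp f‖ ^ 2 = ∫ t, ‖f t‖ ^ 2 := by
  rw [l2norm_sq]
  apply integral_congr_ae
  filter_upwards [hf.coeFn_toLp] with t ht
  rw [ht]

lemma leb_diff {E : Type*} [NormedAddCommGroup E] [NormedSpace ℝ E] [CompleteSpace E]
    {f : ℝ → E} (hf : LocallyIntegrable f volume) :
    ∀ᵐ t, Tendsto (fun r : ℝ => (2 * r)⁻¹ • ∫ y in Set.Icc (t - r) (t + r), f y)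
      (𝓝[>] 0) (𝓝 (f t)) := by
  filter_upwards [IsUnifLocDoublingMeasure.ae_tendsto_average volume hf 1] with t ht
  have h := ht (ι := ℝ) (l := 𝓝[>] (0 : ℝ)) (fun _ => t) (fun r => r) tendsto_id (by
    filter_upwards [self_mem_nhdsWithin] with r hr
    rw [Set.mem_Ioi] at hr
    rw [Metric.mem_closedBall, dist_self]
    linarith)
  refine h.congr' ?_
  filter_upwards [self_mem_nhdsWithin] with r hr
  rw [Set.mem_Ioi] at hr
  rw [setAverage_eq, Real.closedBall_eq_Icc]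
  congr 2
  rw [Measure.real, Real.volume_Icc, ENNReal.toReal_ofReal (by linarith)]
  ring

lemma tail_int (g : ℝ → ℝ) (hg : Integrable g) (t r : ℝ) (hr : 0 < r) :
    IntegrableOn (fun y => g y / |y - t| ^ 2) {y : ℝ | r < |y - t|} := by
  have hms : MeasurableSet {y : ℝ | r < |y - t|} :=
    measurableSet_lt measurable_const (measurable_id.sub_const t).abs
  have h1 : IntegrableOn (fun y => g y * (1 / |y - t| ^ 2)) {y : ℝ | r < |y - t|} := by
    refine Integrable.mul_bdd (c := 1 / r ^ 2) hg.integrableOn ?_ ?_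
    · apply Measurable.aestronglyMeasurable
      exact measurable_const.div ((measurable_id.sub_const t).abs.pow_const 2)
    · rw [ae_restrict_iff' hms]
      refine Eventually.of_forall ?_
      intro y hy
      simp only [Set.mem_ofPred_eq] at hy
      rw [Real.norm_of_nonneg (by positivity)]
      gcongr
  refine h1.congr_fun ?_ hms
  intro y _
  ring

/-- Poisson type tail at a point where the averages are bounded -/
lemma tail_bound (g : ℝ → ℝ) (hg : Integrable g) (hg0 : ∀ y, 0 ≤ g y) (t a r₀ : ℝ) (hr₀ : 0 < r₀)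
    (ha : ∀ r, 0 < r → r ≤ r₀ → ∫ y in Set.Icc (t - r) (t + r), g y ≤ a * r)
    (ε : ℝ) (hε : 0 < ε) (hεr : ε ≤ r₀) :
      ε * ∫ y in {y : ℝ | ε < |y - t|}, g y / |y - t| ^ 2
        ≤ 4 * a + 4 * ε / r₀ ^ 2 * ∫ y, g y := by
  have hms : ∀ r : ℝ, MeasurableSet {y : ℝ | r < |y - t|} := fun r =>
    measurableSet_lt measurable_const (measurable_id.sub_const t).abs
  have hI : 0 ≤ ∫ y, g y := integral_nonneg hg0
  set u : ℝ → ℝ := fun r => r * ∫ y in {y : ℝ | r < |y - t|}, g y / |y - t| ^ 2 with hu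
  have h1 : ∀ r, 0 < r → u r ≤ (∫ y, g y) / r := by
    intro r hr
    have h2 : ∫ y in {y : ℝ | r < |y - t|}, g y / |y - t| ^ 2
        ≤ ∫ y in {y : ℝ | r < |y - t|}, g y / r ^ 2 := by
      apply setIntegral_mono_on (tail_int g hg t r hr) (hg.div_const _).integrableOn (hms r)
      intro y hy
      simp only [Set.mem_ofPred_eq] at hy
      have := hg0 y
      gcongr
    have h3 : ∫ y in {y : ℝ | r < |y - t|}, g y / r ^ 2 ≤ ∫ y, g y / r ^ 2 :=
      setIntegral_le_integral (hg.div_const _) (Eventually.of_forall (fun y => by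
        have := hg0 y
        simp only [Pi.zero_apply]
        positivity))
    have h4 : ∫ y, g y / r ^ 2 = (∫ y, g y) / r ^ 2 := integral_div _ _
    simp only [hu]
    calc r * ∫ y in {y : ℝ | r < |y - t|}, g y / |y - t| ^ 2 ≤ r * ((∫ y, g y) / r ^ 2) := by
          rw [← h4]
          exact mul_le_mul_of_nonneg_left (h2.trans h3) hr.le
      _ = (∫ y, g y) / r := by field_simp
  have h2 : ∀ r, 0 < r → 2 * r ≤ r₀ → u r ≤ 2 * a + u (2 * r) / 2 := by
    intro r hr hr2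
    have hset : {y : ℝ | r < |y - t|} = ({y : ℝ | r < |y - t|} \ {y : ℝ | 2 * r < |y - t|}) ∪ {y : ℝ | 2 * r < |y - t|} := by
      ext y
      simp only [Set.mem_ofPred_eq, Set.mem_union, Set.mem_sdiff, not_lt]
      constructor
      · intro h
        by_cases h' : 2 * r < |y - t|
        · right; exact h'
        · left; exact ⟨h, not_lt.mp h'⟩
      · rintro (h | h)
        · exact h.1
        · linarith
    have hint := tail_int g hg t r hr
    have hsplit : ∫ y in {y : ℝ | r < |y - t|}, g y / |y - t| ^ 2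
        = (∫ y in ({y : ℝ | r < |y - t|} \ {y : ℝ | 2 * r < |y - t|}), g y / |y - t| ^ 2)
          + ∫ y in {y : ℝ | 2 * r < |y - t|}, g y / |y - t| ^ 2 := by
      conv_lhs => rw [hset]
      exact setIntegral_union Set.disjoint_sdiff_left (hms (2 * r)) (hint.mono_set Set.sdiff_subset)
        (tail_int g hg t (2 * r) (by linarith))
    have hA : ∫ y in ({y : ℝ | r < |y - t|} \ {y : ℝ | 2 * r < |y - t|}), g y / |y - t| ^ 2
        ≤ 2 * a / r := by
      have h3 : ∫ y in ({y : ℝ | r < |y - t|} \ {y : ℝ | 2 * r < |y - t|}), g y / |y - t| ^ 2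
          ≤ ∫ y in ({y : ℝ | r < |y - t|} \ {y : ℝ | 2 * r < |y - t|}), g y / r ^ 2 := by
        apply setIntegral_mono_on (hint.mono_set Set.sdiff_subset) (hg.div_const _).integrableOn
          ((hms _).diff (hms _))
        intro y hy
        simp only [Set.mem_ofPred_eq, Set.mem_sdiff] at hy
        have h5 := hg0 y
        have h6 := hy.1
        gcongr
      have h4 : ∫ y in ({y : ℝ | r < |y - t|} \ {y : ℝ | 2 * r < |y - t|}), g y / r ^ 2
          ≤ ∫ y in Set.Icc (t - 2 * r) (t + 2 * r), g y / r ^ 2 := by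
        apply setIntegral_mono_set (hg.div_const _).integrableOn
        · exact Eventually.of_forall (fun y => by
            have := hg0 y
            simp only [Pi.zero_apply]
            positivity)
        · apply Eventually.of_forall
          intro y hy
          have hy2 : r < |y - t| ∧ ¬ (2 * r < |y - t|) := hy
          have h7 : |y - t| ≤ 2 * r := not_lt.mp hy2.2
          rw [abs_le] at h7
          exact ⟨by linarith [h7.1], by linarith [h7.2]⟩
      have h5 := ha (2 * r) (by linarith) hr2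
      calc _ ≤ _ := h3
        _ ≤ _ := h4
        _ = (∫ y in Set.Icc (t - 2 * r) (t + 2 * r), g y) / r ^ 2 := integral_div _ _
        _ ≤ a * (2 * r) / r ^ 2 := by gcongr
        _ = 2 * a / r := by field_simp
    simp only [hu]
    rw [hsplit]
    calc r * ((∫ y in ({y : ℝ | r < |y - t|} \ {y : ℝ | 2 * r < |y - t|}), g y / |y - t| ^ 2)
          + ∫ y in {y : ℝ | 2 * r < |y - t|}, g y / |y - t| ^ 2)
        ≤ r * (2 * a / r + ∫ y in {y : ℝ | 2 * r < |y - t|}, g y / |y - t| ^ 2) := by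
          apply mul_le_mul_of_nonneg_left _ hr.le
          linarith
      _ = _ := by field_simp
  have h3 : ∀ n : ℕ, ∀ r, 0 < r → 2 ^ n * r ≤ r₀ →
      u r ≤ 4 * a * (1 - (1 / 2) ^ n) + (1 / 2) ^ n * u (2 ^ n * r) := by
    intro n
    induction n with
    | zero => intro r _ _; simp
    | succ n ih =>
      intro r hr hrn
      have hle : 2 * r ≤ r₀ := by
        have : (1 : ℝ) ≤ 2 ^ n := one_le_pow₀ (by norm_num)
        rw [pow_succ] at hrn
        nlinarith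
      have h5 := h2 r hr hle
      have h6 := ih (2 * r) (by linarith) (by
        have e : (2 : ℝ) ^ n * (2 * r) = 2 ^ (n + 1) * r := by ring
        rw [e]; exact hrn)
      have e : (2 : ℝ) ^ n * (2 * r) = 2 ^ (n + 1) * r := by ring
      rw [e] at h6
      calc u r ≤ 2 * a + u (2 * r) / 2 := h5
        _ ≤ 2 * a + (4 * a * (1 - (1 / 2) ^ n) + (1 / 2) ^ n * u (2 ^ (n + 1) * r)) / 2 := by gcongr
        _ = _ := by ring
  obtain ⟨n, hn1, hn2⟩ := exists_nat_pow_near (x := r₀ / ε) (y := 2)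
    (by rw [le_div_iff₀ hε]; linarith) (by norm_num)
  rw [le_div_iff₀ hε] at hn1
  rw [div_lt_iff₀ hε] at hn2
  have ha0 : 0 ≤ a := by
    have h5 := ha r₀ hr₀ le_rfl
    have h6 : 0 ≤ ∫ y in Set.Icc (t - r₀) (t + r₀), g y := integral_nonneg hg0
    by_contra h7
    push Not at h7
    nlinarith
  have h4 := h3 n ε hε hn1
  have h2n : (0 : ℝ) < 2 ^ n := by positivity
  have h5 := h1 (2 ^ n * ε) (by positivity)
  have h6 : (1 / 2 : ℝ) ^ n ≤ 2 * ε / r₀ := by
    rw [div_pow, one_pow, div_le_div_iff₀ h2n hr₀]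
    rw [pow_succ] at hn2
    nlinarith
  have h7 : (∫ y, g y) / (2 ^ n * ε) ≤ 2 / r₀ * ∫ y, g y := by
    rw [div_le_iff₀ (by positivity)]
    have h8 : r₀ < 2 ^ n * ε * 2 := by rw [pow_succ] at hn2; linarith
    have h9 : 1 ≤ 2 / r₀ * (2 ^ n * ε) := by
      rw [div_mul_eq_mul_div, le_div_iff₀ hr₀]
      linarith
    calc (∫ y, g y) = (∫ y, g y) * 1 := by ring
      _ ≤ (∫ y, g y) * (2 / r₀ * (2 ^ n * ε)) := by gcongr
      _ = _ := by ring
  calc u ε ≤ 4 * a * (1 - (1 / 2) ^ n) + (1 / 2) ^ n * u (2 ^ n * ε) := h4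
    _ ≤ 4 * a * 1 + (2 * ε / r₀) * (2 / r₀ * ∫ y, g y) := by
        have h10 : (1 - (1 / 2 : ℝ) ^ n) ≤ 1 := by
          have : (0 : ℝ) < (1 / 2) ^ n := by positivity
          linarith
        have h11 : u (2 ^ n * ε) ≤ 2 / r₀ * ∫ y, g y := h5.trans h7
        have h12 : (1 / 2 : ℝ) ^ n * u (2 ^ n * ε) ≤ (1 / 2 : ℝ) ^ n * (2 / r₀ * ∫ y, g y) := by gcongr
        have h13 : (1 / 2 : ℝ) ^ n * (2 / r₀ * ∫ y, g y) ≤ (2 * ε / r₀) * (2 / r₀ * ∫ y, g y) := by
          gcongr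
        have h14 : 4 * a * (1 - (1 / 2) ^ n) ≤ 4 * a * 1 := by gcongr
        linarith
    _ = 4 * a + 4 * ε / r₀ ^ 2 * ∫ y, g y := by
        field_simp
        ring

end

section

open Finset MeasureTheory Filter Topology
open scoped ComplexConjugate ENNReal

/-- near identity curves -/
def NIz (z : ℝ → ℂ) : Prop := ∀ s t : ℝ, ‖z s - z t - ((s : ℂ) - t)‖ ≤ (1 / 2) * |s - t|

lemma NIz_lower {z : ℝ → ℂ} (hz : NIz z) (s t : ℝ) : (1 / 2) * |s - t| ≤ ‖z s - z t‖ := by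
  have h := hz s t
  have h2 : ‖((s : ℂ) - t)‖ = |s - t| := by
    rw [← Complex.ofReal_sub, Complex.norm_real, Real.norm_eq_abs]
  have h3 : ‖((s : ℂ) - t)‖ ≤ ‖z s - z t‖ + ‖z s - z t - ((s : ℂ) - t)‖ := by
    have : ((s : ℂ) - t) = (z s - z t) - (z s - z t - ((s : ℂ) - t)) := by ring
    calc ‖((s : ℂ) - t)‖ = ‖(z s - z t) - (z s - z t - ((s : ℂ) - t))‖ := by rw [← this]
      _ ≤ _ := norm_sub_le _ _
  linarith

lemma NIz_upper {z : ℝ → ℂ} (hz : NIz z) (s t : ℝ) : ‖z s - z t‖ ≤ (3 / 2) * |s - t| := by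
  have h := hz s t
  have h2 : ‖((s : ℂ) - t)‖ = |s - t| := by
    rw [← Complex.ofReal_sub, Complex.norm_real, Real.norm_eq_abs]
  have h3 : ‖z s - z t‖ ≤ ‖((s : ℂ) - t)‖ + ‖z s - z t - ((s : ℂ) - t)‖ := by
    have : z s - z t = ((s : ℂ) - t) + (z s - z t - ((s : ℂ) - t)) := by ring
    calc ‖z s - z t‖ = ‖((s : ℂ) - t) + (z s - z t - ((s : ℂ) - t))‖ := by rw [← this]
      _ ≤ _ := norm_add_le _ _
  linarith

lemma NIz_cont {z : ℝ → ℂ} (hz : NIz z) : Continuous z := by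
  have : LipschitzWith (3 / 2) z := by
    apply LipschitzWith.of_dist_le_mul
    intro s t
    rw [dist_eq_norm, Real.dist_eq]
    have := NIz_upper hz s t
    push_cast
    exact this
  exact this.continuous

noncomputable def zN (z : ℝ → ℂ) (h : ℝ) (p : ℕ) : ℂ := z (p * h) / h

lemma NI_zN {z : ℝ → ℂ} (hz : NIz z) (h : ℝ) (hh : 0 < h) : NI (zN z h) := by
  intro p q
  unfold zN
  have h1 := hz (p * h) (q * h)
  have hh' : (h : ℂ) ≠ 0 := by exact_mod_cast hh.ne'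
  have e : z (p * h) / h - z (q * h) / h - ((p : ℂ) - q)
      = (z (p * h) - z (q * h) - (((p * h : ℝ) : ℂ) - ((q * h : ℝ) : ℂ))) / h := by
    push_cast
    field_simp
  rw [e, norm_div, Complex.norm_real, Real.norm_of_nonneg hh.le, div_le_iff₀ hh]
  refine le_trans h1 (le_of_eq ?_)
  rw [← sub_mul, abs_mul, abs_of_pos hh]
  ring

/-- cells -/
def cell (h : ℝ) (q : ℕ) : Set ℝ := Set.Ioc (q * h) ((q + 1) * h)

lemma cell_meas (h : ℝ) (q : ℕ) : MeasurableSet (cell h q) := measurableSet_Ioc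

lemma cell_disj {h : ℝ} (hh : 0 < h) {p q : ℕ} {x : ℝ} (hp : x ∈ cell h p) (hq : x ∈ cell h q) :
    p = q := by
  unfold cell at hp hq
  rw [Set.mem_Ioc] at hp hq
  have h1 : (p : ℝ) < q + 1 := by
    by_contra h0
    push Not at h0
    nlinarith [hp.1, hq.2]
  have h2 : (q : ℝ) < p + 1 := by
    by_contra h0
    push Not at h0
    nlinarith [hq.1, hp.2]
  have h3 : p < q + 1 := by exact_mod_cast h1
  have h4 : q < p + 1 := by exact_mod_cast h2
  omega

lemma cell_vol (h : ℝ) (q : ℕ) : volume (cell h q) = ENNReal.ofReal h := by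
  unfold cell
  rw [Real.volume_Ioc]
  congr 1
  ring

/-- step functions -/
noncomputable def stepf (F : Finset ℕ) (h : ℝ) (v : ℕ → ℂ) (x : ℝ) : ℂ :=
  ∑ p ∈ F, (cell h p).indicator (fun _ => v p) x

lemma stepf_of_mem {F : Finset ℕ} {h : ℝ} (hh : 0 < h) (v : ℕ → ℂ) {x : ℝ} {p : ℕ} (hp : p ∈ F)
    (hx : x ∈ cell h p) : stepf F h v x = v p := by
  unfold stepf
  rw [Finset.sum_eq_single p]
  · rw [Set.indicator_of_mem hx]
  · intro q _ hqp
    rw [Set.indicator_of_notMem]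
    intro hq
    exact hqp (cell_disj hh hq hx)
  · intro h; exact absurd hp h

lemma stepf_of_not {F : Finset ℕ} {h : ℝ} (v : ℕ → ℂ) {x : ℝ} (hx : ∀ p ∈ F, x ∉ cell h p) :
    stepf F h v x = 0 := by
  unfold stepf
  apply Finset.sum_eq_zero
  intro p hp
  rw [Set.indicator_of_notMem (hx p hp)]

lemma stepf_memLp (F : Finset ℕ) (h : ℝ) (v : ℕ → ℂ) : MemLp (stepf F h v) 2 volume := by
  unfold stepf
  apply memLp_finsetSum
  intro p _
  apply memLp_indicator_const 2 (cell_meas h p)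
  right
  rw [cell_vol h]
  exact ENNReal.ofReal_ne_top

lemma stepf_norm (F : Finset ℕ) {h : ℝ} (hh : 0 < h) (v : ℕ → ℂ) :
    ∫ x, ‖stepf F h v x‖ ^ 2 = h * ∑ p ∈ F, ‖v p‖ ^ 2 := by
  have h1 : ∀ x, ‖stepf F h v x‖ ^ 2 = ∑ p ∈ F, (cell h p).indicator (fun _ => ‖v p‖ ^ 2) x := by
    intro x
    by_cases hx : ∃ p ∈ F, x ∈ cell h p
    · obtain ⟨p, hp, hxp⟩ := hx
      rw [stepf_of_mem hh v hp hxp, Finset.sum_eq_single p]
      · rw [Set.indicator_of_mem hxp]
      · intro q _ hqp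
        rw [Set.indicator_of_notMem]
        intro hq
        exact hqp (cell_disj hh hq hxp)
      · intro h; exact absurd hp h
    · push Not at hx
      rw [stepf_of_not v hx]
      rw [Finset.sum_eq_zero]
      · simp
      · intro p hp
        rw [Set.indicator_of_notMem (hx p hp)]
  simp only [h1]
  rw [integral_finsetSum]
  · rw [Finset.mul_sum]
    apply Finset.sum_congr rfl
    intro p _
    rw [integral_indicator (cell_meas h p), setIntegral_const, Measure.real, cell_vol h,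
      ENNReal.toReal_ofReal hh.le, smul_eq_mul]
  · intro p _
    rw [integrable_indicator_iff (cell_meas h p)]
    apply integrableOn_const
    · rw [cell_vol h]
      exact ENNReal.ofReal_ne_top
    · simp

lemma cs_set {g : ℝ → ℂ} (hg : MemLp g 2 volume) {A : Set ℝ} (hA : MeasurableSet A)
    (hA2 : volume A ≠ ⊤) : ‖∫ y in A, g y‖ ^ 2 ≤ volume.real A * ∫ y in A, ‖g y‖ ^ 2 := by
  have hg' : MemLp (A.indicator g) 2 volume := hg.indicator hA
  have h1 := norm_inner_le_norm (𝕜 := ℂ) (indicatorConstLp 2 hA hA2 (1 : ℂ)) hg'.toLp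
  rw [L2.inner_indicatorConstLp_one] at h1
  have h2 : ∫ x in A, (hg'.toLp : ℝ → ℂ) x = ∫ y in A, g y := by
    apply setIntegral_congr_ae hA
    filter_upwards [hg'.coeFn_toLp] with x hx hxA
    rw [hx, Set.indicator_of_mem hxA]
  rw [h2] at h1
  have h3 : ‖hg'.toLp‖ ^ 2 = ∫ y in A, ‖g y‖ ^ 2 := by
    rw [l2norm_sq', ← integral_indicator hA]
    congr 1
    ext x
    by_cases hx : x ∈ A
    · rw [Set.indicator_of_mem hx, Set.indicator_of_mem hx]
    · rw [Set.indicator_of_notMem hx, Set.indicator_of_notMem hx]; simp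
  have h4 : ‖indicatorConstLp 2 hA hA2 (1 : ℂ)‖ ^ 2 = volume.real A := by
    rw [norm_indicatorConstLp (by norm_num) (by norm_num)]
    rw [norm_one, one_mul]
    have : ((volume.real A) ^ (1 / (2 : ℝ≥0∞).toReal)) ^ 2 = volume.real A := by
      rw [← Real.rpow_natCast, ← Real.rpow_mul measureReal_nonneg]
      simp
    exact this
  calc ‖∫ y in A, g y‖ ^ 2 ≤ (‖indicatorConstLp 2 hA hA2 (1 : ℂ)‖ * ‖hg'.toLp‖) ^ 2 := by gcongr
    _ = volume.real A * ∫ y in A, ‖g y‖ ^ 2 := by rw [mul_pow, h3, h4]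

end

section

open Finset MeasureTheory Filter Topology
open scoped ComplexConjugate ENNReal

lemma sum_cells {E : Type*} [NormedAddCommGroup E] [NormedSpace ℝ E] (f : ℝ → E)
    (hf : Integrable f) {h : ℝ} (hh : 0 < h) (N : ℕ) :
    ∑ q ∈ range N, ∫ y in cell h q, f y = ∫ y in Set.Ioc 0 (N * h), f y := by
  induction N with
  | zero => simp
  | succ n ih =>
    rw [Finset.sum_range_succ, ih]
    have hu : Set.Ioc (0 : ℝ) (((n + 1 : ℕ) : ℝ) * h) = Set.Ioc 0 (n * h) ∪ cell h n := by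
      unfold cell
      rw [Set.Ioc_union_Ioc_eq_Ioc (by positivity) (by nlinarith)]
      push_cast
      rfl
    rw [hu, setIntegral_union _ (cell_meas h n) hf.integrableOn hf.integrableOn]
    rw [Set.disjoint_left]
    intro x hx hx2
    unfold cell at hx2
    rw [Set.mem_Ioc] at hx hx2
    linarith [hx.2, hx2.1]

noncomputable def cc (g : ℝ → ℂ) (h : ℝ) (q : ℕ) : ℂ := ∫ y in cell h q, g y

noncomputable def vv (z : ℝ → ℂ) (N : ℕ) (h : ℝ) (g : ℝ → ℂ) (p : ℕ) : ℂ :=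
  (h : ℂ)⁻¹ * TT N (zN z h) (cc g h) p

lemma vv_eq (z : ℝ → ℂ) (N : ℕ) {h : ℝ} (hh : 0 < h) (g : ℝ → ℂ) (p : ℕ) :
    vv z N h g p = ∑ q ∈ range N, (z (q * h) - z (p * h))⁻¹ * ∫ y in cell h q, g y := by
  unfold vv TT cc
  rw [Finset.mul_sum]
  apply Finset.sum_congr rfl
  intro q _
  have hh' : (h : ℂ) ≠ 0 := by exact_mod_cast hh.ne'
  have : kk (zN z h) p q = (h : ℂ) * (z (q * h) - z (p * h))⁻¹ := by
    unfold kk zN
    rw [← sub_div, inv_div, div_eq_mul_inv]
  rw [this]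
  field_simp

lemma vv_add (z : ℝ → ℂ) (N : ℕ) {h : ℝ} (hh : 0 < h) (f g : ℝ → ℂ) (hf : Integrable f)
    (hg : Integrable g) (p : ℕ) :
    vv z N h (fun x => f x + g x) p = vv z N h f p + vv z N h g p := by
  rw [vv_eq z N hh, vv_eq z N hh, vv_eq z N hh, ← Finset.sum_add_distrib]
  apply Finset.sum_congr rfl
  intro q _
  rw [integral_add hf.integrableOn hg.integrableOn]
  ring

lemma step_bound {z : ℝ → ℂ} (hz : NIz z) (N : ℕ) {h : ℝ} (hh : 0 < h) (M : ℝ) (hM : 0 < M)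
    {g : ℝ → ℂ} (hg : MemLp g 2 volume) :
    ∫ x, ‖stepf (FF N (zN z h) M) h (vv z N h g) x‖ ^ 2 ≤ 10 * M ^ 2 * ∫ x, ‖g x‖ ^ 2 := by
  rw [stepf_norm _ hh]
  have h1 := disc_T1 N (NI_zN hz h hh) M hM (cc g h)
  have h2 : ∀ p, ‖vv z N h g p‖ ^ 2 = (h⁻¹) ^ 2 * ‖TT N (zN z h) (cc g h) p‖ ^ 2 := by
    intro p
    unfold vv
    rw [norm_mul, norm_inv, Complex.norm_real, Real.norm_of_nonneg hh.le, mul_pow]
  simp only [h2]
  rw [← Finset.mul_sum]
  have hsq : Integrable (fun x => ‖g x‖ ^ 2) := hg.integrable_norm_pow (by norm_num)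
  have h3 : ∑ q ∈ range N, ‖cc g h q‖ ^ 2 ≤ h * ∫ x, ‖g x‖ ^ 2 := by
    calc ∑ q ∈ range N, ‖cc g h q‖ ^ 2 ≤ ∑ q ∈ range N, h * ∫ y in cell h q, ‖g y‖ ^ 2 := by
          apply Finset.sum_le_sum
          intro q _
          have h4 := cs_set hg (cell_meas h q) (by rw [cell_vol]; exact ENNReal.ofReal_ne_top)
          rw [Measure.real, cell_vol, ENNReal.toReal_ofReal hh.le] at h4
          exact h4
      _ = h * ∫ y in Set.Ioc 0 (N * h), ‖g y‖ ^ 2 := by
          rw [← Finset.mul_sum, sum_cells _ hsq hh]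
      _ ≤ h * ∫ x, ‖g x‖ ^ 2 := by
          apply mul_le_mul_of_nonneg_left _ hh.le
          exact setIntegral_le_integral hsq (Eventually.of_forall (fun x => by
            simp only [Pi.zero_apply]; positivity))
  calc h * ((h⁻¹) ^ 2 * ∑ p ∈ FF N (zN z h) M, ‖TT N (zN z h) (cc g h) p‖ ^ 2)
      ≤ h * ((h⁻¹) ^ 2 * (10 * M ^ 2 * (h * ∫ x, ‖g x‖ ^ 2))) := by
        have h5 : 10 * M ^ 2 * ∑ q ∈ range N, ‖cc g h q‖ ^ 2 ≤ 10 * M ^ 2 * (h * ∫ x, ‖g x‖ ^ 2) := by
          gcongr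
        gcongr
        exact h1.trans h5
    _ = 10 * M ^ 2 * ∫ x, ‖g x‖ ^ 2 := by
        field_simp

lemma kdiff {z : ℝ → ℂ} (hz : NIz z) {h ε t x y : ℝ} {p q : ℕ} (hh : 0 < h) (hε : 0 < ε)
    (hhε : h ≤ ε / 8) (hx : x ∈ cell h p) (hy : y ∈ cell h q) (hxt : |x - t| ≤ ε / 2)
    (hyt : ε < |y - t|) :
    ‖(z (q * h) - z (p * h))⁻¹ - (z y - z t)⁻¹‖ ≤ 32 * ε / |y - t| ^ 2 := by
  unfold cell at hx hy
  rw [Set.mem_Ioc] at hx hy
  have hx1 : |x - p * h| ≤ h := by rw [abs_le]; constructor <;> nlinarith [hx.1, hx.2]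
  have hy1 : |y - q * h| ≤ h := by rw [abs_le]; constructor <;> nlinarith [hy.1, hy.2]
  have hpt : |t - p * h| ≤ h + ε / 2 := by
    have : t - p * h = (x - p * h) - (x - t) := by ring
    rw [this]
    exact (abs_sub _ _).trans (by linarith)
  have hlow : |y - t| / 4 ≤ |q * h - p * h| := by
    have h1 : |y - t| ≤ |y - q * h| + |q * h - p * h| + |t - p * h| := by
      have : y - t = (y - q * h) + (q * h - p * h) - (t - p * h) := by ring
      rw [this]
      exact (abs_sub _ _).trans (by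
        have := abs_add_le (y - q * h) (q * h - p * h)
        linarith)
    linarith
  have ha := NIz_lower hz (q * h) (p * h)
  have hb := NIz_lower hz y t
  have ha' : |y - t| / 8 ≤ ‖z (q * h) - z (p * h)‖ := by linarith
  have hyt0 : 0 < |y - t| := by linarith
  have han : z (q * h) - z (p * h) ≠ 0 := by
    intro h0
    rw [h0, norm_zero] at ha'
    linarith
  have hbn : z y - z t ≠ 0 := by
    intro h0
    rw [h0, norm_zero] at hb
    linarith
  have hba : ‖(z y - z t) - (z (q * h) - z (p * h))‖ ≤ 2 * ε := by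
    have e : (z y - z t) - (z (q * h) - z (p * h)) = (z y - z (q * h)) - (z t - z (p * h)) := by ring
    rw [e]
    have h1 := NIz_upper hz y (q * h)
    have h2 := NIz_upper hz t (p * h)
    have h3 := norm_sub_le (z y - z (q * h)) (z t - z (p * h))
    linarith
  rw [inv_sub_inv han hbn, norm_div, norm_mul]
  calc ‖z y - z t - (z (q * h) - z (p * h))‖ / (‖z (q * h) - z (p * h)‖ * ‖z y - z t‖)
      ≤ (2 * ε) / ((|y - t| / 8) * ((1 / 2) * |y - t|)) := by gcongr
    _ = 32 * ε / |y - t| ^ 2 := by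
      field_simp
      ring

/-- the far part kernel integrand is integrable -/
lemma far_int {z : ℝ → ℂ} (hz : NIz z) {g : ℝ → ℂ} (hg : Integrable g) (t ε : ℝ) (hε : 0 < ε) :
    Integrable (fun y => ({y : ℝ | ε < |y - t|}).indicator g y * (z y - z t)⁻¹) := by
  have hms : MeasurableSet {y : ℝ | ε < |y - t|} :=
    measurableSet_lt measurable_const (measurable_id.sub_const t).abs
  have h1 : (fun y => ({y : ℝ | ε < |y - t|}).indicator g y * (z y - z t)⁻¹)
      = fun y => g y * ({y : ℝ | ε < |y - t|}).indicator (fun y => (z y - z t)⁻¹) y := by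
    ext y
    by_cases hy : y ∈ {y : ℝ | ε < |y - t|}
    · rw [Set.indicator_of_mem hy, Set.indicator_of_mem hy]
    · rw [Set.indicator_of_notMem hy, Set.indicator_of_notMem hy]; simp
  rw [h1]
  refine Integrable.mul_bdd (c := 2 / ε) hg ?_ ?_
  · apply Measurable.aestronglyMeasurable
    apply Measurable.indicator _ hms
    exact ((NIz_cont hz).measurable.sub_const _).inv
  · apply Eventually.of_forall
    intro y
    by_cases hy : y ∈ {y : ℝ | ε < |y - t|}
    · rw [Set.indicator_of_mem hy, norm_inv]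
      have h2 := NIz_lower hz y t
      have h3 : ε < |y - t| := hy
      rw [← one_div]
      calc 1 / ‖z y - z t‖ ≤ 1 / ((1 / 2) * ε) := by
            apply one_div_le_one_div_of_le (by positivity)
            nlinarith
        _ = 2 / ε := by field_simp
    · rw [Set.indicator_of_notMem hy, norm_zero]
      positivity

lemma far_point {z : ℝ → ℂ} (hz : NIz z) (N : ℕ) {h ε t x : ℝ} {p : ℕ} (hh : 0 < h) (hε : 0 < ε)
    (hhε : h ≤ ε / 8) (hx : x ∈ cell h p) (hxt : |x - t| ≤ ε / 2)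
    {g : ℝ → ℂ} (hg : Integrable g) (hsupp : ∀ y, y ∉ Set.Ioc 0 (N * h) → g y = 0) :
    ‖vv z N h (({y : ℝ | ε < |y - t|}).indicator g) p
        - ∫ y in {y : ℝ | ε < |y - t|}, g y * (z y - z t)⁻¹‖
      ≤ 32 * ε * ∫ y in {y : ℝ | ε < |y - t|}, ‖g y‖ / |y - t| ^ 2 := by
  have hms : MeasurableSet {y : ℝ | ε < |y - t|} :=
    measurableSet_lt measurable_const (measurable_id.sub_const t).abs
  have hgi : Integrable (({y : ℝ | ε < |y - t|}).indicator g) := hg.indicator hms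
  have hfar := far_int hz hg t ε hε
  have e1 : ∫ y in {y : ℝ | ε < |y - t|}, g y * (z y - z t)⁻¹
      = ∑ q ∈ range N, ∫ y in cell h q, ({y : ℝ | ε < |y - t|}).indicator g y * (z y - z t)⁻¹ := by
    rw [sum_cells _ hfar hh, ← integral_indicator hms, ← integral_indicator measurableSet_Ioc]
    congr 1
    ext y
    by_cases hy : y ∈ {y : ℝ | ε < |y - t|}
    · by_cases hy2 : y ∈ Set.Ioc 0 (N * h)
      · rw [Set.indicator_of_mem hy, Set.indicator_of_mem hy2, Set.indicator_of_mem hy]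
      · rw [Set.indicator_of_mem hy, Set.indicator_of_notMem hy2, hsupp y hy2, zero_mul]
    · rw [Set.indicator_of_notMem hy]
      by_cases hy2 : y ∈ Set.Ioc 0 (N * h)
      · rw [Set.indicator_of_mem hy2, Set.indicator_of_notMem hy, zero_mul]
      · rw [Set.indicator_of_notMem hy2]
  have e2 : vv z N h (({y : ℝ | ε < |y - t|}).indicator g) p
      = ∑ q ∈ range N, ∫ y in cell h q,
          ({y : ℝ | ε < |y - t|}).indicator g y * (z (q * h) - z (p * h))⁻¹ := by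
    rw [vv_eq z N hh]
    apply Finset.sum_congr rfl
    intro q _
    rw [integral_mul_const, mul_comm]
  rw [e1, e2, ← Finset.sum_sub_distrib]
  have hG : Integrable (fun y => ({y : ℝ | ε < |y - t|}).indicator (fun y => ‖g y‖ / |y - t| ^ 2) y) := by
    rw [integrable_indicator_iff hms]
    exact tail_int (fun y => ‖g y‖) hg.norm t ε hε
  calc ‖∑ q ∈ range N, ((∫ y in cell h q,
          ({y : ℝ | ε < |y - t|}).indicator g y * (z (q * h) - z (p * h))⁻¹)
        - ∫ y in cell h q, ({y : ℝ | ε < |y - t|}).indicator g y * (z y - z t)⁻¹)‖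
      ≤ ∑ q ∈ range N, ‖(∫ y in cell h q,
          ({y : ℝ | ε < |y - t|}).indicator g y * (z (q * h) - z (p * h))⁻¹)
        - ∫ y in cell h q, ({y : ℝ | ε < |y - t|}).indicator g y * (z y - z t)⁻¹‖ := norm_sum_le _ _
    _ ≤ ∑ q ∈ range N, 32 * ε * ∫ y in cell h q,
        ({y : ℝ | ε < |y - t|}).indicator (fun y => ‖g y‖ / |y - t| ^ 2) y := by
        apply Finset.sum_le_sum
        intro q _
        rw [← integral_sub (hgi.mul_const _).integrableOn hfar.integrableOn]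
        rw [← integral_const_mul]
        apply norm_integral_le_of_norm_le (hG.const_mul _).integrableOn
        rw [ae_restrict_iff' (cell_meas h q)]
        apply Eventually.of_forall
        intro y hyq
        by_cases hy : y ∈ {y : ℝ | ε < |y - t|}
        · rw [Set.indicator_of_mem hy, Set.indicator_of_mem hy, ← mul_sub, norm_mul]
          have := kdiff hz hh hε hhε hx hyq hxt hy
          calc ‖g y‖ * ‖(z (q * h) - z (p * h))⁻¹ - (z y - z t)⁻¹‖
              ≤ ‖g y‖ * (32 * ε / |y - t| ^ 2) := by gcongr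
            _ = _ := by ring
        · rw [Set.indicator_of_notMem hy, Set.indicator_of_notMem hy]
          simp
    _ = 32 * ε * ∫ y in Set.Ioc 0 (N * h),
        ({y : ℝ | ε < |y - t|}).indicator (fun y => ‖g y‖ / |y - t| ^ 2) y := by
        rw [← Finset.mul_sum, sum_cells _ hG hh]
    _ ≤ 32 * ε * ∫ y, ({y : ℝ | ε < |y - t|}).indicator (fun y => ‖g y‖ / |y - t| ^ 2) y := by
        apply mul_le_mul_of_nonneg_left _ (by positivity)
        apply setIntegral_le_integral hG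
        apply Eventually.of_forall
        intro y
        simp only [Pi.zero_apply]
        apply Set.indicator_nonneg
        intro y _
        positivity
    _ = _ := by rw [integral_indicator hms]

end

section

open Finset MeasureTheory Filter Topology
open scoped ComplexConjugate ENNReal

lemma stepf_add (F : Finset ℕ) (h : ℝ) (u v : ℕ → ℂ) (x : ℝ) :
    stepf F h (fun p => u p + v p) x = stepf F h u x + stepf F h v x := by
  unfold stepf
  rw [← Finset.sum_add_distrib]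
  apply Finset.sum_congr rfl
  intro p _
  by_cases hx : x ∈ cell h p
  · rw [Set.indicator_of_mem hx, Set.indicator_of_mem hx, Set.indicator_of_mem hx]
  · rw [Set.indicator_of_notMem hx, Set.indicator_of_notMem hx, Set.indicator_of_notMem hx, add_zero]

lemma finite_est {z : ℝ → ℂ} (hz : NIz z) (N : ℕ) {h ε t M : ℝ} (hh : 0 < h) (hε : 0 < ε)
    (hM : 0 < M) (hhε : h ≤ ε / 8)
    {g : ℝ → ℂ} (hg : MemLp g 2 volume) (hgi : Integrable g)
    (hsupp : ∀ y, y ∉ Set.Ioc 0 (N * h) → g y = 0) :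
    ‖(∫ x in Set.Icc (t - ε / 2) (t + ε / 2), stepf (FF N (zN z h) M) h (vv z N h g) x)
      - (∫ y in {y : ℝ | ε < |y - t|}, g y * (z y - z t)⁻¹)
        * ∫ x in Set.Icc (t - ε / 2) (t + ε / 2), stepf (FF N (zN z h) M) h (fun _ => 1) x‖
      ≤ Real.sqrt (10 * M ^ 2 * ε * ∫ y in Set.Icc (t - ε) (t + ε), ‖g y‖ ^ 2)
        + 32 * ε ^ 2 * ∫ y in {y : ℝ | ε < |y - t|}, ‖g y‖ / |y - t| ^ 2 := by
  have hms : MeasurableSet {y : ℝ | ε < |y - t|} :=
    measurableSet_lt measurable_const (measurable_id.sub_const t).abs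
  set F := FF N (zN z h) M with hF
  set J := Set.Icc (t - ε / 2) (t + ε / 2) with hJ
  set G := ∫ y in {y : ℝ | ε < |y - t|}, g y * (z y - z t)⁻¹ with hG
  set g1 := (Set.Icc (t - ε) (t + ε)).indicator g with hg1
  set g2 := ({y : ℝ | ε < |y - t|}).indicator g with hg2
  have hg1m : MemLp g1 2 volume := hg.indicator measurableSet_Icc
  have hg2m : MemLp g2 2 volume := hg.indicator hms
  have hg1i : Integrable g1 := hgi.indicator measurableSet_Icc
  have hg2i : Integrable g2 := hgi.indicator hms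
  have hsum : g = fun x => g1 x + g2 x := by
    ext y
    simp only [hg1, hg2]
    by_cases hy : y ∈ Set.Icc (t - ε) (t + ε)
    · have hy2 : y ∉ {y : ℝ | ε < |y - t|} := by
        rw [Set.mem_Icc] at hy
        intro h0
        have h1 : ε < |y - t| := h0
        have h2 : |y - t| ≤ ε := by rw [abs_le]; constructor <;> linarith [hy.1, hy.2]
        linarith
      rw [Set.indicator_of_mem hy, Set.indicator_of_notMem hy2, add_zero]
    · have hy2 : y ∈ {y : ℝ | ε < |y - t|} := by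
        by_contra h0
        apply hy
        have h1 : ¬ (ε < |y - t|) := h0
        push Not at h1
        rw [abs_le] at h1
        exact ⟨by linarith [h1.1], by linarith [h1.2]⟩
      rw [Set.indicator_of_notMem hy, Set.indicator_of_mem hy2, zero_add]
  have hvv : ∀ p, vv z N h g p = vv z N h g1 p + vv z N h g2 p := by
    intro p
    conv_lhs => rw [hsum]
    exact vv_add z N hh g1 g2 hg1i hg2i p
  have hst : ∀ x, stepf F h (vv z N h g) x = stepf F h (vv z N h g1) x + stepf F h (vv z N h g2) x := by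
    intro x
    rw [← stepf_add]
    congr 1
    ext p
    exact hvv p
  have hJv : volume J = ENNReal.ofReal ε := by
    rw [hJ, Real.volume_Icc]; congr 1; ring
  have hJt : volume J ≠ ⊤ := by rw [hJv]; exact ENNReal.ofReal_ne_top
  have hJr : volume.real J = ε := by rw [Measure.real, hJv, ENNReal.toReal_ofReal hε.le]
  have hi : ∀ v : ℕ → ℂ, IntegrableOn (stepf F h v) J := by
    intro v
    have : IsFiniteMeasure (volume.restrict J) := ⟨by
      rw [Measure.restrict_apply_univ, hJv]; exact ENNReal.ofReal_lt_top⟩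
    exact ((stepf_memLp F h v).restrict J).integrable (by norm_num)
  -- the near part
  have hA : ‖∫ x in J, stepf F h (vv z N h g1) x‖
      ≤ Real.sqrt (10 * M ^ 2 * ε * ∫ y in Set.Icc (t - ε) (t + ε), ‖g y‖ ^ 2) := by
    apply Real.le_sqrt_of_sq_le
    have h1 := cs_set (stepf_memLp F h (vv z N h g1)) (A := J) measurableSet_Icc hJt
    rw [hJr] at h1
    have h2 : ∫ x in J, ‖stepf F h (vv z N h g1) x‖ ^ 2 ≤ ∫ x, ‖stepf F h (vv z N h g1) x‖ ^ 2 := by
      apply setIntegral_le_integral ((stepf_memLp F h _).integrable_norm_pow (by norm_num))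
      apply Eventually.of_forall
      intro x
      simp only [Pi.zero_apply]
      positivity
    have h3 := step_bound hz N hh M hM hg1m
    have h4 : ∫ x, ‖g1 x‖ ^ 2 = ∫ y in Set.Icc (t - ε) (t + ε), ‖g y‖ ^ 2 := by
      rw [← integral_indicator measurableSet_Icc]
      congr 1
      ext y
      simp only [hg1]
      by_cases hy : y ∈ Set.Icc (t - ε) (t + ε)
      · rw [Set.indicator_of_mem hy, Set.indicator_of_mem hy]
      · rw [Set.indicator_of_notMem hy, Set.indicator_of_notMem hy]; simp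
    rw [h4] at h3
    calc ‖∫ x in J, stepf F h (vv z N h g1) x‖ ^ 2
        ≤ ε * ∫ x in J, ‖stepf F h (vv z N h g1) x‖ ^ 2 := h1
      _ ≤ ε * (10 * M ^ 2 * ∫ y in Set.Icc (t - ε) (t + ε), ‖g y‖ ^ 2) :=
          mul_le_mul_of_nonneg_left (h2.trans h3) hε.le
      _ = _ := by ring
  -- the far part
  have hB : ‖∫ x in J, (stepf F h (vv z N h g2) x - G * stepf F h (fun _ => 1) x)‖
      ≤ 32 * ε ^ 2 * ∫ y in {y : ℝ | ε < |y - t|}, ‖g y‖ / |y - t| ^ 2 := by
    have hP : 0 ≤ ∫ y in {y : ℝ | ε < |y - t|}, ‖g y‖ / |y - t| ^ 2 := by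
      apply integral_nonneg
      intro y
      simp only [Pi.zero_apply]
      positivity
    have h1 : ‖∫ x in J, (stepf F h (vv z N h g2) x - G * stepf F h (fun _ => 1) x)‖
        ≤ (32 * ε * ∫ y in {y : ℝ | ε < |y - t|}, ‖g y‖ / |y - t| ^ 2) * volume.real J := by
      apply norm_setIntegral_le_of_norm_le_const (by rw [hJv]; exact ENNReal.ofReal_lt_top)
      intro x hx
      have hxt : |x - t| ≤ ε / 2 := by
        rw [hJ, Set.mem_Icc] at hx
        rw [abs_le]; constructor <;> linarith [hx.1, hx.2]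
      by_cases hxx : ∃ p ∈ F, x ∈ cell h p
      · obtain ⟨p, hp, hxp⟩ := hxx
        rw [stepf_of_mem hh _ hp hxp, stepf_of_mem hh _ hp hxp, mul_one]
        exact far_point hz N hh hε hhε hxp hxt hgi hsupp
      · push Not at hxx
        rw [stepf_of_not _ hxx, stepf_of_not _ hxx, mul_zero, sub_zero, norm_zero]
        positivity
    rw [hJr] at h1
    calc _ ≤ _ := h1
      _ = _ := by ring
  have hfin : (∫ x in J, stepf F h (vv z N h g) x) - G * ∫ x in J, stepf F h (fun _ => 1) x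
      = (∫ x in J, stepf F h (vv z N h g1) x)
        + ∫ x in J, (stepf F h (vv z N h g2) x - G * stepf F h (fun _ => 1) x) := by
    rw [integral_sub (hi _) ((hi _).const_mul G), integral_const_mul]
    have : ∫ x in J, stepf F h (vv z N h g) x = (∫ x in J, stepf F h (vv z N h g1) x)
        + ∫ x in J, stepf F h (vv z N h g2) x := by
      rw [← integral_add (hi _) (hi _)]
      congr 1
      ext x
      exact hst x
    rw [this]
    ring
  rw [hfin]
  exact (norm_add_le _ _).trans (add_le_add hA hB)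

end

section

open Finset MeasureTheory Filter Topology
open scoped ComplexConjugate ENNReal

lemma int_toLp {f : ℝ → ℂ} (hf : MemLp f 2 volume) {A : Set ℝ} (hA : MeasurableSet A)
    (hA2 : volume A ≠ ⊤) :
    inner ℂ (indicatorConstLp 2 hA hA2 (1 : ℂ)) hf.toLp = ∫ x in A, f x := by
  rw [L2.inner_indicatorConstLp_one]
  apply setIntegral_congr_ae hA
  filter_upwards [hf.coeFn_toLp] with x hx _
  rw [hx]

lemma int_step_one (F : Finset ℕ) {h : ℝ} (hh : 0 < h) (N : ℕ) (hF : F ⊆ range N) :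
    ∫ x in Set.Ioc 0 (N * h), stepf F h (fun _ => 1) x = ((h * F.card : ℝ) : ℂ) := by
  unfold stepf
  rw [integral_finsetSum]
  · have h1 : ∀ p ∈ F, ∫ x in Set.Ioc 0 (N * h), (cell h p).indicator (fun _ => (1 : ℂ)) x = (h : ℂ) := by
      intro p hp
      rw [setIntegral_indicator (cell_meas h p)]
      have hsub : Set.Ioc 0 (N * h) ∩ cell h p = cell h p := by
        apply Set.inter_eq_right.mpr
        intro x hx
        unfold cell at hx
        rw [Set.mem_Ioc] at hx ⊢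
        have hpN : p + 1 ≤ N := by
          have := Finset.mem_range.mp (hF hp)
          omega
        have hpN' : (p : ℝ) + 1 ≤ N := by exact_mod_cast hpN
        constructor
        · have : 0 ≤ (p : ℝ) * h := by positivity
          linarith [hx.1]
        · calc x ≤ ((p : ℝ) + 1) * h := hx.2
            _ ≤ N * h := by gcongr
      rw [hsub, setIntegral_const, Measure.real, cell_vol, ENNReal.toReal_ofReal hh.le]
      simp
    rw [Finset.sum_congr rfl h1, Finset.sum_const, nsmul_eq_mul]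
    push_cast
    ring
  · intro p _
    apply Integrable.integrableOn
    rw [integrable_indicator_iff (cell_meas h p)]
    apply integrableOn_const
    · rw [cell_vol]
      exact ENNReal.ofReal_ne_top
    · simp

theorem core_weak {z : ℝ → ℂ} (hz : NIz z) {L M : ℝ} (hL : 0 < L) (hM : 0 < M) :
    ∃ w : Lp ℂ 2 (volume : Measure ℝ), ‖w‖ ^ 2 ≤ L ∧
      L * (1 - 5000 / M ^ 2) ≤ ‖∫ x in Set.Ioc 0 L, w x‖ ∧
      ∀ g : ℝ → ℂ, MemLp g 2 volume → (∀ y, y ∉ Set.Ioc 0 L → g y = 0) →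
        ∃ Ψ : Lp ℂ 2 (volume : Measure ℝ), ‖Ψ‖ ^ 2 ≤ 10 * M ^ 2 * ∫ x, ‖g x‖ ^ 2 ∧
          ∀ t ε : ℝ, 0 < ε →
            ‖(∫ x in Set.Icc (t - ε / 2) (t + ε / 2), Ψ x)
              - (∫ y in {y : ℝ | ε < |y - t|}, g y * (z y - z t)⁻¹)
                * ∫ x in Set.Icc (t - ε / 2) (t + ε / 2), w x‖
            ≤ Real.sqrt (10 * M ^ 2 * ε * ∫ y in Set.Icc (t - ε) (t + ε), ‖g y‖ ^ 2)
              + 32 * ε ^ 2 * ∫ y in {y : ℝ | ε < |y - t|}, ‖g y‖ / |y - t| ^ 2 := by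
  set h : ℕ → ℝ := fun n => L / ((n : ℝ) + 1) with hh
  have hpos : ∀ n, 0 < h n := fun n => by simp only [hh]; positivity
  have hNh : ∀ n, ((n + 1 : ℕ) : ℝ) * h n = L := by
    intro n
    simp only [hh]
    push_cast
    field_simp
  set F : ℕ → Finset ℕ := fun n => FF (n + 1) (zN z (h n)) M with hF
  have hFr : ∀ n, F n ⊆ range (n + 1) := fun n => Finset.filter_subset _ _
  set U : Ultrafilter ℕ := hyperfilter ℕ with hU
  have hUtop : (U : Filter ℕ) ≤ atTop := by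
    rw [← Nat.cofinite_eq_atTop]
    exact hyperfilter_le_cofinite
  set W : ℕ → Lp ℂ 2 (volume : Measure ℝ) := fun n => (stepf_memLp (F n) (h n) (fun _ => 1)).toLp with hW
  have hWn : ∀ n, ‖W n‖ ^ 2 ≤ L := by
    intro n
    simp only [hW]
    rw [l2norm_sq', stepf_norm _ (hpos n)]
    simp only [norm_one, one_pow, Finset.sum_const, nsmul_eq_mul, mul_one]
    have h1 : ((F n).card : ℝ) ≤ ((n + 1 : ℕ) : ℝ) := by
      have := Finset.card_le_card (hFr n)
      rw [Finset.card_range] at this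
      exact_mod_cast this
    calc h n * ((F n).card : ℝ) ≤ h n * ((n + 1 : ℕ) : ℝ) := by
          have := (hpos n).le
          gcongr
      _ = L := by rw [mul_comm]; exact hNh n
  obtain ⟨w, hw1, hw2⟩ := weak_ultra W (Real.sqrt L) (fun n => Real.le_sqrt_of_sq_le (hWn n)) U
  refine ⟨w, ?_, ?_, ?_⟩
  · have := Real.sq_sqrt hL.le
    calc ‖w‖ ^ 2 ≤ (Real.sqrt L) ^ 2 := by gcongr
      _ = L := this
  · have hA2 : volume (Set.Ioc 0 L) ≠ ⊤ := by rw [Real.volume_Ioc]; exact ENNReal.ofReal_ne_top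
    have h1 := hw2 (indicatorConstLp 2 (measurableSet_Ioc (a := (0 : ℝ)) (b := L)) hA2 (1 : ℂ))
    rw [L2.inner_indicatorConstLp_one] at h1
    have h2 := h1.norm
    apply ge_of_tendsto h2
    apply Eventually.of_forall
    intro n
    simp only [hW]
    rw [int_toLp]
    have e := int_step_one (F n) (hpos n) (n + 1) (hFr n)
    rw [hNh n] at e
    rw [e, Complex.norm_real, Real.norm_of_nonneg (mul_nonneg (hpos n).le (Nat.cast_nonneg _))]
    have hc := FF_card (n + 1) (NI_zN hz (h n) (hpos n)) M hM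
    have hM2 : 0 < M ^ 2 := by positivity
    have h3 : ((n + 1 : ℕ) : ℝ) * (1 - 5000 / M ^ 2) ≤ ((F n).card : ℝ) := by
      have : ((n + 1 : ℕ) : ℝ) - ((F n).card : ℝ) ≤ 5000 * ((n + 1 : ℕ) : ℝ) / M ^ 2 := by
        rw [le_div_iff₀ hM2]
        exact hc
      have e2 : ((n + 1 : ℕ) : ℝ) * (1 - 5000 / M ^ 2) = ((n + 1 : ℕ) : ℝ) - 5000 * ((n + 1 : ℕ) : ℝ) / M ^ 2 := by
        ring
      rw [e2]
      linarith
    calc L * (1 - 5000 / M ^ 2) = h n * (((n + 1 : ℕ) : ℝ) * (1 - 5000 / M ^ 2)) := by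
          rw [← mul_assoc, mul_comm (h n), hNh n]
      _ ≤ h n * ((F n).card : ℝ) := by
          have := (hpos n).le
          gcongr
  · intro g hg hsupp
    have hgi : Integrable g := by
      have h1 : g = (Set.Ioc 0 L).indicator g := by
        ext y
        by_cases hy : y ∈ Set.Ioc 0 L
        · rw [Set.indicator_of_mem hy]
        · rw [Set.indicator_of_notMem hy, hsupp y hy]
      rw [h1, integrable_indicator_iff measurableSet_Ioc]
      have : IsFiniteMeasure (volume.restrict (Set.Ioc 0 L)) := ⟨by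
        rw [Measure.restrict_apply_univ, Real.volume_Ioc]; exact ENNReal.ofReal_lt_top⟩
      exact (hg.restrict (Set.Ioc 0 L)).integrable (by norm_num)
    set X : ℕ → Lp ℂ 2 (volume : Measure ℝ) :=
      fun n => (stepf_memLp (F n) (h n) (vv z (n + 1) (h n) g)).toLp with hX
    have hg0 : 0 ≤ ∫ x, ‖g x‖ ^ 2 := integral_nonneg (fun x => by positivity)
    have hXn : ∀ n, ‖X n‖ ^ 2 ≤ 10 * M ^ 2 * ∫ x, ‖g x‖ ^ 2 := by
      intro n
      simp only [hX]
      rw [l2norm_sq']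
      exact step_bound hz (n + 1) (hpos n) M hM hg
    obtain ⟨Ψ, hΨ1, hΨ2⟩ := weak_ultra X (Real.sqrt (10 * M ^ 2 * ∫ x, ‖g x‖ ^ 2))
      (fun n => Real.le_sqrt_of_sq_le (hXn n)) U
    refine ⟨Ψ, ?_, ?_⟩
    · calc ‖Ψ‖ ^ 2 ≤ (Real.sqrt (10 * M ^ 2 * ∫ x, ‖g x‖ ^ 2)) ^ 2 := by gcongr
        _ = 10 * M ^ 2 * ∫ x, ‖g x‖ ^ 2 := Real.sq_sqrt (by positivity)
    · intro t ε hε
      have hJ2 : volume (Set.Icc (t - ε / 2) (t + ε / 2)) ≠ ⊤ := by
        rw [Real.volume_Icc]; exact ENNReal.ofReal_ne_top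
      have h1 := hw2 (indicatorConstLp 2 (measurableSet_Icc (a := t - ε / 2) (b := t + ε / 2)) hJ2 (1 : ℂ))
      have h2 := hΨ2 (indicatorConstLp 2 (measurableSet_Icc (a := t - ε / 2) (b := t + ε / 2)) hJ2 (1 : ℂ))
      rw [L2.inner_indicatorConstLp_one] at h1 h2
      have h3 := (h2.sub (h1.const_mul (∫ y in {y : ℝ | ε < |y - t|}, g y * (z y - z t)⁻¹))).norm
      apply le_of_tendsto h3
      have hlim : Tendsto h atTop (𝓝 0) := by
        simp only [hh]
        exact tendsto_const_div_atTop_nhds_zero_nat L |>.comp (tendsto_add_atTop_nat 1) |>.congr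
          (fun n => by simp)
      have hev : ∀ᶠ n in (U : Filter ℕ), h n ≤ ε / 8 :=
        hUtop (hlim.eventually_le_const (by positivity))
      filter_upwards [hev] with n hn
      simp only [hX, hW]
      rw [int_toLp, int_toLp]
      exact finite_est hz (n + 1) (hpos n) hε hM hn hg hgi (by rw [hNh n]; exact hsupp)

end

section

open Finset MeasureTheory Filter Topology
open scoped ComplexConjugate ENNReal

lemma integrable_of_supp {g : ℝ → ℂ} {L : ℝ} (hg : MemLp g 2 volume)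
    (hsupp : ∀ y, y ∉ Set.Ioc 0 L → g y = 0) : Integrable g := by
  have h1 : g = (Set.Ioc 0 L).indicator g := by
    ext y
    by_cases hy : y ∈ Set.Ioc 0 L
    · rw [Set.indicator_of_mem hy]
    · rw [Set.indicator_of_notMem hy, hsupp y hy]
  rw [h1, integrable_indicator_iff measurableSet_Ioc]
  have : IsFiniteMeasure (volume.restrict (Set.Ioc 0 L)) := ⟨by
    rw [Measure.restrict_apply_univ, Real.volume_Ioc]; exact ENNReal.ofReal_lt_top⟩
  exact (hg.restrict (Set.Ioc 0 L)).integrable (by norm_num)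

lemma point_limit {z : ℝ → ℂ} {M t : ℝ} (hM : 0 < M) {g : ℝ → ℂ} (hgi : Integrable g)
    {w Ψ : ℝ → ℂ}
    (hest : ∀ ε : ℝ, 0 < ε →
            ‖(∫ x in Set.Icc (t - ε / 2) (t + ε / 2), Ψ x)
              - (∫ y in {y : ℝ | ε < |y - t|}, g y * (z y - z t)⁻¹)
                * ∫ x in Set.Icc (t - ε / 2) (t + ε / 2), w x‖
            ≤ Real.sqrt (10 * M ^ 2 * ε * ∫ y in Set.Icc (t - ε) (t + ε), ‖g y‖ ^ 2)
              + 32 * ε ^ 2 * ∫ y in {y : ℝ | ε < |y - t|}, ‖g y‖ / |y - t| ^ 2)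
    (hA : Tendsto (fun r : ℝ => (2 * r)⁻¹ • ∫ y in Set.Icc (t - r) (t + r), Ψ y) (𝓝[>] 0) (𝓝 (Ψ t)))
    (hB : Tendsto (fun r : ℝ => (2 * r)⁻¹ • ∫ y in Set.Icc (t - r) (t + r), w y) (𝓝[>] 0) (𝓝 (w t)))
    (hC : Tendsto (fun r : ℝ => (2 * r)⁻¹ • ∫ y in Set.Icc (t - r) (t + r), ‖g y‖ ^ 2)
      (𝓝[>] 0) (𝓝 (‖g t‖ ^ 2)))
    (hD : Tendsto (fun r : ℝ => (2 * r)⁻¹ • ∫ y in Set.Icc (t - r) (t + r), ‖g y‖)
      (𝓝[>] 0) (𝓝 (‖g t‖))) (ρ : ℝ) (hρ : 0 < ρ) :
    ∀ᶠ ε in 𝓝[>] (0 : ℝ), ‖w t‖ * ‖∫ y in {y : ℝ | ε < |y - t|}, g y * (z y - z t)⁻¹‖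
      ≤ 2 * (‖Ψ t‖ + (5 * M + 256) * ‖g t‖) + ρ := by
  by_cases hw : w t = 0
  · apply Eventually.of_forall
    intro ε
    rw [hw, norm_zero, zero_mul]
    positivity
  have hwpos : 0 < ‖w t‖ := norm_pos_iff.mpr hw
  set η : ℝ := ρ / (2 * (5 * M + 289)) with hη
  have hη0 : 0 < η := by positivity
  have hhalf : Tendsto (fun ε : ℝ => ε / 2) (𝓝[>] 0) (𝓝[>] 0) := by
    apply tendsto_nhdsWithin_of_tendsto_nhds_of_eventually_within
    · have : Tendsto (fun ε : ℝ => ε / 2) (𝓝 0) (𝓝 (0 / 2)) := tendsto_id.div_const 2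
      rw [zero_div] at this
      exact this.mono_left nhdsWithin_le_nhds
    · filter_upwards [self_mem_nhdsWithin] with ε hε
      rw [Set.mem_Ioi] at hε ⊢
      linarith
  have hA1 := ((hA.comp hhalf).norm).eventually_le_const (show ‖Ψ t‖ < ‖Ψ t‖ + η by linarith)
  have hB1 := ((hB.comp hhalf).norm).eventually_const_le (show ‖w t‖ / 2 < ‖w t‖ by linarith)
  have hC1 := hC.eventually_le_const (show ‖g t‖ ^ 2 < ‖g t‖ ^ 2 + η ^ 2 by
    have : 0 < η ^ 2 := by positivity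
    linarith)
  have hD1 := hD.eventually_le_const (show ‖g t‖ < ‖g t‖ + η by linarith)
  obtain ⟨r₀, hr₀, hr₀2⟩ : ∃ r₀ : ℝ, 0 < r₀ ∧ ∀ r, 0 < r → r ≤ r₀ →
      (2 * r)⁻¹ • ∫ y in Set.Icc (t - r) (t + r), ‖g y‖ ≤ ‖g t‖ + η := by
    rw [eventually_nhdsWithin_iff, Metric.eventually_nhds_iff] at hD1
    obtain ⟨e, he, he2⟩ := hD1
    refine ⟨e / 2, by positivity, ?_⟩
    intro r hr hr2
    apply he2 _ hr
    rw [Real.dist_eq, sub_zero, abs_of_pos hr]
    linarith
  have hI : 0 ≤ ∫ y, ‖g y‖ := integral_nonneg (fun y => norm_nonneg _)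
  have hsmall : ∀ᶠ ε in 𝓝[>] (0 : ℝ), ε ≤ r₀ ∧ 4 * ε / r₀ ^ 2 * (∫ y, ‖g y‖) ≤ η := by
    have h1 : Tendsto (fun ε : ℝ => 4 * ε / r₀ ^ 2 * (∫ y, ‖g y‖)) (𝓝[>] 0) (𝓝 0) := by
      have : Tendsto (fun ε : ℝ => 4 * ε / r₀ ^ 2 * (∫ y, ‖g y‖)) (𝓝 0)
          (𝓝 (4 * 0 / r₀ ^ 2 * (∫ y, ‖g y‖))) := by
        apply Tendsto.mul_const
        apply Tendsto.div_const
        exact tendsto_id.const_mul 4
      simp only [mul_zero, zero_div, zero_mul] at this
      exact this.mono_left nhdsWithin_le_nhds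
    have h2 : ∀ᶠ ε in 𝓝[>] (0 : ℝ), ε ≤ r₀ := by
      have : Tendsto (fun ε : ℝ => ε) (𝓝[>] 0) (𝓝 0) := tendsto_id.mono_left nhdsWithin_le_nhds
      exact this.eventually_le_const hr₀
    filter_upwards [h2, h1.eventually_le_const hη0] with ε a b
    exact ⟨a, b⟩
  filter_upwards [self_mem_nhdsWithin, hA1, hB1, hC1, hsmall] with ε hε0 hA2 hB2 hC2 hs
  rw [Set.mem_Ioi] at hε0
  simp only [Function.comp_apply] at hA2 hB2
  have e2 : 2 * (ε / 2) = ε := by ring
  rw [e2] at hA2 hB2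
  have h1 := hest ε hε0
  set G := ∫ y in {y : ℝ | ε < |y - t|}, g y * (z y - z t)⁻¹ with hG
  set IΨ := ∫ x in Set.Icc (t - ε / 2) (t + ε / 2), Ψ x
  set Iw := ∫ x in Set.Icc (t - ε / 2) (t + ε / 2), w x
  have hIΨ : ‖IΨ‖ ≤ ε * (‖Ψ t‖ + η) := by
    rw [norm_smul, norm_inv, Real.norm_of_nonneg hε0.le] at hA2
    rw [inv_mul_le_iff₀ hε0] at hA2
    exact hA2
  have hIw : ε * (‖w t‖ / 2) ≤ ‖Iw‖ := by
    rw [norm_smul, norm_inv, Real.norm_of_nonneg hε0.le] at hB2
    rw [le_inv_mul_iff₀ hε0] at hB2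
    exact hB2
  have hsq : Real.sqrt (10 * M ^ 2 * ε * ∫ y in Set.Icc (t - ε) (t + ε), ‖g y‖ ^ 2)
      ≤ ε * (5 * M * (‖g t‖ + η)) := by
    apply Real.sqrt_le_iff.mpr
    constructor
    · positivity
    · rw [smul_eq_mul, inv_mul_le_iff₀ (by positivity)] at hC2
      calc 10 * M ^ 2 * ε * ∫ y in Set.Icc (t - ε) (t + ε), ‖g y‖ ^ 2
          ≤ 10 * M ^ 2 * ε * (2 * ε * (‖g t‖ ^ 2 + η ^ 2)) := by gcongr
        _ ≤ (ε * (5 * M * (‖g t‖ + η))) ^ 2 := by
            have hgt : 0 ≤ ‖g t‖ := norm_nonneg _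
            have h5 : 0 ≤ M ^ 2 * ε ^ 2 := by positivity
            have h6 : 0 ≤ ‖g t‖ * η := by positivity
            nlinarith [mul_nonneg h5 h6, mul_nonneg h5 (sq_nonneg ‖g t‖), mul_nonneg h5 (sq_nonneg η)]
  have htail : ε * ∫ y in {y : ℝ | ε < |y - t|}, ‖g y‖ / |y - t| ^ 2
      ≤ 8 * (‖g t‖ + η) + η := by
    have h3 := tail_bound (fun y => ‖g y‖) hgi.norm (fun y => norm_nonneg _) t (2 * (‖g t‖ + η)) r₀ hr₀
      (by
        intro r hr hr2
        have h4 := hr₀2 r hr hr2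
        rw [smul_eq_mul, inv_mul_le_iff₀ (by positivity)] at h4
        calc _ ≤ _ := h4
          _ = _ := by ring) ε hε0 hs.1
    calc _ ≤ _ := h3
      _ ≤ 4 * (2 * (‖g t‖ + η)) + η := by
        have := hs.2
        linarith
      _ = _ := by ring
  have hmain : ‖G‖ * ‖Iw‖ ≤ ε * (‖Ψ t‖ + η) + (ε * (5 * M * (‖g t‖ + η))
      + 32 * ε * (8 * (‖g t‖ + η) + η)) := by
    have h4 : ‖G * Iw‖ ≤ ‖IΨ‖ + ‖IΨ - G * Iw‖ := by
      have : G * Iw = IΨ - (IΨ - G * Iw) := by ring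
      calc ‖G * Iw‖ = ‖IΨ - (IΨ - G * Iw)‖ := by rw [← this]
        _ ≤ _ := norm_sub_le _ _
    rw [norm_mul] at h4
    have h5 : 32 * ε ^ 2 * (∫ y in {y : ℝ | ε < |y - t|}, ‖g y‖ / |y - t| ^ 2)
        ≤ 32 * ε * (8 * (‖g t‖ + η) + η) := by
      calc 32 * ε ^ 2 * (∫ y in {y : ℝ | ε < |y - t|}, ‖g y‖ / |y - t| ^ 2)
          = 32 * ε * (ε * ∫ y in {y : ℝ | ε < |y - t|}, ‖g y‖ / |y - t| ^ 2) := by ring
        _ ≤ _ := by gcongr
    linarith
  have h6 : ‖G‖ * (ε * (‖w t‖ / 2)) ≤ ‖G‖ * ‖Iw‖ := by gcongr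
  have h7 : ε * (‖w t‖ * ‖G‖) ≤ ε * (2 * (‖Ψ t‖ + (5 * M + 256) * ‖g t‖) + ρ) := by
    have hηe : 2 * (5 * M + 289) * η = ρ := by
      rw [hη]; field_simp
    calc ε * (‖w t‖ * ‖G‖) = 2 * (‖G‖ * (ε * (‖w t‖ / 2))) := by ring
      _ ≤ 2 * (ε * (‖Ψ t‖ + η) + (ε * (5 * M * (‖g t‖ + η))
          + 32 * ε * (8 * (‖g t‖ + η) + η))) := by linarith
      _ = ε * (2 * (‖Ψ t‖ + (5 * M + 256) * ‖g t‖) + 2 * (5 * M + 289) * η) := by ring
      _ = _ := by rw [hηe]
  exact le_of_mul_le_mul_left h7 hε0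

theorem core_ae {z : ℝ → ℂ} (hz : NIz z) {L M : ℝ} (hL : 0 < L) (hM : 0 < M) :
    ∃ w : Lp ℂ 2 (volume : Measure ℝ), ‖w‖ ^ 2 ≤ L ∧
      L * (1 - 5000 / M ^ 2) ≤ ‖∫ x in Set.Ioc 0 L, w x‖ ∧
      ∀ g : ℝ → ℂ, MemLp g 2 volume → (∀ y, y ∉ Set.Ioc 0 L → g y = 0) →
        ∃ Ψ : Lp ℂ 2 (volume : Measure ℝ), ‖Ψ‖ ^ 2 ≤ 10 * M ^ 2 * ∫ x, ‖g x‖ ^ 2 ∧
          ∀ᵐ t, ∀ ρ : ℝ, 0 < ρ → ∀ᶠ ε in 𝓝[>] (0 : ℝ),
            ‖w t‖ * ‖∫ y in {y : ℝ | ε < |y - t|}, g y * (z y - z t)⁻¹‖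
              ≤ 2 * (‖Ψ t‖ + (5 * M + 256) * ‖g t‖) + ρ := by
  obtain ⟨w, hw1, hw2, hw3⟩ := core_weak hz hL hM
  refine ⟨w, hw1, hw2, ?_⟩
  intro g hg hsupp
  obtain ⟨Ψ, hΨ1, hΨ2⟩ := hw3 g hg hsupp
  refine ⟨Ψ, hΨ1, ?_⟩
  have hgi := integrable_of_supp hg hsupp
  have lA : LocallyIntegrable (Ψ : ℝ → ℂ) volume := (Lp.memLp Ψ).locallyIntegrable (by norm_num)
  have lB : LocallyIntegrable (w : ℝ → ℂ) volume := (Lp.memLp w).locallyIntegrable (by norm_num)
  have lC : LocallyIntegrable (fun y => ‖g y‖ ^ 2) volume :=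
    (hg.integrable_norm_pow (by norm_num)).locallyIntegrable
  have lD : LocallyIntegrable (fun y => ‖g y‖) volume := hgi.norm.locallyIntegrable
  filter_upwards [leb_diff lA, leb_diff lB, leb_diff lC, leb_diff lD] with t hA hB hC hD
  intro ρ hρ
  exact point_limit hM hgi (fun ε hε => hΨ2 t ε hε) hA hB hC hD ρ hρ

end

section

open Finset MeasureTheory Filter Topology
open scoped ComplexConjugate ENNReal

lemma lint_inv_sq (c : ℝ) (hc : 0 < c) :
    ∫⁻ x in Set.Ioi c, ENNReal.ofReal (c / x ^ 2) = 1 := by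
  have h1 : IntegrableOn (fun x : ℝ => c * x ^ (-2 : ℝ)) (Set.Ioi c) :=
    (integrableOn_Ioi_rpow_of_lt (by norm_num) hc).const_mul c
  have h2 : ∫⁻ x in Set.Ioi c, ENNReal.ofReal (c / x ^ 2)
      = ∫⁻ x in Set.Ioi c, ENNReal.ofReal (c * x ^ (-2 : ℝ)) := by
    apply setLIntegral_congr_fun measurableSet_Ioi
    intro x hx
    rw [Set.mem_Ioi] at hx
    have hx0 : 0 < x := hc.trans hx
    have : x ^ (-2 : ℝ) = (x ^ 2)⁻¹ := by
      rw [Real.rpow_neg hx0.le]
      congr 1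
      exact_mod_cast Real.rpow_natCast x 2
    simp only
    rw [this, div_eq_mul_inv]
  rw [h2, ← ofReal_integral_eq_lintegral_ofReal h1]
  · rw [integral_const_mul, integral_Ioi_rpow_of_lt (by norm_num) hc]
    have : -c ^ ((-2 : ℝ) + 1) / ((-2 : ℝ) + 1) = c⁻¹ := by
      have e : (-2 : ℝ) + 1 = -1 := by norm_num
      rw [e, Real.rpow_neg_one]
      ring
    rw [this, mul_inv_cancel₀ hc.ne', ENNReal.ofReal_one]
  · rw [EventuallyLE, ae_restrict_iff' measurableSet_Ioi]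
    apply Eventually.of_forall
    intro x hx
    rw [Set.mem_Ioi] at hx
    have hx0 : 0 < x := hc.trans hx
    simp only [Pi.zero_apply]
    positivity

lemma lint_outside (d : ℝ) (hd : 0 < d) :
    ∫⁻ x : ℝ, ({x : ℝ | d ≤ |x|}).indicator (fun x => ENNReal.ofReal (d / |x| ^ 2)) x ≤ 2 := by
  have hle : ∀ x : ℝ, ({x : ℝ | d ≤ |x|}).indicator (fun x => ENNReal.ofReal (d / |x| ^ 2)) x
      ≤ (Set.Ici d).indicator (fun x => ENNReal.ofReal (d / x ^ 2)) x
        + (Set.Ici d).indicator (fun x => ENNReal.ofReal (d / x ^ 2)) (-x) := by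
    intro x
    by_cases hx : x ∈ {x : ℝ | d ≤ |x|}
    · rw [Set.indicator_of_mem hx]
      have hx' : d ≤ |x| := hx
      rcases le_or_gt 0 x with h0 | h0
      · rw [abs_of_nonneg h0] at hx' ⊢
        have : x ∈ Set.Ici d := hx'
        rw [Set.indicator_of_mem this]
        exact le_self_add
      · rw [abs_of_neg h0] at hx' ⊢
        have : -x ∈ Set.Ici d := hx'
        rw [Set.indicator_of_mem this]
        exact le_add_self
    · rw [Set.indicator_of_notMem hx]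
      exact zero_le
  have hm : Measurable (fun x : ℝ => (Set.Ici d).indicator (fun x => ENNReal.ofReal (d / x ^ 2)) x) := by
    apply Measurable.indicator _ measurableSet_Ici
    exact (measurable_const.div (measurable_id.pow_const 2)).ennreal_ofReal
  have h1 : ∫⁻ x : ℝ, (Set.Ici d).indicator (fun x => ENNReal.ofReal (d / x ^ 2)) x = 1 := by
    rw [lintegral_indicator measurableSet_Ici, setLIntegral_congr Ioi_ae_eq_Ici.symm, lint_inv_sq d hd]
  have h2 : ∫⁻ x : ℝ, (Set.Ici d).indicator (fun x => ENNReal.ofReal (d / x ^ 2)) (-x) = 1 := by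
    rw [lintegral_neg_eq_self (fun x => (Set.Ici d).indicator (fun x => ENNReal.ofReal (d / x ^ 2)) x)]
    exact h1
  calc ∫⁻ x : ℝ, ({x : ℝ | d ≤ |x|}).indicator (fun x => ENNReal.ofReal (d / |x| ^ 2)) x
      ≤ ∫⁻ x : ℝ, ((Set.Ici d).indicator (fun x => ENNReal.ofReal (d / x ^ 2)) x
        + (Set.Ici d).indicator (fun x => ENNReal.ofReal (d / x ^ 2)) (-x)) := lintegral_mono hle
    _ = 2 := by
      rw [lintegral_add_left hm, h1, h2]
      norm_num

/-- the Marcinkiewicz kernel -/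
noncomputable def kap (K : Set ℝ) (s t : ℝ) : ℝ≥0∞ := ENNReal.ofReal (Metric.infDist s K / |s - t| ^ 2)

lemma kap_meas (K : Set ℝ) : Measurable (fun p : ℝ × ℝ => kap K p.1 p.2) := by
  unfold kap
  apply Measurable.ennreal_ofReal
  apply Measurable.div
  · exact (Metric.continuous_infDist_pt K).measurable.comp measurable_fst
  · exact (((measurable_fst.sub measurable_snd).abs).pow_const 2)

lemma kap_inner (K : Set ℝ) (hK : MeasurableSet K) (s : ℝ) :
    ∫⁻ t in K, kap K s t ≤ 2 := by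
  by_cases hd : Metric.infDist s K = 0
  · unfold kap
    rw [hd]
    simp
  have hd0 : 0 < Metric.infDist s K := lt_of_le_of_ne Metric.infDist_nonneg (Ne.symm hd)
  set d := Metric.infDist s K with hdd
  rw [← lintegral_indicator hK]
  calc ∫⁻ t, K.indicator (fun t => kap K s t) t
      ≤ ∫⁻ t, ({x : ℝ | d ≤ |x|}).indicator (fun x => ENNReal.ofReal (d / |x| ^ 2)) (s - t) := by
        apply lintegral_mono
        intro t
        by_cases ht : t ∈ K
        · have h1 : d ≤ |s - t| := by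
            rw [← Real.dist_eq]
            exact Metric.infDist_le_dist_of_mem ht
          have h2 : s - t ∈ {x : ℝ | d ≤ |x|} := h1
          simp only
          rw [Set.indicator_of_mem ht, Set.indicator_of_mem h2]
          exact le_rfl
        · simp only
          rw [Set.indicator_of_notMem ht]
          exact zero_le
    _ = ∫⁻ t, ({x : ℝ | d ≤ |x|}).indicator (fun x => ENNReal.ofReal (d / |x| ^ 2)) t := by
        rw [lintegral_sub_left_eq_self (fun t => ({x : ℝ | d ≤ |x|}).indicator (fun x => ENNReal.ofReal (d / |x| ^ 2)) t) s]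
    _ ≤ 2 := lint_outside d hd0

lemma kap_meas1 (K : Set ℝ) (t : ℝ) : Measurable (fun s => kap K s t) := by
  have h := (kap_meas K).comp (measurable_prodMk_right : Measurable fun s : ℝ => (s, t))
  exact h

lemma kap_meas2 (K : Set ℝ) (s : ℝ) : Measurable (fun t => kap K s t) := by
  have h := (kap_meas K).comp (measurable_prodMk_left : Measurable fun t : ℝ => (s, t))
  exact h

lemma kap_meas3 (K : Set ℝ) : Measurable (fun p : ℝ × ℝ => kap K p.2 p.1) := by
  have h := (kap_meas K).comp (measurable_swap : Measurable (Prod.swap : ℝ × ℝ → ℝ × ℝ))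
  exact h

/-- Marcinkiewicz integral -/
noncomputable def mI (L : ℝ) (K : Set ℝ) (t : ℝ) : ℝ≥0∞ := ∫⁻ s in Set.Icc 0 L, kap K s t

lemma mI_meas (L : ℝ) (K : Set ℝ) : Measurable (mI L K) := by
  unfold mI
  exact Measurable.lintegral_prod_left' (kap_meas K)

lemma mI_fin (L : ℝ) (K : Set ℝ) (hK : MeasurableSet K) :
    ∀ᵐ t ∂(volume.restrict K), mI L K t < ⊤ := by
  apply ae_lt_top (mI_meas L K)
  have h1 : ∫⁻ t in K, mI L K t = ∫⁻ s in Set.Icc 0 L, ∫⁻ t in K, kap K s t := by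
    unfold mI
    rw [lintegral_lintegral_swap]
    exact (kap_meas3 K).aemeasurable
  rw [h1]
  apply ne_top_of_le_ne_top (b := ∫⁻ s in Set.Icc 0 L, (2 : ℝ≥0∞))
  · rw [lintegral_const, Measure.restrict_apply_univ, Real.volume_Icc]
    exact ENNReal.mul_ne_top (by norm_num) ENNReal.ofReal_ne_top
  · exact lintegral_mono (fun s => kap_inner K hK s)

/-- weighted L2 bound for the Marcinkiewicz type operator -/
lemma marc_bound (L : ℝ) (K : Set ℝ) (hK : MeasurableSet K) (a : ℝ → ℝ≥0∞)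
    (ha : AEMeasurable a (volume.restrict (Set.Icc 0 L))) :
    ∫⁻ t in K, (∫⁻ s in Set.Icc 0 L, a s * kap K s t) ^ 2 * (1 + mI L K t)⁻¹
      ≤ 2 * ∫⁻ s in Set.Icc 0 L, a s ^ 2 := by
  have hpt : ∀ t, (∫⁻ s in Set.Icc 0 L, a s * kap K s t) ^ 2 * (1 + mI L K t)⁻¹
      ≤ ∫⁻ s in Set.Icc 0 L, a s ^ 2 * kap K s t := by
    intro t
    have hk : Measurable (fun s => kap K s t) := kap_meas1 K t
    have h1 : (∫⁻ s in Set.Icc 0 L, a s * kap K s t) ^ 2
        ≤ (∫⁻ s in Set.Icc 0 L, a s ^ 2 * kap K s t) * mI L K t := by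
      have hk2 : Measurable (fun s => (kap K s t) ^ (1 / 2 : ℝ)) := hk.pow_const (1 / 2 : ℝ)
      have hk3 : AEMeasurable (fun s => a s * (kap K s t) ^ (1 / 2 : ℝ)) (volume.restrict (Set.Icc 0 L)) :=
        ha.mul hk2.aemeasurable
      have h2 := ENNReal.lintegral_mul_le_Lp_mul_Lq (volume.restrict (Set.Icc 0 L))
        (Real.HolderConjugate.two_two) hk3 hk2.aemeasurable
      have e1 : ∀ s, ((fun s => a s * (kap K s t) ^ (1 / 2 : ℝ)) * (fun s => (kap K s t) ^ (1 / 2 : ℝ))) s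
          = a s * kap K s t := by
        intro s
        simp only [Pi.mul_apply]
        rw [mul_assoc, ← ENNReal.rpow_add_of_nonneg _ _ (by norm_num) (by norm_num)]
        norm_num
      have e2 : ∀ s, (a s * (kap K s t) ^ (1 / 2 : ℝ)) ^ (2 : ℝ) = a s ^ 2 * kap K s t := by
        intro s
        rw [ENNReal.mul_rpow_of_nonneg _ _ (by norm_num), ← ENNReal.rpow_mul]
        norm_num
      have e3 : ∀ s, ((kap K s t) ^ (1 / 2 : ℝ)) ^ (2 : ℝ) = kap K s t := by
        intro s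
        rw [← ENNReal.rpow_mul]
        norm_num
      simp only [e1, e2, e3] at h2
      calc (∫⁻ s in Set.Icc 0 L, a s * kap K s t) ^ 2
          ≤ ((∫⁻ s in Set.Icc 0 L, a s ^ 2 * kap K s t) ^ (1 / 2 : ℝ)
            * (∫⁻ s in Set.Icc 0 L, kap K s t) ^ (1 / 2 : ℝ)) ^ 2 := by gcongr
        _ = (∫⁻ s in Set.Icc 0 L, a s ^ 2 * kap K s t) * mI L K t := by
          unfold mI
          rw [mul_pow, ← ENNReal.rpow_natCast, ← ENNReal.rpow_natCast, ← ENNReal.rpow_mul,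
            ← ENNReal.rpow_mul]
          norm_num
    calc (∫⁻ s in Set.Icc 0 L, a s * kap K s t) ^ 2 * (1 + mI L K t)⁻¹
        ≤ ((∫⁻ s in Set.Icc 0 L, a s ^ 2 * kap K s t) * mI L K t) * (1 + mI L K t)⁻¹ := by gcongr
      _ = (∫⁻ s in Set.Icc 0 L, a s ^ 2 * kap K s t) * (mI L K t * (1 + mI L K t)⁻¹) := by
          rw [mul_assoc]
      _ ≤ (∫⁻ s in Set.Icc 0 L, a s ^ 2 * kap K s t) * 1 := by
          gcongr
          rw [← div_eq_mul_inv]
          apply ENNReal.div_le_of_le_mul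
          rw [one_mul]
          exact le_add_self
      _ = _ := by rw [mul_one]
  calc ∫⁻ t in K, (∫⁻ s in Set.Icc 0 L, a s * kap K s t) ^ 2 * (1 + mI L K t)⁻¹
      ≤ ∫⁻ t in K, ∫⁻ s in Set.Icc 0 L, a s ^ 2 * kap K s t := lintegral_mono (fun t => hpt t)
    _ = ∫⁻ s in Set.Icc 0 L, ∫⁻ t in K, a s ^ 2 * kap K s t := by
        rw [lintegral_lintegral_swap]
        have h1 : AEMeasurable (fun p : ℝ × ℝ => a p.2 ^ 2) ((volume.restrict K).prod (volume.restrict (Set.Icc 0 L))) :=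
          (ha.pow_const 2).comp_quasiMeasurePreserving Measure.quasiMeasurePreserving_snd
        exact h1.mul (kap_meas3 K).aemeasurable
    _ ≤ ∫⁻ s in Set.Icc 0 L, a s ^ 2 * 2 := by
        apply lintegral_mono
        intro s
        have hk : Measurable (fun t => kap K s t) := kap_meas2 K s
        simp only
        rw [lintegral_const_mul _ hk]
        have := kap_inner K hK s
        gcongr
    _ = _ := by
        rw [lintegral_mul_const'' _ (ha.pow_const 2), mul_comm]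

end

section

open Finset MeasureTheory Filter Topology
open scoped ComplexConjugate ENNReal NNReal

lemma deriv_le {γ : ℝ → ℂ} (hγ : LipschitzWith 1 γ) (s : ℝ) : ‖deriv γ s‖ ≤ 1 := by
  have := norm_deriv_le_of_lipschitz hγ (x₀ := s)
  simpa using this

lemma dist_curve {γ : ℝ → ℂ} (hγ : LipschitzWith 1 γ) (s t : ℝ) : ‖γ s - γ t‖ ≤ |s - t| := by
  have := hγ.dist_le_mul s t
  rw [dist_eq_norm, Real.dist_eq] at this
  simpa using this

/-- the density transported to the model curve -/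
noncomputable def gg (L : ℝ) (γ : ℝ → ℂ) (u : ℂ) (f : ℝ → ℂ) : ℝ → ℂ :=
  (Set.Ioc 0 L).indicator (fun s => f s * deriv γ s / u)

lemma gg_supp (L : ℝ) (γ : ℝ → ℂ) (u : ℂ) (f : ℝ → ℂ) (y : ℝ) (hy : y ∉ Set.Ioc 0 L) :
    gg L γ u f y = 0 := by
  unfold gg
  rw [Set.indicator_of_notMem hy]

lemma gg_memLp {L : ℝ} {γ : ℝ → ℂ} (hγ : LipschitzWith 1 γ) {u : ℂ} (hu : ‖u‖ = 1) {f : ℝ → ℂ}
    (hf : MemLp f 2 (volume.restrict (Set.Icc 0 L))) : MemLp (gg L γ u f) 2 volume := by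
  unfold gg
  rw [memLp_indicator_iff_restrict measurableSet_Ioc]
  have hf' : MemLp f 2 (volume.restrict (Set.Ioc 0 L)) :=
    hf.mono_measure (Measure.restrict_mono Set.Ioc_subset_Icc_self le_rfl)
  apply hf'.mono
  · have h1 : AEStronglyMeasurable (fun s => f s * deriv γ s * u⁻¹) (volume.restrict (Set.Ioc 0 L)) :=
      (hf'.aestronglyMeasurable.mul (measurable_deriv γ).aestronglyMeasurable).mul_const u⁻¹
    simpa only [div_eq_mul_inv] using h1
  · apply Eventually.of_forall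
    intro s
    rw [norm_div, hu, div_one, norm_mul]
    have := deriv_le hγ s
    have h0 := norm_nonneg (f s)
    nlinarith

lemma gg_lint {L : ℝ} {γ : ℝ → ℂ} (hγ : LipschitzWith 1 γ) {u : ℂ} (hu : ‖u‖ = 1) (f : ℝ → ℂ) :
    ∫⁻ s, ‖gg L γ u f s‖ₑ ^ 2 ≤ ∫⁻ s in Set.Icc 0 L, ‖f s‖ₑ ^ 2 := by
  rw [← lintegral_indicator measurableSet_Icc]
  apply lintegral_mono
  intro s
  unfold gg
  by_cases hs : s ∈ Set.Ioc 0 L
  · simp only
    rw [Set.indicator_of_mem hs, Set.indicator_of_mem (Set.Ioc_subset_Icc_self hs)]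
    have : ‖f s * deriv γ s / u‖ₑ ≤ ‖f s‖ₑ := by
      rw [enorm_le_iff_norm_le, norm_div, hu, div_one, norm_mul]
      have := deriv_le hγ s
      have h0 := norm_nonneg (f s)
      nlinarith
    gcongr
  · simp only
    rw [Set.indicator_of_notMem hs]
    simp

lemma curve_diff {γ z : ℝ → ℂ} (hγ : LipschitzWith 1 γ) (hz : NIz z) {u : ℂ} (hu : ‖u‖ = 1)
    {K : Set ℝ} (hzK : ∀ t ∈ K, z t = γ t / u) {L m : ℝ} (hm : 0 < m)
    (hK2 : ∀ t ∈ K, ∀ s ∈ Set.Icc 0 L, (1 / m) * |s - t| ≤ ‖γ s - γ t‖)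
    {t s : ℝ} (ht : t ∈ K) (hs : s ∈ Set.Icc 0 L) (hst : 0 < |s - t|) :
    ‖((γ s - γ t) / u)⁻¹ - (z s - z t)⁻¹‖ ≤ 5 * m * (Metric.infDist s K / |s - t| ^ 2) := by
  have h1 : (2 / 5) * ‖z s - γ s / u‖ ≤ Metric.infDist s K := by
    rw [Metric.le_infDist ⟨t, ht⟩]
    intro k hk
    have e : z s - γ s / u = (z s - z k) - (γ s - γ k) / u := by
      rw [hzK k hk]; ring
    rw [e, Real.dist_eq]
    have a1 := NIz_upper hz s k
    have a2 := dist_curve hγ s k
    have a3 := norm_sub_le (z s - z k) ((γ s - γ k) / u)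
    rw [norm_div, hu, div_one] at a3
    linarith
  have ha := hK2 t ht s hs
  have hb := NIz_lower hz s t
  have hane : (γ s - γ t) / u ≠ 0 := by
    intro h0
    have : ‖(γ s - γ t) / u‖ = 0 := by rw [h0, norm_zero]
    rw [norm_div, hu, div_one] at this
    rw [this] at ha
    have : 0 < (1 / m) * |s - t| := by positivity
    linarith
  have hbne : z s - z t ≠ 0 := by
    intro h0
    rw [h0, norm_zero] at hb
    linarith
  rw [inv_sub_inv hane hbne, norm_div, norm_mul, norm_div, hu, div_one]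
  have e : z s - z t - (γ s - γ t) / u = z s - γ s / u := by
    rw [hzK t ht]; ring
  rw [e]
  have h2 : ‖z s - γ s / u‖ ≤ (5 / 2) * Metric.infDist s K := by linarith
  have hd : 0 ≤ Metric.infDist s K := Metric.infDist_nonneg
  calc ‖z s - γ s / u‖ / (‖γ s - γ t‖ * ‖z s - z t‖)
      ≤ ((5 / 2) * Metric.infDist s K) / (((1 / m) * |s - t|) * ((1 / 2) * |s - t|)) := by gcongr
    _ = 5 * m * (Metric.infDist s K / |s - t| ^ 2) := by
      field_simp

lemma compare {γ z : ℝ → ℂ} (hγ : LipschitzWith 1 γ) (hz : NIz z) {u : ℂ} (hu : ‖u‖ = 1)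
    {K : Set ℝ} (hzK : ∀ t ∈ K, z t = γ t / u) {L m : ℝ} (hm : 0 < m)
    (hK2 : ∀ t ∈ K, ∀ s ∈ Set.Icc 0 L, (1 / m) * |s - t| ≤ ‖γ s - γ t‖)
    {f : ℝ → ℂ} (hf : MemLp f 2 (volume.restrict (Set.Icc 0 L)))
    {t ε : ℝ} (ht : t ∈ K) (hε : 0 < ε) :
    ‖∫ s in {s : ℝ | s ∈ Set.Icc (0 : ℝ) L ∧ ε < ‖γ s - γ t‖}, f s * deriv γ s / (γ s - γ t)‖ₑ
      ≤ ‖∫ y in {y : ℝ | ε < |y - t|}, gg L γ u f y * (z y - z t)⁻¹‖ₑ
        + ENNReal.ofReal ((2 / ε) * ∫ y in Set.Icc (t - m * ε) (t + m * ε), ‖gg L γ u f y‖)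
        + ENNReal.ofReal (5 * m) * ∫⁻ s in Set.Icc 0 L, ‖gg L γ u f s‖ₑ * kap K s t := by
  set g := gg L γ u f with hgdef
  have hg : MemLp g 2 volume := gg_memLp hγ hu hf
  have hgi : Integrable g := integrable_of_supp hg (gg_supp L γ u f)
  have hu0 : u ≠ 0 := by intro h0; rw [h0, norm_zero] at hu; norm_num at hu
  have hγm : Measurable γ := hγ.continuous.measurable
  set A : Set ℝ := {s : ℝ | s ∈ Set.Icc (0 : ℝ) L ∧ ε < ‖γ s - γ t‖} with hA
  set B : Set ℝ := {y : ℝ | ε < |y - t|} with hB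
  have hAm : MeasurableSet A := by
    apply MeasurableSet.inter measurableSet_Icc
    exact measurableSet_lt measurable_const (hγm.sub_const _).norm
  have hBm : MeasurableSet B := measurableSet_lt measurable_const (measurable_id.sub_const t).abs
  have hAB : A ⊆ B := by
    intro s hs
    have h1 : ε < ‖γ s - γ t‖ := hs.2
    have h2 := dist_curve hγ s t
    show ε < |s - t|
    linarith
  -- step one
  have e1 : ∫ s in A, f s * deriv γ s / (γ s - γ t) = ∫ s in A, g s * ((γ s - γ t) / u)⁻¹ := by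
    apply setIntegral_congr_ae hAm
    have h0 : ∀ᵐ s : ℝ, s ≠ 0 := by simp [ae_iff, measure_singleton]
    filter_upwards [h0] with s hs0 hsA
    have hs1 : s ∈ Set.Ioc 0 L := ⟨lt_of_le_of_ne hsA.1.1 (Ne.symm hs0), hsA.1.2⟩
    have hne : γ s - γ t ≠ 0 := by
      intro h1
      have h2 : ε < ‖γ s - γ t‖ := hsA.2
      rw [h1, norm_zero] at h2
      linarith
    simp only [hgdef, gg]
    rw [Set.indicator_of_mem hs1]
    field_simp
  have hfar : IntegrableOn (fun s => g s * (z s - z t)⁻¹) B := by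
    have h1 := far_int hz hgi t ε hε
    have h2 : (fun y => B.indicator g y * (z y - z t)⁻¹) = B.indicator (fun y => g y * (z y - z t)⁻¹) := by
      ext y
      by_cases hy : y ∈ B
      · rw [Set.indicator_of_mem hy, Set.indicator_of_mem hy]
      · rw [Set.indicator_of_notMem hy, Set.indicator_of_notMem hy, zero_mul]
    rw [h2] at h1
    exact (integrable_indicator_iff hBm).mp h1
  have hfar2 : IntegrableOn (fun s => g s * ((γ s - γ t) / u)⁻¹) A := by
    refine Integrable.mul_bdd (c := 1 / ε) hgi.integrableOn ?_ ?_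
    · exact (((hγm.sub_const _).div_const u).inv).aestronglyMeasurable
    · rw [ae_restrict_iff' hAm]
      apply Eventually.of_forall
      intro s hs
      have h2 : ε < ‖γ s - γ t‖ := hs.2
      rw [norm_inv, norm_div, hu, div_one, ← one_div]
      gcongr
  have e2 : ∫ s in A, g s * ((γ s - γ t) / u)⁻¹
      = (∫ s in B, g s * (z s - z t)⁻¹) - (∫ s in B \ A, g s * (z s - z t)⁻¹)
        + ∫ s in A, g s * (((γ s - γ t) / u)⁻¹ - (z s - z t)⁻¹) := by
    have h1 : ∫ s in B \ A, g s * (z s - z t)⁻¹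
        = (∫ s in B, g s * (z s - z t)⁻¹) - ∫ s in A, g s * (z s - z t)⁻¹ :=
      setIntegral_sdiff hAm hfar hAB
    have h2 : ∫ s in A, g s * (((γ s - γ t) / u)⁻¹ - (z s - z t)⁻¹)
        = (∫ s in A, g s * ((γ s - γ t) / u)⁻¹) - ∫ s in A, g s * (z s - z t)⁻¹ := by
      rw [← integral_sub hfar2 (hfar.mono_set hAB)]
      congr 1
      ext s
      ring
    rw [h1, h2]
    ring
  -- near part
  have h3 : ‖∫ s in B \ A, g s * (z s - z t)⁻¹‖ₑ
      ≤ ENNReal.ofReal ((2 / ε) * ∫ y in Set.Icc (t - m * ε) (t + m * ε), ‖g y‖) := by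
    rw [← ofReal_norm]
    apply ENNReal.ofReal_le_ofReal
    calc ‖∫ s in B \ A, g s * (z s - z t)⁻¹‖
        ≤ ∫ s in B \ A, (Set.Icc (t - m * ε) (t + m * ε)).indicator (fun s => (2 / ε) * ‖g s‖) s := by
          apply norm_integral_le_of_norm_le
          · exact ((hgi.norm.const_mul _).indicator measurableSet_Icc).integrableOn
          · rw [ae_restrict_iff' (hBm.diff hAm)]
            apply Eventually.of_forall
            intro s hs
            have hsB : ε < |s - t| := hs.1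
            by_cases hs1 : s ∈ Set.Ioc 0 L
            · have hsA : ¬ (ε < ‖γ s - γ t‖) := by
                intro h4
                exact hs.2 ⟨Set.Ioc_subset_Icc_self hs1, h4⟩
              push Not at hsA
              have h4 := hK2 t ht s (Set.Ioc_subset_Icc_self hs1)
              have h5 : |s - t| ≤ m * ε := by
                have : (1 / m) * |s - t| ≤ ε := h4.trans hsA
                rw [one_div, inv_mul_le_iff₀ hm] at this
                exact this
              have h6 : s ∈ Set.Icc (t - m * ε) (t + m * ε) := by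
                rw [abs_le] at h5
                exact ⟨by linarith [h5.1], by linarith [h5.2]⟩
              rw [Set.indicator_of_mem h6, norm_mul, norm_inv]
              have h7 := NIz_lower hz s t
              have h8 : ‖z s - z t‖⁻¹ ≤ 2 / ε := by
                rw [← one_div]
                calc 1 / ‖z s - z t‖ ≤ 1 / ((1 / 2) * ε) := by
                      apply one_div_le_one_div_of_le (by positivity)
                      nlinarith
                  _ = 2 / ε := by field_simp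
              calc ‖g s‖ * ‖z s - z t‖⁻¹ ≤ ‖g s‖ * (2 / ε) := by gcongr
                _ = _ := by ring
            · have : g s = 0 := gg_supp L γ u f s hs1
              rw [this, zero_mul, norm_zero]
              apply Set.indicator_nonneg
              intro _ _
              positivity
      _ ≤ ∫ s, (Set.Icc (t - m * ε) (t + m * ε)).indicator (fun s => (2 / ε) * ‖g s‖) s := by
          apply setIntegral_le_integral ((hgi.norm.const_mul _).indicator measurableSet_Icc)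
          apply Eventually.of_forall
          intro s
          simp only [Pi.zero_apply]
          apply Set.indicator_nonneg
          intro _ _
          positivity
      _ = (2 / ε) * ∫ y in Set.Icc (t - m * ε) (t + m * ε), ‖g y‖ := by
          rw [integral_indicator measurableSet_Icc, integral_const_mul]
  -- difference part
  have h4 : ‖∫ s in A, g s * (((γ s - γ t) / u)⁻¹ - (z s - z t)⁻¹)‖ₑ
      ≤ ENNReal.ofReal (5 * m) * ∫⁻ s in Set.Icc 0 L, ‖g s‖ₑ * kap K s t := by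
    calc ‖∫ s in A, g s * (((γ s - γ t) / u)⁻¹ - (z s - z t)⁻¹)‖ₑ
        ≤ ∫⁻ s in A, ‖g s * (((γ s - γ t) / u)⁻¹ - (z s - z t)⁻¹)‖ₑ := enorm_integral_le_lintegral_enorm _
      _ ≤ ∫⁻ s in A, ENNReal.ofReal (5 * m) * (‖g s‖ₑ * kap K s t) := by
          apply setLIntegral_mono' hAm
          intro s hs
          have hst : 0 < |s - t| := by
            have : ε < |s - t| := hAB hs
            linarith
          have h5 := curve_diff hγ hz hu hzK hm hK2 ht hs.1 hst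
          rw [enorm_mul]
          have h6 : ‖((γ s - γ t) / u)⁻¹ - (z s - z t)⁻¹‖ₑ ≤ ENNReal.ofReal (5 * m) * kap K s t := by
            unfold kap
            rw [← ENNReal.ofReal_mul (by positivity), ← ofReal_norm]
            exact ENNReal.ofReal_le_ofReal h5
          calc ‖g s‖ₑ * ‖((γ s - γ t) / u)⁻¹ - (z s - z t)⁻¹‖ₑ
              ≤ ‖g s‖ₑ * (ENNReal.ofReal (5 * m) * kap K s t) := by gcongr
            _ = _ := by ring
      _ ≤ ∫⁻ s in Set.Icc 0 L, ENNReal.ofReal (5 * m) * (‖g s‖ₑ * kap K s t) := by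
          apply lintegral_mono_set
          intro s hs
          exact hs.1
      _ = _ := by
          rw [lintegral_const_mul' _ _ ENNReal.ofReal_ne_top]
  rw [e1, e2]
  calc ‖(∫ s in B, g s * (z s - z t)⁻¹) - (∫ s in B \ A, g s * (z s - z t)⁻¹)
        + ∫ s in A, g s * (((γ s - γ t) / u)⁻¹ - (z s - z t)⁻¹)‖ₑ
      ≤ ‖(∫ s in B, g s * (z s - z t)⁻¹) - (∫ s in B \ A, g s * (z s - z t)⁻¹)‖ₑ
        + ‖∫ s in A, g s * (((γ s - γ t) / u)⁻¹ - (z s - z t)⁻¹)‖ₑ := enorm_add_le _ _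
    _ ≤ (‖∫ s in B, g s * (z s - z t)⁻¹‖ₑ + ‖∫ s in B \ A, g s * (z s - z t)⁻¹‖ₑ)
        + ‖∫ s in A, g s * (((γ s - γ t) / u)⁻¹ - (z s - z t)⁻¹)‖ₑ := by
        gcongr
        exact enorm_sub_le
    _ ≤ _ := by gcongr

end

section

open Finset MeasureTheory Filter Topology
open scoped ComplexConjugate ENNReal NNReal

/-- the limsup of the truncated integrals, in the form of the statement -/
noncomputable def Ls (L : ℝ) (γ : ℝ → ℂ) (f : ℝ → ℂ) (t : ℝ) : ℝ≥0∞ :=
  Filter.limsup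
    (fun ε : ℝ =>
      ‖(2 * (Real.pi : ℂ) * Complex.I)⁻¹ *
        ∫ s in {s : ℝ | s ∈ Set.Icc (0 : ℝ) L ∧ ε < ‖γ s - γ t‖},
          f s * deriv γ s / (γ s - γ t)‖ₑ)
    (nhdsWithin (0 : ℝ) (Set.Ioi 0))

lemma two_pi_le : ‖(2 * (Real.pi : ℂ) * Complex.I)⁻¹‖ₑ ≤ 1 := by
  rw [← ofReal_norm, ← ENNReal.ofReal_one]
  apply ENNReal.ofReal_le_ofReal
  rw [norm_inv, norm_mul, norm_mul, Complex.norm_I, mul_one, Complex.norm_real,
    Real.norm_of_nonneg Real.pi_pos.le]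
  have h := Real.pi_gt_three
  simp only [Complex.norm_ofNat]
  rw [inv_le_one₀ (by positivity)]
  linarith

lemma limsup_point {γ z : ℝ → ℂ} (hγ : LipschitzWith 1 γ) (hz : NIz z) {u : ℂ} (hu : ‖u‖ = 1)
    {K : Set ℝ} (hzK : ∀ t ∈ K, z t = γ t / u) {L m : ℝ} (hm : 0 < m)
    (hK2 : ∀ t ∈ K, ∀ s ∈ Set.Icc 0 L, (1 / m) * |s - t| ≤ ‖γ s - γ t‖)
    {f : ℝ → ℂ} (hf : MemLp f 2 (volume.restrict (Set.Icc 0 L)))
    {t : ℝ} (ht : t ∈ K) {W P C : ℝ} (hP : 0 ≤ P) (hC : 0 ≤ C) (hW : 0 ≤ W)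
    (hcore : ∀ ρ : ℝ, 0 < ρ → ∀ᶠ ε in 𝓝[>] (0 : ℝ),
            W * ‖∫ y in {y : ℝ | ε < |y - t|}, gg L γ u f y * (z y - z t)⁻¹‖
              ≤ 2 * (P + C * ‖gg L γ u f t‖) + ρ)
    (hD : Tendsto (fun r : ℝ => (2 * r)⁻¹ • ∫ y in Set.Icc (t - r) (t + r), ‖gg L γ u f y‖)
      (𝓝[>] 0) (𝓝 (‖gg L γ u f t‖))) :
    ENNReal.ofReal (min 1 W) * Ls L γ f t
      ≤ ENNReal.ofReal (2 * (P + C * ‖gg L γ u f t‖) + 4 * m * ‖gg L γ u f t‖)
        + ENNReal.ofReal (5 * m) * ∫⁻ s in Set.Icc 0 L, ‖gg L γ u f s‖ₑ * kap K s t := by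
  set g := gg L γ u f with hg
  set V := ENNReal.ofReal (min 1 W) with hV
  have hV1 : V ≤ 1 := by
    rw [hV, ← ENNReal.ofReal_one]
    exact ENNReal.ofReal_le_ofReal (min_le_left _ _)
  have hVt : V ≠ ⊤ := ENNReal.ofReal_ne_top
  apply ENNReal.le_of_forall_pos_le_add
  intro ρ hρ _
  have hρ' : (0 : ℝ) < ρ := by exact_mod_cast hρ
  unfold Ls
  rw [← ENNReal.limsup_const_mul_of_ne_top hVt]
  apply limsup_le_of_le
  · exact isCobounded_le_of_bot
  have hscale : Tendsto (fun ε : ℝ => m * ε) (𝓝[>] 0) (𝓝[>] 0) := by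
    apply tendsto_nhdsWithin_of_tendsto_nhds_of_eventually_within
    · have : Tendsto (fun ε : ℝ => m * ε) (𝓝 0) (𝓝 (m * 0)) := tendsto_id.const_mul m
      rw [mul_zero] at this
      exact this.mono_left nhdsWithin_le_nhds
    · filter_upwards [self_mem_nhdsWithin] with ε hε
      rw [Set.mem_Ioi] at hε ⊢
      positivity
  have hD1 : Tendsto (fun ε : ℝ => (2 / ε) * ∫ y in Set.Icc (t - m * ε) (t + m * ε), ‖g y‖)
      (𝓝[>] 0) (𝓝 (4 * m * ‖g t‖)) := by
    have h1 := (hD.comp hscale).const_mul (4 * m)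
    refine h1.congr' ?_
    filter_upwards [self_mem_nhdsWithin] with ε hε
    rw [Set.mem_Ioi] at hε
    simp only [Function.comp_apply, smul_eq_mul]
    field_simp
    ring
  have hD2 := hD1.eventually_le_const (show 4 * m * ‖g t‖ < 4 * m * ‖g t‖ + ρ / 2 by linarith)
  filter_upwards [self_mem_nhdsWithin, hD2, hcore (ρ / 2) (by positivity)] with ε hε hD3 hG
  rw [Set.mem_Ioi] at hε
  have h1 := compare hγ hz hu hzK hm hK2 hf ht hε
  rw [← hg] at h1
  set G := ∫ y in {y : ℝ | ε < |y - t|}, g y * (z y - z t)⁻¹ with hGd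
  set T := ∫ s in {s : ℝ | s ∈ Set.Icc (0 : ℝ) L ∧ ε < ‖γ s - γ t‖}, f s * deriv γ s / (γ s - γ t) with hT
  set J := ∫⁻ s in Set.Icc 0 L, ‖g s‖ₑ * kap K s t with hJ
  have hg0 : 0 ≤ ‖g t‖ := norm_nonneg _
  have h2 : V * ‖G‖ₑ ≤ ENNReal.ofReal (2 * (P + C * ‖g t‖) + ρ / 2) := by
    rw [hV, ← ofReal_norm, ← ENNReal.ofReal_mul (le_min zero_le_one hW)]
    apply ENNReal.ofReal_le_ofReal
    calc min 1 W * ‖G‖ ≤ W * ‖G‖ := by
          gcongr
          exact min_le_right _ _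
      _ ≤ _ := hG
  calc V * ‖(2 * (Real.pi : ℂ) * Complex.I)⁻¹ * T‖ₑ
      = V * (‖(2 * (Real.pi : ℂ) * Complex.I)⁻¹‖ₑ * ‖T‖ₑ) := by rw [enorm_mul]
    _ ≤ V * (1 * ‖T‖ₑ) := by
        gcongr
        exact two_pi_le
    _ ≤ V * (‖G‖ₑ + ENNReal.ofReal ((2 / ε) * ∫ y in Set.Icc (t - m * ε) (t + m * ε), ‖g y‖)
        + ENNReal.ofReal (5 * m) * J) := by
        rw [one_mul]
        gcongr
    _ = V * ‖G‖ₑ + V * ENNReal.ofReal ((2 / ε) * ∫ y in Set.Icc (t - m * ε) (t + m * ε), ‖g y‖)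
        + V * (ENNReal.ofReal (5 * m) * J) := by ring
    _ ≤ ENNReal.ofReal (2 * (P + C * ‖g t‖) + ρ / 2)
        + 1 * ENNReal.ofReal (4 * m * ‖g t‖ + ρ / 2) + 1 * (ENNReal.ofReal (5 * m) * J) := by
        gcongr
    _ = ENNReal.ofReal (2 * (P + C * ‖g t‖) + 4 * m * ‖g t‖)
        + ENNReal.ofReal (5 * m) * J + ρ := by
        rw [one_mul, one_mul, ← ENNReal.ofReal_add (by positivity) (by positivity)]
        have e : (2 * (P + C * ‖g t‖) + (ρ : ℝ) / 2) + (4 * m * ‖g t‖ + (ρ : ℝ) / 2)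
            = (2 * (P + C * ‖g t‖) + 4 * m * ‖g t‖) + ρ := by ring
        rw [e, ENNReal.ofReal_add (by positivity) (by positivity), ENNReal.ofReal_coe_nnreal]
        ring

end

section

open Finset MeasureTheory Filter Topology
open scoped ComplexConjugate ENNReal NNReal

def Good (L : ℝ) (γ : ℝ → ℂ) (Z : Set ℝ) : Prop :=
  MeasurableSet Z ∧ ∃ ω : ℝ → ℝ, Measurable ω ∧ (∀ᵐ t ∂(volume.restrict Z), 0 < ω t) ∧
    ∃ c : ℝ≥0∞, c < ⊤ ∧ ∀ f : ℝ → ℂ, MemLp f 2 (volume.restrict (Set.Icc (0 : ℝ) L)) →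
      ∫⁻ t in Z, (Ls L γ f t) ^ 2 * ENNReal.ofReal (ω t)
        ≤ c * ∫⁻ t in Set.Icc (0 : ℝ) L, ‖f t‖ₑ ^ 2

lemma sq_add_le' (a b : ℝ≥0∞) : (a + b) ^ 2 ≤ 4 * (a ^ 2 + b ^ 2) := by
  rcases le_total a b with h | h
  · calc (a + b) ^ 2 ≤ (b + b) ^ 2 := by gcongr
      _ = 4 * b ^ 2 := by ring
      _ ≤ 4 * (a ^ 2 + b ^ 2) := by
        gcongr
        exact le_add_self
  · calc (a + b) ^ 2 ≤ (a + a) ^ 2 := by gcongr
      _ = 4 * a ^ 2 := by ring
      _ ≤ 4 * (a ^ 2 + b ^ 2) := by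
        gcongr
        exact le_self_add

lemma lint_sq_eq {h : ℝ → ℂ} (hh : MemLp h 2 volume) :
    ∫⁻ t, ‖h t‖ₑ ^ 2 = ENNReal.ofReal (∫ t, ‖h t‖ ^ 2) := by
  rw [ofReal_integral_eq_lintegral_ofReal (hh.integrable_norm_pow (by norm_num))
    (Eventually.of_forall (fun t => by simp only [Pi.zero_apply]; positivity))]
  congr 1
  ext t
  rw [ENNReal.ofReal_pow (norm_nonneg _), ofReal_norm]

lemma vol_bound {L M : ℝ} (hL : 0 < L) (hM : 0 < M) (w : Lp ℂ 2 (volume : Measure ℝ))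
    (hw1 : ‖w‖ ^ 2 ≤ L) (hw2 : L * (1 - 5000 / M ^ 2) ≤ ‖∫ x in Set.Ioc 0 L, w x‖) :
    volume (Set.Ioc 0 L \ {t : ℝ | (w : ℝ → ℂ) t ≠ 0}) ≤ ENNReal.ofReal (10000 * L / M ^ 2) := by
  have hwm : Measurable (w : ℝ → ℂ) := (Lp.stronglyMeasurable w).measurable
  set S : Set ℝ := {t : ℝ | (w : ℝ → ℂ) t ≠ 0} with hS
  have hSm : MeasurableSet S := by
    have : S = (w : ℝ → ℂ) ⁻¹' {0}ᶜ := by
      ext t; simp [hS]
    rw [this]
    exact hwm (measurableSet_singleton 0).compl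
  set E := Set.Ioc 0 L ∩ S with hE
  have hEm : MeasurableSet E := measurableSet_Ioc.inter hSm
  have hEfin : volume E ≠ ⊤ := by
    apply ne_top_of_le_ne_top _ (measure_mono Set.inter_subset_left)
    rw [Real.volume_Ioc]; exact ENNReal.ofReal_ne_top
  have h1 : ∫ x in Set.Ioc 0 L, w x = ∫ x in E, w x := by
    rw [hE, ← setIntegral_indicator hSm]
    congr 1
    ext x
    by_cases hx : x ∈ S
    · rw [Set.indicator_of_mem hx]
    · rw [Set.indicator_of_notMem hx]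
      by_contra h0
      exact hx h0
  have h2 := cs_set (Lp.memLp w) hEm hEfin
  have h3 : ∫ y in E, ‖w y‖ ^ 2 ≤ L := by
    calc ∫ y in E, ‖w y‖ ^ 2 ≤ ∫ y, ‖w y‖ ^ 2 := by
          apply setIntegral_le_integral ((Lp.memLp w).integrable_norm_pow (by norm_num))
          exact Eventually.of_forall (fun t => by simp only [Pi.zero_apply]; positivity)
      _ = ‖w‖ ^ 2 := (l2norm_sq w).symm
      _ ≤ L := hw1
  have h4 : L * (1 - 10000 / M ^ 2) ≤ volume.real E := by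
    by_cases hc : 1 - 5000 / M ^ 2 < 0
    · have : 1 - 10000 / M ^ 2 < 0 := by
        have h5 : 5000 / M ^ 2 ≤ 10000 / M ^ 2 := by gcongr; norm_num
        linarith
      have h6 : 0 ≤ volume.real E := measureReal_nonneg
      nlinarith
    · push Not at hc
      rw [h1] at hw2
      have h5 : (L * (1 - 5000 / M ^ 2)) ^ 2 ≤ volume.real E * L := by
        calc (L * (1 - 5000 / M ^ 2)) ^ 2 ≤ ‖∫ x in E, w x‖ ^ 2 := by
              have : 0 ≤ L * (1 - 5000 / M ^ 2) := mul_nonneg hL.le hc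
              gcongr
          _ ≤ volume.real E * ∫ y in E, ‖w y‖ ^ 2 := h2
          _ ≤ volume.real E * L := by
              have : 0 ≤ volume.real E := measureReal_nonneg
              gcongr
      have h6 : L * (1 - 5000 / M ^ 2) ^ 2 ≤ volume.real E := by
        have : L * (L * (1 - 5000 / M ^ 2) ^ 2) ≤ L * volume.real E := by
          calc L * (L * (1 - 5000 / M ^ 2) ^ 2) = (L * (1 - 5000 / M ^ 2)) ^ 2 := by ring
            _ ≤ volume.real E * L := h5
            _ = _ := by ring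
        exact le_of_mul_le_mul_left this hL
      have h7 : 1 - 10000 / M ^ 2 ≤ (1 - 5000 / M ^ 2) ^ 2 := by
        have e : (1 - 5000 / M ^ 2) ^ 2 = 1 - 10000 / M ^ 2 + (5000 / M ^ 2) ^ 2 := by ring
        rw [e]
        have : 0 ≤ (5000 / M ^ 2) ^ 2 := by positivity
        linarith
      calc L * (1 - 10000 / M ^ 2) ≤ L * (1 - 5000 / M ^ 2) ^ 2 := by gcongr
        _ ≤ _ := h6
  have h5 : Set.Ioc 0 L \ S = Set.Ioc 0 L \ E := by
    rw [hE]
    ext x
    constructor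
    · rintro ⟨a, b⟩
      exact ⟨a, fun h => b h.2⟩
    · rintro ⟨a, b⟩
      exact ⟨a, fun h => b ⟨a, h⟩⟩
  rw [h5, measure_sdiff Set.inter_subset_left hEm.nullMeasurableSet hEfin, Real.volume_Ioc, sub_zero]
  have h6 : volume E = ENNReal.ofReal (volume.real E) := (ofReal_measureReal hEfin).symm
  rw [h6, ← ENNReal.ofReal_sub _ measureReal_nonneg]
  apply ENNReal.ofReal_le_ofReal
  have e : 10000 * L / M ^ 2 = L - L * (1 - 10000 / M ^ 2) := by ring
  rw [e]
  linarith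

lemma good_piece {γ z : ℝ → ℂ} (hγ : LipschitzWith 1 γ) (hz : NIz z) {u : ℂ} (hu : ‖u‖ = 1)
    {K : Set ℝ} (hKm : MeasurableSet K) (hzK : ∀ t ∈ K, z t = γ t / u) {L m : ℝ} (hL : 0 < L)
    (hm : 0 < m)
    (hK2 : ∀ t ∈ K, ∀ s ∈ Set.Icc 0 L, (1 / m) * |s - t| ≤ ‖γ s - γ t‖) {M : ℝ} (hM : 0 < M) :
    ∃ S : Set ℝ, MeasurableSet S ∧ Good L γ (K ∩ S) ∧
      volume (Set.Ioc 0 L \ S) ≤ ENNReal.ofReal (10000 * L / M ^ 2) := by
  obtain ⟨w, hw1, hw2, hw3⟩ := core_ae hz hL hM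
  have hwm : Measurable (w : ℝ → ℂ) := (Lp.stronglyMeasurable w).measurable
  set S : Set ℝ := {t : ℝ | (w : ℝ → ℂ) t ≠ 0} with hS
  have hSm : MeasurableSet S := by
    have : S = (w : ℝ → ℂ) ⁻¹' {0}ᶜ := by
      ext t; simp [hS]
    rw [this]
    exact hwm (measurableSet_singleton 0).compl
  refine ⟨S, hSm, ?_, vol_bound hL hM w hw1 hw2⟩
  set C : ℝ := 5 * M + 256 with hC
  set V : ℝ → ℝ≥0∞ := fun t => ENNReal.ofReal (min 1 ‖w t‖) with hV
  have hVm : Measurable V := (measurable_const.min hwm.norm).ennreal_ofReal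
  have hV1 : ∀ t, V t ≤ 1 := by
    intro t
    rw [hV, ← ENNReal.ofReal_one]
    exact ENNReal.ofReal_le_ofReal (min_le_left _ _)
  set Q : ℝ → ℝ≥0∞ := fun t => (1 + mI L K t)⁻¹ with hQ
  have hQm : Measurable Q := (measurable_const.add (mI_meas L K)).inv
  have hQ1 : ∀ t, Q t ≤ 1 := by
    intro t
    simp only [hQ]
    rw [ENNReal.inv_le_one]
    exact le_self_add
  have hVQt : ∀ t, V t ^ 2 * Q t ≠ ⊤ := by
    intro t
    apply ne_top_of_le_ne_top ENNReal.one_ne_top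
    calc V t ^ 2 * Q t ≤ 1 ^ 2 * 1 := by
          gcongr
          · exact hV1 t
          · exact hQ1 t
      _ = 1 := by norm_num
  refine ⟨hKm.inter hSm, fun t => (V t ^ 2 * Q t).toReal, ((hVm.pow_const 2).mul hQm).ennreal_toReal, ?_, ?_⟩
  · have h1 := mI_fin L K hKm
    rw [ae_restrict_iff' (hKm.inter hSm)]
    rw [ae_restrict_iff' hKm] at h1
    filter_upwards [h1] with t ht htS
    apply ENNReal.toReal_pos _ (hVQt t)
    apply mul_ne_zero
    · apply pow_ne_zero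
      simp only [hV]
      rw [ENNReal.ofReal_ne_zero_iff]
      have : 0 < ‖w t‖ := norm_pos_iff.mpr htS.2
      exact lt_min zero_lt_one this
    · simp only [hQ]
      rw [ENNReal.inv_ne_zero]
      exact ENNReal.add_ne_top.mpr ⟨ENNReal.one_ne_top, (ht htS.1).ne⟩
  · set c : ℝ≥0∞ := 4 * (4 * (4 * ENNReal.ofReal (10 * M ^ 2) + ENNReal.ofReal (2 * C + 4 * m) ^ 2))
      + 4 * (ENNReal.ofReal (5 * m) ^ 2 * 2) with hc
    refine ⟨c, ?_, ?_⟩
    · rw [hc]
      apply ENNReal.add_lt_top.mpr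
      constructor
      · apply ENNReal.mul_lt_top (by norm_num)
        apply ENNReal.mul_lt_top (by norm_num)
        apply ENNReal.add_lt_top.mpr
        constructor
        · exact ENNReal.mul_lt_top (by norm_num) ENNReal.ofReal_lt_top
        · exact ENNReal.pow_lt_top ENNReal.ofReal_lt_top
      · apply ENNReal.mul_lt_top (by norm_num)
        exact ENNReal.mul_lt_top (ENNReal.pow_lt_top ENNReal.ofReal_lt_top) (by norm_num)
    · intro f hf
      set g := gg L γ u f with hgd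
      have hg : MemLp g 2 volume := gg_memLp hγ hu hf
      have hgi : Integrable g := integrable_of_supp hg (gg_supp L γ u f)
      obtain ⟨Ψ, hΨ1, hΨ2⟩ := hw3 g hg (gg_supp L γ u f)
      have lD : LocallyIntegrable (fun y => ‖g y‖) volume := hgi.norm.locallyIntegrable
      set R : ℝ → ℝ≥0∞ := fun t => ENNReal.ofReal (2 * (‖Ψ t‖ + C * ‖g t‖) + 4 * m * ‖g t‖) with hR
      set J : ℝ → ℝ≥0∞ := fun t => ∫⁻ s in Set.Icc 0 L, ‖g s‖ₑ * kap K s t with hJ
      have hpt : ∀ᵐ t ∂(volume.restrict (K ∩ S)), (Ls L γ f t) ^ 2 * ENNReal.ofReal ((V t ^ 2 * Q t).toReal)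
          ≤ 4 * R t ^ 2 + 4 * (ENNReal.ofReal (5 * m) ^ 2 * (J t ^ 2 * Q t)) := by
        rw [ae_restrict_iff' (hKm.inter hSm)]
        filter_upwards [hΨ2, leb_diff lD] with t h1 h2 htK
        have h3 := limsup_point hγ hz hu hzK hm hK2 hf htK.1 (norm_nonneg (Ψ t))
          (show 0 ≤ C by rw [hC]; positivity) (norm_nonneg (w t)) h1 h2
        rw [ENNReal.ofReal_toReal (hVQt t)]
        calc (Ls L γ f t) ^ 2 * (V t ^ 2 * Q t) = (V t * Ls L γ f t) ^ 2 * Q t := by ring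
          _ ≤ (R t + ENNReal.ofReal (5 * m) * J t) ^ 2 * Q t := by gcongr
          _ ≤ (4 * (R t ^ 2 + (ENNReal.ofReal (5 * m) * J t) ^ 2)) * Q t := by
              gcongr
              exact sq_add_le' _ _
          _ = 4 * (R t ^ 2 * Q t) + 4 * (ENNReal.ofReal (5 * m) ^ 2 * (J t ^ 2 * Q t)) := by ring
          _ ≤ 4 * (R t ^ 2 * 1) + 4 * (ENNReal.ofReal (5 * m) ^ 2 * (J t ^ 2 * Q t)) := by
              gcongr
              exact hQ1 t
          _ = _ := by rw [mul_one]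
      have hgm : AEMeasurable (fun t => ‖g t‖ₑ) volume := hg.aestronglyMeasurable.enorm
      have hΨm : AEMeasurable (fun t => ‖Ψ t‖ₑ) volume := (Lp.memLp Ψ).aestronglyMeasurable.enorm
      have hRle : ∀ t, R t ^ 2 ≤ 4 * (4 * ‖Ψ t‖ₑ ^ 2 + ENNReal.ofReal (2 * C + 4 * m) ^ 2 * ‖g t‖ₑ ^ 2) := by
        intro t
        have hC0 : 0 ≤ C := by rw [hC]; positivity
        have e : R t = 2 * ‖Ψ t‖ₑ + ENNReal.ofReal (2 * C + 4 * m) * ‖g t‖ₑ := by
          simp only [hR]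
          rw [← ofReal_norm, ← ofReal_norm, ← ENNReal.ofReal_mul (by positivity)]
          have e2 : (2 : ℝ≥0∞) * ENNReal.ofReal ‖Ψ t‖ = ENNReal.ofReal (2 * ‖Ψ t‖) := by
            rw [ENNReal.ofReal_mul (by norm_num)]
            norm_num
          rw [e2, ← ENNReal.ofReal_add (by positivity) (by positivity)]
          congr 1
          ring
        rw [e]
        calc (2 * ‖Ψ t‖ₑ + ENNReal.ofReal (2 * C + 4 * m) * ‖g t‖ₑ) ^ 2
            ≤ 4 * ((2 * ‖Ψ t‖ₑ) ^ 2 + (ENNReal.ofReal (2 * C + 4 * m) * ‖g t‖ₑ) ^ 2) := sq_add_le' _ _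
          _ = _ := by ring
      set X := ∫⁻ t, ‖g t‖ₑ ^ 2 with hX
      have hXf : X ≤ ∫⁻ t in Set.Icc (0 : ℝ) L, ‖f t‖ₑ ^ 2 := gg_lint hγ hu f
      have hΨX : ∫⁻ t, ‖Ψ t‖ₑ ^ 2 ≤ ENNReal.ofReal (10 * M ^ 2) * X := by
        rw [hX, lint_sq_eq hg, lint_sq_eq (Lp.memLp Ψ), ← l2norm_sq, ← ENNReal.ofReal_mul (by positivity)]
        exact ENNReal.ofReal_le_ofReal hΨ1
      have hRint : ∫⁻ t, R t ^ 2 ≤ 4 * (4 * ENNReal.ofReal (10 * M ^ 2) + ENNReal.ofReal (2 * C + 4 * m) ^ 2) * X := by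
        calc ∫⁻ t, R t ^ 2
            ≤ ∫⁻ t, 4 * (4 * ‖Ψ t‖ₑ ^ 2 + ENNReal.ofReal (2 * C + 4 * m) ^ 2 * ‖g t‖ₑ ^ 2) :=
              lintegral_mono hRle
          _ = 4 * (4 * (∫⁻ t, ‖Ψ t‖ₑ ^ 2) + ENNReal.ofReal (2 * C + 4 * m) ^ 2 * X) := by
              rw [lintegral_const_mul' _ _ (by norm_num),
                lintegral_add_left' ((hΨm.pow_const 2).const_mul 4),
                lintegral_const_mul' _ _ (by norm_num),
                lintegral_const_mul' _ _ (ENNReal.pow_ne_top ENNReal.ofReal_ne_top)]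
          _ ≤ 4 * (4 * (ENNReal.ofReal (10 * M ^ 2) * X) + ENNReal.ofReal (2 * C + 4 * m) ^ 2 * X) := by
              gcongr
          _ = _ := by ring
      have hJint : ∫⁻ t in K, J t ^ 2 * Q t ≤ 2 * X := by
        calc ∫⁻ t in K, J t ^ 2 * Q t ≤ 2 * ∫⁻ s in Set.Icc 0 L, ‖g s‖ₑ ^ 2 :=
              marc_bound L K hKm (fun s => ‖g s‖ₑ) hgm.restrict
          _ ≤ 2 * X := by
              gcongr
              exact setLIntegral_le_lintegral _ _
      have hRm : AEMeasurable (fun t => 4 * R t ^ 2) (volume.restrict (K ∩ S)) := by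
        have h1 : AEMeasurable (fun t => 2 * (‖Ψ t‖ + C * ‖g t‖) + 4 * m * ‖g t‖) volume := by
          have a1 : AEMeasurable (fun t => ‖Ψ t‖) volume := (Lp.memLp Ψ).aestronglyMeasurable.norm.aemeasurable
          have a2 : AEMeasurable (fun t => ‖g t‖) volume := hg.aestronglyMeasurable.norm.aemeasurable
          exact ((a1.add (a2.const_mul C)).const_mul 2).add (a2.const_mul (4 * m))
        exact (((h1.ennreal_ofReal).pow_const 2).const_mul 4).restrict
      calc ∫⁻ t in K ∩ S, (Ls L γ f t) ^ 2 * ENNReal.ofReal ((V t ^ 2 * Q t).toReal)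
          ≤ ∫⁻ t in K ∩ S, (4 * R t ^ 2 + 4 * (ENNReal.ofReal (5 * m) ^ 2 * (J t ^ 2 * Q t))) :=
            lintegral_mono_ae hpt
        _ = (∫⁻ t in K ∩ S, 4 * R t ^ 2)
            + ∫⁻ t in K ∩ S, 4 * (ENNReal.ofReal (5 * m) ^ 2 * (J t ^ 2 * Q t)) :=
            lintegral_add_left' hRm _
        _ = 4 * (∫⁻ t in K ∩ S, R t ^ 2)
            + 4 * (ENNReal.ofReal (5 * m) ^ 2 * ∫⁻ t in K ∩ S, (J t ^ 2 * Q t)) := by
            rw [lintegral_const_mul' _ _ (by norm_num), lintegral_const_mul' _ _ (by norm_num),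
              lintegral_const_mul' _ _ (ENNReal.pow_ne_top ENNReal.ofReal_ne_top)]
        _ ≤ 4 * (∫⁻ t, R t ^ 2) + 4 * (ENNReal.ofReal (5 * m) ^ 2 * ∫⁻ t in K, (J t ^ 2 * Q t)) := by
            gcongr
            · exact Measure.restrict_le_self
            · exact Set.inter_subset_left
        _ ≤ 4 * (4 * (4 * ENNReal.ofReal (10 * M ^ 2) + ENNReal.ofReal (2 * C + 4 * m) ^ 2) * X)
            + 4 * (ENNReal.ofReal (5 * m) ^ 2 * (2 * X)) := by
            gcongr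
        _ = c * X := by
            rw [hc]
            ring
        _ ≤ c * ∫⁻ t in Set.Icc (0 : ℝ) L, ‖f t‖ₑ ^ 2 := by gcongr

end

section

open Finset MeasureTheory Filter Topology
open scoped ComplexConjugate ENNReal NNReal

lemma Good.mono {L : ℝ} {γ : ℝ → ℂ} {Z Z' : Set ℝ} (h : Good L γ Z) (hm : MeasurableSet Z')
    (hs : Z' ⊆ Z) : Good L γ Z' := by
  obtain ⟨_, ω, hω, hpos, c, hc, hb⟩ := h
  refine ⟨hm, ω, hω, ae_restrict_of_ae_restrict_of_subset hs hpos, c, hc, ?_⟩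
  intro f hf
  exact (lintegral_mono_set hs).trans (hb f hf)

lemma Good.iUnion {L : ℝ} {γ : ℝ → ℂ} (Z : ℕ → Set ℝ) (h : ∀ n, Good L γ (Z n)) :
    Good L γ (⋃ n, Z n) := by
  set D := disjointed Z with hD
  have hDm : ∀ n, MeasurableSet (D n) := fun n => MeasurableSet.disjointed (fun n => (h n).1) n
  have hDg : ∀ n, Good L γ (D n) := fun n => (h n).mono (hDm n) (disjointed_subset Z n)
  have hDd : Pairwise (Function.onFun Disjoint D) := disjoint_disjointed Z
  have hDu : ⋃ n, Z n = ⋃ n, D n := (iUnion_disjointed).symm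
  choose hm ω hω hpos c hc hb using hDg
  set a : ℕ → ℝ := fun n => (1 / 2) ^ n / (1 + (c n).toReal) with ha
  have ha0 : ∀ n, 0 < a n := fun n => by
    simp only [ha]
    have : 0 ≤ (c n).toReal := ENNReal.toReal_nonneg
    positivity
  have hac : ∀ n, ENNReal.ofReal (a n) * c n ≤ (1 / 2) ^ n := by
    intro n
    have h1 : c n = ENNReal.ofReal (c n).toReal := (ENNReal.ofReal_toReal (hc n).ne).symm
    have h0 : 0 ≤ (c n).toReal := ENNReal.toReal_nonneg
    have h2 : ENNReal.ofReal (a n) * c n = ENNReal.ofReal (a n * (c n).toReal) := by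
      rw [ENNReal.ofReal_mul (ha0 n).le, ← h1]
    have h3 : (1 / 2 : ℝ≥0∞) ^ n = ENNReal.ofReal ((1 / 2) ^ n) := by
      rw [ENNReal.ofReal_pow (by norm_num)]
      congr 1
      rw [ENNReal.ofReal_div_of_pos (by norm_num)]
      norm_num
    rw [h2, h3]
    apply ENNReal.ofReal_le_ofReal
    simp only [ha]
    rw [div_mul_eq_mul_div, div_le_iff₀ (by positivity)]
    have : (0 : ℝ) < (1 / 2) ^ n := by positivity
    nlinarith
  set Ω : ℝ → ℝ≥0∞ := fun t => ∑' n, (D n).indicator (fun t => ENNReal.ofReal (a n * ω n t)) t with hΩ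
  have hΩm : Measurable Ω := by
    apply Measurable.tsum
    intro n
    exact (((hω n).const_mul (a n)).ennreal_ofReal).indicator (hDm n)
  have hΩe : ∀ n, ∀ t ∈ D n, Ω t = ENNReal.ofReal (a n * ω n t) := by
    intro n t ht
    simp only [hΩ]
    rw [tsum_eq_single n]
    · rw [Set.indicator_of_mem ht]
    · intro k hk
      rw [Set.indicator_of_notMem]
      intro hk2
      exact Set.disjoint_left.mp (hDd hk) hk2 ht
  refine ⟨MeasurableSet.iUnion (fun n => (h n).1), fun t => (Ω t).toReal, hΩm.ennreal_toReal, ?_, ?_⟩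
  · rw [hDu, ae_restrict_iUnion_iff]
    intro n
    have := hpos n
    rw [ae_restrict_iff' (hDm n)] at this ⊢
    filter_upwards [this] with t ht htD
    rw [hΩe n t htD, ENNReal.toReal_ofReal (mul_pos (ha0 n) (ht htD)).le]
    exact mul_pos (ha0 n) (ht htD)
  · refine ⟨∑' n : ℕ, (1 / 2 : ℝ≥0∞) ^ n, ?_, ?_⟩
    · rw [ENNReal.tsum_geometric]
      norm_num
    · intro f hf
      rw [hDu, lintegral_iUnion hDm hDd, ← ENNReal.tsum_mul_right]
      apply ENNReal.tsum_le_tsum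
      intro n
      calc ∫⁻ t in D n, (Ls L γ f t) ^ 2 * ENNReal.ofReal ((Ω t).toReal)
          = ∫⁻ t in D n, ENNReal.ofReal (a n) * ((Ls L γ f t) ^ 2 * ENNReal.ofReal (ω n t)) := by
            apply setLIntegral_congr_fun (hDm n)
            intro t ht
            simp only
            rw [hΩe n t ht, ENNReal.ofReal_toReal ENNReal.ofReal_ne_top, ENNReal.ofReal_mul (ha0 n).le]
            ring
        _ = ENNReal.ofReal (a n) * ∫⁻ t in D n, (Ls L γ f t) ^ 2 * ENNReal.ofReal (ω n t) := by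
            rw [lintegral_const_mul' _ _ ENNReal.ofReal_ne_top]
        _ ≤ ENNReal.ofReal (a n) * (c n * ∫⁻ t in Set.Icc (0 : ℝ) L, ‖f t‖ₑ ^ 2) := by
            gcongr
            exact hb n f hf
        _ = (ENNReal.ofReal (a n) * c n) * ∫⁻ t in Set.Icc (0 : ℝ) L, ‖f t‖ₑ ^ 2 := by
            rw [mul_assoc]
        _ ≤ _ := by
            gcongr
            exact hac n

/-- extension of a near identity curve -/
lemma ext_curve {K : Set ℝ} {ζ : ℝ → ℂ}
    (h : ∀ s ∈ K, ∀ t ∈ K, ‖ζ s - ζ t - ((s : ℂ) - t)‖ ≤ (1 / 4) * |s - t|) :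
    ∃ z : ℝ → ℂ, NIz z ∧ ∀ t ∈ K, z t = ζ t := by
  have hre : LipschitzOnWith (1 / 4) (fun s => (ζ s - s).re) K := by
    apply LipschitzOnWith.of_dist_le_mul
    intro s hs t ht
    rw [Real.dist_eq, Real.dist_eq]
    have h1 := h s hs t ht
    have h2 : (ζ s - s).re - (ζ t - t).re = (ζ s - ζ t - ((s : ℂ) - t)).re := by
      simp only [Complex.sub_re]; ring
    rw [h2]
    calc |(ζ s - ζ t - ((s : ℂ) - t)).re| ≤ ‖ζ s - ζ t - ((s : ℂ) - t)‖ := Complex.abs_re_le_norm _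
      _ ≤ (1 / 4) * |s - t| := h1
      _ = _ := by norm_num
  have him : LipschitzOnWith (1 / 4) (fun s => (ζ s - s).im) K := by
    apply LipschitzOnWith.of_dist_le_mul
    intro s hs t ht
    rw [Real.dist_eq, Real.dist_eq]
    have h1 := h s hs t ht
    have h2 : (ζ s - s).im - (ζ t - t).im = (ζ s - ζ t - ((s : ℂ) - t)).im := by
      simp only [Complex.sub_im]; ring
    rw [h2]
    calc |(ζ s - ζ t - ((s : ℂ) - t)).im| ≤ ‖ζ s - ζ t - ((s : ℂ) - t)‖ := Complex.abs_im_le_norm _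
      _ ≤ (1 / 4) * |s - t| := h1
      _ = _ := by norm_num
  obtain ⟨g1, hg1, hg1e⟩ := hre.extend_real
  obtain ⟨g2, hg2, hg2e⟩ := him.extend_real
  refine ⟨fun s => s + ((g1 s : ℂ) + (g2 s : ℂ) * Complex.I), ?_, ?_⟩
  · intro s t
    have h1 := hg1.dist_le_mul s t
    have h2 := hg2.dist_le_mul s t
    rw [Real.dist_eq, Real.dist_eq] at h1 h2
    have e : ((s : ℂ) + ((g1 s : ℂ) + (g2 s : ℂ) * Complex.I)) - (t + ((g1 t : ℂ) + (g2 t : ℂ) * Complex.I))
        - ((s : ℂ) - t) = ((g1 s - g1 t : ℝ) : ℂ) + ((g2 s - g2 t : ℝ) : ℂ) * Complex.I := by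
      push_cast; ring
    simp only
    rw [e]
    calc ‖((g1 s - g1 t : ℝ) : ℂ) + ((g2 s - g2 t : ℝ) : ℂ) * Complex.I‖
        ≤ ‖((g1 s - g1 t : ℝ) : ℂ)‖ + ‖((g2 s - g2 t : ℝ) : ℂ) * Complex.I‖ := norm_add_le _ _
      _ = |g1 s - g1 t| + |g2 s - g2 t| := by
          rw [norm_mul, Complex.norm_I, mul_one, Complex.norm_real, Complex.norm_real,
            Real.norm_eq_abs, Real.norm_eq_abs]
      _ ≤ (1 / 2) * |s - t| := by
          norm_num at h1 h2
          linarith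
  · intro t ht
    have h1 := hg1e ht
    have h2 := hg2e ht
    simp only at h1 h2
    show (t : ℂ) + ((g1 t : ℂ) + (g2 t : ℂ) * Complex.I) = ζ t
    rw [← h1, ← h2, Complex.re_add_im]
    ring

end

section

open Finset MeasureTheory Filter Topology
open scoped ComplexConjugate ENNReal NNReal

/-- points with approximate tangent direction u at scale r -/
def Eset (L : ℝ) (γ : ℝ → ℂ) (u : ℂ) (r : ℝ) : Set ℝ :=
  {t : ℝ | t ∈ Set.Icc 0 L ∧ ∀ s ∈ Set.Icc 0 L, |s - t| < r →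
    ‖γ s - γ t - u * ((s : ℂ) - t)‖ ≤ (1 / 4) * |s - t|}

def Gset (L : ℝ) (γ : ℝ → ℂ) (m : ℝ) : Set ℝ :=
  {t : ℝ | t ∈ Set.Icc 0 L ∧ ∀ s ∈ Set.Icc 0 L, (1 / m) * |s - t| ≤ ‖γ s - γ t‖}

lemma Eset_closed (L : ℝ) {γ : ℝ → ℂ} (hγ : Continuous γ) (u : ℂ) (r : ℝ) :
    IsClosed (Eset L γ u r) := by
  have h : Eset L γ u r = Set.Icc 0 L ∩ ⋂ s ∈ Set.Icc (0 : ℝ) L,
      ({t : ℝ | r ≤ |s - t|} ∪ {t : ℝ | ‖γ s - γ t - u * ((s : ℂ) - t)‖ ≤ (1 / 4) * |s - t|}) := by
    ext t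
    simp only [Eset, Set.mem_inter_iff, Set.mem_iInter, Set.mem_union]
    constructor
    · rintro ⟨h1, h2⟩
      refine ⟨h1, ?_⟩
      intro s hs
      by_cases h3 : |s - t| < r
      · right; exact h2 s hs h3
      · left; exact not_lt.mp h3
    · rintro ⟨h1, h2⟩
      refine ⟨h1, ?_⟩
      intro s hs h3
      rcases h2 s hs with h4 | h4
      · have h5 : r ≤ |s - t| := h4
        linarith
      · exact h4
  rw [h]
  apply isClosed_Icc.inter
  apply isClosed_biInter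
  intro s _
  apply IsClosed.union
  · exact isClosed_le continuous_const ((continuous_const.sub continuous_id).abs)
  · apply isClosed_le
    · exact ((continuous_const.sub hγ).sub (continuous_const.mul
        (continuous_const.sub Complex.continuous_ofReal))).norm
    · exact continuous_const.mul ((continuous_const.sub continuous_id).abs)

lemma Gset_closed (L : ℝ) {γ : ℝ → ℂ} (hγ : Continuous γ) (m : ℝ) :
    IsClosed (Gset L γ m) := by
  have h : Gset L γ m = Set.Icc 0 L ∩ ⋂ s ∈ Set.Icc (0 : ℝ) L,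
      {t : ℝ | (1 / m) * |s - t| ≤ ‖γ s - γ t‖} := by
    ext t
    simp only [Gset, Set.mem_inter_iff, Set.mem_iInter]
    constructor
    · rintro ⟨h1, h2⟩
      exact ⟨h1, fun s hs => h2 s hs⟩
    · rintro ⟨h1, h2⟩
      exact ⟨h1, fun s hs => h2 s hs⟩
  rw [h]
  apply isClosed_Icc.inter
  apply isClosed_biInter
  intro s _
  apply isClosed_le
  · exact continuous_const.mul ((continuous_const.sub continuous_id).abs)
  · exact (continuous_const.sub hγ).norm

/-- each piece is good up to small sets, hence good up to a null set -/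
lemma good_full_piece {L : ℝ} (hL : 0 < L) {γ : ℝ → ℂ} (hγ : LipschitzWith 1 γ) {u : ℂ}
    (hu : ‖u‖ = 1) {r m a : ℝ} (hr : 0 < r) (hm : 0 < m) :
    ∃ S : Set ℝ, MeasurableSet S ∧
      Good L γ ((Eset L γ u r ∩ Gset L γ m ∩ Set.Icc a (a + r / 2)) ∩ S) ∧
      volume (Set.Ioc 0 L \ S) = 0 := by
  set K := Eset L γ u r ∩ Gset L γ m ∩ Set.Icc a (a + r / 2) with hK
  have hKm : MeasurableSet K :=
    (((Eset_closed L hγ.continuous u r).inter (Gset_closed L hγ.continuous m)).inter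
      isClosed_Icc).measurableSet
  have hu0 : u ≠ 0 := by intro h0; rw [h0, norm_zero] at hu; norm_num at hu
  obtain ⟨z, hz, hzK⟩ := ext_curve (K := K) (ζ := fun s => γ s / u) (by
    intro s hs t ht
    have hst : |s - t| < r := by
      have h1 := hs.2
      have h2 := ht.2
      rw [Set.mem_Icc] at h1 h2
      rw [abs_lt]
      constructor <;> linarith [h1.1, h1.2, h2.1, h2.2]
    have h3 := ht.1.1.2 s hs.1.1.1 hst
    have e : γ s / u - γ t / u - ((s : ℂ) - t) = (γ s - γ t - u * ((s : ℂ) - t)) / u := by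
      field_simp
    rw [e, norm_div, hu, div_one]
    exact h3)
  have hpiece : ∀ i : ℕ, ∃ S : Set ℝ, MeasurableSet S ∧ Good L γ (K ∩ S) ∧
      volume (Set.Ioc 0 L \ S) ≤ ENNReal.ofReal (10000 * L / ((i : ℝ) + 1) ^ 2) := by
    intro i
    exact good_piece hγ hz hu hKm hzK hL hm (fun t ht s hs => ht.1.2.2 s hs) (by positivity)
  choose S hSm hSg hSv using hpiece
  refine ⟨⋃ i, S i, MeasurableSet.iUnion hSm, ?_, ?_⟩
  · rw [Set.inter_iUnion]
    exact Good.iUnion _ hSg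
  · apply le_antisymm _ zero_le
    have h1 : ∀ i : ℕ, volume (Set.Ioc 0 L \ ⋃ i, S i) ≤ ENNReal.ofReal (10000 * L / ((i : ℝ) + 1) ^ 2) := by
      intro i
      refine le_trans (measure_mono ?_) (hSv i)
      apply Set.sdiff_subset_sdiff_right
      exact Set.subset_iUnion S i
    have h2 : Tendsto (fun i : ℕ => ENNReal.ofReal (10000 * L / ((i : ℝ) + 1) ^ 2)) atTop (𝓝 0) := by
      rw [← ENNReal.ofReal_zero]
      apply ENNReal.tendsto_ofReal
      apply Tendsto.const_div_atTop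
      apply (tendsto_pow_atTop (by norm_num : (2 : ℕ) ≠ 0)).comp
      exact tendsto_atTop_add_const_right _ _ tendsto_natCast_atTop_atTop
    exact ge_of_tendsto' h2 h1

/-- almost every parameter lies in one of the pieces -/
lemma point_in_piece {L : ℝ} {γ : ℝ → ℂ} (hγ : LipschitzWith 1 γ)
    (hinj : Set.InjOn γ (Set.Ico (0 : ℝ) L)) {t : ℝ} (ht : t ∈ Set.Ioo 0 L) (htL : γ t ≠ γ L)
    (hd : ‖deriv γ t‖ = 1) :
    ∃ (c : Circle), ∀ (c' : Circle), ‖(c' : ℂ) - (c : ℂ)‖ < 1 / 8 →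
      ∃ n m : ℕ, t ∈ Eset L γ (c' : ℂ) (1 / ((n : ℝ) + 1)) ∧ t ∈ Gset L γ ((m : ℝ) + 1) := by
  refine ⟨⟨deriv γ t, mem_sphere_zero_iff_norm.mpr hd⟩, ?_⟩
  intro c' hc'
  have hc'' : ‖(c' : ℂ) - deriv γ t‖ < 1 / 8 := hc'
  have hL : 0 < L := ht.1.trans ht.2
  have htI : t ∈ Set.Icc 0 L := ⟨ht.1.le, ht.2.le⟩
  have hdiff : DifferentiableAt ℝ γ t := by
    apply differentiableAt_of_deriv_ne_zero
    intro h0
    rw [h0, norm_zero] at hd
    norm_num at hd
  have h1 := (hasDerivAt_iff_isLittleO.mp hdiff.hasDerivAt).def (show (0 : ℝ) < 1 / 8 by norm_num)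
  rw [Metric.eventually_nhds_iff] at h1
  obtain ⟨r, hr, hr2⟩ := h1
  obtain ⟨n, hn⟩ := exists_nat_one_div_lt hr
  have hE : ∀ s : ℝ, |s - t| < 1 / ((n : ℝ) + 1) →
      ‖γ s - γ t - (c' : ℂ) * ((s : ℂ) - t)‖ ≤ (1 / 4) * |s - t| := by
    intro s hs
    have h2 := hr2 (show dist s t < r by rw [Real.dist_eq]; linarith)
    rw [Real.norm_eq_abs] at h2
    have e : γ s - γ t - (c' : ℂ) * ((s : ℂ) - t)
        = (γ s - γ t - (s - t) • deriv γ t) - ((c' : ℂ) - deriv γ t) * ((s : ℂ) - t) := by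
      rw [Complex.real_smul]
      push_cast
      ring
    rw [e]
    have h3 : ‖((c' : ℂ) - deriv γ t) * ((s : ℂ) - t)‖ ≤ (1 / 8) * |s - t| := by
      rw [norm_mul, ← Complex.ofReal_sub, Complex.norm_real, Real.norm_eq_abs]
      gcongr
    have h4 := norm_sub_le (γ s - γ t - (s - t) • deriv γ t) (((c' : ℂ) - deriv γ t) * ((s : ℂ) - t))
    linarith
  have hnpos : (0 : ℝ) < 1 / ((n : ℝ) + 1) := by positivity
  -- lower bound far away
  have hfar : ∃ c0 : ℝ, 0 < c0 ∧ ∀ s ∈ Set.Icc 0 L, 1 / ((n : ℝ) + 1) ≤ |s - t| → c0 ≤ ‖γ s - γ t‖ := by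
    set Q : Set ℝ := Set.Icc 0 L ∩ {s : ℝ | 1 / ((n : ℝ) + 1) ≤ |s - t|} with hQ
    have hQc : IsCompact Q := by
      apply isCompact_Icc.inter_right
      exact isClosed_le continuous_const ((continuous_id.sub continuous_const).abs)
    by_cases hne : Q.Nonempty
    · obtain ⟨s0, hs0, hmin⟩ := hQc.exists_isMinOn hne
        ((hγ.continuous.sub continuous_const).norm.continuousOn (s := Q) (f := fun s => ‖γ s - γ t‖))
      refine ⟨‖γ s0 - γ t‖, ?_, ?_⟩
      · rw [norm_pos_iff, sub_ne_zero]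
        intro h0
        have hs1 : 1 / ((n : ℝ) + 1) ≤ |s0 - t| := hs0.2
        by_cases hsL : s0 = L
        · rw [hsL] at h0
          exact htL h0.symm
        · have hs2 : s0 ∈ Set.Ico 0 L := ⟨hs0.1.1, lt_of_le_of_ne hs0.1.2 hsL⟩
          have := hinj hs2 ⟨ht.1.le, ht.2⟩ h0
          rw [this, sub_self, abs_zero] at hs1
          linarith
      · intro s hs hst
        exact hmin (show s ∈ Q from ⟨hs, hst⟩)
    · refine ⟨1, one_pos, ?_⟩
      intro s hs hst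
      exfalso
      exact hne ⟨s, hs, hst⟩
  obtain ⟨c0, hc0, hc02⟩ := hfar
  obtain ⟨m, hm⟩ := exists_nat_one_div_lt (show 0 < min (3 / 4) (c0 / L) by
    apply lt_min (by norm_num); positivity)
  have hm1 : 1 / ((m : ℝ) + 1) ≤ 3 / 4 := hm.le.trans (min_le_left _ _)
  have hm2 : 1 / ((m : ℝ) + 1) ≤ c0 / L := hm.le.trans (min_le_right _ _)
  refine ⟨n, m, ⟨htI, fun s _ hs => hE s hs⟩, ⟨htI, ?_⟩⟩
  intro s hs
  by_cases hsn : |s - t| < 1 / ((n : ℝ) + 1)
  · have h2 := hE s hsn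
    have h3 : |s - t| ≤ ‖γ s - γ t‖ + (1 / 4) * |s - t| := by
      have e : (c' : ℂ) * ((s : ℂ) - t) = (γ s - γ t) - (γ s - γ t - (c' : ℂ) * ((s : ℂ) - t)) := by ring
      have h4 : ‖(c' : ℂ) * ((s : ℂ) - t)‖ = |s - t| := by
        rw [norm_mul, Circle.norm_coe, one_mul, ← Complex.ofReal_sub, Complex.norm_real, Real.norm_eq_abs]
      rw [← h4]
      calc ‖(c' : ℂ) * ((s : ℂ) - t)‖
          = ‖(γ s - γ t) - (γ s - γ t - (c' : ℂ) * ((s : ℂ) - t))‖ := by rw [← e]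
        _ ≤ ‖γ s - γ t‖ + ‖γ s - γ t - (c' : ℂ) * ((s : ℂ) - t)‖ := norm_sub_le _ _
        _ ≤ ‖γ s - γ t‖ + (1 / 4) * ‖(c' : ℂ) * ((s : ℂ) - t)‖ := by
            rw [h4]
            gcongr
    have h0 : 0 ≤ |s - t| := abs_nonneg _
    nlinarith
  · push Not at hsn
    have h2 := hc02 s hs hsn
    have h3 : |s - t| ≤ L := by
      rw [abs_le]
      constructor <;> linarith [hs.1, hs.2, ht.1, ht.2]
    calc 1 / ((m : ℝ) + 1) * |s - t| ≤ (c0 / L) * L := by gcongr
      _ = c0 := by field_simp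
      _ ≤ _ := h2

theorem main {L : ℝ} (hL : 0 < L) {γ : ℝ → ℂ} (hγ : LipschitzWith 1 γ)
    (hd : ∀ᵐ s ∂(volume.restrict (Set.Icc (0 : ℝ) L)), ‖deriv γ s‖ = 1)
    (hinj : Set.InjOn γ (Set.Ico (0 : ℝ) L)) :
    ∃ Z : Set ℝ, Good L γ Z ∧ Z =ᵐ[volume] Set.Icc 0 L := by
  have hden := TopologicalSpace.denseRange_denseSeq Circle
  have hex : ∀ q : ℕ × ℕ × ℕ × ℕ, ∃ S : Set ℝ, MeasurableSet S ∧
      Good L γ ((Eset L γ (TopologicalSpace.denseSeq Circle q.1 : ℂ) (1 / ((q.2.1 : ℝ) + 1))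
        ∩ Gset L γ ((q.2.2.1 : ℝ) + 1)
        ∩ Set.Icc ((q.2.2.2 : ℝ) * (1 / ((q.2.1 : ℝ) + 1) / 2))
            ((q.2.2.2 : ℝ) * (1 / ((q.2.1 : ℝ) + 1) / 2) + 1 / ((q.2.1 : ℝ) + 1) / 2)) ∩ S) ∧
      volume (Set.Ioc 0 L \ S) = 0 := by
    intro q
    exact good_full_piece hL hγ (Circle.norm_coe _) (by positivity) (by positivity)
  choose S hSm hSg hSv using hex
  obtain ⟨e, he⟩ := exists_surjective_nat (ℕ × ℕ × ℕ × ℕ)
  set P : ℕ × ℕ × ℕ × ℕ → Set ℝ := fun q =>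
    (Eset L γ (TopologicalSpace.denseSeq Circle q.1 : ℂ) (1 / ((q.2.1 : ℝ) + 1))
        ∩ Gset L γ ((q.2.2.1 : ℝ) + 1)
        ∩ Set.Icc ((q.2.2.2 : ℝ) * (1 / ((q.2.1 : ℝ) + 1) / 2))
            ((q.2.2.2 : ℝ) * (1 / ((q.2.1 : ℝ) + 1) / 2) + 1 / ((q.2.1 : ℝ) + 1) / 2)) ∩ S q with hP
  refine ⟨⋃ k, P (e k), Good.iUnion _ (fun k => hSg (e k)), ?_⟩
  have hsub : (⋃ k, P (e k)) ⊆ Set.Icc 0 L := by
    intro t ht
    rw [Set.mem_iUnion] at ht
    obtain ⟨k, hk⟩ := ht
    exact hk.1.1.1.1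
  -- exceptional null sets
  have n1 : ∀ᵐ t : ℝ, ∀ q, t ∈ Set.Ioc 0 L → t ∈ S q := by
    rw [ae_all_iff]
    intro q
    rw [ae_iff]
    refine measure_mono_null ?_ (hSv q)
    intro t ht
    have ht2 : ¬ (t ∈ Set.Ioc 0 L → t ∈ S q) := ht
    push Not at ht2
    exact ⟨ht2.1, ht2.2⟩
  have n2 : ∀ᵐ t : ℝ, t ∈ Set.Icc 0 L → ‖deriv γ t‖ = 1 := by
    rwa [ae_restrict_iff' measurableSet_Icc] at hd
  have n3 : ∀ᵐ t : ℝ, t ∈ Set.Ico 0 L → γ t ≠ γ L := by
    rw [ae_iff]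
    have hss : Set.Subsingleton {t : ℝ | ¬ (t ∈ Set.Ico 0 L → γ t ≠ γ L)} := by
      intro a ha b hb
      have ha2 : ¬ (a ∈ Set.Ico 0 L → γ a ≠ γ L) := ha
      have hb2 : ¬ (b ∈ Set.Ico 0 L → γ b ≠ γ L) := hb
      push Not at ha2 hb2
      exact hinj ha2.1 hb2.1 (ha2.2.trans hb2.2.symm)
    exact hss.measure_zero _
  have n4 : ∀ᵐ t : ℝ, t ≠ 0 := by simp [ae_iff, measure_singleton]
  have n5 : ∀ᵐ t : ℝ, t ≠ L := by simp [ae_iff, measure_singleton]
  rw [eventuallyEq_set]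
  filter_upwards [n1, n2, n3, n4, n5] with t h1 h2 h3 h4 h5
  constructor
  · intro ht; exact hsub ht
  · intro ht
    have ht0 : t ∈ Set.Ioo 0 L := ⟨lt_of_le_of_ne ht.1 (Ne.symm h4), lt_of_le_of_ne ht.2 h5⟩
    obtain ⟨c, hc⟩ := point_in_piece hγ hinj ht0 (h3 ⟨ht.1, ht0.2⟩) (h2 ht)
    obtain ⟨j, hj⟩ : ∃ j, ‖(TopologicalSpace.denseSeq Circle j : ℂ) - (c : ℂ)‖ < 1 / 8 := by
      obtain ⟨j, hj⟩ := hden.exists_dist_lt c (show (0 : ℝ) < 1 / 8 by norm_num)
      refine ⟨j, ?_⟩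
      rw [← dist_eq_norm, dist_comm]
      exact hj
    obtain ⟨n, m, hE, hG⟩ := hc _ hj
    set d : ℝ := 1 / ((n : ℝ) + 1) / 2 with hdd
    have hdpos : 0 < d := by positivity
    set k := ⌊t / d⌋₊ with hk
    have hk1 : (k : ℝ) * d ≤ t := by
      have := Nat.floor_le (show 0 ≤ t / d by have := ht0.1; positivity)
      rwa [le_div_iff₀ hdpos] at this
    have hk2 : t ≤ (k : ℝ) * d + d := by
      have := Nat.lt_floor_add_one (t / d)
      rw [div_lt_iff₀ hdpos] at this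
      linarith
    obtain ⟨i, hi⟩ := he (j, n, m, k)
    refine Set.mem_iUnion.mpr ⟨i, ?_⟩
    rw [hi]
    exact ⟨⟨⟨hE, hG⟩, ⟨hk1, hk2⟩⟩, h1 _ ⟨ht0.1, ht0.2.le⟩⟩

end

end Pool.Agent.S02641.Aux

open MeasureTheory Filter Set
open scoped ENNReal
open Pool Pool.MP_1503c7_an

namespace Pool.Agent.S02641

/-- For every rectifiable Jordan curve of finite length, parametrized by arclength, there are a weight positive a.e. and a constant c such that the weighted L² norm of the principal-value Cauchy integral of f is at most c times the L² norm of f, for all f in L². -/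
theorem result :
    ∀ L : ℝ, 0 < L → ∀ γ : ℝ → ℂ, LipschitzWith 1 γ →
      (∀ᵐ s ∂(volume.restrict (Set.Icc (0 : ℝ) L)), ‖deriv γ s‖ = 1) →
      Set.InjOn γ (Set.Ico (0 : ℝ) L) →
      ∃ ω : ℝ → ℝ, Measurable ω ∧
        (∀ᵐ t ∂(volume.restrict (Set.Icc (0 : ℝ) L)), 0 < ω t) ∧
        ∃ c : ℝ≥0∞, c < ⊤ ∧
          ∀ f : ℝ → ℂ, MemLp f 2 (volume.restrict (Set.Icc (0 : ℝ) L)) →
            ∫⁻ t in Set.Icc (0 : ℝ) L,
                (Filter.limsup
                  (fun ε : ℝ =>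
                    ‖(2 * (Real.pi : ℂ) * Complex.I)⁻¹ *
                      ∫ s in {s : ℝ | s ∈ Set.Icc (0 : ℝ) L ∧ ε < ‖γ s - γ t‖},
                        f s * deriv γ s / (γ s - γ t)‖ₑ)
                  (nhdsWithin (0 : ℝ) (Set.Ioi 0))) ^ 2 * ENNReal.ofReal (ω t)
              ≤ c * ∫⁻ t in Set.Icc (0 : ℝ) L, ‖f t‖ₑ ^ 2 := by
  intro L hL γ hγ hd hinj
  obtain ⟨Z, ⟨_, ω, hω, hpos, c, hc, hb⟩, hZ⟩ := Aux.main hL hγ hd hinj
  rw [Measure.restrict_congr_set hZ] at hpos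
  refine ⟨ω, hω, hpos, c, hc, ?_⟩
  intro f hf
  have h := hb f hf
  rw [Measure.restrict_congr_set hZ] at h
  exact h

end Pool.Agent.S02641
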