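import Pool.Statements.S02644
import Pool.Agent.Helper957.TB.GK

set_option autoImplicit false
open Pool Pool.MP_151819_an

namespace Pool.Agent.S02644

/-- The negation of the preceding statement: For every scattered compact Hausdorff K, if C(K) has an equivalent strictly convex norm, then C(K) has an equivalent norm that is Gâteaux differentiable at every nonzero point. -/
theorem result :
    ¬ (∀ (K : Type) [TopologicalSpace K] [CompactSpace K] [T2Space K],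
      (∀ S : Set K, S.Nonempty → ∃ x ∈ S, ∃ U : Set K, IsOpen U ∧ U ∩ S = {x}) →
      (∃ N : C(K, ℝ) → ℝ,
          (∀ f g : C(K, ℝ), N (f + g) ≤ N f + N g) ∧
          (∀ (a : ℝ) (f : C(K, ℝ)), N (a • f) = |a| * N f) ∧
          (∃ c C : ℝ, 0 < c ∧ 0 < C ∧ ∀ f : C(K, ℝ), c * ‖f‖ ≤ N f ∧ N f ≤ C * ‖f‖) ∧
          (∀ f g : C(K, ℝ), N f = 1 → N g = 1 → f ≠ g → N (f + g) < 2)) →
      (∃ N : C(K, ℝ) → ℝ,
          (∀ f g : C(K, ℝ), N (f + g) ≤ N f + N g) ∧
          (∀ (a : ℝ) (f : C(K, ℝ)), N (a • f) = |a| * N f) ∧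
          (∃ c C : ℝ, 0 < c ∧ 0 < C ∧ ∀ f : C(K, ℝ), c * ‖f‖ ≤ N f ∧ N f ≤ C * ‖f‖) ∧
          (∀ f : C(K, ℝ), f ≠ 0 →
            ∃ L : C(K, ℝ) →L[ℝ] ℝ, ∀ v : C(K, ℝ), HasLineDerivAt ℝ N (L v) f v))) := by
  intro h
  obtain ⟨N, hadd, hsmul, ⟨c, C, hc, hC, hcC⟩, hder⟩ := h Pool.Agent.Helper957.TB.Tree.KK
    Pool.Agent.Helper957.TB.Tree.scatteredK
    ⟨Pool.Agent.Helper957.TB.Tree.rotK, Pool.Agent.Helper957.TB.Tree.rotK_add,
      Pool.Agent.Helper957.TB.Tree.rotK_smul, Pool.Agent.Helper957.TB.Tree.rotK_equiv,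
      Pool.Agent.Helper957.TB.Tree.rotK_strict⟩
  let J := Pool.Agent.Helper957.TB.Tree.JK
  have hJ : ∀ x, ‖J x‖ = ‖x‖ := Pool.Agent.Helper957.TB.Tree.norm_JK
  let p : Seminorm ℝ Pool.Agent.Helper957.TB.Tree.Y :=
    Seminorm.of (fun x => N (J x)) (fun x y => by rw [map_add]; exact hadd _ _)
      (fun a x => by rw [map_smul, hsmul, Real.norm_eq_abs])
  have hpdef : ∀ x, p x = N (J x) := fun x => rfl
  refine Pool.Agent.Helper957.TB.Tree.no_gateaux (p := p) (C := C) (a := c)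
    (fun x => ?_) hC.le hc (fun x => ?_) (fun x hx => ?_)
  · rw [hpdef, ← hJ x]; exact (hcC _).2
  · rw [hpdef, ← hJ x]; exact (hcC _).1
  · have hx' : J x ≠ 0 := by
      intro h0
      apply hx
      rw [← norm_eq_zero, ← hJ x, h0, norm_zero]
    obtain ⟨L, hL⟩ := hder (J x) hx'
    refine ⟨L.comp J, fun v => ?_⟩
    have h1 := hL (J v)
    have h2 : (fun t : ℝ => p (x + t • v)) = fun t : ℝ => N (J x + t • J v) := by
      funext t
      rw [hpdef, map_add, map_smul]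
    rw [h2]
    exact h1

end Pool.Agent.S02644
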