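import Pool.Statements.S02646

set_option autoImplicit false
open Polynomial
open Pool Pool.MP_15266c_an

namespace Pool.Agent.S02646

/-- roots of a real quadratic z^2 + 2 a z + d with a^2 < d : the value of |z^2+1|^2. -/
lemma quad_val (a d : ℝ) (had : a ^ 2 < d) (z : ℂ)
    (hz : z ^ 2 + (2 * a : ℝ) * z + (d : ℝ) = 0) :
    ‖z ^ 2 + 1‖ ^ 2 = (1 - d) ^ 2 + 4 * a ^ 2 := by
  obtain ⟨x, y⟩ := z
  have hre := congrArg Complex.re hz
  have him := congrArg Complex.im hz
  simp [pow_two] at hre him
  have hx : x = -a := by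
    have h1 : 2 * y * (x + a) = 0 := by linarith
    rcases mul_eq_zero.mp h1 with h | h
    · have hy : y = 0 := by linarith
      subst hy
      nlinarith [sq_nonneg (x + a)]
    · linarith
  subst hx
  have hy : y * y = d - a ^ 2 := by nlinarith
  rw [← Complex.normSq_eq_norm_sq, Complex.normSq_apply]
  simp [pow_two]
  have e1 : (a * a - y * y + 1) * (a * a - y * y + 1) = (2 * a ^ 2 - d + 1) ^ 2 := by
    rw [hy]; ring
  have e2 : (-(a * y) + -(y * a)) * (-(a * y) + -(y * a)) = 4 * a ^ 2 * (d - a ^ 2) := by
    have : (-(a * y) + -(y * a)) * (-(a * y) + -(y * a)) = 4 * a ^ 2 * (y * y) := by ring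
    rw [this, hy]
  rw [e1, e2]
  ring

/-- The polynomial `P` of degree five. -/
noncomputable def P : ℂ[X] :=
  (X ^ 2 + 1) * (X + C (1 / 7)) * (X ^ 2 + C (467 / 602) * X + C (207 / 602))

/-- The polynomial `Q` of degree two. -/
noncomputable def Q : ℂ[X] := C (40 / 41) * (X ^ 2 + 1)

/-- First factor of the derivative. -/
noncomputable def A : ℂ[X] := X ^ 2 + C (4 / 7) * X + C (1 / 7)

/-- Second factor of the derivative. -/
noncomputable def B : ℂ[X] := X ^ 2 + C (246 / 1505) * X + C (958 / 1505)

lemma natDegree_Q : Q.natDegree = 2 := by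
  unfold Q
  rw [natDegree_C_mul (by norm_num)]
  compute_degree!

lemma natDegree_P : P.natDegree = 5 := by
  unfold P
  compute_degree!

lemma natDegree_A : A.natDegree = 2 := by
  unfold A
  compute_degree!

lemma natDegree_B : B.natDegree = 2 := by
  unfold B
  compute_degree!

lemma derivative_P : derivative P = C 5 * (A * B) := by
  apply Polynomial.funext
  intro z
  simp [P, A, B]
  ring

theorem result :
    ¬ (∀ (P Q : Polynomial ℂ), 1 ≤ Q.natDegree → Q.natDegree < P.natDegree → Q ∣ P →
      (∀ z ∈ P.roots, ‖Q.eval z‖ ≤ 1) →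
      P.natDegree - Q.natDegree ≤
        (Multiset.filter (fun z => ‖Q.eval z‖ ≤ 1) (Polynomial.derivative P).roots).card) := by
  intro h
  have hA0 : A ≠ 0 := by
    intro h0; have := natDegree_A; rw [h0] at this; simp at this
  have hB0 : B ≠ 0 := by
    intro h0; have := natDegree_B; rw [h0] at this; simp at this
  have h1 := h P Q (by rw [natDegree_Q]; norm_num) (by rw [natDegree_Q, natDegree_P]; norm_num)
    ⟨C (41 / 40) * (X + C (1 / 7)) * (X ^ 2 + C (467 / 602) * X + C (207 / 602)), by
      apply Polynomial.funext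
      intro z
      simp [P, Q]
      ring⟩
    (by
      intro z hz
      have hz0 : P.eval z = 0 := (mem_roots'.mp hz).2
      simp only [P, eval_mul, eval_add, eval_pow, eval_X, eval_one, eval_C] at hz0
      have hQ : Q.eval z = (40 / 41) * (z ^ 2 + 1) := by simp [Q]
      rw [hQ, norm_mul]
      have hn : ‖(40 / 41 : ℂ)‖ = 40 / 41 := by norm_num
      rw [hn]
      have key : ‖z ^ 2 + 1‖ ^ 2 ≤ (41 / 40) ^ 2 := by
        rcases mul_eq_zero.mp hz0 with h2 | h2
        · rcases mul_eq_zero.mp h2 with h3 | h3
          · rw [h3]; norm_num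
          · have hz1 : z = ((-1 / 7 : ℝ) : ℂ) := by
              have : z = -(1 / 7) := by linear_combination h3
              rw [this]; push_cast; ring
            have : z ^ 2 + 1 = ((50 / 49 : ℝ) : ℂ) := by
              rw [hz1]; push_cast; ring
            rw [this, Complex.norm_real]
            norm_num
        · have := quad_val (467 / 1204) (207 / 602) (by norm_num) z (by
            push_cast
            linear_combination h2)
          rw [this]; norm_num
      have key2 : ‖z ^ 2 + 1‖ ≤ 41 / 40 := by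
        exact le_of_sq_le_sq key (by norm_num)
      linarith)
  rw [natDegree_P, natDegree_Q, derivative_P, roots_C_mul _ (by norm_num : (5 : ℂ) ≠ 0),
    roots_mul (mul_ne_zero hA0 hB0), Multiset.filter_add] at h1
  have hfA : Multiset.filter (fun z => ‖Q.eval z‖ ≤ 1) A.roots = 0 := by
    rw [Multiset.filter_eq_nil]
    intro z hz
    have hz0 : A.eval z = 0 := (mem_roots'.mp hz).2
    simp only [A, eval_mul, eval_add, eval_pow, eval_X, eval_C] at hz0
    have hQ : Q.eval z = (40 / 41) * (z ^ 2 + 1) := by simp [Q]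
    rw [hQ, norm_mul]
    have hn : ‖(40 / 41 : ℂ)‖ = 40 / 41 := by norm_num
    rw [hn]
    have := quad_val (2 / 7) (1 / 7) (by norm_num) z (by
            push_cast
            linear_combination hz0)
    intro hle
    have h3 : ‖z ^ 2 + 1‖ ≤ 41 / 40 := by linarith
    have h4 : ‖z ^ 2 + 1‖ ^ 2 ≤ (41 / 40) ^ 2 := by
      apply pow_le_pow_left₀ (norm_nonneg _) h3
    rw [this] at h4
    norm_num at h4
  rw [hfA, zero_add] at h1
  have h5 : (Multiset.filter (fun z => ‖Q.eval z‖ ≤ 1) B.roots).card ≤ 2 := by
    calc _ ≤ B.roots.card := Multiset.card_le_card (Multiset.filter_le _ _)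
      _ ≤ B.natDegree := card_roots' B
      _ = 2 := natDegree_B
  omega

end Pool.Agent.S02646
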