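import Pool.Statements.S02654
import Pool.Agent.Helper827.TreeSpace

set_option autoImplicit false
universe u
open Pool Pool.MP_160a79_an

namespace Pool.Agent.S02654

open Pool.Agent.Helper827.TreeSpace Filter Topology

section

variable {W : Type u} [LinearOrder W]

/-- probability vectors on good sets inside a node, all labels below `β` -/
def Pr (β : W) (t : (W → W × ℕ) × W) : Set (StrongDual ℝ (X (FamW W))) :=
  {v | ∃ F : Finset (W → W × ℕ), Good F ∧ Lab β F ∧ (∀ σ ∈ F, ∀ j, j < t.2 → σ j = t.1 j) ∧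
    ∃ a : (W → W × ℕ) → ℝ, (∀ σ ∈ F, 0 ≤ a σ) ∧ ∑ σ ∈ F, a σ = 1 ∧ v = ∑ σ ∈ F, a σ • cd (FamW W) σ}

theorem exists_indicator (e : (W → W × ℕ) → X (FamW W))
    (he : ∀ γ y, J (FamW W) y (e γ) = y γ) (F : Finset (W → W × ℕ)) (hF : Good F) :
    ‖∑ σ ∈ F, e σ‖ ≤ 2 := by
  have := norm_le_of_rho (FamW W) (∑ σ ∈ F, e σ) (C := 1) zero_le_one (by
    intro y
    rw [map_sum]
    simp only [he]
    calc |∑ σ ∈ F, y σ| ≤ ∑ σ ∈ F, |y σ| := Finset.abs_sum_le_sum_abs _ _
      _ ≤ rho (FamW W) y := le_rho (FamW W) y hF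
      _ = 1 * rho (FamW W) y := (one_mul _).symm)
  linarith

theorem main (hW : ∀ f : ℕ → W, ∃ w, ∀ n, f n < w) [Nonempty W]
    (N : StrongDual ℝ (X (FamW W)) → ℝ) (hadd : ∀ x y, N (x + y) ≤ N x + N y)
    (hsmul : ∀ (c : ℝ) x, N (c • x) = |c| * N x) (A B : ℝ) (hA : 0 < A) (hB : 0 < B)
    (hAB : ∀ x, A * ‖x‖ ≤ N x ∧ N x ≤ B * ‖x‖) :
    ∃ s : ℕ → StrongDual ℝ (X (FamW W)), (∀ n, N (s n) = 1) ∧
      Tendsto (fun p : ℕ × ℕ => N (s p.1 + s p.2)) atTop (𝓝 2) ∧
      ∃ c : ℝ, 0 < c ∧ ∀ n m, n ≠ m → c ≤ ‖s n - s m‖ := by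
  classical
  obtain ⟨w0⟩ := ‹Nonempty W›
  choose e he using exists_e (FamW W) singW
  have hcd : ∀ γ σ, cd (FamW W) γ (e σ) = if σ = γ then 1 else 0 := by
    intro γ σ
    rw [cd, he, Finsupp.single_apply]
    simp only [eq_comm]
  have hcdn : ∀ γ, ‖cd (FamW W) γ‖ ≤ 2 := fun γ =>
    ContinuousLinearMap.opNorm_le_bound _ (by norm_num) (fun z => cd_bound (FamW W) γ z)
  have hnorm1 : ∀ β t, ∀ v ∈ Pr (W := W) β t, ‖v‖ ≤ 2 := by
    rintro β t v ⟨F, hF, _, _, a, ha, ha1, rfl⟩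
    calc ‖∑ σ ∈ F, a σ • cd (FamW W) σ‖ ≤ ∑ σ ∈ F, ‖a σ • cd (FamW W) σ‖ := norm_sum_le _ _
      _ ≤ ∑ σ ∈ F, a σ * 2 := Finset.sum_le_sum fun σ hσ => by
          rw [norm_smul, Real.norm_of_nonneg (ha σ hσ)]
          exact mul_le_mul_of_nonneg_left (hcdn σ) (ha σ hσ)
      _ = 2 := by rw [← Finset.sum_mul, ha1, one_mul]
  have hev : ∀ (F G : Finset (W → W × ℕ)) (a : (W → W × ℕ) → ℝ),
      (∑ σ ∈ F, a σ • cd (FamW W) σ) (∑ τ ∈ G, e τ) = ∑ σ ∈ F, if σ ∈ G then a σ else 0 := by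
    intro F G a
    rw [map_sum]
    have : ∀ τ ∈ G, (∑ σ ∈ F, a σ • cd (FamW W) σ) (e τ) = ∑ σ ∈ F, a σ * (if τ = σ then 1 else 0) := by
      intro τ _
      rw [_root_.sum_apply]
      exact Finset.sum_congr rfl fun σ _ => by rw [ContinuousLinearMap.smul_apply, hcd, smul_eq_mul]
    rw [Finset.sum_congr rfl this, Finset.sum_comm]
    refine Finset.sum_congr rfl fun σ _ => ?_
    rw [← Finset.mul_sum, Finset.sum_ite_eq' G σ]
    split_ifs <;> simp
  have hnorm2 : ∀ β t, ∀ v ∈ Pr (W := W) β t, 1 / 2 ≤ ‖v‖ := by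
    rintro β t v ⟨F, hF, _, _, a, ha, ha1, rfl⟩
    have h1 := hev F F a
    have h2 : ∑ σ ∈ F, (if σ ∈ F then a σ else 0) = 1 := by
      rw [← ha1]; exact Finset.sum_congr rfl fun σ hσ => if_pos hσ
    rw [h2] at h1
    have h3 := (∑ σ ∈ F, a σ • cd (FamW W) σ).le_opNorm (∑ τ ∈ F, e τ)
    rw [h1, norm_one] at h3
    have h4 := exists_indicator e he F hF
    have h5 := norm_nonneg (∑ σ ∈ F, a σ • cd (FamW W) σ)
    nlinarith
  have hne : ∀ β t, (Pr (W := W) β t).Nonempty := fun β t =>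
    ⟨cd (FamW W) t.1, {t.1}, good_singleton _, lab_singleton _ _,
      fun σ hσ j _ => by rw [Finset.mem_singleton.1 hσ], fun _ => 1, fun _ _ => zero_le_one,
      by simp, by simp⟩
  have hlo : ∀ β t, ∀ v ∈ Pr (W := W) β t, A / 2 ≤ N v := fun β t v hv => by
    have h1 := hnorm2 β t v hv
    have h2 := (hAB v).1
    nlinarith
  have hup : ∀ β t, ∀ v ∈ Pr (W := W) β t, N v ≤ 2 * B := fun β t v hv => by
    have h1 := hnorm1 β t v hv
    have h2 := (hAB v).2
    nlinarith
  let K : W → (W → W × ℕ) × W → ℝ := fun β t => sSup ((fun v => -N v) '' Pr β t)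
  have hbdd : ∀ β t, BddAbove ((fun v => -N v) '' Pr (W := W) β t) := fun β t => ⟨0, by
    rintro _ ⟨v, hv, rfl⟩
    have := hlo β t v hv
    simp only; linarith⟩
  have hKle : ∀ β t, ∀ v ∈ Pr (W := W) β t, -N v ≤ K β t := fun β t v hv => le_csSup (hbdd β t) ⟨v, hv, rfl⟩
  obtain ⟨κ, β, β', t1, hκ, hββ', hK1, hK2⟩ := stable NodeLE NodeLE.refl'
    (fun _ _ _ h1 h2 => NodeLE.trans' h1 h2) (node_closed hW) w0 hW K
    (by
      intro β β' t h
      apply csSup_le ((hne β t).image _)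
      rintro _ ⟨x, ⟨F, h2, h3, h4⟩, rfl⟩
      exact hKle β' t x ⟨F, h2, fun σ hσ τ hτ i hi => (h3 σ hσ τ hτ i hi).trans_le h, h4⟩)
    (by
      intro β t t' h
      apply csSup_le ((hne β t').image _)
      rintro _ ⟨x, ⟨F, h2, h3, h4, h5⟩, rfl⟩
      exact hKle β t x ⟨F, h2, h3, fun σ hσ j hj =>
        (h4 σ hσ j (hj.trans_le h.1)).trans (h.2 j hj), h5⟩)
    (-(2 * B)) (-(A / 2))
    (by
      intro β t
      obtain ⟨x, hx⟩ := hne β t
      have := hup β t x hx
      exact (show -(2 * B) ≤ -N x by linarith).trans (hKle β t x hx))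
    (by
      intro β t
      apply csSup_le ((hne β t).image _)
      rintro _ ⟨x, hx, rfl⟩
      have := hlo β t x hx
      simp only; linarith)
    ((fun _ => (w0, 0)), w0)
  have hk0 : A / 2 ≤ -κ := by
    have h1 := hK1 t1 (NodeLE.refl' t1)
    have h2 : K β t1 ≤ -(A / 2) := by
      apply csSup_le ((hne β t1).image _)
      rintro _ ⟨x, hx, rfl⟩
      have := hlo β t1 x hx
      simp only; linarith
    linarith
  set k : ℝ := -κ with hk
  have hkpos : 0 < k := by linarith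
  have hlow : ∀ v ∈ Pr β' t1, k ≤ N v := fun v hv => by
    have := (hKle β' t1 v hv).trans hK2
    linarith
  obtain ⟨i', hi'⟩ := hW fun _ => t1.2
  have hi' := hi' 0
  let ch : ℕ → (W → W × ℕ) × W := fun n => (Function.update t1.1 t1.2 (β, n), i')
  have hch : ∀ n, NodeLE (ch n) t1 := fun n => by
    refine ⟨hi'.le, fun j hj => ?_⟩
    simp only [ch]
    rw [Function.update_of_ne hj.ne]
  have hsel : ∀ n : ℕ, ∃ v ∈ Pr β (ch n), N v < k + 1 / ((n : ℝ) + 1) := by
    intro n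
    have h1 : κ - 1 / ((n : ℝ) + 1) < sSup ((fun v => -N v) '' Pr β (ch n)) := by
      have h2 := hK1 (ch n) (hch n)
      have h3 : (0:ℝ) < 1 / ((n : ℝ) + 1) := by positivity
      have h4 : κ ≤ sSup ((fun v => -N v) '' Pr β (ch n)) := h2
      linarith
    obtain ⟨_, ⟨x, hx, rfl⟩, hlt⟩ := exists_lt_of_lt_csSup ((hne β (ch n)).image _) h1
    exact ⟨x, hx, by simp only at hlt; linarith⟩
  choose v hvPr hvN using hsel
  -- the data of `v n`
  choose F hF2 hF3 hF4 a ha ha1 hv using hvPr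
  have cF : ∀ n, ∀ σ ∈ F n, (∀ j, j < t1.2 → σ j = t1.1 j) ∧ σ t1.2 = (β, n) := fun n σ hσ => by
    refine ⟨fun j hj => ?_, ?_⟩
    · rw [hF4 n σ hσ j (hj.trans hi')]; simp only [ch]; rw [Function.update_of_ne hj.ne]
    · rw [hF4 n σ hσ _ hi']; simp only [ch]; rw [Function.update_self]
  have hdisj : ∀ n m, n ≠ m → Disjoint (F n) (F m) := by
    intro n m hnm
    rw [Finset.disjoint_left]
    intro σ h1 h2
    have := (cF n σ h1).2.symm.trans (cF m σ h2).2
    exact hnm (Prod.ext_iff.1 this).2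
  -- convex combinations of two of the vectors
  have hconv : ∀ n m, n ≠ m → ∀ r s : ℝ, 0 ≤ r → 0 ≤ s → r + s = 1 →
      r • v n + s • v m ∈ Pr β' t1 := by
    intro n m hnm r s hr hs hrs
    have hvne : ((β, n) : W × ℕ) ≠ (β, m) := fun h => hnm (Prod.ext_iff.1 h).2
    obtain ⟨hgood, hlab⟩ := union_good hββ' (hF2 n) (hF2 m) (hF3 n) (hF3 m) t1.1 t1.2 (β, n) (β, m)
      rfl rfl hvne (cF n) (cF m)
    have hd := hdisj n m hnm
    refine ⟨F n ∪ F m, hgood, hlab, ?_, fun σ => if σ ∈ F n then r * a n σ else s * a m σ, ?_, ?_, ?_⟩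
    · intro σ hσ j hj
      rcases Finset.mem_union.1 hσ with h | h
      · exact (cF n σ h).1 j hj
      · exact (cF m σ h).1 j hj
    · intro σ hσ
      simp only
      split_ifs with h
      · exact mul_nonneg hr (ha n σ h)
      · exact mul_nonneg hs (ha m σ ((Finset.mem_union.1 hσ).resolve_left h))
    · rw [Finset.sum_union hd]
      have h1 : ∑ σ ∈ F n, (if σ ∈ F n then r * a n σ else s * a m σ) = r := by
        rw [Finset.sum_congr rfl fun σ hσ => if_pos hσ, ← Finset.mul_sum, ha1, mul_one]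
      have h2 : ∑ σ ∈ F m, (if σ ∈ F n then r * a n σ else s * a m σ) = s := by
        rw [Finset.sum_congr rfl fun σ hσ => if_neg (Finset.disjoint_right.1 hd hσ), ← Finset.mul_sum,
          ha1, mul_one]
      rw [h1, h2, hrs]
    · rw [Finset.sum_union hd, hv n, hv m, Finset.smul_sum, Finset.smul_sum]
      congr 1
      · refine Finset.sum_congr rfl fun σ hσ => ?_
        simp only
        rw [if_pos hσ, smul_smul]
      · refine Finset.sum_congr rfl fun σ hσ => ?_
        simp only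
        rw [if_neg (Finset.disjoint_right.1 hd hσ), smul_smul]
  have hvk : ∀ n, k ≤ N (v n) := fun n => by
    have := hlow _ (hconv n (n + 1) (by omega) 1 0 zero_le_one le_rfl (by ring))
    rwa [one_smul, zero_smul, add_zero] at this
  have hvpos : ∀ n, 0 < N (v n) := fun n => hkpos.trans_le (hvk n)
  let s : ℕ → StrongDual ℝ (X (FamW W)) := fun n => (N (v n))⁻¹ • v n
  have hsN : ∀ n, N (s n) = 1 := fun n => by
    simp only [s]
    rw [hsmul, abs_of_pos (inv_pos.2 (hvpos n)), inv_mul_cancel₀ (hvpos n).ne']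
  have hslow : ∀ n m, k * (N (v n))⁻¹ + k * (N (v m))⁻¹ ≤ N (s n + s m) := by
    intro n m
    rcases eq_or_ne n m with h | h
    · subst h
      have h1 : s n + s n = (2:ℝ) • s n := (two_smul ℝ _).symm
      rw [h1, hsmul, hsN]
      have h2 : k * (N (v n))⁻¹ ≤ 1 := by
        rw [← div_eq_mul_inv, div_le_one (hvpos n)]; exact hvk n
      norm_num; linarith
    · set p := (N (v n))⁻¹ with hp
      set q := (N (v m))⁻¹ with hq
      have hp0 : 0 < p := inv_pos.2 (hvpos n)
      have hq0 : 0 < q := inv_pos.2 (hvpos m)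
      have h1 : s n + s m = (p + q) • ((p / (p + q)) • v n + (q / (p + q)) • v m) := by
        simp only [s]
        rw [smul_add, smul_smul, smul_smul, mul_div_cancel₀ _ (by positivity),
          mul_div_cancel₀ _ (by positivity)]
      rw [h1, hsmul, abs_of_pos (by positivity)]
      have h2 := hlow _ (hconv n m h (p / (p + q)) (q / (p + q)) (by positivity) (by positivity)
        (by rw [← add_div, div_self (by positivity)]))
      calc k * p + k * q = (p + q) * k := by ring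
        _ ≤ _ := mul_le_mul_of_nonneg_left h2 (by positivity)
  have hinv : Tendsto (fun n => k * (N (v n))⁻¹) atTop (𝓝 1) := by
    have h1 : Tendsto (fun n => N (v n)) atTop (𝓝 k) := by
      refine tendsto_of_tendsto_of_tendsto_of_le_of_le tendsto_const_nhds (g := fun _ => k)
        (h := fun n : ℕ => k + 1 / ((n : ℝ) + 1)) ?_ hvk (fun n => (hvN n).le)
      have h2 := (tendsto_one_div_add_atTop_nhds_zero_nat (𝕜 := ℝ)).const_add k
      rwa [add_zero] at h2
    have h3 := (h1.inv₀ hkpos.ne').const_mul k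
    rwa [mul_inv_cancel₀ hkpos.ne'] at h3
  refine ⟨s, hsN, ?_, 1 / (2 * (k + 1)), by positivity, ?_⟩
  · have h1 : Tendsto (fun p : ℕ × ℕ => k * (N (v p.1))⁻¹ + k * (N (v p.2))⁻¹) atTop (𝓝 2) := by
      rw [← prod_atTop_atTop_eq]
      have := (hinv.comp (tendsto_fst (f := atTop) (g := atTop (α := ℕ)))).add
        (hinv.comp (tendsto_snd (f := atTop (α := ℕ)) (g := atTop)))
      norm_num at this
      exact this
    refine tendsto_of_tendsto_of_tendsto_of_le_of_le h1 (tendsto_const_nhds (x := (2:ℝ)))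
      (fun p => hslow p.1 p.2) (fun p => ?_)
    have := hadd (s p.1) (s p.2)
    rw [hsN, hsN] at this
    linarith
  · intro n m hnm
    have h1 : (s n - s m) (∑ τ ∈ F n, e τ) = (N (v n))⁻¹ := by
      have h2 : v n (∑ τ ∈ F n, e τ) = 1 := by
        rw [hv n, hev, ← ha1 n]
        exact Finset.sum_congr rfl fun σ hσ => if_pos hσ
      have h3 : v m (∑ τ ∈ F n, e τ) = 0 := by
        rw [hv m, hev]
        exact Finset.sum_eq_zero fun σ hσ => if_neg (Finset.disjoint_right.1 (hdisj n m hnm) hσ)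
      change (N (v n))⁻¹ • (v n (∑ τ ∈ F n, e τ)) - (N (v m))⁻¹ • (v m (∑ τ ∈ F n, e τ)) = _
      rw [h2, h3]; simp
    have h4 := (s n - s m).le_opNorm (∑ τ ∈ F n, e τ)
    rw [h1, Real.norm_of_nonneg (inv_pos.2 (hvpos n)).le] at h4
    have h5 := exists_indicator e he (F n) (hF2 n)
    have h6 := norm_nonneg (s n - s m)
    have h7 : (N (v n))⁻¹ ≤ ‖s n - s m‖ * 2 := h4.trans (mul_le_mul_of_nonneg_left h5 h6)
    have h8 : 1 / (k + 1) ≤ (N (v n))⁻¹ := by
      rw [one_div]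
      apply inv_anti₀ (hvpos n)
      have h9 := hvN n
      have h10 : 1 / ((n : ℝ) + 1) ≤ 1 := by
        rw [div_le_one (by positivity)]
        have : (0:ℝ) ≤ n := Nat.cast_nonneg _
        linarith
      linarith
    have h11 : 1 / (2 * (k + 1)) = 1 / (k + 1) / 2 := by
      rw [div_div, mul_comm]
    rw [h11]
    linarith

theorem not_separable (hW : ∀ f : ℕ → W, ∃ w, ∀ n, f n < w) [Nonempty W] :
    ¬ TopologicalSpace.SeparableSpace (StrongDual ℝ (X (FamW W))) := by
  classical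
  intro hsep
  choose e he using exists_e (FamW W) singW
  have hcd : ∀ γ σ, cd (FamW W) γ (e σ) = if σ = γ then 1 else 0 := by
    intro γ σ
    rw [cd, he, Finsupp.single_apply]
    simp only [eq_comm]
  have hen : ∀ σ, ‖e σ‖ ≤ 2 := fun σ => by
    have := exists_indicator e he {σ} (good_singleton σ)
    rwa [Finset.sum_singleton] at this
  have hdist : ∀ γ δ, γ ≠ δ → 1 / 2 ≤ ‖cd (FamW W) γ - cd (FamW W) δ‖ := by
    intro γ δ h
    have h1 : (cd (FamW W) γ - cd (FamW W) δ) (e γ) = 1 := by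
      change cd (FamW W) γ (e γ) - cd (FamW W) δ (e γ) = 1
      rw [hcd, hcd, if_pos rfl, if_neg h, sub_zero]
    have h2 := (cd (FamW W) γ - cd (FamW W) δ).le_opNorm (e γ)
    rw [h1, norm_one] at h2
    have h3 := hen γ
    have h4 := norm_nonneg (cd (FamW W) γ - cd (FamW W) δ)
    nlinarith
  have hcount : (Set.univ : Set (W → W × ℕ)).Countable := by
    apply Set.PairwiseDisjoint.countable_of_isOpen
      (s := fun γ => Metric.ball (cd (FamW W) γ) (1 / 4)) (a := Set.univ)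
    · intro γ _ δ _ h
      apply Metric.ball_disjoint_ball
      rw [dist_eq_norm]
      have := hdist γ δ h
      linarith
    · intro γ _; exact Metric.isOpen_ball
    · intro γ _; exact ⟨_, Metric.mem_ball_self (by norm_num)⟩
  have hinj : Function.Injective (fun w : W => (fun _ => (w, 0) : W → W × ℕ)) := by
    intro w w' h
    have := congrFun h w
    exact (Prod.ext_iff.1 this).1
  have hcW : Countable W := by
    have h1 : Countable (W → W × ℕ) := Set.countable_univ_iff.1 hcount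
    exact hinj.countable
  obtain ⟨f, hf⟩ := exists_surjective_nat W
  obtain ⟨w, hw⟩ := hW f
  obtain ⟨n, hn⟩ := hf w
  exact lt_irrefl _ (hn ▸ hw n)

end

/-- The negation of the preceding statement: Every nonseparable reflexive real Banach space has an equivalent norm N such that any sequence with N(x_n)=1 and N(x_n+x_m) tending to 2 as n,m go to infinity is convergent. -/
theorem result :
    ¬ (∀ (X : Type u) [NormedAddCommGroup X] [NormedSpace ℝ X] [CompleteSpace X],
      Function.Surjective (NormedSpace.inclusionInDoubleDual ℝ X) →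
      ¬ TopologicalSpace.SeparableSpace X →
      ∃ N : X → ℝ,
        (∀ x y : X, N (x + y) ≤ N x + N y) ∧
        (∀ (c : ℝ) (x : X), N (c • x) = |c| * N x) ∧
        (∃ a b : ℝ, 0 < a ∧ 0 < b ∧ ∀ x : X, a * ‖x‖ ≤ N x ∧ N x ≤ b * ‖x‖) ∧
        ∀ s : ℕ → X, (∀ n, N (s n) = 1) →
          Filter.Tendsto (fun p : ℕ × ℕ => N (s p.1 + s p.2)) Filter.atTop (nhds 2) →
          ∃ x : X, Filter.Tendsto s Filter.atTop (nhds x)) := by
  intro H
  have hne : Nonempty (Ordinal.omega.{u} 1).ToType := by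
    rw [Ordinal.nonempty_toType_iff]; exact (Ordinal.omega_pos 1).ne'
  obtain ⟨N, hadd, hsmul, ⟨a, b, ha, hb, hab⟩, h⟩ :=
    H (StrongDual ℝ (Helper827.TreeSpace.X (FamW (Ordinal.omega.{u} 1).ToType)))
      (dual_reflexive _ (reflexive _ singW starW)) (not_separable bounded_omega1)
  obtain ⟨s, hs1, hs2, c, hc, hs3⟩ := main bounded_omega1 N hadd hsmul a b ha hb hab
  obtain ⟨x, hx⟩ := h s hs1 hs2
  obtain ⟨M, hM⟩ := Metric.cauchySeq_iff.1 hx.cauchySeq c hc
  have h1 := hM M le_rfl (M + 1) (by omega)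
  rw [dist_eq_norm] at h1
  exact absurd (hs3 M (M + 1) (by omega)) (not_le.2 h1)

end Pool.Agent.S02654
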