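import Pool.Statements.S02657

set_option autoImplicit false
open Filter Topology

namespace Pool.Agent.Helper830.RA

/-! ### Closure operators with countably many binary operations -/

section Closure

variable {E I : Type} (op : I → E → E → E)

inductive Cl (S : Set E) : E → Prop
  | base {x : E} (h : x ∈ S) : Cl S x
  | app (i : I) {x y : E} (hx : Cl S x) (hy : Cl S y) : Cl S (op i x y)

variable {op}

lemma Cl.mono {S S' : Set E} (h : S ⊆ S') {x : E} (hx : Cl op S x) : Cl op S' x := by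
  induction hx with
  | base h1 => exact Cl.base (h h1)
  | app i _ _ ih1 ih2 => exact Cl.app i ih1 ih2

lemma Cl.directed {J : Type} [Nonempty J] {S : J → Set E} (hd : Directed (· ⊆ ·) S) {x : E}
    (hx : Cl op (⋃ j, S j) x) : ∃ j, Cl op (S j) x := by
  induction hx with
  | base h1 =>
    obtain ⟨j, hj⟩ := Set.mem_iUnion.mp h1
    exact ⟨j, Cl.base hj⟩
  | app i _ _ ih1 ih2 =>
    obtain ⟨j1, h1⟩ := ih1
    obtain ⟨j2, h2⟩ := ih2
    obtain ⟨j, hj1, hj2⟩ := hd j1 j2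
    exact ⟨j, Cl.app i (h1.mono hj1) (h2.mono hj2)⟩

def Ar (S : Set E) (I : Type) : ↥S ⊕ I → Type
  | Sum.inl _ => Empty
  | Sum.inr _ => Bool

instance (S : Set E) (a : ↥S ⊕ I) : Finite (Ar S I a) := by
  cases a
  · exact inferInstanceAs (Finite Empty)
  · exact inferInstanceAs (Finite Bool)

def evalStep (op : I → E → E → E) (S : Set E) : (Σ a : ↥S ⊕ I, Ar S I a → E) → E
  | ⟨Sum.inl s, _⟩ => s.1
  | ⟨Sum.inr i, f⟩ => op i (f true) (f false)

lemma card_Cl [Countable I] (S : Set E) :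
    Cardinal.mk {x | Cl op S x} ≤ max (Cardinal.mk ↥S) Cardinal.aleph0 := by
  have h1 : {x | Cl op S x} ⊆ Set.range (WType.elim E (evalStep op S)) := by
    intro x hx
    have hx' : Cl op S x := hx
    clear hx
    induction hx' with
    | base h => exact ⟨WType.mk (Sum.inl ⟨_, h⟩) (fun z => z.elim), rfl⟩
    | app i _ _ ih1 ih2 =>
      obtain ⟨w1, h1⟩ := ih1
      obtain ⟨w2, h2⟩ := ih2
      refine ⟨WType.mk (Sum.inr i) (fun z => match z with | true => w1 | false => w2), ?_⟩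
      show op i (WType.elim E (evalStep op S) w1) (WType.elim E (evalStep op S) w2) = _
      rw [h1, h2]
  calc Cardinal.mk {x | Cl op S x} ≤ Cardinal.mk (Set.range (WType.elim E (evalStep op S))) :=
        Cardinal.mk_le_mk_of_subset h1
    _ ≤ Cardinal.mk (WType (Ar S I)) := Cardinal.mk_range_le
    _ ≤ max (Cardinal.mk (↥S ⊕ I)) Cardinal.aleph0 := WType.cardinalMk_le_max_aleph0_of_finite
    _ ≤ max (Cardinal.mk ↥S) Cardinal.aleph0 := by
        rw [Cardinal.mk_sum, Cardinal.lift_id, Cardinal.lift_id]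
        apply max_le _ (le_max_right _ _)
        refine (Cardinal.add_le_max _ _).trans ?_
        have : Cardinal.mk I ≤ Cardinal.aleph0 := Cardinal.mk_le_aleph0
        exact max_le (max_le (le_max_left _ _) (this.trans (le_max_right _ _))) (le_max_right _ _)

end Closure

/-! ### Separation -/

section Sep

variable {E : Type} [NormedAddCommGroup E] [NormedSpace ℝ E]

lemma exists_sep (M : Submodule ℝ E) (hM : IsClosed (M : Set E)) (x : E) (hx : x ∉ M) :
    ∃ f : StrongDual ℝ E, (∀ m ∈ M, f m = 0) ∧ f x ≠ 0 := by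
  obtain ⟨f, u, h1, h2⟩ := geometric_hahn_banach_closed_point M.convex hM hx
  have hu : 0 < u := by
    have := h1 0 M.zero_mem
    simpa using this
  have hz : ∀ m ∈ M, f m = 0 := by
    intro m hm
    by_contra hne
    have h3 := h1 ((u / f m) • m) (M.smul_mem _ hm)
    rw [map_smul, smul_eq_mul, div_mul_cancel₀ _ hne] at h3
    exact lt_irrefl _ h3
  refine ⟨f, hz, ?_⟩
  intro h
  rw [h] at h2
  linarith

/-- closure of a rational subspace -/
def clSub (A : Set E) (h0 : (0 : E) ∈ A) (hadd : ∀ x ∈ A, ∀ y ∈ A, x + y ∈ A)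
    (hsmul : ∀ (q : ℚ), ∀ x ∈ A, (q : ℝ) • x ∈ A) : Submodule ℝ E where
  carrier := closure A
  zero_mem' := subset_closure h0
  add_mem' := by
    intro x y hx hy
    exact map_mem_closure₂ continuous_add hx hy hadd
  smul_mem' := by
    intro c x hx
    have h1 : ∀ q : ℚ, (q : ℝ) • x ∈ closure A := fun q =>
      map_mem_closure (continuous_const_smul (q : ℝ)) hx (hsmul q)
    have h2 : c ∈ closure (Set.range ((↑) : ℚ → ℝ)) := Rat.denseRange_cast c
    have h3 : Continuous (fun t : ℝ => t • x) := continuous_id.smul continuous_const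
    have h4 : c • x ∈ closure ((fun t : ℝ => t • x) '' Set.range ((↑) : ℚ → ℝ)) :=
      image_closure_subset_closure_image h3 ⟨c, h2, rfl⟩
    refine closure_minimal ?_ isClosed_closure h4
    rintro _ ⟨_, ⟨q, rfl⟩, rfl⟩
    exact h1 q

end Sep

section GoodPair

variable {X : Type} [NormedAddCommGroup X] [NormedSpace ℝ X]

structure Good (A : Set X) (B : Set (StrongDual ℝ X)) : Prop where
  zeroA : (0 : X) ∈ A
  addA : ∀ x ∈ A, ∀ y ∈ A, x + y ∈ A
  smulA : ∀ (q : ℚ), ∀ x ∈ A, (q : ℝ) • x ∈ A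
  zeroB : (0 : StrongDual ℝ X) ∈ B
  addB : ∀ x ∈ B, ∀ y ∈ B, x + y ∈ B
  smulB : ∀ (q : ℚ), ∀ x ∈ B, (q : ℝ) • x ∈ B
  norming : ∀ x ∈ A, ∃ f ∈ B, ‖f‖ ≤ 1 ∧ f x = ‖x‖
  sep : ∀ f ∈ B, ∃ x ∈ A, ‖x‖ ≤ 1 ∧ ‖f‖ ≤ 2 * f x

namespace Good

variable {A : Set X} {B : Set (StrongDual ℝ X)} (hG : Good A B)

include hG in
lemma norm_le {y x : X} (hy : y ∈ closure A) (h : ∀ f ∈ B, f y = f x) : ‖y‖ ≤ ‖x‖ := by
  apply le_of_forall_pos_le_add
  intro δ hδ
  obtain ⟨a, ha, hya⟩ := Metric.mem_closure_iff.mp hy (δ / 2) (by positivity)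
  obtain ⟨f, hf, hf1, hf2⟩ := hG.norming a ha
  rw [dist_eq_norm] at hya
  have h1 : ‖a‖ = f (a - y) + f x := by
    rw [map_sub, h f hf, ← hf2]; ring
  have h2 : f (a - y) ≤ δ / 2 := by
    calc f (a - y) ≤ |f (a - y)| := le_abs_self _
      _ ≤ ‖f‖ * ‖a - y‖ := f.le_opNorm _
      _ ≤ 1 * ‖a - y‖ := mul_le_mul_of_nonneg_right hf1 (norm_nonneg _)
      _ ≤ δ / 2 := by rw [one_mul, norm_sub_rev]; exact hya.le
  have h3 : f x ≤ ‖x‖ := by
    calc f x ≤ |f x| := le_abs_self _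
      _ ≤ ‖f‖ * ‖x‖ := f.le_opNorm _
      _ ≤ 1 * ‖x‖ := mul_le_mul_of_nonneg_right hf1 (norm_nonneg _)
      _ = ‖x‖ := one_mul _
  have h4 : ‖y‖ ≤ ‖y - a‖ + ‖a‖ := by
    have : y = (y - a) + a := by abel
    calc ‖y‖ = ‖(y - a) + a‖ := by rw [← this]
      _ ≤ _ := norm_add_le _ _
  linarith

include hG in
lemma eq_of {y y' : X} (hy : y ∈ closure A) (hy' : y' ∈ closure A) (h : ∀ f ∈ B, f y = f y') :
    y = y' := by
  let M := clSub A hG.zeroA hG.addA hG.smulA
  have h1 : y - y' ∈ M := M.sub_mem hy hy'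
  have h2 := hG.norm_le (x := 0) h1 (by
    intro f hf
    rw [map_sub, h f hf, sub_self, map_zero])
  rw [norm_zero] at h2
  exact sub_eq_zero.mp (norm_le_zero_iff.mp h2)

include hG in
lemma mem_closureB (hr : Function.Surjective (NormedSpace.inclusionInDoubleDual ℝ X))
    (g : StrongDual ℝ X) (h : ∀ v, (∀ f ∈ B, f v = 0) → g v = 0) : g ∈ closure B := by
  by_contra hcon
  let M := clSub B hG.zeroB hG.addB hG.smulB
  obtain ⟨Φ, h1, h2⟩ := exists_sep M isClosed_closure g hcon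
  obtain ⟨x, rfl⟩ := hr Φ
  apply h2
  rw [NormedSpace.dual_def]
  apply h
  intro f hf
  have := h1 f (subset_closure hf)
  rwa [NormedSpace.dual_def] at this

include hG in
lemma exists_proj [CompleteSpace X]
    (hr : Function.Surjective (NormedSpace.inclusionInDoubleDual ℝ X)) (x : X) :
    ∃ y ∈ closure A, ∀ f ∈ B, f y = f x := by
  let MA := clSub A hG.zeroA hG.addA hG.smulA
  let M : Submodule ℝ X :=
    { carrier := {x | ∃ y ∈ MA, ∀ f ∈ B, f y = f x}
      zero_mem' := ⟨0, MA.zero_mem, fun _ _ => rfl⟩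
      add_mem' := by
        rintro x x' ⟨y, hy, h⟩ ⟨y', hy', h'⟩
        exact ⟨y + y', MA.add_mem hy hy', fun f hf => by rw [map_add, map_add, h f hf, h' f hf]⟩
      smul_mem' := by
        rintro c x ⟨y, hy, h⟩
        exact ⟨c • y, MA.smul_mem c hy, fun f hf => by rw [map_smul, map_smul, h f hf]⟩ }
  have hMmem : ∀ x, x ∈ M ↔ ∃ y ∈ MA, ∀ f ∈ B, f y = f x := fun x => Iff.rfl
  have hclosed : IsClosed (M : Set X) := by
    rw [← isSeqClosed_iff_isClosed]
    intro xs x0 hxs hlim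
    choose ys hys1 hys2 using fun n => (hMmem _).mp (hxs n)
    have hcau : CauchySeq ys := by
      rw [Metric.cauchySeq_iff]
      intro ε hε
      obtain ⟨N, hN⟩ := Metric.cauchySeq_iff.mp hlim.cauchySeq ε hε
      refine ⟨N, fun m hm n hn => ?_⟩
      refine lt_of_le_of_lt ?_ (hN m hm n hn)
      rw [dist_eq_norm, dist_eq_norm]
      apply hG.norm_le (MA.sub_mem (hys1 m) (hys1 n))
      intro f hf
      rw [map_sub, map_sub, hys2 m f hf, hys2 n f hf]
    obtain ⟨y0, hy0⟩ := cauchySeq_tendsto_of_complete hcau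
    refine (hMmem _).mpr ⟨y0, ?_, ?_⟩
    · exact isClosed_closure.mem_of_tendsto hy0 (Filter.Eventually.of_forall hys1)
    · intro f hf
      have e1 : Tendsto (fun n => f (ys n)) atTop (𝓝 (f y0)) := (f.continuous.tendsto _).comp hy0
      have e2 : Tendsto (fun n => f (xs n)) atTop (𝓝 (f x0)) := (f.continuous.tendsto _).comp hlim
      have e3 : (fun n => f (ys n)) = fun n => f (xs n) := by funext n; exact hys2 n f hf
      rw [e3] at e1
      exact tendsto_nhds_unique e1 e2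
  by_contra hcon
  have hx : x ∉ M := hcon
  obtain ⟨g, hg1, hg2⟩ := exists_sep M hclosed x hx
  have hgB : g ∈ closure B := by
    apply hG.mem_closureB hr
    intro v hv
    apply hg1
    exact (hMmem v).mpr ⟨0, MA.zero_mem, fun f hf => by rw [hv f hf, map_zero]⟩
  have hgA : ∀ a ∈ A, g a = 0 := by
    intro a ha
    apply hg1
    exact (hMmem a).mpr ⟨a, subset_closure ha, fun _ _ => rfl⟩
  have hg0 : ‖g‖ ≤ 0 := by
    apply le_of_forall_pos_le_add
    intro δ hδ
    obtain ⟨f, hf, hgf⟩ := Metric.mem_closure_iff.mp hgB (δ / 3) (by positivity)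
    rw [dist_eq_norm] at hgf
    obtain ⟨a, ha, ha1, ha2⟩ := hG.sep f hf
    have h1 : f a ≤ δ / 3 := by
      have : f a = (f - g) a := by
        show f a = f a - g a
        rw [hgA a ha, sub_zero]
      rw [this]
      calc (f - g) a ≤ |(f - g) a| := le_abs_self _
        _ ≤ ‖f - g‖ * ‖a‖ := (f - g).le_opNorm _
        _ ≤ ‖f - g‖ * 1 := mul_le_mul_of_nonneg_left ha1 (norm_nonneg (f - g))
        _ ≤ δ / 3 := by rw [mul_one, norm_sub_rev]; exact hgf.le
    have h2 : ‖g‖ ≤ ‖g - f‖ + ‖f‖ := by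
      have : g = (g - f) + f := by abel
      calc ‖g‖ = ‖(g - f) + f‖ := by rw [← this]
        _ ≤ _ := norm_add_le _ _
    linarith
  have hg00 : g = 0 := norm_le_zero_iff.mp hg0
  rw [hg00] at hg2
  exact hg2 rfl

end Good

end GoodPair

/-! ### The closure operator on a reflexive space and its projections -/

section Proj

variable {X : Type} [NormedAddCommGroup X] [NormedSpace ℝ X]

lemma exists_N (x : X) : ∃ f : StrongDual ℝ X, ‖f‖ ≤ 1 ∧ f x = ‖x‖ := by
  obtain ⟨g, hg1, hg2⟩ := exists_dual_vector'' ℝ x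
  exact ⟨g, hg1, by simpa using hg2⟩

lemma exists_v (f : StrongDual ℝ X) : ∃ x : X, ‖x‖ ≤ 1 ∧ ‖f‖ ≤ 2 * f x := by
  by_cases hf : f = 0
  · exact ⟨0, by simp, by simp [hf]⟩
  have hf0 : 0 < ‖f‖ := norm_pos_iff.mpr hf
  obtain ⟨x, hx1, hx2⟩ := f.exists_lt_apply_of_lt_opNorm (show ‖f‖ / 2 < ‖f‖ by linarith)
  rw [Real.norm_eq_abs] at hx2
  rcases le_total 0 (f x) with h | h
  · rw [abs_of_nonneg h] at hx2
    exact ⟨x, hx1.le, by linarith⟩
  · rw [abs_of_nonpos h] at hx2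
    exact ⟨-x, by rw [norm_neg]; exact hx1.le, by rw [map_neg]; linarith⟩

noncomputable def Nf (x : X) : StrongDual ℝ X := (exists_N x).choose
lemma Nf_spec (x : X) : ‖Nf x‖ ≤ 1 ∧ Nf x x = ‖x‖ := (exists_N x).choose_spec
noncomputable def vf (f : StrongDual ℝ X) : X := (exists_v f).choose
lemma vf_spec (f : StrongDual ℝ X) : ‖vf f‖ ≤ 1 ∧ ‖f‖ ≤ 2 * f (vf f) := (exists_v f).choose_spec

/-- the countable family of operations -/
noncomputable def op : Fin 3 ⊕ ℚ → X × StrongDual ℝ X → X × StrongDual ℝ X → X × StrongDual ℝ X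
  | Sum.inl 0, a, b => a + b
  | Sum.inl 1, a, _ => (0, Nf a.1)
  | Sum.inl 2, a, _ => (vf a.2, 0)
  | Sum.inr q, a, _ => (q : ℝ) • a

/-- generating set -/
def gen (S : Set X) : Set (X × StrongDual ℝ X) := insert 0 ((fun x => (x, 0)) '' S)

def CC (S : Set X) (e : X × StrongDual ℝ X) : Prop := Cl op (gen S) e

def As (S : Set X) : Set X := {x | CC S (x, 0)}
def Bs (S : Set X) : Set (StrongDual ℝ X) := {f | CC S (0, f)}

lemma good (S : Set X) : Good (As S) (Bs S) where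
  zeroA := Cl.base (Set.mem_insert _ _)
  addA := by
    intro x hx y hy
    have := Cl.app (op := op) (Sum.inl 0) hx hy
    have e : op (Sum.inl 0) ((x, 0) : X × StrongDual ℝ X) (y, 0) = (x + y, 0) := by
      show (x, (0 : StrongDual ℝ X)) + (y, 0) = _
      rw [Prod.mk_add_mk, add_zero]
    rw [e] at this
    exact this
  smulA := by
    intro q x hx
    have := Cl.app (op := op) (Sum.inr q) hx hx
    have e : op (Sum.inr q) ((x, 0) : X × StrongDual ℝ X) (x, 0) = ((q : ℝ) • x, 0) := by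
      show (q : ℝ) • (x, (0 : StrongDual ℝ X)) = _
      rw [Prod.smul_mk, smul_zero]
    rw [e] at this
    exact this
  zeroB := Cl.base (Set.mem_insert _ _)
  addB := by
    intro x hx y hy
    have := Cl.app (op := op) (Sum.inl 0) hx hy
    have e : op (Sum.inl 0) ((0, x) : X × StrongDual ℝ X) (0, y) = (0, x + y) := by
      show ((0 : X), x) + (0, y) = _
      rw [Prod.mk_add_mk, add_zero]
    rw [e] at this
    exact this
  smulB := by
    intro q x hx
    have := Cl.app (op := op) (Sum.inr q) hx hx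
    have e : op (Sum.inr q) ((0, x) : X × StrongDual ℝ X) (0, x) = (0, (q : ℝ) • x) := by
      show (q : ℝ) • ((0 : X), x) = _
      rw [Prod.smul_mk, smul_zero]
    rw [e] at this
    exact this
  norming := by
    intro x hx
    exact ⟨Nf x, Cl.app (op := op) (Sum.inl 1) hx hx, (Nf_spec x).1, (Nf_spec x).2⟩
  sep := by
    intro f hf
    exact ⟨vf f, Cl.app (op := op) (Sum.inl 2) hf hf, (vf_spec f).1, (vf_spec f).2⟩

lemma subset_As (S : Set X) : S ⊆ As S := fun x hx =>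
  Cl.base (Set.mem_insert_of_mem _ ⟨x, hx, rfl⟩)

lemma gen_mono {S S' : Set X} (h : S ⊆ S') : gen S ⊆ gen S' :=
  Set.insert_subset_insert (Set.image_mono h)

lemma As_mono {S S' : Set X} (h : S ⊆ S') : As S ⊆ As S' := fun _ hx => Cl.mono (gen_mono h) hx
lemma Bs_mono {S S' : Set X} (h : S ⊆ S') : Bs S ⊆ Bs S' := fun _ hx => Cl.mono (gen_mono h) hx

lemma gen_iUnion {J : Type} [Nonempty J] (S : J → Set X) : gen (⋃ j, S j) = ⋃ j, gen (S j) := by
  unfold gen
  rw [Set.image_iUnion, Set.insert_iUnion]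

lemma As_directed {J : Type} [Nonempty J] {S : J → Set X} (hd : Directed (· ⊆ ·) S) {x : X}
    (hx : x ∈ As (⋃ j, S j)) : ∃ j, x ∈ As (S j) := by
  have h : Cl op (⋃ j, gen (S j)) (x, (0 : StrongDual ℝ X)) := by
    rw [← gen_iUnion]; exact hx
  exact Cl.directed (fun i j => by
    obtain ⟨k, h1, h2⟩ := hd i j
    exact ⟨k, gen_mono h1, gen_mono h2⟩) h

lemma Bs_directed {J : Type} [Nonempty J] {S : J → Set X} (hd : Directed (· ⊆ ·) S)
    {f : StrongDual ℝ X} (hx : f ∈ Bs (⋃ j, S j)) : ∃ j, f ∈ Bs (S j) := by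
  have h : Cl op (⋃ j, gen (S j)) ((0 : X), f) := by
    rw [← gen_iUnion]; exact hx
  exact Cl.directed (fun i j => by
    obtain ⟨k, h1, h2⟩ := hd i j
    exact ⟨k, gen_mono h1, gen_mono h2⟩) h

lemma card_As (S : Set X) : Cardinal.mk ↥(As S) ≤ max (Cardinal.mk ↥S) Cardinal.aleph0 := by
  have h1 : Cardinal.mk ↥(As S) ≤ Cardinal.mk {e | Cl op (gen S) e} := by
    refine Cardinal.mk_le_of_injective (f := fun x : As S => (⟨(x.1, 0), x.2⟩ : {e | Cl op (gen S) e})) ?_
    intro x y hxy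
    have := congrArg (fun z => z.1.1) hxy
    exact Subtype.ext this
  refine h1.trans ((card_Cl (op := op) (gen S)).trans ?_)
  apply max_le _ (le_max_right _ _)
  unfold gen
  refine (Cardinal.mk_insert_le).trans ?_
  have h2 : Cardinal.mk ↥((fun x : X => (x, (0 : StrongDual ℝ X))) '' S) ≤ Cardinal.mk ↥S :=
    Cardinal.mk_image_le
  refine (add_le_add_left h2 1).trans ?_
  refine (Cardinal.add_le_max _ _).trans ?_
  exact max_le (max_le (le_max_left _ _) (Cardinal.one_le_aleph0.trans (le_max_right _ _))) (le_max_right _ _)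

variable [CompleteSpace X] (hr : Function.Surjective (NormedSpace.inclusionInDoubleDual ℝ X))

noncomputable def Pf (S : Set X) (x : X) : X := ((good S).exists_proj hr x).choose

lemma Pf_mem (S : Set X) (x : X) : Pf hr S x ∈ closure (As S) :=
  ((good S).exists_proj hr x).choose_spec.1

lemma Pf_apply (S : Set X) (x : X) {f : StrongDual ℝ X} (hf : f ∈ Bs S) : f (Pf hr S x) = f x :=
  ((good S).exists_proj hr x).choose_spec.2 f hf

lemma Pf_unique (S : Set X) (x y : X) (hy : y ∈ closure (As S)) (h : ∀ f ∈ Bs S, f y = f x) :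
    Pf hr S x = y :=
  (good S).eq_of (Pf_mem hr S x) hy (fun f hf => by rw [Pf_apply hr S x hf, h f hf])

noncomputable def Pr (S : Set X) : X →L[ℝ] X :=
  LinearMap.mkContinuous
    { toFun := Pf hr S
      map_add' := fun x y => by
        let M := clSub (As S) (good S).zeroA (good S).addA (good S).smulA
        apply Pf_unique
        · exact M.add_mem (Pf_mem hr S x) (Pf_mem hr S y)
        · intro f hf
          rw [map_add, map_add, Pf_apply hr S x hf, Pf_apply hr S y hf]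
      map_smul' := fun c x => by
        let M := clSub (As S) (good S).zeroA (good S).addA (good S).smulA
        apply Pf_unique
        · exact M.smul_mem c (Pf_mem hr S x)
        · intro f hf
          rw [RingHom.id_apply, map_smul, map_smul, Pf_apply hr S x hf] } 1 (by
    intro x
    rw [one_mul]
    exact (good S).norm_le (Pf_mem hr S x) (fun f hf => Pf_apply hr S x hf))

lemma Pr_apply (S : Set X) (x : X) : Pr hr S x = Pf hr S x := rfl

lemma Pr_norm_le (S : Set X) (x : X) : ‖Pr hr S x‖ ≤ ‖x‖ :=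
  (good S).norm_le (Pf_mem hr S x) (fun _ hf => Pf_apply hr S x hf)

lemma Pr_mem (S : Set X) (x : X) : Pr hr S x ∈ closure (As S) := Pf_mem hr S x

lemma Pr_of_mem (S : Set X) (y : X) (hy : y ∈ closure (As S)) : Pr hr S y = y :=
  Pf_unique hr S y y hy (fun _ _ => rfl)

lemma Pr_functional (S : Set X) (x : X) {f : StrongDual ℝ X} (hf : f ∈ Bs S) :
    f (Pr hr S x) = f x := Pf_apply hr S x hf

lemma Pr_functional' (S : Set X) (x : X) {f : StrongDual ℝ X} (hf : f ∈ closure (Bs S)) :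
    f (Pr hr S x) = f x := by
  have hc : IsClosed {f : StrongDual ℝ X | f (Pr hr S x) = f x} := by
    apply isClosed_eq
    · exact (ContinuousLinearMap.apply ℝ ℝ (Pr hr S x)).continuous
    · exact (ContinuousLinearMap.apply ℝ ℝ x).continuous
  exact closure_minimal (fun f hf => Pr_functional hr S x hf) hc hf

lemma Pr_comp {S S' : Set X} (h : S ⊆ S') (x : X) : Pr hr S (Pr hr S' x) = Pr hr S x := by
  apply Pf_unique hr S _ _ (Pr_mem hr S x)
  intro f hf
  rw [Pr_functional hr S x hf, Pr_functional hr S' x (Bs_mono h hf)]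

lemma Pr_comp' {S S' : Set X} (h : S ⊆ S') (x : X) : Pr hr S' (Pr hr S x) = Pr hr S x :=
  Pr_of_mem hr S' _ (closure_mono (As_mono h) (Pr_mem hr S x))

lemma comp_mem (S : Set X) (g : StrongDual ℝ X) : g.comp (Pr hr S) ∈ closure (Bs S) := by
  apply (good S).mem_closureB hr
  intro v hv
  have : Pr hr S v = 0 := by
    apply Pf_unique hr S v 0 (subset_closure (good S).zeroA)
    intro f hf
    rw [map_zero, hv f hf]
  show g (Pr hr S v) = 0
  rw [this, map_zero]

end Proj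

/-! ### The chain of projections -/

section Chain

variable {X : Type} [NormedAddCommGroup X] [NormedSpace ℝ X] [CompleteSpace X]
variable (hr : Function.Surjective (NormedSpace.inclusionInDoubleDual ℝ X))
variable {I : Type} [LinearOrder I] [WellFoundedLT I] (d : I → X)

def Sg (i : I) : Set X := d '' Set.Iio i
def Sgp (i : I) : Set X := d '' Set.Iic i

noncomputable def Q (i : I) : X →L[ℝ] X := Pr hr (Sgp d i) - Pr hr (Sg d i)

lemma Q_apply (i : I) (x : X) : Q hr d i x = Pr hr (Sgp d i) x - Pr hr (Sg d i) x := rfl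

lemma Sg_sub (i : I) : Sg d i ⊆ Sgp d i := Set.image_mono Set.Iio_subset_Iic_self

lemma Sgp_sub {i j : I} (h : i < j) : Sgp d i ⊆ Sg d j :=
  Set.image_mono (fun _ hx => lt_of_le_of_lt hx h)

lemma Q_idem (i : I) (x : X) : Q hr d i (Q hr d i x) = Q hr d i x := by
  rw [Q_apply, Q_apply, map_sub, map_sub, Pr_comp hr (Sg_sub d i), Pr_comp' hr (Sg_sub d i),
    Pr_comp hr (subset_refl _), Pr_comp hr (subset_refl _)]
  abel

lemma Q_small (g : StrongDual ℝ X) {ε : ℝ} (hε : 0 < ε) :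
    {i : I | ε ≤ ‖g.comp (Q hr d i)‖}.Finite := by
  by_contra hinf
  have hinf' : {i : I | ε ≤ ‖g.comp (Q hr d i)‖}.Infinite := hinf
  haveI := hinf'.to_subtype
  obtain ⟨f, hf⟩ := Infinite.exists_strictMono_or_strictAnti {i : I | ε ≤ ‖g.comp (Q hr d i)‖}
  rcases hf with hf | hf
  · -- increasing sequence
    set a : ℕ → I := fun n => (f n).1 with ha
    have hamono : StrictMono a := hf
    set S : ℕ → Set X := fun n => Sg d (a n) with hS
    have hSmono : Monotone S := by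
      intro m n hmn
      exact Set.image_mono (Set.Iio_subset_Iio (hamono.monotone hmn))
    have hdir : Directed (· ⊆ ·) S := directed_of_isDirected_le hSmono
    have hmem := comp_mem hr (⋃ n, S n) g
    obtain ⟨h, hh, hgh⟩ := Metric.mem_closure_iff.mp hmem (ε / 4) (by positivity)
    obtain ⟨n, hn⟩ := Bs_directed hdir hh
    rw [dist_eq_norm] at hgh
    have key : ∀ S' : Set X, S n ⊆ S' → S' ⊆ ⋃ n, S n →
        ∀ x, |g (Pr hr S' x) - h x| ≤ ε / 4 * ‖x‖ := by
      intro S' h1 h2 x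
      have e1 : h (Pr hr S' x) = h x := Pr_functional hr S' x (Bs_mono h1 hn)
      have e2 : Pr hr (⋃ n, S n) (Pr hr S' x) = Pr hr S' x := Pr_comp' hr h2 x
      have e3 : g (Pr hr S' x) - h x = (g.comp (Pr hr (⋃ n, S n)) - h) (Pr hr S' x) := by
        show _ = g (Pr hr (⋃ n, S n) (Pr hr S' x)) - h (Pr hr S' x)
        rw [e1, e2]
      rw [e3]
      calc |(g.comp (Pr hr (⋃ n, S n)) - h) (Pr hr S' x)|
          ≤ ‖g.comp (Pr hr (⋃ n, S n)) - h‖ * ‖Pr hr S' x‖ :=
            (g.comp (Pr hr (⋃ n, S n)) - h).le_opNorm _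
        _ ≤ ε / 4 * ‖x‖ := mul_le_mul hgh.le (Pr_norm_le hr S' x) (norm_nonneg _) (by positivity)
    have h1 : ‖g.comp (Q hr d (a n))‖ ≤ ε / 2 := by
      apply ContinuousLinearMap.opNorm_le_bound _ (by positivity)
      intro x
      have k1 := key (Sg d (a n)) (subset_refl _) (Set.subset_iUnion S n) x
      have k2 := key (Sgp d (a n)) (Sg_sub d (a n))
        ((Sgp_sub d (hamono (Nat.lt_succ_self n))).trans (Set.subset_iUnion S (n + 1))) x
      have e4 : g.comp (Q hr d (a n)) x = (g (Pr hr (Sgp d (a n)) x) - h x) -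
          (g (Pr hr (Sg d (a n)) x) - h x) := by
        show g (Q hr d (a n) x) = _
        rw [Q_apply, map_sub]; ring
      rw [e4, Real.norm_eq_abs]
      calc |(g (Pr hr (Sgp d (a n)) x) - h x) - (g (Pr hr (Sg d (a n)) x) - h x)|
          ≤ |g (Pr hr (Sgp d (a n)) x) - h x| + |g (Pr hr (Sg d (a n)) x) - h x| := abs_sub _ _
        _ ≤ ε / 4 * ‖x‖ + ε / 4 * ‖x‖ := add_le_add k2 k1
        _ = ε / 2 * ‖x‖ := by ring
    have h2 : ε ≤ ‖g.comp (Q hr d (a n))‖ := (f n).2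
    linarith
  · -- no decreasing sequence
    have hwf : WellFounded ((· < ·) : I → I → Prop) := wellFounded_lt
    have : StrictAnti (fun n => (f n).1) := hf
    exact (RelEmbedding.natGT (r := ((· < ·) : I → I → Prop)) (fun n => (f n).1)
      (fun n => this (Nat.lt_succ_self n))).not_wellFounded hwf

/-- the block -/
def Wb (i : I) : Submodule ℝ X where
  carrier := {x | Q hr d i x = x}
  add_mem' := by
    intro a b ha hb
    show Q hr d i (a + b) = a + b
    rw [map_add]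
    have ha' : Q hr d i a = a := ha
    have hb' : Q hr d i b = b := hb
    rw [ha', hb']
  zero_mem' := map_zero _
  smul_mem' := by
    intro c a ha
    show Q hr d i (c • a) = c • a
    rw [map_smul]
    have ha' : Q hr d i a = a := ha
    rw [ha']

lemma mem_Wb (i : I) (x : X) : x ∈ Wb hr d i ↔ Q hr d i x = x := Iff.rfl

lemma isClosed_Wb (i : I) : IsClosed (Wb hr d i : Set X) := by
  have : (Wb hr d i : Set X) = {x | Q hr d i x = x} := by
    ext x; exact mem_Wb hr d i x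
  rw [this]
  exact isClosed_eq (Q hr d i).continuous continuous_id

lemma Q_mem_Wb (i : I) (x : X) : Q hr d i x ∈ Wb hr d i := (mem_Wb hr d i _).mpr (Q_idem hr d i x)

lemma complete_Wb (i : I) : CompleteSpace ↥(Wb hr d i) :=
  (isClosed_Wb hr d i).completeSpace_coe

lemma reflexive_Wb (i : I) :
    Function.Surjective (NormedSpace.inclusionInDoubleDual ℝ ↥(Wb hr d i)) := by
  intro Φ
  let ρ : StrongDual ℝ X →L[ℝ] StrongDual ℝ ↥(Wb hr d i) :=
    (ContinuousLinearMap.compL ℝ ↥(Wb hr d i) X ℝ).flip (Wb hr d i).subtypeL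
  obtain ⟨x, hx⟩ := hr (Φ.comp ρ)
  let Qt : X →L[ℝ] ↥(Wb hr d i) := (Q hr d i).codRestrict (Wb hr d i) (Q_mem_Wb hr d i)
  refine ⟨Qt x, ?_⟩
  ext f
  rw [NormedSpace.dual_def]
  have h1 : ρ (f.comp Qt) = f := by
    ext w
    show f (Qt w.1) = f w
    congr 1
    apply Subtype.ext
    exact (mem_Wb hr d i w.1).mp w.2
  have h2 : (Φ.comp ρ) (f.comp Qt) = Φ f := by
    show Φ (ρ (f.comp Qt)) = Φ f
    rw [h1]
  rw [← h2, ← hx, NormedSpace.dual_def]
  rfl

lemma Wb_sub (i : I) (x : X) (hx : x ∈ Wb hr d i) : x ∈ closure (As (Sgp d i)) := by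
  let M := clSub (As (Sgp d i)) (good (Sgp d i)).zeroA (good (Sgp d i)).addA (good (Sgp d i)).smulA
  rw [mem_Wb, Q_apply] at hx
  have h1 : Pr hr (Sgp d i) x ∈ M := Pr_mem hr _ x
  have h2 : Pr hr (Sg d i) x ∈ M := closure_mono (As_mono (Sg_sub d i)) (Pr_mem hr _ x)
  have h3 := M.sub_mem h1 h2
  rw [hx] at h3
  exact h3

/-- a small dense family in the block -/
noncomputable def dW (i : I) (a : ↥(As (Sgp d i))) : ↥(Wb hr d i) := ⟨Q hr d i a.1, Q_mem_Wb hr d i _⟩

lemma dense_dW (i : I) : DenseRange (dW hr d i) := by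
  intro w
  rw [Metric.mem_closure_iff]
  intro ε hε
  have h1 := Wb_sub hr d i w.1 w.2
  have h2 : Q hr d i w.1 ∈ closure (Q hr d i '' As (Sgp d i)) :=
    image_closure_subset_closure_image (Q hr d i).continuous ⟨_, h1, rfl⟩
  rw [(mem_Wb hr d i w.1).mp w.2] at h2
  obtain ⟨_, ⟨a, ha, rfl⟩, h3⟩ := Metric.mem_closure_iff.mp h2 ε hε
  exact ⟨dW hr d i ⟨a, ha⟩, ⟨_, rfl⟩, h3⟩

end Chain

/-! ### Families -/

section Family

lemma countable_family {X : Type} [NormedAddCommGroup X] [NormedSpace ℝ X] {I : Type} [Countable I]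
    (d : I → X) :
    ∃ G : Set X, (∀ g ∈ G, ‖g‖ ≤ 1) ∧ Set.range d ⊆ (Submodule.span ℝ G : Set X) ∧
      ∀ f : StrongDual ℝ X, ∀ ε : ℝ, 0 < ε → {g ∈ G | ε ≤ |f g|}.Finite := by
  obtain ⟨k, hk⟩ := Countable.exists_injective_nat I
  let c : I → ℝ := fun i => 1 / (((k i : ℝ) + 1) * (‖d i‖ + 1))
  have hc : ∀ i, 0 < c i := fun i => by positivity
  have hcn : ∀ i, ‖c i • d i‖ ≤ 1 / ((k i : ℝ) + 1) := by
    intro i
    rw [norm_smul, Real.norm_eq_abs, abs_of_pos (hc i)]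
    simp only [c]
    rw [div_mul_eq_mul_div, one_mul, div_le_div_iff₀ (by positivity) (by positivity)]
    have h1 := norm_nonneg (d i)
    have h2 : (0:ℝ) ≤ (k i : ℝ) := Nat.cast_nonneg _
    nlinarith
  refine ⟨Set.range (fun i => c i • d i), ?_, ?_, ?_⟩
  · rintro _ ⟨i, rfl⟩
    refine (hcn i).trans ?_
    rw [div_le_one (by positivity)]
    have : (0:ℝ) ≤ (k i : ℝ) := Nat.cast_nonneg _
    linarith
  · rintro _ ⟨i, rfl⟩
    have h1 : c i • d i ∈ Submodule.span ℝ (Set.range (fun i => c i • d i)) :=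
      Submodule.subset_span ⟨i, rfl⟩
    have h2 := Submodule.smul_mem _ (c i)⁻¹ h1
    rw [smul_smul, inv_mul_cancel₀ (hc i).ne', one_smul] at h2
    exact h2
  · intro f ε hε
    obtain ⟨N, hN⟩ := exists_nat_gt (‖f‖ / ε)
    have hfin : {i : I | k i ≤ N}.Finite := by
      have : {i : I | k i ≤ N} = k ⁻¹' (Set.Iic N) := rfl
      rw [this]
      exact (Set.finite_Iic N).preimage hk.injOn
    refine (hfin.image (fun i => c i • d i)).subset ?_
    rintro _ ⟨⟨i, rfl⟩, hi⟩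
    refine ⟨i, ?_, rfl⟩
    have h1 : |f (c i • d i)| ≤ ‖f‖ * (1 / ((k i : ℝ) + 1)) :=
      (f.le_opNorm _).trans (mul_le_mul_of_nonneg_left (hcn i) (norm_nonneg _))
    have h2 : ε ≤ ‖f‖ / ((k i : ℝ) + 1) := by
      refine (hi.trans h1).trans (le_of_eq ?_)
      ring
    rw [le_div_iff₀ (by positivity)] at h2
    rw [div_lt_iff₀ hε] at hN
    have h3 : (k i : ℝ) + 1 ≤ N := by
      by_contra hcon
      push Not at hcon
      nlinarith
    have h4 : (k i : ℝ) ≤ N := by linarith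
    exact_mod_cast h4

theorem family (κ : Cardinal.{0}) : ∀ (X : Type) [NormedAddCommGroup X] [NormedSpace ℝ X]
    [CompleteSpace X], Function.Surjective (NormedSpace.inclusionInDoubleDual ℝ X) →
    ∀ (I : Type) (d : I → X), DenseRange d → Cardinal.mk I = κ →
    ∃ G : Set X, (∀ g ∈ G, ‖g‖ ≤ 1) ∧ Dense (Submodule.span ℝ G : Set X) ∧
      ∀ f : StrongDual ℝ X, ∀ ε : ℝ, 0 < ε → {g ∈ G | ε ≤ |f g|}.Finite := by
  induction κ using WellFoundedLT.induction with
  | ind κ ih =>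
  intro X _ _ _ hr I d hd hI
  by_cases hκ : κ ≤ Cardinal.aleph0
  · have : Countable I := Cardinal.mk_le_aleph0_iff.mp (hI.le.trans hκ)
    obtain ⟨G, h1, h2, h3⟩ := countable_family d
    exact ⟨G, h1, hd.mono h2, h3⟩
  push Not at hκ
  obtain ⟨_, _, hord⟩ := Cardinal.exists_ord_eq_type_lt I
  have hcard : ∀ i : I, Cardinal.mk ↥(As (Sgp d i)) < κ := by
    intro i
    refine (card_As _).trans_lt (max_lt ?_ hκ)
    unfold Sgp
    refine Cardinal.mk_image_le.trans_lt ?_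
    have h1 : Set.Iic i = insert i (Set.Iio i) := (Set.Iio_insert).symm
    rw [h1]
    refine Cardinal.mk_insert_le.trans_lt ?_
    apply Cardinal.add_lt_of_lt hκ.le
    · rw [← hI]; exact Cardinal.mk_Iio_lt i hord
    · exact lt_of_lt_of_le Cardinal.one_lt_aleph0 hκ.le
  have hblock : ∀ i : I, ∃ G : Set ↥(Wb hr d i), (∀ g ∈ G, ‖g‖ ≤ 1) ∧
      Dense (Submodule.span ℝ G : Set ↥(Wb hr d i)) ∧
      ∀ f : StrongDual ℝ ↥(Wb hr d i), ∀ ε : ℝ, 0 < ε → {g ∈ G | ε ≤ |f g|}.Finite := by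
    intro i
    haveI := complete_Wb hr d i
    exact ih _ (hcard i) ↥(Wb hr d i) (reflexive_Wb hr d i) _ (dW hr d i) (dense_dW hr d i) rfl
  choose G hG1 hG2 hG3 using hblock
  -- base block
  have hbase : Countable ↥(As (∅ : Set X)) := by
    have := card_As (∅ : Set X)
    rw [Cardinal.mk_eq_zero ↥(∅ : Set X)] at this
    exact Cardinal.mk_le_aleph0_iff.mp (this.trans (max_le (bot_le) le_rfl))
  obtain ⟨G0, h01, h02, h03⟩ := countable_family (fun a : ↥(As (∅ : Set X)) => a.1)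
  set GG : Set X := G0 ∪ ⋃ i, Subtype.val '' G i with hGG
  set M : Submodule ℝ X := (Submodule.span ℝ GG).topologicalClosure with hM
  have hMcl : IsClosed (M : Set X) := Submodule.isClosed_topologicalClosure _
  have hGGM : ∀ g ∈ GG, g ∈ M := fun g hg =>
    Submodule.le_topologicalClosure _ (Submodule.subset_span hg)
  have hW : ∀ i, ∀ w ∈ Wb hr d i, w ∈ M := by
    intro i w hw
    have h1 : (⟨w, hw⟩ : ↥(Wb hr d i)) ∈ closure (Submodule.span ℝ (G i) : Set ↥(Wb hr d i)) := hG2 i _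
    have h2 : w ∈ closure (Subtype.val '' (Submodule.span ℝ (G i) : Set ↥(Wb hr d i))) :=
      image_closure_subset_closure_image continuous_subtype_val ⟨_, h1, rfl⟩
    refine closure_minimal ?_ hMcl h2
    rintro _ ⟨z, hz, rfl⟩
    have h3 : z ∈ Submodule.comap (Wb hr d i).subtype M := by
      refine Submodule.span_le.mpr ?_ hz
      intro g hg
      exact hGGM _ (Or.inr (Set.mem_iUnion.mpr ⟨i, ⟨g, hg, rfl⟩⟩))
    exact h3
  have hA0 : As (∅ : Set X) ⊆ (M : Set X) := by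
    intro a ha
    have h1 : a ∈ (Submodule.span ℝ G0 : Set X) := h02 ⟨⟨a, ha⟩, rfl⟩
    have h2 : Submodule.span ℝ G0 ≤ M := by
      apply Submodule.span_le.mpr
      intro g hg
      exact hGGM g (Or.inl hg)
    exact h2 h1
  have hAs : ∀ i, As (Sgp d i) ⊆ (M : Set X) := by
    intro i
    induction i using WellFoundedLT.induction with
    | ind i ihi =>
    have h1 : closure (As (Sg d i)) ⊆ (M : Set X) := by
      apply closure_minimal _ hMcl
      by_cases hne : Nonempty ↥(Set.Iio i)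
      · have hU : Sg d i = ⋃ j : ↥(Set.Iio i), Sgp d j.1 := by
          unfold Sg Sgp
          rw [← Set.image_iUnion]
          congr 1
          ext x
          simp only [Set.mem_Iio, Set.mem_iUnion, Set.mem_Iic]
          constructor
          · intro hx; exact ⟨⟨x, hx⟩, le_refl _⟩
          · rintro ⟨j, hj⟩; exact lt_of_le_of_lt hj j.2
        have hdir : Directed (· ⊆ ·) (fun j : ↥(Set.Iio i) => Sgp d j.1) := by
          apply directed_of_isDirected_le
          intro a b hab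
          exact Set.image_mono (Set.Iic_subset_Iic.mpr hab)
        intro a ha
        rw [hU] at ha
        obtain ⟨j, hj⟩ := As_directed hdir ha
        exact ihi j.1 j.2 hj
      · have : Sg d i = ∅ := by
          unfold Sg
          rw [Set.image_eq_empty]
          by_contra hcon
          exact hne (Set.nonempty_iff_ne_empty.mpr hcon).to_subtype
        rw [this]; exact hA0
    intro a ha
    have h2 : Pr hr (Sgp d i) a = a := Pr_of_mem hr _ a (subset_closure ha)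
    have h3 : a = Pr hr (Sg d i) a + Q hr d i a := by
      rw [Q_apply, h2]; abel
    rw [h3]
    exact M.add_mem (h1 (Pr_mem hr _ a)) (hW i _ (Q_mem_Wb hr d i a))
  refine ⟨GG, ?_, ?_, ?_⟩
  · rintro g (hg | hg)
    · exact h01 g hg
    · obtain ⟨i, w, hw, rfl⟩ := Set.mem_iUnion.mp hg
      exact hG1 i w hw
  · have h1 : Set.range d ⊆ (M : Set X) := by
      rintro _ ⟨i, rfl⟩
      exact hAs i (subset_As _ ⟨i, le_refl i, rfl⟩)
    have h2 : (M : Set X) = Set.univ := by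
      apply Set.eq_univ_of_univ_subset
      rw [← hd.closure_eq]
      exact closure_minimal h1 hMcl
    rw [dense_iff_closure_eq]
    exact h2
  · intro f ε hε
    have hs := Q_small hr d f hε
    have hfin : (⋃ i ∈ {i : I | ε ≤ ‖f.comp (Q hr d i)‖},
        Subtype.val '' {g ∈ G i | ε ≤ |(f.comp (Wb hr d i).subtypeL) g|}).Finite :=
      hs.biUnion (fun i _ => (hG3 i (f.comp (Wb hr d i).subtypeL) ε hε).image _)
    refine ((h03 f ε hε).union hfin).subset ?_
    rintro g ⟨hg | hg, hfg⟩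
    · exact Or.inl ⟨hg, hfg⟩
    · right
      obtain ⟨i, w, hw, rfl⟩ := Set.mem_iUnion.mp hg
      refine Set.mem_biUnion (x := i) ?_ ⟨w, ⟨hw, hfg⟩, rfl⟩
      have h1 : f w.1 = f.comp (Q hr d i) w.1 := by
        show f w.1 = f (Q hr d i w.1)
        rw [(mem_Wb hr d i w.1).mp w.2]
      have h2 : |f w.1| ≤ ‖f.comp (Q hr d i)‖ * ‖w.1‖ := by
        rw [h1]; exact (f.comp (Q hr d i)).le_opNorm _
      have h3 : ‖w.1‖ ≤ 1 := hG1 i w hw
      have h4 : ‖f.comp (Q hr d i)‖ * ‖w.1‖ ≤ ‖f.comp (Q hr d i)‖ * 1 :=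
        mul_le_mul_of_nonneg_left h3 (norm_nonneg (f.comp (Q hr d i)))
      show ε ≤ ‖f.comp (Q hr d i)‖
      linarith

end Family

end Pool.Agent.Helper830.RA

namespace Pool.Agent.Helper830.RL

section Embed

variable {X : Type} [NormedAddCommGroup X] [NormedSpace ℝ X]

/-- the coded sets -/
def AA (G : Set X) (ι : X → ℝ) {n : ℕ} (a : Fin n → ℚ) (V : Fin n → Set ℝ)
    (nn : Finset (Fin n) → ℚ) (η : ℚ) : Set X :=
  {v | ∃ γ : Fin n → X, (∀ j, γ j ∈ G) ∧ (∀ j, ι (γ j) ∈ V j) ∧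
    (∀ J : Finset (Fin n), |‖∑ j ∈ J, (a j : ℝ) • γ j‖ - nn J| < η) ∧
    v = ∑ j, (a j : ℝ) • γ j}

/-- rational combinations are dense -/
lemma approx (G : Set X) (hd : Dense (Submodule.span ℝ G : Set X)) (x : X) {ε : ℝ} (hε : 0 < ε) :
    ∃ (n : ℕ) (a : Fin n → ℚ) (γ : Fin n → X), (∀ j, γ j ∈ G) ∧
      ‖x - ∑ j, (a j : ℝ) • γ j‖ < ε := by
  obtain ⟨z, hz, hz2⟩ := hd.exists_dist_lt x (half_pos hε)
  obtain ⟨n, c, γ, hsum⟩ := Submodule.mem_span_set'.mp hz
  -- approximate the coefficients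
  set M : ℝ := ∑ j, ‖(γ j : X)‖ + 1 with hM
  have hM0 : 0 < M := by
    have : 0 ≤ ∑ j, ‖(γ j : X)‖ := Finset.sum_nonneg (fun _ _ => norm_nonneg _)
    linarith
  have hη : 0 < ε / (2 * M) := by positivity
  have hex : ∀ j, ∃ q : ℚ, |c j - q| < ε / (2 * M) := by
    intro j
    obtain ⟨q, hq1, hq2⟩ := exists_rat_btwn (show c j < c j + ε / (2 * M) by linarith)
    refine ⟨q, ?_⟩
    rw [abs_lt]; constructor <;> linarith
  choose q hq using hex
  refine ⟨n, q, fun j => (γ j : X), fun j => (γ j).2, ?_⟩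
  have h1 : ‖z - ∑ j, (q j : ℝ) • (γ j : X)‖ ≤ ε / 2 := by
    rw [← hsum, ← Finset.sum_sub_distrib]
    calc ‖∑ j, (c j • (γ j : X) - (q j : ℝ) • (γ j : X))‖
        ≤ ∑ j, ‖c j • (γ j : X) - (q j : ℝ) • (γ j : X)‖ := norm_sum_le _ _
      _ ≤ ∑ j, (ε / (2 * M)) * ‖(γ j : X)‖ := by
          apply Finset.sum_le_sum
          intro j _
          rw [← sub_smul, norm_smul, Real.norm_eq_abs]
          exact mul_le_mul_of_nonneg_right (hq j).le (norm_nonneg _)
      _ = (ε / (2 * M)) * ∑ j, ‖(γ j : X)‖ := by rw [Finset.mul_sum]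
      _ ≤ (ε / (2 * M)) * M := mul_le_mul_of_nonneg_left (by linarith) hη.le
      _ = ε / 2 := by field_simp
  calc ‖x - ∑ j, (q j : ℝ) • (γ j : X)‖ ≤ ‖x - z‖ + ‖z - ∑ j, (q j : ℝ) • (γ j : X)‖ := by
        have : x - ∑ j, (q j : ℝ) • (γ j : X) = (x - z) + (z - ∑ j, (q j : ℝ) • (γ j : X)) := by abel
        rw [this]; exact norm_add_le _ _
    _ < ε / 2 + ε / 2 := by
        rw [dist_eq_norm] at hz2
        linarith
    _ = ε := by ring

lemma exists_rat_near (t : ℝ) {ε : ℝ} (hε : 0 < ε) : ∃ q : ℚ, |t - q| < ε := by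
  obtain ⟨q, hq1, hq2⟩ := exists_rat_btwn (show t < t + ε by linarith)
  refine ⟨q, ?_⟩
  rw [abs_lt]; constructor <;> linarith

lemma norm_le_of_dual {z : X} {C : ℝ} (hC : 0 ≤ C) (h : ∀ f : StrongDual ℝ X, ‖f‖ ≤ 1 → f z ≤ C) :
    ‖z‖ ≤ C := by
  obtain ⟨g, hg1, hg2⟩ := exists_dual_vector'' ℝ z
  have := h g hg1
  rw [hg2] at this
  simpa using this

/-- main separation lemma -/
lemma separate (G : Set X) (ι : X → ℝ) (hι : Function.Injective ι)
    (hc0 : ∀ f : StrongDual ℝ X, ∀ ε : ℝ, 0 < ε → {g ∈ G | ε ≤ |f g|}.Finite)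
    (y : X) {n : ℕ} (a : Fin n → ℚ) (γ : Fin n → X) (hγ : ∀ j, γ j ∈ G)
    (nn : Finset (Fin n) → ℚ) (η : ℚ)
    (hnn : ∀ J : Finset (Fin n), |‖∑ j ∈ J, (a j : ℝ) • γ j‖ - nn J| < η)
    {s : ℝ} (hs : 0 < s) (hfar : 3 * s + 2 * η ≤ ‖y - ∑ j, (a j : ℝ) • γ j‖) :
    ∃ V : Fin n → ↥(TopologicalSpace.countableBasis ℝ),
      (∀ j, ι (γ j) ∈ (V j).1) ∧ s ≤ Metric.infDist y (AA G ι a (fun j => (V j).1) nn η) := by
  classical
  by_contra hcon
  push Not at hcon
  -- basic neighbourhoods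
  have hV : ∀ (m : ℕ) (j : Fin n), ∃ V : ↥(TopologicalSpace.countableBasis ℝ),
      ι (γ j) ∈ V.1 ∧ V.1 ⊆ Metric.ball (ι (γ j)) (1 / ((m : ℝ) + 1)) := by
    intro m j
    obtain ⟨V, hV1, hV2, hV3⟩ :=
      (TopologicalSpace.isBasis_countableBasis ℝ).exists_subset_of_mem_open
        (Metric.mem_ball_self (show (0:ℝ) < 1 / ((m : ℝ) + 1) by positivity)) Metric.isOpen_ball
    exact ⟨⟨V, hV1⟩, hV2, hV3⟩
  choose V hV1 hV2 using hV
  have hne : ∀ m, (AA G ι a (fun j => (V m j).1) nn η).Nonempty := fun m =>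
    ⟨∑ j, (a j : ℝ) • γ j, γ, hγ, hV1 m, hnn, rfl⟩
  have hpick : ∀ m, ∃ γ' : Fin n → X, (∀ j, γ' j ∈ G) ∧ (∀ j, ι (γ' j) ∈ (V m j).1) ∧
      (∀ J : Finset (Fin n), |‖∑ j ∈ J, (a j : ℝ) • γ' j‖ - nn J| < η) ∧
      ‖y - ∑ j, (a j : ℝ) • γ' j‖ < s := by
    intro m
    have h1 := hcon (V m) (hV1 m)
    obtain ⟨v, ⟨γ', h2, h3, h4, rfl⟩, h5⟩ := (Metric.infDist_lt_iff (hne m)).mp h1
    rw [dist_eq_norm] at h5
    exact ⟨γ', h2, h3, h4, h5⟩
  choose γ' g1 g2 g3 g4 using hpick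
  let U : Ultrafilter ℕ := hyperfilter ℕ
  have hU : (U : Filter ℕ) ≤ atTop := Nat.hyperfilter_le_atTop
  set J0 : Finset (Fin n) := Finset.univ.filter (fun j => ∀ᶠ m in (U : Filter ℕ), γ' m j = γ j) with hJ0
  have hJ0mem : ∀ j ∈ J0, ∀ᶠ m in (U : Filter ℕ), γ' m j = γ j := by
    intro j hj
    exact (Finset.mem_filter.mp hj).2
  have hJ0not : ∀ j, j ∉ J0 → ∀ᶠ m in (U : Filter ℕ), γ' m j ≠ γ j := by
    intro j hj
    have : ¬ ∀ᶠ m in (U : Filter ℕ), γ' m j = γ j := by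
      intro h; exact hj (Finset.mem_filter.mpr ⟨Finset.mem_univ _, h⟩)
    exact Ultrafilter.eventually_not.mpr this
  -- weak convergence
  have hweak : ∀ (f : StrongDual ℝ X) (j : Fin n), j ∉ J0 →
      Tendsto (fun m => f (γ' m j)) (U : Filter ℕ) (𝓝 0) := by
    intro f j hj
    rw [Metric.tendsto_nhds]
    intro ε hε
    have hfin := hc0 f ε hε
    have hfin2 : (ι '' ({g ∈ G | ε ≤ |f g|} \ {γ j})).Finite := (hfin.subset Set.sdiff_subset).image _
    have hopen : IsOpen (ι '' ({g ∈ G | ε ≤ |f g|} \ {γ j}))ᶜ := hfin2.isClosed.isOpen_compl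
    have hmem : ι (γ j) ∈ (ι '' ({g ∈ G | ε ≤ |f g|} \ {γ j}))ᶜ := by
      rintro ⟨g, ⟨_, hg2⟩, hg3⟩
      exact hg2 (hι hg3)
    obtain ⟨δ, hδ, hball⟩ := Metric.isOpen_iff.mp hopen _ hmem
    have hev : ∀ᶠ m : ℕ in atTop, 1 / ((m : ℝ) + 1) < δ :=
      (tendsto_one_div_add_atTop_nhds_zero_nat).eventually (Iio_mem_nhds hδ)
    filter_upwards [hU hev, hJ0not j hj] with m hm1 hm2
    rw [Real.dist_eq, sub_zero]
    by_contra hcon2
    push Not at hcon2
    have h1 : ι (γ' m j) ∈ Metric.ball (ι (γ j)) δ :=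
      Metric.ball_subset_ball hm1.le (hV2 m j (g2 m j))
    exact hball h1 ⟨γ' m j, ⟨⟨g1 m j, hcon2⟩, hm2⟩, rfl⟩
  set uJ : X := ∑ j ∈ J0, (a j : ℝ) • γ j with huJ
  have hy : ‖y - uJ‖ ≤ s := by
    apply norm_le_of_dual hs.le
    intro f hf
    have hlim : Tendsto (fun m => f (y - ∑ j, (a j : ℝ) • γ' m j)) (U : Filter ℕ) (𝓝 (f (y - uJ))) := by
      simp only [map_sub, map_sum, map_smul, smul_eq_mul, huJ]
      apply Tendsto.const_sub
      have h1 : ∑ j ∈ J0, (a j : ℝ) * f (γ j) = ∑ j, (if j ∈ J0 then (a j : ℝ) * f (γ j) else 0) := by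
        rw [Finset.sum_ite_mem, Finset.univ_inter]
      rw [h1]
      apply tendsto_finsetSum
      intro j _
      by_cases hj : j ∈ J0
      · rw [if_pos hj]
        apply Tendsto.congr' _ tendsto_const_nhds
        filter_upwards [hJ0mem j hj] with m hm
        rw [hm]
      · rw [if_neg hj]
        have := (hweak f j hj).const_mul (a j : ℝ)
        rw [mul_zero] at this
        exact this
    refine le_of_tendsto hlim (Filter.Eventually.of_forall ?_)
    intro m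
    calc f (y - ∑ j, (a j : ℝ) • γ' m j) ≤ |f (y - ∑ j, (a j : ℝ) • γ' m j)| := le_abs_self _
      _ ≤ ‖f‖ * ‖y - ∑ j, (a j : ℝ) • γ' m j‖ := f.le_opNorm _
      _ ≤ 1 * ‖y - ∑ j, (a j : ℝ) • γ' m j‖ := mul_le_mul_of_nonneg_right hf (norm_nonneg _)
      _ ≤ s := by rw [one_mul]; exact (g4 m).le
  -- choose one m
  have hall : ∀ᶠ m in (U : Filter ℕ), ∀ j ∈ J0, γ' m j = γ j := by
    rw [Filter.eventually_all_finset]
    exact hJ0mem
  obtain ⟨m, hm⟩ := hall.exists
  have h1 := g3 m J0ᶜ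
  have h2 := hnn J0ᶜ
  have h3 : ∑ j, (a j : ℝ) • γ' m j = uJ + ∑ j ∈ J0ᶜ, (a j : ℝ) • γ' m j := by
    rw [← Finset.sum_add_sum_compl J0, huJ]
    congr 1
    apply Finset.sum_congr rfl
    intro j hj
    rw [hm j hj]
  have h4 : ∑ j, (a j : ℝ) • γ j = uJ + ∑ j ∈ J0ᶜ, (a j : ℝ) • γ j := by
    rw [← Finset.sum_add_sum_compl J0, huJ]
  have h5 : ‖∑ j ∈ J0ᶜ, (a j : ℝ) • γ' m j‖ < 2 * s := by
    have e1 : ∑ j ∈ J0ᶜ, (a j : ℝ) • γ' m j = (y - uJ) - (y - ∑ j, (a j : ℝ) • γ' m j) := by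
      rw [h3]; abel
    rw [e1]
    calc ‖(y - uJ) - (y - ∑ j, (a j : ℝ) • γ' m j)‖ ≤ ‖y - uJ‖ + ‖y - ∑ j, (a j : ℝ) • γ' m j‖ :=
          norm_sub_le _ _
      _ < 2 * s := by have := g4 m; linarith
  have h6 : ‖y - ∑ j, (a j : ℝ) • γ j‖ ≤ ‖y - uJ‖ + ‖∑ j ∈ J0ᶜ, (a j : ℝ) • γ j‖ := by
    have e1 : y - ∑ j, (a j : ℝ) • γ j = (y - uJ) - ∑ j ∈ J0ᶜ, (a j : ℝ) • γ j := by
      rw [h4]; abel
    rw [e1]; exact norm_sub_le _ _
  rw [abs_lt] at h1 h2
  linarith [h1.1, h1.2, h2.1, h2.2]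

abbrev Idx : Type :=
  Σ n : ℕ, (Fin n → ℚ) × (Fin n → ↥(TopologicalSpace.countableBasis ℝ)) × (Finset (Fin n) → ℚ) × ℚ

instance : Countable ↥(TopologicalSpace.countableBasis ℝ) :=
  (TopologicalSpace.countable_countableBasis ℝ).to_subtype

instance : Countable Idx := inferInstance

instance : Nonempty Idx := ⟨⟨0, Fin.elim0, Fin.elim0, fun _ => 0, 0⟩⟩

noncomputable def FF (G : Set X) (ι : X → ℝ) (i : Idx) (x : X) : ℝ :=
  Metric.infDist x (AA G ι i.2.1 (fun j => (i.2.2.1 j).1) i.2.2.2.1 i.2.2.2.2)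

lemma FF_lip (G : Set X) (ι : X → ℝ) (i : Idx) (x y : X) : |FF G ι i x - FF G ι i y| ≤ ‖x - y‖ := by
  have h := (Metric.lipschitz_infDist_pt (AA G ι i.2.1 (fun j => (i.2.2.1 j).1) i.2.2.2.1 i.2.2.2.2)).dist_le_mul x y
  rw [Real.dist_eq, dist_eq_norm, NNReal.coe_one, one_mul] at h
  exact h

lemma sep_all (G : Set X) (hd : Dense (Submodule.span ℝ G : Set X)) (ι : X → ℝ)
    (hι : Function.Injective ι)
    (hc0 : ∀ f : StrongDual ℝ X, ∀ ε : ℝ, 0 < ε → {g ∈ G | ε ≤ |f g|}.Finite)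
    (x y : X) (hxy : x ≠ y) :
    ∃ i : Idx, ‖x - y‖ / 5 ≤ |FF G ι i x - FF G ι i y| := by
  have hd0 : 0 < ‖x - y‖ := norm_pos_iff.mpr (sub_ne_zero.mpr hxy)
  set d := ‖x - y‖ with hdd
  obtain ⟨η, hη0, hη1⟩ := exists_rat_btwn (show (0:ℝ) < d / 100 by positivity)
  obtain ⟨n, a, γ, hγ, hxu⟩ := approx G hd x hη0
  have hex : ∀ J : Finset (Fin n), ∃ q : ℚ, |‖∑ j ∈ J, (a j : ℝ) • γ j‖ - q| < η := fun J =>
    exists_rat_near _ hη0
  choose nn hnn using hex
  have hfar : 3 * (d / 4) + 2 * η ≤ ‖y - ∑ j, (a j : ℝ) • γ j‖ := by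
    have h1 : d ≤ ‖x - ∑ j, (a j : ℝ) • γ j‖ + ‖y - ∑ j, (a j : ℝ) • γ j‖ := by
      have e1 : x - y = (x - ∑ j, (a j : ℝ) • γ j) - (y - ∑ j, (a j : ℝ) • γ j) := by abel
      rw [hdd, e1]; exact norm_sub_le _ _
    linarith
  obtain ⟨V, hV1, hV2⟩ := separate G ι hι hc0 y a γ hγ nn η hnn (show 0 < d / 4 by positivity) hfar
  refine ⟨⟨n, a, V, nn, η⟩, ?_⟩
  have h1 : FF G ι ⟨n, a, V, nn, η⟩ x ≤ η := by
    unfold FF
    have hmem : ∑ j, (a j : ℝ) • γ j ∈ AA G ι a (fun j => (V j).1) nn η := ⟨γ, hγ, hV1, hnn, rfl⟩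
    refine (Metric.infDist_le_dist_of_mem hmem).trans ?_
    rw [dist_eq_norm]; exact hxu.le
  have h2 : d / 4 ≤ FF G ι ⟨n, a, V, nn, η⟩ y := hV2
  rw [abs_sub_comm]
  refine le_trans ?_ (le_abs_self _)
  linarith

theorem embed (G : Set X) (hd : Dense (Submodule.span ℝ G : Set X))
    (hc0 : ∀ f : StrongDual ℝ X, ∀ ε : ℝ, 0 < ε → {g ∈ G | ε ≤ |f g|}.Finite)
    (ι : X → ℝ) (hι : Function.Injective ι) :
    ∃ f : X → lp (fun _ : ℕ => ℝ) ⊤, ∃ a b : ℝ, 0 < a ∧ 0 < b ∧
        ∀ x y : X, a * dist x y ≤ dist (f x) (f y) ∧ dist (f x) (f y) ≤ b * dist x y := by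
  obtain ⟨en, hen⟩ := exists_surjective_nat Idx
  have hmem : ∀ x : X, Memℓp (fun k : ℕ => FF G ι (en k) x - FF G ι (en k) 0) ⊤ := by
    intro x
    apply memℓp_infty
    refine ⟨‖x‖, ?_⟩
    rintro _ ⟨k, rfl⟩
    have := FF_lip G ι (en k) x 0
    rw [sub_zero] at this
    exact this
  let φ : X → lp (fun _ : ℕ => ℝ) ⊤ := fun x => ⟨_, hmem x⟩
  have hφsub : ∀ x y k, (φ x - φ y) k = FF G ι (en k) x - FF G ι (en k) y := by
    intro x y k
    have : (φ x - φ y) k = φ x k - φ y k := rfl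
    rw [this]
    show FF G ι (en k) x - FF G ι (en k) 0 - (FF G ι (en k) y - FF G ι (en k) 0) = _
    ring
  refine ⟨φ, 1 / 5, 1, by norm_num, by norm_num, ?_⟩
  intro x y
  constructor
  · rw [dist_eq_norm, dist_eq_norm]
    by_cases hxy : x = y
    · rw [hxy]; simp
    obtain ⟨i, hi⟩ := sep_all G hd ι hι hc0 x y hxy
    obtain ⟨k, rfl⟩ := hen i
    have h1 : |FF G ι (en k) x - FF G ι (en k) y| ≤ ‖φ x - φ y‖ := by
      have := lp.norm_apply_le_norm (p := ⊤) (by simp) (φ x - φ y) k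
      rw [hφsub] at this
      exact this
    linarith
  · rw [dist_eq_norm, dist_eq_norm, one_mul]
    apply lp.norm_le_of_forall_le (norm_nonneg _)
    intro k
    rw [hφsub]
    exact FF_lip G ι (en k) x y

end Embed

end Pool.Agent.Helper830.RL

namespace Pool.Agent.Helper830.RL

lemma exists_inj {X : Type} [NormedAddCommGroup X] [NormedSpace ℝ X] {D : Set X} (hD : Dense D)
    (hc : Cardinal.mk D = Cardinal.continuum) : ∃ ι : X → ℝ, Function.Injective ι := by
  have h1 : ∀ (x : X) (n : ℕ), ∃ y : D, dist x y.1 < 1 / ((n : ℝ) + 1) := by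
    intro x n
    obtain ⟨y, hy, hxy⟩ := hD.exists_dist_lt x (ε := 1 / ((n : ℝ) + 1)) (by positivity)
    exact ⟨⟨y, hy⟩, hxy⟩
  choose s hs using h1
  have hinj : Function.Injective s := by
    intro x y hxy
    by_contra hne
    have hpos : 0 < dist x y := dist_pos.mpr hne
    obtain ⟨n, hn⟩ := exists_nat_one_div_lt (half_pos hpos)
    have h1 := hs x n
    have h2 := hs y n
    rw [← hxy] at h2
    have h3 := dist_triangle_right x y (s x n).1
    linarith
  have hcard : Cardinal.mk (ℕ → D) = Cardinal.mk ℝ := by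
    rw [Cardinal.mk_arrow, Cardinal.mk_real]
    simp only [Cardinal.mk_nat, Cardinal.lift_aleph0, hc, Cardinal.lift_continuum,
      Cardinal.continuum_power_aleph0]
  obtain ⟨e⟩ := Cardinal.eq.mp hcard
  exact ⟨fun x => e (s x), e.injective.comp hinj⟩

end Pool.Agent.Helper830.RL

open Pool Pool.MP_16d9f2_an

namespace Pool.Agent.S02657

/-- Every reflexive real Banach space whose smallest dense subset has exactly continuum cardinality admits a bi-Lipschitz map into the space of bounded real sequences with the sup norm. -/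
theorem result :
    ∀ (X : Type) [NormedAddCommGroup X] [NormedSpace ℝ X] [CompleteSpace X],
      Function.Surjective (NormedSpace.inclusionInDoubleDual ℝ X) →
      (∃ D : Set X, Dense D ∧ Cardinal.mk D = Cardinal.continuum) →
      (∀ D : Set X, Dense D → Cardinal.continuum ≤ Cardinal.mk D) →
      ∃ f : X → lp (fun _ : ℕ => ℝ) ⊤, ∃ a b : ℝ, 0 < a ∧ 0 < b ∧
        ∀ x y : X, a * dist x y ≤ dist (f x) (f y) ∧ dist (f x) (f y) ≤ b * dist x y := by
  intro X _ _ _ hr hD _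
  obtain ⟨D, hD1, hD2⟩ := hD
  obtain ⟨ι, hι⟩ := Pool.Agent.Helper830.RL.exists_inj hD1 hD2
  have hdr : DenseRange (Subtype.val : ↥D → X) := by
    unfold DenseRange
    rw [Subtype.range_coe]
    exact hD1
  obtain ⟨G, _, hG2, hG3⟩ := Pool.Agent.Helper830.RA.family _ X hr ↥D Subtype.val hdr rfl
  exact Pool.Agent.Helper830.RL.embed G hG2 hG3 ι hι

end Pool.Agent.S02657
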