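import Pool.Statements.S02659
import Pool.Agent.Helper746.RlFinal

set_option autoImplicit false
open MeasureTheory Filter Topology
open Pool Pool.MP_16e930_an

namespace Pool.Agent.S02659

/-- Every nonconstant quasiregular map of the open unit ball of 3-space into itself has a radial limit at some boundary point. Quasiregular means continuous, W^{1,3}_loc, and norm of derivative cubed at most K times its Jacobian a.e. -/
theorem result :
    ∀ f : EuclideanSpace ℝ (Fin 3) → EuclideanSpace ℝ (Fin 3),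
      (∀ x ∈ Metric.ball (0 : EuclideanSpace ℝ (Fin 3)) 1,
          f x ∈ Metric.ball (0 : EuclideanSpace ℝ (Fin 3)) 1) →
      ContinuousOn f (Metric.ball (0 : EuclideanSpace ℝ (Fin 3)) 1) →
      (∃ K : ℝ, ∃ Df : EuclideanSpace ℝ (Fin 3) →
            (EuclideanSpace ℝ (Fin 3) →L[ℝ] EuclideanSpace ℝ (Fin 3)),
          AEStronglyMeasurable Df
            (volume.restrict (Metric.ball (0 : EuclideanSpace ℝ (Fin 3)) 1)) ∧
          LocallyIntegrableOn (fun x => ‖Df x‖ ^ 3)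
            (Metric.ball (0 : EuclideanSpace ℝ (Fin 3)) 1) volume ∧
          (∀ φ : EuclideanSpace ℝ (Fin 3) → ℝ, ContDiff ℝ 1 φ → HasCompactSupport φ →
            tsupport φ ⊆ Metric.ball (0 : EuclideanSpace ℝ (Fin 3)) 1 →
            ∀ v : EuclideanSpace ℝ (Fin 3),
              ∫ x, (fderiv ℝ φ x v) • f x = -∫ x, φ x • (Df x v)) ∧
          (∀ᵐ x ∂(volume.restrict (Metric.ball (0 : EuclideanSpace ℝ (Fin 3)) 1)),
            ‖Df x‖ ^ 3 ≤ K * LinearMap.det (Df x).toLinearMap)) →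
      (¬ ∃ c : EuclideanSpace ℝ (Fin 3),
          ∀ x ∈ Metric.ball (0 : EuclideanSpace ℝ (Fin 3)) 1, f x = c) →
      ∃ ξ ∈ Metric.sphere (0 : EuclideanSpace ℝ (Fin 3)) 1,
        ∃ L : EuclideanSpace ℝ (Fin 3),
          Tendsto (fun t : ℝ => f (t • ξ)) (𝓝[<] (1 : ℝ)) (𝓝 L) := by
  intro f hb hf ⟨K, Df, hm, hl, hw, hq⟩ _
  obtain ⟨ξ, hξ, L, hL⟩ := Pool.Agent.Helper746.Rl.radial_limit hb hf hm hl hw hq
  exact ⟨ξ, by simpa using hξ, L, hL⟩

end Pool.Agent.S02659
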