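import Pool.Statements.S02664
-- import your own Pool.Agent.* helpers here

set_option autoImplicit false
open Pool Pool.MP_171342_an

namespace Pool.Agent.S02664

/-! ### Achievement sets: general facts -/

/-- the set of subsums -/
def E (f : ℕ → ℝ) : Set ℝ := {s : ℝ | ∃ A : Set ℕ, s = ∑' n, A.indicator f n}

section General

variable {x : ℕ → ℝ}

theorem gE_compact (hpos : ∀ n, 0 < x n) (hx : Summable x) : IsCompact (E x) := by
  have hc : Continuous (fun ε : ℕ → Bool => ∑' i, (if ε i = true then x i else 0)) := by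
    refine continuous_tsum (u := x) ?_ hx ?_
    · intro i
      have : (fun ε : ℕ → Bool => (if ε i = true then x i else 0))
          = (fun b : Bool => (if b = true then x i else 0)) ∘ (fun ε : ℕ → Bool => ε i) := rfl
      rw [this]
      exact (continuous_of_discreteTopology).comp (continuous_apply i)
    · intro i ε
      split_ifs
      · simp [abs_of_pos (hpos i)]
      · simpa using (hpos i).le
  have : E x = Set.range (fun ε : ℕ → Bool => ∑' i, (if ε i = true then x i else 0)) := by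
    ext s
    constructor
    · rintro ⟨A, rfl⟩
      classical
      refine ⟨fun i => decide (i ∈ A), ?_⟩
      refine tsum_congr fun i => ?_
      by_cases hi : i ∈ A <;> simp [hi]
    · rintro ⟨ε, rfl⟩
      refine ⟨{i | ε i = true}, ?_⟩
      refine tsum_congr fun i => ?_
      by_cases hi : ε i = true <;> simp [hi]
  rw [this]
  exact isCompact_range hc

theorem gE_nonneg (hpos : ∀ n, 0 < x n) (s : ℝ) (hs : s ∈ E x) : 0 ≤ s := by
  obtain ⟨A, rfl⟩ := hs
  exact tsum_nonneg fun n => Set.indicator_nonneg (fun n _ => (hpos n).le) n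

theorem gE_symm (hx : Summable x) (s : ℝ) (hs : s ∈ E x) : ∑' n, x n - s ∈ E x := by
  obtain ⟨A, rfl⟩ := hs
  refine ⟨Aᶜ, ?_⟩
  rw [← hx.tsum_sub (hx.indicator A)]
  refine tsum_congr fun n => ?_
  have := congrFun (Set.indicator_self_add_compl A x) n
  simp only [Pi.add_apply] at this
  linarith

theorem gE_cons (hx : Summable x) (N : ℕ) (F : Finset ℕ) (hF : F ⊆ Finset.range N) (e : ℝ)
    (he : e ∈ E (fun n => x (n + N))) : ∑ i ∈ F, x i + e ∈ E x := by
  classical
  obtain ⟨A, rfl⟩ := he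
  refine ⟨{n | (n < N ∧ n ∈ F) ∨ (N ≤ n ∧ n - N ∈ A)}, ?_⟩
  rw [← (hx.indicator {n | (n < N ∧ n ∈ F) ∨ (N ≤ n ∧ n - N ∈ A)}).sum_add_tsum_nat_add N]
  congr 1
  · refine Eq.trans ?_ (Finset.sum_subset hF ?_)
    · refine Finset.sum_congr rfl fun i hi => ?_
      have hi' := Finset.mem_range.1 (hF hi)
      rw [Set.indicator_of_mem (by exact Or.inl ⟨hi', hi⟩)]
    · intro i hi hi2
      have hi' := Finset.mem_range.1 hi
      rw [Set.indicator_of_notMem]
      rintro (h | h)
      · exact hi2 h.2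
      · exact absurd h.1 (by omega)
  · refine tsum_congr fun n => ?_
    have hiff : n + N ∈ ({n | (n < N ∧ n ∈ F) ∨ (N ≤ n ∧ n - N ∈ A)} : Set ℕ) ↔ n ∈ A := by
      simp only [Set.mem_ofPred_eq]
      constructor
      · rintro (h | h)
        · omega
        · have := h.2
          rwa [Nat.add_sub_cancel] at this
      · intro h
        right
        exact ⟨by omega, by rwa [Nat.add_sub_cancel]⟩
    rw [Set.indicator_apply, Set.indicator_apply]
    simp only [hiff]

theorem gE_dec (hx : Summable x) (N : ℕ) (s : ℝ) (hs : s ∈ E x) :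
    ∃ F : Finset ℕ, F ⊆ Finset.range N ∧ ∃ e ∈ E (fun n => x (n + N)), s = ∑ i ∈ F, x i + e := by
  classical
  obtain ⟨A, rfl⟩ := hs
  refine ⟨(Finset.range N).filter (· ∈ A), Finset.filter_subset _ _,
    ∑' n, ({n | n + N ∈ A} : Set ℕ).indicator (fun n => x (n + N)) n, ⟨_, rfl⟩, ?_⟩
  rw [← (hx.indicator A).sum_add_tsum_nat_add N]
  congr 1
  rw [Finset.sum_filter]
  exact Finset.sum_congr rfl fun i hi => by rw [Set.indicator_apply]

/-- removing one used term -/
theorem gE_remove (hx : Summable x) (s : ℝ) (hs : s ∈ E x) (h0 : s ≠ 0) :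
    ∃ n, s - x n ∈ E x := by
  classical
  obtain ⟨A, rfl⟩ := hs
  have hne : A.Nonempty := by
    by_contra h
    rw [Set.not_nonempty_iff_eq_empty] at h
    apply h0
    simp [h]
  obtain ⟨n, hn⟩ := hne
  refine ⟨n, A \ {n}, ?_⟩
  have h1 : ∑' k, ({n} : Set ℕ).indicator x k = x n := by
    rw [tsum_eq_single n]
    · simp
    · intro k hk
      simp [hk]
  rw [← h1, ← (hx.indicator A).tsum_sub (hx.indicator {n})]
  refine tsum_congr fun k => ?_
  by_cases hk : k = n
  · subst hk
    simp [hn]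
  · by_cases hkA : k ∈ A <;> simp [hk, hkA]

/-- to the right of the right endpoint of a gap there are points outside `E` -/
theorem gap_right (hpos : ∀ n, 0 < x n) (hx : Summable x)
    (H : ∀ δ > 0, ∃ w, 0 < w ∧ w < δ ∧ w ∉ E x) (y v : ℝ) (hy : y < v)
    (hgap : ∀ z, y < z → z < v → z ∉ E x) : ∀ δ > 0, ∃ w, v < w ∧ w < v + δ ∧ w ∉ E x := by
  intro δ hδ
  have hlim : Filter.Tendsto x Filter.atTop (nhds 0) := hx.tendsto_atTop_zero
  obtain ⟨N, hN⟩ := Filter.eventually_atTop.1 (hlim.eventually_lt_const (sub_pos.2 hy))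
  have hxN : Summable (fun n => x (n + N)) := (summable_nat_add_iff N).2 hx
  have hcN : IsCompact (E (fun n => x (n + N))) := gE_compact (fun n => hpos _) hxN
  let U : Set ℝ := ⋃ F ∈ {F : Finset ℕ | F ∈ (Finset.range N).powerset ∧ ∑ i ∈ F, x i ≠ v},
    (fun e => ∑ i ∈ F, x i + e) '' E (fun n => x (n + N))
  have hUc : IsClosed U := by
    refine Set.Finite.isClosed_biUnion ?_ ?_
    · exact ((Finset.range N).powerset.finite_toSet).subset fun F hF => hF.1
    · intro F _
      exact (hcN.image (continuous_const.add continuous_id)).isClosed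
  have hvU : v ∉ U := by
    intro h
    simp only [U, Set.mem_iUnion] at h
    obtain ⟨F, ⟨hF, hne⟩, e, he, heq⟩ := h
    have he0 : e ≠ 0 := by
      rintro rfl
      apply hne
      simpa using heq
    obtain ⟨n, hn⟩ := gE_remove hxN e he he0
    have h1 := gE_cons hx N F (Finset.mem_powerset.1 hF) _ hn
    have h2 := hN (n + N) (Nat.le_add_left _ _)
    have h3 := hpos (n + N)
    dsimp only at heq
    refine hgap _ ?_ ?_ h1
    · linarith
    · linarith
  obtain ⟨δ₀, hδ₀, hball⟩ := Metric.isOpen_iff.1 hUc.isOpen_compl v hvU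
  obtain ⟨w, hw0, hw1, hw2⟩ := H (min δ δ₀) (lt_min hδ hδ₀)
  refine ⟨v + w, by linarith, by linarith [min_le_left δ δ₀], ?_⟩
  intro hmem
  obtain ⟨F, hF, e, he, heq⟩ := gE_dec hx N _ hmem
  by_cases hFv : ∑ i ∈ F, x i = v
  · have hew : e = w := by linarith
    apply hw2
    have := gE_cons hx N ∅ (Finset.empty_subset _) e he
    rw [Finset.sum_empty, zero_add, hew] at this
    exact this
  · have h1 : v + w ∈ U := by
      simp only [U, Set.mem_iUnion]
      exact ⟨F, ⟨Finset.mem_powerset.2 hF, hFv⟩, e, he, heq.symm⟩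
    have h2 : v + w ∈ Metric.ball v δ₀ := by
      rw [Metric.mem_ball, Real.dist_eq]
      have : v + w - v = w := by ring
      rw [this, abs_of_pos hw0]
      exact lt_of_lt_of_le hw1 (min_le_right _ _)
    exact hball h2 h1

/-- to the left of the left endpoint of a gap there are points outside `E` -/
theorem gap_left (hpos : ∀ n, 0 < x n) (hx : Summable x)
    (H : ∀ δ > 0, ∃ w, 0 < w ∧ w < δ ∧ w ∉ E x) (y v : ℝ) (hy : v < y)
    (hgap : ∀ z, v < z → z < y → z ∉ E x) : ∀ δ > 0, ∃ w, v - δ < w ∧ w < v ∧ w ∉ E x := by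
  intro δ hδ
  have h1 : ∀ z, ∑' n, x n - y < z → z < ∑' n, x n - v → z ∉ E x := by
    intro z hz1 hz2 hz
    have := gE_symm hx z hz
    exact hgap _ (by linarith) (by linarith) this
  obtain ⟨w, hw1, hw2, hw3⟩ := gap_right hpos hx H (∑' n, x n - y) (∑' n, x n - v) (by linarith)
    h1 δ hδ
  refine ⟨∑' n, x n - w, by linarith, by linarith, fun h => hw3 ?_⟩
  have := gE_symm hx _ h
  simpa using this

theorem comp_trivial (S : Set ℝ) (v : ℝ) (hv : v ∈ S) (hr : ∀ δ > 0, ∃ w, v < w ∧ w < v + δ ∧ w ∉ S)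
    (hl : ∀ δ > 0, ∃ w, v - δ < w ∧ w < v ∧ w ∉ S) : connectedComponentIn S v = {v} := by
  apply Set.Subset.antisymm
  · intro z hz
    rw [Set.mem_singleton_iff]
    by_contra hne
    have hpre := isPreconnected_connectedComponentIn (x := v) (F := S)
    have hmv := mem_connectedComponentIn hv
    have hsub := connectedComponentIn_subset S v
    rcases lt_or_gt_of_ne hne with h | h
    · obtain ⟨w, hw1, hw2, hw3⟩ := hl (v - z) (by linarith)
      exact hw3 (hsub (hpre.Icc_subset hz hmv ⟨by linarith, hw2.le⟩))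
    · obtain ⟨w, hw1, hw2, hw3⟩ := hr (z - v) (by linarith)
      exact hw3 (hsub (hpre.Icc_subset hmv hz ⟨hw1.le, by linarith⟩))
  · intro z hz
    rw [Set.mem_singleton_iff.1 hz]
    exact mem_connectedComponentIn hv

/-- the endpoint condition in the definition of a Cantorval -/
theorem endpoints (hpos : ∀ n, 0 < x n) (hx : Summable x)
    (H : ∀ δ > 0, ∃ w, 0 < w ∧ w < δ ∧ w ∉ E x) :
    ∀ p ∈ E x, (connectedComponentIn (E x) p).Nontrivial →
      sInf (connectedComponentIn (E x) p) ∈ closure {y ∈ E x | connectedComponentIn (E x) y = {y}} ∧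
      sSup (connectedComponentIn (E x) p) ∈ closure {y ∈ E x | connectedComponentIn (E x) y = {y}} := by
  intro p hp hnt
  have hcomp := gE_compact hpos hx
  set C := connectedComponentIn (E x) p with hC
  have hCsub : C ⊆ E x := connectedComponentIn_subset _ _
  have hCne : C.Nonempty := ⟨p, mem_connectedComponentIn hp⟩
  have hpre : IsPreconnected C := isPreconnected_connectedComponentIn
  have hbb : BddBelow C := hcomp.bddBelow.mono hCsub
  have hba : BddAbove C := hcomp.bddAbove.mono hCsub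
  obtain ⟨a, ha, b, hb, hab⟩ := hnt
  constructor
  · -- left endpoint
    set α := sInf C with hα
    have hαE : α ∈ E x := by
      have h1 : α ∈ closure C := csInf_mem_closure hCne hbb
      exact hcomp.isClosed.closure_subset_iff.2 hCsub h1
    -- a point of C strictly above α
    obtain ⟨z, hzC, hz⟩ : ∃ z ∈ C, α < z := by
      have h1 := csInf_le hbb ha
      have h2 := csInf_le hbb hb
      rcases lt_or_gt_of_ne hab with h | h
      · exact ⟨b, hb, lt_of_le_of_lt h1 h⟩
      · exact ⟨a, ha, lt_of_le_of_lt h2 h⟩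
    have hIoc : Set.Icc α z ⊆ E x := by
      intro u hu
      rcases eq_or_lt_of_le hu.1 with h | h
      · rw [← h]; exact hαE
      · obtain ⟨c, hc, hcu⟩ := exists_lt_of_csInf_lt hCne h
        exact hCsub (hpre.Icc_subset hc hzC ⟨hcu.le, hu.2⟩)
    rw [Metric.mem_closure_iff]
    intro δ hδ
    -- a point outside E to the left of α
    obtain ⟨y, hy1, hy2, hy3⟩ : ∃ y, α - δ < y ∧ y < α ∧ y ∉ E x := by
      by_contra hcon
      push Not at hcon
      have hsub : Set.Ioc (α - δ) z ⊆ E x := by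
        intro u hu
        rcases lt_or_ge u α with h | h
        · exact hcon u hu.1 h
        · exact hIoc ⟨h, hu.2⟩
      have h1 : Set.Ioc (α - δ) z ⊆ connectedComponentIn (E x) z :=
        isPreconnected_Ioc.subset_connectedComponentIn ⟨by linarith, le_rfl⟩ hsub
      have h2 : connectedComponentIn (E x) z = C := (connectedComponentIn_eq hzC).symm
      rw [h2] at h1
      have h3 : α - δ / 2 ∈ C := h1 ⟨by linarith, by linarith⟩
      have := csInf_le hbb h3
      linarith
    -- the right endpoint of the gap containing y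
    have hV : (E x ∩ Set.Ici y).Nonempty := ⟨α, hαE, hy2.le⟩
    have hVb : BddBelow (E x ∩ Set.Ici y) := ⟨y, fun u hu => hu.2⟩
    have hvm : sInf (E x ∩ Set.Ici y) ∈ E x ∩ Set.Ici y :=
      (hcomp.isClosed.inter isClosed_Ici).csInf_mem hV hVb
    set v := sInf (E x ∩ Set.Ici y) with hv
    have hvα : v ≤ α := csInf_le hVb ⟨hαE, hy2.le⟩
    have hyv : y < v := lt_of_le_of_ne hvm.2 (fun h => hy3 (h ▸ hvm.1))
    have hgap : ∀ u, y < u → u < v → u ∉ E x := fun u hu1 hu2 hu =>
      absurd (csInf_le hVb ⟨hu, hu1.le⟩) (not_le.2 hu2)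
    refine ⟨v, ⟨hvm.1, ?_⟩, ?_⟩
    · apply comp_trivial _ _ hvm.1 (gap_right hpos hx H y v hyv hgap)
      intro δ' hδ'
      refine ⟨max ((y + v) / 2) (v - δ' / 2), ?_, ?_, ?_⟩
      · exact lt_of_lt_of_le (by linarith) (le_max_right _ _)
      · exact max_lt (by linarith) (by linarith)
      · exact hgap _ (lt_of_lt_of_le (by linarith) (le_max_left _ _))
          (max_lt (by linarith) (by linarith))
    · rw [Real.dist_eq, abs_of_nonneg (by linarith)]
      linarith
  · -- right endpoint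
    set α := sSup C with hα
    have hαE : α ∈ E x := by
      have h1 : α ∈ closure C := csSup_mem_closure hCne hba
      exact hcomp.isClosed.closure_subset_iff.2 hCsub h1
    obtain ⟨z, hzC, hz⟩ : ∃ z ∈ C, z < α := by
      have h1 := le_csSup hba ha
      have h2 := le_csSup hba hb
      rcases lt_or_gt_of_ne hab with h | h
      · exact ⟨a, ha, lt_of_lt_of_le h h2⟩
      · exact ⟨b, hb, lt_of_lt_of_le h h1⟩
    have hIoc : Set.Icc z α ⊆ E x := by
      intro u hu
      rcases eq_or_lt_of_le hu.2 with h | h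
      · rw [h]; exact hαE
      · obtain ⟨c, hc, hcu⟩ := exists_lt_of_lt_csSup hCne h
        exact hCsub (hpre.Icc_subset hzC hc ⟨hu.1, hcu.le⟩)
    rw [Metric.mem_closure_iff]
    intro δ hδ
    obtain ⟨y, hy1, hy2, hy3⟩ : ∃ y, y < α + δ ∧ α < y ∧ y ∉ E x := by
      by_contra hcon
      push Not at hcon
      have hsub : Set.Ico z (α + δ) ⊆ E x := by
        intro u hu
        rcases lt_or_ge α u with h | h
        · exact hcon u hu.2 h
        · exact hIoc ⟨hu.1, h⟩
      have h1 : Set.Ico z (α + δ) ⊆ connectedComponentIn (E x) z :=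
        isPreconnected_Ico.subset_connectedComponentIn ⟨le_rfl, by linarith⟩ hsub
      have h2 : connectedComponentIn (E x) z = C := (connectedComponentIn_eq hzC).symm
      rw [h2] at h1
      have h3 : α + δ / 2 ∈ C := h1 ⟨by linarith, by linarith⟩
      have := le_csSup hba h3
      linarith
    have hV : (E x ∩ Set.Iic y).Nonempty := ⟨α, hαE, hy2.le⟩
    have hVb : BddAbove (E x ∩ Set.Iic y) := ⟨y, fun u hu => hu.2⟩
    have hvm : sSup (E x ∩ Set.Iic y) ∈ E x ∩ Set.Iic y :=
      (hcomp.isClosed.inter isClosed_Iic).csSup_mem hV hVb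
    set v := sSup (E x ∩ Set.Iic y) with hv
    have hvα : α ≤ v := le_csSup hVb ⟨hαE, hy2.le⟩
    have hyv : v < y := lt_of_le_of_ne hvm.2 (fun h => hy3 (h ▸ hvm.1))
    have hgap : ∀ u, v < u → u < y → u ∉ E x := fun u hu1 hu2 hu =>
      absurd (le_csSup hVb ⟨hu, hu2.le⟩) (not_le.2 hu1)
    refine ⟨v, ⟨hvm.1, ?_⟩, ?_⟩
    · refine comp_trivial _ _ hvm.1 ?_ (gap_left hpos hx H y v hyv hgap)
      intro δ' hδ'
      refine ⟨min ((y + v) / 2) (v + δ' / 2), ?_, ?_, ?_⟩
      · exact lt_min (by linarith) (by linarith)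
      · exact lt_of_le_of_lt (min_le_right _ _) (by linarith)
      · exact hgap _ (lt_min (by linarith) (by linarith))
          (lt_of_le_of_lt (min_le_left _ _) (by linarith))
    · rw [Real.dist_eq, abs_of_nonpos (by linarith)]
      linarith

end General

/-! ### General facts on sequences with `f (n + p) = f n / 90` -/


/-- the block sequence with weights `w 0, …, w (p-1)` and ratio `1/90` -/
noncomputable def bs (p : ℕ) (w : ℕ → ℕ) (n : ℕ) : ℝ := (w (n % p) : ℝ) / 90 ^ (n / p)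

theorem bs_nonneg (p : ℕ) (w : ℕ → ℕ) (n : ℕ) : 0 ≤ bs p w n := by
  unfold bs; positivity

theorem bs_shift (p : ℕ) (hp : 0 < p) (w : ℕ → ℕ) (n : ℕ) : bs p w (n + p) = bs p w n / 90 := by
  unfold bs
  rw [Nat.add_mod_right, Nat.add_div_right n hp, pow_succ]
  field_simp

theorem bs_block (p : ℕ) (hp : 0 < p) (w : ℕ → ℕ) (J i : ℕ) (hi : i < p) :
    bs p w (p * J + i) = (w i : ℝ) / 90 ^ J := by
  unfold bs
  rw [Nat.mul_add_mod, Nat.mod_eq_of_lt hi, Nat.mul_add_div hp, Nat.div_eq_of_lt hi, add_zero]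

theorem bs_small (p : ℕ) (w : ℕ → ℕ) (i : ℕ) (hi : i < p) : bs p w i = (w i : ℝ) := by
  unfold bs
  rw [Nat.mod_eq_of_lt hi, Nat.div_eq_of_lt hi]
  simp

theorem sum_blocks (p : ℕ) (hp : 0 < p) (w : ℕ → ℕ) (N : ℕ) :
    ∑ n ∈ Finset.range (p * N), bs p w n
      = (∑ i ∈ Finset.range p, (w i : ℝ)) * (90 / 89 * (1 - 1 / 90 ^ N)) := by
  induction N with
  | zero => simp
  | succ N ih =>
    rw [Nat.mul_succ, Finset.sum_range_add, ih]
    have : ∑ i ∈ Finset.range p, bs p w (p * N + i) = (∑ i ∈ Finset.range p, (w i : ℝ)) / 90 ^ N := by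
      rw [Finset.sum_div]
      exact Finset.sum_congr rfl fun i hi => bs_block p hp w N i (Finset.mem_range.1 hi)
    rw [this, pow_succ]
    field_simp
    ring

theorem bs_summable (p : ℕ) (hp : 0 < p) (w : ℕ → ℕ) : Summable (bs p w) := by
  refine summable_of_sum_range_le (c := (∑ i ∈ Finset.range p, (w i : ℝ)) * (90 / 89))
    (bs_nonneg p w) fun N => ?_
  have h1 : ∑ n ∈ Finset.range N, bs p w n ≤ ∑ n ∈ Finset.range (p * N), bs p w n :=
    Finset.sum_le_sum_of_subset_of_nonneg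
      (Finset.range_mono (Nat.le_mul_of_pos_left N hp)) (fun _ _ _ => bs_nonneg p w _)
  rw [sum_blocks p hp w N] at h1
  refine h1.trans ?_
  have h2 : (0 : ℝ) ≤ ∑ i ∈ Finset.range p, (w i : ℝ) := Finset.sum_nonneg fun _ _ => by positivity
  refine mul_le_mul_of_nonneg_left ?_ h2
  have h3 : (0 : ℝ) < 1 / 90 ^ N := by positivity
  linarith

theorem ind_summable {f : ℕ → ℝ} (hf : Summable f) (A : Set ℕ) : Summable (A.indicator f) :=
  hf.indicator A

/-- decomposition of a subsum -/
theorem dec (p : ℕ) (hp : 0 < p) (w : ℕ → ℕ) (s : ℝ) (hs : s ∈ E (bs p w)) :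
    ∃ S : Finset ℕ, S ⊆ Finset.range p ∧ ∃ s' ∈ E (bs p w),
      s = ((∑ i ∈ S, w i : ℕ) : ℝ) + s' / 90 := by
  classical
  obtain ⟨A, rfl⟩ := hs
  refine ⟨(Finset.range p).filter (· ∈ A), Finset.filter_subset _ _,
    ∑' n, ({n | n + p ∈ A} : Set ℕ).indicator (bs p w) n, ⟨_, rfl⟩, ?_⟩
  rw [← (ind_summable (bs_summable p hp w) A).sum_add_tsum_nat_add p]
  congr 1
  · push_cast
    rw [Finset.sum_filter]
    refine Finset.sum_congr rfl fun i hi => ?_
    rw [Set.indicator_apply]
    split_ifs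
    · exact bs_small p w i (Finset.mem_range.1 hi)
    · rfl
  · rw [← tsum_div_const]
    refine tsum_congr fun n => ?_
    rw [Set.indicator_apply, Set.indicator_apply]
    simp only [Set.mem_ofPred_eq]
    split_ifs
    · exact bs_shift p hp w n
    · simp

/-- bounded self-reproducing sequences give subsums -/
theorem coind (p : ℕ) (hp : 0 < p) (w : ℕ → ℕ) (t : ℕ → ℝ) (B : ℝ) (hB : ∀ j, |t j| ≤ B)
    (S : ℕ → Finset ℕ) (hS : ∀ j, S j ⊆ Finset.range p)
    (h : ∀ j, t j = ((∑ i ∈ S j, w i : ℕ) : ℝ) + t (j + 1) / 90) : t 0 ∈ E (bs p w) := by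
  classical
  let A : Set ℕ := {n | n % p ∈ S (n / p)}
  refine ⟨A, ?_⟩
  have hpart : ∀ J, ∑ n ∈ Finset.range (p * J), A.indicator (bs p w) n = t 0 - t J / 90 ^ J := by
    intro J
    induction J with
    | zero => simp
    | succ J ih =>
      rw [Nat.mul_succ, Finset.sum_range_add, ih]
      have h1 : ∑ i ∈ Finset.range p, A.indicator (bs p w) (p * J + i)
          = ((∑ i ∈ S J, w i : ℕ) : ℝ) / 90 ^ J := by
        push_cast
        rw [Finset.sum_div, ← Finset.sum_subset (hS J)]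
        · refine Finset.sum_congr rfl fun i hi => ?_
          have hi' := Finset.mem_range.1 (hS J hi)
          rw [Set.indicator_of_mem, bs_block p hp w J i hi']
          change (p * J + i) % p ∈ S ((p * J + i) / p)
          rw [Nat.mul_add_mod, Nat.mod_eq_of_lt hi', Nat.mul_add_div hp, Nat.div_eq_of_lt hi',
            add_zero]
          exact hi
        · intro i hi hi2
          have hi' := Finset.mem_range.1 hi
          rw [Set.indicator_of_notMem]
          change ¬ ((p * J + i) % p ∈ S ((p * J + i) / p))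
          rw [Nat.mul_add_mod, Nat.mod_eq_of_lt hi', Nat.mul_add_div hp, Nat.div_eq_of_lt hi',
            add_zero]
          exact hi2
      have h2 := h J
      have h3 : ((∑ i ∈ S J, w i : ℕ) : ℝ) = t J - t (J + 1) / 90 := by linarith
      rw [h1, h3, pow_succ]
      field_simp
      ring
  have hlim1 : Filter.Tendsto (fun J => ∑ n ∈ Finset.range (p * J), A.indicator (bs p w) n)
      Filter.atTop (nhds (∑' n, A.indicator (bs p w) n)) := by
    have h1 := (ind_summable (bs_summable p hp w) A).hasSum.tendsto_sum_nat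
    exact h1.comp (Filter.tendsto_atTop_mono (fun J => Nat.le_mul_of_pos_left J hp)
      Filter.tendsto_id)
  have hlim2 : Filter.Tendsto (fun J => t 0 - t J / 90 ^ J) Filter.atTop (nhds (t 0)) := by
    have h0 : Filter.Tendsto (fun J => t J / 90 ^ J) Filter.atTop (nhds 0) := by
      have hgeo : Filter.Tendsto (fun J : ℕ => B * (1 / 90 : ℝ) ^ J) Filter.atTop (nhds 0) := by
        have := (tendsto_pow_atTop_nhds_zero_of_lt_one (r := (1 / 90 : ℝ)) (by norm_num)
          (by norm_num)).const_mul B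
        simpa using this
      refine squeeze_zero_norm (fun J => ?_) hgeo
      rw [Real.norm_eq_abs, abs_div, abs_of_pos (by positivity : (0 : ℝ) < 90 ^ J), one_div_pow,
        mul_one_div]
      exact div_le_div_of_nonneg_right (hB J) (by positivity)
    simpa using h0.const_sub (t 0)
  simp only [hpart] at hlim1
  exact tendsto_nhds_unique hlim2 hlim1

theorem E_nonneg (p : ℕ) (w : ℕ → ℕ) (s : ℝ) (hs : s ∈ E (bs p w)) : 0 ≤ s := by
  obtain ⟨A, rfl⟩ := hs
  exact tsum_nonneg fun n => Set.indicator_nonneg (fun n _ => bs_nonneg p w n) n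

theorem E_le (p : ℕ) (hp : 0 < p) (w : ℕ → ℕ) (s : ℝ) (hs : s ∈ E (bs p w)) :
    s ≤ ∑' n, bs p w n := by
  obtain ⟨A, rfl⟩ := hs
  exact (ind_summable (bs_summable p hp w) A).tsum_le_tsum
    (fun n => Set.indicator_le_self' (fun n _ => bs_nonneg p w n) n) (bs_summable p hp w)

theorem tsum_bs (p : ℕ) (hp : 0 < p) (w : ℕ → ℕ) :
    ∑' n, bs p w n = (∑ i ∈ Finset.range p, (w i : ℝ)) * (90 / 89) := by
  have h1 := (bs_summable p hp w).sum_add_tsum_nat_add p
  have h2 : ∑' n, bs p w (n + p) = (∑' n, bs p w n) / 90 := by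
    rw [← tsum_div_const]
    exact tsum_congr fun n => bs_shift p hp w n
  have h3 : ∑ i ∈ Finset.range p, bs p w i = ∑ i ∈ Finset.range p, (w i : ℝ) :=
    Finset.sum_congr rfl fun i hi => bs_small p w i (Finset.mem_range.1 hi)
  rw [h2, h3] at h1
  linarith

/-! ### The two sequences -/

/-- weights of `x` -/
def wx (i : ℕ) : ℕ := if i = 0 then 360 else 24

/-- weights of `y` -/
def wy (i : ℕ) : ℕ := if i < 9 then 28 + 3 * i else 24

/-- the finite set of block sums of `y` -/
def D : Finset ℕ := (Finset.range 10).powerset.image (fun S => ∑ i ∈ S, wy i)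

theorem D_mem (S : Finset ℕ) (hS : S ⊆ Finset.range 10) : ∑ i ∈ S, wy i ∈ D :=
  Finset.mem_image.2 ⟨S, Finset.mem_powerset.2 hS, rfl⟩

theorem D_cases : ∀ d ∈ D, d = 0 ∨ d = 24 ∨ d = 28 ∨ d = 356 ∨ d = 360 ∨ d = 384 ∨
    (31 ≤ d ∧ d ≤ 353) := by
  decide +kernel

theorem D_dense : ∀ n ∈ Finset.Icc 28 355, ∃ d ∈ D, n ≤ d + 2 ∧ d ≤ n := by
  decide +kernel

theorem D_spec : 0 ∈ D ∧ 24 ∈ D ∧ 28 ∈ D ∧ 356 ∈ D ∧ 360 ∈ D ∧ 384 ∈ D := by
  decide +kernel

/-! ### Closure principles -/

theorem coind_set (p : ℕ) (hp : 0 < p) (w : ℕ → ℕ) (A : Set ℝ) (B : ℝ) (hB : ∀ a ∈ A, |a| ≤ B)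
    (hA : ∀ a ∈ A, ∃ S : Finset ℕ, S ⊆ Finset.range p ∧ ∃ a' ∈ A,
      a = ((∑ i ∈ S, w i : ℕ) : ℝ) + a' / 90) : A ⊆ E (bs p w) := by
  intro a ha
  choose! S hS a' ha' h using hA
  have hmem : ∀ j, a'^[j] a ∈ A := by
    intro j
    induction j with
    | zero => exact ha
    | succ j ih => rw [Function.iterate_succ_apply']; exact ha' _ ih
  have := coind p hp w (fun j => a'^[j] a) B (fun j => hB _ (hmem j)) (fun j => S (a'^[j] a))
    (fun j => hS _ (hmem j)) (fun j => by
      have := h _ (hmem j)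
      rw [Function.iterate_succ_apply']
      exact this)
  exact this

theorem E_cons (p : ℕ) (hp : 0 < p) (w : ℕ → ℕ) (S : Finset ℕ) (hS : S ⊆ Finset.range p)
    (s : ℝ) (hs : s ∈ E (bs p w)) : ((∑ i ∈ S, w i : ℕ) : ℝ) + s / 90 ∈ E (bs p w) := by
  classical
  obtain ⟨A, rfl⟩ := hs
  refine ⟨{n | (n < p ∧ n ∈ S) ∨ (p ≤ n ∧ n - p ∈ A)}, ?_⟩
  rw [← (ind_summable (bs_summable p hp w)
    {n | (n < p ∧ n ∈ S) ∨ (p ≤ n ∧ n - p ∈ A)}).sum_add_tsum_nat_add p]
  congr 1
  · push_cast
    refine Eq.trans ?_ (Finset.sum_subset hS ?_)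
    · refine Finset.sum_congr rfl fun i hi => ?_
      have hi' := Finset.mem_range.1 (hS hi)
      rw [Set.indicator_of_mem (by exact Or.inl ⟨hi', hi⟩), bs_small p w i hi']
    · intro i hi hi2
      have hi' := Finset.mem_range.1 hi
      rw [Set.indicator_of_notMem]
      rintro (h | h)
      · exact hi2 h.2
      · exact absurd h.1 (by omega)
  · rw [← tsum_div_const]
    refine tsum_congr fun n => ?_
    have hiff : n + p ∈ ({n | (n < p ∧ n ∈ S) ∨ (p ≤ n ∧ n - p ∈ A)} : Set ℕ) ↔ n ∈ A := by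
      simp only [Set.mem_ofPred_eq]
      constructor
      · rintro (h | h)
        · omega
        · have := h.2
          rwa [Nat.add_sub_cancel] at this
      · intro h
        right
        exact ⟨by omega, by rwa [Nat.add_sub_cancel]⟩
    rw [Set.indicator_apply, Set.indicator_apply]
    simp only [hiff]
    split_ifs
    · exact (bs_shift p hp w n).symm
    · simp

theorem E_zero (p : ℕ) (w : ℕ → ℕ) : (0 : ℝ) ∈ E (bs p w) := ⟨∅, by simp⟩

/-! ### Concrete values -/

noncomputable abbrev X : ℕ → ℝ := bs 2 wx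
noncomputable abbrev Y : ℕ → ℝ := bs 10 wy

theorem tsum_X : ∑' n, X n = 34560 / 89 := by
  rw [tsum_bs 2 (by norm_num)]
  simp [Finset.sum_range_succ, wx]
  norm_num

theorem tsum_Y : ∑' n, Y n = 34560 / 89 := by
  rw [tsum_bs 10 (by norm_num)]
  simp [Finset.sum_range_succ, wy]
  norm_num

theorem X_shift (n : ℕ) : X (n + 2) = X n / 90 := bs_shift 2 (by norm_num) wx n

theorem X_zero : X 0 = 360 := by rw [X, bs_small 2 wx 0 (by norm_num)]; simp [wx]

theorem X_one : X 1 = 24 := by rw [X, bs_small 2 wx 1 (by norm_num)]; simp [wx]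

theorem X_pos (n : ℕ) : 0 < X n := by
  have : 0 < wx (n % 2) := by unfold wx; split_ifs <;> norm_num
  unfold X bs
  positivity

theorem Y_pos (n : ℕ) : 0 < Y n := by
  have : 0 < wy (n % 10) := by unfold wy; split_ifs <;> omega
  unfold Y bs
  positivity

theorem X_summable : Summable X := bs_summable 2 (by norm_num) wx

theorem tail_shift (m : ℕ) : ∑' k, X (m + 2 + k) = (∑' k, X (m + k)) / 90 := by
  rw [← tsum_div_const]
  refine tsum_congr fun k => ?_
  rw [show m + 2 + k = m + k + 2 by ring, X_shift]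

theorem tail_zero : ∑' k, X (0 + 1 + k) = 2520 / 89 := by
  have h1 := X_summable.sum_add_tsum_nat_add 1
  rw [tsum_X, Finset.sum_range_one, X_zero] at h1
  have h2 : ∑' k, X (0 + 1 + k) = ∑' k, X (k + 1) := tsum_congr fun k => by
    rw [show 0 + 1 + k = k + 1 by ring]
  rw [h2]
  linarith

theorem tail_one : ∑' k, X (1 + 1 + k) = 384 / 89 := by
  have h := tail_shift 0
  simp only [zero_add] at h
  rw [show (1 : ℕ) + 1 = 2 by norm_num, h, tsum_X]
  norm_num

theorem fast (n : ℕ) : ∑' k, X (n + 1 + k) < X n := by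
  induction n using Nat.twoStepInduction with
  | zero => rw [tail_zero, X_zero]; norm_num
  | one => rw [tail_one, X_one]; norm_num
  | more n ih _ =>
    rw [show n + 2 + 1 = n + 1 + 2 by ring, tail_shift, X_shift]
    linarith

/-- the filled set -/
def K : Set ℝ := {s : ℝ | ∃ A : Set ℕ, s = ∑' n, A.indicator X n} ∪
          {t : ℝ | ∃ n : ℕ, Even n ∧ ∃ F : Finset ℕ, F ⊆ Finset.range n ∧
              (∑ i ∈ F, X i) + (∑' k, X (n + 1 + k)) < t ∧
              t < (∑ i ∈ F, X i) + X n}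

theorem EX_sub_K : E X ⊆ K := fun _ h => Or.inl h

theorem K1 (t : ℝ) (h1 : 2520 / 89 < t) (h2 : t < 360) : t ∈ K := by
  right
  refine ⟨0, Even.zero, ∅, by simp, ?_, ?_⟩
  · rw [Finset.sum_empty, tail_zero]; linarith
  · rw [Finset.sum_empty, X_zero]; linarith

theorem K1' (t : ℝ) (h1 : 2520 / 89 ≤ t) (h2 : t ≤ 360) : t ∈ K := by
  rcases eq_or_lt_of_le h1 with h1 | h1
  · rw [← h1]
    apply EX_sub_K
    have h3 : (34560 / 89 : ℝ) ∈ E X := ⟨Set.univ, by simp [tsum_X]⟩
    have := E_cons 2 (by norm_num) wx {1} (by decide) _ h3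
    convert this using 1
    simp [wx]
    norm_num
  · rcases eq_or_lt_of_le h2 with h2 | h2
    · rw [h2]
      apply EX_sub_K
      have := E_cons 2 (by norm_num) wx {0} (by decide) _ (E_zero 2 wx)
      convert this using 1
      simp [wx]
    · exact K1 t h1 h2

theorem K2 (S : Finset ℕ) (hS : S ⊆ Finset.range 2) (t : ℝ) (ht : t ∈ K) :
    ((∑ i ∈ S, wx i : ℕ) : ℝ) + t / 90 ∈ K := by
  classical
  rcases ht with ht | ⟨n, hn, F, hF, h1, h2⟩
  · exact Or.inl (E_cons 2 (by norm_num) wx S hS t ht)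
  · right
    have hsum : ∑ i ∈ S ∪ F.image (fun i => i + 2), X i
        = ((∑ i ∈ S, wx i : ℕ) : ℝ) + (∑ i ∈ F, X i) / 90 := by
      rw [Finset.sum_union, Finset.sum_image (fun a _ b _ hab => by simpa using hab),
        Finset.sum_div]
      · congr 1
        · push_cast
          exact Finset.sum_congr rfl fun i hi => bs_small 2 wx i (Finset.mem_range.1 (hS hi))
        · exact Finset.sum_congr rfl fun i _ => X_shift i
      · rw [Finset.disjoint_left]
        intro i hi hi2
        obtain ⟨j, -, rfl⟩ := Finset.mem_image.1 hi2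
        have := Finset.mem_range.1 (hS hi)
        omega
    refine ⟨n + 2, by rw [Nat.even_add]; simp [hn], S ∪ F.image (fun i => i + 2), ?_, ?_, ?_⟩
    · intro i hi
      rcases Finset.mem_union.1 hi with hi | hi
      · have := Finset.mem_range.1 (hS hi)
        exact Finset.mem_range.2 (by omega)
      · obtain ⟨j, hj, rfl⟩ := Finset.mem_image.1 hi
        have := Finset.mem_range.1 (hF hj)
        exact Finset.mem_range.2 (by omega)
    · rw [hsum, show n + 2 + 1 = n + 1 + 2 by ring, tail_shift]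
      linarith
    · rw [hsum, X_shift]
      linarith

theorem K3 (t : ℝ) (ht : t ∈ K) : (2520 / 89 < t ∧ t < 360) ∨
    ∃ S : Finset ℕ, S ⊆ Finset.range 2 ∧ ∃ t' ∈ K, t = ((∑ i ∈ S, wx i : ℕ) : ℝ) + t' / 90 := by
  classical
  rcases ht with ht | ⟨n, hn, F, hF, h1, h2⟩
  · right
    obtain ⟨S, hS, s', hs', h⟩ := dec 2 (by norm_num) wx t ht
    exact ⟨S, hS, s', Or.inl hs', h⟩
  · rcases Nat.eq_zero_or_pos n with rfl | hn0
    · left
      have : F = ∅ := Finset.subset_empty.1 (by simpa using hF)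
      subst this
      rw [Finset.sum_empty, tail_zero] at h1
      rw [Finset.sum_empty, X_zero] at h2
      constructor <;> linarith
    · right
      obtain ⟨m, rfl⟩ : ∃ m, n = m + 2 := by
        obtain ⟨k, hk⟩ := hn
        exact ⟨n - 2, by omega⟩
      have hm : Even m := by
        rw [Nat.even_add] at hn
        simpa using hn
      refine ⟨F.filter (· < 2), ?_, (t - ((∑ i ∈ F.filter (· < 2), wx i : ℕ) : ℝ)) * 90, ?_, by ring⟩
      · intro i hi
        exact Finset.mem_range.2 (Finset.mem_filter.1 hi).2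
      · right
        let F' : Finset ℕ := (Finset.range m).filter (fun i => i + 2 ∈ F)
        have hFe : F = F.filter (· < 2) ∪ F'.image (fun i => i + 2) := by
          ext i
          simp only [F', Finset.mem_union, Finset.mem_filter, Finset.mem_image, Finset.mem_range]
          constructor
          · intro hi
            by_cases h : i < 2
            · exact Or.inl ⟨hi, h⟩
            · right
              have := Finset.mem_range.1 (hF hi)
              exact ⟨i - 2, ⟨by omega, by rwa [Nat.sub_add_cancel (by omega)]⟩, by omega⟩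
          · rintro (h | ⟨j, hj, rfl⟩)
            · exact h.1
            · exact hj.2
        have hsum : ∑ i ∈ F, X i
            = ((∑ i ∈ F.filter (· < 2), wx i : ℕ) : ℝ) + (∑ i ∈ F', X i) / 90 := by
          conv_lhs => rw [hFe]
          rw [Finset.sum_union, Finset.sum_image (fun a _ b _ hab => by simpa using hab),
            Finset.sum_div]
          · congr 1
            · push_cast
              exact Finset.sum_congr rfl fun i hi => bs_small 2 wx i (Finset.mem_filter.1 hi).2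
            · exact Finset.sum_congr rfl fun i _ => X_shift i
          · rw [Finset.disjoint_left]
            intro i hi hi2
            obtain ⟨j, -, rfl⟩ := Finset.mem_image.1 hi2
            have := (Finset.mem_filter.1 hi).2
            omega
        refine ⟨m, hm, F', Finset.filter_subset _ _, ?_, ?_⟩
        · rw [hsum, show m + 2 + 1 = m + 1 + 2 by ring, tail_shift] at h1
          linarith
        · rw [hsum, X_shift] at h2
          linarith

theorem K_bounds (t : ℝ) (ht : t ∈ K) : 0 ≤ t ∧ t ≤ 34560 / 89 := by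
  classical
  rcases ht with ht | ⟨n, hn, F, hF, h1, h2⟩
  · exact ⟨E_nonneg 2 wx t ht, (E_le 2 (by norm_num) wx t ht).trans_eq tsum_X⟩
  · constructor
    · have h3 : 0 ≤ ∑ i ∈ F, X i := Finset.sum_nonneg fun i _ => (X_pos i).le
      have h4 : 0 ≤ ∑' k, X (n + 1 + k) := tsum_nonneg fun k => (X_pos _).le
      linarith
    · have h3 : ∑ i ∈ insert n F, X i ≤ ∑' k, X k :=
        X_summable.sum_le_tsum _ (fun i _ => (X_pos i).le)
      rw [Finset.sum_insert, tsum_X] at h3
      · linarith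
      · intro h
        exact absurd (Finset.mem_range.1 (hF h)) (lt_irrefl _)

theorem wx_cases (S : Finset ℕ) (hS : S ⊆ Finset.range 2) :
    ∑ i ∈ S, wx i = 0 ∨ ∑ i ∈ S, wx i = 24 ∨ ∑ i ∈ S, wx i = 360 ∨ ∑ i ∈ S, wx i = 384 := by
  have : ∀ S ∈ (Finset.range 2).powerset, ∑ i ∈ S, wx i = 0 ∨ ∑ i ∈ S, wx i = 24 ∨
    ∑ i ∈ S, wx i = 360 ∨ ∑ i ∈ S, wx i = 384 := by decide
  exact this S (Finset.mem_powerset.2 hS)

theorem wx_ex : ∀ e : ℕ, e = 0 ∨ e = 24 ∨ e = 360 ∨ e = 384 →
    ∃ S : Finset ℕ, S ⊆ Finset.range 2 ∧ ∑ i ∈ S, wx i = e := by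
  rintro e (rfl | rfl | rfl | rfl)
  · exact ⟨∅, by decide, by decide⟩
  · exact ⟨{1}, by decide, by decide⟩
  · exact ⟨{0}, by decide, by decide⟩
  · exact ⟨{0, 1}, by decide, by decide⟩

theorem D_ex (d : ℕ) (hd : d ∈ D) : ∃ S : Finset ℕ, S ⊆ Finset.range 10 ∧ ∑ i ∈ S, wy i = d := by
  obtain ⟨S, hS, h⟩ := Finset.mem_image.1 hd
  exact ⟨S, Finset.mem_powerset.1 hS, h⟩

/-- the filled set is reproduced by the digits of `Y` -/
theorem K_sub : K ⊆ E Y := by
  refine coind_set 10 (by norm_num) wy K (34560 / 89) (fun a ha => ?_) (fun a ha => ?_)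
  · have := K_bounds a ha
    rw [abs_of_nonneg this.1]
    exact this.2
  · have key : ∃ d ∈ D, ∃ a' ∈ K, a = (d : ℝ) + a' / 90 := by
      rcases K3 a ha with ⟨h1, h2⟩ | ⟨S, hS, t', ht', h⟩
      · -- the filled gap
        have hr : (28 : ℝ) ≤ a - 28 / 89 := by linarith
        set n := ⌊a - 28 / 89⌋₊ with hn
        have hn1 : (n : ℝ) ≤ a - 28 / 89 := Nat.floor_le (by linarith)
        have hn2 : a - 28 / 89 < n + 1 := Nat.lt_floor_add_one _
        have hn3 : 28 ≤ n := Nat.le_floor (by exact_mod_cast hr)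
        by_cases hn4 : n ≤ 355
        · obtain ⟨d, hd, hd1, hd2⟩ := D_dense n (Finset.mem_Icc.2 ⟨hn3, hn4⟩)
          have hd1' : (n : ℝ) ≤ d + 2 := by exact_mod_cast hd1
          have hd2' : (d : ℝ) ≤ n := by exact_mod_cast hd2
          refine ⟨d, hd, (a - d) * 90, K1' _ ?_ ?_, by ring⟩
          · linarith
          · linarith
        · push Not at hn4
          have hn5 : (356 : ℝ) ≤ n := by exact_mod_cast hn4
          refine ⟨356, D_spec.2.2.2.1, (a - 356) * 90, K1' _ ?_ ?_, by push_cast; ring⟩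
          · linarith
          · linarith
      · refine ⟨∑ i ∈ S, wx i, ?_, t', ht', h⟩
        rcases wx_cases S hS with h | h | h | h <;> rw [h]
        · exact D_spec.1
        · exact D_spec.2.1
        · exact D_spec.2.2.2.2.1
        · exact D_spec.2.2.2.2.2
    obtain ⟨d, hd, a', ha', h⟩ := key
    obtain ⟨S, hS, hSd⟩ := D_ex d hd
    exact ⟨S, hS, a', ha', by rw [hSd]; exact h⟩

theorem decY (s : ℝ) (hs : s ∈ E Y) : ∃ d ∈ D, ∃ s' ∈ E Y, s = (d : ℝ) + s' / 90 := by
  obtain ⟨S, hS, s', hs', h⟩ := dec 10 (by norm_num) wy s hs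
  exact ⟨_, D_mem S hS, s', hs', h⟩

theorem Y_bounds (s : ℝ) (hs : s ∈ E Y) : 0 ≤ s ∧ s ≤ 34560 / 89 :=
  ⟨E_nonneg 10 wy s hs, (E_le 10 (by norm_num) wy s hs).trans_eq tsum_Y⟩

theorem L1 (s : ℝ) (hs : s ∈ E Y) (hle : s ≤ 2520 / 89) : 360 + s ∈ E Y := by
  have : E Y ∪ {a | ∃ s ∈ E Y, s ≤ 2520 / 89 ∧ a = 360 + s} ⊆ E Y := by
    refine coind_set 10 (by norm_num) wy _ 1000 ?_ ?_
    · rintro a (ha | ⟨s, hs, -, rfl⟩)
      · have := Y_bounds a ha
        rw [abs_of_nonneg this.1]; linarith [this.2]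
      · have := Y_bounds s hs
        rw [abs_of_nonneg (by linarith [this.1])]; linarith [this.2]
    · rintro a (ha | ⟨s, hs, hle, rfl⟩)
      · obtain ⟨S, hS, s', hs', h⟩ := dec 10 (by norm_num) wy a ha
        exact ⟨S, hS, s', Or.inl hs', h⟩
      · obtain ⟨d, hd, s', hs', h⟩ := decY s hs
        have hs'0 := (Y_bounds s' hs').1
        have hdle : (d : ℝ) < 31 := by linarith
        have hdlt : d < 31 := by exact_mod_cast hdle
        have hcase : d = 0 ∨ d = 24 ∨ d = 28 := by
          rcases D_cases d hd with h | h | h | h | h | h | h <;> omega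
        rcases hcase with rfl | rfl | rfl
        · obtain ⟨S, hS, hSd⟩ := D_ex 360 D_spec.2.2.2.2.1
          refine ⟨S, hS, s', Or.inl hs', ?_⟩
          rw [hSd, h]; push_cast; ring
        · obtain ⟨S, hS, hSd⟩ := D_ex 384 D_spec.2.2.2.2.2
          refine ⟨S, hS, s', Or.inl hs', ?_⟩
          rw [hSd, h]; push_cast; ring
        · obtain ⟨S, hS, hSd⟩ := D_ex 384 D_spec.2.2.2.2.2
          refine ⟨S, hS, 360 + s', Or.inr ⟨s', hs', ?_, rfl⟩, ?_⟩
          · push_cast at h; linarith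
          · rw [hSd, h]; push_cast; ring
  exact this (Or.inr ⟨s, hs, hle, rfl⟩)

theorem L2 (s : ℝ) (hs : s ∈ E Y) (hle : 360 ≤ s) : s - 360 ∈ E Y := by
  have : E Y ∪ {a | ∃ s ∈ E Y, 360 ≤ s ∧ a = s - 360} ⊆ E Y := by
    refine coind_set 10 (by norm_num) wy _ 1000 ?_ ?_
    · rintro a (ha | ⟨s, hs, hs2, rfl⟩)
      · have := Y_bounds a ha
        rw [abs_of_nonneg this.1]; linarith [this.2]
      · have := Y_bounds s hs
        rw [abs_of_nonneg (by linarith [this.1])]; linarith [this.2]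
    · rintro a (ha | ⟨s, hs, hle, rfl⟩)
      · obtain ⟨S, hS, s', hs', h⟩ := dec 10 (by norm_num) wy a ha
        exact ⟨S, hS, s', Or.inl hs', h⟩
      · obtain ⟨d, hd, s', hs', h⟩ := decY s hs
        have hs'0 := (Y_bounds s' hs').2
        have hdle : (353 : ℝ) < d := by linarith
        have hdlt : 353 < d := by exact_mod_cast hdle
        have hcase : d = 356 ∨ d = 360 ∨ d = 384 := by
          rcases D_cases d hd with h | h | h | h | h | h | h <;> omega
        rcases hcase with rfl | rfl | rfl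
        · obtain ⟨S, hS, hSd⟩ := D_ex 0 D_spec.1
          refine ⟨S, hS, s' - 360, Or.inr ⟨s', hs', ?_, rfl⟩, ?_⟩
          · push_cast at h; linarith
          · rw [hSd, h]; push_cast; ring
        · obtain ⟨S, hS, hSd⟩ := D_ex 0 D_spec.1
          refine ⟨S, hS, s', Or.inl hs', ?_⟩
          rw [hSd, h]; push_cast; ring
        · obtain ⟨S, hS, hSd⟩ := D_ex 24 D_spec.2.1
          refine ⟨S, hS, s', Or.inl hs', ?_⟩
          rw [hSd, h]; push_cast; ring
  exact this (Or.inr ⟨s, hs, hle, rfl⟩)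

theorem C1 (u : ℝ) (hu : u ∈ E Y) : (2520 / 89 < u ∧ u < 360) ∨
    ∃ S : Finset ℕ, S ⊆ Finset.range 2 ∧ ∃ u' ∈ E Y, u = ((∑ i ∈ S, wx i : ℕ) : ℝ) + u' / 90 := by
  obtain ⟨d, hd, s, hs, h⟩ := decY u hu
  have hb := Y_bounds s hs
  rcases D_cases d hd with rfl | rfl | rfl | rfl | rfl | rfl | ⟨h1, h2⟩
  · right
    obtain ⟨S, hS, hSe⟩ := wx_ex 0 (by norm_num)
    exact ⟨S, hS, s, hs, by rw [hSe]; exact h⟩
  · right
    obtain ⟨S, hS, hSe⟩ := wx_ex 24 (by norm_num)
    exact ⟨S, hS, s, hs, by rw [hSe]; exact h⟩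
  · push_cast at h
    rcases lt_or_ge (2520 / 89) s with hlt | hge
    · left
      constructor
      · linarith
      · linarith [hb.2]
    · right
      obtain ⟨S, hS, hSe⟩ := wx_ex 24 (by norm_num)
      exact ⟨S, hS, 360 + s, L1 s hs hge, by rw [hSe, h]; push_cast; ring⟩
  · push_cast at h
    rcases lt_or_ge s 360 with hlt | hge
    · left
      constructor
      · linarith [hb.1]
      · linarith
    · right
      obtain ⟨S, hS, hSe⟩ := wx_ex 360 (by norm_num)
      exact ⟨S, hS, s - 360, L2 s hs hge, by rw [hSe, h]; push_cast; ring⟩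
  · right
    obtain ⟨S, hS, hSe⟩ := wx_ex 360 (by norm_num)
    exact ⟨S, hS, s, hs, by rw [hSe]; exact h⟩
  · right
    obtain ⟨S, hS, hSe⟩ := wx_ex 384 (by norm_num)
    exact ⟨S, hS, s, hs, by rw [hSe]; exact h⟩
  · left
    have h1' : (31 : ℝ) ≤ d := by exact_mod_cast h1
    have h2' : (d : ℝ) ≤ 353 := by exact_mod_cast h2
    constructor
    · linarith [hb.1]
    · linarith [hb.2]

theorem sub_K : E Y ⊆ K := by
  intro u hu
  by_contra hnot
  have : E Y \ K ⊆ E X := by
    refine coind_set 2 (by norm_num) wx _ (34560 / 89) ?_ ?_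
    · rintro a ⟨ha, -⟩
      have := Y_bounds a ha
      rw [abs_of_nonneg this.1]
      exact this.2
    · rintro a ⟨ha, hK⟩
      rcases C1 a ha with ⟨h1, h2⟩ | ⟨S, hS, a', ha', h⟩
      · exact absurd (K1 a h1 h2) hK
      · refine ⟨S, hS, a', ⟨ha', fun hK' => hK ?_⟩, h⟩
        rw [h]
        exact K2 S hS a' hK'
  exact hnot (EX_sub_K (this ⟨hu, hnot⟩))


/-! ### The concrete example -/

theorem KY (u : ℝ) : u ∈ E Y ↔ u ∈ K := ⟨fun h => sub_K h, fun h => K_sub h⟩

theorem P1 (u : ℝ) (hu : u ∈ E Y) (h : u < 24) : 90 * u ∈ E Y := by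
  rw [KY] at hu ⊢
  have hb := K_bounds u hu
  rcases K3 u hu with ⟨h1, _⟩ | ⟨S, hS, t', ht', he⟩
  · linarith
  · have hb' := K_bounds t' ht'
    rcases wx_cases S hS with h1 | h1 | h1 | h1 <;> rw [h1] at he <;> push_cast at he
    · have : 90 * u = t' := by linarith
      rw [this]; exact ht'
    · linarith
    · linarith
    · linarith

theorem P1' (u : ℝ) (hu : u ∈ E Y) (h : u < 24) : u ≤ 384 / 89 := by
  have h1 := P1 u hu h
  have := (Y_bounds _ h1).2
  linarith

theorem P2 (u : ℝ) (hu : u ∈ E Y) (h1 : 24 ≤ u) (h2 : u ≤ 2520 / 89) : 90 * (u - 24) ∈ E Y := by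
  rw [KY] at hu ⊢
  rcases K3 u hu with ⟨h3, _⟩ | ⟨S, hS, t', ht', he⟩
  · linarith
  · have hb' := K_bounds t' ht'
    rcases wx_cases S hS with h3 | h3 | h3 | h3 <;> rw [h3] at he <;> push_cast at he
    · linarith
    · have : 90 * (u - 24) = t' := by linarith
      rw [this]; exact ht'
    · linarith
    · linarith

theorem P3 (u : ℝ) (h1 : 2520 / 89 ≤ u) (h2 : u ≤ 360) : u ∈ E Y := (KY u).2 (K1' u h1 h2)

theorem P4 (e : ℕ) (he : e = 0 ∨ e = 24 ∨ e = 360 ∨ e = 384) (u : ℝ) (hu : u ∈ E Y) :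
    (e : ℝ) + u / 90 ∈ E Y := by
  obtain ⟨S, hS, hSe⟩ := wx_ex e he
  rw [KY] at hu ⊢
  have := K2 S hS u hu
  rwa [hSe] at this

theorem P5 (u : ℝ) (hu : u ∈ E Y) : 34560 / 89 - u ∈ E Y := by
  have := gE_symm (bs_summable 10 (by norm_num) wy) u hu
  rwa [tsum_Y] at this

theorem P7 (z : ℝ) (hz : z ∈ E Y) (h1 : 24 ≤ z) (h2 : z ≤ 2520 / 89) :
    90 * (2520 / 89 - z) ∈ E Y := by
  have := P5 _ (P2 z hz h1 h2)
  convert this using 1
  ring

theorem P8 (i : ℕ) : ∀ κ : ℝ, κ ∈ E Y → 384 / 89 < 90 ^ i * κ → 90 ^ i * κ < 24 → False := by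
  induction i with
  | zero =>
    intro κ hκ h1 h2
    rw [pow_zero, one_mul] at h1 h2
    have := P1' κ hκ h2
    linarith
  | succ i ih =>
    intro κ hκ h1 h2
    have h0 := (Y_bounds κ hκ).1
    have h3 : κ < 24 := by
      have : (1 : ℝ) ≤ 90 ^ (i + 1) := one_le_pow₀ (by norm_num)
      nlinarith
    refine ih (90 * κ) (P1 κ hκ h3) ?_ ?_
    · rw [pow_succ, mul_assoc] at h1; exact h1
    · rw [pow_succ, mul_assoc] at h2; exact h2

/-- the sequence of the counterexample -/
noncomputable def Z (n : ℕ) : ℝ := if n = 0 then 2496 / 89 else Y (n - 1)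

theorem Z_pos (n : ℕ) : 0 < Z n := by
  unfold Z
  split_ifs
  · norm_num
  · exact Y_pos _

theorem Z_shift : (fun n => Z (n + 1)) = Y := by
  funext n
  simp [Z]

theorem Z_summable : Summable Z := by
  rw [← summable_nat_add_iff 1, Z_shift]
  exact bs_summable 10 (by norm_num) wy

theorem EZ (z : ℝ) : z ∈ E Z ↔ z ∈ E Y ∨ z - 2496 / 89 ∈ E Y := by
  constructor
  · intro hz
    obtain ⟨F, hF, e, he, h⟩ := gE_dec Z_summable 1 z hz
    rw [Z_shift] at he
    have hF' : F = ∅ ∨ F = {0} := by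
      have : F ⊆ {0} := hF
      exact Finset.subset_singleton_iff.1 this
    rcases hF' with rfl | rfl
    · left
      rw [Finset.sum_empty, zero_add] at h
      rw [h]; exact he
    · right
      rw [Finset.sum_singleton] at h
      have : z - 2496 / 89 = e := by rw [h]; simp [Z]
      rw [this]; exact he
  · rintro (h | h)
    · have h1 := gE_cons Z_summable 1 ∅ (by decide) z (by rw [Z_shift]; exact h)
      rwa [Finset.sum_empty, zero_add] at h1
    · have h1 := gE_cons Z_summable 1 {0} (by decide) _ (by rw [Z_shift]; exact h)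
      rw [Finset.sum_singleton] at h1
      convert h1 using 1
      simp [Z]

theorem small (δ : ℝ) (hδ : 0 < δ) : ∃ j : ℕ, (1 : ℝ) / 90 ^ j < δ := by
  obtain ⟨N, hN⟩ := exists_pow_lt_of_lt_one hδ (show (1/90 : ℝ) < 1 by norm_num)
  exact ⟨N, by rwa [one_div_pow] at hN⟩

theorem notY (j : ℕ) (c : ℝ) (h1 : 384 / 89 < c) (h2 : c < 24) (κ : ℝ) (h : 90 ^ j * κ = c) :
    κ ∉ E Y := fun hκ => P8 j κ hκ (by rw [h]; exact h1) (by rw [h]; exact h2)

theorem HZ : ∀ δ > 0, ∃ w, 0 < w ∧ w < δ ∧ w ∉ E Z := by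
  intro δ hδ
  obtain ⟨j, hj⟩ := small (min δ 1 / 10) (by positivity)
  refine ⟨10 * (1 / 90 ^ j), by positivity, ?_, ?_⟩
  · have := min_le_left δ 1
    linarith
  · rw [EZ]
    rintro (h | h)
    · refine notY j 10 (by norm_num) (by norm_num) _ ?_ h
      field_simp
    · have := (Y_bounds _ h).1
      have := min_le_right δ 1
      linarith

theorem intY : ∀ (J : ℕ) (u : ℝ), u ∈ E Y → ∃ c : ℝ, c ≤ u ∧ u ≤ c + (34560 / 89) * (1 / 90 ^ J) ∧
    ∀ v ∈ E Y, c + v * (1 / 90 ^ J) ∈ E Y := by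
  intro J
  induction J with
  | zero =>
    intro u hu
    have hb := Y_bounds u hu
    exact ⟨0, hb.1, by simpa using hb.2, fun v hv => by simpa using hv⟩
  | succ J ih =>
    intro u hu
    obtain ⟨S, hS, s, hs, h⟩ := dec 10 (by norm_num) wy u hu
    obtain ⟨c, hc1, hc2, hc3⟩ := ih s hs
    refine ⟨((∑ i ∈ S, wy i : ℕ) : ℝ) + c / 90, by linarith, ?_, ?_⟩
    · have h1 : (1 : ℝ) / 90 ^ (J + 1) = 1 / 90 ^ J / 90 := by rw [pow_succ]; field_simp
      rw [h1]
      linarith
    · intro v hv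
      have := E_cons 10 (by norm_num) wy S hS _ (hc3 v hv)
      convert this using 1
      rw [pow_succ]
      field_simp
      ring

theorem intY' (u : ℝ) (hu : u ∈ E Y) (δ : ℝ) (hδ : 0 < δ) : ∃ z ρ : ℝ, 0 < ρ ∧ |u - z| < δ ∧
    ∀ w, |w - z| < ρ → w ∈ E Y := by
  obtain ⟨J, hJ⟩ := small (δ / 400) (by positivity)
  obtain ⟨c, hc1, hc2, hc3⟩ := intY J u hu
  have hp : (0 : ℝ) < 90 ^ J := by positivity
  have hp' : (0 : ℝ) < 1 / 90 ^ J := by positivity
  refine ⟨c + 100 * (1 / 90 ^ J), 1 / 90 ^ J, hp', ?_, ?_⟩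
  · rw [abs_lt]
    constructor <;> linarith
  · intro w hw
    have h1 := P3 ((w - c) * 90 ^ J) ?_ ?_
    · have := hc3 _ h1
      convert this using 1
      field_simp
      ring
    · rw [abs_lt] at hw
      have h2 : (99 : ℝ) * (1 / 90 ^ J) ≤ w - c := by linarith [hw.1]
      have h3 : (99 : ℝ) = 99 * (1 / 90 ^ J) * 90 ^ J := by field_simp
      have h4 := mul_le_mul_of_nonneg_right h2 hp.le
      linarith
    · rw [abs_lt] at hw
      have h2 : w - c ≤ (101 : ℝ) * (1 / 90 ^ J) := by linarith [hw.2]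
      have h3 : (101 : ℝ) = 101 * (1 / 90 ^ J) * 90 ^ J := by field_simp
      have h4 := mul_le_mul_of_nonneg_right h2 hp.le
      linarith

theorem closure_int : closure (interior (E Z)) = E Z := by
  have hcomp := gE_compact Z_pos Z_summable
  apply Set.Subset.antisymm
  · exact hcomp.isClosed.closure_subset_iff.2 interior_subset
  · intro u hu
    rw [Metric.mem_closure_iff]
    intro δ hδ
    rcases (EZ u).1 hu with h | h
    · obtain ⟨z, ρ, hρ, hz, hw⟩ := intY' u h δ hδ
      refine ⟨z, ?_, by rw [Real.dist_eq]; exact hz⟩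
      rw [mem_interior]
      refine ⟨Metric.ball z ρ, fun w hw' => (EZ w).2 (Or.inl (hw w ?_)), Metric.isOpen_ball,
        Metric.mem_ball_self hρ⟩
      rwa [Metric.mem_ball, Real.dist_eq] at hw'
    · obtain ⟨z, ρ, hρ, hz, hw⟩ := intY' _ h δ hδ
      refine ⟨z + 2496 / 89, ?_, ?_⟩
      · rw [mem_interior]
        refine ⟨Metric.ball (z + 2496 / 89) ρ, fun w hw' => (EZ w).2 (Or.inr (hw _ ?_)),
          Metric.isOpen_ball, Metric.mem_ball_self hρ⟩
        rw [Metric.mem_ball, Real.dist_eq] at hw'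
        rwa [show w - 2496 / 89 - z = w - (z + 2496 / 89) by ring]
      · rw [Real.dist_eq, show u - (z + 2496 / 89) = u - 2496 / 89 - z by ring]
        exact hz

theorem powle (j : ℕ) : (1 : ℝ) / 90 ^ (j + 2) ≤ 1 / 8100 := by
  have h : (8100 : ℝ) ≤ 90 ^ (j + 2) := by
    rw [pow_add]
    have : (1 : ℝ) ≤ 90 ^ j := one_le_pow₀ (by norm_num)
    nlinarith
  exact one_div_le_one_div_of_le (by norm_num) h

theorem qn (i : ℕ) : (2160 / 89 : ℝ) - 10 * (1 / 90 ^ i) ∉ E Y := by
  induction i with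
  | zero =>
    intro h
    have := P1' _ h (by norm_num)
    norm_num at this
  | succ i ih =>
    intro h
    have hle : (1 : ℝ) / 90 ^ (i + 1) ≤ 1 / 90 := by
      have : (90 : ℝ) ≤ 90 ^ (i + 1) := by
        rw [pow_succ]
        have : (1 : ℝ) ≤ 90 ^ i := one_le_pow₀ (by norm_num)
        nlinarith
      exact one_div_le_one_div_of_le (by norm_num) this
    have hpos : (0 : ℝ) < 1 / 90 ^ (i + 1) := by positivity
    have := P2 _ h (by linarith) (by linarith)
    apply ih
    convert this using 1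
    rw [pow_succ]
    field_simp
    ring

theorem qp (i : ℕ) : (2160 / 89 : ℝ) - 1776 / 89 * (1 / 90 ^ i) ∈ E Y := by
  induction i with
  | zero =>
    have h1 : (34560 / 89 : ℝ) ∈ E Y := by
      have := P5 0 (E_zero 10 wy)
      simpa using this
    have := P4 0 (by norm_num) _ h1
    convert this using 1
    norm_num
  | succ i ih =>
    have := P4 24 (by norm_num) _ ih
    convert this using 1
    rw [pow_succ]
    push_cast
    field_simp
    ring

theorem nY_left_b (j : ℕ) (c : ℝ) (h1 : 384 / 89 < c) (h2 : c < 24) :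
    28 / 89 - c * (1 / 90 ^ (j + 2)) ∉ E Z := by
  rw [EZ]
  have hle := powle j
  have hpos : (0 : ℝ) < 1 / 90 ^ (j + 2) := by positivity
  rintro (h | h)
  · have h3 := P1 _ h (by nlinarith)
    have h4 := P7 _ h3 (by nlinarith) (by nlinarith)
    refine notY j c h1 h2 _ ?_ h4
    rw [pow_add]
    field_simp
    ring
  · have := (Y_bounds _ h).1
    nlinarith

theorem nZ_left_a (j : ℕ) : 2520 / 89 - 10 * (1 / 90 ^ (j + 2)) ∉ E Z := by
  rw [EZ]
  have hle := powle j
  have hpos : (0 : ℝ) < 1 / 90 ^ (j + 2) := by positivity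
  rintro (h | h)
  · have h4 := P7 _ h (by linarith) (by linarith)
    refine notY (j + 1) 10 (by norm_num) (by norm_num) _ ?_ h4
    rw [pow_add, pow_add]
    field_simp
    ring
  · have h3 := P1 _ h (by linarith)
    apply qn (j + 1)
    convert h3 using 1
    rw [pow_add, pow_add]
    field_simp
    ring

/-- The negation of the preceding statement: For a positive summable sequence whose set of subsums E is a Cantorval, and distinct left endpoints a, b of interval components of E, there is ε>0 such that E∩[a−ε,a] is a translate of E∩[b−ε,b]. -/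
theorem result :
    ¬ (∀ x : ℕ → ℝ, (∀ n, 0 < x n) → Summable x →
    ∀ E : Set ℝ, E = {s | ∃ A : Set ℕ, s = ∑' n, A.indicator x n} →
    (E.Nonempty ∧ IsCompact E ∧ closure (interior E) = E ∧
      ∀ p ∈ E, (connectedComponentIn E p).Nontrivial →
        sInf (connectedComponentIn E p) ∈ closure {y ∈ E | connectedComponentIn E y = {y}} ∧
        sSup (connectedComponentIn E p) ∈ closure {y ∈ E | connectedComponentIn E y = {y}}) →
    ∀ a b : ℝ, a ≠ b →
      (∃ c, a < c ∧ Set.Icc a c ⊆ E) → (∀ y, y < a → ¬ Set.Icc y a ⊆ E) →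
      (∃ c, b < c ∧ Set.Icc b c ⊆ E) → (∀ y, y < b → ¬ Set.Icc y b ⊆ E) →
      ∃ ε : ℝ, ε > 0 ∧ ∃ t : ℝ,
        E ∩ Set.Icc (a - ε) a = (fun z => z + t) '' (E ∩ Set.Icc (b - ε) b)) := by
  intro hall
  have hne : (E Z).Nonempty := ⟨0, (EZ 0).2 (Or.inl (E_zero 10 wy))⟩
  have haE : (2520 / 89 : ℝ) ∈ E Z := (EZ _).2 (Or.inl (P3 _ le_rfl (by norm_num)))
  have hIb : Set.Icc (28 / 89 : ℝ) 4 ⊆ E Z := by
    intro z hz
    refine (EZ z).2 (Or.inl ?_)
    have := P4 0 (by norm_num) _ (P3 (90 * z) (by linarith [hz.1]) (by linarith [hz.2]))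
    convert this using 1
    push_cast
    ring
  have hbE : (28 / 89 : ℝ) ∈ E Z := hIb ⟨le_rfl, by norm_num⟩
  obtain ⟨ε, hε, τ, heq⟩ := hall Z Z_pos Z_summable (E Z) rfl
    ⟨hne, gE_compact Z_pos Z_summable, closure_int, endpoints Z_pos Z_summable HZ⟩
    (2520 / 89) (28 / 89) (by norm_num)
    ⟨360, by norm_num, fun z hz => (EZ z).2 (Or.inl (P3 z hz.1 hz.2))⟩
    (by
      intro y hy hsub
      obtain ⟨j, hj⟩ := small ((2520 / 89 - y) / 10) (by linarith)
      have hle : (1 : ℝ) / 90 ^ (j + 2) ≤ 1 / 90 ^ j :=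
        one_div_le_one_div_of_le (by positivity) (pow_le_pow_right₀ (by norm_num) (by omega))
      have hpos : (0 : ℝ) < 1 / 90 ^ (j + 2) := by positivity
      exact nZ_left_a j (hsub ⟨by linarith, by linarith⟩))
    ⟨4, by norm_num, hIb⟩
    (by
      intro y hy hsub
      obtain ⟨j, hj⟩ := small ((28 / 89 - y) / 10) (by linarith)
      have hle : (1 : ℝ) / 90 ^ (j + 2) ≤ 1 / 90 ^ j :=
        one_div_le_one_div_of_le (by positivity) (pow_le_pow_right₀ (by norm_num) (by omega))
      have hpos : (0 : ℝ) < 1 / 90 ^ (j + 2) := by positivity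
      exact nY_left_b j 10 (by norm_num) (by norm_num) (hsub ⟨by linarith, by linarith⟩))
  -- the translation is `a - b`
  have hτ : τ = 2520 / 89 - 28 / 89 := by
    have h1 : (2520 / 89 : ℝ) ∈ E Z ∩ Set.Icc (2520 / 89 - ε) (2520 / 89) :=
      ⟨haE, by linarith, le_rfl⟩
    rw [heq] at h1
    obtain ⟨z, hz, hz2⟩ := h1
    have h2 : (28 / 89 : ℝ) + τ ∈ (fun z => z + τ) '' (E Z ∩ Set.Icc (28 / 89 - ε) (28 / 89)) :=
      ⟨28 / 89, ⟨hbE, by linarith, le_rfl⟩, rfl⟩
    rw [← heq] at h2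
    have h3 := h2.2.2
    have h4 := hz.2.2
    dsimp only at hz2
    linarith
  obtain ⟨j, hj⟩ := small (ε / 20) (by positivity)
  have hle : (1 : ℝ) / 90 ^ (j + 2) ≤ 1 / 90 ^ j :=
    one_div_le_one_div_of_le (by positivity) (pow_le_pow_right₀ (by norm_num) (by omega))
  have hpos : (0 : ℝ) < 1 / 90 ^ (j + 2) := by positivity
  have hmem : (2520 / 89 : ℝ) - 1776 / 89 * (1 / 90 ^ (j + 2)) ∈
      E Z ∩ Set.Icc (2520 / 89 - ε) (2520 / 89) := by
    refine ⟨(EZ _).2 (Or.inr ?_), by linarith, by linarith⟩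
    have := P4 0 (by norm_num) _ (qp (j + 1))
    convert this using 1
    push_cast
    rw [pow_add, pow_add]
    field_simp
    ring
  rw [heq] at hmem
  obtain ⟨z, hz, hz2⟩ := hmem
  dsimp only at hz2
  have hz3 : z = 28 / 89 - 1776 / 89 * (1 / 90 ^ (j + 2)) := by rw [hτ] at hz2; linarith
  rw [hz3] at hz
  exact nY_left_b j (1776 / 89) (by norm_num) (by norm_num) hz.1

end Pool.Agent.S02664
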