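import Pool.Statements.S02665
import Pool.Agent.H664.OvalFinal

set_option autoImplicit false
open Pool Pool.MP_171f82_an

namespace Pool.Agent.S02665

/-- If a smooth strictly convex closed planar curve has, for every two directions, the double-chord map (other end of chord in one direction, then the other) topologically conjugate to a circle rotation, then the curve is an ellipse. -/
theorem result :
    ∀ K : Set (ℝ × ℝ), IsCompact K → StrictConvex ℝ K → (interior K).Nonempty →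
      (∃ γ : ℝ → ℝ × ℝ, ContDiff ℝ ((⊤ : ℕ∞) : WithTop ℕ∞) γ ∧ Function.Periodic γ 1 ∧
          Set.InjOn γ (Set.Ico 0 1) ∧ (∀ t : ℝ, deriv γ t ≠ 0) ∧ Set.range γ = frontier K) →
      (∀ u v : ℝ × ℝ, u ≠ 0 → v ≠ 0 → ∀ σu σv : ℝ × ℝ → ℝ × ℝ,
        (∀ x ∈ frontier K, σu x ∈ frontier K ∧ (∃ t : ℝ, σu x = x + t • u) ∧
            (σu x = x → ∀ t : ℝ, x + t • u ∈ frontier K → t = 0)) →
        (∀ x ∈ frontier K, σv x ∈ frontier K ∧ (∃ t : ℝ, σv x = x + t • v) ∧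
            (σv x = x → ∀ t : ℝ, x + t • v ∈ frontier K → t = 0)) →
        ∃ h : ℝ × ℝ → AddCircle (1 : ℝ), ∃ α : AddCircle (1 : ℝ),
          ContinuousOn h (frontier K) ∧ Set.BijOn h (frontier K) Set.univ ∧
            ∀ x ∈ frontier K, h (σv (σu x)) = h x + α) →
      ∃ A : (ℝ × ℝ) ≃ᵃ[ℝ] (ℝ × ℝ), frontier K = A '' {p : ℝ × ℝ | p.1 ^ 2 + p.2 ^ 2 = 1} := by
  intro K hKc hKs hKi hγ H
  obtain ⟨γ, hsm, -, -, hreg, hrng⟩ := hγ
  obtain ⟨P, hP⟩ := Pool.Agent.H664.OvalGeom.exists_supp hKc hKs hKi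
  refine Pool.Agent.H664.OvalGeom.Oval.ellipse (P := P) (γ := γ)
    ⟨hKc, hKs, hKi, hP, hsm, hreg, hrng, ?_⟩
  rintro u v hu hv ⟨x0, hx0, h4⟩ x hx
  obtain ⟨h, α, -, hbij, hconj⟩ := H u v hu hv (Pool.Agent.H664.OvalGeom.sg K u)
    (Pool.Agent.H664.OvalGeom.sg K v)
    (fun y hy => ⟨Pool.Agent.H664.OvalGeom.sg_mem u hy, Pool.Agent.H664.OvalGeom.sg_line u y,
      fun hf t ht => Pool.Agent.H664.OvalGeom.sg_fixed hu hf t ht⟩)
    (fun y hy => ⟨Pool.Agent.H664.OvalGeom.sg_mem v hy, Pool.Agent.H664.OvalGeom.sg_line v y,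
      fun hf t ht => Pool.Agent.H664.OvalGeom.sg_fixed hv hf t ht⟩)
  have hmem : ∀ y ∈ frontier K, Pool.Agent.H664.OvalGeom.sg K v
      (Pool.Agent.H664.OvalGeom.sg K u y) ∈ frontier K := fun y hy =>
    Pool.Agent.H664.OvalGeom.sg_mem v (Pool.Agent.H664.OvalGeom.sg_mem u hy)
  have hα : α + α = 0 := by
    have h1 := hconj _ (hmem x0 hx0)
    rw [hconj x0 hx0, h4, add_assoc] at h1
    exact (left_eq_add.1 h1)
  have h2 := hconj _ (hmem x hx)
  rw [hconj x hx, add_assoc, hα, add_zero] at h2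
  exact hbij.injOn (hmem _ (hmem x hx)) hx h2

end Pool.Agent.S02665
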