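import Pool.Statements.S02672
import Pool.Agent.Helper538.RemF

set_option autoImplicit false
open Pool Pool.MP_17c3bf_an

namespace Pool.Agent.S02672

/-- The negation of the preceding statement: In every infinite-dimensional real Banach space, any set K such that every point of the space has exactly one farthest point in K must consist of a single point. -/
theorem result :
    ¬ (∀ (X : Type) [NormedAddCommGroup X] [NormedSpace ℝ X] [CompleteSpace X],
      ¬ FiniteDimensional ℝ X →
      ∀ K : Set X,
        (∀ x : X, ∃! y : X, y ∈ K ∧ ∀ z ∈ K, dist x z ≤ dist x y) →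
        ∃ a : X, K = {a}) := by
  letI i0 : OrderBot Helper538.Rem.Om := Ordinal.toTypeOrderBot (Ordinal.omega_pos 1).ne'
  haveI i3 : WellFoundedLT (WithTop Helper538.Rem.Om) := inferInstance
  letI i4 : SuccOrder (WithTop Helper538.Rem.Om) := SuccOrder.ofLinearWellFoundedLT _
  letI i5 : TopologicalSpace (WithTop Helper538.Rem.Om) := Preorder.topology _
  haveI i6 : OrderTopology (WithTop Helper538.Rem.Om) := ⟨rfl⟩
  haveI i7 : CompactSpace (WithTop Helper538.Rem.Om) := by
    letI i1 : ConditionallyCompleteLinearOrderBot Helper538.Rem.Om :=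
      WellFoundedLT.conditionallyCompleteLinearOrderBot Helper538.Rem.Om
    letI i2 : CompleteLinearOrder (WithTop Helper538.Rem.Om) := WithTop.instCompleteLinearOrder
    exact @compactSpace_of_completeLinearOrder (WithTop Helper538.Rem.Om) i2 i5 i6
  refine Helper538.Rem.main (WithTop Helper538.Rem.Om) ?_ ?_
  · exact bot_lt_top
  · intro f hf
    have h1 : ∀ n, ∃ a : Helper538.Rem.Om, (a : WithTop Helper538.Rem.Om) = f n := fun n =>
      WithTop.ne_top_iff_exists.mp (hf n).ne
    choose g hg using h1
    obtain ⟨b, hb⟩ := Helper538.Rem.om_cof g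
    refine ⟨(b : WithTop Helper538.Rem.Om), WithTop.coe_lt_top b, fun n => ?_⟩
    rw [← hg n]
    exact WithTop.coe_lt_coe.mpr (hb n)

end Pool.Agent.S02672
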