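import Pool.Statements.S02673
import Pool.Agent.Helper655.K9

set_option autoImplicit false
open MeasureTheory Filter Topology
open Pool Pool.MP_17fac5_an

namespace Pool.Agent.S02673

/-- If G>0 with finite disc mass, (1-r)log(1/G(r))→∞, W≥0 integrable on the circle with ∫ log W=−∞ on every arc, then every g in L²(W dm) is approximable by polynomials small in L²(G dA), i.e. H²(μ)=H²(ν)⊕L²(W dm). -/
theorem result :
    ∀ (G : ℝ → ℝ) (W : ℂ → ℝ),
      Measurable G →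
      (∀ r : ℝ, 0 ≤ r → r < 1 → 0 < G r) →
      (∫⁻ z in Metric.ball (0 : ℂ) 1, ENNReal.ofReal (G ‖z‖)) < ⊤ →
      Tendsto (fun r : ℝ => (1 - r) * Real.log (1 / G r)) (𝓝[<] (1 : ℝ)) atTop →
      Measurable W →
      (∀ z : ℂ, 0 ≤ W z) →
      (∫⁻ θ in Set.Ioc (0 : ℝ) (2 * Real.pi),
          ENNReal.ofReal (W (Complex.exp ((θ : ℂ) * Complex.I)))) < ⊤ →
      (∀ a b : ℝ, a < b →
        (∫⁻ θ in Set.Ioo a b,
          (if W (Complex.exp ((θ : ℂ) * Complex.I)) = 0 then (⊤ : ENNReal)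
           else ENNReal.ofReal (-Real.log (W (Complex.exp ((θ : ℂ) * Complex.I)))))) = ⊤) →
      ∀ g : ℂ → ℂ, Measurable g →
        (∫⁻ θ in Set.Ioc (0 : ℝ) (2 * Real.pi),
            ENNReal.ofReal (W (Complex.exp ((θ : ℂ) * Complex.I))) *
              ‖g (Complex.exp ((θ : ℂ) * Complex.I))‖ₑ ^ (2 : ℕ)) < ⊤ →
        ∀ ε : ℝ, 0 < ε →
          ∃ p : Polynomial ℂ,
            (∫⁻ z in Metric.ball (0 : ℂ) 1,
                ENNReal.ofReal (G ‖z‖) * ‖p.eval z‖ₑ ^ (2 : ℕ)) < ENNReal.ofReal ε ∧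
            (∫⁻ θ in Set.Ioc (0 : ℝ) (2 * Real.pi),
                ENNReal.ofReal (W (Complex.exp ((θ : ℂ) * Complex.I))) *
                  ‖p.eval (Complex.exp ((θ : ℂ) * Complex.I)) -
                    g (Complex.exp ((θ : ℂ) * Complex.I))‖ₑ ^ (2 : ℕ)) < ENNReal.ofReal ε := by
  intro G W hGm hG hGi ht hW hW0 hWi hlog g hg hgi ε hε
  obtain ⟨ρ, hρ0, hρ1, hρ⟩ := Pool.Agent.Helper655.Split.decay_of_tendsto G
    (fun r h1 h2 => hG r h1.le h2) ht
  have hexpm : Measurable (fun θ : ℝ => Complex.exp ((θ : ℂ) * Complex.I)) := by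
    apply Continuous.measurable
    fun_prop
  obtain ⟨p, h1, h2⟩ := Pool.Agent.Helper655.Split.approx_all
    (fun z => ENNReal.ofReal (G ‖z‖)) ((hGm.comp measurable_norm).ennreal_ofReal) hGi ρ hρ1
    (fun z h1 h2 => ENNReal.ofReal_le_ofReal (hρ ‖z‖ h1 h2))
    (fun θ => W (Complex.exp ((θ : ℂ) * Complex.I))) (hW.comp hexpm) (fun θ => hW0 _) hWi
    (fun a b _ hab _ => hlog a b hab) g hg hgi (ε / 2) (by positivity)
  have hlt : ENNReal.ofReal (ε / 2) < ENNReal.ofReal ε :=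
    (ENNReal.ofReal_lt_ofReal_iff hε).mpr (by linarith)
  exact ⟨p, lt_of_le_of_lt h1 hlt, lt_of_le_of_lt h2 hlt⟩

end Pool.Agent.S02673
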