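import Pool.Statements.S02678
-- import your own Pool.Agent.* helpers here

set_option autoImplicit false
open Pool Pool.MP_196b75_an

namespace Pool.Agent.S02678

open Complex Filter Topology

/-- the parameter of the spirallike function -/
noncomputable def γ : ℂ := 99 / 100 + I / 10

/-- the exponent parameter of the neighbourhood function -/
noncomputable def b : ℂ := -(1 + I / 10)

/-- binomial coefficients: `(1-z)^(-c) = ∑ pc c m z^m` -/
noncomputable def pc (c : ℂ) (m : ℕ) : ℂ := ∏ k ∈ Finset.range m, (c + k) / (k + 1)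

/-- `(1-z)^(-c)` -/
noncomputable def P (c z : ℂ) : ℂ := exp (-c * log (1 - z))

/-- Pochhammer symbol -/
noncomputable def A (c : ℂ) (m : ℕ) : ℂ := ∏ k ∈ Finset.range m, (c + k)

theorem one_sub_re {z : ℂ} (hz : z ∈ Metric.ball (0:ℂ) 1) : 0 < (1 - z).re := by
  have h1 : ‖z‖ < 1 := by simpa using hz
  have h2 := abs_re_le_norm z
  have h3 := le_abs_self z.re
  simp only [sub_re, one_re]
  linarith

theorem one_sub_mem {z : ℂ} (hz : z ∈ Metric.ball (0:ℂ) 1) : 1 - z ∈ slitPlane :=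
  Or.inl (one_sub_re hz)

theorem one_sub_ne {z : ℂ} (hz : z ∈ Metric.ball (0:ℂ) 1) : 1 - z ≠ 0 :=
  slitPlane_ne_zero (one_sub_mem hz)

theorem P_add (c d z : ℂ) : P (c + d) z = P c z * P d z := by
  unfold P; rw [← exp_add]; congr 1; ring

theorem P_zero (c : ℂ) : P c 0 = 1 := by unfold P; simp

theorem P_ne (c z : ℂ) : P c z ≠ 0 := exp_ne_zero _

theorem P_z (z : ℂ) : P 0 z = 1 := by unfold P; simp

theorem P_one {z : ℂ} (hz : z ∈ Metric.ball (0:ℂ) 1) : P 1 z = 1 / (1 - z) := by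
  unfold P
  rw [neg_one_mul, exp_neg, exp_log (one_sub_ne hz), one_div]

theorem P_deriv (c : ℂ) {z : ℂ} (hz : z ∈ Metric.ball (0:ℂ) 1) :
    HasDerivAt (P c) (c * P (c + 1) z) z := by
  have h1 : HasDerivAt (fun w : ℂ => 1 - w) (-1) z := by
    simpa using (hasDerivAt_id z).const_sub 1
  have h2 := ((h1.clog (one_sub_mem hz)).const_mul (-c)).cexp
  have h3 : exp (-c * log (1 - z)) * (-c * (-1 / (1 - z))) = c * P (c + 1) z := by
    rw [P_add, P_one hz]
    unfold P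
    ring
  rw [h3] at h2
  exact h2

/-- the basic function `z (1-z)^(-c)` -/
noncomputable def Q (c z : ℂ) : ℂ := z * P c z

theorem Q_deriv (c : ℂ) {z : ℂ} (hz : z ∈ Metric.ball (0:ℂ) 1) :
    HasDerivAt (Q c) (P c z + z * (c * P (c + 1) z)) z := by
  have := (hasDerivAt_id z).mul (P_deriv c hz)
  simp only [id, one_mul] at this
  exact this

theorem iter (c μ d ν : ℂ) (m : ℕ) : ∀ z ∈ Metric.ball (0:ℂ) 1,
    iteratedDeriv (m + 1) (fun z => μ * Q c z + ν * Q d z) z =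
      μ * (z * (A c (m + 1) * P (c + (m + 1)) z) + (m + 1) * (A c m * P (c + m) z)) +
      ν * (z * (A d (m + 1) * P (d + (m + 1)) z) + (m + 1) * (A d m * P (d + m) z)) := by
  induction m with
  | zero =>
    intro z hz
    rw [zero_add, iteratedDeriv_one]
    have hd : HasDerivAt (fun z => μ * Q c z + ν * Q d z)
        (μ * (P c z + z * (c * P (c + 1) z)) + ν * (P d z + z * (d * P (d + 1) z))) z :=
      ((Q_deriv c hz).const_mul μ).add ((Q_deriv d hz).const_mul ν)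
    rw [hd.deriv]
    unfold A
    simp
    ring
  | succ m ih =>
    intro z hz
    rw [iteratedDeriv_succ]
    have h1 : iteratedDeriv (m + 1) (fun z => μ * Q c z + ν * Q d z) =ᶠ[𝓝 z]
        fun z => μ * (z * (A c (m + 1) * P (c + (m + 1)) z) + (m + 1) * (A c m * P (c + m) z)) +
          ν * (z * (A d (m + 1) * P (d + (m + 1)) z) + (m + 1) * (A d m * P (d + m) z)) := by
      filter_upwards [Metric.isOpen_ball.mem_nhds hz] with w hw
      exact ih w hw
    rw [h1.deriv_eq]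
    have key : ∀ e : ℂ, HasDerivAt (fun z => z * (A e (m + 1) * P (e + (m + 1)) z) +
        (m + 1) * (A e m * P (e + m) z))
        (z * (A e (m + 1 + 1) * P (e + ((m + 1 : ℕ) + 1)) z) +
          ((m + 1 : ℕ) + 1) * (A e (m + 1) * P (e + (m + 1 : ℕ)) z)) z := by
      intro e
      have k1 := (hasDerivAt_id z).mul ((P_deriv (e + (m + 1)) hz).const_mul (A e (m + 1)))
      have k2 := ((P_deriv (e + m) hz).const_mul (A e m)).const_mul ((m : ℂ) + 1)
      have k3 := k1.add k2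
      have e1 : A e (m + 1 + 1) = A e (m + 1) * (e + (m + 1)) := by
        unfold A; rw [Finset.prod_range_succ _ (m + 1)]; push_cast; ring
      have e2 : A e (m + 1) = A e m * (e + m) := by
        unfold A; rw [Finset.prod_range_succ _ m]
      have e3 : e + (((m + 1 : ℕ) : ℂ) + 1) = e + (m + 1) + 1 := by push_cast; ring
      have e4 : e + ((m + 1 : ℕ) : ℂ) = e + (m + 1) := by push_cast; ring
      have e5 : e + (m : ℂ) + 1 = e + (m + 1) := by ring
      rw [e3, e4, e1]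
      rw [e5] at k3
      simp only [id, one_mul] at k3
      have e6 : A e (m + 1) * P (e + (m + 1)) z +
          z * (A e (m + 1) * ((e + (m + 1)) * P (e + (m + 1) + 1) z)) +
          ((m : ℂ) + 1) * (A e m * ((e + m) * P (e + (m + 1)) z)) =
          z * (A e (m + 1) * (e + (m + 1)) * P (e + (m + 1) + 1) z) +
          (((m + 1 : ℕ) : ℂ) + 1) * (A e (m + 1) * P (e + (m + 1)) z) := by
        rw [e2]; push_cast; ring
      rw [← e6]
      exact k3
    exact (((key c).const_mul μ).add ((key d).const_mul ν)).deriv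

theorem A_div (c : ℂ) (m : ℕ) : ((m : ℂ) + 1) * A c m / ((m + 1).factorial : ℂ) = pc c m := by
  unfold A pc
  rw [Finset.prod_div_distrib]
  have h1 : ∏ k ∈ Finset.range m, ((k : ℂ) + 1) = (m.factorial : ℂ) := by
    rw [← Finset.prod_range_add_one_eq_factorial]
    push_cast
    rfl
  rw [h1, Nat.factorial_succ]
  push_cast
  have h2 : (m : ℂ) + 1 ≠ 0 := Nat.cast_add_one_ne_zero m
  have h3 : (m.factorial : ℂ) ≠ 0 := by exact_mod_cast Nat.factorial_ne_zero m
  field_simp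

theorem coeff (c μ d ν : ℂ) (m : ℕ) :
    iteratedDeriv (m + 1) (fun z => μ * Q c z + ν * Q d z) 0 / ((m + 1).factorial : ℂ) =
      μ * pc c m + ν * pc d m := by
  rw [iter c μ d ν m 0 (Metric.mem_ball_self zero_lt_one), P_zero, P_zero, P_zero, P_zero,
    ← A_div c m, ← A_div d m]
  ring

/-! ### univalence of the spirallike function -/

/-- logarithm of `Q (1+γ) (exp ζ)` -/
noncomputable def ell (ζ : ℂ) : ℂ := ζ - (1 + γ) * log (1 - exp ζ)

theorem exp_mem {ζ : ℂ} (h : ζ.re < 0) : exp ζ ∈ Metric.ball (0:ℂ) 1 := by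
  rw [mem_ball_zero_iff, norm_exp]
  exact Real.exp_lt_one_iff.mpr h

theorem ell_deriv {ζ : ℂ} (h : ζ.re < 0) :
    HasDerivAt ell (1 + (1 + γ) * exp ζ / (1 - exp ζ)) ζ := by
  have h1 : HasDerivAt (fun w : ℂ => 1 - exp w) (-exp ζ) ζ := (hasDerivAt_exp ζ).const_sub 1
  have h2 := (hasDerivAt_id ζ).sub ((h1.clog (one_sub_mem (exp_mem h))).const_mul (1 + γ))
  have h3 : 1 - (1 + γ) * (-exp ζ / (1 - exp ζ)) = 1 + (1 + γ) * exp ζ / (1 - exp ζ) := by ring
  rw [h3] at h2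
  exact h2

theorem ell_pos {ζ : ℂ} (h : ζ.re < 0) :
    0 < ((199 / 100 - I / 10) * (1 + (1 + γ) * exp ζ / (1 - exp ζ))).re := by
  have hm := exp_mem h
  generalize exp ζ = w at hm
  have hw : ‖w‖ < 1 := by simpa using hm
  have hne := one_sub_ne hm
  have e1 : (199 / 100 - I / 10) * (1 + (1 + γ) * w / (1 - w)) =
      -(19801 / 10000 + I / 10) + (39701 / 10000) * (1 - w)⁻¹ := by
    unfold γ
    field_simp
    have := I_sq
    ring_nf
    rw [this]
    ring
  rw [e1]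
  have e2 : (-(19801 / 10000 + I / 10) + (39701 / 10000) * (1 - w)⁻¹ : ℂ).re =
      -(19801 / 10000) + 39701 / 10000 * ((1 - w)⁻¹).re := by
    have : (39701 / 10000 : ℂ) = ((39701 / 10000 : ℝ) : ℂ) := by push_cast; rfl
    rw [add_re, this, re_ofReal_mul]
    simp
  rw [e2, inv_re]
  have h3 : 0 < normSq (1 - w) := normSq_pos.mpr hne
  have h4 : 1 / 2 < (1 - w).re / normSq (1 - w) := by
    rw [lt_div_iff₀ h3, normSq_apply]
    simp only [sub_re, one_re, sub_im, one_im]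
    have h5 : w.re * w.re + w.im * w.im < 1 := by
      rw [← normSq_apply, normSq_eq_norm_sq]
      nlinarith [norm_nonneg w]
    nlinarith
  linarith

theorem ell_inj {ζ ξ : ℂ} (h1 : ζ.re < 0) (h2 : ξ.re < 0) (h : ell ζ = ell ξ) : ζ = ξ := by
  by_contra hne
  have hD : ζ - ξ ≠ 0 := sub_ne_zero.mpr hne
  let p : ℝ → ℂ := fun s => ξ + s * (ζ - ξ)
  have hp : ∀ s ∈ Set.Icc (0:ℝ) 1, (p s).re < 0 := by
    intro s hs
    have e : (p s).re = (1 - s) * ξ.re + s * ζ.re := by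
      simp only [p, add_re, re_ofReal_mul, sub_re]
      ring
    rw [e]
    rcases eq_or_lt_of_le hs.1 with h0 | h0
    · rw [← h0]; linarith
    · nlinarith [hs.2]
  let u : ℝ → ℝ := fun s => ((199 / 100 - I / 10) * (ell (p s) / (ζ - ξ))).re
  have hu : ∀ s ∈ Set.Icc (0:ℝ) 1, HasDerivAt u
      (((199 / 100 - I / 10) * (1 + (1 + γ) * exp (p s) / (1 - exp (p s)))).re) s := by
    intro s hs
    have hps : HasDerivAt p (ζ - ξ) s := by
      have := ((hasDerivAt_id (s:ℝ)).ofReal_comp.mul_const (ζ - ξ)).const_add ξ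
      exact this.congr_deriv (by simp)
    have hc := (ell_deriv (hp s hs)).comp s hps
    have hc2 := (hc.div_const (ζ - ξ)).const_mul (199 / 100 - I / 10)
    have e : (199 / 100 - I / 10) * ((1 + (1 + γ) * exp (p s) / (1 - exp (p s))) * (ζ - ξ) / (ζ - ξ)) =
        (199 / 100 - I / 10) * (1 + (1 + γ) * exp (p s) / (1 - exp (p s))) := by
      rw [mul_div_assoc, div_self hD, mul_one]
    rw [e] at hc2
    exact (Complex.reCLM.hasFDerivAt.comp_hasDerivAt s hc2)
  obtain ⟨s, hs, hs'⟩ := exists_hasDerivAt_eq_slope u _ zero_lt_one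
    (fun s hs => (hu s hs).continuousAt.continuousWithinAt)
    (fun s hs => hu s (Set.Ioo_subset_Icc_self hs))
  have hpos := ell_pos (hp s (Set.Ioo_subset_Icc_self hs))
  have e0 : u 1 - u 0 = 0 := by
    simp only [u, p]
    have a1 : ξ + ((1:ℝ):ℂ) * (ζ - ξ) = ζ := by push_cast; ring
    have a0 : ξ + ((0:ℝ):ℂ) * (ζ - ξ) = ξ := by push_cast; ring
    rw [a1, a0, h]
    ring
  rw [e0] at hs'
  simp only [sub_zero, div_one] at hs'
  rw [hs'] at hpos
  exact lt_irrefl _ hpos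

theorem ell_add (ζ : ℂ) (n : ℤ) : ell (ζ + n * (2 * Real.pi * I)) = ell ζ + n * (2 * Real.pi * I) := by
  unfold ell
  rw [exp_add, exp_int_mul_two_pi_mul_I, mul_one]
  ring

theorem Q_inj : Set.InjOn (Q (1 + γ)) (Metric.ball (0:ℂ) 1) := by
  intro z hz z' hz' h
  by_cases h0 : z = 0
  · rw [h0] at h ⊢
    unfold Q at h
    rw [zero_mul] at h
    rcases mul_eq_zero.mp h.symm with h1 | h1
    · exact h1.symm
    · exact absurd h1 (P_ne _ _)
  by_cases h0' : z' = 0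
  · rw [h0'] at h ⊢
    unfold Q at h
    rw [zero_mul] at h
    rcases mul_eq_zero.mp h with h1 | h1
    · exact h1
    · exact absurd h1 (P_ne _ _)
  have hlog : ∀ w ∈ Metric.ball (0:ℂ) 1, w ≠ 0 → (log w).re < 0 ∧
      Q (1 + γ) w = exp (ell (log w)) := by
    intro w hw hw0
    have hw1 : ‖w‖ < 1 := by simpa using hw
    refine ⟨?_, ?_⟩
    · rw [log_re]
      exact Real.log_neg (norm_pos_iff.mpr hw0) hw1
    · unfold Q ell P
      rw [exp_log hw0, show log w - (1 + γ) * log (1 - w) = log w + (-(1 + γ) * log (1 - w)) by ring,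
        exp_add, exp_log hw0]
  obtain ⟨r1, e1⟩ := hlog z hz h0
  obtain ⟨r2, e2⟩ := hlog z' hz' h0'
  rw [e1, e2] at h
  obtain ⟨n, hn⟩ := exp_eq_exp_iff_exists_int.mp h
  rw [← ell_add] at hn
  have hre : (log z' + n * (2 * Real.pi * I)).re < 0 := by
    have : (log z' + n * (2 * Real.pi * I)).re = (log z').re := by simp
    rw [this]; exact r2
  have h3 := ell_inj r1 hre hn
  have h4 := congrArg exp h3
  rw [exp_add, exp_int_mul_two_pi_mul_I, mul_one, exp_log h0, exp_log h0'] at h4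
  exact h4

noncomputable def t (m : ℕ) : ℂ := pc (1 + γ) m * pc b m

noncomputable def X (m : ℕ) : ℂ := m * t m

theorem pc_succ (c : ℂ) (m : ℕ) : pc c (m + 1) = pc c m * ((c + m) / (m + 1)) := by
  unfold pc; rw [Finset.prod_range_succ]

theorem t_succ (m : ℕ) : t (m + 1) = t m * ((1 + γ + m) * (m - 1 - I / 10) / ((m + 1) * (m + 1))) := by
  unfold t
  rw [pc_succ, pc_succ]
  have h : (m : ℂ) + 1 ≠ 0 := Nat.cast_add_one_ne_zero m
  unfold b
  field_simp
  ring

theorem t_zero : t 0 = 1 := by unfold t pc; simp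

theorem t_one : t 1 = -(198 / 100) - 299 / 1000 * I := by
  have h := t_succ 0
  rw [t_zero] at h
  rw [h]
  unfold γ
  push_cast
  have := I_sq
  ring_nf
  rw [this]
  ring

theorem t_two : t 2 = -(109201 / 4000000) + 58903 / 400000 * I := by
  have h := t_succ 1
  rw [t_one] at h
  rw [h]
  unfold γ
  push_cast
  have h2 := I_sq
  have h3 : I ^ 3 = -I := by rw [pow_succ, I_sq]; ring
  ring_nf
  rw [h2, h3]
  ring

theorem t_three : t 3 = -(26068403 / 3600000000) + 265419011 / 4000000000 * I := by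
  have h := t_succ 2
  rw [t_two] at h
  rw [h]
  unfold γ
  push_cast
  have h2 := I_sq
  have h3 : I ^ 3 = -I := by rw [pow_succ, I_sq]; ring
  ring_nf
  rw [h2, h3]
  ring

theorem t_four : t 4 = -(209998989011 / 64000000000000) + 1197088390199 / 28800000000000 * I := by
  have h := t_succ 3
  rw [t_three] at h
  rw [h]
  unfold γ
  push_cast
  have h2 := I_sq
  have h3 : I ^ 3 = -I := by rw [pow_succ, I_sq]; ring
  ring_nf
  rw [h2, h3]
  ring

theorem norm_t_four : ‖t 4‖ ≤ 42 / 1000 := by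
  have h : ‖t 4‖ ^ 2 ≤ (42 / 1000) ^ 2 := by
    rw [t_four, ← normSq_eq_norm_sq, normSq_apply]
    simp
    norm_num
  exact le_of_sq_le_sq h (by norm_num)

/-- `X_{m+1} = X_m (m+1+γ)(m-1-i/10) / (m (m+1))` -/
theorem X_succ (m : ℕ) (hm : 1 ≤ m) :
    X (m + 1) = X m * ((1 + γ + m) * (m - 1 - I / 10) / (m * (m + 1))) := by
  unfold X
  rw [t_succ]
  have h : (m : ℂ) + 1 ≠ 0 := Nat.cast_add_one_ne_zero m
  have h' : (m : ℂ) ≠ 0 := by exact_mod_cast (by omega : m ≠ 0)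
  push_cast
  field_simp

theorem ratio_bound (m : ℕ) (hm : 4 ≤ m) :
    ‖(1 + γ + m) * (m - 1 - I / 10) / (m * (m + 1))‖ ≤ 1 - (1 / 100) / (m + 1) := by
  have hm' : (4 : ℝ) ≤ m := by exact_mod_cast hm
  have hpos : 0 < 1 - (1 / 100 : ℝ) / (m + 1) := by
    have : (1 / 100 : ℝ) / (m + 1) < 1 := by
      rw [div_lt_one (by linarith)]; linarith
    linarith
  apply le_of_sq_le_sq _ hpos.le
  rw [norm_div, norm_mul, div_pow, mul_pow, ← normSq_eq_norm_sq, ← normSq_eq_norm_sq,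
    ← normSq_eq_norm_sq]
  have e1 : normSq (1 + γ + (m : ℂ)) = (m + 199 / 100) ^ 2 + 1 / 100 := by
    unfold γ
    rw [normSq_apply]
    simp
    ring
  have e2 : normSq ((m : ℂ) - 1 - I / 10) = (m - 1) ^ 2 + 1 / 100 := by
    rw [normSq_apply]
    simp
    ring
  have e3 : normSq ((m : ℂ) * (m + 1)) = (m * (m + 1)) ^ 2 := by
    rw [normSq_apply]
    simp
    ring
  rw [e1, e2, e3, div_le_iff₀ (by positivity)]
  have e4 : (1 - (1 / 100 : ℝ) / (m + 1)) ^ 2 * (m * (m + 1)) ^ 2 = (m * (m + 99 / 100)) ^ 2 := by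
    field_simp
    ring
  rw [e4]
  nlinarith [mul_nonneg (by linarith : (0:ℝ) ≤ m - 4) (by linarith : (0:ℝ) ≤ m - 4)]

theorem X_step (m : ℕ) (hm : 4 ≤ m) : ‖X (m + 1)‖ ≤ (1 - (1 / 100) / (m + 1)) * ‖X m‖ := by
  rw [X_succ m (by omega), norm_mul, mul_comm]
  exact mul_le_mul_of_nonneg_right (ratio_bound m hm) (norm_nonneg _)

theorem X_bound (m : ℕ) (hm : 4 ≤ m) : ‖X m‖ ≤ 168 / 1000 := by
  induction m, hm using Nat.le_induction with
  | base =>
    unfold X
    rw [norm_mul]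
    have := norm_t_four
    have e : ‖((4 : ℕ) : ℂ)‖ = 4 := by simp
    rw [e]
    linarith
  | succ m hm ih =>
    refine (X_step m hm).trans ?_
    have h1 : (0:ℝ) ≤ (1 / 100 : ℝ) / (m + 1) := by positivity
    nlinarith [norm_nonneg (X m)]

theorem X_exp (n : ℕ) : ‖X (n + 4)‖ ≤
    (168 / 1000 * Real.exp ((1 / 100) * ∑ i ∈ Finset.range 4, 1 / ((i : ℝ) + 1))) *
      Real.exp (-((1 / 100) * ∑ i ∈ Finset.range (n + 4), 1 / ((i : ℝ) + 1))) := by
  induction n with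
  | zero =>
    rw [zero_add, mul_assoc, ← Real.exp_add]
    simp only [add_neg_cancel, Real.exp_zero, mul_one]
    exact X_bound 4 le_rfl
  | succ n ih =>
    have h1 := X_step (n + 4) (by omega)
    have e : n + 1 + 4 = n + 4 + 1 := by ring
    rw [e]
    refine h1.trans ?_
    have h2 : 1 - (1 / 100 : ℝ) / (((n + 4 : ℕ) : ℝ) + 1) ≤
        Real.exp (-((1 / 100) * (1 / (((n + 4 : ℕ) : ℝ) + 1)))) := by
      have := Real.add_one_le_exp (-((1 / 100) * (1 / (((n + 4 : ℕ) : ℝ) + 1))))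
      refine le_trans (le_of_eq ?_) this
      ring
    have h3 : 0 ≤ 1 - (1 / 100 : ℝ) / (((n + 4 : ℕ) : ℝ) + 1) := by
      have : (1 / 100 : ℝ) / (((n + 4 : ℕ) : ℝ) + 1) ≤ 1 := by
        rw [div_le_one (by positivity)]
        have : (0:ℝ) ≤ ((n + 4 : ℕ) : ℝ) := Nat.cast_nonneg _
        linarith
      linarith
    calc (1 - (1 / 100 : ℝ) / (((n + 4 : ℕ) : ℝ) + 1)) * ‖X (n + 4)‖
        ≤ Real.exp (-((1 / 100) * (1 / (((n + 4 : ℕ) : ℝ) + 1)))) * _ :=
          mul_le_mul h2 ih (norm_nonneg _) (Real.exp_pos _).le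
      _ = _ := by
        rw [Finset.sum_range_succ _ (n + 4), mul_comm, mul_assoc, ← Real.exp_add]
        congr 2
        ring

theorem X_tendsto : Tendsto X atTop (𝓝 0) := by
  rw [← tendsto_add_atTop_iff_nat 4]
  apply squeeze_zero_norm X_exp
  rw [← mul_zero (168 / 1000 * Real.exp ((1 / 100) * ∑ i ∈ Finset.range 4, 1 / ((i : ℝ) + 1)))]
  apply Tendsto.const_mul
  apply Real.tendsto_exp_neg_atTop_nhds_zero.comp
  apply Tendsto.const_mul_atTop (by norm_num)
  exact (Real.tendsto_sum_range_one_div_nat_succ_atTop).comp (tendsto_add_atTop_nat 4)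

/-- the telescoping identity -/
theorem telescope (M : ℕ) : X M = -(1 / 100) * ∑ m ∈ Finset.range M, t m +
    (1 / 100 - (1 + γ) * (1 + I / 10)) * ∑ m ∈ Finset.range M, t m / (m + 1) := by
  induction M with
  | zero => unfold X; simp
  | succ M ih =>
    rw [Finset.sum_range_succ, Finset.sum_range_succ]
    have h : (M : ℂ) + 1 ≠ 0 := Nat.cast_add_one_ne_zero M
    have e : X (M + 1) = X M - 1 / 100 * t M +
        (1 / 100 - (1 + γ) * (1 + I / 10)) * (t M / (M + 1)) := by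
      unfold X
      rw [t_succ]
      unfold γ
      push_cast
      field_simp
      ring
    rw [e, ih]
    ring

noncomputable def qs (M : ℕ) : ℂ := ∑ m ∈ Finset.range M, t m / (m + 1)

theorem term_bound (n : ℕ) : ‖t (n + 4) / (((n + 4 : ℕ) : ℂ) + 1)‖ ≤
    168 / 1000 * (1 / ((n + 4 : ℝ)) - 1 / ((n + 5 : ℝ))) := by
  have h1 := X_bound (n + 4) (by omega)
  unfold X at h1
  rw [norm_mul] at h1
  have e1 : ‖((n + 4 : ℕ) : ℂ)‖ = (n : ℝ) + 4 := by
    rw [norm_natCast]; push_cast; ring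
  rw [e1] at h1
  have e2 : ‖((n + 4 : ℕ) : ℂ) + 1‖ = (n : ℝ) + 5 := by
    have : ((n + 4 : ℕ) : ℂ) + 1 = ((n + 5 : ℕ) : ℂ) := by push_cast; ring
    rw [this, norm_natCast]; push_cast; ring
  rw [norm_div, e2]
  have hn : (0:ℝ) ≤ n := Nat.cast_nonneg n
  have e3 : 1 / ((n + 4 : ℝ)) - 1 / ((n + 5 : ℝ)) = 1 / ((n + 4) * (n + 5)) := by
    field_simp
    ring
  rw [e3, div_le_iff₀ (by linarith)]
  have e4 : 168 / 1000 * (1 / (((n : ℝ) + 4) * (n + 5))) * (n + 5) = 168 / 1000 / (n + 4) := by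
    field_simp
  rw [e4, le_div_iff₀ (by linarith)]
  linarith

theorem qs_bound (n : ℕ) : ‖qs (n + 4) - qs 4‖ ≤ 168 / 1000 * (1 / 4 - 1 / ((n + 4 : ℝ))) := by
  induction n with
  | zero => simp
  | succ n ih =>
    have e : qs (n + 1 + 4) = qs (n + 4) + t (n + 4) / (((n + 4 : ℕ) : ℂ) + 1) := by
      unfold qs
      rw [show n + 1 + 4 = (n + 4) + 1 by ring, Finset.sum_range_succ]
    rw [e]
    have h1 := term_bound n
    have h2 : qs (n + 4) + t (n + 4) / (((n + 4 : ℕ) : ℂ) + 1) - qs 4 =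
        (qs (n + 4) - qs 4) + t (n + 4) / (((n + 4 : ℕ) : ℂ) + 1) := by ring
    rw [h2]
    refine (norm_add_le _ _).trans ?_
    refine (add_le_add ih h1).trans (le_of_eq ?_)
    push_cast
    ring

theorem summable_q : Summable (fun m : ℕ => t m / ((m : ℂ) + 1)) := by
  rw [← summable_nat_add_iff 4]
  apply Summable.of_norm_bounded (g := fun n : ℕ => 1 / ((n + 1 : ℕ) : ℝ) ^ 2)
  · exact (summable_nat_add_iff 1).mpr (Real.summable_one_div_nat_pow.mpr one_lt_two)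
  · intro n
    refine (term_bound n).trans ?_
    have hn : (0:ℝ) ≤ n := Nat.cast_nonneg n
    have e3 : 1 / ((n + 4 : ℝ)) - 1 / ((n + 5 : ℝ)) = 1 / ((n + 4) * (n + 5)) := by
      field_simp
      ring
    rw [e3]
    push_cast
    have h1 : 1 / (((n : ℝ) + 4) * (n + 5)) ≤ 1 / ((n : ℝ) + 1) ^ 2 := by
      apply one_div_le_one_div_of_le (by positivity)
      nlinarith
    have h2 : 0 ≤ 1 / (((n : ℝ) + 4) * (n + 5)) := by positivity
    linarith

theorem t_bound : ∃ C : ℝ, ∀ m, ‖t m‖ ≤ C := by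
  refine ⟨‖t 0‖ + ‖t 1‖ + ‖t 2‖ + ‖t 3‖ + 1, ?_⟩
  intro m
  have h0 := norm_nonneg (t 0)
  have h1 := norm_nonneg (t 1)
  have h2 := norm_nonneg (t 2)
  have h3 := norm_nonneg (t 3)
  rcases Nat.lt_or_ge m 4 with h | h
  · interval_cases m <;> linarith
  · have h4 := X_bound m h
    unfold X at h4
    rw [norm_mul, norm_natCast] at h4
    have h5 : (4:ℝ) ≤ m := by exact_mod_cast h
    nlinarith [norm_nonneg (t m)]

theorem exists_limit : ∃ l : ℂ, Tendsto (fun M => ∑ m ∈ Finset.range M, t m) atTop (𝓝 l) ∧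
    5 < ‖l - 1‖ := by
  obtain ⟨κ, hκ⟩ : ∃ κ, κ = (1 / 100 - (1 + γ) * (1 + I / 10) : ℂ) := ⟨_, rfl⟩
  obtain ⟨q, hq⟩ := summable_q
  have hq' : Tendsto qs atTop (𝓝 q) := hq.tendsto_sum_nat
  refine ⟨100 * (κ * q), ?_, ?_⟩
  · have h1 : (fun M => ∑ m ∈ Finset.range M, t m) = fun M => 100 * (κ * qs M - X M) := by
      funext M
      rw [telescope M, ← hκ]
      unfold qs
      ring
    rw [h1]
    have h2 := ((hq'.const_mul κ).sub X_tendsto).const_mul 100
    rw [sub_zero] at h2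
    exact h2
  · have hk : κ = -(197 / 100) - 299 / 1000 * I := by
      rw [hκ]
      unfold γ
      have := I_sq
      ring_nf
      rw [this]
      ring
    have hkn : 199 / 100 ≤ ‖κ‖ := by
      have h : (199 / 100 : ℝ) ^ 2 ≤ ‖κ‖ ^ 2 := by
        rw [hk, ← normSq_eq_norm_sq, normSq_apply]
        simp
        norm_num
      exact le_of_sq_le_sq h (norm_nonneg _)
    have hq4 : qs 4 = -(13109603 / 14400000000) - 4023622967 / 48000000000 * I := by
      unfold qs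
      rw [Finset.sum_range_succ, Finset.sum_range_succ, Finset.sum_range_succ,
        Finset.sum_range_one, t_zero, t_one, t_two, t_three]
      push_cast
      ring
    have hq4n : 838 / 10000 ≤ ‖qs 4‖ := by
      have h : (838 / 10000 : ℝ) ^ 2 ≤ ‖qs 4‖ ^ 2 := by
        rw [hq4, ← normSq_eq_norm_sq, normSq_apply]
        simp
        norm_num
      exact le_of_sq_le_sq h (norm_nonneg _)
    have htail : ‖q - qs 4‖ ≤ 42 / 1000 := by
      have h1 : Tendsto (fun n => ‖qs (n + 4) - qs 4‖) atTop (𝓝 ‖q - qs 4‖) :=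
        ((hq'.comp (tendsto_add_atTop_nat 4)).sub_const (qs 4)).norm
      apply le_of_tendsto h1
      filter_upwards with n
      refine (qs_bound n).trans ?_
      have hn : (0:ℝ) ≤ n := Nat.cast_nonneg n
      have : 0 ≤ 1 / ((n + 4 : ℝ)) := by positivity
      linarith
    have hqn : 418 / 10000 ≤ ‖q‖ := by
      have h1 : ‖qs 4‖ ≤ ‖q‖ + ‖q - qs 4‖ := by
        have := norm_sub_le q (q - qs 4)
        rw [sub_sub_cancel] at this
        exact this
      linarith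
    have h1 : ‖(100 : ℂ) * (κ * q)‖ = 100 * (‖κ‖ * ‖q‖) := by
      rw [norm_mul, norm_mul]
      simp
    have h2 : (199 / 100) * (418 / 10000) ≤ ‖κ‖ * ‖q‖ :=
      mul_le_mul hkn hqn (by norm_num) (norm_nonneg _)
    have h3 := norm_sub_norm_le ((100 : ℂ) * (κ * q)) 1
    rw [norm_one, h1] at h3
    linarith

/-- there is a point `r` of `(0,1)` where the pairing is larger than five -/
theorem exists_r : ∃ r : ℝ, 0 < r ∧ r < 1 ∧ 5 < ‖(∑' n : ℕ, t n * (r : ℂ) ^ n) - 1‖ := by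
  obtain ⟨l, hl, hl5⟩ := exists_limit
  have h1 := Complex.tendsto_tsum_powerSeries_nhdsWithin_lt hl
  rw [tendsto_map'_iff] at h1
  have h2 : Tendsto (fun r : ℝ => ‖(∑' n : ℕ, t n * (r : ℂ) ^ n) - 1‖) (𝓝[<] 1) (𝓝 ‖l - 1‖) :=
    (h1.sub_const 1).norm
  have h3 := h2.eventually (lt_mem_nhds hl5)
  have h4 : ∀ᶠ r : ℝ in 𝓝[<] 1, r < 1 := eventually_mem_nhdsWithin
  have h5 : ∀ᶠ r : ℝ in 𝓝[<] 1, 0 < r := by
    apply mem_nhdsWithin_of_mem_nhds
    exact lt_mem_nhds zero_lt_one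
  obtain ⟨r, hr1, hr2, hr3⟩ := (h3.and (h4.and h5)).exists
  exact ⟨r, hr3, hr2, hr1⟩

/-! ### the neighbourhood function -/

theorem norm_P_small {z : ℂ} (hz : z ∈ Metric.ball (0:ℂ) 1) : ‖P (b + 1) z‖ ≤ 119 / 100 := by
  unfold P
  rw [norm_exp]
  have hre : (-(b + 1) * log (1 - z)).re = -(arg (1 - z)) / 10 := by
    unfold b
    simp [log_im]
    ring
  rw [hre]
  have harg := abs_arg_lt_pi_div_two_iff.mpr (Or.inl (one_sub_re hz))
  have h1 : -(arg (1 - z)) / 10 ≤ 79 / 500 := by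
    have := (abs_lt.mp harg).1
    have := Real.pi_lt_d2
    linarith
  calc Real.exp (-(arg (1 - z)) / 10) ≤ Real.exp (79 / 500) := Real.exp_le_exp.mpr h1
    _ ≤ 119 / 100 := by
      have h := Real.exp_bound_div_one_sub_of_interval (x := 79 / 500) (by norm_num) (by norm_num)
      refine h.trans ?_
      norm_num

theorem P_b {z : ℂ} (hz : z ∈ Metric.ball (0:ℂ) 1) : P b z = (1 - z) * P (b + 1) z := by
  have h := P_add b 1 z
  rw [P_one hz] at h
  rw [h]
  have := one_sub_ne hz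
  field_simp

theorem norm_b : ‖b‖ ≤ 1006 / 1000 := by
  have h : ‖b‖ ^ 2 ≤ (1006 / 1000) ^ 2 := by
    unfold b
    rw [← normSq_eq_norm_sq, normSq_apply]
    simp
    norm_num
  exact le_of_sq_le_sq h (by norm_num)

theorem norm_b2 : ‖b - 2‖ ≤ 3003 / 1000 := by
  have h : ‖b - 2‖ ^ 2 ≤ (3003 / 1000) ^ 2 := by
    unfold b
    rw [← normSq_eq_norm_sq, normSq_apply]
    simp
    norm_num
  exact le_of_sq_le_sq h (by norm_num)

/-- the function `g` -/
noncomputable def gf (κ₀ z : ℂ) : ℂ := (1 - κ₀) * Q 0 z + κ₀ * Q b z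

theorem gf_deriv (κ₀ : ℂ) {z : ℂ} (hz : z ∈ Metric.ball (0:ℂ) 1) :
    HasDerivAt (gf κ₀) ((1 - κ₀) + κ₀ * (P b z + z * (b * P (b + 1) z))) z := by
  have h := ((Q_deriv 0 hz).const_mul (1 - κ₀)).add ((Q_deriv b hz).const_mul κ₀)
  refine h.congr_deriv ?_
  rw [P_z]
  ring

theorem gf_eq (κ₀ z : ℂ) : gf κ₀ z = (1 - κ₀) * z + κ₀ * (z * P b z) := by
  unfold gf Q
  rw [P_z, mul_one]

theorem gf_mem {κ₀ : ℂ} (hκ : ‖κ₀‖ < 1 / 5) {z : ℂ} (hz : z ∈ Metric.ball (0:ℂ) 1)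
    (h0 : z ≠ 0) :
    ‖(deriv (gf κ₀) z - 1) - (gf κ₀ z - z) / z‖ + ‖(deriv (gf κ₀) z - 1) + (gf κ₀ z - z) / z‖
      < 2 := by
  rw [(gf_deriv κ₀ hz).deriv, gf_eq]
  have e0 : ((1 - κ₀) * z + κ₀ * (z * P b z) - z) / z = κ₀ * (P b z - 1) := by
    field_simp
    ring
  have e1 : ((1 - κ₀) + κ₀ * (P b z + z * (b * P (b + 1) z)) - 1) - κ₀ * (P b z - 1) =
      κ₀ * (z * (b * P (b + 1) z)) := by ring
  have e2 : ((1 - κ₀) + κ₀ * (P b z + z * (b * P (b + 1) z)) - 1) + κ₀ * (P b z - 1) =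
      κ₀ * (P (b + 1) z * (2 + (b - 2) * z) - 2) := by
    rw [P_b hz]
    ring
  rw [e0, e1, e2]
  have hz1 : ‖z‖ < 1 := by simpa using hz
  have hP := norm_P_small hz
  have hPn := norm_nonneg (P (b + 1) z)
  have n1 : ‖κ₀ * (z * (b * P (b + 1) z))‖ ≤ ‖κ₀‖ * (1006 / 1000 * (119 / 100)) := by
    rw [norm_mul, norm_mul, norm_mul]
    apply mul_le_mul_of_nonneg_left _ (norm_nonneg _)
    have h1 : ‖b‖ * ‖P (b + 1) z‖ ≤ 1006 / 1000 * (119 / 100) :=
      mul_le_mul norm_b hP hPn (by norm_num)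
    have h2 : 0 ≤ ‖b‖ * ‖P (b + 1) z‖ := by positivity
    nlinarith [norm_nonneg z]
  have n2 : ‖κ₀ * (P (b + 1) z * (2 + (b - 2) * z) - 2)‖ ≤
      ‖κ₀‖ * (119 / 100 * (5003 / 1000) + 2) := by
    rw [norm_mul]
    apply mul_le_mul_of_nonneg_left _ (norm_nonneg _)
    have h1 : ‖2 + (b - 2) * z‖ ≤ 5003 / 1000 := by
      have a1 := norm_add_le (2 : ℂ) ((b - 2) * z)
      have a2 : ‖(2:ℂ)‖ = 2 := by simp
      have a3 : ‖(b - 2) * z‖ ≤ 3003 / 1000 := by
        rw [norm_mul]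
        have := norm_b2
        nlinarith [norm_nonneg (b - 2), norm_nonneg z]
      linarith
    have h2 : ‖P (b + 1) z * (2 + (b - 2) * z)‖ ≤ 119 / 100 * (5003 / 1000) := by
      rw [norm_mul]
      exact mul_le_mul hP h1 (norm_nonneg _) (by norm_num)
    have h3 := norm_sub_le (P (b + 1) z * (2 + (b - 2) * z)) 2
    have a2 : ‖(2:ℂ)‖ = 2 := by simp
    linarith
  nlinarith [norm_nonneg κ₀]

/-- the Hadamard product of `gf κ₀` and `Q (1+γ)` at a point `r` of `(0,1)` -/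
theorem hadamard (κ₀ : ℂ) (r : ℝ) (hr0 : 0 < r) (hr1 : r < 1) :
    (∑' n : ℕ, (iteratedDeriv n (gf κ₀) 0 / (n.factorial : ℂ)) *
      (iteratedDeriv n (Q (1 + γ)) 0 / (n.factorial : ℂ)) * (r : ℂ) ^ n) =
      r * (1 + κ₀ * ((∑' n : ℕ, t n * (r : ℂ) ^ n) - 1)) := by
  have hg : ∀ m : ℕ, iteratedDeriv (m + 1) (gf κ₀) 0 / ((m + 1).factorial : ℂ) =
      (1 - κ₀) * pc 0 m + κ₀ * pc b m := fun m => coeff 0 (1 - κ₀) b κ₀ m
  have hh : ∀ m : ℕ, iteratedDeriv (m + 1) (Q (1 + γ)) 0 / ((m + 1).factorial : ℂ) =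
      pc (1 + γ) m := by
    intro m
    have h1 := coeff (1 + γ) 1 0 0 m
    have h2 : (fun z => (1:ℂ) * Q (1 + γ) z + 0 * Q 0 z) = Q (1 + γ) := by
      funext z; ring
    rw [h2] at h1
    rw [h1]; ring
  have hpc0 : ∀ m : ℕ, pc 0 (m + 1) = 0 := by
    intro m
    unfold pc
    rw [Finset.prod_range_succ']
    simp
  have hpc00 : ∀ c : ℂ, pc c 0 = 1 := fun c => by unfold pc; simp
  let T : ℕ → ℂ := fun n => (iteratedDeriv n (gf κ₀) 0 / (n.factorial : ℂ)) *
      (iteratedDeriv n (Q (1 + γ)) 0 / (n.factorial : ℂ)) * (r : ℂ) ^ n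
  have hT0 : T 0 = 0 := by
    simp only [T, iteratedDeriv_zero]
    have : Q (1 + γ) 0 = 0 := by unfold Q; ring
    rw [this]; simp
  have hTs : ∀ m : ℕ, T (m + 1) = r * κ₀ * (t m * (r : ℂ) ^ m) +
      (if m = 0 then (r : ℂ) * (1 - κ₀) else 0) := by
    intro m
    simp only [T]
    rw [hg, hh]
    cases m with
    | zero =>
      rw [hpc00, hpc00, hpc00, t_zero]
      simp
      ring
    | succ m =>
      rw [hpc0]
      unfold t
      simp
      ring
  obtain ⟨C, hC⟩ := t_bound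
  have hsum : Summable (fun n : ℕ => t n * (r : ℂ) ^ n) := by
    apply Summable.of_norm_bounded (g := fun n : ℕ => C * r ^ n)
    · exact (summable_geometric_of_lt_one hr0.le hr1).mul_left C
    · intro n
      rw [norm_mul, norm_pow]
      have : ‖(r : ℂ)‖ = r := by rw [norm_real, Real.norm_eq_abs, abs_of_pos hr0]
      rw [this]
      exact mul_le_mul_of_nonneg_right (hC n) (by positivity)
  have h1 : HasSum (fun m : ℕ => T (m + 1)) (r * κ₀ * (∑' n : ℕ, t n * (r : ℂ) ^ n) +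
      (r : ℂ) * (1 - κ₀)) := by
    have a1 := hsum.hasSum.mul_left (r * κ₀ : ℂ)
    have a2 := hasSum_ite_eq (0 : ℕ) ((r : ℂ) * (1 - κ₀))
    have a3 := a1.add a2
    refine a3.congr_fun ?_
    intro m
    exact hTs m
  have h2 : HasSum T (r * κ₀ * (∑' n : ℕ, t n * (r : ℂ) ^ n) + (r : ℂ) * (1 - κ₀)) := by
    rw [← hasSum_nat_add_iff' 1]
    simpa [hT0] using h1
  show ∑' n, T n = _
  rw [h2.tsum_eq]
  ring

/-- The negation of the preceding statement: Every normalized analytic g on the unit disk with ∣(g'−1)−(g−z)/z∣+∣(g'−1)+(g−z)/z∣<2 throughout the disk has Hadamard product with every normalized univalent h nonvanishing for 0<∣z∣<1. -/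
theorem result :
    ¬ (∀ g : ℂ → ℂ, DifferentiableOn ℂ g (Metric.ball (0 : ℂ) 1) → g 0 = 0 → deriv g 0 = 1 →
      (∀ z : ℂ, z ∈ Metric.ball (0 : ℂ) 1 → z ≠ 0 →
        ‖(deriv g z - 1) - (g z - z) / z‖ + ‖(deriv g z - 1) + (g z - z) / z‖ < 2) →
      ∀ h : ℂ → ℂ, DifferentiableOn ℂ h (Metric.ball (0 : ℂ) 1) → h 0 = 0 → deriv h 0 = 1 →
        Set.InjOn h (Metric.ball (0 : ℂ) 1) →
        ∀ z : ℂ, 0 < ‖z‖ → ‖z‖ < 1 →
          (∑' n : ℕ, (iteratedDeriv n g 0 / (n.factorial : ℂ)) *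
              (iteratedDeriv n h 0 / (n.factorial : ℂ)) * z ^ n) ≠ 0) := by
  intro H
  obtain ⟨r, hr0, hr1, hr⟩ := exists_r
  obtain ⟨Ψ, hΨ⟩ : ∃ Ψ, Ψ = (∑' n : ℕ, t n * (r : ℂ) ^ n) - 1 := ⟨_, rfl⟩
  rw [← hΨ] at hr
  have hΨ0 : Ψ ≠ 0 := by
    intro h
    rw [h, norm_zero] at hr
    norm_num at hr
  have hκ : ‖-Ψ⁻¹‖ < 1 / 5 := by
    rw [norm_neg, norm_inv, one_div]
    exact inv_strictAnti₀ (by norm_num) hr
  have h0 : (0:ℂ) ∈ Metric.ball (0:ℂ) 1 := Metric.mem_ball_self zero_lt_one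
  refine H (gf (-Ψ⁻¹)) (fun z hz => (gf_deriv _ hz).differentiableAt.differentiableWithinAt)
    ?_ ?_ (fun z hz hz0 => gf_mem hκ hz hz0) (Q (1 + γ))
    (fun z hz => (Q_deriv _ hz).differentiableAt.differentiableWithinAt) ?_ ?_ Q_inj
    (r : ℂ) ?_ ?_ ?_
  · rw [gf_eq]; ring
  · rw [(gf_deriv _ h0).deriv, P_zero]; ring
  · unfold Q; ring
  · rw [(Q_deriv _ h0).deriv, P_zero]; ring
  · rw [norm_real, Real.norm_eq_abs, abs_of_pos hr0]; exact hr0
  · rw [norm_real, Real.norm_eq_abs, abs_of_pos hr0]; exact hr1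
  · rw [hadamard _ r hr0 hr1, ← hΨ, neg_mul, inv_mul_cancel₀ hΨ0]
    ring

end Pool.Agent.S02678
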