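import Pool.Statements.S02682

set_option autoImplicit false
open Pool Pool.MP_1a961d_an

namespace Pool.Agent.S02682

open scoped ENNReal

section wop

variable {I J L : Type}

/-- The square-summable sequences. -/
abbrev L2 (I : Type) : Type := lp (fun _ : I => ℂ) 2

theorem two_pos : 0 < (2 : ℝ≥0∞).toReal := by norm_num

theorem summable_sq (f : L2 I) : Summable fun i => ‖f i‖ ^ (2 : ℝ≥0∞).toReal :=
  (memℓp_gen_iff two_pos).1 (lp.memℓp f)

/-- The function with value `w i * f i` at `g i` and zero off the range of `g`. -/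
noncomputable def wfun (g : I → J) (w : I → ℂ) (f : I → ℂ) : J → ℂ :=
  Function.extend g (fun i => w i * f i) 0

theorem wfun_apply {g : I → J} (hg : Function.Injective g) (w : I → ℂ) (f : I → ℂ) (i : I) :
    wfun g w f (g i) = w i * f i := by
  rw [wfun, hg.extend_apply]

theorem wfun_apply_of_notMem {g : I → J} (w : I → ℂ) (f : I → ℂ) {j : J}
    (hj : j ∉ Set.range g) : wfun g w f j = 0 := by
  rw [wfun, Function.extend_apply']
  · rfl
  · rintro ⟨a, ha⟩
    exact hj ⟨a, ha⟩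

theorem wfun_bound {g : I → J} (hg : Function.Injective g) {w : I → ℂ} (hw : ∀ i, ‖w i‖ ≤ 1)
    (f : L2 I) :
    (Summable fun j => ‖wfun g w f j‖ ^ (2 : ℝ≥0∞).toReal) ∧
      ∑' j, ‖wfun g w f j‖ ^ (2 : ℝ≥0∞).toReal ≤ ‖f‖ ^ (2 : ℝ≥0∞).toReal := by
  have h0 : ∀ j, j ∉ Set.range g → ‖wfun g w f j‖ ^ (2 : ℝ≥0∞).toReal = 0 := by
    intro j hj
    rw [wfun_apply_of_notMem w f hj, norm_zero, Real.zero_rpow (by norm_num)]
  have hle : ∀ i, ‖wfun g w f (g i)‖ ^ (2 : ℝ≥0∞).toReal ≤ ‖f i‖ ^ (2 : ℝ≥0∞).toReal := by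
    intro i
    rw [wfun_apply hg, norm_mul]
    apply Real.rpow_le_rpow (by positivity) _ (by norm_num)
    exact mul_le_of_le_one_left (norm_nonneg _) (hw i)
  have hs : Summable fun i => ‖wfun g w f (g i)‖ ^ (2 : ℝ≥0∞).toReal :=
    Summable.of_nonneg_of_le (fun i => by positivity) hle (summable_sq f)
  refine ⟨(hg.summable_iff (fun j hj => h0 j hj)).1 hs, ?_⟩
  have h1 : ∑' j, ‖wfun g w f j‖ ^ (2 : ℝ≥0∞).toReal =
      ∑' i, ‖wfun g w f (g i)‖ ^ (2 : ℝ≥0∞).toReal := by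
    refine (hg.tsum_eq ?_).symm
    intro j hj
    by_contra hcon
    exact hj (h0 j hcon)
  rw [h1, lp.norm_rpow_eq_tsum two_pos]
  exact hs.tsum_le_tsum hle (summable_sq f)

/-- The weighted composition operator `e_i ↦ w i • e_{g i}`. -/
noncomputable def wop (g : I → J) (hg : Function.Injective g) (w : I → ℂ)
    (hw : ∀ i, ‖w i‖ ≤ 1) : L2 I →L[ℂ] L2 J :=
  LinearMap.mkContinuous
    { toFun := fun f => ⟨wfun g w f, memℓp_gen (wfun_bound hg hw f).1⟩
      map_add' := by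
        intro f1 f2
        ext j
        change wfun g w (f1 + f2 : L2 I) j = wfun g w f1 j + wfun g w f2 j
        by_cases hj : j ∈ Set.range g
        · obtain ⟨i, rfl⟩ := hj
          rw [wfun_apply hg, wfun_apply hg, wfun_apply hg]
          simp [mul_add]
        · rw [wfun_apply_of_notMem _ _ hj, wfun_apply_of_notMem _ _ hj, wfun_apply_of_notMem _ _ hj,
            add_zero]
      map_smul' := by
        intro c f
        ext j
        change wfun g w (c • f : L2 I) j = c * wfun g w f j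
        by_cases hj : j ∈ Set.range g
        · obtain ⟨i, rfl⟩ := hj
          rw [wfun_apply hg, wfun_apply hg]
          simp only [lp.coeFn_smul, Pi.smul_apply, smul_eq_mul]
          ring
        · rw [wfun_apply_of_notMem _ _ hj, wfun_apply_of_notMem _ _ hj, mul_zero] }
    1 (by
      intro f
      rw [one_mul]
      apply lp.norm_le_of_tsum_le two_pos (norm_nonneg f)
      exact (wfun_bound hg hw f).2)

theorem wop_apply {g : I → J} (hg : Function.Injective g) {w : I → ℂ} (hw : ∀ i, ‖w i‖ ≤ 1)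
    (f : L2 I) (i : I) : wop g hg w hw f (g i) = w i * f i := wfun_apply hg w f i

theorem wop_apply_of_notMem {g : I → J} (hg : Function.Injective g) {w : I → ℂ}
    (hw : ∀ i, ‖w i‖ ≤ 1) (f : L2 I) {j : J} (hj : j ∉ Set.range g) :
    wop g hg w hw f j = 0 := wfun_apply_of_notMem w f hj

theorem wop_comp {g : I → J} (hg : Function.Injective g) {w : I → ℂ} (hw : ∀ i, ‖w i‖ ≤ 1)
    {h : J → L} (hh : Function.Injective h) {v : J → ℂ} (hv : ∀ i, ‖v i‖ ≤ 1) (f : L2 I)
    {k : I → L} (hk : Function.Injective k) {u : I → ℂ} (hu : ∀ i, ‖u i‖ ≤ 1)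
    (hkk : ∀ i, k i = h (g i)) (huu : ∀ i, u i = v (g i) * w i) :
    wop h hh v hv (wop g hg w hw f) = wop k hk u hu f := by
  ext l
  by_cases hl : l ∈ Set.range h
  · obtain ⟨j, rfl⟩ := hl
    rw [wop_apply hh]
    by_cases hj : j ∈ Set.range g
    · obtain ⟨i, rfl⟩ := hj
      rw [wop_apply hg, ← hkk, wop_apply hk, huu]
      ring
    · rw [wop_apply_of_notMem hg hw f hj, mul_zero, wop_apply_of_notMem hk]
      rintro ⟨i, hi⟩
      rw [hkk] at hi
      exact hj ⟨i, hh hi⟩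
  · rw [wop_apply_of_notMem hh hv _ hl, wop_apply_of_notMem hk]
    rintro ⟨i, hi⟩
    rw [hkk] at hi
    exact hl ⟨g i, hi⟩

theorem wop_norm {g : I → J} (hg : Function.Injective g) (f : L2 I) :
    ‖wop g hg (fun _ => 1) (by simp) f‖ = ‖f‖ := by
  have h1 : ‖wop g hg (fun _ => 1) (by simp) f‖ ^ (2 : ℝ≥0∞).toReal =
      ‖f‖ ^ (2 : ℝ≥0∞).toReal := by
    rw [lp.norm_rpow_eq_tsum two_pos, lp.norm_rpow_eq_tsum two_pos]
    have h0 := hg.tsum_eq
      (f := fun j => ‖wop g hg (fun _ => 1) (by simp) f j‖ ^ (2 : ℝ≥0∞).toReal) (by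
        intro j hj
        by_contra hcon
        apply hj
        change ‖wop g hg (fun _ => 1) (by simp) f j‖ ^ (2 : ℝ≥0∞).toReal = 0
        rw [wop_apply_of_notMem hg _ f hcon, norm_zero, Real.zero_rpow (by norm_num)])
    rw [← h0]
    congr 1
    ext i
    rw [wop_apply hg, one_mul]
  have h2 : (2 : ℝ≥0∞).toReal = 2 := by norm_num
  rw [h2, Real.rpow_two, Real.rpow_two] at h1
  exact (pow_left_inj₀ (norm_nonneg _) (norm_nonneg _) two_ne_zero).1 h1

/-- The adjoint of the operator with a bijective index map and real weights. -/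
theorem wop_adjoint (e : I ≃ I) {w : I → ℂ} (hw : ∀ i, ‖w i‖ ≤ 1)
    (hreal : ∀ i, (starRingEnd ℂ) (w i) = w i) :
    ContinuousLinearMap.adjoint (wop e e.injective w hw) =
      wop e.symm e.symm.injective (fun j => w (e.symm j)) (fun j => hw _) := by
  symm
  rw [ContinuousLinearMap.eq_adjoint_iff]
  intro x y
  rw [lp.inner_eq_tsum, lp.inner_eq_tsum,
    ← e.tsum_eq (fun i => inner ℂ (x i) ((wop e e.injective w hw y) i))]
  apply tsum_congr
  intro j
  rw [wop_apply e.injective]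
  have h1 : (wop e.symm e.symm.injective (fun j => w (e.symm j)) (fun _ => hw _) x) j =
      w j * x (e j) := by
    have := wop_apply e.symm.injective (w := fun j => w (e.symm j)) (fun j => hw _) x (e j)
    rw [e.symm_apply_apply] at this
    exact this
  rw [h1]
  simp only [RCLike.inner_apply, map_mul, hreal]
  ring

theorem wop_normal (e : I ≃ I) {w : I → ℂ} (hw : ∀ i, ‖w i‖ ≤ 1)
    (hreal : ∀ i, (starRingEnd ℂ) (w i) = w i) (hinv : ∀ i, w (e i) = w i) :
    IsStarNormal (wop e e.injective w hw) := by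
  constructor
  rw [ContinuousLinearMap.star_eq_adjoint, wop_adjoint e hw hreal]
  have hinv' : ∀ i, w (e.symm i) = w i := by
    intro i
    have := hinv (e.symm i)
    rw [e.apply_symm_apply] at this
    exact this.symm
  have hw2 : ∀ i, ‖w i * w i‖ ≤ 1 := fun i => by
    rw [norm_mul]; exact mul_le_one₀ (hw i) (norm_nonneg _) (hw i)
  refine ContinuousLinearMap.ext fun f => ?_
  rw [mul_apply_eq_comp, mul_apply_eq_comp]
  rw [wop_comp e.injective hw e.symm.injective (fun j => hw _) f Function.injective_id hw2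
      (fun i => (e.symm_apply_apply i).symm) (fun i => by simp),
    wop_comp e.symm.injective (fun j => hw _) e.injective hw f Function.injective_id hw2
      (fun i => (e.apply_symm_apply i).symm) (fun i => by simp [hinv'])]

end wop

/-- Shift in the first coordinate on `ℤ × ℤ`. -/
def sh1 : ℤ × ℤ ≃ ℤ × ℤ := (Equiv.addRight (1 : ℤ)).prodCongr (Equiv.refl ℤ)

/-- Shift in the second coordinate on `ℤ × ℤ`. -/
def sh2 : ℤ × ℤ ≃ ℤ × ℤ := (Equiv.refl ℤ).prodCongr (Equiv.addRight (1 : ℤ))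

/-- The weight `2^{-|k|}`. -/
noncomputable def wt (k : ℤ) : ℂ := (((1 / 2 : ℝ) ^ k.natAbs : ℝ) : ℂ)

theorem wt_norm (k : ℤ) : ‖wt k‖ ≤ 1 := by
  rw [wt, Complex.norm_real, Real.norm_eq_abs, abs_of_nonneg (by positivity)]
  exact pow_le_one₀ (by norm_num) (by norm_num)

theorem wt_real (k : ℤ) : (starRingEnd ℂ) (wt k) = wt k := Complex.conj_ofReal _

/-- The inclusion of `ℕ × ℕ` in `ℤ × ℤ`. -/
def inc : ℕ × ℕ → ℤ × ℤ := fun p => ((p.1 : ℤ), (p.2 : ℤ))

theorem inc_inj : Function.Injective inc := by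
  rintro ⟨a, b⟩ ⟨c, d⟩ h
  simp only [inc, Prod.mk.injEq, Nat.cast_inj] at h
  rw [h.1, h.2]

/-- Shifts on `ℕ × ℕ`. -/
def s1 : ℕ × ℕ → ℕ × ℕ := fun p => (p.1 + 1, p.2)

/-- Shifts on `ℕ × ℕ`. -/
def s2 : ℕ × ℕ → ℕ × ℕ := fun p => (p.1, p.2 + 1)

theorem s1_inj : Function.Injective s1 := by
  rintro ⟨a, b⟩ ⟨c, d⟩ h
  simp only [s1, Prod.mk.injEq, add_left_inj] at h
  rw [h.1, h.2]

theorem s2_inj : Function.Injective s2 := by
  rintro ⟨a, b⟩ ⟨c, d⟩ h
  simp only [s2, Prod.mk.injEq, add_left_inj] at h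
  rw [h.1, h.2]

/-- Shifts on `ℕ × ℕ`. -/
def s12 : ℕ × ℕ → ℕ × ℕ := fun p => (p.1 + 1, p.2 + 1)

theorem s12_inj : Function.Injective s12 := by
  rintro ⟨a, b⟩ ⟨c, d⟩ h
  simp only [s12, Prod.mk.injEq, add_left_inj] at h
  rw [h.1, h.2]

/-- The operator `e_(i,j) ↦ 2^{-j} e_(i+1,j)`. -/
noncomputable def opS : L2 (ℕ × ℕ) →L[ℂ] L2 (ℕ × ℕ) :=
  wop s1 s1_inj (fun p => wt p.2) (fun _ => wt_norm _)

/-- The operator `e_(i,j) ↦ 2^{-i} e_(i,j+1)`. -/
noncomputable def opT : L2 (ℕ × ℕ) →L[ℂ] L2 (ℕ × ℕ) :=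
  wop s2 s2_inj (fun p => wt p.1) (fun _ => wt_norm _)

theorem wt_mul_norm (a b : ℤ) : ‖wt a * wt b‖ ≤ 1 := by
  rw [norm_mul]; exact mul_le_one₀ (wt_norm _) (norm_nonneg _) (wt_norm _)

theorem wt_succ (a : ℕ) : wt ((a + 1 : ℕ) : ℤ) = (1 / 2 : ℂ) * wt (a : ℤ) := by
  rw [wt, wt, Int.natAbs_natCast, Int.natAbs_natCast, pow_succ]
  push_cast
  ring

/-- The result of applying the product. -/
theorem opST_apply (f : L2 (ℕ × ℕ)) : opS (opT f) =
    wop s12 s12_inj (fun p => wt ((p.2 + 1 : ℕ) : ℤ) * wt p.1) (fun _ => wt_mul_norm _ _) f :=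
  wop_comp _ _ _ _ f _ _ (fun _ => rfl) (fun _ => rfl)

theorem opTS_apply (f : L2 (ℕ × ℕ)) : opT (opS f) =
    wop s12 s12_inj (fun p => wt ((p.2 + 1 : ℕ) : ℤ) * wt p.1) (fun _ => wt_mul_norm _ _) f := by
  refine wop_comp _ _ _ _ f _ _ (fun _ => rfl) (fun p => ?_)
  change _ = wt ((p.1 + 1 : ℕ) : ℤ) * wt p.2
  rw [wt_succ, wt_succ]
  ring

theorem commute_ST : Commute opS opT := by
  refine ContinuousLinearMap.ext fun f => ?_
  rw [mul_apply_eq_comp, mul_apply_eq_comp, opST_apply, opTS_apply]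

/-- The isometric embedding. -/
noncomputable def emb : L2 (ℕ × ℕ) →L[ℂ] L2 (ℤ × ℤ) := wop inc inc_inj (fun _ => 1) (by simp)

theorem sub_S : (∀ x, ‖emb x‖ = ‖x‖) ∧
    IsStarNormal (wop sh1 sh1.injective (fun p => wt p.2) (fun _ => wt_norm _)) ∧
    (wop sh1 sh1.injective (fun p => wt p.2) (fun _ => wt_norm _)).comp emb = emb.comp opS := by
  refine ⟨wop_norm inc_inj, wop_normal sh1 _ (fun _ => wt_real _) (fun _ => rfl), ?_⟩
  refine ContinuousLinearMap.ext fun f => ?_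
  have hk : Function.Injective (fun p : ℕ × ℕ => inc (s1 p)) := inc_inj.comp s1_inj
  have h1 : wop sh1 sh1.injective (fun p => wt p.2) (fun _ => wt_norm _) (emb f) =
      wop (fun p : ℕ × ℕ => inc (s1 p)) hk (fun p => wt p.2) (fun _ => wt_norm _) f :=
    wop_comp _ _ _ _ f _ _ (fun p => by simp [inc, s1, sh1]) (fun p => by simp [inc])
  have h2 : emb (opS f) =
      wop (fun p : ℕ × ℕ => inc (s1 p)) hk (fun p => wt p.2) (fun _ => wt_norm _) f :=
    wop_comp _ _ _ _ f _ _ (fun p => rfl) (fun p => by simp)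
  exact h1.trans h2.symm

theorem sub_T : (∀ x, ‖emb x‖ = ‖x‖) ∧
    IsStarNormal (wop sh2 sh2.injective (fun p => wt p.1) (fun _ => wt_norm _)) ∧
    (wop sh2 sh2.injective (fun p => wt p.1) (fun _ => wt_norm _)).comp emb = emb.comp opT := by
  refine ⟨wop_norm inc_inj, wop_normal sh2 _ (fun _ => wt_real _) (fun _ => rfl), ?_⟩
  refine ContinuousLinearMap.ext fun f => ?_
  have hk : Function.Injective (fun p : ℕ × ℕ => inc (s2 p)) := inc_inj.comp s2_inj
  have h1 : wop sh2 sh2.injective (fun p => wt p.1) (fun _ => wt_norm _) (emb f) =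
      wop (fun p : ℕ × ℕ => inc (s2 p)) hk (fun p => wt p.1) (fun _ => wt_norm _) f :=
    wop_comp _ _ _ _ f _ _ (fun p => by simp [inc, s2, sh2]) (fun p => by simp [inc])
  have h2 : emb (opT f) =
      wop (fun p : ℕ × ℕ => inc (s2 p)) hk (fun p => wt p.1) (fun _ => wt_norm _) f :=
    wop_comp _ _ _ _ f _ _ (fun p => rfl) (fun p => by simp)
  exact h1.trans h2.symm

theorem wop_single {I J : Type} [DecidableEq I] [DecidableEq J] {g : I → J}
    (hg : Function.Injective g) {w : I → ℂ} (hw : ∀ i, ‖w i‖ ≤ 1) (i : I) (c : ℂ) :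
    wop g hg w hw (lp.single 2 i c) = lp.single 2 (g i) (w i * c) := by
  ext j
  by_cases hj : j ∈ Set.range g
  · obtain ⟨k, rfl⟩ := hj
    rw [wop_apply hg]
    by_cases hk : k = i
    · subst hk
      rw [lp.single_apply_self, lp.single_apply_self]
    · rw [lp.single_apply_ne _ _ _ hk, lp.single_apply_ne _ _ _ (fun h => hk (hg h)), mul_zero]
  · rw [wop_apply_of_notMem hg hw _ hj, lp.single_apply_ne]
    rintro rfl
    exact hj ⟨i, rfl⟩

/-- A subnormal operator `A` satisfies `|⟪A y, x⟫| ≤ ‖y‖ ‖A x‖`. -/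
theorem subnormal_ineq {H K : Type} [NormedAddCommGroup H] [InnerProductSpace ℂ H]
    [CompleteSpace H] [NormedAddCommGroup K] [InnerProductSpace ℂ K] [CompleteSpace K]
    (A : H →L[ℂ] H) (V : H →L[ℂ] K) (N : K →L[ℂ] K) (hV : ∀ x : H, ‖V x‖ = ‖x‖)
    (hN : IsStarNormal N) (hNV : N.comp V = V.comp A) (x y : H) :
    ‖inner ℂ (A y) x‖ ≤ ‖y‖ * ‖A x‖ := by
  let W : H →ₗᵢ[ℂ] K := ⟨V.toLinearMap, hV⟩
  have hW : ∀ z, W z = V z := fun z => rfl
  have hNVa : ∀ z, N (V z) = V (A z) := fun z => congrArg (fun F => F z) hNV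
  have h1 : inner ℂ (A y) x = inner ℂ (V y) (ContinuousLinearMap.adjoint N (V x)) := by
    rw [ContinuousLinearMap.adjoint_inner_right, hNVa, ← hW, ← hW, W.inner_map_map]
  have h2 : ‖ContinuousLinearMap.adjoint N (V x)‖ = ‖N (V x)‖ :=
    ((ContinuousLinearMap.isStarNormal_iff_norm_eq_adjoint (T := N)).1 hN (V x)).symm
  rw [h1]
  calc ‖inner ℂ (V y) (ContinuousLinearMap.adjoint N (V x))‖ ≤
      ‖V y‖ * ‖ContinuousLinearMap.adjoint N (V x)‖ := norm_inner_le_norm _ _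
    _ = ‖y‖ * ‖A x‖ := by rw [h2, hNVa, hV, hV]

theorem wt_zero : wt 0 = 1 := by simp [wt]

/-- The product does not satisfy the inequality. -/
theorem not_ineq (h : ∀ x y : L2 (ℕ × ℕ), ‖inner ℂ ((opS * opT) y) x‖ ≤ ‖y‖ * ‖(opS * opT) x‖) :
    False := by
  have h1 := h (lp.single 2 ((1, 1) : ℕ × ℕ) (1 : ℂ)) (lp.single 2 ((0, 0) : ℕ × ℕ) (1 : ℂ))
  have e0 : (opS * opT) (lp.single 2 ((0, 0) : ℕ × ℕ) (1 : ℂ)) =
      lp.single 2 ((1, 1) : ℕ × ℕ) (1 / 2 : ℂ) := by
    rw [mul_apply_eq_comp, opST_apply, wop_single]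
    have hw : wt ((((0, 0) : ℕ × ℕ).2 + 1 : ℕ) : ℤ) * wt (((0, 0) : ℕ × ℕ).1 : ℤ) * 1 =
        (1 / 2 : ℂ) := by
      rw [wt_succ]
      simp [wt_zero]
    rw [hw]
    rfl
  have e1 : (opS * opT) (lp.single 2 ((1, 1) : ℕ × ℕ) (1 : ℂ)) =
      lp.single 2 ((2, 2) : ℕ × ℕ) (1 / 8 : ℂ) := by
    rw [mul_apply_eq_comp, opST_apply, wop_single]
    have h3 : wt (1 : ℤ) = (1 / 2 : ℂ) := by simp [wt]
    have hw : wt ((((1, 1) : ℕ × ℕ).2 + 1 : ℕ) : ℤ) * wt (((1, 1) : ℕ × ℕ).1 : ℤ) * 1 =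
        (1 / 8 : ℂ) := by
      rw [wt_succ]
      simp only [Nat.cast_one, h3]
      norm_num
    rw [hw]
    rfl
  rw [e0, e1, lp.norm_single (by norm_num), lp.norm_single (by norm_num),
    lp.inner_single_right, lp.single_apply_self] at h1
  norm_num at h1

/-- The negation of the preceding statement: For every complex Hilbert space H and commuting bounded operators S, T on H, if S and T each extend to a normal operator on a larger Hilbert space (via an isometric embedding), then so does the product ST. -/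
theorem result :
    ¬ (∀ (H : Type) [NormedAddCommGroup H] [InnerProductSpace ℂ H] [CompleteSpace H]
      (S T : H →L[ℂ] H),
      Commute S T →
      (∃ (K : Type) (_ : NormedAddCommGroup K) (_ : InnerProductSpace ℂ K) (_ : CompleteSpace K)
          (V : H →L[ℂ] K) (N : K →L[ℂ] K),
          (∀ x : H, ‖V x‖ = ‖x‖) ∧ IsStarNormal N ∧ N.comp V = V.comp S) →
      (∃ (K : Type) (_ : NormedAddCommGroup K) (_ : InnerProductSpace ℂ K) (_ : CompleteSpace K)
          (V : H →L[ℂ] K) (N : K →L[ℂ] K),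
          (∀ x : H, ‖V x‖ = ‖x‖) ∧ IsStarNormal N ∧ N.comp V = V.comp T) →
      (∃ (K : Type) (_ : NormedAddCommGroup K) (_ : InnerProductSpace ℂ K) (_ : CompleteSpace K)
          (V : H →L[ℂ] K) (N : K →L[ℂ] K),
          (∀ x : H, ‖V x‖ = ‖x‖) ∧ IsStarNormal N ∧ N.comp V = V.comp (S * T))) := by
  intro hall
  obtain ⟨K, i1, i2, i3, V, N, hV, hN, hNV⟩ := hall (L2 (ℕ × ℕ)) opS opT commute_ST
    ⟨L2 (ℤ × ℤ), inferInstance, inferInstance, inferInstance, emb, _, sub_S⟩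
    ⟨L2 (ℤ × ℤ), inferInstance, inferInstance, inferInstance, emb, _, sub_T⟩
  exact not_ineq (fun x y => subnormal_ineq (opS * opT) V N hV hN hNV x y)

end Pool.Agent.S02682
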