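import Pool.Statements.S02694
-- import your own Pool.Agent.* helpers here

set_option autoImplicit false
open Topology Asymptotics
open Pool Pool.MP_1bbffc_an

namespace Pool.Agent.S02694

section PartA

open Real

/-- `sin^4 + cos^4`. -/
noncomputable def q (θ : ℝ) : ℝ := sin θ ^ 4 + cos θ ^ 4

theorem q_pos (θ : ℝ) : 0 < q θ := by
  unfold q
  have h := sin_sq_add_cos_sq θ
  nlinarith [sq_nonneg (sin θ ^ 2 - cos θ ^ 2)]

theorem q_le_one (θ : ℝ) : q θ ≤ 1 := by
  unfold q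
  have h := sin_sq_add_cos_sq θ
  nlinarith [mul_nonneg (sq_nonneg (sin θ)) (sq_nonneg (cos θ))]

/-- The radius of the curve `x^4 + y^4 = 1` in polar coordinates. -/
noncomputable def ρ (θ : ℝ) : ℝ := q θ ^ (-(1 / 4) : ℝ)

theorem ρ_pos (θ : ℝ) : 0 < ρ θ := rpow_pos_of_pos (q_pos θ) _

theorem ρ_four (θ : ℝ) : ρ θ ^ 4 * q θ = 1 := by
  unfold ρ
  rw [← rpow_natCast, ← rpow_mul (q_pos θ).le]
  norm_num
  rw [rpow_neg_one]
  exact inv_mul_cancel₀ (q_pos θ).ne'

theorem hasDerivAt_q (θ : ℝ) :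
    HasDerivAt q (4 * sin θ * cos θ * (sin θ ^ 2 - cos θ ^ 2)) θ := by
  unfold q
  have h := ((hasDerivAt_sin θ).pow 4).add ((hasDerivAt_cos θ).pow 4)
  refine h.congr_deriv ?_
  push_cast
  ring

theorem hasDerivAt_ρ (θ : ℝ) :
    HasDerivAt ρ (ρ θ ^ 5 * sin θ * cos θ * (cos θ ^ 2 - sin θ ^ 2)) θ := by
  have h := (hasDerivAt_q θ).rpow_const (p := (-(1 / 4) : ℝ)) (Or.inl (q_pos θ).ne')
  refine h.congr_deriv ?_
  have e : q θ ^ ((-(1 / 4) : ℝ) - 1) = ρ θ ^ 5 := by
    unfold ρ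
    rw [← rpow_natCast, ← rpow_mul (q_pos θ).le]
    norm_num
  rw [e]
  ring

theorem one_le_ρ (θ : ℝ) : 1 ≤ ρ θ := by
  have h1 := ρ_four θ
  have h2 := q_le_one θ
  have h3 := ρ_pos θ
  have h4 := q_pos θ
  by_contra h
  push Not at h
  have : ρ θ ^ 4 < 1 := pow_lt_one₀ h3.le h (by norm_num)
  nlinarith

theorem ρ_periodic : Function.Periodic ρ (2 * π) := by
  intro θ
  unfold ρ q
  rw [sin_add_two_pi, cos_add_two_pi]

theorem continuous_ρ : Continuous ρ :=
  continuous_iff_continuousAt.2 fun θ => (hasDerivAt_ρ θ).continuousAt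

/-- The time as a function of the angle. -/
noncomputable def G (θ : ℝ) : ℝ := ∫ φ in (0 : ℝ)..θ, ρ φ ^ 2

theorem hasDerivAt_G (θ : ℝ) : HasDerivAt G (ρ θ ^ 2) θ := by
  have hc : Continuous fun φ => ρ φ ^ 2 := continuous_ρ.pow 2
  exact hc.integral_hasStrictDerivAt 0 θ |>.hasDerivAt

theorem G_zero : G 0 = 0 := by simp [G]

theorem G_mono {a b : ℝ} (h : a ≤ b) : b - a ≤ G b - G a := by
  have hc : Continuous fun φ => ρ φ ^ 2 := continuous_ρ.pow 2
  have e : G b - G a = ∫ φ in a..b, ρ φ ^ 2 := by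
    unfold G
    rw [intervalIntegral.integral_interval_sub_left (hc.intervalIntegrable _ _)
      (hc.intervalIntegrable _ _)]
  rw [e]
  have h1 : ∫ _ in a..b, (1 : ℝ) = b - a := by simp
  rw [← h1]
  apply intervalIntegral.integral_mono_on h (by simp) (hc.intervalIntegrable _ _)
  intro x _
  have := one_le_ρ x
  nlinarith

theorem G_strictMono : StrictMono G := by
  intro a b h
  have := G_mono h.le
  linarith

theorem G_continuous : Continuous G :=
  continuous_iff_continuousAt.2 fun θ => (hasDerivAt_G θ).continuousAt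

theorem G_surjective : Function.Surjective G := by
  apply G_continuous.surjective
  · apply Filter.tendsto_atTop_mono' _ _ Filter.tendsto_id
    filter_upwards [Filter.eventually_ge_atTop 0] with x hx
    have := G_mono hx
    rw [G_zero] at this
    simp only [id]
    linarith
  · apply Filter.tendsto_atBot_mono' _ _ Filter.tendsto_id
    filter_upwards [Filter.eventually_le_atBot 0] with x hx
    have := G_mono hx
    rw [G_zero] at this
    simp only [id]
    linarith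

theorem G_add_period (θ : ℝ) : G (θ + 2 * π) = G θ + G (2 * π) := by
  have hc : Continuous fun φ => ρ φ ^ 2 := continuous_ρ.pow 2
  have hp : Function.Periodic (fun φ => ρ φ ^ 2) (2 * π) := by
    intro φ
    simp only
    rw [ρ_periodic φ]
  have h1 : G (θ + 2 * π) - G θ = ∫ φ in θ..(θ + 2 * π), ρ φ ^ 2 := by
    unfold G
    rw [intervalIntegral.integral_interval_sub_left (hc.intervalIntegrable _ _)
      (hc.intervalIntegrable _ _)]
  have h2 := hp.intervalIntegral_add_eq θ 0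
  rw [zero_add] at h2
  rw [h2] at h1
  have h3 : G (2 * π) = ∫ φ in (0 : ℝ)..(2 * π), ρ φ ^ 2 := rfl
  rw [← h3] at h1
  linarith

/-- The inverse function: the angle as a function of time. -/
noncomputable def Θ (t : ℝ) : ℝ := Function.surjInv G_surjective t

theorem G_Θ (t : ℝ) : G (Θ t) = t := Function.surjInv_eq G_surjective t

theorem Θ_G (θ : ℝ) : Θ (G θ) = θ := G_strictMono.injective (G_Θ _)

theorem Θ_zero : Θ 0 = 0 := by
  have := Θ_G 0
  rwa [G_zero] at this

theorem Θ_add_period (t : ℝ) : Θ (t + G (2 * π)) = Θ t + 2 * π := by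
  apply G_strictMono.injective
  rw [G_Θ, G_add_period, G_Θ]

theorem Θ_strictMono : StrictMono Θ := by
  intro a b h
  by_contra h'
  push Not at h'
  have := G_strictMono.monotone h'
  rw [G_Θ, G_Θ] at this
  linarith

theorem Θ_continuous : Continuous Θ := by
  apply Θ_strictMono.monotone.continuous_of_surjective
  intro θ
  exact ⟨G θ, Θ_G θ⟩

theorem hasDerivAt_Θ (t : ℝ) : HasDerivAt Θ ((ρ (Θ t) ^ 2)⁻¹) t := by
  apply HasDerivAt.of_local_left_inverse (f := G)
  · exact Θ_continuous.continuousAt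
  · exact hasDerivAt_G _
  · have := ρ_pos (Θ t); positivity
  · exact Filter.Eventually.of_forall G_Θ

/-- First coordinate of the closed orbit. -/
noncomputable def X (t : ℝ) : ℝ := ρ (Θ t) * sin (Θ t)

/-- Second coordinate of the closed orbit. -/
noncomputable def Y (t : ℝ) : ℝ := ρ (Θ t) * cos (Θ t)

theorem hasDerivAt_X (t : ℝ) : HasDerivAt X (Y t ^ 3) t := by
  have h1 : HasDerivAt (fun θ => ρ θ * sin θ)
      (ρ (Θ t) ^ 5 * sin (Θ t) * cos (Θ t) * (cos (Θ t) ^ 2 - sin (Θ t) ^ 2) * sin (Θ t) +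
        ρ (Θ t) * cos (Θ t)) (Θ t) := (hasDerivAt_ρ (Θ t)).mul (hasDerivAt_sin (Θ t))
  have h2 := h1.comp t (hasDerivAt_Θ t)
  refine h2.congr_deriv ?_
  have h3 := ρ_four (Θ t)
  have h4 := sin_sq_add_cos_sq (Θ t)
  have h5 := (ρ_pos (Θ t)).ne'
  unfold Y
  unfold q at h3
  set r := ρ (Θ t)
  set s := sin (Θ t)
  set c := cos (Θ t)
  have e : r ^ 5 * s * c * (c ^ 2 - s ^ 2) * s + r * c = r ^ 5 * c ^ 3 := by
    linear_combination (-r * c) * h3 + r ^ 5 * c ^ 3 * h4
  rw [e]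
  field_simp

theorem hasDerivAt_Y (t : ℝ) : HasDerivAt Y (-(X t ^ 3)) t := by
  have h1 : HasDerivAt (fun θ => ρ θ * cos θ)
      (ρ (Θ t) ^ 5 * sin (Θ t) * cos (Θ t) * (cos (Θ t) ^ 2 - sin (Θ t) ^ 2) * cos (Θ t) +
        ρ (Θ t) * (-sin (Θ t))) (Θ t) := (hasDerivAt_ρ (Θ t)).mul (hasDerivAt_cos (Θ t))
  have h2 := h1.comp t (hasDerivAt_Θ t)
  refine h2.congr_deriv ?_
  have h3 := ρ_four (Θ t)
  have h4 := sin_sq_add_cos_sq (Θ t)
  have h5 := (ρ_pos (Θ t)).ne'
  unfold X
  unfold q at h3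
  set r := ρ (Θ t)
  set s := sin (Θ t)
  set c := cos (Θ t)
  have e : r ^ 5 * s * c * (c ^ 2 - s ^ 2) * c + r * (-s) = -(r ^ 5 * s ^ 3) := by
    linear_combination (r * s) * h3 - r ^ 5 * s ^ 3 * h4
  rw [e]
  field_simp

/-- The period of the closed orbit. -/
noncomputable def T : ℝ := G (2 * π)

theorem T_pos : 0 < T := by
  have := G_mono (a := 0) (b := 2 * π) (by positivity)
  rw [G_zero] at this
  have := pi_pos
  unfold T
  linarith

theorem X_add (t : ℝ) : X (t + T) = X t := by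
  unfold X T
  rw [Θ_add_period, ρ_periodic, sin_add_two_pi]

theorem Y_add (t : ℝ) : Y (t + T) = Y t := by
  unfold Y T
  rw [Θ_add_period, ρ_periodic, cos_add_two_pi]

theorem XY_quartic (t : ℝ) : X t ^ 4 + Y t ^ 4 = 1 := by
  have h3 := ρ_four (Θ t)
  unfold q at h3
  unfold X Y
  linear_combination h3

theorem abs_X_le (t : ℝ) : |X t| ≤ 1 := by
  have h := XY_quartic t
  have h2 : X t ^ 4 ≤ 1 := by nlinarith [pow_nonneg (sq_nonneg (Y t)) 2]
  have h3 : |X t| ^ 4 ≤ 1 := by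
    rw [← abs_pow, abs_of_nonneg (by positivity)]; exact h2
  exact (pow_le_one_iff_of_nonneg (abs_nonneg _) (by norm_num)).1 h3

theorem abs_Y_le (t : ℝ) : |Y t| ≤ 1 := by
  have h := XY_quartic t
  have h2 : Y t ^ 4 ≤ 1 := by nlinarith [pow_nonneg (sq_nonneg (X t)) 2]
  have h3 : |Y t| ^ 4 ≤ 1 := by
    rw [← abs_pow, abs_of_nonneg (by positivity)]; exact h2
  exact (pow_le_one_iff_of_nonneg (abs_nonneg _) (by norm_num)).1 h3

theorem X_zero : X 0 = 0 := by
  unfold X; rw [Θ_zero]; simp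

theorem X_quarter : X (G (π / 2)) = 1 := by
  unfold X
  rw [Θ_G]
  simp [ρ, q]

theorem range_X_infinite : (Set.range X).Infinite := by
  have hc : Continuous X := continuous_iff_continuousAt.2 fun t => (hasDerivAt_X t).continuousAt
  have h1 : Set.Icc (0 : ℝ) 1 ⊆ Set.range X := by
    intro y hy
    have := intermediate_value_univ 0 (G (π / 2)) hc
    rw [X_zero, X_quarter] at this
    exact this hy
  exact (Set.Icc_infinite (by norm_num : (0 : ℝ) < 1)).mono h1

end PartA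

/-- The germ of the counterexample, a polynomial self-map of `ℂ²`. -/
def F (v : Fin 2 → ℂ) : Fin 2 → ℂ :=
  ![v 0 + v 1 ^ 3 + v 0 ^ 4, v 1 - v 0 ^ 3 + v 1 ^ 4]

theorem F_zero (v : Fin 2 → ℂ) : F v 0 = v 0 + v 1 ^ 3 + v 0 ^ 4 := rfl

theorem F_one (v : Fin 2 → ℂ) : F v 1 = v 1 - v 0 ^ 3 + v 1 ^ 4 := rfl

open MvPolynomial in
theorem iter (N : ℕ) : ∃ P Q : MvPolynomial (Fin 2) ℂ, P.totalDegree < 4 ^ N ∧
    Q.totalDegree < 4 ^ N ∧
    ∀ v : Fin 2 → ℂ, (F^[N] v) 0 = v 0 ^ (4 ^ N) + eval v P ∧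
      (F^[N] v) 1 = v 1 ^ (4 ^ N) + eval v Q := by
  induction N with
  | zero => exact ⟨0, 0, by simp, by simp, fun v => by simp⟩
  | succ N ih =>
    obtain ⟨P, Q, hP, hQ, h⟩ := ih
    set D := 4 ^ N with hD
    have hDpos : 0 < D := by positivity
    set A : MvPolynomial (Fin 2) ℂ := MvPolynomial.X 0 ^ D + P with hA
    set B : MvPolynomial (Fin 2) ℂ := MvPolynomial.X 1 ^ D + Q with hB
    have hAd : A.totalDegree ≤ D := by
      refine (totalDegree_add _ _).trans ?_
      rw [totalDegree_X_pow]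
      exact max_le le_rfl hP.le
    have hBd : B.totalDegree ≤ D := by
      refine (totalDegree_add _ _).trans ?_
      rw [totalDegree_X_pow]
      exact max_le le_rfl hQ.le
    have hev : ∀ v : Fin 2 → ℂ, (F^[N] v) 0 = eval v A ∧ (F^[N] v) 1 = eval v B := by
      intro v
      obtain ⟨h0, h1⟩ := h v
      rw [h0, h1]
      simp [hA, hB]
    have hcube : ∀ C : MvPolynomial (Fin 2) ℂ, C.totalDegree ≤ D →
        (C ^ 3).totalDegree < 4 ^ (N + 1) := by
      intro C hC
      refine lt_of_le_of_lt (totalDegree_pow _ _) ?_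
      rw [pow_succ, ← hD]
      omega
    have hone : ∀ C : MvPolynomial (Fin 2) ℂ, C.totalDegree ≤ D →
        C.totalDegree < 4 ^ (N + 1) := by
      intro C hC
      rw [pow_succ, ← hD]
      omega
    have hfour : ∀ (C R : MvPolynomial (Fin 2) ℂ) (i : Fin 2), C.totalDegree ≤ D →
        R.totalDegree < D →
        (R * (C ^ 3 + C ^ 2 * MvPolynomial.X i ^ D + C * (MvPolynomial.X i ^ D) ^ 2 +
          (MvPolynomial.X i ^ D) ^ 3)).totalDegree < 4 ^ (N + 1) := by
      intro C R i hC hR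
      refine lt_of_le_of_lt (totalDegree_mul _ _) ?_
      have hX : (MvPolynomial.X i ^ D : MvPolynomial (Fin 2) ℂ).totalDegree = D :=
        totalDegree_X_pow _ _
      have h1 : (C ^ 3).totalDegree ≤ 3 * D := (totalDegree_pow _ _).trans (by omega)
      have h2 : (C ^ 2 * MvPolynomial.X i ^ D).totalDegree ≤ 3 * D := by
        refine (totalDegree_mul _ _).trans ?_
        have := totalDegree_pow C 2
        omega
      have h3 : (C * (MvPolynomial.X i ^ D) ^ 2).totalDegree ≤ 3 * D := by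
        refine (totalDegree_mul _ _).trans ?_
        have := totalDegree_pow (MvPolynomial.X i ^ D : MvPolynomial (Fin 2) ℂ) 2
        omega
      have h4 : (((MvPolynomial.X i : MvPolynomial (Fin 2) ℂ) ^ D) ^ 3).totalDegree ≤ 3 * D := by
        have := totalDegree_pow (MvPolynomial.X i ^ D : MvPolynomial (Fin 2) ℂ) 3
        omega
      have h5 : (C ^ 3 + C ^ 2 * MvPolynomial.X i ^ D + C * (MvPolynomial.X i ^ D) ^ 2 +
          (MvPolynomial.X i ^ D) ^ 3).totalDegree ≤ 3 * D := by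
        refine (totalDegree_add _ _).trans (max_le ?_ h4)
        refine (totalDegree_add _ _).trans (max_le ?_ h3)
        exact (totalDegree_add _ _).trans (max_le h1 h2)
      have hp : 4 ^ (N + 1) = D * 4 := by rw [hD, pow_succ]
      rw [hp]
      omega
    refine ⟨A + B ^ 3 + P * (A ^ 3 + A ^ 2 * MvPolynomial.X 0 ^ D +
        A * (MvPolynomial.X 0 ^ D) ^ 2 + (MvPolynomial.X 0 ^ D) ^ 3),
      B - A ^ 3 + Q * (B ^ 3 + B ^ 2 * MvPolynomial.X 1 ^ D +
        B * (MvPolynomial.X 1 ^ D) ^ 2 + (MvPolynomial.X 1 ^ D) ^ 3), ?_, ?_, ?_⟩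
    · refine lt_of_le_of_lt (totalDegree_add _ _) (max_lt ?_ (hfour A P 0 hAd hP))
      exact lt_of_le_of_lt (totalDegree_add _ _) (max_lt (hone A hAd) (hcube B hBd))
    · refine lt_of_le_of_lt (totalDegree_add _ _) (max_lt ?_ (hfour B Q 1 hBd hQ))
      exact lt_of_le_of_lt (totalDegree_sub _ _) (max_lt (hone B hBd) (hcube A hAd))
    · intro v
      obtain ⟨h0, h1⟩ := hev v
      rw [Function.iterate_succ_apply', F_zero, F_one, h0, h1]
      have e : (4 : ℕ) ^ (N + 1) = D * 4 := by rw [hD, pow_succ]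
      rw [e, pow_mul, pow_mul]
      constructor
      · simp only [hA, hB, map_add, map_mul, map_pow, eval_X]
        ring
      · simp only [hA, hB, map_add, map_sub, map_mul, map_pow, eval_X]
        ring

/-- A system `z^D = P(z,w)`, `w^D = Q(z,w)` with `deg P, deg Q < D` has finitely many solutions. -/
theorem finite_zeros (D : ℕ) (P Q : MvPolynomial (Fin 2) ℂ) (hP : P.totalDegree < D)
    (hQ : Q.totalDegree < D) :
    {v : Fin 2 → ℂ | v 0 ^ D = MvPolynomial.eval v P ∧ v 1 ^ D = MvPolynomial.eval v Q}.Finite := by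
  set S : Set (Fin 2 → ℂ) :=
    {v : Fin 2 → ℂ | v 0 ^ D = MvPolynomial.eval v P ∧ v 1 ^ D = MvPolynomial.eval v Q} with hS
  let e : ℕ → ℕ → (S → ℂ) := fun a b v => v.1 0 ^ a * v.1 1 ^ b
  let W : Submodule ℂ (S → ℂ) := Submodule.span ℂ (Set.range fun ab : Fin D × Fin D => e ab.1 ab.2)
  have hsum : ∀ (R : MvPolynomial (Fin 2) ℂ) (v : S), MvPolynomial.eval v.1 R =
      ∑ m ∈ R.support, R.coeff m * (v.1 0 ^ m 0 * v.1 1 ^ m 1) := by
    intro R v
    rw [MvPolynomial.eval_eq']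
    refine Finset.sum_congr rfl fun m _ => ?_
    rw [Fin.prod_univ_two]
  have hdeg : ∀ (R : MvPolynomial (Fin 2) ℂ), R.totalDegree < D → ∀ m ∈ R.support,
      m 0 + m 1 < D := by
    intro R hR m hm
    have h := MvPolynomial.le_totalDegree hm
    rw [Finsupp.sum_fintype _ _ (by simp), Fin.sum_univ_two] at h
    omega
  have key : ∀ n a b : ℕ, a + b = n → e a b ∈ W := by
    intro n
    induction n using Nat.strong_induction_on with
    | _ n ih =>
      intro a b hab
      by_cases ha : a < D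
      · by_cases hb : b < D
        · exact Submodule.subset_span ⟨(⟨a, ha⟩, ⟨b, hb⟩), rfl⟩
        · push Not at hb
          have h1 : e a b = ∑ m ∈ Q.support, Q.coeff m • e (a + m 0) (b - D + m 1) := by
            funext v
            rw [Finset.sum_apply]
            have h2 : v.1 1 ^ D = _ := v.2.2
            rw [hsum] at h2
            have h3 : e a b v = v.1 0 ^ a * v.1 1 ^ (b - D) * v.1 1 ^ D := by
              simp only [e]
              rw [mul_assoc, ← pow_add, Nat.sub_add_cancel hb]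
            rw [h3, h2, Finset.mul_sum]
            refine Finset.sum_congr rfl fun m _ => ?_
            simp only [e, Pi.smul_apply, smul_eq_mul]
            ring
          rw [h1]
          refine Submodule.sum_mem _ fun m hm => Submodule.smul_mem _ _ ?_
          have := hdeg Q hQ m hm
          exact ih (a + m 0 + (b - D + m 1)) (by omega) _ _ rfl
      · push Not at ha
        have h1 : e a b = ∑ m ∈ P.support, P.coeff m • e (a - D + m 0) (b + m 1) := by
          funext v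
          rw [Finset.sum_apply]
          have h2 : v.1 0 ^ D = _ := v.2.1
          rw [hsum] at h2
          have h3 : e a b v = v.1 0 ^ (a - D) * v.1 1 ^ b * v.1 0 ^ D := by
            simp only [e]
            rw [mul_right_comm, ← pow_add, Nat.sub_add_cancel ha]
          rw [h3, h2, Finset.mul_sum]
          refine Finset.sum_congr rfl fun m _ => ?_
          simp only [e, Pi.smul_apply, smul_eq_mul]
          ring
        rw [h1]
        refine Submodule.sum_mem _ fun m hm => Submodule.smul_mem _ _ ?_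
        have := hdeg P hP m hm
        exact ih (a - D + m 0 + (b + m 1)) (by omega) _ _ rfl
  have hWfin : FiniteDimensional ℂ W := FiniteDimensional.span_of_finite ℂ (Set.finite_range _)
  have hcoord : ∀ i : Fin 2, ∃ p : Polynomial ℂ, p ≠ 0 ∧ ∀ v : S, p.eval (v.1 i) = 0 := by
    intro i
    let φ : Polynomial ℂ →ₗ[ℂ] (S → ℂ) :=
      { toFun := fun p v => p.eval (v.1 i)
        map_add' := by intro p q; funext v; simp
        map_smul' := by intro c p; funext v; simp }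
    have hφ : ∀ p, φ p ∈ W := by
      intro p
      have h1 : φ p = ∑ j ∈ p.support, p.coeff j • (fun v : S => v.1 i ^ j) := by
        funext v
        rw [Finset.sum_apply]
        change p.eval (v.1 i) = _
        rw [Polynomial.eval_eq_sum, Polynomial.sum_def]
        rfl
      rw [h1]
      refine Submodule.sum_mem _ fun j _ => Submodule.smul_mem _ _ ?_
      fin_cases i
      · have : (fun v : S => v.1 0 ^ j) = e j 0 := by funext v; simp [e]
        change (fun v : S => v.1 0 ^ j) ∈ W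
        rw [this]; exact key _ _ _ rfl
      · have : (fun v : S => v.1 1 ^ j) = e 0 j := by funext v; simp [e]
        change (fun v : S => v.1 1 ^ j) ∈ W
        rw [this]; exact key _ _ _ rfl
    let ψ : Polynomial ℂ →ₗ[ℂ] W := φ.codRestrict W hφ
    have hinj : ¬ Function.Injective ψ := by
      intro h
      exact Polynomial.not_finite (Module.Finite.of_injective ψ h)
    rw [← LinearMap.ker_eq_bot, Submodule.eq_bot_iff] at hinj
    push Not at hinj
    obtain ⟨p, hp, hp0⟩ := hinj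
    refine ⟨p, hp0, fun v => ?_⟩
    have h1 : ψ p = 0 := hp
    have h2 : φ p = 0 := congrArg Subtype.val h1
    exact congrFun h2 v
  choose p hp0 hp using hcoord
  have hsub : S ⊆ Set.pi Set.univ fun i => {z : ℂ | z ∈ (p i).roots} := by
    intro v hv i _
    change v i ∈ (p i).roots
    rw [Polynomial.mem_roots (hp0 i)]
    exact hp i ⟨v, hv⟩
  refine Set.Finite.subset (Set.Finite.pi fun i => ?_) hsub
  exact Multiset.finite_toSet (p i).roots

open MvPolynomial in
theorem finite_periodic (N : ℕ) (hN : 1 ≤ N) : {v : Fin 2 → ℂ | F^[N] v = v}.Finite := by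
  obtain ⟨P, Q, hP, hQ, h⟩ := iter N
  have hD : 1 < 4 ^ N := Nat.one_lt_pow (by omega) (by norm_num)
  have hX : ∀ i : Fin 2, (MvPolynomial.X i : MvPolynomial (Fin 2) ℂ).totalDegree < 4 ^ N := by
    intro i; rw [totalDegree_X]; exact hD
  refine (finite_zeros (4 ^ N) (MvPolynomial.X 0 - P) (MvPolynomial.X 1 - Q)
    (lt_of_le_of_lt (totalDegree_sub _ _) (max_lt (hX 0) hP))
    (lt_of_le_of_lt (totalDegree_sub _ _) (max_lt (hX 1) hQ))).subset ?_
  intro v hv
  have hv' : F^[N] v = v := hv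
  obtain ⟨h0, h1⟩ := h v
  rw [hv'] at h0 h1
  constructor
  · rw [map_sub, eval_X]; linear_combination -h0
  · rw [map_sub, eval_X]; linear_combination -h1


/-- The homogeneous cubic vector field `(w^3, -z^3)`. -/
noncomputable def Qf : Fin 2 → MvPolynomial (Fin 2) ℂ :=
  ![MvPolynomial.X 1 ^ 3, -(MvPolynomial.X 0 ^ 3)]

theorem eval_Qf (v : Fin 2 → ℂ) :
    (fun i => MvPolynomial.eval v (Qf i)) = ![v 1 ^ 3, -(v 0 ^ 3)] := by
  funext i
  fin_cases i <;> simp [Qf]

theorem cube_sub (x y : ℂ) (R : ℝ) (hx : ‖x‖ ≤ R) (hy : ‖y‖ ≤ R) :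
    ‖x ^ 3 - y ^ 3‖ ≤ 3 * R ^ 2 * ‖x - y‖ := by
  have e : x ^ 3 - y ^ 3 = (x ^ 2 + x * y + y ^ 2) * (x - y) := by ring
  rw [e, norm_mul]
  refine mul_le_mul_of_nonneg_right ?_ (norm_nonneg _)
  have hx0 := norm_nonneg x
  have hy0 := norm_nonneg y
  calc ‖x ^ 2 + x * y + y ^ 2‖ ≤ ‖x ^ 2‖ + ‖x * y‖ + ‖y ^ 2‖ :=
        (norm_add_le _ _).trans (add_le_add_left (norm_add_le _ _) _)
    _ = ‖x‖ ^ 2 + ‖x‖ * ‖y‖ + ‖y‖ ^ 2 := by rw [norm_pow, norm_mul, norm_pow]
    _ ≤ 3 * R ^ 2 := by nlinarith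

theorem lipschitz_Qf (R : ℝ) :
    LipschitzOnWith (Real.toNNReal (3 * R ^ 2))
      (fun v : Fin 2 → ℂ => fun i => MvPolynomial.eval v (Qf i))
      (Metric.closedBall 0 R) := by
  apply LipschitzOnWith.of_dist_le_mul
  intro v hv w hw
  rw [Real.coe_toNNReal _ (by positivity)]
  simp only [eval_Qf]
  rw [mem_closedBall_zero_iff] at hv hw
  have hv' : ∀ i, ‖v i‖ ≤ R := fun i => (norm_le_pi_norm v i).trans hv
  have hw' : ∀ i, ‖w i‖ ≤ R := fun i => (norm_le_pi_norm w i).trans hw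
  have hd : ∀ i, ‖v i - w i‖ ≤ dist v w := by
    intro i
    rw [dist_eq_norm]
    exact norm_le_pi_norm (v - w) i
  rw [dist_pi_le_iff (by positivity)]
  intro i
  fin_cases i
  · change dist (v 1 ^ 3) (w 1 ^ 3) ≤ _
    rw [dist_eq_norm]
    exact (cube_sub _ _ R (hv' 1) (hw' 1)).trans
      (mul_le_mul_of_nonneg_left (hd 1) (by positivity))
  · change dist (-(v 0 ^ 3)) (-(w 0 ^ 3)) ≤ _
    rw [dist_neg_neg, dist_eq_norm]
    exact (cube_sub _ _ R (hv' 0) (hw' 0)).trans
      (mul_le_mul_of_nonneg_left (hd 0) (by positivity))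

/-- The rescaled closed orbit in `ℂ²`. -/
noncomputable def Z (a t : ℝ) : Fin 2 → ℂ :=
  ![((a * X (a ^ 2 * t) : ℝ) : ℂ), ((a * Y (a ^ 2 * t) : ℝ) : ℂ)]

theorem norm_Z_le (a t : ℝ) (ha : 0 ≤ a) : ‖Z a t‖ ≤ a := by
  rw [pi_norm_le_iff_of_nonneg ha]
  intro i
  fin_cases i
  · change ‖((a * X (a ^ 2 * t) : ℝ) : ℂ)‖ ≤ a
    rw [Complex.norm_real, Real.norm_eq_abs, abs_mul, abs_of_nonneg ha]
    exact mul_le_of_le_one_right ha (abs_X_le _)
  · change ‖((a * Y (a ^ 2 * t) : ℝ) : ℂ)‖ ≤ a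
    rw [Complex.norm_real, Real.norm_eq_abs, abs_mul, abs_of_nonneg ha]
    exact mul_le_of_le_one_right ha (abs_Y_le _)

theorem hasDerivAt_Z (a t : ℝ) :
    HasDerivAt (Z a) (fun i => MvPolynomial.eval (Z a t) (Qf i)) t := by
  rw [eval_Qf]
  apply hasDerivAt_pi.2
  have hlin : HasDerivAt (fun s : ℝ => a ^ 2 * s) (a ^ 2) t := by
    simpa using (hasDerivAt_id t).const_mul (a ^ 2)
  intro i
  fin_cases i
  · have h1 := (((hasDerivAt_X (a ^ 2 * t)).comp t hlin).const_mul a).ofReal_comp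
    refine h1.congr_deriv ?_
    simp [Z]
    ring
  · have h1 := (((hasDerivAt_Y (a ^ 2 * t)).comp t hlin).const_mul a).ofReal_comp
    refine h1.congr_deriv ?_
    simp [Z]
    ring

theorem continuous_Z (a : ℝ) : Continuous (Z a) :=
  continuous_iff_continuousAt.2 fun t => (hasDerivAt_Z a t).continuousAt

theorem Z_add (a t : ℝ) (N : ℕ) (h : a ^ 2 * N = T) : Z a (t + N) = Z a t := by
  unfold Z
  rw [mul_add, h, X_add, Y_add]

theorem range_Z_infinite (a : ℝ) (ha : 0 < a) : (Set.range (Z a)).Infinite := by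
  intro hfin
  have h1 : Set.range X ⊆ (fun v : Fin 2 → ℂ => (v 0).re / a) '' Set.range (Z a) := by
    rintro x ⟨t, rfl⟩
    refine ⟨Z a (t / a ^ 2), ⟨_, rfl⟩, ?_⟩
    have : a ^ 2 * (t / a ^ 2) = t := by field_simp
    simp only [Z, this]
    change (((a * X t : ℝ) : ℂ)).re / a = X t
    rw [Complex.ofReal_re]
    field_simp
  exact range_X_infinite ((hfin.image _).subset h1)

/-- Uniqueness of the trajectory through a point of the closed orbit. -/
theorem unique_orbit (a t : ℝ) (γ : ℝ → (Fin 2 → ℂ)) (h0 : γ 0 = Z a t)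
    (hγ : ∀ s ∈ Set.Icc (0 : ℝ) 1,
      HasDerivWithinAt γ (fun i => MvPolynomial.eval (γ s) (Qf i)) (Set.Icc 0 1) s) :
    γ 1 = Z a (t + 1) := by
  have hcγ : ContinuousOn γ (Set.Icc 0 1) := fun s hs => (hγ s hs).continuousWithinAt
  have hcZ : ContinuousOn (fun s => Z a (t + s)) (Set.Icc 0 1) :=
    ((continuous_Z a).comp (continuous_const.add continuous_id)).continuousOn
  obtain ⟨R1, hR1⟩ := ((isCompact_Icc.image_of_continuousOn hcγ).isBounded).subset_closedBall 0
  obtain ⟨R2, hR2⟩ := ((isCompact_Icc.image_of_continuousOn hcZ).isBounded).subset_closedBall 0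
  set R := max (max R1 R2) 0
  have hb1 : ∀ s ∈ Set.Ico (0 : ℝ) 1, γ s ∈ Metric.closedBall (0 : Fin 2 → ℂ) R := by
    intro s hs
    have := hR1 ⟨s, Set.Ico_subset_Icc_self hs, rfl⟩
    exact Metric.closedBall_subset_closedBall ((le_max_left _ _).trans (le_max_left _ _)) this
  have hb2 : ∀ s ∈ Set.Ico (0 : ℝ) 1, Z a (t + s) ∈ Metric.closedBall (0 : Fin 2 → ℂ) R := by
    intro s hs
    have := hR2 ⟨s, Set.Ico_subset_Icc_self hs, rfl⟩
    exact Metric.closedBall_subset_closedBall ((le_max_right _ _).trans (le_max_left _ _)) this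
  have h := ODE_solution_unique_of_mem_Icc_right (a := 0) (b := 1)
    (v := fun _ => fun v : Fin 2 → ℂ => fun i => MvPolynomial.eval v (Qf i))
    (s := fun _ => Metric.closedBall (0 : Fin 2 → ℂ) R)
    (f := γ) (g := fun s => Z a (t + s)) (fun _ _ => lipschitz_Qf R) hcγ
    (fun s hs => (hγ s (Set.Ico_subset_Icc_self hs)).mono_of_mem_nhdsWithin
      (Icc_mem_nhdsGE_of_mem hs)) hb1 hcZ
    (fun s _ => by
      have h1 := hasDerivAt_Z a (t + s)
      have h2 : HasDerivAt (fun s => t + s) 1 s := by simpa using (hasDerivAt_id s).const_add t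
      have h3 := HasDerivAt.scomp s h1 h2
      rw [one_smul] at h3
      exact h3.hasDerivWithinAt) hb2 (by simpa using h0)
  exact h (Set.right_mem_Icc.2 zero_le_one)

theorem analyticAt_F : AnalyticAt ℂ F 0 := by
  have h0 : AnalyticAt ℂ (fun v : Fin 2 → ℂ => v 0) 0 :=
    (ContinuousLinearMap.proj (R := ℂ) (φ := fun _ : Fin 2 => ℂ) 0).analyticAt 0
  have h1 : AnalyticAt ℂ (fun v : Fin 2 → ℂ => v 1) 0 :=
    (ContinuousLinearMap.proj (R := ℂ) (φ := fun _ : Fin 2 => ℂ) 1).analyticAt 0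
  apply AnalyticAt.pi
  intro i
  fin_cases i
  · exact (h0.add (h1.pow 3)).add (h0.pow 4)
  · exact (h1.sub (h0.pow 3)).add (h1.pow 4)

theorem F_origin : F 0 = 0 := by
  funext i
  fin_cases i <;> simp [F]

theorem homogeneous_Qf (i : Fin 2) : (Qf i).IsHomogeneous 3 := by
  have hX : ∀ k : Fin 2, (MvPolynomial.X k ^ 3 : MvPolynomial (Fin 2) ℂ).IsHomogeneous 3 := by
    intro k
    have := (MvPolynomial.isHomogeneous_X ℂ k).pow 3
    simpa using this
  fin_cases i
  · exact hX 1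
  · exact (hX 0).neg

theorem isBigO_F :
    (fun z : Fin 2 → ℂ => F z - z - (fun i => MvPolynomial.eval z (Qf i)))
      =O[𝓝 0] (fun z : Fin 2 → ℂ => ‖z‖ ^ (3 + 1)) := by
  apply Asymptotics.IsBigO.of_bound 1
  refine Filter.Eventually.of_forall fun z => ?_
  rw [one_mul, norm_pow, norm_norm, pi_norm_le_iff_of_nonneg (by positivity), eval_Qf]
  intro i
  fin_cases i
  · change ‖z 0 + z 1 ^ 3 + z 0 ^ 4 - z 0 - z 1 ^ 3‖ ≤ _
    have e : z 0 + z 1 ^ 3 + z 0 ^ 4 - z 0 - z 1 ^ 3 = z 0 ^ 4 := by ring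
    rw [e, norm_pow]
    exact pow_le_pow_left₀ (norm_nonneg _) (norm_le_pi_norm z 0) 4
  · change ‖z 1 - z 0 ^ 3 + z 1 ^ 4 - z 1 - -(z 0 ^ 3)‖ ≤ _
    have e : z 1 - z 0 ^ 3 + z 1 ^ 4 - z 1 - -(z 0 ^ 3) = z 1 ^ 4 := by ring
    rw [e, norm_pow]
    exact pow_le_pow_left₀ (norm_nonneg _) (norm_le_pi_norm z 1) 4

theorem nondeg_Qf (v : Fin 2 → ℂ) (c : ℂ) (hv : v ≠ 0)
    (h : (fun i => MvPolynomial.eval v (Qf i)) = c • v) : c ≠ 0 := by
  rintro rfl
  rw [eval_Qf, zero_smul] at h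
  apply hv
  have h0 := congrFun h 0
  have h1 := congrFun h 1
  simp at h0 h1
  funext i
  fin_cases i
  · exact h1
  · exact h0

/-- The negation of the preceding statement: If a holomorphic germ f(z)=z+P(z)+O(∣z∣^(ν+1)) in ℂⁿ, with P homogeneous of degree ν≥2 and P(v)=cv, v≠0 forcing c≠0, then a local homeomorphism h fixing 0 conjugates f to the time-1 flow map of ż=P(z). -/
theorem result :
    ¬ (∀ (n ν : ℕ) (f : (Fin n → ℂ) → (Fin n → ℂ)) (Q : Fin n → MvPolynomial (Fin n) ℂ),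
      2 ≤ ν →
      AnalyticAt ℂ f 0 →
      f 0 = 0 →
      (∀ i, (Q i).IsHomogeneous ν) →
      (fun z : Fin n → ℂ => f z - z - (fun i => MvPolynomial.eval z (Q i)))
        =O[𝓝 0] (fun z : Fin n → ℂ => ‖z‖ ^ (ν + 1)) →
      (∀ (v : Fin n → ℂ) (c : ℂ), v ≠ 0 →
        (fun i => MvPolynomial.eval v (Q i)) = c • v → c ≠ 0) →
      ∃ (U V : Set (Fin n → ℂ)) (h k : (Fin n → ℂ) → (Fin n → ℂ)),
        IsOpen U ∧ IsOpen V ∧ (0 : Fin n → ℂ) ∈ U ∧ h 0 = 0 ∧
        ContinuousOn h U ∧ ContinuousOn k V ∧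
        Set.MapsTo h U V ∧ Set.MapsTo k V U ∧
        Set.LeftInvOn k h U ∧ Set.RightInvOn k h V ∧
        ∀ᶠ z in 𝓝 (0 : Fin n → ℂ),
          ∃ γ : ℝ → (Fin n → ℂ), γ 0 = h z ∧ γ 1 = h (f z) ∧
            ∀ t ∈ Set.Icc (0 : ℝ) 1,
              HasDerivWithinAt γ (fun i => MvPolynomial.eval (γ t) (Q i)) (Set.Icc 0 1) t) := by
  intro H
  obtain ⟨U, V, h, k, hUo, hVo, h0U, h00, hhc, hkc, hhm, hkm, hl, hr, hev⟩ :=
    H 2 3 F Qf (by norm_num) analyticAt_F F_origin homogeneous_Qf isBigO_F nondeg_Qf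
  have h0V : (0 : Fin 2 → ℂ) ∈ V := by
    have := hhm h0U
    rwa [h00] at this
  have hk0 : k 0 = 0 := by
    have := hl h0U
    rwa [h00] at this
  have hkcont : ContinuousAt k 0 := hkc.continuousAt (hVo.mem_nhds h0V)
  have hkt : Filter.Tendsto k (𝓝 0) (𝓝 0) := by
    have := hkcont.tendsto
    rwa [hk0] at this
  have hFt : Filter.Tendsto F (𝓝 0) (𝓝 0) := by
    have := analyticAt_F.continuousAt.tendsto
    rwa [F_origin] at this
  have hFU : ∀ᶠ x in 𝓝 (0 : Fin 2 → ℂ), F x ∈ U := hFt.eventually (hUo.mem_nhds h0U)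
  have hall : ∀ᶠ y in 𝓝 (0 : Fin 2 → ℂ), y ∈ V ∧ F (k y) ∈ U ∧
      ∃ γ : ℝ → (Fin 2 → ℂ), γ 0 = h (k y) ∧ γ 1 = h (F (k y)) ∧
        ∀ t ∈ Set.Icc (0 : ℝ) 1,
          HasDerivWithinAt γ (fun i => MvPolynomial.eval (γ t) (Qf i)) (Set.Icc 0 1) t :=
    (hVo.eventually_mem h0V).and ((hkt.eventually hFU).and (hkt.eventually hev))
  obtain ⟨δ, hδ, hball⟩ := Metric.eventually_nhds_iff_ball.1 hall
  obtain ⟨N, hN⟩ := exists_nat_gt (max 1 (T / δ ^ 2))
  have hN1 : (1 : ℝ) < N := (le_max_left _ _).trans_lt hN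
  have hN2 : T / δ ^ 2 < N := (le_max_right _ _).trans_lt hN
  have hNpos : (0 : ℝ) < N := by linarith
  set a : ℝ := Real.sqrt (T / N) with ha
  have hTN : 0 < T / N := div_pos T_pos hNpos
  have hapos : 0 < a := Real.sqrt_pos.2 hTN
  have ha2 : a ^ 2 * N = T := by
    rw [ha, Real.sq_sqrt hTN.le]
    field_simp
  have haδ : a < δ := by
    rw [ha, Real.sqrt_lt' hδ]
    rw [div_lt_iff₀ (by positivity)] at hN2
    rw [div_lt_iff₀ hNpos]
    linarith
  have hZb : ∀ t, Z a t ∈ Metric.ball (0 : Fin 2 → ℂ) δ := by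
    intro t
    rw [mem_ball_zero_iff]
    exact (norm_Z_le a t hapos.le).trans_lt haδ
  have hstep : ∀ t, F (k (Z a t)) = k (Z a (t + 1)) := by
    intro t
    obtain ⟨hV, hU, γ, hγ0, hγ1, hγ⟩ := hball (Z a t) (hZb t)
    rw [hr hV] at hγ0
    have h1 := unique_orbit a t γ hγ0 hγ
    rw [hγ1] at h1
    rw [← h1, hl hU]
  have hiter : ∀ (m : ℕ) (t : ℝ), F^[m] (k (Z a t)) = k (Z a (t + m)) := by
    intro m
    induction m with
    | zero => intro t; simp
    | succ m ih =>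
      intro t
      rw [Function.iterate_succ_apply', ih, hstep]
      push_cast
      rw [add_assoc]
  have hNnat : 1 ≤ N := by
    have : (1 : ℝ) ≤ (N : ℝ) := hN1.le
    exact_mod_cast this
  have hfin := finite_periodic N hNnat
  have hsub : Set.range (Z a) ⊆ h '' {v : Fin 2 → ℂ | F^[N] v = v} := by
    rintro y ⟨t, rfl⟩
    refine ⟨k (Z a t), ?_, hr (hball (Z a t) (hZb t)).1⟩
    change F^[N] (k (Z a t)) = k (Z a t)
    rw [hiter, Z_add a t N ha2]
  exact range_Z_infinite a hapos ((hfin.image h).subset hsub)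

end Pool.Agent.S02694
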