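import Pool.Statements.S02698
import Pool.Agent.Helper842.Table

set_option autoImplicit false
open Pool Pool.MP_1cbc6c_an

namespace Pool.Agent.S02698

/-- The negation of the preceding statement: If a planar homeomorphism is quasiconformal (bounded linear dilatation everywhere) and at almost every point its derivative keeps or swaps the x- and y-directions, then f(x,y) = (g(x),h(y)) or f(x,y) = (g(y),h(x)). -/
theorem result :
    ¬ (∀ f : ℂ ≃ₜ ℂ,
      (∃ H : ℝ, ∀ z : ℂ, ∀ᶠ r in nhdsWithin (0:ℝ) (Set.Ioi 0),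
          ∀ w ∈ Metric.sphere z r, ∀ w' ∈ Metric.sphere z r,
            ‖f w - f z‖ ≤ H * ‖f w' - f z‖) →
      (∀ᵐ z ∂(MeasureTheory.volume : MeasureTheory.Measure ℂ),
          DifferentiableAt ℝ (⇑f) z ∧
          (((fderiv ℝ (⇑f) z 1).im = 0 ∧ (fderiv ℝ (⇑f) z Complex.I).re = 0) ∨
           ((fderiv ℝ (⇑f) z 1).re = 0 ∧ (fderiv ℝ (⇑f) z Complex.I).im = 0))) →
      ∃ g h : ℝ → ℝ,
        (∀ z : ℂ, f z = ⟨g z.re, h z.im⟩) ∨ (∀ z : ℂ, f z = ⟨g z.im, h z.re⟩)) := by
  intro H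
  obtain ⟨L, f, hL, hL', hgood, D, hD⟩ :=
    Pool.Agent.Helper842.exists_map (MeasureTheory.volume : MeasureTheory.Measure ℂ)
      Pool.Agent.Helper842.KK Pool.Agent.Helper842.PP Pool.Agent.Helper842.gg
      Pool.Agent.Helper842.vv Pool.Agent.Helper842.cc Pool.Agent.Helper842.hch
      Pool.Agent.Helper842.hK Pool.Agent.Helper842.hpos Pool.Agent.Helper842.hR
      Pool.Agent.Helper842.hg0 Pool.Agent.Helper842.hinj Pool.Agent.Helper842.hgood
      Pool.Agent.Helper842.Ty.t0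
  have hq : ∃ H : ℝ, ∀ z : ℂ, ∀ᶠ r in nhdsWithin (0:ℝ) (Set.Ioi 0),
      ∀ w ∈ Metric.sphere z r, ∀ w' ∈ Metric.sphere z r,
        ‖f w - f z‖ ≤ H * ‖f w' - f z‖ := by
    refine ⟨L * L, fun z => Filter.Eventually.of_forall fun r w hw w' hw' => ?_⟩
    rw [Metric.mem_sphere] at hw hw'
    have h1 : dist (f w) (f z) ≤ L * dist w z := hL.dist_le_mul w z
    have h2 : dist w' z ≤ L * dist (f w') (f z) := by
      have := hL'.dist_le_mul (f w') (f z)
      rwa [Homeomorph.symm_apply_apply, Homeomorph.symm_apply_apply] at this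
    rw [← dist_eq_norm, ← dist_eq_norm]
    calc dist (f w) (f z) ≤ L * dist w z := h1
      _ = L * dist w' z := by rw [hw, hw']
      _ ≤ L * (L * dist (f w') (f z)) := by gcongr
      _ = L * L * dist (f w') (f z) := by ring
  have ha : ∀ᵐ z ∂(MeasureTheory.volume : MeasureTheory.Measure ℂ),
      DifferentiableAt ℝ (⇑f) z ∧
      (((fderiv ℝ (⇑f) z 1).im = 0 ∧ (fderiv ℝ (⇑f) z Complex.I).re = 0) ∨
       ((fderiv ℝ (⇑f) z 1).re = 0 ∧ (fderiv ℝ (⇑f) z Complex.I).im = 0)) := by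
    filter_upwards [hgood] with z hz
    obtain ⟨A, hA, hf⟩ := hz
    refine ⟨hf.differentiableAt, ?_⟩
    rw [hf.fderiv]
    exact hA
  obtain ⟨g, h, hgh⟩ := H f hq ha
  have hre : ∀ z, |(f z).re - (4/5 * z.re + (-32/25) * z.im)| ≤ D := by
    intro z
    have h1 := hD z
    rw [dist_eq_norm] at h1
    have h2 := (Complex.abs_re_le_norm (f z - Pool.Agent.Helper842.PP
      Pool.Agent.Helper842.Ty.t0 z)).trans h1
    rw [Complex.sub_re, Pool.Agent.Helper842.PP_apply] at h2
    exact h2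
  rcases hgh with hgh | hgh
  · have key : ∀ t : ℝ, |g 0 - (-32/25) * t| ≤ D := by
      intro t
      have := hre ⟨0, t⟩
      rw [hgh] at this
      simpa using this
    have h0 := key 0
    have h1 := key (25 / 32 * (2 * D + 1))
    rw [abs_le] at h0 h1
    linarith [h0.1, h0.2, h1.1, h1.2]
  · have key : ∀ t : ℝ, |g 0 - 4/5 * t| ≤ D := by
      intro t
      have := hre ⟨t, 0⟩
      rw [hgh] at this
      simpa using this
    have h0 := key 0
    have h1 := key (5 / 4 * (2 * D + 1))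
    rw [abs_le] at h0 h1
    linarith [h0.1, h0.2, h1.1, h1.2]

end Pool.Agent.S02698
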