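import Pool.Statements.S02701
import Pool.Agent.Helper912.SA.All

set_option autoImplicit false
open Pool Pool.MP_1dc0ca_an

namespace Pool.Agent.S02701

open Pool.Agent.Helper912.SA in
/-- From the approximation from above to the form in the statement. -/
theorem of_appr (X : Type) [NormedAddCommGroup X] [NormedSpace ℝ X] (h : Appr X)
    (p : Seminorm ℝ X) (hp : ∃ c > (0 : ℝ), ∃ C : ℝ, ∀ x : X, c * ‖x‖ ≤ p x ∧ p x ≤ C * ‖x‖)
    (ε : ℝ) (hε : 0 < ε) : ∃ q : Seminorm ℝ X,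
        (∃ c > (0 : ℝ), ∃ C : ℝ, ∀ x : X, c * ‖x‖ ≤ q x ∧ q x ≤ C * ‖x‖) ∧
        ContDiffOn ℝ ((⊤ : ℕ∞) : WithTop ℕ∞) (fun x => q x) {x : X | x ≠ 0} ∧
        ∀ x : X, ‖x‖ ≤ 1 → |p x - q x| ≤ ε := by
  obtain ⟨c, hc, C, hC⟩ := hp
  have hA : (0 : ℝ) < |C| + 1 := by positivity
  obtain ⟨q, hqS, hq⟩ := h p ⟨c, hc, C, hC⟩ (ε / (|C| + 1)) (by positivity)
  refine ⟨q, ⟨c, hc, (1 + ε / (|C| + 1)) * C, fun x => ⟨(hC x).1.trans (hq x).1, ?_⟩⟩, ?_, ?_⟩
  · calc q x ≤ (1 + ε / (|C| + 1)) * p x := (hq x).2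
      _ ≤ (1 + ε / (|C| + 1)) * (C * ‖x‖) :=
        mul_le_mul_of_nonneg_left (hC x).2 (by positivity)
      _ = (1 + ε / (|C| + 1)) * C * ‖x‖ := by ring
  · intro x hx
    exact (hqS x hx).contDiffWithinAt
  · intro x hx
    have h1 := (hq x).1
    have h2 := (hq x).2
    have h3 : p x ≤ |C| + 1 := by
      have h4 := (hC x).2
      have h5 : C * ‖x‖ ≤ |C| * 1 :=
        (mul_le_mul_of_nonneg_right (le_abs_self C) (norm_nonneg x)).trans
          (mul_le_mul_of_nonneg_left hx (abs_nonneg C))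
      linarith
    have h6 : ε / (|C| + 1) * p x ≤ ε := by
      calc ε / (|C| + 1) * p x ≤ ε / (|C| + 1) * (|C| + 1) :=
            mul_le_mul_of_nonneg_left h3 (by positivity)
        _ = ε := by field_simp
    rw [abs_le]
    constructor <;> nlinarith

/-- In every nonseparable weakly compactly generated real Banach space with a C^∞-smooth equivalent norm, each equivalent norm is within ε of some C^∞-smooth equivalent norm on the unit ball, for every ε > 0. -/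
theorem result :
  ∀ (X : Type) [NormedAddCommGroup X] [NormedSpace ℝ X] [CompleteSpace X],
    (∃ K : Set (WeakSpace ℝ X), IsCompact K ∧
        Dense ((Submodule.span ℝ ((toWeakSpace ℝ X).symm '' K) : Submodule ℝ X) : Set X)) →
    ¬ TopologicalSpace.SeparableSpace X →
    (∃ p : Seminorm ℝ X, (∃ c > (0 : ℝ), ∃ C : ℝ, ∀ x : X, c * ‖x‖ ≤ p x ∧ p x ≤ C * ‖x‖) ∧
        ContDiffOn ℝ ((⊤ : ℕ∞) : WithTop ℕ∞) (fun x => p x) {x : X | x ≠ 0}) →
    ∀ p : Seminorm ℝ X, (∃ c > (0 : ℝ), ∃ C : ℝ, ∀ x : X, c * ‖x‖ ≤ p x ∧ p x ≤ C * ‖x‖) →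
    ∀ ε > (0 : ℝ), ∃ q : Seminorm ℝ X,
        (∃ c > (0 : ℝ), ∃ C : ℝ, ∀ x : X, c * ‖x‖ ≤ q x ∧ q x ≤ C * ‖x‖) ∧
        ContDiffOn ℝ ((⊤ : ℕ∞) : WithTop ℕ∞) (fun x => q x) {x : X | x ≠ 0} ∧
        ∀ x : X, ‖x‖ ≤ 1 → |p x - q x| ≤ ε := by
  intro X _ _ _ hK hsep hN p hp ε hε
  obtain ⟨K, hKc, hKd⟩ := hK
  obtain ⟨N, hN, hNs⟩ := hN
  have hApp : Pool.Agent.Helper912.SA.Appr X := by
    refine Pool.Agent.Helper912.SA.appr_all (Cardinal.mk (Set.univ : Set X)) X Set.univ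
      dense_univ le_rfl ⟨(toWeakSpace ℝ X).symm '' K, ?_, ?_, hKd⟩ ⟨N, hN, ?_⟩
    · have : (toWeakSpace ℝ X) '' ((toWeakSpace ℝ X).symm '' K) = K := by
        rw [Set.image_image]
        simp
      show IsCompact _
      rw [this]
      exact hKc
    · rw [Set.image_nonempty]
      by_contra hne
      rw [Set.not_nonempty_iff_eq_empty] at hne
      apply hsep
      refine ⟨⟨_, ?_, hKd⟩⟩
      rw [hne]
      simp
    · intro x hx
      exact (hNs x hx).contDiffAt (isOpen_ne.mem_nhds hx)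
  exact of_appr X hApp p hp ε hε

end Pool.Agent.S02701
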