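-- Proof of the negation: the map (k(z1), z2) is a support point with two normal Loewner chains.
import Pool.Statements.S02712
import Pool.Agent.Helper540.Second
import Pool.Agent.Helper540.Koebe

set_option autoImplicit false
open Pool Pool.MP_1fc8c4_an

namespace Pool.Agent.S02712

open Metric Set Filter Topology MeasureTheory Pool.Agent.Helper540

abbrev E2 := EuclideanSpace ℂ (Fin 2)

theorem norm_sq_vec (a b : ℂ) : ‖(!₂[a, b] : E2)‖ ^ 2 = ‖a‖ ^ 2 + ‖b‖ ^ 2 := by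
  rw [EuclideanSpace.norm_sq_eq, Fin.sum_univ_two]
  simp

theorem norm_sq_two (z : E2) : ‖z‖ ^ 2 = ‖z 0‖ ^ 2 + ‖z 1‖ ^ 2 := by
  rw [EuclideanSpace.norm_sq_eq, Fin.sum_univ_two]

theorem coord_lt {z : E2} (hz : z ∈ ball (0 : E2) 1) (i : Fin 2) : ‖z i‖ < 1 := by
  rw [mem_ball_zero_iff] at hz
  exact (PiLp.norm_apply_le z i).trans_lt hz

theorem vec_mem_ball {z : E2} (hz : z ∈ ball (0 : E2) 1) {a b : ℂ} (ha : ‖a‖ ≤ ‖z 0‖)
    (hb : ‖b‖ ≤ ‖z 1‖) : (!₂[a, b] : E2) ∈ ball (0 : E2) 1 := by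
  rw [mem_ball_zero_iff] at *
  have h1 : ‖(!₂[a, b] : E2)‖ ^ 2 ≤ ‖z‖ ^ 2 := by
    rw [norm_sq_vec, norm_sq_two]
    gcongr
  exact ((pow_le_pow_iff_left₀ (norm_nonneg _) (norm_nonneg _) two_ne_zero).1 h1).trans_lt hz

theorem vec_norm_le {a b : ℂ} {A B : ℝ} (ha : ‖a‖ ≤ A) (hb : ‖b‖ ≤ B) :
    ‖(!₂[a, b] : E2)‖ ≤ A + B := by
  have hA : 0 ≤ A := (norm_nonneg _).trans ha
  have hB : 0 ≤ B := (norm_nonneg _).trans hb
  have h1 : ‖(!₂[a, b] : E2)‖ ^ 2 ≤ (A + B) ^ 2 := by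
    rw [norm_sq_vec]
    have h2 : ‖a‖ ^ 2 ≤ A ^ 2 := by gcongr
    have h3 : ‖b‖ ^ 2 ≤ B ^ 2 := by gcongr
    nlinarith
  exact (pow_le_pow_iff_left₀ (norm_nonneg _) (by positivity) two_ne_zero).1 h1

theorem vec_ext {v w : E2} (h0 : v 0 = w 0) (h1 : v 1 = w 1) : v = w := by
  ext i
  fin_cases i
  · exact h0
  · exact h1

/-- Differentiability of a product map. -/
theorem pair_hasFDerivAt {F0 F1 : ℂ → ℂ} {a : ℂ} {z : E2} (h0 : HasDerivAt F0 a (z 0))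
    (h1 : HasDerivAt F1 a (z 1)) :
    HasFDerivAt (fun z : E2 => (!₂[F0 (z 0), F1 (z 1)] : E2))
      (a • ContinuousLinearMap.id ℂ E2) z := by
  rw [← hasFDerivWithinAt_univ, hasFDerivWithinAt_euclidean]
  intro i
  rw [hasFDerivWithinAt_univ]
  have key : ∀ (j : Fin 2) {F : ℂ → ℂ}, HasDerivAt F a (z j) →
      HasFDerivAt (fun w : E2 => F (w j)) (PiLp.proj 2 (fun _ : Fin 2 => ℂ) j ∘L
        (a • ContinuousLinearMap.id ℂ E2)) z := by
    intro j F hF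
    have h2 : HasFDerivAt (fun w : E2 => w j) (PiLp.proj 2 (fun _ : Fin 2 => ℂ) j : E2 →L[ℂ] ℂ) z :=
      (PiLp.proj 2 (fun _ : Fin 2 => ℂ) j : E2 →L[ℂ] ℂ).hasFDerivAt
    have h3 := hF.comp_hasFDerivAt z h2
    refine h3.congr_fderiv ?_
    ext w
    simp
  fin_cases i
  · exact key 0 h0
  · exact key 1 h1

theorem pair_differentiableAt {F0 F1 : ℂ → ℂ} {z : E2} (h0 : DifferentiableAt ℂ F0 (z 0))
    (h1 : DifferentiableAt ℂ F1 (z 1)) :
    DifferentiableAt ℂ (fun z : E2 => (!₂[F0 (z 0), F1 (z 1)] : E2)) z := by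
  rw [differentiableAt_euclidean]
  intro i
  have key : ∀ (j : Fin 2) {F : ℂ → ℂ}, DifferentiableAt ℂ F (z j) →
      DifferentiableAt ℂ (fun w : E2 => F (w j)) z := by
    intro j F hF
    have h2 : DifferentiableAt ℂ (fun w : E2 => w j) z :=
      (PiLp.proj 2 (fun _ : Fin 2 => ℂ) j : E2 →L[ℂ] ℂ).differentiableAt
    exact DifferentiableAt.comp z hF h2
  fin_cases i
  · exact key 0 h0
  · exact key 1 h1

/-- The map `(k(z_1), z_2)`. -/
noncomputable def ff (z : E2) : E2 := !₂[kf (z 0), z 1]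

/-- Its time independent vector field. -/
noncomputable def gg (z : E2) : E2 := !₂[z 0 * ((1 - z 0) / (1 + z 0)), z 1]

/-- The flow. -/
noncomputable def vv (z : E2) (t : ℝ) : E2 :=
  !₂[koe (Real.exp (-t)) (z 0), ((Real.exp (-t) : ℝ) : ℂ) * z 1]

theorem gg_diff : DifferentiableOn ℂ gg (ball 0 1) := by
  intro z hz
  have h0 := one_add_ne (coord_lt hz 0)
  apply DifferentiableAt.differentiableWithinAt
  apply pair_differentiableAt (F0 := fun w => w * ((1 - w) / (1 + w))) (F1 := fun w => w)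
  · fun_prop (disch := assumption)
  · fun_prop

theorem gg_cara : Cara gg := by
  refine ⟨gg_diff, ?_, ?_, ?_⟩
  · apply vec_ext <;> simp [gg]
  · have h1 : HasDerivAt (fun w : ℂ => w * ((1 - w) / (1 + w))) 1 ((0 : E2) 0) := by
      have hne : (1 : ℂ) + (0 : ℂ) ≠ 0 := by simp
      have d1 := (hasDerivAt_id (0 : ℂ)).mul
        (((hasDerivAt_id (0 : ℂ)).const_sub 1).div ((hasDerivAt_id (0 : ℂ)).const_add 1) hne)
      have : HasDerivAt (fun w : ℂ => w * ((1 - w) / (1 + w))) _ 0 := d1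
      refine this.congr_deriv ?_
      simp
    have h2 : HasDerivAt (fun w : ℂ => w) 1 ((0 : E2) 1) := hasDerivAt_id _
    have h3 := pair_hasFDerivAt h1 h2
    have h4 : HasFDerivAt gg ((1 : ℂ) • ContinuousLinearMap.id ℂ E2) 0 := h3
    rw [h4.fderiv, one_smul]
  · intro z hz hz0
    have hz' : ‖z‖ < 1 := by simpa using hz
    have h0 := coord_lt hz 0
    have hne := one_add_ne h0
    have h1 : inner ℂ z (gg z) = ((‖z 0‖ ^ 2 : ℝ) : ℂ) * ((1 - z 0) / (1 + z 0)) +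
        ((‖z 1‖ ^ 2 : ℝ) : ℂ) := by
      rw [PiLp.inner_apply, Fin.sum_univ_two]
      have hc : ∀ i, (starRingEnd ℂ) (z i) * z i = ((‖z i‖ ^ 2 : ℝ) : ℂ) := by
        intro i
        rw [mul_comm, Complex.mul_conj, Complex.normSq_eq_norm_sq]
      rw [← hc 0, ← hc 1]
      simp only [gg, RCLike.inner_apply]
      simp
      ring
    rw [h1, Complex.add_re, Complex.re_ofReal_mul, Complex.ofReal_re]
    have h2 : 0 < ((1 - z 0) / (1 + z 0)).re := by
      have := cayley_re_pos (ζ := -z 0) (by rwa [norm_neg])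
      simpa [sub_eq_add_neg] using this
    have h3 : 0 < ‖z 0‖ ^ 2 + ‖z 1‖ ^ 2 := by
      rw [← norm_sq_two]
      have := norm_pos_iff.2 hz0
      positivity
    rcases (norm_nonneg (z 0)).eq_or_lt with h | h
    · rw [← h] at h3 ⊢
      simpa using h3
    · have : 0 < ‖z 0‖ ^ 2 * ((1 - z 0) / (1 + z 0)).re := by positivity
      have := sq_nonneg ‖z 1‖
      linarith

theorem exp_mem {t : ℝ} (ht : 0 ≤ t) : 0 ≤ Real.exp (-t) ∧ Real.exp (-t) ≤ 1 :=
  ⟨(Real.exp_pos _).le, Real.exp_le_one_iff.2 (by linarith)⟩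

theorem vv_mem {z : E2} (hz : z ∈ ball (0 : E2) 1) {t : ℝ} (ht : 0 ≤ t) :
    vv z t ∈ ball (0 : E2) 1 := by
  obtain ⟨h0, h1⟩ := exp_mem ht
  apply vec_mem_ball hz (koe_norm_le h0 h1 (coord_lt hz 0))
  rw [norm_mul, Complex.norm_real, Real.norm_of_nonneg h0]
  exact mul_le_of_le_one_left (norm_nonneg _) h1

theorem vec_hasDerivAt {p q : ℝ → ℂ} {p' q' : ℂ} {t : ℝ} (hp : HasDerivAt p p' t)
    (hq : HasDerivAt q q' t) : HasDerivAt (fun s => (!₂[p s, q s] : E2)) !₂[p', q'] t := by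
  have h1 := (hp.smul_const (EuclideanSpace.single (𝕜 := ℂ) (0 : Fin 2) (1 : ℂ))).add
    (hq.smul_const (EuclideanSpace.single (𝕜 := ℂ) (1 : Fin 2) (1 : ℂ)))
  have e : ∀ a b : ℂ, (!₂[a, b] : E2) = a • EuclideanSpace.single (0 : Fin 2) (1 : ℂ) +
      b • EuclideanSpace.single (1 : Fin 2) (1 : ℂ) := by
    intro a b
    apply vec_ext <;> simp
  rw [e p' q']
  have e2 : (fun s => (!₂[p s, q s] : E2)) = fun s => p s • EuclideanSpace.single (0 : Fin 2) (1 : ℂ) +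
      q s • EuclideanSpace.single (1 : Fin 2) (1 : ℂ) := by
    ext1 s
    exact e _ _
  rw [e2]
  exact h1

theorem exp_neg_deriv (t : ℝ) (c : ℂ) :
    HasDerivAt (fun s : ℝ => ((Real.exp (-s) : ℝ) : ℂ) * c) (-(((Real.exp (-t) : ℝ) : ℂ) * c)) t := by
  have h1 : HasDerivAt (fun s : ℝ => Real.exp (-s)) (-Real.exp (-t)) t := by
    have := (hasDerivAt_neg t).exp
    simpa using this
  have h2 : HasDerivAt (fun s : ℝ => ((Real.exp (-s) : ℝ) : ℂ)) ((-Real.exp (-t) : ℝ) : ℂ) t :=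
    h1.ofReal_comp
  refine (h2.mul_const c).congr_deriv ?_
  push_cast
  ring

theorem vv_deriv {z : E2} (hz : z ∈ ball (0 : E2) 1) {t : ℝ} (ht : 0 ≤ t) :
    HasDerivAt (fun s => vv z s) (-(gg (vv z t))) t := by
  have h1 := vec_hasDerivAt (koe_hasDerivAt (coord_lt hz 0) ht) (exp_neg_deriv t (z 1))
  refine h1.congr_deriv ?_
  apply vec_ext <;> simp [gg, vv]

theorem sol_data {g : E2 → E2} (hg : DifferentiableOn ℂ g (ball 0 1)) {v : ℝ → E2}
    (hm : ∀ t, 0 ≤ t → v t ∈ ball (0 : E2) 1)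
    (hd : ∀ t, 0 ≤ t → HasDerivAt v (-(g (v t))) t) {t : ℝ} (ht : 0 ≤ t) :
    IntervalIntegrable (fun s => g (v s)) volume 0 t ∧
      v t = v 0 - ∫ s in (0 : ℝ)..t, g (v s) := by
  have hcont : ContinuousOn (fun s => g (v s)) (uIcc 0 t) := by
    rw [uIcc_of_le ht]
    apply hg.continuousOn.comp (fun s hs => (hd s hs.1).continuousAt.continuousWithinAt)
    intro s hs
    exact hm s hs.1
  have hint : IntervalIntegrable (fun s => g (v s)) volume 0 t := hcont.intervalIntegrable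
  refine ⟨hint, ?_⟩
  have h1 := intervalIntegral.integral_eq_sub_of_hasDerivAt (f := v) (f' := fun s => -(g (v s)))
    (a := 0) (b := t) (fun s hs => by
      rw [uIcc_of_le ht] at hs
      exact hd s hs.1) hint.neg
  rw [intervalIntegral.integral_neg] at h1
  rw [sub_eq_add_neg, h1]
  abel

theorem vv_zero {z : E2} (hz : z ∈ ball (0 : E2) 1) : vv z 0 = z := by
  apply vec_ext
  · simp [vv, koe_one (coord_lt hz 0)]
  · simp [vv]

theorem vec_tendsto {p q : ℝ → ℂ} {a b : ℂ} {l : Filter ℝ} (hp : Tendsto p l (𝓝 a))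
    (hq : Tendsto q l (𝓝 b)) : Tendsto (fun s => (!₂[p s, q s] : E2)) l (𝓝 !₂[a, b]) := by
  have e : ∀ a b : ℂ, (!₂[a, b] : E2) = a • EuclideanSpace.single (0 : Fin 2) (1 : ℂ) +
      b • EuclideanSpace.single (1 : Fin 2) (1 : ℂ) := by
    intro a b
    apply vec_ext <;> simp
  simp only [e]
  exact (hp.smul_const _).add (hq.smul_const _)

theorem exp_cancel (t : ℝ) : ((Real.exp t : ℝ) : ℂ) * ((Real.exp (-t) : ℝ) : ℂ) = 1 := by
  rw [← Complex.ofReal_mul, ← Real.exp_add]; simp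

theorem vv_tendsto {z : E2} (hz : z ∈ ball (0 : E2) 1) :
    Tendsto (fun t : ℝ => ((Real.exp t : ℝ) : ℂ) • vv z t) atTop (𝓝 (ff z)) := by
  have h1 := vec_tendsto (koe_tendsto (coord_lt hz 0))
    (tendsto_const_nhds (x := z 1) (f := atTop))
  refine h1.congr (fun t => ?_)
  apply vec_ext
  · simp [vv]
  · have := exp_cancel t
    simp only [vv, PiLp.smul_apply, smul_eq_mul]
    simp only [Matrix.cons_val_one, Matrix.cons_val_fin_one]
    rw [← mul_assoc, this, one_mul]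

/-- The second chain. -/
noncomputable def mob (t : ℝ) (ζ : ℂ) : ℂ :=
  ((Real.exp t : ℝ) : ℂ) * ζ / (1 + ((1 - Real.exp (-t) : ℝ) : ℂ) * ζ)

noncomputable def chainA (z : E2) (t : ℝ) : E2 :=
  !₂[((Real.exp t : ℝ) : ℂ) * kf (z 0), ((Real.exp t : ℝ) : ℂ) * z 1]

noncomputable def chainB (z : E2) (t : ℝ) : E2 :=
  !₂[((Real.exp t : ℝ) : ℂ) * kf (z 0), mob t (z 1)]

theorem mob_den {t : ℝ} (ht : 0 ≤ t) {ζ : ℂ} (hζ : ‖ζ‖ < 1) :
    1 - ‖ζ‖ ≤ ‖1 + ((1 - Real.exp (-t) : ℝ) : ℂ) * ζ‖ ∧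
      1 + ((1 - Real.exp (-t) : ℝ) : ℂ) * ζ ≠ 0 := by
  obtain ⟨h0, h1⟩ := exp_mem ht
  have h2 : ‖((1 - Real.exp (-t) : ℝ) : ℂ) * ζ‖ ≤ ‖ζ‖ := by
    rw [norm_mul, Complex.norm_real, Real.norm_of_nonneg (by linarith)]
    exact mul_le_of_le_one_left (norm_nonneg _) (by linarith)
  have h3 : 1 - ‖ζ‖ ≤ ‖1 + ((1 - Real.exp (-t) : ℝ) : ℂ) * ζ‖ := by
    have := norm_sub_norm_le (1 : ℂ) (-(((1 - Real.exp (-t) : ℝ) : ℂ) * ζ))
    rw [norm_one, norm_neg, sub_neg_eq_add] at this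
    linarith
  refine ⟨h3, fun h => ?_⟩
  rw [h, norm_zero] at h3
  linarith

theorem kf_hasDerivAt {ζ : ℂ} (hζ : ‖ζ‖ < 1) : DifferentiableAt ℂ kf ζ := by
  have h := pow_ne_zero 2 (one_sub_ne hζ)
  have : DifferentiableAt ℂ (fun w : ℂ => w / (1 - w) ^ 2) ζ := by
    fun_prop (disch := assumption)
  exact this

theorem kf_deriv_zero (c : ℂ) : HasDerivAt (fun w => c * kf w) c 0 := by
  have hne : ((1 : ℂ) - 0) ^ 2 ≠ 0 := by simp
  have d1 := (hasDerivAt_id (0 : ℂ)).div (((hasDerivAt_id (0 : ℂ)).const_sub 1).fun_pow 2) hne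
  have d2 : HasDerivAt kf _ 0 := d1
  refine (d2.const_mul c).congr_deriv ?_
  simp

theorem mob_deriv_zero (t : ℝ) : HasDerivAt (mob t) ((Real.exp t : ℝ) : ℂ) 0 := by
  have hne : 1 + ((1 - Real.exp (-t) : ℝ) : ℂ) * (0 : ℂ) ≠ 0 := by simp
  have d1 := ((hasDerivAt_id (0 : ℂ)).const_mul ((Real.exp t : ℝ) : ℂ)).div
    (((hasDerivAt_id (0 : ℂ)).const_mul ((1 - Real.exp (-t) : ℝ) : ℂ)).const_add 1) hne
  have d2 : HasDerivAt (mob t) _ 0 := d1
  refine d2.congr_deriv ?_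
  simp

theorem mob_differentiableAt {t : ℝ} (ht : 0 ≤ t) {ζ : ℂ} (hζ : ‖ζ‖ < 1) :
    DifferentiableAt ℂ (mob t) ζ := by
  have h := (mob_den ht hζ).2
  have : DifferentiableAt ℂ (fun w : ℂ => ((Real.exp t : ℝ) : ℂ) * w /
      (1 + ((1 - Real.exp (-t) : ℝ) : ℂ) * w)) ζ := by
    fun_prop (disch := assumption)
  exact this

theorem kf_norm_le {ζ : ℂ} {r : ℝ} (hr : r < 1) (hζ : ‖ζ‖ ≤ r) : ‖kf ζ‖ ≤ 1 / (1 - r) ^ 2 := by
  have h1 : 1 - r ≤ ‖1 - ζ‖ := by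
    have := norm_sub_norm_le (1 : ℂ) ζ
    rw [norm_one] at this
    linarith
  have h2 : 0 < 1 - r := by linarith
  rw [kf, norm_div, norm_pow]
  have h3 : (1 - r) ^ 2 ≤ ‖1 - ζ‖ ^ 2 := by gcongr
  apply div_le_div₀ zero_le_one (by linarith) (by positivity) h3

/-- The set of normal Loewner chains as in the statement. -/
def nlc : Set (E2 → ℝ → E2) :=
  {F | (∀ t : ℝ, 0 ≤ t →
        DifferentiableOn ℂ (fun z => F z t) (Metric.ball (0 : EuclideanSpace ℂ (Fin 2)) 1) ∧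
        Set.InjOn (fun z => F z t) (Metric.ball (0 : EuclideanSpace ℂ (Fin 2)) 1) ∧
        F 0 t = 0 ∧
        fderiv ℂ (fun z => F z t) 0 =
          ((Real.exp t : ℝ) : ℂ) • ContinuousLinearMap.id ℂ (EuclideanSpace ℂ (Fin 2))) ∧
      (∀ s t : ℝ, 0 ≤ s → s ≤ t →
        (fun z => F z s) '' Metric.ball (0 : EuclideanSpace ℂ (Fin 2)) 1 ⊆
          (fun z => F z t) '' Metric.ball (0 : EuclideanSpace ℂ (Fin 2)) 1) ∧
      (∀ r : ℝ, r < 1 → ∃ M : ℝ, ∀ t : ℝ, 0 ≤ t → ∀ z : EuclideanSpace ℂ (Fin 2),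
        ‖z‖ ≤ r → ‖F z t‖ ≤ M * Real.exp t)}

theorem vec_eq_iff {a b c d : ℂ} : (!₂[a, b] : E2) = !₂[c, d] ↔ a = c ∧ b = d := by
  constructor
  · intro h
    have h0 := congrArg (fun w : E2 => w 0) h
    have h1 := congrArg (fun w : E2 => w 1) h
    exact ⟨by simpa using h0, by simpa using h1⟩
  · rintro ⟨rfl, rfl⟩; rfl

theorem exp_ne (t : ℝ) : ((Real.exp t : ℝ) : ℂ) ≠ 0 := by exact_mod_cast (Real.exp_pos t).ne'

theorem chainA_mem : chainA ∈ nlc := by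
  refine ⟨fun t ht => ⟨?_, ?_, ?_, ?_⟩, ?_, ?_⟩
  · intro z hz
    apply DifferentiableAt.differentiableWithinAt
    apply pair_differentiableAt (F0 := fun w => ((Real.exp t : ℝ) : ℂ) * kf w)
      (F1 := fun w => ((Real.exp t : ℝ) : ℂ) * w)
    · exact (kf_hasDerivAt (coord_lt hz 0)).const_mul _
    · fun_prop
  · intro z hz w hw h
    simp only [chainA] at h
    rw [vec_eq_iff] at h
    apply vec_ext
    · exact kf_inj (coord_lt hz 0) (coord_lt hw 0) (mul_left_cancel₀ (exp_ne t) h.1)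
    · exact mul_left_cancel₀ (exp_ne t) h.2
  · apply vec_ext <;> simp [chainA, kf]
  · have h1 : HasDerivAt (fun w => ((Real.exp t : ℝ) : ℂ) * kf w) ((Real.exp t : ℝ) : ℂ)
        ((0 : E2) 0) := kf_deriv_zero _
    have h2 : HasDerivAt (fun w : ℂ => ((Real.exp t : ℝ) : ℂ) * w) ((Real.exp t : ℝ) : ℂ)
        ((0 : E2) 1) := by
      have := (hasDerivAt_id ((0 : E2) 1)).const_mul ((Real.exp t : ℝ) : ℂ)
      simpa using this
    exact (pair_hasFDerivAt h1 h2).fderiv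
  · rintro s t hs hst _ ⟨z, hz, rfl⟩
    obtain ⟨h0, h1⟩ := exp_mem (t := t - s) (by linarith)
    have hc : ((Real.exp t : ℝ) : ℂ) * ((Real.exp (-(t - s)) : ℝ) : ℂ) = ((Real.exp s : ℝ) : ℂ) := by
      rw [← Complex.ofReal_mul, ← Real.exp_add]; congr 2; ring
    refine ⟨!₂[koe (Real.exp (-(t - s))) (z 0), ((Real.exp (-(t - s)) : ℝ) : ℂ) * z 1], ?_, ?_⟩
    · apply vec_mem_ball hz (koe_norm_le h0 h1 (coord_lt hz 0))
      rw [norm_mul, Complex.norm_real, Real.norm_of_nonneg h0]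
      exact mul_le_of_le_one_left (norm_nonneg _) h1
    · simp only [chainA]
      rw [vec_eq_iff]
      constructor
      · have : kf (koe (Real.exp (-(t - s))) (z 0)) = ((Real.exp (-(t - s)) : ℝ) : ℂ) * kf (z 0) :=
          kf_koe h0 h1 (coord_lt hz 0)
        simp only [Matrix.cons_val_zero]
        rw [this, ← mul_assoc, hc]
      · simp only [Matrix.cons_val_one, Matrix.cons_val_fin_one]
        rw [← mul_assoc, hc]
  · intro r hr
    refine ⟨1 / (1 - r) ^ 2 + 1, fun t _ z hz => ?_⟩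
    have hz0 : ‖z 0‖ ≤ r := (PiLp.norm_apply_le z 0).trans hz
    have hz1 : ‖z 1‖ ≤ 1 := ((PiLp.norm_apply_le z 1).trans hz).trans hr.le
    have hn : ‖((Real.exp t : ℝ) : ℂ)‖ = Real.exp t := by
      rw [Complex.norm_real, Real.norm_of_nonneg (Real.exp_pos t).le]
    have := vec_norm_le (a := ((Real.exp t : ℝ) : ℂ) * kf (z 0)) (b := ((Real.exp t : ℝ) : ℂ) * z 1)
      (A := Real.exp t * (1 / (1 - r) ^ 2)) (B := Real.exp t * 1)
      (by rw [norm_mul, hn]; exact mul_le_mul_of_nonneg_left (kf_norm_le hr hz0) (Real.exp_pos t).le)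
      (by rw [norm_mul, hn]; exact mul_le_mul_of_nonneg_left hz1 (Real.exp_pos t).le)
    calc ‖chainA z t‖ ≤ _ := this
      _ = _ := by ring

theorem mob_transition {s t : ℝ} (hs : 0 ≤ s) (hst : s ≤ t) {ζ : ℂ} (hζ : ‖ζ‖ < 1) :
    ∃ ξ : ℂ, ‖ξ‖ ≤ ‖ζ‖ ∧ mob t ξ = mob s ζ := by
  set δ : ℝ := Real.exp (t - s) with hδ
  set b : ℝ := δ * (1 - Real.exp (-s)) - (1 - Real.exp (-t)) with hb
  have hδ1 : 1 ≤ δ := Real.one_le_exp (by linarith)
  obtain ⟨hs0, hs1⟩ := exp_mem hs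
  have hinv : δ * Real.exp (-(t - s)) = 1 := by rw [hδ, ← Real.exp_add]; simp
  set ε : ℝ := Real.exp (-(t - s)) with hε
  have hε0 : 0 < ε := Real.exp_pos _
  have hεt : Real.exp (-t) = Real.exp (-s) * ε := by rw [hε, ← Real.exp_add]; congr 1; ring
  have hε1 : ε ≤ 1 := by nlinarith
  have hsum : 2 ≤ δ + ε := by nlinarith [sq_nonneg (δ - ε), sq_nonneg (δ + ε - 2)]
  have hb1 : |b| ≤ δ - 1 := by
    have e : b = (δ - 1) - Real.exp (-s) * (δ - ε) := by rw [hb, hεt]; ring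
    rw [e, abs_le]
    constructor
    · have : Real.exp (-s) * (δ - ε) ≤ 1 * (δ - ε) :=
        mul_le_mul_of_nonneg_right hs1 (by linarith)
      linarith
    · have : 0 ≤ Real.exp (-s) * (δ - ε) := mul_nonneg hs0 (by linarith)
      linarith
  have hden : 1 ≤ ‖(δ : ℂ) + (b : ℂ) * ζ‖ := by
    have h1 : ‖(b : ℂ) * ζ‖ ≤ δ - 1 := by
      rw [norm_mul, Complex.norm_real, Real.norm_eq_abs]
      calc |b| * ‖ζ‖ ≤ (δ - 1) * 1 := by
            apply mul_le_mul hb1 hζ.le (norm_nonneg _) (by linarith)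
        _ = δ - 1 := mul_one _
    have h2 := norm_sub_norm_le (δ : ℂ) (-((b : ℂ) * ζ))
    rw [norm_neg, sub_neg_eq_add, Complex.norm_real, Real.norm_of_nonneg (by linarith)] at h2
    linarith
  have hdne : (δ : ℂ) + (b : ℂ) * ζ ≠ 0 := by
    intro h
    rw [h, norm_zero] at hden
    linarith
  refine ⟨ζ / ((δ : ℂ) + (b : ℂ) * ζ), ?_, ?_⟩
  · rw [norm_div]
    exact div_le_self (norm_nonneg _) hden
  · have h1 := (mob_den hs hζ).2
    have hδ0 : (δ : ℂ) ≠ 0 := by exact_mod_cast (by linarith : δ ≠ 0)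
    have hden2 : (δ : ℂ) + (b : ℂ) * ζ + ((1 - Real.exp (-t) : ℝ) : ℂ) * ζ =
        δ * (1 + ((1 - Real.exp (-s) : ℝ) : ℂ) * ζ) := by
      rw [hb]; push_cast; ring
    have hne3 : (δ : ℂ) * (1 + ((1 - Real.exp (-s) : ℝ) : ℂ) * ζ) ≠ 0 := mul_ne_zero hδ0 h1
    have het : ((Real.exp t : ℝ) : ℂ) = δ * ((Real.exp s : ℝ) : ℂ) := by
      rw [hδ, ← Complex.ofReal_mul, ← Real.exp_add]; congr 2; ring
    have e5 : 1 + ((1 - Real.exp (-t) : ℝ) : ℂ) * (ζ / ((δ : ℂ) + (b : ℂ) * ζ)) =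
        δ * (1 + ((1 - Real.exp (-s) : ℝ) : ℂ) * ζ) / ((δ : ℂ) + (b : ℂ) * ζ) := by
      rw [← hden2, add_div, div_self hdne, mul_div_assoc]
    rw [mob, mob, e5, het, ← mul_div_assoc, div_div_div_cancel_right₀ hdne, mul_assoc,
      mul_div_mul_left _ _ hδ0]

theorem mob_inj {t : ℝ} (ht : 0 ≤ t) {a b : ℂ} (ha : ‖a‖ < 1) (hb : ‖b‖ < 1)
    (h : mob t a = mob t b) : a = b := by
  have h1 := (mob_den ht ha).2
  have h2 := (mob_den ht hb).2
  rw [mob, mob, div_eq_div_iff h1 h2] at h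
  have h3 : ((Real.exp t : ℝ) : ℂ) * a = ((Real.exp t : ℝ) : ℂ) * b := by linear_combination h
  exact mul_left_cancel₀ (exp_ne t) h3

theorem chainB_mem : chainB ∈ nlc := by
  refine ⟨fun t ht => ⟨?_, ?_, ?_, ?_⟩, ?_, ?_⟩
  · intro z hz
    apply DifferentiableAt.differentiableWithinAt
    apply pair_differentiableAt (F0 := fun w => ((Real.exp t : ℝ) : ℂ) * kf w) (F1 := mob t)
    · exact (kf_hasDerivAt (coord_lt hz 0)).const_mul _
    · exact mob_differentiableAt ht (coord_lt hz 1)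
  · intro z hz w hw h
    simp only [chainB] at h
    rw [vec_eq_iff] at h
    apply vec_ext
    · exact kf_inj (coord_lt hz 0) (coord_lt hw 0) (mul_left_cancel₀ (exp_ne t) h.1)
    · exact mob_inj ht (coord_lt hz 1) (coord_lt hw 1) h.2
  · apply vec_ext <;> simp [chainB, kf, mob]
  · have h1 : HasDerivAt (fun w => ((Real.exp t : ℝ) : ℂ) * kf w) ((Real.exp t : ℝ) : ℂ)
        ((0 : E2) 0) := kf_deriv_zero _
    have h2 : HasDerivAt (mob t) ((Real.exp t : ℝ) : ℂ) ((0 : E2) 1) := mob_deriv_zero t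
    exact (pair_hasFDerivAt h1 h2).fderiv
  · rintro s t hs hst _ ⟨z, hz, rfl⟩
    obtain ⟨h0, h1⟩ := exp_mem (t := t - s) (by linarith)
    have hc : ((Real.exp t : ℝ) : ℂ) * ((Real.exp (-(t - s)) : ℝ) : ℂ) = ((Real.exp s : ℝ) : ℂ) := by
      rw [← Complex.ofReal_mul, ← Real.exp_add]; congr 2; ring
    obtain ⟨ξ, hξ, hξ2⟩ := mob_transition hs hst (coord_lt hz 1)
    refine ⟨!₂[koe (Real.exp (-(t - s))) (z 0), ξ], ?_, ?_⟩
    · exact vec_mem_ball hz (koe_norm_le h0 h1 (coord_lt hz 0)) hξ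
    · simp only [chainB]
      rw [vec_eq_iff]
      constructor
      · have : kf (koe (Real.exp (-(t - s))) (z 0)) = ((Real.exp (-(t - s)) : ℝ) : ℂ) * kf (z 0) :=
          kf_koe h0 h1 (coord_lt hz 0)
        simp only [Matrix.cons_val_zero]
        rw [this, ← mul_assoc, hc]
      · simpa using hξ2
  · intro r hr
    refine ⟨1 / (1 - r) ^ 2 + 1 / (1 - r), fun t ht z hz => ?_⟩
    have hz0 : ‖z 0‖ ≤ r := (PiLp.norm_apply_le z 0).trans hz
    have hz1 : ‖z 1‖ ≤ r := (PiLp.norm_apply_le z 1).trans hz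
    have hn : ‖((Real.exp t : ℝ) : ℂ)‖ = Real.exp t := by
      rw [Complex.norm_real, Real.norm_of_nonneg (Real.exp_pos t).le]
    have hmob : ‖mob t (z 1)‖ ≤ Real.exp t * (1 / (1 - r)) := by
      have h1 := (mob_den ht (hz1.trans_lt hr)).1
      rw [mob, norm_div, norm_mul, hn, mul_div_assoc]
      apply mul_le_mul_of_nonneg_left _ (Real.exp_pos t).le
      apply div_le_div₀ zero_le_one (by linarith) (by linarith) (by linarith)
    have := vec_norm_le (a := ((Real.exp t : ℝ) : ℂ) * kf (z 0)) (b := mob t (z 1))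
      (A := Real.exp t * (1 / (1 - r) ^ 2)) (B := Real.exp t * (1 / (1 - r)))
      (by rw [norm_mul, hn]; exact mul_le_mul_of_nonneg_left (kf_norm_le hr hz0) (Real.exp_pos t).le)
      hmob
    calc ‖chainB z t‖ ≤ _ := this
      _ = _ := by ring

/-- The class `S^0` as in the statement. -/
def szero : Set (E2 → E2) :=
  {g | ∃ (h : EuclideanSpace ℂ (Fin 2) → ℝ → EuclideanSpace ℂ (Fin 2))
      (v : EuclideanSpace ℂ (Fin 2) → ℝ → EuclideanSpace ℂ (Fin 2)),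
      (∀ t : ℝ, DifferentiableOn ℂ (fun z => h z t) (Metric.ball (0 : EuclideanSpace ℂ (Fin 2)) 1) ∧
        h 0 t = 0 ∧
        fderiv ℂ (fun z => h z t) 0 = ContinuousLinearMap.id ℂ (EuclideanSpace ℂ (Fin 2)) ∧
        ∀ z ∈ Metric.ball (0 : EuclideanSpace ℂ (Fin 2)) 1, z ≠ 0 → 0 < (inner ℂ z (h z t)).re) ∧
      (∀ z ∈ Metric.ball (0 : EuclideanSpace ℂ (Fin 2)) 1,
        MeasureTheory.StronglyMeasurable (fun t : ℝ => h z t)) ∧
      (∀ z ∈ Metric.ball (0 : EuclideanSpace ℂ (Fin 2)) 1,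
        (∀ t : ℝ, 0 ≤ t → v z t ∈ Metric.ball (0 : EuclideanSpace ℂ (Fin 2)) 1 ∧
          IntervalIntegrable (fun s => h (v z s) s) MeasureTheory.volume 0 t ∧
          v z t = z - ∫ s in (0:ℝ)..t, h (v z s) s) ∧
        Filter.Tendsto (fun t : ℝ => ((Real.exp t : ℝ) : ℂ) • v z t) Filter.atTop (nhds (g z)))}

theorem ff_mem : ff ∈ szero := by
  refine ⟨fun z _ => gg z, vv, fun t => ⟨gg_cara.diff, gg_cara.zero, gg_cara.fder, gg_cara.pos⟩,
    fun z _ => stronglyMeasurable_const, fun z hz => ⟨fun t ht => ?_, vv_tendsto hz⟩⟩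
  obtain ⟨h1, h2⟩ := sol_data gg_diff (v := fun s => vv z s) (fun t ht => vv_mem hz ht)
    (fun t ht => vv_deriv hz ht) ht
  refine ⟨vv_mem hz ht, h1, ?_⟩
  rw [vv_zero hz] at h2
  exact h2

theorem id_mem : (fun z : E2 => z) ∈ szero := by
  refine ⟨fun z _ => z, fun z t => ((Real.exp (-t) : ℝ) : ℂ) • z, fun t => ⟨differentiableOn_id,
    rfl, fderiv_fun_id, fun z _ hz0 => ?_⟩, fun z _ => stronglyMeasurable_const, fun z hz =>
    ⟨fun t ht => ?_, ?_⟩⟩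
  · have : 0 < ‖z‖ := norm_pos_iff.2 hz0
    have h2 : (0 : ℝ) < RCLike.re (inner ℂ z z) := by
      rw [inner_self_eq_norm_sq]
      positivity
    exact h2
  · have hm : ∀ t, 0 ≤ t → ((Real.exp (-t) : ℝ) : ℂ) • z ∈ ball (0 : E2) 1 := by
      intro t ht
      obtain ⟨h0, h1⟩ := exp_mem ht
      rw [mem_ball_zero_iff] at *
      rw [norm_smul, Complex.norm_real, Real.norm_of_nonneg h0]
      exact (mul_le_of_le_one_left (norm_nonneg _) h1).trans_lt hz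
    have hd : ∀ t : ℝ, 0 ≤ t → HasDerivAt (fun s : ℝ => ((Real.exp (-s) : ℝ) : ℂ) • z)
        (-(((Real.exp (-t) : ℝ) : ℂ) • z)) t := by
      intro t _
      have h1 : HasDerivAt (fun s : ℝ => Real.exp (-s)) (-Real.exp (-t)) t := by
        have := (hasDerivAt_neg t).exp
        simpa using this
      have h2 : HasDerivAt (fun s : ℝ => ((Real.exp (-s) : ℝ) : ℂ)) ((-Real.exp (-t) : ℝ) : ℂ) t :=
        h1.ofReal_comp
      refine (h2.smul_const z).congr_deriv ?_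
      push_cast
      rw [neg_smul]
    obtain ⟨h1, h2⟩ := sol_data (g := fun z => z) differentiableOn_id hm hd ht
    refine ⟨hm t ht, h1, ?_⟩
    have e : ((Real.exp (-(0 : ℝ)) : ℝ) : ℂ) • z = z := by simp
    rw [e] at h2
    exact h2
  · refine tendsto_const_nhds.congr (fun t => ?_)
    rw [smul_smul, exp_cancel, one_smul]

/-- The second coefficient functional on the first slice. -/
noncomputable def slice2 (g : E2 → E2) : ℂ :=
  tc 2 (fun ζ : ℂ => (g (ζ • EuclideanSpace.single (0 : Fin 2) (1 : ℂ))) 0)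

open Classical in
noncomputable def LL (g : E2 → E2) : ℂ :=
  if DifferentiableOn ℂ g (ball 0 1) then slice2 g else 0

theorem slice_diff {g : E2 → E2} (hg : DifferentiableOn ℂ g (ball 0 1)) :
    DifferentiableOn ℂ (fun ζ : ℂ => (g (ζ • EuclideanSpace.single (0 : Fin 2) (1 : ℂ))) 0)
      (ball 0 1) := by
  have h1 : DifferentiableOn ℂ (fun ζ : ℂ => g (ζ • EuclideanSpace.single (0 : Fin 2) (1 : ℂ)))
      (ball 0 1) := by
    apply hg.comp (by fun_prop)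
    intro ζ hζ
    rw [mem_ball_zero_iff] at *
    rw [norm_smul]
    simpa using hζ
  exact (PiLp.proj 2 (fun _ : Fin 2 => ℂ) 0 : E2 →L[ℂ] ℂ).differentiable.comp_differentiableOn h1

theorem LL_ff : LL ff = 2 := by
  have hd : DifferentiableOn ℂ ff (ball 0 1) := by
    intro z hz
    apply DifferentiableAt.differentiableWithinAt
    exact pair_differentiableAt (F0 := kf) (F1 := fun w => w) (kf_hasDerivAt (coord_lt hz 0))
      differentiableAt_id
  rw [LL, if_pos hd, slice2]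
  have e1 : (fun ζ : ℂ => (ff (ζ • EuclideanSpace.single (0 : Fin 2) (1 : ℂ))) 0) = kf := by
    ext1 ζ
    simp [ff]
  rw [e1]
  -- `kf ζ = ζ + 2 ζ^2 + O(ζ^3)`
  have hk : DifferentiableOn ℂ kf (ball 0 1) := fun ζ hζ =>
    (kf_hasDerivAt (by simpa using hζ)).differentiableWithinAt
  have h3 : tc 2 (fun ζ => kf ζ - (ζ ^ 1 • (1 : ℂ) + ζ ^ 2 • (2 : ℂ))) = 0 := by
    apply tc_eq_zero_of_bound 2 (R := 1 / 2) (C := 20) (by norm_num)
    · exact (hk.mono (ball_subset_ball (by norm_num))).sub (by fun_prop)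
    · intro ζ hζ
      have hζ' : ‖ζ‖ < 1 / 2 := by simpa using hζ
      have hne := one_sub_ne (ζ := ζ) (by linarith)
      have e4 : kf ζ - (ζ ^ 1 • (1 : ℂ) + ζ ^ 2 • (2 : ℂ)) = ζ ^ 3 * ((3 - 2 * ζ) / (1 - ζ) ^ 2) := by
        rw [kf]
        simp only [smul_eq_mul]
        field_simp
        ring
      rw [e4, norm_mul, norm_pow, norm_div, norm_pow, mul_comm]
      have h5 : 1 / 2 ≤ ‖1 - ζ‖ := by
        have := norm_sub_norm_le (1 : ℂ) ζ
        rw [norm_one] at this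
        linarith
      have h6 : ‖3 - 2 * ζ‖ ≤ 4 := by
        calc _ ≤ ‖(3 : ℂ)‖ + ‖2 * ζ‖ := norm_sub_le _ _
          _ ≤ 4 := by rw [norm_mul]; norm_num; linarith
      have h7 : 1 / 4 ≤ ‖1 - ζ‖ ^ 2 := by nlinarith
      have h8 : ‖3 - 2 * ζ‖ / ‖1 - ζ‖ ^ 2 ≤ 20 := by
        rw [div_le_iff₀ (by linarith)]
        linarith
      exact mul_le_mul_of_nonneg_right h8 (by positivity)
  rw [tc_sub 2 (contDiffAt_of_ball one_pos hk 2) (by fun_prop),
    tc_add 2 (by fun_prop) (by fun_prop), tc_pow_smul, tc_pow_smul] at h3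
  simp only [show ¬ (2 = 1) by norm_num, if_false, if_true, zero_add] at h3
  exact sub_eq_zero.1 h3

theorem LL_id : LL (fun z : E2 => z) = 0 := by
  have hid : DifferentiableOn ℂ (fun z : E2 => z) (ball 0 1) := differentiableOn_id
  rw [LL, if_pos hid, slice2]
  have e1 : (fun ζ : ℂ => (ζ • EuclideanSpace.single (0 : Fin 2) (1 : ℂ) : E2) 0) =
      fun ζ : ℂ => ζ ^ 1 • (1 : ℂ) := by
    ext1 ζ
    simp
  rw [e1, tc_pow_smul, if_neg (by norm_num)]

theorem LL_le {g : E2 → E2} (hg : g ∈ szero) : (LL g).re ≤ 2 := by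
  by_cases hd : DifferentiableOn ℂ g (ball 0 1)
  swap
  · rw [LL, if_neg hd]; norm_num
  rw [LL, if_pos hd, slice2]
  obtain ⟨h, v, hM, _, hsol⟩ := hg
  have hC : ∀ s, Cara (fun w => h w s) := fun s => ⟨(hM s).1, (hM s).2.1, (hM s).2.2.1, (hM s).2.2.2⟩
  have hS : ∀ z ∈ ball (0 : E2) 1, Sol h z (v z) := by
    intro z hz
    refine ⟨fun t ht => ?_, fun t ht => ?_, fun t ht => ?_⟩
    · simpa using ((hsol z hz).1 t ht).1
    · exact ((hsol z hz).1 t ht).2.1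
    · exact ((hsol z hz).1 t ht).2.2
  have hnorm : ∀ ζ : ℂ, ‖ζ • EuclideanSpace.single (0 : Fin 2) (1 : ℂ)‖ = ‖ζ‖ := by
    intro ζ
    rw [norm_smul]
    simp
  have hmem : ∀ ζ : ℂ, ‖ζ‖ < 1 → ζ • EuclideanSpace.single (0 : Fin 2) (1 : ℂ) ∈ ball (0 : E2) 1 := by
    intro ζ hζ
    rw [mem_ball_zero_iff, hnorm]
    exact hζ
  apply re_tc_two_le (slice_diff hd) (C := 3200) (δ := 1 / 8) (by norm_num) (by norm_num)
  · intro ζ hζ
    set z : E2 := ζ • EuclideanSpace.single (0 : Fin 2) (1 : ℂ) with hz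
    have hzb := hmem ζ (by linarith)
    have h1 : ‖g z - z‖ ≤ 3200 * ‖z‖ ^ 2 := by
      have hlim := ((hsol z hzb).2.sub_const z).norm
      refine le_of_tendsto hlim ?_
      filter_upwards [eventually_ge_atTop 0] with t ht
      exact (hS z hzb).lin hC (by rw [hz, hnorm]; exact hζ.le) ht
    rw [show ‖z‖ = ‖ζ‖ from hnorm ζ] at h1
    have h2 : g z 0 - ζ = (g z - z) 0 := by simp [hz]
    rw [h2]
    exact (PiLp.norm_apply_le _ 0).trans h1
  · intro ρ hρ0 hρ1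
    set z : E2 := (ρ : ℂ) • EuclideanSpace.single (0 : Fin 2) (1 : ℂ) with hz
    have hzn : ‖z‖ = ρ := by rw [hz, hnorm, Complex.norm_real, Real.norm_of_nonneg hρ0.le]
    have hzb := hmem (ρ : ℂ) (by rw [Complex.norm_real, Real.norm_of_nonneg hρ0.le]; linarith)
    have h1 : ‖g z‖ ≤ ρ / (1 - ρ) ^ 2 := by
      have hlim := (hsol z hzb).2.norm
      refine le_of_tendsto hlim ?_
      filter_upwards [eventually_ge_atTop 0] with t ht
      have h2 := (hS z hzb).growth hC ht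
      rw [hzn] at h2
      refine le_trans ?_ h2
      rw [norm_smul, Complex.norm_real, Real.norm_of_nonneg (Real.exp_pos t).le]
      apply mul_le_mul_of_nonneg_left _ (Real.exp_pos t).le
      have h3 := (hS z hzb).mem t ht
      have h4 := norm_nonneg (v z t)
      rw [le_div_iff₀ (by have : 0 < 1 - ‖v z t‖ := by linarith
                          positivity)]
      have h5 : (1 - ‖v z t‖) ^ 2 ≤ 1 := by nlinarith
      nlinarith
    exact (PiLp.norm_apply_le _ 0).trans h1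

theorem LL_linear (g1 g2 : E2 → E2) (h1 : DifferentiableOn ℂ g1 (ball 0 1))
    (h2 : DifferentiableOn ℂ g2 (ball 0 1)) (a b : ℂ) :
    LL (a • g1 + b • g2) = a * LL g1 + b * LL g2 := by
  have h3 : DifferentiableOn ℂ (a • g1 + b • g2) (ball 0 1) := (h1.const_smul a).add (h2.const_smul b)
  rw [LL, LL, LL, if_pos h1, if_pos h2, if_pos h3, slice2, slice2, slice2]
  have c1 := contDiffAt_of_ball one_pos (slice_diff h1) 2
  have c2 := contDiffAt_of_ball one_pos (slice_diff h2) 2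
  have e1 : (fun ζ : ℂ => ((a • g1 + b • g2) (ζ • EuclideanSpace.single (0 : Fin 2) (1 : ℂ))) 0) =
      fun ζ : ℂ => a • ((g1 (ζ • EuclideanSpace.single (0 : Fin 2) (1 : ℂ))) 0) +
        b • ((g2 (ζ • EuclideanSpace.single (0 : Fin 2) (1 : ℂ))) 0) := by
    ext1 ζ
    simp
  rw [e1, tc_add 2 (c1.const_smul a) (c2.const_smul b)]
  have hs : ∀ (c : ℂ) (f : ℂ → ℂ), ContDiffAt ℂ 2 f 0 → tc 2 (fun ζ => c • f ζ) = c * tc 2 f := by
    intro c f hf
    have := tc_clm (c • ContinuousLinearMap.id ℂ ℂ) 2 hf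
    simpa using this
  rw [hs a _ c1, hs b _ c2]

theorem LL_bound : ∃ K : Set E2, K ⊆ ball (0 : E2) 1 ∧ IsCompact K ∧ ∃ C : ℝ, ∀ g : E2 → E2,
    DifferentiableOn ℂ g (ball 0 1) → ∀ M : ℝ, (∀ z ∈ K, ‖g z‖ ≤ M) → ‖LL g‖ ≤ C * M := by
  refine ⟨(fun ζ : ℂ => ζ • EuclideanSpace.single (0 : Fin 2) (1 : ℂ)) '' sphere 0 (1 / 2), ?_, ?_,
    4, ?_⟩
  · rintro _ ⟨ζ, hζ, rfl⟩
    have hζ' : ‖ζ‖ = 1 / 2 := by simpa using hζ
    rw [mem_ball_zero_iff, norm_smul, hζ']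
    simp
    norm_num
  · exact (isCompact_sphere _ _).image (by fun_prop)
  · intro g hg M hM
    rw [LL, if_pos hg, slice2]
    have h1 := slice_diff hg
    have h2 : DiffContOnCl ℂ (fun ζ : ℂ => (g (ζ • EuclideanSpace.single (0 : Fin 2) (1 : ℂ))) 0)
        (ball 0 (1 / 2)) := by
      apply DifferentiableOn.diffContOnCl
      rw [closure_ball _ (by norm_num)]
      exact h1.mono (closedBall_subset_ball (by norm_num))
    have h3 := Complex.norm_iteratedDeriv_le_of_forall_mem_sphere_norm_le (C := M) 2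
      (by norm_num) h2 (fun ζ hζ => (PiLp.norm_apply_le _ 0).trans (hM _ ⟨ζ, hζ, rfl⟩))
    rw [tc, norm_smul, norm_inv]
    have h4 : ‖((Nat.factorial 2 : ℕ) : ℂ)‖ = 2 := by norm_num [Nat.factorial]
    rw [h4]
    have h5 : ((Nat.factorial 2 : ℕ) : ℝ) * M / (1 / 2) ^ 2 = 8 * M := by
      norm_num [Nat.factorial]; ring
    rw [h5] at h3
    linarith

/-- The negation of the preceding statement: Here S^0 is the class of maps of the unit ball of C^2 with parametric representation. If f in S^0 maximizes Re L over S^0 for some continuous linear functional L not constant on S^0, then any two normal Loewner chains starting at f coincide. -/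
theorem result :
    ¬ (∀ (S0 : Set (EuclideanSpace ℂ (Fin 2) → EuclideanSpace ℂ (Fin 2)))
    (NLC : Set (EuclideanSpace ℂ (Fin 2) → ℝ → EuclideanSpace ℂ (Fin 2))),
  (∀ g, g ∈ S0 ↔ ∃ (h : EuclideanSpace ℂ (Fin 2) → ℝ → EuclideanSpace ℂ (Fin 2))
      (v : EuclideanSpace ℂ (Fin 2) → ℝ → EuclideanSpace ℂ (Fin 2)),
      (∀ t : ℝ, DifferentiableOn ℂ (fun z => h z t) (Metric.ball (0 : EuclideanSpace ℂ (Fin 2)) 1) ∧
        h 0 t = 0 ∧
        fderiv ℂ (fun z => h z t) 0 = ContinuousLinearMap.id ℂ (EuclideanSpace ℂ (Fin 2)) ∧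
        ∀ z ∈ Metric.ball (0 : EuclideanSpace ℂ (Fin 2)) 1, z ≠ 0 → 0 < (inner ℂ z (h z t)).re) ∧
      (∀ z ∈ Metric.ball (0 : EuclideanSpace ℂ (Fin 2)) 1,
        MeasureTheory.StronglyMeasurable (fun t : ℝ => h z t)) ∧
      (∀ z ∈ Metric.ball (0 : EuclideanSpace ℂ (Fin 2)) 1,
        (∀ t : ℝ, 0 ≤ t → v z t ∈ Metric.ball (0 : EuclideanSpace ℂ (Fin 2)) 1 ∧
          IntervalIntegrable (fun s => h (v z s) s) MeasureTheory.volume 0 t ∧
          v z t = z - ∫ s in (0:ℝ)..t, h (v z s) s) ∧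
        Filter.Tendsto (fun t : ℝ => ((Real.exp t : ℝ) : ℂ) • v z t) Filter.atTop (nhds (g z)))) →
  (∀ F, F ∈ NLC ↔
      (∀ t : ℝ, 0 ≤ t →
        DifferentiableOn ℂ (fun z => F z t) (Metric.ball (0 : EuclideanSpace ℂ (Fin 2)) 1) ∧
        Set.InjOn (fun z => F z t) (Metric.ball (0 : EuclideanSpace ℂ (Fin 2)) 1) ∧
        F 0 t = 0 ∧
        fderiv ℂ (fun z => F z t) 0 =
          ((Real.exp t : ℝ) : ℂ) • ContinuousLinearMap.id ℂ (EuclideanSpace ℂ (Fin 2))) ∧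
      (∀ s t : ℝ, 0 ≤ s → s ≤ t →
        (fun z => F z s) '' Metric.ball (0 : EuclideanSpace ℂ (Fin 2)) 1 ⊆
          (fun z => F z t) '' Metric.ball (0 : EuclideanSpace ℂ (Fin 2)) 1) ∧
      (∀ r : ℝ, r < 1 → ∃ M : ℝ, ∀ t : ℝ, 0 ≤ t → ∀ z : EuclideanSpace ℂ (Fin 2),
        ‖z‖ ≤ r → ‖F z t‖ ≤ M * Real.exp t)) →
  ∀ f ∈ S0,
    (∃ L : (EuclideanSpace ℂ (Fin 2) → EuclideanSpace ℂ (Fin 2)) → ℂ,
      (∀ g1 g2 : EuclideanSpace ℂ (Fin 2) → EuclideanSpace ℂ (Fin 2),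
        DifferentiableOn ℂ g1 (Metric.ball (0 : EuclideanSpace ℂ (Fin 2)) 1) →
        DifferentiableOn ℂ g2 (Metric.ball (0 : EuclideanSpace ℂ (Fin 2)) 1) →
        ∀ a b : ℂ, L (a • g1 + b • g2) = a * L g1 + b * L g2) ∧
      (∃ K : Set (EuclideanSpace ℂ (Fin 2)), K ⊆ Metric.ball (0 : EuclideanSpace ℂ (Fin 2)) 1 ∧
        IsCompact K ∧ ∃ C : ℝ, ∀ g : EuclideanSpace ℂ (Fin 2) → EuclideanSpace ℂ (Fin 2),
          DifferentiableOn ℂ g (Metric.ball (0 : EuclideanSpace ℂ (Fin 2)) 1) →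
          ∀ M : ℝ, (∀ z ∈ K, ‖g z‖ ≤ M) → ‖L g‖ ≤ C * M) ∧
      (∀ g ∈ S0, (L g).re ≤ (L f).re) ∧
      (∃ g ∈ S0, L g ≠ L f)) →
    ∀ F1 ∈ NLC, ∀ F2 ∈ NLC,
      (∀ z ∈ Metric.ball (0 : EuclideanSpace ℂ (Fin 2)) 1, F1 z 0 = f z) →
      (∀ z ∈ Metric.ball (0 : EuclideanSpace ℂ (Fin 2)) 1, F2 z 0 = f z) →
      ∀ t : ℝ, 0 ≤ t → ∀ z ∈ Metric.ball (0 : EuclideanSpace ℂ (Fin 2)) 1, F1 z t = F2 z t) := by
  intro H
  have key := H szero nlc (fun _ => Iff.rfl) (fun _ => Iff.rfl) ff ff_mem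
    ⟨LL, LL_linear, LL_bound, fun g hg => by rw [LL_ff]; simpa using LL_le hg,
      fun z => z, id_mem, by rw [LL_id, LL_ff]; norm_num⟩
    chainA chainA_mem chainB chainB_mem
    (fun z _ => by apply vec_ext <;> simp [chainA, ff])
    (fun z _ => by apply vec_ext <;> simp [chainB, ff, mob])
    1 zero_le_one !₂[0, 1 / 2] (by
      rw [mem_ball_zero_iff]
      have h1 := norm_sq_vec 0 (1 / 2)
      have h2 : ‖(!₂[0, 1 / 2] : E2)‖ ^ 2 < 1 ^ 2 := by rw [h1]; norm_num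
      exact (pow_lt_pow_iff_left₀ (norm_nonneg _) zero_le_one two_ne_zero).1 h2)
  have h1 := congrArg (fun w : E2 => w 1) key
  simp only [chainA, chainB, mob] at h1
  simp only [Matrix.cons_val_one, Matrix.cons_val_fin_one] at h1
  have h2 : (1 : ℂ) + ((1 - Real.exp (-1) : ℝ) : ℂ) * (1 / 2) ≠ 0 :=
    (mob_den zero_le_one (by norm_num : ‖(1 / 2 : ℂ)‖ < 1)).2
  rw [eq_div_iff h2] at h1
  have h3 : ((Real.exp 1 : ℝ) : ℂ) * (1 / 2) * (((1 - Real.exp (-1) : ℝ) : ℂ) * (1 / 2)) = 0 := by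
    linear_combination h1
  have h4 : ((1 - Real.exp (-1) : ℝ) : ℂ) ≠ 0 := by
    have : Real.exp (-1) < 1 := by rw [Real.exp_lt_one_iff]; norm_num
    exact_mod_cast (by linarith : (1 - Real.exp (-1) : ℝ) ≠ 0)
  have h5 := exp_ne 1
  simp only [mul_eq_zero] at h3
  rcases h3 with (h | h) | (h | h)
  · exact h5 h
  · norm_num at h
  · exact h4 h
  · norm_num at h

end Pool.Agent.S02712
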