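import Pool.Statements.S02713
import Pool.Agent.Helper88.SE.P_main
import Pool.Agent.Helper88.SE.P_Em_basic

set_option autoImplicit false
open MeasureTheory
open Pool Pool.MP_1fcdcf_an

namespace Pool.Agent.S02713

/-- For every d ≥ 1 and 0 < s < d, the minimal Riesz s-energy of N distinct points on the unit sphere S^d, minus N² times the continuous energy under normalized surface measure, divided by N^(1+s/d), converges to a real constant. -/
theorem result :
  ∀ (d : ℕ), 1 ≤ d → ∀ s : ℝ, 0 < s → s < (d : ℝ) →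
    ∃ C : ℝ, Filter.Tendsto
      (fun N : ℕ =>
        (sInf {E : ℝ | ∃ x : Fin N → Metric.sphere (0 : EuclideanSpace ℝ (Fin (d+1))) 1,
            Function.Injective x ∧
            E = ∑ i, ∑ j ∈ Finset.univ.erase i,
                  ‖((x i : EuclideanSpace ℝ (Fin (d+1))) - (x j : EuclideanSpace ℝ (Fin (d+1))))‖ ^ (-s)}
         - (N : ℝ) ^ 2 *
            ∫ x, ∫ y, ‖((x : EuclideanSpace ℝ (Fin (d+1))) - (y : EuclideanSpace ℝ (Fin (d+1))))‖ ^ (-s)
              ∂(((volume : Measure (EuclideanSpace ℝ (Fin (d+1)))).toSphere Set.univ)⁻¹ •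
                  (volume : Measure (EuclideanSpace ℝ (Fin (d+1)))).toSphere)
              ∂(((volume : Measure (EuclideanSpace ℝ (Fin (d+1)))).toSphere Set.univ)⁻¹ •
                  (volume : Measure (EuclideanSpace ℝ (Fin (d+1)))).toSphere))
        / (N : ℝ) ^ (1 + s / (d : ℝ)))
      Filter.atTop (nhds C) := by
  intro d hd s hs hsd
  obtain ⟨C, hC⟩ := Pool.Agent.Helper88.SE.main d hd s hs hsd
  refine ⟨C, ?_⟩
  refine hC.congr fun N => ?_
  have h0 : (0 : ℝ) ^ (-s) = 0 := Real.zero_rpow (by linarith [hs])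
  have hE : ∀ x : Fin N → Metric.sphere (0 : EuclideanSpace ℝ (Fin (d+1))) 1,
      Pool.Agent.Helper88.SE.En s x = ∑ i, ∑ j ∈ Finset.univ.erase i,
        ‖((x i : EuclideanSpace ℝ (Fin (d+1))) - (x j : EuclideanSpace ℝ (Fin (d+1))))‖ ^ (-s) := by
    intro x
    unfold Pool.Agent.Helper88.SE.En Pool.Agent.Helper88.SE.K
    refine Finset.sum_congr rfl fun i _ => ?_
    rw [← Finset.add_sum_erase Finset.univ _ (Finset.mem_univ i)]
    rw [dist_self, h0, zero_add]
    refine Finset.sum_congr rfl fun j _ => ?_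
    rw [Subtype.dist_eq, dist_eq_norm]
  have hset : {e : ℝ | ∃ x : Fin N → Pool.Agent.Helper88.SE.S d, Function.Injective x ∧
      e = Pool.Agent.Helper88.SE.En s x} =
      {E : ℝ | ∃ x : Fin N → Metric.sphere (0 : EuclideanSpace ℝ (Fin (d+1))) 1,
            Function.Injective x ∧
            E = ∑ i, ∑ j ∈ Finset.univ.erase i,
                  ‖((x i : EuclideanSpace ℝ (Fin (d+1))) - (x j : EuclideanSpace ℝ (Fin (d+1))))‖ ^ (-s)} := by
    ext e
    constructor
    · rintro ⟨x, hx, rfl⟩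
      exact ⟨x, hx, hE x⟩
    · rintro ⟨x, hx, rfl⟩
      exact ⟨x, hx, (hE x).symm⟩
  have hI : Pool.Agent.Helper88.SE.Ic d s =
      ∫ x, ∫ y, ‖((x : EuclideanSpace ℝ (Fin (d+1))) - (y : EuclideanSpace ℝ (Fin (d+1))))‖ ^ (-s)
              ∂(((volume : Measure (EuclideanSpace ℝ (Fin (d+1)))).toSphere Set.univ)⁻¹ •
                  (volume : Measure (EuclideanSpace ℝ (Fin (d+1)))).toSphere)
              ∂(((volume : Measure (EuclideanSpace ℝ (Fin (d+1)))).toSphere Set.univ)⁻¹ •
                  (volume : Measure (EuclideanSpace ℝ (Fin (d+1)))).toSphere) := by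
    unfold Pool.Agent.Helper88.SE.Ic Pool.Agent.Helper88.SE.K Pool.Agent.Helper88.SE.sg
    rfl
  unfold Pool.Agent.Helper88.SE.F Pool.Agent.Helper88.SE.Em
  rw [hset, hI]

end Pool.Agent.S02713
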