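import Pool.Statements.S02717
import Pool.Agent.H763.StenoFin
import Pool.Agent.H763.StenoMult
import Pool.Agent.H763.StenoAsm

set_option autoImplicit false
open Pool Pool.MP_2001a4_an

namespace Pool.Agent.S02717

open Pool.Agent.H763 Pool.Agent.H763.Steno

theorem fd_conv {A : Type} [NonUnitalCStarAlgebra A] (S : NonUnitalStarSubalgebra ℂ A)
    (h : FiniteDimensional ℂ (Submodule.span ℂ (S : Set A))) : FiniteDimensional ℂ S := by
  have h1 : Submodule.span ℂ (S : Set A) = S.toNonUnitalSubalgebra.toSubmodule :=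
    Submodule.span_eq S.toNonUnitalSubalgebra.toSubmodule
  rw [h1] at h
  exact h

theorem one_mem_of_dense {C : Type} [CStarAlgebra C] (T : ℕ → NonUnitalStarSubalgebra ℂ C)
    (hfd : ∀ k, FiniteDimensional ℂ (T k)) (hd : Dense (⋃ k, (T k : Set C))) :
    ∃ k, (1 : C) ∈ T k := by
  obtain ⟨y, hy, hxy⟩ := Metric.mem_closure_iff.1 (hd (1 : C)) 1 one_pos
  obtain ⟨k, hk⟩ := Set.mem_iUnion.1 hy
  refine ⟨k, ?_⟩
  obtain ⟨u, huT, _, _, hu⟩ := exists_unit (T k)
  have h1 : u * y = y := (hu y hk).1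
  have h2 : (1 - u) * (1 - y) = 1 - u := by
    rw [mul_sub, sub_mul, sub_mul, h1]; simp
  have h3 : 1 - u = 0 := by
    by_contra hne
    have h4 : ‖1 - u‖ ≤ ‖1 - u‖ * ‖1 - y‖ := by
      calc ‖1 - u‖ = ‖(1 - u) * (1 - y)‖ := by rw [h2]
        _ ≤ _ := norm_mul_le _ _
    have h5 : 0 < ‖1 - u‖ := norm_pos_iff.2 hne
    rw [dist_eq_norm] at hxy
    nlinarith
  rw [sub_eq_zero] at h3
  rw [h3]; exact huT

/-- For nonzero AF algebras A and C (C unital, A with no nonzero unital quotient), there is a unital C*-algebra extension 0→A→B→C→0 in which every closed ideal of B contains A or lies inside A. -/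
theorem result :
    ∀ (A : Type) [NonUnitalCStarAlgebra A] (C : Type) [CStarAlgebra C],
      Nontrivial A → Nontrivial C →
      (∃ S : ℕ → NonUnitalStarSubalgebra ℂ A, Monotone S ∧
          (∀ n, FiniteDimensional ℂ (Submodule.span ℂ (S n : Set A))) ∧
          Dense (⋃ n, (S n : Set A))) →
      (∃ S : ℕ → NonUnitalStarSubalgebra ℂ C, Monotone S ∧
          (∀ n, FiniteDimensional ℂ (Submodule.span ℂ (S n : Set C))) ∧
          Dense (⋃ n, (S n : Set C))) →
      (∀ (D : Type) [CStarAlgebra D], Nontrivial D →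
          ∀ φ : A →⋆ₙₐ[ℂ] D, ¬ Function.Surjective φ) →
      ∃ (B : Type) (_ : CStarAlgebra B) (ι : A →⋆ₙₐ[ℂ] B) (π : B →⋆ₐ[ℂ] C),
        Function.Injective ι ∧ Function.Surjective π ∧
        Set.range ι = {b : B | π b = 0} ∧
        ∀ I : TwoSidedIdeal B, IsClosed (I : Set B) →
          Set.range ι ⊆ (I : Set B) ∨ (I : Set B) ⊆ Set.range ι := by
  intro A _ C _ _ hC hS hT0 hA
  obtain ⟨S, hSm, hSfd, hSd⟩ := hS
  obtain ⟨T0, hT0m, hT0fd, hT0d⟩ := hT0
  have hSfd' : ∀ n, FiniteDimensional ℂ (S n) := fun n => fd_conv _ (hSfd n)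
  have hT0fd' : ∀ n, FiniteDimensional ℂ (T0 n) := fun n => fd_conv _ (hT0fd n)
  choose p hpS hps hpp hpu using fun n => exists_unit (S n)
  have hp : UnitSeq S p := ⟨hSm, hSfd', hSd, hpS, hps, hpp, fun n x hx => (hpu n x hx).1,
    fun n x hx => (hpu n x hx).2⟩
  obtain ⟨k0, hk0⟩ := one_mem_of_dense T0 hT0fd' hT0d
  obtain ⟨T, hTm, hTfd, hTd, h1T⟩ : ∃ T : ℕ → NonUnitalStarSubalgebra ℂ C, Monotone T ∧
      (∀ k, FiniteDimensional ℂ (T k)) ∧ Dense (⋃ k, (T k : Set C)) ∧ ∀ k, (1 : C) ∈ T k := by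
    refine ⟨fun k => T0 (k0 + k), fun a b hab => hT0m (by omega), fun k => hT0fd' _, ?_,
      fun k => hT0m (Nat.le_add_right k0 k) hk0⟩
    refine hT0d.mono ?_
    intro x hx
    obtain ⟨k, hk⟩ := Set.mem_iUnion.1 hx
    exact Set.mem_iUnion.2 ⟨k, hT0m (Nat.le_add_left k k0) hk⟩
  have hrep : ∀ k, ∃ (N : ℕ) (ρ : T k →⋆ₙₐ[ℂ] Matrix (Fin (N + 1)) (Fin (N + 1)) ℂ),
      Function.Injective ρ ∧ ρ ⟨1, h1T k⟩ = 1 := fun k =>
    steno_rep (T k) (h1T k) (Dec.fin (dec_of_proj (T k) _ (h1T k) (star_one C) (one_mul 1) rfl))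
  choose Nk ρ hρinj hρ1 using hrep
  let P : ℕ × A → Prop := fun s => s.2 ∈ S s.1 ∧ star s.2 = s.2 ∧ s.2 * s.2 = s.2
  have step : ∀ (k : ℕ) (s : {s // P s}), ∃ (s' : {s // P s})
      (f : Fin (Nk k + 1) → Fin (Nk k + 1) → A), s.1.1 < s'.1.1 ∧
      p s.1.1 * s'.1.2 = p s.1.1 ∧ (∀ a b, star (f a b) = f b a) ∧
      (∀ a b c d, f a b * f c d = if b = c then f a d else 0) ∧
      ∑ a, f a a = s'.1.2 - s.1.2 ∧
      p s.1.1 ∈ Submodule.span ℂ {y : A | ∃ a b : A, y = a * f 0 0 * b} := by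
    rintro k ⟨⟨n, q⟩, hq, hqs, hqq⟩
    obtain ⟨m, q', f, hnm, hq', hq's, hq'q', hpq', hfs, hff, hsum, hfull⟩ :=
      step_layers hA hp n hq hqs hqq (Nk k)
    exact ⟨⟨(m + 1, q'), hSm (Nat.le_succ m) hq', hq's, hq'q'⟩, f, Nat.lt_succ_of_le hnm, hpq',
      hfs, hff, hsum, hfull⟩
  choose nxt f hR using step
  let seq : ℕ → {s // P s} := fun k =>
    Nat.rec ⟨(0, 0), zero_mem _, star_zero _, mul_zero _⟩ (fun k s => nxt k s) k
  have hseq : ∀ k, seq (k + 1) = nxt k (seq k) := fun k => rfl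
  have hRk := fun k => hR k (seq k)
  simp only [← hseq] at hRk
  clear_value seq
  set q : ℕ → A := fun k => (seq k).1.2 with hqdef
  set n : ℕ → ℕ := fun k => (seq k).1.1 with hndef
  have hqS : ∀ k, q k ∈ S (n k) := fun k => (seq k).2.1
  have hqs : ∀ k, star (q k) = q k := fun k => (seq k).2.2.1
  have hqq : ∀ k, q k * q k = q k := fun k => (seq k).2.2.2
  have hn : ∀ k, n k < n (k + 1) := fun k => (hRk k).1
  have hpq : ∀ k, p (n k) * q (k + 1) = p (n k) := fun k => (hRk k).2.1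
  have hnk : ∀ k, k ≤ n k := by
    intro k
    induction k with
    | zero => exact Nat.zero_le _
    | succ k ih => exact Nat.succ_le_of_lt (lt_of_le_of_lt ih (hn k))
  have hmono : ∀ k, q k * q (k + 1) = q k := by
    intro k
    have h1 : q k * p (n k) = q k := hp.right _ _ (hqS k)
    rw [← h1, mul_assoc, hpq]
  have hqp : ∀ k, q (k + 1) * p (n k) = p (n k) := by
    intro k
    have := congrArg star (hpq k)
    rwa [star_mul, hqs, hp.star] at this
  have hfix : ∀ j, ∀ a ∈ S j, ∀ k, j < k → q k * a = a := by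
    intro j a ha k hk
    obtain ⟨i, rfl⟩ : ∃ i, k = i + 1 := ⟨k - 1, by omega⟩
    have h1 : p (n i) * a = a := hp.left _ _ (hSm (le_trans (by omega) (hnk i)) ha)
    rw [← h1, ← mul_assoc, hqp]
  have happ : ∀ a : A, Filter.Tendsto (fun k => q k * a) Filter.atTop (nhds a) := by
    intro a
    rw [Metric.tendsto_atTop]
    intro ε hε
    obtain ⟨y, hy, hay⟩ := Metric.mem_closure_iff.1 (hSd a) (ε / 2) (by linarith)
    obtain ⟨j, hj⟩ := Set.mem_iUnion.1 hy
    refine ⟨j + 1, fun k hk => ?_⟩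
    rw [dist_eq_norm] at hay ⊢
    have h1 : q k * a - a = q k * (a - y) - (a - y) := by
      rw [mul_sub, hfix j y hj k (by omega)]; abel
    have h2 : ‖q k‖ ≤ 1 := Pool.Agent.H763.Steno.proj_norm_le (hqs k) (hqq k)
    calc ‖q k * a - a‖ = ‖q k * (a - y) - (a - y)‖ := by rw [h1]
      _ ≤ ‖q k * (a - y)‖ + ‖a - y‖ := norm_sub_le _ _
      _ ≤ ‖q k‖ * ‖a - y‖ + ‖a - y‖ := by gcongr; exact norm_mul_le _ _
      _ ≤ 1 * ‖a - y‖ + ‖a - y‖ := by gcongr
      _ < ε := by linarith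
  let ψ : ∀ k, T k →⋆ₙₐ[ℂ] A := fun k =>
    (munit (f k (seq k)) (hRk k).2.2.1 (hRk k).2.2.2.1).comp (ρ k)
  have hψ : ∀ k c, ψ k c = munit (f k (seq k)) (hRk k).2.2.1 (hRk k).2.2.2.1 (ρ k c) :=
    fun k c => rfl
  have hψ1 : ∀ k, ψ k ⟨1, h1T k⟩ = q (k + 1) - q k := by
    intro k
    rw [hψ, hρ1, munit_apply, ← (hRk k).2.2.2.2.1]
    refine Finset.sum_congr rfl fun a _ => ?_
    rw [Finset.sum_eq_single a]
    · simp
    · intro b _ hb
      rw [Matrix.one_apply_ne (Ne.symm hb), zero_smul]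
    · intro h; exact absurd (Finset.mem_univ a) h
  have hfull : ∀ k, ∀ c : T k, c ≠ 0 →
      q k ∈ Submodule.span ℂ {y : A | ∃ a b : A, y = a * ψ k c * b} := by
    intro k c hc
    set J := Submodule.span ℂ {y : A | ∃ a b : A, y = a * ψ k c * b} with hJ
    have hJl : ∀ a x : A, x ∈ J → a * x ∈ J := by
      intro a x hx
      rw [hJ] at hx
      induction hx using Submodule.span_induction with
      | mem y hy =>
        obtain ⟨b, c, rfl⟩ := hy
        exact Submodule.subset_span ⟨a * b, c, by simp only [mul_assoc]⟩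
      | zero => rw [mul_zero]; exact Submodule.zero_mem _
      | add y z _ _ h1 h2 => rw [mul_add]; exact Submodule.add_mem _ h1 h2
      | smul c y _ h1 => rw [mul_smul_comm]; exact Submodule.smul_mem _ _ h1
    have hJr : ∀ a x : A, x ∈ J → x * a ∈ J := by
      intro a x hx
      rw [hJ] at hx
      induction hx using Submodule.span_induction with
      | mem y hy =>
        obtain ⟨b, c, rfl⟩ := hy
        exact Submodule.subset_span ⟨b, c * a, by simp only [mul_assoc]⟩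
      | zero => rw [zero_mul]; exact Submodule.zero_mem _
      | add y z _ _ h1 h2 => rw [add_mul]; exact Submodule.add_mem _ h1 h2
      | smul c y _ h1 => rw [smul_mul_assoc]; exact Submodule.smul_mem _ _ h1
    have hρc : ρ k c ≠ 0 := by
      intro h0
      exact hc (hρinj k (by rw [h0, map_zero]))
    obtain ⟨a, b, hab⟩ : ∃ a b, ρ k c a b ≠ 0 := by
      by_contra hcon
      push Not at hcon
      exact hρc (by ext a b; simpa using hcon a b)
    have hf0 : f k (seq k) 0 0 ∈ J := by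
      have h1 : f k (seq k) 0 a * ψ k c * f k (seq k) b 0 = ρ k c a b • f k (seq k) 0 0 := by
        rw [hψ, munit_entry]
      have h2 : ρ k c a b • f k (seq k) 0 0 ∈ J := by
        rw [← h1]
        exact Submodule.subset_span ⟨_, _, rfl⟩
      have h3 := Submodule.smul_mem J (ρ k c a b)⁻¹ h2
      rwa [smul_smul, inv_mul_cancel₀ hab, one_smul] at h3
    have hpJ : p (n k) ∈ J := by
      have h1 := (hRk k).2.2.2.2.2
      have h2 : Submodule.span ℂ {y : A | ∃ a b : A, y = a * f k (seq k) 0 0 * b} ≤ J := by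
        apply Submodule.span_le.2
        rintro _ ⟨a, b, rfl⟩
        exact hJr _ _ (hJl _ _ hf0)
      exact h2 h1
    have h1 : q k * p (n k) = q k := hp.right _ _ (hqS k)
    rw [← h1]
    exact hJl _ _ hpJ
  obtain ⟨Ψ, hΨ, hΨ1⟩ := steno_mult q hqs hqq hmono happ T hTm hTfd h1T ψ hψ1
  exact steno_assemble q hqs hqq hmono happ T hTm hTfd h1T hTd ψ hψ1 hfull Ψ hΨ hΨ1
    (fun R hR => by
      have := hR
      exact exists_unit R)

end Pool.Agent.S02717
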