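import Pool.Statements.S02731
import Pool.Agent.Helper405.Wc.BrAD

set_option autoImplicit false
open Pool Pool.MP_21693b_an

namespace Pool.Agent.S02731

open Complex Set Filter Metric Topology MeasureTheory
open scoped ENNReal
open Pool.Agent.Helper405.Wc

/-- non-integrability of `log log (1 / W)` near `0` gives divergence of the integral -/
theorem div_of_not_int {W : ℝ → ℝ} (hpos : ∀ t ∈ Ioc (0 : ℝ) 1, 0 < W t)
    (hmono : MonotoneOn W (Ioc 0 1)) (hlim : Tendsto W (𝓝[>] 0) (𝓝 0))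
    (hni : ∀ δ : ℝ, 0 < δ → ¬ IntegrableOn
        (fun t : ℝ => Real.log (Real.log (1 / W t))) (Ioo (0 : ℝ) δ)) :
    ∃ a ∈ Ioc (0 : ℝ) 1, W a < 1 ∧
      ∫⁻ t in Ioo 0 a, ENNReal.ofReal (Real.log (Real.log (1 / W t))) = ∞ := by
  have he : 0 < Real.exp (-1) := Real.exp_pos _
  have hev : ∀ᶠ t in 𝓝[>] (0 : ℝ), W t < Real.exp (-1) := hlim.eventually (gt_mem_nhds he)
  obtain ⟨δ, hδ, hsub⟩ := mem_nhdsGT_iff_exists_Ioo_subset.1 hev
  have hδ0 : 0 < δ := hδ
  obtain ⟨a, ha⟩ : ∃ a, a = min (δ / 2) 1 := ⟨_, rfl⟩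
  have ha0 : 0 < a := by rw [ha]; exact lt_min (by linarith) one_pos
  have ha1 : a ≤ 1 := by rw [ha]; exact min_le_right _ _
  have haδ : a < δ := by
    rw [ha]; exact (min_le_left _ _).trans_lt (by linarith)
  have hWe : ∀ t ∈ Ioc 0 a, W t < Real.exp (-1) := fun t ht => hsub ⟨ht.1, ht.2.trans_lt haδ⟩
  have he1 : Real.exp (-1) < 1 := by rw [Real.exp_lt_one_iff]; norm_num
  refine ⟨a, ⟨ha0, ha1⟩, (hWe a ⟨ha0, le_rfl⟩).trans he1, ?_⟩
  by_contra hne
  apply hni a ha0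
  have hsubs : Ioo 0 a ⊆ Ioc (0 : ℝ) 1 := fun t ht => ⟨ht.1, ht.2.le.trans ha1⟩
  have hWm : AEMeasurable W (volume.restrict (Ioo 0 a)) :=
    aemeasurable_restrict_of_monotoneOn measurableSet_Ioo (hmono.mono hsubs)
  have hm : AEMeasurable (fun t : ℝ => Real.log (Real.log (1 / W t))) (volume.restrict (Ioo 0 a)) := by
    have h1 : AEMeasurable (fun t : ℝ => 1 / W t) (volume.restrict (Ioo 0 a)) := by
      simp only [one_div]
      exact hWm.inv
    exact Real.measurable_log.comp_aemeasurable (Real.measurable_log.comp_aemeasurable h1)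
  have hnn : ∀ t ∈ Ioo 0 a, 0 ≤ Real.log (Real.log (1 / W t)) := by
    intro t ht
    have hWt := hpos t (hsubs ht)
    have h1 := hWe t ⟨ht.1, ht.2.le⟩
    apply Real.log_nonneg
    rw [one_div, Real.log_inv]
    have h2 := (Real.log_lt_iff_lt_exp hWt).2 h1
    linarith
  refine ⟨hm.aestronglyMeasurable, ?_⟩
  rw [hasFiniteIntegral_iff_norm]
  refine lt_of_le_of_lt (le_of_eq ?_) (lt_top_iff_ne_top.2 hne)
  refine setLIntegral_congr_fun measurableSet_Ioo fun t ht => ?_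
  simp only [Real.norm_of_nonneg (hnn t ht)]

/-- There is r>0 such that for every bounded simply connected Ω, conformal φ onto the disk, and weight W(1-∣φ∣) with W positive, increasing, →0 at 0 and divergent loglog integral, polynomials are dense in the analytic functions of weighted L^p, 1≤p<3+r. -/
theorem result :
  ∃ r : ℝ, 0 < r ∧ ∀ (Ω : Set ℂ) (φ : ℂ → ℂ) (W : ℝ → ℝ),
    IsOpen Ω → Bornology.IsBounded Ω → SimplyConnectedSpace ↥Ω →
    DifferentiableOn ℂ φ Ω → Set.BijOn φ Ω (Metric.ball (0 : ℂ) 1) →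
    (∀ t ∈ Set.Ioc (0 : ℝ) 1, 0 < W t) → MonotoneOn W (Set.Ioc (0 : ℝ) 1) →
    (∃ M : ℝ, ∀ t ∈ Set.Ioc (0 : ℝ) 1, W t ≤ M) →
    Filter.Tendsto W (nhdsWithin (0 : ℝ) (Set.Ioi 0)) (nhds 0) →
    (∀ δ : ℝ, 0 < δ → ¬ MeasureTheory.IntegrableOn
        (fun t : ℝ => Real.log (Real.log (1 / W t))) (Set.Ioo (0 : ℝ) δ)) →
    ∀ p : ℝ, 1 ≤ p → p < 3 + r →
    ∀ f : ℂ → ℂ, DifferentiableOn ℂ f Ω →
      MeasureTheory.MemLp f (ENNReal.ofReal p)
        (((MeasureTheory.volume : MeasureTheory.Measure ℂ).restrict Ω).withDensity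
          (fun z => ENNReal.ofReal (W (1 - ‖φ z‖)))) →
      ∀ ε : ℝ, 0 < ε → ∃ P : Polynomial ℂ,
        MeasureTheory.eLpNorm (fun z => f z - P.eval z) (ENNReal.ofReal p)
          (((MeasureTheory.volume : MeasureTheory.Measure ℂ).restrict Ω).withDensity
            (fun z => ENNReal.ofReal (W (1 - ‖φ z‖)))) < ENNReal.ofReal ε := by
  refine ⟨1, one_pos, ?_⟩
  intro Ω φ W hO hbdd hsc hφ hbij hWpos hWmono _ hWlim hni p hp1 _ f hf hfL ε hε
  obtain ⟨R, hR0, hsub⟩ : ∃ R : ℝ, 0 < R ∧ Ω ⊆ ball 0 R := by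
    obtain ⟨R, hR⟩ := hbdd.subset_ball 0
    exact ⟨max R 1, lt_max_of_lt_right one_pos, hR.trans (ball_subset_ball (le_max_left _ _))⟩
  have hdata : Br.Data Ω φ (Function.invFunOn φ Ω) W R := by
    refine ⟨hO, ?_, hφ, hbij, ?_, rfl, hR0, hsub, hWpos, hWmono, hWlim,
      div_of_not_int hWpos hWmono hWlim hni⟩
    · exact hsc
    · intro z hz
      exact Br.deriv_ne_zero hO hφ hbij.injOn hz
  have hp0 : 0 < p := by linarith
  have hpe0 : ENNReal.ofReal p ≠ 0 := by simpa using hp0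
  obtain ⟨w, hw⟩ : ∃ w : ℂ → ℝ≥0∞, w = fun z => ENNReal.ofReal (W (1 - ‖φ z‖)) := ⟨_, rfl⟩
  have hwm : AEMeasurable w (volume.restrict Ω) := by rw [hw]; exact hdata.wmeas
  rw [← hw] at hfL ⊢
  have hnorm : ∀ h : ℂ → ℂ, AEMeasurable h (volume.restrict Ω) →
      eLpNorm h (ENNReal.ofReal p) ((volume.restrict Ω).withDensity w) =
        (∫⁻ z in Ω, ‖h z‖ₑ ^ p * w z) ^ (1 / p) := by
    intro h hh
    rw [eLpNorm_eq_lintegral_rpow_enorm_toReal hpe0 ENNReal.ofReal_ne_top,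
      ENNReal.toReal_ofReal hp0.le]
    congr 1
    rw [lintegral_withDensity_eq_lintegral_mul₀ hwm (hh.enorm.pow_const p)]
    simp only [Pi.mul_apply, mul_comm]
  have hpm : ∀ P : Polynomial ℂ, AEMeasurable (fun z : ℂ => P.eval z) (volume.restrict Ω) :=
    fun P => (Polynomial.continuous P).measurable.aemeasurable
  have hfm : AEMeasurable f (volume.restrict Ω) := hf.continuousOn.aemeasurable hO.measurableSet
  have hfin : ∫⁻ z in Ω, ‖f z‖ₑ ^ p * w z ≠ ∞ := by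
    have e1 := hfL.2
    rw [hnorm f hfm] at e1
    intro htop
    rw [htop, ENNReal.top_rpow_of_pos (by positivity)] at e1
    exact lt_irrefl _ e1
  have hεp : 0 < ENNReal.ofReal ε ^ p :=
    ENNReal.rpow_pos_of_nonneg (ENNReal.ofReal_pos.2 hε) hp0.le
  rw [hw] at hfin
  obtain ⟨P, hP⟩ := hdata.all hp1 f hf hfin (ENNReal.ofReal ε ^ p) hεp
  refine ⟨P, ?_⟩
  have hsm : AEMeasurable (fun z : ℂ => f z - P.eval z) (volume.restrict Ω) := hfm.sub (hpm P)
  rw [hnorm _ hsm, hw]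
  have := ENNReal.rpow_lt_rpow hP (show (0 : ℝ) < 1 / p by positivity)
  rwa [← ENNReal.rpow_mul, mul_one_div_cancel hp0.ne', ENNReal.rpow_one] at this

end Pool.Agent.S02731
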