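import Pool.Statements.S02738
import Pool.Agent.Helper459.ArcFin

set_option autoImplicit false
open Pool Pool.MP_21f624_an

namespace Pool.Agent.S02738

/-- The negation of the preceding statement: For n≥2, if γ is a Jordan arc in ℂ^n whose every coordinate projection has planar measure zero, then every continuous function on γ can be uniformly approximated on γ by polynomials in n complex variables. -/
theorem result :
    ¬ (∀ n : ℕ, 2 ≤ n →
      ∀ g : ℝ → (Fin n → ℂ),
        ContinuousOn g (Set.Icc (0:ℝ) 1) →
        Set.InjOn g (Set.Icc (0:ℝ) 1) →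
        (∀ j : Fin n,
          (MeasureTheory.volume : MeasureTheory.Measure ℂ)
            ((fun z : Fin n → ℂ => z j) '' (g '' Set.Icc (0:ℝ) 1)) = 0) →
        ∀ f : (Fin n → ℂ) → ℂ,
          ContinuousOn f (g '' Set.Icc (0:ℝ) 1) →
          ∀ ε : ℝ, 0 < ε →
            ∃ p : MvPolynomial (Fin n) ℂ,
              ∀ z ∈ g '' Set.Icc (0:ℝ) 1, ‖f z - MvPolynomial.eval z p‖ < ε) := by
  exact Pool.Agent.Helper459.Arc.main_neg

end Pool.Agent.S02738
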