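import Pool.Statements.S02740
import Pool.Agent.Helper88.Final

set_option autoImplicit false
open Pool Pool.MP_223851_an

namespace Pool.Agent.S02740

/-- The negation of the preceding statement: For every bounded convex open set in R^n, with Robin eigenvalues defined by min-max over C^1 functions (boundary term via (n-1)-Hausdorff measure), the gap between the second and first eigenvalue strictly increases in the Robin parameter for positive parameters. -/
theorem result :
    ¬ (∀ (n : ℕ), 1 ≤ n →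
    ∀ (Ω : Set (EuclideanSpace ℝ (Fin n))),
      IsOpen Ω → Convex ℝ Ω → Bornology.IsBounded Ω → Ω.Nonempty →
    ∀ (lam : ℝ → ℕ → ℝ),
      (∀ (α : ℝ) (k : ℕ), lam α k =
        sInf {r : ℝ | ∃ V : Submodule ℝ (EuclideanSpace ℝ (Fin n) → ℝ),
          Module.finrank ℝ V = k ∧
          (∀ v ∈ V, ContDiff ℝ 1 v) ∧
          (∀ v ∈ V, v ≠ 0 → 0 < ∫ x in Ω, v x ^ 2) ∧
          r = sSup {q : ℝ | ∃ v ∈ V, v ≠ 0 ∧
            q = ((∫ x in Ω, ‖fderiv ℝ v x‖ ^ 2) +
                  α * ∫ x in frontier Ω, v x ^ 2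
                    ∂(MeasureTheory.Measure.hausdorffMeasure ((n : ℝ) - 1))) /
                (∫ x in Ω, v x ^ 2)}}) →
      StrictMonoOn (fun α : ℝ => lam α 2 - lam α 1) (Set.Ioi (0 : ℝ))) := by
  intro h
  obtain ⟨a, ε, α, ha, hε, hα0, hα1, hlt⟩ := Pool.Agent.Helper88.Robin.main
  have h2 : (((3 : ℕ) : ℝ) - 1) = 2 := by norm_num
  have hmono := h 3 (by norm_num) (Pool.Agent.Helper88.Robin.Om a ε)
    (Pool.Agent.Helper88.Robin.Om_isOpen a ε) (Pool.Agent.Helper88.Robin.Om_convex hε)
    (Pool.Agent.Helper88.Robin.Om_bounded ha) (Pool.Agent.Helper88.Robin.Om_nonempty ha hε)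
    (fun β k => Pool.Agent.Helper88.Robin.lamf (Pool.Agent.Helper88.Robin.mu a ε)
      (Pool.Agent.Helper88.Robin.nu a ε) β k)
    (by
      intro β k
      rw [h2]
      rfl)
  have := hmono (Set.mem_Ioi.mpr hα0) (Set.mem_Ioi.mpr one_pos) hα1
  exact absurd hlt (not_lt.mpr this.le)

end Pool.Agent.S02740
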