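import Pool.Statements.S02742

set_option autoImplicit false
open Pool Pool.MP_22f2dc_an

namespace Pool.Agent.S02742

open MeasureTheory Filter Topology Asymptotics

/-- The plane. -/
abbrev E2 : Type := EuclideanSpace ℝ (Fin 2)

/-- The positive part of a real number. -/
noncomputable def sp (t : ℝ) : ℝ := max t 0

lemma sp_nonneg (t : ℝ) : 0 ≤ sp t := le_max_right _ _

lemma sp_le_abs (t : ℝ) : sp t ≤ |t| := max_le (le_abs_self t) (abs_nonneg t)

lemma sp_neg {t : ℝ} (h : t ≤ 0) : sp t = 0 := max_eq_right h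

lemma sp_pos {t : ℝ} (h : 0 ≤ t) : sp t = t := max_eq_left h

lemma continuous_sp : Continuous sp := continuous_id.max continuous_const

lemma sp_lip (s t : ℝ) : |sp s - sp t| ≤ |s - t| := by
  unfold sp
  exact (abs_max_sub_max_le_abs s t 0)

lemma hasDerivAt_sp_pow (n : ℕ) (t : ℝ) :
    HasDerivAt (fun x => sp x ^ (n + 2)) (((n : ℝ) + 2) * sp t ^ (n + 1)) t := by
  rcases lt_trichotomy t 0 with h | h | h
  · have h1 : (fun x => sp x ^ (n + 2)) =ᶠ[𝓝 t] fun _ => (0 : ℝ) := by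
      filter_upwards [Iio_mem_nhds h] with x hx
      rw [sp_neg (le_of_lt hx)]
      simp
    have h2 : ((n : ℝ) + 2) * sp t ^ (n + 1) = 0 := by
      rw [sp_neg h.le]
      simp
    rw [h2]
    exact (hasDerivAt_const t (0 : ℝ)).congr_of_eventuallyEq h1
  · subst h
    have h2 : ((n : ℝ) + 2) * sp 0 ^ (n + 1) = 0 := by
      rw [sp_neg le_rfl]
      simp
    rw [h2, hasDerivAt_iff_isLittleO_nhds_zero]
    have h3 : (fun h : ℝ => sp (0 + h) ^ (n + 2) - sp 0 ^ (n + 2) - h • (0 : ℝ))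
        =O[𝓝 0] fun h : ℝ => h ^ (n + 2) := by
      apply IsBigO.of_bound 1
      filter_upwards with h
      rw [sp_neg (le_refl (0 : ℝ))]
      simp only [zero_add, ne_eq, Nat.add_eq_zero_iff, OfNat.ofNat_ne_zero, and_false,
        not_false_eq_true, zero_pow, sub_zero, smul_eq_mul, mul_zero, norm_pow, Real.norm_eq_abs,
        one_mul]
      rw [abs_of_nonneg (sp_nonneg h)]
      exact pow_le_pow_left₀ (sp_nonneg h) (sp_le_abs h) _
    refine h3.trans_isLittleO ?_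
    have h4 : (fun h : ℝ => h ^ (n + 2)) =o[𝓝 0] fun h : ℝ => h ^ 1 :=
      isLittleO_pow_pow (by omega)
    simpa using h4
  · have h1 : (fun x => sp x ^ (n + 2)) =ᶠ[𝓝 t] fun x => x ^ (n + 2) := by
      filter_upwards [Ioi_mem_nhds h] with x hx
      rw [sp_pos (le_of_lt hx)]
    rw [sp_pos h.le]
    have h3 := (hasDerivAt_pow (n + 2) t)
    have h4 : (((n + 2 : ℕ) : ℝ)) * t ^ (n + 2 - 1) = ((n : ℝ) + 2) * t ^ (n + 1) := by
      push_cast
      rfl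
    rw [h4] at h3
    exact h3.congr_of_eventuallyEq h1

lemma contDiff_sp_pow (n : ℕ) : ContDiff ℝ 1 (fun x => sp x ^ (n + 2)) := by
  rw [contDiff_one_iff_deriv]
  refine ⟨fun x => (hasDerivAt_sp_pow n x).differentiableAt, ?_⟩
  have : deriv (fun x => sp x ^ (n + 2)) = fun t => ((n : ℝ) + 2) * sp t ^ (n + 1) := by
    ext t
    exact (hasDerivAt_sp_pow n t).deriv
  rw [this]
  exact continuous_const.mul (continuous_sp.pow _)

/-- The coefficient of the equation (upper left entry). -/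
noncomputable def cf (z : E2) : ℝ := 1 / (1 + 3 * sp (z 0) * (z 1 - sp (z 0) ^ 3))

/-- The second solution. -/
noncomputable def vv (z : E2) : ℝ :=
  -(3 * sp (z 0) ^ 2 * z 1 ^ 2 / 2 + (z 0 - 6 * sp (z 0) ^ 5 / 5) * z 1
    - sp (z 0) ^ 4 / 4 + 3 * sp (z 0) ^ 8 / 8)

/-- The stream function of the second solution. -/
noncomputable def VV (z : E2) : ℝ :=
  -(z 1 ^ 2) / 2 + sp (z 0) ^ 3 * z 1 + z 0 ^ 2 / 2 - sp (z 0) ^ 6 / 5

lemma hasFDerivAt_coord (i : Fin 2) (z : E2) :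
    HasFDerivAt (fun z : E2 => z i) (EuclideanSpace.proj i : E2 →L[ℝ] ℝ) z :=
  (EuclideanSpace.proj i : E2 →L[ℝ] ℝ).hasFDerivAt

lemma hasFDerivAt_sp (n : ℕ) (z : E2) :
    HasFDerivAt (fun z : E2 => sp (z 0) ^ (n + 2))
      ((((n : ℝ) + 2) * sp (z 0) ^ (n + 1)) • (EuclideanSpace.proj 0 : E2 →L[ℝ] ℝ)) z := by
  have h := HasDerivAt.comp_hasFDerivAt (h₂ := fun x => sp x ^ (n + 2)) z
    (hasDerivAt_sp_pow n (z 0)) (hasFDerivAt_coord 0 z)
  exact h

lemma hasFDerivAt_VV (z : E2) :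
    HasFDerivAt VV
      ((3 * sp (z 0) ^ 2 * z 1 + z 0 - 6 * sp (z 0) ^ 5 / 5) • (EuclideanSpace.proj 0 : E2 →L[ℝ] ℝ)
        + (-(z 1) + sp (z 0) ^ 3) • (EuclideanSpace.proj 1 : E2 →L[ℝ] ℝ)) z := by
  have h0 := hasFDerivAt_coord 0 z
  have h1 := hasFDerivAt_coord 1 z
  have s3 := hasFDerivAt_sp 1 z
  have s6 := hasFDerivAt_sp 4 z
  have h := ((((h1.pow 2).neg.const_mul (1/2 : ℝ)).add (s3.mul h1)).add
    ((h0.pow 2).const_mul (1/2 : ℝ))).sub (s6.const_mul (1/5 : ℝ))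
  have hf : VV = fun z : E2 => (1/2 : ℝ) * -(z 1 ^ 2) + sp (z 0) ^ (1 + 2) * z 1
      + (1/2 : ℝ) * z 0 ^ 2 - (1/5 : ℝ) * sp (z 0) ^ (4 + 2) := by
    ext w
    unfold VV
    ring
  rw [hf]
  refine h.congr_fderiv ?_
  ext w
  simp
  ring

lemma hasFDerivAt_vv (z : E2) :
    HasFDerivAt vv
      (-(3 * sp (z 0) * z 1 ^ 2 + (1 - 6 * sp (z 0) ^ 4) * z 1 - sp (z 0) ^ 3 + 3 * sp (z 0) ^ 7) •
          (EuclideanSpace.proj 0 : E2 →L[ℝ] ℝ)
        + (-(3 * sp (z 0) ^ 2 * z 1 + z 0 - 6 * sp (z 0) ^ 5 / 5)) •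
          (EuclideanSpace.proj 1 : E2 →L[ℝ] ℝ)) z := by
  have h0 := hasFDerivAt_coord 0 z
  have h1 := hasFDerivAt_coord 1 z
  have s2 := hasFDerivAt_sp 0 z
  have s5 := hasFDerivAt_sp 3 z
  have s4 := hasFDerivAt_sp 2 z
  have s8 := hasFDerivAt_sp 6 z
  have h := ((((s2.mul (h1.pow 2)).const_mul (3/2 : ℝ)).add
    ((h0.sub (s5.const_mul (6/5 : ℝ))).mul h1)).sub (s4.const_mul (1/4 : ℝ))).add
    (s8.const_mul (3/8 : ℝ)) |>.neg
  have hf : vv = fun z : E2 => -((3/2 : ℝ) * (sp (z 0) ^ (0 + 2) * z 1 ^ 2)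
      + (z 0 - (6/5 : ℝ) * sp (z 0) ^ (3 + 2)) * z 1 - (1/4 : ℝ) * sp (z 0) ^ (2 + 2)
      + (3/8 : ℝ) * sp (z 0) ^ (6 + 2)) := by
    ext w
    unfold vv
    ring
  rw [hf]
  refine h.congr_fderiv ?_
  ext w
  simp
  ring

/-- Basis vectors. -/
noncomputable abbrev bv (i : Fin 2) : E2 := EuclideanSpace.single i (1 : ℝ)

lemma fderiv_VV_0 (z : E2) :
    fderiv ℝ VV z (bv 0) = 3 * sp (z 0) ^ 2 * z 1 + z 0 - 6 * sp (z 0) ^ 5 / 5 := by
  rw [(hasFDerivAt_VV z).fderiv]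
  simp [bv]

lemma fderiv_VV_1 (z : E2) :
    fderiv ℝ VV z (bv 1) = -(z 1) + sp (z 0) ^ 3 := by
  rw [(hasFDerivAt_VV z).fderiv]
  simp [bv]

lemma fderiv_vv_0 (z : E2) :
    fderiv ℝ vv z (bv 0) =
      -(3 * sp (z 0) * z 1 ^ 2 + (1 - 6 * sp (z 0) ^ 4) * z 1 - sp (z 0) ^ 3 + 3 * sp (z 0) ^ 7) := by
  rw [(hasFDerivAt_vv z).fderiv]
  simp [bv]

lemma fderiv_vv_1 (z : E2) :
    fderiv ℝ vv z (bv 1) = -(3 * sp (z 0) ^ 2 * z 1 + z 0 - 6 * sp (z 0) ^ 5 / 5) := by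
  rw [(hasFDerivAt_vv z).fderiv]
  simp [bv]

lemma contDiff_coord (i : Fin 2) : ContDiff ℝ 1 (fun z : E2 => z i) :=
  (EuclideanSpace.proj i : E2 →L[ℝ] ℝ).contDiff

lemma contDiff_spc (n : ℕ) : ContDiff ℝ 1 (fun z : E2 => sp (z 0) ^ (n + 2)) :=
  (contDiff_sp_pow n).comp (contDiff_coord 0)

lemma contDiff_VV : ContDiff ℝ 1 VV := by
  have h0 := contDiff_coord 0
  have h1 := contDiff_coord 1
  have s3 := contDiff_spc 1
  have s6 := contDiff_spc 4
  have hf : VV = fun z : E2 => (1/2 : ℝ) * -(z 1 ^ 2) + sp (z 0) ^ (1 + 2) * z 1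
      + (1/2 : ℝ) * z 0 ^ 2 - (1/5 : ℝ) * sp (z 0) ^ (4 + 2) := by
    ext w
    unfold VV
    ring
  rw [hf]
  exact (((contDiff_const.mul (h1.pow 2).neg).add (s3.mul h1)).add
    (contDiff_const.mul (h0.pow 2))).sub (contDiff_const.mul s6)

lemma contDiff_vv : ContDiff ℝ 1 vv := by
  have h0 := contDiff_coord 0
  have h1 := contDiff_coord 1
  have s2 := contDiff_spc 0
  have s5 := contDiff_spc 3
  have s4 := contDiff_spc 2
  have s8 := contDiff_spc 6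
  have hf : vv = fun z : E2 => -((3/2 : ℝ) * (sp (z 0) ^ (0 + 2) * z 1 ^ 2)
      + (z 0 - (6/5 : ℝ) * sp (z 0) ^ (3 + 2)) * z 1 - (1/4 : ℝ) * sp (z 0) ^ (2 + 2)
      + (3/8 : ℝ) * sp (z 0) ^ (6 + 2)) := by
    ext w
    unfold vv
    ring
  rw [hf]
  exact ((((contDiff_const.mul (s2.mul (h1.pow 2))).add
    ((h0.sub (contDiff_const.mul s5)).mul h1)).sub (contDiff_const.mul s4)).add
    (contDiff_const.mul s8)).neg

/-- Integration by parts: the null Lagrangian identity. -/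
lemma int_null (V φ : E2 → ℝ) (hV : ContDiff ℝ 1 V)
    (hφ : ContDiff ℝ ((⊤ : ℕ∞) : WithTop ℕ∞) φ) (hc : HasCompactSupport φ) :
    ∫ x, (fderiv ℝ V x (bv 1) * fderiv ℝ φ x (bv 0)
      - fderiv ℝ V x (bv 0) * fderiv ℝ φ x (bv 1)) = 0 := by
  have hd : ∀ i : Fin 2, ContDiff ℝ ((⊤ : ℕ∞) : WithTop ℕ∞) (fun x => fderiv ℝ φ x (bv i)) := by
    intro i
    exact (hφ.fderiv_right (m := ((⊤ : ℕ∞) : WithTop ℕ∞)) (by simp)).clm_apply contDiff_const
  have hcs : ∀ i : Fin 2, HasCompactSupport (fun x => fderiv ℝ φ x (bv i)) := by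
    intro i
    exact hc.fderiv_apply (𝕜 := ℝ) (bv i)
  have hVc : Continuous V := hV.continuous
  have hVd : ∀ i : Fin 2, Continuous (fun x => fderiv ℝ V x (bv i)) := by
    intro i
    exact (hV.continuous_fderiv (by simp)).clm_apply continuous_const
  have hdc : ∀ i : Fin 2, Continuous (fun x => fderiv ℝ φ x (bv i)) := fun i => (hd i).continuous
  have hddc : ∀ i j : Fin 2, Continuous
      (fun x => fderiv ℝ (fun y => fderiv ℝ φ y (bv i)) x (bv j)) := by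
    intro i j
    exact ((hd i).continuous_fderiv (by simp)).clm_apply continuous_const
  have hddcs : ∀ i j : Fin 2, HasCompactSupport
      (fun x => fderiv ℝ (fun y => fderiv ℝ φ y (bv i)) x (bv j)) := by
    intro i j
    exact (hcs i).fderiv_apply (𝕜 := ℝ) (bv j)
  have ibp : ∀ i j : Fin 2, ∫ x, (fun y => fderiv ℝ φ y (bv i)) x * fderiv ℝ V x (bv j)
      = - ∫ x, fderiv ℝ (fun y => fderiv ℝ φ y (bv i)) x (bv j) * V x := by
    intro i j
    apply integral_mul_fderiv_eq_neg_fderiv_mul_of_integrable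
    · exact ((hddc i j).mul hVc).integrable_of_hasCompactSupport ((hddcs i j).mul_right)
    · exact ((hdc i).mul (hVd j)).integrable_of_hasCompactSupport ((hcs i).mul_right)
    · exact ((hdc i).mul hVc).integrable_of_hasCompactSupport ((hcs i).mul_right)
    · intro x _
      exact ((hd i).differentiable (by simp)) x
    · intro x _
      exact (hV.differentiable (by simp)) x
  have hsymm : ∀ x, fderiv ℝ (fun y => fderiv ℝ φ y (bv 0)) x (bv 1)
      = fderiv ℝ (fun y => fderiv ℝ φ y (bv 1)) x (bv 0) := by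
    intro x
    have hdiff : DifferentiableAt ℝ (fderiv ℝ φ) x :=
      ((hφ.fderiv_right (m := 1) (WithTop.coe_le_coe.mpr le_top)).differentiable (by simp)) x
    have e1 : ∀ i j : Fin 2, fderiv ℝ (fun y => fderiv ℝ φ y (bv i)) x (bv j)
        = fderiv ℝ (fderiv ℝ φ) x (bv j) (bv i) := by
      intro i j
      rw [fderiv_clm_apply hdiff (differentiableAt_const _)]
      simp
    rw [e1, e1]
    have hs : IsSymmSndFDerivAt ℝ φ x :=
      (hφ.contDiffAt).isSymmSndFDerivAt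
        (by rw [minSmoothness_of_isRCLikeNormedField]; exact WithTop.coe_le_coe.mpr le_top)
    exact hs.eq _ _
  rw [integral_sub]
  · have i1 := ibp 0 1
    have i2 := ibp 1 0
    have c1 : ∫ x, fderiv ℝ V x (bv 1) * fderiv ℝ φ x (bv 0)
        = - ∫ x, fderiv ℝ (fun y => fderiv ℝ φ y (bv 0)) x (bv 1) * V x := by
      rw [← i1]
      congr 1
      ext x
      ring
    have c2 : ∫ x, fderiv ℝ V x (bv 0) * fderiv ℝ φ x (bv 1)
        = - ∫ x, fderiv ℝ (fun y => fderiv ℝ φ y (bv 1)) x (bv 0) * V x := by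
      rw [← i2]
      congr 1
      ext x
      ring
    rw [c1, c2]
    have : ∀ x, fderiv ℝ (fun y => fderiv ℝ φ y (bv 0)) x (bv 1) * V x
        = fderiv ℝ (fun y => fderiv ℝ φ y (bv 1)) x (bv 0) * V x := by
      intro x
      rw [hsymm]
    simp only [this]
    ring
  · exact ((hVd 1).mul (hdc 0)).integrable_of_hasCompactSupport ((hcs 0).mul_left)
  · exact ((hVd 0).mul (hdc 1)).integrable_of_hasCompactSupport ((hcs 1).mul_left)

/-- The domain: a small disc. -/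
noncomputable abbrev Om : Set E2 := Metric.ball 0 (1/4)

/-- The coefficient matrix. -/
noncomputable def AA (z : E2) : Matrix (Fin 2) (Fin 2) ℝ := !![cf z, 0; 0, 1]

lemma coord_lt {z : E2} (hz : z ∈ Om) (i : Fin 2) : |z i| < 1/4 := by
  have h1 : ‖z‖ < 1/4 := by simpa [Om] using hz
  have h2 : ‖z i‖ ≤ ‖z‖ := PiLp.norm_apply_le z i
  rw [Real.norm_eq_abs] at h2
  linarith

lemma coord_dist (z w : E2) (i : Fin 2) : |z i - w i| ≤ dist z w := by
  have h2 : ‖(z - w) i‖ ≤ ‖z - w‖ := PiLp.norm_apply_le (z - w) i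
  rw [dist_eq_norm]
  simpa using h2

/-- The denominator of the coefficient. -/
noncomputable def dn (z : E2) : ℝ := 1 + 3 * sp (z 0) * (z 1 - sp (z 0) ^ 3)

lemma dn_bounds {z : E2} (hz : z ∈ Om) : 4/5 ≤ dn z ∧ dn z ≤ 6/5 := by
  have h0 := coord_lt hz 0
  have h1 := coord_lt hz 1
  have hs0 := sp_nonneg (z 0)
  have hs1 : sp (z 0) < 1/4 := lt_of_le_of_lt (sp_le_abs _) h0
  have hs3 : sp (z 0) ^ 3 ≤ (1/4)^3 := pow_le_pow_left₀ hs0 hs1.le 3
  have hs3' : 0 ≤ sp (z 0) ^ 3 := pow_nonneg hs0 3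
  rw [abs_lt] at h1
  have h2 : |z 1 - sp (z 0) ^ 3| ≤ 17/64 := by
    rw [abs_le]
    constructor <;> norm_num at hs3 ⊢ <;> linarith [h1.1, h1.2]
  have h3 : |3 * sp (z 0) * (z 1 - sp (z 0) ^ 3)| ≤ 1/5 := by
    rw [abs_mul, abs_of_nonneg (by positivity : 0 ≤ 3 * sp (z 0))]
    calc 3 * sp (z 0) * |z 1 - sp (z 0) ^ 3| ≤ (3/4) * (17/64) := by
          apply mul_le_mul _ h2 (abs_nonneg _) (by norm_num)
          linarith
      _ ≤ 1/5 := by norm_num
  rw [abs_le] at h3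
  unfold dn
  constructor <;> linarith [h3.1, h3.2]

lemma cf_eq (z : E2) : cf z = 1 / dn z := rfl

lemma cf_bounds {z : E2} (hz : z ∈ Om) : 1/2 ≤ cf z ∧ cf z ≤ 2 := by
  obtain ⟨h1, h2⟩ := dn_bounds hz
  rw [cf_eq]
  constructor
  · rw [div_le_div_iff₀ (by norm_num) (by linarith)]
    linarith
  · rw [div_le_iff₀ (by linarith)]
    linarith

lemma dn_lip {z w : E2} (hz : z ∈ Om) (hw : w ∈ Om) : |dn z - dn w| ≤ 3 * dist z w := by
  have hz0 := coord_lt hz 0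
  have hw0 := coord_lt hw 0
  have hw1 := coord_lt hw 1
  have a0 := sp_nonneg (z 0)
  have a1 : sp (z 0) ≤ 1/4 := (lt_of_le_of_lt (sp_le_abs _) hz0).le
  have b0 := sp_nonneg (w 0)
  have b1 : sp (w 0) ≤ 1/4 := (lt_of_le_of_lt (sp_le_abs _) hw0).le
  have hd0 : |sp (z 0) - sp (w 0)| ≤ dist z w := (sp_lip _ _).trans (coord_dist z w 0)
  have hd1 := coord_dist z w 1
  have hdn : 0 ≤ dist z w := dist_nonneg
  have e : dn z - dn w = 3 * sp (z 0) * (z 1 - w 1) + 3 * w 1 * (sp (z 0) - sp (w 0))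
      - 3 * (sp (z 0) - sp (w 0)) * (sp (z 0) ^ 3 + sp (z 0) ^ 2 * sp (w 0)
        + sp (z 0) * sp (w 0) ^ 2 + sp (w 0) ^ 3) := by
    unfold dn
    ring
  have t1 : |3 * sp (z 0) * (z 1 - w 1)| ≤ 3/4 * dist z w := by
    rw [abs_mul, abs_of_nonneg (by positivity : 0 ≤ 3 * sp (z 0))]
    exact mul_le_mul (by linarith) hd1 (abs_nonneg _) (by norm_num)
  have t2 : |3 * w 1 * (sp (z 0) - sp (w 0))| ≤ 3/4 * dist z w := by
    rw [abs_mul]
    refine mul_le_mul ?_ hd0 (abs_nonneg _) (by norm_num)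
    rw [abs_mul, abs_of_nonneg (by norm_num : (0:ℝ) ≤ 3)]
    linarith
  have t3 : |3 * (sp (z 0) - sp (w 0)) * (sp (z 0) ^ 3 + sp (z 0) ^ 2 * sp (w 0)
        + sp (z 0) * sp (w 0) ^ 2 + sp (w 0) ^ 3)| ≤ 3/4 * dist z w := by
    have hpos : 0 ≤ sp (z 0) ^ 3 + sp (z 0) ^ 2 * sp (w 0)
        + sp (z 0) * sp (w 0) ^ 2 + sp (w 0) ^ 3 := by positivity
    have hle : sp (z 0) ^ 3 + sp (z 0) ^ 2 * sp (w 0)
        + sp (z 0) * sp (w 0) ^ 2 + sp (w 0) ^ 3 ≤ 1/4 := by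
      have q1 : sp (z 0) ^ 2 ≤ 1/16 := by nlinarith
      have q2 : sp (w 0) ^ 2 ≤ 1/16 := by nlinarith
      have q3 : sp (z 0) ^ 3 ≤ 1/64 := by nlinarith [sq_nonneg (sp (z 0))]
      have q4 : sp (w 0) ^ 3 ≤ 1/64 := by nlinarith [sq_nonneg (sp (w 0))]
      have q5 : sp (z 0) ^ 2 * sp (w 0) ≤ 1/64 := by
        calc sp (z 0) ^ 2 * sp (w 0) ≤ (1/16) * (1/4) :=
              mul_le_mul q1 b1 b0 (by norm_num)
          _ = 1/64 := by norm_num
      have q6 : sp (z 0) * sp (w 0) ^ 2 ≤ 1/64 := by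
        calc sp (z 0) * sp (w 0) ^ 2 ≤ (1/4) * (1/16) :=
              mul_le_mul a1 q2 (by positivity) (by norm_num)
          _ = 1/64 := by norm_num
      linarith
    rw [abs_mul, abs_mul, abs_of_nonneg hpos, abs_of_nonneg (by norm_num : (0:ℝ) ≤ 3)]
    calc 3 * |sp (z 0) - sp (w 0)| * (sp (z 0) ^ 3 + sp (z 0) ^ 2 * sp (w 0)
        + sp (z 0) * sp (w 0) ^ 2 + sp (w 0) ^ 3) ≤ 3 * dist z w * (1/4) :=
          mul_le_mul (by linarith) hle hpos (by positivity)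
      _ = 3/4 * dist z w := by ring
  rw [e]
  calc _ ≤ |3 * sp (z 0) * (z 1 - w 1)| + |3 * w 1 * (sp (z 0) - sp (w 0))|
        + |3 * (sp (z 0) - sp (w 0)) * (sp (z 0) ^ 3 + sp (z 0) ^ 2 * sp (w 0)
        + sp (z 0) * sp (w 0) ^ 2 + sp (w 0) ^ 3)| :=
        (abs_sub _ _).trans (add_le_add_left (abs_add_le _ _) _)
    _ ≤ 3 * dist z w := by linarith

lemma cf_lip {z w : E2} (hz : z ∈ Om) (hw : w ∈ Om) : |cf z - cf w| ≤ 6 * dist z w := by
  obtain ⟨h1, h2⟩ := dn_bounds hz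
  obtain ⟨h3, h4⟩ := dn_bounds hw
  have hdn : 0 ≤ dist z w := dist_nonneg
  have e : cf z - cf w = (dn w - dn z) / (dn z * dn w) := by
    rw [cf_eq, cf_eq]
    field_simp
  have hp : 16/25 ≤ dn z * dn w := by nlinarith
  rw [e, abs_div, abs_of_pos (by linarith : 0 < dn z * dn w), div_le_iff₀ (by linarith),
    abs_sub_comm]
  have := dn_lip hz hw
  nlinarith

/-- The negation of the preceding statement: Take nonconstant C1 weak solutions u, v of div(A grad u)=0 on a connected open set in R^n, n≥2, with A symmetric, uniformly elliptic and Lipschitz. If u vanishes on a connected smooth hypersurface S and v on a nonempty open proper piece of S, then v vanishes on all of S. -/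
theorem result :
    ¬ (∀ (n : ℕ), 2 ≤ n →
  ∀ (Ω : Set (EuclideanSpace ℝ (Fin n))), IsOpen Ω → IsConnected Ω →
  ∀ (A : EuclideanSpace ℝ (Fin n) → Matrix (Fin n) (Fin n) ℝ) (K E : ℝ), 0 < K →
    (∀ x ∈ Ω, ∀ i j, A x i j = A x j i) →
    (∀ x ∈ Ω, ∀ ξ : EuclideanSpace ℝ (Fin n),
        K⁻¹ * ‖ξ‖ ^ 2 ≤ ∑ i, ∑ j, A x i j * ξ i * ξ j ∧
        ∑ i, ∑ j, A x i j * ξ i * ξ j ≤ K * ‖ξ‖ ^ 2) →
    (∀ x ∈ Ω, ∀ y ∈ Ω, ∀ i j, |A x i j - A y i j| ≤ E * dist x y) →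
  ∀ (u v : EuclideanSpace ℝ (Fin n) → ℝ),
    ContDiffOn ℝ 1 u Ω → ContDiffOn ℝ 1 v Ω →
    (¬ ∃ c : ℝ, ∀ x ∈ Ω, u x = c) →
    (¬ ∃ c : ℝ, ∀ x ∈ Ω, v x = c) →
    (∀ φ : EuclideanSpace ℝ (Fin n) → ℝ,
        ContDiff ℝ ((⊤ : ℕ∞) : WithTop ℕ∞) φ → HasCompactSupport φ → tsupport φ ⊆ Ω →
        ∫ x, ∑ i, ∑ j, A x i j * fderiv ℝ u x (EuclideanSpace.single j 1)
            * fderiv ℝ φ x (EuclideanSpace.single i 1) = 0) →
    (∀ φ : EuclideanSpace ℝ (Fin n) → ℝ,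
        ContDiff ℝ ((⊤ : ℕ∞) : WithTop ℕ∞) φ → HasCompactSupport φ → tsupport φ ⊆ Ω →
        ∫ x, ∑ i, ∑ j, A x i j * fderiv ℝ v x (EuclideanSpace.single j 1)
            * fderiv ℝ φ x (EuclideanSpace.single i 1) = 0) →
  ∀ (S Sig : Set (EuclideanSpace ℝ (Fin n))),
    S ⊆ Ω → IsConnected S →
    (∀ p ∈ S, ∃ (U : Set (EuclideanSpace ℝ (Fin n))) (f : EuclideanSpace ℝ (Fin n) → ℝ),
        IsOpen U ∧ p ∈ U ∧ ContDiff ℝ ((⊤ : ℕ∞) : WithTop ℕ∞) f ∧
        (∀ x ∈ U, fderiv ℝ f x ≠ 0) ∧ S ∩ U = {x | x ∈ U ∧ f x = 0}) →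
    Sig ⊆ S → Sig.Nonempty → Sig ≠ S →
    (∃ O : Set (EuclideanSpace ℝ (Fin n)), IsOpen O ∧ Sig = S ∩ O) →
    (∀ x ∈ S, u x = 0) →
    (∀ x ∈ Sig, v x = 0) →
    ∀ x ∈ S, v x = 0) := by
  intro H
  have hint1 : ∀ φ : E2 → ℝ, ContDiff ℝ ((⊤ : ℕ∞) : WithTop ℕ∞) φ → HasCompactSupport φ →
      ∫ x, fderiv ℝ φ x (bv 1) = 0 := by
    intro φ hφ hc
    have hV : ContDiff ℝ 1 (fun z : E2 => -(z 0)) := (contDiff_coord 0).neg
    have h := int_null (fun z : E2 => -(z 0)) φ hV hφ hc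
    have hd : ∀ x : E2, HasFDerivAt (fun z : E2 => -(z 0))
        (-(EuclideanSpace.proj 0 : E2 →L[ℝ] ℝ)) x := fun x => (hasFDerivAt_coord 0 x).neg
    have e : ∀ x : E2, fderiv ℝ (fun z : E2 => -(z 0)) x (bv 1) * fderiv ℝ φ x (bv 0)
      - fderiv ℝ (fun z : E2 => -(z 0)) x (bv 0) * fderiv ℝ φ x (bv 1) = fderiv ℝ φ x (bv 1) := by
      intro x
      rw [(hd x).fderiv]
      simp [bv]
    simpa only [e] using h
  have hball : IsConnected Om := by
    refine ⟨⟨0, by simp [Om]⟩, ?_⟩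
    exact (convex_ball (0 : E2) (1/4)).isPreconnected
  set S : Set E2 := {z | z ∈ Om ∧ z 1 = 0} with hS
  set Sig : Set E2 := {z | z ∈ S ∧ z 0 < 0} with hSig
  have hSconv : Convex ℝ S := by
    have h2 : Convex ℝ {z : E2 | z 1 = 0} := by
      have : {z : E2 | z 1 = 0} = {z : E2 | (EuclideanSpace.proj 1 : E2 →L[ℝ] ℝ) z = 0} := by
        ext z
        simp
      rw [this]
      exact convex_hyperplane (EuclideanSpace.proj 1 : E2 →L[ℝ] ℝ).toLinearMap.isLinear 0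
    exact (convex_ball (0 : E2) (1/4)).inter h2
  have h0S : (0 : E2) ∈ S := by
    simp [hS, Om]
  have hsmul : ∀ c : ℝ, |c| < 1/4 → (c • bv 0 : E2) ∈ S := by
    intro c hc
    constructor
    · simp only [Om, Metric.mem_ball, dist_zero_right, norm_smul, Real.norm_eq_abs, bv,
        PiLp.norm_single, norm_one, mul_one]
      simpa using hc
    · simp [bv]
  have hsm0 : ∀ c : ℝ, (c • bv 0 : E2) 0 = c := by
    intro c
    simp [bv]
  have hsm1 : ∀ c : ℝ, (c • bv 0 : E2) 1 = 0 := by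
    intro c
    simp [bv]
  have hmain := H 2 le_rfl Om Metric.isOpen_ball hball AA 2 6 (by norm_num) ?_ ?_ ?_
    (fun z => z 1) vv (contDiff_coord 1).contDiffOn contDiff_vv.contDiffOn ?_ ?_ ?_ ?_
    S Sig (fun z hz => hz.1) ⟨⟨0, h0S⟩, hSconv.isPreconnected⟩ ?_ (fun z hz => hz.1) ?_ ?_ ?_
    (fun z hz => hz.2) ?_
  · have h8 := hmain ((1/8 : ℝ) • bv 0) (hsmul _ (by rw [abs_of_pos] <;> norm_num))
    unfold vv at h8
    rw [hsm0, hsm1, sp_pos (by norm_num)] at h8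
    norm_num at h8
  · intro z _ i j
    fin_cases i <;> fin_cases j <;> simp [AA]
  · intro z hz ξ
    obtain ⟨h1, h2⟩ := cf_bounds hz
    have hn : ‖ξ‖ ^ 2 = ξ 0 ^ 2 + ξ 1 ^ 2 := by
      rw [EuclideanSpace.norm_sq_eq]
      simp [Fin.sum_univ_two]
    have hq : ∑ i, ∑ j, AA z i j * ξ i * ξ j = cf z * ξ 0 ^ 2 + ξ 1 ^ 2 := by
      simp [AA, Fin.sum_univ_two]
      ring
    rw [hn, hq]
    constructor <;> nlinarith [sq_nonneg (ξ 0), sq_nonneg (ξ 1)]
  · intro z hz w hw i j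
    have hdn : 0 ≤ dist z w := dist_nonneg
    have := cf_lip hz hw
    fin_cases i <;> fin_cases j <;> simp [AA] <;> linarith
  · rintro ⟨c, hc⟩
    have a1 := hc 0 (by simp [Om])
    have a2 := hc ((1/8 : ℝ) • bv 1) (by
      simp only [Om, Metric.mem_ball, dist_zero_right, norm_smul, Real.norm_eq_abs, bv,
        PiLp.norm_single, norm_one, mul_one]
      rw [abs_of_pos] <;> norm_num)
    rw [← a1] at a2
    simp [bv] at a2
  · rintro ⟨c, hc⟩
    have a1 := hc 0 (by simp [Om])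
    have a2 := hc ((1/8 : ℝ) • bv 0) (hsmul _ (by rw [abs_of_pos] <;> norm_num)).1
    rw [← a1] at a2
    unfold vv at a2
    rw [hsm0, hsm1, sp_pos (by norm_num)] at a2
    norm_num [sp] at a2
  · intro φ hφ hc _
    have e : ∀ x : E2, ∑ i, ∑ j, AA x i j * fderiv ℝ (fun z : E2 => z 1) x
        (EuclideanSpace.single j 1) * fderiv ℝ φ x (EuclideanSpace.single i 1)
        = fderiv ℝ φ x (bv 1) := by
      intro x
      rw [(hasFDerivAt_coord 1 x).fderiv]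
      simp [AA, Fin.sum_univ_two, bv]
    simp only [e]
    exact hint1 φ hφ hc
  · intro φ hφ hc hsup
    have e : ∀ x : E2, ∑ i, ∑ j, AA x i j * fderiv ℝ vv x
        (EuclideanSpace.single j 1) * fderiv ℝ φ x (EuclideanSpace.single i 1)
        = fderiv ℝ VV x (bv 1) * fderiv ℝ φ x (bv 0)
          - fderiv ℝ VV x (bv 0) * fderiv ℝ φ x (bv 1) := by
      intro x
      by_cases hx : x ∈ Om
      · have h1 : ∑ i, ∑ j, AA x i j * fderiv ℝ vv x
          (EuclideanSpace.single j 1) * fderiv ℝ φ x (EuclideanSpace.single i 1)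
          = cf x * fderiv ℝ vv x (bv 0) * fderiv ℝ φ x (bv 0)
            + fderiv ℝ vv x (bv 1) * fderiv ℝ φ x (bv 1) := by
          simp [AA, Fin.sum_univ_two, bv]
        rw [h1, fderiv_vv_0, fderiv_vv_1, fderiv_VV_0, fderiv_VV_1]
        have hd := (dn_bounds hx).1
        have hne : dn x ≠ 0 := by linarith
        have h2 : cf x * -(3 * sp (x 0) * x 1 ^ 2 + (1 - 6 * sp (x 0) ^ 4) * x 1
            - sp (x 0) ^ 3 + 3 * sp (x 0) ^ 7) = -(x 1) + sp (x 0) ^ 3 := by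
          rw [cf_eq]
          rw [one_div, inv_mul_eq_iff_eq_mul₀ hne]
          unfold dn
          ring
        rw [h2]
        ring
      · have hns : x ∉ tsupport φ := fun h => hx (hsup h)
        have h0 : fderiv ℝ φ x = 0 := by
          have := image_eq_zero_of_notMem_tsupport
            (f := fderiv ℝ φ) (x := x) (fun h => hns (tsupport_fderiv_subset ℝ h))
          exact this
        rw [h0]
        simp
    simp only [e]
    exact int_null VV φ contDiff_VV hφ hc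
  · intro z hz
    refine ⟨Om, fun z => z 1, Metric.isOpen_ball, hz.1, ?_, ?_, ?_⟩
    · exact (EuclideanSpace.proj 1 : E2 →L[ℝ] ℝ).contDiff
    · intro x _ h
      rw [(hasFDerivAt_coord 1 x).fderiv] at h
      have := congrArg (fun L : E2 →L[ℝ] ℝ => L (bv 1)) h
      simp [bv] at this
    · ext x
      simp only [hS, Set.mem_inter_iff, Set.mem_ofPred_eq]
      tauto
  · exact ⟨(-(1/8) : ℝ) • bv 0, hsmul _ (by rw [abs_neg, abs_of_pos] <;> norm_num), by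
      rw [hsm0]
      norm_num⟩
  · intro h
    have : (0 : E2) ∈ Sig := h ▸ h0S
    have h3 := this.2
    simp at h3
  · refine ⟨{z | z 0 < 0}, ?_, ?_⟩
    · exact isOpen_lt (EuclideanSpace.proj 0 : E2 →L[ℝ] ℝ).continuous continuous_const
    · ext z
      simp [hSig]
  · intro z hz
    have h1 : z 1 = 0 := hz.1.2
    have h2 : sp (z 0) = 0 := sp_neg (le_of_lt hz.2)
    unfold vv
    rw [h1, h2]
    norm_num

end Pool.Agent.S02742
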