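import Pool.Statements.S02746
import Pool.Agent.Helper568.Lip6

set_option autoImplicit false
open Pool Pool.MP_234257_an

namespace Pool.Agent.S02746

/-- The negation of the preceding statement: For real Banach spaces X, Y with a bi-Lipschitz bijection between them, if X has an equivalent locally uniformly rotund norm then so does Y. -/
theorem result :
    ¬ (∀ (X Y : Type) [NormedAddCommGroup X] [NormedSpace ℝ X] [CompleteSpace X]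
    [NormedAddCommGroup Y] [NormedSpace ℝ Y] [CompleteSpace Y],
    (∃ f : X ≃ Y, ∃ K₁ K₂ : NNReal, LipschitzWith K₁ f ∧ LipschitzWith K₂ f.symm) →
    (∃ N : X → ℝ, (∀ x y : X, N (x + y) ≤ N x + N y) ∧
      (∀ (a : ℝ) (x : X), N (a • x) = |a| * N x) ∧
      (∃ c C : ℝ, 0 < c ∧ 0 < C ∧ ∀ x : X, c * ‖x‖ ≤ N x ∧ N x ≤ C * ‖x‖) ∧
      (∀ x : X, N x = 1 → ∀ ε : ℝ, 0 < ε → ∃ δ : ℝ, 0 < δ ∧
        ∀ y : X, N y = 1 → 2 - δ < N (x + y) → N (x - y) < ε)) →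
    (∃ N : Y → ℝ, (∀ x y : Y, N (x + y) ≤ N x + N y) ∧
      (∀ (a : ℝ) (x : Y), N (a • x) = |a| * N x) ∧
      (∃ c C : ℝ, 0 < c ∧ 0 < C ∧ ∀ x : Y, c * ‖x‖ ≤ N x ∧ N x ≤ C * ‖x‖) ∧
      (∀ x : Y, N x = 1 → ∀ ε : ℝ, 0 < ε → ∃ δ : ℝ, 0 < δ ∧
        ∀ y : Y, N y = 1 → 2 - δ < N (x + y) → N (x - y) < ε))) := by
  intro h
  obtain ⟨N, h1, h2, ⟨c, C, hc, hC, h3⟩, h4⟩ := h Pool.Agent.Helper568.Lip.XT
    (Pool.Agent.Helper568.Lip.ZT × Pool.Agent.Helper568.Lip.CT)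
    ⟨Pool.Agent.Helper568.Lip.eqv, 3, 3,
      Pool.Agent.Helper568.Lip.lip_of_norm _ Pool.Agent.Helper568.Lip.eqv_norm,
      Pool.Agent.Helper568.Lip.lip_of_norm _ Pool.Agent.Helper568.Lip.eqv_symm_norm⟩
    Pool.Agent.Helper568.Lip.XT_lur
  exact Pool.Agent.Helper568.Lip.YT_no_lur N h1 h2 c C hc hC h3 h4

end Pool.Agent.S02746
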