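import Pool.Statements.S02753
import Pool.Agent.Helper115.GFi
import Pool.Agent.Helper115.GFj

set_option autoImplicit false
open Pool Pool.MP_23c9b9_an

namespace Pool.Agent.S02753

/-- Every separable infinite-dimensional Banach space with a uniformly convex equivalent norm has an equivalent norm that is Gâteaux differentiable off 0 and whose Fréchet differentiability points form an Aronszajn null set. -/
theorem result :
    ∀ (X : Type) [NormedAddCommGroup X] [NormedSpace ℝ X] [CompleteSpace X]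
      [TopologicalSpace.SeparableSpace X],
      ¬ FiniteDimensional ℝ X →
      (∃ M : X → ℝ, (∀ x y : X, M (x + y) ≤ M x + M y) ∧
          (∀ (c : ℝ) (x : X), M ((c : ℝ) • x) = |c| * M x) ∧
          (∃ a b : ℝ, 0 < a ∧ 0 < b ∧ ∀ x : X, a * ‖x‖ ≤ M x ∧ M x ≤ b * ‖x‖) ∧
          ∀ ε : ℝ, 0 < ε → ∃ δ : ℝ, 0 < δ ∧ ∀ x y : X,
            M x ≤ 1 → M y ≤ 1 → ε ≤ M (x - y) → M (x + y) ≤ 2 - δ) →
      ∃ N : X → ℝ, (∀ x y : X, N (x + y) ≤ N x + N y) ∧
        (∀ (c : ℝ) (x : X), N ((c : ℝ) • x) = |c| * N x) ∧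
        (∃ a b : ℝ, 0 < a ∧ 0 < b ∧ ∀ x : X, a * ‖x‖ ≤ N x ∧ N x ≤ b * ‖x‖) ∧
        (∀ x : X, x ≠ 0 → ∃ f : X →L[ℝ] ℝ, ∀ v : X,
            HasDerivAt (fun t : ℝ => N (x + (t : ℝ) • v)) (f v) (0 : ℝ)) ∧
        ∀ e : ℕ → X,
          Dense ((Submodule.span ℝ (Set.range e) : Submodule ℝ X) : Set X) →
          ∃ B : ℕ → Set X, (∀ n : ℕ, @MeasurableSet X (borel X) (B n)) ∧
            (∀ (n : ℕ) (y : X),
              (MeasureTheory.volume : MeasureTheory.Measure ℝ)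
                {t : ℝ | y + (t : ℝ) • e n ∈ B n} = 0) ∧
            {x : X | DifferentiableAt ℝ N x} ⊆ ⋃ n : ℕ, B n := by
  intro X _ _ _ _ hX hM
  obtain ⟨M, hadd, hsmul, ⟨a, b, ha, hb, hab⟩, hU⟩ := hM
  obtain ⟨q, u, c0, hq, hu, hc0, hu2, hus⟩ :=
    Pool.Agent.Helper115.GF.exists_functionals' X hX M hadd hsmul a b ha hb hab hU
  exact Pool.Agent.Helper115.GF.main X hX q hq u hu c0 hc0 hu2 hus

end Pool.Agent.S02753
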