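import Pool.Statements.S02755
import Pool.Agent.Helper787.GapD

set_option autoImplicit false
open Filter Topology
open Pool Pool.MP_2434ae_an

namespace Pool.Agent.S02755

/-- A nonconstant entire function of order at most σ, whose nonzero-coefficient exponents have maximal density at most D with σD<1/2, has no finite value a with deficiency m(r,1/(f-a))/T(r,f) tending to 1. -/
theorem result :
    ∀ f : ℂ → ℂ, Differentiable ℂ f → (∃ z w : ℂ, f z ≠ f w) →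
      ∀ σ D : ℝ, 0 ≤ σ → 0 ≤ D → σ * D < 1 / 2 →
        (∃ R : ℝ, ∀ z : ℂ, R ≤ ‖z‖ → ‖f z‖ ≤ Real.exp (‖z‖ ^ σ)) →
        (∃ ξ₀ : ℝ, ξ₀ < 1 ∧ ∀ ξ : ℝ, ξ₀ < ξ → ξ < 1 → ∃ R : ℝ, ∀ r : ℝ, R ≤ r →
          ((Set.ncard {k : ℕ | ξ * r < (k : ℝ) ∧ (k : ℝ) ≤ r ∧ iteratedDeriv k f 0 ≠ 0} : ℕ) : ℝ)
            ≤ D * (1 - ξ) * r) →
        ∀ a : ℂ, ¬ Tendsto
          (fun r : ℝ =>
            (∫ θ in (0 : ℝ)..(2 * Real.pi),
                max (0 : ℝ) (Real.log (‖f (circleMap 0 r θ) - a‖⁻¹))) /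
            (∫ θ in (0 : ℝ)..(2 * Real.pi),
                max (0 : ℝ) (Real.log ‖f (circleMap 0 r θ)‖)))
          atTop (𝓝 (1 : ℝ)) := by
  intro f hf hnc σ D hσ hD hσD hR hdens a hT
  exact Helper787.Gap.mainGap hf hnc hσ hD hσD hR hdens a hT

end Pool.Agent.S02755
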