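import Pool.Statements.S02771
import Pool.Agent.Helper519.TFinal

set_option autoImplicit false
open scoped ZeroAtInfty
open Pool Pool.MP_26275f_an

namespace Pool.Agent.S02771

/-- There is a reflexive real Banach space of density continuum with an unconditional long basis, such that each closed infinite-dimensional subspace contains K-isomorphic copies of all finite-dimensional subspaces of c0, for some K depending on the subspace. -/
theorem result :
  ∃ (X : Type) (_ : NormedAddCommGroup X) (_ : NormedSpace ℝ X) (_ : CompleteSpace X),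
    (∀ φ : (X →L[ℝ] ℝ) →L[ℝ] ℝ, ∃ x : X, ∀ f : X →L[ℝ] ℝ, φ f = f x) ∧
    (∃ D : Set X, Dense D ∧ Cardinal.mk D = Cardinal.continuum) ∧
    (∀ D : Set X, Dense D → Cardinal.continuum ≤ Cardinal.mk D) ∧
    (∃ (I : Type) (e : I → X), ∀ x : X, ∃! a : I → ℝ, HasSum (fun i => a i • e i) x) ∧
    ∀ Y : Submodule ℝ X, IsClosed (Y : Set X) → ¬ FiniteDimensional ℝ Y →
      ∃ K : ℝ, ∀ E : Submodule ℝ (ℕ →C₀ ℝ), FiniteDimensional ℝ E →
        ∃ T : E →ₗ[ℝ] X, (∀ v, T v ∈ Y) ∧ ∀ v : E, ‖v‖ ≤ ‖T v‖ ∧ ‖T v‖ ≤ K * ‖v‖ := by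
  refine ⟨Pool.Agent.Helper519.TSpace.X ℝ, inferInstance, inferInstance, inferInstance, ?_, ?_, ?_,
    ?_, ?_⟩
  · exact Pool.Agent.Helper519.TSpace.reflexive
  · exact Pool.Agent.Helper519.TSpace.exists_dense
  · exact Pool.Agent.Helper519.TSpace.dense_card
  · exact ⟨ℝ, Pool.Agent.Helper519.TSpace.e, Pool.Agent.Helper519.TSpace.basis_unique⟩
  · intro Y _ hY
    exact Pool.Agent.Helper519.TSpace.c0_saturated Y hY

end Pool.Agent.S02771
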