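import Pool.Statements.S02778
import Pool.Agent.Helper206.Facts

set_option autoImplicit false
open scoped Manifold
open Pool Pool.MP_26ecc2_an

namespace Pool.Agent.S02778

/-- The negation of the preceding statement: For every complex n-manifold that is Stein (holomorphically convex, separable, with local holomorphic coordinates) and diffeomorphic to ℂⁿ, Kobayashi distance positive off the diagonal iff bounded holomorphic functions separate points. -/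
theorem result :
    ¬ (∀ (n : ℕ) (M : Type) [TopologicalSpace M]
    [ChartedSpace (EuclideanSpace ℂ (Fin n)) M]
    [IsManifold 𝓘(ℂ, EuclideanSpace ℂ (Fin n)) ⊤ M],
    (∀ K : Set M, IsCompact K → IsCompact {x : M | ∀ f : M → ℂ,
        MDifferentiable 𝓘(ℂ, EuclideanSpace ℂ (Fin n)) 𝓘(ℂ, ℂ) f →
        ∀ c : ℝ, (∀ y ∈ K, ‖f y‖ ≤ c) → ‖f x‖ ≤ c}) →
    (∀ x y : M, x ≠ y → ∃ f : M → ℂ,
        MDifferentiable 𝓘(ℂ, EuclideanSpace ℂ (Fin n)) 𝓘(ℂ, ℂ) f ∧ f x ≠ f y) →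
    (∀ x : M, ∃ F : M → EuclideanSpace ℂ (Fin n),
        MDifferentiable 𝓘(ℂ, EuclideanSpace ℂ (Fin n)) 𝓘(ℂ, EuclideanSpace ℂ (Fin n)) F ∧
        Function.Injective
          (mfderiv 𝓘(ℂ, EuclideanSpace ℂ (Fin n)) 𝓘(ℂ, EuclideanSpace ℂ (Fin n)) F x)) →
    (∃ e : M ≃ₜ EuclideanSpace ℂ (Fin n), ∀ x : M,
        ContDiffOn ℝ ((⊤ : ℕ∞) : WithTop ℕ∞)
          (fun z => e ((chartAt (EuclideanSpace ℂ (Fin n)) x).symm z))
          (chartAt (EuclideanSpace ℂ (Fin n)) x).target ∧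
        ContDiffOn ℝ ((⊤ : ℕ∞) : WithTop ℕ∞)
          (fun w => chartAt (EuclideanSpace ℂ (Fin n)) x (e.symm w))
          (e '' (chartAt (EuclideanSpace ℂ (Fin n)) x).source)) →
    ((∀ x y : M, x ≠ y → ∃ ε : ℝ, 0 < ε ∧
        ∀ (k : ℕ) (p : Fin (k + 1) → M) (g : Fin k → ℂ → M) (a b : Fin k → ℂ),
          p 0 = x → p (Fin.last k) = y →
          (∀ i : Fin k,
            MDifferentiableOn 𝓘(ℂ, ℂ) 𝓘(ℂ, EuclideanSpace ℂ (Fin n)) (g i)
              (Metric.ball (0 : ℂ) 1) ∧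
            a i ∈ Metric.ball (0 : ℂ) 1 ∧ b i ∈ Metric.ball (0 : ℂ) 1 ∧
            g i (a i) = p i.castSucc ∧ g i (b i) = p i.succ) →
          ε ≤ ∑ i : Fin k,
            Real.log ((1 + ‖a i - b i‖ / ‖1 - (starRingEnd ℂ) (a i) * b i‖) /
                      (1 - ‖a i - b i‖ / ‖1 - (starRingEnd ℂ) (a i) * b i‖)))
      ↔
     (∀ x y : M, x ≠ y → ∃ f : M → ℂ,
        MDifferentiable 𝓘(ℂ, EuclideanSpace ℂ (Fin n)) 𝓘(ℂ, ℂ) f ∧
        (∃ C : ℝ, ∀ z : M, ‖f z‖ ≤ C) ∧ f x ≠ f y))) := by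
  intro H
  have h := H 2 Pool.Agent.Helper206.M0 Pool.Agent.Helper206.M0.convex
    Pool.Agent.Helper206.M0.separates Pool.Agent.Helper206.M0.coords
    Pool.Agent.Helper206.M0.diffeo
  obtain ⟨x, y, hxy, hno⟩ := Pool.Agent.Helper206.M0.not_carath
  obtain ⟨f, hf, hb, hne⟩ := h.1 Pool.Agent.Helper206.M0.hyp x y hxy
  exact hne (hno f hf hb)

end Pool.Agent.S02778
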