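import Pool.Statements.S02782

set_option autoImplicit false
open Pool Pool.MP_275f89_an

namespace Pool.Agent.S02782

open Classical in
/-- The counterexample: the pointwise minimum if one argument is the unit step or if both arguments
have reached the level 1/2 at the point 2, and the zero function otherwise. -/
noncomputable def tau (F G : ℝ → ℝ) : ℝ → ℝ :=
  if F = (fun x : ℝ => if 0 < x then (1 : ℝ) else 0) ∨
      G = (fun x : ℝ => if 0 < x then (1 : ℝ) else 0) ∨ (1 / 2 ≤ F 2 ∧ 1 / 2 ≤ G 2)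
  then fun x => min (F x) (G x) else fun _ => 0

/-- the unit step -/
noncomputable def e : ℝ → ℝ := fun x : ℝ => if 0 < x then (1 : ℝ) else 0

/-- the class of distance distribution functions -/
def D : Set (ℝ → ℝ) :=
  {F : ℝ → ℝ | Monotone F ∧ (∀ x, 0 ≤ F x ∧ F x ≤ 1) ∧ (∀ x : ℝ, x ≤ 0 → F x = 0) ∧
            ∀ x : ℝ, ContinuousWithinAt F (Set.Iio x) x}

theorem le_e {F : ℝ → ℝ} (hF : F ∈ D) : F ≤ e := by
  intro x
  by_cases hx : 0 < x
  · simp only [e, hx, if_true]; exact (hF.2.1 x).2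
  · simp only [e, hx, if_false]; exact (hF.2.2.1 x (not_lt.mp hx)).le

theorem tau_of {F G : ℝ → ℝ} (h : F = e ∨ G = e ∨ (1 / 2 ≤ F 2 ∧ 1 / 2 ≤ G 2)) :
    tau F G = fun x => min (F x) (G x) := by
  unfold tau
  exact if_pos h

theorem tau_not {F G : ℝ → ℝ} (h : ¬ (F = e ∨ G = e ∨ (1 / 2 ≤ F 2 ∧ 1 / 2 ≤ G 2))) :
    tau F G = fun _ => 0 := by
  unfold tau
  exact if_neg h

theorem zero_mem : (fun _ => 0 : ℝ → ℝ) ∈ D := by
  refine ⟨monotone_const, fun x => ⟨le_refl _, zero_le_one⟩, fun x _ => rfl, fun x => ?_⟩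
  exact continuousWithinAt_const

theorem min_mem {F G : ℝ → ℝ} (hF : F ∈ D) (hG : G ∈ D) : (fun x => min (F x) (G x)) ∈ D := by
  refine ⟨fun x y h => min_le_min (hF.1 h) (hG.1 h), fun x => ⟨le_min (hF.2.1 x).1 (hG.2.1 x).1,
    (min_le_left _ _).trans (hF.2.1 x).2⟩, fun x hx => ?_, fun x => ?_⟩
  · simp only [hF.2.2.1 x hx, hG.2.2.1 x hx, min_self]
  · exact (hF.2.2.2 x).min (hG.2.2.2 x)

theorem tau_mem {F G : ℝ → ℝ} (hF : F ∈ D) (hG : G ∈ D) : tau F G ∈ D := by
  by_cases h : F = e ∨ G = e ∨ (1 / 2 ≤ F 2 ∧ 1 / 2 ≤ G 2)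
  · rw [tau_of h]; exact min_mem hF hG
  · rw [tau_not h]; exact zero_mem

theorem tau_comm {F G : ℝ → ℝ} : tau F G = tau G F := by
  by_cases h : F = e ∨ G = e ∨ (1 / 2 ≤ F 2 ∧ 1 / 2 ≤ G 2)
  · have h' : G = e ∨ F = e ∨ (1 / 2 ≤ G 2 ∧ 1 / 2 ≤ F 2) := by tauto
    rw [tau_of h, tau_of h']
    funext x; exact min_comm _ _
  · have h' : ¬ (G = e ∨ F = e ∨ (1 / 2 ≤ G 2 ∧ 1 / 2 ≤ F 2)) := by tauto
    rw [tau_not h, tau_not h']

theorem tau_e {F : ℝ → ℝ} (hF : F ∈ D) : tau F e = F := by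
  rw [tau_of (Or.inr (Or.inl rfl))]
  funext x
  exact min_eq_left (le_e hF x)

theorem e_tau {F : ℝ → ℝ} (hF : F ∈ D) : tau e F = F := by
  rw [tau_comm, tau_e hF]

theorem tau_le_left {F G : ℝ → ℝ} (hF : F ∈ D) : tau F G ≤ F := by
  by_cases h : F = e ∨ G = e ∨ (1 / 2 ≤ F 2 ∧ 1 / 2 ≤ G 2)
  · rw [tau_of h]; intro x; exact min_le_left _ _
  · rw [tau_not h]; intro x; exact (hF.2.1 x).1

theorem e_mem : e ∈ D := by
  refine ⟨?_, ?_, ?_, ?_⟩
  · intro x y h
    unfold e
    by_cases hx : 0 < x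
    · simp [hx, lt_of_lt_of_le hx h]
    · simp only [hx, if_false]
      split_ifs <;> norm_num
  · intro x; unfold e; split_ifs <;> norm_num
  · intro x hx; unfold e; simp [not_lt.mpr hx]
  · intro x
    by_cases hx : 0 < x
    · have : ∀ᶠ y in nhdsWithin x (Set.Iio x), e y = 1 := by
        apply Filter.Eventually.filter_mono nhdsWithin_le_nhds
        filter_upwards [lt_mem_nhds hx] with y hy
        simp [e, hy]
      apply (continuousWithinAt_const (b := (1 : ℝ))).congr_of_eventuallyEq this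
      simp [e, hx]
    · have : ∀ᶠ y in nhdsWithin x (Set.Iio x), e y = 0 := by
        filter_upwards [self_mem_nhdsWithin] with y hy
        have : ¬ 0 < y := by
          have := Set.mem_Iio.mp hy
          linarith [not_lt.mp hx]
        simp [e, this]
      apply (continuousWithinAt_const (b := (0 : ℝ))).congr_of_eventuallyEq this
      simp [e, hx]

theorem tau_ne_e {F G : ℝ → ℝ} (hF : F ∈ D) (h : F ≠ e) : tau F G ≠ e := by
  intro h'
  apply h
  apply le_antisymm (le_e hF)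
  rw [← h']
  exact tau_le_left hF

theorem tau_assoc {F G H : ℝ → ℝ} (hF : F ∈ D) (hG : G ∈ D) (hH : H ∈ D) :
    tau (tau F G) H = tau F (tau G H) := by
  by_cases h1 : F = e
  · rw [h1, e_tau hG, e_tau (tau_mem hG hH)]
  by_cases h2 : G = e
  · rw [h2, tau_e hF, e_tau hH]
  by_cases h3 : H = e
  · rw [h3, tau_e hG, tau_e (tau_mem hF hG)]
  have z2 : ¬ ((1 : ℝ) / 2 ≤ 0) := by norm_num
  by_cases h4 : 1 / 2 ≤ F 2
  · by_cases h5 : 1 / 2 ≤ G 2
    · by_cases h6 : 1 / 2 ≤ H 2
      · rw [tau_of (F := F) (G := G) (Or.inr (Or.inr ⟨h4, h5⟩)),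
          tau_of (F := G) (G := H) (Or.inr (Or.inr ⟨h5, h6⟩)),
          tau_of (F := fun x => min (F x) (G x)) (G := H) (Or.inr (Or.inr ⟨le_min h4 h5, h6⟩)),
          tau_of (F := F) (G := fun x => min (G x) (H x)) (Or.inr (Or.inr ⟨h4, le_min h5 h6⟩))]
        funext x
        exact min_assoc _ _ _
      · have e1 : tau G H = fun _ => 0 := tau_not (by tauto)
        have e2 : tau (tau F G) H = fun _ => 0 := by
          apply tau_not
          have := tau_ne_e (G := G) hF h1
          tauto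
        rw [e1, e2, tau_not]
        rintro (h | h | h)
        · exact h1 h
        · have := tau_ne_e (G := H) hG h2
          exact this (e1.trans h)
        · exact z2 h.2
    · have e1 : tau G H = fun _ => 0 := tau_not (by tauto)
      have e2 : tau F G = fun _ => 0 := tau_not (by tauto)
      rw [e1, e2, tau_not, tau_not]
      · rintro (h | h | h)
        · exact h1 h
        · have := tau_ne_e (G := H) hG h2
          exact this (e1.trans h)
        · exact z2 h.2
      · rintro (h | h | h)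
        · have := tau_ne_e (G := G) hF h1
          exact this (e2.trans h)
        · exact h3 h
        · exact z2 h.1
  · have e2 : tau F G = fun _ => 0 := tau_not (by tauto)
    have e3 : tau F (tau G H) = fun _ => 0 := by
      apply tau_not
      have := tau_ne_e (G := H) hG h2
      tauto
    rw [e2, e3, tau_not]
    rintro (h | h | h)
    · have := tau_ne_e (G := G) hF h1
      exact this (e2.trans h)
    · exact h3 h
    · exact z2 h.1

theorem tau_mono {F₁ F₂ G : ℝ → ℝ} (h2 : F₂ ∈ D) (hG : G ∈ D) (h : F₁ ≤ F₂) :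
    tau F₁ G ≤ tau F₂ G := by
  by_cases hc : F₁ = e ∨ G = e ∨ (1 / 2 ≤ F₁ 2 ∧ 1 / 2 ≤ G 2)
  · have hc' : F₂ = e ∨ G = e ∨ (1 / 2 ≤ F₂ 2 ∧ 1 / 2 ≤ G 2) := by
      rcases hc with hc | hc | hc
      · left
        apply le_antisymm (le_e h2)
        rw [← hc]; exact h
      · exact Or.inr (Or.inl hc)
      · exact Or.inr (Or.inr ⟨hc.1.trans (h 2), hc.2⟩)
    rw [tau_of hc, tau_of hc']
    intro x
    exact min_le_min (h x) le_rfl
  · rw [tau_not hc]
    intro x
    exact ((tau_mem h2 hG).2.1 x).1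

/-- A step function with value `c` on `(0,1]` and `d` on `(1,∞)`. -/
noncomputable def st (c d : ℝ) : ℝ → ℝ := fun x => if 0 < x then (if 1 < x then d else c) else 0

theorem st_mem {c d : ℝ} (hc : 0 ≤ c) (hcd : c ≤ d) (hd : d ≤ 1) : st c d ∈ D := by
  refine ⟨?_, ?_, ?_, ?_⟩
  · intro x y h
    unfold st
    by_cases hx : 0 < x
    · have hy : 0 < y := lt_of_lt_of_le hx h
      simp only [hx, hy, if_true]
      by_cases hx1 : 1 < x
      · simp [hx1, lt_of_lt_of_le hx1 h]
      · simp only [hx1, if_false]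
        split_ifs
        · exact hcd
        · exact le_rfl
    · simp only [hx, if_false]
      split_ifs
      · exact hc.trans hcd
      · exact hc
      · exact le_rfl
  · intro x
    unfold st
    split_ifs
    · exact ⟨hc.trans hcd, hd⟩
    · exact ⟨hc, hcd.trans hd⟩
    · exact ⟨le_rfl, zero_le_one⟩
  · intro x hx
    simp [st, not_lt.mpr hx]
  · intro x
    by_cases hx1 : 1 < x
    · have : ∀ᶠ y in nhdsWithin x (Set.Iio x), st c d y = d := by
        apply Filter.Eventually.filter_mono nhdsWithin_le_nhds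
        filter_upwards [lt_mem_nhds hx1] with y hy
        have : 0 < y := lt_trans one_pos hy
        simp [st, hy, this]
      apply (continuousWithinAt_const (b := d)).congr_of_eventuallyEq this
      have : 0 < x := lt_trans one_pos hx1
      simp [st, hx1, this]
    by_cases hx : 0 < x
    · have : ∀ᶠ y in nhdsWithin x (Set.Iio x), st c d y = c := by
        have h1 : ∀ᶠ y in nhdsWithin x (Set.Iio x), 0 < y := by
          apply Filter.Eventually.filter_mono nhdsWithin_le_nhds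
          exact lt_mem_nhds hx
        filter_upwards [h1, self_mem_nhdsWithin] with y hy hy'
        have : ¬ 1 < y := by
          have := Set.mem_Iio.mp hy'
          linarith [not_lt.mp hx1]
        simp [st, hy, this]
      apply (continuousWithinAt_const (b := c)).congr_of_eventuallyEq this
      simp [st, hx, hx1]
    · have : ∀ᶠ y in nhdsWithin x (Set.Iio x), st c d y = 0 := by
        filter_upwards [self_mem_nhdsWithin] with y hy
        have : ¬ 0 < y := by
          have := Set.mem_Iio.mp hy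
          linarith [not_lt.mp hx]
        simp [st, this]
      apply (continuousWithinAt_const (b := (0 : ℝ))).congr_of_eventuallyEq this
      simp [st, hx]

/-- The negation of the preceding statement: Every commutative, associative, monotone operation on distance distribution functions with identity ε₀ is causal: if F₁≤F₂ and G₁≤G₂ on (−∞,a] with a>0, then τ(F₁,G₁)≤τ(F₂,G₂) on (−∞,a]. -/
theorem result :
    ¬ (∀ D : Set (ℝ → ℝ),
      D = {F : ℝ → ℝ | Monotone F ∧ (∀ x, 0 ≤ F x ∧ F x ≤ 1) ∧ (∀ x : ℝ, x ≤ 0 → F x = 0) ∧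
            ∀ x : ℝ, ContinuousWithinAt F (Set.Iio x) x} →
      ∀ τ : (ℝ → ℝ) → (ℝ → ℝ) → (ℝ → ℝ),
        (∀ F ∈ D, ∀ G ∈ D, τ F G ∈ D) →
        (∀ F ∈ D, ∀ G ∈ D, τ F G = τ G F) →
        (∀ F ∈ D, ∀ G ∈ D, ∀ H ∈ D, τ (τ F G) H = τ F (τ G H)) →
        (∀ F ∈ D, τ F (fun x : ℝ => if 0 < x then (1 : ℝ) else 0) = F) →
        (∀ F₁ ∈ D, ∀ F₂ ∈ D, ∀ G ∈ D, F₁ ≤ F₂ → τ F₁ G ≤ τ F₂ G) →
        ∀ a : ℝ, 0 < a →
          ∀ F₁ ∈ D, ∀ F₂ ∈ D, ∀ G₁ ∈ D, ∀ G₂ ∈ D,
            (∀ x : ℝ, x ≤ a → F₁ x ≤ F₂ x) →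
            (∀ x : ℝ, x ≤ a → G₁ x ≤ G₂ x) →
            ∀ x : ℝ, x ≤ a → τ F₁ G₁ x ≤ τ F₂ G₂ x) := by
  intro hall
  have h := hall D rfl tau (fun F hF G hG => tau_mem hF hG) (fun F _ G _ => tau_comm)
    (fun F hF G hG H hH => tau_assoc hF hG hH) (fun F hF => tau_e hF)
    (fun F₁ _ F₂ h2 G hG h => tau_mono h2 hG h) 1 one_pos
    (st (1 / 4) (1 / 2)) (st_mem (by norm_num) (by norm_num) (by norm_num))
    (st (1 / 4) (1 / 4)) (st_mem (by norm_num) (by norm_num) (by norm_num))
    (st (1 / 4) (1 / 2)) (st_mem (by norm_num) (by norm_num) (by norm_num))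
    (st (1 / 4) (1 / 4)) (st_mem (by norm_num) (by norm_num) (by norm_num))
  have hle : ∀ x : ℝ, x ≤ 1 → st (1 / 4) (1 / 2) x ≤ st (1 / 4) (1 / 4) x := by
    intro x hx
    have : ¬ 1 < x := not_lt.mpr hx
    simp [st, this]
  have h2 := h hle hle 1 le_rfl
  have v1 : tau (st (1 / 4) (1 / 2)) (st (1 / 4) (1 / 2)) 1 = 1 / 4 := by
    rw [tau_of]
    · simp [st]
    · right; right
      norm_num [st]
  have v2 : tau (st (1 / 4) (1 / 4)) (st (1 / 4) (1 / 4)) 1 = 0 := by
    rw [tau_not]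
    have hne : st (1 / 4) (1 / 4) ≠ e := by
      intro h
      have := congrFun h 1
      norm_num [st, e] at this
    rintro (h | h | h)
    · exact hne h
    · exact hne h
    · norm_num [st] at h
  rw [v1, v2] at h2
  norm_num at h2

end Pool.Agent.S02782
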