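import Pool.Statements.S02790
import Pool.Agent.Helper973.KGj

set_option autoImplicit false
open MeasureTheory Filter Topology
open Pool Pool.MP_28611e_an

namespace Pool.Agent.S02790

/-- The negation of the preceding statement: For 0<γ_k<1/4, if μ is the equilibrium (minimal log-energy, finite) probability measure of the Cantor set K(γ), its Jacobi recurrence coefficients a_n, b_n each differ by o(1) from some Bohr almost periodic sequence. -/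
theorem result :
    ¬ (∀ γ : ℕ → ℝ, (∀ k, 0 < γ k ∧ γ k < 1/4) →
  ∀ μ : Measure ℝ, IsProbabilityMeasure μ →
  μ {x : ℝ | ∃ s : ℕ, 1 < |List.foldl (fun (y : ℝ) (k : ℕ) => if k = 0 then 2 * y * (y - 1) / γ 0 + 1 else (y ^ 2 - 1) / (2 * γ k) + 1) x (List.range s)|} = 0 →
  (∫⁻ x, ∫⁻ y, (if x = y then (⊤ : ENNReal) else ENNReal.ofReal (-Real.log |x - y|)) ∂μ ∂μ) < ⊤ →
  (∀ ν : Measure ℝ, IsProbabilityMeasure ν →
    ν {x : ℝ | ∃ s : ℕ, 1 < |List.foldl (fun (y : ℝ) (k : ℕ) => if k = 0 then 2 * y * (y - 1) / γ 0 + 1 else (y ^ 2 - 1) / (2 * γ k) + 1) x (List.range s)|} = 0 →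
    (∫⁻ x, ∫⁻ y, (if x = y then (⊤ : ENNReal) else ENNReal.ofReal (-Real.log |x - y|)) ∂μ ∂μ)
      ≤ (∫⁻ x, ∫⁻ y, (if x = y then (⊤ : ENNReal) else ENNReal.ofReal (-Real.log |x - y|)) ∂ν ∂ν)) →
  ∀ p : ℕ → Polynomial ℝ, (∀ n, (p n).natDegree = n ∧ 0 < (p n).leadingCoeff) →
  (∀ m n, ∫ x, (p m).eval x * (p n).eval x ∂μ = if m = n then 1 else 0) →
  ∃ c d : ℤ → ℝ,
    (∀ ε : ℝ, 0 < ε → ∃ L : ℕ, ∀ m : ℤ, ∃ τ : ℤ, m ≤ τ ∧ τ ≤ m + L ∧ ∀ n : ℤ, |c (n + τ) - c n| < ε) ∧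
    (∀ ε : ℝ, 0 < ε → ∃ L : ℕ, ∀ m : ℤ, ∃ τ : ℤ, m ≤ τ ∧ τ ≤ m + L ∧ ∀ n : ℤ, |d (n + τ) - d n| < ε) ∧
    Tendsto (fun n : ℕ => (∫ x, x * (p n).eval x * (p (n + 1)).eval x ∂μ) - c n) atTop (𝓝 0) ∧
    Tendsto (fun n : ℕ => (∫ x, x * (p n).eval x * (p n).eval x ∂μ) - d n) atTop (𝓝 0)) := by
  intro h
  obtain ⟨μ, hμ, hbad, hfin, hmin, horth, hcoef⟩ := Pool.Agent.Helper973.KG.main
  obtain ⟨c, d, hc, -, ht, -⟩ := h Pool.Agent.Helper973.KG.gam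
    Pool.Agent.Helper973.KG.gam_pos μ hμ hbad hfin hmin Pool.Agent.Helper973.KG.pz
    Pool.Agent.Helper973.KG.pz_deg horth
  exact Pool.Agent.Helper973.KG.not_aap _ hcoef ⟨c, hc, ht⟩

end Pool.Agent.S02790
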