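import Pool.Statements.S02791
import Pool.Agent.HpBall2.FinB

set_option autoImplicit false
open Pool Pool.MP_28b1a7_an

namespace Pool.Agent.S02791

/-- For every n ≥ 2, the Hardy space H^1 of the unit ball of C^n has an unconditional basis of functions that are orthonormal in H^2, i.e. in the L^2 sense on the sphere. -/
theorem result :
    ∀ n : ℕ, 2 ≤ n →
    ∃ e : ℕ → (Fin n → ℂ) → ℂ,
      (∀ k, DifferentiableOn ℂ (e k) {z : Fin n → ℂ | ∑ i, ‖z i‖ ^ 2 < 1}) ∧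
      (∀ k, BddAbove (Set.range fun r : Set.Ioo (0:ℝ) 1 =>
          ∫ z : Fin n → ℂ, ‖e k (((r : ℝ) / Real.sqrt (∑ i, ‖z i‖ ^ 2)) • z)‖ ^ 2
            * Real.exp (-(∑ i, ‖z i‖ ^ 2)))) ∧
      (∃ c : ℝ, 0 < c ∧ ∀ j k : ℕ, Filter.Tendsto (fun r : ℝ =>
          ∫ z : Fin n → ℂ, e j ((r / Real.sqrt (∑ i, ‖z i‖ ^ 2)) • z)
            * starRingEnd ℂ (e k ((r / Real.sqrt (∑ i, ‖z i‖ ^ 2)) • z))
            * ((Real.exp (-(∑ i, ‖z i‖ ^ 2)) : ℝ) : ℂ))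
          (nhdsWithin (1:ℝ) (Set.Iio 1)) (nhds (if j = k then (c : ℂ) else 0))) ∧
      ∀ f : (Fin n → ℂ) → ℂ,
        DifferentiableOn ℂ f {z : Fin n → ℂ | ∑ i, ‖z i‖ ^ 2 < 1} →
        BddAbove (Set.range fun r : Set.Ioo (0:ℝ) 1 =>
          ∫ z : Fin n → ℂ, ‖f (((r : ℝ) / Real.sqrt (∑ i, ‖z i‖ ^ 2)) • z)‖
            * Real.exp (-(∑ i, ‖z i‖ ^ 2))) →
        ∃! a : ℕ → ℂ, Filter.Tendsto (fun G : Finset ℕ =>
          ⨆ r : Set.Ioo (0:ℝ) 1, ∫ z : Fin n → ℂ,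
            ‖f (((r : ℝ) / Real.sqrt (∑ i, ‖z i‖ ^ 2)) • z)
              - ∑ k ∈ G, a k * e k (((r : ℝ) / Real.sqrt (∑ i, ‖z i‖ ^ 2)) • z)‖
            * Real.exp (-(∑ i, ‖z i‖ ^ 2)))
          Filter.atTop (nhds 0) := by
  exact Pool.Agent.HpBall2.S02791_of

end Pool.Agent.S02791
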