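import Pool.Statements.S02794

set_option autoImplicit false
open Pool Pool.MP_28dc43_an

namespace Pool.Agent.S02794

open Cardinal Set

/-- in a regular initial ordinal small sets are bounded -/
theorem bdd_of_small {κ : Cardinal.{0}} (hκ : κ.IsRegular) (S : Set κ.ord.ToType) (hS : #S < κ) :
    ∃ x, ∀ y ∈ S, y < x := by
  by_contra h
  push Not at h
  have h1 : IsCofinal S := fun x => by
    obtain ⟨y, hy, hxy⟩ := h x
    exact ⟨y, hy, hxy⟩
  have h2 := Order.cof_le h1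
  rw [Ordinal.cof_toType, hκ.cof_ord] at h2
  exact absurd h2 (not_le.mpr hS)

theorem mk_iUnion_le_aleph_one {ι α : Type} (f : ι → Set α) (hι : #ι ≤ ℵ₁)
    (hf : ∀ i, #(f i) ≤ ℵ₁) : #(⋃ i, f i) ≤ ℵ₁ := by
  refine (mk_iUnion_le f).trans ?_
  refine (mul_le_mul' hι (ciSup_le' hf)).trans ?_
  rw [Cardinal.mul_eq_self (Cardinal.aleph0_le_aleph 1)]

theorem mk_biUnion_le_aleph_one {ι α : Type} (s : Set ι) (f : ι → Set α) (hι : #s ≤ ℵ₁)
    (hf : ∀ i ∈ s, #(f i) ≤ ℵ₁) : #(⋃ i ∈ s, f i : Set α) ≤ ℵ₁ := by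
  rw [biUnion_eq_iUnion]
  exact mk_iUnion_le_aleph_one _ hι (fun i => hf i.1 i.2)

theorem mk_union_le_aleph_one {α : Type} (s t : Set α) (hs : #s ≤ ℵ₁)
    (ht : #t ≤ ℵ₁) : #(s ∪ t : Set α) ≤ ℵ₁ := by
  refine (mk_union_le s t).trans ?_
  refine (add_le_add hs ht).trans ?_
  rw [Cardinal.add_eq_self (Cardinal.aleph0_le_aleph 1)]

theorem countable_le_aleph_one {α : Type} (s : Set α) (hs : s.Countable) : #s ≤ ℵ₁ :=
  (Cardinal.mk_le_aleph0_iff.mpr hs.to_subtype).trans (Cardinal.aleph0_le_aleph 1)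

theorem mk_span_int_le {X : Type} [AddCommGroup X] (A : Set X) (hA : #A ≤ ℵ₁) :
    #(Submodule.span ℤ A) ≤ ℵ₁ := by
  rcases A.eq_empty_or_nonempty with h | h
  · subst h
    rw [Submodule.span_empty]
    exact (Cardinal.mk_le_one_iff_set_subsingleton.mpr (by intro a ha b hb; simp_all)).trans
      (Cardinal.one_le_aleph0.trans (Cardinal.aleph0_le_aleph 1))
  · have hne : Nonempty A := h.to_subtype
    have h1 : (Submodule.span ℤ A : Set X) = Set.range (Finsupp.linearCombination ℤ ((↑) : A → X)) := by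
      rw [← LinearMap.coe_range, Finsupp.range_linearCombination, Subtype.range_coe]
    have h2 : #(Submodule.span ℤ A) = #(Submodule.span ℤ A : Set X) := rfl
    rw [h2, h1]
    refine mk_range_le.trans ?_
    rw [mk_finsupp_of_infinite']
    refine max_le hA ?_
    rw [Cardinal.mk_int]
    exact Cardinal.aleph0_le_aleph 1

/-- transfinite chain of length omega_1 -/
theorem exists_chain {O P : Type} [LinearOrder O] [WellFoundedLT O] [Preorder P]
    (hO : ∀ a : O, (Iio a).Countable)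
    (hP : ∀ s : Set P, s.Countable → ∃ q, ∀ p ∈ s, p ≤ q) (st : P → P) :
    ∃ p : O → P, ∀ a b, a < b → st (p a) ≤ p b := by
  classical
  have hcount : ∀ b : O, ∀ r : (Iio b) → P, (Set.range r).Countable := by
    intro b r
    have := (hO b).to_subtype
    exact Set.countable_range _
  let p : O → P := WellFoundedLT.fix (fun b (rec : ∀ a, a < b → P) =>
    Classical.choose (hP (Set.range (fun a : Iio b => st (rec a.1 a.2))) (hcount b _)))
  refine ⟨p, fun a b hab => ?_⟩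
  have h1 : p b = Classical.choose (hP (Set.range (fun a : Iio b => st (p a.1))) (hcount b _)) :=
    WellFoundedLT.fix_eq _ b
  rw [h1]
  exact Classical.choose_spec (hP (Set.range (fun a : Iio b => st (p a.1))) (hcount b _)) _
    ⟨⟨a, hab⟩, rfl⟩

section Banach

variable {X : Type} [NormedAddCommGroup X] [NormedSpace ℝ X]

/-- closed real span -/
def CS (A : Set X) : Submodule ℝ X := (Submodule.span ℝ A).topologicalClosure

theorem CS_mono {A B : Set X} (h : A ⊆ B) : CS A ≤ CS B :=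
  Submodule.topologicalClosure_mono (Submodule.span_mono h)

theorem CS_closed (A : Set X) : IsClosed (CS A : Set X) := Submodule.isClosed_topologicalClosure _

theorem CS_le {A : Set X} {V : Submodule ℝ X} (hV : IsClosed (V : Set X)) (h : A ⊆ V) : CS A ≤ V :=
  Submodule.topologicalClosure_minimal _ (Submodule.span_le.mpr h) hV

theorem subset_CS (A : Set X) : A ⊆ CS A := fun _ ha =>
  Submodule.le_topologicalClosure _ (Submodule.subset_span ha)

/-- common kernel of the functionals F x, x in the integer span of A -/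
def KS (F : X → (X →L[ℝ] ℝ)) (A : Set X) : Submodule ℝ X where
  carrier := {v | ∀ x ∈ Submodule.span ℤ A, F x v = 0}
  add_mem' := by
    intro a b ha hb x hx
    rw [map_add, ha x hx, hb x hx, add_zero]
  zero_mem' := by
    intro x _
    exact map_zero _
  smul_mem' := by
    intro c a ha x hx
    rw [map_smul, ha x hx, smul_zero]

theorem mem_KS (F : X → (X →L[ℝ] ℝ)) (A : Set X) (v : X) :
    v ∈ KS F A ↔ ∀ x ∈ Submodule.span ℤ A, F x v = 0 := Iff.rfl

theorem KS_closed (F : X → (X →L[ℝ] ℝ)) (A : Set X) : IsClosed (KS F A : Set X) := by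
  have : (KS F A : Set X) = ⋂ x ∈ Submodule.span ℤ A, {v | F x v = 0} := by
    ext v
    simp [mem_KS]
  rw [this]
  exact isClosed_biInter fun x _ => isClosed_eq (F x).continuous continuous_const

theorem KS_anti (F : X → (X →L[ℝ] ℝ)) {A B : Set X} (h : A ⊆ B) : KS F B ≤ KS F A := by
  intro v hv x hx
  exact hv x (Submodule.span_mono h hx)

theorem int_approx (A : Set X) (v : X) (hv : v ∈ Submodule.span ℝ A) :
    ∃ B : ℝ, ∀ t : ℝ, ∃ x ∈ Submodule.span ℤ A, ‖t • v - x‖ ≤ B := by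
  induction hv using Submodule.span_induction with
  | mem a ha =>
    refine ⟨‖a‖, fun t => ⟨⌊t⌋ • a, Submodule.smul_mem _ _ (Submodule.subset_span ha), ?_⟩⟩
    have h1 : t • a - ⌊t⌋ • a = (Int.fract t) • a := by
      rw [← Int.cast_smul_eq_zsmul ℝ, ← sub_smul]
      rfl
    rw [h1, norm_smul, Real.norm_eq_abs, abs_of_nonneg (Int.fract_nonneg t)]
    exact mul_le_of_le_one_left (norm_nonneg _) (Int.fract_lt_one t).le
  | zero => exact ⟨0, fun t => ⟨0, Submodule.zero_mem _, by simp⟩⟩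
  | add a b _ _ ha hb =>
    obtain ⟨B1, h1⟩ := ha
    obtain ⟨B2, h2⟩ := hb
    refine ⟨B1 + B2, fun t => ?_⟩
    obtain ⟨x, hx, hx'⟩ := h1 t
    obtain ⟨y, hy, hy'⟩ := h2 t
    refine ⟨x + y, Submodule.add_mem _ hx hy, ?_⟩
    have h3 : t • (a + b) - (x + y) = (t • a - x) + (t • b - y) := by
      rw [smul_add]; abel
    rw [h3]
    exact (norm_add_le _ _).trans (add_le_add hx' hy')
  | smul r a _ ha =>
    obtain ⟨B, h⟩ := ha
    refine ⟨B, fun t => ?_⟩
    obtain ⟨x, hx, hx'⟩ := h (t * r)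
    exact ⟨x, hx, by rwa [smul_smul]⟩

theorem norming_span {F : X → (X →L[ℝ] ℝ)} {c : ℝ} (hc : 0 < c)
    (hF1 : ∀ x, ‖F x‖ ≤ 1) (hF2 : ∀ x, c * ‖x‖ ≤ |F x x|) (A : Set X) (v : X)
    (hv : v ∈ Submodule.span ℝ A) (k : X) (hk : k ∈ KS F A) : c * ‖v‖ ≤ ‖v + k‖ := by
  obtain ⟨B, hB⟩ := int_approx A v hv
  have hB0 : 0 ≤ B := by
    obtain ⟨x, _, hx⟩ := hB 0
    exact (norm_nonneg _).trans hx
  have key : ∀ t : ℝ, 0 < t → t * (c * ‖v‖) ≤ t * ‖v + k‖ + (1 + c) * B := by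
    intro t ht
    obtain ⟨x, hx, hxB⟩ := hB t
    have h1 : c * ‖x‖ ≤ ‖x + t • k‖ := by
      have h2 : F x x = F x (x + t • k) := by
        rw [map_add, map_smul, hk x hx, smul_zero, add_zero]
      calc c * ‖x‖ ≤ |F x x| := hF2 x
        _ = ‖F x (x + t • k)‖ := by rw [← h2, Real.norm_eq_abs]
        _ ≤ ‖F x‖ * ‖x + t • k‖ := (F x).le_opNorm _
        _ ≤ 1 * ‖x + t • k‖ := mul_le_mul_of_nonneg_right (hF1 x) (norm_nonneg _)
        _ = _ := one_mul _
    have h3 : ‖t • v‖ ≤ ‖x‖ + B := by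
      have : t • v = x + (t • v - x) := by abel
      rw [this]
      exact (norm_add_le _ _).trans (add_le_add_right hxB _)
    have h4 : ‖x + t • k‖ ≤ ‖t • (v + k)‖ + B := by
      have : x + t • k = t • (v + k) - (t • v - x) := by rw [smul_add]; abel
      rw [this]
      exact (norm_sub_le _ _).trans (add_le_add_right hxB _)
    rw [norm_smul, Real.norm_eq_abs, abs_of_pos ht] at h3 h4
    have h5 : c * (t * ‖v‖) ≤ c * (‖x‖ + B) := mul_le_mul_of_nonneg_left h3 hc.le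
    nlinarith
  by_contra hcon
  push Not at hcon
  set d := c * ‖v‖ - ‖v + k‖ with hd
  have hd0 : 0 < d := by linarith
  have := key (((1 + c) * B + 1) / d) (div_pos (by positivity) hd0)
  have h1 : ((1 + c) * B + 1) / d * (c * ‖v‖) - ((1 + c) * B + 1) / d * ‖v + k‖ = (1 + c) * B + 1 := by
    rw [← mul_sub, ← hd]
    field_simp
  linarith

theorem norming_CS {F : X → (X →L[ℝ] ℝ)} {c : ℝ} (hc : 0 < c)
    (hF1 : ∀ x, ‖F x‖ ≤ 1) (hF2 : ∀ x, c * ‖x‖ ≤ |F x x|) (A : Set X) (v : X)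
    (hv : v ∈ CS A) (k : X) (hk : k ∈ KS F A) : c * ‖v‖ ≤ ‖v + k‖ := by
  have hcl : IsClosed {v : X | c * ‖v‖ ≤ ‖v + k‖} :=
    isClosed_le (continuous_const.mul continuous_norm) (continuous_id.add continuous_const).norm
  have hsub : closure ((Submodule.span ℝ A : Submodule ℝ X) : Set X) ⊆ {v : X | c * ‖v‖ ≤ ‖v + k‖} := by
    apply closure_minimal _ hcl
    intro u hu
    exact norming_span hc hF1 hF2 A u hu k hk
  apply hsub
  rw [← Submodule.topologicalClosure_coe]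
  exact hv

variable [CompleteSpace X]

theorem decomposition {c : ℝ} (hc : 0 < c) (S T : Set X)
    (h : ∀ u ∈ CS S, ∀ k ∈ CS T, c * ‖u‖ ≤ ‖u + k‖) :
    CS (S ∪ T) ≤ CS S ⊔ CS T := by
  have hcS : IsClosed (CS S : Set X) := CS_closed S
  have hcT : IsClosed (CS T : Set X) := CS_closed T
  have : CompleteSpace (CS S) := hcS.completeSpace_coe
  have : CompleteSpace (CS T) := hcT.completeSpace_coe
  let Φ : (CS S × CS T) →L[ℝ] X :=
    (CS S).subtypeL.comp (ContinuousLinearMap.fst ℝ _ _) +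
    (CS T).subtypeL.comp (ContinuousLinearMap.snd ℝ _ _)
  have hΦ : ∀ p : CS S × CS T, Φ p = (p.1 : X) + p.2 := fun p => rfl
  have hanti : AntilipschitzWith (Real.toNNReal (1 + 1 / c)) Φ := by
    apply AddMonoidHomClass.antilipschitz_of_bound
    intro p
    rw [Real.coe_toNNReal _ (by positivity), hΦ]
    have h1 := h p.1 p.1.2 p.2 p.2.2
    have h2 : ‖(p.1 : X)‖ ≤ (1 / c) * ‖(p.1 : X) + p.2‖ := by
      rw [one_div, inv_mul_eq_div, le_div_iff₀ hc, mul_comm]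
      exact h1
    have h3 : ‖(p.2 : X)‖ ≤ (1 + 1 / c) * ‖(p.1 : X) + p.2‖ := by
      have h4 : (p.2 : X) = ((p.1 : X) + p.2) - p.1 := by abel
      have h5 : ‖(p.2 : X)‖ ≤ ‖(p.1 : X) + p.2‖ + ‖(p.1 : X)‖ := by
        conv_lhs => rw [h4]
        exact norm_sub_le _ _
      linarith
    rw [Prod.norm_def]
    refine max_le ?_ h3
    refine (show ‖p.1‖ ≤ _ from h2).trans ?_
    exact mul_le_mul_of_nonneg_right (by linarith) (norm_nonneg _)
  have hclosed : IsClosed (Set.range Φ) := hanti.isClosed_range Φ.uniformContinuous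
  have hrange : ((CS S ⊔ CS T : Submodule ℝ X) : Set X) = Set.range Φ := by
    ext v
    rw [SetLike.mem_coe, Submodule.mem_sup]
    constructor
    · rintro ⟨y, hy, z, hz, rfl⟩
      exact ⟨(⟨y, hy⟩, ⟨z, hz⟩), rfl⟩
    · rintro ⟨p, rfl⟩
      exact ⟨p.1, p.1.2, p.2, p.2.2, rfl⟩
  apply CS_le
  · rw [hrange]; exact hclosed
  · rintro v (hv | hv)
    · exact Submodule.mem_sup_left (subset_CS _ hv)
    · exact Submodule.mem_sup_right (subset_CS _ hv)

omit [CompleteSpace X] in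
theorem countable_CS (A : Set X) (v : X) (hv : v ∈ CS A) : ∃ B ⊆ A, B.Countable ∧ v ∈ CS B := by
  have hv' : v ∈ closure ((Submodule.span ℝ A : Submodule ℝ X) : Set X) := by
    rw [← Submodule.topologicalClosure_coe]; exact hv
  obtain ⟨u, hu, hlim⟩ := mem_closure_iff_seq_limit.mp hv'
  have h1 : ∀ n, ∃ T : Finset X, (T : Set X) ⊆ A ∧ u n ∈ Submodule.span ℝ (T : Set X) := fun n =>
    Submodule.mem_span_finite_of_mem_span (hu n)
  choose T hTA hT using h1
  refine ⟨⋃ n, (T n : Set X), iUnion_subset hTA, countable_iUnion fun n => (T n).countable_toSet, ?_⟩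
  refine (CS_closed _).mem_of_tendsto hlim (Filter.Eventually.of_forall fun n => ?_)
  exact Submodule.le_topologicalClosure _ (Submodule.span_mono (subset_iUnion (fun n => (T n : Set X)) n) (hT n))

end Banach

theorem mem_span_iUnion {X : Type} [AddCommGroup X] {J : Type} [LinearOrder J] [Nonempty J]
    (A : J → Set X) (hA : Monotone A) (x : X) (hx : x ∈ Submodule.span ℤ (⋃ j, A j)) :
    ∃ j, x ∈ Submodule.span ℤ (A j) := by
  rw [Submodule.span_iUnion] at hx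
  exact (Submodule.mem_iSup_of_directed _
    ((Submodule.span_monotone.comp hA).directed_le)).mp hx

theorem exists_lub {I : Type} [LinearOrder I] [WellFoundedLT I] (S : Set I) (b : I)
    (hb : ∀ s ∈ S, s ≤ b) : ∃ d, (∀ s ∈ S, s ≤ d) ∧ ∀ e, (∀ s ∈ S, s ≤ e) → d ≤ e := by
  have hne : {e | ∀ s ∈ S, s ≤ e}.Nonempty := ⟨b, hb⟩
  refine ⟨WellFounded.min wellFounded_lt _ hne, WellFounded.min_mem wellFounded_lt _ hne, ?_⟩
  intro e he
  exact not_lt.mp (WellFounded.not_lt_min wellFounded_lt {e | ∀ s ∈ S, s ≤ e} he)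

section Main

variable {X : Type} [NormedAddCommGroup X] [NormedSpace ℝ X]
  {I : Type} [LinearOrder I] [WellFoundedLT I]

/-- small pairs -/
def Sm (M : Set X) (p : Set X × I) : Prop := p.1 ⊆ M ∧ #p.1 ≤ ℵ₁

/-- closed pairs -/
def Good (M : Set X) (F : X → (X →L[ℝ] ℝ)) (xx : I → X) (p : Set X × I) : Prop :=
  Sm M p ∧ (∀ x ∈ Submodule.span ℤ p.1, ∀ m ∈ M, F x m ≠ 0 → m ∈ p.1) ∧
  (∀ α < p.2, xx α ∈ CS p.1) ∧
  (∀ x ∈ Submodule.span ℤ p.1, ∀ α, p.2 ≤ α → F x (xx α) = F x (xx p.2))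

theorem union_good (M : Set X) (F : X → (X →L[ℝ] ℝ)) (xx : I → X)
    (hI1 : ∀ S : Set I, #S ≤ ℵ₁ → ∃ b, ∀ s ∈ S, s ≤ b)
    {J : Type} [LinearOrder J] [Nonempty J] (hJ : #J ≤ ℵ₁) (p : J → Set X × I) (hmono : Monotone p)
    (hSm : ∀ j, Sm M (p j))
    (hstep : ∀ j, ∃ j', (∀ x ∈ Submodule.span ℤ (p j).1, ∀ m ∈ M, F x m ≠ 0 → m ∈ (p j').1) ∧
      (∀ α < (p j).2, xx α ∈ CS (p j').1) ∧
      (∀ x ∈ Submodule.span ℤ (p j).1, ∀ α, (p j').2 ≤ α → F x (xx α) = F x (xx (p j').2))) :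
    ∃ q : Set X × I, Good M F xx q ∧ (∀ j, p j ≤ q) ∧ q.1 = ⋃ j, (p j).1 ∧
      ∀ b, (∀ j, (p j).2 ≤ b) → q.2 ≤ b := by
  have hr : #(Set.range fun j => (p j).2) ≤ ℵ₁ := mk_range_le.trans hJ
  obtain ⟨b, hb⟩ := hI1 _ hr
  obtain ⟨d, hd1, hd2⟩ := exists_lub _ b hb
  have hd1' : ∀ j, (p j).2 ≤ d := fun j => hd1 _ ⟨j, rfl⟩
  have hd2' : ∀ e, (∀ j, (p j).2 ≤ e) → d ≤ e := fun e he => hd2 e (by rintro _ ⟨j, rfl⟩; exact he j)
  have hm1 : Monotone fun j => (p j).1 := fun a b hab => (hmono hab).1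
  refine ⟨(⋃ j, (p j).1, d), ⟨⟨?_, ?_⟩, ?_, ?_, ?_⟩, ?_, rfl, hd2'⟩
  · exact iUnion_subset fun j => (hSm j).1
  · exact mk_iUnion_le_aleph_one _ hJ fun j => (hSm j).2
  · intro x hx m hm hxm
    obtain ⟨j, hj⟩ := mem_span_iUnion _ hm1 x hx
    obtain ⟨j', h1, _, _⟩ := hstep j
    exact mem_iUnion.mpr ⟨j', h1 x hj m hm hxm⟩
  · intro α hα
    have : ∃ j, α < (p j).2 := by
      by_contra hcon
      push Not at hcon
      exact absurd (hd2' α hcon) (not_le.mpr hα)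
    obtain ⟨j, hj⟩ := this
    obtain ⟨j', _, h2, _⟩ := hstep j
    exact CS_mono (subset_iUnion (fun j => (p j).1) j') (h2 α hj)
  · intro x hx α hα
    obtain ⟨j, hj⟩ := mem_span_iUnion _ hm1 x hx
    obtain ⟨j', _, _, h3⟩ := hstep j
    rw [h3 x hj α ((hd1' j').trans hα), h3 x hj d (hd1' j')]
  · intro j
    exact ⟨subset_iUnion (fun j => (p j).1) j, hd1' j⟩

variable (M : Set X) (F : X → (X →L[ℝ] ℝ)) (xx : I → X)
    (hMtop : CS M = ⊤)
    (hsupp : ∀ x, {m ∈ M | F x m ≠ 0}.Countable)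
    (hI1 : ∀ S : Set I, #S ≤ ℵ₁ → ∃ b, ∀ s ∈ S, s ≤ b)
    (hI2 : ∀ d : I, #(Iio d) ≤ ℵ₁)
    (hbeta : ∀ φ : X →L[ℝ] ℝ, ∃ β : I, ∀ α, β ≤ α → φ (xx α) = φ (xx β))

include hMtop hsupp hI1 hI2 hbeta in
theorem one_step (p : Set X × I) (hp : Sm M p) :
    ∃ q : Set X × I, p ≤ q ∧ Sm M q ∧
      (∀ x ∈ Submodule.span ℤ p.1, ∀ m ∈ M, F x m ≠ 0 → m ∈ q.1) ∧
      (∀ α < p.2, xx α ∈ CS q.1) ∧
      (∀ x ∈ Submodule.span ℤ p.1, ∀ α, q.2 ≤ α → F x (xx α) = F x (xx q.2)) := by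
  have hB : ∀ v : X, ∃ B ⊆ M, B.Countable ∧ v ∈ CS B := fun v =>
    countable_CS M v (by rw [hMtop]; trivial)
  choose B hBM hBc hBv using hB
  choose β hβ using hbeta
  have hspan : #(Submodule.span ℤ p.1 : Set X) ≤ ℵ₁ := mk_span_int_le p.1 hp.2
  have hS : #(insert p.2 ((fun x => β (F x)) '' (Submodule.span ℤ p.1 : Set X)) : Set I) ≤ ℵ₁ := by
    rw [insert_eq]
    refine mk_union_le_aleph_one _ _ (countable_le_aleph_one _ (countable_singleton _)) ?_
    exact mk_image_le.trans hspan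
  obtain ⟨b, hb⟩ := hI1 _ hS
  refine ⟨(p.1 ∪ ((⋃ x ∈ (Submodule.span ℤ p.1 : Set X), {m ∈ M | F x m ≠ 0})
    ∪ (⋃ α ∈ Iio p.2, B (xx α))), b), ⟨subset_union_left, hb _ (mem_insert _ _)⟩, ⟨?_, ?_⟩, ?_, ?_, ?_⟩
  · refine union_subset hp.1 (union_subset ?_ ?_)
    · exact iUnion₂_subset fun x _ => fun m hm => hm.1
    · exact iUnion₂_subset fun α _ => hBM _
  · refine mk_union_le_aleph_one _ _ hp.2 (mk_union_le_aleph_one _ _ ?_ ?_)
    · exact mk_biUnion_le_aleph_one _ _ hspan fun x _ => countable_le_aleph_one _ (hsupp x)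
    · exact mk_biUnion_le_aleph_one _ _ (hI2 p.2) fun α _ => countable_le_aleph_one _ (hBc _)
  · intro x hx m hm hxm
    refine Or.inr (Or.inl ?_)
    exact mem_iUnion₂.mpr ⟨x, hx, ⟨hm, hxm⟩⟩
  · intro α hα
    refine CS_mono ?_ (hBv (xx α))
    intro m hm
    refine Or.inr (Or.inr ?_)
    exact mem_iUnion₂.mpr ⟨α, hα, hm⟩
  · intro x hx α hα
    have h1 : β (F x) ≤ b := hb _ (mem_insert_of_mem _ ⟨x, hx, rfl⟩)
    rw [hβ (F x) α (h1.trans hα), hβ (F x) b h1]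

include hMtop hsupp hI1 hI2 hbeta in
theorem exists_good (p : Set X × I) (hp : Sm M p) : ∃ q, Good M F xx q ∧ p ≤ q := by
  have hst := one_step M F xx hMtop hsupp hI1 hI2 hbeta
  let st : {p : Set X × I // Sm M p} → {p : Set X × I // Sm M p} := fun p =>
    ⟨Classical.choose (hst p.1 p.2), (Classical.choose_spec (hst p.1 p.2)).2.1⟩
  have hst' : ∀ p : {p : Set X × I // Sm M p}, p.1 ≤ (st p).1 ∧
      (∀ x ∈ Submodule.span ℤ p.1.1, ∀ m ∈ M, F x m ≠ 0 → m ∈ (st p).1.1) ∧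
      (∀ α < p.1.2, xx α ∈ CS (st p).1.1) ∧
      (∀ x ∈ Submodule.span ℤ p.1.1, ∀ α, (st p).1.2 ≤ α → F x (xx α) = F x (xx (st p).1.2)) :=
    fun p => ⟨(Classical.choose_spec (hst p.1 p.2)).1, (Classical.choose_spec (hst p.1 p.2)).2.2⟩
  let s : ℕ → {p : Set X × I // Sm M p} := fun n => Nat.rec ⟨p, hp⟩ (fun _ q => st q) n
  have hs : ∀ n, s (n + 1) = st (s n) := fun n => rfl
  have hmono : Monotone fun n => (s n).1 := by
    apply monotone_nat_of_le_succ
    intro n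
    rw [hs]
    exact (hst' (s n)).1
  obtain ⟨q, hq, hq2, _, _⟩ := union_good M F xx hI1 (J := ℕ)
    (Cardinal.mk_nat.le.trans (Cardinal.aleph0_le_aleph 1)) (fun n => (s n).1) hmono
    (fun n => (s n).2) (fun n => ⟨n + 1, (hst' (s n)).2⟩)
  exact ⟨q, hq, hq2 0⟩

theorem unique_z {F : X → (X →L[ℝ] ℝ)} {c : ℝ} (hc : 0 < c)
    (hF1 : ∀ x, ‖F x‖ ≤ 1) (hF2 : ∀ x, c * ‖x‖ ≤ |F x x|) (A : Set X) (u v : X)
    (hu : u ∈ CS A) (hv : v ∈ CS A) (h : u - v ∈ KS F A) : u = v := by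
  have h1 := norming_CS hc hF1 hF2 A (u - v) ((CS A).sub_mem hu hv) (-(u - v)) ((KS F A).neg_mem h)
  rw [add_neg_cancel, norm_zero] at h1
  have h2 : ‖u - v‖ ≤ 0 := by
    by_contra hcon
    push Not at hcon
    have := mul_pos hc hcon
    linarith
  exact sub_eq_zero.mp (norm_le_zero_iff.mp h2)

/-- the limit vector predicate -/
def Zp (F : X → (X →L[ℝ] ℝ)) (xx : I → X) (p : Set X × I) (z : X) : Prop :=
  z ∈ CS p.1 ∧ ∀ α, p.2 ≤ α → xx α - z ∈ KS F p.1

theorem compl_sub_KS {M : Set X} {F : X → (X →L[ℝ] ℝ)} {xx : I → X} {p : Set X × I}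
    (hp : Good M F xx p) {T : Set X} (hT : T ⊆ M \ p.1) : CS T ≤ KS F p.1 := by
  apply CS_le (KS_closed F p.1)
  intro m hm x hx
  by_contra hcon
  exact (hT hm).2 (hp.2.1 x hx m (hT hm).1 hcon)

variable [CompleteSpace X]

theorem decomp_good {M : Set X} {F : X → (X →L[ℝ] ℝ)} {xx : I → X} {c : ℝ} (hc : 0 < c)
    (hF1 : ∀ x, ‖F x‖ ≤ 1) (hF2 : ∀ x, c * ‖x‖ ≤ |F x x|) {p : Set X × I}
    (hp : Good M F xx p) {T : Set X} (hT : T ⊆ M \ p.1) (v : X) (hv : v ∈ CS (p.1 ∪ T)) :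
    ∃ u ∈ CS p.1, v - u ∈ CS T := by
  have h1 := decomposition hc p.1 T (fun u hu k hk =>
    norming_CS hc hF1 hF2 p.1 u hu k (compl_sub_KS hp hT hk))
  obtain ⟨u, hu, k, hk, huk⟩ := Submodule.mem_sup.mp (h1 hv)
  refine ⟨u, hu, ?_⟩
  have : v - u = k := by rw [← huk]; abel
  rw [this]
  exact hk

theorem exists_z {M : Set X} (hMtop : CS M = ⊤) {F : X → (X →L[ℝ] ℝ)} {xx : I → X} {c : ℝ} (hc : 0 < c)
    (hF1 : ∀ x, ‖F x‖ ≤ 1) (hF2 : ∀ x, c * ‖x‖ ≤ |F x x|) {p : Set X × I}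
    (hp : Good M F xx p) : ∃ z, Zp F xx p z := by
  have hun : p.1 ∪ (M \ p.1) = M := union_sdiff_cancel hp.1.1
  obtain ⟨u, hu, hk⟩ := decomp_good hc hF1 hF2 hp (T := M \ p.1) subset_rfl (xx p.2)
    (by rw [hun, hMtop]; trivial)
  refine ⟨u, hu, fun α hα => ?_⟩
  have h1 := compl_sub_KS hp (T := M \ p.1) subset_rfl hk
  intro x hx
  have h2 := h1 x hx
  have h3 := hp.2.2.2 x hx α hα
  rw [map_sub] at h2 ⊢
  rw [h3, h2]

omit [CompleteSpace X] in
theorem z_restrict {F : X → (X →L[ℝ] ℝ)} {xx : I → X} {c : ℝ} (hc : 0 < c)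
    (hF1 : ∀ x, ‖F x‖ ≤ 1) (hF2 : ∀ x, c * ‖x‖ ≤ |F x x|) {p q : Set X × I}
    (hpq : p ≤ q) {z z' : X} (hz : Zp F xx p z) (hz' : Zp F xx q z') (h : z' ∈ CS p.1) : z = z' := by
  apply unique_z hc hF1 hF2 p.1 z z' hz.1 h
  have h1 := hz.2 q.2 hpq.2
  have h2 := KS_anti F hpq.1 (hz'.2 q.2 le_rfl)
  have h3 := (KS F p.1).sub_mem h2 h1
  have h4 : xx q.2 - z' - (xx q.2 - z) = z - z' := by abel
  rwa [h4] at h3

end Main

section Final

variable {X : Type} [NormedAddCommGroup X] [NormedSpace ℝ X] [CompleteSpace X]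
  {I : Type} [LinearOrder I] [WellFoundedLT I]
  {O : Type} [LinearOrder O] [WellFoundedLT O] [Nonempty O]
  (hO : ∀ a : O, (Iio a).Countable) (hO2 : ∀ S : Set O, S.Countable → ∃ b, ∀ s ∈ S, s < b)
  (hO3 : #O ≤ ℵ₁)
  (M : Set X) (F : X → (X →L[ℝ] ℝ)) (xx : I → X)
    (hMtop : CS M = ⊤)
    (hsupp : ∀ x, {m ∈ M | F x m ≠ 0}.Countable)
    {c : ℝ} (hc : 0 < c)
    (hF1 : ∀ x, ‖F x‖ ≤ 1) (hF2 : ∀ x, c * ‖x‖ ≤ |F x x|)
    (hI1 : ∀ S : Set I, #S ≤ ℵ₁ → ∃ b, ∀ s ∈ S, s ≤ b)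
    (hI2 : ∀ d : I, #(Iio d) ≤ ℵ₁)
    (hI3 : ∀ d : I, ∃ e, d < e)
    (hbeta : ∀ φ : X →L[ℝ] ℝ, ∃ β : I, ∀ α, β ≤ α → φ (xx α) = φ (xx β))

omit [CompleteSpace X] in
include hMtop hsupp hI1 hI2 hbeta in
theorem good_directed (S : Set (Set X × I)) (hS : S.Countable) (hSg : ∀ p ∈ S, Good M F xx p) :
    ∃ q, Good M F xx q ∧ ∀ p ∈ S, p ≤ q := by
  have h1 : #(Prod.snd '' S : Set I) ≤ ℵ₁ := countable_le_aleph_one _ (hS.image _)
  obtain ⟨b, hb⟩ := hI1 _ h1
  have hsm : Sm M ((⋃ p ∈ S, p.1, b) : Set X × I) := by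
    constructor
    · exact iUnion₂_subset fun p hp => (hSg p hp).1.1
    · have : (⋃ p ∈ S, p.1) = ⋃ p : S, p.1.1 := biUnion_eq_iUnion _ _
      change #(⋃ p ∈ S, p.1 : Set X) ≤ ℵ₁
      rw [this]
      exact mk_iUnion_le_aleph_one _ (countable_le_aleph_one _ hS) fun p => (hSg p.1 p.2).1.2
  obtain ⟨q, hq, hq2⟩ := exists_good M F xx hMtop hsupp hI1 hI2 hbeta _ hsm
  refine ⟨q, hq, fun p hp => ⟨?_, ?_⟩⟩
  · exact (subset_biUnion_of_mem (u := fun p : Set X × I => p.1) hp).trans hq2.1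
  · exact (hb _ ⟨p, hp, rfl⟩).trans hq2.2

omit [CompleteSpace X] in
theorem in_piece [Nonempty O] (hO2 : ∀ S : Set O, S.Countable → ∃ b, ∀ s ∈ S, s < b)
    (A : O → Set X) (hA : Monotone A) (C : Set X) (hC : C.Countable) (h : C ⊆ ⋃ j, A j) :
    ∃ j, C ⊆ A j := by
  have h1 : ∀ m : C, ∃ j, m.1 ∈ A j := fun m => mem_iUnion.mp (h m.2)
  choose j hj using h1
  have := hC.to_subtype
  obtain ⟨b, hb⟩ := hO2 (Set.range j) (countable_range j)
  exact ⟨b, fun m hm => hA (hb _ ⟨⟨m, hm⟩, rfl⟩).le (hj ⟨m, hm⟩)⟩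

include hO hO2 hO3 hMtop hsupp hc hF1 hF2 hI1 hI2 hbeta in
theorem const_z [Nonempty I] : ∃ (p0 : Set X × I) (z0 : X), Good M F xx p0 ∧
    ∀ q, Good M F xx q → p0 ≤ q → Zp F xx q z0 := by
  by_contra hcon
  push Not at hcon
  let P := {p : Set X × I // Good M F xx p}
  have hz : ∀ p : P, ∃ z, Zp F xx p.1 z := fun p => exists_z hMtop hc hF1 hF2 p.2
  choose zz hzz using hz
  have hst : ∀ p : P, ∃ q : P, p ≤ q ∧ zz q ≠ zz p := by
    intro p
    obtain ⟨q, hq, hpq, hnz⟩ := hcon p.1 (zz p) p.2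
    refine ⟨⟨q, hq⟩, hpq, fun h => hnz ?_⟩
    rw [← h]
    exact hzz ⟨q, hq⟩
  choose st hst1 hst2 using hst
  have hP : ∀ s : Set P, s.Countable → ∃ q, ∀ p ∈ s, p ≤ q := by
    intro s hs
    obtain ⟨q, hq, hq2⟩ := good_directed M F xx hMtop hsupp hI1 hI2 hbeta (Subtype.val '' s)
      (hs.image _) (by rintro _ ⟨p, _, rfl⟩; exact p.2)
    exact ⟨⟨q, hq⟩, fun p hp => hq2 p.1 ⟨p, hp, rfl⟩⟩
  obtain ⟨p, hp⟩ := exists_chain hO hP st
  have hmono : Monotone fun j => (p j).1 := by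
    intro a b hab
    rcases hab.lt_or_eq with h | h
    · exact (hst1 (p a)).trans (hp a b h)
    · rw [h]
  obtain ⟨q, hq, hq2, hq3, _⟩ := union_good M F xx hI1 hO3 (fun j => (p j).1) hmono
    (fun j => (p j).2.1) (fun j => ⟨j, (p j).2.2⟩)
  obtain ⟨zq, hzq⟩ := exists_z hMtop hc hF1 hF2 hq
  obtain ⟨B, hBq, hBc, hzB⟩ := countable_CS q.1 zq hzq.1
  rw [hq3] at hBq
  obtain ⟨j, hj⟩ := in_piece hO2 (fun j => (p j).1.1) (fun a b hab => (hmono hab).1) B hBc hBq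
  have hzj : zq ∈ CS (p j).1.1 := CS_mono hj hzB
  obtain ⟨b, hb⟩ := hO2 {j} (countable_singleton j)
  have hjb : j < b := hb j rfl
  have h1 : zz (p j) = zq := z_restrict hc hF1 hF2 (hq2 j) (hzz (p j)) hzq hzj
  have h3 : (st (p j)).1 ≤ (p b).1 := hp j b hjb
  have h4 : (p b).1 ≤ q := hq2 b
  have h5 : (st (p j)).1 ≤ q := le_trans h3 h4
  have h6 : (p j).1 ≤ (st (p j)).1 := hst1 (p j)
  have h2 : zz (st (p j)) = zq :=
    z_restrict hc hF1 hF2 h5 (hzz (st (p j))) hzq (CS_mono h6.1 hzj)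
  exact hst2 (p j) (h2.trans h1.symm)

include hO hO2 hO3 hMtop hsupp hc hF1 hF2 hI1 hI2 hI3 hbeta in
theorem step_two {p0 : Set X × I} {z0 : X}
    (hz0 : ∀ q, Good M F xx q → p0 ≤ q → Zp F xx q z0) (p1 : Set X × I) (hp1 : Good M F xx p1)
    (hp01 : p0 ≤ p1) :
    ∃ q, Good M F xx q ∧ p1 ≤ q ∧ ∀ φ : X →L[ℝ] ℝ, {m ∈ M | φ m ≠ 0}.Countable →
      ∃ α, p1.2 ≤ α ∧ α < q.2 ∧ φ (xx α) = φ z0 := by
  let P := {p : Set X × I // Good M F xx p ∧ p1 ≤ p}
  have hst : ∀ p : P, ∃ q : P, p ≤ q ∧ p.1.2 < q.1.2 := by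
    intro p
    obtain ⟨e, he⟩ := hI3 p.1.2
    obtain ⟨q, hq, hq2⟩ := exists_good M F xx hMtop hsupp hI1 hI2 hbeta (p.1.1, e) p.2.1.1
    have hpq : p.1 ≤ q := ⟨hq2.1, he.le.trans hq2.2⟩
    exact ⟨⟨q, hq, p.2.2.trans hpq⟩, hpq, lt_of_lt_of_le he hq2.2⟩
  choose st hst1 hst2 using hst
  have hP : ∀ s : Set P, s.Countable → ∃ q, ∀ p ∈ s, p ≤ q := by
    intro s hs
    obtain ⟨q, hq, hq2⟩ := good_directed M F xx hMtop hsupp hI1 hI2 hbeta
      (insert p1 (Subtype.val '' s))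
      ((hs.image _).insert _) (by
        rintro p (rfl | ⟨p, _, rfl⟩)
        · exact hp1
        · exact p.2.1)
    exact ⟨⟨q, hq, hq2 p1 (mem_insert _ _)⟩, fun p hp => hq2 p.1 (mem_insert_of_mem _ ⟨p, hp, rfl⟩)⟩
  obtain ⟨p, hp⟩ := exists_chain hO hP st
  have hmono : Monotone fun j => (p j).1 := by
    intro a b hab
    rcases hab.lt_or_eq with h | h
    · exact (hst1 (p a)).trans (hp a b h)
    · rw [h]
  obtain ⟨q, hq, hq2, hq3, _⟩ := union_good M F xx hI1 hO3 (fun j => (p j).1) hmono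
    (fun j => (p j).2.1.1) (fun j => ⟨j, (p j).2.1.2⟩)
  refine ⟨q, hq, ?_, ?_⟩
  · exact (p (Classical.arbitrary O)).2.2.trans (hq2 _)
  intro φ hφ
  obtain ⟨j, hj⟩ := in_piece hO2 (fun j => (p j).1.1) (fun a b hab => (hmono hab).1)
    ({m ∈ M | φ m ≠ 0} ∩ q.1) (hφ.mono inter_subset_left)
    (by rw [← hq3]; exact inter_subset_right)
  obtain ⟨b, hb⟩ := hO2 {j} (countable_singleton j)
  have hjb : j < b := hb j rfl
  have hlt : (p j).1.2 < q.2 :=
    lt_of_lt_of_le (hst2 (p j)) (le_trans (hp j b hjb).2 (hq2 b).2)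
  refine ⟨(p j).1.2, (p j).2.2.2, hlt, ?_⟩
  have hx : xx (p j).1.2 ∈ CS q.1 := hq.2.2.1 _ hlt
  have hun : (p j).1.1 ∪ (q.1 \ (p j).1.1) = q.1 := union_sdiff_cancel (hq2 j).1
  have hT : q.1 \ (p j).1.1 ⊆ M \ (p j).1.1 := fun m hm => ⟨hq.1.1 hm.1, hm.2⟩
  obtain ⟨u, hu, hk⟩ := decomp_good hc hF1 hF2 (p j).2.1 hT (xx (p j).1.2) (by rw [hun]; exact hx)
  have hz := hz0 (p j).1 (p j).2.1 (hp01.trans (p j).2.2)
  have huz : u = z0 := by
    apply unique_z hc hF1 hF2 (p j).1.1 u z0 hu hz.1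
    have h1 := hz.2 (p j).1.2 le_rfl
    have h2 := compl_sub_KS (p j).2.1 hT hk
    have h3 := (KS F (p j).1.1).sub_mem h1 h2
    have h4 : xx (p j).1.2 - z0 - (xx (p j).1.2 - u) = u - z0 := by abel
    rwa [h4] at h3
  rw [huz] at hk
  have hker : CS (q.1 \ (p j).1.1) ≤ LinearMap.ker (φ : X →ₗ[ℝ] ℝ) := by
    apply CS_le
    · exact isClosed_eq φ.continuous continuous_const
    · intro m hm
      by_contra hcon
      have hm2 : φ m ≠ 0 := hcon
      exact hm.2 (hj ⟨⟨hq.1.1 hm.1, hm2⟩, hm.1⟩)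
  have h5 : φ (xx (p j).1.2 - z0) = 0 := hker hk
  rw [map_sub] at h5
  exact sub_eq_zero.mp h5

include hO hO2 hO3 hMtop hsupp hc hF1 hF2 hI1 hI2 hI3 in
theorem core [Nonempty I] (K : ℝ) (hK : 0 ≤ K)
    (ha : ∀ (φ : X →L[ℝ] ℝ) (N : ℕ) (a b : ℕ → I), (∀ i, a i < b i) → (∀ i j, i < j → b i ≤ a j) →
      ∑ i ∈ Finset.range N, |φ (xx (b i)) - φ (xx (a i))| ≤ K * ‖φ‖)
    (c1 : ℝ) (hc1 : 0 < c1)
    (hb : ∀ (N : ℕ) (d : ℕ → I), StrictMono d →
      c1 * N ≤ ‖∑ i ∈ Finset.range N, xx (d i) - ∑ i ∈ Finset.range N, xx (d (N + i))‖) : False := by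
  -- functionals are eventually constant along xx
  have hbeta : ∀ φ : X →L[ℝ] ℝ, ∃ β : I, ∀ α, β ≤ α → φ (xx α) = φ (xx β) := by
    intro φ
    have hE : ∀ ε : ℝ, 0 < ε → ∃ β, ∀ α, β ≤ α → |φ (xx α) - φ (xx β)| ≤ ε := by
      intro ε hε
      by_contra hcon
      push Not at hcon
      choose nx hnx1 hnx2 using hcon
      let s : ℕ → I := fun n => Nat.rec (Classical.arbitrary I) (fun _ d => nx d) n
      have hs : ∀ n, s (n + 1) = nx (s n) := fun n => rfl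
      have hlt : ∀ n, s n < s (n + 1) := by
        intro n
        rw [hs]
        refine lt_of_le_of_ne (hnx1 _) ?_
        intro h
        have := hnx2 (s n)
        rw [← h, sub_self, abs_zero] at this
        linarith
      have hsm : StrictMono s := strictMono_nat_of_lt_succ hlt
      obtain ⟨N, hN⟩ := exists_nat_gt (K * ‖φ‖ / ε)
      have h1 := ha φ N s (fun n => s (n + 1)) hlt (fun i j hij => hsm.monotone hij)
      have h2 : (N : ℝ) * ε ≤ ∑ i ∈ Finset.range N, |φ (xx (s (i + 1))) - φ (xx (s i))| := by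
        have : ∑ _i ∈ Finset.range N, ε ≤ ∑ i ∈ Finset.range N, |φ (xx (s (i + 1))) - φ (xx (s i))| :=
          Finset.sum_le_sum fun i _ => (hnx2 (s i)).le
        rwa [Finset.sum_const, Finset.card_range, nsmul_eq_mul] at this
      rw [div_lt_iff₀ hε] at hN
      linarith
    have hE' : ∀ n : ℕ, ∃ β, ∀ α, β ≤ α → |φ (xx α) - φ (xx β)| ≤ 1 / ((n : ℝ) + 1) :=
      fun n => hE _ Nat.one_div_pos_of_nat
    choose β hβ using hE'
    obtain ⟨b, hb'⟩ := hI1 (Set.range β) (countable_le_aleph_one _ (countable_range β))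
    refine ⟨b, fun α hα => ?_⟩
    have h1 : ∀ n : ℕ, |φ (xx α) - φ (xx b)| ≤ 2 * (1 / ((n : ℝ) + 1)) := by
      intro n
      have hbn : β n ≤ b := hb' _ ⟨n, rfl⟩
      have h2 := hβ n α (hbn.trans hα)
      have h3 := hβ n b hbn
      have h4 : φ (xx α) - φ (xx b) = (φ (xx α) - φ (xx (β n))) - (φ (xx b) - φ (xx (β n))) := by ring
      rw [h4]
      have h5 := abs_sub (φ (xx α) - φ (xx (β n))) (φ (xx b) - φ (xx (β n)))
      linarith
    have h2 : |φ (xx α) - φ (xx b)| ≤ 0 := by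
      have hlim : Filter.Tendsto (fun n : ℕ => 2 * (1 / ((n : ℝ) + 1))) Filter.atTop (nhds (2 * 0)) :=
        tendsto_one_div_add_atTop_nhds_zero_nat.const_mul 2
      rw [mul_zero] at hlim
      exact ge_of_tendsto' hlim h1
    exact sub_eq_zero.mp (abs_nonpos_iff.mp h2)
  obtain ⟨p0, z0, hp0, hz0⟩ := const_z hO hO2 hO3 M F xx hMtop hsupp hc hF1 hF2 hI1 hI2 hbeta
  have hst := step_two hO hO2 hO3 M F xx hMtop hsupp hc hF1 hF2 hI1 hI2 hI3 hbeta hz0
  let P := {p : Set X × I // Good M F xx p ∧ p0 ≤ p}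
  have hst' : ∀ p : P, ∃ q : P, ∀ φ : X →L[ℝ] ℝ, {m ∈ M | φ m ≠ 0}.Countable →
      ∃ α, p.1.2 ≤ α ∧ α < q.1.2 ∧ φ (xx α) = φ z0 := by
    intro p
    obtain ⟨q, hq, hpq, h⟩ := hst p.1 p.2.1 p.2.2
    exact ⟨⟨q, hq, p.2.2.trans hpq⟩, h⟩
  choose st hst'' using hst'
  let s : ℕ → P := fun n => Nat.rec ⟨p0, hp0, le_rfl⟩ (fun _ d => st d) n
  have hs : ∀ n, s (n + 1) = st (s n) := fun n => rfl
  have hkey : ∀ φ : X →L[ℝ] ℝ, {m ∈ M | φ m ≠ 0}.Countable → ∀ n,
      ∃ α, (s n).1.2 ≤ α ∧ α < (s (n + 1)).1.2 ∧ φ (xx α) = φ z0 := by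
    intro φ hφ n
    rw [hs]
    exact hst'' (s n) φ hφ
  have hlt : ∀ n, (s n).1.2 < (s (n + 1)).1.2 := by
    intro n
    obtain ⟨α, h1, h2, _⟩ := hkey 0 (by simp) n
    exact lt_of_le_of_lt h1 h2
  have hsm : StrictMono fun n => (s n).1.2 := strictMono_nat_of_lt_succ hlt
  let d : ℕ → I := fun n => (s (n + 1)).1.2
  have hd : StrictMono d := fun i j hij => hsm (Nat.succ_lt_succ hij)
  have hsum : ∀ φ : X →L[ℝ] ℝ, {m ∈ M | φ m ≠ 0}.Countable → ∀ N,
      ∑ i ∈ Finset.range N, |φ (xx (d i)) - φ z0| ≤ K * ‖φ‖ := by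
    intro φ hφ N
    choose a ha1 ha2 ha3 using hkey φ hφ
    have h1 := ha φ N a d (fun i => ha2 i) (fun i j hij => (hsm.monotone hij).trans (ha1 j))
    simp only [ha3] at h1
    exact h1
  have hbound : ∀ N : ℕ, c * (c1 * N) ≤ K := by
    intro N
    set v := ∑ i ∈ Finset.range N, xx (d i) - ∑ i ∈ Finset.range N, xx (d (N + i)) with hv
    have h1 := hb N d hd
    have h2 := hF2 v
    have h3 : |F v v| ≤ ∑ i ∈ Finset.range (N + N), |F v (xx (d i)) - F v z0| := by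
      have h4 : F v v = ∑ i ∈ Finset.range N, (F v (xx (d i)) - F v z0)
          - ∑ i ∈ Finset.range N, (F v (xx (d (N + i))) - F v z0) := by
        have h40 : F v v = F v (∑ i ∈ Finset.range N, xx (d i) - ∑ i ∈ Finset.range N, xx (d (N + i))) := by
          rw [← hv]
        rw [h40, map_sub, map_sum, map_sum, Finset.sum_sub_distrib, Finset.sum_sub_distrib]
        ring
      rw [h4, Finset.sum_range_add]
      refine (abs_sub _ _).trans (add_le_add ?_ ?_)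
      · exact Finset.abs_sum_le_sum_abs _ _
      · exact Finset.abs_sum_le_sum_abs _ _
    have h5 := hsum (F v) (hsupp v) (N + N)
    have h6 : K * ‖F v‖ ≤ K * 1 := mul_le_mul_of_nonneg_left (hF1 v) hK
    have h7 : c * (c1 * N) ≤ c * ‖v‖ := mul_le_mul_of_nonneg_left h1 hc.le
    linarith
  obtain ⟨N, hN⟩ := exists_nat_gt (K / (c * c1))
  rw [div_lt_iff₀ (mul_pos hc hc1)] at hN
  have := hbound N
  nlinarith

end Final

section Instance

/-- the ordinal omega_2 -/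
noncomputable abbrev w2 : Ordinal.{0} := (Cardinal.aleph.{0} 2).ord

theorem isClopen_le (a : Ordinal.{0}) : IsClopen {t : Set.Iic w2 | t.1 ≤ a} := by
  constructor
  · exact isClosed_Iic.preimage continuous_subtype_val
  · have : {t : Set.Iic w2 | t.1 ≤ a} = {t : Set.Iic w2 | t.1 < Order.succ a} := by
      ext t
      exact (Order.lt_succ_iff (a := t.1) (b := a)).symm
    rw [this]
    exact isOpen_Iio.preimage continuous_subtype_val

/-- the indicator function of the ordinals at most a -/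
noncomputable def Yf (a : Ordinal.{0}) : BoundedContinuousFunction (Set.Iic w2) ℝ :=
  BoundedContinuousFunction.ofNormedAddCommGroup (fun t => if t.1 ≤ a then (1 : ℝ) else 0)
    (by
      refine Continuous.if ?_ continuous_const continuous_const
      intro t ht
      rw [(isClopen_le a).frontier_eq] at ht
      exact absurd ht (Set.notMem_empty t))
    1 (by
      intro t
      split_ifs <;> simp)

theorem Yf_apply (a : Ordinal.{0}) (t : Set.Iic w2) : Yf a t = if t.1 ≤ a then (1 : ℝ) else 0 := rfl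

/-- the index type -/
abbrev II : Type := (Cardinal.aleph.{0} 2).ord.ToType

/-- the embedding of the index type into the ordinals -/
noncomputable def io (a : II) : Ordinal.{0} := (Ordinal.ToType.mk.symm a).1

theorem io_strictMono : StrictMono io := fun _ _ h => Ordinal.ToType.mk.symm.strictMono h

theorem io_lt (a : II) : io a < w2 := (Ordinal.ToType.mk.symm a).2

theorem norm_comb (N : ℕ) (s : ℕ → ℝ) (hs : ∀ i, |s i| ≤ 1) (a b : ℕ → II)
    (hab : ∀ i, a i < b i) (hba : ∀ i j, i < j → b i ≤ a j) :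
    ‖∑ i ∈ Finset.range N, s i • (Yf (io (b i)) - Yf (io (a i)))‖ ≤ 1 := by
  rw [BoundedContinuousFunction.norm_le zero_le_one]
  intro t
  have h1 : (∑ i ∈ Finset.range N, s i • (Yf (io (b i)) - Yf (io (a i)))) t
      = ∑ i ∈ Finset.range N, s i * (if (io (a i) < t.1 ∧ t.1 ≤ io (b i)) then (1 : ℝ) else 0) := by
    rw [BoundedContinuousFunction.sum_apply]
    refine Finset.sum_congr rfl fun i _ => ?_
    rw [BoundedContinuousFunction.coe_smul, BoundedContinuousFunction.coe_sub]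
    simp only [Pi.sub_apply, Yf_apply, smul_eq_mul]
    congr 1
    have hlt := io_strictMono (hab i)
    by_cases h2 : t.1 ≤ io (a i)
    · have h3 : t.1 ≤ io (b i) := h2.trans hlt.le
      simp [h2, h3, not_lt.mpr h2]
    · by_cases h3 : t.1 ≤ io (b i)
      · simp [h2, h3, not_le.mp h2]
      · simp [h2, h3]
  rw [h1]
  by_cases hex : ∃ i ∈ Finset.range N, io (a i) < t.1 ∧ t.1 ≤ io (b i)
  · obtain ⟨i, hi, hit⟩ := hex
    rw [Finset.sum_eq_single i]
    · rw [if_pos hit, mul_one]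
      exact hs i
    · intro j _ hji
      rw [if_neg, mul_zero]
      rintro ⟨h2, h3⟩
      rcases lt_or_gt_of_ne hji with h | h
      · have := io_strictMono.monotone (hba j i h)
        exact absurd (hit.1.trans_le (h3.trans this)) (lt_irrefl _)
      · have := io_strictMono.monotone (hba i j h)
        exact absurd (h2.trans_le (hit.2.trans this)) (lt_irrefl _)
    · intro h
      exact absurd hi h
  · rw [Finset.sum_eq_zero]
    · simp
    · intro i hi
      rw [if_neg, mul_zero]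
      intro h
      exact hex ⟨i, hi, h⟩

theorem aleph_two_eq : Cardinal.aleph.{0} 2 = Order.succ ℵ₁ := by
  rw [Cardinal.succ_aleph, one_add_one_eq_two]

theorem reg_two : (Cardinal.aleph.{0} 2).IsRegular := by
  rw [aleph_two_eq]
  exact Cardinal.isRegular_succ (Cardinal.aleph0_le_aleph 1)

end Instance

/-- The negation of the preceding statement: There is a real Banach space with a linearly dense set M and a norming family of functionals each nonzero on only countably many points of M (a Plichko space) into which C([0,ω₂]) embeds isomorphically. -/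
theorem result :
    ¬ (∃ (X : Type) (_ : NormedAddCommGroup X) (_ : NormedSpace ℝ X) (_ : CompleteSpace X),
      (∃ M : Set X, Dense ((Submodule.span ℝ M : Submodule ℝ X) : Set X) ∧
        ∃ c : ℝ, 0 < c ∧ ∀ x : X, ∃ f : X →L[ℝ] ℝ,
          Set.Countable {m ∈ M | f m ≠ 0} ∧ ‖f‖ ≤ 1 ∧ c * ‖x‖ ≤ |f x|) ∧
      ∃ T : BoundedContinuousFunction (Set.Iic (Cardinal.aleph.{0} 2).ord) ℝ →L[ℝ] X,
        ∃ c : ℝ, 0 < c ∧ ∀ g, c * ‖g‖ ≤ ‖T g‖) := by
  rintro ⟨X, i1, i2, i3, ⟨M, hM, c, hc, hF⟩, T, c1, hc1, hT⟩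
  choose F hFc hF1 hF2 using hF
  have hMtop : CS M = ⊤ := (Submodule.dense_iff_topologicalClosure_eq_top).mp hM
  have hnomax : NoMaxOrder II := Cardinal.noMaxOrder (Cardinal.aleph0_le_aleph 2)
  have hneI : Nonempty II := by
    rw [Ordinal.nonempty_toType_iff]
    intro h
    have h2 := Cardinal.aleph_pos 2
    rw [Cardinal.ord_eq_zero] at h
    exact h2.ne' h
  have hneO : Nonempty (Cardinal.aleph.{0} 1).ord.ToType := by
    rw [Ordinal.nonempty_toType_iff]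
    intro h
    have h2 := Cardinal.aleph_pos 1
    rw [Cardinal.ord_eq_zero] at h
    exact h2.ne' h
  refine core (O := (Cardinal.aleph.{0} 1).ord.ToType) (I := II) ?_ ?_ ?_ M F
    (fun a => T (Yf (io a))) hMtop hFc hc hF1 hF2 ?_ ?_ ?_ ‖T‖ (norm_nonneg T) ?_ c1 hc1 ?_
  · intro a
    have h1 := Cardinal.mk_Iio_toType_ord_lt a
    rw [Cardinal.lt_aleph_one_iff] at h1
    exact Cardinal.mk_le_aleph0_iff.mp h1
  · intro S hS
    refine bdd_of_small Cardinal.isRegular_aleph_one S ?_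
    exact lt_of_le_of_lt (Cardinal.mk_le_aleph0_iff.mpr hS.to_subtype) Cardinal.aleph0_lt_aleph_one
  · exact (Cardinal.mk_ord_toType _).le
  · intro S hS
    obtain ⟨x, hx⟩ := bdd_of_small reg_two S
      (lt_of_lt_of_le (Order.lt_succ_of_le hS) aleph_two_eq.ge)
    exact ⟨x, fun s hs => (hx s hs).le⟩
  · intro d
    exact Order.lt_succ_iff.mp (lt_of_lt_of_le (Cardinal.mk_Iio_toType_ord_lt d) aleph_two_eq.le)
  · intro d
    exact exists_gt d
  · intro φ N a b hab hba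
    let s : ℕ → ℝ := fun i => SignType.sign (φ (T (Yf (io (b i)))) - φ (T (Yf (io (a i)))))
    have hs : ∀ i, |s i| ≤ 1 := by
      intro i
      simp only [s]
      rcases lt_trichotomy (φ (T (Yf (io (b i)))) - φ (T (Yf (io (a i))))) 0 with h | h | h
      · rw [sign_neg h]; simp
      · rw [h]; simp
      · rw [sign_pos h]; simp
    have h1 := norm_comb N s hs a b hab hba
    have h2 : ∑ i ∈ Finset.range N, |φ (T (Yf (io (b i)))) - φ (T (Yf (io (a i))))|
        = φ (T (∑ i ∈ Finset.range N, s i • (Yf (io (b i)) - Yf (io (a i))))) := by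
      rw [map_sum, map_sum]
      refine Finset.sum_congr rfl fun i _ => ?_
      rw [map_smul, map_smul, map_sub, map_sub, smul_eq_mul]
      exact (sign_mul_self _).symm
    rw [h2]
    calc φ (T (∑ i ∈ Finset.range N, s i • (Yf (io (b i)) - Yf (io (a i)))))
        ≤ ‖φ (T (∑ i ∈ Finset.range N, s i • (Yf (io (b i)) - Yf (io (a i)))))‖ := le_abs_self _
      _ ≤ ‖φ‖ * ‖T (∑ i ∈ Finset.range N, s i • (Yf (io (b i)) - Yf (io (a i))))‖ := φ.le_opNorm _
      _ ≤ ‖φ‖ * (‖T‖ * 1) := by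
          refine mul_le_mul_of_nonneg_left ?_ (norm_nonneg _)
          exact (T.le_opNorm _).trans (mul_le_mul_of_nonneg_left h1 (norm_nonneg _))
      _ = ‖T‖ * ‖φ‖ := by ring
  · intro N d hd
    have h1 : ∑ i ∈ Finset.range N, T (Yf (io (d i))) - ∑ i ∈ Finset.range N, T (Yf (io (d (N + i))))
        = T (∑ i ∈ Finset.range N, Yf (io (d i)) - ∑ i ∈ Finset.range N, Yf (io (d (N + i)))) := by
      rw [map_sub, map_sum, map_sum]
    rw [h1]
    refine le_trans ?_ (hT _)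
    refine mul_le_mul_of_nonneg_left ?_ hc1.le
    let t : Set.Iic w2 := ⟨io (d N), (io_lt (d N)).le⟩
    have h2 : (∑ i ∈ Finset.range N, Yf (io (d i)) - ∑ i ∈ Finset.range N, Yf (io (d (N + i)))) t
        = - (N : ℝ) := by
      rw [BoundedContinuousFunction.coe_sub, Pi.sub_apply, BoundedContinuousFunction.sum_apply,
        BoundedContinuousFunction.sum_apply]
      have h3 : ∑ i ∈ Finset.range N, (Yf (io (d i))) t = 0 := by
        apply Finset.sum_eq_zero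
        intro i hi
        rw [Yf_apply, if_neg]
        exact not_le.mpr (io_strictMono (hd (Finset.mem_range.mp hi)))
      have h4 : ∑ i ∈ Finset.range N, (Yf (io (d (N + i)))) t = N := by
        have : ∀ i ∈ Finset.range N, (Yf (io (d (N + i)))) t = 1 := by
          intro i _
          rw [Yf_apply, if_pos]
          exact io_strictMono.monotone (hd.monotone (Nat.le_add_right N i))
        rw [Finset.sum_congr rfl this, Finset.sum_const, Finset.card_range, nsmul_eq_mul, mul_one]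
      rw [h3, h4, zero_sub]
    have h5 := BoundedContinuousFunction.norm_coe_le_norm
      (∑ i ∈ Finset.range N, Yf (io (d i)) - ∑ i ∈ Finset.range N, Yf (io (d (N + i)))) t
    rw [h2, norm_neg, Real.norm_natCast] at h5
    exact h5

end Pool.Agent.S02794
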