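import Pool.Statements.S02802

set_option autoImplicit false
open scoped ComplexOrder
open Pool Pool.MP_2964cc_an

namespace Pool.Agent.S02802

section Aux
open Matrix

section
variable {n m : Type*} [Fintype n] [DecidableEq n] [Fintype m] [DecidableEq m]

lemma exists_factor {M : Matrix n n ℂ} (hM : M.PosSemidef) :
    ∃ X : Matrix n n ℂ, Xᴴ * X = M := by
  open scoped MatrixOrder in
  refine ⟨CFC.sqrt M, ?_⟩
  have h0 : 0 ≤ M := Matrix.nonneg_iff_posSemidef.mpr hM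
  have h1 : 0 ≤ CFC.sqrt M := CFC.sqrt_nonneg M
  have h2 : (CFC.sqrt M).IsHermitian := (Matrix.nonneg_iff_posSemidef.mp h1).1
  rw [h2.eq]
  exact CFC.sqrt_mul_sqrt_self M h0

lemma diag_contraction {T : Matrix m m ℂ} (hT : T.IsHermitian)
    (h1 : (1 - T).PosSemidef) (h2 : (1 + T).PosSemidef) :
    ∃ (U : Matrix m m ℂ) (t : m → ℝ), (∀ k, |t k| ≤ 1) ∧ Uᴴ * U = 1 ∧ U * Uᴴ = 1 ∧
      T = U * diagonal (fun k => (t k : ℂ)) * Uᴴ := by
  set U : Matrix m m ℂ := (hT.eigenvectorUnitary : Matrix m m ℂ) with hU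
  have hUU : Uᴴ * U = 1 := by
    have := (Matrix.mem_unitaryGroup_iff').1 hT.eigenvectorUnitary.2
    simpa [Matrix.star_eq_conjTranspose] using this
  have hUU' : U * Uᴴ = 1 := by
    have := (Matrix.mem_unitaryGroup_iff).1 hT.eigenvectorUnitary.2
    simpa [Matrix.star_eq_conjTranspose] using this
  have hTs : T = U * diagonal (fun k => (hT.eigenvalues k : ℂ)) * Uᴴ := by
    have := hT.spectral_theorem
    rw [Unitary.conjStarAlgAut_apply] at this
    simpa [Matrix.star_eq_conjTranspose, Function.comp_def] using this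
  refine ⟨U, hT.eigenvalues, ?_, hUU, hUU', hTs⟩
  intro k
  have hd : diagonal (fun k => (hT.eigenvalues k : ℂ)) = Uᴴ * T * U := by
    conv_rhs => rw [hTs]
    calc diagonal (fun k => (hT.eigenvalues k : ℂ)) = 1 * diagonal (fun k => (hT.eigenvalues k : ℂ)) * 1 := by simp
      _ = (Uᴴ * U) * diagonal (fun k => (hT.eigenvalues k : ℂ)) * (Uᴴ * U) := by rw [hUU]
      _ = _ := by simp only [Matrix.mul_assoc]
  have e1 : (1 - diagonal (fun k => (hT.eigenvalues k : ℂ))).PosSemidef := by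
    have := h1.conjTranspose_mul_mul_same U
    rw [hd]
    convert this using 1
    rw [Matrix.mul_sub, Matrix.sub_mul, Matrix.mul_one, hUU]
  have e2 : (1 + diagonal (fun k => (hT.eigenvalues k : ℂ))).PosSemidef := by
    have := h2.conjTranspose_mul_mul_same U
    rw [hd]
    convert this using 1
    rw [Matrix.mul_add, Matrix.add_mul, Matrix.mul_one, hUU]
  have f1 := e1.diag_nonneg (i := k)
  have f2 := e2.diag_nonneg (i := k)
  simp only [Matrix.sub_apply, Matrix.add_apply, Matrix.one_apply_eq, Matrix.diagonal_apply_eq] at f1 f2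
  rw [abs_le]
  have g1 := (Complex.le_def.1 f1).1
  have g2 := (Complex.le_def.1 f2).1
  simp at g1 g2
  constructor <;> linarith

lemma schur_le {Z : Matrix n n ℂ} (hZ : Z.PosDef) (Y : Matrix m n ℂ)
    (h : (Z - Yᴴ * Y).PosSemidef) : (1 - Y * Z⁻¹ * Yᴴ).PosSemidef := by
  have : Invertible Z := hZ.isUnit.invertible
  have : Invertible (1 : Matrix m m ℂ) := invertibleOne
  rw [← Matrix.PosDef.fromBlocks₂₂ (1 : Matrix m m ℂ) Y hZ]
  rw [Matrix.PosDef.fromBlocks₁₁ Y Z Matrix.PosDef.one]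
  simpa using h

lemma moment (S0 S1 S2 : Matrix n n ℂ) (hb : (fromBlocks S0 S1 S1 S2).PosSemidef)
    (h02 : (S0 - S2).PosSemidef) (hpd : (S0 - S1).PosDef) :
    ∃ (t : n ⊕ n → ℝ) (B : Matrix (n ⊕ n) n ℂ), (∀ k, |t k| ≤ 1) ∧ Bᴴ * B = S0 ∧
      Bᴴ * diagonal (fun k => (t k : ℂ)) * B = S1 ∧
      Bᴴ * (diagonal (fun k => (t k : ℂ)) * diagonal (fun k => (t k : ℂ))) * B = S2 := by
  obtain ⟨X, hX⟩ := exists_factor hb
  set A : Matrix (n ⊕ n) n ℂ := X.submatrix id Sum.inl with hA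
  set F : Matrix (n ⊕ n) n ℂ := X.submatrix id Sum.inr with hF
  have hAA : Aᴴ * A = S0 := by
    ext i j
    have := congrFun (congrFun hX (Sum.inl i)) (Sum.inl j)
    simpa [Matrix.mul_apply, A] using this
  have hAF : Aᴴ * F = S1 := by
    ext i j
    have := congrFun (congrFun hX (Sum.inl i)) (Sum.inr j)
    simpa [Matrix.mul_apply, A, F] using this
  have hFA : Fᴴ * A = S1 := by
    ext i j
    have := congrFun (congrFun hX (Sum.inr i)) (Sum.inl j)
    simpa [Matrix.mul_apply, A, F] using this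
  have hFF : Fᴴ * F = S2 := by
    ext i j
    have := congrFun (congrFun hX (Sum.inr i)) (Sum.inr j)
    simpa [Matrix.mul_apply, F] using this
  set Z : Matrix n n ℂ := S0 - S1 with hZ
  set Y : Matrix (n ⊕ n) n ℂ := A - F with hY
  have hYY : Yᴴ * Y = S0 - S1 - S1 + S2 := by
    rw [hY, Matrix.conjTranspose_sub, Matrix.sub_mul, Matrix.mul_sub, Matrix.mul_sub, hAA, hAF, hFA, hFF]
    abel
  have hYA : Yᴴ * A = Z := by
    rw [hY, Matrix.conjTranspose_sub, Matrix.sub_mul, hAA, hFA]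
  have hZu : IsUnit Z.det := by
    have := hpd.isUnit
    rwa [Matrix.isUnit_iff_isUnit_det] at this
  have hZinv : Z⁻¹ * Z = 1 := Matrix.nonsing_inv_mul _ hZu
  have hZip : (Z⁻¹).PosDef := hpd.inv
  -- the matrix T
  set T : Matrix (n ⊕ n) (n ⊕ n) ℂ := 1 - Y * Z⁻¹ * Yᴴ with hT
  have hE : (Y * Z⁻¹ * Yᴴ).PosSemidef := hZip.posSemidef.mul_mul_conjTranspose_same Y
  have hTh : T.IsHermitian := by
    have := hE.1
    exact Matrix.isHermitian_one.sub this
  have h1 : (1 - T).PosSemidef := by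
    rw [hT]; simpa using hE
  have h2Z : ((2 : ℂ) • Z).PosDef := hpd.smul (by norm_num : (0 : ℂ) < 2)
  have h3 : ((2 : ℂ) • Z - Yᴴ * Y).PosSemidef := by
    rw [hYY]
    convert h02 using 1
    rw [hZ, two_smul]; abel
  have h4 := schur_le h2Z Y h3
  have h5 : ((2 : ℂ) • Z)⁻¹ = (1 / 2 : ℂ) • Z⁻¹ := by
    apply Matrix.inv_eq_left_inv
    rw [Matrix.smul_mul, Matrix.mul_smul, smul_smul, hZinv]
    norm_num
  have h2 : (1 + T).PosSemidef := by
    have h6 : (1 + T) = (2 : ℂ) • (1 - Y * ((2 : ℂ) • Z)⁻¹ * Yᴴ) := by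
      rw [h5, hT, Matrix.mul_smul, Matrix.smul_mul, smul_sub, smul_smul, two_smul,
        show (2 : ℂ) * (1 / 2) = 1 by norm_num, one_smul]
      abel
    rw [h6]
    exact h4.smul (by norm_num : (0 : ℂ) ≤ 2)
  have hTA : T * A = F := by
    rw [hT, Matrix.sub_mul, Matrix.one_mul, Matrix.mul_assoc, hYA, Matrix.mul_assoc, hZinv, Matrix.mul_one, hY]
    abel
  obtain ⟨U, t, ht, hUU, hUU', hTs⟩ := diag_contraction hTh h1 h2
  refine ⟨t, Uᴴ * A, ht, ?_, ?_, ?_⟩
  · rw [Matrix.conjTranspose_mul, Matrix.conjTranspose_conjTranspose]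
    calc Aᴴ * U * (Uᴴ * A) = Aᴴ * (U * Uᴴ) * A := by simp only [Matrix.mul_assoc]
      _ = S0 := by rw [hUU', Matrix.mul_one, hAA]
  · rw [Matrix.conjTranspose_mul, Matrix.conjTranspose_conjTranspose]
    calc Aᴴ * U * diagonal (fun k => (t k : ℂ)) * (Uᴴ * A)
        = Aᴴ * ((U * diagonal (fun k => (t k : ℂ)) * Uᴴ) * A) := by simp only [Matrix.mul_assoc]
      _ = S1 := by rw [← hTs, hTA, hAF]
  · rw [Matrix.conjTranspose_mul, Matrix.conjTranspose_conjTranspose]
    have hTT : (T * A)ᴴ = Fᴴ := by rw [hTA]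
    rw [Matrix.conjTranspose_mul, hTh.eq] at hTT
    calc Aᴴ * U * (diagonal (fun k => (t k : ℂ)) * diagonal (fun k => (t k : ℂ))) * (Uᴴ * A)
        = (Aᴴ * (U * diagonal (fun k => (t k : ℂ)) * 1)) * (diagonal (fun k => (t k : ℂ)) * Uᴴ * A) := by
          simp only [Matrix.mul_assoc, Matrix.one_mul]
      _ = (Aᴴ * (U * diagonal (fun k => (t k : ℂ)) * (Uᴴ * U))) * (diagonal (fun k => (t k : ℂ)) * Uᴴ * A) := by
          rw [hUU]
      _ = (Aᴴ * (U * diagonal (fun k => (t k : ℂ)) * Uᴴ)) * ((U * diagonal (fun k => (t k : ℂ)) * Uᴴ) * A) := by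
          simp only [Matrix.mul_assoc]
      _ = S2 := by rw [← hTs, hTA, hTT, hFF]

end

section
variable {n m : Type*} [Fintype n] [DecidableEq n] [Fintype m] [DecidableEq m]

lemma isOpen_posdef : IsOpen {X : Matrix m m ℂ | (X + Xᴴ).PosDef} := by
  have key : {X : Matrix m m ℂ | (X + Xᴴ).PosDef} =
      {X | ∀ x ∈ Metric.sphere (0 : m → ℂ) 1, 0 < (star x ⬝ᵥ ((X + Xᴴ) *ᵥ x)).re} := by
    ext X
    simp only [Set.mem_setOf_eq]
    constructor
    · intro h x hx
      have hx0 : x ≠ 0 := by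
        intro h0; rw [h0] at hx; simp at hx
      exact (Complex.lt_def.1 (h.dotProduct_mulVec_pos hx0)).1
    · intro h
      have hH : (X + Xᴴ).IsHermitian := Matrix.isHermitian_add_transpose_self X
      refine Matrix.PosDef.of_dotProduct_mulVec_pos hH ?_
      intro x hx
      have hnorm : 0 < ‖x‖ := norm_pos_iff.2 hx
      have h1 := h (((‖x‖⁻¹ : ℝ) : ℂ) • x) (by
        rw [mem_sphere_zero_iff_norm, norm_smul]
        simp [hnorm.ne'])
      have h2 : star ((((‖x‖⁻¹ : ℝ) : ℂ)) • x) ⬝ᵥ ((X + Xᴴ) *ᵥ ((((‖x‖⁻¹ : ℝ) : ℂ)) • x))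
          = ((‖x‖⁻¹ ^ 2 : ℝ) : ℂ) * (star x ⬝ᵥ ((X + Xᴴ) *ᵥ x)) := by
        rw [Matrix.mulVec_smul, star_smul, smul_dotProduct, dotProduct_smul]
        simp only [smul_eq_mul, RCLike.star_def, Complex.conj_ofReal]
        push_cast
        ring
      rw [h2, Complex.re_ofReal_mul] at h1
      have h3 : 0 < (star x ⬝ᵥ ((X + Xᴴ) *ᵥ x)).re := by
        have : 0 < ‖x‖⁻¹ ^ 2 := by positivity
        exact (pos_iff_pos_of_mul_pos h1).1 this
      have h4 : (star x ⬝ᵥ ((X + Xᴴ) *ᵥ x)).im = 0 := by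
        have := hH.im_star_dotProduct_mulVec_self x
        simpa using this
      rw [Complex.lt_def]
      exact ⟨by simpa using h3, by simpa using h4.symm⟩
  rw [key, isOpen_iff_eventually]
  intro X hX
  apply (isCompact_sphere (0 : m → ℂ) 1).eventually_forall_of_forall_eventually
  intro x hx
  have hc : Continuous (fun p : Matrix m m ℂ × (m → ℂ) =>
      (star p.2 ⬝ᵥ ((p.1 + p.1ᴴ) *ᵥ p.2)).re) := by
    apply Complex.continuous_re.comp
    apply Continuous.dotProduct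
    · fun_prop
    · apply Continuous.matrix_mulVec
      · fun_prop
      · fun_prop
  exact hc.continuousAt.eventually (lt_mem_nhds (hX x hx))

lemma functional_matrix (f : Matrix m m ℂ →ₗ[ℂ] ℂ) :
    ∃ R : Matrix m m ℂ, ∀ X, f X = (R * X).trace := by
  refine ⟨Matrix.of fun j i => f (Matrix.single i j 1), ?_⟩
  intro X
  conv_lhs => rw [Matrix.matrix_eq_sum_single X]
  simp only [map_sum, Matrix.trace, Matrix.diag_apply, Matrix.mul_apply, Matrix.of_apply]
  rw [Finset.sum_comm]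
  refine Finset.sum_congr rfl fun j _ => Finset.sum_congr rfl fun i _ => ?_
  have : Matrix.single i j (X i j) = (X i j) • Matrix.single i j (1 : ℂ) := by
    rw [Matrix.smul_single]; simp
  rw [this, map_smul, smul_eq_mul, mul_comm]

end

section
variable {n m : Type*} [Fintype n] [DecidableEq n] [Fintype m] [DecidableEq m]

/-- block perturbation -/
def blk (C K : Matrix n n ℂ) : Matrix (n ⊕ n) (n ⊕ n) ℂ :=
  fromBlocks (-C) (Complex.I • K) (-(Complex.I • K)) C

lemma blk_add (C K C' K' : Matrix n n ℂ) : blk (C + C') (K + K') = blk C K + blk C' K' := by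
  unfold blk
  rw [fromBlocks_add]
  congr 1 <;> simp only [smul_add, neg_add]

lemma blk_smul (a : ℝ) (C K : Matrix n n ℂ) : blk (a • C) (a • K) = a • blk C K := by
  unfold blk
  rw [fromBlocks_smul]
  congr 1
  · rw [smul_neg]
  · rw [smul_comm]
  · rw [smul_neg, smul_comm]

lemma blk_herm {C K : Matrix n n ℂ} (hC : C.IsHermitian) (hK : K.IsHermitian) :
    (blk C K).IsHermitian := by
  unfold blk
  rw [Matrix.isHermitian_fromBlocks_iff]
  refine ⟨hC.neg, ?_, ?_, hC⟩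
  · rw [conjTranspose_smul, hK.eq]; simp
  · rw [conjTranspose_neg, conjTranspose_smul, hK.eq]; simp

lemma trace_fromBlocks' (A B C D : Matrix n n ℂ) : (fromBlocks A B C D).trace = A.trace + D.trace := by
  simp [Matrix.trace]

/-- trace inequality from the moment lemma -/
lemma trace_ineq (H0 H1 H2 : Matrix n n ℂ) (Q : Matrix (n ⊕ n) (n ⊕ n) ℂ) (η : ℝ)
    (hb : (fromBlocks H0 H1 H1 H2).PosSemidef) (h02 : (H0 - H2).PosSemidef)
    (hpd : (H0 - H1).PosDef)
    (h : ∀ r : ℝ, |r| ≤ 1 → (Q.toBlocks₁₁ + (r : ℂ) • (Q.toBlocks₁₂ + Q.toBlocks₂₁)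
      + ((r * r : ℝ) : ℂ) • Q.toBlocks₂₂ - ((η * (1 + r * r) : ℝ) : ℂ) • 1).PosSemidef) :
    η * ((H0.trace).re + (H2.trace).re) ≤ ((fromBlocks H0 H1 H1 H2 * Q).trace).re := by
  obtain ⟨t, B, ht, hB0, hB1, hB2⟩ := moment H0 H1 H2 hb h02 hpd
  -- sum formula
  have hsum : (fromBlocks H0 H1 H1 H2 * Q).trace - ((η : ℝ) : ℂ) * (H0.trace + H2.trace) =
      ∑ k, (B * (Q.toBlocks₁₁ + ((t k : ℝ) : ℂ) • (Q.toBlocks₁₂ + Q.toBlocks₂₁)
      + ((t k * t k : ℝ) : ℂ) • Q.toBlocks₂₂ - ((η * (1 + t k * t k) : ℝ) : ℂ) • (1 : Matrix n n ℂ)) * Bᴴ :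
        Matrix (n ⊕ n) (n ⊕ n) ℂ) k k := by
    have e1 : ∀ X : Matrix n n ℂ, (H0 * X).trace = ∑ k, (B * X * Bᴴ : Matrix (n ⊕ n) (n ⊕ n) ℂ) k k := by
      intro X
      rw [← hB0, Matrix.mul_assoc, Matrix.trace_mul_comm, Matrix.trace]
      simp [Matrix.diag_apply]
    have e2 : ∀ X : Matrix n n ℂ, (H1 * X).trace = ∑ k, (t k : ℂ) * (B * X * Bᴴ : Matrix (n ⊕ n) (n ⊕ n) ℂ) k k := by
      intro X
      rw [← hB1, Matrix.mul_assoc, Matrix.mul_assoc, Matrix.trace_mul_comm, Matrix.mul_assoc, Matrix.trace]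
      refine Finset.sum_congr rfl fun k _ => ?_
      rw [Matrix.diag_apply, Matrix.diagonal_mul]
    have e3 : ∀ X : Matrix n n ℂ, (H2 * X).trace = ∑ k, ((t k : ℂ) * (t k : ℂ)) * (B * X * Bᴴ : Matrix (n ⊕ n) (n ⊕ n) ℂ) k k := by
      intro X
      rw [← hB2, Matrix.diagonal_mul_diagonal, Matrix.mul_assoc, Matrix.mul_assoc, Matrix.trace_mul_comm, Matrix.mul_assoc, Matrix.trace]
      refine Finset.sum_congr rfl fun k _ => ?_
      rw [Matrix.diag_apply, Matrix.diagonal_mul]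
    have e4 : (fromBlocks H0 H1 H1 H2 * Q).trace = (H0 * Q.toBlocks₁₁).trace + (H1 * Q.toBlocks₂₁).trace
        + ((H1 * Q.toBlocks₁₂).trace + (H2 * Q.toBlocks₂₂).trace) := by
      conv_lhs => rw [← Matrix.fromBlocks_toBlocks Q]
      rw [Matrix.fromBlocks_multiply, trace_fromBlocks', Matrix.trace_add, Matrix.trace_add]
    have e5 : H0.trace = ∑ k, (B * (1 : Matrix n n ℂ) * Bᴴ : Matrix (n ⊕ n) (n ⊕ n) ℂ) k k := by rw [← e1]; simp
    have e6 : H2.trace = ∑ k, ((t k : ℂ) * (t k : ℂ)) * (B * (1 : Matrix n n ℂ) * Bᴴ : Matrix (n ⊕ n) (n ⊕ n) ℂ) k k := by rw [← e3]; simp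
    rw [e4, e1, e2, e2, e3, e5, e6]
    rw [← Finset.sum_add_distrib, ← Finset.sum_add_distrib, ← Finset.sum_add_distrib, ← Finset.sum_add_distrib,
      Finset.mul_sum, ← Finset.sum_sub_distrib]
    refine Finset.sum_congr rfl fun k _ => ?_
    simp only [Matrix.mul_add, Matrix.add_mul, Matrix.mul_sub, Matrix.sub_mul, Matrix.add_apply, Matrix.sub_apply,
      Matrix.mul_smul, Matrix.smul_mul, Matrix.smul_apply, smul_eq_mul]
    push_cast
    ring
  have hnn : 0 ≤ ((fromBlocks H0 H1 H1 H2 * Q).trace - ((η : ℝ) : ℂ) * (H0.trace + H2.trace)).re := by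
    rw [hsum, Complex.re_sum]
    refine Finset.sum_nonneg fun k _ => ?_
    have := ((h (t k) (ht k)).mul_mul_conjTranspose_same B).diag_nonneg (i := k)
    exact (Complex.le_def.1 this).1
  rw [Complex.sub_re, Complex.re_ofReal_mul, Complex.add_re] at hnn
  linarith

end

section
variable {n m : Type*} [Fintype n] [DecidableEq n] [Fintype m] [DecidableEq m]

lemma convex_posdef : Convex ℝ {X : Matrix m m ℂ | (X + Xᴴ).PosDef} := by
  rw [convex_iff_forall_pos]
  intro X hX Y hY a b ha hb hab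
  have hX' : (X + Xᴴ).PosDef := hX
  have hY' : (Y + Yᴴ).PosDef := hY
  show ((a • X + b • Y) + (a • X + b • Y)ᴴ).PosDef
  have : (a • X + b • Y) + (a • X + b • Y)ᴴ = a • (X + Xᴴ) + b • (Y + Yᴴ) := by
    rw [conjTranspose_add, conjTranspose_smul, conjTranspose_smul]
    simp only [star_trivial, smul_add]
    abel
  rw [this]
  exact (hX'.smul ha).add (hY'.smul hb)

lemma convex_target (Q : Matrix (n ⊕ n) (n ⊕ n) ℂ) :
    Convex ℝ {X : Matrix (n ⊕ n) (n ⊕ n) ℂ | ∃ C K : Matrix n n ℂ, C.PosSemidef ∧ K.IsHermitian ∧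
      X = Q + blk C K} := by
  intro X hX Y hY a b ha hb hab
  obtain ⟨C, K, hC, hK, rfl⟩ := hX
  obtain ⟨C', K', hC', hK', rfl⟩ := hY
  refine ⟨a • C + b • C', a • K + b • K', (hC.smul ha).add (hC'.smul hb), ?_, ?_⟩
  · refine Matrix.IsHermitian.add ?_ ?_
    · rw [Matrix.IsHermitian, conjTranspose_smul, hK.eq]; simp
    · rw [Matrix.IsHermitian, conjTranspose_smul, hK'.eq]; simp
  · rw [blk_add, blk_smul, blk_smul, smul_add, smul_add]
    have : Q = a • Q + b • Q := by rw [← add_smul, hab, one_smul]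
    nth_rewrite 3 [this]
    abel

lemma quad_trace (H : Matrix m m ℂ) (x : m → ℂ) :
    star x ⬝ᵥ (H *ᵥ x) = (H * vecMulVec x (star x)).trace := by
  rw [Matrix.mul_vecMulVec, Matrix.trace_vecMulVec, dotProduct_comm]

lemma step1 (Q : Matrix (n ⊕ n) (n ⊕ n) ℂ) (hQ : Q.IsHermitian) (η : ℝ) (hη : 0 < η)
    (h : ∀ r : ℝ, |r| ≤ 1 → (Q.toBlocks₁₁ + (r : ℂ) • (Q.toBlocks₁₂ + Q.toBlocks₂₁)
      + ((r * r : ℝ) : ℂ) • Q.toBlocks₂₂ - ((η * (1 + r * r) : ℝ) : ℂ) • 1).PosSemidef) :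
    ∃ C K : Matrix n n ℂ, C.PosSemidef ∧ K.IsHermitian ∧ (Q + blk C K).PosDef := by
  by_contra hcon
  push Not at hcon
  have disj : Disjoint {X : Matrix (n ⊕ n) (n ⊕ n) ℂ | (X + Xᴴ).PosDef}
      {X : Matrix (n ⊕ n) (n ⊕ n) ℂ | ∃ C K : Matrix n n ℂ, C.PosSemidef ∧ K.IsHermitian ∧
      X = Q + blk C K} := by
    rw [Set.disjoint_left]
    rintro X hX ⟨C, K, hC, hK, rfl⟩
    apply hcon C K hC hK
    have hH : (Q + blk C K).IsHermitian := hQ.add (blk_herm hC.1 hK)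
    have hX' : ((Q + blk C K) + (Q + blk C K)ᴴ).PosDef := hX
    rw [hH.eq, ← two_smul ℝ] at hX'
    have := hX'.smul (show (0 : ℝ) < 1 / 2 by norm_num)
    rwa [smul_smul, show (1 / 2 : ℝ) * 2 = 1 by norm_num, one_smul] at this
  obtain ⟨f, u, hf1, hf2⟩ := RCLike.geometric_hahn_banach_open (𝕜 := ℂ)
    convex_posdef isOpen_posdef (convex_target Q) disj
  obtain ⟨R, hR⟩ := functional_matrix f.toLinearMap
  have hR' : ∀ X, f X = (R * X).trace := hR
  set H : Matrix (n ⊕ n) (n ⊕ n) ℂ := -(R + Rᴴ) with hH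
  have hHH : H.IsHermitian := by
    rw [Matrix.IsHermitian, hH, conjTranspose_neg, conjTranspose_add, conjTranspose_conjTranspose, add_comm]
  have hkey : ∀ X : Matrix (n ⊕ n) (n ⊕ n) ℂ, X.IsHermitian → (H * X).trace.re = - (2 * (f X).re) := by
    intro X hX
    have h1 : (Rᴴ * X).trace = star ((R * X).trace) := by
      rw [← Matrix.trace_conjTranspose, conjTranspose_mul, hX.eq, Matrix.trace_mul_comm]
    rw [hH, Matrix.neg_mul, Matrix.trace_neg, Matrix.add_mul, Matrix.trace_add, h1, ← hR']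
    simp; ring
  have hpos : ∀ P : Matrix (n ⊕ n) (n ⊕ n) ℂ, P.PosSemidef → (f P).re ≤ 0 := by
    intro P hP
    by_contra hlt
    push Not at hlt
    have h1 : ∀ a : ℝ, 0 < a → a * (f P).re + (f 1).re < u := by
      intro a ha
      have hm : (a • P + (1 : Matrix (n ⊕ n) (n ⊕ n) ℂ)) ∈ {X : Matrix (n ⊕ n) (n ⊕ n) ℂ | (X + Xᴴ).PosDef} := by
        show ((a • P + 1) + (a • P + 1)ᴴ).PosDef
        have hh : (a • P + (1 : Matrix (n ⊕ n) (n ⊕ n) ℂ)).PosDef :=
          Matrix.PosDef.posSemidef_add (hP.smul ha.le) Matrix.PosDef.one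
        rw [hh.1.eq]
        exact hh.add hh
      have := hf1 _ hm
      simpa [map_add, map_smul] using this
    have h2 := h1 ((|u| + |(f 1).re| + 1) / (f P).re) (by positivity)
    rw [div_mul_cancel₀ _ hlt.ne'] at h2
    have := le_abs_self u
    have := neg_abs_le (f 1).re
    linarith
  have hone : (f 1).re ≤ 0 := hpos 1 Matrix.PosSemidef.one
  have hone' : ∀ a : ℝ, 0 < a → a * (f 1).re < u := by
    intro a ha
    have hm : (a • (1 : Matrix (n ⊕ n) (n ⊕ n) ℂ)) ∈ {X : Matrix (n ⊕ n) (n ⊕ n) ℂ | (X + Xᴴ).PosDef} := by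
      show ((a • (1 : Matrix (n ⊕ n) (n ⊕ n) ℂ)) + (a • (1 : Matrix (n ⊕ n) (n ⊕ n) ℂ))ᴴ).PosDef
      have hh : (a • (1 : Matrix (n ⊕ n) (n ⊕ n) ℂ)).PosDef := Matrix.PosDef.one.smul ha
      rw [hh.1.eq]
      exact hh.add hh
    have := hf1 _ hm
    simpa [map_smul] using this
  have hu : 0 ≤ u := by
    by_contra hneg
    push Not at hneg
    have hc : 0 < 1 - (f 1).re := by linarith
    have h1 := hone' ((-u) / (1 - (f 1).re)) (div_pos (by linarith) hc)
    have h2 : (-u) / (1 - (f 1).re) * (f 1).re - u = (-u) / (1 - (f 1).re) := by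
      field_simp
      ring
    have h3 : 0 < (-u) / (1 - (f 1).re) := div_pos (by linarith) hc
    linarith
  have hblk' : ∀ C K : Matrix n n ℂ, C.PosSemidef → K.IsHermitian → u ≤ (f Q).re + (f (blk C K)).re := by
    intro C K hC hK
    have := hf2 (Q + blk C K) ⟨C, K, hC, hK, rfl⟩
    simpa [map_add] using this
  have hblk : ∀ C K : Matrix n n ℂ, C.PosSemidef → K.IsHermitian → 0 ≤ (f (blk C K)).re := by
    intro C K hC hK
    by_contra hneg
    push Not at hneg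
    have h1 : ∀ a : ℝ, 0 < a → u ≤ (f Q).re + a * (f (blk C K)).re := by
      intro a ha
      have h2 := hblk' (a • C) (a • K) (hC.smul ha.le) (by
        rw [Matrix.IsHermitian, conjTranspose_smul, hK.eq]; simp)
      rw [blk_smul] at h2
      simpa [map_smul] using h2
    have h3 := h1 ((|u| + |(f Q).re| + 1) / (-(f (blk C K)).re)) (by
      apply div_pos
      · positivity
      · linarith)
    have hne : (f (blk C K)).re ≠ 0 := hneg.ne
    have h4 : (|u| + |(f Q).re| + 1) / (-(f (blk C K)).re) * (f (blk C K)).re = -(|u| + |(f Q).re| + 1) := by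
      field_simp
    rw [h4] at h3
    have := neg_abs_le u
    have := le_abs_self (f Q).re
    linarith
  have hQle : u ≤ (f Q).re := by
    have := hblk' 0 0 Matrix.PosSemidef.zero Matrix.isHermitian_zero
    have hz : blk (0 : Matrix n n ℂ) 0 = 0 := by unfold blk; simp
    rw [hz] at this
    simpa using this
  have hK0 : ∀ K : Matrix n n ℂ, K.IsHermitian → (f (blk 0 K)).re = 0 := by
    intro K hK
    have h1 := hblk 0 K Matrix.PosSemidef.zero hK
    have h2 := hblk 0 (-K) Matrix.PosSemidef.zero hK.neg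
    have h3 : blk (0 : Matrix n n ℂ) (-K) = - blk 0 K := by
      unfold blk; rw [fromBlocks_neg]; simp
    rw [h3, map_neg, Complex.neg_re] at h2
    linarith
  -- H is psd
  have hHpsd : H.PosSemidef := by
    refine Matrix.PosSemidef.of_dotProduct_mulVec_nonneg hHH ?_
    intro x
    rw [Complex.le_def]
    constructor
    · rw [quad_trace, hkey _ (Matrix.posSemidef_vecMulVec_self_star x).1]
      have := hpos _ (Matrix.posSemidef_vecMulVec_self_star x)
      simp only [Complex.zero_re]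
      linarith
    · have := hHH.im_star_dotProduct_mulVec_self x
      simpa using this.symm
  set H0 := H.toBlocks₁₁ with hH0
  set H1 := H.toBlocks₁₂ with hH1
  set H2 := H.toBlocks₂₂ with hH2
  have h21 : H.toBlocks₂₁ = H1ᴴ := by
    ext i j
    have := congrFun (congrFun hHH.eq (Sum.inr i)) (Sum.inl j)
    simpa [Matrix.conjTranspose_apply, toBlocks₂₁, toBlocks₁₂, H1] using this.symm
  have hHb : H = fromBlocks H0 H1 H1ᴴ H2 := by
    rw [← h21, hH0, hH1, hH2, Matrix.fromBlocks_toBlocks]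
  have hH1h : H1ᴴ = H1 := by
    set L : Matrix n n ℂ := Complex.I • (H1ᴴ - H1) with hL
    have hLh : L.IsHermitian := by
      rw [Matrix.IsHermitian, hL, conjTranspose_smul, conjTranspose_sub, conjTranspose_conjTranspose]
      simp only [RCLike.star_def, Complex.conj_I, smul_sub, neg_smul]
      abel
    have h1 : (H * blk 0 L).trace.re = 0 := by
      rw [hkey _ (blk_herm Matrix.isHermitian_zero hLh), hK0 L hLh]; simp
    have h2 : (H * blk 0 L).trace = (Lᴴ * L).trace := by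
      rw [hHb, hLh.eq]
      unfold blk
      rw [Matrix.fromBlocks_multiply, trace_fromBlocks']
      nth_rewrite 3 [hL]
      simp only [neg_zero, Matrix.mul_zero, zero_add, add_zero, Matrix.mul_neg, Matrix.trace_neg, Matrix.mul_smul,
        Matrix.smul_mul, Matrix.sub_mul, Matrix.trace_smul, Matrix.trace_sub, smul_eq_mul]
      ring
    have h3 : (Lᴴ * L).trace = 0 := by
      apply Complex.ext
      · rw [← h2]; simpa using h1
      · have := (Complex.le_def.1 (Matrix.posSemidef_conjTranspose_mul_self L).trace_nonneg).2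
        simpa using this.symm
    have h4 : L = 0 := Matrix.trace_conjTranspose_mul_self_eq_zero_iff.1 h3
    rw [hL] at h4
    have h5 := (smul_eq_zero.1 h4).resolve_left Complex.I_ne_zero
    exact sub_eq_zero.1 h5
  rw [hH1h] at hHb
  have h02 : (H0 - H2).PosSemidef := by
    have hH0h : H0.IsHermitian := by
      have := hHH; rw [hHb, Matrix.isHermitian_fromBlocks_iff] at this; exact this.1
    have hH2h : H2.IsHermitian := by
      have := hHH; rw [hHb, Matrix.isHermitian_fromBlocks_iff] at this; exact this.2.2.2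
    refine Matrix.PosSemidef.of_dotProduct_mulVec_nonneg (hH0h.sub hH2h) ?_
    intro x
    rw [Complex.le_def]
    constructor
    · rw [quad_trace]
      have h1 := hblk (vecMulVec x (star x)) 0 (Matrix.posSemidef_vecMulVec_self_star x) Matrix.isHermitian_zero
      have h2 := hkey (blk (vecMulVec x (star x)) 0) (blk_herm (Matrix.posSemidef_vecMulVec_self_star x).1 Matrix.isHermitian_zero)
      have h3 : (H * blk (vecMulVec x (star x)) 0).trace = - ((H0 - H2) * vecMulVec x (star x)).trace := by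
        rw [hHb]
        unfold blk
        rw [Matrix.fromBlocks_multiply, trace_fromBlocks']
        simp only [smul_zero, neg_zero, Matrix.mul_zero, zero_add, add_zero, Matrix.mul_neg, Matrix.trace_neg,
          Matrix.sub_mul, Matrix.trace_sub]
        ring
      rw [h3, Complex.neg_re] at h2
      simp only [Complex.zero_re]
      linarith
    · have := (hH0h.sub hH2h).im_star_dotProduct_mulVec_self x
      simpa using this.symm
  have h01 : (H0 - H1).PosSemidef := by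
    set J : Matrix (n ⊕ n) n ℂ := fromRows (1 : Matrix n n ℂ) (-1 : Matrix n n ℂ) with hJ
    have e1 : (Jᴴ * H * J).PosSemidef :=
      hHpsd.conjTranspose_mul_mul_same J
    have e2 : (Jᴴ * H * J) = H0 - H1 - H1 + H2 := by
      rw [hHb, hJ, conjTranspose_fromRows_eq_fromCols_conjTranspose, fromCols_mul_fromBlocks, fromCols_mul_fromRows]
      simp
      abel
    rw [e2] at e1
    have e3 := (e1.add h02).smul (show (0 : ℝ) ≤ 1 / 2 by norm_num)
    have e4 : (1 / 2 : ℝ) • (H0 - H1 - H1 + H2 + (H0 - H2)) = H0 - H1 := by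
      have : H0 - H1 - H1 + H2 + (H0 - H2) = (2 : ℝ) • (H0 - H1) := by rw [two_smul]; abel
      rw [this, smul_smul]; norm_num
    rwa [e4] at e3
  have hmain : ∀ ε : ℝ, 0 < ε → η * (-(2 * (f 1).re) + ε * (Fintype.card n : ℝ)) ≤
      -(2 * (f Q).re) + ε * (Q.toBlocks₁₁.trace).re := by
    intro ε hε
    have hb : (fromBlocks (H0 + ε • (1 : Matrix n n ℂ)) H1 H1 H2).PosSemidef := by
      have e1 : fromBlocks (H0 + ε • (1 : Matrix n n ℂ)) H1 H1 H2 = H + fromBlocks (ε • (1 : Matrix n n ℂ)) 0 0 0 := by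
        rw [hHb, fromBlocks_add]; simp
      rw [e1]
      refine hHpsd.add ?_
      have e2 : fromBlocks (ε • (1 : Matrix n n ℂ)) 0 0 0 = diagonal (Sum.elim (fun _ : n => (ε : ℂ)) (fun _ : n => (0 : ℂ))) := by
        rw [← Matrix.fromBlocks_diagonal]
        congr 1
        · ext i j
          by_cases hij : i = j
          · subst hij; simp
          · simp [hij]
        · simp
      rw [e2]
      apply Matrix.PosSemidef.diagonal
      intro i
      cases i with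
      | inl i => simpa using hε.le
      | inr i => simp
    have h02' : (H0 + ε • (1 : Matrix n n ℂ) - H2).PosSemidef := by
      have : H0 + ε • (1 : Matrix n n ℂ) - H2 = (H0 - H2) + ε • (1 : Matrix n n ℂ) := by abel
      rw [this]
      exact h02.add (Matrix.PosSemidef.one.smul hε.le)
    have h01' : (H0 + ε • (1 : Matrix n n ℂ) - H1).PosDef := by
      have : H0 + ε • (1 : Matrix n n ℂ) - H1 = (H0 - H1) + ε • (1 : Matrix n n ℂ) := by abel
      rw [this]
      exact Matrix.PosDef.posSemidef_add h01 (Matrix.PosDef.one.smul hε)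
    have e3 := trace_ineq _ _ _ Q η hb h02' h01' h
    have e4 : (fromBlocks (H0 + ε • (1 : Matrix n n ℂ)) H1 H1 H2 * Q).trace = (H * Q).trace + ε • Q.toBlocks₁₁.trace := by
      conv_lhs => rw [← Matrix.fromBlocks_toBlocks Q]
      conv_rhs => rw [← Matrix.fromBlocks_toBlocks Q]
      rw [hHb, Matrix.fromBlocks_multiply, Matrix.fromBlocks_multiply, trace_fromBlocks', trace_fromBlocks', Matrix.add_mul]
      simp only [Matrix.trace_add, Matrix.smul_mul, Matrix.one_mul, Matrix.trace_smul, Matrix.toBlocks_fromBlocks₁₁]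
      abel
    have e5 : H0.trace + H2.trace = (H * 1).trace := by
      rw [Matrix.mul_one, hHb, trace_fromBlocks']
    have e6 : (H0.trace).re + (H2.trace).re = -(2 * (f 1).re) := by
      rw [← Complex.add_re, e5, hkey 1 Matrix.isHermitian_one]
    rw [e4, Complex.add_re, hkey Q hQ, Matrix.trace_add, Complex.add_re, Matrix.trace_smul, Matrix.trace_one] at e3
    simp only [Complex.real_smul, Complex.re_ofReal_mul, Complex.natCast_re] at e3
    have e7 : (H0.trace).re + ε * (Fintype.card n : ℝ) + (H2.trace).re = -(2 * (f 1).re) + ε * (Fintype.card n : ℝ) := by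
      linarith
    rw [e7] at e3
    exact e3
  have hlim : η * (-(2 * (f 1).re)) ≤ -(2 * (f Q).re) := by
    apply le_of_forall_pos_le_add
    intro ε hε
    set D : ℝ := |(Q.toBlocks₁₁.trace).re| + 1 with hD
    have hDpos : 0 < D := by positivity
    have h1 := hmain (ε / D) (by positivity)
    have h2 : (ε / D) * (Q.toBlocks₁₁.trace).re ≤ ε := by
      have : (Q.toBlocks₁₁.trace).re ≤ D := by
        have := le_abs_self (Q.toBlocks₁₁.trace).re
        linarith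
      calc (ε / D) * (Q.toBlocks₁₁.trace).re ≤ (ε / D) * D := by
            apply mul_le_mul_of_nonneg_left this (by positivity)
        _ = ε := by field_simp
    have h3 : 0 ≤ η * ((ε / D) * (Fintype.card n : ℝ)) := by positivity
    nlinarith
  have hlt : (f 1).re < u := by
    have := hone' 1 one_pos
    simpa using this
  rcases hone.lt_or_eq with h0 | h0
  · have := mul_neg_of_pos_of_neg hη h0
    linarith
  · rw [h0] at hlt hlim
    linarith

end

section
variable {n m : Type*} [Fintype n] [DecidableEq n] [Fintype m] [DecidableEq m]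

lemma half_smul_two (X : Matrix m m ℂ) : (1 / 2 : ℝ) • (X + X) = X := by
  rw [← two_smul ℝ X, smul_smul]; norm_num

theorem main_fact (U0 U1 : Matrix n n ℂ) (η : ℝ) (hη : 0 < η)
    (h : ∀ r : ℝ, |r| ≤ 1 → (((1 + r * r : ℝ) : ℂ) • (1 : Matrix n n ℂ)
      - (U0 + (r : ℂ) • U1)ᴴ * (U0 + (r : ℂ) • U1) - ((η * (1 + r * r) : ℝ) : ℂ) • 1).PosSemidef) :
    ∃ (t : n ⊕ n → ℝ) (B : Matrix (n ⊕ n) n ℂ) (A : Matrix n (n ⊕ n) ℂ),
      (∀ k, |t k| ≤ 1) ∧
      Bᴴ * B + Bᴴ * (diagonal (fun k => (t k : ℂ)) * diagonal (fun k => (t k : ℂ))) * B = 1 ∧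
      (1 - A * Aᴴ).PosSemidef ∧
      U0 = A * (((Real.sqrt 2 : ℝ) : ℂ) • (diagonal (fun k => (t k : ℂ)) * B)) ∧
      U1 = A * ((((Real.sqrt 2 : ℝ) : ℂ) * Complex.I) • B) := by
  set U : Matrix n (n ⊕ n) ℂ := fromCols U0 U1 with hU
  set Q : Matrix (n ⊕ n) (n ⊕ n) ℂ := 1 - Uᴴ * U with hQ
  have hUU : Uᴴ * U = fromBlocks (U0ᴴ * U0) (U0ᴴ * U1) (U1ᴴ * U0) (U1ᴴ * U1) := by
    rw [hU, conjTranspose_fromCols_eq_fromRows_conjTranspose, fromRows_mul_fromCols]
  have hQb : Q = fromBlocks (1 - U0ᴴ * U0) (-(U0ᴴ * U1)) (-(U1ᴴ * U0)) (1 - U1ᴴ * U1) := by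
    rw [hQ, hUU, ← fromBlocks_one, sub_eq_add_neg, fromBlocks_neg, fromBlocks_add]
    simp only [zero_add, sub_eq_add_neg]
  have hQh : Q.IsHermitian := by
    rw [hQ]; exact Matrix.isHermitian_one.sub (Matrix.isHermitian_conjTranspose_mul_self U)
  obtain ⟨C, K, hC, hK, hpd⟩ := step1 Q hQh η hη (by
    intro r hr
    have := h r hr
    convert this using 2
    rw [hQb]
    simp only [toBlocks_fromBlocks₁₁, toBlocks_fromBlocks₁₂, toBlocks_fromBlocks₂₁, toBlocks_fromBlocks₂₂]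
    simp only [conjTranspose_add, conjTranspose_smul, Matrix.add_mul, Matrix.mul_add, Matrix.smul_mul,
      Matrix.mul_smul, RCLike.star_def, Complex.conj_ofReal, smul_sub, smul_add, smul_neg, smul_smul]
    push_cast
    rw [add_smul, one_smul]
    abel)
  set M : Matrix (n ⊕ n) (n ⊕ n) ℂ := 1 + blk C K with hM
  have hMU : M - Uᴴ * U = Q + blk C K := by rw [hM, hQ]; abel
  have hMpd : M.PosDef := by
    have : M = (Q + blk C K) + Uᴴ * U := by rw [← hMU]; abel
    rw [this]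
    exact hpd.add_posSemidef (Matrix.posSemidef_conjTranspose_mul_self U)
  have hMb : M = fromBlocks (1 - C) (Complex.I • K) (-(Complex.I • K)) (1 + C) := by
    rw [hM, ← fromBlocks_one]
    unfold blk
    rw [fromBlocks_add]
    simp only [zero_add, sub_eq_add_neg]
  -- moment data
  set S0 : Matrix n n ℂ := (1 / 2 : ℝ) • (1 + C) with hS0
  set S1 : Matrix n n ℂ := (1 / 2 : ℝ) • K with hS1
  set S2 : Matrix n n ℂ := (1 / 2 : ℝ) • (1 - C) with hS2
  have hblock : (fromBlocks S0 S1 S1 S2).PosDef := by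
    set J : Matrix (n ⊕ n) (n ⊕ n) ℂ := fromBlocks 0 (Complex.I • (1 : Matrix n n ℂ)) 1 0 with hJ
    have hJH : Jᴴ = fromBlocks 0 1 (-(Complex.I • (1 : Matrix n n ℂ))) 0 := by
      rw [hJ, fromBlocks_conjTranspose]
      simp
    have hJJ : J * Jᴴ = 1 := by
      rw [hJH, hJ, fromBlocks_multiply]
      simp [smul_smul]
    have hJu : IsUnit J := IsUnit.of_mul_eq_one _ hJJ
    have e1 : (star J * M * J).PosDef := (Matrix.IsUnit.posDef_star_left_conjugate_iff hJu).2 hMpd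
    have e2 : star J * M * J = fromBlocks (1 + C) K K (1 - C) := by
      rw [star_eq_conjTranspose, hJH, hMb, hJ, fromBlocks_multiply, fromBlocks_multiply]
      simp [smul_smul]
    rw [e2] at e1
    have e3 := e1.smul (show (0 : ℝ) < 1 / 2 by norm_num)
    rw [fromBlocks_smul] at e3
    exact e3
  have hS02 : (S0 - S2).PosSemidef := by
    have : S0 - S2 = C := by
      rw [hS0, hS2, ← smul_sub]
      have : (1 + C - (1 - C)) = C + C := by abel
      rw [this, half_smul_two]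
    rw [this]; exact hC
  have hS01 : (S0 - S1).PosDef := by
    set J : Matrix (n ⊕ n) n ℂ := fromRows (1 : Matrix n n ℂ) (-1 : Matrix n n ℂ) with hJ
    have hinj : Function.Injective (J.mulVec) := by
      intro x y hxy
      have h1 : (J *ᵥ x) = Sum.elim x (-x) := by
        rw [hJ, fromRows_mulVec, Matrix.neg_mulVec, Matrix.one_mulVec]
      have h2 : (J *ᵥ y) = Sum.elim y (-y) := by
        rw [hJ, fromRows_mulVec, Matrix.neg_mulVec, Matrix.one_mulVec]
      have h3 : Sum.elim x (-x) = Sum.elim y (-y) := by rw [← h1, ← h2]; exact hxy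
      funext i
      exact congrFun h3 (Sum.inl i)
    have e1 : (Jᴴ * (fromBlocks S0 S1 S1 S2) * J).PosDef :=
      hblock.conjTranspose_mul_mul_same hinj
    have e2 : (Jᴴ * (fromBlocks S0 S1 S1 S2) * J) = S0 - S1 - S1 + S2 := by
      rw [hJ, conjTranspose_fromRows_eq_fromCols_conjTranspose, fromCols_mul_fromBlocks, fromCols_mul_fromRows]
      simp
      abel
    rw [e2] at e1
    have e3 := (e1.add_posSemidef hS02).smul (show (0 : ℝ) < 1 / 2 by norm_num)
    have e4 : (1 / 2 : ℝ) • (S0 - S1 - S1 + S2 + (S0 - S2)) = S0 - S1 := by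
      have : S0 - S1 - S1 + S2 + (S0 - S2) = (S0 - S1) + (S0 - S1) := by abel
      rw [this, half_smul_two]
    rwa [e4] at e3
  obtain ⟨t, B, ht, hB0, hB1, hB2⟩ := moment S0 S1 S2 hblock.posSemidef hS02 hS01
  set D : Matrix (n ⊕ n) (n ⊕ n) ℂ := diagonal (fun k => (t k : ℂ)) with hD
  have hDh : Dᴴ = D := by
    rw [hD, diagonal_conjTranspose]
    congr 1
    funext k
    simp
  set c : ℂ := ((Real.sqrt 2 : ℝ) : ℂ) with hc
  have hcc : c * c = 2 := by
    rw [hc, ← Complex.ofReal_mul, Real.mul_self_sqrt (by norm_num)]; simp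
  have hcs : star c = c := by rw [hc]; simp
  set W0 : Matrix (n ⊕ n) n ℂ := c • (D * B) with hW0
  set W1 : Matrix (n ⊕ n) n ℂ := (c * Complex.I) • B with hW1
  set W : Matrix (n ⊕ n) (n ⊕ n) ℂ := fromCols W0 W1 with hW
  have hW0h : W0ᴴ = c • (Bᴴ * D) := by
    rw [hW0, conjTranspose_smul, conjTranspose_mul, hDh, hcs]
  have hW1h : W1ᴴ = (-(c * Complex.I)) • Bᴴ := by
    rw [hW1, conjTranspose_smul]
    congr 1
    rw [star_mul', hcs]
    simp
  have two_half : ∀ X : Matrix n n ℂ, (2 : ℂ) • ((1 / 2 : ℝ) • X) = X := by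
    intro X
    have : ((1 / 2 : ℝ) • X) = (1 / 2 : ℂ) • X := by
      ext i j
      simp
    rw [this, smul_smul]; norm_num
  have hWW : Wᴴ * W = M := by
    rw [hW, conjTranspose_fromCols_eq_fromRows_conjTranspose, fromRows_mul_fromCols, hMb]
    have a1 : W0ᴴ * W0 = 1 - C := by
      rw [hW0h, hW0, Matrix.smul_mul, Matrix.mul_smul, smul_smul, hcc]
      have : Bᴴ * D * (D * B) = S2 := by rw [← hB2]; simp only [Matrix.mul_assoc]
      rw [this, hS2, two_half]
    have a2 : W0ᴴ * W1 = Complex.I • K := by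
      rw [hW0h, hW1, Matrix.smul_mul, Matrix.mul_smul, smul_smul, ← mul_assoc, hcc, hB1, hS1, mul_comm, ← smul_smul, two_half]
    have a3 : W1ᴴ * W0 = -(Complex.I • K) := by
      rw [hW1h, hW0, Matrix.smul_mul, Matrix.mul_smul, smul_smul, ← Matrix.mul_assoc, hB1, hS1]
      have : -(c * Complex.I) * c = (-Complex.I) * 2 := by
        rw [← hcc]; ring
      rw [this, ← smul_smul, two_half, neg_smul]
    have a4 : W1ᴴ * W1 = 1 + C := by
      rw [hW1h, hW1, Matrix.smul_mul, Matrix.mul_smul, smul_smul, hB0, hS0]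
      have : -(c * Complex.I) * (c * Complex.I) = 2 := by
        rw [← hcc]
        have := Complex.I_mul_I
        linear_combination (-(c * c)) * this
      rw [this, two_half]
    rw [a1, a2, a3, a4]
  have hMu : IsUnit M.det := by
    have := hMpd.isUnit
    rwa [Matrix.isUnit_iff_isUnit_det] at this
  have hMinv : M⁻¹ * M = 1 := Matrix.nonsing_inv_mul _ hMu
  have hMinv' : M * M⁻¹ = 1 := Matrix.mul_nonsing_inv _ hMu
  have hMih : (M⁻¹)ᴴ = M⁻¹ := hMpd.inv.1.eq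
  set A : Matrix n (n ⊕ n) ℂ := U * M⁻¹ * Wᴴ with hA
  have hAW : A * W = U := by
    rw [hA, Matrix.mul_assoc, hWW, Matrix.mul_assoc, hMinv, Matrix.mul_one]
  have hAA : A * Aᴴ = U * M⁻¹ * Uᴴ := by
    rw [hA, conjTranspose_mul, conjTranspose_mul, conjTranspose_conjTranspose, hMih]
    calc U * M⁻¹ * Wᴴ * (W * (M⁻¹ * Uᴴ)) = U * M⁻¹ * ((Wᴴ * W) * M⁻¹) * Uᴴ := by
          simp only [Matrix.mul_assoc]
      _ = U * M⁻¹ * Uᴴ := by rw [hWW, hMinv', Matrix.mul_one]
  have hAc : (1 - A * Aᴴ).PosSemidef := by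
    rw [hAA]
    apply schur_le hMpd
    rw [hMU]
    exact hpd.posSemidef
  have hAWc : fromCols (A * W0) (A * W1) = fromCols U0 U1 := by
    rw [← mul_fromCols, ← hW, hAW]
  refine ⟨t, B, A, ht, ?_, hAc, ?_, ?_⟩
  · rw [hB0, hB2, hS0, hS2, ← smul_add]
    have : (1 + C + (1 - C)) = (1 : Matrix n n ℂ) + 1 := by abel
    rw [this, half_smul_two]
  · exact ((fromCols_inj hAWc).1).symm
  · exact ((fromCols_inj hAWc).2).symm

end

/-- the linear map sending a pair to the weighted affine function on the interval -/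
noncomputable def Phi : (ℂ × ℂ) →ₗ[ℂ] C(Set.Icc (-1 : ℝ) 1, ℂ) where
  toFun p := ⟨fun s => (p.1 + ((s : ℝ) : ℂ) * p.2) * (((Real.sqrt (1 + (s : ℝ) * s))⁻¹ : ℝ) : ℂ), by
    have h : Continuous fun s : Set.Icc (-1 : ℝ) 1 => (Real.sqrt (1 + (s : ℝ) * s))⁻¹ := by
      apply Continuous.inv₀
      · fun_prop
      · intro s
        have : 0 < 1 + (s : ℝ) * s := by nlinarith [mul_self_nonneg (s : ℝ)]
        exact (Real.sqrt_pos.2 this).ne'
    fun_prop⟩
  map_add' p q := by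
    ext s
    simp only [Prod.fst_add, Prod.snd_add, ContinuousMap.coe_mk, ContinuousMap.add_apply]
    ring
  map_smul' c p := by
    ext s
    simp only [Prod.smul_fst, Prod.smul_snd, ContinuousMap.coe_mk, ContinuousMap.smul_apply, smul_eq_mul,
      RingHom.id_apply]
    ring

/-- the two dimensional space -/
def Esp : Type := ↥(LinearMap.range Phi)

noncomputable instance : NormedAddCommGroup Esp :=
  inferInstanceAs (NormedAddCommGroup ↥(LinearMap.range Phi))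

noncomputable instance : NormedSpace ℂ Esp :=
  inferInstanceAs (NormedSpace ℂ ↥(LinearMap.range Phi))

lemma Phi_apply (p : ℂ × ℂ) (s : Set.Icc (-1 : ℝ) 1) :
    Phi p s = (p.1 + ((s : ℝ) : ℂ) * p.2) * (((Real.sqrt (1 + (s : ℝ) * s))⁻¹ : ℝ) : ℂ) := rfl

lemma sq_pos' (s : ℝ) : 0 < 1 + s * s := by nlinarith [mul_self_nonneg s]

lemma sqrt_pos' (s : ℝ) : 0 < Real.sqrt (1 + s * s) := Real.sqrt_pos.2 (sq_pos' s)

/-- evaluation functional -/
noncomputable def ev (s : Set.Icc (-1 : ℝ) 1) : Esp →L[ℂ] ℂ :=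
  LinearMap.mkContinuous
    { toFun := fun x => x.1 s
      map_add' := fun _ _ => rfl
      map_smul' := fun _ _ => rfl } 1 (by
        intro x
        rw [one_mul]
        exact ContinuousMap.norm_coe_le_norm x.1 s)

lemma ev_apply (s : Set.Icc (-1 : ℝ) 1) (x : Esp) : ev s x = x.1 s := rfl

lemma ev_norm (s : Set.Icc (-1 : ℝ) 1) : ‖ev s‖ ≤ 1 :=
  LinearMap.mkContinuous_norm_le _ zero_le_one _

/-- the element of the space given by a pair -/
noncomputable def el (p : ℂ × ℂ) : Esp := ⟨Phi p, ⟨p, rfl⟩⟩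

lemma el_add (p q : ℂ × ℂ) : el (p + q) = el p + el q := by
  apply Subtype.ext; exact map_add Phi p q

lemma el_smul (c : ℂ) (p : ℂ × ℂ) : el (c • p) = c • el p := by
  apply Subtype.ext; exact map_smul Phi c p

lemma el_sum {ι : Type*} (S : Finset ι) (c : ι → ℂ) (p : ι → ℂ × ℂ) :
    ∑ k ∈ S, c k • el (p k) = el (∑ k ∈ S, c k • p k) := by
  classical
  induction S using Finset.induction_on with
  | empty =>
    simp only [Finset.sum_empty]
    apply Subtype.ext; exact (map_zero Phi).symm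
  | insert a S ha ih => rw [Finset.sum_insert ha, Finset.sum_insert ha, el_add, el_smul, ih]

lemma el_norm_le {p : ℂ × ℂ} {c : ℝ} (hc : 0 ≤ c)
    (h : ∀ s : ℝ, |s| ≤ 1 → ‖p.1 + (s : ℂ) * p.2‖ ≤ c * Real.sqrt (1 + s * s)) : ‖el p‖ ≤ c := by
  show ‖Phi p‖ ≤ c
  rw [ContinuousMap.norm_le _ hc]
  intro s
  rw [Phi_apply, norm_mul, Complex.norm_real, norm_inv, Real.norm_of_nonneg (sqrt_pos' _).le,
    ← div_eq_mul_inv, div_le_iff₀ (sqrt_pos' _)]
  exact h s (abs_le.2 s.2)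

lemma d_norm (t : ℝ) (ht : |t| ≤ 1) :
    ‖el ((((Real.sqrt 2 : ℝ) : ℂ) * (t : ℂ) * (((Real.sqrt (1 + t * t))⁻¹ : ℝ) : ℂ),
      -(((Real.sqrt 2 : ℝ) : ℂ) * Complex.I * (((Real.sqrt (1 + t * t))⁻¹ : ℝ) : ℂ))) : ℂ × ℂ)‖ ≤ 1 := by
  apply el_norm_le zero_le_one
  intro s hs
  simp only
  have e1 : ((Real.sqrt 2 : ℝ) : ℂ) * (t : ℂ) * (((Real.sqrt (1 + t * t))⁻¹ : ℝ) : ℂ)
      + (s : ℂ) * -(((Real.sqrt 2 : ℝ) : ℂ) * Complex.I * (((Real.sqrt (1 + t * t))⁻¹ : ℝ) : ℂ))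
      = ((Real.sqrt 2 * (Real.sqrt (1 + t * t))⁻¹ : ℝ) : ℂ) * ((t : ℂ) - (s : ℂ) * Complex.I) := by
    push_cast; ring
  rw [e1, norm_mul, Complex.norm_real, Real.norm_of_nonneg (by positivity), one_mul]
  have e2 : ‖(t : ℂ) - (s : ℂ) * Complex.I‖ = Real.sqrt (t * t + s * s) := by
    rw [Complex.norm_def, Complex.normSq_apply]
    simp
  rw [e2]
  have h1 := abs_le.1 ht
  have h2 := abs_le.1 hs
  have h3 : 0 < Real.sqrt (1 + t * t) := sqrt_pos' t
  have e3 : Real.sqrt 2 * (Real.sqrt (1 + t * t))⁻¹ * Real.sqrt (t * t + s * s)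
      = (Real.sqrt (2 * (t * t + s * s))) / Real.sqrt (1 + t * t) := by
    rw [Real.sqrt_mul (by norm_num)]; ring
  rw [e3, div_le_iff₀ h3, ← Real.sqrt_mul (sq_pos' s).le]
  apply Real.sqrt_le_sqrt
  have h4 : 0 ≤ (1 - t * t) * (1 - s * s) := by
    apply mul_nonneg <;> nlinarith
  nlinarith

theorem esp_unique : ∀ (n : ℕ) (x : Matrix (Fin n) (Fin n) Esp) (s t : ℝ), 0 ≤ s → s < t →
      (∀ f : Esp →L[ℂ] ℂ, ‖f‖ ≤ 1 →
        (((s ^ 2 : ℝ) : ℂ) • (1 : Matrix (Fin n) (Fin n) ℂ) -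
          (Matrix.of fun i j => f (x i j)) *
            (Matrix.of fun i j => f (x i j)).conjTranspose).PosSemidef) →
      ∃ (N : ℕ) (a : Matrix (Fin n) (Fin N) ℂ) (b : Matrix (Fin N) (Fin n) ℂ)
        (d : Fin N → Esp),
        (∀ k, ‖d k‖ ≤ 1) ∧
        (∀ i j, x i j = ∑ k, (a i k * b k j) • d k) ∧
        (((t : ℂ) • (1 : Matrix (Fin n) (Fin n) ℂ) - a * a.conjTranspose).PosSemidef) ∧
        (((t : ℂ) • (1 : Matrix (Fin n) (Fin n) ℂ) - b.conjTranspose * b).PosSemidef) := by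
  intro n x s t hs hst hf
  have ht : 0 < t := lt_of_le_of_lt hs hst
  have hx : ∀ i j, ∃ p : ℂ × ℂ, x i j = el p := by
    intro i j
    obtain ⟨p, hp⟩ := (x i j).2
    exact ⟨p, Subtype.ext hp.symm⟩
  choose P hP using hx
  set V0 : Matrix (Fin n) (Fin n) ℂ := Matrix.of fun i j => (P i j).1 with hV0
  set V1 : Matrix (Fin n) (Fin n) ℂ := Matrix.of fun i j => (P i j).2 with hV1
  have hVV : ∀ r : ℝ, |r| ≤ 1 → (((s ^ 2 * (1 + r * r) : ℝ) : ℂ) • (1 : Matrix (Fin n) (Fin n) ℂ)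
      - (V0 + (r : ℂ) • V1) * (V0 + (r : ℂ) • V1)ᴴ).PosSemidef := by
    intro r hr
    have h1 := hf (ev ⟨r, abs_le.1 hr⟩) (ev_norm _)
    have h2 : (Matrix.of fun i j => ev ⟨r, abs_le.1 hr⟩ (x i j)) =
        (((Real.sqrt (1 + r * r))⁻¹ : ℝ) : ℂ) • (V0 + (r : ℂ) • V1) := by
      ext i j
      rw [Matrix.of_apply, hP i j, ev_apply]
      show Phi (P i j) _ = _
      rw [Phi_apply]
      simp only [Matrix.smul_apply, Matrix.add_apply, hV0, hV1, Matrix.of_apply, smul_eq_mul]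
      ring
    rw [h2] at h1
    have h3 := h1.smul (sq_pos' r).le
    convert h3 using 1
    rw [smul_sub, conjTranspose_smul, Matrix.smul_mul, Matrix.mul_smul, smul_smul]
    have e1 : ((1 + r * r : ℝ)) • (((s ^ 2 : ℝ) : ℂ) • (1 : Matrix (Fin n) (Fin n) ℂ)) =
        ((s ^ 2 * (1 + r * r) : ℝ) : ℂ) • (1 : Matrix (Fin n) (Fin n) ℂ) := by
      ext i j
      simp only [Matrix.smul_apply, smul_eq_mul, Complex.real_smul]
      push_cast; ring
    have e2 : ((1 + r * r : ℝ)) • (((((Real.sqrt (1 + r * r))⁻¹ : ℝ) : ℂ) * star ((((Real.sqrt (1 + r * r))⁻¹ : ℝ) : ℂ))) •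
        ((V0 + (r : ℂ) • V1) * (V0 + (r : ℂ) • V1)ᴴ)) = (V0 + (r : ℂ) • V1) * (V0 + (r : ℂ) • V1)ᴴ := by
      rw [RCLike.star_def, Complex.conj_ofReal, ← Complex.ofReal_mul, ← mul_inv, Real.mul_self_sqrt (sq_pos' r).le]
      ext i j
      simp only [Matrix.smul_apply, smul_eq_mul, Complex.real_smul]
      rw [← mul_assoc, ← Complex.ofReal_mul, mul_inv_cancel₀ (sq_pos' r).ne', Complex.ofReal_one, one_mul]
    rw [e1, e2]
  set η : ℝ := 1 - s ^ 2 / t ^ 2 with hη
  have hηpos : 0 < η := by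
    rw [hη, sub_pos, div_lt_one (by positivity)]
    exact pow_lt_pow_left₀ hst hs (by norm_num)
  obtain ⟨τ, B, A, hτ, hB, hA, hU0, hU1⟩ := main_fact (((t⁻¹ : ℝ) : ℂ) • V0ᴴ) (((t⁻¹ : ℝ) : ℂ) • V1ᴴ) η hηpos (by
    intro r hr
    have h1 := (hVV r hr).smul (show (0 : ℝ) ≤ (t⁻¹) ^ 2 by positivity)
    convert h1 using 1
    have e1 : (((t⁻¹ : ℝ) : ℂ) • V0ᴴ + (r : ℂ) • ((t⁻¹ : ℝ) : ℂ) • V1ᴴ) = ((t⁻¹ : ℝ) : ℂ) • (V0 + (r : ℂ) • V1)ᴴ := by
      rw [conjTranspose_add, conjTranspose_smul, smul_add, smul_comm (r : ℂ)]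
      simp
    rw [e1, conjTranspose_smul, conjTranspose_conjTranspose, Matrix.smul_mul, Matrix.mul_smul, smul_smul]
    ext i j
    simp only [Matrix.sub_apply, Matrix.smul_apply, smul_eq_mul, Complex.real_smul, RCLike.star_def, Complex.conj_ofReal, hη]
    have htt : (t : ℂ) ≠ 0 := by exact_mod_cast ht.ne'
    push_cast
    field_simp
    ring)
  have hV0' : V0 = (t : ℂ) • (((Real.sqrt 2 : ℝ) : ℂ) • (Bᴴ * diagonal (fun k => (τ k : ℂ)) * Aᴴ)) := by
    have h1 : V0 = (t : ℂ) • (((t⁻¹ : ℝ) : ℂ) • V0ᴴ)ᴴ := by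
      rw [conjTranspose_smul, conjTranspose_conjTranspose, smul_smul, RCLike.star_def, Complex.conj_ofReal,
        ← Complex.ofReal_mul, mul_inv_cancel₀ ht.ne', Complex.ofReal_one, one_smul]
    rw [h1, hU0, Matrix.mul_smul, conjTranspose_smul, conjTranspose_mul, conjTranspose_mul, diagonal_conjTranspose]
    congr 2
    · simp
    · congr 2
      congr 1
      funext k
      simp
  have hV1' : V1 = (t : ℂ) • ((-(((Real.sqrt 2 : ℝ) : ℂ) * Complex.I)) • (Bᴴ * Aᴴ)) := by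
    have h1 : V1 = (t : ℂ) • (((t⁻¹ : ℝ) : ℂ) • V1ᴴ)ᴴ := by
      rw [conjTranspose_smul, conjTranspose_conjTranspose, smul_smul, RCLike.star_def, Complex.conj_ofReal,
        ← Complex.ofReal_mul, mul_inv_cancel₀ ht.ne', Complex.ofReal_one, one_smul]
    rw [h1, hU1, Matrix.mul_smul, conjTranspose_smul, conjTranspose_mul]
    congr 2
    simp
  set e : Fin (n + n) ≃ (Fin n ⊕ Fin n) := finSumFinEquiv.symm with he
  have hst2 : ((Real.sqrt t : ℝ) : ℂ) * ((Real.sqrt t : ℝ) : ℂ) = (t : ℂ) := by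
    rw [← Complex.ofReal_mul, Real.mul_self_sqrt ht.le]
  refine ⟨n + n,
    Matrix.of fun i k => ((Real.sqrt t : ℝ) : ℂ) * ((Real.sqrt (1 + τ (e k) * τ (e k)) : ℝ) : ℂ) * star (B (e k) i),
    Matrix.of fun k j => ((Real.sqrt t : ℝ) : ℂ) * star (A j (e k)),
    fun k => el ((((Real.sqrt 2 : ℝ) : ℂ) * (τ (e k) : ℂ) * (((Real.sqrt (1 + τ (e k) * τ (e k)))⁻¹ : ℝ) : ℂ),
      -(((Real.sqrt 2 : ℝ) : ℂ) * Complex.I * (((Real.sqrt (1 + τ (e k) * τ (e k)))⁻¹ : ℝ) : ℂ))) : ℂ × ℂ),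
    fun k => d_norm _ (hτ _), ?_, ?_, ?_⟩
  · intro i j
    rw [hP i j, el_sum]
    congr 1
    have key : ∀ k : Fin n ⊕ Fin n, ((Real.sqrt (1 + τ k * τ k) : ℝ) : ℂ) * (((Real.sqrt (1 + τ k * τ k))⁻¹ : ℝ) : ℂ) = 1 := by
      intro k
      rw [← Complex.ofReal_mul, mul_inv_cancel₀ (sqrt_pos' _).ne', Complex.ofReal_one]
    apply Prod.ext
    · rw [Prod.fst_sum]
      have h1 : (P i j).1 = V0 i j := rfl
      rw [h1, hV0']
      simp only [Matrix.of_apply, Prod.smul_fst, smul_eq_mul, Matrix.smul_apply]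
      rw [Equiv.sum_comp e (fun k => (((Real.sqrt t : ℝ) : ℂ) * ((Real.sqrt (1 + τ k * τ k) : ℝ) : ℂ) * star (B k i) *
        (((Real.sqrt t : ℝ) : ℂ) * star (A j k))) * (((Real.sqrt 2 : ℝ) : ℂ) * (τ k : ℂ) * (((Real.sqrt (1 + τ k * τ k))⁻¹ : ℝ) : ℂ)))]
      rw [Matrix.mul_apply, Finset.mul_sum, Finset.mul_sum]
      refine Finset.sum_congr rfl fun k _ => ?_
      rw [Matrix.mul_diagonal, conjTranspose_apply, conjTranspose_apply]
      linear_combination (-(star (B k i) * star (A j k) * ((Real.sqrt 2 : ℝ) : ℂ) * (τ k : ℂ))) * hst2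
        - (((Real.sqrt t : ℝ) : ℂ) * ((Real.sqrt t : ℝ) : ℂ) * star (B k i) * star (A j k) * ((Real.sqrt 2 : ℝ) : ℂ) * (τ k : ℂ)) * key k
    · rw [Prod.snd_sum]
      have h1 : (P i j).2 = V1 i j := rfl
      rw [h1, hV1']
      simp only [Matrix.of_apply, Prod.smul_snd, smul_eq_mul, Matrix.smul_apply]
      rw [Equiv.sum_comp e (fun k => (((Real.sqrt t : ℝ) : ℂ) * ((Real.sqrt (1 + τ k * τ k) : ℝ) : ℂ) * star (B k i) *
        (((Real.sqrt t : ℝ) : ℂ) * star (A j k))) * (-(((Real.sqrt 2 : ℝ) : ℂ) * Complex.I * (((Real.sqrt (1 + τ k * τ k))⁻¹ : ℝ) : ℂ))))]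
      rw [Matrix.mul_apply, Finset.mul_sum, Finset.mul_sum]
      refine Finset.sum_congr rfl fun k _ => ?_
      rw [conjTranspose_apply, conjTranspose_apply]
      linear_combination ((star (B k i) * star (A j k) * ((Real.sqrt 2 : ℝ) : ℂ) * Complex.I)) * hst2
        + (((Real.sqrt t : ℝ) : ℂ) * ((Real.sqrt t : ℝ) : ℂ) * star (B k i) * star (A j k) * ((Real.sqrt 2 : ℝ) : ℂ) * Complex.I) * key k
  · have h0 : (t : ℂ) • (1 : Matrix (Fin n) (Fin n) ℂ) -
        (Matrix.of fun i k => ((Real.sqrt t : ℝ) : ℂ) * ((Real.sqrt (1 + τ (e k) * τ (e k)) : ℝ) : ℂ) * star (B (e k) i)) *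
        (Matrix.of fun i k => ((Real.sqrt t : ℝ) : ℂ) * ((Real.sqrt (1 + τ (e k) * τ (e k)) : ℝ) : ℂ) * star (B (e k) i))ᴴ = 0 := by
      rw [sub_eq_zero, ← hB]
      ext i j
      simp only [Matrix.smul_apply, Matrix.add_apply, Matrix.mul_apply, Matrix.of_apply, conjTranspose_apply, smul_eq_mul,
        star_mul', RCLike.star_def, Complex.conj_ofReal, Complex.conj_conj]
      rw [Equiv.sum_comp e (fun k => (((Real.sqrt t : ℝ) : ℂ) * ((Real.sqrt (1 + τ k * τ k) : ℝ) : ℂ) * (starRingEnd ℂ) (B k i)) *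
        (((Real.sqrt t : ℝ) : ℂ) * ((Real.sqrt (1 + τ k * τ k) : ℝ) : ℂ) * B k j))]
      rw [← Finset.sum_add_distrib, Finset.mul_sum]
      refine Finset.sum_congr rfl fun k _ => ?_
      have h2 : ((Real.sqrt (1 + τ k * τ k) : ℝ) : ℂ) * ((Real.sqrt (1 + τ k * τ k) : ℝ) : ℂ) = 1 + (τ k : ℂ) * (τ k : ℂ) := by
        rw [← Complex.ofReal_mul, Real.mul_self_sqrt (sq_pos' _).le]; push_cast; ring
      have h3 : ∑ l, (starRingEnd ℂ) (B l i) * ∑ m, diagonal (fun k => (τ k : ℂ)) l m * diagonal (fun k => (τ k : ℂ)) m k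
          = (starRingEnd ℂ) (B k i) * ((τ k : ℂ) * (τ k : ℂ)) := by
        have h4 : ∀ l, ∑ m, diagonal (fun k => (τ k : ℂ)) l m * diagonal (fun k => (τ k : ℂ)) m k =
          (diagonal (fun k => (τ k : ℂ) * (τ k : ℂ))) l k := by
          intro l
          rw [← Matrix.mul_apply, Matrix.diagonal_mul_diagonal]
        simp only [h4]
        rw [Finset.sum_eq_single k]
        · rw [Matrix.diagonal_apply_eq]
        · intro l _ hl
          rw [Matrix.diagonal_apply_ne _ hl, mul_zero]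
        · intro h; exact absurd (Finset.mem_univ k) h
      rw [h3]
      linear_combination (-((starRingEnd ℂ) (B k i) * B k j * (1 + (τ k : ℂ) * (τ k : ℂ)))) * hst2
        - (((Real.sqrt t : ℝ) : ℂ) * ((Real.sqrt t : ℝ) : ℂ) * (starRingEnd ℂ) (B k i) * B k j) * h2
    rw [h0]
    exact Matrix.PosSemidef.zero
  · have h0 : (t : ℂ) • (1 : Matrix (Fin n) (Fin n) ℂ) -
        (Matrix.of fun k j => ((Real.sqrt t : ℝ) : ℂ) * star (A j (e k)))ᴴ *
        (Matrix.of fun k j => ((Real.sqrt t : ℝ) : ℂ) * star (A j (e k))) = t • (1 - A * Aᴴ) := by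
      rw [smul_sub]
      congr 1
      · ext i j
        simp only [Matrix.smul_apply, Matrix.mul_apply, Matrix.of_apply, conjTranspose_apply, Complex.real_smul,
          star_mul', RCLike.star_def, Complex.conj_ofReal, Complex.conj_conj]
        rw [Equiv.sum_comp e (fun k => (((Real.sqrt t : ℝ) : ℂ) * A i k) * (((Real.sqrt t : ℝ) : ℂ) * (starRingEnd ℂ) (A j k)))]
        rw [Finset.mul_sum]
        refine Finset.sum_congr rfl fun k _ => ?_
        linear_combination (A i k * (starRingEnd ℂ) (A j k)) * hst2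
    rw [h0]
    exact hA.smul ht.le

lemma el_val (p : ℂ × ℂ) (s : ℝ) (hs : |s| ≤ 1) :
    ∃ v : ℂ, ev ⟨s, abs_le.1 hs⟩ (el p) = v ∧ v * ((Real.sqrt (1 + s * s) : ℝ) : ℂ) = p.1 + (s : ℂ) * p.2 := by
  refine ⟨_, rfl, ?_⟩
  show Phi p _ * _ = _
  rw [Phi_apply, mul_assoc, ← Complex.ofReal_mul, inv_mul_cancel₀ (sqrt_pos' s).ne', Complex.ofReal_one, mul_one]

lemma el_surj (x : Esp) : ∃ p : ℂ × ℂ, x = el p := by
  obtain ⟨p, hp⟩ := x.2
  exact ⟨p, Subtype.ext hp.symm⟩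

lemma norm_ge (p : ℂ × ℂ) (s : ℝ) (hs : |s| ≤ 1) :
    ‖p.1 + (s : ℂ) * p.2‖ ≤ ‖el p‖ * Real.sqrt (1 + s * s) := by
  have h := (ev ⟨s, abs_le.1 hs⟩).le_of_opNorm_le (ev_norm _) (el p)
  obtain ⟨v, hv, hv2⟩ := el_val p s hs
  rw [← hv2, norm_mul, Complex.norm_real, Real.norm_of_nonneg (sqrt_pos' s).le]
  rw [hv, one_mul] at h
  exact mul_le_mul_of_nonneg_right h (sqrt_pos' s).le

lemma norm_attained (p : ℂ × ℂ) : ∃ s : ℝ, |s| ≤ 1 ∧
    ‖p.1 + (s : ℂ) * p.2‖ = ‖el p‖ * Real.sqrt (1 + s * s) := by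
  have hne : (Set.univ : Set (Set.Icc (-1 : ℝ) 1)).Nonempty := ⟨⟨0, by norm_num, by norm_num⟩, trivial⟩
  have hc : Continuous fun s : Set.Icc (-1 : ℝ) 1 => ‖Phi p s‖ := (Phi p).continuous.norm
  obtain ⟨s, -, hs⟩ := isCompact_univ.exists_isMaxOn hne hc.continuousOn
  refine ⟨s, abs_le.2 s.2, ?_⟩
  apply le_antisymm
  · exact norm_ge p s (abs_le.2 s.2)
  · have h1 : ‖el p‖ ≤ ‖Phi p s‖ := by
      show ‖Phi p‖ ≤ _
      rw [ContinuousMap.norm_le _ (norm_nonneg _)]
      intro r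
      exact hs (Set.mem_univ r)
    have h2 : ‖Phi p s‖ * Real.sqrt (1 + (s : ℝ) * s) = ‖p.1 + ((s : ℝ) : ℂ) * p.2‖ := by
      rw [Phi_apply, norm_mul, Complex.norm_real, norm_inv, Real.norm_of_nonneg (sqrt_pos' _).le, mul_assoc,
        inv_mul_cancel₀ (sqrt_pos' _).ne', mul_one]
    rw [← h2]
    exact mul_le_mul_of_nonneg_right h1 (sqrt_pos' _).le

lemma el_inj {p q : ℂ × ℂ} (h : el p = el q) : p = q := by
  have h0 : el (p - q) = 0 := by
    have : el (p + (-1 : ℂ) • q) = el p + (-1 : ℂ) • el q := by rw [el_add, el_smul]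
    rw [h] at this
    have h2 : p + (-1 : ℂ) • q = p - q := by rw [neg_one_smul]; abel
    rw [h2] at this
    rw [this, neg_one_smul]; abel
  have h1 := norm_ge (p - q) 0 (by norm_num)
  have h2 := norm_ge (p - q) 1 (by norm_num)
  rw [h0, norm_zero, zero_mul] at h1 h2
  have h3 : (p - q).1 = 0 := by
    have := norm_le_zero_iff.1 h1
    simpa using this
  have h4 : (p - q).1 + (p - q).2 = 0 := by
    have := norm_le_zero_iff.1 h2
    simpa using this
  rw [h3, zero_add] at h4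
  exact sub_eq_zero.1 (Prod.ext h3 h4)

lemma esp_nontrivial : Nontrivial Esp := by
  refine ⟨⟨el (1, 0), el (0, 0), ?_⟩⟩
  intro h
  have := el_inj h
  simp at this

lemma not_iso_C : ¬ Nonempty (Esp ≃ₗᵢ[ℂ] ℂ) := by
  rintro ⟨φ⟩
  set a := φ (el (1, 0)) with ha
  set b := φ (el (0, 1)) with hb
  have h1 : φ (b • el (1, 0)) = φ (a • el (0, 1)) := by
    rw [map_smul, map_smul, ← ha, ← hb, smul_eq_mul, smul_eq_mul, mul_comm]
  have h2 := φ.injective h1
  rw [← el_smul, ← el_smul] at h2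
  have h3 := el_inj h2
  simp only [Prod.smul_mk, smul_eq_mul, mul_one, mul_zero, Prod.mk.injEq] at h3
  have h4 : φ (el (1, 0)) = φ 0 := by
    rw [← ha, ← h3.2, map_zero]
  have h5 := φ.injective h4
  have h6 : el (1, 0) = el (0, 0) := by
    rw [h5]; apply Subtype.ext
    exact (map_zero Phi).symm
  have := el_inj h6
  simp at this

/-- parallelogram identity for complex numbers -/
lemma para (a b : ℂ) : ‖a + b‖ ^ 2 + ‖a - b‖ ^ 2 = 2 * ‖a‖ ^ 2 + 2 * ‖b‖ ^ 2 := by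
  have := parallelogram_law_with_norm ℝ a b
  nlinarith [this]

lemma sup_phase {a b : ℂ} {c : ℝ} (h : ∀ w : ℂ, ‖w‖ = 1 → ‖a + w * b‖ ≤ c) : ‖a‖ + ‖b‖ ≤ c := by
  by_cases ha : a = 0
  · have := h 1 (by simp)
    simpa [ha] using this
  by_cases hb : b = 0
  · have := h 1 (by simp)
    simpa [hb] using this
  have hna : 0 < ‖a‖ := norm_pos_iff.2 ha
  have hnb : 0 < ‖b‖ := norm_pos_iff.2 hb
  have hca : (‖a‖ : ℂ) ≠ 0 := by exact_mod_cast hna.ne'
  have hcb : (‖b‖ : ℂ) ≠ 0 := by exact_mod_cast hnb.ne'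
  have h1 := h ((a / ‖a‖) * (starRingEnd ℂ b / ‖b‖)) (by
    rw [norm_mul, norm_div, norm_div, RCLike.norm_conj, Complex.norm_real, Complex.norm_real, norm_norm, norm_norm,
      div_self hna.ne', div_self hnb.ne', one_mul])
  have h2 : starRingEnd ℂ b * b = (‖b‖ : ℂ) ^ 2 := by
    rw [mul_comm, Complex.mul_conj, Complex.normSq_eq_norm_sq]
    push_cast; rfl
  have h3 : a + (a / ‖a‖) * (starRingEnd ℂ b / ‖b‖) * b = (a / ‖a‖) * (((‖a‖ + ‖b‖ : ℝ)) : ℂ) := by
    have : (a / ‖a‖) * (starRingEnd ℂ b / ‖b‖) * b = (a / ‖a‖) * ((starRingEnd ℂ b * b) / ‖b‖) := by ring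
    rw [this, h2]
    push_cast
    field_simp
  rw [h3, norm_mul, norm_div, Complex.norm_real, Complex.norm_real, norm_norm, div_self hna.ne', one_mul,
    Real.norm_of_nonneg (by positivity)] at h1
  exact h1

lemma linf_aux {p q : ℂ × ℂ} (hp : ‖el p‖ = 1) (h : ∀ w : ℂ, ‖w‖ = 1 → ‖el (p + w • q)‖ ≤ 1) :
    ∃ s : ℝ, |s| ≤ 1 ∧ ‖p.1 + (s : ℂ) * p.2‖ = Real.sqrt (1 + s * s) ∧ q.1 + (s : ℂ) * q.2 = 0 := by
  obtain ⟨s, hs, hs2⟩ := norm_attained p
  rw [hp, one_mul] at hs2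
  refine ⟨s, hs, hs2, ?_⟩
  have h1 := norm_ge (p + (1 : ℂ) • q) s hs
  have h2 := norm_ge (p + (-1 : ℂ) • q) s hs
  have h3 := h 1 (by simp)
  have h4 := h (-1) (by simp)
  have hpos := sqrt_pos' s
  set a := p.1 + (s : ℂ) * p.2 with ha
  set b := q.1 + (s : ℂ) * q.2 with hb
  have e1 : (p + (1 : ℂ) • q).1 + (s : ℂ) * (p + (1 : ℂ) • q).2 = a + b := by
    simp only [one_smul, Prod.fst_add, Prod.snd_add, ha, hb]; ring
  have e2 : (p + (-1 : ℂ) • q).1 + (s : ℂ) * (p + (-1 : ℂ) • q).2 = a - b := by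
    simp only [neg_one_smul, Prod.fst_add, Prod.snd_add, Prod.fst_neg, Prod.snd_neg, ha, hb]; ring
  rw [e1] at h1
  rw [e2] at h2
  have h5 : ‖a + b‖ ≤ Real.sqrt (1 + s * s) := h1.trans (by nlinarith)
  have h6 : ‖a - b‖ ≤ Real.sqrt (1 + s * s) := h2.trans (by nlinarith)
  have h7 := para a b
  have h8 : ‖b‖ ^ 2 ≤ 0 := by
    have h9 : ‖a + b‖ ^ 2 ≤ Real.sqrt (1 + s * s) ^ 2 := pow_le_pow_left₀ (norm_nonneg _) h5 2
    have h10 : ‖a - b‖ ^ 2 ≤ Real.sqrt (1 + s * s) ^ 2 := pow_le_pow_left₀ (norm_nonneg _) h6 2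
    rw [hs2] at h7
    linarith
  have h11 : ‖b‖ = 0 := by
    have := norm_nonneg b
    nlinarith
  exact norm_eq_zero.1 h11

lemma not_iso_linf : ¬ Nonempty (Esp ≃ₗᵢ[ℂ] (Fin 2 → ℂ)) := by
  rintro ⟨φ⟩
  obtain ⟨p, hp⟩ := el_surj (φ.symm ![1, 0])
  obtain ⟨q, hq⟩ := el_surj (φ.symm ![0, 1])
  have hn : ∀ a b : ℂ, ‖el (a • p + b • q)‖ = max ‖a‖ ‖b‖ := by
    intro a b
    rw [el_add, el_smul, el_smul, ← hp, ← hq, ← map_smul, ← map_smul, ← map_add, LinearIsometryEquiv.norm_map]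
    have : a • (![1, 0] : Fin 2 → ℂ) + b • (![0, 1] : Fin 2 → ℂ) = ![a, b] := by
      ext i; fin_cases i <;> simp
    rw [this]
    apply le_antisymm
    · rw [pi_norm_le_iff_of_nonneg (by positivity)]
      intro i; fin_cases i <;> simp
    · exact max_le (norm_le_pi_norm ![a, b] 0) (norm_le_pi_norm ![a, b] 1)
  have hp1 : ‖el p‖ = 1 := by
    have := hn 1 0
    simpa using this
  have hq1 : ‖el q‖ = 1 := by
    have := hn 0 1
    simpa using this
  obtain ⟨s0, hs0, hs0', hs0''⟩ := linf_aux (p := p) (q := q) hp1 (by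
    intro w hw
    have := hn 1 w
    rw [one_smul] at this
    rw [this, hw]; simp)
  obtain ⟨s1, hs1, hs1', hs1''⟩ := linf_aux (p := q) (q := p) hq1 (by
    intro w hw
    have := hn w 1
    rw [one_smul, add_comm] at this
    rw [this, hw]; simp)
  -- midpoint
  set m : ℝ := (s0 + s1) / 2 with hm
  have hm1 : |m| ≤ 1 := by
    rw [abs_le] at *
    constructor <;> linarith
  have hsum : ‖p.1 + (m : ℂ) * p.2‖ + ‖q.1 + (m : ℂ) * q.2‖ ≤ Real.sqrt (1 + m * m) := by
    apply sup_phase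
    intro w hw
    have h1 := norm_ge ((1 : ℂ) • p + w • q) m hm1
    rw [hn, hw] at h1
    have e1 : ((1 : ℂ) • p + w • q).1 + (m : ℂ) * ((1 : ℂ) • p + w • q).2 = p.1 + (m : ℂ) * p.2 + w * (q.1 + (m : ℂ) * q.2) := by
      simp only [one_smul, Prod.fst_add, Prod.snd_add, Prod.smul_fst, Prod.smul_snd, smul_eq_mul]; ring
    rw [e1] at h1
    simpa using h1
  -- p at midpoint is half of p at s0
  have e1 : p.1 + (m : ℂ) * p.2 = (1 / 2 : ℂ) * (p.1 + (s0 : ℂ) * p.2) := by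
    rw [hm]; push_cast
    linear_combination (1 / 2 : ℂ) * hs1''
  have e2 : q.1 + (m : ℂ) * q.2 = (1 / 2 : ℂ) * (q.1 + (s1 : ℂ) * q.2) := by
    rw [hm]; push_cast
    linear_combination (1 / 2 : ℂ) * hs0''
  rw [e1, e2, norm_mul, norm_mul, hs0', hs1'] at hsum
  have e3 : ‖(1 / 2 : ℂ)‖ = 1 / 2 := by
    rw [norm_div]; simp
  rw [e3] at hsum
  -- distinct
  have hne : s0 ≠ s1 := by
    intro h
    rw [h] at hs0'
    rw [hs1'', norm_zero] at hs0'
    exact (sqrt_pos' s1).ne hs0'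
  have hA := Real.sq_sqrt (sq_pos' s0).le
  have hB := Real.sq_sqrt (sq_pos' s1).le
  have hM := Real.sq_sqrt (sq_pos' m).le
  set A := Real.sqrt (1 + s0 * s0) with hAdef
  set B := Real.sqrt (1 + s1 * s1) with hBdef
  set M := Real.sqrt (1 + m * m) with hMdef
  have hApos : 0 < A := sqrt_pos' s0
  have hBpos : 0 < B := sqrt_pos' s1
  have hMpos : 0 < M := sqrt_pos' m
  have h1 : (A + B) ^ 2 ≤ (2 * M) ^ 2 := by
    apply pow_le_pow_left₀ (by positivity)
    linarith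
  have h2 : A * B ≤ 1 + s0 * s1 := by
    rw [hm] at hM
    nlinarith
  have h3 : (A * B) ^ 2 ≤ (1 + s0 * s1) ^ 2 := pow_le_pow_left₀ (by positivity) h2 2
  have h4 : (A * B) ^ 2 = (1 + s0 * s0) * (1 + s1 * s1) := by rw [mul_pow, hA, hB]
  have h5 : (s0 - s1) ^ 2 ≤ 0 := by nlinarith
  have h6 : s0 - s1 = 0 := by
    have := sq_nonneg (s0 - s1)
    exact pow_eq_zero_iff (two_ne_zero) |>.1 (le_antisymm h5 this)
  exact hne (by linarith)

lemma one_sub_sq_nonneg {s : ℝ} (hs : |s| ≤ 1) : 0 ≤ 1 - s * s := by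
  have := abs_le_one_iff_mul_self_le_one.1 hs
  linarith

lemma quad_lemma (r : ℂ × ℂ) {s1 s2 s3 : ℝ} (h12 : s1 ≠ s2) (h13 : s1 ≠ s3) (h23 : s2 ≠ s3)
    (h1 : ‖r.1 + (s1 : ℂ) * r.2‖ ^ 2 = 1 + s1 * s1) (h2 : ‖r.1 + (s2 : ℂ) * r.2‖ ^ 2 = 1 + s2 * s2)
    (h3 : ‖r.1 + (s3 : ℂ) * r.2‖ ^ 2 = 1 + s3 * s3) :
    (r.1.re * r.1.re + r.1.im * r.1.im = 1 ∧
        (r.2 = Complex.I * r.1 ∨ r.2 = -(Complex.I * r.1))) := by
  have ex : ∀ s : ℝ, ‖r.1 + (s : ℂ) * r.2‖ ^ 2 = (r.1.re + s * r.2.re) ^ 2 + (r.1.im + s * r.2.im) ^ 2 := by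
    intro s
    rw [← Complex.normSq_eq_norm_sq, Complex.normSq_apply]
    simp
    ring
  rw [ex] at h1 h2 h3
  set x := r.1.re with hx
  set y := r.1.im with hy
  set u := r.2.re with hu
  set v := r.2.im with hv
  have q1 : (x ^ 2 + y ^ 2 - 1) + 2 * (x * u + y * v) * s1 + (u ^ 2 + v ^ 2 - 1) * s1 ^ 2 = 0 := by
    linear_combination h1
  have q2 : (x ^ 2 + y ^ 2 - 1) + 2 * (x * u + y * v) * s2 + (u ^ 2 + v ^ 2 - 1) * s2 ^ 2 = 0 := by
    linear_combination h2
  have q3 : (x ^ 2 + y ^ 2 - 1) + 2 * (x * u + y * v) * s3 + (u ^ 2 + v ^ 2 - 1) * s3 ^ 2 = 0 := by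
    linear_combination h3
  have r1 : 2 * (x * u + y * v) + (u ^ 2 + v ^ 2 - 1) * (s1 + s2) = 0 := by
    have : (s1 - s2) * (2 * (x * u + y * v) + (u ^ 2 + v ^ 2 - 1) * (s1 + s2)) = 0 := by linear_combination q1 - q2
    exact (mul_eq_zero.1 this).resolve_left (sub_ne_zero.2 h12)
  have r2 : 2 * (x * u + y * v) + (u ^ 2 + v ^ 2 - 1) * (s1 + s3) = 0 := by
    have : (s1 - s3) * (2 * (x * u + y * v) + (u ^ 2 + v ^ 2 - 1) * (s1 + s3)) = 0 := by linear_combination q1 - q3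
    exact (mul_eq_zero.1 this).resolve_left (sub_ne_zero.2 h13)
  have r3 : u ^ 2 + v ^ 2 - 1 = 0 := by
    have : (s2 - s3) * (u ^ 2 + v ^ 2 - 1) = 0 := by linear_combination r1 - r2
    exact (mul_eq_zero.1 this).resolve_left (sub_ne_zero.2 h23)
  have r4 : x * u + y * v = 0 := by linear_combination (1 / 2) * r1 - (1 / 2) * (s1 + s2) * r3
  have r5 : x ^ 2 + y ^ 2 - 1 = 0 := by linear_combination q1 - 2 * s1 * r4 - s1 ^ 2 * r3
  refine ⟨by linear_combination r5, ?_⟩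
  have r6 : (x * v - y * u) ^ 2 = 1 := by
    linear_combination (u ^ 2 + v ^ 2) * r5 + r3 - (x * u + y * v) * r4
  have r7 : (x * v - y * u - 1) * (x * v - y * u + 1) = 0 := by linear_combination r6
  have r8 : u = -y * (x * v - y * u) := by linear_combination x * r4 - u * r5
  have r9 : v = x * (x * v - y * u) := by linear_combination y * r4 - v * r5
  rcases mul_eq_zero.1 r7 with h | h
  · left
    have h' : x * v - y * u = 1 := by linarith
    rw [h'] at r8 r9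
    apply Complex.ext
    · simp [← hx, ← hy, ← hu, ← hv]; linarith
    · simp [← hx, ← hy, ← hu, ← hv]; linarith
  · right
    have h' : x * v - y * u = -1 := by linarith
    rw [h'] at r8 r9
    apply Complex.ext
    · simp [← hx, ← hy, ← hu, ← hv]; linarith
    · simp [← hx, ← hy, ← hu, ← hv]; linarith

lemma l1_key {p q : ℂ × ℂ} (hn : ∀ a b : ℂ, ‖el (a • p + b • q)‖ = ‖a‖ + ‖b‖) (hp1 : ‖el p‖ = 1)
    (hq1 : ‖el q‖ = 1) : ∀ w : ℂ, ‖w‖ = 1 → ∃ s : ℝ, |s| ≤ 1 ∧ p.1 + (s : ℂ) * p.2 = w * (q.1 + (s : ℂ) * q.2) ∧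
      ‖p.1 + (s : ℂ) * p.2‖ ^ 2 = 1 + s * s ∧ ‖q.1 + (s : ℂ) * q.2‖ ^ 2 = 1 + s * s := by
  intro w hw
  obtain ⟨s, hs, hs2⟩ := norm_attained ((1 : ℂ) • p + w • q)
  rw [hn, hw, norm_one] at hs2
  have h1 := norm_ge p s hs
  have h2 := norm_ge q s hs
  rw [hp1, one_mul] at h1
  rw [hq1, one_mul] at h2
  set a := p.1 + (s : ℂ) * p.2 with ha
  set b := q.1 + (s : ℂ) * q.2 with hb
  have e1 : ((1 : ℂ) • p + w • q).1 + (s : ℂ) * ((1 : ℂ) • p + w • q).2 = a + w * b := by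
    simp only [one_smul, Prod.fst_add, Prod.snd_add, Prod.smul_fst, Prod.smul_snd, smul_eq_mul, ha, hb]; ring
  rw [e1] at hs2
  have h3 : ‖w * b‖ = ‖b‖ := by rw [norm_mul, hw, one_mul]
  have h4 := para a (w * b)
  have hsq := Real.sq_sqrt (sq_pos' s).le
  have hpos := sqrt_pos' s
  set S := Real.sqrt (1 + s * s) with hS
  rw [h3, hs2] at h4
  have h5 : ‖a‖ ^ 2 ≤ S ^ 2 := pow_le_pow_left₀ (norm_nonneg _) h1 2
  have h6 : ‖b‖ ^ 2 ≤ S ^ 2 := pow_le_pow_left₀ (norm_nonneg _) h2 2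
  have h7 : ‖a - w * b‖ ^ 2 ≤ 0 := by nlinarith
  have h8 : ‖a - w * b‖ = 0 := by
    have := norm_nonneg (a - w * b)
    nlinarith
  have h9 : a = w * b := sub_eq_zero.1 (norm_eq_zero.1 h8)
  have h10 : ‖a - w * b‖ ^ 2 = 0 := by rw [h8]; norm_num
  refine ⟨s, hs, h9, ?_, ?_⟩
  · nlinarith
  · nlinarith

lemma not_iso_l1 : ¬ Nonempty (Esp ≃ₗᵢ[ℂ] PiLp 1 (fun _ : Fin 2 => ℂ)) := by
  rintro ⟨φ⟩
  obtain ⟨p, hp⟩ := el_surj (φ.symm (WithLp.toLp 1 ![1, 0]))
  obtain ⟨q, hq⟩ := el_surj (φ.symm (WithLp.toLp 1 ![0, 1]))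
  have hn : ∀ a b : ℂ, ‖el (a • p + b • q)‖ = ‖a‖ + ‖b‖ := by
    intro a b
    rw [el_add, el_smul, el_smul, ← hp, ← hq, ← map_smul, ← map_smul, ← map_add, LinearIsometryEquiv.norm_map]
    rw [PiLp.norm_eq_of_nat 1 (by norm_num)]
    simp [Fin.sum_univ_two]
  have hp1 : ‖el p‖ = 1 := by
    have := hn 1 0
    simpa using this
  have hq1 : ‖el q‖ = 1 := by
    have := hn 0 1
    simpa using this
  have key := l1_key hn hp1 hq1
  obtain ⟨s1, hs1, hs1a, hs1b, hs1c⟩ := key 1 (by simp)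
  obtain ⟨s2, hs2, hs2a, hs2b, hs2c⟩ := key (-1) (by simp)
  obtain ⟨s3, hs3, hs3a, hs3b, hs3c⟩ := key Complex.I (by simp)
  obtain ⟨s4, hs4, hs4a, hs4b, hs4c⟩ := key (-Complex.I) (by simp)
  -- distinctness
  have hdist : ∀ (w w' : ℂ) (s : ℝ), p.1 + (s : ℂ) * p.2 = w * (q.1 + (s : ℂ) * q.2) →
      p.1 + (s : ℂ) * p.2 = w' * (q.1 + (s : ℂ) * q.2) → ‖q.1 + (s : ℂ) * q.2‖ ^ 2 = 1 + s * s → w = w' := by
    intro w w' s h1 h2 h3
    have h4 : (w - w') * (q.1 + (s : ℂ) * q.2) = 0 := by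
      rw [sub_mul, ← h1, ← h2, sub_self]
    rcases mul_eq_zero.1 h4 with h5 | h5
    · exact sub_eq_zero.1 h5
    · rw [h5] at h3
      have := sq_pos' s
      simp at h3
      linarith
  have h12 : s1 ≠ s2 := by
    intro h
    rw [← h] at hs2a
    have := hdist _ _ _ hs1a hs2a hs1c
    norm_num at this
  have h13 : s1 ≠ s3 := by
    intro h
    rw [← h] at hs3a
    have := hdist _ _ _ hs1a hs3a hs1c
    have := congrArg Complex.re this
    simp at this
  have h23 : s2 ≠ s3 := by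
    intro h
    rw [← h] at hs3a
    have := hdist _ _ _ hs2a hs3a hs2c
    have := congrArg Complex.re this
    simp at this
  obtain ⟨hpn, hpp⟩ := quad_lemma p h12 h13 h23 hs1b hs2b hs3b
  obtain ⟨hqn, hqq⟩ := quad_lemma q h12 h13 h23 hs1c hs2c hs3c
  have hpn' : p.1 * starRingEnd ℂ p.1 = 1 := by
    rw [Complex.mul_conj, Complex.normSq_apply, hpn]; simp
  have hqn' : q.1 * starRingEnd ℂ q.1 = 1 := by
    rw [Complex.mul_conj, Complex.normSq_apply, hqn]; simp
  set z : ℂ := q.1 * starRingEnd ℂ p.1 with hz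
  have hzn : z * starRingEnd ℂ z = 1 := by
    rw [hz, map_mul, Complex.conj_conj]
    linear_combination (p.1 * starRingEnd ℂ p.1) * hqn' + hpn'
  -- same sign impossible, opposite sign impossible
  have same : ∀ e : ℂ, (e = Complex.I ∨ e = -Complex.I) → p.2 = e * p.1 → q.2 = e * q.1 → False := by
    intro e he h1 h2
    have hne : ∀ s : ℝ, (1 + (s : ℂ) * e) ≠ 0 := by
      intro s h
      rcases he with rfl | rfl
      · have := congrArg Complex.re h
        simp at this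
      · have := congrArg Complex.re h
        simp at this
    rw [h1, h2] at hs1a hs2a
    have a1 : (1 + (s1 : ℂ) * e) * (p.1 - q.1) = 0 := by linear_combination hs1a
    have a2 : (1 + (s2 : ℂ) * e) * (p.1 + q.1) = 0 := by linear_combination hs2a
    have b1 := (mul_eq_zero.1 a1).resolve_left (hne _)
    have b2 := (mul_eq_zero.1 a2).resolve_left (hne _)
    have b3 : p.1 = 0 := by linear_combination (b1 + b2) / 2
    rw [b3] at hpn
    simp at hpn
  have opp : ∀ e : ℂ, (e = Complex.I ∨ e = -Complex.I) → p.2 = e * p.1 → q.2 = -(e * q.1) → False := by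
    intro e he h1 h2
    have hee : e * e = -1 := by
      rcases he with rfl | rfl
      · exact Complex.I_mul_I
      · rw [neg_mul_neg]; exact Complex.I_mul_I
    have gen : ∀ (w : ℂ) (s : ℝ), |s| ≤ 1 → p.1 + (s : ℂ) * p.2 = w * (q.1 + (s : ℂ) * q.2) → 0 ≤ (w * z).re := by
      intro w s hs h
      rw [h1, h2] at h
      have e1 : (1 + (s : ℂ) * e) = w * z * (1 - (s : ℂ) * e) := by
        rw [hz]
        linear_combination (starRingEnd ℂ p.1) * h - (1 + (s : ℂ) * e) * hpn'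
      have e2 : (1 + (s : ℂ) * e) ^ 2 = w * z * ((1 + s * s : ℝ) : ℂ) := by
        push_cast
        linear_combination (1 + (s : ℂ) * e) * e1 - (w * z * (s : ℂ) ^ 2) * hee
      have e3 : ((1 + (s : ℂ) * e) ^ 2).re = 1 - s * s := by
        have : (1 + (s : ℂ) * e) ^ 2 = ((1 - s * s : ℝ) : ℂ) + ((2 * s : ℝ) : ℂ) * e := by
          push_cast
          linear_combination ((s : ℂ) ^ 2) * hee
        rw [this]
        rcases he with rfl | rfl
        · simp
        · simp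
      rw [e2, Complex.re_mul_ofReal] at e3
      have h5 : 0 ≤ 1 - s * s := one_sub_sq_nonneg hs
      have h6 := sq_pos' s
      by_contra hneg
      push Not at hneg
      have := mul_neg_of_neg_of_pos hneg h6
      linarith
    have g1 := gen _ _ hs1 hs1a
    have g2 := gen _ _ hs2 hs2a
    have g3 := gen _ _ hs3 hs3a
    have g4 := gen _ _ hs4 hs4a
    simp at g1 g2 g3 g4
    have z1 : z.re = 0 := le_antisymm g2 g1
    have z2 : z.im = 0 := le_antisymm g3 g4
    have z3 : z = 0 := Complex.ext z1 z2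
    rw [z3] at hzn
    simp at hzn
  rcases hpp with hpp | hpp <;> rcases hqq with hqq | hqq
  · exact same Complex.I (Or.inl rfl) hpp hqq
  · exact opp Complex.I (Or.inl rfl) hpp hqq
  · exact opp (-Complex.I) (Or.inr rfl) (by rw [hpp]; ring) (by rw [hqq]; ring)
  · exact same (-Complex.I) (Or.inr rfl) (by rw [hpp]; ring) (by rw [hqq]; ring)

end Aux

/-- The negation of the preceding statement: A nonzero complex normed space whose maximal operator-space matrix norms never exceed its minimal ones (i.e. alpha(E)=1) must be linearly isometric to C, to l1 of dimension 2, or to l-infinity of dimension 2. -/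
theorem result :
    ¬ (∀ (E : Type) [NormedAddCommGroup E] [NormedSpace ℂ E], Nontrivial E →
    (∀ (n : ℕ) (x : Matrix (Fin n) (Fin n) E) (s t : ℝ), 0 ≤ s → s < t →
      (∀ f : E →L[ℂ] ℂ, ‖f‖ ≤ 1 →
        (((s ^ 2 : ℝ) : ℂ) • (1 : Matrix (Fin n) (Fin n) ℂ) -
          (Matrix.of fun i j => f (x i j)) *
            (Matrix.of fun i j => f (x i j)).conjTranspose).PosSemidef) →
      ∃ (N : ℕ) (a : Matrix (Fin n) (Fin N) ℂ) (b : Matrix (Fin N) (Fin n) ℂ)
        (d : Fin N → E),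
        (∀ k, ‖d k‖ ≤ 1) ∧
        (∀ i j, x i j = ∑ k, (a i k * b k j) • d k) ∧
        (((t : ℂ) • (1 : Matrix (Fin n) (Fin n) ℂ) - a * a.conjTranspose).PosSemidef) ∧
        (((t : ℂ) • (1 : Matrix (Fin n) (Fin n) ℂ) - b.conjTranspose * b).PosSemidef)) →
    (Nonempty (E ≃ₗᵢ[ℂ] ℂ) ∨
      Nonempty (E ≃ₗᵢ[ℂ] PiLp 1 (fun _ : Fin 2 => ℂ)) ∨
      Nonempty (E ≃ₗᵢ[ℂ] (Fin 2 → ℂ)))) := by
  intro h
  rcases h Esp esp_nontrivial esp_unique with h1 | h1 | h1
  · exact not_iso_C h1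
  · exact not_iso_l1 h1
  · exact not_iso_linf h1

end Pool.Agent.S02802
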