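import Pool.Statements.S02806
-- import your own Pool.Agent.* helpers here

set_option autoImplicit false
open Pool Pool.MP_299699_an

namespace Pool.Agent.S02806

/-- The Hilbert space of square summable real sequences. -/
abbrev H : Type := lp (fun _ : ℕ => ℝ) 2

/-- Hilbert space times the line, with the maximum norm. -/
abbrev E : Type := H × ℝ

/-- the vector (1 + 1/(n+1)) e_n -/
noncomputable def v (n : ℕ) : H := (1 + 1 / ((n : ℝ) + 1)) • lp.single 2 n (1 : ℝ)

lemma v_apply_self (n : ℕ) : (v n : ℕ → ℝ) n = 1 + 1 / ((n : ℝ) + 1) := by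
  simp [v]

lemma v_apply_ne (n m : ℕ) (h : m ≠ n) : (v n : ℕ → ℝ) m = 0 := by
  simp [v, h]

lemma norm_e (n : ℕ) : ‖(lp.single 2 n (1 : ℝ) : H)‖ = 1 := by
  rw [lp.norm_single (by norm_num)]
  simp

lemma norm_v (n : ℕ) : 1 < ‖v n‖ := by
  have h1 : (0 : ℝ) < 1 / ((n : ℝ) + 1) := by positivity
  rw [v, norm_smul, norm_e, mul_one, Real.norm_eq_abs]
  have := le_abs_self (1 + 1 / ((n : ℝ) + 1))
  linarith

lemma dist_v (n : ℕ) : dist (lp.single 2 n (1 : ℝ) : H) (v n) = 1 / ((n : ℝ) + 1) := by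
  have h1 : (0 : ℝ) < 1 / ((n : ℝ) + 1) := by positivity
  rw [dist_comm, dist_eq_norm]
  have : v n - (lp.single 2 n (1 : ℝ) : H) = (1 / ((n : ℝ) + 1)) • lp.single 2 n (1 : ℝ) := by
    rw [v, add_smul, one_smul]; abel
  rw [this, norm_smul, norm_e, mul_one, Real.norm_eq_abs, abs_of_pos h1]

/-- the set of all v n -/
def S : Set H := Set.range v

lemma S_closed : IsClosed S := by
  apply Metric.isClosed_of_pairwise_le_dist (ε := 1) one_pos
  rintro _ ⟨n, rfl⟩ _ ⟨m, rfl⟩ hne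
  have hnm : n ≠ m := fun h => hne (by rw [h])
  have h1 : (0 : ℝ) < 1 / ((n : ℝ) + 1) := by positivity
  have h2 : ‖(v n - v m : H) n‖ ≤ ‖v n - v m‖ := lp.norm_apply_le_norm (by norm_num) _ n
  rw [dist_eq_norm]
  refine le_trans ?_ h2
  rw [lp.coeFn_sub, Pi.sub_apply, v_apply_self, v_apply_ne m n hnm, sub_zero, Real.norm_eq_abs]
  have := le_abs_self (1 + 1 / ((n : ℝ) + 1))
  linarith

lemma S_nonempty : S.Nonempty := ⟨v 0, 0, rfl⟩

/-- distance to S -/
noncomputable def h (x : H) : ℝ := Metric.infDist x S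

lemma h_pos (x : H) (hx : ‖x‖ ≤ 1) : 0 < h x := by
  apply (S_closed.notMem_iff_infDist_pos S_nonempty).1
  rintro ⟨n, rfl⟩
  exact absurd hx (not_le.2 (norm_v n))

lemma h_e (n : ℕ) : h (lp.single 2 n (1 : ℝ) : H) ≤ 1 / ((n : ℝ) + 1) := by
  rw [← dist_v]
  exact Metric.infDist_le_dist_of_mem ⟨n, rfl⟩

lemma h_nonneg (x : H) : 0 ≤ h x := Metric.infDist_nonneg

lemma h_lip (x y : H) : dist (h x) (h y) ≤ dist x y := by
  have := (Metric.lipschitz_infDist_pt S).dist_le_mul x y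
  simpa [h] using this

/-- the convex set -/
def C : Set E := {p | ‖p.1‖ ≤ 1 ∧ p.2 = 0}

/-- the map -/
noncomputable def f (p : E) : E := (p.1, h p.1)

lemma reflH : Function.Surjective (NormedSpace.inclusionInDoubleDual ℝ H) := by
  intro φ
  obtain ⟨w, hw⟩ := (InnerProductSpace.toDual ℝ H).surjective
    (φ.comp (InnerProductSpace.toDual ℝ H).toContinuousLinearEquiv.toContinuousLinearMap)
  refine ⟨w, ?_⟩
  ext ψ
  obtain ⟨x, rfl⟩ := (InnerProductSpace.toDual ℝ H).surjective ψ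
  have h1 := congrArg (fun g => g x) hw
  simp only [InnerProductSpace.toDual_apply_apply, ContinuousLinearMap.comp_apply] at h1
  rw [NormedSpace.dual_def, InnerProductSpace.toDual_apply_apply, real_inner_comm]
  exact h1

lemma reflE : Function.Surjective (NormedSpace.inclusionInDoubleDual ℝ E) := by
  intro φ
  -- functional on the dual of H
  obtain ⟨w, hw⟩ := reflH (φ.comp ((ContinuousLinearMap.compL ℝ E H ℝ).flip
    (ContinuousLinearMap.fst ℝ H ℝ)))
  refine ⟨(w, φ (ContinuousLinearMap.snd ℝ H ℝ)), ?_⟩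
  ext ψ
  rw [NormedSpace.dual_def]
  have h1 : ψ = (ψ.comp (ContinuousLinearMap.inl ℝ H ℝ)).comp (ContinuousLinearMap.fst ℝ H ℝ)
      + (ψ (0, 1)) • (ContinuousLinearMap.snd ℝ H ℝ) := by
    ext p
    · simp
    · simp only [ContinuousLinearMap.comp_apply, ContinuousLinearMap.inr_apply,
        ContinuousLinearMap.add_apply, ContinuousLinearMap.smul_apply,
        ContinuousLinearMap.coe_fst', ContinuousLinearMap.coe_snd',
        ContinuousLinearMap.inl_apply, smul_eq_mul, mul_one]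
      have : ((0 : H), (0 : ℝ)) = 0 := rfl
      rw [this, map_zero, zero_add]
  have h2 := congrArg (fun g => g (ψ.comp (ContinuousLinearMap.inl ℝ H ℝ))) hw
  simp only [NormedSpace.dual_def, ContinuousLinearMap.comp_apply, ContinuousLinearMap.inl_apply,
    ContinuousLinearMap.flip_apply, ContinuousLinearMap.compL_apply] at h2
  have h3 : φ ψ = ψ (w, 0) + ψ (0, 1) * φ (ContinuousLinearMap.snd ℝ H ℝ) := by
    conv_lhs => rw [h1]
    rw [map_add, map_smul, smul_eq_mul, h2]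
  rw [h3]
  have h4 : ((w, φ (ContinuousLinearMap.snd ℝ H ℝ)) : E)
      = (w, 0) + (φ (ContinuousLinearMap.snd ℝ H ℝ)) • ((0, 1) : E) := by
    ext <;> simp
  rw [h4, map_add, map_smul, smul_eq_mul, mul_comm]

lemma C_closed : IsClosed C := by
  have h1 : IsClosed {p : E | ‖p.1‖ ≤ 1} := isClosed_le (by fun_prop) (by fun_prop)
  have h2 : IsClosed {p : E | p.2 = 0} := isClosed_eq (by fun_prop) (by fun_prop)
  exact h1.inter h2

lemma C_convex : Convex ℝ C := by
  intro p hp q hq a b ha hb hab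
  refine ⟨?_, ?_⟩
  · calc ‖(a • p + b • q).1‖ = ‖a • p.1 + b • q.1‖ := rfl
      _ ≤ ‖a • p.1‖ + ‖b • q.1‖ := norm_add_le _ _
      _ = a * ‖p.1‖ + b * ‖q.1‖ := by
        rw [norm_smul, norm_smul, Real.norm_of_nonneg ha, Real.norm_of_nonneg hb]
      _ ≤ a * 1 + b * 1 := by
        have := hp.1; have := hq.1
        gcongr
      _ = 1 := by linarith
  · show a * p.2 + b * q.2 = 0
    rw [hp.2, hq.2]; simp

lemma C_bdd : Bornology.IsBounded C := by
  rw [isBounded_iff_forall_norm_le]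
  refine ⟨1, fun p hp => ?_⟩
  rw [Prod.norm_def, hp.2]
  simpa using hp.1

lemma C_weak : IsCompact ((toWeakSpace ℝ E) '' C) := by
  have h1 : closure ((toWeakSpace ℝ E) '' C) = (toWeakSpace ℝ E) '' C := by
    rw [← C_convex.toWeakSpace_closure ℝ, C_closed.closure_eq]
  rw [← h1]
  apply NormedSpace.isCompact_closure_of_isBounded
  · rw [Set.preimage_image_eq _ (toWeakSpace ℝ E).injective]
    exact C_bdd
  · intro φ _
    obtain ⟨w, hw⟩ := reflE φ
    exact ⟨toWeakSpace ℝ E w, hw⟩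

lemma C_normal (K : Set E) (hKC : K ⊆ C) (hK : Convex ℝ K) (hab : ∃ a ∈ K, ∃ b ∈ K, a ≠ b) :
    ∃ x ∈ K, ∃ r : ℝ, r < Metric.diam K ∧ ∀ y ∈ K, dist x y ≤ r := by
  obtain ⟨a, ha, b, hb, hne⟩ := hab
  have hKb : Bornology.IsBounded K := C_bdd.subset hKC
  have hdist : ∀ p ∈ K, ∀ q ∈ K, dist p q = ‖p.1 - q.1‖ := by
    intro p hp q hq
    rw [Prod.dist_eq, (hKC hp).2, (hKC hq).2, dist_self, dist_eq_norm]
    exact max_eq_left (norm_nonneg _)
  set d := Metric.diam K with hd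
  have hm : (1 / 2 : ℝ) • a + (1 / 2 : ℝ) • b ∈ K :=
    hK ha hb (by norm_num) (by norm_num) (by norm_num)
  have habpos : 0 < ‖a.1 - b.1‖ := by
    rw [← hdist a ha b hb]; exact dist_pos.2 hne
  have hdpos : 0 < d := by
    have := Metric.dist_le_diam_of_mem hKb ha hb
    rw [hdist a ha b hb] at this
    linarith
  refine ⟨_, hm, Real.sqrt (d ^ 2 - ‖a.1 - b.1‖ ^ 2 / 4), ?_, ?_⟩
  · rw [Real.sqrt_lt' hdpos]
    have : 0 < ‖a.1 - b.1‖ ^ 2 := by positivity
    linarith
  · intro y hy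
    rw [hdist _ hm y hy]
    apply Real.le_sqrt_of_sq_le
    have h1 : ‖a.1 - y.1‖ ≤ d := by
      rw [← hdist a ha y hy]; exact Metric.dist_le_diam_of_mem hKb ha hy
    have h2 : ‖b.1 - y.1‖ ≤ d := by
      rw [← hdist b hb y hy]; exact Metric.dist_le_diam_of_mem hKb hb hy
    have h3 := parallelogram_law_with_norm ℝ (a.1 - y.1) (b.1 - y.1)
    have h4 : (a.1 - y.1) - (b.1 - y.1) = a.1 - b.1 := by abel
    rw [h4] at h3
    have h5 : ((1 / 2 : ℝ) • a + (1 / 2 : ℝ) • b).1 - y.1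
        = (1 / 2 : ℝ) • ((a.1 - y.1) + (b.1 - y.1)) := by
      show (1 / 2 : ℝ) • a.1 + (1 / 2 : ℝ) • b.1 - y.1 = _
      module
    rw [h5, norm_smul, Real.norm_of_nonneg (by norm_num : (0 : ℝ) ≤ 1 / 2), mul_pow]
    have h6 : ‖a.1 - y.1‖ * ‖a.1 - y.1‖ ≤ d ^ 2 := by
      rw [sq]; exact mul_self_le_mul_self (norm_nonneg _) h1
    have h7 : ‖b.1 - y.1‖ * ‖b.1 - y.1‖ ≤ d ^ 2 := by
      rw [sq]; exact mul_self_le_mul_self (norm_nonneg _) h2
    nlinarith

lemma f_nonexp (x y : E) : dist (f x) (f y) ≤ dist x y := by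
  rw [f, f, Prod.dist_eq, Prod.dist_eq]
  apply max_le
  · exact le_max_left _ _
  · exact (h_lip x.1 y.1).trans (le_max_left _ _)

lemma range_not_closed : ¬ IsClosed {z : E | ∃ x ∈ C, z = x - f x} := by
  intro hcl
  have hlim : Filter.Tendsto (fun n : ℕ => ((0 : H), -h (lp.single 2 n (1 : ℝ) : H)))
      Filter.atTop (nhds ((0 : H), (0 : ℝ))) := by
    apply Filter.Tendsto.prodMk_nhds tendsto_const_nhds
    rw [← neg_zero]
    apply Filter.Tendsto.neg
    exact squeeze_zero (fun n => h_nonneg _) h_e tendsto_one_div_add_atTop_nhds_zero_nat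
  have hmem : ((0 : H), (0 : ℝ)) ∈ {z : E | ∃ x ∈ C, z = x - f x} := by
    apply hcl.mem_of_tendsto hlim
    refine Filter.Eventually.of_forall fun n => ?_
    refine ⟨((lp.single 2 n (1 : ℝ) : H), 0), ⟨(norm_e n).le, rfl⟩, ?_⟩
    ext <;> simp [f]
  obtain ⟨x, hx, hx2⟩ := hmem
  have h1 : (0 : ℝ) = x.2 - h x.1 := congrArg Prod.snd hx2
  have h2 := h_pos x.1 hx.1
  rw [hx.2] at h1
  linarith

/-- The negation of the preceding statement: In every reflexive real Banach space, if C is closed, convex, weakly compact with normal structure and f is nonexpansive on C, then the set of values x minus f(x) for x in C is closed. -/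
theorem result :
    ¬ (∀ (X : Type) [NormedAddCommGroup X] [NormedSpace ℝ X] [CompleteSpace X],
    Function.Surjective (NormedSpace.inclusionInDoubleDual ℝ X) →
    ∀ (C : Set X), IsClosed C → Convex ℝ C → IsCompact ((toWeakSpace ℝ X) '' C) →
    (∀ K : Set X, K ⊆ C → Convex ℝ K → (∃ a ∈ K, ∃ b ∈ K, a ≠ b) →
        ∃ x ∈ K, ∃ r : ℝ, r < Metric.diam K ∧ ∀ y ∈ K, dist x y ≤ r) →
    ∀ f : X → X, (∀ x ∈ C, ∀ y ∈ C, dist (f x) (f y) ≤ dist x y) →
    IsClosed {z : X | ∃ x ∈ C, z = x - f x}) := by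
  intro hyp
  exact range_not_closed (hyp E reflE C C_closed C_convex C_weak C_normal f
    (fun x _ y _ => f_nonexp x y))

end Pool.Agent.S02806
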