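import Pool.Statements.S02809
import Pool.Agent.Helper543.Rad.Main
-- import your own Pool.Agent.* helpers here

set_option autoImplicit false
open Pool Pool.MP_29b974_an

namespace Pool.Agent.S02809

/-- For every n ≥ 2 there is a holomorphic function on the Euclidean unit ball of ℂⁿ, not identically zero, such that for almost every point ζ of the unit sphere, f(rζ) tends to 0 as r increases to 1. -/
theorem result :
    ∀ n : ℕ, 2 ≤ n →
      ∃ f : (Fin n → ℂ) → ℂ,
        DifferentiableOn ℂ f {z : Fin n → ℂ | ∑ i, ‖z i‖ ^ 2 < 1} ∧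
        (∃ z : Fin n → ℂ, ∑ i, ‖z i‖ ^ 2 < 1 ∧ f z ≠ 0) ∧
        ∀ᵐ z ∂(MeasureTheory.volume : MeasureTheory.Measure (Fin n → ℂ)),
          z ≠ 0 →
            Filter.Tendsto
              (fun r : ℝ => f ((r / Real.sqrt (∑ i, ‖z i‖ ^ 2)) • z))
              (nhdsWithin (1 : ℝ) (Set.Iio 1)) (nhds 0) := by
  intro n hn
  classical
  let e : Pool.Agent.Helper543.Rad.V n := EuclideanSpace.single ⟨0, by omega⟩ (1 : ℂ)
  have he : ‖e‖ = 1 := by simp [e]
  let s : (Fin n → ℂ) → Pool.Agent.Helper543.Rad.V n := fun z =>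
    if z = 0 then e else (((1 / Real.sqrt (∑ i, ‖z i‖ ^ 2) : ℝ)) : ℂ) • WithLp.toLp 2 z
  have hs : Measurable s := by
    apply Measurable.ite (measurableSet_singleton 0) measurable_const
    refine Measurable.smul (f := fun x : Fin n → ℂ => (((1 / Real.sqrt (∑ i, ‖x i‖ ^ 2) : ℝ)) : ℂ))
      (g := fun x : Fin n → ℂ => (WithLp.toLp 2 x : Pool.Agent.Helper543.Rad.V n)) ?_ ?_
    · fun_prop
    · exact (PiLp.continuous_toLp 2 _).measurable
  have hnorm : ∀ z : Fin n → ℂ, ‖(WithLp.toLp 2 z : Pool.Agent.Helper543.Rad.V n)‖ =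
      Real.sqrt (∑ i, ‖z i‖ ^ 2) := by
    intro z
    rw [EuclideanSpace.norm_eq]
  have hpos : ∀ z : Fin n → ℂ, z ≠ 0 → 0 < Real.sqrt (∑ i, ‖z i‖ ^ 2) := by
    intro z hz
    rw [← hnorm, norm_pos_iff]
    intro h
    apply hz
    have := congrArg (fun v : Pool.Agent.Helper543.Rad.V n => v.ofLp) h
    simpa using this
  have hs1 : ∀ z, ‖s z‖ = 1 := by
    intro z
    by_cases hz : z = 0
    · simp only [s, hz, if_true]; exact he
    · simp only [s, hz, if_false]
      rw [norm_smul, hnorm, Complex.norm_real, Real.norm_of_nonneg (by positivity)]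
      have := hpos z hz
      field_simp
  obtain ⟨g, hg1, hg2⟩ := Pool.Agent.Helper543.Rad.main
    (MeasureTheory.volume : MeasureTheory.Measure (Fin n → ℂ)) s hs hs1
  refine ⟨fun z => Complex.exp (g (WithLp.toLp 2 z)), ?_, ⟨0, by simp, Complex.exp_ne_zero _⟩, ?_⟩
  · apply DifferentiableOn.cexp
    apply hg1.comp (t := Metric.ball 0 1)
    · exact (PiLp.continuousLinearEquiv 2 ℂ (fun _ : Fin n => ℂ)).symm.differentiable.differentiableOn
    · intro z hz
      rw [mem_ball_zero_iff, hnorm]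
      rw [Real.sqrt_lt' one_pos]
      simpa using hz
  · filter_upwards [hg2] with z hz hz0
    rw [tendsto_zero_iff_norm_tendsto_zero]
    simp only [Complex.norm_exp]
    apply Real.tendsto_exp_atBot.comp
    refine hz.congr (fun r => ?_)
    have h1 : s z = (((1 / Real.sqrt (∑ i, ‖z i‖ ^ 2) : ℝ)) : ℂ) • WithLp.toLp 2 z := by
      simp only [s, hz0, if_false]
    have h2 : (WithLp.toLp 2 ((r / Real.sqrt (∑ i, ‖z i‖ ^ 2)) • z) :
        Pool.Agent.Helper543.Rad.V n) = (r : ℂ) • s z := by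
      rw [h1]
      ext i
      simp
      ring
    rw [h2]

end Pool.Agent.S02809
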