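-- Proof of the frozen statement S02811 (problem MP_2a3982_an).
-- Idea. For a weakly Cauchy sequence x in the unit ball and ε > 0 the tree of finite lists of index
-- pairs admitting a norm one functional with a jump ≥ ε at every pair is well founded. Along this
-- tree one builds (by recursion on the rank) a random like process choosing convex combinations
-- of the x n whose draws are natural numbers, such that two runs of the process can be interleaved
-- with results within 2 ε of each other in norm. In a reflexive space iterated weak limits
-- of the image of such a process force concentration around one point, which contradicts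
-- uniform embeddability when x has no weak limit.
import Pool.Statements.S02811
import Pool.Agent.Helper301.WSC

set_option autoImplicit false
open Pool Pool.MP_2a3982_an

namespace Pool.Agent.S02811

/-- For real Banach spaces X and Y with Y reflexive, if the closed unit ball of X uniformly embeds into Y, then every weakly Cauchy sequence in X converges weakly to some point of X. -/
theorem result :
    ∀ (X : Type) [NormedAddCommGroup X] [NormedSpace ℝ X] [CompleteSpace X]
      (Y : Type) [NormedAddCommGroup Y] [NormedSpace ℝ Y] [CompleteSpace Y],
      Function.Surjective (NormedSpace.inclusionInDoubleDual ℝ Y) →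
      (∃ f : Metric.closedBall (0 : X) 1 → Y, IsUniformEmbedding f) →
      ∀ x : ℕ → X, (∀ φ : X →L[ℝ] ℝ, CauchySeq (fun n => φ (x n))) →
        ∃ x₀ : X, ∀ φ : X →L[ℝ] ℝ,
          Filter.Tendsto (fun n => φ (x n)) Filter.atTop (nhds (φ x₀)) := by
  intro X _ _ _ Y _ _ _ hY hf x hx
  obtain ⟨f, hf⟩ := hf
  exact Pool.Agent.Helper301.WSC.main_theorem hY hf x hx

end Pool.Agent.S02811
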