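import Pool.Statements.S02824
import Pool.Agent.Helper964.Ros.Main

set_option autoImplicit false
open Pool Pool.MP_2b187c_an

namespace Pool.Agent.S02824

/-- The negation of the preceding statement: Every separable real Banach space with a continuous polynomial P, P(0)=0 and P ≥ c > 0 on the unit sphere, has an equivalent norm that is C^m away from 0 for every m. -/
theorem result :
    ¬ (∀ (X : Type) [NormedAddCommGroup X] [NormedSpace ℝ X] [CompleteSpace X]
      [TopologicalSpace.SeparableSpace X],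
      (∃ (n : ℕ) (p : FormalMultilinearSeries ℝ X ℝ),
          (∑ k ∈ Finset.range (n + 1), p k (fun _ => (0 : X))) = 0 ∧
          ∃ c : ℝ, 0 < c ∧ ∀ x : X, ‖x‖ = 1 →
            c ≤ ∑ k ∈ Finset.range (n + 1), p k (fun _ => x)) →
      ∃ N : X → ℝ,
        (∀ x y : X, N (x + y) ≤ N x + N y) ∧
        (∀ (r : ℝ) (x : X), N (r • x) = |r| * N x) ∧
        (∃ a b : ℝ, 0 < a ∧ 0 < b ∧ ∀ x : X, a * ‖x‖ ≤ N x ∧ N x ≤ b * ‖x‖) ∧
        ∀ m : ℕ, ContDiffOn ℝ m N ({0}ᶜ : Set X)) := by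
  intro H
  refine Pool.Agent.Helper964.Ros.main_thm ?_
  intro X _ _ _ _ hX
  obtain ⟨N, h1, h2, h3, h4⟩ := H X hX
  exact ⟨N, h1, h2, h3, by exact_mod_cast h4 5⟩

end Pool.Agent.S02824
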