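import Pool.Statements.S02826
import Pool.Agent.Helper570.Climb
import Pool.Agent.Helper570.Asplund

set_option autoImplicit false
open Pool Pool.MP_2b27bc_an

namespace Pool.Agent.S02826

/-- The negation of the preceding statement: Every real Banach space in which each closed separable subspace has separable dual (an Asplund space) admits a continuous norm, not necessarily equivalent, that is Fréchet differentiable at every nonzero point. -/
theorem result :
    ¬ (∀ (X : Type) [NormedAddCommGroup X] [NormedSpace ℝ X] [CompleteSpace X],
      (∀ Y : Submodule ℝ X, IsClosed (Y : Set X) →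
          TopologicalSpace.SeparableSpace Y →
          TopologicalSpace.SeparableSpace (Y →L[ℝ] ℝ)) →
      ∃ N : X → ℝ, Continuous N ∧
        (∀ x : X, N x = 0 → x = 0) ∧
        (∀ (c : ℝ) (x : X), N (c • x) = |c| * N x) ∧
        (∀ x y : X, N (x + y) ≤ N x + N y) ∧
        (∀ x : X, x ≠ 0 → DifferentiableAt ℝ N x)) := by
  intro h
  obtain ⟨N, hcont, h0, hsmul, hadd, hdiff⟩ := h Helper570.Tree.X
    (fun Y _ hY => Helper570.Tree.asplund Y hY)
  let p : Seminorm ℝ Helper570.Tree.X := Seminorm.of N hadd (fun c x => by
    rw [hsmul, Real.norm_eq_abs])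
  have hpN : ∀ x, p x = N x := fun x => rfl
  have hpc : Continuous p := hcont
  obtain ⟨C, hC, hp⟩ := Seminorm.bound_of_continuous_normedSpace p hpc
  exact Helper570.Tree.no_smooth_norm hC.le hp (fun x hx => hdiff x hx) (fun x hx => h0 x hx)

end Pool.Agent.S02826
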