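import Mathlib
import Pool.Statements.S02832

set_option autoImplicit false

/-!
# A tuple with the local contraction property which is not an initial segment of coefficients of a
univalent self-map of the disc

We take `r = 3` and `(B_1, B_2, B_3) = (e, e, (43/25) e)` with `e = exp (-200)`.

Part 1 (`DB1`): the local contraction property. With `μ = ν + 2` the difference of the two Krein
space self-products is a real ternary quadratic form; its lower right minors are computed explicitly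
and shown to be positive for all real `μ ≠ 0, 1, -1`; the remaining exponents follow by continuity.

Part 2 (`DB2` - `DB5`): for a univalent self-map `f` of the disc with `f(0) = 0` and
`f'(0) = exp (-s)` put `α = f_2 / f_1` and `ω = f_3 / f_1 - (f_2 / f_1) ^ 2`. Then
`Re ω + 4 c Re α ≤ U c s` for `0 ≤ c ≤ 1`, where `U c s` is the integral from `0` to `s` of
`2 b ^ 2 + 4 c ^ 2 - 4 (max (c - b) 0) ^ 2`, `b = exp (-t)`. This is proved without the Loewner
equation: a univalent function is decomposed by Koebe transforms (square root transforms at omitted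
values on a circle of radius `ρ`, `ρ → 1`) into a composition of near-identity self-maps of the disc,
to which positivity of the real part is applied.
With `c = 1 / 5`, `s = 200` this excludes the tuple above.
-/

namespace Pool.Agent.S02832.DB1

open Real

/-- positivity of a real ternary quadratic form from its lower right minors -/
theorem quad3 (p11 p12 p13 p22 p23 p33 u v w : ℝ) (h1 : 0 < p33)
    (h2 : 0 < p22 * p33 - p23 ^ 2)
    (h3 : 0 ≤ p11 * (p22 * p33 - p23 ^ 2) - p12 * (p12 * p33 - p23 * p13)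
      + p13 * (p12 * p23 - p22 * p13)) :
    0 ≤ p11 * u ^ 2 + p22 * v ^ 2 + p33 * w ^ 2 + 2 * p12 * u * v + 2 * p13 * u * w
      + 2 * p23 * v * w := by
  set m := p22 * p33 - p23 ^ 2 with hm
  set d := p11 * m - p12 * (p12 * p33 - p23 * p13)
      + p13 * (p12 * p23 - p22 * p13) with hd
  have key : p33 * m * (p11 * u ^ 2 + p22 * v ^ 2 + p33 * w ^ 2 + 2 * p12 * u * v
      + 2 * p13 * u * w + 2 * p23 * v * w) =
      m * (p33 * w + p23 * v + p13 * u) ^ 2 + (m * v + (p33 * p12 - p13 * p23) * u) ^ 2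
        + p33 * d * u ^ 2 := by
    rw [hd, hm]; ring
  have hpos : 0 ≤ p33 * m * (p11 * u ^ 2 + p22 * v ^ 2 + p33 * w ^ 2 + 2 * p12 * u * v
      + 2 * p13 * u * w + 2 * p23 * v * w) := by
    rw [key]; positivity
  exact nonneg_of_mul_nonneg_right hpos (by positivity)

/-- the determinant polynomial -/
noncomputable def DD (μ Y c : ℝ) : ℝ :=
  μ * (μ ^ 2 - 1) * (c - Y) * (1 - Y) * (1 - c * Y)
    - Y * μ ^ 2 * (μ ^ 2 - 1) * ((μ + 1) * (c - Y) + (μ - 1) * (1 - c * Y))
    - 4 * Y * μ * (μ ^ 2 - 1) ^ 2 * (μ / 4 + 9 / 25) ^ 2 * (1 - Y)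
    - 4 * (9 / 25) * Y ^ 2 * μ ^ 2 * (μ ^ 2 - 1) ^ 2

/-- the reduced determinant -/
noncomputable def GG (μ Y E : ℝ) : ℝ :=
  (1 - E) * ((1 - E * Y ^ 2) * (1 - Y) - 2 * μ * Y)
    - (1 - μ) * ((1 + E * Y) * μ * (1 - Y)
      + (1 + μ) * ((μ ^ 2 / 4 + 4 * (9 / 25) ^ 2) * (1 - Y) + 2 * (9 / 25) * μ * (1 + Y)))

theorem DD_eq (μ Y E : ℝ) : DD μ Y (E * Y) = Y * μ * (1 - μ ^ 2) * GG μ Y E := by
  unfold DD GG; ring

theorem DD_neg (μ Y c : ℝ) (hY : Y ≠ 0) : DD (-μ) Y⁻¹ c = (Y ^ 3)⁻¹ * DD μ Y c := by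
  unfold DD; field_simp; ring

theorem exp_bd1 (t : ℝ) : exp (-t) * (1 + t) ≤ 1 := by
  have h1 := add_one_le_exp t
  have h2 : exp (-t) * exp t = 1 := by rw [← exp_add]; simp
  nlinarith [exp_pos (-t)]

theorem exp_small (t : ℝ) (ht : 1000 ≤ 1 + t) : exp (-t) ≤ 1 / 1000 := by
  have h := exp_bd1 t
  have h2 := exp_pos (-t)
  rw [le_div_iff₀ (by norm_num)]
  nlinarith

theorem exp_small' (t : ℝ) (ht : 40 ≤ t) : exp (-t) ≤ 1 / 1000 := by
  have h := exp_bd1 (t / 4)
  have h2 := exp_pos (-(t / 4))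
  have h3 : exp (-t) = exp (-(t / 4)) ^ 4 := by rw [← exp_nat_mul]; congr 1; push_cast; ring
  have h4 : exp (-(t / 4)) ≤ 1 / 11 := by
    rw [le_div_iff₀ (by norm_num)]
    nlinarith
  rw [h3]
  calc exp (-(t / 4)) ^ 4 ≤ (1 / 11) ^ 4 := by gcongr
    _ ≤ _ := by norm_num

theorem poly1 (μ : ℝ) (h0 : 0 < μ) (h1 : μ ≤ 1) :
    0 < 993 / 1000 - 1001 / 1000 * (1 - μ) * μ
      - (1 - μ) * (1 + μ) * (μ ^ 2 / 4 + 4 * (9 / 25) ^ 2 + 2 * (9 / 25) * μ + 36 / 10000) := by
  nlinarith [mul_nonneg h0.le (sq_nonneg (μ - 46 / 100)), sq_nonneg (μ ^ 2 - 46 ^ 2 / 10000),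
    sq_nonneg (μ - 46 / 100), mul_nonneg h0.le (sub_nonneg.mpr h1)]

theorem GG_pos (μ : ℝ) (h0 : 0 < μ) (h1 : μ < 1) :
    0 < GG μ (exp (-(400 * μ))) (exp (-(400 * (1 - μ)))) := by
  set Y := exp (-(400 * μ)) with hY
  set E := exp (-(400 * (1 - μ))) with hE
  have hY0 : 0 < Y := exp_pos _
  have hE0 : 0 < E := exp_pos _
  have hYb : Y * (1 + 400 * μ) ≤ 1 := exp_bd1 _
  have hEb : E * (1 + 400 * (1 - μ)) ≤ 1 := exp_bd1 _
  have hY1 : Y < 1 := by nlinarith [mul_pos hY0 h0]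
  have hE1 : E < 1 := by nlinarith [mul_pos hE0 (sub_pos.mpr h1)]
  rcases le_or_gt μ (9 / 10) with h | h
  · have hE2 : E ≤ 1 / 1000 := exp_small' _ (by linarith)
    have hR : 0 < 1 - Y := by linarith
    have hY2 : 2 * μ * Y ≤ (1 - Y) / 200 := by linarith
    have hp := poly1 μ h0 h1.le
    have e1 : (1 - E) * ((1 - E * Y ^ 2) * (1 - Y)) ≥ (998 / 1000) * (1 - Y) := by
      have a1 : E * Y ^ 2 ≤ 1 / 1000 := by
        calc E * Y ^ 2 ≤ 1 / 1000 * 1 := by
              apply mul_le_mul hE2 _ (by positivity) (by norm_num)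
              nlinarith
          _ = _ := by norm_num
      have a2 : (998 / 1000 : ℝ) ≤ (1 - E) * (1 - E * Y ^ 2) := by
        have : 0 ≤ E * Y ^ 2 := by positivity
        nlinarith
      nlinarith
    have e2 : (1 - E) * (2 * μ * Y) ≤ (1 - Y) / 200 := by
      have : 0 ≤ 2 * μ * Y := by positivity
      nlinarith
    have e3 : (1 - μ) * ((1 + E * Y) * μ * (1 - Y)) ≤ 1001 / 1000 * (1 - μ) * μ * (1 - Y) := by
      have a1 : E * Y ≤ 1 / 1000 := by nlinarith
      have a2 : 0 ≤ (1 - μ) * μ * (1 - Y) := by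
        have := sub_pos.mpr h1
        positivity
      nlinarith
    have e4 : (1 - μ) * ((1 + μ) * ((μ ^ 2 / 4 + 4 * (9 / 25) ^ 2) * (1 - Y)
        + 2 * (9 / 25) * μ * (1 + Y))) ≤
        (1 - μ) * (1 + μ) * (μ ^ 2 / 4 + 4 * (9 / 25) ^ 2 + 2 * (9 / 25) * μ + 36 / 10000)
          * (1 - Y) := by
      have a1 : 0 ≤ (1 - μ) * (1 + μ) := by
        have := sub_pos.mpr h1
        positivity
      have a2 : (μ ^ 2 / 4 + 4 * (9 / 25) ^ 2) * (1 - Y)
        + 2 * (9 / 25) * μ * (1 + Y) ≤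
        (μ ^ 2 / 4 + 4 * (9 / 25) ^ 2 + 2 * (9 / 25) * μ + 36 / 10000) * (1 - Y) := by
        nlinarith
      calc _ = (1 - μ) * (1 + μ) * ((μ ^ 2 / 4 + 4 * (9 / 25) ^ 2) * (1 - Y)
        + 2 * (9 / 25) * μ * (1 + Y)) := by ring
        _ ≤ (1 - μ) * (1 + μ) * ((μ ^ 2 / 4 + 4 * (9 / 25) ^ 2 + 2 * (9 / 25) * μ
            + 36 / 10000) * (1 - Y)) := mul_le_mul_of_nonneg_left a2 a1
        _ = _ := by ring
    have e5 := mul_pos hp hR
    unfold GG
    nlinarith
  · have hY2 : Y ≤ 1 / 1000 := exp_small' _ (by linarith)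
    have hl : 0 < 1 - μ := by linarith
    have hE2 : 9 * (1 - μ) ≤ 1 - E := by
      -- (1 - E) (1 + 400 λ) ≥ 400 λ, 1 + 400 λ ≤ 41
      have a1 : 400 * (1 - μ) ≤ (1 - E) * (1 + 400 * (1 - μ)) := by nlinarith
      nlinarith
    have b1 : (9 / 10 : ℝ) ≤ (1 - E * Y ^ 2) * (1 - Y) - 2 * μ * Y := by
      have a1 : E * Y ^ 2 ≤ 1 / 1000 := by
        calc E * Y ^ 2 ≤ 1 * (1 / 1000) := by
              apply mul_le_mul hE1.le _ (by positivity) (by norm_num)
              nlinarith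
          _ = _ := by norm_num
      have a2 : 0 ≤ E * Y ^ 2 := by positivity
      nlinarith
    have b2 : (1 + E * Y) * μ * (1 - Y)
      + (1 + μ) * ((μ ^ 2 / 4 + 4 * (9 / 25) ^ 2) * (1 - Y) + 2 * (9 / 25) * μ * (1 + Y)) ≤ 5 := by
      have a1 : (1 + E * Y) * μ * (1 - Y) ≤ 1001 / 1000 := by
        have c1 : E * Y ≤ 1 / 1000 := by nlinarith
        have c2 : 0 ≤ E * Y := by positivity
        calc (1 + E * Y) * μ * (1 - Y) ≤ (1001 / 1000) * 1 * 1 := by
              apply mul_le_mul _ (by linarith) (by linarith) (by norm_num)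
              apply mul_le_mul (by linarith) h1.le h0.le (by norm_num)
          _ = _ := by norm_num
      have a2 : (μ ^ 2 / 4 + 4 * (9 / 25) ^ 2) * (1 - Y) ≤ 77 / 100 := by
        have : μ ^ 2 ≤ 1 := by nlinarith
        nlinarith
      have a3 : 2 * (9 / 25) * μ * (1 + Y) ≤ 73 / 100 := by nlinarith
      have a4 : 0 ≤ (μ ^ 2 / 4 + 4 * (9 / 25) ^ 2) * (1 - Y) + 2 * (9 / 25) * μ * (1 + Y) := by
        have := sub_pos.mpr hY1
        positivity
      nlinarith
    have b3 : (9 * (1 - μ)) * (9 / 10) ≤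
        (1 - E) * ((1 - E * Y ^ 2) * (1 - Y) - 2 * μ * Y) := by
      apply mul_le_mul hE2 b1 (by norm_num) (by linarith)
    unfold GG
    nlinarith

theorem GG_neg (μ : ℝ) (h1 : 1 < μ) :
    GG μ (exp (-(400 * μ))) (exp (-(400 * (1 - μ)))) < 0 := by
  set Y := exp (-(400 * μ)) with hY
  set E := exp (-(400 * (1 - μ))) with hE
  have hY0 : 0 < Y := exp_pos _
  have hE0 : 0 < E := exp_pos _
  have hYb : Y * (1 + 400 * μ) ≤ 1 := exp_bd1 _
  have hY2 : Y ≤ 1 / 1000 := exp_small' _ (by linarith)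
  obtain ⟨t, rfl⟩ : ∃ t, μ = 1 + t := ⟨μ - 1, by ring⟩
  have ht : 0 < t := by linarith
  have hEb : (1 + 100 * t) ^ 4 ≤ E := by
    have h2 : E = exp (100 * t) ^ 4 := by
      rw [← exp_nat_mul, hE]; congr 1; push_cast; ring
    rw [h2]
    have := add_one_le_exp (100 * t)
    gcongr
    linarith
  have hEY : E * Y ≤ 1 / 1000 := by
    rw [hE, hY, ← exp_add]
    have : -(400 * (1 - (1 + t))) + -(400 * (1 + t)) = -(400 : ℝ) := by ring
    rw [this]
    exact exp_small' _ (by norm_num)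
  have b1 : (9 / 10 : ℝ) ≤ (1 - E * Y ^ 2) * (1 - Y) - 2 * (1 + t) * Y := by
    have a1 : E * Y ^ 2 ≤ 1 / 1000 := by
      have : E * Y ^ 2 = (E * Y) * Y := by ring
      rw [this]; nlinarith [mul_pos hE0 hY0]
    have a2 : 0 ≤ E * Y ^ 2 := by positivity
    nlinarith
  have b2 : (1 + E * Y) * (1 + t) * (1 - Y)
      + (1 + (1 + t)) * (((1 + t) ^ 2 / 4 + 4 * (9 / 25) ^ 2) * (1 - Y)
        + 2 * (9 / 25) * (1 + t) * (1 + Y)) ≤
      2 * (1 + t) + (2 + t) * ((1 + t) ^ 2 / 4 + 1 + (1 + t)) := by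
    have a1 : (1 + E * Y) * (1 + t) * (1 - Y) ≤ 2 * (1 + t) := by
      calc (1 + E * Y) * (1 + t) * (1 - Y) ≤ 2 * (1 + t) * 1 := by
            apply mul_le_mul _ (by linarith) (by linarith) (by positivity)
            apply mul_le_mul (by linarith) le_rfl (by positivity) (by norm_num)
        _ = _ := by ring
    have a2 : ((1 + t) ^ 2 / 4 + 4 * (9 / 25) ^ 2) * (1 - Y) ≤ (1 + t) ^ 2 / 4 + 1 := by
      have : 0 ≤ (1 + t) ^ 2 / 4 + 4 * (9 / 25) ^ 2 := by positivity
      nlinarith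
    have a3 : 2 * (9 / 25) * (1 + t) * (1 + Y) ≤ (1 + t) := by nlinarith
    have a4 : (1 + (1 + t)) * (((1 + t) ^ 2 / 4 + 4 * (9 / 25) ^ 2) * (1 - Y)
        + 2 * (9 / 25) * (1 + t) * (1 + Y)) ≤ (1 + (1 + t)) * ((1 + t) ^ 2 / 4 + 1 + (1 + t)) := by
      apply mul_le_mul_of_nonneg_left _ (by positivity)
      linarith
    linarith
  have b3 : ((1 + 100 * t) ^ 4 - 1) * (9 / 10) ≤
      (E - 1) * ((1 - E * Y ^ 2) * (1 - Y) - 2 * (1 + t) * Y) := by
    apply mul_le_mul _ b1 (by norm_num)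
    · have : 1 ≤ (1 + 100 * t) ^ 4 := one_le_pow₀ (by linarith)
      linarith
    · linarith
  have b4 : t * (2 * (1 + t) + (2 + t) * ((1 + t) ^ 2 / 4 + 1 + (1 + t))) <
      ((1 + 100 * t) ^ 4 - 1) * (9 / 10) := by
    have : 0 < t ^ 2 := by positivity
    have : 0 < t ^ 3 := by positivity
    have : 0 < t ^ 4 := by positivity
    nlinarith
  have b5 := mul_le_mul_of_nonneg_left b2 ht.le
  unfold GG
  nlinarith

theorem DD_pos (μ : ℝ) (h0 : μ ≠ 0) (h1 : μ ≠ 1) (h2 : μ ≠ -1) :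
    0 < DD μ (exp (-(400 * μ))) (exp (-400)) := by
  have main : ∀ μ : ℝ, 0 < μ → μ ≠ 1 → 0 < DD μ (exp (-(400 * μ))) (exp (-400)) := by
    intro μ h0 h1
    have e : exp (-400 : ℝ) = exp (-(400 * (1 - μ))) * exp (-(400 * μ)) := by
      rw [← exp_add]; congr 1; ring
    rw [e, DD_eq]
    have hY0 := exp_pos (-(400 * μ))
    rcases lt_or_gt_of_ne h1 with h | h
    · have := GG_pos μ h0 h
      have h3 : 0 < 1 - μ ^ 2 := by nlinarith
      positivity
    · have := GG_neg μ h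
      have h3 : 1 - μ ^ 2 < 0 := by nlinarith
      have h4 : 0 < exp (-(400 * μ)) * μ := by positivity
      have h5 := mul_pos_of_neg_of_neg h3 this
      calc 0 < (exp (-(400 * μ)) * μ) * ((1 - μ ^ 2) * GG μ (exp (-(400 * μ)))
            (exp (-(400 * (1 - μ))))) := mul_pos h4 h5
        _ = _ := by ring
  rcases lt_or_gt_of_ne h0 with h | h
  · have h3 := main (-μ) (by linarith) (by intro h4; apply h2; linarith)
    have e : exp (-(400 * μ)) = (exp (-(400 * (-μ))))⁻¹ := by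
      rw [← exp_neg]; congr 1; ring
    have h4 := DD_neg (-μ) (exp (-(400 * (-μ)))) (exp (-400)) (exp_pos _).ne'
    rw [neg_neg] at h4
    rw [e, h4]
    have := exp_pos (-(400 * (-μ)))
    positivity
  · exact main μ h h1

theorem MM_pos (μ : ℝ) (h0 : μ ≠ 0) (h2 : μ ≠ -1) :
    0 < μ * (μ + 1) * ((1 - exp (-(400 * μ))) * (1 - exp (-400) * exp (-(400 * μ))))
      - μ ^ 2 * (μ + 1) ^ 2 * exp (-(400 * μ)) := by
  set Y := exp (-(400 * μ)) with hY
  have hY0 : 0 < Y := exp_pos _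
  have hc0 : 0 < exp (-400 : ℝ) := exp_pos _
  have hc1 : exp (-400 : ℝ) ≤ 1 / 1000 := by
    have := exp_small' 400 (by norm_num)
    simpa using this
  rcases lt_or_gt_of_ne h0 with h | h
  · rcases lt_or_gt_of_ne h2 with h' | h'
    · -- μ < -1
      obtain ⟨s, rfl⟩ : ∃ s, μ = -1 - s := ⟨-1 - μ, by ring⟩
      have hs : 0 < s := by linarith
      have e1 : exp (-400) * Y = exp (200 * s) ^ 2 := by
        rw [hY, ← exp_add, ← exp_nat_mul]; congr 1; push_cast; ring
      have e2 := add_one_le_exp (200 * s)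
      have e3 : (1 + 200 * s) ^ 2 ≤ exp (-400) * Y := by
        rw [e1]; gcongr; linarith
      have e4 : 2 ≤ Y := by
        nlinarith [sq_nonneg s]
      have e5 : (200 * s) * 2 + 40000 * s ^ 2 ≤ exp (-400) * Y - 1 := by nlinarith
      have e6 : Y / 2 * ((200 * s) * 2 + 40000 * s ^ 2) ≤ (Y - 1) * (exp (-400) * Y - 1) := by
        apply mul_le_mul (by linarith) e5 (by positivity) (by linarith)
      have e7 : 0 < (-1 - s) * ((-1 - s) + 1) := by nlinarith
      have e8 : 0 < (1 - Y) * (1 - exp (-400) * Y) - (-1 - s) * ((-1 - s) + 1) * Y := by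
        have : 0 < Y * s := by positivity
        have : 0 < Y * s ^ 2 := by positivity
        nlinarith
      calc 0 < (-1 - s) * ((-1 - s) + 1) * ((1 - Y) * (1 - exp (-400) * Y)
            - (-1 - s) * ((-1 - s) + 1) * Y) := mul_pos e7 e8
        _ = _ := by ring
    · -- -1 < μ < 0
      obtain ⟨s, rfl⟩ : ∃ s, μ = -s := ⟨-μ, by ring⟩
      have hs : 0 < s := by linarith
      have hs1 : s < 1 := by linarith
      set Z := exp (-(400 * s)) with hZ
      have hZ0 : 0 < Z := exp_pos _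
      have hZY : Z * Y = 1 := by
        rw [hZ, hY, ← exp_add]; simp
      have hZb : Z * (1 + 400 * s) ≤ 1 := exp_bd1 _
      set W := exp (-400) * Y with hW
      have hWe : W = exp (-(400 * (1 - s))) := by
        rw [hW, hY, ← exp_add]; congr 1; ring
      have hWb : W * (1 + 400 * (1 - s)) ≤ 1 := by rw [hWe]; exact exp_bd1 _
      have hW0 : 0 < W := by positivity
      have hZ1 : 400 * s ≤ (1 - Z) * (1 + 400 * s) := by linarith
      have hW1 : 400 * (1 - s) ≤ (1 - W) * (1 + 400 * (1 - s)) := by linarith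
      have k1 : (400 * s) * (400 * (1 - s)) ≤
          ((1 - Z) * (1 + 400 * s)) * ((1 - W) * (1 + 400 * (1 - s))) := by
        apply mul_le_mul hZ1 hW1 (by nlinarith) (by nlinarith)
      have k2 : (1 + 400 * s) * (1 + 400 * (1 - s)) ≤ 50000 := by nlinarith [sq_nonneg (s - 1 / 2)]
      have hz1 : 0 < 1 - Z := by
        by_contra hcon
        push Not at hcon
        nlinarith
      have hw1 : 0 < 1 - W := by
        by_contra hcon
        push Not at hcon
        nlinarith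
      have k3 : ((1 - Z) * (1 - W)) * ((1 + 400 * s) * (1 + 400 * (1 - s))) ≤
          ((1 - Z) * (1 - W)) * 50000 := by
        apply mul_le_mul_of_nonneg_left k2 (by positivity)
      have k4 : s * (1 - s) < (1 - Z) * (1 - W) := by nlinarith [mul_pos hs (sub_pos.mpr hs1)]
      have k5 : 0 < Y * ((1 - Z) * (1 - W) - s * (1 - s)) := by
        apply mul_pos hY0; linarith
      have k6 : Y * ((1 - Z) * (1 - W) - s * (1 - s)) =
          (Y - 1) * (1 - W) - s * (1 - s) * Y := by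
        have : Y * (1 - Z) = Y - 1 := by linarith
        calc _ = (Y * (1 - Z)) * (1 - W) - s * (1 - s) * Y := by ring
          _ = _ := by rw [this]
      rw [k6] at k5
      calc 0 < (s * (1 - s)) * ((Y - 1) * (1 - W) - s * (1 - s) * Y) :=
            mul_pos (mul_pos hs (sub_pos.mpr hs1)) k5
        _ = _ := by ring
  · -- μ > 0
    have e1 : exp (200 * μ) ^ 2 * Y = 1 := by
      rw [hY, ← exp_nat_mul, ← exp_add]; simp; ring
    have e2 := add_one_le_exp (200 * μ)
    have e3 : (1 + 200 * μ) ^ 2 * Y ≤ 1 := by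
      rw [← e1]; gcongr; linarith
    have hY1 : Y ≤ 1 := by nlinarith [mul_pos hY0 h, mul_pos hY0 (pow_pos h 2)]
    have e4 : (400 * μ + 40000 * μ ^ 2) * Y ≤ 1 - Y := by nlinarith
    have e5 : ((400 * μ + 40000 * μ ^ 2) * Y) * (1 / 2) ≤ (1 - Y) * (1 - exp (-400) * Y) := by
      apply mul_le_mul e4 _ (by norm_num) (by linarith)
      nlinarith
    have e8 : 0 < (1 - Y) * (1 - exp (-400) * Y) - μ * (μ + 1) * Y := by
      have : 0 < Y * μ := by positivity
      have : 0 < Y * μ ^ 2 := by positivity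
      nlinarith
    calc 0 < μ * (μ + 1) * ((1 - Y) * (1 - exp (-400) * Y)
            - μ * (μ + 1) * Y) := mul_pos (by positivity) e8
        _ = _ := by ring

/-- the truncated contraction inequality for real coefficients, generic exponents -/
theorem contr_gen (μ u v w : ℝ) (h0 : μ ≠ 0) (h1 : μ ≠ 1) (h2 : μ ≠ -1) :
    (μ - 1) * (exp (-200 * (μ - 1)) * u) ^ 2
      + μ * (exp (-200 * μ) * v + (μ - 1) * exp (-200 * (μ - 1)) * u) ^ 2
      + (μ + 1) * (exp (-200 * (μ + 1)) * w + μ * exp (-200 * μ) * v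
        + ((μ - 1) * (43 / 25) + (μ - 1) * (μ - 2) / 2) * exp (-200 * (μ - 1)) * u) ^ 2
      ≤ (μ - 1) * u ^ 2 + μ * v ^ 2 + (μ + 1) * w ^ 2 := by
  have hb0 : 0 < exp (-200 : ℝ) := exp_pos _
  have hx0 : 0 < exp (-200 * μ) := exp_pos _
  have e1 : exp (-200 * (μ - 1)) = exp (-200 * μ) / exp (-200) := by
    rw [← exp_sub]; congr 1; ring
  have e3 : exp (-200 * (μ + 1)) = exp (-200 * μ) * exp (-200) := by
    rw [← exp_add]; congr 1; ring
  have eY : exp (-(400 * μ)) = exp (-200 * μ) ^ 2 := by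
    rw [← exp_nat_mul]; congr 1; push_cast; ring
  have ec : exp (-400 : ℝ) = exp (-200) ^ 2 := by
    rw [← exp_nat_mul]; congr 1; norm_num
  have hD := DD_pos μ h0 h1 h2
  have hM := MM_pos μ h0 h2
  rw [eY, ec] at hD hM
  have h33 : 0 < (μ + 1) * (1 - exp (-200 * (μ + 1)) ^ 2) := by
    have e : exp (-200 * (μ + 1)) ^ 2 = exp (-400 * (μ + 1)) := by
      rw [← exp_nat_mul]; congr 1; push_cast; ring
    rw [e]
    rcases lt_or_gt_of_ne (show μ + 1 ≠ 0 by intro h; apply h2; linarith) with h | h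
    · apply mul_pos_of_neg_of_neg h
      have : 1 < exp (-400 * (μ + 1)) := by
        rw [one_lt_exp_iff]; nlinarith
      linarith
    · apply mul_pos h
      have : exp (-400 * (μ + 1)) < 1 := by
        rw [exp_lt_one_iff]; nlinarith
      linarith
  rw [e3] at h33
  rw [e1, e3]
  generalize exp (-200 * μ) = x at *
  generalize exp (-200 : ℝ) = b at *
  have key := quad3
    ((μ - 1) - ((μ - 1) * (x / b) ^ 2 + μ * ((μ - 1) * (x / b)) ^ 2
      + (μ + 1) * (((μ - 1) * (43 / 25) + (μ - 1) * (μ - 2) / 2) * (x / b)) ^ 2))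
    (-(μ * x * ((μ - 1) * (x / b))
      + (μ + 1) * (μ * x) * (((μ - 1) * (43 / 25) + (μ - 1) * (μ - 2) / 2) * (x / b))))
    (-((μ + 1) * (x * b) * (((μ - 1) * (43 / 25) + (μ - 1) * (μ - 2) / 2) * (x / b))))
    (μ - (μ * x ^ 2 + (μ + 1) * (μ * x) ^ 2))
    (-((μ + 1) * (x * b) * (μ * x)))
    ((μ + 1) * (1 - (x * b) ^ 2)) u v w h33 ?_ ?_
  · nlinarith [key]
  · refine lt_of_lt_of_eq hM ?_
    ring
  · have : 0 < (b ^ 2)⁻¹ * DD μ (x ^ 2) (b ^ 2) := by positivity
    refine le_of_lt (lt_of_lt_of_eq this ?_)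
    unfold DD
    field_simp
    ring

theorem contr (μ u v w : ℝ) :
    (μ - 1) * (exp (-200 * (μ - 1)) * u) ^ 2
      + μ * (exp (-200 * μ) * v + (μ - 1) * exp (-200 * (μ - 1)) * u) ^ 2
      + (μ + 1) * (exp (-200 * (μ + 1)) * w + μ * exp (-200 * μ) * v
        + ((μ - 1) * (43 / 25) + (μ - 1) * (μ - 2) / 2) * exp (-200 * (μ - 1)) * u) ^ 2
      ≤ (μ - 1) * u ^ 2 + μ * v ^ 2 + (μ + 1) * w ^ 2 := by
  have hcl : IsClosed {μ : ℝ | (μ - 1) * (exp (-200 * (μ - 1)) * u) ^ 2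
      + μ * (exp (-200 * μ) * v + (μ - 1) * exp (-200 * (μ - 1)) * u) ^ 2
      + (μ + 1) * (exp (-200 * (μ + 1)) * w + μ * exp (-200 * μ) * v
        + ((μ - 1) * (43 / 25) + (μ - 1) * (μ - 2) / 2) * exp (-200 * (μ - 1)) * u) ^ 2
      ≤ (μ - 1) * u ^ 2 + μ * v ^ 2 + (μ + 1) * w ^ 2} := by
    apply isClosed_le <;> fun_prop
  have hd : Dense (({0, 1, -1} : Set ℝ)ᶜ) := by
    apply Set.Countable.dense_compl ℝ
    exact (Set.toFinite _).countable
  have hsub : (({0, 1, -1} : Set ℝ)ᶜ) ⊆ {μ : ℝ | (μ - 1) * (exp (-200 * (μ - 1)) * u) ^ 2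
      + μ * (exp (-200 * μ) * v + (μ - 1) * exp (-200 * (μ - 1)) * u) ^ 2
      + (μ + 1) * (exp (-200 * (μ + 1)) * w + μ * exp (-200 * μ) * v
        + ((μ - 1) * (43 / 25) + (μ - 1) * (μ - 2) / 2) * exp (-200 * (μ - 1)) * u) ^ 2
      ≤ (μ - 1) * u ^ 2 + μ * v ^ 2 + (μ + 1) * w ^ 2} := by
    intro x hx
    simp only [Set.mem_compl_iff, Set.mem_insert_iff, Set.mem_singleton_iff, not_or] at hx
    exact contr_gen x u v w hx.1 hx.2.1 hx.2.2
  have h := hcl.closure_subset_iff.mpr hsub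
  rw [hd.closure_eq] at h
  exact h (Set.mem_univ μ)

theorem normSq3 (x y z : ℝ) (a b c : ℂ) :
    ‖a * x + b * y + c * z‖ ^ 2 = (a.re * x + b.re * y + c.re * z) ^ 2
      + (a.im * x + b.im * y + c.im * z) ^ 2 := by
  rw [← Complex.normSq_eq_norm_sq, Complex.normSq_apply]
  simp
  ring

theorem norm1 (a : ℂ) : ‖a‖ ^ 2 = a.re ^ 2 + a.im ^ 2 := by
  rw [← Complex.normSq_eq_norm_sq, Complex.normSq_apply]; ring

theorem coeffs (p q : ℂ) (c1 c2 : ℂ) :
    (c1 * ((Polynomial.C p * Polynomial.X ^ 1 + Polynomial.C q * Polynomial.X ^ 2) ^ 0).coeff 1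
      + c2 * ((Polynomial.C p * Polynomial.X ^ 1 + Polynomial.C q * Polynomial.X ^ 2) ^ 1).coeff 1)
      = c2 * p := by
  simp [Polynomial.coeff_one]

theorem coeff22 (p q : ℂ) :
    ((Polynomial.C p * Polynomial.X ^ 1 + Polynomial.C q * Polynomial.X ^ 2) ^ 2).coeff 2
      = p ^ 2 := by
  have : (Polynomial.C p * Polynomial.X ^ 1 + Polynomial.C q * Polynomial.X ^ 2) ^ 2 =
      Polynomial.C (p ^ 2) * Polynomial.X ^ 2 + Polynomial.C (2 * p * q) * Polynomial.X ^ 3
        + Polynomial.C (q ^ 2) * Polynomial.X ^ 4 := by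
    simp only [map_mul, map_pow]
    have : (Polynomial.C (2 : ℂ)) = 2 := by rfl
    rw [this]
    ring
  rw [this]
  simp only [Polynomial.coeff_add, Polynomial.coeff_C_mul, Polynomial.coeff_X_pow]
  norm_num

theorem contrC (b : ℕ → ℂ) (hb1 : b 1 = ((exp (-200) : ℝ) : ℂ)) (hb2 : b 2 = ((exp (-200) : ℝ) : ℂ))
    (hb3 : b 3 = (43 / 25 : ℂ) * ((exp (-200) : ℝ) : ℂ)) (ν : ℝ) (a : ℕ → ℂ) :
    ∑ m ∈ Finset.Icc 1 (3 : ℕ), (ν + (m : ℝ)) *
          ‖∑ n ∈ Finset.Icc 1 m, a n * ((((b 1).re ^ (ν + (n : ℝ)) : ℝ)) : ℂ) *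
            ∑ j ∈ Finset.range (m - n + 1),
              (∏ i ∈ Finset.range j, ((((ν + (n : ℝ)) : ℝ) : ℂ) - (i : ℂ))) / ((j.factorial : ℕ) : ℂ) *
              ((∑ k ∈ Finset.Ico 1 (3 : ℕ), Polynomial.C (b (k + 1) / b 1) * Polynomial.X ^ k) ^ j).coeff (m - n)‖ ^ 2
        ≤ ∑ n ∈ Finset.Icc 1 (3 : ℕ), (ν + (n : ℝ)) * ‖a n‖ ^ 2 := by
  have hne : ((exp (-200) : ℝ) : ℂ) ≠ 0 := by
    exact_mod_cast (exp_pos _).ne'
  have hq1 : b (1 + 1) / b 1 = 1 := by
    rw [hb1, hb2]; exact div_self hne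
  have hq2 : b (2 + 1) / b 1 = 43 / 25 := by
    rw [hb1, hb3]; exact mul_div_cancel_right₀ _ hne
  have hpow : ∀ n : ℝ, (b 1).re ^ (ν + n) = exp (-200 * (ν + n)) := by
    intro n
    rw [hb1, Complex.ofReal_re, Real.exp_mul]
  have i3 : Finset.Icc 1 3 = ({1, 2, 3} : Finset ℕ) := by decide
  have i2 : Finset.Icc 1 2 = ({1, 2} : Finset ℕ) := by decide
  have i1 : Finset.Icc 1 1 = ({1} : Finset ℕ) := by decide
  have j2 : Finset.Ico 1 3 = ({1, 2} : Finset ℕ) := by decide
  simp only [hpow, j2]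
  rw [i3]
  rw [Finset.sum_insert (by decide), Finset.sum_insert (by decide), Finset.sum_singleton,
    Finset.sum_insert (by decide), Finset.sum_insert (by decide), Finset.sum_singleton]
  rw [i1, i2, i3]
  rw [Finset.sum_singleton, Finset.sum_pair (by decide), Finset.sum_insert (by decide),
    Finset.sum_insert (by decide), Finset.sum_singleton]
  have c0 : ∀ c : ℂ, ∑ j ∈ Finset.range (0 + 1), (∏ i ∈ Finset.range j, (c - (i : ℂ))) /
      ((j.factorial : ℕ) : ℂ) * ((Polynomial.C (1 : ℂ) * Polynomial.X ^ 1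
        + Polynomial.C (43 / 25) * Polynomial.X ^ 2) ^ j).coeff 0 = 1 := by
    intro c; simp
  have c1 : ∀ c : ℂ, ∑ j ∈ Finset.range (1 + 1), (∏ i ∈ Finset.range j, (c - (i : ℂ))) /
      ((j.factorial : ℕ) : ℂ) * ((Polynomial.C (1 : ℂ) * Polynomial.X ^ 1
        + Polynomial.C (43 / 25) * Polynomial.X ^ 2) ^ j).coeff 1 = c := by
    intro c
    rw [Finset.sum_range_succ, Finset.sum_range_one, coeffs]
    simp
  have c2 : ∀ c : ℂ, ∑ j ∈ Finset.range (2 + 1), (∏ i ∈ Finset.range j, (c - (i : ℂ))) /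
      ((j.factorial : ℕ) : ℂ) * ((Polynomial.C (1 : ℂ) * Polynomial.X ^ 1
        + Polynomial.C (43 / 25) * Polynomial.X ^ 2) ^ j).coeff 2
        = c * (43 / 25) + c * (c - 1) / 2 := by
    intro c
    rw [Finset.sum_range_succ, Finset.sum_range_succ, Finset.sum_range_one, coeff22]
    simp [Finset.prod_range_succ, Polynomial.coeff_one, Polynomial.coeff_X]
  rw [Finset.sum_insert (by decide), Finset.sum_singleton]
  rw [hq1, hq2, show (1 : ℕ) - 1 = 0 from rfl, show (2 : ℕ) - 1 = 1 from rfl,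
    show (3 : ℕ) - 1 = 2 from rfl]
  simp only [c0, c1, c2]
  have hR := contr (ν + 2) (a 1).re (a 2).re (a 3).re
  have hI := contr (ν + 2) (a 1).im (a 2).im (a 3).im
  have f1 : ν + ((1 : ℕ) : ℝ) = ν + 2 - 1 := by push_cast; ring
  have f2 : ν + ((2 : ℕ) : ℝ) = ν + 2 := by push_cast; ring
  have f3 : ν + ((3 : ℕ) : ℝ) = ν + 2 + 1 := by push_cast; ring
  rw [f1, f2, f3]
  generalize ν + 2 = μ at *
  generalize exp (-200 * (μ - 1)) = e1 at *
  generalize exp (-200 * μ) = e2 at *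
  generalize exp (-200 * (μ + 1)) = e3 at *
  have n1 : ‖a 1 * (e1 : ℂ) * 1‖ ^ 2 = (e1 * (a 1).re) ^ 2 + (e1 * (a 1).im) ^ 2 := by
    rw [norm1]; simp; ring
  have n2 : ‖a 1 * (e1 : ℂ) * ((μ - 1 : ℝ) : ℂ) + a 2 * (e2 : ℂ) * 1‖ ^ 2 =
      (e2 * (a 2).re + (μ - 1) * e1 * (a 1).re) ^ 2
        + (e2 * (a 2).im + (μ - 1) * e1 * (a 1).im) ^ 2 := by
    have : a 1 * (e1 : ℂ) * ((μ - 1 : ℝ) : ℂ) + a 2 * (e2 : ℂ) * 1 =
        a 1 * ((e1 * (μ - 1) : ℝ) : ℂ) + a 2 * (e2 : ℂ) + 0 * ((0 : ℝ) : ℂ) := by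
      push_cast; ring
    rw [this, normSq3]; simp; ring
  have n3 : ‖a 1 * (e1 : ℂ) * (((μ - 1 : ℝ) : ℂ) * (43 / 25)
        + ((μ - 1 : ℝ) : ℂ) * (((μ - 1 : ℝ) : ℂ) - 1) / 2)
        + (a 2 * (e2 : ℂ) * ((μ : ℝ) : ℂ) + a 3 * (e3 : ℂ) * 1)‖ ^ 2 =
      (e3 * (a 3).re + μ * e2 * (a 2).re
        + ((μ - 1) * (43 / 25) + (μ - 1) * (μ - 2) / 2) * e1 * (a 1).re) ^ 2
      + (e3 * (a 3).im + μ * e2 * (a 2).im
        + ((μ - 1) * (43 / 25) + (μ - 1) * (μ - 2) / 2) * e1 * (a 1).im) ^ 2 := by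
    have : a 1 * (e1 : ℂ) * (((μ - 1 : ℝ) : ℂ) * (43 / 25)
        + ((μ - 1 : ℝ) : ℂ) * (((μ - 1 : ℝ) : ℂ) - 1) / 2)
        + (a 2 * (e2 : ℂ) * ((μ : ℝ) : ℂ) + a 3 * (e3 : ℂ) * 1) =
        a 1 * ((e1 * ((μ - 1) * (43 / 25) + (μ - 1) * (μ - 2) / 2) : ℝ) : ℂ)
          + a 2 * ((e2 * μ : ℝ) : ℂ) + a 3 * (e3 : ℂ) := by
      push_cast; ring
    rw [this, normSq3]; ring
  rw [n1, n2, n3, norm1, norm1, norm1]
  linarith

end Pool.Agent.S02832.DB1

namespace Pool.Agent.S02832.DB2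

open Complex Metric Set Filter Topology

theorem avg_div_pow (h : ℂ → ℂ) (r : ℝ) (hr : 0 < r) (hd : DifferentiableOn ℂ h (closedBall 0 r))
    (k : ℕ) : Real.circleAverage (fun z => h z / z ^ k) 0 r =
      iteratedDeriv k h 0 / (k.factorial : ℂ) := by
  have e := DifferentiableOn.circleIntegral_one_div_sub_center_pow_smul hr k hd
  rw [Real.circleAverage_eq_circleIntegral hr.ne']
  have e2 : (∮ z in C(0, r), (z - 0)⁻¹ • (h z / z ^ k)) =
      ∮ z in C(0, r), (1 / (z - 0) ^ (k + 1)) • h z := by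
    apply circleIntegral.integral_congr hr.le
    intro z hz
    have hz0 : z ≠ 0 := by
      rintro rfl
      simp at hz
      linarith
    simp only [sub_zero, smul_eq_mul]
    field_simp
    ring
  rw [e2, e]
  simp only [smul_eq_mul]
  have := Real.pi_ne_zero
  have h2 : (k.factorial : ℂ) ≠ 0 := by exact_mod_cast k.factorial_ne_zero
  field_simp

theorem avg_mul_pow (h : ℂ → ℂ) (r : ℝ) (hr : 0 < r) (hd : DifferentiableOn ℂ h (closedBall 0 r))
    (k : ℕ) (hk : k ≠ 0) : Real.circleAverage (fun z => h z * z ^ k) 0 r = 0 := by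
  have h1 : DiffContOnCl ℂ (fun z => h z * z ^ k) (ball 0 |r|) := by
    rw [abs_of_pos hr]
    apply DifferentiableOn.diffContOnCl
    apply DifferentiableOn.mono _ closure_ball_subset_closedBall
    exact hd.mul (by fun_prop)
  rw [h1.circleAverage]
  simp [hk]

theorem pos_r (h : ℂ → ℂ) (r : ℝ) (hr : 0 < r) (hd : DifferentiableOn ℂ h (closedBall 0 r))
    (hre : ∀ z ∈ sphere (0 : ℂ) r, 0 ≤ (h z).re) (m p q : ℝ)
    (ht : ∀ θ : ℝ, 0 ≤ m + 2 * p * Real.cos θ + 2 * q * Real.cos (2 * θ)) :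
    0 ≤ m * (h 0).re + p * r * (deriv h 0).re + q * r ^ 2 * (deriv (deriv h) 0).re / 2 := by
  have hcont : ContinuousOn h (sphere 0 r) :=
    hd.continuousOn.mono sphere_subset_closedBall
  have hne : ∀ z ∈ sphere (0 : ℂ) r, z ≠ 0 := by
    rintro z hz rfl
    simp at hz
    linarith
  -- the weight
  set F : ℂ → ℂ := fun z => (m : ℂ) * (h z * z ^ 0) + (p / r : ℂ) * (h z * z ^ 1)
    + (q / r ^ 2 : ℂ) * (h z * z ^ 2) + (p * r : ℂ) * (h z / z ^ 1)
    + (q * r ^ 2 : ℂ) * (h z / z ^ 2) with hF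
  have hI : ∀ G : ℂ → ℂ, ContinuousOn G (sphere 0 r) → CircleIntegrable G 0 r := by
    intro G hG
    exact hG.circleIntegrable hr.le
  have c0 : ContinuousOn (fun z => h z * z ^ 0) (sphere 0 r) := hcont.mul (by fun_prop)
  have c1 : ContinuousOn (fun z => h z * z ^ 1) (sphere 0 r) := hcont.mul (by fun_prop)
  have c2 : ContinuousOn (fun z => h z * z ^ 2) (sphere 0 r) := hcont.mul (by fun_prop)
  have d1 : ContinuousOn (fun z => h z / z ^ 1) (sphere 0 r) :=
    hcont.div (by fun_prop) (fun z hz => pow_ne_zero _ (hne z hz))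
  have d2 : ContinuousOn (fun z => h z / z ^ 2) (sphere 0 r) :=
    hcont.div (by fun_prop) (fun z hz => pow_ne_zero _ (hne z hz))
  have hFc : ContinuousOn F (sphere 0 r) := by
    apply ContinuousOn.add
    apply ContinuousOn.add
    apply ContinuousOn.add
    apply ContinuousOn.add
    · exact continuousOn_const.mul c0
    · exact continuousOn_const.mul c1
    · exact continuousOn_const.mul c2
    · exact continuousOn_const.mul d1
    · exact continuousOn_const.mul d2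
  have avgF : Real.circleAverage F 0 r = (m : ℂ) * h 0 + (p * r : ℂ) * deriv h 0
      + (q * r ^ 2 : ℂ) * (deriv (deriv h) 0 / 2) := by
    have a0 := avg_div_pow h r hr hd 0
    have a1 := avg_div_pow h r hr hd 1
    have a2 := avg_div_pow h r hr hd 2
    have b1 := avg_mul_pow h r hr hd 1 one_ne_zero
    have b2 := avg_mul_pow h r hr hd 2 two_ne_zero
    have k0 : CircleIntegrable (fun z => (m : ℂ) * (h z * z ^ 0)) 0 r :=
      hI _ (continuousOn_const.mul c0)
    have k1 : CircleIntegrable (fun z => (p / r : ℂ) * (h z * z ^ 1)) 0 r :=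
      hI _ (continuousOn_const.mul c1)
    have k2 : CircleIntegrable (fun z => (q / r ^ 2 : ℂ) * (h z * z ^ 2)) 0 r :=
      hI _ (continuousOn_const.mul c2)
    have k3 : CircleIntegrable (fun z => (p * r : ℂ) * (h z / z ^ 1)) 0 r :=
      hI _ (continuousOn_const.mul d1)
    have k4 : CircleIntegrable (fun z => (q * r ^ 2 : ℂ) * (h z / z ^ 2)) 0 r :=
      hI _ (continuousOn_const.mul d2)
    have hF2 : F = (((fun z => (m : ℂ) * (h z * z ^ 0)) + (fun z => (p / r : ℂ) * (h z * z ^ 1)))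
      + (fun z => (q / r ^ 2 : ℂ) * (h z * z ^ 2)) + (fun z => (p * r : ℂ) * (h z / z ^ 1)))
      + (fun z => (q * r ^ 2 : ℂ) * (h z / z ^ 2)) := rfl
    rw [hF2, Real.circleAverage_add (((k0.add k1).add k2).add k3) k4,
      Real.circleAverage_add ((k0.add k1).add k2) k3,
      Real.circleAverage_add (k0.add k1) k2,
      Real.circleAverage_add k0 k1]
    have sm : ∀ (a : ℂ) (G : ℂ → ℂ), Real.circleAverage (fun z => a * G z) 0 r =
        a * Real.circleAverage G 0 r := by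
      intro a G
      exact Real.circleAverage_fun_smul (a := a) (f := G)
    rw [sm, sm, sm, sm, sm, a1, a2, b1, b2]
    have a0' : Real.circleAverage (fun z => h z * z ^ 0) 0 r = h 0 := by
      simpa using a0
    rw [a0', iteratedDeriv_one, iteratedDeriv_succ, iteratedDeriv_one]
    simp
  have hnn : 0 ≤ Real.circleAverage (fun z => (F z).re) 0 r := by
    apply Real.circleAverage_nonneg_of_nonneg
    intro z hz
    rw [abs_of_pos hr] at hz
    have hz' : ‖z‖ = r := by simpa using hz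
    -- z = r e^{iθ}
    obtain ⟨θ, rfl⟩ : ∃ θ : ℝ, z = r * exp (θ * I) := ⟨arg z, by
      rw [← hz']; exact (norm_mul_exp_arg_mul_I z).symm⟩
    set e := exp (θ * I) with he
    have hr' : (r : ℂ) ≠ 0 := by exact_mod_cast hr.ne'
    have he0 : e ≠ 0 := exp_ne_zero _
    have e1 : F (r * e) = h (r * e) * ((m : ℂ) + p * (e + e⁻¹) + q * (e ^ 2 + (e⁻¹) ^ 2)) := by
      simp only [hF]
      field_simp
      ring
    have e2 : (m : ℂ) + p * (e + e⁻¹) + q * (e ^ 2 + (e⁻¹) ^ 2) =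
        ((m + 2 * p * Real.cos θ + 2 * q * Real.cos (2 * θ) : ℝ) : ℂ) := by
      have i1 : e⁻¹ = exp (-(θ * I)) := by rw [he, ← exp_neg]
      have i2 : e + e⁻¹ = 2 * Complex.cos θ := by
        rw [i1, he, Complex.cos, ← neg_mul]; ring
      have i3 : e ^ 2 + (e⁻¹) ^ 2 = 2 * Complex.cos (2 * θ) := by
        rw [i1, he, Complex.cos, ← exp_nat_mul, ← exp_nat_mul]
        have u1 : ((2 : ℕ) : ℂ) * (θ * I) = 2 * θ * I := by push_cast; ring
        have u2 : ((2 : ℕ) : ℂ) * (-(θ * I)) = -(2 * θ) * I := by push_cast; ring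
        rw [u1, u2]
        ring
      rw [i2, i3]
      push_cast
      ring
    rw [e1, e2, re_mul_ofReal]
    exact mul_nonneg (hre _ hz) (ht θ)
  have hcomm : Real.circleAverage (fun z => (F z).re) 0 r = (Real.circleAverage F 0 r).re := by
    have := ContinuousLinearMap.circleAverage_comp_comm (E := ℂ) (F := ℝ) Complex.reCLM
      (f := F) (c := 0) (R := r) (hI F hFc)
    exact this
  rw [hcomm, avgF] at hnn
  have : ((m : ℂ) * h 0 + (p * r : ℂ) * deriv h 0
      + (q * r ^ 2 : ℂ) * (deriv (deriv h) 0 / 2)).re = m * (h 0).re + p * r * (deriv h 0).re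
      + q * r ^ 2 * (deriv (deriv h) 0).re / 2 := by
    have r1 : (p * r : ℂ) = ((p * r : ℝ) : ℂ) := by push_cast; ring
    have r2 : (q * r ^ 2 : ℂ) * (deriv (deriv h) 0 / 2) =
      ((q * r ^ 2 / 2 : ℝ) : ℂ) * deriv (deriv h) 0 := by push_cast; ring
    rw [r1, r2, add_re, add_re, re_ofReal_mul, re_ofReal_mul, re_ofReal_mul]
    ring
  rw [this] at hnn
  exact hnn

/-- positivity of coefficients of functions with nonnegative real part -/
theorem pos_coef (h : ℂ → ℂ) (hd : DifferentiableOn ℂ h (ball 0 1))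
    (hre : ∀ z ∈ ball (0 : ℂ) 1, 0 ≤ (h z).re) (m p q : ℝ)
    (ht : ∀ θ : ℝ, 0 ≤ m + 2 * p * Real.cos θ + 2 * q * Real.cos (2 * θ)) :
    0 ≤ m * (h 0).re + p * (deriv h 0).re + q * (deriv (deriv h) 0).re / 2 := by
  have hlim : Tendsto (fun r : ℝ => m * (h 0).re + p * r * (deriv h 0).re
      + q * r ^ 2 * (deriv (deriv h) 0).re / 2) (𝓝[<] 1)
      (𝓝 (m * (h 0).re + p * 1 * (deriv h 0).re + q * 1 ^ 2 * (deriv (deriv h) 0).re / 2)) := by
    apply Tendsto.mono_left _ nhdsWithin_le_nhds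
    apply Continuous.tendsto
    fun_prop
  have hev : ∀ᶠ r in 𝓝[<] (1 : ℝ), 0 ≤ m * (h 0).re + p * r * (deriv h 0).re
      + q * r ^ 2 * (deriv (deriv h) 0).re / 2 := by
    filter_upwards [Ioo_mem_nhdsLT (show (0 : ℝ) < 1 by norm_num)] with r hr
    apply pos_r h r hr.1 _ _ m p q ht
    · exact hd.mono (closedBall_subset_ball hr.2)
    · intro z hz
      apply hre
      simp at hz ⊢
      linarith [hr.2]
  have := ge_of_tendsto hlim hev
  simpa using this

end Pool.Agent.S02832.DB2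

namespace Pool.Agent.S02832.DB3

open Complex Metric Set Filter Topology

/-- second coefficient over first coefficient -/
noncomputable def al (f : ℂ → ℂ) : ℂ := deriv (deriv f) 0 / (2 * deriv f 0)

/-- `a₃ - a₂²` for the normalised function -/
noncomputable def om (f : ℂ → ℂ) : ℂ :=
  deriv (deriv (deriv f)) 0 / (6 * deriv f 0) - al f ^ 2

theorem comp_derivs (β h : ℂ → ℂ) (hh : AnalyticAt ℂ h 0) (h0 : h 0 = 0)
    (hβ : AnalyticAt ℂ β 0) (f : ℂ → ℂ) (hf : f =ᶠ[𝓝 0] fun z => β (h z)) :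
    deriv f 0 = deriv β 0 * deriv h 0 ∧
    deriv (deriv f) 0 = deriv (deriv β) 0 * deriv h 0 ^ 2 + deriv β 0 * deriv (deriv h) 0 ∧
    deriv (deriv (deriv f)) 0 = deriv (deriv (deriv β)) 0 * deriv h 0 ^ 3
      + 3 * deriv (deriv β) 0 * deriv h 0 * deriv (deriv h) 0
      + deriv β 0 * deriv (deriv (deriv h)) 0 := by
  have hc : Tendsto h (𝓝 0) (𝓝 0) := by
    have := hh.continuousAt.tendsto
    rwa [h0] at this
  have ah : ∀ᶠ z in 𝓝 (0 : ℂ), AnalyticAt ℂ h z := hh.eventually_analyticAt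
  have ab : ∀ᶠ z in 𝓝 (0 : ℂ), AnalyticAt ℂ β (h z) := hc.eventually hβ.eventually_analyticAt
  have e1 : deriv f =ᶠ[𝓝 0] fun z => deriv β (h z) * deriv h z := by
    refine hf.deriv.trans ?_
    filter_upwards [ah, ab] with z h1 h2
    exact deriv_comp z h2.differentiableAt h1.differentiableAt
  have e2 : deriv (deriv f) =ᶠ[𝓝 0] fun z => deriv (deriv β) (h z) * deriv h z ^ 2
      + deriv β (h z) * deriv (deriv h) z := by
    refine e1.deriv.trans ?_
    filter_upwards [ah, ab] with z h1 h2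
    have d1 : HasDerivAt (fun z => deriv β (h z)) (deriv (deriv β) (h z) * deriv h z) z := by
      have := HasDerivAt.comp z (h2.deriv.differentiableAt.hasDerivAt) h1.differentiableAt.hasDerivAt
      exact this
    have d2 := d1.mul h1.deriv.differentiableAt.hasDerivAt
    have d3 := d2.deriv
    have d4 : (fun z => deriv β (h z)) * deriv h = fun z => deriv β (h z) * deriv h z := rfl
    rw [d4] at d3
    rw [d3]; ring
  have e3 : deriv (deriv (deriv f)) =ᶠ[𝓝 0] fun z => deriv (deriv (deriv β)) (h z) * deriv h z ^ 3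
      + 3 * deriv (deriv β) (h z) * deriv h z * deriv (deriv h) z
      + deriv β (h z) * deriv (deriv (deriv h)) z := by
    refine e2.deriv.trans ?_
    filter_upwards [ah, ab] with z h1 h2
    have d1 : HasDerivAt (fun z => deriv β (h z)) (deriv (deriv β) (h z) * deriv h z) z :=
      HasDerivAt.comp z (h2.deriv.differentiableAt.hasDerivAt) h1.differentiableAt.hasDerivAt
    have d2 : HasDerivAt (fun z => deriv (deriv β) (h z))
        (deriv (deriv (deriv β)) (h z) * deriv h z) z :=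
      HasDerivAt.comp z (h2.deriv.deriv.differentiableAt.hasDerivAt) h1.differentiableAt.hasDerivAt
    have d3 := (d2.mul ((h1.deriv.differentiableAt.hasDerivAt).pow 2)).add
      (d1.mul h1.deriv.deriv.differentiableAt.hasDerivAt)
    have d4 := d3.deriv
    have d5 : (fun z => deriv (deriv β) (h z)) * (deriv h ^ 2)
        + (fun z => deriv β (h z)) * deriv (deriv h) =
        fun z => deriv (deriv β) (h z) * deriv h z ^ 2
      + deriv β (h z) * deriv (deriv h) z := rfl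
    rw [d5] at d4
    rw [d4]
    simp only [Pi.pow_apply]
    push_cast
    ring
  refine ⟨?_, ?_, ?_⟩
  · rw [e1.eq_of_nhds, h0]
  · rw [e2.eq_of_nhds, h0]
  · rw [e3.eq_of_nhds, h0]

theorem comp_al (β h : ℂ → ℂ) (hh : AnalyticAt ℂ h 0) (h0 : h 0 = 0)
    (hβ : AnalyticAt ℂ β 0) (f : ℂ → ℂ) (hf : f =ᶠ[𝓝 0] fun z => β (h z))
    (hh1 : deriv h 0 ≠ 0) (hβ1 : deriv β 0 ≠ 0) :
    deriv f 0 = deriv β 0 * deriv h 0 ∧
    al f = al h + deriv h 0 * al β ∧ om f = om h + deriv h 0 ^ 2 * om β := by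
  obtain ⟨e1, e2, e3⟩ := comp_derivs β h hh h0 hβ f hf
  have ea : al f = al h + deriv h 0 * al β := by
    unfold al
    rw [e1, e2]
    field_simp
    ring
  refine ⟨e1, ea, ?_⟩
  unfold om
  rw [ea, e1, e3]
  unfold al
  field_simp
  ring

/-- derivatives of `z g(z)` -/
theorem mul_derivs (g f : ℂ → ℂ) (hg : AnalyticAt ℂ g 0) (hf : f =ᶠ[𝓝 0] fun z => z * g z) :
    deriv f 0 = g 0 ∧ deriv (deriv f) 0 = 2 * deriv g 0 ∧
    deriv (deriv (deriv f)) 0 = 3 * deriv (deriv g) 0 := by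
  have ag : ∀ᶠ z in 𝓝 (0 : ℂ), AnalyticAt ℂ g z := hg.eventually_analyticAt
  have e1 : deriv f =ᶠ[𝓝 0] fun z => g z + z * deriv g z := by
    refine hf.deriv.trans ?_
    filter_upwards [ag] with z h1
    have := ((hasDerivAt_id z).mul h1.differentiableAt.hasDerivAt).deriv
    have d4 : (id * g) = fun z => z * g z := rfl
    rw [d4] at this
    rw [this]; simp
  have e2 : deriv (deriv f) =ᶠ[𝓝 0] fun z => 2 * deriv g z + z * deriv (deriv g) z := by
    refine e1.deriv.trans ?_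
    filter_upwards [ag] with z h1
    have := (h1.differentiableAt.hasDerivAt.add
      ((hasDerivAt_id z).mul h1.deriv.differentiableAt.hasDerivAt)).deriv
    have d4 : (g + id * deriv g) = fun z => g z + z * deriv g z := rfl
    rw [d4] at this
    rw [this]; simp; ring
  have e3 : deriv (deriv (deriv f)) =ᶠ[𝓝 0] fun z => 3 * deriv (deriv g) z
      + z * deriv (deriv (deriv g)) z := by
    refine e2.deriv.trans ?_
    filter_upwards [ag] with z h1
    have := ((h1.deriv.differentiableAt.hasDerivAt.const_mul 2).add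
      ((hasDerivAt_id z).mul h1.deriv.deriv.differentiableAt.hasDerivAt)).deriv
    have d4 : ((fun y => 2 * deriv g y) + id * deriv (deriv g)) =
      fun z => 2 * deriv g z + z * deriv (deriv g) z := rfl
    rw [d4] at this
    rw [this]; simp; ring
  refine ⟨?_, ?_, ?_⟩
  · rw [e1.eq_of_nhds]; simp
  · rw [e2.eq_of_nhds]; simp
  · rw [e3.eq_of_nhds]; simp

/-- the rate function -/
noncomputable def mm (c b : ℝ) : ℝ := 2 * b ^ 2 + 4 * c ^ 2 - 4 * (max (c - b) 0) ^ 2

theorem trig_pos (c b : ℝ) (hb : 0 ≤ b) (hc : 0 ≤ c) (θ : ℝ) :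
    0 ≤ mm c b + 2 * (4 * c * b) * Real.cos θ + 2 * (b ^ 2) * Real.cos (2 * θ) := by
  rw [Real.cos_two_mul]
  unfold mm
  have h1 := Real.neg_one_le_cos θ
  rcases le_or_gt (c - b) 0 with h | h
  · rw [max_eq_right h]
    nlinarith [sq_nonneg (b * Real.cos θ + c)]
  · rw [max_eq_left h.le]
    have h2 : c - b ≤ b * Real.cos θ + c := by nlinarith
    nlinarith [mul_self_le_mul_self h.le h2]

/-- estimate for one near-identity factor -/
theorem step_bound (β : ℂ → ℂ) (hd : DifferentiableOn ℂ β (ball 0 1))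
    (hm : MapsTo β (ball 0 1) (ball 0 1)) (h0 : β 0 = 0) (τ : ℝ) (hτ : 0 < τ)
    (h1 : deriv β 0 = τ) (c b : ℝ) (hb : 0 ≤ b) (hc : 0 ≤ c) :
    b ^ 2 * (om β).re + 4 * c * b * (al β).re ≤
      mm c b * ((1 - τ) / τ) + 4 * b ^ 2 * ((1 - τ) / τ) ^ 2 := by
  set g := dslope β 0 with hg
  have hgd : DifferentiableOn ℂ g (ball 0 1) :=
    (differentiableOn_dslope (ball_mem_nhds 0 one_pos)).mpr hd
  have hga : AnalyticAt ℂ g 0 := hgd.analyticAt (ball_mem_nhds 0 one_pos)
  have hgn : ∀ z ∈ ball (0 : ℂ) 1, ‖g z‖ ≤ 1 := by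
    intro z hz
    have := norm_dslope_le_div_of_mapsTo_ball hd (R₂ := 1) (by rw [h0]; exact fun w hw => ball_subset_closedBall (hm hw)) hz
    simpa using this
  have hβg : β =ᶠ[𝓝 0] fun z => z * g z := by
    filter_upwards with z
    have := sub_smul_dslope β 0 z
    rw [h0] at this
    simpa using this.symm
  obtain ⟨e1, e2, e3⟩ := mul_derivs g β hga hβg
  rw [h1] at e1
  -- `1 - g` has nonnegative real part
  have hre : ∀ z ∈ ball (0 : ℂ) 1, 0 ≤ ((fun z => 1 - g z) z).re := by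
    intro z hz
    have := (Complex.re_le_norm (g z)).trans (hgn z hz)
    simp only [sub_re, one_re]
    linarith
  have hdd : DifferentiableOn ℂ (fun z => 1 - g z) (ball 0 1) := hgd.const_sub 1
  have ag : ∀ᶠ z in 𝓝 (0 : ℂ), AnalyticAt ℂ g z := hga.eventually_analyticAt
  have k1 : deriv (fun z => 1 - g z) =ᶠ[𝓝 0] fun z => - deriv g z := by
    filter_upwards with z
    simp [deriv_const_sub]
  have k2 : deriv (deriv (fun z => 1 - g z)) 0 = - deriv (deriv g) 0 := by
    rw [k1.deriv_eq]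
    simp
  have main := DB2.pos_coef (fun z => 1 - g z) hdd hre (mm c b) (4 * c * b) (b ^ 2)
    (trig_pos c b hb hc)
  rw [k1.eq_of_nhds, k2, ← e1] at main
  simp only [sub_re, one_re, ofReal_re, neg_re] at main
  -- imaginary part of g'(0)
  have rot : ∀ w : ℂ, ‖w‖ = 1 → MapsTo (fun z => w * z) (ball 0 1) (ball 0 1) := by
    intro w hw z hz
    simp only [mem_ball, dist_zero_right, norm_mul, hw, one_mul] at hz ⊢
    exact hz
  have rd : ∀ w : ℂ, ‖w‖ = 1 → DifferentiableOn ℂ (fun z => 1 - g (w * z)) (ball 0 1) := by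
    intro w hw
    apply DifferentiableOn.const_sub
    exact hgd.comp (by fun_prop) (rot w hw)
  have rp : ∀ w : ℂ, ‖w‖ = 1 → ∀ z ∈ ball (0 : ℂ) 1, 0 ≤ ((fun z => 1 - g (w * z)) z).re := by
    intro w hw z hz
    exact hre (w * z) (rot w hw hz)
  have tp : ∀ θ : ℝ, 0 ≤ 1 + 2 * (1 / 2) * Real.cos θ + 2 * 0 * Real.cos (2 * θ) := by
    intro θ
    have := Real.neg_one_le_cos θ
    linarith
  have im1 := DB2.pos_coef (fun z => 1 - g (I * z)) (rd I (by simp)) (rp I (by simp)) 1 (1 / 2) 0 tp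
  have im2 := DB2.pos_coef (fun z => 1 - g (-I * z)) (rd (-I) (by simp)) (rp (-I) (by simp))
    1 (1 / 2) 0 tp
  · have dI : ∀ w : ℂ, deriv (fun z => 1 - g (w * z)) 0 = - (w * deriv g 0) := by
      intro w
      have h2 : HasDerivAt g (deriv g 0) (w * 0) := by
        rw [mul_zero]; exact hga.differentiableAt.hasDerivAt
      have h3 : HasDerivAt (fun z => w * z) w 0 := by
        simpa using (hasDerivAt_id (0 : ℂ)).const_mul w
      have h4 := (HasDerivAt.comp (0 : ℂ) h2 h3).const_sub 1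
      have h5 := h4.deriv
      have h6 : (fun x => 1 - (g ∘ fun z => w * z) x) = fun z => 1 - g (w * z) := rfl
      rw [h6] at h5
      rw [h5]; ring
    rw [dI] at im1 im2
    simp only [mul_zero, ← e1, sub_re, one_re, ofReal_re, neg_re, mul_re, I_re, I_im, neg_im,
      zero_mul, one_mul, zero_div, add_zero] at im1 im2
    have i3 : |(deriv g 0).im| ≤ 2 * (1 - τ) := by
      rw [abs_le]; constructor <;> linarith
    have i4 : (deriv g 0).im ^ 2 ≤ 4 * (1 - τ) ^ 2 := by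
      have := sq_le_sq' (by linarith [neg_abs_le (deriv g 0).im]) ((le_abs_self _).trans i3)
      nlinarith
    have v1 : (al β).re = (deriv g 0).re / τ := by
      unfold al
      rw [e2, h1]
      have : 2 * deriv g 0 / (2 * (τ : ℂ)) = deriv g 0 / τ := by
        have : (τ : ℂ) ≠ 0 := by exact_mod_cast hτ.ne'
        field_simp
      rw [this, div_ofReal_re]
    have v2 : (om β).re = (deriv (deriv g) 0).re / 2 / τ
        - ((deriv g 0).re ^ 2 - (deriv g 0).im ^ 2) / τ ^ 2 := by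
      unfold om al
      rw [e2, e3, h1]
      have w1 : (τ : ℂ) ≠ 0 := by exact_mod_cast hτ.ne'
      have : 3 * deriv (deriv g) 0 / (6 * (τ : ℂ)) - (2 * deriv g 0 / (2 * (τ : ℂ))) ^ 2 =
          deriv (deriv g) 0 / ((2 * τ : ℝ) : ℂ) - (deriv g 0) ^ 2 / ((τ ^ 2 : ℝ) : ℂ) := by
        push_cast
        field_simp
        ring
      rw [this, sub_re, div_ofReal_re, div_ofReal_re, sq, mul_re]
      field_simp
    rw [v1, v2]
    have hτ2 : 0 < τ ^ 2 := by positivity
    have fin : b ^ 2 * ((deriv (deriv g) 0).re / 2 / τ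
        - ((deriv g 0).re ^ 2 - (deriv g 0).im ^ 2) / τ ^ 2) + 4 * c * b * ((deriv g 0).re / τ)
        = (b ^ 2 * (deriv (deriv g) 0).re / 2 + 4 * c * b * (deriv g 0).re) / τ
          - b ^ 2 * (deriv g 0).re ^ 2 / τ ^ 2 + b ^ 2 * (deriv g 0).im ^ 2 / τ ^ 2 := by
      field_simp
      ring
    rw [fin]
    have q1 : (b ^ 2 * (deriv (deriv g) 0).re / 2 + 4 * c * b * (deriv g 0).re) / τ ≤
        mm c b * ((1 - τ) / τ) := by
      rw [← mul_div_assoc]
      apply div_le_div_of_nonneg_right _ hτ.le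
      linarith
    have q2 : 0 ≤ b ^ 2 * (deriv g 0).re ^ 2 / τ ^ 2 := by positivity
    have q3 : b ^ 2 * (deriv g 0).im ^ 2 / τ ^ 2 ≤ 4 * b ^ 2 * ((1 - τ) / τ) ^ 2 := by
      rw [div_pow, ← mul_div_assoc]
      apply div_le_div_of_nonneg_right _ hτ2.le
      nlinarith [sq_nonneg b]
    linarith

end Pool.Agent.S02832.DB3

namespace Pool.Agent.S02832.DB4

open Complex Metric Set Filter Topology ComplexConjugate

/-- normalised (up to the argument of the derivative) univalent self-maps of the disc -/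
structure Uni (f : ℂ → ℂ) : Prop where
  diff : DifferentiableOn ℂ f (ball 0 1)
  inj : InjOn f (ball 0 1)
  maps : MapsTo f (ball 0 1) (ball 0 1)
  zero : f 0 = 0

/-- the Blaschke factor -/
noncomputable def T (a w : ℂ) : ℂ := (w - a) / (1 - conj a * w)

theorem den_ne {a w : ℂ} (ha : ‖a‖ < 1) (hw : ‖w‖ < 1) : 1 - conj a * w ≠ 0 := by
  intro h
  have h1 : conj a * w = 1 := by linear_combination -h
  have h2 : ‖conj a * w‖ = 1 := by rw [h1, norm_one]
  rw [norm_mul, RCLike.norm_conj] at h2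
  nlinarith [norm_nonneg a, norm_nonneg w]

theorem T_maps {a w : ℂ} (ha : ‖a‖ < 1) (hw : ‖w‖ < 1) : ‖T a w‖ < 1 := by
  unfold T
  rw [norm_div, div_lt_one (norm_pos_iff.mpr (den_ne ha hw))]
  have h : ‖w - a‖ ^ 2 < ‖1 - conj a * w‖ ^ 2 := by
    rw [← normSq_eq_norm_sq, ← normSq_eq_norm_sq]
    have e : normSq (1 - conj a * w) - normSq (w - a) = (1 - normSq a) * (1 - normSq w) := by
      simp only [normSq_apply, sub_re, sub_im, mul_re, mul_im, conj_re, conj_im, one_re, one_im]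
      ring
    have h1 : normSq a < 1 := by
      rw [normSq_eq_norm_sq]; nlinarith [norm_nonneg a]
    have h2 : normSq w < 1 := by
      rw [normSq_eq_norm_sq]; nlinarith [norm_nonneg w]
    nlinarith [mul_pos (sub_pos.mpr h1) (sub_pos.mpr h2)]
  exact lt_of_pow_lt_pow_left₀ 2 (norm_nonneg _) h

theorem hasDerivAt_T (a w : ℂ) (h : 1 - conj a * w ≠ 0) :
    HasDerivAt (T a) ((1 - conj a * a) / (1 - conj a * w) ^ 2) w := by
  have h1 : HasDerivAt (fun w : ℂ => w - a) 1 w := (hasDerivAt_id w).sub_const a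
  have h2 : HasDerivAt (fun w : ℂ => 1 - conj a * w) (-(conj a)) w := by
    have := ((hasDerivAt_id w).const_mul (conj a)).const_sub 1
    simpa using this
  have h3 := h1.div h2 h
  have e : (1 * (1 - conj a * w) - (w - a) * -(conj a)) / (1 - conj a * w) ^ 2 =
      (1 - conj a * a) / (1 - conj a * w) ^ 2 := by
    congr 1; ring
  rw [e] at h3
  exact h3

theorem T_diff {a : ℂ} (ha : ‖a‖ < 1) : DifferentiableOn ℂ (T a) (ball 0 1) := by
  intro w hw
  have hw' : ‖w‖ < 1 := by simpa using hw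
  exact (hasDerivAt_T a w (den_ne ha hw')).differentiableAt.differentiableWithinAt

theorem T_inv {a w : ℂ} (ha : ‖a‖ < 1) (hw : ‖w‖ < 1) : T (-a) (T a w) = w := by
  have h1 := den_ne ha hw
  have h2 : ‖T a w‖ < 1 := T_maps ha hw
  have h3 := den_ne (a := -a) (by rwa [norm_neg]) h2
  unfold T at *
  rw [map_neg] at h3 ⊢
  rw [div_eq_iff h3]
  have hq : (w - a) / (1 - conj a * w) * (1 - conj a * w) = w - a := div_mul_cancel₀ _ h1
  linear_combination hq

theorem exists_sqrt (F : ℂ → ℂ) (hd : DifferentiableOn ℂ F (ball 0 1))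
    (hne : ∀ z ∈ ball (0 : ℂ) 1, F z ≠ 0) :
    ∃ S : ℂ → ℂ, DifferentiableOn ℂ S (ball 0 1) ∧ ∀ z ∈ ball (0 : ℂ) 1, S z ^ 2 = F z := by
  have hd' : DifferentiableOn ℂ (fun z => deriv F z / F z) (ball 0 1) :=
    (hd.deriv isOpen_ball).div hd hne
  obtain ⟨G, hG0, hG⟩ := hd'.isExactOn_ball.with_val_at 0 (log (F 0))
  have key : ∀ z ∈ ball (0 : ℂ) 1, F z * exp (-G z) = 1 := by
    intro z hz
    have hconst := (convex_ball (0 : ℂ) 1).isPreconnected
    have := IsOpen.is_const_of_deriv_eq_zero isOpen_ball hconst (f := fun z => F z * exp (-G z))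
      ?_ ?_ hz (mem_ball_self one_pos)
    · rw [this]
      simp only [hG0]
      rw [exp_neg, exp_log (hne 0 (mem_ball_self one_pos)),
        mul_inv_cancel₀ (hne 0 (mem_ball_self one_pos))]
    · apply hd.mul
      intro z hz
      exact ((hG z hz).differentiableAt.neg.cexp).differentiableWithinAt
    · intro z hz
      have h1 : HasDerivAt F (deriv F z) z := (hd.differentiableAt (isOpen_ball.mem_nhds hz)).hasDerivAt
      have h2 : HasDerivAt (fun z => exp (-G z)) (exp (-G z) * -(deriv F z / F z)) z :=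
        (hG z hz).neg.cexp
      have h3 := (h1.mul h2).deriv
      have e : (F * fun z => exp (-G z)) = fun z => F z * exp (-G z) := rfl
      rw [e] at h3
      rw [h3]
      have := hne z hz
      simp only [Pi.zero_apply]
      field_simp
      ring
  refine ⟨fun z => exp (G z / 2), ?_, ?_⟩
  · intro z hz
    exact (((hG z hz).differentiableAt.div_const 2).cexp).differentiableWithinAt
  · intro z hz
    have h1 := key z hz
    have h2 : exp (G z / 2) ^ 2 = exp (G z) := by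
      rw [← exp_nat_mul]; congr 1; push_cast; ring
    rw [h2]
    rw [exp_neg] at h1
    have := exp_ne_zero (G z)
    field_simp at h1
    exact h1.symm

/-- the Koebe transform -/
theorem koebe (f : ℂ → ℂ) (hf : Uni f) (w0 : ℂ) (h0 : w0 ≠ 0) (h1 : ‖w0‖ < 1)
    (homit : w0 ∉ f '' ball 0 1) :
    ∃ β h : ℂ → ℂ, DifferentiableOn ℂ β (ball 0 1) ∧ MapsTo β (ball 0 1) (ball 0 1) ∧ β 0 = 0 ∧
      deriv β 0 = ((2 * Real.sqrt ‖w0‖ / (1 + ‖w0‖) : ℝ) : ℂ) ∧ Uni h ∧
      ∀ z ∈ ball (0 : ℂ) 1, f z = β (h z) := by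
  have hfn : ∀ z ∈ ball (0 : ℂ) 1, ‖f z‖ < 1 := by
    intro z hz; simpa using hf.maps hz
  have hne : ∀ z ∈ ball (0 : ℂ) 1, T w0 (f z) ≠ 0 := by
    intro z hz h
    unfold T at h
    rw [div_eq_zero_iff] at h
    rcases h with h | h
    · exact homit ⟨z, hz, by linear_combination h⟩
    · exact den_ne h1 (hfn z hz) h
  have hd : DifferentiableOn ℂ (fun z => T w0 (f z)) (ball 0 1) :=
    (T_diff h1).comp hf.diff hf.maps
  obtain ⟨S, hS, hS2⟩ := exists_sqrt _ hd hne
  have hSn : ∀ z ∈ ball (0 : ℂ) 1, ‖S z‖ < 1 := by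
    intro z hz
    have h2 : ‖S z‖ ^ 2 < 1 := by
      rw [← norm_pow, hS2 z hz]
      exact T_maps h1 (hfn z hz)
    nlinarith [norm_nonneg (S z)]
  set a := S 0 with ha
  have hz0 : (0 : ℂ) ∈ ball (0 : ℂ) 1 := mem_ball_self one_pos
  have ha2 : a ^ 2 = -w0 := by
    rw [ha, hS2 0 hz0, hf.zero]; unfold T; simp
  have han : ‖a‖ < 1 := hSn 0 hz0
  have hasq : ‖a‖ ^ 2 = ‖w0‖ := by rw [← norm_pow, ha2, norm_neg]
  have har : Real.sqrt ‖w0‖ = ‖a‖ := by
    rw [← hasq, Real.sqrt_sq (norm_nonneg _)]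
  have ha0 : a ≠ 0 := by
    rintro h
    rw [h] at ha2
    apply h0
    simpa using ha2.symm
  have hanpos : 0 < ‖a‖ := norm_pos_iff.mpr ha0
  set u : ℂ := a / ‖a‖ with hu
  have hun : ‖u‖ = 1 := by
    rw [hu, norm_div, norm_real, norm_norm, div_self hanpos.ne']
  have huu : conj u * u = 1 := by
    rw [mul_comm, mul_conj, normSq_eq_norm_sq, hun]; simp
  have hnega : ‖-a‖ < 1 := by rwa [norm_neg]
  have hnegw : ‖-w0‖ < 1 := by rwa [norm_neg]
  have hcun : ‖conj u‖ = 1 := by rw [RCLike.norm_conj, hun]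
  have hin : ∀ w : ℂ, ‖w‖ < 1 → ‖(T (-a) (conj u * w)) ^ 2‖ < 1 := by
    intro w hw
    have : ‖T (-a) (conj u * w)‖ < 1 := by
      apply T_maps hnega
      rw [norm_mul, hcun, one_mul]; exact hw
    rw [norm_pow]
    nlinarith [norm_nonneg (T (-a) (conj u * w))]
  refine ⟨fun w => T (-w0) ((T (-a) (conj u * w)) ^ 2), fun z => u * T a (S z), ?_, ?_, ?_, ?_, ?_, ?_⟩
  · apply (T_diff hnegw).comp (t := ball 0 1)
    · apply DifferentiableOn.pow
      apply (T_diff hnega).comp (t := ball 0 1)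
      · fun_prop
      · intro w hw
        simp only [mem_ball, dist_zero_right, norm_mul, hcun, one_mul] at hw ⊢
        exact hw
    · intro w hw
      simp only [mem_ball, dist_zero_right] at hw ⊢
      exact hin w hw
  · intro w hw
    simp only [mem_ball, dist_zero_right] at hw ⊢
    exact T_maps hnegw (hin w hw)
  · unfold T; simp [ha2]
  · -- derivative of β at 0
    have e0 : T (-a) (conj u * 0) = a := by unfold T; simp
    have d1 : HasDerivAt (fun w : ℂ => conj u * w) (conj u) 0 := by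
      simpa using (hasDerivAt_id (0 : ℂ)).const_mul (conj u)
    have d2 : HasDerivAt (T (-a)) ((1 - conj (-a) * (-a)) / (1 - conj (-a) * (conj u * 0)) ^ 2)
      (conj u * 0) := hasDerivAt_T _ _ (by simp)
    have d3 := (HasDerivAt.comp (0 : ℂ) d2 d1).pow 2
    have hwd : (1 : ℂ) - conj (-w0) * (a ^ 2) ≠ 0 := by
      rw [ha2]
      exact den_ne hnegw hnegw
    have d4 : HasDerivAt (T (-w0)) ((1 - conj (-w0) * (-w0)) / (1 - conj (-w0) * (a ^ 2)) ^ 2)
      (((T (-a) ∘ fun w => conj u * w) ^ 2) 0) := by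
      have : ((T (-a) ∘ fun w => conj u * w) ^ 2) 0 = a ^ 2 := by
        simp only [Pi.pow_apply, Function.comp_apply, e0]
      rw [this]
      exact hasDerivAt_T _ _ hwd
    have d5 := HasDerivAt.comp (0 : ℂ) d4 d3
    have d6 := d5.deriv
    have e : (T (-w0) ∘ ((T (-a) ∘ fun w => conj u * w) ^ 2)) =
      fun w => T (-w0) ((T (-a) (conj u * w)) ^ 2) := rfl
    rw [e] at d6
    rw [d6]
    simp only [Function.comp_apply, e0, har]
    have r1 : conj (-w0) * (-w0) = ((‖w0‖ ^ 2 : ℝ) : ℂ) := by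
      rw [map_neg, neg_mul_neg, mul_comm, mul_conj, normSq_eq_norm_sq]
    have r2 : conj (-a) * (-a) = ((‖w0‖ : ℝ) : ℂ) := by
      rw [map_neg, neg_mul_neg, mul_comm, mul_conj, normSq_eq_norm_sq, hasq]
    rw [ha2, r1, r2]
    have r3 : a * conj u = ((‖a‖ : ℝ) : ℂ) := by
      rw [hu, map_div₀, conj_ofReal, ← mul_div_assoc, mul_conj, normSq_eq_norm_sq]
      push_cast
      field_simp
    have w1 : ((1 : ℝ) - ‖w0‖ ^ 2) ≠ 0 := by nlinarith [norm_nonneg w0]
    have w2 : ((1 : ℝ) + ‖w0‖) ≠ 0 := by nlinarith [norm_nonneg w0]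
    have w1' : (1 : ℂ) - ((‖w0‖ ^ 2 : ℝ) : ℂ) ≠ 0 := by exact_mod_cast w1
    have w2' : (1 : ℂ) + (‖w0‖ : ℂ) ≠ 0 := by exact_mod_cast w2
    have fin : (1 - ((‖w0‖ ^ 2 : ℝ) : ℂ)) / (1 - ((‖w0‖ ^ 2 : ℝ) : ℂ)) ^ 2 *
        (((2 : ℕ) : ℂ) * a ^ (2 - 1) * ((1 - ((‖w0‖ : ℝ) : ℂ)) / (1 - conj (-a) * (conj u * 0)) ^ 2 * conj u))
        = (1 - ((‖w0‖ : ℝ) : ℂ)) / (1 - ((‖w0‖ ^ 2 : ℝ) : ℂ)) * (2 * (a * conj u)) := by
      simp
      field_simp
    rw [fin, r3]
    push_cast
    have w3 : (1 : ℂ) - (‖w0‖ : ℂ) ^ 2 = (1 - ‖w0‖) * (1 + ‖w0‖) := by ring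
    have w4 : (1 : ℂ) - (‖w0‖ : ℂ) ≠ 0 := by
      intro h
      apply w1'
      push_cast
      rw [w3, h, zero_mul]
    rw [w3]
    field_simp
  · refine ⟨?_, ?_, ?_, ?_⟩
    · apply DifferentiableOn.const_mul
      apply (T_diff han).comp hS
      intro z hz
      simpa using hSn z hz
    · intro z hz z' hz' heq
      apply hf.inj hz hz'
      simp only at heq
      have hu0 : u ≠ 0 := by
        intro h; rw [h] at hun; simp at hun
      have h2 : T a (S z) = T a (S z') := mul_left_cancel₀ hu0 heq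
      have h3 : S z = S z' := by
        rw [← T_inv han (hSn z hz), h2, T_inv han (hSn z' hz')]
      have h4 : T w0 (f z) = T w0 (f z') := by rw [← hS2 z hz, h3, hS2 z' hz']
      rw [← T_inv h1 (hfn z hz), h4, T_inv h1 (hfn z' hz')]
    · intro z hz
      simp only [mem_ball, dist_zero_right, norm_mul, hun, one_mul]
      exact T_maps han (hSn z hz)
    · show u * T a (S 0) = 0
      rw [← ha]; unfold T; simp
  · intro z hz
    show f z = T (-w0) ((T (-a) (conj u * (u * T a (S z)))) ^ 2)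
    rw [← mul_assoc, huu, one_mul, T_inv han (hSn z hz), hS2 z hz, T_inv h1 (hfn z hz)]

/-- if the image contains the circle of radius `ρ` then the derivative at `0` is at least `ρ` -/
theorem near (f : ℂ → ℂ) (hf : Uni f) (hf1 : deriv f 0 ≠ 0) (ρ : ℝ) (hρ : 0 < ρ)
    (hs : sphere (0 : ℂ) ρ ⊆ f '' ball 0 1) : ρ ≤ ‖deriv f 0‖ := by
  have han : AnalyticOnNhd ℂ f (ball 0 1) := hf.diff.analyticOnNhd isOpen_ball
  have hopen : ∀ s ⊆ ball (0 : ℂ) 1, IsOpen s → IsOpen (f '' s) := by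
    rcases han.is_constant_or_isOpen (convex_ball (0 : ℂ) 1).isPreconnected with ⟨w, hw⟩ | h
    · exfalso
      have h1 : (1 / 2 : ℂ) ∈ ball (0 : ℂ) 1 := by simp; norm_num
      have h2 : (0 : ℂ) ∈ ball (0 : ℂ) 1 := mem_ball_self one_pos
      have := hf.inj h1 h2 (by rw [hw _ h1, hw _ h2])
      norm_num at this
    · exact h
  -- compactness
  obtain ⟨n, hn⟩ := (isCompact_sphere (0 : ℂ) ρ).elim_directed_cover
    (fun n : ℕ => f '' ball 0 (1 - 1 / ((n : ℝ) + 2)))
    (fun n => hopen _ (ball_subset_ball (by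
      have : (0 : ℝ) ≤ 1 / ((n : ℝ) + 2) := by positivity
      linarith)) isOpen_ball)
    (by
      intro w hw
      obtain ⟨z, hz, rfl⟩ := hs hw
      have hz' : ‖z‖ < 1 := by simpa using hz
      obtain ⟨n, hn⟩ := exists_nat_gt (1 / (1 - ‖z‖))
      rw [mem_iUnion]
      refine ⟨n, z, ?_, rfl⟩
      simp only [mem_ball, dist_zero_right]
      have h1 : 0 < 1 - ‖z‖ := by linarith
      rw [div_lt_iff₀ h1] at hn
      have h2 : 1 / ((n : ℝ) + 2) < 1 - ‖z‖ := by
        rw [div_lt_iff₀ (by positivity)]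
        nlinarith
      linarith)
    (by
      apply directed_of_isDirected_le
      intro m n hmn
      apply image_mono
      apply ball_subset_ball
      have : (1 : ℝ) / ((n : ℝ) + 2) ≤ 1 / ((m : ℝ) + 2) := by
        apply one_div_le_one_div_of_le (by positivity)
        have : (m : ℝ) ≤ n := by exact_mod_cast hmn
        linarith
      linarith)
  set r0 : ℝ := 1 - 1 / ((n : ℝ) + 2) with hr0
  have hr0pos : 0 < r0 := by
    have : (1 : ℝ) / ((n : ℝ) + 2) ≤ 1 / 2 := by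
      apply one_div_le_one_div_of_le (by norm_num)
      have : (0 : ℝ) ≤ n := by positivity
      linarith
    linarith
  have hr01 : r0 < 1 := by
    have : (0 : ℝ) < 1 / ((n : ℝ) + 2) := by positivity
    linarith
  -- the annulus
  set A : Set ℂ := {z | r0 ≤ ‖z‖ ∧ ‖z‖ < 1} with hA
  have hAc : IsPreconnected A := by
    have : A = (fun p : ℝ × ℝ => (p.1 : ℂ) * exp (p.2 * I)) '' (Ico r0 1 ×ˢ univ) := by
      ext z
      constructor
      · rintro ⟨h1, h2⟩
        exact ⟨(‖z‖, arg z), ⟨⟨h1, h2⟩, mem_univ _⟩, norm_mul_exp_arg_mul_I z⟩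
      · rintro ⟨⟨r, θ⟩, ⟨⟨h1, h2⟩, -⟩, rfl⟩
        have : ‖(r : ℂ) * exp (θ * I)‖ = r := by
          rw [norm_mul, norm_exp_ofReal_mul_I, mul_one, norm_real, Real.norm_of_nonneg (by linarith)]
        simp only [hA, mem_ofPred_eq, this]
        exact ⟨h1, h2⟩
    rw [this]
    apply IsPreconnected.image
    · exact (isPreconnected_Ico).prod isPreconnected_univ
    · fun_prop
  have hAsub : A ⊆ ball 0 1 := by
    rintro z ⟨-, h⟩
    simpa using h
  have hAne : ∀ z ∈ A, ‖f z‖ ≠ ρ := by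
    intro z hz h
    obtain ⟨w, hw, hwz⟩ := hn (show f z ∈ sphere (0 : ℂ) ρ by simpa using h)
    have hw' : w ∈ ball (0 : ℂ) 1 := ball_subset_ball hr01.le hw
    have := hf.inj hw' (hAsub hz) hwz
    subst this
    have h1 := hz.1
    simp only [mem_ball, dist_zero_right] at hw
    linarith
  have himg : IsPreconnected ((fun z => ‖f z‖) '' A) := by
    apply hAc.image
    exact (hf.diff.continuousOn.mono hAsub).norm
  have hord := himg.ordConnected
  -- the circle of radius `r0`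
  have hfr : frontier (ball (0 : ℂ) r0) = sphere 0 r0 := frontier_ball 0 hr0pos.ne'
  have hsA : sphere (0 : ℂ) r0 ⊆ A := by
    intro z hz
    have : ‖z‖ = r0 := by simpa using hz
    exact ⟨this.ge, by rw [this]; exact hr01⟩
  have hcl : closedBall (0 : ℂ) r0 ⊆ ball 0 1 := closedBall_subset_ball hr01
  by_cases hex : ∃ z ∈ A, ‖f z‖ < ρ
  · exfalso
    obtain ⟨z1, hz1, hlt⟩ := hex
    have hall : ∀ z ∈ A, ‖f z‖ < ρ := by
      intro z hz
      by_contra hcon
      push Not at hcon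
      have := hord.out ⟨z1, hz1, rfl⟩ ⟨z, hz, rfl⟩ (show ρ ∈ Icc ‖f z1‖ ‖f z‖ from ⟨hlt.le, hcon⟩)
      obtain ⟨w, hw, hwρ⟩ := this
      exact hAne w hw hwρ
    have hdc : DiffContOnCl ℂ f (ball 0 r0) := by
      apply DifferentiableOn.diffContOnCl
      rw [closure_ball _ hr0pos.ne']
      exact hf.diff.mono hcl
    obtain ⟨z2, hz2, hmax⟩ := exists_mem_frontier_isMaxOn_norm (f := f) isBounded_ball
      ⟨0, mem_ball_self hr0pos⟩ hdc
    rw [hfr] at hz2
    obtain ⟨w, hw, hwρ⟩ := hn (show ((ρ : ℝ) : ℂ) ∈ sphere (0 : ℂ) ρ by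
      simp [abs_of_pos hρ])
    have h1 : ‖f w‖ ≤ ‖f z2‖ := hmax (subset_closure hw)
    rw [hwρ, norm_real, Real.norm_of_nonneg hρ.le] at h1
    linarith [hall z2 (hsA hz2)]
  · push Not at hex
    set g := dslope f 0 with hg
    have hgd : DifferentiableOn ℂ g (ball 0 1) :=
      (differentiableOn_dslope (ball_mem_nhds 0 one_pos)).mpr hf.diff
    have hg0 : g 0 = deriv f 0 := dslope_same f 0
    have hgz : ∀ z, f z = z * g z := by
      intro z
      have := sub_smul_dslope f 0 z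
      rw [hf.zero] at this
      simpa using this.symm
    have hgne : ∀ z ∈ ball (0 : ℂ) 1, g z ≠ 0 := by
      intro z hz h
      rcases eq_or_ne z 0 with rfl | hz0
      · rw [hg0] at h; exact hf1 h
      · apply hz0
        apply hf.inj hz (mem_ball_self one_pos)
        rw [hgz, h, mul_zero, hf.zero]
    have hqd : DifferentiableOn ℂ (fun z => (g z)⁻¹) (ball 0 1) := hgd.inv hgne
    have hdc : DiffContOnCl ℂ (fun z => (g z)⁻¹) (ball 0 r0) := by
      apply DifferentiableOn.diffContOnCl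
      rw [closure_ball _ hr0pos.ne']
      exact hqd.mono hcl
    have hb := norm_le_of_forall_mem_frontier_norm_le (C := 1 / ρ) isBounded_ball hdc ?_
      (subset_closure (mem_ball_self hr0pos))
    · simp only [hg0, norm_inv] at hb
      have h1 : 0 < ‖deriv f 0‖ := norm_pos_iff.mpr hf1
      rw [← one_div] at hb
      exact (one_div_le_one_div h1 hρ).mp hb
    · intro z hz
      rw [hfr] at hz
      have hzA := hsA hz
      have h1 := hex z hzA
      rw [hgz z, norm_mul] at h1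
      have h2 : ‖z‖ < 1 := hzA.2
      simp only [norm_inv]
      rw [← one_div]
      apply one_div_le_one_div_of_le hρ
      nlinarith [norm_nonneg (g z)]

end Pool.Agent.S02832.DB4

namespace Pool.Agent.S02832.DB5

open Complex Metric Set Filter Topology
open Pool.Agent.S02832.DB3 Pool.Agent.S02832.DB4

theorem mm_cont (c : ℝ) : Continuous (fun t : ℝ => mm c (Real.exp (-t))) := by
  unfold mm
  fun_prop

theorem mm_nonneg (c b : ℝ) (hc : 0 ≤ c) (hb : 0 ≤ b) : 0 ≤ mm c b := by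
  unfold mm
  rcases le_or_gt (c - b) 0 with h | h
  · rw [max_eq_right h]; nlinarith [sq_nonneg b, sq_nonneg c]
  · rw [max_eq_left h.le]; nlinarith [sq_nonneg b, mul_nonneg hb hc]

theorem mm_le (c b : ℝ) (hc : 0 ≤ c) (hc1 : c ≤ 1) (hb : 0 ≤ b) (hb1 : b ≤ 1) : mm c b ≤ 6 := by
  unfold mm
  nlinarith [sq_nonneg (max (c - b) 0), mul_nonneg hc (sub_nonneg.mpr hc1),
    mul_nonneg hb (sub_nonneg.mpr hb1)]

theorem mm_lip (c b b' : ℝ) (hc : 0 ≤ c) (hc1 : c ≤ 1) (hb' : 0 ≤ b') (hbb : b' ≤ b)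
    (hb1 : b ≤ 1) : mm c b - 12 * (b - b') ≤ mm c b' := by
  unfold mm
  have h1 : max (c - b') 0 ≤ max (c - b) 0 + (b - b') := by
    apply max_le
    · linarith [le_max_left (c - b) 0]
    · linarith [le_max_right (c - b) 0]
  have h2 : max (c - b) 0 ≤ max (c - b') 0 := max_le_max (by linarith) le_rfl
  have h3 : max (c - b') 0 ≤ 1 := max_le (by linarith) (by norm_num)
  have h4 : 0 ≤ max (c - b) 0 := le_max_right _ _
  generalize max (c - b') 0 = x at *
  generalize max (c - b) 0 = y at *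
  have h5 : x ^ 2 - y ^ 2 ≤ 2 * (b - b') := by
    have : x ^ 2 - y ^ 2 = (x - y) * (x + y) := by ring
    rw [this]
    calc (x - y) * (x + y) ≤ (b - b') * 2 := by
          apply mul_le_mul (by linarith) (by linarith) (by linarith) (by linarith)
      _ = _ := by ring
  nlinarith

/-- the potential -/
noncomputable def U (c s : ℝ) : ℝ := ∫ t in (0 : ℝ)..s, mm c (Real.exp (-t))

theorem U_nonneg (c s : ℝ) (hc : 0 ≤ c) (hs : 0 ≤ s) : 0 ≤ U c s := by
  unfold U
  apply intervalIntegral.integral_nonneg hs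
  intro t _
  exact mm_nonneg c _ hc (Real.exp_pos _).le

theorem U_step (c s e : ℝ) (hc : 0 ≤ c) (hc1 : c ≤ 1) (hs : 0 ≤ s) (he : 0 ≤ e) :
    U c s + mm c (Real.exp (-s)) * e - 12 * e ^ 2 ≤ U c (s + e) := by
  unfold U
  have hi : ∀ a b : ℝ, IntervalIntegrable (fun t : ℝ => mm c (Real.exp (-t)))
      MeasureTheory.volume a b := fun a b => (mm_cont c).intervalIntegrable a b
  rw [← intervalIntegral.integral_add_adjacent_intervals (hi 0 s) (hi s (s + e))]
  have h1 : ∫ _ in s..(s + e), (mm c (Real.exp (-s)) - 12 * e) ≤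
      ∫ t in s..(s + e), mm c (Real.exp (-t)) := by
    apply intervalIntegral.integral_mono_on (by linarith) (by simp) (hi _ _)
    intro t ht
    have h2 : Real.exp (-t) ≤ Real.exp (-s) := Real.exp_le_exp.mpr (by linarith [ht.1])
    have h3 : Real.exp (-s) ≤ 1 := Real.exp_le_one_iff.mpr (by linarith)
    have h4 : Real.exp (-s) - Real.exp (-t) ≤ e := by
      have h5 : Real.exp (-t) = Real.exp (-s) * Real.exp (-(t - s)) := by
        rw [← Real.exp_add]; congr 1; ring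
      have h6 := Real.add_one_le_exp (-(t - s))
      have h7 : Real.exp (-s) - Real.exp (-t) = Real.exp (-s) * (1 - Real.exp (-(t - s))) := by
        rw [h5]; ring
      rw [h7]
      have h8 : 1 - Real.exp (-(t - s)) ≤ e := by linarith [ht.2]
      calc Real.exp (-s) * (1 - Real.exp (-(t - s))) ≤ 1 * e := by
            apply mul_le_mul h3 h8 _ (by norm_num)
            have : Real.exp (-(t - s)) ≤ 1 := Real.exp_le_one_iff.mpr (by linarith [ht.1])
            linarith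
        _ = e := one_mul e
    have h5 := mm_lip c _ _ hc hc1 (Real.exp_pos (-t)).le h2 h3
    linarith
  rw [intervalIntegral.integral_const] at h1
  simp only [add_sub_cancel_left, smul_eq_mul] at h1
  linarith

/-- the functional -/
noncomputable def V (c : ℝ) (f : ℂ → ℂ) : ℝ := (om f).re + 4 * c * (al f).re

theorem V_near (c : ℝ) (hc : 0 ≤ c) (hc1 : c ≤ 1) (f : ℂ → ℂ) (hf : Uni f) (τ ρ : ℝ)
    (hρ : 1 / 2 ≤ ρ) (hρ1 : ρ ≤ 1) (hτ : ρ ≤ τ) (hτ1 : τ ≤ 1)
    (h1 : deriv f 0 = τ) : V c f ≤ 20 * (1 - ρ) := by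
  have := step_bound f hf.diff hf.maps hf.zero τ (by linarith) h1 c 1 (by norm_num) hc
  have e : V c f = 1 ^ 2 * (om f).re + 4 * c * 1 * (al f).re := by unfold V; ring
  rw [e]
  refine this.trans ?_
  have hτ0 : 0 < τ := by linarith
  have q1 : (1 - τ) / τ ≤ 2 * (1 - ρ) := by
    rw [div_le_iff₀ hτ0]
    nlinarith
  have q0 : 0 ≤ (1 - τ) / τ := div_nonneg (by linarith) hτ0.le
  have q2 := mm_le c 1 hc hc1 (by norm_num) (by norm_num)
  have q3 := mm_nonneg c 1 hc (by norm_num)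
  have q4 : mm c 1 * ((1 - τ) / τ) ≤ 6 * (2 * (1 - ρ)) := mul_le_mul q2 q1 q0 (by norm_num)
  have q5 : ((1 - τ) / τ) ^ 2 ≤ (2 * (1 - ρ)) ^ 2 := by gcongr
  nlinarith

theorem main_induction (c : ℝ) (hc : 0 ≤ c) (hc1 : c ≤ 1) (ρ : ℝ) (hρ : 1 / 2 ≤ ρ) (hρ1 : ρ < 1)
    (e : ℝ) (he0 : 0 ≤ e) (he1 : e ≤ 1) (he : Real.exp (-e) = 2 * Real.sqrt ρ / (1 + ρ)) (n : ℕ) :
    ∀ s : ℝ, 0 ≤ s → s ≤ n * e → ∀ f : ℂ → ℂ, Uni f → deriv f 0 = ((Real.exp (-s) : ℝ) : ℂ) →
      V c f ≤ U c s + n * (40 * e ^ 2) + 20 * (1 - ρ) := by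
  induction n with
  | zero =>
    intro s hs hs2 f hf hf1
    have : s = 0 := by
      simp at hs2; linarith
    subst this
    simp only [neg_zero, Real.exp_zero] at hf1
    have h1 := V_near c hc hc1 f hf 1 ρ hρ hρ1.le hρ1.le le_rfl hf1
    have h2 := U_nonneg c 0 hc le_rfl
    simp only [Nat.cast_zero, zero_mul, add_zero]
    linarith
  | succ n ih =>
    intro s hs hs2 f hf hf1
    have hfne : deriv f 0 ≠ 0 := by
      rw [hf1]; exact_mod_cast (Real.exp_pos _).ne'
    by_cases hcase : sphere (0 : ℂ) ρ ⊆ f '' ball 0 1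
    · have h1 := near f hf hfne ρ (by linarith) hcase
      rw [hf1, norm_real, Real.norm_of_nonneg (Real.exp_pos _).le] at h1
      have h2 := V_near c hc hc1 f hf (Real.exp (-s)) ρ hρ hρ1.le h1
        (Real.exp_le_one_iff.mpr (by linarith)) hf1
      have h3 := U_nonneg c s hc hs
      have h4 : 0 ≤ ((n + 1 : ℕ) : ℝ) * (40 * e ^ 2) := by positivity
      linarith
    · rw [not_subset] at hcase
      obtain ⟨w0, hw0, hw1⟩ := hcase
      have hw0n : ‖w0‖ = ρ := by simpa using hw0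
      have hw0ne : w0 ≠ 0 := by
        rw [← norm_pos_iff, hw0n]; linarith
      obtain ⟨β, h, hβd, hβm, hβ0, hβ1, hh, hfβ⟩ := koebe f hf w0 hw0ne (by rw [hw0n]; exact hρ1) hw1
      rw [hw0n, ← he] at hβ1
      have hz0 : ball (0 : ℂ) 1 ∈ 𝓝 (0 : ℂ) := ball_mem_nhds 0 one_pos
      have hha : AnalyticAt ℂ h 0 := hh.diff.analyticAt hz0
      have hβa : AnalyticAt ℂ β 0 := hβd.analyticAt hz0
      have hfe : f =ᶠ[𝓝 0] fun z => β (h z) := by
        filter_upwards [hz0] with z hz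
        exact hfβ z hz
      have hβne : deriv β 0 ≠ 0 := by
        rw [hβ1]; exact_mod_cast (Real.exp_pos _).ne'
      have hd1 := (comp_derivs β h hha hh.zero hβa f hfe).1
      have hhne : deriv h 0 ≠ 0 := by
        intro h0
        rw [h0, mul_zero] at hd1
        exact hfne hd1
      obtain ⟨-, hal, hom⟩ := comp_al β h hha hh.zero hβa f hfe hhne hβne
      have hh1 : deriv h 0 = ((Real.exp (-(s - e)) : ℝ) : ℂ) := by
        rw [hf1, hβ1] at hd1
        have h2 : Real.exp (-s) = Real.exp (-e) * Real.exp (-(s - e)) := by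
          rw [← Real.exp_add]; congr 1; ring
        rw [h2, ofReal_mul] at hd1
        have h3 : ((Real.exp (-e) : ℝ) : ℂ) ≠ 0 := by exact_mod_cast (Real.exp_pos _).ne'
        exact (mul_left_cancel₀ h3 hd1).symm
      have hse : 0 ≤ s - e := by
        have h2 := norm_deriv_le_one_of_mapsTo_ball hh.diff
          (by rw [hh.zero]; exact fun w hw => ball_subset_closedBall (hh.maps hw)) one_pos
        rw [hh1, norm_real, Real.norm_of_nonneg (Real.exp_pos _).le, Real.exp_le_one_iff] at h2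
        linarith
      have hIH := ih (s - e) hse (by push_cast at hs2; linarith) h hh hh1
      set b := Real.exp (-(s - e)) with hb
      have hb0 : 0 < b := Real.exp_pos _
      have hb1 : b ≤ 1 := Real.exp_le_one_iff.mpr (by linarith)
      have hst := step_bound β hβd hβm hβ0 (Real.exp (-e)) (Real.exp_pos _) hβ1 c b hb0.le hc
      have hV : V c f = V c h + (b ^ 2 * (om β).re + 4 * c * b * (al β).re) := by
        unfold V
        rw [hal, hom, hh1]
        have r1 : ((b : ℂ) ^ 2 * om β).re = b ^ 2 * (om β).re := by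
          rw [← ofReal_pow, re_ofReal_mul]
        have r2 : ((b : ℂ) * al β).re = b * (al β).re := re_ofReal_mul _ _
        rw [add_re, add_re, r1, r2]
        ring
      have hU := U_step c (s - e) e hc hc1 hse he0
      rw [sub_add_cancel, ← hb] at hU
      have hx : (1 - Real.exp (-e)) / Real.exp (-e) ≤ e + e ^ 2 := by
        rw [sub_div, div_self (Real.exp_pos _).ne', one_div, ← Real.exp_neg, neg_neg]
        have := Real.abs_exp_sub_one_sub_id_le (x := e) (by rw [abs_of_nonneg he0]; exact he1)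
        have := (abs_le.mp this).2
        linarith
      have hx0 : 0 ≤ (1 - Real.exp (-e)) / Real.exp (-e) := by
        apply div_nonneg _ (Real.exp_pos _).le
        have : Real.exp (-e) ≤ 1 := Real.exp_le_one_iff.mpr (by linarith)
        linarith
      have hx2 : (1 - Real.exp (-e)) / Real.exp (-e) ≤ 2 * e := by nlinarith
      have m1 := mm_le c b hc hc1 hb0.le hb1
      have m0 := mm_nonneg c b hc hb0.le
      have y1 : mm c b * ((1 - Real.exp (-e)) / Real.exp (-e)) ≤ mm c b * e + 6 * e ^ 2 := by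
        calc mm c b * ((1 - Real.exp (-e)) / Real.exp (-e)) ≤ mm c b * (e + e ^ 2) :=
              mul_le_mul_of_nonneg_left hx m0
          _ ≤ _ := by nlinarith [sq_nonneg e]
      have y2 : 4 * b ^ 2 * ((1 - Real.exp (-e)) / Real.exp (-e)) ^ 2 ≤ 16 * e ^ 2 := by
        have z1 : ((1 - Real.exp (-e)) / Real.exp (-e)) ^ 2 ≤ (2 * e) ^ 2 := by gcongr
        have z2 : b ^ 2 ≤ 1 := by nlinarith
        calc 4 * b ^ 2 * ((1 - Real.exp (-e)) / Real.exp (-e)) ^ 2 ≤ 4 * 1 * (2 * e) ^ 2 := by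
              gcongr
          _ = _ := by ring
      push_cast
      rw [hV]
      nlinarith [sq_nonneg e]

theorem V_le (c : ℝ) (hc : 0 ≤ c) (hc1 : c ≤ 1) (s : ℝ) (hs : 0 ≤ s) (f : ℂ → ℂ) (hf : Uni f)
    (hf1 : deriv f 0 = ((Real.exp (-s) : ℝ) : ℂ)) : V c f ≤ U c s := by
  -- the step size as a function of the radius
  set E : ℝ → ℝ := fun ρ => -Real.log (2 * Real.sqrt ρ / (1 + ρ)) with hE
  have hE1 : E 1 = 0 := by simp [hE]; norm_num
  have hEc : ContinuousAt E 1 := by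
    apply ContinuousAt.neg
    apply ContinuousAt.log
    · apply ContinuousAt.div
      · exact (continuous_const.mul Real.continuous_sqrt).continuousAt
      · fun_prop
      · norm_num
    · simp
  have hlim : Tendsto (fun ρ : ℝ => U c s + (40 * (s * E ρ + E ρ ^ 2)) + 20 * (1 - ρ)) (𝓝[<] 1)
      (𝓝 (U c s + (40 * (s * E 1 + E 1 ^ 2)) + 20 * (1 - 1))) := by
    apply Tendsto.mono_left _ nhdsWithin_le_nhds
    have : ContinuousAt (fun ρ : ℝ => U c s + (40 * (s * E ρ + E ρ ^ 2)) + 20 * (1 - ρ)) 1 := by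
      fun_prop
    exact this
  have hEsmall : ∀ᶠ ρ in 𝓝[<] (1 : ℝ), E ρ < 1 := by
    have : ∀ᶠ ρ in 𝓝 (1 : ℝ), E ρ < 1 := by
      have h1 : E 1 < 1 := by rw [hE1]; norm_num
      exact hEc.eventually_lt continuousAt_const h1
    exact this.filter_mono nhdsWithin_le_nhds
  have hev : ∀ᶠ ρ in 𝓝[<] (1 : ℝ), V c f ≤ U c s + (40 * (s * E ρ + E ρ ^ 2)) + 20 * (1 - ρ) := by
    filter_upwards [hEsmall, Ioo_mem_nhdsLT (show (1 / 2 : ℝ) < 1 by norm_num)] with ρ h1 h2
    have hρ0 : 0 < ρ := by linarith [h2.1]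
    have hq : 0 < 2 * Real.sqrt ρ / (1 + ρ) := by
      have := Real.sqrt_pos.mpr hρ0
      positivity
    have hq1 : 2 * Real.sqrt ρ / (1 + ρ) < 1 := by
      rw [div_lt_one (by linarith)]
      have h3 : Real.sqrt ρ < 1 := by
        rw [Real.sqrt_lt' one_pos]; linarith [h2.2]
      have h4 := Real.sq_sqrt hρ0.le
      nlinarith [sq_pos_of_pos (sub_pos.mpr h3)]
    have he0 : 0 < E ρ := by
      simp only [hE]
      linarith [Real.log_neg hq hq1]
    have he : Real.exp (-(E ρ)) = 2 * Real.sqrt ρ / (1 + ρ) := by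
      simp only [hE, neg_neg]
      exact Real.exp_log hq
    set n := ⌈s / E ρ⌉₊ with hn
    have hn1 : s ≤ n * E ρ := by
      have := Nat.le_ceil (s / E ρ)
      rw [div_le_iff₀ he0] at this
      exact this
    have hn2 : (n : ℝ) * E ρ ≤ s + E ρ := by
      have := Nat.ceil_lt_add_one (div_nonneg hs he0.le)
      have h5 : (n : ℝ) * E ρ ≤ (s / E ρ + 1) * E ρ :=
        mul_le_mul_of_nonneg_right this.le he0.le
      have h6 : (s / E ρ + 1) * E ρ = s + E ρ := by
        field_simp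
      linarith
    have := main_induction c hc hc1 ρ h2.1.le h2.2 (E ρ) he0.le h1.le he n s hs hn1 f hf hf1
    have h7 : (n : ℝ) * (40 * E ρ ^ 2) ≤ 40 * (s * E ρ + E ρ ^ 2) := by
      have : (n : ℝ) * (40 * E ρ ^ 2) = 40 * ((n * E ρ) * E ρ) := by ring
      rw [this]
      have := mul_le_mul_of_nonneg_right hn2 he0.le
      nlinarith
    linarith
  have := ge_of_tendsto hlim hev
  rw [hE1] at this
  simpa using this

theorem log5 : Real.log 5 < 1733 / 1000 := by
  have h1 : 2 * Real.log 5 < 5 * Real.log 2 := by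
    have e1 : 2 * Real.log 5 = Real.log 25 := by
      rw [show (25 : ℝ) = 5 ^ 2 by norm_num, Real.log_pow]; norm_num
    have e2 : 5 * Real.log 2 = Real.log 32 := by
      rw [show (32 : ℝ) = 2 ^ 5 by norm_num, Real.log_pow]; norm_num
    rw [e1, e2]
    exact Real.log_lt_log (by norm_num) (by norm_num)
  have := Real.log_two_lt_d9
  linarith

theorem U_val : U (1 / 5) 200 < 38 / 25 := by
  set L := Real.log 5 with hL
  have hL0 : 0 < L := Real.log_pos (by norm_num)
  have hLu : L < 1733 / 1000 := log5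
  have hexpL : Real.exp (-L) = 1 / 5 := by
    rw [Real.exp_neg, hL, Real.exp_log (by norm_num)]; norm_num
  have hi : ∀ a b : ℝ, IntervalIntegrable (fun t : ℝ => mm (1 / 5) (Real.exp (-t)))
      MeasureTheory.volume a b := fun a b => (mm_cont _).intervalIntegrable a b
  unfold U
  rw [← intervalIntegral.integral_add_adjacent_intervals (hi 0 L) (hi L 200)]
  have d1 : ∀ t : ℝ, HasDerivAt (fun t : ℝ => Real.exp (-t)) (-Real.exp (-t)) t := by
    intro t
    have := (hasDerivAt_id t).neg.exp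
    simpa using this
  have I1 : ∫ t in (0 : ℝ)..L, mm (1 / 5) (Real.exp (-t)) ≤ 1 - 1 / 25 + 4 / 25 * L := by
    have h1 : ∫ t in (0 : ℝ)..L, mm (1 / 5) (Real.exp (-t)) ≤
        ∫ t in (0 : ℝ)..L, (2 * Real.exp (-t) ^ 2 + 4 / 25) := by
      apply intervalIntegral.integral_mono_on hL0.le (hi _ _)
      · apply Continuous.intervalIntegrable; fun_prop
      · intro t _
        unfold mm
        nlinarith [sq_nonneg (max (1 / 5 - Real.exp (-t)) 0)]
    have h2 : ∫ t in (0 : ℝ)..L, (2 * Real.exp (-t) ^ 2 + 4 / 25) =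
        (-(Real.exp (-L)) ^ 2 + 4 / 25 * L) - (-(Real.exp (-0)) ^ 2 + 4 / 25 * 0) := by
      apply intervalIntegral.integral_eq_sub_of_hasDerivAt
        (f := fun t => -(Real.exp (-t)) ^ 2 + 4 / 25 * t)
      · intro t _
        have h3 := ((d1 t).pow 2).neg.add ((hasDerivAt_id t).const_mul (4 / 25))
        refine HasDerivAt.congr_deriv h3 ?_
        push_cast
        ring
      · apply Continuous.intervalIntegrable; fun_prop
    rw [h2, hexpL] at h1
    norm_num at h1 ⊢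
    linarith
  have I2 : ∫ t in L..(200 : ℝ), mm (1 / 5) (Real.exp (-t)) ≤ Real.exp (-200) ^ 2 + 7 / 25 := by
    have h1 : ∫ t in L..(200 : ℝ), mm (1 / 5) (Real.exp (-t)) ≤
        ∫ t in L..(200 : ℝ), (-(2 * Real.exp (-t) ^ 2) + 8 / 5 * Real.exp (-t)) := by
      apply intervalIntegral.integral_mono_on (by linarith) (hi _ _)
      · apply Continuous.intervalIntegrable; fun_prop
      · intro t ht
        have h2 : Real.exp (-t) ≤ 1 / 5 := by
          rw [← hexpL]; exact Real.exp_le_exp.mpr (by linarith [ht.1])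
        unfold mm
        rw [max_eq_left (by linarith)]
        nlinarith
    have h2 : ∫ t in L..(200 : ℝ), (-(2 * Real.exp (-t) ^ 2) + 8 / 5 * Real.exp (-t)) =
        ((Real.exp (-200)) ^ 2 + -(8 / 5 * Real.exp (-200)))
          - ((Real.exp (-L)) ^ 2 + -(8 / 5 * Real.exp (-L))) := by
      apply intervalIntegral.integral_eq_sub_of_hasDerivAt
        (f := fun t => (Real.exp (-t)) ^ 2 + -(8 / 5 * Real.exp (-t)))
      · intro t _
        have h3 := ((d1 t).pow 2).add ((d1 t).const_mul (8 / 5)).neg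
        refine HasDerivAt.congr_deriv h3 ?_
        push_cast
        ring
      · apply Continuous.intervalIntegrable; fun_prop
    rw [h2, hexpL] at h1
    have := Real.exp_pos (-200)
    norm_num at h1 ⊢
    linarith
  have hsm : Real.exp (-200) ^ 2 ≤ 1 / 1000 := by
    have h1 := DB1.exp_small' 200 (by norm_num)
    have h2 := Real.exp_pos (-200)
    nlinarith
  linarith

theorem aux (H : ∀ r : ℕ, 1 ≤ r → ∀ b : ℕ → ℂ, (b 1 = (((b 1).re : ℝ) : ℂ)) → 0 < (b 1).re →
      (∀ ν : ℝ, ∀ a : ℕ → ℂ,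
        ∑ m ∈ Finset.Icc 1 r, (ν + (m : ℝ)) *
          ‖∑ n ∈ Finset.Icc 1 m, a n * ((((b 1).re ^ (ν + (n : ℝ)) : ℝ)) : ℂ) *
            ∑ j ∈ Finset.range (m - n + 1),
              (∏ i ∈ Finset.range j, ((((ν + (n : ℝ)) : ℝ) : ℂ) - (i : ℂ))) / ((j.factorial : ℕ) : ℂ) *
              ((∑ k ∈ Finset.Ico 1 r, Polynomial.C (b (k + 1) / b 1) * Polynomial.X ^ k) ^ j).coeff (m - n)‖ ^ 2
        ≤ ∑ n ∈ Finset.Icc 1 r, (ν + (n : ℝ)) * ‖a n‖ ^ 2) →
      ∃ B : ℂ → ℂ, DifferentiableOn ℂ B (Metric.ball (0 : ℂ) 1) ∧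
        Set.InjOn B (Metric.ball (0 : ℂ) 1) ∧
        Set.MapsTo B (Metric.ball (0 : ℂ) 1) (Metric.ball (0 : ℂ) 1) ∧
        B 0 = 0 ∧
        ∀ n ∈ Finset.Icc 1 r, iteratedDeriv n B 0 / ((n.factorial : ℕ) : ℂ) = b n) : False := by
  set b : ℕ → ℂ := fun n => if n = 3 then (43 / 25 : ℂ) * ((Real.exp (-200) : ℝ) : ℂ)
    else ((Real.exp (-200) : ℝ) : ℂ) with hb
  have hb1 : b 1 = ((Real.exp (-200) : ℝ) : ℂ) := by simp [hb]
  have hb2 : b 2 = ((Real.exp (-200) : ℝ) : ℂ) := by simp [hb]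
  have hb3 : b 3 = (43 / 25 : ℂ) * ((Real.exp (-200) : ℝ) : ℂ) := by simp [hb]
  obtain ⟨B, hBd, hBi, hBm, hB0, hBc⟩ := H 3 (by norm_num) b (by rw [hb1, ofReal_re])
    (by rw [hb1, ofReal_re]; exact Real.exp_pos _) (DB1.contrC b hb1 hb2 hb3)
  have c1 := hBc 1 (by decide)
  have c2 := hBc 2 (by decide)
  have c3 := hBc 3 (by decide)
  rw [iteratedDeriv_one, hb1] at c1
  rw [iteratedDeriv_succ, iteratedDeriv_one, hb2] at c2
  rw [iteratedDeriv_succ, iteratedDeriv_succ, iteratedDeriv_one, hb3] at c3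
  have hne : ((Real.exp (-200) : ℝ) : ℂ) ≠ 0 := by exact_mod_cast (Real.exp_pos _).ne'
  norm_num [Nat.factorial] at c1
  have e1 : deriv B 0 = ((Real.exp (-200) : ℝ) : ℂ) := by
    rw [← hb1]
    have := hBc 1 (by decide)
    rw [iteratedDeriv_one] at this
    simpa using this
  have e2 : deriv (deriv B) 0 = 2 * ((Real.exp (-200) : ℝ) : ℂ) := by
    have h2 : ((Nat.factorial 2 : ℕ) : ℂ) = 2 := by norm_num [Nat.factorial]
    rw [h2] at c2
    linear_combination 2 * c2
  have e3 : deriv (deriv (deriv B)) 0 = 6 * (43 / 25 * ((Real.exp (-200) : ℝ) : ℂ)) := by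
    have h2 : ((Nat.factorial 3 : ℕ) : ℂ) = 6 := by norm_num [Nat.factorial]
    rw [h2] at c3
    linear_combination 6 * c3
  have hal : DB3.al B = 1 := by
    unfold al; rw [e1, e2]; exact div_self (mul_ne_zero two_ne_zero hne)
  have hom : om B = ((18 / 25 : ℝ) : ℂ) := by
    unfold om; rw [hal, e1, e3]
    push_cast
    field_simp
    norm_num
  have hV := V_le (1 / 5) (by norm_num) (by norm_num) 200 (by norm_num) B
    ⟨hBd, hBi, hBm, hB0⟩ e1
  unfold V at hV
  rw [hal, hom, ofReal_re, one_re] at hV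
  have := U_val
  linarith

end Pool.Agent.S02832.DB5

open Pool Pool.MP_2cd50e_an

namespace Pool.Agent.S02832

/-- The negation of the preceding statement: If B_1>0,B_2,…,B_r make composition with B a contraction of the indefinite space D_r^ν for every real ν, then some injective holomorphic self-map of the disk fixing 0 has Taylor coefficients B_1,…,B_r. -/
theorem result :
    ¬ (∀ r : ℕ, 1 ≤ r → ∀ b : ℕ → ℂ, (b 1 = (((b 1).re : ℝ) : ℂ)) → 0 < (b 1).re →
      (∀ ν : ℝ, ∀ a : ℕ → ℂ,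
        ∑ m ∈ Finset.Icc 1 r, (ν + (m : ℝ)) *
          ‖∑ n ∈ Finset.Icc 1 m, a n * ((((b 1).re ^ (ν + (n : ℝ)) : ℝ)) : ℂ) *
            ∑ j ∈ Finset.range (m - n + 1),
              (∏ i ∈ Finset.range j, ((((ν + (n : ℝ)) : ℝ) : ℂ) - (i : ℂ))) / ((j.factorial : ℕ) : ℂ) *
              ((∑ k ∈ Finset.Ico 1 r, Polynomial.C (b (k + 1) / b 1) * Polynomial.X ^ k) ^ j).coeff (m - n)‖ ^ 2
        ≤ ∑ n ∈ Finset.Icc 1 r, (ν + (n : ℝ)) * ‖a n‖ ^ 2) →
      ∃ B : ℂ → ℂ, DifferentiableOn ℂ B (Metric.ball (0 : ℂ) 1) ∧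
        Set.InjOn B (Metric.ball (0 : ℂ) 1) ∧
        Set.MapsTo B (Metric.ball (0 : ℂ) 1) (Metric.ball (0 : ℂ) 1) ∧
        B 0 = 0 ∧
        ∀ n ∈ Finset.Icc 1 r, iteratedDeriv n B 0 / ((n.factorial : ℕ) : ℂ) = b n) := by
  intro H
  exact DB5.aux H

end Pool.Agent.S02832
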