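import Pool.Statements.S02836
import Mathlib

set_option autoImplicit false
open Pool Pool.MP_2cf295_an

namespace Pool.Agent.S02836

/-- Rudin-Shapiro pairs with odd frequencies: pair (P_k, Q_k) in C(T). -/
noncomputable def rs : ℕ → C(UnitAddCircle, ℂ) × C(UnitAddCircle, ℂ)
  | 0 => ((fourier 1 : C(UnitAddCircle, ℂ)), (fourier 1 : C(UnitAddCircle, ℂ)))
  | k + 1 =>
    ((rs k).1 + (fourier (2 ^ (k + 1) : ℤ) : C(UnitAddCircle, ℂ)) * (rs k).2,
     (rs k).1 - (fourier (2 ^ (k + 1) : ℤ) : C(UnitAddCircle, ℂ)) * (rs k).2)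

lemma norm_fourier_apply (n : ℤ) (x : UnitAddCircle) :
    ‖(fourier n : C(UnitAddCircle, ℂ)) x‖ = 1 := by
  rw [fourier_apply]; exact Circle.norm_coe _

lemma rs_sq (k : ℕ) (x : UnitAddCircle) :
    ‖(rs k).1 x‖ ^ 2 + ‖(rs k).2 x‖ ^ 2 = 2 * 2 ^ k := by
  induction k with
  | zero =>
    have h1 := norm_fourier_apply 1 x
    simp only [rs, h1]; norm_num
  | succ k ih =>
    have h1 := norm_fourier_apply (2 ^ (k + 1) : ℤ) x
    simp only [rs, ContinuousMap.add_apply, ContinuousMap.sub_apply, ContinuousMap.mul_apply]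
    have hpar := parallelogram_law_with_norm ℝ ((rs k).1 x)
      ((fourier (2 ^ (k + 1) : ℤ) : C(UnitAddCircle, ℂ)) x * (rs k).2 x)
    rw [norm_mul, h1, one_mul] at hpar
    have : ‖(rs k).1 x + (fourier (2 ^ (k + 1) : ℤ) : C(UnitAddCircle, ℂ)) x * (rs k).2 x‖ ^ 2
        + ‖(rs k).1 x - (fourier (2 ^ (k + 1) : ℤ) : C(UnitAddCircle, ℂ)) x * (rs k).2 x‖ ^ 2
        = 2 * (‖(rs k).1 x‖ ^ 2 + ‖(rs k).2 x‖ ^ 2) := by
      nlinarith [hpar]
    rw [this, ih]; ring

lemma rs_coeff (k : ℕ) : ∃ p q : ℕ → ℂ, (∀ n, ‖p n‖ = 1) ∧ (∀ n, ‖q n‖ = 1) ∧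
    (rs k).1 = ∑ n ∈ Finset.range (2 ^ k), p n • (fourier (2 * (n : ℤ) + 1) : C(UnitAddCircle, ℂ)) ∧
    (rs k).2 = ∑ n ∈ Finset.range (2 ^ k), q n • (fourier (2 * (n : ℤ) + 1) : C(UnitAddCircle, ℂ)) := by
  induction k with
  | zero => exact ⟨fun _ => 1, fun _ => 1, by simp, by simp, by simp [rs], by simp [rs]⟩
  | succ k ih =>
    obtain ⟨p, q, hp, hq, hP, hQ⟩ := ih
    have key : (fourier (2 ^ (k + 1) : ℤ) : C(UnitAddCircle, ℂ)) * (rs k).2 =
        ∑ n ∈ Finset.range (2 ^ k), q n •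
          (fourier (2 * ((2 ^ k + n : ℕ) : ℤ) + 1) : C(UnitAddCircle, ℂ)) := by
      rw [hQ, Finset.mul_sum]
      refine Finset.sum_congr rfl fun n _ => ?_
      rw [mul_smul_comm]
      congr 1
      ext x
      rw [ContinuousMap.mul_apply, ← fourier_add]
      congr 2
      push_cast; ring
    refine ⟨fun n => if n < 2 ^ k then p n else q (n - 2 ^ k),
      fun n => if n < 2 ^ k then p n else - q (n - 2 ^ k), ?_, ?_, ?_, ?_⟩
    · intro n; dsimp only; split_ifs <;> simp [hp, hq]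
    · intro n; dsimp only; split_ifs <;> simp [hp, hq]
    · rw [show 2 ^ (k + 1) = 2 ^ k + 2 ^ k from by ring, Finset.sum_range_add]
      simp only [rs]
      rw [key]
      congr 1
      · rw [hP]
        refine Finset.sum_congr rfl fun n hn => ?_
        rw [if_pos (Finset.mem_range.mp hn)]
      · refine Finset.sum_congr rfl fun n hn => ?_
        rw [if_neg (by omega)]
        congr 2; omega
    · rw [show 2 ^ (k + 1) = 2 ^ k + 2 ^ k from by ring, Finset.sum_range_add]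
      simp only [rs]
      rw [key, sub_eq_add_neg, ← Finset.sum_neg_distrib]
      congr 1
      · rw [hP]
        refine Finset.sum_congr rfl fun n hn => ?_
        rw [if_pos (Finset.mem_range.mp hn)]
      · refine Finset.sum_congr rfl fun n hn => ?_
        rw [if_neg (by omega), Nat.add_sub_cancel_left]
        exact (neg_smul _ _).symm

lemma not_sidon : ¬ ∃ C : ℝ, ∀ (s : Finset ℤ) (c : ℤ → ℂ), (↑s ⊆ {n : ℤ | Odd n}) →
        ∑ n ∈ s, ‖c n‖ ≤ C * ‖∑ n ∈ s, c n • (fourier n : C(UnitAddCircle, ℂ))‖ := by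
  rintro ⟨C, hC⟩
  have key : ∀ k : ℕ, (2 : ℝ) ^ k ≤ 2 * C ^ 2 := by
    intro k
    obtain ⟨p, -, hp, -, hP, -⟩ := rs_coeff k
    have hinj : Set.InjOn (fun n : ℕ => 2 * (n : ℤ) + 1) (Finset.range (2 ^ k) : Set ℕ) := by
      intro a _ b _ hab
      simp only at hab; omega
    have h := hC ((Finset.range (2 ^ k)).image (fun n : ℕ => 2 * (n : ℤ) + 1))
      (fun m => p ((m - 1) / 2).toNat) (by
        intro m hm
        simp only [Finset.coe_image, Set.mem_image] at hm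
        obtain ⟨n, -, rfl⟩ := hm
        exact ⟨n, rfl⟩)
    rw [Finset.sum_image hinj, Finset.sum_image hinj] at h
    simp only [hp, Finset.sum_const, Finset.card_range, nsmul_eq_mul, mul_one] at h
    have e : ∀ n : ℕ, ((2 * (n : ℤ) + 1 - 1) / 2).toNat = n := by intro n; omega
    simp only [e] at h
    rw [← hP] at h
    have hn : ‖(rs k).1‖ ^ 2 ≤ 2 * 2 ^ k := by
      have h0 : ‖(rs k).1‖ ≤ Real.sqrt (2 * 2 ^ k) := by
        rw [ContinuousMap.norm_le _ (Real.sqrt_nonneg _)]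
        intro x
        apply Real.le_sqrt_of_sq_le
        have := rs_sq k x
        nlinarith [sq_nonneg ‖(rs k).2 x‖]
      calc ‖(rs k).1‖ ^ 2 ≤ (Real.sqrt (2 * 2 ^ k)) ^ 2 := by gcongr
        _ = 2 * 2 ^ k := Real.sq_sqrt (by positivity)
    push_cast at h
    have h2 : ((2 : ℝ) ^ k) ^ 2 ≤ (C * ‖(rs k).1‖) ^ 2 := by
      have : (0 : ℝ) ≤ 2 ^ k := by positivity
      gcongr
    have h3 : ((2 : ℝ) ^ k) * 2 ^ k ≤ (2 * C ^ 2) * 2 ^ k := by
      calc ((2 : ℝ) ^ k) * 2 ^ k = ((2 : ℝ) ^ k) ^ 2 := by ring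
        _ ≤ (C * ‖(rs k).1‖) ^ 2 := h2
        _ = C ^ 2 * ‖(rs k).1‖ ^ 2 := by ring
        _ ≤ C ^ 2 * (2 * 2 ^ k) := by gcongr
        _ = (2 * C ^ 2) * 2 ^ k := by ring
    exact le_of_mul_le_mul_right h3 (by positivity)
  obtain ⟨k, hk⟩ := pow_unbounded_of_one_lt (2 * C ^ 2) (by norm_num : (1 : ℝ) < 2)
  exact absurd (key k) (not_le.mpr hk)

lemma coeff_translate (f : C(UnitAddCircle, ℂ)) (a : UnitAddCircle) (n : ℤ) :
    fourierCoeff (fun x => f (x + a)) n =
      (fourier n : C(UnitAddCircle, ℂ)) a * fourierCoeff (⇑f) n := by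
  have h1 := MeasureTheory.integral_add_right_eq_self
    (μ := (AddCircle.haarAddCircle : MeasureTheory.Measure UnitAddCircle))
    (fun t : UnitAddCircle => (fourier (-n) : C(UnitAddCircle, ℂ)) (t - a) • f t) a
  simp only [add_sub_cancel_right] at h1
  unfold fourierCoeff
  rw [h1, ← MeasureTheory.integral_const_mul]
  congr 1
  ext t
  have h2 : (fourier (-n) : C(UnitAddCircle, ℂ)) (t - a) =
      (fourier n : C(UnitAddCircle, ℂ)) a * (fourier (-n) : C(UnitAddCircle, ℂ)) t := by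
    simp only [fourier_apply]
    rw [smul_sub, sub_eq_add_neg, AddCircle.toCircle_add, mul_comm, neg_smul n a, neg_neg]
    simp
  rw [h2]
  simp [mul_assoc]

lemma eq_zero_of_coeff (g : C(UnitAddCircle, ℂ)) (hg : ∀ n, fourierCoeff (⇑g) n = 0) : g = 0 := by
  have h0 : fourierCoeff (⇑g) = 0 := funext hg
  have hs : Summable (fourierCoeff (⇑g)) := by rw [h0]; exact summable_zero
  have h1 := hasSum_fourier_series_of_summable hs
  have h2 : HasSum (fun i : ℤ => fourierCoeff (⇑g) i • (fourier i : C(UnitAddCircle, ℂ)))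
      (0 : C(UnitAddCircle, ℂ)) := by
    have h3 : (fun i : ℤ => fourierCoeff (⇑g) i • (fourier i : C(UnitAddCircle, ℂ))) =
        fun _ => 0 := by
      funext i; ext x; simp [hg]
    rw [h3]
    exact hasSum_zero
  exact h1.unique h2

lemma fourier_half (n : ℤ) (hn : Odd n) :
    (fourier n : C(UnitAddCircle, ℂ)) ((1 / 2 : ℝ) : UnitAddCircle) = -1 := by
  rw [fourier_coe_apply]
  obtain ⟨m, rfl⟩ := hn
  have : (2 * (Real.pi : ℂ) * Complex.I * ((2 * m + 1 : ℤ) : ℂ) * ((1 / 2 : ℝ) : ℂ) / ((1 : ℝ) : ℂ))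
      = Real.pi * Complex.I + m * (2 * Real.pi * Complex.I) := by
    push_cast; ring
  rw [this, Complex.exp_add, Complex.exp_int_mul_two_pi_mul_I, Complex.exp_pi_mul_I, mul_one]

/-- The half translate of a function with odd spectrum is its negative. -/
lemma half_translate (f : C(UnitAddCircle, ℂ))
    (hf : ∀ n ∉ {n : ℤ | Odd n}, fourierCoeff (⇑f) n = 0) :
    f.comp (ContinuousMap.mk (fun x : UnitAddCircle => x + ((1 / 2 : ℝ) : UnitAddCircle))
            (continuous_add_right _)) = (-1 : ℂ) • f := by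
  set g : C(UnitAddCircle, ℂ) := f.comp (ContinuousMap.mk
    (fun x : UnitAddCircle => x + ((1 / 2 : ℝ) : UnitAddCircle)) (continuous_add_right _)) with hg
  have hz : g + f = 0 := by
    apply eq_zero_of_coeff
    intro n
    have hadd : fourierCoeff (⇑(g + f)) n = fourierCoeff (⇑g) n + fourierCoeff (⇑f) n := by
      have := fourierCoeff.add (f := ⇑g) (g := ⇑f)
        (g.continuous.integrable_of_hasCompactSupport (HasCompactSupport.of_compactSpace _))
        (f.continuous.integrable_of_hasCompactSupport (HasCompactSupport.of_compactSpace _))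
      exact congrFun this n
    have hgc : fourierCoeff (⇑g) n = (fourier n : C(UnitAddCircle, ℂ))
        ((1 / 2 : ℝ) : UnitAddCircle) * fourierCoeff (⇑f) n := coeff_translate f _ n
    rw [hadd, hgc]
    by_cases hn : Odd n
    · rw [fourier_half n hn]; ring
    · rw [hf n hn]; ring
  have h3 := eq_neg_of_add_eq_zero_left hz
  rw [h3]
  ext x
  simp

theorem result :
    ¬ (∀ E : Set ℤ,
    (∀ φ : C(UnitAddCircle, ℂ) → ℂ,
      (∀ f g : C(UnitAddCircle, ℂ),
          (∀ n ∉ E, fourierCoeff (⇑f) n = 0) →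
          (∀ n ∉ E, fourierCoeff (⇑g) n = 0) →
          φ (f + g) = φ f + φ g) →
      (∀ (c : ℂ) (f : C(UnitAddCircle, ℂ)),
          (∀ n ∉ E, fourierCoeff (⇑f) n = 0) → φ (c • f) = c * φ f) →
      (∀ (a : UnitAddCircle) (f : C(UnitAddCircle, ℂ)),
          (∀ n ∉ E, fourierCoeff (⇑f) n = 0) →
          φ (f.comp (ContinuousMap.mk (fun x : UnitAddCircle => x + a)
            (continuous_add_right a))) = φ f) →
      ∃ C : ℝ, ∀ f : C(UnitAddCircle, ℂ),
          (∀ n ∉ E, fourierCoeff (⇑f) n = 0) → ‖φ f‖ ≤ C * ‖f‖)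
    ↔
    (∃ C : ℝ, ∀ (s : Finset ℤ) (c : ℤ → ℂ), (↑s ⊆ E) →
        ∑ n ∈ s, ‖c n‖ ≤ C * ‖∑ n ∈ s, c n • (fourier n : C(UnitAddCircle, ℂ))‖)) := by
  intro h
  apply not_sidon
  rw [← h {n : ℤ | Odd n}]
  intro φ _ hsmul htrans
  refine ⟨0, fun f hf => ?_⟩
  have h1 := htrans ((1 / 2 : ℝ) : UnitAddCircle) f hf
  rw [half_translate f hf, hsmul _ f hf] at h1
  have h2 : φ f = 0 := by linear_combination (-1 / 2 : ℂ) * h1
  simp [h2]


end Pool.Agent.S02836
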