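import Pool.Statements.S02840
-- import your own Pool.Agent.* helpers here

set_option autoImplicit false
open Pool Pool.MP_2d773b_an

namespace Pool.Agent.S02840

open Set Filter Topology Metric

namespace ViscODE

variable {E : Type*} [NormedAddCommGroup E] [InnerProductSpace ℝ E] [FiniteDimensional ℝ E]

/-- constant coefficient monotonicity from the viscosity inequality -∂ₜφ ≤ A at local maxima. -/
theorem mono_of_visc (w : ℝ × E → ℝ) (A t1 t2 R : ℝ) (x0 : E) (h12 : t1 < t2) (hR : 0 < R)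
    (hw : ContinuousOn w (Icc t1 t2 ×ˢ closedBall x0 R))
    (hvisc : ∀ t ∈ Ioo t1 t2, ∀ x ∈ ball x0 R, ∀ φ : ℝ × E → ℝ, ContDiff ℝ 2 φ →
      IsLocalMax (fun q => w q - φ q) (t, x) → - deriv (fun s => φ (s, x)) t ≤ A) :
    w (t1, x0) ≤ w (t2, x0) + A * (t2 - t1) := by
  by_contra hcon
  push Not at hcon
  -- the adjusted function
  set W : ℝ × E → ℝ := fun q => w q + A * q.1 with hW
  set δ : ℝ := W (t1, x0) - W (t2, x0) with hδ
  have hδpos : 0 < δ := by
    simp only [hδ, hW]; nlinarith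
  have hWc : ContinuousOn W (Icc t1 t2 ×ˢ closedBall x0 R) := by
    apply hw.add
    exact (continuous_const.mul continuous_fst).continuousOn
  have hm1 : (t1, x0) ∈ Icc t1 t2 ×ˢ closedBall x0 R := ⟨⟨le_refl _, h12.le⟩, mem_closedBall_self hR.le⟩
  have hm2 : (t2, x0) ∈ Icc t1 t2 ×ˢ closedBall x0 R := ⟨⟨h12.le, le_refl _⟩, mem_closedBall_self hR.le⟩
  have hc1 := Metric.continuousWithinAt_iff.1 (hWc (t1, x0) hm1) (δ / 16) (by positivity)
  have hc2 := Metric.continuousWithinAt_iff.1 (hWc (t2, x0) hm2) (δ / 16) (by positivity)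
  obtain ⟨d1, hd1, hc1⟩ := hc1
  obtain ⟨d2, hd2, hc2⟩ := hc2
  set r : ℝ := min R (min (d1 / 2) (d2 / 2)) with hr
  have hrpos : 0 < r := by positivity
  have hrR : r ≤ R := min_le_left _ _
  have hr1 : r < d1 := lt_of_le_of_lt ((min_le_right _ _).trans (min_le_left _ _)) (by linarith)
  have hr2 : r < d2 := lt_of_le_of_lt ((min_le_right _ _).trans (min_le_right _ _)) (by linarith)
  set s : ℝ := min ((t2 - t1) / 2) (d1 / 2) with hs
  have hspos : 0 < s := by
    have : 0 < t2 - t1 := by linarith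
    positivity
  have hs1 : s < t2 - t1 := lt_of_le_of_lt (min_le_left _ _) (by linarith)
  have hs2 : s < d1 := lt_of_le_of_lt (min_le_right _ _) (by linarith)
  set t3 : ℝ := t1 + s with ht3
  -- estimates
  have e1 : ∀ x ∈ closedBall x0 r, W (t1, x) < W (t1, x0) + δ / 16 := by
    intro x hx
    have hx' : dist x x0 ≤ r := hx
    have := @hc1 (t1, x) ⟨⟨le_refl _, h12.le⟩, closedBall_subset_closedBall hrR hx⟩
      (by rw [Prod.dist_eq]; simp only [dist_self]; exact max_lt hd1 (lt_of_le_of_lt hx' hr1))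
    rw [Real.dist_eq, abs_lt] at this
    linarith [this.2]
  have e2 : ∀ x ∈ closedBall x0 r, W (t2, x) < W (t2, x0) + δ / 16 := by
    intro x hx
    have hx' : dist x x0 ≤ r := hx
    have := @hc2 (t2, x) ⟨⟨h12.le, le_refl _⟩, closedBall_subset_closedBall hrR hx⟩
      (by rw [Prod.dist_eq]; simp only [dist_self]; exact max_lt hd2 (lt_of_le_of_lt hx' hr2))
    rw [Real.dist_eq, abs_lt] at this
    linarith [this.2]
  have e3 : W (t1, x0) - δ / 16 < W (t3, x0) := by
    have := @hc1 (t3, x0) ⟨⟨by linarith, by linarith⟩, mem_closedBall_self hR.le⟩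
      (by
        rw [Prod.dist_eq]; simp only [dist_self, Real.dist_eq]
        refine max_lt ?_ hd1
        rw [ht3, add_sub_cancel_left, abs_of_pos hspos]; exact hs2)
    rw [Real.dist_eq, abs_lt] at this
    linarith [this.1]
  -- bound of W on the compact set
  have hK : IsCompact (Icc t1 t2 ×ˢ closedBall x0 r) := isCompact_Icc.prod (isCompact_closedBall x0 r)
  have hsub : Icc t1 t2 ×ˢ closedBall x0 r ⊆ Icc t1 t2 ×ˢ closedBall x0 R :=
    prod_mono le_rfl (closedBall_subset_closedBall hrR)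
  obtain ⟨B, hB⟩ := hK.bddAbove_image (hWc.mono hsub)
  have hB' : ∀ q ∈ Icc t1 t2 ×ˢ closedBall x0 r, W q ≤ B := fun q hq => hB (mem_image_of_mem _ hq)
  set N : ℝ := 1 / s with hN
  have hNpos : 0 < N := by positivity
  set M : ℝ := (|B - W (t1, x0)| + δ) / r ^ 2 with hM
  set P : ℝ → ℝ := fun t => - (δ / 2) * Real.exp (-N * (t - t1)) with hP
  set Ψ : ℝ × E → ℝ := fun q => W q + P q.1 - M * ‖q.2 - x0‖ ^ 2 with hΨ
  set φ : ℝ × E → ℝ := fun q => - A * q.1 - P q.1 + M * ‖q.2 - x0‖ ^ 2 with hφ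
  have hΨφ : ∀ q, w q - φ q = Ψ q := by
    intro q; simp only [hΨ, hφ, hW]; ring
  have hΨc : ContinuousOn Ψ (Icc t1 t2 ×ˢ closedBall x0 r) := by
    have h1 : Continuous (fun q : ℝ × E => P q.1 - M * ‖q.2 - x0‖ ^ 2) := by
      simp only [hP]; fun_prop
    have h2 := (hWc.mono hsub).add h1.continuousOn
    refine h2.congr ?_
    intro q _; simp only [hΨ, Pi.add_apply]; ring
  have hne : (Icc t1 t2 ×ˢ closedBall x0 r).Nonempty :=
    ⟨(t1, x0), ⟨⟨le_refl _, h12.le⟩, mem_closedBall_self hrpos.le⟩⟩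
  obtain ⟨m, hmK, hmax⟩ := hK.exists_isMaxOn hne hΨc
  have hmax' : ∀ q ∈ Icc t1 t2 ×ˢ closedBall x0 r, Ψ q ≤ Ψ m := fun q hq => hmax hq
  -- lower bound at (t3, x0)
  have hexp : Real.exp (-1) < 1 / 2 := by
    have := Real.exp_one_gt_d9
    rw [Real.exp_neg, inv_lt_comm₀ (Real.exp_pos _) (by norm_num)]
    linarith
  have hP3 : -(δ / 4) < P t3 := by
    have h1 : -N * (t3 - t1) = -1 := by
      rw [ht3, hN]; field_simp; ring
    simp only [hP, h1]
    nlinarith
  have hΨ3 : W (t1, x0) - δ / 16 - δ / 4 < Ψ (t3, x0) := by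
    simp only [hΨ, sub_self, norm_zero]
    nlinarith
  have hmem3 : (t3, x0) ∈ Icc t1 t2 ×ˢ closedBall x0 r :=
    ⟨⟨by linarith, by linarith⟩, mem_closedBall_self hrpos.le⟩
  have hge := hmax' _ hmem3
  have hMnn : 0 ≤ M := by positivity
  have hPneg : ∀ t, P t ≤ 0 := by
    intro t; simp only [hP]
    have := Real.exp_pos (-N * (t - t1)); nlinarith
  obtain ⟨mt, mx⟩ := m
  have hmt : mt ∈ Icc t1 t2 := hmK.1
  have hmx : mx ∈ closedBall x0 r := hmK.2
  -- not at t1
  have hnt1 : mt ≠ t1 := by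
    intro h
    rw [h] at hge hmax'
    have h1 := e1 mx hmx
    have h2 : P t1 = -(δ / 2) := by simp [hP]
    have h3 : Ψ (t1, mx) ≤ W (t1, mx) + P t1 := by
      simp only [hΨ]
      have : 0 ≤ M * ‖mx - x0‖ ^ 2 := by positivity
      linarith
    linarith
  have hnt2 : mt ≠ t2 := by
    intro h
    rw [h] at hge hmax'
    have h1 := e2 mx hmx
    have h3 : Ψ (t2, mx) ≤ W (t2, mx) + P t2 := by
      simp only [hΨ]
      have : 0 ≤ M * ‖mx - x0‖ ^ 2 := by positivity
      linarith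
    have := hPneg t2
    have h5 : W (t2, x0) = W (t1, x0) - δ := by simp only [hδ]; ring
    linarith
  have hnr : dist mx x0 < r := by
    rcases lt_or_eq_of_le (show dist mx x0 ≤ r from hmx) with h | h
    · exact h
    · exfalso
      have h1 := hB' _ hmK
      have h3 : Ψ (mt, mx) = W (mt, mx) + P mt - M * r ^ 2 := by
        simp only [hΨ]; rw [← dist_eq_norm, h]
      have h4 : M * r ^ 2 = |B - W (t1, x0)| + δ := by
        rw [hM]; field_simp
      have h5 := le_abs_self (B - W (t1, x0))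
      have := hPneg mt
      linarith
  have hmt' : mt ∈ Ioo t1 t2 := ⟨lt_of_le_of_ne hmt.1 (Ne.symm hnt1), lt_of_le_of_ne hmt.2 hnt2⟩
  have hnhds : Icc t1 t2 ×ˢ closedBall x0 r ∈ 𝓝 (mt, mx) :=
    prod_mem_nhds (Icc_mem_nhds hmt'.1 hmt'.2)
      (mem_of_superset (isOpen_ball.mem_nhds hnr) ball_subset_closedBall)
  have hloc : IsLocalMax (fun q => w q - φ q) (mt, mx) := by
    filter_upwards [hnhds] with q hq
    rw [hΨφ, hΨφ]; exact hmax' q hq
  have hsmooth : ContDiff ℝ 2 φ := by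
    have h1 : ContDiff ℝ 2 (fun q : ℝ × E => ‖q.2 - x0‖ ^ 2) :=
      (contDiff_snd.sub contDiff_const).norm_sq ℝ
    have h2 : ContDiff ℝ 2 (fun q : ℝ × E => P q.1) := by
      simp only [hP]
      exact contDiff_const.mul (Real.contDiff_exp.comp
        (contDiff_const.mul (contDiff_fst.sub contDiff_const)))
    have h3 : ContDiff ℝ 2 (fun q : ℝ × E => - A * q.1) := contDiff_const.mul contDiff_fst
    exact (h3.sub h2).add (contDiff_const.mul h1)
  have hkey := hvisc mt hmt' mx (lt_of_lt_of_le hnr hrR) φ hsmooth hloc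
  have hder : deriv (fun s => φ (s, mx)) mt = - A - (δ / 2) * N * Real.exp (-N * (mt - t1)) := by
    have h1 : HasDerivAt (fun s => -N * (s - t1)) (-N) mt := by
      simpa using ((hasDerivAt_id mt).sub_const t1).const_mul (-N)
    have h2 := (h1.exp).const_mul (-(δ / 2))
    have h3 : HasDerivAt (fun s => -A * s) (-A) mt := by
      simpa using (hasDerivAt_id mt).const_mul (-A)
    have h4 := (h3.sub h2).add_const (M * ‖mx - x0‖ ^ 2)
    have h5 := h4.deriv
    simp only [hφ, hP]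
    rw [show (fun s => -A * s - -(δ / 2) * Real.exp (-N * (s - t1)) + M * ‖mx - x0‖ ^ 2) = fun x => ((fun s => -A * s) - fun y => -(δ / 2) * Real.exp (-N * (y - t1))) x + M * ‖mx - x0‖ ^ 2 from by
      ext s; simp]
    rw [h5]; ring
  rw [hder] at hkey
  have : 0 < (δ / 2) * N * Real.exp (-N * (mt - t1)) := by positivity
  linarith

/-- A continuous viscosity solution of ∂ₜu + F(t,x) = 0 solves the ODE in t for each x. -/
theorem hasDerivAt_of_visc (u F : ℝ × E → ℝ) (T : ℝ)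
    (hu : ContinuousOn u (Icc 0 T ×ˢ univ)) (hF : ContinuousOn F (Icc 0 T ×ˢ univ))
    (hsub : ∀ t ∈ Ioo 0 T, ∀ x : E, ∀ φ : ℝ × E → ℝ, ContDiff ℝ 2 φ →
      IsLocalMax (fun q => u q - φ q) (t, x) → - deriv (fun s => φ (s, x)) t ≤ F (t, x))
    (hsup : ∀ t ∈ Ioo 0 T, ∀ x : E, ∀ φ : ℝ × E → ℝ, ContDiff ℝ 2 φ →
      IsLocalMin (fun q => u q - φ q) (t, x) → F (t, x) ≤ - deriv (fun s => φ (s, x)) t)
    (t : ℝ) (ht : t ∈ Ioo 0 T) (x : E) :
    HasDerivAt (fun s => u (s, x)) (- F (t, x)) t := by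
  rw [hasDerivAt_iff_isLittleO, Asymptotics.isLittleO_iff]
  intro ε hε
  have hmem : (t, x) ∈ Icc 0 T ×ˢ (univ : Set E) := ⟨⟨ht.1.le, ht.2.le⟩, mem_univ _⟩
  obtain ⟨d, hd, hFd⟩ := Metric.continuousWithinAt_iff.1 (hF (t, x) hmem) ε hε
  set ρ : ℝ := min (d / 2) (min (t / 2) ((T - t) / 2)) with hρ
  have hT : 0 < T - t := by linarith [ht.2]
  have ht0 : 0 < t := ht.1
  have hρpos : 0 < ρ := by positivity
  have hρ1 : ρ < d := lt_of_le_of_lt (min_le_left _ _) (by linarith)
  have hρ2 : ρ < t := lt_of_le_of_lt ((min_le_right _ _).trans (min_le_left _ _)) (by linarith)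
  have hρ3 : ρ < T - t := lt_of_le_of_lt ((min_le_right _ _).trans (min_le_right _ _)) (by linarith)
  have hFε : ∀ t' ∈ Icc (t - ρ) (t + ρ), ∀ x' ∈ ball x ρ, |F (t', x') - F (t, x)| ≤ ε := by
    intro t' ht' x' hx'
    have hx'' : dist x' x < ρ := hx'
    have := @hFd (t', x') ⟨⟨by linarith [ht'.1], by linarith [ht'.2]⟩, mem_univ _⟩ (by
      rw [Prod.dist_eq]
      refine max_lt ?_ (by simpa using hx''.trans hρ1)
      simp only [Real.dist_eq]
      refine lt_of_le_of_lt ?_ hρ1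
      rw [abs_le]; constructor <;> linarith [ht'.1, ht'.2])
    rw [Real.dist_eq] at this
    exact this.le
  have hmono : ∀ t1 t2 : ℝ, t - ρ ≤ t1 → t1 < t2 → t2 ≤ t + ρ →
      u (t1, x) ≤ u (t2, x) + (F (t, x) + ε) * (t2 - t1) ∧
      - u (t1, x) ≤ - u (t2, x) + (- (F (t, x) - ε)) * (t2 - t1) := by
    intro t1 t2 h1 h12 h2
    have hsub1 : Icc t1 t2 ×ˢ closedBall x ρ ⊆ Icc 0 T ×ˢ (univ : Set E) :=
      prod_mono (Icc_subset_Icc (by linarith) (by linarith)) (subset_univ _)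
    constructor
    · apply mono_of_visc u (F (t, x) + ε) t1 t2 ρ x h12 hρpos (hu.mono hsub1)
      intro t' ht' x' hx' φ hφ hloc
      have := hsub t' ⟨by linarith [ht'.1], by linarith [ht'.2]⟩ x' φ hφ hloc
      have h3 := hFε t' ⟨by linarith [ht'.1], by linarith [ht'.2]⟩ x' hx'
      rw [abs_le] at h3
      linarith [h3.2]
    · apply mono_of_visc (fun q => - u q) (- (F (t, x) - ε)) t1 t2 ρ x h12 hρpos (hu.mono hsub1).neg
      intro t' ht' x' hx' φ hφ hloc
      have hloc' : IsLocalMin (fun q => u q - (- φ) q) (t', x') := by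
        filter_upwards [hloc] with q hq
        simp only [Pi.neg_apply] at hq ⊢
        linarith
      have := hsup t' ⟨by linarith [ht'.1], by linarith [ht'.2]⟩ x' (- φ) hφ.neg hloc'
      have h3 := hFε t' ⟨by linarith [ht'.1], by linarith [ht'.2]⟩ x' hx'
      rw [abs_le] at h3
      have h4 : deriv (fun s => (-φ) (s, x')) t' = - deriv (fun s => φ (s, x')) t' := by
        simp only [Pi.neg_apply]; rw [← deriv.fun_neg]
      rw [h4] at this
      linarith [h3.1]
  have hnb : Icc (t - ρ) (t + ρ) ∈ 𝓝 t := Icc_mem_nhds (by linarith) (by linarith)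
  filter_upwards [hnb] with s hs
  rw [Real.norm_eq_abs, Real.norm_eq_abs, smul_eq_mul]
  rcases lt_trichotomy s t with h | h | h
  · obtain ⟨h1, h2⟩ := hmono s t hs.1 h (by linarith)
    rw [abs_of_neg (by linarith : s - t < 0), abs_le]
    constructor <;> nlinarith
  · subst h; simp
  · obtain ⟨h1, h2⟩ := hmono t s (by linarith) h hs.2
    rw [abs_of_pos (by linarith : 0 < s - t), abs_le]
    constructor <;> nlinarith

/-- the model nonlinearity -/
noncomputable def rr (y : ℝ) : ℝ := Real.sqrt y - Real.sqrt (-y)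

theorem rr_continuous : Continuous rr := by unfold rr; fun_prop

theorem rr_abs (y : ℝ) : |rr y| ≤ (1 + |y|) / 2 := by
  unfold rr
  rcases le_total 0 y with h | h
  · rw [Real.sqrt_eq_zero_of_nonpos (by linarith : -y ≤ 0), sub_zero, abs_of_nonneg (Real.sqrt_nonneg _),
      abs_of_nonneg h]
    nlinarith [Real.sq_sqrt h, sq_nonneg (Real.sqrt y - 1)]
  · rw [Real.sqrt_eq_zero_of_nonpos h, zero_sub, abs_neg, abs_of_nonneg (Real.sqrt_nonneg _),
      abs_of_nonpos h]
    nlinarith [Real.sq_sqrt (by linarith : 0 ≤ -y), sq_nonneg (Real.sqrt (-y) - 1)]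

theorem rr_sq {s : ℝ} (hs : 0 ≤ s) : rr (s ^ 2) = s := by
  unfold rr
  rw [Real.sqrt_sq hs, Real.sqrt_eq_zero_of_nonpos (by nlinarith), sub_zero]

theorem rr_neg_sq {s : ℝ} (hs : 0 ≤ s) : rr (-s ^ 2) = -s := by
  unfold rr
  rw [neg_neg, Real.sqrt_sq hs, Real.sqrt_eq_zero_of_nonpos (by nlinarith), zero_sub]

/-- ODE comparison from below. -/
theorem ode_lower (Y : ℝ → ℝ) (c : ℝ) (hc : 0 < c) (hY : ContinuousOn Y (Icc 0 1)) (hY0 : Y 0 = 0)
    (hd : ∀ s ∈ Ioo (0 : ℝ) 1, HasDerivAt Y (c + 2 * rr (Y s)) s) :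
    ∀ s ∈ Icc (0 : ℝ) (1 / 2), s ^ 2 ≤ Y s := by
  have hright : ∀ s ∈ Ico (0 : ℝ) (1 / 2), HasDerivWithinAt Y (c + 2 * rr (Y s)) (Ici s) s := by
    intro s hs
    rcases eq_or_lt_of_le hs.1 with h | h
    · subst h
      apply hasDerivWithinAt_Ici_of_tendsto_deriv (s := Ioo 0 1)
      · intro s hs; exact (hd s hs).differentiableAt.differentiableWithinAt
      · exact (hY 0 ⟨le_refl _, zero_le_one⟩).mono Ioo_subset_Icc_self
      · exact Ioo_mem_nhdsGT zero_lt_one
      · have h1 : Tendsto (fun s => c + 2 * rr (Y s)) (𝓝[>] 0) (𝓝 (c + 2 * rr (Y 0))) := by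
          have hc1 : ContinuousWithinAt Y (Ioi 0) 0 := by
            have := hY 0 ⟨le_refl _, zero_le_one⟩
            exact (this.mono Ioo_subset_Icc_self).mono_of_mem_nhdsWithin
              (Ioo_mem_nhdsGT zero_lt_one)
          have hc2 : ContinuousWithinAt (fun s => c + 2 * rr (Y s)) (Ioi 0) 0 :=
            continuousWithinAt_const.add (continuousWithinAt_const.mul
              (rr_continuous.continuousAt.comp_continuousWithinAt hc1))
          exact hc2
        refine h1.congr' ?_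
        filter_upwards [Ioo_mem_nhdsGT (zero_lt_one (α := ℝ))] with s hs
        exact (hd s hs).deriv.symm
    · exact (hd s ⟨h, by linarith [hs.2]⟩).hasDerivWithinAt
  apply image_le_of_deriv_right_lt_deriv_boundary' (f := fun s => s ^ 2) (f' := fun s => 2 * s)
    (B := Y) (B' := fun s => c + 2 * rr (Y s))
  · fun_prop
  · intro s _
    have := (hasDerivAt_pow 2 s).hasDerivWithinAt (s := Ici s)
    simpa using this
  · simp [hY0]
  · exact hY.mono (Icc_subset_Icc le_rfl (by norm_num))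
  · exact hright
  · intro s hs heq
    rw [← heq, rr_sq hs.1]; linarith

/-- ODE comparison from above. -/
theorem ode_upper (Y : ℝ → ℝ) (c : ℝ) (hc : c < 0) (hY : ContinuousOn Y (Icc 0 1)) (hY0 : Y 0 = 0)
    (hd : ∀ s ∈ Ioo (0 : ℝ) 1, HasDerivAt Y (c + 2 * rr (Y s)) s) :
    ∀ s ∈ Icc (0 : ℝ) (1 / 2), Y s ≤ - s ^ 2 := by
  have hrr : ∀ y, rr (-y) = - rr y := by intro y; unfold rr; rw [neg_neg]; ring
  have := ode_lower (fun s => - Y s) (-c) (by linarith) hY.neg (by simp [hY0]) (by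
    intro s hs
    have h1 := (hd s hs).fun_neg
    have h2 : -c + 2 * rr (-Y s) = -(c + 2 * rr (Y s)) := by rw [hrr]; ring
    rw [h2]; exact h1)
  intro s hs
  have := this s hs
  linarith

end ViscODE


open ViscODE

/-- The negation of the preceding statement: For all continuous b, σ, g, h meeting the stated Lipschitz, boundedness, one-sided and exponential growth bounds, there is a continuous u on [0,T]×ℝ^n with u(T,·)=h that is a viscosity solution of ∂t u+Lu+g(t,x,u,σ*∇u)=0. -/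
theorem result :
    ¬ (∀ (n d : ℕ) (T K k α p : ℝ)
    (b : ℝ × EuclideanSpace ℝ (Fin n) → EuclideanSpace ℝ (Fin n))
    (σ : ℝ × EuclideanSpace ℝ (Fin n) →
      (EuclideanSpace ℝ (Fin d) →L[ℝ] EuclideanSpace ℝ (Fin n)))
    (g : ℝ × EuclideanSpace ℝ (Fin n) × ℝ × EuclideanSpace ℝ (Fin d) → ℝ)
    (h : EuclideanSpace ℝ (Fin n) → ℝ),
    0 < T → 0 ≤ K → 0 ≤ k → 1 < α → α ≤ 2 → 1 ≤ p → p < α / (α - 1) →
    ContinuousOn b (Set.Icc 0 T ×ˢ Set.univ) →
    ContinuousOn σ (Set.Icc 0 T ×ˢ Set.univ) →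
    ContinuousOn g (Set.Icc 0 T ×ˢ Set.univ) →
    Continuous h →
    (∀ t ∈ Set.Icc 0 T, ∀ x : EuclideanSpace ℝ (Fin n),
      ‖b (t, 0)‖ + ‖σ (t, x)‖ ≤ K) →
    (∀ t ∈ Set.Icc 0 T, ∀ x x' : EuclideanSpace ℝ (Fin n),
      ‖b (t, x) - b (t, x')‖ + ‖σ (t, x) - σ (t, x')‖ ≤ K * ‖x - x'‖) →
    (∀ t ∈ Set.Icc 0 T, ∀ (x : EuclideanSpace ℝ (Fin n)) (y : ℝ)
      (z : EuclideanSpace ℝ (Fin d)),
      Real.sign y * g (t, x, y, z) ≤ k * (1 + ‖x‖ ^ p + |y| + ‖z‖ ^ α)) →
    (∀ t ∈ Set.Icc 0 T, ∀ (x : EuclideanSpace ℝ (Fin n)) (y : ℝ)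
      (z : EuclideanSpace ℝ (Fin d)),
      |g (t, x, y, z)| + |h x| ≤
        k * (1 + ‖x‖ ^ p + Real.exp (k * |y| ^ (2 * (α - 1) / α)) + ‖z‖ ^ 2)) →
    ∃ u : ℝ × EuclideanSpace ℝ (Fin n) → ℝ,
      ContinuousOn u (Set.Icc 0 T ×ˢ Set.univ) ∧
      (∀ x, u (T, x) = h x) ∧
      (∀ t ∈ Set.Ioo 0 T, ∀ x : EuclideanSpace ℝ (Fin n),
        ∀ φ : ℝ × EuclideanSpace ℝ (Fin n) → ℝ, ContDiff ℝ 2 φ →
        IsLocalMax (fun q => u q - φ q) (t, x) →
        - deriv (fun s => φ (s, x)) t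
          - inner ℝ (b (t, x)) (gradient (fun y => φ (t, y)) x)
          - (1 / 2) * ∑ j : Fin d,
              fderiv ℝ (fderiv ℝ (fun y => φ (t, y))) x
                (σ (t, x) (EuclideanSpace.single j (1 : ℝ)))
                (σ (t, x) (EuclideanSpace.single j (1 : ℝ)))
          - g (t, x, u (t, x),
              ContinuousLinearMap.adjoint (σ (t, x))
                (gradient (fun y => φ (t, y)) x)) ≤ 0) ∧
      (∀ t ∈ Set.Ioo 0 T, ∀ x : EuclideanSpace ℝ (Fin n),
        ∀ φ : ℝ × EuclideanSpace ℝ (Fin n) → ℝ, ContDiff ℝ 2 φ →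
        IsLocalMin (fun q => u q - φ q) (t, x) →
        0 ≤ - deriv (fun s => φ (s, x)) t
          - inner ℝ (b (t, x)) (gradient (fun y => φ (t, y)) x)
          - (1 / 2) * ∑ j : Fin d,
              fderiv ℝ (fderiv ℝ (fun y => φ (t, y))) x
                (σ (t, x) (EuclideanSpace.single j (1 : ℝ)))
                (σ (t, x) (EuclideanSpace.single j (1 : ℝ)))
          - g (t, x, u (t, x),
              ContinuousLinearMap.adjoint (σ (t, x))
                (gradient (fun y => φ (t, y)) x)))) := by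
  intro H
  have hgabs : ∀ (X y : ℝ), |max (-1) (min 1 X) + 2 * rr y| ≤ 2 + |y| := by
    intro X y
    have h1 : |max (-1) (min 1 X)| ≤ 1 := by
      rw [abs_le]; exact ⟨le_max_left _ _, max_le (by norm_num) (min_le_left _ _)⟩
    have h2 := rr_abs y
    calc |max (-1) (min 1 X) + 2 * rr y| ≤ |max (-1) (min 1 X)| + |2 * rr y| := abs_add_le _ _
      _ ≤ 1 + 2 * ((1 + |y|) / 2) := by rw [abs_mul, abs_two]; gcongr
      _ = 2 + |y| := by ring
  obtain ⟨u, hu, huT, hsub, hsup⟩ := H 1 1 1 1 2 2 1 (fun _ => 0) (fun _ => 0)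
    (fun q => max (-1) (min 1 (q.2.1 0)) + 2 * rr q.2.2.1) (fun _ => 0)
    (by norm_num) (by norm_num) (by norm_num) (by norm_num) (by norm_num) (by norm_num) (by norm_num)
    continuousOn_const continuousOn_const
    (by
      apply Continuous.continuousOn
      have h1 : Continuous (fun q : ℝ × EuclideanSpace ℝ (Fin 1) × ℝ × EuclideanSpace ℝ (Fin 1) =>
        q.2.1 0) := by fun_prop
      have h2 : Continuous (fun q : ℝ × EuclideanSpace ℝ (Fin 1) × ℝ × EuclideanSpace ℝ (Fin 1) =>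
        q.2.2.1) := by fun_prop
      exact (continuous_const.max (continuous_const.min h1)).add
        (continuous_const.mul (rr_continuous.comp h2)))
    continuous_const
    (by intro t _ x; simp)
    (by intro t _ x x'; simp)
    (by
      intro t _ x y z
      have h1 := hgabs (x 0) y
      have h2 : Real.sign y * (max (-1) (min 1 (x 0)) + 2 * rr y) ≤
          |max (-1) (min 1 (x 0)) + 2 * rr y| := by
        rcases Real.sign_apply_eq y with h | h | h <;> rw [h]
        · rw [neg_one_mul]; exact neg_le_abs _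
        · rw [zero_mul]; exact abs_nonneg _
        · rw [one_mul]; exact le_abs_self _
      have h3 : 0 ≤ ‖x‖ ^ (1 : ℝ) := by positivity
      have h4 : 0 ≤ ‖z‖ ^ (2 : ℝ) := by positivity
      have h5 := abs_nonneg y
      simp only at h2 ⊢
      linarith)
    (by
      intro t _ x y z
      have h1 := hgabs (x 0) y
      have h3 : 0 ≤ ‖x‖ ^ (1 : ℝ) := by positivity
      have h4 : 0 ≤ ‖z‖ ^ 2 := by positivity
      have h5 := abs_nonneg y
      have h6 : |y| ^ (2 * ((2 : ℝ) - 1) / 2) = |y| := by norm_num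
      rw [h6, abs_zero]
      have h7 := Real.add_one_le_exp (2 * |y|)
      simp only
      linarith)
  set F : ℝ × EuclideanSpace ℝ (Fin 1) → ℝ :=
    fun q => max (-1) (min 1 (q.2 0)) + 2 * rr (u q) with hF
  have hFc : ContinuousOn F (Icc 0 1 ×ˢ univ) := by
    have h1 : Continuous (fun q : ℝ × EuclideanSpace ℝ (Fin 1) => max (-1) (min 1 (q.2 0))) := by
      fun_prop
    exact h1.continuousOn.add (continuousOn_const.mul (rr_continuous.comp_continuousOn hu))
  have hode : ∀ t ∈ Ioo (0 : ℝ) 1, ∀ x, HasDerivAt (fun s => u (s, x)) (- F (t, x)) t := by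
    intro t ht x
    apply hasDerivAt_of_visc u F 1 hu hFc _ _ t ht x
    · intro t ht x φ hφ hloc
      have := hsub t ht x φ hφ hloc
      simp only [inner_zero_left, zero_apply, map_zero, Finset.sum_const_zero,
        mul_zero, sub_zero] at this
      simp only [hF]
      linarith
    · intro t ht x φ hφ hloc
      have := hsup t ht x φ hφ hloc
      simp only [inner_zero_left, zero_apply, map_zero, Finset.sum_const_zero,
        mul_zero, sub_zero] at this
      simp only [hF]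
      linarith
  -- time reversal
  have hYd : ∀ x, ∀ s ∈ Ioo (0 : ℝ) 1,
      HasDerivAt (fun s => u (1 - s, x)) (max (-1) (min 1 (x 0)) + 2 * rr (u (1 - s, x))) s := by
    intro x s hs
    have h1 := hode (1 - s) ⟨by linarith [hs.2], by linarith [hs.1]⟩ x
    have h2 : HasDerivAt (fun s : ℝ => 1 - s) (-1) s := by
      simpa using (hasDerivAt_id s).const_sub 1
    have h3 := HasDerivAt.scomp s h1 h2
    simp only [hF, smul_eq_mul, neg_mul, one_mul, neg_neg] at h3
    exact h3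
  have hYc : ∀ x, ContinuousOn (fun s => u (1 - s, x)) (Icc (0 : ℝ) 1) := by
    intro x
    apply hu.comp (by fun_prop)
    intro s hs
    exact ⟨⟨by linarith [hs.2], by linarith [hs.1]⟩, mem_univ _⟩
  have hY0 : ∀ x, u (1 - (0 : ℝ), x) = 0 := by intro x; rw [sub_zero]; exact huT x
  -- the points x_ε
  set e : EuclideanSpace ℝ (Fin 1) := EuclideanSpace.single 0 1 with he
  have he0 : ∀ ε : ℝ, (ε • e) 0 = ε := by intro ε; simp [he]
  have hpos : ∀ ε : ℝ, 0 < ε → ε ≤ 1 → (1 / 4 : ℝ) ≤ u (1 / 2, ε • e) := by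
    intro ε h0 h1
    have := ode_lower (fun s => u (1 - s, ε • e)) ε h0 (hYc _) (hY0 _) (by
      intro s hs
      have := hYd (ε • e) s hs
      rwa [he0, min_eq_right h1, max_eq_right (by linarith)] at this) (1 / 2) ⟨by norm_num, le_rfl⟩
    norm_num at this ⊢
    exact this
  have hneg : ∀ ε : ℝ, ε < 0 → -1 ≤ ε → u (1 / 2, ε • e) ≤ -(1 / 4 : ℝ) := by
    intro ε h0 h1
    have := ode_upper (fun s => u (1 - s, ε • e)) ε h0 (hYc _) (hY0 _) (by
      intro s hs
      have := hYd (ε • e) s hs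
      rwa [he0, min_eq_right (by linarith), max_eq_right h1] at this) (1 / 2) ⟨by norm_num, le_rfl⟩
    norm_num at this ⊢
    exact this
  -- continuity in ε at 0
  have hcont : ContinuousAt (fun ε : ℝ => u (1 / 2, ε • e)) 0 := by
    have h1 : ContinuousOn (fun ε : ℝ => u (1 / 2, ε • e)) univ := by
      apply hu.comp (by fun_prop)
      intro ε _
      exact ⟨⟨by norm_num, by norm_num⟩, mem_univ _⟩
    exact (continuousOn_univ.1 h1).continuousAt
  have hlim1 : (1 / 4 : ℝ) ≤ u (1 / 2, (0 : ℝ) • e) := by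
    have h1 : Tendsto (fun ε : ℝ => u (1 / 2, ε • e)) (𝓝[>] 0) (𝓝 (u (1 / 2, (0 : ℝ) • e))) :=
      hcont.tendsto.mono_left nhdsWithin_le_nhds
    apply ge_of_tendsto h1
    filter_upwards [Ioo_mem_nhdsGT (zero_lt_one (α := ℝ))] with ε hε
    exact hpos ε hε.1 hε.2.le
  have hlim2 : u (1 / 2, (0 : ℝ) • e) ≤ -(1 / 4 : ℝ) := by
    have h1 : Tendsto (fun ε : ℝ => u (1 / 2, ε • e)) (𝓝[<] 0) (𝓝 (u (1 / 2, (0 : ℝ) • e))) :=
      hcont.tendsto.mono_left nhdsWithin_le_nhds
    apply le_of_tendsto h1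
    filter_upwards [Ioo_mem_nhdsLT (by norm_num : (-1 : ℝ) < 0)] with ε hε
    exact hneg ε hε.2 hε.1.le
  linarith

end Pool.Agent.S02840
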