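import Pool.Statements.S02845
import Pool.Agent.GapMahler

set_option autoImplicit false
open Pool Pool.MP_2df86a_an

namespace Pool.Agent.S02845

/-- Let f(z)=∑a_k z^{n_k} converge in the unit disc with n_{k+1} ≥ q·n_k, q>1, and T(r,f)→∞ as r→1. Then for every finite w, liminf over r→1 of m(r,w)/T(r,f) is 0, i.e. the Nevanlinna deficiency δ(w,f) vanishes. -/
theorem result :
    ∀ (a : ℕ → ℂ) (n : ℕ → ℕ) (q : ℝ), 1 < q → StrictMono n →
      (∀ k, q * (n k : ℝ) ≤ (n (k + 1) : ℝ)) →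
      (∀ z : ℂ, ‖z‖ < 1 → Summable (fun k => a k * z ^ (n k))) →
      Filter.Tendsto
        (fun r : ℝ => (2 * Real.pi)⁻¹ * ∫ θ in (0:ℝ)..(2 * Real.pi),
          max 0 (Real.log ‖∑' k, a k * (circleMap 0 r θ) ^ (n k)‖))
        (nhdsWithin 1 (Set.Iio 1)) Filter.atTop →
      ∀ w : ℂ, ∀ ε : ℝ, 0 < ε → ∀ r₀ : ℝ, r₀ < 1 →
        ∃ r : ℝ, r₀ < r ∧ r < 1 ∧
          (2 * Real.pi)⁻¹ * ∫ θ in (0:ℝ)..(2 * Real.pi),
              max 0 (Real.log (‖(∑' k, a k * (circleMap 0 r θ) ^ (n k)) - w‖⁻¹))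
            ≤ ε * ((2 * Real.pi)⁻¹ * ∫ θ in (0:ℝ)..(2 * Real.pi),
              max 0 (Real.log ‖∑' k, a k * (circleMap 0 r θ) ^ (n k)‖)) := by
  intro a n q hq hmono hn hsum hT w ε hε r₀ hr₀
  by_cases hex : ∃ k0, a k0 ≠ 0 ∧ 0 < n k0
  · obtain ⟨k0, ha, hnk0⟩ := hex
    obtain ⟨C, hC⟩ := Pool.Agent.GapMahler.proxBound' q hq n hmono hn a hsum k0 ha hnk0 w
    have h1 := hT.eventually_ge_atTop (C / ε)
    have h2 : ∀ᶠ r : ℝ in nhdsWithin 1 (Set.Iio 1), r < 1 := self_mem_nhdsWithin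
    have h3 : ∀ᶠ r : ℝ in nhdsWithin 1 (Set.Iio 1), max r₀ (1 / 2) < r := by
      apply Filter.Eventually.filter_mono nhdsWithin_le_nhds
      exact lt_mem_nhds (max_lt hr₀ (by norm_num))
    obtain ⟨r, hr1, hr2, hr3⟩ := (h1.and (h2.and h3)).exists
    have hr4 := (le_max_left r₀ (1 / 2)).trans_lt hr3
    have hr5 := (le_max_right r₀ (1 / 2)).trans_lt hr3
    refine ⟨r, hr4, hr2, (hC r hr5.le hr2).trans ?_⟩
    rw [div_le_iff₀ hε] at hr1
    linarith
  · exfalso
    push Not at hex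
    have hconst : ∀ z : ℂ, ∑' k, a k * z ^ (n k) = a 0 := by
      intro z
      rw [tsum_eq_single 0]
      · rcases Nat.eq_zero_or_pos (n 0) with h | h
        · rw [h]; simp
        · have : a 0 = 0 := by
            by_contra hcon
            have := hex 0 hcon
            omega
          rw [this]; simp
      · intro k hk
        have hpos : 0 < n k := lt_of_le_of_lt (Nat.zero_le (n 0)) (hmono (Nat.pos_of_ne_zero hk))
        have : a k = 0 := by
          by_contra hcon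
          have := hex k hcon
          omega
        rw [this]; simp
    simp only [hconst] at hT
    have h1 := hT.eventually_gt_atTop ((2 * Real.pi)⁻¹ * ∫ θ in (0:ℝ)..(2 * Real.pi),
          max 0 (Real.log ‖a 0‖))
    obtain ⟨r, hr⟩ := h1.exists
    exact lt_irrefl _ hr

end Pool.Agent.S02845
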