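/-
Negation of the statement: for every d > 0 there is a transcendental entire function f of order less
than d with liminf T(r,f)/T(r,f') > 1.

Outline of the proof.  The function f is the primitive of P vanishing at 0, where P is a canonical product
of order rho < d with zeros of very high multiplicity.  The zeros are arranged so that the field
P'/P of the other zeros at a given zero can be normalised; near such a zero the primitive of P
behaves like z^n exp(n z), and its minimum modulus basin gives a fixed gain of the proximity
function.  A multi-scale arrangement (a recursion in the total charge, whose gain per step comes from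
an antisymmetry and a triple identity of the Cauchy kernel) shows that the basins meet every circle
|z| = r while the total mass of the zeros involved is as small as one likes.
-/
import Pool.Statements.S02852
import Pool.Agent.Helper551.NevGlue1
import Pool.Agent.Helper551.NevFinal

set_option autoImplicit false
open Pool Pool.MP_2ed15d_an

namespace Pool.Agent.S02852

/-- The negation of the preceding statement: There is d>0 such that every transcendental entire f of order less than d satisfies T(r,f) ≤ (1+ε)T(r,f') for arbitrarily large r and every ε>0, i.e. liminf T(r,f)/T(r,f') ≤ 1, with T the Nevanlinna characteristic. -/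
theorem result :
    ¬ (∃ d : ℝ, 0 < d ∧
      ∀ f : ℂ → ℂ, Differentiable ℂ f →
        (¬ ∃ p : Polynomial ℂ, ∀ z : ℂ, f z = p.eval z) →
        (∃ σ : ℝ, σ < d ∧ ∃ C : ℝ, ∀ z : ℂ, ‖f z‖ ≤ Real.exp (C + ‖z‖ ^ σ)) →
        ∀ ε : ℝ, 0 < ε → ∀ R : ℝ, ∃ r : ℝ, R ≤ r ∧
          (1 / (2 * Real.pi)) *
              intervalIntegral (fun θ : ℝ => max 0 (Real.log ‖f (circleMap 0 r θ)‖))
                0 (2 * Real.pi) MeasureTheory.volume
            ≤ (1 + ε) * ((1 / (2 * Real.pi)) *
              intervalIntegral (fun θ : ℝ => max 0 (Real.log ‖deriv f (circleMap 0 r θ)‖))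
                0 (2 * Real.pi) MeasureTheory.volume)) := by
  rintro ⟨d, hd, H⟩
  obtain ⟨rho, hrho, hrhod, hrho1, ι, hι, a, ν, hZ⟩ := NevT.partII d hd
  obtain ⟨f, hf, hnp, hgrow, ε, hε, R, hR⟩ := NevT.partI hrho hrho1 a ν hZ
  obtain ⟨C, hC⟩ := hgrow ((rho + d) / 2) (by linarith)
  obtain ⟨r, hr, hle⟩ := H f hf hnp ⟨(rho + d) / 2, by linarith, C, hC⟩ ε hε R
  exact absurd hle (not_le.2 (hR r hr))

end Pool.Agent.S02852
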