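import Pool.Statements.S02854

set_option autoImplicit false
open MeasureTheory
open Pool Pool.MP_2ef13d_an

namespace Pool.Agent.S02854

/-- Entire functions of polynomial growth. -/
def PG (P : ℂ → ℂ) : Prop :=
  Differentiable ℂ P ∧ ∃ C : ℝ, 0 ≤ C ∧ ∃ d : ℕ, ∀ z, ‖P z‖ ≤ C * (1 + ‖z‖) ^ d

lemma one_add_pow_le_exp (d : ℕ) (a : ℝ) (ha : 0 < a) :
    ∃ K : ℝ, 0 ≤ K ∧ ∀ t : ℝ, 0 ≤ t → (1 + t) ^ d ≤ K * Real.exp (a * t) := by
  refine ⟨(d.factorial : ℝ) / a ^ d * Real.exp a, by positivity, fun t ht => ?_⟩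
  have h := Real.pow_div_factorial_le_exp (a * (1 + t)) (by positivity) d
  rw [div_le_iff₀ (by positivity), mul_pow] at h
  have h2 : (1 + t) ^ d ≤ Real.exp (a * (1 + t)) * d.factorial / a ^ d := by
    rw [le_div_iff₀ (by positivity)]
    linarith [mul_comm (a ^ d) ((1 + t) ^ d)]
  calc (1 + t) ^ d ≤ _ := h2
    _ = _ := by
      rw [show a * (1 + t) = a + a * t by ring, Real.exp_add]
      ring

lemma exp_sub_one_le (s : ℝ) (hs : 0 ≤ s) : Real.exp s - 1 ≤ s * Real.exp s := by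
  have h := Real.add_one_le_exp (-s)
  have h2 : Real.exp (-s) * Real.exp s = 1 := by
    rw [← Real.exp_add]; simp
  nlinarith [Real.exp_pos s]

lemma stepA (P : ℂ → ℂ) (hP : PG P) (J l N0 : ℕ) (ε : ℝ) (hε : 0 < ε) :
    ∃ N : ℕ, N0 ≤ N ∧ 1 ≤ N ∧ ∃ Q : ℂ → ℂ, PG Q ∧
      (∀ z, ‖Q z - P z‖ ≤ ε * Real.exp (ε * ‖z‖)) ∧
      ∀ j : ℤ, j ≠ 0 → |j| ≤ J → ∀ x : ℝ, |x - j * N| ≤ l → ‖Q x‖ ≤ ε := by
  obtain ⟨hPd, C, hC, d, hPC⟩ := hP
  set T : Finset ℤ := (Finset.Icc (-(J : ℤ)) J).erase 0 with hT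
  set m : ℕ := d + 1 with hm
  obtain ⟨K, hK, hKt⟩ := one_add_pow_le_exp d (ε / 2) (by positivity)
  set M : ℝ := (T.card : ℝ) * m with hM
  have hM0 : 0 ≤ M := by positivity
  set B : ℝ := 1 + J + l with hB
  have hB1 : 1 ≤ B := by
    have : (0 : ℝ) ≤ J := by positivity
    have : (0 : ℝ) ≤ l := by positivity
    linarith
  set C2 : ℝ := C * B ^ d * ((l : ℝ) * B ^ T.card) ^ m with hC2
  have hC20 : 0 ≤ C2 := by positivity
  obtain ⟨N1, hN1⟩ := exists_nat_ge (4 * M / ε + C * K * M * 4 / ε / ε + C2 / ε)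
  set N : ℕ := max N0 (max 1 N1) with hN
  have hN_1 : 1 ≤ N := le_trans (le_max_left _ _) (le_max_right _ _)
  have hNpos : (0 : ℝ) < N := by exact_mod_cast hN_1
  have hN1' : (1 : ℝ) ≤ N := by exact_mod_cast hN_1
  have hNN : (N1 : ℝ) ≤ N := by
    exact_mod_cast le_trans (le_max_right _ _) (le_max_right _ _)
  have e1 : 4 * M / ε ≤ N := by
    have h1 : 0 ≤ C * K * M * 4 / ε / ε := by positivity
    have h2 : 0 ≤ C2 / ε := by positivity
    linarith
  have e2 : C * K * M * 4 / ε / ε ≤ N := by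
    have h1 : 0 ≤ 4 * M / ε := by positivity
    have h2 : 0 ≤ C2 / ε := by positivity
    linarith
  have e3 : C2 / ε ≤ N := by
    have h1 : 0 ≤ 4 * M / ε := by positivity
    have h2 : 0 ≤ C * K * M * 4 / ε / ε := by positivity
    linarith
  set g : ℂ → ℂ := fun z => ∏ j ∈ T, (1 + (-(z / ((j : ℂ) * N)))) with hg
  set G : ℂ → ℂ := fun z => (g z) ^ m with hG
  have hgd : Differentiable ℂ g := by
    rw [hg]; fun_prop
  have hGd : Differentiable ℂ G := by
    rw [hG]; fun_prop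
  -- bound for G - 1
  have hfac : ∀ z : ℂ, ∀ j ∈ T, ‖z / ((j : ℂ) * N)‖ ≤ ‖z‖ / N := by
    intro z j hj
    have hj0 : j ≠ 0 := (Finset.mem_erase.mp hj).1
    have hj1 : (1 : ℝ) ≤ |(j : ℝ)| := by
      have : (1 : ℤ) ≤ |j| := Int.one_le_abs hj0
      exact_mod_cast this
    rw [norm_div, norm_mul]
    have : ‖(j : ℂ)‖ = |(j : ℝ)| := by
      rw [Complex.norm_intCast]
    rw [this]
    have h3 : ‖(N : ℂ)‖ = N := by simp
    rw [h3]
    apply div_le_div_of_nonneg_left (norm_nonneg _) hNpos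
    nlinarith
  have hG1 : ∀ z : ℂ, ‖G z - 1‖ ≤ Real.exp (M * (‖z‖ / N)) - 1 := by
    intro z
    have h1 : G z = ∏ p ∈ T ×ˢ Finset.range m, (1 + (-(z / ((p.1 : ℂ) * N)))) := by
      rw [Finset.prod_product]
      simp only [Finset.prod_const, Finset.card_range]
      rw [hG, hg, Finset.prod_pow]
    rw [h1]
    refine (Finset.norm_prod_one_add_sub_one_le _ _).trans ?_
    gcongr
    calc ∑ p ∈ T ×ˢ Finset.range m, ‖-(z / ((p.1 : ℂ) * N))‖
        ≤ ∑ p ∈ T ×ˢ Finset.range m, ‖z‖ / N := by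
          apply Finset.sum_le_sum
          intro p hp
          rw [norm_neg]
          exact hfac z p.1 (Finset.mem_product.mp hp).1
      _ = M * (‖z‖ / N) := by
          rw [Finset.sum_const, Finset.card_product, Finset.card_range, nsmul_eq_mul, hM]
          push_cast
          ring
  refine ⟨N, le_max_left _ _, hN_1, fun z => P z * G z, ⟨?_, ?_⟩, ?_, ?_⟩
  · exact hPd.mul hGd
  · -- polynomial growth
    refine ⟨C, hC, d + T.card * m, fun z => ?_⟩
    rw [norm_mul]
    have h1 : ‖G z‖ ≤ (1 + ‖z‖) ^ (T.card * m) := by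
      rw [hG, hg]
      simp only
      rw [norm_pow, Finset.prod_congr rfl (fun _ _ => rfl), pow_mul]
      gcongr
      rw [Finset.prod_congr rfl (fun _ _ => rfl), norm_prod]
      calc ∏ j ∈ T, ‖1 + (-(z / ((j : ℂ) * N)))‖ ≤ ∏ j ∈ T, (1 + ‖z‖) := by
            apply Finset.prod_le_prod
            · intro i _; exact norm_nonneg _
            · intro j hj
              refine (norm_add_le _ _).trans ?_
              rw [norm_one, norm_neg]
              have := hfac z j hj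
              have h5 : ‖z‖ / N ≤ ‖z‖ := div_le_self (norm_nonneg _) hN1'
              linarith
        _ = (1 + ‖z‖) ^ T.card := by rw [Finset.prod_const]
    calc ‖P z‖ * ‖G z‖ ≤ (C * (1 + ‖z‖) ^ d) * (1 + ‖z‖) ^ (T.card * m) := by
          gcongr
          exact hPC z
      _ = C * (1 + ‖z‖) ^ (d + T.card * m) := by rw [pow_add]; ring
  · intro z
    have hz0 : 0 ≤ ‖z‖ := norm_nonneg z
    have h1 : P z * G z - P z = P z * (G z - 1) := by ring
    rw [h1, norm_mul]
    have h2 : ‖P z‖ ≤ C * K * Real.exp (ε / 2 * ‖z‖) := by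
      calc ‖P z‖ ≤ C * (1 + ‖z‖) ^ d := hPC z
        _ ≤ C * (K * Real.exp (ε / 2 * ‖z‖)) := by
            gcongr
            exact hKt _ hz0
        _ = _ := by ring
    have hs0 : 0 ≤ M * (‖z‖ / N) := by positivity
    have hMN : M / N ≤ ε / 4 := by
      rw [div_le_iff₀ hNpos]
      rw [div_le_iff₀ hε] at e1
      linarith
    have h3 : ‖G z - 1‖ ≤ (M / N) * ‖z‖ * Real.exp (ε / 4 * ‖z‖) := by
      calc ‖G z - 1‖ ≤ Real.exp (M * (‖z‖ / N)) - 1 := hG1 z
        _ ≤ (M * (‖z‖ / N)) * Real.exp (M * (‖z‖ / N)) := exp_sub_one_le _ hs0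
        _ ≤ (M / N * ‖z‖) * Real.exp (ε / 4 * ‖z‖) := by
            have h4 : M * (‖z‖ / N) = M / N * ‖z‖ := by ring
            rw [h4]
            gcongr
    have h4 : ‖z‖ ≤ 4 / ε * Real.exp (ε / 4 * ‖z‖) := by
      have h5 := Real.add_one_le_exp (ε / 4 * ‖z‖)
      have h6 : ε / 4 * ‖z‖ ≤ Real.exp (ε / 4 * ‖z‖) := by linarith
      calc ‖z‖ = 4 / ε * (ε / 4 * ‖z‖) := by field_simp
        _ ≤ _ := by gcongr
    have hCKM : C * K * (M / N) * (4 / ε) ≤ ε := by
      rw [div_div, div_le_iff₀ (by positivity)] at e2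
      have : C * K * (M / N) * (4 / ε) = C * K * M * 4 / (N * ε) := by
        field_simp
      rw [this, div_le_iff₀ (by positivity)]
      nlinarith
    calc ‖P z‖ * ‖G z - 1‖
        ≤ (C * K * Real.exp (ε / 2 * ‖z‖)) * ((M / N) * ‖z‖ * Real.exp (ε / 4 * ‖z‖)) := by
          gcongr
      _ ≤ (C * K * Real.exp (ε / 2 * ‖z‖)) *
            ((M / N) * (4 / ε * Real.exp (ε / 4 * ‖z‖)) * Real.exp (ε / 4 * ‖z‖)) := by
          gcongr
      _ = (C * K * (M / N) * (4 / ε)) *
            (Real.exp (ε / 2 * ‖z‖) * Real.exp (ε / 4 * ‖z‖) * Real.exp (ε / 4 * ‖z‖)) := by ring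
      _ = (C * K * (M / N) * (4 / ε)) * Real.exp (ε * ‖z‖) := by
          rw [← Real.exp_add, ← Real.exp_add]
          congr 2
          ring
      _ ≤ ε * Real.exp (ε * ‖z‖) := by gcongr
  · intro j hj0 hjJ x hx
    have hjT : j ∈ T := by
      rw [hT, Finset.mem_erase, Finset.mem_Icc]
      exact ⟨hj0, abs_le.mp hjJ⟩
    have hjJ' : |(j : ℝ)| ≤ J := by exact_mod_cast hjJ
    have hj1 : (1 : ℝ) ≤ |(j : ℝ)| := by
      have : (1 : ℤ) ≤ |j| := Int.one_le_abs hj0
      exact_mod_cast this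
    have hxabs : |x| ≤ J * N + l := by
      have h1 : |x| ≤ |x - j * N| + |(j : ℝ) * N| := by
        have := abs_add_le (x - j * N) (j * N)
        simpa using this
      have h2 : |(j : ℝ) * N| ≤ J * N := by
        rw [abs_mul, abs_of_pos hNpos]
        gcongr
      linarith
    have hl0 : (0 : ℝ) ≤ l := by positivity
    have hJ0 : (0 : ℝ) ≤ J := by positivity
    rw [norm_mul]
    have hP1 : ‖P x‖ ≤ C * (B * N) ^ d := by
      refine (hPC x).trans ?_
      gcongr
      rw [Complex.norm_real, Real.norm_eq_abs]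
      rw [hB]
      nlinarith
    have hgx : ‖g x‖ ≤ (l / N) * B ^ T.card := by
      rw [hg]
      simp only
      rw [norm_prod, ← Finset.mul_prod_erase T _ hjT]
      have ha : ‖1 + (-((x : ℂ) / ((j : ℂ) * N)))‖ ≤ l / N := by
        have h1 : 1 + (-((x : ℂ) / ((j : ℂ) * N))) = (((j * N - x) / (j * N) : ℝ) : ℂ) := by
          push_cast
          have : (j : ℂ) ≠ 0 := by exact_mod_cast hj0
          have : (N : ℂ) ≠ 0 := by exact_mod_cast hNpos.ne'
          field_simp
          ring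
        rw [h1, Complex.norm_real, Real.norm_eq_abs, abs_div, abs_sub_comm, abs_mul,
          abs_of_pos hNpos]
        rw [div_le_div_iff₀ (by positivity) hNpos]
        have : |x - j * N| * N ≤ l * N := by gcongr
        have h2 : (l : ℝ) * N ≤ l * (|(j : ℝ)| * N) := by
          have : (N : ℝ) ≤ |(j : ℝ)| * N := by nlinarith
          gcongr
        linarith
      have hb : ∏ i ∈ T.erase j, ‖1 + (-((x : ℂ) / ((i : ℂ) * N)))‖ ≤ B ^ T.card := by
        calc ∏ i ∈ T.erase j, ‖1 + (-((x : ℂ) / ((i : ℂ) * N)))‖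
            ≤ ∏ i ∈ T.erase j, B := by
              apply Finset.prod_le_prod
              · intro i _; exact norm_nonneg _
              · intro i hi
                refine (norm_add_le _ _).trans ?_
                rw [norm_one, norm_neg]
                have h7 := hfac x i (Finset.mem_of_mem_erase hi)
                have h8 : ‖(x : ℂ)‖ / N ≤ J + l := by
                  rw [div_le_iff₀ hNpos, Complex.norm_real, Real.norm_eq_abs]
                  nlinarith
                rw [hB]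
                linarith
          _ = B ^ (T.erase j).card := by rw [Finset.prod_const]
          _ ≤ B ^ T.card := by
              apply pow_le_pow_right₀ hB1
              exact Finset.card_le_card (Finset.erase_subset _ _)
      gcongr
    have hGx : ‖G x‖ ≤ ((l / N) * B ^ T.card) ^ m := by
      rw [hG]
      simp only
      rw [norm_pow]
      gcongr
    calc ‖P x‖ * ‖G x‖ ≤ (C * (B * N) ^ d) * ((l / N) * B ^ T.card) ^ m := by gcongr
      _ = C2 * ((N : ℝ) ^ d / (N : ℝ) ^ m) := by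
          rw [hC2]
          rw [show (l : ℝ) / N * B ^ T.card = (l * B ^ T.card) / N by ring, div_pow, mul_pow B]
          ring
      _ = C2 / N := by
          rw [hm, pow_succ]
          have : (N : ℝ) ^ d ≠ 0 := by positivity
          field_simp
      _ ≤ ε := by
          rw [div_le_iff₀ hNpos]
          rw [div_le_iff₀ hε] at e3
          linarith

lemma exists_F : ∃ F : ℂ → ℂ, Differentiable ℂ F ∧
    (∀ ε : ℝ, 0 < ε → ∃ C : ℝ, ∀ z : ℂ, ‖F z‖ ≤ C * Real.exp (ε * ‖z‖)) ∧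
    (∀ z : ℂ, ‖z‖ ≤ 1 → ‖F z - 1‖ ≤ 1 / 10) ∧
    ∀ (J l N0 : ℕ) (κ : ℝ), 0 < κ → ∃ N : ℕ, N0 ≤ N ∧ 1 ≤ N ∧
      ∀ j : ℤ, j ≠ 0 → |j| ≤ J → ∀ x : ℝ, |x - j * N| ≤ l → ‖F x‖ ≤ κ := by
  -- the recursion
  let S := {p : (ℂ → ℂ) × ℕ × ℝ // PG p.1 ∧ 0 < p.2.2}
  let R : ℕ → S → S → Prop := fun k s s' =>
    s'.1.2.2 ≤ s.1.2.2 / 2 ∧ s'.1.2.2 ≤ 1 / ((k + 1 : ℝ) * (s.1.2.1 + 1)) ∧
    k + 1 ≤ s'.1.2.1 ∧
    (∀ z, ‖s'.1.1 z - s.1.1 z‖ ≤ s'.1.2.2 * Real.exp (s'.1.2.2 * ‖z‖)) ∧
    ∀ j : ℤ, j ≠ 0 → |j| ≤ (k + 1 : ℕ) → ∀ x : ℝ, |x - j * s'.1.2.1| ≤ (k + 1 : ℕ) →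
      ‖s'.1.1 x‖ ≤ s'.1.2.2
  have hstep : ∀ (k : ℕ) (s : S), ∃ s' : S, R k s s' := by
    intro k s
    have hε' : 0 < min (s.1.2.2 / 2) (1 / ((k + 1 : ℝ) * (s.1.2.1 + 1))) := by
      have := s.2.2
      apply lt_min
      · linarith
      · positivity
    obtain ⟨N, hN0, hN1, Q, hQ, hQ1, hQ2⟩ := stepA s.1.1 s.2.1 (k + 1) (k + 1) (k + 1) _ hε'
    exact ⟨⟨(Q, N, _), hQ, hε'⟩, min_le_left _ _, min_le_right _ _, hN0, hQ1, hQ2⟩
  choose next hnext using hstep
  have hPG1 : PG (fun _ => (1 : ℂ)) :=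
    ⟨differentiable_const _, 1, zero_le_one, 0, fun z => by simp⟩
  let s0 : S := ⟨((fun _ => (1 : ℂ)), 1, 1 / 40), hPG1, by norm_num⟩
  let u : ℕ → S := fun n => Nat.rec s0 (fun k s => next k s) n
  have hu : ∀ k, R k (u k) (u (k + 1)) := fun k => hnext k (u k)
  set P : ℕ → ℂ → ℂ := fun k => (u k).1.1 with hPdef
  set N : ℕ → ℕ := fun k => (u k).1.2.1 with hNdef
  set e : ℕ → ℝ := fun k => (u k).1.2.2 with hedef
  have hP0 : ∀ z, P 0 z = 1 := fun z => rfl
  have he0 : e 0 = 1 / 40 := rfl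
  have hepos : ∀ k, 0 < e k := fun k => (u k).2.2
  have hPPG : ∀ k, PG (P k) := fun k => (u k).2.1
  have hehalf : ∀ k, e (k + 1) ≤ e k / 2 := fun k => (hu k).1
  have heN : ∀ k, e (k + 1) ≤ 1 / ((k + 1 : ℝ) * (N k + 1)) := fun k => (hu k).2.1
  have hNk : ∀ k, k + 1 ≤ N (k + 1) := fun k => (hu k).2.2.1
  have hdiff : ∀ k z, ‖P (k + 1) z - P k z‖ ≤ e (k + 1) * Real.exp (e (k + 1) * ‖z‖) :=
    fun k => (hu k).2.2.2.1
  have hsmall : ∀ k, ∀ j : ℤ, j ≠ 0 → |j| ≤ (k + 1 : ℕ) → ∀ x : ℝ,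
      |x - j * N (k + 1)| ≤ (k + 1 : ℕ) → ‖P (k + 1) x‖ ≤ e (k + 1) :=
    fun k => (hu k).2.2.2.2
  clear_value P N e
  clear hu hnext
  have hepow : ∀ k i, e (k + i) ≤ e k / 2 ^ i := by
    intro k i
    induction i with
    | zero => simp
    | succ i ih =>
      calc e (k + (i + 1)) ≤ e (k + i) / 2 := hehalf (k + i)
        _ ≤ (e k / 2 ^ i) / 2 := by gcongr
        _ = e k / 2 ^ (i + 1) := by rw [pow_succ]; field_simp
  have heanti : ∀ k i, e (k + i) ≤ e k := by
    intro k i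
    refine (hepow k i).trans (div_le_self (hepos k).le ?_)
    exact one_le_pow₀ (by norm_num)
  set d : ℕ → ℂ → ℂ := fun k z => P (k + 1) z - P k z with hd
  have hdk : ∀ k i z, ‖d (k + i) z‖ ≤ e k / 2 / 2 ^ i * Real.exp (e (k + 1) * ‖z‖) := by
    intro k i z
    refine (hdiff (k + i) z).trans ?_
    have h1 : e (k + i + 1) ≤ e k / 2 / 2 ^ i := by
      have := hepow k (i + 1)
      calc e (k + i + 1) = e (k + (i + 1)) := by rw [add_assoc]
        _ ≤ e k / 2 ^ (i + 1) := this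
        _ = e k / 2 / 2 ^ i := by rw [pow_succ]; field_simp
    have h2 : e (k + i + 1) ≤ e (k + 1) := by
      have := heanti (k + 1) i
      rwa [show k + 1 + i = k + i + 1 by ring] at this
    have h3 := (hepos k).le
    have h4 := (hepos (k + i + 1)).le
    gcongr
  have hsum : ∀ k z, Summable (fun i => d (k + i) z) := by
    intro k z
    refine Summable.of_norm_bounded (g := fun i => e k / 2 / 2 ^ i * Real.exp (e (k + 1) * ‖z‖)) ?_
      (fun i => hdk k i z)
    exact (summable_geometric_two' (e k)).mul_right _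
  set F : ℂ → ℂ := fun z => 1 + ∑' k, d k z with hF
  have hFP : ∀ k z, F z - P k z = ∑' i, d (k + i) z := by
    intro k z
    have hs0 : Summable (fun i => d i z) := by simpa using hsum 0 z
    have h1 := hs0.sum_add_tsum_nat_add k
    have h2 : ∑ i ∈ Finset.range k, d i z = P k z - P 0 z := by
      rw [hd]; exact Finset.sum_range_sub (fun i => P i z) k
    rw [h2, hP0] at h1
    rw [hF]
    simp only
    rw [← h1]
    have h3 : ∑' i, d (i + k) z = ∑' i, d (k + i) z := by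
      congr 1; ext i; rw [add_comm]
    rw [h3]; ring
  have hFPn : ∀ k z, ‖F z - P k z‖ ≤ e k * Real.exp (e (k + 1) * ‖z‖) := by
    intro k z
    rw [hFP]
    refine tsum_of_norm_bounded (g := fun i => e k / 2 / 2 ^ i * Real.exp (e (k + 1) * ‖z‖)) ?_
      (fun i => hdk k i z)
    exact (hasSum_geometric_two' (e k)).mul_right _
  have heto : ∀ κ : ℝ, 0 < κ → ∃ k0 : ℕ, ∀ k, k0 ≤ k → e k ≤ κ := by
    intro κ hκ
    obtain ⟨n, hn⟩ := exists_pow_lt_of_lt_one hκ (by norm_num : (1 / 2 : ℝ) < 1)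
    refine ⟨n, fun k hk => ?_⟩
    have h1 : e n ≤ (1 / 2) ^ n := by
      have := hepow 0 n
      rw [zero_add, he0] at this
      refine this.trans ?_
      rw [one_div_pow]
      gcongr
      norm_num
    have h2 : e k ≤ e n := by
      have := heanti n (k - n)
      rwa [Nat.add_sub_cancel' hk] at this
    linarith
  refine ⟨F, ?_, ?_, ?_, ?_⟩
  · -- differentiable
    intro z0
    have hU : DifferentiableOn ℂ (fun z => ∑' k, d k z) (Metric.ball 0 (‖z0‖ + 1)) := by
      refine Complex.differentiableOn_tsum_of_summable_norm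
        (u := fun i => e 0 / 2 / 2 ^ i * Real.exp (e 1 * (‖z0‖ + 1))) ?_ ?_ Metric.isOpen_ball ?_
      · exact (summable_geometric_two' (e 0)).mul_right _
      · intro k
        exact ((hPPG (k + 1)).1.sub (hPPG k).1).differentiableOn
      · intro i w hw
        have h1 := hdk 0 i w
        rw [zero_add, zero_add] at h1
        refine h1.trans ?_
        have h3 := (hepos 0).le
        have h4 := (hepos 1).le
        have h5 : ‖w‖ ≤ ‖z0‖ + 1 := by
          rw [mem_ball_zero_iff] at hw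
          exact hw.le
        gcongr
    have h1 : DifferentiableAt ℂ (fun z => ∑' k, d k z) z0 := by
      apply hU.differentiableAt
      apply Metric.isOpen_ball.mem_nhds
      rw [mem_ball_zero_iff]
      linarith
    exact (differentiableAt_const _).add h1
  · intro ε hε
    obtain ⟨k, hk⟩ := heto ε hε
    have hk1 : e (k + 1) ≤ ε := hk (k + 1) (by omega)
    obtain ⟨_, C, hC, n, hPC⟩ := hPPG k
    obtain ⟨K, hK, hKt⟩ := one_add_pow_le_exp n ε hε
    refine ⟨C * K + e k, fun z => ?_⟩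
    have h1 : ‖F z‖ ≤ ‖P k z‖ + ‖F z - P k z‖ := by
      have := norm_add_le (P k z) (F z - P k z)
      simpa using this
    have h2 : ‖P k z‖ ≤ C * K * Real.exp (ε * ‖z‖) := by
      refine (hPC z).trans ?_
      have := hKt ‖z‖ (norm_nonneg z)
      calc C * (1 + ‖z‖) ^ n ≤ C * (K * Real.exp (ε * ‖z‖)) := by gcongr
        _ = _ := by ring
    have h3 : ‖F z - P k z‖ ≤ e k * Real.exp (ε * ‖z‖) := by
      refine (hFPn k z).trans ?_
      have := (hepos k).le
      gcongr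
    calc ‖F z‖ ≤ _ := h1
      _ ≤ C * K * Real.exp (ε * ‖z‖) + e k * Real.exp (ε * ‖z‖) := add_le_add h2 h3
      _ = _ := by ring
  · intro z hz
    have h1 := hFPn 0 z
    rw [hP0, he0, zero_add] at h1
    refine h1.trans ?_
    have h2 : e 1 * ‖z‖ ≤ 1 := by
      have h3 : e 1 ≤ 1 := by
        have := hehalf 0
        rw [he0, zero_add] at this
        linarith
      have h4 := hepos 1
      have h5 := norm_nonneg z
      nlinarith
    have h3 : Real.exp (e 1 * ‖z‖) ≤ Real.exp 1 := Real.exp_le_exp.mpr h2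
    have h4 := Real.exp_one_lt_d9
    linarith
  · intro J l N0 κ hκ
    obtain ⟨k1, hk1⟩ := heto (κ / 4) (by positivity)
    set k := max k1 (max J (max l N0)) with hk
    have hkJ : J ≤ k + 1 := by omega
    have hkl : l ≤ k + 1 := by omega
    have hkN : N0 ≤ k + 1 := by omega
    refine ⟨N (k + 1), hkN.trans (hNk k), le_trans (by omega) (hNk k), ?_⟩
    intro j hj hjJ x hx
    have hjJ' : |j| ≤ (k + 1 : ℕ) := hjJ.trans (by exact_mod_cast hkJ)
    have hx' : |x - j * N (k + 1)| ≤ (k + 1 : ℕ) := hx.trans (by exact_mod_cast hkl)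
    have h1 := hsmall k j hj hjJ' x hx'
    have h2 := hFPn (k + 1) x
    have h3 : e (k + 1) ≤ κ / 4 := hk1 (k + 1) (by omega)
    have hNpos : (0 : ℝ) < N (k + 1) := by
      have := hNk k
      have : 0 < N (k + 1) := by omega
      exact_mod_cast this
    have h4 : ‖(x : ℂ)‖ ≤ ((k + 1 : ℕ) + 1 : ℝ) * (N (k + 1) + 1) := by
      rw [Complex.norm_real, Real.norm_eq_abs]
      have h5 : |x| ≤ |x - j * N (k + 1)| + |(j : ℝ) * N (k + 1)| := by
        have := abs_add_le (x - j * N (k + 1)) (j * N (k + 1))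
        simpa using this
      have h6 : |(j : ℝ) * N (k + 1)| ≤ (k + 1 : ℕ) * N (k + 1) := by
        rw [abs_mul, abs_of_pos hNpos]
        gcongr
        exact_mod_cast hjJ'
      have h7 : (0 : ℝ) ≤ ((k + 1 : ℕ) : ℝ) := by positivity
      nlinarith
    have h5 : e (k + 1 + 1) * ‖(x : ℂ)‖ ≤ 1 := by
      have h6 := heN (k + 1)
      have h7 : (0 : ℝ) < ((k + 1 : ℕ) + 1 : ℝ) * (N (k + 1) + 1) := by positivity
      calc e (k + 1 + 1) * ‖(x : ℂ)‖
          ≤ (1 / (((k + 1 : ℕ) + 1 : ℝ) * (N (k + 1) + 1))) *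
              (((k + 1 : ℕ) + 1 : ℝ) * (N (k + 1) + 1)) := by
            apply mul_le_mul h6 h4 (norm_nonneg _)
            positivity
        _ = 1 := by field_simp
    have h6 : Real.exp (e (k + 1 + 1) * ‖(x : ℂ)‖) ≤ 3 := by
      have := Real.exp_one_lt_d9
      have := Real.exp_le_exp.mpr h5
      linarith
    have h7 : ‖F x‖ ≤ ‖P (k + 1) x‖ + ‖F x - P (k + 1) x‖ := by
      have := norm_add_le (P (k + 1) x) (F x - P (k + 1) x)
      simpa using this
    have h8 := hepos (k + 1)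
    have h9 : e (k + 1) * Real.exp (e (k + 1 + 1) * ‖(x : ℂ)‖) ≤ e (k + 1) * 3 := by gcongr
    linarith

/-- the character `exp (-2 pi i n ξ)` -/
noncomputable def ee (n : ℤ) (ξ : ℝ) : ℂ := Complex.exp (((-2 * Real.pi * n * ξ : ℝ) : ℂ) * Complex.I)

lemma ee_fourier (n : ℤ) (ξ : ℝ) : ee n ξ = fourier (T := 1) n ((-ξ : ℝ) : AddCircle (1 : ℝ)) := by
  rw [ee, fourier_coe_apply]
  congr 1
  push_cast
  ring

lemma tent0 (δ : ℝ) (hδ : 0 < δ) : ∃ d : ℤ → ℂ, Summable (fun j => ‖d j‖) ∧ d 0 = 1 ∧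
    ∀ t : ℝ, (∀ n : ℤ, δ ≤ |t - n|) → HasSum (fun j => d j * ee j t) 0 := by
  set c : ℂ := 1 / (2 * (Real.pi : ℂ) ^ 2 * (δ : ℂ) ^ 2) with hc
  refine ⟨fun j => (if j = 0 then 1 else 0) + c * (1 / (j : ℂ) ^ 2) *
    (1 - (fourier (T := 1) j ((δ : ℝ) : AddCircle (1 : ℝ)) +
      fourier (T := 1) j ((-δ : ℝ) : AddCircle (1 : ℝ))) / 2), ?_, ?_, ?_⟩
  · -- summability
    have h1 : Summable (fun j : ℤ => (if j = 0 then (1 : ℝ) else 0) + ‖c‖ * (1 / (j : ℝ) ^ 2) * 2) := by
      apply Summable.add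
      · apply summable_of_hasFiniteSupport
        apply (Set.finite_singleton (0 : ℤ)).subset
        intro j hj
        by_contra h
        apply hj
        simp only [Set.mem_singleton_iff] at h
        simp [h]
      · exact ((Real.summable_one_div_int_pow.mpr (by norm_num)).mul_left _).mul_right _
    refine Summable.of_nonneg_of_le (fun _ => norm_nonneg _) (fun j => ?_) h1
    refine (norm_add_le _ _).trans ?_
    apply add_le_add
    · split_ifs <;> simp
    · rw [norm_mul, norm_mul]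
      have h2 : ‖1 / (j : ℂ) ^ 2‖ = 1 / (j : ℝ) ^ 2 := by
        rw [norm_div, norm_one, norm_pow, Complex.norm_intCast, sq_abs]
      rw [h2]
      have h3 : ‖(1 : ℂ) - (fourier (T := 1) j ((δ : ℝ) : AddCircle (1 : ℝ)) +
          fourier (T := 1) j ((-δ : ℝ) : AddCircle (1 : ℝ))) / 2‖ ≤ 2 := by
        refine (norm_sub_le _ _).trans ?_
        rw [norm_one, norm_div]
        have h4 : ‖(fourier (T := 1) j ((δ : ℝ) : AddCircle (1 : ℝ)) +
          fourier (T := 1) j ((-δ : ℝ) : AddCircle (1 : ℝ)))‖ ≤ 2 := by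
          refine (norm_add_le _ _).trans ?_
          have h5 : ∀ x : AddCircle (1 : ℝ), ‖fourier (T := 1) j x‖ = 1 := by
            intro x
            rw [fourier_apply]
            exact Circle.norm_coe _
          rw [h5, h5]
          norm_num
        have h6 : ‖(2 : ℂ)‖ = 2 := by norm_num
        rw [h6]
        linarith
      gcongr
  · simp
  · intro t ht
    set y : ℝ := Int.fract (-t) with hy
    have hycoe : ((y : ℝ) : AddCircle (1 : ℝ)) = ((-t : ℝ) : AddCircle (1 : ℝ)) := by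
      have h0 : (((⌊-t⌋ : ℤ) : ℝ) : AddCircle (1 : ℝ)) = 0 :=
        (AddCircle.coe_eq_zero_iff (1 : ℝ)).mpr ⟨⌊-t⌋, by simp⟩
      rw [hy, Int.fract, AddCircle.coe_sub, h0, sub_zero]
    have hy0 : δ ≤ y := by
      have h1 := ht (-⌊-t⌋)
      have h2 : t - ((-⌊-t⌋ : ℤ) : ℝ) = -y := by
        rw [hy, Int.fract]; push_cast; ring
      rw [h2, abs_neg, abs_of_nonneg (Int.fract_nonneg _)] at h1
      exact h1
    have hy1 : y ≤ 1 - δ := by
      have h1 := ht (-⌊-t⌋ - 1)
      have h2 : t - ((-⌊-t⌋ - 1 : ℤ) : ℝ) = 1 - y := by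
        rw [hy, Int.fract]; push_cast; ring
      rw [h2, abs_of_nonneg (by linarith [Int.fract_lt_one (-t)])] at h1
      linarith
    have S0 := hasSum_one_div_pow_mul_fourier_mul_bernoulliFun (k := 2) le_rfl (x := y)
      ⟨by linarith, by linarith⟩
    have S1 := hasSum_one_div_pow_mul_fourier_mul_bernoulliFun (k := 2) le_rfl (x := y + δ)
      ⟨by linarith, by linarith⟩
    have S2 := hasSum_one_div_pow_mul_fourier_mul_bernoulliFun (k := 2) le_rfl (x := y - δ)
      ⟨by linarith, by linarith⟩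
    have S3 := (S0.sub ((S1.add S2).mul_right (1 / 2))).mul_left c
    have S4 : HasSum (fun j : ℤ => (if j = 0 then (1 : ℂ) else 0)) 1 := hasSum_ite_eq 0 1
    have S5 := S4.add S3
    convert S5 using 1
    · ext j
      rw [ee_fourier, ← hycoe]
      have h1 : (fourier (T := 1) j ((y + δ : ℝ) : AddCircle (1 : ℝ))) =
          fourier (T := 1) j ((y : ℝ) : AddCircle (1 : ℝ)) *
            fourier (T := 1) j ((δ : ℝ) : AddCircle (1 : ℝ)) := by
        rw [fourier_coe_apply, fourier_coe_apply, fourier_coe_apply, ← Complex.exp_add]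
        congr 1
        push_cast
        ring
      have h2 : (fourier (T := 1) j ((y - δ : ℝ) : AddCircle (1 : ℝ))) =
          fourier (T := 1) j ((y : ℝ) : AddCircle (1 : ℝ)) *
            fourier (T := 1) j ((-δ : ℝ) : AddCircle (1 : ℝ)) := by
        rw [fourier_coe_apply, fourier_coe_apply, fourier_coe_apply, ← Complex.exp_add]
        congr 1
        push_cast
        ring
      rw [h1, h2]
      by_cases hj : j = 0
      · subst hj
        simp
      · simp only [if_neg hj]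
        ring
    · rw [bernoulliFun_two, bernoulliFun_two, bernoulliFun_two, hc]
      have hpi : (Real.pi : ℂ) ≠ 0 := by exact_mod_cast Real.pi_ne_zero
      have hδ' : (δ : ℂ) ≠ 0 := by exact_mod_cast hδ.ne'
      simp only [Nat.factorial]
      push_cast
      rw [mul_pow, mul_pow, Complex.I_sq]
      field_simp
      ring

/-- the kernel `exp (-2 pi i x ξ)` -/
noncomputable def kk (x ξ : ℝ) : ℂ := Complex.exp (((-2 * Real.pi * x * ξ : ℝ) : ℂ) * Complex.I)

lemma kk_norm (x ξ : ℝ) : ‖kk x ξ‖ = 1 := by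
  rw [kk, Complex.norm_exp_ofReal_mul_I]

lemma kk_add (x y ξ : ℝ) : kk (x + y) ξ = kk x ξ * kk y ξ := by
  rw [kk, kk, kk, ← Complex.exp_add]
  congr 1
  push_cast
  ring

lemma kk_mul (x y ξ : ℝ) : kk (x * y) ξ = kk x (y * ξ) := by
  rw [kk, kk]
  congr 2
  push_cast
  ring

lemma kk_cont : Continuous (fun p : ℝ × ℝ => kk p.1 p.2) := by
  unfold kk
  fun_prop

lemma tent (δ : ℝ) (hδ : 0 < δ) : ∃ d : ℤ → ℂ, Summable (fun j => ‖d j‖) ∧ d 0 = 1 ∧
    ∀ t : ℝ, (∀ n : ℤ, δ ≤ |t - n|) → HasSum (fun j : ℤ => d j * kk j t) 0 := by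
  obtain ⟨d, h1, h2, h3⟩ := tent0 δ hδ
  exact ⟨d, h1, h2, h3⟩

/-- indicator of `[n, n+1)` -/
noncomputable def chi (n : ℤ) : ℝ → ℂ := (Set.Ico (n : ℝ) (n + 1)).indicator (fun _ => 1)

/-- real indicator of `[n, n+1)` -/
noncomputable def chr (n : ℤ) : ℝ → ℝ := (Set.Ico (n : ℝ) (n + 1)).indicator (fun _ => 1)

lemma chi_meas (n : ℤ) : Measurable (chi n) := measurable_const.indicator measurableSet_Ico

lemma chr_int (n : ℤ) : Integrable (chr n) := by
  unfold chr
  rw [integrable_indicator_iff measurableSet_Ico]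
  simp

lemma chr_integral (n : ℤ) : ∫ x, chr n x = 1 := by
  unfold chr
  rw [integral_indicator measurableSet_Ico]
  simp

lemma chr_le (n : ℤ) (x : ℝ) : chr n x ≤ 1 := by
  unfold chr
  by_cases h : x ∈ Set.Ico (n : ℝ) (n + 1) <;> simp [h]

lemma chr_nonneg (n : ℤ) (x : ℝ) : 0 ≤ chr n x := by
  unfold chr
  by_cases h : x ∈ Set.Ico (n : ℝ) (n + 1) <;> simp [h]

lemma combo {ι : Type*} (I : Finset ι) (a : ι → ℂ) (π : ι → ℤ) (G : ℝ → ℂ) (hG : Continuous G)
    (κ : ℝ) (hκ : 0 ≤ κ) (hGκ : ∀ i ∈ I, ∀ x : ℝ, x ∈ Set.Ico (π i : ℝ) (π i + 1) → ‖G x‖ ≤ κ) :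
    (∀ x, ‖G x * ∑ i ∈ I, a i * chi (π i) x‖ ≤ κ * ∑ i ∈ I, ‖a i‖) ∧
    Integrable (fun x => G x * ∑ i ∈ I, a i * chi (π i) x) ∧
    ∫ x, ‖G x * ∑ i ∈ I, a i * chi (π i) x‖ ≤ κ * ∑ i ∈ I, ‖a i‖ := by
  have hpt : ∀ x, ‖G x * ∑ i ∈ I, a i * chi (π i) x‖ ≤ ∑ i ∈ I, κ * ‖a i‖ * chr (π i) x := by
    intro x
    rw [Finset.mul_sum]
    refine (norm_sum_le _ _).trans (Finset.sum_le_sum fun i hi => ?_)
    rw [norm_mul, norm_mul]
    by_cases h : x ∈ Set.Ico (π i : ℝ) (π i + 1)
    · have h1 := hGκ i hi x h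
      have h2 : chi (π i) x = 1 := by simp [chi, Set.indicator_of_mem h]
      have h3 : chr (π i) x = 1 := by simp [chr, Set.indicator_of_mem h]
      rw [h2, h3, norm_one]
      nlinarith [norm_nonneg (a i)]
    · have h2 : chi (π i) x = 0 := by simp [chi, Set.indicator_of_notMem h]
      have h3 : chr (π i) x = 0 := by simp [chr, Set.indicator_of_notMem h]
      rw [h2, h3]
      simp
  have hint : Integrable (fun x => ∑ i ∈ I, κ * ‖a i‖ * chr (π i) x) :=
    integrable_finsetSum _ (fun i _ => (chr_int (π i)).const_mul _)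
  have hmeas : AEStronglyMeasurable (fun x => G x * ∑ i ∈ I, a i * chi (π i) x) volume := by
    refine (hG.measurable.mul ?_).aestronglyMeasurable
    exact Finset.measurable_sum _ (fun i _ => (measurable_const.mul (chi_meas (π i))))
  have hX : Integrable (fun x => G x * ∑ i ∈ I, a i * chi (π i) x) :=
    hint.mono' hmeas (Filter.Eventually.of_forall hpt)
  refine ⟨fun x => ?_, hX, ?_⟩
  · refine (hpt x).trans ?_
    rw [Finset.mul_sum]
    apply Finset.sum_le_sum
    intro i _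
    have := chr_le (π i) x
    have h2 : 0 ≤ κ * ‖a i‖ := by positivity
    nlinarith
  · calc ∫ x, ‖G x * ∑ i ∈ I, a i * chi (π i) x‖
        ≤ ∫ x, ∑ i ∈ I, κ * ‖a i‖ * chr (π i) x := integral_mono hX.norm hint hpt
      _ = ∑ i ∈ I, κ * ‖a i‖ := by
          rw [integral_finsetSum _ (fun i _ => (chr_int (π i)).const_mul _)]
          apply Finset.sum_congr rfl
          intro i _
          rw [integral_const_mul, chr_integral, mul_one]
      _ = κ * ∑ i ∈ I, ‖a i‖ := by rw [Finset.mul_sum]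

/-- Fourier transform of the indicator of `[0,1)` -/
noncomputable def ss (ξ : ℝ) : ℂ := ∫ x, chi 0 x * kk x ξ

lemma chi_fourier (n : ℤ) (ξ : ℝ) : ∫ x, chi n x * kk x ξ = kk n ξ * ss ξ := by
  rw [← integral_add_right_eq_self _ (n : ℝ), ss, ← integral_const_mul]
  congr 1
  ext x
  rw [kk_add]
  have : chi n (x + n) = chi 0 x := by
    unfold chi
    by_cases h : x ∈ Set.Ico ((0 : ℤ) : ℝ) ((0 : ℤ) + 1)
    · have h2 : x + n ∈ Set.Ico (n : ℝ) (n + 1) := by
        obtain ⟨h3, h4⟩ := h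
        push_cast at h3 h4
        constructor <;> linarith
      rw [Set.indicator_of_mem h, Set.indicator_of_mem h2]
    · have h2 : x + n ∉ Set.Ico (n : ℝ) (n + 1) := by
        intro ⟨h3, h4⟩
        apply h
        push_cast
        constructor <;> linarith
      rw [Set.indicator_of_notMem h, Set.indicator_of_notMem h2]
  rw [this]
  ring

lemma combo_fourier {ι : Type*} (I : Finset ι) (a : ι → ℂ) (π : ι → ℤ) (ξ : ℝ) :
    ∫ x, (∑ i ∈ I, a i * chi (π i) x) * kk x ξ = (∑ i ∈ I, a i * kk (π i) ξ) * ss ξ := by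
  have h1 : ∀ x, (∑ i ∈ I, a i * chi (π i) x) * kk x ξ =
      ∑ i ∈ I, a i * (chi (π i) x * kk x ξ) := by
    intro x
    rw [Finset.sum_mul]
    apply Finset.sum_congr rfl
    intro i _
    ring
  simp_rw [h1]
  rw [integral_finsetSum]
  · rw [Finset.sum_mul]
    apply Finset.sum_congr rfl
    intro i _
    rw [integral_const_mul, chi_fourier]
    ring
  · intro i _
    apply Integrable.const_mul
    have h2 : Integrable (chi (π i)) := by
      unfold chi
      rw [integrable_indicator_iff measurableSet_Ico]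
      simp
    refine h2.mul_bdd (c := 1) ?_ ?_
    · have : Continuous (fun x => kk x ξ) := kk_cont.comp (by fun_prop : Continuous fun x : ℝ => (x, ξ))
      exact this.aestronglyMeasurable
    · exact Filter.Eventually.of_forall (fun x => (kk_norm x ξ).le)

/-- the space of absolutely summable sequences -/
noncomputable abbrev AA := lp (fun _ : ℤ => ℂ) 1

lemma AA_summable (r : AA) : Summable (fun n => ‖r n‖) := by
  have h := (lp.memℓp r).summable (by norm_num)
  simpa using h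

lemma AA_norm (r : AA) : ‖r‖ = ∑' n, ‖r n‖ := by
  rw [lp.norm_eq_tsum_rpow (by norm_num)]
  simp

/-- evaluation of the trigonometric series -/
noncomputable def ev (ξ : ℝ) : AA →L[ℂ] ℂ :=
  LinearMap.mkContinuous
    { toFun := fun r => ∑' n : ℤ, r n * kk n ξ
      map_add' := by
        intro r r'
        rw [← Summable.tsum_add]
        · congr 1
          ext n
          rw [lp.coeFn_add, Pi.add_apply]
          ring
        · apply Summable.of_norm
          simpa [kk_norm] using AA_summable r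
        · apply Summable.of_norm
          simpa [kk_norm] using AA_summable r'
      map_smul' := by
        intro c r
        simp only [RingHom.id_apply, smul_eq_mul]
        rw [← tsum_mul_left]
        congr 1
        ext n
        rw [lp.coeFn_smul, Pi.smul_apply, smul_eq_mul]
        ring } 1 (by
    intro r
    simp only [LinearMap.coe_mk, AddHom.coe_mk]
    rw [one_mul, AA_norm]
    refine (norm_tsum_le_tsum_norm ?_).trans ?_
    · simpa [kk_norm] using AA_summable r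
    · apply le_of_eq
      congr 1
      ext n
      rw [norm_mul, kk_norm, mul_one])

lemma ev_apply (ξ : ℝ) (r : AA) : ev ξ r = ∑' n : ℤ, r n * kk n ξ := rfl

lemma ev_norm_le (ξ : ℝ) (r : AA) : ‖ev ξ r‖ ≤ ‖r‖ := by
  have h := (ev ξ).le_opNorm r
  have h2 : ‖ev ξ‖ ≤ 1 := LinearMap.mkContinuous_norm_le _ zero_le_one _
  nlinarith [norm_nonneg r]

/-- basis vector -/
noncomputable def bb (n : ℤ) : AA := lp.single 1 n (1 : ℂ)

lemma bb_norm (n : ℤ) : ‖bb n‖ = 1 := by
  rw [bb, lp.norm_single (by norm_num)]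
  simp

lemma ev_bb (ξ : ℝ) (n : ℤ) : ev ξ (bb n) = kk n ξ := by
  rw [ev_apply, tsum_eq_single n]
  · simp [bb]
  · intro m hm
    simp [bb, hm]



lemma onestep (F : ℂ → ℂ) (hFc : Continuous F)
    (hF : ∀ (J l N0 : ℕ) (κ : ℝ), 0 < κ → ∃ N : ℕ, N0 ≤ N ∧ 1 ≤ N ∧
      ∀ j : ℤ, j ≠ 0 → |j| ≤ J → ∀ x : ℝ, |x - j * N| ≤ l → ‖F x‖ ≤ κ)
    (δ : ℝ) (hδ : 0 < δ) : ∃ D : ℝ, 0 ≤ D ∧ ∀ (r : AA) (ε : ℝ), 0 < ε →
      ∃ (N : ℕ) (X : ℝ → ℂ) (r' : AA), 1 ≤ N ∧
        (∀ x, ‖X x‖ ≤ D * ‖r‖) ∧ Integrable X ∧ ∫ x, ‖X x‖ ≤ D * ‖r‖ ∧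
        (∀ x : ℝ, ‖F x * X x‖ ≤ ε) ∧ Integrable (fun x : ℝ => F x * X x) ∧
        ∫ x : ℝ, ‖F x * X x‖ ≤ ε ∧ ‖r'‖ ≤ ε ∧
        ∀ ξ : ℝ, (∀ n : ℤ, δ ≤ |N * ξ - n|) →
          ev ξ r * ss ξ = (∫ x, X x * kk x ξ) + ev ξ r' * ss ξ := by
  obtain ⟨d, hdsum, hd0, hdt⟩ := tent δ hδ
  set D : ℝ := ∑' j, ‖d j‖ with hD
  have hD0 : 0 ≤ D := tsum_nonneg (fun _ => norm_nonneg _)
  refine ⟨D, hD0, fun r ε hε => ?_⟩
  -- choose S
  have hsingle := lp.hasSum_single (p := 1) (by norm_num) r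
  obtain ⟨S, hS⟩ := (hsingle.eventually (Metric.ball_mem_nhds r (half_pos hε))).exists
  replace hS : ‖r - ∑ n ∈ S, lp.single 1 n (r n)‖ < ε / 2 := by
    rw [← dist_eq_norm, dist_comm]
    exact hS
  set M : ℝ := ∑ n ∈ S, ‖r n‖ with hM
  have hM0 : 0 ≤ M := Finset.sum_nonneg (fun _ _ => norm_nonneg _)
  have hMr : M ≤ ‖r‖ := by
    rw [AA_norm]
    exact (AA_summable r).sum_le_tsum S (fun _ _ => norm_nonneg _)
  -- choose T
  set η : ℝ := ε / (2 * (M + 1)) with hη
  have hη0 : 0 < η := by positivity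
  have hdS : HasSum (fun j => ‖d j‖) D := hdsum.hasSum
  have hT1 : ∀ᶠ T : Finset ℤ in Filter.atTop, D - η < ∑ j ∈ T, ‖d j‖ :=
    hdS.eventually (lt_mem_nhds (by linarith))
  obtain ⟨T, hT, hT0⟩ := (hT1.and (Filter.eventually_ge_atTop ({0} : Finset ℤ))).exists
  have h0T : (0 : ℤ) ∈ T := hT0 (Finset.mem_singleton_self 0)
  -- choose N
  set l : ℕ := (∑ n ∈ S, n.natAbs) + 1 with hl
  set J : ℕ := ∑ j ∈ T, j.natAbs with hJ
  have hSl : ∀ n ∈ S, |(n : ℝ)| + 1 ≤ l := by
    intro n hn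
    have h1 : n.natAbs ≤ ∑ n ∈ S, n.natAbs :=
      Finset.single_le_sum (f := fun n : ℤ => n.natAbs) (fun _ _ => Nat.zero_le _) hn
    have h2 : (n.natAbs : ℝ) = |(n : ℝ)| := by
      rw [Nat.cast_natAbs]; push_cast; rfl
    rw [← h2, hl]
    push_cast
    have : (n.natAbs : ℝ) ≤ ((∑ n ∈ S, n.natAbs : ℕ) : ℝ) := by exact_mod_cast h1
    push_cast at this
    linarith
  have hTJ : ∀ j ∈ T, |j| ≤ (J : ℤ) := by
    intro j hj
    have h1 : j.natAbs ≤ ∑ n ∈ T, n.natAbs :=
      Finset.single_le_sum (f := fun n : ℤ => n.natAbs) (fun _ _ => Nat.zero_le _) hj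
    rw [Int.abs_eq_natAbs]
    exact_mod_cast h1
  set κ : ℝ := ε / (D * ‖r‖ + 1) with hκ
  have hκ0 : 0 < κ := by positivity
  obtain ⟨N, -, hN1, hNF⟩ := hF J l 0 κ hκ0
  -- the vectors
  set u : ℤ → AA := fun j => ∑ n ∈ S, r n • bb (n + j * N) with hu
  have hun : ∀ j, ‖u j‖ ≤ M := by
    intro j
    refine (norm_sum_le _ _).trans (Finset.sum_le_sum fun n _ => ?_)
    rw [norm_smul, bb_norm, mul_one]
  have hYsum : Summable (fun j => d j • u j) := by
    apply Summable.of_norm_bounded (g := fun j => ‖d j‖ * M) (hdsum.mul_right M)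
    intro j
    rw [norm_smul]
    exact mul_le_mul_of_nonneg_left (hun j) (norm_nonneg _)
  set Y : AA := ∑' j, d j • u j with hY
  have hu0 : u 0 = ∑ n ∈ S, lp.single 1 n (r n) := by
    rw [hu]
    apply Finset.sum_congr rfl
    intro n _
    rw [zero_mul, add_zero, bb, ← lp.single_smul, smul_eq_mul, mul_one]
  set I : Finset (ℤ × ℤ) := (T.erase 0) ×ˢ S with hI
  set a : ℤ × ℤ → ℂ := fun p => -(d p.1 * r p.2) with ha
  set π : ℤ × ℤ → ℤ := fun p => p.2 + p.1 * N with hπ
  have hasum : ∑ p ∈ I, ‖a p‖ ≤ D * ‖r‖ := by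
    rw [hI, Finset.sum_product]
    have h1 : ∀ j ∈ T.erase 0, ∑ n ∈ S, ‖a (j, n)‖ = ‖d j‖ * M := by
      intro j _
      rw [hM, Finset.mul_sum]
      apply Finset.sum_congr rfl
      intro n _
      rw [ha]
      simp only
      rw [norm_neg, norm_mul]
    rw [Finset.sum_congr rfl h1, ← Finset.sum_mul]
    apply mul_le_mul _ hMr hM0 hD0
    exact hdsum.sum_le_tsum _ (fun _ _ => norm_nonneg _)
  have c1 := combo I a π (fun _ => 1) continuous_const 1 zero_le_one (fun _ _ _ _ => by simp)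
  simp only [one_mul] at c1
  have c2 := combo I a π (fun x : ℝ => F x) (hFc.comp Complex.continuous_ofReal) κ hκ0.le (by
    intro p hp x hx
    rw [hI, Finset.mem_product] at hp
    obtain ⟨hp1, hp2⟩ := hp
    apply hNF p.1 (Finset.ne_of_mem_erase hp1) (hTJ _ (Finset.mem_of_mem_erase hp1)) x
    have h1 := hSl p.2 hp2
    rw [hπ] at hx
    simp only [Set.mem_Ico] at hx
    push_cast at hx
    have h2 := neg_abs_le (p.2 : ℝ)
    have h3 := le_abs_self (p.2 : ℝ)
    rw [abs_le]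
    constructor <;> linarith)
  have hκε : κ * ∑ p ∈ I, ‖a p‖ ≤ ε := by
    calc κ * ∑ p ∈ I, ‖a p‖ ≤ κ * (D * ‖r‖ + 1) := by
          gcongr
          linarith
      _ = ε := by
          rw [hκ]
          have : 0 < D * ‖r‖ + 1 := by positivity
          field_simp
  refine ⟨N, fun x => ∑ p ∈ I, a p * chi (π p) x, r + ∑ j ∈ T.erase 0, d j • u j - Y, hN1,
    fun x => (c1.1 x).trans hasum, c1.2.1, c1.2.2.trans hasum,
    fun x => (c2.1 x).trans hκε, c2.2.1, c2.2.2.trans hκε, ?_, ?_⟩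
  · -- norm of r'
    have h1 : r + ∑ j ∈ T.erase 0, d j • u j - Y = (r - u 0) + (∑ j ∈ T, d j • u j - Y) := by
      rw [← Finset.add_sum_erase T _ h0T, hd0, one_smul]
      abel
    have h2 : ‖r - u 0‖ ≤ ε / 2 := by
      rw [hu0]; exact hS.le
    have h3 : ‖∑ j ∈ T, d j • u j - Y‖ ≤ ε / 2 := by
      have h4 := hYsum.sum_add_tsum_compl (s := T)
      have h5 : ∑ j ∈ T, d j • u j - Y = -∑' j : ↑((T : Set ℤ)ᶜ), d j • u j := by
        rw [hY, ← h4]
        abel
      rw [h5, norm_neg]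
      have h6 := hdsum.sum_add_tsum_compl (s := T)
      have h7 : Summable (fun j : ↑((T : Set ℤ)ᶜ) => ‖d j‖ * M) :=
        (hdsum.subtype _).mul_right M
      have h8 : ‖∑' j : ↑((T : Set ℤ)ᶜ), d j • u j‖ ≤ (∑' j : ↑((T : Set ℤ)ᶜ), ‖d j‖) * M := by
        rw [← tsum_mul_right]
        apply tsum_of_norm_bounded h7.hasSum
        intro j
        rw [norm_smul]
        exact mul_le_mul_of_nonneg_left (hun j) (norm_nonneg _)
      refine h8.trans ?_
      have h9 : ∑' j : ↑((T : Set ℤ)ᶜ), ‖d j‖ ≤ η := by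
        have : ∑ j ∈ T, ‖d j‖ + ∑' j : ↑((T : Set ℤ)ᶜ), ‖d j‖ = D := h6
        linarith
      calc (∑' j : ↑((T : Set ℤ)ᶜ), ‖d j‖) * M ≤ η * (M + 1) := by
            apply mul_le_mul h9 (by linarith) hM0 hη0.le
        _ = ε / 2 := by
            rw [hη]
            field_simp
    rw [h1]
    refine (norm_add_le _ _).trans ?_
    linarith
  · intro ξ hξ
    have huev : ∀ j, ev ξ (u j) = (∑ n ∈ S, r n * kk n ξ) * kk j (N * ξ) := by
      intro j
      rw [hu]
      simp only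
      rw [map_sum, Finset.sum_mul]
      apply Finset.sum_congr rfl
      intro n _
      rw [map_smul, ev_bb, smul_eq_mul]
      push_cast
      rw [kk_add, kk_mul]
      ring
    have hYev : ev ξ Y = 0 := by
      rw [hY, (ev ξ).map_tsum hYsum]
      have h1 : ∀ j, ev ξ (d j • u j) = (∑ n ∈ S, r n * kk n ξ) * (d j * kk j (N * ξ)) := by
        intro j
        rw [map_smul, huev, smul_eq_mul]
        ring
      simp_rw [h1]
      rw [tsum_mul_left, (hdt (N * ξ) hξ).tsum_eq, mul_zero]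
    rw [combo_fourier, map_sub, map_add, hYev, sub_zero, map_sum]
    have h2 : ∑ p ∈ I, a p * kk (π p) ξ = - ∑ j ∈ T.erase 0, ev ξ (d j • u j) := by
      rw [hI, Finset.sum_product, ← Finset.sum_neg_distrib]
      apply Finset.sum_congr rfl
      intro j _
      rw [map_smul, huev, smul_eq_mul, Finset.sum_mul, Finset.mul_sum, ← Finset.sum_neg_distrib]
      apply Finset.sum_congr rfl
      intro n _
      rw [ha, hπ]
      simp only
      push_cast
      rw [kk_add, kk_mul]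
      ring
    rw [h2]
    ring

lemma weak_id (g : ℝ → ℂ) (hg : Integrable g) (h : ℝ → ℂ) (hh : Integrable h) :
    ∫ ξ, (∫ x, g x * kk x ξ) * h ξ = ∫ x, g x * ∫ ξ, kk x ξ * h ξ := by
  have h1 : ∀ ξ, (∫ x, g x * kk x ξ) * h ξ = ∫ x, g x * kk x ξ * h ξ := by
    intro ξ
    rw [integral_mul_const]
  have h2 : ∀ x, g x * ∫ ξ, kk x ξ * h ξ = ∫ ξ, g x * kk x ξ * h ξ := by
    intro x
    rw [← integral_const_mul]
    congr 1
    ext ξ
    ring
  simp_rw [h1, h2]
  rw [integral_integral_swap]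
  have h3 : Integrable (fun p : ℝ × ℝ => h p.1 * g p.2) (volume.prod volume) :=
    hh.mul_prod hg
  have h4 : Integrable (fun p : ℝ × ℝ => kk p.2 p.1 * (h p.1 * g p.2)) (volume.prod volume) := by
    refine h3.bdd_mul (c := 1) ?_ ?_
    · exact (kk_cont.comp continuous_swap).aestronglyMeasurable
    · exact Filter.Eventually.of_forall (fun p => (kk_norm p.2 p.1).le)
  refine h4.congr (Filter.Eventually.of_forall fun p => ?_)
  simp only [Function.uncurry]
  ring

lemma kk_int_cont (g : ℝ → ℂ) (hg : Integrable g) : Continuous (fun ξ => ∫ x, g x * kk x ξ) := by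
  apply continuous_of_dominated (bound := fun x => ‖g x‖)
  · intro ξ
    refine hg.1.mul ?_
    have : Continuous (fun x => kk x ξ) := kk_cont.comp (by fun_prop : Continuous fun x : ℝ => (x, ξ))
    exact this.aestronglyMeasurable
  · intro ξ
    refine Filter.Eventually.of_forall (fun x => ?_)
    rw [norm_mul, kk_norm, mul_one]
  · exact hg.norm
  · refine Filter.Eventually.of_forall (fun x => ?_)
    have : Continuous (fun ξ => kk x ξ) := kk_cont.comp (by fun_prop : Continuous fun ξ : ℝ => (x, ξ))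
    exact continuous_const.mul this

lemma planch (g : ℝ → ℂ) (hg : Integrable g) (hg2 : MemLp g 2) :
    MemLp (fun ξ => ∫ x, g x * kk x ξ) 2 := by
  let g2 : Lp ℂ 2 (volume : Measure ℝ) := hg2.toLp g
  let ψ : Lp ℂ 2 (volume : Measure ℝ) := FourierTransform.fourier g2
  have hae : (fun ξ => ∫ x, g x * kk x ξ) =ᵐ[volume] ψ := by
    apply ae_eq_of_integral_contDiff_smul_eq
    · exact (kk_int_cont g hg).locallyIntegrable
    · exact (Lp.memLp ψ).locallyIntegrable (by norm_num)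
    · intro q q_smooth q_cpt
      have hq₁ : HasCompactSupport (Complex.ofRealCLM ∘ q) := q_cpt.comp_left rfl
      have hq₂ : ContDiff ℝ (⊤ : ℕ∞) (Complex.ofRealCLM ∘ q) := by fun_prop
      set h : SchwartzMap ℝ ℂ := hq₁.toSchwartzMap hq₂ with hh
      have hhq : ∀ x, h x = (q x : ℂ) := fun x => rfl
      have e1 : ∫ x, q x • (∫ y, g y * kk y x) = ∫ x, (∫ y, g y * kk y x) * h x := by
        congr 1
        ext x
        rw [hhq, Complex.real_smul]
        ring
      have e2 : ∫ x, q x • ψ x = ∫ x, h x • ψ x := by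
        congr 1
      have e3 : ∫ x, h x • ψ x = (ψ : TemperedDistribution ℝ ℂ) h := by
        rw [Lp.toTemperedDistribution_apply]
      have e4 : (ψ : TemperedDistribution ℝ ℂ) = FourierTransform.fourier (g2 : TemperedDistribution ℝ ℂ) := by
        rw [Lp.fourier_toTemperedDistribution_eq]
      have e5 : (FourierTransform.fourier (g2 : TemperedDistribution ℝ ℂ)) h =
          (g2 : TemperedDistribution ℝ ℂ) (FourierTransform.fourier h) := rfl
      have e6 : (g2 : TemperedDistribution ℝ ℂ) (FourierTransform.fourier h) =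
          ∫ x, (FourierTransform.fourier h) x • g2 x := by
        rw [Lp.toTemperedDistribution_apply]
      have e7 : ∫ x, (FourierTransform.fourier h) x • g2 x = ∫ x, g x * ∫ ξ, kk x ξ * h ξ := by
        apply integral_congr_ae
        filter_upwards [hg2.coeFn_toLp] with x hx
        have hx' : g2 x = g x := hx
        rw [hx', smul_eq_mul, mul_comm]
        congr 1
        rw [SchwartzMap.fourier_coe, Real.fourier_real_eq_integral_exp_smul]
        congr 1
        ext v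
        rw [smul_eq_mul, kk]
        congr 3
        push_cast
        ring
      rw [e1, e2, e3, e4, e5, e6, e7]
      exact weak_id g hg h h.integrable
  exact (memLp_congr_ae hae).mpr (Lp.memLp ψ)

lemma memLp_two_of_bdd (g : ℝ → ℂ) (hg : Integrable g) (C : ℝ) (hC : ∀ x, ‖g x‖ ≤ C) :
    MemLp g 2 := by
  rw [memLp_two_iff_integrable_sq_norm hg.1]
  have : Integrable (fun x => ‖g x‖ * ‖g x‖) := by
    refine hg.norm.bdd_mul (c := C) hg.1.norm ?_
    refine Filter.Eventually.of_forall (fun x => ?_)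
    rw [norm_norm]
    exact hC x
  simpa [sq] using this

lemma tsum_int (X : ℕ → ℝ → ℂ) (hX : ∀ k, Integrable (X k)) (α : ℕ → ℝ) (hα : Summable α)
    (hα0 : ∀ k, 0 ≤ α k) (h1 : ∀ k x, ‖X k x‖ ≤ α k) (h2 : ∀ k, ∫ x, ‖X k x‖ ≤ α k) :
    Integrable (fun x => ∑' k, X k x) ∧ ∫ x, ‖∑' k, X k x‖ ≤ ∑' k, α k := by
  have hs : ∀ x, Summable (fun k => X k x) := fun x =>
    Summable.of_norm_bounded hα (fun k => h1 k x)
  have hm : AEStronglyMeasurable (fun x => ∑' k, X k x) volume := by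
    refine aestronglyMeasurable_of_tendsto_ae Filter.atTop
      (f := fun n x => ∑ k ∈ Finset.range n, X k x) ?_ ?_
    · intro n
      exact Finset.aestronglyMeasurable_fun_sum _ (fun k _ => (hX k).1)
    · exact Filter.Eventually.of_forall (fun x => (hs x).hasSum.tendsto_sum_nat)
  have hl : ∫⁻ x, ‖∑' k, X k x‖ₑ ≤ ENNReal.ofReal (∑' k, α k) := by
    calc ∫⁻ x, ‖∑' k, X k x‖ₑ ≤ ∫⁻ x, ∑' k, ‖X k x‖ₑ := by
          apply lintegral_mono
          intro x
          exact enorm_tsum_le_tsum_enorm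
      _ = ∑' k, ∫⁻ x, ‖X k x‖ₑ := by
          rw [lintegral_tsum (fun k => (hX k).1.enorm)]
      _ ≤ ∑' k, ENNReal.ofReal (α k) := by
          apply ENNReal.tsum_le_tsum
          intro k
          rw [← ofReal_integral_norm_eq_lintegral_enorm (hX k)]
          exact ENNReal.ofReal_le_ofReal (h2 k)
      _ = ENNReal.ofReal (∑' k, α k) := by
          rw [ENNReal.ofReal_tsum_of_nonneg hα0 hα]
  refine ⟨⟨hm, lt_of_le_of_lt hl ENNReal.ofReal_lt_top⟩, ?_⟩
  rw [integral_norm_eq_lintegral_enorm hm]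
  apply ENNReal.toReal_le_of_le_ofReal (tsum_nonneg hα0) hl

lemma iterate (F : ℂ → ℂ) (hFc : Continuous F)
    (hF : ∀ (J l N0 : ℕ) (κ : ℝ), 0 < κ → ∃ N : ℕ, N0 ≤ N ∧ 1 ≤ N ∧
      ∀ j : ℤ, j ≠ 0 → |j| ≤ J → ∀ x : ℝ, |x - j * N| ≤ l → ‖F x‖ ≤ κ) :
    ∃ (N : ℕ → ℕ) (X : ℕ → ℝ → ℂ) (α : ℕ → ℝ), (∀ k, 1 ≤ N k) ∧ Summable α ∧ (∀ k, 0 ≤ α k) ∧
      (∀ k x, ‖X k x‖ ≤ α k) ∧ (∀ k, Integrable (X k)) ∧ (∀ k, ∫ x, ‖X k x‖ ≤ α k) ∧
      (∀ k, ∀ x : ℝ, ‖F x * X k x‖ ≤ 1 / 10 / 2 / 2 ^ k) ∧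
      (∀ k, Integrable (fun x : ℝ => F x * X k x)) ∧
      (∀ k, ∫ x : ℝ, ‖F x * X k x‖ ≤ 1 / 10 / 2 / 2 ^ k) ∧
      ∀ ξ : ℝ, (∀ k, ∀ n : ℤ, 1 / 128 / 2 / 2 ^ k ≤ |N k * ξ - n|) →
        HasSum (fun k => ∫ x, X k x * kk x ξ) (ss ξ) := by
  choose D hD0 hD using fun k : ℕ => onestep F hFc hF (1 / 128 / 2 / 2 ^ k) (by positivity)
  set ε : ℕ → ℝ := fun k => min (1 / 10 / 2 / 2 ^ k) ((1 / 2) ^ k / (D (k + 1) + 1)) with hεdef
  have hε : ∀ k, 0 < ε k := by
    intro k
    have := hD0 (k + 1)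
    apply lt_min <;> positivity
  choose Nf Xf rf hstep using fun (k : ℕ) (r : AA) => hD k r (ε k) (hε k)
  let r : ℕ → AA := fun n => Nat.rec (bb 0) (fun k r => rf k r) n
  have hr0 : r 0 = bb 0 := rfl
  have hr1 : ∀ k, r (k + 1) = rf k (r k) := fun k => rfl
  clear_value r
  have hrn : ∀ k, ‖r (k + 1)‖ ≤ ε k := by
    intro k
    rw [hr1]
    exact (hstep k (r k)).2.2.2.2.2.2.2.1
  have hrn2 : ∀ k, ‖r (k + 1)‖ ≤ (1 / 2) ^ k / (D (k + 1) + 1) := fun k =>
    (hrn k).trans (min_le_right _ _)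
  have hε1 : ∀ k, ε k ≤ 1 / 10 / 2 / 2 ^ k := fun k => min_le_left _ _
  refine ⟨fun k => Nf k (r k), fun k => Xf k (r k), fun k => D k * ‖r k‖,
    fun k => (hstep k (r k)).1, ?_, fun k => mul_nonneg (hD0 k) (norm_nonneg _),
    fun k => (hstep k (r k)).2.1, fun k => (hstep k (r k)).2.2.1,
    fun k => (hstep k (r k)).2.2.2.1,
    fun k x => ((hstep k (r k)).2.2.2.2.1 x).trans (hε1 k),
    fun k => (hstep k (r k)).2.2.2.2.2.1,
    fun k => ((hstep k (r k)).2.2.2.2.2.2.1).trans (hε1 k), ?_⟩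
  · rw [← summable_nat_add_iff 1]
    refine Summable.of_nonneg_of_le (fun k => mul_nonneg (hD0 _) (norm_nonneg _)) (fun k => ?_)
      (summable_geometric_of_lt_one (by norm_num : (0 : ℝ) ≤ 1 / 2) (by norm_num))
    have h1 := hrn2 k
    have h2 := hD0 (k + 1)
    calc D (k + 1) * ‖r (k + 1)‖ ≤ (D (k + 1) + 1) * ((1 / 2) ^ k / (D (k + 1) + 1)) := by
          apply mul_le_mul (by linarith) h1 (norm_nonneg _) (by linarith)
      _ = (1 / 2) ^ k := by
          field_simp
  · intro ξ hξ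
    have hsumm : Summable (fun k => ∫ x, Xf k (r k) x * kk x ξ) := by
      have hα : Summable (fun k => D k * ‖r k‖) := by
        rw [← summable_nat_add_iff 1]
        refine Summable.of_nonneg_of_le (fun k => mul_nonneg (hD0 _) (norm_nonneg _)) (fun k => ?_)
          (summable_geometric_of_lt_one (by norm_num : (0 : ℝ) ≤ 1 / 2) (by norm_num))
        have h1 := hrn2 k
        have h2 := hD0 (k + 1)
        calc D (k + 1) * ‖r (k + 1)‖ ≤ (D (k + 1) + 1) * ((1 / 2) ^ k / (D (k + 1) + 1)) := by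
              apply mul_le_mul (by linarith) h1 (norm_nonneg _) (by linarith)
          _ = (1 / 2) ^ k := by
              field_simp
      refine Summable.of_norm_bounded hα (fun k => ?_)
      refine (norm_integral_le_integral_norm _).trans ?_
      refine le_trans (le_of_eq ?_) (hstep k (r k)).2.2.2.1
      congr 1
      ext x
      rw [norm_mul, kk_norm, mul_one]
    rw [hsumm.hasSum_iff_tendsto_nat]
    have hpart : ∀ K, ∑ k ∈ Finset.range K, ∫ x, Xf k (r k) x * kk x ξ =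
        ss ξ - ev ξ (r K) * ss ξ := by
      intro K
      have h1 : ∀ k, ∫ x, Xf k (r k) x * kk x ξ = ev ξ (r k) * ss ξ - ev ξ (r (k + 1)) * ss ξ := by
        intro k
        have h2 := (hstep k (r k)).2.2.2.2.2.2.2.2 ξ (hξ k)
        rw [hr1, h2]
        ring
      rw [Finset.sum_congr rfl (fun k _ => h1 k), Finset.sum_range_sub', hr0, ev_bb]
      have h3 : kk ((0 : ℤ) : ℝ) ξ = 1 := by simp [kk]
      rw [h3, one_mul]
    simp_rw [hpart]
    have hto : Filter.Tendsto (fun K => ev ξ (r K)) Filter.atTop (nhds 0) := by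
      rw [← Filter.tendsto_add_atTop_iff_nat 1]
      apply squeeze_zero_norm (a := fun k : ℕ => ((1 / 2 : ℝ)) ^ k)
      · intro k
        refine (ev_norm_le ξ _).trans ((hrn2 k).trans ?_)
        apply div_le_self (by positivity)
        have := hD0 (k + 1)
        linarith
      · exact tendsto_pow_atTop_nhds_zero_of_lt_one (by norm_num) (by norm_num)
    have h4 := (hto.mul_const (ss ξ)).const_sub (ss ξ)
    simpa using h4

lemma ss_lower (ξ : ℝ) (h0 : 0 ≤ ξ) (h1 : ξ ≤ 1 / 16) : 1 / 2 ≤ ‖ss ξ‖ := by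
  have hchi : Integrable (chi 0) := by
    unfold chi
    rw [integrable_indicator_iff measurableSet_Ico]
    simp
  have hi1 : ∫ x, chi 0 x = 1 := by
    unfold chi
    rw [integral_indicator measurableSet_Ico]
    simp
  have hint : Integrable (fun x => chi 0 x * kk x ξ) := by
    refine hchi.mul_bdd (c := 1) ?_ ?_
    · have : Continuous (fun x => kk x ξ) := kk_cont.comp (by fun_prop : Continuous fun x : ℝ => (x, ξ))
      exact this.aestronglyMeasurable
    · exact Filter.Eventually.of_forall (fun x => (kk_norm x ξ).le)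
  have h2 : ‖ss ξ - 1‖ ≤ 1 / 2 := by
    have e1 : ss ξ - 1 = ∫ x, (chi 0 x * kk x ξ - chi 0 x) := by
      rw [integral_sub hint hchi, hi1, ss]
    rw [e1]
    refine (norm_integral_le_of_norm_le ((chr_int 0).const_mul (1 / 2))
      (Filter.Eventually.of_forall fun x => ?_)).trans ?_
    · by_cases h : x ∈ Set.Ico ((0 : ℤ) : ℝ) ((0 : ℤ) + 1)
      · have h3 : chi 0 x = 1 := by simp only [chi, Set.indicator_of_mem h]
        have h4 : chr 0 x = 1 := by simp only [chr, Set.indicator_of_mem h]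
        rw [h3, h4, one_mul, mul_one]
        obtain ⟨hx0, hx1⟩ := h
        push_cast at hx0 hx1
        have h5 : kk x ξ - 1 = Complex.exp (Complex.I * ((-2 * Real.pi * x * ξ : ℝ) : ℂ)) - 1 := by
          rw [kk, mul_comm]
        rw [h5]
        refine (Real.norm_exp_I_mul_ofReal_sub_one_le).trans ?_
        rw [Real.norm_eq_abs, show -2 * Real.pi * x * ξ = -(2 * Real.pi * (x * ξ)) by ring, abs_neg,
          abs_of_nonneg (by positivity)]
        have h6 : x * ξ ≤ 1 / 16 := by nlinarith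
        have h7 := Real.pi_lt_d2
        have h8 := Real.pi_pos
        nlinarith
      · have h3 : chi 0 x = 0 := by simp only [chi, Set.indicator_of_notMem h]
        have h4 : chr 0 x = 0 := by simp only [chr, Set.indicator_of_notMem h]
        rw [h3, h4]
        simp
    · rw [integral_const_mul, chr_integral]
      norm_num
  have h3 : ‖(1 : ℂ)‖ ≤ ‖ss ξ‖ + ‖ss ξ - 1‖ := by
    have := norm_sub_le (ss ξ) (ss ξ - 1)
    simpa using this
  rw [norm_one] at h3
  linarith

lemma meas_E (N : ℕ → ℕ) (hN : ∀ k, 1 ≤ N k) :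
    volume {ξ : ℝ | ξ ∈ Set.Icc (0 : ℝ) (1 / 16) ∧
      ∀ k, ∀ n : ℤ, 1 / 128 / 2 / 2 ^ k ≤ |N k * ξ - n|} ≠ 0 := by
  set E : Set ℝ := {ξ : ℝ | ξ ∈ Set.Icc (0 : ℝ) (1 / 16) ∧
      ∀ k, ∀ n : ℤ, 1 / 128 / 2 / 2 ^ k ≤ |N k * ξ - n|} with hE
  set δ : ℕ → ℝ := fun k => 1 / 128 / 2 / 2 ^ k with hδ
  have hδ0 : ∀ k, 0 < δ k := fun k => by rw [hδ]; positivity
  have hδ1 : ∀ k, δ k ≤ 1 / 4 := by
    intro k
    rw [hδ]
    simp only
    have : (1 : ℝ) ≤ 2 ^ k := one_le_pow₀ (by norm_num)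
    rw [div_le_iff₀ (by positivity)]
    linarith
  intro hzero
  have hcov : Set.Icc (0 : ℝ) (1 / 16) ⊆ E ∪ ⋃ k, ⋃ n ∈ Finset.range (N k + 1),
      Set.Ioo (((n : ℝ) - δ k) / N k) (((n : ℝ) + δ k) / N k) := by
    intro ξ hξ
    by_cases hE' : ξ ∈ E
    · exact Or.inl hE'
    · right
      have h1 : ¬ ∀ k, ∀ n : ℤ, 1 / 128 / 2 / 2 ^ k ≤ |N k * ξ - n| := by
        intro h
        exact hE' ⟨hξ, h⟩
      push Not at h1
      obtain ⟨k, n, hkn⟩ := h1
      have hNpos : (0 : ℝ) < N k := by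
        have := hN k
        exact_mod_cast this
      have hN1 : (1 : ℝ) ≤ N k := by exact_mod_cast hN k
      have hkn' : |N k * ξ - n| < δ k := hkn
      rw [abs_lt] at hkn'
      obtain ⟨h2, h3⟩ := hkn'
      have h4 := hδ1 k
      obtain ⟨h5, h6⟩ := hξ
      have h7 : (0 : ℝ) ≤ N k * ξ := by positivity
      have h8 : N k * ξ ≤ N k * (1 / 16) := by gcongr
      have hn0 : 0 ≤ n := by
        have : (-1 : ℝ) < n := by linarith
        have : (-1 : ℤ) < n := by exact_mod_cast this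
        omega
      have hnN : n ≤ N k := by
        have : (n : ℝ) < N k + 1 := by linarith
        have : n < N k + 1 := by exact_mod_cast this
        omega
      lift n to ℕ using hn0
      rw [Set.mem_iUnion]
      refine ⟨k, ?_⟩
      rw [Set.mem_iUnion₂]
      refine ⟨n, ?_, ?_⟩
      · rw [Finset.mem_range]
        omega
      · push_cast at h2 h3
        constructor
        · rw [div_lt_iff₀ hNpos]
          linarith
        · rw [lt_div_iff₀ hNpos]
          linarith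
  have h1 : volume (Set.Icc (0 : ℝ) (1 / 16)) ≤ ENNReal.ofReal (1 / 32) := by
    calc volume (Set.Icc (0 : ℝ) (1 / 16))
        ≤ volume (E ∪ ⋃ k, ⋃ n ∈ Finset.range (N k + 1),
            Set.Ioo (((n : ℝ) - δ k) / N k) (((n : ℝ) + δ k) / N k)) := measure_mono hcov
      _ ≤ volume E + volume (⋃ k, ⋃ n ∈ Finset.range (N k + 1),
            Set.Ioo (((n : ℝ) - δ k) / N k) (((n : ℝ) + δ k) / N k)) := measure_union_le _ _
      _ = volume (⋃ k, ⋃ n ∈ Finset.range (N k + 1),
            Set.Ioo (((n : ℝ) - δ k) / N k) (((n : ℝ) + δ k) / N k)) := by rw [hzero, zero_add]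
      _ ≤ ∑' k, volume (⋃ n ∈ Finset.range (N k + 1),
            Set.Ioo (((n : ℝ) - δ k) / N k) (((n : ℝ) + δ k) / N k)) := measure_iUnion_le _
      _ ≤ ∑' k, ENNReal.ofReal (4 * δ k) := by
          apply ENNReal.tsum_le_tsum
          intro k
          refine (measure_biUnion_finset_le _ _).trans ?_
          have hNpos : (0 : ℝ) < N k := by
            have := hN k
            exact_mod_cast this
          have hN1 : (1 : ℝ) ≤ N k := by exact_mod_cast hN k
          have h2 : ∀ n ∈ Finset.range (N k + 1),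
              volume (Set.Ioo (((n : ℝ) - δ k) / N k) (((n : ℝ) + δ k) / N k)) =
                ENNReal.ofReal (2 * δ k / N k) := by
            intro n _
            rw [Real.volume_Ioo]
            congr 1
            ring
          rw [Finset.sum_congr rfl h2, Finset.sum_const, Finset.card_range, nsmul_eq_mul,
            ← ENNReal.ofReal_natCast, ← ENNReal.ofReal_mul (by positivity)]
          apply ENNReal.ofReal_le_ofReal
          rw [mul_div_assoc', div_le_iff₀ hNpos]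
          push_cast
          have := hδ0 k
          nlinarith
      _ = ENNReal.ofReal (∑' k, 4 * δ k) := by
          rw [ENNReal.ofReal_tsum_of_nonneg]
          · intro k
            have := hδ0 k
            positivity
          · exact (summable_geometric_two' (1 / 128)).mul_left 4
      _ = ENNReal.ofReal (1 / 32) := by
          congr 1
          rw [tsum_mul_left, hδ, tsum_geometric_two']
          norm_num
  rw [Real.volume_Icc, ENNReal.ofReal_le_ofReal_iff (by norm_num)] at h1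
  norm_num at h1

/-- The negation of the preceding statement: If F is entire of minimal exponential type and f, Ff are in L² with Fourier transforms φ, ψ, then on every measurable set where φ vanishes a.e., ψ vanishes a.e. as well. -/
theorem result :
    ¬ (∀ F : ℂ → ℂ, Differentiable ℂ F →
      (∀ ε : ℝ, 0 < ε → ∃ C : ℝ, ∀ z : ℂ, ‖F z‖ ≤ C * Real.exp (ε * ‖z‖)) →
      ∀ f φ ψ : ℝ → ℂ,
        MemLp f 2 →
        MemLp (fun x : ℝ => F (x : ℂ) * f x) 2 →
        MemLp φ 2 →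
        MemLp ψ 2 →
        (∀ h : SchwartzMap ℝ ℂ,
          ∫ ξ : ℝ, φ ξ * h ξ =
            ∫ x : ℝ, f x *
              ∫ ξ : ℝ, Complex.exp (((-2 * Real.pi * x * ξ : ℝ) : ℂ) * Complex.I) * h ξ) →
        (∀ h : SchwartzMap ℝ ℂ,
          ∫ ξ : ℝ, ψ ξ * h ξ =
            ∫ x : ℝ, (F (x : ℂ) * f x) *
              ∫ ξ : ℝ, Complex.exp (((-2 * Real.pi * x * ξ : ℝ) : ℂ) * Complex.I) * h ξ) →
        ∀ E : Set ℝ, MeasurableSet E →
          (∀ᵐ ξ : ℝ, ξ ∈ E → φ ξ = 0) →
          (∀ᵐ ξ : ℝ, ξ ∈ E → ψ ξ = 0)) := by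
  intro H
  obtain ⟨F, hFd, hFtype, hF1, hFP⟩ := exists_F
  have hFc : Continuous F := hFd.continuous
  obtain ⟨N, X, α, hN, hαs, hα0, hX1, hX2, hX3, hFX1, hFX2, hFX3, hXsum⟩ := iterate F hFc hFP
  have hchi : Integrable (chi 0) := by
    unfold chi
    rw [integrable_indicator_iff measurableSet_Ico]
    simp
  -- the sum of the X k
  obtain ⟨hXsI, -⟩ := tsum_int X hX2 α hαs hα0 hX1 hX3
  have hβ : HasSum (fun k : ℕ => (1 / 10 : ℝ) / 2 / 2 ^ k) (1 / 10) := hasSum_geometric_two' _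
  obtain ⟨hFXsI, hFXs⟩ := tsum_int (fun k x => F x * X k x) hFX2
    (fun k : ℕ => (1 / 10 : ℝ) / 2 / 2 ^ k) hβ.summable (fun k => by positivity) hFX1 hFX3
  rw [hβ.tsum_eq] at hFXs
  have hFXeq : ∀ x : ℝ, ∑' k, F x * X k x = F x * ∑' k, X k x := fun x => tsum_mul_left
  simp_rw [hFXeq] at hFXsI hFXs
  set f : ℝ → ℂ := fun x => chi 0 x - ∑' k, X k x with hf
  have hfI : Integrable f := hchi.sub hXsI
  have hchin : ∀ x, ‖chi 0 x‖ ≤ 1 := by
    intro x
    unfold chi
    by_cases h : x ∈ Set.Ico ((0 : ℤ) : ℝ) ((0 : ℤ) + 1)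
    · rw [Set.indicator_of_mem h]; simp
    · rw [Set.indicator_of_notMem h]; simp
  have hfb : ∀ x, ‖f x‖ ≤ 1 + ∑' k, α k := by
    intro x
    refine (norm_sub_le _ _).trans (add_le_add (hchin x) ?_)
    exact tsum_of_norm_bounded hαs.hasSum (fun k => hX1 k x)
  have hf2 : MemLp f 2 := memLp_two_of_bdd f hfI _ hfb
  have hFchi : ∀ x : ℝ, ‖F x * chi 0 x - chi 0 x‖ ≤ 1 / 10 * chr 0 x := by
    intro x
    by_cases h : x ∈ Set.Ico ((0 : ℤ) : ℝ) ((0 : ℤ) + 1)
    · have h3 : chi 0 x = 1 := by simp only [chi, Set.indicator_of_mem h]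
      have h4 : chr 0 x = 1 := by simp only [chr, Set.indicator_of_mem h]
      rw [h3, h4, mul_one, mul_one]
      apply hF1
      obtain ⟨hx0, hx1⟩ := h
      push_cast at hx0 hx1
      rw [Complex.norm_real, Real.norm_eq_abs, abs_of_nonneg hx0]
      linarith
    · have h3 : chi 0 x = 0 := by simp only [chi, Set.indicator_of_notMem h]
      have h4 : chr 0 x = 0 := by simp only [chr, Set.indicator_of_notMem h]
      rw [h3, h4]
      simp
  have hFchiI0 : Integrable (fun x : ℝ => F x * chi 0 x - chi 0 x) := by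
    refine Integrable.mono' ((chr_int 0).const_mul (1 / 10)) ?_
      (Filter.Eventually.of_forall hFchi)
    exact ((hFc.comp Complex.continuous_ofReal).aestronglyMeasurable.mul hchi.1).sub hchi.1
  have hFchiI : Integrable (fun x : ℝ => F x * chi 0 x) := by
    have := hFchiI0.add hchi
    refine this.congr (Filter.Eventually.of_forall fun x => ?_)
    simp
  have hFfeq : ∀ x : ℝ, F x * f x = F x * chi 0 x - F x * ∑' k, X k x := by
    intro x
    rw [hf]
    ring
  have hFfI : Integrable (fun x : ℝ => F x * f x) := by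
    simp_rw [hFfeq]
    exact hFchiI.sub hFXsI
  have hFfb : ∀ x : ℝ, ‖F x * f x‖ ≤ 2 := by
    intro x
    rw [hFfeq]
    have h1 : ‖F x * chi 0 x‖ ≤ 1 + 1 / 10 := by
      have h2 := norm_add_le (chi 0 x) (F x * chi 0 x - chi 0 x)
      rw [add_sub_cancel] at h2
      have h3 := hFchi x
      have h4 := chr_le 0 x
      have h5 := hchin x
      linarith
    have h2 : ‖F x * ∑' k, X k x‖ ≤ 1 / 10 := by
      rw [← hFXeq]
      exact tsum_of_norm_bounded hβ (fun k => hFX1 k x)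
    refine (norm_sub_le _ _).trans ?_
    linarith
  have hFf2 : MemLp (fun x : ℝ => F x * f x) 2 := memLp_two_of_bdd _ hFfI _ hFfb
  -- the set
  set E : Set ℝ := {ξ : ℝ | ξ ∈ Set.Icc (0 : ℝ) (1 / 16) ∧
      ∀ k, ∀ n : ℤ, 1 / 128 / 2 / 2 ^ k ≤ |N k * ξ - n|} with hE
  have hEm : MeasurableSet E := by
    apply IsClosed.measurableSet
    have h1 : E = Set.Icc (0 : ℝ) (1 / 16) ∩ ⋂ k, ⋂ n : ℤ,
        {ξ : ℝ | 1 / 128 / 2 / 2 ^ k ≤ |N k * ξ - n|} := by
      ext ξ
      simp [hE]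
    rw [h1]
    apply isClosed_Icc.inter
    apply isClosed_iInter
    intro k
    apply isClosed_iInter
    intro n
    exact isClosed_le continuous_const (by fun_prop)
  have hkk : ∀ ξ, Continuous (fun x => kk x ξ) := fun ξ =>
    kk_cont.comp (by fun_prop : Continuous fun x : ℝ => (x, ξ))
  have hmulkk : ∀ (g : ℝ → ℂ) (ξ : ℝ), Integrable g → Integrable (fun x => g x * kk x ξ) := by
    intro g ξ hg
    refine hg.mul_bdd (c := 1) (hkk ξ).aestronglyMeasurable ?_
    exact Filter.Eventually.of_forall (fun x => (kk_norm x ξ).le)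
  -- φ vanishes on E
  have hφE : ∀ ξ ∈ E, ∫ x, f x * kk x ξ = 0 := by
    intro ξ hξ
    have h1 := hXsum ξ hξ.2
    have h2 : HasSum (fun k => ∫ x, X k x * kk x ξ) (∫ x, ∑' k, X k x * kk x ξ) := by
      apply hasSum_integral_of_summable_integral_norm
      · intro k
        exact hmulkk _ ξ (hX2 k)
      · refine Summable.of_nonneg_of_le (fun k => integral_nonneg (fun x => norm_nonneg _))
          (fun k => ?_) hαs
        refine le_trans (le_of_eq ?_) (hX3 k)
        congr 1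
        ext x
        rw [norm_mul, kk_norm, mul_one]
    have h3 := h1.unique h2
    have h4 : ∫ x, f x * kk x ξ = ∫ x, (chi 0 x * kk x ξ - ∑' k, X k x * kk x ξ) := by
      congr 1
      ext x
      rw [hf, tsum_mul_right]
      ring
    rw [h4, integral_sub (hmulkk _ ξ hchi), ← h3, ss, sub_self]
    have h5 := hmulkk _ ξ hXsI
    refine h5.congr (Filter.Eventually.of_forall fun x => ?_)
    simp only
    rw [tsum_mul_right]
  have hψE : ∀ ξ ∈ E, ∫ x : ℝ, (F x * f x) * kk x ξ ≠ 0 := by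
    intro ξ hξ h0
    have h1 := ss_lower ξ hξ.1.1 hξ.1.2
    have h2 : ss ξ = -((∫ x : ℝ, (F x * f x) * kk x ξ) - ss ξ) := by rw [h0]; ring
    have h3 : (∫ x : ℝ, (F x * f x) * kk x ξ) - ss ξ =
        (∫ x : ℝ, (F x * chi 0 x - chi 0 x) * kk x ξ) -
          ∫ x : ℝ, (F x * ∑' k, X k x) * kk x ξ := by
      rw [ss, ← integral_sub (hmulkk _ ξ hFfI) (hmulkk _ ξ hchi),
        ← integral_sub (hmulkk _ ξ hFchiI0) (hmulkk _ ξ hFXsI)]
      congr 1
      ext x
      rw [hFfeq]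
      ring
    have h4 : ‖∫ x : ℝ, (F x * chi 0 x - chi 0 x) * kk x ξ‖ ≤ 1 / 10 := by
      refine (norm_integral_le_of_norm_le ((chr_int 0).const_mul (1 / 10))
        (Filter.Eventually.of_forall fun x => ?_)).trans ?_
      · rw [norm_mul, kk_norm, mul_one]
        exact hFchi x
      · rw [integral_const_mul, chr_integral, mul_one]
    have h5 : ‖∫ x : ℝ, (F x * ∑' k, X k x) * kk x ξ‖ ≤ 1 / 10 := by
      refine (norm_integral_le_integral_norm _).trans (le_trans (le_of_eq ?_) hFXs)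
      congr 1
      ext x
      rw [norm_mul (F x * ∑' k, X k x), kk_norm, mul_one]
    rw [h2, norm_neg, h3] at h1
    have h6 := norm_sub_le (∫ x : ℝ, (F x * chi 0 x - chi 0 x) * kk x ξ)
      (∫ x : ℝ, (F x * ∑' k, X k x) * kk x ξ)
    linarith
  have key := H F hFd hFtype f (fun ξ => ∫ x, f x * kk x ξ)
    (fun ξ => ∫ x : ℝ, (F x * f x) * kk x ξ) hf2 hFf2 (planch f hfI hf2)
    (planch _ hFfI hFf2) (fun h => weak_id f hfI h h.integrable)
    (fun h => weak_id _ hFfI h h.integrable) E hEm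
    (Filter.Eventually.of_forall fun ξ hξ => hφE ξ hξ)
  have h0 : volume E = 0 := by
    rw [measure_eq_zero_iff_ae_notMem]
    filter_upwards [key] with ξ hξ hξE
    exact hψE ξ hξE (hξ hξE)
  exact meas_E N hN h0

end Pool.Agent.S02854
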