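import Pool.Statements.S02856

set_option autoImplicit false
open Filter Topology
open Pool Pool.MP_2f2b65_an


open scoped ENNReal

namespace Pool.Agent.S02856.TS

/-- a family of finitely supported functionals, graded by a level -/
structure Fam (ι Γ : Type) where
  G : ι → Γ → ℝ
  k : ι → ℕ
  S : ι → Finset Γ
  b : ℕ → ℕ
  zero : ∀ i γ, γ ∉ S i → G i γ = 0
  le : ∀ i γ, |G i γ| ≤ (1/2)^(k i)
  card : ∀ i, (S i).card ≤ b (k i)
  i0 : Γ → ι
  g0 : ∀ γ, G (i0 γ) γ = 1
  g1 : ∀ γ γ', γ' ≠ γ → G (i0 γ) γ' = 0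

variable {ι Γ : Type} (w : Fam ι Γ)

noncomputable abbrev Z (ι : Type) := lp (fun _ : ι => ℝ) ⊤

lemma Fam.le_one (i : ι) (γ : Γ) : |w.G i γ| ≤ 1 :=
  (w.le i γ).trans (pow_le_one₀ (by norm_num) (by norm_num))

noncomputable def e (γ : Γ) : Z ι :=
  ⟨fun i => w.G i γ, memℓp_infty ⟨1, by rintro _ ⟨i, rfl⟩; exact w.le_one i γ⟩⟩

lemma e_apply (γ : Γ) (i : ι) : (e w γ) i = w.G i γ := rfl

noncomputable def XS : Submodule ℝ (Z ι) := (Submodule.span ℝ (Set.range (e w))).topologicalClosure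

/-- the Banach space -/
def X : Type := XS w

noncomputable instance : NormedAddCommGroup (X w) := inferInstanceAs (NormedAddCommGroup (XS w))
noncomputable instance : NormedSpace ℝ (X w) := inferInstanceAs (NormedSpace ℝ (XS w))

instance : CompleteSpace (X w) :=
  (Submodule.isClosed_topologicalClosure (Submodule.span ℝ (Set.range (e w)))).completeSpace_coe

noncomputable def toZ : X w →L[ℝ] Z ι := (XS w).subtypeL

lemma toZ_mem (v : X w) : toZ w v ∈ XS w := Subtype.prop (p := fun x => x ∈ XS w) v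

lemma norm_toZ (v : X w) : ‖toZ w v‖ = ‖v‖ := rfl

noncomputable def mkX (v : Z ι) (hv : v ∈ XS w) : X w := (⟨v, hv⟩ : XS w)

lemma toZ_mkX (v : Z ι) (hv : v ∈ XS w) : toZ w (mkX w v hv) = v := rfl

lemma toZ_inj (u v : X w) (h : toZ w u = toZ w v) : u = v := Subtype.ext h

noncomputable def eX (γ : Γ) : X w :=
  mkX w (e w γ) (Submodule.le_topologicalClosure _ (Submodule.subset_span ⟨γ, rfl⟩))

lemma toZ_eX (γ : Γ) : toZ w (eX w γ) = e w γ := rfl

/-- evaluation functionals -/
noncomputable def ev (i : ι) : X w →L[ℝ] ℝ := (lp.evalCLM ℝ (fun _ : ι => ℝ) ⊤ i).comp (toZ w)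

lemma ev_apply (i : ι) (v : X w) : ev w i v = (toZ w v) i := rfl

lemma ev_eX (i : ι) (γ : Γ) : ev w i (eX w γ) = w.G i γ := rfl

lemma ev_le (i : ι) (v : X w) : |ev w i v| ≤ ‖v‖ := lp.norm_apply_le_norm (by simp) (toZ w v) i

lemma norm_le_of_ev (v : X w) (C : ℝ) (hC : 0 ≤ C) (h : ∀ i, |ev w i v| ≤ C) : ‖v‖ ≤ C :=
  lp.norm_le_of_forall_le (f := toZ w v) hC h

lemma eX_le (γ : Γ) : ‖eX w γ‖ ≤ 1 :=
  norm_le_of_ev w _ 1 zero_le_one (fun i => by rw [ev_eX]; exact w.le_one i γ)

/-- coordinates -/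
noncomputable def co (γ : Γ) : X w →L[ℝ] ℝ := ev w (w.i0 γ)

lemma co_eX (γ : Γ) : co w γ (eX w γ) = 1 := w.g0 γ

lemma co_eX_ne (γ γ' : Γ) (h : γ' ≠ γ) : co w γ (eX w γ') = 0 := w.g1 γ γ' h

lemma co_le (γ : Γ) (v : X w) : |co w γ v| ≤ ‖v‖ := ev_le w _ v

lemma eX_pos (γ : Γ) : 1 ≤ ‖eX w γ‖ := by
  have := co_le w γ (eX w γ)
  rw [co_eX] at this
  simpa using this

lemma dense_span (v : X w) (δ : ℝ) (hδ : 0 < δ) :
    ∃ u ∈ Submodule.span ℝ (Set.range (eX w)), ‖v - u‖ < δ := by
  have hv : toZ w v ∈ closure ((Submodule.span ℝ (Set.range (e w)) : Submodule ℝ (Z ι)) : Set (Z ι)) :=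
    toZ_mem w v
  rw [Metric.mem_closure_iff] at hv
  obtain ⟨u, hu, hd⟩ := hv δ hδ
  have huX : u ∈ XS w := Submodule.le_topologicalClosure _ hu
  refine ⟨mkX w u huX, ?_, ?_⟩
  · rw [SetLike.mem_coe, Finsupp.mem_span_range_iff_exists_finsupp] at hu
    obtain ⟨c, hc⟩ := hu
    have : mkX w u huX = c.sum fun i a => a • eX w i := by
      apply toZ_inj
      rw [toZ_mkX, ← hc, Finsupp.sum, Finsupp.sum, map_sum]
      rfl
    rw [this]
    exact Submodule.sum_mem _ (fun q _ => Submodule.smul_mem _ _ (Submodule.subset_span ⟨q, rfl⟩))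
  · rw [dist_eq_norm] at hd
    exact hd

/-- extensionality of functionals on unit vectors -/
lemma clm_ext (f g : X w →L[ℝ] ℝ) (h : ∀ q, f (eX w q) = g (eX w q)) (v : X w) : f v = g v := by
  have hcl : IsClosed {x : X w | f x = g x} := isClosed_eq f.continuous g.continuous
  have hd : v ∈ closure ((Submodule.span ℝ (Set.range (eX w)) : Submodule ℝ (X w)) : Set (X w)) := by
    rw [Metric.mem_closure_iff]
    intro ε hε
    obtain ⟨u, hu, hd⟩ := dense_span w v ε hε
    exact ⟨u, hu, by rw [dist_eq_norm]; exact hd⟩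
  have hsub : ((Submodule.span ℝ (Set.range (eX w)) : Submodule ℝ (X w)) : Set (X w)) ⊆
      {x : X w | f x = g x} := by
    intro x hx
    induction hx using Submodule.span_induction with
    | mem x hx => obtain ⟨q, rfl⟩ := hx; exact h q
    | zero => simp
    | add x y _ _ hx hy =>
      change f (x + y) = g (x + y)
      rw [map_add, map_add]
      rw [show f x = g x from hx, show f y = g y from hy]
    | smul a x _ hx =>
      change f (a • x) = g (a • x)
      rw [map_smul, map_smul, show f x = g x from hx]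
  exact (closure_minimal hsub hcl) hd

lemma ev_eq (i : ι) (v : X w) : ev w i v = ∑ γ ∈ w.S i, w.G i γ * co w γ v := by
  classical
  have := clm_ext w (ev w i) (∑ γ ∈ w.S i, w.G i γ • co w γ) (by
    intro q
    rw [sum_apply, ev_eX]
    by_cases hq : q ∈ w.S i
    · rw [Finset.sum_eq_single_of_mem q hq]
      · change _ = w.G i q * co w q (eX w q)
        rw [co_eX, mul_one]
      · intro γ _ hne
        change w.G i γ * co w γ (eX w q) = 0
        rw [co_eX_ne w γ q (Ne.symm hne), mul_zero]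
    · rw [w.zero i q hq]
      symm
      apply Finset.sum_eq_zero
      intro γ hγ
      change w.G i γ * co w γ (eX w q) = 0
      rw [co_eX_ne w γ q (by rintro rfl; exact hq hγ), mul_zero]) v
  rw [this, sum_apply]
  rfl

/-- finite support -/
def FS (v : X w) (T : Finset Γ) : Prop := ∀ γ, γ ∉ T → co w γ v = 0

lemma span_FS (v : X w) (hv : v ∈ Submodule.span ℝ (Set.range (eX w))) : ∃ T, FS w v T := by
  classical
  induction hv using Submodule.span_induction with
  | mem x hx =>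
    obtain ⟨q, rfl⟩ := hx
    exact ⟨{q}, fun γ hγ => co_eX_ne w γ q (by rintro rfl; simp at hγ)⟩
  | zero => exact ⟨∅, fun γ _ => by simp⟩
  | add x y _ _ hx hy =>
    obtain ⟨T, hT⟩ := hx
    obtain ⟨T', hT'⟩ := hy
    refine ⟨T ∪ T', fun γ hγ => ?_⟩
    rw [Finset.mem_union] at hγ
    push Not at hγ
    rw [map_add, hT γ hγ.1, hT' γ hγ.2, add_zero]
  | smul a x _ hx =>
    obtain ⟨T, hT⟩ := hx
    exact ⟨T, fun γ hγ => by rw [map_smul, hT γ hγ, smul_zero]⟩

/-- removing finitely many coordinates -/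
noncomputable def rem (S : Finset Γ) (v : X w) : X w := v - ∑ γ ∈ S, co w γ v • eX w γ

lemma co_rem (S : Finset Γ) (v : X w) (γ : Γ) (hγ : γ ∈ S) : co w γ (rem w S v) = 0 := by
  classical
  unfold rem
  rw [map_sub, map_sum, Finset.sum_eq_single_of_mem γ hγ]
  · rw [map_smul, co_eX, smul_eq_mul, mul_one, sub_self]
  · intro γ' _ hne
    rw [map_smul, co_eX_ne w γ γ' hne, smul_zero]

lemma co_rem' (S : Finset Γ) (v : X w) (γ : Γ) (hγ : γ ∉ S) : co w γ (rem w S v) = co w γ v := by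
  classical
  unfold rem
  rw [map_sub, map_sum, Finset.sum_eq_zero, sub_zero]
  intro γ' h
  rw [map_smul, co_eX_ne w γ γ' (by rintro rfl; exact hγ h), smul_zero]

lemma norm_sumX_le (S : Finset Γ) (a : Γ → ℝ) (η : ℝ) (h : ∀ γ ∈ S, |a γ| ≤ η) :
    ‖∑ γ ∈ S, a γ • eX w γ‖ ≤ S.card * η := by
  refine (_root_.norm_sum_le _ _).trans ?_
  have : ∑ γ ∈ S, ‖a γ • eX w γ‖ ≤ ∑ γ ∈ S, η := by
    apply Finset.sum_le_sum
    intro γ hγ
    rw [norm_smul]
    have h1 := h γ hγ
    have h2 := eX_le w γ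
    have h3 := norm_nonneg (eX w γ)
    have h4 := abs_nonneg (a γ)
    rw [Real.norm_eq_abs]
    nlinarith
  rw [Finset.sum_const, nsmul_eq_mul] at this
  exact this

/-- block property -/
def BP (f : X w →L[ℝ] ℝ) (C δ : ℝ) : Prop :=
  ∀ S : Finset Γ, ∃ v : X w, (∀ γ ∈ S, co w γ v = 0) ∧ ‖v‖ ≤ C ∧ δ ≤ f v

def BPF (f : X w →L[ℝ] ℝ) (C δ : ℝ) : Prop :=
  ∀ S : Finset Γ, ∃ v : X w, (∃ T, FS w v T) ∧ (∀ γ ∈ S, co w γ v = 0) ∧ ‖v‖ ≤ C ∧ δ ≤ f v

lemma bp_bpf (f : X w →L[ℝ] ℝ) (δ : ℝ) (hδ : 0 < δ) (h : BP w f 1 δ) : BPF w f 2 (δ/2) := by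
  classical
  intro S
  obtain ⟨v, hv1, hv2, hv3⟩ := h S
  set η := min 1 (δ / (2 * (‖f‖ + 1))) / (S.card + 1) with hη
  have hf := norm_nonneg f
  have hc : (0:ℝ) ≤ S.card := Nat.cast_nonneg _
  have hη0 : 0 < η := by positivity
  obtain ⟨u, hu, hd⟩ := dense_span w v η hη0
  have h1 : ∀ γ ∈ S, |co w γ u| ≤ η := by
    intro γ hγ
    have h2 : co w γ u = - co w γ (v - u) := by rw [map_sub, hv1 γ hγ]; ring
    rw [h2, abs_neg]
    exact (co_le w γ _).trans hd.le
  have h2 := norm_sumX_le w S (fun γ => co w γ u) η h1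
  have h3 : ‖rem w S u - v‖ ≤ (S.card + 1) * η := by
    have h4 : rem w S u - v = -((v - u) + ∑ γ ∈ S, co w γ u • eX w γ) := by
      unfold rem; abel
    rw [h4, norm_neg]
    refine (norm_add_le _ _).trans ?_
    linarith
  have h4 : (S.card + 1) * η = min 1 (δ / (2 * (‖f‖ + 1))) := by
    rw [hη]; field_simp
  rw [h4] at h3
  have h5 : ‖rem w S u - v‖ ≤ 1 := h3.trans (min_le_left _ _)
  have h6 : ‖rem w S u - v‖ ≤ δ / (2 * (‖f‖ + 1)) := h3.trans (min_le_right _ _)
  refine ⟨rem w S u, ?_, co_rem w S u, ?_, ?_⟩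
  · obtain ⟨T, hT⟩ := span_FS w u hu
    refine ⟨T ∪ S, fun γ hγ => ?_⟩
    rw [Finset.mem_union] at hγ
    push Not at hγ
    rw [co_rem' w S u γ hγ.2, hT γ hγ.1]
  · have h7 := norm_add_le (rem w S u - v) v
    rw [sub_add_cancel] at h7
    linarith
  · have h7 : |f (rem w S u - v)| ≤ ‖f‖ * ‖rem w S u - v‖ := f.le_opNorm _
    have h8 : ‖f‖ * ‖rem w S u - v‖ ≤ (‖f‖ + 1) * (δ / (2 * (‖f‖ + 1))) :=
      mul_le_mul (by linarith) h6 (norm_nonneg _) (by linarith)
    have h9 : (‖f‖ + 1) * (δ / (2 * (‖f‖ + 1))) = δ / 2 := by field_simp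
    rw [map_sub] at h7
    have := neg_abs_le (f (rem w S u) - f v)
    linarith

lemma stepA0 (f : X w →L[ℝ] ℝ) (δ : ℝ) (h : BPF w f 2 δ) (N : ℕ) :
    ∃ (v : X w) (T : Finset Γ), FS w v T ∧ ‖v‖ ≤ 2 * N ∧ N * δ ≤ f v ∧
      ∀ i (F : Finset Γ), (∀ γ ∈ w.S i, γ ∈ T → γ ∈ F) → |ev w i v| ≤ 2 * F.card := by
  classical
  induction N with
  | zero =>
    exact ⟨0, ∅, fun γ _ => by simp, by simp, by simp, fun i F _ => by simp⟩
  | succ N ih =>
    obtain ⟨v, T, hT, hn, hf, hi⟩ := ih
    obtain ⟨u, ⟨T', hT'⟩, hu1, hu2, hu3⟩ := h T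
    refine ⟨v + u, T ∪ T', ?_, ?_, ?_, ?_⟩
    · intro γ hγ
      rw [Finset.mem_union] at hγ
      push Not at hγ
      rw [map_add, hT γ hγ.1, hT' γ hγ.2, add_zero]
    · push_cast
      have := norm_add_le v u
      linarith
    · push_cast
      rw [map_add]
      linarith
    · intro i F hF
      rw [map_add]
      by_cases hex : ∃ γ ∈ w.S i, γ ∉ T ∧ γ ∈ T'
      · obtain ⟨γ, h1, h2, h3⟩ := hex
        have h4 := hi i (F.erase γ) (fun γ' h5 h6 => by
          rw [Finset.mem_erase]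
          exact ⟨by rintro rfl; exact h2 h6, hF γ' h5 (Finset.mem_union_left _ h6)⟩)
        have h5 : γ ∈ F := hF γ h1 (Finset.mem_union_right _ h3)
        have h6 := Finset.card_erase_add_one h5
        have h7 : ((F.erase γ).card : ℝ) + 1 = F.card := by exact_mod_cast h6
        have h8 := abs_add_le (ev w i v) (ev w i u)
        have h9 := (ev_le w i u).trans hu2
        linarith
      · push Not at hex
        have h1 : ev w i u = 0 := by
          rw [ev_eq]
          apply Finset.sum_eq_zero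
          intro γ hγ
          by_cases hγT : γ ∈ T
          · rw [hu1 γ hγT, mul_zero]
          · rw [hT' γ (hex γ hγ hγT), mul_zero]
        rw [h1, add_zero]
        exact hi i F (fun γ h2 h3 => hF γ h2 (Finset.mem_union_left _ h3))

lemma stepA (f : X w →L[ℝ] ℝ) (δ : ℝ) (h : BPF w f 2 δ) (K : ℕ) (ε : ℝ) (hε : 0 < ε) :
    ∃ v : X w, (∃ T, FS w v T) ∧ ‖v‖ ≤ 2 ∧ δ ≤ f v ∧ ∀ i, w.k i ≤ K → |ev w i v| ≤ ε := by
  classical
  set B := (Finset.range (K+1)).sup w.b with hB
  obtain ⟨N, hN⟩ := exists_nat_gt (2 * (B:ℝ) / ε)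
  have hN0 : (0:ℝ) < N := lt_of_le_of_lt (by positivity) hN
  obtain ⟨v, T, hT, hn, hf, hi⟩ := stepA0 w f δ h N
  refine ⟨(1/(N:ℝ)) • v, ⟨T, fun γ hγ => by rw [map_smul, hT γ hγ, smul_zero]⟩, ?_, ?_, ?_⟩
  · rw [norm_smul, Real.norm_eq_abs, abs_of_pos (by positivity)]
    rw [div_mul_eq_mul_div, one_mul, div_le_iff₀ hN0]
    exact hn
  · rw [map_smul, smul_eq_mul, div_mul_eq_mul_div, one_mul, le_div_iff₀ hN0]
    linarith
  · intro i hk
    rw [map_smul, smul_eq_mul, abs_mul, abs_of_pos (show (0:ℝ) < 1/N by positivity)]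
    rw [div_mul_eq_mul_div, one_mul, div_le_iff₀ hN0]
    have h1 := hi i (w.S i) (fun γ h _ => h)
    have h2 : (w.S i).card ≤ B :=
      (w.card i).trans (Finset.le_sup (f := w.b) (Finset.mem_range.2 (by omega)))
    have h3 : ((w.S i).card : ℝ) ≤ B := by exact_mod_cast h2
    rw [div_lt_iff₀ hε] at hN
    linarith

lemma ev_small (v : X w) (T : Finset Γ) (hT : FS w v T) :
    ∀ i, |ev w i v| ≤ (1/2)^(w.k i) * ∑ γ ∈ T, |co w γ v| := by
  classical
  intro i
  rw [ev_eq]
  have h1 : ∑ γ ∈ w.S i, w.G i γ * co w γ v = ∑ γ ∈ w.S i ∩ T, w.G i γ * co w γ v := by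
    symm
    apply Finset.sum_subset Finset.inter_subset_left
    intro γ h1 h2
    rw [hT γ (fun h => h2 (Finset.mem_inter.2 ⟨h1, h⟩)), mul_zero]
  rw [h1]
  refine (Finset.abs_sum_le_sum_abs _ _).trans ?_
  rw [Finset.mul_sum]
  have h2 : ∑ γ ∈ w.S i ∩ T, |w.G i γ * co w γ v| ≤ ∑ γ ∈ w.S i ∩ T, (1/2)^(w.k i) * |co w γ v| := by
    apply Finset.sum_le_sum
    intro γ _
    rw [abs_mul]
    exact mul_le_mul_of_nonneg_right (w.le i γ) (abs_nonneg _)
  refine h2.trans ?_
  apply Finset.sum_le_sum_of_subset_of_nonneg Finset.inter_subset_right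
  intro γ _ _
  positivity

lemma stepB (f : X w →L[ℝ] ℝ) (δ : ℝ) (h : BPF w f 2 δ) (ε : ℝ) (hε : 0 < ε) (R : ℕ) :
    ∃ v : X w, (∃ T, FS w v T) ∧ R * δ ≤ f v ∧ ∀ i, |ev w i v| ≤ 2 + R * ε := by
  classical
  induction R with
  | zero => exact ⟨0, ⟨∅, fun γ _ => by simp⟩, by simp, fun i => by simp⟩
  | succ R ih =>
    obtain ⟨v, ⟨T, hT⟩, hf, hi⟩ := ih
    have hs := ev_small w v T hT
    set L := ∑ γ ∈ T, |co w γ v| with hL
    have hL0 : 0 ≤ L := Finset.sum_nonneg (fun _ _ => abs_nonneg _)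
    obtain ⟨K, hK⟩ := exists_pow_lt_of_lt_one (show (0:ℝ) < ε / (L + 1) by positivity)
      (show (1/2:ℝ) < 1 by norm_num)
    obtain ⟨u, ⟨T', hT'⟩, hu1, hu2, hu3⟩ := stepA w f δ h K ε hε
    refine ⟨v + u, ⟨T ∪ T', ?_⟩, ?_, ?_⟩
    · intro γ hγ
      rw [Finset.mem_union] at hγ
      push Not at hγ
      rw [map_add, hT γ hγ.1, hT' γ hγ.2, add_zero]
    · rw [map_add]; push_cast; linarith
    · intro i
      rw [map_add]
      have h1 := abs_add_le (ev w i v) (ev w i u)
      have h4 : 0 ≤ R * ε := by positivity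
      push_cast
      by_cases hk : w.k i ≤ K
      · have h2 := hu3 i hk
        have h3 := hi i
        linarith
      · push Not at hk
        have h2 : |ev w i v| ≤ ε := by
          refine (hs i).trans ?_
          have h3 : (1/2:ℝ)^(w.k i) ≤ (1/2)^K := pow_le_pow_of_le_one (by norm_num) (by norm_num) hk.le
          rw [lt_div_iff₀ (by positivity)] at hK
          have h5 : (0:ℝ) < (1/2)^K := by positivity
          have h6 : (0:ℝ) < (1/2)^(w.k i) := by positivity
          nlinarith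
        have h3 := (ev_le w i u).trans hu1
        linarith

theorem no_bp (f : X w →L[ℝ] ℝ) (δ : ℝ) (hδ : 0 < δ) : ¬ BP w f 1 δ := by
  intro h
  have h1 := bp_bpf w f δ hδ h
  have hf := norm_nonneg f
  set ε := δ / (4 * (‖f‖ + 1)) with hε
  have hε0 : 0 < ε := by positivity
  obtain ⟨R, hR⟩ := exists_nat_gt (8 * ‖f‖ / δ)
  obtain ⟨v, _, hv1, hv2⟩ := stepB w f (δ/2) h1 ε hε0 R
  have h2 : ‖v‖ ≤ 2 + R * ε := norm_le_of_ev w v _ (by positivity) hv2
  have h3 : f v ≤ ‖f‖ * ‖v‖ := (le_abs_self _).trans (f.le_opNorm v)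
  have h4 : ‖f‖ * ‖v‖ ≤ ‖f‖ * (2 + R * ε) := mul_le_mul_of_nonneg_left h2 hf
  have h5 : ‖f‖ * ε ≤ δ / 4 := by
    rw [hε, mul_div_assoc', div_le_div_iff₀ (by positivity) (by norm_num)]
    nlinarith
  rw [div_lt_iff₀ hδ] at hR
  have h6 : (0:ℝ) ≤ R := Nat.cast_nonneg _
  nlinarith

theorem no_bp' (f : X w →L[ℝ] ℝ) (C δ : ℝ) (hδ : 0 < δ)
    (h : ∀ S : Finset Γ, ∃ v : X w, (∀ γ ∈ S, co w γ v = 0) ∧ ‖v‖ ≤ C ∧ δ ≤ |f v|) : False := by
  have hC : 0 ≤ C := by
    obtain ⟨v, _, hv, _⟩ := h ∅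
    exact (norm_nonneg v).trans hv
  apply no_bp w f (δ / (C + 1)) (by positivity)
  intro S
  obtain ⟨v, hv1, hv2, hv3⟩ := h S
  have key : ∀ s : ℝ, |s| = 1 → δ ≤ s * f v → ∃ v : X w, (∀ γ ∈ S, co w γ v = 0) ∧ ‖v‖ ≤ 1 ∧ δ / (C + 1) ≤ f v := by
    intro s hs h1
    refine ⟨(s / (C+1)) • v, fun γ hγ => by rw [map_smul, hv1 γ hγ, smul_zero], ?_, ?_⟩
    · rw [norm_smul, Real.norm_eq_abs, abs_div, hs, abs_of_pos (by positivity), div_mul_eq_mul_div,
        one_mul, div_le_one (by positivity)]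
      linarith
    · rw [map_smul, smul_eq_mul, div_mul_eq_mul_div]
      exact div_le_div_of_nonneg_right h1 (by positivity)
  rcases le_total 0 (f v) with h0 | h0
  · exact key 1 (by simp) (by rw [abs_of_nonneg h0] at hv3; linarith)
  · exact key (-1) (by simp) (by rw [abs_of_nonpos h0] at hv3; linarith)

/-- coordinatewise null bounded nets are weakly null -/
theorem weak_null {α : Type} (l : Filter α) (x : α → X w) (C : ℝ) (hC : ∀ a, ‖x a‖ ≤ C)
    (hco : ∀ γ, Tendsto (fun a => co w γ (x a)) l (𝓝 0)) (f : X w →L[ℝ] ℝ) :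
    Tendsto (fun a => f (x a)) l (𝓝 0) := by
  classical
  by_contra hcon
  rw [Metric.tendsto_nhds] at hcon
  push Not at hcon
  obtain ⟨δ, hδ, hfr⟩ := hcon
  have hf := norm_nonneg f
  apply no_bp' w f (C + 1) (δ/2) (by positivity)
  intro S
  have hc : (0:ℝ) ≤ S.card := Nat.cast_nonneg _
  set η := min 1 (δ / (2 * (‖f‖ + 1))) / (S.card + 1) with hη
  have hη0 : 0 < η := by positivity
  have h1 : ∀ᶠ a in l, ∀ γ ∈ S, |co w γ (x a)| ≤ η := by
    rw [Filter.eventually_all_finset]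
    intro γ _
    have := (Metric.tendsto_nhds.1 (hco γ)) η hη0
    filter_upwards [this] with a ha
    rw [Real.dist_eq, sub_zero] at ha
    exact ha.le
  have h2 : ∃ᶠ a in l, δ ≤ |f (x a)| := by
    exact hfr.mono (fun a ha => by rw [Real.dist_eq, sub_zero] at ha; exact ha)
  obtain ⟨a, ha1, ha2⟩ := (h2.and_eventually h1).exists
  have h3 := norm_sumX_le w S (fun γ => co w γ (x a)) η ha2
  have h4 : (S.card : ℝ) * η ≤ min 1 (δ / (2 * (‖f‖ + 1))) := by
    have : (S.card + 1) * η = min 1 (δ / (2 * (‖f‖ + 1))) := by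
      rw [hη]; field_simp
    linarith
  have h5 : ‖∑ γ ∈ S, co w γ (x a) • eX w γ‖ ≤ 1 := (h3.trans h4).trans (min_le_left _ _)
  have h6 : ‖∑ γ ∈ S, co w γ (x a) • eX w γ‖ ≤ δ / (2 * (‖f‖ + 1)) := (h3.trans h4).trans (min_le_right _ _)
  refine ⟨rem w S (x a), co_rem w S (x a), ?_, ?_⟩
  · unfold rem
    refine (norm_sub_le _ _).trans ?_
    have := hC a
    linarith
  · unfold rem
    rw [map_sub]
    have h7 : |f (∑ γ ∈ S, co w γ (x a) • eX w γ)| ≤ ‖f‖ * ‖∑ γ ∈ S, co w γ (x a) • eX w γ‖ := f.le_opNorm _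
    have h8 : ‖f‖ * ‖∑ γ ∈ S, co w γ (x a) • eX w γ‖ ≤ (‖f‖ + 1) * (δ / (2 * (‖f‖ + 1))) :=
      mul_le_mul (by linarith) h6 (norm_nonneg _) (by linarith)
    have h9 : (‖f‖ + 1) * (δ / (2 * (‖f‖ + 1))) = δ / 2 := by field_simp
    have h10 := abs_sub_abs_le_abs_sub (f (x a)) (f (∑ γ ∈ S, co w γ (x a) • eX w γ))
    linarith

end Pool.Agent.S02856.TS

namespace Pool.Agent.S02856.TSW

/-- weakly uniformly rotund renormability, as in the frozen statement -/
def WUR (E : Type) [SeminormedAddCommGroup E] [NormedSpace ℝ E] : Prop :=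
  ∃ N : E → ℝ, (∀ a b, N (a + b) ≤ N a + N b) ∧ (∀ (r : ℝ) a, N (r • a) = |r| * N a) ∧
      (∃ c C : ℝ, 0 < c ∧ 0 < C ∧ ∀ a, c * ‖a‖ ≤ N a ∧ N a ≤ C * ‖a‖) ∧
      ∀ u v : ℕ → E, (∀ n, N (u n) ≤ 1) → (∀ n, N (v n) ≤ 1) →
        Tendsto (fun n => N (u n + v n)) atTop (𝓝 2) →
        ∀ f : E →L[ℝ] ℝ, Tendsto (fun n => f (u n - v n)) atTop (𝓝 0)

theorem wur_of {E H : Type} [SeminormedAddCommGroup E] [NormedSpace ℝ E]
    [NormedAddCommGroup H] [InnerProductSpace ℝ H] (J : E →ₗ[ℝ] H) (C : ℝ) (hC : 0 ≤ C)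
    (hJ : ∀ x, ‖J x‖ ≤ C * ‖x‖)
    (hw : ∀ x : ℕ → E, (∀ n, ‖x n‖ ≤ 2) → Tendsto (fun n => ‖J (x n)‖) atTop (𝓝 0) →
      ∀ f : E →L[ℝ] ℝ, Tendsto (fun n => f (x n)) atTop (𝓝 0)) : WUR E := by
  let T : E → WithLp 2 (E × H) := fun x => WithLp.toLp 2 (x, J x)
  have hTadd : ∀ a b, T (a + b) = T a + T b := by
    intro a b
    change WithLp.toLp 2 (a + b, J (a + b)) = WithLp.toLp 2 (a, J a) + WithLp.toLp 2 (b, J b)
    rw [map_add, ← WithLp.toLp_add]
    rfl
  have hTsmul : ∀ (r : ℝ) a, T (r • a) = r • T a := by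
    intro r a
    change WithLp.toLp 2 (r • a, J (r • a)) = r • WithLp.toLp 2 (a, J a)
    rw [map_smul, ← WithLp.toLp_smul]
    rfl
  have hTn : ∀ a, ‖T a‖^2 = ‖a‖^2 + ‖J a‖^2 := by
    intro a
    rw [WithLp.prod_norm_sq_eq_of_L2]
    rfl
  refine ⟨fun x => ‖T x‖, ?_, ?_, ⟨1, 1 + C, one_pos, by positivity, ?_⟩, ?_⟩
  · intro a b
    change ‖T (a + b)‖ ≤ ‖T a‖ + ‖T b‖
    rw [hTadd]; exact norm_add_le _ _
  · intro r a
    change ‖T (r • a)‖ = |r| * ‖T a‖
    rw [hTsmul, norm_smul, Real.norm_eq_abs]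
  · intro a
    have h := hTn a
    have h0 := norm_nonneg a
    have h1 := norm_nonneg (T a)
    have h2 := norm_nonneg (J a)
    have h3 := hJ a
    constructor
    · change 1 * ‖a‖ ≤ ‖T a‖
      rw [one_mul]
      apply abs_le_of_sq_le_sq' _ h1 |>.2
      nlinarith
    · change ‖T a‖ ≤ (1 + C) * ‖a‖
      apply abs_le_of_sq_le_sq' _ (by positivity) |>.2
      rw [h]
      have h4 : ‖J a‖^2 ≤ (C * ‖a‖)^2 := pow_le_pow_left₀ h2 h3 2
      have h5 : 0 ≤ C * ‖a‖^2 := by positivity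
      nlinarith
  · intro u v hu hv huv f
    change ∀ n, ‖T (u n)‖ ≤ 1 at hu
    change ∀ n, ‖T (v n)‖ ≤ 1 at hv
    change Tendsto (fun n => ‖T (u n + v n)‖) atTop (𝓝 2) at huv
    have hle : ∀ a, ‖a‖ ≤ ‖T a‖ := by
      intro a
      have h := hTn a
      apply abs_le_of_sq_le_sq' _ (norm_nonneg _) |>.2
      nlinarith [sq_nonneg ‖J a‖]
    apply hw
    · intro n
      refine (norm_sub_le _ _).trans ?_
      linarith [hle (u n), hle (v n), hu n, hv n]
    · have hb : ∀ n, ‖J (u n - v n)‖^2 ≤ 4 - ‖T (u n + v n)‖^2 := by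
        intro n
        have h1 := hTn (u n)
        have h2 := hTn (v n)
        have h3 := hTn (u n + v n)
        have h4 := parallelogram_law_with_norm ℝ (J (u n)) (J (v n))
        rw [map_add] at h3
        rw [map_sub]
        have h5 := norm_add_le (u n) (v n)
        have h6 : ‖u n + v n‖^2 ≤ 2 * ‖u n‖^2 + 2 * ‖v n‖^2 := by
          have : ‖u n + v n‖^2 ≤ (‖u n‖ + ‖v n‖)^2 := pow_le_pow_left₀ (norm_nonneg _) h5 2
          nlinarith [sq_nonneg (‖u n‖ - ‖v n‖)]
        have h7 : ‖T (u n)‖^2 ≤ 1 := by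
          have := pow_le_pow_left₀ (norm_nonneg _) (hu n) 2
          simpa using this
        have h8 : ‖T (v n)‖^2 ≤ 1 := by
          have := pow_le_pow_left₀ (norm_nonneg _) (hv n) 2
          simpa using this
        nlinarith
      have h1 : Tendsto (fun n => 4 - ‖T (u n + v n)‖^2) atTop (𝓝 0) := by
        have := (huv.pow 2).const_sub 4
        norm_num at this
        exact this
      have h2 : Tendsto (fun n => ‖J (u n - v n)‖^2) atTop (𝓝 0) :=
        squeeze_zero (fun n => by positivity) hb h1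
      have h3 := h2.sqrt
      rw [Real.sqrt_zero] at h3
      refine h3.congr (fun n => ?_)
      rw [Real.sqrt_sq (norm_nonneg _)]

theorem exists_J {E I : Type} [SeminormedAddCommGroup E] [NormedSpace ℝ E] (a : I → E →ₗ[ℝ] ℝ)
    (C : ℝ) (hC : 0 ≤ C) (h : ∀ x (s : Finset I), ∑ i ∈ s, (a i x)^2 ≤ (C * ‖x‖)^2) :
    ∃ J : E →ₗ[ℝ] lp (fun _ : I => ℝ) 2, (∀ x i, (J x) i = a i x) ∧ ∀ x, ‖J x‖ ≤ C * ‖x‖ := by
  have hmem : ∀ x, Memℓp (fun i => a i x) 2 := by
    intro x
    apply memℓp_gen' (C := (C * ‖x‖)^2)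
    intro s
    refine le_trans (le_of_eq ?_) (h x s)
    apply Finset.sum_congr rfl
    intro i _
    norm_num
  refine ⟨{ toFun := fun x => ⟨fun i => a i x, hmem x⟩
            map_add' := ?_
            map_smul' := ?_ }, ?_, ?_⟩
  · intro x y
    ext i
    change a i (x + y) = a i x + a i y
    rw [map_add]
  · intro r x
    ext i
    change a i (r • x) = r * a i x
    rw [map_smul, smul_eq_mul]
  · intro x i; rfl
  · intro x
    apply lp.norm_le_of_forall_sum_le (by norm_num) (by positivity)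
    intro s
    refine le_trans (le_of_eq ?_) ((h x s).trans (le_of_eq ?_))
    · apply Finset.sum_congr rfl
      intro i _
      change ‖a i x‖ ^ (2:ℝ≥0∞).toReal = _
      norm_num
    · norm_num

/-- square sums from graded sums -/
theorem sq_sum {I : Type} (y : I → ℝ) (c : ℝ) (hc : 0 ≤ c)
    (h : ∀ (k : ℕ) (F : Finset I), F.card ≤ 8^k → (1/2)^k * ∑ i ∈ F, |y i| ≤ c) (F : Finset I) :
    ∑ i ∈ F, (y i)^2 ≤ (4 * c)^2 := by
  classical
  have h1 : ∀ i, |y i| ≤ c := by
    intro i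
    have := h 0 {i} (by simp)
    simpa using this
  have hL : ∀ (K : ℕ) (L : Finset I), (∀ i ∈ L, c * (1/4)^(K+1) < |y i|) → L.card < 8^(K+1) := by
    intro K L hL
    by_contra hcon
    push Not at hcon
    obtain ⟨L', hL', hcard⟩ := Finset.exists_subset_card_eq hcon
    have h2 := h (K+1) L' hcard.le
    have hne : L'.Nonempty := by
      rw [← Finset.card_pos, hcard]; positivity
    have h3 : ∑ i ∈ L', c * (1/4)^(K+1) < ∑ i ∈ L', |y i| :=
      Finset.sum_lt_sum_of_nonempty hne (fun i hi => hL i (hL' hi))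
    rw [Finset.sum_const, nsmul_eq_mul, hcard] at h3
    push_cast at h3
    have h4 : (1/2:ℝ)^(K+1) * (8^(K+1) * (c * (1/4)^(K+1))) = c := by
      have : (1/2:ℝ)^(K+1) * (8^(K+1) * (1/4)^(K+1)) = 1 := by
        rw [← mul_pow, ← mul_pow]; norm_num
      linear_combination c * this
    have h5 : (0:ℝ) < (1/2)^(K+1) := by positivity
    have h6 := mul_lt_mul_of_pos_left h3 h5
    linarith
  have hind : ∀ K : ℕ, ∑ i ∈ F.filter (fun i => c * (1/4)^K < |y i|), (y i)^2 ≤
      16 * c^2 * (1 - (1/2)^K) := by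
    intro K
    induction K with
    | zero =>
      rw [Finset.filter_false_of_mem, Finset.sum_empty]
      · simp
      · intro i _
        have := h1 i
        simp only [pow_zero, mul_one]
        linarith
    | succ K ih =>
      have hsplit : F.filter (fun i => c * (1/4)^(K+1) < |y i|) ⊆
          F.filter (fun i => c * (1/4)^K < |y i|) ∪
            F.filter (fun i => c * (1/4)^(K+1) < |y i| ∧ |y i| ≤ c * (1/4)^K) := by
        intro i hi
        rw [Finset.mem_filter] at hi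
        rw [Finset.mem_union, Finset.mem_filter, Finset.mem_filter]
        by_cases h2 : c * (1/4)^K < |y i|
        · exact Or.inl ⟨hi.1, h2⟩
        · exact Or.inr ⟨hi.1, hi.2, not_lt.1 h2⟩
      set A := F.filter (fun i => c * (1/4)^K < |y i|)
      set B := F.filter (fun i => c * (1/4)^(K+1) < |y i| ∧ |y i| ≤ c * (1/4)^K)
      have h2 : ∑ i ∈ F.filter (fun i => c * (1/4)^(K+1) < |y i|), (y i)^2 ≤
          ∑ i ∈ A, (y i)^2 + ∑ i ∈ B, (y i)^2 := by
        refine (Finset.sum_le_sum_of_subset_of_nonneg hsplit (fun i _ _ => sq_nonneg _)).trans ?_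
        have h3 := Finset.sum_union_inter (s₁ := A) (s₂ := B) (f := fun i => (y i)^2)
        have h4 : 0 ≤ ∑ i ∈ A ∩ B, (y i)^2 := Finset.sum_nonneg (fun i _ => sq_nonneg _)
        linarith
      have h3 : ∑ i ∈ B, (y i)^2 ≤ ∑ i ∈ B, (c * (1/4)^K)^2 := by
        apply Finset.sum_le_sum
        intro i hi
        rw [← sq_abs]
        exact pow_le_pow_left₀ (abs_nonneg _) (Finset.mem_filter.1 hi).2.2 2
      have h4 : B.card < 8^(K+1) := hL K B (fun i hi => (Finset.mem_filter.1 hi).2.1)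
      have h5 : (B.card : ℝ) ≤ 8^(K+1) := by exact_mod_cast h4.le
      rw [Finset.sum_const, nsmul_eq_mul] at h3
      have h6 : (B.card : ℝ) * (c * (1/4)^K)^2 ≤ 8^(K+1) * (c * (1/4)^K)^2 :=
        mul_le_mul_of_nonneg_right h5 (sq_nonneg _)
      have h7 : (8:ℝ)^(K+1) * (c * (1/4)^K)^2 = 8 * c^2 * (1/2)^K := by
        have : (8:ℝ)^K * ((1/4)^K)^2 = (1/2)^K := by
          rw [← pow_mul, mul_comm K 2, pow_mul, ← mul_pow]; norm_num
        rw [pow_succ]
        linear_combination 8 * c^2 * this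
      have h8 : (1/2:ℝ)^(K+1) = (1/2)^K / 2 := by rw [pow_succ]; ring
      rw [h8]
      nlinarith
  have h2 := hind F.card
  have h3 : ∑ i ∈ F, (y i)^2 ≤ ∑ i ∈ F.filter (fun i => c * (1/4)^F.card < |y i|), (y i)^2 +
      F.card * (c * (1/4)^F.card)^2 := by
    rw [← Finset.sum_filter_add_sum_filter_not F (fun i => c * (1/4)^F.card < |y i|)]
    have h4 : ∑ i ∈ F.filter (fun i => ¬ c * (1/4)^F.card < |y i|), (y i)^2 ≤
        ∑ i ∈ F.filter (fun i => ¬ c * (1/4)^F.card < |y i|), (c * (1/4)^F.card)^2 := by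
      apply Finset.sum_le_sum
      intro i hi
      rw [← sq_abs]
      exact pow_le_pow_left₀ (abs_nonneg _) (not_lt.1 (Finset.mem_filter.1 hi).2) 2
    rw [Finset.sum_const, nsmul_eq_mul] at h4
    have h5 : ((F.filter (fun i => ¬ c * (1/4)^F.card < |y i|)).card : ℝ) ≤ F.card := by
      exact_mod_cast Finset.card_filter_le _ _
    have h6 := mul_le_mul_of_nonneg_right h5 (sq_nonneg (c * (1/4)^F.card))
    linarith
  have h4 : (F.card : ℝ) ≤ 8^F.card := by
    have : F.card < 8^F.card := Nat.lt_pow_self (by norm_num)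
    exact_mod_cast this.le
  have h5 : (F.card : ℝ) * (c * (1/4)^F.card)^2 ≤ 8^F.card * (c * (1/4)^F.card)^2 :=
    mul_le_mul_of_nonneg_right h4 (sq_nonneg _)
  have h7 : (8:ℝ)^F.card * (c * (1/4)^F.card)^2 = c^2 * (1/2)^F.card := by
    have : (8:ℝ)^F.card * ((1/4)^F.card)^2 = (1/2)^F.card := by
      rw [← pow_mul, mul_comm F.card 2, pow_mul, ← mul_pow]; norm_num
    linear_combination c^2 * this
  have h8 : 0 ≤ c^2 * (1/2)^F.card := by positivity
  nlinarith

end Pool.Agent.S02856.TSW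

namespace Pool.Agent.S02856.TSF

open Pool.Agent.S02856.TS Pool.Agent.S02856.TSW

abbrev K : Type := ℕ → Bool
abbrev Ga : Type := K ⊕ (K × ℕ)
abbrev Gi : Type := ℕ × Finset K × (K → Bool) × Option ℕ

noncomputable section

open scoped Classical

/-- branching levels of `s` with the other members of `F` -/
def D (F : Finset K) (s : K) : Finset ℕ := (F.filter (fun t => t ≠ s)).image (fun t => PiNat.firstDiff s t)

lemma D_single (s : K) : D {s} s = ∅ := by
  unfold D
  rw [Finset.filter_false_of_mem, Finset.image_empty]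
  intro t ht
  rw [Finset.mem_singleton] at ht
  simp [ht]

lemma D_card (F : Finset K) (s : K) : (D F s).card ≤ F.card :=
  Finset.card_image_le.trans (Finset.card_filter_le _ _)

/-- sign -/
def sg (b : Bool) : ℝ := if b then 1 else -1

lemma abs_sg (b : Bool) : |sg b| = 1 := by cases b <;> simp [sg]

def gG (i : Gi) (γ : Ga) : ℝ :=
  if i.2.1.card ≤ 8^i.1 then
    match i.2.2.2, γ with
    | none, Sum.inl s => if s ∈ i.2.1 then sg (i.2.2.1 s) * (1/2)^i.1 else 0
    | none, Sum.inr p => if p.1 ∈ i.2.1 ∧ p.2 ∈ D i.2.1 p.1 then -(sg (i.2.2.1 p.1) * (1/2)^i.1) else 0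
    | some _, Sum.inl _ => 0
    | some j, Sum.inr p => if p.1 ∈ i.2.1 ∧ p.2 = j then sg (i.2.2.1 p.1) * (1/2)^i.1 else 0
  else 0

def gS (i : Gi) : Finset Ga :=
  if i.2.1.card ≤ 8^i.1 then
    match i.2.2.2 with
    | none => i.2.1.image Sum.inl ∪ i.2.1.biUnion (fun s => (D i.2.1 s).image (fun j => Sum.inr (s, j)))
    | some j => i.2.1.image (fun s => Sum.inr (s, j))
  else ∅

lemma gG_le (i : Gi) (γ : Ga) : |gG i γ| ≤ (1/2)^i.1 := by
  obtain ⟨k, F, ε, o⟩ := i
  have h0 : (0:ℝ) ≤ (1/2)^k := by positivity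
  have h1 : ∀ b, |sg b * (1/2)^k| ≤ (1/2)^k := by
    intro b
    rw [abs_mul, abs_sg, one_mul, abs_of_nonneg h0]
  unfold gG
  split_ifs with hc
  · rcases o with _ | j <;> rcases γ with s | p
    · change |(if s ∈ F then sg (ε s) * (1/2)^k else 0 : ℝ)| ≤ (1/2)^k
      split_ifs
      · exact h1 _
      · simpa using h0
    · change |(if p.1 ∈ F ∧ p.2 ∈ D F p.1 then -(sg (ε p.1) * (1/2)^k) else 0 : ℝ)| ≤ (1/2)^k
      split_ifs
      · rw [abs_neg]; exact h1 _
      · simpa using h0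
    · change |(0:ℝ)| ≤ (1/2)^k
      simpa using h0
    · change |(if p.1 ∈ F ∧ p.2 = j then sg (ε p.1) * (1/2)^k else 0 : ℝ)| ≤ (1/2)^k
      split_ifs
      · exact h1 _
      · simpa using h0
  · simpa using h0

lemma gG_zero (i : Gi) (γ : Ga) (h : γ ∉ gS i) : gG i γ = 0 := by
  classical
  obtain ⟨k, F, ε, o⟩ := i
  unfold gS at h
  unfold gG
  split_ifs with hc
  · rw [if_pos hc] at h
    rcases o with _ | j <;> rcases γ with s | p
    · change (if s ∈ F then sg (ε s) * (1/2)^k else 0 : ℝ) = 0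
      rw [if_neg]
      intro hs
      apply h
      exact Finset.mem_union_left _ (Finset.mem_image_of_mem _ hs)
    · change (if p.1 ∈ F ∧ p.2 ∈ D F p.1 then -(sg (ε p.1) * (1/2)^k) else 0 : ℝ) = 0
      rw [if_neg]
      rintro ⟨h1, h2⟩
      apply h
      apply Finset.mem_union_right
      rw [Finset.mem_biUnion]
      exact ⟨p.1, h1, Finset.mem_image.2 ⟨p.2, h2, rfl⟩⟩
    · rfl
    · change (if p.1 ∈ F ∧ p.2 = j then sg (ε p.1) * (1/2)^k else 0 : ℝ) = 0
      rw [if_neg]
      rintro ⟨h1, h2⟩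
      apply h
      change Sum.inr p ∈ F.image (fun s => Sum.inr (s, j))
      rw [Finset.mem_image]
      exact ⟨p.1, h1, by rw [← h2]⟩
  · rfl

lemma gS_card (i : Gi) : (gS i).card ≤ 8^i.1 + 8^i.1 * 8^i.1 := by
  classical
  obtain ⟨k, F, ε, o⟩ := i
  unfold gS
  split_ifs with hc
  · have hc' : F.card ≤ 8^k := hc
    rcases o with _ | j
    · change (F.image Sum.inl ∪ F.biUnion (fun s => (D F s).image (fun j => Sum.inr (s, j)))).card ≤ 8^k + 8^k * 8^k
      refine (Finset.card_union_le _ _).trans ?_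
      apply add_le_add
      · exact Finset.card_image_le.trans hc'
      · refine Finset.card_biUnion_le.trans ?_
        refine (Finset.sum_le_card_nsmul F _ (8^k) (fun s _ => ?_)).trans ?_
        · exact Finset.card_image_le.trans ((D_card F s).trans hc')
        · rw [smul_eq_mul]
          exact Nat.mul_le_mul_right _ hc'
    · change (F.image (fun s => Sum.inr (s, j))).card ≤ 8^k + 8^k * 8^k
      exact Finset.card_image_le.trans (hc'.trans (Nat.le_add_right _ _))
  · simp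

def gi0 (γ : Ga) : Gi :=
  match γ with
  | Sum.inl s => (0, {s}, fun _ => true, none)
  | Sum.inr p => (0, {p.1}, fun _ => true, some p.2)

lemma g0 (γ : Ga) : gG (gi0 γ) γ = 1 := by
  rcases γ with s | p
  · unfold gG
    rw [if_pos (by simp [gi0])]
    change (if s ∈ ({s} : Finset K) then sg true * (1/2)^0 else 0 : ℝ) = 1
    simp [sg]
  · unfold gG
    rw [if_pos (by simp [gi0])]
    change (if p.1 ∈ ({p.1} : Finset K) ∧ p.2 = p.2 then sg true * (1/2)^0 else 0 : ℝ) = 1
    simp [sg]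

lemma g1 (γ γ' : Ga) (h : γ' ≠ γ) : gG (gi0 γ) γ' = 0 := by
  rcases γ with s | p
  · unfold gG
    rw [if_pos (by simp [gi0])]
    rcases γ' with s' | p'
    · change (if s' ∈ ({s} : Finset K) then sg true * (1/2)^0 else 0 : ℝ) = 0
      rw [if_neg]
      intro hh
      rw [Finset.mem_singleton] at hh
      exact h (by rw [hh])
    · change (if p'.1 ∈ ({s} : Finset K) ∧ p'.2 ∈ D {s} p'.1 then -(sg true * (1/2)^0) else 0 : ℝ) = 0
      rw [if_neg]
      rintro ⟨h1, h2⟩
      rw [Finset.mem_singleton] at h1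
      rw [h1, D_single] at h2
      simp at h2
  · unfold gG
    rw [if_pos (by simp [gi0])]
    rcases γ' with s' | p'
    · rfl
    · change (if p'.1 ∈ ({p.1} : Finset K) ∧ p'.2 = p.2 then sg true * (1/2)^0 else 0 : ℝ) = 0
      rw [if_neg]
      rintro ⟨h1, h2⟩
      rw [Finset.mem_singleton] at h1
      exact h (by rw [Prod.ext h1 h2])

/-- the family -/
def fam : Fam Gi Ga where
  G := gG
  k := fun i => i.1
  S := gS
  b := fun k => 8^k + 8^k * 8^k
  zero := gG_zero
  le := gG_le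
  card := gS_card
  i0 := gi0
  g0 := g0
  g1 := g1

abbrev XX : Type := X fam

abbrev cy (s : K) : XX →L[ℝ] ℝ := co fam (Sum.inl s)
abbrev cq (s : K) (i : ℕ) : XX →L[ℝ] ℝ := co fam (Sum.inr (s, i))

/-- formula for the evaluations, first kind -/
lemma ev_none (k : ℕ) (F : Finset K) (ε : K → Bool) (hF : F.card ≤ 8^k) (v : XX) :
    ev fam (k, F, ε, none) v =
      (1/2)^k * ∑ s ∈ F, sg (ε s) * (cy s v - ∑ i ∈ D F s, cq s i v) := by
  classical
  have := clm_ext fam (ev fam (k, F, ε, none))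
    (((1/2:ℝ)^k) • ∑ s ∈ F, sg (ε s) • (cy s - ∑ i ∈ D F s, cq s i)) (by
      intro q
      rw [ev_eX]
      rw [smul_apply, sum_apply, smul_eq_mul]
      change gG (k, F, ε, none) q = _
      unfold gG
      rw [if_pos hF]
      rcases q with s | p
      · change (if s ∈ F then sg (ε s) * (1/2)^k else 0 : ℝ) = _
        have h1 : ∀ t, (sg (ε t) • (cy t - ∑ i ∈ D F t, cq t i)) (eX fam (Sum.inl s)) =
            if t = s then sg (ε s) else 0 := by
          intro t
          rw [smul_apply, sub_apply, sum_apply]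
          rw [Finset.sum_eq_zero (fun i _ => co_eX_ne fam (Sum.inr (t, i)) (Sum.inl s) (by simp)), sub_zero]
          by_cases hts : t = s
          · subst hts
            rw [if_pos rfl, co_eX, smul_eq_mul, mul_one]
          · rw [if_neg hts, co_eX_ne fam (Sum.inl t) (Sum.inl s) (by
              intro h; exact hts (Sum.inl_injective h).symm), smul_zero]
        rw [Finset.sum_congr rfl (fun t _ => h1 t), Finset.sum_ite_eq']
        split_ifs <;> ring
      · obtain ⟨s, i⟩ := p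
        change (if s ∈ F ∧ i ∈ D F s then -(sg (ε s) * (1/2)^k) else 0 : ℝ) = _
        have h1 : ∀ t, (sg (ε t) • (cy t - ∑ i ∈ D F t, cq t i)) (eX fam (Sum.inr (s, i))) =
            if t = s then (if i ∈ D F s then - sg (ε s) else 0) else 0 := by
          intro t
          rw [smul_apply, sub_apply, sum_apply]
          rw [co_eX_ne fam (Sum.inl t) (Sum.inr (s, i)) (by simp)]
          have h2 : ∀ j, (co fam (Sum.inr (t, j))) (eX fam (Sum.inr (s, i))) =
              if j = i then (if t = s then 1 else 0) else 0 := by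
            intro j
            by_cases hj : j = i
            · by_cases ht : t = s
              · subst hj; subst ht
                rw [if_pos rfl, if_pos rfl, co_eX]
              · rw [if_pos hj, if_neg ht, co_eX_ne]
                intro h
                have := Sum.inr_injective h
                exact ht (congrArg Prod.fst this).symm
            · rw [if_neg hj, co_eX_ne]
              intro h
              have := Sum.inr_injective h
              exact hj (congrArg Prod.snd this).symm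
          rw [Finset.sum_congr rfl (fun j _ => h2 j), Finset.sum_ite_eq']
          by_cases ht : t = s
          · subst ht
            rw [if_pos rfl, if_pos rfl]
            split_ifs <;> simp
          · rw [if_neg ht]
            split_ifs <;> simp
        rw [Finset.sum_congr rfl (fun t _ => h1 t), Finset.sum_ite_eq']
        by_cases hs : s ∈ F <;> by_cases hi : i ∈ D F s
        · rw [if_pos ⟨hs, hi⟩, if_pos hs, if_pos hi]; ring
        · rw [if_neg (fun h => hi h.2), if_pos hs, if_neg hi]; ring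
        · rw [if_neg (fun h => hs h.1), if_neg hs]; ring
        · rw [if_neg (fun h => hs h.1), if_neg hs]; ring) v
  rw [this, smul_apply, sum_apply, smul_eq_mul]
  congr 1
  apply Finset.sum_congr rfl
  intro s _
  rw [smul_apply, sub_apply, sum_apply, smul_eq_mul]

/-- formula for the evaluations, second kind -/
lemma ev_some (k : ℕ) (F : Finset K) (ε : K → Bool) (j : ℕ) (hF : F.card ≤ 8^k) (v : XX) :
    ev fam (k, F, ε, some j) v = (1/2)^k * ∑ s ∈ F, sg (ε s) * cq s j v := by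
  classical
  have := clm_ext fam (ev fam (k, F, ε, some j))
    (((1/2:ℝ)^k) • ∑ s ∈ F, sg (ε s) • cq s j) (by
      intro q
      rw [ev_eX]
      rw [smul_apply, sum_apply, smul_eq_mul]
      change gG (k, F, ε, some j) q = _
      unfold gG
      rw [if_pos hF]
      rcases q with s | p
      · change (0:ℝ) = _
        rw [Finset.sum_eq_zero, mul_zero]
        intro t _
        rw [smul_apply, co_eX_ne fam (Sum.inr (t, j)) (Sum.inl s) (by simp), smul_zero]
      · obtain ⟨s, i⟩ := p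
        change (if s ∈ F ∧ i = j then sg (ε s) * (1/2)^k else 0 : ℝ) = _
        have h1 : ∀ t, (sg (ε t) • cq t j) (eX fam (Sum.inr (s, i))) =
            if t = s then (if i = j then sg (ε s) else 0) else 0 := by
          intro t
          rw [smul_apply]
          by_cases ht : t = s
          · by_cases hj : i = j
            · subst ht; subst hj
              rw [co_eX, if_pos rfl, if_pos rfl, smul_eq_mul, mul_one]
            · rw [if_pos ht, if_neg hj, co_eX_ne, smul_zero]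
              intro h
              have := Sum.inr_injective h
              exact hj (congrArg Prod.snd this)
          · rw [if_neg ht, co_eX_ne, smul_zero]
            intro h
            have := Sum.inr_injective h
            exact ht (congrArg Prod.fst this).symm
        rw [Finset.sum_congr rfl (fun t _ => h1 t), Finset.sum_ite_eq']
        by_cases hs : s ∈ F <;> by_cases hi : i = j
        · rw [if_pos ⟨hs, hi⟩, if_pos hs, if_pos hi]; ring
        · rw [if_neg (fun h => hi h.2), if_pos hs, if_neg hi]; ring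
        · rw [if_neg (fun h => hs h.1), if_neg hs]; ring
        · rw [if_neg (fun h => hs h.1), if_neg hs]; ring) v
  rw [this, smul_apply, sum_apply, smul_eq_mul]
  rfl

lemma ev_big (k : ℕ) (F : Finset K) (ε : K → Bool) (o : Option ℕ) (hF : ¬ F.card ≤ 8^k) (v : XX) :
    ev fam (k, F, ε, o) v = 0 := by
  rw [ev_eq]
  apply Finset.sum_eq_zero
  intro γ _
  change gG (k, F, ε, o) γ * _ = 0
  unfold gG
  rw [if_neg hF, zero_mul]

end

end Pool.Agent.S02856.TSF

namespace Pool.Agent.S02856.TSY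

open Pool.Agent.S02856.TS Pool.Agent.S02856.TSW Pool.Agent.S02856.TSF

noncomputable section

open scoped Classical

/-- the subspace -/
def Y : Submodule ℝ XX := ⨅ p : K × ℕ, LinearMap.ker ((cq p.1 p.2 : XX →L[ℝ] ℝ) : XX →ₗ[ℝ] ℝ)

lemma mem_Y (x : XX) : x ∈ Y ↔ ∀ s i, cq s i x = 0 := by
  unfold Y
  rw [Submodule.mem_iInf]
  constructor
  · intro h s i; exact h (s, i)
  · intro h p; exact h p.1 p.2

lemma Y_closed : IsClosed (Y : Set XX) := by
  have : (Y : Set XX) = ⋂ p : K × ℕ, {x : XX | cq p.1 p.2 x = 0} := by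
    ext x
    rw [Set.mem_iInter]
    exact (mem_Y x).trans ⟨fun h p => h p.1 p.2, fun h s i => h (s, i)⟩
  rw [this]
  exact isClosed_iInter (fun p => isClosed_eq (cq p.1 p.2).continuous continuous_const)

lemma sum_abs (F : Finset K) (a : K → ℝ) :
    ∑ s ∈ F, sg (decide (0 ≤ a s)) * a s = ∑ s ∈ F, |a s| := by
  apply Finset.sum_congr rfl
  intro s _
  by_cases h : 0 ≤ a s
  · simp [sg, h, abs_of_nonneg h]
  · simp [sg, h, abs_of_neg (not_le.1 h)]

lemma sumy (y : XX) (hy : y ∈ Y) (k : ℕ) (F : Finset K) (hF : F.card ≤ 8^k) :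
    (1/2)^k * ∑ s ∈ F, |cy s y| ≤ ‖y‖ := by
  have h1 := ev_none k F (fun s => decide (0 ≤ cy s y)) hF y
  have h2 : ∀ s, cy s y - ∑ i ∈ D F s, cq s i y = cy s y := by
    intro s
    rw [Finset.sum_eq_zero (fun i _ => (mem_Y y).1 hy s i), sub_zero]
  simp only [h2] at h1
  rw [sum_abs F (fun s => cy s y)] at h1
  rw [← h1]
  exact (le_abs_self _).trans (ev_le fam _ y)

lemma sumq (x : XX) (j k : ℕ) (F : Finset K) (hF : F.card ≤ 8^k) :
    (1/2)^k * ∑ s ∈ F, |cq s j x| ≤ ‖x‖ := by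
  have h1 := ev_some k F (fun s => decide (0 ≤ cq s j x)) j hF x
  rw [sum_abs F (fun s => cq s j x)] at h1
  rw [← h1]
  exact (le_abs_self _).trans (ev_le fam _ x)

theorem wur_Y : WUR Y := by
  obtain ⟨J, hJ1, hJ2⟩ := exists_J (E := Y) (I := K)
    (fun s => ((cy s : XX →L[ℝ] ℝ) : XX →ₗ[ℝ] ℝ).comp Y.subtype) 4 (by norm_num) (by
      intro x F
      exact sq_sum (fun s => cy s (x : XX)) ‖x‖ (norm_nonneg _)
        (fun k F hF => sumy x x.2 k F hF) F)
  refine wur_of J 4 (by norm_num) hJ2 ?_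
  intro x hx hJx f
  obtain ⟨g, hg, _⟩ := exists_extension_norm_eq Y f
  have h1 := weak_null fam atTop (fun n => (x n : XX)) 2 (fun n => hx n) (by
    intro γ
    rcases γ with s | p
    · apply squeeze_zero_norm _ hJx
      intro n
      have h2 := lp.norm_apply_le_norm (p := 2) (by norm_num) (J (x n)) s
      rw [hJ1] at h2
      exact h2
    · have : (fun n => co fam (Sum.inr p) (x n : XX)) = fun _ => (0:ℝ) := by
        funext n
        exact (mem_Y _).1 (x n).2 p.1 p.2
      rw [this]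
      exact tendsto_const_nhds) g
  exact h1.congr (fun n => hg (x n))

lemma sumq2 (x : XX) (S : Finset (K × ℕ)) :
    ∑ p ∈ S, ((1/2)^p.2 * cq p.1 p.2 x)^2 ≤ (8 * ‖x‖)^2 := by
  have h1 : ∀ j (F : Finset K), ∑ s ∈ F, (cq s j x)^2 ≤ (4 * ‖x‖)^2 := fun j F =>
    sq_sum (fun s => cq s j x) ‖x‖ (norm_nonneg _) (fun k F hF => sumq x j k F hF) F
  have h2 : S ⊆ (S.image Prod.fst) ×ˢ (S.image Prod.snd) := by
    intro p hp
    rw [Finset.mem_product]
    exact ⟨Finset.mem_image_of_mem _ hp, Finset.mem_image_of_mem _ hp⟩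
  refine (Finset.sum_le_sum_of_subset_of_nonneg h2 (fun _ _ _ => sq_nonneg _)).trans ?_
  rw [Finset.sum_product_right]
  have h3 : ∀ j ∈ S.image Prod.snd, ∑ s ∈ S.image Prod.fst, ((1/2)^j * cq s j x)^2 ≤
      (1/4)^j * (4 * ‖x‖)^2 := by
    intro j _
    have h4 : ∑ s ∈ S.image Prod.fst, ((1/2)^j * cq s j x)^2 =
        (1/4)^j * ∑ s ∈ S.image Prod.fst, (cq s j x)^2 := by
      rw [Finset.mul_sum]
      apply Finset.sum_congr rfl
      intro s _
      rw [mul_pow, ← pow_mul, mul_comm j 2, pow_mul]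
      norm_num
    rw [h4]
    exact mul_le_mul_of_nonneg_left (h1 j _) (by positivity)
  refine (Finset.sum_le_sum h3).trans ?_
  rw [← Finset.sum_mul]
  have h5 : ∑ j ∈ S.image Prod.snd, (1/4:ℝ)^j ≤ 4/3 := by
    have hs : Summable (fun j : ℕ => (1/4:ℝ)^j) := summable_geometric_of_lt_one (by norm_num) (by norm_num)
    refine (hs.sum_le_tsum _ (fun j _ => by positivity)).trans ?_
    rw [tsum_geometric_of_lt_one (by norm_num) (by norm_num)]
    norm_num
  have h6 : 0 ≤ ‖x‖^2 := by positivity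
  nlinarith

/-- the projection -/
abbrev pr : XX →ₗ[ℝ] (XX ⧸ Y) := Y.mkQ

/-- weighted coordinates on the quotient -/
def aq (p : K × ℕ) : (XX ⧸ Y) →ₗ[ℝ] ℝ :=
  Y.liftQ (((1/2:ℝ)^p.2) • ((cq p.1 p.2 : XX →L[ℝ] ℝ) : XX →ₗ[ℝ] ℝ)) (by
    intro x hx
    rw [LinearMap.mem_ker]
    change (1/2:ℝ)^p.2 * cq p.1 p.2 x = 0
    rw [(mem_Y x).1 hx, mul_zero])

lemma aq_mk (p : K × ℕ) (x : XX) : aq p (Submodule.Quotient.mk x) = (1/2:ℝ)^p.2 * cq p.1 p.2 x := rfl

lemma lift_eps (z : XX ⧸ Y) (ε : ℝ) (hε : 0 < ε) :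
    ∃ x : XX, Submodule.Quotient.mk x = z ∧ ‖x‖ ≤ ‖z‖ + ε := by
  obtain ⟨x, hx1, hx2⟩ := Submodule.Quotient.norm_mk_lt z hε
  exact ⟨x, hx1, hx2.le⟩

lemma eX_mem_Y (s : K) : eX fam (Sum.inl s) ∈ Y := by
  rw [mem_Y]
  intro t i
  exact co_eX_ne fam (Sum.inr (t, i)) (Sum.inl s) (by simp)

/-- ultrafilter limit vectors are bounded -/
lemma lim_bound {α : Type} (U : Filter α) [U.NeBot] (x : α → XX) (C : ℝ) (hC : ∀ a, ‖x a‖ ≤ C)
    (hq : ∀ s i, Tendsto (fun a => cq s i (x a)) U (𝓝 0)) (y : K → ℝ)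
    (hy : ∀ s, Tendsto (fun a => cy s (x a)) U (𝓝 (y s))) (S : Finset K) :
    ‖∑ s ∈ S, y s • eX fam (Sum.inl s)‖ ≤ C := by
  have hC0 : 0 ≤ C := by
    obtain ⟨a⟩ : Nonempty α := Filter.nonempty_of_neBot U
    exact (norm_nonneg _).trans (hC a)
  set v : XX := ∑ s ∈ S, y s • eX fam (Sum.inl s) with hv
  have hvY : v ∈ Y := Submodule.sum_mem _ (fun s _ => Submodule.smul_mem _ _ (eX_mem_Y s))
  have hvy : ∀ t, cy t v = if t ∈ S then y t else 0 := by
    intro t
    rw [hv, map_sum]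
    have h1 : ∀ s, cy t (y s • eX fam (Sum.inl s)) = if s = t then y s else 0 := by
      intro s
      rw [map_smul]
      by_cases h : s = t
      · rw [if_pos h, h, co_eX, smul_eq_mul, mul_one]
      · rw [if_neg h, co_eX_ne, smul_zero]
        intro hh; exact h (Sum.inl_injective hh)
    rw [Finset.sum_congr rfl (fun s _ => h1 s), Finset.sum_ite_eq']
  apply norm_le_of_ev fam v C hC0
  rintro ⟨k, F, ε, o⟩
  by_cases hF : F.card ≤ 8^k
  · rcases o with _ | j
    · have h1 : Tendsto (fun a => ev fam (k, F ∩ S, ε, none) (x a)) U (𝓝 (ev fam (k, F, ε, none) v)) := by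
        have hF' : (F ∩ S).card ≤ 8^k := (Finset.card_le_card Finset.inter_subset_left).trans hF
        have h2 : ev fam (k, F, ε, none) v = (1/2)^k * ∑ s ∈ F ∩ S, sg (ε s) * (y s - ∑ i ∈ D (F ∩ S) s, 0) := by
          rw [ev_none k F ε hF]
          congr 1
          rw [← Finset.sum_filter_add_sum_filter_not F (fun s => s ∈ S), Finset.filter_mem_eq_inter]
          rw [Finset.sum_eq_zero (s := F.filter (fun s => ¬ s ∈ S)), add_zero]
          · apply Finset.sum_congr rfl
            intro s hs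
            rw [Finset.sum_eq_zero (fun i _ => (mem_Y v).1 hvY s i), hvy, if_pos (Finset.mem_inter.1 hs).2,
              Finset.sum_const_zero]
          · intro s hs
            rw [Finset.sum_eq_zero (fun i _ => (mem_Y v).1 hvY s i), hvy, if_neg (Finset.mem_filter.1 hs).2]
            simp
        rw [h2]
        have h3 : (fun a => ev fam (k, F ∩ S, ε, none) (x a)) =
            fun a => (1/2)^k * ∑ s ∈ F ∩ S, sg (ε s) * (cy s (x a) - ∑ i ∈ D (F ∩ S) s, cq s i (x a)) := by
          funext a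
          exact ev_none k (F ∩ S) ε hF' (x a)
        rw [h3]
        apply Tendsto.const_mul
        apply tendsto_finsetSum
        intro s _
        apply Tendsto.const_mul
        apply Tendsto.sub (hy s)
        apply tendsto_finsetSum
        intro i _
        exact hq s i
      refine le_of_tendsto h1.abs (Eventually.of_forall (fun a => ?_))
      exact (ev_le fam _ (x a)).trans (hC a)
    · rw [ev_some k F ε j hF, Finset.sum_eq_zero (fun s _ => by rw [(mem_Y v).1 hvY s j, mul_zero])]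
      simpa using hC0
  · rw [ev_big k F ε o hF]
    simpa using hC0

theorem wur_Q : WUR (XX ⧸ Y) := by
  obtain ⟨J, hJ1, hJ2⟩ := exists_J (E := XX ⧸ Y) (I := K × ℕ) aq 8 (by norm_num) (by
      intro z S
      have h0 : 0 ≤ ∑ p ∈ S, (aq p z)^2 := Finset.sum_nonneg (fun _ _ => sq_nonneg _)
      have h1 : Real.sqrt (∑ p ∈ S, (aq p z)^2) ≤ 8 * ‖z‖ := by
        apply le_of_forall_pos_le_add
        intro ε hε
        obtain ⟨x, hx1, hx2⟩ := lift_eps z (ε/8) (by positivity)
        have h2 := sumq2 x S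
        have h3 : ∑ p ∈ S, (aq p z)^2 = ∑ p ∈ S, ((1/2)^p.2 * cq p.1 p.2 x)^2 := by
          rw [← hx1]; rfl
        rw [h3]
        refine (Real.sqrt_le_sqrt h2).trans ?_
        rw [Real.sqrt_sq (by positivity)]
        linarith
      have h2 := pow_le_pow_left₀ (Real.sqrt_nonneg _) h1 2
      rwa [Real.sq_sqrt h0] at h2)
  refine wur_of J 8 (by norm_num) hJ2 ?_
  intro z hz hJz f
  by_contra hcon
  rw [Metric.tendsto_nhds] at hcon
  push Not at hcon
  obtain ⟨δ, hδ, hfr⟩ := hcon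
  have hfr' : ∃ᶠ n in atTop, δ ≤ |f (z n)| :=
    hfr.mono (fun a ha => by rw [Real.dist_eq, sub_zero] at ha; exact ha)
  -- lifts
  choose x hx1 hx2 using fun n => lift_eps (z n) 1 one_pos
  have hx3 : ∀ n, ‖x n‖ ≤ 3 := fun n => (hx2 n).trans (by linarith [hz n])
  -- the functional upstairs
  let F : XX →L[ℝ] ℝ := f.comp (Submodule.mkQL Y)
  have hF : ∀ v, F v = f (Submodule.Quotient.mk v) := fun v => rfl
  have hFY : ∀ v ∈ Y, F v = 0 := by
    intro v hv
    rw [hF, (Submodule.Quotient.mk_eq_zero Y).2 hv, map_zero]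
  have hq : ∀ s i, Tendsto (fun n => cq s i (x n)) atTop (𝓝 0) := by
    intro s i
    have h1 : Tendsto (fun n => aq (s, i) (z n)) atTop (𝓝 0) := by
      apply squeeze_zero_norm _ hJz
      intro n
      have h2 := lp.norm_apply_le_norm (p := 2) (by norm_num) (J (z n)) (s, i)
      rw [hJ1] at h2
      exact h2
    have h2 := h1.const_mul ((2:ℝ)^i)
    rw [mul_zero] at h2
    refine h2.congr (fun n => ?_)
    rw [← hx1 n, aq_mk, ← mul_assoc, ← mul_pow]
    norm_num
  -- ultrafilter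
  let l : Filter ℕ := atTop ⊓ 𝓟 {n | δ ≤ |f (z n)|}
  haveI : l.NeBot := frequently_iff_neBot.1 hfr'
  let U : Ultrafilter ℕ := Ultrafilter.of l
  have hUl : (U : Filter ℕ) ≤ l := Ultrafilter.of_le l
  have hUtop : (U : Filter ℕ) ≤ atTop := hUl.trans inf_le_left
  have hUδ : ∀ᶠ n in (U : Filter ℕ), δ ≤ |f (z n)| := by
    have : l ≤ 𝓟 {n | δ ≤ |f (z n)|} := inf_le_right
    exact (hUl.trans this) (mem_principal_self _)
  have hlim : ∀ s, ∃ y : ℝ, Tendsto (fun n => cy s (x n)) (U : Filter ℕ) (𝓝 y) := by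
    intro s
    obtain ⟨y, _, hy⟩ := (isCompact_Icc (a := (-3:ℝ)) (b := 3)).ultrafilter_le_nhds
      (U.map (fun n => cy s (x n))) (by
        rw [le_principal_iff]
        change (fun n => cy s (x n)) ⁻¹' _ ∈ U
        apply Filter.univ_mem'
        intro n
        have := (co_le fam (Sum.inl s) (x n)).trans (hx3 n)
        exact abs_le.1 this)
    exact ⟨y, hy⟩
  choose y hy using hlim
  apply no_bp' fam F 8 (δ/2) (by positivity)
  intro S
  have hb := lim_bound (U : Filter ℕ) x 3 hx3 (fun s i => (hq s i).mono_left hUtop) y hy S.toLeft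
  have hsum : ∀ n, ∑ γ ∈ S, co fam γ (x n) • eX fam γ =
      ∑ s ∈ S.toLeft, cy s (x n) • eX fam (Sum.inl s) +
        ∑ p ∈ S.toRight, cq p.1 p.2 (x n) • eX fam (Sum.inr p) := by
    intro n
    conv_lhs => rw [← Finset.toLeft_disjSum_toRight (u := S)]
    rw [Finset.sum_disjSum]
  have h1 : Tendsto (fun n => ∑ s ∈ S.toLeft, cy s (x n) • eX fam (Sum.inl s)) (U : Filter ℕ)
      (𝓝 (∑ s ∈ S.toLeft, y s • eX fam (Sum.inl s))) := by
    apply tendsto_finsetSum
    intro s _
    exact (hy s).smul_const _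
  have h2 : Tendsto (fun n => ∑ p ∈ S.toRight, cq p.1 p.2 (x n) • eX fam (Sum.inr p)) (U : Filter ℕ)
      (𝓝 0) := by
    have : Tendsto (fun n => ∑ p ∈ S.toRight, cq p.1 p.2 (x n) • eX fam (Sum.inr p)) (U : Filter ℕ)
        (𝓝 (∑ p ∈ S.toRight, (0:ℝ) • eX fam (Sum.inr p))) := by
      apply tendsto_finsetSum
      intro p _
      exact ((hq p.1 p.2).mono_left hUtop).smul_const _
    simpa using this
  have h3 : ∀ᶠ n in (U : Filter ℕ), ‖∑ s ∈ S.toLeft, cy s (x n) • eX fam (Sum.inl s)‖ ≤ 4 :=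
    (h1.norm.eventually_lt_const (lt_of_le_of_lt hb (by norm_num))).mono (fun n hn => le_of_lt hn)
  have h4 : ∀ᶠ n in (U : Filter ℕ), ‖∑ p ∈ S.toRight, cq p.1 p.2 (x n) • eX fam (Sum.inr p)‖ ≤ 1 := by
    have h5 := h2.norm
    rw [norm_zero] at h5
    exact (h5.eventually_lt_const one_pos).mono (fun n hn => le_of_lt hn)
  have h5 : ∀ᶠ n in (U : Filter ℕ),
      |F (∑ p ∈ S.toRight, cq p.1 p.2 (x n) • eX fam (Sum.inr p))| ≤ δ/2 := by
    have h6 : Tendsto (fun n => |F (∑ p ∈ S.toRight, cq p.1 p.2 (x n) • eX fam (Sum.inr p))|)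
        (U : Filter ℕ) (𝓝 0) := by
      have h7 := ((F.continuous.tendsto 0).comp h2).abs
      rw [map_zero, abs_zero] at h7
      exact h7
    exact (h6.eventually_lt_const (by positivity)).mono (fun n hn => le_of_lt hn)
  obtain ⟨n, hn3, hn4, hn5, hnδ⟩ := (h3.and (h4.and (h5.and hUδ))).exists
  refine ⟨rem fam S (x n), co_rem fam S (x n), ?_, ?_⟩
  · unfold rem
    rw [hsum]
    refine (norm_sub_le _ _).trans ?_
    have h6 := norm_add_le (∑ s ∈ S.toLeft, cy s (x n) • eX fam (Sum.inl s))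
      (∑ p ∈ S.toRight, cq p.1 p.2 (x n) • eX fam (Sum.inr p))
    have := hx3 n
    linarith
  · unfold rem
    rw [hsum, map_sub, map_add]
    rw [hFY (∑ s ∈ S.toLeft, cy s (x n) • eX fam (Sum.inl s))
      (Submodule.sum_mem _ (fun s _ => Submodule.smul_mem _ _ (eX_mem_Y s))), zero_add, hF (x n), hx1]
    have h10 := abs_sub_abs_le_abs_sub (f (z n)) (F (∑ p ∈ S.toRight, cq p.1 p.2 (x n) • eX fam (Sum.inr p)))
    linarith

end

end Pool.Agent.S02856.TSY

namespace Pool.Agent.S02856.TSX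

open Pool.Agent.S02856.TS Pool.Agent.S02856.TSW Pool.Agent.S02856.TSF

noncomputable section

open scoped Classical

lemma firstDiff_eq (s t : K) (l : ℕ) (h1 : ∀ i < l, s i = t i) (h2 : s l ≠ t l) :
    PiNat.firstDiff s t = l := by
  have hne : s ≠ t := fun h => h2 (by rw [h])
  apply le_antisymm
  · by_contra hcon
    push Not at hcon
    exact h2 (PiNat.apply_eq_of_lt_firstDiff hcon)
  · by_contra hcon
    push Not at hcon
    exact PiNat.apply_firstDiff_ne hne (h1 _ hcon)

/-- a comb in a set dense in an open set -/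
lemma exists_comb (Λ : Set K) (h : (interior (closure Λ)).Nonempty) :
    ∃ (a : ℕ) (s : ℕ → K), (∀ j, s j ∈ Λ) ∧ ∀ i j, i < j → PiNat.firstDiff (s i) (s j) = a + i := by
  obtain ⟨t, ht⟩ := h
  have hopen : IsOpen (interior (closure Λ)) := isOpen_interior
  obtain ⟨a, ha⟩ : ∃ a, PiNat.cylinder t a ⊆ interior (closure Λ) := by
    have := (PiNat.isTopologicalBasis_cylinders (fun _ : ℕ => Bool)).exists_subset_of_mem_open ht hopen
    obtain ⟨u, ⟨x, n, rfl⟩, hu1, hu2⟩ := this
    refine ⟨n, ?_⟩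
    rw [← PiNat.mem_cylinder_iff_eq.1 hu1] at hu2
    exact hu2
  let μ : K := fun i => if i < a then t i else true
  have hμ : ∀ j, ∃ s ∈ Λ, (∀ i < a + j, s i = μ i) ∧ s (a + j) = false := by
    intro j
    let p : K := Function.update μ (a + j) false
    have hp : p ∈ closure Λ := by
      apply interior_subset
      apply ha
      rw [PiNat.mem_cylinder_iff]
      intro i hi
      change Function.update μ (a + j) false i = t i
      rw [Function.update_of_ne (by omega)]
      change (if i < a then t i else true) = t i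
      rw [if_pos hi]
    obtain ⟨s, hs1, hs2⟩ := mem_closure_iff.1 hp (PiNat.cylinder p (a + j + 1))
      (PiNat.isOpen_cylinder _ _ _) (PiNat.self_mem_cylinder _ _)
    rw [PiNat.mem_cylinder_iff] at hs1
    refine ⟨s, hs2, ?_, ?_⟩
    · intro i hi
      rw [hs1 i (by omega)]
      change Function.update μ (a + j) false i = μ i
      rw [Function.update_of_ne (by omega)]
    · rw [hs1 (a + j) (by omega)]
      change Function.update μ (a + j) false (a + j) = false
      rw [Function.update_self]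
  choose s hs1 hs2 hs3 using hμ
  refine ⟨a, s, hs1, ?_⟩
  intro i j hij
  apply firstDiff_eq
  · intro l hl
    rw [hs2 i l hl, hs2 j l (by omega)]
  · rw [hs3 i, hs2 j (a + i) (by omega)]
    change false ≠ (if a + i < a then t (a+i) else true)
    rw [if_neg (by omega)]
    simp

/-- block vectors -/
def gg (a : ℕ) (s : ℕ → K) (j : ℕ) : XX := eX fam (Sum.inl (s j)) + eX fam (Sum.inr (s j, a + j))

def ps (a : ℕ) (s : ℕ → K) (θ : ℕ → ℝ) (n : ℕ) : XX := ∑ j ∈ Finset.range n, θ j • gg a s j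

lemma s_inj (a : ℕ) (s : ℕ → K) (hs : ∀ i j, i < j → PiNat.firstDiff (s i) (s j) = a + i)
    (hne : ∀ i j, i ≠ j → s i ≠ s j) : Function.Injective s := by
  intro i j hij
  by_contra h
  exact hne i j h hij

lemma cy_ps (a : ℕ) (s : ℕ → K) (hinj : Function.Injective s) (θ : ℕ → ℝ) (n j : ℕ) :
    cy (s j) (ps a s θ n) = if j < n then θ j else 0 := by
  unfold ps
  rw [map_sum]
  have h1 : ∀ i, cy (s j) (θ i • gg a s i) = if i = j then θ i else 0 := by
    intro i
    rw [map_smul]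
    unfold gg
    rw [map_add, co_eX_ne fam (Sum.inl (s j)) (Sum.inr (s i, a + i)) (by simp), add_zero]
    by_cases h : i = j
    · subst h; rw [if_pos rfl, co_eX, smul_eq_mul, mul_one]
    · rw [if_neg h, co_eX_ne, smul_zero]
      intro hh
      exact h (hinj (Sum.inl_injective hh))
  rw [Finset.sum_congr rfl (fun i _ => h1 i), Finset.sum_ite_eq']
  simp

lemma cy_ps' (a : ℕ) (s : ℕ → K) (θ : ℕ → ℝ) (n : ℕ) (t : K) (ht : ∀ j < n, t ≠ s j) :
    cy t (ps a s θ n) = 0 := by
  unfold ps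
  rw [map_sum]
  apply Finset.sum_eq_zero
  intro i hi
  rw [map_smul]
  unfold gg
  rw [map_add, co_eX_ne fam (Sum.inl t) (Sum.inr (s i, a + i)) (by simp), add_zero,
    co_eX_ne, smul_zero]
  intro hh
  exact ht i (Finset.mem_range.1 hi) (Sum.inl_injective hh).symm

lemma cq_ps (a : ℕ) (s : ℕ → K) (hinj : Function.Injective s) (θ : ℕ → ℝ) (n j i : ℕ) :
    cq (s j) i (ps a s θ n) = if j < n ∧ i = a + j then θ j else 0 := by
  unfold ps
  rw [map_sum]
  have h1 : ∀ m, cq (s j) i (θ m • gg a s m) = if m = j then (if i = a + j then θ j else 0) else 0 := by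
    intro m
    rw [map_smul]
    unfold gg
    rw [map_add, co_eX_ne fam (Sum.inr (s j, i)) (Sum.inl (s m)) (by simp), zero_add]
    by_cases h : m = j
    · subst h
      rw [if_pos rfl]
      by_cases h2 : i = a + m
      · subst h2
        rw [if_pos rfl, co_eX, smul_eq_mul, mul_one]
      · rw [if_neg h2, co_eX_ne, smul_zero]
        intro hh
        have := Sum.inr_injective hh
        exact h2 (congrArg Prod.snd this).symm
    · rw [if_neg h, co_eX_ne, smul_zero]
      intro hh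
      have := Sum.inr_injective hh
      exact h (hinj (congrArg Prod.fst this))
  rw [Finset.sum_congr rfl (fun i _ => h1 i), Finset.sum_ite_eq']
  by_cases hj : j < n <;> by_cases hi : i = a + j <;> simp [hj, hi]

lemma cq_ps' (a : ℕ) (s : ℕ → K) (θ : ℕ → ℝ) (n : ℕ) (t : K) (ht : ∀ j < n, t ≠ s j) (i : ℕ) :
    cq t i (ps a s θ n) = 0 := by
  unfold ps
  rw [map_sum]
  apply Finset.sum_eq_zero
  intro m hm
  rw [map_smul]
  unfold gg
  rw [map_add, co_eX_ne fam (Sum.inr (t, i)) (Sum.inl (s m)) (by simp), zero_add,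
    co_eX_ne, smul_zero]
  intro hh
  have := Sum.inr_injective hh
  exact ht m (Finset.mem_range.1 hm) (congrArg Prod.fst this).symm

/-- all signed sums lie in the unit ball -/
lemma ps_norm (a : ℕ) (s : ℕ → K) (hinj : Function.Injective s)
    (hs : ∀ i j, i < j → PiNat.firstDiff (s i) (s j) = a + i)
    (θ : ℕ → ℝ) (hθ : ∀ j, |θ j| ≤ 1) (n : ℕ) : ‖ps a s θ n‖ ≤ 1 := by
  apply norm_le_of_ev fam _ 1 zero_le_one
  rintro ⟨k, F, ε, o⟩
  have hk0 : (0:ℝ) ≤ (1/2)^k := by positivity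
  have hk1 : (1/2:ℝ)^k ≤ 1 := pow_le_one₀ (by norm_num) (by norm_num)
  by_cases hF : F.card ≤ 8^k
  · -- it suffices that at most one term survives
    have key : ∀ b : K → ℝ, (∀ t ∈ F, |b t| ≤ 1) → (∀ t ∈ F, ∀ t' ∈ F, t ≠ t' → b t = 0 ∨ b t' = 0) →
        |(1/2)^k * ∑ t ∈ F, sg (ε t) * b t| ≤ 1 := by
      intro b hb1 hb2
      rw [abs_mul, abs_of_nonneg hk0]
      have h1 : |∑ t ∈ F, sg (ε t) * b t| ≤ 1 := by
        by_cases hex : ∃ t ∈ F, b t ≠ 0
        · obtain ⟨t, ht, hbt⟩ := hex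
          rw [Finset.sum_eq_single_of_mem t ht]
          · rw [abs_mul, abs_sg, one_mul]; exact hb1 t ht
          · intro t' ht' hne
            rcases hb2 t ht t' ht' hne.symm with h | h
            · exact absurd h hbt
            · rw [h, mul_zero]
        · push Not at hex
          rw [Finset.sum_eq_zero (fun t ht => by rw [hex t ht, mul_zero])]
          simp
      have h2 := abs_nonneg (∑ t ∈ F, sg (ε t) * b t)
      nlinarith
    rcases o with _ | i
    · rw [ev_none k F ε hF]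
      apply key
      · intro t ht
        by_cases hex : ∃ j < n, t = s j
        · obtain ⟨j, hj, rfl⟩ := hex
          rw [cy_ps a s hinj, if_pos hj]
          have h1 : ∑ i ∈ D F (s j), cq (s j) i (ps a s θ n) = if a + j ∈ D F (s j) then θ j else 0 := by
            rw [← Finset.sum_ite_eq' (D F (s j)) (a + j) (fun _ => θ j)]
            apply Finset.sum_congr rfl
            intro i _
            rw [cq_ps a s hinj]
            simp [hj]
          rw [h1]
          split_ifs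
          · simp
          · rw [sub_zero]; exact hθ j
        · push Not at hex
          rw [cy_ps' a s θ n t hex, Finset.sum_eq_zero (fun i _ => cq_ps' a s θ n t hex i)]
          simp
      · -- zero for the smaller index
        have hz : ∀ i j, i < j → i < n → s i ∈ F → s j ∈ F →
            cy (s i) (ps a s θ n) - ∑ m ∈ D F (s i), cq (s i) m (ps a s θ n) = 0 := by
          intro i j hij hin hi hj
          rw [cy_ps a s hinj, if_pos hin]
          have h1 : ∑ m ∈ D F (s i), cq (s i) m (ps a s θ n) = if a + i ∈ D F (s i) then θ i else 0 := by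
            rw [← Finset.sum_ite_eq' (D F (s i)) (a + i) (fun _ => θ i)]
            apply Finset.sum_congr rfl
            intro m _
            rw [cq_ps a s hinj]
            simp [hin]
          rw [h1, if_pos, sub_self]
          unfold D
          rw [Finset.mem_image]
          refine ⟨s j, ?_, hs i j hij⟩
          rw [Finset.mem_filter]
          exact ⟨hj, fun h => by have := hinj h; omega⟩
        have hz' : ∀ t, (∀ j < n, t ≠ s j) →
            cy t (ps a s θ n) - ∑ m ∈ D F t, cq t m (ps a s θ n) = 0 := by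
          intro t ht
          rw [cy_ps' a s θ n t ht, Finset.sum_eq_zero (fun i _ => cq_ps' a s θ n t ht i), sub_zero]
        intro t ht t' ht' hne
        by_cases h1 : ∃ j < n, t = s j
        · by_cases h2 : ∃ j < n, t' = s j
          · obtain ⟨i, hi, rfl⟩ := h1
            obtain ⟨j, hj, rfl⟩ := h2
            rcases lt_trichotomy i j with h | h | h
            · exact Or.inl (hz i j h hi ht ht')
            · exact absurd (by rw [h]) hne
            · exact Or.inr (hz j i h hj ht' ht)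
          · push Not at h2
            exact Or.inr (hz' t' h2)
        · push Not at h1
          exact Or.inl (hz' t h1)
    · rw [ev_some k F ε i hF]
      apply key
      · intro t ht
        by_cases hex : ∃ j < n, t = s j
        · obtain ⟨j, hj, rfl⟩ := hex
          rw [cq_ps a s hinj]
          split_ifs
          · exact hθ j
          · simp
        · push Not at hex
          rw [cq_ps' a s θ n t hex]
          simp
      · intro t ht t' ht' hne
        by_cases h1 : ∃ j < n, t = s j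
        · by_cases h2 : ∃ j < n, t' = s j
          · obtain ⟨j, hj, rfl⟩ := h1
            obtain ⟨j', hj', rfl⟩ := h2
            rw [cq_ps a s hinj, cq_ps a s hinj]
            by_cases h3 : i = a + j
            · right
              rw [if_neg]
              rintro ⟨_, h4⟩
              apply hne
              have : j = j' := by omega
              rw [this]
            · left
              rw [if_neg]
              rintro ⟨_, h4⟩
              exact h3 h4
          · push Not at h2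
            exact Or.inr (cq_ps' a s θ n t' h2 i)
        · push Not at h1
          exact Or.inl (cq_ps' a s θ n t h1 i)
  · rw [ev_big k F ε o hF]
    simp

theorem not_wur_X : ¬ WUR XX := by
  rintro ⟨N, hadd, hsmul, ⟨c, C, hc, hC, hN⟩, hw⟩
  have hN0 : ∀ a, 0 ≤ N a := fun a => (mul_nonneg hc.le (norm_nonneg a)).trans (hN a).1
  -- moduli
  have hmod : ∀ s : K, ∃ m : ℕ, ∀ u v, N u ≤ 1 → N v ≤ 1 → 2 - 1/((m:ℝ)+1) ≤ N (u + v) →
      |cy s (u - v)| < 2 / C := by
    intro s
    by_contra hcon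
    push Not at hcon
    choose u v hu hv huv hd using hcon
    have h1 : Tendsto (fun n => N (u n + v n)) atTop (𝓝 2) := by
      apply tendsto_of_tendsto_of_tendsto_of_le_of_le (g := fun n : ℕ => 2 - 1/((n:ℝ)+1)) (h := fun _ => (2:ℝ))
      · have := (tendsto_one_div_add_atTop_nhds_zero_nat (𝕜 := ℝ)).const_sub 2
        simpa using this
      · exact tendsto_const_nhds
      · exact fun n => huv n
      · intro n
        change N (u n + v n) ≤ 2
        have := hadd (u n) (v n)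
        linarith [hu n, hv n]
    have h2 := (hw u v hu hv h1 (cy s)).abs
    rw [abs_zero] at h2
    have h3 := h2.eventually_lt_const (show (0:ℝ) < 2 / C by positivity)
    obtain ⟨n, hn⟩ := h3.exists
    exact absurd (hd n) (not_le.2 hn)
  let Λ : ℕ → Set K := fun m => {s | ∀ u v, N u ≤ 1 → N v ≤ 1 → 2 - 1/((m:ℝ)+1) ≤ N (u + v) →
      |cy s (u - v)| < 2 / C}
  obtain ⟨m, hm⟩ : ∃ m, (interior (closure (Λ m))).Nonempty := by
    apply nonempty_interior_of_iUnion_of_closed (fun m => isClosed_closure)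
    rw [Set.eq_univ_iff_forall]
    intro s
    obtain ⟨m, hm⟩ := hmod s
    exact Set.mem_iUnion.2 ⟨m, subset_closure hm⟩
  obtain ⟨a, s, hs1, hs2⟩ := exists_comb (Λ m) hm
  have hinj : Function.Injective s := by
    have hlt : ∀ i j, i < j → s i ≠ s j := by
      intro i j hij h
      have h1 := hs2 i j hij
      have h2 := hs2 (i+1) (j+1+1) (by omega)
      have h3 := hs2 i (j+1) (by omega)
      have h4 := hs2 j (j+1) (by omega)
      rw [h] at h3
      omega
    intro i j hij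
    rcases lt_trichotomy i j with h | h | h
    · exact absurd hij (hlt i j h)
    · exact h
    · exact absurd hij.symm (hlt j i h)
  set ρ : ℝ := 1 - 1/(2*((m:ℝ)+1)) with hρ
  have hm0 : (0:ℝ) < (m:ℝ) + 1 := by positivity
  have hρ1 : ρ < 1 := by
    rw [hρ]
    have : (0:ℝ) < 1/(2*((m:ℝ)+1)) := by positivity
    linarith
  have hρ0 : 0 < ρ := by
    rw [hρ]
    have : 1/(2*((m:ℝ)+1)) ≤ 1/2 := by
      apply div_le_div_of_nonneg_left (by norm_num) (by norm_num)
      have : (0:ℝ) ≤ m := Nat.cast_nonneg _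
      linarith
    linarith
  -- induction
  have hind : ∀ r : ℕ, ∀ n θ, (∀ j, |θ j| = 1) → N (ps a s θ n) ≤ ρ^r * C := by
    intro r
    induction r with
    | zero =>
      intro n θ hθ
      have h1 := ps_norm a s hinj hs2 θ (fun j => (hθ j).le) n
      have h2 := (hN (ps a s θ n)).2
      rw [pow_zero, one_mul]
      nlinarith
    | succ r ih =>
      intro n θ hθ
      set M := ρ^r * C with hM
      have hM0 : 0 < M := by positivity
      have hMC : M ≤ C := by
        have : ρ^r ≤ 1 := pow_le_one₀ hρ0.le hρ1.le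
        nlinarith
      -- the two extensions
      have hext : ∀ b : ℝ, |b| = 1 → N (ps a s θ n + b • gg a s n) ≤ M := by
        intro b hb
        have h1 := ih (n+1) (Function.update θ n b) (by
          intro j
          by_cases hj : j = n
          · subst hj; rw [Function.update_self]; exact hb
          · rw [Function.update_of_ne hj]; exact hθ j)
        have h2 : ps a s (Function.update θ n b) (n+1) = ps a s θ n + b • gg a s n := by
          unfold ps
          rw [Finset.sum_range_succ, Function.update_self]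
          congr 1
          apply Finset.sum_congr rfl
          intro j hj
          rw [Function.update_of_ne (by have := Finset.mem_range.1 hj; omega)]
        rwa [h2] at h1
      by_contra hcon
      push Not at hcon
      have hsc : ∀ x, N ((1/M) • x) = N x / M := by
        intro x
        rw [hsmul, abs_of_pos (by positivity)]
        ring
      have h1 := hs1 n ((1/M) • (ps a s θ n + (1:ℝ) • gg a s n)) ((1/M) • (ps a s θ n + (-1:ℝ) • gg a s n))
        (by rw [hsc, div_le_one hM0]; exact hext 1 (by simp))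
        (by rw [hsc, div_le_one hM0]; exact hext (-1) (by simp)) (by
          rw [← smul_add]
          have h2 : ps a s θ n + (1:ℝ) • gg a s n + (ps a s θ n + (-1:ℝ) • gg a s n) = (2:ℝ) • ps a s θ n := by
            module
          rw [h2, hsc, hsmul, abs_of_pos (by norm_num), le_div_iff₀ hM0]
          have h3 : ρ^(r+1) * C = ρ * M := by rw [hM]; ring
          rw [h3] at hcon
          have h4 : (2 - 1/((m:ℝ)+1)) = 2 * ρ := by rw [hρ]; field_simp
          rw [h4]
          linarith)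
      have h2 : cy (s n) ((1/M) • (ps a s θ n + (1:ℝ) • gg a s n) - (1/M) • (ps a s θ n + (-1:ℝ) • gg a s n))
          = 2 / M := by
        have h3 : (1/M) • (ps a s θ n + (1:ℝ) • gg a s n) - (1/M) • (ps a s θ n + (-1:ℝ) • gg a s n) =
            (2/M) • gg a s n := by
          rw [← smul_sub]
          have : ps a s θ n + (1:ℝ) • gg a s n - (ps a s θ n + (-1:ℝ) • gg a s n) = (2:ℝ) • gg a s n := by
            module
          rw [this, smul_smul]
          congr 1; ring
        rw [h3, map_smul]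
        unfold gg
        rw [map_add, co_eX, co_eX_ne fam (Sum.inl (s n)) (Sum.inr (s n, a + n)) (by simp)]
        rw [smul_eq_mul]; ring
      rw [h2, abs_of_pos (by positivity)] at h1
      have h3 : 2 / C ≤ 2 / M := div_le_div_of_nonneg_left (by norm_num) hM0 hMC
      linarith
  -- contradiction
  have hx : c ≤ N (ps a s (fun _ => 1) 1) := by
    have h1 := (hN (ps a s (fun _ => 1) 1)).1
    have h2 : 1 ≤ ‖ps a s (fun _ => 1) 1‖ := by
      have h3 := co_le fam (Sum.inl (s 0)) (ps a s (fun _ => 1) 1)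
      have h4 := cy_ps a s hinj (fun _ => 1) 1 0
      rw [if_pos (by norm_num)] at h4
      have h5 : co fam (Sum.inl (s 0)) (ps a s (fun _ => 1) 1) = 1 := h4
      rw [h5] at h3
      simpa using h3
    nlinarith
  have hlim : Tendsto (fun r : ℕ => ρ^r * C) atTop (𝓝 0) := by
    have := (tendsto_pow_atTop_nhds_zero_of_lt_one hρ0.le hρ1).mul_const C
    simpa using this
  have h1 := hlim.eventually_lt_const hc
  obtain ⟨r, hr⟩ := h1.exists
  have h2 := hind r 1 (fun _ => 1) (fun _ => by simp)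
  linarith

end

end Pool.Agent.S02856.TSX

namespace Pool.Agent.S02856.TSM

open Pool.Agent.S02856.TS Pool.Agent.S02856.TSW Pool.Agent.S02856.TSF

theorem main :
    ¬ (∀ (X : Type) [NormedAddCommGroup X] [NormedSpace ℝ X] [CompleteSpace X]
    (Y : Submodule ℝ X), IsClosed (Y : Set X) →
    (∃ N : Y → ℝ, (∀ a b, N (a + b) ≤ N a + N b) ∧ (∀ (r : ℝ) a, N (r • a) = |r| * N a) ∧
      (∃ c C : ℝ, 0 < c ∧ 0 < C ∧ ∀ a, c * ‖a‖ ≤ N a ∧ N a ≤ C * ‖a‖) ∧
      ∀ u v : ℕ → Y, (∀ n, N (u n) ≤ 1) → (∀ n, N (v n) ≤ 1) →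
        Tendsto (fun n => N (u n + v n)) atTop (𝓝 2) →
        ∀ f : Y →L[ℝ] ℝ, Tendsto (fun n => f (u n - v n)) atTop (𝓝 0)) →
    (∃ N : X ⧸ Y → ℝ, (∀ a b, N (a + b) ≤ N a + N b) ∧ (∀ (r : ℝ) a, N (r • a) = |r| * N a) ∧
      (∃ c C : ℝ, 0 < c ∧ 0 < C ∧ ∀ a, c * ‖a‖ ≤ N a ∧ N a ≤ C * ‖a‖) ∧
      ∀ u v : ℕ → X ⧸ Y, (∀ n, N (u n) ≤ 1) → (∀ n, N (v n) ≤ 1) →
        Tendsto (fun n => N (u n + v n)) atTop (𝓝 2) →
        ∀ f : (X ⧸ Y) →L[ℝ] ℝ, Tendsto (fun n => f (u n - v n)) atTop (𝓝 0)) →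
    (∃ N : X → ℝ, (∀ a b, N (a + b) ≤ N a + N b) ∧ (∀ (r : ℝ) a, N (r • a) = |r| * N a) ∧
      (∃ c C : ℝ, 0 < c ∧ 0 < C ∧ ∀ a, c * ‖a‖ ≤ N a ∧ N a ≤ C * ‖a‖) ∧
      ∀ u v : ℕ → X, (∀ n, N (u n) ≤ 1) → (∀ n, N (v n) ≤ 1) →
        Tendsto (fun n => N (u n + v n)) atTop (𝓝 2) →
        ∀ f : X →L[ℝ] ℝ, Tendsto (fun n => f (u n - v n)) atTop (𝓝 0))) := by
  intro h
  exact Pool.Agent.S02856.TSX.not_wur_X (h XX Pool.Agent.S02856.TSY.Y
    Pool.Agent.S02856.TSY.Y_closed Pool.Agent.S02856.TSY.wur_Y Pool.Agent.S02856.TSY.wur_Q)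

end Pool.Agent.S02856.TSM

namespace Pool.Agent.S02856

/-- The negation of the preceding statement: For every real Banach space X and closed subspace Y, if Y and the quotient X/Y each carry an equivalent weakly uniformly rotund norm, then X also carries an equivalent weakly uniformly rotund norm. -/
theorem result :
    ¬ (∀ (X : Type) [NormedAddCommGroup X] [NormedSpace ℝ X] [CompleteSpace X]
    (Y : Submodule ℝ X), IsClosed (Y : Set X) →
    (∃ N : Y → ℝ, (∀ a b, N (a + b) ≤ N a + N b) ∧ (∀ (r : ℝ) a, N (r • a) = |r| * N a) ∧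
      (∃ c C : ℝ, 0 < c ∧ 0 < C ∧ ∀ a, c * ‖a‖ ≤ N a ∧ N a ≤ C * ‖a‖) ∧
      ∀ u v : ℕ → Y, (∀ n, N (u n) ≤ 1) → (∀ n, N (v n) ≤ 1) →
        Tendsto (fun n => N (u n + v n)) atTop (𝓝 2) →
        ∀ f : Y →L[ℝ] ℝ, Tendsto (fun n => f (u n - v n)) atTop (𝓝 0)) →
    (∃ N : X ⧸ Y → ℝ, (∀ a b, N (a + b) ≤ N a + N b) ∧ (∀ (r : ℝ) a, N (r • a) = |r| * N a) ∧
      (∃ c C : ℝ, 0 < c ∧ 0 < C ∧ ∀ a, c * ‖a‖ ≤ N a ∧ N a ≤ C * ‖a‖) ∧
      ∀ u v : ℕ → X ⧸ Y, (∀ n, N (u n) ≤ 1) → (∀ n, N (v n) ≤ 1) →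
        Tendsto (fun n => N (u n + v n)) atTop (𝓝 2) →
        ∀ f : (X ⧸ Y) →L[ℝ] ℝ, Tendsto (fun n => f (u n - v n)) atTop (𝓝 0)) →
    (∃ N : X → ℝ, (∀ a b, N (a + b) ≤ N a + N b) ∧ (∀ (r : ℝ) a, N (r • a) = |r| * N a) ∧
      (∃ c C : ℝ, 0 < c ∧ 0 < C ∧ ∀ a, c * ‖a‖ ≤ N a ∧ N a ≤ C * ‖a‖) ∧
      ∀ u v : ℕ → X, (∀ n, N (u n) ≤ 1) → (∀ n, N (v n) ≤ 1) →
        Tendsto (fun n => N (u n + v n)) atTop (𝓝 2) →
        ∀ f : X →L[ℝ] ℝ, Tendsto (fun n => f (u n - v n)) atTop (𝓝 0))) := by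
  exact Pool.Agent.S02856.TSM.main

end Pool.Agent.S02856
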