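import Pool.Statements.S02857
import Pool.Agent.Helper99.Ball

set_option autoImplicit false
open MeasureTheory
open Pool Pool.MP_2f5ef9_an

namespace Pool.Agent.S02857

/-- There is a constant C such that every K-Lipschitz map from a subset of L²[0,1] into L¹[0,1] extends to a (C·K)-Lipschitz map on all of L²[0,1]. -/
theorem result :
    ∃ C : NNReal, ∀ (A : Set (Lp ℝ 2 (volume.restrict (Set.Icc (0:ℝ) 1))))
      (f : Lp ℝ 2 (volume.restrict (Set.Icc (0:ℝ) 1)) → Lp ℝ 1 (volume.restrict (Set.Icc (0:ℝ) 1)))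
      (K : NNReal),
      LipschitzOnWith K f A →
        ∃ F : Lp ℝ 2 (volume.restrict (Set.Icc (0:ℝ) 1)) → Lp ℝ 1 (volume.restrict (Set.Icc (0:ℝ) 1)),
          LipschitzWith (C * K) F ∧ Set.EqOn F f A :=
  ⟨18, fun A f K hf => Pool.Agent.Helper99.Ball.main_ext _ A f K hf⟩

end Pool.Agent.S02857
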