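import Pool.Statements.S02867
import Pool.Agent.Helper50.LR.Final

set_option autoImplicit false
open Pool Pool.MP_31392c_an

namespace Pool.Agent.S02867

/-- For every compact set E in the plane, the logarithmic capacity (defined as the transfinite diameter) of E is at least that of the star set whose radius on each ray equals the linear measure of E on that ray. -/
theorem result : ∀ E : Set ℂ, IsCompact E →
    (⨅ n : ℕ, (⨆ z : Fin (n + 2) → {w : ℂ // w ∈ {x : ℂ | ∃ r θ : ℝ, 0 ≤ r ∧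
        r ≤ (MeasureTheory.volume {t : ℝ | 0 ≤ t ∧
          (t : ℂ) * Complex.exp ((θ : ℂ) * Complex.I) ∈ E}).toReal ∧
        x = (r : ℂ) * Complex.exp ((θ : ℂ) * Complex.I)}},
        ∏ i : Fin (n + 2), ∏ j ∈ Finset.Ioi i, ‖((z i : ℂ) - (z j : ℂ))‖)
        ^ ((2 : ℝ) / (((n : ℝ) + 2) * ((n : ℝ) + 1))))
    ≤ (⨅ n : ℕ, (⨆ z : Fin (n + 2) → {w : ℂ // w ∈ E},
        ∏ i : Fin (n + 2), ∏ j ∈ Finset.Ioi i, ‖((z i : ℂ) - (z j : ℂ))‖)
        ^ ((2 : ℝ) / (((n : ℝ) + 2) * ((n : ℝ) + 1)))) := by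
  exact fun E hE => Pool.LR.lr_main E hE

end Pool.Agent.S02867
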