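import Pool.Statements.S02882
-- import your own Pool.Agent.* helpers here

set_option autoImplicit false
open Pool Pool.MP_32357e_an

namespace Pool.Agent.S02882

open Complex

/-- the exponent `(1+i)/100` -/
noncomputable def a : ℂ := (1 + I) / 100

/-- the constant `(1-i)/2`, of modulus `1/√2` -/
noncomputable def κ : ℂ := (1 - I) / 2

/-- the logarithmic coordinate `s = -log (1 - z)`, mapping the disc into the strip `|Im s| < π/2` -/
noncomputable def L (z : ℂ) : ℂ := -log (1 - z)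

/-- the primitive `F = (1-z)^(-(1+i)/100) - (1-z)^(-1/100)` -/
noncomputable def F (z : ℂ) : ℂ := exp (a * L z) - exp (L z / 100)

/-- its derivative -/
noncomputable def f (z : ℂ) : ℂ := exp (L z) * (a * exp (a * L z) - exp (L z / 100) / 100)

/-- the open horizontal strip of width `π` -/
def strip : Set ℂ := {s | |s.im| < Real.pi / 2}

noncomputable def e (s : ℂ) : ℂ := κ * exp (-(I / 100) * s)

/-- a holomorphic logarithm of `f / a` in the coordinate `s` -/
noncomputable def g (s : ℂ) : ℂ := s * (1 + a) + log (1 - e s)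

theorem one_sub_re {z : ℂ} (hz : z ∈ Metric.ball (0:ℂ) 1) : 0 < (1 - z).re := by
  have h1 : ‖z‖ < 1 := by simpa using hz
  have h2 := abs_re_le_norm z
  have h3 := le_abs_self z.re
  simp only [sub_re, one_re]
  linarith

theorem one_sub_mem {z : ℂ} (hz : z ∈ Metric.ball (0:ℂ) 1) : 1 - z ∈ slitPlane :=
  Or.inl (one_sub_re hz)

theorem one_sub_ne {z : ℂ} (hz : z ∈ Metric.ball (0:ℂ) 1) : 1 - z ≠ 0 :=
  slitPlane_ne_zero (one_sub_mem hz)

theorem exp_neg_L {z : ℂ} (hz : z ∈ Metric.ball (0:ℂ) 1) : exp (-L z) = 1 - z := by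
  unfold L
  rw [neg_neg, exp_log (one_sub_ne hz)]

theorem exp_L {z : ℂ} (hz : z ∈ Metric.ball (0:ℂ) 1) : exp (L z) = 1 / (1 - z) := by
  have h := exp_neg_L hz
  rw [← h, exp_neg, one_div, inv_inv]

theorem L_inj : Set.InjOn L (Metric.ball (0:ℂ) 1) := by
  intro z hz z' hz' h
  have h1 := exp_neg_L hz
  have h2 := exp_neg_L hz'
  rw [h, h2] at h1
  linear_combination h1

theorem L_mem {z : ℂ} (hz : z ∈ Metric.ball (0:ℂ) 1) : L z ∈ strip := by
  show |(L z).im| < Real.pi / 2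
  unfold L
  rw [neg_im, abs_neg, log_im]
  exact abs_arg_lt_pi_div_two_iff.mpr (Or.inl (one_sub_re hz))

theorem L_deriv {z : ℂ} (hz : z ∈ Metric.ball (0:ℂ) 1) : HasDerivAt L (exp (L z)) z := by
  have h1 : HasDerivAt (fun w : ℂ => 1 - w) (-1) z := by
    simpa using (hasDerivAt_id z).const_sub 1
  have h2 := (h1.clog (one_sub_mem hz)).neg
  rw [exp_L hz]
  have h3 : -(-1 / (1 - z)) = 1 / (1 - z) := by ring
  rw [h3] at h2
  exact h2

theorem F_deriv {z : ℂ} (hz : z ∈ Metric.ball (0:ℂ) 1) : HasDerivAt F (f z) z := by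
  have h1 := ((L_deriv hz).const_mul a).cexp
  have h2 := ((L_deriv hz).div_const 100).cexp
  have h3 := h1.sub h2
  have h4 : exp (a * L z) * (a * exp (L z)) - exp (L z / 100) * (exp (L z) / 100) = f z := by
    unfold f; ring
  rw [h4] at h3
  exact h3

theorem F_zero : F 0 = 0 := by
  have hL : L 0 = 0 := by unfold L; simp
  unfold F
  rw [hL]; simp

theorem norm_κ : ‖κ‖ ≤ 71 / 100 := by
  have h : ‖κ‖ ^ 2 = 1 / 2 := by
    rw [← normSq_eq_norm_sq]
    unfold κ
    simp [normSq_apply]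
    norm_num
  nlinarith [norm_nonneg κ]

theorem norm_a : ‖a‖ ≤ 1 / 50 := by
  have h : ‖a‖ ^ 2 = 2 / 10000 := by
    rw [← normSq_eq_norm_sq]
    unfold a
    simp [normSq_apply]
    norm_num
  nlinarith [norm_nonneg a]

theorem norm_e {s : ℂ} (hs : s ∈ strip) : ‖e s‖ ≤ 3 / 4 := by
  have hs' : |s.im| < Real.pi / 2 := hs
  unfold e
  rw [norm_mul, norm_exp]
  have h1 : (-(I / 100) * s).re = s.im / 100 := by
    simp [mul_re]
    ring
  rw [h1]
  have h2 : s.im / 100 ≤ 1 / 60 := by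
    have := (abs_lt.mp hs').2
    have := Real.pi_lt_d2
    linarith
  have h3 : Real.exp (s.im / 100) ≤ 1.02 := by
    calc Real.exp (s.im / 100) ≤ Real.exp (1/60) := Real.exp_le_exp.mpr h2
      _ ≤ 1.02 := by
        have h := Real.exp_bound_div_one_sub_of_interval (x := 1/60) (by norm_num) (by norm_num)
        refine h.trans ?_
        norm_num
  have h4 := norm_κ
  have h5 : 0 < Real.exp (s.im / 100) := Real.exp_pos _
  nlinarith [norm_nonneg κ]

theorem one_sub_e_mem {s : ℂ} (hs : s ∈ strip) : 1 - e s ∈ slitPlane := by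
  left
  have h1 := norm_e hs
  have h2 := abs_re_le_norm (e s)
  have h3 := le_abs_self (e s).re
  simp only [sub_re, one_re]
  linarith

theorem g_deriv {s : ℂ} (hs : s ∈ strip) :
    HasDerivAt (fun s => g s - s) (a + (I / 100) * e s / (1 - e s)) s := by
  have h0 : HasDerivAt (fun s : ℂ => -(I / 100) * s) (-(I / 100)) s := by
    simpa using (hasDerivAt_id s).const_mul (-(I / 100))
  have h1 : HasDerivAt e (κ * (exp (-(I / 100) * s) * (-(I / 100)))) s := h0.cexp.const_mul κ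
  have h2 : HasDerivAt (fun s => 1 - e s) (-(κ * (exp (-(I / 100) * s) * (-(I / 100))))) s :=
    h1.const_sub 1
  have h3 := h2.clog (one_sub_e_mem hs)
  have h4 : HasDerivAt (fun s : ℂ => s * (1 + a)) (1 + a) s := by
    simpa using (hasDerivAt_id s).mul_const (1 + a)
  have h5 := (h4.add h3).sub (hasDerivAt_id s)
  have h6 : 1 + a + -(κ * (exp (-(I / 100) * s) * (-(I / 100)))) / (1 - e s) - 1 =
      a + (I / 100) * e s / (1 - e s) := by
    unfold e
    ring
  rw [h6] at h5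
  exact h5

theorem g_deriv_bound {s : ℂ} (hs : s ∈ strip) :
    ‖a + (I / 100) * e s / (1 - e s)‖ ≤ 1 / 2 := by
  have h1 := norm_e hs
  have h2 := norm_a
  have h3 : ‖(I / 100) * e s / (1 - e s)‖ ≤ 3 / 100 := by
    rw [norm_div, norm_mul]
    have h4 : ‖(I / 100 : ℂ)‖ = 1 / 100 := by simp
    rw [h4]
    have h5 : 1 / 4 ≤ ‖1 - e s‖ := by
      have := norm_sub_norm_le (1:ℂ) (e s)
      rw [norm_one] at this
      linarith
    rw [div_le_iff₀ (by linarith)]
    nlinarith
  calc ‖a + (I / 100) * e s / (1 - e s)‖ ≤ ‖a‖ + ‖(I / 100) * e s / (1 - e s)‖ := norm_add_le _ _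
    _ ≤ 1 / 2 := by linarith

theorem strip_convex : Convex ℝ strip := by
  have h : strip = (Complex.imLm : ℂ → ℝ) ⁻¹' (Set.Ioo (-(Real.pi / 2)) (Real.pi / 2)) := by
    ext s
    show |s.im| < Real.pi / 2 ↔ s.im ∈ Set.Ioo (-(Real.pi / 2)) (Real.pi / 2)
    rw [abs_lt]; rfl
  rw [h]
  exact (convex_Ioo _ _).linear_preimage imLm

theorem g_contr {s s' : ℂ} (hs : s ∈ strip) (hs' : s' ∈ strip) :
    ‖(g s - g s') - (s - s')‖ ≤ 1 / 2 * ‖s - s'‖ := by
  have h := strip_convex.norm_image_sub_le_of_norm_hasDerivWithin_le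
    (f := fun s => g s - s) (f' := fun s => a + (I / 100) * e s / (1 - e s)) (C := 1 / 2)
    (fun x hx => (g_deriv hx).hasDerivWithinAt) (fun x hx => g_deriv_bound hx) hs' hs
  have h1 : (g s - g s') - (s - s') = (g s - s) - (g s' - s') := by ring
  rw [h1]
  exact h

theorem f_eq {z : ℂ} (hz : z ∈ Metric.ball (0:ℂ) 1) : f z = a * exp (g (L z)) := by
  have h0 : 1 - e (L z) ≠ 0 := slitPlane_ne_zero (one_sub_e_mem (L_mem hz))
  unfold f g
  rw [exp_add, exp_log h0]
  have h1 : exp (L z * (1 + a)) = exp (L z) * exp (a * L z) := by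
    rw [← exp_add]; congr 1; ring
  have h2 : exp (a * L z) * exp (-(I / 100) * L z) = exp (L z / 100) := by
    rw [← exp_add]; congr 1; unfold a; ring
  have h3 : a * κ = 1 / 100 := by
    unfold a κ
    have := I_sq
    linear_combination (-1 / 200 : ℂ) * this
  rw [h1, ← h2]
  unfold e
  linear_combination (exp (L z) * exp (a * L z) * exp (-(I / 100) * L z)) * h3

theorem f_inj : Set.InjOn f (Metric.ball (0:ℂ) 1) := by
  intro z hz z' hz' h
  apply L_inj hz hz'
  rw [f_eq hz, f_eq hz'] at h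
  have ha : a ≠ 0 := by
    intro h0
    have h1 := congrArg Complex.re h0
    unfold a at h1
    simp at h1
  have h1 : exp (g (L z)) = exp (g (L z')) := mul_left_cancel₀ ha h
  obtain ⟨k, hk⟩ := exp_eq_exp_iff_exists_int.mp h1
  have hs := L_mem hz
  have hs' := L_mem hz'
  have h2 := g_contr hs hs'
  have h3 : g (L z) - g (L z') = k * (2 * Real.pi * I) := by rw [hk]; ring
  rw [h3] at h2
  have hDim : |(L z - L z').im| < Real.pi := by
    have e1 : |(L z).im| < Real.pi / 2 := hs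
    have e2 : |(L z').im| < Real.pi / 2 := hs'
    rw [sub_im]
    calc |(L z).im - (L z').im| ≤ |(L z).im| + |(L z').im| := abs_sub _ _
      _ < Real.pi := by linarith
  generalize hD : L z - L z' = D at *
  by_cases hk0 : k = 0
  · rw [hk0] at h2
    have e1 : ‖((0:ℤ):ℂ) * (2 * Real.pi * I) - D‖ = ‖D‖ := by simp
    rw [e1] at h2
    have e2 : ‖D‖ = 0 := by linarith [norm_nonneg D]
    have e3 : D = 0 := norm_eq_zero.mp e2
    rw [e3] at hD
    exact sub_eq_zero.mp hD
  · exfalso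
    have e1 : ‖(k:ℂ) * (2 * Real.pi * I) - D‖ ≤ ‖D‖ := by linarith [norm_nonneg D]
    have e2 : ‖(k:ℂ) * (2 * Real.pi * I) - D‖ ^ 2 ≤ ‖D‖ ^ 2 :=
      pow_le_pow_left₀ (norm_nonneg _) e1 2
    rw [← normSq_eq_norm_sq, ← normSq_eq_norm_sq, normSq_apply, normSq_apply] at e2
    have r1 : ((k:ℂ) * (2 * Real.pi * I) - D).re = -D.re := by simp
    have r2 : ((k:ℂ) * (2 * Real.pi * I) - D).im = k * (2 * Real.pi) - D.im := by simp
    rw [r1, r2] at e2
    have hpi := Real.pi_pos
    have hy := abs_lt.mp hDim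
    have hk1 : (1:ℝ) ≤ (k:ℝ) ∨ (k:ℝ) ≤ -1 := by
      rcases lt_or_gt_of_ne hk0 with h | h
      · right; exact_mod_cast Int.le_sub_one_of_lt h
      · left; exact_mod_cast h
    rcases hk1 with h | h
    · have : Real.pi < k * (2 * Real.pi) - D.im := by nlinarith
      nlinarith
    · have : k * (2 * Real.pi) - D.im < -Real.pi := by nlinarith
      nlinarith

theorem f_analytic : AnalyticOnNhd ℂ f (Metric.ball (0:ℂ) 1) := by
  apply DifferentiableOn.analyticOnNhd _ Metric.isOpen_ball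
  intro z hz
  have hL : DifferentiableAt ℂ L z := (L_deriv hz).differentiableAt
  have h1 : DifferentiableAt ℂ (fun z => exp (L z)) z := hL.cexp
  have h2 : DifferentiableAt ℂ (fun z => exp (a * L z)) z := (hL.const_mul a).cexp
  have h3 : DifferentiableAt ℂ (fun z => exp (L z / 100)) z := (hL.div_const 100).cexp
  exact (h1.mul ((h2.const_mul a).sub (h3.div_const 100))).differentiableWithinAt

/-- the points where `F` vanishes -/
theorem special (n : ℕ) : ∃ z ∈ Metric.ball (0:ℂ) 1, F z = 0 ∧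
    Real.exp (2 * Real.pi * n) / 100 ≤ (1 - ‖z‖ ^ 2) * ‖f z‖ := by
  have hpi := Real.pi_pos
  have hn : (0:ℝ) ≤ n := Nat.cast_nonneg n
  obtain ⟨r, hr⟩ : ∃ r : ℝ, r = Real.exp (-(200 * Real.pi * n)) := ⟨_, rfl⟩
  have hr0 : 0 < r := by rw [hr]; exact Real.exp_pos _
  have hr1 : r ≤ 1 := by
    rw [hr, Real.exp_le_one_iff]
    have : 0 ≤ 200 * Real.pi * n := by positivity
    linarith
  have hlog : Real.log r = -(200 * Real.pi * n) := by rw [hr, Real.log_exp]
  have hz : (((1 - r : ℝ) : ℂ)) ∈ Metric.ball (0:ℂ) 1 := by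
    rw [mem_ball_zero_iff, norm_real, Real.norm_eq_abs, abs_of_nonneg (by linarith)]
    linarith
  have hL : L ((1 - r : ℝ) : ℂ) = ((200 * Real.pi * n : ℝ) : ℂ) := by
    unfold L
    have h1 : (1:ℂ) - ((1 - r : ℝ) : ℂ) = ((r : ℝ) : ℂ) := by push_cast; ring
    rw [h1, ← ofReal_log hr0.le, hlog]
    push_cast; ring
  have h2 : exp (((200 * Real.pi * n : ℝ) : ℂ) / 100) = ((Real.exp (2 * Real.pi * n) : ℝ) : ℂ) := by
    rw [ofReal_exp]; congr 1; push_cast; ring
  have h3 : exp (a * ((200 * Real.pi * n : ℝ) : ℂ)) = ((Real.exp (2 * Real.pi * n) : ℝ) : ℂ) := by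
    have e1 : a * ((200 * Real.pi * n : ℝ) : ℂ) =
        ((2 * Real.pi * n : ℝ) : ℂ) + (n : ℂ) * (2 * Real.pi * I) := by
      unfold a; push_cast; ring
    rw [e1, exp_add, exp_nat_mul_two_pi_mul_I, mul_one, ofReal_exp]
  refine ⟨((1 - r : ℝ) : ℂ), hz, ?_, ?_⟩
  · unfold F
    rw [hL, h2, h3, sub_self]
  · have hf : f ((1 - r : ℝ) : ℂ) = ((1 / r * Real.exp (2 * Real.pi * n) / 100 : ℝ) : ℂ) * I := by
      unfold f
      rw [exp_L hz, hL, h2, h3]
      unfold a
      push_cast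
      have e2 : (1:ℂ) - (1 - (r:ℂ)) = r := by ring
      rw [e2]
      ring
    rw [hf, norm_mul, norm_I, mul_one, norm_real, Real.norm_eq_abs, norm_real, Real.norm_eq_abs,
      abs_of_nonneg (by linarith : 0 ≤ 1 - r), abs_of_pos (by positivity)]
    have e3 : (1 - (1 - r) ^ 2) * (1 / r * Real.exp (2 * Real.pi * n) / 100) =
        (2 - r) * (Real.exp (2 * Real.pi * n) / 100) := by
      field_simp
      ring
    rw [e3]
    have e4 : 0 < Real.exp (2 * Real.pi * n) / 100 := by positivity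
    nlinarith

/-- The negation of the preceding statement: For every injective analytic f on the unit disc, its primitive F with F(0)=0 satisfies a uniform bound on (1-∣z∣^2)∣f(z)∣/(1+∣F(z)∣^2) over the disc, i.e. F is a normal function. -/
theorem result :
    ¬ (∀ f F : ℂ → ℂ,
      AnalyticOnNhd ℂ f (Metric.ball (0:ℂ) 1) →
      Set.InjOn f (Metric.ball (0:ℂ) 1) →
      F 0 = 0 →
      (∀ z ∈ Metric.ball (0:ℂ) 1, HasDerivAt F (f z) z) →
      ∃ C : ℝ, ∀ z ∈ Metric.ball (0:ℂ) 1,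
        (1 - ‖z‖ ^ 2) * ‖f z‖ / (1 + ‖F z‖ ^ 2) ≤ C) := by
  intro h
  obtain ⟨C, hC⟩ := h f F f_analytic f_inj F_zero (fun z hz => F_deriv hz)
  obtain ⟨n, hn⟩ := exists_nat_gt (100 * C)
  obtain ⟨z, hz, hF, hb⟩ := special n
  have h1 := hC z hz
  rw [hF, norm_zero] at h1
  have h2 : (1:ℝ) + 0 ^ 2 = 1 := by norm_num
  rw [h2, div_one] at h1
  have h3 : 2 * Real.pi * n + 1 ≤ Real.exp (2 * Real.pi * n) := Real.add_one_le_exp _
  have h4 : (0:ℝ) ≤ n := Nat.cast_nonneg n
  have h5 : (n:ℝ) ≤ 2 * Real.pi * n := by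
    have := Real.pi_gt_three
    nlinarith
  linarith

end Pool.Agent.S02882
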