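import Pool.Statements.S02884
import Pool.Agent.Helper358.BQ4

set_option autoImplicit false
open Pool Pool.MP_32963f_an

namespace Pool.Agent.S02884

open Cardinal in
/-- an uncountable well-order all of whose initial segments are countable -/
theorem exists_omega : ∃ (Ω : Type) (_ : LinearOrder Ω) (_ : WellFoundedLT Ω),
    (∀ a : Ω, (Set.Iic a).Countable) ∧ ¬ (Set.univ : Set Ω).Countable := by
  let Ω : Type := (ℵ₁ : Cardinal.{0}).ord.ToType
  have hcard : #Ω = ℵ₁ := Cardinal.mk_ord_toType _
  have hc : ∀ a : Ω, (Set.Iic a).Countable := by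
    intro a
    have h1 : (Set.Iio a).Countable := by
      rw [← Cardinal.le_aleph0_iff_set_countable]
      have h2 : #(Set.Iio a) < ℵ₁ := Cardinal.mk_Iio_toType_ord_lt a
      have h3 : (ℵ₁ : Cardinal.{0}) = Order.succ ℵ₀ := Cardinal.succ_aleph0.symm
      exact Order.lt_succ_iff.mp (h2.trans_eq h3)
    rw [← Set.Iio_insert]
    exact h1.insert a
  have hu : ¬ (Set.univ : Set Ω).Countable := by
    rw [← Cardinal.le_aleph0_iff_set_countable, Cardinal.mk_univ, hcard, not_le]
    exact Cardinal.aleph0_lt_aleph_one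
  exact ⟨Ω, inferInstance, inferInstance, hc, hu⟩

/-- The negation of the preceding statement: For every scattered compact Hausdorff space K: if real C(K) has a norming Markushevich basis, then K is homeomorphic to a weakly compact subset of some real Banach space, i.e. K is Eberlein compact. -/
theorem result :
    ¬ (∀ (K : Type) [TopologicalSpace K] [CompactSpace K] [T2Space K],
      (∀ s : Set K, s.Nonempty → ∃ x ∈ s, ∃ U : Set K, IsOpen U ∧ U ∩ s = {x}) →
      (∃ (I : Type) (x : I → C(K, ℝ)) (f : I → (C(K, ℝ) →L[ℝ] ℝ)),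
        (∀ i j : I, i = j → f i (x j) = 1) ∧
        (∀ i j : I, i ≠ j → f i (x j) = 0) ∧
        Dense (Submodule.span ℝ (Set.range x) : Set C(K, ℝ)) ∧
        (∀ y : C(K, ℝ), (∀ i, f i y = 0) → y = 0) ∧
        ∃ c : ℝ, 0 < c ∧ ∀ y : C(K, ℝ),
          ∃ g ∈ Submodule.span ℝ (Set.range f), ‖g‖ ≤ 1 ∧ c * ‖y‖ ≤ |g y|) →
      ∃ (E : Type) (_ : NormedAddCommGroup E) (_ : NormedSpace ℝ E) (_ : CompleteSpace E),
        ∃ S : Set (WeakSpace ℝ E), IsCompact S ∧ Nonempty (K ≃ₜ S)) := by
  intro h
  obtain ⟨W, _, _, hc, hu⟩ := exists_omega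
  obtain ⟨F, hF⟩ := Helper358.BQ.exists_good hc
  have : CompactSpace (Helper358.BQ.KS F) :=
    isCompact_iff_compactSpace.mp (Helper358.BQ.closed_KS hF).isCompact
  obtain ⟨E, _, _, _, S, -, ⟨e⟩⟩ := h (Helper358.BQ.KS F) (Helper358.BQ.scattered hF)
    ⟨Helper358.BQ.GG F, fun i => Helper358.BQ.xf F i.1, fun i => Helper358.BQ.ff hF i.1,
      by
        rintro i j rfl
        rw [Helper358.BQ.ff_xf hF i.2 i.2, if_pos rfl],
      by
        intro i j hij
        rw [Helper358.BQ.ff_xf hF i.2 j.2, if_neg (fun h' => hij (Subtype.ext h'))],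
      Helper358.BQ.dense_span hF,
      by
        intro y hy
        refine Helper358.BQ.zero_of_pt hF fun G hG => ?_
        rw [← Helper358.BQ.dl_apply hF hG]
        have hmem := Helper358.BQ.dl_mem hF hG
        refine Submodule.span_induction (p := fun g _ => g y = 0) ?_ ?_ ?_ ?_ hmem
        · rintro _ ⟨i, rfl⟩
          exact hy i
        · simp
        · intro a b _ _ ha hb
          rw [add_apply, ha, hb, add_zero]
        · intro r a _ ha
          rw [smul_apply, ha, smul_zero],
      1 / 2, by norm_num, Helper358.BQ.norming hF⟩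
  refine Helper358.BQ.not_inj hF hc hu (fun A => (e A).1)
    (continuous_subtype_val.comp e.continuous) ?_
  intro A B hAB
  exact e.injective (Subtype.ext hAB)

end Pool.Agent.S02884
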