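import Pool.Statements.S02892
import Pool.Agent.Helper23.Twist
import Pool.Agent.Helper23.Haagerup
import Pool.Agent.Helper23.RDGam
import Pool.Agent.Helper23.Top

set_option autoImplicit false
open Pointwise
open Pool Pool.MP_3426c0_an

namespace Pool.Agent.S02892

open Pool.Agent.Helper23.Twist Pool.Agent.Helper23.Haagerup Pool.Agent.Helper23.RDGam
  Pool.Agent.Helper23.Top

noncomputable section AuxSec

/-- the embedding of the untwisted lattice into `F × F` -/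
def iota : GamG →* F × F where
  toFun a := a.1.g.1
  map_one' := rfl
  map_mul' a b := by
    show (a.1.g * ka a.1.k b.1.g).1 = a.1.g.1 * b.1.g.1
    rw [show a.1.k = 0 from a.2, ka_zero]
    rfl

lemma iota_inj : Function.Injective iota := by
  intro a b h
  apply Subtype.ext
  apply GG.ext
  · exact Subtype.ext h
  · rw [show a.1.k = 0 from a.2, show b.1.k = 0 from b.2]

/-- inclusion of the base group -/
def incl : Gam →* GamG where
  toFun x := ⟨⟨x, 0⟩, rfl⟩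
  map_one' := rfl
  map_mul' x y := by
    apply Subtype.ext
    apply GG.ext <;> simp

lemma incl_surj (a : GamG) : incl a.1.g = a := by
  apply Subtype.ext
  apply GG.ext
  · rfl
  · exact (show a.1.k = 0 from a.2).symm

/-- generating set of the untwisted lattice -/
def S1 : Set GamG := incl '' S0

lemma S1_finite : S1.Finite := S0_finite.image _

lemma S1_gen : Subgroup.closure S1 = ⊤ := by
  rw [eq_top_iff]
  intro a _
  have h2 : a.1.g ∈ Subgroup.closure S0 := by rw [S0_gen]; trivial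
  have h3 : incl a.1.g ∈ (Subgroup.closure S0).map incl := Subgroup.mem_map_of_mem _ h2
  rw [MonoidHom.map_closure, incl_surj] at h3
  exact h3

/-- length function on the untwisted lattice -/
def LG (a : GamG) : ℕ := max (iota a).1.norm (iota a).2.norm

lemma LG_mul (a b : GamG) : LG (a * b) ≤ LG a + LG b := by
  unfold LG
  rw [map_mul]
  have h1 := FreeGroup.norm_mul_le (iota a).1 (iota b).1
  have h2 := FreeGroup.norm_mul_le (iota a).2 (iota b).2
  simp only [Prod.fst_mul, Prod.snd_mul]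
  omega

lemma LG_one : LG 1 = 0 := by simp [LG]

lemma LG_inv (a : GamG) : LG a⁻¹ = LG a := by simp [LG]

lemma LG_sgen (i j : ZMod 2) : LG (incl (sgen i j)) = 1 := by
  show max (FreeGroup.of i : F).norm (FreeGroup.of j : F).norm = 1
  simp

lemma LG_S1' {a : GamG} (ha : a ∈ S1) : LG a ≤ 1 := by
  obtain ⟨x, ⟨i, j, h | h⟩, rfl⟩ := ha
  · rw [h, LG_sgen]
  · rw [h, map_inv, LG_inv, LG_sgen]

lemma LG_S1 {a : GamG} (ha : a ∈ (S1 ∪ S1⁻¹ ∪ {1} : Set GamG)) : LG a ≤ 1 := by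
  rcases ha with (ha | ha) | ha
  · exact LG_S1' ha
  · rw [← LG_inv]; exact LG_S1' ha
  · rw [Set.mem_singleton_iff] at ha
    rw [ha, LG_one]; omega

lemma LG_pow (n : ℕ) : ∀ a ∈ (S1 ∪ S1⁻¹ ∪ {1} : Set GamG) ^ n, LG a ≤ n := by
  induction n with
  | zero =>
    intro a ha
    rw [pow_zero, Set.mem_one] at ha
    rw [ha, LG_one]
  | succ n ih =>
    intro a ha
    rw [pow_succ, Set.mem_mul] at ha
    obtain ⟨b, hb, c, hc, rfl⟩ := ha
    have h1 := LG_mul b c
    have h2 := ih b hb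
    have h3 := LG_S1 hc
    omega

theorem gamG_RD : ∃ S : Set GamG, S.Finite ∧ Subgroup.closure S = ⊤ ∧
    ∃ C : ℝ, ∃ d : ℕ, ∀ n : ℕ, ∀ f g : GamG →₀ ℂ,
      (↑f.support : Set GamG) ⊆ (S ∪ S⁻¹ ∪ {1} : Set GamG) ^ n →
      (∑' x : GamG, ‖∑ y ∈ f.support, f y * g (y⁻¹ * x)‖ ^ 2) ≤
        C * ((n : ℝ) + 1) ^ d * (∑ y ∈ f.support, ‖f y‖ ^ 2) *
          (∑ y ∈ g.support, ‖g y‖ ^ 2) := by
  classical
  refine ⟨S1, S1_finite, S1_gen, 4, 12, ?_⟩
  intro n f g hf
  set R : ℝ := 4 * ((n : ℝ) + 1) ^ 12 * (∑ y ∈ f.support, ‖f y‖ ^ 2) *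
          (∑ y ∈ g.support, ‖g y‖ ^ 2) with hR
  have hR0 : 0 ≤ R := by
    rw [hR]
    have h1 : 0 ≤ ∑ y ∈ f.support, ‖f y‖ ^ 2 := Finset.sum_nonneg fun _ _ => by positivity
    have h2 : 0 ≤ ∑ y ∈ g.support, ‖g y‖ ^ 2 := Finset.sum_nonneg fun _ _ => by positivity
    positivity
  have key : ∀ E : Finset GamG, ∑ x ∈ E, ‖cv f g x‖ ^ 2 ≤ R := by
    intro E
    obtain ⟨B, hB⟩ := rd_core LG 4
      (fun r A B C f g h hA hf hg hC hh => tri_emb iota iota_inj r A B C f g h hA hf hg hC hh)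
      f g E
    have h0 : 0 ≤ ∑ x ∈ E, ‖cv f g x‖ ^ 2 := Finset.sum_nonneg fun _ _ => by positivity
    have h1 : ∑ y ∈ B, ‖g y‖ ^ 2 ≤ ∑ y ∈ g.support, ‖g y‖ ^ 2 := by
      calc ∑ y ∈ B, ‖g y‖ ^ 2 = ∑ y ∈ B.filter (fun y => y ∈ g.support), ‖g y‖ ^ 2 := by
            rw [Finset.sum_filter]
            refine Finset.sum_congr rfl fun y _ => ?_
            split_ifs with h
            · rfl
            · rw [Finsupp.notMem_support_iff.mp h]; simp
        _ ≤ _ := by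
            apply Finset.sum_le_sum_of_subset_of_nonneg
            · intro c hc; exact (Finset.mem_filter.mp hc).2
            · intro c _ _; positivity
    have h2 : ∑ y ∈ f.support, ‖f y‖ ^ 2 * ((LG y : ℝ) + 1) ^ (2 * (4 + 2)) ≤
        ((n : ℝ) + 1) ^ 12 * ∑ y ∈ f.support, ‖f y‖ ^ 2 := by
      rw [Finset.mul_sum]
      refine Finset.sum_le_sum fun y hy => ?_
      have h3 : (LG y : ℝ) ≤ n := by exact_mod_cast LG_pow n y (hf hy)
      calc ‖f y‖ ^ 2 * ((LG y : ℝ) + 1) ^ (2 * (4 + 2)) ≤ ‖f y‖ ^ 2 * ((n : ℝ) + 1) ^ 12 := by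
            gcongr
        _ = _ := by ring
    have h4 : 0 ≤ ∑ y ∈ f.support, ‖f y‖ ^ 2 * ((LG y : ℝ) + 1) ^ (2 * (4 + 2)) :=
      Finset.sum_nonneg fun _ _ => by positivity
    have h5 : 0 ≤ ∑ y ∈ B, ‖g y‖ ^ 2 := Finset.sum_nonneg fun _ _ => by positivity
    have h6 : 0 ≤ ∑ y ∈ f.support, ‖f y‖ ^ 2 := Finset.sum_nonneg fun _ _ => by positivity
    calc ∑ x ∈ E, ‖cv f g x‖ ^ 2 = Real.sqrt (∑ x ∈ E, ‖cv f g x‖ ^ 2) ^ 2 :=
          (Real.sq_sqrt h0).symm
      _ ≤ (2 * Real.sqrt (∑ y ∈ f.support, ‖f y‖ ^ 2 * ((LG y : ℝ) + 1) ^ (2 * (4 + 2))) *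
            Real.sqrt (∑ y ∈ B, ‖g y‖ ^ 2)) ^ 2 :=
          pow_le_pow_left₀ (Real.sqrt_nonneg _) hB 2
      _ = 4 * (∑ y ∈ f.support, ‖f y‖ ^ 2 * ((LG y : ℝ) + 1) ^ (2 * (4 + 2))) *
            (∑ y ∈ B, ‖g y‖ ^ 2) := by
          rw [mul_pow, mul_pow, Real.sq_sqrt h4, Real.sq_sqrt h5]
          norm_num
      _ ≤ 4 * (((n : ℝ) + 1) ^ 12 * ∑ y ∈ f.support, ‖f y‖ ^ 2) *
            (∑ y ∈ g.support, ‖g y‖ ^ 2) := by
          gcongr
      _ = R := by rw [hR]; ring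
  have hcv : ∀ x, (∑ y ∈ f.support, f y * g (y⁻¹ * x)) = cv f g x := fun _ => rfl
  simp only [hcv]
  by_cases hs : Summable (fun x => ‖cv f g x‖ ^ 2)
  · exact hs.tsum_le_of_sum_le key
  · rw [tsum_eq_zero_of_not_summable hs]
    exact hR0

lemma isProd_pow {G : Type} [Group G] {S U : Set G} (M : ℕ) (hSU : S ⊆ U ^ M) :
    ∀ n g, IsProd S n g → g ∈ U ^ (n * M) := by
  rintro n g ⟨l, h1, h2, h3⟩
  subst h1
  subst h3
  induction l with
  | nil => simp
  | cons a l ih =>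
    rw [List.length_cons, List.prod_cons, add_mul, one_mul, add_comm, pow_add]
    exact Set.mul_mem_mul (hSU (h2 a (by simp))) (ih (fun b hb => h2 b (by simp [hb])))

theorem lamG_not_RD : ¬ ∃ S : Set LamG, S.Finite ∧ Subgroup.closure S = ⊤ ∧
    ∃ C : ℝ, ∃ d : ℕ, ∀ n : ℕ, ∀ f g : LamG →₀ ℂ,
      (↑f.support : Set LamG) ⊆ (S ∪ S⁻¹ ∪ {1} : Set LamG) ^ n →
      (∑' x : LamG, ‖∑ y ∈ f.support, f y * g (y⁻¹ * x)‖ ^ 2) ≤
        C * ((n : ℝ) + 1) ^ d * (∑ y ∈ f.support, ‖f y‖ ^ 2) *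
          (∑ y ∈ g.support, ‖g y‖ ^ 2) := by
  classical
  rintro ⟨S, hSf, hSg, C, d, hRD⟩
  set U : Set LamG := S ∪ S⁻¹ ∪ {1} with hU
  have hU1 : (1 : LamG) ∈ U := Or.inr rfl
  have hUinv : ∀ a ∈ U, a⁻¹ ∈ U := by
    rintro a ((ha | ha) | ha)
    · left; right
      rw [Set.mem_inv, inv_inv]; exact ha
    · left; left
      exact ha
    · right
      rw [Set.mem_singleton_iff] at ha ⊢
      rw [ha, inv_one]
  have hUgen : Subgroup.closure U = ⊤ := by
    rw [eq_top_iff, ← hSg]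
    apply Subgroup.closure_mono
    intro a ha
    left; left; exact ha
  have hex : ∀ t : LamG, ∃ m : ℕ, t ∈ U ^ m := by
    intro t
    obtain ⟨m, hm⟩ := exists_isProd hUinv hUgen t
    refine ⟨m * 1, isProd_pow (S := U) 1 (by rw [pow_one]) m t hm⟩
  choose m hm using hex
  obtain ⟨M, hM⟩ : ∃ M : ℕ, ∀ t ∈ T0, t ∈ U ^ M := by
    refine ⟨T0_finite.toFinset.sup m, fun t ht => ?_⟩
    have h1 : m t ≤ T0_finite.toFinset.sup m :=
      Finset.le_sup (f := m) (T0_finite.mem_toFinset.mpr ht)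
    exact Set.pow_subset_pow_right hU1 h1 (hm t)
  have hlen : ∀ n : ℕ, (↑(MM n) : Set LamG) ⊆ U ^ ((n + n) * M) := by
    intro n x hx
    exact isProd_pow M hM _ _ (MM_isProd n hx)
  -- main inequality
  have main : ∀ n : ℕ, (2 : ℝ) ^ n ≤ C * ((((n + n) * M : ℕ) : ℝ) + 1) ^ d := by
    intro n
    set N : ℝ := (2 : ℝ) ^ n with hN
    have hNpos : 0 < N := by positivity
    have hcard : ((MM n).card : ℝ) = N := by rw [MM_card]; push_cast; rfl
    let f : LamG →₀ ℂ :=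
      { support := MM n
        toFun := fun x => if x ∈ MM n then 1 else 0
        mem_support_toFun := by intro a; simp }
    have hfsupp : f.support = MM n := rfl
    have hfval : ∀ x ∈ MM n, f x = 1 := by
      intro x hx
      show (if x ∈ MM n then (1 : ℂ) else 0) = 1
      rw [if_pos hx]
    have hfval0 : ∀ x, x ∉ MM n → f x = 0 := by
      intro x hx
      show (if x ∈ MM n then (1 : ℂ) else 0) = 0
      rw [if_neg hx]
    have hmain := hRD ((n + n) * M) f f (hlen n)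
    have hconv : ∀ x ∈ MM n, (∑ y ∈ f.support, f y * f (y⁻¹ * x)) = (N : ℂ) := by
      intro x hx
      rw [hfsupp, Finset.sum_congr rfl (fun y hy => by
        rw [hfval y hy, hfval _ (MM_closed n hy hx)])]
      simp only [mul_one, Finset.sum_const, nsmul_eq_mul]
      rw [← hcard]
      push_cast
      rfl
    have hconv0 : ∀ x ∉ MM n, ‖∑ y ∈ f.support, f y * f (y⁻¹ * x)‖ ^ 2 = 0 := by
      intro x hx
      have h1 : (∑ y ∈ f.support, f y * f (y⁻¹ * x)) = 0 := by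
        rw [hfsupp]
        refine Finset.sum_eq_zero fun y hy => ?_
        rw [hfval0 (y⁻¹ * x), mul_zero]
        intro h2
        apply hx
        have h3 : y⁻¹ ∈ MM n := by
          have := MM_closed n hy (MM_one n)
          rwa [mul_one] at this
        have h4 := MM_closed n h3 h2
        rwa [inv_inv, mul_inv_cancel_left] at h4
      rw [h1]; simp
    rw [tsum_eq_sum hconv0, Finset.sum_congr rfl (fun x hx => by rw [hconv x hx]),
      Finset.sum_const, nsmul_eq_mul, hcard, Complex.norm_real, Real.norm_of_nonneg hNpos.le,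
      hfsupp, Finset.sum_congr rfl (fun x hx => by rw [hfval x hx]), Finset.sum_const,
      nsmul_eq_mul, hcard] at hmain
    have h5 : N * (N * N) ≤ (C * ((((n + n) * M : ℕ) : ℝ) + 1) ^ d) * (N * N) := by
      calc N * (N * N) = N * N ^ 2 := by ring
        _ ≤ _ := hmain
        _ = _ := by
          rw [norm_one]; ring
    exact le_of_mul_le_mul_right h5 (by positivity)
  -- contradiction with exponential growth
  have hlim := tendsto_pow_const_div_const_pow_of_one_lt d (show (1 : ℝ) < 2 by norm_num)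
  set D : ℝ := |C| * (1 + 2 * (M : ℝ)) ^ d + 1 with hD
  have hDpos : 0 < D := by positivity
  have hev := hlim.eventually (gt_mem_nhds (show (0 : ℝ) < 1 / D by positivity))
  obtain ⟨n, hn1, hn2⟩ := (hev.and (Filter.eventually_ge_atTop 1)).exists
  have h2n : (0 : ℝ) < 2 ^ n := by positivity
  rw [div_lt_div_iff₀ h2n hDpos, one_mul] at hn1
  have hm' := main n
  have hn1' : (1 : ℝ) ≤ n := by exact_mod_cast hn2
  have h6 : ((((n + n) * M : ℕ) : ℝ) + 1) ^ d ≤ ((1 + 2 * (M : ℝ)) * n) ^ d := by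
    apply pow_le_pow_left₀ (by positivity)
    have : (0 : ℝ) ≤ M := Nat.cast_nonneg _
    push_cast
    nlinarith
  have h7 : (2 : ℝ) ^ n ≤ |C| * (1 + 2 * (M : ℝ)) ^ d * (n : ℝ) ^ d := by
    calc (2 : ℝ) ^ n ≤ C * ((((n + n) * M : ℕ) : ℝ) + 1) ^ d := hm'
      _ ≤ |C| * ((((n + n) * M : ℕ) : ℝ) + 1) ^ d :=
          mul_le_mul_of_nonneg_right (le_abs_self C) (by positivity)
      _ ≤ |C| * ((1 + 2 * (M : ℝ)) * n) ^ d := by
          apply mul_le_mul_of_nonneg_left h6 (abs_nonneg _)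
      _ = _ := by rw [mul_pow]; ring
  have h8 : (0 : ℝ) < (n : ℝ) ^ d := by positivity
  have h9 : |C| * (1 + 2 * (M : ℝ)) ^ d * (n : ℝ) ^ d ≤ (n : ℝ) ^ d * D := by
    rw [hD]; nlinarith
  linarith

end AuxSec

/-- The negation of the preceding statement: In a compactly generated locally compact Hausdorff group, if one discrete cocompact subgroup has rapid decay (convolution by functions on word balls of radius n has operator norm polynomial in n), then every other discrete cocompact subgroup does too. -/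
theorem result :
    ¬ (∀ (G : Type) [TopologicalSpace G] [Group G] [IsTopologicalGroup G]
      [LocallyCompactSpace G] [T2Space G],
      (∃ K : Set G, IsCompact K ∧ Subgroup.closure K = ⊤) →
      ∀ Γ₁ Γ₂ : Subgroup G,
        DiscreteTopology Γ₁ → CompactSpace (G ⧸ Γ₁) →
        DiscreteTopology Γ₂ → CompactSpace (G ⧸ Γ₂) →
        (∃ S : Set Γ₂, S.Finite ∧ Subgroup.closure S = ⊤ ∧
          ∃ C : ℝ, ∃ d : ℕ, ∀ n : ℕ, ∀ f g : Γ₂ →₀ ℂ,
            (↑f.support : Set Γ₂) ⊆ (S ∪ S⁻¹ ∪ {1} : Set Γ₂) ^ n →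
            (∑' x : Γ₂, ‖∑ y ∈ f.support, f y * g (y⁻¹ * x)‖ ^ 2) ≤
              C * ((n : ℝ) + 1) ^ d * (∑ y ∈ f.support, ‖f y‖ ^ 2) *
                (∑ y ∈ g.support, ‖g y‖ ^ 2)) →
        (∃ S : Set Γ₁, S.Finite ∧ Subgroup.closure S = ⊤ ∧
          ∃ C : ℝ, ∃ d : ℕ, ∀ n : ℕ, ∀ f g : Γ₁ →₀ ℂ,
            (↑f.support : Set Γ₁) ⊆ (S ∪ S⁻¹ ∪ {1} : Set Γ₁) ^ n →
            (∑' x : Γ₁, ‖∑ y ∈ f.support, f y * g (y⁻¹ * x)‖ ^ 2) ≤
              C * ((n : ℝ) + 1) ^ d * (∑ y ∈ f.support, ‖f y‖ ^ 2) *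
                (∑ y ∈ g.support, ‖g y‖ ^ 2))) := by
  intro H
  have h1 := H Pool.Agent.Helper23.Twist.GG Pool.Agent.Helper23.Top.compactly_generated
    Pool.Agent.Helper23.Twist.LamG Pool.Agent.Helper23.Twist.GamG
    inferInstance inferInstance inferInstance inferInstance gamG_RD
  exact lamG_not_RD h1

end Pool.Agent.S02892
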