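import Pool.Statements.S02894
import Pool.Agent.Helper234.Calkin.Main

set_option autoImplicit false
open Pool Pool.MP_3437a9_an

namespace Pool.Agent.S02894

/-- The negation of the preceding statement: For every separable (possibly non-unital) C*-algebra B and every closed two-sided ideal I of B, there is a bounded linear map from B into I that is the identity on I. -/
theorem result :
    ¬ (∀ (B : Type) [NonUnitalCStarAlgebra B] [TopologicalSpace.SeparableSpace B]
      (I : Submodule ℂ B), IsClosed (I : Set B) →
      (∀ a ∈ I, ∀ b : B, b * a ∈ I ∧ a * b ∈ I) →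
      ∃ P : B →L[ℂ] B, (∀ x, P x ∈ I) ∧ ∀ x ∈ I, P x = x) := by
  exact Pool.Agent.Helper234.Calkin.s02894

end Pool.Agent.S02894
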