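import Pool.Statements.S02898
import Pool.Agent.Helper57.NumIdx3

set_option autoImplicit false
open Pool Pool.MP_349896_an

namespace Pool.Agent.S02898

/-- The negation of the preceding statement: For real or complex scalars, every Banach space Y isometric to some Banach dual has a Banach predual X (X* isometric to Y) whose numerical index equals that of Y. -/
theorem result :
    ¬ (∀ (𝕜 : Type) [RCLike 𝕜] (Y : Type) [NormedAddCommGroup Y] [NormedSpace 𝕜 Y] [CompleteSpace Y],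
      (∃ (Z : Type) (_ : NormedAddCommGroup Z) (_ : NormedSpace 𝕜 Z),
          CompleteSpace Z ∧ Nonempty ((Z →L[𝕜] 𝕜) ≃ₗᵢ[𝕜] Y)) →
      ∃ (X : Type) (_ : NormedAddCommGroup X) (_ : NormedSpace 𝕜 X),
        CompleteSpace X ∧ Nonempty ((X →L[𝕜] 𝕜) ≃ₗᵢ[𝕜] Y) ∧
        sInf ((fun T : X →L[𝕜] X =>
            sSup {r : ℝ | ∃ (x : X) (f : X →L[𝕜] 𝕜),
              ‖x‖ = 1 ∧ ‖f‖ = 1 ∧ f x = 1 ∧ r = ‖f (T x)‖}) ''
            {T : X →L[𝕜] X | ‖T‖ = 1})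
          =
        sInf ((fun T : Y →L[𝕜] Y =>
            sSup {r : ℝ | ∃ (y : Y) (g : Y →L[𝕜] 𝕜),
              ‖y‖ = 1 ∧ ‖g‖ = 1 ∧ g y = 1 ∧ r = ‖g (T y)‖}) ''
            {T : Y →L[𝕜] Y | ‖T‖ = 1})) := by
  intro h
  obtain ⟨X', i1, i2, hc, ⟨Φ⟩, heq⟩ := h ℝ (Pool.Agent.Helper57.NumIdx.XX →L[ℝ] ℝ)
    ⟨Pool.Agent.Helper57.NumIdx.XX, inferInstance, inferInstance, inferInstance, ⟨LinearIsometryEquiv.refl ℝ _⟩⟩
  have := hc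
  obtain ⟨e⟩ := Pool.Agent.Helper57.NumIdx.XX_unique X' Φ
  have hnt : Nontrivial X' := by
    have := Pool.Agent.Helper57.NumIdx.XX_nontrivial
    exact e.toEquiv.nontrivial
  obtain ⟨T₁, hT₁, hNR⟩ := Pool.Agent.Helper57.NumIdx.XX_upper
  have hup : sInf ((fun T : (Pool.Agent.Helper57.NumIdx.XX →L[ℝ] ℝ) →L[ℝ] (Pool.Agent.Helper57.NumIdx.XX →L[ℝ] ℝ) =>
            sSup {r : ℝ | ∃ (y : Pool.Agent.Helper57.NumIdx.XX →L[ℝ] ℝ) (g : (Pool.Agent.Helper57.NumIdx.XX →L[ℝ] ℝ) →L[ℝ] ℝ),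
              ‖y‖ = 1 ∧ ‖g‖ = 1 ∧ g y = 1 ∧ r = ‖g (T y)‖}) ''
            {T : (Pool.Agent.Helper57.NumIdx.XX →L[ℝ] ℝ) →L[ℝ] (Pool.Agent.Helper57.NumIdx.XX →L[ℝ] ℝ) | ‖T‖ = 1}) ≤ 11 / 20 := by
    refine csInf_le_of_le ?_ ⟨T₁, hT₁, rfl⟩
      (Pool.Agent.Helper57.NumIdx.radSet_le (by norm_num) hNR)
    refine ⟨0, ?_⟩
    rintro c ⟨T, _, rfl⟩
    exact Pool.Agent.Helper57.NumIdx.radSet_nonneg T
  have hlow : 3 / 5 ≤ sInf ((fun T : X' →L[ℝ] X' =>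
            sSup {r : ℝ | ∃ (x : X') (f : X' →L[ℝ] ℝ),
              ‖x‖ = 1 ∧ ‖f‖ = 1 ∧ f x = 1 ∧ r = ‖f (T x)‖}) ''
            {T : X' →L[ℝ] X' | ‖T‖ = 1}) := by
    apply le_csInf
    · exact ⟨_, ContinuousLinearMap.id ℝ X', ContinuousLinearMap.norm_id, rfl⟩
    · rintro c ⟨T, hT, rfl⟩
      exact Pool.Agent.Helper57.NumIdx.lower_of_iso e hT (Pool.Agent.Helper57.NumIdx.NR_radSet T)
  rw [heq] at hlow
  linarith

end Pool.Agent.S02898
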