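import Pool.Statements.S02900
import Pool.Agent.Helper957.Inst

set_option autoImplicit false
open Filter Topology
open Pool Pool.MP_34b873_an

namespace Pool.Agent.S02900

/-- The negation of the preceding statement: If every quotient of a real Banach space X by a closed subspace has an equivalent norm that is Fréchet differentiable away from 0, then X has an equivalent norm whose dual norm on X* is locally uniformly rotund. -/
theorem result :
    ¬ (∀ (X : Type) [NormedAddCommGroup X] [NormedSpace ℝ X] [CompleteSpace X],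
    (∀ Y : Submodule ℝ X, IsClosed (Y : Set X) →
      ∃ p : Seminorm ℝ X,
        (∃ c C : ℝ, 0 < c ∧ ∀ x : X,
          c * Metric.infDist x (Y : Set X) ≤ p x ∧ p x ≤ C * Metric.infDist x (Y : Set X)) ∧
        ∀ x : X, x ∉ Y → DifferentiableAt ℝ (fun z : X => p z) x) →
    ∃ N : Seminorm ℝ X,
      (∃ c C : ℝ, 0 < c ∧ ∀ x : X, c * ‖x‖ ≤ N x ∧ N x ≤ C * ‖x‖) ∧
      ∀ (f : X →L[ℝ] ℝ) (g : ℕ → (X →L[ℝ] ℝ)),
        Tendsto (fun n : ℕ =>
            2 * (sSup ((fun x : X => f x) '' {x : X | N x ≤ 1})) ^ 2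
            + 2 * (sSup ((fun x : X => g n x) '' {x : X | N x ≤ 1})) ^ 2
            - (sSup ((fun x : X => (f + g n) x) '' {x : X | N x ≤ 1})) ^ 2)
          atTop (𝓝 0) →
        Tendsto g atTop (𝓝 f)) := by
  intro H
  obtain ⟨N, ⟨c, C, hc, hcC⟩, hlur⟩ := H (Helper957.XX Helper957.Om) (by
    intro Y hY
    obtain ⟨q, hq1, hq2, hq3, hq4⟩ := Helper957.quot_XX Y hY
    refine ⟨hq1.toSeminorm, ⟨1, 2, one_pos, fun x => ⟨?_, ?_⟩⟩, fun x hx => ?_⟩
    · rw [one_mul]
      exact hq2 x
    · exact hq3 x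
    · obtain ⟨l, hl⟩ := hq4 x hx
      exact hl.differentiableAt)
  have hM : ∀ x : Helper957.XX Helper957.Om, N x ≤ 1 → ‖x‖ ≤ c⁻¹ := by
    intro x hx
    have h1 := (hcC x).1
    rw [← mul_le_mul_iff_of_pos_left hc, mul_inv_cancel₀ hc.ne']
    exact h1.trans hx
  obtain ⟨f, g, hfg, h0⟩ := Helper957.no_dual_lur (p := fun x => N x)
    (D := fun f => sSup ((fun x : Helper957.XX Helper957.Om => f x) ''
      {x : Helper957.XX Helper957.Om | N x ≤ 1})) (M := c⁻¹)
    (by rw [map_zero]; exact zero_le_one)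
    (fun f x hx => by
      refine le_csSup ?_ (Set.mem_image_of_mem (fun x : Helper957.XX Helper957.Om => f x) hx)
      refine ⟨‖f‖ * c⁻¹, ?_⟩
      rintro _ ⟨y, hy, rfl⟩
      have h1 := (le_abs_self _).trans (f.le_opNorm y)
      exact h1.trans (mul_le_mul_of_nonneg_left (hM y hy) (norm_nonneg f)))
    (fun f r h => by
      apply csSup_le
      · exact ⟨_, 0, by
          show N 0 ≤ 1
          rw [map_zero]; exact zero_le_one, rfl⟩
      · rintro _ ⟨y, hy, rfl⟩
        exact h y hy)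
    hM
  have h1 := hlur f (fun _ => g)
    ((tendsto_const_nhds (x := (0 : ℝ))).congr fun _ => h0.symm)
  have h2 := tendsto_nhds_unique h1 tendsto_const_nhds
  exact hfg h2

end Pool.Agent.S02900
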