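import Pool.Statements.S02912

set_option autoImplicit false
open Pool Pool.MP_3604d7_an

namespace Pool.Agent.S02912

open Polynomial
open scoped BoundedContinuousFunction

/-- The Banach space of bounded complex sequences. -/
abbrev Bd : Type := ℕ →ᵇ ℂ

/-- Values of the weighted backward shift. -/
noncomputable def bFun (y : Bd) (n : ℕ) : ℂ := y (n + 1) / ((n : ℂ) + 1)

lemma norm_natCast_add_one (n : ℕ) : ‖((n : ℂ) + 1)‖ = (n : ℝ) + 1 := by
  have : ((n : ℂ) + 1) = ((n + 1 : ℕ) : ℂ) := by push_cast; ring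
  rw [this, Complex.norm_natCast]; push_cast; ring

lemma bFun_bound (y : Bd) (n : ℕ) : ‖bFun y n‖ ≤ ‖y‖ := by
  unfold bFun
  rw [norm_div, norm_natCast_add_one]
  have h1 : ‖y (n + 1)‖ ≤ ‖y‖ := y.norm_coe_le_norm _
  have h2 : (1 : ℝ) ≤ (n : ℝ) + 1 := by
    have : (0 : ℝ) ≤ (n : ℝ) := Nat.cast_nonneg n
    linarith
  calc ‖y (n + 1)‖ / ((n : ℝ) + 1) ≤ ‖y (n + 1)‖ := div_le_self (norm_nonneg _) h2
    _ ≤ ‖y‖ := h1

/-- The weighted backward shift as a linear map. -/
noncomputable def bLin : Bd →ₗ[ℂ] Bd where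
  toFun y := BoundedContinuousFunction.ofNormedAddCommGroup (bFun y) (continuous_of_discreteTopology)
    ‖y‖ (bFun_bound y)
  map_add' x y := by
    ext n
    simp [bFun, add_div]
  map_smul' c y := by
    ext n
    simp [bFun, mul_div_assoc]

@[simp] lemma bLin_apply (y : Bd) (n : ℕ) : bLin y n = y (n + 1) / ((n : ℂ) + 1) := rfl

/-- The weighted backward shift as a bounded operator. -/
noncomputable def bOp : Bd →L[ℂ] Bd :=
  bLin.mkContinuous 1 (fun y => by
    rw [one_mul]
    exact (BoundedContinuousFunction.norm_le (norm_nonneg _)).2 (bFun_bound y))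

@[simp] lemma bOp_apply (y : Bd) (n : ℕ) : bOp y n = y (n + 1) / ((n : ℂ) + 1) := rfl

/-- Values of the weighted forward shift. -/
noncomputable def fFun (y : Bd) : ℕ → ℂ
  | 0 => 0
  | (n + 1) => y n / ((n : ℂ) + 1)

lemma fFun_bound (y : Bd) (n : ℕ) : ‖fFun y n‖ ≤ ‖y‖ := by
  cases n with
  | zero => simp [fFun]
  | succ n =>
    simp only [fFun]
    rw [norm_div, norm_natCast_add_one]
    have h1 : ‖y n‖ ≤ ‖y‖ := y.norm_coe_le_norm _
    have h2 : (1 : ℝ) ≤ (n : ℝ) + 1 := by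
      have : (0 : ℝ) ≤ (n : ℝ) := Nat.cast_nonneg n
      linarith
    calc ‖y n‖ / ((n : ℝ) + 1) ≤ ‖y n‖ := div_le_self (norm_nonneg _) h2
      _ ≤ ‖y‖ := h1

/-- The weighted forward shift as a linear map. -/
noncomputable def fLin : Bd →ₗ[ℂ] Bd where
  toFun y := BoundedContinuousFunction.ofNormedAddCommGroup (fFun y) (continuous_of_discreteTopology)
    ‖y‖ (fFun_bound y)
  map_add' x y := by
    ext n
    cases n <;> simp [fFun, add_div]
  map_smul' c y := by
    ext n
    cases n <;> simp [fFun, mul_div_assoc]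

/-- The weighted forward shift as a bounded operator. -/
noncomputable def fOp : Bd →L[ℂ] Bd :=
  fLin.mkContinuous 1 (fun y => by
    rw [one_mul]
    exact (BoundedContinuousFunction.norm_le (norm_nonneg _)).2 (fFun_bound y))

@[simp] lemma fOp_apply_zero (y : Bd) : fOp y 0 = 0 := rfl
@[simp] lemma fOp_apply_succ (y : Bd) (n : ℕ) : fOp y (n + 1) = y n / ((n : ℂ) + 1) := rfl

lemma fact_ineq (n k : ℕ) : (n.factorial : ℝ) / ((n + k).factorial : ℝ) ≤ 1 / (k.factorial : ℝ) := by
  rw [div_le_div_iff₀ (by positivity) (by positivity)]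
  rw [one_mul]
  exact_mod_cast Nat.le_of_dvd (Nat.factorial_pos _) (Nat.factorial_mul_factorial_dvd_factorial_add n k)

lemma bOp_pow_apply (k : ℕ) (y : Bd) (n : ℕ) :
    (bOp ^ k) y n = y (n + k) * ((n.factorial : ℂ) / ((n + k).factorial : ℂ)) := by
  induction k generalizing n with
  | zero =>
    have : (n.factorial : ℂ) ≠ 0 := by exact_mod_cast Nat.factorial_ne_zero n
    simp [this]
  | succ k ih =>
    rw [pow_succ']
    change bOp ((bOp ^ k) y) n = _
    rw [bOp_apply, ih]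
    have e : n + 1 + k = n + (k + 1) := by ring
    rw [e]
    have h1 : ((n : ℂ) + 1) ≠ 0 := by exact_mod_cast Nat.succ_ne_zero n
    have h2 : ((n + (k + 1)).factorial : ℂ) ≠ 0 := by exact_mod_cast Nat.factorial_ne_zero _
    rw [Nat.factorial_succ n]
    push_cast
    field_simp

lemma fOp_pow_apply_lt (k : ℕ) (y : Bd) (n : ℕ) (h : n < k) : (fOp ^ k) y n = 0 := by
  induction k generalizing n with
  | zero => omega
  | succ k ih =>
    rw [pow_succ']
    change fOp ((fOp ^ k) y) n = _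
    cases n with
    | zero => simp
    | succ n =>
      rw [fOp_apply_succ, ih n (by omega), zero_div]

lemma fOp_pow_apply_add (k : ℕ) (y : Bd) (n : ℕ) :
    (fOp ^ k) y (n + k) = y n * ((n.factorial : ℂ) / ((n + k).factorial : ℂ)) := by
  induction k with
  | zero =>
    have : (n.factorial : ℂ) ≠ 0 := by exact_mod_cast Nat.factorial_ne_zero n
    simp [this]
  | succ k ih =>
    rw [pow_succ']
    change fOp ((fOp ^ k) y) (n + k + 1) = _
    rw [fOp_apply_succ, ih]
    have h1 : (((n + k : ℕ) : ℂ) + 1) ≠ 0 := by exact_mod_cast Nat.succ_ne_zero (n + k)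
    have h2 : ((n + k).factorial : ℂ) ≠ 0 := by exact_mod_cast Nat.factorial_ne_zero _
    rw [show n + (k + 1) = (n + k) + 1 by ring, Nat.factorial_succ (n + k)]
    push_cast
    push_cast at h1
    field_simp

lemma norm_fact_div (n k : ℕ) :
    ‖((n.factorial : ℂ) / ((n + k).factorial : ℂ))‖ ≤ 1 / (k.factorial : ℝ) := by
  rw [norm_div, Complex.norm_natCast, Complex.norm_natCast]
  exact fact_ineq n k

lemma bOp_pow_norm (k : ℕ) : ‖bOp ^ k‖ ≤ 1 / (k.factorial : ℝ) := by
  refine ContinuousLinearMap.opNorm_le_bound _ (by positivity) (fun y => ?_)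
  refine (BoundedContinuousFunction.norm_le (by positivity)).2 (fun n => ?_)
  rw [bOp_pow_apply, norm_mul, mul_comm]
  exact mul_le_mul (norm_fact_div n k) (y.norm_coe_le_norm _) (norm_nonneg _) (by positivity)

lemma fOp_pow_norm (k : ℕ) : ‖fOp ^ k‖ ≤ 1 / (k.factorial : ℝ) := by
  refine ContinuousLinearMap.opNorm_le_bound _ (by positivity) (fun y => ?_)
  refine (BoundedContinuousFunction.norm_le (by positivity)).2 (fun n => ?_)
  rcases lt_or_ge n k with h | h
  · rw [fOp_pow_apply_lt k y n h, norm_zero]; positivity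
  · obtain ⟨m, rfl⟩ := Nat.exists_eq_add_of_le' h
    rw [fOp_pow_apply_add, norm_mul, mul_comm]
    exact mul_le_mul (norm_fact_div m k) (y.norm_coe_le_norm _) (norm_nonneg _) (by positivity)

instance : Nontrivial Bd := ⟨⟨0, BoundedContinuousFunction.const ℕ 1, fun h => by
  have := congrArg (fun f : Bd => f 0) h
  simp at this⟩⟩

/-- Factorially small powers give spectrum contained in zero. -/
lemma isUnit_sub (A : Bd →L[ℂ] Bd) (hA : ∀ k : ℕ, ‖A ^ k‖ ≤ 1 / (k.factorial : ℝ))
    (μ : ℂ) (hμ : μ ≠ 0) : IsUnit (algebraMap ℂ (Bd →L[ℂ] Bd) μ - A) := by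
  have hpos : 0 < ‖μ‖ := norm_pos_iff.2 hμ
  obtain ⟨k, hk⟩ : ∃ k : ℕ, 1 / (k.factorial : ℝ) < ‖μ‖ ^ k := by
    have ht := FloorSemiring.tendsto_pow_div_factorial_atTop (‖μ‖⁻¹)
    have := (ht.eventually (gt_mem_nhds (show (0 : ℝ) < 1 by norm_num))).exists
    obtain ⟨k, hk⟩ := this
    refine ⟨k, ?_⟩
    rw [inv_pow, div_lt_one (by positivity), inv_lt_comm₀ (by positivity) (by positivity)] at hk
    rw [one_div]
    exact hk
  have h1 : μ ^ k ∈ resolventSet ℂ (A ^ k) := by
    refine spectrum.mem_resolventSet_of_norm_lt (𝕜 := ℂ) (A := Bd →L[ℂ] Bd) ?_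
    have e : ‖μ ^ k‖ = ‖μ‖ ^ k := norm_pow μ k
    rw [e]
    exact lt_of_le_of_lt (hA k) hk
  have h2 : μ ∉ spectrum ℂ A := by
    intro hmem
    have := spectrum.pow_mem_pow A k hmem
    exact this h1
  have h3 : μ ∈ resolventSet ℂ A := by
    by_contra h
    exact h2 h
  exact h3

/-- The candidate spectral capacity of an operator whose spectrum is the point a. -/
noncomputable def cap (a : ℂ) (F : Set ℂ) : Submodule ℂ Bd :=
  open Classical in if a ∈ F then ⊤ else ⊥

lemma cap_of_mem {a : ℂ} {F : Set ℂ} (h : a ∈ F) : cap a F = ⊤ := by simp [cap, h]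
lemma cap_of_not_mem {a : ℂ} {F : Set ℂ} (h : a ∉ F) : cap a F = ⊥ := by simp [cap, h]

lemma cap_spec (A : Bd →L[ℂ] Bd) (a : ℂ)
    (hA : ∀ μ : ℂ, μ ≠ a → Function.Bijective (fun x : Bd => A x - μ • x)) :
    (cap a ∅ = ⊥ ∧ cap a Set.univ = ⊤ ∧
        (∀ F : ℕ → Set ℂ, (∀ n, IsClosed (F n)) → cap a (⋂ n, F n) = ⨅ n, cap a (F n)) ∧
        (∀ (n : ℕ) (U : Fin n → Set ℂ), (∀ i, IsOpen (U i)) → (⋃ i, U i) = Set.univ →
          (⨆ i, cap a (closure (U i))) = ⊤) ∧
        (∀ F : Set ℂ, IsClosed F → IsClosed ((cap a F : Set Bd))) ∧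
        (∀ F : Set ℂ, IsClosed F → ∀ x ∈ cap a F, A x ∈ cap a F) ∧
        (∀ F : Set ℂ, IsClosed F → ∀ μ : ℂ, μ ∉ F → ∀ y ∈ cap a F,
          ∃! x : Bd, x ∈ cap a F ∧ A x - μ • x = y)) := by
  refine ⟨cap_of_not_mem (by simp), cap_of_mem (by simp), ?_, ?_, ?_, ?_, ?_⟩
  · intro F _
    by_cases h : a ∈ ⋂ n, F n
    · rw [cap_of_mem h]
      symm
      rw [iInf_eq_top]
      intro n
      exact cap_of_mem (Set.mem_iInter.1 h n)
    · rw [cap_of_not_mem h]
      symm
      rw [eq_bot_iff]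
      rw [Set.mem_iInter] at h
      push Not at h
      obtain ⟨n, hn⟩ := h
      refine (iInf_le _ n).trans ?_
      rw [cap_of_not_mem hn]
  · intro n U _ hU
    have : a ∈ ⋃ i, U i := by rw [hU]; trivial
    obtain ⟨i, hi⟩ := Set.mem_iUnion.1 this
    rw [eq_top_iff]
    refine le_trans ?_ (le_iSup _ i)
    rw [cap_of_mem (subset_closure hi)]
  · intro F _
    by_cases h : a ∈ F
    · rw [cap_of_mem h]; simp
    · rw [cap_of_not_mem h]; simp
  · intro F _ x hx
    by_cases h : a ∈ F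
    · rw [cap_of_mem h]; trivial
    · rw [cap_of_not_mem h] at hx ⊢
      rw [Submodule.mem_bot] at hx ⊢
      rw [hx, map_zero]
  · intro F _ μ hμ y hy
    by_cases h : a ∈ F
    · have hne : μ ≠ a := fun e => hμ (e ▸ h)
      obtain ⟨hi, hs⟩ := hA μ hne
      obtain ⟨x, hx⟩ := hs y
      refine ⟨x, ⟨by rw [cap_of_mem h]; trivial, hx⟩, ?_⟩
      rintro z ⟨_, hz⟩
      exact hi (hz.trans hx.symm)
    · rw [cap_of_not_mem h] at hy ⊢
      rw [Submodule.mem_bot] at hy
      subst hy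
      refine ⟨0, ⟨by simp, by simp⟩, ?_⟩
      rintro z ⟨hz, _⟩
      simpa using hz

lemma bijective_of_isUnit (A : Bd →L[ℂ] Bd) (hA : IsUnit A) : Function.Bijective A := by
  obtain ⟨u, rfl⟩ := hA
  constructor
  · intro x y h
    have := congrArg (fun z => (↑(u⁻¹) : Bd →L[ℂ] Bd) z) h
    have e : ∀ z, (↑(u⁻¹) : Bd →L[ℂ] Bd) ((u : Bd →L[ℂ] Bd) z) = z := fun z => by
      rw [← mul_apply_eq_comp, Units.inv_mul, one_apply_eq_self]
    simpa [e] using this
  · intro y
    refine ⟨(↑(u⁻¹) : Bd →L[ℂ] Bd) y, ?_⟩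
    rw [← mul_apply_eq_comp, Units.mul_inv, one_apply_eq_self]

lemma bOp_bij (μ : ℂ) (hμ : μ ≠ 0) : Function.Bijective (fun x : Bd => bOp x - μ • x) := by
  have h := (isUnit_sub bOp bOp_pow_norm μ hμ).neg
  have := bijective_of_isUnit _ h
  convert this using 2 with x
  simp [Algebra.algebraMap_eq_smul_one]

lemma fOp_bij (μ : ℂ) (hμ : μ ≠ 1) :
    Function.Bijective (fun x : Bd => (1 + fOp) x - μ • x) := by
  have h := (isUnit_sub fOp fOp_pow_norm (μ - 1) (sub_ne_zero.2 hμ)).neg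
  have := bijective_of_isUnit _ h
  convert this using 2 with x
  simp [Algebra.algebraMap_eq_smul_one, sub_smul]
  abel

/-- The weighted backward shift on finitely supported sequences. -/
noncomputable def sLin : (ℕ →₀ ℂ) →ₗ[ℂ] (ℕ →₀ ℂ) :=
  Finsupp.lsum ℂ (fun n => (if n = 0 then 0 else (n : ℂ)⁻¹ • Finsupp.lsingle (n - 1)))

lemma sLin_single_zero (c : ℂ) : sLin (Finsupp.single 0 c) = 0 := by
  simp [sLin]

lemma sLin_single_succ (n : ℕ) (c : ℂ) :
    sLin (Finsupp.single (n + 1) c) = Finsupp.single n (c / ((n : ℂ) + 1)) := by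
  simp [sLin, div_eq_inv_mul]

/-- The embedding of finitely supported sequences in bounded sequences. -/
noncomputable def emb : (ℕ →₀ ℂ) →ₗ[ℂ] Bd where
  toFun f := BoundedContinuousFunction.ofNormedAddCommGroup (fun n => f n)
    (continuous_of_discreteTopology) (∑ i ∈ f.support, ‖f i‖) (fun n => by
      by_cases h : n ∈ f.support
      · exact Finset.single_le_sum (f := fun i => ‖f i‖) (fun i _ => norm_nonneg _) h
      · rw [Finsupp.notMem_support_iff.1 h, norm_zero]
        exact Finset.sum_nonneg (fun i _ => norm_nonneg _))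
  map_add' x y := by ext n; simp
  map_smul' c y := by ext n; simp

@[simp] lemma emb_apply (f : ℕ →₀ ℂ) (n : ℕ) : emb f n = f n := rfl

lemma emb_sLin (f : ℕ →₀ ℂ) : emb (sLin f) = bOp (emb f) := by
  induction f using Finsupp.induction_linear with
  | zero => simp
  | add f g hf hg => simp [map_add, hf, hg]
  | single n c =>
    cases n with
    | zero =>
      rw [sLin_single_zero]
      ext m
      simp [Finsupp.single_apply]
    | succ n =>
      rw [sLin_single_succ]
      ext m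
      simp only [emb_apply, bOp_apply, Finsupp.single_apply, Nat.add_right_cancel_iff]
      split_ifs with h
      · subst h; rfl
      · simp

/-- Every translate of the backward shift is onto on finitely supported sequences. -/
lemma sLin_sub_surj (a : ℂ) : Function.Surjective (sLin - a • (1 : (ℕ →₀ ℂ) →ₗ[ℂ] (ℕ →₀ ℂ))) := by
  rw [← LinearMap.range_eq_top]
  have key : ∀ n : ℕ, ∀ c : ℂ, Finsupp.single n c ∈
      LinearMap.range (sLin - a • (1 : (ℕ →₀ ℂ) →ₗ[ℂ] (ℕ →₀ ℂ))) := by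
    by_cases ha : a = 0
    · intro n c
      refine ⟨Finsupp.single (n + 1) (c * ((n : ℂ) + 1)), ?_⟩
      have h1 : ((n : ℂ) + 1) ≠ 0 := by exact_mod_cast Nat.succ_ne_zero n
      have e : sLin - a • (1 : (ℕ →₀ ℂ) →ₗ[ℂ] (ℕ →₀ ℂ)) = sLin := by
        refine LinearMap.ext (fun f => ?_)
        rw [LinearMap.sub_apply, ha, zero_smul, LinearMap.zero_apply, sub_zero]
      rw [e, sLin_single_succ, mul_div_assoc, div_self h1, mul_one]
    · intro n
      induction n with
      | zero =>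
        intro c
        refine ⟨Finsupp.single 0 (-(c / a)), ?_⟩
        simp [sLin_single_zero, mul_div_cancel₀, ha]
      | succ n ih =>
        intro c
        obtain ⟨f, hf⟩ := ih ((c / a) / ((n : ℂ) + 1))
        refine ⟨f - Finsupp.single (n + 1) (c / a), ?_⟩
        rw [map_sub, hf]
        simp [sLin_single_succ, mul_div_cancel₀, ha]
  rw [eq_top_iff]
  intro f _
  induction f using Finsupp.induction_linear with
  | zero => exact Submodule.zero_mem _
  | add f g hf hg => exact Submodule.add_mem _ (hf trivial) (hg trivial)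
  | single n c => exact key n c

lemma aeval_surj (p : ℂ[X]) (hp : p ≠ 0) : Function.Surjective (aeval sLin p) := by
  have hs : p.Splits := IsAlgClosed.splits p
  rw [hs.eq_prod_roots, map_mul, aeval_C]
  have h1 : ∀ m : Multiset ℂ, Function.Surjective
      (aeval sLin (m.map (fun a => X - C a)).prod) := by
    intro m
    induction m using Multiset.induction_on with
    | empty =>
      intro f
      exact ⟨f, by simp⟩
    | cons a m ih =>
      rw [Multiset.map_cons, Multiset.prod_cons, map_mul]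
      have e : aeval sLin (X - C a) = sLin - a • (1 : (ℕ →₀ ℂ) →ₗ[ℂ] (ℕ →₀ ℂ)) := by
        rw [map_sub, aeval_X, aeval_C, Algebra.algebraMap_eq_smul_one]
      rw [e]
      exact (sLin_sub_surj a).comp ih
  have h2 : Function.Surjective (algebraMap ℂ ((ℕ →₀ ℂ) →ₗ[ℂ] (ℕ →₀ ℂ)) p.leadingCoeff) := by
    intro f
    refine ⟨p.leadingCoeff⁻¹ • f, ?_⟩
    have : p.leadingCoeff ≠ 0 := leadingCoeff_ne_zero.2 hp
    simp [Algebra.algebraMap_eq_smul_one, smul_smul, this]
  exact h2.comp (h1 _)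

/-- The finitely supported sequences as a module over complex polynomials. -/
abbrev Q : Type := Module.AEval' sLin

lemma Q_div (p : ℂ[X]) (hp : p ≠ 0) (q : Q) : ∃ r : Q, p • r = q := by
  obtain ⟨f, hf⟩ := aeval_surj p hp ((Module.AEval'.of sLin).symm q)
  refine ⟨Module.AEval'.of sLin f, ?_⟩
  apply (Module.AEval'.of sLin).symm.injective
  rw [Module.AEval.of_symm_smul]
  simpa using hf

lemma Q_baer : Module.Baer ℂ[X] Q := by
  intro I g
  obtain ⟨p, hp⟩ := (IsPrincipalIdealRing.principal I).principal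
  have hpI : p ∈ I := by
    rw [hp]
    exact Submodule.mem_span_singleton_self p
  by_cases h0 : p = 0
  · refine ⟨0, fun x hx => ?_⟩
    have : x = 0 := by
      rw [hp, h0] at hx
      simpa using hx
    subst this
    have : (⟨0, hx⟩ : I) = 0 := rfl
    rw [this, map_zero, map_zero]
  · obtain ⟨r, hr⟩ := Q_div p h0 (g ⟨p, hpI⟩)
    refine ⟨LinearMap.toSpanSingleton ℂ[X] Q r, fun x hx => ?_⟩
    have hx' := hx
    rw [hp] at hx'
    obtain ⟨a, ha⟩ := Submodule.mem_span_singleton.1 hx'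
    have e : (⟨x, hx⟩ : I) = a • ⟨p, hpI⟩ := by
      apply Subtype.ext
      simp [← ha]
    rw [e, map_smul, ← hr, LinearMap.toSpanSingleton_apply, ← ha, smul_smul, smul_eq_mul]

/-- The unit vector at zero. -/
noncomputable def e0 : Bd := emb (Finsupp.single 0 1)

lemma aeval_fLin_e0 (p : ℂ[X]) (n : ℕ) :
    (aeval fOp p) e0 n = p.coeff n / (n.factorial : ℂ) := by
  have hpow : ∀ k : ℕ, (fOp ^ k) e0 n = if n = k then 1 / (n.factorial : ℂ) else 0 := by
    intro k
    rcases lt_or_ge n k with h | h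
    · rw [fOp_pow_apply_lt k e0 n h, if_neg (by omega)]
    · obtain ⟨m, rfl⟩ := Nat.exists_eq_add_of_le' h
      rw [fOp_pow_apply_add]
      by_cases hm : m = 0
      · subst hm
        simp [e0]
      · rw [if_neg (by omega)]
        simp [e0, Finsupp.single_apply, Ne.symm hm]
  have hsum : (aeval fOp p) e0 n = ∑ i ∈ Finset.range (p.natDegree + 1),
      p.coeff i * ((fOp ^ i) e0 n) := by
    rw [aeval_eq_sum_range]
    rw [_root_.sum_apply]
    rw [BoundedContinuousFunction.coe_sum, Finset.sum_apply]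
    rfl
  rw [hsum]
  simp only [hpow]
  simp only [mul_ite, mul_zero]
  rw [Finset.sum_ite_eq]
  split_ifs with h
  · rw [mul_one_div]
  · rw [Finset.mem_range, not_lt] at h
    rw [Polynomial.coeff_eq_zero_of_natDegree_lt (by omega), zero_div]

instance towerBd : IsScalarTower ℂ (Bd →L[ℂ] Bd) Bd := ⟨fun _ _ _ => rfl⟩

/-- The bounded sequences as a module over complex polynomials. -/
abbrev N : Type := Module.AEval ℂ Bd (1 + fOp)

lemma aeval_e0_ne (p : ℂ[X]) (h : (aeval (1 + fOp) p) e0 = 0) : p = 0 := by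
  have h1 : aeval fOp (p.comp (X + Polynomial.C 1)) = aeval (1 + fOp) p := by
    rw [aeval_comp]
    congr 1
    rw [map_add, aeval_X, map_one, map_one, add_comm]
  rw [← h1] at h
  have h2 : p.comp (X + Polynomial.C 1) = 0 := by
    ext n
    have := aeval_fLin_e0 (p.comp (X + Polynomial.C 1)) n
    rw [h] at this
    have h3 : (n.factorial : ℂ) ≠ 0 := by exact_mod_cast Nat.factorial_ne_zero n
    rw [coeff_zero]
    have h4 : (p.comp (X + Polynomial.C 1)).coeff n / (n.factorial : ℂ) = 0 := by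
      rw [← this]; rfl
    rcases div_eq_zero_iff.1 h4 with h5 | h5
    · exact h5
    · exact absurd h5 h3
  have h3 : taylor 1 p = 0 := by
    rw [taylor_apply]; exact h2
  exact (taylor_eq_zero 1 p).1 h3

lemma exists_T : ∃ T : Bd →ₗ[ℂ] Bd, (∀ x, T ((1 + fOp) x) = bOp (T x)) ∧ T e0 ≠ 0 := by
  let i : ℂ[X] →ₗ[ℂ[X]] N := LinearMap.toSpanSingleton ℂ[X] N (Module.AEval.of ℂ Bd (1 + fOp) e0)
  have hi : Function.Injective i := by
    rw [← LinearMap.ker_eq_bot, LinearMap.ker_eq_bot']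
    intro p hp
    apply aeval_e0_ne
    have := congrArg (Module.AEval.of ℂ Bd (1 + fOp)).symm hp
    simpa [i] using this
  let g : ℂ[X] →ₗ[ℂ[X]] Q := LinearMap.toSpanSingleton ℂ[X] Q
    (Module.AEval'.of sLin (Finsupp.single 0 1))
  obtain ⟨h, hh⟩ := Q_baer.extension_property i hi g
  refine ⟨emb ∘ₗ (Module.AEval'.of sLin).symm.toLinearMap ∘ₗ (h.restrictScalars ℂ) ∘ₗ
    (Module.AEval.of ℂ Bd (1 + fOp)).toLinearMap, ?_, ?_⟩
  · intro x
    simp only [LinearMap.comp_apply, LinearEquiv.coe_coe, LinearMap.restrictScalars_apply]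
    have h1 : (Module.AEval.of ℂ Bd (1 + fOp)) ((1 + fOp) x) =
        (X : ℂ[X]) • (Module.AEval.of ℂ Bd (1 + fOp)) x := by
      rw [Module.AEval.X_smul_of]; rfl
    rw [h1, map_smul, Module.AEval.of_symm_X_smul, ← emb_sLin]
    rfl
  · simp only [LinearMap.comp_apply, LinearEquiv.coe_coe, LinearMap.restrictScalars_apply]
    have h1 : h (Module.AEval.of ℂ Bd (1 + fOp) e0) = Module.AEval'.of sLin (Finsupp.single 0 1) := by
      have := congrArg (fun k => k (1 : ℂ[X])) hh
      simpa [i, g] using this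
    rw [h1, LinearEquiv.symm_apply_apply]
    intro h0
    have := congrArg (fun f : Bd => f 0) h0
    simp at this

/-- The negation of the preceding statement: For bounded operators R, S on complex Banach spaces with spectral capacities E_R, E_S (so both are decomposable), every possibly discontinuous linear T with TR = ST maps E_R(F) into E_S(F) for every closed F in ℂ. -/
theorem result :
    ¬ (∀ (X Y : Type) [NormedAddCommGroup X] [NormedSpace ℂ X] [CompleteSpace X]
      [NormedAddCommGroup Y] [NormedSpace ℂ Y] [CompleteSpace Y]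
      (R : X →L[ℂ] X) (S : Y →L[ℂ] Y)
      (ER : Set ℂ → Submodule ℂ X) (ES : Set ℂ → Submodule ℂ Y),
      (ER ∅ = ⊥ ∧ ER Set.univ = ⊤ ∧
        (∀ F : ℕ → Set ℂ, (∀ n, IsClosed (F n)) → ER (⋂ n, F n) = ⨅ n, ER (F n)) ∧
        (∀ (n : ℕ) (U : Fin n → Set ℂ), (∀ i, IsOpen (U i)) → (⋃ i, U i) = Set.univ →
          (⨆ i, ER (closure (U i))) = ⊤) ∧
        (∀ F : Set ℂ, IsClosed F → IsClosed ((ER F : Set X))) ∧
        (∀ F : Set ℂ, IsClosed F → ∀ x ∈ ER F, R x ∈ ER F) ∧
        (∀ F : Set ℂ, IsClosed F → ∀ μ : ℂ, μ ∉ F → ∀ y ∈ ER F,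
          ∃! x : X, x ∈ ER F ∧ R x - μ • x = y)) →
      (ES ∅ = ⊥ ∧ ES Set.univ = ⊤ ∧
        (∀ F : ℕ → Set ℂ, (∀ n, IsClosed (F n)) → ES (⋂ n, F n) = ⨅ n, ES (F n)) ∧
        (∀ (n : ℕ) (U : Fin n → Set ℂ), (∀ i, IsOpen (U i)) → (⋃ i, U i) = Set.univ →
          (⨆ i, ES (closure (U i))) = ⊤) ∧
        (∀ F : Set ℂ, IsClosed F → IsClosed ((ES F : Set Y))) ∧
        (∀ F : Set ℂ, IsClosed F → ∀ y ∈ ES F, S y ∈ ES F) ∧
        (∀ F : Set ℂ, IsClosed F → ∀ μ : ℂ, μ ∉ F → ∀ z ∈ ES F,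
          ∃! y : Y, y ∈ ES F ∧ S y - μ • y = z)) →
      ∀ T : X →ₗ[ℂ] Y, (∀ x : X, T (R x) = S (T x)) →
        ∀ F : Set ℂ, IsClosed F → ∀ x ∈ ER F, T x ∈ ES F) := by
  intro H
  obtain ⟨T, hT, hT0⟩ := exists_T
  have := H Bd Bd (1 + fOp) bOp (cap 1) (cap 0) (cap_spec (1 + fOp) 1 fOp_bij)
    (cap_spec bOp 0 bOp_bij) T hT {1} isClosed_singleton e0
    (by rw [cap_of_mem (Set.mem_singleton _)]; trivial)
  rw [cap_of_not_mem (by simp), Submodule.mem_bot] at this
  exact hT0 this

end Pool.Agent.S02912
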