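import Pool.Statements.S02916
import Pool.Agent.Helper540.Coef

set_option autoImplicit false
open Pool Pool.MP_36a5e2_an

namespace Pool.Agent.S02916

section Aux

open Pool.Agent.Helper540 Metric Set Filter Topology

/-- The starlike map of the second phase. -/
noncomputable def Psi (z : EuclideanSpace ℂ (Fin 2)) : EuclideanSpace ℂ (Fin 2) :=
  rt ((1763 / 1765 : ℝ) : ℂ) (-((84 / 1765 : ℝ) : ℂ))
    (KK (rt ((1763 / 1765 : ℝ) : ℂ) ((84 / 1765 : ℝ) : ℂ) z))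

/-- The Loewner chain. -/
noncomputable def chain (t : ℝ) (z : EuclideanSpace ℂ (Fin 2)) : EuclideanSpace ℂ (Fin 2) :=
  rt ((924 / 925 : ℝ) : ℂ) (-((-43 / 925 : ℝ) : ℂ))
    (((Real.exp (max t (Real.log (13 / 12))) : ℝ) : ℂ) •
      Psi (vA (Real.exp (min t (Real.log (13 / 12)) - Real.log (13 / 12)))
        (rt ((924 / 925 : ℝ) : ℂ) ((-43 / 925 : ℝ) : ℂ) z)))

theorem cs1 : (924 / 925 : ℝ) ^ 2 + (-43 / 925 : ℝ) ^ 2 = 1 := by norm_num

theorem cs2 : (1763 / 1765 : ℝ) ^ 2 + (84 / 1765 : ℝ) ^ 2 = 1 := by norm_num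

theorem neg_cs {c s : ℝ} (h : c ^ 2 + s ^ 2 = 1) : c ^ 2 + (-s) ^ 2 = 1 := by
  rw [neg_sq]; exact h

theorem cast_cs {c s : ℝ} (h : c ^ 2 + s ^ 2 = 1) : (c : ℂ) ^ 2 + (s : ℂ) ^ 2 = 1 := by
  exact_mod_cast h

theorem norm_rt_neg {c s : ℝ} (h : c ^ 2 + s ^ 2 = 1) (z : EuclideanSpace ℂ (Fin 2)) :
    ‖rt c (-(s : ℂ)) z‖ = ‖z‖ := by
  have := norm_rt (neg_cs h) z
  rwa [Complex.ofReal_neg] at this

theorem Psi_chain : LC (fun t z => ((Real.exp t : ℝ) : ℂ) • Psi z) := by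
  have h1 := KK_chain.conj (norm_rt cs2) (norm_rt_neg cs2) (rt_rt (cast_cs cs2))
    (rt_rt' (cast_cs cs2))
  have h2 : (fun (t : ℝ) (z : EuclideanSpace ℂ (Fin 2)) => ((Real.exp t : ℝ) : ℂ) • Psi z) =
      fun (t : ℝ) (z : EuclideanSpace ℂ (Fin 2)) =>
        rt ((1763 / 1765 : ℝ) : ℂ) (-((84 / 1765 : ℝ) : ℂ)) (((Real.exp t : ℝ) : ℂ) •
          KK (rt ((1763 / 1765 : ℝ) : ℂ) ((84 / 1765 : ℝ) : ℂ) z)) := by
    ext1 t
    ext1 z
    rw [map_smul, Psi]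
  rw [h2]
  exact h1

theorem chain_LC : LC chain :=
  (Psi_chain.glue (Real.log_nonneg (by norm_num))).conj (norm_rt cs1) (norm_rt_neg cs1)
    (rt_rt (cast_cs cs1)) (rt_rt' (cast_cs cs1))

theorem chain_zero (z : EuclideanSpace ℂ (Fin 2)) : chain 0 z =
    rt ((924 / 925 : ℝ) : ℂ) (-((-43 / 925 : ℝ) : ℂ)) ((13 / 12 : ℂ) •
      Psi (vA (12 / 13) (rt ((924 / 925 : ℝ) : ℂ) ((-43 / 925 : ℝ) : ℂ) z))) := by
  have h1 : (0 : ℝ) ≤ Real.log (13 / 12) := Real.log_nonneg (by norm_num)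
  have h2 : Real.exp (Real.log (13 / 12)) = 13 / 12 := Real.exp_log (by norm_num)
  have h3 : Real.exp (0 - Real.log (13 / 12)) = 12 / 13 := by
    rw [zero_sub, Real.exp_neg, h2]; norm_num
  rw [chain, max_eq_right h1, min_eq_left h1, h2, h3]
  norm_num

theorem single_eq : EuclideanSpace.single (0 : Fin 2) (1 : ℂ) = pt 1 0 := by
  ext i
  fin_cases i <;> simp

theorem coef_eq {F : ℝ → EuclideanSpace ℂ (Fin 2) → EuclideanSpace ℂ (Fin 2)} (hF : LC F) :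
    ‖EuclideanSpace.proj (0 : Fin 2) (iteratedFDeriv ℂ 3 (F 0) 0
      (fun _ => EuclideanSpace.single (0 : Fin 2) (1 : ℂ)))‖ / (Nat.factorial 3 : ℝ) =
      ‖tc 3 (fun ζ : ℂ => co 0 (F 0 (ζ • pt 1 0)))‖ := by
  have h2 := tc_slice one_pos (hF.holo 0 le_rfl) 3 (pt 1 0)
  have h3 := tc_clm (co 0) 3 (contDiffAt_of_ball one_pos (slice_diff (hF.holo 0 le_rfl)
    norm_pt_one_zero.le) 3)
  rw [single_eq, h3, h2, map_smul, norm_smul, norm_inv, Complex.norm_natCast, div_eq_inv_mul]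
  rfl

theorem coef_gt : 3 < ‖tc 3 (fun ζ : ℂ => co 0 (chain 0 (ζ • pt 1 0)))‖ := by
  have hf : ∀ ζ : ℂ, ‖ζ‖ < 1 → (fun ζ : ℂ => co 0 (chain 0 (ζ • pt 1 0))) ζ =
      (rt ((924 / 925 : ℝ) : ℂ) (-((-43 / 925 : ℝ) : ℂ)) ((13 / 12 : ℂ) •
        rt ((1763 / 1765 : ℝ) : ℂ) (-((84 / 1765 : ℝ) : ℂ))
          (KK (rt ((1763 / 1765 : ℝ) : ℂ) ((84 / 1765 : ℝ) : ℂ)
            (vA (12 / 13) (rt ((924 / 925 : ℝ) : ℂ) ((-43 / 925 : ℝ) : ℂ) (pt ζ 0))))))) 0 := by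
    intro ζ _
    simp only
    rw [co_apply, chain_zero, Psi, smul_pt, mul_one, mul_zero]
  obtain ⟨f1, f2, hJ⟩ := J_main (l := 12 / 13) (c := 924 / 925) (s := -43 / 925)
    (a := 1763 / 1765) (b := 84 / 1765) (by norm_num) (by norm_num) (by norm_num) (by norm_num)
    cs1 cs2 (f := fun ζ : ℂ => co 0 (chain 0 (ζ • pt 1 0))) (e := 13 / 12) hf
    (y1 := 19591488 / 21224125) (y2 := 7249023936 / 51044020625)
    (y3 := -352057217871744 / 3069021740078125) (x3 := -16309988579808 / 3069021740078125)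
    (by push_cast; norm_num) (by push_cast; norm_num) (by push_cast; norm_num)
    (by push_cast; norm_num)
  have hd : DifferentiableOn ℂ (fun ζ : ℂ => co 0 (chain 0 (ζ • pt 1 0))) (ball 0 1) :=
    (co 0).differentiable.comp_differentiableOn
      (slice_diff (chain_LC.holo 0 le_rfl) norm_pt_one_zero.le)
  obtain ⟨-, -, -, h3⟩ := hJ.tc_eq one_pos hd
  have h5 : (13 / 12 : ℂ) * ((((924 / 925 : ℝ) : ℂ) * ((1763 / 1765 : ℝ) : ℂ) -
      ((-43 / 925 : ℝ) : ℂ) * ((84 / 1765 : ℝ) : ℂ)) * (-352057217871744 / 3069021740078125 +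
      4 * (19591488 / 21224125) * (7249023936 / 51044020625) + 3 * (19591488 / 21224125) ^ 3) -
      (((924 / 925 : ℝ) : ℂ) * ((84 / 1765 : ℝ) : ℂ) +
      ((-43 / 925 : ℝ) : ℂ) * ((1763 / 1765 : ℝ) : ℂ)) *
        (-16309988579808 / 3069021740078125)) =
      ((3602083688549864097635630232 / 1200694370589593537353515625 : ℝ) : ℂ) := by
    push_cast
    norm_num
  have h6 := h3.trans h5
  rw [h6, Complex.norm_real]
  have h7 : (0 : ℝ) ≤ 3602083688549864097635630232 / 1200694370589593537353515625 := by norm_num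
  rw [Real.norm_of_nonneg h7]
  norm_num

end Aux

/-- The negation of the preceding statement: For every map f of the unit ball of C^2 that starts a Loewner chain F(.,t) with e^(-t)F(.,t) locally uniformly bounded, and every m at least 3, the coefficient of z1^m in the first component of f has modulus at most m. -/
theorem result :
    ¬ (∀ f : EuclideanSpace ℂ (Fin 2) → EuclideanSpace ℂ (Fin 2),
      (∃ F : ℝ → EuclideanSpace ℂ (Fin 2) → EuclideanSpace ℂ (Fin 2),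
        (∀ z, F 0 z = f z) ∧
        (∀ t : ℝ, 0 ≤ t →
          DifferentiableOn ℂ (F t) (Metric.ball (0 : EuclideanSpace ℂ (Fin 2)) 1) ∧
          Set.InjOn (F t) (Metric.ball (0 : EuclideanSpace ℂ (Fin 2)) 1) ∧
          F t 0 = 0 ∧
          fderiv ℂ (F t) 0 =
            ((Real.exp t : ℝ) : ℂ) • ContinuousLinearMap.id ℂ (EuclideanSpace ℂ (Fin 2))) ∧
        (∀ s t : ℝ, 0 ≤ s → s ≤ t →
          F s '' Metric.ball (0 : EuclideanSpace ℂ (Fin 2)) 1 ⊆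
            F t '' Metric.ball (0 : EuclideanSpace ℂ (Fin 2)) 1) ∧
        (∀ r : ℝ, r < 1 → ∃ C : ℝ, ∀ t : ℝ, 0 ≤ t →
          ∀ z : EuclideanSpace ℂ (Fin 2), ‖z‖ ≤ r → ‖F t z‖ ≤ C * Real.exp t)) →
      ∀ m : ℕ, 3 ≤ m →
        ‖EuclideanSpace.proj (0 : Fin 2)
            (iteratedFDeriv ℂ m f 0 (fun _ => EuclideanSpace.single (0 : Fin 2) (1 : ℂ)))‖
          / (m.factorial : ℝ) ≤ (m : ℝ)) := by
  intro hall
  have h1 := hall (Pool.Agent.S02916.chain 0) ⟨Pool.Agent.S02916.chain, fun _ => rfl,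
    fun t ht => ⟨chain_LC.holo t ht, chain_LC.inj t ht, chain_LC.zero t ht, chain_LC.deriv t ht⟩,
    chain_LC.sub, chain_LC.bdd⟩ 3 le_rfl
  rw [coef_eq chain_LC] at h1
  have h6 : ((3 : ℕ) : ℝ) = 3 := by norm_num
  rw [h6] at h1
  exact absurd coef_gt (not_lt.2 h1)

end Pool.Agent.S02916
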