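import Pool.Statements.S02919
import Pool.Agent.Helper568.Dent9

set_option autoImplicit false
open Pool Pool.MP_36cdb9_an

namespace Pool.Agent.S02919

open Filter Set Topology Pool.Agent.Helper568.Dent

theorem loc_of_nondentable (X : Type) [NormedAddCommGroup X] [NormedSpace ℝ X] [CompleteSpace X]
    (x : ℕ → X) (hx : DenseRange x) (K : Set (X →L[ℝ] ℝ)) (R : ℝ) (hR : 0 < R)
    (hKR : ∀ f ∈ K, ‖f‖ ≤ R) (hKc : IsCompact (Phi x '' K)) (hne : K.Nonempty)
    (hball : IsCompact (Phi x '' Metric.closedBall 0 R)) (ε : ℝ) (hε : 0 < ε)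
    (hnd : ∀ f ∈ K, f ∈ closure (convexHull ℝ (K \ Metric.ball f ε))) :
    ∃ (Kh : Set (X →L[ℝ] ℝ)) (t₀ : X →L[ℝ] ℝ), t₀ ∈ Kh ∧ (∀ f ∈ Kh, ‖f‖ ≤ R) ∧
      Loc Kh t₀ (ε / 2) (fun l => ε / 2 / 8 * (1 - (1 / 2) ^ l)) := by
  classical
  set Q : Set (ℕ → ℝ) := closure (convexHull ℝ (Phi x '' K)) with hQdef
  have hballc : Convex ℝ (Phi x '' Metric.closedBall 0 R) := by
    rintro _ ⟨f, hf, rfl⟩ _ ⟨g, hg, rfl⟩ a b ha hb hab
    refine ⟨a • f + b • g, (convex_closedBall (0 : X →L[ℝ] ℝ) R) hf hg ha hb hab, ?_⟩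
    funext i
    simp [Phi]
  have hQball : Q ⊆ Phi x '' Metric.closedBall 0 R := by
    refine closure_minimal (convexHull_min ?_ hballc) hball.isClosed
    rintro _ ⟨f, hf, rfl⟩
    exact ⟨f, by simpa using hKR f hf, rfl⟩
  have hQ : IsCompact Q := hball.of_isClosed_subset isClosed_closure hQball
  have hQc : Convex ℝ Q := (convex_convexHull ℝ _).closure
  have hKQ : ∀ f ∈ K, Phi x f ∈ Q := fun f hf => subset_closure (subset_convexHull ℝ _ ⟨f, hf, rfl⟩)
  have hQne : Q.Nonempty := ⟨_, hKQ _ hne.some_mem⟩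
  have hθ0 : ∀ l : ℕ, 0 ≤ ε / 2 / 8 * (1 - (1 / 2 : ℝ) ^ l) := by
    intro l
    have : ((1 : ℝ) / 2) ^ l ≤ 1 := pow_le_one₀ (by norm_num) (by norm_num)
    have h2 : 0 ≤ 1 - (1 / 2 : ℝ) ^ l := by linarith
    positivity
  obtain ⟨t, ht, hlsc⟩ := generic_lsc Q hQ hQc hQne (fun i => ‖x i‖) (fun i => norm_nonneg _)
    (fun l => ε / 2 / 8 * (1 - (1 / 2) ^ l)) hθ0
  obtain ⟨t₀, ht₀R, ht₀⟩ := hQball ht.1
  rw [mem_closedBall_zero_iff] at ht₀R
  subst ht₀
  -- t₀ ∈ K
  have ht₀K : t₀ ∈ K := by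
    by_contra hcon
    have h1 : Phi x t₀ ∉ Phi x '' K := by
      rintro ⟨f, hf, hft⟩
      exact hcon ((Phi_injective x hx hft) ▸ hf)
    have h2 : (Phi x '' K)ᶜ ∈ 𝓝 (Phi x t₀) := hKc.isClosed.isOpen_compl.mem_nhds h1
    have h3 := ll Q hQ hQc _ ht _ h2 (1 / 2) (by norm_num)
    obtain ⟨y, hyc, hy⟩ := ((mem_closure_iff_frequently.1 ht.1).and_eventually h3).exists
    obtain ⟨ι, hι, a, z, ha, ha1, hz, hyz⟩ := mem_convexHull_iff_exists_fintype.1 hyc
    have h4 := hy ι a z ha ha1 (fun i => subset_closure (subset_convexHull ℝ _ (hz i))) hyz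
    have h5 : ∑ i, a i * ((Phi x '' K)ᶜ)ᶜ.indicator (fun _ => (1 : ℝ)) (z i) = 1 := by
      refine Eq.trans (Finset.sum_congr rfl fun i _ => ?_) ha1
      rw [compl_compl, indicator_of_mem (hz i), mul_one]
    rw [h5] at h4
    norm_num at h4
  set Kh : Set (X →L[ℝ] ℝ) := {f | Phi x f ∈ Q ∧ ‖f‖ ≤ R} with hKh
  refine ⟨Kh, t₀, ⟨ht.1, ht₀R⟩, fun f hf => hf.2, ?_⟩
  intro l n S v G δ η hn hδ hη hv hvt
  -- approximate G by the dense sequence
  have hG : ∀ g : X, ∃ i, ‖g - x i‖ ≤ δ / (4 * R) := by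
    intro g
    have h1 : ∃ y ∈ range x, dist g y < δ / (4 * R) :=
      Metric.mem_closure_iff.1 (hx g) _ (by positivity)
    obtain ⟨_, ⟨i, rfl⟩, hi⟩ := h1
    exact ⟨i, by rw [← dist_eq_norm]; exact hi.le⟩
  choose idx hidx using hG
  have hev : ∀ s ∈ Finset.range S, ∀ᶠ t' in 𝓝 (Phi x t₀), t' ∈ Q → ∃ v' : ℕ → ℕ → ℝ,
      (∀ j, v' j ∈ Q) ∧ (∀ j < n, ∀ i ∈ G.image idx, |v' j i - (fun j => Phi x (v s j)) j i| ≤ δ / 2) ∧
        t' - vav n v' ∈ NB (fun i => ‖x i‖) (ε / 2 / 8 * (1 - (1 / 2) ^ l)) := by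
    intro s hs
    refine hlsc l n (fun j => Phi x (v s j)) (G.image idx) (δ / 2) hn (by positivity)
      (fun j => (hv s j).1) ?_
    rw [← Phi_av, ← Phi_sub]
    exact Phi_mem_NB x _ _ (hvt s (Finset.mem_range.1 hs))
  have hev2 := (Finset.eventually_all (Finset.range S)).2 hev
  obtain ⟨M, u, hM, hu, htu⟩ := lmv x t₀ (K \ Metric.ball t₀ ε) Q hQ hQc R hR
    (fun f hf => hKR f hf.1) (fun f hf => hKQ f hf.1) ht (hnd t₀ ht₀K) _ hev2 η hη
  -- functionals
  have hg : ∀ k, ∃ g : X, ‖g‖ ≤ 1 ∧ ε / 2 ≤ (t₀ - u k) g := by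
    intro k
    have h1 : ε ≤ ‖t₀ - u k‖ := by
      have := (hu k).1.2
      rw [Metric.mem_ball, dist_comm, dist_eq_norm, not_lt] at this
      exact this
    obtain ⟨g, hg1, hg2⟩ := (t₀ - u k).exists_lt_apply_of_lt_opNorm (r := ε / 2) (by linarith)
    rcases le_abs.1 (show ε / 2 ≤ |(t₀ - u k) g| from hg2.le) with h | h
    · exact ⟨g, hg1.le, h⟩
    · exact ⟨-g, by rw [norm_neg]; exact hg1.le, by rw [map_neg]; exact h⟩
  choose g hg using hg
  -- lifted tuples
  have hlift : ∀ k s, ∃ v' : ℕ → X →L[ℝ] ℝ, (∀ j, v' j ∈ Kh ∧ ∀ y ∈ G, |v' j y - v s j y| ≤ δ) ∧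
      (s < S → ‖u k - av n v'‖ ≤ ε / 2 / 8 * (1 - (1 / 2) ^ l)) := by
    intro k s
    by_cases hs : s < S
    · obtain ⟨v', hv'Q, hv'c, hv'n⟩ := (hu k).2 s (Finset.mem_range.2 hs) (hKQ _ (hu k).1.1)
      have h1 : ∀ j, ∃ f : X →L[ℝ] ℝ, ‖f‖ ≤ R ∧ Phi x f = v' j := by
        intro j
        obtain ⟨f, hf, hf2⟩ := hQball (hv'Q j)
        exact ⟨f, by simpa using hf, hf2⟩
      choose f hfR hfv using h1
      refine ⟨fun j => if j < n then f j else v s j, fun j => ?_, fun _ => ?_⟩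
      · by_cases hj : j < n
        · simp only [hj, if_true]
          refine ⟨⟨by rw [hfv]; exact hv'Q j, hfR j⟩, fun y hy => ?_⟩
          have h2 := hv'c j hj (idx y) (Finset.mem_image_of_mem _ hy)
          rw [← hfv j] at h2
          have h3 : |(f j - v s j) (x (idx y))| ≤ δ / 2 := h2
          have h4 : |(f j - v s j) (y - x (idx y))| ≤ δ / 2 := by
            refine ((f j - v s j).le_opNorm _).trans ?_
            have h5 : ‖f j - v s j‖ ≤ 2 * R :=
              (norm_sub_le _ _).trans (by linarith [hfR j, (hv s j).2])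
            calc ‖f j - v s j‖ * ‖y - x (idx y)‖ ≤ 2 * R * (δ / (4 * R)) :=
                  mul_le_mul h5 (hidx y) (norm_nonneg _) (by positivity)
              _ = δ / 2 := by field_simp; norm_num
          have h6 : f j y - v s j y = (f j - v s j) (y - x (idx y)) + (f j - v s j) (x (idx y)) := by
            rw [map_sub, sub_add_cancel]; rfl
          rw [h6]
          exact (abs_add_le _ _).trans (by linarith)
        · simp only [hj, if_false]
          exact ⟨hv s j, fun y _ => by rw [sub_self, abs_zero]; exact hδ.le⟩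
      · refine norm_le_of_Phi x hx _ _ (hθ0 l) ?_
        rw [Phi_sub, Phi_av]
        have h2 : vav n (fun j => Phi x (if j < n then f j else v s j)) = vav n v' :=
          vav_congr n fun j hj => by simp only [hj, if_true]; exact hfv j
        rw [h2]
        exact hv'n
    · exact ⟨v s, fun j => ⟨hv s j, fun y _ => by rw [sub_self, abs_zero]; exact hδ.le⟩,
        fun h => absurd h hs⟩
  choose v' hv'1 hv'2 using hlift
  exact ⟨M, u, g, v', hM, hg, htu, hv'1, fun k s hs => hv'2 k s hs⟩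

/-- For every separable real Banach space X with no subspace isomorphic to ℓ1, every nonempty weak-star compact subset K of the dual is dentable: for each ε>0 some f in K lies outside the norm-closed convex hull of the points of K at distance ≥ ε from f. -/
theorem result :
    ∀ (X : Type) [NormedAddCommGroup X] [NormedSpace ℝ X] [CompleteSpace X]
      [TopologicalSpace.SeparableSpace X],
      (¬ ∃ (T : lp (fun _ : ℕ => ℝ) 1 →L[ℝ] X) (c : ℝ),
          0 < c ∧ ∀ v : lp (fun _ : ℕ => ℝ) 1, c * ‖v‖ ≤ ‖T v‖) →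
      ∀ K : Set (X →L[ℝ] ℝ),
        @IsCompact (X →L[ℝ] ℝ)
          (TopologicalSpace.induced (fun (f : X →L[ℝ] ℝ) (x : X) => f x) inferInstance) K →
        K.Nonempty →
        ∀ ε : ℝ, 0 < ε →
          ∃ f ∈ K, f ∉ closure (convexHull ℝ (K \ Metric.ball f ε)) := by
  intro X _ _ _ _ hX K hK hne ε hε
  by_contra hcon
  push Not at hcon
  apply hX
  set x : ℕ → X := TopologicalSpace.denseSeq X with hxdef
  have hx : DenseRange x := TopologicalSpace.denseRange_denseSeq X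
  -- pointwise compactness
  have hPc : ∀ (Y : Type) [TopologicalSpace Y] (F : (X → ℝ) → Y), Continuous F →
      IsCompact ((fun f : X →L[ℝ] ℝ => F (fun y => f y)) '' K) := by
    intro Y _ F hF
    let _ : TopologicalSpace (X →L[ℝ] ℝ) :=
      TopologicalSpace.induced (fun (f : X →L[ℝ] ℝ) (x : X) => f x) inferInstance
    exact IsCompact.image hK (hF.comp continuous_induced_dom)
  have hbd : ∃ C, ∀ f : K, ‖(f : X →L[ℝ] ℝ)‖ ≤ C := by
    refine banach_steinhaus fun y => ?_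
    have h1 := (hPc ℝ (fun φ => φ y) (continuous_apply y)).isBounded
    obtain ⟨C, hC⟩ := h1.exists_norm_le
    exact ⟨C, fun f => hC _ ⟨f, f.2, rfl⟩⟩
  obtain ⟨C, hC⟩ := hbd
  set R : ℝ := max C 1 with hRdef
  have hR : 0 < R := lt_of_lt_of_le one_pos (le_max_right _ _)
  have hKR : ∀ f ∈ K, ‖f‖ ≤ R := fun f hf => (hC ⟨f, hf⟩).trans (le_max_left _ _)
  have hKc : IsCompact (Phi x '' K) := hPc (ℕ → ℝ) (fun φ i => φ (x i)) (by fun_prop)
  have hball : IsCompact (Phi x '' Metric.closedBall 0 R) := by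
    have h1 := WeakDual.isCompact_closedBall (𝕜 := ℝ) (E := X) 0 R
    have h2 : Continuous (fun f : WeakDual ℝ X => Phi x (WeakDual.toStrongDual f)) :=
      continuous_pi fun i => WeakDual.eval_continuous (x i)
    have h3 := h1.image h2
    convert h3 using 1
    ext y
    constructor
    · rintro ⟨f, hf, rfl⟩
      exact ⟨StrongDual.toWeakDual f, hf, rfl⟩
    · rintro ⟨f, hf, rfl⟩
      exact ⟨WeakDual.toStrongDual f, hf, rfl⟩
  obtain ⟨Kh, t₀, ht₀, hKhR, hloc⟩ := loc_of_nondentable X x hx K R hR hKR hKc hne hball ε hε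
    (fun f hf => hcon f hf)
  exact l1_of_loc Kh t₀ ht₀ R (ε / 2) hR hKhR (by positivity) hloc

end Pool.Agent.S02919
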