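import Mathlib
import Pool.Statements.S02922

set_option autoImplicit false
open Pool Pool.MP_3789da_an

namespace Pool.Agent.S02922

/-- Terms: a root, and `app u y`, a new leaf attached at the vertex `u` and lying in `T y`. -/
inductive Tm : Type
  | root : Tm
  | app : Tm → Tm → Tm

/-- The l^1 norm of a finitely supported function. -/
noncomputable def nrm (g : Tm →₀ ℝ) : ℝ := g.sum (fun _ a => |a|)

/-- Embedding of the terms in l^1. The edge from `u` to `app u y` has length 1 if `u` is the root,
and length `log (1 + d (x, y))` if `u` lies in `T x`. -/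
noncomputable def emb : Tm → (Tm →₀ ℝ)
  | .root => 0
  | .app .root y => Finsupp.single (.app .root y) 1
  | .app (.app u x) y => emb (.app u x) +
      Finsupp.single (.app (.app u x) y) (Real.log (1 + nrm (emb x - emb y)))

/-- Length of the edge from `u` to `app u y`. -/
noncomputable def elen : Tm → Tm → ℝ
  | .root, _ => 1
  | .app _ x, y => Real.log (1 + nrm (emb x - emb y))

theorem emb_app (u y : Tm) : emb (.app u y) = emb u + Finsupp.single (.app u y) (elen u y) := by
  cases u with
  | root => simp [emb, elen]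
  | app u x => rw [emb, elen]

theorem emb_supp : ∀ (w v : Tm), sizeOf w < sizeOf v → emb w v = 0 := by
  classical
  intro w
  induction w with
  | root => intro v _; simp [emb]
  | app u y ihu _ =>
    intro v hv
    have h1 : sizeOf u < sizeOf v := by
      refine lt_trans ?_ hv
      simp only [Tm.app.sizeOf_spec]
      omega
    have h2 : Tm.app u y ≠ v := by
      rintro rfl
      exact lt_irrefl _ hv
    rw [emb_app, Finsupp.add_apply, ihu v h1, Finsupp.single_eq_of_ne h2.symm, add_zero]

theorem nrm_eq (g : Tm →₀ ℝ) (s : Finset Tm) (hs : g.support ⊆ s) : nrm g = ∑ a ∈ s, |g a| := by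
  unfold nrm
  exact Finsupp.sum_of_support_subset g hs _ (fun i _ => abs_zero)

theorem nrm_nonneg (g : Tm →₀ ℝ) : 0 ≤ nrm g := by
  unfold nrm Finsupp.sum
  exact Finset.sum_nonneg (fun _ _ => abs_nonneg _)

theorem nrm_zero : nrm 0 = 0 := by simp [nrm]

theorem nrm_neg (g : Tm →₀ ℝ) : nrm (-g) = nrm g := by
  rw [nrm_eq (-g) g.support (by rw [Finsupp.support_neg]), nrm_eq g g.support (le_refl _)]
  simp

theorem nrm_add (g h : Tm →₀ ℝ) : nrm (g + h) ≤ nrm g + nrm h := by
  classical
  rw [nrm_eq (g + h) (g.support ∪ h.support) Finsupp.support_add,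
    nrm_eq g (g.support ∪ h.support) Finset.subset_union_left,
    nrm_eq h (g.support ∪ h.support) Finset.subset_union_right, ← Finset.sum_add_distrib]
  exact Finset.sum_le_sum (fun i _ => by simpa using abs_add_le (g i) (h i))

theorem nrm_single (v : Tm) (e : ℝ) : nrm (Finsupp.single v e) = |e| := by
  unfold nrm
  rw [Finsupp.sum_single_index abs_zero]

theorem nrm_add_single (g : Tm →₀ ℝ) (v : Tm) (e : ℝ) (hg : g v = 0) :
    nrm (g + Finsupp.single v e) = nrm g + |e| := by
  classical
  have hdisj : Disjoint g.support (Finsupp.single v e).support := by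
    rw [Finset.disjoint_left]
    intro a ha hb
    have : a = v := by
      have := Finsupp.support_single_subset hb
      simpa using this
    subst this
    exact (Finsupp.mem_support_iff.mp ha) hg
  have := Finsupp.sum_add_index_of_disjoint hdisj (fun (_ : Tm) (a : ℝ) => |a|)
  unfold nrm
  rw [this, Finsupp.sum_single_index abs_zero]

noncomputable instance : PseudoMetricSpace Tm where
  dist u v := nrm (emb u - emb v)
  dist_self u := by simp [nrm_zero]
  dist_comm u v := by
    change nrm (emb u - emb v) = nrm (emb v - emb u)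
    rw [← nrm_neg, neg_sub]
  dist_triangle u v w := by
    change nrm (emb u - emb w) ≤ nrm (emb u - emb v) + nrm (emb v - emb w)
    refine le_trans (le_of_eq ?_) (nrm_add _ _)
    congr 1
    abel

theorem dist_def (u v : Tm) : dist u v = nrm (emb u - emb v) := rfl

theorem elen_nonneg (u y : Tm) : 0 ≤ elen u y := by
  cases u with
  | root => simp [elen]
  | app u x =>
    rw [elen]
    apply Real.log_nonneg
    linarith [nrm_nonneg (emb x - emb y)]

theorem dist_app_self (u y : Tm) : dist (Tm.app u y) u = elen u y := by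
  rw [dist_def, emb_app, add_sub_cancel_left, nrm_single, abs_of_nonneg (elen_nonneg u y)]

theorem dist_app_of_size (u y w : Tm) (hw : sizeOf w < sizeOf (Tm.app u y)) :
    dist (Tm.app u y) w = dist u w + elen u y := by
  rw [dist_def, dist_def, emb_app, add_sub_right_comm, nrm_add_single, abs_of_nonneg (elen_nonneg u y)]
  rw [Finsupp.sub_apply, emb_supp w _ hw, emb_supp u, sub_zero]
  simp only [Tm.app.sizeOf_spec]
  omega

theorem dist_app_owner (u y : Tm) : dist (Tm.app u y) y = dist u y + elen u y := by
  apply dist_app_of_size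
  simp only [Tm.app.sizeOf_spec]
  omega

theorem dist_app_root (u y : Tm) : dist (Tm.app u y) Tm.root = dist u Tm.root + elen u y := by
  apply dist_app_of_size
  simp only [Tm.app.sizeOf_spec, Tm.root.sizeOf_spec]
  have : 0 < sizeOf u := by cases u <;> simp
  omega

/-- Elementary inequality behind the construction. -/
theorem key (g s : ℝ) (hs : 0 ≤ s) (D : ℝ) (h1 : Real.log (1 + s) ≤ D)
    (h2 : Real.log (1 + s) + g - s ≤ D) : g * (1 + s)⁻¹ ≤ D := by
  have hpos : 0 < 1 + s := by linarith
  have hlog : s / (1 + s) ≤ Real.log (1 + s) := by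
    have := Real.one_sub_inv_le_log_of_pos hpos
    have h3 : 1 - (1 + s)⁻¹ = s / (1 + s) := by field_simp; ring
    linarith
  rw [← div_eq_mul_inv, div_le_iff₀ hpos]
  rw [div_le_iff₀ hpos] at hlog
  by_cases hgs : g ≤ s
  · have : Real.log (1 + s) * (1 + s) ≤ D * (1 + s) := mul_le_mul_of_nonneg_right h1 hpos.le
    linarith
  · push Not at hgs
    have : (Real.log (1 + s) + g - s) * (1 + s) ≤ D * (1 + s) :=
      mul_le_mul_of_nonneg_right h2 hpos.le
    nlinarith

/-- The displacement of every vertex other than the root is at least exp(-distance to the root). -/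
theorem displacement : ∀ (u y : Tm),
    Real.exp (-(dist (Tm.app u y) Tm.root)) ≤ dist (Tm.app u y) y := by
  intro u
  induction u with
  | root =>
    intro y
    rw [dist_app_owner, dist_app_root, dist_self, elen]
    have h1 : Real.exp (-(0 + 1)) ≤ 1 := by
      rw [Real.exp_le_one_iff]; norm_num
    have h2 : 0 ≤ dist Tm.root y := dist_nonneg
    linarith
  | app u x ihu _ =>
    intro y
    have hD := ihu x
    rw [dist_app_root (Tm.app u x) y, dist_app_owner (Tm.app u x) y]
    have he : elen (Tm.app u x) y = Real.log (1 + dist x y) := rfl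
    rw [he]
    have hs : 0 ≤ dist x y := dist_nonneg
    have hpos : 0 < 1 + dist x y := by linarith
    rw [neg_add, Real.exp_add, Real.exp_neg (Real.log _), Real.exp_log hpos]
    apply key _ _ hs
    · have : 0 ≤ dist (Tm.app u x) y := dist_nonneg
      linarith
    · have := dist_triangle (Tm.app u x) y x
      rw [dist_comm y x] at this
      linarith

/-- The set-valued map on terms. -/
def TT (y : Tm) : Set Tm := Set.range (fun u => Tm.app u y)

theorem TT_close (x y v : Tm) (hv : v ∈ TT x) :
    ∃ w ∈ TT y, dist v w ≤ Real.log (1 + dist x y) := by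
  obtain ⟨u, rfl⟩ := hv
  refine ⟨Tm.app (Tm.app u x) y, ⟨_, rfl⟩, ?_⟩
  rw [dist_comm, dist_app_self]
  exact le_refl _

abbrev X : Type := UniformSpace.Completion Tm

/-- The values on the dense subset of terms. -/
noncomputable def T0 (y : Tm) : TopologicalSpace.Closeds X :=
  ⟨closure ((fun v : Tm => (v : X)) '' TT y), isClosed_closure⟩

theorem log_le (s : ℝ) (hs : 0 ≤ s) : Real.log (1 + s) ≤ s := by
  have := Real.log_le_sub_one_of_pos (show 0 < 1 + s by linarith)
  linarith

theorem T0_edist (x y : Tm) : edist (T0 x) (T0 y) ≤ ENNReal.ofReal (Real.log (1 + dist x y)) := by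
  rw [TopologicalSpace.Closeds.edist_eq]
  change Metric.hausdorffEDist (closure ((fun v : Tm => (v : X)) '' TT x))
    (closure ((fun v : Tm => (v : X)) '' TT y)) ≤ _
  rw [Metric.hausdorffEDist_closure]
  apply Metric.hausdorffEDist_le_of_mem_edist
  · rintro _ ⟨v, hv, rfl⟩
    obtain ⟨w, hw, h⟩ := TT_close x y v hv
    refine ⟨(w : X), ⟨w, hw, rfl⟩, ?_⟩
    rw [edist_dist, UniformSpace.Completion.dist_eq]
    exact ENNReal.ofReal_le_ofReal h
  · rintro _ ⟨v, hv, rfl⟩
    obtain ⟨w, hw, h⟩ := TT_close y x v hv
    refine ⟨(w : X), ⟨w, hw, rfl⟩, ?_⟩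
    rw [edist_dist, UniformSpace.Completion.dist_eq, dist_comm x y]
    exact ENNReal.ofReal_le_ofReal h

theorem T0_lip : LipschitzWith 1 T0 := by
  intro x y
  refine (T0_edist x y).trans ?_
  rw [ENNReal.coe_one, one_mul, edist_dist]
  exact ENNReal.ofReal_le_ofReal (log_le _ dist_nonneg)

/-- The extension to the completion. -/
noncomputable def T1 : X → TopologicalSpace.Closeds X := UniformSpace.Completion.extension T0

theorem T1_coe (y : Tm) : T1 (y : X) = T0 y :=
  UniformSpace.Completion.extension_coe T0_lip.uniformContinuous y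

theorem T1_cont : Continuous T1 := UniformSpace.Completion.continuous_extension

theorem T1_edist (x y : X) : edist (T1 x) (T1 y) ≤ ENNReal.ofReal (Real.log (1 + dist x y)) := by
  refine UniformSpace.Completion.induction_on₂ x y ?_ ?_
  · apply isClosed_le
    · exact (T1_cont.comp continuous_fst).edist (T1_cont.comp continuous_snd)
    · apply ENNReal.continuous_ofReal.comp
      apply Continuous.log
      · exact continuous_const.add (continuous_fst.dist continuous_snd)
      · intro p
        have : 0 ≤ dist p.1 p.2 := dist_nonneg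
        positivity
  · intro a b
    rw [T1_coe, T1_coe, UniformSpace.Completion.dist_eq]
    exact T0_edist a b

theorem T0_nonempty (y : Tm) : (T0 y : Set X).Nonempty := by
  refine ⟨((Tm.app Tm.root y : Tm) : X), subset_closure ⟨_, ⟨_, rfl⟩, rfl⟩⟩

theorem T1_nonempty (x : X) : (T1 x : Set X).Nonempty := by
  have h := T1_edist ((Tm.root : Tm) : X) x
  rw [TopologicalSpace.Closeds.edist_eq] at h
  apply Metric.nonempty_of_hausdorffEDist_ne_top _ (ne_top_of_le_ne_top ENNReal.ofReal_ne_top h)
  rw [T1_coe]
  exact T0_nonempty _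

theorem no_fixed (z : X) : z ∉ (T1 z : Set X) := by
  intro hz
  set L : ℝ := dist z ((Tm.root : Tm) : X) with hL
  -- choose a small radius
  set c : ℝ := Real.exp (-(L + 1)) with hc
  have hcpos : 0 < c := Real.exp_pos _
  set ε : ℝ := min (c / 8) (1 / 8) with hε
  have hεpos : 0 < ε := by positivity
  obtain ⟨y, hy⟩ : ∃ y : Tm, dist z (y : X) < ε :=
    UniformSpace.Completion.denseRange_coe.exists_dist_lt z hεpos
  have h1 : Metric.infEDist z (T1 (y : X) : Set X) < ENNReal.ofReal (2 * ε) := by
    have h2 : Metric.infEDist z (T1 (y : X) : Set X) ≤ edist (T1 z) (T1 (y : X)) := by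
      rw [TopologicalSpace.Closeds.edist_eq]
      exact Metric.infEDist_le_hausdorffEDist_of_mem hz
    refine lt_of_le_of_lt (h2.trans (T1_edist z y)) ?_
    rw [ENNReal.ofReal_lt_ofReal_iff (by positivity)]
    have := log_le (dist z (y : X)) dist_nonneg
    linarith
  rw [T1_coe] at h1
  change Metric.infEDist z (closure ((fun v : Tm => (v : X)) '' TT y)) < _ at h1
  rw [Metric.infEDist_closure, Metric.infEDist_lt_iff] at h1
  obtain ⟨_, ⟨v, hv, rfl⟩, hvz⟩ := h1
  rw [edist_dist, ENNReal.ofReal_lt_ofReal_iff (by positivity)] at hvz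
  obtain ⟨u, rfl⟩ := hv
  have hdis := displacement u y
  have hvy : dist (Tm.app u y) y < 3 * ε := by
    rw [← UniformSpace.Completion.dist_eq]
    have := dist_triangle ((Tm.app u y : Tm) : X) z (y : X)
    rw [dist_comm _ z] at this
    simp only at hvz
    linarith
  have hroot : dist (Tm.app u y) Tm.root ≤ L + 1 := by
    rw [← UniformSpace.Completion.dist_eq]
    have := dist_triangle ((Tm.app u y : Tm) : X) z ((Tm.root : Tm) : X)
    rw [dist_comm _ z] at this
    simp only at hvz
    have h8 : ε ≤ 1 / 8 := min_le_right _ _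
    linarith
  have h9 : c ≤ Real.exp (-(dist (Tm.app u y) Tm.root)) := by
    rw [hc]
    apply Real.exp_le_exp.mpr
    linarith
  have h10 : ε ≤ c / 8 := min_le_left _ _
  linarith

theorem result :
    ¬ (∀ (X : Type) [MetricSpace X] [CompleteSpace X] [Nonempty X]
      (T : X → Set X) (φ : ℝ → ℝ),
      (∀ x, (T x).Nonempty ∧ IsClosed (T x)) →
      φ 0 = 0 →
      (∀ s : ℝ, 0 < s → 0 < φ s) →
      (∀ s : ℝ, 0 < s → ∃ δ : ℝ, 0 < δ ∧ ∀ t ∈ Set.Icc s (s + δ), φ t ≤ s) →
      (∀ x y : X, x ≠ y →
        EMetric.hausdorffEdist (T x) (T y) < ENNReal.ofReal (φ (dist x y))) →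
      ∃ x : X, x ∈ T x) := by
  intro H
  have hne : Nonempty X := ⟨((Tm.root : Tm) : X)⟩
  obtain ⟨x, hx⟩ := H X (fun x => (T1 x : Set X)) (fun t => (t + Real.log (1 + t)) / 2)
    (fun x => ⟨T1_nonempty x, (T1 x).isClosed⟩) (by simp)
    (by
      intro s hs
      have := Real.log_pos (show 1 < 1 + s by linarith)
      linarith)
    (by
      intro s hs
      have hlt : (s + Real.log (1 + s)) / 2 < s := by
        have := Real.log_lt_sub_one_of_pos (show 0 < 1 + s by linarith) (by linarith)
        linarith
      have hcont : ContinuousAt (fun t : ℝ => (t + Real.log (1 + t)) / 2) s := by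
        have : (1 : ℝ) + s ≠ 0 := by linarith
        fun_prop (disch := assumption)
      have hev := hcont.eventually (gt_mem_nhds hlt)
      obtain ⟨δ, hδ, hball⟩ := Metric.eventually_nhds_iff.mp hev
      refine ⟨δ / 2, by linarith, ?_⟩
      intro t ht
      have := hball (y := t) (by
        rw [Real.dist_eq, abs_of_nonneg (by linarith [ht.1])]
        linarith [ht.2])
      exact this.le)
    (by
      intro x y hxy
      have h1 := T1_edist x y
      rw [TopologicalSpace.Closeds.edist_eq] at h1
      refine lt_of_le_of_lt h1 ?_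
      have hd : 0 < dist x y := dist_pos.mpr hxy
      have hlog := Real.log_pos (show 1 < 1 + dist x y by linarith)
      rw [ENNReal.ofReal_lt_ofReal_iff (by linarith)]
      have := Real.log_lt_sub_one_of_pos (show 0 < 1 + dist x y by linarith) (by linarith)
      linarith)
  exact no_fixed x hx

end Pool.Agent.S02922
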