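import Pool.Statements.S02923
import Pool.Agent.Helper830.LipWCG
-- import your own Pool.Agent.* helpers here

set_option autoImplicit false
open Pool Pool.MP_37b148_an

namespace Pool.Agent.S02923

/-- There exist two real Banach spaces, each the closed span of a weakly compact set and each of density character exactly aleph-one, which are bi-Lipschitz homeomorphic but admit no continuous linear isomorphism. -/
theorem result :
  ∃ (X Y : Type) (_ : NormedAddCommGroup X) (_ : NormedSpace ℝ X) (_ : CompleteSpace X)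
    (_ : NormedAddCommGroup Y) (_ : NormedSpace ℝ Y) (_ : CompleteSpace Y),
    (∃ K : Set X, IsCompact (toWeakSpace ℝ X '' K) ∧
        Dense ((Submodule.span ℝ K : Submodule ℝ X) : Set X)) ∧
    (∃ K : Set Y, IsCompact (toWeakSpace ℝ Y '' K) ∧
        Dense ((Submodule.span ℝ K : Submodule ℝ Y) : Set Y)) ∧
    ((∃ D : Set X, Dense D ∧ Cardinal.mk ↥D ≤ Cardinal.aleph 1) ∧
      (∀ D : Set X, Dense D → Cardinal.aleph 1 ≤ Cardinal.mk ↥D)) ∧
    ((∃ D : Set Y, Dense D ∧ Cardinal.mk ↥D ≤ Cardinal.aleph 1) ∧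
      (∀ D : Set Y, Dense D → Cardinal.aleph 1 ≤ Cardinal.mk ↥D)) ∧
    (∃ (f : X ≃ Y) (A B : NNReal), LipschitzWith A f ∧ LipschitzWith B f.symm) ∧
    IsEmpty (X ≃L[ℝ] Y) :=
  Pool.Agent.Helper830.LipWCG.main

end Pool.Agent.S02923
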