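import Pool.Statements.S02926

set_option autoImplicit false
open MeasureTheory
open scoped ENNReal
open Pool Pool.MP_37b4fc_an

namespace Pool.Agent.S02926

/-- The space of complex null sequences with the sup norm. -/
abbrev C0 : Type := ZeroAtInftyContinuousMap ℕ ℂ

lemma c0_tendsto (x : C0) : Filter.Tendsto (fun k => x k) Filter.atTop (nhds 0) := by
  have h := x.zero_at_infty'
  rw [Filter.cocompact_eq_cofinite, Nat.cofinite_eq_atTop] at h
  exact h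

lemma c0_norm_le (x : C0) {C : ℝ} (hC : 0 ≤ C) : ‖x‖ ≤ C ↔ ∀ k, ‖x k‖ ≤ C := by
  rw [← ZeroAtInftyContinuousMap.norm_toBCF_eq_norm, BoundedContinuousFunction.norm_le hC]
  rfl

lemma c0_coord_le (x : C0) (k : ℕ) : ‖x k‖ ≤ ‖x‖ :=
  (c0_norm_le x (norm_nonneg x)).1 le_rfl k

/-- Build a null sequence. -/
noncomputable def mk (f : ℕ → ℂ) (h : Filter.Tendsto f Filter.atTop (nhds 0)) : C0 where
  toFun := f
  continuous_toFun := continuous_of_discreteTopology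
  zero_at_infty' := by
    rw [Filter.cocompact_eq_cofinite, Nat.cofinite_eq_atTop]
    exact h

@[simp] lemma mk_apply (f : ℕ → ℂ) (h : Filter.Tendsto f Filter.atTop (nhds 0)) (k : ℕ) :
    mk f h k = f k := rfl

lemma wt_pos (k : ℕ) : (0:ℝ) < (1/4:ℝ)^k := by positivity

lemma wt_le_one (k : ℕ) : (1/4:ℝ)^k ≤ 1 := pow_le_one₀ (by norm_num) (by norm_num)

lemma iota_tendsto (y : C0) :
    Filter.Tendsto (fun k => (((1/4:ℝ)^k : ℝ) : ℂ) * y k) Filter.atTop (nhds 0) := by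
  have h := c0_tendsto y
  rw [tendsto_zero_iff_norm_tendsto_zero] at h ⊢
  refine squeeze_zero (fun k => norm_nonneg _) (fun k => ?_) h
  rw [norm_mul, Complex.norm_real, Real.norm_of_nonneg (wt_pos k).le]
  exact mul_le_of_le_one_left (norm_nonneg _) (wt_le_one k)

/-- The inclusion, as a linear map: multiplication by `4^{-k}`. -/
noncomputable def iotaL : C0 →ₗ[ℝ] C0 where
  toFun y := mk (fun k => (((1/4:ℝ)^k : ℝ) : ℂ) * y k) (iota_tendsto y)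
  map_add' x y := by
    ext k
    simp [mul_add]
  map_smul' c y := by
    ext k
    simp
    ring

noncomputable def iota : C0 →L[ℝ] C0 :=
  iotaL.mkContinuous 1 (by
    intro y
    rw [one_mul, c0_norm_le _ (norm_nonneg _)]
    intro k
    show ‖(((1/4:ℝ)^k : ℝ) : ℂ) * y k‖ ≤ ‖y‖
    rw [norm_mul, Complex.norm_real, Real.norm_of_nonneg (wt_pos k).le]
    exact (mul_le_of_le_one_left (norm_nonneg _) (wt_le_one k)).trans (c0_coord_le y k))

@[simp] lemma iota_apply (y : C0) (k : ℕ) : iota y k = (((1/4:ℝ)^k : ℝ) : ℂ) * y k := rfl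

lemma iota_injective : Function.Injective iota := by
  intro x y h
  ext k
  have h1 : iota x k = iota y k := by rw [h]
  rw [iota_apply, iota_apply] at h1
  have h2 : (((1/4:ℝ)^k : ℝ) : ℂ) ≠ 0 := by
    rw [Complex.ofReal_ne_zero]
    exact (wt_pos k).ne'
  exact mul_left_cancel₀ h2 h1

lemma U_tendsto (x : C0) :
    Filter.Tendsto (fun k => ((min ‖x k‖ ‖x 0‖ : ℝ) : ℂ)) Filter.atTop (nhds 0) := by
  have h := c0_tendsto x
  rw [tendsto_zero_iff_norm_tendsto_zero] at h ⊢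
  refine squeeze_zero (fun k => norm_nonneg _) (fun k => ?_) h
  rw [Complex.norm_real, Real.norm_of_nonneg (le_min (norm_nonneg _) (norm_nonneg _))]
  exact min_le_left _ _

/-- The nonlinear operator. -/
noncomputable def U (x : C0) : C0 := mk (fun k => ((min ‖x k‖ ‖x 0‖ : ℝ) : ℂ)) (U_tendsto x)

lemma V_tendsto (y : C0) :
    Filter.Tendsto (fun k => ((min ‖y k‖ ((4:ℝ)^k * ‖y 0‖) : ℝ) : ℂ)) Filter.atTop (nhds 0) := by
  have h := c0_tendsto y
  rw [tendsto_zero_iff_norm_tendsto_zero] at h ⊢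
  refine squeeze_zero (fun k => norm_nonneg _) (fun k => ?_) h
  rw [Complex.norm_real, Real.norm_of_nonneg (le_min (norm_nonneg _) (by positivity))]
  exact min_le_left _ _

/-- The nonlinear operator on the smaller space, in the coordinates of the smaller space. -/
noncomputable def V (y : C0) : C0 :=
  mk (fun k => ((min ‖y k‖ ((4:ℝ)^k * ‖y 0‖) : ℝ) : ℂ)) (V_tendsto y)

@[simp] lemma U_apply (x : C0) (k : ℕ) : U x k = ((min ‖x k‖ ‖x 0‖ : ℝ) : ℂ) := rfl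

@[simp] lemma V_apply (y : C0) (k : ℕ) :
    V y k = ((min ‖y k‖ ((4:ℝ)^k * ‖y 0‖) : ℝ) : ℂ) := rfl

lemma U_lip (a b : C0) : ‖U a - U b‖ ≤ 1 * ‖a - b‖ := by
  rw [one_mul, c0_norm_le _ (norm_nonneg _)]
  intro k
  show ‖((min ‖a k‖ ‖a 0‖ : ℝ) : ℂ) - ((min ‖b k‖ ‖b 0‖ : ℝ) : ℂ)‖ ≤ ‖a - b‖
  rw [← Complex.ofReal_sub, Complex.norm_real, Real.norm_eq_abs]
  refine (abs_min_sub_min_le_max _ _ _ _).trans ?_
  refine max_le ?_ ?_
  · refine (abs_norm_sub_norm_le _ _).trans ?_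
    exact c0_coord_le (a - b) k
  · refine (abs_norm_sub_norm_le _ _).trans ?_
    exact c0_coord_le (a - b) 0

lemma UV (x : C0) : U (iota x) = iota (V x) := by
  ext k
  rw [U_apply, iota_apply, iota_apply, iota_apply, V_apply]
  rw [← Complex.ofReal_mul]
  congr 1
  rw [norm_mul, norm_mul, Complex.norm_real, Complex.norm_real,
    Real.norm_of_nonneg (wt_pos k).le, Real.norm_of_nonneg (wt_pos 0).le,
    mul_min_of_nonneg _ _ (wt_pos k).le]
  congr 1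
  rw [← mul_assoc, ← mul_pow]
  norm_num

lemma V_bound (x : C0) : ‖V x‖ ≤ 1 * ‖x‖ := by
  rw [one_mul, c0_norm_le _ (norm_nonneg _)]
  intro k
  rw [V_apply, Complex.norm_real, Real.norm_of_nonneg (le_min (norm_nonneg _) (by positivity))]
  exact (min_le_left _ _).trans (c0_coord_le x k)

lemma V_cont : Continuous V := by
  rw [Metric.continuous_iff]
  intro y ε hε
  have h := c0_tendsto y
  rw [Metric.tendsto_atTop] at h
  obtain ⟨N, hN⟩ := h (ε/4) (by positivity)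
  refine ⟨ε/4 * (1/4:ℝ)^N, by positivity, fun z hz => ?_⟩
  rw [dist_eq_norm] at hz ⊢
  refine lt_of_le_of_lt ((c0_norm_le _ (by positivity : (0:ℝ) ≤ 3*(ε/4))).2 ?_) (by linarith)
  intro k
  have hw : (1/4:ℝ)^N ≤ 1 := wt_le_one N
  have hd1 : ε/4 * (1/4:ℝ)^N ≤ ε/4 := mul_le_of_le_one_right (by positivity) hw
  have hzk : ‖z k - y k‖ ≤ ε/4 * (1/4:ℝ)^N := (c0_coord_le (z - y) k).trans hz.le
  have hz0 : ‖z 0 - y 0‖ ≤ ε/4 * (1/4:ℝ)^N := (c0_coord_le (z - y) 0).trans hz.le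
  show ‖((min ‖z k‖ ((4:ℝ)^k * ‖z 0‖) : ℝ) : ℂ) - ((min ‖y k‖ ((4:ℝ)^k * ‖y 0‖) : ℝ) : ℂ)‖ ≤ 3*(ε/4)
  rw [← Complex.ofReal_sub, Complex.norm_real, Real.norm_eq_abs]
  by_cases hk : N ≤ k
  · have h1 : ‖y k‖ < ε/4 := by
      have := hN k hk
      rwa [dist_zero_right] at this
    have h2 : ‖z k‖ ≤ ε/4 + ε/4 := by
      calc ‖z k‖ = ‖(z k - y k) + y k‖ := by rw [sub_add_cancel]
        _ ≤ ‖z k - y k‖ + ‖y k‖ := norm_add_le _ _
        _ ≤ ε/4 + ε/4 := by linarith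
    have h3 : 0 ≤ min ‖z k‖ ((4:ℝ)^k * ‖z 0‖) := le_min (norm_nonneg _) (by positivity)
    have h4 : 0 ≤ min ‖y k‖ ((4:ℝ)^k * ‖y 0‖) := le_min (norm_nonneg _) (by positivity)
    have h5 : min ‖z k‖ ((4:ℝ)^k * ‖z 0‖) ≤ ‖z k‖ := min_le_left _ _
    have h6 : min ‖y k‖ ((4:ℝ)^k * ‖y 0‖) ≤ ‖y k‖ := min_le_left _ _
    rw [abs_le]
    constructor <;> linarith
  · push Not at hk
    refine (abs_min_sub_min_le_max _ _ _ _).trans (max_le ?_ ?_)
    · refine (abs_norm_sub_norm_le _ _).trans ?_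
      linarith
    · rw [← mul_sub, abs_mul, abs_of_nonneg (by positivity : (0:ℝ) ≤ (4:ℝ)^k)]
      have h1 : |‖z 0‖ - ‖y 0‖| ≤ ε/4 * (1/4:ℝ)^N := (abs_norm_sub_norm_le _ _).trans hz0
      have h2 : (4:ℝ)^k ≤ (4:ℝ)^N := pow_le_pow_right₀ (by norm_num) hk.le
      calc (4:ℝ)^k * |‖z 0‖ - ‖y 0‖| ≤ (4:ℝ)^N * (ε/4 * (1/4:ℝ)^N) := by
            apply mul_le_mul h2 h1 (abs_nonneg _) (by positivity)
        _ = ε/4 * ((4:ℝ)^N * (1/4:ℝ)^N) := by ring
        _ = ε/4 := by rw [← mul_pow]; norm_num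
        _ ≤ 3*(ε/4) := by linarith

/-- The K-functional of the couple. -/
noncomputable def K (t : ℝ) (x : C0) : ℝ := ⨅ y : C0, (‖x - iota y‖ + t * ‖y‖)

lemma K_bdd (t : ℝ) (ht : 0 < t) (x : C0) :
    BddBelow (Set.range (fun y : C0 => ‖x - iota y‖ + t * ‖y‖)) := by
  refine ⟨0, ?_⟩
  rintro _ ⟨y, rfl⟩
  positivity

lemma K_le (t : ℝ) (ht : 0 < t) (x y : C0) : K t x ≤ ‖x - iota y‖ + t * ‖y‖ :=
  ciInf_le (K_bdd t ht x) y

lemma K_nonneg (t : ℝ) (ht : 0 < t) (x : C0) : 0 ≤ K t x :=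
  Real.iInf_nonneg (fun y => by positivity)

lemma K_ge (t : ℝ) (x : C0) (k : ℕ) (h : (1/4:ℝ)^k ≤ t) : ‖x k‖ ≤ K t x := by
  refine le_ciInf (fun y => ?_)
  have h1 : ‖(x - iota y) k‖ ≤ ‖x - iota y‖ := c0_coord_le _ k
  have h2 : ‖y k‖ ≤ ‖y‖ := c0_coord_le _ k
  have h3 : (x - iota y) k = x k - (((1/4:ℝ)^k : ℝ) : ℂ) * y k := rfl
  rw [h3] at h1
  have h4 : ‖x k‖ ≤ ‖x k - (((1/4:ℝ)^k : ℝ) : ℂ) * y k‖ + ‖(((1/4:ℝ)^k : ℝ) : ℂ) * y k‖ := by
    calc ‖x k‖ = ‖(x k - (((1/4:ℝ)^k : ℝ) : ℂ) * y k) + (((1/4:ℝ)^k : ℝ) : ℂ) * y k‖ := by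
          rw [sub_add_cancel]
      _ ≤ _ := norm_add_le _ _
  rw [norm_mul, Complex.norm_real, Real.norm_of_nonneg (wt_pos k).le] at h4
  have h5 : (1/4:ℝ)^k * ‖y k‖ ≤ t * ‖y‖ := mul_le_mul h h2 (norm_nonneg _) ((wt_pos k).le.trans h)
  linarith

lemma trunc_tendsto (x : C0) (N : ℕ) :
    Filter.Tendsto (fun k => if k < N then (((4:ℝ)^k : ℝ) : ℂ) * x k else 0)
      Filter.atTop (nhds 0) := by
  refine tendsto_const_nhds.congr' ?_
  filter_upwards [Filter.eventually_ge_atTop N] with k hk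
  rw [if_neg (by omega)]

/-- Upper bound for the K-functional of a sequence bounded by `2^{-k}`. -/
lemma K_upper (x : C0) (hx : ∀ k, ‖x k‖ ≤ (1/2:ℝ)^k) (t : ℝ) (ht : 0 < t) :
    K t x ≤ 3 * t ^ (1/2:ℝ) := by
  have hs : t ^ (1/2:ℝ) = Real.sqrt t := (Real.sqrt_eq_rpow t).symm
  rw [hs]
  have hsq : 0 < Real.sqrt t := Real.sqrt_pos.2 ht
  have hss : Real.sqrt t * Real.sqrt t = t := Real.mul_self_sqrt ht.le
  by_cases h1 : 1 ≤ t
  · have h2 : K t x ≤ ‖x - iota 0‖ + t * ‖(0:C0)‖ := K_le t ht x 0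
    rw [map_zero, sub_zero, norm_zero, mul_zero, add_zero] at h2
    have h3 : ‖x‖ ≤ 1 := (c0_norm_le x zero_le_one).2 (fun k => (hx k).trans
      (pow_le_one₀ (by norm_num) (by norm_num)))
    have h4 : 1 ≤ Real.sqrt t := Real.one_le_sqrt.2 h1
    linarith
  · push Not at h1
    -- the least N with 2^{-N} ≤ sqrt t
    have hex : ∃ N : ℕ, (1/2:ℝ)^N ≤ Real.sqrt t := by
      obtain ⟨N, hN⟩ := exists_pow_lt_of_lt_one hsq (by norm_num : (1/2:ℝ) < 1)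
      exact ⟨N, hN.le⟩
    classical
    set N := Nat.find hex with hNdef
    have hN : (1/2:ℝ)^N ≤ Real.sqrt t := Nat.find_spec hex
    have hN1 : 2^N * Real.sqrt t ≤ 2 := by
      by_cases h0 : N = 0
      · rw [h0]
        have : Real.sqrt t ≤ 1 := Real.sqrt_le_one.2 h1.le
        linarith
      · obtain ⟨M, hM⟩ := Nat.exists_eq_succ_of_ne_zero h0
        have h2 : ¬ (1/2:ℝ)^M ≤ Real.sqrt t := Nat.find_min hex (by omega)
        push Not at h2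
        rw [hM, pow_succ]
        have h3 : (2:ℝ)^M * Real.sqrt t ≤ 2^M * (1/2:ℝ)^M :=
          mul_le_mul_of_nonneg_left h2.le (by positivity)
        rw [← mul_pow] at h3
        norm_num at h3
        nlinarith
    have h2 := K_le t ht x (mk _ (trunc_tendsto x N))
    have h3 : ‖x - iota (mk _ (trunc_tendsto x N))‖ ≤ Real.sqrt t := by
      rw [c0_norm_le _ hsq.le]
      intro k
      show ‖x k - (((1/4:ℝ)^k : ℝ) : ℂ) * (if k < N then (((4:ℝ)^k : ℝ) : ℂ) * x k else 0)‖ ≤ _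
      by_cases hk : k < N
      · rw [if_pos hk, ← mul_assoc, ← Complex.ofReal_mul, ← mul_pow]
        norm_num
      · rw [if_neg hk, mul_zero, sub_zero]
        refine (hx k).trans (le_trans ?_ hN)
        exact pow_le_pow_of_le_one (by norm_num) (by norm_num) (not_lt.1 hk)
    have h4 : ‖mk _ (trunc_tendsto x N)‖ ≤ 2^N := by
      rw [c0_norm_le _ (by positivity)]
      intro k
      rw [mk_apply]
      by_cases hk : k < N
      · rw [if_pos hk, norm_mul, Complex.norm_real, Real.norm_of_nonneg (by positivity)]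
        calc (4:ℝ)^k * ‖x k‖ ≤ 4^k * (1/2:ℝ)^k := mul_le_mul_of_nonneg_left (hx k) (by positivity)
          _ = 2^k := by rw [← mul_pow]; norm_num
          _ ≤ 2^N := pow_le_pow_right₀ (by norm_num) hk.le
      · rw [if_neg hk, norm_zero]
        positivity
    have h5 : t * ‖mk _ (trunc_tendsto x N)‖ ≤ 2 * Real.sqrt t := by
      calc t * ‖mk _ (trunc_tendsto x N)‖ ≤ t * 2^N := mul_le_mul_of_nonneg_left h4 ht.le
        _ = Real.sqrt t * (2^N * Real.sqrt t) := by linear_combination (-(2:ℝ)^N) * hss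
        _ ≤ Real.sqrt t * 2 := mul_le_mul_of_nonneg_left hN1 hsq.le
        _ = 2 * Real.sqrt t := by ring
    linarith

/-- The measure `dt/t` on `(0,∞)`. -/
noncomputable abbrev mu : Measure ℝ :=
  (volume.restrict (Set.Ioi (0:ℝ))).withDensity (fun t => ENNReal.ofReal t⁻¹)

lemma mu_ae_pos : ∀ᵐ t ∂mu, 0 < t := by
  have h : ∀ᵐ t ∂(volume.restrict (Set.Ioi (0:ℝ))), 0 < t :=
    ae_restrict_mem measurableSet_Ioi
  exact (withDensity_absolutelyContinuous _ _).ae_le h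

lemma mu_Ioo_pos (a b : ℝ) (ha : 0 < a) (hab : a < b) : mu (Set.Ioo a b) ≠ 0 := by
  intro h
  rw [withDensity_apply_eq_zero (by fun_prop)] at h
  rw [Measure.restrict_apply' measurableSet_Ioi] at h
  have h1 : Set.Ioo a b ⊆ {x | ENNReal.ofReal x⁻¹ ≠ 0} ∩ Set.Ioo a b ∩ Set.Ioi 0 := by
    intro x hx
    have hx0 : 0 < x := ha.trans hx.1
    refine ⟨⟨?_, hx⟩, hx0⟩
    simp only [Set.mem_ofPred_eq, ne_eq, ENNReal.ofReal_eq_zero, not_le]
    positivity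
  have h2 := measure_mono_null h1 h
  rw [Real.volume_Ioo, ENNReal.ofReal_eq_zero] at h2
  linarith

lemma norm_le_of_K (x : C0) (C : ℝ) (h : ∀ t : ℝ, 0 < t → K t x ≤ C * t ^ (1/2:ℝ)) :
    eLpNorm (fun t : ℝ => t ^ (-(1/2:ℝ)) * ⨅ y : C0, (‖x - iota y‖ + t * ‖y‖)) ∞ mu
      ≤ ENNReal.ofReal C := by
  rw [eLpNorm_exponent_top]
  apply eLpNormEssSup_le_of_ae_bound
  filter_upwards [mu_ae_pos] with t ht
  have h1 : (⨅ y : C0, (‖x - iota y‖ + t * ‖y‖)) = K t x := rfl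
  rw [h1]
  have h2 : 0 < t ^ (-(1/2:ℝ)) := Real.rpow_pos_of_pos ht _
  rw [Real.norm_of_nonneg (mul_nonneg h2.le (K_nonneg t ht x))]
  calc t ^ (-(1/2:ℝ)) * K t x ≤ t ^ (-(1/2:ℝ)) * (C * t ^ (1/2:ℝ)) :=
        mul_le_mul_of_nonneg_left (h t ht) h2.le
    _ = C * (t ^ (-(1/2:ℝ)) * t ^ (1/2:ℝ)) := by ring
    _ = C := by rw [← Real.rpow_add ht]; norm_num

lemma a_tendsto (c : ℝ) :
    Filter.Tendsto (fun k : ℕ => if k = 0 then (c:ℂ) else (((1/2:ℝ)^k : ℝ) : ℂ))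
      Filter.atTop (nhds 0) := by
  have h : Filter.Tendsto (fun k : ℕ => (((1/2:ℝ)^k : ℝ) : ℂ)) Filter.atTop (nhds 0) := by
    rw [tendsto_zero_iff_norm_tendsto_zero]
    have h1 := tendsto_pow_atTop_nhds_zero_of_lt_one (by norm_num : (0:ℝ) ≤ 1/2)
      (by norm_num : (1/2:ℝ) < 1)
    refine h1.congr (fun k => ?_)
    rw [Complex.norm_real, Real.norm_of_nonneg (by positivity)]
  refine h.congr' ?_
  filter_upwards [Filter.eventually_ge_atTop 1] with k hk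
  rw [if_neg (by omega)]

/-- The sequence `(c, 1/2, 1/4, ...)`. -/
noncomputable def seqA (c : ℝ) : C0 := mk _ (a_tendsto c)

lemma seqA_zero (c : ℝ) : seqA c 0 = (c:ℂ) := rfl

lemma seqA_pos (c : ℝ) (k : ℕ) (hk : k ≠ 0) : seqA c k = (((1/2:ℝ)^k : ℝ) : ℂ) := by
  show (if k = 0 then (c:ℂ) else (((1/2:ℝ)^k : ℝ) : ℂ)) = _
  rw [if_neg hk]

lemma seqA_bound (c : ℝ) (hc : |c| ≤ 1) (k : ℕ) : ‖seqA c k‖ ≤ (1/2:ℝ)^k := by
  by_cases hk : k = 0
  · subst hk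
    rw [seqA_zero, Complex.norm_real, Real.norm_eq_abs]
    simpa using hc
  · rw [seqA_pos c k hk, Complex.norm_real, Real.norm_of_nonneg (by positivity)]

lemma seqA_sub (c t : ℝ) (hc : 0 ≤ c) (ht : 0 < t) :
    K t (seqA c - seqA 0) ≤ c * t ^ (1/2:ℝ) := by
  have hs : t ^ (1/2:ℝ) = Real.sqrt t := (Real.sqrt_eq_rpow t).symm
  rw [hs]
  have hsub : ∀ k, (seqA c - seqA 0) k = if k = 0 then (c:ℂ) else 0 := by
    intro k
    show seqA c k - seqA 0 k = _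
    by_cases hk : k = 0
    · subst hk
      rw [seqA_zero, seqA_zero]
      simp
    · rw [seqA_pos c k hk, seqA_pos 0 k hk, if_neg hk, sub_self]
  have hnorm : ‖seqA c - seqA 0‖ ≤ c := by
    rw [c0_norm_le _ hc]
    intro k
    rw [hsub]
    by_cases hk : k = 0
    · rw [if_pos hk, Complex.norm_real, Real.norm_of_nonneg hc]
    · rw [if_neg hk, norm_zero]
      exact hc
  by_cases h1 : 1 ≤ t
  · have h2 := K_le t ht (seqA c - seqA 0) 0
    rw [map_zero, sub_zero, norm_zero, mul_zero, add_zero] at h2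
    have h4 : 1 ≤ Real.sqrt t := Real.one_le_sqrt.2 h1
    nlinarith
  · push Not at h1
    have h2 := K_le t ht (seqA c - seqA 0) (seqA c - seqA 0)
    have h3 : ‖(seqA c - seqA 0) - iota (seqA c - seqA 0)‖ ≤ 0 := by
      rw [c0_norm_le _ le_rfl]
      intro k
      show ‖(seqA c - seqA 0) k - (((1/4:ℝ)^k : ℝ) : ℂ) * (seqA c - seqA 0) k‖ ≤ 0
      rw [hsub]
      by_cases hk : k = 0
      · subst hk
        simp
      · rw [if_neg hk]
        simp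
    have h4 : t ≤ Real.sqrt t := by
      have := Real.mul_self_sqrt ht.le
      have h5 : Real.sqrt t ≤ 1 := Real.sqrt_le_one.2 h1.le
      nlinarith [Real.sqrt_nonneg t]
    have h5 : t * ‖seqA c - seqA 0‖ ≤ t * c := mul_le_mul_of_nonneg_left hnorm ht.le
    nlinarith

theorem result :
    ¬ (∀ (E0 E1 F0 F1 : Type)
      [NormedAddCommGroup E0] [NormedSpace ℝ E0] [CompleteSpace E0]
      [NormedAddCommGroup E1] [NormedSpace ℝ E1] [CompleteSpace E1]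
      [NormedAddCommGroup F0] [NormedSpace ℝ F0] [CompleteSpace F0]
      [NormedAddCommGroup F1] [NormedSpace ℝ F1] [CompleteSpace F1]
      (ιA : E1 →L[ℝ] E0) (ιB : F1 →L[ℝ] F0),
      Function.Injective ιA → Function.Injective ιB →
      ∀ (U : E0 → F0) (V : E1 → F1) (M0 M1 : ℝ),
        (∀ a b : E0, ‖U a - U b‖ ≤ M0 * ‖a - b‖) →
        (∀ x : E1, U (ιA x) = ιB (V x)) →
        (∀ x : E1, ‖V x‖ ≤ M1 * ‖x‖) →
        Continuous V →
        ∀ θ : ℝ, 0 < θ → θ < 1 → ∀ p : ℝ≥0∞, 1 ≤ p →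
        ∀ a : E0,
          eLpNorm (fun t : ℝ => t ^ (-θ) * ⨅ y : E1, (‖a - ιA y‖ + t * ‖y‖)) p
            ((volume.restrict (Set.Ioi (0:ℝ))).withDensity (fun t => ENNReal.ofReal t⁻¹)) < ∞ →
          ∀ ε : ℝ≥0∞, 0 < ε → ∃ δ : ℝ≥0∞, 0 < δ ∧ ∀ b : E0,
            eLpNorm (fun t : ℝ => t ^ (-θ) * ⨅ y : E1, (‖b - ιA y‖ + t * ‖y‖)) p
              ((volume.restrict (Set.Ioi (0:ℝ))).withDensity (fun t => ENNReal.ofReal t⁻¹)) < ∞ →
            eLpNorm (fun t : ℝ => t ^ (-θ) * ⨅ y : E1, (‖(b - a) - ιA y‖ + t * ‖y‖)) p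
              ((volume.restrict (Set.Ioi (0:ℝ))).withDensity (fun t => ENNReal.ofReal t⁻¹)) < δ →
            eLpNorm (fun t : ℝ => t ^ (-θ) * ⨅ z : F1, (‖(U b - U a) - ιB z‖ + t * ‖z‖)) p
              ((volume.restrict (Set.Ioi (0:ℝ))).withDensity (fun t => ENNReal.ofReal t⁻¹)) < ε) := by
  intro H
  obtain ⟨δ, hδ, hb⟩ := H C0 C0 C0 C0 iota iota iota_injective iota_injective U V 1 1
    U_lip UV V_bound V_cont (1/2) (by norm_num) (by norm_num) ∞ le_top (seqA 0)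
    (lt_of_le_of_lt (norm_le_of_K (seqA 0) 3
      (fun t ht => K_upper _ (seqA_bound 0 (by norm_num)) t ht)) ENNReal.ofReal_lt_top)
    (ENNReal.ofReal (1/4)) (by simp)
  -- choose c
  obtain ⟨c, hc0, hc1, hcδ⟩ : ∃ c : ℝ, 0 < c ∧ c ≤ 1 ∧ ENNReal.ofReal c < δ := by
    obtain ⟨d, hd0, hd⟩ := ENNReal.lt_iff_exists_real_btwn.1 hδ
    refine ⟨min d 1, ?_, min_le_right _ _, ?_⟩
    · have : 0 < d := by
        have := hd.1
        rwa [ENNReal.ofReal_pos] at this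
      exact lt_min this one_pos
    · exact lt_of_le_of_lt (ENNReal.ofReal_le_ofReal (min_le_left _ _)) hd.2
  have h := hb (seqA c)
    (lt_of_le_of_lt (norm_le_of_K (seqA c) 3
      (fun t ht => K_upper _ (seqA_bound c (by rw [abs_of_pos hc0]; exact hc1)) t ht))
      ENNReal.ofReal_lt_top)
    (lt_of_le_of_lt (norm_le_of_K _ c (fun t ht => seqA_sub c t hc0.le ht)) hcδ)
  rw [eLpNorm_exponent_top] at h
  -- pick k large
  obtain ⟨k, hk⟩ := exists_pow_lt_of_lt_one hc0 (by norm_num : (1/2:ℝ) < 1)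
  have hk' : (1/2:ℝ)^(k+1) < c :=
    lt_of_le_of_lt (pow_le_pow_of_le_one (by norm_num) (by norm_num) (by omega)) hk
  have hcoord : ‖(U (seqA c) - U (seqA 0)) (k+1)‖ = (1/2:ℝ)^(k+1) := by
    show ‖U (seqA c) (k+1) - U (seqA 0) (k+1)‖ = _
    rw [U_apply, U_apply, seqA_zero, seqA_zero, seqA_pos c (k+1) (by omega),
      seqA_pos 0 (k+1) (by omega)]
    rw [Complex.norm_real, Complex.norm_real, Complex.norm_real,
      Real.norm_of_nonneg (by positivity : (0:ℝ) ≤ (1/2:ℝ)^(k+1)), Real.norm_of_nonneg hc0.le,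
      norm_zero, min_eq_left hk'.le, min_eq_right (by positivity), ← Complex.ofReal_sub,
      Complex.norm_real, sub_zero, Real.norm_of_nonneg (by positivity)]
  have hae := enorm_ae_le_eLpNormEssSup (fun t : ℝ => t ^ (-(1/2:ℝ)) * ⨅ z : C0,
    (‖(U (seqA c) - U (seqA 0)) - iota z‖ + t * ‖z‖)) mu
  have hpos := mu_Ioo_pos ((1/4:ℝ)^(k+1)) (4 * (1/4:ℝ)^(k+1)) (wt_pos _)
    (by have := wt_pos (k+1); linarith)
  apply hpos
  have hae2 : ∀ᵐ t ∂mu, t ∉ Set.Ioo ((1/4:ℝ)^(k+1)) (4 * (1/4:ℝ)^(k+1)) := by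
    filter_upwards [hae] with t ht hmem
    have h1 := lt_of_le_of_lt ht h
    have ht0 : 0 < t := (wt_pos _).trans hmem.1
    have h2 : (⨅ z : C0, (‖(U (seqA c) - U (seqA 0)) - iota z‖ + t * ‖z‖))
      = K t (U (seqA c) - U (seqA 0)) := rfl
    rw [h2] at h1
    have h3 : (1/2:ℝ)^(k+1) ≤ K t (U (seqA c) - U (seqA 0)) := by
      rw [← hcoord]
      exact K_ge t _ (k+1) hmem.1.le
    have h4 : 0 < t ^ (-(1/2:ℝ)) := Real.rpow_pos_of_pos ht0 _
    rw [← ofReal_norm, Real.norm_of_nonneg (mul_nonneg h4.le (K_nonneg t ht0 _)),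
      ENNReal.ofReal_lt_ofReal_iff (by norm_num)] at h1
    have h5 : t ^ (1/2:ℝ) ≤ 2 * (1/2:ℝ)^(k+1) := by
      rw [← Real.sqrt_eq_rpow]
      apply Real.sqrt_le_iff.2
      refine ⟨by positivity, hmem.2.le.trans (le_of_eq ?_)⟩
      rw [mul_pow, ← pow_mul, mul_comm (k+1) 2, pow_mul]
      norm_num
    have h6 : t ^ (-(1/2:ℝ)) * t ^ (1/2:ℝ) = 1 := by
      rw [← Real.rpow_add ht0]
      norm_num
    have h7 : (1:ℝ)/2 ≤ t ^ (-(1/2:ℝ)) * K t (U (seqA c) - U (seqA 0)) := by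
      have h8 : t ^ (-(1/2:ℝ)) * t ^ (1/2:ℝ) ≤ t ^ (-(1/2:ℝ)) * (2 * (1/2:ℝ)^(k+1)) :=
        mul_le_mul_of_nonneg_left h5 h4.le
      have h9 : t ^ (-(1/2:ℝ)) * (1/2:ℝ)^(k+1) ≤ t ^ (-(1/2:ℝ)) * K t (U (seqA c) - U (seqA 0)) :=
        mul_le_mul_of_nonneg_left h3 h4.le
      nlinarith
    linarith
  rw [ae_iff] at hae2
  have hset : {t : ℝ | ¬ t ∉ Set.Ioo ((1/4:ℝ)^(k+1)) (4 * (1/4:ℝ)^(k+1))}
      = Set.Ioo ((1/4:ℝ)^(k+1)) (4 * (1/4:ℝ)^(k+1)) := by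
    ext t
    exact not_not
  rw [hset] at hae2
  exact hae2

end Pool.Agent.S02926
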