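import Pool.Statements.S02929
import Pool.Agent.H312SupportMap

set_option autoImplicit false
open Pool Pool.MP_37ff87_an

namespace Pool.Agent.S02929

/-- For every separable real Banach space X: if the set of Gâteaux derivatives of the norm at unit vectors (the support functionals at Gâteaux points) is norm separable in X*, then the dual X* is separable. -/
theorem result :
    ∀ (X : Type) [NormedAddCommGroup X] [NormedSpace ℝ X] [CompleteSpace X]
      [TopologicalSpace.SeparableSpace X],
      TopologicalSpace.IsSeparable
          {f : X →L[ℝ] ℝ | ∃ x : X, ‖x‖ = 1 ∧
            ∀ v : X, HasLineDerivAt ℝ (fun y : X => ‖y‖) (f v) x v} →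
        TopologicalSpace.SeparableSpace (X →L[ℝ] ℝ) := by
  intro X _ _ _ _ hsep
  exact Pool.Agent.H312Support.separable_dual hsep

end Pool.Agent.S02929
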