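import Pool.Statements.S02932
import Pool.Agent.Helper320.DJFinal

set_option autoImplicit false
open Pool Pool.MP_385bdc_an

namespace Pool.Agent.S02932

/-- The negation of the preceding statement: Every orientation-preserving C¹ circle diffeomorphism without periodic points, whose derivative has modulus of continuity C·∣t log t∣, is minimal: every orbit is dense in the circle. -/
theorem result :
    ¬ (∀ F : ℝ → ℝ, ContDiff ℝ 1 F → (∀ x, 0 < deriv F x) → (∀ x, F (x + 1) = F x + 1) →
      (∃ C δ : ℝ, 0 < δ ∧ ∀ x y : ℝ, abs (x - y) < δ →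
        abs (deriv F x - deriv F y) ≤ C * abs ((x - y) * Real.log (abs (x - y)))) →
      (∀ x : ℝ, ∀ n : ℕ, 0 < n → ∀ k : ℤ, F^[n] x ≠ x + (k : ℝ)) →
      ∀ x : ℝ, Dense {y : ℝ | ∃ n : ℕ, ∃ k : ℤ, y = F^[n] x + (k : ℝ)}) :=
  Helper320.DJ.final

end Pool.Agent.S02932
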