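import Pool.Statements.S02933
import Pool.Agent.Helper655.K11

set_option autoImplicit false
open MeasureTheory Real
open Pool Pool.MP_38788b_an

namespace Pool.Agent.S02933

/-- If G(∣z∣)dA on the disk has (1−r)log(1/G(r))→∞ and, on every arc, the proportion where W≤ε times log(1/ε) is unbounded, then the polynomial closure in L²(G dA + W dm) is H²(G dA) on the disk plus all of L²(W dm). -/
theorem result :
    ∀ (G W : ℝ → ℝ),
      Measurable G →
      (∀ r ∈ Set.Ioo (0:ℝ) 1, 0 < G r) →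
      IntegrableOn (fun r => G r * r) (Set.Ioo (0:ℝ) 1) →
      Filter.Tendsto (fun r => (1 - r) * Real.log (1 / G r))
        (nhdsWithin (1:ℝ) (Set.Iio 1)) Filter.atTop →
      Measurable W →
      (∀ θ, 0 ≤ W θ) →
      IntegrableOn W (Set.Ioc (0:ℝ) (2 * π)) →
      (∀ a b : ℝ, 0 ≤ a → a < b → b ≤ 2 * π → ∀ M : ℝ, ∃ ε : ℝ, 0 < ε ∧ ε < 1 ∧
          M < (volume {θ ∈ Set.Icc a b | W θ ≤ ε}).toReal / (b - a) * Real.log (1 / ε)) →
      ∀ (ν σ : Measure ℂ),
        ν = volume.withDensity (fun z : ℂ => ENNReal.ofReal (if ‖z‖ < 1 then G ‖z‖ else 0)) →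
        σ = Measure.map (fun θ : ℝ => Complex.exp ((θ : ℂ) * Complex.I))
              ((volume.restrict (Set.Ioc (0:ℝ) (2 * π))).withDensity
                (fun θ => ENNReal.ofReal (W θ))) →
        closure {f : Lp ℂ 2 (ν + σ) |
            ∃ p : Polynomial ℂ, (f : ℂ → ℂ) =ᵐ[ν + σ] fun z => p.eval z} =
          {f : Lp ℂ 2 (ν + σ) |
            ∃ g ∈ closure {h : Lp ℂ 2 ν |
                ∃ p : Polynomial ℂ, (h : ℂ → ℂ) =ᵐ[ν] fun z => p.eval z},
              (f : ℂ → ℂ) =ᵐ[ν] (g : ℂ → ℂ)} := by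
  intro G W hG hG0 hGi ht hW hW0 hWi hcond ν σ hν hσ
  exact Pool.Agent.Helper655.Split.closure_split G W hG hG0 hGi ht hW hW0 hWi hcond ν σ hν hσ

end Pool.Agent.S02933
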