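import Pool.Statements.S02938

set_option autoImplicit false
open Filter Topology
open Pool Pool.MP_393faa_an

namespace Pool.Agent.S02938

/-- The Hilbert space of square summable complex sequences. -/
abbrev E : Type := lp (fun _ : ℕ => ℂ) 2

lemma two_pos' : 0 < (2 : ENNReal).toReal := by norm_num

lemma sq_summable (x : E) : Summable fun n => ‖x n‖ ^ (2 : ENNReal).toReal :=
  (lp.memℓp x).summable two_pos'

/-- Diagonal multiplication by a weight bounded by `C`. -/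
noncomputable def diag (w : ℕ → ℂ) (C : ℝ) (hC : 0 ≤ C) (h : ∀ n, ‖w n‖ ≤ C) : E →L[ℂ] E :=
  have key : ∀ (x : E) (n : ℕ), ‖w n * x n‖ ≤ C * ‖x n‖ := fun x n => by
    rw [norm_mul]; exact mul_le_mul_of_nonneg_right (h n) (norm_nonneg _)
  have key2 : ∀ (x : E) (n : ℕ), ‖w n * x n‖ ^ (2 : ENNReal).toReal ≤
      C ^ (2 : ENNReal).toReal * ‖x n‖ ^ (2 : ENNReal).toReal := fun x n => by
    rw [← Real.mul_rpow hC (norm_nonneg _)]
    exact Real.rpow_le_rpow (norm_nonneg _) (key x n) two_pos'.le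
  have summ : ∀ x : E, Summable fun n => ‖w n * x n‖ ^ (2 : ENNReal).toReal := fun x =>
    Summable.of_nonneg_of_le (fun n => Real.rpow_nonneg (norm_nonneg _) _) (key2 x)
      ((sq_summable x).mul_left _)
  LinearMap.mkContinuous
    { toFun := fun x => ⟨fun n => w n * x n, memℓp_gen (summ x)⟩
      map_add' := fun x y => by
        ext n
        exact mul_add (w n) (x n) (y n)
      map_smul' := fun c x => by
        ext n
        exact mul_left_comm (w n) c (x n) } C (fun x => by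
      apply lp.norm_le_of_tsum_le two_pos' (mul_nonneg hC (norm_nonneg _))
      rw [Real.mul_rpow hC (norm_nonneg _), lp.norm_rpow_eq_tsum two_pos' x, ← tsum_mul_left]
      exact (summ x).tsum_le_tsum (key2 x) ((sq_summable x).mul_left _))

lemma diag_apply (w : ℕ → ℂ) (C : ℝ) (hC : 0 ≤ C) (h : ∀ n, ‖w n‖ ≤ C) (x : E) (n : ℕ) :
    (diag w C hC h x) n = w n * x n := rfl

lemma diag_norm_le (w : ℕ → ℂ) (C : ℝ) (hC : 0 ≤ C) (h : ∀ n, ‖w n‖ ≤ C) :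
    ‖diag w C hC h‖ ≤ C := by
  unfold diag
  apply LinearMap.mkContinuous_norm_le
  exact hC

lemma shift_mem (x : E) :
    HasSum (fun n => ‖(if n < 2 then (0 : ℂ) else x (n - 2))‖ ^ (2 : ENNReal).toReal)
      (∑' n, ‖x n‖ ^ (2 : ENNReal).toReal) := by
  have h := (sq_summable x).hasSum
  have h2 : HasSum (fun n => ‖(if n + 2 < 2 then (0 : ℂ) else x (n + 2 - 2))‖ ^ (2 : ENNReal).toReal)
      (∑' n, ‖x n‖ ^ (2 : ENNReal).toReal) := by
    have he : (fun n => ‖(if n + 2 < 2 then (0 : ℂ) else x (n + 2 - 2))‖ ^ (2 : ENNReal).toReal) =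
        fun n => ‖x n‖ ^ (2 : ENNReal).toReal := by
      funext n
      rw [if_neg (by omega), Nat.add_sub_cancel]
    rw [he]; exact h
  have := (hasSum_nat_add_iff (f := fun n => ‖(if n < 2 then (0 : ℂ) else x (n - 2))‖ ^
    (2 : ENNReal).toReal) 2).1 h2
  simpa [Finset.sum_range_succ] using this

/-- The square of the unilateral shift, as an isometry. -/
noncomputable def shift : E →ₗᵢ[ℂ] E where
  toFun := fun x => ⟨fun n => if n < 2 then (0 : ℂ) else x (n - 2),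
    memℓp_gen (shift_mem x).summable⟩
  map_add' := fun x y => by
    ext n
    show (if n < 2 then (0 : ℂ) else x (n - 2) + y (n - 2)) =
      (if n < 2 then (0 : ℂ) else x (n - 2)) + (if n < 2 then (0 : ℂ) else y (n - 2))
    split_ifs <;> simp
  map_smul' := fun c x => by
    ext n
    show (if n < 2 then (0 : ℂ) else c * x (n - 2)) =
      c * (if n < 2 then (0 : ℂ) else x (n - 2))
    split_ifs <;> simp
  norm_map' := fun x => by
    rw [lp.norm_eq_tsum_rpow two_pos', lp.norm_eq_tsum_rpow two_pos' x]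
    congr 1
    exact (shift_mem x).tsum_eq

lemma shift_apply (x : E) (n : ℕ) : (shift x) n = if n < 2 then (0 : ℂ) else x (n - 2) := rfl

/-- weights -/
noncomputable def wL : ℕ → ℂ := fun n => if n = 0 then 2 else if n = 1 then 1 / 2 else 1
noncomputable def wLi : ℕ → ℂ := fun n => if n = 0 then 1 / 2 else if n = 1 then 2 else 1
noncomputable def wM : ℕ → ℂ := fun n =>
  if n = 0 then 2 else if n = 1 then 1 else if n % 2 = 0 then 1 else 2
noncomputable def wMi : ℕ → ℂ := fun n =>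
  if n = 0 then 1 / 2 else if n = 1 then 1 else if n % 2 = 0 then 1 else 1 / 2

lemma wL_le (n : ℕ) : ‖wL n‖ ≤ 2 := by
  unfold wL; split_ifs <;> norm_num
lemma wLi_le (n : ℕ) : ‖wLi n‖ ≤ 2 := by
  unfold wLi; split_ifs <;> norm_num
lemma wM_le (n : ℕ) : ‖wM n‖ ≤ 2 := by
  unfold wM; split_ifs <;> norm_num
lemma wMi_le (n : ℕ) : ‖wMi n‖ ≤ 1 := by
  unfold wMi; split_ifs <;> norm_num

lemma wL_mul (n : ℕ) : wL n * wLi n = 1 := by
  unfold wL wLi; split_ifs <;> norm_num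
lemma wM_mul (n : ℕ) : wM n * wMi n = 1 := by
  unfold wM wMi; split_ifs <;> norm_num

noncomputable def LU : (E →L[ℂ] E)ˣ where
  val := diag wL 2 (by norm_num) wL_le
  inv := diag wLi 2 (by norm_num) wLi_le
  val_inv := by
    ext x n
    show wL n * (wLi n * x n) = x n
    rw [← mul_assoc, wL_mul, one_mul]
  inv_val := by
    ext x n
    show wLi n * (wL n * x n) = x n
    rw [← mul_assoc, mul_comm (wLi n), wL_mul, one_mul]

noncomputable def MU : (E →L[ℂ] E)ˣ where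
  val := diag wM 2 (by norm_num) wM_le
  inv := diag wMi 1 (by norm_num) wMi_le
  val_inv := by
    ext x n
    show wM n * (wMi n * x n) = x n
    rw [← mul_assoc, wM_mul, one_mul]
  inv_val := by
    ext x n
    show wMi n * (wM n * x n) = x n
    rw [← mul_assoc, mul_comm (wMi n), wM_mul, one_mul]

noncomputable def S : E →L[ℂ] E := shift.toContinuousLinearMap

noncomputable def T : E →L[ℂ] E := S * (LU : E →L[ℂ] E)

lemma LUinv_S : ((LU⁻¹ : (E →L[ℂ] E)ˣ) : E →L[ℂ] E) * S = S := by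
  ext x n
  show wLi n * (if n < 2 then (0 : ℂ) else x (n - 2)) = if n < 2 then (0 : ℂ) else x (n - 2)
  unfold wLi
  rcases n with _ | _ | n <;> simp

lemma T_eq : T = ((LU⁻¹ : (E →L[ℂ] E)ˣ) : E →L[ℂ] E) * S * (LU : E →L[ℂ] E) := by
  rw [LUinv_S]; rfl

lemma T_eq' : T = ((MU⁻¹ : (E →L[ℂ] E)ˣ) : E →L[ℂ] E) * S * (MU : E →L[ℂ] E) := by
  ext x n
  show (if n < 2 then (0 : ℂ) else wL (n - 2) * x (n - 2)) =
    wMi n * (if n < 2 then (0 : ℂ) else wM (n - 2) * x (n - 2))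
  rcases n with _ | _ | n
  · simp
  · simp
  · have : wL n = wMi (n + 2) * wM n := by
      unfold wL wMi wM
      rcases n with _ | _ | n
      · norm_num
      · norm_num
      · have h1 : (n + 1 + 1 + 2) % 2 = n % 2 := by omega
        have h2 : (n + 1 + 1) % 2 = n % 2 := by omega
        simp only [h1, h2]
        by_cases h : n % 2 = 0 <;> simp [h]
    simp [this, mul_assoc]

lemma S_norm (x : E) : ‖S x‖ = ‖x‖ := shift.norm_map x

lemma S_pow_norm (n : ℕ) (x : E) : ‖(S ^ n) x‖ = ‖x‖ := by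
  induction n with
  | zero => simp
  | succ n ih =>
    rw [pow_succ']
    show ‖S ((S ^ n) x)‖ = ‖x‖
    rw [S_norm, ih]

lemma T_pow (n : ℕ) : T ^ (n + 1) = S ^ (n + 1) * (LU : E →L[ℂ] E) := by
  have h : (LU : E →L[ℂ] E) * S = S := by
    calc (LU : E →L[ℂ] E) * S = (LU : E →L[ℂ] E) * (((LU⁻¹ : (E →L[ℂ] E)ˣ) : E →L[ℂ] E) * S) := by
          rw [LUinv_S]
      _ = S := by rw [← mul_assoc]; simp
  induction n with
  | zero => simp [T]
  | succ n ih =>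
    rw [pow_succ, ih, T]
    calc S ^ (n + 1) * (LU : E →L[ℂ] E) * (S * (LU : E →L[ℂ] E))
        = S ^ (n + 1) * ((LU : E →L[ℂ] E) * S) * (LU : E →L[ℂ] E) := by simp only [mul_assoc]
      _ = S ^ (n + 1 + 1) * (LU : E →L[ℂ] E) := by rw [h, ← pow_succ]

lemma norm_LU : 2 ≤ ‖(LU : E →L[ℂ] E)‖ := by
  have h := (LU : E →L[ℂ] E).le_opNorm (lp.single 2 0 (1 : ℂ))
  have h1 : ‖(lp.single 2 0 (1 : ℂ) : E)‖ = 1 := by
    rw [lp.norm_single (by norm_num)]; simp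
  have h2 : ‖((LU : E →L[ℂ] E) (lp.single 2 0 (1 : ℂ))) 0‖ ≤ ‖(LU : E →L[ℂ] E) (lp.single 2 0 (1 : ℂ))‖ :=
    lp.norm_apply_le_norm (by norm_num) _ _
  have h3 : ((LU : E →L[ℂ] E) (lp.single 2 0 (1 : ℂ))) 0 = 2 := by
    show wL 0 * (lp.single 2 0 (1 : ℂ) : E) 0 = 2
    rw [lp.single_apply_self]; simp [wL]
  rw [h3] at h2
  rw [h1, mul_one] at h
  have h4 : ‖(2 : ℂ)‖ = 2 := by norm_num
  linarith

lemma norm_LUi : 2 ≤ ‖((LU⁻¹ : (E →L[ℂ] E)ˣ) : E →L[ℂ] E)‖ := by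
  have h := ((LU⁻¹ : (E →L[ℂ] E)ˣ) : E →L[ℂ] E).le_opNorm (lp.single 2 1 (1 : ℂ))
  have h1 : ‖(lp.single 2 1 (1 : ℂ) : E)‖ = 1 := by
    rw [lp.norm_single (by norm_num)]; simp
  have h2 : ‖(((LU⁻¹ : (E →L[ℂ] E)ˣ) : E →L[ℂ] E) (lp.single 2 1 (1 : ℂ))) 1‖ ≤
      ‖((LU⁻¹ : (E →L[ℂ] E)ˣ) : E →L[ℂ] E) (lp.single 2 1 (1 : ℂ))‖ :=
    lp.norm_apply_le_norm (by norm_num) _ _
  have h3 : (((LU⁻¹ : (E →L[ℂ] E)ˣ) : E →L[ℂ] E) (lp.single 2 1 (1 : ℂ))) 1 = 2 := by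
    show wLi 1 * (lp.single 2 1 (1 : ℂ) : E) 1 = 2
    rw [lp.single_apply_self]; simp [wLi]
  rw [h3] at h2
  rw [h1, mul_one] at h
  have h4 : ‖(2 : ℂ)‖ = 2 := by norm_num
  linarith

/-- The negation of the preceding statement: On a complex Hilbert space, if T = L⁻¹SL with S an isometry and ‖Lx‖ = lim ‖Tⁿx‖ for all x, then ‖L‖‖L⁻¹‖ equals the infimum of ‖M‖‖M⁻¹‖ over all similarities M of T to an isometry. -/
theorem result :
    ¬ (∀ (H : Type) [NormedAddCommGroup H] [InnerProductSpace ℂ H] [CompleteSpace H]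
      (T S : H →L[ℂ] H) (L : (H →L[ℂ] H)ˣ),
      (∀ x : H, ‖S x‖ = ‖x‖) →
      T = (↑L⁻¹ : H →L[ℂ] H) * S * (↑L : H →L[ℂ] H) →
      (∀ x : H, Tendsto (fun n : ℕ => ‖(T ^ n) x‖) atTop (𝓝 ‖(↑L : H →L[ℂ] H) x‖)) →
      ‖(↑L : H →L[ℂ] H)‖ * ‖(↑L⁻¹ : H →L[ℂ] H)‖ =
        sInf {r : ℝ | ∃ (M : (H →L[ℂ] H)ˣ) (S' : H →L[ℂ] H),
          (∀ x : H, ‖S' x‖ = ‖x‖) ∧
          T = (↑M⁻¹ : H →L[ℂ] H) * S' * (↑M : H →L[ℂ] H) ∧
          r = ‖(↑M : H →L[ℂ] H)‖ * ‖(↑M⁻¹ : H →L[ℂ] H)‖}) := by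
  intro hmain
  have h := hmain E T S LU S_norm T_eq (fun x => by
    apply tendsto_const_nhds.congr'
    filter_upwards [eventually_ge_atTop 1] with n hn
    obtain ⟨m, rfl⟩ : ∃ m, n = m + 1 := ⟨n - 1, by omega⟩
    rw [T_pow]
    show _ = ‖(S ^ (m + 1)) ((LU : E →L[ℂ] E) x)‖
    rw [S_pow_norm])
  have h1 : (4 : ℝ) ≤ ‖(LU : E →L[ℂ] E)‖ * ‖((LU⁻¹ : (E →L[ℂ] E)ˣ) : E →L[ℂ] E)‖ := by
    have := mul_le_mul norm_LU norm_LUi (by norm_num) (norm_nonneg _)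
    linarith
  have h2 : sInf {r : ℝ | ∃ (M : (E →L[ℂ] E)ˣ) (S' : E →L[ℂ] E),
          (∀ x : E, ‖S' x‖ = ‖x‖) ∧
          T = (↑M⁻¹ : E →L[ℂ] E) * S' * (↑M : E →L[ℂ] E) ∧
          r = ‖(↑M : E →L[ℂ] E)‖ * ‖(↑M⁻¹ : E →L[ℂ] E)‖} ≤
        ‖(MU : E →L[ℂ] E)‖ * ‖((MU⁻¹ : (E →L[ℂ] E)ˣ) : E →L[ℂ] E)‖ := by
    apply csInf_le
    · refine ⟨0, ?_⟩
      rintro r ⟨M, S', _, _, rfl⟩
      positivity
    · exact ⟨MU, S, S_norm, T_eq', rfl⟩
  have h3 : ‖(MU : E →L[ℂ] E)‖ ≤ 2 := diag_norm_le wM 2 (by norm_num) wM_le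
  have h4 : ‖((MU⁻¹ : (E →L[ℂ] E)ˣ) : E →L[ℂ] E)‖ ≤ 1 := diag_norm_le wMi 1 (by norm_num) wMi_le
  have h5 : ‖(MU : E →L[ℂ] E)‖ * ‖((MU⁻¹ : (E →L[ℂ] E)ˣ) : E →L[ℂ] E)‖ ≤ 2 * 1 :=
    mul_le_mul h3 h4 (norm_nonneg _) (by norm_num)
  linarith

end Pool.Agent.S02938
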