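import Pool.Statements.S02960
import Pool.Agent.Helper470.Final

set_option autoImplicit false
open Pool Pool.MP_3c0c89_an

namespace Pool.Agent.S02960

/-- The negation of the preceding statement: There is a k-th order rational recurrence with nonnegative coefficients, positive coefficient sums and x_n present, all of whose positive solutions share a common period, which is not a step-ℓ, rescaled copy of any of the five known periodic equations. -/
theorem result :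
    ¬ (∃ k : ℕ, 1 ≤ k ∧ ∃ A B : Fin (k + 1) → ℝ,
    (∀ i, 0 ≤ A i) ∧ (∀ i, 0 ≤ B i) ∧ 0 < ∑ i, A i ∧ 0 < ∑ i, B i ∧
    A 1 ^ 2 + B 1 ^ 2 ≠ 0 ∧
    (∃ p : ℕ, 1 ≤ p ∧ ∀ x : ℕ → ℝ, (∀ i, i < k → 0 < x i) →
      (∀ n, x (n + k) =
        (A 0 + ∑ i : Fin k, A i.succ * x (n + (i : ℕ))) /
        (B 0 + ∑ i : Fin k, B i.succ * x (n + (i : ℕ)))) →
      ∀ n, x (n + p) = x n) ∧
    ¬ ∃ ℓ : ℕ, 1 ≤ ℓ ∧ ∃ a : ℝ, 0 < a ∧
      ((k = ℓ ∧ ∀ y : ℕ → ℝ, (∀ i, 0 < y i) →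
          (A 0 + ∑ i : Fin k, A i.succ * y (i : ℕ)) /
          (B 0 + ∑ i : Fin k, B i.succ * y (i : ℕ)) = a * (y 0 / a)) ∨
       (k = ℓ ∧ ∀ y : ℕ → ℝ, (∀ i, 0 < y i) →
          (A 0 + ∑ i : Fin k, A i.succ * y (i : ℕ)) /
          (B 0 + ∑ i : Fin k, B i.succ * y (i : ℕ)) = a * (1 / (y 0 / a))) ∨
       (k = 2 * ℓ ∧ ∀ y : ℕ → ℝ, (∀ i, 0 < y i) →
          (A 0 + ∑ i : Fin k, A i.succ * y (i : ℕ)) /
          (B 0 + ∑ i : Fin k, B i.succ * y (i : ℕ)) = a * ((y ℓ / a) / (y 0 / a))) ∨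
       (k = 2 * ℓ ∧ ∀ y : ℕ → ℝ, (∀ i, 0 < y i) →
          (A 0 + ∑ i : Fin k, A i.succ * y (i : ℕ)) /
          (B 0 + ∑ i : Fin k, B i.succ * y (i : ℕ)) = a * ((1 + y ℓ / a) / (y 0 / a))) ∨
       (k = 3 * ℓ ∧ ∀ y : ℕ → ℝ, (∀ i, 0 < y i) →
          (A 0 + ∑ i : Fin k, A i.succ * y (i : ℕ)) /
          (B 0 + ∑ i : Fin k, B i.succ * y (i : ℕ)) =
            a * ((1 + y ℓ / a + y (2 * ℓ) / a) / (y 0 / a))))) := by
  rintro ⟨k, hk, A, B, hA, hB, hAs, hBs, hne, ⟨p, hp, hper⟩, hnot⟩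
  apply hnot
  obtain ⟨k, rfl⟩ : ∃ k', k = k' + 1 := ⟨k - 1, by omega⟩
  obtain ⟨a, ha⟩ : ∃ a : ℕ → ℝ, a = fun j => if h : j < k + 1 then A (Fin.succ ⟨j, h⟩) else 0 :=
    ⟨_, rfl⟩
  obtain ⟨c, hc⟩ : ∃ c : ℕ → ℝ, c = fun j => if h : j < k + 1 then B (Fin.succ ⟨j, h⟩) else 0 :=
    ⟨_, rfl⟩
  have haf : ∀ i : Fin (k + 1), A i.succ = a i := by
    intro i
    rw [ha]
    simp only [Fin.is_lt, dif_pos, Fin.eta]
  have hcf : ∀ i : Fin (k + 1), B i.succ = c i := by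
    intro i
    rw [hc]
    simp only [Fin.is_lt, dif_pos, Fin.eta]
  have hann : ∀ j, 0 ≤ a j := by
    intro j
    rw [ha]
    by_cases h : j < k + 1
    · simp only [h, dif_pos]; exact hA _
    · simp only [h, dif_neg, not_false_iff]; exact le_refl _
  have hcnn : ∀ j, 0 ≤ c j := by
    intro j
    rw [hc]
    by_cases h : j < k + 1
    · simp only [h, dif_pos]; exact hB _
    · simp only [h, dif_neg, not_false_iff]; exact le_refl _
  have sa : ∀ y : ℕ → ℝ, ∑ i : Fin (k + 1), A i.succ * y (i : ℕ) =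
      ∑ j ∈ Finset.range (k + 1), a j * y j := by
    intro y
    rw [← Fin.sum_univ_eq_sum_range (fun j => a j * y j)]
    apply Finset.sum_congr rfl
    intro i _
    rw [haf]
  have sc : ∀ y : ℕ → ℝ, ∑ i : Fin (k + 1), B i.succ * y (i : ℕ) =
      ∑ j ∈ Finset.range (k + 1), c j * y j := by
    intro y
    rw [← Fin.sum_univ_eq_sum_range (fun j => c j * y j)]
    apply Finset.sum_congr rfl
    intro i _
    rw [hcf]
  have hA1 : A 1 = a 0 := by
    have := haf 0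
    simpa using this
  have hB1 : B 1 = c 0 := by
    have := hcf 0
    simpa using this
  have hAs' : 0 < A 0 + ∑ j ∈ Finset.range (k + 1), a j := by
    rw [Fin.sum_univ_succ] at hAs
    have := sa (fun _ => 1)
    simp only [mul_one] at this
    rw [← this]
    exact hAs
  have hBs' : 0 < B 0 + ∑ j ∈ Finset.range (k + 1), c j := by
    rw [Fin.sum_univ_succ] at hBs
    have := sc (fun _ => 1)
    simp only [mul_one] at this
    rw [← this]
    exact hBs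
  have hFr : ∀ y : ℕ → ℝ, (A 0 + ∑ i : Fin (k + 1), A i.succ * y (i : ℕ)) /
      (B 0 + ∑ i : Fin (k + 1), B i.succ * y (i : ℕ)) =
      Pool.Agent.Helper470.Reduce.Fr (k + 1) (A 0) (B 0) a c y := by
    intro y
    rw [sa, sc]
    rfl
  have hper' : Pool.Agent.Helper470.Reduce.PerF (k + 1) (A 0) (B 0) a c p := by
    intro x hx hr
    apply hper x hx
    intro n
    rw [hr n, ← hFr]
  obtain ⟨l, hl, s, hs, hcases⟩ := Pool.Agent.Helper470.Reduce.main (k + 1) (by omega) (A 0) (B 0)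
    a c (hA 0) (hB 0) hann hcnn hAs' hBs' (by rw [← hA1, ← hB1]; exact hne) p hp hper'
  refine ⟨l, hl, s, hs, ?_⟩
  simp only [hFr]
  exact hcases

end Pool.Agent.S02960
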