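import Pool.Statements.S02962
-- import your own Pool.Agent.* helpers here

set_option autoImplicit false
open MeasureTheory Filter Topology
open Pool Pool.MP_3c0e9a_an

namespace Pool.Agent.S02962

section Helpers

open ProbabilityTheory

/-- Lebesgue measure on [0,1]. -/
noncomputable abbrev mu : Measure ℝ := volume.restrict (Set.Icc (0:ℝ) 1)

instance : IsProbabilityMeasure mu := ⟨by simp [mu]⟩

/-- An i.i.d. sequence of geometric variables on `[0,1]`. -/
lemma exists_iid_nat : ∃ Z : ℕ → ℝ → ℕ, (∀ n, Measurable (Z n)) ∧ iIndepFun Z mu ∧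
    ∀ n j, mu (Z n ⁻¹' {j}) = ENNReal.ofReal ((1/2 : ℝ)^(j+1)) := by
  let half : unitInterval := ⟨1/2, by norm_num, by norm_num⟩
  have hne : half ≠ 0 := by
    intro h
    have := congrArg Subtype.val h
    norm_num [half] at this
  let ν := geometricMeasure half
  obtain ⟨Φ, hΦ, hmap⟩ := Measure.exists_measurable_map_eq (Measure.infinitePi (fun _ : ℕ => ν))
  have hproj : Measurable (Set.projIcc (0:ℝ) 1 zero_le_one) := continuous_projIcc.measurable
  have hmuproj : mu.map (Set.projIcc (0:ℝ) 1 zero_le_one) = (volume : Measure unitInterval) := by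
    have h1 := unitInterval.measurePreserving_coe.map_eq
    have : mu = (volume : Measure unitInterval).map ((↑) : unitInterval → ℝ) := h1.symm
    rw [this, Measure.map_map hproj measurable_subtype_coe]
    have : (Set.projIcc (0:ℝ) 1 zero_le_one) ∘ ((↑) : unitInterval → ℝ) = id := by
      ext x
      simp
    rw [this, Measure.map_id]
  let Z : ℕ → ℝ → ℕ := fun n s => Φ (Set.projIcc (0:ℝ) 1 zero_le_one s) n
  have hZm : ∀ n, Measurable (Z n) := fun n =>
    (measurable_pi_apply n).comp (hΦ.comp hproj)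
  have hjoint : mu.map (fun s n => Z n s) = Measure.infinitePi (fun _ : ℕ => ν) := by
    have : (fun s n => Z n s) = Φ ∘ (Set.projIcc (0:ℝ) 1 zero_le_one) := rfl
    rw [this, ← Measure.map_map hΦ hproj, hmuproj, hmap]
  have hlaw : ∀ n, mu.map (Z n) = ν := by
    intro n
    have h1 : Z n = (fun f : ℕ → ℕ => f n) ∘ (fun s n => Z n s) := rfl
    rw [h1, ← Measure.map_map (measurable_pi_apply n) (measurable_pi_iff.2 hZm), hjoint]
    exact (measurePreserving_eval_infinitePi (fun _ : ℕ => ν) n).map_eq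
  refine ⟨Z, hZm, ?_, ?_⟩
  · rw [iIndepFun_iff_map_fun_eq_infinitePi_map hZm, hjoint]
    congr
    funext n
    exact (hlaw n).symm
  · intro n j
    rw [← Measure.map_apply (hZm n) (measurableSet_singleton j), hlaw n,
      geometricMeasure_singleton hne]
    congr 1
    simp only [half]
    rw [pow_succ]
    norm_num


/-- integration over a set as a functional on `L^1` -/
noncomputable def setFun (D : Set ℝ) : Lp ℝ 1 mu →L[ℝ] ℝ :=
  LinearMap.mkContinuous
    { toFun := fun x => ∫ s in D, x s ∂mu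
      map_add' := by
        intro x y
        have hx : Integrable x mu := L1.integrable_coeFn x
        have hy : Integrable y mu := L1.integrable_coeFn y
        rw [← integral_add hx.integrableOn hy.integrableOn]
        exact integral_congr_ae (ae_restrict_of_ae (Lp.coeFn_add x y))
      map_smul' := by
        intro c x
        rw [RingHom.id_apply, smul_eq_mul, ← integral_const_mul]
        exact integral_congr_ae (ae_restrict_of_ae (Lp.coeFn_smul c x)) } 1
    (by
      intro x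
      have hx : Integrable x mu := L1.integrable_coeFn x
      rw [one_mul, L1.norm_eq_integral_norm]
      calc ‖∫ s in D, x s ∂mu‖ ≤ ∫ s in D, ‖x s‖ ∂mu := norm_integral_le_integral_norm _
        _ ≤ ∫ s, ‖x s‖ ∂mu := setIntegral_le_integral hx.norm (ae_of_all _ fun _ => norm_nonneg _))

lemma setFun_apply (D : Set ℝ) (x : Lp ℝ 1 mu) : setFun D x = ∫ s in D, x s ∂mu := rfl

section

variable (Z : ℕ → ℝ → ℕ) (hZ : ∀ n, Measurable (Z n))

/-- the sets `S a j` -/
def S (a j : ℕ) : Set ℝ := Z a ⁻¹' {2 * j + 3}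

include hZ in
lemma S_meas (a j : ℕ) : MeasurableSet (S Z a j) := hZ a (measurableSet_singleton _)

/-- the vectors -/
noncomputable def vec (n j : ℕ) : Lp ℝ 1 mu :=
  (4:ℝ)^(j+2) • (indicatorConstLp 1 (S_meas Z hZ (2*n) j) (measure_ne_top _ _) (1:ℝ)
    - indicatorConstLp 1 (S_meas Z hZ (2*n+1) j) (measure_ne_top _ _) (1:ℝ))

variable (hind : iIndepFun Z mu) (hlaw : ∀ n j, mu (Z n ⁻¹' {j}) = ENNReal.ofReal ((1/2 : ℝ)^(j+1)))

include hlaw in
lemma S_real (a j : ℕ) : mu.real (S Z a j) = (1/4 : ℝ)^(j+2) := by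
  rw [measureReal_def, S, hlaw, ENNReal.toReal_ofReal (by positivity)]
  have : 2 * j + 3 + 1 = 2 * (j + 2) := by ring
  rw [this, pow_mul]
  norm_num

include hind hlaw in
lemma S_inter (a b i j : ℕ) (hab : a ≠ b) :
    mu.real (S Z a i ∩ S Z b j) = (1/4 : ℝ)^(i+2) * (1/4 : ℝ)^(j+2) := by
  have h1 := (hind.indepFun hab).measure_inter_preimage_eq_mul {2 * i + 3} {2 * j + 3}
    (measurableSet_singleton _) (measurableSet_singleton _)
  rw [← S_real Z hlaw a i, ← S_real Z hlaw b j, measureReal_def, measureReal_def, measureReal_def,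
    ← ENNReal.toReal_mul]
  congr 1

include hlaw in
lemma norm_vec_le (n j : ℕ) : ‖vec Z hZ n j‖ ≤ 2 := by
  rw [vec, norm_smul]
  have h1 : ∀ a, ‖indicatorConstLp 1 (S_meas Z hZ a j) (measure_ne_top mu _) (1:ℝ)‖ = (1/4:ℝ)^(j+2) := by
    intro a
    rw [norm_indicatorConstLp one_ne_zero ENNReal.one_ne_top, S_real Z hlaw]
    simp
  have h2 := norm_sub_le (indicatorConstLp 1 (S_meas Z hZ (2*n) j) (measure_ne_top mu _) (1:ℝ))
    (indicatorConstLp 1 (S_meas Z hZ (2*n+1) j) (measure_ne_top mu _) (1:ℝ))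
  rw [h1, h1] at h2
  have h3 : ‖(4:ℝ)^(j+2)‖ = (4:ℝ)^(j+2) := by
    rw [Real.norm_of_nonneg (by positivity)]
  rw [h3]
  calc (4:ℝ)^(j+2) * _ ≤ (4:ℝ)^(j+2) * ((1/4:ℝ)^(j+2) + (1/4:ℝ)^(j+2)) := by gcongr
    _ = 2 * (4 * (1/4) : ℝ)^(j+2) := by rw [mul_pow]; ring
    _ = 2 := by norm_num

/-- pointwise representative -/
noncomputable def hfun (n j : ℕ) (s : ℝ) : ℝ :=
  (4:ℝ)^(j+2) * ((S Z (2*n) j).indicator 1 s - (S Z (2*n+1) j).indicator 1 s)

lemma vec_coe (n j : ℕ) : vec Z hZ n j =ᵐ[mu] hfun Z n j := by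
  have h0 := indicatorConstLp_coeFn (p := 1) (hs := S_meas Z hZ (2*n) j)
    (hμs := measure_ne_top mu _) (c := (1:ℝ))
  have h1 := indicatorConstLp_coeFn (p := 1) (hs := S_meas Z hZ (2*n+1) j)
    (hμs := measure_ne_top mu _) (c := (1:ℝ))
  have h2 := Lp.coeFn_sub (indicatorConstLp 1 (S_meas Z hZ (2*n) j) (measure_ne_top mu _) (1:ℝ))
    (indicatorConstLp 1 (S_meas Z hZ (2*n+1) j) (measure_ne_top mu _) (1:ℝ))
  have h3 := Lp.coeFn_smul ((4:ℝ)^(j+2)) (indicatorConstLp 1 (S_meas Z hZ (2*n) j) (measure_ne_top mu _) (1:ℝ)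
    - indicatorConstLp 1 (S_meas Z hZ (2*n+1) j) (measure_ne_top mu _) (1:ℝ))
  filter_upwards [h0, h1, h2, h3] with s hs0 hs1 hs2 hs3
  rw [vec, hs3, Pi.smul_apply, hs2, Pi.sub_apply, hs0, hs1, hfun, smul_eq_mul]
  rfl

include hZ in
lemma hfun_meas (n j : ℕ) : Measurable (hfun Z n j) := by
  unfold hfun
  have h1 : Measurable ((S Z (2*n) j).indicator (1 : ℝ → ℝ)) :=
    measurable_one.indicator (S_meas Z hZ _ _)
  have h2 : Measurable ((S Z (2*n+1) j).indicator (1 : ℝ → ℝ)) :=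
    measurable_one.indicator (S_meas Z hZ _ _)
  exact (h1.sub h2).const_mul _

lemma hfun_bdd (n j : ℕ) (s : ℝ) : |hfun Z n j s| ≤ 4^(j+2) := by
  unfold hfun
  rw [abs_mul, abs_of_pos (by positivity : (0:ℝ) < 4^(j+2))]
  have : |(S Z (2*n) j).indicator (1 : ℝ → ℝ) s - (S Z (2*n+1) j).indicator (1 : ℝ → ℝ) s| ≤ 1 := by
    simp only [Set.indicator, Pi.one_apply]
    split_ifs <;> norm_num
  calc (4:ℝ)^(j+2) * _ ≤ 4^(j+2) * 1 := by gcongr
    _ = _ := mul_one _

include hZ hind hlaw in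
lemma integral_hfun_mul (n m j : ℕ) (h : n ≠ m) : ∫ s, hfun Z n j s * hfun Z m j s ∂mu = 0 := by
  have key : ∀ s, hfun Z n j s * hfun Z m j s = (4:ℝ)^(j+2) * (4:ℝ)^(j+2) *
      ((S Z (2*n) j ∩ S Z (2*m) j).indicator (1 : ℝ → ℝ) s
      - (S Z (2*n) j ∩ S Z (2*m+1) j).indicator (1 : ℝ → ℝ) s
      - (S Z (2*n+1) j ∩ S Z (2*m) j).indicator (1 : ℝ → ℝ) s
      + (S Z (2*n+1) j ∩ S Z (2*m+1) j).indicator (1 : ℝ → ℝ) s) := by
    intro s
    simp only [Set.inter_indicator_one, Pi.mul_apply, hfun]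
    ring
  simp_rw [key]
  rw [integral_const_mul]
  have hm : ∀ a, MeasurableSet (S Z a j) := fun a => S_meas Z hZ a j
  have hi : ∀ a b, Integrable ((S Z a j ∩ S Z b j).indicator (1 : ℝ → ℝ)) mu := fun a b =>
    (integrable_const (1:ℝ)).indicator ((hm a).inter (hm b))
  have h4 : ∀ A B C D : ℝ → ℝ, Integrable A mu → Integrable B mu → Integrable C mu →
      Integrable D mu → ∫ s, (A s - B s - C s + D s) ∂mu
        = ∫ s, A s ∂mu - ∫ s, B s ∂mu - ∫ s, C s ∂mu + ∫ s, D s ∂mu := by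
    intro A B C D hA hB hC hD
    rw [integral_add (f := fun s => A s - B s - C s) ((hA.sub hB).sub hC) hD,
      integral_sub (f := fun s => A s - B s) (hA.sub hB) hC, integral_sub hA hB]
  rw [h4 _ _ _ _ (hi _ _) (hi _ _) (hi _ _) (hi _ _)]
  rw [integral_indicator_one ((hm _).inter (hm _)), integral_indicator_one ((hm _).inter (hm _)),
    integral_indicator_one ((hm _).inter (hm _)), integral_indicator_one ((hm _).inter (hm _)),
    S_inter Z hind hlaw _ _ _ _ (by omega), S_inter Z hind hlaw _ _ _ _ (by omega),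
    S_inter Z hind hlaw _ _ _ _ (by omega), S_inter Z hind hlaw _ _ _ _ (by omega)]
  ring

include hZ in
lemma hfun_integrable_mul (n m j : ℕ) : Integrable (fun s => hfun Z n j s * hfun Z m j s) mu := by
  refine Integrable.of_bound (C := 4^(j+2) * 4^(j+2))
    ((hfun_meas Z hZ n j).mul (hfun_meas Z hZ m j)).aestronglyMeasurable (ae_of_all _ fun s => ?_)
  rw [Real.norm_eq_abs, abs_mul]
  exact mul_le_mul (hfun_bdd Z n j s) (hfun_bdd Z m j s) (abs_nonneg _) (by positivity)

include hZ hind hlaw in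
lemma integral_sq_le (F : Finset ℕ) (a : ℕ → ℝ) (j : ℕ) :
    ∫ s, (∑ n ∈ F, a n * hfun Z n j s)^2 ∂mu ≤ (4^(j+2))^2 * ∑ n ∈ F, (a n)^2 := by
  have h1 : ∀ s, (∑ n ∈ F, a n * hfun Z n j s)^2 =
      ∑ n ∈ F, ∑ m ∈ F, a n * a m * (hfun Z n j s * hfun Z m j s) := by
    intro s
    rw [sq, Finset.sum_mul_sum]
    refine Finset.sum_congr rfl fun n _ => Finset.sum_congr rfl fun m _ => by ring
  simp_rw [h1]
  rw [integral_finsetSum _ fun n _ => integrable_finsetSum _ fun m _ =>
    (hfun_integrable_mul Z hZ n m j).const_mul _]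
  rw [Finset.mul_sum]
  refine Finset.sum_le_sum fun n hn => ?_
  rw [integral_finsetSum _ fun m _ => (hfun_integrable_mul Z hZ n m j).const_mul _]
  rw [Finset.sum_eq_single_of_mem n hn]
  · rw [integral_const_mul]
    have h2 : ∫ s, hfun Z n j s * hfun Z n j s ∂mu ≤ (4^(j+2))^2 := by
      calc ∫ s, hfun Z n j s * hfun Z n j s ∂mu ≤ ∫ s, ((4:ℝ)^(j+2))^2 ∂mu := by
            refine integral_mono (hfun_integrable_mul Z hZ n n j) (integrable_const _) fun s => ?_
            have := hfun_bdd Z n j s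
            show hfun Z n j s * hfun Z n j s ≤ _
            rw [← sq, ← sq_abs]
            gcongr
        _ = _ := by simp
    nlinarith [sq_nonneg (a n)]
  · intro m _ hm
    rw [integral_const_mul, integral_hfun_mul Z hZ hind hlaw n m j (Ne.symm hm), mul_zero]

include hind hlaw in
/-- `φ (vec n j) → 0` for every functional. -/
lemma tendsto_functional (φ : Lp ℝ 1 mu →L[ℝ] ℝ) (j : ℕ) :
    Tendsto (fun n => φ (vec Z hZ n j)) atTop (𝓝 0) := by
  set a : ℕ → ℝ := fun n => φ (vec Z hZ n j) with ha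
  set M : ℝ := 4^(j+2) with hM
  have hbound : ∀ F : Finset ℕ, ∑ n ∈ F, (a n)^2 ≤ ‖φ‖^2 * M^2 := by
    intro F
    set T := ∑ n ∈ F, (a n)^2 with hT
    have hT0 : 0 ≤ T := Finset.sum_nonneg fun _ _ => sq_nonneg _
    let y : Lp ℝ 1 mu := ∑ n ∈ F, a n • vec Z hZ n j
    have hφy : φ y = T := by
      simp only [y, map_sum, map_smul, smul_eq_mul, hT]
      refine Finset.sum_congr rfl fun n _ => ?_
      rw [sq]
    have hy : y =ᵐ[mu] fun s => ∑ n ∈ F, a n * hfun Z n j s := by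
      have h1 := Lp.coeFn_fun_finsetSum F (fun n => a n • vec Z hZ n j)
      have h2 : ∀ n ∈ F, (a n • vec Z hZ n j : Lp ℝ 1 mu) =ᵐ[mu] fun s => a n * hfun Z n j s := by
        intro n _
        filter_upwards [Lp.coeFn_smul (a n) (vec Z hZ n j), vec_coe Z hZ n j] with s h3 h4
        rw [h3, Pi.smul_apply, h4, smul_eq_mul]
      have h2' : ∀ᵐ s ∂mu, ∀ n ∈ F, (a n • vec Z hZ n j : Lp ℝ 1 mu) s = a n * hfun Z n j s := by
        rw [Finset.eventually_all]
        exact h2
      filter_upwards [h1, h2'] with s h5 h6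
      rw [h5]
      exact Finset.sum_congr rfl h6
    have hnorm : ‖y‖^2 ≤ M^2 * T := by
      rw [L1.norm_eq_integral_norm]
      have h7 : ∫ s, ‖y s‖ ∂mu = ∫ s, |∑ n ∈ F, a n * hfun Z n j s| ∂mu := by
        refine integral_congr_ae ?_
        filter_upwards [hy] with s hs
        rw [hs, Real.norm_eq_abs]
      rw [h7]
      set g : ℝ → ℝ := fun s => |∑ n ∈ F, a n * hfun Z n j s| with hg
      have hgm : Measurable g := by
        have : Measurable fun s => ∑ n ∈ F, a n * hfun Z n j s :=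
          Finset.measurable_sum _ fun n _ => (hfun_meas Z hZ n j).const_mul _
        exact this.abs
      have hgb : ∀ s, ‖g s‖ ≤ ∑ n ∈ F, |a n| * M := by
        intro s
        rw [Real.norm_eq_abs, hg, abs_abs]
        refine (Finset.abs_sum_le_sum_abs _ _).trans (Finset.sum_le_sum fun n _ => ?_)
        rw [abs_mul]
        exact mul_le_mul_of_nonneg_left (hfun_bdd Z n j s) (abs_nonneg _)
      have hg2 : MemLp g 2 mu := MemLp.of_bound hgm.aestronglyMeasurable _ (ae_of_all _ hgb)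
      have h8 := variance_nonneg g mu
      rw [variance_eq_sub hg2] at h8
      have h9 : ∫ s, (g ^ 2) s ∂mu ≤ M^2 * T := by
        have := integral_sq_le Z hZ hind hlaw F a j
        refine le_trans (le_of_eq ?_) this
        refine integral_congr_ae (ae_of_all _ fun s => ?_)
        simp [hg]
      linarith
    have h10 : T ≤ ‖φ‖ * ‖y‖ := by
      rw [← hφy]
      exact (le_abs_self _).trans (φ.le_opNorm y)
    have h11 : T^2 ≤ ‖φ‖^2 * (M^2 * T) := by
      calc T^2 ≤ (‖φ‖ * ‖y‖)^2 := by gcongr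
        _ = ‖φ‖^2 * ‖y‖^2 := by ring
        _ ≤ _ := by gcongr
    rcases hT0.eq_or_lt with h12 | h12
    · rw [← h12]; positivity
    · have : T * T ≤ (‖φ‖^2 * M^2) * T := by nlinarith
      exact le_of_mul_le_mul_right this h12
  have hsum : Summable fun n => (a n)^2 :=
    summable_of_sum_le (fun _ => sq_nonneg _) hbound
  have h1 := hsum.tendsto_atTop_zero
  have h2 : Tendsto (fun n => Real.sqrt ((a n)^2)) atTop (𝓝 (Real.sqrt 0)) :=
    (Real.continuous_sqrt.tendsto 0).comp h1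
  rw [Real.sqrt_zero] at h2
  rw [tendsto_zero_iff_abs_tendsto_zero]
  refine h2.congr fun n => ?_
  rw [Real.sqrt_sq_eq_abs]
  rfl

include hZ hlaw in
lemma tail_real (n J : ℕ) : mu.real {t | J ≤ Z n t} = (1/2 : ℝ)^J := by
  have h1 : {t | J ≤ Z n t} = (⋃ j ∈ Finset.range J, Z n ⁻¹' {j})ᶜ := by
    ext t
    simp only [Set.mem_ofPred_eq, Finset.mem_range, Set.mem_compl_iff, Set.mem_iUnion,
      Set.mem_preimage, Set.mem_singleton_iff, not_exists]
    constructor
    · intro h i hi he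
      omega
    · intro h
      by_contra hlt
      exact h _ (not_le.1 hlt) rfl
  have h2 : mu.real (⋃ j ∈ Finset.range J, Z n ⁻¹' {j}) = ∑ j ∈ Finset.range J, (1/2 : ℝ)^(j+1) := by
    rw [measureReal_biUnion_finset]
    · refine Finset.sum_congr rfl fun j _ => ?_
      rw [measureReal_def, hlaw, ENNReal.toReal_ofReal (by positivity)]
    · intro i _ j _ hij
      exact Disjoint.preimage _ (by simpa using hij)
    · intro j _
      exact hZ n (measurableSet_singleton _)
  have h3 : ∀ J : ℕ, ∑ j ∈ Finset.range J, (1/2 : ℝ)^(j+1) = 1 - (1/2)^J := by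
    intro J
    induction J with
    | zero => simp
    | succ J ih => rw [Finset.sum_range_succ, ih]; ring
  rw [h1, probReal_compl_eq_one_sub, h2, h3]
  · ring
  · exact Finset.measurableSet_biUnion _ fun j _ => hZ n (measurableSet_singleton _)

include hind hlaw in
/-- the sequence converges to zero scalarly in measure -/
lemma tendstoInMeasure_vec (φ : Lp ℝ 1 mu →L[ℝ] ℝ) :
    TendstoInMeasure mu (fun n t => φ (vec Z hZ n (Z n t))) atTop (fun _ => (0:ℝ)) := by
  rw [tendstoInMeasure_iff_measureReal_norm]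
  intro ε hε
  rw [Metric.tendsto_atTop]
  intro δ hδ
  obtain ⟨J, hJ⟩ := exists_pow_lt_of_lt_one hδ (by norm_num : (1/2 : ℝ) < 1)
  have h1 : ∀ᶠ n in atTop, ∀ j ∈ Finset.range J, ‖φ (vec Z hZ n j)‖ < ε := by
    rw [Finset.eventually_all]
    intro j _
    have := (tendsto_functional Z hZ hind hlaw φ j).norm
    rw [norm_zero] at this
    exact this.eventually (gt_mem_nhds hε)
  rw [eventually_atTop] at h1
  obtain ⟨N, hN⟩ := h1
  refine ⟨N, fun n hn => ?_⟩
  rw [Real.dist_eq, sub_zero, abs_of_nonneg measureReal_nonneg]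
  refine lt_of_le_of_lt ?_ hJ
  rw [← tail_real Z hZ hlaw n J]
  refine measureReal_mono ?_
  intro t ht
  by_contra hlt
  simp only [Set.mem_ofPred_eq, not_le, sub_zero] at ht hlt
  exact absurd (hN n hn (Z n t) (Finset.mem_range.2 hlt)) (not_lt.2 ht)

end

/-- the sequence of levels: `j` is used `2^j` times -/
lemma tsum_levels_top : ∑' k : ℕ, ENNReal.ofReal ((1/2 : ℝ)^(Nat.log 2 (k+1) + 1)) = ⊤ := by
  have h1 : ∀ k : ℕ, ENNReal.ofReal (1 / (2 * ((k:ℝ)+1))) ≤ ENNReal.ofReal ((1/2 : ℝ)^(Nat.log 2 (k+1) + 1)) := by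
    intro k
    apply ENNReal.ofReal_le_ofReal
    have h2 : 2 ^ (Nat.log 2 (k+1)) ≤ k + 1 := Nat.pow_log_le_self 2 (by omega)
    have h3 : (2:ℝ) ^ (Nat.log 2 (k+1)) ≤ (k:ℝ) + 1 := by exact_mod_cast h2
    rw [one_div_pow, pow_succ]
    apply one_div_le_one_div_of_le (by positivity)
    linarith
  rw [eq_top_iff]
  refine le_trans ?_ (ENNReal.tsum_le_tsum h1)
  rw [top_le_iff]
  by_contra hne
  have hs : Summable fun k : ℕ => (1 : ℝ) / (2 * ((k:ℝ)+1)) := by
    have := ENNReal.summable_toReal hne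
    refine this.congr fun k => ?_
    rw [ENNReal.toReal_ofReal (by positivity)]
  have hs2 : Summable fun k : ℕ => (1 : ℝ) / ((k:ℝ)+1) := by
    refine (hs.mul_left 2).congr fun k => ?_
    field_simp
  have hs3 : Summable fun k : ℕ => (1 : ℝ) / (k:ℝ) := by
    rw [← summable_nat_add_iff 1]
    refine hs2.congr fun k => ?_
    push_cast
    rfl
  exact Real.not_summable_one_div_natCast hs3

lemma tsum_levels_le : ∑' k : ℕ, ENNReal.ofReal ((1/4 : ℝ)^(Nat.log 2 (k+1) + 2)) ≤ ENNReal.ofReal (1/2) := by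
  have h1 : ∀ k : ℕ, (1/4 : ℝ)^(Nat.log 2 (k+1) + 2) ≤ (1/4) * (1 / ((k:ℝ)+1)^2) := by
    intro k
    have h2 : k + 1 < 2 ^ (Nat.log 2 (k+1) + 1) := Nat.lt_pow_succ_log_self (by norm_num) _
    have h3 : (k:ℝ) + 1 ≤ (2:ℝ) ^ (Nat.log 2 (k+1) + 1) := by exact_mod_cast h2.le
    have h4 : ((k:ℝ)+1)^2 ≤ 4 ^ (Nat.log 2 (k+1) + 1) := by
      calc ((k:ℝ)+1)^2 ≤ ((2:ℝ) ^ (Nat.log 2 (k+1) + 1))^2 := by gcongr
        _ = 4 ^ (Nat.log 2 (k+1) + 1) := by rw [← pow_mul, mul_comm, pow_mul]; norm_num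
    rw [pow_succ, mul_comm, one_div_pow]
    gcongr
  have hz : HasSum (fun k : ℕ => (1:ℝ) / (((k+1 : ℕ) : ℝ))^2) (Real.pi^2/6) := by
    have := (hasSum_nat_add_iff' (f := fun n : ℕ => (1 : ℝ) / (n : ℝ) ^ 2) 1).2 hasSum_zeta_two
    simpa using this
  have hs : Summable (fun k : ℕ => (1/4:ℝ) * (1 / ((k:ℝ)+1)^2)) := by
    refine (hz.summable.mul_left (1/4)).congr fun k => ?_
    push_cast
    rfl
  calc ∑' k : ℕ, ENNReal.ofReal ((1/4 : ℝ)^(Nat.log 2 (k+1) + 2))
      ≤ ∑' k : ℕ, ENNReal.ofReal ((1/4:ℝ) * (1 / ((k:ℝ)+1)^2)) :=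
        ENNReal.tsum_le_tsum fun k => ENNReal.ofReal_le_ofReal (h1 k)
    _ = ENNReal.ofReal (∑' k : ℕ, ((1/4:ℝ) * (1 / ((k:ℝ)+1)^2))) := by
        rw [ENNReal.ofReal_tsum_of_nonneg (fun k => by positivity) hs]
    _ ≤ ENNReal.ofReal (1/2) := by
        apply ENNReal.ofReal_le_ofReal
        rw [tsum_mul_left]
        have h5 : ∑' k : ℕ, (1 / ((k:ℝ)+1)^2) = Real.pi^2/6 := by
          rw [← hz.tsum_eq]
          push_cast
          rfl
        rw [h5]
        have hpi := Real.pi_lt_d2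
        have hpi0 := Real.pi_pos
        nlinarith

end Helpers

/-- The negation of the preceding statement: Every sequence of measurable maps from [0,1] into real L^1[0,1], uniformly essentially bounded, with every functional of it tending to 0 in measure, has a subsequence with every functional of it tending to 0 almost everywhere. -/
theorem result :
    ¬ (∀ f : ℕ → ℝ → MeasureTheory.Lp ℝ 1 (MeasureTheory.volume.restrict (Set.Icc (0:ℝ) 1)),
      (∀ n, MeasureTheory.AEStronglyMeasurable (f n)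
          (MeasureTheory.volume.restrict (Set.Icc (0:ℝ) 1))) →
      (∃ C : ℝ, ∀ n, ∀ᵐ t ∂(MeasureTheory.volume.restrict (Set.Icc (0:ℝ) 1)), ‖f n t‖ ≤ C) →
      (∀ x : MeasureTheory.Lp ℝ 1 (MeasureTheory.volume.restrict (Set.Icc (0:ℝ) 1)) →L[ℝ] ℝ,
          MeasureTheory.TendstoInMeasure (MeasureTheory.volume.restrict (Set.Icc (0:ℝ) 1))
            (fun n t => x (f n t)) atTop (fun _ => (0:ℝ))) →
      ∃ φ : ℕ → ℕ, StrictMono φ ∧
        ∀ x : MeasureTheory.Lp ℝ 1 (MeasureTheory.volume.restrict (Set.Icc (0:ℝ) 1)) →L[ℝ] ℝ,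
          ∀ᵐ t ∂(MeasureTheory.volume.restrict (Set.Icc (0:ℝ) 1)),
            Tendsto (fun k => x (f (φ k) t)) atTop (𝓝 (0:ℝ))) := by
  classical
  intro H
  obtain ⟨Z, hZ, hind, hlaw⟩ := exists_iid_nat
  obtain ⟨φ, hφ, hconv⟩ := H (fun n t => vec Z hZ n (Z n t))
    (fun n => ((StronglyMeasurable.of_discrete (f := fun j => vec Z hZ n j)).comp_measurable
      (hZ n)).aestronglyMeasurable)
    ⟨2, fun n => ae_of_all _ fun t => norm_vec_le Z hZ hlaw n _⟩
    (tendstoInMeasure_vec Z hZ hind hlaw)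
  let J : ℕ → ℕ := fun k => Nat.log 2 (k+1)
  let D : Set ℝ := ⋃ k, S Z (2 * φ k) (J k)
  have hDm : MeasurableSet D := MeasurableSet.iUnion fun k => S_meas Z hZ _ _
  have key : ∀ k, 1/2 ≤ setFun D (vec Z hZ (φ k) (J k)) := by
    intro k
    have h1 : setFun D (vec Z hZ (φ k) (J k)) = (4:ℝ)^(J k+2) *
        (mu.real (S Z (2 * φ k) (J k) ∩ D) - mu.real (S Z (2 * φ k + 1) (J k) ∩ D)) := by
      rw [vec, map_smul, map_sub, setFun_apply, setFun_apply, setIntegral_indicatorConstLp hDm,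
        setIntegral_indicatorConstLp hDm]
      simp
    have h2 : S Z (2 * φ k) (J k) ∩ D = S Z (2 * φ k) (J k) :=
      Set.inter_eq_left.2 (Set.subset_iUnion (fun k => S Z (2 * φ k) (J k)) k)
    have h3 : mu.real (S Z (2 * φ k + 1) (J k) ∩ D) ≤ (1/4 : ℝ)^(J k+2) * (1/2) := by
      have h4 : mu (S Z (2 * φ k + 1) (J k) ∩ D) ≤
          ENNReal.ofReal ((1/4 : ℝ)^(J k+2)) * ENNReal.ofReal (1/2) := by
        calc mu (S Z (2 * φ k + 1) (J k) ∩ D)
            = mu (⋃ l, S Z (2 * φ k + 1) (J k) ∩ S Z (2 * φ l) (J l)) := by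
              rw [Set.inter_iUnion]
          _ ≤ ∑' l, mu (S Z (2 * φ k + 1) (J k) ∩ S Z (2 * φ l) (J l)) := measure_iUnion_le _
          _ = ∑' l, ENNReal.ofReal ((1/4 : ℝ)^(J k+2)) * ENNReal.ofReal ((1/4 : ℝ)^(J l+2)) := by
              congr 1
              ext l
              have := S_inter Z hind hlaw (2 * φ k + 1) (2 * φ l) (J k) (J l) (by omega)
              rw [← ENNReal.ofReal_mul (by positivity), ← this, ofReal_measureReal]
          _ = ENNReal.ofReal ((1/4 : ℝ)^(J k+2)) * ∑' l, ENNReal.ofReal ((1/4 : ℝ)^(J l+2)) :=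
              ENNReal.tsum_mul_left
          _ ≤ _ := by gcongr; exact tsum_levels_le
      rw [← ENNReal.ofReal_mul (by positivity)] at h4
      exact ENNReal.toReal_le_of_le_ofReal (by positivity) h4
    rw [h1, h2, S_real Z hlaw]
    have h5 : (4:ℝ)^(J k+2) * (1/4 : ℝ)^(J k+2) = 1 := by
      rw [← mul_pow]; norm_num
    have h6 : (0:ℝ) < (4:ℝ)^(J k+2) := by positivity
    nlinarith
  have hV : mu (limsup (fun k => Z (φ k) ⁻¹' {J k}) atTop) = 1 := by
    apply ProbabilityTheory.measure_limsup_eq_one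
    · intro k
      exact hZ _ (measurableSet_singleton _)
    · rw [ProbabilityTheory.iIndepSet_iff_meas_biInter fun k => hZ _ (measurableSet_singleton _)]
      intro s
      exact (hind.precomp hφ.injective).measure_inter_preimage_eq_mul s
        (fun k _ => measurableSet_singleton _)
    · simp_rw [hlaw]
      exact tsum_levels_top
  have hc := hconv (setFun D)
  have hV' : ∀ᵐ t ∂mu, t ∈ limsup (fun k => Z (φ k) ⁻¹' {J k}) atTop := by
    exact (mem_ae_iff_prob_eq_one (MeasurableSet.measurableSet_limsup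
      fun k => hZ _ (measurableSet_singleton _))).2 hV
  have hfalse : ∀ᵐ t ∂mu, False := by
    filter_upwards [hc, hV'] with t ht1 ht2
    rw [mem_limsup_iff_frequently_mem] at ht2
    have h7 : ∀ᶠ k in atTop, setFun D (vec Z hZ (φ k) (Z (φ k) t)) < 1/2 :=
      ht1.eventually (gt_mem_nhds (by norm_num))
    obtain ⟨k, hk1, hk2⟩ := (ht2.and_eventually h7).exists
    have h8 : Z (φ k) t = J k := hk1
    rw [h8] at hk2
    exact absurd (key k) (not_le.2 hk2)
  rw [ae_iff] at hfalse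
  simp at hfalse

end Pool.Agent.S02962
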