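import Pool.Statements.S02974
import Pool.Agent.Helper795.InnerDist

set_option autoImplicit false
open MeasureTheory
open Pool Pool.MP_3d1d78_an

namespace Pool.Agent.S02974

/-- The negation of the preceding statement: For n ≥ 3, a domain Ω in ℝⁿ, and a nonconstant continuous W^{1,n} map of finite distortion whose inner distortion ∣adj Df∣ⁿ/J^{n−1} is in L^p for some p > 1, the map is open and discrete on Ω. -/
theorem result :
    ¬ (∀ (n : ℕ), 3 ≤ n → ∀ (Ω : Set (Fin n → ℝ)), IsOpen Ω → IsConnected Ω →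
  ∀ (f : (Fin n → ℝ) → (Fin n → ℝ)) (D : (Fin n → ℝ) → Matrix (Fin n) (Fin n) ℝ) (p : ℝ),
    ContinuousOn f Ω →
    (∀ i, MemLp (fun x => f x i) ((n : ℕ) : ENNReal) (volume.restrict Ω)) →
    (∀ i j, MemLp (fun x => D x i j) ((n : ℕ) : ENNReal) (volume.restrict Ω)) →
    (∀ φ : (Fin n → ℝ) → ℝ, ContDiff ℝ ((⊤ : ℕ∞) : WithTop ℕ∞) φ → HasCompactSupport φ →
      tsupport φ ⊆ Ω →
      ∀ i j, ∫ x in Ω, f x i * fderiv ℝ φ x (Pi.single j 1) = - ∫ x in Ω, D x i j * φ x) →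
    (∀ᵐ x ∂(volume.restrict Ω), 0 ≤ (D x).det ∧ ((D x).det = 0 → D x = 0)) →
    1 < p →
    MemLp (fun x => if 0 < (D x).det then
        (∑ i, ∑ j, ((D x).adjugate i j) ^ 2) ^ ((n : ℝ) / 2) / ((D x).det) ^ (n - 1)
      else 1) (ENNReal.ofReal p) (volume.restrict Ω) →
    (¬ ∃ c, ∀ x ∈ Ω, f x = c) →
    (∀ U ⊆ Ω, IsOpen U → IsOpen (f '' U)) ∧
    (∀ x ∈ Ω, ∃ ε > 0, ∀ y ∈ Ω, dist y x < ε → f y = f x → y = x)) :=
  Pool.Agent.Helper795.InnerDist.main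

end Pool.Agent.S02974
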