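import Pool.Statements.S02976
import Pool.Agent.Helper550.Semi
import Pool.Agent.Helper550.Real

set_option autoImplicit false
open Pool Pool.MP_3d411c_an

namespace Pool.Agent.S02976

/-- The negation of the preceding statement: Let R be a commutative complex Banach algebra in which every element is quasinilpotent. If R has a map a on (0,∞) with a(s+t)=a(s)a(t) that is not identically zero, then it has such a map that is also norm-continuous on (0,∞). -/
theorem result :
    ¬ (∀ (R : Type) [NonUnitalNormedCommRing R] [NormedSpace ℂ R] [IsScalarTower ℂ R R]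
      [SMulCommClass ℂ R R] [CompleteSpace R],
      (∀ x : R, spectrum ℂ (Unitization.inr x : Unitization ℂ R) ⊆ {0}) →
      (∃ a : ℝ → R, (∀ s t : ℝ, 0 < s → 0 < t → a (s + t) = a s * a t) ∧
          ∃ t : ℝ, 0 < t ∧ a t ≠ 0) →
      ∃ b : ℝ → R, (∀ s t : ℝ, 0 < s → 0 < t → b (s + t) = b s * b t) ∧
          (∃ t : ℝ, 0 < t ∧ b t ≠ 0) ∧ ContinuousOn b (Set.Ioi 0)) := by
  intro H
  obtain ⟨W, A, _, _, _, e, h, R, _, _, _, _, _, j, _, _, hj2, hinj, hspec, hno⟩ :=
    Pool.Agent.Helper550.Semi.exists_R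
  obtain ⟨a, ha1, ha2, ha3⟩ := Pool.Agent.Helper550.Semi.exists_real h
  have hpre : ∀ t : ℝ, ∃ x : R, 0 < t → j x = a t := by
    intro t
    by_cases ht : 0 < t
    · obtain ⟨x, hx⟩ := (hj2 (a t)).mpr (ha3 t ht)
      exact ⟨x, fun _ => hx⟩
    · exact ⟨0, fun h => absurd h ht⟩
  choose p hp using hpre
  apply hno
  apply H R hspec
  refine ⟨p, fun s t hs ht => ?_, 1, one_pos, fun h0 => ?_⟩
  · apply hinj
    rw [map_mul, hp _ (add_pos hs ht), hp _ hs, hp _ ht, ha1 s t hs ht]
  · have h1 := hp 1 one_pos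
    rw [h0, map_zero] at h1
    exact ha2 1 one_pos h1.symm

end Pool.Agent.S02976
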