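import Pool.Statements.S02986
import Pool.Agent.H314.Dir.Dirichlet
import Pool.Agent.H314.Dir.Unif
import Pool.Agent.H314.Dir.DomF
import Pool.Agent.H314.Dir.Sup
import Pool.Agent.H314.Dir.React

set_option autoImplicit false
open Pool Pool.MP_3eb465_an

namespace Pool.Agent.S02986

open Pool.Agent.H314.Dir

/-- The negation of the preceding statement: For a C^{1,γ} reaction f positive on (0,1), negative above 1, with f'(0)>0 and f'(1)<0, and a uniformly C^{2,γ} epigraph in dimension at least 2, any two positive bounded solutions of −Δu=f(u) vanishing on the boundary coincide. -/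
theorem result :
    ¬ (∀ (γ : NNReal), 0 < γ → γ < 1 →
    ∀ f : ℝ → ℝ, ContDiff ℝ 1 f →
    (∀ R : ℝ, ∃ C : NNReal, HolderOnWith C γ (deriv f) (Set.Icc (-R) R)) →
    f 0 = 0 → f 1 = 0 → (∀ s : ℝ, 1 < s → f s < 0) → deriv f 1 < 0 →
    (∀ s ∈ Set.Ioo (0:ℝ) 1, 0 < f s) → 0 < deriv f 0 →
    ∀ (n : ℕ), 1 ≤ n → ∀ (φ : (Fin n → ℝ) → ℝ), Continuous φ →
    ∀ Ω : Set (EuclideanSpace ℝ (Fin (n+1))),
      Ω = {x | φ (fun i => x.ofLp (Fin.castSucc i)) < x.ofLp (Fin.last n)} →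
    (∃ r : ℝ, 0 < r ∧ ∃ M : NNReal, ∀ p ∈ frontier Ω,
      ∃ ν : EuclideanSpace ℝ (Fin (n+1)), ‖ν‖ = 1 ∧
      ∃ g : EuclideanSpace ℝ (Fin (n+1)) → ℝ, ContDiff ℝ 2 g ∧
        (∀ x, abs (g x) ≤ (M:ℝ) ∧ ‖fderiv ℝ g x‖ ≤ (M:ℝ) ∧
          ‖iteratedFDeriv ℝ 2 g x‖ ≤ (M:ℝ)) ∧
        HolderWith M γ (iteratedFDeriv ℝ 2 g) ∧
        ∀ q ∈ Metric.ball p r,
          (q ∈ Ω ↔ g (q - p - (inner ℝ (q - p) ν) • ν) < inner ℝ (q - p) ν)) →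
    ∀ u v : EuclideanSpace ℝ (Fin (n+1)) → ℝ,
      (ContDiffOn ℝ 2 u Ω ∧ ContinuousOn u (closure Ω) ∧ (∀ x ∈ frontier Ω, u x = 0) ∧
        (∀ x ∈ Ω, 0 < u x) ∧ (∃ C : ℝ, ∀ x ∈ Ω, abs (u x) ≤ C) ∧
        ∀ x ∈ Ω, -(Finset.univ.sum (fun i : Fin (n+1) =>
          iteratedFDeriv ℝ 2 u x (fun _ => EuclideanSpace.single i (1:ℝ)))) = f (u x)) →
      (ContDiffOn ℝ 2 v Ω ∧ ContinuousOn v (closure Ω) ∧ (∀ x ∈ frontier Ω, v x = 0) ∧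
        (∀ x ∈ Ω, 0 < v x) ∧ (∃ C : ℝ, ∀ x ∈ Ω, abs (v x) ≤ C) ∧
        ∀ x ∈ Ω, -(Finset.univ.sum (fun i : Fin (n+1) =>
          iteratedFDeriv ℝ 2 v x (fun _ => EuclideanSpace.single i (1:ℝ)))) = f (v x)) →
      ∀ x ∈ Ω, u x = v x) := by
  intro hall
  set Ω : Set EX := {X : EX | FF X < 0} with hΩd
  have hΩo : IsOpen Ω := isOpen_lt DF.contDiff_FF.continuous continuous_const
  obtain ⟨c, hc, hgrad⟩ := DF.grad_FF
  obtain ⟨C, hbd⟩ := DF.bound_FF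
  have hfr : ∀ p ∈ frontier Ω, FF p = 0 := fun p hp => DF.frontier_subset hp
  have hext : ∀ p ∈ frontier Ω, ∃ r0 > 0, ∃ c', dist p c' = r0 ∧ Disjoint (Metric.ball c' r0) Ω := by
    intro p hp
    obtain ⟨r0, hr0, c', h1, h2⟩ := ext_ball FF DF.contDiff_FF c C hc hgrad hbd p (hfr p hp)
    refine ⟨r0, hr0, c', h1, ?_⟩
    rw [Set.disjoint_left]
    intro x hx hxΩ
    have h3 := h2 x hx
    have h4 : FF x < 0 := hxΩ
    linarith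
  have hconn : IsPreconnected Ω := DF.isPreconnected_Omega
  have hVout : ∀ a : ℝ, 0 ≤ a → ∀ x ∉ Ω, Vf a x = 0 := by
    intro a ha x hx
    by_contra hne
    exact hx (Sb.FF_neg_of_Vf_pos ha (lt_of_le_of_ne (Sb.Vf_nonneg ha x) (Ne.symm hne)))
  have hVsub : ∀ a : ℝ, 0 ≤ a → a ≤ 1 / 2 → ∀ x ∈ Ω, 0 < Vf a x →
      ContDiffAt ℝ 2 (Vf a) x ∧ - lap (Vf a) x ≤ ff (Vf a x) := by
    intro a ha ha2 x _ hx
    obtain ⟨h1, h2⟩ := Sb.Vf_sub ha hx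
    refine ⟨h1, ?_⟩
    rw [Re.ff_eq ((Sb.Vf_le ha x).trans ha2)]
    exact h2
  have hV2 : 0 < Vf (1 / 2) 0 := by rw [Sb.Vf_zero]; norm_num
  have hV4 : 0 < Vf (1 / 4) 0 := by
    have : Vf (1 / 4) 0 = 1 / 2 * Vf (1 / 2) 0 := by unfold Vf; ring
    rw [this]; positivity
  -- the small solution
  obtain ⟨u, hu1, hu2, hu3, hu4, hu5, hu6⟩ := dirichlet_exists Ω hΩo hext hconn ff 8 (by norm_num)
    Re.locallyLipschitz_ff Re.monotone_ff Re.ff_nonneg Re.ff_one (Vf (1 / 4)) Sf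
    (Sb.Vf_locallyLipschitz _) Sp.Sf_locallyLipschitz (Sb.Vf_nonneg (by norm_num))
    Sp.Vf_le_Sf Sp.Sf_le_one (hVout _ (by norm_num)) (hVsub _ (by norm_num) (by norm_num))
    (fun x hx hS => ⟨(Sp.Sf_super hx hS).1, (Re.ff_le _).trans (Sp.Sf_super hx hS).2⟩) ⟨0, hV4⟩
  -- the large solution
  obtain ⟨v, hv1, hv2, hv3, hv4, hv5, hv6⟩ := dirichlet_exists Ω hΩo hext hconn ff 8 (by norm_num)
    Re.locallyLipschitz_ff Re.monotone_ff Re.ff_nonneg Re.ff_one (Vf (1 / 2)) (fun _ => 1)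
    (Sb.Vf_locallyLipschitz _) (LocallyLipschitz.const 1) (Sb.Vf_nonneg (by norm_num))
    (fun x => (Sb.Vf_le (by norm_num) x).trans (by norm_num)) (fun _ => le_rfl)
    (hVout _ (by norm_num)) (hVsub _ (by norm_num) (by norm_num))
    (fun x _ hS => absurd hS (lt_irrefl _)) ⟨0, hV2⟩
  have h0 : (0 : EX) ∈ Ω := Sb.FF_neg_of_Vf_pos (by norm_num) hV2
  have key := hall (1 / 2) (by norm_num) (by
      rw [← NNReal.coe_lt_coe]; push_cast; norm_num) ff Re.contDiff_ff Re.holder_ff Re.ff_zero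
    Re.ff_one Re.ff_neg Re.deriv_ff_one Re.ff_pos Re.deriv_ff_zero 9 (by norm_num)
    (fun w : Fin 9 → ℝ => -Real.cos (Real.pi / 2 * w 0) *
      Real.exp (Real.sqrt (1000000 + ∑ i : Fin 8, (w i.succ) ^ 2)) -
      (1000000 + ∑ i : Fin 8, (w i.succ) ^ 2)) (by fun_prop) Ω
    (by ext X; exact DF.FF_neg_iff X)
    (by
      obtain ⟨r, hr, M, hM⟩ := unif_graph FF DF.contDiff_FF c C hc hgrad hbd (1 / 2)
        (by norm_num) (by rw [← NNReal.coe_lt_coe]; push_cast; norm_num)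
      exact ⟨r, hr, M, fun p hp => hM p (hfr p hp)⟩)
    u v
    ⟨hu1, hu2, hu3, hu4, ⟨1, fun x hx => by
      rw [abs_of_pos (hu4 x hx)]; exact (hu5 x hx).2.trans (Sp.Sf_le_one x)⟩, hu6⟩
    ⟨hv1, hv2, hv3, hv4, ⟨1, fun x hx => by
      rw [abs_of_pos (hv4 x hx)]; exact (hv5 x hx).2⟩, hv6⟩ 0 h0
  have h1 := (hu5 0 h0).2
  have h2 := (hv5 0 h0).1
  have h3 := Sp.Sf_zero
  rw [Sb.Vf_zero] at h2
  linarith

end Pool.Agent.S02986
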