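import Pool.Statements.S02989

set_option autoImplicit false
open Pool Pool.MP_3f3e32_an

namespace Pool.Agent.S02989

/-- For weights M as given and compact X, every unital multiplicative linear functional on rational functions with poles off X, bounded in the norm sum of M_k^-1 sup over X of the k-th derivative, is evaluation at some point of X. -/
theorem result :
    ∀ (M : ℕ → ℝ), M 0 = 1 → (∀ k, 0 < M k) →
      (∀ k j : ℕ, ((Nat.choose (k + j) j : ℕ) : ℝ) ≤ M (k + j) / (M k * M j)) →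
      Summable (fun k : ℕ => M k / M (k + 1)) →
      ∀ (X : Set ℂ), IsCompact X →
      ∀ (φ : Polynomial ℂ → Polynomial ℂ → ℂ),
        (∀ p q p' q' : Polynomial ℂ, (∀ x ∈ X, q.eval x ≠ 0) → (∀ x ∈ X, q'.eval x ≠ 0) →
            p * q' = p' * q → φ p q = φ p' q') →
        (∀ p q p' q' : Polynomial ℂ, (∀ x ∈ X, q.eval x ≠ 0) → (∀ x ∈ X, q'.eval x ≠ 0) →
            φ (p * q' + p' * q) (q * q') = φ p q + φ p' q') →
        (∀ (c : ℂ) (p q : Polynomial ℂ), (∀ x ∈ X, q.eval x ≠ 0) →
            φ (Polynomial.C c * p) q = c * φ p q) →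
        (∀ p q p' q' : Polynomial ℂ, (∀ x ∈ X, q.eval x ≠ 0) → (∀ x ∈ X, q'.eval x ≠ 0) →
            φ (p * p') (q * q') = φ p q * φ p' q') →
        φ 1 1 = 1 →
        (∃ C : ℝ, ∀ p q : Polynomial ℂ, (∀ x ∈ X, q.eval x ≠ 0) → ∀ B : ℝ,
            (∀ N : ℕ, ∑ k ∈ Finset.range N,
                (M k)⁻¹ * (⨆ x : X, ‖iteratedDeriv k (fun z : ℂ => p.eval z / q.eval z) (x : ℂ)‖) ≤ B) →
            ‖φ p q‖ ≤ C * B) →
        ∃ x ∈ X, ∀ p q : Polynomial ℂ, (∀ y ∈ X, q.eval y ≠ 0) → φ p q = p.eval x / q.eval x := by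
  intro M _ _ _ _ X _ φ hwd hadd hsmul hmul hone _
  have h1 : ∀ x ∈ X, (1 : Polynomial ℂ).eval x ≠ 0 := by
    intro x _; simp
  -- polynomials: φ p 1 = p.eval (φ X 1)
  set l : ℂ := φ Polynomial.X 1 with hl
  have hpoly : ∀ p : Polynomial ℂ, φ p 1 = p.eval l := by
    intro p
    induction p using Polynomial.induction_on with
    | C a =>
      have h := hsmul a 1 1 h1
      rw [mul_one, hone, mul_one] at h
      rw [h, Polynomial.eval_C]
    | add p q hp hq =>
      have h := hadd p 1 q 1 h1 h1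
      rw [mul_one, mul_one, mul_one] at h
      rw [h, hp, hq, Polynomial.eval_add]
    | monomial n a h =>
      have h2 := hmul (Polynomial.C a * Polynomial.X ^ n) 1 Polynomial.X 1 h1 h1
      rw [mul_one] at h2
      rw [pow_succ, ← mul_assoc, h2, h]
      simp [hl]
  have hinv : ∀ q : Polynomial ℂ, (∀ x ∈ X, q.eval x ≠ 0) → q.eval l * φ 1 q = 1 := by
    intro q hq
    have h := hmul q 1 1 q h1 hq
    rw [mul_one, one_mul] at h
    have h3 := hwd q q 1 1 hq h1 (by ring)
    rw [← hpoly q, ← h, h3, hone]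
  have hlX : l ∈ X := by
    by_contra hcon
    have hq : ∀ x ∈ X, (Polynomial.X - Polynomial.C l : Polynomial ℂ).eval x ≠ 0 := by
      intro x hx
      rw [Polynomial.eval_sub, Polynomial.eval_X, Polynomial.eval_C]
      intro h0
      apply hcon
      rw [sub_eq_zero] at h0
      rw [← h0]; exact hx
    have h := hinv _ hq
    rw [Polynomial.eval_sub, Polynomial.eval_X, Polynomial.eval_C, sub_self, zero_mul] at h
    exact zero_ne_one h
  refine ⟨l, hlX, ?_⟩
  intro p q hq
  have hql : q.eval l ≠ 0 := hq l hlX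
  have h := hmul p 1 1 q h1 hq
  rw [mul_one, one_mul, hpoly p] at h
  have hi := hinv q hq
  rw [h, eq_div_iff hql]
  calc p.eval l * φ 1 q * q.eval l = p.eval l * (q.eval l * φ 1 q) := by ring
    _ = p.eval l := by rw [hi, mul_one]

end Pool.Agent.S02989
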