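import Pool.Statements.S02994
import Pool.Agent.H92RevOld.Final

set_option autoImplicit false
open Filter Topology
open Pool Pool.MP_3fbb5c_an

namespace Pool.Agent.S02994

/-- The negation of the preceding statement: For n ≥ 2, if a biholomorphic germ f of ℂⁿ fixing 0 is conjugate to its inverse by some such germ h (f∘h∘f = h near 0), then it is so conjugated by a germ h with some iterate h^k equal to the identity near 0. -/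
theorem result :
    ¬ (∀ n : ℕ, 2 ≤ n → ∀ f : (Fin n → ℂ) → (Fin n → ℂ),
      (AnalyticAt ℂ f 0 ∧ f 0 = 0 ∧
        ∃ g : (Fin n → ℂ) → (Fin n → ℂ), AnalyticAt ℂ g 0 ∧ g 0 = 0 ∧
          g ∘ f =ᶠ[𝓝 (0 : Fin n → ℂ)] id ∧ f ∘ g =ᶠ[𝓝 (0 : Fin n → ℂ)] id) →
      (∃ h : (Fin n → ℂ) → (Fin n → ℂ),
        (AnalyticAt ℂ h 0 ∧ h 0 = 0 ∧
          ∃ g : (Fin n → ℂ) → (Fin n → ℂ), AnalyticAt ℂ g 0 ∧ g 0 = 0 ∧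
            g ∘ h =ᶠ[𝓝 (0 : Fin n → ℂ)] id ∧ h ∘ g =ᶠ[𝓝 (0 : Fin n → ℂ)] id) ∧
        f ∘ h ∘ f =ᶠ[𝓝 (0 : Fin n → ℂ)] h) →
      ∃ h : (Fin n → ℂ) → (Fin n → ℂ),
        (AnalyticAt ℂ h 0 ∧ h 0 = 0 ∧
          ∃ g : (Fin n → ℂ) → (Fin n → ℂ), AnalyticAt ℂ g 0 ∧ g 0 = 0 ∧
            g ∘ h =ᶠ[𝓝 (0 : Fin n → ℂ)] id ∧ h ∘ g =ᶠ[𝓝 (0 : Fin n → ℂ)] id) ∧
        f ∘ h ∘ f =ᶠ[𝓝 (0 : Fin n → ℂ)] h ∧
        ∃ k : ℕ, 0 < k ∧ h^[k] =ᶠ[𝓝 (0 : Fin n → ℂ)] id) := by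
  intro H
  obtain ⟨h, ⟨hA, h0, g, hgA, g0, hgh, hhg⟩, hR, k, hk, hper⟩ :=
    H 3 (by norm_num) Pool.Agent.H92Rev.fM
      ⟨Pool.Agent.H92Rev.fM_analytic, Pool.Agent.H92Rev.fM_zero, Pool.Agent.H92Rev.fI,
        Pool.Agent.H92Rev.fI_analytic, Pool.Agent.H92Rev.fI_zero, Pool.Agent.H92Rev.fI_fM,
        Pool.Agent.H92Rev.fM_fI⟩
      ⟨Pool.Agent.H92Rev.hM, ⟨Pool.Agent.H92Rev.hM_analytic, Pool.Agent.H92Rev.hM_zero,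
        Pool.Agent.H92Rev.hI, Pool.Agent.H92Rev.hI_analytic, Pool.Agent.H92Rev.hI_zero,
        Pool.Agent.H92Rev.hI_hM, Pool.Agent.H92Rev.hM_hI⟩, Pool.Agent.H92Rev.rev_rel⟩
  exact Pool.Agent.H92Rev.final hA h0 g hgA g0 hgh hhg hR k hk hper

end Pool.Agent.S02994
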