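import Pool.Statements.S02996

set_option autoImplicit false
open Filter Topology NNReal
open Pool Pool.MP_3fe7c1_an

namespace Pool.Agent.S02996

noncomputable section

/-- frequencies -/
def fr (k : ℕ) : ℝ := 2 ^ (k ^ 2)

/-- decay rates -/
def ep (k : ℕ) : ℝ := 1 / ((k : ℝ) + 1)

/-- eigenvalues of the generator -/
def lam (k : ℕ) : ℂ := ((-(ep k) : ℝ) : ℂ) + ((2 * Real.pi * fr k : ℝ) : ℂ) * Complex.I

lemma fr_pos (k : ℕ) : 0 < fr k := by unfold fr; positivity

lemma ep_pos (k : ℕ) : 0 < ep k := by unfold ep; positivity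

lemma ep_le_one (k : ℕ) : ep k ≤ 1 := by
  unfold ep
  rw [div_le_one (by positivity)]
  have : (0 : ℝ) ≤ k := Nat.cast_nonneg k
  linarith

lemma ep_anti {j k : ℕ} (h : j ≤ k) : ep k ≤ ep j := by
  unfold ep
  apply one_div_le_one_div_of_le (by positivity)
  have : (j : ℝ) ≤ k := by exact_mod_cast h
  linarith

lemma fr_succ (k : ℕ) : fr (k + 1) = fr k * 2 ^ (2 * k + 1) := by
  unfold fr
  rw [← pow_add]
  congr 1
  ring

lemma fr_succ_ge (k : ℕ) : 2 * fr k ≤ fr (k + 1) := by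
  rw [fr_succ]
  have h1 : (2 : ℝ) ^ 1 ≤ 2 ^ (2 * k + 1) := pow_le_pow_right₀ (by norm_num) (by omega)
  have := fr_pos k
  nlinarith

lemma norm_exp_lam (k : ℕ) (t : ℝ) :
    ‖Complex.exp (lam k * t)‖ = Real.exp (-(ep k) * t) := by
  rw [Complex.norm_exp]
  congr 1
  simp [lam]

lemma exp_lam (k : ℕ) (t : ℝ) :
    Complex.exp (lam k * t) =
      ((Real.exp (-(ep k) * t) : ℝ) : ℂ) * Complex.exp (((2 * Real.pi * (fr k * t) : ℝ) : ℂ) * Complex.I) := by
  rw [Complex.ofReal_exp, ← Complex.exp_add]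
  congr 1
  simp only [lam]
  push_cast
  ring

/-- Sequential choice of a time at which all the phases are nearly prescribed. -/
def tau (K : ℕ) (t1 : ℝ) (θ : ℕ → ℝ) : ℕ → ℝ
  | 0 => t1
  | (i + 1) => tau K t1 θ i + Int.fract (θ (K + i) - fr (K + i) * tau K t1 θ i) / fr (K + i)

lemma tau_mono_step (K : ℕ) (t1 : ℝ) (θ : ℕ → ℝ) (i : ℕ) :
    tau K t1 θ i ≤ tau K t1 θ (i + 1) := by
  simp only [tau]
  have := div_nonneg (Int.fract_nonneg (θ (K + i) - fr (K + i) * tau K t1 θ i)) (fr_pos (K + i)).le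
  linarith

lemma tau_upper_step (K : ℕ) (t1 : ℝ) (θ : ℕ → ℝ) (i : ℕ) :
    tau K t1 θ (i + 1) + 2 / fr (K + (i + 1)) ≤ tau K t1 θ i + 2 / fr (K + i) := by
  simp only [tau]
  have h1 : Int.fract (θ (K + i) - fr (K + i) * tau K t1 θ i) / fr (K + i) ≤ 1 / fr (K + i) :=
    div_le_div_of_nonneg_right (Int.fract_lt_one _).le (fr_pos _).le
  have h2 : 2 / fr (K + (i + 1)) ≤ 1 / fr (K + i) := by
    rw [div_le_div_iff₀ (fr_pos _) (fr_pos _)]
    have := fr_succ_ge (K + i)
    rw [← add_assoc]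
    linarith
  have h3 : 2 / fr (K + i) = 1 / fr (K + i) + 1 / fr (K + i) := by ring
  linarith

lemma exists_time (K : ℕ) (t1 : ℝ) (θ : ℕ → ℝ) :
    ∃ u : ℝ, t1 ≤ u ∧ u ≤ t1 + 2 / fr K ∧
      ∀ k, K ≤ k → ∃ n : ℤ, |fr k * u - θ k - n| ≤ 2 * fr k / fr (k + 1) := by
  have hmono : Monotone (tau K t1 θ) := monotone_nat_of_le_succ (tau_mono_step K t1 θ)
  have hanti : Antitone (fun i => tau K t1 θ i + 2 / fr (K + i)) :=
    antitone_nat_of_succ_le (tau_upper_step K t1 θ)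
  have hIcc : Antitone (fun i => Set.Icc (tau K t1 θ i) (tau K t1 θ i + 2 / fr (K + i))) := by
    intro i j hij
    exact Set.Icc_subset_Icc (hmono hij) (hanti hij)
  have hle : ∀ i, tau K t1 θ i ≤ tau K t1 θ i + 2 / fr (K + i) := by
    intro i
    have := div_pos (by norm_num : (0:ℝ) < 2) (fr_pos (K + i))
    linarith
  have hmem := ciSup_mem_iInter_Icc_of_antitone_Icc hIcc hle
  rw [Set.mem_iInter] at hmem
  set u := ⨆ i, tau K t1 θ i with hu
  refine ⟨u, ?_, ?_, ?_⟩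
  · have := (hmem 0).1
    simpa [tau] using this
  · have := (hmem 0).2
    simpa [tau] using this
  · intro k hk
    obtain ⟨i, rfl⟩ := Nat.exists_eq_add_of_le hk
    have h1 := hmem (i + 1)
    refine ⟨-⌊θ (K + i) - fr (K + i) * tau K t1 θ i⌋, ?_⟩
    have h2 : fr (K + i) * tau K t1 θ (i + 1) - θ (K + i) =
        -⌊θ (K + i) - fr (K + i) * tau K t1 θ i⌋ := by
      simp only [tau]
      have hne := (fr_pos (K + i)).ne'
      rw [mul_add, mul_div_cancel₀ _ hne]
      have := Int.self_sub_floor (θ (K + i) - fr (K + i) * tau K t1 θ i)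
      linarith
    have h3 : fr (K + i) * u - θ (K + i) - ((-⌊θ (K + i) - fr (K + i) * tau K t1 θ i⌋ : ℤ) : ℝ)
        = fr (K + i) * (u - tau K t1 θ (i + 1)) := by
      push_cast
      rw [← h2]
      ring
    rw [h3, abs_mul, abs_of_pos (fr_pos _), abs_of_nonneg (by linarith [h1.1])]
    have h4 : u - tau K t1 θ (i + 1) ≤ 2 / fr (K + i + 1) := by
      have := h1.2
      rw [← add_assoc] at this
      linarith
    calc fr (K + i) * (u - tau K t1 θ (i + 1)) ≤ fr (K + i) * (2 / fr (K + i + 1)) :=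
          mul_le_mul_of_nonneg_left h4 (fr_pos _).le
      _ = 2 * fr (K + i) / fr (K + i + 1) := by ring

/-- amplitudes -/
def amp (c : ℕ → ℂ) (k : ℕ) (t : ℝ) : ℝ := ‖c k‖ * Real.exp (-(ep k) * t)

lemma amp_nonneg (c : ℕ → ℂ) (k : ℕ) (t : ℝ) : 0 ≤ amp c k t := by
  unfold amp; positivity

lemma amp_le (c : ℕ → ℂ) (k : ℕ) {t : ℝ} (ht : 0 ≤ t) : amp c k t ≤ ‖c k‖ := by
  unfold amp
  have : Real.exp (-(ep k) * t) ≤ 1 := by
    rw [Real.exp_le_one_iff]
    have := mul_nonneg (ep_pos k).le ht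
    linarith
  have h0 := norm_nonneg (c k)
  nlinarith

lemma amp_summable {c : ℕ → ℂ} (hc : Summable (fun k => ‖c k‖)) {t : ℝ} (ht : 0 ≤ t) :
    Summable (fun k => amp c k t) :=
  Summable.of_nonneg_of_le (fun k => amp_nonneg c k t) (fun k => amp_le c k ht) hc

lemma norm_term (c : ℕ → ℂ) (k : ℕ) (t : ℝ) :
    ‖c k * Complex.exp (lam k * t)‖ = amp c k t := by
  rw [norm_mul, norm_exp_lam]; rfl

lemma exp_beats (A δ : ℝ) (hδ : 0 < δ) (t0 : ℝ) :
    ∃ t, t0 ≤ t ∧ 0 ≤ t ∧ A * Real.exp (-δ * t) < 1 / (1 + t) := by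
  have h1 : Tendsto (fun t : ℝ => A * ((1 + t) * Real.exp (-δ * t))) atTop (𝓝 (A * (0 + 0))) := by
    apply Tendsto.const_mul
    have h2 : Tendsto (fun t : ℝ => Real.exp (-δ * t)) atTop (𝓝 0) := by
      apply Real.tendsto_exp_atBot.comp
      exact Tendsto.const_mul_atTop_of_neg (by linarith) tendsto_id
    have h3 : Tendsto (fun t : ℝ => t ^ 1 * Real.exp (-δ * t)) atTop (𝓝 0) := by
      have := Real.tendsto_pow_mul_exp_neg_atTop_nhds_zero 1
      have h4 := this.comp (Tendsto.const_mul_atTop hδ tendsto_id)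
      have h5 := h4.const_mul δ⁻¹
      rw [mul_zero] at h5
      refine h5.congr (fun t => ?_)
      simp only [Function.comp, id]
      field_simp
    refine (h2.add h3).congr (fun t => ?_)
    ring
  rw [add_zero, mul_zero] at h1
  have h6 := (h1.eventually (gt_mem_nhds (show (0:ℝ) < 1 by norm_num))).and
    ((eventually_ge_atTop t0).and (eventually_ge_atTop 0))
  obtain ⟨t, ht1, ht2, ht3⟩ := h6.exists
  refine ⟨t, ht2, ht3, ?_⟩
  rw [lt_div_iff₀ (by linarith)]
  linarith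

lemma exists_balance {c : ℕ → ℂ} (hc : Summable (fun k => ‖c k‖))
    (h : ∀ t : ℝ, 0 ≤ t → 1 / (1 + t) ≤ ‖∑' k, c k * Complex.exp (lam k * t)‖)
    (t0 : ℝ) (ht0 : 0 ≤ t0) :
    ∃ (m : ℕ) (t1 : ℝ), t0 ≤ t1 ∧
      ∑ k ∈ Finset.range m, amp c k t1 = ∑' k, amp c (k + m) t1 := by
  have hsum : ∀ t : ℝ, 0 ≤ t → Summable (fun k => amp c k t) := fun t ht => amp_summable hc ht
  have hfS : ∀ t : ℝ, 0 ≤ t → 1 / (1 + t) ≤ ∑' k, amp c k t := by
    intro t ht
    refine (h t ht).trans ?_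
    have h1 : Summable (fun k => ‖c k * Complex.exp (lam k * t)‖) := by
      simp_rw [norm_term]
      exact hsum t ht
    refine (norm_tsum_le_tsum_norm h1).trans (le_of_eq ?_)
    simp_rw [norm_term]
  have hSpos : 0 < ∑' k, amp c k t0 := lt_of_lt_of_le (by positivity) (hfS t0 ht0)
  have htail : Tendsto (fun m => ∑' k, amp c (k + m) t0) atTop (𝓝 0) :=
    tendsto_sum_nat_add (fun k => amp c k t0)
  obtain ⟨m, hm⟩ := (htail.eventually (gt_mem_nhds (half_pos hSpos))).exists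
  have hsplit : ∀ t : ℝ, 0 ≤ t → ∑ k ∈ Finset.range m, amp c k t + ∑' k, amp c (k + m) t
      = ∑' k, amp c k t := fun t ht => (hsum t ht).sum_add_tsum_nat_add m
  -- the difference function
  set D : ℝ → ℝ := fun t => ∑ k ∈ Finset.range m, amp c k t - ∑' k, amp c (k + m) t with hD
  have hD0 : 0 ≤ D t0 := by
    have := hsplit t0 ht0
    simp only [hD]
    linarith
  have hcont : ContinuousOn D (Set.Ici 0) := by
    apply ContinuousOn.sub
    · apply Continuous.continuousOn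
      unfold amp
      fun_prop
    · refine continuousOn_tsum (u := fun k => ‖c (k + m)‖) ?_ ?_ ?_
      · intro k
        apply Continuous.continuousOn
        unfold amp
        fun_prop
      · exact (_root_.summable_nat_add_iff m).2 hc
      · intro k t ht
        rw [Real.norm_of_nonneg (amp_nonneg _ _ _)]
        exact amp_le c _ ht
  have hneg : ∃ t, t0 ≤ t ∧ D t ≤ 0 := by
    by_contra hcon
    push Not at hcon
    obtain ⟨t, ht1, ht2, ht3⟩ := exp_beats (2 * ∑ k ∈ Finset.range m, ‖c k‖) (ep m) (ep_pos m) t0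
    have h1 := hcon t ht1
    have h2 := hsplit t ht2
    have h3 := hfS t ht2
    have h4 : ∑ k ∈ Finset.range m, amp c k t ≤
        (∑ k ∈ Finset.range m, ‖c k‖) * Real.exp (-(ep m) * t) := by
      rw [Finset.sum_mul]
      apply Finset.sum_le_sum
      intro k hk
      unfold amp
      apply mul_le_mul_of_nonneg_left _ (norm_nonneg _)
      apply Real.exp_le_exp.2
      have := ep_anti (le_of_lt (Finset.mem_range.1 hk))
      nlinarith
    simp only [hD] at h1
    linarith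
  obtain ⟨t2, ht2, hDt2⟩ := hneg
  have hivt := intermediate_value_Icc' ht2 (hcont.mono (by
    intro x hx
    exact le_trans ht0 hx.1))
  obtain ⟨t1, ht1, hDt1⟩ := hivt ⟨hDt2, hD0⟩
  refine ⟨m, t1, ht1.1, ?_⟩
  simp only [hD] at hDt1
  linarith

lemma term_bound (c : ℕ → ℂ) (k : ℕ) (ζ : ℝ) (z : ℝ) (hz : Complex.exp ((ζ : ℂ) * Complex.I) = (z : ℂ))
    (t1 u r : ℝ) (n : ℤ) (ht1 : 0 ≤ t1) (hu : t1 ≤ u)
    (hr : fr k * u - (ζ - Complex.arg (c k)) / (2 * Real.pi) - n = r) :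
    ‖c k * Complex.exp (lam k * u) - ((z * amp c k t1 : ℝ) : ℂ)‖ ≤
      ‖c k‖ * ((u - t1) + 2 * Real.pi * |r|) := by
  have hpi : (2 * Real.pi) ≠ 0 := by positivity
  have hfr : 2 * Real.pi * (fr k * u) = ζ - Complex.arg (c k) + n * (2 * Real.pi) + 2 * Real.pi * r := by
    have : fr k * u = (ζ - Complex.arg (c k)) / (2 * Real.pi) + n + r := by linarith
    rw [this]
    field_simp
  have h1 : c k * Complex.exp (lam k * u) =
      ((‖c k‖ * Real.exp (-(ep k) * u) * z : ℝ) : ℂ) * Complex.exp (Complex.I * ((2 * Real.pi * r : ℝ) : ℂ)) := by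
    have h3 : Complex.exp ((Complex.arg (c k) : ℂ) * Complex.I) ≠ 0 := Complex.exp_ne_zero _
    have h3' : c k * (Complex.exp ((Complex.arg (c k) : ℂ) * Complex.I))⁻¹ = (‖c k‖ : ℂ) := by
      rw [mul_inv_eq_iff_eq_mul₀ h3]
      exact (Complex.norm_mul_exp_arg_mul_I (c k)).symm
    have h2 : Complex.exp (((ζ - Complex.arg (c k) + n * (2 * Real.pi) + 2 * Real.pi * r : ℝ) : ℂ) * Complex.I)
        = Complex.exp ((ζ : ℂ) * Complex.I) * Complex.exp (-((Complex.arg (c k) : ℂ) * Complex.I)) *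
          Complex.exp (n * (2 * Real.pi * Complex.I)) * Complex.exp (Complex.I * ((2 * Real.pi * r : ℝ) : ℂ)) := by
      rw [← Complex.exp_add, ← Complex.exp_add, ← Complex.exp_add]
      congr 1
      push_cast
      ring
    rw [exp_lam, hfr, h2, Complex.exp_int_mul_two_pi_mul_I, hz, Complex.exp_neg]
    rw [show ((‖c k‖ * Real.exp (-(ep k) * u) * z : ℝ) : ℂ) =
      (‖c k‖ : ℂ) * ((Real.exp (-(ep k) * u) : ℝ) : ℂ) * (z : ℂ) by
        rw [Complex.ofReal_mul, Complex.ofReal_mul]]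
    linear_combination (((Real.exp (-(ep k) * u) : ℝ) : ℂ) * z * Complex.exp (Complex.I * ((2 * Real.pi * r : ℝ) : ℂ))) * h3'
  have h4 : |z| = 1 := by
    have := congrArg norm hz
    rw [Complex.norm_exp_ofReal_mul_I, Complex.norm_real] at this
    rw [← Real.norm_eq_abs]
    exact this.symm
  have h5 : c k * Complex.exp (lam k * u) - ((z * amp c k t1 : ℝ) : ℂ) =
      ((‖c k‖ * z : ℝ) : ℂ) * (((Real.exp (-(ep k) * u) : ℝ) : ℂ) * (Complex.exp (Complex.I * ((2 * Real.pi * r : ℝ) : ℂ)) - 1)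
        + ((Real.exp (-(ep k) * u) - Real.exp (-(ep k) * t1) : ℝ) : ℂ)) := by
    rw [h1]
    unfold amp
    push_cast
    ring
  rw [h5, norm_mul, Complex.norm_real, norm_mul, norm_norm, Real.norm_eq_abs, h4, mul_one]
  apply mul_le_mul_of_nonneg_left _ (norm_nonneg _)
  refine (norm_add_le _ _).trans ?_
  rw [norm_mul, Complex.norm_real, Complex.norm_real]
  have h6 : ‖Complex.exp (Complex.I * ((2 * Real.pi * r : ℝ) : ℂ)) - 1‖ ≤ 2 * Real.pi * |r| := by
    refine Real.norm_exp_I_mul_ofReal_sub_one_le.trans ?_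
    rw [norm_mul, Real.norm_eq_abs r, Real.norm_of_nonneg (by positivity)]
  have h7 : ‖Real.exp (-(ep k) * u)‖ ≤ 1 := by
    rw [Real.norm_of_nonneg (Real.exp_pos _).le, Real.exp_le_one_iff]
    have := mul_nonneg (ep_pos k).le (ht1.trans hu)
    linarith
  have h8 : ‖Real.exp (-(ep k) * u) - Real.exp (-(ep k) * t1)‖ ≤ u - t1 := by
    have h9 : Real.exp (-(ep k) * u) = Real.exp (-(ep k) * t1) * Real.exp (-(ep k) * (u - t1)) := by
      rw [← Real.exp_add]
      congr 1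
      ring
    have h10 : Real.exp (-(ep k) * t1) ≤ 1 := by
      rw [Real.exp_le_one_iff]
      have := mul_nonneg (ep_pos k).le ht1
      linarith
    have h11 : Real.exp (-(ep k) * (u - t1)) ≤ 1 := by
      rw [Real.exp_le_one_iff]
      have := mul_nonneg (ep_pos k).le (sub_nonneg.2 hu)
      linarith
    have h12 := Real.add_one_le_exp (-(ep k) * (u - t1))
    have h13 := Real.exp_pos (-(ep k) * t1)
    have h14 : ep k * (u - t1) ≤ u - t1 := by
      have := ep_le_one k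
      nlinarith [sub_nonneg.2 hu]
    rw [Real.norm_eq_abs, h9, abs_le]
    constructor
    · nlinarith
    · nlinarith [sub_nonneg.2 hu]
  have h15 : 0 ≤ ‖Complex.exp (Complex.I * ((2 * Real.pi * r : ℝ) : ℂ)) - 1‖ := norm_nonneg _
  nlinarith [norm_nonneg (Real.exp (-(ep k) * u))]

lemma main_bound {c : ℕ → ℂ} (hc : Summable (fun k => ‖c k‖)) (m : ℕ) {t1 : ℝ} (ht1 : 0 ≤ t1)
    (hbal : ∑ k ∈ Finset.range m, amp c k t1 = ∑' k, amp c (k + m) t1) (K : ℕ) :
    ∃ u, t1 ≤ u ∧ u ≤ t1 + 2 / fr K ∧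
      ‖∑' k, c k * Complex.exp (lam k * u)‖ ≤
        (∑' k, ‖c k‖) * (2 * Real.exp (-(ep K) * t1) + 2 / fr K +
          4 * Real.pi * (1 / 2 ^ (2 * K + 1))) := by
  set ζ : ℕ → ℝ := fun k => if k < m then 0 else Real.pi with hζ
  set z : ℕ → ℝ := fun k => if k < m then 1 else -1 with hz
  have hzζ : ∀ k, Complex.exp ((ζ k : ℂ) * Complex.I) = (z k : ℂ) := by
    intro k
    simp only [hζ, hz]
    split_ifs
    · simp
    · simp [Complex.exp_pi_mul_I]
  have hzabs : ∀ k, |z k| = 1 := by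
    intro k
    simp only [hz]
    split_ifs <;> simp
  obtain ⟨u, hu1, hu2, hu3⟩ := exists_time K t1 (fun k => (ζ k - Complex.arg (c k)) / (2 * Real.pi))
  have hu0 : 0 ≤ u := ht1.trans hu1
  refine ⟨u, hu1, hu2, ?_⟩
  have hsum1 : Summable (fun k => amp c k t1) := amp_summable hc ht1
  have hsumz : Summable (fun k => z k * amp c k t1) := by
    refine Summable.of_norm_bounded hsum1 ?_
    intro k
    rw [norm_mul, Real.norm_eq_abs, hzabs, one_mul, Real.norm_of_nonneg (amp_nonneg _ _ _)]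
  have hzero : ∑' k, z k * amp c k t1 = 0 := by
    rw [← hsumz.sum_add_tsum_nat_add m]
    have h1 : ∑ k ∈ Finset.range m, z k * amp c k t1 = ∑ k ∈ Finset.range m, amp c k t1 := by
      apply Finset.sum_congr rfl
      intro k hk
      simp only [hz]
      rw [if_pos (Finset.mem_range.1 hk), one_mul]
    have h2 : ∀ k, z (k + m) * amp c (k + m) t1 = - amp c (k + m) t1 := by
      intro k
      simp only [hz]
      rw [if_neg (by omega)]
      ring
    simp_rw [h2]
    rw [h1, tsum_neg, hbal]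
    ring
  have hsumf : Summable (fun k => c k * Complex.exp (lam k * u)) := by
    apply Summable.of_norm
    simp_rw [norm_term]
    exact amp_summable hc hu0
  have hsumzC : Summable (fun k => ((z k * amp c k t1 : ℝ) : ℂ)) :=
    Complex.summable_ofReal.2 hsumz
  have hzeroC : ∑' k, ((z k * amp c k t1 : ℝ) : ℂ) = 0 := by
    rw [← Complex.ofReal_tsum, hzero, Complex.ofReal_zero]
  have hsub : ∑' k, c k * Complex.exp (lam k * u) =
      ∑' k, (c k * Complex.exp (lam k * u) - ((z k * amp c k t1 : ℝ) : ℂ)) := by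
    rw [hsumf.tsum_sub hsumzC, hzeroC, sub_zero]
  rw [hsub]
  set E : ℝ := 2 * Real.exp (-(ep K) * t1) + 2 / fr K + 4 * Real.pi * (1 / 2 ^ (2 * K + 1)) with hE
  have hpi := Real.pi_pos
  have hbound : ∀ k, ‖c k * Complex.exp (lam k * u) - ((z k * amp c k t1 : ℝ) : ℂ)‖ ≤ ‖c k‖ * E := by
    intro k
    rcases lt_or_ge k K with hk | hk
    · refine (norm_sub_le _ _).trans ?_
      rw [norm_term, Complex.norm_real, norm_mul, Real.norm_eq_abs, hzabs, one_mul,
        Real.norm_of_nonneg (amp_nonneg _ _ _)]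
      have hek := ep_anti hk.le
      have h1 : Real.exp (-(ep k) * t1) ≤ Real.exp (-(ep K) * t1) := by
        apply Real.exp_le_exp.2
        nlinarith
      have h2 : Real.exp (-(ep k) * u) ≤ Real.exp (-(ep K) * t1) := by
        apply Real.exp_le_exp.2
        have := (ep_pos K).le
        have := (ep_pos k).le
        nlinarith
      have h3 : (0:ℝ) ≤ 2 / fr K + 4 * Real.pi * (1 / 2 ^ (2 * K + 1)) := by
        have := fr_pos K
        positivity
      unfold amp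
      rw [← mul_add]
      apply mul_le_mul_of_nonneg_left _ (norm_nonneg _)
      simp only [hE]
      linarith
    · obtain ⟨n, hn⟩ := hu3 k hk
      refine (term_bound c k (ζ k) (z k) (hzζ k) t1 u _ n ht1 hu1 rfl).trans ?_
      apply mul_le_mul_of_nonneg_left _ (norm_nonneg _)
      have h1 : 2 * fr k / fr (k + 1) ≤ 2 * (1 / 2 ^ (2 * K + 1)) := by
        rw [fr_succ]
        have := (fr_pos k).ne'
        have h2 : 2 * fr k / (fr k * 2 ^ (2 * k + 1)) = 2 * (1 / 2 ^ (2 * k + 1)) := by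
          field_simp
        rw [h2]
        apply mul_le_mul_of_nonneg_left _ (by norm_num)
        apply one_div_le_one_div_of_le (by positivity)
        exact pow_le_pow_right₀ (by norm_num) (by omega)
      have h2 : 2 * Real.pi * |fr k * u - (ζ k - Complex.arg (c k)) / (2 * Real.pi) - n| ≤
          2 * Real.pi * (2 * (1 / 2 ^ (2 * K + 1))) :=
        mul_le_mul_of_nonneg_left (hn.trans h1) (by positivity)
      have h3 := Real.exp_pos (-(ep K) * t1)
      simp only [hE]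
      linarith
  calc ‖∑' k, (c k * Complex.exp (lam k * u) - ((z k * amp c k t1 : ℝ) : ℂ))‖
      ≤ ∑' k, ‖c k‖ * E := tsum_of_norm_bounded (hc.mul_right E).hasSum hbound
    _ = (∑' k, ‖c k‖) * E := tsum_mul_right

lemma exists_K0 (C : ℝ) : ∃ K0 : ℕ, ∀ K : ℕ, K0 ≤ K →
    C * (11 * (1 / 2) ^ K) < 1 / (((K : ℝ) + 2) ^ 2 + 3) := by
  have h1 : Tendsto (fun K : ℕ => C * 11 * ((((K : ℝ) + 2) ^ 2 + 3) * (1 / 2) ^ K)) atTop
      (𝓝 (C * 11 * 0)) := by
    apply Tendsto.const_mul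
    have h2 : ∀ j : ℕ, Tendsto (fun K : ℕ => (K : ℝ) ^ j * (1 / 2 : ℝ) ^ K) atTop (𝓝 0) := fun j =>
      tendsto_pow_const_mul_const_pow_of_abs_lt_one j (by rw [abs_lt]; constructor <;> norm_num)
    have h3 := ((h2 2).add ((h2 1).const_mul 4)).add ((h2 0).const_mul 7)
    simp only [mul_zero, add_zero] at h3
    refine h3.congr (fun K => ?_)
    ring
  rw [mul_zero] at h1
  obtain ⟨K0, hK0⟩ := eventually_atTop.1 (h1.eventually (gt_mem_nhds (show (0:ℝ) < 1 by norm_num)))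
  refine ⟨K0, fun K hK => ?_⟩
  have := hK0 K hK
  rw [lt_div_iff₀ (by positivity)]
  linarith

lemma main_analytic (c : ℕ → ℂ) (hc : Summable (fun k => ‖c k‖)) :
    ∃ t : ℝ, 0 ≤ t ∧ ‖∑' k, c k * Complex.exp (lam k * t)‖ < 1 / (1 + t) := by
  by_contra hcon
  push Not at hcon
  set C : ℝ := ∑' k, ‖c k‖ with hC
  have hC0 : 0 ≤ C := tsum_nonneg (fun k => norm_nonneg _)
  obtain ⟨K0, hK0⟩ := exists_K0 C
  obtain ⟨m, t1, ht1, hbal⟩ := exists_balance hc hcon (((K0 : ℝ) + 2) ^ 2) (by positivity)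
  have ht10 : 0 ≤ t1 := le_trans (by positivity) ht1
  have hs : (K0 : ℝ) + 2 ≤ Real.sqrt t1 := by
    apply Real.le_sqrt_of_sq_le ht1
  set L : ℕ := ⌊Real.sqrt t1⌋₊ with hL
  have hL1 : (L : ℝ) ≤ Real.sqrt t1 := Nat.floor_le (Real.sqrt_nonneg _)
  have hL2 : Real.sqrt t1 < L + 1 := Nat.lt_floor_add_one _
  have hL3 : K0 + 2 ≤ L := by
    apply Nat.le_floor
    push_cast
    exact hs
  obtain ⟨K, hK⟩ : ∃ K, L = K + 1 := ⟨L - 1, by omega⟩
  have hK1 : K0 ≤ K := by omega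
  rw [hK] at hL1 hL2
  push_cast at hL1 hL2
  have hsq : Real.sqrt t1 ^ 2 = t1 := Real.sq_sqrt ht10
  have ht1a : ((K : ℝ) + 1) ^ 2 ≤ t1 := by
    rw [← hsq]
    exact pow_le_pow_left₀ (by positivity) hL1 2
  have ht1b : t1 ≤ ((K : ℝ) + 2) ^ 2 := by
    rw [← hsq]
    have : Real.sqrt t1 ≤ (K : ℝ) + 2 := by linarith
    exact pow_le_pow_left₀ (Real.sqrt_nonneg _) this 2
  obtain ⟨u, hu1, hu2, hu3⟩ := main_bound hc m ht10 hbal K
  have hfrK : (2 : ℝ) ^ K ≤ fr K := by
    unfold fr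
    exact pow_le_pow_right₀ (by norm_num) (by nlinarith [Nat.zero_le K, Nat.le_self_pow (two_ne_zero) K])
  have h2K : (1 : ℝ) ≤ 2 ^ K := one_le_pow₀ (by norm_num)
  have hu4 : u ≤ ((K : ℝ) + 2) ^ 2 + 2 := by
    have : 2 / fr K ≤ 2 := by
      rw [div_le_iff₀ (fr_pos K)]
      linarith
    linarith
  have h1 := hcon u (ht10.trans hu1)
  have h2 : 1 / (((K : ℝ) + 2) ^ 2 + 3) ≤ 1 / (1 + u) := by
    apply one_div_le_one_div_of_le
    · linarith [ht10.trans hu1]
    · linarith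
  have hE1 : Real.exp (-(ep K) * t1) ≤ (1 / 2) ^ K := by
    have h3 : (K : ℝ) ≤ ep K * t1 := by
      have h4 : ep K * ((K : ℝ) + 1) ^ 2 = (K : ℝ) + 1 := by
        unfold ep
        field_simp
      have h5 := mul_le_mul_of_nonneg_left ht1a (ep_pos K).le
      linarith
    have h6 : Real.exp (-(ep K) * t1) ≤ Real.exp (-1 * (K : ℝ)) := by
      apply Real.exp_le_exp.2
      linarith
    refine h6.trans ?_
    rw [mul_comm, Real.exp_nat_mul]
    apply pow_le_pow_left₀ (Real.exp_pos _).le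
    rw [Real.exp_neg, one_div]
    apply inv_anti₀ (by norm_num)
    have := Real.add_one_le_exp 1
    linarith
  have hE2 : 2 / fr K ≤ 2 * (1 / 2) ^ K := by
    rw [one_div_pow, ← div_eq_mul_one_div]
    apply div_le_div_of_nonneg_left (by norm_num) (by positivity) hfrK
  have hE3 : 4 * Real.pi * (1 / 2 ^ (2 * K + 1)) ≤ 7 * (1 / 2) ^ K := by
    have h3 : (1 : ℝ) / 2 ^ (2 * K + 1) ≤ (1 / 2) * (1 / 2) ^ K := by
      rw [← one_div_pow]
      have : ((1 : ℝ) / 2) ^ (2 * K + 1) ≤ (1 / 2) ^ (K + 1) :=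
        pow_le_pow_of_le_one (by norm_num) (by norm_num) (by omega)
      rw [pow_succ (1 / 2 : ℝ) K] at this
      linarith
    have h4 : (0:ℝ) ≤ (1/2) ^ K := by positivity
    have h5 := Real.pi_lt_d2
    have h6 := Real.pi_pos
    have h7 := mul_le_mul_of_nonneg_left h3 (by positivity : 0 ≤ 4 * Real.pi)
    nlinarith
  have h8 := mul_le_mul_of_nonneg_left (show 2 * Real.exp (-(ep K) * t1) + 2 / fr K +
          4 * Real.pi * (1 / 2 ^ (2 * K + 1)) ≤ 11 * (1 / 2) ^ K by linarith) hC0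
  have h9 := hK0 K hK1
  linarith

/-- the space of absolutely summable complex sequences -/
abbrev X1 : Type := lp (fun _ : ℕ => ℂ) 1

lemma toReal_one_pos : 0 < (1 : ENNReal).toReal := by simp

lemma X1_summable (x : X1) : Summable (fun k => ‖x k‖) := by
  simpa using (lp.memℓp x).summable toReal_one_pos

lemma X1_norm (x : X1) : ‖x‖ = ∑' k, ‖x k‖ := by
  simpa using lp.norm_eq_tsum_rpow toReal_one_pos x

lemma mem_diag (a : ℕ → ℂ) (ha : ∀ k, ‖a k‖ ≤ 1) (x : X1) :
    Memℓp (fun k => a k * x k) 1 := by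
  apply memℓp_gen
  simp only [ENNReal.toReal_one, Real.rpow_one]
  refine Summable.of_nonneg_of_le (fun k => norm_nonneg _) (fun k => ?_) (X1_summable x)
  rw [norm_mul]
  exact mul_le_of_le_one_left (norm_nonneg _) (ha k)

/-- the diagonal operator on `X1` with entries `a k` -/
def diagOp (a : ℕ → ℂ) (ha : ∀ k, ‖a k‖ ≤ 1) : X1 →L[ℂ] X1 :=
  LinearMap.mkContinuous
    { toFun := fun x => ⟨fun k => a k * x k, mem_diag a ha x⟩
      map_add' := by
        intro x y
        ext k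
        simp [mul_add]
        all_goals rfl
      map_smul' := by
        intro r x
        ext k
        simp
        ring } 1 (by
      intro x
      rw [one_mul, X1_norm, X1_norm]
      apply Summable.tsum_le_tsum _ _ (X1_summable x)
      · intro k
        change ‖a k * x k‖ ≤ ‖x k‖
        rw [norm_mul]
        exact mul_le_of_le_one_left (norm_nonneg _) (ha k)
      · exact X1_summable _)

lemma diagOp_apply (a : ℕ → ℂ) (ha : ∀ k, ‖a k‖ ≤ 1) (x : X1) (k : ℕ) :
    (diagOp a ha x) k = a k * x k := rfl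

lemma norm_exp_le (k : ℕ) (t : ℝ≥0) : ‖Complex.exp (lam k * ((t : ℝ) : ℂ))‖ ≤ 1 := by
  rw [norm_exp_lam, Real.exp_le_one_iff]
  have := mul_nonneg (ep_pos k).le t.2
  simp only [NNReal.val_eq_coe] at this
  linarith

/-- the diagonal semigroup -/
def sg (t : ℝ≥0) : X1 →L[ℂ] X1 :=
  diagOp (fun k => Complex.exp (lam k * ((t : ℝ) : ℂ))) (fun k => norm_exp_le k t)

lemma sg_apply (t : ℝ≥0) (x : X1) (k : ℕ) :
    (sg t x) k = Complex.exp (lam k * ((t : ℝ) : ℂ)) * x k := rfl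

lemma sg_zero : sg 0 = 1 := by
  ext x k
  simp [sg_apply]

lemma sg_add (s t : ℝ≥0) : sg (s + t) = sg s * sg t := by
  ext x k
  rw [mul_apply_eq_comp]
  simp only [sg_apply]
  rw [← mul_assoc, ← Complex.exp_add]
  congr 2
  push_cast
  ring

lemma single_eq (x : X1) (t : ℝ≥0) (k : ℕ) :
    lp.single 1 k ((sg t x) k) = (x k * Complex.exp (lam k * ((t : ℝ) : ℂ))) • (lp.single 1 k (1 : ℂ) : X1) := by
  rw [← lp.single_smul, sg_apply, smul_eq_mul, mul_one, mul_comm]

lemma sg_hasSum (t : ℝ≥0) (x : X1) :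
    HasSum (fun k => (x k * Complex.exp (lam k * ((t : ℝ) : ℂ))) • (lp.single 1 k (1 : ℂ) : X1)) (sg t x) := by
  have := lp.hasSum_single (by simp : (1 : ENNReal) ≠ ⊤) (sg t x)
  simp_rw [single_eq] at this
  exact this

lemma norm_single_one (k : ℕ) : ‖(lp.single 1 k (1 : ℂ) : X1)‖ = 1 := by
  rw [lp.norm_single (by norm_num)]
  simp

lemma sg_cont (x : X1) : Continuous (fun t : ℝ≥0 => sg t x) := by
  have h : (fun t : ℝ≥0 => sg t x) = fun t : ℝ≥0 =>
      ∑' k, (x k * Complex.exp (lam k * ((t : ℝ) : ℂ))) • (lp.single 1 k (1 : ℂ) : X1) := by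
    funext t
    exact (sg_hasSum t x).tsum_eq.symm
  rw [h]
  refine continuous_tsum (u := fun k => ‖x k‖) ?_ (X1_summable x) ?_
  · intro k
    fun_prop
  · intro k t
    rw [norm_smul, norm_single_one, mul_one, norm_mul]
    exact mul_le_of_le_one_right (norm_nonneg _) (norm_exp_le k t)

lemma sg_dual (x : X1) (y : X1 →L[ℂ] ℂ) (t : ℝ≥0) :
    y (sg t x) = ∑' k, (x k * y (lp.single 1 k (1 : ℂ) : X1)) * Complex.exp (lam k * ((t : ℝ) : ℂ)) := by
  have h := (sg_hasSum t x).mapL y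
  rw [← h.tsum_eq]
  congr 1
  funext k
  rw [map_smul, smul_eq_mul]
  ring

lemma coeff_summable (x : X1) (y : X1 →L[ℂ] ℂ) :
    Summable (fun k => ‖x k * y (lp.single 1 k (1 : ℂ) : X1)‖) := by
  refine Summable.of_nonneg_of_le (fun k => norm_nonneg _) (fun k => ?_)
    ((X1_summable x).mul_right ‖y‖)
  rw [norm_mul]
  apply mul_le_mul_of_nonneg_left _ (norm_nonneg _)
  have := y.le_opNorm (lp.single 1 k (1 : ℂ) : X1)
  rwa [norm_single_one, mul_one] at this

lemma sg_weak (x : X1) (y : X1 →L[ℂ] ℂ) :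
    Tendsto (fun t : ℝ≥0 => y (sg t x)) atTop (𝓝 0) := by
  simp_rw [sg_dual]
  have h0 : (0 : ℂ) = ∑' _ : ℕ, (0 : ℂ) := by simp
  rw [h0]
  refine tendsto_tsum_of_dominated_convergence (coeff_summable x y) ?_ ?_
  · intro k
    rw [← mul_zero (x k * y (lp.single 1 k (1 : ℂ) : X1))]
    apply Tendsto.const_mul
    rw [tendsto_zero_iff_norm_tendsto_zero]
    simp_rw [norm_exp_lam]
    apply Real.tendsto_exp_atBot.comp
    apply Tendsto.const_mul_atTop_of_neg (by linarith [ep_pos k])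
    exact NNReal.tendsto_coe_atTop.2 tendsto_id
  · refine Eventually.of_forall (fun t k => ?_)
    rw [norm_mul]
    exact mul_le_of_le_one_right (norm_nonneg _) (norm_exp_le k t)

lemma sg_not_exp : ¬ ∃ M ω : ℝ, 0 < ω ∧ ∀ t : ℝ≥0, ‖sg t‖ ≤ M * Real.exp (-ω * (t : ℝ)) := by
  rintro ⟨M, ω, hω, h⟩
  obtain ⟨k, hk⟩ := exists_nat_one_div_lt (half_pos hω)
  have h1 : ∀ t : ℝ≥0, Real.exp (-(ep k) * t) ≤ M * Real.exp (-ω * (t : ℝ)) := by
    intro t
    refine le_trans ?_ (h t)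
    have h2 := (sg t).le_opNorm (lp.single 1 k (1 : ℂ) : X1)
    rw [norm_single_one, mul_one] at h2
    refine le_trans ?_ h2
    have h3 := lp.norm_apply_le_norm (by simp : (1 : ENNReal) ≠ 0) (sg t (lp.single 1 k (1 : ℂ) : X1)) k
    refine le_trans (le_of_eq ?_) h3
    rw [sg_apply, norm_mul, norm_exp_lam, lp.single_apply_self, norm_one, mul_one]
  have h4 : Tendsto (fun t : ℝ≥0 => M * Real.exp (-(ω / 2) * (t : ℝ))) atTop (𝓝 (M * 0)) := by
    apply Tendsto.const_mul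
    apply Real.tendsto_exp_atBot.comp
    apply Tendsto.const_mul_atTop_of_neg (by linarith)
    exact NNReal.tendsto_coe_atTop.2 tendsto_id
  rw [mul_zero] at h4
  obtain ⟨t, ht⟩ := (h4.eventually (gt_mem_nhds (show (0:ℝ) < 1 by norm_num))).exists
  have h5 := h1 t
  have h6 : Real.exp (-ω * (t : ℝ)) = Real.exp (-(ω / 2) * (t : ℝ)) * Real.exp (-(ω / 2) * (t : ℝ)) := by
    rw [← Real.exp_add]
    congr 1
    ring
  have h7 : Real.exp (-(ω / 2) * (t : ℝ)) ≤ Real.exp (-(ep k) * t) := by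
    apply Real.exp_le_exp.2
    have h8 : ep k ≤ ω / 2 := hk.le
    have h9 : (0:ℝ) ≤ (t : ℝ) := t.2
    nlinarith
  have h10 := Real.exp_pos (-(ω / 2) * (t : ℝ))
  rw [h6, ← mul_assoc] at h5
  nlinarith

end

/-- The negation of the preceding statement: For every complex Banach space X and strongly continuous semigroup T on X that is weakly stable (y(T t x)→0 for all x, y∈X') and not exponentially stable, every positive antitone a:ℝ≥0→ℝ tending to 0 admits x∈X, y∈X' with a t ≤ ∣y(T t x)∣ for all t≥0. -/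
theorem result :
    ¬ (∀ (X : Type) [NormedAddCommGroup X] [NormedSpace ℂ X] [CompleteSpace X]
      (T : ℝ≥0 → (X →L[ℂ] X)),
      T 0 = 1 →
      (∀ s t : ℝ≥0, T (s + t) = T s * T t) →
      (∀ x : X, Continuous (fun t : ℝ≥0 => T t x)) →
      (∀ (x : X) (y : X →L[ℂ] ℂ), Tendsto (fun t : ℝ≥0 => y (T t x)) atTop (𝓝 0)) →
      (¬ ∃ M ω : ℝ, 0 < ω ∧ ∀ t : ℝ≥0, ‖T t‖ ≤ M * Real.exp (-ω * (t : ℝ))) →
      ∀ a : ℝ≥0 → ℝ, (∀ t, 0 < a t) → Antitone a → Tendsto a atTop (𝓝 0) →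
        ∃ (x : X) (y : X →L[ℂ] ℂ), ∀ t : ℝ≥0, a t ≤ ‖y (T t x)‖) := by
  intro hall
  obtain ⟨x, y, hxy⟩ := hall X1 sg sg_zero sg_add sg_cont sg_weak sg_not_exp
    (fun t : ℝ≥0 => 1 / (1 + (t : ℝ))) (fun t => by positivity)
    (by
      intro s t hst
      have h1 : (s : ℝ) ≤ t := by exact_mod_cast hst
      have h2 : (0 : ℝ) ≤ s := s.2
      exact one_div_le_one_div_of_le (by linarith) (by linarith))
    (by
      have h1 : Tendsto (fun t : ℝ≥0 => 1 + (t : ℝ)) atTop atTop :=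
        tendsto_atTop_add_const_left _ _ (NNReal.tendsto_coe_atTop.2 tendsto_id)
      exact h1.const_div_atTop 1)
  obtain ⟨t, ht0, ht⟩ := main_analytic _ (coeff_summable x y)
  have h1 : 1 / (1 + t) ≤ ‖y (sg ⟨t, ht0⟩ x)‖ := hxy ⟨t, ht0⟩
  have h2 := congrArg norm (sg_dual x y ⟨t, ht0⟩)
  exact absurd ht (not_lt.2 (h1.trans (le_of_eq h2)))

end Pool.Agent.S02996
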