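import Pool.Statements.S03005
import Pool.Agent.Helper864.TilfD

set_option autoImplicit false
open MeasureTheory
open Pool Pool.MP_413515_an

namespace Pool.Agent.S03005

/-- There is an infinite Hausdorff compact abelian totally disconnected group with a finitely generated dense subgroup such that every translation-invariant complex linear functional on L² of its Haar measure is continuous. -/
theorem result :
    ∃ (G : Type) (_ : TopologicalSpace G) (_ : AddCommGroup G)
      (_ : IsTopologicalAddGroup G) (_ : CompactSpace G) (_ : T2Space G)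
      (_ : TotallyDisconnectedSpace G) (_ : Infinite G)
      (_ : MeasurableSpace G) (_ : BorelSpace G) (μ : Measure G),
      μ.IsAddHaarMeasure ∧
      (∃ s : Finset G,
        Dense (((AddSubgroup.closure (s : Set G)) : AddSubgroup G) : Set G)) ∧
      ∀ φ : Lp ℂ 2 μ →ₗ[ℂ] ℂ,
        (∀ (a : G) (f g : Lp ℂ 2 μ),
          ((g : G → ℂ) =ᵐ[μ] fun x => (f : G → ℂ) (x + a)) → φ g = φ f) →
        Continuous φ := by
  let _ : MeasurableSpace ℤ_[2] := borel ℤ_[2]
  have _ : BorelSpace ℤ_[2] := ⟨rfl⟩
  refine ⟨ℤ_[2], inferInstance, inferInstance, inferInstance, inferInstance, inferInstance,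
    inferInstance, inferInstance, inferInstance, inferInstance, Measure.addHaar,
    inferInstance, ⟨{1}, ?_⟩, ?_⟩
  · apply (PadicInt.denseRange_intCast (p := 2)).mono
    rintro - ⟨n, rfl⟩
    simp only [Finset.coe_singleton, SetLike.mem_coe]
    have h := AddSubgroup.zsmul_mem _ (AddSubgroup.subset_closure (Set.mem_singleton (1 : ℤ_[2]))) n
    rwa [zsmul_eq_mul, mul_one] at h
  · intro φ hφ
    exact Pool.Agent.Helper864.Tilf.tilf' _ φ hφ

end Pool.Agent.S03005
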