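import Pool.Statements.S03008
import Pool.Agent.Helper276.CogenEst

set_option autoImplicit false
open Filter Topology
open Pool Pool.MP_413ec1_an

namespace Pool.Agent.S03008

open Pool.Agent.Helper276.CogenEst MeasureTheory

noncomputable section

/-- the interval of spectral parameters -/
abbrev I4 : Set ℝ := Set.Icc (1 / 4 : ℝ) (1 / 2)

lemma hI4 : (1 / 4 : ℝ) ≤ 1 / 2 := by norm_num

lemma I4_pos (y : I4) : 0 < (y : ℝ) := by
  have := y.2.1
  linarith

lemma I4_ne (y : I4) : ((y : ℝ) : ℂ) ≠ 0 := by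
  exact_mod_cast (I4_pos y).ne'

/-- continuous functions on the interval -/
abbrev CC : Type := C(I4, ℂ)

/-- the index monoid -/
abbrev Sg : Type := ℝ × ℝ × ℕ × ℕ

/-- the basic multipliers -/
def h (σ : Sg) : CC :=
  ⟨fun y => Complex.exp (((σ.1 * y - σ.2.1 / y : ℝ) : ℂ) * Complex.I) *
      ((((2 * (y : ℝ)) ^ σ.2.2.1 * ((4 * (y : ℝ))⁻¹) ^ σ.2.2.2 : ℝ)) : ℂ), by
    have h1 : ∀ y : I4, (y : ℝ) ≠ 0 := fun y => (I4_pos y).ne'
    have h2 : ∀ y : I4, 4 * (y : ℝ) ≠ 0 := fun y => mul_ne_zero (by norm_num) (h1 y)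
    have h3 : Continuous (fun y : I4 => σ.1 * (y : ℝ) - σ.2.1 / (y : ℝ)) :=
      (continuous_const.mul continuous_subtype_val).sub
        (continuous_const.div continuous_subtype_val h1)
    have h4 : Continuous (fun y : I4 => (2 * (y : ℝ)) ^ σ.2.2.1 * ((4 * (y : ℝ))⁻¹) ^ σ.2.2.2) :=
      ((continuous_const.mul continuous_subtype_val).pow _).mul
        (((continuous_const.mul continuous_subtype_val).inv₀ h2).pow _)
    fun_prop⟩

lemma h_apply (σ : Sg) (y : I4) : h σ y =
    Complex.exp (((σ.1 * y - σ.2.1 / y : ℝ) : ℂ) * Complex.I) *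
      ((((2 * (y : ℝ)) ^ σ.2.2.1 * ((4 * (y : ℝ))⁻¹) ^ σ.2.2.2 : ℝ)) : ℂ) := rfl

lemma h_add (σ τ : Sg) : h (σ + τ) = h σ * h τ := by
  ext y
  rw [ContinuousMap.mul_apply]
  simp only [h_apply, Prod.fst_add, Prod.snd_add, pow_add]
  have : ((((σ.1 + τ.1) * (y : ℝ) - (σ.2.1 + τ.2.1) / (y : ℝ) : ℝ) : ℂ) * Complex.I) =
      ((σ.1 * y - σ.2.1 / y : ℝ) : ℂ) * Complex.I + ((τ.1 * y - τ.2.1 / y : ℝ) : ℂ) * Complex.I := by
    push_cast
    ring
  rw [this, Complex.exp_add]
  push_cast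
  ring

lemma h_zero : h 0 = 1 := by
  ext y
  simp [h_apply]

lemma h_norm (σ : Sg) : ‖h σ‖ ≤ 1 := by
  rw [ContinuousMap.norm_le _ zero_le_one]
  intro y
  rw [h_apply, norm_mul, Complex.norm_exp_ofReal_mul_I, one_mul, Complex.norm_real, norm_mul,
    norm_pow, norm_pow]
  have hy := I4_pos y
  have h1 : ‖2 * (y : ℝ)‖ ≤ 1 := by
    rw [Real.norm_of_nonneg (by positivity)]
    linarith [y.2.2]
  have h2 : ‖(4 * (y : ℝ))⁻¹‖ ≤ 1 := by
    rw [Real.norm_of_nonneg (by positivity)]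
    apply inv_le_one_of_one_le₀
    linarith [y.2.1]
  exact mul_le_one₀ (pow_le_one₀ (norm_nonneg _) h1) (by positivity) (pow_le_one₀ (norm_nonneg _) h2)

/-- the functional: integration over the interval -/
def Lam : CC →L[ℂ] ℂ :=
  LinearMap.mkContinuous
    { toFun := fun g => ∫ y in (1 / 4 : ℝ)..(1 / 2), Set.IccExtend hI4 g y
      map_add' := by
        intro f g
        rw [← intervalIntegral.integral_add]
        · rfl
        · exact (f.continuous.Icc_extend').intervalIntegrable _ _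
        · exact (g.continuous.Icc_extend').intervalIntegrable _ _
      map_smul' := by
        intro c g
        simp only [RingHom.id_apply]
        rw [← intervalIntegral.integral_smul]
        rfl } (1 / 4) (by
      intro g
      have : ‖∫ y in (1 / 4 : ℝ)..(1 / 2), Set.IccExtend hI4 g y‖ ≤ ‖g‖ * |1 / 2 - 1 / 4| := by
        apply intervalIntegral.norm_integral_le_of_norm_le_const
        intro y _
        exact g.norm_coe_le_norm _
      refine this.trans (le_of_eq ?_)
      rw [abs_of_pos (by norm_num)]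
      ring)

lemma Lam_apply (g : CC) : Lam g = ∫ y in (1 / 4 : ℝ)..(1 / 2), Set.IccExtend hI4 g y := rfl

lemma Lam_norm (g : CC) : ‖Lam g‖ ≤ 1 / 4 * ‖g‖ := by
  refine (Lam.le_opNorm g).trans ?_
  apply mul_le_mul_of_nonneg_right _ (norm_nonneg _)
  exact LinearMap.mkContinuous_norm_le _ (by norm_num) _

/-- bounded functions on the index set -/
abbrev LL : Type := lp (fun _ : Sg => ℂ) ⊤

lemma J_mem (g : CC) : Memℓp (fun σ : Sg => Lam (h σ * g)) ⊤ := by
  apply memℓp_infty
  refine ⟨1 / 4 * ‖g‖, ?_⟩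
  rintro _ ⟨σ, rfl⟩
  refine (Lam_norm _).trans ?_
  apply mul_le_mul_of_nonneg_left _ (by norm_num)
  refine (norm_mul_le _ _).trans ?_
  exact mul_le_of_le_one_left (norm_nonneg _) (h_norm σ)

/-- the embedding -/
def J : CC →L[ℂ] LL :=
  LinearMap.mkContinuous
    { toFun := fun g => ⟨fun σ => Lam (h σ * g), J_mem g⟩
      map_add' := by
        intro f g
        ext σ
        simp only [mul_add, map_add]
        rfl
      map_smul' := by
        intro c g
        ext σ
        simp only [mul_smul_comm, map_smul, RingHom.id_apply]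
        rfl } (1 / 4) (by
      intro g
      apply lp.norm_le_of_forall_le (by positivity)
      intro σ
      refine (Lam_norm _).trans ?_
      apply mul_le_mul_of_nonneg_left _ (by norm_num)
      refine (norm_mul_le _ _).trans ?_
      exact mul_le_of_le_one_left (norm_nonneg _) (h_norm σ))

lemma J_apply (g : CC) (σ : Sg) : J g σ = Lam (h σ * g) := rfl

lemma shift_mem (τ : Sg) (f : LL) : Memℓp (fun σ : Sg => f (σ + τ)) ⊤ := by
  apply memℓp_infty
  refine ⟨‖f‖, ?_⟩
  rintro _ ⟨σ, rfl⟩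
  exact lp.norm_apply_le_norm (by simp) f _

/-- shift operators -/
def shift (τ : Sg) : LL →L[ℂ] LL :=
  LinearMap.mkContinuous
    { toFun := fun f => ⟨fun σ => f (σ + τ), shift_mem τ f⟩
      map_add' := by
        intro f g
        ext σ
        rfl
      map_smul' := by
        intro c g
        ext σ
        rfl } 1 (by
      intro f
      rw [one_mul]
      apply lp.norm_le_of_forall_le (norm_nonneg _)
      intro σ
      exact lp.norm_apply_le_norm (by simp) f _)

lemma shift_apply (τ : Sg) (f : LL) (σ : Sg) : shift τ f σ = f (σ + τ) := rfl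

lemma shift_norm (τ : Sg) (f : LL) : ‖shift τ f‖ ≤ ‖f‖ := by
  apply lp.norm_le_of_forall_le (norm_nonneg _)
  intro σ
  exact lp.norm_apply_le_norm (by simp) f _

lemma shift_J (τ : Sg) (g : CC) : shift τ (J g) = J (h τ * g) := by
  ext σ
  rw [shift_apply, J_apply, J_apply, h_add, mul_assoc]

/-- the Banach space -/
def XS : Submodule ℂ LL := (LinearMap.range (J : CC →ₗ[ℂ] LL)).topologicalClosure

instance : CompleteSpace XS := by
  unfold XS
  infer_instance

lemma shift_mem_XS (τ : Sg) (x : XS) : shift τ x ∈ XS := by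
  have hx : (x : LL) ∈ closure ((LinearMap.range (J : CC →ₗ[ℂ] LL) : Submodule ℂ LL) : Set LL) := x.2
  have h1 := map_mem_closure (shift τ).continuous hx (t := ((LinearMap.range (J : CC →ₗ[ℂ] LL) : Submodule ℂ LL) : Set LL)) (by
    rintro _ ⟨g, rfl⟩
    exact ⟨h τ * g, (shift_J τ g).symm⟩)
  exact h1

/-- the Banach space as a type -/
def X : Type := XS

instance : NormedAddCommGroup X := inferInstanceAs (NormedAddCommGroup XS)

instance : NormedSpace ℂ X := inferInstanceAs (NormedSpace ℂ XS)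

instance : CompleteSpace X := inferInstanceAs (CompleteSpace XS)

/-- coercion to the ambient space -/
def toLL (x : X) : LL := (show XS from x : LL)

lemma toLL_inj {x y : X} (hxy : toLL x = toLL y) : x = y := Subtype.ext hxy

lemma toLL_norm (x : X) : ‖toLL x‖ = ‖x‖ := rfl

/-- the operators on the Banach space -/
def P (τ : Sg) : X →L[ℂ] X :=
  LinearMap.mkContinuous
    { toFun := fun x => (⟨shift τ (toLL x), shift_mem_XS τ x⟩ : XS)
      map_add' := by
        intro x y
        apply toLL_inj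
        exact map_add (shift τ) (toLL x) (toLL y)
      map_smul' := by
        intro c x
        apply toLL_inj
        exact map_smul (shift τ) c (toLL x) } 1 (by
      intro x
      rw [one_mul]
      exact shift_norm τ (toLL x))

lemma P_coe (τ : Sg) (x : X) : toLL (P τ x) = shift τ (toLL x) := rfl

lemma P_norm_apply (τ : Sg) (x : X) : ‖P τ x‖ ≤ ‖x‖ := shift_norm τ (toLL x)

lemma P_norm (τ : Sg) : ‖P τ‖ ≤ 1 :=
  ContinuousLinearMap.opNorm_le_bound _ zero_le_one (fun x => by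
    rw [one_mul]
    exact P_norm_apply τ x)

lemma P_add (σ τ : Sg) : P (σ + τ) = P σ * P τ := by
  ext x
  apply toLL_inj
  rw [mul_apply_eq_comp, P_coe, P_coe, P_coe]
  ext ρ
  rw [shift_apply, shift_apply, shift_apply, add_assoc]

lemma P_zero : P 0 = 1 := by
  ext x
  apply toLL_inj
  rw [P_coe]
  ext ρ
  rw [shift_apply, add_zero]
  rfl

lemma J_mem_XS (g : CC) : J g ∈ XS := Submodule.le_topologicalClosure _ ⟨g, rfl⟩

/-- the embedding into the Banach space -/
def j : CC →L[ℂ] X :=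
  LinearMap.mkContinuous
    { toFun := fun g => (⟨J g, J_mem_XS g⟩ : XS)
      map_add' := by
        intro x y
        apply toLL_inj
        exact map_add J x y
      map_smul' := by
        intro c x
        apply toLL_inj
        exact map_smul J c x } ‖J‖ (by
      intro x
      exact J.le_opNorm x)

lemma j_coe (g : CC) : toLL (j g) = J g := rfl

lemma P_j (τ : Sg) (g : CC) : P τ (j g) = j (h τ * g) := by
  apply toLL_inj
  rw [P_coe, j_coe, j_coe, shift_J]

lemma j_dense : DenseRange j := by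
  intro x
  rw [mem_closure_iff_seq_limit]
  have hx : (toLL x) ∈ closure ((LinearMap.range (J : CC →ₗ[ℂ] LL) : Submodule ℂ LL) : Set LL) := x.2
  rw [mem_closure_iff_seq_limit] at hx
  obtain ⟨u, hu, hux⟩ := hx
  choose g hg using hu
  refine ⟨fun n => j (g n), fun n => ⟨g n, rfl⟩, ?_⟩
  rw [tendsto_iff_norm_sub_tendsto_zero] at hux ⊢
  refine hux.congr (fun n => ?_)
  rw [← hg n]
  rfl

lemma ext_j {L M : X →L[ℂ] X} (hLM : ∀ g, L (j g) = M (j g)) : L = M := by
  have := j_dense.equalizer L.continuous M.continuous (funext hLM)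
  exact ContinuousLinearMap.ext (congrFun this)

/-- index of the multiplier `2 y` -/
def e3 : Sg := (0, 0, 1, 0)

/-- index of the multiplier `1 / (4 y)` -/
def e4 : Sg := (0, 0, 0, 1)

/-- multiplier of the generator: `I y` -/
def aa : CC := (Complex.I / 2) • h e3

/-- multiplier of the inverse: `1 / (I y)` -/
def bb : CC := (-4 * Complex.I) • h e4

lemma aa_apply (y : I4) : aa y = Complex.I * ((y : ℝ) : ℂ) := by
  simp [aa, e3, h_apply]
  ring

lemma bb_apply (y : I4) : bb y = (Complex.I * ((y : ℝ) : ℂ))⁻¹ := by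
  have hy := I4_ne y
  simp [bb, e4, h_apply]
  field_simp

lemma aa_bb : aa * bb = 1 := by
  ext y
  rw [ContinuousMap.mul_apply, aa_apply, bb_apply, ContinuousMap.one_apply]
  exact mul_inv_cancel₀ (mul_ne_zero Complex.I_ne_zero (I4_ne y))

/-- the generator -/
def A : X →L[ℂ] X := (Complex.I / 2) • P e3

/-- its inverse -/
def B : X →L[ℂ] X := (-4 * Complex.I) • P e4

lemma A_j (g : CC) : A (j g) = j (aa * g) := by
  rw [A, smul_apply, P_j, aa, smul_mul_assoc, map_smul]

lemma B_j (g : CC) : B (j g) = j (bb * g) := by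
  rw [B, smul_apply, P_j, bb, smul_mul_assoc, map_smul]

lemma A_mul_B : A * B = 1 := by
  apply ext_j
  intro g
  rw [mul_apply_eq_comp, B_j, A_j, ← mul_assoc, aa_bb, one_mul]
  rfl

lemma B_mul_A : B * A = 1 := by
  apply ext_j
  intro g
  rw [mul_apply_eq_comp, A_j, B_j, ← mul_assoc, mul_comm bb, aa_bb, one_mul]
  rfl

lemma A_norm : ‖A‖ < 1 := by
  have h1 : ‖A‖ ≤ ‖Complex.I / 2‖ * ‖P e3‖ := by
    rw [A, norm_smul]
  have h2 : ‖Complex.I / 2‖ = 1 / 2 := by simp
  rw [h2] at h1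
  have := P_norm e3
  linarith

lemma exp_j (L : X →L[ℂ] X) (a : CC) (hL : ∀ g, L (j g) = j (a * g)) (g : CC) :
    NormedSpace.exp L (j g) = j (NormedSpace.exp a * g) := by
  have hpow : ∀ n : ℕ, ∀ g, (L ^ n) (j g) = j (a ^ n * g) := by
    intro n
    induction n with
    | zero =>
      intro g
      rw [pow_zero, pow_zero, one_mul]
      rfl
    | succ n ih =>
      intro g
      rw [pow_succ, mul_apply_eq_comp, hL, ih, pow_succ, mul_assoc]
  have h1 : HasSum (fun n : ℕ => ((n.factorial : ℂ)⁻¹ • L ^ n) (j g)) (NormedSpace.exp L (j g)) :=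
    (NormedSpace.exp_series_hasSum_exp' (𝕂 := ℂ) L).mapL (ContinuousLinearMap.apply ℂ X (j g))
  have h2 : HasSum (fun n : ℕ => j (((n.factorial : ℂ)⁻¹ • a ^ n) * g)) (j (NormedSpace.exp a * g)) :=
    ((NormedSpace.exp_series_hasSum_exp' (𝕂 := ℂ) a).mul_right g).mapL j
  have h3 : (fun n : ℕ => ((n.factorial : ℂ)⁻¹ • L ^ n) (j g)) =
      (fun n : ℕ => j (((n.factorial : ℂ)⁻¹ • a ^ n) * g)) := by
    funext n
    rw [smul_apply, hpow, smul_mul_assoc, map_smul]
  rw [h3] at h1
  exact h1.unique h2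

lemma exp_apply (a : CC) (y : I4) : (NormedSpace.exp a) y = Complex.exp (a y) := by
  rw [Complex.exp_eq_exp_ℂ]
  exact NormedSpace.map_exp (ContinuousMap.evalAlgHom ℂ ℂ y) (continuous_eval_const y) a

lemma h_t (t : ℝ) : h (t, 0, 0, 0) = NormedSpace.exp ((t : ℂ) • aa) := by
  ext y
  rw [exp_apply, ContinuousMap.smul_apply, aa_apply, h_apply]
  simp
  congr 1
  ring

lemma h_s (s : ℝ) : h (0, s, 0, 0) = NormedSpace.exp ((s : ℂ) • bb) := by
  ext y
  rw [exp_apply, ContinuousMap.smul_apply, bb_apply, h_apply]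
  have hy := I4_ne y
  simp
  congr 1
  field_simp

lemma P_t (t : ℝ) : P (t, 0, 0, 0) = NormedSpace.exp ((t : ℂ) • A) := by
  apply ext_j
  intro g
  rw [P_j, h_t, ← exp_j]
  intro g
  rw [smul_apply, A_j, smul_mul_assoc, map_smul]

lemma P_s (s : ℝ) : P (0, s, 0, 0) = NormedSpace.exp ((s : ℂ) • B) := by
  apply ext_j
  intro g
  rw [P_j, h_s, ← exp_j]
  intro g
  rw [smul_apply, B_j, smul_mul_assoc, map_smul]

lemma exp_cont (L : X →L[ℂ] X) (x : X) :
    Continuous (fun t : ℝ => NormedSpace.exp ((t : ℂ) • L) x) := by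
  have h1 : Continuous (fun z : ℂ => NormedSpace.exp (z • L)) :=
    (differentiable_exp_smul_const ℂ L).continuous
  have h2 : Continuous (fun t : ℝ => NormedSpace.exp ((t : ℂ) • L)) :=
    h1.comp Complex.continuous_ofReal
  exact h2.clm_apply continuous_const

lemma exp_deriv (L : X →L[ℂ] X) (x : X) :
    Tendsto (fun t : ℝ => t⁻¹ • (NormedSpace.exp ((t : ℂ) • L) x - x)) (𝓝[>] 0) (𝓝 (L x)) := by
  have h1 : HasDerivAt (fun z : ℂ => NormedSpace.exp (z • L)) (NormedSpace.exp ((0 : ℂ) • L) * L) ((0 : ℝ) : ℂ) := by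
    rw [Complex.ofReal_zero]
    exact hasDerivAt_exp_smul_const L (0 : ℂ)
  rw [zero_smul, NormedSpace.exp_zero, one_mul] at h1
  have h2 : HasDerivAt (fun t : ℝ => NormedSpace.exp ((t : ℂ) • L)) L 0 := by
    have h7 : HasDerivAt (fun t : ℝ => (t : ℂ)) 1 (0 : ℝ) := Complex.ofRealCLM.hasDerivAt
    have h8 := h1.scomp (0 : ℝ) h7
    rw [one_smul] at h8
    exact h8
  have h3 : HasDerivAt (fun t : ℝ => NormedSpace.exp ((t : ℂ) • L) x) (L x) 0 := by
    have h4 := (ContinuousLinearMap.apply ℂ X x).restrictScalars ℝ |>.hasFDerivAt.comp_hasDerivAt (0 : ℝ) h2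
    exact h4
  have h5 := h3.tendsto_slope
  have h6 := h5.mono_left (nhdsWithin_mono (0 : ℝ) (show Set.Ioi (0 : ℝ) ⊆ {0}ᶜ from fun t ht => ne_of_gt ht))
  refine h6.congr (fun t => ?_)
  rw [slope_def_module]
  simp

/-- the cogenerator -/
def V : X →L[ℂ] X := -(A + 1) * ((Units.oneSub A A_norm)⁻¹ : (X →L[ℂ] X)ˣ)

lemma V_A (x : X) : V (A x - x) = A x + x := by
  have h1 : V * (A - 1) = A + 1 := by
    have h2 : (A - 1 : X →L[ℂ] X) = -((Units.oneSub A A_norm : (X →L[ℂ] X)ˣ) : X →L[ℂ] X) := by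
      rw [Units.val_oneSub]
      abel
    rw [h2, V, mul_assoc, mul_neg, Units.inv_mul, mul_neg, mul_one, neg_neg]
  have h3 := congrArg (fun L : X →L[ℂ] X => L x) h1
  simpa using h3

/-- the reciprocal of the symbol of the cogenerator -/
def uu : CC := ⟨fun y => (Complex.I * ((y : ℝ) : ℂ) - 1) / (Complex.I * ((y : ℝ) : ℂ) + 1), by
  have h1 : ∀ y : I4, Complex.I * ((y : ℝ) : ℂ) + 1 ≠ 0 := by
    intro y hy
    have := congrArg Complex.re hy
    simp at this
  exact Continuous.div (by fun_prop) (by fun_prop) h1⟩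

/-- an auxiliary inverse -/
def ww : CC := ⟨fun y => 1 / (Complex.I * ((y : ℝ) : ℂ) + 1), by
  have h1 : ∀ y : I4, Complex.I * ((y : ℝ) : ℂ) + 1 ≠ 0 := by
    intro y hy
    have := congrArg Complex.re hy
    simp at this
  exact Continuous.div (by fun_prop) (by fun_prop) h1⟩

lemma V_u (g : CC) : V (j (uu * g)) = j g := by
  have hne : ∀ y : I4, Complex.I * ((y : ℝ) : ℂ) + 1 ≠ 0 := by
    intro y hy
    have := congrArg Complex.re hy
    simp at this
  have h1 : uu * g = aa * (ww * g) - ww * g := by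
    ext y
    rw [ContinuousMap.mul_apply, ContinuousMap.sub_apply, ContinuousMap.mul_apply,
      ContinuousMap.mul_apply, aa_apply]
    change (Complex.I * ((y : ℝ) : ℂ) - 1) / (Complex.I * ((y : ℝ) : ℂ) + 1) * g y =
      Complex.I * ((y : ℝ) : ℂ) * (1 / (Complex.I * ((y : ℝ) : ℂ) + 1) * g y) -
        1 / (Complex.I * ((y : ℝ) : ℂ) + 1) * g y
    have := hne y
    field_simp
  have h2 : g = aa * (ww * g) + ww * g := by
    ext y
    rw [ContinuousMap.add_apply, ContinuousMap.mul_apply,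
      ContinuousMap.mul_apply, aa_apply]
    change g y =
      Complex.I * ((y : ℝ) : ℂ) * (1 / (Complex.I * ((y : ℝ) : ℂ) + 1) * g y) +
        1 / (Complex.I * ((y : ℝ) : ℂ) + 1) * g y
    have := hne y
    field_simp
  rw [h1, map_sub, ← A_j, V_A, A_j, ← map_add, ← h2]

lemma V_pow (n : ℕ) (g : CC) : (V ^ n) (j (uu ^ n * g)) = j g := by
  induction n with
  | zero =>
    rw [pow_zero, pow_zero, one_mul]
    rfl
  | succ n ih =>
    rw [pow_succ V, mul_apply_eq_comp, pow_succ' uu, mul_assoc, V_u, ih]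

lemma j_one : (1 / 4 : ℝ) ≤ ‖j 1‖ := by
  rw [← toLL_norm, j_coe]
  have h1 := lp.norm_apply_le_norm (by simp : (⊤ : ENNReal) ≠ 0) (J 1) (0 : Sg)
  rw [J_apply, h_zero, one_mul, Lam_apply] at h1
  refine le_trans (le_of_eq ?_) h1
  have h2 : (∫ y in (1 / 4 : ℝ)..(1 / 2), Set.IccExtend hI4 (1 : CC) y) = ((1 / 4 : ℝ) : ℂ) := by
    have : ∀ y : ℝ, Set.IccExtend hI4 (1 : CC) y = 1 := fun y => rfl
    simp_rw [this]
    rw [intervalIntegral.integral_const]
    norm_num
  rw [h2, Complex.norm_real]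
  norm_num

lemma u_val (y : ℝ) : (Complex.I * (y : ℂ) - 1) / (Complex.I * (y : ℂ) + 1) =
    -Complex.exp (Complex.I * ((-2 * Real.arctan y : ℝ) : ℂ)) := by
  have hne : Complex.I * (y : ℂ) + 1 ≠ 0 := by
    intro hy
    have := congrArg Complex.re hy
    simp at this
  have hs : (0 : ℝ) < Real.sqrt (1 + y ^ 2) := Real.sqrt_pos.2 (by positivity)
  have hsC : ((Real.sqrt (1 + y ^ 2) : ℝ) : ℂ) ≠ 0 := by exact_mod_cast hs.ne'
  have hsq : ((Real.sqrt (1 + y ^ 2) : ℝ) : ℂ) ^ 2 = 1 + (y : ℂ) ^ 2 := by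
    rw [← Complex.ofReal_pow, Real.sq_sqrt (by positivity)]
    push_cast
    ring
  have h1 : Complex.exp (Complex.I * ((Real.arctan y : ℝ) : ℂ)) =
      (1 + Complex.I * (y : ℂ)) / ((Real.sqrt (1 + y ^ 2) : ℝ) : ℂ) := by
    rw [mul_comm, Complex.exp_mul_I, ← Complex.ofReal_cos, ← Complex.ofReal_sin, Real.cos_arctan,
      Real.sin_arctan]
    push_cast
    field_simp
  have h2 : Complex.exp (Complex.I * ((-2 * Real.arctan y : ℝ) : ℂ)) =
      ((Complex.exp (Complex.I * ((Real.arctan y : ℝ) : ℂ))) ^ 2)⁻¹ := by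
    rw [← Complex.exp_nat_mul, ← Complex.exp_neg]
    congr 1
    push_cast
    ring
  rw [h2, h1, div_pow, hsq, inv_div]
  have hne' : 1 + Complex.I * (y : ℂ) ≠ 0 := by rwa [add_comm]
  have hI := Complex.I_sq
  rw [eq_comm, neg_eq_iff_eq_neg, ← neg_div, div_eq_div_iff (pow_ne_zero 2 hne') hne]
  linear_combination ((y : ℂ) ^ 2 * (1 + Complex.I * y)) * hI

lemma Lam_small {ε : ℝ} {n : ℕ} (hn : ∀ t s : ℝ, ∀ x ∈ Set.Icc (1 / 4 : ℝ) (1 / 2),
    ‖∫ y in (1 / 4 : ℝ)..x, Complex.exp (Complex.I * (ph t s n y : ℂ))‖ ≤ ε) (σ : Sg) :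
    ‖Lam (h σ * uu ^ n)‖ ≤ 3 * ε := by
  obtain ⟨t, s, k, l⟩ := σ
  have hval : Lam (h (t, s, k, l) * uu ^ n) = (-1) ^ n * ∫ y in (1 / 4 : ℝ)..(1 / 2),
      (((2 ^ k * (4⁻¹) ^ l) * y ^ ((k : ℤ) - (l : ℤ)) : ℝ) : ℂ) * Complex.exp (Complex.I * (ph t s n y : ℂ)) := by
    rw [Lam_apply, ← intervalIntegral.integral_const_mul]
    apply intervalIntegral.integral_congr
    intro y hy
    rw [Set.uIcc_of_le hI4] at hy
    have hy0 : 0 < y := by linarith [hy.1]
    simp only
    rw [Set.IccExtend_of_mem hI4 _ hy, ContinuousMap.mul_apply, ContinuousMap.pow_apply, h_apply]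
    have h1 : uu ⟨y, hy⟩ = -Complex.exp (Complex.I * ((-2 * Real.arctan y : ℝ) : ℂ)) := u_val y
    rw [h1, neg_pow, ← Complex.exp_nat_mul]
    simp only
    have h2 : Complex.exp (Complex.I * (ph t s n y : ℂ)) =
        Complex.exp (((t * y - s / y : ℝ) : ℂ) * Complex.I) *
          Complex.exp ((n : ℂ) * (Complex.I * ((-2 * Real.arctan y : ℝ) : ℂ))) := by
      rw [← Complex.exp_add]
      congr 1
      unfold ph
      push_cast
      ring
    have h3 : (2 * y) ^ k * ((4 * y)⁻¹) ^ l = (2 ^ k * (4⁻¹) ^ l) * y ^ ((k : ℤ) - (l : ℤ)) := by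
      rw [zpow_sub₀ hy0.ne', zpow_natCast, zpow_natCast, mul_inv, mul_pow, mul_pow]
      rw [inv_pow y l]
      field_simp
    rw [h2, h3]
    ring
  rw [hval, norm_mul, norm_pow, norm_neg, norm_one, one_pow, one_mul]
  apply amplitude (by norm_num) hI4 (f := fun y => Complex.exp (Complex.I * (ph t s n y : ℂ))) _
    (fun x hx => hn t s x hx) _ (by positivity)
  · intro y hy
    have hy0 : 0 < y := by linarith [hy.1]
    rw [zpow_sub₀ hy0.ne', zpow_natCast, zpow_natCast]
    have h3 : 2 ^ k * (4⁻¹) ^ l * (y ^ k / y ^ l) = (2 * y) ^ k * ((4 * y)⁻¹) ^ l := by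
      rw [mul_inv, mul_pow, mul_pow, inv_pow y l]
      field_simp
    rw [h3]
    apply mul_le_one₀
    · exact pow_le_one₀ (by positivity) (by linarith [hy.2])
    · positivity
    · apply pow_le_one₀ (by positivity)
      apply inv_le_one_of_one_le₀
      linarith [hy.1]
  · intro y hy
    have hy0 : 0 < y := by linarith [hy.1]
    have h4 := (ph_deriv t s n hy0).continuousAt
    apply ContinuousAt.continuousWithinAt
    exact (continuousAt_const.mul (Complex.continuous_ofReal.continuousAt.comp h4)).cexp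

lemma not_power_bounded : ¬ ∃ C : ℝ, ∀ n : ℕ, ‖V ^ n‖ ≤ C := by
  rintro ⟨C, hC⟩
  have hC0 : 0 < |C| + 1 := by positivity
  obtain ⟨N, hN⟩ := osc_small (show 0 < 1 / (24 * (|C| + 1)) by positivity)
  have h1 : ‖j (uu ^ N * 1)‖ ≤ 3 * (1 / (24 * (|C| + 1))) := by
    rw [← toLL_norm, j_coe]
    apply lp.norm_le_of_forall_le (by positivity)
    intro σ
    rw [J_apply, mul_one]
    exact Lam_small (fun t s x hx => hN N le_rfl t s x hx) σ
  have h2 := (V ^ N).le_opNorm (j (uu ^ N * 1))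
  rw [V_pow] at h2
  have h3 := j_one
  have h4 : ‖V ^ N‖ * ‖j (uu ^ N * 1)‖ ≤ (|C| + 1) * (3 * (1 / (24 * (|C| + 1)))) := by
    apply mul_le_mul _ h1 (norm_nonneg _) hC0.le
    have := hC N
    have := le_abs_self C
    linarith
  have h5 : (|C| + 1) * (3 * (1 / (24 * (|C| + 1)))) = 1 / 8 := by
    field_simp
    norm_num
  linarith

end

/-- The negation of the preceding statement: On a complex Banach space, suppose A generates a bounded C0-semigroup and its inverse A⁻¹ also generates a bounded C0-semigroup. Then the bounded operator V with V(Ax−x)=Ax+x for all x in the domain of A has uniformly bounded powers. -/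
theorem result :
    ¬ (∀ (E : Type) [NormedAddCommGroup E] [NormedSpace ℂ E] [CompleteSpace E]
      (T S : ℝ → E →L[ℂ] E),
      T 0 = 1 → S 0 = 1 →
      (∀ s t : ℝ, 0 ≤ s → 0 ≤ t → T (s + t) = T s * T t) →
      (∀ s t : ℝ, 0 ≤ s → 0 ≤ t → S (s + t) = S s * S t) →
      (∀ x : E, ContinuousOn (fun t : ℝ => T t x) (Set.Ici 0)) →
      (∀ x : E, ContinuousOn (fun t : ℝ => S t x) (Set.Ici 0)) →
      (∃ M : ℝ, ∀ t : ℝ, 0 ≤ t → ‖T t‖ ≤ M) →
      (∃ M : ℝ, ∀ t : ℝ, 0 ≤ t → ‖S t‖ ≤ M) →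
      (∀ x y : E,
        Tendsto (fun t : ℝ => t⁻¹ • (T t x - x)) (𝓝[>] 0) (𝓝 y) ↔
          Tendsto (fun t : ℝ => t⁻¹ • (S t y - y)) (𝓝[>] 0) (𝓝 x)) →
      ∀ V : E →L[ℂ] E,
        (∀ x y : E, Tendsto (fun t : ℝ => t⁻¹ • (T t x - x)) (𝓝[>] 0) (𝓝 y) →
          V (y - x) = y + x) →
        ∃ C : ℝ, ∀ n : ℕ, ‖V ^ n‖ ≤ C) := by
  intro hall
  have hT : ∀ x : X, Tendsto (fun t : ℝ => t⁻¹ • (P (t, 0, 0, 0) x - x)) (𝓝[>] 0) (𝓝 (A x)) := by
    intro x
    have := exp_deriv A x
    simp_rw [← P_t] at this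
    exact this
  have hS : ∀ x : X, Tendsto (fun t : ℝ => t⁻¹ • (P (0, t, 0, 0) x - x)) (𝓝[>] 0) (𝓝 (B x)) := by
    intro x
    have := exp_deriv B x
    simp_rw [← P_s] at this
    exact this
  apply not_power_bounded
  refine hall X (fun t => P (t, 0, 0, 0)) (fun t => P (0, t, 0, 0)) P_zero P_zero ?_ ?_ ?_ ?_
    ⟨1, fun t _ => P_norm _⟩ ⟨1, fun t _ => P_norm _⟩ ?_ V ?_
  · intro s t _ _
    rw [← P_add]
    simp
  · intro s t _ _
    rw [← P_add]
    simp
  · intro x
    simp_rw [P_t]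
    exact (exp_cont A x).continuousOn
  · intro x
    simp_rw [P_s]
    exact (exp_cont B x).continuousOn
  · intro x y
    constructor
    · intro hxy
      have h1 : y = A x := tendsto_nhds_unique hxy (hT x)
      have h2 : B y = x := by
        rw [h1, ← mul_apply_eq_comp, B_mul_A]
        rfl
      have h3 := hS y
      rw [h2] at h3
      exact h3
    · intro hxy
      have h1 : x = B y := tendsto_nhds_unique hxy (hS y)
      have h2 : A x = y := by
        rw [h1, ← mul_apply_eq_comp, A_mul_B]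
        rfl
      have h3 := hT x
      rw [h2] at h3
      exact h3
  · intro x y hxy
    have h1 : y = A x := tendsto_nhds_unique hxy (hT x)
    rw [h1]
    exact V_A x

end Pool.Agent.S03008
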