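import Pool.Statements.S03013

set_option autoImplicit false
open scoped InnerProductSpace
open Pool Pool.MP_41f01b_an

namespace Pool.Agent.S03013

section Helpers
open Filter Topology



section
variable {H : Type*} [NormedAddCommGroup H] [InnerProductSpace ℝ H]

/-- `f` is touched from above at `x` by the quadratic polynomial with gradient `p` and
quadratic part `A`, on the ball of radius `r` -/
def T (f : H → ℝ) (x p : H) (A : H → ℝ) (r : ℝ) : Prop :=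
  ∀ z : H, ‖z‖ ≤ r → f (x + z) ≤ f x + ⟪p, z⟫_ℝ + A z

/-- continuous quadratic forms -/
def QF (A : H → ℝ) : Prop :=
  ∃ B : H →L[ℝ] H →L[ℝ] ℝ, (∀ u v, B u v = B v u) ∧ ∀ z, A z = B z z

lemma QF.smul {A : H → ℝ} (hA : QF A) (c : ℝ) (z : H) : A (c • z) = c ^ 2 * A z := by
  obtain ⟨B, _, hB⟩ := hA
  rw [hB, hB]
  simp only [map_smul, smul_apply, smul_eq_mul]
  ring

lemma QF.zero {A : H → ℝ} (hA : QF A) : A 0 = 0 := by
  obtain ⟨B, _, hB⟩ := hA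
  rw [hB]; simp

lemma QF.continuous {A : H → ℝ} (hA : QF A) : Continuous A := by
  obtain ⟨B, _, hB⟩ := hA
  have : A = fun z => B z z := funext hB
  rw [this]
  fun_prop

lemma exists_bilin (b : H → H → ℝ) (hadd : ∀ u v w, b (u + v) w = b u w + b v w)
    (hsmul : ∀ (c : ℝ) u w, b (c • u) w = c * b u w) (hsymm : ∀ u v, b u v = b v u) (K : ℝ)
    (hK : ∀ u v, |b u v| ≤ K * ‖u‖ * ‖v‖) : ∃ B : H →L[ℝ] H →L[ℝ] ℝ, ∀ u v, B u v = b u v := by
  refine ⟨LinearMap.mkContinuous₂ (LinearMap.mk₂ ℝ b hadd (fun c u w => by rw [hsmul]; rfl)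
    (fun u v w => by rw [hsymm, hadd, hsymm v, hsymm w])
    (fun c u w => by rw [hsymm, hsmul, hsymm w]; rfl)) K ?_, ?_⟩
  · intro u v
    simpa using hK u v
  · intro u v
    rfl

lemma QF.modify {A : H → ℝ} (hA : QF A) (α γ : ℝ) (g : H) :
    QF (fun z => A z + α * ‖z‖ ^ 2 - γ * ⟪g, z⟫_ℝ ^ 2) := by
  obtain ⟨B, hs, hB⟩ := hA
  obtain ⟨B', hB'⟩ := exists_bilin (fun u v => α * ⟪u, v⟫_ℝ - γ * (⟪g, u⟫_ℝ * ⟪g, v⟫_ℝ))
    (fun u v w => by rw [inner_add_left, inner_add_right]; ring)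
    (fun c u w => by rw [real_inner_smul_left, real_inner_smul_right]; ring)
    (fun u v => by rw [real_inner_comm]; ring) (|α| + |γ| * ‖g‖ ^ 2) (by
      intro u v
      have h1 := abs_real_inner_le_norm u v
      have h2 := abs_real_inner_le_norm g u
      have h3 := abs_real_inner_le_norm g v
      calc |α * ⟪u, v⟫_ℝ - γ * (⟪g, u⟫_ℝ * ⟪g, v⟫_ℝ)|
          ≤ |α * ⟪u, v⟫_ℝ| + |γ * (⟪g, u⟫_ℝ * ⟪g, v⟫_ℝ)| := abs_sub _ _
        _ = |α| * |⟪u, v⟫_ℝ| + |γ| * (|⟪g, u⟫_ℝ| * |⟪g, v⟫_ℝ|) := by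
            rw [abs_mul, abs_mul, abs_mul]
        _ ≤ |α| * (‖u‖ * ‖v‖) + |γ| * ((‖g‖ * ‖u‖) * (‖g‖ * ‖v‖)) := by gcongr
        _ = (|α| + |γ| * ‖g‖ ^ 2) * ‖u‖ * ‖v‖ := by ring)
  refine ⟨B + B', ?_, ?_⟩
  · intro u v
    show B u v + B' u v = B v u + B' v u
    rw [hs u v, hB', hB', real_inner_comm]
    ring
  · intro z
    show A z + α * ‖z‖ ^ 2 - γ * ⟪g, z⟫_ℝ ^ 2 = B z z + B' z z
    rw [hB z, hB', real_inner_self_eq_norm_sq]
    ring

lemma QF.add_sq {A : H → ℝ} (hA : QF A) (α : ℝ) : QF (fun z => A z + α * ‖z‖ ^ 2) := by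
  have := hA.modify α 0 0
  simpa using this

/-- subgradient inequality -/
lemma subgrad {f : H → ℝ} (hf : ConvexOn ℝ Set.univ f) {x p : H} {A : H → ℝ} (hA : QF A)
    {r : ℝ} (hr : 0 < r) (hT : T f x p A r) (z : H) : f x + ⟪p, z⟫_ℝ ≤ f (x + z) := by
  by_contra hcon
  push Not at hcon
  set c := f x + ⟪p, z⟫_ℝ - f (x + z) with hc
  have hc0 : 0 < c := by linarith
  obtain ⟨t, ht0, ht1, htr, htA⟩ : ∃ t : ℝ, 0 < t ∧ t ≤ 1 ∧ t * ‖z‖ ≤ r ∧ t * A z < c := by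
    refine ⟨min 1 (min (r / (‖z‖ + 1)) (c / (2 * (|A z| + 1)))), ?_, ?_, ?_, ?_⟩
    · positivity
    · exact min_le_left _ _
    · have h1 : min 1 (min (r / (‖z‖ + 1)) (c / (2 * (|A z| + 1)))) ≤ r / (‖z‖ + 1) :=
        (min_le_right _ _).trans (min_le_left _ _)
      calc _ ≤ r / (‖z‖ + 1) * ‖z‖ := by gcongr
        _ = r * (‖z‖ / (‖z‖ + 1)) := by ring
        _ ≤ r * 1 := by
          gcongr
          rw [div_le_one (by positivity)]; linarith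
        _ = r := by ring
    · have h1 : min 1 (min (r / (‖z‖ + 1)) (c / (2 * (|A z| + 1)))) ≤ c / (2 * (|A z| + 1)) :=
        (min_le_right _ _).trans (min_le_right _ _)
      have h0 : 0 < min 1 (min (r / (‖z‖ + 1)) (c / (2 * (|A z| + 1)))) := by positivity
      calc min 1 (min (r / (‖z‖ + 1)) (c / (2 * (|A z| + 1)))) * A z
          ≤ min 1 (min (r / (‖z‖ + 1)) (c / (2 * (|A z| + 1)))) * (|A z| + 1) := by
            gcongr; linarith [le_abs_self (A z)]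
        _ ≤ c / (2 * (|A z| + 1)) * (|A z| + 1) := by gcongr
        _ = c / 2 := by field_simp
        _ < c := by linarith
  have h1 := hf.2 (Set.mem_univ (x + t • z)) (Set.mem_univ (x + (-t) • z))
    (show (0:ℝ) ≤ 1/2 by norm_num) (show (0:ℝ) ≤ 1/2 by norm_num) (by norm_num)
  have e1 : (1/2 : ℝ) • (x + t • z) + (1/2 : ℝ) • (x + (-t) • z) = x := by
    module
  rw [e1] at h1
  have h2 := hf.2 (Set.mem_univ x) (Set.mem_univ (x + z))
    (show (0:ℝ) ≤ 1 - t by linarith) ht0.le (by ring)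
  have e2 : (1 - t) • x + t • (x + z) = x + t • z := by module
  rw [e2] at h2
  have h3 := hT ((-t) • z) (by rw [norm_smul, Real.norm_eq_abs, abs_neg, abs_of_pos ht0]; exact htr)
  rw [hA.smul, real_inner_smul_right] at h3
  simp only [smul_eq_mul] at h1 h2
  have h4 : t * (t * A z) < t * c := by gcongr
  rw [hc] at h4
  nlinarith

lemma form_nonneg {f : H → ℝ} (hf : ConvexOn ℝ Set.univ f) {x p : H} {A : H → ℝ} (hA : QF A)
    {r : ℝ} (hr : 0 < r) (hT : T f x p A r) (z : H) : 0 ≤ A z := by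
  have h1 := subgrad hf hA hr hT
  set t := r / (‖z‖ + 1) with ht
  have ht0 : 0 < t := by positivity
  have h2 : ‖t • z‖ ≤ r := by
    rw [norm_smul, Real.norm_eq_abs, abs_of_pos ht0, ht]
    calc r / (‖z‖ + 1) * ‖z‖ = r * (‖z‖ / (‖z‖ + 1)) := by ring
        _ ≤ r * 1 := by
          gcongr
          rw [div_le_one (by positivity)]; linarith
        _ = r := by ring
  have h3 := hT _ h2
  have h4 := h1 (t • z)
  rw [hA.smul] at h3
  have h5 : 0 ≤ t ^ 2 * A z := by linarith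
  by_contra hcon
  push Not at hcon
  have : t ^ 2 * A z < 0 := mul_neg_of_pos_of_neg (by positivity) hcon
  linarith

/-- Cauchy-Schwarz type bound -/
lemma bil_le {B : H →L[ℝ] H →L[ℝ] ℝ} (hs : ∀ u v, B u v = B v u) {K : ℝ} (h0 : ∀ z, 0 ≤ B z z)
    (hK : ∀ z, B z z ≤ K * ‖z‖ ^ 2) (z d : H) : B z d ≤ K * ‖z‖ * ‖d‖ := by
  have e2 : ∀ c : ℝ, B (c • z - d) (c • z - d) = c ^ 2 * B z z - 2 * c * B z d + B d d := by
    intro c
    simp only [map_sub, map_smul, sub_apply, smul_apply, smul_eq_mul]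
    rw [hs d z]; ring
  rcases eq_or_ne z 0 with hz | hz
  · subst hz; simp
  rcases eq_or_ne d 0 with hd | hd
  · subst hd; simp
  have hz' : 0 < ‖z‖ := norm_pos_iff.2 hz
  have hd' : 0 < ‖d‖ := norm_pos_iff.2 hd
  have h2 := h0 ((‖d‖ / ‖z‖) • z - d)
  rw [e2] at h2
  have h3 : (‖d‖ / ‖z‖) ^ 2 * B z z ≤ K * ‖d‖ ^ 2 := by
    calc (‖d‖ / ‖z‖) ^ 2 * B z z ≤ (‖d‖ / ‖z‖) ^ 2 * (K * ‖z‖ ^ 2) := by gcongr; exact hK z
      _ = K * ‖d‖ ^ 2 := by field_simp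
  have h4 := hK d
  have h5 : 2 * (‖d‖ / ‖z‖) * B z d ≤ 2 * K * ‖d‖ ^ 2 := by linarith
  have h6 : (‖d‖ / ‖z‖) * (B z d) ≤ (‖d‖ / ‖z‖) * (K * ‖z‖ * ‖d‖) := by
    calc (‖d‖ / ‖z‖) * (B z d) ≤ K * ‖d‖ ^ 2 := by linarith
      _ = (‖d‖ / ‖z‖) * (K * ‖z‖ * ‖d‖) := by field_simp
  exact le_of_mul_le_mul_left h6 (by positivity)

lemma QF.add_le {A : H → ℝ} (hA : QF A) {K : ℝ} (h0 : ∀ z, 0 ≤ A z)
    (hK : ∀ z, A z ≤ K * ‖z‖ ^ 2) (z d : H) :
    A (z + d) ≤ A z + 2 * K * ‖z‖ * ‖d‖ + K * ‖d‖ ^ 2 := by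
  obtain ⟨B, hs, hB⟩ := hA
  have e1 : A (z + d) = A z + 2 * B z d + A d := by
    rw [hB, hB, hB]
    simp only [map_add, add_apply]
    rw [hs d z]; ring
  have h1 := bil_le hs (fun z => by rw [← hB]; exact h0 z) (fun z => by rw [← hB]; exact hK z) z d
  rw [e1]
  have := hK d
  linarith

/-- the transfer lemma -/
lemma transfer {f : H → ℝ} (hf : ConvexOn ℝ Set.univ f) {x p y q : H} {A B : H → ℝ}
    (hA : QF A) (hB : QF B) {r ρ δ ε K : ℝ} (hT : T f x p A r) (hT' : T f y q B ρ)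
    (hBA : ∀ z, B z ≤ A z + ε * ‖z‖ ^ 2) (hK : ∀ z, A z ≤ K * ‖z‖ ^ 2)
    (hδ : 0 < δ) (hxy : ‖y - x‖ ≤ δ) (hδρ : δ ≤ ρ) (hδr : 2 * δ ≤ r) (hK0 : 0 ≤ K)
    (hε : 7 * K * δ ≤ ε * ρ) :
    T f y q (fun z => A z + ε * ‖z‖ ^ 2) (r - δ) ∧ ‖q - p‖ ≤ 4 * K * δ := by
  have hr : 0 < r := by linarith
  have hρ : 0 < ρ := by linarith
  have hA0 := form_nonneg hf hA hr hT
  set d := y - x with hd
  have hy : y = x + d := by rw [hd]; abel
  have s1 := subgrad hf hA hr hT d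
  rw [← hy] at s1
  have s2 := subgrad hf hB hρ hT'
  have key : ∀ z, ‖z‖ ≤ r - δ →
      f (y + z) ≤ f y + ⟪p, z⟫_ℝ + A z + 2 * K * ‖z‖ * δ + K * δ ^ 2 := by
    intro z hz
    have h1 := hT (d + z) (by
      calc ‖d + z‖ ≤ ‖d‖ + ‖z‖ := norm_add_le _ _
        _ ≤ r := by linarith)
    have h2 : x + (d + z) = y + z := by rw [hy]; abel
    rw [h2, inner_add_right] at h1
    have h3 := hA.add_le hA0 hK z d
    rw [add_comm z d] at h3
    have h4 : 2 * K * ‖z‖ * ‖d‖ ≤ 2 * K * ‖z‖ * δ := by gcongr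
    have h5 : K * ‖d‖ ^ 2 ≤ K * δ ^ 2 := by gcongr
    linarith
  have hpq : ‖q - p‖ ≤ 4 * K * δ := by
    rcases eq_or_ne (q - p) 0 with h0 | h0
    · rw [h0, norm_zero]; positivity
    have hn : 0 < ‖q - p‖ := norm_pos_iff.2 h0
    set w := (δ / ‖q - p‖) • (q - p) with hw
    have hwn : ‖w‖ = δ := by
      rw [hw, norm_smul, Real.norm_eq_abs, abs_of_pos (by positivity)]
      field_simp
    have h1 := key w (by rw [hwn]; linarith)
    have h2 := s2 w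
    have h3 : ⟪q, w⟫_ℝ - ⟪p, w⟫_ℝ = δ * ‖q - p‖ := by
      rw [← inner_sub_left, hw, real_inner_smul_right, real_inner_self_eq_norm_sq]
      field_simp
    have h4 := hK w
    rw [hwn] at h1 h4
    have h5 : δ * ‖q - p‖ ≤ δ * (4 * K * δ) := by nlinarith
    exact le_of_mul_le_mul_left h5 hδ
  refine ⟨?_, hpq⟩
  intro z hz
  rcases le_or_gt ‖z‖ ρ with h | h
  · have h1 := hT' z h
    have h2 := hBA z
    simp only
    linarith
  · have h1 := key z hz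
    have h2 : ⟪p, z⟫_ℝ ≤ ⟪q, z⟫_ℝ + 4 * K * δ * ‖z‖ := by
      have h3 : ⟪p, z⟫_ℝ - ⟪q, z⟫_ℝ ≤ ‖q - p‖ * ‖z‖ := by
        rw [← inner_sub_left, ← norm_sub_rev]
        exact real_inner_le_norm _ _
      have h4 : ‖q - p‖ * ‖z‖ ≤ 4 * K * δ * ‖z‖ := by gcongr
      linarith
    have h3 : K * δ ^ 2 ≤ K * δ * ‖z‖ := by
      have : δ ≤ ‖z‖ := by linarith
      calc K * δ ^ 2 = K * δ * δ := by ring
        _ ≤ K * δ * ‖z‖ := by gcongr
    have h4 : 7 * K * δ * ‖z‖ ≤ ε * ‖z‖ ^ 2 := by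
      have hε0 : 0 ≤ ε := by
        have : 0 ≤ ε * ρ := le_trans (by positivity) hε
        exact nonneg_of_mul_nonneg_left this hρ
      calc 7 * K * δ * ‖z‖ ≤ (ε * ρ) * ‖z‖ := by gcongr
        _ ≤ (ε * ‖z‖) * ‖z‖ := by gcongr
        _ = ε * ‖z‖ ^ 2 := by ring
    simp only
    nlinarith

end



lemma dep_choice {α : Type*} (P : ℕ → α → Prop) (R : ℕ → α → α → Prop) (h0 : ∃ a, P 0 a)
    (hs : ∀ n a, P n a → ∃ b, P (n + 1) b ∧ R n a b) :
    ∃ u : ℕ → α, (∀ n, P n (u n)) ∧ ∀ n, R n (u n) (u (n + 1)) := by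
  obtain ⟨a0, ha0⟩ := h0
  have : Nonempty α := ⟨a0⟩
  choose! g hg using hs
  let u : ℕ → α := fun n => Nat.rec a0 (fun n a => g n a) n
  have hu : ∀ n, P n (u n) := by
    intro n
    induction n with
    | zero => exact ha0
    | succ n ih => exact (hg n (u n) ih).1
  exact ⟨u, hu, fun n => (hg n (u n) (hu n)).2⟩

section
variable {H : Type*} [NormedAddCommGroup H] [InnerProductSpace ℝ H]

lemma near_max (Ψ : H → ℝ) {r S η : ℝ} (hr : 0 ≤ r) (hS : ∀ w, ‖w‖ ≤ r → Ψ w ≤ S) (hη : 0 < η) :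
    ∃ z, ‖z‖ ≤ r ∧ ∀ w, ‖w‖ ≤ r → Ψ w ≤ Ψ z + η := by
  set I : Set ℝ := Ψ '' {w | ‖w‖ ≤ r} with hI
  have hne : I.Nonempty := ⟨Ψ 0, 0, by simpa using hr, rfl⟩
  have hb : BddAbove I := by
    refine ⟨S, ?_⟩
    rintro _ ⟨w, hw, rfl⟩
    exact hS w hw
  obtain ⟨_, ⟨z, hz, rfl⟩, h⟩ := exists_lt_of_lt_csSup hne (sub_lt_self (sSup I) hη)
  refine ⟨z, hz, fun w hw => ?_⟩
  have : Ψ w ≤ sSup I := le_csSup hb ⟨w, hw, rfl⟩
  linarith

/-- a smooth variational principle on balls of a Hilbert space -/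
lemma vp [CompleteSpace H] (Φ : H → ℝ) (hΦ : Continuous Φ) {r S ε : ℝ} (hr : 0 ≤ r)
    (hS : ∀ w, ‖w‖ ≤ r → Φ w ≤ S) (hε : 0 < ε) :
    ∃ z c : H, ‖z‖ ≤ r ∧ ‖c‖ ≤ r ∧
      ∀ w, ‖w‖ ≤ r → Φ w - ε * ‖w - c‖ ^ 2 ≤ Φ z - ε * ‖z - c‖ ^ 2 := by
  obtain ⟨u, hP, hR⟩ := dep_choice
    (fun n (s : (H → ℝ) × H) => (n = 0 → s.1 = Φ) ∧ (∀ w, ‖w‖ ≤ r → s.1 w ≤ S) ∧ ‖s.2‖ ≤ r ∧
      ∀ w, ‖w‖ ≤ r → s.1 w ≤ s.1 s.2 + ε * (1 / 8) ^ n)
    (fun n s s' => s'.1 = fun w => s.1 w - ε * ((1 / 2) ^ (n + 1) * ‖w - s.2‖ ^ 2))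
    (by
      obtain ⟨z, hz, h⟩ := near_max Φ hr hS hε
      exact ⟨(Φ, z), fun _ => rfl, hS, hz, by simpa using h⟩)
    (by
      rintro n ⟨Ψ, z⟩ ⟨-, h1, h2, h3⟩
      have hb : ∀ w, ‖w‖ ≤ r → Ψ w - ε * ((1 / 2) ^ (n + 1) * ‖w - z‖ ^ 2) ≤ S := by
        intro w hw
        have := h1 w hw
        have h4 : 0 ≤ ε * ((1 / 2 : ℝ) ^ (n + 1) * ‖w - z‖ ^ 2) := by positivity
        simp only at this
        linarith
      obtain ⟨z', hz', h⟩ := near_max (fun w => Ψ w - ε * ((1 / 2) ^ (n + 1) * ‖w - z‖ ^ 2)) hr hb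
        (show 0 < ε * (1 / 8) ^ (n + 1) by positivity)
      exact ⟨(fun w => Ψ w - ε * ((1 / 2) ^ (n + 1) * ‖w - z‖ ^ 2), z'),
        ⟨fun h => absurd h (Nat.succ_ne_zero n), hb, hz', h⟩, rfl⟩)
  set z : ℕ → H := fun n => (u n).2 with hz
  have hz_mem : ∀ n, ‖z n‖ ≤ r := fun n => (hP n).2.2.1
  have hmax : ∀ n w, ‖w‖ ≤ r → (u n).1 w ≤ (u n).1 (z n) + ε * (1 / 8) ^ n :=
    fun n => (hP n).2.2.2
  have hstep : ∀ n w, (u (n + 1)).1 w = (u n).1 w - ε * ((1 / 2) ^ (n + 1) * ‖w - z n‖ ^ 2) := by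
    intro n w
    have := hR n
    rw [this]
  have h0 : (u 0).1 = Φ := (hP 0).1 rfl
  have hsum : ∀ n w, (u n).1 w =
      Φ w - ε * ∑ k ∈ Finset.range n, (1 / 2) ^ (k + 1) * ‖w - z k‖ ^ 2 := by
    intro n w
    induction n with
    | zero => simp [h0]
    | succ n ih =>
      rw [hstep, ih, Finset.sum_range_succ]; ring
  have hdist : ∀ n, ‖z (n + 1) - z n‖ ≤ 3 / 2 * (1 / 2) ^ n := by
    intro n
    have h1 := hmax (n + 1) (z n) (hz_mem n)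
    have h2 := hmax n (z (n + 1)) (hz_mem (n + 1))
    rw [hstep, hstep] at h1
    simp only [sub_self, norm_zero] at h1
    have h3 : ε * ((1 / 2) ^ (n + 1) * ‖z (n + 1) - z n‖ ^ 2) ≤
        ε * ((1 / 8) ^ n + (1 / 8) ^ (n + 1)) := by nlinarith
    have h4 := le_of_mul_le_mul_left h3 hε
    have h5 : ‖z (n + 1) - z n‖ ^ 2 ≤ (3 / 2 * (1 / 2) ^ n) ^ 2 := by
      have e1 : (1 / 8 : ℝ) ^ n = (1 / 2) ^ n * ((1 / 2) ^ n) ^ 2 := by
        rw [← pow_mul, ← pow_add, show (1 / 8 : ℝ) = (1 / 2) ^ 3 by norm_num, ← pow_mul]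
        congr 1; ring
      have e3 : (1 / 2 : ℝ) ^ (n + 1) = (1 / 2) ^ n * (1 / 2) := pow_succ _ _
      have e4 : (1 / 8 : ℝ) ^ (n + 1) = (1 / 8) ^ n * (1 / 8) := pow_succ _ _
      rw [e4, e3, e1] at h4
      have e2 : (0 : ℝ) < (1 / 2) ^ n := by positivity
      have h6 : (1 / 2 : ℝ) ^ n * ‖z (n + 1) - z n‖ ^ 2 ≤
          (1 / 2) ^ n * (3 / 2 * (1 / 2) ^ n) ^ 2 := by nlinarith
      exact le_of_mul_le_mul_left h6 e2
    exact le_of_sq_le_sq h5 (by positivity)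
  have hcau : CauchySeq z := by
    refine cauchySeq_of_le_geometric (1 / 2) (3 / 2) (by norm_num) (fun n => ?_)
    rw [dist_comm, dist_eq_norm]
    exact hdist n
  obtain ⟨zb, hzb⟩ := cauchySeq_tendsto_of_complete hcau
  have hgeo : HasSum (fun k : ℕ => (1 / 2 : ℝ) ^ (k + 1)) 1 := by
    have := hasSum_geometric_two' (1 : ℝ)
    simpa [pow_succ, div_eq_mul_inv, mul_comm] using this
  have hbs : Summable (fun k => (1 / 2 : ℝ) ^ (k + 1) • z k) := by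
    refine Summable.of_norm_bounded (g := fun k => (1 / 2 : ℝ) ^ (k + 1) * r)
      (hgeo.summable.mul_right r) (fun k => ?_)
    rw [norm_smul, Real.norm_eq_abs, abs_of_pos (by positivity)]
    gcongr
    exact hz_mem k
  have hcs : Summable (fun k => (1 / 2 : ℝ) ^ (k + 1) * ‖z k‖ ^ 2) := by
    refine Summable.of_nonneg_of_le (fun k => by positivity) (fun k => ?_)
      (hgeo.summable.mul_right (r ^ 2))
    gcongr
    exact hz_mem k
  obtain ⟨b, hb⟩ := hbs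
  obtain ⟨c, hc⟩ := hcs
  have t1 := hgeo.tendsto_sum_nat
  have t2 := hb.tendsto_sum_nat
  have t3 := hc.tendsto_sum_nat
  have hid : ∀ n w, ∑ k ∈ Finset.range n, (1 / 2 : ℝ) ^ (k + 1) * ‖w - z k‖ ^ 2 =
      (∑ k ∈ Finset.range n, (1 / 2 : ℝ) ^ (k + 1)) * ‖w‖ ^ 2 -
        2 * ⟪∑ k ∈ Finset.range n, (1 / 2 : ℝ) ^ (k + 1) • z k, w⟫_ℝ +
        ∑ k ∈ Finset.range n, (1 / 2 : ℝ) ^ (k + 1) * ‖z k‖ ^ 2 := by
    intro n w
    rw [sum_inner, Finset.sum_mul, Finset.mul_sum, ← Finset.sum_sub_distrib,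
      ← Finset.sum_add_distrib]
    apply Finset.sum_congr rfl
    intro k _
    rw [norm_sub_sq_real, real_inner_smul_left, real_inner_comm]
    ring
  refine ⟨zb, b, ?_, ?_, ?_⟩
  · exact le_of_tendsto' hzb.norm hz_mem
  · refine le_of_tendsto' t2.norm (fun n => ?_)
    calc ‖∑ k ∈ Finset.range n, (1 / 2 : ℝ) ^ (k + 1) • z k‖
        ≤ ∑ k ∈ Finset.range n, ‖(1 / 2 : ℝ) ^ (k + 1) • z k‖ := norm_sum_le _ _
      _ ≤ ∑ k ∈ Finset.range n, (1 / 2 : ℝ) ^ (k + 1) * r := by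
          apply Finset.sum_le_sum
          intro k _
          rw [norm_smul, Real.norm_eq_abs, abs_of_pos (by positivity)]
          gcongr
          exact hz_mem k
      _ = (∑ k ∈ Finset.range n, (1 / 2 : ℝ) ^ (k + 1)) * r := by rw [Finset.sum_mul]
      _ ≤ 1 * r := by
          gcongr
          exact sum_le_hasSum _ (fun k _ => by positivity) hgeo
      _ = r := one_mul r
  · intro w hw
    have L1 : Tendsto (fun n => (u n).1 w) atTop (𝓝 (Φ w - ε * (1 * ‖w‖ ^ 2 - 2 * ⟪b, w⟫_ℝ + c))) := by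
      simp only [hsum, hid]
      exact tendsto_const_nhds.sub (((t1.mul_const _).sub
        ((t2.inner tendsto_const_nhds).const_mul 2)).add t3 |>.const_mul ε)
    have L2 : Tendsto (fun n => (u n).1 (z n) + ε * (1 / 8) ^ n) atTop
        (𝓝 (Φ zb - ε * (1 * ‖zb‖ ^ 2 - 2 * ⟪b, zb⟫_ℝ + c) + ε * 0)) := by
      simp only [hsum, hid]
      refine Tendsto.add ?_ ((tendsto_pow_atTop_nhds_zero_of_lt_one (by norm_num)
        (by norm_num)).const_mul ε)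
      exact ((hΦ.tendsto zb).comp hzb).sub (((t1.mul (hzb.norm.pow 2)).sub
        ((t2.inner hzb).const_mul 2)).add t3 |>.const_mul ε)
    have := le_of_tendsto_of_tendsto' L1 L2 (fun n => hmax n w hw)
    rw [norm_sub_sq_real, norm_sub_sq_real, real_inner_comm, real_inner_comm b zb]
    linarith

end



section
variable {H : Type*} [NormedAddCommGroup H] [InnerProductSpace ℝ H]

lemma exp_lower {x : ℝ} (hx : -2 ≤ x) : 1 + x + x ^ 2 / 4 ≤ Real.exp x := by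
  have h1 : x / 2 + 1 ≤ Real.exp (x / 2) := Real.add_one_le_exp _
  have h2 : Real.exp x = Real.exp (x / 2) * Real.exp (x / 2) := by
    rw [← Real.exp_add]; congr 1; ring
  rw [h2]
  have h3 : 0 ≤ x / 2 + 1 := by linarith
  nlinarith

lemma imp_final {μ δ β E E0 w k2 s γ ν ε t J1 J0 : ℝ} (hs : 0 < s) (hδ : 0 < δ) (hβ : 0 < β)
    (hE : 0 < E) (hw : 0 < w) (hμ : 0 < μ)
    (hγ : γ = δ * β ^ 2 * E / (4 * s ^ 2)) (hβe : β * w * k2 = 8 * μ)
    (hτs : 3 / 4 * (k2 * s ^ 2) < t ^ 2) (h1 : J1 ≤ J0 + ν - γ * w * (2 * t) ^ 2)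
    (hν : ν = 2 * ε + δ * β * E * μ) (hEE0 : E0 < E) (hε1 : 4 * ε ≤ μ * δ * β * E0) :
    J1 + ν ≤ J0 - 3 * μ * β * E0 * δ := by
  have h2 : γ * w * (2 * t) ^ 2 ≥ 6 * μ * δ * β * E := by
    have i1 : γ * w * (2 * t) ^ 2 = δ * β ^ 2 * E * w / s ^ 2 * t ^ 2 := by
      rw [hγ]; field_simp
      ring
    have i2 : δ * β ^ 2 * E * w / s ^ 2 * (3 / 4 * (k2 * s ^ 2)) ≤
        δ * β ^ 2 * E * w / s ^ 2 * t ^ 2 := by
      gcongr
    have i3 : δ * β ^ 2 * E * w / s ^ 2 * (3 / 4 * (k2 * s ^ 2)) = 6 * μ * δ * β * E := by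
      calc δ * β ^ 2 * E * w / s ^ 2 * (3 / 4 * (k2 * s ^ 2)) =
          3 / 4 * δ * β * E * (β * w * k2) := by field_simp
        _ = _ := by rw [hβe]; ring
    rw [i1]; linarith
  have h3 : μ * δ * β * E0 ≤ μ * δ * β * E := by gcongr
  have h4 : 3 * μ * β * E0 * δ = 3 * (μ * δ * β * E0) := by ring
  rw [h4]
  have h5 : ν = 2 * ε + μ * δ * β * E := by rw [hν]; ring
  have h6 : 6 * μ * δ * β * E = 6 * (μ * δ * β * E) := by ring
  rw [h5] at h1 ⊢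
  rw [h6] at h2
  linarith

/-- the improvement lemma -/
lemma imp [CompleteSpace H] {K a w : ℝ} (ha : 0 < a) (haK : a ≤ K) (hw : 0 < w) :
    ∃ c C : ℝ, 0 < c ∧ 0 < C ∧
    ∀ (f : H → ℝ), ConvexOn ℝ Set.univ f → Continuous f →
    ∀ (J : (H → ℝ) → ℝ) (e : H), ‖e‖ = 1 →
    ∀ (x p : H) (A : H → ℝ), QF A → (∀ z, A z ≤ K * ‖z‖ ^ 2) →
    (∀ (α γ : ℝ) (g : H), 0 ≤ α → 0 ≤ γ →
       J (fun z => A z + α * ‖z‖ ^ 2 - γ * ⟪g, z⟫_ℝ ^ 2) ≤ J A + α - γ * w * ⟪g, e⟫_ℝ ^ 2) →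
    ∀ r : ℝ, T f x p A r → ∀ s : ℝ, 0 < s → 4 * s ≤ r →
      f (x + s • e) - f x - ⟪p, s • e⟫_ℝ ≤ (A e - a) * s ^ 2 →
    ∀ δ : ℝ, 0 < δ → δ < a / 4 →
    ∃ (y q : H) (A' : H → ℝ) (ν r' : ℝ), ‖y - x‖ ≤ 3 * s ∧ 0 < ν ∧ ν ≤ C * δ ∧ 0 < r' ∧ QF A' ∧
      (∀ z, A' z ≤ A z + ν * ‖z‖ ^ 2) ∧
      T f y q (fun z => A z + ν * ‖z‖ ^ 2) (r - 3 * s) ∧ T f y q A' r' ∧
      J A' + ν ≤ J A - c * δ := by
  have hK : 0 < K := lt_of_lt_of_le ha haK
  set k2 : ℝ := a / (4 * K) with hk2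
  have hk2p : 0 < k2 := by positivity
  have hk2le : k2 ≤ 1 / 4 := by
    rw [hk2, div_le_iff₀ (by positivity)]; linarith
  have hKk2 : K * k2 = a / 4 := by rw [hk2]; field_simp
  set μ : ℝ := 8 / k2 with hμ
  have hμp : 0 < μ := by positivity
  have hμ1 : 1 ≤ μ := by
    rw [hμ, le_div_iff₀ hk2p]; linarith
  have hμk : μ * k2 = 8 := by rw [hμ]; field_simp
  set β : ℝ := 8 * μ / (w * k2) with hβ
  have hβp : 0 < β := by positivity
  have hβe : β * w * k2 = 8 * μ := by rw [hβ]; field_simp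
  set E0 : ℝ := Real.exp (-(2 * β)) with hE0
  have hE0p : 0 < E0 := Real.exp_pos _
  refine ⟨3 * μ * β * E0, 2 * β * μ, by positivity, by positivity, ?_⟩
  intro f hf hfc J e he x p A hA hAK hJ r hT s hs hsr hdip δ hδ hδa
  have hr : 0 < r := by linarith
  have hA0 := form_nonneg hf hA hr hT
  have hsub := subgrad hf hA hr hT
  set b : ℝ := β / s ^ 2 with hb
  have hbp : 0 < b := by positivity
  have hbs : b * s ^ 2 = β := by rw [hb]; field_simp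
  -- the functions
  let Q : H → ℝ := fun z => (⟪e, z⟫_ℝ - s) ^ 2 + μ * (‖z‖ ^ 2 - ⟪e, z⟫_ℝ ^ 2)
  have hcs : ∀ z : H, ⟪e, z⟫_ℝ ^ 2 ≤ ‖z‖ ^ 2 := by
    intro z
    have h1 := abs_real_inner_le_norm e z
    rw [he, one_mul] at h1
    exact sq_le_sq' (by linarith [neg_abs_le ⟪e, z⟫_ℝ]) ((le_abs_self _).trans h1)
  have hQ0 : ∀ z, 0 ≤ Q z := by
    intro z
    have := hcs z
    have h2 : 0 ≤ μ * (‖z‖ ^ 2 - ⟪e, z⟫_ℝ ^ 2) := mul_nonneg hμp.le (by linarith)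
    have h3 := sq_nonneg (⟪e, z⟫_ℝ - s)
    show 0 ≤ (⟪e, z⟫_ℝ - s) ^ 2 + μ * (‖z‖ ^ 2 - ⟪e, z⟫_ℝ ^ 2)
    linarith
  have hQc : Continuous Q := by
    show Continuous fun z : H => (⟪e, z⟫_ℝ - s) ^ 2 + μ * (‖z‖ ^ 2 - ⟪e, z⟫_ℝ ^ 2)
    fun_prop
  let Φ : H → ℝ := fun z => (f (x + z) - f x - ⟪p, z⟫_ℝ) - A z +
    δ * s ^ 2 * (Real.exp (-(b * Q z)) - E0)
  have hΦc : Continuous Φ := by
    have h1 : Continuous fun z : H => f (x + z) := hfc.comp (by fun_prop)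
    have h2 := hA.continuous
    show Continuous fun z : H => (f (x + z) - f x - ⟪p, z⟫_ℝ) - A z +
      δ * s ^ 2 * (Real.exp (-(b * Q z)) - E0)
    fun_prop
  have hexp1 : ∀ z, Real.exp (-(b * Q z)) ≤ 1 := by
    intro z
    rw [Real.exp_le_one_iff]
    have := mul_nonneg hbp.le (hQ0 z)
    linarith
  have hRA : ∀ z, ‖z‖ ≤ r → f (x + z) - f x - ⟪p, z⟫_ℝ ≤ A z := by
    intro z hz
    have := hT z hz
    linarith
  have hΦS : ∀ z, ‖z‖ ≤ r → Φ z ≤ δ * s ^ 2 := by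
    intro z hz
    have h1 := hRA z hz
    have h2 := hexp1 z
    have h3 : δ * s ^ 2 * (Real.exp (-(b * Q z)) - E0) ≤ δ * s ^ 2 * 1 := by
      gcongr; linarith
    show (f (x + z) - f x - ⟪p, z⟫_ℝ) - A z + δ * s ^ 2 * (Real.exp (-(b * Q z)) - E0) ≤ _
    linarith
  have hΦ0 : Φ 0 = δ * s ^ 2 * (Real.exp (-β) - E0) := by
    have hq : b * Q 0 = β := by
      show b * ((⟪e, (0:H)⟫_ℝ - s) ^ 2 + μ * (‖(0:H)‖ ^ 2 - ⟪e, (0:H)⟫_ℝ ^ 2)) = β
      rw [inner_zero_right, norm_zero, ← hbs]; ring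
    show (f (x + 0) - f x - ⟪p, (0:H)⟫_ℝ) - A 0 + δ * s ^ 2 * (Real.exp (-(b * Q 0)) - E0) = _
    rw [hq, add_zero, inner_zero_right, hA.zero]; ring
  have hΦ0p : 0 < Φ 0 := by
    rw [hΦ0]
    have : E0 < Real.exp (-β) := by
      rw [hE0]; apply Real.exp_lt_exp.2; linarith
    have h2 : 0 < Real.exp (-β) - E0 := by linarith
    positivity
  set ε : ℝ := min (μ * δ * β * E0 / 4) (Φ 0 / (2 * r ^ 2)) with hε
  have hεp : 0 < ε := by
    apply lt_min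
    · positivity
    · positivity
  have hε1 : 4 * ε ≤ μ * δ * β * E0 := by
    have := min_le_left (μ * δ * β * E0 / 4) (Φ 0 / (2 * r ^ 2))
    rw [← hε] at this; linarith
  have hε2 : ε * r ^ 2 ≤ Φ 0 / 2 := by
    have := min_le_right (μ * δ * β * E0 / 4) (Φ 0 / (2 * r ^ 2))
    rw [← hε, le_div_iff₀ (by positivity)] at this
    linarith
  obtain ⟨zb, cc, hzb, hcc, hmax⟩ := vp Φ hΦc hr.le hΦS hεp
  have hΦpos : 0 < Φ zb := by
    have h1 := hmax 0 (by simpa using hr.le)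
    have h2 : ‖(0:H) - cc‖ ^ 2 ≤ r ^ 2 := by
      rw [zero_sub, norm_neg]; gcongr
    have h3 : 0 ≤ ε * ‖zb - cc‖ ^ 2 := by positivity
    have h4 : ε * ‖(0:H) - cc‖ ^ 2 ≤ ε * r ^ 2 := by gcongr
    linarith
  set τ : ℝ := ⟪e, zb⟫_ℝ with hτ
  have hΦzb : Φ zb = (f (x + zb) - f x - ⟪p, zb⟫_ℝ) - A zb +
    δ * s ^ 2 * (Real.exp (-(b * Q zb)) - E0) := rfl
  have hRAzb := hRA zb hzb
  set E : ℝ := Real.exp (-(b * Q zb)) with hE
  have hEp : 0 < E := Real.exp_pos _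
  have hE1 : E ≤ 1 := hexp1 zb
  have hds : 0 < δ * s ^ 2 := by positivity
  have hEE0 : E0 < E := by
    by_contra hcon
    push Not at hcon
    have : δ * s ^ 2 * (E - E0) ≤ 0 := mul_nonpos_of_nonneg_of_nonpos hds.le (by linarith)
    linarith
  have hQlt : Q zb < 2 * s ^ 2 := by
    rw [hE, hE0, Real.exp_lt_exp] at hEE0
    have : b * Q zb < b * (2 * s ^ 2) := by linarith
    exact lt_of_mul_lt_mul_left this hbp.le
  have hQzb : Q zb = (τ - s) ^ 2 + μ * (‖zb‖ ^ 2 - τ ^ 2) := rfl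
  set n2 : ℝ := ‖zb‖ ^ 2 - τ ^ 2 with hn2
  have hn20 : 0 ≤ n2 := by have := hcs zb; rw [hn2]; linarith
  have hn2lt : n2 < k2 * s ^ 2 / 4 := by
    have h1 : μ * n2 < μ * (k2 * s ^ 2 / 4) := by
      have : μ * (k2 * s ^ 2 / 4) = 2 * s ^ 2 := by
        calc μ * (k2 * s ^ 2 / 4) = (μ * k2) * s ^ 2 / 4 := by ring
          _ = 2 * s ^ 2 := by rw [hμk]; ring
      rw [this]
      have := sq_nonneg (τ - s)
      linarith
    exact lt_of_mul_lt_mul_left h1 hμp.le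
  have hdist : k2 * s ^ 2 < ‖zb - s • e‖ ^ 2 := by
    by_contra hcon
    push Not at hcon
    set w0 : H := zb - s • e with hw0
    have hw0n : ‖w0‖ ≤ s / 2 := by
      apply le_of_sq_le_sq _ (by positivity)
      calc ‖w0‖ ^ 2 ≤ k2 * s ^ 2 := hcon
        _ ≤ 1 / 4 * s ^ 2 := by gcongr
        _ = (s / 2) ^ 2 := by ring
    have hn : ‖s • e + (2:ℝ) • w0‖ ≤ r := by
      calc ‖s • e + (2:ℝ) • w0‖ ≤ ‖s • e‖ + ‖(2:ℝ) • w0‖ := norm_add_le _ _
        _ = s + 2 * ‖w0‖ := by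
            rw [norm_smul, norm_smul, he, Real.norm_eq_abs, Real.norm_eq_abs, abs_of_pos hs,
              abs_of_pos (by norm_num : (0:ℝ) < 2), mul_one]
        _ ≤ r := by linarith
    have h1 := hRA _ hn
    have h2 := hf.2 (Set.mem_univ (x + s • e)) (Set.mem_univ (x + (s • e + (2:ℝ) • w0)))
      (show (0:ℝ) ≤ 1/2 by norm_num) (show (0:ℝ) ≤ 1/2 by norm_num) (by norm_num)
    have e1 : (1/2 : ℝ) • (x + s • e) + (1/2 : ℝ) • (x + (s • e + (2:ℝ) • w0)) = x + zb := by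
      rw [hw0]; module
    rw [e1] at h2
    simp only [smul_eq_mul] at h2
    obtain ⟨B, hBs, hB⟩ := hA
    have hzbe : zb = s • e + w0 := by rw [hw0]; abel
    have e2 : 1 / 2 * (s ^ 2 * A e) + 1 / 2 * A (s • e + (2:ℝ) • w0) = A zb + A w0 := by
      rw [hzbe, hB, hB, hB, hB]
      simp only [map_add, map_smul, add_apply, smul_apply, smul_eq_mul]
      rw [hBs w0 e]; ring
    have e3 : ⟪p, zb⟫_ℝ = 1 / 2 * ⟪p, s • e⟫_ℝ + 1 / 2 * ⟪p, s • e + (2:ℝ) • w0⟫_ℝ := by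
      rw [hzbe, inner_add_right, inner_add_right, real_inner_smul_right, real_inner_smul_right]
      ring
    have h3 : A w0 ≤ a / 4 * s ^ 2 := by
      calc A w0 ≤ K * ‖w0‖ ^ 2 := hAK w0
        _ ≤ K * (k2 * s ^ 2) := by gcongr
        _ = a / 4 * s ^ 2 := by rw [← mul_assoc, hKk2]
    have h4 : δ * s ^ 2 * (E - E0) ≤ δ * s ^ 2 * 1 := by
      gcongr; linarith
    have h5 : δ * s ^ 2 < a / 4 * s ^ 2 := by gcongr
    rw [hΦzb] at hΦpos
    clear hmax hτ hQlt hQzb hΦ0 hΦ0p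
    linarith
  have hde : ‖zb - s • e‖ ^ 2 = (τ - s) ^ 2 + n2 := by
    rw [norm_sub_sq_real, real_inner_smul_right, real_inner_comm, ← hτ, norm_smul, he,
      Real.norm_eq_abs, abs_of_pos hs, hn2]
    ring
  have hτs : 3 / 4 * (k2 * s ^ 2) < (τ - s) ^ 2 := by
    rw [hde] at hdist; linarith
  have hzbn : ‖zb‖ ≤ 3 * s := by
    apply le_of_sq_le_sq _ (by positivity)
    have h1 : ‖zb‖ ^ 2 = τ ^ 2 + n2 := by rw [hn2]; ring
    have h2 : (τ - s) ^ 2 < 2 * s ^ 2 := by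
      have : 0 ≤ μ * n2 := by positivity
      linarith
    have h3 : k2 * s ^ 2 ≤ 1 / 4 * s ^ 2 := by gcongr
    have h4 := sq_nonneg (τ - 2 * s)
    rw [h1]
    linarith
  -- the new point
  obtain ⟨B, hBs, hB⟩ := id hA
  set g : H := (2 * (τ - s)) • e + (2 * μ) • (zb - τ • e) with hg
  have hgi : ∀ v, ⟪g, v⟫_ℝ = 2 * (τ - s) * ⟪e, v⟫_ℝ + 2 * μ * (⟪zb, v⟫_ℝ - τ * ⟪e, v⟫_ℝ) := by
    intro v
    rw [hg, inner_add_left, real_inner_smul_left, real_inner_smul_left, inner_sub_left,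
      real_inner_smul_left]
  have hge : ⟪g, e⟫_ℝ = 2 * (τ - s) := by
    rw [hgi, real_inner_self_eq_norm_sq, he, real_inner_comm, ← hτ]; ring
  have hQd : ∀ v, Q (zb + v) = Q zb + (⟪g, v⟫_ℝ + (⟪e, v⟫_ℝ ^ 2 + μ * (‖v‖ ^ 2 - ⟪e, v⟫_ℝ ^ 2))) := by
    intro v
    show (⟪e, zb + v⟫_ℝ - s) ^ 2 + μ * (‖zb + v‖ ^ 2 - ⟪e, zb + v⟫_ℝ ^ 2) = _
    rw [hQzb, hgi, inner_add_right, ← hτ, norm_add_sq_real, hn2]
    ring
  set Bv : H := (InnerProductSpace.toDual ℝ H).symm (B zb) with hBv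
  have hBvi : ∀ v, ⟪Bv, v⟫_ℝ = B zb v := by
    intro v
    rw [hBv, InnerProductSpace.toDual_symm_apply]
  set q : H := p + (2 * ε) • (zb - cc) + (2:ℝ) • Bv + (δ * β * E) • g with hq
  have hqi : ∀ v, ⟪q, v⟫_ℝ = ⟪p, v⟫_ℝ + 2 * ε * ⟪zb - cc, v⟫_ℝ + 2 * B zb v + δ * β * E * ⟪g, v⟫_ℝ := by
    intro v
    rw [hq, inner_add_left, inner_add_left, inner_add_left, real_inner_smul_left,
      real_inner_smul_left, real_inner_smul_left, hBvi]
  have hMI : ∀ v, ‖zb + v‖ ≤ r → f (x + zb + v) ≤ f (x + zb) + ⟪p, v⟫_ℝ +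
      ε * (2 * ⟪zb - cc, v⟫_ℝ + ‖v‖ ^ 2) + 2 * B zb v + A v -
      δ * s ^ 2 * (Real.exp (-(b * Q (zb + v))) - E) := by
    intro v hv
    have h1 := hmax (zb + v) hv
    have e1 : Φ (zb + v) = (f (x + (zb + v)) - f x - ⟪p, zb + v⟫_ℝ) - A (zb + v) +
      δ * s ^ 2 * (Real.exp (-(b * Q (zb + v))) - E0) := rfl
    rw [e1, hΦzb] at h1
    have e2 : A (zb + v) = A zb + 2 * B zb v + A v := by
      rw [hB, hB, hB]
      simp only [map_add, add_apply]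
      rw [hBs v zb]; ring
    have e3 : ‖zb + v - cc‖ ^ 2 = ‖zb - cc‖ ^ 2 + 2 * ⟪zb - cc, v⟫_ℝ + ‖v‖ ^ 2 := by
      rw [show zb + v - cc = (zb - cc) + v by abel, norm_add_sq_real]
    rw [e2, e3, inner_add_right, ← add_assoc x zb v] at h1
    linarith
  set ν : ℝ := 2 * ε + δ * β * E * μ with hν
  set γ : ℝ := δ * β ^ 2 * E / (4 * s ^ 2) with hγ
  have hγp : 0 < γ := by positivity
  have hνp : 0 < ν := by positivity
  have hq0 : ∀ v : H, 0 ≤ ⟪e, v⟫_ℝ ^ 2 + μ * (‖v‖ ^ 2 - ⟪e, v⟫_ℝ ^ 2) ∧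
      ⟪e, v⟫_ℝ ^ 2 + μ * (‖v‖ ^ 2 - ⟪e, v⟫_ℝ ^ 2) ≤ μ * ‖v‖ ^ 2 := by
    intro v
    have h1 := hcs v
    have h2 := sq_nonneg ⟪e, v⟫_ℝ
    constructor
    · have : 0 ≤ μ * (‖v‖ ^ 2 - ⟪e, v⟫_ℝ ^ 2) := mul_nonneg hμp.le (by linarith)
      linarith
    · have : 0 ≤ (μ - 1) * ⟪e, v⟫_ℝ ^ 2 := mul_nonneg (by linarith) h2
      linarith
  have hexpd : ∀ v, Real.exp (-(b * Q (zb + v))) = E * Real.exp (-(b * (⟪g, v⟫_ℝ +
      (⟪e, v⟫_ℝ ^ 2 + μ * (‖v‖ ^ 2 - ⟪e, v⟫_ℝ ^ 2))))) := by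
    intro v
    rw [hE, ← Real.exp_add, hQd v]; congr 1; ring
  set r' : ℝ := min (min (r - 3 * s) 1) (min (2 / (b * (‖g‖ + μ))) (ε / (2 * γ * ‖g‖ * μ + 1)))
    with hr'
  have hr'p : 0 < r' := by
    have : 0 < r - 3 * s := by linarith
    positivity
  refine ⟨x + zb, q, fun z => A z + ν * ‖z‖ ^ 2 - γ * ⟪g, z⟫_ℝ ^ 2, ν, r', ?_, hνp, ?_, hr'p,
    hA.modify _ _ _, ?_, ?_, ?_, ?_⟩
  · rw [add_sub_cancel_left]; exact hzbn
  · have h1 : δ * β * E * μ ≤ δ * β * 1 * μ := by gcongr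
    have h2 : μ * δ * β * E0 ≤ μ * δ * β * 1 := by
      gcongr
      exact (hEE0.le.trans hE1)
    rw [hν]
    linarith
  · intro z
    have : 0 ≤ γ * ⟪g, z⟫_ℝ ^ 2 := by positivity
    simp only
    linarith
  · intro v hv
    have hv' : ‖zb + v‖ ≤ r := by
      calc ‖zb + v‖ ≤ ‖zb‖ + ‖v‖ := norm_add_le _ _
        _ ≤ r := by linarith
    have h1 := hMI v hv'
    have h2 := hexpd v
    obtain ⟨h3, h4⟩ := hq0 v
    set q0 : ℝ := ⟪e, v⟫_ℝ ^ 2 + μ * (‖v‖ ^ 2 - ⟪e, v⟫_ℝ ^ 2) with hq0'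
    have h5 := Real.add_one_le_exp (-(b * (⟪g, v⟫_ℝ + q0)))
    have h6 : E * (-(b * (⟪g, v⟫_ℝ + q0)) + 1) ≤ Real.exp (-(b * Q (zb + v))) := by
      rw [h2]; gcongr
    have h7 : δ * s ^ 2 * (E * (-(b * (⟪g, v⟫_ℝ + q0)) + 1) - E) ≤
        δ * s ^ 2 * (Real.exp (-(b * Q (zb + v))) - E) := by
      gcongr
    have h8 : δ * s ^ 2 * (E * (-(b * (⟪g, v⟫_ℝ + q0)) + 1) - E) =
        - (δ * β * E * (⟪g, v⟫_ℝ + q0)) := by
      calc δ * s ^ 2 * (E * (-(b * (⟪g, v⟫_ℝ + q0)) + 1) - E) =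
          - (δ * (b * s ^ 2) * E * (⟪g, v⟫_ℝ + q0)) := by ring
        _ = _ := by rw [hbs]
    have h9 : δ * β * E * q0 ≤ δ * β * E * (μ * ‖v‖ ^ 2) := by gcongr
    have h10 := hqi v
    have h11 : 0 ≤ ε * ‖v‖ ^ 2 := by positivity
    show f (x + zb + v) ≤ f (x + zb) + ⟪q, v⟫_ℝ + _
    rw [h10, hν]
    linarith
  · intro v hv
    have hr1 : r' ≤ r - 3 * s := (min_le_left _ _).trans (min_le_left _ _)
    have hr2 : r' ≤ 1 := (min_le_left _ _).trans (min_le_right _ _)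
    have hr3 : r' ≤ 2 / (b * (‖g‖ + μ)) := (min_le_right _ _).trans (min_le_left _ _)
    have hr4 : r' ≤ ε / (2 * γ * ‖g‖ * μ + 1) := (min_le_right _ _).trans (min_le_right _ _)
    have hv' : ‖zb + v‖ ≤ r := by
      calc ‖zb + v‖ ≤ ‖zb‖ + ‖v‖ := norm_add_le _ _
        _ ≤ r := by linarith
    have h1 := hMI v hv'
    have h2 := hexpd v
    obtain ⟨h3, h4⟩ := hq0 v
    set q0 : ℝ := ⟪e, v⟫_ℝ ^ 2 + μ * (‖v‖ ^ 2 - ⟪e, v⟫_ℝ ^ 2) with hq0'
    have hgv : |⟪g, v⟫_ℝ| ≤ ‖g‖ * ‖v‖ := abs_real_inner_le_norm g v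
    have hv1 : ‖v‖ ≤ 1 := by linarith
    have hvn := norm_nonneg v
    have hbΔ : b * (⟪g, v⟫_ℝ + q0) ≤ 2 := by
      have i1 : ⟪g, v⟫_ℝ + q0 ≤ (‖g‖ + μ) * ‖v‖ := by
        have i0 : ‖v‖ ^ 2 ≤ ‖v‖ := by
          calc ‖v‖ ^ 2 = ‖v‖ * ‖v‖ := by ring
            _ ≤ 1 * ‖v‖ := by gcongr
            _ = ‖v‖ := one_mul _
        have : μ * ‖v‖ ^ 2 ≤ μ * ‖v‖ := by gcongr
        have i2 := le_abs_self ⟪g, v⟫_ℝ
        linarith
      have i2 : ‖v‖ ≤ 2 / (b * (‖g‖ + μ)) := hv.trans hr3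
      rw [le_div_iff₀ (by positivity)] at i2
      calc b * (⟪g, v⟫_ℝ + q0) ≤ b * ((‖g‖ + μ) * ‖v‖) := by gcongr
        _ = ‖v‖ * (b * (‖g‖ + μ)) := by ring
        _ ≤ 2 := i2
    have h5 := exp_lower (x := -(b * (⟪g, v⟫_ℝ + q0))) (by linarith)
    have h6 : E * (1 + -(b * (⟪g, v⟫_ℝ + q0)) + (-(b * (⟪g, v⟫_ℝ + q0))) ^ 2 / 4) ≤
        Real.exp (-(b * Q (zb + v))) := by
      rw [h2]; gcongr
    have h7 : δ * s ^ 2 * (E * (1 + -(b * (⟪g, v⟫_ℝ + q0)) +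
        (-(b * (⟪g, v⟫_ℝ + q0))) ^ 2 / 4) - E) ≤
        δ * s ^ 2 * (Real.exp (-(b * Q (zb + v))) - E) := by
      gcongr
    have hγ2 : γ = δ * s ^ 2 * E * b ^ 2 / 4 := by
      rw [hγ, hb]; field_simp
    have h8 : δ * s ^ 2 * (E * (1 + -(b * (⟪g, v⟫_ℝ + q0)) +
        (-(b * (⟪g, v⟫_ℝ + q0))) ^ 2 / 4) - E) =
        - (δ * β * E * (⟪g, v⟫_ℝ + q0)) + γ * (⟪g, v⟫_ℝ + q0) ^ 2 := by
      rw [hγ2, ← hbs]; ring
    have h9 : δ * β * E * q0 ≤ δ * β * E * (μ * ‖v‖ ^ 2) := by gcongr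
    have h10 := hqi v
    have h11 : ⟪g, v⟫_ℝ ^ 2 - 2 * ‖g‖ * μ * ‖v‖ ^ 3 ≤ (⟪g, v⟫_ℝ + q0) ^ 2 := by
      have i1 : |⟪g, v⟫_ℝ| * q0 ≤ (‖g‖ * ‖v‖) * (μ * ‖v‖ ^ 2) := by gcongr
      have i2 : -(|⟪g, v⟫_ℝ| * q0) ≤ ⟪g, v⟫_ℝ * q0 := by
        have := neg_abs_le ⟪g, v⟫_ℝ
        calc -(|⟪g, v⟫_ℝ| * q0) = (-|⟪g, v⟫_ℝ|) * q0 := by ring
          _ ≤ ⟪g, v⟫_ℝ * q0 := by gcongr
      have i3 := sq_nonneg q0
      linarith
    have h12 : γ * (⟪g, v⟫_ℝ ^ 2 - 2 * ‖g‖ * μ * ‖v‖ ^ 3) ≤ γ * (⟪g, v⟫_ℝ + q0) ^ 2 := by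
      gcongr
    have h13 : γ * (2 * ‖g‖ * μ * ‖v‖ ^ 3) ≤ ε * ‖v‖ ^ 2 := by
      have i1 : ‖v‖ ≤ ε / (2 * γ * ‖g‖ * μ + 1) := hv.trans hr4
      rw [le_div_iff₀ (by positivity)] at i1
      have i2 : 2 * γ * ‖g‖ * μ * ‖v‖ ≤ ε := by linarith
      calc γ * (2 * ‖g‖ * μ * ‖v‖ ^ 3) = (2 * γ * ‖g‖ * μ * ‖v‖) * ‖v‖ ^ 2 := by ring
        _ ≤ ε * ‖v‖ ^ 2 := by gcongr
    show f (x + zb + v) ≤ f (x + zb) + ⟪q, v⟫_ℝ + _
    rw [h10, hν]
    linarith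
  · have h1 := hJ ν γ g hνp.le hγp.le
    rw [hge] at h1
    exact imp_final hs hδ hβp hEp hw hμp hγ hβe hτs h1 hν hEE0 hε1

end



section
variable {H : Type*} [NormedAddCommGroup H] [InnerProductSpace ℝ H]

/-- initial touching point -/
lemma init_touch [CompleteSpace H] {f : H → ℝ} (hfc : Continuous f) :
    ∃ (x p : H) (K r : ℝ), 1 ≤ K ∧ 0 < r ∧ r ≤ 1 ∧ T f x p (fun z => K * ‖z‖ ^ 2) r := by
  obtain ⟨ρ', hρ', hρ⟩ := Metric.continuousAt_iff.1 (hfc.continuousAt (x := (0:H))) 1 one_pos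
  set ρ : ℝ := min (ρ' / 2) 1 with hρd
  have hρ0 : 0 < ρ := by positivity
  have hρ1 : ρ ≤ 1 := min_le_right _ _
  have hb : ∀ z : H, ‖z‖ ≤ ρ → |f z - f 0| < 1 := by
    intro z hz
    have : dist z 0 < ρ' := by
      rw [dist_zero_right]
      have := min_le_left (ρ' / 2) 1
      rw [← hρd] at this
      linarith
    have := hρ this
    rwa [Real.dist_eq] at this
  set K : ℝ := 8 / ρ ^ 2 with hK
  have hK0 : 0 < K := by positivity
  have hKρ : K * ρ ^ 2 = 8 := by rw [hK]; field_simp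
  obtain ⟨zb, c, hzb, hc, hmax⟩ := vp (fun z => f z - K * ‖z‖ ^ 2) (by fun_prop) (r := ρ)
    (S := f 0 + 1) (ε := 1) hρ0.le (by
      intro w hw
      have h1 := (abs_lt.1 (hb w hw)).2
      have h2 : 0 ≤ K * ‖w‖ ^ 2 := by positivity
      linarith) one_pos
  have h1 := hmax 0 (by simpa using hρ0.le)
  simp only [norm_zero, zero_sub, norm_neg] at h1
  have h2 := (abs_lt.1 (hb zb hzb)).2
  have h3 : ‖c‖ ^ 2 ≤ 1 := by
    calc ‖c‖ ^ 2 ≤ 1 ^ 2 := by gcongr; linarith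
      _ = 1 := by norm_num
  have h4 : 0 ≤ ‖zb - c‖ ^ 2 := by positivity
  have h5 : K * ‖zb‖ ^ 2 ≤ 2 := by linarith
  have h6 : ‖zb‖ ≤ ρ / 2 := by
    apply le_of_sq_le_sq _ (by positivity)
    have : K * ‖zb‖ ^ 2 ≤ K * (ρ / 2) ^ 2 := by
      have : K * (ρ / 2) ^ 2 = 2 := by
        calc K * (ρ / 2) ^ 2 = K * ρ ^ 2 / 4 := by ring
          _ = 2 := by rw [hKρ]; norm_num
      linarith
    exact le_of_mul_le_mul_left this hK0
  refine ⟨zb, (2 * K) • zb + (2:ℝ) • (zb - c), K + 1, ρ / 2, by linarith, by positivity,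
    by linarith, ?_⟩
  intro w hw
  have h7 := hmax (zb + w) (by
    calc ‖zb + w‖ ≤ ‖zb‖ + ‖w‖ := norm_add_le _ _
      _ ≤ ρ := by linarith)
  have e1 : ‖zb + w - c‖ ^ 2 = ‖zb - c‖ ^ 2 + 2 * ⟪zb - c, w⟫_ℝ + ‖w‖ ^ 2 := by
    rw [show zb + w - c = (zb - c) + w by abel, norm_add_sq_real]
  have e2 : ‖zb + w‖ ^ 2 = ‖zb‖ ^ 2 + 2 * ⟪zb, w⟫_ℝ + ‖w‖ ^ 2 := norm_add_sq_real _ _
  rw [e1, e2] at h7
  rw [inner_add_left, real_inner_smul_left, real_inner_smul_left]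
  simp only
  linarith

/-- the weighted trace -/
noncomputable def Jf (ω : ℝ) (e : ℕ → H) (A : H → ℝ) : ℝ :=
  ∑' i : ℕ, ω * (1 / 2) ^ (i + 1) * A (e i)

lemma hasSum_w (ω : ℝ) : HasSum (fun i : ℕ => ω * (1 / 2 : ℝ) ^ (i + 1)) ω := by
  have h := hasSum_geometric_two' ω
  have h2 : (fun i : ℕ => ω * (1 / 2 : ℝ) ^ (i + 1)) = fun n : ℕ => ω / 2 / 2 ^ n := by
    funext i
    rw [pow_succ, one_div, inv_pow]; ring
  rw [h2]; exact h

lemma J_summable {ω : ℝ} (hω : 0 ≤ ω) {e : ℕ → H} (he : ∀ i, ‖e i‖ ≤ 1) {A : H → ℝ} {C : ℝ}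
    (hA : ∀ z, |A z| ≤ C * ‖z‖ ^ 2) : Summable (fun i => ω * (1 / 2 : ℝ) ^ (i + 1) * A (e i)) := by
  have hC : ∀ i, |A (e i)| ≤ |C| := by
    intro i
    calc |A (e i)| ≤ C * ‖e i‖ ^ 2 := hA _
      _ ≤ |C| * ‖e i‖ ^ 2 := by gcongr; exact le_abs_self C
      _ ≤ |C| * 1 ^ 2 := by gcongr; exact he i
      _ = |C| := by ring
  refine Summable.of_norm_bounded (g := fun i => ω * (1 / 2 : ℝ) ^ (i + 1) * |C|)
    ((hasSum_w ω).summable.mul_right _) (fun i => ?_)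
  rw [norm_mul, Real.norm_eq_abs, Real.norm_eq_abs,
    abs_of_nonneg (show 0 ≤ ω * (1 / 2 : ℝ) ^ (i + 1) by positivity)]
  exact mul_le_mul_of_nonneg_left (hC i) (by positivity)

lemma J_nonneg {ω : ℝ} (hω : 0 ≤ ω) {e : ℕ → H} {A : H → ℝ} (hA : ∀ z, 0 ≤ A z) :
    0 ≤ Jf ω e A :=
  tsum_nonneg (fun i => mul_nonneg (by positivity) (hA _))

lemma J_modify {ω : ℝ} (hω : 0 ≤ ω) (hω1 : ω ≤ 1) {e : ℕ → H} (he : ∀ i, ‖e i‖ ≤ 1) {A : H → ℝ}
    {C : ℝ} (hA : ∀ z, |A z| ≤ C * ‖z‖ ^ 2) (α γ : ℝ) (g : H) (hα : 0 ≤ α) (hγ : 0 ≤ γ) (j : ℕ) :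
    Jf ω e (fun z => A z + α * ‖z‖ ^ 2 - γ * ⟪g, z⟫_ℝ ^ 2) ≤
      Jf ω e A + α - γ * (ω * (1 / 2) ^ (j + 1)) * ⟪g, e j⟫_ℝ ^ 2 := by
  have s1 := J_summable hω he hA
  have s2 := J_summable (A := fun z => α * ‖z‖ ^ 2) (C := α) hω he (by
    intro z
    rw [abs_of_nonneg (by positivity)])
  have s3 := J_summable (A := fun z => γ * ⟪g, z⟫_ℝ ^ 2) (C := γ * ‖g‖ ^ 2) hω he (by
    intro z
    rw [abs_of_nonneg (by positivity), mul_assoc, ← mul_pow]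
    gcongr ?_ * ?_
    exact sq_le_sq' (by
      have := abs_real_inner_le_norm g z
      have h2 := neg_abs_le ⟪g, z⟫_ℝ
      linarith) (real_inner_le_norm _ _))
  have e1 : Jf ω e (fun z => A z + α * ‖z‖ ^ 2 - γ * ⟪g, z⟫_ℝ ^ 2) =
      Jf ω e A + Jf ω e (fun z => α * ‖z‖ ^ 2) - Jf ω e (fun z => γ * ⟪g, z⟫_ℝ ^ 2) := by
    unfold Jf
    rw [← s1.tsum_add s2, ← (s1.add s2).tsum_sub s3]
    congr 1
    funext i
    ring
  have e2 : Jf ω e (fun z => α * ‖z‖ ^ 2) ≤ α := by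
    unfold Jf
    calc ∑' i : ℕ, ω * (1 / 2) ^ (i + 1) * (α * ‖e i‖ ^ 2)
        ≤ ∑' i : ℕ, ω * (1 / 2) ^ (i + 1) * α := by
          refine Summable.tsum_le_tsum (fun i => ?_) s2 ((hasSum_w ω).summable.mul_right _)
          gcongr
          calc α * ‖e i‖ ^ 2 ≤ α * 1 ^ 2 := by gcongr; exact he i
            _ = α := by ring
      _ = ω * α := ((hasSum_w ω).mul_right α).tsum_eq
      _ ≤ 1 * α := by gcongr
      _ = α := one_mul _
  have e3 : γ * (ω * (1 / 2) ^ (j + 1)) * ⟪g, e j⟫_ℝ ^ 2 ≤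
      Jf ω e (fun z => γ * ⟪g, z⟫_ℝ ^ 2) := by
    unfold Jf
    have := s3.le_tsum j (fun i _ => by positivity)
    calc γ * (ω * (1 / 2) ^ (j + 1)) * ⟪g, e j⟫_ℝ ^ 2 =
        ω * (1 / 2) ^ (j + 1) * (γ * ⟪g, e j⟫_ℝ ^ 2) := by ring
      _ ≤ _ := this
  rw [e1]; linarith

lemma J_add {ω : ℝ} (hω : 0 ≤ ω) (hω1 : ω ≤ 1) {e : ℕ → H} (he : ∀ i, ‖e i‖ ≤ 1) {A : H → ℝ}
    {C : ℝ} (hA : ∀ z, |A z| ≤ C * ‖z‖ ^ 2) (α : ℝ) (hα : 0 ≤ α) :
    Jf ω e (fun z => A z + α * ‖z‖ ^ 2) ≤ Jf ω e A + α := by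
  have := J_modify hω hω1 he hA α 0 0 hα le_rfl 0
  simpa using this

lemma J_sq {ω K : ℝ} (hω : 0 ≤ ω) (hK : 0 ≤ K) {e : ℕ → H} (he : ∀ i, ‖e i‖ ≤ 1) :
    Jf ω e (fun z => K * ‖z‖ ^ 2) ≤ ω * K := by
  unfold Jf
  have s2 := J_summable (A := fun z => K * ‖z‖ ^ 2) (C := K) hω he (by
    intro z
    rw [abs_of_nonneg (by positivity)])
  calc ∑' i : ℕ, ω * (1 / 2) ^ (i + 1) * (K * ‖e i‖ ^ 2)
      ≤ ∑' i : ℕ, ω * (1 / 2) ^ (i + 1) * K := by
        refine Summable.tsum_le_tsum (fun i => ?_) s2 ((hasSum_w ω).summable.mul_right _)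
        gcongr
        calc K * ‖e i‖ ^ 2 ≤ K * 1 ^ 2 := by gcongr; exact he i
          _ = K := by ring
    _ = ω * K := ((hasSum_w ω).mul_right K).tsum_eq

end



section
variable {H : Type*} [NormedAddCommGroup H] [InnerProductSpace ℝ H]

/-- a state of the nested construction -/
structure St (H : Type*) where
  x : H
  p : H
  M : H → ℝ
  r : ℝ
  δ : ℝ
  ε : ℝ

/-- the class of competitors -/
def Cl (f : H → ℝ) (S : St H) (εh : ℝ) (y q : H) (M : H → ℝ) (ε : ℝ) : Prop :=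
  ‖y - S.x‖ < S.δ ∧ 0 < ε ∧ ε ≤ εh ∧ QF M ∧ (∀ z, M z ≤ S.M z + ε * ‖z‖ ^ 2) ∧
    T f y q (fun z => S.M z + ε * ‖z‖ ^ 2) (S.r * (1 - ε)) ∧ ∃ r' : ℝ, 0 < r' ∧ T f y q M r'

noncomputable def cη (n : ℕ) : ℝ := (1 / 1024) * (1 / 32) ^ n
noncomputable def eh (n : ℕ) : ℝ := (1 / 4) ^ (n + 1)
noncomputable def lam (n : ℕ) : ℝ := 1 - (1 / 2) ^ (n + 1)
noncomputable def tt (n : ℕ) : ℝ := (5 / 64) * (1 / 16) ^ n

lemma cη_pos (n : ℕ) : 0 < cη n := by unfold cη; positivity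
lemma eh_pos (n : ℕ) : 0 < eh n := by unfold eh; positivity
lemma eh_le (n : ℕ) : eh n ≤ 1 / 4 := by
  unfold eh
  calc (1 / 4 : ℝ) ^ (n + 1) = (1 / 4) ^ n * (1 / 4) := pow_succ _ _
    _ ≤ 1 * (1 / 4) := by
      gcongr
      exact pow_le_one₀ (by norm_num) (by norm_num)
    _ = 1 / 4 := by norm_num
lemma lam_nonneg (n : ℕ) : 0 ≤ lam n := by
  unfold lam
  have : (1 / 2 : ℝ) ^ (n + 1) ≤ 1 := pow_le_one₀ (by norm_num) (by norm_num)
  linarith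
lemma lam_le (n : ℕ) : lam n ≤ 1 := by
  unfold lam
  have : (0 : ℝ) < (1 / 2 : ℝ) ^ (n + 1) := by positivity
  linarith
lemma tt_pos (n : ℕ) : 0 < tt n := by unfold tt; positivity

def Inv (f : H → ℝ) (K0 : ℝ) (n : ℕ) (S : St H) : Prop :=
  QF S.M ∧ T f S.x S.p S.M S.r ∧ 0 < S.r ∧ S.r ≤ 1 ∧ 0 < S.δ ∧
    20 * (K0 + 2) * S.δ ≤ cη n * S.r ∧ ∀ z, S.M z ≤ (K0 + 1 - (1 / 4) ^ n) * ‖z‖ ^ 2

def Rel (f : H → ℝ) (J : (H → ℝ) → ℝ) (n : ℕ) (S S' : St H) : Prop :=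
  Cl f S (eh n) S'.x S'.p S'.M S'.ε ∧
    (∀ y q M ε, Cl f S (eh n) y q M ε → J S'.M + lam n * S'.ε ≤ J M + lam n * ε + cη n) ∧
    2 * S'.δ + ‖S'.x - S.x‖ ≤ S.δ ∧ S'.r ≤ S.r

lemma T.mono {f : H → ℝ} {x p : H} {A A' : H → ℝ} {r r' : ℝ} (h : T f x p A r)
    (hA : ∀ z, A z ≤ A' z) (hr : r' ≤ r) : T f x p A' r' := by
  intro z hz
  have := h z (hz.trans hr)
  have := hA z
  linarith

lemma Cl_self {f : H → ℝ} {K0 : ℝ} {n : ℕ} {S : St H} (hS : Inv f K0 n S) {ε : ℝ} (hε : 0 < ε)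
    (hεn : ε ≤ eh n) : Cl f S (eh n) S.x S.p S.M ε := by
  obtain ⟨h1, h2, h3, h4, h5, h6, h7⟩ := hS
  refine ⟨by simpa using h5, hε, hεn, h1, fun z => ?_, ?_, S.r, h3, h2⟩
  · have : 0 ≤ ε * ‖z‖ ^ 2 := by positivity
    linarith
  · refine h2.mono (fun z => ?_) ?_
    · have : 0 ≤ ε * ‖z‖ ^ 2 := by positivity
      linarith
    · have := eh_le n
      nlinarith

lemma step {f : H → ℝ} (hf : ConvexOn ℝ Set.univ f) {K0 : ℝ} (hK0 : 1 ≤ K0)
    (J : (H → ℝ) → ℝ) (hJ : ∀ A : H → ℝ, (∀ z, 0 ≤ A z) → 0 ≤ J A) (n : ℕ) (S : St H)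
    (hS : Inv f K0 n S) : ∃ S' : St H, Inv f K0 (n + 1) S' ∧ Rel f J n S S' := by
  set V : Set ℝ := {v | ∃ y q M ε, Cl f S (eh n) y q M ε ∧ v = J M + lam n * ε} with hV
  have hne : V.Nonempty := ⟨_, S.x, S.p, S.M, eh n, Cl_self hS (eh_pos n) le_rfl, rfl⟩
  have hbd : BddBelow V := by
    refine ⟨0, ?_⟩
    rintro v ⟨y, q, M, ε, ⟨-, c2, -, c4, -, -, r', c7, c8⟩, rfl⟩
    have h1 := hJ M (form_nonneg hf c4 c7 c8)
    have h2 := mul_nonneg (lam_nonneg n) c2.le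
    linarith
  obtain ⟨v, ⟨y, q, M, ε, hcl, rfl⟩, hv⟩ := exists_lt_of_csInf_lt hne
    (show sInf V < sInf V + cη n by have := cη_pos n; linarith)
  obtain ⟨c1, c2, c3, c4, c5, c6, r', c7, c8⟩ := id hcl
  obtain ⟨h1, h2, h3, h4, h5, h6, h7⟩ := id hS
  set r1 : ℝ := min r' S.r with hr1
  have hr1p : 0 < r1 := lt_min c7 h3
  set δ1 : ℝ := min (cη (n + 1) * r1 / (20 * (K0 + 2))) ((S.δ - ‖y - S.x‖) / 2) with hδ1
  have hδ1p : 0 < δ1 := by
    have := cη_pos (n + 1)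
    apply lt_min
    · positivity
    · linarith
  refine ⟨⟨y, q, M, r1, δ1, ε⟩, ⟨c4, c8.mono (fun z => le_rfl) (min_le_left _ _), hr1p,
    (min_le_right _ _).trans h4, hδ1p, ?_, ?_⟩, hcl, ?_, ?_, min_le_right _ _⟩
  · show 20 * (K0 + 2) * δ1 ≤ cη (n + 1) * r1
    have : δ1 ≤ cη (n + 1) * r1 / (20 * (K0 + 2)) := min_le_left _ _
    rw [le_div_iff₀ (by positivity)] at this
    linarith
  · intro z
    have e1 := c5 z
    have e2 := h7 z
    have e3 : ε * ‖z‖ ^ 2 ≤ (1 / 4) ^ (n + 1) * ‖z‖ ^ 2 := by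
      gcongr
      exact c3
    have e4 : (1 / 4 : ℝ) ^ (n + 1) = (1 / 4) ^ n * (1 / 4) := pow_succ _ _
    have e5 : (0 : ℝ) ≤ (1 / 4) ^ n * ‖z‖ ^ 2 := by positivity
    show M z ≤ (K0 + 1 - (1 / 4) ^ (n + 1)) * ‖z‖ ^ 2
    rw [e4] at e3 ⊢
    linarith
  · intro y' q' M' ε' h'
    have : sInf V ≤ J M' + lam n * ε' := csInf_le hbd ⟨y', q', M', ε', h', rfl⟩
    show J M + lam n * ε ≤ _
    linarith
  · show 2 * δ1 + ‖y - S.x‖ ≤ S.δ
    have : δ1 ≤ (S.δ - ‖y - S.x‖) / 2 := min_le_right _ _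
    linarith

lemma nested [CompleteSpace H] {f : H → ℝ} (hf : ConvexOn ℝ Set.univ f) (hfc : Continuous f)
    {e : ℕ → H} (he : ∀ i, ‖e i‖ ≤ 1) :
    ∃ (ω K0 : ℝ) (u : ℕ → St H), 0 < ω ∧ ω ≤ 1 ∧ 1 ≤ K0 ∧ (∀ n, Inv f K0 n (u n)) ∧
      (∀ n, Rel f (Jf ω e) n (u n) (u (n + 1))) ∧ Jf ω e (u 0).M ≤ 1 / 1024 := by
  obtain ⟨x, p, K0, r, hK0, hr, hr1, hT⟩ := init_touch hfc
  set ω : ℝ := 1 / (1024 * K0) with hω
  have hω0 : 0 < ω := by positivity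
  have hω1 : ω ≤ 1 := by
    rw [hω, div_le_one (by positivity)]; linarith
  have hJ : ∀ A : H → ℝ, (∀ z, 0 ≤ A z) → 0 ≤ Jf ω e A := fun A hA => J_nonneg hω0.le hA
  obtain ⟨u, hP, hR⟩ := dep_choice
    (fun n S => Inv f K0 n S ∧ (n = 0 → S.M = fun z => K0 * ‖z‖ ^ 2))
    (fun n S S' => Rel f (Jf ω e) n S S')
    (by
      refine ⟨⟨x, p, fun z => K0 * ‖z‖ ^ 2, r, cη 0 * r / (20 * (K0 + 2)), 0⟩,
        ⟨?_, hT, hr, hr1, ?_, ?_, ?_⟩, fun _ => rfl⟩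
      · have h0 : QF (fun _ : H => (0:ℝ)) := ⟨0, by simp, by simp⟩
        have := h0.add_sq K0
        simpa using this
      · have := cη_pos 0
        show 0 < cη 0 * r / (20 * (K0 + 2))
        positivity
      · show 20 * (K0 + 2) * (cη 0 * r / (20 * (K0 + 2))) ≤ cη 0 * r
        apply le_of_eq
        field_simp
      · intro z
        show K0 * ‖z‖ ^ 2 ≤ _
        rw [pow_zero]
        apply le_of_eq
        ring)
    (by
      rintro n S ⟨hS, -⟩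
      obtain ⟨S', h1, h2⟩ := step hf hK0 (Jf ω e) hJ n S hS
      exact ⟨S', ⟨h1, fun h => absurd h (Nat.succ_ne_zero n)⟩, h2⟩)
  refine ⟨ω, K0, u, hω0, hω1, hK0, fun n => (hP n).1, hR, ?_⟩
  rw [(hP 0).2 rfl]
  refine (J_sq hω0.le (by linarith) he).trans ?_
  rw [hω]
  apply le_of_eq
  field_simp

end



section
variable {H : Type*} [NormedAddCommGroup H] [InnerProductSpace ℝ H]

lemma half_succ (n : ℕ) : (1 / 2 : ℝ) ^ (n + 1) = (1 / 2) ^ n * (1 / 2) := pow_succ _ _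
lemma quarter_succ (n : ℕ) : (1 / 4 : ℝ) ^ (n + 1) = (1 / 4) ^ n * (1 / 4) := pow_succ _ _
lemma pow16 (n : ℕ) : (1 / 16 : ℝ) ^ n ≤ (1 / 4) ^ n := by
  apply pow_le_pow_left₀ (by norm_num) (by norm_num)
lemma pow32 (n : ℕ) : (1 / 32 : ℝ) ^ n ≤ (1 / 16) ^ n := by
  apply pow_le_pow_left₀ (by norm_num) (by norm_num)

/-- bound for the relaxations -/
lemma eps_bound {f : H → ℝ} (hf : ConvexOn ℝ Set.univ f) {K0 ω : ℝ} (hK0 : 1 ≤ K0) (hω : 0 < ω)
    {e : ℕ → H} {u : ℕ → St H} (hI : ∀ n, Inv f K0 n (u n))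
    (hR : ∀ n, Rel f (Jf ω e) n (u n) (u (n + 1))) (hJ0 : Jf ω e (u 0).M ≤ 1 / 1024) (n : ℕ) :
    0 < (u (n + 1)).ε ∧ (u (n + 1)).ε ≤ 70 / 1024 * (1 / 16) ^ n := by
  have hpos : ∀ n, 0 < (u (n + 1)).ε := fun n => (hR n).1.2.1
  refine ⟨hpos n, ?_⟩
  induction n with
  | zero =>
    have h1 := (hR 0).2.1 _ _ _ _ (Cl_self (hI 0) (ε := 1 / 1024) (by norm_num)
      (by unfold eh; norm_num))
    obtain ⟨-, -, -, c4, -, -, r', c7, c8⟩ := (hR 0).1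
    have h2 : 0 ≤ Jf ω e (u 1).M := J_nonneg hω.le (form_nonneg hf c4 c7 c8)
    unfold lam cη at h1
    norm_num at h1 ⊢
    linarith
  | succ m ih =>
    set E := (u (m + 1)).ε with hE
    set E' := (u (m + 2)).ε with hE'
    have hEp : 0 < E := hpos m
    have hE'p : 0 < E' := hpos (m + 1)
    have hθ := cη_pos (m + 1)
    have hE'le : E' ≤ eh (m + 1) := (hR (m + 1)).1.2.2.1
    have hθle : cη (m + 1) ≤ eh (m + 1) := by
      unfold cη eh
      have h1 := (pow32 (m + 1)).trans (pow16 (m + 1))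
      have h2 := quarter_succ (m + 1)
      have h3 : (0:ℝ) < (1 / 4) ^ (m + 1) := by positivity
      rw [h2]; linarith
    -- first inequality
    have h1 := (hR (m + 1)).2.1 _ _ _ _ (Cl_self (hI (m + 1)) hθ hθle)
    -- the transfer
    obtain ⟨b1, b2, b3, b4, b5, b6, rb, b7, b8⟩ := (hR m).1
    obtain ⟨d1, d2, d3, d4, d5, d6, rd, d7, d8⟩ := (hR (m + 1)).1
    obtain ⟨i1, i2, i3, i4, i5, i6, i7⟩ := hI m
    obtain ⟨j1, j2, j3, j4, j5, j6, j7⟩ := hI (m + 1)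
    have hrr : (u (m + 1)).r ≤ (u m).r := (hR m).2.2.2
    have hδδ : 2 * (u (m + 1)).δ + ‖(u (m + 1)).x - (u m).x‖ ≤ (u m).δ := (hR m).2.2.1
    have hE14 : E ≤ 1 / 4 := b3.trans (eh_le m)
    have hE'14 : E' ≤ 1 / 4 := hE'le.trans (eh_le (m + 1))
    have hehm : eh (m + 1) = eh m / 4 := by
      unfold eh; rw [quarter_succ (m + 1)]; ring
    have hehp := eh_pos m
    have hEhalf : E ≤ eh m / 2 := by
      have h2 := pow16 m
      have h3 : (0:ℝ) < (1 / 4) ^ m := by positivity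
      unfold eh
      rw [quarter_succ m]
      linarith
    have hθr : 20 * (K0 + 2) * (u (m + 1)).δ ≤ cη (m + 1) * (u (m + 1)).r := j6
    have hcη1 : cη (m + 1) ≤ 1 := by have := eh_le (m + 1); linarith
    have hδr : (u (m + 1)).δ ≤ cη (m + 1) * (u (m + 1)).r / 60 := by
      have : 60 * (u (m + 1)).δ ≤ 20 * (K0 + 2) * (u (m + 1)).δ := by
        apply mul_le_mul_of_nonneg_right _ j5.le
        linarith
      linarith
    have hθr1 : cη (m + 1) * (u (m + 1)).r ≤ (u (m + 1)).r := by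
      calc cη (m + 1) * (u (m + 1)).r ≤ 1 * (u (m + 1)).r := by gcongr
        _ = _ := one_mul _
    have hk : ∀ z, (u m).M z + E * ‖z‖ ^ 2 ≤ (K0 + 2) * ‖z‖ ^ 2 := by
      intro z
      have h2 := i7 z
      have h3 : (0:ℝ) ≤ (1 / 4) ^ m * ‖z‖ ^ 2 := by positivity
      have h4 : E * ‖z‖ ^ 2 ≤ 1 / 4 * ‖z‖ ^ 2 := by gcongr
      have h5 : (0:ℝ) ≤ ‖z‖ ^ 2 := by positivity
      linarith
    have hρ : (u (m + 1)).r / 2 ≤ (u (m + 1)).r * (1 - E') := by nlinarith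
    have hρ2 : (u (m + 1)).r / 2 ≤ (u m).r * (1 - E) := by nlinarith
    have htr := (transfer hf (i1.add_sq E) (j1.add_sq E') (δ := (u (m + 1)).δ)
      (ε := E' + cη (m + 1)) (K := K0 + 2) b6 d6
      (by
        intro z
        have h2 := b5 z
        have h3 : 0 ≤ cη (m + 1) * ‖z‖ ^ 2 := by positivity
        linarith)
      hk j5 d1.le (by linarith) (by linarith) (by linarith)
      (by
        have h2 : (E' + cη (m + 1)) * ((u (m + 1)).r / 2) ≤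
            (E' + cη (m + 1)) * ((u (m + 1)).r * (1 - E')) := by gcongr
        have h3 : 0 ≤ E' * (u (m + 1)).r := by positivity
        linarith)).1
    have hcl : Cl f (u m) (eh m) (u (m + 2)).x (u (m + 2)).p (u (m + 2)).M
        (E + E' + cη (m + 1)) := by
      refine ⟨?_, by positivity, by linarith, d4, ?_, ?_, rd, d7, d8⟩
      · calc ‖(u (m + 2)).x - (u m).x‖ ≤ ‖(u (m + 2)).x - (u (m + 1)).x‖ +
            ‖(u (m + 1)).x - (u m).x‖ := norm_sub_le_norm_sub_add_norm_sub _ _ _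
          _ < (u m).δ := by linarith
      · intro z
        have h2 := d5 z
        have h3 := b5 z
        have h4 : 0 ≤ cη (m + 1) * ‖z‖ ^ 2 := by positivity
        linarith
      · refine htr.mono (fun z => ?_) ?_
        · apply le_of_eq; ring
        · have h2 : cη (m + 1) * (u (m + 1)).r ≤ cη (m + 1) * (u m).r := by gcongr
          have h3 : 0 ≤ E' * (u m).r := by positivity
          linarith
    have h2 := (hR m).2.1 _ _ _ _ hcl
    -- combine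
    have e1 : lam (m + 1) - lam m = (1 / 2) ^ (m + 1) * (1 / 2) := by
      unfold lam; rw [half_succ (m + 1)]; ring
    have e2 : lam m * cη (m + 1) ≤ cη (m + 1) := by
      calc lam m * cη (m + 1) ≤ 1 * cη (m + 1) := by gcongr; exact lam_le m
        _ = _ := one_mul _
    have e3 : lam (m + 1) * cη (m + 1) ≤ cη (m + 1) := by
      calc lam (m + 1) * cη (m + 1) ≤ 1 * cη (m + 1) := by gcongr; exact lam_le _
        _ = _ := one_mul _
    have e4 : cη m = 32 * cη (m + 1) := by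
      unfold cη; rw [pow_succ]; ring
    have e5 : (lam (m + 1) - lam m) * E' ≤ 35 * cη (m + 1) := by linarith
    rw [e1] at e5
    have e6 : cη (m + 1) = (1 / 2) ^ (m + 1) * (1 / 1024 * (1 / 16) ^ (m + 1)) := by
      unfold cη
      rw [show (1 / 32 : ℝ) = 1 / 2 * (1 / 16) by norm_num, mul_pow]
      ring
    rw [e6] at e5
    have e7 : (0:ℝ) < (1 / 2) ^ (m + 1) := by positivity
    have e8 : (1 / 2 : ℝ) ^ (m + 1) * E' ≤ (1 / 2) ^ (m + 1) * (70 / 1024 * (1 / 16) ^ (m + 1)) := by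
      linarith
    exact le_of_mul_le_mul_left e8 e7

end



section
variable {H : Type*} [NormedAddCommGroup H] [InnerProductSpace ℝ H]

lemma cη_le (n : ℕ) : cη n ≤ 1 / 1024 * (1 / 16) ^ n := by
  unfold cη
  have := pow32 n
  linarith

lemma tt_eq (n : ℕ) : tt n = 80 / 1024 * (1 / 16) ^ n := by unfold tt; norm_num
lemma tt_succ (n : ℕ) : tt (n + 1) = 5 / 1024 * (1 / 16) ^ n := by
  unfold tt; rw [pow_succ]; ring
lemma tt_le (n : ℕ) : tt n ≤ 5 / 64 := by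
  unfold tt
  have : (1 / 16 : ℝ) ^ n ≤ 1 := pow_le_one₀ (by norm_num) (by norm_num)
  linarith

/-- facts on the sequence of states -/
structure Good (f : H → ℝ) (K0 ω : ℝ) (e : ℕ → H) (u : ℕ → St H) : Prop where
  hf : ConvexOn ℝ Set.univ f
  hfc : Continuous f
  he : ∀ i, ‖e i‖ ≤ 1
  hK0 : 1 ≤ K0
  hω : 0 < ω
  hω1 : ω ≤ 1
  hI : ∀ n, Inv f K0 n (u n)
  hR : ∀ n, Rel f (Jf ω e) n (u n) (u (n + 1))
  hJ0 : Jf ω e (u 0).M ≤ 1 / 1024

variable {f : H → ℝ} {K0 ω : ℝ} {e : ℕ → H} {u : ℕ → St H}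

lemma Good.eps (h : Good f K0 ω e u) (n : ℕ) :
    (u (n + 1)).ε + cη n ≤ tt n - tt (n + 1) := by
  have h1 := (eps_bound h.hf h.hK0 h.hω h.hI h.hR h.hJ0 n).2
  have h2 := cη_le n
  have h3 : (0:ℝ) < (1 / 16) ^ n := by positivity
  rw [tt_eq, tt_succ]
  linarith

lemma Good.eps_pos (h : Good f K0 ω e u) (n : ℕ) : 0 < (u (n + 1)).ε := (h.hR n).1.2.1

lemma Good.form_step (h : Good f K0 ω e u) (n : ℕ) (z : H) :
    (u (n + 1)).M z + tt (n + 1) * ‖z‖ ^ 2 ≤ (u n).M z + tt n * ‖z‖ ^ 2 := by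
  have h1 := (h.hR n).1.2.2.2.2.1 z
  have h2 := h.eps n
  have h3 := cη_pos n
  have h4 : (u (n + 1)).ε * ‖z‖ ^ 2 ≤ (tt n - tt (n + 1)) * ‖z‖ ^ 2 := by
    gcongr; linarith
  linarith

lemma Good.form_mono (h : Good f K0 ω e u) {n m : ℕ} (hnm : n ≤ m) (z : H) :
    (u m).M z + tt m * ‖z‖ ^ 2 ≤ (u n).M z + tt n * ‖z‖ ^ 2 := by
  induction m, hnm using Nat.le_induction with
  | base => exact le_rfl
  | succ m _ ih => exact (h.form_step m z).trans ih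

lemma Good.r_mono (h : Good f K0 ω e u) {n m : ℕ} (hnm : n ≤ m) : (u m).r ≤ (u n).r := by
  induction m, hnm using Nat.le_induction with
  | base => exact le_rfl
  | succ m _ ih => exact ((h.hR m).2.2.2).trans ih

lemma Good.x_mono (h : Good f K0 ω e u) {n m : ℕ} (hnm : n ≤ m) :
    ‖(u m).x - (u n).x‖ + (u m).δ ≤ (u n).δ := by
  induction m, hnm using Nat.le_induction with
  | base => simp
  | succ m _ ih =>
    have h1 := (h.hR m).2.2.1
    have h2 : ‖(u (m + 1)).x - (u n).x‖ ≤ ‖(u (m + 1)).x - (u m).x‖ + ‖(u m).x - (u n).x‖ :=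
      norm_sub_le_norm_sub_add_norm_sub _ _ _
    have h3 : 0 < (u (m + 1)).δ := (h.hI (m + 1)).2.2.2.2.1
    linarith

lemma Good.δ_le (h : Good f K0 ω e u) (n : ℕ) : (u n).δ ≤ cη n * (u n).r / 60 := by
  obtain ⟨i1, i2, i3, i4, i5, i6, i7⟩ := h.hI n
  have := h.hK0
  have : 60 * (u n).δ ≤ 20 * (K0 + 2) * (u n).δ := by
    apply mul_le_mul_of_nonneg_right _ i5.le
    linarith
  linarith

lemma Good.Kb (h : Good f K0 ω e u) (n : ℕ) (z : H) :
    (u n).M z + tt n * ‖z‖ ^ 2 ≤ (K0 + 2) * ‖z‖ ^ 2 := by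
  have h2 := (h.hI n).2.2.2.2.2.2 z
  have h3 : (0:ℝ) ≤ (1 / 4) ^ n * ‖z‖ ^ 2 := by positivity
  have h4 : tt n * ‖z‖ ^ 2 ≤ 5 / 64 * ‖z‖ ^ 2 := by
    gcongr; exact tt_le n
  have h5 : (0:ℝ) ≤ ‖z‖ ^ 2 := by positivity
  linarith

lemma Good.T_step (h : Good f K0 ω e u) {n m : ℕ} (hnm : n ≤ m)
    (hT : T f (u m).x (u m).p (fun z => (u n).M z + (tt n - tt m) * ‖z‖ ^ 2)
      ((u n).r * (1 - (tt n - tt m)))) :
    T f (u (m + 1)).x (u (m + 1)).p (fun z => (u n).M z + (tt n - tt (m + 1)) * ‖z‖ ^ 2)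
      ((u n).r * (1 - (tt n - tt (m + 1)))) ∧
    ‖(u (m + 1)).p - (u m).p‖ ≤ 4 * (K0 + 2) * (u m).δ := by
  obtain ⟨i1, i2, i3, i4, i5, i6, i7⟩ := h.hI n
  obtain ⟨j1, j2, j3, j4, j5, j6, j7⟩ := h.hI m
  obtain ⟨b1, b2, b3, b4, b5, b6, rb, b7, b8⟩ := (h.hR m).1
  have hrr := h.r_mono hnm
  have hK0 := h.hK0
  have hθ := cη_pos m
  have heps := h.eps m
  have hδ := h.δ_le m
  have hE14 : (u (m + 1)).ε ≤ 1 / 4 := b3.trans (eh_le m)
  have htn := tt_le n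
  have htm := tt_pos m
  have htm1 := tt_pos (m + 1)
  have hcm : cη m ≤ tt m - tt (m + 1) := by
    have := h.eps_pos m
    linarith
  have hcm0 : 0 ≤ tt m - tt (m + 1) := by linarith
  have hθ1 : cη m ≤ 1 := by
    have := tt_le m
    linarith
  have hθr : cη m * (u m).r ≤ (u m).r := by
    calc cη m * (u m).r ≤ 1 * (u m).r := by gcongr
      _ = _ := one_mul _
  have hρ : (u m).r / 2 ≤ (u m).r * (1 - (u (m + 1)).ε) := by nlinarith
  have hρ2 : (u m).r / 2 ≤ (u n).r * (1 - (tt n - tt m)) := by nlinarith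
  have htr := transfer h.hf (i1.add_sq (tt n - tt m)) (j1.add_sq (u (m + 1)).ε) (δ := (u m).δ)
      (ε := tt m - tt (m + 1)) (K := K0 + 2) hT b6
      (by
        intro z
        have h2 := h.form_mono hnm z
        have h3 : (u (m + 1)).ε * ‖z‖ ^ 2 ≤ (tt m - tt (m + 1)) * ‖z‖ ^ 2 := by
          gcongr; linarith
        linarith)
      (by
        intro z
        have h2 := h.Kb n z
        have h3 : 0 ≤ tt m * ‖z‖ ^ 2 := by positivity
        linarith)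
      j5 b1.le (by linarith) (by linarith) (by linarith)
      (by
        have h2 : cη m * ((u m).r / 2) ≤ (tt m - tt (m + 1)) * ((u m).r * (1 - (u (m + 1)).ε)) := by
          gcongr
        linarith)
  refine ⟨htr.1.mono (fun z => ?_) ?_, htr.2⟩
  · apply le_of_eq; ring
  · have h2 : cη m * (u m).r ≤ (tt m - tt (m + 1)) * (u n).r := by
      gcongr
    linarith

lemma Good.T_gen (h : Good f K0 ω e u) {n m : ℕ} (hnm : n ≤ m) :
    T f (u m).x (u m).p (fun z => (u n).M z + (tt n - tt m) * ‖z‖ ^ 2)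
      ((u n).r * (1 - (tt n - tt m))) := by
  induction m, hnm using Nat.le_induction with
  | base => simpa using (h.hI n).2.1
  | succ m hnm ih => exact (h.T_step hnm ih).1

lemma Good.p_step (h : Good f K0 ω e u) (m : ℕ) :
    ‖(u (m + 1)).p - (u m).p‖ ≤ 4 * (K0 + 2) * (u m).δ :=
  (h.T_step le_rfl (h.T_gen le_rfl)).2

lemma Good.cη_pow (n : ℕ) : cη n = (1 / 1024) * (1 / 32) ^ n := rfl

/-- the limit point -/
lemma Good.limit [CompleteSpace H] (h : Good f K0 ω e u) :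
    ∃ x p : H, (∀ n, ‖x - (u n).x‖ < (u n).δ) ∧
      ∀ n, T f x p (fun z => (u n).M z + tt n * ‖z‖ ^ 2) ((u n).r * (1 - tt n)) := by
  have hδc : ∀ n, (u n).δ ≤ (1 / 1024) * (1 / 32) ^ n := by
    intro n
    have h1 := h.δ_le n
    obtain ⟨i1, i2, i3, i4, i5, i6, i7⟩ := h.hI n
    have h2 := cη_pos n
    have h3 : cη n * (u n).r ≤ cη n * 1 := by gcongr
    have h4 : cη n = (1 / 1024) * (1 / 32) ^ n := rfl
    rw [← h4]
    linarith
  have hxc : CauchySeq (fun n => (u n).x) := by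
    refine cauchySeq_of_le_geometric (1 / 32) (1 / 1024) (by norm_num) (fun n => ?_)
    rw [dist_comm, dist_eq_norm]
    have h1 := (h.hR n).1.1
    exact h1.le.trans (hδc n)
  have hpc : CauchySeq (fun n => (u n).p) := by
    refine cauchySeq_of_le_geometric (1 / 32) (1 / 1024) (by norm_num) (fun n => ?_)
    rw [dist_comm, dist_eq_norm]
    obtain ⟨i1, i2, i3, i4, i5, i6, i7⟩ := h.hI n
    have h1 := h.p_step n
    have h2 := cη_pos n
    have h3 : cη n * (u n).r ≤ cη n * 1 := by gcongr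
    have h4 : cη n = (1 / 1024) * (1 / 32) ^ n := rfl
    rw [← h4]
    have h5 : 0 ≤ (K0 + 2) * (u n).δ := by
      have := h.hK0
      positivity
    linarith
  obtain ⟨x, hx⟩ := cauchySeq_tendsto_of_complete hxc
  obtain ⟨p, hp⟩ := cauchySeq_tendsto_of_complete hpc
  have hle : ∀ n, ‖x - (u n).x‖ ≤ (u n).δ := by
    intro n
    have h1 : Tendsto (fun m => ‖(u m).x - (u n).x‖) atTop (𝓝 ‖x - (u n).x‖) :=
      (hx.sub_const _).norm
    refine le_of_tendsto h1 ?_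
    filter_upwards [eventually_ge_atTop n] with m hm
    have h2 := h.x_mono hm
    have h3 : 0 < (u m).δ := (h.hI m).2.2.2.2.1
    linarith
  refine ⟨x, p, fun n => ?_, fun n z hz => ?_⟩
  · have h1 := hle (n + 1)
    have h2 := (h.hR n).2.2.1
    have h3 : 0 < (u (n + 1)).δ := (h.hI (n + 1)).2.2.2.2.1
    have h4 : ‖x - (u n).x‖ ≤ ‖x - (u (n + 1)).x‖ + ‖(u (n + 1)).x - (u n).x‖ :=
      norm_sub_le_norm_sub_add_norm_sub _ _ _
    linarith
  · have L1 : Tendsto (fun m => f ((u m).x + z)) atTop (𝓝 (f (x + z))) :=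
      (h.hfc.tendsto _).comp (hx.add_const z)
    have L2 : Tendsto (fun m => f (u m).x + ⟪(u m).p, z⟫_ℝ + ((u n).M z + tt n * ‖z‖ ^ 2)) atTop
        (𝓝 (f x + ⟪p, z⟫_ℝ + ((u n).M z + tt n * ‖z‖ ^ 2))) :=
      (((h.hfc.tendsto _).comp hx).add (hp.inner tendsto_const_nhds)).add_const _
    refine le_of_tendsto_of_tendsto L1 L2 ?_
    filter_upwards [eventually_ge_atTop n] with m hm
    have h1 := h.T_gen hm z (hz.trans (by
      have := (h.hI n).2.2.1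
      have h2 := tt_pos m
      gcongr
      linarith))
    have h2 : 0 ≤ tt m * ‖z‖ ^ 2 := by
      have := tt_pos m
      positivity
    linarith

/-- no dips at small scales -/
lemma Good.nodip [CompleteSpace H] (h : Good f K0 ω e u) {x p : H}
    (hx : ∀ n, ‖x - (u n).x‖ < (u n).δ)
    (hT : ∀ n, T f x p (fun z => (u n).M z + tt n * ‖z‖ ^ 2) ((u n).r * (1 - tt n)))
    (j : ℕ) (hj : ‖e j‖ = 1) {σ : H} (hσ : σ = e j ∨ σ = -e j) {a : ℝ} (ha : 0 < a)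
    (haK : a ≤ K0 + 2) : ∃ (n : ℕ) (s0 : ℝ), 0 < s0 ∧ ∀ s, 0 < s → s < s0 →
      ((u (n + 1)).M σ + tt (n + 1) - a) * s ^ 2 < f (x + s • σ) - f x - ⟪p, s • σ⟫_ℝ := by
  have hK0 := h.hK0
  have hω := h.hω
  have hσn : ‖σ‖ = 1 := by
    rcases hσ with rfl | rfl
    · exact hj
    · rw [norm_neg]; exact hj
  have hσi : ∀ g : H, ⟪g, σ⟫_ℝ ^ 2 = ⟪g, e j⟫_ℝ ^ 2 := by
    intro g
    rcases hσ with rfl | rfl
    · rfl
    · rw [inner_neg_right]; ring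
  obtain ⟨c, C, hc, hC, himp⟩ := imp (H := H) (K := K0 + 2) (a := a)
    (w := ω * (1 / 2) ^ (j + 1)) ha haK (by positivity)
  obtain ⟨n, hn⟩ := exists_pow_lt_of_lt_one
    (show (0:ℝ) < min (8 * C * a) (c * 1024 / (64 * C * 87)) by positivity)
    (show (1 / 4 : ℝ) < 1 by norm_num)
  have hn1 : (1 / 4 : ℝ) ^ n < 8 * C * a := hn.trans_le (min_le_left _ _)
  have hn2 : (1 / 4 : ℝ) ^ n < c * 1024 / (64 * C * 87) := hn.trans_le (min_le_right _ _)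
  have hp4 : (0:ℝ) < (1 / 4) ^ n := by positivity
  set δ' : ℝ := eh n / (16 * C) with hδ'
  have hehn : eh n = (1 / 4) ^ n * (1 / 4) := quarter_succ n
  have hehp := eh_pos n
  have hδ'p : 0 < δ' := by positivity
  have hCδ : C * δ' = eh n / 16 := by rw [hδ']; field_simp
  have hδ'a : δ' < a / 4 := by
    rw [hδ', div_lt_iff₀ (by positivity)]
    rw [hehn]
    nlinarith
  have hgain : 87 / 1024 * (1 / 16) ^ n < c * δ' := by
    have e1 : (1 / 16 : ℝ) ^ n = (1 / 4) ^ n * (1 / 4) ^ n := by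
      rw [← mul_pow]; norm_num
    have e2 : c * δ' = (1 / 4) ^ n * (c / (64 * C)) := by
      rw [hδ', hehn]; field_simp; norm_num
    rw [e1, e2]
    rw [lt_div_iff₀ (by positivity)] at hn2
    have e3 : 87 / 1024 * (1 / 4 : ℝ) ^ n < c / (64 * C) := by
      rw [lt_div_iff₀ (by positivity)]
      linarith
    nlinarith
  obtain ⟨i1, i2, i3, i4, i5, i6, i7⟩ := h.hI n
  obtain ⟨j1, j2, j3, j4, j5, j6, j7⟩ := h.hI (n + 1)
  have hrr : (u (n + 1)).r ≤ (u n).r := (h.hR n).2.2.2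
  have hθ := cη_pos n
  have hxn := hx n
  refine ⟨n, min (cη n * (u (n + 1)).r / (100 * (K0 + 2))) (((u n).δ - ‖x - (u n).x‖) / 4),
    lt_min (by positivity) (by linarith), ?_⟩
  intro s hs hs0
  have hs1 : s < cη n * (u (n + 1)).r / (100 * (K0 + 2)) := hs0.trans_le (min_le_left _ _)
  have hs2 : s < ((u n).δ - ‖x - (u n).x‖) / 4 := hs0.trans_le (min_le_right _ _)
  rw [lt_div_iff₀ (by positivity)] at hs1
  by_contra hcon
  push Not at hcon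
  have htn := tt_pos n
  have htn1 := tt_pos (n + 1)
  have htle := tt_le n
  have htle1 := tt_le (n + 1)
  have hcη1 : cη n ≤ 1 / 1024 := by
    have h1 := cη_le n
    have h2 : (1 / 16 : ℝ) ^ n ≤ 1 := pow_le_one₀ (by norm_num) (by norm_num)
    linarith
  have hsr : s * 300 ≤ cη n * (u (n + 1)).r := by
    have : s * 300 ≤ s * (100 * (K0 + 2)) := by gcongr; linarith
    linarith
  have hcr : cη n * (u (n + 1)).r ≤ 1 / 1024 * (u (n + 1)).r := by gcongr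
  have hA1 := j1.add_sq (tt (n + 1))
  have hA1T := hT (n + 1)
  have hr2 : (u (n + 1)).r / 2 ≤ (u (n + 1)).r * (1 - tt (n + 1)) - 3 * s := by
    have : (u (n + 1)).r * tt (n + 1) ≤ (u (n + 1)).r * (5 / 64) := by gcongr
    linarith
  have hA1n := form_nonneg h.hf hA1 (by linarith) hA1T
  obtain ⟨y, q, A', ν, r', k1, k2, k3, k4, k5, k6, k7, k8, k9⟩ := himp f h.hf h.hfc (Jf ω e) σ hσn
    x p (fun z => (u (n + 1)).M z + tt (n + 1) * ‖z‖ ^ 2) hA1 (h.Kb (n + 1))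
    (by
      intro α γ g hα hγ
      rw [hσi]
      have := J_modify (A := fun z => (u (n + 1)).M z + tt (n + 1) * ‖z‖ ^ 2) (C := K0 + 2)
        h.hω.le h.hω1 h.he (by
          intro z
          rw [abs_of_nonneg (hA1n z)]
          exact h.Kb (n + 1) z) α γ g hα hγ j
      exact this)
    ((u (n + 1)).r * (1 - tt (n + 1))) hA1T s hs (by linarith) (by
      rw [hσn]
      simpa using hcon) δ' hδ'p hδ'a
  -- the competitor
  have hcl : Cl f (u n) (eh n) y q A' (tt n + ν + cη n) := by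
    refine ⟨?_, by positivity, ?_, k5, ?_, ?_, r', k4, k8⟩
    · calc ‖y - (u n).x‖ ≤ ‖y - x‖ + ‖x - (u n).x‖ := norm_sub_le_norm_sub_add_norm_sub _ _ _
        _ < (u n).δ := by linarith
    · have h1 := pow16 n
      have h2 := cη_le n
      have h3 := tt_eq n
      rw [hCδ] at k3
      linarith
    · intro z
      have h1 := k6 z
      have h2 := h.form_step n z
      have h3 : 0 ≤ cη n * ‖z‖ ^ 2 := by positivity
      linarith
    · have hr3 : (u (n + 1)).r / 2 ≤ (u n).r * (1 - tt n) := by nlinarith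
      have htr := (transfer h.hf (i1.add_sq (tt n)) (hA1.add_sq ν) (δ := 3 * s)
        (ε := ν + cη n) (K := K0 + 2) (hT n) k7
        (by
          intro z
          have h2 := h.form_step n z
          have h3 : 0 ≤ cη n * ‖z‖ ^ 2 := by positivity
          linarith)
        (h.Kb n) (by positivity) k1 (by linarith) (by linarith) (by linarith)
        (by
          have h2 : (cη n) * ((u (n + 1)).r / 2) ≤
              (ν + cη n) * ((u (n + 1)).r * (1 - tt (n + 1)) - 3 * s) := by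
            gcongr
            linarith
          linarith)).1
      refine htr.mono (fun z => ?_) ?_
      · apply le_of_eq; ring
      · have h2 : cη n * (u (n + 1)).r ≤ cη n * (u n).r := by gcongr
        have h3 : 0 ≤ ν * (u n).r := by positivity
        linarith
  have hNM := (h.hR n).2.1 _ _ _ _ hcl
  have hJA : Jf ω e (fun z => (u (n + 1)).M z + tt (n + 1) * ‖z‖ ^ 2) ≤
      Jf ω e (u (n + 1)).M + tt (n + 1) := by
    have hM0 := form_nonneg h.hf j1 j3 j2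
    refine J_add (C := K0 + 2) h.hω.le h.hω1 h.he (fun z => ?_) _ htn1.le
    rw [abs_of_nonneg (hM0 z)]
    have h1 := h.Kb (n + 1) z
    have h2 : 0 ≤ tt (n + 1) * ‖z‖ ^ 2 := by positivity
    linarith
  have hl1 : 0 ≤ lam n * (u (n + 1)).ε := mul_nonneg (lam_nonneg n) (h.eps_pos n).le
  have hl2 : lam n * (tt n + ν + cη n) ≤ tt n + ν + cη n := by
    calc lam n * (tt n + ν + cη n) ≤ 1 * (tt n + ν + cη n) := by
          gcongr
          exact lam_le n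
      _ = _ := one_mul _
  have h1 := cη_le n
  have h2 := tt_eq n
  have h3 := tt_succ n
  linarith

end



section
variable {H : Type*} [NormedAddCommGroup H] [InnerProductSpace ℝ H]

lemma exists_unit_seq [TopologicalSpace.SeparableSpace H] :
    ∃ e : ℕ → H, (∀ i, ‖e i‖ ≤ 1) ∧ ∀ v : H, ‖v‖ = 1 → ∀ η : ℝ, 0 < η →
      ∃ j, ‖e j‖ = 1 ∧ ‖e j - v‖ < η := by
  have : Nonempty H := ⟨0⟩
  refine ⟨fun i => (‖TopologicalSpace.denseSeq H i‖)⁻¹ • TopologicalSpace.denseSeq H i, ?_, ?_⟩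
  · intro i
    rw [norm_smul, norm_inv, norm_norm]
    rcases eq_or_ne (‖TopologicalSpace.denseSeq H i‖) 0 with h | h
    · rw [h]; simp
    · rw [inv_mul_cancel₀ h]
  · intro v hv η hη
    obtain ⟨j, hj⟩ := (TopologicalSpace.denseRange_denseSeq H).exists_dist_lt v
      (show 0 < min (η / 2) 1 by positivity)
    set d := TopologicalSpace.denseSeq H j with hd
    have h1 : dist v d < η / 2 := hj.trans_le (min_le_left _ _)
    have h2 : dist v d < 1 := hj.trans_le (min_le_right _ _)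
    rw [dist_comm, dist_eq_norm] at h1 h2
    have h3 : |‖d‖ - 1| ≤ ‖d - v‖ := by
      have := abs_norm_sub_norm_le d v
      rwa [hv] at this
    have h4 : 0 < ‖d‖ := by
      have := (abs_le.1 h3).1
      linarith
    refine ⟨j, ?_, ?_⟩
    · show ‖(‖d‖)⁻¹ • d‖ = 1
      rw [norm_smul, norm_inv, norm_norm, inv_mul_cancel₀ h4.ne']
    · show ‖(‖d‖)⁻¹ • d - v‖ < η
      have e1 : (‖d‖)⁻¹ • d - v = ((‖d‖)⁻¹ - 1) • d + (d - v) := by module
      have e2 : ‖((‖d‖)⁻¹ - 1) • d‖ = |‖d‖ - 1| := by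
        rw [norm_smul, Real.norm_eq_abs, ← abs_of_pos h4, ← abs_mul, abs_of_pos h4, sub_mul,
          inv_mul_cancel₀ h4.ne', one_mul, abs_sub_comm]
      calc ‖(‖d‖)⁻¹ • d - v‖ ≤ ‖((‖d‖)⁻¹ - 1) • d‖ + ‖d - v‖ := by rw [e1]; exact norm_add_le _ _
        _ < η := by rw [e2]; linarith

/-- limits of a decreasing sequence of nonnegative quadratic forms -/
lemma form_limit {A : ℕ → H → ℝ} (hQ : ∀ n, QF (A n)) (hanti : ∀ n z, A (n + 1) z ≤ A n z)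
    (h0 : ∀ n z, 0 ≤ A n z) {K : ℝ} (hK : ∀ n z, A n z ≤ K * ‖z‖ ^ 2) :
    ∃ B : H →L[ℝ] H →L[ℝ] ℝ, (∀ u v, B u v = B v u) ∧
      ∀ z, Tendsto (fun n => A n z) atTop (𝓝 (B z z)) := by
  choose Bn hs hB using hQ
  have hlim : ∀ z, ∃ l, Tendsto (fun n => A n z) atTop (𝓝 l) := by
    intro z
    have hm : Antitone (fun n => A n z) := antitone_nat_of_succ_le (fun n => hanti n z)
    exact ⟨_, tendsto_atTop_ciInf hm ⟨0, by rintro _ ⟨n, rfl⟩; exact h0 n z⟩⟩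
  have hlim2 : ∀ u v, ∃ l, Tendsto (fun n => Bn n u v) atTop (𝓝 l) := by
    intro u v
    obtain ⟨l1, hl1⟩ := hlim (u + v)
    obtain ⟨l2, hl2⟩ := hlim (u - v)
    refine ⟨(l1 - l2) / 4, ?_⟩
    have := (hl1.sub hl2).div_const 4
    refine this.congr (fun n => ?_)
    rw [hB, hB]
    simp only [map_add, map_sub, add_apply, sub_apply]
    rw [hs n v u]; ring
  choose b hb using hlim2
  obtain ⟨B, hBb⟩ := exists_bilin b
    (fun u v w => tendsto_nhds_unique (hb (u + v) w) (by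
      have := (hb u w).add (hb v w)
      refine this.congr (fun n => ?_)
      simp))
    (fun c u w => tendsto_nhds_unique (hb (c • u) w) (by
      have := (hb u w).const_mul c
      refine this.congr (fun n => ?_)
      simp))
    (fun u v => tendsto_nhds_unique (hb u v) (by
      refine (hb v u).congr (fun n => ?_)
      exact hs n v u)) K (by
      intro u v
      have hbd : ∀ n u v, Bn n u v ≤ K * ‖u‖ * ‖v‖ := fun n u v =>
        bil_le (hs n) (fun z => by rw [← hB]; exact h0 n z)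
          (fun z => by rw [← hB]; exact hK n z) u v
      rw [abs_le]
      constructor
      · refine ge_of_tendsto' (hb u v) (fun n => ?_)
        have := hbd n (-u) v
        simp only [map_neg, neg_apply, norm_neg] at this
        linarith
      · exact le_of_tendsto' (hb u v) (fun n => hbd n u v))
  refine ⟨B, fun u v => ?_, fun z => ?_⟩
  · rw [hBb, hBb]
    exact tendsto_nhds_unique (hb u v) ((hb v u).congr (fun n => hs n v u))
  · rw [hBb]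
    exact (hb z z).congr (fun n => (hB n z).symm)

/-- the main theorem -/
theorem main_thm [CompleteSpace H] [TopologicalSpace.SeparableSpace H] (f : H → ℝ)
    (hfc : Continuous f) (hf : ConvexOn ℝ Set.univ f) :
    ∃ (x y : H) (B : H →L[ℝ] H →L[ℝ] ℝ),
      (∀ u v : H, B u v = B v u) ∧
      ∀ h : H,
        (fun t : ℝ => f (x + t • h) - f x - ⟪y, t • h⟫_ℝ - t ^ 2 * B h h)
          =o[nhds (0 : ℝ)] (fun t : ℝ => t ^ 2) := by
  obtain ⟨e, he, hed⟩ := exists_unit_seq (H := H)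
  obtain ⟨ω, K0, u, hω, hω1, hK0, hI, hR, hJ0⟩ := nested hf hfc he
  have hG : Good f K0 ω e u := ⟨hf, hfc, he, hK0, hω, hω1, hI, hR, hJ0⟩
  obtain ⟨x, p, hx, hT⟩ := hG.limit
  set A : ℕ → H → ℝ := fun n z => (u n).M z + tt n * ‖z‖ ^ 2 with hA
  set ρ : ℕ → ℝ := fun n => (u n).r * (1 - tt n) with hρ
  have hρp : ∀ n, 0 < ρ n := by
    intro n
    have h1 := (hI n).2.2.1
    have h2 := tt_le n
    show 0 < (u n).r * (1 - tt n)
    apply mul_pos h1; linarith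
  have hQ : ∀ n, QF (A n) := fun n => (hI n).1.add_sq _
  have hT' : ∀ n, T f x p (A n) (ρ n) := hT
  have hA0 : ∀ n z, 0 ≤ A n z := fun n z => form_nonneg hf (hQ n) (hρp n) (hT' n) z
  have hKb : ∀ n z, A n z ≤ (K0 + 2) * ‖z‖ ^ 2 := fun n z => hG.Kb n z
  obtain ⟨B, hBs, hBl⟩ := form_limit hQ (fun n z => hG.form_step n z) hA0 hKb
  have hBA : ∀ n z, B z z ≤ A n z := by
    intro n z
    refine le_of_tendsto (hBl z) ?_
    filter_upwards [eventually_ge_atTop n] with m hm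
    exact hG.form_mono hm z
  set K : ℝ := K0 + 2 with hK
  have hKp : 0 < K := by rw [hK]; linarith
  have hBK : ∀ z, B z z ≤ K * ‖z‖ ^ 2 := fun z => (hBA 0 z).trans (hKb 0 z)
  have hBsm : ∀ (c : ℝ) z, B (c • z) (c • z) = c ^ 2 * B z z := by
    intro c z
    simp only [map_smul, smul_apply, smul_eq_mul]; ring
  -- R
  set R : H → ℝ := fun z => f (x + z) - f x - ⟪p, z⟫_ℝ with hRdef
  have hRA : ∀ n z, ‖z‖ ≤ ρ n → R z ≤ A n z := by
    intro n z hz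
    have := hT' n z hz
    show f (x + z) - f x - ⟪p, z⟫_ℝ ≤ A n z
    linarith
  have hRc : ∀ (z w : H) (θ : ℝ), 0 ≤ θ → θ ≤ 1 →
      R ((1 - θ) • z + θ • w) ≤ (1 - θ) * R z + θ * R w := by
    intro z w θ h0 h1
    have h2 := hf.2 (Set.mem_univ (x + z)) (Set.mem_univ (x + w)) (show 0 ≤ 1 - θ by linarith) h0
      (by ring)
    have e1 : (1 - θ) • (x + z) + θ • (x + w) = x + ((1 - θ) • z + θ • w) := by module
    rw [e1] at h2
    simp only [smul_eq_mul] at h2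
    show f (x + ((1 - θ) • z + θ • w)) - f x - ⟪p, (1 - θ) • z + θ • w⟫_ℝ ≤
      (1 - θ) * (f (x + z) - f x - ⟪p, z⟫_ℝ) + θ * (f (x + w) - f x - ⟪p, w⟫_ℝ)
    rw [inner_add_right, real_inner_smul_right, real_inner_smul_right]
    linarith
  -- lower bound in the directions e j
  have hlow1 : ∀ j, ‖e j‖ = 1 → ∀ a : ℝ, 0 < a → ∃ s0 > 0, ∀ t : ℝ, |t| < s0 →
      (B (e j) (e j) - a) * t ^ 2 ≤ R (t • e j) := by
    intro j hj a ha
    have hmin : 0 < min a K := lt_min ha hKp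
    obtain ⟨n1, s1, hs1, h1⟩ := hG.nodip hx hT j hj (σ := e j) (Or.inl rfl) hmin (min_le_right _ _)
    obtain ⟨n2, s2, hs2, h2⟩ := hG.nodip hx hT j hj (σ := -e j) (Or.inr rfl) hmin
      (min_le_right _ _)
    refine ⟨min s1 s2, lt_min hs1 hs2, fun t ht => ?_⟩
    have hR0 : R 0 = 0 := by
      show f (x + 0) - f x - ⟪p, 0⟫_ℝ = 0
      rw [add_zero, inner_zero_right]; ring
    rcases lt_trichotomy t 0 with h | h | h
    · have h3 := h2 (-t) (by linarith) (by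
        rw [abs_of_neg h] at ht
        exact ht.trans_le (min_le_right _ _))
      have e1 : (-t) • (-e j) = t • e j := by module
      rw [e1] at h3
      have h4 := hBA (n2 + 1) (-e j)
      have e2 : A (n2 + 1) (-e j) = (u (n2 + 1)).M (-e j) + tt (n2 + 1) := by
        show (u (n2 + 1)).M (-e j) + tt (n2 + 1) * ‖-e j‖ ^ 2 = _
        rw [norm_neg, hj]; ring
      rw [e2] at h4
      have e3 : B (-e j) (-e j) = B (e j) (e j) := by simp
      rw [e3] at h4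
      have h5 : (B (e j) (e j) - a) * t ^ 2 ≤
          ((u (n2 + 1)).M (-e j) + tt (n2 + 1) - min a K) * (-t) ^ 2 := by
        rw [neg_sq]
        have := min_le_left a K
        gcongr
      exact h5.trans h3.le
    · subst h
      rw [zero_smul, hR0]; simp
    · have h3 := h1 t h (by
        rw [abs_of_pos h] at ht
        exact ht.trans_le (min_le_left _ _))
      have h4 := hBA (n1 + 1) (e j)
      have e2 : A (n1 + 1) (e j) = (u (n1 + 1)).M (e j) + tt (n1 + 1) := by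
        show (u (n1 + 1)).M (e j) + tt (n1 + 1) * ‖e j‖ ^ 2 = _
        rw [hj]; ring
      rw [e2] at h4
      have h5 : (B (e j) (e j) - a) * t ^ 2 ≤
          ((u (n1 + 1)).M (e j) + tt (n1 + 1) - min a K) * t ^ 2 := by
        have := min_le_left a K
        gcongr
      exact h5.trans h3.le
  -- lower bound in all unit directions
  have hBc : Continuous fun z : H => B z z := by fun_prop
  have hlow2 : ∀ v : H, ‖v‖ = 1 → ∀ a : ℝ, 0 < a → ∃ s0 > 0, ∀ t : ℝ, |t| < s0 →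
      (B v v - 4 * a) * t ^ 2 ≤ R (t • v) := by
    intro v hv a ha
    set θ : ℝ := min (a / K) (1 / 2) with hθ
    have hθ0 : 0 < θ := by positivity
    have hθ1 : θ ≤ 1 / 2 := min_le_right _ _
    have hθK : θ * K ≤ a := by
      have : θ ≤ a / K := min_le_left _ _
      rwa [le_div_iff₀ hKp] at this
    obtain ⟨η, hη, hηB⟩ := Metric.continuousAt_iff.1 (hBc.continuousAt (x := v)) a ha
    obtain ⟨j, hj, hjv⟩ := hed v hv (min η (min 1 (a * θ / K))) (by positivity)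
    have hj1 : ‖e j - v‖ < η := hjv.trans_le (min_le_left _ _)
    have hj2 : ‖e j - v‖ < 1 := hjv.trans_le ((min_le_right _ _).trans (min_le_left _ _))
    have hj3 : ‖e j - v‖ < a * θ / K := hjv.trans_le ((min_le_right _ _).trans (min_le_right _ _))
    have hw2 : K * ‖e j - v‖ ^ 2 ≤ a * θ := by
      rw [lt_div_iff₀ hKp] at hj3
      calc K * ‖e j - v‖ ^ 2 = (‖e j - v‖ * K) * ‖e j - v‖ := by ring
        _ ≤ (a * θ) * 1 := by gcongr
        _ = a * θ := mul_one _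
    have hBj : B v v - a ≤ B (e j) (e j) := by
      have := hηB (show dist (e j) v < η by rw [dist_eq_norm]; exact hj1)
      rw [Real.dist_eq] at this
      have := (abs_lt.1 this).1
      linarith
    obtain ⟨s0, hs0, h0⟩ := hlow1 j hj a ha
    refine ⟨min s0 (ρ 0 * θ), lt_min hs0 (mul_pos (hρp 0) hθ0), fun t ht => ?_⟩
    have ht1 : |t| < s0 := ht.trans_le (min_le_left _ _)
    have ht2 : |t| < ρ 0 * θ := ht.trans_le (min_le_right _ _)
    set t' : ℝ := (1 - θ) * t with ht'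
    have ht'a : |t'| ≤ |t| := by
      rw [ht', abs_mul, abs_of_pos (by linarith : 0 < 1 - θ)]
      have : 0 ≤ |t| := abs_nonneg t
      nlinarith
    have h1 := h0 t' (ht'a.trans_lt ht1)
    have e1 : t' • e j = (1 - θ) • (t • v) + θ • ((t' / θ) • (e j - v)) := by
      rw [smul_smul, smul_smul, mul_div_cancel₀ _ hθ0.ne', ← ht', smul_sub]
      abel
    rw [e1] at h1
    have h2 := hRc (t • v) ((t' / θ) • (e j - v)) θ hθ0.le (by linarith)
    have hn : ‖(t' / θ) • (e j - v)‖ ≤ ρ 0 := by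
      rw [norm_smul, Real.norm_eq_abs, abs_div, abs_of_pos hθ0]
      calc |t'| / θ * ‖e j - v‖ ≤ |t| / θ * 1 := by gcongr
        _ = |t| / θ := mul_one _
        _ ≤ ρ 0 := by rw [div_le_iff₀ hθ0]; exact ht2.le
    have h3 := (hRA 0 _ hn).trans (hKb 0 _)
    have e2 : ‖(t' / θ) • (e j - v)‖ ^ 2 = t' ^ 2 / θ ^ 2 * ‖e j - v‖ ^ 2 := by
      rw [norm_smul, mul_pow, Real.norm_eq_abs, sq_abs, div_pow]
    rw [e2] at h3
    have h4 : θ * R ((t' / θ) • (e j - v)) ≤ a * t' ^ 2 := by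
      calc θ * R ((t' / θ) • (e j - v)) ≤ θ * (K * (t' ^ 2 / θ ^ 2 * ‖e j - v‖ ^ 2)) := by gcongr
        _ = (K * ‖e j - v‖ ^ 2) * (t' ^ 2 / θ) := by field_simp
        _ ≤ (a * θ) * (t' ^ 2 / θ) := by gcongr
        _ = a * t' ^ 2 := by field_simp
    have h5 : (B v v - 3 * a) * t' ^ 2 ≤ (1 - θ) * R (t • v) := by
      have : (B v v - 3 * a) * t' ^ 2 ≤ (B (e j) (e j) - a) * t' ^ 2 - a * t' ^ 2 := by
        have : (B v v - 3 * a) * t' ^ 2 ≤ (B (e j) (e j) - 2 * a) * t' ^ 2 := by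
          gcongr ?_ * _
          linarith
        linarith
      linarith
    have h6 : (1 - θ) * ((1 - θ) * (B v v - 3 * a) * t ^ 2) ≤ (1 - θ) * R (t • v) := by
      rw [ht'] at h5
      calc (1 - θ) * ((1 - θ) * (B v v - 3 * a) * t ^ 2) = (B v v - 3 * a) * ((1 - θ) * t) ^ 2 := by
            ring
        _ ≤ _ := h5
    have h7 := le_of_mul_le_mul_left h6 (by linarith)
    have h8 : B v v ≤ K := by have := hBK v; rw [hv] at this; linarith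
    have h9 : θ * (B v v - 3 * a) ≤ a := by
      calc θ * (B v v - 3 * a) ≤ θ * K := by gcongr; linarith
        _ ≤ a := hθK
    have h10 : (B v v - 4 * a) * t ^ 2 ≤ (1 - θ) * (B v v - 3 * a) * t ^ 2 := by
      gcongr ?_ * _
      linarith
    exact h10.trans h7
  refine ⟨x, p, B, hBs, fun h => ?_⟩
  rw [Asymptotics.isLittleO_iff]
  intro c hc
  have hgoal : ∃ s0 > 0, ∀ t : ℝ, |t| < s0 → |R (t • h) - t ^ 2 * B h h| ≤ c * t ^ 2 := by
    rcases eq_or_ne h 0 with h0 | h0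
    · refine ⟨1, one_pos, fun t _ => ?_⟩
      subst h0
      have : R (t • (0:H)) = 0 := by
        show f (x + t • (0:H)) - f x - ⟪p, t • (0:H)⟫_ℝ = 0
        rw [smul_zero, add_zero, inner_zero_right]; ring
      rw [this]
      simp only [map_zero, mul_zero, sub_zero, abs_zero]
      positivity
    · have hhn : 0 < ‖h‖ := norm_pos_iff.2 h0
      -- upper
      obtain ⟨n, hn⟩ := ((tendsto_order.1 (hBl h)).2 (B h h + c) (by linarith)).exists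
      -- lower
      set v : H := (‖h‖)⁻¹ • h with hv
      have hvn : ‖v‖ = 1 := by
        rw [hv, norm_smul, norm_inv, norm_norm, inv_mul_cancel₀ hhn.ne']
      have hhv : h = ‖h‖ • v := by
        rw [hv, smul_smul, mul_inv_cancel₀ hhn.ne', one_smul]
      obtain ⟨s0, hs0, hl⟩ := hlow2 v hvn (c / (4 * ‖h‖ ^ 2)) (by positivity)
      refine ⟨min (s0 / ‖h‖) (ρ n / ‖h‖), lt_min (by positivity)
        (div_pos (hρp n) hhn), fun t ht => ?_⟩
      have ht1 : |t| < s0 / ‖h‖ := ht.trans_le (min_le_left _ _)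
      have ht2 : |t| < ρ n / ‖h‖ := ht.trans_le (min_le_right _ _)
      rw [lt_div_iff₀ hhn] at ht1 ht2
      have hup : R (t • h) ≤ t ^ 2 * A n h := by
        have := hRA n (t • h) (by rw [norm_smul, Real.norm_eq_abs]; exact ht2.le)
        rwa [(hQ n).smul] at this
      have hup2 : t ^ 2 * A n h ≤ t ^ 2 * (B h h + c) := by gcongr
      have hlo := hl (t * ‖h‖) (by rw [abs_mul, abs_of_pos hhn]; exact ht1)
      have e1 : (t * ‖h‖) • v = t • h := by rw [mul_smul, ← hhv]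
      rw [e1] at hlo
      have e2 : B h h = ‖h‖ ^ 2 * B v v := by
        conv_lhs => rw [hhv]
        rw [hBsm]
      have e3 : (B v v - 4 * (c / (4 * ‖h‖ ^ 2))) * (t * ‖h‖) ^ 2 = t ^ 2 * B h h - c * t ^ 2 := by
        rw [e2]; field_simp
      rw [e3] at hlo
      rw [abs_le]
      constructor
      · linarith
      · linarith
  obtain ⟨s0, hs0, hfin⟩ := hgoal
  filter_upwards [Metric.ball_mem_nhds (0:ℝ) hs0] with t ht
  rw [Metric.mem_ball, dist_zero_right, Real.norm_eq_abs] at ht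
  have := hfin t ht
  rw [Real.norm_eq_abs, Real.norm_eq_abs, abs_of_nonneg (sq_nonneg t)]
  exact this

end


end Helpers

/-- Every continuous convex function on a real separable Hilbert space has a point x with a vector y and a continuous symmetric bilinear B such that f(x+th)-f(x)-⟨y,th⟩-t²B(h,h)=o(t²) as t→0 for every h. -/
theorem result :
    ∀ (X : Type) [NormedAddCommGroup X] [InnerProductSpace ℝ X] [CompleteSpace X]
      [TopologicalSpace.SeparableSpace X] (f : X → ℝ),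
      Continuous f → ConvexOn ℝ Set.univ f →
      ∃ (x y : X) (B : X →L[ℝ] X →L[ℝ] ℝ),
        (∀ u v : X, B u v = B v u) ∧
        ∀ h : X,
          (fun t : ℝ => f (x + t • h) - f x - ⟪y, t • h⟫_ℝ - t ^ 2 * B h h)
            =o[nhds (0 : ℝ)] (fun t : ℝ => t ^ 2) := by
  intro X _ _ _ _ f hfc hf
  exact main_thm f hfc hf

end Pool.Agent.S03013
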