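import Pool.Statements.S03015
import Pool.Agent.Helper543.Rad.Main
import Pool.Agent.Helper543.Rad.Haus
-- import your own Pool.Agent.* helpers here

set_option autoImplicit false
open MeasureTheory Filter Topology
open Pool Pool.MP_41f86e_an

namespace Pool.Agent.S03015

/-- For every n ≥ 2 there is a holomorphic function on the unit ball of ℂⁿ whose values f(rζ) tend to infinity as r increases to 1, for almost every point ζ of the unit sphere (surface measure). -/
theorem result :
    ∀ n : ℕ, 2 ≤ n →
      ∃ f : EuclideanSpace ℂ (Fin n) → ℂ,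
        DifferentiableOn ℂ f (Metric.ball (0 : EuclideanSpace ℂ (Fin n)) 1) ∧
        ∀ᵐ ζ ∂((MeasureTheory.Measure.hausdorffMeasure ((2 * (n : ℝ)) - 1)).restrict
            (Metric.sphere (0 : EuclideanSpace ℂ (Fin n)) 1)),
          Tendsto (fun r : ℝ => f ((r : ℂ) • ζ)) (𝓝[<] (1 : ℝ)) (Bornology.cobounded ℂ) := by
  intro n hn
  classical
  let e : Pool.Agent.Helper543.Rad.V n := EuclideanSpace.single ⟨0, by omega⟩ (1 : ℂ)
  have he : ‖e‖ = 1 := by simp [e]
  have hfin : IsFiniteMeasure ((MeasureTheory.Measure.hausdorffMeasure ((2 * (n : ℝ)) - 1)).restrict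
      (Metric.sphere (0 : EuclideanSpace ℂ (Fin n)) 1)) := by
    refine ⟨?_⟩
    rw [Measure.restrict_apply_univ]
    exact Pool.Agent.Helper543.Rad.sphere_finite (by omega)
  let s : EuclideanSpace ℂ (Fin n) → Pool.Agent.Helper543.Rad.V n := fun z =>
    if ‖z‖ = 1 then z else e
  have hs : Measurable s := by
    apply Measurable.ite _ measurable_id measurable_const
    exact measurableSet_eq_fun measurable_norm measurable_const
  have hs1 : ∀ z, ‖s z‖ = 1 := by
    intro z
    by_cases hz : ‖z‖ = 1
    · simp only [s, hz, if_true]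
    · simp only [s, hz, if_false]
      exact he
  obtain ⟨g, hg1, hg2⟩ := Pool.Agent.Helper543.Rad.main
    ((MeasureTheory.Measure.hausdorffMeasure ((2 * (n : ℝ)) - 1)).restrict
      (Metric.sphere (0 : EuclideanSpace ℂ (Fin n)) 1)) s hs hs1
  refine ⟨fun z => Complex.exp (-(g z)), ?_, ?_⟩
  · exact hg1.neg.cexp
  · filter_upwards [hg2, ae_restrict_mem Metric.isClosed_sphere.measurableSet] with z hz hz1
    rw [← tendsto_norm_atTop_iff_cobounded]
    simp only [Complex.norm_exp, Complex.neg_re]
    apply Real.tendsto_exp_atTop.comp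
    apply tendsto_neg_atBot_atTop.comp
    have h1 : s z = z := by
      rw [mem_sphere_zero_iff_norm] at hz1
      simp only [s, hz1, if_true]
    rw [h1] at hz
    exact hz

end Pool.Agent.S03015
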