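import Pool.Statements.S03022
-- import your own Pool.Agent.* helpers here

set_option autoImplicit false
open MeasureTheory ProbabilityTheory
open Pool Pool.MP_42c79c_an

namespace Pool.Agent.S03022

/-- Wilkinson type target matrix. -/
noncomputable def T (n : ℕ) (s : ℝ) : Fin (n+1) → Fin (n+1) → ℝ := fun i j =>
  if j = Fin.last n then s else if i = j then 1 else if j < i then -1/2 else 0

lemma T_zero_zero (n : ℕ) (s : ℝ) : T (n+1) s 0 0 = 1 := by
  unfold T
  have : (0 : Fin (n+2)) ≠ Fin.last (n+1) := by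
    intro h; have := congrArg Fin.val h; simp at this
  simp [this]

lemma T_succ_zero (n : ℕ) (s : ℝ) (i : Fin (n+1)) : T (n+1) s i.succ 0 = -1/2 := by
  unfold T
  have : (0 : Fin (n+2)) ≠ Fin.last (n+1) := by
    intro h; have := congrArg Fin.val h; simp at this
  simp [this, Fin.succ_ne_zero]

lemma T_zero_succ (n : ℕ) (s : ℝ) (j : Fin (n+1)) :
    T (n+1) s 0 j.succ = if j = Fin.last n then s else 0 := by
  unfold T
  by_cases h : j = Fin.last n
  · simp [h]
  · have h1 : j.succ ≠ Fin.last (n+1) := by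
      intro h2
      apply h
      rw [← Fin.succ_last] at h2
      exact Fin.succ_injective _ h2
    have h3 : (0 : Fin (n+2)) ≠ j.succ := (Fin.succ_ne_zero j).symm
    simp [h, h1, h3]

lemma T_succ_succ (n : ℕ) (s : ℝ) (i j : Fin (n+1)) :
    T (n+1) s i.succ j.succ = T n s i j := by
  unfold T
  by_cases h : j = Fin.last n
  · simp [h]
  · have h1 : j.succ ≠ Fin.last (n+1) := by
      intro h2
      apply h
      rw [← Fin.succ_last] at h2
      exact Fin.succ_injective _ h2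
    simp [h, h1]

lemma T_abs (n : ℕ) (i j : Fin (n+1)) : |T n 1 i j| ≤ 1 := by
  unfold T
  split_ifs <;> norm_num [abs_le]

/-- Non-last columns of the target. -/
lemma T_shift (n : ℕ) (s t : ℝ) (i j : Fin (n+1)) (h : j ≠ Fin.last n) :
    T n s i j = T n t i j := by
  unfold T; simp [h]

lemma T_last (n : ℕ) (s : ℝ) (i : Fin (n+1)) : T n s i (Fin.last n) = s := by
  unfold T; simp

theorem lu (n : ℕ) : ∀ (s ε K : ℝ), 1 ≤ s → 0 ≤ ε → 1 ≤ K → s * (3/2)^n ≤ K →
    ε * (4*K)^n ≤ 1/8 → ∀ G : Fin (n+1) → Fin (n+1) → ℝ,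
    (∀ i j, |G i j - T n s i j| ≤ ε) →
    ∃ L U : Matrix (Fin (n+1)) (Fin (n+1)) ℝ,
      (∀ i j, i < j → L i j = 0) ∧ (∀ i, L i i = 1) ∧ (∀ i j, |L i j| ≤ 1) ∧
      (∀ i j, j < i → U i j = 0) ∧ (Matrix.of G = L * U) ∧
      s * (3/2)^n - 1/8 ≤ U (Fin.last n) (Fin.last n) := by
  induction n with
  | zero =>
    intro s ε K hs hε hK hsK hεK G hG
    refine ⟨1, Matrix.of G, ?_, ?_, ?_, ?_, ?_, ?_⟩
    · intro i j hij
      exact absurd hij (by omega)
    · intro i; simp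
    · intro i j
      have : i = j := by omega
      subst this; simp
    · intro i j hij
      exact absurd hij (by omega)
    · simp
    · have h := hG (Fin.last 0) (Fin.last 0)
      rw [T_last] at h
      rw [abs_le] at h
      simp only [pow_zero, mul_one, Matrix.of_apply] at *
      linarith [h.1]
  | succ n ih =>
    intro s ε K hs hε hK hsK hεK G hG
    have hK4 : (1 : ℝ) ≤ 4*K := by linarith
    have hε8 : ε ≤ 1/8 := by
      have : (1 : ℝ) ≤ (4*K)^(n+1) := one_le_pow₀ hK4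
      nlinarith
    set g := G 0 0 with hg
    have hg0 := hG 0 0
    rw [T_zero_zero, ← hg, abs_le] at hg0
    have hgpos : 0 < g := by linarith
    have hg78 : 7/8 ≤ g := by linarith
    -- the Schur complement
    let S : Fin (n+1) → Fin (n+1) → ℝ := fun i j => G i.succ j.succ - G i.succ 0 / g * G 0 j.succ
    have hc : ∀ i : Fin (n+1), |G i.succ 0 + 1/2| ≤ ε := by
      intro i
      have := hG i.succ 0
      rw [T_succ_zero] at this
      have e : G i.succ 0 - -1/2 = G i.succ 0 + 1/2 := by ring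
      rwa [e] at this
    have hl1 : ∀ i : Fin (n+1), |G i.succ 0 / g| ≤ 1 := by
      intro i
      have h1 := hc i
      rw [abs_le] at h1
      rw [abs_div, abs_of_pos hgpos, div_le_one hgpos, abs_le]
      constructor <;> linarith [h1.1, h1.2]
    have hl2 : ∀ i : Fin (n+1), |G i.succ 0 / g + 1/2| ≤ 2*ε := by
      intro i
      have h1 := hc i
      rw [abs_le] at h1
      have e : G i.succ 0 / g + 1/2 = (G i.succ 0 + g/2)/g := by
        field_simp
      rw [e, abs_div, abs_of_pos hgpos, div_le_iff₀ hgpos, abs_le]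
      constructor <;> nlinarith [h1.1, h1.2, hg0.1, hg0.2]
    have hs0 : (0:ℝ) < s := by linarith
    have hS : ∀ i j, |S i j - T n (3/2*s) i j| ≤ 4*s*ε := by
      intro i j
      by_cases hj : j = Fin.last n
      · subst hj
        rw [T_last]
        have h1 := hG i.succ (Fin.last n).succ
        rw [T_succ_succ, T_last] at h1
        have h2 := hG 0 (Fin.last n).succ
        rw [T_zero_succ] at h2
        simp only [if_true] at h2
        have h3 := hl1 i
        have h4 := hl2 i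
        have e : S i (Fin.last n) - 3/2*s = (G i.succ (Fin.last n).succ - s)
            - (G i.succ 0 / g) * (G 0 (Fin.last n).succ - s)
            - (G i.succ 0 / g + 1/2) * s := by
          simp only [S]; ring
        rw [e]
        calc |(G i.succ (Fin.last n).succ - s)
            - (G i.succ 0 / g) * (G 0 (Fin.last n).succ - s)
            - (G i.succ 0 / g + 1/2) * s|
            ≤ |(G i.succ (Fin.last n).succ - s)
            - (G i.succ 0 / g) * (G 0 (Fin.last n).succ - s)|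
            + |(G i.succ 0 / g + 1/2) * s| := abs_sub _ _
          _ ≤ |G i.succ (Fin.last n).succ - s|
            + |(G i.succ 0 / g) * (G 0 (Fin.last n).succ - s)|
            + |(G i.succ 0 / g + 1/2) * s| := by gcongr; exact abs_sub _ _
          _ ≤ ε + 1 * ε + 2*ε*s := by
              rw [abs_mul, abs_mul, abs_of_pos hs0]
              gcongr
          _ ≤ 4*s*ε := by nlinarith
      · rw [T_shift n (3/2*s) s i j hj, ← T_succ_succ]
        have h1 := hG i.succ j.succ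
        have h2 := hG 0 j.succ
        rw [T_zero_succ] at h2
        simp only [hj, if_false, sub_zero] at h2
        have h3 := hl1 i
        have e : S i j - T (n+1) s i.succ j.succ = (G i.succ j.succ - T (n+1) s i.succ j.succ)
            - (G i.succ 0 / g) * G 0 j.succ := by
          simp only [S]; ring
        rw [e]
        calc _ ≤ |G i.succ j.succ - T (n+1) s i.succ j.succ|
            + |(G i.succ 0 / g) * G 0 j.succ| := abs_sub _ _
          _ ≤ ε + 1*ε := by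
              rw [abs_mul]
              gcongr
          _ ≤ 4*s*ε := by nlinarith
    have hsK' : (3/2*s) * (3/2)^n ≤ K := by
      have : (3/2*s) * (3/2)^n = s*(3/2)^(n+1) := by ring
      rw [this]; exact hsK
    have hsleK : s ≤ K := by
      have : (1:ℝ) ≤ (3/2)^(n+1) := one_le_pow₀ (by norm_num)
      nlinarith
    have hεK' : (4*s*ε) * (4*K)^n ≤ 1/8 := by
      have h0 : 0 ≤ (4*K)^n := by positivity
      calc (4*s*ε) * (4*K)^n ≤ (4*K*ε) * (4*K)^n := by gcongr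
        _ = ε*(4*K)^(n+1) := by ring
        _ ≤ 1/8 := hεK
    obtain ⟨L', U', hL1, hL2, hL3, hU1, hLU, hUl⟩ := ih (3/2*s) (4*s*ε) K (by linarith)
      (by positivity) hK hsK' hεK' S hS
    refine ⟨Matrix.of (Fin.cons (Fin.cons 1 (fun _ => 0)) (fun i => Fin.cons (G i.succ 0 / g) (L' i))),
      Matrix.of (Fin.cons (Fin.cons g (fun j => G 0 j.succ)) (fun i => Fin.cons 0 (U' i))), ?_, ?_, ?_, ?_, ?_, ?_⟩
    · intro i j hij
      rcases Fin.eq_zero_or_eq_succ i with rfl | ⟨i', rfl⟩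
      · rcases Fin.eq_zero_or_eq_succ j with rfl | ⟨j', rfl⟩
        · exact absurd hij (lt_irrefl _)
        · simp
      · rcases Fin.eq_zero_or_eq_succ j with rfl | ⟨j', rfl⟩
        · exact absurd hij (by simp)
        · simpa using hL1 i' j' (by simpa using hij)
    · intro i
      rcases Fin.eq_zero_or_eq_succ i with rfl | ⟨i', rfl⟩
      · simp
      · simpa using hL2 i'
    · intro i j
      rcases Fin.eq_zero_or_eq_succ i with rfl | ⟨i', rfl⟩
      · rcases Fin.eq_zero_or_eq_succ j with rfl | ⟨j', rfl⟩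
        · simp
        · simp
      · rcases Fin.eq_zero_or_eq_succ j with rfl | ⟨j', rfl⟩
        · simpa using hl1 i'
        · simpa using hL3 i' j'
    · intro i j hij
      rcases Fin.eq_zero_or_eq_succ i with rfl | ⟨i', rfl⟩
      · exact absurd hij (by simp)
      · rcases Fin.eq_zero_or_eq_succ j with rfl | ⟨j', rfl⟩
        · simp
        · simpa using hU1 i' j' (by simpa using hij)
    · ext i j
      rw [Matrix.mul_apply, Fin.sum_univ_succ]
      rcases Fin.eq_zero_or_eq_succ i with rfl | ⟨i', rfl⟩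
      · rcases Fin.eq_zero_or_eq_succ j with rfl | ⟨j', rfl⟩
        · simp [hg]
        · simp
      · rcases Fin.eq_zero_or_eq_succ j with rfl | ⟨j', rfl⟩
        · simp
          field_simp
        · have h5 := congrFun (congrFun hLU i') j'
          rw [Matrix.mul_apply] at h5
          simp only [Matrix.of_apply, S] at h5
          simp only [Matrix.of_apply, Fin.cons_succ, Fin.cons_zero]
          linarith
    · have h6 : s * (3/2)^(n+1) = (3/2*s) * (3/2)^n := by ring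
      rw [h6]
      simpa [← Fin.succ_last] using hUl


lemma exp_neg_two : (1:ℝ)/8 ≤ Real.exp (-2) := by
  rw [Real.exp_neg]
  rw [one_div, inv_le_inv₀ (by norm_num) (Real.exp_pos _)]
  have h : Real.exp 2 = Real.exp 1 * Real.exp 1 := by
    rw [← Real.exp_add]; norm_num
  have h1 := Real.exp_one_lt_d9
  have h0 := Real.exp_pos 1
  rw [h]
  nlinarith

lemma pdf_lower (y : ℝ) (hy : |y| ≤ 2) : (1:ℝ)/32 ≤ gaussianPDFReal 0 1 y := by
  unfold gaussianPDFReal
  have h1 : (1:ℝ)/4 ≤ (Real.sqrt (2 * Real.pi * ((1 : NNReal) : ℝ)))⁻¹ := by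
    have h2 : Real.sqrt (2 * Real.pi * ((1 : NNReal) : ℝ)) ≤ 4 := by
      rw [Real.sqrt_le_left (by norm_num)]
      have := Real.pi_le_four
      simp only [NNReal.coe_one, mul_one]
      nlinarith
    have h3 : 0 < Real.sqrt (2 * Real.pi * ((1 : NNReal) : ℝ)) := by
      apply Real.sqrt_pos.mpr
      have := Real.pi_pos
      simp only [NNReal.coe_one, mul_one]
      positivity
    rw [one_div]
    exact inv_anti₀ h3 h2
  have h4 : (1:ℝ)/8 ≤ Real.exp (-(y - 0)^2 / (2 * ((1:NNReal):ℝ))) := by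
    refine exp_neg_two.trans (Real.exp_le_exp.mpr ?_)
    rw [abs_le] at hy
    simp only [NNReal.coe_one, mul_one, sub_zero]
    nlinarith [hy.1, hy.2]
  calc (1:ℝ)/32 = 1/4 * (1/8) := by norm_num
    _ ≤ _ := by gcongr

lemma gauss_Icc (a ε : ℝ) (ha : |a| ≤ 1) (_hε : 0 ≤ ε) (hε1 : ε ≤ 1) :
    ENNReal.ofReal (ε / 16) ≤ gaussianReal 0 1 (Set.Icc (a - ε) (a + ε)) := by
  rw [gaussianReal_of_var_ne_zero 0 (by norm_num : (1:NNReal) ≠ 0)]
  rw [withDensity_apply _ measurableSet_Icc]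
  rw [abs_le] at ha
  calc ENNReal.ofReal (ε/16) = ENNReal.ofReal (1/32) * volume (Set.Icc (a-ε) (a+ε)) := by
        rw [Real.volume_Icc, ← ENNReal.ofReal_mul (by norm_num)]
        congr 1; ring
    _ = ∫⁻ x in Set.Icc (a-ε) (a+ε), ENNReal.ofReal (1/32) := by
        rw [setLIntegral_const]
    _ ≤ ∫⁻ x in Set.Icc (a-ε) (a+ε), gaussianPDF 0 1 x := by
        apply setLIntegral_mono' measurableSet_Icc
        intro x hx
        unfold gaussianPDF
        apply ENNReal.ofReal_le_ofReal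
        apply pdf_lower
        rw [abs_le]
        constructor <;> linarith [hx.1, hx.2]

lemma box_lower (m : ℕ) (A : Fin m → Fin m → ℝ) (hA : ∀ i j, |A i j| ≤ 1) (ε : ℝ)
    (hε : 0 ≤ ε) (hε1 : ε ≤ 1) :
    ENNReal.ofReal (ε/16) ^ (m*m) ≤
    (Measure.pi fun _ : Fin m => Measure.pi fun _ : Fin m => gaussianReal 0 1)
      {G : Fin m → Fin m → ℝ | ∀ i j, |G i j - A i j| ≤ ε} := by
  have hset : {G : Fin m → Fin m → ℝ | ∀ i j, |G i j - A i j| ≤ ε} =
      Set.pi Set.univ (fun i => Set.pi Set.univ (fun j => Set.Icc (A i j - ε) (A i j + ε))) := by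
    ext G
    simp only [Set.mem_ofPred_eq, Set.mem_pi, Set.mem_univ, true_implies, Set.mem_Icc]
    constructor
    · intro h i j
      have := h i j
      rw [abs_le] at this
      constructor <;> linarith [this.1, this.2]
    · intro h i j
      rw [abs_le]
      constructor <;> linarith [(h i j).1, (h i j).2]
  rw [hset, Measure.pi_pi]
  have h1 : ∀ i : Fin m, ENNReal.ofReal (ε/16) ^ m ≤
      (Measure.pi fun _ : Fin m => gaussianReal 0 1)
        (Set.pi Set.univ (fun j => Set.Icc (A i j - ε) (A i j + ε))) := by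
    intro i
    rw [Measure.pi_pi]
    calc ENNReal.ofReal (ε/16) ^ m = ∏ _j : Fin m, ENNReal.ofReal (ε/16) := by simp
      _ ≤ _ := Finset.prod_le_prod' (fun j _ => gauss_Icc _ _ (hA i j) hε hε1)
  calc ENNReal.ofReal (ε/16) ^ (m*m) = ∏ _i : Fin m, ENNReal.ofReal (ε/16) ^ m := by
        simp [pow_mul]
    _ ≤ _ := Finset.prod_le_prod' (fun i _ => h1 i)

lemma exists_N (c₁ c₂ : ℝ) (hc : 0 < c₂) : ∃ N : ℕ,
    8 * ((N:ℝ)+1)^c₁ ≤ (3/2:ℝ)^N ∧
    8 * ((N:ℝ)+1)^c₁ * ((((N+2)*N+7) * ((N+1)*(N+1)) : ℕ) : ℝ) < c₂ * (3/2:ℝ)^N := by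
  set q := ⌈|c₁|⌉₊ with hq
  have ht := tendsto_pow_const_div_const_pow_of_one_lt (q+4) (r := (3/2:ℝ)) (by norm_num)
  set δ : ℝ := min 1 c₂ / 84 with hδ
  have hm : 0 < min 1 c₂ := lt_min one_pos hc
  have hδpos : 0 < δ := by positivity
  have he := (ht.eventually (gt_mem_nhds hδpos))
  obtain ⟨M, hM⟩ := Filter.eventually_atTop.mp he
  refine ⟨M, ?_⟩
  have h1 := hM (M+1) (by omega)
  have hr : (0:ℝ) < (3/2)^(M+1) := by positivity
  rw [div_lt_iff₀ hr] at h1
  have hM1 : (1:ℝ) ≤ (M:ℝ)+1 := by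
    have : (0:ℝ) ≤ M := Nat.cast_nonneg M
    linarith
  have hrp : ((M:ℝ)+1)^c₁ ≤ ((M:ℝ)+1)^q := by
    rw [← Real.rpow_natCast ((M:ℝ)+1) q]
    apply Real.rpow_le_rpow_of_exponent_le hM1
    exact (le_abs_self c₁).trans (Nat.le_ceil _)
  have hpow : ((M:ℝ)+1)^q ≤ ((M:ℝ)+1)^(q+4) := pow_le_pow_right₀ hM1 (by omega)
  have hrp0 : 0 < ((M:ℝ)+1)^c₁ := by positivity
  push_cast at h1
  have key : 56 * ((M:ℝ)+1)^(q+4) < min 1 c₂ * (3/2:ℝ)^M := by
    have : (3/2:ℝ)^(M+1) = 3/2 * (3/2:ℝ)^M := by ring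
    rw [this] at h1
    have h2 : 84 * δ = min 1 c₂ := by rw [hδ]; ring
    nlinarith [h1]
  have hp : (0:ℝ) < (3/2)^M := by positivity
  constructor
  · have : min 1 c₂ * (3/2:ℝ)^M ≤ 1 * (3/2:ℝ)^M := by gcongr; exact min_le_left _ _
    have h0 : 0 < ((M:ℝ)+1)^(q+4) := by positivity
    linarith
  · have h3 : min 1 c₂ * (3/2:ℝ)^M ≤ c₂ * (3/2:ℝ)^M := by gcongr; exact min_le_right _ _
    have h4 : ((((M+2)*M+7) * ((M+1)*(M+1)) : ℕ) : ℝ) ≤ 7 * ((M:ℝ)+1)^4 := by
      push_cast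
      have : (0:ℝ) ≤ M := Nat.cast_nonneg M
      have h5 : ((M:ℝ)+2)*M+7 ≤ 7*((M:ℝ)+1)^2 := by nlinarith
      calc (((M:ℝ)+2)*M+7) * (((M:ℝ)+1)*(M+1)) ≤ (7*((M:ℝ)+1)^2) * (((M:ℝ)+1)*(M+1)) := by
            gcongr
        _ = 7 * ((M:ℝ)+1)^4 := by ring
    calc 8 * ((M:ℝ)+1)^c₁ * ((((M+2)*M+7) * ((M+1)*(M+1)) : ℕ) : ℝ)
        ≤ 8 * ((M:ℝ)+1)^q * (7 * ((M:ℝ)+1)^4) := by gcongr
      _ = 56 * ((M:ℝ)+1)^(q+4) := by ring
      _ < min 1 c₂ * (3/2:ℝ)^M := key
      _ ≤ _ := h3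


/-- The negation of the preceding statement: There are constants c₁ and c₂>0 such that for every n, every σ in (0,1], every real n×n Ā with spectral norm ≤ 1, and every x ≥ 1, the partial-pivoting growth factor of Ā+σG (G i.i.d. standard Gaussian) exceeds x(n/σ)^c₁ with probability ≤ 2^(−c₂x). -/
theorem result :
    ¬ (∃ c₁ c₂ : ℝ, 0 < c₂ ∧ ∀ n : ℕ, ∀ σ : ℝ, 0 < σ → σ ≤ 1 →
    ∀ Abar : Matrix (Fin n) (Fin n) ℝ,
    (∀ v : Fin n → ℝ, ∑ i, (Abar.mulVec v i) ^ 2 ≤ ∑ i, v i ^ 2) →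
    ∀ x : ℝ, 1 ≤ x →
    (Measure.pi fun _ : Fin n => Measure.pi fun _ : Fin n => gaussianReal 0 1)
      {G : Fin n → Fin n → ℝ | ∃ π : Equiv.Perm (Fin n), ∃ L U : Matrix (Fin n) (Fin n) ℝ,
        (∀ i j, i < j → L i j = 0) ∧ (∀ i, L i i = 1) ∧ (∀ i j, |L i j| ≤ 1) ∧
        (∀ i j, j < i → U i j = 0) ∧
        (Matrix.of fun i j => Abar (π i) j + σ * G (π i) j) = L * U ∧
        x * ((n : ℝ) / σ) ^ c₁ * (⨆ i, ⨆ j, |Abar i j + σ * G i j|) < ⨆ i, ⨆ j, |U i j|}
      ≤ ENNReal.ofReal ((2 : ℝ) ^ (-(c₂ * x)))) := by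
  rintro ⟨c₁, c₂, hc, H⟩
  obtain ⟨N, hN1, hN2⟩ := exists_N c₁ c₂ hc
  have hM1 : (1:ℝ) ≤ (N:ℝ)+1 := by
    have : (0:ℝ) ≤ N := Nat.cast_nonneg N
    linarith
  have hrp0 : 0 < ((N:ℝ)+1)^c₁ := by positivity
  set x : ℝ := (3/2:ℝ)^N / (8 * ((N:ℝ)+1)^c₁) with hx
  have hx1 : 1 ≤ x := by
    rw [hx, le_div_iff₀ (by positivity)]
    linarith
  set e : ℕ := (N+2)*N+7 with he
  set ε : ℝ := 16 / 2^e with hε
  have h2e : (0:ℝ) < 2^e := by positivity
  have hεpos : 0 < ε := by positivity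
  have hεN : ε * (4*2^N)^N = 1/8 := by
    rw [hε, he]
    have h4 : (4:ℝ)*2^N = 2^(N+2) := by rw [pow_add]; norm_num; ring
    rw [h4, ← pow_mul, pow_add _ _ 7]
    field_simp
    norm_num
  have hε8 : ε ≤ 1/8 := by
    have h2N : (1:ℝ) ≤ 2^N := one_le_pow₀ (by norm_num)
    have : (1:ℝ) ≤ (4*2^N)^N := one_le_pow₀ (by linarith)
    nlinarith
  have h := H (N+1) 1 one_pos le_rfl 0 (by intro v; simp; positivity) x hx1
  have hbox := box_lower (N+1) (T N 1) (T_abs N) ε hεpos.le (by linarith)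
  have hsub : {G : Fin (N+1) → Fin (N+1) → ℝ | ∀ i j, |G i j - T N 1 i j| ≤ ε} ⊆
      {G : Fin (N+1) → Fin (N+1) → ℝ | ∃ π : Equiv.Perm (Fin (N+1)),
        ∃ L U : Matrix (Fin (N+1)) (Fin (N+1)) ℝ,
        (∀ i j, i < j → L i j = 0) ∧ (∀ i, L i i = 1) ∧ (∀ i j, |L i j| ≤ 1) ∧
        (∀ i j, j < i → U i j = 0) ∧
        (Matrix.of fun i j => (0 : Matrix (Fin (N+1)) (Fin (N+1)) ℝ) (π i) j + 1 * G (π i) j)
          = L * U ∧
        x * (((N+1 : ℕ) : ℝ) / 1) ^ c₁ *
          (⨆ i, ⨆ j, |(0 : Matrix (Fin (N+1)) (Fin (N+1)) ℝ) i j + 1 * G i j|)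
          < ⨆ i, ⨆ j, |U i j|} := by
    intro G hG
    simp only [Set.mem_ofPred_eq] at hG
    have h32 : (3/2:ℝ)^N ≤ 2^N := pow_le_pow_left₀ (by norm_num) (by norm_num) N
    obtain ⟨L, U, hL1, hL2, hL3, hU, hLU, hUl⟩ := lu N 1 ε (2^N) le_rfl hεpos.le
      (one_le_pow₀ (by norm_num)) (by rw [one_mul]; exact h32) hεN.le G hG
    refine ⟨1, L, U, hL1, hL2, hL3, hU, ?_, ?_⟩
    · rw [← hLU]
      ext i j
      simp
    · have hsup : (⨆ i, ⨆ j, |(0 : Matrix (Fin (N+1)) (Fin (N+1)) ℝ) i j + 1 * G i j|) ≤ 2 := by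
        apply ciSup_le
        intro i
        apply ciSup_le
        intro j
        have h1 := hG i j
        have h2 := T_abs N i j
        rw [abs_le] at h1 h2
        simp only [Matrix.zero_apply, zero_add, one_mul]
        rw [abs_le]
        constructor <;> linarith [h1.1, h1.2, h2.1, h2.2]
      have hUsup : U (Fin.last N) (Fin.last N) ≤ ⨆ i, ⨆ j, |U i j| := by
        have h3 : U (Fin.last N) (Fin.last N) ≤ |U (Fin.last N) (Fin.last N)| := le_abs_self _
        have h4 : |U (Fin.last N) (Fin.last N)| ≤ ⨆ j, |U (Fin.last N) j| :=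
          le_ciSup (f := fun j => |U (Fin.last N) j|) (Set.finite_range _).bddAbove (Fin.last N)
        have h5 : (⨆ j, |U (Fin.last N) j|) ≤ ⨆ i, ⨆ j, |U i j| :=
          le_ciSup (f := fun i => ⨆ j, |U i j|) (Set.finite_range _).bddAbove (Fin.last N)
        exact h3.trans (h4.trans h5)
      have hcast : (((N+1 : ℕ) : ℝ) / 1) = (N:ℝ)+1 := by push_cast; ring
      rw [hcast]
      have hx8 : x * ((N:ℝ)+1)^c₁ = (3/2:ℝ)^N / 8 := by
        rw [hx]; field_simp
      rw [hx8]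
      have h32' : (1:ℝ) ≤ (3/2:ℝ)^N := one_le_pow₀ (by norm_num)
      calc (3/2:ℝ)^N / 8 * (⨆ i, ⨆ j, |(0 : Matrix (Fin (N+1)) (Fin (N+1)) ℝ) i j + 1 * G i j|)
          ≤ (3/2:ℝ)^N / 8 * 2 := by gcongr
        _ < 1 * (3/2:ℝ)^N - 1/8 := by linarith
        _ ≤ U (Fin.last N) (Fin.last N) := hUl
        _ ≤ _ := hUsup
  have hfin := hbox.trans ((measure_mono hsub).trans h)
  rw [← ENNReal.ofReal_pow (by positivity)] at hfin
  rw [ENNReal.ofReal_le_ofReal_iff (by positivity)] at hfin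
  have hε16 : ε / 16 = (2:ℝ) ^ (-(e:ℝ)) := by
    rw [hε, Real.rpow_neg (by norm_num), Real.rpow_natCast]
    field_simp
  rw [hε16, ← Real.rpow_mul_natCast (by norm_num)] at hfin
  rw [Real.rpow_le_rpow_left_iff (by norm_num)] at hfin
  have hcx : c₂ * x * (8 * ((N:ℝ)+1)^c₁) = c₂ * (3/2:ℝ)^N := by
    rw [hx]; field_simp
  have h8 : (0:ℝ) < 8 * ((N:ℝ)+1)^c₁ := by positivity
  have hlt : ((e * ((N+1)*(N+1)) : ℕ) : ℝ) < c₂ * x := by
    rw [← hcx] at hN2
    have h9 : (8 * ((N:ℝ)+1)^c₁) * ((e * ((N+1)*(N+1)) : ℕ) : ℝ)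
        < (8 * ((N:ℝ)+1)^c₁) * (c₂ * x) := by linarith
    exact lt_of_mul_lt_mul_left h9 h8.le
  push_cast at hlt hfin
  linarith

end Pool.Agent.S03022
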