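import Pool.Statements.S03025

set_option autoImplicit false

namespace Pool.Agent.S03025Aux.Bergman
open MeasureTheory Filter Topology Complex ComplexConjugate

/-- orthogonality of monomials -/
lemma integral_mono_ne {m n : ℕ} (h : m ≠ n) (ρ : ℝ) :
    ∫ z in Metric.ball (0 : ℂ) ρ, z ^ m * conj z ^ n = 0 := by
  have hmn : ((m : ℂ) - n) ≠ 0 := by
    rw [sub_ne_zero]; exact_mod_cast h
  set a : ℝ := Real.pi / ((m : ℝ) - n) with ha
  set c : Circle := Circle.exp a with hc
  have hmp : MeasurePreserving (rotation c) (volume : Measure ℂ) volume :=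
    (rotation c).measurePreserving
  have hpre : (rotation c) ⁻¹' (Metric.ball (0 : ℂ) ρ) = Metric.ball (0 : ℂ) ρ := by
    ext z; simp only [Set.mem_preimage, mem_ball_zero_iff, LinearIsometryEquiv.norm_map]
  have h1 := hmp.setIntegral_preimage_emb (rotation c).toHomeomorph.measurableEmbedding
    (fun z : ℂ => z ^ m * conj z ^ n) (Metric.ball (0 : ℂ) ρ)
  rw [hpre] at h1
  have h2 : ∀ z : ℂ, (rotation c z) ^ m * conj (rotation c z) ^ n = (-1) * (z ^ m * conj z ^ n) := by
    intro z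
    have hcc : (c : ℂ) ^ m * (conj (c : ℂ)) ^ n = -1 := by
      rw [hc, Circle.coe_exp, ← Complex.exp_conj, ← Complex.exp_nat_mul, ← Complex.exp_nat_mul,
        ← Complex.exp_add, ← Complex.exp_pi_mul_I]
      congr 1
      simp only [map_mul, conj_ofReal, conj_I, ha]
      push_cast
      field_simp
      ring
    rw [rotation_apply, map_mul, mul_pow, mul_pow]
    calc (c : ℂ) ^ m * z ^ m * ((conj (c : ℂ)) ^ n * (conj z) ^ n)
        = ((c : ℂ) ^ m * (conj (c : ℂ)) ^ n) * (z ^ m * conj z ^ n) := by ring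
      _ = _ := by rw [hcc]
  simp only [h2] at h1
  rw [integral_const_mul] at h1
  linear_combination (-1/2 : ℂ) * h1

lemma integral_mono_eq (n : ℕ) {ρ : ℝ} (hρ : 0 ≤ ρ) :
    ∫ z in Metric.ball (0 : ℂ) ρ, z ^ n * conj z ^ n
      = ((Real.pi * ρ ^ (2 * n + 2) / (n + 1) : ℝ) : ℂ) := by
  have h0 : ∀ z : ℂ, z ^ n * conj z ^ n = ((‖z‖ ^ (2 * n) : ℝ) : ℂ) := by
    intro z
    rw [← mul_pow, Complex.mul_conj, Complex.normSq_eq_norm_sq, pow_mul]
    push_cast; ring
  simp only [h0]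
  rw [integral_complex_ofReal]
  congr 1
  rw [← integral_indicator measurableSet_ball]
  have h1 : ∀ z : ℂ, (Metric.ball (0 : ℂ) ρ).indicator (fun z : ℂ => ‖z‖ ^ (2 * n)) z
      = (fun y : ℝ => (Set.Iio ρ).indicator (fun y : ℝ => y ^ (2 * n)) y) ‖z‖ := by
    intro z
    by_cases hz : ‖z‖ < ρ
    · simp [Set.indicator, hz]
    · simp [Set.indicator, hz]
  simp only [h1]
  have := integral_fun_norm_addHaar (volume : Measure ℂ)
    (fun y : ℝ => (Set.Iio ρ).indicator (fun y : ℝ => y ^ (2 * n)) y)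
  rw [this]
  have hdim : Module.finrank ℝ ℂ = 2 := Complex.finrank_real_complex
  have hvol : (volume : Measure ℂ).real (Metric.ball 0 1) = Real.pi := by
    rw [Measure.real, Complex.volume_ball]; simp
  rw [hdim, hvol]
  have h2 : ∫ y in Set.Ioi (0 : ℝ), y ^ (2 - 1) • (Set.Iio ρ).indicator (fun y : ℝ => y ^ (2 * n)) y
      = ρ ^ (2 * n + 2) / (2 * n + 2) := by
    have h3 : ∀ y : ℝ, y ^ (2 - 1) • (Set.Iio ρ).indicator (fun y : ℝ => y ^ (2 * n)) y
        = (Set.Iio ρ).indicator (fun y : ℝ => y ^ (2 * n + 1)) y := by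
      intro y
      by_cases hy : y < ρ
      · simp [Set.indicator, hy]; ring
      · simp [Set.indicator, hy]
    simp only [h3]
    rw [integral_indicator measurableSet_Iio, Measure.restrict_restrict measurableSet_Iio,
      Set.Iio_inter_Ioi, ← integral_Ioc_eq_integral_Ioo, ← intervalIntegral.integral_of_le hρ,
      integral_pow]
    push_cast
    simp
    ring
  rw [h2]
  simp only [smul_eq_mul, nsmul_eq_mul]
  field_simp
  ring


/-- `f` is the sum of the power series with coefficients `a` on the unit disc. -/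
def IsPS (a : ℕ → ℂ) (f : ℂ → ℂ) : Prop :=
  ∀ z ∈ Metric.ball (0 : ℂ) 1, HasSum (fun n => a n * z ^ n) (f z)

lemma IsPS.summable_norm {a : ℕ → ℂ} {f : ℂ → ℂ} (h : IsPS a f) {ρ : ℝ} (h0 : 0 ≤ ρ)
    (h1 : ρ < 1) : Summable (fun n => ‖a n‖ * ρ ^ n) := by
  have hm : ((ρ : ℝ) : ℂ) ∈ Metric.ball (0 : ℂ) 1 := by
    simp [abs_of_nonneg h0, h1]
  have := (h _ hm).summable.norm
  refine this.congr fun n => ?_
  simp [abs_of_nonneg h0]

lemma isPS_tsum {a : ℕ → ℂ} (h : ∀ ρ : ℝ, 0 ≤ ρ → ρ < 1 → Summable (fun n => ‖a n‖ * ρ ^ n)) :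
    IsPS a (fun z => ∑' n, a n * z ^ n) := by
  intro z hz
  have hz' : ‖z‖ < 1 := by simpa using hz
  refine Summable.hasSum ?_
  refine Summable.of_norm ?_
  simpa [norm_mul, norm_pow] using h ‖z‖ (norm_nonneg z) hz'

lemma IsPS.differentiableOn {a : ℕ → ℂ} {f : ℂ → ℂ} (h : IsPS a f) :
    DifferentiableOn ℂ f (Metric.ball (0 : ℂ) 1) := by
  intro z hz
  have hz' : ‖z‖ < 1 := by simpa using hz
  obtain ⟨ρ, hρ1, hρ2⟩ := exists_between hz'
  have hρ0 : 0 ≤ ρ := (norm_nonneg z).trans hρ1.le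
  have hd : DifferentiableOn ℂ (fun w => ∑' n, a n * w ^ n) (Metric.ball (0 : ℂ) ρ) := by
    refine Complex.differentiableOn_tsum_of_summable_norm (h.summable_norm hρ0 hρ2)
      (fun n => by fun_prop) Metric.isOpen_ball ?_
    intro n w hw
    have hw' : ‖w‖ < ρ := by simpa using hw
    rw [norm_mul, norm_pow]
    gcongr
  have hz2 : z ∈ Metric.ball (0 : ℂ) ρ := by simpa using hρ1
  have hd2 := (hd z hz2).differentiableAt (Metric.isOpen_ball.mem_nhds hz2)
  refine (hd2.congr_of_eventuallyEq ?_).differentiableWithinAt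
  filter_upwards [Metric.isOpen_ball.mem_nhds hz] with w hw
  exact (h w hw).tsum_eq.symm

lemma exists_isPS {f : ℂ → ℂ} (hf : DifferentiableOn ℂ f (Metric.ball (0 : ℂ) 1)) :
    ∃ a : ℕ → ℂ, IsPS a f := by
  refine ⟨fun n => ((n.factorial : ℂ))⁻¹ * iteratedDeriv n f 0, ?_⟩
  intro z hz
  have := Complex.hasSum_taylorSeries_on_ball hf hz
  have h2 : (fun n : ℕ => ((n.factorial : ℂ))⁻¹ • (z - 0) ^ n • iteratedDeriv n f 0)
      = fun n : ℕ => ((n.factorial : ℂ))⁻¹ * iteratedDeriv n f 0 * z ^ n := by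
    funext n
    simp only [smul_eq_mul, sub_zero]
    ring
  rw [h2] at this
  exact this

lemma IsPS.aesm {a : ℕ → ℂ} {f : ℂ → ℂ} (h : IsPS a f) :
    AEStronglyMeasurable f (volume.restrict (Metric.ball (0 : ℂ) 1)) :=
  h.differentiableOn.continuousOn.aestronglyMeasurable measurableSet_ball

lemma ball_sub {ρ : ℝ} (h1 : ρ < 1) : Metric.ball (0 : ℂ) ρ ⊆ Metric.ball (0 : ℂ) 1 :=
  Metric.ball_subset_ball h1.le

lemma IsPS.aesm' {a : ℕ → ℂ} {f : ℂ → ℂ} (h : IsPS a f) {ρ : ℝ} (h1 : ρ < 1) :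
    AEStronglyMeasurable f (volume.restrict (Metric.ball (0 : ℂ) ρ)) :=
  (h.differentiableOn.continuousOn.mono (ball_sub h1)).aestronglyMeasurable measurableSet_ball

lemma IsPS.norm_le {a : ℕ → ℂ} {f : ℂ → ℂ} (h : IsPS a f) {ρ : ℝ} (h0 : 0 ≤ ρ)
    (h1 : ρ < 1) {z : ℂ} (hz : z ∈ Metric.ball (0 : ℂ) ρ) : ‖f z‖ ≤ ∑' n, ‖a n‖ * ρ ^ n := by
  have hz' : ‖z‖ < ρ := by simpa using hz
  rw [← (h z (ball_sub h1 hz)).tsum_eq]
  refine tsum_of_norm_bounded (h.summable_norm h0 h1).hasSum ?_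
  intro n
  rw [norm_mul, norm_pow]
  gcongr

instance finBall (ρ : ℝ) : IsFiniteMeasure (volume.restrict (Metric.ball (0 : ℂ) ρ)) :=
  ⟨by rw [Measure.restrict_apply_univ]; exact measure_ball_lt_top⟩

lemma IsPS.pair_mono {b : ℕ → ℂ} {g : ℂ → ℂ} (h : IsPS b g) {ρ : ℝ} (h0 : 0 ≤ ρ)
    (h1 : ρ < 1) (n : ℕ) :
    ∫ z in Metric.ball (0 : ℂ) ρ, z ^ n * conj (g z)
      = conj (b n) * ((Real.pi * ρ ^ (2 * n + 2) / (n + 1) : ℝ) : ℂ) := by
  have key : HasSum (fun m => ∫ z in Metric.ball (0 : ℂ) ρ, z ^ n * conj (b m * z ^ m))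
      (∫ z in Metric.ball (0 : ℂ) ρ, z ^ n * conj (g z)) := by
    refine hasSum_integral_of_dominated_convergence (fun m _ => ‖b m‖ * ρ ^ m) ?_ ?_ ?_ ?_ ?_
    · intro m
      exact Continuous.aestronglyMeasurable (by fun_prop)
    · intro m
      filter_upwards [ae_restrict_mem measurableSet_ball] with z hz
      have hz' : ‖z‖ < ρ := by simpa using hz
      have hz1 : ‖z‖ ≤ 1 := (hz'.trans h1).le
      rw [norm_mul, norm_pow, RCLike.norm_conj, norm_mul, norm_pow]
      calc ‖z‖ ^ n * (‖b m‖ * ‖z‖ ^ m) ≤ 1 * (‖b m‖ * ρ ^ m) := by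
            gcongr
            exact pow_le_one₀ (norm_nonneg z) hz1
        _ = _ := one_mul _
    · exact ae_of_all _ fun _ => h.summable_norm h0 h1
    · exact integrable_const _
    · filter_upwards [ae_restrict_mem measurableSet_ball] with z hz
      have := (h z (ball_sub h1 hz))
      exact (Complex.hasSum_conj'.2 this).mul_left (z ^ n)
  have h2 : ∀ m, m ≠ n → ∫ z in Metric.ball (0 : ℂ) ρ, z ^ n * conj (b m * z ^ m) = 0 := by
    intro m hm
    have : ∀ z : ℂ, z ^ n * conj (b m * z ^ m) = conj (b m) * (z ^ n * conj z ^ m) := by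
      intro z; simp only [map_mul, map_pow]; ring
    simp only [this]
    rw [integral_const_mul, integral_mono_ne hm.symm, mul_zero]
  have h3 := (hasSum_single n h2).unique key
  rw [← h3]
  have : ∀ z : ℂ, z ^ n * conj (b n * z ^ n) = conj (b n) * (z ^ n * conj z ^ n) := by
    intro z; simp only [map_mul, map_pow]; ring
  simp only [this]
  rw [integral_const_mul, integral_mono_eq n h0]

lemma IsPS.unique {a b : ℕ → ℂ} {f : ℂ → ℂ} (ha : IsPS a f) (hb : IsPS b f) : a = b := by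
  funext n
  have h1 := ha.pair_mono (ρ := 1/2) (by norm_num) (by norm_num) n
  have h2 := hb.pair_mono (ρ := 1/2) (by norm_num) (by norm_num) n
  rw [h1] at h2
  have hne : ((Real.pi * (1/2 : ℝ) ^ (2 * n + 2) / (n + 1) : ℝ) : ℂ) ≠ 0 := by
    have : (0 : ℝ) < Real.pi * (1/2 : ℝ) ^ (2 * n + 2) / (n + 1) := by
      have := Real.pi_pos
      positivity
    exact_mod_cast this.ne'
  have h3 := mul_right_cancel₀ hne h2
  exact (starRingEnd ℂ).injective h3

lemma IsPS.pair {a b : ℕ → ℂ} {f g : ℂ → ℂ} (ha : IsPS a f) (hb : IsPS b g) {ρ : ℝ}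
    (h0 : 0 ≤ ρ) (h1 : ρ < 1) :
    HasSum (fun n => a n * conj (b n) * ((Real.pi * ρ ^ (2 * n + 2) / (n + 1) : ℝ) : ℂ))
      (∫ z in Metric.ball (0 : ℂ) ρ, f z * conj (g z)) := by
  set C : ℝ := ∑' n, ‖b n‖ * ρ ^ n with hC
  have key : HasSum (fun m => ∫ z in Metric.ball (0 : ℂ) ρ, (a m * z ^ m) * conj (g z))
      (∫ z in Metric.ball (0 : ℂ) ρ, f z * conj (g z)) := by
    refine hasSum_integral_of_dominated_convergence (fun m _ => (‖a m‖ * ρ ^ m) * C) ?_ ?_ ?_ ?_ ?_
    · intro m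
      exact (Continuous.aestronglyMeasurable (by fun_prop)).mul
        (continuous_conj.comp_aestronglyMeasurable (hb.aesm' h1))
    · intro m
      filter_upwards [ae_restrict_mem measurableSet_ball] with z hz
      have hz' : ‖z‖ < ρ := by simpa using hz
      have := hb.norm_le h0 h1 hz
      rw [norm_mul, RCLike.norm_conj, norm_mul, norm_pow]
      gcongr
    · exact ae_of_all _ fun _ => (ha.summable_norm h0 h1).mul_right C
    · exact integrable_const _
    · filter_upwards [ae_restrict_mem measurableSet_ball] with z hz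
      exact (ha z (ball_sub h1 hz)).mul_right _
  have h2 : (fun m => ∫ z in Metric.ball (0 : ℂ) ρ, (a m * z ^ m) * conj (g z))
      = fun n => a n * conj (b n) * ((Real.pi * ρ ^ (2 * n + 2) / (n + 1) : ℝ) : ℂ) := by
    funext m
    have : ∀ z : ℂ, (a m * z ^ m) * conj (g z) = a m * (z ^ m * conj (g z)) := by
      intro z; ring
    simp only [this]
    rw [integral_const_mul, hb.pair_mono h0 h1]
    ring
  rw [h2] at key
  exact key

/-- exhausting radii -/
noncomputable def rad (k : ℕ) : ℝ := 1 - 1 / ((k : ℝ) + 1)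

lemma rad_nonneg (k : ℕ) : 0 ≤ rad k := by
  unfold rad
  have : (1 : ℝ) / ((k : ℝ) + 1) ≤ 1 := by
    rw [div_le_one (by positivity)]; linarith [(Nat.cast_nonneg k : (0 : ℝ) ≤ k)]
  linarith

lemma rad_lt (k : ℕ) : rad k < 1 := by
  unfold rad
  have : (0 : ℝ) < 1 / ((k : ℝ) + 1) := by positivity
  linarith

lemma rad_tendsto : Tendsto rad atTop (𝓝 1) := by
  unfold rad
  simpa using (tendsto_const_nhds (x := (1 : ℝ))).sub
    (tendsto_one_div_add_atTop_nhds_zero_nat (𝕜 := ℝ))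

lemma cover : AECover (volume.restrict (Metric.ball (0 : ℂ) 1)) atTop
    (fun k => Metric.ball (0 : ℂ) (rad k)) where
  measurableSet _ := measurableSet_ball
  ae_eventually_mem := by
    filter_upwards [ae_restrict_mem measurableSet_ball] with z hz
    have hz' : ‖z‖ < 1 := by simpa using hz
    filter_upwards [rad_tendsto.eventually (lt_mem_nhds hz')] with k hk
    simpa using hk

lemma restrict_rad (k : ℕ) : (volume.restrict (Metric.ball (0 : ℂ) 1)).restrict
    (Metric.ball (0 : ℂ) (rad k)) = volume.restrict (Metric.ball (0 : ℂ) (rad k)) := by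
  rw [Measure.restrict_restrict measurableSet_ball,
    Set.inter_eq_left.2 (ball_sub (rad_lt k))]

lemma IsPS.integrableOn_rad {a : ℕ → ℂ} {f : ℂ → ℂ} (ha : IsPS a f) (k : ℕ) :
    IntegrableOn (fun z => ‖f z‖ ^ 2) (Metric.ball (0 : ℂ) (rad k)) := by
  refine Integrable.of_bound ((ha.aesm' (rad_lt k)).norm.pow 2)
    ((∑' n, ‖a n‖ * rad k ^ n) ^ 2) ?_
  filter_upwards [ae_restrict_mem measurableSet_ball] with z hz
  rw [Real.norm_of_nonneg (by positivity)]
  gcongr
  exact ha.norm_le (rad_nonneg k) (rad_lt k) hz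

lemma mul_conj_self (w : ℂ) : w * conj w = ((‖w‖ ^ 2 : ℝ) : ℂ) := by
  rw [Complex.mul_conj, Complex.normSq_eq_norm_sq]

lemma IsPS.sq_rad {a : ℕ → ℂ} {f : ℂ → ℂ} (ha : IsPS a f) (k : ℕ) :
    HasSum (fun n => ‖a n‖ ^ 2 * (Real.pi * rad k ^ (2 * n + 2) / (n + 1)))
      (∫ z in Metric.ball (0 : ℂ) (rad k), ‖f z‖ ^ 2) := by
  have h := ha.pair ha (rad_nonneg k) (rad_lt k)
  simp only [mul_conj_self] at h
  rw [integral_complex_ofReal] at h
  have h2 : (fun n => ((‖a n‖ ^ 2 : ℝ) : ℂ) * ((Real.pi * rad k ^ (2 * n + 2) / (n + 1) : ℝ) : ℂ))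
      = fun n => ((‖a n‖ ^ 2 * (Real.pi * rad k ^ (2 * n + 2) / (n + 1)) : ℝ) : ℂ) := by
    funext n; push_cast; ring
  rw [h2] at h
  exact_mod_cast h

/-- finite Bergman norm implies summability of the weighted coefficients -/
lemma IsPS.summable_of_integrable {a : ℕ → ℂ} {f : ℂ → ℂ} (ha : IsPS a f)
    (hf : IntegrableOn (fun z => ‖f z‖ ^ 2) (Metric.ball (0 : ℂ) 1)) :
    Summable (fun n => ‖a n‖ ^ 2 / (n + 1)) := by
  have hb : ∀ u : Finset ℕ, ∑ n ∈ u, ‖a n‖ ^ 2 * (Real.pi / (n + 1))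
      ≤ ∫ z in Metric.ball (0 : ℂ) 1, ‖f z‖ ^ 2 := by
    intro u
    have hlim : Tendsto (fun k => ∑ n ∈ u, ‖a n‖ ^ 2 * (Real.pi * rad k ^ (2 * n + 2) / (n + 1)))
        atTop (𝓝 (∑ n ∈ u, ‖a n‖ ^ 2 * (Real.pi * 1 ^ (2 * n + 2) / (n + 1)))) := by
      refine tendsto_finsetSum _ fun n _ => ?_
      exact (((rad_tendsto.pow _).const_mul _).div_const _).const_mul _
    have hle : ∀ k, ∑ n ∈ u, ‖a n‖ ^ 2 * (Real.pi * rad k ^ (2 * n + 2) / (n + 1))
        ≤ ∫ z in Metric.ball (0 : ℂ) 1, ‖f z‖ ^ 2 := by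
      intro k
      have h1 := (ha.sq_rad k)
      refine (sum_le_hasSum u (fun n _ => ?_) h1).trans ?_
      · have := Real.pi_pos
        have := rad_nonneg k
        positivity
      · exact setIntegral_mono_set hf (ae_of_all _ fun _ => by positivity)
          (ball_sub (rad_lt k)).eventuallyLE
    have := le_of_tendsto' hlim hle
    simpa using this
  have hs : Summable (fun n => ‖a n‖ ^ 2 * (Real.pi / (n + 1))) :=
    summable_of_sum_le (fun n => by have := Real.pi_pos; positivity) hb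
  refine (hs.mul_left (Real.pi⁻¹)).congr fun n => ?_
  have := Real.pi_pos
  field_simp

lemma IsPS.integrable_of_summable {a : ℕ → ℂ} {f : ℂ → ℂ} (ha : IsPS a f)
    (hs : Summable (fun n => ‖a n‖ ^ 2 / (n + 1))) :
    IntegrableOn (fun z => ‖f z‖ ^ 2) (Metric.ball (0 : ℂ) 1) := by
  refine cover.integrable_of_integral_bounded_of_nonneg_ae
    (Real.pi * ∑' n, ‖a n‖ ^ 2 / ((n : ℝ) + 1)) (fun k => ?_)
    (ae_of_all _ fun _ => by positivity) (Eventually.of_forall fun k => ?_)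
  · rw [IntegrableOn, restrict_rad]
    exact ha.integrableOn_rad k
  · rw [restrict_rad, ← (ha.sq_rad k).tsum_eq, ← tsum_mul_left]
    refine (ha.sq_rad k).summable.tsum_le_tsum (fun n => ?_) (hs.mul_left _)
    have := Real.pi_pos
    have h1 : rad k ^ (2 * n + 2) ≤ 1 := pow_le_one₀ (rad_nonneg k) (rad_lt k).le
    calc ‖a n‖ ^ 2 * (Real.pi * rad k ^ (2 * n + 2) / (n + 1))
        ≤ ‖a n‖ ^ 2 * (Real.pi * 1 / (n + 1)) := by gcongr
      _ = Real.pi * (‖a n‖ ^ 2 / (n + 1)) := by ring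

lemma memLp_of {f : ℂ → ℂ} (hm : AEStronglyMeasurable f (volume.restrict (Metric.ball (0 : ℂ) 1)))
    (hf : IntegrableOn (fun z => ‖f z‖ ^ 2) (Metric.ball (0 : ℂ) 1)) :
    MemLp f 2 (volume.restrict (Metric.ball (0 : ℂ) 1)) :=
  (memLp_two_iff_integrable_sq_norm hm).2 hf

lemma summable_mul {a b : ℕ → ℂ} (ha : Summable (fun n => ‖a n‖ ^ 2 / ((n : ℝ) + 1)))
    (hb : Summable (fun n => ‖b n‖ ^ 2 / ((n : ℝ) + 1))) :
    Summable (fun n => ‖a n‖ * ‖b n‖ / ((n : ℝ) + 1)) := by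
  refine Summable.of_nonneg_of_le (fun n => by positivity) (fun n => ?_) (ha.add hb)
  rw [← add_div]
  gcongr
  nlinarith [sq_nonneg (‖a n‖ - ‖b n‖), sq_nonneg (‖a n‖), sq_nonneg (‖b n‖)]

/-- Parseval identity for the Bergman space -/
lemma IsPS.parseval {a b : ℕ → ℂ} {f g : ℂ → ℂ} (ha : IsPS a f) (hb : IsPS b g)
    (hf : MemLp f 2 (volume.restrict (Metric.ball (0 : ℂ) 1)))
    (hg : MemLp g 2 (volume.restrict (Metric.ball (0 : ℂ) 1))) :
    HasSum (fun n => a n * conj (b n) * ((Real.pi / (n + 1) : ℝ) : ℂ))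
      (∫ z in Metric.ball (0 : ℂ) 1, f z * conj (g z)) := by
  have hsa := ha.summable_of_integrable ((memLp_two_iff_integrable_sq_norm ha.aesm).1 hf)
  have hsb := hb.summable_of_integrable ((memLp_two_iff_integrable_sq_norm hb.aesm).1 hg)
  have hbd := (summable_mul hsa hsb).mul_left Real.pi
  have hpi := Real.pi_pos
  have hsum : Summable (fun n => a n * conj (b n) * ((Real.pi / (n + 1) : ℝ) : ℂ)) := by
    refine Summable.of_norm_bounded hbd fun n => ?_
    rw [norm_mul, norm_mul, RCLike.norm_conj, Complex.norm_real, Real.norm_of_nonneg (by positivity)]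
    apply le_of_eq
    ring
  have hint : Integrable (fun z => f z * conj (g z)) (volume.restrict (Metric.ball (0 : ℂ) 1)) :=
    hf.integrable_mul hg.star
  have h1 := cover.integral_tendsto_of_countably_generated hint
  have h2 : Tendsto (fun k => ∑' n, a n * conj (b n) *
      ((Real.pi * rad k ^ (2 * n + 2) / (n + 1) : ℝ) : ℂ)) atTop
      (𝓝 (∑' n, a n * conj (b n) * ((Real.pi / (n + 1) : ℝ) : ℂ))) := by
    refine tendsto_tsum_of_dominated_convergence hbd (fun n => ?_)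
      (Eventually.of_forall fun k n => ?_)
    · refine Tendsto.const_mul _ ?_
      have : Tendsto (fun k => (Real.pi * rad k ^ (2 * n + 2) / (n + 1) : ℝ)) atTop
          (𝓝 (Real.pi * 1 ^ (2 * n + 2) / (n + 1))) :=
        ((rad_tendsto.pow _).const_mul _).div_const _
      have h3 := (Complex.continuous_ofReal.tendsto _).comp this
      simpa [Function.comp_def] using h3
    · have h0 := rad_nonneg k
      rw [norm_mul, norm_mul, RCLike.norm_conj, Complex.norm_real,
        Real.norm_of_nonneg (by positivity)]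
      have h1 : rad k ^ (2 * n + 2) ≤ 1 := pow_le_one₀ (rad_nonneg k) (rad_lt k).le
      calc ‖a n‖ * ‖b n‖ * (Real.pi * rad k ^ (2 * n + 2) / (n + 1))
          ≤ ‖a n‖ * ‖b n‖ * (Real.pi * 1 / (n + 1)) := by gcongr
        _ = Real.pi * (‖a n‖ * ‖b n‖ / (n + 1)) := by ring
  have h3 : (fun k => ∫ z in Metric.ball (0 : ℂ) (rad k), f z * conj (g z)
      ∂(volume.restrict (Metric.ball (0 : ℂ) 1)))
      = fun k => ∑' n, a n * conj (b n) *
      ((Real.pi * rad k ^ (2 * n + 2) / (n + 1) : ℝ) : ℂ) := by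
    funext k
    rw [restrict_rad, (ha.pair hb (rad_nonneg k) (rad_lt k)).tsum_eq]
  rw [h3] at h1
  have h4 := tendsto_nhds_unique h1 h2
  rw [h4]
  exact hsum.hasSum

lemma IsPS.parseval_norm {a : ℕ → ℂ} {f : ℂ → ℂ} (ha : IsPS a f)
    (hf : MemLp f 2 (volume.restrict (Metric.ball (0 : ℂ) 1))) :
    HasSum (fun n => ‖a n‖ ^ 2 * (Real.pi / (n + 1)))
      (∫ z in Metric.ball (0 : ℂ) 1, ‖f z‖ ^ 2) := by
  have h := ha.parseval ha hf hf
  simp only [mul_conj_self] at h
  rw [integral_complex_ofReal] at h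
  have h2 : (fun n : ℕ => ((‖a n‖ ^ 2 : ℝ) : ℂ) * ((Real.pi / (n + 1) : ℝ) : ℂ))
      = fun n : ℕ => ((‖a n‖ ^ 2 * (Real.pi / (n + 1)) : ℝ) : ℂ) := by
    funext n; push_cast; ring
  rw [h2] at h
  exact_mod_cast h

end Pool.Agent.S03025Aux.Bergman

namespace Pool.Agent.S03025Aux.KeyA
open MeasureTheory Filter Topology Complex ComplexConjugate
open Pool.Agent.S03025Aux.Bergman

/-- area measure on the disc -/
noncomputable abbrev μD : Measure ℂ := volume.restrict (Metric.ball (0 : ℂ) 1)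

lemma shift {g : ℕ → ℂ} {G : ℂ → ℂ} (h : IsPS g G) (c : ℕ) :
    IsPS (fun n => if c ≤ n then g (n - c) else 0) (fun z => z ^ c * G z) := by
  intro z hz
  rw [← (add_left_injective c).hasSum_iff (f := fun n => (if c ≤ n then g (n - c) else 0) * z ^ n)]
  · have := (h z hz).mul_left (z ^ c)
    refine this.congr_fun fun n => ?_
    simp only [Function.comp_apply, le_add_iff_nonneg_left, zero_le, if_true,
      Nat.add_sub_cancel, pow_add]
    ring
  · intro n hn
    have : ¬ c ≤ n := by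
      intro hcn
      exact hn ⟨n - c, by simp [Nat.sub_add_cancel hcn]⟩
    simp [this]

/-- coefficients of the derivative of `F z ^ c` -/
lemma shiftDeriv {a φ : ℕ → ℂ} {f F : ℂ → ℂ} (hf : IsPS a f) (hF : IsPS φ F)
    (haφ : ∀ m, a m = ((m : ℂ) + 1) * φ (m + 1)) (c : ℕ) :
    IsPS (fun n => ((n : ℂ) + 1) * (if c ≤ n + 1 then φ (n + 1 - c) else 0))
      (fun z => f z * z ^ c + F z * (c * z ^ (c - 1))) := by
  intro z hz
  have h1 := (shift hf c) z hz
  have h2 := ((shift hF (c - 1)) z hz).mul_left (c : ℂ)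
  have h3 := h1.add h2
  have h4 : z ^ c * f z + c * (z ^ (c - 1) * F z) = f z * z ^ c + F z * (c * z ^ (c - 1)) := by
    ring
  rw [h4] at h3
  refine h3.congr_fun fun n => ?_
  rcases Nat.eq_zero_or_pos c with hc | hc
  · subst hc
    simp [haφ n]
  · rcases lt_or_ge (n + 1) c with h | h
    · have e1 : ¬ c ≤ n + 1 := by omega
      have e2 : ¬ c ≤ n := by omega
      have e3 : ¬ c - 1 ≤ n := by omega
      simp [e1, e2, e3]
    · rcases Nat.lt_or_ge n c with h' | h'
      · have e0 : c = n + 1 := by omega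
        subst e0
        have e2 : ¬ n + 1 ≤ n := by omega
        simp
        ring
      · have e1 : c - 1 ≤ n := by omega
        have e2 : n - (c - 1) = n - c + 1 := by omega
        have e3 : n + 1 - c = n - c + 1 := by omega
        simp only [h, h', e1, e2, e3, if_true]
        rw [haφ (n - c)]
        have e4 : ((n - c : ℕ) : ℂ) = (n : ℂ) - c := by push_cast [h']; ring
        rw [e4]
        ring

lemma memLp_poly_mul {G : ℂ → ℂ} (hG : MemLp G 2 μD) (P : Polynomial ℂ) :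
    MemLp (fun z => P.eval z * G z) 2 μD := by
  obtain ⟨C, hC⟩ := (isCompact_closedBall (0 : ℂ) 1).exists_bound_of_continuousOn
    (f := fun z => P.eval z) P.continuous.continuousOn
  refine hG.of_le_mul (c := C) ?_ ?_
  · exact P.continuous.aestronglyMeasurable.mul hG.1
  · filter_upwards [ae_restrict_mem measurableSet_ball] with z hz
    rw [norm_mul]
    gcongr
    exact hC z (Metric.ball_subset_closedBall hz)

lemma memLp_pow_mul {G : ℂ → ℂ} (hG : MemLp G 2 μD) (n : ℕ) :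
    MemLp (fun z => z ^ n * G z) 2 μD := by
  simpa using memLp_poly_mul hG (Polynomial.X ^ n)

lemma K1mono {g a φ : ℕ → ℂ} {G f F : ℂ → ℂ} (hG : IsPS g G) (hf : IsPS a f) (hF : IsPS φ F)
    (haφ : ∀ m, a m = ((m : ℂ) + 1) * φ (m + 1))
    (mG : MemLp G 2 μD) (mf : MemLp f 2 μD) (mF : MemLp F 2 μD)
    (hA : ∀ k, ∑' m, g m * conj (φ (m + k)) = 0)
    (hB : ∀ k, ∑' m, g (m + k) * conj (φ m) = 0) (b c : ℕ) :
    ∫ z, (z ^ b * G z) * conj (f z * z ^ c + F z * (c * z ^ (c - 1))) ∂μD = 0 := by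
  have m2 : MemLp (fun z => f z * z ^ c + F z * (c * z ^ (c - 1))) 2 μD := by
    have h1 := memLp_pow_mul mf c
    have h2 := (memLp_pow_mul mF (c - 1)).const_mul (c : ℂ)
    refine (h1.add h2).ae_eq (ae_of_all _ fun z => ?_)
    simp only [Pi.add_apply]
    ring
  have hP := (shift hG b).parseval (shiftDeriv hf hF haφ c) (memLp_pow_mul mG b) m2
  set s : ℕ → ℂ := fun n => (if b ≤ n then g (n - b) else 0) *
      conj (((n : ℂ) + 1) * (if c ≤ n + 1 then φ (n + 1 - c) else 0)) *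
      ((Real.pi / (n + 1) : ℝ) : ℂ) with hs
  have hpi : (Real.pi : ℂ) ≠ 0 := by exact_mod_cast Real.pi_ne_zero
  have hs' : ∀ n, s n = Real.pi * ((if b ≤ n then g (n - b) else 0) *
      conj (if c ≤ n + 1 then φ (n + 1 - c) else 0)) := by
    intro n
    have hn : ((n : ℂ) + 1) ≠ 0 := by exact_mod_cast Nat.succ_ne_zero n
    simp only [hs, map_mul, map_add, map_one, conj_natCast]
    push_cast
    field_simp
  rcases le_or_gt c (b + 1) with h | h
  · -- nonnegative shift
    obtain ⟨k, hk⟩ : ∃ k, b + 1 = c + k := ⟨b + 1 - c, by omega⟩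
    have h1 : HasSum (s ∘ (fun m => m + b)) (∫ z, (z ^ b * G z) *
        conj (f z * z ^ c + F z * (c * z ^ (c - 1))) ∂μD) := by
      rw [(add_left_injective b).hasSum_iff]
      · exact hP
      · intro n hn
        have : ¬ b ≤ n := by
          intro hcn
          exact hn ⟨n - b, by simp [Nat.sub_add_cancel hcn]⟩
        simp [hs', this]
    have h2 : (s ∘ (fun m => m + b)) = fun m => Real.pi * (g m * conj (φ (m + k))) := by
      funext m
      simp only [Function.comp_apply, hs']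
      have e1 : b ≤ m + b := by omega
      have e2 : c ≤ m + b + 1 := by omega
      have e3 : m + b - b = m := by omega
      have e4 : m + b + 1 - c = m + k := by omega
      simp only [e1, e2, e3, e4, if_true]
    rw [h2] at h1
    rw [← h1.tsum_eq, tsum_mul_left, hA k, mul_zero]
  · obtain ⟨k, hk⟩ : ∃ k, c = b + 1 + k := ⟨c - (b + 1), by omega⟩
    have h1 : HasSum (s ∘ (fun m => m + (b + k))) (∫ z, (z ^ b * G z) *
        conj (f z * z ^ c + F z * (c * z ^ (c - 1))) ∂μD) := by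
      rw [(add_left_injective (b + k)).hasSum_iff]
      · exact hP
      · intro n hn
        have : ¬ c ≤ n + 1 := by
          intro hcn
          exact hn ⟨n - (b + k), by simp; omega⟩
        simp [hs', this]
    have h2 : (s ∘ (fun m => m + (b + k))) = fun m => Real.pi * (g (m + k) * conj (φ m)) := by
      funext m
      simp only [Function.comp_apply, hs']
      have e1 : b ≤ m + (b + k) := by omega
      have e2 : c ≤ m + (b + k) + 1 := by omega
      have e3 : m + (b + k) - b = m + k := by omega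
      have e4 : m + (b + k) + 1 - c = m := by omega
      simp only [e1, e2, e3, e4, if_true]
    rw [h2] at h1
    rw [← h1.tsum_eq, tsum_mul_left, hB k, mul_zero]

/-- bundle of hypotheses for the key claim -/
structure Data (g a φ : ℕ → ℂ) (G f F : ℂ → ℂ) : Prop where
  hG : IsPS g G
  hf : IsPS a f
  hF : IsPS φ F
  haφ : ∀ m, a m = ((m : ℂ) + 1) * φ (m + 1)
  mG : MemLp G 2 μD
  mf : MemLp f 2 μD
  mF : MemLp F 2 μD
  hA : ∀ k, ∑' m, g m * conj (φ (m + k)) = 0
  hB : ∀ k, ∑' m, g (m + k) * conj (φ m) = 0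

variable {g a φ : ℕ → ℂ} {G f F : ℂ → ℂ}

lemma memLp_deriv (d : Data g a φ G f F) (Q : Polynomial ℂ) :
    MemLp (fun z => f z * Q.eval z + F z * (Polynomial.derivative Q).eval z) 2 μD := by
  refine ((memLp_poly_mul d.mf Q).add (memLp_poly_mul d.mF (Polynomial.derivative Q))).ae_eq
    (ae_of_all _ fun z => ?_)
  simp only [Pi.add_apply]
  ring

lemma K1int (d : Data g a φ G f F) (P Q : Polynomial ℂ) :
    Integrable (fun z => (P.eval z * G z) *
      conj (f z * Q.eval z + F z * (Polynomial.derivative Q).eval z)) μD :=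
  (memLp_poly_mul d.mG P).integrable_mul (memLp_deriv d Q).star

lemma K1 (d : Data g a φ G f F) (P Q : Polynomial ℂ) :
    ∫ z, (P.eval z * G z) * conj (f z * Q.eval z + F z * (Polynomial.derivative Q).eval z) ∂μD
      = 0 := by
  induction P using Polynomial.induction_on' with
  | add p q hp hq =>
    have : ∀ z, ((p + q).eval z * G z) *
        conj (f z * Q.eval z + F z * (Polynomial.derivative Q).eval z)
        = (p.eval z * G z) * conj (f z * Q.eval z + F z * (Polynomial.derivative Q).eval z)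
        + (q.eval z * G z) * conj (f z * Q.eval z + F z * (Polynomial.derivative Q).eval z) := by
      intro z; rw [Polynomial.eval_add]; ring
    simp only [this]
    rw [integral_add (K1int d p Q) (K1int d q Q), hp, hq, add_zero]
  | monomial n α =>
    induction Q using Polynomial.induction_on' with
    | add p q hp hq =>
      have : ∀ z, ((Polynomial.monomial n α).eval z * G z) *
          conj (f z * (p + q).eval z + F z * (Polynomial.derivative (p + q)).eval z)
          = ((Polynomial.monomial n α).eval z * G z) *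
            conj (f z * p.eval z + F z * (Polynomial.derivative p).eval z)
          + ((Polynomial.monomial n α).eval z * G z) *
            conj (f z * q.eval z + F z * (Polynomial.derivative q).eval z) := by
        intro z
        simp only [Polynomial.eval_add, map_add, map_mul]; ring
      simp only [this]
      rw [integral_add (K1int d _ p) (K1int d _ q), hp, hq, add_zero]
    | monomial m β =>
      have h := K1mono d.hG d.hf d.hF d.haφ d.mG d.mf d.mF d.hA d.hB n m
      have : ∀ z, ((Polynomial.monomial n α).eval z * G z) *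
          conj (f z * (Polynomial.monomial m β).eval z +
            F z * (Polynomial.derivative (Polynomial.monomial m β)).eval z)
          = (α * conj β) * ((z ^ n * G z) *
            conj (f z * z ^ m + F z * (m * z ^ (m - 1)))) := by
        intro z
        simp only [Polynomial.eval_monomial, Polynomial.derivative_monomial, map_add, map_mul]
        ring
      simp only [this]
      rw [integral_const_mul, h, mul_zero]

end Pool.Agent.S03025Aux.KeyA

namespace Pool.Agent.S03025Aux.KeyB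
open MeasureTheory Filter Topology Complex ComplexConjugate
open Pool.Agent.S03025Aux.Bergman Pool.Agent.S03025Aux.KeyA

/-- `1 - (1+x) exp (-x)` with `x = s ‖w‖^2` -/
noncomputable def rr (s : ℝ) (w : ℂ) : ℝ :=
  1 - (1 + s * ‖w‖ ^ 2) * Real.exp (-(s * ‖w‖ ^ 2))

noncomputable def kap (s : ℝ) (w : ℂ) : ℂ :=
  w / conj w * ((1 - Real.exp (-(s * ‖w‖ ^ 2)) : ℝ) : ℂ)

noncomputable def lam (s : ℝ) (w : ℂ) : ℂ :=
  -(w / conj w ^ 2 * ((rr s w : ℝ) : ℂ))

lemma hasSum_kap (s : ℝ) (w : ℂ) :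
    HasSum (fun j : ℕ => (-(-(s : ℂ)) ^ (j + 1) / ((j + 1).factorial : ℂ)) *
      (w ^ (j + 2) * conj w ^ j)) (kap s w) := by
  rcases eq_or_ne w 0 with h | h
  · subst h
    simp [kap, hasSum_zero]
  · have hc : conj w ≠ 0 := by simpa using h
    have h1 := NormedSpace.expSeries_div_hasSum_exp (𝔸 := ℂ) (-(s * (w * conj w)))
    rw [← Complex.exp_eq_exp_ℂ] at h1
    have h2 := (hasSum_nat_add_iff' 1).2 h1
    simp only [Finset.range_one, Finset.sum_singleton, pow_zero, Nat.factorial_zero, Nat.cast_one,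
      div_one] at h2
    have h3 := h2.mul_left (-(w / conj w))
    have h4 : -(w / conj w) * (Complex.exp (-(s * (w * conj w))) - 1) = kap s w := by
      unfold kap
      rw [mul_conj_self]
      push_cast
      ring
    rw [h4] at h3
    refine h3.congr_fun fun j => ?_
    have h5 : (-(s * (w * conj w))) ^ (j + 1) = (-(s : ℂ)) ^ (j + 1) * w ^ (j + 1) * conj w ^ (j + 1) := by
      rw [← mul_pow, ← mul_pow]; congr 1; ring
    rw [h5]
    field_simp
    ring

lemma hasSum_lam (s : ℝ) (w : ℂ) :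
    HasSum (fun j : ℕ => (-(-(s : ℂ)) ^ (j + 1) / ((j + 1).factorial : ℂ)) *
      (w ^ (j + 2) * (j * conj w ^ (j - 1)))) (lam s w) := by
  rcases eq_or_ne w 0 with h | h
  · subst h
    simp [lam, hasSum_zero]
  · have hc : conj w ≠ 0 := by simpa using h
    set x : ℂ := -(s * (w * conj w)) with hx
    have h1 := NormedSpace.expSeries_div_hasSum_exp (𝔸 := ℂ) x
    rw [← Complex.exp_eq_exp_ℂ] at h1
    have h2 := (hasSum_nat_add_iff' 1).2 h1
    simp only [Finset.range_one, Finset.sum_singleton, pow_zero, Nat.factorial_zero, Nat.cast_one,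
      div_one] at h2
    have h2' := h1.mul_left x
    have h3 := (h2'.sub h2).mul_left (-(w / conj w ^ 2))
    have h4 : -(w / conj w ^ 2) * (x * Complex.exp x - (Complex.exp x - 1)) = lam s w := by
      unfold lam rr
      rw [hx, mul_conj_self]
      push_cast
      ring
    rw [h4] at h3
    refine h3.congr_fun fun j => ?_
    have h6 : x * (x ^ j / (j.factorial : ℂ)) - x ^ (j + 1) / ((j + 1).factorial : ℂ)
        = j * x ^ (j + 1) / ((j + 1).factorial : ℂ) := by
      have : ((j + 1).factorial : ℂ) = (j + 1) * (j.factorial : ℂ) := by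
        rw [Nat.factorial_succ]; push_cast; ring
      have hj : ((j : ℂ) + 1) ≠ 0 := by exact_mod_cast Nat.succ_ne_zero j
      have hf : (j.factorial : ℂ) ≠ 0 := by exact_mod_cast Nat.factorial_ne_zero j
      rw [this]
      field_simp
      ring
    rw [h6]
    have h5 : x ^ (j + 1) = (-(s : ℂ)) ^ (j + 1) * w ^ (j + 1) * conj w ^ (j + 1) := by
      rw [hx, ← mul_pow, ← mul_pow]; congr 1; ring
    rw [h5]
    rcases Nat.eq_zero_or_pos j with hj | hj
    · subst hj; simp
    · obtain ⟨i, rfl⟩ : ∃ i, j = i + 1 := ⟨j - 1, by omega⟩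
      simp only [Nat.add_sub_cancel]
      field_simp
      ring

variable {g a φ : ℕ → ℂ} {G f F : ℂ → ℂ}

/-- `z^(k+1) F` -/
noncomputable def HH (F : ℂ → ℂ) (k : ℕ) (z : ℂ) : ℂ := z ^ (k + 1) * F z
/-- its derivative -/
noncomputable def Hp (f F : ℂ → ℂ) (k : ℕ) (z : ℂ) : ℂ :=
  ((k : ℂ) + 1) * (z ^ k * F z) + z ^ (k + 1) * f z

lemma memLp_HH (d : Data g a φ G f F) (k : ℕ) : MemLp (HH F k) 2 μD := memLp_pow_mul d.mF (k + 1)

lemma memLp_Hp (d : Data g a φ G f F) (k : ℕ) : MemLp (Hp f F k) 2 μD :=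
  ((memLp_pow_mul d.mF k).const_mul _).add (memLp_pow_mul d.mf (k + 1))

lemma K2 (d : Data g a φ G f F) (p : Polynomial ℂ) (k : ℕ) (s : ℝ) :
    ∫ z, G z * (conj (Hp f F k z) * kap s (p.eval z) +
      conj (HH F k z) * conj ((Polynomial.derivative p).eval z) * lam s (p.eval z)) ∂μD = 0 := by
  obtain ⟨R0, hR0⟩ := (isCompact_closedBall (0 : ℂ) 1).exists_bound_of_continuousOn
    (f := fun z => p.eval z) p.continuous.continuousOn
  obtain ⟨M0, hM0⟩ := (isCompact_closedBall (0 : ℂ) 1).exists_bound_of_continuousOn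
    (f := fun z => (Polynomial.derivative p).eval z) (Polynomial.continuous _).continuousOn
  set R : ℝ := max R0 1 with hR
  set M : ℝ := max M0 0 with hM
  have hR1 : 1 ≤ R := le_max_right _ _
  have hM1 : 0 ≤ M := le_max_right _ _
  set cc : ℕ → ℂ := fun j => (-(-(s : ℂ)) ^ (j + 1) / ((j + 1).factorial : ℂ)) with hcc
  set term : ℕ → ℂ → ℂ := fun j z => cc j * (((p ^ (j + 2)).eval z * G z) *
    conj (f z * (Polynomial.X ^ (k + 1) * p ^ j).eval z +
      F z * (Polynomial.derivative (Polynomial.X ^ (k + 1) * p ^ j)).eval z)) with hterm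
  have hterm0 : ∀ j, ∫ z, term j z ∂μD = 0 := by
    intro j
    simp only [hterm]
    rw [integral_const_mul, K1 d, mul_zero]
  have hterm1 : ∀ j z, term j z = G z * (conj (Hp f F k z) *
        (cc j * ((p.eval z) ^ (j + 2) * conj (p.eval z) ^ j)) +
      conj (HH F k z) * conj ((Polynomial.derivative p).eval z) *
        (cc j * ((p.eval z) ^ (j + 2) * (j * conj (p.eval z) ^ (j - 1))))) := by
    intro j z
    have h1 : f z * (Polynomial.X ^ (k + 1) * p ^ j).eval z +
      F z * (Polynomial.derivative (Polynomial.X ^ (k + 1) * p ^ j)).eval z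
      = Hp f F k z * (p.eval z) ^ j + HH F k z * ((Polynomial.derivative p).eval z *
        (j * (p.eval z) ^ (j - 1))) := by
      unfold Hp HH
      simp only [Polynomial.derivative_mul, Polynomial.derivative_pow, Polynomial.derivative_X,
        Polynomial.eval_mul, Polynomial.eval_add, Polynomial.eval_pow, Polynomial.eval_X,
        Polynomial.eval_C, Polynomial.eval_one, Nat.add_sub_cancel]
      push_cast
      ring
    simp only [hterm]
    rw [h1]
    simp only [map_add, map_mul, map_pow, conj_natCast, Polynomial.eval_pow]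
    ring
  have hsum : HasSum (fun j => ∫ z, term j z ∂μD)
      (∫ z, G z * (conj (Hp f F k z) * kap s (p.eval z) +
      conj (HH F k z) * conj ((Polynomial.derivative p).eval z) * lam s (p.eval z)) ∂μD) := by
    refine hasSum_integral_of_dominated_convergence
      (fun j z => ((|s| * R ^ 2) ^ (j + 1) / (j.factorial : ℝ)) *
        (‖G z‖ * (‖Hp f F k z‖ + M * ‖HH F k z‖))) ?_ ?_ ?_ ?_ ?_
    · intro j
      exact ((K1int d _ _).const_mul _).aestronglyMeasurable
    · intro j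
      filter_upwards [ae_restrict_mem measurableSet_ball] with z hz
      have hz1 := Metric.ball_subset_closedBall hz
      have hpz : ‖p.eval z‖ ≤ R := (hR0 z hz1).trans (le_max_left _ _)
      have hpz' : ‖(Polynomial.derivative p).eval z‖ ≤ M := (hM0 z hz1).trans (le_max_left _ _)
      rw [hterm1, norm_mul]
      have hR0' : 0 ≤ R := by linarith
      have hpow1 : ‖p.eval z‖ ^ (j + 2) * ‖p.eval z‖ ^ j ≤ (R ^ 2) ^ (j + 1) := by
        calc ‖p.eval z‖ ^ (j + 2) * ‖p.eval z‖ ^ j ≤ R ^ (j + 2) * R ^ j := by gcongr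
          _ = (R ^ 2) ^ (j + 1) := by rw [← pow_add, ← pow_mul]; congr 1; ring
      have hpow2 : ‖p.eval z‖ ^ (j + 2) * ‖p.eval z‖ ^ (j - 1) ≤ (R ^ 2) ^ (j + 1) := by
        calc ‖p.eval z‖ ^ (j + 2) * ‖p.eval z‖ ^ (j - 1) ≤ R ^ (j + 2) * R ^ (j - 1) := by gcongr
          _ ≤ R ^ (j + 2) * R ^ j := by
              gcongr
              exact Nat.sub_le j 1
          _ = (R ^ 2) ^ (j + 1) := by rw [← pow_add, ← pow_mul]; congr 1; ring
      have hccn : ‖cc j‖ = |s| ^ (j + 1) / ((j + 1).factorial : ℝ) := by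
        simp [hcc, norm_pow]
      have hfac : ((j + 1).factorial : ℝ) = ((j : ℝ) + 1) * (j.factorial : ℝ) := by
        rw [Nat.factorial_succ]; push_cast; ring
      have hfacpos : (0 : ℝ) < (j.factorial : ℝ) := by exact_mod_cast Nat.factorial_pos j
      have hjj : (0 : ℝ) ≤ (j : ℝ) := Nat.cast_nonneg j
      have b1 : ‖cc j * ((p.eval z) ^ (j + 2) * conj (p.eval z) ^ j)‖
          ≤ (|s| * R ^ 2) ^ (j + 1) / (j.factorial : ℝ) := by
        rw [norm_mul, norm_mul, norm_pow, norm_pow, RCLike.norm_conj, hccn, mul_pow]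
        calc |s| ^ (j + 1) / ((j + 1).factorial : ℝ) * (‖p.eval z‖ ^ (j + 2) * ‖p.eval z‖ ^ j)
            ≤ |s| ^ (j + 1) / (j.factorial : ℝ) * (R ^ 2) ^ (j + 1) := by
              gcongr
              exact Nat.le_succ j
          _ = _ := by ring
      have b2 : ‖cc j * ((p.eval z) ^ (j + 2) * (j * conj (p.eval z) ^ (j - 1)))‖
          ≤ (|s| * R ^ 2) ^ (j + 1) / (j.factorial : ℝ) := by
        rw [norm_mul, norm_mul, norm_mul, norm_pow, norm_pow, RCLike.norm_conj, hccn, mul_pow,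
          Complex.norm_natCast]
        calc |s| ^ (j + 1) / ((j + 1).factorial : ℝ) *
              (‖p.eval z‖ ^ (j + 2) * (j * ‖p.eval z‖ ^ (j - 1)))
            = (|s| ^ (j + 1) * (j / ((j + 1).factorial : ℝ))) *
              (‖p.eval z‖ ^ (j + 2) * ‖p.eval z‖ ^ (j - 1)) := by ring
          _ ≤ (|s| ^ (j + 1) * (1 / (j.factorial : ℝ))) * (R ^ 2) ^ (j + 1) := by
              have h7 : (j : ℝ) / ((j + 1).factorial : ℝ) ≤ 1 / (j.factorial : ℝ) := by
                rw [hfac, div_le_div_iff₀ (by positivity) hfacpos]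
                nlinarith
              exact mul_le_mul (mul_le_mul_of_nonneg_left h7 (by positivity)) hpow2
                (by positivity) (by positivity)
          _ = _ := by ring
      calc ‖G z‖ * ‖conj (Hp f F k z) * (cc j * ((p.eval z) ^ (j + 2) * conj (p.eval z) ^ j)) +
            conj (HH F k z) * conj ((Polynomial.derivative p).eval z) *
            (cc j * ((p.eval z) ^ (j + 2) * (j * conj (p.eval z) ^ (j - 1))))‖
          ≤ ‖G z‖ * (‖Hp f F k z‖ * ((|s| * R ^ 2) ^ (j + 1) / (j.factorial : ℝ)) +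
            ‖HH F k z‖ * M * ((|s| * R ^ 2) ^ (j + 1) / (j.factorial : ℝ))) := by
            gcongr
            refine (norm_add_le _ _).trans (add_le_add ?_ ?_)
            · rw [norm_mul, RCLike.norm_conj]
              exact mul_le_mul_of_nonneg_left b1 (norm_nonneg _)
            · rw [norm_mul, norm_mul, RCLike.norm_conj, RCLike.norm_conj]
              exact mul_le_mul (mul_le_mul_of_nonneg_left hpz' (norm_nonneg _)) b2
                (norm_nonneg _) (by positivity)
        _ = _ := by ring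
    · refine ae_of_all _ fun z => Summable.mul_right _ ?_
      have := (Real.summable_pow_div_factorial (|s| * R ^ 2)).mul_left (|s| * R ^ 2)
      refine this.congr fun j => ?_
      rw [pow_succ]; ring
    · simp only [tsum_mul_right]
      refine Integrable.const_mul ?_ _
      have m1 : MemLp (fun z => ‖Hp f F k z‖ + M * ‖HH F k z‖) 2 μD :=
        (memLp_Hp d k).norm.add ((memLp_HH d k).norm.const_mul M)
      exact d.mG.norm.integrable_mul m1
    · refine ae_of_all _ fun z => ?_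
      have s1 := (hasSum_kap s (p.eval z)).mul_left (conj (Hp f F k z))
      have s2 := (hasSum_lam s (p.eval z)).mul_left
        (conj (HH F k z) * conj ((Polynomial.derivative p).eval z))
      have s3 := (s1.add s2).mul_left (G z)
      refine s3.congr_fun fun j => ?_
      rw [hterm1]
  simp only [hterm0] at hsum
  exact (hsum.unique hasSum_zero)

end Pool.Agent.S03025Aux.KeyB

namespace Pool.Agent.S03025Aux.KeyC
open MeasureTheory Filter Topology Complex ComplexConjugate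
open Pool.Agent.S03025Aux.Bergman Pool.Agent.S03025Aux.KeyA Pool.Agent.S03025Aux.KeyB

noncomputable def th (s : ℝ) (w : ℂ) : ℂ := conj w * lam s w

lemma norm_div_conj_le (w : ℂ) : ‖w / conj w‖ ≤ 1 := by
  rw [norm_div, RCLike.norm_conj]
  exact div_self_le_one _

lemma rr_nonneg {s : ℝ} (hs : 0 ≤ s) (w : ℂ) : 0 ≤ rr s w := by
  unfold rr
  set x : ℝ := s * ‖w‖ ^ 2 with hx
  have hx0 : 0 ≤ x := by positivity
  have h1 : 1 + x ≤ Real.exp x := by linarith [Real.add_one_le_exp x]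
  have h2 : (1 + x) * Real.exp (-x) ≤ Real.exp x * Real.exp (-x) := by
    gcongr
  rw [← Real.exp_add] at h2
  simp at h2
  linarith

lemma rr_le_one {s : ℝ} (hs : 0 ≤ s) (w : ℂ) : rr s w ≤ 1 := by
  unfold rr
  have : 0 ≤ (1 + s * ‖w‖ ^ 2) * Real.exp (-(s * ‖w‖ ^ 2)) := by positivity
  linarith

lemma rr_le {s : ℝ} (hs : 0 ≤ s) (w : ℂ) : rr s w ≤ s * ‖w‖ ^ 2 := by
  unfold rr
  set x : ℝ := s * ‖w‖ ^ 2 with hx
  have hx0 : 0 ≤ x := by positivity
  have h1 : 1 - x ≤ Real.exp (-x) := by linarith [Real.add_one_le_exp (-x)]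
  have h2 : 0 ≤ x * Real.exp (-x) := by positivity
  nlinarith

lemma rr_le_sqrt {s : ℝ} (hs : 0 ≤ s) (w : ℂ) : rr s w ≤ Real.sqrt s * ‖w‖ := by
  have h1 := rr_le_one hs w
  have h2 := rr_le hs w
  have h3 : (Real.sqrt s * ‖w‖) ^ 2 = s * ‖w‖ ^ 2 := by
    rw [mul_pow, Real.sq_sqrt hs]
  set y := Real.sqrt s * ‖w‖ with hy
  have hy0 : 0 ≤ y := by positivity
  rcases le_total 1 y with h | h
  · linarith
  · nlinarith

lemma norm_kap_le_one {s : ℝ} (hs : 0 ≤ s) (w : ℂ) : ‖kap s w‖ ≤ 1 := by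
  unfold kap
  rw [norm_mul, Complex.norm_real]
  have h1 : 0 ≤ 1 - Real.exp (-(s * ‖w‖ ^ 2)) := by
    have : Real.exp (-(s * ‖w‖ ^ 2)) ≤ 1 := Real.exp_le_one_iff.2 (by
      have : 0 ≤ s * ‖w‖ ^ 2 := by positivity
      linarith)
    linarith
  have h2 : 1 - Real.exp (-(s * ‖w‖ ^ 2)) ≤ 1 := by
    have := Real.exp_pos (-(s * ‖w‖ ^ 2))
    linarith
  rw [Real.norm_of_nonneg h1]
  calc ‖w / conj w‖ * (1 - Real.exp (-(s * ‖w‖ ^ 2))) ≤ 1 * 1 := by
        gcongr
        exact norm_div_conj_le w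
    _ = 1 := by ring

lemma norm_kap_le {s : ℝ} (hs : 0 ≤ s) (w : ℂ) : ‖kap s w‖ ≤ s * ‖w‖ ^ 2 := by
  unfold kap
  rw [norm_mul, Complex.norm_real]
  have h1 : 0 ≤ 1 - Real.exp (-(s * ‖w‖ ^ 2)) := by
    have : Real.exp (-(s * ‖w‖ ^ 2)) ≤ 1 := Real.exp_le_one_iff.2 (by
      have : 0 ≤ s * ‖w‖ ^ 2 := by positivity
      linarith)
    linarith
  have h2 : 1 - Real.exp (-(s * ‖w‖ ^ 2)) ≤ s * ‖w‖ ^ 2 := by
    have := Real.add_one_le_exp (-(s * ‖w‖ ^ 2))
    linarith
  rw [Real.norm_of_nonneg h1]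
  calc ‖w / conj w‖ * (1 - Real.exp (-(s * ‖w‖ ^ 2))) ≤ 1 * (s * ‖w‖ ^ 2) := by
        gcongr
        exact norm_div_conj_le w
    _ = _ := by ring

lemma th_eq (s : ℝ) (w : ℂ) : th s w = -(w / conj w * ((rr s w : ℝ) : ℂ)) := by
  unfold th lam
  rcases eq_or_ne w 0 with h | h
  · subst h; simp
  · have hc : conj w ≠ 0 := by simpa using h
    field_simp

lemma norm_th_le_one {s : ℝ} (hs : 0 ≤ s) (w : ℂ) : ‖th s w‖ ≤ 1 := by
  rw [th_eq, norm_neg, norm_mul, Complex.norm_real, Real.norm_of_nonneg (rr_nonneg hs w)]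
  calc ‖w / conj w‖ * rr s w ≤ 1 * 1 := by
        gcongr
        · exact rr_nonneg hs w
        · exact norm_div_conj_le w
        · exact rr_le_one hs w
    _ = 1 := by ring

lemma norm_th_le {s : ℝ} (hs : 0 ≤ s) (w : ℂ) : ‖th s w‖ ≤ s * ‖w‖ ^ 2 := by
  rw [th_eq, norm_neg, norm_mul, Complex.norm_real, Real.norm_of_nonneg (rr_nonneg hs w)]
  calc ‖w / conj w‖ * rr s w ≤ 1 * (s * ‖w‖ ^ 2) := by
        gcongr
        · exact rr_nonneg hs w
        · exact norm_div_conj_le w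
        · exact rr_le hs w
    _ = _ := by ring

lemma norm_lam_le {s : ℝ} (hs : 0 ≤ s) (w : ℂ) : ‖lam s w‖ ≤ Real.sqrt s := by
  unfold lam
  rcases eq_or_ne w 0 with h | h
  · subst h; simp
  · have hw : 0 < ‖w‖ := norm_pos_iff.2 h
    rw [norm_neg, norm_mul, norm_div, norm_pow, RCLike.norm_conj, Complex.norm_real,
      Real.norm_of_nonneg (rr_nonneg hs w)]
    have := rr_le_sqrt hs w
    calc ‖w‖ / ‖w‖ ^ 2 * rr s w ≤ ‖w‖ / ‖w‖ ^ 2 * (Real.sqrt s * ‖w‖) := by gcongr
      _ = Real.sqrt s := by field_simp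

lemma continuous_kap {s : ℝ} (hs : 0 ≤ s) : Continuous (kap s) := by
  rw [continuous_iff_continuousAt]
  intro w
  rcases eq_or_ne w 0 with h | h
  · subst h
    have h0 : kap s 0 = 0 := by simp [kap]
    rw [ContinuousAt, h0, tendsto_zero_iff_norm_tendsto_zero]
    have h1 : Tendsto (fun w : ℂ => s * ‖w‖ ^ 2) (𝓝 0) (𝓝 0) := by
      have : Continuous (fun w : ℂ => s * ‖w‖ ^ 2) := by fun_prop
      simpa using this.tendsto 0
    exact squeeze_zero (fun _ => norm_nonneg _) (fun w => norm_kap_le hs w) h1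
  · have hc : conj w ≠ 0 := by simpa using h
    unfold kap
    refine ContinuousAt.mul ?_ ?_
    · exact continuousAt_id.div continuous_conj.continuousAt hc
    · exact Continuous.continuousAt (by fun_prop)

lemma continuous_rr (s : ℝ) : Continuous (rr s) := by
  unfold rr
  fun_prop

lemma continuous_th {s : ℝ} (hs : 0 ≤ s) : Continuous (th s) := by
  rw [continuous_iff_continuousAt]
  intro w
  rcases eq_or_ne w 0 with h | h
  · subst h
    have h0 : th s 0 = 0 := by simp [th]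
    rw [ContinuousAt, h0, tendsto_zero_iff_norm_tendsto_zero]
    have h1 : Tendsto (fun w : ℂ => s * ‖w‖ ^ 2) (𝓝 0) (𝓝 0) := by
      have : Continuous (fun w : ℂ => s * ‖w‖ ^ 2) := by fun_prop
      simpa using this.tendsto 0
    exact squeeze_zero (fun _ => norm_nonneg _) (fun w => norm_th_le hs w) h1
  · have hc : conj w ≠ 0 := by simpa using h
    have h2 : th s = fun w => -(w / conj w * ((rr s w : ℝ) : ℂ)) := funext (th_eq s)
    rw [h2]
    refine (ContinuousAt.mul ?_ ?_).neg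
    · exact continuousAt_id.div continuous_conj.continuousAt hc
    · exact (Complex.continuous_ofReal.comp (continuous_rr s)).continuousAt

lemma measurable_lam (s : ℝ) : Measurable (lam s) := by
  unfold lam
  have h1 : Measurable (fun w : ℂ => ((rr s w : ℝ) : ℂ)) :=
    (Complex.continuous_ofReal.comp (continuous_rr s)).measurable
  have h2 : Measurable (fun w : ℂ => conj w) := continuous_conj.measurable
  exact ((measurable_id.div (h2.pow_const 2)).mul h1).neg

/-- Cauchy Schwarz -/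
lemma cs {u v : ℂ → ℂ} (hu : MemLp u 2 μD) (hv : MemLp v 2 μD) :
    ∫ z, ‖u z‖ * ‖v z‖ ∂μD ≤ Real.sqrt (∫ z, ‖u z‖ ^ 2 ∂μD) * Real.sqrt (∫ z, ‖v z‖ ^ 2 ∂μD) := by
  have h2 : (ENNReal.ofReal 2) = 2 := by norm_num
  have := integral_mul_norm_le_Lp_mul_Lq (μ := μD) (f := u) (g := v) (p := 2) (q := 2)
    (by constructor <;> norm_num) (by rw [h2]; exact hu) (by rw [h2]; exact hv)
  simpa [Real.sqrt_eq_rpow] using this

end Pool.Agent.S03025Aux.KeyC

namespace Pool.Agent.S03025Aux.KeyD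
open MeasureTheory Filter Topology Complex ComplexConjugate
open Pool.Agent.S03025Aux.Bergman Pool.Agent.S03025Aux.KeyA Pool.Agent.S03025Aux.KeyB
open Pool.Agent.S03025Aux.KeyC

variable {g a φ : ℕ → ℂ} {G f F : ℂ → ℂ}

/-- truncation polynomial -/
noncomputable def pN (φ : ℕ → ℂ) (N : ℕ) : Polynomial ℂ :=
  ∑ m ∈ Finset.range (N + 1), Polynomial.monomial m (φ m)

lemma eval_pN (φ : ℕ → ℂ) (N : ℕ) (z : ℂ) :
    (pN φ N).eval z = ∑ m ∈ Finset.range (N + 1), φ m * z ^ m := by
  unfold pN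
  rw [Polynomial.eval_finsetSum]
  simp

lemma eval_pN' (haφ : ∀ m, a m = ((m : ℂ) + 1) * φ (m + 1)) (N : ℕ) (z : ℂ) :
    (Polynomial.derivative (pN φ N)).eval z = ∑ m ∈ Finset.range N, a m * z ^ m := by
  unfold pN
  rw [Polynomial.derivative_sum, Polynomial.eval_finsetSum, Finset.sum_range_succ']
  simp only [Polynomial.derivative_monomial, Polynomial.eval_monomial, Nat.add_sub_cancel]
  simp only [Nat.cast_zero, mul_zero, zero_mul, add_zero]
  refine Finset.sum_congr rfl fun m _ => ?_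
  rw [haφ m]
  push_cast
  ring

lemma tail_isPS {b : ℕ → ℂ} {h : ℂ → ℂ} (hb : IsPS b h) (N : ℕ) :
    IsPS (fun m => if m < N then 0 else b m) (fun z => h z - ∑ m ∈ Finset.range N, b m * z ^ m) := by
  intro z hz
  have h1 := hb z hz
  have h2 : HasSum (fun m => if m < N then b m * z ^ m else 0)
      (∑ m ∈ Finset.range N, b m * z ^ m) := by
    have h3 : HasSum (fun m => if m < N then b m * z ^ m else 0)
        (∑ m ∈ Finset.range N, if m < N then b m * z ^ m else 0) :=
      hasSum_sum_of_ne_finset_zero (by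
        intro m hm
        have : ¬ m < N := by simpa using hm
        simp [this])
    have h4 : (∑ m ∈ Finset.range N, if m < N then b m * z ^ m else 0)
        = ∑ m ∈ Finset.range N, b m * z ^ m := by
      refine Finset.sum_congr rfl fun m hm => ?_
      have : m < N := by simpa using hm
      simp [this]
    rw [h4] at h3
    exact h3
  refine (h1.sub h2).congr_fun fun m => ?_
  by_cases hm : m < N <;> simp [hm]

lemma memLp_tail {b : ℕ → ℂ} {h : ℂ → ℂ} (mb : MemLp h 2 μD) (N : ℕ) :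
    MemLp (fun z => h z - ∑ m ∈ Finset.range N, b m * z ^ m) 2 μD := by
  refine mb.sub ?_
  have h1 : MemLp (fun _ : ℂ => (1 : ℂ)) 2 μD := memLp_const _
  have h2 := memLp_poly_mul h1 (∑ m ∈ Finset.range N, Polynomial.monomial m (b m))
  simpa [Polynomial.eval_finsetSum] using h2

/-- squared L2 error of the derivative -/
noncomputable def eN (a : ℕ → ℂ) (f : ℂ → ℂ) (N : ℕ) : ℝ :=
  ∫ z, ‖f z - ∑ m ∈ Finset.range N, a m * z ^ m‖ ^ 2 ∂μD

lemma eN_nonneg (a : ℕ → ℂ) (f : ℂ → ℂ) (N : ℕ) : 0 ≤ eN a f N :=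
  integral_nonneg fun _ => by positivity

lemma eN_tendsto (hf : IsPS a f) (mf : MemLp f 2 μD) : Tendsto (eN a f) atTop (𝓝 0) := by
  have h1 : ∀ N, eN a f N = ∑' m, ‖(if m < N then 0 else a m)‖ ^ 2 * (Real.pi / (m + 1)) := by
    intro N
    exact ((tail_isPS hf N).parseval_norm (memLp_tail mf N)).tsum_eq.symm
  have hs : Summable (fun m : ℕ => ‖a m‖ ^ 2 * (Real.pi / (m + 1))) :=
    (hf.parseval_norm mf).summable
  have hpi := Real.pi_pos
  have h2 : Tendsto (fun N => ∑' m, ‖(if m < N then 0 else a m)‖ ^ 2 * (Real.pi / (m + 1)))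
      atTop (𝓝 (∑' m : ℕ, (0 : ℝ))) := by
    refine tendsto_tsum_of_dominated_convergence hs (fun m => ?_)
      (Eventually.of_forall fun N m => ?_)
    · refine tendsto_const_nhds.congr' ?_
      filter_upwards [eventually_gt_atTop m] with N hN
      simp [hN]
    · rw [Real.norm_of_nonneg (by positivity)]
      by_cases hm : m < N
      · simp only [hm, if_true, norm_zero]
        have : 0 ≤ ‖a m‖ ^ 2 * (Real.pi / (m + 1)) := by positivity
        simpa using this
      · simp [hm]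
  simp only [tsum_zero] at h2
  exact h2.congr fun N => (h1 N).symm

lemma pN_err (hf : IsPS a f) (hF : IsPS φ F) (mf : MemLp f 2 μD) (mF : MemLp F 2 μD)
    (haφ : ∀ m, a m = ((m : ℂ) + 1) * φ (m + 1)) (N : ℕ) :
    (N : ℝ) ^ 2 * ∫ z, ‖F z - (pN φ N).eval z‖ ^ 2 ∂μD ≤ eN a f N := by
  have hpi := Real.pi_pos
  have h1 := (tail_isPS hF (N + 1)).parseval_norm (memLp_tail mF (N + 1))
  have h2 := (tail_isPS hf N).parseval_norm (memLp_tail mf N)
  have h3 := (hasSum_nat_add_iff' 1).2 h1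
  simp only [Finset.range_one, Finset.sum_singleton, Nat.zero_lt_succ, if_true, norm_zero,
    ne_eq, OfNat.ofNat_ne_zero, not_false_eq_true, zero_pow, zero_mul, sub_zero] at h3
  have h4 := h3.mul_left ((N : ℝ) ^ 2)
  simp only [eval_pN]
  refine hasSum_le (fun n => ?_) h4 h2
  by_cases hn : n < N
  · have : n + 1 < N + 1 := by omega
    simp [hn]
  · have : ¬ n + 1 < N + 1 := by omega
    simp only [this, hn, if_false]
    rw [haφ n, norm_mul]
    have e1 : ‖((n : ℂ) + 1)‖ = (n : ℝ) + 1 := by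
      have : ((n : ℂ) + 1) = (((n : ℝ) + 1 : ℝ) : ℂ) := by push_cast; ring
      rw [this, Complex.norm_real, Real.norm_of_nonneg (by positivity)]
    rw [e1]
    have hN : (N : ℝ) ≤ n := by exact_mod_cast not_lt.1 hn
    have hN0 : (0 : ℝ) ≤ N := Nat.cast_nonneg N
    have e2 : (N : ℝ) ^ 2 * (Real.pi / (((n + 1 : ℕ) : ℝ) + 1)) ≤
        ((n : ℝ) + 1) ^ 2 * (Real.pi / ((n : ℝ) + 1)) := by
      push_cast
      have : (n : ℝ) + 1 ≤ (n : ℝ) + 1 + 1 := by linarith
      gcongr
      linarith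
    calc (N : ℝ) ^ 2 * (‖φ (n + 1)‖ ^ 2 * (Real.pi / (((n + 1 : ℕ) : ℝ) + 1)))
        = ‖φ (n + 1)‖ ^ 2 * ((N : ℝ) ^ 2 * (Real.pi / (((n + 1 : ℕ) : ℝ) + 1))) := by ring
      _ ≤ ‖φ (n + 1)‖ ^ 2 * (((n : ℝ) + 1) ^ 2 * (Real.pi / ((n : ℝ) + 1))) := by gcongr
      _ = _ := by ring

/-- uniform bound for truncations of the derivative -/
lemma sup_bound (hs : Summable (fun n => ‖a n‖ ^ 2 / ((n : ℝ) + 1))) (N : ℕ) {z : ℂ}
    (hz : ‖z‖ ≤ 1) :
    ‖∑ m ∈ Finset.range N, a m * z ^ m‖ ≤ Real.sqrt (∑' n, ‖a n‖ ^ 2 / ((n : ℝ) + 1)) * N := by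
  set A := ∑' n, ‖a n‖ ^ 2 / ((n : ℝ) + 1) with hA
  have hA0 : 0 ≤ A := tsum_nonneg fun n => by positivity
  have h1 : ‖∑ m ∈ Finset.range N, a m * z ^ m‖ ≤ ∑ m ∈ Finset.range N, ‖a m‖ := by
    refine (norm_sum_le _ _).trans (Finset.sum_le_sum fun m _ => ?_)
    rw [norm_mul, norm_pow]
    calc ‖a m‖ * ‖z‖ ^ m ≤ ‖a m‖ * 1 := by
          gcongr
          exact pow_le_one₀ (norm_nonneg z) hz
      _ = ‖a m‖ := mul_one _
  have h2 : (∑ m ∈ Finset.range N, ‖a m‖) ^ 2 ≤
      (∑ m ∈ Finset.range N, ‖a m‖ ^ 2 / ((m : ℝ) + 1)) * ∑ m ∈ Finset.range N, ((m : ℝ) + 1) := by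
    refine Finset.sum_sq_le_sum_mul_sum_of_sq_le_mul _ (fun m _ => by positivity)
      (fun m _ => by positivity) (fun m _ => le_of_eq ?_)
    field_simp
  have h3 : ∑ m ∈ Finset.range N, ((m : ℝ) + 1) ≤ (N : ℝ) ^ 2 := by
    calc ∑ m ∈ Finset.range N, ((m : ℝ) + 1) ≤ ∑ m ∈ Finset.range N, (N : ℝ) := by
          refine Finset.sum_le_sum fun m hm => ?_
          have : m < N := by simpa using hm
          exact_mod_cast this
      _ = (N : ℝ) ^ 2 := by simp [sq]
  have h4 : ∑ m ∈ Finset.range N, ‖a m‖ ^ 2 / ((m : ℝ) + 1) ≤ A :=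
    hs.sum_le_tsum _ (fun m _ => by positivity)
  have h5 : (∑ m ∈ Finset.range N, ‖a m‖) ^ 2 ≤ (Real.sqrt A * N) ^ 2 := by
    rw [mul_pow, Real.sq_sqrt hA0]
    refine h2.trans ?_
    gcongr
  refine h1.trans ?_
  exact (pow_le_pow_iff_left₀ (by positivity) (by positivity) two_ne_zero).1 h5

lemma norm_pow_mul_le {z : ℂ} (hz : z ∈ Metric.ball (0 : ℂ) 1) (k : ℕ) (w : ℂ) :
    ‖conj z ^ k * w‖ ≤ ‖w‖ := by
  have hz' : ‖z‖ ≤ 1 := by
    have : ‖z‖ < 1 := by simpa using hz
    exact this.le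
  rw [norm_mul, norm_pow, RCLike.norm_conj]
  calc ‖z‖ ^ k * ‖w‖ ≤ 1 * ‖w‖ := by
        gcongr
        exact pow_le_one₀ (norm_nonneg z) hz'
    _ = _ := one_mul _

lemma K3 (d : Data g a φ G f F) (k : ℕ) {s : ℝ} (hs : 0 ≤ s) :
    ∫ z, G z * (conj (Hp f F k z) * kap s (F z) + conj z ^ (k + 1) * (th s (F z) * conj (f z))) ∂μD
      = 0 := by
  have hsum : Summable (fun n => ‖a n‖ ^ 2 / ((n : ℝ) + 1)) :=
    d.hf.summable_of_integrable ((memLp_two_iff_integrable_sq_norm d.hf.aesm).1 d.mf)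
  set A : ℝ := Real.sqrt (∑' n, ‖a n‖ ^ 2 / ((n : ℝ) + 1)) with hA
  have hA0 : 0 ≤ A := Real.sqrt_nonneg _
  set s1 : ℝ := Real.sqrt s with hs1
  have hs10 : 0 ≤ s1 := Real.sqrt_nonneg _
  set MN : ℕ → ℂ → ℂ := fun N z => G z * (conj (Hp f F k z) * kap s ((pN φ N).eval z) +
    conj z ^ (k + 1) * (th s ((pN φ N).eval z) * conj (f z))) with hMN
  set TN : ℕ → ℂ → ℂ := fun N z => G z * (conj (Hp f F k z) * kap s ((pN φ N).eval z) +
      conj (HH F k z) * conj ((Polynomial.derivative (pN φ N)).eval z) *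
        lam s ((pN φ N).eval z)) with hTN
  have hTN0 : ∀ N, ∫ z, TN N z ∂μD = 0 := fun N => K2 d (pN φ N) k s
  have mdf : ∀ N, MemLp (fun z => f z - ∑ m ∈ Finset.range N, a m * z ^ m) 2 μD :=
    fun N => memLp_tail d.mf N
  have mdF : ∀ N, MemLp (fun z => F z - (pN φ N).eval z) 2 μD := by
    intro N
    simp only [eval_pN]
    exact memLp_tail d.mF (N + 1)
  -- the error bound
  set BN : ℕ → ℂ → ℝ := fun N z => ‖G z‖ * ‖f z - ∑ m ∈ Finset.range N, a m * z ^ m‖ +
    (s1 * (A * N)) * (‖G z‖ * ‖F z - (pN φ N).eval z‖) with hBN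
  have hBNint : ∀ N, Integrable (BN N) μD := by
    intro N
    refine (d.mG.norm.integrable_mul (mdf N).norm).add ?_
    exact (d.mG.norm.integrable_mul (mdF N).norm).const_mul _
  have hbound : ∀ N, ∀ᵐ z ∂μD, ‖TN N z - MN N z‖ ≤ BN N z := by
    intro N
    filter_upwards [ae_restrict_mem measurableSet_ball] with z hz
    have hz' : ‖z‖ ≤ 1 := by
      have : ‖z‖ < 1 := by simpa using hz
      exact this.le
    set p := (pN φ N).eval z with hp
    set q := (Polynomial.derivative (pN φ N)).eval z with hq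
    have hq' : q = ∑ m ∈ Finset.range N, a m * z ^ m := eval_pN' d.haφ N z
    have e1 : TN N z - MN N z = G z * (conj z ^ (k + 1) * (th s p * conj (q - f z))) +
        G z * (conj z ^ (k + 1) * (conj (F z - p) * (conj q * lam s p))) := by
      simp only [hTN, hMN, HH, th, map_mul, map_pow, map_sub, ← hp, ← hq]
      ring
    rw [e1]
    refine (norm_add_le _ _).trans ?_
    simp only [hBN]
    refine add_le_add ?_ ?_
    · rw [norm_mul]
      refine mul_le_mul_of_nonneg_left ?_ (norm_nonneg _)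
      refine (norm_pow_mul_le hz _ _).trans ?_
      rw [norm_mul, RCLike.norm_conj, ← hq', norm_sub_rev]
      calc ‖th s p‖ * ‖f z - q‖ ≤ 1 * ‖f z - q‖ := by
            gcongr
            exact norm_th_le_one hs p
        _ = _ := one_mul _
    · rw [norm_mul]
      have hqb : ‖q‖ ≤ A * N := by rw [hq']; exact sup_bound hsum N hz'
      calc ‖G z‖ * ‖conj z ^ (k + 1) * (conj (F z - p) * (conj q * lam s p))‖
          ≤ ‖G z‖ * ‖conj (F z - p) * (conj q * lam s p)‖ := by
            refine mul_le_mul_of_nonneg_left (norm_pow_mul_le hz _ _) (norm_nonneg _)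
        _ = ‖G z‖ * (‖F z - p‖ * (‖q‖ * ‖lam s p‖)) := by
            rw [norm_mul, norm_mul, RCLike.norm_conj, RCLike.norm_conj]
        _ ≤ ‖G z‖ * (‖F z - p‖ * ((A * N) * s1)) := by
            gcongr
            exact norm_lam_le hs p
        _ = _ := by ring
  -- measurability
  have hFm : AEStronglyMeasurable F μD := d.mF.1
  have mkap : ∀ N, AEStronglyMeasurable (fun z => kap s ((pN φ N).eval z)) μD := fun N =>
    ((continuous_kap hs).comp (Polynomial.continuous _)).aestronglyMeasurable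
  have mth : ∀ N, AEStronglyMeasurable (fun z => th s ((pN φ N).eval z)) μD := fun N =>
    ((continuous_th hs).comp (Polynomial.continuous _)).aestronglyMeasurable
  have mlam : ∀ N, AEStronglyMeasurable (fun z => lam s ((pN φ N).eval z)) μD := fun N =>
    ((measurable_lam s).comp (Polynomial.continuous _).measurable).aestronglyMeasurable
  have mHpc : AEStronglyMeasurable (fun z => conj (Hp f F k z)) μD :=
    continuous_conj.comp_aestronglyMeasurable (memLp_Hp d k).1
  have mHHc : AEStronglyMeasurable (fun z => conj (HH F k z)) μD :=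
    continuous_conj.comp_aestronglyMeasurable (memLp_HH d k).1
  have mfc : AEStronglyMeasurable (fun z => conj (f z)) μD :=
    continuous_conj.comp_aestronglyMeasurable d.mf.1
  have mzc : AEStronglyMeasurable (fun z : ℂ => conj z ^ (k + 1)) μD :=
    (continuous_conj.pow (k + 1)).aestronglyMeasurable
  have mqc : ∀ N, AEStronglyMeasurable
      (fun z => conj ((Polynomial.derivative (pN φ N)).eval z)) μD := fun N =>
    (continuous_conj.comp (Polynomial.continuous _)).aestronglyMeasurable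
  have mMN : ∀ N, AEStronglyMeasurable (MN N) μD := fun N =>
    d.mG.1.mul ((mHpc.mul (mkap N)).add (mzc.mul ((mth N).mul mfc)))
  have mTN : ∀ N, AEStronglyMeasurable (TN N) μD := fun N =>
    d.mG.1.mul ((mHpc.mul (mkap N)).add ((mHHc.mul (mqc N)).mul (mlam N)))
  -- dominated convergence for the main part
  set DD : ℂ → ℝ := fun z => ‖G z‖ * (‖Hp f F k z‖ + ‖f z‖) with hDD
  have hDDint : Integrable DD μD :=
    d.mG.norm.integrable_mul ((memLp_Hp d k).norm.add d.mf.norm)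
  have hMNb : ∀ N, ∀ᵐ z ∂μD, ‖MN N z‖ ≤ DD z := by
    intro N
    filter_upwards [ae_restrict_mem measurableSet_ball] with z hz
    simp only [hMN, hDD, norm_mul (G z)]
    refine mul_le_mul_of_nonneg_left ?_ (norm_nonneg _)
    refine (norm_add_le _ _).trans (add_le_add ?_ ?_)
    · rw [norm_mul, RCLike.norm_conj]
      calc ‖Hp f F k z‖ * ‖kap s ((pN φ N).eval z)‖ ≤ ‖Hp f F k z‖ * 1 := by
            gcongr
            exact norm_kap_le_one hs _
        _ = _ := mul_one _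
    · refine (norm_pow_mul_le hz _ _).trans ?_
      rw [norm_mul, RCLike.norm_conj]
      calc ‖th s ((pN φ N).eval z)‖ * ‖f z‖ ≤ 1 * ‖f z‖ := by
            gcongr
            exact norm_th_le_one hs _
        _ = _ := one_mul _
  have hMNint : ∀ N, Integrable (MN N) μD := fun N => hDDint.mono' (mMN N) (hMNb N)
  have hRint : ∀ N, Integrable (fun z => TN N z - MN N z) μD := fun N =>
    (hBNint N).mono' ((mTN N).sub (mMN N)) (hbound N)
  have hpt : ∀ z ∈ Metric.ball (0 : ℂ) 1, Tendsto (fun N => (pN φ N).eval z) atTop (𝓝 (F z)) := by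
    intro z hz
    simp only [eval_pN]
    exact ((d.hF z hz).tendsto_sum_nat).comp (tendsto_add_atTop_nat 1)
  have hlim1 : Tendsto (fun N => ∫ z, MN N z ∂μD) atTop (𝓝 (∫ z, G z * (conj (Hp f F k z) *
      kap s (F z) + conj z ^ (k + 1) * (th s (F z) * conj (f z))) ∂μD)) := by
    refine tendsto_integral_of_dominated_convergence DD mMN hDDint hMNb ?_
    filter_upwards [ae_restrict_mem measurableSet_ball] with z hz
    have h1 := ((continuous_kap hs).tendsto (F z)).comp (hpt z hz)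
    have h2 := ((continuous_th hs).tendsto (F z)).comp (hpt z hz)
    exact ((h1.const_mul _).add ((h2.mul_const _).const_mul _)).const_mul _
  -- the errors tend to zero
  set G2 : ℝ := Real.sqrt (∫ z, ‖G z‖ ^ 2 ∂μD) with hG2
  have hG20 : 0 ≤ G2 := Real.sqrt_nonneg _
  have herr : ∀ N, ‖∫ z, MN N z ∂μD‖ ≤ (G2 + s1 * A * G2) * Real.sqrt (eN a f N) := by
    intro N
    have h1 : ∫ z, MN N z ∂μD = - ∫ z, (TN N z - MN N z) ∂μD := by
      have : ∫ z, TN N z ∂μD = ∫ z, ((TN N z - MN N z) + MN N z) ∂μD := by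
        congr 1; funext z; ring
      rw [hTN0 N, integral_add (hRint N) (hMNint N)] at this
      linear_combination (-1 : ℂ) * this
    rw [h1, norm_neg]
    refine (norm_integral_le_of_norm_le (hBNint N) (hbound N)).trans ?_
    simp only [hBN]
    have i1 : Integrable (fun z => ‖G z‖ * ‖f z - ∑ m ∈ Finset.range N, a m * z ^ m‖) μD :=
      d.mG.norm.integrable_mul (mdf N).norm
    have i2 : Integrable (fun z => s1 * (A * N) * (‖G z‖ * ‖F z - (pN φ N).eval z‖)) μD :=
      (d.mG.norm.integrable_mul (mdF N).norm).const_mul _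
    rw [integral_add i1 i2, integral_const_mul]
    have c1 := cs d.mG (mdf N)
    have c2 := cs d.mG (mdF N)
    have c3 : (N : ℝ) * Real.sqrt (∫ z, ‖F z - (pN φ N).eval z‖ ^ 2 ∂μD) ≤
        Real.sqrt (eN a f N) := by
      have h2 : (N : ℝ) * Real.sqrt (∫ z, ‖F z - (pN φ N).eval z‖ ^ 2 ∂μD)
          = Real.sqrt ((N : ℝ) ^ 2 * ∫ z, ‖F z - (pN φ N).eval z‖ ^ 2 ∂μD) := by
        rw [Real.sqrt_mul (by positivity), Real.sqrt_sq (Nat.cast_nonneg N)]
      rw [h2]
      exact Real.sqrt_le_sqrt (pN_err d.hf d.hF d.mf d.mF d.haφ N)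
    calc (∫ z, ‖G z‖ * ‖f z - ∑ m ∈ Finset.range N, a m * z ^ m‖ ∂μD) +
          s1 * (A * N) * ∫ z, ‖G z‖ * ‖F z - (pN φ N).eval z‖ ∂μD
        ≤ G2 * Real.sqrt (eN a f N) +
          s1 * (A * N) * (G2 * Real.sqrt (∫ z, ‖F z - (pN φ N).eval z‖ ^ 2 ∂μD)) := by
          refine add_le_add c1 (mul_le_mul_of_nonneg_left c2 (by positivity))
      _ = G2 * Real.sqrt (eN a f N) +
          s1 * A * G2 * (N * Real.sqrt (∫ z, ‖F z - (pN φ N).eval z‖ ^ 2 ∂μD)) := by ring
      _ ≤ G2 * Real.sqrt (eN a f N) + s1 * A * G2 * Real.sqrt (eN a f N) := by gcongr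
      _ = _ := by ring
  have hlim2 : Tendsto (fun N => (G2 + s1 * A * G2) * Real.sqrt (eN a f N)) atTop (𝓝 0) := by
    have h1 := (Real.continuous_sqrt.tendsto 0).comp (eN_tendsto d.hf d.mf)
    have h2 := h1.const_mul (G2 + s1 * A * G2)
    simpa [Function.comp_def] using h2
  have hlim3 : Tendsto (fun N => ∫ z, MN N z ∂μD) atTop (𝓝 0) :=
    squeeze_zero_norm herr hlim2
  exact tendsto_nhds_unique hlim1 hlim3

end Pool.Agent.S03025Aux.KeyD

namespace Pool.Agent.S03025Aux.KeyE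
open MeasureTheory Filter Topology Complex ComplexConjugate
open Pool.Agent.S03025Aux.Bergman Pool.Agent.S03025Aux.KeyA Pool.Agent.S03025Aux.KeyB
open Pool.Agent.S03025Aux.KeyC Pool.Agent.S03025Aux.KeyD

variable {g a φ : ℕ → ℂ} {G f F : ℂ → ℂ}

lemma integrand_eq (s : ℝ) (w fz z : ℂ) (k : ℕ) :
    (((k : ℂ) + 1) * (conj z ^ k * conj w) + conj z ^ (k + 1) * conj fz) * kap s w +
      conj z ^ (k + 1) * (th s w * conj fz)
    = ((k : ℂ) + 1) * (conj z ^ k * (w * ((1 - Real.exp (-(s * ‖w‖ ^ 2)) : ℝ) : ℂ))) +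
      conj z ^ (k + 1) * (conj fz * (w / conj w *
        (((s * ‖w‖ ^ 2) * Real.exp (-(s * ‖w‖ ^ 2)) : ℝ) : ℂ))) := by
  rw [th_eq]
  unfold kap rr
  rcases eq_or_ne w 0 with h | h
  · subst h; simp
  · have hc : conj w ≠ 0 := by simpa using h
    push_cast
    field_simp
    ring

lemma K4 (d : Data g a φ G f F) (k : ℕ) : ∫ z, G z * (F z * conj z ^ k) ∂μD = 0 := by
  set I : ℕ → ℂ → ℂ := fun n z => G z * (conj (Hp f F k z) * kap (n : ℝ) (F z) +
    conj z ^ (k + 1) * (th (n : ℝ) (F z) * conj (f z))) with hI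
  have hI0 : ∀ n, ∫ z, I n z ∂μD = 0 := fun n => K3 d k (Nat.cast_nonneg n)
  set L : ℂ → ℂ := fun z => G z * (((k : ℂ) + 1) * (conj z ^ k * F z)) with hL
  have hIeq : ∀ n z, I n z = G z * (((k : ℂ) + 1) * (conj z ^ k * (F z *
      ((1 - Real.exp (-((n : ℝ) * ‖F z‖ ^ 2)) : ℝ) : ℂ))) +
      conj z ^ (k + 1) * (conj (f z) * (F z / conj (F z) *
        ((((n : ℝ) * ‖F z‖ ^ 2) * Real.exp (-((n : ℝ) * ‖F z‖ ^ 2)) : ℝ) : ℂ)))) := by
    intro n z
    simp only [hI]
    rw [← integrand_eq]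
    congr 2
    unfold Hp
    simp only [map_add, map_mul, map_pow, conj_natCast, map_one]
  have hFm : AEStronglyMeasurable F μD := d.mF.1
  have mHpc : AEStronglyMeasurable (fun z => conj (Hp f F k z)) μD :=
    continuous_conj.comp_aestronglyMeasurable (memLp_Hp d k).1
  have mfc : AEStronglyMeasurable (fun z => conj (f z)) μD :=
    continuous_conj.comp_aestronglyMeasurable d.mf.1
  have mzc : AEStronglyMeasurable (fun z : ℂ => conj z ^ (k + 1)) μD :=
    (continuous_conj.pow (k + 1)).aestronglyMeasurable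
  have mI : ∀ n, AEStronglyMeasurable (I n) μD := fun n =>
    d.mG.1.mul ((mHpc.mul ((continuous_kap (Nat.cast_nonneg n)).comp_aestronglyMeasurable hFm)).add
      (mzc.mul (((continuous_th (Nat.cast_nonneg n)).comp_aestronglyMeasurable hFm).mul mfc)))
  set DD : ℂ → ℝ := fun z => ‖G z‖ * (((k : ℝ) + 1) * ‖F z‖ + ‖f z‖) with hDD
  have hDDint : Integrable DD μD :=
    d.mG.norm.integrable_mul ((d.mF.norm.const_mul _).add d.mf.norm)
  have hb : ∀ n, ∀ᵐ z ∂μD, ‖I n z‖ ≤ DD z := by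
    intro n
    filter_upwards [ae_restrict_mem measurableSet_ball] with z hz
    rw [hIeq, norm_mul]
    simp only [hDD]
    refine mul_le_mul_of_nonneg_left ?_ (norm_nonneg _)
    set x : ℝ := (n : ℝ) * ‖F z‖ ^ 2 with hx
    have hx0 : 0 ≤ x := by positivity
    have h1 : 0 ≤ 1 - Real.exp (-x) := by
      have := Real.exp_le_one_iff.2 (by linarith : -x ≤ 0)
      linarith
    have h2 : 1 - Real.exp (-x) ≤ 1 := by linarith [Real.exp_pos (-x)]
    have h3 : x * Real.exp (-x) ≤ 1 := by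
      have h4 : x ≤ Real.exp x := by linarith [Real.add_one_le_exp x]
      have h5 : x * Real.exp (-x) ≤ Real.exp x * Real.exp (-x) := by gcongr
      rwa [← Real.exp_add, add_neg_cancel, Real.exp_zero] at h5
    have e1 : ‖((k : ℂ) + 1)‖ = (k : ℝ) + 1 := by
      have : ((k : ℂ) + 1) = (((k : ℝ) + 1 : ℝ) : ℂ) := by push_cast; ring
      rw [this, Complex.norm_real, Real.norm_of_nonneg (by positivity)]
    refine (norm_add_le _ _).trans (add_le_add ?_ ?_)
    · rw [norm_mul, e1]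
      refine mul_le_mul_of_nonneg_left ?_ (by positivity)
      refine (norm_pow_mul_le hz _ _).trans ?_
      rw [norm_mul, Complex.norm_real, Real.norm_of_nonneg h1]
      calc ‖F z‖ * (1 - Real.exp (-x)) ≤ ‖F z‖ * 1 := by gcongr
        _ = _ := mul_one _
    · refine (norm_pow_mul_le hz _ _).trans ?_
      rw [norm_mul, norm_mul, RCLike.norm_conj, Complex.norm_real,
        Real.norm_of_nonneg (by positivity)]
      calc ‖f z‖ * (‖F z / conj (F z)‖ * (x * Real.exp (-x))) ≤ ‖f z‖ * (1 * 1) := by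
            gcongr
            exact norm_div_conj_le _
        _ = _ := by ring
  have hlim : Tendsto (fun n => ∫ z, I n z ∂μD) atTop (𝓝 (∫ z, L z ∂μD)) := by
    refine tendsto_integral_of_dominated_convergence DD mI hDDint hb ?_
    refine ae_of_all _ fun z => ?_
    rcases eq_or_ne (F z) 0 with h | h
    · have h1 : ∀ n, I n z = 0 := by intro n; rw [hIeq, h]; simp
      have h2 : L z = 0 := by simp [hL, h]
      simp only [h1, h2]
      exact tendsto_const_nhds
    · have hpos : 0 < ‖F z‖ ^ 2 := by positivity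
      have t1 : Tendsto (fun n : ℕ => (n : ℝ) * ‖F z‖ ^ 2) atTop atTop :=
        tendsto_natCast_atTop_atTop.atTop_mul_const hpos
      have t2 : Tendsto (fun n : ℕ => Real.exp (-((n : ℝ) * ‖F z‖ ^ 2))) atTop (𝓝 0) :=
        Real.tendsto_exp_neg_atTop_nhds_zero.comp t1
      have t3 : Tendsto (fun n : ℕ => ((n : ℝ) * ‖F z‖ ^ 2) * Real.exp (-((n : ℝ) * ‖F z‖ ^ 2)))
          atTop (𝓝 0) := by
        have := (Real.tendsto_pow_mul_exp_neg_atTop_nhds_zero 1).comp t1
        simpa [Function.comp_def] using this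
      have t4 : Tendsto (fun n : ℕ => ((1 - Real.exp (-((n : ℝ) * ‖F z‖ ^ 2)) : ℝ) : ℂ))
          atTop (𝓝 1) := by
        have := (Complex.continuous_ofReal.tendsto _).comp (t2.const_sub 1)
        simpa [Function.comp_def] using this
      have t5 : Tendsto (fun n : ℕ => ((((n : ℝ) * ‖F z‖ ^ 2) *
          Real.exp (-((n : ℝ) * ‖F z‖ ^ 2)) : ℝ) : ℂ)) atTop (𝓝 0) := by
        have := (Complex.continuous_ofReal.tendsto _).comp t3
        simpa [Function.comp_def] using this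
      have t6 := ((((t4.const_mul (F z)).const_mul (conj z ^ k)).const_mul ((k : ℂ) + 1)).add
        (((t5.const_mul (F z / conj (F z))).const_mul (conj (f z))).const_mul
          (conj z ^ (k + 1)))).const_mul (G z)
      simp only [mul_one, mul_zero, add_zero] at t6
      refine t6.congr fun n => ?_
      rw [hIeq]
  simp only [hI0] at hlim
  have h0 : ∫ z, L z ∂μD = 0 := tendsto_nhds_unique hlim tendsto_const_nhds
  have h1 : ∀ z, L z = ((k : ℂ) + 1) * (G z * (F z * conj z ^ k)) := by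
    intro z; simp only [hL]; ring
  simp only [h1] at h0
  rw [integral_const_mul] at h0
  have hk : ((k : ℂ) + 1) ≠ 0 := by exact_mod_cast Nat.succ_ne_zero k
  exact (mul_eq_zero.1 h0).resolve_left hk

lemma mono_isPS (k : ℕ) : IsPS (fun n => if n = k then 1 else 0) (fun z => z ^ k) := by
  intro z _
  have h : HasSum (fun n => if n = k then z ^ k else 0) (z ^ k) := hasSum_ite_eq k (z ^ k)
  refine h.congr_fun fun n => ?_
  by_cases hn : n = k
  · subst hn; simp
  · simp [hn]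

lemma pair_pow (hG : IsPS g G) (mG : MemLp G 2 μD) (m k : ℕ) :
    ∫ z, (z ^ m * G z) * conj z ^ k ∂μD
      = (if m ≤ k then g (k - m) else 0) * ((Real.pi / (k + 1) : ℝ) : ℂ) := by
  have h1 : MemLp (fun z : ℂ => z ^ k) 2 μD := by
    have h1 : MemLp (fun _ : ℂ => (1 : ℂ)) 2 μD := memLp_const _
    simpa using memLp_pow_mul h1 k
  have h := (shift hG m).parseval (mono_isPS k) (memLp_pow_mul mG m) h1
  have h2 := h.unique (hasSum_single k (by
    intro n hn
    simp [hn]))
  simp only [map_pow] at h2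
  rw [h2]
  simp

lemma K5 (d : Data g a φ G f F) (k : ℕ) :
    ∑ m ∈ Finset.range (k + 1), φ m * g (k - m) = 0 := by
  have hpi := Real.pi_pos
  set c : ℂ := ∑ m ∈ Finset.range (k + 1), φ m * g (k - m) with hc
  have hzk : ∀ z ∈ Metric.ball (0 : ℂ) 1, ‖conj z ^ k‖ ≤ 1 := by
    intro z hz
    have : ‖z‖ < 1 := by simpa using hz
    rw [norm_pow, RCLike.norm_conj]
    exact pow_le_one₀ (norm_nonneg z) this.le
  have mdF : ∀ N, MemLp (fun z => F z - ∑ m ∈ Finset.range N, φ m * z ^ m) 2 μD :=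
    fun N => memLp_tail d.mF N
  have mzk : AEStronglyMeasurable (fun z : ℂ => conj z ^ k) μD :=
    (continuous_conj.pow k).aestronglyMeasurable
  have int1 : ∀ m, Integrable (fun z => (z ^ m * G z) * conj z ^ k) μD := by
    intro m
    have h1 : Integrable (fun z => z ^ m * G z) μD :=
      (memLp_pow_mul d.mG m).integrable (by norm_num)
    refine h1.norm.mono' ((memLp_pow_mul d.mG m).1.mul mzk) ?_
    filter_upwards [ae_restrict_mem measurableSet_ball] with z hz
    rw [norm_mul]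
    calc ‖z ^ m * G z‖ * ‖conj z ^ k‖ ≤ ‖z ^ m * G z‖ * 1 := by
          gcongr
          exact hzk z hz
      _ = _ := mul_one _
  have key : ∀ N, k + 1 ≤ N → ‖c * ((Real.pi / (k + 1) : ℝ) : ℂ)‖ ≤
      Real.sqrt (∫ z, ‖G z‖ ^ 2 ∂μD) * Real.sqrt (eN φ F N) := by
    intro N hN
    have h1 : ∫ z, ∑ m ∈ Finset.range N, φ m * ((z ^ m * G z) * conj z ^ k) ∂μD
        = c * ((Real.pi / (k + 1) : ℝ) : ℂ) := by
      rw [integral_finsetSum _ (fun m _ => (int1 m).const_mul _)]
      simp only [integral_const_mul, pair_pow d.hG d.mG]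
      rw [hc, Finset.sum_mul, ← Finset.sum_subset (Finset.range_mono hN)]
      · refine Finset.sum_congr rfl fun m hm => ?_
        have : m ≤ k := by
          have := Finset.mem_range.1 hm
          omega
        simp only [this, if_true]
        ring
      · intro m _ hm
        have : ¬ m ≤ k := by
          intro h
          exact hm (Finset.mem_range.2 (by omega))
        simp [this]
    have h2 : ∫ z, ∑ m ∈ Finset.range N, φ m * ((z ^ m * G z) * conj z ^ k) ∂μD
        = - ∫ z, G z * ((F z - ∑ m ∈ Finset.range N, φ m * z ^ m) * conj z ^ k) ∂μD := by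
      have e1 : ∀ z, G z * (F z * conj z ^ k) = G z * ((F z - ∑ m ∈ Finset.range N, φ m * z ^ m)
          * conj z ^ k) + ∑ m ∈ Finset.range N, φ m * ((z ^ m * G z) * conj z ^ k) := by
        intro z
        have : ∑ m ∈ Finset.range N, φ m * ((z ^ m * G z) * conj z ^ k)
            = (∑ m ∈ Finset.range N, φ m * z ^ m) * G z * conj z ^ k := by
          rw [Finset.sum_mul, Finset.sum_mul]
          refine Finset.sum_congr rfl fun m _ => ?_
          ring
        rw [this]; ring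
      have h3 := K4 d k
      simp only [e1] at h3
      have i1 : Integrable (fun z => G z * ((F z - ∑ m ∈ Finset.range N, φ m * z ^ m)
          * conj z ^ k)) μD := by
        have i2 : Integrable (fun z => ‖G z‖ * ‖F z - ∑ m ∈ Finset.range N, φ m * z ^ m‖) μD :=
          d.mG.norm.integrable_mul (mdF N).norm
        refine i2.mono' (d.mG.1.mul ((mdF N).1.mul mzk)) ?_
        filter_upwards [ae_restrict_mem measurableSet_ball] with z hz
        rw [norm_mul, norm_mul]
        refine mul_le_mul_of_nonneg_left ?_ (norm_nonneg _)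
        calc ‖F z - ∑ m ∈ Finset.range N, φ m * z ^ m‖ * ‖conj z ^ k‖
            ≤ ‖F z - ∑ m ∈ Finset.range N, φ m * z ^ m‖ * 1 := by
              gcongr
              exact hzk z hz
          _ = _ := mul_one _
      rw [integral_add i1 (integrable_finsetSum _ (fun m _ => (int1 m).const_mul _))] at h3
      linear_combination h3
    rw [← h1, h2, norm_neg]
    have i2 : Integrable (fun z => ‖G z‖ * ‖F z - ∑ m ∈ Finset.range N, φ m * z ^ m‖) μD :=
      d.mG.norm.integrable_mul (mdF N).norm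
    refine (norm_integral_le_of_norm_le i2 ?_).trans (cs d.mG (mdF N))
    filter_upwards [ae_restrict_mem measurableSet_ball] with z hz
    rw [norm_mul, norm_mul]
    refine mul_le_mul_of_nonneg_left ?_ (norm_nonneg _)
    calc ‖F z - ∑ m ∈ Finset.range N, φ m * z ^ m‖ * ‖conj z ^ k‖
        ≤ ‖F z - ∑ m ∈ Finset.range N, φ m * z ^ m‖ * 1 := by
          gcongr
          exact hzk z hz
      _ = _ := mul_one _
  have hlim : Tendsto (fun N => Real.sqrt (∫ z, ‖G z‖ ^ 2 ∂μD) * Real.sqrt (eN φ F N)) atTop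
      (𝓝 0) := by
    have h1 := (Real.continuous_sqrt.tendsto 0).comp (eN_tendsto d.hF d.mF)
    have h2 := h1.const_mul (Real.sqrt (∫ z, ‖G z‖ ^ 2 ∂μD))
    simpa [Function.comp_def] using h2
  have h0 : ‖c * ((Real.pi / (k + 1) : ℝ) : ℂ)‖ ≤ 0 := by
    refine ge_of_tendsto hlim ?_
    filter_upwards [eventually_ge_atTop (k + 1)] with N hN
    exact key N hN
  have h1 : c * ((Real.pi / (k + 1) : ℝ) : ℂ) = 0 := norm_le_zero_iff.1 h0
  have h2 : ((Real.pi / (k + 1) : ℝ) : ℂ) ≠ 0 := by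
    have : (0 : ℝ) < Real.pi / (k + 1) := by positivity
    exact_mod_cast this.ne'
  exact (mul_eq_zero.1 h1).resolve_right h2

/-- The key claim: the distributional product of `G` and the conjugate of `F` on the circle
vanishes only if one factor vanishes. -/
theorem key (d : Data g a φ G f F) : g = 0 ∨ φ = 0 := by
  have h : PowerSeries.mk φ * PowerSeries.mk g = 0 := by
    ext k
    rw [PowerSeries.coeff_mul, Finset.Nat.sum_antidiagonal_eq_sum_range_succ_mk]
    simp only [PowerSeries.coeff_mk, map_zero]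
    exact K5 d k
  rcases mul_eq_zero.1 h with h | h
  · right
    funext n
    have := congrArg (PowerSeries.coeff n) h
    simpa using this
  · left
    funext n
    have := congrArg (PowerSeries.coeff n) h
    simpa using this

end Pool.Agent.S03025Aux.KeyE

namespace Pool.Agent.S03025Aux.RedA
open MeasureTheory Filter Topology Complex ComplexConjugate
open Pool.Agent.S03025Aux.Bergman Pool.Agent.S03025Aux.KeyA Pool.Agent.S03025Aux.KeyB
open Pool.Agent.S03025Aux.KeyC Pool.Agent.S03025Aux.KeyD Pool.Agent.S03025Aux.KeyE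

/-- square summability with Bergman weights -/
def Bg (u : ℕ → ℂ) : Prop := Summable (fun n => ‖u n‖ ^ 2 / ((n : ℝ) + 1))

lemma kernel_isPS {ζ : ℂ} (hζ : ‖ζ‖ < 1) :
    IsPS (fun m => ((m : ℂ) + 1) * ζ ^ m) (fun w => ((1 - ζ * w) ^ 2)⁻¹) := by
  intro w hw
  have hw' : ‖w‖ < 1 := by simpa using hw
  have h1 : ‖ζ * w‖ < 1 := by
    rw [norm_mul]
    nlinarith [norm_nonneg ζ, norm_nonneg w]
  have h2 := hasSum_coe_mul_geometric_of_norm_lt_one h1
  have h3 := hasSum_geometric_of_norm_lt_one h1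
  have hne : 1 - ζ * w ≠ 0 := by
    intro h0
    have : ζ * w = 1 := (sub_eq_zero.1 h0).symm
    rw [this] at h1
    simp at h1
  have h4 := h2.add h3
  have h5 : ζ * w / (1 - ζ * w) ^ 2 + (1 - ζ * w)⁻¹ = ((1 - ζ * w) ^ 2)⁻¹ := by
    field_simp
    ring
  rw [h5] at h4
  refine h4.congr_fun fun m => ?_
  rw [mul_pow]; ring

lemma comb_isPS {z : ℕ → ℂ} (hz : ∀ n, ‖z n‖ < 1) (s : Finset ℕ) (c : ℕ → ℂ) :
    IsPS (fun m => ∑ n ∈ s, c n * (((m : ℂ) + 1) * z n ^ m))
      (fun w => ∑ n ∈ s, c n * ((1 - z n * w) ^ 2)⁻¹) := by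
  intro w hw
  have := hasSum_sum (s := s) (fun n _ => (kernel_isPS (hz n) w hw).mul_left (c n))
  refine this.congr_fun fun m => ?_
  rw [Finset.sum_mul]
  refine Finset.sum_congr rfl fun n _ => ?_
  ring

lemma isPS_sub {a b : ℕ → ℂ} {f g : ℂ → ℂ} (ha : IsPS a f) (hb : IsPS b g) :
    IsPS (fun n => a n - b n) (fun w => f w - g w) := by
  intro w hw
  refine ((ha w hw).sub (hb w hw)).congr_fun fun n => ?_
  ring

lemma bg_kernel {ζ : ℂ} (hζ : ‖ζ‖ < 1) : Bg (fun m => ((m : ℂ) + 1) * ζ ^ m) := by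
  unfold Bg
  have h1 : ‖(‖ζ‖ ^ 2 : ℝ)‖ < 1 := by
    rw [Real.norm_of_nonneg (by positivity)]
    exact pow_lt_one₀ (norm_nonneg _) hζ two_ne_zero
  have h2 := (hasSum_coe_mul_geometric_of_norm_lt_one h1).summable
  have h3 := (hasSum_geometric_of_norm_lt_one h1).summable
  refine (h2.add h3).congr fun m => ?_
  have e1 : ‖((m : ℂ) + 1)‖ = (m : ℝ) + 1 := by
    have : ((m : ℂ) + 1) = (((m : ℝ) + 1 : ℝ) : ℂ) := by push_cast; ring
    rw [this, Complex.norm_real, Real.norm_of_nonneg (by positivity)]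
  rw [norm_mul, e1, norm_pow]
  field_simp
  ring

lemma memLp_kernel {ζ : ℂ} (hζ : ‖ζ‖ < 1) : MemLp (fun w => ((1 - ζ * w) ^ 2)⁻¹) 2 μD :=
  memLp_of (kernel_isPS hζ).aesm ((kernel_isPS hζ).integrable_of_summable (bg_kernel hζ))

lemma memLp_comb {z : ℕ → ℂ} (hz : ∀ n, ‖z n‖ < 1) (s : Finset ℕ) (c : ℕ → ℂ) :
    MemLp (fun w => ∑ n ∈ s, c n * ((1 - z n * w) ^ 2)⁻¹) 2 μD := by
  have := memLp_finsetSum (μ := μD) (p := 2) s
    (f := fun n w => c n * ((1 - z n * w) ^ 2)⁻¹)
    (fun n _ => (memLp_kernel (hz n)).const_mul (c n))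
  exact this

lemma bg_of_memLp {a : ℕ → ℂ} {f : ℂ → ℂ} (hf : IsPS a f) (mf : MemLp f 2 μD) : Bg a :=
  hf.summable_of_integrable ((memLp_two_iff_integrable_sq_norm hf.aesm).1 mf)

/-- the weighted vector in the sequence space -/
noncomputable def vec (u : ℕ → ℂ) (hu : Bg u) : lp (fun _ : ℕ => ℂ) 2 :=
  ⟨fun m => (((Real.sqrt ((m : ℝ) + 1))⁻¹ : ℝ) : ℂ) * u m, by
    refine memℓp_gen ?_
    refine Summable.congr hu fun m => ?_
    have h0 : (0 : ℝ) ≤ (m : ℝ) + 1 := by positivity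
    simp only [ENNReal.toReal_ofNat, Real.rpow_ofNat]
    rw [norm_mul, Complex.norm_real, Real.norm_of_nonneg (by positivity), mul_pow, inv_pow,
      Real.sq_sqrt h0]
    ring⟩

lemma vec_apply (u : ℕ → ℂ) (hu : Bg u) (m : ℕ) :
    (vec u hu : ℕ → ℂ) m = (((Real.sqrt ((m : ℝ) + 1))⁻¹ : ℝ) : ℂ) * u m := rfl

lemma norm_sq_lp (v : lp (fun _ : ℕ => ℂ) 2) : ‖v‖ ^ 2 = ∑' m, ‖(v : ℕ → ℂ) m‖ ^ 2 := by
  have := lp.norm_rpow_eq_tsum (p := 2) (by norm_num) v
  simpa using this

lemma summable_sq_lp (v : lp (fun _ : ℕ => ℂ) 2) : Summable (fun m => ‖(v : ℕ → ℂ) m‖ ^ 2) := by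
  have := (lp.memℓp v).summable (by norm_num)
  simpa using this

lemma exists_annihilator {z : ℕ → ℂ} (hz : ∀ n, ‖z n‖ < 1)
    (h : ∃ h : ℂ → ℂ, DifferentiableOn ℂ h (Metric.ball (0 : ℂ) 1) ∧
        IntegrableOn (fun w => ‖h w‖ ^ 2) (Metric.ball (0 : ℂ) 1) ∧
        ∃ ε : ℝ, 0 < ε ∧ ∀ (s : Finset ℕ) (a : ℕ → ℂ),
          ε ≤ ∫ w in Metric.ball (0 : ℂ) 1,
            ‖h w - ∑ n ∈ s, a n * ((1 - z n * w) ^ 2)⁻¹‖ ^ 2) :
    ∃ g : ℕ → ℂ, g ≠ 0 ∧ Bg g ∧ ∀ n, HasSum (fun m => g m * conj (z n) ^ m) 0 := by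
  obtain ⟨hh, hd, hi, ε, hε, hall⟩ := h
  obtain ⟨b, hb⟩ := exists_isPS hd
  have hbB : Bg b := hb.summable_of_integrable hi
  have mh : MemLp hh 2 μD := memLp_of hb.aesm hi
  have hpi := Real.pi_pos
  set xk : ℕ → lp (fun _ : ℕ => ℂ) 2 := fun n => vec _ (bg_kernel (hz n)) with hxk
  set W : Submodule ℂ (lp (fun _ : ℕ => ℂ) 2) := Submodule.span ℂ (Set.range xk) with hW
  have hne : Wᗮ ≠ ⊥ := by
    intro hbot
    have htop := (Submodule.topologicalClosure_eq_top_iff (K := W)).2 hbot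
    have hmem : vec b hbB ∈ W.topologicalClosure := by rw [htop]; trivial
    have hmem2 : vec b hbB ∈ closure (W : Set (lp (fun _ : ℕ => ℂ) 2)) := hmem
    rw [Metric.mem_closure_iff] at hmem2
    obtain ⟨y, hy, hdist⟩ := hmem2 (Real.sqrt (ε / Real.pi)) (Real.sqrt_pos.2 (by positivity))
    obtain ⟨c, hc⟩ := (Finsupp.mem_span_range_iff_exists_finsupp).1 hy
    have hcoord : ∀ m, ((vec b hbB - y : lp (fun _ : ℕ => ℂ) 2) : ℕ → ℂ) m
        = (((Real.sqrt ((m : ℝ) + 1))⁻¹ : ℝ) : ℂ) *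
          (b m - ∑ n ∈ c.support, c n * (((m : ℂ) + 1) * z n ^ m)) := by
      intro m
      rw [lp.coeFn_sub, Pi.sub_apply, vec_apply, ← hc, Finsupp.sum, lp.coeFn_sum,
        Finset.sum_apply]
      simp only [lp.coeFn_smul, Pi.smul_apply, hxk, vec_apply, smul_eq_mul]
      rw [mul_sub, Finset.mul_sum]
      congr 1
      refine Finset.sum_congr rfl fun n _ => ?_
      ring
    have hps := (isPS_sub hb (comb_isPS hz c.support c)).parseval_norm
      (mh.sub (memLp_comb hz c.support c))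
    have hnorm : ‖vec b hbB - y‖ ^ 2 * Real.pi
        = ∫ w in Metric.ball (0 : ℂ) 1, ‖hh w - ∑ n ∈ c.support, c n * ((1 - z n * w) ^ 2)⁻¹‖ ^ 2 := by
      rw [← hps.tsum_eq, norm_sq_lp, ← tsum_mul_right]
      refine tsum_congr fun m => ?_
      have h0 : (0 : ℝ) ≤ (m : ℝ) + 1 := by positivity
      rw [hcoord, norm_mul, Complex.norm_real, Real.norm_of_nonneg (by positivity), mul_pow,
        inv_pow, Real.sq_sqrt h0]
      ring
    have h1 := hall c.support c
    rw [← hnorm] at h1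
    rw [dist_eq_norm] at hdist
    have h2 : ‖vec b hbB - y‖ ^ 2 < ε / Real.pi := by
      have h3 := pow_lt_pow_left₀ hdist (norm_nonneg _) two_ne_zero
      rwa [Real.sq_sqrt (by positivity)] at h3
    rw [lt_div_iff₀ hpi] at h2
    linarith
  obtain ⟨g0, hg0, hg0ne⟩ := Submodule.exists_mem_ne_zero_of_ne_bot hne
  refine ⟨fun m => ((Real.sqrt ((m : ℝ) + 1) : ℝ) : ℂ) * (g0 : ℕ → ℂ) m, ?_, ?_, ?_⟩
  · intro hzero
    apply hg0ne
    ext m
    have h1 := congrFun hzero m
    have h2 : ((Real.sqrt ((m : ℝ) + 1) : ℝ) : ℂ) ≠ 0 := by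
      have : 0 < Real.sqrt ((m : ℝ) + 1) := Real.sqrt_pos.2 (by positivity)
      exact_mod_cast this.ne'
    simpa [h2] using h1
  · refine Summable.congr (summable_sq_lp g0) fun m => ?_
    have h0 : (0 : ℝ) < (m : ℝ) + 1 := by positivity
    rw [norm_mul, Complex.norm_real, Real.norm_of_nonneg (by positivity), mul_pow,
      Real.sq_sqrt h0.le]
    field_simp
  · intro n
    have h1 : inner ℂ (xk n) g0 = 0 :=
      (Submodule.mem_orthogonal W g0).1 hg0 _ (Submodule.subset_span ⟨n, rfl⟩)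
    have h2 := lp.hasSum_inner (𝕜 := ℂ) (xk n) g0
    rw [h1] at h2
    refine h2.congr_fun fun m => ?_
    have h0 : (0 : ℝ) < (m : ℝ) + 1 := by positivity
    have h3 : ((m : ℂ) + 1) = ((Real.sqrt ((m : ℝ) + 1) : ℝ) : ℂ) *
        ((Real.sqrt ((m : ℝ) + 1) : ℝ) : ℂ) := by
      rw [← Complex.ofReal_mul, Real.mul_self_sqrt h0.le]; push_cast; ring
    have h4 : ((Real.sqrt ((m : ℝ) + 1) : ℝ) : ℂ) ≠ 0 := by
      have : 0 < Real.sqrt ((m : ℝ) + 1) := Real.sqrt_pos.2 (by positivity)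
      exact_mod_cast this.ne'
    simp only [hxk, vec_apply, RCLike.inner_apply, map_mul, conj_ofReal, map_add, conj_natCast,
      map_one, map_pow]
    rw [h3]
    push_cast
    field_simp

end Pool.Agent.S03025Aux.RedA

namespace Pool.Agent.S03025Aux.RedB
open MeasureTheory Filter Topology Complex ComplexConjugate
open Pool.Agent.S03025Aux.Bergman Pool.Agent.S03025Aux.KeyA Pool.Agent.S03025Aux.KeyB
open Pool.Agent.S03025Aux.KeyC Pool.Agent.S03025Aux.KeyD Pool.Agent.S03025Aux.KeyE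
open Pool.Agent.S03025Aux.RedA

/-- Bergman pairing of coefficient sequences -/
noncomputable def PP (v u : ℕ → ℂ) : ℂ := ∑' n : ℕ, v n * conj (u n) * (((n : ℝ) + 1)⁻¹ : ℝ)

noncomputable def N2 (u : ℕ → ℂ) : ℝ := ∑' n : ℕ, ‖u n‖ ^ 2 / ((n : ℝ) + 1)

lemma N2_nonneg (u : ℕ → ℂ) : 0 ≤ N2 u := tsum_nonneg fun n => by positivity

lemma pp_summable {v u : ℕ → ℂ} (hv : Bg v) (hu : Bg u) :
    Summable (fun n : ℕ => v n * conj (u n) * (((n : ℝ) + 1)⁻¹ : ℝ)) := by
  refine Summable.of_norm_bounded (summable_mul hv hu) fun n => ?_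
  rw [norm_mul, norm_mul, RCLike.norm_conj, Complex.norm_real, Real.norm_of_nonneg (by positivity)]
  exact le_of_eq rfl

lemma pp_bound {v u : ℕ → ℂ} (hv : Bg v) (hu : Bg u) :
    ‖PP v u‖ ≤ Real.sqrt (N2 v) * Real.sqrt (N2 u) := by
  have hs := summable_mul hv hu
  have h1 : ‖PP v u‖ ≤ ∑' n : ℕ, ‖v n‖ * ‖u n‖ / ((n : ℝ) + 1) := by
    refine tsum_of_norm_bounded hs.hasSum fun n => ?_
    rw [norm_mul, norm_mul, RCLike.norm_conj, Complex.norm_real,
      Real.norm_of_nonneg (by positivity)]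
    exact le_of_eq rfl
  refine h1.trans ?_
  have h2 := Real.inner_le_Lp_mul_Lq_tsum_of_nonneg (p := 2) (q := 2)
    (f := fun n => ‖v n‖ / Real.sqrt ((n : ℝ) + 1)) (g := fun n => ‖u n‖ / Real.sqrt ((n : ℝ) + 1))
    (by constructor <;> norm_num) (fun n => by positivity) (fun n => by positivity)
    (by
      refine Summable.congr hv fun n => ?_
      rw [Real.rpow_ofNat, div_pow, Real.sq_sqrt (by positivity)])
    (by
      refine Summable.congr hu fun n => ?_
      rw [Real.rpow_ofNat, div_pow, Real.sq_sqrt (by positivity)])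
  have e1 : ∀ n : ℕ, ‖v n‖ / Real.sqrt ((n : ℝ) + 1) * (‖u n‖ / Real.sqrt ((n : ℝ) + 1))
      = ‖v n‖ * ‖u n‖ / ((n : ℝ) + 1) := by
    intro n
    rw [div_mul_div_comm, Real.mul_self_sqrt (by positivity)]
  have e2 : ∀ n : ℕ, (‖v n‖ / Real.sqrt ((n : ℝ) + 1)) ^ (2 : ℝ) = ‖v n‖ ^ 2 / ((n : ℝ) + 1) := by
    intro n
    rw [Real.rpow_ofNat, div_pow, Real.sq_sqrt (by positivity)]
  have e3 : ∀ n : ℕ, (‖u n‖ / Real.sqrt ((n : ℝ) + 1)) ^ (2 : ℝ) = ‖u n‖ ^ 2 / ((n : ℝ) + 1) := by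
    intro n
    rw [Real.rpow_ofNat, div_pow, Real.sq_sqrt (by positivity)]
  simp only [e1, e2, e3] at h2
  simpa [Real.sqrt_eq_rpow, N2] using h2

lemma bg_sub {v u : ℕ → ℂ} (hv : Bg v) (hu : Bg u) : Bg (fun n => v n - u n) := by
  unfold Bg at *
  refine Summable.of_nonneg_of_le (fun n => by positivity) (fun n => ?_)
    ((hv.mul_left 2).add (hu.mul_left 2))
  rw [← mul_div_assoc, ← mul_div_assoc, ← add_div]
  gcongr
  have h1 := norm_sub_le (v n) (u n)
  have h2 : ‖v n - u n‖ ^ 2 ≤ (‖v n‖ + ‖u n‖) ^ 2 := by gcongr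
  nlinarith [sq_nonneg (‖v n‖ - ‖u n‖)]

lemma pp_sub {v u w : ℕ → ℂ} (hv : Bg v) (hu : Bg u) (hw : Bg w) :
    PP v (fun n => u n - w n) = PP v u - PP v w := by
  unfold PP
  rw [← (pp_summable hv hu).tsum_sub (pp_summable hv hw)]
  refine tsum_congr fun n => ?_
  rw [map_sub]; ring

/-- coefficients of a kernel combination -/
noncomputable def AA (z : ℕ → ℂ) (s : Finset ℕ) (c : ℕ → ℂ) (m : ℕ) : ℂ :=
  ∑ n ∈ s, c n * (((m : ℂ) + 1) * z n ^ m)

lemma aa_isPS {z : ℕ → ℂ} (hz : ∀ n, ‖z n‖ < 1) (s : Finset ℕ) (c : ℕ → ℂ) :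
    IsPS (AA z s c) (fun w => ∑ n ∈ s, c n * ((1 - z n * w) ^ 2)⁻¹) := comb_isPS hz s c

lemma bg_aa {z : ℕ → ℂ} (hz : ∀ n, ‖z n‖ < 1) (s : Finset ℕ) (c : ℕ → ℂ) : Bg (AA z s c) :=
  bg_of_memLp (aa_isPS hz s c) (memLp_comb hz s c)

lemma summable_of_bg {v : ℕ → ℂ} (hv : Bg v) {ρ : ℝ} (h0 : 0 ≤ ρ) (h1 : ρ < 1) :
    Summable (fun n => ‖v n‖ * ρ ^ n) := by
  have hk := bg_kernel (ζ := (ρ : ℂ)) (by simpa [abs_of_nonneg h0] using h1)
  refine Summable.of_nonneg_of_le (fun n => by positivity) (fun n => ?_) (summable_mul hv hk)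
  have e1 : ‖((n : ℂ) + 1)‖ = (n : ℝ) + 1 := by
    have : ((n : ℂ) + 1) = (((n : ℝ) + 1 : ℝ) : ℂ) := by push_cast; ring
    rw [this, Complex.norm_real, Real.norm_of_nonneg (by positivity)]
  apply le_of_eq
  rw [norm_mul, e1, norm_pow, Complex.norm_real, Real.norm_of_nonneg h0]
  field_simp

lemma isPS_of_bg {v : ℕ → ℂ} (hv : Bg v) : IsPS v (fun w => ∑' n, v n * w ^ n) :=
  isPS_tsum fun _ h0 h1 => summable_of_bg hv h0 h1

lemma pp_aa {v z : ℕ → ℂ} (hv : Bg v) (hz : ∀ n, ‖z n‖ < 1) (s : Finset ℕ) (c : ℕ → ℂ) :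
    PP v (AA z s c) = ∑ l ∈ s, conj (c l) * ∑' n, v n * conj (z l) ^ n := by
  have h1 : ∀ l, HasSum (fun n => v n * conj (z l) ^ n) (∑' n, v n * conj (z l) ^ n) := by
    intro l
    exact isPS_of_bg hv (conj (z l)) (by simpa using hz l)
  have h2 := hasSum_sum (s := s) (fun l _ => (h1 l).mul_left (conj (c l)))
  unfold PP
  rw [← h2.tsum_eq]
  refine tsum_congr fun n => ?_
  have h3 : ((((n : ℝ) + 1)⁻¹ : ℝ) : ℂ) = ((n : ℂ) + 1)⁻¹ := by push_cast; ring
  have h4 : ((n : ℂ) + 1) ≠ 0 := by exact_mod_cast Nat.succ_ne_zero n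
  rw [h3]
  unfold AA
  rw [map_sum, Finset.mul_sum, Finset.sum_mul]
  refine Finset.sum_congr rfl fun l _ => ?_
  simp only [map_mul, map_add, conj_natCast, map_one, map_pow]
  field_simp

/-- forward shift -/
lemma bg_shift {g : ℕ → ℂ} (hg : Bg g) (k : ℕ) : Bg (fun n => if k ≤ n then g (n - k) else 0) := by
  have h1 := isPS_of_bg hg
  have m1 : MemLp (fun w => ∑' n, g n * w ^ n) 2 μD :=
    memLp_of h1.aesm (h1.integrable_of_summable hg)
  exact bg_of_memLp (shift h1 k) (memLp_pow_mul m1 k)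

/-- backward shift -/
lemma bg_back {g : ℕ → ℂ} (hg : Bg g) (k : ℕ) : Bg (fun n => g (n + 1 + k)) ∧
    N2 (fun n => g (n + 1 + k)) ≤ ((k : ℝ) + 2) * N2 g := by
  have h1 : Summable (fun n : ℕ => ‖g (n + (1 + k))‖ ^ 2 / (((n + (1 + k) : ℕ) : ℝ) + 1)) :=
    (summable_nat_add_iff (f := fun n : ℕ => ‖g n‖ ^ 2 / ((n : ℝ) + 1)) (1 + k)).2 hg
  have hb : ∀ n : ℕ, ‖g (n + 1 + k)‖ ^ 2 / ((n : ℝ) + 1) ≤
      ((k : ℝ) + 2) * (‖g (n + (1 + k))‖ ^ 2 / (((n + (1 + k) : ℕ) : ℝ) + 1)) := by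
    intro n
    rw [← add_assoc n 1 k]
    have hn : (0 : ℝ) ≤ n := Nat.cast_nonneg n
    have hk : (0 : ℝ) ≤ k := Nat.cast_nonneg k
    push_cast
    rw [← mul_div_assoc, div_le_div_iff₀ (by positivity) (by positivity)]
    have : (n : ℝ) + 1 + k + 1 ≤ (k + 2) * (n + 1) := by nlinarith
    nlinarith [sq_nonneg ‖g (n + 1 + k)‖]
  have hs : Summable (fun n : ℕ => ‖g (n + 1 + k)‖ ^ 2 / ((n : ℝ) + 1)) :=
    Summable.of_nonneg_of_le (fun n => by positivity) hb (h1.mul_left _)
  refine ⟨hs, ?_⟩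
  unfold N2
  calc ∑' n : ℕ, ‖g (n + 1 + k)‖ ^ 2 / ((n : ℝ) + 1)
      ≤ ∑' n : ℕ, ((k : ℝ) + 2) * (‖g (n + (1 + k))‖ ^ 2 / (((n + (1 + k) : ℕ) : ℝ) + 1)) :=
        hs.tsum_le_tsum hb (h1.mul_left _)
    _ = ((k : ℝ) + 2) * ∑' n : ℕ, (‖g (n + (1 + k))‖ ^ 2 / (((n + (1 + k) : ℕ) : ℝ) + 1)) :=
        tsum_mul_left
    _ ≤ ((k : ℝ) + 2) * ∑' n : ℕ, (‖g n‖ ^ 2 / ((n : ℝ) + 1)) := by
        refine mul_le_mul_of_nonneg_left ?_ (by positivity)
        rw [← Summable.sum_add_tsum_nat_add (f := fun n : ℕ => ‖g n‖ ^ 2 / ((n : ℝ) + 1)) (1 + k) hg]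
        have : 0 ≤ ∑ i ∈ Finset.range (1 + k), ‖g i‖ ^ 2 / ((i : ℝ) + 1) :=
          Finset.sum_nonneg fun i _ => by positivity
        linarith

lemma back_summable {g u : ℕ → ℂ} (hg : Bg g) (hu : Bg u) {x : ℂ} (hx : ‖x‖ < 1) :
    Summable (fun k => ‖PP (fun n => g (n + 1 + k)) u * x ^ k‖) ∧
    ∑' k, ‖PP (fun n => g (n + 1 + k)) u * x ^ k‖ ≤
      (∑' k : ℕ, ((k : ℝ) + 2) * ‖x‖ ^ k) * (Real.sqrt (N2 g) * Real.sqrt (N2 u)) := by
  have hxn : ‖‖x‖‖ < 1 := by simpa using hx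
  have s1 : Summable (fun k : ℕ => ((k : ℝ) + 2) * ‖x‖ ^ k) := by
    have h2 := (hasSum_coe_mul_geometric_of_norm_lt_one hxn).summable
    have h3 := (hasSum_geometric_of_norm_lt_one hxn).summable
    refine (h2.add (h3.mul_left 2)).congr fun m => ?_
    ring
  have hb : ∀ k : ℕ, ‖PP (fun n => g (n + 1 + k)) u * x ^ k‖ ≤
      (((k : ℝ) + 2) * ‖x‖ ^ k) * (Real.sqrt (N2 g) * Real.sqrt (N2 u)) := by
    intro k
    obtain ⟨h1, h2⟩ := bg_back hg k
    rw [norm_mul, norm_pow]
    have h3 := pp_bound h1 hu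
    have h4 : Real.sqrt (N2 (fun n => g (n + 1 + k))) ≤ ((k : ℝ) + 2) * Real.sqrt (N2 g) := by
      refine (Real.sqrt_le_sqrt h2).trans ?_
      rw [Real.sqrt_mul (by positivity)]
      refine mul_le_mul_of_nonneg_right ?_ (Real.sqrt_nonneg _)
      rw [Real.sqrt_le_left (by positivity)]
      nlinarith [(Nat.cast_nonneg k : (0 : ℝ) ≤ k)]
    calc ‖PP (fun n => g (n + 1 + k)) u‖ * ‖x‖ ^ k
        ≤ (Real.sqrt (N2 (fun n => g (n + 1 + k))) * Real.sqrt (N2 u)) * ‖x‖ ^ k := by gcongr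
      _ ≤ ((((k : ℝ) + 2) * Real.sqrt (N2 g)) * Real.sqrt (N2 u)) * ‖x‖ ^ k := by gcongr
      _ = _ := by ring
  have s2 : Summable (fun k => ‖PP (fun n => g (n + 1 + k)) u * x ^ k‖) :=
    Summable.of_nonneg_of_le (fun _ => norm_nonneg _) hb (s1.mul_right _)
  refine ⟨s2, ?_⟩
  rw [← tsum_mul_right]
  exact s2.tsum_le_tsum hb (s1.mul_right _)

/-- difference quotient expansion -/
lemma quotient {g : ℕ → ℂ} (hg : Bg g) {ζ x : ℂ} (hζ : ‖ζ‖ < 1) (hx : ‖x‖ < 1) (hne : x ≠ ζ)
    (h0 : ∑' n, g n * ζ ^ n = 0) :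
    ∑' k, (∑' n, g (n + 1 + k) * ζ ^ n) * x ^ k = (∑' n, g n * x ^ n) / (x - ζ) := by
  have hu : Bg (fun m => ((m : ℂ) + 1) * (conj ζ) ^ m) := bg_kernel (by simpa using hζ)
  have hR : ∀ k, PP (fun n => g (n + 1 + k)) (fun m => ((m : ℂ) + 1) * (conj ζ) ^ m)
      = ∑' n, g (n + 1 + k) * ζ ^ n := by
    intro k
    unfold PP
    refine tsum_congr fun n => ?_
    have h3 : ((((n : ℝ) + 1)⁻¹ : ℝ) : ℂ) = ((n : ℂ) + 1)⁻¹ := by push_cast; ring
    have h4 : ((n : ℂ) + 1) ≠ 0 := by exact_mod_cast Nat.succ_ne_zero n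
    rw [h3]
    simp only [map_mul, map_add, conj_natCast, map_one, map_pow, conj_conj]
    field_simp
  set R : ℕ → ℂ := fun k => ∑' n, g (n + 1 + k) * ζ ^ n with hRdef
  have hs : Summable (fun k => R k * x ^ k) := by
    have := (back_summable hg hu hx).1
    simp only [hR] at this
    exact this.of_norm
  have hrec : ∀ k, R k = g (k + 1) + ζ * R (k + 1) := by
    intro k
    have hb : Bg (fun n => g (n + 1 + k)) := (bg_back hg k).1
    have h1 := isPS_of_bg hb ζ (by simpa using hζ)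
    simp only [hRdef]
    rw [h1.summable.tsum_eq_zero_add, ← tsum_mul_left]
    congr 1
    · simp [add_comm]
    · refine tsum_congr fun n => ?_
      rw [pow_succ]
      have : n + 1 + 1 + k = n + 1 + (k + 1) := by ring
      rw [this]; ring
  have hgx := isPS_of_bg hg x (by simpa using hx)
  have hgζ := isPS_of_bg hg ζ (by simpa using hζ)
  have hxz : x - ζ ≠ 0 := sub_ne_zero.2 hne
  rw [eq_div_iff hxz]
  have e1 : (∑' k, R k * x ^ k) * x = ∑' k, R k * x ^ (k + 1) := by
    rw [← tsum_mul_right]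
    refine tsum_congr fun k => ?_
    rw [pow_succ]; ring
  have hs1 : Summable (fun k => R (k + 1) * x ^ (k + 1)) :=
    (summable_nat_add_iff (f := fun k => R k * x ^ k) 1).2 hs
  have e2 : (∑' k, R k * x ^ k) * ζ = R 0 * ζ + ∑' k, ζ * (R (k + 1) * x ^ (k + 1)) := by
    rw [hs.tsum_eq_zero_add, tsum_mul_left]
    simp
    ring
  have hs2 : Summable (fun k => R k * x ^ (k + 1)) := by
    refine (hs.mul_right x).congr fun k => ?_
    rw [pow_succ]; ring
  have e3 : ∑' k, R k * x ^ (k + 1) - ∑' k, ζ * (R (k + 1) * x ^ (k + 1))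
      = ∑' k, g (k + 1) * x ^ (k + 1) := by
    rw [← hs2.tsum_sub (hs1.mul_left ζ)]
    refine tsum_congr fun k => ?_
    rw [hrec k]; ring
  have e4 : R 0 * ζ = - g 0 := by
    have h1 := hgζ.summable.tsum_eq_zero_add
    rw [h0] at h1
    have h2 : ∑' k, g (k + 1) * ζ ^ (k + 1) = R 0 * ζ := by
      simp only [hRdef]
      rw [← tsum_mul_right]
      refine tsum_congr fun k => ?_
      rw [pow_succ]; simp; ring
    rw [h2] at h1
    simp at h1
    linear_combination -h1
  have e5 := hgx.summable.tsum_eq_zero_add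
  rw [mul_sub, e1, e2, e5, e4]
  simp only [pow_zero, mul_one]
  linear_combination e3

end Pool.Agent.S03025Aux.RedB

namespace Pool.Agent.S03025Aux.RedC
open MeasureTheory Filter Topology Complex ComplexConjugate
open Pool.Agent.S03025Aux.Bergman Pool.Agent.S03025Aux.KeyA Pool.Agent.S03025Aux.KeyB
open Pool.Agent.S03025Aux.KeyC Pool.Agent.S03025Aux.KeyD Pool.Agent.S03025Aux.KeyE
open Pool.Agent.S03025Aux.RedA Pool.Agent.S03025Aux.RedB

/-- limit of the pairings -/
lemma pp_tendsto {v a : ℕ → ℂ} {A : ℕ → ℕ → ℂ} (hv : Bg v) (ha : Bg a) (hA : ∀ j, Bg (A j))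
    (hlim : Tendsto (fun j => N2 (fun n => A j n - a n)) atTop (𝓝 0)) :
    Tendsto (fun j => PP v (A j)) atTop (𝓝 (PP v a)) := by
  rw [tendsto_iff_norm_sub_tendsto_zero]
  have h1 : Tendsto (fun j => Real.sqrt (N2 v) * Real.sqrt (N2 (fun n => A j n - a n))) atTop
      (𝓝 0) := by
    have h1 := (Real.continuous_sqrt.tendsto 0).comp hlim
    have h2 := h1.const_mul (Real.sqrt (N2 v))
    simpa [Function.comp_def] using h2
  refine squeeze_zero (fun _ => norm_nonneg _) (fun j => ?_) h1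
  rw [← pp_sub hv (hA j) ha]
  exact pp_bound hv (bg_sub (hA j) ha)

lemma uu_tendsto {g a : ℕ → ℂ} {A : ℕ → ℕ → ℂ} (hg : Bg g) (ha : Bg a) (hA : ∀ j, Bg (A j))
    (hlim : Tendsto (fun j => N2 (fun n => A j n - a n)) atTop (𝓝 0)) {x : ℂ} (hx : ‖x‖ < 1) :
    Tendsto (fun j => ∑' k, PP (fun n => g (n + 1 + k)) (A j) * x ^ k) atTop
      (𝓝 (∑' k, PP (fun n => g (n + 1 + k)) a * x ^ k)) := by
  rw [tendsto_iff_norm_sub_tendsto_zero]
  have h1 : Tendsto (fun j => (∑' k : ℕ, ((k : ℝ) + 2) * ‖x‖ ^ k) *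
      (Real.sqrt (N2 g) * Real.sqrt (N2 (fun n => A j n - a n)))) atTop (𝓝 0) := by
    have h1 := (Real.continuous_sqrt.tendsto 0).comp hlim
    have h2 := (h1.const_mul (Real.sqrt (N2 g))).const_mul (∑' k : ℕ, ((k : ℝ) + 2) * ‖x‖ ^ k)
    simpa [Function.comp_def] using h2
  refine squeeze_zero (fun _ => norm_nonneg _) (fun j => ?_) h1
  have hs1 := (back_summable hg (hA j) hx).1.of_norm
  have hs2 := (back_summable hg ha hx).1.of_norm
  have hs3 := back_summable hg (bg_sub (hA j) ha) hx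
  rw [← hs1.tsum_sub hs2]
  have e1 : ∀ k, PP (fun n => g (n + 1 + k)) (A j) * x ^ k - PP (fun n => g (n + 1 + k)) a * x ^ k
      = PP (fun n => g (n + 1 + k)) (fun n => A j n - a n) * x ^ k := by
    intro k
    rw [pp_sub (bg_back hg k).1 (hA j) ha]; ring
  simp only [e1]
  exact (norm_tsum_le_tsum_norm hs3.1).trans hs3.2

lemma uu_formula {g z : ℕ → ℂ} (hg : Bg g) (hz : ∀ n, ‖z n‖ < 1)
    (hann : ∀ n, HasSum (fun m => g m * conj (z n) ^ m) 0) (s : Finset ℕ) (c : ℕ → ℂ) {x : ℂ}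
    (hx : ‖x‖ < 1) (hne : ∀ n, x ≠ conj (z n)) :
    ∑' k, PP (fun n => g (n + 1 + k)) (AA z s c) * x ^ k
      = (∑' n, g n * x ^ n) * ∑ l ∈ s, conj (c l) / (x - conj (z l)) := by
  have h1 : ∀ k, PP (fun n => g (n + 1 + k)) (AA z s c) * x ^ k
      = ∑ l ∈ s, conj (c l) * ((∑' n, g (n + 1 + k) * conj (z l) ^ n) * x ^ k) := by
    intro k
    rw [pp_aa (bg_back hg k).1 hz, Finset.sum_mul]
    refine Finset.sum_congr rfl fun l _ => ?_
    ring
  have h2 : ∀ l, Summable (fun k => (∑' n, g (n + 1 + k) * conj (z l) ^ n) * x ^ k) := by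
    intro l
    have hzl : ‖z l‖ < 1 := hz l
    have := (back_summable hg (bg_kernel hzl) hx).1.of_norm
    refine this.congr fun k => ?_
    congr 1
    unfold PP
    refine tsum_congr fun n => ?_
    have h3 : ((((n : ℝ) + 1)⁻¹ : ℝ) : ℂ) = ((n : ℂ) + 1)⁻¹ := by push_cast; ring
    have h4 : ((n : ℂ) + 1) ≠ 0 := by exact_mod_cast Nat.succ_ne_zero n
    rw [h3]
    simp only [map_mul, map_add, conj_natCast, map_one, map_pow]
    field_simp
  simp only [h1]
  rw [Summable.tsum_finsetSum (fun l _ => (h2 l).mul_left _), Finset.mul_sum]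
  refine Finset.sum_congr rfl fun l _ => ?_
  rw [tsum_mul_left, quotient hg (by simpa using hz l) hx (hne l) (hann l).tsum_eq]
  ring

lemma isPS_zero_of_arc {v : ℕ → ℂ} {V : ℂ → ℂ} (hV : IsPS v V) {x : ℝ → ℂ} {δ : ℝ} (hδ : 0 < δ)
    (hx : ContinuousAt x 0) (hx1 : ‖x 0‖ < 1) (hinj : ∀ t, |t| < δ → t ≠ 0 → x t ≠ x 0)
    (hzero : ∀ t, |t| < δ → V (x t) = 0) : v = 0 := by
  have han : AnalyticOnNhd ℂ V (Metric.ball (0 : ℂ) 1) :=
    hV.differentiableOn.analyticOnNhd Metric.isOpen_ball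
  have hmem : x 0 ∈ Metric.ball (0 : ℂ) 1 := by simpa using hx1
  have hev : ∀ᶠ t in 𝓝[≠] (0 : ℝ), |t| < δ := by
    have : ∀ᶠ t in 𝓝 (0 : ℝ), |t| < δ := by
      have h1 : Tendsto (fun t : ℝ => |t|) (𝓝 0) (𝓝 0) := by
        simpa using (continuous_abs.tendsto (0 : ℝ))
      exact h1.eventually (gt_mem_nhds hδ)
    exact this.filter_mono nhdsWithin_le_nhds
  have ht : Tendsto x (𝓝[≠] (0 : ℝ)) (𝓝[≠] (x 0)) := by
    refine tendsto_nhdsWithin_iff.2 ⟨hx.tendsto.mono_left nhdsWithin_le_nhds, ?_⟩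
    filter_upwards [hev, self_mem_nhdsWithin] with t h1 h2
    exact hinj t h1 h2
  have hfr : ∃ᶠ w in 𝓝[≠] (x 0), V w = 0 := by
    refine ht.frequently ?_
    refine Eventually.frequently ?_
    filter_upwards [hev] with t h1
    exact hzero t h1
  have h0 := han.eqOn_zero_of_preconnected_of_frequently_eq_zero
    (convex_ball (0 : ℂ) 1).isPreconnected hmem hfr
  have h1 : IsPS (fun _ => 0) V := by
    intro w hw
    rw [h0 hw]
    simp
  exact hV.unique h1

/-- coefficients of the antiderivative -/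
noncomputable def ph (b : ℂ) (a : ℕ → ℂ) : ℕ → ℂ
  | 0 => -conj b
  | (m + 1) => a m / ((m : ℂ) + 1)

lemma bg_ph (b : ℂ) {a : ℕ → ℂ} (ha : Bg a) : Bg (ph b a) := by
  unfold Bg
  rw [← summable_nat_add_iff 1]
  refine Summable.of_nonneg_of_le (fun n => by positivity) (fun n => ?_) ha
  have e1 : ‖((n : ℂ) + 1)‖ = (n : ℝ) + 1 := by
    have : ((n : ℂ) + 1) = (((n : ℝ) + 1 : ℝ) : ℂ) := by push_cast; ring
    rw [this, Complex.norm_real, Real.norm_of_nonneg (by positivity)]
  have e2 : ph b a (n + 1) = a n / ((n : ℂ) + 1) := rfl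
  rw [e2, norm_div, e1]
  have hn : (0 : ℝ) ≤ n := Nat.cast_nonneg n
  push_cast
  rw [div_pow, div_div]
  refine div_le_div_of_nonneg_left (by positivity) (by positivity) ?_
  nlinarith [sq_nonneg ((n : ℝ) + 1)]

/-- final step: from the vanishing of all pairings -/
lemma final {g a : ℕ → ℂ} {f : ℂ → ℂ} (hg : Bg g) (hgne : g ≠ 0) (hf : IsPS a f)
    (mf : MemLp f 2 μD) (b : ℂ)
    (hσ : ∀ k, PP (fun n => if k ≤ n then g (n - k) else 0) a = 0)
    (hτ : ∀ k, PP (fun n => g (n + 1 + k)) a = b * g k) :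
    ∀ w ∈ Metric.ball (0 : ℂ) 1, f w = 0 := by
  have ha : Bg a := bg_of_memLp hf mf
  have hph : Bg (ph b a) := bg_ph b ha
  have h1 := isPS_of_bg hg
  have m1 : MemLp (fun w => ∑' n, g n * w ^ n) 2 μD :=
    memLp_of h1.aesm (h1.integrable_of_summable hg)
  have h2 := isPS_of_bg hph
  have m2 : MemLp (fun w => ∑' n, ph b a n * w ^ n) 2 μD :=
    memLp_of h2.aesm (h2.integrable_of_summable hph)
  have hB : ∀ k, ∑' m, g (m + k) * conj (ph b a m) = 0 := by
    intro k
    have e1 : ∀ n : ℕ, g (n + 1 + k) * conj (ph b a (n + 1))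
        = g (n + 1 + k) * conj (a n) * (((n : ℝ) + 1)⁻¹ : ℝ) := by
      intro n
      have e2 : ph b a (n + 1) = a n / ((n : ℂ) + 1) := rfl
      rw [e2, map_div₀, map_add, conj_natCast, map_one]
      push_cast
      ring
    have hs : Summable (fun n => g (n + 1 + k) * conj (ph b a (n + 1))) := by
      simp only [e1]
      exact pp_summable (bg_back hg k).1 ha
    have hs' : Summable (fun m => g (m + k) * conj (ph b a m)) :=
      (summable_nat_add_iff (f := fun m => g (m + k) * conj (ph b a m)) 1).1 hs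
    rw [hs'.tsum_eq_zero_add]
    simp only [e1]
    have h3 := hτ k
    unfold PP at h3
    rw [h3]
    have e3 : ph b a 0 = -conj b := rfl
    rw [e3]
    simp
    ring
  have hA : ∀ k, ∑' m, g m * conj (ph b a (m + k)) = 0 := by
    intro k
    rcases k with _ | k
    · simpa using hB 0
    · have h3 := hσ k
      unfold PP at h3
      have hs := pp_summable (bg_shift hg k) ha
      have h4 : HasSum (fun n : ℕ => (if k ≤ n then g (n - k) else 0) * conj (a n) *
          ((((n : ℝ) + 1)⁻¹ : ℝ) : ℂ)) 0 := by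
        have h6 := hs.hasSum
        convert! h6 using 1
        exact h3.symm
      have h5 : HasSum ((fun n : ℕ => (if k ≤ n then g (n - k) else 0) * conj (a n) *
          ((((n : ℝ) + 1)⁻¹ : ℝ) : ℂ)) ∘ (fun m => m + k)) 0 := by
        rw [(add_left_injective k).hasSum_iff]
        · exact h4
        · intro n hn
          have : ¬ k ≤ n := by
            intro hcn
            exact hn ⟨n - k, by simp [Nat.sub_add_cancel hcn]⟩
          simp [this]
      rw [← h5.tsum_eq]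
      refine tsum_congr fun m => ?_
      have e2 : ph b a (m + (k + 1)) = a (m + k) / (((m + k : ℕ) : ℂ) + 1) := rfl
      rw [e2, map_div₀, map_add, conj_natCast, map_one]
      simp only [Function.comp_apply, le_add_iff_nonneg_left, zero_le, if_true,
        Nat.add_sub_cancel]
      push_cast
      ring
  have d : Data g a (ph b a) (fun w => ∑' n, g n * w ^ n) f (fun w => ∑' n, ph b a n * w ^ n) :=
    { hG := h1
      hf := hf
      hF := h2
      haφ := by
        intro m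
        have e2 : ph b a (m + 1) = a m / ((m : ℂ) + 1) := rfl
        have h4 : ((m : ℂ) + 1) ≠ 0 := by exact_mod_cast Nat.succ_ne_zero m
        rw [e2]
        field_simp
      mG := m1
      mf := mf
      mF := m2
      hA := hA
      hB := hB }
  have h0 : ph b a = 0 := (key d).resolve_left hgne
  have ha0 : ∀ m, a m = 0 := by
    intro m
    have := congrFun h0 (m + 1)
    have e2 : ph b a (m + 1) = a m / ((m : ℂ) + 1) := rfl
    have h4 : ((m : ℂ) + 1) ≠ 0 := by exact_mod_cast Nat.succ_ne_zero m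
    rw [e2] at this
    simpa [h4] using this
  intro w hw
  have h3 := hf w hw
  simp only [ha0, zero_mul] at h3
  exact h3.unique hasSum_zero

theorem main (z : ℕ → ℂ) (hz : ∀ n, ‖z n‖ < 1)
    (h : ∃ h : ℂ → ℂ, DifferentiableOn ℂ h (Metric.ball (0 : ℂ) 1) ∧
        IntegrableOn (fun w => ‖h w‖ ^ 2) (Metric.ball (0 : ℂ) 1) ∧
        ∃ ε : ℝ, 0 < ε ∧ ∀ (s : Finset ℕ) (a : ℕ → ℂ),
          ε ≤ ∫ w in Metric.ball (0 : ℂ) 1,
            ‖h w - ∑ n ∈ s, a n * ((1 - z n * w) ^ 2)⁻¹‖ ^ 2)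
    (S : ℕ → Finset ℕ) (c : ℕ → ℕ → ℂ) (f : ℂ → ℂ)
    (hfd : DifferentiableOn ℂ f (Metric.ball (0 : ℂ) 1))
    (hfi : IntegrableOn (fun w => ‖f w‖ ^ 2) (Metric.ball (0 : ℂ) 1))
    (hlim : Tendsto (fun j : ℕ => ∫ w in Metric.ball (0 : ℂ) 1,
            ‖(∑ n ∈ S j, c j n * ((1 - z n * w) ^ 2)⁻¹) - f w‖ ^ 2) atTop (𝓝 0))
    (c0 : ℂ) (r : ℝ) (hr : 0 < r) (hball : Metric.ball c0 r ⊆ {w : ℂ | 1 < ‖w‖})
    (hunif : TendstoUniformlyOn
            (fun (j : ℕ) (w : ℂ) => ∑ n ∈ S j, c j n * ((1 - z n * w) ^ 2)⁻¹)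
            (fun _ => (0 : ℂ)) atTop (Metric.ball c0 r)) :
    ∀ w ∈ Metric.ball (0 : ℂ) 1, f w = 0 := by
  obtain ⟨g, hgne, hg, hann⟩ := exists_annihilator hz h
  obtain ⟨a, hf⟩ := exists_isPS hfd
  have mf : MemLp f 2 μD := memLp_of hf.aesm hfi
  have ha : Bg a := bg_of_memLp hf mf
  have hA : ∀ j, Bg (AA z (S j) (c j)) := fun j => bg_aa hz (S j) (c j)
  have hpi := Real.pi_pos
  have hN2 : Tendsto (fun j => N2 (fun n => AA z (S j) (c j) n - a n)) atTop (𝓝 0) := by
    have h1 : ∀ j, N2 (fun n => AA z (S j) (c j) n - a n) = Real.pi⁻¹ *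
        ∫ w in Metric.ball (0 : ℂ) 1, ‖(∑ n ∈ S j, c j n * ((1 - z n * w) ^ 2)⁻¹) - f w‖ ^ 2 := by
      intro j
      have h2 := (isPS_sub (aa_isPS hz (S j) (c j)) hf).parseval_norm
        ((memLp_comb hz (S j) (c j)).sub mf)
      rw [← h2.tsum_eq, ← tsum_mul_left]
      unfold N2
      refine tsum_congr fun n => ?_
      field_simp
    simp only [h1]
    simpa using hlim.const_mul (Real.pi⁻¹)
  -- vanishing of the positive pairings
  have hσ : ∀ k, PP (fun n => if k ≤ n then g (n - k) else 0) a = 0 := by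
    intro k
    have h1 := pp_tendsto (bg_shift hg k) ha hA hN2
    have h2 : ∀ j, PP (fun n => if k ≤ n then g (n - k) else 0) (AA z (S j) (c j)) = 0 := by
      intro j
      rw [pp_aa (bg_shift hg k) hz]
      refine Finset.sum_eq_zero fun l _ => ?_
      have h3 := shift (isPS_of_bg hg) k (conj (z l)) (by simpa using hz l)
      rw [h3.tsum_eq]
      change conj (c j l) * (conj (z l) ^ k * ∑' n, g n * conj (z l) ^ n) = 0
      rw [(hann l).tsum_eq]
      ring
    simp only [h2] at h1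
    exact tendsto_nhds_unique h1 tendsto_const_nhds
  -- choice of a horizontal segment that avoids all poles
  obtain ⟨y, hy, hyc⟩ : ∃ y : ℝ, |y| < r / 2 ∧ ∀ n, ((z n)⁻¹).im ≠ c0.im + y := by
    have hcount : (Set.range (fun n => ((z n)⁻¹).im - c0.im)).Countable := Set.countable_range _
    have hd := hcount.dense_compl ℝ
    obtain ⟨y, hy1, hy2⟩ := hd.exists_mem_open (U := Set.Ioo (-(r / 2)) (r / 2)) isOpen_Ioo
      ⟨0, by constructor <;> linarith⟩
    refine ⟨y, abs_lt.2 hy2, fun n hn => hy1 ⟨n, ?_⟩⟩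
    simp only [hn]; ring
  set p : ℝ → ℂ := fun t => c0 + y * I + t with hp
  have hpball : ∀ t, |t| < r / 2 → p t ∈ Metric.ball c0 r := by
    intro t ht
    rw [mem_ball_iff_norm]
    have h1 : p t - c0 = y * I + t := by simp only [hp]; ring
    rw [h1]
    calc ‖(y : ℂ) * I + t‖ ≤ ‖(y : ℂ) * I‖ + ‖(t : ℂ)‖ := norm_add_le _ _
      _ = |y| + |t| := by simp
      _ < r := by linarith
  have hpnorm : ∀ t, |t| < r / 2 → 1 < ‖p t‖ := fun t ht => hball (hpball t ht)
  have hpne : ∀ t n, p t ≠ (z n)⁻¹ := by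
    intro t n h1
    apply hyc n
    rw [← h1]
    simp [hp]
  have hden : ∀ t, |t| < r / 2 → ∀ n, 1 - z n * p t ≠ 0 := by
    intro t _ n h1
    have h2 : z n * p t = 1 := (sub_eq_zero.1 h1).symm
    exact hpne t n (eq_inv_of_mul_eq_one_right h2)
  set x : ℝ → ℂ := fun t => (conj (p t))⁻¹ with hx
  have hxnorm : ∀ t, |t| < r / 2 → ‖x t‖ < 1 := by
    intro t ht
    simp only [hx, norm_inv, RCLike.norm_conj]
    exact inv_lt_one_of_one_lt₀ (hpnorm t ht)
  have hxne : ∀ t n, x t ≠ conj (z n) := by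
    intro t n h1
    apply hpne t n
    have h2 : conj (x t) = z n := by rw [h1, conj_conj]
    rw [← h2]
    simp [hx]
  -- the antiderivatives on the segment
  set E : ℕ → ℝ → ℂ := fun j t => ∑ n ∈ S j, c j n * (p t / (1 - z n * p t)) with hE
  have hpd : ∀ t, HasDerivAt p 1 t := by
    intro t
    have h1 : HasDerivAt (fun t : ℝ => (t : ℂ)) 1 t := Complex.ofRealCLM.hasDerivAt
    exact h1.const_add _
  have hEd : ∀ j t, |t| < r / 2 → HasDerivAt (E j)
      (∑ n ∈ S j, c j n * ((1 - z n * p t) ^ 2)⁻¹) t := by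
    intro j t ht
    have h1 : ∀ n ∈ S j, HasDerivAt (fun t => c j n * (p t / (1 - z n * p t)))
        (c j n * ((1 - z n * p t) ^ 2)⁻¹) t := by
      intro n _
      have h2 : HasDerivAt (fun t => 1 - z n * p t) (-(z n * 1)) t :=
        ((hpd t).const_mul (z n)).const_sub 1
      have h3 := ((hpd t).div h2 (hden t ht n)).const_mul (c j n)
      convert! h3 using 1
      field_simp
      ring
    exact HasDerivAt.fun_sum h1
  have hEt : ∀ t, |t| < r / 2 → ∀ t', |t'| < r / 2 →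
      Tendsto (fun j => E j t' - E j t) atTop (𝓝 0) := by
    intro t ht t' ht'
    rw [Metric.tendsto_atTop]
    intro ε hε
    have hu := Metric.tendstoUniformlyOn_iff.1 hunif (ε / (r + 1)) (by positivity)
    obtain ⟨N, hN⟩ := eventually_atTop.1 hu
    refine ⟨N, fun j hj => ?_⟩
    have h1 := (convex_Ioo (-(r / 2)) (r / 2)).norm_image_sub_le_of_norm_hasDerivWithin_le
      (f := E j) (f' := fun t => ∑ n ∈ S j, c j n * ((1 - z n * p t) ^ 2)⁻¹)
      (C := ε / (r + 1)) (x := t) (y := t')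
      (fun s hs => (hEd j s (abs_lt.2 hs)).hasDerivWithinAt)
      (fun s hs => by
        have h2 := hN j hj (p s) (hpball s (abs_lt.2 hs))
        rw [dist_zero_left] at h2
        exact h2.le)
      (abs_lt.1 ht) (abs_lt.1 ht')
    rw [dist_zero_right]
    refine h1.trans_lt ?_
    have h3 : ‖t' - t‖ ≤ r := by
      rw [Real.norm_eq_abs]
      have := abs_sub t' t
      linarith
    calc ε / (r + 1) * ‖t' - t‖ ≤ ε / (r + 1) * r := by gcongr
      _ < ε / (r + 1) * (r + 1) := by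
          have : 0 < ε / (r + 1) := by positivity
          nlinarith
      _ = ε := by field_simp
  set GG : ℂ → ℂ := fun w => ∑' n, g n * w ^ n with hGG
  set UU : ℂ → ℂ := fun w => ∑' k, PP (fun n => g (n + 1 + k)) a * w ^ k with hUU
  have hUj : ∀ j t, |t| < r / 2 →
      ∑' k, PP (fun n => g (n + 1 + k)) (AA z (S j) (c j)) * x t ^ k
        = GG (x t) * conj (E j t) := by
    intro j t ht
    rw [uu_formula hg hz hann (S j) (c j) (hxnorm t ht) (hxne t)]
    congr 1
    simp only [hE, map_sum, map_mul, map_div₀, map_sub, map_one]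
    refine Finset.sum_congr rfl fun n _ => ?_
    have h1 : conj (p t) ≠ 0 := by
      have := hpnorm t ht
      have h2 : p t ≠ 0 := by
        intro h0; rw [h0] at this; simp at this; linarith
      simpa using h2
    have h2 : 1 - conj (z n) * conj (p t) ≠ 0 := by
      have := hden t ht n
      intro h3
      apply this
      have h4 := congrArg conj h3
      simpa using h4
    have h3 : x t - conj (z n) ≠ 0 := sub_ne_zero.2 (hxne t n)
    simp only [hx] at h3 ⊢
    field_simp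
  have hUlim : ∀ t, |t| < r / 2 → Tendsto (fun j => GG (x t) * conj (E j t)) atTop
      (𝓝 (UU (x t))) := by
    intro t ht
    have h1 := uu_tendsto hg ha hA hN2 (hxnorm t ht)
    exact h1.congr fun j => hUj j t ht
  have hinj : ∀ t, |t| < r / 2 → t ≠ 0 → x t ≠ x 0 := by
    intro t _ ht0 h1
    have h2 := inv_injective h1
    have h3 := (starRingEnd ℂ).injective h2
    simp only [hp] at h3
    have h4 : (t : ℂ) = ((0 : ℝ) : ℂ) := add_left_cancel h3
    exact ht0 (by exact_mod_cast h4)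
  have hr2 : |(0 : ℝ)| < r / 2 := by simpa using half_pos hr
  have hxc : ContinuousAt x 0 := by
    have h1 : ContinuousAt (fun t => conj (p t)) 0 :=
      (continuous_conj.continuousAt).comp (hpd 0).continuousAt
    refine h1.inv₀ ?_
    have := hpnorm 0 hr2
    have h2 : p 0 ≠ 0 := by
      intro h0; rw [h0] at this; simp at this; linarith
    simpa using h2
  -- a point where G does not vanish
  obtain ⟨t0, ht0, hGt0⟩ : ∃ t, |t| < r / 2 ∧ GG (x t) ≠ 0 := by
    by_contra hcon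
    push Not at hcon
    exact hgne (isPS_zero_of_arc (isPS_of_bg hg) (half_pos hr) hxc (hxnorm 0 hr2) hinj hcon)
  set b : ℂ := UU (x t0) / GG (x t0) with hb
  have hb1 : Tendsto (fun j => conj (E j t0)) atTop (𝓝 b) := by
    have h1 := (hUlim t0 ht0).div_const (GG (x t0))
    refine h1.congr fun j => ?_
    field_simp
  have hb2 : ∀ t, |t| < r / 2 → UU (x t) - b * GG (x t) = 0 := by
    intro t ht
    have h1 : Tendsto (fun j => conj (E j t)) atTop (𝓝 b) := by
      have h2 := (continuous_conj.tendsto 0).comp (hEt t0 ht0 t ht)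
      have h3 := h2.add hb1
      simp only [map_zero, zero_add] at h3
      refine h3.congr fun j => ?_
      simp only [Function.comp_apply, map_sub]
      ring
    have h4 := tendsto_nhds_unique (hUlim t ht) (h1.const_mul (GG (x t)))
    rw [h4]; ring
  have hUps : IsPS (fun k => PP (fun n => g (n + 1 + k)) a) UU := by
    intro w hw
    exact ((back_summable hg ha (by simpa using hw)).1.of_norm).hasSum
  have hbps : IsPS (fun k => b * g k) (fun w => b * GG w) := by
    intro w hw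
    refine ((isPS_of_bg hg w hw).mul_left b).congr_fun fun n => ?_
    ring
  have hzero := isPS_zero_of_arc (isPS_sub hUps hbps) (half_pos hr) hxc (hxnorm 0 hr2) hinj hb2
  have hτ : ∀ k, PP (fun n => g (n + 1 + k)) a = b * g k := by
    intro k
    have := congrFun hzero k
    simpa [sub_eq_zero] using this
  exact final hg hgne hf mf b hσ hτ

end Pool.Agent.S03025Aux.RedC

open MeasureTheory Filter Topology
open Pool Pool.MP_435399_an

namespace Pool.Agent.S03025

/-- If the kernels (1−z_n z)^(−2), z_n in the unit disc, do not span the Bergman space, and finite combinations converge in Bergman norm to f while tending uniformly to 0 on a disc outside the closed unit disc, then f is identically zero. -/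
theorem result :
    ∀ (z : ℕ → ℂ), (∀ n, ‖z n‖ < 1) →
      (∃ h : ℂ → ℂ, DifferentiableOn ℂ h (Metric.ball (0 : ℂ) 1) ∧
        IntegrableOn (fun w => ‖h w‖ ^ 2) (Metric.ball (0 : ℂ) 1) ∧
        ∃ ε : ℝ, 0 < ε ∧ ∀ (s : Finset ℕ) (a : ℕ → ℂ),
          ε ≤ ∫ w in Metric.ball (0 : ℂ) 1,
            ‖h w - ∑ n ∈ s, a n * ((1 - z n * w) ^ 2)⁻¹‖ ^ 2) →
      ∀ (S : ℕ → Finset ℕ) (c : ℕ → ℕ → ℂ) (f : ℂ → ℂ),
        DifferentiableOn ℂ f (Metric.ball (0 : ℂ) 1) →
        IntegrableOn (fun w => ‖f w‖ ^ 2) (Metric.ball (0 : ℂ) 1) →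
        Tendsto (fun j : ℕ => ∫ w in Metric.ball (0 : ℂ) 1,
            ‖(∑ n ∈ S j, c j n * ((1 - z n * w) ^ 2)⁻¹) - f w‖ ^ 2) atTop (𝓝 0) →
        ∀ (c0 : ℂ) (r : ℝ), 0 < r → Metric.ball c0 r ⊆ {w : ℂ | 1 < ‖w‖} →
          TendstoUniformlyOn
            (fun (j : ℕ) (w : ℂ) => ∑ n ∈ S j, c j n * ((1 - z n * w) ^ 2)⁻¹)
            (fun _ => (0 : ℂ)) atTop (Metric.ball c0 r) →
          ∀ w ∈ Metric.ball (0 : ℂ) 1, f w = 0 := by
  intro z hz h S c f hfd hfi hlim c0 r hr hball hunif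
  exact Pool.Agent.S03025Aux.RedC.main z hz h S c f hfd hfi hlim c0 r hr hball hunif

end Pool.Agent.S03025
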