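import Pool.Statements.S03031
import Pool.Agent.Helper932.MMMain

set_option autoImplicit false
open Filter Topology
open Pool Pool.MP_438bde_an

namespace Pool.Agent.S03031

/-- On a reflexive real Banach space, if T is maximal monotone and T0 is bounded, finitely continuous and T-pseudomonotone, and T+T0 is coercive, then every functional equals y+T0(x) for some x and some y in T(x). -/
theorem result :
  ∀ (X : Type) [NormedAddCommGroup X] [NormedSpace ℝ X] [CompleteSpace X],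
    (∀ φ : (X →L[ℝ] ℝ) →L[ℝ] ℝ, ∃ x : X, ∀ f : X →L[ℝ] ℝ, φ f = f x) →
    ∀ (T : X → Set (X →L[ℝ] ℝ)) (T0 : X → (X →L[ℝ] ℝ)),
      (∀ x y : X, ∀ f ∈ T x, ∀ g ∈ T y, 0 ≤ (f - g) (x - y)) →
      (∀ (x : X) (f : X →L[ℝ] ℝ),
          (∀ y : X, ∀ g ∈ T y, 0 ≤ (f - g) (x - y)) → f ∈ T x) →
      (∀ R : ℝ, ∃ M : ℝ, ∀ x : X, ‖x‖ ≤ R → ‖T0 x‖ ≤ M) →
      (∀ F : Submodule ℝ X, FiniteDimensional ℝ F →
          ∀ φ : (X →L[ℝ] ℝ) →L[ℝ] ℝ, Continuous (fun x : F => φ (T0 (x : X)))) →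
      (∀ (u : ℕ → X) (v : X) (y : ℕ → (X →L[ℝ] ℝ)),
          (∀ f : X →L[ℝ] ℝ, Tendsto (fun j => f (u j)) atTop (𝓝 (f v))) →
          (∀ j, y j ∈ T (u j)) →
          (∃ C : ℝ, ∀ j, ‖y j‖ ≤ C) →
          (∀ ε : ℝ, 0 < ε → ∀ᶠ j in atTop, (T0 (u j)) (u j - v) ≤ ε) →
          ((∀ φ : (X →L[ℝ] ℝ) →L[ℝ] ℝ,
              Tendsto (fun j => φ (T0 (u j))) atTop (𝓝 (φ (T0 v)))) ∧
            Tendsto (fun j => (T0 (u j)) (u j - v)) atTop (𝓝 0))) →
      (∀ M : ℝ, ∃ R : ℝ, ∀ x : X, ∀ y ∈ T x, R ≤ ‖x‖ → M * ‖x‖ ≤ (y + T0 x) x) →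
      ∀ f : X →L[ℝ] ℝ, ∃ x : X, ∃ y ∈ T x, y + T0 x = f := by
  intro X _ _ _ hX T T0 hmono hmaxi hbd _ hPM hco f
  have hT : Pool.Agent.Helper932.MM.MaxMono T := ⟨hmono, hmaxi⟩
  have hPM' : Pool.Agent.Helper932.MM.PM T (fun x => T0 x - f) := by
    intro u v y hu hy hC hε
    have hfu : Tendsto (fun j => f (u j - v)) atTop (𝓝 0) := by
      have h1 := (hu f).sub_const (f v)
      rw [sub_self] at h1
      simpa only [map_sub] using h1
    have h1 := hPM u v y hu hy hC (fun ε hεp => by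
      have h2 : ∀ᶠ j in atTop, f (u j - v) < ε / 2 := hfu.eventually (gt_mem_nhds (by linarith))
      filter_upwards [hε (ε / 2) (by linarith), h2] with j h3 h4
      simp only [sub_apply] at h3
      linarith)
    refine ⟨fun φ => ?_, ?_⟩
    · simp only [map_sub]
      exact (h1.1 φ).sub_const _
    · have h2 := h1.2.sub hfu
      rw [sub_zero] at h2
      simpa only [sub_apply] using h2
  obtain ⟨x, hx⟩ := Pool.Agent.Helper932.MM.main0 hX hT (T0 := fun x => T0 x - f)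
    (by
      intro R
      obtain ⟨M, hM⟩ := hbd R
      exact ⟨M + ‖f‖, fun x hx => (norm_sub_le _ _).trans (add_le_add (hM x hx) le_rfl)⟩)
    hPM'
    (by
      intro M
      obtain ⟨R, hR⟩ := hco (M + ‖f‖)
      refine ⟨R, fun x y hy hx => ?_⟩
      have h1 := hR x y hy hx
      have h2 := f.le_opNorm x
      rw [Real.norm_eq_abs] at h2
      have h3 := le_abs_self (f x)
      simp only [add_apply, sub_apply] at h1 ⊢
      linarith)
  refine ⟨x, -(T0 x - f), hx, ?_⟩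
  abel

end Pool.Agent.S03031
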