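import Pool.Statements.S03033
import Pool.Agent.Helper503.EdD

set_option autoImplicit false
open scoped Manifold BoundedContinuousFunction
open Pool Pool.MP_43a64b_an

namespace Pool.Agent.S03033

open Set Filter Topology TopologicalSpace
open Pool.Agent.Helper503 Pool.Agent.Helper503.Ed

lemma two_points (R : Type) [TopologicalSpace R] [ConnectedSpace R] [ChartedSpace ℂ R] :
    ∃ x y : R, x ≠ y := by
  obtain ⟨x⟩ : Nonempty R := inferInstance
  set φ := chartAt ℂ x with hφ
  obtain ⟨r, hr, hrt⟩ := Metric.isOpen_iff.1 φ.open_target (φ x) (mem_chart_target ℂ x)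
  have hw : φ x + (r / 2 : ℝ) ∈ Metric.ball (φ x) r := by
    rw [Metric.mem_ball, dist_eq_norm, add_sub_cancel_left, Complex.norm_real,
      Real.norm_of_nonneg (by linarith)]
    linarith
  refine ⟨x, φ.symm (φ x + (r / 2 : ℝ)), fun hcon => ?_⟩
  have h1 : φ x = φ x + (r / 2 : ℝ) := by
    conv_lhs => rw [hcon]
    exact φ.right_inv (hrt hw)
  have h2 : ((r / 2 : ℝ) : ℂ) = 0 := by
    have := h1.symm
    rwa [add_eq_left] at this
  rw [Complex.ofReal_eq_zero] at h2
  linarith

/-- For every connected Riemann surface whose bounded holomorphic functions separate points, the Shilov boundary of that algebra is extremely disconnected. Here the Shilov boundary is the intersection of all closed sets of characters on which every Gelfand transform attains its maximum modulus. -/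
theorem result :
  ∀ (R : Type) [TopologicalSpace R] [T2Space R] [ConnectedSpace R] [ChartedSpace ℂ R]
    [IsManifold 𝓘(ℂ) ⊤ R],
  ∀ A : Subalgebra ℂ (R →ᵇ ℂ),
    (∀ f : R →ᵇ ℂ, f ∈ A ↔ MDifferentiable 𝓘(ℂ) 𝓘(ℂ) ⇑f) →
    (∀ x y : R, x ≠ y → ∃ f ∈ A, f x ≠ f y) →
    ExtremallyDisconnected
      ↥(⋂₀ {K : Set (WeakDual ℂ A) | IsClosed K ∧ K ⊆ WeakDual.characterSpace ℂ A ∧
        ∀ a : A, ∃ ψ ∈ K, ∀ φ ∈ WeakDual.characterSpace ℂ A, ‖φ a‖ ≤ ‖ψ a‖}) := by
  intro R _ _ _ _ _ A hA hsep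
  have hAeq : A = HInf.HA R := by
    ext f
    exact (hA f).trans (HInf.mem_HA R f).symm
  subst hAeq
  obtain ⟨x, y, hxy⟩ := two_points R
  obtain ⟨f, hf, hfxy⟩ := hsep x y hxy
  have hfm : MDifferentiable 𝓘(ℂ) 𝓘(ℂ) f := hf
  have hsepR : SeparableSpace R := separable hfm ⟨x, y, hfxy⟩
  have hone : NormOneClass (HInf.HA R) := ⟨norm_one (α := R →ᵇ ℂ)⟩
  have key := ed_shilov (A := HInf.HA R) (fun i => HInf.evHom (denseSeq R i)) ?_ ?_
  · exact key
  · intro a r hr
    obtain ⟨z, hz⟩ : ∃ z : R, r < ‖a.1 z‖ := by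
      by_contra hcon
      push Not at hcon
      have hr0 : 0 ≤ r := (norm_nonneg _).trans (hcon x)
      have : ‖a.1‖ ≤ r := (BoundedContinuousFunction.norm_le hr0).2 hcon
      exact absurd hr (not_lt.2 this)
    obtain ⟨i, hi⟩ := (denseRange_denseSeq R).exists_mem_open
      (isOpen_lt continuous_const a.1.continuous.norm) ⟨z, hz⟩
    exact ⟨i, hi⟩
  · intro f hf
    exact exists_lim f hf

end Pool.Agent.S03033
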