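import Pool.Statements.S03041

set_option autoImplicit false
open Pointwise
open Pool Pool.MP_449b18_an

namespace Pool.Agent.S03041

section aux

variable {Γ : Type} [Group Γ] [DecidableEq Γ]

lemma sum_z_le (H : Finset Γ) (x y : Γ) (c : ℝ) (hc : 0 ≤ c) :
    ∑ z ∈ H, (if x * y * z = 1 then c else 0) ≤ c := by
  have h1 : ∀ z, (x * y * z = 1) ↔ (z = (x * y)⁻¹) := fun z => by
    constructor
    · intro h
      exact eq_inv_of_mul_eq_one_right h
    · rintro rfl
      exact mul_inv_cancel _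
  simp only [h1, Finset.sum_ite_eq']
  split_ifs <;> simp [hc]

lemma sum_y_le (G : Finset Γ) (x z : Γ) (c : ℝ) (hc : 0 ≤ c) :
    ∑ y ∈ G, (if x * y * z = 1 then c else 0) ≤ c := by
  have h1 : ∀ y, (x * y * z = 1) ↔ (y = x⁻¹ * z⁻¹) := fun y => by
    constructor
    · intro h
      have h2 : y = x⁻¹ * (x * y * z) * z⁻¹ := by group
      rw [h2, h]; simp
    · rintro rfl
      group
  simp only [h1, Finset.sum_ite_eq']
  split_ifs <;> simp [hc]

/-- The real trilinear form. -/
def T (F G H : Finset Γ) (f g h : Γ → ℝ) : ℝ :=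
  ∑ x ∈ F, ∑ y ∈ G, ∑ z ∈ H, (if x * y * z = 1 then f x * g y * h z else 0)

/-- The counting form. -/
def N (A B C : Finset Γ) : ℝ :=
  ∑ x ∈ A, ∑ y ∈ B, ∑ z ∈ C, (if x * y * z = 1 then (1 : ℝ) else 0)

lemma card_eq_N (A B C : Finset Γ) :
    (((A ×ˢ B ×ˢ C).filter (fun t => t.1 * t.2.1 * t.2.2 = 1)).card : ℝ) = N A B C := by
  unfold N
  rw [Finset.card_filter]
  push_cast
  rw [Finset.sum_product]
  refine Finset.sum_congr rfl fun x _ => ?_
  rw [Finset.sum_product]

/-- level function -/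
noncomputable def lev (t : ℝ) : ℤ := Int.log 2 t

lemma lev_le {t : ℝ} (ht : 0 < t) : (2 : ℝ) ^ (lev t) ≤ t := by
  have := Int.zpow_log_le_self (b := 2) (r := t) (by norm_num) ht
  simpa [lev] using this

lemma lt_lev {t : ℝ} : t < 2 * (2 : ℝ) ^ (lev t) := by
  have := Int.lt_zpow_succ_log_self (b := 2) (by norm_num) t
  rw [zpow_add_one₀ (by norm_num)] at this
  have h2 : ((2 : ℕ) : ℝ) = 2 := by norm_num
  rw [h2] at this
  unfold lev
  linarith

omit [Group Γ] [DecidableEq Γ] in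
/-- energy of levels -/
lemma level_energy (G : Finset Γ) (g : Γ → ℝ) (hg : ∀ y ∈ G, 0 < g y) :
    ∑ j ∈ G.image (fun y => lev (g y)),
      ((2 : ℝ) ^ j) ^ 2 * ((G.filter (fun y => lev (g y) = j)).card : ℝ)
      ≤ ∑ y ∈ G, g y ^ 2 := by
  rw [← Finset.sum_fiberwise_of_maps_to (s := G) (t := G.image (fun y => lev (g y)))
    (g := fun y => lev (g y)) (fun y hy => Finset.mem_image_of_mem _ hy)]
  refine Finset.sum_le_sum fun j _ => ?_
  rw [mul_comm, ← nsmul_eq_mul, ← Finset.sum_const]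
  refine Finset.sum_le_sum fun y hy => ?_
  rw [Finset.mem_filter] at hy
  have h1 := lev_le (hg y hy.1)
  rw [hy.2] at h1
  have h0 : (0 : ℝ) < 2 ^ j := zpow_pos (by norm_num) _
  nlinarith

/-- near-diagonal part -/
lemma near_diag (A G H : Finset Γ) (g h : Γ → ℝ) (hg : ∀ y ∈ G, 0 < g y) (hh : ∀ z ∈ H, 0 < h z)
    (M : ℕ) (p : ℝ) (hp : 0 ≤ p)
    (hcount : ∀ B C : Finset Γ, N A B C ≤ p * Real.sqrt ((A.card : ℝ) * B.card * C.card)) :
    ∑ x ∈ A, ∑ y ∈ G, ∑ z ∈ H,
      (if x * y * z = 1 then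
        (if |lev (g y) - lev (h z)| ≤ (M : ℤ) then g y * h z else 0) else 0)
      ≤ 2 * p * Real.sqrt A.card * (2 * M + 1) * (∑ y ∈ G, g y ^ 2 + ∑ z ∈ H, h z ^ 2) := by
  classical
  set J := G.image (fun y => lev (g y)) with hJ
  set K := H.image (fun z => lev (h z)) with hK
  set D := (J ×ˢ K).filter (fun q => |q.1 - q.2| ≤ (M : ℤ)) with hD
  -- step 1: pointwise bound
  have step1 : ∀ x ∈ A, ∀ y ∈ G, ∀ z ∈ H,
      (if x * y * z = 1 then
        (if |lev (g y) - lev (h z)| ≤ (M : ℤ) then g y * h z else 0) else 0)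
      ≤ ∑ q ∈ D, 4 * (2 : ℝ) ^ q.1 * (2 : ℝ) ^ q.2 *
          (if (lev (g y) = q.1 ∧ lev (h z) = q.2) then (if x * y * z = 1 then (1 : ℝ) else 0)
            else 0) := by
    intro x _ y hy z hz
    have hterm : ∀ q ∈ D, 0 ≤ 4 * (2 : ℝ) ^ q.1 * (2 : ℝ) ^ q.2 *
          (if (lev (g y) = q.1 ∧ lev (h z) = q.2) then (if x * y * z = 1 then (1 : ℝ) else 0)
            else 0) := by
      intro q _
      have h1 : (0 : ℝ) < 2 ^ q.1 := zpow_pos (by norm_num) _
      have h2 : (0 : ℝ) < 2 ^ q.2 := zpow_pos (by norm_num) _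
      split_ifs <;> positivity
    by_cases h1 : x * y * z = 1
    · by_cases h2 : |lev (g y) - lev (h z)| ≤ (M : ℤ)
      · have hmem : (lev (g y), lev (h z)) ∈ D := by
          simp only [hD, Finset.mem_filter, Finset.mem_product]
          exact ⟨⟨Finset.mem_image_of_mem _ hy, Finset.mem_image_of_mem _ hz⟩, h2⟩
        refine le_trans ?_ (Finset.single_le_sum hterm hmem)
        simp only [h1, h2, if_true, and_self]
        have a1 := lt_lev (t := g y)
        have a2 := lt_lev (t := h z)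
        have b1 := hg y hy
        have b2 := hh z hz
        have c1 : (0 : ℝ) < 2 ^ (lev (g y)) := zpow_pos (by norm_num) _
        calc g y * h z ≤ (2 * 2 ^ (lev (g y))) * (2 * 2 ^ (lev (h z))) := by
              apply mul_le_mul a1.le a2.le b2.le (by positivity)
          _ = 4 * (2 : ℝ) ^ (lev (g y)) * (2 : ℝ) ^ (lev (h z)) * 1 := by ring
      · simp only [h1, h2, if_true, if_false]
        exact Finset.sum_nonneg (by simpa [h1] using hterm)
    · simp only [h1, if_false]
      exact Finset.sum_nonneg (by simp)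
  -- step 2: sum and swap
  have step2 : ∑ x ∈ A, ∑ y ∈ G, ∑ z ∈ H,
      (if x * y * z = 1 then
        (if |lev (g y) - lev (h z)| ≤ (M : ℤ) then g y * h z else 0) else 0)
      ≤ ∑ q ∈ D, 4 * (2 : ℝ) ^ q.1 * (2 : ℝ) ^ q.2 *
          N A (G.filter (fun y => lev (g y) = q.1)) (H.filter (fun z => lev (h z) = q.2)) := by
    calc _ ≤ ∑ x ∈ A, ∑ y ∈ G, ∑ z ∈ H, ∑ q ∈ D, 4 * (2 : ℝ) ^ q.1 * (2 : ℝ) ^ q.2 *
          (if (lev (g y) = q.1 ∧ lev (h z) = q.2) then (if x * y * z = 1 then (1 : ℝ) else 0)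
            else 0) :=
          Finset.sum_le_sum fun x hx => Finset.sum_le_sum fun y hy =>
            Finset.sum_le_sum fun z hz => step1 x hx y hy z hz
      _ = ∑ x ∈ A, ∑ y ∈ G, ∑ q ∈ D, ∑ z ∈ H, 4 * (2 : ℝ) ^ q.1 * (2 : ℝ) ^ q.2 *
          (if (lev (g y) = q.1 ∧ lev (h z) = q.2) then (if x * y * z = 1 then (1 : ℝ) else 0)
            else 0) := by
          refine Finset.sum_congr rfl fun x _ => Finset.sum_congr rfl fun y _ => ?_
          rw [Finset.sum_comm]
      _ = ∑ x ∈ A, ∑ q ∈ D, ∑ y ∈ G, ∑ z ∈ H, 4 * (2 : ℝ) ^ q.1 * (2 : ℝ) ^ q.2 *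
          (if (lev (g y) = q.1 ∧ lev (h z) = q.2) then (if x * y * z = 1 then (1 : ℝ) else 0)
            else 0) := by
          refine Finset.sum_congr rfl fun x _ => ?_
          rw [Finset.sum_comm]
      _ = ∑ q ∈ D, ∑ x ∈ A, ∑ y ∈ G, ∑ z ∈ H, 4 * (2 : ℝ) ^ q.1 * (2 : ℝ) ^ q.2 *
          (if (lev (g y) = q.1 ∧ lev (h z) = q.2) then (if x * y * z = 1 then (1 : ℝ) else 0)
            else 0) := by
          rw [Finset.sum_comm]
      _ = _ := by
          refine Finset.sum_congr rfl fun q _ => ?_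
          unfold N
          rw [Finset.mul_sum]
          refine Finset.sum_congr rfl fun x _ => ?_
          rw [Finset.sum_filter, Finset.mul_sum]
          refine Finset.sum_congr rfl fun y _ => ?_
          by_cases hy : lev (g y) = q.1
          · simp only [hy, true_and, if_true]
            rw [Finset.sum_filter, Finset.mul_sum]
          · simp [hy]
  refine step2.trans ?_
  -- step 3: bound each term
  have hsA : 0 ≤ Real.sqrt (A.card : ℝ) := Real.sqrt_nonneg _
  have step3 : ∀ q ∈ D, 4 * (2 : ℝ) ^ q.1 * (2 : ℝ) ^ q.2 *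
          N A (G.filter (fun y => lev (g y) = q.1)) (H.filter (fun z => lev (h z) = q.2))
      ≤ 2 * p * Real.sqrt A.card *
        (((2 : ℝ) ^ q.1) ^ 2 * ((G.filter (fun y => lev (g y) = q.1)).card : ℝ)
          + ((2 : ℝ) ^ q.2) ^ 2 * ((H.filter (fun z => lev (h z) = q.2)).card : ℝ)) := by
    intro q _
    have h1 : (0 : ℝ) < 2 ^ q.1 := zpow_pos (by norm_num) _
    have h2 : (0 : ℝ) < 2 ^ q.2 := zpow_pos (by norm_num) _
    have hc := hcount (G.filter (fun y => lev (g y) = q.1)) (H.filter (fun z => lev (h z) = q.2))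
    set b : ℝ := ((G.filter (fun y => lev (g y) = q.1)).card : ℝ) with hb
    set c : ℝ := ((H.filter (fun z => lev (h z) = q.2)).card : ℝ) with hc'
    have hb0 : 0 ≤ b := Nat.cast_nonneg _
    have hc0 : 0 ≤ c := Nat.cast_nonneg _
    rw [Real.sqrt_mul (by positivity), Real.sqrt_mul (by positivity)] at hc
    have hsb : Real.sqrt b ^ 2 = b := Real.sq_sqrt hb0
    have hsc : Real.sqrt c ^ 2 = c := Real.sq_sqrt hc0
    have hsb0 := Real.sqrt_nonneg b
    have hsc0 := Real.sqrt_nonneg c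
    calc _ ≤ 4 * (2 : ℝ) ^ q.1 * (2 : ℝ) ^ q.2 *
            (p * (Real.sqrt A.card * Real.sqrt b * Real.sqrt c)) := by
          apply mul_le_mul_of_nonneg_left hc (by positivity)
      _ = 2 * p * Real.sqrt A.card *
          (2 * ((2 : ℝ) ^ q.1 * Real.sqrt b) * ((2 : ℝ) ^ q.2 * Real.sqrt c)) := by ring
      _ ≤ 2 * p * Real.sqrt A.card *
          (((2 : ℝ) ^ q.1 * Real.sqrt b) ^ 2 + ((2 : ℝ) ^ q.2 * Real.sqrt c) ^ 2) := by
          apply mul_le_mul_of_nonneg_left (two_mul_le_add_sq _ _) (by positivity)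
      _ = _ := by rw [mul_pow, mul_pow, hsb, hsc]
  refine (Finset.sum_le_sum step3).trans ?_
  rw [← Finset.mul_sum, Finset.sum_add_distrib, mul_assoc (2 * p * Real.sqrt A.card)]
  apply mul_le_mul_of_nonneg_left _ (by positivity)
  -- step 4: counting pairs
  have hcardj : ∀ j : ℤ, ((K.filter (fun k => |j - k| ≤ (M : ℤ))).card : ℝ) ≤ 2 * M + 1 := by
    intro j
    have hsub : K.filter (fun k => |j - k| ≤ (M : ℤ)) ⊆ Finset.Icc (j - M) (j + M) := by
      intro k hk
      rw [Finset.mem_filter] at hk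
      have := abs_le.mp hk.2
      rw [Finset.mem_Icc]
      constructor <;> linarith [this.1, this.2]
    have h1 := Finset.card_le_card hsub
    rw [Int.card_Icc] at h1
    have h2 : (j + M + 1 - (j - M)).toNat = 2 * M + 1 := by
      have : (j + M + 1 - (j - M)) = ((2 * M + 1 : ℕ) : ℤ) := by push_cast; ring
      rw [this, Int.toNat_natCast]
    rw [h2] at h1
    exact_mod_cast h1
  have hcardk : ∀ k : ℤ, ((J.filter (fun j => |j - k| ≤ (M : ℤ))).card : ℝ) ≤ 2 * M + 1 := by
    intro j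
    have hsub : J.filter (fun k => |k - j| ≤ (M : ℤ)) ⊆ Finset.Icc (j - M) (j + M) := by
      intro k hk
      rw [Finset.mem_filter] at hk
      have := abs_le.mp hk.2
      rw [Finset.mem_Icc]
      constructor <;> linarith [this.1, this.2]
    have h1 := Finset.card_le_card hsub
    rw [Int.card_Icc] at h1
    have h2 : (j + M + 1 - (j - M)).toNat = 2 * M + 1 := by
      have : (j + M + 1 - (j - M)) = ((2 * M + 1 : ℕ) : ℤ) := by push_cast; ring
      rw [this, Int.toNat_natCast]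
    rw [h2] at h1
    exact_mod_cast h1
  have e1 : ∑ q ∈ D, ((2 : ℝ) ^ q.1) ^ 2 * ((G.filter (fun y => lev (g y) = q.1)).card : ℝ)
      ≤ (2 * M + 1) * ∑ y ∈ G, g y ^ 2 := by
    rw [hD, Finset.sum_filter, Finset.sum_product]
    calc _ ≤ ∑ j ∈ J, (2 * (M : ℝ) + 1) *
          (((2 : ℝ) ^ j) ^ 2 * ((G.filter (fun y => lev (g y) = j)).card : ℝ)) := by
          refine Finset.sum_le_sum fun j _ => ?_
          simp only
          rw [← Finset.sum_filter, Finset.sum_const, nsmul_eq_mul]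
          apply mul_le_mul_of_nonneg_right (hcardj j) (by positivity)
      _ ≤ _ := by
          rw [← Finset.mul_sum]
          apply mul_le_mul_of_nonneg_left _ (by positivity)
          exact level_energy G g hg
  have e2 : ∑ q ∈ D, ((2 : ℝ) ^ q.2) ^ 2 * ((H.filter (fun z => lev (h z) = q.2)).card : ℝ)
      ≤ (2 * M + 1) * ∑ z ∈ H, h z ^ 2 := by
    rw [hD, Finset.sum_filter, Finset.sum_product_right]
    calc _ ≤ ∑ k ∈ K, (2 * (M : ℝ) + 1) *
          (((2 : ℝ) ^ k) ^ 2 * ((H.filter (fun z => lev (h z) = k)).card : ℝ)) := by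
          refine Finset.sum_le_sum fun k _ => ?_
          simp only
          rw [← Finset.sum_filter, Finset.sum_const, nsmul_eq_mul]
          apply mul_le_mul_of_nonneg_right (hcardk k) (by positivity)
      _ ≤ _ := by
          rw [← Finset.mul_sum]
          apply mul_le_mul_of_nonneg_left _ (by positivity)
          exact level_energy H h hh
  linarith

/-- indicator set against positive functions, energy form -/
lemma set_bound (A G H : Finset Γ) (g h : Γ → ℝ) (hg : ∀ y ∈ G, 0 < g y) (hh : ∀ z ∈ H, 0 < h z)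
    (M : ℕ) (p : ℝ) (hp : 0 ≤ p)
    (hcount : ∀ B C : Finset Γ, N A B C ≤ p * Real.sqrt ((A.card : ℝ) * B.card * C.card)) :
    ∑ x ∈ A, ∑ y ∈ G, ∑ z ∈ H, (if x * y * z = 1 then g y * h z else 0)
      ≤ (2 * p * Real.sqrt A.card * (2 * M + 1) + A.card / 2 ^ M) *
        (∑ y ∈ G, g y ^ 2 + ∑ z ∈ H, h z ^ 2) := by
  have hM : (0 : ℝ) < 2 ^ M := by positivity
  have pw : ∀ x ∈ A, ∀ y ∈ G, ∀ z ∈ H, (if x * y * z = 1 then g y * h z else 0)
      ≤ (if x * y * z = 1 then
        (if |lev (g y) - lev (h z)| ≤ (M : ℤ) then g y * h z else 0) else 0)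
        + (if x * y * z = 1 then g y ^ 2 / 2 ^ M else 0)
        + (if x * y * z = 1 then h z ^ 2 / 2 ^ M else 0) := by
    intro x _ y hy z hz
    have b1 := hg y hy
    have b2 := hh z hz
    by_cases h1 : x * y * z = 1
    · simp only [h1, if_true]
      by_cases h2 : |lev (g y) - lev (h z)| ≤ (M : ℤ)
      · simp only [h2, if_true]
        have : 0 ≤ g y ^ 2 / 2 ^ M := by positivity
        have : 0 ≤ h z ^ 2 / 2 ^ M := by positivity
        linarith
      · simp only [h2, if_false]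
        rw [not_le, lt_abs] at h2
        have a1 := lt_lev (t := g y)
        have a2 := lt_lev (t := h z)
        have d1 := lev_le b1
        have d2 := lev_le b2
        rcases h2 with h3 | h3
        · have h4 : lev (h z) + 1 ≤ lev (g y) - M := by linarith
          have h5 : (2 : ℝ) ^ (lev (h z) + 1) ≤ (2 : ℝ) ^ (lev (g y) - M) :=
            zpow_le_zpow_right₀ (by norm_num) h4
          rw [zpow_add_one₀ (by norm_num), zpow_sub₀ (by norm_num), zpow_natCast] at h5
          have h6 : h z ≤ g y / 2 ^ M := by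
            calc h z ≤ (2 : ℝ) ^ (lev (g y)) / 2 ^ M := by linarith
              _ ≤ g y / 2 ^ M := by gcongr
          have h7 : g y * h z ≤ g y * (g y / 2 ^ M) := mul_le_mul_of_nonneg_left h6 b1.le
          have h8 : g y * (g y / 2 ^ M) = g y ^ 2 / 2 ^ M := by ring
          have : 0 ≤ h z ^ 2 / 2 ^ M := by positivity
          linarith
        · have h4 : lev (g y) + 1 ≤ lev (h z) - M := by linarith
          have h5 : (2 : ℝ) ^ (lev (g y) + 1) ≤ (2 : ℝ) ^ (lev (h z) - M) :=
            zpow_le_zpow_right₀ (by norm_num) h4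
          rw [zpow_add_one₀ (by norm_num), zpow_sub₀ (by norm_num), zpow_natCast] at h5
          have h6 : g y ≤ h z / 2 ^ M := by
            calc g y ≤ (2 : ℝ) ^ (lev (h z)) / 2 ^ M := by linarith
              _ ≤ h z / 2 ^ M := by gcongr
          have h7 : g y * h z ≤ (h z / 2 ^ M) * h z := mul_le_mul_of_nonneg_right h6 b2.le
          have h8 : (h z / 2 ^ M) * h z = h z ^ 2 / 2 ^ M := by ring
          have : 0 ≤ g y ^ 2 / 2 ^ M := by positivity
          linarith
    · simp [h1]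
  have hnear := near_diag A G H g h hg hh M p hp hcount
  have hG : ∑ x ∈ A, ∑ y ∈ G, ∑ z ∈ H, (if x * y * z = 1 then g y ^ 2 / 2 ^ M else 0)
      ≤ (A.card / 2 ^ M) * ∑ y ∈ G, g y ^ 2 := by
    calc _ ≤ ∑ x ∈ A, ∑ y ∈ G, g y ^ 2 / 2 ^ M :=
          Finset.sum_le_sum fun x _ => Finset.sum_le_sum fun y _ =>
            sum_z_le H x y _ (by positivity)
      _ = _ := by
          rw [Finset.sum_const, nsmul_eq_mul, ← Finset.sum_div]; ring
  have hH : ∑ x ∈ A, ∑ y ∈ G, ∑ z ∈ H, (if x * y * z = 1 then h z ^ 2 / 2 ^ M else 0)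
      ≤ (A.card / 2 ^ M) * ∑ z ∈ H, h z ^ 2 := by
    calc _ = ∑ x ∈ A, ∑ z ∈ H, ∑ y ∈ G, (if x * y * z = 1 then h z ^ 2 / 2 ^ M else 0) := by
          refine Finset.sum_congr rfl fun x _ => ?_
          rw [Finset.sum_comm]
      _ ≤ ∑ x ∈ A, ∑ z ∈ H, h z ^ 2 / 2 ^ M :=
          Finset.sum_le_sum fun x _ => Finset.sum_le_sum fun z _ =>
            sum_y_le G x z _ (by positivity)
      _ = _ := by
          rw [Finset.sum_const, nsmul_eq_mul, ← Finset.sum_div]; ring
  calc _ ≤ ∑ x ∈ A, ∑ y ∈ G, ∑ z ∈ H, ((if x * y * z = 1 then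
        (if |lev (g y) - lev (h z)| ≤ (M : ℤ) then g y * h z else 0) else 0)
        + (if x * y * z = 1 then g y ^ 2 / 2 ^ M else 0)
        + (if x * y * z = 1 then h z ^ 2 / 2 ^ M else 0)) :=
          Finset.sum_le_sum fun x hx => Finset.sum_le_sum fun y hy =>
            Finset.sum_le_sum fun z hz => pw x hx y hy z hz
    _ ≤ _ := by
          simp only [Finset.sum_add_distrib]
          linarith

/-- indicator set against nonnegative functions, product form -/
lemma set_bound' (A G H : Finset Γ) (g h : Γ → ℝ) (hg : ∀ y ∈ G, 0 ≤ g y)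
    (hh : ∀ z ∈ H, 0 ≤ h z)
    (M : ℕ) (p : ℝ) (hp : 0 ≤ p) (hAM : (A.card : ℝ) ≤ 2 ^ M)
    (hcount : ∀ B C : Finset Γ, N A B C ≤ p * Real.sqrt ((A.card : ℝ) * B.card * C.card)) :
    ∑ x ∈ A, ∑ y ∈ G, ∑ z ∈ H, (if x * y * z = 1 then g y * h z else 0)
      ≤ 2 * (2 * p * (2 * M + 1) + 1) * Real.sqrt A.card *
        (Real.sqrt (∑ y ∈ G, g y ^ 2) * Real.sqrt (∑ z ∈ H, h z ^ 2)) := by
  classical
  -- restrict to positive parts
  set G' := G.filter (fun y => 0 < g y) with hG'
  set H' := H.filter (fun z => 0 < h z) with hH'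
  have eq1 : ∑ x ∈ A, ∑ y ∈ G, ∑ z ∈ H, (if x * y * z = 1 then g y * h z else 0)
      = ∑ x ∈ A, ∑ y ∈ G', ∑ z ∈ H', (if x * y * z = 1 then g y * h z else 0) := by
    refine Finset.sum_congr rfl fun x _ => ?_
    rw [hG', Finset.sum_filter]
    refine Finset.sum_congr rfl fun y hy => ?_
    by_cases h1 : 0 < g y
    · simp only [h1, if_true]
      rw [hH', Finset.sum_filter]
      refine Finset.sum_congr rfl fun z hz => ?_
      by_cases h2 : 0 < h z
      · simp only [h2, if_true]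
      · have : h z = 0 := le_antisymm (not_lt.mp h2) (hh z hz)
        simp [this]
    · have : g y = 0 := le_antisymm (not_lt.mp h1) (hg y hy)
      simp [this]
  have eq2 : ∑ y ∈ G, g y ^ 2 = ∑ y ∈ G', g y ^ 2 := by
    rw [hG', Finset.sum_filter]
    refine Finset.sum_congr rfl fun y hy => ?_
    by_cases h1 : 0 < g y
    · simp [h1]
    · have : g y = 0 := le_antisymm (not_lt.mp h1) (hg y hy)
      simp [this]
  have eq3 : ∑ z ∈ H, h z ^ 2 = ∑ z ∈ H', h z ^ 2 := by
    rw [hH', Finset.sum_filter]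
    refine Finset.sum_congr rfl fun y hy => ?_
    by_cases h1 : 0 < h y
    · simp [h1]
    · have : h y = 0 := le_antisymm (not_lt.mp h1) (hh y hy)
      simp [this]
  rw [eq1, eq2, eq3]
  have hg' : ∀ y ∈ G', 0 < g y := fun y hy => (Finset.mem_filter.mp hy).2
  have hh' : ∀ z ∈ H', 0 < h z := fun z hz => (Finset.mem_filter.mp hz).2
  clear_value G' H'
  clear eq1 eq2 eq3
  rcases G'.eq_empty_or_nonempty with hGe | hGn
  · subst hGe; simp
  rcases H'.eq_empty_or_nonempty with hHe | hHn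
  · subst hHe; simp
  have hα2 : 0 < ∑ y ∈ G', g y ^ 2 :=
    Finset.sum_pos (fun y hy => by have := hg' y hy; positivity) hGn
  have hβ2 : 0 < ∑ z ∈ H', h z ^ 2 :=
    Finset.sum_pos (fun y hy => by have := hh' y hy; positivity) hHn
  set α := Real.sqrt (∑ y ∈ G', g y ^ 2) with hα
  set β := Real.sqrt (∑ z ∈ H', h z ^ 2) with hβ
  have hα0 : 0 < α := Real.sqrt_pos.mpr hα2
  have hβ0 : 0 < β := Real.sqrt_pos.mpr hβ2
  have hαs : α ^ 2 = ∑ y ∈ G', g y ^ 2 := Real.sq_sqrt hα2.le
  have hβs : β ^ 2 = ∑ z ∈ H', h z ^ 2 := Real.sq_sqrt hβ2.le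
  have key := set_bound A G' H' (fun y => g y / α) (fun z => h z / β)
    (fun y hy => div_pos (hg' y hy) hα0) (fun z hz => div_pos (hh' z hz) hβ0) M p hp hcount
  have n1 : ∑ y ∈ G', (g y / α) ^ 2 = 1 := by
    simp only [div_pow]
    rw [← Finset.sum_div, ← hαs]
    field_simp
  have n2 : ∑ z ∈ H', (h z / β) ^ 2 = 1 := by
    simp only [div_pow]
    rw [← Finset.sum_div, ← hβs]
    field_simp
  rw [n1, n2] at key
  have eq4 : ∑ x ∈ A, ∑ y ∈ G', ∑ z ∈ H', (if x * y * z = 1 then g y * h z else 0)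
      = (α * β) * ∑ x ∈ A, ∑ y ∈ G', ∑ z ∈ H',
        (if x * y * z = 1 then g y / α * (h z / β) else 0) := by
    simp only [Finset.mul_sum]
    refine Finset.sum_congr rfl fun x _ => Finset.sum_congr rfl fun y _ =>
      Finset.sum_congr rfl fun z _ => ?_
    split_ifs
    · field_simp
    · simp
  rw [eq4]
  have hs0 : 0 ≤ Real.sqrt (A.card : ℝ) := Real.sqrt_nonneg _
  have hs1 : Real.sqrt (A.card : ℝ) ≤ A.card := by
    rcases Nat.eq_zero_or_pos A.card with h0 | h0
    · simp [h0]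
    · have h1 : (1 : ℝ) ≤ A.card := by exact_mod_cast h0
      calc Real.sqrt (A.card : ℝ) ≤ Real.sqrt ((A.card : ℝ) ^ 2) := by
            apply Real.sqrt_le_sqrt
            nlinarith
        _ = A.card := Real.sqrt_sq (by positivity)
  have hs2 : (A.card : ℝ) / 2 ^ M ≤ Real.sqrt A.card := by
    have hM : (0 : ℝ) < 2 ^ M := by positivity
    rw [div_le_iff₀ hM]
    calc (A.card : ℝ) = Real.sqrt A.card * Real.sqrt A.card := by
          rw [Real.mul_self_sqrt]; positivity
      _ ≤ Real.sqrt A.card * 2 ^ M := by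
          apply mul_le_mul_of_nonneg_left _ hs0
          linarith
  calc _ ≤ (α * β) * ((2 * p * Real.sqrt A.card * (2 * M + 1) + A.card / 2 ^ M) * (1 + 1)) :=
        mul_le_mul_of_nonneg_left key (by positivity)
    _ ≤ (α * β) * ((2 * p * Real.sqrt A.card * (2 * M + 1) + Real.sqrt A.card) * (1 + 1)) := by
        gcongr
    _ = _ := by ring

/-- the full real trilinear estimate -/
lemma full_bound (F G H : Finset Γ) (f g h : Γ → ℝ) (hf : ∀ x ∈ F, 0 ≤ f x)
    (hg : ∀ y ∈ G, 0 ≤ g y) (hh : ∀ z ∈ H, 0 ≤ h z)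
    (M : ℕ) (p : ℝ) (hp : 0 ≤ p) (hFM : (F.card : ℝ) ≤ 2 ^ M)
    (hcount : ∀ A B C : Finset Γ, A ⊆ F →
      N A B C ≤ p * Real.sqrt ((A.card : ℝ) * B.card * C.card)) :
    T F G H f g h ≤ (4 * (M + 1) + 2) * (2 * p * (2 * M + 1) + 1) *
      (Real.sqrt (∑ x ∈ F, f x ^ 2) * Real.sqrt (∑ y ∈ G, g y ^ 2) *
        Real.sqrt (∑ z ∈ H, h z ^ 2)) := by
  classical
  set α := Real.sqrt (∑ x ∈ F, f x ^ 2) with hα
  set b := Real.sqrt (∑ y ∈ G, g y ^ 2) * Real.sqrt (∑ z ∈ H, h z ^ 2) with hb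
  have hb0 : 0 ≤ b := by positivity
  set K := 2 * p * (2 * M + 1) + 1 with hK
  have hK0 : 0 ≤ K := by positivity
  set S : Γ → ℝ := fun x => ∑ y ∈ G, ∑ z ∈ H, (if x * y * z = 1 then g y * h z else 0) with hS
  have hS0 : ∀ x, 0 ≤ S x := by
    intro x
    refine Finset.sum_nonneg fun y hy => Finset.sum_nonneg fun z hz => ?_
    split_ifs
    · exact mul_nonneg (hg y hy) (hh z hz)
    · exact le_refl _
  have hTS : T F G H f g h = ∑ x ∈ F, f x * S x := by
    unfold T
    refine Finset.sum_congr rfl fun x _ => ?_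
    rw [hS, Finset.mul_sum]
    refine Finset.sum_congr rfl fun y _ => ?_
    rw [Finset.mul_sum]
    refine Finset.sum_congr rfl fun z _ => ?_
    split_ifs
    · ring
    · simp
  have hset : ∀ A ⊆ F, ∑ x ∈ A, S x ≤ 2 * K * Real.sqrt A.card * b := by
    intro A hA
    have hcA : (A.card : ℝ) ≤ 2 ^ M := by
      refine le_trans ?_ hFM
      exact_mod_cast Finset.card_le_card hA
    exact set_bound' A G H g h hg hh M p hp hcA (fun B C => hcount A B C hA)
  rw [hTS, mul_assoc α, ← hb]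
  have hα0 : 0 ≤ α := Real.sqrt_nonneg _
  have hαs : α ^ 2 = ∑ x ∈ F, f x ^ 2 :=
    Real.sq_sqrt (Finset.sum_nonneg fun x _ => by positivity)
  have hfα : ∀ x ∈ F, f x ≤ α := by
    intro x hx
    apply Real.le_sqrt_of_sq_le
    exact Finset.single_le_sum (f := fun x => f x ^ 2) (fun i _ => by positivity) hx
  rcases hα0.eq_or_lt with h0 | hαpos
  · have hf0 : ∀ x ∈ F, f x = 0 := fun x hx => le_antisymm (by rw [h0]; exact hfα x hx) (hf x hx)
    rw [Finset.sum_eq_zero (fun x hx => by rw [hf0 x hx]; ring)]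
    positivity
  have hM : (0 : ℝ) < 2 ^ M := by positivity
  -- small part
  set F0 := F.filter (fun x => f x ≤ α / 2 ^ M) with hF0
  set F1 := F.filter (fun x => ¬ (f x ≤ α / 2 ^ M)) with hF1
  have hsplit : ∑ x ∈ F, f x * S x = ∑ x ∈ F0, f x * S x + ∑ x ∈ F1, f x * S x :=
    (Finset.sum_filter_add_sum_filter_not F _ _).symm
  have hF0sub : F0 ⊆ F := Finset.filter_subset _ _
  have hF1sub : F1 ⊆ F := Finset.filter_subset _ _
  have hsmall : ∑ x ∈ F0, f x * S x ≤ 2 * K * (α * b) := by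
    have hx1 : ∀ x ∈ F0, f x * S x ≤ α / 2 ^ M * (2 * K * b) := by
      intro x hx
      have hx' := Finset.mem_filter.mp hx
      have h1 := hset {x} (by simpa using hx'.1)
      simp only [Finset.sum_singleton, Finset.card_singleton, Nat.cast_one, Real.sqrt_one,
        mul_one] at h1
      exact mul_le_mul hx'.2 h1 (hS0 x) (by positivity)
    calc _ ≤ ∑ x ∈ F0, α / 2 ^ M * (2 * K * b) := Finset.sum_le_sum hx1
      _ = (F0.card / 2 ^ M) * (2 * K * (α * b)) := by
          rw [Finset.sum_const, nsmul_eq_mul]; ring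
      _ ≤ 1 * (2 * K * (α * b)) := by
          apply mul_le_mul_of_nonneg_right _ (by positivity)
          rw [div_le_one hM]
          refine le_trans ?_ hFM
          exact_mod_cast Finset.card_le_card hF0sub
      _ = _ := by ring
  have hbig : ∑ x ∈ F1, f x * S x ≤ (M + 1) * (4 * K * (α * b)) := by
    have hpos1 : ∀ x ∈ F1, 0 < f x := by
      intro x hx
      have hx' := Finset.mem_filter.mp hx
      have : 0 < α / 2 ^ M := by positivity
      linarith [not_le.mp hx'.2]
    set I := Finset.Icc (lev α - M) (lev α) with hI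
    have hmaps : ∀ x ∈ F1, lev (f x) ∈ I := by
      intro x hx
      have hx' := Finset.mem_filter.mp hx
      rw [hI, Finset.mem_Icc]
      constructor
      · have h1 := lt_lev (t := f x)
        have h2 := not_le.mp hx'.2
        have h3 := lev_le hαpos
        rw [div_lt_iff₀ hM] at h2
        have h4 : (2 : ℝ) ^ (lev α) < (2 : ℝ) ^ (lev (f x) + 1 + M) := by
          rw [zpow_add₀ (by norm_num), zpow_add_one₀ (by norm_num), zpow_natCast]
          calc (2 : ℝ) ^ (lev α) ≤ α := h3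
            _ < f x * 2 ^ M := h2
            _ ≤ (2 : ℝ) ^ (lev (f x)) * 2 * 2 ^ M := by
                apply mul_le_mul_of_nonneg_right _ hM.le
                linarith
        have h5 := (zpow_lt_zpow_iff_right₀ (by norm_num : (1 : ℝ) < 2)).mp h4
        linarith
      · exact Int.log_mono_right (hpos1 x hx) (hfα x hx'.1)
    rw [← Finset.sum_fiberwise_of_maps_to hmaps]
    have hterm : ∀ i ∈ I, ∑ x ∈ F1.filter (fun x => lev (f x) = i), f x * S x
        ≤ 4 * K * (α * b) := by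
      intro i _
      set Fi := F1.filter (fun x => lev (f x) = i) with hFi
      have hFisub : Fi ⊆ F := (Finset.filter_subset _ _).trans hF1sub
      have h2i : (0 : ℝ) < 2 ^ i := zpow_pos (by norm_num) _
      have h1 : ∑ x ∈ Fi, f x * S x ≤ ∑ x ∈ Fi, 2 * (2 : ℝ) ^ i * S x := by
        refine Finset.sum_le_sum fun x hx => ?_
        have hx' := Finset.mem_filter.mp hx
        have := lt_lev (t := f x)
        rw [hx'.2] at this
        exact mul_le_mul_of_nonneg_right this.le (hS0 x)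
      have h2 := hset Fi hFisub
      have h3 : (2 : ℝ) ^ i * Real.sqrt Fi.card ≤ α := by
        rw [hα, ← Real.sqrt_sq h2i.le, ← Real.sqrt_mul (by positivity)]
        apply Real.sqrt_le_sqrt
        calc ((2 : ℝ) ^ i) ^ 2 * Fi.card = ∑ x ∈ Fi, ((2 : ℝ) ^ i) ^ 2 := by
              rw [Finset.sum_const, nsmul_eq_mul]; ring
          _ ≤ ∑ x ∈ Fi, f x ^ 2 := by
              refine Finset.sum_le_sum fun x hx => ?_
              have hx' := Finset.mem_filter.mp hx
              have h5 := lev_le (hpos1 x hx'.1)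
              rw [hx'.2] at h5
              nlinarith
          _ ≤ ∑ x ∈ F, f x ^ 2 :=
              Finset.sum_le_sum_of_subset_of_nonneg hFisub (fun x _ _ => by positivity)
      calc _ ≤ ∑ x ∈ Fi, 2 * (2 : ℝ) ^ i * S x := h1
        _ = 2 * (2 : ℝ) ^ i * ∑ x ∈ Fi, S x := by rw [Finset.mul_sum]
        _ ≤ 2 * (2 : ℝ) ^ i * (2 * K * Real.sqrt Fi.card * b) :=
            mul_le_mul_of_nonneg_left h2 (by positivity)
        _ = 4 * K * (((2 : ℝ) ^ i * Real.sqrt Fi.card) * b) := by ring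
        _ ≤ 4 * K * (α * b) := by
            apply mul_le_mul_of_nonneg_left _ (by positivity)
            exact mul_le_mul_of_nonneg_right h3 hb0
    refine (Finset.sum_le_sum hterm).trans ?_
    rw [Finset.sum_const, nsmul_eq_mul]
    apply mul_le_mul_of_nonneg_right _ (by positivity)
    rw [hI, Int.card_Icc]
    have h2 : (lev α + 1 - (lev α - M)).toNat = M + 1 := by
      have : (lev α + 1 - (lev α - M)) = ((M + 1 : ℕ) : ℤ) := by push_cast; ring
      rw [this, Int.toNat_natCast]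
    rw [h2]
    push_cast
    exact le_refl _
  rw [hsplit]
  calc _ ≤ 2 * K * (α * b) + (M + 1) * (4 * K * (α * b)) := add_le_add hsmall hbig
    _ = _ := by ring

/-- the complex trilinear form is bounded by the real one -/
lemma complex_le (F G H : Finset Γ) (f g h : Γ → ℂ) :
    ‖∑ x ∈ F, ∑ y ∈ G, ∑ z ∈ H, (if x * y * z = 1 then f x * g y * h z else 0)‖
      ≤ T F G H (fun x => ‖f x‖) (fun y => ‖g y‖) (fun z => ‖h z‖) := by
  unfold T
  refine (norm_sum_le _ _).trans (Finset.sum_le_sum fun x _ => ?_)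
  refine (norm_sum_le _ _).trans (Finset.sum_le_sum fun y _ => ?_)
  refine (norm_sum_le _ _).trans (Finset.sum_le_sum fun z _ => ?_)
  split_ifs
  · rw [norm_mul, norm_mul]
  · simp

end aux

/-- For every finitely generated group, rapid decay (a polynomial P(r) bounds the trilinear convolution form for f supported in the r-ball) holds iff some polynomial P(r) bounds the number of abc=1 triples in A×B×C by P(r)√(∣A∣∣B∣∣C∣) when A lies in the r-ball. -/
theorem result :
    ∀ (Γ : Type) [Group Γ] [DecidableEq Γ] (S : Finset Γ),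
      Subgroup.closure (S : Set Γ) = ⊤ →
      ((∃ P : Polynomial ℝ, ∀ (r : ℕ) (F G H : Finset Γ) (f g h : Γ → ℂ),
          F ⊆ (insert 1 (S ∪ S⁻¹)) ^ r →
          ‖∑ x ∈ F, ∑ y ∈ G, ∑ z ∈ H, (if x * y * z = 1 then f x * g y * h z else 0)‖
            ≤ P.eval (r : ℝ) *
              (Real.sqrt (∑ x ∈ F, ‖f x‖ ^ 2) * Real.sqrt (∑ y ∈ G, ‖g y‖ ^ 2) *
                Real.sqrt (∑ z ∈ H, ‖h z‖ ^ 2)))
        ↔
       (∃ P : Polynomial ℝ, ∀ (r : ℕ) (A B C : Finset Γ),
          A ⊆ (insert 1 (S ∪ S⁻¹)) ^ r →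
          (((A ×ˢ B ×ˢ C).filter (fun t => t.1 * t.2.1 * t.2.2 = 1)).card : ℝ)
            ≤ P.eval (r : ℝ) * Real.sqrt ((A.card : ℝ) * B.card * C.card))) := by
  intro Γ _ _ S _
  constructor
  · rintro ⟨P, hP⟩
    refine ⟨P, fun r A B C hA => ?_⟩
    have h := hP r A B C (fun _ => 1) (fun _ => 1) (fun _ => 1) hA
    rw [card_eq_N]
    simp only [mul_one, norm_one, one_pow, Finset.sum_const, nsmul_eq_mul] at h
    rw [Real.sqrt_mul (by positivity), Real.sqrt_mul (by positivity)]
    refine le_trans (le_of_eq ?_) h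
    have : (∑ x ∈ A, ∑ y ∈ B, ∑ z ∈ C, (if x * y * z = 1 then (1 : ℂ) else 0))
        = ((N A B C : ℝ) : ℂ) := by
      unfold N
      push_cast
      refine Finset.sum_congr rfl fun x _ => Finset.sum_congr rfl fun y _ =>
        Finset.sum_congr rfl fun z _ => ?_
      split_ifs <;> simp
    rw [this, Complex.norm_real, Real.norm_of_nonneg]
    unfold N
    refine Finset.sum_nonneg fun x _ => Finset.sum_nonneg fun y _ => Finset.sum_nonneg fun z _ => ?_
    split_ifs <;> norm_num
  · rintro ⟨P, hP⟩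
    have hone : ∀ r : ℕ, (1 : Γ) ∈ (insert 1 (S ∪ S⁻¹)) ^ r := by
      intro r
      exact Finset.one_mem_pow (Finset.mem_insert_self _ _)
    have hPpos : ∀ r : ℕ, 0 ≤ P.eval (r : ℝ) := by
      intro r
      have h := hP r {1} {1} {1} (by simpa using hone r)
      simp at h
      refine le_trans ?_ h
      exact Nat.cast_nonneg _
    set n0 : ℕ := (insert 1 (S ∪ S⁻¹)).card with hn0
    refine ⟨(4 * (Polynomial.C (n0 : ℝ) * Polynomial.X + 1) + 2) *
      (2 * P * (2 * (Polynomial.C (n0 : ℝ) * Polynomial.X) + 1) + 1), ?_⟩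
    intro r F G H f g h hF
    refine (complex_le F G H f g h).trans ?_
    have hFM : (F.card : ℝ) ≤ 2 ^ (n0 * r) := by
      have h1 : F.card ≤ n0 ^ r := (Finset.card_le_card hF).trans Finset.card_pow_le
      have h2 : n0 ^ r ≤ (2 ^ n0) ^ r := Nat.pow_le_pow_left (Nat.lt_two_pow_self).le r
      have h3 : F.card ≤ 2 ^ (n0 * r) := by
        rw [pow_mul]; exact h1.trans h2
      exact_mod_cast h3
    have key := full_bound F G H (fun x => ‖f x‖) (fun y => ‖g y‖) (fun z => ‖h z‖)
      (fun x _ => norm_nonneg _) (fun x _ => norm_nonneg _) (fun x _ => norm_nonneg _)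
      (n0 * r) (P.eval (r : ℝ)) (hPpos r) hFM
      (fun A B C hA => by
        rw [← card_eq_N]
        exact hP r A B C (hA.trans hF))
    refine key.trans (le_of_eq ?_)
    congr 1
    simp

end Pool.Agent.S03041
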