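import Pool.Statements.S03055
-- import your own Pool.Agent.* helpers here

set_option autoImplicit false
open Pool Pool.MP_4704fc09_an

open Set Metric Filter Topology
open scoped ContDiff InnerProductSpace

namespace Pool.Agent.S03055

section Abstract

variable {E : Type*} [NormedAddCommGroup E] [NormedSpace ℝ E] [CompleteSpace E]

theorem exists_analytic_norm (f : E → ℝ) (C : ℝ)
    (hconv : ConvexOn ℝ (ball (0:E) 1) f)
    (hsymm : ∀ x ∈ ball (0:E) 1, f (-x) = f x)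
    (han : ∀ x ∈ ball (0:E) 1, AnalyticAt ℝ f x)
    (hblow : ∀ x : E, ‖x‖ = 1 → ∃ s : ℝ, 0 < s ∧ s < 1 ∧ C ≤ f (s • x))
    (hC : f 0 < C) :
    ∃ N : Seminorm ℝ E, ∃ a b : ℝ, 0 < a ∧ 0 < b ∧
      (∀ x, a * ‖x‖ ≤ N x ∧ N x ≤ b * ‖x‖) ∧
      AnalyticOnNhd ℝ (fun x => N x) {x | x ≠ 0} := by
  set D : Set E := {x ∈ ball (0:E) 1 | f x < C} with hD
  have hDconv : Convex ℝ D := hconv.convex_lt C
  have hcont : ContinuousOn f (ball (0:E) 1) :=
    fun x hx => (han x hx).continuousAt.continuousWithinAt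
  have hDopen : IsOpen D := hcont.isOpen_inter_preimage isOpen_ball isOpen_Iio
  have h0 : (0:E) ∈ D := ⟨mem_ball_self one_pos, hC⟩
  have hDnhds : D ∈ 𝓝 (0:E) := hDopen.mem_nhds h0
  have hbal : Balanced ℝ D := by
    rw [balanced_iff_neg_mem hDconv]
    intro x hx
    refine ⟨by simpa using hx.1, ?_⟩
    have := hsymm x hx.1
    rw [this]; exact hx.2
  have habs : Absorbent ℝ D := absorbent_nhds_zero hDnhds
  have hsub : D ⊆ ball (0:E) 1 := fun x hx => hx.1
  obtain ⟨r, hr, hrD⟩ := Metric.mem_nhds_iff.1 hDnhds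
  have hg_lower : ∀ x : E, ‖x‖ ≤ gauge D x := by
    intro x
    have := gauge_mono habs hsub x
    rwa [gauge_unit_ball] at this
  have hg_upper : ∀ x : E, gauge D x ≤ r⁻¹ * ‖x‖ := by
    intro x
    have := mul_gauge_le_norm (x := x) hrD
    rw [inv_mul_eq_div, le_div_iff₀ hr]
    linarith
  have hlt : ∀ x : E, gauge D x < 1 → x ∈ D := by
    intro x hx
    have := setOfPred_gauge_lt_one_eq_self_of_isOpen hDconv h0 hDopen
    rw [← this]; exact hx
  have hgcont : Continuous (gauge D) := continuous_gauge hDconv hDnhds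
  -- the key fact: at every nonzero point, the rescaled point lies in the open ball on the level set
  have hkey : ∀ x : E, x ≠ 0 → (gauge D x)⁻¹ • x ∈ ball (0:E) 1 ∧ f ((gauge D x)⁻¹ • x) = C := by
    intro x hx
    have hxpos : 0 < ‖x‖ := norm_pos_iff.2 hx
    have hgpos : 0 < gauge D x := lt_of_lt_of_le hxpos (hg_lower x)
    set y : E := (gauge D x)⁻¹ • x with hy
    have hgy : gauge D y = 1 := by
      rw [hy, gauge_smul_of_nonneg (inv_nonneg.2 hgpos.le), smul_eq_mul, inv_mul_cancel₀ hgpos.ne']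
    have hynorm : ‖y‖ ≤ 1 := hgy ▸ hg_lower y
    have hsm : ∀ s : ℝ, 0 ≤ s → s < 1 → s • y ∈ D := by
      intro s hs0 hs1
      apply hlt
      rw [gauge_smul_of_nonneg hs0, hgy, smul_eq_mul, mul_one]; exact hs1
    have hynorm' : ‖y‖ < 1 := by
      refine lt_of_le_of_ne hynorm ?_
      intro h1
      obtain ⟨s, hs0, hs1, hs⟩ := hblow y h1
      exact absurd (hsm s hs0.le hs1).2 (not_lt.2 hs)
    have hyball : y ∈ ball (0:E) 1 := by simpa using hynorm'
    refine ⟨hyball, le_antisymm ?_ ?_⟩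
    · -- limit of f (s • y) as s → 1-
      have ht : Tendsto (fun s : ℝ => f (s • y)) (𝓝[<] 1) (𝓝 (f y)) := by
        have h1 : ContinuousAt f y := (han y hyball).continuousAt
        have h2 : Tendsto (fun s : ℝ => s • y) (𝓝[<] 1) (𝓝 y) := by
          have : Tendsto (fun s : ℝ => s • y) (𝓝 1) (𝓝 ((1:ℝ) • y)) :=
            (continuous_id.smul continuous_const).tendsto 1
          rw [one_smul] at this
          exact this.mono_left nhdsWithin_le_nhds
        exact h1.tendsto.comp h2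
      refine le_of_tendsto ht ?_
      filter_upwards [Ioo_mem_nhdsLT (zero_lt_one : (0:ℝ) < 1)] with s hs
      exact (hsm s hs.1.le hs.2).2.le
    · by_contra hlt'
      push Not at hlt'
      have : y ∈ D := ⟨hyball, hlt'⟩
      have := gauge_lt_one_of_mem_of_isOpen hDopen this
      linarith
  refine ⟨gaugeSeminorm hbal hDconv habs, 1, r⁻¹, one_pos, inv_pos.2 hr, ?_, ?_⟩
  · intro x
    refine ⟨by rw [one_mul]; exact hg_lower x, hg_upper x⟩
  · intro x₀ hx₀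
    change AnalyticAt ℝ (gauge D) x₀
    have hx₀' : x₀ ≠ 0 := hx₀
    have hg₀ : 0 < gauge D x₀ := lt_of_lt_of_le (norm_pos_iff.2 hx₀') (hg_lower x₀)
    set s₀ : ℝ := (gauge D x₀)⁻¹ with hs₀
    have hs₀pos : 0 < s₀ := inv_pos.2 hg₀
    obtain ⟨hball, hval⟩ := hkey x₀ hx₀'
    -- the implicit equation
    set F : E × ℝ → ℝ := fun p => f (p.2 • p.1) with hF
    have hFan : AnalyticAt ℝ F (x₀, s₀) := by
      have h1 : AnalyticAt ℝ (fun p : E × ℝ => p.2 • p.1) (x₀, s₀) :=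
        analyticAt_snd.smul analyticAt_fst
      exact AnalyticAt.fun_comp (g := f) (by simpa using han _ hball) h1
    have hFcd : ContDiffAt ℝ ω F (x₀, s₀) := hFan.contDiffAt
    have hfd : HasFDerivAt f (fderiv ℝ f (s₀ • x₀)) (s₀ • x₀) :=
      (han _ hball).differentiableAt.hasFDerivAt
    -- radial derivative
    have hder : HasDerivAt (fun s : ℝ => f (s • x₀)) (fderiv ℝ f (s₀ • x₀) x₀) s₀ := by
      have h1 : HasDerivAt (fun s : ℝ => s • x₀) ((1:ℝ) • x₀) s₀ :=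
        (hasDerivAt_id s₀).smul_const x₀
      rw [one_smul] at h1
      exact hfd.comp_hasDerivAt s₀ h1
    have hderpos : 0 < fderiv ℝ f (s₀ • x₀) x₀ := by
      -- convexity on [0, s₀]
      have hseg : ∀ s ∈ Icc (0:ℝ) s₀, s • x₀ ∈ ball (0:E) 1 := by
        intro s hs
        have : ‖s₀ • x₀‖ < 1 := by simpa using hball
        rw [mem_ball_zero_iff]
        refine lt_of_le_of_lt ?_ this
        rw [norm_smul, norm_smul, Real.norm_of_nonneg hs.1, Real.norm_of_nonneg hs₀pos.le]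
        exact mul_le_mul_of_nonneg_right hs.2 (norm_nonneg _)
      have hcv : ConvexOn ℝ (Icc (0:ℝ) s₀) (fun s : ℝ => f (s • x₀)) := by
        refine ⟨convex_Icc _ _, ?_⟩
        intro s hs t ht a b ha hb hab
        have := hconv.2 (hseg s hs) (hseg t ht) ha hb hab
        simp only [smul_eq_mul] at this ⊢
        have h2 : (a * s + b * t) • x₀ = a • s • x₀ + b • t • x₀ := by
          rw [add_smul, mul_smul, mul_smul]
        rw [h2]; exact this
      have hslope : slope (fun s : ℝ => f (s • x₀)) 0 s₀ ≤ fderiv ℝ f (s₀ • x₀) x₀ := by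
        exact hcv.slope_le_of_hasDerivAt (left_mem_Icc.2 hs₀pos.le) (right_mem_Icc.2 hs₀pos.le) hs₀pos hder
      refine lt_of_lt_of_le ?_ hslope
      rw [slope_def_field]
      simp only [zero_smul, sub_zero]
      rw [hval]
      exact div_pos (sub_pos.2 hC) hs₀pos
    have hinr : (fderiv ℝ F (x₀, s₀) ∘L ContinuousLinearMap.inr ℝ E ℝ) (1:ℝ)
        = fderiv ℝ f (s₀ • x₀) x₀ := by
      have hFd : HasFDerivAt F (fderiv ℝ F (x₀, s₀)) (x₀, s₀) :=
        hFan.differentiableAt.hasFDerivAt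
      have h1 : HasDerivAt (fun s : ℝ => ((x₀, s) : E × ℝ)) ((0:E), (1:ℝ)) s₀ :=
        (hasDerivAt_const s₀ x₀).prodMk (hasDerivAt_id s₀)
      have h2 := hFd.comp_hasDerivAt s₀ h1
      have h3 := h2.unique hder
      simpa using h3
    have hinv : (fderiv ℝ F (x₀, s₀) ∘L ContinuousLinearMap.inr ℝ E ℝ).IsInvertible := by
      have hne : (fderiv ℝ F (x₀, s₀) ∘L ContinuousLinearMap.inr ℝ E ℝ) (1:ℝ) ≠ 0 := by
        rw [hinr]; exact hderpos.ne'
      refine ⟨ContinuousLinearEquiv.unitsEquivAut ℝ (Units.mk0 _ hne), ?_⟩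
      ext
      simp
    have hev := hFcd.eventually_apply_eq_iff_implicitFunction (by simp) hinv
    have hψ := hFcd.contDiffAt_implicitFunction (by simp) hinv
    set ψ := hFcd.implicitFunction (by simp) hinv with hψdef
    have hψan : AnalyticAt ℝ ψ x₀ := hψ.analyticAt
    have hψ0 : ψ x₀ = s₀ := hFcd.implicitFunction_apply_self (by simp) hinv
    have htend : Tendsto (fun x : E => ((x, (gauge D x)⁻¹) : E × ℝ)) (𝓝 x₀) (𝓝 (x₀, s₀)) := by
      refine Tendsto.prodMk_nhds tendsto_id ?_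
      exact (hgcont.tendsto x₀).inv₀ hg₀.ne'
    have hev2 := htend.eventually hev
    have hne : ∀ᶠ x in 𝓝 x₀, x ≠ 0 := isOpen_ne.mem_nhds hx₀'
    have heq : (fun x => (ψ x)⁻¹) =ᶠ[𝓝 x₀] gauge D := by
      filter_upwards [hev2, hne] with x hx hxne
      have h1 : F (x, (gauge D x)⁻¹) = F (x₀, s₀) := by
        simp only [hF]
        rw [(hkey x hxne).2, hval]
      have h2 := hx.1 h1
      rw [h2, inv_inv]
    refine AnalyticAt.congr ?_ heq
    exact hψan.inv (by rw [hψ0]; exact hs₀pos.ne')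

end Abstract

lemma exists_wsum {X : Type*} [NormedAddCommGroup X] [NormedSpace ℝ X] (φ : ℕ → X →L[ℝ] ℝ)
    (hφ : ∀ n, ‖φ n‖ ≤ 1) :
    ∃ W : X →L[ℝ] ℝ, ∀ x : X, HasSum (fun n : ℕ => ((1:ℝ) / 2) ^ n * φ n x) (W x) := by
  have hs : Summable (fun n : ℕ => ((1:ℝ) / 2) ^ n • φ n) := by
    refine Summable.of_norm_bounded (g := fun n : ℕ => ((1:ℝ) / 2) ^ n) summable_geometric_two ?_
    intro n
    rw [norm_smul, norm_pow]
    have h2 : ‖(1:ℝ)/2‖ = 1/2 := by norm_num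
    rw [h2]
    calc (1 / 2 : ℝ) ^ n * _ ≤ (1/2 : ℝ) ^ n * 1 :=
          mul_le_mul_of_nonneg_left (hφ n) (by positivity)
      _ = (1/2 : ℝ) ^ n := mul_one _
  refine ⟨∑' n : ℕ, ((1:ℝ) / 2) ^ n • φ n, fun x => ?_⟩
  have h2 := (ContinuousLinearMap.apply ℝ ℝ x).hasSum hs.hasSum
  simpa using h2

lemma analyticAt_subtype {X : Type*} [NormedAddCommGroup X] [NormedSpace ℝ X] (K : Submodule ℝ X)
    (T : K) : AnalyticAt ℝ (fun T : K => (T : X)) T :=
  (K.subtypeL).analyticAt T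

section Op

variable {H : Type*} [NormedAddCommGroup H] [InnerProductSpace ℝ H] [CompleteSpace H]

/-- `T ↦ 1 - T T*`. -/
noncomputable def defect (T : H →L[ℝ] H) : H →L[ℝ] H := 1 - T * ContinuousLinearMap.adjoint T

/-- `T ↦ (1 - T T*)⁻¹`. -/
noncomputable def resol (T : H →L[ℝ] H) : H →L[ℝ] H := Ring.inverse (defect T)

lemma norm_adj (T : H →L[ℝ] H) : ‖ContinuousLinearMap.adjoint T‖ = ‖T‖ :=
  LinearIsometryEquiv.norm_map _ _

lemma isUnit_defect (T : H →L[ℝ] H) (hT : ‖T‖ < 1) : IsUnit (defect T) := by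
  have h : ‖T * ContinuousLinearMap.adjoint T‖ < 1 := by
    refine lt_of_le_of_lt (norm_mul_le _ _) ?_
    rw [norm_adj]
    nlinarith [norm_nonneg T]
  exact (Units.oneSub _ h).isUnit

lemma defect_resol (T : H →L[ℝ] H) (hT : ‖T‖ < 1) (z : H) : defect T (resol T z) = z := by
  have h := Ring.mul_inverse_cancel _ (isUnit_defect T hT)
  have := congrArg (fun S : H →L[ℝ] H => S z) h
  simpa [resol] using this

lemma inner_defect (T : H →L[ℝ] H) (x y : H) :
    ⟪defect T x, y⟫_ℝ = ⟪x, y⟫_ℝ - ⟪ContinuousLinearMap.adjoint T x, ContinuousLinearMap.adjoint T y⟫_ℝ := by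
  have h : defect T x = x - T (ContinuousLinearMap.adjoint T x) := rfl
  rw [h, inner_sub_left, ContinuousLinearMap.adjoint_inner_right]

lemma inner_defect_self_nonneg (T : H →L[ℝ] H) (hT : ‖T‖ < 1) (x : H) :
    0 ≤ ⟪defect T x, x⟫_ℝ := by
  rw [inner_defect, real_inner_self_eq_norm_sq, real_inner_self_eq_norm_sq]
  have h1 : ‖ContinuousLinearMap.adjoint T x‖ ≤ ‖x‖ := by
    calc ‖ContinuousLinearMap.adjoint T x‖ ≤ ‖ContinuousLinearMap.adjoint T‖ * ‖x‖ :=
          ContinuousLinearMap.le_opNorm _ _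
      _ ≤ 1 * ‖x‖ := by
          rw [norm_adj]; exact mul_le_mul_of_nonneg_right hT.le (norm_nonneg _)
      _ = ‖x‖ := one_mul _
  have := norm_nonneg (ContinuousLinearMap.adjoint T x)
  nlinarith [norm_nonneg x]

/-- the variational lower bound -/
lemma var_le (T : H →L[ℝ] H) (hT : ‖T‖ < 1) (z w : H) :
    2 * ⟪w, z⟫_ℝ - ‖w‖ ^ 2 + ‖ContinuousLinearMap.adjoint T w‖ ^ 2 ≤ ⟪z, resol T z⟫_ℝ := by
  set u := resol T z with hu
  have hAu : defect T u = z := defect_resol T hT z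
  have h0 := inner_defect_self_nonneg T hT (u - w)
  have e1 : ⟪defect T (u - w), u - w⟫_ℝ
      = ⟪defect T u, u⟫_ℝ - ⟪defect T u, w⟫_ℝ - ⟪defect T w, u⟫_ℝ + ⟪defect T w, w⟫_ℝ := by
    rw [map_sub, inner_sub_left, inner_sub_right, inner_sub_right]; ring
  have e2 : ⟪defect T w, u⟫_ℝ = ⟪w, z⟫_ℝ := by
    rw [inner_defect, ← hAu, real_inner_comm (defect T u) w, inner_defect, real_inner_comm w u,
      real_inner_comm (ContinuousLinearMap.adjoint T w)]
  have e3 : ⟪defect T w, w⟫_ℝ = ‖w‖ ^ 2 - ‖ContinuousLinearMap.adjoint T w‖ ^ 2 := by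
    rw [inner_defect, real_inner_self_eq_norm_sq, real_inner_self_eq_norm_sq]
  rw [e1, e2, e3, hAu, real_inner_comm w z] at h0
  linarith

lemma var_eq (T : H →L[ℝ] H) (hT : ‖T‖ < 1) (z : H) :
    2 * ⟪resol T z, z⟫_ℝ - ‖resol T z‖ ^ 2 + ‖ContinuousLinearMap.adjoint T (resol T z)‖ ^ 2
      = ⟪z, resol T z⟫_ℝ := by
  set u := resol T z with hu
  have hAu : defect T u = z := defect_resol T hT z
  have e3 : ⟪defect T u, u⟫_ℝ = ‖u‖ ^ 2 - ‖ContinuousLinearMap.adjoint T u‖ ^ 2 := by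
    rw [inner_defect, real_inner_self_eq_norm_sq, real_inner_self_eq_norm_sq]
  rw [hAu] at e3
  rw [real_inner_comm z u]
  linarith

lemma resol_nonneg (T : H →L[ℝ] H) (hT : ‖T‖ < 1) (z : H) : 0 ≤ ⟪z, resol T z⟫_ℝ := by
  have := var_le T hT z 0
  simpa using this

/-- convexity of `T ↦ ⟨(1 - T T*)⁻¹ z, z⟩` on the open unit ball -/
lemma resol_convex (S T : H →L[ℝ] H) (hS : ‖S‖ < 1) (hT : ‖T‖ < 1) (a b : ℝ) (ha : 0 ≤ a)
    (hb : 0 ≤ b) (hab : a + b = 1) (z : H) :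
    ⟪z, resol (a • S + b • T) z⟫_ℝ ≤ a * ⟪z, resol S z⟫_ℝ + b * ⟪z, resol T z⟫_ℝ := by
  have hX : ‖a • S + b • T‖ < 1 := by
    have h1 : S ∈ ball (0 : H →L[ℝ] H) 1 := by simpa using hS
    have h2 : T ∈ ball (0 : H →L[ℝ] H) 1 := by simpa using hT
    have := convex_ball (0 : H →L[ℝ] H) 1 h1 h2 ha hb hab
    simpa using this
  rw [← var_eq _ hX z]
  set u := resol (a • S + b • T) z
  have hS' := var_le S hS z u
  have hT' := var_le T hT z u
  have hadj : ContinuousLinearMap.adjoint (a • S + b • T) u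
      = a • ContinuousLinearMap.adjoint S u + b • ContinuousLinearMap.adjoint T u := by
    simp [map_add]
  have hcv : ‖ContinuousLinearMap.adjoint (a • S + b • T) u‖ ^ 2
      ≤ a * ‖ContinuousLinearMap.adjoint S u‖ ^ 2 + b * ‖ContinuousLinearMap.adjoint T u‖ ^ 2 := by
    rw [hadj]
    set p := ContinuousLinearMap.adjoint S u
    set q := ContinuousLinearMap.adjoint T u
    have h1 : ‖a • p + b • q‖ ≤ a * ‖p‖ + b * ‖q‖ := by
      refine (norm_add_le _ _).trans ?_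
      rw [norm_smul, norm_smul, Real.norm_of_nonneg ha, Real.norm_of_nonneg hb]
    have h2 : ‖a • p + b • q‖ ^ 2 ≤ (a * ‖p‖ + b * ‖q‖) ^ 2 :=
      pow_le_pow_left₀ (norm_nonneg _) h1 2
    refine h2.trans ?_
    have hb' : b = 1 - a := by linarith
    subst hb'
    nlinarith [mul_nonneg (mul_nonneg ha hb) (sq_nonneg (‖p‖ - ‖q‖))]
  have : 2 * ⟪u, z⟫_ℝ - ‖u‖ ^ 2 = a * (2 * ⟪u, z⟫_ℝ - ‖u‖ ^ 2) + b * (2 * ⟪u, z⟫_ℝ - ‖u‖ ^ 2) := by
    rw [← add_mul, hab, one_mul]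
  nlinarith [mul_le_mul_of_nonneg_left hS' ha, mul_le_mul_of_nonneg_left hT' hb]

lemma analyticAt_resol (T : H →L[ℝ] H) (hT : ‖T‖ < 1) :
    AnalyticAt ℝ (fun S : H →L[ℝ] H => resol S) T := by
  have hadj : AnalyticAt ℝ (fun S : H →L[ℝ] H => ContinuousLinearMap.adjoint S) T := by
    have h := (((starL' ℝ : (H →L[ℝ] H) ≃L[ℝ] (H →L[ℝ] H)) :
      (H →L[ℝ] H) →L[ℝ] (H →L[ℝ] H))).analyticAt T
    exact h
  have hdef : AnalyticAt ℝ (fun S : H →L[ℝ] H => defect S) T :=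
    analyticAt_const.sub (analyticAt_id.mul hadj)
  obtain ⟨u, hu⟩ := isUnit_defect T hT
  have hinv : AnalyticAt ℝ (Ring.inverse : (H →L[ℝ] H) → (H →L[ℝ] H)) (defect T) := by
    rw [← hu]; exact analyticAt_inverse u
  exact AnalyticAt.fun_comp (g := Ring.inverse) hinv hdef

/-- the functional `S ↦ ⟨x, S x⟩` -/
noncomputable def efun (x : H) : (H →L[ℝ] H) →L[ℝ] ℝ :=
  LinearMap.mkContinuous
    { toFun := fun S => ⟪x, S x⟫_ℝ
      map_add' := fun S T => by simp [inner_add_right]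
      map_smul' := fun c S => by simp [inner_smul_right] } (‖x‖ * ‖x‖) (fun S => by
        have a1 : ‖⟪x, S x⟫_ℝ‖ ≤ ‖x‖ * ‖S x‖ := norm_inner_le_norm _ _
        have a2 : ‖S x‖ ≤ ‖S‖ * ‖x‖ := S.le_opNorm _
        have a3 := mul_le_mul_of_nonneg_left a2 (norm_nonneg x)
        simp only [LinearMap.coe_mk, AddHom.coe_mk]
        nlinarith)

lemma norm_efun_le (x : H) (hx : ‖x‖ ≤ 1) : ‖efun x‖ ≤ 1 := by
  have h : ‖efun x‖ ≤ ‖x‖ * ‖x‖ := LinearMap.mkContinuous_norm_le _ (by positivity) _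
  nlinarith [norm_nonneg x]

lemma exists_wfun (e : ℕ → H) (he : ∀ n, ‖e n‖ ≤ 1) :
    ∃ W : (H →L[ℝ] H) →L[ℝ] ℝ, ∀ S : H →L[ℝ] H,
      HasSum (fun n : ℕ => ((1:ℝ) / 2) ^ n * ⟪e n, S (e n)⟫_ℝ) (W S) :=
  exists_wsum (fun n => efun (e n)) (fun n => norm_efun_le (e n) (he n))

/-- the weighted functional -/
noncomputable def wfun (e : ℕ → H) (he : ∀ n, ‖e n‖ ≤ 1) : (H →L[ℝ] H) →L[ℝ] ℝ :=
  (exists_wfun e he).choose

lemma wfun_apply (e : ℕ → H) (he : ∀ n, ‖e n‖ ≤ 1) (S : H →L[ℝ] H) :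
    HasSum (fun n : ℕ => ((1:ℝ) / 2) ^ n * ⟪e n, S (e n)⟫_ℝ) (wfun e he S) :=
  (exists_wfun e he).choose_spec S

/-- the barrier function -/
noncomputable def barrier (e : ℕ → H) (he : ∀ n, ‖e n‖ ≤ 1) (T : H →L[ℝ] H) : ℝ :=
  wfun e he (resol T)

lemma barrier_hasSum (e : ℕ → H) (he : ∀ n, ‖e n‖ ≤ 1) (T : H →L[ℝ] H) :
    HasSum (fun n : ℕ => ((1:ℝ) / 2) ^ n * ⟪e n, resol T (e n)⟫_ℝ) (barrier e he T) :=
  wfun_apply e he _

lemma barrier_analytic (e : ℕ → H) (he : ∀ n, ‖e n‖ ≤ 1) (T : H →L[ℝ] H) (hT : ‖T‖ < 1) :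
    AnalyticAt ℝ (barrier e he) T :=
  AnalyticAt.fun_comp (g := wfun e he) ((wfun e he).analyticAt _) (analyticAt_resol T hT)

lemma barrier_neg (e : ℕ → H) (he : ∀ n, ‖e n‖ ≤ 1) (T : H →L[ℝ] H) :
    barrier e he (-T) = barrier e he T := by
  have : defect (-T) = defect T := by simp [defect]
  simp [barrier, resol, this]

lemma barrier_convex (e : ℕ → H) (he : ∀ n, ‖e n‖ ≤ 1) (S T : H →L[ℝ] H) (hS : ‖S‖ < 1)
    (hT : ‖T‖ < 1) (a b : ℝ) (ha : 0 ≤ a) (hb : 0 ≤ b) (hab : a + b = 1) :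
    barrier e he (a • S + b • T) ≤ a * barrier e he S + b * barrier e he T := by
  have h1 := barrier_hasSum e he (a • S + b • T)
  have h2 := ((barrier_hasSum e he S).mul_left a).add ((barrier_hasSum e he T).mul_left b)
  refine hasSum_le ?_ h1 h2
  intro n
  have := resol_convex S T hS hT a b ha hb hab (e n)
  have hp : (0:ℝ) ≤ (1/2)^n := by positivity
  nlinarith [mul_le_mul_of_nonneg_left this hp]

lemma barrier_ge (e : ℕ → H) (he : ∀ n, ‖e n‖ ≤ 1) (T : H →L[ℝ] H) (hT : ‖T‖ < 1) (n : ℕ) :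
    (1/2)^n * ⟪e n, resol T (e n)⟫_ℝ ≤ barrier e he T := by
  refine le_hasSum (barrier_hasSum e he T) n ?_
  intro m _
  exact mul_nonneg (by positivity) (resol_nonneg T hT _)

/-- a compact operator of norm one has a unit vector `v` with `‖T* v‖ = 1`. -/
lemma exists_top (T : H →L[ℝ] H) (hc : IsCompactOperator T) (hT : ‖T‖ = 1) :
    ∃ v : H, ‖v‖ = 1 ∧ ‖ContinuousLinearMap.adjoint T v‖ = 1 := by
  -- maximizing sequence for `‖T x‖`, then use `w = T x`
  have h1 : ∀ n : ℕ, ∃ x : H, ‖x‖ ≤ 1 ∧ 1 - 1 / ((n : ℝ) + 1) < ‖T x‖ := by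
    intro n
    have hlt : 1 - 1 / ((n : ℝ) + 1) < ‖T‖ := by
      rw [hT]; have : (0:ℝ) < 1 / ((n : ℝ) + 1) := by positivity
      linarith
    obtain ⟨x, hx, hx'⟩ := ContinuousLinearMap.exists_lt_apply_of_lt_opNorm T hlt
    exact ⟨x, hx.le, hx'⟩
  choose x hx hTx using h1
  have hK : IsCompact (closure (T '' closedBall (0:H) 1)) :=
    hc.isCompact_closure_image_closedBall 1
  have hmem : ∀ n, T (x n) ∈ closure (T '' closedBall (0:H) 1) := fun n =>
    subset_closure ⟨x n, by simpa using hx n, rfl⟩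
  obtain ⟨v, -, φ, hφ, hlim⟩ := hK.tendsto_subseq hmem
  have hTx_le : ∀ n, ‖T (x n)‖ ≤ 1 := fun n => by
    calc ‖T (x n)‖ ≤ ‖T‖ * ‖x n‖ := T.le_opNorm _
      _ ≤ 1 * 1 := by rw [hT]; gcongr; exact hx n
      _ = 1 := by ring
  have hnorm : Tendsto (fun n => ‖T (x (φ n))‖) atTop (𝓝 1) := by
    refine tendsto_of_tendsto_of_tendsto_of_le_of_le (g := fun n : ℕ => 1 - 1 / (((φ n : ℕ) : ℝ) + 1))
      (h := fun _ => 1) ?_ tendsto_const_nhds ?_ ?_
    · have h2 : Tendsto (fun n : ℕ => 1 / ((n : ℝ) + 1)) atTop (𝓝 0) :=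
        tendsto_one_div_add_atTop_nhds_zero_nat
      have h3 := h2.comp hφ.tendsto_atTop
      have h4 := (tendsto_const_nhds (x := (1:ℝ))).sub h3
      simpa using h4
    · intro n; exact (hTx (φ n)).le
    · intro n; exact hTx_le (φ n)
  have hv : ‖v‖ = 1 := tendsto_nhds_unique hlim.norm hnorm
  refine ⟨v, hv, le_antisymm ?_ ?_⟩
  · calc ‖ContinuousLinearMap.adjoint T v‖ ≤ ‖ContinuousLinearMap.adjoint T‖ * ‖v‖ :=
        ContinuousLinearMap.le_opNorm _ _
      _ = 1 := by rw [norm_adj, hT, hv, one_mul]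
  · -- ‖T* v‖ ≥ lim ⟨T* v, x⟩ = lim ⟨v, T x⟩ = ‖v‖² = 1
    have h5 : Tendsto (fun n => ⟪v, T (x (φ n))⟫_ℝ) atTop (𝓝 ⟪v, v⟫_ℝ) :=
      tendsto_const_nhds.inner hlim
    have h6 : ∀ n, ⟪v, T (x (φ n))⟫_ℝ ≤ ‖ContinuousLinearMap.adjoint T v‖ := by
      intro n
      rw [← ContinuousLinearMap.adjoint_inner_left]
      calc ⟪ContinuousLinearMap.adjoint T v, x (φ n)⟫_ℝ
          ≤ ‖ContinuousLinearMap.adjoint T v‖ * ‖x (φ n)‖ := real_inner_le_norm _ _
        _ ≤ ‖ContinuousLinearMap.adjoint T v‖ * 1 := by gcongr; exact hx _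
        _ = _ := mul_one _
    have h7 := le_of_tendsto' h5 h6
    rw [real_inner_self_eq_norm_sq, hv] at h7
    simpa using h7

lemma barrier_blow (e : ℕ → H) (he : ∀ n, ‖e n‖ ≤ 1)
    (htot : ∀ v : H, (∀ n, ⟪e n, v⟫_ℝ = 0) → v = 0) (T : H →L[ℝ] H)
    (hc : IsCompactOperator T) (hT : ‖T‖ = 1) (C : ℝ) :
    ∃ s : ℝ, 0 < s ∧ s < 1 ∧ C ≤ barrier e he (s • T) := by
  obtain ⟨v, hv, hTv⟩ := exists_top T hc hT
  have hv0 : v ≠ 0 := by
    intro h; rw [h, norm_zero] at hv; exact zero_ne_one hv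
  have hex : ∃ n, ⟪e n, v⟫_ℝ ≠ 0 := by
    by_contra hcon
    push Not at hcon
    exact hv0 (htot v hcon)
  obtain ⟨n, hn⟩ := hex
  set α : ℝ := ⟪e n, v⟫_ℝ with hα
  have hαpos : 0 < α ^ 2 := by positivity
  set K : ℝ := (1/2 : ℝ)^n * α ^ 2 with hK
  have hKpos : 0 < K := by positivity
  -- lower bound for 0 < s < 1
  have hlow : ∀ s : ℝ, 0 < s → s < 1 → K / (1 - s ^ 2) ≤ barrier e he (s • T) := by
    intro s hs0 hs1
    have hsT : ‖s • T‖ < 1 := by
      rw [norm_smul, hT, mul_one, Real.norm_of_nonneg hs0.le]; exact hs1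
    have hd : 0 < 1 - s ^ 2 := by nlinarith
    refine le_trans ?_ (barrier_ge e he (s • T) hsT n)
    have h := var_le (s • T) hsT (e n) ((α / (1 - s ^ 2)) • v)
    have h1 : ⟪(α / (1 - s ^ 2)) • v, e n⟫_ℝ = α ^ 2 / (1 - s ^ 2) := by
      rw [inner_smul_left, real_inner_comm]
      simp only [conj_trivial]
      rw [← hα]; ring
    have h2 : ‖(α / (1 - s ^ 2)) • v‖ ^ 2 = α ^ 2 / (1 - s ^ 2) ^ 2 := by
      rw [norm_smul, hv, mul_one, Real.norm_eq_abs, sq_abs, div_pow]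
    have h3 : ‖ContinuousLinearMap.adjoint (s • T) ((α / (1 - s ^ 2)) • v)‖ ^ 2
        = s ^ 2 * (α ^ 2 / (1 - s ^ 2) ^ 2) := by
      have : ContinuousLinearMap.adjoint (s • T) = s • ContinuousLinearMap.adjoint T := by
        simp
      rw [this, smul_apply, map_smul, norm_smul, norm_smul, hTv, mul_one,
        mul_pow, Real.norm_eq_abs, sq_abs, Real.norm_eq_abs, sq_abs, div_pow]
    rw [h1, h2, h3] at h
    have h4 : 2 * (α ^ 2 / (1 - s ^ 2)) - α ^ 2 / (1 - s ^ 2) ^ 2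
        + s ^ 2 * (α ^ 2 / (1 - s ^ 2) ^ 2) = α ^ 2 / (1 - s ^ 2) := by
      field_simp
      ring
    rw [h4] at h
    rw [hK, mul_div_assoc]
    exact mul_le_mul_of_nonneg_left h (by positivity)
  -- choose s
  by_cases hCpos : C ≤ K
  · refine ⟨1/2, by norm_num, by norm_num, le_trans ?_ (hlow (1/2) (by norm_num) (by norm_num))⟩
    refine hCpos.trans ?_
    rw [le_div_iff₀ (by norm_num)]
    nlinarith
  · push Not at hCpos
    have hCp : 0 < C := hKpos.trans hCpos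
    -- want K / (1 - s^2) = C : s^2 = 1 - K / C
    have hq : 0 < K / C := by positivity
    have hq1 : K / C < 1 := (div_lt_one hCp).2 hCpos
    refine ⟨Real.sqrt (1 - K / C), Real.sqrt_pos.2 (by linarith), ?_, ?_⟩
    · rw [Real.sqrt_lt' one_pos]; linarith
    · refine le_trans ?_ (hlow _ (Real.sqrt_pos.2 (by linarith)) (by rw [Real.sqrt_lt' one_pos]; linarith))
      rw [Real.sq_sqrt (by linarith)]
      have : 1 - (1 - K / C) = K / C := by ring
      rw [this, div_div_eq_mul_div, mul_comm K C, mul_div_assoc, div_self hKpos.ne', mul_one]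

/-- Main: the space of compact operators on a separable real Hilbert space. -/
theorem compact_analytic_norm (e : ℕ → H) (he : ∀ n, ‖e n‖ ≤ 1)
    (htot : ∀ v : H, (∀ n, ⟪e n, v⟫_ℝ = 0) → v = 0) :
    ∃ N : Seminorm ℝ ↥(compactOperator (RingHom.id ℝ) H H),
      ∃ a b : ℝ, 0 < a ∧ 0 < b ∧
        (∀ T : ↥(compactOperator (RingHom.id ℝ) H H), a * ‖T‖ ≤ N T ∧ N T ≤ b * ‖T‖) ∧
        AnalyticOnNhd ℝ (fun T => N T)
          {T : ↥(compactOperator (RingHom.id ℝ) H H) | T ≠ 0} := by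
  have hclosed : IsClosed ((compactOperator (RingHom.id ℝ) H H : Submodule ℝ (H →L[ℝ] H)) :
      Set (H →L[ℝ] H)) := isClosed_setOfPred_isCompactOperator
  have : CompleteSpace ↥(compactOperator (RingHom.id ℝ) H H) := hclosed.completeSpace_coe
  set f : ↥(compactOperator (RingHom.id ℝ) H H) → ℝ := fun T => barrier e he (T : H →L[ℝ] H) with hf
  refine exists_analytic_norm f (f 0 + 1) ?_ ?_ ?_ ?_ (by linarith)
  · refine ⟨convex_ball _ _, ?_⟩
    intro S hS T hT a b ha hb hab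
    have hS' : ‖(S : H →L[ℝ] H)‖ < 1 := by simpa using hS
    have hT' : ‖(T : H →L[ℝ] H)‖ < 1 := by simpa using hT
    exact barrier_convex e he S T hS' hT' a b ha hb hab
  · intro T _
    exact barrier_neg e he _
  · intro T hT
    have hT' : ‖(T : H →L[ℝ] H)‖ < 1 := by simpa using hT
    have hval : AnalyticAt ℝ (fun T : ↥(compactOperator (RingHom.id ℝ) H H) => (T : H →L[ℝ] H)) T :=
      analyticAt_subtype _ T
    exact AnalyticAt.fun_comp (g := barrier e he) (barrier_analytic e he _ hT') hval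
  · intro T hT
    exact barrier_blow e he htot (T : H →L[ℝ] H) T.2 hT _

end Op



/-- The space of compact operators on real ℓ₂ with the operator norm carries a norm, equivalent to the operator norm, that is real analytic at every nonzero operator. -/
theorem result :
    ∃ N : Seminorm ℝ ↥(compactOperator (RingHom.id ℝ) (lp (fun _ : ℕ => ℝ) 2) (lp (fun _ : ℕ => ℝ) 2)),
      ∃ a b : ℝ, 0 < a ∧ 0 < b ∧
        (∀ T : ↥(compactOperator (RingHom.id ℝ) (lp (fun _ : ℕ => ℝ) 2) (lp (fun _ : ℕ => ℝ) 2)),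
          a * ‖T‖ ≤ N T ∧ N T ≤ b * ‖T‖) ∧
        AnalyticOnNhd ℝ (fun T => N T)
          {T : ↥(compactOperator (RingHom.id ℝ) (lp (fun _ : ℕ => ℝ) 2) (lp (fun _ : ℕ => ℝ) 2)) | T ≠ 0} := by
  refine compact_analytic_norm (H := lp (fun _ : ℕ => ℝ) 2)
    (fun n => lp.single 2 n (1:ℝ)) (fun n => ?_) (fun v hv => ?_)
  · rw [lp.norm_single (by norm_num)]
    simp
  · ext n
    have h := hv n
    rw [lp.inner_single_left] at h
    simpa using h

end Pool.Agent.S03055
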