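import Pool.Statements.S03057
import Pool.Agent.Helper871.Frechet

set_option autoImplicit false
open Pool Pool.MP_471c81_an

namespace Pool.Agent.S03057

/-- For every separable reflexive real Banach space X and closed subspace Y, every equivalent norm on Y that is Fréchet differentiable away from 0 extends to an equivalent norm on X that is Fréchet differentiable away from 0. -/
theorem result :
    ∀ (X : Type) [NormedAddCommGroup X] [NormedSpace ℝ X] [CompleteSpace X]
      [TopologicalSpace.SeparableSpace X],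
      Function.Surjective (NormedSpace.inclusionInDoubleDual ℝ X) →
      ∀ (Y : Submodule ℝ X), IsClosed (Y : Set X) →
      ∀ (N : Seminorm ℝ Y),
        (∃ c C : ℝ, 0 < c ∧ 0 < C ∧ ∀ y : Y, c * ‖y‖ ≤ N y ∧ N y ≤ C * ‖y‖) →
        (∀ y : Y, y ≠ 0 → DifferentiableAt ℝ (⇑N) y) →
        ∃ M : Seminorm ℝ X,
          (∃ c C : ℝ, 0 < c ∧ 0 < C ∧ ∀ x : X, c * ‖x‖ ≤ M x ∧ M x ≤ C * ‖x‖) ∧
          (∀ x : X, x ≠ 0 → DifferentiableAt ℝ (⇑M) x) ∧
          ∀ y : Y, M (y : X) = N y := by
  intro X _ _ _ _ hrefl Y hY N hN hNd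
  have hsepD : TopologicalSpace.SeparableSpace (StrongDual ℝ X) := by
    have h1 : TopologicalSpace.SeparableSpace (StrongDual ℝ (StrongDual ℝ X)) :=
      (hrefl.denseRange).separableSpace (NormedSpace.inclusionInDoubleDual ℝ X).continuous
    exact Pool.Agent.Helper871.Frechet.separable_of_dual _
  obtain ⟨c, C, hc, hC, hcC⟩ := hN
  by_cases hYne : ∃ y : Y, y ≠ 0
  · have hcl : IsClosed (Set.range Y.subtypeₗᵢ) := by
      have : Set.range Y.subtypeₗᵢ = (Y : Set X) := by
        ext x; simp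
      rw [this]; exact hY
    obtain ⟨M, ⟨hadd, hsmul, ⟨a, b, ha, hab⟩, hdiff⟩, hext⟩ :=
      Pool.Agent.Helper871.Frechet.frechet_extension (Z := X) (X := Y) Y.subtypeₗᵢ hcl N
        (fun x y => map_add_le_add N x y) (fun c x => by rw [map_smul_eq_mul]; rfl)
        ⟨c, C, hc, hcC⟩ hNd hYne
    refine ⟨Seminorm.of M hadd (fun a x => by rw [hsmul]; rfl), ⟨a, max b 1, ha, by positivity,
      fun x => ⟨(hab x).1, le_trans (hab x).2 ?_⟩⟩, hdiff, fun y => hext y⟩
    gcongr
    exact le_max_left _ _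
  · push Not at hYne
    by_cases hXne : ∃ x : X, x ≠ 0
    · obtain ⟨x₀, hx₀⟩ := hXne
      have hnx : ‖x₀‖ ≠ 0 := norm_ne_zero_iff.mpr hx₀
      let ι : ℝ →ₗᵢ[ℝ] X :=
        { toLinearMap := LinearMap.toSpanSingleton ℝ X (‖x₀‖⁻¹ • x₀)
          norm_map' := by
            intro t
            simp only [LinearMap.toSpanSingleton_apply]
            rw [norm_smul, norm_smul, norm_inv, norm_norm, inv_mul_cancel₀ hnx, mul_one] }
      have hcl : IsClosed (Set.range ι) := ι.isometry.isClosedEmbedding.isClosed_range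
      obtain ⟨M, ⟨hadd, hsmul, ⟨a, b, ha, hab⟩, hdiff⟩, hext⟩ :=
        Pool.Agent.Helper871.Frechet.frechet_extension (Z := X) (X := ℝ) ι hcl (fun t => |t|)
          (fun x y => abs_add_le x y) (fun c x => by rw [smul_eq_mul, abs_mul])
          ⟨1, 1, one_pos, fun x => by rw [Real.norm_eq_abs]; simp⟩
          (fun x hx => differentiableAt_abs hx) ⟨1, one_ne_zero⟩
      refine ⟨Seminorm.of M hadd (fun a x => by rw [hsmul]; rfl), ⟨a, max b 1, ha, by positivity,
        fun x => ⟨(hab x).1, le_trans (hab x).2 ?_⟩⟩, hdiff, fun y => ?_⟩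
      · gcongr
        exact le_max_left _ _
      · rw [hYne y]
        simp
    · push Not at hXne
      refine ⟨0, ⟨1, 1, one_pos, one_pos, fun x => ?_⟩, fun x hx => absurd (hXne x) hx, fun y => ?_⟩
      · rw [hXne x]; simp
      · rw [hYne y]; simp


end Pool.Agent.S03057
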