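import Pool.Statements.S03059
import Pool.Agent.Helper296.Bourin

set_option autoImplicit false
open scoped ComplexOrder
open Pool Pool.MP_4777ae_an

namespace Pool.Agent.S03059

/-- For all n×n complex PSD matrices A, B, reals p, q > 0, and every unitarily invariant norm N, N(A^p B^q + B^p A^q) ≤ N(A^(p+q) + B^(p+q)), with powers taken spectrally. -/
theorem result :
    ∀ (n : ℕ) (A B : Matrix (Fin n) (Fin n) ℂ) (hA : A.PosSemidef) (hB : B.PosSemidef),
    ∀ (p q : ℝ), 0 < p → 0 < q →
    ∀ N : Matrix (Fin n) (Fin n) ℂ → ℝ,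
      (∀ X, N X = 0 → X = 0) →
      (∀ (c : ℂ) (X : Matrix (Fin n) (Fin n) ℂ), N (c • X) = ‖c‖ * N X) →
      (∀ X Y, N (X + Y) ≤ N X + N Y) →
      (∀ U ∈ Matrix.unitaryGroup (Fin n) ℂ, ∀ V ∈ Matrix.unitaryGroup (Fin n) ℂ,
        ∀ X, N (U * X * V) = N X) →
      N ((hA.isHermitian.eigenvectorUnitary : Matrix (Fin n) (Fin n) ℂ)
            * Matrix.diagonal (fun i => Complex.ofReal (hA.isHermitian.eigenvalues i ^ p))
            * star (hA.isHermitian.eigenvectorUnitary : Matrix (Fin n) (Fin n) ℂ)
          * ((hB.isHermitian.eigenvectorUnitary : Matrix (Fin n) (Fin n) ℂ)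
            * Matrix.diagonal (fun i => Complex.ofReal (hB.isHermitian.eigenvalues i ^ q))
            * star (hB.isHermitian.eigenvectorUnitary : Matrix (Fin n) (Fin n) ℂ))
        + (hB.isHermitian.eigenvectorUnitary : Matrix (Fin n) (Fin n) ℂ)
            * Matrix.diagonal (fun i => Complex.ofReal (hB.isHermitian.eigenvalues i ^ p))
            * star (hB.isHermitian.eigenvectorUnitary : Matrix (Fin n) (Fin n) ℂ)
          * ((hA.isHermitian.eigenvectorUnitary : Matrix (Fin n) (Fin n) ℂ)
            * Matrix.diagonal (fun i => Complex.ofReal (hA.isHermitian.eigenvalues i ^ q))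
            * star (hA.isHermitian.eigenvectorUnitary : Matrix (Fin n) (Fin n) ℂ)))
        ≤ N ((hA.isHermitian.eigenvectorUnitary : Matrix (Fin n) (Fin n) ℂ)
            * Matrix.diagonal (fun i => Complex.ofReal (hA.isHermitian.eigenvalues i ^ (p + q)))
            * star (hA.isHermitian.eigenvectorUnitary : Matrix (Fin n) (Fin n) ℂ)
          + (hB.isHermitian.eigenvectorUnitary : Matrix (Fin n) (Fin n) ℂ)
            * Matrix.diagonal (fun i => Complex.ofReal (hB.isHermitian.eigenvalues i ^ (p + q)))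
            * star (hB.isHermitian.eigenvectorUnitary : Matrix (Fin n) (Fin n) ℂ)) := by
  intro n A B hA hB p q hp hq N _ hh ht hu
  exact Pool.Agent.Helper296.Bourin.main n A B hA hB p q hp hq N hh ht hu

end Pool.Agent.S03059
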