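import Pool.Statements.S03064
import Pool.Agent.Helper380.B7

set_option autoImplicit false
open Pool Pool.MP_48d627_an

namespace Pool.Agent.S03064

/-- The negation of the preceding statement: For every analytic selfmap φ of the unit disc with no fixed point in the disc, and every μ, the map C_φ − μ on H² is bijective exactly when it is Fredholm. That is, the spectrum of C_φ on H² equals its essential spectrum. -/
theorem result :
    ¬ (∀ φ : ℂ → ℂ, DifferentiableOn ℂ φ (Metric.ball (0:ℂ) 1) →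
      Set.MapsTo φ (Metric.ball (0:ℂ) 1) (Metric.ball (0:ℂ) 1) →
      (∀ z ∈ Metric.ball (0:ℂ) 1, φ z ≠ z) →
      ∀ H : Set (ℂ → ℂ),
        (∀ f : ℂ → ℂ, f ∈ H ↔
          (DifferentiableOn ℂ f (Metric.ball (0:ℂ) 1) ∧
           (∀ z : ℂ, z ∉ Metric.ball (0:ℂ) 1 → f z = 0) ∧
           ∃ M : ℝ, ∀ r : ℝ, 0 ≤ r → r < 1 →
             intervalIntegral
               (fun θ : ℝ => ‖f ((r:ℂ) * Complex.exp ((θ:ℂ) * Complex.I))‖ ^ 2)
               0 (2 * Real.pi) MeasureTheory.volume ≤ M)) →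
      ∀ μ : ℂ,
        (∀ g ∈ H, ∃! f : ℂ → ℂ, f ∈ H ∧
            (Metric.ball (0:ℂ) 1).indicator (f ∘ φ) - μ • f = g) ↔
        ((∃ n : ℕ, ∃ e : Fin n → ℂ → ℂ, ∀ f ∈ H,
            (Metric.ball (0:ℂ) 1).indicator (f ∘ φ) = μ • f →
            ∃ c : Fin n → ℂ, f = ∑ i, c i • e i) ∧
         (∃ n : ℕ, ∃ e : Fin n → ℂ → ℂ, ∀ g ∈ H, ∃ c : Fin n → ℂ, ∃ f ∈ H,
            g = (Metric.ball (0:ℂ) 1).indicator (f ∘ φ) - μ • f + ∑ i, c i • e i))) := by
  intro H0
  have hφ : ∀ z ∈ Metric.ball (0:ℂ) 1, Helper380.B7.phi z ≠ z := fun z hz => Helper380.B7.phi_ne hz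
  have key := H0 Helper380.B7.phi Helper380.B7.differentiableOn_phi
    (fun z hz => Helper380.B7.phi_mem hz) hφ {f | Helper380.B7.HS f} (fun f => Iff.rfl)
    Helper380.B4.μ
  have hF : (∀ g ∈ {f | Helper380.B7.HS f}, ∃! f : ℂ → ℂ, f ∈ {f | Helper380.B7.HS f} ∧
      (Metric.ball (0:ℂ) 1).indicator (f ∘ Helper380.B7.phi) - Helper380.B4.μ • f = g) := by
    refine key.2 ⟨⟨1, fun _ => Helper380.B7.e₀, fun f hf hker => ?_⟩,
      ⟨0, fun _ => 0, fun g hg => ?_⟩⟩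
    · obtain ⟨c, hc⟩ := Helper380.B7.ker hf hker
      exact ⟨fun _ => c, by simpa using hc⟩
    · obtain ⟨f, hf, hfg⟩ := Helper380.B7.onto hg
      refine ⟨fun _ => 0, f, hf, ?_⟩
      simp only [Finset.univ_eq_empty, Finset.sum_empty, add_zero]
      exact hfg.symm
  have hzero : Helper380.B7.HS 0 := by
    refine ⟨differentiableOn_const _, fun _ _ => rfl, 0, fun r _ _ => ?_⟩
    simp [Helper380.B1.mean]
  obtain ⟨f, -, huniq⟩ := hF 0 hzero
  have h1 := huniq 0 ⟨hzero, by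
    funext z
    by_cases hz : z ∈ Metric.ball (0:ℂ) 1
    · simp
    · simp⟩
  have h2 := huniq Helper380.B7.e₀ ⟨Helper380.B7.HS_e₀, by
    rw [Helper380.B7.eigen_e₀, sub_self]⟩
  exact Helper380.B7.e₀_ne (h2.trans h1.symm)

end Pool.Agent.S03064
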