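import Pool.Statements.S03065
import Pool.Agent.Helper900.UB.Bridge

set_option autoImplicit false
open Pool Pool.MP_496271_an

namespace Pool.Agent.S03065

/-- If a sequence of bounded linear functionals on H^∞ of the disc (sup norm) is pointwise bounded at every inner function (radial limits of modulus 1 a.e.), then their operator norms are uniformly bounded. -/
theorem result :
    ∀ Λ : ℕ → ((Submodule.span ℂ {f : BoundedContinuousFunction (Metric.ball (0:ℂ) 1) ℂ |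
        ∃ F : ℂ → ℂ, DifferentiableOn ℂ F (Metric.ball (0:ℂ) 1) ∧ ∀ z : Metric.ball (0:ℂ) 1, f z = F (z : ℂ)}) →L[ℂ] ℂ),
      (∀ φ : Submodule.span ℂ {f : BoundedContinuousFunction (Metric.ball (0:ℂ) 1) ℂ |
          ∃ F : ℂ → ℂ, DifferentiableOn ℂ F (Metric.ball (0:ℂ) 1) ∧ ∀ z : Metric.ball (0:ℂ) 1, f z = F (z : ℂ)},
        (∃ F : ℂ → ℂ, (∀ z : Metric.ball (0:ℂ) 1,
            (φ : BoundedContinuousFunction (Metric.ball (0:ℂ) 1) ℂ) z = F (z : ℂ)) ∧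
          ∀ᵐ θ : ℝ, ∃ w : ℂ, ‖w‖ = 1 ∧
            Filter.Tendsto (fun r : ℝ => F ((r : ℂ) * Complex.exp ((θ : ℂ) * Complex.I)))
              (nhdsWithin (1 : ℝ) (Set.Iio 1)) (nhds w)) →
        ∃ C : ℝ, ∀ n : ℕ, ‖Λ n φ‖ ≤ C) →
      ∃ C : ℝ, ∀ n : ℕ, ‖Λ n‖ ≤ C := by
  intro Λ h
  exact Pool.Agent.Helper900.UB.bridge Λ h

end Pool.Agent.S03065
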