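import Pool.Statements.S03068
-- import your own Pool.Agent.* helpers here

set_option autoImplicit false
open Pool Pool.MP_4998f1_an

open scoped ENNReal

namespace Pool.Agent.S03068

/-! ### abstract lemmas -/

section Abstract

theorem abs_exists_char (X : Type) [NormedAddCommGroup X] [NormedSpace ℂ X] [CompleteSpace X]
    [Nontrivial X] (A : Subalgebra ℂ (X →L[ℂ] X)) (hA : IsClosed (A : Set (X →L[ℂ] X)))
    (z a : A) (ev : ℕ → (A →ₐ[ℂ] ℂ))
    (h1 : Filter.Tendsto (fun n => ‖ev n z‖) Filter.atTop (nhds 1))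
    (h2 : Filter.Tendsto (fun n => ‖ev n a‖) Filter.atTop (nhds ‖a‖)) :
    ∃ χ : WeakDual.characterSpace ℂ A, ‖χ z‖ = 1 ∧
      ∀ ψ : WeakDual.characterSpace ℂ A, ‖ψ a‖ ≤ ‖χ a‖ := by
  have : CompleteSpace A := hA.completeSpace_coe
  have h1A : NormOneClass A := ⟨by
    have h : ‖(1 : A)‖ = ‖(1 : X →L[ℂ] X)‖ := rfl
    rw [h, norm_one]⟩
  let F : WeakDual.characterSpace ℂ A → ℝ × ℝ := fun χ => (‖χ z‖, ‖χ a‖)
  have hce : ∀ a : A, Continuous (fun χ : WeakDual.characterSpace ℂ A => ‖χ a‖) := fun a =>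
    continuous_norm.comp ((WeakDual.eval_continuous a).comp continuous_subtype_val)
  have hF : Continuous F := (hce z).prodMk (hce a)
  have hcl : IsClosed (Set.range F) := (isCompact_range hF).isClosed
  have hlim : Filter.Tendsto
      (fun n => F (WeakDual.CharacterSpace.equivAlgHom (𝕜 := ℂ) (A := A).symm (ev n)))
      Filter.atTop (nhds ((1 : ℝ), ‖a‖)) := Filter.Tendsto.prodMk_nhds h1 h2
  obtain ⟨χ, hχ⟩ := hcl.mem_of_tendsto hlim (Filter.Eventually.of_forall fun n => ⟨_, rfl⟩)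
  have e1 : ‖χ z‖ = 1 := congrArg Prod.fst hχ
  have e2 : ‖χ a‖ = ‖a‖ := congrArg Prod.snd hχ
  refine ⟨χ, e1, fun ψ => ?_⟩
  rw [e2]
  exact AlgHom.norm_apply_le_self ψ a

theorem abs_isClosed (X : Type) [NormedAddCommGroup X] [NormedSpace ℂ X] [CompleteSpace X]
    (A : Subalgebra ℂ (X →L[ℂ] X)) (z : A) :
    IsClosed {χ : WeakDual.characterSpace ℂ A | ‖χ z‖ = 1} := by
  have hce : Continuous (fun χ : WeakDual.characterSpace ℂ A => ‖χ z‖) :=
    continuous_norm.comp ((WeakDual.eval_continuous z).comp continuous_subtype_val)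
  exact isClosed_eq hce continuous_const

theorem abs_smul (X : Type) [NormedAddCommGroup X] [NormedSpace ℂ X] [CompleteSpace X]
    (A : Subalgebra ℂ (X →L[ℂ] X)) (χ : WeakDual.characterSpace ℂ A) (c : ℂ)
    (T : X →L[ℂ] X) (hT : T ∈ A) (hcT : c • T ∈ A) : χ (⟨c • T, hcT⟩ : A) = c * χ (⟨T, hT⟩ : A) := by
  have h : (⟨c • T, hcT⟩ : A) = c • (⟨T, hT⟩ : A) := rfl
  rw [h, map_smul, smul_eq_mul]

theorem abs_pow (X : Type) [NormedAddCommGroup X] [NormedSpace ℂ X] [CompleteSpace X]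
    (U : (X →L[ℂ] X)ˣ) (T : X →L[ℂ] X) (c : ℂ) (h : U.val * T = c • (T * U.val)) (n : ℕ) :
    (U ^ n).val * T * (U ^ n).inv = c ^ n • T := by
  have h2 : (U ^ n).val * T = c ^ n • (T * (U ^ n).val) := by
    induction n with
    | zero => simp
    | succ n ih =>
      rw [pow_succ, Units.val_mul, mul_assoc, h, mul_smul_comm, ← mul_assoc, ih, smul_mul_assoc,
        smul_smul, mul_assoc, ← pow_succ']
  rw [h2, smul_mul_assoc, mul_assoc, (U ^ n).val_inv, mul_one]

theorem abs_spec (X : Type) [NormedAddCommGroup X] [NormedSpace ℂ X] [CompleteSpace X]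
    [Nontrivial X] (U : (X →L[ℂ] X)ˣ) (hU : ‖U.val‖ ≤ 1) (hU' : ‖U.inv‖ ≤ 1) :
    spectrum ℂ U.val ⊆ Metric.sphere (0 : ℂ) 1 := by
  intro l hl
  have h1 : ‖l‖ ≤ 1 := (spectrum.norm_le_norm_of_mem hl).trans hU
  have hl0 : l ≠ 0 := by
    rintro rfl
    exact (spectrum.zero_notMem_iff ℂ).2 U.isUnit hl
  have h2 : l⁻¹ ∈ spectrum ℂ U.inv := by
    have := (spectrum.inv_mem_iff (r := Units.mk0 l hl0) (a := U)).1 hl
    simpa using this
  have h3 : ‖l⁻¹‖ ≤ 1 := (spectrum.norm_le_norm_of_mem h2).trans hU'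
  rw [norm_inv] at h3
  have h4 : 1 ≤ ‖l‖ := (inv_le_one₀ (norm_pos_iff.2 hl0)).1 h3
  simp only [Metric.mem_sphere, dist_zero_right]
  exact le_antisymm h1 h4

/-- `G` is not hit by `μ` as soon as `μ - G = -(Q (1 - R))` with `Q` invertible and `‖R‖ < 1`. -/
theorem abs_notMem (X : Type) [NormedAddCommGroup X] [NormedSpace ℂ X] [CompleteSpace X]
    (G : X →L[ℂ] X) (μ : ℂ) (Q : (X →L[ℂ] X)ˣ) (R : X →L[ℂ] X) (hR : ‖R‖ < 1)
    (h : ∀ x, G x - μ • x = Q.val (x - R x)) : μ ∉ spectrum ℂ G := by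
  rw [spectrum.notMem_iff]
  have h1 : IsUnit (Q.val * (1 - R)) := Q.isUnit.mul (isUnit_one_sub_of_norm_lt_one hR)
  have h2 : (algebraMap ℂ (X →L[ℂ] X)) μ - G = -(Q.val * (1 - R)) := by
    ext x
    have := h x
    have h3 : (-(Q.val * (1 - R))) x = -(Q.val (x - R x)) := rfl
    rw [h3, ← this]
    simp [Algebra.algebraMap_eq_smul_one]
  rw [h2]
  exact h1.neg

end Abstract

/-- The index set. -/
abbrev Idx := ℂ × ℂ

/-- The Banach space of all bounded functions on the index set. -/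
noncomputable abbrev BX := lp (fun _ : ℂ × ℂ => ℂ) ∞

/-- build an element of `BX` from a bounded function. -/
noncomputable def mk (f : Idx → ℂ) (C : ℝ) (h : ∀ p, ‖f p‖ ≤ C) : BX :=
  ⟨f, memℓp_infty ⟨C, by rintro _ ⟨p, rfl⟩; exact h p⟩⟩

theorem mk_apply (f : Idx → ℂ) (C : ℝ) (h : ∀ p, ‖f p‖ ≤ C) (p : Idx) : (mk f C h) p = f p := rfl

/-- composition operator -/
noncomputable def compL (φ : Idx → Idx) : BX →L[ℂ] BX :=
  LinearMap.mkContinuous
    { toFun := fun x => mk (fun p => x (φ p)) ‖x‖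
        (fun p => lp.norm_apply_le_norm (by simp) x (φ p))
      map_add' := fun x y => by ext p; rfl
      map_smul' := fun c x => by ext p; rfl } 1 (fun x => by
        rw [one_mul]
        exact lp.norm_le_of_forall_le (norm_nonneg _)
          (fun p => lp.norm_apply_le_norm (by simp) x (φ p)))

theorem compL_apply (φ : Idx → Idx) (x : BX) (p : Idx) : (compL φ x) p = x (φ p) := rfl

/-- multiplication operator -/
noncomputable def mulL (w : BX) : BX →L[ℂ] BX := ContinuousLinearMap.mul ℂ BX w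

theorem mulL_apply (w x : BX) (p : Idx) : (mulL w x) p = w p * x p := rfl

/-- weighted composition operator -/
noncomputable def wc (w : BX) (φ : Idx → Idx) : BX →L[ℂ] BX := mulL w * compL φ

theorem wc_apply (w : BX) (φ : Idx → Idx) (x : BX) (p : Idx) :
    (wc w φ x) p = w p * x (φ p) := rfl

theorem op_ext {S T : BX →L[ℂ] BX} (h : ∀ x p, (S x) p = (T x) p) : S = T := by
  refine ContinuousLinearMap.ext (fun x => ?_)
  ext p
  exact h x p

theorem norm_mulL (w : BX) : ‖mulL w‖ = ‖w‖ := ContinuousLinearMap.opNorm_mul_apply ℂ BX w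

theorem mulL_mul (f g : BX) : mulL (f * g) = mulL f * mulL g := by
  apply op_ext
  intro x p
  show (f p * g p) * x p = f p * (g p * x p)
  ring

theorem mulL_one : mulL 1 = 1 := by
  apply op_ext
  intro x p
  show (1 : ℂ) * x p = x p
  ring

theorem mulL_inj {f g : BX} (h : mulL f = mulL g) : f = g := by
  ext p
  have := congrArg (fun T : BX →L[ℂ] BX => (T 1) p) h
  have h2 : f p * 1 = g p * 1 := this
  simpa using h2

theorem norm_le_of (T : BX →L[ℂ] BX) (C : ℝ) (hC : 0 ≤ C) (h : ∀ x p, ‖(T x) p‖ ≤ C * ‖x‖) :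
    ‖T‖ ≤ C :=
  ContinuousLinearMap.opNorm_le_bound _ hC
    (fun x => lp.norm_le_of_forall_le (mul_nonneg hC (norm_nonneg _)) (h x))


/-- inside the bidisc -/
def inD (p : Idx) : Prop := ‖p.1‖ < 1 ∧ ‖p.2‖ < 1

/-- the rotating region -/
def inE (p : Idx) : Prop := inD p ∧ 1 / 2 < ‖p.1‖

/-- the defining conditions of the function algebra -/
structure Good (f : Idx → ℂ) : Prop where
  out : ∀ p, ¬ inD p → f p = f (0, 0)
  slice : ∀ ζ : ℂ, ‖ζ‖ < 1 → DifferentiableOn ℂ (fun z => f (ζ, z)) (Metric.ball 0 1)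
  base : DifferentiableOn ℂ (fun ζ => f (ζ, 0)) (Metric.ball 0 1)
  const : ∀ p, inD p → ‖p.1‖ ≤ 1 / 2 → f p = f (p.1, 0)

/-- the function algebra -/
noncomputable def A0 : Subalgebra ℂ BX where
  carrier := {f | Good f}
  mul_mem' := by
    intro f g hf0 hg0
    have hf : Good f := hf0
    have hg : Good g := hg0
    refine ⟨fun p hp => ?_, fun ζ hζ => ?_, ?_, fun p hp h2 => ?_⟩
    · show f p * g p = f (0, 0) * g (0, 0)
      rw [hf.out p hp, hg.out p hp]
    · exact (hf.slice ζ hζ).mul (hg.slice ζ hζ)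
    · exact hf.base.mul hg.base
    · show f p * g p = f (p.1, 0) * g (p.1, 0)
      rw [hf.const p hp h2, hg.const p hp h2]
  add_mem' := by
    intro f g hf0 hg0
    have hf : Good f := hf0
    have hg : Good g := hg0
    refine ⟨fun p hp => ?_, fun ζ hζ => ?_, ?_, fun p hp h2 => ?_⟩
    · show f p + g p = f (0, 0) + g (0, 0)
      rw [hf.out p hp, hg.out p hp]
    · exact (hf.slice ζ hζ).add (hg.slice ζ hζ)
    · exact hf.base.add hg.base
    · show f p + g p = f (p.1, 0) + g (p.1, 0)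
      rw [hf.const p hp h2, hg.const p hp h2]
  algebraMap_mem' := by
    intro c
    exact ⟨fun p hp => rfl, fun ζ hζ => differentiableOn_const c, differentiableOn_const c,
      fun p hp h2 => rfl⟩

theorem mem_A0 {f : BX} : f ∈ A0 ↔ Good f := Iff.rfl

/-- the operator algebra -/
noncomputable def A : Subalgebra ℂ (BX →L[ℂ] BX) where
  carrier := {T | ∃ f ∈ A0, T = mulL f}
  mul_mem' := by
    rintro _ _ ⟨f, hf, rfl⟩ ⟨g, hg, rfl⟩
    exact ⟨f * g, A0.mul_mem hf hg, (mulL_mul f g).symm⟩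
  add_mem' := by
    rintro _ _ ⟨f, hf, rfl⟩ ⟨g, hg, rfl⟩
    refine ⟨f + g, A0.add_mem hf hg, ?_⟩
    exact (map_add (ContinuousLinearMap.mul ℂ BX) f g).symm
  algebraMap_mem' := by
    intro c
    refine ⟨algebraMap ℂ BX c, A0.algebraMap_mem c, ?_⟩
    apply op_ext
    intro x p
    rfl

theorem mem_A {T : BX →L[ℂ] BX} : T ∈ A ↔ ∃ f ∈ A0, T = mulL f := Iff.rfl

theorem A_comm : ∀ a ∈ A, ∀ b ∈ A, a * b = b * a := by
  rintro _ ⟨f, hf, rfl⟩ _ ⟨g, hg, rfl⟩
  rw [← mulL_mul, ← mulL_mul, mul_comm]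

theorem norm_sq_BX (f : BX) : ‖f * f‖ = ‖f‖ ^ 2 := by
  apply le_antisymm
  · rw [sq]; exact norm_mul_le f f
  · have h : ‖f‖ ≤ Real.sqrt ‖f * f‖ := by
      refine lp.norm_le_of_forall_le (Real.sqrt_nonneg _) (fun p => ?_)
      apply Real.le_sqrt_of_sq_le
      have h1 : ‖(f * f) p‖ ≤ ‖f * f‖ := lp.norm_apply_le_norm (by simp) _ p
      have h2 : (f * f) p = f p * f p := rfl
      rw [h2, norm_mul] at h1
      rw [sq]; exact h1
    calc ‖f‖ ^ 2 ≤ (Real.sqrt ‖f * f‖) ^ 2 := by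
            exact pow_le_pow_left₀ (norm_nonneg _) h 2
      _ = ‖f * f‖ := Real.sq_sqrt (norm_nonneg _)

theorem A_sq : ∀ a ∈ A, ‖a * a‖ = ‖a‖ ^ 2 := by
  rintro _ ⟨f, hf, rfl⟩
  rw [← mulL_mul, norm_mulL, norm_mulL, norm_sq_BX]

theorem tendsto_apply {u : ℕ → BX} {f : BX} (h : Filter.Tendsto u Filter.atTop (nhds f)) (p : Idx) :
    Filter.Tendsto (fun n => u n p) Filter.atTop (nhds (f p)) := by
  rw [tendsto_iff_norm_sub_tendsto_zero] at h ⊢
  refine squeeze_zero (fun _ => norm_nonneg _) (fun n => ?_) h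
  exact lp.norm_apply_le_norm (by simp) (u n - f) p

theorem tendsto_unif {u : ℕ → BX} {f : BX} (h : Filter.Tendsto u Filter.atTop (nhds f))
    (e : ℂ → Idx) (s : Set ℂ) :
    TendstoUniformlyOn (fun n z => u n (e z)) (fun z => f (e z)) Filter.atTop s := by
  rw [Metric.tendstoUniformlyOn_iff]
  intro ε hε
  rw [Metric.tendsto_atTop] at h
  obtain ⟨N, hN⟩ := h ε hε
  filter_upwards [Filter.eventually_ge_atTop N] with n hn z _
  have h1 := hN n hn
  rw [dist_eq_norm] at h1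
  refine lt_of_le_of_lt ?_ h1
  rw [dist_comm, dist_eq_norm]
  exact lp.norm_apply_le_norm (by simp) (u n - f) (e z)

theorem A0_closed : IsClosed (A0 : Set BX) := by
  apply IsSeqClosed.isClosed
  intro u f hu hf
  have hu' : ∀ n, Good (u n) := hu
  refine ⟨fun p hp => ?_, fun ζ hζ => ?_, ?_, fun p hp h2 => ?_⟩
  · refine tendsto_nhds_unique (tendsto_apply hf p) ?_
    have := tendsto_apply hf (0, 0)
    refine this.congr (fun n => ((hu' n).out p hp).symm)
  · refine (tendsto_unif hf (fun z => (ζ, z)) _).tendstoLocallyUniformlyOn.differentiableOn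
      (Filter.Eventually.of_forall fun n => (hu' n).slice ζ hζ) Metric.isOpen_ball
  · refine (tendsto_unif hf (fun z => (z, 0)) _).tendstoLocallyUniformlyOn.differentiableOn
      (Filter.Eventually.of_forall fun n => (hu' n).base) Metric.isOpen_ball
  · refine tendsto_nhds_unique (tendsto_apply hf p) ?_
    have := tendsto_apply hf (p.1, 0)
    refine this.congr (fun n => ((hu' n).const p hp h2).symm)

theorem A_closed : IsClosed (A : Set (BX →L[ℂ] BX)) := by
  have hiso : Isometry (fun f : BX => mulL f) := by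
    have : Isometry (ContinuousLinearMap.mul ℂ BX) :=
      AddMonoidHomClass.isometry_of_norm (ContinuousLinearMap.mul ℂ BX) norm_mulL
    exact this
  have h := hiso.isClosedEmbedding.isClosedMap _ A0_closed
  have he : (A : Set (BX →L[ℂ] BX)) = (fun f => mulL f) '' (A0 : Set BX) := by
    ext T
    constructor
    · rintro ⟨f, hf, rfl⟩
      exact ⟨f, hf, rfl⟩
    · rintro ⟨f, hf, rfl⟩
      exact ⟨f, hf, rfl⟩
  rw [he]
  exact h


/-! ### the symmetry -/

open Classical in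
/-- rotation by `c` of the second coordinate on `inE`. -/
noncomputable def rot (c : ℂ) (p : Idx) : Idx := if inE p then (p.1, c * p.2) else p

theorem inE_rot {c : ℂ} (hc : ‖c‖ = 1) (p : Idx) : inE (rot c p) ↔ inE p := by
  unfold rot
  split_ifs with h
  · refine ⟨fun _ => h, fun _ => ?_⟩
    refine ⟨⟨h.1.1, ?_⟩, h.2⟩
    show ‖c * p.2‖ < 1
    rw [norm_mul, hc, one_mul]
    exact h.1.2
  · rfl

theorem inD_rot {c : ℂ} (hc : ‖c‖ = 1) (p : Idx) : inD (rot c p) ↔ inD p := by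
  unfold rot
  split_ifs with h
  · refine ⟨fun _ => h.1, fun _ => ?_⟩
    refine ⟨h.1.1, ?_⟩
    show ‖c * p.2‖ < 1
    rw [norm_mul, hc, one_mul]
    exact h.1.2
  · rfl

theorem rot_fst (c : ℂ) (p : Idx) : (rot c p).1 = p.1 := by
  unfold rot
  split_ifs <;> rfl

theorem rot_rot {c d : ℂ} (hd : ‖d‖ = 1) (p : Idx) : rot c (rot d p) = rot (c * d) p := by
  by_cases h : inE p
  · have h1 : rot d p = (p.1, d * p.2) := if_pos h
    have h2 : inE (rot d p) := (inE_rot hd p).2 h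
    have h3 : rot c (rot d p) = ((rot d p).1, c * (rot d p).2) := if_pos h2
    have h4 : rot (c * d) p = (p.1, (c * d) * p.2) := if_pos h
    rw [h3, h4, h1]
    simp [mul_assoc]
  · have h1 : rot d p = p := if_neg h
    have h4 : rot (c * d) p = p := if_neg h
    have h5 : rot c p = p := if_neg h
    rw [h1, h4, h5]

theorem rot_one (p : Idx) : rot 1 p = p := by
  unfold rot
  split_ifs with h
  · simp
  · rfl

/-- the angle -/
noncomputable def om : ℂ := Complex.exp Complex.I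

theorem norm_om : ‖om‖ = 1 := by
  have := Complex.norm_exp_ofReal_mul_I 1
  simpa [om] using this

theorem om_ne_zero : om ≠ 0 := Complex.exp_ne_zero _

theorem norm_om_inv : ‖om⁻¹‖ = 1 := by rw [norm_inv, norm_om, inv_one]

theorem om_pow_ne_one {n : ℕ} (hn : 0 < n) : om ^ n ≠ 1 := by
  intro h
  unfold om at h
  rw [← Complex.exp_nat_mul, Complex.exp_eq_one_iff] at h
  obtain ⟨m, hm⟩ := h
  have h1 : (n : ℂ) = m * (2 * Real.pi) := by
    have h2 : ((n : ℂ) - m * (2 * Real.pi)) * Complex.I = 0 := by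
      linear_combination hm
    rcases mul_eq_zero.1 h2 with h3 | h3
    · linear_combination h3
    · exact absurd h3 Complex.I_ne_zero
  have h2 : (n : ℝ) = m * (2 * Real.pi) := by exact_mod_cast h1
  have hm0 : m ≠ 0 := by
    rintro rfl
    simp at h2
    omega
  have h3 : Real.pi = ((n : ℚ) / (2 * m) : ℚ) := by
    push_cast
    have : (m : ℝ) ≠ 0 := by exact_mod_cast hm0
    field_simp
    linarith
  exact irrational_pi ⟨_, h3.symm⟩


open Classical in
/-- unimodular weight -/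
noncomputable def uf (p : Idx) : ℂ :=
  if inD p ∧ ¬ (1 / 2 < ‖p.1‖) ∧ p.1 ≠ 0 then (‖p.1‖ : ℂ) / p.1 else 1

theorem norm_uf (p : Idx) : ‖uf p‖ = 1 := by
  unfold uf
  split_ifs with h
  · rw [norm_div, Complex.norm_real, norm_norm]
    exact div_self (norm_ne_zero_iff.2 h.2.2)
  · exact norm_one

theorem uf_ne_zero (p : Idx) : uf p ≠ 0 := by
  intro h
  have := norm_uf p
  rw [h] at this
  simp at this

theorem uf_rot {c : ℂ} (hc : ‖c‖ = 1) (p : Idx) : uf (rot c p) = uf p := by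
  unfold uf
  rw [inD_rot hc, rot_fst]

noncomputable def uW : BX := mk uf 1 (fun p => (norm_uf p).le)
noncomputable def uV : BX := mk (fun p => (uf p)⁻¹) 1 (fun p => by rw [norm_inv, norm_uf, inv_one])

/-- the shift-type operator -/
noncomputable def U : (BX →L[ℂ] BX)ˣ where
  val := wc uW (rot om)
  inv := wc uV (rot om⁻¹)
  val_inv := by
    apply op_ext
    intro x p
    show uf p * ((uf (rot om p))⁻¹ * x (rot om⁻¹ (rot om p))) = x p
    rw [uf_rot norm_om, rot_rot norm_om, inv_mul_cancel₀ om_ne_zero, rot_one, ← mul_assoc,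
      mul_inv_cancel₀ (uf_ne_zero p), one_mul]
  inv_val := by
    apply op_ext
    intro x p
    show (uf p)⁻¹ * (uf (rot om⁻¹ p) * x (rot om (rot om⁻¹ p))) = x p
    rw [uf_rot norm_om_inv, rot_rot norm_om_inv, mul_inv_cancel₀ om_ne_zero, rot_one, ← mul_assoc,
      inv_mul_cancel₀ (uf_ne_zero p), one_mul]

theorem conjU (f : BX) : U.val * mulL f * U.inv = mulL (compL (rot om) f) := by
  apply op_ext
  intro x p
  show uf p * (f (rot om p) * ((uf (rot om p))⁻¹ * x (rot om⁻¹ (rot om p)))) = f (rot om p) * x p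
  rw [uf_rot norm_om, rot_rot norm_om, inv_mul_cancel₀ om_ne_zero, rot_one]
  field_simp [uf_ne_zero p]

theorem conjU' (f : BX) : U.inv * mulL f * U.val = mulL (compL (rot om⁻¹) f) := by
  apply op_ext
  intro x p
  show (uf p)⁻¹ * (f (rot om⁻¹ p) * (uf (rot om⁻¹ p) * x (rot om (rot om⁻¹ p)))) =
    f (rot om⁻¹ p) * x p
  rw [uf_rot norm_om_inv, rot_rot norm_om_inv, mul_inv_cancel₀ om_ne_zero, rot_one]
  field_simp [uf_ne_zero p]

theorem rot_of_not_inE {c : ℂ} {p : Idx} (h : ¬ inE p) : rot c p = p := if_neg h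

theorem not_inE_zero : ¬ inE ((0 : ℂ), (0 : ℂ)) := by
  rintro ⟨_, h⟩
  simp at h
  linarith

theorem rot_zero (c : ℂ) (ζ : ℂ) : rot c (ζ, 0) = (ζ, 0) := by
  unfold rot
  split_ifs <;> simp

theorem good_rot {f : Idx → ℂ} (hf : Good f) {c : ℂ} (hc : ‖c‖ = 1) :
    Good (fun p => f (rot c p)) := by
  refine ⟨fun p hp => ?_, fun ζ hζ => ?_, ?_, fun p hp h2 => ?_⟩
  · have h1 : ¬ inE p := fun h => hp h.1
    simp only [rot_of_not_inE h1, rot_zero]
    exact hf.out p hp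
  · by_cases h : 1 / 2 < ‖ζ‖
    · have h1 : DifferentiableOn ℂ (fun z => f (ζ, c * z)) (Metric.ball 0 1) := by
        refine (hf.slice ζ hζ).comp (differentiableOn_id.const_mul c) ?_
        intro z hz
        simp only [Metric.mem_ball, dist_zero_right] at hz ⊢
        have h9 : ‖c * z‖ < 1 := by rw [norm_mul, hc, one_mul]; exact hz
        exact h9
      refine h1.congr (fun z hz => ?_)
      have h3 : rot c (ζ, z) = (ζ, c * z) := by
        have : inE (ζ, z) := ⟨⟨hζ, by simpa using hz⟩, h⟩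
        exact if_pos this
      simp only [h3]
    · have h1 : ∀ z, rot c (ζ, z) = (ζ, z) := fun z =>
        rot_of_not_inE (fun h' => h h'.2)
      simp only [h1]
      exact hf.slice ζ hζ
  · simp only [rot_zero]
    exact hf.base
  · have h1 : ¬ inE p := fun h => absurd h.2 (not_lt.2 h2)
    simp only [rot_of_not_inE h1, rot_zero]
    exact hf.const p hp h2

theorem A_conj : ∀ a ∈ A, U.val * a * U.inv ∈ A := by
  rintro _ ⟨f, hf, rfl⟩
  rw [conjU]
  exact ⟨_, good_rot hf norm_om, rfl⟩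

theorem A_conj' : ∀ a ∈ A, U.inv * a * U.val ∈ A := by
  rintro _ ⟨f, hf, rfl⟩
  rw [conjU']
  exact ⟨_, good_rot hf norm_om_inv, rfl⟩

theorem norm_wc_le {w : BX} (hw : ∀ p, ‖w p‖ ≤ 1) (φ : Idx → Idx) : ‖wc w φ‖ ≤ 1 := by
  refine norm_le_of _ 1 zero_le_one (fun x p => ?_)
  rw [wc_apply, norm_mul]
  exact mul_le_mul (hw p) (lp.norm_apply_le_norm (by simp) x _) (norm_nonneg _) zero_le_one

instance : Nontrivial BX := by
  refine ⟨⟨0, 1, fun h => ?_⟩⟩
  have h1 : (0 : ℂ) = 1 := congrArg (fun x : BX => x (0, 0)) h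
  exact zero_ne_one h1

theorem spec_U : spectrum ℂ U.val ⊆ Metric.sphere (0 : ℂ) 1 :=
  abs_spec BX U (norm_wc_le (fun p => (norm_uf p).le) _) (norm_wc_le
    (fun p => (by rw [norm_inv, norm_uf, inv_one] : ‖(uf p)⁻¹‖ = 1).le) _)

theorem A_inv : ∀ (a : BX →L[ℂ] BX) (ha : a ∈ A), IsUnit a → IsUnit (⟨a, ha⟩ : A) := by
  rintro _ ⟨f, hf0, rfl⟩ ⟨v, hv⟩
  have hf : Good f := hf0
  set g : BX := v.inv 1 with hg
  have hfg : ∀ p, f p * g p = 1 := by
    intro p
    have h1 : (mulL f * v.inv) = 1 := by rw [← hv]; exact v.val_inv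
    have h2 := congrArg (fun T : BX →L[ℂ] BX => (T 1) p) h1
    exact h2
  have hf0' : ∀ p, f p ≠ 0 := fun p h => by
    have := hfg p
    rw [h, zero_mul] at this
    exact zero_ne_one this
  have hg' : ∀ p, g p = (f p)⁻¹ := fun p => eq_inv_of_mul_eq_one_right (hfg p)
  have hgood : Good g := by
    have hgf : (g : Idx → ℂ) = fun p => (f p)⁻¹ := funext hg'
    rw [hgf]
    refine ⟨fun p hp => ?_, fun ζ hζ => ?_, ?_, fun p hp h2 => ?_⟩
    · show (f p)⁻¹ = (f (0, 0))⁻¹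
      rw [hf.out p hp]
    · exact (hf.slice ζ hζ).inv (fun z _ => hf0' _)
    · exact hf.base.inv (fun z _ => hf0' _)
    · show (f p)⁻¹ = (f (p.1, 0))⁻¹
      rw [hf.const p hp h2]
  have hfg1 : f * g = 1 := by
    ext p
    exact hfg p
  refine ⟨⟨⟨mulL f, f, hf0, rfl⟩, ⟨mulL g, g, hgood, rfl⟩, ?_, ?_⟩, rfl⟩
  · apply Subtype.ext
    show mulL f * mulL g = 1
    rw [← mulL_mul, hfg1, mulL_one]
  · apply Subtype.ext
    show mulL g * mulL f = 1
    rw [← mulL_mul, mul_comm, hfg1, mulL_one]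



/-! ### characters -/

/-- point evaluation -/
noncomputable def evp (p : Idx) : A →ₐ[ℂ] ℂ where
  toFun T := (T.1 1) p
  map_one' := rfl
  map_mul' := by
    rintro ⟨_, f, hf, rfl⟩ ⟨_, g, hg, rfl⟩
    show f p * (g p * 1) = (f p * 1) * (g p * 1)
    ring
  map_zero' := rfl
  map_add' := fun _ _ => rfl
  commutes' := fun c => by
    show c * 1 = c
    ring

open Classical in
/-- fibre coordinate -/
noncomputable def zc : BX := mk (fun p => if inE p then p.2 else 0) 1 (fun p => by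
  split_ifs with h
  · exact h.1.2.le
  · simp)

open Classical in
theorem zc_apply (p : Idx) : zc p = if inE p then p.2 else 0 := rfl

theorem zc_good : Good zc := by
  refine ⟨fun p hp => ?_, fun ζ hζ => ?_, ?_, fun p hp h2 => ?_⟩
  · rw [zc_apply, zc_apply, if_neg (fun h => hp h.1), if_neg not_inE_zero]
  · by_cases h : 1 / 2 < ‖ζ‖
    · refine differentiableOn_id.congr (fun z hz => ?_)
      have : inE (ζ, z) := ⟨⟨hζ, by simpa using hz⟩, h⟩
      rw [zc_apply, if_pos this]; rfl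
    · refine (differentiableOn_const (0 : ℂ)).congr (fun z hz => ?_)
      rw [zc_apply, if_neg (fun h' => h h'.2)]
  · refine (differentiableOn_const (0 : ℂ)).congr (fun z hz => ?_)
    rw [zc_apply]
    split_ifs <;> rfl
  · have h1 : ¬ inE p := fun h => absurd h.2 (not_lt.2 h2)
    have h3 : ¬ inE (p.1, (0 : ℂ)) := fun h => absurd h.2 (not_lt.2 h2)
    rw [zc_apply, zc_apply, if_neg h1, if_neg h3]

theorem zcA_mem : mulL zc ∈ A := ⟨zc, zc_good, rfl⟩

theorem zc_rot {c : ℂ} (hc : ‖c‖ = 1) (p : Idx) : zc (rot c p) = c * zc p := by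
  rw [zc_apply, zc_apply, inE_rot hc]
  split_ifs with h
  · have : rot c p = (p.1, c * p.2) := if_pos h
    rw [this]
  · simp

theorem U_zc : U.val * mulL zc = om • (mulL zc * U.val) := by
  apply op_ext
  intro x p
  show uf p * (zc (rot om p) * x (rot om p)) = om * (zc p * (uf p * x (rot om p)))
  rw [zc_rot norm_om]
  ring

theorem U_pow_conj (n : ℕ) : (U ^ n).val * mulL zc * (U ^ n).inv = om ^ n • mulL zc :=
  abs_pow BX U _ _ U_zc n

/-- maximum principle: values of `f` are dominated by values near the boundary of the fibres -/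
theorem dominate {f : Idx → ℂ} (hf : Good f) (q : Idx) (r : ℝ) (hr : r < 1) :
    ∃ p, inE p ∧ r ≤ ‖p.2‖ ∧ ‖f q‖ ≤ ‖f p‖ := by
  have step1 : ∀ q, inE q → ∃ p, inE p ∧ r ≤ ‖p.2‖ ∧ ‖f q‖ ≤ ‖f p‖ := by
    rintro ⟨ζ, z⟩ hq
    have hz : ‖z‖ < 1 := hq.1.2
    have hζ : ‖ζ‖ < 1 := hq.1.1
    obtain ⟨s, hs1, hs2⟩ := exists_between (max_lt (max_lt hr hz) (zero_lt_one : (0:ℝ) < 1))
    have hrs : r < s := lt_of_le_of_lt (le_trans (le_max_left _ _) (le_max_left _ _)) hs1
    have hzs : ‖z‖ < s := lt_of_le_of_lt (le_trans (le_max_right _ _) (le_max_left _ _)) hs1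
    have h0s : 0 < s := lt_of_le_of_lt (le_max_right _ _) hs1
    have hd : DiffContOnCl ℂ (fun z => f (ζ, z)) (Metric.ball 0 s) := by
      apply DifferentiableOn.diffContOnCl
      refine (hf.slice ζ hζ).mono ?_
      rw [closure_ball _ h0s.ne']
      exact Metric.closedBall_subset_ball hs2
    obtain ⟨w, hw1, hw2⟩ := Complex.exists_mem_frontier_isMaxOn_norm Metric.isBounded_ball
      ⟨z, by simpa using hzs⟩ hd
    rw [frontier_ball _ h0s.ne'] at hw1
    have hw : ‖w‖ = s := by simpa using hw1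
    refine ⟨(ζ, w), ⟨⟨hζ, by show ‖w‖ < 1; rw [hw]; exact hs2⟩, hq.2⟩, ?_, ?_⟩
    · show r ≤ ‖w‖
      rw [hw]; exact hrs.le
    · exact hw2 (subset_closure (by simpa using hzs))
  have step2 : ∀ ζ : ℂ, ‖ζ‖ ≤ 1 / 2 → ∃ p, inE p ∧ r ≤ ‖p.2‖ ∧ ‖f (ζ, 0)‖ ≤ ‖f p‖ := by
    intro ζ hζ
    have hd : DiffContOnCl ℂ (fun z => f (z, 0)) (Metric.ball 0 (3 / 4)) := by
      apply DifferentiableOn.diffContOnCl
      refine hf.base.mono ?_
      rw [closure_ball _ (by norm_num)]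
      exact Metric.closedBall_subset_ball (by norm_num)
    have hζ4 : ζ ∈ Metric.ball (0 : ℂ) (3 / 4) := by
      simp only [Metric.mem_ball, dist_zero_right]
      linarith
    obtain ⟨w, hw1, hw2⟩ := Complex.exists_mem_frontier_isMaxOn_norm Metric.isBounded_ball
      ⟨ζ, hζ4⟩ hd
    rw [frontier_ball _ (by norm_num)] at hw1
    have hw : ‖w‖ = 3 / 4 := by simpa using hw1
    have hE : inE (w, (0 : ℂ)) := by
      refine ⟨⟨?_, ?_⟩, ?_⟩
      · show ‖w‖ < 1
        rw [hw]; norm_num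
      · show ‖(0 : ℂ)‖ < 1
        simp
      · show 1 / 2 < ‖w‖
        rw [hw]; norm_num
    obtain ⟨p, hp1, hp2, hp3⟩ := step1 _ hE
    exact ⟨p, hp1, hp2, le_trans (hw2 (subset_closure hζ4)) hp3⟩
  by_cases hq : inD q
  · by_cases hq2 : 1 / 2 < ‖q.1‖
    · exact step1 q ⟨hq, hq2⟩
    · rw [hf.const q hq (not_lt.1 hq2)]
      exact step2 _ (not_lt.1 hq2)
  · rw [hf.out q hq]
    exact step2 0 (by simp)

theorem exists_char (a : A) : ∃ χ : WeakDual.characterSpace ℂ A,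
    ‖χ (⟨mulL zc, zcA_mem⟩ : A)‖ = 1 ∧
      ∀ ψ : WeakDual.characterSpace ℂ A, ‖ψ a‖ ≤ ‖χ a‖ := by
  obtain ⟨_, f, hf0, rfl⟩ := a
  have hf : Good f := hf0
  have hex : ∀ n : ℕ, ∃ p, inE p ∧ 1 - 1 / ((n : ℝ) + 1) ≤ ‖p.2‖ ∧
      ‖f‖ - 1 / ((n : ℝ) + 1) ≤ ‖f p‖ := by
    intro n
    have hpos : 0 < 1 / ((n : ℝ) + 1) := Nat.one_div_pos_of_nat
    obtain ⟨_, ⟨q, rfl⟩, hq, _⟩ := (lp.isLUB_norm f).exists_between
      (sub_lt_self ‖f‖ hpos)
    obtain ⟨p, hp1, hp2, hp3⟩ := dominate hf q (1 - 1 / ((n : ℝ) + 1)) (by linarith)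
    exact ⟨p, hp1, hp2, hq.le.trans hp3⟩
  choose p hp1 hp2 hp3 using hex
  have h0 : Filter.Tendsto (fun n : ℕ => 1 / ((n : ℝ) + 1)) Filter.atTop (nhds 0) :=
    tendsto_one_div_add_atTop_nhds_zero_nat
  refine abs_exists_char BX A A_closed _ _ (fun n => evp (p n)) ?_ ?_
  · have hval : ∀ n, ‖(evp (p n)) (⟨mulL zc, zcA_mem⟩ : A)‖ = ‖(p n).2‖ := by
      intro n
      have h2 : (evp (p n)) (⟨mulL zc, zcA_mem⟩ : A) = zc (p n) * 1 := rfl
      rw [h2, zc_apply, if_pos (hp1 n), mul_one]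
    simp only [hval]
    have h1 : Filter.Tendsto (fun n : ℕ => 1 - 1 / ((n : ℝ) + 1)) Filter.atTop (nhds 1) := by
      simpa using h0.const_sub 1
    exact tendsto_of_tendsto_of_tendsto_of_le_of_le h1 tendsto_const_nhds hp2
      (fun n => (hp1 n).1.2.le)
  · have hval : ∀ n, ‖(evp (p n)) (⟨mulL f, f, hf0, rfl⟩ : A)‖ = ‖f (p n)‖ := by
      intro n
      have h2 : (evp (p n)) (⟨mulL f, f, hf0, rfl⟩ : A) = f (p n) * 1 := rfl
      rw [h2, mul_one]
    simp only [hval]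
    have h1 : Filter.Tendsto (fun n : ℕ => ‖f‖ - 1 / ((n : ℝ) + 1)) Filter.atTop
        (nhds ‖f‖) := by
      simpa using h0.const_sub ‖f‖
    have hn : ‖(⟨mulL f, f, hf0, rfl⟩ : A)‖ = ‖f‖ := norm_mulL f
    rw [hn]
    exact tendsto_of_tendsto_of_tendsto_of_le_of_le h1 tendsto_const_nhds hp3
      (fun n => lp.norm_apply_le_norm (by simp) f (p n))

/-! ### the operator `aU` -/

open Classical in
noncomputable def aw : BX := mk (fun p => if inD p then p.1 else 0) 1 (fun p => by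
  split_ifs with h
  · exact h.1.le
  · simp)

open Classical in
theorem aw_apply (p : Idx) : aw p = if inD p then p.1 else 0 := rfl

theorem aw_good : Good aw := by
  refine ⟨fun p hp => ?_, fun ζ hζ => ?_, ?_, fun p hp h2 => ?_⟩
  · rw [aw_apply, aw_apply, if_neg hp]
    split_ifs <;> rfl
  · refine (differentiableOn_const ζ).congr (fun z hz => ?_)
    have : inD (ζ, z) := ⟨hζ, by simpa using hz⟩
    rw [aw_apply, if_pos this]
  · refine differentiableOn_id.congr (fun z hz => ?_)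
    have : inD (z, (0 : ℂ)) := ⟨by simpa using hz, by simp⟩
    rw [aw_apply, if_pos this]; rfl
  · have h3 : inD (p.1, (0 : ℂ)) := ⟨hp.1, by simp⟩
    rw [aw_apply, aw_apply, if_pos hp, if_pos h3]

open Classical in
/-- the weight of the main part -/
noncomputable def qf (p : Idx) : ℂ :=
  if inE p then p.1 else if inD p then (‖p.1‖ : ℂ) + 1 / 4 else 1 / 4

theorem norm_qf_ge (p : Idx) : 1 / 4 ≤ ‖qf p‖ := by
  unfold qf
  split_ifs with h1 h2
  · have := h1.2
    linarith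
  · have h3 : ((‖p.1‖ : ℂ) + 1 / 4) = ((‖p.1‖ + 1 / 4 : ℝ) : ℂ) := by push_cast; ring
    rw [h3, Complex.norm_real, Real.norm_of_nonneg (by positivity)]
    linarith [norm_nonneg p.1]
  · norm_num

theorem norm_qf_le (p : Idx) : ‖qf p‖ ≤ 2 := by
  unfold qf
  split_ifs with h1 h2
  · have := h1.1.1
    linarith
  · have h3 : ((‖p.1‖ : ℂ) + 1 / 4) = ((‖p.1‖ + 1 / 4 : ℝ) : ℂ) := by push_cast; ring
    rw [h3, Complex.norm_real, Real.norm_of_nonneg (by positivity)]
    linarith [h2.1]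
  · norm_num

theorem qf_ne_zero (p : Idx) : qf p ≠ 0 := by
  intro h
  have := norm_qf_ge p
  rw [h, norm_zero] at this
  linarith

theorem qf_rot {c : ℂ} (hc : ‖c‖ = 1) (p : Idx) : qf (rot c p) = qf p := by
  unfold qf
  rw [inD_rot hc, inE_rot hc, rot_fst]

noncomputable def qW : BX := mk qf 2 norm_qf_le
noncomputable def qV : BX := mk (fun p => (qf p)⁻¹) 4 (fun p => by
  rw [norm_inv]
  have := norm_qf_ge p
  exact inv_le_of_inv_le₀ (by norm_num) (by linarith))

noncomputable def Q : (BX →L[ℂ] BX)ˣ where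
  val := wc qW (rot om)
  inv := wc qV (rot om⁻¹)
  val_inv := by
    apply op_ext
    intro x p
    show qf p * ((qf (rot om p))⁻¹ * x (rot om⁻¹ (rot om p))) = x p
    rw [qf_rot norm_om, rot_rot norm_om, inv_mul_cancel₀ om_ne_zero, rot_one, ← mul_assoc,
      mul_inv_cancel₀ (qf_ne_zero p), one_mul]
  inv_val := by
    apply op_ext
    intro x p
    show (qf p)⁻¹ * (qf (rot om⁻¹ p) * x (rot om (rot om⁻¹ p))) = x p
    rw [qf_rot norm_om_inv, rot_rot norm_om_inv, mul_inv_cancel₀ om_ne_zero, rot_one, ← mul_assoc,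
      inv_mul_cancel₀ (qf_ne_zero p), one_mul]

open Classical in
noncomputable def rf (p : Idx) : ℂ := if inE p then -(1 / 4) * (qf p)⁻¹ else 0

theorem norm_rf_le (p : Idx) : ‖rf p‖ ≤ 1 / 2 := by
  unfold rf
  split_ifs with h
  · have h1 : qf p = p.1 := if_pos h
    rw [norm_mul, norm_inv, h1]
    have h2 : ‖p.1‖⁻¹ ≤ 2 := by
      have h3 : (1 / 2 : ℝ) ≤ ‖p.1‖ := h.2.le
      exact inv_le_of_inv_le₀ (by norm_num) (by linarith)
    have h4 : ‖(-(1 / 4) : ℂ)‖ = 1 / 4 := by norm_num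
    rw [h4]
    linarith
  · simp

noncomputable def rW : BX := mk rf (1 / 2) norm_rf_le

theorem notMem_spec : (-(1 / 4) : ℂ) ∉ spectrum ℂ (mulL aw * U.val) := by
  refine abs_notMem BX _ _ Q (wc rW (rot om⁻¹)) ?_ ?_
  · refine lt_of_le_of_lt (norm_le_of _ (1 / 2) (by norm_num) (fun x p => ?_)) (by norm_num)
    rw [wc_apply, norm_mul]
    exact mul_le_mul (norm_rf_le p) (lp.norm_apply_le_norm (by simp) x _) (norm_nonneg _)
      (by norm_num)
  · intro x
    ext p
    show aw p * (uf p * x (rot om p)) - (-(1 / 4) : ℂ) * x p =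
      qf p * (x (rot om p) - rf (rot om p) * x (rot om⁻¹ (rot om p)))
    rw [rot_rot norm_om, inv_mul_cancel₀ om_ne_zero, rot_one]
    have hrf : rf (rot om p) = rf p := by
      unfold rf
      rw [inE_rot norm_om, qf_rot norm_om]
    rw [hrf, aw_apply]
    by_cases hE : inE p
    · have h1 : qf p = p.1 := if_pos hE
      have h2 : rf p = -(1 / 4) * (qf p)⁻¹ := if_pos hE
      have h3 : uf p = 1 := if_neg (fun h => h.2.1 hE.2)
      have h4 : p.1 ≠ 0 := by
        rw [← h1]; exact qf_ne_zero p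
      rw [h2, h1, h3, if_pos hE.1]
      field_simp
    · have h2 : rf p = 0 := if_neg hE
      have h5 : rot om p = p := rot_of_not_inE hE
      rw [h2, h5]
      by_cases hD : inD p
      · have h6 : ¬ (1 / 2 < ‖p.1‖) := fun h => hE ⟨hD, h⟩
        have h1 : qf p = (‖p.1‖ : ℂ) + 1 / 4 := by
          unfold qf
          rw [if_neg hE, if_pos hD]
        rw [if_pos hD, h1]
        by_cases h0 : p.1 = 0
        · rw [h0]
          simp
        · have h3 : uf p = (‖p.1‖ : ℂ) / p.1 := if_pos ⟨hD, h6, h0⟩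
          rw [h3]
          field_simp
          ring
      · have h1 : qf p = 1 / 4 := by
          unfold qf
          rw [if_neg hE, if_neg hD]
        rw [if_neg hD, h1]
        ring

/-- The negation of the preceding statement: For a closed commutative operator algebra A on a Banach space with ‖a²‖=‖a‖², and invertible U with UAU⁻¹=A, if periodic characters are meagre in the Shilov boundary, σ(U) lies in the unit circle, and A is inverse-closed, then σ(aU) on X equals the spectrum of b↦a·UbU⁻¹ on A. -/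
theorem result :
    ¬ (∀ (X : Type) [NormedAddCommGroup X] [NormedSpace ℂ X] [CompleteSpace X]
    (A : Subalgebra ℂ (X →L[ℂ] X)) (U : (X →L[ℂ] X)ˣ)
    (S : Set (WeakDual.characterSpace ℂ A)) (P : Set (WeakDual.characterSpace ℂ A)),
    IsClosed (A : Set (X →L[ℂ] X)) →
    (∀ a ∈ A, ∀ b ∈ A, a * b = b * a) →
    (∀ a ∈ A, ‖a * a‖ = ‖a‖ ^ 2) →
    (∀ a ∈ A, U.val * a * U.inv ∈ A) →
    (∀ a ∈ A, U.inv * a * U.val ∈ A) →
    S = ⋂₀ {K : Set (WeakDual.characterSpace ℂ A) | IsClosed K ∧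
          ∀ a : A, ∃ χ ∈ K, ∀ ψ : WeakDual.characterSpace ℂ A, ‖ψ a‖ ≤ ‖χ a‖} →
    P = {χ : WeakDual.characterSpace ℂ A | ∃ n : ℕ, 0 < n ∧
          ∀ (a : X →L[ℂ] X) (ha : a ∈ A) (b : X →L[ℂ] X) (hb : b ∈ A),
            b = (U ^ n).val * a * (U ^ n).inv → χ (⟨b, hb⟩ : A) = χ (⟨a, ha⟩ : A)} →
    IsMeagre {x : S | x.val ∈ P} →
    spectrum ℂ U.val ⊆ Metric.sphere (0 : ℂ) 1 →
    (∀ (a : X →L[ℂ] X) (ha : a ∈ A), IsUnit a → IsUnit (⟨a, ha⟩ : A)) →
    ∀ a ∈ A, ∀ μ : ℂ,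
      (μ ∈ spectrum ℂ (a * U.val) ↔
        ¬ ∀ c ∈ A, ∃! b, b ∈ A ∧ c = μ • b - a * (U.val * b * U.inv))) := by
  intro hall
  have key := hall BX A U _ _ A_closed A_comm A_sq A_conj A_conj' rfl rfl ?_ spec_U A_inv
    (mulL aw) ⟨aw, aw_good, rfl⟩ (-(1 / 4))
  · refine notMem_spec (key.2 (fun h => ?_))
    obtain ⟨b, ⟨hb, hb2⟩, _⟩ := h 1 (one_mem A)
    obtain ⟨f, hf, rfl⟩ := hb
    rw [conjU] at hb2
    have h3 := congrArg (fun T : BX →L[ℂ] BX => (T 1) ((-(1 / 4) : ℂ), (0 : ℂ))) hb2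
    have h4 : (1 : ℂ) = -(1 / 4) * (f (-(1 / 4), 0) * 1) -
        aw (-(1 / 4), 0) * (f (rot om (-(1 / 4), 0)) * 1) := h3
    have hD : inD ((-(1 / 4) : ℂ), (0 : ℂ)) := by
      refine ⟨?_, ?_⟩
      · show ‖(-(1 / 4) : ℂ)‖ < 1
        norm_num
      · show ‖(0 : ℂ)‖ < 1
        simp
    rw [rot_zero, aw_apply, if_pos hD] at h4
    simp at h4
  · have hempty : ∀ x ∈ ⋂₀ {K : Set (WeakDual.characterSpace ℂ A) | IsClosed K ∧
          ∀ a : A, ∃ χ ∈ K, ∀ ψ : WeakDual.characterSpace ℂ A, ‖ψ a‖ ≤ ‖χ a‖},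
        x ∉ {χ : WeakDual.characterSpace ℂ A | ∃ n : ℕ, 0 < n ∧
          ∀ (a : BX →L[ℂ] BX) (ha : a ∈ A) (b : BX →L[ℂ] BX) (hb : b ∈ A),
            b = (U ^ n).val * a * (U ^ n).inv → χ (⟨b, hb⟩ : A) = χ (⟨a, ha⟩ : A)} := by
      rintro x hx ⟨n, hn, hper⟩
      have h1 : ‖x (⟨mulL zc, zcA_mem⟩ : A)‖ = 1 :=
        hx {χ | ‖χ (⟨mulL zc, zcA_mem⟩ : A)‖ = 1} ⟨abs_isClosed BX A _, exists_char⟩
      have hmem : om ^ n • mulL zc ∈ A := A.smul_mem zcA_mem _
      have h2 := hper (mulL zc) zcA_mem (om ^ n • mulL zc) hmem (U_pow_conj n).symm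
      rw [abs_smul BX A x (om ^ n) (mulL zc) zcA_mem hmem] at h2
      have h3 : x (⟨mulL zc, zcA_mem⟩ : A) ≠ 0 := by
        intro h
        rw [h, norm_zero] at h1
        exact zero_ne_one h1
      exact om_pow_ne_one hn (mul_right_cancel₀ h3 (h2.trans (one_mul _).symm))
    convert IsMeagre.empty using 1
    ext x
    simp only [Set.mem_ofPred_eq, Set.mem_empty_iff_false, iff_false]
    exact hempty x.1 x.2

end Pool.Agent.S03068
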