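import Pool.Statements.S03069
import Pool.Agent.Helper95.CDD.Main
-- import your own Pool.Agent.* helpers here

set_option autoImplicit false
open Pool Pool.MP_49a735_an

namespace Pool.Agent.S03069

/-- For p(z)=prod over k from -N to N of (z-k), real l, and n at most 2N+1, every nonreal zero of the n-fold iterate of the center divided difference with step l (derivative if l=0) applied to p is purely imaginary. -/
theorem result :
    ∀ N : ℕ, ∀ l : ℝ, ∀ n : ℕ, n ≤ 2 * N + 1 → ∀ z : ℂ,
      ((fun (f : ℂ → ℂ) (w : ℂ) =>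
          if l = 0 then deriv f w
          else (f (w + (l : ℂ)) - f (w - (l : ℂ))) / (2 * (l : ℂ)))^[n]
        (fun w : ℂ => ∏ k ∈ Finset.Icc (-(N : ℤ)) (N : ℤ), (w - (k : ℂ)))) z = 0 →
      z.im ≠ 0 → z.re = 0 := by
  exact Pool.Agent.Helper95.CDD.main_result

end Pool.Agent.S03069
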