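import Pool.Agent.helper443_RSP

set_option autoImplicit false
open Matrix

namespace Pool.Agent.S03084

/-- symmetric Toeplitz in the sense of the frozen statement -/
def Toep (R : Matrix (Fin 4) (Fin 4) ℝ) : Prop :=
  ∃ r : ℕ → ℝ, ∀ i j : Fin 4, R i j = r (Int.natAbs ((i.val : ℤ) - (j.val : ℤ)))

lemma Toep.entries {R : Matrix (Fin 4) (Fin 4) ℝ} (h : Toep R) :
    ∃ r0 r1 r2 r3 : ℝ, R = !![r0, r1, r2, r3; r1, r0, r1, r2; r2, r1, r0, r1; r3, r2, r1, r0] := by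
  obtain ⟨r, hr⟩ := h
  refine ⟨r 0, r 1, r 2, r 3, ?_⟩
  ext i j
  rw [hr i j]
  fin_cases i <;> fin_cases j <;> simp

lemma one_add_inv {R : Matrix (Fin 4) (Fin 4) ℝ} (hR : R.PosDef) :
    (1 + R) * (1 + R)⁻¹ = 1 := by
  have h1 : (1 + R).PosDef := Matrix.PosDef.one.add hR
  exact Matrix.mul_nonsing_inv _ (isUnit_iff_ne_zero.2 h1.det_pos.ne')

lemma cfg_of_R {R : Matrix (Fin 4) (Fin 4) ℝ} (hR : R.PosDef) (hT : Toep R)
    (a : Fin 4 → ℝ) (hs : a 0 + a 3 ≠ 0 ∨ a 1 + a 2 ≠ 0) (ht : a 0 - a 3 ≠ 0 ∨ a 1 - a 2 ≠ 0)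
    (θ : Fin 4 → ℝ) (hθ : θ = (R * (1 + R)⁻¹) *ᵥ a) :
    Cfg (a 0 + a 3) (a 1 + a 2) (a 0 - a 3) (a 1 - a 2)
      (θ 0 + θ 3) (θ 1 + θ 2) (θ 0 - θ 3) (θ 1 - θ 2) := by
  obtain ⟨x, hx⟩ : ∃ x : Fin 4 → ℝ, x = (1 + R)⁻¹ *ᵥ a := ⟨_, rfl⟩
  have h1 : θ = R *ᵥ x := by rw [hθ, hx, Matrix.mulVec_mulVec]
  have h2 : a = x + θ := by
    rw [h1]
    have : (1 + R) *ᵥ x = a := by
      rw [hx, Matrix.mulVec_mulVec, one_add_inv hR, Matrix.one_mulVec]
    rw [← this, Matrix.add_mulVec, Matrix.one_mulVec]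
  obtain ⟨r0, r1, r2, r3, hRe⟩ := hT.entries
  have pd : ∀ v0 v1 v2 v3 : ℝ, (v0 ≠ 0 ∨ v1 ≠ 0) →
      0 < v0 * (r0 * v0 + r1 * v1 + r2 * v2 + r3 * v3) + v1 * (r1 * v0 + r0 * v1 + r1 * v2 + r2 * v3)
        + v2 * (r2 * v0 + r1 * v1 + r0 * v2 + r1 * v3) + v3 * (r3 * v0 + r2 * v1 + r1 * v2 + r0 * v3) := by
    intro v0 v1 v2 v3 hv
    have hv' : (![v0, v1, v2, v3] : Fin 4 → ℝ) ≠ 0 := by
      intro h
      rcases hv with hv | hv
      · exact hv (congrFun h 0)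
      · exact hv (congrFun h 1)
    have := hR.dotProduct_mulVec_pos hv'
    rw [hRe] at this
    simp [dotProduct, Matrix.mulVec, Fin.sum_univ_four] at this
    linarith
  have e0 : θ 0 = r0 * x 0 + r1 * x 1 + r2 * x 2 + r3 * x 3 := by
    rw [h1, hRe]; simp [Matrix.mulVec, dotProduct, Fin.sum_univ_four]
  have e1 : θ 1 = r1 * x 0 + r0 * x 1 + r1 * x 2 + r2 * x 3 := by
    rw [h1, hRe]; simp [Matrix.mulVec, dotProduct, Fin.sum_univ_four]
  have e2 : θ 2 = r2 * x 0 + r1 * x 1 + r0 * x 2 + r1 * x 3 := by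
    rw [h1, hRe]; simp [Matrix.mulVec, dotProduct, Fin.sum_univ_four]
  have e3 : θ 3 = r3 * x 0 + r2 * x 1 + r1 * x 2 + r0 * x 3 := by
    rw [h1, hRe]; simp [Matrix.mulVec, dotProduct, Fin.sum_univ_four]
  have a0 : a 0 = x 0 + θ 0 := congrFun h2 0
  have a1 : a 1 = x 1 + θ 1 := congrFun h2 1
  have a2 : a 2 = x 2 + θ 2 := congrFun h2 2
  have a3 : a 3 = x 3 + θ 3 := congrFun h2 3
  -- positivity of the two blocks
  have pS : ∀ p q : ℝ, (p ≠ 0 ∨ q ≠ 0) → 0 < (r0 + r3) * p ^ 2 + 2 * (r1 + r2) * p * q + (r0 + r1) * q ^ 2 := by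
    intro p q hpq
    have := pd p q q p hpq
    nlinarith [this]
  have pA : ∀ p q : ℝ, (p ≠ 0 ∨ q ≠ 0) → 0 < (r0 - r3) * p ^ 2 + 2 * (r1 - r2) * p * q + (r0 - r1) * q ^ 2 := by
    intro p q hpq
    have := pd p q (-q) (-p) hpq
    nlinarith [this]
  refine ⟨r0 + r3, r1 + r2, r0 + r1, r0 - r3, r1 - r2, r0 - r1, ?_, ?_, by ring, by ring,
    ?_, ?_, ?_, ?_, ?_, ?_⟩
  · have hA : 0 < r0 + r3 := by
      have := pS 1 0 (Or.inl one_ne_zero); linarith
    have := pS (-(r1 + r2)) (r0 + r3) (Or.inr hA.ne')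
    have h' : 0 < (r0 + r3) * ((r0 + r3) * (r0 + r1) - (r1 + r2) ^ 2) := by linarith
    exact (pos_iff_pos_of_mul_pos h').1 hA
  · have hA : 0 < r0 - r3 := by
      have := pA 1 0 (Or.inl one_ne_zero); linarith
    have := pA (-(r1 - r2)) (r0 - r3) (Or.inr hA.ne')
    have h' : 0 < (r0 - r3) * ((r0 - r3) * (r0 - r1) - (r1 - r2) ^ 2) := by linarith
    exact (pos_iff_pos_of_mul_pos h').1 hA
  · linear_combination e0 + e3 - (r0 + r3) * (a0 + a3) - (r1 + r2) * (a1 + a2)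
  · linear_combination e1 + e2 - (r1 + r2) * (a0 + a3) - (r0 + r1) * (a1 + a2)
  · linear_combination e0 - e3 - (r0 - r3) * (a0 - a3) - (r1 - r2) * (a1 - a2)
  · linear_combination e1 - e2 - (r1 - r2) * (a0 - a3) - (r0 - r1) * (a1 - a2)
  · have hne : x 0 + x 3 ≠ 0 ∨ x 1 + x 2 ≠ 0 := by
      by_contra hcon
      push Not at hcon
      obtain ⟨c1, c2⟩ := hcon
      have d1 : a 0 + a 3 = 0 := by
        linear_combination a0 + a3 + e0 + e3 + (1 + r0 + r3) * c1 + (r1 + r2) * c2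
      have d2 : a 1 + a 2 = 0 := by
        linear_combination a1 + a2 + e1 + e2 + (r1 + r2) * c1 + (1 + r0 + r1) * c2
      rcases hs with hs | hs
      · exact hs d1
      · exact hs d2
    have := pS _ _ hne
    have e : (θ 0 + θ 3) * (a 0 + a 3 - (θ 0 + θ 3)) + (θ 1 + θ 2) * (a 1 + a 2 - (θ 1 + θ 2))
      = (r0 + r3) * (x 0 + x 3) ^ 2 + 2 * (r1 + r2) * (x 0 + x 3) * (x 1 + x 2)
        + (r0 + r1) * (x 1 + x 2) ^ 2 := by
      rw [a0, a1, a2, a3, e0, e1, e2, e3]; ring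
    rw [e]; exact this
  · have hne : x 0 - x 3 ≠ 0 ∨ x 1 - x 2 ≠ 0 := by
      by_contra hcon
      push Not at hcon
      obtain ⟨c1, c2⟩ := hcon
      have d1 : a 0 - a 3 = 0 := by
        linear_combination a0 - a3 + e0 - e3 + (1 + r0 - r3) * c1 + (r1 - r2) * c2
      have d2 : a 1 - a 2 = 0 := by
        linear_combination a1 - a2 + e1 - e2 + (r1 - r2) * c1 + (1 + r0 - r1) * c2
      rcases ht with ht | ht
      · exact ht d1
      · exact ht d2
    have := pA _ _ hne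
    have e : (θ 0 - θ 3) * (a 0 - a 3 - (θ 0 - θ 3)) + (θ 1 - θ 2) * (a 1 - a 2 - (θ 1 - θ 2))
      = (r0 - r3) * (x 0 - x 3) ^ 2 + 2 * (r1 - r2) * (x 0 - x 3) * (x 1 - x 2)
        + (r0 - r1) * (x 1 - x 2) ^ 2 := by
      rw [a0, a1, a2, a3, e0, e1, e2, e3]; ring
    rw [e]; exact this

/-- A vector `a` is good if no configuration attached to it has a unit root. -/
def Good (as1 as2 at1 at2 : ℝ) : Prop :=
  ∀ s1 s2 t1 t2 : ℝ, Cfg as1 as2 at1 at2 s1 s2 t1 t2 →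
    (1 + s1 + s2 ≠ 0) ∧ (1 - t1 + t2 ≠ 0) ∧
    ∀ C : ℝ, -1 < C → C < 1 → s2 = (1 - 2 * C) * s1 + 1 + 2 * C - 4 * C ^ 2 →
      t2 = -(1 + 2 * C) * t1 + 1 - 2 * C - 4 * C ^ 2 → False

lemma Good.unit {a th : Fin 4 → ℝ} (hg : Good (a 0 + a 3) (a 1 + a 2) (a 0 - a 3) (a 1 - a 2))
    (hc : Cfg (a 0 + a 3) (a 1 + a 2) (a 0 - a 3) (a 1 - a 2)
      (th 0 + th 3) (th 1 + th 2) (th 0 - th 3) (th 1 - th 2)) (z : ℂ) (hz : ‖z‖ = 1) :
    PP th z ≠ 0 := by
  intro h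
  obtain ⟨g1, g2, g3⟩ := hg _ _ _ _ hc
  rcases PP_unit hz h with h1 | h1 | ⟨C, c1, c2, h1, h2⟩
  · exact g1 h1
  · exact g2 h1
  · exact g3 C c1 c2 h1 h2

lemma PP_zero_unit {z : ℂ} (hz : ‖z‖ = 1) : PP 0 z ≠ 0 := by
  unfold PP
  simp only [Pi.zero_apply, Complex.ofReal_zero, zero_mul, add_zero]
  have : z ≠ 0 := by
    intro h; rw [h, norm_zero] at hz; norm_num at hz
  exact pow_ne_zero _ this

lemma stable_of_good {a : Fin 4 → ℝ}
    (hg : Good (a 0 + a 3) (a 1 + a 2) (a 0 - a 3) (a 1 - a 2))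
    (hs : a 0 + a 3 ≠ 0 ∨ a 1 + a 2 ≠ 0) (ht : a 0 - a 3 ≠ 0 ∨ a 1 - a 2 ≠ 0)
    (h1 : ∀ z : ℂ, ‖z‖ = 1 → PP a z ≠ 0) :
    ∀ z : ℂ, 1 ≤ ‖z‖ → PP a z ≠ 0 := by
  have key := homotopy (fun t => t • a) (by fun_prop) (by simp) ?_
  · simpa using key
  intro t ht' z hz
  rcases ht'.1.eq_or_lt with h | h
  · simp only [← h, zero_smul]
    exact PP_zero_unit hz
  rcases ht'.2.eq_or_lt with h' | h'
  · simp only [h', one_smul]
    exact h1 z hz
  apply hg.unit _ z hz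
  have h3 : 0 < 1 - t := by linarith
  have h4 : t / (1 - t) * (1 - t) = t := by field_simp
  have h5 : 0 < t / (1 - t) := by positivity
  have q : ∀ u v : ℝ, (u ≠ 0 ∨ v ≠ 0) → 0 < t * u * (u - t * u) + t * v * (v - t * v) := by
    intro u v huv
    have : 0 < u ^ 2 + v ^ 2 := by
      rcases huv with h | h <;> positivity
    have : 0 < t * (1 - t) * (u ^ 2 + v ^ 2) := by positivity
    linarith
  simp only [Pi.smul_apply, smul_eq_mul]
  have h6 : 0 < t / (1 - t) * (t / (1 - t)) - 0 ^ 2 := by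
    have := mul_pos h5 h5
    linarith
  refine ⟨t / (1 - t), 0, t / (1 - t), t / (1 - t), 0, t / (1 - t), h6, h6,
    by ring, by ring, ?_, ?_, ?_, ?_, ?_, ?_⟩
  · linear_combination -(a 0 + a 3) * h4
  · linear_combination -(a 1 + a 2) * h4
  · linear_combination -(a 0 - a 3) * h4
  · linear_combination -(a 1 - a 2) * h4
  · have := q _ _ hs; linarith
  · have := q _ _ ht; linarith

lemma smul_toep {R : Matrix (Fin 4) (Fin 4) ℝ} (hT : Toep R) (t : ℝ) : Toep (t • R) := by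
  obtain ⟨r, hr⟩ := hT
  exact ⟨fun n => t * r n, fun i j => by rw [Matrix.smul_apply, hr i j, smul_eq_mul]⟩

lemma stable_R_of_good {a : Fin 4 → ℝ}
    (hg : Good (a 0 + a 3) (a 1 + a 2) (a 0 - a 3) (a 1 - a 2))
    (hs : a 0 + a 3 ≠ 0 ∨ a 1 + a 2 ≠ 0) (ht : a 0 - a 3 ≠ 0 ∨ a 1 - a 2 ≠ 0)
    {R : Matrix (Fin 4) (Fin 4) ℝ} (hR : R.PosDef) (hT : Toep R) :
    ∀ z : ℂ, 1 ≤ ‖z‖ → PP ((R * (1 + R)⁻¹) *ᵥ a) z ≠ 0 := by
  have hpd : ∀ t : ℝ, 0 < t → (t • R).PosDef := fun t ht => hR.smul ht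
  have hdet : ∀ t ∈ Set.Icc (0:ℝ) 1, (1 + t • R).det ≠ 0 := by
    intro t ht'
    rcases ht'.1.eq_or_lt with h | h
    · rw [← h]; simp
    · exact (Matrix.PosDef.one.add (hpd t h)).det_pos.ne'
  have key := homotopy (fun t => ((t • R) * (1 + t • R)⁻¹) *ᵥ a) ?_ ?_ ?_
  · simpa using key
  · have e : (fun t : ℝ => ((t • R) * (1 + t • R)⁻¹) *ᵥ a) =
        fun t : ℝ => ((t • R) * ((1 + t • R).det⁻¹ • (1 + t • R).adjugate)) *ᵥ a := by
      funext t
      rw [Matrix.inv_def, Ring.inverse_eq_inv']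
    rw [e]
    have c1 : Continuous (fun t : ℝ => t • R) := by fun_prop
    have c2 : Continuous (fun t : ℝ => (1 + t • R)) := continuous_const.add c1
    have c3 : ContinuousOn (fun t : ℝ => (1 + t • R).det⁻¹) (Set.Icc 0 1) :=
      (c2.matrix_det.continuousOn).inv₀ hdet
    have c4 : ContinuousOn (fun t : ℝ => (1 + t • R).adjugate) (Set.Icc 0 1) :=
      c2.matrix_adjugate.continuousOn
    have c5 : ContinuousOn (fun t : ℝ => (1 + t • R).det⁻¹ • (1 + t • R).adjugate) (Set.Icc 0 1) :=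
      c3.smul c4
    have c6 : ContinuousOn (fun t : ℝ => (t • R) * ((1 + t • R).det⁻¹ • (1 + t • R).adjugate))
        (Set.Icc 0 1) := by
      have hm : Continuous (fun p : Matrix (Fin 4) (Fin 4) ℝ × Matrix (Fin 4) (Fin 4) ℝ => p.1 * p.2) :=
        continuous_fst.matrix_mul continuous_snd
      exact hm.comp_continuousOn (c1.continuousOn.prodMk c5)
    have hv : Continuous (fun M : Matrix (Fin 4) (Fin 4) ℝ => M *ᵥ a) :=
      continuous_id.matrix_mulVec continuous_const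
    exact hv.comp_continuousOn c6
  · simp
  · intro t ht' z hz
    rcases ht'.1.eq_or_lt with h | h
    · simp only [← h]
      simp only [zero_smul, zero_mul, Matrix.zero_mulVec]
      exact PP_zero_unit hz
    exact hg.unit (cfg_of_R (hpd t h) (smul_toep hT t) a hs ht _ rfl) z hz

lemma good1 : Good (-23/20) (13/20) (-7/20) (1/4) := by
  intro s1 s2 t1 t2 h
  exact ⟨fun hz => e1_one h hz, fun hz => e1_negone h hz,
    fun C c1 c2 h1 h2 => e1_circle h c1 c2 h1 h2⟩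

lemma good2 : Good (1/10) (11/10) (-3/10) (9/10) := by
  intro s1 s2 t1 t2 h
  exact ⟨fun hz => e2_one h hz, fun hz => e2_negone h hz,
    fun C c1 c2 h1 h2 => e2_circle h c1 c2 h1 h2⟩

/-- first point -/
noncomputable def v1 : Fin 4 → ℝ := ![-3/4, 9/20, 1/5, -2/5]
/-- second point -/
noncomputable def v2 : Fin 4 → ℝ := ![-1/10, 1, 1/10, 1/5]

lemma v1_0 : v1 0 = -3/4 := rfl
lemma v1_1 : v1 1 = 9/20 := rfl
lemma v1_2 : v1 2 = 1/5 := rfl
lemma v1_3 : v1 3 = -2/5 := rfl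
lemma v2_0 : v2 0 = -1/10 := rfl
lemma v2_1 : v2 1 = 1 := rfl
lemma v2_2 : v2 2 = 1/10 := rfl
lemma v2_3 : v2 3 = 1/5 := rfl

lemma good1' : Good (v1 0 + v1 3) (v1 1 + v1 2) (v1 0 - v1 3) (v1 1 - v1 2) := by
  have := good1
  rw [v1_0, v1_1, v1_2, v1_3]
  norm_num at this ⊢
  exact this

lemma good2' : Good (v2 0 + v2 3) (v2 1 + v2 2) (v2 0 - v2 3) (v2 1 - v2 2) := by
  have := good2
  rw [v2_0, v2_1, v2_2, v2_3]
  norm_num at this ⊢
  exact this

lemma unit1 (z : ℂ) (hz : ‖z‖ = 1) : PP v1 z ≠ 0 := by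
  intro h
  rcases PP_unit hz h with h1 | h1 | ⟨C, c1, c2, h1, h2⟩
  · rw [v1_0, v1_1, v1_2, v1_3] at h1; norm_num at h1
  · rw [v1_0, v1_1, v1_2, v1_3] at h1; norm_num at h1
  · rw [v1_0, v1_1, v1_2, v1_3] at h1 h2
    have hC : C = 19/56 := by linarith
    rw [hC] at h1
    norm_num at h1

lemma unit2 (z : ℂ) (hz : ‖z‖ = 1) : PP v2 z ≠ 0 := by
  intro h
  rcases PP_unit hz h with h1 | h1 | ⟨C, c1, c2, h1, h2⟩
  · rw [v2_0, v2_1, v2_2, v2_3] at h1; norm_num at h1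
  · rw [v2_0, v2_1, v2_2, v2_3] at h1; norm_num at h1
  · rw [v2_0, v2_1, v2_2, v2_3] at h1 h2
    have hC : C = 1/8 := by linarith
    rw [hC] at h1
    norm_num at h1

/-- the destabilising Toeplitz matrix for the midpoint -/
noncomputable def RR : Matrix (Fin 4) (Fin 4) ℝ :=
  !![596883/3952, -221235/3952, -399645/3952, 557933/3952;
     -221235/3952, 596883/3952, -221235/3952, -399645/3952;
     -399645/3952, -221235/3952, 596883/3952, -221235/3952;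
     557933/3952, -399645/3952, -221235/3952, 596883/3952]

lemma RR_toep : Toep RR := by
  refine ⟨fun n => if n = 0 then 596883/3952 else if n = 1 then -221235/3952 else
    if n = 2 then -399645/3952 else 557933/3952, ?_⟩
  intro i j
  fin_cases i <;> fin_cases j <;> simp [RR]

lemma RR_posDef : RR.PosDef := by
  apply Matrix.PosDef.of_dotProduct_mulVec_pos
  · ext i j
    fin_cases i <;> fin_cases j <;> simp [RR]
  · intro x hx
    have hx' : x 0 ≠ 0 ∨ x 1 ≠ 0 ∨ x 2 ≠ 0 ∨ x 3 ≠ 0 := by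
      by_contra hcon
      push Not at hcon
      obtain ⟨h0, h1, h2, h3⟩ := hcon
      apply hx
      ext i
      fin_cases i <;> simp_all
    have e : star x ⬝ᵥ RR *ᵥ x =
        (1/2) * ((1154816/3952) * (x 0 + x 3) ^ 2 + 2 * (-620880/3952) * (x 0 + x 3) * (x 1 + x 2)
          + (375648/3952) * (x 1 + x 2) ^ 2)
        + (1/2) * ((38950/3952) * (x 0 - x 3) ^ 2 + 2 * (178410/3952) * (x 0 - x 3) * (x 1 - x 2)
          + (818118/3952) * (x 1 - x 2) ^ 2) := by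
      simp [RR, Matrix.mulVec, dotProduct, Fin.sum_univ_four]
      ring
    rw [e]
    have f1 : ∀ p q : ℝ, (1154816/3952) * p ^ 2 + 2 * (-620880/3952) * p * q + (375648/3952) * q ^ 2
        = (1154816/3952) * (p - (620880/1154816) * q) ^ 2
          + (375648/3952 - (620880/3952) ^ 2 / (1154816/3952)) * q ^ 2 := by
      intro p q; ring
    have f2 : ∀ p q : ℝ, (38950/3952) * p ^ 2 + 2 * (178410/3952) * p * q + (818118/3952) * q ^ 2
        = (38950/3952) * (p + (178410/38950) * q) ^ 2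
          + (818118/3952 - (178410/3952) ^ 2 / (38950/3952)) * q ^ 2 := by
      intro p q; ring
    have g1 : ∀ p q : ℝ, 0 ≤ (1154816/3952) * p ^ 2 + 2 * (-620880/3952) * p * q + (375648/3952) * q ^ 2 := by
      intro p q; rw [f1]
      have : (0:ℝ) ≤ 375648/3952 - (620880/3952) ^ 2 / (1154816/3952) := by norm_num
      positivity
    have g2 : ∀ p q : ℝ, 0 ≤ (38950/3952) * p ^ 2 + 2 * (178410/3952) * p * q + (818118/3952) * q ^ 2 := by
      intro p q; rw [f2]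
      have : (0:ℝ) ≤ 818118/3952 - (178410/3952) ^ 2 / (38950/3952) := by norm_num
      positivity
    have g1' : ∀ p q : ℝ, (1154816/3952) * p ^ 2 + 2 * (-620880/3952) * p * q + (375648/3952) * q ^ 2 = 0 →
        p = 0 ∧ q = 0 := by
      intro p q h
      rw [f1] at h
      have c : (0:ℝ) < 375648/3952 - (620880/3952) ^ 2 / (1154816/3952) := by norm_num
      have hq : q = 0 := by
        by_contra hq
        have : 0 < (375648/3952 - (620880/3952) ^ 2 / (1154816/3952)) * q ^ 2 := by positivity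
        have : 0 ≤ (1154816/3952) * (p - (620880/1154816) * q) ^ 2 := by positivity
        linarith
      subst hq
      refine ⟨?_, rfl⟩
      by_contra hp
      have : 0 < p ^ 2 := by positivity
      linarith
    have g2' : ∀ p q : ℝ, (38950/3952) * p ^ 2 + 2 * (178410/3952) * p * q + (818118/3952) * q ^ 2 = 0 →
        p = 0 ∧ q = 0 := by
      intro p q h
      rw [f2] at h
      have c : (0:ℝ) < 818118/3952 - (178410/3952) ^ 2 / (38950/3952) := by norm_num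
      have hq : q = 0 := by
        by_contra hq
        have : 0 < (818118/3952 - (178410/3952) ^ 2 / (38950/3952)) * q ^ 2 := by positivity
        have : 0 ≤ (38950/3952) * (p + (178410/38950) * q) ^ 2 := by positivity
        linarith
      subst hq
      refine ⟨?_, rfl⟩
      by_contra hp
      have : 0 < p ^ 2 := by positivity
      linarith
    have k1 := g1 (x 0 + x 3) (x 1 + x 2)
    have k2 := g2 (x 0 - x 3) (x 1 - x 2)
    by_contra hcon
    push Not at hcon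
    have z1 := g1' (x 0 + x 3) (x 1 + x 2) (by linarith)
    have z2 := g2' (x 0 - x 3) (x 1 - x 2) (by linarith)
    obtain ⟨z1a, z1b⟩ := z1
    obtain ⟨z2a, z2b⟩ := z2
    rcases hx' with h | h | h | h
    · apply h; linarith
    · apply h; linarith
    · apply h; linarith
    · apply h; linarith

/-- the midpoint -/
noncomputable def mm : Fin 4 → ℝ := ![-17/40, 29/40, 3/20, -1/10]
/-- its image -/
noncomputable def tt : Fin 4 → ℝ := ![-9/40, 261/400, 69/400, -13/40]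

lemma RR_mm : (RR * (1 + RR)⁻¹) *ᵥ mm = tt := by
  have h1 : mm = (1 + RR) *ᵥ (mm - tt) := by
    rw [Matrix.add_mulVec, Matrix.one_mulVec]
    ext i
    fin_cases i <;> simp [RR, mm, tt, Matrix.mulVec, dotProduct, Fin.sum_univ_four] <;> norm_num
  have h2 : (1 + RR)⁻¹ *ᵥ mm = mm - tt := by
    have hu : IsUnit (1 + RR).det :=
      isUnit_iff_ne_zero.2 (Matrix.PosDef.one.add RR_posDef).det_pos.ne'
    have h3 := congrArg (fun v => (1 + RR)⁻¹ *ᵥ v) h1
    simp only [Matrix.mulVec_mulVec, Matrix.nonsing_inv_mul _ hu, Matrix.one_mulVec] at h3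
    exact h3
  rw [← Matrix.mulVec_mulVec, h2]
  ext i
  fin_cases i <;> simp [RR, mm, tt, Matrix.mulVec, dotProduct, Fin.sum_univ_four] <;> norm_num

lemma tt_root : ∃ z : ℂ, ‖z‖ = 1 ∧ PP tt z = 0 := by
  obtain ⟨s, hs⟩ : ∃ s : ℝ, s ^ 2 = 391/400 := ⟨Real.sqrt (391/400), Real.sq_sqrt (by norm_num)⟩
  refine ⟨⟨3/20, s⟩, ?_, ?_⟩
  · have h1 : ‖(⟨3/20, s⟩ : ℂ)‖ ^ 2 = 1 := by
      rw [Complex.sq_norm, Complex.normSq_mk]
      nlinarith [hs]
    have h2 : 0 ≤ ‖(⟨3/20, s⟩ : ℂ)‖ := norm_nonneg _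
    nlinarith [h1, h2]
  · have hz : (⟨3/20, s⟩ : ℂ) ^ 2 - (3/10) * ⟨3/20, s⟩ + 1 = 0 := by
      apply Complex.ext
      · simp [pow_two]
        nlinarith [hs]
      · simp [pow_two]
        ring
    generalize (⟨3/20, s⟩ : ℂ) = z at hz
    unfold PP
    have t0 : tt 0 = -9/40 := rfl
    have t1 : tt 1 = 261/400 := rfl
    have t2 : tt 2 = 69/400 := rfl
    have t3 : tt 3 = -13/40 := rfl
    rw [t0, t1, t2, t3]
    push_cast
    linear_combination (z ^ 2 + (3/40) * z - 13/40) * hz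

lemma frozen_eq (a : Fin 4 → ℝ) (z : ℂ) :
    z ^ 4 + ∑ j : Fin 4, ((a j : ℝ) : ℂ) * z ^ (4 - (j.val + 1)) = PP a z := by
  simp only [PP, Fin.sum_univ_four]
  norm_num
  ring

end Pool.Agent.S03084
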