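import Pool.Statements.S03084
import Pool.Agent.helper443_RSQ

set_option autoImplicit false
open Matrix
open Pool Pool.MP_4b13b5_an

namespace Pool.Agent.S03084

/-- The negation of the preceding statement: For every n, the set of real vectors a such that z^n+a_1z^(n-1)+...+a_n has all roots in the open unit disk, and the same holds for R(I+R)^(-1)a for every positive definite symmetric Toeplitz R, is convex. -/
theorem result :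
    ¬ (∀ n : ℕ, Convex ℝ {a : Fin n → ℝ |
      (∀ z : ℂ, 1 ≤ ‖z‖ → z ^ n + ∑ j : Fin n, ((a j : ℝ) : ℂ) * z ^ (n - (j.val + 1)) ≠ 0) ∧
      ∀ R : Matrix (Fin n) (Fin n) ℝ, R.PosDef →
        (∃ r : ℕ → ℝ, ∀ i j : Fin n, R i j = r (Int.natAbs ((i.val : ℤ) - (j.val : ℤ)))) →
        ∀ z : ℂ, 1 ≤ ‖z‖ →
          z ^ n + ∑ j : Fin n, ((((R * (1 + R)⁻¹) *ᵥ a) j : ℝ) : ℂ) * z ^ (n - (j.val + 1)) ≠ 0}) := by
  intro hall
  have hconv := hall 4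
  have m1 : v1 ∈ {a : Fin 4 → ℝ |
      (∀ z : ℂ, 1 ≤ ‖z‖ → z ^ 4 + ∑ j : Fin 4, ((a j : ℝ) : ℂ) * z ^ (4 - (j.val + 1)) ≠ 0) ∧
      ∀ R : Matrix (Fin 4) (Fin 4) ℝ, R.PosDef →
        (∃ r : ℕ → ℝ, ∀ i j : Fin 4, R i j = r (Int.natAbs ((i.val : ℤ) - (j.val : ℤ)))) →
        ∀ z : ℂ, 1 ≤ ‖z‖ →
          z ^ 4 + ∑ j : Fin 4, ((((R * (1 + R)⁻¹) *ᵥ a) j : ℝ) : ℂ) * z ^ (4 - (j.val + 1)) ≠ 0} := by
    have hs : v1 0 + v1 3 ≠ 0 ∨ v1 1 + v1 2 ≠ 0 := by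
      left; rw [v1_0, v1_3]; norm_num
    have ht : v1 0 - v1 3 ≠ 0 ∨ v1 1 - v1 2 ≠ 0 := by
      left; rw [v1_0, v1_3]; norm_num
    refine ⟨fun z hz => ?_, fun R hR hT z hz => ?_⟩
    · rw [frozen_eq]; exact stable_of_good good1' hs ht unit1 z hz
    · rw [frozen_eq]; exact stable_R_of_good good1' hs ht hR hT z hz
  have m2 : v2 ∈ {a : Fin 4 → ℝ |
      (∀ z : ℂ, 1 ≤ ‖z‖ → z ^ 4 + ∑ j : Fin 4, ((a j : ℝ) : ℂ) * z ^ (4 - (j.val + 1)) ≠ 0) ∧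
      ∀ R : Matrix (Fin 4) (Fin 4) ℝ, R.PosDef →
        (∃ r : ℕ → ℝ, ∀ i j : Fin 4, R i j = r (Int.natAbs ((i.val : ℤ) - (j.val : ℤ)))) →
        ∀ z : ℂ, 1 ≤ ‖z‖ →
          z ^ 4 + ∑ j : Fin 4, ((((R * (1 + R)⁻¹) *ᵥ a) j : ℝ) : ℂ) * z ^ (4 - (j.val + 1)) ≠ 0} := by
    have hs : v2 0 + v2 3 ≠ 0 ∨ v2 1 + v2 2 ≠ 0 := by
      left; rw [v2_0, v2_3]; norm_num
    have ht : v2 0 - v2 3 ≠ 0 ∨ v2 1 - v2 2 ≠ 0 := by
      left; rw [v2_0, v2_3]; norm_num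
    refine ⟨fun z hz => ?_, fun R hR hT z hz => ?_⟩
    · rw [frozen_eq]; exact stable_of_good good2' hs ht unit2 z hz
    · rw [frozen_eq]; exact stable_R_of_good good2' hs ht hR hT z hz
  have hm := hconv m1 m2 (by norm_num : (0:ℝ) ≤ 1/2) (by norm_num : (0:ℝ) ≤ 1/2) (by norm_num)
  have hmm : (1/2 : ℝ) • v1 + (1/2 : ℝ) • v2 = mm := by
    ext i
    fin_cases i <;> simp [v1, v2, mm] <;> norm_num
  rw [hmm] at hm
  obtain ⟨z, hz, hroot⟩ := tt_root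
  have h := hm.2 RR RR_posDef RR_toep z hz.ge
  rw [frozen_eq, RR_mm] at h
  exact h hroot

end Pool.Agent.S03084
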