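import Pool.Statements.S03089
import Pool.Agent.Helper754.MV8

set_option autoImplicit false
open Pool Pool.MP_4bc1d7_an

namespace Pool.Agent.S03089

open Pool.Agent.Helper754

/-- On any analytic set X in an open set of C^n, a bounded complex of Banach spaces with holomorphic boundary maps that is exact at every point of X is also exact as a complex of germs of Banach-valued holomorphic functions on X at every point. -/
theorem result :
  ∀ (n m k : ℕ) (U : Set (Fin n → ℂ)) (h : Fin m → (Fin n → ℂ) → ℂ)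
    (E : ℕ → Type) [∀ i, NormedAddCommGroup (E i)] [∀ i, NormedSpace ℂ (E i)]
    [∀ i, CompleteSpace (E i)]
    (u : ∀ j : ℕ, (Fin n → ℂ) → (E (j + 1) →L[ℂ] E j)),
    IsOpen U → (∀ i, DifferentiableOn ℂ (h i) U) →
    (∀ j, k < j → Subsingleton (E j)) →
    (∀ j, DifferentiableOn ℂ (u j) U) →
    (∀ x ∈ U, (∀ i, h i x = 0) → ∀ j, (u j x).comp (u (j + 1) x) = 0) →
    (∀ x ∈ U, (∀ i, h i x = 0) →
      (∀ v : E 0, ∃ w, u 0 x w = v) ∧
      ∀ j, ∀ v : E (j + 1), u j x v = 0 → ∃ w, u (j + 1) x w = v) →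
    ∀ x ∈ U, (∀ i, h i x = 0) →
      (∀ (V : Set (Fin n → ℂ)) (f : (Fin n → ℂ) → E 0),
        IsOpen V → x ∈ V → DifferentiableOn ℂ f V →
        ∃ W : Set (Fin n → ℂ), IsOpen W ∧ x ∈ W ∧
          ∃ g : (Fin n → ℂ) → E 1, DifferentiableOn ℂ g W ∧
            ∀ y ∈ W, y ∈ U → (∀ i, h i y = 0) → u 0 y (g y) = f y) ∧
      (∀ (j : ℕ) (V : Set (Fin n → ℂ)) (f : (Fin n → ℂ) → E (j + 1)),
        IsOpen V → x ∈ V → DifferentiableOn ℂ f V →
        (∀ y ∈ V, y ∈ U → (∀ i, h i y = 0) → u j y (f y) = 0) →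
        ∃ W : Set (Fin n → ℂ), IsOpen W ∧ x ∈ W ∧
          ∃ g : (Fin n → ℂ) → E (j + 1 + 1), DifferentiableOn ℂ g W ∧
            ∀ y ∈ W, y ∈ U → (∀ i, h i y = 0) → u (j + 1) y (g y) = f y) := by
  intro n m k U h E _ _ _ u hU hh hk hu hcomp hexact x hxU hxh
  obtain ⟨hsurj, hker⟩ := hexact x hxU hxh
  set X : Set (Fin n → ℂ) := {y | y ∈ U ∧ ∀ i, h i y = 0} with hX
  have hXU : X ⊆ U := fun y hy => hy.1
  have hxX : x ∈ X := ⟨hxU, hxh⟩
  -- closed ranges
  have hcl : ∀ j, IsClosed (Set.range (u j x)) := by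
    intro j
    rcases j with _ | j
    · have : Set.range (u 0 x) = Set.univ := Set.eq_univ_of_forall (fun v => hsurj v)
      rw [this]
      exact isClosed_univ
    · have : Set.range (u (j + 1) x) = {v | u j x v = 0} := by
        ext v
        constructor
        · rintro ⟨w, rfl⟩
          have := congrArg (fun A => A w) (hcomp x hxU hxh j)
          exact this
        · intro hv
          exact hker j v hv
      rw [this]
      exact isClosed_eq (u j x).continuous continuous_const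
  have hbd : ∀ j, ∃ C : ℝ, 0 ≤ C ∧ ∀ a, ∃ a', u j x a' = u j x a ∧ ‖a'‖ ≤ C * ‖u j x a‖ :=
    fun j => MV.closed_range_bound (u j x) (hcl j)
  constructor
  · intro V f hV hxV hf
    obtain ⟨C, hC, hb⟩ := hbd 0
    obtain ⟨W, hW, hxW, g, hg, hgf⟩ := MV.stage (E2 := E 1) (E1 := E 0) (E0 := E 0) hU hXU hxX
      (u 0) (fun _ => 0) (hu 0) (differentiableOn_const _) (fun y _ => ContinuousLinearMap.zero_comp _)
      le_rfl (fun e => ⟨0, by simp⟩) hC (fun e _ => by
        obtain ⟨a, ha⟩ := hsurj e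
        obtain ⟨a', h1, h2⟩ := hb a
        rw [ha] at h1 h2
        exact ⟨a', h1, h2⟩) hV hxV hf (fun _ _ _ => rfl)
    exact ⟨W, hW, hxW, g, hg, fun y hyW hyU hyh => hgf y hyW ⟨hyU, hyh⟩⟩
  · intro j V f hV hxV hf hfu
    obtain ⟨C1, hC1, hb1⟩ := hbd j
    obtain ⟨C, hC, hb⟩ := hbd (j + 1)
    obtain ⟨W, hW, hxW, g, hg, hgf⟩ := MV.stage (E2 := E (j + 1 + 1)) (E1 := E (j + 1)) (E0 := E j)
      hU hXU hxX (u (j + 1)) (u j) (hu (j + 1)) (hu j) (fun y hy => hcomp y hy.1 hy.2 j)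
      hC1 hb1 hC (fun e he => by
        obtain ⟨a, ha⟩ := hker j e he
        obtain ⟨a', h1, h2⟩ := hb a
        rw [ha] at h1 h2
        exact ⟨a', h1, h2⟩) hV hxV hf (fun y hyV hyX => hfu y hyV hyX.1 hyX.2)
    exact ⟨W, hW, hxW, g, hg, fun y hyW hyU hyh => hgf y hyW ⟨hyU, hyh⟩⟩

end Pool.Agent.S03089
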