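import Pool.Statements.S03093
-- import your own Pool.Agent.* helpers here

set_option autoImplicit false
open Pool Pool.MP_4c66eb_an

namespace Pool.Agent.S03093

section Helpers

open Polynomial

/-- If all zeros of `A` lie in the open upper half-plane, so do those of `A'`. -/
theorem derivative_upper {A : ℂ[X]} (hA : ∀ z, A.eval z = 0 → 0 < z.im) (hdeg : 0 < A.natDegree) :
    ∀ z, A.derivative.eval z = 0 → 0 < z.im := by
  intro z hz
  have hd : 0 < A.degree := natDegree_pos_iff_degree_pos.1 hdeg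
  have hA0 : A ≠ 0 := by rintro rfl; simp at hd
  have hd0 : A.derivative ≠ 0 := by
    intro h
    have := derivative_eq_zero.1 h
    omega
  have hmem : z ∈ A.derivative.rootSet ℂ := by
    rw [mem_rootSet]
    exact ⟨hd0, by simpa using hz⟩
  have h1 := rootSet_derivative_subset_convexHull_rootSet hd hmem
  have hconv : Convex ℝ {z : ℂ | 0 < z.im} := convex_halfSpace_im_gt 0
  have hsub : A.rootSet ℂ ⊆ {z : ℂ | 0 < z.im} := by
    intro w hw
    rw [mem_rootSet] at hw
    exact hA w (by simpa using hw.2)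
  exact convexHull_min hsub hconv h1

/-- If all zeros of `A` lie in the open upper half-plane, then every coefficient of `A` up to its
degree is nonzero. -/
theorem coeff_ne_zero_of_upper {A : ℂ[X]} (hA0 : A ≠ 0) (hA : ∀ z, A.eval z = 0 → 0 < z.im)
    (k : ℕ) (hk : k ≤ A.natDegree) : A.coeff k ≠ 0 := by
  induction k generalizing A with
  | zero =>
    intro h
    rw [coeff_zero_eq_eval_zero] at h
    have := hA 0 h
    simp at this
  | succ k ih =>
    have hdeg : 0 < A.natDegree := by omega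
    have hd0 : A.derivative ≠ 0 := by
      intro h
      have := derivative_eq_zero.1 h
      omega
    have hnd : A.derivative.natDegree = A.natDegree - 1 := natDegree_derivative A
    have := ih hd0 (derivative_upper hA hdeg) (by omega)
    rw [coeff_derivative] at this
    intro h
    rw [h] at this
    simp at this

/-- Every complex number off the closed negative real half-line is a quotient of two numbers in
the open upper half-plane. -/
theorem exists_upper_div {τ : ℂ} (hτ : ¬ (τ.im = 0 ∧ τ.re ≤ 0)) :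
    ∃ t s : ℂ, 0 < t.im ∧ 0 < s.im ∧ τ = t / s := by
  obtain ⟨σ, hσ⟩ : ∃ σ : ℂ, σ ^ 2 = τ := IsAlgClosed.exists_pow_nat_eq τ (by norm_num)
  have key : ∀ σ : ℂ, σ ^ 2 = τ → 0 < σ.re → ∃ t s : ℂ, 0 < t.im ∧ 0 < s.im ∧ τ = t / s := by
    intro σ hσ hre
    have hσ0 : σ ≠ 0 := by rintro rfl; simp at hre
    refine ⟨Complex.I * σ, Complex.I / σ, ?_, ?_, ?_⟩
    · simpa using hre
    · rw [div_eq_mul_inv, Complex.mul_im]
      simp only [Complex.I_re, Complex.I_im, zero_mul, one_mul, Complex.inv_re, zero_add]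
      exact div_pos hre (Complex.normSq_pos.2 hσ0)
    · rw [← hσ]
      field_simp
  rcases lt_trichotomy σ.re 0 with h | h | h
  · exact key (-σ) (by rw [← hσ]; ring) (by simpa using h)
  · exfalso
    apply hτ
    rw [← hσ]
    constructor
    · rw [pow_two, Complex.mul_im, h]; ring
    · rw [pow_two, Complex.mul_re, h]; nlinarith [mul_self_nonneg σ.im]
  · exact key σ hσ h

/-- The zeros of `p(tX)` lie in the upper half-plane if those of `p` are real and negative and `t`
is in the upper half-plane. -/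
theorem comp_upper {p : ℂ[X]} (hp : ∀ z, p.eval z = 0 → z.im = 0 ∧ z.re < 0) {t : ℂ}
    (ht : 0 < t.im) : ∀ z, (p.comp (C t * X)).eval z = 0 → 0 < z.im := by
  intro z hz
  rw [eval_comp] at hz
  simp only [eval_mul, eval_C, eval_X] at hz
  obtain ⟨h1, h2⟩ := hp _ hz
  have ht0 : t ≠ 0 := by rintro rfl; simp at ht
  have hz' : z = (t * z) / t := by field_simp
  rw [Complex.mul_im] at h1
  rw [Complex.mul_re] at h2
  -- t.re * z.im + t.im * z.re = 0, t.re * z.re - t.im * z.im < 0
  by_contra hcon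
  have hcon' : z.im ≤ 0 := not_lt.1 hcon
  have e1 : t.im * z.re = - t.re * z.im := by linarith
  have e2 : t.im * (t.re * z.re - t.im * z.im) < 0 := mul_neg_of_pos_of_neg ht h2
  have e3 : t.im * (t.re * z.re - t.im * z.im) = - (t.re ^ 2 + t.im ^ 2) * z.im := by
    have : t.im * (t.re * z.re - t.im * z.im) = t.re * (t.im * z.re) - t.im ^ 2 * z.im := by ring
    rw [this, e1]; ring
  rw [e3] at e2
  nlinarith [sq_nonneg t.re, sq_nonneg t.im]

/-- Composition: if `p` and `q` have only real negative zeros and degree `n`, then so does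
`∑ p_k q_{n-k} X^k`. -/
theorem hadamard_real_neg {n : ℕ} {p q : ℂ[X]} (hpn : p.natDegree = n) (hqn : q.natDegree = n)
    (hp0 : p ≠ 0) (hq0 : q ≠ 0)
    (hp : ∀ z, p.eval z = 0 → z.im = 0 ∧ z.re < 0) (hq : ∀ z, q.eval z = 0 → z.im = 0 ∧ z.re < 0)
    (z : ℂ) (hz : ∑ k ∈ Finset.range (n + 1), p.coeff k * q.coeff (n - k) * z ^ k = 0) :
    z.im = 0 ∧ z.re < 0 := by
  have hz0 : z ≠ 0 := by
    rintro rfl
    rw [Finset.sum_range_succ'] at hz
    simp only [pow_succ, mul_zero, Finset.sum_const_zero, pow_zero, mul_one, zero_add,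
      Nat.sub_zero] at hz
    rcases mul_eq_zero.1 hz with h | h
    · rw [coeff_zero_eq_eval_zero] at h
      have := (hp 0 h).2
      simp at this
    · rw [← hqn] at h
      exact hq0 (leadingCoeff_eq_zero.1 h)
  by_contra hcon
  have hτ : ¬ (z.im = 0 ∧ z.re ≤ 0) := by
    rintro ⟨h1, h2⟩
    rcases lt_or_eq_of_le h2 with h | h
    · exact hcon ⟨h1, h⟩
    · exact hz0 (Complex.ext h h1)
  obtain ⟨t, s, ht, hs, hts⟩ := exists_upper_div hτ
  have ht0 : t ≠ 0 := by rintro rfl; simp at ht
  have hs0 : s ≠ 0 := by rintro rfl; simp at hs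
  have hX : ∀ c : ℂ, c ≠ 0 → (C c * X : ℂ[X]).natDegree = 1 := fun c hc => natDegree_C_mul_X c hc
  have hP0 : p.comp (C t * X) ≠ 0 := by
    intro h
    have := natDegree_comp (p := p) (q := C t * X)
    rw [h] at this
    have h2 := comp_eq_zero_iff.1 h
    rcases h2 with h2 | h2
    · exact hp0 h2
    · have := congrArg natDegree h2.2
      rw [hX t ht0, natDegree_C] at this
      omega
  have hQ0 : q.comp (C s * X) ≠ 0 := by
    intro h
    have h2 := comp_eq_zero_iff.1 h
    rcases h2 with h2 | h2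
    · exact hq0 h2
    · have := congrArg natDegree h2.2
      rw [hX s hs0, natDegree_C] at this
      omega
  have hdeg : (p.comp (C t * X) * q.comp (C s * X)).natDegree = n + n := by
    rw [natDegree_mul hP0 hQ0, natDegree_comp, natDegree_comp, hX t ht0, hX s hs0, hpn, hqn]
    ring
  have hne := coeff_ne_zero_of_upper (mul_ne_zero hP0 hQ0) (by
    intro w hw
    rw [eval_mul] at hw
    rcases mul_eq_zero.1 hw with h | h
    · exact comp_upper hp ht w h
    · exact comp_upper hq hs w h) n (by omega)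
  apply hne
  rw [coeff_mul, Finset.Nat.sum_antidiagonal_eq_sum_range_succ_mk]
  have hcc : ∀ (r : ℂ[X]) (c : ℂ) (k : ℕ), (r.comp (C c * X)).coeff k = r.coeff k * c ^ k := by
    intro r c k
    rw [comp_C_mul_X_coeff]
  have : ∑ k ∈ Finset.range n.succ, (p.comp (C t * X)).coeff k * (q.comp (C s * X)).coeff (n - k) =
      s ^ n * ∑ k ∈ Finset.range (n + 1), p.coeff k * q.coeff (n - k) * z ^ k := by
    rw [Finset.mul_sum]
    refine Finset.sum_congr rfl fun k hk => ?_
    have hkn : k ≤ n := Nat.lt_succ_iff.1 (Finset.mem_range.1 hk)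
    rw [hcc, hcc, hts, div_pow]
    have : s ^ n = s ^ (n - k) * s ^ k := by rw [← pow_add]; congr 1; omega
    rw [this]
    field_simp
  rw [this, hz, mul_zero]

/-- Rising factorial of a complex number. -/
noncomputable def ph (a : ℂ) (k : ℕ) : ℂ := (ascPochhammer ℂ k).eval a

theorem ph_zero (a : ℂ) : ph a 0 = 1 := by simp [ph]

theorem ph_succ (a : ℂ) (k : ℕ) : ph a (k + 1) = ph a k * (a + k) := by
  simp [ph, ascPochhammer_succ_eval]

theorem ph_succ' (a : ℂ) (k : ℕ) : ph a (k + 1) = a * ph (a + 1) k := by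
  simp [ph, ascPochhammer_succ_left, eval_comp]

theorem ph_add (a : ℂ) (j k : ℕ) : ph a (j + k) = ph a j * ph (a + j) k := by
  induction k with
  | zero => simp [ph_zero]
  | succ k ih =>
    rw [← add_assoc, ph_succ, ih, ph_succ]
    push_cast
    ring

theorem ph_ne_zero {a : ℂ} {k : ℕ} (h : ∀ i : ℕ, a + i ≠ 0) : ph a k ≠ 0 := by
  induction k with
  | zero => simp [ph_zero]
  | succ k ih => rw [ph_succ]; exact mul_ne_zero ih (h k)

theorem vandermonde_aux (a b : ℂ) (n : ℕ) :
    ∑ ij ∈ Finset.HasAntidiagonal.antidiagonal n, (n.choose ij.1 : ℂ) * (ph a ij.1 * ph b ij.2) =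
      ph (a + b) n := by
  induction n with
  | zero => simp [ph_zero]
  | succ n ih =>
    rw [Finset.sum_antidiagonal_choose_succ_mul (fun i j => ph a i * ph b j) n, ph_succ, ← ih,
      Finset.sum_mul, ← Finset.sum_add_distrib]
    refine Finset.sum_congr rfl fun ij hij => ?_
    have hs : ij.1 + ij.2 = n := Finset.HasAntidiagonal.mem_antidiagonal.1 hij
    have hc : n.choose ij.2 = n.choose ij.1 := by
      rw [← hs, Nat.choose_symm_add]
    rw [hc, ph_succ, ph_succ, ← hs]
    push_cast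
    ring

theorem vandermonde (a b : ℂ) (n : ℕ) :
    ∑ k ∈ Finset.range (n + 1), (n.choose k : ℂ) * (ph a k * ph b (n - k)) = ph (a + b) n := by
  rw [← vandermonde_aux, Finset.Nat.sum_antidiagonal_eq_sum_range_succ_mk]

/-- `(2w)_{2m} = 4^m (w)_m (w+1/2)_m`. -/
theorem ph_two_mul (w : ℂ) (m : ℕ) :
    ph (2 * w) (2 * m) = 4 ^ m * (ph w m * ph (w + 1 / 2) m) := by
  induction m with
  | zero => simp [ph_zero]
  | succ m ih =>
    rw [show 2 * (m + 1) = 2 * m + 1 + 1 by ring, ph_succ, ph_succ, ih, ph_succ, ph_succ]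
    push_cast
    ring

theorem ph_two_mul_add (w : ℂ) (m e : ℕ) (he : e = 0 ∨ e = 1) :
    ph (2 * w) (2 * m + e) = 2 ^ e * 4 ^ m * (ph w (m + e) * ph (w + 1 / 2) m) := by
  rcases he with rfl | rfl
  · simp [ph_two_mul]
  · rw [ph_succ, ph_two_mul, ph_succ]
    push_cast
    ring

/-- The linear functional sending `X^k` to `(a)_k (b)_{n-k}`. -/
noncomputable def T (n : ℕ) (a b : ℂ) (p : ℂ[X]) : ℂ :=
  ∑ k ∈ Finset.range (n + 1), p.coeff k * (ph a k * ph b (n - k))

theorem T_C_mul (n : ℕ) (a b c : ℂ) (p : ℂ[X]) : T n a b (C c * p) = c * T n a b p := by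
  simp only [T, coeff_C_mul, Finset.mul_sum]
  exact Finset.sum_congr rfl fun k _ => by ring

theorem T_sum {ι : Type*} (n : ℕ) (a b : ℂ) (s : Finset ι) (p : ι → ℂ[X]) :
    T n a b (∑ i ∈ s, p i) = ∑ i ∈ s, T n a b (p i) := by
  simp only [T, finsetSum_coeff, Finset.sum_mul]
  rw [Finset.sum_comm]

theorem T_X_pow (n k : ℕ) (hk : k ≤ n) (a b : ℂ) : T n a b (X ^ k) = ph a k * ph b (n - k) := by
  simp only [T, coeff_X_pow]
  rw [Finset.sum_eq_single k]
  · simp
  · intro j _ hj
    simp [hj]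
  · intro h
    exact absurd (Finset.mem_range.2 (Nat.lt_succ_of_le hk)) h

theorem T_basis (j m : ℕ) (a b : ℂ) :
    T (m + 2 * j) a b (X ^ j * (1 + X) ^ m) = ph a j * ph b j * ph (a + b + 2 * j) m := by
  have h1 : (X ^ j * (1 + X) ^ m : ℂ[X]) =
      ∑ k ∈ Finset.range (m + 1), C ((m.choose k : ℂ)) * X ^ (j + k) := by
    rw [add_comm (1 : ℂ[X]) X, add_pow, Finset.mul_sum]
    refine Finset.sum_congr rfl fun k _ => ?_
    rw [pow_add]
    simp only [one_pow, mul_one, map_natCast]
    ring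
  rw [h1, T_sum]
  have h2 : ∀ k ∈ Finset.range (m + 1), T (m + 2 * j) a b (C ((m.choose k : ℂ)) * X ^ (j + k)) =
      (ph a j * ph b j) * ((m.choose k : ℂ) * (ph (a + j) k * ph (b + j) (m - k))) := by
    intro k hk
    have hk' : k ≤ m := Nat.lt_succ_iff.1 (Finset.mem_range.1 hk)
    rw [T_C_mul, T_X_pow _ _ (by omega), ph_add]
    have : m + 2 * j - (j + k) = j + (m - k) := by omega
    rw [this, ph_add]
    ring
  rw [Finset.sum_congr rfl h2, ← Finset.mul_sum, vandermonde]
  congr 2
  ring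

/-- The determinant bracket at `k = n - k = i + 1`. -/
theorem bracket (z : ℂ) (i : ℕ) :
    ph z (i + 1) * ph z (i + 1) - ph (z + 1) (i + 1) * ph (z - 1) (i + 1) =
      (i + 1) * (ph (z + 1) i * ph z i) := by
  have h1 : ph z (i + 1) = z * ph (z + 1) i := ph_succ' z i
  have h2 : ph z (i + 1) = ph z i * (z + i) := ph_succ z i
  have h3 : ph (z + 1) (i + 1) = ph (z + 1) i * (z + 1 + i) := ph_succ _ i
  have h4 : ph (z - 1) (i + 1) = (z - 1) * ph z i := by
    rw [ph_succ']; congr 2; ring
  calc ph z (i + 1) * ph z (i + 1) - ph (z + 1) (i + 1) * ph (z - 1) (i + 1)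
      = (z * ph (z + 1) i) * (ph z i * (z + i)) -
        (ph (z + 1) i * (z + 1 + i)) * ((z - 1) * ph z i) := by rw [← h1, ← h2, h3, h4]
    _ = _ := by ring

/-- Palindromic polynomials are combinations of `X^j (1+X)^{n-2j}`. -/
theorem palindromic_decomp (n : ℕ) : ∀ p : ℂ[X], p.natDegree ≤ n →
    (∀ k, k ≤ n → p.coeff k = p.coeff (n - k)) →
    ∃ h : ℕ → ℂ, p = ∑ j ∈ Finset.range (n / 2 + 1), C (h j) * (X ^ j * (1 + X) ^ (n - 2 * j)) := by
  induction n using Nat.twoStepInduction with
  | zero =>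
    intro p hp _
    refine ⟨fun _ => p.coeff 0, ?_⟩
    simp
    exact eq_C_of_natDegree_le_zero hp
  | one =>
    intro p hp hs
    refine ⟨fun _ => p.coeff 0, ?_⟩
    have h1 : p.coeff 1 = p.coeff 0 := by simpa using hs 1 le_rfl
    have := eq_X_add_C_of_natDegree_le_one hp
    rw [h1] at this
    simp
    conv_lhs => rw [this]
    ring
  | more n ih _ =>
    intro p hp hs
    set c := p.coeff 0 with hc
    set p₁ : ℂ[X] := p - C c * (1 + X) ^ (n + 2) with hp₁
    have hcoeff : ∀ k, p₁.coeff k = p.coeff k - c * ((n + 2).choose k : ℂ) := by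
      intro k
      rw [hp₁, coeff_sub, coeff_C_mul, coeff_one_add_X_pow]
    have h0 : p₁.coeff 0 = 0 := by rw [hcoeff]; simp [hc]
    have hX : p₁ = X * p₁.divX := by
      conv_lhs => rw [← divX_mul_X_add p₁, h0]
      simp [mul_comm]
    have hsym : ∀ k, k ≤ n → p₁.divX.coeff k = p₁.divX.coeff (n - k) := by
      intro k hk
      rw [coeff_divX, coeff_divX, hcoeff, hcoeff, hs (k + 1) (by omega)]
      have e1 : n + 2 - (k + 1) = n - k + 1 := by omega
      rw [e1]
      have e2 : (n + 2).choose (k + 1) = (n + 2).choose (n - k + 1) := by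
        rw [← Nat.choose_symm (by omega : k + 1 ≤ n + 2)]
        congr 1
      rw [e2]
    have hdeg : p₁.divX.natDegree ≤ n := by
      rw [natDegree_le_iff_coeff_eq_zero]
      intro N hN
      rw [coeff_divX, hcoeff]
      rcases Nat.lt_or_ge (n + 2) (N + 1) with h | h
      · rw [coeff_eq_zero_of_natDegree_lt (by omega), Nat.choose_eq_zero_of_lt (by omega)]
        simp
      · have : N + 1 = n + 2 := by omega
        rw [this, hs (n + 2) le_rfl]
        simp [hc]
    obtain ⟨h, hh⟩ := ih p₁.divX hdeg hsym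
    refine ⟨fun j => Nat.casesOn j c h, ?_⟩
    have e3 : (n + 2) / 2 + 1 = (n / 2 + 1) + 1 := by omega
    rw [e3, Finset.sum_range_succ']
    simp only [pow_zero, one_mul, mul_zero, Nat.sub_zero]
    have e4 : p = p₁ + C c * (1 + X) ^ (n + 2) := by rw [hp₁]; ring
    rw [e4]
    congr 1
    rw [hX, hh, Finset.mul_sum]
    refine Finset.sum_congr rfl fun j hj => ?_
    have e5 : n + 2 - 2 * (j + 1) = n - 2 * j := by omega
    rw [e5, pow_succ]
    ring

/-- The transform `q ↦ ∑ q_i (z)_i (z+i+a)_{N-i}`. -/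
noncomputable def U (N : ℕ) (a : ℂ) (q : ℂ[X]) (z : ℂ) : ℂ :=
  ∑ i ∈ Finset.range (N + 1), q.coeff i * (ph z i * ph (z + i + a) (N - i))

theorem U_add (N : ℕ) (a : ℂ) (p q : ℂ[X]) (z : ℂ) : U N a (p + q) z = U N a p z + U N a q z := by
  simp only [U, coeff_add, add_mul, Finset.sum_add_distrib]

theorem U_C_mul (N : ℕ) (a c : ℂ) (p : ℂ[X]) (z : ℂ) : U N a (C c * p) z = c * U N a p z := by
  simp only [U, coeff_C_mul, Finset.mul_sum]
  exact Finset.sum_congr rfl fun k _ => by ring

theorem U_succ (N : ℕ) (a : ℂ) (q : ℂ[X]) (hq : q.natDegree ≤ N) (z : ℂ) :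
    U (N + 1) a q z = (z + a + N) * U N a q z := by
  rw [U, Finset.sum_range_succ, coeff_eq_zero_of_natDegree_lt (by omega : q.natDegree < N + 1),
    zero_mul, add_zero, U, Finset.mul_sum]
  refine Finset.sum_congr rfl fun i hi => ?_
  have hi' : i ≤ N := Nat.lt_succ_iff.1 (Finset.mem_range.1 hi)
  have e : N + 1 - i = (N - i) + 1 := by omega
  rw [e, ph_succ, Nat.cast_sub hi']
  ring

theorem U_X_mul (N : ℕ) (a : ℂ) (q : ℂ[X]) (z : ℂ) :
    U (N + 1) a (X * q) z = z * U N a q (z + 1) := by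
  rw [U, Finset.sum_range_succ', U, Finset.mul_sum]
  simp only [coeff_X_mul, coeff_X_mul_zero, zero_mul, add_zero]
  refine Finset.sum_congr rfl fun i _ => ?_
  have e : N + 1 - (i + 1) = N - i := by omega
  have e2 : z + ((i + 1 : ℕ) : ℂ) + a = z + 1 + i + a := by push_cast; ring
  rw [e, ph_succ', e2]
  ring

theorem U_X_add_C_mul (N : ℕ) (a c : ℂ) (q : ℂ[X]) (hq : q.natDegree ≤ N) (z : ℂ) :
    U (N + 1) a ((X + C c) * q) z = z * U N a q (z + 1) + c * ((z + a + N) * U N a q z) := by
  rw [add_mul, U_add, U_X_mul, U_C_mul, U_succ N a q hq]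

/-- Sign of a product whose first `i` factors are negative and whose others are positive. -/
theorem sign_prod (x : ℕ → ℝ) (d i : ℕ) (hi : i ≤ d) (hneg : ∀ j, j < i → x j < 0)
    (hpos : ∀ j, i ≤ j → j < d → 0 < x j) : 0 < (-1) ^ i * ∏ j ∈ Finset.range d, x j := by
  have h1 : ∀ i : ℕ, (∀ j, j < i → x j < 0) → 0 < (-1 : ℝ) ^ i * ∏ j ∈ Finset.range i, x j := by
    intro i
    induction i with
    | zero => intro _; simp
    | succ i ih =>
      intro h
      rw [Finset.prod_range_succ, pow_succ]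
      have := ih fun j hj => h j (by omega)
      have h2 := h i (by omega)
      nlinarith
  rw [← Finset.prod_range_mul_prod_Ico x hi, ← mul_assoc]
  refine mul_pos (h1 i hneg) (Finset.prod_pos fun j hj => ?_)
  rw [Finset.mem_Ico] at hj
  exact hpos j hj.1 hj.2

theorem exists_root_between (g : ℝ → ℝ) (hg : Continuous g) {l u : ℝ} (hlu : l < u)
    (h : g l * g u < 0) : ∃ s, l < s ∧ s < u ∧ g s = 0 := by
  rcases mul_neg_iff.1 h with ⟨h1, h2⟩ | ⟨h1, h2⟩
  · have := intermediate_value_Ioo' hlu.le hg.continuousOn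
    obtain ⟨s, hs, hs0⟩ := this ⟨h2, h1⟩
    exact ⟨s, hs.1, hs.2, hs0⟩
  · have := intermediate_value_Ioo hlu.le hg.continuousOn
    obtain ⟨s, hs, hs0⟩ := this ⟨h1, h2⟩
    exact ⟨s, hs.1, hs.2, hs0⟩

/-- Prepending a term to a sequence. -/
def consSeq (x : ℝ) (t : ℕ → ℝ) : ℕ → ℝ
  | 0 => x
  | k + 1 => t k

/-- One step of the recursion: zeros with gaps larger than one are preserved. -/
theorem step (d : ℕ) (a c : ℝ) (ha : 0 < a) (hc : 0 < c) (r : ℕ → ℝ)
    (hr0 : ∀ i, i < d → r i < 0) (hr1 : ∀ i, i < d → -(a + d - 1) < r i)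
    (hr2 : ∀ i j, i < j → j < d → r j < r i - 1) :
    ∃ s : ℕ → ℝ, (∀ i, i < d + 1 → s i < 0) ∧
      (∀ i, i < d + 1 → -(a + ((d + 1 : ℕ) : ℝ) - 1) < s i) ∧
      (∀ i j, i < j → j < d + 1 → s j < s i - 1) ∧
      (X * ∏ j ∈ Finset.range d, (X + 1 - C (r j)) +
        C c * ((X + C (a + d)) * ∏ j ∈ Finset.range d, (X - C (r j))) : ℝ[X]) =
        C (1 + c) * ∏ j ∈ Finset.range (d + 1), (X - C (s j)) := by
  set G : ℝ[X] := X * ∏ j ∈ Finset.range d, (X + 1 - C (r j)) +
        C c * ((X + C (a + d)) * ∏ j ∈ Finset.range d, (X - C (r j))) with hG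
  have hGe : ∀ x : ℝ, G.eval x = x * ∏ j ∈ Finset.range d, (x + 1 - r j) +
      c * ((x + (a + d)) * ∏ j ∈ Finset.range d, (x - r j)) := by
    intro x
    simp [hG, eval_prod]
  -- interval endpoints
  set hi : ℕ → ℝ := fun i => if i = 0 then 0 else r (i - 1) - 1 with hhi
  set lo : ℕ → ℝ := fun i => if i = d then -(a + d) else r i with hlo
  have hda : (0 : ℝ) ≤ d := Nat.cast_nonneg d
  have hlohi : ∀ i, i < d + 1 → lo i < hi i := by
    intro i hi'
    simp only [hlo, hhi]
    by_cases h1 : i = d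
    · by_cases h2 : i = 0
      · rw [if_pos h1, if_pos h2]; linarith
      · rw [if_pos h1, if_neg h2]
        have := hr1 (i - 1) (by omega)
        linarith
    · by_cases h2 : i = 0
      · rw [if_neg h1, if_pos h2]; exact hr0 i (by omega)
      · rw [if_neg h1, if_neg h2]; exact hr2 (i - 1) i (by omega) (by omega)
  have hsignhi : ∀ i, i < d + 1 → 0 < (-1) ^ i * G.eval (hi i) := by
    intro i hi'
    by_cases h2 : i = 0
    · have : hi i = 0 := by simp [hhi, h2]
      rw [this, hGe, h2]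
      have hp : 0 < ∏ j ∈ Finset.range d, (0 - r j) :=
        Finset.prod_pos fun j hj => by
          have := hr0 j (Finset.mem_range.1 hj); linarith
      have : 0 < c * ((0 + (a + d)) * ∏ j ∈ Finset.range d, (0 - r j)) := by positivity
      simpa using this
    · have he : hi i = r (i - 1) - 1 := by simp [hhi, h2]
      rw [he, hGe]
      have hz : ∏ j ∈ Finset.range d, (r (i - 1) - 1 + 1 - r j) = 0 :=
        Finset.prod_eq_zero (Finset.mem_range.2 (by omega : i - 1 < d)) (by ring)
      rw [hz, mul_zero, zero_add]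
      have hs := sign_prod (fun j => r (i - 1) - 1 - r j) d i (by omega)
        (fun j hj => by
          rcases Nat.lt_or_ge j (i - 1) with h | h
          · have := hr2 j (i - 1) h (by omega); linarith
          · have : j = i - 1 := by omega
            rw [this]; linarith)
        (fun j hj hj' => by
          have := hr2 (i - 1) j (by omega) hj'; linarith)
      have h1 := hr1 (i - 1) (by omega)
      have h3 : 0 < r (i - 1) - 1 + (a + d) := by linarith
      calc 0 < (c * (r (i - 1) - 1 + (a + d))) *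
            ((-1) ^ i * ∏ j ∈ Finset.range d, (r (i - 1) - 1 - r j)) :=
            mul_pos (mul_pos hc h3) hs
        _ = _ := by ring
  have hsignlo : ∀ i, i < d + 1 → 0 < -((-1) ^ i * G.eval (lo i)) := by
    intro i hi'
    by_cases h2 : i = d
    · have he : lo i = -(a + d) := by simp [hlo, h2]
      rw [he, hGe]
      have hs := sign_prod (fun j => -(a + d) + 1 - r j) d i (by omega)
        (fun j hj => by
          have := hr1 j (by omega); linarith)
        (fun j hj hj' => by omega)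
      calc 0 < (a + d) * ((-1) ^ i * ∏ j ∈ Finset.range d, (-(a + d) + 1 - r j)) :=
            mul_pos (by linarith) hs
        _ = _ := by ring
    · have he : lo i = r i := by simp [hlo, h2]
      rw [he, hGe]
      have hz : ∏ j ∈ Finset.range d, (r i - r j) = 0 :=
        Finset.prod_eq_zero (Finset.mem_range.2 (by omega : i < d)) (by ring)
      rw [hz, mul_zero, mul_zero, add_zero]
      have hs := sign_prod (fun j => r i + 1 - r j) d i (by omega)
        (fun j hj => by have := hr2 j i hj (by omega); linarith)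
        (fun j hj hj' => by
          rcases Nat.lt_or_ge i j with h | h
          · have := hr2 i j h hj'; linarith
          · have : j = i := by omega
            rw [this]; linarith)
      have h1 := hr0 i (by omega)
      calc 0 < (-(r i)) * ((-1) ^ i * ∏ j ∈ Finset.range d, (r i + 1 - r j)) :=
            mul_pos (by linarith) hs
        _ = _ := by ring
  have hroot : ∀ i, ∃ s, i < d + 1 → lo i < s ∧ s < hi i ∧ G.eval s = 0 := by
    intro i
    by_cases h : i < d + 1
    · have h1 := hsignhi i h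
      have h2 := hsignlo i h
      have h3 : G.eval (lo i) * G.eval (hi i) < 0 := by
        have h4 := mul_pos h1 h2
        have h5 : ((-1 : ℝ) ^ i * G.eval (hi i)) * -((-1) ^ i * G.eval (lo i)) =
            -(((-1 : ℝ) ^ i * (-1) ^ i) * (G.eval (lo i) * G.eval (hi i))) := by ring
        have h6 : ((-1 : ℝ) ^ i * (-1) ^ i) = 1 := by
          rw [← mul_pow]; norm_num
        rw [h5, h6] at h4
        linarith
      obtain ⟨s, hs1, hs2, hs3⟩ := exists_root_between (fun x => G.eval x) G.continuous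
        (hlohi i h) h3
      exact ⟨s, fun _ => ⟨hs1, hs2, hs3⟩⟩
    · exact ⟨0, fun h' => absurd h' h⟩
  choose s hs using hroot
  have hs0 : ∀ i, i < d + 1 → s i < 0 := by
    intro i hi'
    have h1 := (hs i hi').2.1
    simp only [hhi] at h1
    by_cases h2 : i = 0
    · rw [if_pos h2] at h1; exact h1
    · rw [if_neg h2] at h1
      have := hr0 (i - 1) (by omega)
      linarith
  have hsl : ∀ i, i < d + 1 → -(a + ((d + 1 : ℕ) : ℝ) - 1) < s i := by
    intro i hi'
    push_cast
    have h1 := (hs i hi').1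
    simp only [hlo] at h1
    by_cases h2 : i = d
    · rw [if_pos h2] at h1; linarith
    · rw [if_neg h2] at h1
      have := hr1 i (by omega)
      linarith
  have hgap : ∀ i j, i < j → j < d + 1 → s j < s i - 1 := by
    intro i j hij hj
    have h1 := (hs j hj).2.1
    have h2 := (hs i (by omega)).1
    simp only [hhi] at h1
    simp only [hlo] at h2
    rw [if_neg (by omega)] at h1
    rw [if_neg (by omega)] at h2
    rcases Nat.lt_or_ge i (j - 1) with h | h
    · have := hr2 i (j - 1) h (by omega)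
      linarith
    · have : i = j - 1 := by omega
      rw [this] at h2 ⊢
      linarith
  refine ⟨s, hs0, hsl, hgap, ?_⟩
  -- degree considerations
  have hmon : ∀ (m : ℕ) (t : ℕ → ℝ), (∏ j ∈ Finset.range m, (X - C (t j)) : ℝ[X]).Monic :=
    fun m t => monic_prod_of_monic _ _ fun j _ => monic_X_sub_C _
  have hdeg : ∀ (m : ℕ) (t : ℕ → ℝ),
      (∏ j ∈ Finset.range m, (X - C (t j)) : ℝ[X]).natDegree = m := by
    intro m t
    rw [natDegree_prod_of_monic _ _ fun j _ => monic_X_sub_C _]
    simp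
  have hA : (X * ∏ j ∈ Finset.range d, (X + 1 - C (r j)) : ℝ[X]) =
      ∏ j ∈ Finset.range (d + 1), (X - C (consSeq 0 (fun l => r l - 1) j)) := by
    rw [Finset.prod_range_succ']
    simp only [consSeq, map_zero, sub_zero]
    rw [mul_comm]
    congr 1
    refine Finset.prod_congr rfl fun j _ => ?_
    simp only [map_sub, map_one]
    ring
  have hB : ((X + C (a + d)) * ∏ j ∈ Finset.range d, (X - C (r j)) : ℝ[X]) =
      ∏ j ∈ Finset.range (d + 1), (X - C (consSeq (-(a + d)) r j)) := by
    rw [Finset.prod_range_succ']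
    simp only [consSeq, map_neg, sub_neg_eq_add]
    rw [mul_comm]
  have hlt : ∀ t : ℕ → ℝ, ((∏ j ∈ Finset.range (d + 1), (X - C (t j)) : ℝ[X]) -
      ∏ j ∈ Finset.range (d + 1), (X - C (s j))).degree < ((d + 1 : ℕ) : WithBot ℕ) := by
    intro t
    have h1 := degree_sub_lt_left (p := (∏ j ∈ Finset.range (d + 1), (X - C (t j)) : ℝ[X]))
      (q := ∏ j ∈ Finset.range (d + 1), (X - C (s j)))
      (by rw [degree_eq_natDegree (hmon _ _).ne_zero, degree_eq_natDegree (hmon _ _).ne_zero,
            hdeg, hdeg]) (hmon _ _).ne_zero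
      (by rw [(hmon _ _).leadingCoeff, (hmon _ _).leadingCoeff])
    rwa [degree_eq_natDegree (hmon _ _).ne_zero, hdeg] at h1
  set D : ℝ[X] := G - C (1 + c) * ∏ j ∈ Finset.range (d + 1), (X - C (s j)) with hD
  have hDeq : D = ((∏ j ∈ Finset.range (d + 1),
        (X - C (consSeq 0 (fun l => r l - 1) j)) : ℝ[X]) -
        ∏ j ∈ Finset.range (d + 1), (X - C (s j))) +
      C c * ((∏ j ∈ Finset.range (d + 1),
        (X - C (consSeq (-(a + d)) r j)) : ℝ[X]) -
        ∏ j ∈ Finset.range (d + 1), (X - C (s j))) := by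
    rw [hD, hG, hA, hB, map_add, map_one]
    ring
  have hDdeg : D.degree < ((d + 1 : ℕ) : WithBot ℕ) := by
    rw [hDeq]
    refine lt_of_le_of_lt (degree_add_le _ _) (max_lt (hlt _) ?_)
    rw [degree_C_mul hc.ne']
    exact hlt _
  have hDzero : D = 0 := by
    by_contra hne
    have hnd : D.natDegree < d + 1 := by
      rw [degree_eq_natDegree hne] at hDdeg
      exact_mod_cast hDdeg
    have hinj : Set.InjOn s (Finset.range (d + 1) : Set ℕ) := by
      intro i hi' j hj' hij
      rw [Finset.coe_range, Set.mem_Iio] at hi' hj'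
      rcases lt_trichotomy i j with h | h | h
      · have := hgap i j h hj'; linarith
      · exact h
      · have := hgap j i h hi'; linarith
    refine hne (eq_zero_of_natDegree_lt_card_of_eval_eq_zero' D
      ((Finset.range (d + 1)).image s) ?_ ?_)
    · intro x hx
      obtain ⟨i, hi', rfl⟩ := Finset.mem_image.1 hx
      rw [hD, eval_sub, (hs i (Finset.mem_range.1 hi')).2.2, eval_mul, eval_prod,
        Finset.prod_eq_zero hi' (by simp)]
      simp
    · rw [Finset.card_image_of_injOn hinj, Finset.card_range]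
      exact hnd
  exact sub_eq_zero.1 hDzero

theorem natDegree_list (cs : List ℝ) :
    ((cs.map fun c : ℝ => (X + C (c : ℂ) : ℂ[X])).prod).natDegree ≤ cs.length := by
  induction cs with
  | nil => simp
  | cons c cs ih =>
    simp only [List.map_cons, List.prod_cons, List.length_cons]
    refine natDegree_mul_le.trans ?_
    rw [natDegree_X_add_C]
    omega

theorem U_list (a : ℝ) (ha : 0 < a) (cs : List ℝ) (hcs : ∀ c ∈ cs, 0 < c) :
    ∃ κ : ℝ, 0 < κ ∧ ∃ r : ℕ → ℝ, (∀ i, i < cs.length → r i < 0) ∧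
      (∀ i, i < cs.length → -(a + (cs.length : ℝ) - 1) < r i) ∧
      (∀ i j, i < j → j < cs.length → r j < r i - 1) ∧
      ∀ z : ℂ, U cs.length (a : ℂ) ((cs.map fun c : ℝ => (X + C (c : ℂ) : ℂ[X])).prod) z =
        (κ : ℂ) * ∏ i ∈ Finset.range cs.length, (z - (r i : ℂ)) := by
  induction cs with
  | nil =>
    refine ⟨1, one_pos, fun _ => 0, by simp, by simp, by simp, ?_⟩
    intro z
    simp [U, ph_zero]
  | cons c cs ih =>
    obtain ⟨κ, hκ, r, hr0, hr1, hr2, hU⟩ := ih fun x hx => hcs x (List.mem_cons_of_mem _ hx)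
    have hc : 0 < c := hcs c List.mem_cons_self
    obtain ⟨s, hs0, hs1, hs2, hG⟩ := step cs.length a c ha hc r hr0 hr1 hr2
    refine ⟨κ * (1 + c), by positivity, s, ?_, ?_, ?_, ?_⟩
    · simpa using hs0
    · simpa using hs1
    · simpa using hs2
    · intro z
      simp only [List.map_cons, List.prod_cons, List.length_cons]
      rw [U_X_add_C_mul _ _ _ _ (natDegree_list cs), hU, hU]
      have h1 := congrArg (aeval z) hG
      simp only [map_add, map_mul, aeval_X, map_prod, map_sub, aeval_C, map_one,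
        Complex.coe_algebraMap, map_natCast] at h1
      have h2 : z * ((κ : ℂ) * ∏ i ∈ Finset.range cs.length, (z + 1 - (r i : ℂ))) +
          (c : ℂ) * ((z + a + cs.length) * ((κ : ℂ) * ∏ i ∈ Finset.range cs.length, (z - (r i : ℂ)))) =
          (κ : ℂ) * (z * ∏ x ∈ Finset.range cs.length, (z + 1 - (r x : ℂ)) +
            (c : ℂ) * ((z + ((a : ℂ) + (cs.length : ℂ))) *
              ∏ x ∈ Finset.range cs.length, (z - (r x : ℂ)))) := by ring
      rw [h2, h1]
      push_cast
      ring

theorem U_add_deg (a : ℂ) (q : ℂ[X]) (d m : ℕ) (hq : q.natDegree ≤ d) (z : ℂ) :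
    U (d + m) a q z = (∏ j ∈ Finset.range m, (z + a + ((d + j : ℕ) : ℂ))) * U d a q z := by
  induction m with
  | zero => simp
  | succ m ih =>
    rw [← add_assoc, U_succ _ _ _ (by omega), ih, Finset.prod_range_succ]
    ring

theorem U_ne_zero (a : ℝ) (ha : 0 < a) (q : ℂ[X]) (hq0 : q ≠ 0)
    (hq : ∀ z, q.eval z = 0 → z.im = 0 ∧ z.re < 0) (N : ℕ) (hN : q.natDegree ≤ N) (z : ℂ)
    (hz : ¬ (z.im = 0 ∧ z.re < 0)) : U N (a : ℂ) q z ≠ 0 := by
  set cs : List ℝ := q.roots.toList.map fun ρ => -ρ.re with hcs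
  have hlen : cs.length = q.natDegree := by
    rw [hcs, List.length_map, Multiset.length_toList]
    exact (IsAlgClosed.splits q).natDegree_eq_card_roots.symm
  have hpos : ∀ c ∈ cs, 0 < c := by
    intro c hc
    rw [hcs, List.mem_map] at hc
    obtain ⟨ρ, hρ, rfl⟩ := hc
    rw [Multiset.mem_toList, mem_roots hq0] at hρ
    have := (hq ρ hρ).2
    linarith
  have hprod : q = C q.leadingCoeff * (cs.map fun c : ℝ => (X + C (c : ℂ) : ℂ[X])).prod := by
    conv_lhs => rw [(IsAlgClosed.splits q).eq_prod_roots]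
    congr 1
    rw [hcs, List.map_map]
    conv_lhs => rw [← Multiset.coe_toList q.roots, Multiset.map_coe, Multiset.prod_coe]
    congr 1
    refine List.map_congr_left fun ρ hρ => ?_
    rw [Multiset.mem_toList, mem_roots hq0] at hρ
    have h1 := (hq ρ hρ).1
    have h2 : ((-ρ.re : ℝ) : ℂ) = -ρ := by
      apply Complex.ext
      · simp
      · simp [h1]
    simp only [Function.comp]
    rw [h2, map_neg, sub_eq_add_neg]
  obtain ⟨κ, hκ, r, hr0, -, -, hU⟩ := U_list a ha cs hpos
  obtain ⟨m, hm⟩ := Nat.exists_eq_add_of_le hN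
  have hlead : q.leadingCoeff ≠ 0 := leadingCoeff_ne_zero.2 hq0
  rw [hm, U_add_deg _ _ _ _ le_rfl]
  refine mul_ne_zero ?_ ?_
  · rw [Finset.prod_ne_zero_iff]
    intro j _ h
    apply hz
    have : z = ((-(a + ((q.natDegree + j : ℕ) : ℝ)) : ℝ) : ℂ) := by
      push_cast at h ⊢
      linear_combination h
    rw [this]
    refine ⟨Complex.ofReal_im _, ?_⟩
    rw [Complex.ofReal_re]
    have : (0 : ℝ) ≤ ((q.natDegree + j : ℕ) : ℝ) := Nat.cast_nonneg _
    linarith
  · rw [← hlen]
    rw [hprod, U_C_mul, hU]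
    refine mul_ne_zero hlead (mul_ne_zero (by exact_mod_cast hκ.ne') ?_)
    rw [Finset.prod_ne_zero_iff]
    intro i hi h
    apply hz
    have : z = (r i : ℂ) := sub_eq_zero.1 h
    rw [this]
    exact ⟨Complex.ofReal_im _, by rw [Complex.ofReal_re]; exact hr0 i (Finset.mem_range.1 hi)⟩

/-- Zeros of the derivative stay on the negative half-line. -/
theorem derivative_real_neg {A : ℂ[X]} (hA : ∀ z, A.eval z = 0 → z.im = 0 ∧ z.re < 0)
    (hdeg : 0 < A.natDegree) : ∀ z, A.derivative.eval z = 0 → z.im = 0 ∧ z.re < 0 := by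
  intro z hz
  have hd : 0 < A.degree := natDegree_pos_iff_degree_pos.1 hdeg
  have hd0 : A.derivative ≠ 0 := by
    intro h
    have := derivative_eq_zero.1 h
    omega
  have hmem : z ∈ A.derivative.rootSet ℂ := by
    rw [mem_rootSet]
    exact ⟨hd0, by simpa using hz⟩
  have h1 := rootSet_derivative_subset_convexHull_rootSet hd hmem
  have hconv : Convex ℝ {z : ℂ | z.im = 0 ∧ z.re < 0} := by
    intro x hx y hy s t hs ht hst
    simp only [Set.mem_ofPred_eq] at hx hy ⊢
    simp only [Complex.add_im, Complex.add_re, Complex.real_smul, Complex.mul_im, Complex.mul_re,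
      Complex.ofReal_re, Complex.ofReal_im, hx.1, hy.1]
    refine ⟨by ring, ?_⟩
    have hx2 := hx.2
    have hy2 := hy.2
    rcases eq_or_lt_of_le hs with h | h
    · have : t = 1 := by linarith
      rw [← h, this]; linarith
    · have h3 : s * x.re < 0 := mul_neg_of_pos_of_neg h hx2
      have h4 : t * y.re ≤ 0 := mul_nonpos_of_nonneg_of_nonpos ht hy2.le
      linarith
  have hsub : A.rootSet ℂ ⊆ {z : ℂ | z.im = 0 ∧ z.re < 0} := by
    intro w hw
    rw [mem_rootSet] at hw
    exact hA w (by simpa using hw.2)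
  exact convexHull_min hsub hconv h1

/-- The polynomial with prescribed coefficients. -/
noncomputable def poly (n : ℕ) (c : ℕ → ℂ) : ℂ[X] := ∑ k ∈ Finset.range (n + 1), C (c k) * X ^ k

theorem poly_coeff (n : ℕ) (c : ℕ → ℂ) (k : ℕ) :
    (poly n c).coeff k = if k ≤ n then c k else 0 := by
  simp only [poly, finsetSum_coeff, coeff_C_mul_X_pow]
  split_ifs with h
  · rw [Finset.sum_eq_single k]
    · simp
    · intro j _ hj; simp [hj.symm]
    · intro h'; exact absurd (Finset.mem_range.2 (by omega)) h'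
  · apply Finset.sum_eq_zero
    intro j hj
    rw [if_neg]
    rintro rfl
    exact h (Nat.lt_succ_iff.1 (Finset.mem_range.1 hj))

theorem poly_eval (n : ℕ) (c : ℕ → ℂ) (z : ℂ) :
    (poly n c).eval z = ∑ k ∈ Finset.range (n + 1), c k * z ^ k := by
  simp [poly, eval_finsetSum]

theorem poly_natDegree_le (n : ℕ) (c : ℕ → ℂ) : (poly n c).natDegree ≤ n := by
  rw [natDegree_le_iff_coeff_eq_zero]
  intro N hN
  rw [poly_coeff, if_neg (by omega)]

theorem poly_natDegree (n : ℕ) (c : ℕ → ℂ) (h : c n ≠ 0) : (poly n c).natDegree = n :=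
  natDegree_eq_of_le_of_coeff_ne_zero (poly_natDegree_le n c) (by rw [poly_coeff]; simpa using h)

theorem poly_ne_zero (n : ℕ) (c : ℕ → ℂ) (h : c n ≠ 0) : poly n c ≠ 0 := by
  intro h0
  have := congrArg (fun p => p.coeff n) h0
  simp only [poly_coeff, le_refl, if_true, coeff_zero] at this
  exact h this

/-- The polynomial `∑ binom(n,k) f_k f_{n-k} X^k` has only real negative zeros. -/
theorem G_real_neg (n : ℕ) (f : ℕ → ℝ) (hfn : f n ≠ 0)
    (hF : ∀ z : ℂ, (∑ k ∈ Finset.range (n + 1), (f k : ℂ) * z ^ k) = 0 → z.im = 0 ∧ z.re < 0) :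
    ∀ z : ℂ, (poly n (fun k => ((f k * f (n - k) * (n.choose k : ℝ) : ℝ) : ℂ))).eval z = 0 →
      z.im = 0 ∧ z.re < 0 := by
  have hf0 : f 0 ≠ 0 := by
    intro h
    have := hF 0 (by
      rw [Finset.sum_range_succ']
      simp [h])
    simp at this
  set F : ℂ[X] := poly n (fun k => (f k : ℂ)) with hFdef
  have hFe : ∀ z, F.eval z = 0 → z.im = 0 ∧ z.re < 0 := by
    intro z hz
    rw [hFdef, poly_eval] at hz
    exact hF z hz
  have hFd : F.natDegree = n := poly_natDegree n _ (by simpa using hfn)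
  have hF0 : F ≠ 0 := poly_ne_zero n _ (by simpa using hfn)
  set G₀ : ℂ[X] := poly n (fun k => (f k : ℂ) * (f (n - k) : ℂ)) with hG₀
  have hG₀e : ∀ z, G₀.eval z = 0 → z.im = 0 ∧ z.re < 0 := by
    intro z hz
    refine hadamard_real_neg hFd hFd hF0 hF0 hFe hFe z ?_
    rw [hG₀, poly_eval] at hz
    rw [← hz]
    refine Finset.sum_congr rfl fun k hk => ?_
    have hk' : k ≤ n := Nat.lt_succ_iff.1 (Finset.mem_range.1 hk)
    rw [hFdef, poly_coeff, poly_coeff, if_pos hk', if_pos (Nat.sub_le _ _)]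
  have hlast : (f n : ℂ) * (f (n - n) : ℂ) ≠ 0 := by
    rw [Nat.sub_self]
    exact mul_ne_zero (by exact_mod_cast hfn) (by exact_mod_cast hf0)
  have hG₀d : G₀.natDegree = n := poly_natDegree n _ hlast
  have hG₀0 : G₀ ≠ 0 := poly_ne_zero n _ hlast
  have hq0 : ((1 : ℂ[X]) + X) ≠ 0 := by
    intro h
    have := congrArg (fun p : ℂ[X] => p.coeff 1) h
    simp [coeff_one] at this
  have hqd : ((1 : ℂ[X]) + X).natDegree = 1 := by
    have : ((1 : ℂ[X]) + X) = X + C 1 := by rw [map_one]; ring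
    rw [this, natDegree_X_add_C]
  intro z hz
  refine hadamard_real_neg (p := G₀) (q := (1 + X) ^ n) hG₀d
    (by rw [natDegree_pow, hqd, mul_one]) hG₀0 (pow_ne_zero _ hq0) hG₀e ?_ z ?_
  · intro w hw
    rw [eval_pow] at hw
    have hw' := eq_zero_of_pow_eq_zero hw
    simp only [eval_add, eval_one, eval_X] at hw'
    have : w = -1 := by linear_combination hw'
    rw [this]; simp
  · rw [poly_eval] at hz
    rw [← hz]
    refine Finset.sum_congr rfl fun k hk => ?_
    have hk' : k ≤ n := Nat.lt_succ_iff.1 (Finset.mem_range.1 hk)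
    rw [hG₀, poly_coeff, if_pos hk', coeff_one_add_X_pow, Nat.choose_symm hk']
    push_cast
    ring

theorem main (n : ℕ) (f : ℕ → ℝ) (hfn : f n ≠ 0)
    (hF : ∀ z : ℂ, (∑ k ∈ Finset.range (n + 1), (f k : ℂ) * z ^ k) = 0 → z.im = 0 ∧ z.re < 0)
    (z : ℂ)
    (hz : z ∈ (∑ k ∈ Finset.range (n + 1),
          Polynomial.C (((f k * f (n - k) * (n.choose k : ℝ)) : ℝ) : ℂ) *
            (ascPochhammer ℂ k * ascPochhammer ℂ (n - k) -
              (ascPochhammer ℂ k).comp (Polynomial.X + 1) *
                (ascPochhammer ℂ (n - k)).comp (Polynomial.X - 1))).roots) :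
    z.im = 0 ∧ z.re < 0 := by
  have hf0 : f 0 ≠ 0 := by
    intro h
    have := hF 0 (by
      rw [Finset.sum_range_succ']
      simp [h])
    simp at this
  set P : ℂ[X] := ∑ k ∈ Finset.range (n + 1),
          Polynomial.C (((f k * f (n - k) * (n.choose k : ℝ)) : ℝ) : ℂ) *
            (ascPochhammer ℂ k * ascPochhammer ℂ (n - k) -
              (ascPochhammer ℂ k).comp (Polynomial.X + 1) *
                (ascPochhammer ℂ (n - k)).comp (Polynomial.X - 1)) with hP
  have hP0 : P ≠ 0 := by rintro h; rw [h] at hz; simp at hz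
  have hPz : P.eval z = 0 := (mem_roots hP0).1 hz
  set G : ℂ[X] := poly n (fun k => ((f k * f (n - k) * (n.choose k : ℝ) : ℝ) : ℂ)) with hG
  have hGe := G_real_neg n f hfn hF
  rw [← hG] at hGe
  have hsym : ∀ k, k ≤ n → G.coeff k = G.coeff (n - k) := by
    intro k hk
    rw [hG, poly_coeff, poly_coeff, if_pos hk, if_pos (Nat.sub_le _ _), Nat.sub_sub_self hk,
      Nat.choose_symm hk]
    push_cast
    ring
  obtain ⟨h, hh⟩ := palindromic_decomp n G (poly_natDegree_le n _) hsym
  -- value of `P`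
  have hPT : ∀ w : ℂ, P.eval w = T n w w G - T n (w + 1) (w - 1) G := by
    intro w
    rw [hP, eval_finsetSum, T, T, ← Finset.sum_sub_distrib]
    refine Finset.sum_congr rfl fun k hk => ?_
    have hk' : k ≤ n := Nat.lt_succ_iff.1 (Finset.mem_range.1 hk)
    rw [hG, poly_coeff, if_pos hk']
    simp only [eval_mul, eval_C, eval_sub, eval_comp, eval_add, eval_X, eval_one, ph]
    ring
  have hTG : ∀ a b : ℂ, T n a b G = ∑ j ∈ Finset.range (n / 2 + 1),
      h j * (ph a j * ph b j * ph (a + b + 2 * j) (n - 2 * j)) := by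
    intro a b
    rw [hh, T_sum]
    refine Finset.sum_congr rfl fun j hj => ?_
    have hj' : j ≤ n / 2 := Nat.lt_succ_iff.1 (Finset.mem_range.1 hj)
    rw [T_C_mul]
    congr 1
    have := T_basis j (n - 2 * j) a b
    rwa [Nat.sub_add_cancel (by omega)] at this
  have hPs : ∀ w : ℂ, P.eval w = ∑ i ∈ Finset.range (n / 2),
      h (i + 1) * (((i : ℂ) + 1) * (ph (w + 1) i * ph w i) *
        ph (2 * (w + i + 1)) (n - 2 * (i + 1))) := by
    intro w
    rw [hPT, hTG, hTG, ← Finset.sum_sub_distrib, Finset.sum_range_succ']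
    have h0 : h 0 * (ph w 0 * ph w 0 * ph (w + w + 2 * ((0 : ℕ) : ℂ)) (n - 2 * 0)) -
        h 0 * (ph (w + 1) 0 * ph (w - 1) 0 *
          ph (w + 1 + (w - 1) + 2 * ((0 : ℕ) : ℂ)) (n - 2 * 0)) = 0 := by
      simp only [ph_zero]
      have : w + 1 + (w - 1) = w + w := by ring
      rw [this]; ring
    rw [h0, add_zero]
    refine Finset.sum_congr rfl fun i _ => ?_
    have e1 : w + w + 2 * ((i + 1 : ℕ) : ℂ) = 2 * (w + i + 1) := by push_cast; ring
    have e2 : w + 1 + (w - 1) + 2 * ((i + 1 : ℕ) : ℂ) = 2 * (w + i + 1) := by push_cast; ring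
    rw [e1, e2, ← bracket]
    ring
  rcases Nat.eq_zero_or_pos (n / 2) with hM | hM
  · exfalso
    apply hP0
    apply Polynomial.funext
    intro w
    rw [hPs, hM]
    simp
  obtain ⟨N, hN⟩ : ∃ N, n / 2 = N + 1 := ⟨n / 2 - 1, by omega⟩
  obtain ⟨e, he, hne⟩ : ∃ e, (e = 0 ∨ e = 1) ∧ n = 2 * (N + 1) + e := ⟨n % 2, by omega, by omega⟩
  set q : ℂ[X] := poly N (fun i => ((i : ℂ) + 1) * h (i + 1) * 4 ^ (N - i)) with hq
  have hPU : ∀ w : ℂ, P.eval w = 2 ^ e * ph (w + 1) (N + e) * U N ((3 / 2 : ℝ) : ℂ) q w := by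
    intro w
    rw [hPs, hN, U, Finset.mul_sum]
    refine Finset.sum_congr rfl fun i hi => ?_
    have hi' : i ≤ N := Nat.lt_succ_iff.1 (Finset.mem_range.1 hi)
    rw [hq, poly_coeff, if_pos hi']
    have e1 : n - 2 * (i + 1) = 2 * (N - i) + e := by omega
    rw [e1, ph_two_mul_add _ _ _ he]
    have e2 : N + e = i + (N - i + e) := by omega
    rw [e2, ph_add (w + 1) i (N - i + e)]
    have e3 : w + 1 + i = w + i + 1 := by ring
    have e4 : w + i + 1 + 1 / 2 = w + i + ((3 / 2 : ℝ) : ℂ) := by push_cast; ring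
    rw [e3, e4]
    ring
  have hq0 : q ≠ 0 := by
    intro h0
    apply hP0
    apply Polynomial.funext
    intro w
    rw [hPU, h0]
    simp [U]
  -- the polynomial `H`
  set H : ℂ[X] := poly (n / 2) h with hH
  have hh0 : h 0 ≠ 0 := by
    have h1 := congrArg (eval 0) hh
    rw [hG, poly_eval, eval_finsetSum, Finset.sum_range_succ', Finset.sum_range_succ'] at h1
    simp only [eval_mul, eval_C, eval_pow, eval_X, eval_add, eval_one, pow_succ, mul_zero, zero_mul,
      Finset.sum_const_zero, zero_add, pow_zero, mul_one, one_mul, Nat.sub_zero, add_zero,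
      one_pow, Nat.choose_zero_right, Nat.cast_one] at h1
    rw [← h1]
    exact_mod_cast mul_ne_zero hf0 hfn
  have hHe : ∀ y, H.eval y = 0 → y.im = 0 ∧ y.re < 0 := by
    intro y hy
    have hy0 : y ≠ 0 := by
      rintro rfl
      rw [hH, poly_eval, Finset.sum_range_succ'] at hy
      simp at hy
      exact hh0 hy
    obtain ⟨δ, hδ⟩ : ∃ δ : ℂ, δ ^ 2 = 1 - 4 * y := IsAlgClosed.exists_pow_nat_eq _ (by norm_num)
    obtain ⟨x, hx⟩ : ∃ x : ℂ, y * (1 + x) ^ 2 = x := by
      refine ⟨((1 - 2 * y) + δ) / (2 * y), ?_⟩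
      field_simp
      linear_combination hδ
    have hx1 : 1 + x ≠ 0 := by
      intro h1
      rw [h1] at hx
      have : x = 0 := by rw [← hx]; ring
      rw [this] at h1
      norm_num at h1
    have hGx : G.eval x = (1 + x) ^ n * H.eval y := by
      rw [hh, eval_finsetSum, hH, poly_eval, Finset.mul_sum]
      refine Finset.sum_congr rfl fun j hj => ?_
      have hj' : j ≤ n / 2 := Nat.lt_succ_iff.1 (Finset.mem_range.1 hj)
      simp only [eval_mul, eval_C, eval_pow, eval_X, eval_add, eval_one]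
      have e1 : (1 + x) ^ n = (1 + x) ^ (2 * j) * (1 + x) ^ (n - 2 * j) := by
        rw [← pow_add]; congr 1; omega
      have e2 : x ^ j = y ^ j * (1 + x) ^ (2 * j) := by
        rw [pow_mul, ← mul_pow, hx]
      rw [e1, e2]
      ring
    obtain ⟨hx2, hx3⟩ := hGe x (by rw [hGx, hy, mul_zero])
    have hxr : x = (x.re : ℂ) := Complex.ext rfl (by simpa using hx2)
    have hx1' : 1 + x.re ≠ 0 := by
      intro h1
      apply hx1
      rw [hxr]
      exact_mod_cast h1
    have hyr : y = ((x.re / (1 + x.re) ^ 2 : ℝ) : ℂ) := by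
      have : y = x / (1 + x) ^ 2 := by
        field_simp
        exact hx
      rw [this]
      push_cast
      rw [← hxr]
    rw [hyr]
    refine ⟨Complex.ofReal_im _, ?_⟩
    rw [Complex.ofReal_re]
    exact div_neg_of_neg_of_pos hx3 (by positivity)
  have hqH : ∀ y, q.eval y = 4 ^ N * H.derivative.eval (y / 4) := by
    intro y
    rw [hq, poly_eval, hH, poly, derivative_sum, eval_finsetSum, Finset.mul_sum, hN]
    rw [Finset.sum_range_succ' _ (N + 1)]
    simp only [derivative_C_mul_X_pow, eval_mul, eval_C, eval_pow, eval_X, Nat.add_sub_cancel]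
    simp only [Nat.cast_zero, mul_zero, zero_mul, add_zero]
    refine Finset.sum_congr rfl fun i hi => ?_
    have hi' : i ≤ N := Nat.lt_succ_iff.1 (Finset.mem_range.1 hi)
    have e1 : (4 : ℂ) ^ N = 4 ^ (N - i) * 4 ^ i := by rw [← pow_add]; congr 1; omega
    rw [e1, div_pow]
    push_cast
    field_simp
  have hHdeg : 0 < H.natDegree := by
    rw [Nat.pos_iff_ne_zero]
    intro h0
    apply hq0
    apply Polynomial.funext
    intro y
    rw [hqH, derivative_eq_zero.2 h0]
    simp
  have hqe : ∀ y, q.eval y = 0 → y.im = 0 ∧ y.re < 0 := by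
    intro y hy
    rw [hqH] at hy
    have h1 : H.derivative.eval (y / 4) = 0 := by
      rcases mul_eq_zero.1 hy with h2 | h2
      · exact absurd h2 (pow_ne_zero _ (by norm_num))
      · exact h2
    obtain ⟨h2, h3⟩ := derivative_real_neg hHe hHdeg _ h1
    have e1 : y / 4 = y / ((4 : ℝ) : ℂ) := by norm_num
    rw [e1, Complex.div_ofReal_im] at h2
    rw [e1, Complex.div_ofReal_re] at h3
    constructor <;> linarith
  by_contra hcon
  have h1 := U_ne_zero (3 / 2) (by norm_num) q hq0 hqe N (poly_natDegree_le N _) z hcon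
  rw [hPU] at hPz
  have h2 : ph (z + 1) (N + e) ≠ 0 := by
    apply ph_ne_zero
    intro i hi
    apply hcon
    have : z = ((-(1 + (i : ℝ)) : ℝ) : ℂ) := by push_cast; linear_combination hi
    rw [this]
    refine ⟨Complex.ofReal_im _, ?_⟩
    rw [Complex.ofReal_re]
    have : (0 : ℝ) ≤ (i : ℝ) := Nat.cast_nonneg _
    linarith
  rcases mul_eq_zero.1 hPz with h3 | h3
  · rcases mul_eq_zero.1 h3 with h4 | h4
    · exact absurd h4 (pow_ne_zero _ (by norm_num))
    · exact h2 h4
  · exact h1 h3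

end Helpers

/-- For real f_0..f_n with f_n nonzero, if all complex zeros of sum f_k z^k are real and negative, then every root of P_n(z) = sum f_k f_{n-k} C(n,k)[(z)_k(z)_{n-k} - (z+1)_k(z-1)_{n-k}] is real and negative; the zero polynomial has no roots. -/
theorem result :
    ∀ (n : ℕ) (f : ℕ → ℝ), f n ≠ 0 →
      (∀ z : ℂ, (∑ k ∈ Finset.range (n + 1), (f k : ℂ) * z ^ k) = 0 →
          z.im = 0 ∧ z.re < 0) →
      ∀ z ∈ (∑ k ∈ Finset.range (n + 1),
          Polynomial.C (((f k * f (n - k) * (n.choose k : ℝ)) : ℝ) : ℂ) *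
            (ascPochhammer ℂ k * ascPochhammer ℂ (n - k) -
              (ascPochhammer ℂ k).comp (Polynomial.X + 1) *
                (ascPochhammer ℂ (n - k)).comp (Polynomial.X - 1))).roots,
        z.im = 0 ∧ z.re < 0 := by
  intro n f hfn hF z hz
  exact main n f hfn hF z hz

end Pool.Agent.S03093
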