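import Pool.Statements.S03096
import Pool.Agent.Helper459.WormC
import Pool.Agent.Helper459.WormD
import Pool.Agent.Helper459.WormE
import Pool.Agent.Helper459.WormF

set_option autoImplicit false
open Pool Pool.MP_4c8440_an

/-!
The counterexample: with `t = log |w|²`, the domain is
`Ω = {(z, w) : λ(|z|²) + η(t) < Re (z exp (-i t))}`, where `λ` vanishes on `[0, 1]` and `η` vanishes
on `[-2, 2]`. It is smoothly bounded, Levi pseudoconvex, and its boundary is Levi flat where
`|z| < 1`, `|t| < 2`; that part of the boundary contains the annulus `z = 0`, `|t| < 2`, and does not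
meet the Shilov boundary. The divisor `V = {(z, w) ∈ Ω : z = 1/(j+2) for some j}` consists of
annuli `|t| < π/2` which accumulate only at the Levi flat part. In each slice `w = const` its
points violate the Blaschke condition, so no bounded holomorphic function other than zero
vanishes on `V`.
-/

namespace Pool.Agent.S03096

/-- The negation of the preceding statement: For every smoothly bounded Levi-pseudoconvex domain in C^n and every local holomorphic hypersurface V in it whose closure misses the Shilov boundary, there is a bounded holomorphic function on the domain, not identically zero, vanishing on V. -/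
theorem result :
    ¬ (∀ (n : ℕ) (Ω V : Set (Fin n → ℂ)) (ρ : (Fin n → ℂ) → ℝ),
    IsOpen Ω → IsConnected Ω → Bornology.IsBounded Ω →
    ContDiff ℝ ((⊤ : ℕ∞) : WithTop ℕ∞) ρ →
    Ω = {z | ρ z < 0} →
    (∀ z ∈ frontier Ω, fderiv ℝ ρ z ≠ 0) →
    (∀ z ∈ frontier Ω, ∀ w : Fin n → ℂ, fderiv ℝ ρ z w = 0 →
        fderiv ℝ ρ z (Complex.I • w) = 0 →
        0 ≤ iteratedFDeriv ℝ 2 ρ z ![w, w]
          + iteratedFDeriv ℝ 2 ρ z ![Complex.I • w, Complex.I • w]) →
    V ⊆ Ω →
    (∀ p ∈ Ω, ∃ r > 0, Metric.ball p r ⊆ Ω ∧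
        ∃ g : (Fin n → ℂ) → ℂ, DifferentiableOn ℂ g (Metric.ball p r) ∧
          (∃ z ∈ Metric.ball p r, g z ≠ 0) ∧
          ∀ z ∈ Metric.ball p r, (z ∈ V ↔ g z = 0)) →
    Disjoint (closure V)
      (⋂₀ {K : Set (Fin n → ℂ) | IsClosed K ∧ K ⊆ closure Ω ∧
          ∀ f : (Fin n → ℂ) → ℂ, ContinuousOn f (closure Ω) → DifferentiableOn ℂ f Ω →
            ∃ k ∈ K, ∀ z ∈ closure Ω, ‖f z‖ ≤ ‖f k‖}) →
    ∃ f : (Fin n → ℂ) → ℂ, DifferentiableOn ℂ f Ω ∧
      (∃ M : ℝ, ∀ z ∈ Ω, ‖f z‖ ≤ M) ∧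
      (∃ z ∈ Ω, f z ≠ 0) ∧
      ∀ v ∈ V, f v = 0) := by
  intro h
  obtain ⟨f, hf, ⟨M, hM⟩, ⟨z, hz, hfz⟩, hV⟩ := h 2 Helper459.Worm.Om Helper459.Worm.VV
    Helper459.Worm.rho Helper459.Worm.Om_isOpen Helper459.Worm.Om_isConnected
    Helper459.Worm.Om_isBounded (Helper459.Worm.contDiff_rho le_rfl) rfl
    (fun z hz => Helper459.Worm.grad (Helper459.Worm.frontier_rho hz))
    (fun z hz w h1 h2 => Helper459.Worm.levi (Helper459.Worm.frontier_rho hz) w h1 h2)
    (fun x hx => hx.1) Helper459.Worm.VV_local Helper459.Worm.shilov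
  exact hfz (Helper459.Worm.no_bounded hf hM hV z hz)

end Pool.Agent.S03096
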