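import Pool.Statements.S03102

set_option autoImplicit false
open Pool Pool.MP_4e33a2_an

namespace Pool.Agent.S03102

namespace PC


/-- interface of an atomic Banach lattice with atoms indexed by `V` -/
structure Atomic (E : Type) [NormedAddCommGroup E] [Lattice E] [NormedSpace ℝ E] (V : Type) where
  e : V → E
  π : V → (E →L[ℝ] ℝ)
  P : Set V → (E →L[ℝ] E)
  le_iff : ∀ f g : E, f ≤ g ↔ ∀ x, π x f ≤ π x g
  e_self : ∀ x, π x (e x) = 1
  e_ne : ∀ x y, x ≠ y → π y (e x) = 0
  dense : ∀ f : E, f ∈ closure (Submodule.span ℝ (Set.range e) : Set E)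
  P_mem : ∀ X f x, x ∈ X → π x (P X f) = π x f
  P_not_mem : ∀ X f x, x ∉ X → π x (P X f) = 0

section
open Filter Topology

set_option linter.unusedSectionVars false

variable {E : Type} [NormedAddCommGroup E] [Lattice E] [HasSolidNorm E] [IsOrderedAddMonoid E]
  [NormedSpace ℝ E] [PosSMulMono ℝ E] [CompleteSpace E] {V : Type}

/-- positive operator -/
def Pos (T : E →L[ℝ] E) : Prop := ∀ x : E, 0 ≤ x → 0 ≤ T x

theorem Pos.mono {T : E →L[ℝ] E} (hT : Pos T) {f g : E} (h : f ≤ g) : T f ≤ T g := by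
  have := hT (g - f) (sub_nonneg.2 h)
  rw [map_sub] at this
  exact sub_nonneg.1 this

theorem Pos.mul {T S : E →L[ℝ] E} (hT : Pos T) (hS : Pos S) : Pos (T * S) :=
  fun _ hx => hT _ (hS _ hx)

theorem Pos.add {T S : E →L[ℝ] E} (hT : Pos T) (hS : Pos S) : Pos (T + S) :=
  fun x hx => add_nonneg (hT _ hx) (hS x hx)

theorem Pos.smul {T : E →L[ℝ] E} (hT : Pos T) {c : ℝ} (hc : 0 ≤ c) : Pos (c • T) :=
  fun _ hx => smul_nonneg hc (hT _ hx)

theorem Pos.one : Pos (1 : E →L[ℝ] E) := fun _ hx => hx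

theorem Pos.pow {T : E →L[ℝ] E} (hT : Pos T) (n : ℕ) : Pos (T ^ n) := by
  induction n with
  | zero => simpa using Pos.one
  | succ n ih => rw [pow_succ]; exact ih.mul hT

theorem Pos.tsum {ι : Type} {F : ι → (E →L[ℝ] E)} (hF : ∀ i, Pos (F i)) (hs : Summable F) :
    Pos (∑' i, F i) := by
  intro x hx
  have h1 : HasSum (fun i => F i x) ((∑' i, F i) x) :=
    hs.hasSum.mapL (ContinuousLinearMap.apply ℝ E x)
  exact h1.nonneg fun i => hF i x hx

/-- Neumann series with positivity -/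
theorem neumann {a : E →L[ℝ] E} (ha : Pos a) (hn : ‖a‖ < 1) :
    ∃ T : E →L[ℝ] E, Pos T ∧ T * (1 - a) = 1 ∧ (1 - a) * T = 1 := by
  refine ⟨∑' i : ℕ, a ^ i, Pos.tsum (fun i => ha.pow i) ?_, ?_, ?_⟩
  · exact summable_geometric_of_norm_lt_one hn
  · exact geom_series_mul_neg a hn
  · exact mul_neg_geom_series a hn

namespace Atomic
variable (At : Atomic E V)

theorem nonneg_iff (f : E) : 0 ≤ f ↔ ∀ x, 0 ≤ At.π x f := by
  rw [At.le_iff]; simp

theorem ext' {f g : E} (h : ∀ x, At.π x f = At.π x g) : f = g :=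
  le_antisymm ((At.le_iff f g).2 fun x => (h x).le) ((At.le_iff g f).2 fun x => (h x).ge)

theorem e_nonneg (x : V) : 0 ≤ At.e x := by
  rw [At.nonneg_iff]
  intro y
  by_cases h : x = y
  · subst h; rw [At.e_self]; norm_num
  · rw [At.e_ne x y h]

theorem coord_le (f : E) (hf : 0 ≤ f) (x : V) : At.π x f • At.e x ≤ f := by
  rw [At.le_iff]
  intro y
  by_cases h : x = y
  · subst h; simp [At.e_self]
  · rw [map_smul, At.e_ne x y h]; simpa using (At.nonneg_iff f).1 hf y

theorem P_pos (X : Set V) : Pos (At.P X) := by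
  intro f hf
  rw [At.nonneg_iff]
  intro y
  by_cases h : y ∈ X
  · rw [At.P_mem X f y h]; exact (At.nonneg_iff f).1 hf y
  · rw [At.P_not_mem X f y h]

theorem P_e_mem (X : Set V) (x : V) (hx : x ∈ X) : At.P X (At.e x) = At.e x := by
  apply At.ext'
  intro y
  by_cases h : y ∈ X
  · rw [At.P_mem X _ y h]
  · rw [At.P_not_mem X _ y h, At.e_ne x y (fun h' => h (h' ▸ hx))]

theorem P_e_not_mem (X : Set V) (x : V) (hx : x ∉ X) : At.P X (At.e x) = 0 := by
  apply At.ext'
  intro y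
  rw [map_zero]
  by_cases h : y ∈ X
  · rw [At.P_mem X _ y h, At.e_ne x y (fun h' => hx (h' ▸ h))]
  · rw [At.P_not_mem X _ y h]

theorem dense' : Dense (Submodule.span ℝ (Set.range At.e) : Set E) := fun f => At.dense f

theorem clm_ext {F : Type} [NormedAddCommGroup F] [NormedSpace ℝ F] {S T : E →L[ℝ] F}
    (h : ∀ x, S (At.e x) = T (At.e x)) : S = T := by
  apply ContinuousLinearMap.ext_on At.dense'
  rintro _ ⟨x, rfl⟩
  exact h x

/-- a functional vanishes at `h` if it vanishes at all atoms in the support of `h` -/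
theorem apply_eq_zero (F : E →L[ℝ] ℝ) (h : E) (hz : ∀ k, At.π k h ≠ 0 → F (At.e k) = 0) :
    F h = 0 := by
  set X : Set V := {k | At.π k h ≠ 0} with hX
  have h1 : At.P X h = h := by
    apply At.ext'
    intro y
    by_cases hy : y ∈ X
    · rw [At.P_mem X h y hy]
    · rw [At.P_not_mem X h y hy]
      have : ¬ (At.π y h ≠ 0) := hy
      push Not at this
      exact this.symm
  have h2 : F.comp (At.P X) = 0 := by
    apply At.clm_ext
    intro x
    by_cases hx : x ∈ X
    · rw [ContinuousLinearMap.comp_apply, At.P_e_mem X x hx]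
      simpa using hz x hx
    · rw [ContinuousLinearMap.comp_apply, At.P_e_not_mem X x hx]
      simp
  have h3 := congrArg (fun G : E →L[ℝ] ℝ => G h) h2
  simpa [h1] using h3

end Atomic

/-! ### The resolvent lemma -/

theorem res_left {s : ℝ} {K Q : E →L[ℝ] E} (h : (s • 1 - K) * Q = 1) (f : E) :
    s • Q f = f + K (Q f) := by
  have h1 : ((s • 1 - K) * Q) f = f := by rw [h]; rfl
  have h2 : s • Q f - K (Q f) = f := h1
  exact sub_eq_iff_eq_add.1 h2

theorem res_right {s : ℝ} {K Q : E →L[ℝ] E} (h : Q * (s • 1 - K) = 1) (f : E) :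
    s • Q f = f + Q (K f) := by
  have h1 : (Q * (s • 1 - K)) f = f := by rw [h]; rfl
  have h2 : Q (s • f - K f) = f := h1
  rw [map_sub, map_smul] at h2
  exact sub_eq_iff_eq_add.1 h2

theorem resolvent_seq (At : Atomic E V) (K : E →L[ℝ] E) (hK : Pos K) (x : V)
    (hxx : 0 < At.π x (K (At.e x))) :
    ∃ (l : ℝ) (s : ℕ → ℝ) (Q : ℕ → (E →L[ℝ] E)), 0 < l ∧ (∀ n, l < s n) ∧ Tendsto s atTop (𝓝 l) ∧
      (∀ n, Pos (Q n)) ∧ (∀ n, Q n * (s n • 1 - K) = 1) ∧ (∀ n, (s n • 1 - K) * Q n = 1) ∧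
      (∀ n : ℕ, (n : ℝ) < ‖Q n‖) := by
  set Sg : Set ℝ := {s | 0 < s ∧ ∃ Q : E →L[ℝ] E, Pos Q ∧ Q * (s • 1 - K) = 1 ∧
    (s • 1 - K) * Q = 1} with hSg
  have hne : Sg.Nonempty := by
    refine ⟨‖K‖ + 1, by positivity, ?_⟩
    have hpos : 0 < ‖K‖ + 1 := by positivity
    have h1 : ‖(‖K‖ + 1)⁻¹ • K‖ < 1 := by
      rw [norm_smul, Real.norm_of_nonneg (by positivity), inv_mul_lt_iff₀ hpos]
      linarith
    obtain ⟨T, hT, hT1, hT2⟩ := neumann (hK.smul (c := (‖K‖ + 1)⁻¹) (by positivity)) h1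
    have h2 : (‖K‖ + 1) • (1 : E →L[ℝ] E) - K = (‖K‖ + 1) • (1 - (‖K‖ + 1)⁻¹ • K) := by
      rw [smul_sub, smul_smul, mul_inv_cancel₀ hpos.ne', one_smul]
    refine ⟨(‖K‖ + 1)⁻¹ • T, hT.smul (by positivity), ?_, ?_⟩
    · rw [h2, smul_mul_assoc, mul_smul_comm, hT1, smul_smul, inv_mul_cancel₀ hpos.ne', one_smul]
    · rw [h2, smul_mul_assoc, mul_smul_comm, hT2, smul_smul, mul_inv_cancel₀ hpos.ne', one_smul]
  have hlow : ∀ s ∈ Sg, At.π x (K (At.e x)) < s := by
    rintro s ⟨hs, Q, hQ, hQ1, hQ2⟩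
    have h1 : s • Q (At.e x) = At.e x + K (Q (At.e x)) := res_left hQ2 _
    have h0 : 0 ≤ At.π x (Q (At.e x)) := (At.nonneg_iff _).1 (hQ _ (At.e_nonneg x)) x
    have h2 : At.π x (Q (At.e x)) * At.π x (K (At.e x)) ≤ At.π x (K (Q (At.e x))) := by
      have h3 := hK.mono (At.coord_le _ (hQ _ (At.e_nonneg x)) x)
      have h4 := (At.le_iff _ _).1 h3 x
      simpa using h4
    have h5 := congrArg (At.π x) h1
    rw [map_add, map_smul, At.e_self, smul_eq_mul] at h5
    have h6 : 1 ≤ (s - At.π x (K (At.e x))) * At.π x (Q (At.e x)) := by nlinarith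
    by_contra hcon
    push Not at hcon
    nlinarith
  have hbdd : BddBelow Sg := ⟨0, fun s hs => hs.1.le⟩
  set l := sInf Sg with hl
  have hlpos : 0 < l := lt_of_lt_of_le hxx (le_csInf hne fun s hs => (hlow s hs).le)
  have hkey : ∀ s ∈ Sg, ∀ Q : E →L[ℝ] E, Pos Q → Q * (s • 1 - K) = 1 → (s • 1 - K) * Q = 1 →
      1 ≤ ‖Q‖ * (s - l) := by
    intro s hs Q hQ hQ1 hQ2
    by_contra hcon
    push Not at hcon
    have hsl : 0 ≤ s - l := sub_nonneg.2 (csInf_le hbdd hs)
    set d : ℝ := min (l / 2) ((1 - ‖Q‖ * (s - l)) / (2 * (‖Q‖ + 1))) with hd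
    have hQn : 0 ≤ ‖Q‖ := norm_nonneg Q
    have hd0 : 0 < d := lt_min (by positivity) (div_pos (by linarith) (by positivity))
    have hd1 : d ≤ l / 2 := min_le_left _ _
    have hd2 : d * (2 * (‖Q‖ + 1)) ≤ 1 - ‖Q‖ * (s - l) := by
      have : d ≤ (1 - ‖Q‖ * (s - l)) / (2 * (‖Q‖ + 1)) := min_le_right _ _
      rwa [le_div_iff₀ (by positivity)] at this
    set θ : ℝ := s - l + d with hθ
    have hθ0 : 0 ≤ θ := by linarith
    have hθ1 : ‖θ • Q‖ < 1 := by
      rw [norm_smul, Real.norm_of_nonneg hθ0]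
      nlinarith
    obtain ⟨T, hT, hT1, hT2⟩ := neumann (hQ.smul hθ0) hθ1
    have hmem : s - θ ∈ Sg := by
      refine ⟨by rw [hθ]; linarith, T * Q, hT.mul hQ, ?_, ?_⟩
      · have h1 : (s - θ) • (1 : E →L[ℝ] E) - K = (s • 1 - K) * (1 - θ • Q) := by
          rw [mul_sub, mul_smul_comm, hQ2, mul_one, sub_smul]; abel
        rw [h1, mul_assoc, ← mul_assoc Q, hQ1, one_mul, hT1]
      · have h1 : (s - θ) • (1 : E →L[ℝ] E) - K = (s • 1 - K) * (1 - θ • Q) := by
          rw [mul_sub, mul_smul_comm, hQ2, mul_one, sub_smul]; abel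
        rw [h1, mul_assoc, ← mul_assoc _ T, hT2, one_mul, hQ2]
    have := csInf_le hbdd hmem
    rw [← hl, hθ] at this
    linarith
  have hseq : ∀ n : ℕ, ∃ s ∈ Sg, s < l + 1 / ((n : ℝ) + 1) := by
    intro n
    exact exists_lt_of_csInf_lt hne (by rw [← hl]; have : (0:ℝ) < 1 / ((n : ℝ) + 1) := by positivity
                                        linarith)
  choose s hs hs1 using hseq
  choose hs0 Q hQ hQ1 hQ2 using fun n => hs n
  have hk := fun n => hkey (s n) (hs n) (Q n) (hQ n) (hQ1 n) (hQ2 n)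
  have hls : ∀ n, l < s n := by
    intro n
    by_contra hcon
    push Not at hcon
    have h1 := hk n
    have h2 : ‖Q n‖ * (s n - l) ≤ 0 := mul_nonpos_of_nonneg_of_nonpos (norm_nonneg _) (by linarith)
    linarith
  refine ⟨l, s, Q, hlpos, hls, ?_, hQ, hQ1, hQ2, ?_⟩
  · refine tendsto_of_tendsto_of_tendsto_of_le_of_le (tendsto_const_nhds (x := l))
      (?_ : Tendsto (fun n : ℕ => l + 1 / ((n : ℝ) + 1)) atTop (𝓝 l)) (fun n => (hls n).le)
      (fun n => (hs1 n).le)
    have := (tendsto_one_div_add_atTop_nhds_zero_nat (𝕜 := ℝ)).const_add l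
    simpa using this
  · intro n
    have h1 := hk n
    have h2 : 0 < s n - l := sub_pos.2 (hls n)
    have h3 : s n - l < 1 / ((n : ℝ) + 1) := by have := hs1 n; linarith
    by_contra hcon
    push Not at hcon
    have h4 : ‖Q n‖ * (s n - l) < (n : ℝ) * (1 / ((n : ℝ) + 1)) + 0 ∨ (n : ℝ) = 0 := by
      by_cases hn : (n : ℝ) = 0
      · right; exact hn
      · left
        have hn' : 0 < (n : ℝ) := lt_of_le_of_ne (Nat.cast_nonneg n) (Ne.symm hn)
        have : ‖Q n‖ * (s n - l) ≤ n * (s n - l) := mul_le_mul_of_nonneg_right hcon h2.le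
        have : (n : ℝ) * (s n - l) < n * (1 / ((n : ℝ) + 1)) := mul_lt_mul_of_pos_left h3 hn'
        linarith
    rcases h4 with h4 | h4
    · have : (n : ℝ) * (1 / ((n : ℝ) + 1)) ≤ 1 := by
        rw [mul_one_div, div_le_one (by positivity)]; linarith
      linarith
    · rw [h4] at hcon
      have : ‖Q n‖ * (s n - l) ≤ 0 := mul_nonpos_of_nonpos_of_nonneg hcon h2.le
      linarith


/-- a positive operator dominates its value at the absolute value -/
theorem norm_le_abs {Q : E →L[ℝ] E} (hQ : Pos Q) (y : E) : ‖Q y‖ ≤ ‖Q |y|‖ := by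
  apply HasSolidNorm.solid
  have h1 : Q y ≤ Q |y| := hQ.mono (le_abs_self y)
  have h2 : -(Q y) ≤ Q |y| := by rw [← map_neg]; exact hQ.mono (neg_le_abs y)
  have h3 : |Q y| ≤ Q |y| := abs_le'.2 ⟨h1, h2⟩
  exact h3.trans (le_abs_self _)

theorem lemmaR (At : Atomic E V) (K T R : E →L[ℝ] E) (hKc : IsCompactOperator K) (hK : Pos K)
    (hT : Pos T) (hR : Pos R) (X : Set V) (x : V) (hx : x ∈ X)
    (hKpos : ∀ a ∈ X, ∀ b ∈ X, 0 < At.π b (K (At.e a)))
    (hK0 : ∀ a, a ∉ X → K (At.e a) = 0) (hK1 : ∀ f b, b ∉ X → At.π b (K f) = 0)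
    (hRpos : ∀ a ∈ X, ∀ b ∈ X, 0 < At.π b (R (At.e a)))
    (h : K * T - T * K = R ∨ T * K - K * T = R) : False := by
  obtain ⟨l, s, Q, hl, hls, hs, hQ, hQ1, hQ2, hn⟩ := resolvent_seq At K hK x (hKpos x hx x hx)
  have hβ0 : ∀ n, 0 < ‖Q n‖ := fun n => lt_of_le_of_lt (Nat.cast_nonneg n) (hn n)
  have hs0 : ∀ n, 0 < s n := fun n => hl.trans (hls n)
  -- unit vectors
  have hy : ∀ n, ∃ y : E, 0 ≤ y ∧ ‖y‖ ≤ 1 ∧ ‖Q n‖ / 2 < ‖Q n y‖ := by
    intro n
    obtain ⟨y, hy1, hy2⟩ := ContinuousLinearMap.exists_lt_apply_of_lt_opNorm (Q n)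
      (r := ‖Q n‖ / 2) (by have := hβ0 n; linarith)
    refine ⟨|y|, abs_nonneg y, ?_, lt_of_lt_of_le hy2 (norm_le_abs (hQ n) y)⟩
    rw [norm_abs_eq_norm]; exact hy1.le
  choose y hy0 hy1 hy2 using hy
  set u : ℕ → E := fun n => (‖Q n‖)⁻¹ • Q n (y n) with hu
  have hu1 : ∀ n, ‖u n‖ ≤ 1 := by
    intro n
    rw [hu]; simp only
    rw [norm_smul, norm_inv, norm_norm, inv_mul_le_iff₀ (hβ0 n)]
    calc ‖Q n (y n)‖ ≤ ‖Q n‖ * ‖y n‖ := (Q n).le_opNorm _
      _ ≤ ‖Q n‖ * 1 := mul_le_mul_of_nonneg_left (hy1 n) (norm_nonneg _)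
  have hu2 : ∀ n, 1 / 2 ≤ ‖u n‖ := by
    intro n
    rw [hu]; simp only
    rw [norm_smul, norm_inv, norm_norm, le_inv_mul_iff₀ (hβ0 n)]
    have := hy2 n; linarith
  have hu3 : ∀ n, 0 ≤ u n := fun n => smul_nonneg (inv_nonneg.2 (norm_nonneg _)) (hQ n _ (hy0 n))
  have hu4 : ∀ n, s n • u n = (‖Q n‖)⁻¹ • y n + K (u n) := by
    intro n
    have := res_left (hQ2 n) (y n)
    rw [hu]; simp only
    rw [smul_comm, this, smul_add, map_smul]
  have hcpt := hKc.isCompact_closure_image_closedBall 1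
  have hmem : ∀ f : E, ‖f‖ ≤ 1 → K f ∈ closure ((K : E → E) '' Metric.closedBall 0 1) := by
    intro f hf
    exact subset_closure ⟨f, by simpa using hf, rfl⟩
  obtain ⟨⟨z, z'⟩, -, ψ, hψ, hlim⟩ := (hcpt.prod hcpt).tendsto_subseq
    (x := fun n => (K (u n), K (y n))) (fun n => ⟨hmem _ (hu1 n), hmem _ (hy1 n)⟩)
  have hlim1 : Tendsto (fun n => K (u (ψ n))) atTop (𝓝 z) :=
    (continuous_fst.tendsto _).comp hlim
  have hlim2 : Tendsto (fun n => K (y (ψ n))) atTop (𝓝 z') :=
    (continuous_snd.tendsto _).comp hlim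
  have hβinf : Tendsto (fun n => ‖Q n‖) atTop atTop :=
    tendsto_atTop_mono (fun n => (hn n).le) tendsto_natCast_atTop_atTop
  have hβψ : Tendsto (fun n => ‖Q (ψ n)‖) atTop atTop := hβinf.comp hψ.tendsto_atTop
  have hsψ : Tendsto (fun n => s (ψ n)) atTop (𝓝 l) := hs.comp hψ.tendsto_atTop
  have hinv : Tendsto (fun n => (‖Q (ψ n)‖)⁻¹) atTop (𝓝 0) := tendsto_inv_atTop_zero.comp hβψ
  have hsmall : Tendsto (fun n => (‖Q (ψ n)‖)⁻¹ • y (ψ n)) atTop (𝓝 0) := by
    apply squeeze_zero_norm (a := fun n => (‖Q (ψ n)‖)⁻¹) _ hinv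
    intro n
    rw [norm_smul, norm_inv, norm_norm]
    have := mul_le_mul_of_nonneg_left (hy1 (ψ n)) (inv_nonneg.2 (norm_nonneg (Q (ψ n))))
    simpa using this
  have hulim : Tendsto (fun n => u (ψ n)) atTop (𝓝 (l⁻¹ • z)) := by
    have h1 : ∀ n, u (ψ n) = (s (ψ n))⁻¹ • ((‖Q (ψ n)‖)⁻¹ • y (ψ n) + K (u (ψ n))) := by
      intro n
      rw [← hu4, smul_smul, inv_mul_cancel₀ (hs0 _).ne', one_smul]
    have h2 : Tendsto (fun n => (s (ψ n))⁻¹ • ((‖Q (ψ n)‖)⁻¹ • y (ψ n) + K (u (ψ n)))) atTop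
        (𝓝 (l⁻¹ • (0 + z))) := (hsψ.inv₀ hl.ne').smul (hsmall.add hlim1)
    rw [zero_add] at h2
    exact h2.congr fun n => (h1 n).symm
  set w : E := l⁻¹ • z with hw
  have hKw : K w = l • w := by
    have h1 : Tendsto (fun n => K (u (ψ n))) atTop (𝓝 (K w)) := (K.continuous.tendsto w).comp hulim
    have h2 := tendsto_nhds_unique h1 hlim1
    rw [h2, hw, smul_smul, mul_inv_cancel₀ hl.ne', one_smul]
  clear_value w
  have hwn : 1 / 2 ≤ ‖w‖ := ge_of_tendsto' hulim.norm fun n => hu2 _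
  have hw0 : 0 ≤ w := ge_of_tendsto' hulim fun n => hu3 _
  have hwx : 0 < At.π x w := by
    have h1 : ∃ a, At.π a w ≠ 0 := by
      by_contra hcon
      push Not at hcon
      have : w = 0 := At.ext' fun a => by rw [hcon a, map_zero]
      rw [this, norm_zero] at hwn
      linarith
    obtain ⟨a, ha⟩ := h1
    have ha0 : 0 ≤ At.π a w := (At.nonneg_iff w).1 hw0 a
    have ha1 : 0 < At.π a w := lt_of_le_of_ne ha0 (Ne.symm ha)
    have haX : a ∈ X := by
      by_contra hcon
      have h2 := hK1 w a hcon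
      rw [hKw, map_smul, smul_eq_mul] at h2
      have := mul_pos hl ha1
      linarith
    have h3 := (At.le_iff _ _).1 (hK.mono (At.coord_le w hw0 a)) x
    rw [hKw, map_smul, map_smul, map_smul, smul_eq_mul, smul_eq_mul] at h3
    have h4 := mul_pos ha1 (hKpos a haX x hx)
    have h5 : 0 < l * At.π x w := lt_of_lt_of_le h4 h3
    exact (pos_iff_pos_of_mul_pos h5).1 hl
  -- functionals
  set ph : ℕ → (E →L[ℝ] ℝ) := fun n => (‖Q n‖)⁻¹ • (At.π x).comp (Q n) with hph
  have hph1 : ∀ n f, ph n f = (‖Q n‖)⁻¹ * At.π x (Q n f) := fun n f => rfl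
  have hph2 : ∀ n, ‖ph n‖ ≤ ‖At.π x‖ := by
    intro n
    rw [hph]; simp only
    rw [norm_smul, norm_inv, norm_norm, inv_mul_le_iff₀ (hβ0 n), mul_comm]
    exact ContinuousLinearMap.opNorm_comp_le _ _
  have hex : ∃ a, ¬ Tendsto (fun n => ph (ψ n) (At.e a)) atTop (𝓝 0) := by
    by_contra hcon
    push Not at hcon
    have hspan : ∀ f ∈ Submodule.span ℝ (Set.range At.e),
        Tendsto (fun n => ph (ψ n) f) atTop (𝓝 0) := by
      intro f hf
      induction hf using Submodule.span_induction with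
      | mem f hf => obtain ⟨a, rfl⟩ := hf; exact hcon a
      | zero => simp
      | add f g _ _ h1 h2 => simpa using h1.add h2
      | smul c f _ h1 => simpa using h1.const_mul c
    have hall : ∀ f, Tendsto (fun n => ph (ψ n) f) atTop (𝓝 0) := by
      intro f
      rw [Metric.tendsto_atTop]
      intro ε hε
      have hden : 0 < 2 * (‖At.π x‖ + 1) := by positivity
      obtain ⟨g, hg, hfg⟩ := Metric.mem_closure_iff.1 (At.dense f) (ε / (2 * (‖At.π x‖ + 1)))
        (by positivity)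
      obtain ⟨N, hN⟩ := Metric.tendsto_atTop.1 (hspan g hg) (ε / 2) (by positivity)
      refine ⟨N, fun n hnN => ?_⟩
      have h1 := hN n hnN
      rw [Real.dist_eq, sub_zero] at h1 ⊢
      have h2 : ph (ψ n) f = ph (ψ n) (f - g) + ph (ψ n) g := by rw [← map_add]; simp
      have h3 : |ph (ψ n) (f - g)| ≤ ‖At.π x‖ * ‖f - g‖ := by
        have := (ph (ψ n)).le_opNorm (f - g)
        rw [Real.norm_eq_abs] at this
        exact this.trans (mul_le_mul_of_nonneg_right (hph2 _) (norm_nonneg _))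
      rw [dist_eq_norm, lt_div_iff₀ hden] at hfg
      have h4 : ‖At.π x‖ * ‖f - g‖ ≤ ε / 2 := by
        have := norm_nonneg (At.π x)
        have := norm_nonneg (f - g)
        nlinarith
      rw [h2]
      calc |ph (ψ n) (f - g) + ph (ψ n) g| ≤ |ph (ψ n) (f - g)| + |ph (ψ n) g| := abs_add_le _ _
        _ < ε := by linarith
    have hz1 : Tendsto (fun n => ph (ψ n) (K (y (ψ n)))) atTop (𝓝 0) := by
      have h1 : Tendsto (fun n => ph (ψ n) (K (y (ψ n)) - z')) atTop (𝓝 0) := by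
        have h2 : Tendsto (fun n => ‖At.π x‖ * ‖K (y (ψ n)) - z'‖) atTop (𝓝 0) := by
          have := (tendsto_iff_norm_sub_tendsto_zero.1 hlim2).const_mul ‖At.π x‖
          simpa using this
        apply squeeze_zero_norm _ h2
        intro n
        exact ((ph (ψ n)).le_opNorm _).trans (mul_le_mul_of_nonneg_right (hph2 _) (norm_nonneg _))
      have h3 := h1.add (hall z')
      rw [add_zero] at h3
      refine h3.congr fun n => ?_
      rw [← map_add]; simp
    have hz2 : Tendsto (fun n => s (ψ n) * At.π x (u (ψ n)) - At.π x ((‖Q (ψ n)‖)⁻¹ • y (ψ n)))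
        atTop (𝓝 (l * At.π x w - At.π x 0)) :=
      (hsψ.mul (((At.π x).continuous.tendsto w).comp hulim)).sub
        (((At.π x).continuous.tendsto 0).comp hsmall)
    have hz3 : ∀ n, ph (ψ n) (K (y (ψ n))) =
        s (ψ n) * At.π x (u (ψ n)) - At.π x ((‖Q (ψ n)‖)⁻¹ • y (ψ n)) := by
      intro n
      have h1 := congrArg (At.π x) (res_right (hQ1 (ψ n)) (y (ψ n)))
      rw [map_smul, map_add, smul_eq_mul] at h1
      rw [hph1, hu]; simp only
      rw [map_smul, map_smul, smul_eq_mul, smul_eq_mul]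
      linear_combination (-(‖Q (ψ n)‖)⁻¹) * h1
    have hz4 := tendsto_nhds_unique (hz2.congr fun n => (hz3 n).symm) hz1
    rw [map_zero, sub_zero] at hz4
    have := mul_pos hl hwx
    linarith
  obtain ⟨a, ha⟩ := hex
  rw [Metric.tendsto_atTop] at ha
  push Not at ha
  obtain ⟨δ, hδ, ha⟩ := ha
  -- a is in X
  have hge : ∀ n f, 0 ≤ f → 0 ≤ At.π x (Q n f) := fun n f hf => (At.nonneg_iff _).1 (hQ n f hf) x
  have haX : a ∈ X := by
    by_contra hcon
    obtain ⟨n, -, hn1⟩ := ha 0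
    have h1 := congrArg (At.π x) (res_right (hQ1 (ψ n)) (At.e a))
    rw [hK0 a hcon, map_zero, add_zero, map_smul, smul_eq_mul,
      At.e_ne a x (fun h' => hcon (h' ▸ hx))] at h1
    have h2 : At.π x (Q (ψ n) (At.e a)) = 0 := by
      rcases mul_eq_zero.1 h1 with h3 | h3
      · exact absurd h3 (hs0 _).ne'
      · exact h3
    rw [hph1, h2, mul_zero, dist_self] at hn1
    linarith
  -- large n
  set r : ℝ := At.π a (R (At.e x)) with hr
  have hr0 : 0 < r := hRpos x hx a haX
  obtain ⟨N, hN⟩ := (tendsto_atTop_atTop.1 hβψ) (‖At.π x‖ * ‖T‖ * ‖At.e a‖ / (δ ^ 2 * r) + 1)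
  obtain ⟨n, hnN, hn1⟩ := ha N
  have hb := hN n hnN
  set β : ℝ := ‖Q (ψ n)‖ with hβ
  have hβp : 0 < β := hβ0 _
  set q : ℝ := At.π x (Q (ψ n) (At.e a)) with hq
  have hq0 : 0 ≤ q := hge _ _ (At.e_nonneg a)
  have hqδ : δ * β ≤ q := by
    rw [Real.dist_eq, sub_zero, hph1, abs_mul, abs_of_nonneg (inv_nonneg.2 hβp.le),
      abs_of_nonneg hq0, le_inv_mul_iff₀ hβp] at hn1
    linarith
  -- the identity
  have hid : ∀ f, Q (ψ n) (R (Q (ψ n) f)) = Q (ψ n) (T f) - T (Q (ψ n) f) ∨
      Q (ψ n) (R (Q (ψ n) f)) = T (Q (ψ n) f) - Q (ψ n) (T f) := by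
    intro f
    have e1 := res_right (hQ1 (ψ n)) (T (Q (ψ n) f))
    have e2 := res_left (hQ2 (ψ n)) f
    rcases h with h | h
    · left
      have h1 : R (Q (ψ n) f) = K (T (Q (ψ n) f)) - T (K (Q (ψ n) f)) := by rw [← h]; rfl
      have e3 : K (Q (ψ n) f) = s (ψ n) • Q (ψ n) f - f := by rw [e2]; simp
      have e4 : Q (ψ n) (K (T (Q (ψ n) f))) = s (ψ n) • Q (ψ n) (T (Q (ψ n) f)) - T (Q (ψ n) f) := by
        rw [e1]; simp
      rw [h1, map_sub, e4, e3, map_sub, map_smul, map_sub, map_smul]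
      abel
    · right
      have h1 : R (Q (ψ n) f) = T (K (Q (ψ n) f)) - K (T (Q (ψ n) f)) := by rw [← h]; rfl
      have e3 : K (Q (ψ n) f) = s (ψ n) • Q (ψ n) f - f := by rw [e2]; simp
      have e4 : Q (ψ n) (K (T (Q (ψ n) f))) = s (ψ n) • Q (ψ n) (T (Q (ψ n) f)) - T (Q (ψ n) f) := by
        rw [e1]; simp
      rw [h1, map_sub, e4, e3, map_sub, map_smul, map_sub, map_smul]
      abel
  have hup : At.π x (Q (ψ n) (R (Q (ψ n) (At.e a)))) ≤ ‖At.π x‖ * (β * ‖T‖ * ‖At.e a‖) := by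
    have hnn : 0 ≤ At.π x (Q (ψ n) (T (At.e a))) := hge _ _ (hT _ (At.e_nonneg a))
    have hnn' : 0 ≤ At.π x (T (Q (ψ n) (At.e a))) :=
      (At.nonneg_iff _).1 (hT _ (hQ _ _ (At.e_nonneg a))) x
    have hb1 : At.π x (Q (ψ n) (T (At.e a))) ≤ ‖At.π x‖ * (β * ‖T‖ * ‖At.e a‖) := by
      calc At.π x (Q (ψ n) (T (At.e a))) ≤ ‖At.π x (Q (ψ n) (T (At.e a)))‖ := Real.le_norm_self _
        _ ≤ ‖At.π x‖ * ‖Q (ψ n) (T (At.e a))‖ := (At.π x).le_opNorm _
        _ ≤ ‖At.π x‖ * (β * ‖T (At.e a)‖) :=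
            mul_le_mul_of_nonneg_left ((Q (ψ n)).le_opNorm _) (norm_nonneg _)
        _ ≤ ‖At.π x‖ * (β * (‖T‖ * ‖At.e a‖)) :=
            mul_le_mul_of_nonneg_left (mul_le_mul_of_nonneg_left (T.le_opNorm _) hβp.le)
              (norm_nonneg _)
        _ = _ := by ring
    have hb2 : At.π x (T (Q (ψ n) (At.e a))) ≤ ‖At.π x‖ * (β * ‖T‖ * ‖At.e a‖) := by
      calc At.π x (T (Q (ψ n) (At.e a))) ≤ ‖At.π x (T (Q (ψ n) (At.e a)))‖ := Real.le_norm_self _
        _ ≤ ‖At.π x‖ * ‖T (Q (ψ n) (At.e a))‖ := (At.π x).le_opNorm _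
        _ ≤ ‖At.π x‖ * (‖T‖ * ‖Q (ψ n) (At.e a)‖) :=
            mul_le_mul_of_nonneg_left (T.le_opNorm _) (norm_nonneg _)
        _ ≤ ‖At.π x‖ * (‖T‖ * (β * ‖At.e a‖)) :=
            mul_le_mul_of_nonneg_left (mul_le_mul_of_nonneg_left ((Q (ψ n)).le_opNorm _)
              (norm_nonneg _)) (norm_nonneg _)
        _ = _ := by ring
    rcases hid (At.e a) with h1 | h1 <;> rw [h1, map_sub] <;> linarith
  have hlo : q * (r * q) ≤ At.π x (Q (ψ n) (R (Q (ψ n) (At.e a)))) := by
    have h1 : q • At.e x ≤ Q (ψ n) (At.e a) := At.coord_le _ (hQ _ _ (At.e_nonneg a)) x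
    have h2 : q • R (At.e x) ≤ R (Q (ψ n) (At.e a)) := by
      have := hR.mono h1; rwa [map_smul] at this
    have h3 : r • At.e a ≤ R (At.e x) := At.coord_le _ (hR _ (At.e_nonneg x)) a
    have h4 : r • Q (ψ n) (At.e a) ≤ Q (ψ n) (R (At.e x)) := by
      have := (hQ (ψ n)).mono h3; rwa [map_smul] at this
    have h5 : q • Q (ψ n) (R (At.e x)) ≤ Q (ψ n) (R (Q (ψ n) (At.e a))) := by
      have := (hQ (ψ n)).mono h2; rwa [map_smul] at this
    have h6 := (At.le_iff _ _).1 h4 x
    have h7 := (At.le_iff _ _).1 h5 x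
    rw [map_smul, smul_eq_mul] at h6 h7
    exact (mul_le_mul_of_nonneg_left h6 hq0).trans h7
  have h8 : (δ * β) * (r * (δ * β)) ≤ ‖At.π x‖ * (β * ‖T‖ * ‖At.e a‖) := by
    have h9 : (δ * β) * (r * (δ * β)) ≤ q * (r * q) := by
      have : 0 ≤ δ * β := by positivity
      gcongr
    linarith
  have h10 : β * (δ ^ 2 * r) ≤ ‖At.π x‖ * ‖T‖ * ‖At.e a‖ := by
    have h11 : β * (β * (δ ^ 2 * r)) ≤ β * (‖At.π x‖ * ‖T‖ * ‖At.e a‖) := by nlinarith
    exact le_of_mul_le_mul_left h11 hβp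
  have h12 : β ≤ ‖At.π x‖ * ‖T‖ * ‖At.e a‖ / (δ ^ 2 * r) := by
    rw [le_div_iff₀ (by positivity)]; exact h10
  linarith


theorem comp_entry (At : Atomic E V) {S T : E →L[ℝ] E} (hS : Pos S) (hT : Pos T) (a k b : V) :
    At.π k (T (At.e a)) * At.π b (S (At.e k)) ≤ At.π b (S (T (At.e a))) := by
  have h1 := hS.mono (At.coord_le _ (hT _ (At.e_nonneg a)) k)
  have h2 := (At.le_iff _ _).1 h1 b
  rwa [map_smul, map_smul, smul_eq_mul] at h2

theorem entry_nonneg (At : Atomic E V) {T : E →L[ℝ] E} (hT : Pos T) (a b : V) :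
    0 ≤ At.π b (T (At.e a)) := (At.nonneg_iff _).1 (hT _ (At.e_nonneg a)) b

theorem lemmaT (At : Atomic E V) (A B : E →L[ℝ] E) (hA : Pos A) (hB : Pos B)
    (hc : IsCompactOperator A ∨ IsCompactOperator B) (hC : Pos (A * B - B * A)) (x y : V)
    (hxy : 0 < At.π y ((A * B - B * A) (At.e x))) :
    At.π x (A (At.e y)) = 0 ∧ At.π x (B (At.e y)) = 0 := by
  by_contra hcon
  have hyx : 0 < At.π x ((A + B) (At.e y)) := by
    have h1 := entry_nonneg At hA y x
    have h2 := entry_nonneg At hB y x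
    have h3 : At.π x ((A + B) (At.e y)) = At.π x (A (At.e y)) + At.π x (B (At.e y)) := by
      rw [← map_add]; rfl
    rw [h3]
    by_contra h4
    push Not at h4
    exact hcon ⟨by linarith, by linarith⟩
  set D : E →L[ℝ] E := A + B with hD
  have hDpos : Pos D := hA.add hB
  have hDe : ∀ i j, At.π j (D (At.e i)) = At.π j (A (At.e i)) + At.π j (B (At.e i)) := by
    intro i j; rw [← map_add]; rfl
  set rel : V → V → Prop := fun i j => 0 < At.π j (D (At.e i)) with hrel
  have hrelA : ∀ i j, At.π j (A (At.e i)) ≠ 0 → rel i j := by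
    intro i j h
    have h1 := entry_nonneg At hA i j
    have h2 := entry_nonneg At hB i j
    have h3 : 0 < At.π j (A (At.e i)) := lt_of_le_of_ne h1 (Ne.symm h)
    show 0 < At.π j (D (At.e i))
    rw [hDe]; linarith
  have hrelB : ∀ i j, At.π j (B (At.e i)) ≠ 0 → rel i j := by
    intro i j h
    have h1 := entry_nonneg At hA i j
    have h2 := entry_nonneg At hB i j
    have h3 : 0 < At.π j (B (At.e i)) := lt_of_le_of_ne h2 (Ne.symm h)
    show 0 < At.π j (D (At.e i))
    rw [hDe]; linarith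
  set reach := Relation.ReflTransGen rel with hreach
  set X : Set V := {z | reach x z ∧ reach z x} with hX
  -- the intermediate vertex
  have hk : ∃ k, 0 < At.π k (B (At.e x)) ∧ 0 < At.π y (A (At.e k)) := by
    by_contra hno
    push Not at hno
    have h0 : ((At.π y).comp A) (B (At.e x)) = 0 := by
      apply At.apply_eq_zero
      intro k hk
      have h1 := entry_nonneg At hB x k
      have h2 : 0 < At.π k (B (At.e x)) := lt_of_le_of_ne h1 (Ne.symm hk)
      exact le_antisymm (hno k h2) (entry_nonneg At hA k y)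
    have h1 : At.π y ((A * B - B * A) (At.e x)) =
        ((At.π y).comp A) (B (At.e x)) - At.π y (B (A (At.e x))) := by
      rw [show (A * B - B * A) (At.e x) = A (B (At.e x)) - B (A (At.e x)) from rfl, map_sub]; rfl
    have h2 : 0 ≤ At.π y (B (A (At.e x))) :=
      (At.nonneg_iff _).1 (hB _ (hA _ (At.e_nonneg x))) y
    rw [h1, h0] at hxy
    linarith
  obtain ⟨k, hk1, hk2⟩ := hk
  have rxk : rel x k := hrelB x k hk1.ne'
  have rky : rel k y := hrelA k y hk2.ne'
  have ryx : rel y x := hyx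
  have hxX : x ∈ X := ⟨Relation.ReflTransGen.refl, Relation.ReflTransGen.refl⟩
  have hkX : k ∈ X := ⟨Relation.ReflTransGen.single rxk,
    (Relation.ReflTransGen.single rky).tail ryx⟩
  have hyX : y ∈ X := ⟨(Relation.ReflTransGen.single rxk).tail rky,
    Relation.ReflTransGen.single ryx⟩
  set P : E →L[ℝ] E := At.P X with hP
  have hPpos : Pos P := At.P_pos X
  have hPP : ∀ f, P (P f) = P f := by
    intro f
    apply At.ext'
    intro j
    by_cases hj : j ∈ X
    · rw [hP, At.P_mem X _ j hj]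
    · rw [hP, At.P_not_mem X _ j hj, At.P_not_mem X _ j hj]
  -- compression
  have hcomp : ∀ S U : E →L[ℝ] E, (∀ i j, At.π j (S (At.e i)) ≠ 0 → rel i j) →
      (∀ i j, At.π j (U (At.e i)) ≠ 0 → rel i j) →
      (P * S * P) * (P * U * P) = P * (S * U) * P := by
    intro S U hS hU
    apply At.clm_ext
    intro i
    show P (S (P (P (U (P (At.e i)))))) = P (S (U (P (At.e i))))
    by_cases hi : i ∈ X
    · have hPi : P (At.e i) = At.e i := At.P_e_mem X i hi
      rw [hPi, hPP]
      apply At.ext'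
      intro j
      by_cases hj : j ∈ X
      · rw [hP, At.P_mem X _ j hj, At.P_mem X _ j hj, ← hP]
        have h1 : ((At.π j).comp S) (P (U (At.e i)) - U (At.e i)) = 0 := by
          apply At.apply_eq_zero
          intro k' hk'
          by_cases hkX' : k' ∈ X
          · rw [map_sub, hP, At.P_mem X _ k' hkX', sub_self] at hk'
            exact absurd rfl hk'
          · rw [map_sub, hP, At.P_not_mem X _ k' hkX', zero_sub] at hk'
            by_contra hne
            have r1 : rel k' j := hS k' j hne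
            have r2 : rel i k' := hU i k' (fun h => hk' (by rw [h, neg_zero]))
            exact hkX' ⟨hi.1.tail r2, Relation.ReflTransGen.head r1 hj.2⟩
        rw [map_sub, sub_eq_zero] at h1
        exact h1
      · rw [hP, At.P_not_mem X _ j hj, At.P_not_mem X _ j hj]
    · have hPi : P (At.e i) = 0 := At.P_e_not_mem X i hi
      rw [hPi]; simp
  set A' : E →L[ℝ] E := P * A * P with hA'
  set B' : E →L[ℝ] E := P * B * P with hB'
  set C' : E →L[ℝ] E := P * (A * B - B * A) * P with hC'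
  have hA'pos : Pos A' := (hPpos.mul hA).mul hPpos
  have hB'pos : Pos B' := (hPpos.mul hB).mul hPpos
  have hC'pos : Pos C' := (hPpos.mul hC).mul hPpos
  have hcomm : A' * B' - B' * A' = C' := by
    rw [hA', hB', hcomp A B hrelA hrelB, hcomp B A hrelB hrelA, hC', mul_sub, sub_mul]
  have hPentry : ∀ S : E →L[ℝ] E, ∀ i ∈ X, ∀ j ∈ X,
      At.π j ((P * S * P) (At.e i)) = At.π j (S (At.e i)) := by
    intro S i hi j hj
    show At.π j (P (S (P (At.e i)))) = _
    rw [hP, At.P_mem X _ j hj, At.P_e_mem X i hi]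
  have hP0 : ∀ S : E →L[ℝ] E, ∀ i, i ∉ X → (P * S * P) (At.e i) = 0 := by
    intro S i hi
    show P (S (P (At.e i))) = 0
    rw [hP, At.P_e_not_mem X i hi]; simp
  have hP1 : ∀ S : E →L[ℝ] E, ∀ f j, j ∉ X → At.π j ((P * S * P) f) = 0 := by
    intro S f j hj
    show At.π j (P (S (P f))) = 0
    rw [hP, At.P_not_mem X _ j hj]
  set D' : E →L[ℝ] E := A' + B' with hD'
  have hD'pos : Pos D' := hA'pos.add hB'pos
  set t : ℝ := (‖D'‖ + 1)⁻¹ with ht
  have htpos : 0 < t := by positivity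
  have htD : ‖t • D'‖ < 1 := by
    rw [norm_smul, Real.norm_of_nonneg htpos.le, ht, inv_mul_lt_iff₀ (by positivity)]
    linarith
  obtain ⟨T, hT, hT1, hT2⟩ := neumann (hD'pos.smul htpos.le) htD
  have hTl : ∀ f, T f = f + t • D' (T f) := by
    intro f
    have h1 : ((1 - t • D') * T) f = f := by rw [hT2]; rfl
    have h2 : T f - t • D' (T f) = f := h1
    exact sub_eq_iff_eq_add.1 h2
  have hTr : ∀ f, T f = f + t • T (D' f) := by
    intro f
    have h1 : (T * (1 - t • D')) f = f := by rw [hT1]; rfl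
    have h2 : T (f - t • D' f) = f := h1
    rw [map_sub, map_smul] at h2
    exact sub_eq_iff_eq_add.1 h2
  have hD'entry : ∀ i ∈ X, ∀ j ∈ X, At.π j (D' (At.e i)) = At.π j (D (At.e i)) := by
    intro i hi j hj
    have h1 : At.π j (D' (At.e i)) = At.π j (A' (At.e i)) + At.π j (B' (At.e i)) := by
      rw [← map_add]; rfl
    rw [h1, hA', hB', hPentry A i hi j hj, hPentry B i hi j hj, hDe]
  have hTpos : ∀ i ∈ X, ∀ j ∈ X, 0 < At.π j (T (At.e i)) := by
    intro i hi
    have hgo : ∀ z, reach i z → reach z x → 0 < At.π z (T (At.e i)) := by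
      intro z hz
      induction hz with
      | refl =>
        intro _
        rw [hTl, map_add, At.e_self, map_smul, smul_eq_mul]
        have h1 : 0 ≤ At.π i (D' (T (At.e i))) :=
          (At.nonneg_iff _).1 (hD'pos _ (hT _ (At.e_nonneg i))) i
        have := mul_nonneg htpos.le h1
        linarith
      | @tail b c hb hbc ih =>
        intro hcx
        have hbx : reach b x := Relation.ReflTransGen.head hbc hcx
        have h1 := ih hbx
        have hbX : b ∈ X := ⟨hi.1.trans hb, hbx⟩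
        have hcX : c ∈ X := ⟨(hi.1.trans hb).tail hbc, hcx⟩
        rw [hTl, map_add, map_smul, smul_eq_mul]
        have h2 : 0 ≤ At.π c (At.e i) := (At.nonneg_iff _).1 (At.e_nonneg i) c
        have h3 := comp_entry At hD'pos hT i b c
        rw [hD'entry b hbX c hcX] at h3
        have h4 : 0 < At.π b (T (At.e i)) * At.π c (D (At.e b)) := mul_pos h1 hbc
        have h5 : 0 < t * At.π c (D' (T (At.e i))) := mul_pos htpos (lt_of_lt_of_le h4 h3)
        linarith
    intro j hj
    exact hgo j (hi.2.trans hj.1) hj.2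
  have hT0 : ∀ a, a ∉ X → T (At.e a) = At.e a := by
    intro a ha
    have h1 : D' (At.e a) = 0 := by
      show A' (At.e a) + B' (At.e a) = 0
      rw [hA', hB', hP0 A a ha, hP0 B a ha, add_zero]
    rw [hTr, h1]; simp
  have hT3 : ∀ f b, b ∉ X → At.π b (T f) = At.π b f := by
    intro f b hb
    have h1 : At.π b (D' (T f)) = 0 := by
      show At.π b (A' (T f) + B' (T f)) = 0
      rw [map_add, hA', hB', hP1 A _ b hb, hP1 B _ b hb, add_zero]
    rw [hTl, map_add, map_smul, h1]; simp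
  set R : E →L[ℝ] E := t • (T * (T * C' * T) * T) with hR
  have hRp : Pos R := ((hT.mul ((hT.mul hC'pos).mul hT)).mul hT).smul htpos.le
  have hC'xy : 0 < At.π y (C' (At.e x)) := by
    rw [hC', hPentry _ x hxX y hyX]; exact hxy
  have hRpos : ∀ a ∈ X, ∀ b ∈ X, 0 < At.π b (R (At.e a)) := by
    intro a ha b hb
    have h1 : 0 < At.π x (T (T (At.e a))) :=
      lt_of_lt_of_le (mul_pos (hTpos a ha x hxX) (hTpos x hxX x hxX)) (comp_entry At hT hT a x x)
    have h2 : 0 < At.π b (T (T (At.e y))) :=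
      lt_of_lt_of_le (mul_pos (hTpos y hyX b hb) (hTpos b hb b hb)) (comp_entry At hT hT y b b)
    have h3 := comp_entry At hC'pos (hT.mul hT) a x y
    have h3' : 0 < At.π y (C' (T (T (At.e a)))) := lt_of_lt_of_le (mul_pos h1 hC'xy) h3
    have h4 := comp_entry At (hT.mul hT) (hC'pos.mul (hT.mul hT)) a y b
    have h5 : 0 < At.π b (T (T (C' (T (T (At.e a)))))) := lt_of_lt_of_le (mul_pos h3' h2) h4
    have h6 : At.π b (R (At.e a)) = t * At.π b (T (T (C' (T (T (At.e a)))))) := by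
      rw [hR]
      show At.π b (t • (T (T (C' (T (T (At.e a))))))) = _
      rw [map_smul, smul_eq_mul]
    rw [h6]; exact mul_pos htpos h5
  -- the commutation identity
  have hident : ∀ G : E →L[ℝ] E, G * T - T * G = t • (T * (G * D' - D' * G) * T) := by
    intro G
    have h1 : G * T - T * G = T * ((1 - t • D') * G - G * (1 - t • D')) * T := by
      rw [mul_sub, sub_mul, ← mul_assoc T, hT1, one_mul, ← mul_assoc T G, mul_assoc (T * G), hT2,
        mul_one]
    rw [h1]
    have h2 : (1 - t • D') * G - G * (1 - t • D') = t • (G * D' - D' * G) := by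
      rw [sub_mul, mul_sub, one_mul, mul_one, smul_mul_assoc, mul_smul_comm, smul_sub]; abel
    rw [h2, mul_smul_comm, smul_mul_assoc]
  have hAD : A' * D' - D' * A' = C' := by
    rw [hD', mul_add, add_mul, ← hcomm]; abel
  have hBD : B' * D' - D' * B' = -C' := by
    rw [hD', mul_add, add_mul, ← hcomm]; abel
  rcases hc with hc | hc
  · -- A compact
    have hKc : IsCompactOperator (T * A' * T) := by
      have h1 : IsCompactOperator ((P * A * P : E →L[ℝ] E) : E → E) :=
        (hc.clm_comp P).comp_clm P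
      exact (h1.clm_comp T).comp_clm T
    have hKp : Pos (T * A' * T) := (hT.mul hA'pos).mul hT
    have hA'ky : 0 < At.π y (A' (At.e k)) := by rw [hA', hPentry _ k hkX y hyX]; exact hk2
    refine lemmaR At (T * A' * T) T R hKc hKp hT hRp X x hxX ?_ ?_ ?_ hRpos (Or.inl ?_)
    · intro a ha b hb
      have h1 := comp_entry At hA'pos hT a k y
      have h2 : 0 < At.π y (A' (T (At.e a))) :=
        lt_of_lt_of_le (mul_pos (hTpos a ha k hkX) hA'ky) h1
      have h3 := comp_entry At hT (hA'pos.mul hT) a y b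
      exact lt_of_lt_of_le (mul_pos h2 (hTpos y hyX b hb)) h3
    · intro a ha
      show T (A' (T (At.e a))) = 0
      rw [hT0 a ha, hA', hP0 A a ha, map_zero]
    · intro f b hb
      show At.π b (T (A' (T f))) = 0
      rw [hT3 _ b hb, hA', hP1 A _ b hb]
    · have h1 : T * A' * T * T - T * (T * A' * T) = T * (A' * T - T * A') * T := by
        simp only [mul_sub, sub_mul, mul_assoc]
      rw [h1, hident A', hAD, hR, mul_smul_comm, smul_mul_assoc]
  · -- B compact
    have hKc : IsCompactOperator (T * B' * T) := by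
      have h1 : IsCompactOperator ((P * B * P : E →L[ℝ] E) : E → E) :=
        (hc.clm_comp P).comp_clm P
      exact (h1.clm_comp T).comp_clm T
    have hKp : Pos (T * B' * T) := (hT.mul hB'pos).mul hT
    have hB'xk : 0 < At.π k (B' (At.e x)) := by rw [hB', hPentry _ x hxX k hkX]; exact hk1
    refine lemmaR At (T * B' * T) T R hKc hKp hT hRp X x hxX ?_ ?_ ?_ hRpos (Or.inr ?_)
    · intro a ha b hb
      have h1 := comp_entry At hB'pos hT a x k
      have h2 : 0 < At.π k (B' (T (At.e a))) :=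
        lt_of_lt_of_le (mul_pos (hTpos a ha x hxX) hB'xk) h1
      have h3 := comp_entry At hT (hB'pos.mul hT) a k b
      exact lt_of_lt_of_le (mul_pos h2 (hTpos k hkX b hb)) h3
    · intro a ha
      show T (B' (T (At.e a))) = 0
      rw [hT0 a ha, hB', hP0 B a ha, map_zero]
    · intro f b hb
      show At.π b (T (B' (T f))) = 0
      rw [hT3 _ b hb, hB', hP1 B _ b hb]
    · have h1 : T * (T * B' * T) - T * B' * T * T = -(T * (B' * T - T * B') * T) := by
        simp only [mul_sub, sub_mul, mul_assoc, neg_sub]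
      rw [h1, hident B', hBD, hR, mul_smul_comm, smul_mul_assoc]
      simp only [mul_neg, neg_mul, smul_neg, neg_neg]


theorem P_norm (At : Atomic E V) (X : Set V) : ‖At.P X‖ ≤ 1 := by
  apply ContinuousLinearMap.opNorm_le_bound _ zero_le_one
  intro f
  rw [one_mul]
  apply HasSolidNorm.solid
  have h1 : ∀ g : E, 0 ≤ g → At.P X g ≤ g := by
    intro g hg
    rw [At.le_iff]
    intro y
    by_cases h : y ∈ X
    · rw [At.P_mem X g y h]
    · rw [At.P_not_mem X g y h]
      exact (At.nonneg_iff g).1 hg y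
  have h2 : At.P X |f| ≤ |f| := h1 _ (abs_nonneg f)
  have h3 : At.P X f ≤ At.P X |f| := (At.P_pos X).mono (le_abs_self f)
  have h4 : -(At.P X f) ≤ At.P X |f| := by
    rw [← map_neg]
    exact (At.P_pos X).mono (neg_le_abs f)
  exact sup_le (h3.trans h2) (h4.trans h2)

theorem one_sub_P_eq (At : Atomic E V) (X : Set V) : (1 : E →L[ℝ] E) - At.P X = At.P Xᶜ := by
  apply ContinuousLinearMap.ext
  intro f
  apply At.ext'
  intro y
  have h0 : ((1 : E →L[ℝ] E) - At.P X) f = f - At.P X f := rfl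
  rw [h0, map_sub]
  by_cases h : y ∈ X
  · rw [At.P_mem X f y h, At.P_not_mem Xᶜ f y (by simpa using h), sub_self]
  · rw [At.P_not_mem X f y h, At.P_mem Xᶜ f y h, sub_zero]

theorem one_sub_P_norm (At : Atomic E V) (X : Set V) : ‖(1 : E →L[ℝ] E) - At.P X‖ ≤ 1 := by
  rw [one_sub_P_eq]
  exact P_norm At Xᶜ

/-- strictly triangular operators approximable by their initial parts are quasinilpotent -/
theorem quasinil (At : Atomic E V) (R : V → ℕ) (C : E →L[ℝ] E)
    (htri : ∀ x y, At.π y (C (At.e x)) ≠ 0 → R y < R x)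
    (happ : ∀ δ > 0, ∃ m, ‖C - At.P {x | R x < m} * C‖ ≤ δ) :
    Tendsto (fun n : ℕ => ‖C ^ n‖ ^ (1 / (n : ℝ))) atTop (𝓝 0) := by
  have hpow : ∀ k : ℕ, ∀ x y, At.π y ((C ^ k) (At.e x)) ≠ 0 → R y + k ≤ R x := by
    intro k
    induction k with
    | zero =>
      intro x y h
      by_cases hxy : x = y
      · subst hxy; simp
      · exact absurd (At.e_ne x y hxy) (by simpa using h)
    | succ k ih =>
      intro x y h
      by_contra hcon
      apply h
      have h1 : (C ^ (k + 1)) (At.e x) = C ((C ^ k) (At.e x)) := by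
        rw [pow_succ']; rfl
      rw [h1]
      apply At.apply_eq_zero ((At.π y).comp C) ((C ^ k) (At.e x))
      intro z hz
      by_contra hz2
      have h2 := ih x z hz
      have h3 := htri z y hz2
      omega
  have hCP : ∀ m : ℕ, C ^ m * At.P {x | R x < m} = 0 := by
    intro m
    apply At.clm_ext
    intro x
    show (C ^ m) (At.P {x | R x < m} (At.e x)) = 0
    by_cases hx : R x < m
    · rw [At.P_e_mem _ x hx]
      apply At.ext'
      intro y
      rw [map_zero]
      by_contra h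
      have := hpow m x y h
      omega
    · rw [At.P_e_not_mem _ x hx, map_zero]
  have hPC : ∀ m : ℕ, (1 - At.P {x | R x < m}) * C * At.P {x | R x < m} = 0 := by
    intro m
    apply At.clm_ext
    intro x
    show (1 - At.P {x | R x < m}) (C (At.P {x | R x < m} (At.e x))) = 0
    by_cases hx : R x < m
    · rw [At.P_e_mem _ x hx, one_sub_P_eq]
      apply At.ext'
      intro y
      rw [map_zero]
      by_cases hy : R y < m
      · exact At.P_not_mem _ _ _ (by simpa using hy)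
      · rw [At.P_mem _ _ _ (by simpa using hy)]
        by_contra h
        have := htri x y h
        omega
    · rw [At.P_e_not_mem _ x hx, map_zero, map_zero]
  have hmain : ∀ δ > 0, ∃ m, ∀ n, ‖C ^ (m + n)‖ ≤ ‖C‖ ^ m * δ ^ n := by
    intro δ hδ
    obtain ⟨m, hm⟩ := happ δ hδ
    refine ⟨m, fun n => ?_⟩
    set P := At.P {x | R x < m} with hP
    have h1 : ∀ n : ℕ, ‖(1 - P) * C ^ n‖ ≤ δ ^ n := by
      intro n
      induction n with
      | zero => simpa using one_sub_P_norm At {x | R x < m}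
      | succ n ih =>
        have h2 : (1 - P) * C ^ (n + 1) = (C - P * C) * ((1 - P) * C ^ n) := by
          have h3 : (1 - P) * C = (1 - P) * C * (1 - P) := by
            rw [mul_sub ((1 - P) * C), hPC m, mul_one, sub_zero]
          calc (1 - P) * C ^ (n + 1) = (1 - P) * C * C ^ n := by rw [pow_succ', mul_assoc]
            _ = (1 - P) * C * (1 - P) * C ^ n := by rw [← h3]
            _ = (C - P * C) * ((1 - P) * C ^ n) := by
              rw [sub_mul 1 P C, one_mul, mul_assoc]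
        rw [h2, pow_succ']
        exact (norm_mul_le _ _).trans (mul_le_mul hm ih (norm_nonneg _) hδ.le)
    have h2 : C ^ (m + n) = C ^ m * ((1 - P) * C ^ n) := by
      rw [sub_mul, one_mul, mul_sub, ← mul_assoc, hCP m, zero_mul, sub_zero, pow_add]
    rw [h2]
    have h4 : ‖C ^ m‖ ≤ ‖C‖ ^ m := by
      by_cases hm0 : m = 0
      · subst hm0
        rw [pow_zero, pow_zero]
        exact ContinuousLinearMap.norm_id_le
      · exact norm_pow_le' C (Nat.pos_of_ne_zero hm0)
    exact (norm_mul_le _ _).trans (mul_le_mul h4 (h1 n) (norm_nonneg _) (by positivity))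
  rw [Metric.tendsto_atTop]
  intro ε hε
  obtain ⟨m, hm⟩ := hmain (ε / 2) (by positivity)
  set c : ℝ := ‖C‖ ^ m / (ε / 2) ^ m + 1 with hc
  have hcpos : 0 < c := by positivity
  have hlim : Tendsto (fun n : ℕ => c ^ (1 / (n : ℝ)) * (ε / 2)) atTop (𝓝 (ε / 2)) := by
    have h1 : Tendsto (fun n : ℕ => c ^ (1 / (n : ℝ))) atTop (𝓝 (c ^ (0 : ℝ))) :=
      tendsto_const_nhds.rpow tendsto_one_div_atTop_nhds_zero_nat (Or.inl hcpos.ne')
    rw [Real.rpow_zero] at h1
    simpa using h1.mul_const (ε / 2)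
  have hev := hlim.eventually (gt_mem_nhds (show ε / 2 < ε by linarith))
  obtain ⟨N, hN⟩ := Filter.eventually_atTop.1 hev
  refine ⟨max N (m + 1), fun n hn => ?_⟩
  have hn1 : N ≤ n := (le_max_left _ _).trans hn
  have hn2 : m + 1 ≤ n := (le_max_right _ _).trans hn
  have hnpos : (0 : ℝ) < n := by
    have : 0 < n := by omega
    exact_mod_cast this
  rw [Real.dist_eq, sub_zero, abs_of_nonneg (by positivity)]
  refine lt_of_le_of_lt ?_ (hN n hn1)
  have h1 : ‖C ^ n‖ ≤ c * (ε / 2) ^ n := by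
    obtain ⟨k, rfl⟩ := Nat.exists_eq_add_of_le (show m ≤ n by omega)
    refine (hm k).trans ?_
    have h5 : ‖C‖ ^ m * (ε / 2) ^ k = (‖C‖ ^ m / (ε / 2) ^ m) * (ε / 2) ^ (m + k) := by
      rw [pow_add]
      field_simp
    rw [h5]
    apply mul_le_mul_of_nonneg_right _ (by positivity)
    rw [hc]
    linarith
  calc ‖C ^ n‖ ^ (1 / (n : ℝ)) ≤ (c * (ε / 2) ^ n) ^ (1 / (n : ℝ)) :=
        Real.rpow_le_rpow (norm_nonneg _) h1 (by positivity)
    _ = c ^ (1 / (n : ℝ)) * (ε / 2) := by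
        rw [Real.mul_rpow hcpos.le (by positivity), ← Real.rpow_natCast (ε / 2) n,
          ← Real.rpow_mul (by positivity), mul_one_div_cancel hnpos.ne', Real.rpow_one]


/-- rank one operator sending the atom `x` to the atom `y` -/
noncomputable def kap (At : Atomic E V) (x y : V) : E →L[ℝ] E := (At.π x).smulRight (At.e y)

theorem kap_apply (At : Atomic E V) (x y : V) (f : E) : kap At x y f = At.π x f • At.e y := rfl

theorem kap_pos (At : Atomic E V) (x y : V) : Pos (kap At x y) := by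
  intro f hf
  rw [kap_apply]
  exact smul_nonneg ((At.nonneg_iff f).1 hf x) (At.e_nonneg y)

theorem kap_compact (At : Atomic E V) (x y : V) : IsCompactOperator (kap At x y) := by
  have h1 : IsCompactOperator (At.π x) := isCompactOperator_of_locallyCompactSpace_dom _
  have h2 := h1.clm_comp ((ContinuousLinearMap.id ℝ ℝ).smulRight (At.e y))
  exact h2

theorem J4333_F_pos (At : Atomic E V) (T : Finset (V × V)) (c : V × V → ℝ) (hc : ∀ t, 0 ≤ c t) :
    Pos (∑ t ∈ T, c t • kap At t.1 t.2) := by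
  intro f hf
  rw [_root_.sum_apply]
  exact Finset.sum_nonneg fun t _ => ((kap_pos At t.1 t.2).smul (hc t)) f hf

theorem J4333_F_compact (At : Atomic E V) (T : Finset (V × V)) (c : V × V → ℝ) :
    IsCompactOperator (∑ t ∈ T, c t • kap At t.1 t.2 : E →L[ℝ] E) := by
  classical
  induction T using Finset.induction_on with
  | empty => 
    rw [Finset.sum_empty]
    exact isCompactOperator_zero
  | insert a T ha ih =>
    rw [Finset.sum_insert ha]
    exact ((kap_compact At a.1 a.2).smul (c a)).add ih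

theorem J4333_entry (At : Atomic E V) (T : Finset (V × V)) (c : V × V → ℝ) (x y : V) :
    At.π y ((∑ t ∈ T, c t • kap At t.1 t.2) (At.e x)) =
      ∑ t ∈ T, c t * (At.π t.1 (At.e x) * At.π y (At.e t.2)) := by
  rw [_root_.sum_apply, map_sum]
  refine Finset.sum_congr rfl fun t _ => ?_
  rw [_root_.smul_apply, kap_apply, map_smul, map_smul, smul_eq_mul, smul_eq_mul]

theorem J4333_pi_e (At : Atomic E V) (x y : V) : 0 ≤ At.π y (At.e x) :=
  (At.nonneg_iff _).1 (At.e_nonneg x) y

theorem J4333_P (At : Atomic E V) (X : Set V) (T : Finset (V × V)) (c : V × V → ℝ)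
    (h : ∀ t ∈ T, t.2 ∈ X) :
    ((1 : E →L[ℝ] E) - At.P X) * (∑ t ∈ T, c t • kap At t.1 t.2) = 0 := by
  rw [Finset.mul_sum]
  refine Finset.sum_eq_zero fun t ht => ?_
  ext f
  have h1 : (((1 : E →L[ℝ] E) - At.P X) * (c t • kap At t.1 t.2)) f =
      (c t • At.π t.1 f • At.e t.2) - At.P X (c t • At.π t.1 f • At.e t.2) := rfl
  rw [h1, map_smul, map_smul, At.P_e_mem X t.2 (h t ht), sub_self]
  rfl

/-- a summable series of finite nonnegative combinations of the rank one operators -/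
theorem series (At : Atomic E V) {ι : Type} (F : ι → (E →L[ℝ] E)) (T : ι → Finset (V × V))
    (c : ι → V × V → ℝ) (hc : ∀ i t, 0 ≤ c i t)
    (hF : ∀ i, F i = ∑ t ∈ T i, c i t • kap At t.1 t.2) (hs : Summable fun i => ‖F i‖)
    (R : V → ℕ) (htri : ∀ i, ∀ t ∈ T i, R t.2 < R t.1) :
    Pos (∑' i, F i) ∧ IsCompactOperator ((∑' i, F i : E →L[ℝ] E) : E → E) ∧
      (∀ x y, At.π y ((∑' i, F i) (At.e x)) ≠ 0 → R y < R x) ∧
      (∀ δ > 0, ∃ m, ‖(∑' i, F i) - At.P {x | R x < m} * (∑' i, F i)‖ ≤ δ) ∧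
      (∀ i, ∀ t ∈ T i, c i t ≤ At.π t.2 ((∑' i, F i) (At.e t.1))) := by
  have hsF : Summable F := Summable.of_norm hs
  have hpos : ∀ i, Pos (F i) := fun i => by rw [hF i]; exact J4333_F_pos At (T i) (c i) (hc i)
  have hent : ∀ x y, HasSum (fun i => At.π y (F i (At.e x))) (At.π y ((∑' i, F i) (At.e x))) := by
    intro x y
    have h1 : HasSum (fun i => F i (At.e x)) ((∑' i, F i) (At.e x)) :=
      hsF.hasSum.mapL (ContinuousLinearMap.apply ℝ E (At.e x))
    exact h1.mapL (At.π y)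
  have hentnn : ∀ x y i, 0 ≤ At.π y (F i (At.e x)) := fun x y i =>
    (At.nonneg_iff _).1 (hpos i _ (At.e_nonneg x)) y
  refine ⟨Pos.tsum hpos hsF, ?_, ?_, ?_, ?_⟩
  · -- compactness
    have hpart : ∀ s : Finset ι, IsCompactOperator (∑ i ∈ s, F i : E →L[ℝ] E) := by
      classical
      intro s
      induction s using Finset.induction_on with
      | empty =>
        rw [Finset.sum_empty]
        exact isCompactOperator_zero
      | insert a s ha ih =>
        rw [Finset.sum_insert ha]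
        have h1 : IsCompactOperator (F a) := by
          rw [hF a]; exact J4333_F_compact At (T a) (c a)
        exact h1.add ih
    have hfin := isCompactOperator_of_tendsto hsF.hasSum (Eventually.of_forall hpart)
    exact hfin
  · intro x y hne
    by_contra hcon
    apply hne
    have h0 : ∀ i, At.π y (F i (At.e x)) = 0 := by
      intro i
      rw [hF i, J4333_entry]
      refine Finset.sum_eq_zero fun t ht => ?_
      by_cases h1 : t.1 = x
      · by_cases h2 : t.2 = y
        · exfalso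
          apply hcon
          rw [← h1, ← h2]
          exact htri i t ht
        · rw [At.e_ne t.2 y h2, mul_zero, mul_zero]
      · rw [At.e_ne x t.1 (fun h => h1 h.symm), zero_mul, mul_zero]
    have h2 := hent x y
    simp only [h0] at h2
    exact h2.unique hasSum_zero
  · intro δ hδ
    have h1 : Tendsto (fun s : Finset ι => ∑ i ∈ s, F i) atTop (𝓝 (∑' i, F i)) := hsF.hasSum
    obtain ⟨s, hs'⟩ := ((Metric.tendsto_nhds.mp h1) δ hδ).exists
    rw [dist_comm, dist_eq_norm] at hs'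
    set m : ℕ := (s.sup fun i => (T i).sup fun t => R t.2) + 1 with hm
    refine ⟨m, ?_⟩
    set X : Set V := {x | R x < m} with hX
    have hmem : ∀ i ∈ s, ∀ t ∈ T i, t.2 ∈ X := by
      intro i hi t ht
      have h2 : R t.2 ≤ (T i).sup fun t => R t.2 := Finset.le_sup (f := fun t : V × V => R t.2) ht
      have h3 : ((T i).sup fun t => R t.2) ≤ s.sup fun i => (T i).sup fun t => R t.2 :=
        Finset.le_sup (f := fun i => (T i).sup fun t : V × V => R t.2) hi
      show R t.2 < m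
      omega
    have hz : ((1 : E →L[ℝ] E) - At.P X) * (∑ i ∈ s, F i) = 0 := by
      rw [Finset.mul_sum]
      refine Finset.sum_eq_zero fun i hi => ?_
      rw [hF i]
      exact J4333_P At X (T i) (c i) (hmem i hi)
    have he : (∑' i, F i) - At.P X * (∑' i, F i) =
        ((1 : E →L[ℝ] E) - At.P X) * ((∑' i, F i) - ∑ i ∈ s, F i) := by
      rw [mul_sub, hz, sub_zero, sub_mul, one_mul]
    rw [he]
    calc ‖((1 : E →L[ℝ] E) - At.P X) * ((∑' i, F i) - ∑ i ∈ s, F i)‖
        ≤ ‖(1 : E →L[ℝ] E) - At.P X‖ * ‖(∑' i, F i) - ∑ i ∈ s, F i‖ := norm_mul_le _ _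
      _ ≤ 1 * δ := mul_le_mul (one_sub_P_norm At X) hs'.le (norm_nonneg _) zero_le_one
      _ = δ := one_mul δ
  · intro i t ht
    refine le_trans ?_ (le_hasSum (hent t.1 t.2) i (fun j _ => hentnn t.1 t.2 j))
    rw [hF i, J4333_entry]
    have h1 : c i t = c i t * (At.π t.1 (At.e t.1) * At.π t.2 (At.e t.2)) := by
      rw [At.e_self, At.e_self, mul_one, mul_one]
    conv_lhs => rw [h1]
    exact Finset.single_le_sum (f := fun t' : V × V =>
      c i t' * (At.π t'.1 (At.e t.1) * At.π t.2 (At.e t'.2)))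
      (fun t' _ => mul_nonneg (hc i t') (mul_nonneg (J4333_pi_e At _ _) (J4333_pi_e At _ _))) ht


end

section
open Filter Topology

/-- the seminorm at an index -/
def cs {V J : Type} (S : J → Finset V) (j : J) (f : V → ℝ) : ℝ := ∑ x ∈ S j, |f x|

theorem cs_nonneg {V J : Type} (S : J → Finset V) (j : J) (f : V → ℝ) : 0 ≤ cs S j f :=
  Finset.sum_nonneg fun _ _ => abs_nonneg _

theorem cs_mono {V J : Type} (S : J → Finset V) (j : J) {f g : V → ℝ} (h : ∀ x, |f x| ≤ |g x|) :
    cs S j f ≤ cs S j g := Finset.sum_le_sum fun x _ => h x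

theorem cs_add {V J : Type} (S : J → Finset V) (j : J) (f g : V → ℝ) :
    cs S j (fun x => f x + g x) ≤ cs S j f + cs S j g := by
  unfold cs
  rw [← Finset.sum_add_distrib]
  exact Finset.sum_le_sum fun x _ => abs_add_le _ _

theorem cs_smul {V J : Type} (S : J → Finset V) (j : J) (c : ℝ) (f : V → ℝ) :
    cs S j (fun x => c * f x) = |c| * cs S j f := by
  unfold cs
  rw [Finset.mul_sum]
  exact Finset.sum_congr rfl fun x _ => abs_mul _ _

theorem cs_neg {V J : Type} (S : J → Finset V) (j : J) (f : V → ℝ) :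
    cs S j (fun x => - f x) = cs S j f := by
  unfold cs
  exact Finset.sum_congr rfl fun x _ => abs_neg _

/-- the space -/
structure SpE {V J : Type} (S : J → Finset V) (hS : ∀ x, ∃ j, x ∈ S j)
    (hfin : ∀ x, {j | x ∈ S j}.Finite) : Type where
  f : V → ℝ
  tend : Tendsto (fun j => cs S j f) cofinite (𝓝 0)

section

variable {V J : Type} {S : J → Finset V} {hS : ∀ x, ∃ j, x ∈ S j}
  {hfin : ∀ x, {j | x ∈ S j}.Finite}

theorem SpE.ext' {a b : SpE S hS hfin} (h : ∀ x, a.f x = b.f x) : a = b := by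
  cases a; cases b
  congr
  funext x
  exact h x

theorem tend_of_le {f g : V → ℝ} (hg : Tendsto (fun j => cs S j g) cofinite (𝓝 0))
    (h : ∀ j, cs S j f ≤ cs S j g) : Tendsto (fun j => cs S j f) cofinite (𝓝 0) :=
  squeeze_zero (fun j => cs_nonneg S j f) h hg

instance : Add (SpE S hS hfin) := ⟨fun a b => ⟨fun x => a.f x + b.f x,
  squeeze_zero (fun j => cs_nonneg S j _) (fun j => cs_add S j a.f b.f)
    (by simpa using a.tend.add b.tend)⟩⟩
instance : Zero (SpE S hS hfin) := ⟨⟨fun _ => 0, by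
  have h : (fun j => cs S j (fun _ => (0 : ℝ))) = fun _ => 0 := by
    funext j; simp [cs]
  rw [h]
  exact tendsto_const_nhds⟩⟩
instance : Neg (SpE S hS hfin) := ⟨fun a =>
  ⟨fun x => - a.f x, tend_of_le a.tend fun j => (cs_neg S j a.f).le⟩⟩

instance : AddCommGroup (SpE S hS hfin) where
  add_assoc a b c := SpE.ext' fun x => add_assoc _ _ _
  zero_add a := SpE.ext' fun x => zero_add _
  add_zero a := SpE.ext' fun x => add_zero _
  add_comm a b := SpE.ext' fun x => add_comm _ _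
  neg_add_cancel a := SpE.ext' fun x => neg_add_cancel _
  nsmul := nsmulRec
  zsmul := zsmulRec

theorem SpE.add_f (a b : SpE S hS hfin) (x : V) : (a + b).f x = a.f x + b.f x := rfl
theorem SpE.zero_f (x : V) : (0 : SpE S hS hfin).f x = 0 := rfl
theorem SpE.neg_f (a : SpE S hS hfin) (x : V) : (-a).f x = - a.f x := rfl
theorem SpE.sub_f (a b : SpE S hS hfin) (x : V) : (a - b).f x = a.f x - b.f x := by
  rw [sub_eq_add_neg, sub_eq_add_neg]; rfl

instance : Module ℝ (SpE S hS hfin) where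
  smul c a := ⟨fun x => c * a.f x, by
    have h : (fun j => cs S j (fun x => c * a.f x)) = fun j => |c| * cs S j a.f :=
      funext fun j => cs_smul S j c a.f
    rw [h]
    simpa using a.tend.const_mul |c|⟩
  one_smul a := SpE.ext' fun x => one_mul _
  mul_smul c d a := SpE.ext' fun x => mul_assoc _ _ _
  smul_zero c := SpE.ext' fun x => mul_zero _
  smul_add c a b := SpE.ext' fun x => mul_add _ _ _
  add_smul c d a := SpE.ext' fun x => add_mul _ _ _
  zero_smul a := SpE.ext' fun x => zero_mul _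

theorem SpE.smul_f (c : ℝ) (a : SpE S hS hfin) (x : V) : (c • a).f x = c * a.f x := rfl

instance : Lattice (SpE S hS hfin) where
  le a b := ∀ x, a.f x ≤ b.f x
  le_refl a x := le_rfl
  le_trans a b c h1 h2 x := (h1 x).trans (h2 x)
  le_antisymm a b h1 h2 := SpE.ext' fun x => le_antisymm (h1 x) (h2 x)
  sup a b := ⟨fun x => a.f x ⊔ b.f x, by
    refine squeeze_zero (fun j => cs_nonneg S j _) (fun j => ?_)
      (by simpa using a.tend.add b.tend : Tendsto (fun j => cs S j a.f + cs S j b.f) cofinite (𝓝 0))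
    unfold cs
    rw [← Finset.sum_add_distrib]
    refine Finset.sum_le_sum fun x _ => ?_
    have h1 := abs_nonneg (a.f x)
    have h2 := abs_nonneg (b.f x)
    rcases max_choice (a.f x) (b.f x) with h | h
    · show |max (a.f x) (b.f x)| ≤ _
      rw [h]; linarith
    · show |max (a.f x) (b.f x)| ≤ _
      rw [h]; linarith⟩
  inf a b := ⟨fun x => a.f x ⊓ b.f x, by
    refine squeeze_zero (fun j => cs_nonneg S j _) (fun j => ?_)
      (by simpa using a.tend.add b.tend : Tendsto (fun j => cs S j a.f + cs S j b.f) cofinite (𝓝 0))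
    unfold cs
    rw [← Finset.sum_add_distrib]
    refine Finset.sum_le_sum fun x _ => ?_
    have h1 := abs_nonneg (a.f x)
    have h2 := abs_nonneg (b.f x)
    rcases min_choice (a.f x) (b.f x) with h | h
    · show |min (a.f x) (b.f x)| ≤ _
      rw [h]; linarith
    · show |min (a.f x) (b.f x)| ≤ _
      rw [h]; linarith⟩
  le_sup_left a b x := le_sup_left
  le_sup_right a b x := le_sup_right
  sup_le a b c h1 h2 x := sup_le (h1 x) (h2 x)
  inf_le_left a b x := inf_le_left
  inf_le_right a b x := inf_le_right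
  le_inf a b c h1 h2 x := le_inf (h1 x) (h2 x)

theorem SpE.abs_f (a : SpE S hS hfin) (x : V) : (|a|).f x = |a.f x| := rfl

theorem SpE.bdd (a : SpE S hS hfin) : BddAbove (Set.range fun j => cs S j a.f) :=
  a.tend.bddAbove_range_of_cofinite

theorem iSup_cs_le {f : V → ℝ} {c : ℝ} (hc : 0 ≤ c) (h : ∀ j, cs S j f ≤ c) :
    ⨆ j, cs S j f ≤ c := Real.iSup_le h hc

noncomputable def SpE.nrm : AddGroupNorm (SpE S hS hfin) where
  toFun a := ⨆ j, cs S j a.f
  map_zero' := by
    apply le_antisymm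
    · refine Real.iSup_le (fun j => ?_) le_rfl
      show ∑ x ∈ S j, |(0 : ℝ)| ≤ 0
      simp
    · exact Real.iSup_nonneg fun j => cs_nonneg S j _
  add_le' a b := by
    refine Real.iSup_le (fun j => ?_)
      (add_nonneg (Real.iSup_nonneg fun j => cs_nonneg S j _)
        (Real.iSup_nonneg fun j => cs_nonneg S j _))
    exact (cs_add S j a.f b.f).trans (add_le_add (le_ciSup a.bdd j) (le_ciSup b.bdd j))
  neg' a := by
    have h : ∀ j, cs S j (-a).f = cs S j a.f := fun j => cs_neg S j a.f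
    show (⨆ j, cs S j (-a).f) = _
    simp only [h]
  eq_zero_of_map_eq_zero' a h := by
    apply SpE.ext'
    intro x
    obtain ⟨j, hj⟩ := hS x
    have h1 : cs S j a.f ≤ 0 := by
      have h2 : (⨆ j, cs S j a.f) = 0 := h
      rw [← h2]
      exact le_ciSup a.bdd j
    have h3 : |a.f x| ≤ cs S j a.f :=
      Finset.single_le_sum (f := fun x => |a.f x|) (fun _ _ => abs_nonneg _) hj
    exact abs_eq_zero.1 (le_antisymm (h3.trans h1) (abs_nonneg _))

noncomputable instance : NormedAddCommGroup (SpE S hS hfin) :=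
  AddGroupNorm.toNormedAddCommGroup SpE.nrm

theorem SpE.norm_def (a : SpE S hS hfin) : ‖a‖ = ⨆ j, cs S j a.f := rfl

theorem SpE.cs_le (a : SpE S hS hfin) (j : J) : cs S j a.f ≤ ‖a‖ := le_ciSup a.bdd j

theorem SpE.norm_le (a : SpE S hS hfin) {c : ℝ} (hc : 0 ≤ c) (h : ∀ j, cs S j a.f ≤ c) : ‖a‖ ≤ c :=
  Real.iSup_le h hc

theorem SpE.abs_le (a : SpE S hS hfin) (x : V) : |a.f x| ≤ ‖a‖ := by
  obtain ⟨j, hj⟩ := hS x
  exact (Finset.single_le_sum (f := fun x => |a.f x|) (fun _ _ => abs_nonneg _) hj).trans (a.cs_le j)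

instance : HasSolidNorm (SpE S hS hfin) where
  solid a b h := by
    refine a.norm_le (norm_nonneg _) fun j => ?_
    refine (cs_mono S j fun x => ?_).trans (b.cs_le j)
    exact h x

instance : IsOrderedAddMonoid (SpE S hS hfin) where
  add_le_add_left a b h c := fun x => by
    show a.f x + c.f x ≤ b.f x + c.f x
    have := h x
    linarith

noncomputable instance : NormedSpace ℝ (SpE S hS hfin) where
  norm_smul_le c a := by
    refine (c • a).norm_le (by positivity) fun j => ?_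
    have h : cs S j (c • a).f = |c| * cs S j a.f := cs_smul S j c a.f
    rw [h, Real.norm_eq_abs]
    exact mul_le_mul_of_nonneg_left (a.cs_le j) (abs_nonneg c)

instance : PosSMulMono ℝ (SpE S hS hfin) where
  smul_le_smul_of_nonneg_left c hc a b h := fun x => mul_le_mul_of_nonneg_left (h x) hc

instance : CompleteSpace (SpE S hS hfin) := by
  refine Metric.complete_of_cauchySeq_tendsto fun u hu => ?_
  have hu' : ∀ ε > 0, ∃ N, ∀ m ≥ N, ∀ n ≥ N, ‖u m - u n‖ < ε := by
    intro ε hε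
    obtain ⟨N, hN⟩ := Metric.cauchySeq_iff.1 hu ε hε
    exact ⟨N, fun m hm n hn => by rw [← dist_eq_norm]; exact hN m hm n hn⟩
  have hx : ∀ x, ∃ l : ℝ, Tendsto (fun n => (u n).f x) atTop (𝓝 l) := by
    intro x
    apply cauchySeq_tendsto_of_complete
    rw [Metric.cauchySeq_iff]
    intro ε hε
    obtain ⟨N, hN⟩ := hu' ε hε
    refine ⟨N, fun m hm n hn => ?_⟩
    rw [Real.dist_eq, ← SpE.sub_f]
    exact ((u m - u n).abs_le x).trans_lt (hN m hm n hn)
  choose l hl using hx
  have hcs : ∀ ε > 0, ∃ N, ∀ n ≥ N, ∀ j, cs S j (fun x => (u n).f x - l x) ≤ ε := by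
    intro ε hε
    obtain ⟨N, hN⟩ := hu' ε hε
    refine ⟨N, fun n hn j => ?_⟩
    have ht : Tendsto (fun m => cs S j (fun x => (u n).f x - (u m).f x)) atTop
        (𝓝 (cs S j (fun x => (u n).f x - l x))) := by
      unfold cs
      exact tendsto_finsetSum _ fun x _ => ((tendsto_const_nhds.sub (hl x)).abs)
    refine le_of_tendsto ht ?_
    filter_upwards [eventually_ge_atTop N] with m hm
    have h1 := ((u n - u m).cs_le j).trans (hN n hn m hm).le
    have h2 : cs S j (u n - u m).f = cs S j (fun x => (u n).f x - (u m).f x) := by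
      have h3 : (u n - u m).f = fun x => (u n).f x - (u m).f x := funext fun x => SpE.sub_f _ _ _
      rw [h3]
    rwa [h2] at h1
  have hlt : Tendsto (fun j => cs S j l) cofinite (𝓝 0) := by
    rw [Metric.tendsto_nhds]
    intro ε hε
    obtain ⟨N, hN⟩ := hcs (ε / 2) (by positivity)
    have h1 := (Metric.tendsto_nhds.1 (u N).tend) (ε / 2) (by positivity)
    filter_upwards [h1] with j hj
    rw [Real.dist_eq, sub_zero, abs_of_nonneg (cs_nonneg S j _)] at hj ⊢
    have h2 := hN N le_rfl j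
    have h3 : cs S j l ≤ cs S j (u N).f + cs S j (fun x => (u N).f x - l x) := by
      have h4 := cs_add S j (u N).f (fun x => - ((u N).f x - l x))
      rw [cs_neg S j (fun x => (u N).f x - l x)] at h4
      refine le_trans (le_of_eq ?_) h4
      congr 1
      funext x
      ring
    linarith
  refine ⟨⟨l, hlt⟩, ?_⟩
  rw [Metric.tendsto_atTop]
  intro ε hε
  obtain ⟨N, hN⟩ := hcs (ε / 2) (by positivity)
  refine ⟨N, fun n hn => ?_⟩
  rw [dist_eq_norm]
  refine lt_of_le_of_lt (SpE.norm_le _ (by positivity : (0 : ℝ) ≤ ε / 2) fun j => ?_) (by linarith)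
  have h2 : cs S j (u n - ⟨l, hlt⟩).f = cs S j (fun x => (u n).f x - l x) := by
    have h3 : (u n - ⟨l, hlt⟩).f = fun x => (u n).f x - l x := funext fun x => SpE.sub_f _ _ _
    rw [h3]
  rw [h2]
  exact hN n hn j

/-- restriction of a function -/
noncomputable def SpE.restr (X : Set V) (a : SpE S hS hfin) : SpE S hS hfin :=
  ⟨X.indicator a.f, tend_of_le a.tend fun j => cs_mono S j fun x => by
    by_cases hx : x ∈ X
    · rw [Set.indicator_of_mem hx]
    · rw [Set.indicator_of_notMem hx, abs_zero]; exact abs_nonneg _⟩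

open Classical in
/-- the atom -/
noncomputable def SpE.atm (hS : ∀ x, ∃ j, x ∈ S j) (hfin : ∀ x, {j | x ∈ S j}.Finite) (x : V) :
    SpE S hS hfin :=
  ⟨fun y => if y = x then 1 else 0, by
    refine tendsto_const_nhds.congr' ?_
    have h : ∀ᶠ j in cofinite, x ∉ S j := by
      have := (hfin x).compl_mem_cofinite
      exact this
    filter_upwards [h] with j hj
    unfold cs
    symm
    refine Finset.sum_eq_zero fun y hy => ?_
    have : y ≠ x := fun hh => hj (hh ▸ hy)
    show |if y = x then (1 : ℝ) else 0| = 0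
    rw [if_neg this, abs_zero]⟩

/-- the coordinate functional -/
noncomputable def SpE.co (hS : ∀ x, ∃ j, x ∈ S j) (hfin : ∀ x, {j | x ∈ S j}.Finite) (x : V) :
    SpE S hS hfin →L[ℝ] ℝ :=
  LinearMap.mkContinuous
    { toFun := fun a => a.f x
      map_add' := fun _ _ => rfl
      map_smul' := fun _ _ => rfl } 1 (fun a => by
      rw [one_mul, Real.norm_eq_abs]
      exact a.abs_le x)

theorem SpE.co_apply (x : V) (a : SpE S hS hfin) : SpE.co hS hfin x a = a.f x := rfl

/-- the projection -/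
noncomputable def SpE.pr (hS : ∀ x, ∃ j, x ∈ S j) (hfin : ∀ x, {j | x ∈ S j}.Finite) (X : Set V) :
    SpE S hS hfin →L[ℝ] SpE S hS hfin :=
  LinearMap.mkContinuous
    { toFun := fun a => SpE.restr X a
      map_add' := fun a b => SpE.ext' fun x => by
        show X.indicator (fun y => a.f y + b.f y) x = X.indicator a.f x + X.indicator b.f x
        by_cases hx : x ∈ X
        · simp only [Set.indicator_of_mem hx]
        · simp only [Set.indicator_of_notMem hx, add_zero]
      map_smul' := fun c a => SpE.ext' fun x => by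
        show X.indicator (fun y => c * a.f y) x = c * X.indicator a.f x
        by_cases hx : x ∈ X
        · simp only [Set.indicator_of_mem hx]
        · simp only [Set.indicator_of_notMem hx, mul_zero] } 1 (fun a => by
      rw [one_mul]
      refine SpE.norm_le _ (norm_nonneg _) fun j => ?_
      refine (cs_mono S j fun x => ?_).trans (a.cs_le j)
      show |X.indicator a.f x| ≤ |a.f x|
      by_cases hx : x ∈ X
      · rw [Set.indicator_of_mem hx]
      · rw [Set.indicator_of_notMem hx, abs_zero]; exact abs_nonneg _)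

theorem SpE.pr_apply (X : Set V) (a : SpE S hS hfin) (x : V) :
    (SpE.pr hS hfin X a).f x = X.indicator a.f x := rfl

theorem SpE.dense (a : SpE S hS hfin) :
    a ∈ closure (Submodule.span ℝ (Set.range (SpE.atm hS hfin)) : Set (SpE S hS hfin)) := by
  classical
  rw [Metric.mem_closure_iff]
  intro ε hε
  have h1 := (Metric.tendsto_nhds.1 a.tend) (ε / 2) (by positivity)
  have hfinJ : {j | ε / 2 ≤ cs S j a.f}.Finite := by
    refine Set.Finite.subset h1 ?_
    intro j hj hj'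
    have hj2 : dist (cs S j a.f) 0 < ε / 2 := hj'
    rw [Real.dist_eq, sub_zero, abs_of_nonneg (cs_nonneg S j _)] at hj2
    have hj3 : ε / 2 ≤ cs S j a.f := hj
    linarith
  obtain ⟨F, hF⟩ : ∃ F : Finset V, ∀ j, ε / 2 ≤ cs S j a.f → S j ⊆ F :=
    ⟨hfinJ.toFinset.biUnion S, fun j hj =>
      Finset.subset_biUnion_of_mem S (hfinJ.mem_toFinset.2 hj)⟩
  refine ⟨∑ x ∈ F, a.f x • SpE.atm hS hfin x, ?_, ?_⟩
  · exact Submodule.sum_mem _ fun x _ => Submodule.smul_mem _ _ (Submodule.subset_span ⟨x, rfl⟩)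
  · have hval : ∀ y, (∑ x ∈ F, a.f x • SpE.atm hS hfin x).f y = if y ∈ F then a.f y else 0 := by
      intro y
      rw [← SpE.co_apply, map_sum]
      have h2 : ∀ x ∈ F, SpE.co hS hfin y (a.f x • SpE.atm hS hfin x) =
          if y = x then a.f x else 0 := by
        intro x _
        show a.f x * (if y = x then (1 : ℝ) else 0) = _
        split_ifs
        · rw [mul_one]
        · rw [mul_zero]
      rw [Finset.sum_congr rfl h2, Finset.sum_ite_eq]
    rw [dist_eq_norm]
    refine lt_of_le_of_lt (SpE.norm_le _ (by positivity : (0 : ℝ) ≤ ε / 2) fun j => ?_)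
      (by linarith)
    by_cases hj : ε / 2 ≤ cs S j a.f
    · have h3 : cs S j (a - ∑ x ∈ F, a.f x • SpE.atm hS hfin x).f = 0 := by
        unfold cs
        refine Finset.sum_eq_zero fun y hy => ?_
        rw [SpE.sub_f, hval, if_pos (hF j hj hy), sub_self, abs_zero]
      rw [h3]; positivity
    · push Not at hj
      refine le_trans (cs_mono S j fun y => ?_) hj.le
      rw [SpE.sub_f, hval]
      split_ifs
      · rw [sub_self, abs_zero]; exact abs_nonneg _
      · rw [sub_zero]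

end

/-- The Banach lattice of all functions `f` on `V` with `∑_{x ∈ S j} |f x| → 0` along the cofinite
filter of `J`, with norm `sup_j ∑_{x ∈ S j} |f x|` and the pointwise order. -/
theorem exists_space {V J : Type} (S : J → Finset V) (hS : ∀ x, ∃ j, x ∈ S j)
    (hfin : ∀ x, {j | x ∈ S j}.Finite) :
    ∃ (E : Type) (_ : NormedAddCommGroup E) (_ : Lattice E) (_ : HasSolidNorm E)
      (_ : IsOrderedAddMonoid E) (_ : NormedSpace ℝ E) (_ : PosSMulMono ℝ E) (_ : CompleteSpace E)
      (At : Atomic E V),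
      (∀ (f : E) (j : J), ∑ x ∈ S j, |At.π x f| ≤ ‖f‖) ∧
      (∀ (f : E) (c : ℝ), 0 ≤ c → (∀ j, ∑ x ∈ S j, |At.π x f| ≤ c) → ‖f‖ ≤ c) := by
  classical
  refine ⟨SpE S hS hfin, inferInstance, inferInstance, inferInstance, inferInstance, inferInstance,
    inferInstance, inferInstance,
    { e := SpE.atm hS hfin
      π := SpE.co hS hfin
      P := SpE.pr hS hfin
      le_iff := fun f g => Iff.rfl
      e_self := fun x => ?_
      e_ne := fun x y h => ?_
      dense := SpE.dense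
      P_mem := fun X f x hx => ?_
      P_not_mem := fun X f x hx => ?_ }, ?_, ?_⟩
  · show (if x = x then (1 : ℝ) else 0) = 1
    rw [if_pos rfl]
  · show (if y = x then (1 : ℝ) else 0) = 0
    rw [if_neg h.symm]
  · show X.indicator f.f x = f.f x
    rw [Set.indicator_of_mem hx]
  · show X.indicator f.f x = 0
    rw [Set.indicator_of_notMem hx]
  · intro f j
    exact f.cs_le j
  · intro f c hc h
    exact f.norm_le hc h


end

section


/-- spheres of a finite digraph given by out-neighbourhoods: `sph N k v` is the set of end points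
of directed walks of length `k` starting at `v` -/
def sph {W : Type} [DecidableEq W] (N : W → Finset W) : ℕ → W → Finset W
  | 0, v => {v}
  | k + 1, v => (sph N k v).biUnion N

theorem sph_succ' {W : Type} [DecidableEq W] (N : W → Finset W) (k : ℕ) (v : W) :
    sph N (k + 1) v = (N v).biUnion (sph N k) := by
  induction k with
  | zero =>
    show (({v} : Finset W)).biUnion N = (N v).biUnion (fun y => {y})
    rw [Finset.singleton_biUnion, Finset.biUnion_singleton_eq_self]
  | succ k ih =>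
    show (sph N (k + 1) v).biUnion N = (N v).biUnion (fun y => (sph N k y).biUnion N)
    rw [ih, Finset.biUnion_biUnion]

theorem rho_sph {W : Type} [DecidableEq W] {N : W → Finset W} {ρ : W → ℕ}
    (h : ∀ v, ∀ y ∈ N v, ρ v < ρ y) : ∀ (k : ℕ) (v y : W), y ∈ sph N k v → ρ v + k ≤ ρ y := by
  intro k
  induction k with
  | zero =>
    intro v y hy
    have : y = v := Finset.mem_singleton.1 hy
    rw [this]; rfl
  | succ k ih =>
    intro v y hy
    obtain ⟨u, hu, hy'⟩ := Finset.mem_biUnion.1 hy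
    have h1 := ih v u hu
    have h2 := h u y hy'
    omega

/-- transport of spheres along an injection -/
theorem sph_image {W V : Type} [DecidableEq W] [DecidableEq V] (N : W → Finset W)
    (N' : V → Finset V) (f : W → V) (h : ∀ w, N' (f w) = (N w).image f) (k : ℕ) (w : W) :
    sph N' k (f w) = (sph N k w).image f := by
  induction k with
  | zero => exact (Finset.image_singleton f w).symm
  | succ k ih =>
    show (sph N' k (f w)).biUnion N' = ((sph N k w).biUnion N).image f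
    rw [ih, Finset.image_biUnion, Finset.biUnion_image]
    exact Finset.biUnion_congr rfl (fun a _ => h a)

/-- the new neighbourhoods -/
def NN {W : Type} [DecidableEq W] {q : ℕ} (N : W → Finset W) :
    ((Fin q → W) ⊕ (Fin q × W)) → Finset ((Fin q → W) ⊕ (Fin q × W))
  | Sum.inl z => Finset.univ.image (fun i => Sum.inr (i, z i))
  | Sum.inr p => (N p.2).image (fun y => Sum.inr (p.1, y))

theorem sph_inr {W : Type} [DecidableEq W] {q : ℕ} (N : W → Finset W) (k : ℕ) (i : Fin q) (w : W) :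
    sph (NN N) k (Sum.inr (i, w) : (Fin q → W) ⊕ (Fin q × W)) =
      (sph N k w).image (fun y => Sum.inr (i, y)) :=
  sph_image N (NN N) (fun y => Sum.inr (i, y)) (fun _ => rfl) k w

theorem mem_sph_inl {W : Type} [DecidableEq W] {q : ℕ} (N : W → Finset W) (k : ℕ)
    (z : Fin q → W) (u : (Fin q → W) ⊕ (Fin q × W)) :
    u ∈ sph (NN N) (k + 1) (Sum.inl z) ↔ ∃ i, ∃ u' ∈ sph N k (z i), u = Sum.inr (i, u') := by
  rw [sph_succ', Finset.mem_biUnion]
  constructor
  · rintro ⟨y, hy, hu⟩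
    obtain ⟨i, -, rfl⟩ := Finset.mem_image.1 hy
    rw [sph_inr] at hu
    obtain ⟨u', hu', rfl⟩ := Finset.mem_image.1 hu
    exact ⟨i, u', hu', rfl⟩
  · rintro ⟨i, u', hu', rfl⟩
    refine ⟨Sum.inr (i, z i), Finset.mem_image.2 ⟨i, Finset.mem_univ _, rfl⟩, ?_⟩
    rw [sph_inr]
    exact Finset.mem_image.2 ⟨u', hu', rfl⟩

theorem inj_inr {W : Type} {q : ℕ} (i : Fin q) :
    Function.Injective (fun y : W => (Sum.inr (i, y) : (Fin q → W) ⊕ (Fin q × W))) := by
  intro a b hab
  exact (Prod.mk.inj (Sum.inr.inj hab)).2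

/-- main recursion on an arbitrary finite type -/
theorem exists_dag (q : ℕ) : ∃ (W : Type) (_ : Fintype W) (_ : DecidableEq W)
    (N : W → Finset W) (ρ : W → ℕ),
    (∀ v, ∀ y ∈ N v, ρ v < ρ y) ∧
    (∀ v k, ∀ y ∈ sph N k v, ∀ y' ∈ sph N k v, y ≠ y' → Disjoint (N y) (N y')) ∧
    (∀ v j u k l, j ∈ N v → u ∈ sph N k v → j ∈ sph N l u → u = v ∨ u = j) ∧
    (∀ col : W → ℕ, (∀ v, ∀ y ∈ N v, col v ≠ col y) → q ≤ (Finset.univ.image col).card) := by
  induction q with
  | zero =>
    exact ⟨Empty, inferInstance, inferInstance, fun v => v.elim, fun v => v.elim,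
      fun v => v.elim, fun v => v.elim, fun v => v.elim, fun _ _ => Nat.zero_le _⟩
  | succ q ih =>
    obtain ⟨W, _, _, N, ρ, h1, h2, h3, h4⟩ := ih
    refine ⟨(Fin q → W) ⊕ (Fin q × W), inferInstance, inferInstance, NN N,
      Sum.elim (fun _ => 0) (fun p => ρ p.2 + 1), ?_, ?_, ?_, ?_⟩
    · rintro (z | ⟨i, w⟩) y hy
      · obtain ⟨i, -, rfl⟩ := Finset.mem_image.1 hy
        exact Nat.succ_pos _
      · obtain ⟨y', hy', rfl⟩ := Finset.mem_image.1 hy
        exact Nat.succ_lt_succ (h1 w y' hy')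
    · have key : ∀ (w : W) (k : ℕ) (i : Fin q), ∀ y ∈ sph N k w, ∀ y' ∈ sph N k w, y ≠ y' →
          Disjoint (NN N (Sum.inr (i, y) : (Fin q → W) ⊕ (Fin q × W)))
            (NN N (Sum.inr (i, y') : (Fin q → W) ⊕ (Fin q × W))) := by
        intro w k i y hy y' hy' hne
        exact (Finset.disjoint_image (inj_inr i)).2 (h2 w k y hy y' hy' hne)
      rintro (z | ⟨i, w⟩) k y hy y' hy' hne
      · cases k with
        | zero =>
          exact absurd ((Finset.mem_singleton.1 hy).trans (Finset.mem_singleton.1 hy').symm) hne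
        | succ k =>
          obtain ⟨i, u, hu, rfl⟩ := (mem_sph_inl N k z y).1 hy
          obtain ⟨i', u', hu', rfl⟩ := (mem_sph_inl N k z y').1 hy'
          by_cases hii : i = i'
          · subst hii
            exact key (z i) k i u hu u' hu' (fun h => hne (by rw [h]))
          · rw [Finset.disjoint_left]
            intro a ha ha'
            obtain ⟨b, -, hb⟩ := Finset.mem_image.1 ha
            obtain ⟨b', -, hb'⟩ := Finset.mem_image.1 ha'
            exact hii (Prod.mk.inj (Sum.inr.inj (hb.trans hb'.symm))).1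
      · rw [sph_inr] at hy hy'
        obtain ⟨u, hu, rfl⟩ := Finset.mem_image.1 hy
        obtain ⟨u', hu', rfl⟩ := Finset.mem_image.1 hy'
        exact key w k i u hu u' hu' (fun h => hne (by rw [h]))
    · rintro (z | ⟨i, w⟩) j u k l hj hu hju
      · cases k with
        | zero => exact Or.inl (Finset.mem_singleton.1 hu)
        | succ k =>
          right
          obtain ⟨i, -, rfl⟩ := Finset.mem_image.1 hj
          obtain ⟨i', u', hu', rfl⟩ := (mem_sph_inl N k z u).1 hu
          rw [sph_inr] at hju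
          obtain ⟨a, ha, hb⟩ := Finset.mem_image.1 hju
          obtain ⟨rfl, rfl⟩ := Prod.mk.inj (Sum.inr.inj hb)
          have e1 := rho_sph h1 k _ _ hu'
          have e2 := rho_sph h1 l _ _ ha
          have hk : k = 0 := by omega
          subst hk
          have : u' = z i' := Finset.mem_singleton.1 hu'
          rw [this]
      · obtain ⟨j', hj', rfl⟩ := Finset.mem_image.1 hj
        rw [sph_inr] at hu
        obtain ⟨u', hu', rfl⟩ := Finset.mem_image.1 hu
        rw [sph_inr] at hju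
        obtain ⟨a, ha, hb⟩ := Finset.mem_image.1 hju
        have haj : a = j' := inj_inr i hb
        subst haj
        rcases h3 w a u' k l hj' hu' ha with h | h
        · left; rw [h]
        · right; rw [h]
    · intro col hcol
      by_contra hlt
      have hcard : (Finset.univ.image col).card ≤ q := by omega
      obtain ⟨Im, hIm⟩ : ∃ Im : Finset ℕ, Im = Finset.univ.image col := ⟨_, rfl⟩
      rw [← hIm] at hcard
      have hcopy : ∀ i : Fin q, Finset.univ.image (fun w : W => col (Sum.inr (i, w))) = Im := by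
        intro i
        apply Finset.eq_of_subset_of_card_le
        · intro a ha
          obtain ⟨w, -, rfl⟩ := Finset.mem_image.1 ha
          rw [hIm]
          exact Finset.mem_image_of_mem _ (Finset.mem_univ _)
        · refine hcard.trans (h4 (fun w => col (Sum.inr (i, w))) (fun v y hy => ?_))
          exact hcol (Sum.inr (i, v)) (Sum.inr (i, y)) (Finset.mem_image.2 ⟨y, hy, rfl⟩)
      obtain ⟨g⟩ : Nonempty (Im ↪ Fin q) := by
        apply Function.Embedding.nonempty_of_card_le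
        rw [Fintype.card_coe, Fintype.card_fin]
        exact hcard
      have hz : ∀ i : Fin q, ∃ w : W, ∀ a : Im, g a = i → col (Sum.inr (i, w)) = a := by
        intro i
        by_cases hex : ∃ a : Im, g a = i
        · obtain ⟨a, ha⟩ := hex
          obtain ⟨w, -, hw⟩ := Finset.mem_image.1 ((hcopy i).symm ▸ a.2 : (a : ℕ) ∈
            Finset.univ.image (fun w : W => col (Sum.inr (i, w))))
          refine ⟨w, fun b hb => ?_⟩
          have : b = a := g.injective (hb.trans ha.symm)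
          rw [this]
          exact hw
        · have hne : (Finset.univ.image (fun w : W => col (Sum.inr (i, w)))).Nonempty := by
            rw [← Finset.card_pos]
            have := h4 (fun w => col (Sum.inr (i, w))) (fun v y hy =>
              hcol (Sum.inr (i, v)) (Sum.inr (i, y)) (Finset.mem_image.2 ⟨y, hy, rfl⟩))
            have hq : 0 < q := Fin.pos i
            omega
          obtain ⟨b, hb⟩ := hne
          obtain ⟨w, -, -⟩ := Finset.mem_image.1 hb
          exact ⟨w, fun a ha => absurd ⟨a, ha⟩ hex⟩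
      choose z hz using hz
      have ha0 : col (Sum.inl z) ∈ Im := by
        rw [hIm]; exact Finset.mem_image_of_mem _ (Finset.mem_univ _)
      have h5 := hz (g ⟨_, ha0⟩) ⟨_, ha0⟩ rfl
      exact hcol (Sum.inl z) (Sum.inr (g ⟨_, ha0⟩, z (g ⟨_, ha0⟩)))
        (Finset.mem_image.2 ⟨_, Finset.mem_univ _, rfl⟩) h5.symm

/-- the same on `Fin g` -/
theorem exists_dag_fin (q : ℕ) : ∃ (g : ℕ) (N : Fin g → Finset (Fin g)) (ρ : Fin g → ℕ),
    (∀ v, ∀ y ∈ N v, ρ v < ρ y) ∧
    (∀ v k, ∀ y ∈ sph N k v, ∀ y' ∈ sph N k v, y ≠ y' → Disjoint (N y) (N y')) ∧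
    (∀ v j u k l, j ∈ N v → u ∈ sph N k v → j ∈ sph N l u → u = v ∨ u = j) ∧
    (∀ col : Fin g → ℕ, (∀ v, ∀ y ∈ N v, col v ≠ col y) → q ≤ (Finset.univ.image col).card) := by
  obtain ⟨W, _, _, N, ρ, h1, h2, h3, h4⟩ := exists_dag q
  let e := Fintype.equivFin W
  have hs : ∀ k w, sph (fun x => (N (e.symm x)).image e) k (e w) = (sph N k w).image e :=
    fun k w => sph_image N (fun x => (N (e.symm x)).image e) e
      (fun w => by simp only [Equiv.symm_apply_apply]) k w
  refine ⟨Fintype.card W, fun x => (N (e.symm x)).image e, fun x => ρ (e.symm x), ?_, ?_, ?_, ?_⟩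
  · intro v y hy
    obtain ⟨y', hy', rfl⟩ := Finset.mem_image.1 hy
    show ρ (e.symm v) < ρ (e.symm (e y'))
    rw [Equiv.symm_apply_apply]
    exact h1 _ _ hy'
  · intro v k y hy y' hy' hne
    obtain ⟨v, rfl⟩ := e.surjective v
    rw [hs] at hy hy'
    obtain ⟨a, ha, rfl⟩ := Finset.mem_image.1 hy
    obtain ⟨a', ha', rfl⟩ := Finset.mem_image.1 hy'
    show Disjoint ((N (e.symm (e a))).image e) ((N (e.symm (e a'))).image e)
    rw [Equiv.symm_apply_apply, Equiv.symm_apply_apply]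
    exact (Finset.disjoint_image e.injective).2 (h2 v k a ha a' ha' (fun h => hne (by rw [h])))
  · intro v j u k l hj hu hju
    obtain ⟨v, rfl⟩ := e.surjective v
    rw [hs] at hu
    change j ∈ (N (e.symm (e v))).image e at hj
    rw [Equiv.symm_apply_apply] at hj
    obtain ⟨j', hj', rfl⟩ := Finset.mem_image.1 hj
    obtain ⟨u', hu', rfl⟩ := Finset.mem_image.1 hu
    rw [hs] at hju
    obtain ⟨a, ha, hb⟩ := Finset.mem_image.1 hju
    have haj : a = j' := e.injective hb
    subst haj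
    rcases h3 v a u' k l hj' hu' ha with h | h
    · left; rw [h]
    · right; rw [h]
  · intro col hcol
    have h5 := h4 (fun w => col (e w)) (fun v y hy => by
      apply hcol (e v) (e y)
      show e y ∈ (N (e.symm (e v))).image e
      rw [Equiv.symm_apply_apply]
      exact Finset.mem_image_of_mem _ hy)
    refine h5.trans (Finset.card_le_card ?_)
    intro a ha
    obtain ⟨w, -, rfl⟩ := Finset.mem_image.1 ha
    exact Finset.mem_image_of_mem _ (Finset.mem_univ _)


end

section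
open Finset

theorem floor_close (M m x y : ℝ) (hM : 0 < M) (hm : 0 < m) (hy : 0 ≤ y)
    (h : ⌊x * m / M⌋₊ = ⌊y * m / M⌋₊) : x - y ≤ M / m := by
  have h1 : x * m / M < ⌊x * m / M⌋₊ + 1 := Nat.lt_floor_add_one _
  have h2 : (⌊y * m / M⌋₊ : ℝ) ≤ y * m / M := Nat.floor_le (by positivity)
  rw [h] at h1
  have h3 : x * m / M < y * m / M + 1 := by linarith
  rw [div_add_one hM.ne', div_lt_div_iff_of_pos_right hM] at h3
  rw [le_div_iff₀ hm]
  nlinarith

theorem block_contra (g p : ℕ) [Fact p.Prime] (N : Fin g → Finset (Fin g))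
    (h1 : ∀ v, v ∉ N v)
    (h3 : ∀ v j u k l, j ∈ N v → u ∈ sph N k v → j ∈ sph N l u → u = v ∨ u = j)
    (M ε : ℝ) (hM : 0 < M) (hε : 0 < ε) (m q : ℕ) (hm : 0 < m) (hq : (m + 1) ^ 2 < q)
    (hmε : 4 * M ^ 2 < ε * m) (hp : 4 * (g : ℝ) ^ 3 * M ^ 2 < ε * p)
    (hcol : ∀ col : Fin g → ℕ, (∀ v, ∀ y ∈ N v, col v ≠ col y) →
      q ≤ (Finset.univ.image col).card)
    (α β : (ZMod p × ZMod p) → Fin g → Fin g → ℝ)
    (hα0 : ∀ f x y, 0 ≤ α f x y) (hβ0 : ∀ f x y, 0 ≤ β f x y)
    (hα1 : ∀ f x y, α f x y ≤ M) (hβ1 : ∀ f x y, β f x y ≤ M)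
    (hα2 : ∀ (v κ : Fin g) (a : ZMod p), (∀ k, κ ∉ sph N k v) →
      ∑ f ∈ univ.filter (fun f : ZMod p × ZMod p => f.1 * ((v : ℕ) : ZMod p) + f.2 = a),
        α f κ v ≤ M)
    (hβ2 : ∀ (v κ : Fin g) (a : ZMod p), (∀ k, κ ∉ sph N k v) →
      ∑ f ∈ univ.filter (fun f : ZMod p × ZMod p => f.1 * ((v : ℕ) : ZMod p) + f.2 = a),
        β f κ v ≤ M)
    (hcomm : ∀ f v, ∀ j ∈ N v, ε ≤ ∑ u, (β f j u * α f u v - α f j u * β f u v)) : False := by
  classical
  have hp0 : (0:ℝ) < p := by exact_mod_cast (Fact.out : p.Prime).pos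
  have hm0 : (0:ℝ) < m := by exact_mod_cast hm
  let P : Finset (Fin g × Fin g) := univ.filter (fun x => ∀ k, x.2 ∉ sph N k x.1)
  have hPcard : (P.card : ℝ) ≤ (g:ℝ)^2 := by
    have : P.card ≤ g ^ 2 := by
      calc P.card ≤ (univ : Finset (Fin g × Fin g)).card := card_le_card (filter_subset _ _)
        _ = g ^ 2 := by simp [Fintype.card_prod, sq]
    exact_mod_cast this
  have key : ∀ (γ : (ZMod p × ZMod p) → Fin g → Fin g → ℝ),
      (∀ (v κ : Fin g) (a : ZMod p), (∀ k, κ ∉ sph N k v) →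
      ∑ f ∈ univ.filter (fun f : ZMod p × ZMod p => f.1 * ((v : ℕ) : ZMod p) + f.2 = a),
        γ f κ v ≤ M) → ∀ x ∈ P, ∑ f, γ f x.2 x.1 ≤ p * M := by
    intro γ hγ x hx
    have hb : ∀ k, x.2 ∉ sph N k x.1 := (Finset.mem_filter.1 hx).2
    rw [← Finset.sum_fiberwise univ
      (fun f : ZMod p × ZMod p => f.1 * ((x.1:ℕ) : ZMod p) + f.2) (fun f => γ f x.2 x.1)]
    calc _ ≤ ∑ a : ZMod p, M := Finset.sum_le_sum (fun a _ => hγ x.1 x.2 a hb)
      _ = p * M := by simp [ZMod.card]
  let Φ : (ZMod p × ZMod p) → ℝ := fun f => ∑ x ∈ P, (α f x.2 x.1 + β f x.2 x.1)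
  have hΦ : ∑ f, Φ f ≤ 2 * (g:ℝ)^2 * p * M := by
    simp only [Φ]
    rw [Finset.sum_comm]
    calc ∑ x ∈ P, ∑ f, (α f x.2 x.1 + β f x.2 x.1) ≤ ∑ x ∈ P, (2 * (p * M)) := by
          apply Finset.sum_le_sum
          intro x hx
          rw [Finset.sum_add_distrib]
          linarith [key α hα2 x hx, key β hβ2 x hx]
      _ = P.card * (2 * (p * M)) := by rw [sum_const, nsmul_eq_mul]
      _ ≤ (g:ℝ)^2 * (2 * (p * M)) := by
          apply mul_le_mul_of_nonneg_right hPcard (by positivity)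
      _ = _ := by ring
  have hex : ∃ f, Φ f ≤ 2 * (g:ℝ)^2 * M / p := by
    by_contra h
    push Not at h
    have h5 : ∑ f : ZMod p × ZMod p, (2 * (g:ℝ)^2 * M / p) < ∑ f, Φ f :=
      Finset.sum_lt_sum_of_nonempty univ_nonempty (fun f _ => h f)
    rw [sum_const, card_univ, Fintype.card_prod, ZMod.card, nsmul_eq_mul] at h5
    have e : (((p * p : ℕ) : ℝ) * (2 * (g:ℝ)^2 * M / p)) = 2 * (g:ℝ)^2 * p * M := by
      push_cast
      field_simp
    rw [e] at h5
    linarith
  obtain ⟨f, hf⟩ := hex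
  obtain ⟨η, hηdef⟩ : ∃ η : ℝ, η = 2 * (g:ℝ)^2 * M / p := ⟨_, rfl⟩
  rw [← hηdef] at hf
  have hη : 0 ≤ η := by rw [hηdef]; positivity
  have hbad : ∀ v κ, (∀ k, κ ∉ sph N k v) → α f κ v ≤ η ∧ β f κ v ≤ η := by
    intro v κ hb
    have hx : (v, κ) ∈ P := by
      simp only [P, Finset.mem_filter, Finset.mem_univ, true_and]
      exact hb
    have h6 : α f κ v + β f κ v ≤ Φ f :=
      Finset.single_le_sum (f := fun x : Fin g × Fin g => α f x.2 x.1 + β f x.2 x.1)
        (fun x _ => add_nonneg (hα0 _ _ _) (hβ0 _ _ _)) hx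
    constructor <;> linarith [hβ0 f κ v, hα0 f κ v]
  let A : Fin g → ℕ := fun v => ⌊α f v v * m / M⌋₊
  let B : Fin g → ℕ := fun v => ⌊β f v v * m / M⌋₊
  have hA : ∀ v, A v ≤ m := by
    intro v
    have : α f v v * m / M ≤ m := by
      rw [div_le_iff₀ hM]
      nlinarith [hα1 f v v]
    exact Nat.floor_le_of_le this
  have hB : ∀ v, B v ≤ m := by
    intro v
    have : β f v v * m / M ≤ m := by
      rw [div_le_iff₀ hM]
      nlinarith [hβ1 f v v]
    exact Nat.floor_le_of_le this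
  let col : Fin g → ℕ := fun v => A v * (m+1) + B v
  have hcard : (univ.image col).card < q := by
    have h7 : univ.image col ⊆ range ((m+1)^2) := by
      intro c hc
      obtain ⟨v, _, rfl⟩ := Finset.mem_image.1 hc
      rw [Finset.mem_range]
      show A v * (m+1) + B v < (m+1)^2
      nlinarith [hA v, hB v]
    have h8 := card_le_card h7
    rw [card_range] at h8
    omega
  have h9 : ∃ v, ∃ j ∈ N v, col v = col j := by
    by_contra h
    push Not at h
    exact absurd (hcol col h) (by omega)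
  obtain ⟨v, j, hj, hc⟩ := h9
  have hAB : A v = A j ∧ B v = B j := by
    have hc' : A v * (m+1) + B v = A j * (m+1) + B j := hc
    have hmm : 0 < m + 1 := by omega
    have e1 : (A v * (m+1) + B v) / (m+1) = A v := by
      rw [Nat.add_comm, Nat.add_mul_div_right _ _ hmm, Nat.div_eq_of_lt (by have := hB v; omega)]
      omega
    have e2 : (A j * (m+1) + B j) / (m+1) = A j := by
      rw [Nat.add_comm, Nat.add_mul_div_right _ _ hmm, Nat.div_eq_of_lt (by have := hB j; omega)]
      omega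
    have e3 : A v = A j := by rw [← e1, ← e2, hc']
    refine ⟨e3, ?_⟩
    rw [e3] at hc'
    omega
  have hvj : v ≠ j := by
    intro h
    exact h1 v (h ▸ hj)
  have d1 : β f j j - β f v v ≤ M / m := floor_close M m _ _ hM hm0 (hβ0 _ _ _) hAB.2.symm
  have d2 : α f v v - α f j j ≤ M / m := floor_close M m _ _ hM hm0 (hα0 _ _ _) hAB.1
  have hrest : ∀ u, u ≠ v → u ≠ j → β f j u * α f u v - α f j u * β f u v ≤ M * η := by
    intro u huv huj
    have h10 : (∀ k, u ∉ sph N k v) ∨ (∀ l, j ∉ sph N l u) := by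
      by_contra hcon
      push Not at hcon
      obtain ⟨⟨k, hk⟩, ⟨l, hl⟩⟩ := hcon
      rcases h3 v j u k l hj hk hl with h | h
      · exact huv h
      · exact huj h
    have h11 : 0 ≤ α f j u * β f u v := mul_nonneg (hα0 _ _ _) (hβ0 _ _ _)
    have h12 : β f j u * α f u v ≤ M * η := by
      rcases h10 with h | h
      · exact mul_le_mul (hβ1 _ _ _) (hbad v u h).1 (hα0 _ _ _) hM.le
      · calc β f j u * α f u v ≤ η * M :=
              mul_le_mul (hbad u j h).2 (hα1 _ _ _) (hα0 _ _ _) hη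
          _ = M * η := by ring
    linarith
  have hsum := hcomm f v j hj
  rw [← Finset.add_sum_erase univ _ (Finset.mem_univ j),
    ← Finset.add_sum_erase (univ.erase j) _ (Finset.mem_erase.2 ⟨hvj, Finset.mem_univ v⟩)] at hsum
  have hR : ∑ u ∈ (univ.erase j).erase v, (β f j u * α f u v - α f j u * β f u v)
      ≤ g * (M * η) := by
    calc _ ≤ ∑ u ∈ (univ.erase j).erase v, (M * η) := by
          apply Finset.sum_le_sum
          intro u hu
          rw [Finset.mem_erase, Finset.mem_erase] at hu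
          exact hrest u hu.1 hu.2.1
      _ = ((univ.erase j).erase v).card * (M * η) := by rw [sum_const, nsmul_eq_mul]
      _ ≤ g * (M * η) := by
          apply mul_le_mul_of_nonneg_right _ (by positivity)
          have : ((univ.erase j).erase v).card ≤ g := by
            calc _ ≤ (univ : Finset (Fin g)).card := card_le_card
                  ((erase_subset _ _).trans (erase_subset _ _))
              _ = g := by simp
          exact_mod_cast this
  have hR2 : (g:ℝ) * (M * η) < ε / 2 := by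
    rw [hηdef]
    have : (g:ℝ) * (M * (2 * (g:ℝ)^2 * M / p)) = (2 * (g:ℝ)^3 * M^2) / p := by
      field_simp
    rw [this, div_lt_iff₀ hp0]
    linarith
  have hMm : M * (M / m) + M * (M / m) < ε / 2 := by
    have : M * (M / m) + M * (M / m) = (2 * M^2) / m := by
      field_simp
      ring
    rw [this, div_lt_iff₀ hm0]
    linarith
  have hMm0 : 0 ≤ M / m := by positivity
  have t1 : α f j v * (β f j j - β f v v) ≤ M * (M / m) := by
    calc α f j v * (β f j j - β f v v) ≤ α f j v * (M / m) :=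
          mul_le_mul_of_nonneg_left d1 (hα0 _ _ _)
      _ ≤ M * (M / m) := mul_le_mul_of_nonneg_right (hα1 _ _ _) hMm0
  have t2 : β f j v * (α f v v - α f j j) ≤ M * (M / m) := by
    calc β f j v * (α f v v - α f j j) ≤ β f j v * (M / m) :=
          mul_le_mul_of_nonneg_left d2 (hβ0 _ _ _)
      _ ≤ M * (M / m) := mul_le_mul_of_nonneg_right (hβ1 _ _ _) hMm0
  nlinarith


/-- the sets defining the norm of a block -/
def Sb {g p : ℕ} [Fact p.Prime] (N : Fin g → Finset (Fin g)) (v : Fin g) (a : ZMod p) (k : ℕ) :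
    Finset ((ZMod p × ZMod p) × Fin g) :=
  univ.filter (fun x => x.1.1 * ((v : ℕ) : ZMod p) + x.1.2 = a ∧ x.2 ∈ sph N k v)


lemma Sb_eq {g p : ℕ} [Fact p.Prime] (N : Fin g → Finset (Fin g)) (v : Fin g) (a : ZMod p) (k : ℕ) :
    Sb N v a k = (univ.filter (fun f : ZMod p × ZMod p => f.1 * ((v : ℕ) : ZMod p) + f.2 = a)) ×ˢ
      (sph N k v) := by
  ext x
  simp only [Sb, mem_filter, mem_univ, true_and, mem_product]

/-- the adjacency operator is a contraction -/
theorem contraction_block {g p : ℕ} [Fact p.Prime] (N : Fin g → Finset (Fin g))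
    (h2 : ∀ v k, ∀ y ∈ sph N k v, ∀ y' ∈ sph N k v, y ≠ y' → Disjoint (N y) (N y'))
    (φ : (ZMod p × ZMod p) × Fin g → ℝ) (v : Fin g) (a : ZMod p) (k : ℕ) :
    ∑ x ∈ Sb N v a k, |∑ j ∈ N x.2, φ (x.1, j)| ≤ ∑ x ∈ Sb N v a (k + 1), |φ x| := by
  rw [Sb_eq, Sb_eq, Finset.sum_product, Finset.sum_product]
  refine Finset.sum_le_sum fun f _ => ?_
  have h3 : sph N (k + 1) v = (sph N k v).biUnion N := rfl
  rw [h3, Finset.sum_biUnion]
  · exact Finset.sum_le_sum fun y _ => Finset.abs_sum_le_sum_abs _ _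
  · intro y hy y' hy' hne
    exact h2 v k y hy y' hy' hne

/-- two values determine the line -/
theorem card_block {g p : ℕ} [Fact p.Prime] (hgp : g ≤ p) (N : Fin g → Finset (Fin g))
    (v κ : Fin g) (hκ : ∀ k, κ ∉ sph N k v) (a : ZMod p) (v' : Fin g) (a' : ZMod p) (k : ℕ) :
    ((univ.filter (fun f : ZMod p × ZMod p => f.1 * ((v : ℕ) : ZMod p) + f.2 = a)).filter
      (fun f => (f, κ) ∈ Sb N v' a' k)).card ≤ 1 := by
  rw [Finset.card_le_one]
  intro f hf f' hf'
  simp only [Sb, mem_filter, mem_univ, true_and] at hf hf'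
  obtain ⟨h1, h2, h3⟩ := hf
  obtain ⟨g1, g2, g3⟩ := hf'
  have hne : v ≠ v' := by
    rintro rfl
    exact hκ k h3
  have hz : ((v : ℕ) : ZMod p) - ((v' : ℕ) : ZMod p) ≠ 0 := by
    intro h0
    have h4 : ((v : ℕ) : ZMod p) = ((v' : ℕ) : ZMod p) := sub_eq_zero.mp h0
    rw [ZMod.natCast_eq_natCast_iff', Nat.mod_eq_of_lt (lt_of_lt_of_le v.2 hgp),
      Nat.mod_eq_of_lt (lt_of_lt_of_le v'.2 hgp)] at h4
    exact hne (Fin.ext h4)
  have e1 : f.1 * (((v : ℕ) : ZMod p) - ((v' : ℕ) : ZMod p)) =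
      f'.1 * (((v : ℕ) : ZMod p) - ((v' : ℕ) : ZMod p)) := by
    linear_combination h1 - h2 - g1 + g2
  have e2 : f.1 = f'.1 := mul_right_cancel₀ hz e1
  have e3 : f.2 = f'.2 := by
    rw [e2] at h1
    linear_combination h1 - g1
  exact Prod.ext e2 e3


end

theorem exists_rank (p g : ℕ → ℕ) [∀ n, Fact (p n).Prime] (ρ : ∀ n, Fin (g n) → ℕ) :
    ∃ R : (Σ n : ℕ, (ZMod (p n) × ZMod (p n)) × Fin (g n)) → ℕ,
      (∀ L, {x | R x < L}.Finite) ∧
      (∀ (n : ℕ) (f : ZMod (p n) × ZMod (p n)) (u v : Fin (g n)), ρ n u < ρ n v →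
        R ⟨n, (f, u)⟩ < R ⟨n, (f, v)⟩) ∧
      (∀ (n : ℕ) (f : ZMod (p n) × ZMod (p n)) (u v : Fin (g n))
        (k : Σ n : ℕ, (ZMod (p n) × ZMod (p n)) × Fin (g n)),
        R ⟨n, (f, u)⟩ ≤ R k → R k ≤ R ⟨n, (f, v)⟩ → ∃ w : Fin (g n), k = ⟨n, (f, w)⟩) := by
  classical
  haveI : ∀ n, NeZero (p n) := fun n => ⟨(Fact.out : (p n).Prime).ne_zero⟩
  haveI : ∀ n, Finite (ZMod (p n)) := fun n => inferInstance
  haveI : Countable (Σ n : ℕ, ZMod (p n) × ZMod (p n)) := inferInstance
  obtain ⟨code, hcode⟩ := Countable.exists_injective_nat (Σ n : ℕ, ZMod (p n) × ZMod (p n))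
  let B : ℕ → ℕ := fun n => ∑ u, ρ n u
  have hB : ∀ n u, ρ n u ≤ B n := fun n u =>
    Finset.single_le_sum (f := fun u => ρ n u) (fun _ _ => Nat.zero_le _) (Finset.mem_univ u)
  let w : ℕ → ℕ := fun i => if h : ∃ c, code c = i then B (h.choose).1 else 0
  have hw : ∀ c, w (code c) = B c.1 := by
    intro c
    have h : ∃ c', code c' = code c := ⟨c, rfl⟩
    have h1 : w (code c) = B (h.choose).1 := dif_pos h
    rw [h1, hcode h.choose_spec]
  let st : ℕ → ℕ := fun i => ∑ j ∈ Finset.range i, (w j + 1)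
  have hst1 : ∀ i, st (i+1) = st i + (w i + 1) := fun i => Finset.sum_range_succ _ _
  have hstm : Monotone st := monotone_nat_of_le_succ fun i => by rw [hst1]; omega
  have hid : ∀ i, i ≤ st i := by
    intro i
    induction i with
    | zero => exact Nat.zero_le _
    | succ i ih => rw [hst1]; omega
  have hlt : ∀ c c', code c < code c' → st (code c) + B c.1 < st (code c') := by
    intro c c' h
    have h1 : st (code c + 1) ≤ st (code c') := hstm h
    rw [hst1, hw] at h1
    omega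
  refine ⟨fun x => st (code ⟨x.1, x.2.1⟩) + ρ x.1 x.2.2, ?_, ?_, ?_⟩
  · intro L
    have h1 : {c | code c < L}.Finite := by
      have := (Set.finite_Iio L).preimage (hcode.injOn (s := code ⁻¹' (Set.Iio L)))
      exact this
    have h2 : ((fun x : (Σ n : ℕ, (ZMod (p n) × ZMod (p n)) × Fin (g n)) =>
        (⟨x.1, x.2.1⟩ : Σ n : ℕ, ZMod (p n) × ZMod (p n))) ⁻¹' {c | code c < L}).Finite := by
      refine h1.preimage' fun b _ => ?_
      refine (Set.finite_range (fun u : Fin (g b.1) =>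
        (⟨b.1, (b.2, u)⟩ : (Σ n : ℕ, (ZMod (p n) × ZMod (p n)) × Fin (g n))))).subset ?_
      rintro ⟨n, f, u⟩ hx
      have hx' : (⟨n, f⟩ : Σ n : ℕ, ZMod (p n) × ZMod (p n)) = b := hx
      subst hx'
      exact ⟨u, rfl⟩
    refine h2.subset fun x hx => ?_
    have hx' : st (code ⟨x.1, x.2.1⟩) + ρ x.1 x.2.2 < L := hx
    have := hid (code ⟨x.1, x.2.1⟩)
    show code ⟨x.1, x.2.1⟩ < L
    omega
  · intro n f u v h
    show st (code ⟨n, f⟩) + ρ n u < st (code ⟨n, f⟩) + ρ n v
    omega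
  · rintro n f u v ⟨m, f', w'⟩ h1 h2
    have h1' : st (code ⟨n, f⟩) + ρ n u ≤ st (code ⟨m, f'⟩) + ρ m w' := h1
    have h2' : st (code ⟨m, f'⟩) + ρ m w' ≤ st (code ⟨n, f⟩) + ρ n v := h2
    have h3 : code ⟨m, f'⟩ = code ⟨n, f⟩ := by
      rcases lt_trichotomy (code ⟨m, f'⟩) (code ⟨n, f⟩) with h | h | h
      · have h4 := hlt _ _ h
        have h5 := hB m w'
        simp only at h4
        omega
      · exact h
      · have h4 := hlt _ _ h
        have h5 := hB n v
        simp only at h4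
        omega
    have h4 := hcode h3
    obtain ⟨rfl, h5⟩ := Sigma.mk.inj_iff.1 h4
    have h6 := eq_of_heq h5
    subst h6
    exact ⟨w', rfl⟩




section
open Filter Topology Finset


/-- the index set of the atoms -/
abbrev Vt (p g : ℕ → ℕ) : Type := Σ n : ℕ, (ZMod (p n) × ZMod (p n)) × Fin (g n)

theorem vt_inj {p g : ℕ → ℕ} {n : ℕ} {y y' : (ZMod (p n) × ZMod (p n)) × Fin (g n)}
    (h : (⟨n, y⟩ : Vt p g) = ⟨n, y'⟩) : y = y' := by
  cases h; rfl

/-- the index set of the norm -/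
abbrev Jt (p g : ℕ → ℕ) : Type := Σ n : ℕ, Fin (g n) × ZMod (p n) × ℕ

/-- parameters of the blocks -/
theorem exists_params : ∃ (g p m q : ℕ → ℕ) (N : ∀ n, Fin (g n) → Finset (Fin (g n)))
    (ρ : ∀ n, Fin (g n) → ℕ), (∀ n, (p n).Prime) ∧ (∀ n, g n ≤ p n) ∧ (∀ n, 0 < m n) ∧
    (∀ n, (m n + 1) ^ 2 < q n) ∧ (∀ n : ℕ, 4 * ((n : ℝ) + 1) ^ 2 < (1 / 2) ^ n * m n) ∧
    (∀ n : ℕ, 4 * (g n : ℝ) ^ 3 * ((n : ℝ) + 1) ^ 2 < (1 / 2) ^ n * p n) ∧
    (∀ n v, ∀ y ∈ N n v, ρ n v < ρ n y) ∧
    (∀ n v k, ∀ y ∈ sph (N n) k v, ∀ y' ∈ sph (N n) k v, y ≠ y' → Disjoint (N n y) (N n y')) ∧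
    (∀ n v j u k l, j ∈ N n v → u ∈ sph (N n) k v → j ∈ sph (N n) l u → u = v ∨ u = j) ∧
    (∀ n, ∀ col : Fin (g n) → ℕ, (∀ v, ∀ y ∈ N n v, col v ≠ col y) →
      q n ≤ (Finset.univ.image col).card) := by
  set m : ℕ → ℕ := fun n => 4 * (n + 1) ^ 2 * 2 ^ n + 1 with hm
  set q : ℕ → ℕ := fun n => (m n + 1) ^ 2 + 1 with hq
  choose g N ρ h1 h2 h3 h4 using fun n => exists_dag_fin (q n)
  have hp : ∀ n, ∃ p, max (g n) (4 * (g n) ^ 3 * (n + 1) ^ 2 * 2 ^ n + 1) ≤ p ∧ p.Prime :=
    fun n => Nat.exists_infinite_primes _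
  choose p hp1 hp2 using hp
  refine ⟨g, p, m, q, N, ρ, hp2, fun n => le_trans (le_max_left _ _) (hp1 n),
    fun n => Nat.succ_pos _, fun n => Nat.lt_succ_self _, ?_, ?_, h1, h2, h3, h4⟩
  · intro n
    have h2n : (0 : ℝ) < (1 / 2 : ℝ) ^ n := by positivity
    have : ((m n : ℕ) : ℝ) = 4 * ((n : ℝ) + 1) ^ 2 * 2 ^ n + 1 := by rw [hm]; push_cast; ring
    rw [this]
    have h3 : (1 / 2 : ℝ) ^ n * 2 ^ n = 1 := by rw [← mul_pow]; norm_num
    nlinarith
  · intro n
    have h2n : (0 : ℝ) < (1 / 2 : ℝ) ^ n := by positivity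
    have h5 : 4 * (g n) ^ 3 * (n + 1) ^ 2 * 2 ^ n + 1 ≤ p n := le_trans (le_max_right _ _) (hp1 n)
    have h6 : 4 * (g n : ℝ) ^ 3 * ((n : ℝ) + 1) ^ 2 * 2 ^ n + 1 ≤ p n := by exact_mod_cast h5
    have h3 : (1 / 2 : ℝ) ^ n * 2 ^ n = 1 := by rw [← mul_pow]; norm_num
    have h7 : (1 / 2 : ℝ) ^ n * (4 * (g n : ℝ) ^ 3 * ((n : ℝ) + 1) ^ 2 * 2 ^ n + 1) ≤
        (1 / 2 : ℝ) ^ n * p n := mul_le_mul_of_nonneg_left h6 h2n.le
    have h8 : (1 / 2 : ℝ) ^ n * (4 * (g n : ℝ) ^ 3 * ((n : ℝ) + 1) ^ 2 * 2 ^ n + 1) =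
        4 * (g n : ℝ) ^ 3 * ((n : ℝ) + 1) ^ 2 * ((1 / 2 : ℝ) ^ n * 2 ^ n) + (1 / 2 : ℝ) ^ n := by
      ring
    rw [h8, h3] at h7
    linarith

theorem sph_rank {g : ℕ} (N : Fin g → Finset (Fin g)) (ρ : Fin g → ℕ)
    (h : ∀ v, ∀ y ∈ N v, ρ v < ρ y) (k : ℕ) (v u : Fin g) (hu : u ∈ sph N k v) :
    ρ v + k ≤ ρ u := by
  induction k generalizing u with
  | zero => simp [sph] at hu; simp [hu]
  | succ k ih =>
    simp only [sph, Finset.mem_biUnion] at hu
    obtain ⟨w, hw, huw⟩ := hu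
    have := ih w hw
    have := h w u huw
    omega

section
variable {E : Type} [NormedAddCommGroup E] [Lattice E] [HasSolidNorm E] [IsOrderedAddMonoid E]
  [NormedSpace ℝ E] [PosSMulMono ℝ E] [CompleteSpace E] {V : Type}

/-- expansion of an entry of a product as a finite sum -/
theorem entry_mul (At : Atomic E V) (A B : E →L[ℝ] E) (j v : V) {g : ℕ} (c : Fin g → V)
    (hc : Function.Injective c)
    (h : ∀ k, (∀ w, k ≠ c w) → At.π k (B (At.e j)) ≠ 0 → At.π v (A (At.e k)) = 0) :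
    At.π v (A (B (At.e j))) = ∑ u, At.π (c u) (B (At.e j)) * At.π v (A (At.e (c u))) := by
  set hh : E := B (At.e j) - ∑ u, At.π (c u) (B (At.e j)) • At.e (c u) with hhh
  have h0 : ((At.π v).comp A) hh = 0 := by
    apply At.apply_eq_zero
    intro k hk
    by_cases hk' : ∃ w, k = c w
    · obtain ⟨w, rfl⟩ := hk'
      exfalso
      apply hk
      rw [hhh, map_sub, map_sum]
      rw [Finset.sum_eq_single w]
      · rw [map_smul, At.e_self]; simp
      · intro u _ huw
        rw [map_smul, At.e_ne _ _ (fun h => huw (hc h))]; simp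
      · intro h; exact absurd (Finset.mem_univ w) h
    · push Not at hk'
      have h1 : At.π k hh = At.π k (B (At.e j)) := by
        rw [hhh, map_sub, map_sum, Finset.sum_eq_zero, sub_zero]
        intro u _
        rw [map_smul, At.e_ne _ _ (fun h => hk' u h.symm)]; simp
      rw [h1] at hk
      exact h k hk' hk
  rw [hhh, map_sub, sub_eq_zero, map_sum] at h0
  rw [show At.π v (A (B (At.e j))) = ((At.π v).comp A) (B (At.e j)) from rfl, h0]
  apply Finset.sum_congr rfl
  intro u _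
  rw [map_smul, smul_eq_mul]; rfl

end

theorem main : ∃ (E : Type) (_ : NormedAddCommGroup E) (_ : Lattice E) (_ : HasSolidNorm E)
      (_ : IsOrderedAddMonoid E) (_ : NormedSpace ℝ E) (_ : PosSMulMono ℝ E) (_ : CompleteSpace E)
      (C : E →L[ℝ] E), Pos C ∧ IsCompactOperator C ∧
      Tendsto (fun n : ℕ => ‖C ^ n‖ ^ (1 / (n : ℝ))) atTop (𝓝 0) ∧
      ∀ A B : E →L[ℝ] E, Pos A → Pos B → (IsCompactOperator A ∨ IsCompactOperator B) →
        C ≠ A * B - B * A := by
  classical
  obtain ⟨g, p, m, q, N, ρ, hpp, hgp, hm, hq, hm2, hp2, h1, h2, h3, h4⟩ := exists_params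
  have : ∀ n, Fact (p n).Prime := fun n => ⟨hpp n⟩
  obtain ⟨R, hR1, hR2, hR3⟩ := exists_rank p g ρ
  set S : Jt p g → Finset (Vt p g) := fun j =>
    (Sb (N j.1) j.2.1 j.2.2.1 j.2.2.2).map ⟨Sigma.mk j.1, sigma_mk_injective⟩ with hSdef
  have hSmem : ∀ (j : Jt p g) (x : Vt p g), x ∈ S j ↔ ∃ y ∈ Sb (N j.1) j.2.1 j.2.2.1 j.2.2.2,
      (⟨j.1, y⟩ : Vt p g) = x := by
    intro j x
    simp [hSdef, Finset.mem_map]
  have hSmem' : ∀ (n : ℕ) (v : Fin (g n)) (a : ZMod (p n)) (k : ℕ)
      (y : (ZMod (p n) × ZMod (p n)) × Fin (g n)),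
      (⟨n, y⟩ : Vt p g) ∈ S ⟨n, (v, a, k)⟩ ↔ y ∈ Sb (N n) v a k := by
    intro n v a k y
    rw [hSmem]
    constructor
    · rintro ⟨z, hz, hzy⟩
      have : z = y := vt_inj hzy
      rwa [this] at hz
    · intro h; exact ⟨y, h, rfl⟩
  have hS : ∀ x, ∃ j, x ∈ S j := by
    rintro ⟨n, f, v⟩
    refine ⟨⟨n, (v, f.1 * ((v : ℕ) : ZMod (p n)) + f.2, 0)⟩, ?_⟩
    rw [hSmem']
    simp [Sb, sph]
  have hfin : ∀ x, {j | x ∈ S j}.Finite := by
    rintro ⟨n, f, u⟩
    have hsub : {j : Jt p g | (⟨n, (f, u)⟩ : Vt p g) ∈ S j} ⊆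
        Set.range (fun t : Fin (g n) × ZMod (p n) × Fin (ρ n u + 1) =>
          (⟨n, (t.1, t.2.1, (t.2.2 : ℕ))⟩ : Jt p g)) := by
      rintro ⟨n', v, a, k⟩ hj
      obtain ⟨y, hy, hyx⟩ := (hSmem _ _).1 hj
      have hn : n' = n := congrArg Sigma.fst hyx
      subst hn
      have hy' : y = (f, u) := vt_inj hyx
      subst hy'
      simp only [Sb, Finset.mem_filter, Finset.mem_univ, true_and] at hy
      have := sph_rank (N n') (ρ n') (h1 n') k v u hy.2
      exact ⟨(v, a, ⟨k, by omega⟩), rfl⟩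
    exact (Set.finite_range _).subset hsub
  obtain ⟨E, i1, i2, i3, i4, i5, i6, i7, At, hN1, hN2⟩ := exists_space S hS hfin
  refine ⟨E, i1, i2, i3, i4, i5, i6, i7, ?_⟩
  -- sums over S
  have hSsum : ∀ (n : ℕ) (v : Fin (g n)) (a : ZMod (p n)) (k : ℕ) (F : Vt p g → ℝ),
      ∑ x ∈ S ⟨n, (v, a, k)⟩, F x = ∑ y ∈ Sb (N n) v a k, F ⟨n, y⟩ := by
    intro n v a k F
    rw [hSdef]
    exact Finset.sum_map _ _ _
  have hπ : ∀ (x : Vt p g) (f : E), |At.π x f| ≤ ‖f‖ := by
    intro x f
    obtain ⟨j, hj⟩ := hS x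
    exact (Finset.single_le_sum (f := fun x => |At.π x f|) (fun y _ => abs_nonneg _) hj).trans
      (hN1 f j)
  have he : ∀ x : Vt p g, ‖At.e x‖ ≤ 1 := by
    intro x
    apply hN2 _ _ zero_le_one
    intro j
    have h5 : ∀ y ∈ S j, |At.π y (At.e x)| = if x = y then 1 else 0 := by
      intro y _
      by_cases hxy : x = y
      · subst hxy; rw [At.e_self]; simp
      · rw [At.e_ne x y hxy]; simp [hxy]
    rw [Finset.sum_congr rfl h5]
    rw [Finset.sum_ite_eq]
    split_ifs <;> norm_num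
  have hπn : ∀ x : Vt p g, ‖At.π x‖ ≤ 1 := by
    intro x
    apply ContinuousLinearMap.opNorm_le_bound _ zero_le_one
    intro f
    rw [one_mul, Real.norm_eq_abs]; exact hπ x f
  have hkap : ∀ x y : Vt p g, ‖kap At x y‖ ≤ 1 := by
    intro x y
    apply ContinuousLinearMap.opNorm_le_bound _ zero_le_one
    intro f
    rw [kap_apply, norm_smul, one_mul]
    calc ‖At.π x f‖ * ‖At.e y‖ ≤ ‖f‖ * 1 := by
          apply mul_le_mul _ (he y) (norm_nonneg _) (norm_nonneg _)
          rw [Real.norm_eq_abs]; exact hπ x f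
      _ = ‖f‖ := mul_one _
  -- block operators
  set blk : ∀ n : ℕ, Finset (Vt p g × Vt p g) := fun n =>
    (Finset.univ.filter (fun z : (ZMod (p n) × ZMod (p n)) × Fin (g n) × Fin (g n) =>
      z.2.2 ∈ N n z.2.1)).map ⟨fun z => ((⟨n, (z.1, z.2.2)⟩ : Vt p g), (⟨n, (z.1, z.2.1)⟩ : Vt p g)), by
        rintro ⟨f, v, j⟩ ⟨f', v', j'⟩ h
        have e1 : (f, j) = (f', j') := vt_inj (congrArg Prod.fst h)
        have e2 : (f, v) = (f', v') := vt_inj (congrArg Prod.snd h)
        have e3 : f = f' := congrArg Prod.fst e1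
        have e4 : j = j' := congrArg Prod.snd e1
        have e5 : v = v' := congrArg Prod.snd e2
        rw [e3, e4, e5]⟩ with hblk
  have hblk_sum : ∀ (n : ℕ) (F : Vt p g × Vt p g → E), ∑ t ∈ blk n, F t =
      ∑ f : ZMod (p n) × ZMod (p n), ∑ v : Fin (g n), ∑ j ∈ N n v,
        F (⟨n, (f, j)⟩, ⟨n, (f, v)⟩) := by
    intro n F
    rw [hblk]
    simp only [Finset.sum_map, Function.Embedding.coeFn_mk]
    rw [Finset.sum_filter, Fintype.sum_prod_type]
    apply Finset.sum_congr rfl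
    intro f _
    rw [Fintype.sum_prod_type]
    apply Finset.sum_congr rfl
    intro v _
    rw [← Finset.sum_filter]
    apply Finset.sum_congr
    · ext j; simp
    · intro j _; rfl
  have hblk_mem : ∀ (n : ℕ) (f : ZMod (p n) × ZMod (p n)) (v j : Fin (g n)), j ∈ N n v →
      ((⟨n, (f, j)⟩ : Vt p g), (⟨n, (f, v)⟩ : Vt p g)) ∈ blk n := by
    intro n f v j hj
    rw [hblk]
    simp only [Finset.mem_map, Finset.mem_filter, Finset.mem_univ, true_and,
      Function.Embedding.coeFn_mk]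
    exact ⟨(f, v, j), hj, rfl⟩
  have hblk_tri : ∀ n, ∀ t ∈ blk n, R t.2 < R t.1 := by
    intro n t ht
    rw [hblk] at ht
    simp only [Finset.mem_map, Finset.mem_filter, Finset.mem_univ, true_and,
      Function.Embedding.coeFn_mk] at ht
    obtain ⟨⟨f, v, j⟩, hj, rfl⟩ := ht
    exact hR2 n f v j (h1 n v j hj)
  set K : ℕ → (E →L[ℝ] E) := fun n => ∑ t ∈ blk n, kap At t.1 t.2 with hK
  have hKapp : ∀ (n : ℕ) (φ : E), K n φ = ∑ f : ZMod (p n) × ZMod (p n), ∑ v : Fin (g n),
      ∑ j ∈ N n v, At.π ⟨n, (f, j)⟩ φ • At.e (⟨n, (f, v)⟩ : Vt p g) := by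
    intro n φ
    rw [← hblk_sum n (fun t => At.π t.1 φ • At.e t.2), hK]
    simp only [ContinuousLinearMap.sum_apply, kap_apply]
  have hKcoord : ∀ (n : ℕ) (φ : E) (f : ZMod (p n) × ZMod (p n)) (v : Fin (g n)),
      At.π ⟨n, (f, v)⟩ (K n φ) = ∑ j ∈ N n v, At.π ⟨n, (f, j)⟩ φ := by
    intro n φ f v
    rw [hKapp, map_sum, Finset.sum_eq_single f]
    · rw [map_sum, Finset.sum_eq_single v]
      · rw [map_sum]
        apply Finset.sum_congr rfl
        intro j _
        rw [map_smul, At.e_self]; simp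
      · intro v' _ hv'
        rw [map_sum, Finset.sum_eq_zero]
        intro j _
        rw [map_smul, At.e_ne]
        · simp
        · intro h; apply hv'; exact congrArg Prod.snd (show (f, v') = (f, v) from vt_inj h)
      · intro h; exact absurd (Finset.mem_univ v) h
    · intro f' _ hf'
      rw [map_sum, Finset.sum_eq_zero]
      intro v' _
      rw [map_sum, Finset.sum_eq_zero]
      intro j _
      rw [map_smul, At.e_ne]
      · simp
      · intro h; apply hf'
        have : (f', v') = (f, v) := vt_inj h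
        exact congrArg Prod.fst this
    · intro h; exact absurd (Finset.mem_univ f) h
  have hKcoord' : ∀ (n n' : ℕ) (φ : E) (y : (ZMod (p n') × ZMod (p n')) × Fin (g n')), n' ≠ n →
      At.π ⟨n', y⟩ (K n φ) = 0 := by
    intro n n' φ y hn
    rw [hKapp, map_sum, Finset.sum_eq_zero]
    intro f _
    rw [map_sum, Finset.sum_eq_zero]
    intro v _
    rw [map_sum, Finset.sum_eq_zero]
    intro j _
    rw [map_smul, At.e_ne]
    · simp
    · intro h; apply hn; exact (congrArg Sigma.fst h).symm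
  have hKn : ∀ n, ‖K n‖ ≤ 1 := by
    intro n
    apply ContinuousLinearMap.opNorm_le_bound _ zero_le_one
    intro φ
    rw [one_mul]
    apply hN2 _ _ (norm_nonneg _)
    rintro ⟨n', v, a, k⟩
    rw [hSsum]
    by_cases hn : n' = n
    · subst hn
      have h5 := contraction_block (N n') (h2 n') (fun y => At.π (⟨n', y⟩ : Vt p g) φ) v a k
      have h6 : ∑ y ∈ Sb (N n') v a k, |At.π (⟨n', y⟩ : Vt p g) (K n' φ)| =
          ∑ x ∈ Sb (N n') v a k, |∑ j ∈ N n' x.2, At.π (⟨n', (x.1, j)⟩ : Vt p g) φ| := by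
        apply Finset.sum_congr rfl
        rintro ⟨f, u⟩ _
        rw [hKcoord]
      rw [h6]
      refine h5.trans ?_
      have h7 := hN1 φ ⟨n', (v, a, k + 1)⟩
      rwa [hSsum] at h7
    · rw [Finset.sum_eq_zero]
      · exact norm_nonneg _
      · intro y _
        rw [hKcoord' n n' φ y hn]; simp
  -- the link weights
  have hcount : Countable (Vt p g) := by infer_instance
  obtain ⟨code, hcode⟩ := exists_injective_nat (Vt p g)
  set τ : Vt p g → ℝ := fun x => (1 / 2) ^ code x with hτ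
  have hτ0 : ∀ x, 0 < τ x := fun x => by rw [hτ]; positivity
  have hτs : Summable τ := by
    have : Summable fun n : ℕ => (1 / 2 : ℝ) ^ n := summable_geometric_two
    exact this.comp_injective hcode
  have hττ : Summable fun t : Vt p g × Vt p g => τ t.1 * τ t.2 :=
    hτs.mul_of_nonneg hτs (fun x => (hτ0 x).le) (fun x => (hτ0 x).le)
  set F : ℕ ⊕ (Vt p g × Vt p g) → (E →L[ℝ] E) := fun i => match i with
    | Sum.inl n => (1 / 2 : ℝ) ^ n • K n
    | Sum.inr t => if R t.2 < R t.1 then (τ t.1 * τ t.2) • kap At t.1 t.2 else 0 with hF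
  set T : ℕ ⊕ (Vt p g × Vt p g) → Finset (Vt p g × Vt p g) := fun i => match i with
    | Sum.inl n => blk n
    | Sum.inr t => if R t.2 < R t.1 then {t} else ∅ with hT
  set c : ℕ ⊕ (Vt p g × Vt p g) → Vt p g × Vt p g → ℝ := fun i _ => match i with
    | Sum.inl n => (1 / 2 : ℝ) ^ n
    | Sum.inr t => τ t.1 * τ t.2 with hc
  have hsum : Summable fun i => ‖F i‖ := by
    apply Summable.sum
    · apply Summable.of_nonneg_of_le (fun n => norm_nonneg _) _ summable_geometric_two
      intro n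
      show ‖(1 / 2 : ℝ) ^ n • K n‖ ≤ _
      rw [norm_smul, Real.norm_of_nonneg (by positivity)]
      have : (0 : ℝ) ≤ (1 / 2) ^ n := by positivity
      calc (1 / 2 : ℝ) ^ n * ‖K n‖ ≤ (1 / 2) ^ n * 1 := mul_le_mul_of_nonneg_left (hKn n) this
        _ = _ := mul_one _
    · apply Summable.of_nonneg_of_le (fun n => norm_nonneg _) _ hττ
      intro t
      show ‖(if R t.2 < R t.1 then (τ t.1 * τ t.2) • kap At t.1 t.2 else 0 : E →L[ℝ] E)‖ ≤ _
      have h5 : 0 ≤ τ t.1 * τ t.2 := mul_nonneg (hτ0 _).le (hτ0 _).le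
      split_ifs
      · rw [norm_smul, Real.norm_of_nonneg h5]
        calc τ t.1 * τ t.2 * ‖kap At t.1 t.2‖ ≤ τ t.1 * τ t.2 * 1 :=
              mul_le_mul_of_nonneg_left (hkap _ _) h5
          _ = _ := mul_one _
      · rw [norm_zero]; exact h5
  obtain ⟨hC1, hC2, hC3, hC4, hC5⟩ := series At F T c
    (by
      rintro (n | t) s
      · show (0 : ℝ) ≤ (1 / 2) ^ n; positivity
      · exact mul_nonneg (hτ0 _).le (hτ0 _).le)
    (by
      rintro (n | t)
      · show (1 / 2 : ℝ) ^ n • K n = ∑ t ∈ blk n, (1 / 2 : ℝ) ^ n • kap At t.1 t.2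
        rw [hK, Finset.smul_sum]
      · show (if R t.2 < R t.1 then (τ t.1 * τ t.2) • kap At t.1 t.2 else 0 : E →L[ℝ] E) =
          ∑ s ∈ (if R t.2 < R t.1 then {t} else ∅ : Finset (Vt p g × Vt p g)),
            (τ t.1 * τ t.2) • kap At s.1 s.2
        split_ifs <;> simp)
    hsum R
    (by
      rintro (n | t)
      · exact hblk_tri n
      · intro s hs
        have hs' : s ∈ (if R t.2 < R t.1 then {t} else ∅ : Finset (Vt p g × Vt p g)) := hs
        split_ifs at hs' with h5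
        · rw [Finset.mem_singleton] at hs'; rw [hs']; exact h5
        · exact absurd hs' (Finset.notMem_empty _))
  set C : E →L[ℝ] E := ∑' i, F i with hCdef
  clear_value C
  refine ⟨C, hC1, hC2, quasinil At R C hC3 hC4, ?_⟩
  intro A B hA hB hAB hCeq
  have hlink : ∀ x y : Vt p g, R y < R x → At.π x (A (At.e y)) = 0 ∧ At.π x (B (At.e y)) = 0 := by
    intro x y hxy
    have h5 : τ x * τ y ≤ At.π y (C (At.e x)) := by
      have := hC5 (Sum.inr (x, y)) (x, y) (by
        show (x, y) ∈ (if R y < R x then {(x, y)} else ∅ : Finset (Vt p g × Vt p g))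
        rw [if_pos hxy]; exact Finset.mem_singleton_self _)
      exact this
    have h6 : 0 < At.π y (C (At.e x)) := lt_of_lt_of_le (mul_pos (hτ0 x) (hτ0 y)) h5
    rw [hCeq] at h6 hC1
    exact lemmaT At A B hA hB hAB hC1 x y h6
  have hedge : ∀ (n : ℕ) (f : ZMod (p n) × ZMod (p n)) (v j : Fin (g n)), j ∈ N n v →
      (1 / 2 : ℝ) ^ n ≤ At.π (⟨n, (f, v)⟩ : Vt p g) (C (At.e ⟨n, (f, j)⟩)) := by
    intro n f v j hj
    exact hC5 (Sum.inl n) (⟨n, (f, j)⟩, ⟨n, (f, v)⟩) (hblk_mem n f v j hj)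
  obtain ⟨n, hn⟩ := exists_nat_ge (max ‖A‖ ‖B‖)
  have hAn : ‖A‖ ≤ (n : ℝ) + 1 := by have := (le_max_left ‖A‖ ‖B‖).trans hn; linarith
  have hBn : ‖B‖ ≤ (n : ℝ) + 1 := by have := (le_max_right ‖A‖ ‖B‖).trans hn; linarith
  -- general facts for an operator
  have hent : ∀ (G : E →L[ℝ] E), ‖G‖ ≤ (n : ℝ) + 1 → ∀ x y : Vt p g, At.π y (G (At.e x)) ≤ n + 1 := by
    intro G hG x y
    calc At.π y (G (At.e x)) ≤ |At.π y (G (At.e x))| := le_abs_self _
      _ ≤ ‖G (At.e x)‖ := hπ _ _
      _ ≤ ‖G‖ * ‖At.e x‖ := G.le_opNorm _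
      _ ≤ ((n : ℝ) + 1) * 1 := mul_le_mul hG (he x) (norm_nonneg _) (by positivity)
      _ = _ := mul_one _
  have hrig : ∀ (G : E →L[ℝ] E), Pos G → ‖G‖ ≤ (n : ℝ) + 1 → ∀ (v κ : Fin (g n)) (a : ZMod (p n)),
      (∀ k, κ ∉ sph (N n) k v) →
      ∑ f ∈ univ.filter (fun f : ZMod (p n) × ZMod (p n) => f.1 * ((v : ℕ) : ZMod (p n)) + f.2 = a),
        At.π (⟨n, (f, v)⟩ : Vt p g) (G (At.e ⟨n, (f, κ)⟩)) ≤ (n : ℝ) + 1 := by
    intro G hG hGn v κ a hκ
    set Fs := univ.filter
      (fun f : ZMod (p n) × ZMod (p n) => f.1 * ((v : ℕ) : ZMod (p n)) + f.2 = a) with hFs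
    set h : E := ∑ f ∈ Fs, At.e (⟨n, (f, κ)⟩ : Vt p g) with hh
    have hinj : Function.Injective (fun f : ZMod (p n) × ZMod (p n) => (⟨n, (f, κ)⟩ : Vt p g)) := by
      intro f f' hff
      have : (f, κ) = (f', κ) := vt_inj hff
      exact congrArg Prod.fst this
    have hcoord : ∀ y : Vt p g, |At.π y h| = ∑ f ∈ Fs, if (⟨n, (f, κ)⟩ : Vt p g) = y then (1 : ℝ) else 0 := by
      intro y
      rw [hh, map_sum]
      have h5 : ∀ f ∈ Fs, At.π y (At.e (⟨n, (f, κ)⟩ : Vt p g)) =
          if (⟨n, (f, κ)⟩ : Vt p g) = y then (1 : ℝ) else 0 := by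
        intro f _
        split_ifs with h6
        · rw [h6, At.e_self]
        · rw [At.e_ne _ _ h6]
      rw [Finset.sum_congr rfl h5, abs_of_nonneg]
      exact Finset.sum_nonneg fun f _ => by split_ifs <;> norm_num
    have hh1 : ‖h‖ ≤ 1 := by
      apply hN2 _ _ zero_le_one
      rintro ⟨n', v', a', k⟩
      rw [hSsum]
      by_cases hn' : n' = n
      · subst hn'
        have h5 : ∑ y ∈ Sb (N n') v' a' k, |At.π (⟨n', y⟩ : Vt p g) h| =
            ∑ f ∈ Fs, ∑ y ∈ Sb (N n') v' a' k, if (f, κ) = y then (1 : ℝ) else 0 := by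
          rw [Finset.sum_comm]
          apply Finset.sum_congr rfl
          intro y _
          rw [hcoord]
          apply Finset.sum_congr rfl
          intro f _
          by_cases hy : (f, κ) = y
          · rw [if_pos hy, if_pos (by rw [hy])]
          · rw [if_neg hy, if_neg]
            intro h6; apply hy; exact vt_inj h6
        rw [h5]
        have h6 : ∀ f ∈ Fs, (∑ y ∈ Sb (N n') v' a' k, if (f, κ) = y then (1 : ℝ) else 0) =
            if (f, κ) ∈ Sb (N n') v' a' k then 1 else 0 := by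
          intro f _
          rw [Finset.sum_ite_eq]
        rw [Finset.sum_congr rfl h6, ← Finset.sum_filter, Finset.sum_const, nsmul_eq_mul, mul_one]
        exact_mod_cast card_block (hgp n') (N n') v κ hκ a v' a' k
      · rw [Finset.sum_eq_zero]
        · exact zero_le_one
        · intro y _
          rw [hcoord, Finset.sum_eq_zero]
          intro f _
          rw [if_neg]
          intro h6; apply hn'; exact (congrArg Sigma.fst h6).symm
    have hh0 : 0 ≤ h := Finset.sum_nonneg fun f _ => At.e_nonneg _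
    have h5 := hN1 (G h) ⟨n, (v, a, 0)⟩
    rw [hSsum] at h5
    have h6 : ∀ f ∈ Fs, At.π (⟨n, (f, v)⟩ : Vt p g) (G (At.e ⟨n, (f, κ)⟩)) ≤
        |At.π (⟨n, (f, v)⟩ : Vt p g) (G h)| := by
      intro f hf
      refine le_trans ?_ (le_abs_self _)
      apply (At.le_iff _ _).1
      apply hG.mono
      rw [hh]
      exact Finset.single_le_sum (f := fun f => At.e (⟨n, (f, κ)⟩ : Vt p g))
        (fun f _ => At.e_nonneg _) hf
    calc ∑ f ∈ Fs, At.π (⟨n, (f, v)⟩ : Vt p g) (G (At.e ⟨n, (f, κ)⟩)) ≤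
        ∑ f ∈ Fs, |At.π (⟨n, (f, v)⟩ : Vt p g) (G h)| := Finset.sum_le_sum h6
      _ = ∑ y ∈ Sb (N n) v a 0, |At.π (⟨n, y⟩ : Vt p g) (G h)| := by
          symm
          apply Finset.sum_nbij' (fun y => y.1) (fun f => (f, v))
          · rintro ⟨f, u⟩ hy
            simp only [Sb, Finset.mem_filter, Finset.mem_univ, true_and, sph,
              Finset.mem_singleton] at hy
            simp only [hFs, Finset.mem_filter, Finset.mem_univ, true_and]
            exact hy.1
          · intro f hf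
            simp only [hFs, Finset.mem_filter, Finset.mem_univ, true_and] at hf
            simp only [Sb, Finset.mem_filter, Finset.mem_univ, true_and, sph,
              Finset.mem_singleton]
            exact ⟨hf, trivial⟩
          · rintro ⟨f, u⟩ hy
            simp only [Sb, Finset.mem_filter, Finset.mem_univ, true_and, sph,
              Finset.mem_singleton] at hy
            rw [hy.2]
          · intro f _; rfl
          · rintro ⟨f, u⟩ hy
            simp only [Sb, Finset.mem_filter, Finset.mem_univ, true_and, sph,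
              Finset.mem_singleton] at hy
            rw [hy.2]
      _ ≤ ‖G h‖ := h5
      _ ≤ ‖G‖ * ‖h‖ := G.le_opNorm _
      _ ≤ ((n : ℝ) + 1) * 1 := mul_le_mul hGn hh1 (norm_nonneg _) (by positivity)
      _ = _ := mul_one _
  -- products
  have hprod : ∀ G H : E →L[ℝ] E, (∀ x y : Vt p g, R y < R x → At.π x (G (At.e y)) = 0) →
      (∀ x y : Vt p g, R y < R x → At.π x (H (At.e y)) = 0) →
      ∀ (f : ZMod (p n) × ZMod (p n)) (v j : Fin (g n)),
      At.π (⟨n, (f, v)⟩ : Vt p g) (G (H (At.e ⟨n, (f, j)⟩))) =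
        ∑ u, At.π (⟨n, (f, u)⟩ : Vt p g) (H (At.e ⟨n, (f, j)⟩)) *
          At.π (⟨n, (f, v)⟩ : Vt p g) (G (At.e ⟨n, (f, u)⟩)) := by
    intro G H hG hH f v j
    apply entry_mul At G H (⟨n, (f, j)⟩ : Vt p g) (⟨n, (f, v)⟩ : Vt p g) (fun u => (⟨n, (f, u)⟩ : Vt p g))
    · intro u u' huu
      have : (f, u) = (f, u') := vt_inj huu
      exact congrArg Prod.snd this
    · intro k hk hne
      by_contra hne2
      have h5 : R k ≤ R ⟨n, (f, j)⟩ := by
        by_contra hcon
        push Not at hcon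
        exact hne (hH k _ hcon)
      have h6 : R ⟨n, (f, v)⟩ ≤ R k := by
        by_contra hcon
        push Not at hcon
        exact hne2 (hG _ k hcon)
      obtain ⟨w, hw⟩ := hR3 n f v j k h6 h5
      exact hk w hw
  refine block_contra (g n) (p n) (N n) (fun v hv => lt_irrefl _ (h1 n v v hv)) (h3 n)
    ((n : ℝ) + 1) ((1 / 2) ^ n) (by positivity) (by positivity) (m n) (q n) (hm n) (hq n)
    (hm2 n) (hp2 n) (h4 n)
    (fun f x y => At.π (⟨n, (f, y)⟩ : Vt p g) (A (At.e ⟨n, (f, x)⟩)))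
    (fun f x y => At.π (⟨n, (f, y)⟩ : Vt p g) (B (At.e ⟨n, (f, x)⟩)))
    (fun f x y => entry_nonneg At hA _ _) (fun f x y => entry_nonneg At hB _ _)
    (fun f x y => hent A hAn _ _) (fun f x y => hent B hBn _ _)
    (fun v κ a hκ => hrig A hA hAn v κ a hκ) (fun v κ a hκ => hrig B hB hBn v κ a hκ) ?_
  intro f v j hj
  have h5 := hedge n f v j hj
  have h6 : At.π (⟨n, (f, v)⟩ : Vt p g) (C (At.e ⟨n, (f, j)⟩)) =
      At.π (⟨n, (f, v)⟩ : Vt p g) (A (B (At.e ⟨n, (f, j)⟩))) -
      At.π (⟨n, (f, v)⟩ : Vt p g) (B (A (At.e ⟨n, (f, j)⟩))) := by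
    rw [hCeq, ← map_sub]; rfl
  rw [h6, hprod A B (fun x y h => (hlink x y h).1) (fun x y h => (hlink x y h).2),
    hprod B A (fun x y h => (hlink x y h).2) (fun x y h => (hlink x y h).1),
    ← Finset.sum_sub_distrib] at h5
  exact h5


end

end PC

/-- The negation of the preceding statement: On every real Banach lattice, each positive compact operator C with ‖Cⁿ‖^(1/n) → 0 equals AB − BA for some positive bounded operators A, B, at least one of which is compact. -/
theorem result :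
    ¬ (∀ (E : Type) [NormedAddCommGroup E] [Lattice E] [HasSolidNorm E] [IsOrderedAddMonoid E]
      [NormedSpace ℝ E] [PosSMulMono ℝ E] [CompleteSpace E] (C : E →L[ℝ] E),
      (∀ x : E, 0 ≤ x → 0 ≤ C x) →
      IsCompactOperator C →
      Filter.Tendsto (fun n : ℕ => ‖C ^ n‖ ^ (1 / (n : ℝ))) Filter.atTop (nhds 0) →
      ∃ A B : E →L[ℝ] E,
        (∀ x : E, 0 ≤ x → 0 ≤ A x) ∧
        (∀ x : E, 0 ≤ x → 0 ≤ B x) ∧
        (IsCompactOperator A ∨ IsCompactOperator B) ∧
        C = A * B - B * A) := by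
  intro h
  obtain ⟨E, i1, i2, i3, i4, i5, i6, i7, C, hC1, hC2, hC3, hC4⟩ := PC.main
  obtain ⟨A, B, hA, hB, hAB, hC⟩ := h E C hC1 hC2 hC3
  exact hC4 A B hA hB hAB hC

end Pool.Agent.S03102
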