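import Pool.Statements.S03108
import Pool.Agent.Helper268.Assoc5

set_option autoImplicit false
open Pool Pool.MP_4e7b39_an

namespace Pool.Agent.S03108

/-- The negation of the preceding statement: Every continuous map of the plane to itself equals a finite composition of continuous plane maps (f,g) in which both f and g, viewed as binary operations on the reals, are associative. -/
theorem result :
    ¬ (∀ T : ℝ × ℝ → ℝ × ℝ, Continuous T →
      ∃ L : List (ℝ × ℝ → ℝ × ℝ),
        (∀ S ∈ L, Continuous S ∧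
          (∀ a b c : ℝ, (S ((S (a, b)).1, c)).1 = (S (a, (S (b, c)).1)).1) ∧
          (∀ a b c : ℝ, (S ((S (a, b)).2, c)).2 = (S (a, (S (b, c)).2)).2)) ∧
        T = L.foldr (fun S R => S ∘ R) id) := by
  intro hall
  obtain ⟨L, hL, hT⟩ := hall (fun p => -p) continuous_neg
  have hH := Pool.Agent.Helper268.Assoc.homeo_list L (fun S hS => (hL S hS).1)
    (Homeomorph.neg (ℝ × ℝ)) (fun z => by rw [← hT]; rfl)
  have hup : Pool.Agent.Helper268.Assoc.Up (fun p : ℝ × ℝ => -p) := by
    rw [hT]
    refine Pool.Agent.Helper268.Assoc.up_list L (fun S hS => ?_)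
    obtain ⟨S', hS'⟩ := hH S hS
    obtain ⟨-, h1, h2⟩ := hL S hS
    have hSS : S = S' := funext fun z => (hS' z).symm
    subst hSS
    exact Pool.Agent.Helper268.Assoc.up_of_homeo S' h1 h2
  obtain ⟨K, hK⟩ := hup 1
  obtain ⟨h1, -⟩ := hK (max K 0) (max K 0) (le_max_left _ _) (le_max_left _ _)
  have h2 : (1 : ℝ) ≤ -(max K 0) := h1
  have h3 : (0 : ℝ) ≤ max K 0 := le_max_right _ _
  linarith

end Pool.Agent.S03108
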