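import Pool.Statements.S03112
import Pool.Agent.Helper224.Usm7

set_option autoImplicit false
open Filter Topology
open Pool Pool.MP_4fad3e_an

namespace Pool.Agent.S03112

/-- The negation of the preceding statement: In a reflexive real Banach space where normalized weakly null sequences have spreading models and all such spreading models are equivalent, each such spreading model is equivalent to the unit vector basis of c0 or of l_p for some p at least 1. -/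
theorem result :
    ¬ (∀ (X : Type) [NormedAddCommGroup X] [NormedSpace ℝ X] [CompleteSpace X],
      (∀ φ : (X →L[ℝ] ℝ) →L[ℝ] ℝ, ∃ x : X, ∀ f : X →L[ℝ] ℝ, φ f = f x) →
      (∃ (x : ℕ → X) (N : ∀ k : ℕ, (Fin k → ℝ) → ℝ),
        (∀ n, ‖x n‖ = 1) ∧
        (∀ f : X →L[ℝ] ℝ, Tendsto (fun n => f (x n)) atTop (𝓝 0)) ∧
        (∀ (k : ℕ) (a : Fin k → ℝ) (ε : ℝ), 0 < ε → ∃ m : ℕ, ∀ n : Fin k → ℕ,
          StrictMono n → (∀ i, m ≤ n i) → |‖∑ i, a i • x (n i)‖ - N k a| < ε)) →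
      (∀ (x y : ℕ → X) (N M : ∀ k : ℕ, (Fin k → ℝ) → ℝ),
        ((∀ n, ‖x n‖ = 1) ∧
          (∀ f : X →L[ℝ] ℝ, Tendsto (fun n => f (x n)) atTop (𝓝 0)) ∧
          (∀ (k : ℕ) (a : Fin k → ℝ) (ε : ℝ), 0 < ε → ∃ m : ℕ, ∀ n : Fin k → ℕ,
            StrictMono n → (∀ i, m ≤ n i) → |‖∑ i, a i • x (n i)‖ - N k a| < ε)) →
        ((∀ n, ‖y n‖ = 1) ∧
          (∀ f : X →L[ℝ] ℝ, Tendsto (fun n => f (y n)) atTop (𝓝 0)) ∧
          (∀ (k : ℕ) (a : Fin k → ℝ) (ε : ℝ), 0 < ε → ∃ m : ℕ, ∀ n : Fin k → ℕ,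
            StrictMono n → (∀ i, m ≤ n i) → |‖∑ i, a i • y (n i)‖ - M k a| < ε)) →
        ∃ C : ℝ, 0 < C ∧ ∀ (k : ℕ) (a : Fin k → ℝ),
          N k a ≤ C * M k a ∧ M k a ≤ C * N k a) →
      ∀ (x : ℕ → X) (N : ∀ k : ℕ, (Fin k → ℝ) → ℝ),
        ((∀ n, ‖x n‖ = 1) ∧
          (∀ f : X →L[ℝ] ℝ, Tendsto (fun n => f (x n)) atTop (𝓝 0)) ∧
          (∀ (k : ℕ) (a : Fin k → ℝ) (ε : ℝ), 0 < ε → ∃ m : ℕ, ∀ n : Fin k → ℕ,
            StrictMono n → (∀ i, m ≤ n i) → |‖∑ i, a i • x (n i)‖ - N k a| < ε)) →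
        (∃ p : ℝ, 1 ≤ p ∧ ∃ C : ℝ, 0 < C ∧ ∀ (k : ℕ) (a : Fin k → ℝ),
            N k a ≤ C * (∑ i, |a i| ^ p) ^ (1 / p) ∧
            (∑ i, |a i| ^ p) ^ (1 / p) ≤ C * N k a) ∨
        (∃ C : ℝ, 0 < C ∧ ∀ (k : ℕ) (a : Fin k → ℝ),
            N k a ≤ C * ‖a‖ ∧ ‖a‖ ≤ C * N k a)) := by
  intro H
  have hmain := H Helper224.Usm.T Helper224.Usm.T_reflexive'
    ⟨Helper224.Usm.e, Helper224.Usm.Ne, Helper224.Usm.norm_e, Helper224.Usm.e_weakly_null,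
      Helper224.Usm.spr_e⟩ (by
      rintro x y N M ⟨hx1, hx2, hx3⟩ ⟨hy1, hy2, hy3⟩
      have hxc := Helper224.Usm.coord_tendsto hx2
      have hyc := Helper224.Usm.coord_tendsto hy2
      obtain ⟨C, hC, h1⟩ := Helper224.Usm.spr_equiv hx1 hxc hx3 hy1 hyc hy3
      obtain ⟨D, hD, h2⟩ := Helper224.Usm.spr_equiv hy1 hyc hy3 hx1 hxc hx3
      refine ⟨max C D, lt_max_of_lt_left hC, fun k a => ⟨?_, ?_⟩⟩
      · exact (h1 k a).trans (mul_le_mul_of_nonneg_right (le_max_left _ _)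
          (Helper224.Usm.spr_nonneg hy3 k a))
      · exact (h2 k a).trans (mul_le_mul_of_nonneg_right (le_max_right _ _)
          (Helper224.Usm.spr_nonneg hx3 k a)))
    Helper224.Usm.e Helper224.Usm.Ne
    ⟨Helper224.Usm.norm_e, Helper224.Usm.e_weakly_null, Helper224.Usm.spr_e⟩
  have hec := Helper224.Usm.coord_tendsto Helper224.Usm.e_weakly_null
  rcases hmain with ⟨p, hp, C, hC, h⟩ | ⟨C, hC, h⟩
  · exact Helper224.Usm.not_lp Helper224.Usm.norm_e hec Helper224.Usm.spr_e p hp C hC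
      fun k a => (h k a).2
  · refine Helper224.Usm.not_c0 Helper224.Usm.norm_e hec Helper224.Usm.spr_e C fun k hk => ?_
    refine (h k (fun _ => 1)).1.trans ?_
    have h1 : ‖(fun _ : Fin k => (1:ℝ))‖ ≤ 1 := by
      rw [pi_norm_le_iff_of_nonneg zero_le_one]
      intro i
      simp
    calc C * ‖(fun _ : Fin k => (1:ℝ))‖ ≤ C * 1 := by gcongr
      _ = C := mul_one _

end Pool.Agent.S03112
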