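import Pool.Statements.S03117

set_option autoImplicit false
open Pool Pool.MP_5053af_an

namespace Pool.Agent.S03117

section Helpers

set_option maxHeartbeats 1000000

open MeasureTheory Filter Topology


noncomputable def S (n : ℕ → ℕ) (m : ℕ) (x : ℝ) : ℝ :=
  ∑ k ∈ Finset.range m, Real.cos ((n k : ℝ) * x)

lemma abs_int_cos (N a b : ℝ) (hN : 0 < N) : |∫ x in a..b, Real.cos (N * x)| ≤ 2 / N := by
  have h := intervalIntegral.integral_comp_mul_left (a := a) (b := b) (fun x => Real.cos x) hN.ne'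
  rw [h, integral_cos, smul_eq_mul, abs_mul, abs_inv, abs_of_pos hN]
  have h1 : |Real.sin (N * b) - Real.sin (N * a)| ≤ 2 := by
    have := Real.abs_sin_le_one (N * b)
    have := Real.abs_sin_le_one (N * a)
    calc _ ≤ |Real.sin (N * b)| + |Real.sin (N * a)| := abs_sub _ _
      _ ≤ 2 := by linarith
  rw [div_eq_inv_mul]
  exact mul_le_mul_of_nonneg_left h1 (by positivity)

section growth
variable {n : ℕ → ℕ} {q : ℝ} (hq : 1 < q) (hpos : ∀ k, 0 < n k)
  (hgap : ∀ k, q * (n k : ℝ) ≤ (n (k + 1) : ℝ))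
include hq hpos hgap

lemma pow_le (k : ℕ) : q ^ k ≤ (n k : ℝ) := by
  induction k with
  | zero => simpa using (Nat.one_le_cast (α := ℝ)).2 (hpos 0)
  | succ k ih =>
    calc q ^ (k + 1) = q * q ^ k := by ring
      _ ≤ q * n k := by gcongr
      _ ≤ _ := hgap k

lemma mono_n {j k : ℕ} (h : j < k) : q * (n j : ℝ) ≤ (n k : ℝ) := by
  induction k with
  | zero => omega
  | succ k ih =>
    rcases Nat.lt_succ_iff_lt_or_eq.1 h with h | h
    · have := ih h
      have h2 := hgap k
      have : (n k : ℝ) ≤ q * n k := by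
        have : (0 : ℝ) ≤ n k := by positivity
        nlinarith
      linarith
    · subst h; exact hgap j

lemma sum_le (m : ℕ) : ∑ k ∈ Finset.range m, (n k : ℝ) ≤ (n m : ℝ) / (q - 1) := by
  have hq1 : 0 < q - 1 := by linarith
  induction m with
  | zero => simp; positivity
  | succ m ih =>
    rw [Finset.sum_range_succ]
    have := hgap m
    rw [le_div_iff₀ hq1] at *
    nlinarith

lemma summable_cube : Summable (fun k : ℕ => ((k : ℝ) + 1) ^ 3 / (n k : ℝ)) := by
  have h1 : ‖q⁻¹‖ < 1 := by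
    rw [norm_inv, Real.norm_of_nonneg (by linarith)]
    exact inv_lt_one_of_one_lt₀ hq
  have h3 := summable_pow_mul_geometric_of_norm_lt_one 3 h1
  have h3' : Summable (fun k : ℕ => q * (((k + 1 : ℕ) : ℝ) ^ 3 * q⁻¹ ^ (k + 1))) :=
    ((summable_nat_add_iff 1).2 h3).mul_left q
  refine Summable.of_nonneg_of_le (fun k => by positivity) (fun k => ?_) h3'
  have hk := pow_le hq hpos hgap k
  have hqk : (0 : ℝ) < q ^ k := by positivity
  calc ((k : ℝ) + 1) ^ 3 / (n k : ℝ) ≤ ((k : ℝ) + 1) ^ 3 / q ^ k := by gcongr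
    _ = _ := by
      push_cast
      have hq0 : q ≠ 0 := by positivity
      rw [inv_pow]
      field_simp
      rw [pow_succ]

end growth

lemma cont_S (n : ℕ → ℕ) (m : ℕ) : Continuous (S n m) := by
  unfold S; fun_prop

lemma S_succ (n : ℕ → ℕ) (m : ℕ) (x : ℝ) : S n (m + 1) x = S n m x + Real.cos ((n m : ℝ) * x) := by
  simp [S, Finset.sum_range_succ]

lemma abs_S_le (n : ℕ → ℕ) (m : ℕ) (x : ℝ) : |S n m x| ≤ m := by
  unfold S
  calc _ ≤ ∑ k ∈ Finset.range m, |Real.cos ((n k : ℝ) * x)| := Finset.abs_sum_le_sum_abs _ _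
    _ ≤ ∑ k ∈ Finset.range m, (1 : ℝ) := Finset.sum_le_sum (fun k _ => Real.abs_cos_le_one _)
    _ = m := by simp

section L
variable {n : ℕ → ℕ} {q : ℝ} (hq : 1 < q) (hpos : ∀ k, 0 < n k)
  (hgap : ∀ k, q * (n k : ℝ) ≤ (n (k + 1) : ℝ))

/-- the summable weight -/
noncomputable def w (n : ℕ → ℕ) (k : ℕ) : ℝ := ((k : ℝ) + 1) ^ 3 / (n k : ℝ)

include hpos in
lemma L1 (a b : ℝ) (m : ℕ) : |∫ x in a..b, S n m x| ≤ 2 * ∑ k ∈ Finset.range m, w n k := by
  unfold S
  rw [intervalIntegral.integral_finsetSum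
    (fun k _ => Continuous.intervalIntegrable (by fun_prop) _ _), Finset.mul_sum]
  refine (Finset.abs_sum_le_sum_abs _ _).trans (Finset.sum_le_sum (fun k _ => ?_))
  have hk : (0 : ℝ) < n k := by exact_mod_cast hpos k
  refine (abs_int_cos _ a b hk).trans ?_
  unfold w
  rw [mul_div_assoc']
  gcongr
  have : (1 : ℝ) ≤ ((k : ℝ) + 1) ^ 3 := one_le_pow₀ (by linarith [Nat.cast_nonneg (α := ℝ) k])
  linarith

include hq hpos hgap in
lemma step2 (a b : ℝ) (m : ℕ) :
    |(∫ x in a..b, S n (m + 1) x ^ 2) - (∫ x in a..b, S n m x ^ 2) - (b - a) / 2|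
      ≤ (3 + 2 * q / (q - 1)) * w n m := by
  have hq1 : 0 < q - 1 := by linarith
  have hm : (0 : ℝ) < n m := by exact_mod_cast hpos m
  have hpt : ∀ x, S n (m + 1) x ^ 2 = S n m x ^ 2 +
      ((∑ k ∈ Finset.range m, (Real.cos (((n m : ℝ) - n k) * x) + Real.cos (((n m : ℝ) + n k) * x)))
        + (1 / 2 + Real.cos ((2 * (n m : ℝ)) * x) / 2)) := by
    intro x
    have h1 : ∑ k ∈ Finset.range m,
        (Real.cos (((n m : ℝ) - n k) * x) + Real.cos (((n m : ℝ) + n k) * x))
        = 2 * S n m x * Real.cos ((n m : ℝ) * x) := by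
      rw [S, Finset.mul_sum, Finset.sum_mul]
      refine Finset.sum_congr rfl (fun k _ => ?_)
      rw [sub_mul, add_mul, Real.cos_sub, Real.cos_add]; ring
    have h2 : Real.cos ((2 * (n m : ℝ)) * x) = 2 * Real.cos ((n m : ℝ) * x) ^ 2 - 1 := by
      rw [mul_assoc, Real.cos_two_mul]
    rw [h1, h2, S_succ]; ring
  have hcS := cont_S n m
  have hc1 : Continuous (fun x => S n m x ^ 2) := by fun_prop
  have e1 : (∫ x in a..b, S n (m + 1) x ^ 2) = (∫ x in a..b, S n m x ^ 2) +
      ((∑ k ∈ Finset.range m, ((∫ x in a..b, Real.cos (((n m : ℝ) - n k) * x))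
        + ∫ x in a..b, Real.cos (((n m : ℝ) + n k) * x)))
        + ((b - a) / 2 + (∫ x in a..b, Real.cos ((2 * (n m : ℝ)) * x)) / 2)) := by
    rw [intervalIntegral.integral_congr (fun x _ => hpt x)]
    rw [intervalIntegral.integral_add (hc1.intervalIntegrable _ _)
      (Continuous.intervalIntegrable (by fun_prop) _ _)]
    rw [intervalIntegral.integral_add (Continuous.intervalIntegrable (by fun_prop) _ _)
      (Continuous.intervalIntegrable (by fun_prop) _ _)]
    rw [intervalIntegral.integral_finsetSum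
      (fun k _ => Continuous.intervalIntegrable (by fun_prop) _ _)]
    rw [intervalIntegral.integral_add (Continuous.intervalIntegrable (by fun_prop) _ _)
      (Continuous.intervalIntegrable (by fun_prop) _ _)]
    congr 2
    · refine Finset.sum_congr rfl (fun k _ => ?_)
      rw [intervalIntegral.integral_add (Continuous.intervalIntegrable (by fun_prop) _ _)
        (Continuous.intervalIntegrable (by fun_prop) _ _)]
    · congr 1
      · simp; ring
      · simp
  rw [e1]
  have e2 : |∑ k ∈ Finset.range m, ((∫ x in a..b, Real.cos (((n m : ℝ) - n k) * x))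
        + ∫ x in a..b, Real.cos (((n m : ℝ) + n k) * x))| ≤
        m * (2 * q / ((q - 1) * n m) + 2 / n m) := by
    calc _ ≤ ∑ k ∈ Finset.range m, |(∫ x in a..b, Real.cos (((n m : ℝ) - n k) * x))
        + ∫ x in a..b, Real.cos (((n m : ℝ) + n k) * x)| := Finset.abs_sum_le_sum_abs _ _
      _ ≤ ∑ k ∈ Finset.range m, (2 * q / ((q - 1) * n m) + 2 / n m) := by
        refine Finset.sum_le_sum (fun k hk => ?_)
        have hk' := mono_n hq hpos hgap (Finset.mem_range.1 hk)
        have hkk : (0 : ℝ) < n k := by exact_mod_cast hpos k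
        have hd : (q - 1) * n m / q ≤ (n m : ℝ) - n k := by
          rw [div_le_iff₀ (by linarith)]
          nlinarith
        have hd0 : 0 < (q - 1) * n m / q := by positivity
        refine (abs_add_le _ _).trans (add_le_add ?_ ?_)
        · refine (abs_int_cos _ a b (hd0.trans_le hd)).trans ?_
          calc 2 / ((n m : ℝ) - n k) ≤ 2 / ((q - 1) * n m / q) := by gcongr
            _ = _ := by field_simp
        · refine (abs_int_cos _ a b (by positivity)).trans ?_
          gcongr
          linarith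
      _ = _ := by simp; ring
  have e3 := abs_int_cos (2 * (n m : ℝ)) a b (by positivity)
  have e4 : (m : ℝ) * (2 * q / ((q - 1) * n m) + 2 / n m) + (2 / (2 * n m)) / 2 ≤
      (3 + 2 * q / (q - 1)) * w n m := by
    unfold w
    have hm1 : (1 : ℝ) ≤ ((m : ℝ) + 1) := by linarith [Nat.cast_nonneg (α := ℝ) m]
    have hm3 : ((m : ℝ) + 1) ≤ ((m : ℝ) + 1) ^ 3 := le_self_pow₀ hm1 (by norm_num)
    have : (m : ℝ) * (2 * q / ((q - 1) * n m) + 2 / n m) + (2 / (2 * n m)) / 2
        = (m * (2 * q / (q - 1) + 2) + 1 / 2) / n m := by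
      field_simp
    rw [this, mul_div_assoc']
    gcongr
    have h0 : 0 < 2 * q / (q - 1) := by positivity
    nlinarith
  refine le_trans ?_ e4
  rw [abs_le] at *
  constructor <;> linarith [e2.1, e2.2, e3.1, e3.2]

lemma w_nonneg (n : ℕ → ℕ) (k : ℕ) : 0 ≤ w n k := by unfold w; positivity

include hq hpos hgap in
lemma sum_w_le (m : ℕ) : ∑ k ∈ Finset.range m, w n k ≤ ∑' k, w n k :=
  (summable_cube hq hpos hgap).sum_le_tsum _ (fun k _ => w_nonneg n k)

include hq hpos hgap in
lemma L1' (a b : ℝ) (m : ℕ) : |∫ x in a..b, S n m x| ≤ 2 * ∑' k, w n k :=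
  (L1 hpos a b m).trans (by
    have := sum_w_le hq hpos hgap m
    linarith)

include hq hpos hgap in
lemma L2 (a b : ℝ) (m : ℕ) :
    |(∫ x in a..b, S n m x ^ 2) - m * (b - a) / 2| ≤ (3 + 2 * q / (q - 1)) * ∑' k, w n k := by
  have hq1 : 0 < q - 1 := by linarith
  have key : |(∫ x in a..b, S n m x ^ 2) - m * (b - a) / 2|
      ≤ (3 + 2 * q / (q - 1)) * ∑ k ∈ Finset.range m, w n k := by
    induction m with
    | zero => simp [S]
    | succ m ih =>
      have h := step2 hq hpos hgap a b m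
      rw [Finset.sum_range_succ, mul_add]
      push_cast
      rw [abs_le] at *
      constructor <;> linarith [ih.1, ih.2, h.1, h.2]
  refine key.trans ?_
  have := sum_w_le hq hpos hgap m
  gcongr

include hq hpos hgap in
lemma cube_cos (a b : ℝ) (hab : a ≤ b) (m : ℕ) :
    |∫ x in a..b, S n m x ^ 3 * Real.cos ((n m : ℝ) * x)|
      ≤ 2 * w n m + 3 / (q - 1) * ∫ x in a..b, S n m x ^ 2 := by
  have hq1 : 0 < q - 1 := by linarith
  have hm : (0 : ℝ) < n m := by exact_mod_cast hpos m
  have hcS := cont_S n m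
  set D : ℝ → ℝ := fun x => ∑ k ∈ Finset.range m, (-Real.sin ((n k : ℝ) * x) * n k) with hD
  have hS : ∀ x, HasDerivAt (S n m) (D x) x := by
    intro x
    unfold S
    simp only [hD]
    refine HasDerivAt.fun_sum (fun k _ => ?_)
    have h1 : HasDerivAt (fun y : ℝ => (n k : ℝ) * y) (n k : ℝ) x := by
      simpa using (hasDerivAt_id x).const_mul (n k : ℝ)
    exact h1.cos
  have hDle : ∀ x, |D x| ≤ (n m : ℝ) / (q - 1) := by
    intro x
    refine le_trans (Finset.abs_sum_le_sum_abs _ _) (le_trans (Finset.sum_le_sum (fun k _ => ?_))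
      (sum_le hq hpos hgap m))
    rw [abs_mul, abs_neg, abs_of_nonneg (by positivity : (0:ℝ) ≤ n k)]
    exact mul_le_of_le_one_left (by positivity) (Real.abs_sin_le_one _)
  have hDc : Continuous D := by simp only [hD]; fun_prop
  have hu : ∀ x ∈ Set.uIcc a b, HasDerivAt (fun x => S n m x ^ 3) (3 * S n m x ^ 2 * D x) x := by
    intro x _
    have := (hS x).fun_pow 3
    simpa using this
  have hv : ∀ x ∈ Set.uIcc a b, HasDerivAt (fun x => Real.sin ((n m : ℝ) * x) / n m)
      (Real.cos ((n m : ℝ) * x)) x := by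
    intro x _
    have h1 : HasDerivAt (fun y : ℝ => (n m : ℝ) * y) (n m : ℝ) x := by
      simpa using (hasDerivAt_id x).const_mul (n m : ℝ)
    have h2 := h1.sin.div_const (n m : ℝ)
    rwa [mul_div_cancel_right₀ _ hm.ne'] at h2
  rw [intervalIntegral.integral_mul_deriv_eq_deriv_mul hu hv
    (Continuous.intervalIntegrable (by fun_prop) _ _)
    (Continuous.intervalIntegrable (by fun_prop) _ _)]
  have hb : ∀ y, |S n m y ^ 3 * (Real.sin ((n m : ℝ) * y) / n m)| ≤ w n m := by
    intro y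
    rw [abs_mul, abs_div, abs_pow, abs_of_pos hm]
    unfold w
    rw [mul_div_assoc']
    have h1 : |S n m y| ^ 3 ≤ ((m : ℝ) + 1) ^ 3 := by
      have := abs_S_le n m y
      gcongr
      linarith
    have h2 := Real.abs_sin_le_one ((n m : ℝ) * y)
    gcongr
    calc |S n m y| ^ 3 * |Real.sin ((n m : ℝ) * y)| ≤ ((m : ℝ) + 1) ^ 3 * 1 := by gcongr
      _ = _ := by ring
  have hi : |∫ x in a..b, 3 * S n m x ^ 2 * D x * (Real.sin ((n m : ℝ) * x) / n m)|
      ≤ 3 / (q - 1) * ∫ x in a..b, S n m x ^ 2 := by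
    rw [← intervalIntegral.integral_const_mul]
    refine (intervalIntegral.abs_integral_le_integral_abs hab).trans ?_
    refine intervalIntegral.integral_mono_on hab
      (Continuous.intervalIntegrable (by fun_prop) _ _)
      (Continuous.intervalIntegrable (by fun_prop) _ _) (fun x _ => ?_)
    rw [abs_mul, abs_mul, abs_mul, abs_div, abs_of_pos hm, abs_of_nonneg (sq_nonneg (S n m x)),
      abs_of_pos (by norm_num : (0:ℝ) < 3)]
    have h1 := hDle x
    have h2 := Real.abs_sin_le_one ((n m : ℝ) * x)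
    calc 3 * S n m x ^ 2 * |D x| * (|Real.sin ((n m : ℝ) * x)| / n m)
        ≤ 3 * S n m x ^ 2 * ((n m : ℝ) / (q - 1)) * (1 / n m) := by gcongr
      _ = _ := by field_simp
  have h3 := hb a
  have h4 := hb b
  rw [abs_le] at *
  constructor <;> linarith [h3.1, h3.2, h4.1, h4.2, hi.1, hi.2]

include hq hpos hgap in
lemma step4 (a b : ℝ) (hab : a ≤ b) (m : ℕ) :
    (∫ x in a..b, S n (m + 1) x ^ 4) ≤ (∫ x in a..b, S n m x ^ 4)
      + (12 / (q - 1) + 8) * (∫ x in a..b, S n m x ^ 2) + 3 * (b - a) + 8 * w n m := by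
  have hcS := cont_S n m
  have hcS' := cont_S n (m + 1)
  have h1 : (∫ x in a..b, S n (m + 1) x ^ 4) ≤
      ∫ x in a..b, (S n m x ^ 4 + (4 * (S n m x ^ 3 * Real.cos ((n m : ℝ) * x)) +
        (8 * S n m x ^ 2 + 3))) := by
    refine intervalIntegral.integral_mono_on hab
      (Continuous.intervalIntegrable (by fun_prop) _ _)
      (Continuous.intervalIntegrable (by fun_prop) _ _) (fun x _ => ?_)
    rw [S_succ]
    set s := S n m x
    set c := Real.cos ((n m : ℝ) * x) with hc
    have hc1 : c ^ 2 ≤ 1 := by rw [hc]; exact Real.cos_sq_le_one _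
    have hc4 : c ^ 4 ≤ 1 := by nlinarith [sq_nonneg c]
    have e1 : 6 * s ^ 2 * c ^ 2 ≤ 6 * s ^ 2 := by nlinarith [sq_nonneg s]
    have e2 : 4 * s * c ^ 3 ≤ 2 * s ^ 2 + 2 := by
      have : c ^ 6 ≤ 1 := by nlinarith [sq_nonneg c, sq_nonneg (c ^ 2)]
      nlinarith [sq_nonneg (s - c ^ 3)]
    nlinarith
  refine h1.trans ?_
  rw [intervalIntegral.integral_add (Continuous.intervalIntegrable (by fun_prop) _ _)
      (Continuous.intervalIntegrable (by fun_prop) _ _),
    intervalIntegral.integral_add (Continuous.intervalIntegrable (by fun_prop) _ _)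
      (Continuous.intervalIntegrable (by fun_prop) _ _),
    intervalIntegral.integral_add (Continuous.intervalIntegrable (by fun_prop) _ _)
      (Continuous.intervalIntegrable (by fun_prop) _ _),
    intervalIntegral.integral_const_mul, intervalIntegral.integral_const_mul]
  have h2 := (abs_le.1 (cube_cos hq hpos hgap a b hab m)).2
  simp only [intervalIntegral.integral_const, smul_eq_mul]
  have : 12 / (q - 1) = 4 * (3 / (q - 1)) := by ring
  rw [this]
  linarith

include hq hpos hgap in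
lemma L4 (a b : ℝ) (hab : a ≤ b) : ∃ C : ℝ, ∀ m : ℕ,
    (∫ x in a..b, S n m x ^ 4) ≤ (6 / (q - 1) + 4) * (b - a) * (m : ℝ) ^ 2 + C * (m + 1) := by
  have hq1 : 0 < q - 1 := by linarith
  set σ := ∑' k, w n k with hσ
  have hσ0 : 0 ≤ σ := tsum_nonneg (w_nonneg n)
  set K := 12 / (q - 1) + 8 with hK
  have hK0 : 0 < K := by positivity
  set C2 := (3 + 2 * q / (q - 1)) * σ with hC2
  refine ⟨K * C2 + 3 * (b - a) + 8 * σ, fun m => ?_⟩
  have key : (∫ x in a..b, S n m x ^ 4) ≤ (K / 2) * (b - a) * (m : ℝ) ^ 2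
      + (K * C2 + 3 * (b - a)) * m + 8 * ∑ k ∈ Finset.range m, w n k := by
    induction m with
    | zero => simp [S]
    | succ m ih =>
      have h := step4 hq hpos hgap a b hab m
      have h2 := (abs_le.1 (L2 hq hpos hgap a b m)).2
      rw [Finset.sum_range_succ]
      push_cast
      have h3 : K * (∫ x in a..b, S n m x ^ 2) ≤ K * (m * (b - a) / 2 + C2) := by
        gcongr
        linarith
      have h4 : 0 ≤ K * (b - a) / 2 * (m + 1) := by
        have : 0 ≤ b - a := by linarith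
        positivity
      nlinarith
  have h5 := sum_w_le hq hpos hgap m
  have e : K / 2 = 6 / (q - 1) + 4 := by rw [hK]; ring
  rw [e] at key
  refine key.trans ?_
  have h6 : 0 ≤ σ * (m : ℝ) := by positivity
  have h7 : 0 ≤ K * C2 + 3 * (b - a) := by
    have : 0 ≤ b - a := by linarith
    positivity
  nlinarith

include hq hpos hgap in
lemma partA (σ ξ : ℝ) (hσ : |σ| = 1) (M : ℕ) (B : Set ℝ) (hB : MeasurableSet B)
    (hBs : ∀ x ∈ B, ∀ m ≥ M, 0 ≤ σ * (S n m x - ξ)) (a b : ℝ) (hab : a < b) (Λ : ℝ)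
    (hΛ : Λ = 6 / (q - 1) + 4)
    (hη : volume.real (Bᶜ ∩ Set.Ioc a b) ≤ 1 / (64 * Λ ^ 2) * (b - a)) : False := by
  have hq1 : 0 < q - 1 := by linarith
  have hΛ4 : 4 ≤ Λ := by
    have : 0 < 6 / (q - 1) := by positivity
    linarith
  have hΛ0 : 0 < Λ := by linarith
  have hL : 0 < b - a := by linarith
  obtain ⟨C4, hC4⟩ := L4 hq hpos hgap a b hab.le
  set C1 := 2 * ∑' k, w n k with hC1
  set C2 := (3 + 2 * q / (q - 1)) * ∑' k, w n k with hC2
  have hw0 : 0 ≤ ∑' k, w n k := tsum_nonneg (w_nonneg n)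
  have hC10 : 0 ≤ C1 := by positivity
  have hC20 : 0 ≤ C2 := by positivity
  have key : ∀ j : ℕ, 1 ≤ j → M ≤ j ^ 2 →
      (b - a) / (16 * Λ) * (j : ℝ) ^ 2 ≤ (C1 + 2 * |ξ| * (b - a)) * j + (C2 / Λ + |C4|) := by
    intro j hj hMj
    have hj0 : (0 : ℝ) < j := by exact_mod_cast hj
    have hj1 : (1 : ℝ) ≤ j := by exact_mod_cast hj
    set m := j ^ 2 with hm
    have hmr : ((m : ℕ) : ℝ) = (j : ℝ) ^ 2 := by rw [hm]; push_cast; ring
    have hcS := cont_S n m
    -- the pointwise inequality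
    have hpt : ∀ x ∈ Set.Icc a b, S n m x ^ 2 / (Λ * j) - S n m x ^ 4 / (4 * Λ ^ 3 * j ^ 3) ≤
        (σ * S n m x + (2 * |ξ| + 1 / (8 * Λ * j) * S n m x ^ 2)) +
          8 * Λ * j * Bᶜ.indicator 1 x := by
      intro x _
      set s := S n m x with hs
      have h1 : s ^ 2 / (Λ * j) - s ^ 4 / (4 * Λ ^ 3 * j ^ 3) ≤ |s| := by
        set t := |s| / (Λ * j) with ht
        have ht0 : 0 ≤ t := by positivity
        have hst : |s| = t * (Λ * j) := by rw [ht]; field_simp
        have hs2 : s ^ 2 = t ^ 2 * (Λ * j) ^ 2 := by rw [← sq_abs, hst]; ring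
        have hs4 : s ^ 4 = t ^ 4 * (Λ * j) ^ 4 := by
          have : s ^ 4 = (s ^ 2) ^ 2 := by ring
          rw [this, hs2]; ring
        have e : s ^ 2 / (Λ * j) - s ^ 4 / (4 * Λ ^ 3 * j ^ 3) = (t ^ 2 - t ^ 4 / 4) * (Λ * j) := by
          rw [hs2, hs4]; field_simp
        rw [e, hst]
        have hΛj : 0 < Λ * j := by positivity
        refine mul_le_mul_of_nonneg_right ?_ hΛj.le
        have h3 : t * (t - t ^ 3 / 4) ≤ t * 1 := by
          refine mul_le_mul_of_nonneg_left ?_ ht0
          nlinarith [sq_nonneg (t - 1), sq_nonneg (t - 2), mul_nonneg ht0 (sq_nonneg (t - 1)),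
            mul_nonneg ht0 (sq_nonneg (t - 2))]
        nlinarith
      refine h1.trans ?_
      have h2 : 0 ≤ 1 / (8 * Λ * j) * s ^ 2 := by positivity
      have hσs : -|s| ≤ σ * s := by
        have : |σ * s| = |s| := by rw [abs_mul, hσ, one_mul]
        rw [← this]; exact neg_abs_le _
      by_cases hx : x ∈ B
      · rw [Set.indicator_of_notMem (by simpa using hx)]
        have h3 := hBs x hx m hMj
        rw [← hs] at h3
        have h4 : |s - ξ| = σ * (s - ξ) := by
          have : |σ * (s - ξ)| = |s - ξ| := by rw [abs_mul, hσ, one_mul]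
          rw [← this, abs_of_nonneg h3]
        have h5 : |s| ≤ |s - ξ| + |ξ| := by
          have := abs_add_le (s - ξ) ξ
          simpa using this
        have h6 : -|ξ| ≤ σ * ξ := by
          have : |σ * ξ| = |ξ| := by rw [abs_mul, hσ, one_mul]
          rw [← this]; exact neg_abs_le _
        nlinarith
      · rw [Set.indicator_of_mem (by simpa using hx)]
        simp only [Pi.one_apply, mul_one]
        have h7 : 2 * |s| ≤ 1 / (8 * Λ * j) * s ^ 2 + 8 * Λ * j := by
          have hΛj : 0 < 8 * Λ * j := by positivity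
          have : 0 ≤ (|s| - 8 * Λ * j) ^ 2 / (8 * Λ * j) := by positivity
          have e : (|s| - 8 * Λ * j) ^ 2 / (8 * Λ * j)
              = 1 / (8 * Λ * j) * s ^ 2 + 8 * Λ * j - 2 * |s| := by
            rw [sub_sq, sq_abs]; field_simp; ring
          linarith
        have := abs_nonneg ξ
        linarith
    have hind : IntervalIntegrable (fun x => 8 * Λ * j * Bᶜ.indicator (1 : ℝ → ℝ) x) volume a b := by
      apply IntervalIntegrable.const_mul
      rw [intervalIntegrable_iff_integrableOn_Ioc_of_le hab.le]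
      refine IntegrableOn.indicator ?_ hB.compl
      exact integrableOn_const (by simp) (by simp)
    have hint := intervalIntegral.integral_mono_on hab.le
      (Continuous.intervalIntegrable (by fun_prop) _ _)
      ((Continuous.intervalIntegrable (by fun_prop) _ _).add hind) hpt
    rw [intervalIntegral.integral_add (Continuous.intervalIntegrable (by fun_prop) _ _) hind,
      intervalIntegral.integral_add (Continuous.intervalIntegrable (by fun_prop) _ _)
      (Continuous.intervalIntegrable (by fun_prop) _ _),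
      intervalIntegral.integral_add (Continuous.intervalIntegrable (by fun_prop) _ _)
      (Continuous.intervalIntegrable (by fun_prop) _ _),
      intervalIntegral.integral_sub (Continuous.intervalIntegrable (by fun_prop) _ _)
      (Continuous.intervalIntegrable (by fun_prop) _ _),
      intervalIntegral.integral_div, intervalIntegral.integral_div] at hint
    simp only [intervalIntegral.integral_const_mul, intervalIntegral.integral_const,
      smul_eq_mul] at hint
    have hindval : (∫ x in a..b, Bᶜ.indicator (1 : ℝ → ℝ) x) ≤ 1 / (64 * Λ ^ 2) * (b - a) := by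
      rw [intervalIntegral.integral_of_le hab.le, integral_indicator_one hB.compl]
      rw [measureReal_restrict_apply hB.compl]
      exact hη
    have i1 := abs_le.1 (L1' hq hpos hgap a b m)
    have i2 := abs_le.1 (L2 hq hpos hgap a b m)
    have i4 := hC4 m
    rw [← hC1] at i1
    rw [← hC2] at i2
    rw [hmr] at i2 i4
    rw [← hΛ] at i4
    set I1 := ∫ x in a..b, S n m x
    set I2 := ∫ x in a..b, S n m x ^ 2
    set I4 := ∫ x in a..b, S n m x ^ 4
    have j1 : σ * I1 ≤ C1 := by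
      have : |σ * I1| = |I1| := by rw [abs_mul, hσ, one_mul]
      have h8 : |I1| ≤ C1 := abs_le.2 i1
      calc σ * I1 ≤ |σ * I1| := le_abs_self _
        _ ≤ C1 := by rw [this]; exact h8
    -- multiply by j
    have h9 : I2 / Λ - I4 / (4 * Λ ^ 3 * j ^ 2) ≤
        (C1 + 2 * |ξ| * (b - a)) * j + I2 / (8 * Λ) + (b - a) / (8 * Λ) * j ^ 2 := by
      have h10 := mul_le_mul_of_nonneg_right hint hj0.le
      have e1 : (I2 / (Λ * j) - I4 / (4 * Λ ^ 3 * j ^ 3)) * j
          = I2 / Λ - I4 / (4 * Λ ^ 3 * j ^ 2) := by field_simp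
      rw [e1] at h10
      refine h10.trans ?_
      have e2 : 8 * Λ * j * (∫ x in a..b, Bᶜ.indicator (1 : ℝ → ℝ) x) * j ≤
          (b - a) / (8 * Λ) * j ^ 2 := by
        calc 8 * Λ * j * (∫ x in a..b, Bᶜ.indicator (1 : ℝ → ℝ) x) * j
            ≤ 8 * Λ * j * (1 / (64 * Λ ^ 2) * (b - a)) * j := by gcongr
          _ = (b - a) / (8 * Λ) * j ^ 2 := by field_simp; norm_num
      have e3 : 1 / (8 * Λ * j) * I2 * j = I2 / (8 * Λ) := by field_simp
      have e4 : (σ * I1) * j ≤ C1 * j := by gcongr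
      calc _ = (σ * I1) * j + (b - a) * (2 * |ξ|) * j + 1 / (8 * Λ * j) * I2 * j
            + 8 * Λ * j * (∫ x in a..b, Bᶜ.indicator (1 : ℝ → ℝ) x) * j := by ring
        _ ≤ C1 * j + (b - a) * (2 * |ξ|) * j + I2 / (8 * Λ) + (b - a) / (8 * Λ) * j ^ 2 := by
            rw [e3]; linarith
        _ = _ := by ring
    have h11 : I4 / (4 * Λ ^ 3 * j ^ 2) ≤ (b - a) / (4 * Λ) * j ^ 2 + |C4| := by
      rw [div_le_iff₀ (by positivity)]
      refine i4.trans ?_
      have hj2 : (1 : ℝ) ≤ (j : ℝ) ^ 2 := one_le_pow₀ hj1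
      have a1 : Λ * (b - a) * ((j : ℝ) ^ 2) ^ 2 ≤ (b - a) / (4 * Λ) * j ^ 2 * (4 * Λ ^ 3 * j ^ 2) := by
        have : (b - a) / (4 * Λ) * j ^ 2 * (4 * Λ ^ 3 * j ^ 2)
            = Λ * (Λ * (b - a) * ((j : ℝ) ^ 2) ^ 2) := by field_simp
        rw [this]
        have h0 : 0 ≤ Λ * (b - a) * ((j : ℝ) ^ 2) ^ 2 := by positivity
        exact le_mul_of_one_le_left h0 (by linarith)
      have a2 : C4 * ((j : ℝ) ^ 2 + 1) ≤ |C4| * (4 * Λ ^ 3 * j ^ 2) := by
        have h1 : C4 * ((j : ℝ) ^ 2 + 1) ≤ |C4| * ((j : ℝ) ^ 2 + 1) := by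
          gcongr; exact le_abs_self _
        refine h1.trans ?_
        gcongr
        have h3 : 1 ≤ Λ ^ 3 := one_le_pow₀ (by linarith)
        have h4 : 4 * 1 * (j : ℝ) ^ 2 ≤ 4 * Λ ^ 3 * j ^ 2 := by gcongr
        linarith
      linarith
    have h12 : 7 / (8 * Λ) * I2 = I2 / Λ - I2 / (8 * Λ) := by
      have : I2 / Λ = 8 / (8 * Λ) * I2 := by field_simp
      rw [this]; ring
    have h13 : 7 / (8 * Λ) * ((j : ℝ) ^ 2 * (b - a) / 2 - C2) ≤ 7 / (8 * Λ) * I2 := by
      gcongr; linarith [i2.1]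
    have h14 : 7 / (8 * Λ) * ((j : ℝ) ^ 2 * (b - a) / 2 - C2)
        = 7 * ((b - a) / (16 * Λ) * j ^ 2) - 7 / 8 * (C2 / Λ) := by field_simp; ring
    have h15 : (b - a) / (8 * Λ) * (j : ℝ) ^ 2 = 2 * ((b - a) / (16 * Λ) * j ^ 2) := by
      field_simp; norm_num
    have h16 : (b - a) / (4 * Λ) * (j : ℝ) ^ 2 = 4 * ((b - a) / (16 * Λ) * j ^ 2) := by
      field_simp; norm_num
    have h17 : 0 ≤ C2 / Λ := by positivity
    linarith
  -- choose j large
  set c := (b - a) / (16 * Λ) with hc
  have hc0 : 0 < c := by positivity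
  set E := C1 + 2 * |ξ| * (b - a) with hE
  set F := C2 / Λ + |C4| with hF
  have hE0 : 0 ≤ E := by positivity
  have hF0 : 0 ≤ F := by positivity
  obtain ⟨j0, hj0⟩ := exists_nat_gt ((E + F + 1) / c)
  set j := j0 + M + 1 with hj
  have hj1 : 1 ≤ j := by omega
  have hjM : M ≤ j ^ 2 := by nlinarith
  have h := key j hj1 hjM
  have hjr : (E + F + 1) / c < j := by
    refine hj0.trans_le ?_
    rw [hj]; push_cast
    have : (0 : ℝ) ≤ M := Nat.cast_nonneg _
    linarith
  rw [div_lt_iff₀ hc0] at hjr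
  have hj1' : (1 : ℝ) ≤ j := by exact_mod_cast hj1
  nlinarith

/-- a density point gives small complementary measure in small balls -/
lemma density_small (B : Set ℝ) (x : ℝ)
    (hx : Tendsto (fun r => volume (B ∩ Metric.closedBall x r) / volume (Metric.closedBall x r))
      (𝓝[>] 0) (𝓝 1)) (hB : MeasurableSet B) (η : ℝ) (hη : 0 < η) :
    ∀ᶠ r in 𝓝[>] (0 : ℝ), volume.real (Bᶜ ∩ Set.Icc (x - r) (x + r)) ≤ η * (2 * r) := by
  have h1 : ∀ᶠ r in 𝓝[>] (0 : ℝ), ENNReal.ofReal (1 - η) <
      volume (B ∩ Metric.closedBall x r) / volume (Metric.closedBall x r) ∨ 1 ≤ η := by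
    by_cases h : 1 ≤ η
    · exact Eventually.of_forall (fun _ => Or.inr h)
    · have : ENNReal.ofReal (1 - η) < 1 := by
        rw [ENNReal.ofReal_lt_one]; linarith
      exact (hx.eventually (lt_mem_nhds this)).mono (fun _ h => Or.inl h)
  filter_upwards [h1, self_mem_nhdsWithin] with r hr hr0
  have hr0' : (0 : ℝ) < r := hr0
  have hvol : volume (Metric.closedBall x r) = ENNReal.ofReal (2 * r) := Real.volume_closedBall _ _
  have hball : Metric.closedBall x r = Set.Icc (x - r) (x + r) := Real.closedBall_eq_Icc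
  rw [← hball]
  have hfin : volume (Metric.closedBall x r) ≠ ⊤ := by rw [hvol]; exact ENNReal.ofReal_ne_top
  have hreal : volume.real (Metric.closedBall x r) = 2 * r := by
    rw [Measure.real, hvol, ENNReal.toReal_ofReal (by positivity)]
  have hsum : volume.real (B ∩ Metric.closedBall x r) + volume.real (Bᶜ ∩ Metric.closedBall x r)
      = 2 * r := by
    rw [← hreal, Set.inter_comm B, Set.inter_comm Bᶜ]
    have := measureReal_inter_add_sdiff (μ := volume) (s := Metric.closedBall x r) hB hfin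
    rwa [Set.sdiff_eq] at this
  rcases hr with hr | hr
  · rcases le_or_gt 1 η with hη1 | hη1
    · have : 0 ≤ volume.real (B ∩ Metric.closedBall x r) := measureReal_nonneg
      nlinarith
    rw [ENNReal.lt_div_iff_mul_lt (Or.inl (by rw [hvol]; simpa using hr0'))
      (Or.inl hfin), hvol, ← ENNReal.ofReal_mul' (by positivity)] at hr
    have h3 : (1 - η) * (2 * r) < volume.real (B ∩ Metric.closedBall x r) := by
      rw [Measure.real]
      exact (ENNReal.ofReal_lt_iff_lt_toReal (by
        have : 0 < 1 - η := by linarith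
        positivity) (ne_top_of_le_ne_top hfin
        (measure_mono Set.inter_subset_right))).1 hr
    nlinarith
  · have : 0 ≤ volume.real (B ∩ Metric.closedBall x r) := measureReal_nonneg
    nlinarith

lemma S_sub (n : ℕ → ℕ) (m : ℕ) (x y : ℝ) :
    |S n m x - S n m y| ≤ (∑ k ∈ Finset.range m, (n k : ℝ)) * |x - y| := by
  unfold S
  rw [← Finset.sum_sub_distrib, Finset.sum_mul]
  refine (Finset.abs_sum_le_sum_abs _ _).trans (Finset.sum_le_sum (fun k _ => ?_))
  have h := Real.abs_cos_sub_cos_le ((n k : ℝ) * x) ((n k : ℝ) * y)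
  refine h.trans ?_
  rw [← mul_sub, abs_mul, abs_of_nonneg (by positivity : (0:ℝ) ≤ n k)]

lemma near_point (B : Set ℝ) (x r η : ℝ) (hr : 0 < r) (hη : 0 < η) (hη1 : 3 * η ≤ 1)
    (h : volume.real (Bᶜ ∩ Set.Icc (x - r) (x + r)) ≤ η * (2 * r)) (y : ℝ)
    (hy : y ∈ Set.Icc (x - r) (x + r)) : ∃ z ∈ B, |z - y| ≤ 3 * η * r := by
  by_contra hcon
  push Not at hcon
  set d := 3 * η * r with hd
  have hd0 : 0 < d := by positivity
  have hdr : d ≤ r := by nlinarith
  have hfin : volume (Bᶜ ∩ Set.Icc (x - r) (x + r)) ≠ ⊤ :=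
    ne_top_of_le_ne_top (by simp) (measure_mono Set.inter_subset_right)
  rcases le_total y x with hyx | hyx
  · have hsub : Set.Icc y (y + d) ⊆ Bᶜ ∩ Set.Icc (x - r) (x + r) := by
      intro z hz
      refine ⟨fun hzB => ?_, ⟨hy.1.trans hz.1, by linarith [hz.2]⟩⟩
      have := hcon z hzB
      rw [abs_of_nonneg (by linarith [hz.1])] at this
      linarith [hz.2]
    have h2 := measureReal_mono hsub hfin
    rw [Real.volume_real_Icc_of_le (by linarith)] at h2
    nlinarith
  · have hsub : Set.Icc (y - d) y ⊆ Bᶜ ∩ Set.Icc (x - r) (x + r) := by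
      intro z hz
      refine ⟨fun hzB => ?_, ⟨by linarith [hz.1], hz.2.trans hy.2⟩⟩
      have := hcon z hzB
      rw [abs_of_nonpos (by linarith [hz.2])] at this
      linarith [hz.1]
    have h2 := measureReal_mono hsub hfin
    rw [Real.volume_real_Icc_of_le (by linarith)] at h2
    nlinarith

lemma sign_const (f : ℝ → ℝ) (hf : Continuous f) (a b ξ : ℝ)
    (h : ∀ y ∈ Set.Icc a b, f y ≠ ξ) {y z : ℝ} (hy : y ∈ Set.Icc a b) (hz : z ∈ Set.Icc a b)
    (hyξ : ξ < f y) : ξ < f z := by
  by_contra hcon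
  push Not at hcon
  have h1 := intermediate_value_uIcc (a := z) (b := y) (f := f) hf.continuousOn
  have h2 : ξ ∈ Set.uIcc (f z) (f y) := Set.mem_uIcc_of_le hcon hyξ.le
  obtain ⟨u, hu, hfu⟩ := h1 h2
  exact h u (Set.uIcc_subset_Icc hz hy hu) hfu

lemma cos_one (N x : ℝ) (hN : 0 < N) :
    ∃ y ∈ Set.Icc (x - Real.pi / N) (x + Real.pi / N), Real.cos (N * y) = 1 := by
  set k := round (N * x / (2 * Real.pi)) with hk
  have hpi := Real.pi_pos
  have h := abs_sub_round (N * x / (2 * Real.pi))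
  rw [← hk] at h
  refine ⟨(k : ℝ) * (2 * Real.pi) / N, ?_, ?_⟩
  · have h1 : |N * x - k * (2 * Real.pi)| ≤ Real.pi := by
      have e : N * x - k * (2 * Real.pi) = (N * x / (2 * Real.pi) - k) * (2 * Real.pi) := by
        field_simp
      rw [e, abs_mul, abs_of_pos (by positivity : 0 < 2 * Real.pi)]
      nlinarith
    rw [abs_le] at h1
    constructor
    · rw [sub_le_iff_le_add, ← add_div, le_div_iff₀ hN]; linarith [h1.2]
    · rw [div_le_iff₀ hN, add_mul, div_mul_cancel₀ _ hN.ne']; linarith [h1.1]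
  · rw [mul_div_cancel₀ _ hN.ne']
    exact Real.cos_int_mul_two_pi k

lemma cos_neg_one (N x : ℝ) (hN : 0 < N) :
    ∃ y ∈ Set.Icc (x - Real.pi / N) (x + Real.pi / N), Real.cos (N * y) = -1 := by
  obtain ⟨y, hy, hc⟩ := cos_one N (x - Real.pi / N) hN
  refine ⟨y + Real.pi / N, ⟨by linarith [hy.1], by linarith [hy.2]⟩, ?_⟩
  rw [mul_add, mul_div_cancel₀ _ hN.ne', Real.cos_add_pi, hc]

include hq hpos hgap in
/-- almost every point does not stay on one side -/
lemma one_side_null (σ ξ : ℝ) (hσ : |σ| = 1) (M : ℕ) :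
    volume {x : ℝ | ∀ m ≥ M, 0 ≤ σ * (S n m x - ξ)} = 0 := by
  set B : Set ℝ := {x : ℝ | ∀ m ≥ M, 0 ≤ σ * (S n m x - ξ)} with hBdef
  have hBc : IsClosed B := by
    rw [hBdef]
    simp only [Set.ofPred_forall]
    refine isClosed_iInter (fun m => isClosed_iInter (fun _ => ?_))
    have := cont_S n m
    exact isClosed_le continuous_const (by fun_prop)
  have hB : MeasurableSet B := hBc.measurableSet
  by_contra hne
  have hae := Besicovitch.ae_tendsto_measure_inter_div (volume : Measure ℝ) B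
  have hne' : volume.restrict B ≠ 0 := by
    rw [Ne, Measure.restrict_eq_zero]; exact hne
  have : (ae (volume.restrict B)).NeBot := ae_neBot.2 hne'
  obtain ⟨x, hx⟩ := hae.exists
  have hq1 : 0 < q - 1 := by linarith
  set Λ := 6 / (q - 1) + 4 with hΛ
  have hΛ0 : 0 < Λ := by positivity
  have hη : (0 : ℝ) < 1 / (64 * Λ ^ 2) := by positivity
  obtain ⟨r, hr, hr0⟩ := ((density_small B x hx hB _ hη).and self_mem_nhdsWithin).exists
  have hr0' : (0 : ℝ) < r := hr0
  refine partA hq hpos hgap σ ξ hσ M B hB (fun x hx => hx) (x - r) (x + r) (by linarith) Λ hΛ ?_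
  have h2 : volume.real (Bᶜ ∩ Set.Ioc (x - r) (x + r)) ≤
      volume.real (Bᶜ ∩ Set.Icc (x - r) (x + r)) :=
    measureReal_mono (Set.inter_subset_inter_right _ Set.Ioc_subset_Icc_self)
      (ne_top_of_le_ne_top (by simp) (measure_mono Set.inter_subset_right))
  refine h2.trans (hr.trans_eq ?_)
  ring

include hq hpos hgap in
lemma avoid_null (ξ ε : ℝ) (hε : 0 < ε) (N : ℕ) :
    volume {x : ℝ | ∀ m ≥ N, ε ≤ |S n m x - ξ|} = 0 := by
  set B : Set ℝ := {x : ℝ | ∀ m ≥ N, ε ≤ |S n m x - ξ|} with hBdef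
  have hBc : IsClosed B := by
    rw [hBdef]
    simp only [Set.ofPred_forall]
    refine isClosed_iInter (fun m => isClosed_iInter (fun _ => ?_))
    have := cont_S n m
    exact isClosed_le continuous_const (by fun_prop)
  have hB : MeasurableSet B := hBc.measurableSet
  have hq1 : 0 < q - 1 := by linarith
  have hq0 : 0 < q := by linarith
  have hpi := Real.pi_pos
  have hae := ae_imp_of_ae_restrict (Besicovitch.ae_tendsto_measure_inter_div (volume : Measure ℝ) B)
  have hP : ∀ M : ℕ, ∀ᵐ x ∂(volume : Measure ℝ), ¬ (∀ m ≥ M, 0 ≤ 1 * (S n m x - ξ)) := by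
    intro M
    have := one_side_null hq hpos hgap 1 ξ (by simp) M
    exact measure_eq_zero_iff_ae_notMem.1 this
  have hN : ∀ M : ℕ, ∀ᵐ x ∂(volume : Measure ℝ), ¬ (∀ m ≥ M, 0 ≤ (-1) * (S n m x - ξ)) := by
    intro M
    have := one_side_null hq hpos hgap (-1) ξ (by simp) M
    exact measure_eq_zero_iff_ae_notMem.1 this
  rw [measure_eq_zero_iff_ae_notMem]
  filter_upwards [hae, ae_all_iff.2 hP, ae_all_iff.2 hN] with x hx hxP hxN hxB
  -- choose η
  set η := min (1 / 3) (ε * (q - 1) / (6 * Real.pi * q)) with hη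
  have hη0 : 0 < η := by
    rw [hη]; exact lt_min (by norm_num) (by positivity)
  have hη1 : 3 * η ≤ 1 := by
    have : η ≤ 1 / 3 := min_le_left _ _
    linarith
  have hη2 : 3 * η * Real.pi * q / (q - 1) ≤ ε / 2 := by
    have : η ≤ ε * (q - 1) / (6 * Real.pi * q) := min_le_right _ _
    rw [le_div_iff₀ (by positivity)] at this
    rw [div_le_iff₀ hq1]
    linarith
  -- radii tending to zero
  have hnt : Tendsto (fun m : ℕ => Real.pi / (n m : ℝ)) atTop (𝓝[>] 0) := by
    rw [tendsto_nhdsWithin_iff]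
    constructor
    · have h1 : Tendsto (fun m : ℕ => (n m : ℝ)) atTop atTop :=
        tendsto_atTop_mono (pow_le hq hpos hgap) (tendsto_pow_atTop_atTop_of_one_lt hq)
      exact tendsto_const_nhds.div_atTop h1
    · refine Eventually.of_forall (fun m => ?_)
      have : (0 : ℝ) < n m := by exact_mod_cast hpos m
      exact Set.mem_Ioi.2 (by positivity)
  have hev := hnt.eventually (density_small B x (hx hxB) hB η hη0)
  obtain ⟨m0, hm0⟩ := (hev.and (eventually_ge_atTop N)).exists_forall_of_atTop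
  have key : ∀ m ≥ m0, (ξ < S n m x → ξ < S n (m + 1) x) ∧ (S n m x < ξ → S n (m + 1) x < ξ) := by
    intro m hm
    obtain ⟨hden, hmN⟩ := hm0 m hm
    have hnm : (0 : ℝ) < n m := by exact_mod_cast hpos m
    have hr : 0 < Real.pi / (n m : ℝ) := by positivity
    set a := x - Real.pi / (n m : ℝ) with ha
    set b := x + Real.pi / (n m : ℝ) with hb
    have hxI : x ∈ Set.Icc a b := ⟨by linarith, by linarith⟩
    have hsum := sum_le hq hpos hgap m
    have hgen : ∀ m', m' ≥ N → (∑ k ∈ Finset.range m', (n k : ℝ)) ≤ (n m : ℝ) * q / (q - 1) →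
        ∀ y ∈ Set.Icc a b, S n m' y ≠ ξ := by
      intro m' hm' hs y hy heq
      obtain ⟨z, hzB, hz⟩ := near_point B x _ η hr hη0 hη1 hden y hy
      have h1 := hzB m' hm'
      have h2 := S_sub n m' z y
      rw [heq] at h2
      have h3 : (∑ k ∈ Finset.range m', (n k : ℝ)) * |z - y| ≤ ε / 2 := by
        calc _ ≤ (n m : ℝ) * q / (q - 1) * (3 * η * (Real.pi / (n m : ℝ))) := by
              gcongr
          _ = 3 * η * Real.pi * q / (q - 1) := by field_simp
          _ ≤ _ := hη2
      linarith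
    have hA := hgen m hmN (hsum.trans (by
      gcongr
      nlinarith))
    have hA' := hgen (m + 1) (by omega) (by
      rw [Finset.sum_range_succ]
      calc _ ≤ (n m : ℝ) / (q - 1) + n m := by linarith
        _ = _ := by field_simp; ring)
    constructor
    · intro h
      obtain ⟨y, hy, hc⟩ := cos_one (n m : ℝ) x hnm
      have h1 := sign_const _ (cont_S n m) a b ξ hA hxI hy h
      have h2 : ξ < S n (m + 1) y := by rw [S_succ, hc]; linarith
      exact sign_const _ (cont_S n (m + 1)) a b ξ hA' hy hxI h2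
    · intro h
      obtain ⟨y, hy, hc⟩ := cos_neg_one (n m : ℝ) x hnm
      have hneg : ∀ k, Continuous (fun x => - S n k x) := fun k => (cont_S n k).neg
      have h1 := sign_const _ (hneg m) a b (-ξ)
        (fun y hy h => hA y hy (neg_inj.1 h)) hxI hy (neg_lt_neg h)
      have h2 : -ξ < - S n (m + 1) y := by
        rw [S_succ, hc]
        linarith
      have h3 := sign_const _ (hneg (m + 1)) a b (-ξ)
        (fun y hy h => hA' y hy (neg_inj.1 h)) hy hxI h2
      linarith
  have hm0N : N ≤ m0 := (hm0 m0 le_rfl).2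
  have hne : S n m0 x ≠ ξ := by
    intro h
    have := hxB m0 hm0N
    rw [h, sub_self, abs_zero] at this
    linarith
  rcases lt_or_gt_of_ne hne with h | h
  · refine hxN m0 (fun m hm => ?_)
    have : S n m x < ξ := by
      induction m, hm using Nat.le_induction with
      | base => exact h
      | succ m hm ih => exact (key m hm).2 ih
    linarith
  · refine hxP m0 (fun m hm => ?_)
    have : ξ < S n m x := by
      induction m, hm using Nat.le_induction with
      | base => exact h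
      | succ m hm ih => exact (key m hm).1 ih
    linarith

include hq hpos hgap in
lemma ae_dense : ∀ᵐ x ∂(volume : Measure ℝ), ∀ ξ : ℝ, ∀ ε : ℝ, 0 < ε →
    ∃ᶠ m in atTop, |S n m x - ξ| < ε := by
  have h : ∀ (p : ℚ) (j N : ℕ), ∀ᵐ x ∂(volume : Measure ℝ),
      ¬ (∀ m ≥ N, 1 / ((j : ℝ) + 1) ≤ |S n m x - (p : ℝ)|) := by
    intro p j N
    exact measure_eq_zero_iff_ae_notMem.1
      (avoid_null hq hpos hgap (p : ℝ) (1 / ((j : ℝ) + 1)) (by positivity) N)
  have h' := ae_all_iff.2 (fun p => ae_all_iff.2 (fun j => ae_all_iff.2 (h p j)))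
  filter_upwards [h'] with x hx ξ ε hε
  obtain ⟨p, hp1, hp2⟩ := exists_rat_btwn (show ξ < ξ + ε / 2 by linarith)
  obtain ⟨j, hj⟩ := exists_nat_one_div_lt (show 0 < ε / 2 by positivity)
  rw [Filter.frequently_atTop]
  intro N
  have := hx p j N
  push Not at this
  obtain ⟨m, hm, hlt⟩ := this
  refine ⟨m, hm, ?_⟩
  rw [abs_lt] at *
  constructor <;> linarith [hlt.1, hlt.2]

end L

end Helpers

/-- For every sequence of positive integers with n_{k+1} ≥ q n_k for some q>1, the set of x in [0,2π) at which the partial sums of cos(n_k x) come arbitrarily close to every real number infinitely often has Lebesgue measure 2π. -/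
theorem result :
    ∀ (n : ℕ → ℕ) (q : ℝ), 1 < q → (∀ k, 0 < n k) →
      (∀ k, q * (n k : ℝ) ≤ (n (k + 1) : ℝ)) →
      MeasureTheory.volume
        {x : ℝ | x ∈ Set.Ico 0 (2 * Real.pi) ∧
          ∀ ξ : ℝ, ∀ ε : ℝ, 0 < ε →
            ∃ᶠ m in Filter.atTop,
              |(∑ k ∈ Finset.range m, Real.cos ((n k : ℝ) * x)) - ξ| < ε}
        = ENNReal.ofReal (2 * Real.pi) := by
  intro n q hq hpos hgap
  have h := ae_dense hq hpos hgap
  have h2 : MeasureTheory.volume
        {x : ℝ | x ∈ Set.Ico 0 (2 * Real.pi) ∧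
          ∀ ξ : ℝ, ∀ ε : ℝ, 0 < ε →
            ∃ᶠ m in Filter.atTop,
              |(∑ k ∈ Finset.range m, Real.cos ((n k : ℝ) * x)) - ξ| < ε}
        = MeasureTheory.volume (Set.Ico 0 (2 * Real.pi)) := by
    apply MeasureTheory.measure_congr
    filter_upwards [h] with x hx
    apply propext
    exact ⟨fun h => h.1, fun h => ⟨h, hx⟩⟩
  rw [h2, Real.volume_Ico, sub_zero]

end Pool.Agent.S03117
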