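import Pool.Statements.S03120

set_option autoImplicit false
open Pool Pool.MP_5067f1_an

/-
Disproof of uniqueness in the inverse problem of Bernstein with signed errors.
Write T for the cubic Chebyshev polynomial and let
  G_t = phi_t + (1/2) G_(rho t) o T,   phi_t(u) = (1+t)u^2 + (4/5-t)u,   0 <= t <= 1/100,
on [-1,1]. With S = sqrt(3)/2, c = cos 70 degrees and rho chosen so that
(rho/2)(S^2+S) = (1-c)(c+1/2), the extremal points of G_t for degree 0 are 1 and 0, those for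
degree 1 are 1, c, -1/2, for every t, and the errors there do not depend on t. Composition with T
multiplies degrees by three, so all signed errors of G_t - 9/5 are independent of t.
-/

namespace Pool.Agent.S03120

open Set Polynomial

/-- the cubic Chebyshev map -/
noncomputable def tc (x : ℝ) : ℝ := 4 * x ^ 3 - 3 * x

noncomputable def ph (t u : ℝ) : ℝ := (1 + t) * u ^ 2 + (4 / 5 - t) * u

lemma tc_mem {x : ℝ} (hx : x ∈ Icc (-1 : ℝ) 1) : tc x ∈ Icc (-1 : ℝ) 1 := by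
  have h1 : 0 ≤ 1 - x ^ 2 := by nlinarith [hx.1, hx.2]
  have h : (tc x) ^ 2 ≤ 1 := by
    have : 1 - (tc x) ^ 2 = (1 - x ^ 2) * (4 * x ^ 2 - 1) ^ 2 := by unfold tc; ring
    nlinarith [mul_nonneg h1 (sq_nonneg (4 * x ^ 2 - 1))]
  constructor <;> nlinarith

lemma tc_one : tc 1 = 1 := by unfold tc; norm_num
lemma tc_zero : tc 0 = 0 := by unfold tc; norm_num
lemma tc_half : tc (-1 / 2) = 1 := by unfold tc; norm_num

lemma tc_iter_mem (j : ℕ) : ∀ {x : ℝ}, x ∈ Icc (-1 : ℝ) 1 → tc^[j] x ∈ Icc (-1 : ℝ) 1 := by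
  induction j with
  | zero => intro x hx; simpa using hx
  | succ n ih => intro x hx; rw [Function.iterate_succ_apply]; exact ih (tc_mem hx)

lemma ph_abs {t u : ℝ} (ht : t ∈ Icc (0 : ℝ) (1 / 100)) (hu : u ∈ Icc (-1 : ℝ) 1) :
    |ph t u| ≤ 9 / 5 := by
  have h1 : u ^ 2 ≤ 1 := by nlinarith [hu.1, hu.2]
  rw [abs_le]; unfold ph
  constructor
  · nlinarith [ht.1, ht.2, hu.1, hu.2, sq_nonneg u, mul_nonneg (by linarith [ht.1] : (0:ℝ) ≤ 1 + t) (sq_nonneg u),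
      mul_nonneg (by linarith [ht.2] : (0:ℝ) ≤ 4/5 - t) (by linarith [hu.1] : (0:ℝ) ≤ u + 1)]
  · nlinarith [ht.1, ht.2, hu.1, hu.2, mul_nonneg (by linarith [ht.1] : (0:ℝ) ≤ 1 + t) (by linarith : (0:ℝ) ≤ 1 - u ^ 2),
      mul_nonneg (by linarith [ht.2] : (0:ℝ) ≤ 4/5 - t) (by linarith [hu.2] : (0:ℝ) ≤ 1 - u)]

/-- the family of functions -/
noncomputable def gg (ρ t x : ℝ) : ℝ := ∑' j : ℕ, (1 / 2 : ℝ) ^ j * ph (ρ ^ j * t) (tc^[j] x)

lemma pow_mem {ρ : ℝ} (hρ : ρ ∈ Icc (0 : ℝ) 1) {t : ℝ} (ht : t ∈ Icc (0 : ℝ) (1 / 100)) (j : ℕ) :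
    ρ ^ j * t ∈ Icc (0 : ℝ) (1 / 100) := by
  have h0 : 0 ≤ ρ ^ j := pow_nonneg hρ.1 j
  have h1 : ρ ^ j ≤ 1 := pow_le_one₀ hρ.1 hρ.2
  constructor
  · exact mul_nonneg h0 ht.1
  · nlinarith [ht.1, ht.2]

lemma mul_mem' {ρ : ℝ} (hρ : ρ ∈ Icc (0 : ℝ) 1) {t : ℝ} (ht : t ∈ Icc (0 : ℝ) (1 / 100)) :
    ρ * t ∈ Icc (0 : ℝ) (1 / 100) := by
  simpa using pow_mem hρ ht 1

lemma term_abs {ρ : ℝ} (hρ : ρ ∈ Icc (0 : ℝ) 1) {t : ℝ} (ht : t ∈ Icc (0 : ℝ) (1 / 100))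
    {x : ℝ} (hx : x ∈ Icc (-1 : ℝ) 1) (j : ℕ) :
    ‖(1 / 2 : ℝ) ^ j * ph (ρ ^ j * t) (tc^[j] x)‖ ≤ (1 / 2 : ℝ) ^ j * (9 / 5) := by
  rw [norm_mul, Real.norm_eq_abs, Real.norm_eq_abs, abs_of_nonneg (by positivity)]
  exact mul_le_mul_of_nonneg_left (ph_abs (pow_mem hρ ht j) (tc_iter_mem j hx)) (by positivity)

lemma summ_bd : Summable (fun j : ℕ => (1 / 2 : ℝ) ^ j * (9 / 5)) :=
  (summable_geometric_of_lt_one (by norm_num) (by norm_num)).mul_right _

lemma gg_summ {ρ : ℝ} (hρ : ρ ∈ Icc (0 : ℝ) 1) {t : ℝ} (ht : t ∈ Icc (0 : ℝ) (1 / 100))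
    {x : ℝ} (hx : x ∈ Icc (-1 : ℝ) 1) :
    Summable (fun j : ℕ => (1 / 2 : ℝ) ^ j * ph (ρ ^ j * t) (tc^[j] x)) :=
  Summable.of_norm_bounded summ_bd (fun j => term_abs hρ ht hx j)

lemma gg_abs {ρ : ℝ} (hρ : ρ ∈ Icc (0 : ℝ) 1) {t : ℝ} (ht : t ∈ Icc (0 : ℝ) (1 / 100))
    {x : ℝ} (hx : x ∈ Icc (-1 : ℝ) 1) : |gg ρ t x| ≤ 18 / 5 := by
  have h := tsum_of_norm_bounded (f := fun j : ℕ => (1 / 2 : ℝ) ^ j * ph (ρ ^ j * t) (tc^[j] x))
    (g := fun j : ℕ => (1 / 2 : ℝ) ^ j * (9 / 5)) (a := 18 / 5)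
    (by
      have := (hasSum_geometric_of_lt_one (r := (1/2 : ℝ)) (by norm_num) (by norm_num)).mul_right (9 / 5 : ℝ)
      have h2 : (1 - (1 / 2 : ℝ))⁻¹ * (9 / 5) = 18 / 5 := by norm_num
      rw [h2] at this; exact this)
    (fun j => term_abs hρ ht hx j)
  simpa [gg, Real.norm_eq_abs] using h

lemma gg_eq {ρ : ℝ} (hρ : ρ ∈ Icc (0 : ℝ) 1) {t : ℝ} (ht : t ∈ Icc (0 : ℝ) (1 / 100))
    {x : ℝ} (hx : x ∈ Icc (-1 : ℝ) 1) :
    gg ρ t x = ph t x + 1 / 2 * gg ρ (ρ * t) (tc x) := by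
  unfold gg
  rw [(gg_summ hρ ht hx).tsum_eq_zero_add, ← tsum_mul_left]
  congr 1
  · simp
  · apply tsum_congr; intro j
    rw [Function.iterate_succ_apply]
    have : ρ ^ (j + 1) * t = ρ ^ j * (ρ * t) := by ring
    rw [this]; ring

lemma tc_cont : Continuous tc := by unfold tc; fun_prop

lemma gg_cont {ρ : ℝ} (hρ : ρ ∈ Icc (0 : ℝ) 1) {t : ℝ} (ht : t ∈ Icc (0 : ℝ) (1 / 100)) :
    ContinuousOn (gg ρ t) (Icc (-1 : ℝ) 1) := by
  unfold gg
  refine continuousOn_tsum (u := fun j : ℕ => (1 / 2 : ℝ) ^ j * (9 / 5)) (fun j => ?_) summ_bd (fun j x hx => term_abs hρ ht hx j)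
  have h1 : Continuous (tc^[j]) := tc_cont.iterate j
  have : Continuous (fun x => (1 / 2 : ℝ) ^ j * ph (ρ ^ j * t) (tc^[j] x)) := by
    unfold ph; fun_prop
  exact this.continuousOn

/-- bootstrapping principle -/
lemma boot {f : ℝ → ℝ → ℝ} {A B : Set ℝ} {C : ℝ}
    (h0 : ∀ t ∈ A, ∀ x ∈ B, -C ≤ f t x)
    (h : ∀ D : ℝ, 0 ≤ D → (∀ t ∈ A, ∀ x ∈ B, -D ≤ f t x) → ∀ t ∈ A, ∀ x ∈ B, -(D / 2) ≤ f t x) :
    ∀ t ∈ A, ∀ x ∈ B, 0 ≤ f t x := by
  intro t ht x hx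
  have h1 : ∀ n : ℕ, ∀ t ∈ A, ∀ x ∈ B, -(|C| / 2 ^ n) ≤ f t x := by
    intro n
    induction n with
    | zero => intro t ht x hx; simpa using le_trans (neg_le_neg (le_abs_self C)) (h0 t ht x hx)
    | succ n ih =>
      intro t ht x hx
      have := h (|C| / 2 ^ n) (by positivity) ih t ht x hx
      rw [pow_succ, ← div_div]; exact this
  have h2 : Filter.Tendsto (fun n : ℕ => -(|C| / 2 ^ n)) Filter.atTop (nhds (-0)) := by
    apply Filter.Tendsto.neg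
    have := (tendsto_pow_atTop_nhds_zero_of_lt_one (r := (1/2 : ℝ)) (by norm_num) (by norm_num)).const_mul (|C|)
    simp only [mul_zero] at this
    refine this.congr (fun n => ?_)
    rw [one_div, inv_pow]; rfl
  rw [neg_zero] at h2
  exact le_of_tendsto' h2 (fun n => h1 n t ht x hx)

lemma gg_nonneg {ρ : ℝ} (hρ : ρ ∈ Icc (0 : ℝ) 1) :
    ∀ t ∈ Icc (0 : ℝ) (1 / 100), ∀ x ∈ Icc (-1 : ℝ) 1, 0 ≤ gg ρ t x := by
  apply boot (C := 18 / 5)
  · intro t ht x hx; exact (abs_le.1 (gg_abs hρ ht hx)).1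
  · intro D hD ih t ht x hx
    rw [gg_eq hρ ht hx]
    have ht' := mul_mem' hρ ht
    by_cases hph : 0 ≤ ph t x
    · have := ih _ ht' _ (tc_mem hx); linarith
    · rw [gg_eq hρ ht' (tc_mem hx)]
      have h3 := ih _ (mul_mem' hρ ht') _ (tc_mem (tc_mem hx))
      have hle : ρ * t ≤ t := by nlinarith [ht.1, hρ.2]
      have key : 0 ≤ ph t x + 1 / 2 * ph (ρ * t) (tc x) := by
        rw [not_le] at hph
        unfold ph at hph
        have hxneg : x < 0 := by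
          by_contra hx0
          rw [not_lt] at hx0
          have := mul_nonneg (by linarith [ht.1] : (0:ℝ) ≤ 1 + t) (sq_nonneg x)
          have := mul_nonneg (by linarith [ht.2] : (0:ℝ) ≤ 4 / 5 - t) hx0
          linarith
        obtain ⟨y, rfl⟩ : ∃ y, x = -y := ⟨-x, by ring⟩
        have hy : 0 < y := by linarith
        have hy1 : y < 4 / 5 - t := by
          have h1 : y * ((1 + t) * y) < y * (4 / 5 - t) := by nlinarith
          have h2 := lt_of_mul_lt_mul_left h1 hy.le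
          nlinarith [ht.1]
        have hy2 : y < 4 / 5 := by linarith [ht.1]
        have hv : tc (-y) = y * (3 - 4 * y ^ 2) := by unfold tc; ring
        have hq : 0 < 3 - 4 * y ^ 2 := by nlinarith
        rw [hv]
        unfold ph
        have hv0 : 0 ≤ y * (3 - 4 * y ^ 2) := by positivity
        have e1 : (y * (3 - 4 * y ^ 2)) ^ 2 + (4 / 5 - t) * (y * (3 - 4 * y ^ 2)) ≤
            (1 + ρ * t) * (y * (3 - 4 * y ^ 2)) ^ 2 + (4 / 5 - ρ * t) * (y * (3 - 4 * y ^ 2)) := by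
          nlinarith [mul_nonneg ht'.1 (sq_nonneg (y * (3 - 4 * y ^ 2))), mul_nonneg (sub_nonneg.2 hle) hv0]
        have e2 : 0 ≤ y * (y * (3 - 4 * y ^ 2) ^ 2 + (2 * y + (4 / 5 - t) * (1 - 4 * y ^ 2))) := by
          apply mul_nonneg hy.le
          have a1 : 0 ≤ y * (3 - 4 * y ^ 2) ^ 2 := by positivity
          have a2 : 0 ≤ 2 * y + (4 / 5 - t) * (1 - 4 * y ^ 2) := by
            rcases le_total (4 * y ^ 2) 1 with h | h
            · have := mul_nonneg (by linarith : (0:ℝ) ≤ 4 / 5 - t) (by linarith : (0:ℝ) ≤ 1 - 4 * y ^ 2)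
              linarith
            · have := mul_nonneg ht.1 (by linarith : (0:ℝ) ≤ 4 * y ^ 2 - 1)
              nlinarith
          linarith
        have e3 : 0 ≤ t * y ^ 2 := mul_nonneg ht.1 (sq_nonneg y)
        nlinarith
      linarith

/-- the complementary function -/
noncomputable def hh (ρ t x : ℝ) : ℝ := 18 / 5 - gg ρ t x

lemma hh_eq {ρ : ℝ} (hρ : ρ ∈ Icc (0 : ℝ) 1) {t : ℝ} (ht : t ∈ Icc (0 : ℝ) (1 / 100))
    {x : ℝ} (hx : x ∈ Icc (-1 : ℝ) 1) :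
    hh ρ t x = (9 / 5 - ph t x) + 1 / 2 * hh ρ (ρ * t) (tc x) := by
  unfold hh; rw [gg_eq hρ ht hx]; ring

lemma hh_nonneg {ρ : ℝ} (hρ : ρ ∈ Icc (0 : ℝ) 1) {t : ℝ} (ht : t ∈ Icc (0 : ℝ) (1 / 100))
    {x : ℝ} (hx : x ∈ Icc (-1 : ℝ) 1) : 0 ≤ hh ρ t x := by
  have := (abs_le.1 (gg_abs hρ ht hx)).2
  unfold hh; linarith

lemma gg_one {ρ : ℝ} (hρ : ρ ∈ Icc (0 : ℝ) 1) :
    ∀ t ∈ Icc (0 : ℝ) (1 / 100), gg ρ t 1 = 18 / 5 := by
  have h1 : ∀ t ∈ Icc (0 : ℝ) (1 / 100), ∀ x ∈ ({1} : Set ℝ), 0 ≤ gg ρ t x - 18 / 5 := by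
    apply boot (C := 36 / 5)
    · rintro t ht x rfl
      have := (abs_le.1 (gg_abs hρ ht (by norm_num : (1:ℝ) ∈ Icc (-1:ℝ) 1))).1; linarith
    · rintro D hD ih t ht x rfl
      rw [gg_eq hρ ht (by norm_num : (1:ℝ) ∈ Icc (-1:ℝ) 1), tc_one]
      have := ih _ (mul_mem' hρ ht) 1 rfl
      have e : ph t 1 = 9 / 5 := by unfold ph; ring
      linarith
  intro t ht
  have := h1 t ht 1 rfl
  have := (abs_le.1 (gg_abs hρ ht (by norm_num : (1:ℝ) ∈ Icc (-1:ℝ) 1))).2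
  linarith

lemma gg_zero {ρ : ℝ} (hρ : ρ ∈ Icc (0 : ℝ) 1) :
    ∀ t ∈ Icc (0 : ℝ) (1 / 100), gg ρ t 0 = 0 := by
  have h1 : ∀ t ∈ Icc (0 : ℝ) (1 / 100), ∀ x ∈ ({0} : Set ℝ), 0 ≤ -gg ρ t x := by
    apply boot (C := 18 / 5)
    · rintro t ht x rfl
      have := (abs_le.1 (gg_abs hρ ht (by norm_num : (0:ℝ) ∈ Icc (-1:ℝ) 1))).2; linarith
    · rintro D hD ih t ht x rfl
      rw [gg_eq hρ ht (by norm_num : (0:ℝ) ∈ Icc (-1:ℝ) 1), tc_zero]
      have := ih _ (mul_mem' hρ ht) 0 rfl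
      have e : ph t 0 = 0 := by unfold ph; ring
      linarith
  intro t ht
  have := h1 t ht 0 rfl
  have := gg_nonneg hρ t ht 0 (by norm_num)
  linarith

lemma hh_lower {ρ : ℝ} (hρ : ρ ∈ Icc (0 : ℝ) 1) :
    ∀ t ∈ Icc (0 : ℝ) (1 / 100), ∀ s ∈ Icc (0 : ℝ) 1, 0 ≤ hh ρ t (1 - 2 * s ^ 2) - 101 / 50 * s := by
  apply boot (C := 101 / 50)
  · intro t ht s hs
    have := hh_nonneg hρ ht (x := 1 - 2 * s ^ 2) ⟨by nlinarith [hs.1, hs.2], by nlinarith [hs.1, hs.2]⟩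
    linarith [hs.2]
  · intro D hD ih t ht s hs
    have hx : (1 - 2 * s ^ 2) ∈ Icc (-1 : ℝ) 1 := ⟨by nlinarith [hs.1, hs.2], by nlinarith [hs.1, hs.2]⟩
    rw [hh_eq hρ ht hx]
    have ht' := mul_mem' hρ ht
    have hs2 : |3 * s - 4 * s ^ 3| ∈ Icc (0 : ℝ) 1 := by
      refine ⟨abs_nonneg _, ?_⟩
      have := tc_mem (x := s) ⟨by linarith [hs.1], hs.2⟩
      rw [← abs_neg, abs_le]
      unfold tc at this
      constructor <;> [linarith [this.1]; linarith [this.2]]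
    have hT : tc (1 - 2 * s ^ 2) = 1 - 2 * |3 * s - 4 * s ^ 3| ^ 2 := by
      rw [sq_abs]; unfold tc; ring
    have h3 := ih _ ht' _ hs2
    rw [← hT] at h3
    have key : 101 / 50 * s ≤ 9 / 5 - ph t (1 - 2 * s ^ 2) + 1 / 2 * (101 / 50 * |3 * s - 4 * s ^ 3|) := by
      have e1 : 9 / 5 - ph t (1 - 2 * s ^ 2) = 2 * s ^ 2 * (14 / 5 - 2 * s ^ 2 + t * (1 - 2 * s ^ 2)) := by
        unfold ph; ring
      rw [e1]
      have e2 : 2 * s ^ 2 * (14 / 5 - 2 * s ^ 2 - 1 / 100) ≤ 2 * s ^ 2 * (14 / 5 - 2 * s ^ 2 + t * (1 - 2 * s ^ 2)) := by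
        apply mul_le_mul_of_nonneg_left _ (by positivity)
        have := mul_nonneg ht.1 (by linarith [hx.1] : (0:ℝ) ≤ 1 - 2 * s ^ 2 + 1)
        linarith [ht.2]
      have e3 : 3 * s - 4 * s ^ 3 ≤ |3 * s - 4 * s ^ 3| := le_abs_self _
      have e4 : -(3 * s - 4 * s ^ 3) ≤ |3 * s - 4 * s ^ 3| := neg_le_abs _
      have hs0 := hs.1
      have hs1 := hs.2
      rcases le_total (4 * s ^ 2) 3 with h | h
      · have q : 0 ≤ s * (2 * s * (279 / 100 - 2 * s ^ 2) + 101 / 100 * (1 - 4 * s ^ 2)) := by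
          apply mul_nonneg hs0
          have : s ≤ 87 / 100 := by nlinarith
          nlinarith [mul_nonneg hs0 (by linarith : (0:ℝ) ≤ 87/100 - s), mul_nonneg (mul_nonneg hs0 hs0) (by linarith : (0:ℝ) ≤ 87/100 - s)]
        nlinarith
      · have q : 0 ≤ s * (2 * s * (279 / 100 - 2 * s ^ 2) + 101 / 100 * (4 * s ^ 2 - 5)) := by
          apply mul_nonneg hs0
          have : 86 / 100 ≤ s := by nlinarith
          nlinarith [mul_nonneg (by linarith : (0:ℝ) ≤ 1 - s) (by linarith : (0:ℝ) ≤ s - 86/100), mul_nonneg (mul_nonneg hs0 (by linarith : (0:ℝ) ≤ 1 - s)) (by linarith : (0:ℝ) ≤ s - 86/100)]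
        nlinarith
    linarith

/-- the data of the construction -/
structure Dat (c S ρ : ℝ) : Prop where
  hS : S ^ 2 = 3 / 4
  S1 : 866 / 1000 < S
  S2 : S < 8661 / 10000
  hc : tc c = -S
  c1 : 342 / 1000 ≤ c
  c2 : c ≤ 3421 / 10000
  hρ : ρ ∈ Icc (0 : ℝ) 1
  hz : ρ / 2 * (3 / 4 + S) = (1 - c) * (c + 1 / 2)

lemma exists_dat : ∃ c S ρ : ℝ, Dat c S ρ := by
  have hS : (Real.sqrt 3 / 2) ^ 2 = 3 / 4 := by
    rw [div_pow, Real.sq_sqrt (by norm_num)]; norm_num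
  have hS0 : 0 ≤ Real.sqrt 3 / 2 := by positivity
  set S := Real.sqrt 3 / 2 with hSd
  have S1 : 866 / 1000 < S := by nlinarith
  have S2 : S < 8661 / 10000 := by nlinarith
  obtain ⟨c, hc, hc2⟩ : -S ∈ tc '' Icc (342 / 1000 : ℝ) (3421 / 10000) := by
    apply intermediate_value_Icc' (by norm_num) tc_cont.continuousOn
    constructor
    · unfold tc; norm_num; nlinarith
    · unfold tc; norm_num; nlinarith
  have hpos : 0 < (3 / 4 + S) := by linarith
  refine ⟨c, S, 2 * ((1 - c) * (c + 1 / 2)) / (3 / 4 + S), hS, S1, S2, hc2, hc.1, hc.2, ⟨?_, ?_⟩, ?_⟩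
  · apply div_nonneg _ hpos.le
    nlinarith [hc.1, hc.2]
  · rw [div_le_one hpos]; nlinarith [hc.1, hc.2]
  · field_simp

section main
variable {c S ρ : ℝ}

lemma gg_S (d : Dat c S ρ) {t : ℝ} (ht : t ∈ Icc (0 : ℝ) (1 / 100)) : gg ρ t (-S) = ph t (-S) := by
  have hSm : -S ∈ Icc (-1 : ℝ) 1 := ⟨by linarith [d.S2], by linarith [d.S1]⟩
  rw [gg_eq d.hρ ht hSm]
  have : tc (-S) = 0 := by
    unfold tc
    have : 4 * (-S) ^ 3 - 3 * (-S) = S * (3 - 4 * S ^ 2) := by ring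
    rw [this, d.hS]; ring
  rw [this, gg_zero d.hρ _ (mul_mem' d.hρ ht)]; ring

/-- level one residual, up to a constant -/
noncomputable def rr (ρ t x : ℝ) : ℝ := (1 + t) * (x ^ 2 - x / 2) + 1 / 2 * gg ρ (ρ * t) (tc x)

lemma gg_rr (d : Dat c S ρ) {t x : ℝ} (ht : t ∈ Icc (0 : ℝ) (1 / 100)) (hx : x ∈ Icc (-1 : ℝ) 1) :
    gg ρ t x = (13 / 10 - t / 2) * x + rr ρ t x := by
  rw [gg_eq d.hρ ht hx]; unfold rr ph; ring

lemma rr_upper (d : Dat c S ρ) {t x : ℝ} (ht : t ∈ Icc (0 : ℝ) (1 / 100)) (hx : x ∈ Icc (-1 : ℝ) 1) :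
    rr ρ t x ≤ (1 + t) / 2 + 9 / 5 := by
  have ht' := mul_mem' d.hρ ht
  have h0 := hh_nonneg d.hρ ht' (tc_mem hx)
  rcases le_total (-1 / 2) x with h | h
  · have : (x - 1) * (x + 1 / 2) ≤ 0 := by
      apply mul_nonpos_of_nonpos_of_nonneg <;> linarith [hx.2]
    have h2 := mul_nonneg (by linarith [ht.1] : (0:ℝ) ≤ 1 + t) (neg_nonneg.2 this)
    unfold rr; unfold hh at h0; nlinarith
  · set a := Real.sqrt ((1 - x) / 2) with ha
    have ha2 : a ^ 2 = (1 - x) / 2 := Real.sq_sqrt (by linarith [hx.2])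
    have ha0 : 0 ≤ a := Real.sqrt_nonneg _
    have ha1 : a ≤ 1 := by nlinarith [hx.1]
    have hxa : x = 1 - 2 * a ^ 2 := by linarith
    have hs0 : 0 ≤ a * (4 * a ^ 2 - 3) := mul_nonneg ha0 (by linarith)
    have hs1 : a * (4 * a ^ 2 - 3) ≤ 1 := by
      have := (tc_mem (x := a) ⟨by linarith, ha1⟩).2
      unfold tc at this; linarith
    have hT : tc x = 1 - 2 * (a * (4 * a ^ 2 - 3)) ^ 2 := by rw [hxa]; unfold tc; ring
    have h3 := hh_lower d.hρ _ ht' (a * (4 * a ^ 2 - 3)) ⟨hs0, hs1⟩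
    rw [← hT] at h3
    unfold hh at h3
    have h4 : (1 + t) * (x ^ 2 - x / 2 - 1 / 2) = (1 + t) * a * (a * (4 * a ^ 2 - 3)) := by
      rw [hxa]; ring
    have h5 : (1 + t) * a ≤ 101 / 100 := by nlinarith [ht.1, ht.2]
    have h6 := mul_le_mul_of_nonneg_right h5 hs0
    unfold rr; linarith

lemma rr_one (d : Dat c S ρ) {t : ℝ} (ht : t ∈ Icc (0 : ℝ) (1 / 100)) :
    rr ρ t 1 = (1 + t) / 2 + 9 / 5 := by
  unfold rr; rw [tc_one, gg_one d.hρ _ (mul_mem' d.hρ ht)]; ring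

lemma rr_half (d : Dat c S ρ) {t : ℝ} (ht : t ∈ Icc (0 : ℝ) (1 / 100)) :
    rr ρ t (-1 / 2) = (1 + t) / 2 + 9 / 5 := by
  unfold rr; rw [tc_half, gg_one d.hρ _ (mul_mem' d.hρ ht)]; ring

lemma rr_c (d : Dat c S ρ) {t : ℝ} (ht : t ∈ Icc (0 : ℝ) (1 / 100)) :
    rr ρ t c = (1 + t) * (c ^ 2 - c / 2) + 1 / 2 * ph (ρ * t) (-S) := by
  unfold rr; rw [d.hc, gg_S d (mul_mem' d.hρ ht)]

lemma rr_lower (d : Dat c S ρ) {t x : ℝ} (ht : t ∈ Icc (0 : ℝ) (1 / 100)) (hx : x ∈ Icc (-1 : ℝ) 1) :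
    (1 + t) * (c ^ 2 - c / 2) + 1 / 2 * ph (ρ * t) (-S) ≤ rr ρ t x := by
  have ht' := mul_mem' d.hρ ht
  have ht'' := mul_mem' d.hρ ht'
  have hv := tc_mem hx
  have g0 := gg_nonneg d.hρ _ ht' _ hv
  have hS := d.hS
  have S1 := d.S1
  have S2 := d.S2
  have c1 := d.c1
  have c2 := d.c2
  have t0 := ht.1
  have t1 := ht.2
  have hcS : 4 * c ^ 3 - 3 * c = -S := d.hc
  have gp : ph (ρ * t) (tc x) ≤ gg ρ (ρ * t) (tc x) := by
    rw [gg_eq d.hρ ht' hv]
    have := gg_nonneg d.hρ _ ht'' _ (tc_mem hv)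
    linarith
  unfold rr
  by_cases hA : x ≤ 0 ∨ 1 / 2 ≤ x
  · have h1 : 0 ≤ x * (x - 1 / 2) := by
      rcases hA with h | h
      · exact mul_nonneg_of_nonpos_of_nonpos h (by linarith)
      · exact mul_nonneg (by linarith) (by linarith)
    have h2 : 27 / 500 - 1/10000 ≤ c / 2 - c ^ 2 := by nlinarith
    have h3 : ph (ρ * t) (-S) ≤ 8 / 100 := by
      unfold ph; nlinarith [ht'.1, ht'.2]
    have h4 := mul_nonneg t0 h1
    have h5 := mul_nonneg t0 (by linarith : (0:ℝ) ≤ c / 2 - c ^ 2)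
    nlinarith
  · rw [not_or, not_le, not_le] at hA
    obtain ⟨x0, x1⟩ := hA
    have hfac : tc x + S = (x - c) * (4 * (x ^ 2 + x * c + c ^ 2) - 3) := by
      unfold tc; linear_combination hcS
    have hW : 0 ≤ 3 - 4 * (x ^ 2 + x * c + c ^ 2) := by nlinarith
    rcases le_total c x with hcx | hcx
    · have h1 : tc x + S ≤ 0 := by
        rw [hfac]; nlinarith [mul_nonneg (sub_nonneg.2 hcx) hW]
      have h2 : 0 ≤ (x - c) * (x + c - 1 / 2) := mul_nonneg (by linarith) (by linarith)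
      have h3 : 0 ≤ -(tc x + S) * (-((1 + ρ * t) * (tc x - S) + (4 / 5 - ρ * t))) := by
        apply mul_nonneg (by linarith)
        nlinarith [ht'.1, ht'.2]
      have h4 : ph (ρ * t) (-S) ≤ ph (ρ * t) (tc x) := by
        unfold ph; linarith
      have h5 := mul_nonneg t0 h2
      nlinarith
    · -- the main case
      obtain ⟨y, hy⟩ : ∃ y, tc x = -y := ⟨-tc x, by ring⟩
      have hyx : y = 3 * x - 4 * x ^ 3 := by unfold tc at hy; linarith
      have hSy : S - y = (c - x) * (3 - 4 * (x ^ 2 + x * c + c ^ 2)) := by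
        have : tc x + S = S - y := by rw [hy]; ring
        rw [← this, hfac]; ring
      have hSy0 : 0 ≤ S - y := by rw [hSy]; exact mul_nonneg (by linarith) hW
      have hy0 : 0 ≤ y := by rw [hyx]; nlinarith
      have hv1 : tc (-y) = 4 * y * (S - y) * (S + y) := by
        unfold tc; linear_combination (-4 * y) * hS
      have hv10 : 0 ≤ 4 * y * (S - y) * (S + y) := by positivity
      have g2 : ph (ρ * t) (-y) + 1 / 2 * (79 / 100 * (4 * y * (S - y) * (S + y))) ≤ gg ρ (ρ * t) (tc x) := by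
        rw [hy] at hv ⊢
        rw [gg_eq d.hρ ht' hv]
        have hw := tc_mem hv
        rw [gg_eq d.hρ ht'' hw]
        have g3 := gg_nonneg d.hρ _ (mul_mem' d.hρ ht'') _ (tc_mem hw)
        rw [hv1] at g3 ⊢
        have : 79 / 100 * (4 * y * (S - y) * (S + y)) ≤ ph (ρ * (ρ * t)) (4 * y * (S - y) * (S + y)) := by
          unfold ph
          have a1 := mul_nonneg (by linarith [ht''.1] : (0:ℝ) ≤ 1 + ρ * (ρ * t)) (sq_nonneg (4 * y * (S - y) * (S + y)))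
          have a2 := mul_nonneg (by linarith [ht''.2] : (0:ℝ) ≤ 1 / 100 - ρ * (ρ * t)) hv10
          nlinarith
        linarith
      have g4 : ph (ρ * t) (-y) - ph (ρ * t) (-S) =
          (S - y) * ((4 / 5 - ρ * t) - (1 + ρ * t) * (S + y)) := by unfold ph; ring
      set W := 3 - 4 * (x ^ 2 + x * c + c ^ 2) with hWd
      have hN : (S - y) * (79 / 100 - 101 / 100 * (S + y)) ≤
          (S - y) * ((4 / 5 - ρ * t) - (1 + ρ * t) * (S + y)) := by
        apply mul_le_mul_of_nonneg_left _ hSy0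
        have := mul_nonneg (by linarith [ht'.2] : (0:ℝ) ≤ 1 / 100 - ρ * t) (by linarith : (0:ℝ) ≤ S + y)
        linarith [ht'.2]
      have key : 0 ≤ (c - x) * ((1 + t) * (1 / 2 - c - x) +
          1 / 2 * W * (79 / 100 - 101 / 100 * (S + y) + 158 / 100 * y * (S + y))) := by
        apply mul_nonneg (by linarith)
        have hW2 : W ≤ 2533 / 1000 := by rw [hWd]; nlinarith
        have hW1 : 159 / 100 ≤ W := by rw [hWd]; nlinarith
        rcases le_total x (6 / 100) with hx6 | hx6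
        · have hy2 : 298 / 100 * x ≤ y := by rw [hyx]; nlinarith
          have n1 : -(85 / 1000) + 106 / 100 * x ≤ 79 / 100 - 101 / 100 * (S + y) + 158 / 100 * y * (S + y) := by
            nlinarith
          have n2 : -(85 / 1000) + 106 / 100 * x ≤ 0 := by linarith
          have n3 : 1 / 2 * W * (-(85 / 1000) + 106 / 100 * x) ≤
              1 / 2 * W * (79 / 100 - 101 / 100 * (S + y) + 158 / 100 * y * (S + y)) :=
            mul_le_mul_of_nonneg_left n1 (by linarith)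
          have n4 := mul_nonneg (by linarith : (0:ℝ) ≤ 2533 / 1000 - W) (by linarith : (0:ℝ) ≤ (85 / 1000) - 106 / 100 * x)
          have n5 := mul_nonneg t0 (by linarith : (0:ℝ) ≤ 1 / 2 - c - x)
          nlinarith
        · have hy2 : 17 / 100 ≤ y := by rw [hyx]; nlinarith
          have n0 : 0 ≤ 79 / 100 - 101 / 100 * (S + y) + 158 / 100 * y * (S + y) := by
            nlinarith
          rcases le_total x (15 / 100) with hx15 | hx15
          · have n5 := mul_nonneg (by linarith : (0:ℝ) ≤ 1 + t) (by linarith : (0:ℝ) ≤ 1 / 2 - c - x)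
            have n6 := mul_nonneg (by linarith : (0:ℝ) ≤ 1 / 2 * W) n0
            linarith
          · have hy3 : 43 / 100 ≤ y := by rw [hyx]; nlinarith
            have n7 : 1 / 4 ≤ 79 / 100 - 101 / 100 * (S + y) + 158 / 100 * y * (S + y) := by
              nlinarith
            have n8 : 1 / 2 * (159 / 100) * (1 / 4) ≤ 1 / 2 * W * (79 / 100 - 101 / 100 * (S + y) + 158 / 100 * y * (S + y)) := by
              have := mul_nonneg (by linarith : (0:ℝ) ≤ W - 159 / 100) (by linarith : (0:ℝ) ≤ 79 / 100 - 101 / 100 * (S + y) + 158 / 100 * y * (S + y))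
              nlinarith
            have n9 := mul_nonneg (by linarith : (0:ℝ) ≤ 1 / 100 - t) (by linarith : (0:ℝ) ≤ c + x - 0)
            nlinarith
      have hSy2 : S - y = (c - x) * W := hSy
      have fin : 0 ≤ (1 + t) * ((x - c) * (x + c - 1 / 2)) + 1 / 2 * ((S - y) * (79 / 100 - 101 / 100 * (S + y))
          + 1 / 2 * (79 / 100 * (4 * y * (S - y) * (S + y)))) := by
        have : (1 + t) * ((x - c) * (x + c - 1 / 2)) + 1 / 2 * ((S - y) * (79 / 100 - 101 / 100 * (S + y))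
          + 1 / 2 * (79 / 100 * (4 * y * (S - y) * (S + y)))) = (c - x) * ((1 + t) * (1 / 2 - c - x) +
          1 / 2 * W * (79 / 100 - 101 / 100 * (S + y) + 158 / 100 * y * (S + y))) := by
          rw [hSy2]; ring
        rw [this]; exact key
      linarith

end main

/-- averaged powers over the three preimages -/
noncomputable def pw : ℕ → Polynomial ℝ
  | 0 => 1
  | 1 => 0
  | 2 => C (1 / 2)
  | (m + 3) => C (3 / 4) * pw (m + 1) + C (1 / 4) * (X * pw m)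

lemma pw_deg (m : ℕ) : (pw m).natDegree ≤ m / 3 := by
  induction m using Nat.strong_induction_on with
  | _ m ih =>
    match m, ih with
    | 0, _ => simp [pw]
    | 1, _ => simp [pw]
    | 2, _ => simp [pw]
    | (k + 3), ih =>
      unfold pw
      have h1 := ih (k + 1) (by omega)
      have h2 := ih k (by omega)
      apply natDegree_add_le_of_degree_le
      · exact (natDegree_C_mul_le _ _).trans (h1.trans (by omega))
      · refine (natDegree_C_mul_le _ _).trans (natDegree_mul_le.trans ?_)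
        have := natDegree_X_le (R := ℝ)
        omega

lemma pw_eval {a1 a2 a3 y : ℝ} (h1 : a1 + a2 + a3 = 0) (h2 : a1 ^ 2 + a2 ^ 2 + a3 ^ 2 = 3 / 2)
    (e1 : tc a1 = y) (e2 : tc a2 = y) (e3 : tc a3 = y) (m : ℕ) :
    (pw m).eval y = (a1 ^ m + a2 ^ m + a3 ^ m) / 3 := by
  unfold tc at e1 e2 e3
  induction m using Nat.strong_induction_on with
  | _ m ih =>
    match m, ih with
    | 0, _ => simp [pw]; norm_num
    | 1, _ => simp [pw]; linarith
    | 2, _ => simp [pw]; linarith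
    | (k + 3), ih =>
      unfold pw
      rw [eval_add, eval_mul, eval_mul, eval_mul, eval_C, eval_C, eval_X, ih (k + 1) (by omega), ih k (by omega)]
      have p1 : a1 ^ (k + 3) = a1 ^ k * ((3 * a1 + y) / 4) := by rw [← e1]; ring
      have p2 : a2 ^ (k + 3) = a2 ^ k * ((3 * a2 + y) / 4) := by rw [← e2]; ring
      have p3 : a3 ^ (k + 3) = a3 ^ k * ((3 * a3 + y) / 4) := by rw [← e3]; ring
      rw [p1, p2, p3]; ring

/-- the three preimages -/
lemma preim {y : ℝ} (hy : y ∈ Icc (-1 : ℝ) 1) : ∃ a1 a2 a3 : ℝ, a1 ∈ Icc (-1 : ℝ) 1 ∧ a2 ∈ Icc (-1 : ℝ) 1 ∧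
    a3 ∈ Icc (-1 : ℝ) 1 ∧ a1 + a2 + a3 = 0 ∧ a1 ^ 2 + a2 ^ 2 + a3 ^ 2 = 3 / 2 ∧ tc a1 = y ∧ tc a2 = y ∧ tc a3 = y := by
  set a := Real.arccos y / 3 with ha
  set w := Real.cos a with hw
  set v := Real.sin a with hv
  have hwv : w ^ 2 + v ^ 2 = 1 := by rw [hw, hv]; exact Real.cos_sq_add_sin_sq a
  have hyw : 4 * w ^ 3 - 3 * w = y := by
    have : Real.cos (3 * a) = y := by
      rw [ha, mul_div_cancel₀ _ (by norm_num : (3:ℝ) ≠ 0)]; exact Real.cos_arccos hy.1 hy.2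
    rw [← this, Real.cos_three_mul]
  set q := Real.sqrt 3 with hq
  have hq2 : q ^ 2 = 3 := Real.sq_sqrt (by norm_num)
  have m1 : w ∈ Icc (-1 : ℝ) 1 := ⟨Real.neg_one_le_cos a, Real.cos_le_one a⟩
  have m2 : -w / 2 - q / 2 * v ∈ Icc (-1 : ℝ) 1 := by
    have : (-w / 2 - q / 2 * v) ^ 2 ≤ 1 := by
      have : (-w / 2 - q / 2 * v) ^ 2 + (q / 2 * w - v / 2) ^ 2 = 1 := by
        linear_combination ((w ^ 2 + v ^ 2) / 4) * hq2 + hwv
      nlinarith [sq_nonneg (q / 2 * w - v / 2)]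
    rw [sq_le_one_iff_abs_le_one, abs_le] at this
    exact this
  have m3 : -w / 2 + q / 2 * v ∈ Icc (-1 : ℝ) 1 := by
    have : (-w / 2 + q / 2 * v) ^ 2 ≤ 1 := by
      have : (-w / 2 + q / 2 * v) ^ 2 + (q / 2 * w + v / 2) ^ 2 = 1 := by
        linear_combination ((w ^ 2 + v ^ 2) / 4) * hq2 + hwv
      nlinarith [sq_nonneg (q / 2 * w + v / 2)]
    rw [sq_le_one_iff_abs_le_one, abs_le] at this
    exact this
  refine ⟨w, -w / 2 - q / 2 * v, -w / 2 + q / 2 * v, m1, m2, m3, by ring, ?_, hyw, ?_, ?_⟩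
  · linear_combination (v ^ 2 / 2) * hq2 + (3 / 2) * hwv
  · unfold tc
    have e : 4 * (-w / 2 - q / 2 * v) ^ 3 - 3 * (-w / 2 - q / 2 * v) - (4 * w ^ 3 - 3 * w) = 0 := by
      have hv2 : v ^ 2 = 1 - w ^ 2 := by linarith
      have hv3 : v ^ 3 = v * (1 - w ^ 2) := by rw [← hv2]; ring
      have hq3 : q ^ 3 = 3 * q := by rw [← hq2]; ring
      ring_nf
      rw [hq2, hq3, hv2, hv3]; ring
    linarith
  · unfold tc
    have e : 4 * (-w / 2 + q / 2 * v) ^ 3 - 3 * (-w / 2 + q / 2 * v) - (4 * w ^ 3 - 3 * w) = 0 := by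
      have hv2 : v ^ 2 = 1 - w ^ 2 := by linarith
      have hv3 : v ^ 3 = v * (1 - w ^ 2) := by rw [← hv2]; ring
      have hq3 : q ^ 3 = 3 * q := by rw [← hq2]; ring
      ring_nf
      rw [hq2, hq3, hv2, hv3]; ring
    linarith

/-- averaging a polynomial over preimages lowers the degree by a factor three -/
lemma avg_poly (n : ℕ) (q : Polynomial ℝ) (hq : q.degree < ((3 * n : ℕ) : WithBot ℕ)) :
    ∃ q' : Polynomial ℝ, q'.degree < (n : WithBot ℕ) ∧ ∀ a1 a2 a3 y : ℝ, a1 + a2 + a3 = 0 →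
      a1 ^ 2 + a2 ^ 2 + a3 ^ 2 = 3 / 2 → tc a1 = y → tc a2 = y → tc a3 = y →
      q'.eval y = (q.eval a1 + q.eval a2 + q.eval a3) / 3 := by
  refine ⟨∑ i ∈ Finset.range (3 * n), q.coeff i • pw i, ?_, ?_⟩
  · rw [← mem_degreeLT]
    apply Submodule.sum_mem
    intro i hi
    apply Submodule.smul_mem
    rw [mem_degreeLT]
    have h1 := pw_deg i
    rw [Finset.mem_range] at hi
    refine lt_of_le_of_lt degree_le_natDegree ?_
    exact_mod_cast lt_of_le_of_lt h1 (by omega)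
  · intro a1 a2 a3 y h1 h2 e1 e2 e3
    have hev : ∀ a : ℝ, q.eval a = ∑ i ∈ Finset.range (3 * n), q.coeff i * a ^ i := by
      intro a
      by_cases hq0 : q = 0
      · simp [hq0]
      · exact eval_eq_sum_range' ((natDegree_lt_iff_degree_lt hq0).2 hq) a
    rw [hev a1, hev a2, hev a3, eval_finsetSum, ← Finset.sum_add_distrib, ← Finset.sum_add_distrib, Finset.sum_div]
    apply Finset.sum_congr rfl
    intro i _
    rw [eval_smul, smul_eq_mul, pw_eval h1 h2 e1 e2 e3 i]; ring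

/-- the error sequence -/
noncomputable def ee (E : ℝ) : ℕ → ℝ
  | 0 => 9 / 5
  | 1 => 9 / 5
  | 2 => E
  | (k + 3) => 1 / 2 * ee E ((k + 5) / 3)
decreasing_by omega

/-- the best approximations -/
noncomputable def pp (ρ : ℝ) (B : ℝ → ℝ) : ℕ → ℝ → Polynomial ℝ
  | 0, _ => 0
  | 1, _ => 0
  | 2, t => C (13 / 10 - t / 2) * X + C (B t)
  | (k + 3), t => (C (1 + t) * X ^ 2 + C (4 / 5 - t) * X - C (9 / 10)) +
      C (1 / 2) * (pp ρ B ((k + 5) / 3) (ρ * t)).comp (C 4 * X ^ 3 - C 3 * X)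
decreasing_by omega

lemma t3_eval (x : ℝ) : (C 4 * X ^ 3 - C 3 * X : Polynomial ℝ).eval x = tc x := by
  simp [tc]

lemma t3_natDegree : (C 4 * X ^ 3 - C 3 * X : Polynomial ℝ).natDegree = 3 := by
  rw [natDegree_sub_eq_left_of_natDegree_lt]
  · exact natDegree_C_mul_X_pow 3 4 (by norm_num)
  · rw [natDegree_C_mul_X_pow 3 4 (by norm_num)]
    exact lt_of_le_of_lt ((natDegree_C_mul_le _ _).trans natDegree_X_le) (by norm_num)

lemma t3_lead : (C 4 * X ^ 3 - C 3 * X : Polynomial ℝ).leadingCoeff = 4 := by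
  unfold leadingCoeff
  rw [t3_natDegree]
  simp

lemma comp_deg {p : Polynomial ℝ} {m : ℕ} (hp : p.natDegree ≤ m) :
    (p.comp (C 4 * X ^ 3 - C 3 * X)).natDegree ≤ 3 * m := by
  rw [natDegree_comp, t3_natDegree]; omega

lemma comp_coeff {p : Polynomial ℝ} {m : ℕ} (hp : p.natDegree ≤ m) :
    (p.comp (C 4 * X ^ 3 - C 3 * X)).coeff (3 * m) = p.coeff m * 4 ^ m := by
  rcases hp.lt_or_eq with h | h
  · rw [coeff_eq_zero_of_natDegree_lt h, zero_mul]
    apply coeff_eq_zero_of_natDegree_lt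
    rw [natDegree_comp, t3_natDegree]; omega
  · have h1 := coeff_comp_degree_mul_degree (p := p) (q := (C 4 * X ^ 3 - C 3 * X : Polynomial ℝ))
      (by rw [t3_natDegree]; norm_num)
    rw [t3_natDegree, t3_lead, h, mul_comm m 3] at h1
    rw [h1]; unfold leadingCoeff; rw [h]

lemma quad_deg (t : ℝ) : (C (1 + t) * X ^ 2 + C (4 / 5 - t) * X - C (9 / 10) : Polynomial ℝ).natDegree ≤ 2 := by
  compute_degree

lemma pp_deg (ρ : ℝ) (B : ℝ → ℝ) (k : ℕ) : ∀ t : ℝ, (pp ρ B k t).natDegree ≤ k - 1 := by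
  induction k using Nat.strong_induction_on with
  | _ k ih =>
    match k, ih with
    | 0, _ => intro t; simp [pp]
    | 1, _ => intro t; simp [pp]
    | 2, _ => intro t; unfold pp; compute_degree
    | (k + 3), ih =>
      intro t
      unfold pp
      have h1 := ih ((k + 5) / 3) (by omega) (ρ * t)
      have h2 := comp_deg h1
      apply natDegree_add_le_of_degree_le
      · exact (quad_deg t).trans (by omega)
      · exact (natDegree_C_mul_le _ _).trans (h2.trans (by omega))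

lemma pp_degree (ρ : ℝ) (B : ℝ → ℝ) (k : ℕ) (t : ℝ) : (pp ρ B k t).degree < (k : WithBot ℕ) := by
  match k with
  | 0 => simp [pp]
  | (k + 1) =>
    refine lt_of_le_of_lt degree_le_natDegree ?_
    have := pp_deg ρ B (k + 1) t
    exact_mod_cast (show (pp ρ B (k + 1) t).natDegree < k + 1 by omega)

lemma quad_coeff (t : ℝ) (ht : 0 ≤ t) (k : ℕ) :
    0 ≤ (C (1 + t) * X ^ 2 + C (4 / 5 - t) * X - C (9 / 10) : Polynomial ℝ).coeff (k + 2) := by
  rcases Nat.eq_zero_or_pos k with rfl | hk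
  · rw [coeff_sub, coeff_add, coeff_C_mul, coeff_C_mul, coeff_X_pow, coeff_X, coeff_C]; norm_num; linarith
  · rw [coeff_eq_zero_of_natDegree_lt (lt_of_le_of_lt (quad_deg t) (by omega))]

lemma pp_coeff_nonneg {ρ : ℝ} (hρ : ρ ∈ Icc (0 : ℝ) 1) (B : ℝ → ℝ) (k : ℕ) :
    ∀ t ∈ Icc (0 : ℝ) (1 / 100), 0 ≤ (pp ρ B (k + 1) t).coeff k := by
  induction k using Nat.strong_induction_on with
  | _ k ih =>
    match k, ih with
    | 0, _ => intro t ht; simp [pp]
    | 1, _ => intro t ht; simp [pp, coeff_C]; linarith [ht.2]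
    | (k + 2), ih =>
      intro t ht
      unfold pp
      rw [coeff_add, coeff_C_mul]
      have h0 := quad_coeff t ht.1 k
      have h1 := pp_deg ρ B ((k + 5) / 3) (ρ * t)
      have hidx : (k + 5) / 3 - 1 = (k + 2) / 3 := by omega
      have hidx2 : (k + 5) / 3 = (k + 2) / 3 + 1 := by omega
      have h2 : 0 ≤ ((pp ρ B ((k + 5) / 3) (ρ * t)).comp (C 4 * X ^ 3 - C 3 * X)).coeff (k + 2) := by
        by_cases h3 : 3 * ((k + 2) / 3) = k + 2
        · have h4 : (pp ρ B ((k + 5) / 3) (ρ * t)).natDegree ≤ (k + 2) / 3 := by rw [← hidx]; exact h1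
          rw [← h3, comp_coeff h4]
          have := ih ((k + 2) / 3) (by omega) (ρ * t) (mul_mem' hρ ht)
          rw [← hidx2] at this
          positivity
        · rw [coeff_eq_zero_of_natDegree_lt]
          refine lt_of_le_of_lt (comp_deg h1) (by omega)
      linarith

lemma pp_coeff_pos {ρ : ℝ} (hρ : ρ ∈ Icc (0 : ℝ) 1) (B : ℝ → ℝ) (j : ℕ) :
    ∀ t ∈ Icc (0 : ℝ) (1 / 100), 0 < (pp ρ B (2 * 3 ^ j + 1) t).coeff (2 * 3 ^ j) := by
  induction j with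
  | zero =>
    intro t ht
    show 0 < (pp ρ B (0 + 3) t).coeff 2
    unfold pp
    have : pp ρ B ((0 + 5) / 3) (ρ * t) = 0 := by
      show pp ρ B 1 (ρ * t) = 0
      unfold pp; rfl
    rw [this, zero_comp, mul_zero, add_zero, coeff_sub, coeff_add, coeff_C_mul, coeff_C_mul, coeff_X_pow, coeff_X, coeff_C]
    norm_num; linarith [ht.1]
  | succ j ih =>
    intro t ht
    have hp : 0 < 3 ^ j := by positivity
    obtain ⟨k, hk⟩ : ∃ k, 2 * 3 ^ (j + 1) + 1 = k + 3 := ⟨2 * 3 ^ (j + 1) - 2, by rw [pow_succ]; omega⟩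
    have hk2 : 2 * 3 ^ (j + 1) = k + 2 := by omega
    have hk3 : (k + 5) / 3 = 2 * 3 ^ j + 1 := by rw [pow_succ] at hk; omega
    rw [hk, hk2]
    unfold pp
    rw [coeff_add, coeff_C_mul, hk3]
    have h0 := quad_coeff t ht.1 k
    have h1 := pp_deg ρ B (2 * 3 ^ j + 1) (ρ * t)
    have h4 : (pp ρ B (2 * 3 ^ j + 1) (ρ * t)).natDegree ≤ 2 * 3 ^ j := h1.trans (by omega)
    have h5 : k + 2 = 3 * (2 * 3 ^ j) := by rw [← hk2, pow_succ]; ring
    have h6 : 0 < ((pp ρ B (2 * 3 ^ j + 1) (ρ * t)).comp (C 4 * X ^ 3 - C 3 * X)).coeff (k + 2) := by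
      rw [h5, comp_coeff h4]
      exact mul_pos (ih (ρ * t) (mul_mem' hρ ht)) (by positivity)
    linarith

/-- centre of the level one residual -/
noncomputable def bb (c S ρ t : ℝ) : ℝ :=
  ((1 + t) / 2 + 9 / 5 + ((1 + t) * (c ^ 2 - c / 2) + 1 / 2 * ph (ρ * t) (-S))) / 2 - 9 / 5

noncomputable def E1 (c S : ℝ) : ℝ := (1 / 2 + 9 / 5 - c ^ 2 + c / 2 - 3 / 8 + 2 * S / 5) / 2

lemma E1_eq {c S ρ : ℝ} (d : Dat c S ρ) (t : ℝ) :
    (1 + t) / 2 + 9 / 5 - ((1 + t) * (c ^ 2 - c / 2) + 1 / 2 * ph (ρ * t) (-S)) = 2 * E1 c S := by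
  unfold E1 ph
  linear_combination (-(1 / 2) * (1 + ρ * t)) * d.hS - t * d.hz

lemma ub {c S ρ : ℝ} (d : Dat c S ρ) (k : ℕ) : ∀ t ∈ Icc (0 : ℝ) (1 / 100), ∀ x ∈ Icc (-1 : ℝ) 1,
    |gg ρ t x - 9 / 5 - (pp ρ (bb c S ρ) k t).eval x| ≤ ee (E1 c S) k := by
  induction k using Nat.strong_induction_on with
  | _ k ih =>
    have hbase : ∀ t ∈ Icc (0 : ℝ) (1 / 100), ∀ x ∈ Icc (-1 : ℝ) 1, |gg ρ t x - 9 / 5 - 0| ≤ 9 / 5 := by
      intro t ht x hx
      have h1 := gg_nonneg d.hρ t ht x hx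
      have h2 := (abs_le.1 (gg_abs d.hρ ht hx)).2
      rw [abs_le]; constructor <;> linarith
    match k, ih with
    | 0, _ => intro t ht x hx; simpa [pp, ee] using hbase t ht x hx
    | 1, _ => intro t ht x hx; simpa [pp, ee] using hbase t ht x hx
    | 2, _ =>
      intro t ht x hx
      unfold pp ee
      have h1 := rr_upper d ht hx
      have h2 := rr_lower d ht hx
      have h3 := E1_eq d t
      rw [gg_rr d ht hx, eval_add, eval_mul, eval_C, eval_C, eval_X, abs_le]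
      unfold bb
      constructor <;> linarith
    | (k + 3), ih =>
      intro t ht x hx
      unfold pp ee
      have h1 := ih ((k + 5) / 3) (by omega) (ρ * t) (mul_mem' d.hρ ht) (tc x) (tc_mem hx)
      rw [gg_eq d.hρ ht hx, eval_add, eval_mul, eval_comp, t3_eval]
      have h2 : (C (1 + t) * X ^ 2 + C (4 / 5 - t) * X - C (9 / 10) : Polynomial ℝ).eval x = ph t x - 9 / 10 := by
        rw [eval_sub, eval_add, eval_mul, eval_mul, eval_pow, eval_X, eval_C, eval_C, eval_C]; rfl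
      rw [h2, eval_C]
      have h3 : ph t x + 1 / 2 * gg ρ (ρ * t) (tc x) - 9 / 5 - (ph t x - 9 / 10 +
          1 / 2 * (pp ρ (bb c S ρ) ((k + 5) / 3) (ρ * t)).eval (tc x)) =
          1 / 2 * (gg ρ (ρ * t) (tc x) - 9 / 5 - (pp ρ (bb c S ρ) ((k + 5) / 3) (ρ * t)).eval (tc x)) := by ring
      rw [h3, abs_mul, abs_of_pos (by norm_num : (0:ℝ) < 1 / 2)]
      linarith

lemma lb {c S ρ : ℝ} (d : Dat c S ρ) (k : ℕ) : ∀ t ∈ Icc (0 : ℝ) (1 / 100), ∀ q : Polynomial ℝ,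
    q.degree < (k : WithBot ℕ) → ∀ D : ℝ,
    (∀ x ∈ Icc (-1 : ℝ) 1, |gg ρ t x - 9 / 5 - q.eval x| ≤ D) → ee (E1 c S) k ≤ D := by
  induction k using Nat.strong_induction_on with
  | _ k ih =>
    have hbase : ∀ t ∈ Icc (0 : ℝ) (1 / 100), ∀ q : Polynomial ℝ,
        q.degree < ((1 : ℕ) : WithBot ℕ) → ∀ D : ℝ,
        (∀ x ∈ Icc (-1 : ℝ) 1, |gg ρ t x - 9 / 5 - q.eval x| ≤ D) → 9 / 5 ≤ D := by
      intro t ht q hq D h
      have hq0 : q.natDegree = 0 := by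
        by_cases h0 : q = 0
        · simp [h0]
        · have := (natDegree_lt_iff_degree_lt h0).2 hq; omega
      rw [eq_C_of_natDegree_eq_zero hq0] at h
      have h1 := h 1 (by norm_num)
      have h2 := h 0 (by norm_num)
      rw [eval_C, gg_one d.hρ t ht, abs_le] at h1
      rw [eval_C, gg_zero d.hρ t ht, abs_le] at h2
      linarith [h1.2, h2.1]
    match k, ih with
    | 0, _ =>
      intro t ht q hq D h
      have := hbase t ht q (lt_of_lt_of_le hq (by norm_num)) D h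
      simpa [ee] using this
    | 1, _ =>
      intro t ht q hq D h
      simpa [ee] using hbase t ht q hq D h
    | 2, _ =>
      intro t ht q hq D h
      unfold ee
      have hq1 : q.natDegree ≤ 1 := by
        by_cases h0 : q = 0
        · simp [h0]
        · have := (natDegree_lt_iff_degree_lt h0).2 hq; omega
      rw [eq_X_add_C_of_natDegree_le_one hq1] at h
      set a := q.coeff 1
      set b := q.coeff 0
      have m1 : (1 : ℝ) ∈ Icc (-1 : ℝ) 1 := by norm_num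
      have m2 : (-1 / 2 : ℝ) ∈ Icc (-1 : ℝ) 1 := by norm_num
      have m3 : c ∈ Icc (-1 : ℝ) 1 := ⟨by linarith [d.c1], by linarith [d.c2]⟩
      have h1 := h 1 m1
      have h2 := h (-1 / 2) m2
      have h3 := h c m3
      rw [eval_add, eval_mul, eval_C, eval_C, eval_X, gg_rr d ht m1, rr_one d ht, abs_le] at h1
      rw [eval_add, eval_mul, eval_C, eval_C, eval_X, gg_rr d ht m2, rr_half d ht, abs_le] at h2
      rw [eval_add, eval_mul, eval_C, eval_C, eval_X, gg_rr d ht m3, rr_c d ht, abs_le] at h3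
      have h4 := E1_eq d t
      have k1 := mul_le_mul_of_nonneg_left h1.2 (by linarith [d.c1] : (0:ℝ) ≤ (c + 1 / 2) / 3)
      have k2 := mul_le_mul_of_nonneg_left h2.2 (by linarith [d.c2] : (0:ℝ) ≤ (1 - c) / 3)
      have k3 := h3.1
      nlinarith
    | (k + 3), ih =>
      intro t ht q hq D h
      unfold ee
      have hdeg : (C 2 * (q - (C (1 + t) * X ^ 2 + C (4 / 5 - t) * X - C (9 / 10))) : Polynomial ℝ).degree <
          ((3 * ((k + 5) / 3) : ℕ) : WithBot ℕ) := by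
        rw [degree_C_mul (by norm_num : (2:ℝ) ≠ 0)]
        refine lt_of_le_of_lt (degree_sub_le _ _) (max_lt ?_ ?_)
        · refine lt_of_lt_of_le hq ?_
          exact_mod_cast (show k + 3 ≤ 3 * ((k + 5) / 3) by omega)
        · refine lt_of_le_of_lt degree_le_natDegree ?_
          exact_mod_cast lt_of_le_of_lt (quad_deg t) (show 2 < 3 * ((k + 5) / 3) by omega)
      obtain ⟨q', hq', hav⟩ := avg_poly _ _ hdeg
      have key : ∀ y ∈ Icc (-1 : ℝ) 1, |gg ρ (ρ * t) y - 9 / 5 - q'.eval y| ≤ 2 * D := by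
        intro y hy
        obtain ⟨a1, a2, a3, i1, i2, i3, s1, s2, e1, e2, e3⟩ := preim hy
        rw [hav a1 a2 a3 y s1 s2 e1 e2 e3]
        have hx : ∀ a ∈ Icc (-1 : ℝ) 1, tc a = y →
            |gg ρ (ρ * t) y - 9 / 5 - (C 2 * (q - (C (1 + t) * X ^ 2 + C (4 / 5 - t) * X - C (9 / 10))) : Polynomial ℝ).eval a| ≤ 2 * D := by
          intro a ha hay
          have h1 := h a ha
          rw [gg_eq d.hρ ht ha, hay] at h1
          have h2 : (C (1 + t) * X ^ 2 + C (4 / 5 - t) * X - C (9 / 10) : Polynomial ℝ).eval a = ph t a - 9 / 10 := by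
            rw [eval_sub, eval_add, eval_mul, eval_mul, eval_pow, eval_X, eval_C, eval_C, eval_C]; rfl
          rw [eval_mul, eval_C, eval_sub, h2]
          have h3 : gg ρ (ρ * t) y - 9 / 5 - 2 * (q.eval a - (ph t a - 9 / 10)) =
            2 * (ph t a + 1 / 2 * gg ρ (ρ * t) y - 9 / 5 - q.eval a) := by ring
          rw [h3, abs_mul, abs_of_pos (by norm_num : (0:ℝ) < 2)]
          linarith
        have k1 := abs_le.1 (hx a1 i1 e1)
        have k2 := abs_le.1 (hx a2 i2 e2)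
        have k3 := abs_le.1 (hx a3 i3 e3)
        rw [abs_le]
        constructor <;> linarith [k1.1, k1.2, k2.1, k2.2, k3.1, k3.2]
      have := ih ((k + 5) / 3) (by omega) (ρ * t) (mul_mem' d.hρ ht) q' hq' (2 * D) key
      linarith

lemma ee_nonneg {c S ρ : ℝ} (d : Dat c S ρ) (k : ℕ) : 0 ≤ ee (E1 c S) k :=
  le_trans (abs_nonneg _) (ub d k 0 (by norm_num) 0 (by norm_num))

lemma ee_anti {c S ρ : ℝ} (d : Dat c S ρ) : Antitone (ee (E1 c S)) := by
  apply antitone_nat_of_succ_le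
  intro k
  refine lb d (k + 1) 0 (by norm_num) (pp ρ (bb c S ρ) k 0) ?_ _ (ub d k 0 (by norm_num))
  exact lt_trans (pp_degree _ _ _ _) (by exact_mod_cast Nat.lt_succ_self k)

lemma ee_pow {c S ρ : ℝ} (d : Dat c S ρ) (j : ℕ) : ∀ k : ℕ, 3 ^ j ≤ k → ee (E1 c S) k ≤ (1 / 2 : ℝ) ^ j * (9 / 5) := by
  induction j with
  | zero =>
    intro k _
    have h1 := ee_anti d (Nat.zero_le k)
    have h2 : ee (E1 c S) 0 = 9 / 5 := by unfold ee; rfl
    rw [h2] at h1; simpa using h1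
  | succ j ih =>
    intro k hk
    have hp : 0 < 3 ^ j := by positivity
    obtain ⟨m, rfl⟩ : ∃ m, k = m + 3 := ⟨k - 3, by rw [pow_succ] at hk; omega⟩
    unfold ee
    have := ih ((m + 5) / 3) (by rw [pow_succ] at hk; omega)
    rw [pow_succ]; linarith

lemma ee_tendsto {c S ρ : ℝ} (d : Dat c S ρ) : Filter.Tendsto (ee (E1 c S)) Filter.atTop (nhds 0) := by
  rw [Metric.tendsto_atTop]
  intro ε hε
  obtain ⟨j, hj⟩ := exists_pow_lt_of_lt_one (by positivity : (0:ℝ) < ε / (9 / 5)) (by norm_num : (1 / 2 : ℝ) < 1)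
  refine ⟨3 ^ j, fun k hk => ?_⟩
  rw [Real.dist_eq, sub_zero, abs_of_nonneg (ee_nonneg d k)]
  refine lt_of_le_of_lt (ee_pow d j k hk) ?_
  rwa [lt_div_iff₀ (by norm_num)] at hj

/-- the continuous functions -/
noncomputable def xx (ρ : ℝ) (hρ : ρ ∈ Icc (0 : ℝ) 1) (t : ℝ) (ht : t ∈ Icc (0 : ℝ) (1 / 100)) :
    C(Set.Icc (-1 : ℝ) 1, ℝ) :=
  ⟨fun y => gg ρ t y - 9 / 5, by
    have := continuousOn_iff_continuous_domRestrict.1 (gg_cont hρ ht)
    exact this.sub continuous_const⟩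

lemma xx_norm_le {c S ρ : ℝ} (d : Dat c S ρ) {t : ℝ} (ht : t ∈ Icc (0 : ℝ) (1 / 100)) (k : ℕ) :
    ‖xx ρ d.hρ t ht - (pp ρ (bb c S ρ) k t).toContinuousMapOn (Set.Icc (-1 : ℝ) 1)‖ ≤ ee (E1 c S) k := by
  rw [ContinuousMap.norm_le _ (ee_nonneg d k)]
  intro y
  exact ub d k t ht y y.2

lemma le_xx_norm {c S ρ : ℝ} (d : Dat c S ρ) {t : ℝ} (ht : t ∈ Icc (0 : ℝ) (1 / 100)) (k : ℕ)
    (q : Polynomial ℝ) (hq : q.degree < (k : WithBot ℕ)) :
    ee (E1 c S) k ≤ ‖xx ρ d.hρ t ht - q.toContinuousMapOn (Set.Icc (-1 : ℝ) 1)‖ := by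
  refine lb d k t ht q hq _ (fun x hx => ?_)
  exact (xx ρ d.hρ t ht - q.toContinuousMapOn (Set.Icc (-1 : ℝ) 1)).norm_coe_le_norm ⟨x, hx⟩

lemma xx_norm {c S ρ : ℝ} (d : Dat c S ρ) {t : ℝ} (ht : t ∈ Icc (0 : ℝ) (1 / 100)) (k : ℕ) :
    ‖xx ρ d.hρ t ht - (pp ρ (bb c S ρ) k t).toContinuousMapOn (Set.Icc (-1 : ℝ) 1)‖ = ee (E1 c S) k :=
  le_antisymm (xx_norm_le d ht k) (le_xx_norm d ht k _ (pp_degree _ _ _ _))

lemma main_prop {c S ρ : ℝ} (d : Dat c S ρ) {t : ℝ} (ht : t ∈ Icc (0 : ℝ) (1 / 100)) :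
    ∃ P : ℕ → Polynomial ℝ,
        (∀ k : ℕ, (P k).degree < (k : WithBot ℕ) ∧
          ∀ q : Polynomial ℝ, q.degree < (k : WithBot ℕ) →
            ‖xx ρ d.hρ t ht - (P k).toContinuousMapOn (Set.Icc (-1 : ℝ) 1)‖ ≤
              ‖xx ρ d.hρ t ht - q.toContinuousMapOn (Set.Icc (-1 : ℝ) 1)‖) ∧
        ∀ n : ℕ,
          (‖xx ρ d.hρ t ht - (P n).toContinuousMapOn (Set.Icc (-1 : ℝ) 1)‖ = 0 ∧ ee (E1 c S) n = 0) ∨
          ∃ m : ℕ, n ≤ m ∧
            (∀ k : ℕ, n ≤ k → k < m → (P (k + 1)).coeff k = 0) ∧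
            (P (m + 1)).coeff m ≠ 0 ∧
            ee (E1 c S) n = Real.sign ((P (m + 1)).coeff m) *
              ‖xx ρ d.hρ t ht - (P n).toContinuousMapOn (Set.Icc (-1 : ℝ) 1)‖ := by
  refine ⟨fun k => pp ρ (bb c S ρ) k t, fun k => ⟨pp_degree _ _ _ _, fun q hq => ?_⟩, fun n => Or.inr ?_⟩
  · exact (xx_norm_le d ht k).trans (le_xx_norm d ht k q hq)
  · classical
    have hex : ∃ m, n ≤ m ∧ (pp ρ (bb c S ρ) (m + 1) t).coeff m ≠ 0 := by
      refine ⟨2 * 3 ^ n, ?_, (pp_coeff_pos d.hρ _ n t ht).ne'⟩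
      have := Nat.lt_pow_self (n := n) (by norm_num : 1 < 3)
      omega
    obtain ⟨h1, h2⟩ := Nat.find_spec hex
    refine ⟨Nat.find hex, h1, ?_, h2, ?_⟩
    · intro k hk1 hk2
      by_contra h3
      exact Nat.find_min hex hk2 ⟨hk1, h3⟩
    · have h3 := lt_of_le_of_ne (pp_coeff_nonneg d.hρ (bb c S ρ) (Nat.find hex) t ht) (Ne.symm h2)
      rw [Real.sign_of_pos h3, one_mul]
      exact (xx_norm d ht n).symm

/-- The negation of the preceding statement: For every a<b and every real sequence with nonincreasing absolute values tending to 0 (equal absolute values forcing equal terms), exactly one continuous f on [a,b] has it as its polynomial best-approximation errors, each signed by the first nonzero top coefficient. -/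
theorem result :
    ¬ (∀ a b : ℝ, a < b → ∀ e : ℕ → ℝ,
      Antitone (fun n => |e n|) →
      Filter.Tendsto e Filter.atTop (nhds 0) →
      (∀ n, |e n| = |e (n + 1)| → e n = e (n + 1)) →
      ∃! x : C(Set.Icc a b, ℝ), ∃ P : ℕ → Polynomial ℝ,
        (∀ k : ℕ, (P k).degree < (k : WithBot ℕ) ∧
          ∀ q : Polynomial ℝ, q.degree < (k : WithBot ℕ) →
            ‖x - (P k).toContinuousMapOn (Set.Icc a b)‖ ≤
              ‖x - q.toContinuousMapOn (Set.Icc a b)‖) ∧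
        ∀ n : ℕ,
          (‖x - (P n).toContinuousMapOn (Set.Icc a b)‖ = 0 ∧ e n = 0) ∨
          ∃ m : ℕ, n ≤ m ∧
            (∀ k : ℕ, n ≤ k → k < m → (P (k + 1)).coeff k = 0) ∧
            (P (m + 1)).coeff m ≠ 0 ∧
            e n = Real.sign ((P (m + 1)).coeff m) *
              ‖x - (P n).toContinuousMapOn (Set.Icc a b)‖) := by
  intro H
  obtain ⟨c, S, ρ, d⟩ := exists_dat
  have habs : ∀ n, |ee (E1 c S) n| = ee (E1 c S) n := fun n => abs_of_nonneg (ee_nonneg d n)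
  have hanti : Antitone (fun n => |ee (E1 c S) n|) := by
    simp only [habs]; exact ee_anti d
  have heq : ∀ n, |ee (E1 c S) n| = |ee (E1 c S) (n + 1)| → ee (E1 c S) n = ee (E1 c S) (n + 1) := by
    intro n h; rwa [habs, habs] at h
  obtain ⟨x, _, hx⟩ := H (-1) 1 (by norm_num) (ee (E1 c S)) hanti (ee_tendsto d) heq
  have t0 : (0 : ℝ) ∈ Icc (0 : ℝ) (1 / 100) := by norm_num
  have t1 : (1 / 100 : ℝ) ∈ Icc (0 : ℝ) (1 / 100) := by norm_num
  have e0 := hx (xx ρ d.hρ 0 t0) (main_prop d t0)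
  have e1 := hx (xx ρ d.hρ (1 / 100) t1) (main_prop d t1)
  have e2 : xx ρ d.hρ 0 t0 = xx ρ d.hρ (1 / 100) t1 := by rw [e0, e1]
  have m2 : (-1 / 2 : ℝ) ∈ Icc (-1 : ℝ) 1 := by norm_num
  have e3 : gg ρ 0 (-1 / 2) - 9 / 5 = gg ρ (1 / 100) (-1 / 2) - 9 / 5 :=
    congrArg (fun f : C(Set.Icc (-1 : ℝ) 1, ℝ) => f ⟨-1 / 2, m2⟩) e2
  rw [gg_eq d.hρ t0 m2, gg_eq d.hρ t1 m2, tc_half, gg_one d.hρ _ (mul_mem' d.hρ t0),
    gg_one d.hρ _ (mul_mem' d.hρ t1)] at e3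
  unfold ph at e3
  norm_num at e3

end Pool.Agent.S03120
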