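import Pool.Statements.S03128
import Pool.Agent.Helper809.KPFinal

set_option autoImplicit false
open Pool Pool.MP_50b10a_an

namespace Pool.Agent.S03128

/-- The negation of the preceding statement: For 1/4 ≤ p < 1, take the sup over normalized univalent disk maps f of the n-th coefficient of (f(z)/z)^p (the holomorphic branch equal to 1 at 0), divided by Γ(2p+n)/(n!Γ(2p)). This ratio tends to 1 exactly when p ≥ 1/2. -/
theorem result :
    ¬ (∀ p : ℝ, 1/4 ≤ p → p < 1 →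
      (Filter.Tendsto (fun n : ℕ =>
        sSup {c : ℝ | ∃ f : ℂ → ℂ, ∃ h : ℂ → ℂ,
            DifferentiableOn ℂ f (Metric.ball (0:ℂ) 1) ∧
            Set.InjOn f (Metric.ball (0:ℂ) 1) ∧
            f 0 = 0 ∧ deriv f 0 = 1 ∧
            DifferentiableOn ℂ h (Metric.ball (0:ℂ) 1) ∧ h 0 = 0 ∧
            (∀ z ∈ Metric.ball (0:ℂ) 1, z ≠ 0 → z * Complex.exp (h z) = f z) ∧
            c = ‖iteratedDeriv n (fun z => Complex.exp ((p:ℂ) * h z)) 0‖ / (n.factorial : ℝ)}
        / (Real.Gamma (2*p + (n:ℝ)) / (Real.Gamma ((n:ℝ) + 1) * Real.Gamma (2*p))))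
        Filter.atTop (nhds 1) ↔ 1/2 ≤ p)) := by
  intro H
  have h1 := (H (1/2) (by norm_num) (by norm_num)).mpr le_rfl
  apply Pool.Agent.Helper809.KP.not_tendsto
  refine h1.congr fun n => ?_
  have e1 : Real.Gamma (2 * (1/2 : ℝ) + (n : ℝ)) / (Real.Gamma ((n : ℝ) + 1) * Real.Gamma (2 * (1/2 : ℝ))) = 1 := by
    have a1 : 2 * (1/2 : ℝ) + (n : ℝ) = (n : ℝ) + 1 := by ring
    have a2 : 2 * (1/2 : ℝ) = 1 := by norm_num
    have a3 : Real.Gamma ((n : ℝ) + 1) ≠ 0 := (Real.Gamma_pos_of_pos (by positivity)).ne'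
    rw [a1, a2, Real.Gamma_one, mul_one, div_self a3]
  rw [e1, div_one]
  rfl

end Pool.Agent.S03128
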