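import Pool.Statements.S03132
-- import your own Pool.Agent.* helpers here

set_option autoImplicit false
open Pool Pool.MP_51cccb_an

namespace Pool.Agent.S03132

section Construction

open Complex Filter Topology Finset


/-- coefficients of `(1-w)^(-1/2)`. -/
noncomputable def B : ℕ → ℝ
  | 0 => 1
  | (n + 1) => B n * ((2 * n + 1) / (2 * n + 2))

lemma B_pos (n : ℕ) : 0 < B n := by
  induction n with
  | zero => simp [B]
  | succ n ih => simp only [B]; positivity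

lemma B_eq (n : ℕ) : (B n : ℂ) = Ring.choose ((1 / 2 : ℂ) + n - 1) n := by
  rw [← Ring.multichoose_eq]
  have h := Ring.factorial_nsmul_multichoose_eq_ascPochhammer (1 / 2 : ℂ) n
  rw [Polynomial.ascPochhammer_smeval_eq_eval] at h
  have key : ∀ n : ℕ, ((n.factorial : ℂ)) * (B n : ℂ) = (ascPochhammer ℂ n).eval (1 / 2 : ℂ) := by
    intro n
    induction n with
    | zero => simp [B]
    | succ n ih =>
      rw [ascPochhammer_succ_eval, ← ih, Nat.factorial_succ, B]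
      push_cast
      have : (2 * (n : ℂ) + 2) ≠ 0 := by
        norm_cast
      field_simp
      ring
  have hk := key n
  rw [← h, nsmul_eq_mul] at hk
  have hf : (n.factorial : ℂ) ≠ 0 := by exact_mod_cast n.factorial_ne_zero
  exact mul_left_cancel₀ hf hk

lemma hasSum_B {w : ℂ} (hw : ‖w‖ < 1) :
    HasSum (fun k : ℕ => (B k : ℂ) * w ^ k) (1 / (1 - w) ^ (1 / 2 : ℂ)) := by
  have h := Complex.one_div_one_sub_cpow_hasFPowerSeriesOnBall_zero (1 / 2 : ℂ)
  have h2 := h.hasSum (y := w) (by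
    simpa [Metric.mem_eball, edist_zero_right, enorm_eq_nnnorm, ← NNReal.coe_lt_coe] using hw)
  simp only [zero_add] at h2
  have h3 : (fun k : ℕ => (B k : ℂ) * w ^ k) = fun n => (FormalMultilinearSeries.ofScalars ℂ
      (fun n => Ring.choose ((1 / 2 : ℂ) + ↑n - 1) n) n) fun _ => w := by
    funext k
    rw [B_eq]
    simp [FormalMultilinearSeries.ofScalars, mul_comm]
  rw [h3]
  exact h2

/-- bounds -/
lemma B_sq_lower (n : ℕ) (hn : 1 ≤ n) : 1 / (4 * (n : ℝ)) ≤ B n ^ 2 := by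
  induction n, hn using Nat.le_induction with
  | base => simp [B]; norm_num
  | succ n hn ih =>
    simp only [B, mul_pow]
    have hn' : (1 : ℝ) ≤ n := by exact_mod_cast hn
    have h1 : 1 / (4 * (n : ℝ)) * (((2 * n + 1) / (2 * n + 2)) ^ 2) ≤
      B n ^ 2 * (((2 * n + 1) / (2 * n + 2)) ^ 2) := by gcongr
    refine le_trans ?_ h1
    push_cast
    rw [div_pow, div_mul_div_comm, div_le_div_iff₀ (by positivity) (by positivity)]
    nlinarith

lemma B_sq_upper (n : ℕ) : B n ^ 2 ≤ 1 / (2 * (n : ℝ) + 1) := by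
  induction n with
  | zero => simp [B]
  | succ n ih =>
    simp only [B, mul_pow]
    have h1 : B n ^ 2 * (((2 * n + 1) / (2 * n + 2)) ^ 2) ≤ 
      1 / (2 * (n : ℝ) + 1) * (((2 * n + 1) / (2 * n + 2)) ^ 2)  := by gcongr
    refine le_trans h1 ?_
    push_cast
    rw [div_pow, div_mul_div_comm, div_le_div_iff₀ (by positivity) (by positivity)]
    nlinarith [(Nat.cast_nonneg n : (0 : ℝ) ≤ n)]

lemma kB_lower (k : ℕ) (hk : 1 ≤ k) : Real.sqrt k / 2 ≤ k * B k := by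
  have hk' : (1 : ℝ) ≤ k := by exact_mod_cast hk
  have h := B_sq_lower k hk
  have hB := B_pos k
  refine abs_le_of_sq_le_sq' ?_ (by positivity) |>.2
  rw [div_pow, Real.sq_sqrt (by positivity), mul_pow]
  rw [div_le_iff₀ (by positivity)] at h
  nlinarith

lemma kB_upper (k : ℕ) : k * B k ≤ Real.sqrt k := by
  have h := B_sq_upper k
  have hB := B_pos k
  have hk' : (0 : ℝ) ≤ k := by positivity
  refine abs_le_of_sq_le_sq' ?_ (by positivity) |>.2
  rw [Real.sq_sqrt (by positivity), mul_pow]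
  have h1 : (k : ℝ) ^ 2 * B k ^ 2 ≤ (k : ℝ) ^ 2 * (1 / (2 * (k : ℝ) + 1)) := by gcongr
  have h2 : (k : ℝ) ^ 2 * (1 / (2 * (k : ℝ) + 1)) ≤ (k : ℝ) := by
    rw [mul_one_div, div_le_iff₀ (by positivity)]
    nlinarith
  exact h1.trans h2

lemma B_le_one (k : ℕ) : B k ≤ 1 := by
  have h := B_sq_upper k
  have hB := B_pos k
  have : 1 / (2 * (k : ℝ) + 1) ≤ 1 := by
    rw [div_le_one (by positivity)]
    have : (0 : ℝ) ≤ k := by positivity
    linarith
  nlinarith



/-- principal square root of `1 - w`. -/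
noncomputable def sq (w : ℂ) : ℂ := (1 - w) ^ (1 / 2 : ℂ)

lemma sq_sq (w : ℂ) : sq w ^ 2 = 1 - w := by
  unfold sq
  rw [← Complex.cpow_nat_mul]
  norm_num

lemma sq_re_nonneg {w : ℂ} (hw : w ≠ 1) : 0 ≤ (sq w).re := by
  unfold sq
  have h : (1 - w) ≠ 0 := sub_ne_zero.mpr (Ne.symm hw)
  rw [Complex.cpow_def_of_ne_zero h, Complex.exp_re]
  have h1 : (Complex.log (1 - w) * (1 / 2)).im = Complex.arg (1 - w) / 2 := by
    simp [Complex.mul_im, Complex.log_im]
    ring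
  rw [h1]
  apply mul_nonneg (Real.exp_pos _).le
  apply Real.cos_nonneg_of_mem_Icc
  constructor
  · linarith [Complex.neg_pi_lt_arg (1 - w)]
  · linarith [Complex.arg_le_pi (1 - w)]

lemma sq_cone {w : ℂ} (hw : ‖w‖ < 1) : 0 < (sq w).re ∧ |(sq w).im| ≤ (sq w).re := by
  have hw1 : w ≠ 1 := by
    rintro rfl; simp at hw
  have h0 := sq_re_nonneg hw1
  have hre : 0 < (1 - w).re := by
    have := Complex.abs_re_le_norm w
    have h2 : w.re < 1 := lt_of_le_of_lt (le_trans (le_abs_self _) this) hw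
    simpa using h2
  have h3 : ((sq w) ^ 2).re = (sq w).re ^ 2 - (sq w).im ^ 2 := by
    rw [pow_two, Complex.mul_re]; ring
  rw [sq_sq] at h3
  have h4 : (sq w).im ^ 2 < (sq w).re ^ 2 := by linarith
  have h5 : |(sq w).im| < (sq w).re := by
    have := sq_lt_sq.mp h4
    rwa [abs_of_nonneg h0] at this
  exact ⟨lt_of_le_of_lt (abs_nonneg _) h5, h5.le⟩

lemma arg_le_of_cone {z : ℂ} (h0 : 0 < z.re) (h1 : |z.im| ≤ z.re) : |Complex.arg z| ≤ Real.pi / 4 := by
  rw [Complex.arg_of_re_nonneg h0.le]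
  have hz : 0 < ‖z‖ := norm_pos_iff.mpr (by rintro rfl; simp at h0)
  have hs : ‖z‖ ^ 2 = z.re ^ 2 + z.im ^ 2 := by
    rw [← Complex.normSq_eq_norm_sq, Complex.normSq_apply]; ring
  have h2 : |z.im / ‖z‖| ≤ Real.sqrt 2 / 2 := by
    rw [abs_div, abs_of_pos hz, div_le_iff₀ hz]
    refine abs_le_of_sq_le_sq' ?_ (by positivity) |>.2
    rw [mul_pow, div_pow, Real.sq_sqrt (by norm_num), hs, sq_abs]
    have : z.im ^ 2 ≤ z.re ^ 2 := sq_le_sq' (by linarith [neg_abs_le z.im]) (le_trans (le_abs_self _) h1)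
    linarith
  rw [abs_le] at h2 ⊢
  constructor
  · rw [show -(Real.pi / 4) = Real.arcsin (-(Real.sqrt 2 / 2)) by
      rw [Real.arcsin_neg, ← Real.sin_pi_div_four, Real.arcsin_sin] <;> linarith [Real.pi_pos]]
    exact Real.arcsin_le_arcsin h2.1
  · rw [show (Real.pi / 4) = Real.arcsin ((Real.sqrt 2 / 2)) by
      rw [← Real.sin_pi_div_four, Real.arcsin_sin] <;> linarith [Real.pi_pos]]
    exact Real.arcsin_le_arcsin h2.2

lemma cone_prod {a b : ℂ} (ha : 0 < a.re) (ha' : |a.im| ≤ a.re) (hb : 0 < b.re)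
    (hb' : |b.im| ≤ b.re) :
    -(Real.sqrt 2 / 2) * ‖a * b * (a + b)‖ ≤ (a * b * (a + b)).re := by
  have hc : 0 < (a + b).re := by simp; linarith
  have hc' : |(a + b).im| ≤ (a + b).re := by
    simp only [Complex.add_im, Complex.add_re]
    exact (abs_add_le _ _).trans (by linarith)
  have A := arg_le_of_cone ha ha'
  have Bb := arg_le_of_cone hb hb'
  have C := arg_le_of_cone hc hc'
  have ha0 : a ≠ 0 := by rintro rfl; simp at ha
  have hb0 : b ≠ 0 := by rintro rfl; simp at hb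
  have hc0 : a + b ≠ 0 := by intro h; rw [h] at hc; simp at hc
  have hpi := Real.pi_pos
  rw [abs_le] at A Bb C
  have h1 : Complex.arg (a * b) = Complex.arg a + Complex.arg b :=
    Complex.arg_mul ha0 hb0 ⟨by linarith, by linarith⟩
  have h2 : Complex.arg (a * b * (a + b)) = Complex.arg a + Complex.arg b + Complex.arg (a + b) := by
    rw [Complex.arg_mul (mul_ne_zero ha0 hb0) hc0 ⟨by rw [h1]; linarith, by rw [h1]; linarith⟩, h1]
  have h3 : |Complex.arg (a * b * (a + b))| ≤ 3 * Real.pi / 4 := by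
    rw [h2, abs_le]; constructor <;> linarith
  rw [← Complex.norm_mul_cos_arg (a * b * (a + b)), mul_comm]
  apply mul_le_mul_of_nonneg_left _ (norm_nonneg _)
  rw [← Real.cos_abs]
  have h4 : Real.cos (3 * Real.pi / 4) = -(Real.sqrt 2 / 2) := by
    rw [show 3 * Real.pi / 4 = Real.pi - Real.pi / 4 by ring, Real.cos_pi_sub, Real.cos_pi_div_four]
  rw [← h4]
  exact Real.cos_le_cos_of_nonneg_of_le_pi (abs_nonneg _) (by linarith) h3

lemma near_one {g : ℂ} (hg : ‖g - 1‖ ≤ 7 / 10) : 71 / 100 * ‖g‖ ≤ g.re := by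
  have h1 : ‖g - 1‖ ^ 2 = ‖g‖ ^ 2 - 2 * g.re + 1 := by
    rw [← Complex.normSq_eq_norm_sq, ← Complex.normSq_eq_norm_sq, Complex.normSq_apply,
      Complex.normSq_apply]
    simp; ring
  have h2 : ‖g - 1‖ ^ 2 ≤ (7 / 10) ^ 2 := by gcongr
  nlinarith [sq_nonneg (‖g‖ - 71 / 100)]

/-- the key non-degeneracy: `ab(a+b)` is never close to the negative real axis. -/
lemma key_ne {a b g : ℂ} {R : ℝ} (ha : 0 < a.re) (ha' : |a.im| ≤ a.re) (hb : 0 < b.re)
    (hb' : |b.im| ≤ b.re) (hR : 0 ≤ R) (hg : ‖g - 1‖ ≤ 7 / 10) :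
    a * b * (a + b) ≠ -(R : ℂ) * g := by
  intro h
  have ha0 : a ≠ 0 := by rintro rfl; simp at ha
  have hb0 : b ≠ 0 := by rintro rfl; simp at hb
  have hc : 0 < (a + b).re := by simp; linarith
  have hc0 : a + b ≠ 0 := by intro h; rw [h] at hc; simp at hc
  have h1 := cone_prod ha ha' hb hb'
  have hP : 0 < ‖a * b * (a + b)‖ := norm_pos_iff.mpr (mul_ne_zero (mul_ne_zero ha0 hb0) hc0)
  rw [h] at h1 hP
  have h2 := near_one hg
  have h3 : (-(R : ℂ) * g).re = - (R * g.re) := by simp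
  have h4 : ‖-(R : ℂ) * g‖ = R * ‖g‖ := by simp [abs_of_nonneg hR]
  rw [h3, h4] at h1
  rw [h4] at hP
  have h5 : Real.sqrt 2 < 142 / 100 := by
    rw [Real.sqrt_lt' (by norm_num)]; norm_num
  have h6 : R * (71 / 100 * ‖g‖) ≤ R * g.re := by gcongr
  nlinarith

lemma norm_add_ge_left {a b : ℂ} (ha : 0 < a.re) (ha' : |a.im| ≤ a.re) (hb : 0 < b.re)
    (hb' : |b.im| ≤ b.re) : ‖a‖ ≤ ‖a + b‖ := by
  refine abs_le_of_sq_le_sq' ?_ (norm_nonneg _) |>.2
  rw [← Complex.normSq_eq_norm_sq, ← Complex.normSq_eq_norm_sq, Complex.normSq_apply,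
      Complex.normSq_apply]
  simp only [Complex.add_re, Complex.add_im]
  have : -(a.re * b.re) ≤ a.im * b.im := by
    have h1 : |a.im * b.im| ≤ a.re * b.re := by
      rw [abs_mul]; exact mul_le_mul ha' hb' (abs_nonneg _) ha.le
    linarith [neg_abs_le (a.im * b.im)]
  nlinarith [mul_pos ha hb, sq_nonneg b.re, sq_nonneg b.im]

lemma norm_add_ge_right {a b : ℂ} (ha : 0 < a.re) (ha' : |a.im| ≤ a.re) (hb : 0 < b.re)
    (hb' : |b.im| ≤ b.re) : ‖b‖ ≤ ‖a + b‖ := by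
  rw [add_comm]; exact norm_add_ge_left hb hb' ha ha'



/-- the data for the construction -/
structure Data where
  zt : ℕ → ℂ
  de : ℕ → ℝ
  d : ℕ → ℝ
  zt_norm : ∀ l, ‖zt l‖ = 1
  d_eq : ∀ l, ‖1 - zt l‖ = d l
  d_pos : ∀ l, 0 < d l
  d_le : ∀ l, d l ≤ 1 / 20
  dir : ∀ l, ‖I * (1 - zt l) - d l‖ ≤ 1 / 20 * d l
  sep : ∀ i j, i ≠ j → (d i + d j) / 4 ≤ ‖zt i - zt j‖
  de_pos : ∀ l, 0 < de l
  de_le : ∀ l, de l ≤ 1 / 20
  summ : Summable fun l => Real.sqrt (de l / d l)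
  sum_le : ∑' l, Real.sqrt (de l / d l) ≤ 1 / 16
  summ' : Summable fun l => Real.sqrt (de l)

namespace Data

variable (D : Data)

noncomputable def al (l : ℕ) : ℂ := (1 - D.de l : ℝ) * (starRingEnd ℂ) (D.zt l)

lemma al_norm (l : ℕ) : ‖D.al l‖ = 1 - D.de l := by
  unfold al
  rw [norm_mul, Complex.norm_real, RCLike.norm_conj, D.zt_norm, mul_one, Real.norm_eq_abs,
    abs_of_nonneg]
  linarith [D.de_le l]

lemma al_norm_lt (l : ℕ) : ‖D.al l‖ < 1 := by
  rw [al_norm]; linarith [D.de_pos l]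

lemma alz_lt (l : ℕ) {z : ℂ} (hz : ‖z‖ < 1) : ‖D.al l * z‖ < 1 := by
  rw [norm_mul]
  nlinarith [D.al_norm_lt l, norm_nonneg (D.al l), norm_nonneg z]

lemma conj_mul (l : ℕ) : (starRingEnd ℂ) (D.zt l) * D.zt l = 1 := by
  rw [← Complex.normSq_eq_conj_mul_self, Complex.normSq_eq_norm_sq, D.zt_norm]; simp

/-- lower bound by `de` -/
lemma one_sub_ge_de (l : ℕ) {z : ℂ} (hz : ‖z‖ < 1) : D.de l ≤ ‖1 - D.al l * z‖ := by
  have h1 : ‖(1 : ℂ)‖ - ‖D.al l * z‖ ≤ ‖1 - D.al l * z‖ := norm_sub_norm_le _ _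
  have h2 : ‖D.al l * z‖ ≤ 1 - D.de l := by
    rw [norm_mul, al_norm]
    have : 0 ≤ 1 - D.de l := by linarith [D.de_le l]
    nlinarith [norm_nonneg z]
  rw [norm_one] at h1
  linarith

lemma one_sub_ge_dist (l : ℕ) {z : ℂ} (hz : ‖z‖ < 1) : ‖z - D.zt l‖ / 2 ≤ ‖1 - D.al l * z‖ := by
  have h1 : z - D.zt l = D.zt l * (-(1 - D.al l * z) + D.de l * ((starRingEnd ℂ) (D.zt l) * z)) := by
    have := D.conj_mul l
    unfold al
    push_cast
    linear_combination (-z) * this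
  have h2 : ‖z - D.zt l‖ ≤ ‖1 - D.al l * z‖ + D.de l := by
    rw [h1, norm_mul, D.zt_norm, one_mul]
    refine (norm_add_le _ _).trans ?_
    rw [norm_neg]
    gcongr
    rw [norm_mul, norm_mul, RCLike.norm_conj, D.zt_norm, one_mul, Complex.norm_real,
      Real.norm_eq_abs, abs_of_pos (D.de_pos l)]
    have := D.de_pos l
    nlinarith [norm_nonneg z]
  linarith [D.one_sub_ge_de l hz]

noncomputable def a (l : ℕ) (z : ℂ) : ℂ := sq (D.al l * z)

lemma a_sq (l : ℕ) (z : ℂ) : D.a l z ^ 2 = 1 - D.al l * z := sq_sq _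

lemma a_cone (l : ℕ) {z : ℂ} (hz : ‖z‖ < 1) : 0 < (D.a l z).re ∧ |(D.a l z).im| ≤ (D.a l z).re :=
  sq_cone (D.alz_lt l hz)

lemma a_ne (l : ℕ) {z : ℂ} (hz : ‖z‖ < 1) : D.a l z ≠ 0 := by
  intro h
  have := (D.a_cone l hz).1
  rw [h] at this; simp at this

lemma a_norm_sq (l : ℕ) (z : ℂ) : ‖D.a l z‖ ^ 2 = ‖1 - D.al l * z‖ := by
  rw [← norm_pow, a_sq]

lemma a_norm_pos (l : ℕ) {z : ℂ} (hz : ‖z‖ < 1) : 0 < ‖D.a l z‖ := norm_pos_iff.mpr (D.a_ne l hz)

lemma sqrt_de_le (l : ℕ) {z : ℂ} (hz : ‖z‖ < 1) : Real.sqrt (D.de l) ≤ ‖D.a l z‖ := by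
  rw [Real.sqrt_le_left (norm_nonneg _), a_norm_sq]
  exact D.one_sub_ge_de l hz

/-- `q l = sqrt (de l / d l)`. -/
noncomputable def q (l : ℕ) : ℝ := Real.sqrt (D.de l / D.d l)

lemma q_nonneg (l : ℕ) : 0 ≤ D.q l := Real.sqrt_nonneg _

lemma far (l : ℕ) {z : ℂ} (hz : ‖z‖ < 1) (h : D.d l / 4 ≤ ‖z - D.zt l‖) :
    Real.sqrt (D.de l) ≤ 3 * D.q l * ‖D.a l z‖ := by
  have hd := D.d_pos l
  have hde := D.de_pos l
  refine abs_le_of_sq_le_sq' ?_ (by have := D.q_nonneg l; positivity) |>.2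
  rw [mul_pow, mul_pow, a_norm_sq, q, Real.sq_sqrt hde.le, Real.sq_sqrt (by positivity)]
  have h1 := D.one_sub_ge_dist l hz
  have h2 : D.d l / 8 ≤ ‖1 - D.al l * z‖ := by linarith
  calc D.de l ≤ 9 * (D.de l / D.d l) * (D.d l / 8) := by
        field_simp; norm_num
    _ ≤ 3 ^ 2 * (D.de l / D.d l) * ‖1 - D.al l * z‖ := by
        have : 0 ≤ D.de l / D.d l := by positivity
        norm_num
        gcongr

/-- one term of the exponent, without the constant -/
noncomputable def term (l : ℕ) (z : ℂ) : ℂ := (Real.sqrt (D.de l) : ℂ) / D.a l z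

lemma term_norm (l : ℕ) (z : ℂ) : ‖D.term l z‖ = Real.sqrt (D.de l) / ‖D.a l z‖ := by
  unfold term
  rw [norm_div, Complex.norm_real, Real.norm_eq_abs, abs_of_nonneg (Real.sqrt_nonneg _)]

lemma term_le_one (l : ℕ) {z : ℂ} (hz : ‖z‖ < 1) : ‖D.term l z‖ ≤ 1 := by
  rw [term_norm, div_le_one (D.a_norm_pos l hz)]
  exact D.sqrt_de_le l hz

lemma term_far (l : ℕ) {z : ℂ} (hz : ‖z‖ < 1) (h : D.d l / 4 ≤ ‖z - D.zt l‖) :
    ‖D.term l z‖ ≤ 3 * D.q l := by
  rw [term_norm, div_le_iff₀ (D.a_norm_pos l hz)]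
  exact D.far l hz h

open Classical in
/-- indicator of nearness -/
noncomputable def ind (z : ℂ) (l : ℕ) : ℝ := if ‖z - D.zt l‖ < D.d l / 4 then 1 else 0

lemma ind_nonneg (z : ℂ) (l : ℕ) : 0 ≤ D.ind z l := by
  unfold ind; split_ifs <;> norm_num

lemma near_unique {z : ℂ} {i j : ℕ} (hi : ‖z - D.zt i‖ < D.d i / 4) (hj : ‖z - D.zt j‖ < D.d j / 4) :
    i = j := by
  by_contra hne
  have h := D.sep i j hne
  have h1 : D.zt i - D.zt j = (z - D.zt j) - (z - D.zt i) := by ring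
  have h2 : ‖D.zt i - D.zt j‖ ≤ ‖z - D.zt j‖ + ‖z - D.zt i‖ := by rw [h1]; exact norm_sub_le _ _
  linarith

lemma ind_sum (z : ℂ) : Summable (D.ind z) ∧ ∑' l, D.ind z l ≤ 1 := by
  by_cases h : ∃ i, ‖z - D.zt i‖ < D.d i / 4
  · obtain ⟨i, hi⟩ := h
    have h0 : ∀ l, l ≠ i → D.ind z l = 0 := by
      intro l hl
      unfold ind
      rw [if_neg]
      intro hl'
      exact hl (D.near_unique hl' hi)
    have h1 : HasSum (D.ind z) (D.ind z i) := hasSum_single i h0
    refine ⟨h1.summable, ?_⟩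
    rw [h1.tsum_eq]
    unfold ind; split_ifs <;> norm_num
  · push Not at h
    have h0 : D.ind z = fun _ => 0 := by
      funext l
      unfold ind
      rw [if_neg (not_lt.mpr (h l))]
    rw [h0]
    exact ⟨summable_zero, by simp⟩

lemma summ_q : Summable D.q := D.summ

lemma sum_q_le : ∑' l, D.q l ≤ 1 / 16 := D.sum_le

lemma term_bound (l : ℕ) {z : ℂ} (hz : ‖z‖ < 1) : ‖D.term l z‖ ≤ 3 * D.q l + D.ind z l := by
  by_cases h : ‖z - D.zt l‖ < D.d l / 4
  · have : D.ind z l = 1 := by unfold ind; rw [if_pos h]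
    rw [this]
    linarith [D.term_le_one l hz, D.q_nonneg l]
  · have h' := D.term_far l hz (not_lt.mp h)
    linarith [D.ind_nonneg z l]

lemma term_summable {z : ℂ} (hz : ‖z‖ < 1) : Summable fun l => D.term l z := by
  refine Summable.of_norm_bounded (g := fun l => 3 * D.q l + D.ind z l) ?_ (fun l => D.term_bound l hz)
  exact (D.summ_q.mul_left 3).add (D.ind_sum z).1

/-- the sum of the terms -/
noncomputable def S (z : ℂ) : ℂ := ∑' l, D.term l z

lemma S_norm {z : ℂ} (hz : ‖z‖ < 1) : ‖D.S z‖ ≤ 12 / 10 := by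
  have hs : Summable (fun l => 3 * D.q l + D.ind z l) := (D.summ_q.mul_left 3).add (D.ind_sum z).1
  have h1 : ‖D.S z‖ ≤ ∑' l, (3 * D.q l + D.ind z l) :=
    tsum_of_norm_bounded hs.hasSum (fun l => D.term_bound l hz)
  rw [Summable.tsum_add (D.summ_q.mul_left 3) (D.ind_sum z).1, tsum_mul_left] at h1
  linarith [(D.ind_sum z).2, D.sum_q_le]

end Data



namespace Data

variable (D : Data)

/-- divided difference terms -/
noncomputable def Th (z u : ℂ) (l : ℕ) : ℂ :=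
  (Real.sqrt (D.de l) : ℂ) * (I * (D.al l * u) * (1 - z)) / (D.a l z * D.a l u * (D.a l z + D.a l u))

lemma a_add_ne (l : ℕ) {z u : ℂ} (hz : ‖z‖ < 1) (hu : ‖u‖ < 1) : D.a l z + D.a l u ≠ 0 := by
  intro h
  have h1 := (D.a_cone l hz).1
  have h2 := (D.a_cone l hu).1
  have h3 : (D.a l z + D.a l u).re = 0 := by rw [h]; simp
  simp at h3
  linarith

lemma term_diff (l : ℕ) {z u : ℂ} (hz : ‖z‖ < 1) (hu : ‖u‖ < 1) :
    I * (D.term l u - D.term l z) * (u * (1 - z)) = (u - z) * D.Th z u l := by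
  have ha := D.a_ne l hz
  have hb := D.a_ne l hu
  have hab := D.a_add_ne l hz hu
  have h1 := D.a_sq l z
  have h2 := D.a_sq l u
  have h3 : D.al l * (u - z) = (D.a l z - D.a l u) * (D.a l z + D.a l u) := by
    linear_combination -h1 + h2
  have h4 : D.term l u - D.term l z = (Real.sqrt (D.de l) : ℂ) * (D.al l * (u - z)) /
      (D.a l z * D.a l u * (D.a l z + D.a l u)) := by
    rw [h3]; unfold term; field_simp
  rw [h4]; unfold Th; ring

lemma Th_norm_le (l : ℕ) {z u : ℂ} (hz : ‖z‖ < 1) (hu : ‖u‖ < 1) :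
    ‖D.Th z u l‖ ≤ Real.sqrt (D.de l) * ‖1 - z‖ / (‖D.a l z‖ * ‖D.a l u‖ * ‖D.a l z + D.a l u‖) := by
  unfold Th
  rw [norm_div, norm_mul, norm_mul, norm_mul, norm_mul, norm_mul, norm_mul, Complex.norm_I,
    Complex.norm_real,
    Real.norm_eq_abs, abs_of_nonneg (Real.sqrt_nonneg _), one_mul]
  have h1 : ‖D.al l‖ * ‖u‖ ≤ 1 := by
    have := D.alz_lt l hu
    rw [norm_mul] at this
    exact this.le
  gcongr
  calc ‖D.al l‖ * ‖u‖ * ‖1 - z‖ ≤ 1 * ‖1 - z‖ := by gcongr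
    _ = ‖1 - z‖ := one_mul _

lemma one_sub_le (l : ℕ) (z : ℂ) : ‖1 - z‖ ≤ D.d l + ‖z - D.zt l‖ := by
  have h : 1 - z = (1 - D.zt l) - (z - D.zt l) := by ring
  rw [h]
  refine (norm_sub_le _ _).trans ?_
  rw [D.d_eq]

/-- when one of the two points is far, a crude bound -/
lemma Th_bound_z (l : ℕ) {z u : ℂ} (hz : ‖z‖ < 1) (hu : ‖u‖ < 1) (h : D.d l / 4 ≤ ‖z - D.zt l‖) :
    ‖D.Th z u l‖ ≤ 10 * ‖D.term l u‖ := by
  refine (D.Th_norm_le l hz hu).trans ?_
  rw [term_norm]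
  have ha := D.a_norm_pos l hz
  have hb := D.a_norm_pos l hu
  have hab : ‖D.a l z‖ ≤ ‖D.a l z + D.a l u‖ :=
    norm_add_ge_left (D.a_cone l hz).1 (D.a_cone l hz).2 (D.a_cone l hu).1 (D.a_cone l hu).2
  have h1 : ‖1 - z‖ ≤ 10 * ‖D.a l z‖ ^ 2 := by
    rw [a_norm_sq]
    linarith [D.one_sub_le l z, D.one_sub_ge_dist l hz]
  have hs := Real.sqrt_nonneg (D.de l)
  calc Real.sqrt (D.de l) * ‖1 - z‖ / (‖D.a l z‖ * ‖D.a l u‖ * ‖D.a l z + D.a l u‖)
      ≤ Real.sqrt (D.de l) * (10 * ‖D.a l z‖ ^ 2) / (‖D.a l z‖ * ‖D.a l u‖ * ‖D.a l z‖) := by gcongr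
    _ = 10 * (Real.sqrt (D.de l) / ‖D.a l u‖) := by field_simp

lemma Th_bound_u (l : ℕ) {z u : ℂ} (hz : ‖z‖ < 1) (hu : ‖u‖ < 1) (h : D.d l / 4 ≤ ‖u - D.zt l‖)
    (h' : ‖z - D.zt l‖ < D.d l / 4) :
    ‖D.Th z u l‖ ≤ 10 * ‖D.term l z‖ := by
  refine (D.Th_norm_le l hz hu).trans ?_
  rw [term_norm]
  have ha := D.a_norm_pos l hz
  have hb := D.a_norm_pos l hu
  have hab : ‖D.a l u‖ ≤ ‖D.a l z + D.a l u‖ :=
    norm_add_ge_right (D.a_cone l hz).1 (D.a_cone l hz).2 (D.a_cone l hu).1 (D.a_cone l hu).2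
  have h1 : ‖1 - z‖ ≤ 10 * ‖D.a l u‖ ^ 2 := by
    rw [a_norm_sq]
    linarith [D.one_sub_le l z, D.one_sub_ge_dist l hu]
  have hs := Real.sqrt_nonneg (D.de l)
  calc Real.sqrt (D.de l) * ‖1 - z‖ / (‖D.a l z‖ * ‖D.a l u‖ * ‖D.a l z + D.a l u‖)
      ≤ Real.sqrt (D.de l) * (10 * ‖D.a l u‖ ^ 2) / (‖D.a l z‖ * ‖D.a l u‖ * ‖D.a l u‖) := by gcongr
    _ = 10 * (Real.sqrt (D.de l) / ‖D.a l z‖) := by field_simp

lemma ind_of_near {z : ℂ} {l : ℕ} (h : ‖z - D.zt l‖ < D.d l / 4) : D.ind z l = 1 := by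
  unfold ind; rw [if_pos h]

/-- unless both points are near the same `zt l`. -/
lemma Th_bound (l : ℕ) {z u : ℂ} (hz : ‖z‖ < 1) (hu : ‖u‖ < 1)
    (h : ¬ (‖z - D.zt l‖ < D.d l / 4 ∧ ‖u - D.zt l‖ < D.d l / 4)) :
    ‖D.Th z u l‖ ≤ 30 * D.q l + 10 * D.ind z l + 10 * D.ind u l := by
  by_cases h1 : ‖z - D.zt l‖ < D.d l / 4
  · have h2 : D.d l / 4 ≤ ‖u - D.zt l‖ := by
      by_contra h3
      exact h ⟨h1, not_le.mp h3⟩
    have h4 := D.Th_bound_u l hz hu h2 h1
    have h5 := D.term_le_one l hz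
    rw [D.ind_of_near h1]
    linarith [D.q_nonneg l, D.ind_nonneg u l]
  · have h4 := D.Th_bound_z l hz hu (not_lt.mp h1)
    have h5 := D.term_bound l hu
    linarith [D.ind_nonneg z l]

lemma Th_bound_far (l : ℕ) {z u : ℂ} (hz : ‖z‖ < 1) (hu : ‖u‖ < 1)
    (h1 : D.d l / 4 ≤ ‖z - D.zt l‖) (h2 : D.d l / 4 ≤ ‖u - D.zt l‖) :
    ‖D.Th z u l‖ ≤ 30 * D.q l := by
  have h4 := D.Th_bound_z l hz hu h1
  have h5 := D.term_far l hu h2
  linarith

lemma Th_summable {z u : ℂ} (hz : ‖z‖ < 1) (hu : ‖u‖ < 1) (hzu : z ≠ u) : Summable (D.Th z u) := by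
  have h1 : Summable fun l => I * (D.term l u - D.term l z) * (u * (1 - z)) :=
    (((D.term_summable hu).sub (D.term_summable hz)).mul_left I).mul_right _
  have h2 : (fun l => I * (D.term l u - D.term l z) * (u * (1 - z))) =
      fun l => (u - z) * D.Th z u l := by
    funext l; exact D.term_diff l hz hu
  rw [h2] at h1
  have h3 : (u - z) ≠ 0 := sub_ne_zero.mpr (Ne.symm hzu)
  exact (summable_mul_left_iff h3).mp h1

lemma Th_tsum {z u : ℂ} (hz : ‖z‖ < 1) (hu : ‖u‖ < 1) :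
    I * (D.S u - D.S z) * (u * (1 - z)) = (u - z) * ∑' l, D.Th z u l := by
  unfold S
  rw [← Summable.tsum_sub (D.term_summable hu) (D.term_summable hz), ← tsum_mul_left,
    ← tsum_mul_right, ← tsum_mul_left]
  congr 1
  funext l
  exact D.term_diff l hz hu

/-- the main function without normalisation -/
noncomputable def F (z : ℂ) : ℂ := z / (1 - z) * Complex.exp (I * (1 / 100) * D.S z)

lemma geom {l : ℕ} {z u : ℂ} (hu : ‖u‖ < 1) (h1 : ‖z - D.zt l‖ < D.d l / 4)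
    (h2 : ‖u - D.zt l‖ < D.d l / 4) :
    ‖I * (D.al l * u) * (1 - z) - D.d l‖ ≤ 2 / 5 * D.d l := by
  have hd := D.d_pos l
  have hd' := D.d_le l
  have e1 : I * (D.al l * u) * (1 - z) - D.d l =
      (D.al l * u) * ((I * (1 - D.zt l) - D.d l) - I * (z - D.zt l)) + (D.al l * u - 1) * D.d l := by
    ring
  have hal : ‖D.al l * u‖ ≤ 1 := (D.alz_lt l hu).le
  have e2 : D.al l * u - 1 = D.al l * (u - D.zt l) - D.de l := by
    have := D.conj_mul l
    unfold al; push_cast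
    linear_combination (1 - (D.de l : ℂ)) * this
  have e3 : ‖D.al l * u - 1‖ ≤ D.d l / 4 + D.de l := by
    rw [e2]
    refine (norm_sub_le _ _).trans ?_
    rw [norm_mul, Complex.norm_real, Real.norm_eq_abs, abs_of_pos (D.de_pos l)]
    have := D.al_norm_lt l
    nlinarith [norm_nonneg (D.al l), norm_nonneg (u - D.zt l)]
  rw [e1]
  refine (norm_add_le _ _).trans ?_
  rw [norm_mul, norm_mul (D.al l * u - 1), Complex.norm_real, Real.norm_eq_abs, abs_of_pos hd]
  have e4 : ‖(I * (1 - D.zt l) - D.d l) - I * (z - D.zt l)‖ ≤ 1 / 20 * D.d l + D.d l / 4 := by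
    refine (norm_sub_le _ _).trans ?_
    rw [norm_mul, Complex.norm_I, one_mul]
    linarith [D.dir l]
  have e5 : ‖D.al l * u‖ * ‖(I * (1 - D.zt l) - D.d l) - I * (z - D.zt l)‖ ≤
      1 * (1 / 20 * D.d l + D.d l / 4) := by gcongr
  have e6 : ‖D.al l * u - 1‖ * D.d l ≤ (D.d l / 4 + D.de l) * D.d l := by gcongr
  have e7 : (D.d l / 4 + D.de l) ≤ 1 / 15 := by linarith [D.de_le l]
  nlinarith

lemma mod_one {G M eta : ℂ} (hG : ‖G - 1‖ ≤ 2 / 5) (hM : ‖M - 1‖ ≤ 1 / 20) (he : ‖eta‖ ≤ 1 / 20) :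
    ‖G * M / (1 + eta * M) - 1‖ ≤ 7 / 10 := by
  have hMn : ‖M‖ ≤ 21 / 20 := by
    have : M = (M - 1) + 1 := by ring
    rw [this]; refine (norm_add_le _ _).trans ?_; rw [norm_one]; linarith
  have h1 : ‖eta * M‖ ≤ 21 / 400 := by
    rw [norm_mul]
    calc ‖eta‖ * ‖M‖ ≤ (1 / 20) * (21 / 20) := by gcongr
      _ = 21 / 400 := by norm_num
  have h2 : 379 / 400 ≤ ‖1 + eta * M‖ := by
    have := norm_sub_norm_le (1 : ℂ) (-(eta * M))
    rw [norm_neg, norm_one, sub_neg_eq_add] at this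
    linarith
  have h0 : (1 + eta * M) ≠ 0 := by
    intro h; rw [h] at h2; simp at h2; linarith
  have h3 : G * M / (1 + eta * M) - 1 = ((G - 1) * M + (M - 1) - eta * M) / (1 + eta * M) := by
    rw [div_sub_one h0]; congr 1; ring
  rw [h3, norm_div, div_le_iff₀ (by linarith)]
  have h4 : ‖(G - 1) * M + (M - 1) - eta * M‖ ≤ 2 / 5 * (21 / 20) + 1 / 20 + 21 / 400 := by
    refine (norm_sub_le _ _).trans ?_
    refine add_le_add ((norm_add_le _ _).trans ?_) h1
    rw [norm_mul]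
    gcongr
  linarith

theorem F_inj {z u : ℂ} (hz : ‖z‖ < 1) (hu : ‖u‖ < 1) (h : D.F z = D.F u) : z = u := by
  by_contra hzu
  have h1z : (1 - z) ≠ 0 := by
    intro h'
    have : z = 1 := by linear_combination -h'
    rw [this] at hz; simp at hz
  have h1u : (1 - u) ≠ 0 := by
    intro h'
    have : u = 1 := by linear_combination -h'
    rw [this] at hu; simp at hu
  by_cases hu0 : u = 0
  · subst hu0
    unfold F at h
    simp only [zero_div, zero_mul] at h
    rcases mul_eq_zero.mp h with h' | h'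
    · rcases div_eq_zero_iff.mp h' with h'' | h''
      · exact hzu h''
      · exact h1z h''
    · exact Complex.exp_ne_zero _ h'
  set W : ℂ := I * (1 / 100) * (D.S u - D.S z) with hW
  have hexp : z * (1 - u) = u * (1 - z) * Complex.exp W := by
    unfold F at h
    have h2 : Complex.exp W = Complex.exp (I * (1 / 100) * D.S u) / Complex.exp (I * (1 / 100) * D.S z) := by
      rw [← Complex.exp_sub]; congr 1; rw [hW]; ring
    rw [h2]
    have h3 := Complex.exp_ne_zero (I * (1 / 100) * D.S z)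
    field_simp at h ⊢
    linear_combination h
  have hWn : ‖W‖ ≤ 24 / 1000 := by
    rw [hW, norm_mul, norm_mul, Complex.norm_I]
    have := norm_sub_le (D.S u) (D.S z)
    have h1 := D.S_norm hz
    have h2 := D.S_norm hu
    have h3 : ‖(1 / 100 : ℂ)‖ = 1 / 100 := by norm_num
    rw [h3]
    linarith
  have hW0 : W ≠ 0 := by
    intro h0
    rw [h0, Complex.exp_zero] at hexp
    apply hzu
    linear_combination hexp
  set M : ℂ := (Complex.exp W - 1) / W with hM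
  have hM1 : ‖M - 1‖ ≤ 1 / 20 := by
    have h1 := Complex.norm_exp_sub_one_sub_id_le (x := W) (by linarith)
    have h2 : M - 1 = (Complex.exp W - 1 - W) / W := by
      rw [hM]; field_simp
    rw [h2, norm_div, div_le_iff₀ (norm_pos_iff.mpr hW0)]
    nlinarith [norm_nonneg W]
  have hMn : ‖M‖ ≤ 21 / 20 := by
    have : M = (M - 1) + 1 := by ring
    rw [this]; refine (norm_add_le _ _).trans ?_; rw [norm_one]; linarith
  -- the main relation
  have hrel : 1 + (1 / 100) * (∑' l, D.Th z u l) * M = 0 := by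
    have h1 := D.Th_tsum hz hu
    have h2 : W * (u * (1 - z)) = (1 / 100) * ((u - z) * ∑' l, D.Th z u l) := by
      rw [← h1, hW]; ring
    have h3 : W * M = Complex.exp W - 1 := by rw [hM]; field_simp
    have h4 : (z - u) = (u * (1 - z)) * (W * M) := by
      rw [h3]; linear_combination hexp
    have h5 : (z - u) * (1 + (1 / 100) * (∑' l, D.Th z u l) * M) = 0 := by
      have : (u * (1 - z)) * (W * M) = (1 / 100) * ((u - z) * ∑' l, D.Th z u l) * M := by
        rw [← h2]; ring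
      rw [this] at h4
      linear_combination h4
    rcases mul_eq_zero.mp h5 with h6 | h6
    · exact absurd (sub_eq_zero.mp h6) hzu
    · exact h6
  by_cases hcase : ∃ l, ‖z - D.zt l‖ < D.d l / 4 ∧ ‖u - D.zt l‖ < D.d l / 4
  · obtain ⟨l, hl1, hl2⟩ := hcase
    have hd := D.d_pos l
    have hsum := D.Th_summable hz hu hzu
    have hsplit : ∑' k, D.Th z u k = D.Th z u l + ∑' k, (if k = l then 0 else D.Th z u k) :=
      hsum.tsum_eq_add_tsum_ite l
    set eta0 : ℂ := ∑' k, (if k = l then 0 else D.Th z u k) with heta0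
    have heta : ‖eta0‖ ≤ 30 / 16 := by
      have hs : Summable (fun k => 30 * D.q k) := D.summ_q.mul_left 30
      have h1 : ‖eta0‖ ≤ ∑' k, (30 * D.q k) := by
        refine tsum_of_norm_bounded hs.hasSum (fun k => ?_)
        split_ifs with hk
        · simp; exact D.q_nonneg k
        · apply D.Th_bound_far k hz hu
          · by_contra hcon
            exact hk (D.near_unique (not_le.mp hcon) hl1)
          · by_contra hcon
            exact hk (D.near_unique (not_le.mp hcon) hl2)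
      rw [tsum_mul_left] at h1
      linarith [D.sum_q_le]
    rw [hsplit] at hrel
    set eta : ℂ := (1 / 100) * eta0 with heta'
    have hetan : ‖eta‖ ≤ 1 / 20 := by
      rw [heta', norm_mul]
      have h3 : ‖(1 / 100 : ℂ)‖ = 1 / 100 := by norm_num
      rw [h3]; linarith
    set G : ℂ := I * (D.al l * u) * (1 - z) / D.d l with hG
    have hdc : (D.d l : ℂ) ≠ 0 := by exact_mod_cast hd.ne'
    have hG1 : ‖G - 1‖ ≤ 2 / 5 := by
      have h1 : G - 1 = (I * (D.al l * u) * (1 - z) - D.d l) / D.d l := by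
        rw [hG]; field_simp
      rw [h1, norm_div, Complex.norm_real, Real.norm_eq_abs, abs_of_pos hd, div_le_iff₀ hd]
      exact D.geom hu hl1 hl2
    have hgood := mod_one hG1 hM1 hetan
    have ha := D.a_cone l hz
    have hb := D.a_cone l hu
    have hPne : D.a l z * D.a l u * (D.a l z + D.a l u) ≠ 0 :=
      mul_ne_zero (mul_ne_zero (D.a_ne l hz) (D.a_ne l hu)) (D.a_add_ne l hz hu)
    refine key_ne ha.1 ha.2 hb.1 hb.2 (R := 1 / 100 * Real.sqrt (D.de l) * D.d l) (by positivity)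
      hgood ?_
    -- algebra
    have hne : (1 + eta * M) ≠ 0 := by
      have h1 : ‖eta * M‖ ≤ 21 / 400 := by
        rw [norm_mul]
        calc ‖eta‖ * ‖M‖ ≤ (1 / 20) * (21 / 20) := by gcongr
          _ = 21 / 400 := by norm_num
      intro h0
      have : ‖(1 : ℂ)‖ = ‖eta * M‖ := by
        have : (1 : ℂ) = -(eta * M) := by linear_combination h0
        rw [this, norm_neg]
      rw [norm_one] at this
      linarith
    have hTh : D.Th z u l * (D.a l z * D.a l u * (D.a l z + D.a l u)) =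
        (Real.sqrt (D.de l) : ℂ) * (G * D.d l) := by
      unfold Th
      rw [div_mul_cancel₀ _ hPne, hG]
      field_simp
    have h7 : (1 + eta * M) * (D.a l z * D.a l u * (D.a l z + D.a l u)) =
        -((1 / 100) * Real.sqrt (D.de l) * D.d l) * (G * M) := by
      have h8 : 1 + eta * M = -((1 / 100) * D.Th z u l * M) := by
        rw [heta']
        linear_combination hrel
      rw [h8]
      linear_combination (-(1 / 100) * M) * hTh
    push_cast
    rw [mul_div_assoc', eq_div_iff hne]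
    linear_combination h7
  · push Not at hcase
    have hs : Summable (fun k => 30 * D.q k + 10 * D.ind z k + 10 * D.ind u k) :=
      ((D.summ_q.mul_left 30).add ((D.ind_sum z).1.mul_left 10)).add ((D.ind_sum u).1.mul_left 10)
    have h1 : ‖∑' l, D.Th z u l‖ ≤ ∑' k, (30 * D.q k + 10 * D.ind z k + 10 * D.ind u k) := by
      refine tsum_of_norm_bounded hs.hasSum (fun k => ?_)
      apply D.Th_bound k hz hu
      rintro ⟨h2, h3⟩
      exact absurd h3 (not_lt.mpr (hcase k h2))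
    have h2 : ∑' k, (30 * D.q k + 10 * D.ind z k + 10 * D.ind u k) ≤ 22 := by
      rw [Summable.tsum_add ((D.summ_q.mul_left 30).add ((D.ind_sum z).1.mul_left 10))
        ((D.ind_sum u).1.mul_left 10),
        Summable.tsum_add (D.summ_q.mul_left 30) ((D.ind_sum z).1.mul_left 10),
        tsum_mul_left, tsum_mul_left, tsum_mul_left]
      linarith [D.sum_q_le, (D.ind_sum z).2, (D.ind_sum u).2]
    have h3 : ‖(1 / 100 : ℂ) * (∑' l, D.Th z u l) * M‖ ≤ 1 / 100 * 22 * (21 / 20) := by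
      rw [norm_mul, norm_mul]
      have h4 : ‖(1 / 100 : ℂ)‖ = 1 / 100 := by norm_num
      rw [h4]
      have := h1.trans h2
      gcongr
    have h5 : (1 : ℂ) = -((1 / 100 : ℂ) * (∑' l, D.Th z u l) * M) := by linear_combination hrel
    have h6 : ‖(1 : ℂ)‖ = ‖(1 / 100 : ℂ) * (∑' l, D.Th z u l) * M‖ := by
      rw [← norm_neg ((1 / 100 : ℂ) * (∑' l, D.Th z u l) * M), ← h5]
    rw [norm_one] at h6
    linarith

end Data



lemma geom_zero {x : ℂ} {K : ℕ} (hx : x ^ K = 1) (hx1 : x ≠ 1) :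
    ∑ k ∈ Finset.Ico K (2 * K), x ^ k = 0 := by
  rw [geom_sum_Ico hx1 (by omega), two_mul, pow_add, hx]
  simp

lemma parseval {ι : Type*} (P : Finset ι) (w : ι → ℂ) (K : ℕ) (hw : ∀ p ∈ P, ‖w p‖ = 1)
    (hK : ∀ p ∈ P, w p ^ K = 1) [DecidableEq ℂ] :
    ∑ k ∈ Finset.Ico K (2 * K), ‖∑ p ∈ P, w p ^ k‖ ^ 2 =
      ∑ p ∈ P, ∑ p' ∈ P, (if w p = w p' then (K : ℝ) else 0) := by
  have h : ((∑ k ∈ Finset.Ico K (2 * K), ‖∑ p ∈ P, w p ^ k‖ ^ 2 : ℝ) : ℂ) =
      ((∑ p ∈ P, ∑ p' ∈ P, (if w p = w p' then (K : ℝ) else 0) : ℝ) : ℂ) := by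
    push_cast
    have h1 : ∀ k ∈ Finset.Ico K (2 * K), ((‖∑ p ∈ P, w p ^ k‖ : ℂ)) ^ 2 =
        ∑ p ∈ P, ∑ p' ∈ P, (w p * (starRingEnd ℂ) (w p')) ^ k := by
      intro k _
      rw [← Complex.mul_conj', map_sum, Finset.sum_mul_sum]
      refine Finset.sum_congr rfl fun p _ => Finset.sum_congr rfl fun p' _ => ?_
      rw [map_pow, mul_pow]
    rw [Finset.sum_congr rfl h1, Finset.sum_comm]
    refine Finset.sum_congr rfl fun p hp => ?_
    rw [Finset.sum_comm]
    refine Finset.sum_congr rfl fun p' hp' => ?_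
    have hconj : w p' * (starRingEnd ℂ) (w p') = 1 := by
      rw [Complex.mul_conj', hw p' hp']; simp
    split_ifs with hpp
    · rw [hpp, hconj]
      simp only [one_pow, Finset.sum_const, Nat.card_Ico, nsmul_eq_mul, mul_one]
      congr 1
      omega
    · apply geom_zero
      · rw [mul_pow, hK p hp, ← map_pow, hK p' hp']; simp
      · intro h2
        apply hpp
        calc w p = w p * ((starRingEnd ℂ) (w p') * w p') := by rw [mul_comm _ (w p'), hconj, mul_one]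
          _ = (w p * (starRingEnd ℂ) (w p')) * w p' := by ring
          _ = w p' := by rw [h2, one_mul]
  exact_mod_cast h

lemma pointwise {t Q : ℝ} (ht : 0 ≤ t) (hQ : 0 < Q) :
    t ^ 2 / Q - 4 / 27 * (t ^ 4 / Q ^ 3) ≤ t := by
  have h : t - (t ^ 2 / Q - 4 / 27 * (t ^ 4 / Q ^ 3)) = t * (4 / 27 * (t / Q - 3 / 2) ^ 2 * (t / Q + 3)) := by
    field_simp; ring
  have h2 : 0 ≤ t * (4 / 27 * (t / Q - 3 / 2) ^ 2 * (t / Q + 3)) := by positivity
  linarith

lemma L1_lower (s : Finset ℕ) (w : ℕ → ℂ) (K : ℕ) (hw : ∀ p ∈ s, ‖w p‖ = 1)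
    (hK : ∀ p ∈ s, w p ^ K = 1) (hinj : ∀ a ∈ s, ∀ b ∈ s, w a = w b → a = b)
    (hsid : ∀ a ∈ s, ∀ b ∈ s, ∀ c ∈ s, ∀ d ∈ s, w a * w b = w c * w d →
      (a = c ∧ b = d) ∨ (a = d ∧ b = c)) (hs : 0 < s.card) :
    (K : ℝ) * Real.sqrt s.card * (19 / 27) ≤ ∑ k ∈ Finset.Ico K (2 * K), ‖∑ p ∈ s, w p ^ k‖ := by
  classical
  set Q := Real.sqrt s.card with hQ
  have hsR : (0 : ℝ) < s.card := by exact_mod_cast hs
  have hQ0 : 0 < Q := Real.sqrt_pos.mpr hsR
  have hQ2 : Q ^ 2 = s.card := Real.sq_sqrt hsR.le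
  -- second moment
  have h2 : ∑ k ∈ Finset.Ico K (2 * K), ‖∑ p ∈ s, w p ^ k‖ ^ 2 = K * s.card := by
    rw [parseval s w K hw hK]
    have : ∀ p ∈ s, ∑ p' ∈ s, (if w p = w p' then (K : ℝ) else 0) = K := by
      intro p hp
      rw [Finset.sum_eq_single p]
      · simp
      · intro b hb hbp
        rw [if_neg]
        intro h
        exact hbp (hinj p hp b hb h).symm
      · intro h; exact absurd hp h
    rw [Finset.sum_congr rfl this]
    simp [mul_comm]
  -- fourth moment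
  have h4 : ∑ k ∈ Finset.Ico K (2 * K), ‖∑ p ∈ s, w p ^ k‖ ^ 4 ≤ 2 * (K * (s.card : ℝ) ^ 2) := by
    have e1 : ∀ k ∈ Finset.Ico K (2 * K), ‖∑ p ∈ s, w p ^ k‖ ^ 4 =
        ‖∑ p ∈ s ×ˢ s, (w p.1 * w p.2) ^ k‖ ^ 2 := by
      intro k _
      have : ∑ p ∈ s ×ˢ s, (w p.1 * w p.2) ^ k = (∑ p ∈ s, w p ^ k) ^ 2 := by
        rw [pow_two, Finset.sum_mul_sum, Finset.sum_product]
        refine Finset.sum_congr rfl fun p _ => Finset.sum_congr rfl fun p' _ => ?_
        rw [mul_pow]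
      rw [this, norm_pow, ← pow_mul]
    rw [Finset.sum_congr rfl e1, parseval (s ×ˢ s) (fun p => w p.1 * w p.2) K ?_ ?_]
    · have e2 : ∀ p ∈ s ×ˢ s, ∑ p' ∈ s ×ˢ s,
          (if w p.1 * w p.2 = w p'.1 * w p'.2 then (K : ℝ) else 0) ≤ 2 * K := by
        intro p hp
        rw [Finset.mem_product] at hp
        have e3 : ∀ p' ∈ s ×ˢ s, (if w p.1 * w p.2 = w p'.1 * w p'.2 then (K : ℝ) else 0) ≤
            (if p' = p then (K : ℝ) else 0) + (if p' = (p.2, p.1) then (K : ℝ) else 0) := by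
          intro p' hp'
          rw [Finset.mem_product] at hp'
          have hKn : (0 : ℝ) ≤ K := Nat.cast_nonneg K
          by_cases h : w p.1 * w p.2 = w p'.1 * w p'.2
          · rw [if_pos h]
            rcases hsid _ hp.1 _ hp.2 _ hp'.1 _ hp'.2 h with ⟨h1, h2⟩ | ⟨h1, h2⟩
            · have : p' = p := by
                apply Prod.ext
                · exact h1.symm
                · exact h2.symm
              rw [if_pos this]
              split_ifs <;> linarith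
            · have : p' = (p.2, p.1) := by
                apply Prod.ext
                · exact h2.symm
                · exact h1.symm
              rw [if_pos this]
              split_ifs <;> linarith
          · rw [if_neg h]
            split_ifs <;> linarith
        refine (Finset.sum_le_sum e3).trans ?_
        rw [Finset.sum_add_distrib, Finset.sum_ite_eq', Finset.sum_ite_eq']
        have hKn : (0 : ℝ) ≤ K := Nat.cast_nonneg K
        split_ifs <;> linarith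
      refine (Finset.sum_le_sum e2).trans ?_
      rw [Finset.sum_const, Finset.card_product, nsmul_eq_mul]
      push_cast
      apply le_of_eq
      ring
    · intro p hp
      rw [Finset.mem_product] at hp
      rw [norm_mul, hw _ hp.1, hw _ hp.2, one_mul]
    · intro p hp
      rw [Finset.mem_product] at hp
      rw [mul_pow, hK _ hp.1, hK _ hp.2, one_mul]
  have h5 : ∑ k ∈ Finset.Ico K (2 * K), (‖∑ p ∈ s, w p ^ k‖ ^ 2 / Q -
      4 / 27 * (‖∑ p ∈ s, w p ^ k‖ ^ 4 / Q ^ 3)) ≤ ∑ k ∈ Finset.Ico K (2 * K), ‖∑ p ∈ s, w p ^ k‖ :=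
    Finset.sum_le_sum fun k _ => pointwise (norm_nonneg _) hQ0
  refine le_trans ?_ h5
  rw [Finset.sum_sub_distrib, ← Finset.sum_div, ← Finset.mul_sum, ← Finset.sum_div, h2]
  have h6 : (∑ k ∈ Finset.Ico K (2 * K), ‖∑ p ∈ s, w p ^ k‖ ^ 4) / Q ^ 3 ≤
      2 * (K * (s.card : ℝ) ^ 2) / Q ^ 3 := by gcongr
  have h7 : 2 * (K * (s.card : ℝ) ^ 2) / Q ^ 3 = 2 * K * Q := by
    rw [← hQ2]; field_simp
  have h8 : (K : ℝ) * s.card / Q = K * Q := by
    rw [← hQ2]; field_simp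
  rw [h8]
  rw [h7] at h6
  linarith



/-- exponent of the scale attached to the index `l` -/
def hh (l : ℕ) : ℕ := 4 * 2 ^ Nat.log 2 l

noncomputable def th (l : ℕ) : ℝ := 2 * Real.pi * (1 / 4) ^ l

noncomputable def dd (l : ℕ) : ℝ := 2 * Real.sin (Real.pi * (1 / 4) ^ l)

noncomputable def delt (l : ℕ) : ℝ := (1 / 4) ^ hh l

noncomputable def zet (l : ℕ) : ℂ := Complex.exp (I * th l)

lemma hh_gt {l : ℕ} (hl : l ≠ 0) : 2 * l + 2 ≤ hh l := by
  unfold hh
  have h := Nat.lt_pow_succ_log_self (b := 2) (by norm_num) l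
  rw [pow_succ] at h
  omega

lemma zet_norm (l : ℕ) : ‖zet l‖ = 1 := by
  unfold zet
  rw [mul_comm, Complex.norm_exp_ofReal_mul_I]

lemma quarter_pow_le {l : ℕ} (hl : 16 ≤ l) : ((1 : ℝ) / 4) ^ l ≤ 1 / 10000 := by
  calc ((1 : ℝ) / 4) ^ l ≤ (1 / 4) ^ 16 := pow_le_pow_of_le_one (by norm_num) (by norm_num) hl
    _ ≤ 1 / 10000 := by norm_num

lemma quarter_pow_pos (l : ℕ) : 0 < ((1 : ℝ) / 4) ^ l := by positivity

lemma dd_lower {l : ℕ} (hl : 16 ≤ l) : 4 * (1 / 4) ^ l ≤ dd l := by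
  have hpi := Real.pi_pos
  have h1 := quarter_pow_le hl
  have h0 := quarter_pow_pos l
  have hx : 0 ≤ Real.pi * (1 / 4) ^ l := by positivity
  have hx2 : Real.pi * (1 / 4) ^ l ≤ Real.pi / 2 := by nlinarith
  have h := Real.mul_le_sin hx hx2
  unfold dd
  have h3 : 2 / Real.pi * (Real.pi * (1 / 4) ^ l) = 2 * (1 / 4) ^ l := by
    field_simp
  rw [h3] at h
  linarith

lemma dd_upper (l : ℕ) : dd l ≤ 2 * Real.pi * (1 / 4) ^ l := by
  unfold dd
  have h : Real.sin (Real.pi * (1 / 4) ^ l) ≤ Real.pi * (1 / 4) ^ l :=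
    Real.sin_le (by have := Real.pi_pos; positivity)
  linarith

lemma dd_pos {l : ℕ} (hl : 16 ≤ l) : 0 < dd l :=
  lt_of_lt_of_le (by positivity) (dd_lower hl)

lemma zet_d {l : ℕ} (hl : 16 ≤ l) : ‖1 - zet l‖ = dd l := by
  unfold zet
  rw [norm_sub_rev, Complex.norm_exp_I_mul_ofReal_sub_one, Real.norm_eq_abs]
  have : 2 * Real.sin (th l / 2) = dd l := by
    unfold th dd; congr 2; ring
  rw [this, abs_of_pos (dd_pos hl)]

lemma zet_dir {l : ℕ} (hl : 16 ≤ l) : ‖I * (1 - zet l) - dd l‖ ≤ 1 / 20 * dd l := by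
  have h1 : I * (1 - zet l) - dd l = dd l * (Complex.exp (I * (th l / 2 : ℝ)) - 1) := by
    have e1 : zet l = Complex.exp (I * (th l / 2 : ℝ)) * Complex.exp (I * (th l / 2 : ℝ)) := by
      unfold zet; rw [← Complex.exp_add]; congr 1; push_cast; ring
    have e2 : (dd l : ℂ) = -I * (Complex.exp (I * (th l / 2 : ℝ)) - Complex.exp (-(I * (th l / 2 : ℝ)))) := by
      have e3 : dd l = 2 * Real.sin (th l / 2) := by
        unfold th dd; congr 2; ring
      rw [e3]
      push_cast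
      rw [Complex.sin, mul_comm I ((th l : ℂ) / 2)]
      have : -((th l : ℂ) / 2 * I) = -((th l : ℂ) / 2) * I := by ring
      rw [this]
      ring
    have e4 : Complex.exp (I * (th l / 2 : ℝ)) * Complex.exp (-(I * (th l / 2 : ℝ))) = 1 := by
      rw [← Complex.exp_add]; simp
    rw [e1]
    rw [mul_sub (dd l : ℂ), mul_one]
    nth_rewrite 2 [e2]
    linear_combination (-I) * e4
  rw [h1, norm_mul, Complex.norm_real, Real.norm_eq_abs, abs_of_pos (dd_pos hl), mul_comm]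
  have h2 := Real.norm_exp_I_mul_ofReal_sub_one_le (x := th l / 2)
  have h3 : ‖th l / 2‖ ≤ 1 / 20 := by
    rw [Real.norm_eq_abs, abs_le]
    have h0 := quarter_pow_pos l
    have h1 := quarter_pow_le hl
    have hpi := Real.pi_pos
    have hpi4 := Real.pi_le_four
    unfold th
    constructor
    · have : 0 < 2 * Real.pi * (1 / 4) ^ l / 2 := by positivity
      linarith
    · nlinarith
  have := dd_pos hl
  gcongr
  exact h2.trans h3

lemma zet_sep {i j : ℕ} (hi : 16 ≤ i) (hj : 16 ≤ j) (hij : i ≠ j) :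
    (dd i + dd j) / 4 ≤ ‖zet i - zet j‖ := by
  have key : ∀ i j : ℕ, 16 ≤ i → i < j → (dd i + dd j) / 4 ≤ ‖zet i - zet j‖ := by
    intro i j hi hij
    have hj : 16 ≤ j := by omega
    have h1 : ‖1 - zet i‖ - ‖1 - zet j‖ ≤ ‖zet i - zet j‖ := by
      have h := norm_sub_norm_le (1 - zet i) (1 - zet j)
      have h2 : (1 - zet i) - (1 - zet j) = -(zet i - zet j) := by ring
      rw [h2, norm_neg] at h
      exact h
    rw [zet_d hi, zet_d hj] at h1
    have h2 := dd_lower hi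
    have h3 := dd_upper j
    have h4 : ((1 : ℝ) / 4) ^ j ≤ (1 / 4) ^ (i + 1) :=
      pow_le_pow_of_le_one (by norm_num) (by norm_num) hij
    rw [pow_succ] at h4
    have hpi : Real.pi ≤ 3.15 := Real.pi_lt_d2.le
    have hpi0 := Real.pi_pos
    have h0 := quarter_pow_pos i
    have h0j := quarter_pow_pos j
    have h5 : dd j ≤ 2 * 3.15 * ((1 / 4) ^ i * (1 / 4)) := by
      calc dd j ≤ 2 * Real.pi * (1 / 4) ^ j := h3
        _ ≤ 2 * 3.15 * ((1 / 4) ^ i * (1 / 4)) := by gcongr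
    linarith
  rcases lt_or_gt_of_ne hij with h | h
  · exact key i j hi h
  · have := key j i hj h
    rw [norm_sub_rev, add_comm]; exact this

lemma delt_pos (l : ℕ) : 0 < delt l := by unfold delt; positivity

lemma delt_le {l : ℕ} (hl : 16 ≤ l) : delt l ≤ 1 / 10000 := by
  unfold delt
  exact quarter_pow_le (by have := hh_gt (l := l) (by omega); omega)

lemma sqrt_delt (l : ℕ) : Real.sqrt (delt l) = (1 / 2) ^ hh l := by
  unfold delt
  rw [show ((1 : ℝ) / 4) = (1 / 2) ^ 2 by norm_num, ← pow_mul, mul_comm, pow_mul,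
    Real.sqrt_sq (by positivity)]

lemma q_le {l : ℕ} (hl : 16 ≤ l) : Real.sqrt (delt l / dd l) ≤ (1 / 2) ^ l := by
  rw [Real.sqrt_le_left (by positivity)]
  rw [div_le_iff₀ (dd_pos hl)]
  have h1 : ((1 : ℝ) / 2 ) ^ l ^ 1 = (1 / 2) ^ l := by simp
  have h2 : (((1 : ℝ) / 2) ^ l) ^ 2 = (1 / 4) ^ l := by
    rw [← pow_mul, mul_comm, pow_mul]; norm_num
  rw [h2]
  have h3 : delt l ≤ (1 / 4) ^ (2 * l) := by
    unfold delt
    exact pow_le_pow_of_le_one (by norm_num) (by norm_num) (by have := hh_gt (l := l) (by omega); omega)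
  rw [two_mul, pow_add] at h3
  have h4 := dd_lower hl
  have h0 := quarter_pow_pos l
  nlinarith

lemma half_summable : Summable fun j : ℕ => ((1 : ℝ) / 2) ^ (j + 16) :=
  (summable_nat_add_iff 16).mpr summable_geometric_two

lemma half_sum : ∑' j : ℕ, ((1 : ℝ) / 2) ^ (j + 16) = 2 * (1 / 2) ^ 16 := by
  simp_rw [pow_add]
  rw [tsum_mul_right, tsum_geometric_two]

/-- the concrete data -/
noncomputable def DD : Data where
  zt j := zet (j + 16)
  de j := delt (j + 16)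
  d j := dd (j + 16)
  zt_norm j := zet_norm _
  d_eq j := zet_d (by omega)
  d_pos j := dd_pos (by omega)
  d_le j := by
    have h1 := dd_upper (j + 16)
    have h2 := quarter_pow_le (l := j + 16) (by omega)
    have h3 := Real.pi_le_four
    have h4 := Real.pi_pos
    have h0 := quarter_pow_pos (j + 16)
    nlinarith
  dir j := zet_dir (by omega)
  sep i j hij := zet_sep (by omega) (by omega) (by omega)
  de_pos j := delt_pos _
  de_le j := by have := delt_le (l := j + 16) (by omega); linarith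
  summ := Summable.of_nonneg_of_le (fun _ => Real.sqrt_nonneg _) (fun j => q_le (by omega)) half_summable
  sum_le := by
    have h := Summable.tsum_le_tsum (fun j => q_le (l := j + 16) (by omega))
      (Summable.of_nonneg_of_le (fun _ => Real.sqrt_nonneg _) (fun j => q_le (by omega)) half_summable)
      half_summable
    rw [half_sum] at h
    refine h.trans ?_
    norm_num
  summ' := by
    refine Summable.of_nonneg_of_le (fun _ => Real.sqrt_nonneg _) (fun j => ?_) half_summable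
    rw [sqrt_delt]
    exact pow_le_pow_of_le_one (by norm_num) (by norm_num)
      (by have := hh_gt (l := j + 16) (by omega); omega)



namespace Data

variable (D : Data)

/-- coefficients of `S` -/
noncomputable def co (k : ℕ) : ℂ := (B k : ℂ) * ∑' j, (Real.sqrt (D.de j) : ℂ) * (D.al j) ^ k

lemma inner_summable (k : ℕ) : Summable fun j => (Real.sqrt (D.de j) : ℂ) * (D.al j) ^ k := by
  refine Summable.of_norm_bounded D.summ' (fun j => ?_)
  rw [norm_mul, norm_pow, Complex.norm_real, Real.norm_eq_abs, abs_of_nonneg (Real.sqrt_nonneg _)]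
  have : ‖D.al j‖ ^ k ≤ 1 := pow_le_one₀ (norm_nonneg _) (D.al_norm_lt j).le
  have := Real.sqrt_nonneg (D.de j)
  nlinarith

lemma term_hasSum (j : ℕ) {z : ℂ} (hz : ‖z‖ < 1) :
    HasSum (fun k : ℕ => (Real.sqrt (D.de j) : ℂ) * ((B k : ℂ) * (D.al j * z) ^ k)) (D.term j z) := by
  have h := (hasSum_B (D.alz_lt j hz)).mul_left (Real.sqrt (D.de j) : ℂ)
  unfold term a sq
  rw [div_eq_mul_one_div]
  exact h

lemma double_summable {z : ℂ} (hz : ‖z‖ < 1) :
    Summable fun p : ℕ × ℕ => (Real.sqrt (D.de p.1) : ℂ) * ((B p.2 : ℂ) * (D.al p.1 * z) ^ p.2) := by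
  have h1 : Summable fun x : ℕ × ℕ => Real.sqrt (D.de x.1) * ‖z‖ ^ x.2 :=
    Summable.mul_of_nonneg D.summ' (summable_geometric_of_lt_one (norm_nonneg z) hz)
      (fun j => Real.sqrt_nonneg _) (fun k => by positivity)
  refine Summable.of_norm_bounded h1 (fun p => ?_)
  rw [norm_mul, norm_mul, norm_pow, norm_mul, Complex.norm_real, Complex.norm_real,
    Real.norm_eq_abs, Real.norm_eq_abs, abs_of_nonneg (Real.sqrt_nonneg _), abs_of_pos (B_pos _)]
  have hB := B_le_one p.2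
  have hB0 := B_pos p.2
  have h2 : (‖D.al p.1‖ * ‖z‖) ^ p.2 ≤ ‖z‖ ^ p.2 := by
    apply pow_le_pow_left₀ (by positivity)
    have := D.al_norm_lt p.1
    nlinarith [norm_nonneg z]
  have h3 := Real.sqrt_nonneg (D.de p.1)
  have h4 : B p.2 * (‖D.al p.1‖ * ‖z‖) ^ p.2 ≤ 1 * ‖z‖ ^ p.2 := by gcongr
  rw [one_mul] at h4
  gcongr

lemma S_hasSum {z : ℂ} (hz : ‖z‖ < 1) : HasSum (fun k : ℕ => D.co k * z ^ k) (D.S z) := by
  have hs := (D.double_summable hz).hasSum
  have h1 : HasSum (fun j => D.term j z) (∑' p : ℕ × ℕ, (Real.sqrt (D.de p.1) : ℂ) *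
      ((B p.2 : ℂ) * (D.al p.1 * z) ^ p.2)) :=
    hs.prod_fiberwise (fun j => D.term_hasSum j hz)
  have h2 : D.S z = ∑' p : ℕ × ℕ, (Real.sqrt (D.de p.1) : ℂ) *
      ((B p.2 : ℂ) * (D.al p.1 * z) ^ p.2) := h1.tsum_eq
  rw [h2]
  have h3 := (Equiv.prodComm ℕ ℕ).hasSum_iff.mpr hs
  refine h3.prod_fiberwise (fun k => ?_)
  have h4 := ((D.inner_summable k).hasSum.mul_left (B k : ℂ)).mul_right (z ^ k)
  unfold co
  convert! h4 using 1
  funext j
  simp only [Function.comp_apply, Equiv.prodComm_apply, Prod.swap_prod_mk, mul_pow]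
  ring

lemma term_diffOn (j : ℕ) : DifferentiableOn ℂ (D.term j) (Metric.ball 0 1) := by
  intro z hz
  have hz' : ‖z‖ < 1 := by simpa using hz
  apply DifferentiableAt.differentiableWithinAt
  unfold term a sq
  have hne : (1 - D.al j * z) ^ (1 / 2 : ℂ) ≠ 0 := D.a_ne j hz'
  refine DifferentiableAt.div (differentiableAt_const _) ?_ hne
  refine DifferentiableAt.cpow ?_ (differentiableAt_const _) ?_
  · fun_prop
  · left
    have h1 := D.alz_lt j hz'
    have h2 := (Complex.abs_re_le_norm (D.al j * z))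
    have h3 : (D.al j * z).re < 1 := lt_of_le_of_lt (le_trans (le_abs_self _) h2) h1
    simp only [Complex.sub_re, Complex.one_re]
    linarith

lemma S_diffOn : DifferentiableOn ℂ D.S (Metric.ball 0 1) := by
  intro z hz
  have hz' : ‖z‖ < 1 := by simpa using hz
  obtain ⟨r, hr1, hr2⟩ := exists_between hz'
  have hr0 : 0 < r := lt_of_le_of_lt (norm_nonneg z) hr1
  have h1 : DifferentiableOn ℂ D.S (Metric.ball 0 r) := by
    have hsum : Summable fun j => Real.sqrt (D.de j) / Real.sqrt (1 - r) := D.summ'.div_const _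
    refine differentiableOn_tsum_of_summable_norm hsum (fun j => ?_) Metric.isOpen_ball ?_
    · exact (D.term_diffOn j).mono (Metric.ball_subset_ball hr2.le)
    · intro j w hw
      have hw' : ‖w‖ < r := by simpa using hw
      have hw1 : ‖w‖ < 1 := hw'.trans hr2
      rw [term_norm]
      have h1r : 0 < 1 - r := by linarith
      have h2 : Real.sqrt (1 - r) ≤ ‖D.a j w‖ := by
        rw [Real.sqrt_le_left (norm_nonneg _), a_norm_sq]
        have h3 : ‖(1 : ℂ)‖ - ‖D.al j * w‖ ≤ ‖1 - D.al j * w‖ := norm_sub_norm_le _ _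
        rw [norm_one, norm_mul] at h3
        have h4 : ‖D.al j‖ * ‖w‖ ≤ ‖w‖ := by
          have := D.al_norm_lt j
          nlinarith [norm_nonneg w]
        linarith
      have h5 := Real.sqrt_nonneg (D.de j)
      have h6 : 0 < Real.sqrt (1 - r) := Real.sqrt_pos.mpr h1r
      gcongr
  have hz2 : z ∈ Metric.ball (0 : ℂ) r := by simpa using hr1
  exact ((h1 z hz2).differentiableAt (Metric.isOpen_ball.mem_nhds hz2)).differentiableWithinAt

/-- the normalised function -/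
noncomputable def f (z : ℂ) : ℂ := z / (1 - z) * Complex.exp (I * (1 / 100) * (D.S z - D.S 0))

lemma f_eq (z : ℂ) : D.f z = D.F z * Complex.exp (-(I * (1 / 100) * D.S 0)) := by
  unfold f F
  have h : I * (1 / 100) * (D.S z - D.S 0) = I * (1 / 100) * D.S z + -(I * (1 / 100) * D.S 0) := by
    ring
  rw [h, Complex.exp_add]
  ring

lemma f_inj : Set.InjOn D.f (Metric.ball 0 1) := by
  intro z hz u hu h
  have hz' : ‖z‖ < 1 := by simpa using hz
  have hu' : ‖u‖ < 1 := by simpa using hu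
  rw [f_eq, f_eq] at h
  exact D.F_inj hz' hu' (mul_right_cancel₀ (Complex.exp_ne_zero _) h)

lemma g_diffOn : DifferentiableOn ℂ (fun z => Complex.exp (I * (1 / 100) * (D.S z - D.S 0)) / (1 - z))
    (Metric.ball 0 1) := by
  refine DifferentiableOn.div ?_ (by fun_prop) ?_
  · exact ((D.S_diffOn.sub_const _).const_mul _).cexp
  · intro z hz h
    have hz' : ‖z‖ < 1 := by simpa using hz
    have : z = 1 := by linear_combination -h
    rw [this] at hz'; simp at hz'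

lemma f_eq' (z : ℂ) : D.f z = z * (Complex.exp (I * (1 / 100) * (D.S z - D.S 0)) / (1 - z)) := by
  unfold f; ring

lemma f_analytic : AnalyticOnNhd ℂ D.f (Metric.ball 0 1) := by
  apply DifferentiableOn.analyticOnNhd _ Metric.isOpen_ball
  have h : D.f = fun z => z * (Complex.exp (I * (1 / 100) * (D.S z - D.S 0)) / (1 - z)) := by
    funext z; exact D.f_eq' z
  rw [h]
  exact differentiableOn_id.mul D.g_diffOn

lemma f_zero : D.f 0 = 0 := by unfold f; simp

lemma f_deriv : deriv D.f 0 = 1 := by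
  have h : D.f = fun z => z * (Complex.exp (I * (1 / 100) * (D.S z - D.S 0)) / (1 - z)) := by
    funext z; exact D.f_eq' z
  have h0 : DifferentiableAt ℂ (fun z => Complex.exp (I * (1 / 100) * (D.S z - D.S 0)) / (1 - z)) 0 :=
    (D.g_diffOn 0 (by simp)).differentiableAt (Metric.isOpen_ball.mem_nhds (by simp))
  have h1 := (hasDerivAt_id (0 : ℂ)).mul h0.hasDerivAt
  have h2 : HasDerivAt D.f 1 0 := by
    rw [h]
    convert! h1 using 1
    simp
  exact h2.deriv

/-- the logarithmic coefficients -/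
noncomputable def ga (k : ℕ) : ℂ := (1 / 2) * (1 / (k : ℂ) + I * (1 / 100) * D.co k)

lemma S_zero : D.S 0 = D.co 0 := by
  have h := D.S_hasSum (z := 0) (by simp)
  have h2 : HasSum (fun k : ℕ => D.co k * (0 : ℂ) ^ k) (D.co 0) := by
    have h3 := hasSum_single (f := fun k : ℕ => D.co k * (0 : ℂ) ^ k) 0
      (by intro b hb; simp [hb])
    simpa using h3
  exact h.unique h2

lemma log_hasSum {z : ℂ} (hz : ‖z‖ < 1) :
    HasSum (fun k : ℕ => D.ga (k + 1) * z ^ (k + 1))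
      ((1 / 2) * (-Complex.log (1 - z) + I * (1 / 100) * (D.S z - D.S 0))) := by
  have h1 := Complex.hasSum_taylorSeries_neg_log' hz
  have h2 : HasSum (fun k : ℕ => D.co (k + 1) * z ^ (k + 1)) (D.S z - D.S 0) := by
    have := (hasSum_nat_add_iff' (f := fun k : ℕ => D.co k * z ^ k) 1).mpr (D.S_hasSum hz)
    rw [S_zero]
    simpa using this
  have h3 := (h1.add (h2.mul_left (I * (1 / 100)))).mul_left (1 / 2 : ℂ)
  refine h3.congr_fun ?_ |> fun h => h
  intro k
  unfold ga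
  push_cast
  ring

lemma f_log {z : ℂ} (hz : ‖z‖ < 1) : D.f z = z * Complex.exp (2 * ((1 / 2) *
    (-Complex.log (1 - z) + I * (1 / 100) * (D.S z - D.S 0)))) := by
  have h1z : (1 - z) ≠ 0 := by
    intro h'
    have : z = 1 := by linear_combination -h'
    rw [this] at hz; simp at hz
  have h2 : 2 * ((1 / 2) * (-Complex.log (1 - z) + I * (1 / 100) * (D.S z - D.S 0))) =
      -Complex.log (1 - z) + I * (1 / 100) * (D.S z - D.S 0) := by ring
  rw [h2, Complex.exp_add, Complex.exp_neg, Complex.exp_log h1z]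
  unfold f
  ring

end Data



lemma quarter_sidon_le {a b c d : ℕ} (hab : a ≤ b) (hcd : c ≤ d)
    (h : ((1 : ℝ) / 4) ^ a + (1 / 4) ^ b = (1 / 4) ^ c + (1 / 4) ^ d) : a = c ∧ b = d := by
  have mono : ∀ x y : ℕ, x ≤ y → ((1 : ℝ) / 4) ^ y ≤ (1 / 4) ^ x := fun x y hxy =>
    pow_le_pow_of_le_one (by norm_num) (by norm_num) hxy
  have hac : a = c := by
    rcases lt_trichotomy a c with h1 | h1 | h1
    · exfalso
      have h2 := mono (a + 1) c h1
      have h3 := mono (a + 1) d (by omega)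
      rw [pow_succ] at h2 h3
      have h4 := quarter_pow_pos a
      have h5 := quarter_pow_pos b
      linarith
    · exact h1
    · exfalso
      have h2 := mono (c + 1) a h1
      have h3 := mono (c + 1) b (by omega)
      rw [pow_succ] at h2 h3
      have h4 := quarter_pow_pos c
      have h5 := quarter_pow_pos d
      linarith
  subst hac
  refine ⟨rfl, ?_⟩
  have h1 : ((1 : ℝ) / 4) ^ b = (1 / 4) ^ d := by linarith
  exact (pow_right_injective₀ (by norm_num) (by norm_num)) h1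

lemma quarter_sidon {a b c d : ℕ}
    (h : ((1 : ℝ) / 4) ^ a + (1 / 4) ^ b = (1 / 4) ^ c + (1 / 4) ^ d) :
    (a = c ∧ b = d) ∨ (a = d ∧ b = c) := by
  rcases le_total a b with h1 | h1 <;> rcases le_total c d with h2 | h2
  · exact Or.inl (quarter_sidon_le h1 h2 h)
  · have := quarter_sidon_le h1 h2 (by linarith)
    exact Or.inr this
  · have := quarter_sidon_le h1 h2 (by linarith)
    exact Or.inr ⟨this.2, this.1⟩
  · have := quarter_sidon_le h1 h2 (by linarith)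
    exact Or.inl ⟨this.2, this.1⟩

lemma zet_sidon {a b c d : ℕ} (ha : 16 ≤ a) (hb : 16 ≤ b) (hc : 16 ≤ c) (hd : 16 ≤ d)
    (h : zet a * zet b = zet c * zet d) : (a = c ∧ b = d) ∨ (a = d ∧ b = c) := by
  apply quarter_sidon
  unfold zet at h
  rw [← Complex.exp_add, ← Complex.exp_add, Complex.exp_eq_exp_iff_exists_int] at h
  obtain ⟨n, hn⟩ := h
  have h1 : (((1 : ℝ) / 4) ^ a + (1 / 4) ^ b) = ((1 / 4) ^ c + (1 / 4) ^ d) + n := by
    have hpi : (Real.pi : ℂ) ≠ 0 := by exact_mod_cast Real.pi_ne_zero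
    have h2 : ((2 * Real.pi * (((1 : ℝ) / 4) ^ a + (1 / 4) ^ b) : ℝ) : ℂ) * I =
        ((2 * Real.pi * (((1 / 4) ^ c + (1 / 4) ^ d) + n) : ℝ) : ℂ) * I := by
      unfold th at hn
      push_cast at hn ⊢
      linear_combination hn
    have h3 := mul_right_cancel₀ Complex.I_ne_zero h2
    have h4 : 2 * Real.pi * (((1 : ℝ) / 4) ^ a + (1 / 4) ^ b) =
      2 * Real.pi * (((1 / 4) ^ c + (1 / 4) ^ d) + n) := by exact_mod_cast h3
    exact mul_left_cancel₀ (by have := Real.pi_pos; positivity) h4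
  have hn0 : n = 0 := by
    have b1 := quarter_pow_le ha
    have b2 := quarter_pow_le hb
    have b3 := quarter_pow_le hc
    have b4 := quarter_pow_le hd
    have p1 := quarter_pow_pos a
    have p2 := quarter_pow_pos b
    have p3 := quarter_pow_pos c
    have p4 := quarter_pow_pos d
    have h5 : (n : ℝ) < 1 := by linarith
    have h6 : (-1 : ℝ) < n := by linarith
    have h7 : n < 1 := by exact_mod_cast h5
    have h8 : -1 < n := by exact_mod_cast h6
    omega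
  rw [hn0] at h1
  simpa using h1

/-- the phases -/
noncomputable def ww (j : ℕ) : ℂ := (starRingEnd ℂ) (zet (j + 16))

lemma ww_norm (j : ℕ) : ‖ww j‖ = 1 := by
  unfold ww; rw [RCLike.norm_conj, zet_norm]

lemma ww_sidon {a b c d : ℕ} (h : ww a * ww b = ww c * ww d) :
    (a = c ∧ b = d) ∨ (a = d ∧ b = c) := by
  unfold ww at h
  rw [← map_mul, ← map_mul] at h
  have h1 := (starRingEnd ℂ).injective h
  have := zet_sidon (by omega) (by omega) (by omega) (by omega) h1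
  omega

lemma ww_inj {a b : ℕ} (h : ww a = ww b) : a = b := by
  have := ww_sidon (a := a) (b := a) (c := b) (d := b) (by rw [h])
  omega

lemma zet_pow {l H : ℕ} (h : l ≤ H) : zet l ^ (4 ^ H) = 1 := by
  unfold zet
  rw [← Complex.exp_nat_mul, Complex.exp_eq_one_iff]
  refine ⟨((4 ^ (H - l) : ℕ) : ℤ), ?_⟩
  have h1 : (4 : ℝ) ^ H * (1 / 4) ^ l = 4 ^ (H - l) := by
    rw [← Nat.sub_add_cancel h, pow_add, Nat.add_sub_cancel, mul_assoc, ← mul_pow]
    norm_num
  have h2 : (4 : ℂ) ^ H * (1 / 4) ^ l = 4 ^ (H - l) := by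
    have := congrArg (fun x : ℝ => (x : ℂ)) h1
    push_cast at this
    exact this
  unfold th
  push_cast
  linear_combination (2 * Real.pi * I) * h2

lemma ww_pow {j H : ℕ} (h : j + 16 ≤ H) : ww j ^ (4 ^ H) = 1 := by
  unfold ww
  rw [← map_pow, zet_pow h, map_one]

/-- the block with index `m` -/
def blk (m : ℕ) : Finset ℕ := Finset.Ico (2 ^ m - 16) (2 ^ (m + 1) - 16)

def HH (m : ℕ) : ℕ := 4 * 2 ^ m

lemma blk_card {m : ℕ} (hm : 5 ≤ m) : (blk m).card = 2 ^ m := by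
  unfold blk
  rw [Nat.card_Ico]
  have : 2 ^ 5 ≤ 2 ^ m := Nat.pow_le_pow_right (by norm_num) hm
  rw [pow_succ]
  omega

lemma mem_blk {m j : ℕ} (hm : 5 ≤ m) : j ∈ blk m ↔ Nat.log 2 (j + 16) = m := by
  unfold blk
  have h5 : 2 ^ 5 ≤ 2 ^ m := Nat.pow_le_pow_right (by norm_num) hm
  rw [Finset.mem_Ico, Nat.log_eq_iff (by left; omega)]
  constructor
  · rintro ⟨h1, h2⟩
    constructor
    · omega
    · omega
  · rintro ⟨h1, h2⟩
    constructor
    · omega
    · omega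

lemma hh_blk {m j : ℕ} (hm : 5 ≤ m) (hj : j ∈ blk m) : hh (j + 16) = HH m := by
  unfold hh HH
  rw [(mem_blk hm).mp hj]

lemma lt_blk {m j : ℕ} (hm : 5 ≤ m) (hj : j ∈ blk m) : j + 16 ≤ HH m := by
  unfold blk at hj
  rw [Finset.mem_Ico] at hj
  have h5 : 2 ^ 5 ≤ 2 ^ m := Nat.pow_le_pow_right (by norm_num) hm
  unfold HH
  rw [pow_succ] at hj
  omega

lemma bern1 {K : ℕ} {x : ℝ} (hx0 : 0 < x) (hx1 : x ≤ 1) (hK : 0 < K) :
    (1 - x) ^ K ≤ 1 / (K * x) := by
  have hKx : 0 < (K : ℝ) * x := by positivity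
  rw [le_div_iff₀ hKx]
  have h1 : 1 + (K : ℝ) * x ≤ (1 + x) ^ K := one_add_mul_le_pow (by linarith) K
  have h2 : (1 - x) ^ K * (1 + x) ^ K ≤ 1 := by
    rw [← mul_pow]
    apply pow_le_one₀
    · nlinarith
    · nlinarith [sq_nonneg x]
  have h3 : 0 ≤ (1 - x) ^ K := pow_nonneg (by linarith) K
  nlinarith

/-- terms outside of the block are negligible -/
lemma off_blk {m j k : ℕ} (hm : 5 ≤ m) (hj : j ∉ blk m) (hk : 4 ^ HH m ≤ k) :
    (2 : ℝ) ^ HH m * (Real.sqrt (delt (j + 16)) * (1 - delt (j + 16)) ^ k) ≤ (1 / 2) ^ (j + 16) := by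
  have hd0 := delt_pos (j + 16)
  have hd1 := delt_le (l := j + 16) (by omega)
  have hne : Nat.log 2 (j + 16) ≠ m := fun h => hj ((mem_blk hm).mpr h)
  have hlog1 : 2 ^ Nat.log 2 (j + 16) ≤ j + 16 := Nat.pow_log_le_self 2 (by omega)
  have hlog2 : j + 16 < 2 ^ (Nat.log 2 (j + 16) + 1) := Nat.lt_pow_succ_log_self (by norm_num) _
  rw [pow_succ] at hlog2
  rw [sqrt_delt]
  rcases lt_or_gt_of_ne hne with h | h
  · -- earlier block
    have h1 : 2 ^ (Nat.log 2 (j + 16) + 1) ≤ 2 ^ m := Nat.pow_le_pow_right (by norm_num) h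
    rw [pow_succ] at h1
    have h2 : (1 - delt (j + 16)) ^ k ≤ (1 - delt (j + 16)) ^ (4 ^ HH m) :=
      pow_le_pow_of_le_one (by linarith) (by linarith) hk
    have h3 := bern1 (K := 4 ^ HH m) hd0 (by linarith) (by positivity)
    have h4 : (1 : ℝ) / (((4 ^ HH m : ℕ) : ℝ) * delt (j + 16)) = 4 ^ hh (j + 16) * (1 / 4) ^ HH m := by
      unfold delt
      push_cast
      rw [one_div_pow, one_div_pow]
      field_simp
    rw [h4] at h3
    have h5 := h2.trans h3
    have h6 : hh (j + 16) + (j + 16) ≤ HH m := by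
      unfold hh HH; omega
    calc (2 : ℝ) ^ HH m * ((1 / 2) ^ hh (j + 16) * (1 - delt (j + 16)) ^ k)
        ≤ (2 : ℝ) ^ HH m * ((1 / 2) ^ hh (j + 16) * (4 ^ hh (j + 16) * (1 / 4) ^ HH m)) := by gcongr
      _ = (2 : ℝ) ^ hh (j + 16) * (1 / 2) ^ HH m := by
        have e1 : (4 : ℝ) ^ hh (j + 16) = 2 ^ hh (j + 16) * 2 ^ hh (j + 16) := by
          rw [← mul_pow]; norm_num
        have e2 : ((1 : ℝ) / 4) ^ HH m = (1 / 2) ^ HH m * (1 / 2) ^ HH m := by
          rw [← mul_pow]; norm_num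
        have e3 : (2 : ℝ) ^ HH m * (1 / 2) ^ HH m = 1 := by rw [← mul_pow]; norm_num
        have e4 : (2 : ℝ) ^ hh (j + 16) * (1 / 2) ^ hh (j + 16) = 1 := by rw [← mul_pow]; norm_num
        rw [e1, e2]
        linear_combination ((2 : ℝ) ^ hh (j + 16) * (1 / 2) ^ HH m * (2 : ℝ) ^ hh (j + 16) *
          (1 / 2) ^ hh (j + 16)) * e3 + ((2 : ℝ) ^ hh (j + 16) * (1 / 2) ^ HH m) * e4
      _ ≤ (2 : ℝ) ^ hh (j + 16) * (1 / 2) ^ (hh (j + 16) + (j + 16)) := by
        apply mul_le_mul_of_nonneg_left _ (by positivity)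
        exact pow_le_pow_of_le_one (by norm_num) (by norm_num) h6
      _ = (1 / 2) ^ (j + 16) := by
        rw [pow_add, ← mul_assoc, ← mul_pow]; norm_num
  · -- later block
    have h1 : 2 ^ (m + 1) ≤ 2 ^ Nat.log 2 (j + 16) := Nat.pow_le_pow_right (by norm_num) h
    rw [pow_succ] at h1
    have h2 : (1 - delt (j + 16)) ^ k ≤ 1 := pow_le_one₀ (by linarith) (by linarith)
    have h6 : HH m + (j + 16) ≤ hh (j + 16) := by
      unfold hh HH; omega
    calc (2 : ℝ) ^ HH m * ((1 / 2) ^ hh (j + 16) * (1 - delt (j + 16)) ^ k)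
        ≤ (2 : ℝ) ^ HH m * ((1 / 2) ^ hh (j + 16) * 1) := by gcongr
      _ ≤ (2 : ℝ) ^ HH m * ((1 / 2) ^ (HH m + (j + 16)) * 1) := by
        apply mul_le_mul_of_nonneg_left _ (by positivity)
        apply mul_le_mul_of_nonneg_right _ zero_le_one
        exact pow_le_pow_of_le_one (by norm_num) (by norm_num) h6
      _ = (1 / 2) ^ (j + 16) := by
        rw [pow_add, mul_one, ← mul_assoc, ← mul_pow]; norm_num

/-- the exponential sum -/
noncomputable def SS (m k : ℕ) : ℂ := ∑ j ∈ blk m, ww j ^ k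

lemma al_pow (j k : ℕ) : DD.al j ^ k = ((1 - delt (j + 16)) ^ k : ℝ) * ww j ^ k := by
  unfold Data.al ww
  rw [mul_pow]
  push_cast
  rfl

lemma de_eq (j : ℕ) : DD.de j = delt (j + 16) := rfl

lemma bern2 {K : ℕ} {x : ℝ} (hx0 : 0 < x) (hx : (K : ℝ) * x ≤ 1 / 2) (hx1 : x ≤ 1) :
    1 / 2 ≤ (1 - x) ^ K := by
  have h := one_add_mul_le_pow (a := -x) (by linarith) K
  have : (1 + -x) = 1 - x := by ring
  rw [this] at h
  linarith

lemma pow_sixteenth {H k : ℕ} (hH : 1 ≤ H) (hk : k ≤ 2 * 4 ^ H) :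
    (1 : ℝ) / 16 ≤ (1 - (1 / 4) ^ H) ^ k := by
  have hx0 : 0 < ((1 : ℝ) / 4) ^ H := by positivity
  have hx1 : ((1 : ℝ) / 4) ^ H ≤ 1 := pow_le_one₀ (by norm_num) (by norm_num)
  obtain ⟨H', rfl⟩ : ∃ H', H = H' + 1 := ⟨H - 1, by omega⟩
  have h1 : (1 : ℝ) / 2 ≤ (1 - (1 / 4) ^ (H' + 1)) ^ (2 * 4 ^ H') := by
    apply bern2 hx0 _ hx1
    push_cast
    have : (4 : ℝ) ^ H' * (1 / 4) ^ H' = 1 := by rw [← mul_pow]; norm_num
    rw [pow_succ ((1 : ℝ) / 4)]
    have e : 2 * (4 : ℝ) ^ H' * ((1 / 4) ^ H' * (1 / 4)) = ((4 : ℝ) ^ H' * (1 / 4) ^ H') * (1 / 2) := by ring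
    rw [e, this]; norm_num
  have h2 : (1 - ((1 : ℝ) / 4) ^ (H' + 1)) ^ (2 * 4 ^ (H' + 1)) ≤ (1 - (1 / 4) ^ (H' + 1)) ^ k :=
    pow_le_pow_of_le_one (by linarith) (by linarith) hk
  refine le_trans ?_ h2
  have h3 : 2 * 4 ^ (H' + 1) = (2 * 4 ^ H') * 4 := by rw [pow_succ]; ring
  rw [h3, pow_mul]
  calc (1 : ℝ) / 16 = (1 / 2) ^ 4 := by norm_num
    _ ≤ _ := by gcongr

lemma sqrt_four_pow (H : ℕ) : Real.sqrt (((4 ^ H : ℕ)) : ℝ) = 2 ^ H := by
  push_cast
  rw [show (4 : ℝ) = 2 ^ 2 by norm_num, ← pow_mul, mul_comm, pow_mul, Real.sqrt_sq (by positivity)]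

lemma co_lower {m k : ℕ} (hm : 5 ≤ m) (hk : k ∈ Finset.Ico (4 ^ HH m) (2 * 4 ^ HH m)) :
    ‖SS m k‖ / 32 - 1 ≤ k * ‖DD.co k‖ := by
  rw [Finset.mem_Ico] at hk
  obtain ⟨hk1, hk2⟩ := hk
  have hHH : 1 ≤ HH m := by unfold HH; have : 0 < 2 ^ m := by positivity
                            omega
  have hkpos : 1 ≤ k := le_trans (Nat.one_le_pow _ _ (by norm_num)) hk1
  set x : ℕ → ℂ := fun j => (Real.sqrt (DD.de j) : ℂ) * (DD.al j) ^ k with hx
  have hsum : Summable x := DD.inner_summable k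
  have hsplit : x = fun j => (if j ∈ blk m then x j else 0) + (if j ∈ blk m then 0 else x j) := by
    funext j; split_ifs <;> simp
  have hfin : HasSum (fun j => if j ∈ blk m then x j else 0) (∑ j ∈ blk m, x j) := by
    have : HasSum (fun j => if j ∈ blk m then x j else 0) (∑ j ∈ blk m, (if j ∈ blk m then x j else 0)) :=
      hasSum_sum_of_ne_finset_zero (fun b hb => by rw [if_neg hb])
    convert this using 1
    exact Finset.sum_congr rfl (fun j hj => by rw [if_pos hj])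
  have hxnorm : ∀ j, ‖x j‖ = Real.sqrt (delt (j + 16)) * (1 - delt (j + 16)) ^ k := by
    intro j
    rw [hx]
    simp only
    rw [norm_mul, norm_pow, DD.al_norm, Complex.norm_real, Real.norm_eq_abs,
      abs_of_nonneg (Real.sqrt_nonneg _), de_eq]
  have hoffb : ∀ j, ‖(if j ∈ blk m then (0 : ℂ) else x j)‖ ≤ (1 / 2) ^ HH m * (1 / 2) ^ (j + 16) := by
    intro j
    split_ifs with hj
    · simp
    · rw [hxnorm]
      have h := off_blk hm hj hk1
      have h2 : (0 : ℝ) < 2 ^ HH m := by positivity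
      have h3 : (1 / 2 : ℝ) ^ HH m * 2 ^ HH m = 1 := by rw [← mul_pow]; norm_num
      calc Real.sqrt (delt (j + 16)) * (1 - delt (j + 16)) ^ k
          = (1 / 2 : ℝ) ^ HH m * (2 ^ HH m * (Real.sqrt (delt (j + 16)) * (1 - delt (j + 16)) ^ k)) := by
            rw [← mul_assoc, h3, one_mul]
        _ ≤ _ := by gcongr
  have hoffs : Summable (fun j : ℕ => ((1 : ℝ) / 2) ^ HH m * (1 / 2) ^ (j + 16)) := half_summable.mul_left _
  have hoff : Summable (fun j => if j ∈ blk m then (0 : ℂ) else x j) :=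
    Summable.of_norm_bounded hoffs hoffb
  have hoffn : ‖∑' j, (if j ∈ blk m then (0 : ℂ) else x j)‖ ≤ (1 / 2) ^ HH m * (2 * (1 / 2) ^ 16) := by
    have h1 := tsum_of_norm_bounded hoffs.hasSum hoffb
    rw [tsum_mul_left, half_sum] at h1
    exact h1
  have htot : ∑' j, x j = ∑ j ∈ blk m, x j + ∑' j, (if j ∈ blk m then (0 : ℂ) else x j) := by
    conv_lhs => rw [hsplit]
    rw [Summable.tsum_add hfin.summable hoff, hfin.tsum_eq]
  have hblk : ∑ j ∈ blk m, x j = (((1 / 2) ^ HH m * (1 - (1 / 4) ^ HH m) ^ k : ℝ) : ℂ) * SS m k := by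
    unfold SS
    rw [Finset.mul_sum]
    refine Finset.sum_congr rfl fun j hj => ?_
    rw [hx]
    simp only
    rw [al_pow, de_eq, sqrt_delt]
    unfold delt
    rw [hh_blk hm hj]
    push_cast
    ring
  have hblkn : (1 / 2 : ℝ) ^ HH m * (1 / 16) * ‖SS m k‖ ≤ ‖∑ j ∈ blk m, x j‖ := by
    rw [hblk, norm_mul, Complex.norm_real, Real.norm_eq_abs]
    have h1 := pow_sixteenth hHH hk2.le
    have h2 : (0 : ℝ) < (1 / 2) ^ HH m := by positivity
    rw [abs_of_nonneg (by positivity)]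
    gcongr
  have hlow : (1 / 2 : ℝ) ^ HH m * (1 / 16) * ‖SS m k‖ - (1 / 2) ^ HH m * (2 * (1 / 2) ^ 16) ≤
      ‖∑' j, x j‖ := by
    rw [htot]
    have := norm_sub_norm_le (∑ j ∈ blk m, x j) (-∑' j, (if j ∈ blk m then (0 : ℂ) else x j))
    rw [norm_neg, sub_neg_eq_add] at this
    linarith
  -- multiply by k B k
  have hco : k * ‖DD.co k‖ = (k * B k) * ‖∑' j, x j‖ := by
    unfold Data.co
    rw [norm_mul, Complex.norm_real, Real.norm_eq_abs, abs_of_pos (B_pos k)]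
    ring
  rw [hco]
  have hkB1 := kB_lower k hkpos
  have hkB2 := kB_upper k
  have hsq1 : (2 : ℝ) ^ HH m ≤ Real.sqrt k := by
    rw [← sqrt_four_pow]
    apply Real.sqrt_le_sqrt
    exact_mod_cast hk1
  have hsq2 : Real.sqrt k ≤ 2 * 2 ^ HH m := by
    have h1 : (k : ℝ) ≤ 4 * (4 : ℝ) ^ HH m := by
      have : k ≤ 2 * 4 ^ HH m := hk2.le
      have h2 : (k : ℝ) ≤ 2 * (4 : ℝ) ^ HH m := by exact_mod_cast this
      have h3 : (0 : ℝ) < 4 ^ HH m := by positivity
      linarith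
    refine (Real.sqrt_le_sqrt h1).trans ?_
    have h2 : (4 : ℝ) * 4 ^ HH m = (2 * 2 ^ HH m) ^ 2 := by
      rw [mul_pow, ← pow_mul, mul_comm (HH m) 2, pow_mul]; norm_num
    rw [h2, Real.sqrt_sq (by positivity)]
  have hprod : (1 / 2 : ℝ) ^ HH m * 2 ^ HH m = 1 := by rw [← mul_pow]; norm_num
  set p : ℝ := (1 / 2 : ℝ) ^ HH m with hp
  set q : ℝ := (2 : ℝ) ^ HH m with hq
  have hp0 : 0 < p := by positivity
  have hq0 : 0 < q := by positivity
  have hkBpos : 0 ≤ k * B k := by have := B_pos k; positivity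
  have hSS := norm_nonneg (SS m k)
  calc ‖SS m k‖ / 32 - 1 ≤ (q / 2) * (p * (1 / 16) * ‖SS m k‖) - (2 * q) * (p * (2 * (1 / 2) ^ 16)) := by
        have e1 : (q / 2) * (p * (1 / 16) * ‖SS m k‖) = (p * q) * (‖SS m k‖ / 32) := by ring
        have e2 : (2 * q) * (p * (2 * (1 / 2) ^ 16)) = (p * q) * (1 / 2 ^ 14) := by ring
        rw [e1, e2, hprod]
        have e3 : (1 : ℝ) / 2 ^ 14 ≤ 1 := by norm_num
        linarith
    _ ≤ (k * B k) * (p * (1 / 16) * ‖SS m k‖) - (k * B k) * (p * (2 * (1 / 2) ^ 16)) := by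
        have e1 : q / 2 ≤ k * B k := by linarith
        have e2 : k * B k ≤ 2 * q := by linarith
        have e3 : (q / 2) * (p * (1 / 16) * ‖SS m k‖) ≤ (k * B k) * (p * (1 / 16) * ‖SS m k‖) := by
          gcongr
        have e4 : (k * B k) * (p * (2 * (1 / 2) ^ 16)) ≤ (2 * q) * (p * (2 * (1 / 2) ^ 16)) := by
          gcongr
        linarith
    _ = (k * B k) * (p * (1 / 16) * ‖SS m k‖ - p * (2 * (1 / 2) ^ 16)) := by ring
    _ ≤ (k * B k) * ‖∑' j, x j‖ := by gcongr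



/-- the weighted sum of the logarithmic coefficients -/
noncomputable def AA (r : ℝ) : ℝ := ∑' k : ℕ, ((k : ℝ) + 1) * ‖DD.ga (k + 1)‖ * r ^ (k + 1)

lemma co_bound (k : ℕ) : ‖DD.co k‖ ≤ 1 := by
  unfold Data.co
  rw [norm_mul, Complex.norm_real, Real.norm_eq_abs, abs_of_pos (B_pos k)]
  have h1 : ‖∑' j, (Real.sqrt (DD.de j) : ℂ) * (DD.al j) ^ k‖ ≤ ∑' j : ℕ, ((1 : ℝ) / 2) ^ (j + 16) := by
    refine tsum_of_norm_bounded half_summable.hasSum (fun j => ?_)
    rw [norm_mul, norm_pow, Complex.norm_real, Real.norm_eq_abs, abs_of_nonneg (Real.sqrt_nonneg _),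
      de_eq, sqrt_delt]
    have h2 : ‖DD.al j‖ ^ k ≤ 1 := pow_le_one₀ (norm_nonneg _) (DD.al_norm_lt j).le
    have h3 : ((1 : ℝ) / 2) ^ hh (j + 16) ≤ (1 / 2) ^ (j + 16) :=
      pow_le_pow_of_le_one (by norm_num) (by norm_num)
        (by have := hh_gt (l := j + 16) (by omega); omega)
    have h4 : (0 : ℝ) < (1 / 2) ^ hh (j + 16) := by positivity
    nlinarith
  rw [half_sum] at h1
  have h2 : (2 : ℝ) * (1 / 2) ^ 16 ≤ 1 := by norm_num
  have h3 := B_le_one k
  have h4 := B_pos k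
  have h5 := norm_nonneg (∑' j, (Real.sqrt (DD.de j) : ℂ) * (DD.al j) ^ k)
  nlinarith

lemma ga_bound (k : ℕ) : ‖DD.ga (k + 1)‖ ≤ 1 := by
  unfold Data.ga
  rw [norm_mul]
  have h1 : ‖(1 / 2 : ℂ)‖ = 1 / 2 := by norm_num
  have h2 : ‖1 / (((k + 1 : ℕ)) : ℂ)‖ ≤ 1 := by
    rw [norm_div, norm_one, Complex.norm_natCast]
    rw [div_le_one (by positivity)]
    have : (1 : ℝ) ≤ ((k + 1 : ℕ) : ℝ) := by exact_mod_cast Nat.succ_le_succ (Nat.zero_le k)
    exact this
  have h3 : ‖I * (1 / 100) * DD.co (k + 1)‖ ≤ 1 := by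
    rw [norm_mul, norm_mul, Complex.norm_I]
    have h4 : ‖(1 / 100 : ℂ)‖ = 1 / 100 := by norm_num
    rw [h4]
    linarith [co_bound (k + 1)]
  rw [h1]
  have := norm_add_le (1 / (((k + 1 : ℕ)) : ℂ)) (I * (1 / 100) * DD.co (k + 1))
  linarith

lemma AA_summable {r : ℝ} (h0 : 0 ≤ r) (h1 : r < 1) :
    Summable fun k : ℕ => ((k : ℝ) + 1) * ‖DD.ga (k + 1)‖ * r ^ (k + 1) := by
  have hg : Summable fun k : ℕ => (k : ℝ) ^ 1 * r ^ k :=
    summable_pow_mul_geometric_of_norm_lt_one 1 (by rwa [Real.norm_eq_abs, abs_of_nonneg h0])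
  have hg2 := (summable_nat_add_iff 1).mpr hg
  refine Summable.of_nonneg_of_le (fun k => by positivity) (fun k => ?_) hg2
  push_cast
  rw [pow_one]
  have := ga_bound k
  calc ((k : ℝ) + 1) * ‖DD.ga (k + 1)‖ * r ^ (k + 1) ≤ ((k : ℝ) + 1) * 1 * r ^ (k + 1) := by gcongr
    _ = ((k : ℝ) + 1) * r ^ (k + 1) := by ring

lemma ga_lower {m k : ℕ} (hm : 5 ≤ m) (hk : k ∈ Finset.Ico (4 ^ HH m) (2 * 4 ^ HH m)) :
    ‖SS m k‖ / 6400 - 1 ≤ k * ‖DD.ga k‖ := by
  have h := co_lower hm hk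
  rw [Finset.mem_Ico] at hk
  have hkpos : 1 ≤ k := le_trans (Nat.one_le_pow _ _ (by norm_num)) hk.1
  have hk0 : (0 : ℝ) < k := by exact_mod_cast hkpos
  have h1 : DD.ga k = (1 / 2) * (I * (1 / 100) * DD.co k - (-(1 / (k : ℂ)))) := by
    unfold Data.ga; ring
  have h2 : ‖I * (1 / 100) * DD.co k‖ = 1 / 100 * ‖DD.co k‖ := by
    rw [norm_mul, norm_mul, Complex.norm_I]
    have h4 : ‖(1 / 100 : ℂ)‖ = 1 / 100 := by norm_num
    rw [h4]; ring
  have h3 : ‖-(1 / (k : ℂ))‖ = 1 / k := by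
    rw [norm_neg, norm_div, norm_one, Complex.norm_natCast]
  have h4 : ‖(1 / 2 : ℂ)‖ = 1 / 2 := by norm_num
  have h5 := norm_sub_norm_le (I * (1 / 100) * DD.co k) (-(1 / (k : ℂ)))
  rw [h2, h3] at h5
  have h6 : k * ‖DD.ga k‖ = (1 / 2) * (k * ‖I * (1 / 100) * DD.co k - (-(1 / (k : ℂ)))‖) := by
    rw [h1, norm_mul, h4]; ring
  rw [h6]
  have h7 : (k : ℝ) * (1 / 100 * ‖DD.co k‖ - 1 / k) ≤ k * ‖I * (1 / 100) * DD.co k - (-(1 / (k : ℂ)))‖ := by
    gcongr
  have h8 : (k : ℝ) * (1 / 100 * ‖DD.co k‖ - 1 / k) = 1 / 100 * (k * ‖DD.co k‖) - 1 := by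
    field_simp
  rw [h8] at h7
  linarith [norm_nonneg (SS m k)]

/-- the radius -/
noncomputable def rr (m : ℕ) : ℝ := 1 - (1 / 4) ^ HH m

lemma HH_pos (m : ℕ) : 1 ≤ HH m := by
  unfold HH
  have : 0 < 2 ^ m := by positivity
  omega

lemma AA_lower {m : ℕ} (hm : 5 ≤ m) :
    (4 : ℝ) ^ HH m * (Real.sqrt (2 ^ m) * (19 / 27) / 102400 - 1) ≤ AA (rr m) := by
  have hx0 : 0 < ((1 : ℝ) / 4) ^ HH m := by positivity
  have hx1 : ((1 : ℝ) / 4) ^ HH m ≤ 1 := pow_le_one₀ (by norm_num) (by norm_num)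
  have hr0 : 0 ≤ rr m := by unfold rr; linarith
  have hr1 : rr m < 1 := by unfold rr; linarith
  set K : ℕ := 4 ^ HH m with hK
  have hKpos : 1 ≤ K := Nat.one_le_pow _ _ (by norm_num)
  have hsum := AA_summable hr0 hr1
  have h1 : ∑ k ∈ Finset.Ico (K - 1) (2 * K - 1), ((k : ℝ) + 1) * ‖DD.ga (k + 1)‖ * rr m ^ (k + 1) ≤
      AA (rr m) := by
    unfold AA
    exact hsum.sum_le_tsum _ (fun k _ => by positivity)
  have h2 : ∑ k ∈ Finset.Ico (K - 1) (2 * K - 1), ((k : ℝ) + 1) * ‖DD.ga (k + 1)‖ * rr m ^ (k + 1) =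
      ∑ k ∈ Finset.Ico K (2 * K), (k : ℝ) * ‖DD.ga k‖ * rr m ^ k := by
    have h3 := Finset.sum_Ico_add' (fun k : ℕ => (k : ℝ) * ‖DD.ga k‖ * rr m ^ k) (K - 1) (2 * K - 1) 1
    rw [Nat.sub_add_cancel hKpos, Nat.sub_add_cancel (by omega)] at h3
    rw [← h3]
    refine Finset.sum_congr rfl fun k _ => ?_
    push_cast
    ring
  rw [h2] at h1
  refine le_trans ?_ h1
  have h4 : ∀ k ∈ Finset.Ico K (2 * K), ‖SS m k‖ / 102400 - 1 ≤ (k : ℝ) * ‖DD.ga k‖ * rr m ^ k := by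
    intro k hk
    have e1 := ga_lower hm hk
    have hk' := hk
    rw [Finset.mem_Ico] at hk'
    have e2 : (1 : ℝ) / 16 ≤ rr m ^ k := pow_sixteenth (HH_pos m) hk'.2.le
    have e3 : rr m ^ k ≤ 1 := pow_le_one₀ hr0 hr1.le
    have e4 := norm_nonneg (SS m k)
    have e5 : 0 ≤ (k : ℝ) * ‖DD.ga k‖ := by positivity
    by_cases e6 : ‖SS m k‖ / 6400 - 1 ≤ 0
    · have : 0 ≤ (k : ℝ) * ‖DD.ga k‖ * rr m ^ k := by positivity
      linarith
    · push Not at e6
      calc ‖SS m k‖ / 102400 - 1 ≤ (‖SS m k‖ / 6400 - 1) * (1 / 16) := by linarith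
        _ ≤ (k : ℝ) * ‖DD.ga k‖ * rr m ^ k := by
          apply mul_le_mul e1 e2 (by norm_num) e5
  refine le_trans ?_ (Finset.sum_le_sum h4)
  rw [Finset.sum_sub_distrib, ← Finset.sum_div, Finset.sum_const, Nat.card_Ico, nsmul_eq_mul]
  have h5 : (K : ℝ) * Real.sqrt (blk m).card * (19 / 27) ≤ ∑ k ∈ Finset.Ico K (2 * K), ‖SS m k‖ := by
    unfold SS
    apply L1_lower (blk m) ww K (fun p _ => ww_norm p) (fun p hp => ww_pow (lt_blk hm hp))
      (fun a _ b _ h => ww_inj h) (fun a _ b _ c _ d _ h => ww_sidon h)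
    rw [blk_card hm]; positivity
  rw [blk_card hm] at h5
  push_cast at h5
  have h6 : ((2 * K - K : ℕ) : ℝ) = K := by congr 1; omega
  rw [h6]
  have h7 : ((K : ℕ) : ℝ) = 4 ^ HH m := by rw [hK]; push_cast; rfl
  rw [h7] at h5 ⊢
  linarith

lemma HH_tendsto : Tendsto (fun m : ℕ => HH m) atTop atTop := by
  unfold HH
  apply Filter.tendsto_atTop_mono (f := fun m : ℕ => m)
  · intro m
    have := (Nat.lt_two_pow_self (n := m)).le
    omega
  · exact tendsto_id

lemma rr_tendsto : Tendsto rr atTop (nhdsWithin (1 : ℝ) (Set.Iio 1)) := by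
  rw [tendsto_nhdsWithin_iff]
  constructor
  · have h1 : Tendsto (fun n : ℕ => ((1 : ℝ) / 4) ^ n) atTop (nhds 0) :=
      tendsto_pow_atTop_nhds_zero_of_lt_one (by norm_num) (by norm_num)
    have h2 := (h1.comp HH_tendsto).const_sub 1
    rw [sub_zero] at h2
    exact h2
  · refine Eventually.of_forall fun m => ?_
    have hx0 : 0 < ((1 : ℝ) / 4) ^ HH m := by positivity
    simp only [rr, Set.mem_Iio]
    linarith

lemma not_bigO : ¬ Asymptotics.IsBigO (nhdsWithin (1 : ℝ) (Set.Iio 1)) AA (fun r : ℝ => 1 / (1 - r)) := by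
  intro h
  rw [Asymptotics.isBigO_iff] at h
  obtain ⟨C, hC⟩ := h
  have h1 := rr_tendsto.eventually hC
  have h2 : Tendsto (fun m : ℕ => Real.sqrt ((2 : ℝ) ^ m)) atTop atTop :=
    Real.tendsto_sqrt_atTop.comp (tendsto_pow_atTop_atTop_of_one_lt (by norm_num))
  have h3 := h2.eventually_gt_atTop ((C + 1) * (102400 * 27 / 19))
  obtain ⟨m, hm1, hm2, hm3⟩ := (h1.and (h3.and (eventually_ge_atTop 5))).exists
  have h4 := AA_lower hm3
  have hK : (0 : ℝ) < 4 ^ HH m := by positivity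
  have h5 : 1 / (1 - rr m) = 4 ^ HH m := by
    unfold rr
    rw [sub_sub_cancel, one_div_pow, one_div_one_div]
  rw [h5, Real.norm_eq_abs, Real.norm_eq_abs, abs_of_pos hK] at hm1
  have h6 := (le_abs_self _).trans hm1
  have h7 := h4.trans h6
  rw [mul_comm C] at h7
  have h8 := le_of_mul_le_mul_left h7 hK
  linarith


end Construction


/-- The negation of the preceding statement: For every univalent f on the unit disk with f(0)=0, f'(0)=1 and log(f(z)/z)=2Σγ_k z^k, the sum Σ k∣γ_k∣ r^k is O(1/(1−r)) as r→1 from below. -/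
theorem result :
    ¬ (∀ (f : ℂ → ℂ) (γ : ℕ → ℂ),
      AnalyticOnNhd ℂ f (Metric.ball (0 : ℂ) 1) →
      Set.InjOn f (Metric.ball (0 : ℂ) 1) →
      f 0 = 0 →
      deriv f 0 = 1 →
      (∀ z : ℂ, ‖z‖ < 1 → z ≠ 0 →
        ∃ s : ℂ, HasSum (fun k : ℕ => γ (k + 1) * z ^ (k + 1)) s ∧
          f z = z * Complex.exp (2 * s)) →
      Asymptotics.IsBigO (nhdsWithin (1 : ℝ) (Set.Iio 1))
        (fun r : ℝ => ∑' k : ℕ, ((k : ℝ) + 1) * ‖γ (k + 1)‖ * r ^ (k + 1))
        (fun r : ℝ => 1 / (1 - r))) := by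
  intro h
  apply not_bigO
  exact h DD.f DD.ga DD.f_analytic DD.f_inj DD.f_zero DD.f_deriv
    (fun z hz _ => ⟨_, DD.log_hasSum hz, DD.f_log hz⟩)

end Pool.Agent.S03132
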