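import Pool.Statements.S03134

set_option autoImplicit false
open Pool Pool.MP_51da40_an

namespace Pool.Agent.S03134

open Set

/-- `z - w` has a continuous square root on `C`. -/
def HasSqrt (C : Set ℂ) (w : ℂ) : Prop :=
  ∃ g : ℂ → ℂ, ContinuousOn g C ∧ ∀ z ∈ C, g z ^ 2 = z - w

lemma contSqrt {C : Set ℂ} {u : ℂ → ℂ} (hu : ContinuousOn u C) (h1 : ∀ z ∈ C, ‖u z‖ < 1) :
    ContinuousOn (fun z => (1 + u z) ^ ((2 : ℕ) : ℂ)⁻¹) C := by
  apply ContinuousOn.cpow
  · exact continuousOn_const.add hu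
  · exact continuousOn_const
  · intro z hz
    exact Complex.mem_slitPlane_of_norm_lt_one (h1 z hz)

lemma hasSqrt_of_near {C : Set ℂ} {w₀ w : ℂ} (h : ∀ z ∈ C, ‖w - w₀‖ < ‖z - w₀‖)
    (hw : HasSqrt C w₀) : HasSqrt C w := by
  obtain ⟨g, hg, hg2⟩ := hw
  have hne : ∀ z ∈ C, z - w₀ ≠ 0 := by
    intro z hz h0
    have := h z hz
    rw [h0, norm_zero] at this
    exact absurd this (not_lt.mpr (norm_nonneg _))
  refine ⟨fun z => g z * (1 + (-(w - w₀) / (z - w₀))) ^ ((2 : ℕ) : ℂ)⁻¹, ?_, ?_⟩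
  · apply hg.mul
    apply contSqrt
    · apply ContinuousOn.div continuousOn_const (continuousOn_id.sub continuousOn_const)
      exact hne
    · intro z hz
      rw [norm_div, norm_neg, div_lt_one (norm_pos_iff.mpr (hne z hz))]
      exact h z hz
  · intro z hz
    have h0 := hne z hz
    rw [mul_pow, hg2 z hz, Complex.cpow_nat_inv_pow _ (by norm_num)]
    field_simp
    ring

lemma hasSqrt_far {C : Set ℂ} {w : ℂ} (h : ∀ z ∈ C, ‖z‖ < ‖w‖) : HasSqrt C w := by
  by_cases hw : w = 0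
  · subst hw
    refine ⟨fun _ => 0, continuousOn_const, ?_⟩
    intro z hz
    have := h z hz
    rw [norm_zero] at this
    exact absurd this (not_lt.mpr (norm_nonneg _))
  refine ⟨fun z => (-w) ^ ((2 : ℕ) : ℂ)⁻¹ * (1 + (-z / w)) ^ ((2 : ℕ) : ℂ)⁻¹, ?_, ?_⟩
  · apply continuousOn_const.mul
    apply contSqrt
    · exact (continuousOn_id.neg).div_const w
    · intro z hz
      rw [norm_div, norm_neg, div_lt_one (norm_pos_iff.mpr hw)]
      exact h z hz
  · intro z hz
    rw [mul_pow, Complex.cpow_nat_inv_pow _ (by norm_num),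
      Complex.cpow_nat_inv_pow _ (by norm_num)]
    field_simp
    ring

/-- A preconnected set in the complement of the compact set `C` that is unbounded consists of
points `w` for which `z - w` has a continuous square root on `C`. -/
lemma hasSqrt_of_unbounded {C W : Set ℂ} (hC : IsCompact C) (hW : IsPreconnected W)
    (hWC : W ⊆ Cᶜ) (hunb : ∀ R : ℝ, ∃ w ∈ W, R < ‖w‖) : ∀ w ∈ W, HasSqrt C w := by
  have hCc : IsClosed C := hC.isClosed
  set G : Set ℂ := {w | w ∈ Cᶜ ∧ HasSqrt C w} with hG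
  set H : Set ℂ := {w | w ∈ Cᶜ ∧ ¬ HasSqrt C w} with hH
  have key : ∀ w₀ ∈ Cᶜ, ∃ δ > 0, ∀ w, ‖w - w₀‖ < δ →
      (w ∈ Cᶜ ∧ (HasSqrt C w ↔ HasSqrt C w₀)) := by
    intro w₀ hw₀
    obtain ⟨ε, hε, hball⟩ := Metric.isOpen_iff.mp hCc.isOpen_compl w₀ hw₀
    refine ⟨ε / 2, by positivity, ?_⟩
    intro w hw
    have hfar : ∀ z ∈ C, ε ≤ ‖z - w₀‖ := by
      intro z hz
      by_contra hlt
      push Not at hlt
      exact hball (by rw [Metric.mem_ball, dist_eq_norm]; exact hlt) hz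
    refine ⟨hball (by rw [Metric.mem_ball, dist_eq_norm]; linarith), ?_, ?_⟩
    · intro hs
      refine hasSqrt_of_near (w₀ := w) ?_ hs
      intro z hz
      have h1 := hfar z hz
      have h2 : ‖z - w₀‖ ≤ ‖z - w‖ + ‖w - w₀‖ := by
        have : z - w₀ = (z - w) + (w - w₀) := by ring
        rw [this]; exact norm_add_le _ _
      rw [norm_sub_rev]
      linarith
    · intro hs
      refine hasSqrt_of_near (w₀ := w₀) ?_ hs
      intro z hz
      have h1 := hfar z hz
      linarith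
  have hGo : IsOpen G := by
    rw [Metric.isOpen_iff]
    rintro w₀ ⟨h1, h2⟩
    obtain ⟨δ, hδ, hk⟩ := key w₀ h1
    refine ⟨δ, hδ, ?_⟩
    intro w hw
    rw [Metric.mem_ball, dist_eq_norm] at hw
    exact ⟨(hk w hw).1, (hk w hw).2.mpr h2⟩
  have hHo : IsOpen H := by
    rw [Metric.isOpen_iff]
    rintro w₀ ⟨h1, h2⟩
    obtain ⟨δ, hδ, hk⟩ := key w₀ h1
    refine ⟨δ, hδ, ?_⟩
    intro w hw
    rw [Metric.mem_ball, dist_eq_norm] at hw
    exact ⟨(hk w hw).1, fun h => h2 ((hk w hw).2.mp h)⟩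
  have hdisj : Disjoint G H := by
    rw [Set.disjoint_left]
    rintro w ⟨_, h1⟩ ⟨_, h2⟩
    exact h2 h1
  have hsub : W ⊆ G ∪ H := by
    intro w hw
    by_cases h : HasSqrt C w
    · exact Or.inl ⟨hWC hw, h⟩
    · exact Or.inr ⟨hWC hw, h⟩
  have hne : (W ∩ G).Nonempty := by
    obtain ⟨R, hR⟩ := hC.isBounded.exists_norm_le
    obtain ⟨w, hw, hwR⟩ := hunb R
    refine ⟨w, hw, hWC hw, hasSqrt_far ?_⟩
    intro z hz
    exact lt_of_le_of_lt (hR z hz) hwR
  intro w hw
  exact (hW.subset_left_of_subset_union hGo hHo hdisj hsub hne hw).2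

/-- The sublevel set. -/
def E (f : Polynomial ℂ) : Set ℂ := {w : ℂ | ‖f.eval w‖ ≤ 1}

lemma isClosed_E (f : Polynomial ℂ) : IsClosed (E f) :=
  isClosed_le (f.continuous.norm) continuous_const

lemma isBounded_E (f : Polynomial ℂ) (hf : 0 < f.natDegree) : Bornology.IsBounded (E f) := by
  have h := Polynomial.tendsto_norm_atTop f (Polynomial.natDegree_pos_iff_degree_pos.mp hf)
    (tendsto_norm_cocompact_atTop (E := ℂ))
  have h2 := (h.eventually_gt_atTop 1)
  rw [Metric.cobounded_eq_cocompact.symm] at h2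
  have h3 : (E f)ᶜ ∈ Bornology.cobounded ℂ := by
    filter_upwards [h2] with z hz
    simp only [E, mem_compl_iff, mem_ofPred_eq, not_le]
    exact hz
  rw [← Bornology.isBounded_def] at h3
  exact h3

/-- No bounded component of the complement of the sublevel set. -/
lemma unbounded_component (f : Polynomial ℂ) (b : ℂ) (hb : b ∈ (E f)ᶜ) :
    ∀ R : ℝ, ∃ w ∈ connectedComponentIn (E f)ᶜ b, R < ‖w‖ := by
  intro R
  by_contra hcon
  push Not at hcon
  set W := connectedComponentIn (E f)ᶜ b with hW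
  have hWb : Bornology.IsBounded W := by
    rw [isBounded_iff_forall_norm_le]
    exact ⟨R, hcon⟩
  have hopen : IsOpen ((E f)ᶜ) := (isClosed_E f).isOpen_compl
  have hWo : IsOpen W := hopen.connectedComponentIn
  have hfr : ∀ z ∈ frontier W, ‖f.eval z‖ ≤ 1 := by
    intro z hz
    by_contra hz1
    have hzE : z ∈ (E f)ᶜ := hz1
    have hzo : IsOpen (connectedComponentIn (E f)ᶜ z) := hopen.connectedComponentIn
    have hzmem : z ∈ connectedComponentIn (E f)ᶜ z := mem_connectedComponentIn hzE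
    have hzcl : z ∈ closure W := frontier_subset_closure hz
    obtain ⟨y, hy1, hy2⟩ := mem_closure_iff.mp hzcl _ hzo hzmem
    have e1 := connectedComponentIn_eq hy1
    have e2 := connectedComponentIn_eq hy2
    have : z ∈ W := by
      rw [hW, e2, ← e1]; exact hzmem
    rw [hWo.frontier_eq] at hz
    exact hz.2 this
  have hbW : b ∈ closure W := subset_closure (mem_connectedComponentIn hb)
  have := Complex.norm_le_of_forall_mem_frontier_norm_le (f := fun z => f.eval z) hWb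
    (f.differentiable.diffContOnCl) hfr hbW
  exact hb this

/-- Separation lemma. -/
lemma sep (f : Polynomial ℂ) (hf : 0 < f.natDegree)
    (hreal : ∀ z : ℂ, f.eval (starRingEnd ℂ z) = starRingEnd ℂ (f.eval z))
    (a b a' : ℝ) (hab : a < b) (hba' : b < a') (ha : (a : ℂ) ∈ E f) 
    (hb : (b : ℂ) ∉ E f) : (a' : ℂ) ∉ connectedComponentIn (E f) a := by
  intro ha'
  set C := connectedComponentIn (E f) (a : ℂ) with hC
  have hCE : C ⊆ E f := connectedComponentIn_subset _ _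
  have hCpre : IsPreconnected C := isPreconnected_connectedComponentIn
  have haC : (a : ℂ) ∈ C := mem_connectedComponentIn ha
  have hCclosed : IsClosed C := by
    apply isClosed_of_closure_subset
    apply hCpre.closure.subset_connectedComponentIn (subset_closure haC)
    exact closure_minimal hCE (isClosed_E f)
  have hCcomp : IsCompact C :=
    Metric.isCompact_of_isClosed_isBounded hCclosed ((isBounded_E f hf).subset hCE)
  have hconjC : ∀ z ∈ C, starRingEnd ℂ z ∈ C := by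
    have himg : IsPreconnected ((starRingEnd ℂ) '' C) :=
      hCpre.image _ Complex.continuous_conj.continuousOn
    have hsub : (starRingEnd ℂ) '' C ⊆ C := by
      apply himg.subset_connectedComponentIn
      · exact ⟨a, haC, Complex.conj_ofReal a⟩
      · rintro _ ⟨z, hz, rfl⟩
        have := hCE hz
        simp only [E, mem_ofPred_eq] at this ⊢
        rw [hreal, RCLike.norm_conj]
        exact this
    intro z hz
    exact hsub ⟨z, hz, rfl⟩
  have hWC : connectedComponentIn (E f)ᶜ (b : ℂ) ⊆ Cᶜ :=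
    (connectedComponentIn_subset _ _).trans (compl_subset_compl.mpr hCE)
  obtain ⟨g, hg, hg2⟩ := hasSqrt_of_unbounded hCcomp isPreconnected_connectedComponentIn hWC
    (unbounded_component f b hb) b (mem_connectedComponentIn hb)
  have hgne : ∀ {z : ℂ}, z ∈ C → g z ≠ 0 := by
    intro z hz h0
    have := hg2 z hz
    rw [h0] at this
    have hzb : z = b := by
      have h3 : z - b = 0 := by rw [← this]; norm_num
      exact sub_eq_zero.mp h3
    rw [hzb] at hz
    exact hb (hCE hz)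
  have hg' : ContinuousOn (fun z => starRingEnd ℂ (g (starRingEnd ℂ z))) C := by
    apply Complex.continuous_conj.comp_continuousOn
    exact hg.comp Complex.continuous_conj.continuousOn hconjC
  have hsq : EqOn ((fun z => starRingEnd ℂ (g (starRingEnd ℂ z))) ^ 2) (g ^ 2) C := by
    intro z hz
    simp only [Pi.pow_apply]
    rw [← map_pow, hg2 _ (hconjC z hz), hg2 z hz, map_sub, Complex.conj_conj,
      Complex.conj_ofReal]
  rcases hCpre.eq_or_eq_neg_of_sq_eq hg' hg hsq hgne with h | h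
  · have h1 := h haC
    simp only [Complex.conj_ofReal] at h1
    have h2 := hg2 a haC
    obtain ⟨r, hr⟩ := Complex.conj_eq_iff_real.mp h1
    rw [hr] at h2
    have h3 : r ^ 2 = a - b := by exact_mod_cast h2
    nlinarith [sq_nonneg r]
  · have h1 := h ha'
    simp only [Complex.conj_ofReal, Pi.neg_apply] at h1
    have h2 := hg2 a' ha'
    have hre : (g a').re = 0 := by
      have := congrArg Complex.re h1
      simp at this
      linarith
    have h3 := congrArg Complex.re h2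
    simp [pow_two, hre] at h3
    nlinarith [mul_self_nonneg (g a').im]

/-! ### The polynomials -/

open Polynomial in
/-- The lower order part `1 + 2^{-N} T_N`, `N = 12 M`. -/
noncomputable def lowPart (M : ℕ) : Polynomial ℂ :=
  1 + Polynomial.C ((((2 : ℝ) ^ (12 * M))⁻¹ : ℝ) : ℂ) *
    Polynomial.Chebyshev.T ℂ ((12 * M : ℕ) : ℤ)

/-- The polynomial `z^{96M} + 1 + 2^{-12M} T_{12M}(z)`. -/
noncomputable def F (M : ℕ) : Polynomial ℂ := Polynomial.X ^ (96 * M) + lowPart M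

lemma degree_lowPart (M : ℕ) (hM : 1 ≤ M) : (lowPart M).degree < ((96 * M : ℕ) : WithBot ℕ) := by
  unfold lowPart
  refine lt_of_le_of_lt (Polynomial.degree_add_le _ _) (max_lt ?_ ?_)
  · rw [Polynomial.degree_one]
    exact_mod_cast (by omega : 0 < 96 * M)
  · have h1 : (Polynomial.Chebyshev.T ℂ ((12 * M : ℕ) : ℤ)).degree = ((12 * M : ℕ) : WithBot ℕ) := by
      rw [Polynomial.Chebyshev.degree_T, Int.natAbs_natCast]
    have hne : ((((2 : ℝ) ^ (12 * M))⁻¹ : ℝ) : ℂ) ≠ 0 := by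
      rw [Ne, Complex.ofReal_eq_zero]
      positivity
    rw [Polynomial.degree_C_mul hne, h1]
    exact_mod_cast (by omega : 12 * M < 96 * M)

lemma monic_F (M : ℕ) (hM : 1 ≤ M) : (F M).Monic :=
  Polynomial.monic_X_pow_add (degree_lowPart M hM)

lemma natDegree_F (M : ℕ) (hM : 1 ≤ M) : (F M).natDegree = 96 * M := by
  unfold F
  rw [Polynomial.natDegree_add_eq_left_of_degree_lt, Polynomial.natDegree_X_pow]
  rw [Polynomial.degree_X_pow]
  exact degree_lowPart M hM

lemma eval_F (M : ℕ) (z : ℂ) : (F M).eval z =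
    z ^ (96 * M) + (1 + ((((2 : ℝ) ^ (12 * M))⁻¹ : ℝ) : ℂ) *
      (Polynomial.Chebyshev.T ℂ ((12 * M : ℕ) : ℤ)).eval z) := by
  simp only [F, lowPart, Polynomial.eval_add, Polynomial.eval_pow, Polynomial.eval_X,
    Polynomial.eval_one, Polynomial.eval_mul, Polynomial.eval_C]

lemma real_F (M : ℕ) (z : ℂ) :
    (F M).eval (starRingEnd ℂ z) = starRingEnd ℂ ((F M).eval z) := by
  have hT : (Polynomial.Chebyshev.T ℂ ((12 * M : ℕ) : ℤ)).eval (starRingEnd ℂ z) =
      starRingEnd ℂ ((Polynomial.Chebyshev.T ℂ ((12 * M : ℕ) : ℤ)).eval z) := by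
    rw [← Polynomial.eval₂_at_apply, ← Polynomial.eval_map, Polynomial.Chebyshev.map_T]
  rw [eval_F, eval_F, hT]
  simp only [map_add, map_mul, map_pow, map_one, Complex.conj_ofReal]

/-- The points of the hyperbola with parameter `θ`. -/
noncomputable def pt (θ s : ℝ) : ℂ := ⟨Real.cos θ * Real.cosh s, Real.sin θ * Real.sinh s⟩

lemma pt_eq_cos (θ s : ℝ) : pt θ s = Complex.cos ((θ : ℂ) - (s : ℂ) * Complex.I) := by
  rw [Complex.cos_sub, Complex.cos_mul_I, Complex.sin_mul_I]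
  apply Complex.ext
  · simp [pt, ← Complex.ofReal_cos, ← Complex.ofReal_sin, ← Complex.ofReal_cosh,
      ← Complex.ofReal_sinh]
  · simp [pt, ← Complex.ofReal_cos, ← Complex.ofReal_sin, ← Complex.ofReal_cosh,
      ← Complex.ofReal_sinh]

lemma normSq_pt (θ s : ℝ) : ‖pt θ s‖ ^ 2 = Real.cos θ ^ 2 + Real.sinh s ^ 2 := by
  rw [← Complex.normSq_eq_norm_sq, Complex.normSq_apply]
  simp only [pt]
  have h1 := Real.cosh_sq s
  have h2 := Real.sin_sq_add_cos_sq θ
  calc Real.cos θ * Real.cosh s * (Real.cos θ * Real.cosh s) +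
        Real.sin θ * Real.sinh s * (Real.sin θ * Real.sinh s)
      = Real.cos θ ^ 2 * Real.cosh s ^ 2 + Real.sin θ ^ 2 * Real.sinh s ^ 2 := by ring
    _ = Real.cos θ ^ 2 * (Real.sinh s ^ 2 + 1) + Real.sin θ ^ 2 * Real.sinh s ^ 2 := by rw [h1]
    _ = Real.cos θ ^ 2 + (Real.sin θ ^ 2 + Real.cos θ ^ 2) * Real.sinh s ^ 2 := by ring
    _ = _ := by rw [h2]; ring

lemma T_pt_odd (N : ℕ) (j : ℕ) (θ s : ℝ) (hθ : (N : ℝ) * θ = (2 * j + 1) * Real.pi) :
    (Polynomial.Chebyshev.T ℂ (N : ℤ)).eval (pt θ s) = ((-Real.cosh (N * s) : ℝ) : ℂ) := by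
  rw [pt_eq_cos, Polynomial.Chebyshev.T_complex_cos]
  have h1 : (((N : ℤ) : ℂ)) * ((θ : ℂ) - (s : ℂ) * Complex.I) =
      (((N : ℝ) * θ : ℝ) : ℂ) - ((((N : ℝ) * s : ℝ) : ℂ)) * Complex.I := by
    push_cast; ring
  rw [h1, Complex.cos_sub, Complex.cos_mul_I, Complex.sin_mul_I, ← Complex.ofReal_cos,
    ← Complex.ofReal_sin, ← Complex.ofReal_cosh, ← Complex.ofReal_sinh, hθ]
  have h2 : Real.cos ((2 * (j : ℝ) + 1) * Real.pi) = -1 := by
    have : (2 * (j : ℝ) + 1) * Real.pi = (j : ℝ) * (2 * Real.pi) + Real.pi := by ring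
    rw [this, Real.cos_nat_mul_two_pi_add_pi]
  have h3 : Real.sin ((2 * (j : ℝ) + 1) * Real.pi) = 0 := by
    have := Real.sin_nat_mul_pi (2 * j + 1)
    push_cast at this
    exact this
  rw [h2, h3]
  push_cast
  ring


lemma T_real_even (N : ℕ) (j : ℕ) (θ : ℝ) (hθ : (N : ℝ) * θ = (2 * j) * Real.pi) :
    (Polynomial.Chebyshev.T ℂ (N : ℤ)).eval ((Real.cos θ : ℝ) : ℂ) = 1 := by
  rw [← Polynomial.Chebyshev.complex_ofReal_eval_T, Polynomial.Chebyshev.T_real_cos]
  have h1 : Real.cos (((N : ℤ) : ℝ) * θ) = 1 := by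
    have : ((N : ℤ) : ℝ) * θ = (j : ℝ) * (2 * Real.pi) := by
      push_cast; rw [hθ]; ring
    rw [this, Real.cos_nat_mul_two_pi]
  rw [h1]
  simp

lemma pt_mem (M j : ℕ) (θ s : ℝ) (hθ : ((12 * M : ℕ) : ℝ) * θ = (2 * j + 1) * Real.pi)
    (hc : Real.cos θ ^ 2 ≤ 1 / 4) (hs : |s| ≤ Real.log 2) : pt θ s ∈ E (F M) := by
  have hL : (0 : ℝ) < Real.log 2 := Real.log_pos (by norm_num)
  have hsinh : Real.sinh s ^ 2 ≤ 9 / 16 := by
    have h1 : Real.sinh (Real.log 2) = 3 / 4 := by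
      rw [Real.sinh_log (by norm_num)]; norm_num
    have h2 : Real.sinh s ≤ 3 / 4 := by
      rw [← h1]; exact Real.sinh_le_sinh.mpr (le_trans (le_abs_self s) hs)
    have h3 : -(3 / 4) ≤ Real.sinh s := by
      rw [← h1, ← Real.sinh_neg]
      exact Real.sinh_le_sinh.mpr (by linarith [neg_abs_le s])
    nlinarith
  have hnorm : ‖pt θ s‖ ^ 2 ≤ 13 / 16 := by
    rw [normSq_pt]; linarith
  have hpow : ‖pt θ s‖ ^ (96 * M) ≤ ((2 : ℝ) ^ (12 * M))⁻¹ := by
    have e1 : ‖pt θ s‖ ^ (96 * M) = (‖pt θ s‖ ^ 2) ^ (4 * (12 * M)) := by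
      rw [← pow_mul]; congr 1; ring
    rw [e1, pow_mul, ← inv_pow]
    apply pow_le_pow_left₀ (by positivity)
    calc (‖pt θ s‖ ^ 2) ^ 4 ≤ (13 / 16) ^ 4 := pow_le_pow_left₀ (by positivity) hnorm 4
      _ ≤ 2⁻¹ := by norm_num
  set N := 12 * M with hN
  have hcosh1 : 1 ≤ Real.cosh ((N : ℝ) * s) := Real.one_le_cosh _
  have hcosh2 : Real.cosh ((N : ℝ) * s) ≤ (2 : ℝ) ^ N := by
    have h1 : |(N : ℝ) * s| ≤ |Real.log ((2 : ℝ) ^ N)| := by
      rw [Real.log_pow, abs_mul, abs_mul, abs_of_pos hL]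
      exact mul_le_mul_of_nonneg_left hs (abs_nonneg _)
    refine le_trans (Real.cosh_le_cosh.mpr h1) ?_
    rw [Real.cosh_log (by positivity)]
    have h2 : (1 : ℝ) ≤ (2 : ℝ) ^ N := one_le_pow₀ (by norm_num)
    have h3 : ((2 : ℝ) ^ N)⁻¹ ≤ 1 := inv_le_one_of_one_le₀ h2
    linarith
  have hpos : (0 : ℝ) < ((2 : ℝ) ^ N)⁻¹ := by positivity
  have hval : 1 + ((((2 : ℝ) ^ N)⁻¹ : ℝ) : ℂ) *
      (Polynomial.Chebyshev.T ℂ (N : ℤ)).eval (pt θ s) =
      ((1 - ((2 : ℝ) ^ N)⁻¹ * Real.cosh ((N : ℝ) * s) : ℝ) : ℂ) := by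
    rw [T_pt_odd N j θ s hθ]
    push_cast
    ring
  simp only [E, mem_ofPred_eq]
  rw [eval_F, hval]
  refine le_trans (norm_add_le _ _) ?_
  rw [norm_pow, Complex.norm_real, Real.norm_eq_abs]
  have h4 : 0 ≤ 1 - ((2 : ℝ) ^ N)⁻¹ * Real.cosh ((N : ℝ) * s) := by
    have : ((2 : ℝ) ^ N)⁻¹ * Real.cosh ((N : ℝ) * s) ≤ ((2 : ℝ) ^ N)⁻¹ * (2 : ℝ) ^ N :=
      mul_le_mul_of_nonneg_left hcosh2 hpos.le
    rw [inv_mul_cancel₀ (by positivity)] at this
    linarith
  rw [abs_of_nonneg h4]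
  have h5 : ((2 : ℝ) ^ N)⁻¹ ≤ ((2 : ℝ) ^ N)⁻¹ * Real.cosh ((N : ℝ) * s) :=
    le_mul_of_one_le_right hpos.le hcosh1
  linarith

lemma real_notMem (M j : ℕ) (θ : ℝ) (hθ : ((12 * M : ℕ) : ℝ) * θ = (2 * j) * Real.pi)
    (hc : 0 ≤ Real.cos θ) : ((Real.cos θ : ℝ) : ℂ) ∉ E (F M) := by
  simp only [E, mem_ofPred_eq, not_le]
  rw [eval_F, T_real_even (12 * M) j θ hθ]
  have : ((Real.cos θ : ℝ) : ℂ) ^ (96 * M) + (1 + ((((2 : ℝ) ^ (12 * M))⁻¹ : ℝ) : ℂ) * 1) =
      ((Real.cos θ ^ (96 * M) + 1 + ((2 : ℝ) ^ (12 * M))⁻¹ : ℝ) : ℂ) := by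
    push_cast; ring
  rw [this, Complex.norm_real, Real.norm_eq_abs]
  have h1 : 0 ≤ Real.cos θ ^ (96 * M) := pow_nonneg hc _
  have h2 : (0 : ℝ) < ((2 : ℝ) ^ (12 * M))⁻¹ := by positivity
  rw [abs_of_pos (by linarith)]
  linarith

/-- The angle of the `i`-th arc. -/
noncomputable def ang (M i : ℕ) : ℝ := (4 * M + i : ℝ) * Real.pi / (12 * M)

lemma ang_mul (M i : ℕ) (hM : 1 ≤ M) : ((12 * M : ℕ) : ℝ) * ang M i = (4 * M + i) * Real.pi := by
  have : (M : ℝ) ≠ 0 := by positivity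
  unfold ang
  push_cast
  field_simp

lemma ang_lower (M i : ℕ) (hM : 1 ≤ M) : Real.pi / 3 ≤ ang M i := by
  have hMp : (0 : ℝ) < M := by positivity
  unfold ang
  rw [div_le_div_iff₀ (by norm_num) (by positivity)]
  have := Real.pi_pos
  have hi : (0 : ℝ) ≤ i := by positivity
  nlinarith [mul_nonneg hi this.le]

lemma ang_upper (M i : ℕ) (hM : 1 ≤ M) (hi : i ≤ 2 * M) : ang M i ≤ Real.pi / 2 := by
  have hMp : (0 : ℝ) < M := by positivity
  unfold ang
  rw [div_le_div_iff₀ (by positivity) (by norm_num)]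
  have := Real.pi_pos
  have hi' : (i : ℝ) ≤ 2 * M := by exact_mod_cast hi
  nlinarith

lemma ang_strictMono (M : ℕ) (hM : 1 ≤ M) : StrictMono (ang M) := by
  have hMp : (0 : ℝ) < M := by positivity
  intro i k hik
  unfold ang
  have hik' : (i : ℝ) < k := by exact_mod_cast hik
  have := Real.pi_pos
  apply div_lt_div_of_pos_right _ (by positivity)
  nlinarith

lemma cos_ang_sq (M i : ℕ) (hM : 1 ≤ M) (hi : i ≤ 2 * M) : Real.cos (ang M i) ^ 2 ≤ 1 / 4 := by
  have h1 := ang_lower M i hM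
  have h2 := ang_upper M i hM hi
  have hpi := Real.pi_pos
  have h3 : Real.cos (ang M i) ≤ 1 / 2 := by
    rw [← Real.cos_pi_div_three]
    exact Real.cos_le_cos_of_nonneg_of_le_pi (by positivity) (by linarith) h1
  have h4 : 0 ≤ Real.cos (ang M i) := Real.cos_nonneg_of_mem_Icc ⟨by linarith, h2⟩
  nlinarith

lemma cos_ang_nonneg (M i : ℕ) (hM : 1 ≤ M) (hi : i ≤ 2 * M) : 0 ≤ Real.cos (ang M i) := by
  have h1 := ang_lower M i hM
  have h2 := ang_upper M i hM hi
  have hpi := Real.pi_pos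
  exact Real.cos_nonneg_of_mem_Icc ⟨by linarith, h2⟩

lemma cos_ang_lt (M i k : ℕ) (hM : 1 ≤ M) (hk : k ≤ 2 * M) (hik : i < k) :
    Real.cos (ang M k) < Real.cos (ang M i) := by
  have h1 := ang_lower M i hM
  have h2 := ang_upper M k hM hk
  have hpi := Real.pi_pos
  exact Real.cos_lt_cos_of_nonneg_of_le_pi (by linarith) (by linarith)
    (ang_strictMono M hM hik)

/-- The `i`-th component. -/
noncomputable def comp (M i : ℕ) : Set ℂ :=
  connectedComponentIn (E (F M)) ((Real.cos (ang M (2 * i + 1)) : ℝ) : ℂ)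

lemma pt_zero (θ : ℝ) : pt θ 0 = ((Real.cos θ : ℝ) : ℂ) := by
  apply Complex.ext
  · rw [Complex.ofReal_re]; simp [pt]
  · rw [Complex.ofReal_im]; simp [pt]

lemma arc_mem (M i : ℕ) (hM : 1 ≤ M) (hi : i < M) (s : ℝ) (hs : |s| ≤ Real.log 2) :
    pt (ang M (2 * i + 1)) s ∈ E (F M) := by
  apply pt_mem M (2 * M + i)
  · rw [ang_mul M _ hM]; push_cast; ring
  · exact cos_ang_sq M _ hM (by omega)
  · exact hs

lemma arc_mem_comp (M i : ℕ) (hM : 1 ≤ M) (hi : i < M) (s : ℝ) (hs : |s| ≤ Real.log 2) :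
    pt (ang M (2 * i + 1)) s ∈ comp M i := by
  have hL : (0 : ℝ) < Real.log 2 := Real.log_pos (by norm_num)
  have hcont : Continuous (pt (ang M (2 * i + 1))) := by
    have : pt (ang M (2 * i + 1)) = fun s : ℝ =>
      Complex.cos (((ang M (2 * i + 1) : ℝ) : ℂ) - (s : ℂ) * Complex.I) := by
      funext s; exact pt_eq_cos _ _
    rw [this]
    fun_prop
  have hpre : IsPreconnected (pt (ang M (2 * i + 1)) '' (Set.Icc (-Real.log 2) (Real.log 2))) :=
    isPreconnected_Icc.image _ hcont.continuousOn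
  have hsub : pt (ang M (2 * i + 1)) '' (Set.Icc (-Real.log 2) (Real.log 2)) ⊆ comp M i := by
    apply hpre.subset_connectedComponentIn
    · exact ⟨0, ⟨by linarith, hL.le⟩, pt_zero _⟩
    · rintro _ ⟨t, ht, rfl⟩
      exact arc_mem M i hM hi t (abs_le.mpr ht)
  exact hsub ⟨s, abs_le.mp hs, rfl⟩

lemma comp_ne (M i k : ℕ) (hM : 1 ≤ M) (hk : k < M) (hik : i < k) : comp M i ≠ comp M k := by
  intro heq
  have hL : (0 : ℝ) < Real.log 2 := Real.log_pos (by norm_num)
  have hi : i < M := lt_trans hik hk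
  have h1 : ((Real.cos (ang M (2 * i + 1)) : ℝ) : ℂ) ∈ comp M k := by
    rw [← heq, ← pt_zero]
    exact arc_mem_comp M i hM hi 0 (by rw [abs_zero]; exact hL.le)
  refine sep (F M) (by rw [natDegree_F M hM]; omega) (real_F M)
    (Real.cos (ang M (2 * k + 1))) (Real.cos (ang M (2 * i + 2)))
    (Real.cos (ang M (2 * i + 1))) ?_ ?_ ?_ ?_ h1
  · exact cos_ang_lt M _ _ hM (by omega) (by omega)
  · exact cos_ang_lt M _ _ hM (by omega) (by omega)
  · rw [← pt_zero]
    exact arc_mem M k hM hk 0 (by rw [abs_zero]; exact hL.le)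
  · apply real_notMem M (2 * M + i + 1)
    · rw [ang_mul M _ hM]; push_cast; ring
    · exact cos_ang_nonneg M _ hM (by omega)

lemma comp_diam (M i : ℕ) (hM : 1 ≤ M) (hi : i < M) : 1 + 1 / 5 < Metric.diam (comp M i) := by
  have hL : (0 : ℝ) < Real.log 2 := Real.log_pos (by norm_num)
  have hbdd : Bornology.IsBounded (comp M i) :=
    (isBounded_E (F M) (by rw [natDegree_F M hM]; omega)).subset (connectedComponentIn_subset _ _)
  have h1 := arc_mem_comp M i hM hi (Real.log 2) (by rw [abs_of_pos hL])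
  have h2 := arc_mem_comp M i hM hi (-Real.log 2) (by rw [abs_neg, abs_of_pos hL])
  refine lt_of_lt_of_le ?_ (Metric.dist_le_diam_of_mem hbdd h1 h2)
  rw [Complex.dist_eq]
  have h3 := Complex.abs_im_le_norm (pt (ang M (2 * i + 1)) (Real.log 2) -
    pt (ang M (2 * i + 1)) (-Real.log 2))
  refine lt_of_lt_of_le ?_ h3
  have h4 : Real.sinh (Real.log 2) = 3 / 4 := by
    rw [Real.sinh_log (by norm_num)]; norm_num
  have h5 : (pt (ang M (2 * i + 1)) (Real.log 2) -
    pt (ang M (2 * i + 1)) (-Real.log 2)).im = Real.sin (ang M (2 * i + 1)) * (3 / 2) := by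
    simp only [pt, Complex.sub_im, Real.sinh_neg, h4]
    ring
  rw [h5]
  have h6 := cos_ang_sq M (2 * i + 1) hM (by omega)
  have h7 := Real.sin_sq_add_cos_sq (ang M (2 * i + 1))
  have h8 : 0 ≤ Real.sin (ang M (2 * i + 1)) := by
    apply Real.sin_nonneg_of_nonneg_of_le_pi
    · have := ang_lower M (2 * i + 1) hM
      have := Real.pi_pos
      linarith
    · have := ang_upper M (2 * i + 1) hM (by omega)
      have := Real.pi_pos
      linarith
  have h9 : 4 / 5 < Real.sin (ang M (2 * i + 1)) := by nlinarith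
  rw [abs_of_nonneg (by positivity)]
  linarith

theorem result :
    ¬ (∀ c : ℝ, 0 < c → ∀ ε : ℝ, 0 < ε → ∃ N : ℕ, ∀ n : ℕ, N ≤ n →
      ∀ f : Polynomial ℂ, f.Monic → f.natDegree = n →
        ∀ s : Finset (Set ℂ),
          (∀ C ∈ s, (∃ z : ℂ, ‖f.eval z‖ ≤ 1 ∧
              connectedComponentIn {w : ℂ | ‖f.eval w‖ ≤ 1} z = C) ∧
            1 + c < Metric.diam C) →
          (s.card : ℝ) ≤ ε * (n : ℝ)) := by
  classical
  intro h
  obtain ⟨N, hN⟩ := h (1 / 5) (by norm_num) (1 / 100) (by norm_num)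
  set M := N + 1 with hMdef
  have hM : 1 ≤ M := by omega
  have hinj : Set.InjOn (comp M) (Finset.range M : Set ℕ) := by
    intro i hi k hk hik
    rw [Finset.coe_range, Set.mem_Iio] at hi hk
    by_contra hne
    rcases lt_or_gt_of_ne hne with hlt | hlt
    · exact comp_ne M i k hM hk hlt hik
    · exact comp_ne M k i hM hi hlt hik.symm
  have h1 := hN (96 * M) (by omega) (F M) (monic_F M hM) (natDegree_F M hM)
    ((Finset.range M).image (comp M)) (by
      intro C hC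
      rw [Finset.mem_image] at hC
      obtain ⟨i, hi, rfl⟩ := hC
      rw [Finset.mem_range] at hi
      refine ⟨⟨((Real.cos (ang M (2 * i + 1)) : ℝ) : ℂ), ?_, rfl⟩, comp_diam M i hM hi⟩
      have := arc_mem M i hM hi 0 (by rw [abs_zero]; exact (Real.log_pos (by norm_num)).le)
      rw [pt_zero] at this
      exact this)
  rw [Finset.card_image_of_injOn hinj, Finset.card_range] at h1
  have hMp : (0 : ℝ) < M := by positivity
  push_cast at h1
  linarith

end Pool.Agent.S03134
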