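import Pool.Statements.S03138
-- import your own Pool.Agent.* helpers here

set_option autoImplicit false
open Pool Pool.MP_529e31_an

namespace Pool.Agent.S03138

/-- The radii of the circles. -/
noncomputable def rad (n : ℕ) : ℝ := (2 : ℝ) ^ (8 ^ n)

lemma two_le_rad (n : ℕ) : (2 : ℝ) ≤ rad n := by
  unfold rad
  calc (2 : ℝ) = 2 ^ 1 := by norm_num
    _ ≤ 2 ^ (8 ^ n) := pow_le_pow_right₀ (by norm_num) (Nat.one_le_pow _ _ (by norm_num))

lemma rad_mono {i j : ℕ} (h : i ≤ j) : rad i ≤ rad j := by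
  unfold rad
  exact pow_le_pow_right₀ (by norm_num) (Nat.pow_le_pow_right (by norm_num) h)

lemma rad_succ (n : ℕ) : rad (n + 1) = rad n ^ 8 := by
  unfold rad
  rw [← pow_mul, pow_succ]

lemma exists_le_rad (x : ℝ) : ∃ n : ℕ, x ≤ rad n := by
  obtain ⟨n, hn⟩ := exists_nat_ge x
  refine ⟨n, hn.trans ?_⟩
  unfold rad
  have h1 : (n : ℝ) ≤ 2 ^ n := by
    exact_mod_cast (Nat.lt_two_pow_self (n := n)).le
  have h2 : n ≤ 8 ^ n := (Nat.lt_pow_self (by norm_num)).le
  exact h1.trans (pow_le_pow_right₀ (by norm_num) h2)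

/-- The test exponents. -/
def mexp (n : ℕ) : ℕ := (2 ^ (8 ^ n)) ^ 3

lemma mexp_cast (n : ℕ) : (mexp n : ℝ) = rad n ^ 3 := by
  unfold mexp rad
  push_cast
  rfl

/-- The monomials are dominated by `exp |z|` on all the circles. -/
lemma test_bound (n j : ℕ) : (rad j / rad n) ^ (mexp n) ≤ Real.exp (rad j) := by
  have hn := two_le_rad n
  have hj := two_le_rad j
  have hn0 : 0 < rad n := by linarith
  have hj0 : 0 < rad j := by linarith
  rcases Nat.lt_or_ge n j with h | h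
  · -- here `n < j`
    have h8 : rad n ^ 8 ≤ rad j := by
      rw [← rad_succ]; exact rad_mono h
    set m : ℝ := (mexp n : ℝ) with hm
    have hmv : m = rad n ^ 3 := mexp_cast n
    have hm0 : 0 < m := by rw [hmv]; positivity
    have hx : 2 * m ^ 2 ≤ rad j := by
      refine le_trans ?_ h8
      rw [hmv]
      have h6 : 0 < rad n ^ 6 := by positivity
      have h2 : (2 : ℝ) ≤ rad n ^ 2 := by nlinarith
      calc 2 * (rad n ^ 3) ^ 2 = 2 * rad n ^ 6 := by ring
        _ ≤ rad n ^ 2 * rad n ^ 6 := by nlinarith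
        _ = rad n ^ 8 := by ring
    have hdiv : rad j / rad n ≤ rad j := div_le_self hj0.le (by linarith)
    have hq := Real.quadratic_le_exp_of_nonneg (x := rad j / m) (by positivity)
    have hle : rad j ≤ Real.exp (rad j / m) := by
      refine le_trans ?_ hq
      have h3 : rad j ≤ (rad j / m) ^ 2 / 2 := by
        rw [div_pow, div_div, le_div_iff₀ (by positivity)]
        nlinarith
      have h4 : 0 ≤ rad j / m := by positivity
      linarith
    calc (rad j / rad n) ^ (mexp n) ≤ (Real.exp (rad j / m)) ^ (mexp n) :=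
          pow_le_pow_left₀ (by positivity) (hdiv.trans hle) _
      _ = Real.exp (rad j) := by
          rw [← Real.exp_nat_mul, ← hm]
          congr 1
          field_simp
  · -- here `j ≤ n`
    have h1 : rad j / rad n ≤ 1 := (div_le_one hn0).2 (rad_mono h)
    have h2 : (rad j / rad n) ^ (mexp n) ≤ 1 := pow_le_one₀ (by positivity) h1
    exact h2.trans (Real.one_le_exp hj0.le)

lemma test_large (n : ℕ) : Real.exp (rad n ^ 3 / 2) ≤ (2 : ℝ) ^ (mexp n) := by
  have h : Real.exp (1 / 2) ≤ 2 := by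
    have h1 : (1 / 2 : ℝ) ≤ Real.log 2 := by
      have := Real.log_two_gt_d9
      linarith
    calc Real.exp (1 / 2) ≤ Real.exp (Real.log 2) := Real.exp_le_exp.2 h1
      _ = 2 := Real.exp_log (by norm_num)
  calc Real.exp (rad n ^ 3 / 2) = (Real.exp (1 / 2)) ^ (mexp n) := by
        rw [← Real.exp_nat_mul, mexp_cast]
        congr 1
        ring
    _ ≤ 2 ^ (mexp n) := pow_le_pow_left₀ (Real.exp_pos _).le h _

lemma detects (f : ℂ → ℂ) (hf : Differentiable ℂ f) :
    (Bornology.IsBounded (f '' {z : ℂ | ∃ n : ℕ, ‖z‖ = rad n}) ↔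
      Bornology.IsBounded (Set.range f)) := by
  constructor
  · intro h
    obtain ⟨C, hC⟩ := isBounded_iff_forall_norm_le.1 h
    refine isBounded_iff_forall_norm_le.2 ⟨C, ?_⟩
    rintro _ ⟨z, rfl⟩
    obtain ⟨n, hn⟩ := exists_le_rad ‖z‖
    have hr : 0 < rad n := by linarith [two_le_rad n]
    refine Complex.norm_le_of_forall_mem_frontier_norm_le (U := Metric.ball (0 : ℂ) (rad n))
      Metric.isBounded_ball hf.diffContOnCl ?_ ?_
    · intro w hw
      rw [frontier_ball (0 : ℂ) hr.ne', mem_sphere_zero_iff_norm] at hw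
      exact hC _ ⟨w, ⟨n, hw⟩, rfl⟩
    · rw [closure_ball (0 : ℂ) hr.ne', mem_closedBall_zero_iff]
      exact hn
  · intro h
    exact h.subset (Set.image_subset_range _ _)

lemma weight_mem (A : ℝ) :
    Asymptotics.IsLittleO (Filter.cocompact ℂ) (fun z : ℂ => Real.exp (A * ‖z‖ ^ (1 : ℝ)))
      (fun z : ℂ => Real.exp (‖z‖ ^ 2)) := by
  rw [Real.isLittleO_exp_comp_exp_comp]
  have h1 : Filter.Tendsto (fun t : ℝ => t * (t - A)) Filter.atTop Filter.atTop :=
    Filter.Tendsto.atTop_mul_atTop₀ Filter.tendsto_id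
      (Filter.tendsto_atTop_add_const_right _ _ Filter.tendsto_id)
  refine (h1.comp (tendsto_norm_cocompact_atTop (E := ℂ))).congr ?_
  intro z
  simp only [Function.comp_apply, Real.rpow_one]
  ring

/-- The negation of the preceding statement: For every ρ>0 and S in ℂ: if each entire f of order ρ finite type is bounded on S iff bounded on ℂ, then for each weight k in K_ρ there are k' in K_ρ and C>0 with ∣f∣≤k' on S implying ∣f∣≤Ck on ℂ (S sufficient). -/
theorem result :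
    ¬ (∀ ρ : ℝ, 0 < ρ → ∀ S : Set ℂ,
      (∀ f : ℂ → ℂ, Differentiable ℂ f →
        (∃ A B : ℝ, 0 < A ∧ 0 < B ∧ ∀ z : ℂ, ‖f z‖ ≤ B * Real.exp (A * ‖z‖ ^ ρ)) →
        (Bornology.IsBounded (f '' S) ↔ Bornology.IsBounded (Set.range f))) →
      ∀ k : ℂ → ℝ, Continuous k → (∀ z : ℂ, 0 < k z) →
        (∀ A : ℝ, 0 < A →
          Asymptotics.IsLittleO (Filter.cocompact ℂ) (fun z : ℂ => Real.exp (A * ‖z‖ ^ ρ)) k) →
        ∃ k' : ℂ → ℝ, Continuous k' ∧ (∀ z : ℂ, 0 < k' z) ∧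
          (∀ A : ℝ, 0 < A →
            Asymptotics.IsLittleO (Filter.cocompact ℂ) (fun z : ℂ => Real.exp (A * ‖z‖ ^ ρ)) k') ∧
          ∃ C : ℝ, 0 < C ∧
            ∀ f : ℂ → ℂ, Differentiable ℂ f →
              (∃ A B : ℝ, 0 < A ∧ 0 < B ∧ ∀ z : ℂ, ‖f z‖ ≤ B * Real.exp (A * ‖z‖ ^ ρ)) →
              (∀ z ∈ S, ‖f z‖ ≤ k' z) → ∀ z : ℂ, ‖f z‖ ≤ C * k z) := by
  intro H
  have hk := H 1 one_pos {z : ℂ | ∃ n : ℕ, ‖z‖ = rad n}
    (fun f hf _ => detects f hf) (fun z : ℂ => Real.exp (‖z‖ ^ 2))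
    (by fun_prop) (fun z => Real.exp_pos _) (fun A _ => weight_mem A)
  obtain ⟨k', hk'c, hk'pos, hk'o, C, hC, hmain⟩ := hk
  -- `exp |z| ≤ c * k' z` for all `z`
  obtain ⟨c, hc, hcle⟩ : ∃ c : ℝ, 0 < c ∧ ∀ z : ℂ, Real.exp ‖z‖ ≤ c * k' z := by
    have h1 := (hk'o 1 one_pos).def one_pos
    obtain ⟨t, ht, hts⟩ := Filter.mem_cocompact.1 h1
    have hcont : Continuous (fun z : ℂ => Real.exp ‖z‖ / k' z) :=
      (by fun_prop : Continuous (fun z : ℂ => Real.exp ‖z‖)).div hk'c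
        (fun z => (hk'pos z).ne')
    obtain ⟨M, hM⟩ := ht.exists_bound_of_continuousOn hcont.continuousOn
    refine ⟨max 1 M, lt_max_of_lt_left one_pos, fun z => ?_⟩
    have hkz := hk'pos z
    by_cases hz : z ∈ t
    · have h2 := hM z hz
      rw [Real.norm_eq_abs, abs_of_pos (by positivity), div_le_iff₀ hkz] at h2
      exact h2.trans (mul_le_mul_of_nonneg_right (le_max_right _ _) hkz.le)
    · have h2 : ‖Real.exp (1 * ‖z‖ ^ (1 : ℝ))‖ ≤ 1 * ‖k' z‖ := hts hz
      rw [Real.norm_eq_abs, Real.norm_eq_abs, abs_of_pos (Real.exp_pos _), abs_of_pos hkz,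
        Real.rpow_one, one_mul] at h2
      exact h2.trans (mul_le_mul_of_nonneg_right (le_max_left _ _) hkz.le)
  -- the test functions
  have key : ∀ n : ℕ, Real.exp (rad n ^ 3 / 2 - 4 * rad n ^ 2) ≤ c * C := by
    intro n
    have hr : 0 < rad n := by linarith [two_le_rad n]
    set f : ℂ → ℂ := fun z => (c : ℂ)⁻¹ * (z / (rad n : ℂ)) ^ (mexp n) with hfdef
    have hfd : Differentiable ℂ f := by
      intro z
      fun_prop
    have hfn : ∀ z : ℂ, ‖f z‖ = c⁻¹ * (‖z‖ / rad n) ^ (mexp n) := by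
      intro z
      simp only [hfdef, norm_mul, norm_inv, norm_pow, norm_div, Complex.norm_real,
        Real.norm_eq_abs, abs_of_pos hc, abs_of_pos hr]
    have hgrow : ∃ A B : ℝ, 0 < A ∧ 0 < B ∧
        ∀ z : ℂ, ‖f z‖ ≤ B * Real.exp (A * ‖z‖ ^ (1 : ℝ)) := by
      refine ⟨1, c⁻¹ * (Nat.factorial (mexp n)), one_pos, by positivity, fun z => ?_⟩
      rw [hfn, Real.rpow_one, one_mul, mul_assoc]
      refine mul_le_mul_of_nonneg_left ?_ (by positivity)
      have h1 : ‖z‖ / rad n ≤ ‖z‖ :=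
        div_le_self (norm_nonneg _) (by linarith [two_le_rad n])
      have h2 := Real.pow_div_factorial_le_exp (‖z‖) (norm_nonneg z) (mexp n)
      rw [div_le_iff₀ (by positivity)] at h2
      calc (‖z‖ / rad n) ^ (mexp n) ≤ ‖z‖ ^ (mexp n) :=
            pow_le_pow_left₀ (by positivity) h1 _
        _ ≤ Real.exp ‖z‖ * (Nat.factorial (mexp n)) := h2
        _ = (Nat.factorial (mexp n)) * Real.exp ‖z‖ := by ring
    have hS : ∀ z ∈ {z : ℂ | ∃ n : ℕ, ‖z‖ = rad n}, ‖f z‖ ≤ k' z := by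
      rintro z ⟨j, hj⟩
      rw [hfn, hj, inv_mul_le_iff₀ hc]
      refine (test_bound n j).trans ?_
      rw [← hj]
      exact hcle z
    have h3 := hmain f hfd hgrow hS ((2 * rad n : ℝ) : ℂ)
    have hnorm : ‖((2 * rad n : ℝ) : ℂ)‖ = 2 * rad n := by
      rw [Complex.norm_real, Real.norm_eq_abs, abs_of_pos (by positivity)]
    rw [hfn, hnorm, inv_mul_le_iff₀ hc, mul_div_assoc, div_self hr.ne', mul_one] at h3
    have h4 := (test_large n).trans h3
    rw [Real.exp_sub, div_le_iff₀ (Real.exp_pos _)]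
    refine h4.trans (le_of_eq ?_)
    rw [← mul_assoc]
    congr 2
    ring
  -- contradiction for large `n`
  obtain ⟨n, hn⟩ := exists_le_rad (max 10 (c * C + 1))
  have h10 : (10 : ℝ) ≤ rad n := (le_max_left _ _).trans hn
  have hcC : c * C + 1 ≤ rad n := (le_max_right _ _).trans hn
  have h5 : rad n ≤ rad n ^ 3 / 2 - 4 * rad n ^ 2 := by
    have : 0 < rad n := by linarith
    nlinarith [mul_pos this this, mul_nonneg (mul_nonneg this.le this.le) (sub_nonneg.2 h10)]
  have h6 := key n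
  have h7 := Real.add_one_le_exp (rad n ^ 3 / 2 - 4 * rad n ^ 2)
  linarith

end Pool.Agent.S03138
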