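import Pool.Statements.S03139
import Pool.Agent.BallAlg.Main

set_option autoImplicit false
open Pool Pool.MP_52fb39_an

namespace Pool.Agent.S03139

/-- For every n ≥ 2, the ball algebra of ℂⁿ has a Schauder basis: a sequence in it such that each member has unique coefficients whose ordered partial sums converge uniformly to it on the closed ball. -/
theorem result :
    ∀ n : ℕ, 2 ≤ n →
      ∃ e : ℕ → (EuclideanSpace ℂ (Fin n) → ℂ),
        (∀ i, ContinuousOn (e i) (Metric.closedBall (0 : EuclideanSpace ℂ (Fin n)) 1) ∧
              DifferentiableOn ℂ (e i) (Metric.ball (0 : EuclideanSpace ℂ (Fin n)) 1)) ∧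
        ∀ f : EuclideanSpace ℂ (Fin n) → ℂ,
          ContinuousOn f (Metric.closedBall (0 : EuclideanSpace ℂ (Fin n)) 1) →
          DifferentiableOn ℂ f (Metric.ball (0 : EuclideanSpace ℂ (Fin n)) 1) →
          ∃! a : ℕ → ℂ,
            TendstoUniformlyOn
              (fun (N : ℕ) (z : EuclideanSpace ℂ (Fin n)) => ∑ i ∈ Finset.range N, a i * e i z)
              f Filter.atTop (Metric.closedBall (0 : EuclideanSpace ℂ (Fin n)) 1) := by
  exact Pool.Agent.BallAlg.S03139_of
    (fun n hn X _ _ _ M => Pool.Agent.BallAlg.ball_algebra_basis n hn X M)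

end Pool.Agent.S03139
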