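import Pool.Statements.S03141
import Pool.Agent.Helper474.VolD

set_option autoImplicit false
open Pool Pool.MP_5314e0_an

namespace Pool.Agent.S03141

/-- There is a nonempty compact K in the reals and α, C₁, C₂ > 0 such that for z off K near K, the Green function of ℂ∖K with pole at infinity (as a polynomial supremum) lies between C₁·dist(z,K)^α and C₂·dist(z,K)^α. -/
theorem result :
    ∃ K : Set ℝ, IsCompact K ∧ K.Nonempty ∧
      ∃ α : ℝ, 0 < α ∧ ∃ C₁ : ℝ, 0 < C₁ ∧ ∃ C₂ : ℝ, 0 < C₂ ∧ ∃ ε : ℝ, 0 < ε ∧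
        ∀ z : ℂ,
          0 < Metric.infDist z ((fun x : ℝ => (x : ℂ)) '' K) →
          Metric.infDist z ((fun x : ℝ => (x : ℂ)) '' K) < ε →
          (∀ p : Polynomial ℂ, 1 ≤ p.natDegree →
              (∀ x ∈ K, ‖p.eval (x : ℂ)‖ ≤ 1) →
              Real.log ‖p.eval z‖ / (p.natDegree : ℝ)
                ≤ C₂ * (Metric.infDist z ((fun x : ℝ => (x : ℂ)) '' K)) ^ α) ∧
          (∀ t : ℝ, t < C₁ * (Metric.infDist z ((fun x : ℝ => (x : ℂ)) '' K)) ^ α →
              ∃ p : Polynomial ℂ, 1 ≤ p.natDegree ∧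
                (∀ x ∈ K, ‖p.eval (x : ℂ)‖ ≤ 1) ∧
                t < Real.log ‖p.eval z‖ / (p.natDegree : ℝ)) := by
  refine ⟨Pool.Agent.Helper474.Vol.K, Pool.Agent.Helper474.Vol.K_compact,
    Pool.Agent.Helper474.Vol.K_nonempty, Pool.Agent.Helper474.Vol.α,
    Pool.Agent.Helper474.Vol.α_pos, 1 / 4, by norm_num, 2 * Pool.Agent.Helper474.Vol.A,
    mul_pos (by norm_num) Pool.Agent.Helper474.Vol.A_pos, 1, by norm_num, ?_⟩
  intro z hz hz1
  refine ⟨fun p hdeg hp => Pool.Agent.Helper474.Vol.upper hz hz1 p hdeg hp, fun t ht => ?_⟩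
  obtain ⟨p, hdeg, hp, hlow⟩ := Pool.Agent.Helper474.Vol.lower hz hz1
  exact ⟨p, hdeg, hp, lt_of_lt_of_le ht hlow⟩

end Pool.Agent.S03141
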