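import Pool.Statements.S03143
import Pool.Agent.Helper827.B10

set_option autoImplicit false
open Pool Pool.MP_539630_an

namespace Pool.Agent.S03143

/-- For every real Banach space whose dual unit ball is fragmentable in the weak* topology by some metric, there is a Lipschitz function on the space, not identically zero, with bounded support, that is Gâteaux differentiable at every point. -/
theorem result :
  ∀ (X : Type) [NormedAddCommGroup X] [NormedSpace ℝ X] [CompleteSpace X],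
    (∃ ρ : (X →L[ℝ] ℝ) → (X →L[ℝ] ℝ) → ℝ,
      (∀ f g : X →L[ℝ] ℝ, ‖f‖ ≤ 1 → ‖g‖ ≤ 1 → (ρ f g = 0 ↔ f = g)) ∧
      (∀ f g : X →L[ℝ] ℝ, ‖f‖ ≤ 1 → ‖g‖ ≤ 1 → ρ f g = ρ g f) ∧
      (∀ f g k : X →L[ℝ] ℝ, ‖f‖ ≤ 1 → ‖g‖ ≤ 1 → ‖k‖ ≤ 1 →
          ρ f k ≤ ρ f g + ρ g k) ∧
      ∀ ε : ℝ, 0 < ε → ∀ M : Set (X →L[ℝ] ℝ), M.Nonempty →
        M ⊆ {f : X →L[ℝ] ℝ | ‖f‖ ≤ 1} →
        ∃ Ω : Set (X →L[ℝ] ℝ),
          @IsOpen (X →L[ℝ] ℝ)
            (TopologicalSpace.induced (fun f : X →L[ℝ] ℝ => (⇑f : X → ℝ))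
              Pi.topologicalSpace) Ω ∧
          (M ∩ Ω).Nonempty ∧
          ∀ f ∈ M ∩ Ω, ∀ g ∈ M ∩ Ω, ρ f g < ε) →
    ∃ b : X → ℝ, (∃ K : NNReal, LipschitzWith K b) ∧
      Bornology.IsBounded (Function.support b) ∧ (∃ x : X, b x ≠ 0) ∧
      ∀ x : X, ∃ L : X →L[ℝ] ℝ, ∀ h : X,
        HasDerivAt (fun t : ℝ => b (x + t • h)) (L h) 0 := by
  intro X _ _ _ H
  obtain ⟨ρ, h1, h2, h3, h4⟩ := H
  obtain ⟨b, b1, b2, b3, b4⟩ := Pool.Agent.Helper827.B.gateaux_of_frag (X := X)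
    (fun a b => ρ (Pool.Agent.Helper827.B.toF a) (Pool.Agent.Helper827.B.toF b))
    (fun f g => (h1 _ _ (Pool.Agent.Helper827.B.toF_norm f)
      (Pool.Agent.Helper827.B.toF_norm g)).trans
        ⟨Pool.Agent.Helper827.B.toF_inj, fun h => by rw [h]⟩)
    (fun f g => by
      have e1 := h3 _ _ _ (Pool.Agent.Helper827.B.toF_norm f)
        (Pool.Agent.Helper827.B.toF_norm g) (Pool.Agent.Helper827.B.toF_norm f)
      have e2 := (h1 _ _ (Pool.Agent.Helper827.B.toF_norm f)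
        (Pool.Agent.Helper827.B.toF_norm f)).2 rfl
      have e3 := h2 _ _ (Pool.Agent.Helper827.B.toF_norm f)
        (Pool.Agent.Helper827.B.toF_norm g)
      linarith)
    (by
      intro ε hε M hM
      obtain ⟨Ω, o1, o2, o3⟩ := h4 ε hε (Pool.Agent.Helper827.B.toF '' M) (hM.image _) (by
        rintro _ ⟨a, -, rfl⟩
        exact Pool.Agent.Helper827.B.toF_norm a)
      refine ⟨Pool.Agent.Helper827.B.toF ⁻¹' Ω,
        Pool.Agent.Helper827.B.toF_open Ω o1, ?_, ?_⟩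
      · obtain ⟨_, ⟨a, ha, rfl⟩, ha2⟩ := o2
        exact ⟨a, ha, ha2⟩
      · intro f hf g hg
        exact (o3 _ ⟨⟨f, hf.1, rfl⟩, hf.2⟩ _ ⟨⟨g, hg.1, rfl⟩, hg.2⟩).le)
  exact ⟨b, b1, b2, ⟨0, b3⟩, b4⟩

end Pool.Agent.S03143
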