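import Pool.Statements.S03146
import Pool.Agent.Helper746.SineFinal

set_option autoImplicit false
open Filter Topology
open Pool Pool.MP_53ae57_an

namespace Pool.Agent.S03146

/-- The negation of the preceding statement: For n ≥ 3, every continuous W^{1,n}_loc map f of ℝⁿ with ∣Df∣ⁿ ≤ K det Df a.e. whose max modulus satisfies M(R) ≤ exp(R^C) for arbitrarily large R has only finitely many limits along continuous paths tending to infinity. -/
theorem result :
    ¬ (∀ n : ℕ, 3 ≤ n → ∀ f : EuclideanSpace ℝ (Fin n) → EuclideanSpace ℝ (Fin n),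
    (Continuous f ∧ ∃ K : ℝ, 1 ≤ K ∧
      ∃ g : EuclideanSpace ℝ (Fin n) → (EuclideanSpace ℝ (Fin n) →L[ℝ] EuclideanSpace ℝ (Fin n)),
        MeasureTheory.AEStronglyMeasurable g MeasureTheory.volume ∧
        MeasureTheory.LocallyIntegrable (fun x => ‖g x‖ ^ n) MeasureTheory.volume ∧
        (∀ φ : EuclideanSpace ℝ (Fin n) → ℝ, ContDiff ℝ 1 φ → HasCompactSupport φ →
          ∀ v : EuclideanSpace ℝ (Fin n),
            ∫ x, (fderiv ℝ φ x v) • f x = - ∫ x, φ x • g x v) ∧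
        (∀ᵐ x ∂MeasureTheory.volume, ‖g x‖ ^ n ≤ K * LinearMap.det (g x).toLinearMap)) →
    (∃ C : ℝ, ∀ R₀ : ℝ, ∃ R : ℝ, R₀ < R ∧
      ∀ x : EuclideanSpace ℝ (Fin n), ‖x‖ = R → ‖f x‖ ≤ Real.exp (R ^ C)) →
    Set.Finite {a : EuclideanSpace ℝ (Fin n) | ∃ γ : ℝ → EuclideanSpace ℝ (Fin n),
      Continuous γ ∧ Tendsto (fun t => ‖γ t‖) atTop atTop ∧
      Tendsto (fun t => f (γ t)) atTop (𝓝 a)}) := by
  intro H
  have hsob := Pool.Agent.Helper746.SineSob.sob Pool.Agent.Helper746.Sine.fN 2000 (by norm_num)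
    Pool.Agent.Helper746.Sine.fN_lip Pool.Agent.Helper746.Sine.fN_good
  refine Pool.Agent.Helper746.Sine.infinite_values
    (H 3 le_rfl Pool.Agent.Helper746.Sine.fN hsob ⟨2, fun R₀ => ?_⟩)
  refine ⟨max R₀ 3 + 1, lt_of_le_of_lt (le_max_left R₀ 3) (lt_add_one _), fun x hx => ?_⟩
  have h3 : 3 ≤ max R₀ 3 := le_max_right _ _
  set R := max R₀ 3 + 1 with hR
  have h4 : 4 ≤ R := by linarith
  have h := Pool.Agent.Helper746.Sine.fN_growth x
  rw [hx] at h
  rw [Real.rpow_two]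
  have h5 : (3 : ℝ) ≤ Real.exp 2 := by
    have := Real.add_one_le_exp (2 : ℝ)
    linarith
  calc ‖Pool.Agent.Helper746.Sine.fN x‖ ≤ 3 * Real.exp R := h
    _ ≤ Real.exp 2 * Real.exp R := mul_le_mul_of_nonneg_right h5 (Real.exp_pos _).le
    _ = Real.exp (2 + R) := (Real.exp_add _ _).symm
    _ ≤ Real.exp (R ^ 2) := Real.exp_le_exp.2 (by nlinarith)

end Pool.Agent.S03146
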