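import Pool.Statements.S03148
import Pool.Agent.Helper704.HW.Riesz

set_option autoImplicit false
open MeasureTheory
open scoped FourierTransform
open Pool Pool.MP_53e230_an

namespace Pool.Agent.S03148

/-- The negation of the preceding statement: There is a Schwartz function ψ with Fourier transform zero on ξ ≤ 0 whose dilates-translates 2^{j/2}ψ(2^j x−k) satisfy two-sided Riesz bounds and are complete in H²: any L² function on the positive frequencies orthogonal to all their Fourier transforms is zero. -/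
theorem result :
    ¬ (∃ ψ : SchwartzMap ℝ ℂ,
    (∀ ξ : ℝ, ξ ≤ 0 → 𝓕 (fun x : ℝ => ψ x) ξ = 0) ∧
    (∃ A B : ℝ, 0 < A ∧ 0 < B ∧ ∀ c : ℤ × ℤ →₀ ℂ,
      A * c.sum (fun _ a => ‖a‖ ^ 2) ≤
        ∫ x : ℝ, ‖c.sum (fun p a => a * ((((2:ℝ) ^ ((p.1:ℝ) / 2) : ℝ) : ℂ) *
          ψ ((2:ℝ) ^ p.1 * x - (p.2 : ℝ))))‖ ^ 2 ∧
      ∫ x : ℝ, ‖c.sum (fun p a => a * ((((2:ℝ) ^ ((p.1:ℝ) / 2) : ℝ) : ℂ) *
          ψ ((2:ℝ) ^ p.1 * x - (p.2 : ℝ))))‖ ^ 2 ≤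
        B * c.sum (fun _ a => ‖a‖ ^ 2)) ∧
    (∀ h : ℝ → ℂ, MemLp h 2 volume → (∀ ξ : ℝ, ξ ≤ 0 → h ξ = 0) →
      (∀ p : ℤ × ℤ, ∫ ξ : ℝ, starRingEnd ℂ
          (𝓕 (fun x : ℝ => (((2:ℝ) ^ ((p.1:ℝ) / 2) : ℝ) : ℂ) *
            ψ ((2:ℝ) ^ p.1 * x - (p.2 : ℝ))) ξ) * h ξ = 0) →
      h =ᵐ[volume] 0)) := by
  rintro ⟨ψ, hz, ⟨A, B, hA, _, hR⟩, hcomp⟩
  exact Pool.Agent.Helper704.HW.no_schwartz_wavelet ψ hz A B hA hR hcomp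

end Pool.Agent.S03148
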