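import Pool.Statements.S03149

set_option autoImplicit false
open Pool Pool.MP_540347_an

namespace Pool.Agent.S03149

section
open Complex Metric Polynomial Real Filter Topology
open scoped ComplexConjugate

/-- Trigonometric polynomials approximate continuous functions on the circle. -/
theorem trig_dense (φ : ℂ → ℝ) (hφ : Continuous φ) (δ : ℝ) (hδ : 0 < δ) :
    ∃ P : ℂ[X], ∀ z : ℂ, ‖z‖ = 1 → |φ z - (P.eval z).re| ≤ δ := by
  have : Fact (0 < 2 * Real.pi) := ⟨by positivity⟩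
  let f : C(AddCircle (2 * Real.pi), ℂ) :=
    ⟨fun x => ((φ (AddCircle.toCircle x : ℂ) : ℝ) : ℂ), by
      have h1 : Continuous fun x : AddCircle (2 * Real.pi) => ((AddCircle.toCircle x : Circle) : ℂ) :=
        continuous_subtype_val.comp AddCircle.continuous_toCircle
      exact Complex.continuous_ofReal.comp (hφ.comp h1)⟩
  have hf : f ∈ (Submodule.span ℂ (Set.range (@fourier (2 * Real.pi)))).topologicalClosure := by
    rw [span_fourier_closure_eq_top]; trivial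
  rw [← SetLike.mem_coe, Submodule.topologicalClosure_coe, Metric.mem_closure_iff] at hf
  obtain ⟨g, hg, hfg⟩ := hf δ hδ
  have key : ∃ P Q : ℂ[X], ∀ x : AddCircle (2 * Real.pi),
      g x = P.eval ((AddCircle.toCircle x : Circle) : ℂ) +
        conj (Q.eval ((AddCircle.toCircle x : Circle) : ℂ)) := by
    refine Submodule.span_induction ?_ ?_ ?_ ?_ hg
    · rintro _ ⟨n, rfl⟩
      obtain ⟨m, rfl | rfl⟩ := n.eq_nat_or_neg
      · refine ⟨X ^ m, 0, fun x => ?_⟩
        simp [fourier_apply, AddCircle.toCircle_nsmul]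
      · refine ⟨0, X ^ m, fun x => ?_⟩
        simp only [fourier_neg, Polynomial.eval_zero, zero_add]
        simp [fourier_apply, AddCircle.toCircle_nsmul]
    · exact ⟨0, 0, fun x => by simp⟩
    · rintro a b - - ⟨P, Q, h⟩ ⟨P', Q', h'⟩
      refine ⟨P + P', Q + Q', fun x => ?_⟩
      simp [h x, h' x]; ring
    · rintro c a - ⟨P, Q, h⟩
      refine ⟨C c * P, C (conj c) * Q, fun x => ?_⟩
      simp [h x]; ring
  obtain ⟨P, Q, hPQ⟩ := key
  refine ⟨P + Q, fun z hz => ?_⟩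
  obtain ⟨x, hx⟩ : ∃ x : AddCircle (2 * Real.pi), ((AddCircle.toCircle x : Circle) : ℂ) = z := by
    let w : Circle := ⟨z, by simpa [Submonoid.unitSphere] using hz⟩
    refine ⟨(AddCircle.homeomorphCircle (T := 2 * Real.pi) (by positivity)).symm w, ?_⟩
    rw [← AddCircle.homeomorphCircle_apply (by positivity), Homeomorph.apply_symm_apply]
  have h1 : dist (f x) (g x) < δ := lt_of_le_of_lt (ContinuousMap.dist_apply_le_dist x) hfg
  rw [hPQ x, hx] at h1
  have h2 : f x = ((φ z : ℝ) : ℂ) := by simp [f, hx]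
  rw [h2, Complex.dist_eq] at h1
  have h3 := (Complex.abs_re_le_norm (((φ z : ℝ) : ℂ) - (eval z P + conj (eval z Q)))).trans h1.le
  simpa using h3

theorem cm_mul (s t : ℝ) : circleMap 0 1 (s + t) = circleMap 0 1 s * circleMap 0 1 t := by
  simp [circleMap, add_mul, Complex.exp_add]

theorem cm_pow (s : ℝ) (N : ℕ) : circleMap 0 1 (N * s) = circleMap 0 1 s ^ N := by
  simp only [circleMap, ofReal_one, one_mul, zero_add, ← Complex.exp_nat_mul]
  push_cast
  ring_nf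

theorem cm_norm (s : ℝ) : ‖circleMap 0 1 s‖ = 1 := by simp

theorem cm_cont : Continuous (circleMap 0 1) := continuous_circleMap 0 1

/-- Fast and slow variables become independent. -/
theorem fejer (Ψ : ℂ → ℂ → ℝ) (hΨ : Continuous (fun q : ℂ × ℂ => Ψ q.1 q.2)) (ε : ℝ) (hε : 0 < ε) :
    ∃ N0 : ℕ, ∀ N : ℕ, N0 ≤ N →
      |circleAverage (fun z => Ψ z (z ^ N)) 0 1 -
        circleAverage (fun z => circleAverage (fun w => Ψ z w) 0 1) 0 1| ≤ ε := by
  have hK : IsCompact (closedBall (0 : ℂ) 1 ×ˢ closedBall (0 : ℂ) 1) :=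
    (isCompact_closedBall _ _).prod (isCompact_closedBall _ _)
  have hu := hK.uniformContinuousOn_of_continuous hΨ.continuousOn
  rw [Metric.uniformContinuousOn_iff] at hu
  obtain ⟨δ, hδ, hu⟩ := hu ε hε
  obtain ⟨N0, hN0⟩ := exists_nat_gt (2 * π / δ)
  refine ⟨N0 + 1, fun N hN => ?_⟩
  have hNpos : (0 : ℝ) < N := by
    have : 1 ≤ N := by omega
    exact_mod_cast this
  set E := circleMap 0 1 with hE
  have hEc : Continuous E := cm_cont
  have h2 : 0 < (2 * π)⁻¹ := by positivity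
  -- formula for the left side
  have hL : ∀ t : ℝ, circleAverage (fun z => Ψ z (z ^ N)) 0 1 =
      (2 * π)⁻¹ * ∫ θ in 0..2 * π, Ψ (E (θ + t / N)) (E θ ^ N * E t) := by
    intro t
    rw [circleAverage_eq_integral_add (t / N), smul_eq_mul]
    congr 1
    apply intervalIntegral.integral_congr
    intro θ _
    simp only
    congr 1
    rw [← cm_pow, ← cm_pow, ← cm_mul]
    congr 1
    field_simp
  have hJ1 : circleAverage (fun z => circleAverage (fun w => Ψ z w) 0 1) 0 1 =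
      (2 * π)⁻¹ * ∫ θ in 0..2 * π, (2 * π)⁻¹ * ∫ t in 0..2 * π, Ψ (E θ) (E θ ^ N * E t) := by
    rw [circleAverage_def, smul_eq_mul]
    congr 1
    apply intervalIntegral.integral_congr
    intro θ _
    simp only
    rw [circleAverage_eq_integral_add ((N : ℝ) * θ), smul_eq_mul]
    congr 1
    apply intervalIntegral.integral_congr
    intro t _
    simp only
    rw [add_comm, cm_mul, cm_pow]
  have hcont : Continuous (Function.uncurry fun (θ t : ℝ) => Ψ (E θ) (E θ ^ N * E t)) := by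
    apply hΨ.comp (f := fun q : ℝ × ℝ => (E q.1, E q.1 ^ N * E q.2))
    fun_prop
  have hcont2 : Continuous (Function.uncurry fun (t θ : ℝ) => Ψ (E (θ + t / N)) (E θ ^ N * E t)) := by
    apply hΨ.comp (f := fun q : ℝ × ℝ => (E (q.2 + q.1 / N), E q.2 ^ N * E q.1))
    fun_prop
  have hcont3 : Continuous (Function.uncurry fun (t θ : ℝ) => Ψ (E θ) (E θ ^ N * E t)) := by
    apply hΨ.comp (f := fun q : ℝ × ℝ => (E q.2, E q.2 ^ N * E q.1))
    fun_prop
  have hswap : (∫ θ in 0..2 * π, ∫ t in 0..2 * π, Ψ (E θ) (E θ ^ N * E t)) =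
      ∫ t in 0..2 * π, ∫ θ in 0..2 * π, Ψ (E θ) (E θ ^ N * E t) := by
    apply MeasureTheory.intervalIntegral_intervalIntegral_swap
    exact (hcont.continuousOn.integrableOn_compact
      (isCompact_uIcc.prod isCompact_uIcc)).mono_set
      (Set.prod_mono Set.uIoc_subset_uIcc Set.uIoc_subset_uIcc)
  have hJ2 : circleAverage (fun z => circleAverage (fun w => Ψ z w) 0 1) 0 1 =
      (2 * π)⁻¹ * ∫ t in 0..2 * π, (2 * π)⁻¹ * ∫ θ in 0..2 * π, Ψ (E θ) (E θ ^ N * E t) := by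
    rw [hJ1]
    simp_rw [intervalIntegral.integral_const_mul]
    rw [hswap]
  have hL2 : circleAverage (fun z => Ψ z (z ^ N)) 0 1 =
      (2 * π)⁻¹ * ∫ t in 0..2 * π, (2 * π)⁻¹ * ∫ θ in 0..2 * π, Ψ (E (θ + t / N)) (E θ ^ N * E t) := by
    simp_rw [← hL]
    rw [intervalIntegral.integral_const, smul_eq_mul]
    field_simp
    ring
  have hc2 : Continuous fun t : ℝ => ∫ θ in 0..2 * π, Ψ (E (θ + t / N)) (E θ ^ N * E t) :=
    intervalIntegral.continuous_parametric_intervalIntegral_of_continuous' hcont2 _ _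
  have hc3 : Continuous fun t : ℝ => ∫ θ in 0..2 * π, Ψ (E θ) (E θ ^ N * E t) :=
    intervalIntegral.continuous_parametric_intervalIntegral_of_continuous' hcont3 _ _
  rw [hL2, hJ2, ← mul_sub, ← intervalIntegral.integral_sub
    ((hc2.const_mul _).intervalIntegrable _ _) ((hc3.const_mul _).intervalIntegrable _ _),
    abs_mul, abs_of_pos h2]
  have hb : ∀ t ∈ Set.uIoc 0 (2 * π), ‖(2 * π)⁻¹ * (∫ θ in 0..2 * π, Ψ (E (θ + t / N)) (E θ ^ N * E t)) -
      (2 * π)⁻¹ * ∫ θ in 0..2 * π, Ψ (E θ) (E θ ^ N * E t)‖ ≤ ε := by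
    intro t ht
    rw [Set.uIoc_of_le (by positivity)] at ht
    have e1 : Continuous fun θ : ℝ => Ψ (E (θ + t / N)) (E θ ^ N * E t) := by
      apply hΨ.comp (f := fun θ : ℝ => (E (θ + t / N), E θ ^ N * E t))
      fun_prop
    have e2 : Continuous fun θ : ℝ => Ψ (E θ) (E θ ^ N * E t) := by
      apply hΨ.comp (f := fun θ : ℝ => (E θ, E θ ^ N * E t))
      fun_prop
    rw [← mul_sub, ← intervalIntegral.integral_sub (e1.intervalIntegrable _ _)
      (e2.intervalIntegrable _ _), norm_mul, Real.norm_of_nonneg h2.le]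
    have hb2 : ∀ θ ∈ Set.uIoc 0 (2 * π), ‖Ψ (E (θ + t / N)) (E θ ^ N * E t) -
        Ψ (E θ) (E θ ^ N * E t)‖ ≤ ε := by
      intro θ _
      have m1 : ∀ s, E s ∈ closedBall (0 : ℂ) 1 := fun s => by simp [hE]
      have m2 : E θ ^ N * E t ∈ closedBall (0 : ℂ) 1 := by simp [hE]
      have := hu (E (θ + t / N), E θ ^ N * E t) ⟨m1 _, m2⟩ (E θ, E θ ^ N * E t) ⟨m1 _, m2⟩ ?_
      · rw [← dist_eq_norm]; exact this.le
      · rw [Prod.dist_eq]
        simp only [dist_self]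
        rw [max_eq_left dist_nonneg]
        have hl := (lipschitzWith_circleMap 0 1).dist_le_mul (θ + t / N) θ
        rw [Real.dist_eq] at hl
        simp only [add_sub_cancel_left] at hl
        have : (Real.nnabs 1 : ℝ) = 1 := by simp
        rw [this, one_mul, abs_of_nonneg (by have := ht.1; positivity)] at hl
        refine lt_of_le_of_lt hl ?_
        rw [div_lt_iff₀ hNpos]
        have h5 : 2 * π / δ < N := hN0.trans_le (by exact_mod_cast (by omega : N0 ≤ N))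
        rw [div_lt_iff₀ hδ] at h5
        nlinarith [ht.2]
    have := intervalIntegral.norm_integral_le_of_norm_le_const hb2
    rw [sub_zero, abs_of_pos (by positivity)] at this
    calc _ ≤ (2 * π)⁻¹ * (ε * (2 * π)) := by gcongr
      _ = ε := by field_simp
  have := intervalIntegral.norm_integral_le_of_norm_le_const hb
  rw [sub_zero, abs_of_pos (by positivity)] at this
  calc _ ≤ (2 * π)⁻¹ * (ε * (2 * π)) := by
        gcongr
        exact this
    _ = ε := by field_simp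

/-- Mean value property of polynomials. -/
theorem avg_poly (P : ℂ[X]) (r : ℝ) : circleAverage (fun z => (P.eval z).re) 0 r = (P.eval 0).re := by
  have h : InnerProductSpace.HarmonicOnNhd (fun z : ℂ => (P.eval z).re) (closedBall 0 |r|) := by
    intro z _
    apply AnalyticAt.harmonicAt_re
    exact P.differentiable.analyticAt z
  simpa using h.circleAverage_eq

/-- Bounded convergence on the circle. -/
theorem avg_tendsto (F : ℕ → ℂ → ℝ) (G : ℂ → ℝ) (C : ℝ) (hF : ∀ n, Continuous (F n))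
    (hb : ∀ n z, ‖z‖ = 1 → |F n z| ≤ C) (hl : ∀ z, ‖z‖ = 1 → Tendsto (fun n => F n z) atTop (𝓝 (G z))) :
    Tendsto (fun n => circleAverage (F n) 0 1) atTop (𝓝 (circleAverage G 0 1)) := by
  simp only [circleAverage_def, smul_eq_mul]
  apply Tendsto.const_mul
  apply intervalIntegral.tendsto_integral_filter_of_dominated_convergence (fun _ => C)
  · exact Eventually.of_forall fun n => ((hF n).comp cm_cont).aestronglyMeasurable
  · exact Eventually.of_forall fun n => Eventually.of_forall fun x _ => hb n _ (cm_norm x)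
  · exact intervalIntegrable_const
  · exact Eventually.of_forall fun x _ => hl _ (cm_norm x)

/-- The mean of a two-valued function. -/
theorem avg_two (m : ℝ) (h0 : 0 ≤ m) (h1 : m ≤ 1) (u v : ℝ) :
    circleAverage (fun z : ℂ => if z.re < Real.cos (π - π * m) then u else v) 0 1 =
      m * u + (1 - m) * v := by
  have hpi := Real.pi_pos
  have hpm : π * m ≤ π := by nlinarith
  have hpm0 : 0 ≤ π * m := by positivity
  rw [circleAverage_def, smul_eq_mul]
  set a := π - π * m with ha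
  set b := π + π * m with hb
  have e0 : ∀ θ : ℝ, (circleMap 0 1 θ).re = Real.cos θ := by
    intro θ; simp [circleMap, Complex.exp_ofReal_mul_I_re]
  simp only [e0]
  have hcos : ∀ θ, Real.cos θ = - Real.cos (|θ - π|) := by
    intro θ
    rw [Real.cos_abs, Real.cos_sub_pi, neg_neg]
  have hca : Real.cos a = - Real.cos (π * m) := by
    rw [ha, Real.cos_pi_sub]
  have i1 : (∫ θ in (0:ℝ)..a, (if Real.cos θ < Real.cos a then u else v)) = a * v := by
    rw [intervalIntegral.integral_congr_Ioo_of_le (g := fun _ => v) (by linarith)]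
    · simp
    · intro θ hθ
      simp only [Set.mem_Ioo] at hθ
      simp only
      rw [if_neg]
      push Not
      apply Real.cos_le_cos_of_nonneg_of_le_pi <;> linarith [hθ.1, hθ.2]
  have i2 : (∫ θ in a..b, (if Real.cos θ < Real.cos a then u else v)) = (b - a) * u := by
    rw [intervalIntegral.integral_congr_Ioo_of_le (g := fun _ => u) (by linarith)]
    · simp
    · intro θ hθ
      simp only [Set.mem_Ioo] at hθ
      simp only
      rw [if_pos]
      rw [hcos θ, hca]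
      apply neg_lt_neg
      apply Real.cos_lt_cos_of_nonneg_of_le_pi (abs_nonneg _) hpm
      rw [abs_lt]; constructor <;> linarith [hθ.1, hθ.2]
  have i3 : (∫ θ in b..(2 * π), (if Real.cos θ < Real.cos a then u else v)) = (2 * π - b) * v := by
    rw [intervalIntegral.integral_congr_Ioo_of_le (g := fun _ => v) (by linarith)]
    · simp
    · intro θ hθ
      simp only [Set.mem_Ioo] at hθ
      simp only
      rw [if_neg]
      push Not
      rw [hcos θ, hca]
      apply neg_le_neg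
      apply Real.cos_le_cos_of_nonneg_of_le_pi (by linarith)
      · rw [abs_le]; constructor <;> linarith [hθ.1, hθ.2]
      · rw [abs_of_nonneg] <;> linarith [hθ.1, hθ.2]
  have hint : ∀ x y : ℝ, IntervalIntegrable (fun θ => (if Real.cos θ < Real.cos a then u else v))
      MeasureTheory.volume x y := by
    intro x y
    have hm : Measurable (fun θ : ℝ => (if Real.cos θ < Real.cos a then u else v)) :=
      Measurable.ite (measurableSet_lt Real.measurable_cos measurable_const)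
        measurable_const measurable_const
    refine (intervalIntegrable_const (c := max |u| |v|)).mono_fun' hm.aestronglyMeasurable ?_
    refine Eventually.of_forall fun θ => ?_
    simp only
    split_ifs
    · exact le_max_left _ _
    · exact le_max_right _ _
  rw [← intervalIntegral.integral_add_adjacent_intervals (hint 0 a) (hint a (2 * π)),
    ← intervalIntegral.integral_add_adjacent_intervals (hint a b) (hint b (2 * π)), i1, i2, i3]
  rw [ha, hb]
  field_simp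
  ring

/-- Trigonometric polynomials with mean m close to an indicator function. -/
theorem bernoulli (m : ℝ) (h0 : 0 ≤ m) (h1 : m ≤ 1) :
    ∃ R : ℕ → ℂ[X], (∀ n, (R n).eval 0 = 0) ∧
      (∀ n z, ‖z‖ = 1 → |m + ((R n).eval z).re| ≤ 5) ∧
      (∀ z, ‖z‖ = 1 → Tendsto (fun n => m + ((R n).eval z).re) atTop
        (𝓝 (if z.re < Real.cos (π - π * m) then 1 else 0))) := by
  set κ := Real.cos (π - π * m) with hκ
  let s0 : ℕ → ℂ → ℝ := fun n z => min 1 (max 0 ((κ - z.re) * n))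
  have hs0c : ∀ n, Continuous (s0 n) := fun n => by simp only [s0]; fun_prop
  have hs0b : ∀ n z, 0 ≤ s0 n z ∧ s0 n z ≤ 1 := fun n z =>
    ⟨le_min zero_le_one (le_max_left _ _), min_le_left _ _⟩
  have hs0l : ∀ z, Tendsto (fun n => s0 n z) atTop (𝓝 (if z.re < κ then 1 else 0)) := by
    intro z
    split_ifs with hz
    · have : ∀ᶠ n : ℕ in atTop, s0 n z = 1 := by
        obtain ⟨N, hN⟩ := exists_nat_gt (1 / (κ - z.re))
        filter_upwards [eventually_ge_atTop N] with n hn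
        have h3 : 0 < κ - z.re := by linarith
        have h4 : 1 / (κ - z.re) < n := hN.trans_le (by exact_mod_cast hn)
        rw [div_lt_iff₀ h3] at h4
        apply min_eq_left
        exact le_max_of_le_right (by linarith)
      exact (tendsto_congr' this).mpr tendsto_const_nhds
    · have : ∀ n : ℕ, s0 n z = 0 := by
        intro n
        simp only [s0]
        rw [max_eq_left, min_eq_right zero_le_one]
        have : κ - z.re ≤ 0 := by push Not at hz; linarith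
        exact mul_nonpos_of_nonpos_of_nonneg this (Nat.cast_nonneg n)
      simp only [this]
      exact tendsto_const_nhds
  have hP : ∀ n : ℕ, ∃ P : ℂ[X], ∀ z : ℂ, ‖z‖ = 1 → |s0 n z - (P.eval z).re| ≤ 1 / ((n : ℝ) + 1) :=
    fun n => trig_dense (s0 n) (hs0c n) _ (by positivity)
  choose P hP using hP
  have hle : ∀ n : ℕ, 1 / ((n : ℝ) + 1) ≤ 1 := fun n => by
    rw [div_le_one (by positivity)]
    have : (0 : ℝ) ≤ n := Nat.cast_nonneg n
    linarith
  have hPl : ∀ z, ‖z‖ = 1 → Tendsto (fun n => ((P n).eval z).re) atTop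
      (𝓝 (if z.re < κ then 1 else 0)) := by
    intro z hz
    have h5 : Tendsto (fun n => s0 n z - ((P n).eval z).re) atTop (𝓝 0) :=
      squeeze_zero_norm (fun n => hP n z hz) tendsto_one_div_add_atTop_nhds_zero_nat
    have h6 := (hs0l z).sub h5
    simpa using h6
  have hPb : ∀ n z, ‖z‖ = 1 → |((P n).eval z).re| ≤ 2 := by
    intro n z hz
    have h7 := (hP n z hz).trans (hle n)
    have h8 := hs0b n z
    rw [abs_le] at h7 ⊢
    constructor <;> linarith [h7.1, h7.2, h8.1, h8.2]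
  have hPc : ∀ n, Continuous fun z : ℂ => ((P n).eval z).re := fun n =>
    Complex.continuous_re.comp (P n).continuous
  have hP0l : Tendsto (fun n => ((P n).eval 0).re) atTop (𝓝 m) := by
    have h9 := avg_tendsto (fun n z => ((P n).eval z).re) (fun z => if z.re < κ then 1 else 0) 2
      hPc hPb hPl
    rw [avg_two m h0 h1] at h9
    simpa [avg_poly] using h9
  have hP0b : ∀ n, |((P n).eval 0).re| ≤ 2 := by
    intro n
    rw [← avg_poly (P n) 1]
    have h10 : |circleAverage (fun z => ((P n).eval z).re) 0 1| ≤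
        circleAverage |fun z => ((P n).eval z).re| 0 1 := abs_circleAverage_le_circleAverage_abs
    refine h10.trans ?_
    apply circleAverage_mono_on_of_le_circle
    · exact (hPc n).abs.continuousOn.circleIntegrable (by norm_num)
    · intro z hz
      exact hPb n z (by simpa using hz)
  refine ⟨fun n => P n - C ((P n).eval 0) , fun n => by simp, fun n z hz => ?_, fun z hz => ?_⟩
  · simp only [eval_sub, eval_C, sub_re]
    have h11 := hPb n z hz
    have h12 := hP0b n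
    rw [abs_le] at h11 h12 ⊢
    constructor <;> linarith [h11.1, h11.2, h12.1, h12.2]
  · simp only [eval_sub, eval_C, sub_re]
    have h13 := ((hPl z hz).sub hP0l).const_add m
    refine (h13.congr fun n => rfl).trans (le_of_eq ?_)
    congr 1
    ring

/-- One step of the ideal martingale, acting on test functions. -/
def T (a m : ℝ) (Φ : ℝ × ℝ × ℝ → ℝ) : ℝ × ℝ × ℝ → ℝ := fun q =>
  m * Φ (q.1 + a * q.2.2 * (1 - m), q.2.1, q.2.2) + (1 - m) * Φ (q.1 - a * q.2.2 * m, q.2.1, 0)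

theorem T_cont (a m : ℝ) (Φ : ℝ × ℝ × ℝ → ℝ) (h : Continuous Φ) : Continuous (T a m Φ) := by
  unfold T
  apply Continuous.add
  · apply Continuous.mul continuous_const
    apply h.comp
    fun_prop
  · apply Continuous.mul continuous_const
    apply h.comp
    fun_prop

theorem step_limit (Φ : ℝ × ℝ × ℝ → ℝ) (hΦ : Continuous Φ) (f g c : ℂ → ℝ) (hf : Continuous f)
    (hg : Continuous g) (hc : Continuous c) (a m : ℝ) (h0 : 0 ≤ m) (h1 : m ≤ 1) (s : ℕ → ℂ → ℝ)
    (hs : ∀ n, Continuous (s n)) (hsb : ∀ n z, ‖z‖ = 1 → |s n z| ≤ 5)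
    (hsl : ∀ z, ‖z‖ = 1 → Tendsto (fun n => s n z) atTop
        (𝓝 (if z.re < Real.cos (π - π * m) then 1 else 0))) :
    Tendsto (fun n => circleAverage (fun z => circleAverage (fun w =>
      Φ (f z + a * c z * (s n w - m), g z, c z * s n w)) 0 1) 0 1) atTop
      (𝓝 (circleAverage (fun z => T a m Φ (f z, g z, c z)) 0 1)) := by
  obtain ⟨C, hC⟩ : ∃ C : ℝ, ∀ z : ℂ, ‖z‖ = 1 → ∀ t : ℝ, |t| ≤ 5 →
      |Φ (f z + a * c z * (t - m), g z, c z * t)| ≤ C := by
    have hK : IsCompact (sphere (0 : ℂ) 1 ×ˢ Set.Icc (-5 : ℝ) 5) :=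
      (isCompact_sphere _ _).prod isCompact_Icc
    have hcont : Continuous (fun q : ℂ × ℝ => Φ (f q.1 + a * c q.1 * (q.2 - m), g q.1, c q.1 * q.2)) := by
      apply hΦ.comp
      fun_prop
    obtain ⟨C, hC⟩ := hK.exists_bound_of_continuousOn hcont.continuousOn
    refine ⟨C, fun z hz t ht => ?_⟩
    exact hC (z, t) ⟨by simpa using hz, by rwa [Set.mem_Icc, ← abs_le]⟩
  have hjc : ∀ n, Continuous (fun q : ℂ × ℂ =>
      Φ (f q.1 + a * c q.1 * (s n q.2 - m), g q.1, c q.1 * s n q.2)) := by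
    intro n
    have := hs n
    apply hΦ.comp
    fun_prop
  apply avg_tendsto _ _ C
  · intro n
    simp only [circleAverage_def, smul_eq_mul]
    refine Continuous.mul continuous_const ?_
    apply intervalIntegral.continuous_parametric_intervalIntegral_of_continuous'
    exact (hjc n).comp (continuous_fst.prodMk (cm_cont.comp continuous_snd))
  · intro n z hz
    have h10 : |circleAverage (fun w => Φ (f z + a * c z * (s n w - m), g z, c z * s n w)) 0 1| ≤
        circleAverage |fun w => Φ (f z + a * c z * (s n w - m), g z, c z * s n w)| 0 1 :=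
      abs_circleAverage_le_circleAverage_abs
    refine h10.trans ?_
    apply circleAverage_mono_on_of_le_circle
    · have : Continuous (fun w => Φ (f z + a * c z * (s n w - m), g z, c z * s n w)) :=
        (hjc n).comp (continuous_const.prodMk continuous_id)
      exact this.abs.continuousOn.circleIntegrable (by norm_num)
    · intro w hw
      exact hC z hz _ (hsb n w (by simpa using hw))
  · intro z hz
    have h2 := avg_two m h0 h1 (Φ (f z + a * c z * (1 - m), g z, c z * 1))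
      (Φ (f z + a * c z * (0 - m), g z, c z * 0))
    have h3 : T a m Φ (f z, g z, c z) = circleAverage (fun w : ℂ => if w.re < Real.cos (π - π * m) then
        (Φ (f z + a * c z * (1 - m), g z, c z * 1)) else
      (Φ (f z + a * c z * (0 - m), g z, c z * 0))) 0 1 := by
      rw [h2]
      simp only [T, mul_one, mul_zero, zero_sub]
      ring_nf
    rw [h3]
    apply avg_tendsto _ _ C
    · intro n
      exact (hjc n).comp (continuous_const.prodMk continuous_id)
    · intro n w hw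
      exact hC z hz _ (hsb n w hw)
    · intro w hw
      have h4 := hsl w hw
      have h5 : Continuous fun t : ℝ => Φ (f z + a * c z * (t - m), g z, c z * t) := by
        apply hΦ.comp
        fun_prop
      have h6 := (h5.tendsto (if w.re < Real.cos (π - π * m) then 1 else 0)).comp h4
      split_ifs at h6 ⊢ with hw2
      · exact h6
      · exact h6

theorem step_dist (Φ₁ Φ₂ : ℝ × ℝ × ℝ → ℝ) (hΦ₁ : Continuous Φ₁) (hΦ₂ : Continuous Φ₂)
    (f g c : ℂ → ℝ) (hf : Continuous f) (hg : Continuous g) (hc : Continuous c) (a m : ℝ)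
    (h0 : 0 ≤ m) (h1 : m ≤ 1) (δ : ℝ) (hδ : 0 < δ) :
    ∃ R : ℂ[X], R.eval 0 = 0 ∧ ∃ N0 : ℕ, ∀ N : ℕ, N0 ≤ N →
      |circleAverage (fun z => Φ₁ (f z + a * c z * (R.eval (z ^ N)).re, g z,
        c z * (m + (R.eval (z ^ N)).re))) 0 1 -
        circleAverage (fun z => T a m Φ₁ (f z, g z, c z)) 0 1| ≤ δ ∧
      |circleAverage (fun z => Φ₂ (f z + a * c z * (R.eval (z ^ N)).re, g z,
        c z * (m + (R.eval (z ^ N)).re))) 0 1 -
        circleAverage (fun z => T a m Φ₂ (f z, g z, c z)) 0 1| ≤ δ := by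
  obtain ⟨R, hR0, hRb, hRl⟩ := bernoulli m h0 h1
  have hRc : ∀ n, Continuous (fun w : ℂ => m + ((R n).eval w).re) := fun n =>
    continuous_const.add (Complex.continuous_re.comp (R n).continuous)
  have L₁ := step_limit Φ₁ hΦ₁ f g c hf hg hc a m h0 h1 _ hRc hRb hRl
  have L₂ := step_limit Φ₂ hΦ₂ f g c hf hg hc a m h0 h1 _ hRc hRb hRl
  rw [Metric.tendsto_atTop] at L₁ L₂
  obtain ⟨n₁, hn₁⟩ := L₁ (δ / 2) (by positivity)
  obtain ⟨n₂, hn₂⟩ := L₂ (δ / 2) (by positivity)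
  set n := max n₁ n₂ with hn
  have k₁ := hn₁ n (le_max_left _ _)
  have k₂ := hn₂ n (le_max_right _ _)
  rw [Real.dist_eq] at k₁ k₂
  simp only [add_sub_cancel_left] at k₁ k₂
  have hcc : ∀ Φ : ℝ × ℝ × ℝ → ℝ, Continuous Φ → Continuous (fun q : ℂ × ℂ =>
      Φ (f q.1 + a * c q.1 * ((R n).eval q.2).re, g q.1, c q.1 * (m + ((R n).eval q.2).re))) := by
    intro Φ hΦ
    have h7 : Continuous (fun q : ℂ × ℂ => ((R n).eval q.2).re) :=
      Complex.continuous_re.comp ((R n).continuous.comp continuous_snd)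
    apply hΦ.comp
    fun_prop
  obtain ⟨M₁, hM₁⟩ := fejer (fun z w => Φ₁ (f z + a * c z * ((R n).eval w).re, g z,
    c z * (m + ((R n).eval w).re))) (hcc Φ₁ hΦ₁) (δ / 2) (by positivity)
  obtain ⟨M₂, hM₂⟩ := fejer (fun z w => Φ₂ (f z + a * c z * ((R n).eval w).re, g z,
    c z * (m + ((R n).eval w).re))) (hcc Φ₂ hΦ₂) (δ / 2) (by positivity)
  refine ⟨R n, hR0 n, max M₁ M₂, fun N hN => ⟨?_, ?_⟩⟩
  · have e1 := hM₁ N (le_trans (le_max_left _ _) hN)
    calc _ ≤ _ := abs_sub_le _ _ _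
      _ ≤ δ / 2 + δ / 2 := add_le_add e1 k₁.le
      _ = δ := by ring
  · have e1 := hM₂ N (le_trans (le_max_right _ _) hN)
    calc _ ≤ _ := abs_sub_le _ _ _
      _ ≤ δ / 2 + δ / 2 := add_le_add e1 k₂.le
      _ = δ := by ring

/-- Functions that are Laurent polynomials on the circle. -/
def Tr (c : ℂ → ℂ) : Prop := ∃ (L : ℕ) (χ : ℂ[X]), ∀ z : ℂ, ‖z‖ = 1 → c z * z ^ L = χ.eval z

theorem Tr.mul {c d : ℂ → ℂ} (hc : Tr c) (hd : Tr d) : Tr (fun z => c z * d z) := by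
  obtain ⟨L, χ, h⟩ := hc
  obtain ⟨L', χ', h'⟩ := hd
  refine ⟨L + L', χ * χ', fun z hz => ?_⟩
  rw [eval_mul, ← h z hz, ← h' z hz, pow_add]; ring

theorem Tr.add {c d : ℂ → ℂ} (hc : Tr c) (hd : Tr d) : Tr (fun z => c z + d z) := by
  obtain ⟨L, χ, h⟩ := hc
  obtain ⟨L', χ', h'⟩ := hd
  refine ⟨L + L', χ * X ^ L' + χ' * X ^ L, fun z hz => ?_⟩
  rw [eval_add, eval_mul, eval_mul, ← h z hz, ← h' z hz, pow_add]; simp; ring

theorem Tr.comp_pow {c : ℂ → ℂ} (hc : Tr c) (N : ℕ) : Tr (fun z => c (z ^ N)) := by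
  obtain ⟨L, χ, h⟩ := hc
  refine ⟨N * L, χ.comp (X ^ N), fun z hz => ?_⟩
  rw [eval_comp, eval_pow, eval_X, ← h (z ^ N) (by simp [hz]), pow_mul]

theorem Tr.poly (R : ℂ[X]) : Tr (fun z => R.eval z) := ⟨0, R, fun z _ => by simp⟩

theorem Tr.conj (R : ℂ[X]) : Tr (fun z => conj (R.eval z)) := by
  induction R using Polynomial.induction_on' with
  | add p q hp hq => simpa using hp.add hq
  | monomial n a =>
    refine ⟨n, C (starRingEnd ℂ a), fun z hz => ?_⟩
    simp only [eval_monomial, map_mul, map_pow, eval_C]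
    rw [mul_assoc, ← mul_pow, mul_comm (starRingEnd ℂ z), Complex.mul_conj, Complex.normSq_eq_norm_sq, hz]
    simp

theorem Tr.re (m : ℝ) (R : ℂ[X]) : Tr (fun z => ((m + (R.eval z).re : ℝ) : ℂ)) := by
  have h := (Tr.poly (C (m : ℂ))).add ((Tr.poly (C (1 / 2))).mul ((Tr.poly R).add (Tr.conj R)))
  convert h using 2 with z
  push_cast
  rw [Complex.re_eq_add_conj]
  simp; ring

/-- The states of the construction. -/
def Good (η : ℝ) (P Q : ℂ[X]) (c : ℂ → ℝ) : Prop :=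
  Continuous c ∧ Tr (fun z => (c z : ℂ)) ∧ ∃ (l : ℕ) (W : Fin l → ℂ[X]),
    (∀ z : ℂ, ‖z‖ ≤ 1 → 4 * (‖P.derivative.eval z‖ * ‖Q.derivative.eval z‖) ≤
      ∑ j, ‖(W j).derivative.eval z‖ ^ 2) ∧
    (∀ z : ℂ, ‖z‖ ≤ 1 → ∑ j, ‖(W j).eval z‖ ^ 2 ≤ η)

/-- Mean of a test function over the circle in a given state. -/
noncomputable def Ev (Φ : ℝ × ℝ × ℝ → ℝ) (P Q : ℂ[X]) (c : ℂ → ℝ) : ℝ :=
  circleAverage (fun z => Φ ((P.eval z).re, (Q.eval z).re, c z)) 0 1

theorem poly_bound (R : ℂ[X]) : ∃ B : ℝ, 0 ≤ B ∧ ∀ z : ℂ, ‖z‖ ≤ 1 → ‖R.eval z‖ ≤ B := by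
  obtain ⟨B, hB⟩ := (isCompact_closedBall (0 : ℂ) 1).exists_bound_of_continuousOn
    R.continuous.continuousOn
  refine ⟨max B 0, le_max_right _ _, fun z hz => (hB z (by simpa using hz)).trans (le_max_left _ _)⟩

/-- The new high frequency term has derivative of the right size. -/
theorem deriv_bound (χ R₁ : ℂ[X]) (a : ℝ) (L : ℕ) : ∃ B : ℝ, 0 ≤ B ∧ ∀ M : ℕ, 1 ≤ M →
    ∀ z : ℂ, ‖z‖ ≤ 1 →
      ‖(C (a : ℂ) * χ * X ^ (2 * M) * R₁.comp (X ^ (2 * M + L))).derivative.eval z‖ ≤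
        B * M * ‖z‖ ^ (2 * M - 2) := by
  obtain ⟨B₁, h₁, hB₁⟩ := poly_bound χ
  obtain ⟨B₂, h₂, hB₂⟩ := poly_bound χ.derivative
  obtain ⟨B₃, h₃, hB₃⟩ := poly_bound R₁
  obtain ⟨B₄, h₄, hB₄⟩ := poly_bound R₁.derivative
  refine ⟨|a| * (B₂ * B₃ + 2 * B₁ * B₃ + B₁ * B₄ * (2 + L)), by positivity, fun M hM z hz => ?_⟩
  have hder : (C (a : ℂ) * χ * X ^ (2 * M) * R₁.comp (X ^ (2 * M + L))).derivative.eval z =
      (a : ℂ) * (χ.derivative.eval z * z ^ (2 * M) * R₁.eval (z ^ (2 * M + L)) +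
        χ.eval z * ((2 * M : ℕ) * z ^ (2 * M - 1)) * R₁.eval (z ^ (2 * M + L)) +
        χ.eval z * z ^ (2 * M) * (R₁.derivative.eval (z ^ (2 * M + L)) *
          ((2 * M + L : ℕ) * z ^ (2 * M + L - 1)))) := by
    simp only [derivative_mul, derivative_C, derivative_X_pow, derivative_comp, eval_add, eval_mul,
      eval_C, eval_pow, eval_X, eval_comp, zero_mul, zero_add]
    simp
    ring
  have hz0 := norm_nonneg z
  have hzN : ‖z ^ (2 * M + L)‖ ≤ 1 := by rw [norm_pow]; exact pow_le_one₀ hz0 hz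
  have hp : ∀ k, 2 * M - 2 ≤ k → ‖z‖ ^ k ≤ ‖z‖ ^ (2 * M - 2) := fun k hk =>
    pow_le_pow_of_le_one hz0 hz hk
  have hM1 : (1 : ℝ) ≤ M := by exact_mod_cast hM
  have hL0 : (0 : ℝ) ≤ L := Nat.cast_nonneg L
  set t := ‖z‖ ^ (2 * M - 2) with ht
  have ht0 : 0 ≤ t := by positivity
  have q1 : ‖z‖ ^ (2 * M) ≤ t := hp _ (by omega)
  have q2 : ‖z‖ ^ (2 * M - 1) ≤ t := hp _ (by omega)
  have q3 : ‖z‖ ^ (2 * M + L - 1) ≤ 1 := pow_le_one₀ hz0 hz
  rw [hder, norm_mul, Complex.norm_real, Real.norm_eq_abs]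
  have k1 : ‖χ.derivative.eval z * z ^ (2 * M) * R₁.eval (z ^ (2 * M + L))‖ ≤ B₂ * B₃ * (M * t) := by
    rw [norm_mul, norm_mul, norm_pow]
    calc _ ≤ B₂ * t * B₃ := by
          gcongr
          · exact hB₂ z hz
          · exact hB₃ _ hzN
      _ = B₂ * B₃ * (1 * t) := by ring
      _ ≤ _ := by gcongr
  have k2 : ‖χ.eval z * ((2 * M : ℕ) * z ^ (2 * M - 1)) * R₁.eval (z ^ (2 * M + L))‖ ≤
      2 * B₁ * B₃ * (M * t) := by
    rw [norm_mul, norm_mul, norm_mul, norm_pow, Complex.norm_natCast]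
    push_cast
    calc _ ≤ B₁ * (2 * M * t) * B₃ := by
          gcongr
          · exact hB₁ z hz
          · exact hB₃ _ hzN
      _ = _ := by ring
  have k3 : ‖χ.eval z * z ^ (2 * M) * (R₁.derivative.eval (z ^ (2 * M + L)) *
          ((2 * M + L : ℕ) * z ^ (2 * M + L - 1)))‖ ≤ B₁ * B₄ * (2 + L) * (M * t) := by
    rw [norm_mul, norm_mul, norm_mul, norm_mul, norm_pow, norm_pow, Complex.norm_natCast]
    push_cast
    calc _ ≤ B₁ * t * (B₄ * ((2 * M + L * M) * 1)) := by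
          gcongr
          · exact hB₁ z hz
          · exact hB₄ _ hzN
          · nlinarith
      _ = _ := by ring
  calc _ ≤ |a| * (B₂ * B₃ * (M * t) + 2 * B₁ * B₃ * (M * t) + B₁ * B₄ * (2 + L) * (M * t)) := by
        gcongr
        exact (norm_add₃_le).trans (add_le_add (add_le_add k1 k2) k3)
    _ = _ := by ring

theorem Good.mono {η η' : ℝ} {P Q : ℂ[X]} {c : ℂ → ℝ} (h : Good η P Q c) (hη : η ≤ η') :
    Good η' P Q c := by
  obtain ⟨h1, h2, l, W, h3, h4⟩ := h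
  exact ⟨h1, h2, l, W, h3, fun z hz => (h4 z hz).trans hη⟩

theorem Good.swap {η : ℝ} {P Q : ℂ[X]} {c : ℂ → ℝ} (h : Good η P Q c) : Good η Q P c := by
  obtain ⟨h1, h2, l, W, h3, h4⟩ := h
  exact ⟨h1, h2, l, W, fun z hz => by rw [mul_comm ‖_‖]; exact h3 z hz, h4⟩

theorem good_step (η η' : ℝ) (hη : η < η') (P Q : ℂ[X]) (c : ℂ → ℝ) (hG : Good η P Q c)
    (a m : ℝ) (h0 : 0 ≤ m) (h1 : m ≤ 1) (Φ₁ Φ₂ : ℝ × ℝ × ℝ → ℝ) (hΦ₁ : Continuous Φ₁)
    (hΦ₂ : Continuous Φ₂) (δ : ℝ) (hδ : 0 < δ) :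
    ∃ (P' : ℂ[X]) (c' : ℂ → ℝ), Good η' P' Q c' ∧ P'.eval 0 = P.eval 0 ∧
      |Ev Φ₁ P' Q c' - Ev (T a m Φ₁) P Q c| ≤ δ ∧ |Ev Φ₂ P' Q c' - Ev (T a m Φ₂) P Q c| ≤ δ := by
  obtain ⟨hc, hTr, l, W, hdom, hsm⟩ := hG
  have hre : ∀ P : ℂ[X], Continuous fun z : ℂ => (P.eval z).re := fun P =>
    Complex.continuous_re.comp P.continuous
  obtain ⟨R, hR0, N0, hN0⟩ := step_dist Φ₁ Φ₂ hΦ₁ hΦ₂ (fun z => (P.eval z).re)
    (fun z => (Q.eval z).re) c (hre P) (hre Q) hc a m h0 h1 δ hδ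
  obtain ⟨R₁, hR₁⟩ : X ∣ R := by rwa [X_dvd_iff, coeff_zero_eq_eval_zero]
  obtain ⟨L, χ, hχ⟩ := id hTr
  obtain ⟨B, hB0, hB⟩ := deriv_bound χ R₁ a L
  obtain ⟨BQ, hBQ0, hBQ⟩ := poly_bound Q.derivative
  have hηpos : 0 < η' - η := by linarith
  obtain ⟨M0, hM0⟩ := exists_nat_gt (4 * B * BQ / (η' - η))
  set M := max (max M0 N0) 1 with hM
  have hM1 : 1 ≤ M := le_max_right _ _
  have hMM0 : M0 ≤ M := (le_max_left _ _).trans (le_max_left _ _)
  have hMN0 : N0 ≤ M := (le_max_right _ _).trans (le_max_left _ _)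
  set D : ℂ[X] := C (a : ℂ) * χ * X ^ (2 * M) * R₁.comp (X ^ (2 * M + L)) with hD
  have hDc : ∀ z : ℂ, ‖z‖ = 1 → (D.eval z).re = a * c z * (R.eval (z ^ (2 * M + L))).re := by
    intro z hz
    have e1 : D.eval z = ((a * c z : ℝ) : ℂ) * R.eval (z ^ (2 * M + L)) := by
      rw [hD, hR₁]
      simp only [eval_mul, eval_C, eval_pow, eval_X, eval_comp]
      rw [← hχ z hz]
      push_cast
      ring
    rw [e1, Complex.re_ofReal_mul]
  have hD0 : D.eval 0 = 0 := by
    rw [hD]; simp only [eval_mul, eval_pow, eval_X]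
    rw [zero_pow (by omega)]; ring
  set c' : ℂ → ℝ := fun z => c z * (m + (R.eval (z ^ (2 * M + L))).re) with hc'
  set e : ℝ := Real.sqrt (η' - η) with he
  have he2 : e ^ 2 = η' - η := Real.sq_sqrt hηpos.le
  refine ⟨P + D, c', ⟨?_, ?_, l + 1, Fin.cons (C (e : ℂ) * X ^ M) W, ?_, ?_⟩, by simp [hD0], ?_, ?_⟩
  · have := (hre R).comp (continuous_pow (2 * M + L) : Continuous fun z : ℂ => z ^ (2 * M + L))
    have h2 : Continuous fun z : ℂ => (R.eval (z ^ (2 * M + L))).re := this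
    fun_prop
  · have h3 := hTr.mul ((Tr.re m R).comp_pow (2 * M + L))
    simpa [hc'] using h3
  · intro z hz
    rw [Fin.sum_univ_succ]
    simp only [Fin.cons_zero, Fin.cons_succ]
    have g1 : ‖(C (e : ℂ) * X ^ M).derivative.eval z‖ ^ 2 = (η' - η) * M ^ 2 * ‖z‖ ^ (2 * M - 2) := by
      simp only [derivative_mul, derivative_C, derivative_X_pow, eval_mul, eval_C,
        eval_pow, eval_X, zero_mul, zero_add]
      rw [norm_mul, norm_mul, norm_pow, Complex.norm_real, Real.norm_eq_abs, Complex.norm_natCast,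
        mul_pow, mul_pow, sq_abs, he2, ← pow_mul]
      have : (M - 1) * 2 = 2 * M - 2 := by omega
      rw [this]; ring
    have g2 := hB M hM1 z hz
    have g3 := hBQ z hz
    have g4 : 4 * (‖D.derivative.eval z‖ * ‖Q.derivative.eval z‖) ≤
        (η' - η) * M ^ 2 * ‖z‖ ^ (2 * M - 2) := by
      have hMpos : (1 : ℝ) ≤ M := by exact_mod_cast hM1
      have h5 : 4 * B * BQ ≤ (η' - η) * M := by
        have h6 : 4 * B * BQ / (η' - η) < M := hM0.trans_le (by exact_mod_cast hMM0)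
        rw [div_lt_iff₀ hηpos] at h6
        linarith
      calc _ ≤ 4 * ((B * M * ‖z‖ ^ (2 * M - 2)) * BQ) := by gcongr
        _ = (4 * B * BQ) * (M * ‖z‖ ^ (2 * M - 2)) := by ring
        _ ≤ ((η' - η) * M) * (M * ‖z‖ ^ (2 * M - 2)) := by gcongr
        _ = _ := by ring
    have g5 := hdom z hz
    rw [g1, derivative_add, eval_add]
    calc _ ≤ 4 * ((‖P.derivative.eval z‖ + ‖D.derivative.eval z‖) * ‖Q.derivative.eval z‖) := by
          gcongr
          exact norm_add_le _ _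
      _ = 4 * (‖D.derivative.eval z‖ * ‖Q.derivative.eval z‖) +
          4 * (‖P.derivative.eval z‖ * ‖Q.derivative.eval z‖) := by ring
      _ ≤ _ := add_le_add g4 g5
  · intro z hz
    rw [Fin.sum_univ_succ]
    simp only [Fin.cons_zero, Fin.cons_succ]
    have g6 : ‖(C (e : ℂ) * X ^ M).eval z‖ ^ 2 ≤ η' - η := by
      simp only [eval_mul, eval_C, eval_pow, eval_X]
      rw [norm_mul, norm_pow, Complex.norm_real, Real.norm_eq_abs, mul_pow, sq_abs, he2, ← pow_mul]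
      have : ‖z‖ ^ (M * 2) ≤ 1 := pow_le_one₀ (norm_nonneg _) hz
      nlinarith
    have := hsm z hz
    linarith
  · have h7 := (hN0 (2 * M + L) (by omega)).1
    convert h7 using 3
    · unfold Ev
      apply circleAverage_congr_sphere
      intro z hz
      have hz1 : ‖z‖ = 1 := by simpa using hz
      simp only [eval_add, add_re, hDc z hz1, hc']
    · rfl
  · have h7 := (hN0 (2 * M + L) (by omega)).2
    convert h7 using 3
    · unfold Ev
      apply circleAverage_congr_sphere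
      intro z hz
      have hz1 : ‖z‖ = 1 := by simpa using hz
      simp only [eval_add, add_re, hDc z hz1, hc']
    · rfl

/-- Exchange of the two coordinates. -/
def sw (q : ℝ × ℝ × ℝ) : ℝ × ℝ × ℝ := (q.2.1, q.1, q.2.2)

theorem sw_cont : Continuous sw := by unfold sw; fun_prop

/-- A step moving the first (true) or the second (false) coordinate. -/
def TT (s : Bool × ℝ × ℝ) (Φ : ℝ × ℝ × ℝ → ℝ) : ℝ × ℝ × ℝ → ℝ :=
  if s.1 = true then T s.2.1 s.2.2 Φ else fun q => T s.2.1 s.2.2 (fun r => Φ (sw r)) (sw q)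

/-- A list of steps. -/
def TL : List (Bool × ℝ × ℝ) → (ℝ × ℝ × ℝ → ℝ) → (ℝ × ℝ × ℝ → ℝ)
  | [], Φ => Φ
  | s :: r, Φ => TT s (TL r Φ)

theorem TT_cont (s : Bool × ℝ × ℝ) (Φ : ℝ × ℝ × ℝ → ℝ) (h : Continuous Φ) : Continuous (TT s Φ) := by
  unfold TT
  split_ifs
  · exact T_cont _ _ _ h
  · exact (T_cont _ _ _ (h.comp sw_cont)).comp sw_cont

theorem TL_cont (r : List (Bool × ℝ × ℝ)) (Φ : ℝ × ℝ × ℝ → ℝ) (h : Continuous Φ) :
    Continuous (TL r Φ) := by
  induction r with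
  | nil => exact h
  | cons s r ih => exact TT_cont _ _ ih

theorem good_TT (η η' : ℝ) (hη : η < η') (P Q : ℂ[X]) (c : ℂ → ℝ) (hG : Good η P Q c)
    (s : Bool × ℝ × ℝ) (h0 : 0 ≤ s.2.2) (h1 : s.2.2 ≤ 1) (Φ₁ Φ₂ : ℝ × ℝ × ℝ → ℝ)
    (hΦ₁ : Continuous Φ₁) (hΦ₂ : Continuous Φ₂) (δ : ℝ) (hδ : 0 < δ) :
    ∃ (P' Q' : ℂ[X]) (c' : ℂ → ℝ), Good η' P' Q' c' ∧ P'.eval 0 = P.eval 0 ∧
      Q'.eval 0 = Q.eval 0 ∧
      |Ev Φ₁ P' Q' c' - Ev (TT s Φ₁) P Q c| ≤ δ ∧ |Ev Φ₂ P' Q' c' - Ev (TT s Φ₂) P Q c| ≤ δ := by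
  unfold TT
  split_ifs with hs
  · obtain ⟨P', c', g1, g2, g3, g4⟩ := good_step η η' hη P Q c hG s.2.1 s.2.2 h0 h1 Φ₁ Φ₂ hΦ₁ hΦ₂ δ hδ
    exact ⟨P', Q, c', g1, g2, rfl, g3, g4⟩
  · obtain ⟨Q', c', g1, g2, g3, g4⟩ := good_step η η' hη Q P c hG.swap s.2.1 s.2.2 h0 h1
      (fun r => Φ₁ (sw r)) (fun r => Φ₂ (sw r)) (hΦ₁.comp sw_cont) (hΦ₂.comp sw_cont) δ hδ
    exact ⟨P, Q', c', g1.swap, rfl, g2, g3, g4⟩

theorem run (r : List (Bool × ℝ × ℝ)) (Φ₁ Φ₂ : ℝ × ℝ × ℝ → ℝ)
    (hΦ₁ : Continuous Φ₁) (hΦ₂ : Continuous Φ₂) :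
    (∀ s ∈ r, 0 ≤ s.2.2 ∧ s.2.2 ≤ 1) → ∀ (η η' : ℝ), η < η' → ∀ (P Q : ℂ[X]) (c : ℂ → ℝ),
    Good η P Q c → ∀ δ : ℝ, 0 < δ →
    ∃ (P' Q' : ℂ[X]) (c' : ℂ → ℝ), Good η' P' Q' c' ∧ P'.eval 0 = P.eval 0 ∧
      Q'.eval 0 = Q.eval 0 ∧
      |Ev Φ₁ P' Q' c' - Ev (TL r Φ₁) P Q c| ≤ δ ∧ |Ev Φ₂ P' Q' c' - Ev (TL r Φ₂) P Q c| ≤ δ := by
  induction r with
  | nil =>
    intro _ η η' hη P Q c hG δ hδ
    exact ⟨P, Q, c, hG.mono hη.le, rfl, rfl, by simp [TL, hδ.le], by simp [TL, hδ.le]⟩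
  | cons s r ih =>
    intro hv η η' hη P Q c hG δ hδ
    obtain ⟨P₁, Q₁, c₁, g1, g2, g3, g4, g5⟩ := good_TT η ((η + η') / 2) (by linarith) P Q c hG s
      (hv s (by simp)).1 (hv s (by simp)).2 (TL r Φ₁) (TL r Φ₂) (TL_cont r Φ₁ hΦ₁)
      (TL_cont r Φ₂ hΦ₂) (δ / 2) (by positivity)
    obtain ⟨P₂, Q₂, c₂, k1, k2, k3, k4, k5⟩ := ih (fun t ht => hv t (by simp [ht]))
      ((η + η') / 2) η' (by linarith) P₁ Q₁ c₁ g1 (δ / 2) (by positivity)
    refine ⟨P₂, Q₂, c₂, k1, k2.trans g2, k3.trans g3, ?_, ?_⟩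
    · calc _ ≤ _ := abs_sub_le _ _ _
        _ ≤ δ / 2 + δ / 2 := add_le_add k4 g4
        _ = δ := by ring
    · calc _ ≤ _ := abs_sub_le _ _ _
        _ ≤ δ / 2 + δ / 2 := add_le_add k5 g5
        _ = δ := by ring

theorem TL_zero (r : List (Bool × ℝ × ℝ)) (Φ : ℝ × ℝ × ℝ → ℝ) (f g : ℝ) :
    TL r Φ (f, g, 0) = Φ (f, g, 0) := by
  induction r with
  | nil => rfl
  | cons s r ih =>
    simp only [TL, TT]
    split_ifs
    · simp only [T, mul_zero, zero_mul, add_zero, sub_zero, ih]; ring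
    · simp only [T, sw, mul_zero, zero_mul, add_zero, sub_zero, ih]; ring

theorem TL_true (r : List (Bool × ℝ × ℝ)) (Φ : ℝ × ℝ × ℝ → ℝ) (f g a m : ℝ) :
    TL ((true, a, m) :: r) Φ (f, g, 1) =
      m * TL r Φ (f + a * (1 - m), g, 1) + (1 - m) * Φ (f - a * m, g, 0) := by
  simp only [TL, TT, T, if_true, mul_one, TL_zero]

theorem TL_false (r : List (Bool × ℝ × ℝ)) (Φ : ℝ × ℝ × ℝ → ℝ) (f g a m : ℝ) :
    TL ((false, a, m) :: r) Φ (f, g, 1) =
      m * TL r Φ (f, g + a * (1 - m), 1) + (1 - m) * Φ (f, g - a * m, 0) := by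
  simp [TL, TT, T, sw, TL_zero]

theorem TL_tendsto (r : List (Bool × ℝ × ℝ)) (Φ : ℕ → ℝ × ℝ × ℝ → ℝ) (Φ₀ : ℝ × ℝ × ℝ → ℝ)
    (h : ∀ q, Tendsto (fun n => Φ n q) atTop (𝓝 (Φ₀ q))) :
    ∀ q, Tendsto (fun n => TL r (Φ n) q) atTop (𝓝 (TL r Φ₀ q)) := by
  induction r with
  | nil => exact h
  | cons s r ih =>
    intro q
    simp only [TL, TT]
    split_ifs
    · exact ((ih _).const_mul _).add ((ih _).const_mul _)
    · exact ((ih _).const_mul _).add ((ih _).const_mul _)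

/-- The zigzag chain. -/
noncomputable def chain (τ ε p : ℝ) : ℕ → ℝ → List (Bool × ℝ × ℝ)
  | 0, _ => []
  | n + 1, s => (false, -(τ * (s * (ε / 2 + 1 / p))), 1 / (1 + p * ε / 2)) ::
      (true, s * (1 + ε) / p, (1 + ε - p * ε / 2) / (1 + ε)) :: chain τ ε p n (s * (1 + ε))

/-- The values of the chain. -/
noncomputable def gam (ε p w t0 : ℝ) : ℕ → ℝ
  | 0 => t0
  | n + 1 => ((1 - 1 / (1 + p * ε / 2)) + 1 / (1 + p * ε / 2) *
      (1 - (1 + ε - p * ε / 2) / (1 + ε)) * (1 + ε) ^ p) * w +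
      (1 / (1 + p * ε / 2) * ((1 + ε - p * ε / 2) / (1 + ε)) * (1 + ε) ^ p) * gam ε p w t0 n

theorem chain_val (τ ε p w t0 : ℝ) (hε : 0 < ε) (hp : 0 < p) (Φ : ℝ × ℝ × ℝ → ℝ)
    (h1 : ∀ s : ℝ, 0 < s → Φ (s / 2, -(τ * (s / 2)), 1) = s ^ p * t0)
    (h2 : ∀ s : ℝ, 0 < s → Φ (s / 2, τ * (s / p - s / 2), 0) = s ^ p * w)
    (h3 : ∀ s : ℝ, 0 < s → Φ (s / 2 - s / p, -(τ * (s / 2)), 0) = s ^ p * w) (n : ℕ) :
    ∀ s : ℝ, 0 < s → TL (chain τ ε p n s) Φ (s / 2, -(τ * (s / 2)), 1) = s ^ p * gam ε p w t0 n := by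
  induction n with
  | zero => intro s hs; exact h1 s hs
  | succ n ih =>
    intro s hs
    have hs' : 0 < s * (1 + ε) := by positivity
    have hd : (1 + p * ε / 2) ≠ 0 := by positivity
    have hd2 : (1 + ε) ≠ 0 := by positivity
    rw [chain, TL_false, TL_true]
    have e1 : -(τ * (s / 2)) + -(τ * (s * (ε / 2 + 1 / p))) * (1 - 1 / (1 + p * ε / 2)) =
        -(τ * (s * (1 + ε) / 2)) := by field_simp; ring
    have e2 : s / 2 + s * (1 + ε) / p * (1 - (1 + ε - p * ε / 2) / (1 + ε)) =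
        s * (1 + ε) / 2 := by field_simp; ring
    have e3 : -(τ * (s / 2)) - -(τ * (s * (ε / 2 + 1 / p))) * (1 / (1 + p * ε / 2)) =
        τ * (s / p - s / 2) := by field_simp; ring
    have e4 : s / 2 - s * (1 + ε) / p * ((1 + ε - p * ε / 2) / (1 + ε)) =
        s * (1 + ε) / 2 - s * (1 + ε) / p := by field_simp; ring
    rw [e1, e2, e3, e4, ih _ hs', h2 s hs, h3 _ hs', Real.mul_rpow hs.le (by positivity), gam]
    ring

open InnerProductSpace Laplacian in
theorem harm_comp {E E' F : Type*} [NormedAddCommGroup E] [InnerProductSpace ℝ E]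
    [FiniteDimensional ℝ E] [NormedAddCommGroup E'] [InnerProductSpace ℝ E']
    [FiniteDimensional ℝ E'] [NormedAddCommGroup F] [NormedSpace ℝ F] (e : E ≃ₗᵢ[ℝ] E')
    (f : E' → F) (x : E) (h : HarmonicAt f (e x)) : HarmonicAt (fun y => f (e y)) x := by
  have hL : Δ (fun y => f (e y)) = fun y => (Δ f) (e y) := by
    rw [laplacian_eq_iteratedFDeriv_orthonormalBasis (fun y => f (e y)) (stdOrthonormalBasis ℝ E),
      laplacian_eq_iteratedFDeriv_orthonormalBasis f ((stdOrthonormalBasis ℝ E).map e)]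
    funext y
    apply Finset.sum_congr rfl
    intro i _
    have h1 := e.toContinuousLinearEquiv.iteratedFDerivWithin_comp_right f
      (uniqueDiffOn_univ) (x := y) (Set.mem_univ _) 2
    rw [Set.preimage_univ, iteratedFDerivWithin_univ, iteratedFDerivWithin_univ] at h1
    have h2 : (f ∘ ⇑e.toContinuousLinearEquiv) = fun y => f (e y) := rfl
    rw [h2] at h1
    rw [h1]
    simp only [ContinuousMultilinearMap.compContinuousLinearMap_apply]
    congr 1
    funext j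
    fin_cases j <;> simp
  refine ⟨h.1.comp x (e.toContinuousLinearEquiv.contDiff.contDiffAt), ?_⟩
  rw [hL]
  have h3 : Tendsto e (𝓝 x) (𝓝 (e x)) := e.continuous.continuousAt
  exact h3.eventually h.2

theorem poly_pos (R : ℂ[X]) (h : ∀ z : ℂ, ‖z‖ = 1 → 0 ≤ (R.eval z).re) (w : ℂ) (hw : ‖w‖ ≤ 1) :
    0 ≤ (R.eval w).re := by
  have h1 : ‖Complex.exp (-(R.eval w))‖ ≤ 1 := by
    refine Complex.norm_le_of_forall_mem_frontier_norm_le (U := ball (0 : ℂ) 1)
      (f := fun z => Complex.exp (-(R.eval z))) isBounded_ball ?_ ?_ ?_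
    · apply Differentiable.diffContOnCl
      exact Complex.differentiable_exp.comp R.differentiable.neg
    · intro z hz
      rw [frontier_ball _ one_ne_zero] at hz
      have hz1 : ‖z‖ = 1 := by simpa using hz
      rw [Complex.norm_exp, neg_re]
      have := h z hz1
      exact Real.exp_le_one_iff.2 (by linarith)
    · rw [closure_ball _ one_ne_zero]
      simpa using hw
  rw [Complex.norm_exp, neg_re, Real.exp_le_one_iff] at h1
  linarith

/-- The plane as a Euclidean space. -/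
noncomputable def E2 : EuclideanSpace ℝ (Fin 2) ≃ₗᵢ[ℝ] ℂ := Complex.orthonormalBasisOneI.repr.symm

theorem E2_zero : E2 (EuclideanSpace.single 0 1) = 1 := by
  simp [E2]

theorem E2_one : E2 (EuclideanSpace.single 1 1) = I := by
  simp [E2]

/-- Vector valued real parts of polynomials. -/
noncomputable def vp {k : ℕ} (V : Fin k → ℂ[X]) (x : EuclideanSpace ℝ (Fin 2)) :
    EuclideanSpace ℝ (Fin k) := WithLp.toLp 2 (fun j => ((V j).eval (E2 x)).re)

/-- Real parts, as a map to Euclidean space. -/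
noncomputable def LR (k : ℕ) : (Fin k → ℂ) →L[ℝ] EuclideanSpace ℝ (Fin k) :=
  (EuclideanSpace.equiv (Fin k) ℝ).symm.toContinuousLinearMap ∘L
    (ContinuousLinearMap.pi fun j => Complex.reCLM ∘L (ContinuousLinearMap.proj j))

theorem LR_apply (k : ℕ) (w : Fin k → ℂ) : LR k w = WithLp.toLp 2 (fun j => (w j).re) := by
  rfl

theorem vp_harm {k : ℕ} (V : Fin k → ℂ[X]) (x : EuclideanSpace ℝ (Fin 2)) :
    InnerProductSpace.HarmonicAt (vp V) x := by
  have h1 : ContDiffAt ℂ 2 (fun z : ℂ => fun j : Fin k => (V j).eval z) (E2 x) := by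
    rw [contDiffAt_pi]
    intro j
    exact ((V j).differentiable.contDiff (n := 2)).contDiffAt
  have h2 := h1.harmonicAt.comp_CLM (LR k)
  exact harm_comp E2 (LR k ∘ fun z : ℂ => fun j : Fin k => (V j).eval z) x h2

theorem vp_fderiv {k : ℕ} (V : Fin k → ℂ[X]) (x y : EuclideanSpace ℝ (Fin 2)) :
    fderiv ℝ (vp V) x y = WithLp.toLp 2 (fun j => (E2 y * (V j).derivative.eval (E2 x)).re) := by
  have h1 : HasDerivAt (fun z : ℂ => fun j : Fin k => (V j).eval z)
      (fun j => (V j).derivative.eval (E2 x)) (E2 x) := by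
    rw [hasDerivAt_pi]
    intro j
    exact (V j).hasDerivAt _
  have h2 := h1.hasFDerivAt.restrictScalars ℝ
  have h3 := (LR k).hasFDerivAt.comp (E2 x) h2
  have h4 := h3.comp x (E2.toContinuousLinearEquiv.hasFDerivAt)
  have h5 : HasFDerivAt (vp V) _ x := h4
  rw [h5.fderiv]
  simp [LR_apply]

theorem vp_grad {k : ℕ} (V : Fin k → ℂ[X]) (x : EuclideanSpace ℝ (Fin 2)) :
    ∑ i : Fin 2, ‖fderiv ℝ (vp V) x (EuclideanSpace.single i (1 : ℝ))‖ ^ 2 =
      ∑ j, ‖(V j).derivative.eval (E2 x)‖ ^ 2 := by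
  rw [Fin.sum_univ_two, vp_fderiv, vp_fderiv, E2_zero, E2_one, EuclideanSpace.norm_sq_eq,
    EuclideanSpace.norm_sq_eq, ← Finset.sum_add_distrib]
  apply Finset.sum_congr rfl
  intro j _
  simp only [one_mul, Real.norm_eq_abs, sq_abs]
  rw [← Complex.normSq_eq_norm_sq, Complex.normSq_apply]
  simp
  ring

/-- Support functional of the power of the norm. -/
theorem supp {H : Type*} [NormedAddCommGroup H] [InnerProductSpace ℝ H] (p : ℝ) (hp : 1 < p)
    (y x : H) : p * ‖y‖ ^ (p - 2) * inner ℝ y x + (1 - p) * ‖y‖ ^ p ≤ ‖x‖ ^ p := by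
  have hp0 : 0 < p := by linarith
  rcases eq_or_ne y 0 with hy | hy
  · rw [hy]; simp [Real.zero_rpow hp0.ne']; positivity
  · have hr : 0 < ‖y‖ := norm_pos_iff.2 hy
    have hs : -1 ≤ ‖x‖ / ‖y‖ - 1 := by
      have : 0 ≤ ‖x‖ / ‖y‖ := by positivity
      linarith
    have h1 := one_add_mul_self_le_rpow_one_add hs hp.le
    rw [show 1 + (‖x‖ / ‖y‖ - 1) = ‖x‖ / ‖y‖ by ring, Real.div_rpow (norm_nonneg _) hr.le,
      le_div_iff₀ (Real.rpow_pos_of_pos hr p)] at h1
    have h2 : ‖y‖ ^ p = ‖y‖ ^ (p - 2) * ‖y‖ * ‖y‖ := by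
      rw [show p = (p - 2) + 1 + 1 by ring, Real.rpow_add_one hr.ne', Real.rpow_add_one hr.ne']
      ring_nf
    have h3 : inner ℝ y x ≤ ‖y‖ * ‖x‖ := real_inner_le_norm y x
    have h4 : 0 ≤ ‖y‖ ^ (p - 2) := Real.rpow_nonneg hr.le _
    have h5 : p * ‖y‖ ^ (p - 2) * inner ℝ y x ≤ p * ‖y‖ ^ (p - 2) * (‖y‖ * ‖x‖) := by gcongr
    have h6 : (1 + p * (‖x‖ / ‖y‖ - 1)) * ‖y‖ ^ p =
        p * ‖y‖ ^ (p - 2) * (‖y‖ * ‖x‖) + (1 - p) * ‖y‖ ^ p := by
      rw [h2]; field_simp; ring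
    linarith

theorem vp_cont {k : ℕ} (V : Fin k → ℂ[X]) : Continuous (vp V) := by
  rw [continuous_iff_continuousAt]
  intro x
  exact (vp_harm V x).1.continuousAt

theorem re_harm (R : ℂ[X]) (x : EuclideanSpace ℝ (Fin 2)) :
    InnerProductSpace.HarmonicAt (fun x => (R.eval (E2 x)).re) x := by
  have h1 : AnalyticAt ℂ (fun z : ℂ => R.eval z) (E2 x) :=
    R.differentiable.analyticAt _
  exact harm_comp E2 (fun z : ℂ => (R.eval z).re) x h1.harmonicAt_re

/-- A harmonic majorant of the power of the norm. -/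
theorem majorant (p : ℝ) (hp : 1 < p) {k : ℕ} (V : Fin k → ℂ[X]) (δ : ℝ) (hδ : 0 < δ) :
    ∃ R : ℂ[X], (∀ x ∈ ball (0 : EuclideanSpace ℝ (Fin 2)) 1, ‖vp V x‖ ^ p ≤ (R.eval (E2 x)).re) ∧
      (R.eval 0).re ≤ circleAverage (fun z => ‖vp V (E2.symm z)‖ ^ p) 0 1 + 2 * δ := by
  have hp0 : 0 < p := by linarith
  have hφ : Continuous fun z => ‖vp V (E2.symm z)‖ ^ p :=
    (((vp_cont V).comp E2.symm.continuous).norm).rpow_const (fun _ => Or.inr hp0.le)
  obtain ⟨P, hP⟩ := trig_dense _ hφ δ hδ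
  refine ⟨P + C (δ : ℂ), ?_, ?_⟩
  · intro x hx
    set y := vp V x with hy
    set R : ℂ[X] := P + C (δ : ℂ) - (C ((p * ‖y‖ ^ (p - 2) : ℝ) : ℂ) * ∑ j, C ((y j : ℝ) : ℂ) * V j +
      C (((1 - p) * ‖y‖ ^ p : ℝ) : ℂ)) with hR
    have hRe : ∀ z : ℂ, (R.eval z).re = (P.eval z).re + δ -
        (p * ‖y‖ ^ (p - 2) * inner ℝ y (vp V (E2.symm z)) + (1 - p) * ‖y‖ ^ p) := by
      intro z
      have h1 : inner ℝ y (vp V (E2.symm z)) =
          (Polynomial.eval z (∑ j, C ((y j : ℝ) : ℂ) * V j)).re := by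
        rw [eval_finsetSum, Complex.re_sum, PiLp.inner_apply]
        apply Finset.sum_congr rfl
        intro j _
        simp only [eval_mul, eval_C, Complex.re_ofReal_mul]
        simp [vp, mul_comm]
      rw [h1, hR]
      simp only [eval_add, eval_sub, eval_mul, eval_C, Complex.add_re, Complex.sub_re,
        Complex.re_ofReal_mul, Complex.ofReal_re]
    have h2 := poly_pos R (by
      intro z hz
      rw [hRe]
      have h3 := (abs_le.1 (hP z hz)).2
      have h4 := supp p hp y (vp V (E2.symm z))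
      linarith) (E2 x) (by
        rw [E2.norm_map]
        simpa using (mem_ball_zero_iff.1 hx).le)
    rw [hRe, E2.symm_apply_apply, ← hy, real_inner_self_eq_norm_sq] at h2
    have h5 : ‖y‖ ^ (p - 2) * ‖y‖ ^ 2 = ‖y‖ ^ p := by
      rcases eq_or_ne ‖y‖ 0 with h0 | h0
      · rw [h0, Real.zero_rpow hp0.ne']; simp
      · have hr : 0 < ‖y‖ := lt_of_le_of_ne (norm_nonneg _) (Ne.symm h0)
        rw [← Real.rpow_natCast, ← Real.rpow_add hr]
        norm_num
    simp only [eval_add, eval_C, Complex.add_re, Complex.ofReal_re]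
    nlinarith [h2, h5]
  · have h6 : (P.eval 0).re = circleAverage (fun z => (P.eval z).re) 0 1 := (avg_poly P 1).symm
    have hc1 : Continuous fun z : ℂ => (P.eval z).re := Complex.continuous_re.comp P.continuous
    have h7 : circleAverage (fun z => (P.eval z).re) 0 1 ≤
        circleAverage (fun z => ‖vp V (E2.symm z)‖ ^ p + δ) 0 1 := by
      apply circleAverage_mono
      · exact hc1.continuousOn.circleIntegrable'
      · exact (hφ.add continuous_const).continuousOn.circleIntegrable'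
      · intro z hz
        have hz1 : ‖z‖ = 1 := by simpa using hz
        have h3 := (abs_le.1 (hP z hz1)).1
        linarith
    rw [circleAverage_fun_add hφ.continuousOn.circleIntegrable'
      continuous_const.continuousOn.circleIntegrable', circleAverage_const] at h7
    simp only [eval_add, eval_C, Complex.add_re, Complex.ofReal_re]
    linarith

/-- Lower bound for harmonic majorants. -/
theorem lower (p : ℝ) (hp : 1 < p) {k : ℕ} (V : Fin k → ℂ[X]) (g : EuclideanSpace ℝ (Fin 2) → ℝ)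
    (hg : InnerProductSpace.HarmonicOnNhd g (ball 0 1))
    (h : ∀ x ∈ ball (0 : EuclideanSpace ℝ (Fin 2)) 1, ‖vp V x‖ ^ p ≤ g x) :
    circleAverage (fun z => ‖vp V (E2.symm z)‖ ^ p) 0 1 ≤ g 0 := by
  have hp0 : 0 < p := by linarith
  have hφ : Continuous fun z => ‖vp V (E2.symm z)‖ ^ p :=
    (((vp_cont V).comp E2.symm.continuous).norm).rpow_const (fun _ => Or.inr hp0.le)
  have hcont : Continuous (circleAverage (fun z => ‖vp V (E2.symm z)‖ ^ p) 0) := hφ.circleAverage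
  have hlim : Tendsto (circleAverage (fun z => ‖vp V (E2.symm z)‖ ^ p) 0) (𝓝[<] 1)
      (𝓝 (circleAverage (fun z => ‖vp V (E2.symm z)‖ ^ p) 0 1)) :=
    (hcont.tendsto 1).mono_left nhdsWithin_le_nhds
  refine le_of_tendsto hlim ?_
  have hIoo : Set.Ioo (0 : ℝ) 1 ∈ 𝓝[<] (1 : ℝ) := Ioo_mem_nhdsLT zero_lt_one
  filter_upwards [hIoo] with r hr
  have hmem : ∀ z : ℂ, ‖z‖ ≤ r → E2.symm z ∈ ball (0 : EuclideanSpace ℝ (Fin 2)) 1 := by
    intro z hz
    rw [mem_ball_zero_iff, E2.symm.norm_map]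
    linarith [hr.2]
  have h1 : InnerProductSpace.HarmonicOnNhd (fun z : ℂ => g (E2.symm z)) (closedBall 0 |r|) := by
    intro z hz
    rw [abs_of_pos hr.1, mem_closedBall_zero_iff] at hz
    exact harm_comp E2.symm g z (hg _ (hmem z hz))
  have h2 := h1.circleAverage_eq
  have h3 : g 0 = circleAverage (fun z : ℂ => g (E2.symm z)) 0 r := by
    rw [h2, map_zero]
  rw [h3]
  apply circleAverage_mono
  · exact hφ.continuousOn.circleIntegrable'
  · exact (h1.continuousOn.mono sphere_subset_closedBall).circleIntegrable'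
  · intro z hz
    have hz1 : ‖z‖ ≤ r := by
      rw [mem_sphere_zero_iff_norm, abs_of_pos hr.1] at hz
      exact hz.le
    exact h _ (hmem z hz1)

/-- The conclusion wanted. -/
def Concl (p c : ℝ) : Prop :=
      ∃ (n : ℕ) (H : Type) (_ : NormedAddCommGroup H) (_ : InnerProductSpace ℝ H)
        (_ : CompleteSpace H)
        (D : Set (EuclideanSpace ℝ (Fin n))) (x₀ : EuclideanSpace ℝ (Fin n))
        (u v : EuclideanSpace ℝ (Fin n) → H),
        IsOpen D ∧ IsConnected D ∧ x₀ ∈ D ∧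
        InnerProductSpace.HarmonicOnNhd u D ∧ InnerProductSpace.HarmonicOnNhd v D ∧
        (∀ x ∈ D,
          ∑ i : Fin n, ‖fderiv ℝ v x (EuclideanSpace.single i (1 : ℝ))‖ ^ 2 ≤
            ∑ i : Fin n, ‖fderiv ℝ u x (EuclideanSpace.single i (1 : ℝ))‖ ^ 2) ∧
        ‖v x₀‖ ≤ ‖u x₀‖ ∧
        ∃ h : EuclideanSpace ℝ (Fin n) → ℝ,
          InnerProductSpace.HarmonicOnNhd h D ∧ (∀ x ∈ D, ‖u x‖ ^ p ≤ h x) ∧
          ∃ ε : ℝ, 0 < ε ∧
            ∀ g : EuclideanSpace ℝ (Fin n) → ℝ,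
              InnerProductSpace.HarmonicOnNhd g D →
              (∀ x ∈ D, ‖v x‖ ^ p ≤ g x) →
              c ^ p * h x₀ + ε ≤ g x₀

theorem vp_sq {l : ℕ} (A : ℂ[X]) (W : Fin l → ℂ[X]) (x : EuclideanSpace ℝ (Fin 2)) :
    ‖vp (Fin.cons A W : Fin (l + 1) → ℂ[X]) x‖ ^ 2 =
      (A.eval (E2 x)).re ^ 2 + ∑ j, ((W j).eval (E2 x)).re ^ 2 := by
  rw [EuclideanSpace.norm_sq_eq, Fin.sum_univ_succ]
  simp [vp]

theorem core (p : ℝ) (hp : 1 < p) (c : ℝ) (hc : 0 ≤ c) (l : ℕ) (A B : ℂ[X]) (W : Fin l → ℂ[X])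
    (hdom : ∀ z : ℂ, ‖z‖ ≤ 1 → ‖B.derivative.eval z‖ ^ 2 ≤
      ‖A.derivative.eval z‖ ^ 2 + ∑ j, ‖(W j).derivative.eval z‖ ^ 2)
    (h0 : |(B.eval 0).re| ≤ |(A.eval 0).re|)
    (η : ℝ) (hW : ∀ z : ℂ, ‖z‖ ≤ 1 → ∑ j, ‖(W j).eval z‖ ^ 2 ≤ η)
    (hgap : c ^ p * circleAverage (fun z => (((A.eval z).re) ^ 2 + η) ^ (p / 2)) 0 1 <
      circleAverage (fun z => |(B.eval z).re| ^ p) 0 1) : Concl p c := by
  have hp0 : 0 < p := by linarith
  set V : Fin (l + 1) → ℂ[X] := Fin.cons A W with hV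
  set V' : Fin (l + 1) → ℂ[X] := Fin.cons B (fun _ => 0) with hV'
  have hcp : 0 ≤ c ^ p := Real.rpow_nonneg hc p
  have hcontu : Continuous fun z => ‖vp V (E2.symm z)‖ ^ p :=
    (((vp_cont V).comp E2.symm.continuous).norm).rpow_const (fun _ => Or.inr hp0.le)
  have hv : ∀ z : ℂ, ‖vp V' (E2.symm z)‖ ^ p = |(B.eval z).re| ^ p := by
    intro z
    have h1 : ‖vp V' (E2.symm z)‖ ^ 2 = |(B.eval z).re| ^ 2 := by
      rw [hV', vp_sq]; simp
    have h2 : ‖vp V' (E2.symm z)‖ = |(B.eval z).re| :=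
      (pow_left_inj₀ (norm_nonneg _) (abs_nonneg _) two_ne_zero).1 h1
    rw [h2]
  have hu : circleAverage (fun z => ‖vp V (E2.symm z)‖ ^ p) 0 1 ≤
      circleAverage (fun z => (((A.eval z).re) ^ 2 + η) ^ (p / 2)) 0 1 := by
    have hc1 : Continuous fun z : ℂ => (A.eval z).re := Complex.continuous_re.comp A.continuous
    apply circleAverage_mono
    · exact hcontu.continuousOn.circleIntegrable'
    · exact (((hc1.pow 2).add continuous_const).rpow_const
        (fun _ => Or.inr (by positivity))).continuousOn.circleIntegrable'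
    · intro z hz
      have hz1 : ‖z‖ = 1 := by simpa using hz
      have h3 : ‖vp V (E2.symm z)‖ ^ p = (‖vp V (E2.symm z)‖ ^ 2) ^ (p / 2) := by
        rw [← Real.rpow_natCast, ← Real.rpow_mul (norm_nonneg _)]
        congr 1; push_cast; ring
      rw [h3]
      apply Real.rpow_le_rpow (by positivity) _ (by positivity)
      rw [hV, vp_sq, E2.apply_symm_apply]
      have h4 : ∑ j, ((W j).eval z).re ^ 2 ≤ ∑ j, ‖(W j).eval z‖ ^ 2 := by
        apply Finset.sum_le_sum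
        intro j _
        rw [← sq_abs]
        exact pow_le_pow_left₀ (abs_nonneg _) (Complex.abs_re_le_norm _) 2
      have := hW z hz1.le
      linarith
  set gap := circleAverage (fun z => |(B.eval z).re| ^ p) 0 1 -
    c ^ p * circleAverage (fun z => (((A.eval z).re) ^ 2 + η) ^ (p / 2)) 0 1 with hgapd
  have hgp : 0 < gap := by rw [hgapd]; linarith
  obtain ⟨R, hR1, hR2⟩ := majorant p hp V (gap / (4 * (c ^ p + 1))) (by positivity)
  refine ⟨2, EuclideanSpace ℝ (Fin (l + 1)), inferInstance, inferInstance, inferInstance,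
    ball 0 1, 0, vp V, vp V', isOpen_ball, ?_, mem_ball_self one_pos, fun x _ => vp_harm V x,
    fun x _ => vp_harm V' x, ?_, ?_, fun x => (R.eval (E2 x)).re, fun x _ => re_harm R x, hR1,
    gap / 2, by positivity, ?_⟩
  · exact (convex_ball 0 1).isPathConnected ⟨0, mem_ball_self one_pos⟩ |>.isConnected
  · intro x hx
    rw [vp_grad, vp_grad, hV, hV', Fin.sum_univ_succ, Fin.sum_univ_succ]
    have hz : ‖E2 x‖ ≤ 1 := by rw [E2.norm_map]; exact (mem_ball_zero_iff.1 hx).le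
    simpa using hdom _ hz
  · have h1 : ‖vp V' 0‖ ^ 2 ≤ ‖vp V 0‖ ^ 2 := by
      rw [hV, hV', vp_sq, vp_sq, map_zero]
      have h2 : (B.eval 0).re ^ 2 ≤ (A.eval 0).re ^ 2 := sq_le_sq.2 h0
      have h3 : 0 ≤ ∑ j, ((W j).eval 0).re ^ 2 := Finset.sum_nonneg fun j _ => sq_nonneg _
      simp only [eval_zero, Complex.zero_re, ne_eq, OfNat.ofNat_ne_zero, not_false_eq_true, zero_pow,
        Finset.sum_const_zero, add_zero]
      linarith
    exact le_of_sq_le_sq h1 (norm_nonneg _)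
  · intro g hg1 hg2
    have h5 := lower p hp V' g hg1 hg2
    simp only [hv] at h5
    change c ^ p * (R.eval (E2 0)).re + gap / 2 ≤ g 0
    rw [map_zero]
    have h6 : (R.eval 0).re ≤ circleAverage (fun z => (((A.eval z).re) ^ 2 + η) ^ (p / 2)) 0 1 +
        2 * (gap / (4 * (c ^ p + 1))) := by linarith
    have h7 : c ^ p * (R.eval 0).re ≤
        c ^ p * (circleAverage (fun z => (((A.eval z).re) ^ 2 + η) ^ (p / 2)) 0 1 +
        2 * (gap / (4 * (c ^ p + 1)))) := mul_le_mul_of_nonneg_left h6 hcp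
    have h8 : c ^ p * (2 * (gap / (4 * (c ^ p + 1)))) ≤ gap / 2 := by
      have : c ^ p * (2 * (gap / (4 * (c ^ p + 1)))) = (c ^ p / (c ^ p + 1)) * (gap / 2) := by
        field_simp; ring
      rw [this]
      have h9 : c ^ p / (c ^ p + 1) ≤ 1 := by rw [div_le_one (by positivity)]; linarith
      nlinarith
    have h10 : circleAverage (fun z => |(B.eval z).re| ^ p) 0 1 =
      gap + c ^ p * circleAverage (fun z => (((A.eval z).re) ^ 2 + η) ^ (p / 2)) 0 1 := by
      rw [hgapd]; ring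
    rw [h10] at h5
    nlinarith

theorem deriv_ineq (P Q : ℂ[X]) {l : ℕ} (W : Fin l → ℂ[X]) (z : ℂ)
    (h : 4 * (‖P.derivative.eval z‖ * ‖Q.derivative.eval z‖) ≤
      ∑ j, ‖(W j).derivative.eval z‖ ^ 2) :
    ‖(P - Q).derivative.eval z‖ ^ 2 ≤
      ‖(P + Q).derivative.eval z‖ ^ 2 + ∑ j, ‖(W j).derivative.eval z‖ ^ 2 := by
  rw [derivative_sub, derivative_add, eval_sub, eval_add]
  set a := P.derivative.eval z
  set b := Q.derivative.eval z
  have h1 : ‖a - b‖ ^ 2 ≤ (‖a + b‖) ^ 2 + 4 * (‖a‖ * ‖b‖) := by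
    have e1 : ‖a - b‖ ^ 2 = ‖a‖ ^ 2 - 2 * (a * (starRingEnd ℂ) b).re + ‖b‖ ^ 2 := by
      rw [← Complex.normSq_eq_norm_sq, ← Complex.normSq_eq_norm_sq, ← Complex.normSq_eq_norm_sq,
        Complex.normSq_sub]; ring
    have e2 : ‖a + b‖ ^ 2 = ‖a‖ ^ 2 + 2 * (a * (starRingEnd ℂ) b).re + ‖b‖ ^ 2 := by
      rw [← Complex.normSq_eq_norm_sq, ← Complex.normSq_eq_norm_sq, ← Complex.normSq_eq_norm_sq,
        Complex.normSq_add]; ring
    have e3 : |(a * (starRingEnd ℂ) b).re| ≤ ‖a‖ * ‖b‖ := by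
      refine (Complex.abs_re_le_norm _).trans ?_
      rw [norm_mul, Complex.norm_conj]
    have e4 := (abs_le.1 e3).1
    rw [e1, e2]
    linarith
  linarith

/-- The two test functions. -/
noncomputable def PU (p η : ℝ) (q : ℝ × ℝ × ℝ) : ℝ := ((q.1 + q.2.1) ^ 2 + η) ^ (p / 2)

noncomputable def PV (p : ℝ) (q : ℝ × ℝ × ℝ) : ℝ := |q.1 - q.2.1| ^ p

theorem PU_cont (p η : ℝ) (hp : 1 < p) : Continuous (PU p η) := by
  have h : Continuous fun q : ℝ × ℝ × ℝ => (q.1 + q.2.1) ^ 2 + η := by fun_prop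
  exact h.rpow_const (fun _ => Or.inr (by linarith))

theorem PV_cont (p : ℝ) (hp : 1 < p) : Continuous (PV p) := by
  have h : Continuous fun q : ℝ × ℝ × ℝ => |q.1 - q.2.1| := by fun_prop
  exact h.rpow_const (fun _ => Or.inr (by linarith))

theorem final (p : ℝ) (hp : 1 < p) (c : ℝ) (hc : 0 ≤ c) (a0 b0 : ℝ) (hab : |a0 - b0| ≤ |a0 + b0|)
    (r : List (Bool × ℝ × ℝ)) (hr : ∀ s ∈ r, 0 ≤ s.2.2 ∧ s.2.2 ≤ 1)
    (hgap : c ^ p * TL r (PU p 0) (a0, b0, 1) < TL r (PV p) (a0, b0, 1)) : Concl p c := by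
  have hcp : 0 ≤ c ^ p := Real.rpow_nonneg hc p
  have hlim := TL_tendsto r (fun n : ℕ => PU p (1 / ((n : ℝ) + 1))) (PU p 0) (by
    intro q
    unfold PU
    have h1 : Tendsto (fun n : ℕ => (q.1 + q.2.1) ^ 2 + 1 / ((n : ℝ) + 1)) atTop
        (𝓝 ((q.1 + q.2.1) ^ 2 + 0)) := tendsto_const_nhds.add tendsto_one_div_add_atTop_nhds_zero_nat
    exact h1.rpow_const (Or.inr (by linarith))) (a0, b0, 1)
  have hlim2 := hlim.const_mul (c ^ p)
  obtain ⟨n, hn⟩ := (hlim2.eventually_lt_const hgap).exists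
  set η : ℝ := 1 / ((n : ℝ) + 1) with hη
  have hη0 : 0 < η := by rw [hη]; positivity
  set VU := TL r (PU p η) (a0, b0, 1) with hVU
  set VV := TL r (PV p) (a0, b0, 1) with hVV
  have hG : Good 0 (C (a0 : ℂ)) (C (b0 : ℂ)) (fun _ => 1) :=
    ⟨continuous_const, ⟨0, 1, fun z _ => by simp⟩, 0, Fin.elim0, fun z _ => by simp,
      fun z _ => by simp⟩
  have hEv : ∀ Φ : ℝ × ℝ × ℝ → ℝ, Ev Φ (C (a0 : ℂ)) (C (b0 : ℂ)) (fun _ => 1) = Φ (a0, b0, 1) := by
    intro Φ
    simp only [Ev, eval_C, Complex.ofReal_re]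
    exact circleAverage_const _ _ _
  obtain ⟨P, Q, d, ⟨-, -, l, W, hd1, hd2⟩, hP0, hQ0, h1, h2⟩ :=
    run r (PU p η) (PV p) (PU_cont p η hp) (PV_cont p hp) hr 0 η hη0 _ _ _ hG
      ((VV - c ^ p * VU) / (2 * (c ^ p + 1))) (by
        have : 0 < VV - c ^ p * VU := by linarith
        positivity)
  rw [hEv] at h1 h2
  rw [← hVU] at h1
  rw [← hVV] at h2
  refine core p hp c hc l (P + Q) (P - Q) W (fun z hz => deriv_ineq P Q W z (hd1 z hz)) ?_ η hd2 ?_
  · rw [eval_sub, eval_add, hP0, hQ0]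
    simpa using hab
  · have e1 : Ev (PU p η) P Q d =
        circleAverage (fun z => (((P + Q).eval z).re ^ 2 + η) ^ (p / 2)) 0 1 := by
      simp only [Ev, PU, eval_add, Complex.add_re]
    have e2 : Ev (PV p) P Q d = circleAverage (fun z => |((P - Q).eval z).re| ^ p) 0 1 := by
      simp only [Ev, PV, eval_sub, Complex.sub_re]
    rw [← e1, ← e2]
    have k1 := (abs_le.1 h1).2
    have k2 := (abs_le.1 h2).1
    have k3 : c ^ p * Ev (PU p η) P Q d ≤
        c ^ p * (VU + (VV - c ^ p * VU) / (2 * (c ^ p + 1))) :=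
      mul_le_mul_of_nonneg_left (by linarith) hcp
    have k4 : (c ^ p + 1) * ((VV - c ^ p * VU) / (2 * (c ^ p + 1))) = (VV - c ^ p * VU) / 2 := by
      field_simp
    nlinarith

noncomputable def rho (ε p : ℝ) : ℝ :=
  1 / (1 + p * ε / 2) * ((1 + ε - p * ε / 2) / (1 + ε)) * (1 + ε) ^ p

noncomputable def kap (ε p : ℝ) : ℝ := (1 - 1 / (1 + p * ε / 2)) + 1 / (1 + p * ε / 2) *
      (1 - (1 + ε - p * ε / 2) / (1 + ε)) * (1 + ε) ^ p

noncomputable def ess (ε p : ℝ) (n : ℕ) : ℝ := kap ε p * ∑ j ∈ Finset.range n, rho ε p ^ j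

theorem gam_eq (ε p w t0 : ℝ) (n : ℕ) : gam ε p w t0 n = w * ess ε p n + rho ε p ^ n * t0 := by
  induction n with
  | zero => simp [gam, ess]
  | succ n ih =>
    rw [gam, ih]
    unfold ess
    rw [geom_sum_succ]
    unfold kap
    have : rho ε p = 1 / (1 + p * ε / 2) * ((1 + ε - p * ε / 2) / (1 + ε)) * (1 + ε) ^ p := rfl
    rw [← this]
    ring

theorem chain_valid (τ ε p : ℝ) (hε : 0 < ε) (hp : 0 < p) (h : p * ε / 2 ≤ 1 + ε) (n : ℕ) :
    ∀ s0 : ℝ, ∀ s ∈ chain τ ε p n s0, 0 ≤ s.2.2 ∧ s.2.2 ≤ 1 := by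
  induction n with
  | zero => intro s0 s hs; simp [chain] at hs
  | succ n ih =>
    intro s0 s hs
    rw [chain, List.mem_cons, List.mem_cons] at hs
    rcases hs with rfl | rfl | hs
    · refine ⟨by positivity, ?_⟩
      change 1 / (1 + p * ε / 2) ≤ 1
      rw [div_le_one (by positivity)]
      have : 0 < p * ε / 2 := by positivity
      linarith
    · change 0 ≤ (1 + ε - p * ε / 2) / (1 + ε) ∧ (1 + ε - p * ε / 2) / (1 + ε) ≤ 1
      refine ⟨div_nonneg (by linarith) (by positivity), ?_⟩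
      rw [div_le_one (by positivity)]
      have : 0 < p * ε / 2 := by positivity
      linarith
    · exact ih _ s hs

theorem kap_ge (ε p : ℝ) (hε : 0 < ε) (hp : 0 < p) (h1 : p * ε / 2 ≤ 1) : p * ε / 4 ≤ kap ε p := by
  unfold kap
  have hpe : 0 < p * ε / 2 := by positivity
  have e1 : p * ε / 4 ≤ 1 - 1 / (1 + p * ε / 2) := by
    have : 1 - 1 / (1 + p * ε / 2) = (p * ε / 2) / (1 + p * ε / 2) := by field_simp; ring
    rw [this, le_div_iff₀ (by positivity)]
    nlinarith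
  have e2 : 0 ≤ 1 / (1 + p * ε / 2) * (1 - (1 + ε - p * ε / 2) / (1 + ε)) * (1 + ε) ^ p := by
    have e3 : 0 ≤ 1 - (1 + ε - p * ε / 2) / (1 + ε) := by
      rw [sub_nonneg, div_le_one (by positivity)]
      linarith
    positivity
  linarith

theorem rho_nonneg (ε p : ℝ) (hε : 0 < ε) (hp : 0 < p) (h1 : p * ε / 2 ≤ 1) : 0 < rho ε p := by
  unfold rho
  have : 0 < 1 + ε - p * ε / 2 := by linarith
  positivity

theorem rho_ge (ε p : ℝ) (hε : 0 < ε) (hp : 1 < p) (h1 : p * ε / 2 ≤ 1) :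
    1 - p * (p - 1) / 2 * ε ^ 2 ≤ rho ε p := by
  unfold rho
  have hpe : 0 < p * ε / 2 := by positivity
  have h2 : 0 < 1 + ε - p * ε / 2 := by linarith
  have h3 := one_add_mul_self_le_rpow_one_add (show -1 ≤ ε by linarith) hp.le
  have h4 : 1 / (1 + p * ε / 2) * ((1 + ε - p * ε / 2) / (1 + ε)) * (1 + p * ε) ≤
      1 / (1 + p * ε / 2) * ((1 + ε - p * ε / 2) / (1 + ε)) * (1 + ε) ^ p := by gcongr
  refine le_trans ?_ h4
  have h5 : 1 / (1 + p * ε / 2) * ((1 + ε - p * ε / 2) / (1 + ε)) * (1 + p * ε) =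
      ((1 + ε - p * ε / 2) * (1 + p * ε)) / ((1 + p * ε / 2) * (1 + ε)) := by field_simp
  rw [h5, le_div_iff₀ (by positivity)]
  have h6 : 0 ≤ p * (p - 1) / 2 * ε ^ 2 := by
    have : 0 ≤ p - 1 := by linarith
    positivity
  have h7 : 1 ≤ (1 + p * ε / 2) * (1 + ε) := by nlinarith
  nlinarith [mul_le_mul_of_nonneg_left h7 h6]

theorem rho_le (ε p : ℝ) (hε : 0 < ε) (hp : 1 < p) (hp2 : p ≤ 2) (h1 : p * ε / 2 ≤ 1) :
    rho ε p ≤ 1 + ε ^ 2 := by
  unfold rho
  have hpe : 0 < p * ε / 2 := by positivity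
  have h2 : 0 < 1 + ε - p * ε / 2 := by linarith
  have h3 : (1 + ε) ^ p ≤ (1 + ε) * (1 + (p - 1) * ε) := by
    have h4 := rpow_one_add_le_one_add_mul_self (show -1 ≤ ε by linarith)
      (show 0 ≤ p - 1 by linarith) (show p - 1 ≤ 1 by linarith)
    have h5 : (1 + ε) ^ p = (1 + ε) ^ (p - 1) * (1 + ε) := by
      rw [← Real.rpow_add_one (by positivity)]
      ring_nf
    rw [h5, mul_comm]
    gcongr
  have h4 : 1 / (1 + p * ε / 2) * ((1 + ε - p * ε / 2) / (1 + ε)) * (1 + ε) ^ p ≤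
      1 / (1 + p * ε / 2) * ((1 + ε - p * ε / 2) / (1 + ε)) * ((1 + ε) * (1 + (p - 1) * ε)) := by
    gcongr
  refine h4.trans ?_
  have h5 : 1 / (1 + p * ε / 2) * ((1 + ε - p * ε / 2) / (1 + ε)) * ((1 + ε) * (1 + (p - 1) * ε)) =
      ((1 + ε - p * ε / 2) * (1 + (p - 1) * ε)) / (1 + p * ε / 2) := by field_simp
  rw [h5, div_le_iff₀ (by positivity)]
  have h6 : (1 - p / 2) * (p - 1) ≤ 1 := by nlinarith
  have h7 : (1 + ε - p * ε / 2) * (1 + (p - 1) * ε) = 1 + p * ε / 2 + (1 - p / 2) * (p - 1) * ε ^ 2 := by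
    ring
  rw [h7]
  have h8 : (1 - p / 2) * (p - 1) * ε ^ 2 ≤ 1 * ε ^ 2 := by gcongr
  have h9 : 0 ≤ ε ^ 2 * (p * ε / 2) := by positivity
  nlinarith

theorem large1 (p : ℝ) (hp : 1 < p) (M : ℕ) : ∃ (ε : ℝ) (n : ℕ), 0 < ε ∧ p * ε / 2 ≤ 1 ∧
    p * M / 8 ≤ ess ε p n := by
  obtain ⟨k, hk⟩ := exists_nat_gt (p + p * (p - 1) * M)
  have hp0 : 0 < p := by linarith
  have hM0 : (0 : ℝ) ≤ M := Nat.cast_nonneg M
  have hCM : 0 ≤ p * (p - 1) * M := by
    have : 0 ≤ p - 1 := by linarith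
    positivity
  have hk0 : (0 : ℝ) < k := by linarith
  have hε : (0 : ℝ) < 1 / k := by positivity
  have h1 : p * (1 / (k : ℝ)) / 2 ≤ 1 := by
    rw [mul_one_div, div_div, div_le_one (by positivity)]
    linarith
  refine ⟨1 / k, k * M, hε, h1, ?_⟩
  unfold ess
  have h2 := kap_ge (1 / k) p hε hp0 h1
  have h3 := rho_ge (1 / k) p hε hp h1
  have h4 : ∀ j ∈ Finset.range (k * M), (1 / 2 : ℝ) ≤ rho (1 / k) p ^ j := by
    intro j hj
    have hj' : (j : ℝ) ≤ k * M := by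
      have := (Finset.mem_range.1 hj).le
      exact_mod_cast this
    set t : ℝ := p * (p - 1) / 2 * (1 / (k : ℝ)) ^ 2 with ht
    have ht0 : 0 ≤ t := by
      have : 0 ≤ p - 1 := by linarith
      positivity
    have ht1 : k * M * t ≤ 1 / 2 := by
      have : k * M * t = (p * (p - 1) * M) / (2 * k) := by rw [ht]; field_simp
      rw [this, div_le_iff₀ (by positivity)]
      linarith
    have hρ0 := rho_nonneg (1 / k) p hε hp0 h1
    rcases le_total t 1 with h | h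
    · have h5 : (1 : ℝ) + j * (-t) ≤ (1 + -t) ^ j := one_add_mul_le_pow (by linarith) j
      have h6 : (1 + -t) ^ j ≤ rho (1 / k) p ^ j := by
        apply pow_le_pow_left₀ (by linarith)
        linarith
      have h7 : j * t ≤ k * M * t := by gcongr
      linarith
    · exfalso
      rcases Nat.eq_zero_or_pos j with h8 | h8
      · have : 0 < k * M := by
          have := Finset.mem_range.1 hj
          omega
        have h9 : (1 : ℝ) ≤ k * M := by exact_mod_cast this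
        nlinarith
      · have : 1 ≤ j := h8
        have h9 : (1 : ℝ) ≤ k * M := by
          have h10 : (1 : ℝ) ≤ j := by exact_mod_cast this
          linarith
        nlinarith
  have h5 : ((k * M : ℕ) : ℝ) * (1 / 2) ≤ ∑ j ∈ Finset.range (k * M), rho (1 / k) p ^ j := by
    have := Finset.card_nsmul_le_sum (Finset.range (k * M)) (fun j => rho (1 / k) p ^ j) (1 / 2) h4
    simpa [nsmul_eq_mul] using this
  have h6 : 0 ≤ kap (1 / k) p := le_trans (by positivity) h2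
  calc p * M / 8 = (p * (1 / k) / 4) * (((k * M : ℕ) : ℝ) * (1 / 2)) := by
        push_cast; field_simp; ring
    _ ≤ _ := by gcongr

theorem large2 (p : ℝ) (hp : 1 < p) (hp2 : p ≤ 2) (M : ℕ) : ∃ (ε : ℝ) (n : ℕ), 0 < ε ∧
    p * ε / 2 ≤ 1 ∧ p * M / 8 * rho ε p ^ n ≤ ess ε p n := by
  obtain ⟨k, hk⟩ := exists_nat_gt (p + 2 * M)
  have hp0 : 0 < p := by linarith
  have hM0 : (0 : ℝ) ≤ M := Nat.cast_nonneg M
  have hk0 : (0 : ℝ) < k := by linarith
  have hε : (0 : ℝ) < 1 / k := by positivity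
  have h1 : p * (1 / (k : ℝ)) / 2 ≤ 1 := by
    rw [mul_one_div, div_div, div_le_one (by positivity)]
    linarith
  refine ⟨1 / k, k * M, hε, h1, ?_⟩
  unfold ess
  have h2 := kap_ge (1 / k) p hε hp0 h1
  have h3 := rho_le (1 / k) p hε hp hp2 h1
  have hρ0 := rho_nonneg (1 / k) p hε hp0 h1
  have h4 : ∀ j ∈ Finset.range (k * M), rho (1 / k) p ^ (k * M) / 2 ≤ rho (1 / k) p ^ j := by
    intro j hj
    have hj' := (Finset.mem_range.1 hj).le
    have e1 : rho (1 / k) p ^ (k * M) = rho (1 / k) p ^ j * rho (1 / k) p ^ (k * M - j) := by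
      rw [← pow_add]; congr 1; omega
    have e2 : rho (1 / k) p ^ (k * M - j) ≤ (1 + (1 / (k : ℝ)) ^ 2) ^ (k * M - j) :=
      pow_le_pow_left₀ hρ0.le h3 _
    have e3 : (1 + (1 / (k : ℝ)) ^ 2) ^ (k * M - j) ≤ (1 + (1 / (k : ℝ)) ^ 2) ^ (k * M) :=
      pow_le_pow_right₀ (by have : 0 ≤ (1 / (k : ℝ)) ^ 2 := by positivity
                            linarith) (by omega)
    have e4 : (1 + (1 / (k : ℝ)) ^ 2) ^ (k * M) ≤ Real.exp (1 / 2) := by
      calc (1 + (1 / (k : ℝ)) ^ 2) ^ (k * M) ≤ (Real.exp ((1 / (k : ℝ)) ^ 2)) ^ (k * M) := by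
            apply pow_le_pow_left₀ (by positivity)
            linarith [Real.add_one_le_exp ((1 / (k : ℝ)) ^ 2)]
        _ = Real.exp (((k * M : ℕ) : ℝ) * (1 / (k : ℝ)) ^ 2) := (Real.exp_nat_mul _ _).symm
        _ ≤ _ := by
            apply Real.exp_le_exp.2
            have : ((k * M : ℕ) : ℝ) * (1 / (k : ℝ)) ^ 2 = M / k := by push_cast; field_simp
            rw [this, div_le_iff₀ hk0]
            linarith
    have e5 : Real.exp (1 / 2) ≤ 2 := by
      have h6 : Real.exp (1 / 2) ^ 2 = Real.exp 1 := by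
        rw [← Real.exp_nat_mul]; norm_num
      have h7 := Real.exp_one_lt_d9
      by_contra hcon
      push Not at hcon
      nlinarith
    have e6 : rho (1 / k) p ^ (k * M - j) ≤ 2 := ((e2.trans e3).trans e4).trans e5
    have e7 : 0 < rho (1 / k) p ^ j := by positivity
    rw [e1]
    nlinarith
  have h5 : ((k * M : ℕ) : ℝ) * (rho (1 / k) p ^ (k * M) / 2) ≤
      ∑ j ∈ Finset.range (k * M), rho (1 / k) p ^ j := by
    have := Finset.card_nsmul_le_sum (Finset.range (k * M)) (fun j => rho (1 / k) p ^ j)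
      (rho (1 / k) p ^ (k * M) / 2) h4
    simpa [nsmul_eq_mul] using this
  have h6 : 0 ≤ kap (1 / k) p := le_trans (by positivity) h2
  calc p * M / 8 * rho (1 / k) p ^ (k * M) =
      (p * (1 / k) / 4) * (((k * M : ℕ) : ℝ) * (rho (1 / k) p ^ (k * M) / 2)) := by
        push_cast; field_simp; ring
    _ ≤ _ := by gcongr

theorem PU_val (p t : ℝ) (q : ℝ × ℝ × ℝ) (ht : 0 ≤ t) (h : q.1 + q.2.1 = t ∨ q.1 + q.2.1 = -t) :
    PU p 0 q = t ^ p := by
  have h1 : (q.1 + q.2.1) ^ 2 = t ^ 2 := by rcases h with h | h <;> rw [h]; ring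
  unfold PU
  rw [h1, add_zero, ← Real.rpow_natCast, ← Real.rpow_mul ht]
  congr 1; push_cast; ring

theorem PV_val (p t : ℝ) (q : ℝ × ℝ × ℝ) (ht : 0 ≤ t) (h : q.1 - q.2.1 = t ∨ q.1 - q.2.1 = -t) :
    PV p q = t ^ p := by
  unfold PV
  rcases h with h | h
  · rw [h, abs_of_nonneg ht]
  · rw [h, abs_neg, abs_of_nonneg ht]

theorem case1 (p : ℝ) (hp : 1 < p) (c : ℝ) (hc : 0 ≤ c) (hcp : c < p - 1) : Concl p c := by
  have hp0 : 0 < p := by linarith
  have hlt : c ^ p < (p - 1) ^ p := Real.rpow_lt_rpow hc hcp hp0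
  obtain ⟨M, hM⟩ := exists_nat_gt (8 / p * (c ^ p * p ^ p / ((p - 1) ^ p - c ^ p)))
  obtain ⟨ε, n, hε, hv, hS⟩ := large1 p hp M
  have hS2 : c ^ p * p ^ p < ess ε p n * ((p - 1) ^ p - c ^ p) := by
    have h1 : c ^ p * p ^ p / ((p - 1) ^ p - c ^ p) < p * M / 8 := by
      have h2 : 8 / p * (c ^ p * p ^ p / ((p - 1) ^ p - c ^ p)) * (p / 8) < M * (p / 8) := by
        gcongr
      have h3 : 8 / p * (c ^ p * p ^ p / ((p - 1) ^ p - c ^ p)) * (p / 8) =
          c ^ p * p ^ p / ((p - 1) ^ p - c ^ p) := by field_simp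
      linarith
    have h4 := h1.trans_le hS
    rwa [div_lt_iff₀ (by linarith)] at h4
  refine final p hp c hc 1 0 (by norm_num) ((false, -2, 1 / 2) :: chain 1 ε p n 2) ?_ ?_
  · intro s hs
    rw [List.mem_cons] at hs
    rcases hs with rfl | hs
    · constructor <;> norm_num
    · exact chain_valid 1 ε p hε hp0 (by linarith) n 2 s hs
  · rw [TL_false, TL_false]
    have e1 : ((1 : ℝ), (0 : ℝ) + -2 * (1 - 1 / 2), (1 : ℝ)) = (2 / 2, -(1 * (2 / 2)), 1) := by
      norm_num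
    rw [e1, chain_val 1 ε p (1 / p ^ p) 0 hε hp0 (PU p 0) ?_ ?_ ?_ n 2 (by norm_num),
      chain_val 1 ε p ((p - 1) ^ p / p ^ p) 1 hε hp0 (PV p) ?_ ?_ ?_ n 2 (by norm_num),
      PU_val p 2 _ (by norm_num) (Or.inl (by norm_num)),
      PV_val p 0 _ (by norm_num) (Or.inl (by norm_num)), gam_eq, gam_eq,
      Real.zero_rpow hp0.ne']
    · have hpp : 0 < p ^ p := Real.rpow_pos_of_pos hp0 p
      have h2p : (0 : ℝ) < 2 ^ p := Real.rpow_pos_of_pos two_pos p
      have hρ := rho_nonneg ε p hε hp0 hv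
      have hρn : 0 < rho ε p ^ n := by positivity
      have key : c ^ p * (ess ε p n / p ^ p + 1) < (p - 1) ^ p * ess ε p n / p ^ p + rho ε p ^ n := by
        have k1 : c ^ p * (ess ε p n / p ^ p + 1) = (c ^ p * ess ε p n + c ^ p * p ^ p) / p ^ p := by
          field_simp
        have k2 : (c ^ p * ess ε p n + c ^ p * p ^ p) / p ^ p < (p - 1) ^ p * ess ε p n / p ^ p := by
          gcongr
          linarith
        linarith
      calc c ^ p * (1 / 2 * (2 ^ p * (1 / p ^ p * ess ε p n + rho ε p ^ n * 0)) +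
            (1 - 1 / 2) * 2 ^ p) = (2 ^ p / 2) * (c ^ p * (ess ε p n / p ^ p + 1)) := by ring
        _ < (2 ^ p / 2) * ((p - 1) ^ p * ess ε p n / p ^ p + rho ε p ^ n) := by gcongr
        _ = _ := by ring
    · intro s hs
      rw [PV_val p s _ hs.le (Or.inl (by ring)), mul_one]
    · intro s hs
      rw [PV_val p (s * ((p - 1) / p)) _ (by
        have : 0 < p - 1 := by linarith
        positivity) (Or.inl (by field_simp; ring)),
        Real.mul_rpow hs.le (div_nonneg (by linarith) hp0.le), Real.div_rpow (by linarith) hp0.le]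
    · intro s hs
      rw [PV_val p (s * ((p - 1) / p)) _ (by
        have : 0 < p - 1 := by linarith
        positivity) (Or.inl (by field_simp; ring)),
        Real.mul_rpow hs.le (div_nonneg (by linarith) hp0.le), Real.div_rpow (by linarith) hp0.le]
    · intro s hs
      rw [PU_val p 0 _ le_rfl (Or.inl (by ring)), mul_zero, Real.zero_rpow hp0.ne']
    · intro s hs
      rw [PU_val p (s / p) _ (by positivity) (Or.inl (by ring)), Real.div_rpow hs.le hp0.le]
      ring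
    · intro s hs
      rw [PU_val p (s / p) _ (by positivity) (Or.inr (by ring)), Real.div_rpow hs.le hp0.le]
      ring

theorem case2 (p : ℝ) (hp : 1 < p) (hp2 : p ≤ 2) (c : ℝ) (hc : 0 ≤ c) (hcp : c * (p - 1) < 1) :
    Concl p c := by
  have hp0 : 0 < p := by linarith
  have hp1 : 0 < p - 1 := by linarith
  have hlt : c ^ p * (p - 1) ^ p < 1 := by
    rw [← Real.mul_rpow hc hp1.le]
    exact Real.rpow_lt_one (by positivity) hcp hp0
  obtain ⟨M, hM⟩ := exists_nat_gt (8 / p * (c ^ p * p ^ p / (1 - c ^ p * (p - 1) ^ p)))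
  obtain ⟨ε, n, hε, hv, hS⟩ := large2 p hp hp2 M
  have hρ := rho_nonneg ε p hε hp0 hv
  have hρn : 0 < rho ε p ^ n := by positivity
  have hS2 : c ^ p * p ^ p * rho ε p ^ n < ess ε p n * (1 - c ^ p * (p - 1) ^ p) := by
    have h1 : c ^ p * p ^ p / (1 - c ^ p * (p - 1) ^ p) < p * M / 8 := by
      have h2 : 8 / p * (c ^ p * p ^ p / (1 - c ^ p * (p - 1) ^ p)) * (p / 8) < M * (p / 8) := by
        gcongr
      have h3 : 8 / p * (c ^ p * p ^ p / (1 - c ^ p * (p - 1) ^ p)) * (p / 8) =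
          c ^ p * p ^ p / (1 - c ^ p * (p - 1) ^ p) := by field_simp
      linarith
    rw [div_lt_iff₀ (by linarith)] at h1
    have h4 : c ^ p * p ^ p * rho ε p ^ n <
        p * M / 8 * (1 - c ^ p * (p - 1) ^ p) * rho ε p ^ n := by gcongr
    have h5 : p * M / 8 * rho ε p ^ n * (1 - c ^ p * (p - 1) ^ p) ≤
        ess ε p n * (1 - c ^ p * (p - 1) ^ p) := by
      have : 0 ≤ 1 - c ^ p * (p - 1) ^ p := by linarith
      gcongr
    linarith
  refine final p hp c hc (1 / 2) (1 / 2) (by norm_num) (chain (-1) ε p n 1)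
    (chain_valid (-1) ε p hε hp0 (by linarith) n 1) ?_
  have e1 : ((1 / 2 : ℝ), (1 / 2 : ℝ), (1 : ℝ)) = (1 / 2, -(-1 * (1 / 2)), 1) := by norm_num
  rw [e1, chain_val (-1) ε p ((p - 1) ^ p / p ^ p) 1 hε hp0 (PU p 0) ?_ ?_ ?_ n 1 (by norm_num),
    chain_val (-1) ε p (1 / p ^ p) 0 hε hp0 (PV p) ?_ ?_ ?_ n 1 (by norm_num), gam_eq, gam_eq,
    Real.one_rpow]
  · have hpp : 0 < p ^ p := Real.rpow_pos_of_pos hp0 p
    have k1 : c ^ p * (1 * ((p - 1) ^ p / p ^ p * ess ε p n + rho ε p ^ n * 1)) =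
        (c ^ p * (p - 1) ^ p * ess ε p n + c ^ p * p ^ p * rho ε p ^ n) / p ^ p := by
      field_simp
    have k2 : 1 * (1 / p ^ p * ess ε p n + rho ε p ^ n * 0) = ess ε p n / p ^ p := by ring
    rw [k1, k2]
    gcongr
    linarith
  · intro s hs
    rw [PV_val p 0 _ le_rfl (Or.inl (by ring)), mul_zero, Real.zero_rpow hp0.ne']
  · intro s hs
    rw [PV_val p (s / p) _ (by positivity) (Or.inl (by ring)), Real.div_rpow hs.le hp0.le]
    ring
  · intro s hs
    rw [PV_val p (s / p) _ (by positivity) (Or.inr (by ring)), Real.div_rpow hs.le hp0.le]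
    ring
  · intro s hs
    rw [PU_val p s _ hs.le (Or.inl (by ring)), mul_one]
  · intro s hs
    rw [PU_val p (s * ((p - 1) / p)) _ (by positivity) (Or.inl (by field_simp; ring)),
      Real.mul_rpow hs.le (div_nonneg hp1.le hp0.le), Real.div_rpow hp1.le hp0.le]
  · intro s hs
    rw [PU_val p (s * ((p - 1) / p)) _ (by positivity) (Or.inl (by field_simp; ring)),
      Real.mul_rpow hs.le (div_nonneg hp1.le hp0.le), Real.div_rpow hp1.le hp0.le]

theorem fin (p : ℝ) (hp : 1 < p) (c : ℝ) (hc : 0 ≤ c) (h : c < max p (p / (p - 1)) - 1) :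
    Concl p c := by
  have hp1 : 0 < p - 1 := by linarith
  rcases lt_or_ge c (p - 1) with h1 | h1
  · exact case1 p hp c hc h1
  · have h2 : p ≤ p / (p - 1) := by
      by_contra hcon
      push Not at hcon
      rw [max_eq_left hcon.le] at h
      linarith
    rw [max_eq_right h2] at h
    rw [le_div_iff₀ hp1] at h2
    have h3 : p - 1 ≤ 1 := by nlinarith
    refine case2 p hp (by linarith) c hc ?_
    have h4 : c < 1 / (p - 1) := by
      have : p / (p - 1) - 1 = 1 / (p - 1) := by field_simp; ring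
      linarith
    rwa [lt_div_iff₀ hp1] at h4

end

/-- For every 1<p<∞ and every 0≤c<max(p,p/(p−1))−1, some Hilbert-valued harmonic u,v on a domain with ∣∇v∣≤∣∇u∣ and ∣v(x₀)∣≤∣u(x₀)∣ have harmonic-measure p-norm of v exceeding c times that of u. -/
theorem result :
    ∀ p : ℝ, 1 < p → ∀ c : ℝ, 0 ≤ c → c < max p (p / (p - 1)) - 1 →
      ∃ (n : ℕ) (H : Type) (_ : NormedAddCommGroup H) (_ : InnerProductSpace ℝ H)
        (_ : CompleteSpace H)
        (D : Set (EuclideanSpace ℝ (Fin n))) (x₀ : EuclideanSpace ℝ (Fin n))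
        (u v : EuclideanSpace ℝ (Fin n) → H),
        IsOpen D ∧ IsConnected D ∧ x₀ ∈ D ∧
        InnerProductSpace.HarmonicOnNhd u D ∧ InnerProductSpace.HarmonicOnNhd v D ∧
        (∀ x ∈ D,
          ∑ i : Fin n, ‖fderiv ℝ v x (EuclideanSpace.single i (1 : ℝ))‖ ^ 2 ≤
            ∑ i : Fin n, ‖fderiv ℝ u x (EuclideanSpace.single i (1 : ℝ))‖ ^ 2) ∧
        ‖v x₀‖ ≤ ‖u x₀‖ ∧
        ∃ h : EuclideanSpace ℝ (Fin n) → ℝ,
          InnerProductSpace.HarmonicOnNhd h D ∧ (∀ x ∈ D, ‖u x‖ ^ p ≤ h x) ∧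
          ∃ ε : ℝ, 0 < ε ∧
            ∀ g : EuclideanSpace ℝ (Fin n) → ℝ,
              InnerProductSpace.HarmonicOnNhd g D →
              (∀ x ∈ D, ‖v x‖ ^ p ≤ g x) →
              c ^ p * h x₀ + ε ≤ g x₀ := by
  intro p hp c hc h
  exact fin p hp c hc h

end Pool.Agent.S03149
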