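import Pool.Statements.S03152
import Pool.Agent.Helper811.Cplx7
-- import your own Pool.Agent.* helpers here

set_option autoImplicit false
open Pool Pool.MP_54c5a6_an

namespace Pool.Agent.S03152

/-- Every function from the power set of the line to the line has an uncountable fibre. -/
theorem exists_uncountable_fibre (f : Set ℝ → ℝ) : ∃ a, ¬ (f ⁻¹' {a}).Countable := by
  by_contra hcon
  have h1 : ∀ a, (f ⁻¹' {a}).Countable := by
    intro a
    by_contra h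
    exact hcon ⟨a, h⟩
  have h2 : (Set.univ : Set (Set ℝ)) = ⋃ a : ℝ, f ⁻¹' {a} := by
    ext b
    simp
  have h3 : Cardinal.mk (Set ℝ) ≤ Cardinal.mk ℝ := by
    rw [← Cardinal.mk_univ, h2]
    refine (Cardinal.mk_iUnion_le _).trans ?_
    have h4 : (⨆ a : ℝ, Cardinal.mk (f ⁻¹' {a})) ≤ Cardinal.aleph0 :=
      ciSup_le' fun a => Cardinal.le_aleph0_iff_set_countable.2 (h1 a)
    refine (mul_le_mul' le_rfl h4).trans ?_
    rw [Cardinal.mk_real, Cardinal.continuum_mul_aleph0]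
  rw [Cardinal.mk_set] at h3
  exact absurd h3 (not_le.2 (Cardinal.cantor _))

/-- The negation of the preceding statement: For every complex Banach space, if the weak* dual unit ball has a dense Σ-subset that is convex and symmetric, then it has a dense Σ-subset closed under complex combinations with coefficient moduli summing to at most 1. -/
theorem result :
    ¬ (∀ (X : Type) [NormedAddCommGroup X] [NormedSpace ℂ X] [CompleteSpace X],
      (∃ A : Set (WeakDual ℂ X),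
          ({φ : WeakDual ℂ X | ∀ x : X, ‖φ x‖ ≤ ‖x‖} ⊆ closure A) ∧
          (∃ (Γ : Type) (h : WeakDual ℂ X → (Γ → ℝ)),
              ContinuousOn h {φ : WeakDual ℂ X | ∀ x : X, ‖φ x‖ ≤ ‖x‖} ∧
              Set.InjOn h {φ : WeakDual ℂ X | ∀ x : X, ‖φ x‖ ≤ ‖x‖} ∧
              A = {φ : WeakDual ℂ X | ∀ x : X, ‖φ x‖ ≤ ‖x‖} ∩
                    h ⁻¹' {y : Γ → ℝ | Set.Countable {γ : Γ | y γ ≠ 0}}) ∧
          (∀ a ∈ A, ∀ b ∈ A, ∀ t : ℝ, 0 ≤ t → t ≤ 1 →
              ((t : ℂ) • a + ((1 : ℂ) - (t : ℂ)) • b) ∈ A) ∧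
          (∀ a ∈ A, ((-1 : ℂ) • a) ∈ A)) →
      (∃ A : Set (WeakDual ℂ X),
          ({φ : WeakDual ℂ X | ∀ x : X, ‖φ x‖ ≤ ‖x‖} ⊆ closure A) ∧
          (∃ (Γ : Type) (h : WeakDual ℂ X → (Γ → ℝ)),
              ContinuousOn h {φ : WeakDual ℂ X | ∀ x : X, ‖φ x‖ ≤ ‖x‖} ∧
              Set.InjOn h {φ : WeakDual ℂ X | ∀ x : X, ‖φ x‖ ≤ ‖x‖} ∧
              A = {φ : WeakDual ℂ X | ∀ x : X, ‖φ x‖ ≤ ‖x‖} ∩
                    h ⁻¹' {y : Γ → ℝ | Set.Countable {γ : Γ | y γ ≠ 0}}) ∧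
          (∀ a ∈ A, ∀ b ∈ A, ∀ s t : ℂ, ‖s‖ + ‖t‖ ≤ 1 → (s • a + t • b) ∈ A))) := by
  intro hall
  refine Pool.Agent.Helper811.Cplx.no_complex_structure (A := ℝ) (B := Set ℝ)
    Cardinal.not_countable_real exists_uncountable_fibre ∅ Set.univ
    (Set.empty_ne_univ) ?_
  exact hall (Pool.Agent.Helper811.Cplx.XX ℝ (Set ℝ)) Pool.Agent.Helper811.Cplx.real_structure

end Pool.Agent.S03152
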