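import Pool.Statements.S03153
import Pool.Agent.Helper766.Univalence
-- import your own Pool.Agent.* helpers here

set_option autoImplicit false
open Pool Pool.MP_54ecb1_an

namespace Pool.Agent.S03153

/-- For every N ≥ 1, with t = cos(π/(N+2)), the polynomial sum over j=1..N of U'_{N-j+1}(t)·U_{j-1}(t)/U'_N(t)·z^j (U = Chebyshev of the second kind) is injective on the open unit disc. -/
theorem result :
    ∀ N : ℕ, 1 ≤ N →
      Set.InjOn
        (fun z : ℂ =>
          ∑ j ∈ Finset.Icc 1 N,
            (((Polynomial.eval (Real.cos (Real.pi / ((N : ℝ) + 2)))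
                  (Polynomial.derivative
                    (Polynomial.Chebyshev.U ℝ ((N : ℤ) - (j : ℤ) + 1))) *
                Polynomial.eval (Real.cos (Real.pi / ((N : ℝ) + 2)))
                  (Polynomial.Chebyshev.U ℝ ((j : ℤ) - 1)) /
                Polynomial.eval (Real.cos (Real.pi / ((N : ℝ) + 2)))
                  (Polynomial.derivative (Polynomial.Chebyshev.U ℝ (N : ℤ)))) : ℝ) : ℂ) *
              z ^ j)
        (Metric.ball (0 : ℂ) 1) := by
  intro N hN
  have h := Pool.Agent.Helper766.FN_injOn hN
  have e : (fun z : ℂ => Polynomial.aeval z (Pool.Agent.Helper766.FN N)) =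
      (fun z : ℂ => ∑ j ∈ Finset.Icc 1 N, ((Pool.Agent.Helper766.coef N j : ℝ) : ℂ) * z ^ j) := by
    funext z
    exact Pool.Agent.Helper766.aeval_FN N z
  rw [e] at h
  exact h

end Pool.Agent.S03153
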