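import Pool.Statements.S03156
import Pool.Agent.Helper692.HpT.Main

set_option autoImplicit false
open scoped ENNReal
open Pool Pool.MP_552283_an

namespace Pool.Agent.S03156

/-- The negation of the preceding statement: For every p with 1<p<∞, p≠2, the Hardy space H^p of the infinite torus (L^p functions with no negative Fourier modes, equivalent to H^p of Dirichlet series) has a sequence e such that every element has a unique unconditionally convergent expansion in e. -/
theorem result :
    ¬ (∀ (p : ℝ≥0∞) [Fact (1 ≤ p)], 1 < p → p ≠ ⊤ → p ≠ 2 →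
      ∃ e : ℕ → MeasureTheory.Lp ℂ p
          (MeasureTheory.Measure.infinitePi
            (fun _ : ℕ => (AddCircle.haarAddCircle : MeasureTheory.Measure (AddCircle (1 : ℝ))))),
        (∀ n, ∀ α : ℕ →₀ ℤ, (∃ i, α i < 0) →
          ∫ ω, (e n : (ℕ → AddCircle (1 : ℝ)) → ℂ) ω *
              ∏ i ∈ α.support, fourier (-(α i)) (ω i)
            ∂(MeasureTheory.Measure.infinitePi
              (fun _ : ℕ => (AddCircle.haarAddCircle : MeasureTheory.Measure (AddCircle (1 : ℝ))))) = 0) ∧
        ∀ f : MeasureTheory.Lp ℂ p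
            (MeasureTheory.Measure.infinitePi
              (fun _ : ℕ => (AddCircle.haarAddCircle : MeasureTheory.Measure (AddCircle (1 : ℝ))))),
          (∀ α : ℕ →₀ ℤ, (∃ i, α i < 0) →
            ∫ ω, (f : (ℕ → AddCircle (1 : ℝ)) → ℂ) ω *
                ∏ i ∈ α.support, fourier (-(α i)) (ω i)
              ∂(MeasureTheory.Measure.infinitePi
                (fun _ : ℕ => (AddCircle.haarAddCircle : MeasureTheory.Measure (AddCircle (1 : ℝ))))) = 0) →
          ∃! c : ℕ → ℂ, HasSum (fun n => c n • e n) f) := by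
  intro H
  have : Fact ((1 : ℝ≥0∞) ≤ 250) := ⟨by norm_num⟩
  obtain ⟨e, he, h⟩ := H 250 (by norm_num) (by norm_num) (by norm_num)
  have hmem : ∀ n, e n ∈ Helper692.HpT.Hp 250 := fun n =>
    (Helper692.HpT.mem_Hp (e n)).2 (he n)
  refine Helper692.HpT.no_basis (p := 250) (by norm_num) (fun n => ⟨e n, hmem n⟩) ?_
  intro f
  obtain ⟨c, hc, huniq⟩ := h f ((Helper692.HpT.mem_Hp _).1 f.2)
  have key : ∀ c : ℕ → ℂ, HasSum (fun n => c n • (⟨e n, hmem n⟩ : Helper692.HpT.Hp 250)) f ↔
      HasSum (fun n => c n • e n) (f : MeasureTheory.Lp ℂ 250 Helper692.HpT.mu) := by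
    intro c
    exact (Topology.IsInducing.subtypeVal.hasSum_iff (g := (Helper692.HpT.Hp 250).subtype)
      (fun n => c n • (⟨e n, hmem n⟩ : Helper692.HpT.Hp 250)) f).symm
  exact ⟨c, (key c).2 hc, fun d hd => huniq d ((key d).1 hd)⟩

end Pool.Agent.S03156
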