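import Pool.Statements.S03157
-- import your own Pool.Agent.* helpers here

set_option autoImplicit false
open Pool Pool.MP_555292_an

namespace Pool.Agent.S03157

/-! ### General facts on sequences with `f (n + p) = f n / 90` -/

/-- the set of subsums -/
def E (f : ℕ → ℝ) : Set ℝ := {s : ℝ | ∃ A : Set ℕ, s = ∑' n, A.indicator f n}

/-- the block sequence with weights `w 0, …, w (p-1)` and ratio `1/90` -/
noncomputable def bs (p : ℕ) (w : ℕ → ℕ) (n : ℕ) : ℝ := (w (n % p) : ℝ) / 90 ^ (n / p)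

theorem bs_nonneg (p : ℕ) (w : ℕ → ℕ) (n : ℕ) : 0 ≤ bs p w n := by
  unfold bs; positivity

theorem bs_shift (p : ℕ) (hp : 0 < p) (w : ℕ → ℕ) (n : ℕ) : bs p w (n + p) = bs p w n / 90 := by
  unfold bs
  rw [Nat.add_mod_right, Nat.add_div_right n hp, pow_succ]
  field_simp

theorem bs_block (p : ℕ) (hp : 0 < p) (w : ℕ → ℕ) (J i : ℕ) (hi : i < p) :
    bs p w (p * J + i) = (w i : ℝ) / 90 ^ J := by
  unfold bs
  rw [Nat.mul_add_mod, Nat.mod_eq_of_lt hi, Nat.mul_add_div hp, Nat.div_eq_of_lt hi, add_zero]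

theorem bs_small (p : ℕ) (w : ℕ → ℕ) (i : ℕ) (hi : i < p) : bs p w i = (w i : ℝ) := by
  unfold bs
  rw [Nat.mod_eq_of_lt hi, Nat.div_eq_of_lt hi]
  simp

theorem sum_blocks (p : ℕ) (hp : 0 < p) (w : ℕ → ℕ) (N : ℕ) :
    ∑ n ∈ Finset.range (p * N), bs p w n
      = (∑ i ∈ Finset.range p, (w i : ℝ)) * (90 / 89 * (1 - 1 / 90 ^ N)) := by
  induction N with
  | zero => simp
  | succ N ih =>
    rw [Nat.mul_succ, Finset.sum_range_add, ih]
    have : ∑ i ∈ Finset.range p, bs p w (p * N + i) = (∑ i ∈ Finset.range p, (w i : ℝ)) / 90 ^ N := by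
      rw [Finset.sum_div]
      exact Finset.sum_congr rfl fun i hi => bs_block p hp w N i (Finset.mem_range.1 hi)
    rw [this, pow_succ]
    field_simp
    ring

theorem bs_summable (p : ℕ) (hp : 0 < p) (w : ℕ → ℕ) : Summable (bs p w) := by
  refine summable_of_sum_range_le (c := (∑ i ∈ Finset.range p, (w i : ℝ)) * (90 / 89))
    (bs_nonneg p w) fun N => ?_
  have h1 : ∑ n ∈ Finset.range N, bs p w n ≤ ∑ n ∈ Finset.range (p * N), bs p w n :=
    Finset.sum_le_sum_of_subset_of_nonneg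
      (Finset.range_mono (Nat.le_mul_of_pos_left N hp)) (fun _ _ _ => bs_nonneg p w _)
  rw [sum_blocks p hp w N] at h1
  refine h1.trans ?_
  have h2 : (0 : ℝ) ≤ ∑ i ∈ Finset.range p, (w i : ℝ) := Finset.sum_nonneg fun _ _ => by positivity
  refine mul_le_mul_of_nonneg_left ?_ h2
  have h3 : (0 : ℝ) < 1 / 90 ^ N := by positivity
  linarith

theorem ind_summable {f : ℕ → ℝ} (hf : Summable f) (A : Set ℕ) : Summable (A.indicator f) :=
  hf.indicator A

/-- decomposition of a subsum -/
theorem dec (p : ℕ) (hp : 0 < p) (w : ℕ → ℕ) (s : ℝ) (hs : s ∈ E (bs p w)) :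
    ∃ S : Finset ℕ, S ⊆ Finset.range p ∧ ∃ s' ∈ E (bs p w),
      s = ((∑ i ∈ S, w i : ℕ) : ℝ) + s' / 90 := by
  classical
  obtain ⟨A, rfl⟩ := hs
  refine ⟨(Finset.range p).filter (· ∈ A), Finset.filter_subset _ _,
    ∑' n, ({n | n + p ∈ A} : Set ℕ).indicator (bs p w) n, ⟨_, rfl⟩, ?_⟩
  rw [← (ind_summable (bs_summable p hp w) A).sum_add_tsum_nat_add p]
  congr 1
  · push_cast
    rw [Finset.sum_filter]
    refine Finset.sum_congr rfl fun i hi => ?_
    rw [Set.indicator_apply]
    split_ifs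
    · exact bs_small p w i (Finset.mem_range.1 hi)
    · rfl
  · rw [← tsum_div_const]
    refine tsum_congr fun n => ?_
    rw [Set.indicator_apply, Set.indicator_apply]
    simp only [Set.mem_ofPred_eq]
    split_ifs
    · exact bs_shift p hp w n
    · simp

/-- bounded self-reproducing sequences give subsums -/
theorem coind (p : ℕ) (hp : 0 < p) (w : ℕ → ℕ) (t : ℕ → ℝ) (B : ℝ) (hB : ∀ j, |t j| ≤ B)
    (S : ℕ → Finset ℕ) (hS : ∀ j, S j ⊆ Finset.range p)
    (h : ∀ j, t j = ((∑ i ∈ S j, w i : ℕ) : ℝ) + t (j + 1) / 90) : t 0 ∈ E (bs p w) := by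
  classical
  let A : Set ℕ := {n | n % p ∈ S (n / p)}
  refine ⟨A, ?_⟩
  have hpart : ∀ J, ∑ n ∈ Finset.range (p * J), A.indicator (bs p w) n = t 0 - t J / 90 ^ J := by
    intro J
    induction J with
    | zero => simp
    | succ J ih =>
      rw [Nat.mul_succ, Finset.sum_range_add, ih]
      have h1 : ∑ i ∈ Finset.range p, A.indicator (bs p w) (p * J + i)
          = ((∑ i ∈ S J, w i : ℕ) : ℝ) / 90 ^ J := by
        push_cast
        rw [Finset.sum_div, ← Finset.sum_subset (hS J)]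
        · refine Finset.sum_congr rfl fun i hi => ?_
          have hi' := Finset.mem_range.1 (hS J hi)
          rw [Set.indicator_of_mem, bs_block p hp w J i hi']
          change (p * J + i) % p ∈ S ((p * J + i) / p)
          rw [Nat.mul_add_mod, Nat.mod_eq_of_lt hi', Nat.mul_add_div hp, Nat.div_eq_of_lt hi',
            add_zero]
          exact hi
        · intro i hi hi2
          have hi' := Finset.mem_range.1 hi
          rw [Set.indicator_of_notMem]
          change ¬ ((p * J + i) % p ∈ S ((p * J + i) / p))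
          rw [Nat.mul_add_mod, Nat.mod_eq_of_lt hi', Nat.mul_add_div hp, Nat.div_eq_of_lt hi',
            add_zero]
          exact hi2
      have h2 := h J
      have h3 : ((∑ i ∈ S J, w i : ℕ) : ℝ) = t J - t (J + 1) / 90 := by linarith
      rw [h1, h3, pow_succ]
      field_simp
      ring
  have hlim1 : Filter.Tendsto (fun J => ∑ n ∈ Finset.range (p * J), A.indicator (bs p w) n)
      Filter.atTop (nhds (∑' n, A.indicator (bs p w) n)) := by
    have h1 := (ind_summable (bs_summable p hp w) A).hasSum.tendsto_sum_nat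
    exact h1.comp (Filter.tendsto_atTop_mono (fun J => Nat.le_mul_of_pos_left J hp)
      Filter.tendsto_id)
  have hlim2 : Filter.Tendsto (fun J => t 0 - t J / 90 ^ J) Filter.atTop (nhds (t 0)) := by
    have h0 : Filter.Tendsto (fun J => t J / 90 ^ J) Filter.atTop (nhds 0) := by
      have hgeo : Filter.Tendsto (fun J : ℕ => B * (1 / 90 : ℝ) ^ J) Filter.atTop (nhds 0) := by
        have := (tendsto_pow_atTop_nhds_zero_of_lt_one (r := (1 / 90 : ℝ)) (by norm_num)
          (by norm_num)).const_mul B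
        simpa using this
      refine squeeze_zero_norm (fun J => ?_) hgeo
      rw [Real.norm_eq_abs, abs_div, abs_of_pos (by positivity : (0 : ℝ) < 90 ^ J), one_div_pow,
        mul_one_div]
      exact div_le_div_of_nonneg_right (hB J) (by positivity)
    simpa using h0.const_sub (t 0)
  simp only [hpart] at hlim1
  exact tendsto_nhds_unique hlim2 hlim1

theorem E_nonneg (p : ℕ) (w : ℕ → ℕ) (s : ℝ) (hs : s ∈ E (bs p w)) : 0 ≤ s := by
  obtain ⟨A, rfl⟩ := hs
  exact tsum_nonneg fun n => Set.indicator_nonneg (fun n _ => bs_nonneg p w n) n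

theorem E_le (p : ℕ) (hp : 0 < p) (w : ℕ → ℕ) (s : ℝ) (hs : s ∈ E (bs p w)) :
    s ≤ ∑' n, bs p w n := by
  obtain ⟨A, rfl⟩ := hs
  exact (ind_summable (bs_summable p hp w) A).tsum_le_tsum
    (fun n => Set.indicator_le_self' (fun n _ => bs_nonneg p w n) n) (bs_summable p hp w)

theorem tsum_bs (p : ℕ) (hp : 0 < p) (w : ℕ → ℕ) :
    ∑' n, bs p w n = (∑ i ∈ Finset.range p, (w i : ℝ)) * (90 / 89) := by
  have h1 := (bs_summable p hp w).sum_add_tsum_nat_add p
  have h2 : ∑' n, bs p w (n + p) = (∑' n, bs p w n) / 90 := by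
    rw [← tsum_div_const]
    exact tsum_congr fun n => bs_shift p hp w n
  have h3 : ∑ i ∈ Finset.range p, bs p w i = ∑ i ∈ Finset.range p, (w i : ℝ) :=
    Finset.sum_congr rfl fun i hi => bs_small p w i (Finset.mem_range.1 hi)
  rw [h2, h3] at h1
  linarith

/-! ### The two sequences -/

/-- weights of `x` -/
def wx (i : ℕ) : ℕ := if i = 0 then 360 else 24

/-- weights of `y` -/
def wy (i : ℕ) : ℕ := if i < 9 then 28 + 3 * i else 24

/-- the finite set of block sums of `y` -/
def D : Finset ℕ := (Finset.range 10).powerset.image (fun S => ∑ i ∈ S, wy i)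

theorem D_mem (S : Finset ℕ) (hS : S ⊆ Finset.range 10) : ∑ i ∈ S, wy i ∈ D :=
  Finset.mem_image.2 ⟨S, Finset.mem_powerset.2 hS, rfl⟩

theorem D_cases : ∀ d ∈ D, d = 0 ∨ d = 24 ∨ d = 28 ∨ d = 356 ∨ d = 360 ∨ d = 384 ∨
    (31 ≤ d ∧ d ≤ 353) := by
  decide +kernel

theorem D_dense : ∀ n ∈ Finset.Icc 28 355, ∃ d ∈ D, n ≤ d + 2 ∧ d ≤ n := by
  decide +kernel

theorem D_spec : 0 ∈ D ∧ 24 ∈ D ∧ 28 ∈ D ∧ 356 ∈ D ∧ 360 ∈ D ∧ 384 ∈ D := by
  decide +kernel

/-! ### Closure principles -/

theorem coind_set (p : ℕ) (hp : 0 < p) (w : ℕ → ℕ) (A : Set ℝ) (B : ℝ) (hB : ∀ a ∈ A, |a| ≤ B)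
    (hA : ∀ a ∈ A, ∃ S : Finset ℕ, S ⊆ Finset.range p ∧ ∃ a' ∈ A,
      a = ((∑ i ∈ S, w i : ℕ) : ℝ) + a' / 90) : A ⊆ E (bs p w) := by
  intro a ha
  choose! S hS a' ha' h using hA
  have hmem : ∀ j, a'^[j] a ∈ A := by
    intro j
    induction j with
    | zero => exact ha
    | succ j ih => rw [Function.iterate_succ_apply']; exact ha' _ ih
  have := coind p hp w (fun j => a'^[j] a) B (fun j => hB _ (hmem j)) (fun j => S (a'^[j] a))
    (fun j => hS _ (hmem j)) (fun j => by
      have := h _ (hmem j)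
      rw [Function.iterate_succ_apply']
      exact this)
  exact this

theorem E_cons (p : ℕ) (hp : 0 < p) (w : ℕ → ℕ) (S : Finset ℕ) (hS : S ⊆ Finset.range p)
    (s : ℝ) (hs : s ∈ E (bs p w)) : ((∑ i ∈ S, w i : ℕ) : ℝ) + s / 90 ∈ E (bs p w) := by
  classical
  obtain ⟨A, rfl⟩ := hs
  refine ⟨{n | (n < p ∧ n ∈ S) ∨ (p ≤ n ∧ n - p ∈ A)}, ?_⟩
  rw [← (ind_summable (bs_summable p hp w)
    {n | (n < p ∧ n ∈ S) ∨ (p ≤ n ∧ n - p ∈ A)}).sum_add_tsum_nat_add p]
  congr 1
  · push_cast
    refine Eq.trans ?_ (Finset.sum_subset hS ?_)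
    · refine Finset.sum_congr rfl fun i hi => ?_
      have hi' := Finset.mem_range.1 (hS hi)
      rw [Set.indicator_of_mem (by exact Or.inl ⟨hi', hi⟩), bs_small p w i hi']
    · intro i hi hi2
      have hi' := Finset.mem_range.1 hi
      rw [Set.indicator_of_notMem]
      rintro (h | h)
      · exact hi2 h.2
      · exact absurd h.1 (by omega)
  · rw [← tsum_div_const]
    refine tsum_congr fun n => ?_
    have hiff : n + p ∈ ({n | (n < p ∧ n ∈ S) ∨ (p ≤ n ∧ n - p ∈ A)} : Set ℕ) ↔ n ∈ A := by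
      simp only [Set.mem_ofPred_eq]
      constructor
      · rintro (h | h)
        · omega
        · have := h.2
          rwa [Nat.add_sub_cancel] at this
      · intro h
        right
        exact ⟨by omega, by rwa [Nat.add_sub_cancel]⟩
    rw [Set.indicator_apply, Set.indicator_apply]
    simp only [hiff]
    split_ifs
    · exact (bs_shift p hp w n).symm
    · simp

theorem E_zero (p : ℕ) (w : ℕ → ℕ) : (0 : ℝ) ∈ E (bs p w) := ⟨∅, by simp⟩

/-! ### Concrete values -/

noncomputable abbrev X : ℕ → ℝ := bs 2 wx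
noncomputable abbrev Y : ℕ → ℝ := bs 10 wy

theorem tsum_X : ∑' n, X n = 34560 / 89 := by
  rw [tsum_bs 2 (by norm_num)]
  simp [Finset.sum_range_succ, wx]
  norm_num

theorem tsum_Y : ∑' n, Y n = 34560 / 89 := by
  rw [tsum_bs 10 (by norm_num)]
  simp [Finset.sum_range_succ, wy]
  norm_num

theorem X_shift (n : ℕ) : X (n + 2) = X n / 90 := bs_shift 2 (by norm_num) wx n

theorem X_zero : X 0 = 360 := by rw [X, bs_small 2 wx 0 (by norm_num)]; simp [wx]

theorem X_one : X 1 = 24 := by rw [X, bs_small 2 wx 1 (by norm_num)]; simp [wx]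

theorem X_pos (n : ℕ) : 0 < X n := by
  have : 0 < wx (n % 2) := by unfold wx; split_ifs <;> norm_num
  unfold X bs
  positivity

theorem Y_pos (n : ℕ) : 0 < Y n := by
  have : 0 < wy (n % 10) := by unfold wy; split_ifs <;> omega
  unfold Y bs
  positivity

theorem X_summable : Summable X := bs_summable 2 (by norm_num) wx

theorem tail_shift (m : ℕ) : ∑' k, X (m + 2 + k) = (∑' k, X (m + k)) / 90 := by
  rw [← tsum_div_const]
  refine tsum_congr fun k => ?_
  rw [show m + 2 + k = m + k + 2 by ring, X_shift]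

theorem tail_zero : ∑' k, X (0 + 1 + k) = 2520 / 89 := by
  have h1 := X_summable.sum_add_tsum_nat_add 1
  rw [tsum_X, Finset.sum_range_one, X_zero] at h1
  have h2 : ∑' k, X (0 + 1 + k) = ∑' k, X (k + 1) := tsum_congr fun k => by
    rw [show 0 + 1 + k = k + 1 by ring]
  rw [h2]
  linarith

theorem tail_one : ∑' k, X (1 + 1 + k) = 384 / 89 := by
  have h := tail_shift 0
  simp only [zero_add] at h
  rw [show (1 : ℕ) + 1 = 2 by norm_num, h, tsum_X]
  norm_num

theorem fast (n : ℕ) : ∑' k, X (n + 1 + k) < X n := by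
  induction n using Nat.twoStepInduction with
  | zero => rw [tail_zero, X_zero]; norm_num
  | one => rw [tail_one, X_one]; norm_num
  | more n ih _ =>
    rw [show n + 2 + 1 = n + 1 + 2 by ring, tail_shift, X_shift]
    linarith

/-- the filled set -/
def K : Set ℝ := {s : ℝ | ∃ A : Set ℕ, s = ∑' n, A.indicator X n} ∪
          {t : ℝ | ∃ n : ℕ, Even n ∧ ∃ F : Finset ℕ, F ⊆ Finset.range n ∧
              (∑ i ∈ F, X i) + (∑' k, X (n + 1 + k)) < t ∧
              t < (∑ i ∈ F, X i) + X n}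

theorem EX_sub_K : E X ⊆ K := fun _ h => Or.inl h

theorem K1 (t : ℝ) (h1 : 2520 / 89 < t) (h2 : t < 360) : t ∈ K := by
  right
  refine ⟨0, Even.zero, ∅, by simp, ?_, ?_⟩
  · rw [Finset.sum_empty, tail_zero]; linarith
  · rw [Finset.sum_empty, X_zero]; linarith

theorem K1' (t : ℝ) (h1 : 2520 / 89 ≤ t) (h2 : t ≤ 360) : t ∈ K := by
  rcases eq_or_lt_of_le h1 with h1 | h1
  · rw [← h1]
    apply EX_sub_K
    have h3 : (34560 / 89 : ℝ) ∈ E X := ⟨Set.univ, by simp [tsum_X]⟩
    have := E_cons 2 (by norm_num) wx {1} (by decide) _ h3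
    convert this using 1
    simp [wx]
    norm_num
  · rcases eq_or_lt_of_le h2 with h2 | h2
    · rw [h2]
      apply EX_sub_K
      have := E_cons 2 (by norm_num) wx {0} (by decide) _ (E_zero 2 wx)
      convert this using 1
      simp [wx]
    · exact K1 t h1 h2

theorem K2 (S : Finset ℕ) (hS : S ⊆ Finset.range 2) (t : ℝ) (ht : t ∈ K) :
    ((∑ i ∈ S, wx i : ℕ) : ℝ) + t / 90 ∈ K := by
  classical
  rcases ht with ht | ⟨n, hn, F, hF, h1, h2⟩
  · exact Or.inl (E_cons 2 (by norm_num) wx S hS t ht)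
  · right
    have hsum : ∑ i ∈ S ∪ F.image (fun i => i + 2), X i
        = ((∑ i ∈ S, wx i : ℕ) : ℝ) + (∑ i ∈ F, X i) / 90 := by
      rw [Finset.sum_union, Finset.sum_image (fun a _ b _ hab => by simpa using hab),
        Finset.sum_div]
      · congr 1
        · push_cast
          exact Finset.sum_congr rfl fun i hi => bs_small 2 wx i (Finset.mem_range.1 (hS hi))
        · exact Finset.sum_congr rfl fun i _ => X_shift i
      · rw [Finset.disjoint_left]
        intro i hi hi2
        obtain ⟨j, -, rfl⟩ := Finset.mem_image.1 hi2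
        have := Finset.mem_range.1 (hS hi)
        omega
    refine ⟨n + 2, by rw [Nat.even_add]; simp [hn], S ∪ F.image (fun i => i + 2), ?_, ?_, ?_⟩
    · intro i hi
      rcases Finset.mem_union.1 hi with hi | hi
      · have := Finset.mem_range.1 (hS hi)
        exact Finset.mem_range.2 (by omega)
      · obtain ⟨j, hj, rfl⟩ := Finset.mem_image.1 hi
        have := Finset.mem_range.1 (hF hj)
        exact Finset.mem_range.2 (by omega)
    · rw [hsum, show n + 2 + 1 = n + 1 + 2 by ring, tail_shift]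
      linarith
    · rw [hsum, X_shift]
      linarith

theorem K3 (t : ℝ) (ht : t ∈ K) : (2520 / 89 < t ∧ t < 360) ∨
    ∃ S : Finset ℕ, S ⊆ Finset.range 2 ∧ ∃ t' ∈ K, t = ((∑ i ∈ S, wx i : ℕ) : ℝ) + t' / 90 := by
  classical
  rcases ht with ht | ⟨n, hn, F, hF, h1, h2⟩
  · right
    obtain ⟨S, hS, s', hs', h⟩ := dec 2 (by norm_num) wx t ht
    exact ⟨S, hS, s', Or.inl hs', h⟩
  · rcases Nat.eq_zero_or_pos n with rfl | hn0
    · left
      have : F = ∅ := Finset.subset_empty.1 (by simpa using hF)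
      subst this
      rw [Finset.sum_empty, tail_zero] at h1
      rw [Finset.sum_empty, X_zero] at h2
      constructor <;> linarith
    · right
      obtain ⟨m, rfl⟩ : ∃ m, n = m + 2 := by
        obtain ⟨k, hk⟩ := hn
        exact ⟨n - 2, by omega⟩
      have hm : Even m := by
        rw [Nat.even_add] at hn
        simpa using hn
      refine ⟨F.filter (· < 2), ?_, (t - ((∑ i ∈ F.filter (· < 2), wx i : ℕ) : ℝ)) * 90, ?_, by ring⟩
      · intro i hi
        exact Finset.mem_range.2 (Finset.mem_filter.1 hi).2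
      · right
        let F' : Finset ℕ := (Finset.range m).filter (fun i => i + 2 ∈ F)
        have hFe : F = F.filter (· < 2) ∪ F'.image (fun i => i + 2) := by
          ext i
          simp only [F', Finset.mem_union, Finset.mem_filter, Finset.mem_image, Finset.mem_range]
          constructor
          · intro hi
            by_cases h : i < 2
            · exact Or.inl ⟨hi, h⟩
            · right
              have := Finset.mem_range.1 (hF hi)
              exact ⟨i - 2, ⟨by omega, by rwa [Nat.sub_add_cancel (by omega)]⟩, by omega⟩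
          · rintro (h | ⟨j, hj, rfl⟩)
            · exact h.1
            · exact hj.2
        have hsum : ∑ i ∈ F, X i
            = ((∑ i ∈ F.filter (· < 2), wx i : ℕ) : ℝ) + (∑ i ∈ F', X i) / 90 := by
          conv_lhs => rw [hFe]
          rw [Finset.sum_union, Finset.sum_image (fun a _ b _ hab => by simpa using hab),
            Finset.sum_div]
          · congr 1
            · push_cast
              exact Finset.sum_congr rfl fun i hi => bs_small 2 wx i (Finset.mem_filter.1 hi).2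
            · exact Finset.sum_congr rfl fun i _ => X_shift i
          · rw [Finset.disjoint_left]
            intro i hi hi2
            obtain ⟨j, -, rfl⟩ := Finset.mem_image.1 hi2
            have := (Finset.mem_filter.1 hi).2
            omega
        refine ⟨m, hm, F', Finset.filter_subset _ _, ?_, ?_⟩
        · rw [hsum, show m + 2 + 1 = m + 1 + 2 by ring, tail_shift] at h1
          linarith
        · rw [hsum, X_shift] at h2
          linarith

theorem K_bounds (t : ℝ) (ht : t ∈ K) : 0 ≤ t ∧ t ≤ 34560 / 89 := by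
  classical
  rcases ht with ht | ⟨n, hn, F, hF, h1, h2⟩
  · exact ⟨E_nonneg 2 wx t ht, (E_le 2 (by norm_num) wx t ht).trans_eq tsum_X⟩
  · constructor
    · have h3 : 0 ≤ ∑ i ∈ F, X i := Finset.sum_nonneg fun i _ => (X_pos i).le
      have h4 : 0 ≤ ∑' k, X (n + 1 + k) := tsum_nonneg fun k => (X_pos _).le
      linarith
    · have h3 : ∑ i ∈ insert n F, X i ≤ ∑' k, X k :=
        X_summable.sum_le_tsum _ (fun i _ => (X_pos i).le)
      rw [Finset.sum_insert, tsum_X] at h3
      · linarith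
      · intro h
        exact absurd (Finset.mem_range.1 (hF h)) (lt_irrefl _)

theorem wx_cases (S : Finset ℕ) (hS : S ⊆ Finset.range 2) :
    ∑ i ∈ S, wx i = 0 ∨ ∑ i ∈ S, wx i = 24 ∨ ∑ i ∈ S, wx i = 360 ∨ ∑ i ∈ S, wx i = 384 := by
  have : ∀ S ∈ (Finset.range 2).powerset, ∑ i ∈ S, wx i = 0 ∨ ∑ i ∈ S, wx i = 24 ∨
    ∑ i ∈ S, wx i = 360 ∨ ∑ i ∈ S, wx i = 384 := by decide
  exact this S (Finset.mem_powerset.2 hS)

theorem wx_ex : ∀ e : ℕ, e = 0 ∨ e = 24 ∨ e = 360 ∨ e = 384 →
    ∃ S : Finset ℕ, S ⊆ Finset.range 2 ∧ ∑ i ∈ S, wx i = e := by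
  rintro e (rfl | rfl | rfl | rfl)
  · exact ⟨∅, by decide, by decide⟩
  · exact ⟨{1}, by decide, by decide⟩
  · exact ⟨{0}, by decide, by decide⟩
  · exact ⟨{0, 1}, by decide, by decide⟩

theorem D_ex (d : ℕ) (hd : d ∈ D) : ∃ S : Finset ℕ, S ⊆ Finset.range 10 ∧ ∑ i ∈ S, wy i = d := by
  obtain ⟨S, hS, h⟩ := Finset.mem_image.1 hd
  exact ⟨S, Finset.mem_powerset.1 hS, h⟩

/-- the filled set is reproduced by the digits of `Y` -/
theorem K_sub : K ⊆ E Y := by
  refine coind_set 10 (by norm_num) wy K (34560 / 89) (fun a ha => ?_) (fun a ha => ?_)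
  · have := K_bounds a ha
    rw [abs_of_nonneg this.1]
    exact this.2
  · have key : ∃ d ∈ D, ∃ a' ∈ K, a = (d : ℝ) + a' / 90 := by
      rcases K3 a ha with ⟨h1, h2⟩ | ⟨S, hS, t', ht', h⟩
      · -- the filled gap
        have hr : (28 : ℝ) ≤ a - 28 / 89 := by linarith
        set n := ⌊a - 28 / 89⌋₊ with hn
        have hn1 : (n : ℝ) ≤ a - 28 / 89 := Nat.floor_le (by linarith)
        have hn2 : a - 28 / 89 < n + 1 := Nat.lt_floor_add_one _
        have hn3 : 28 ≤ n := Nat.le_floor (by exact_mod_cast hr)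
        by_cases hn4 : n ≤ 355
        · obtain ⟨d, hd, hd1, hd2⟩ := D_dense n (Finset.mem_Icc.2 ⟨hn3, hn4⟩)
          have hd1' : (n : ℝ) ≤ d + 2 := by exact_mod_cast hd1
          have hd2' : (d : ℝ) ≤ n := by exact_mod_cast hd2
          refine ⟨d, hd, (a - d) * 90, K1' _ ?_ ?_, by ring⟩
          · linarith
          · linarith
        · push Not at hn4
          have hn5 : (356 : ℝ) ≤ n := by exact_mod_cast hn4
          refine ⟨356, D_spec.2.2.2.1, (a - 356) * 90, K1' _ ?_ ?_, by push_cast; ring⟩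
          · linarith
          · linarith
      · refine ⟨∑ i ∈ S, wx i, ?_, t', ht', h⟩
        rcases wx_cases S hS with h | h | h | h <;> rw [h]
        · exact D_spec.1
        · exact D_spec.2.1
        · exact D_spec.2.2.2.2.1
        · exact D_spec.2.2.2.2.2
    obtain ⟨d, hd, a', ha', h⟩ := key
    obtain ⟨S, hS, hSd⟩ := D_ex d hd
    exact ⟨S, hS, a', ha', by rw [hSd]; exact h⟩

theorem decY (s : ℝ) (hs : s ∈ E Y) : ∃ d ∈ D, ∃ s' ∈ E Y, s = (d : ℝ) + s' / 90 := by
  obtain ⟨S, hS, s', hs', h⟩ := dec 10 (by norm_num) wy s hs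
  exact ⟨_, D_mem S hS, s', hs', h⟩

theorem Y_bounds (s : ℝ) (hs : s ∈ E Y) : 0 ≤ s ∧ s ≤ 34560 / 89 :=
  ⟨E_nonneg 10 wy s hs, (E_le 10 (by norm_num) wy s hs).trans_eq tsum_Y⟩

theorem L1 (s : ℝ) (hs : s ∈ E Y) (hle : s ≤ 2520 / 89) : 360 + s ∈ E Y := by
  have : E Y ∪ {a | ∃ s ∈ E Y, s ≤ 2520 / 89 ∧ a = 360 + s} ⊆ E Y := by
    refine coind_set 10 (by norm_num) wy _ 1000 ?_ ?_
    · rintro a (ha | ⟨s, hs, -, rfl⟩)
      · have := Y_bounds a ha
        rw [abs_of_nonneg this.1]; linarith [this.2]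
      · have := Y_bounds s hs
        rw [abs_of_nonneg (by linarith [this.1])]; linarith [this.2]
    · rintro a (ha | ⟨s, hs, hle, rfl⟩)
      · obtain ⟨S, hS, s', hs', h⟩ := dec 10 (by norm_num) wy a ha
        exact ⟨S, hS, s', Or.inl hs', h⟩
      · obtain ⟨d, hd, s', hs', h⟩ := decY s hs
        have hs'0 := (Y_bounds s' hs').1
        have hdle : (d : ℝ) < 31 := by linarith
        have hdlt : d < 31 := by exact_mod_cast hdle
        have hcase : d = 0 ∨ d = 24 ∨ d = 28 := by
          rcases D_cases d hd with h | h | h | h | h | h | h <;> omega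
        rcases hcase with rfl | rfl | rfl
        · obtain ⟨S, hS, hSd⟩ := D_ex 360 D_spec.2.2.2.2.1
          refine ⟨S, hS, s', Or.inl hs', ?_⟩
          rw [hSd, h]; push_cast; ring
        · obtain ⟨S, hS, hSd⟩ := D_ex 384 D_spec.2.2.2.2.2
          refine ⟨S, hS, s', Or.inl hs', ?_⟩
          rw [hSd, h]; push_cast; ring
        · obtain ⟨S, hS, hSd⟩ := D_ex 384 D_spec.2.2.2.2.2
          refine ⟨S, hS, 360 + s', Or.inr ⟨s', hs', ?_, rfl⟩, ?_⟩
          · push_cast at h; linarith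
          · rw [hSd, h]; push_cast; ring
  exact this (Or.inr ⟨s, hs, hle, rfl⟩)

theorem L2 (s : ℝ) (hs : s ∈ E Y) (hle : 360 ≤ s) : s - 360 ∈ E Y := by
  have : E Y ∪ {a | ∃ s ∈ E Y, 360 ≤ s ∧ a = s - 360} ⊆ E Y := by
    refine coind_set 10 (by norm_num) wy _ 1000 ?_ ?_
    · rintro a (ha | ⟨s, hs, hs2, rfl⟩)
      · have := Y_bounds a ha
        rw [abs_of_nonneg this.1]; linarith [this.2]
      · have := Y_bounds s hs
        rw [abs_of_nonneg (by linarith [this.1])]; linarith [this.2]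
    · rintro a (ha | ⟨s, hs, hle, rfl⟩)
      · obtain ⟨S, hS, s', hs', h⟩ := dec 10 (by norm_num) wy a ha
        exact ⟨S, hS, s', Or.inl hs', h⟩
      · obtain ⟨d, hd, s', hs', h⟩ := decY s hs
        have hs'0 := (Y_bounds s' hs').2
        have hdle : (353 : ℝ) < d := by linarith
        have hdlt : 353 < d := by exact_mod_cast hdle
        have hcase : d = 356 ∨ d = 360 ∨ d = 384 := by
          rcases D_cases d hd with h | h | h | h | h | h | h <;> omega
        rcases hcase with rfl | rfl | rfl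
        · obtain ⟨S, hS, hSd⟩ := D_ex 0 D_spec.1
          refine ⟨S, hS, s' - 360, Or.inr ⟨s', hs', ?_, rfl⟩, ?_⟩
          · push_cast at h; linarith
          · rw [hSd, h]; push_cast; ring
        · obtain ⟨S, hS, hSd⟩ := D_ex 0 D_spec.1
          refine ⟨S, hS, s', Or.inl hs', ?_⟩
          rw [hSd, h]; push_cast; ring
        · obtain ⟨S, hS, hSd⟩ := D_ex 24 D_spec.2.1
          refine ⟨S, hS, s', Or.inl hs', ?_⟩
          rw [hSd, h]; push_cast; ring
  exact this (Or.inr ⟨s, hs, hle, rfl⟩)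

theorem C1 (u : ℝ) (hu : u ∈ E Y) : (2520 / 89 < u ∧ u < 360) ∨
    ∃ S : Finset ℕ, S ⊆ Finset.range 2 ∧ ∃ u' ∈ E Y, u = ((∑ i ∈ S, wx i : ℕ) : ℝ) + u' / 90 := by
  obtain ⟨d, hd, s, hs, h⟩ := decY u hu
  have hb := Y_bounds s hs
  rcases D_cases d hd with rfl | rfl | rfl | rfl | rfl | rfl | ⟨h1, h2⟩
  · right
    obtain ⟨S, hS, hSe⟩ := wx_ex 0 (by norm_num)
    exact ⟨S, hS, s, hs, by rw [hSe]; exact h⟩
  · right
    obtain ⟨S, hS, hSe⟩ := wx_ex 24 (by norm_num)
    exact ⟨S, hS, s, hs, by rw [hSe]; exact h⟩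
  · push_cast at h
    rcases lt_or_ge (2520 / 89) s with hlt | hge
    · left
      constructor
      · linarith
      · linarith [hb.2]
    · right
      obtain ⟨S, hS, hSe⟩ := wx_ex 24 (by norm_num)
      exact ⟨S, hS, 360 + s, L1 s hs hge, by rw [hSe, h]; push_cast; ring⟩
  · push_cast at h
    rcases lt_or_ge s 360 with hlt | hge
    · left
      constructor
      · linarith [hb.1]
      · linarith
    · right
      obtain ⟨S, hS, hSe⟩ := wx_ex 360 (by norm_num)
      exact ⟨S, hS, s - 360, L2 s hs hge, by rw [hSe, h]; push_cast; ring⟩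
  · right
    obtain ⟨S, hS, hSe⟩ := wx_ex 360 (by norm_num)
    exact ⟨S, hS, s, hs, by rw [hSe]; exact h⟩
  · right
    obtain ⟨S, hS, hSe⟩ := wx_ex 384 (by norm_num)
    exact ⟨S, hS, s, hs, by rw [hSe]; exact h⟩
  · left
    have h1' : (31 : ℝ) ≤ d := by exact_mod_cast h1
    have h2' : (d : ℝ) ≤ 353 := by exact_mod_cast h2
    constructor
    · linarith [hb.1]
    · linarith [hb.2]

theorem sub_K : E Y ⊆ K := by
  intro u hu
  by_contra hnot
  have : E Y \ K ⊆ E X := by
    refine coind_set 2 (by norm_num) wx _ (34560 / 89) ?_ ?_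
    · rintro a ⟨ha, -⟩
      have := Y_bounds a ha
      rw [abs_of_nonneg this.1]
      exact this.2
    · rintro a ⟨ha, hK⟩
      rcases C1 a ha with ⟨h1, h2⟩ | ⟨S, hS, a', ha', h⟩
      · exact absurd (K1 a h1 h2) hK
      · refine ⟨S, hS, a', ⟨ha', fun hK' => hK ?_⟩, h⟩
        rw [h]
        exact K2 S hS a' hK'
  exact hnot (EX_sub_K (this ⟨hu, hnot⟩))

/-- There is a positive summable x with each term exceeding its tail sum, such that the set of all its subsums together with the gaps removed at odd construction steps equals the set of all subsums of some positive summable sequence. -/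
theorem result :
    ∃ x : ℕ → ℝ, (∀ n, 0 < x n) ∧ Summable x ∧
      (∀ n, ∑' k, x (n + 1 + k) < x n) ∧
      ∃ y : ℕ → ℝ, (∀ n, 0 < y n) ∧ Summable y ∧
        {s : ℝ | ∃ A : Set ℕ, s = ∑' n, A.indicator y n} =
          {s : ℝ | ∃ A : Set ℕ, s = ∑' n, A.indicator x n} ∪
          {t : ℝ | ∃ n : ℕ, Even n ∧ ∃ F : Finset ℕ, F ⊆ Finset.range n ∧
              (∑ i ∈ F, x i) + (∑' k, x (n + 1 + k)) < t ∧
              t < (∑ i ∈ F, x i) + x n} := by
  refine ⟨X, X_pos, X_summable, fast, Y, Y_pos, bs_summable 10 (by norm_num) wy, ?_⟩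
  exact Set.Subset.antisymm sub_K K_sub

end Pool.Agent.S03157
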