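import Pool.Statements.S03161

set_option autoImplicit false
open Pool Pool.MP_561634_an

namespace Pool.Agent.S03161

open Polynomial

lemma conv_nonneg (E : ℕ → ℝ) (hE : ∀ n, 0 ≤ E (n + 2) - 2 * E (n + 1) + E n) (k : ℕ)
    (h0 : E k = 0) (h1 : E (k + 1) = 0) (j : ℕ) : 0 ≤ E j := by
  have hup : ∀ i, 0 ≤ E (k + i) ∧ E (k + i) ≤ E (k + i + 1) := by
    intro i
    induction i with
    | zero => simp [h0, h1]
    | succ i ih =>
      have := hE (k + i)
      refine ⟨ih.1.trans ih.2, ?_⟩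
      have e : k + (i + 1) + 1 = k + i + 2 := by ring
      rw [e, ← add_assoc]
      linarith [ih.2]
  have hdown : ∀ i, i ≤ k → 0 ≤ E (k - i) ∧ E (k - i + 1) ≤ E (k - i) := by
    intro i
    induction i with
    | zero => intro _; simp [h0, h1]
    | succ i ih =>
      intro hi
      have ih' := ih (by omega)
      have := hE (k - (i + 1))
      have e1 : k - (i + 1) + 1 = k - i := by omega
      have e2 : k - (i + 1) + 2 = k - i + 1 := by omega
      rw [e1, e2] at this
      rw [e1]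
      constructor <;> linarith [ih'.1, ih'.2]
  rcases le_total k j with h | h
  · obtain ⟨i, rfl⟩ := Nat.exists_eq_add_of_le h
    exact (hup i).1
  · have := (hdown (k - j) (Nat.sub_le _ _)).1
    rwa [Nat.sub_sub_self h] at this

/-- A sequence with second differences at least `2 δ` lies above a parabola through `(k, H k)`. -/
lemma parab (H : ℕ → ℝ) (δ : ℝ) (hH : ∀ n, 2 * δ ≤ H (n + 2) - 2 * H (n + 1) + H n) (k : ℕ) :
    ∃ s : ℝ, ∀ j : ℕ, H k + s * ((j : ℝ) - k) + δ * ((j : ℝ) - k) ^ 2 ≤ H j := by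
  refine ⟨H (k + 1) - H k - δ, fun j => ?_⟩
  have := conv_nonneg (fun j => H j - (H k + (H (k + 1) - H k - δ) * ((j : ℝ) - k)
    + δ * ((j : ℝ) - k) ^ 2)) ?_ k ?_ ?_ j
  · simpa using this
  · intro n
    have := hH n
    push_cast
    nlinarith
  · ring
  · push_cast; ring

/-- Weighted telescoping product. -/
lemma prod_range_phi (n : ℕ) : ∏ e ∈ Finset.range n, (((e : ℝ) + 1 / 2) * ((e : ℝ) + 5 / 2) / ((e : ℝ) + 3 / 2) ^ 2)
    = (1 / 3) * ((n : ℝ) + 3 / 2) / ((n : ℝ) + 1 / 2) := by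
  induction n with
  | zero => norm_num
  | succ n ih =>
    rw [Finset.prod_range_succ, ih]
    have h1 : (n : ℝ) + 1 / 2 ≠ 0 := by positivity
    have h2 : (n : ℝ) + 3 / 2 ≠ 0 := by positivity
    push_cast
    have h3 : (n : ℝ) + 1 + 1 / 2 ≠ 0 := by positivity
    field_simp
    ring

lemma phi_pos (e : ℕ) : 0 < (((e : ℝ) + 1 / 2) * ((e : ℝ) + 5 / 2) / ((e : ℝ) + 3 / 2) ^ 2) := by
  positivity

lemma phi_le (e : ℕ) : (((e : ℝ) + 1 / 2) * ((e : ℝ) + 5 / 2) / ((e : ℝ) + 3 / 2) ^ 2) ≤ 1 := by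
  rw [div_le_one (by positivity)]
  nlinarith

lemma prod_phi (B : Finset ℕ) :
    1 / 3 ≤ ∏ e ∈ B, (((e : ℝ) + 1 / 2) * ((e : ℝ) + 5 / 2) / ((e : ℝ) + 3 / 2) ^ 2) := by
  obtain ⟨n, hn⟩ := Finset.exists_nat_subset_range B
  have h1 := prod_range_phi n
  have h2 : ∏ e ∈ Finset.range n, (((e : ℝ) + 1 / 2) * ((e : ℝ) + 5 / 2) / ((e : ℝ) + 3 / 2) ^ 2)
      ≤ ∏ e ∈ B, (((e : ℝ) + 1 / 2) * ((e : ℝ) + 5 / 2) / ((e : ℝ) + 3 / 2) ^ 2) := by
    rw [← Finset.prod_sdiff hn]
    have h3 : ∏ e ∈ Finset.range n \ B, (((e : ℝ) + 1 / 2) * ((e : ℝ) + 5 / 2) / ((e : ℝ) + 3 / 2) ^ 2) ≤ 1 :=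
      Finset.prod_le_one (fun e _ => (phi_pos e).le) (fun e _ => phi_le e)
    have h4 : 0 ≤ ∏ e ∈ B, (((e : ℝ) + 1 / 2) * ((e : ℝ) + 5 / 2) / ((e : ℝ) + 3 / 2) ^ 2) :=
      Finset.prod_nonneg (fun e _ => (phi_pos e).le)
    nlinarith
  refine le_trans ?_ h2
  rw [h1, le_div_iff₀ (by positivity)]
  linarith

/-- The weights `∏_{a ∈ A} (n - a - 1/2)`. -/
noncomputable def wt (A : Finset ℕ) (n : ℕ) : ℝ := ∏ a ∈ A, ((n : ℝ) - a - 1 / 2)

lemma half_ne (n a : ℕ) : (n : ℝ) - a - 1 / 2 ≠ 0 := by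
  intro h
  have h1 : (2 * (n : ℤ) - 2 * a : ℝ) = 1 := by push_cast; linarith
  have h2 : (2 * (n : ℤ) - 2 * a : ℤ) = 1 := by exact_mod_cast h1
  omega

lemma wt_ne (A : Finset ℕ) (n : ℕ) : wt A n ≠ 0 :=
  Finset.prod_ne_zero_iff.mpr (fun a _ => half_ne n a)

lemma wt_second (A : Finset ℕ) (n : ℕ) :
    (1 / 9) * |wt A (n + 1)| ^ 2 ≤ |wt A n| * |wt A (n + 2)| := by
  -- split A into a ≤ n-1, a = n, a = n+1, a ≥ n+2
  have key : ∏ a ∈ A, (|(n : ℝ) - a - 1 / 2| * |((n + 2 : ℕ) : ℝ) - a - 1 / 2| / |((n + 1 : ℕ) : ℝ) - a - 1 / 2| ^ 2) ≥ 1 / 9 := by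
    classical
    set F : ℕ → ℝ := fun a => |(n : ℝ) - a - 1 / 2| * |((n + 2 : ℕ) : ℝ) - a - 1 / 2| / |((n + 1 : ℕ) : ℝ) - a - 1 / 2| ^ 2 with hF
    have hsplit : ∏ a ∈ A, F a = (∏ a ∈ A.filter (fun a => a < n), F a) *
        ((∏ a ∈ (A.filter (fun a => ¬ a < n)).filter (fun a => n + 2 ≤ a), F a) *
         (∏ a ∈ (A.filter (fun a => ¬ a < n)).filter (fun a => ¬ n + 2 ≤ a), F a)) := by
      rw [Finset.prod_filter_mul_prod_filter_not, Finset.prod_filter_mul_prod_filter_not]
    rw [hsplit]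
    have h1 : 1 / 3 ≤ ∏ a ∈ A.filter (fun a => a < n), F a := by
      have : ∏ a ∈ A.filter (fun a => a < n), F a =
          ∏ e ∈ (A.filter (fun a => a < n)).image (fun a => n - 1 - a),
            (((e : ℝ) + 1 / 2) * ((e : ℝ) + 5 / 2) / ((e : ℝ) + 3 / 2) ^ 2) := by
        rw [Finset.prod_image]
        · refine Finset.prod_congr rfl (fun a ha => ?_)
          have ha' : a < n := (Finset.mem_filter.mp ha).2
          have e1 : ((n - 1 - a : ℕ) : ℝ) = (n : ℝ) - 1 - a := by
            rw [Nat.sub_sub, Nat.cast_sub (by omega)]; push_cast; ring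
          have han : (a : ℝ) + 1 ≤ n := by exact_mod_cast ha'
          rw [hF]
          simp only []
          rw [abs_of_pos (by linarith), abs_of_pos (by push_cast; linarith),
            abs_of_pos (by push_cast; linarith), e1]
          push_cast
          congr 1 <;> ring
        · intro a ha b hb hab
          have ha' : a < n := (Finset.mem_filter.mp (Finset.mem_coe.mp ha)).2
          have hb' : b < n := (Finset.mem_filter.mp (Finset.mem_coe.mp hb)).2
          simp only [] at hab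
          omega
      rw [this]
      exact prod_phi _
    have h2 : 1 / 3 ≤ ∏ a ∈ (A.filter (fun a => ¬ a < n)).filter (fun a => n + 2 ≤ a), F a := by
      have : ∏ a ∈ (A.filter (fun a => ¬ a < n)).filter (fun a => n + 2 ≤ a), F a =
          ∏ e ∈ ((A.filter (fun a => ¬ a < n)).filter (fun a => n + 2 ≤ a)).image (fun a => a - (n + 2)),
            (((e : ℝ) + 1 / 2) * ((e : ℝ) + 5 / 2) / ((e : ℝ) + 3 / 2) ^ 2) := by
        rw [Finset.prod_image]
        · refine Finset.prod_congr rfl (fun a ha => ?_)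
          have ha' : n + 2 ≤ a := (Finset.mem_filter.mp ha).2
          have e1 : ((a - (n + 2) : ℕ) : ℝ) = (a : ℝ) - (n + 2) := by
            rw [Nat.cast_sub ha']; push_cast; ring
          have han : (n : ℝ) + 2 ≤ a := by exact_mod_cast ha'
          rw [hF]
          simp only []
          rw [abs_of_neg (by linarith), abs_of_neg (by push_cast; linarith),
            abs_of_neg (by push_cast; linarith), e1]
          push_cast
          congr 1 <;> ring
        · intro a ha b hb hab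
          have ha' : n + 2 ≤ a := (Finset.mem_filter.mp (Finset.mem_coe.mp ha)).2
          have hb' : n + 2 ≤ b := (Finset.mem_filter.mp (Finset.mem_coe.mp hb)).2
          simp only [] at hab
          omega
      rw [this]
      exact prod_phi _
    have h3 : 1 ≤ ∏ a ∈ (A.filter (fun a => ¬ a < n)).filter (fun a => ¬ n + 2 ≤ a), F a := by
      have hone : ∏ a ∈ (A.filter (fun a => ¬ a < n)).filter (fun a => ¬ n + 2 ≤ a), (1 : ℝ) = 1 := by simp
      rw [← hone]
      refine Finset.prod_le_prod (fun _ _ => zero_le_one) (fun a ha => ?_)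
      have ha1 : ¬ n + 2 ≤ a := (Finset.mem_filter.mp ha).2
      have ha2 : ¬ a < n := (Finset.mem_filter.mp (Finset.mem_filter.mp ha).1).2
      rw [hF]
      simp only []
      rcases (by omega : a = n ∨ a = n + 1) with h | h
      · subst h
        push_cast
        rw [abs_of_neg (by linarith), abs_of_pos (by linarith), abs_of_pos (by linarith),
          show -((a : ℝ) - a - 1 / 2) * ((a : ℝ) + 2 - a - 1 / 2) / ((a : ℝ) + 1 - a - 1 / 2) ^ 2
            = 3 by ring_nf]
        norm_num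
      · subst h
        push_cast
        rw [abs_of_neg (by linarith), abs_of_pos (by linarith), abs_of_neg (by linarith),
          show -((n : ℝ) - (n + 1) - 1 / 2) * ((n : ℝ) + 2 - (n + 1) - 1 / 2) /
            (-((n : ℝ) + 1 - (n + 1) - 1 / 2)) ^ 2 = 3 by ring_nf]
        norm_num
    have : (1 : ℝ) / 9 = (1 / 3) * ((1 / 3) * 1) := by norm_num
    rw [this]
    gcongr
  have hd : 0 < |wt A (n + 1)| ^ 2 := by have := wt_ne A (n + 1); positivity
  have : ∏ a ∈ A, (|(n : ℝ) - a - 1 / 2| * |((n + 2 : ℕ) : ℝ) - a - 1 / 2| / |((n + 1 : ℕ) : ℝ) - a - 1 / 2| ^ 2)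
      = |wt A n| * |wt A (n + 2)| / |wt A (n + 1)| ^ 2 := by
    rw [Finset.prod_div_distrib, Finset.prod_mul_distrib, Finset.prod_pow]
    simp only [wt, Finset.abs_prod]
  rw [this, ge_iff_le, le_div_iff₀ hd] at key
  exact key

/-- The operator `θ - α`, where `θ = x d/dx`. -/
noncomputable def dOp (α : ℝ) (f : ℝ[X]) : ℝ[X] := X * derivative f - C α * f

lemma coeff_dOp (α : ℝ) (f : ℝ[X]) (k : ℕ) : (dOp α f).coeff k = ((k : ℝ) - α) * f.coeff k := by
  unfold dOp
  cases k with
  | zero => simp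
  | succ k =>
    rw [coeff_sub, coeff_X_mul, coeff_C_mul, coeff_derivative]
    push_cast; ring

/-- Number of positive roots, with multiplicity. -/
noncomputable def zp (f : ℝ[X]) : ℕ := (f.roots.filter (fun x => 0 < x)).card

lemma rolle_pos (α : ℝ) (f : ℝ[X]) (hf : f ≠ 0) (hg : dOp α f ≠ 0) : zp f ≤ zp (dOp α f) + 1 := by
  classical
  set g := dOp α f with hgdef
  set M := f.roots.filter (fun x => 0 < x) with hM
  set M' := g.roots.filter (fun x => 0 < x) with hM'
  have hs : ∀ x, x ∈ M.toFinset ↔ (f.eval x = 0 ∧ 0 < x) := by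
    intro x
    rw [Multiset.mem_toFinset, hM, Multiset.mem_filter, mem_roots hf]; rfl
  have ht : ∀ x, x ∈ M'.toFinset ↔ (g.eval x = 0 ∧ 0 < x) := by
    intro x
    rw [Multiset.mem_toFinset, hM', Multiset.mem_filter, mem_roots hg]; rfl
  have hinter : M.toFinset.card ≤ (M'.toFinset \ M.toFinset).card + 1 := by
    refine Finset.card_le_sdiff_of_interleaved (fun x hx y hy hxy hxy' => ?_)
    rw [hs] at hx hy
    obtain ⟨hx0, hxp⟩ := hx
    obtain ⟨hy0, hyp⟩ := hy
    have hder : ∀ u ∈ Set.Ioo x y, HasDerivAt (fun u => Real.exp (-α * Real.log u) * f.eval u)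
        (Real.exp (-α * Real.log u) * (-α * u⁻¹) * f.eval u
          + Real.exp (-α * Real.log u) * (derivative f).eval u) u := by
      intro u hu
      have hu0 : u ≠ 0 := (hxp.trans hu.1).ne'
      have h1 : HasDerivAt (fun u => Real.exp (-α * Real.log u))
          (Real.exp (-α * Real.log u) * (-α * u⁻¹)) u :=
        ((Real.hasDerivAt_log hu0).const_mul (-α)).exp
      exact h1.mul (f.hasDerivAt u)
    have hcont : ContinuousOn (fun u => Real.exp (-α * Real.log u) * f.eval u) (Set.Icc x y) := by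
      refine ContinuousOn.mul ?_ f.continuous.continuousOn
      refine Real.continuous_exp.comp_continuousOn (ContinuousOn.mul continuousOn_const ?_)
      exact Real.continuousOn_log.mono (fun u hu => (lt_of_lt_of_le hxp hu.1).ne')
    obtain ⟨z, hz, hz0⟩ := exists_hasDerivAt_eq_zero hxy hcont (by simp only [hx0, hy0, mul_zero]) hder
    have hzp : 0 < z := hxp.trans hz.1
    refine ⟨z, ?_, hz.1, hz.2⟩
    rw [ht]
    refine ⟨?_, hzp⟩
    have h2 : Real.exp (-α * Real.log z) * z⁻¹ * g.eval z = 0 := by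
      rw [← hz0, hgdef, dOp]
      simp only [eval_sub, eval_mul, eval_X, eval_C]
      field_simp
      ring
    have h3 : Real.exp (-α * Real.log z) * z⁻¹ ≠ 0 := by positivity
    exact (mul_eq_zero.mp h2).resolve_left h3
  have hcard : M.card = ∑ x ∈ M.toFinset, M.count x := (Multiset.toFinset_sum_count_eq M).symm
  have hcount : ∀ x ∈ M.toFinset, M.count x = (f.rootMultiplicity x - 1) + 1 ∧
      f.rootMultiplicity x - 1 ≤ M'.count x := by
    intro x hx
    have hx' := (hs x).mp hx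
    have h1 : M.count x = f.rootMultiplicity x := by
      rw [hM, Multiset.count_filter_of_pos hx'.2, count_roots]
    have h2 : M'.count x = g.rootMultiplicity x := by
      rw [hM', Multiset.count_filter_of_pos hx'.2, count_roots]
    have h3 : 0 < f.rootMultiplicity x := (rootMultiplicity_pos hf).mpr hx'.1
    refine ⟨by omega, ?_⟩
    rw [h2, le_rootMultiplicity_iff hg, hgdef, dOp]
    have h4 : (X - C x) ^ (f.rootMultiplicity x) ∣ f := pow_rootMultiplicity_dvd f x
    refine dvd_sub ?_ ?_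
    · exact (pow_sub_one_dvd_derivative_of_pow_dvd h4).mul_left X
    · exact ((pow_dvd_pow _ (Nat.sub_le _ _)).trans h4).mul_left _
  have h5 : M.card ≤ (∑ x ∈ M.toFinset, M'.count x) + M.toFinset.card := by
    rw [hcard]
    calc ∑ x ∈ M.toFinset, M.count x ≤ ∑ x ∈ M.toFinset, (M'.count x + 1) := by
          refine Finset.sum_le_sum (fun x hx => ?_)
          obtain ⟨h1, h2⟩ := hcount x hx
          omega
      _ = (∑ x ∈ M.toFinset, M'.count x) + M.toFinset.card := by
          rw [Finset.sum_add_distrib]; simp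
  have h6 : (∑ x ∈ M.toFinset, M'.count x) + (M'.toFinset \ M.toFinset).card ≤ M'.card := by
    have h7 : (M'.toFinset \ M.toFinset).card ≤ ∑ x ∈ M'.toFinset \ M.toFinset, M'.count x := by
      rw [Finset.card_eq_sum_ones]
      refine Finset.sum_le_sum (fun x hx => ?_)
      rw [Finset.mem_sdiff, Multiset.mem_toFinset] at hx
      exact Multiset.one_le_count_iff_mem.mpr hx.1
    have h8 : (∑ x ∈ M.toFinset, M'.count x) + ∑ x ∈ M'.toFinset \ M.toFinset, M'.count x
        = ∑ x ∈ M.toFinset ∪ (M'.toFinset \ M.toFinset), M'.count x := by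
      rw [Finset.sum_union Finset.disjoint_sdiff]
    have h9 : ∑ x ∈ M.toFinset ∪ (M'.toFinset \ M.toFinset), M'.count x = M'.card := by
      rw [← Multiset.toFinset_sum_count_eq M']
      rw [Finset.union_sdiff_self_eq_union]
      symm
      refine Finset.sum_subset Finset.subset_union_right (fun x _ hx => ?_)
      rw [Multiset.mem_toFinset] at hx
      exact Multiset.count_eq_zero_of_notMem hx
    omega
  unfold zp
  rw [← hM, ← hM']
  omega

lemma exists_weighted (f : ℝ[X]) (hf : f ≠ 0) (A : Finset ℕ) :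
    ∃ g : ℝ[X], (∀ k, g.coeff k = wt A k * f.coeff k) ∧ zp f ≤ zp g + A.card := by
  classical
  induction A using Finset.induction_on with
  | empty => exact ⟨f, fun k => by simp [wt], by simp⟩
  | insert a A ha ih =>
    obtain ⟨g, hg1, hg2⟩ := ih
    have hgne : g ≠ 0 := by
      intro h
      apply hf
      ext k
      have := hg1 k
      rw [h, coeff_zero] at this
      rw [coeff_zero]
      exact (mul_eq_zero.mp this.symm).resolve_left (wt_ne A k)
    have hco : ∀ k, (dOp ((a : ℝ) + 1 / 2) g).coeff k = wt (insert a A) k * f.coeff k := by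
      intro k
      rw [coeff_dOp, hg1]
      simp only [wt, Finset.prod_insert ha]
      ring
    have hdne : dOp ((a : ℝ) + 1 / 2) g ≠ 0 := by
      intro h
      apply hf
      ext k
      have := hco k
      rw [h, coeff_zero] at this
      rw [coeff_zero]
      exact (mul_eq_zero.mp this.symm).resolve_left (wt_ne _ k)
    refine ⟨dOp ((a : ℝ) + 1 / 2) g, hco, ?_⟩
    have := rolle_pos ((a : ℝ) + 1 / 2) g hgne hdne
    rw [Finset.card_insert_of_notMem ha]
    omega

/-! ### Geometric sums -/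

lemma geom_half (a b : ℝ) (hb : 0 ≤ b) (hab : 2 * a ≤ 1 - b) (n : ℕ) :
    ∑ i ∈ Finset.range n, a * b ^ i ≤ (1 - b ^ n) / 2 := by
  induction n with
  | zero => simp
  | succ n ih =>
    rw [Finset.sum_range_succ]
    have : 0 ≤ b ^ n := by positivity
    rw [pow_succ]
    nlinarith

/-- distance on natural numbers -/
def ds (j k : ℕ) : ℕ := (j - k) + (k - j)

lemma ds_cast_sq (j k : ℕ) : ((ds j k : ℕ) : ℝ) ^ 2 = ((j : ℝ) - k) ^ 2 := by
  unfold ds
  rcases le_total j k with h | h
  · have : j - k = 0 := by omega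
    rw [this, zero_add, Nat.cast_sub h]; ring
  · have : k - j = 0 := by omega
    rw [this, add_zero, Nat.cast_sub h]

lemma two_sided (a b : ℝ) (hb : 0 < b) (hab : 2 * a ≤ 1 - b) (M k : ℕ) (hk : k < M) :
    ∑ j ∈ (Finset.range M).erase k, a * b ^ (ds j k - 1) < 1 := by
  have h1 : (Finset.range M).erase k = Finset.range k ∪ Finset.Ico (k + 1) M := by
    ext j
    simp only [Finset.mem_erase, Finset.mem_range, Finset.mem_union, Finset.mem_Ico]
    omega
  have hdisj : Disjoint (Finset.range k) (Finset.Ico (k + 1) M) := by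
    rw [Finset.disjoint_left]
    intro j hj hj'
    simp only [Finset.mem_range, Finset.mem_Ico] at hj hj'
    omega
  rw [h1, Finset.sum_union hdisj]
  have h2 : ∑ j ∈ Finset.range k, a * b ^ (ds j k - 1) = ∑ i ∈ Finset.range k, a * b ^ i := by
    rw [← Finset.sum_range_reflect]
    refine Finset.sum_congr rfl (fun j hj => ?_)
    rw [Finset.mem_range] at hj
    congr 2
    unfold ds; omega
  have h3 : ∑ j ∈ Finset.Ico (k + 1) M, a * b ^ (ds j k - 1)
      = ∑ i ∈ Finset.range (M - (k + 1)), a * b ^ i := by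
    rw [Finset.sum_Ico_eq_sum_range]
    refine Finset.sum_congr rfl (fun i _ => ?_)
    congr 2
    unfold ds; omega
  rw [h2, h3]
  have h4 := geom_half a b hb.le hab k
  have h5 := geom_half a b hb.le hab (M - (k + 1))
  have h6 : 0 < b ^ k := by positivity
  have h7 : 0 < b ^ (M - (k + 1)) := by positivity
  linarith

/-- The chain argument. -/
lemma chain (N : ℕ) (v : ℕ → ℝ) (K : Finset ℕ) (hK : K ⊆ Finset.range (N + 1))
    (hv : ∀ j, 0 ≤ v j) (hN : ∀ j, N < j → v j = 0) (k₀ : ℕ) (hk₀ : 0 < v k₀)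
    (h : ∀ k, k ∉ K → 0 < v k → ∃ j, 3 ^ (ds j k) * v k < v j) :
    (∃ k ∈ K, 0 < v k) ∧ ∑ k ∈ Finset.range (N + 1) \ K, v k < ∑ k ∈ K, v k := by
  classical
  have hstar : ∀ k, 0 < v k → ∃ j ∈ K, (3 : ℝ) ^ (ds j k) * v k ≤ v j := by
    intro k hk
    have hkN : k ∈ Finset.range (N + 1) := by
      rw [Finset.mem_range]; by_contra hcon
      exact hk.ne' (hN k (by omega))
    obtain ⟨j, hj, hmax⟩ := Finset.exists_max_image (Finset.range (N + 1))
      (fun j => v j / 3 ^ (ds j k)) ⟨k, hkN⟩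
    have h1 : v k ≤ v j / 3 ^ (ds j k) := by
      have := hmax k hkN
      simpa [ds] using this
    have hvj : 0 < v j := by
      have : 0 < v j / 3 ^ (ds j k) := lt_of_lt_of_le hk h1
      by_contra hcon
      have h0 : v j = 0 := le_antisymm (not_lt.mp hcon) (hv j)
      rw [h0] at this; simp at this
    refine ⟨j, ?_, ?_⟩
    · by_contra hjK
      obtain ⟨i, hi⟩ := h j hjK hvj
      have hvi : 0 < v i := lt_of_le_of_lt (by positivity) hi
      have hiN : i ∈ Finset.range (N + 1) := by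
        rw [Finset.mem_range]; by_contra hcon
        exact hvi.ne' (hN i (by omega))
      have h2 := hmax i hiN
      rw [div_le_div_iff₀ (by positivity) (by positivity)] at h2
      have h3 : ds i k ≤ ds i j + ds j k := by unfold ds; omega
      have h4 : (3 : ℝ) ^ (ds i k) ≤ 3 ^ (ds i j) * 3 ^ (ds j k) := by
        rw [← pow_add]; exact pow_le_pow_right₀ (by norm_num) h3
      have h5 : v i * 3 ^ (ds j k) ≤ v j * (3 ^ (ds i j) * 3 ^ (ds j k)) :=
        h2.trans (mul_le_mul_of_nonneg_left h4 hvj.le)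
      have h6 : (0 : ℝ) < 3 ^ (ds j k) := by positivity
      have h7 : v i ≤ v j * 3 ^ (ds i j) := by
        have : v i * 3 ^ (ds j k) ≤ (v j * 3 ^ (ds i j)) * 3 ^ (ds j k) := by linarith
        exact le_of_mul_le_mul_right this h6
      linarith
    · rw [le_div_iff₀ (by positivity)] at h1
      linarith
  obtain ⟨k₁, hk₁, hk₁'⟩ := hstar k₀ hk₀
  have hk₁pos : 0 < v k₁ := lt_of_lt_of_le (by positivity) hk₁'
  refine ⟨⟨k₁, hk₁, hk₁pos⟩, ?_⟩
  have hbound : ∀ k ∈ Finset.range (N + 1) \ K, v k ≤ ∑ j ∈ K, v j * ((1 / 3) * (1 / 3) ^ (ds k j - 1)) := by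
    intro k hk
    rw [Finset.mem_sdiff] at hk
    rcases (hv k).eq_or_lt with h0 | hpos
    · rw [← h0]
      exact Finset.sum_nonneg (fun j _ => mul_nonneg (hv j) (by positivity))
    · obtain ⟨j, hj, hj'⟩ := hstar k hpos
      have hne : j ≠ k := fun e => hk.2 (e ▸ hj)
      have h1 : v k ≤ v j * ((1 / 3) * (1 / 3) ^ (ds k j - 1)) := by
        have e1 : ds k j - 1 + 1 = ds k j := by unfold ds; omega
        have e2 : ((1 : ℝ) / 3) * (1 / 3) ^ (ds k j - 1) = (1 / 3) ^ (ds k j) := by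
          rw [← pow_succ', e1]
        have e3 : ds k j = ds j k := by unfold ds; omega
        rw [e2, e3, one_div, inv_pow, ← div_eq_mul_inv, le_div_iff₀ (by positivity)]
        linarith
      exact h1.trans (Finset.single_le_sum (f := fun j => v j * ((1 / 3) * (1 / 3) ^ (ds k j - 1)))
        (fun j _ => mul_nonneg (hv j) (by positivity)) hj)
  calc ∑ k ∈ Finset.range (N + 1) \ K, v k
      ≤ ∑ k ∈ Finset.range (N + 1) \ K, ∑ j ∈ K, v j * ((1 / 3) * (1 / 3) ^ (ds k j - 1)) :=
        Finset.sum_le_sum hbound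
    _ = ∑ j ∈ K, v j * ∑ k ∈ Finset.range (N + 1) \ K, ((1 / 3) * (1 / 3) ^ (ds k j - 1)) := by
        rw [Finset.sum_comm]
        refine Finset.sum_congr rfl (fun j _ => ?_)
        rw [Finset.mul_sum]
    _ < ∑ j ∈ K, v j := by
        have hlt : ∀ j ∈ K, ∑ k ∈ Finset.range (N + 1) \ K, (((1 : ℝ) / 3) * (1 / 3) ^ (ds k j - 1)) < 1 := by
          intro j hj
          have h1 := two_sided (1 / 3) (1 / 3) (by norm_num) (by norm_num) (N + 1) j
            (Finset.mem_range.mp (hK hj))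
          refine lt_of_le_of_lt (Finset.sum_le_sum_of_subset_of_nonneg ?_ (fun _ _ _ => by positivity)) h1
          intro k hk
          rw [Finset.mem_sdiff] at hk
          rw [Finset.mem_erase]
          exact ⟨fun e => hk.2 (e ▸ hj), hk.1⟩
        refine Finset.sum_lt_sum (fun j hj => ?_) ⟨k₁, hk₁, ?_⟩
        · exact mul_le_of_le_one_right (hv j) (hlt j hj).le
        · exact mul_lt_of_lt_one_right hk₁pos (hlt k₁ hk₁)

/-! ### The relevant indices -/

/-- `k` is relevant for the coefficient sequence `c`. -/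
def Rel (c : ℕ → ℝ) (k : ℕ) : Prop :=
  c k ≠ 0 ∧ ∃ x : ℝ, 0 < x ∧ ∀ j, |c j| * x ^ j ≤ 9 ^ (ds j k ^ 2) * (|c k| * x ^ k)

open Classical in
/-- The finite set of relevant indices. -/
noncomputable def KK (f : ℝ[X]) : Finset ℕ := (Finset.range (f.natDegree + 1)).filter (Rel f.coeff)

lemma mem_KK {f : ℝ[X]} {k : ℕ} : k ∈ KK f ↔ Rel f.coeff k := by
  classical
  unfold KK
  rw [Finset.mem_filter, Finset.mem_range]
  refine ⟨fun h => h.2, fun h => ⟨?_, h⟩⟩
  have := le_natDegree_of_ne_zero h.1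
  omega

/-- Relevant indices are dominant for the rapidly decreased coefficients. -/
lemma dominant (f : ℝ[X]) (H : ℕ → ℝ) (hH : ∀ n, 2 * 3 ≤ H (n + 2) - 2 * H (n + 1) + H n)
    (k : ℕ) (hk : k ∈ KK f) :
    ∃ y : ℝ, 0 < y ∧ ∑ j ∈ (Finset.range (f.natDegree + 1)).erase k, |f.coeff j * Real.exp (-H j)| * y ^ j
      < |f.coeff k * Real.exp (-H k)| * y ^ k := by
  obtain ⟨hk0, x, hx, hrel⟩ := mem_KK.mp hk
  obtain ⟨s, hs⟩ := parab H 3 hH k
  refine ⟨x * Real.exp s, by positivity, ?_⟩
  set B := |f.coeff k * Real.exp (-H k)| * (x * Real.exp s) ^ k with hB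
  have hBpos : 0 < B := by
    have : 0 < |f.coeff k * Real.exp (-H k)| := abs_pos.mpr (mul_ne_zero hk0 (Real.exp_ne_zero _))
    positivity
  have hterm : ∀ j, |f.coeff j * Real.exp (-H j)| * (x * Real.exp s) ^ j
      ≤ (9 / 20) ^ (ds j k ^ 2) * B := by
    intro j
    have h1 : Real.exp (-H j) ≤ Real.exp (-H k) * Real.exp (-(s * ((j : ℝ) - k))) *
        Real.exp (-(3 * ((j : ℝ) - k) ^ 2)) := by
      rw [← Real.exp_add, ← Real.exp_add]
      apply Real.exp_le_exp.mpr
      linarith [hs j]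
    have h2 : Real.exp (-(3 * ((j : ℝ) - k) ^ 2)) = (Real.exp (-3)) ^ (ds j k ^ 2) := by
      rw [← Real.exp_nat_mul]
      congr 1
      push_cast
      rw [ds_cast_sq]; ring
    have h3 : Real.exp (-3) ≤ 1 / 20 := by
      rw [Real.exp_neg, one_div]
      apply inv_anti₀ (by norm_num)
      have h4 : (2.7182818283 : ℝ) < Real.exp 1 := Real.exp_one_gt_d9
      have h5 : Real.exp 3 = Real.exp 1 ^ 3 := by rw [← Real.exp_nat_mul]; norm_num
      rw [h5]
      calc (20 : ℝ) ≤ 2.7182818283 ^ 3 := by norm_num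
        _ ≤ Real.exp 1 ^ 3 := by gcongr
    have h6 : (x * Real.exp s) ^ j * Real.exp (-(s * ((j : ℝ) - k))) = x ^ j * Real.exp s ^ k := by
      rw [mul_pow, mul_assoc, ← Real.exp_nat_mul, ← Real.exp_nat_mul, ← Real.exp_add]
      congr 2; ring
    rw [abs_mul, abs_of_pos (Real.exp_pos _)]
    calc |f.coeff j| * Real.exp (-H j) * (x * Real.exp s) ^ j
        ≤ |f.coeff j| * (Real.exp (-H k) * Real.exp (-(s * ((j : ℝ) - k))) *
          Real.exp (-(3 * ((j : ℝ) - k) ^ 2))) * (x * Real.exp s) ^ j := by gcongr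
      _ = (|f.coeff j| * x ^ j) * (Real.exp (-H k) * Real.exp s ^ k) * Real.exp (-3) ^ (ds j k ^ 2) := by
          rw [h2]
          calc |f.coeff j| * (Real.exp (-H k) * Real.exp (-(s * ((j : ℝ) - k))) *
                Real.exp (-3) ^ (ds j k ^ 2)) * (x * Real.exp s) ^ j
              = |f.coeff j| * Real.exp (-H k) * Real.exp (-3) ^ (ds j k ^ 2) *
                ((x * Real.exp s) ^ j * Real.exp (-(s * ((j : ℝ) - k)))) := by ring
            _ = _ := by rw [h6]; ring
      _ ≤ (9 ^ (ds j k ^ 2) * (|f.coeff k| * x ^ k)) * (Real.exp (-H k) * Real.exp s ^ k) *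
          (1 / 20) ^ (ds j k ^ 2) := by
          have hr := hrel j
          have h7 : Real.exp (-3) ^ (ds j k ^ 2) ≤ (1 / 20) ^ (ds j k ^ 2) :=
            pow_le_pow_left₀ (Real.exp_pos _).le h3 _
          exact mul_le_mul (mul_le_mul_of_nonneg_right hr (by positivity)) h7 (by positivity)
            (by positivity)
      _ = (9 / 20) ^ (ds j k ^ 2) * B := by
          rw [hB, abs_mul, abs_of_pos (Real.exp_pos _), mul_pow,
            show (9 / 20 : ℝ) = 9 * (1 / 20) by norm_num, mul_pow]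
          ring
  have hsum : ∑ j ∈ (Finset.range (f.natDegree + 1)).erase k, ((9 : ℝ) / 20) ^ (ds j k ^ 2) < 1 := by
    have hkm : k < f.natDegree + 1 := by
      have := le_natDegree_of_ne_zero hk0
      omega
    have h1 := two_sided (9 / 20) (1 / 10) (by norm_num) (by norm_num) (f.natDegree + 1) k hkm
    refine lt_of_le_of_lt (Finset.sum_le_sum (fun j hj => ?_)) h1
    rw [Finset.mem_erase] at hj
    have hd : 1 ≤ ds j k := by have := hj.1; unfold ds; omega
    obtain ⟨t, ht⟩ := Nat.exists_eq_add_of_le hd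
    rw [ht]
    have e1 : 1 + 3 * t ≤ (1 + t) ^ 2 := by
      rcases Nat.eq_zero_or_pos t with h0 | h0
      · subst h0; norm_num
      · nlinarith
    calc ((9 : ℝ) / 20) ^ ((1 + t) ^ 2) ≤ (9 / 20) ^ (1 + 3 * t) :=
          pow_le_pow_of_le_one (by norm_num) (by norm_num) e1
      _ = (9 / 20) * ((9 / 20) ^ 3) ^ t := by rw [pow_add, pow_mul, pow_one]
      _ ≤ (9 / 20) * (1 / 10) ^ (1 + t - 1) := by
          rw [Nat.add_sub_cancel_left]
          gcongr
          norm_num
  calc ∑ j ∈ (Finset.range (f.natDegree + 1)).erase k, |f.coeff j * Real.exp (-H j)| * (x * Real.exp s) ^ j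
      ≤ ∑ j ∈ (Finset.range (f.natDegree + 1)).erase k, (9 / 20) ^ (ds j k ^ 2) * B :=
        Finset.sum_le_sum (fun j _ => hterm j)
    _ = (∑ j ∈ (Finset.range (f.natDegree + 1)).erase k, (9 / 20) ^ (ds j k ^ 2)) * B := by
        rw [Finset.sum_mul]
    _ < 1 * B := by gcongr
    _ = B := one_mul B

/-- Irrelevant indices are beaten by another index after weighting. -/
lemma beaten (f : ℝ[X]) (A : Finset ℕ) (x : ℝ) (hx : 0 < x) (k : ℕ) (hk : k ∉ KK f)
    (hpos : 0 < |wt A k * f.coeff k| * x ^ k) :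
    ∃ j, 3 ^ (ds j k) * (|wt A k * f.coeff k| * x ^ k) < |wt A j * f.coeff j| * x ^ j := by
  have hck : f.coeff k ≠ 0 := by
    intro h; rw [h] at hpos; simp at hpos
  have hW : ∀ n, 0 < |wt A n| := fun n => abs_pos.mpr (wt_ne A n)
  have hlog : ∀ n : ℕ, 2 * (-Real.log 3) ≤ Real.log |wt A (n + 2)| - 2 * Real.log |wt A (n + 1)|
      + Real.log |wt A n| := by
    intro n
    have h1 := Real.log_le_log (by have := hW (n + 1); positivity) (wt_second A n)
    rw [Real.log_mul (by norm_num) (by have := hW (n + 1); positivity),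
      Real.log_mul (hW _).ne' (hW _).ne', Real.log_pow] at h1
    have h2 : Real.log (1 / 9) = 2 * (-Real.log 3) := by
      rw [one_div, Real.log_inv, show (9 : ℝ) = 3 ^ 2 by norm_num, Real.log_pow]
      push_cast; ring
    rw [h2] at h1
    push_cast at h1
    linarith
  obtain ⟨s, hs⟩ := parab (fun n => Real.log |wt A n|) (-Real.log 3) hlog k
  have hnr : ¬ Rel f.coeff k := fun h => hk (mem_KK.mpr h)
  unfold Rel at hnr
  push Not at hnr
  obtain ⟨j, hj⟩ := hnr hck (x * Real.exp s) (by positivity)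
  refine ⟨j, ?_⟩
  have hWj : |wt A k| * Real.exp (s * ((j : ℝ) - k)) ≤ 3 ^ (ds j k ^ 2) * |wt A j| := by
    have h1 := hs j
    have h2 : Real.exp (Real.log |wt A k| + s * ((j : ℝ) - k)) ≤
        Real.exp (Real.log |wt A j| + Real.log 3 * ((j : ℝ) - k) ^ 2) := by
      apply Real.exp_le_exp.mpr
      linarith
    rw [Real.exp_add, Real.exp_add, Real.exp_log (hW k), Real.exp_log (hW j)] at h2
    have h3 : Real.exp (Real.log 3 * ((j : ℝ) - k) ^ 2) = 3 ^ (ds j k ^ 2) := by
      rw [← ds_cast_sq, mul_comm, ← Nat.cast_pow, Real.exp_nat_mul, Real.exp_log (by norm_num)]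
    rw [h3] at h2
    linarith
  -- combine
  have hexp : Real.exp s ^ j = Real.exp s ^ k * Real.exp (s * ((j : ℝ) - k)) := by
    rw [← Real.exp_nat_mul, ← Real.exp_nat_mul, ← Real.exp_add]; congr 1; ring
  have h3 : (9 : ℝ) ^ (ds j k ^ 2) = 3 ^ (ds j k ^ 2) * 3 ^ (ds j k ^ 2) := by
    rw [← mul_pow]; norm_num
  rw [mul_pow, mul_pow, hexp, h3] at hj
  -- hj : 3^.. * 3^.. * (|c k| * (x^k * e^k)) < |c j| * (x^j * (e^k * E))
  have hek : 0 < Real.exp s ^ k := by positivity
  have h4 : 3 ^ (ds j k ^ 2) * 3 ^ (ds j k ^ 2) * (|f.coeff k| * x ^ k)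
      < |f.coeff j| * x ^ j * Real.exp (s * ((j : ℝ) - k)) := by
    have : (3 ^ (ds j k ^ 2) * 3 ^ (ds j k ^ 2) * (|f.coeff k| * x ^ k)) * Real.exp s ^ k
      < (|f.coeff j| * x ^ j * Real.exp (s * ((j : ℝ) - k))) * Real.exp s ^ k := by
      calc _ = 3 ^ (ds j k ^ 2) * 3 ^ (ds j k ^ 2) * (|f.coeff k| * (x ^ k * Real.exp s ^ k)) := by ring
        _ < _ := hj
        _ = _ := by ring
    exact lt_of_mul_lt_mul_right this hek.le
  have h5 : 3 ^ (ds j k ^ 2) * 3 ^ (ds j k ^ 2) * (|wt A k| * |f.coeff k| * x ^ k)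
      < 3 ^ (ds j k ^ 2) * (|wt A j| * |f.coeff j| * x ^ j) := by
    have hcx : 0 ≤ |f.coeff j| * x ^ j := by positivity
    calc 3 ^ (ds j k ^ 2) * 3 ^ (ds j k ^ 2) * (|wt A k| * |f.coeff k| * x ^ k)
        = |wt A k| * (3 ^ (ds j k ^ 2) * 3 ^ (ds j k ^ 2) * (|f.coeff k| * x ^ k)) := by ring
      _ < |wt A k| * (|f.coeff j| * x ^ j * Real.exp (s * ((j : ℝ) - k))) :=
          mul_lt_mul_of_pos_left h4 (hW k)
      _ = (|wt A k| * Real.exp (s * ((j : ℝ) - k))) * (|f.coeff j| * x ^ j) := by ring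
      _ ≤ (3 ^ (ds j k ^ 2) * |wt A j|) * (|f.coeff j| * x ^ j) :=
          mul_le_mul_of_nonneg_right hWj hcx
      _ = 3 ^ (ds j k ^ 2) * (|wt A j| * |f.coeff j| * x ^ j) := by ring
  have h6 : (0 : ℝ) < 3 ^ (ds j k ^ 2) := by positivity
  have h7 : 3 ^ (ds j k ^ 2) * (|wt A k| * |f.coeff k| * x ^ k) < |wt A j| * |f.coeff j| * x ^ j := by
    have : 3 ^ (ds j k ^ 2) * (3 ^ (ds j k ^ 2) * (|wt A k| * |f.coeff k| * x ^ k))
      < 3 ^ (ds j k ^ 2) * (|wt A j| * |f.coeff j| * x ^ j) := by linarith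
    exact lt_of_mul_lt_mul_left this h6.le
  rw [abs_mul, abs_mul]
  refine lt_of_le_of_lt ?_ h7
  have h8 : (3 : ℝ) ^ (ds j k) ≤ 3 ^ (ds j k ^ 2) :=
    pow_le_pow_right₀ (by norm_num) (Nat.le_self_pow (by norm_num) _)
  gcongr

/-! ### Sign changes along the relevant indices -/

open Classical in
/-- Relevant indices whose successor among the relevant indices has a coefficient of opposite
sign. -/
noncomputable def AA (f : ℝ[X]) : Finset ℕ :=
  (KK f).filter (fun a => ∃ b ∈ KK f, a < b ∧ (∀ m ∈ KK f, ¬ (a < m ∧ m < b)) ∧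
    f.coeff a * f.coeff b < 0)

lemma mem_AA {f : ℝ[X]} {a : ℕ} : a ∈ AA f ↔ a ∈ KK f ∧ ∃ b ∈ KK f, a < b ∧
    (∀ m ∈ KK f, ¬ (a < m ∧ m < b)) ∧ f.coeff a * f.coeff b < 0 := by
  classical
  unfold AA
  rw [Finset.mem_filter]

lemma consec (f : ℝ[X]) (k k' : ℕ) (hk : k ∈ KK f) (hk' : k' ∈ KK f) (hlt : k < k')
    (hno : ∀ m ∈ KK f, ¬ (k < m ∧ m < k')) :
    0 < (wt (AA f) k * f.coeff k) * (wt (AA f) k' * f.coeff k') := by
  classical
  have hck : f.coeff k ≠ 0 := (mem_KK.mp hk).1
  have hck' : f.coeff k' ≠ 0 := (mem_KK.mp hk').1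
  have hfac : ∀ a ∈ AA f, a ≠ k → 0 < ((k : ℝ) - a - 1 / 2) * ((k' : ℝ) - a - 1 / 2) := by
    intro a ha hak
    have haK := (mem_AA.mp ha).1
    rcases lt_or_gt_of_ne hak with h | h
    · have h1 : (a : ℝ) + 1 ≤ k := by exact_mod_cast h
      have h2 : (a : ℝ) + 1 ≤ k' := by exact_mod_cast h.trans hlt
      have h3 : 0 < (k : ℝ) - a - 1 / 2 := by linarith
      have h4 : 0 < (k' : ℝ) - a - 1 / 2 := by linarith
      exact mul_pos h3 h4
    · have hak' : k' ≤ a := by
        by_contra hcon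
        exact hno a haK ⟨h, by omega⟩
      have h1 : (k : ℝ) + 1 ≤ a := by exact_mod_cast h
      have h2 : (k' : ℝ) ≤ a := by exact_mod_cast hak'
      have h3 : (k : ℝ) - a - 1 / 2 < 0 := by linarith
      have h4 : (k' : ℝ) - a - 1 / 2 < 0 := by linarith
      exact mul_pos_of_neg_of_neg h3 h4
  have hre : (wt (AA f) k * f.coeff k) * (wt (AA f) k' * f.coeff k')
      = (∏ a ∈ AA f, ((k : ℝ) - a - 1 / 2) * ((k' : ℝ) - a - 1 / 2)) * (f.coeff k * f.coeff k') := by
    rw [wt, wt, Finset.prod_mul_distrib]; ring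
  rw [hre]
  rcases lt_or_gt_of_ne (mul_ne_zero hck hck') with hneg | hpos
  · have hkA : k ∈ AA f := mem_AA.mpr ⟨hk, k', hk', hlt, hno, hneg⟩
    refine mul_pos_of_neg_of_neg ?_ hneg
    rw [← Finset.mul_prod_erase _ _ hkA]
    refine mul_neg_of_neg_of_pos ?_ ?_
    · have h2 : (k : ℝ) + 1 ≤ k' := by exact_mod_cast hlt
      have h3 : (k : ℝ) - k - 1 / 2 < 0 := by linarith
      have h4 : 0 < (k' : ℝ) - k - 1 / 2 := by linarith
      exact mul_neg_of_neg_of_pos h3 h4
    · exact Finset.prod_pos (fun a ha => hfac a (Finset.mem_of_mem_erase ha) (Finset.ne_of_mem_erase ha))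
  · refine mul_pos (Finset.prod_pos (fun a ha => hfac a ha ?_)) hpos
    rintro rfl
    obtain ⟨-, b, hb, hab, hnob, hneg⟩ := mem_AA.mp ha
    have : b = k' := by
      rcases lt_trichotomy b k' with h | h | h
      · exact absurd ⟨hab, h⟩ (hno b hb)
      · exact h
      · exact absurd ⟨hlt, h⟩ (hnob k' hk')
    rw [this] at hneg
    linarith

lemma same_sign (f : ℝ[X]) : ∀ (d k k' : ℕ), k' = k + d → k ∈ KK f → k' ∈ KK f →
    0 < (wt (AA f) k * f.coeff k) * (wt (AA f) k' * f.coeff k') := by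
  intro d
  induction d using Nat.strong_induction_on with
  | _ d ih =>
    intro k k' hd hk hk'
    rcases Nat.eq_zero_or_pos d with h0 | hpos
    · have : k' = k := by omega
      subst this
      have h1 : wt (AA f) k' * f.coeff k' ≠ 0 := mul_ne_zero (wt_ne _ _) (mem_KK.mp hk').1
      exact mul_self_pos.mpr h1
    · by_cases hno : ∀ m ∈ KK f, ¬ (k < m ∧ m < k')
      · exact consec f k k' hk hk' (by omega) hno
      · push Not at hno
        obtain ⟨m, hm, hm1, hm2⟩ := hno
        have h1 := ih (m - k) (by omega) k m (by omega) hk hm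
        have h2 := ih (k' - m) (by omega) m k' (by omega) hm hk'
        have h3 : 0 < (wt (AA f) m * f.coeff m) * (wt (AA f) m * f.coeff m) :=
          mul_self_pos.mpr (mul_ne_zero (wt_ne _ _) (mem_KK.mp hm).1)
        set a := wt (AA f) k * f.coeff k
        set b := wt (AA f) m * f.coeff m
        set c := wt (AA f) k' * f.coeff k'
        have h4 : 0 < (a * c) * (b * b) := by
          have : (a * c) * (b * b) = (a * b) * (b * c) := by ring
          rw [this]; exact mul_pos h1 h2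
        exact pos_of_mul_pos_left h4 h3.le

lemma same_sign' (f : ℝ[X]) (k k' : ℕ) (hk : k ∈ KK f) (hk' : k' ∈ KK f) :
    0 < (wt (AA f) k * f.coeff k) * (wt (AA f) k' * f.coeff k') := by
  rcases le_total k k' with h | h
  · exact same_sign f (k' - k) k k' (by omega) hk hk'
  · rw [mul_comm]; exact same_sign f (k - k') k' k (by omega) hk' hk

/-- Upper bound for the number of positive roots. -/
lemma zp_le (f : ℝ[X]) (hf : f ≠ 0) : zp f ≤ (AA f).card := by
  classical
  obtain ⟨g, hg1, hg2⟩ := exists_weighted f hf (AA f)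
  have hgz : zp g = 0 := by
    unfold zp
    rw [Multiset.card_eq_zero, Multiset.filter_eq_nil]
    intro x hxr hx
    have hgx : g.eval x = 0 := (mem_roots'.mp hxr).2
    have hgdeg : g.natDegree < f.natDegree + 1 := by
      rw [Nat.lt_succ_iff, natDegree_le_iff_coeff_eq_zero]
      intro n hn
      rw [hg1, coeff_eq_zero_of_natDegree_lt hn, mul_zero]
    set v : ℕ → ℝ := fun j => |wt (AA f) j * f.coeff j| * x ^ j with hv
    have hKsub : KK f ⊆ Finset.range (f.natDegree + 1) := by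
      unfold KK; exact Finset.filter_subset _ _
    have hlead : 0 < v f.natDegree := by
      have : wt (AA f) f.natDegree * f.coeff f.natDegree ≠ 0 :=
        mul_ne_zero (wt_ne _ _) (by rw [coeff_natDegree]; exact leadingCoeff_ne_zero.mpr hf)
      have h2 := abs_pos.mpr this
      show 0 < |wt (AA f) f.natDegree * f.coeff f.natDegree| * x ^ f.natDegree
      positivity
    obtain ⟨⟨k₁, hk₁, hk₁v⟩, hlt⟩ := chain f.natDegree v (KK f) hKsub
      (fun j => by simp only [hv]; positivity)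
      (fun j hj => by simp only [hv]; rw [coeff_eq_zero_of_natDegree_lt hj]; simp)
      f.natDegree hlead (fun k hk hpos => beaten f (AA f) x hx k hk hpos)
    set y := wt (AA f) k₁ * f.coeff k₁ with hy
    have hy0 : y ≠ 0 := mul_ne_zero (wt_ne _ _) (mem_KK.mp hk₁).1
    have heval : y * g.eval x = ∑ k ∈ Finset.range (f.natDegree + 1) \ KK f, y * (g.coeff k * x ^ k)
        + ∑ k ∈ KK f, y * (g.coeff k * x ^ k) := by
      rw [eval_eq_sum_range' hgdeg, Finset.mul_sum, Finset.sum_sdiff hKsub]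
    have h1 : ∑ k ∈ KK f, y * (g.coeff k * x ^ k) = |y| * ∑ k ∈ KK f, v k := by
      rw [Finset.mul_sum]
      refine Finset.sum_congr rfl (fun k hk => ?_)
      have h2 := same_sign' f k₁ k hk₁ hk
      rw [← hy] at h2
      simp only [hv]
      have h2' : y * (wt (AA f) k * f.coeff k * x ^ k) = (y * (wt (AA f) k * f.coeff k)) * x ^ k := by
        ring
      rw [hg1, h2', ← abs_of_pos h2, abs_mul]
      ring
    have h2 : -(|y| * ∑ k ∈ Finset.range (f.natDegree + 1) \ KK f, v k)
        ≤ ∑ k ∈ Finset.range (f.natDegree + 1) \ KK f, y * (g.coeff k * x ^ k) := by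
      rw [Finset.mul_sum, ← Finset.sum_neg_distrib]
      refine Finset.sum_le_sum (fun k _ => ?_)
      have h3 : |y * (g.coeff k * x ^ k)| = |y| * v k := by
        simp only [hv]
        rw [hg1, abs_mul y, abs_mul (wt (AA f) k * f.coeff k), abs_of_pos (show 0 < x ^ k by positivity)]
      rw [← h3]
      exact neg_abs_le _
    rw [hgx, mul_zero, h1] at heval
    have h3 : 0 < |y| := abs_pos.mpr hy0
    nlinarith
  omega

/-- Lower bound for the number of positive roots of the image. -/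
lemma le_zp (f q : ℝ[X]) (hf : f ≠ 0) (H : ℕ → ℝ)
    (hH : ∀ n, 2 * 3 ≤ H (n + 2) - 2 * H (n + 1) + H n)
    (hq : ∀ k, q.coeff k = f.coeff k * Real.exp (-H k)) : (AA f).card ≤ zp q := by
  classical
  have hqne : q ≠ 0 := by
    intro h
    apply hf
    ext k
    have := hq k
    rw [h, coeff_zero] at this
    rw [coeff_zero]
    exact (mul_eq_zero.mp this.symm).resolve_right (Real.exp_ne_zero _)
  have hdom : ∀ k ∈ KK f, ∃ y : ℝ, 0 < y ∧
      ∑ j ∈ (Finset.range (f.natDegree + 1)).erase k, |q.coeff j| * y ^ j < |q.coeff k| * y ^ k := by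
    intro k hk
    obtain ⟨y, hy, h⟩ := dominant f H hH k hk
    refine ⟨y, hy, ?_⟩
    simp only [hq]
    exact h
  choose! y hy hdomy using hdom
  have hKr : ∀ k ∈ KK f, k ∈ Finset.range (f.natDegree + 1) := by
    intro k hk
    rw [Finset.mem_range]
    have := le_natDegree_of_ne_zero (mem_KK.mp hk).1
    omega
  -- single terms
  have hsingle : ∀ k ∈ KK f, ∀ j ∈ Finset.range (f.natDegree + 1), j ≠ k →
      |q.coeff j| * y k ^ j < |q.coeff k| * y k ^ k := by
    intro k hk j hj hjk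
    refine lt_of_le_of_lt ?_ (hdomy k hk)
    exact Finset.single_le_sum (f := fun j => |q.coeff j| * y k ^ j)
      (fun i _ => by have := hy k hk; positivity) (Finset.mem_erase.mpr ⟨hjk, hj⟩)
  have hmono : ∀ k ∈ KK f, ∀ k' ∈ KK f, k < k' → y k < y k' := by
    intro k hk k' hk' hlt
    have h1 := hsingle k hk k' (hKr k' hk') (by omega)
    have h2 := hsingle k' hk' k (hKr k hk) (by omega)
    by_contra hcon
    push Not at hcon
    have hyk := hy k hk
    have hyk' := hy k' hk'
    obtain ⟨d, rfl⟩ := Nat.exists_eq_add_of_lt hlt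
    have e1 : y k ^ (k + d + 1) = y k ^ k * y k ^ (d + 1) := by rw [← pow_add]; congr 1
    have e2 : y (k + d + 1) ^ (k + d + 1) = y (k + d + 1) ^ k * y (k + d + 1) ^ (d + 1) := by
      rw [← pow_add]; congr 1
    rw [e1] at h1
    rw [e2] at h2
    have h3 : |q.coeff (k + d + 1)| * y k ^ (d + 1) < |q.coeff k| := by
      have : (|q.coeff (k + d + 1)| * y k ^ (d + 1)) * y k ^ k < |q.coeff k| * y k ^ k := by linarith
      exact lt_of_mul_lt_mul_right this (by positivity)
    have h4 : |q.coeff k| < |q.coeff (k + d + 1)| * y (k + d + 1) ^ (d + 1) := by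
      have : |q.coeff k| * y (k + d + 1) ^ k <
          (|q.coeff (k + d + 1)| * y (k + d + 1) ^ (d + 1)) * y (k + d + 1) ^ k := by linarith
      exact lt_of_mul_lt_mul_right this (by positivity)
    have h5 : |q.coeff (k + d + 1)| * y (k + d + 1) ^ (d + 1) ≤ |q.coeff (k + d + 1)| * y k ^ (d + 1) := by
      gcongr
    linarith
  have hqdeg : q.natDegree < f.natDegree + 1 := by
    rw [Nat.lt_succ_iff, natDegree_le_iff_coeff_eq_zero]
    intro n hn
    rw [hq, coeff_eq_zero_of_natDegree_lt hn, zero_mul]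
  -- sign of q at y k
  have hsign : ∀ k ∈ KK f, 0 < q.coeff k * q.eval (y k) := by
    intro k hk
    have hyk := hy k hk
    have hck : q.coeff k ≠ 0 := by
      rw [hq]; exact mul_ne_zero (mem_KK.mp hk).1 (Real.exp_ne_zero _)
    have h1 : q.eval (y k) = q.coeff k * y k ^ k +
        ∑ j ∈ (Finset.range (f.natDegree + 1)).erase k, q.coeff j * y k ^ j := by
      rw [eval_eq_sum_range' hqdeg, Finset.add_sum_erase _ (fun j => q.coeff j * y k ^ j) (hKr k hk)]
    have h2 : |∑ j ∈ (Finset.range (f.natDegree + 1)).erase k, q.coeff j * y k ^ j|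
        < |q.coeff k| * y k ^ k := by
      refine lt_of_le_of_lt (Finset.abs_sum_le_sum_abs _ _) (lt_of_eq_of_lt ?_ (hdomy k hk))
      refine Finset.sum_congr rfl (fun j _ => ?_)
      rw [abs_mul, abs_of_pos (show 0 < y k ^ j by positivity)]
    set S := ∑ j ∈ (Finset.range (f.natDegree + 1)).erase k, q.coeff j * y k ^ j
    rw [h1, mul_add]
    have h3 : |q.coeff k * S| < |q.coeff k| * (|q.coeff k| * y k ^ k) := by
      rw [abs_mul]; exact mul_lt_mul_of_pos_left h2 (abs_pos.mpr hck)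
    have h4 : q.coeff k * (q.coeff k * y k ^ k) = |q.coeff k| * (|q.coeff k| * y k ^ k) := by
      rw [← mul_assoc, ← mul_assoc, abs_mul_abs_self]
    have h5 := neg_abs_le (q.coeff k * S)
    linarith
  -- roots
  have hroot : ∀ a ∈ AA f, ∃ r : ℝ, y a < r ∧ q.eval r = 0 ∧ ∀ b ∈ KK f, a < b → r < y b := by
    intro a ha
    obtain ⟨haK, b, hb, hab, hno, hneg⟩ := mem_AA.mp ha
    have hs1 := hsign a haK
    have hs2 := hsign b hb
    have hqneg : q.coeff a * q.coeff b < 0 := by
      rw [hq, hq]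
      have : f.coeff a * Real.exp (-H a) * (f.coeff b * Real.exp (-H b))
        = (f.coeff a * f.coeff b) * (Real.exp (-H a) * Real.exp (-H b)) := by ring
      rw [this]
      exact mul_neg_of_neg_of_pos hneg (by positivity)
    have hprod : q.eval (y a) * q.eval (y b) < 0 := by
      by_contra hcon
      push Not at hcon
      have h1 : 0 < (q.coeff a * q.eval (y a)) * (q.coeff b * q.eval (y b)) := mul_pos hs1 hs2
      have h2 : (q.coeff a * q.eval (y a)) * (q.coeff b * q.eval (y b))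
        = (q.coeff a * q.coeff b) * (q.eval (y a) * q.eval (y b)) := by ring
      rw [h2] at h1
      nlinarith
    have hyab := hmono a haK b hb hab
    have hc : ContinuousOn (fun x => q.eval x) (Set.Icc (y a) (y b)) := q.continuous.continuousOn
    have hfin : ∃ r : ℝ, y a < r ∧ r < y b ∧ q.eval r = 0 := by
      rcases mul_neg_iff.mp hprod with ⟨h1, h2⟩ | ⟨h1, h2⟩
      · obtain ⟨r, hr, hr0⟩ := intermediate_value_Ioo' hyab.le hc ⟨h2, h1⟩
        exact ⟨r, hr.1, hr.2, hr0⟩
      · obtain ⟨r, hr, hr0⟩ := intermediate_value_Ioo hyab.le hc ⟨h1, h2⟩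
        exact ⟨r, hr.1, hr.2, hr0⟩
    obtain ⟨r, hr1, hr2, hr3⟩ := hfin
    refine ⟨r, hr1, hr3, fun b' hb' hab' => ?_⟩
    have hbb' : b ≤ b' := by
      by_contra hcon
      exact hno b' hb' ⟨hab', by omega⟩
    rcases hbb'.eq_or_lt with h | h
    · rw [← h]; exact hr2
    · exact hr2.trans (hmono b hb b' hb' h)
  choose! r hr1 hr2 hr3 using hroot
  have hinj : Set.InjOn r (AA f : Set ℕ) := by
    intro a ha a' ha' haa
    have haK := (mem_AA.mp (Finset.mem_coe.mp ha)).1
    have haK' := (mem_AA.mp (Finset.mem_coe.mp ha')).1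
    rcases lt_trichotomy a a' with h | h | h
    · have h1 := hr3 a ha a' haK' h
      have h2 := hr1 a' ha'
      linarith
    · exact h
    · have h1 := hr3 a' ha' a haK h
      have h2 := hr1 a ha
      linarith
  have hsub : (AA f).image r ⊆ (q.roots.filter (fun x => 0 < x)).toFinset := by
    intro z hz
    obtain ⟨a, ha, rfl⟩ := Finset.mem_image.mp hz
    rw [Multiset.mem_toFinset, Multiset.mem_filter, mem_roots hqne]
    exact ⟨hr2 a ha, (hy a (mem_AA.mp ha).1).trans (hr1 a ha)⟩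
  calc (AA f).card = ((AA f).image r).card := (Finset.card_image_of_injOn hinj).symm
    _ ≤ (q.roots.filter (fun x => 0 < x)).toFinset.card := Finset.card_le_card hsub
    _ ≤ zp q := Multiset.toFinset_card_le _

/-- Positive roots do not get lost. -/
lemma zp_mono (f q : ℝ[X]) (hf : f ≠ 0) (H : ℕ → ℝ)
    (hH : ∀ n, 2 * 3 ≤ H (n + 2) - 2 * H (n + 1) + H n)
    (hq : ∀ k, q.coeff k = f.coeff k * Real.exp (-H k)) : zp f ≤ zp q :=
  (zp_le f hf).trans (le_zp f q hf H hH hq)

lemma coeff_comp_neg (f : ℝ[X]) (k : ℕ) : (f.comp (-X)).coeff k = f.coeff k * (-1) ^ k := by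
  have : (-X : ℝ[X]) = C (-1) * X := by simp
  rw [this, comp_C_mul_X_coeff]

/-- Number of real roots, with multiplicity, splits in three parts. -/
lemma card_split (f : ℝ[X]) : f.roots.card = zp f + zp (f.comp (-X)) + f.rootMultiplicity 0 := by
  classical
  have h1 : zp (f.comp (-X)) = (f.roots.filter (fun x => x < 0)).card := by
    unfold zp
    rw [roots_comp_neg_X, Multiset.filter_map, Multiset.card_map]
    congr 1
    refine Multiset.filter_congr (fun x _ => ?_)
    simp
  have h2 : f.rootMultiplicity 0 = (f.roots.filter (fun x => x = 0)).card := by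
    rw [← count_roots, Multiset.count_eq_card_filter_eq]
    congr 1
    refine Multiset.filter_congr (fun x _ => ?_)
    exact eq_comm
  rw [h1, h2]
  unfold zp
  have h3 := Multiset.filter_add_not (fun x : ℝ => 0 < x) f.roots
  have h4 := Multiset.filter_add_not (fun x : ℝ => x < 0) (f.roots.filter (fun x => ¬ 0 < x))
  have h5 : (f.roots.filter (fun x => ¬ 0 < x)).filter (fun x => x < 0) = f.roots.filter (fun x => x < 0) := by
    rw [Multiset.filter_filter]
    refine Multiset.filter_congr (fun x _ => ?_)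
    constructor
    · exact fun h => h.1
    · exact fun h => ⟨h, not_lt.mpr h.le⟩
  have h6 : (f.roots.filter (fun x => ¬ 0 < x)).filter (fun x => ¬ x < 0) = f.roots.filter (fun x => x = 0) := by
    rw [Multiset.filter_filter]
    refine Multiset.filter_congr (fun x _ => ?_)
    constructor
    · rintro ⟨h, h'⟩; exact le_antisymm (not_lt.mp h') (not_lt.mp h)
    · rintro rfl; simp
  rw [h5, h6] at h4
  have h7 := congrArg Multiset.card h3
  have h8 := congrArg Multiset.card h4
  rw [Multiset.card_add] at h7 h8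
  omega

/-- The number of real roots does not decrease. -/
lemma card_mono (f q : ℝ[X]) (hf : f ≠ 0) (H : ℕ → ℝ)
    (hH : ∀ n, 2 * 3 ≤ H (n + 2) - 2 * H (n + 1) + H n)
    (hq : ∀ k, q.coeff k = f.coeff k * Real.exp (-H k)) : f.roots.card ≤ q.roots.card := by
  have hqne : q ≠ 0 := by
    intro h
    apply hf
    ext k
    have := hq k
    rw [h, coeff_zero] at this
    rw [coeff_zero]
    exact (mul_eq_zero.mp this.symm).resolve_right (Real.exp_ne_zero _)
  have h1 := zp_mono f q hf H hH hq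
  have h2 := zp_mono (f.comp (-X)) (q.comp (-X)) (by rwa [Ne, comp_neg_X_eq_zero_iff]) H hH
    (fun k => by rw [coeff_comp_neg, coeff_comp_neg, hq]; ring)
  have h3 : f.rootMultiplicity 0 = q.rootMultiplicity 0 := by
    rw [rootMultiplicity_eq_natTrailingDegree', rootMultiplicity_eq_natTrailingDegree']
    apply le_antisymm
    · refine le_natTrailingDegree hqne (fun m hm => ?_)
      rw [hq, coeff_eq_zero_of_lt_natTrailingDegree hm, zero_mul]
    · refine le_natTrailingDegree hf (fun m hm => ?_)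
      have := coeff_eq_zero_of_lt_natTrailingDegree hm
      rw [hq] at this
      exact (mul_eq_zero.mp this).resolve_right (Real.exp_ne_zero _)
  rw [card_split f, card_split q]
  omega

/-- Real roots and nonreal roots. -/
lemma nonreal_add_real (g : ℝ[X]) :
    ((g.map (algebraMap ℝ ℂ)).roots.filter (fun z : ℂ => z.im ≠ 0)).card + g.roots.card = g.natDegree := by
  classical
  have hinj : Function.Injective (algebraMap ℝ ℂ) := (algebraMap ℝ ℂ).injective
  have h1 : (g.map (algebraMap ℝ ℂ)).roots.card = g.natDegree :=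
    IsAlgClosed.card_roots_map_eq_natDegree_of_injective _ hinj
  have h2 : (g.map (algebraMap ℝ ℂ)).roots.filter (fun z : ℂ => ¬ z.im ≠ 0)
      = g.roots.map (algebraMap ℝ ℂ) := by
    ext z
    by_cases hz : z.im ≠ 0
    · rw [Multiset.count_filter_of_neg (by simpa using hz)]
      symm
      rw [Multiset.count_eq_zero]
      intro hmem
      obtain ⟨x, _, hx⟩ := Multiset.mem_map.mp hmem
      apply hz
      rw [← hx]; simp
    · rw [Multiset.count_filter_of_pos (by simpa using hz)]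
      push Not at hz
      obtain ⟨x, rfl⟩ : ∃ x : ℝ, (algebraMap ℝ ℂ) x = z := ⟨z.re, by
        apply Complex.ext <;> simp [hz]⟩
      rw [count_roots, Multiset.count_map_eq_count' _ _ hinj, count_roots,
        ← eq_rootMultiplicity_map hinj]
  have h3 := Multiset.filter_add_not (fun z : ℂ => z.im ≠ 0) (g.map (algebraMap ℝ ℂ)).roots
  have h4 := congrArg Multiset.card h3
  rw [Multiset.card_add, h2, Multiset.card_map, h1] at h4
  exact h4

lemma second_diff_pow (p : ℕ) (hp : 3 ≤ p) (n : ℕ) :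
    (2 * 3 : ℝ) ≤ ((n + 2 : ℕ) : ℝ) ^ p - 2 * ((n + 1 : ℕ) : ℝ) ^ p + (n : ℝ) ^ p := by
  induction p, hp using Nat.le_induction with
  | base =>
    push_cast
    have : (0 : ℝ) ≤ n := Nat.cast_nonneg n
    nlinarith
  | succ p _ ih =>
    push_cast at ih ⊢
    have hn : (0 : ℝ) ≤ n := Nat.cast_nonneg n
    have h1 : (n : ℝ) ^ p ≤ ((n : ℝ) + 2) ^ p := by gcongr; linarith
    have h2 : ((n : ℝ) + 2) ^ (p + 1) - 2 * ((n : ℝ) + 1) ^ (p + 1) + (n : ℝ) ^ (p + 1)
        = ((n : ℝ) + 1) * (((n : ℝ) + 2) ^ p - 2 * ((n : ℝ) + 1) ^ p + (n : ℝ) ^ p)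
          + (((n : ℝ) + 2) ^ p - (n : ℝ) ^ p) := by ring
    rw [h2]
    nlinarith


lemma coeff_image (p : ℕ) (f : ℝ[X]) (k : ℕ) :
    (∑ n ∈ f.support, C (f.coeff n * Real.exp (-((n : ℝ) ^ p))) * X ^ n).coeff k
      = f.coeff k * Real.exp (-((k : ℝ) ^ p)) := by
  rw [finsetSum_coeff]
  simp only [coeff_C_mul_X_pow]
  rw [Finset.sum_ite_eq]
  split_ifs with h
  · rfl
  · rw [notMem_support_iff.mp h, zero_mul]

/-- For every integer p ≥ 3 and every real polynomial f = Σ a_k x^k, the polynomial Σ e^{-k^p} a_k x^k has at most as many nonreal zeros (with multiplicity) as f. -/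
theorem result :
    ∀ p : ℕ, 3 ≤ p → ∀ f : Polynomial ℝ,
      (((∑ n ∈ f.support,
            Polynomial.C (f.coeff n * Real.exp (-((n : ℝ) ^ p))) * Polynomial.X ^ n).map
            (algebraMap ℝ ℂ)).roots.filter (fun z : ℂ => z.im ≠ 0)).card
        ≤ ((f.map (algebraMap ℝ ℂ)).roots.filter (fun z : ℂ => z.im ≠ 0)).card := by
  intro p hp f
  by_cases hf : f = 0
  · subst hf; simp
  set q : ℝ[X] := ∑ n ∈ f.support, C (f.coeff n * Real.exp (-((n : ℝ) ^ p))) * X ^ n with hqdef
  have hq : ∀ k, q.coeff k = f.coeff k * Real.exp (-((fun k : ℕ => (k : ℝ) ^ p) k)) :=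
    fun k => coeff_image p f k
  have h1 := card_mono f q hf (fun k : ℕ => (k : ℝ) ^ p) (fun n => second_diff_pow p hp n) hq
  have h2 : q.natDegree ≤ f.natDegree := by
    rw [natDegree_le_iff_coeff_eq_zero]
    intro n hn
    rw [hq, coeff_eq_zero_of_natDegree_lt hn, zero_mul]
  have h3 := nonreal_add_real q
  have h4 := nonreal_add_real f
  omega

end Pool.Agent.S03161
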