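import Pool.Statements.S03164
import Pool.Agent.Helper401.Dw8

set_option autoImplicit false
open MeasureTheory Filter Topology
open Pool Pool.MP_563d58_an

namespace Pool.Agent.S03164

/-- The negation of the preceding statement: For every closed C*-algebra E of bounded functions on the circle containing the continuous ones, every character of H∞∩E is approximated, on any finitely many elements, by Poisson evaluation at some point of the open unit disc. -/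
theorem result :
    ¬ (∀ S : Set (ℝ → ℂ),
    (∀ f ∈ S, Function.Periodic f (2 * Real.pi) ∧ AEStronglyMeasurable f volume ∧
        eLpNorm f (⊤ : ENNReal) volume < ⊤) →
    (∀ f : ℝ → ℂ, Continuous f → Function.Periodic f (2 * Real.pi) → f ∈ S) →
    (∀ f ∈ S, ∀ g ∈ S, f + g ∈ S) →
    (∀ f ∈ S, ∀ g ∈ S, f * g ∈ S) →
    (∀ c : ℂ, ∀ f ∈ S, c • f ∈ S) →
    (∀ f ∈ S, (fun t => star (f t)) ∈ S) →
    (∀ (F : ℕ → ℝ → ℂ) (f : ℝ → ℂ), (∀ n, F n ∈ S) → Function.Periodic f (2 * Real.pi) →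
        AEStronglyMeasurable f volume →
        Tendsto (fun n => eLpNorm (F n - f) (⊤ : ENNReal) volume) atTop (𝓝 0) → f ∈ S) →
    ∀ A : Set (ℝ → ℂ),
      A = {f | f ∈ S ∧ ∀ n : ℕ, 0 < n →
        ∫ t in (0:ℝ)..(2 * Real.pi), f t * Complex.exp ((n : ℂ) * (t : ℂ) * Complex.I) = 0} →
    ∀ φ : (ℝ → ℂ) → ℂ,
      φ (fun _ => 1) = 1 →
      (∀ f ∈ A, ∀ g ∈ A, φ (f + g) = φ f + φ g) →
      (∀ c : ℂ, ∀ f ∈ A, φ (c • f) = c * φ f) →
      (∀ f ∈ A, ∀ g ∈ A, φ (f * g) = φ f * φ g) →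
      (∀ f ∈ A, ∀ g ∈ A, f =ᵐ[volume] g → φ f = φ g) →
      ∀ (m : ℕ) (F : Fin m → ℝ → ℂ), (∀ i, F i ∈ A) →
        ∀ ε : ℝ, 0 < ε → ∃ z : ℂ, ‖z‖ < 1 ∧ ∀ i,
          ‖(∫ t in (0:ℝ)..(2 * Real.pi),
              F i t * (((1 - ‖z‖ ^ 2) / ‖Complex.exp ((t : ℂ) * Complex.I) - z‖ ^ 2 : ℝ) : ℂ))
              / (2 * (Real.pi : ℂ)) - φ (F i)‖ < ε) := by
  intro H
  have f1 := Helper401.Dw.FF_mem 0 Helper401.Dw.c1_le Helper401.Dw.c1_diff Helper401.Dw.s1
  have f2 := Helper401.Dw.FF_mem 0 Helper401.Dw.c2_le Helper401.Dw.c2_diff Helper401.Dw.s2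
  have f3 := Helper401.Dw.FF_mem 1 Helper401.Dw.c3_le Helper401.Dw.c3_diff Helper401.Dw.s3
  obtain ⟨z, hz, h⟩ := H Helper401.Dw.SS (fun f hf => ⟨hf.1, hf.2.1, hf.2.2.1⟩)
    (fun f hf hp => Helper401.Dw.SS_cont hf hp)
    (fun f hf g hg => Helper401.Dw.SS_add hf hg)
    (fun f hf g hg => Helper401.Dw.SS_mul hf hg)
    (fun c f hf => Helper401.Dw.SS_smul hf c)
    (fun f hf => Helper401.Dw.SS_star hf)
    (fun F f hF hp hm hl => Helper401.Dw.SS_closed F f hF hp hm hl)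
    Helper401.Dw.AA rfl Helper401.Dw.ph Helper401.Dw.ph_one
    (fun f hf g hg => Helper401.Dw.ph_add hf.1 hg.1)
    (fun c f hf => Helper401.Dw.ph_smul hf.1 c)
    (fun f hf g hg => Helper401.Dw.ph_mul hf hg)
    (fun f hf g hg hfg => Helper401.Dw.ph_congr hf.1 hg.1 hfg)
    3 ![fun t => Helper401.Dw.FF Helper401.Dw.c1 0 (Helper401.Dw.ex t),
      fun t => Helper401.Dw.FF Helper401.Dw.c2 0 (Helper401.Dw.ex t),
      fun t => Helper401.Dw.FF Helper401.Dw.c3 1 (Helper401.Dw.ex t)]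
    (by
      intro i
      fin_cases i
      · exact f1.1
      · exact f2.1
      · exact f3.1) (1/4) (by norm_num)
  have e1 := h 0
  have e2 := h 1
  have e3 := h 2
  simp only [Matrix.cons_val_zero, Matrix.cons_val_one, Matrix.cons_val] at e1 e2 e3
  rw [f1.2, Helper401.Dw.M_G1, sub_zero] at e1
  rw [f2.2, Helper401.Dw.M_G2, sub_zero] at e2
  rw [f3.2, Helper401.Dw.M_zero, sub_zero] at e3
  have g1 := Helper401.Dw.integral_hm hz (fun t => Helper401.Dw.FF Helper401.Dw.c1 0 (Helper401.Dw.ex t))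
  have g2 := Helper401.Dw.integral_hm hz (fun t => Helper401.Dw.FF Helper401.Dw.c2 0 (Helper401.Dw.ex t))
  have g3 := Helper401.Dw.integral_hm hz (fun t => Helper401.Dw.FF Helper401.Dw.c3 1 (Helper401.Dw.ex t))
  unfold Helper401.Dw.pk at g1 g2 g3
  rw [← g1, Helper401.Dw.FF_poisson 0 Helper401.Dw.c1_le Helper401.Dw.c1_diff hz] at e1
  rw [← g2, Helper401.Dw.FF_poisson 0 Helper401.Dw.c2_le Helper401.Dw.c2_diff hz] at e2
  rw [← g3, Helper401.Dw.FF_poisson 1 Helper401.Dw.c3_le Helper401.Dw.c3_diff hz] at e3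
  exact Helper401.Dw.corona hz e1 e2 e3

end Pool.Agent.S03164
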