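import Pool.Statements.S03166
import Pool.Agent.Helper57.NumIdx3

set_option autoImplicit false
open Pool Pool.MP_565a2b_an

namespace Pool.Agent.S03166

/-- The negation of the preceding statement: For every nontrivial real or complex Banach space X whose dual has a unique isometric predual, the numerical index of the dual X* equals the numerical index of X. -/
theorem result :
    ¬ (∀ (𝕜 : Type) [RCLike 𝕜] (X : Type) [NormedAddCommGroup X] [NormedSpace 𝕜 X]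
      [CompleteSpace X] [Nontrivial X],
      (∀ (Z : Type) [NormedAddCommGroup Z] [NormedSpace 𝕜 Z] [CompleteSpace Z],
        Nonempty ((Z →L[𝕜] 𝕜) ≃ₗᵢ[𝕜] (X →L[𝕜] 𝕜)) → Nonempty (Z ≃ₗᵢ[𝕜] X)) →
      sInf {c : ℝ | ∃ T : (X →L[𝕜] 𝕜) →L[𝕜] (X →L[𝕜] 𝕜), ‖T‖ = 1 ∧
          c = sSup {r : ℝ | ∃ x : X →L[𝕜] 𝕜, ∃ f : (X →L[𝕜] 𝕜) →L[𝕜] 𝕜,
            ‖x‖ = 1 ∧ ‖f‖ = 1 ∧ f x = 1 ∧ r = ‖f (T x)‖}}
        =
      sInf {c : ℝ | ∃ T : X →L[𝕜] X, ‖T‖ = 1 ∧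
          c = sSup {r : ℝ | ∃ x : X, ∃ f : X →L[𝕜] 𝕜,
            ‖x‖ = 1 ∧ ‖f‖ = 1 ∧ f x = 1 ∧ r = ‖f (T x)‖}}) := by
  intro h
  have := Pool.Agent.Helper57.NumIdx.XX_nontrivial
  have h1 := h ℝ Pool.Agent.Helper57.NumIdx.XX (fun Z _ _ _ hZ => by
    obtain ⟨Φ⟩ := hZ
    exact Pool.Agent.Helper57.NumIdx.XX_unique Z Φ)
  obtain ⟨T₁, hT₁, hNR⟩ := Pool.Agent.Helper57.NumIdx.XX_upper
  have hup : sInf {c : ℝ | ∃ T : (Pool.Agent.Helper57.NumIdx.XX →L[ℝ] ℝ) →L[ℝ] (Pool.Agent.Helper57.NumIdx.XX →L[ℝ] ℝ), ‖T‖ = 1 ∧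
          c = sSup {r : ℝ | ∃ x : Pool.Agent.Helper57.NumIdx.XX →L[ℝ] ℝ, ∃ f : (Pool.Agent.Helper57.NumIdx.XX →L[ℝ] ℝ) →L[ℝ] ℝ,
            ‖x‖ = 1 ∧ ‖f‖ = 1 ∧ f x = 1 ∧ r = ‖f (T x)‖}} ≤ 11 / 20 := by
    refine csInf_le_of_le ?_ ⟨T₁, hT₁, rfl⟩
      (Pool.Agent.Helper57.NumIdx.radSet_le (by norm_num) hNR)
    refine ⟨0, ?_⟩
    rintro c ⟨T, _, rfl⟩
    exact Pool.Agent.Helper57.NumIdx.radSet_nonneg T
  have hlow : 3 / 5 ≤ sInf {c : ℝ | ∃ T : Pool.Agent.Helper57.NumIdx.XX →L[ℝ] Pool.Agent.Helper57.NumIdx.XX, ‖T‖ = 1 ∧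
          c = sSup {r : ℝ | ∃ x : Pool.Agent.Helper57.NumIdx.XX, ∃ f : Pool.Agent.Helper57.NumIdx.XX →L[ℝ] ℝ,
            ‖x‖ = 1 ∧ ‖f‖ = 1 ∧ f x = 1 ∧ r = ‖f (T x)‖}} := by
    apply le_csInf
    · exact ⟨_, ContinuousLinearMap.id ℝ Pool.Agent.Helper57.NumIdx.XX, ContinuousLinearMap.norm_id, rfl⟩
    · rintro c ⟨T, hT, rfl⟩
      exact Pool.Agent.Helper57.NumIdx.XX_lower hT (Pool.Agent.Helper57.NumIdx.NR_radSet T)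
  rw [h1] at hup
  linarith

end Pool.Agent.S03166
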