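import Pool.Statements.S03172
import Pool.Agent.MP58366f.Fin2

set_option autoImplicit false
open Pool Pool.MP_58366f_an

namespace Pool.Agent.S03172

/-- The negation of the preceding statement: For 1 ≤ p < ∞, p ≠ 2: every inner function on the disc that multiplies power series with ℓ^p Taylor coefficients into themselves is a unimodular constant times a finite product of interpolating Blaschke products. -/
theorem result :
    ¬ (∀ p : ℝ, 1 ≤ p → p ≠ 2 →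
    ∀ F : ℂ → ℂ, DifferentiableOn ℂ F (Metric.ball (0 : ℂ) 1) →
      (∀ z ∈ Metric.ball (0 : ℂ) 1, ‖F z‖ ≤ 1) →
      (∀ᵐ θ : ℝ ∂MeasureTheory.volume, ∃ w : ℂ, ‖w‖ = 1 ∧
        Filter.Tendsto (fun r : ℝ => F ((r : ℂ) * Complex.exp ((θ : ℂ) * Complex.I)))
          (nhdsWithin (1 : ℝ) (Set.Iio 1)) (nhds w)) →
      (∀ f : ℂ → ℂ, DifferentiableOn ℂ f (Metric.ball (0 : ℂ) 1) →
        Summable (fun n : ℕ => ‖iteratedDeriv n f 0 / (n.factorial : ℂ)‖ ^ p) →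
        Summable (fun n : ℕ =>
          ‖iteratedDeriv n (fun z => F z * f z) 0 / (n.factorial : ℂ)‖ ^ p)) →
      ∃ (N : ℕ) (B : Fin N → ℂ → ℂ) (c : ℂ), ‖c‖ = 1 ∧
        (∀ j : Fin N,
          DifferentiableOn ℂ (B j) (Metric.ball (0 : ℂ) 1) ∧
          (∀ z ∈ Metric.ball (0 : ℂ) 1, ‖B j z‖ ≤ 1) ∧
          (∀ᵐ θ : ℝ ∂MeasureTheory.volume, ∃ w : ℂ, ‖w‖ = 1 ∧
            Filter.Tendsto (fun r : ℝ => B j ((r : ℂ) * Complex.exp ((θ : ℂ) * Complex.I)))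
              (nhdsWithin (1 : ℝ) (Set.Iio 1)) (nhds w)) ∧
          Filter.Tendsto
            (fun r : ℝ => ∫ θ in (0 : ℝ)..(2 * Real.pi),
              Real.log ‖B j ((r : ℂ) * Complex.exp ((θ : ℂ) * Complex.I))‖)
            (nhdsWithin (1 : ℝ) (Set.Iio 1)) (nhds 0) ∧
          ∃ δ : ℝ, 0 < δ ∧ ∀ z ∈ Metric.ball (0 : ℂ) 1, B j z = 0 →
            δ ≤ (1 - ‖z‖ ^ 2) * ‖deriv (B j) z‖) ∧
        ∀ z ∈ Metric.ball (0 : ℂ) 1, F z = c * ∏ j : Fin N, B j z) := by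
  intro h
  obtain ⟨G, hG1, hG2, hG3, hG4, hG5⟩ := IM.final_exists
  obtain ⟨N, B, c, hc, hB, hprod⟩ := h 4 (by norm_num) (by norm_num) G hG1 hG2 hG3 hG4
  obtain ⟨M, hM⟩ := cluster_contra N B (fun j => (hB j).1) (fun j => (hB j).2.1) (fun j => (hB j).2.2.2.2)
  obtain ⟨z, hz1, hz2, hz3, hz4⟩ := hG5 M
  refine hM z hz1 hz2 hz4 fun i => ?_
  have hzi : z i ∈ Metric.ball (0 : ℂ) 1 := by simpa using hz2 i
  have h1 := hprod (z i) hzi
  rw [hz3 i] at h1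
  have hc0 : c ≠ 0 := by intro h0; rw [h0] at hc; simp at hc
  exact (mul_eq_zero.1 h1.symm).resolve_left hc0

end Pool.Agent.S03172
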