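import Pool.Statements.S03174
-- import your own Pool.Agent.* helpers here

set_option autoImplicit false
open Pool Pool.MP_583d70_an

namespace Pool.Agent.S03174

open Filter Topology

/-- The sequence space of absolutely summable real sequences. -/
abbrev L1 : Type := lp (fun _ : ℕ => ℝ) 1

lemma summable_abs (z : L1) : Summable fun j => |z j| := by
  have h := (lp.memℓp z)
  have h2 := h.summable (by norm_num : 0 < (1 : ENNReal).toReal)
  simpa using h2

lemma summable_self (z : L1) : Summable fun j => z j := (summable_abs z).of_abs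

lemma norm_eq (z : L1) : ‖z‖ = ∑' j, |z j| := by
  rw [lp.norm_eq_tsum_rpow (by norm_num : 0 < (1 : ENNReal).toReal) z]
  simp

/-- The k-th tail sum. -/
noncomputable def T (k : ℕ) (z : L1) : ℝ := ∑' j, z (j + k)

/-- The k-th absolute tail sum. -/
noncomputable def S (k : ℕ) (z : L1) : ℝ := ∑' j, |z (j + k)|

lemma summable_abs_tail (z : L1) (k : ℕ) : Summable fun j => |z (j + k)| :=
  (summable_nat_add_iff (f := fun j => |z j|) k).2 (summable_abs z)

lemma summable_tail (z : L1) (k : ℕ) : Summable fun j => z (j + k) :=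
  (summable_abs_tail z k).of_abs

lemma S_zero (z : L1) : S 0 z = ‖z‖ := by
  rw [norm_eq]; simp [S]

lemma S_nonneg (k : ℕ) (z : L1) : 0 ≤ S k z := tsum_nonneg fun _ => abs_nonneg _

lemma S_add (k d : ℕ) (z : L1) :
    S k z = ∑ j ∈ Finset.range d, |z (j + k)| + S (k + d) z := by
  have h := (summable_abs_tail z k).sum_add_tsum_nat_add d
  rw [S, ← h, S]
  congr 1
  refine tsum_congr fun j => ?_
  rw [show j + d + k = j + (k + d) by ring]

lemma T_add (k d : ℕ) (z : L1) :
    T k z = ∑ j ∈ Finset.range d, z (j + k) + T (k + d) z := by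
  have h := (summable_tail z k).sum_add_tsum_nat_add d
  rw [T, ← h, T]
  congr 1
  refine tsum_congr fun j => ?_
  rw [show j + d + k = j + (k + d) by ring]

lemma S_le_norm (k : ℕ) (z : L1) : S k z ≤ ‖z‖ := by
  rw [← S_zero, S_add 0 k z, Nat.zero_add]
  have : 0 ≤ ∑ j ∈ Finset.range k, |z (j + 0)| := Finset.sum_nonneg fun _ _ => abs_nonneg _
  linarith

lemma abs_T_le (k : ℕ) (z : L1) : |T k z| ≤ S k z := by
  have h := norm_tsum_le_tsum_norm (f := fun j => z (j + k))
    (by simpa using summable_abs_tail z k)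
  simpa [T, S] using h

/-- If two tail sums have opposite large values, the norm is large. -/
lemma key (z : L1) (k d : ℕ) : |T k z - T (k + d) z| + |T (k + d) z| ≤ ‖z‖ := by
  have h1 : T k z - T (k + d) z = ∑ j ∈ Finset.range d, z (j + k) := by
    rw [T_add k d z]; ring
  have h2 : |T k z - T (k + d) z| ≤ ∑ j ∈ Finset.range d, |z (j + k)| := by
    rw [h1]; exact Finset.abs_sum_le_sum_abs _ _
  have h3 := abs_T_le (k + d) z
  have h4 := S_add k d z
  have h5 := S_le_norm k z
  linarith

lemma T_lin_add (k : ℕ) (z w : L1) : T k (z + w) = T k z + T k w := by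
  unfold T
  rw [← (summable_tail z k).tsum_add (summable_tail w k)]
  rfl

lemma T_smul (k : ℕ) (a : ℝ) (z : L1) : T k (a • z) = a * T k z := by
  unfold T
  rw [← tsum_mul_left]
  rfl

/-- The k-th tail sum as a continuous linear functional. -/
noncomputable def TL (k : ℕ) : L1 →L[ℝ] ℝ :=
  LinearMap.mkContinuous
    { toFun := T k
      map_add' := T_lin_add k
      map_smul' := fun a z => by simp [T_smul] } 1
    (fun z => by
      have := (abs_T_le k z).trans (S_le_norm k z)
      simpa using this)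

lemma TL_apply (k : ℕ) (z : L1) : TL k z = T k z := rfl

lemma T_tendsto (z : L1) : Tendsto (fun k => T k z) atTop (𝓝 0) :=
  tendsto_sum_nat_add fun j => z j

lemma T_single (k : ℕ) (a : ℝ) : T k (lp.single 1 k a : L1) = a := by
  unfold T
  rw [tsum_eq_single 0]
  · rw [zero_add]
    exact lp.single_apply_self (E := fun _ : ℕ => ℝ) 1 k a
  · intro j hj
    have hjk : j + k ≠ k := by omega
    exact lp.single_apply_ne (E := fun _ : ℕ => ℝ) 1 k a hjk

/-- The two sets. -/
def C1 : Set L1 := {z | ∀ k, T k z ≤ 1 / 3}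
def C2 : Set L1 := {z | ∀ k, -(1 / 3) ≤ T k z}

lemma C1_eq : C1 = ⋂ k, {z | TL k z ≤ 1 / 3} := by
  ext z; simp [C1, TL_apply]

lemma C2_eq : C2 = ⋂ k, {z | -(1 / 3) ≤ TL k z} := by
  ext z; simp [C2, TL_apply]

lemma C1_convex : Convex ℝ C1 := by
  rw [C1_eq]
  exact convex_iInter fun k => convex_halfSpace_le (TL k).isLinear _

lemma C2_convex : Convex ℝ C2 := by
  rw [C2_eq]
  exact convex_iInter fun k => convex_halfSpace_ge (TL k).isLinear _

lemma C1_closed : IsClosed C1 := by
  rw [C1_eq]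
  exact isClosed_iInter fun k => isClosed_le (TL k).continuous continuous_const

lemma C2_closed : IsClosed C2 := by
  rw [C2_eq]
  exact isClosed_iInter fun k => isClosed_le continuous_const (TL k).continuous

lemma ball_sub_C1 : Metric.ball (0 : L1) (1 / 3) ⊆ C1 := by
  intro z hz k
  have h1 : ‖z‖ < 1 / 3 := by simpa using hz
  have h2 := (abs_le.1 ((abs_T_le k z).trans (S_le_norm k z))).2
  linarith

lemma ball_sub_C2 : Metric.ball (0 : L1) (1 / 3) ⊆ C2 := by
  intro z hz k
  have h1 : ‖z‖ < 1 / 3 := by simpa using hz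
  have h2 := (abs_le.1 ((abs_T_le k z).trans (S_le_norm k z))).1
  linarith

lemma int_of_ball {C : Set L1} (h : Metric.ball (0 : L1) (1 / 3) ⊆ C) : (interior C).Nonempty :=
  ⟨0, mem_interior.2 ⟨_, h, Metric.isOpen_ball, Metric.mem_ball_self (by norm_num)⟩⟩

lemma cover (z : L1) (hz : ‖z‖ ≤ 1) : z ∈ C1 ∨ z ∈ C2 := by
  by_contra hcon
  push Not at hcon
  obtain ⟨h1, h2⟩ := hcon
  simp only [C1, C2, Set.mem_ofPred_eq, not_forall, not_le] at h1 h2
  obtain ⟨k, hk⟩ := h1
  obtain ⟨l, hl⟩ := h2
  rcases le_total k l with hkl | hkl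
  · obtain ⟨d, rfl⟩ := Nat.exists_eq_add_of_le hkl
    have h := key z k d
    have ha := le_abs_self (T k z - T (k + d) z)
    have hb := neg_abs_le (T (k + d) z)
    linarith
  · obtain ⟨d, rfl⟩ := Nat.exists_eq_add_of_le hkl
    have h := key z l d
    have ha := neg_abs_le (T l z - T (l + d) z)
    have hb := le_abs_self (T (l + d) z)
    linarith

lemma single_norm (k : ℕ) (a : ℝ) : ‖(lp.single 1 k a : L1)‖ = |a| := by
  rw [lp.norm_single (by norm_num : (0 : ENNReal) < 1)]
  simp

lemma rad_C1 {x : L1} {ρ : ℝ} (h : Metric.ball x ρ ⊆ C1) : ρ ≤ 1 / 3 := by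
  refine le_of_forall_lt fun s hs => ?_
  rcases lt_or_ge s 0 with hs0 | hs0
  · linarith
  · obtain ⟨r, hr1, hr2⟩ := exists_between hs
    have h3 : ∀ k, T k x + r ≤ 1 / 3 := by
      intro k
      have hr0 : 0 ≤ r := by linarith
      have hmem : x + (lp.single 1 k r : L1) ∈ Metric.ball x ρ := by
        rw [Metric.mem_ball, dist_eq_norm, add_sub_cancel_left, single_norm, abs_of_nonneg hr0]
        exact hr2
      have h2 := h hmem k
      rw [T_lin_add, T_single] at h2
      exact h2
    have h4 : Tendsto (fun k => T k x + r) atTop (𝓝 (0 + r)) := (T_tendsto x).add_const r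
    have h5 := le_of_tendsto h4 (Eventually.of_forall h3)
    linarith

lemma rad_C2 {x : L1} {ρ : ℝ} (h : Metric.ball x ρ ⊆ C2) : ρ ≤ 1 / 3 := by
  have h' : Metric.ball (-x) ρ ⊆ C1 := by
    intro z hz k
    have hz2 : -z ∈ Metric.ball x ρ := by
      rw [Metric.mem_ball, dist_eq_norm] at hz ⊢
      rw [← norm_neg]
      rw [show -(-z - x) = z - -x by abel]
      exact hz
    have h2 := h hz2 k
    have h3 : T k (-z) = - T k z := by
      have := T_smul k (-1) z
      simpa using this
    rw [h3] at h2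
    linarith
  exact rad_C1 h'

/-- The negation of the preceding statement: In every nontrivial real Banach space, if a closed ball of radius R>0 is covered by finitely many closed convex sets with nonempty interior, then the inradii of their intersections with the ball sum to at least R. -/
theorem result :
    ¬ (∀ (E : Type) [NormedAddCommGroup E] [NormedSpace ℝ E] [CompleteSpace E] [Nontrivial E]
      (c : E) (R : ℝ), 0 < R →
      ∀ (n : ℕ) (C : Fin n → Set E),
        (∀ i, Convex ℝ (C i) ∧ IsClosed (C i) ∧ (interior (C i)).Nonempty) →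
        Metric.closedBall c R ⊆ ⋃ i, C i →
        R ≤ ∑ i, sSup {ρ : ℝ | 0 ≤ ρ ∧ ∃ x : E, Metric.ball x ρ ⊆ C i ∩ Metric.closedBall c R}) := by
  intro H
  have : Nontrivial L1 := by
    refine ⟨⟨lp.single 1 0 1, 0, fun h => ?_⟩⟩
    have h2 := single_norm 0 1
    rw [h] at h2
    simp at h2
  have h := H L1 0 1 one_pos 2 ![C1, C2] (by
      intro i
      fin_cases i
      · exact ⟨C1_convex, C1_closed, int_of_ball ball_sub_C1⟩
      · exact ⟨C2_convex, C2_closed, int_of_ball ball_sub_C2⟩) (by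
      intro z hz
      have hz1 : ‖z‖ ≤ 1 := by simpa using hz
      rw [Set.mem_iUnion]
      rcases cover z hz1 with h | h
      · exact ⟨0, h⟩
      · exact ⟨1, h⟩)
  rw [Fin.sum_univ_two] at h
  have e1 : sSup {ρ : ℝ | 0 ≤ ρ ∧ ∃ x : L1, Metric.ball x ρ ⊆ (![C1, C2] 0) ∩
      Metric.closedBall (0 : L1) 1} ≤ 1 / 3 := by
    refine csSup_le ⟨0, le_refl _, 0, by simp⟩ ?_
    rintro ρ ⟨h0, x, hx⟩
    exact rad_C1 (fun z hz => (hx hz).1)
  have e2 : sSup {ρ : ℝ | 0 ≤ ρ ∧ ∃ x : L1, Metric.ball x ρ ⊆ (![C1, C2] 1) ∩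
      Metric.closedBall (0 : L1) 1} ≤ 1 / 3 := by
    refine csSup_le ⟨0, le_refl _, 0, by simp⟩ ?_
    rintro ρ ⟨h0, x, hx⟩
    exact rad_C2 (fun z hz => (hx hz).1)
  linarith

end Pool.Agent.S03174
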