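import Pool.Statements.S03176
import Pool.Agent.Helper434.HillMain

set_option autoImplicit false
open Pool Pool.MP_5876d3_an

namespace Pool.Agent.S03176

open Pool.Agent.Helper434.HillMain Pool.Agent.Helper434.HillCore Pool.Agent.Helper434.HillFun
open MeasureTheory Filter Topology

theorem exists_system :
    ∃ c dc s ds : ℝ → ℂ → ℝ → ℂ,
    (∀ (x₀ : ℝ) (z : ℂ), Continuous (c x₀ z) ∧ Continuous (dc x₀ z) ∧
      Continuous (s x₀ z) ∧ Continuous (ds x₀ z) ∧
      ∀ x : ℝ,
        (c x₀ z x = 1 + ∫ t in x₀..x, dc x₀ z t) ∧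
        (dc x₀ z x = ∫ t in x₀..x, (q t - z) * c x₀ z t) ∧
        (s x₀ z x = ∫ t in x₀..x, ds x₀ z t) ∧
        (ds x₀ z x = 1 + ∫ t in x₀..x, (q t - z) * s x₀ z t)) ∧
    (∀ x₀ : ℝ, 1 ≤ analyticOrderAt (fun w : ℂ => s x₀ w (x₀ + 2 * Real.pi)) 0) ∧
    analyticOrderAt (fun w : ℂ => s 0 w (0 + 2 * Real.pi)) 0 = 1 ∧
    analyticOrderAt (fun w : ℂ => dc 0 w (0 + 2 * Real.pi)) 0 = 1 ∧
    3 ≤ analyticOrderAt
      (fun w : ℂ => (c 0 w (2 * Real.pi) + ds 0 w (2 * Real.pi)) ^ 2 - 4) 0 := by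
  obtain ⟨K1, hK1, hb1⟩ := bdd_of_per cont_u1 per_u1
  obtain ⟨K2, hK2, hb2⟩ := bdd_of_per cont_u2 per_u2
  have cu1 := cont_u1
  have cu2 := cont_u2
  have cv1 := cont_v1
  have cv2 := cont_v2
  have cq := cont_q
  set K : ℝ := (K1 + K2) ^ 2 with hKdef
  have hK : 0 ≤ K := by positivity
  have k11 : ∀ x, ‖u1 x * u2 x‖ ≤ K := fun x => by
    rw [norm_mul]
    calc _ ≤ K1 * K2 := mul_le_mul (hb1 x) (hb2 x) (norm_nonneg _) hK1
      _ ≤ K := by rw [hKdef]; nlinarith
  have k12 : ∀ x, ‖u2 x * u2 x‖ ≤ K := fun x => by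
    rw [norm_mul]
    calc _ ≤ K2 * K2 := mul_le_mul (hb2 x) (hb2 x) (norm_nonneg _) hK2
      _ ≤ K := by rw [hKdef]; nlinarith
  have k21 : ∀ x, ‖-(u1 x * u1 x)‖ ≤ K := fun x => by
    rw [norm_neg, norm_mul]
    calc _ ≤ K1 * K1 := mul_le_mul (hb1 x) (hb1 x) (norm_nonneg _) hK1
      _ ≤ K := by rw [hKdef]; nlinarith
  have k22 : ∀ x, ‖-(u1 x * u2 x)‖ ≤ K := fun x => by rw [norm_neg]; exact k11 x
  have c11 : Continuous fun x => u1 x * u2 x := cu1.mul cu2
  have c12 : Continuous fun x => u2 x * u2 x := cu2.mul cu2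
  have c21 : Continuous fun x => -(u1 x * u1 x) := (cu1.mul cu1).neg
  have c22 : Continuous fun x => -(u1 x * u2 x) := (cu1.mul cu2).neg
  obtain ⟨r1, r2, hr1, hr2, d1, d2, z1, z2⟩ :=
    lin_sys c11 c12 c21 c22 K hK k11 k12 k21 k22 1 0
  obtain ⟨r3, r4, hr3, hr4, d3, d4, z3, z4⟩ :=
    lin_sys c11 c12 c21 c22 K hK k11 k12 k21 k22 0 1
  -- coefficient functions
  let a1 : ℂ → ℝ → ℂ := fun z x => 1 + z * r1 z x
  let b1 : ℂ → ℝ → ℂ := fun z x => 0 + z * r2 z x
  let a2 : ℂ → ℝ → ℂ := fun z x => 0 + z * r3 z x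
  let b2 : ℂ → ℝ → ℂ := fun z x => 1 + z * r4 z x
  have ha1 : ∀ z x, HasDerivAt (a1 z) (z * (u1 x * u2 x * a1 z x + u2 x * u2 x * b1 z x)) x :=
    fun z x => ((d1 z x).const_mul z).const_add 1
  have hb1' : ∀ z x, HasDerivAt (b1 z) (z * (-(u1 x * u1 x) * a1 z x + -(u1 x * u2 x) * b1 z x)) x :=
    fun z x => ((d2 z x).const_mul z).const_add 0
  have ha2 : ∀ z x, HasDerivAt (a2 z) (z * (u1 x * u2 x * a2 z x + u2 x * u2 x * b2 z x)) x :=
    fun z x => ((d3 z x).const_mul z).const_add 0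
  have hb2' : ∀ z x, HasDerivAt (b2 z) (z * (-(u1 x * u1 x) * a2 z x + -(u1 x * u2 x) * b2 z x)) x :=
    fun z x => ((d4 z x).const_mul z).const_add 1
  let y1 : ℂ → ℝ → ℂ := fun z x => a1 z x * u1 x + b1 z x * u2 x
  let p1 : ℂ → ℝ → ℂ := fun z x => a1 z x * v1 x + b1 z x * v2 x
  let y2 : ℂ → ℝ → ℂ := fun z x => a2 z x * u1 x + b2 z x * u2 x
  let p2 : ℂ → ℝ → ℂ := fun z x => a2 z x * v1 x + b2 z x * v2 x
  have hy1 : ∀ z x, HasDerivAt (y1 z) (p1 z x) x := fun z x => by
    have h := ((ha1 z x).fun_mul (hasDeriv_u1 x)).fun_add ((hb1' z x).fun_mul (hasDeriv_u2 x))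
    refine HasDerivAt.congr_deriv h ?_
    simp only [p1]; ring
  have hy2 : ∀ z x, HasDerivAt (y2 z) (p2 z x) x := fun z x => by
    have h := ((ha2 z x).fun_mul (hasDeriv_u1 x)).fun_add ((hb2' z x).fun_mul (hasDeriv_u2 x))
    refine HasDerivAt.congr_deriv h ?_
    simp only [p2]; ring
  have hp1 : ∀ z x, HasDerivAt (p1 z) ((q x - z) * y1 z x) x := fun z x => by
    have h := ((ha1 z x).fun_mul (hasDeriv_v1 x)).fun_add ((hb1' z x).fun_mul (hasDeriv_v2 x))
    refine HasDerivAt.congr_deriv h ?_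
    simp only [y1]
    linear_combination (-(z * (a1 z x * u1 x + b1 z x * u2 x))) * wronsk x
  have hp2 : ∀ z x, HasDerivAt (p2 z) ((q x - z) * y2 z x) x := fun z x => by
    have h := ((ha2 z x).fun_mul (hasDeriv_v1 x)).fun_add ((hb2' z x).fun_mul (hasDeriv_v2 x))
    refine HasDerivAt.congr_deriv h ?_
    simp only [y2]
    linear_combination (-(z * (a2 z x * u1 x + b2 z x * u2 x))) * wronsk x
  have wr : ∀ z x, a1 z x * b2 z x - b1 z x * a2 z x = 1 := by
    intro z x
    have hd : ∀ x, HasDerivAt (fun x => a1 z x * b2 z x - b1 z x * a2 z x) 0 x := fun x => by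
      have h := ((ha1 z x).fun_mul (hb2' z x)).fun_sub ((hb1' z x).fun_mul (ha2 z x))
      refine HasDerivAt.congr_deriv h ?_
      ring
    have hconst := is_const_of_deriv_eq_zero (fun x => (hd x).differentiableAt)
      (fun x => (hd x).deriv) x 0
    have e0 : a1 z 0 * b2 z 0 - b1 z 0 * a2 z 0 = 1 := by
      simp [a1, b1, a2, b2, z1, z2, z3, z4]
    exact hconst.trans e0
  have W : ∀ z x, y1 z x * p2 z x - p1 z x * y2 z x = 1 := by
    intro z x
    simp only [y1, p1, y2, p2]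
    linear_combination (u1 x * v2 x - u2 x * v1 x) * wr z x + wronsk x
  have cy1 : ∀ z, Continuous (y1 z) := fun z =>
    continuous_iff_continuousAt.mpr fun x => (hy1 z x).continuousAt
  have cy2 : ∀ z, Continuous (y2 z) := fun z =>
    continuous_iff_continuousAt.mpr fun x => (hy2 z x).continuousAt
  have cp1 : ∀ z, Continuous (p1 z) := fun z =>
    continuous_iff_continuousAt.mpr fun x => (hp1 z x).continuousAt
  have cp2 : ∀ z, Continuous (p2 z) := fun z =>
    continuous_iff_continuousAt.mpr fun x => (hp2 z x).continuousAt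
  let c : ℝ → ℂ → ℝ → ℂ := fun x₀ z x => p2 z x₀ * y1 z x - p1 z x₀ * y2 z x
  let dc : ℝ → ℂ → ℝ → ℂ := fun x₀ z x => p2 z x₀ * p1 z x - p1 z x₀ * p2 z x
  let s : ℝ → ℂ → ℝ → ℂ := fun x₀ z x => y1 z x₀ * y2 z x - y2 z x₀ * y1 z x
  let ds : ℝ → ℂ → ℝ → ℂ := fun x₀ z x => y1 z x₀ * p2 z x - y2 z x₀ * p1 z x
  have dy1 : ∀ x, Differentiable ℂ (fun z => y1 z x) := fun x => by
    have := hr1 x; have := hr2 x
    simp only [y1, a1, b1]; fun_prop
  have dy2 : ∀ x, Differentiable ℂ (fun z => y2 z x) := fun x => by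
    have := hr3 x; have := hr4 x
    simp only [y2, a2, b2]; fun_prop
  have dp1 : ∀ x, Differentiable ℂ (fun z => p1 z x) := fun x => by
    have := hr1 x; have := hr2 x
    simp only [p1, a1, b1]; fun_prop
  have dp2 : ∀ x, Differentiable ℂ (fun z => p2 z x) := fun x => by
    have := hr3 x; have := hr4 x
    simp only [p2, a2, b2]; fun_prop
  -- first order terms at the end of the period
  have per0 : ∀ {f : ℝ → ℂ}, (∀ x, f (x + 2 * Real.pi) = f x) → f (2 * Real.pi) = f 0 := by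
    intro f hf
    simpa using hf 0
  have eu1 := per0 per_u1
  have eu2 := per0 per_u2
  have ev1 := per0 per_v1
  have ev2 := per0 per_v2
  have i1 : r1 0 (2 * Real.pi) = 0 := by
    have h := intervalIntegral.integral_eq_sub_of_hasDerivAt (a := 0) (b := 2 * Real.pi)
      (f := r1 0) (f' := fun x => u1 x * u2 x)
      (fun x _ => by simpa using d1 0 x) (c11.intervalIntegrable _ _)
    rw [int_u1_u2, z1, sub_zero] at h
    exact h.symm
  have i2 : r2 0 (2 * Real.pi) = 0 := by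
    have h := intervalIntegral.integral_eq_sub_of_hasDerivAt (a := 0) (b := 2 * Real.pi)
      (f := r2 0) (f' := fun x => -(u1 x * u1 x))
      (fun x _ => by simpa using d2 0 x) (c21.intervalIntegrable _ _)
    rw [intervalIntegral.integral_neg, int_u1_sq, z2, sub_zero, neg_zero] at h
    exact h.symm
  have i3 : r3 0 (2 * Real.pi) ≠ 0 := by
    have h := intervalIntegral.integral_eq_sub_of_hasDerivAt (a := 0) (b := 2 * Real.pi)
      (f := r3 0) (f' := fun x => u2 x * u2 x)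
      (fun x _ => by simpa using d3 0 x) (c12.intervalIntegrable _ _)
    rw [z3, sub_zero] at h
    rw [← h]
    exact int_u2_sq_ne
  have i4 : r4 0 (2 * Real.pi) = 0 := by
    have h := intervalIntegral.integral_eq_sub_of_hasDerivAt (a := 0) (b := 2 * Real.pi)
      (f := r4 0) (f' := fun x => -(u1 x * u2 x))
      (fun x _ => by simpa using d4 0 x) (c22.intervalIntegrable _ _)
    rw [intervalIntegral.integral_neg, int_u1_u2, z4, sub_zero, neg_zero] at h
    exact h.symm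
  have hu10 : u1 0 ≠ 0 := fun h => by
    have := u1_w1 0
    rw [h, zero_mul] at this
    exact zero_ne_one this
  have hv10 : v1 0 ≠ 0 := by
    unfold v1
    have hdp : dpsi 0 ≠ 0 := by
      unfold dpsi D
      simp
      exact r_pos.ne'
    exact mul_ne_zero (mul_ne_zero Complex.I_ne_zero (Complex.ofReal_ne_zero.mpr hdp)) hu10
  refine ⟨c, dc, s, ds, ?_, ?_, ?_, ?_, ?_⟩
  · intro x₀ z
    refine ⟨?_, ?_, ?_, ?_, ?_⟩
    · exact (continuous_const.mul (cy1 z)).sub (continuous_const.mul (cy2 z))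
    · exact (continuous_const.mul (cp1 z)).sub (continuous_const.mul (cp2 z))
    · exact (continuous_const.mul (cy2 z)).sub (continuous_const.mul (cy1 z))
    · exact (continuous_const.mul (cp2 z)).sub (continuous_const.mul (cp1 z))
    intro x
    refine ⟨?_, ?_, ?_, ?_⟩
    · have h := intervalIntegral.integral_eq_sub_of_hasDerivAt (a := x₀) (b := x)
        (f := c x₀ z) (f' := dc x₀ z)
        (fun t _ => ((hy1 z t).const_mul _).fun_sub ((hy2 z t).const_mul _))
        (((continuous_const.mul (cp1 z)).sub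
          (continuous_const.mul (cp2 z))).intervalIntegrable _ _)
      rw [h]
      have e : c x₀ z x₀ = 1 := by simp only [c]; linear_combination W z x₀
      rw [e]; ring
    · have h := intervalIntegral.integral_eq_sub_of_hasDerivAt (a := x₀) (b := x)
        (f := dc x₀ z) (f' := fun t => (q t - z) * c x₀ z t)
        (fun t _ => by
          have h := ((hp1 z t).const_mul (p2 z x₀)).fun_sub ((hp2 z t).const_mul (p1 z x₀))
          refine HasDerivAt.congr_deriv h ?_
          simp only [c]; ring)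
        (((cq.sub continuous_const).mul ((continuous_const.mul (cy1 z)).sub
          (continuous_const.mul (cy2 z)))).intervalIntegrable _ _)
      rw [h]
      have e : dc x₀ z x₀ = 0 := by simp only [dc]; ring
      rw [e]; ring
    · have h := intervalIntegral.integral_eq_sub_of_hasDerivAt (a := x₀) (b := x)
        (f := s x₀ z) (f' := ds x₀ z)
        (fun t _ => ((hy2 z t).const_mul _).fun_sub ((hy1 z t).const_mul _))
        (((continuous_const.mul (cp2 z)).sub
          (continuous_const.mul (cp1 z))).intervalIntegrable _ _)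
      rw [h]
      have e : s x₀ z x₀ = 0 := by simp only [s]; ring
      rw [e]; ring
    · have h := intervalIntegral.integral_eq_sub_of_hasDerivAt (a := x₀) (b := x)
        (f := ds x₀ z) (f' := fun t => (q t - z) * s x₀ z t)
        (fun t _ => by
          have h := ((hp2 z t).const_mul (y1 z x₀)).fun_sub ((hp1 z t).const_mul (y2 z x₀))
          refine HasDerivAt.congr_deriv h ?_
          simp only [s]; ring)
        (((cq.sub continuous_const).mul ((continuous_const.mul (cy2 z)).sub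
          (continuous_const.mul (cy1 z)))).intervalIntegrable _ _)
      rw [h]
      have e : ds x₀ z x₀ = 1 := by simp only [ds]; linear_combination W z x₀
      rw [e]; ring
  · intro x₀
    rw [Order.one_le_iff_ne_zero, analyticOrderAt_ne_zero]
    have hdiff : Differentiable ℂ (fun w : ℂ => s x₀ w (x₀ + 2 * Real.pi)) :=
      ((dy1 x₀).mul (dy2 _)).sub ((dy2 x₀).mul (dy1 _))
    refine ⟨hdiff.analyticAt 0, ?_⟩
    simp only [s, y1, y2, a1, b1, a2, b2, per_u1, per_u2]
    ring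
  · have hdiff : Differentiable ℂ (fun w : ℂ => s 0 w (0 + 2 * Real.pi)) :=
      ((dy1 0).mul (dy2 _)).sub ((dy2 0).mul (dy1 _))
    have h := (hdiff.analyticAt 0).analyticOrderAt_eq_natCast (n := 1)
    rw [Nat.cast_one] at h
    rw [h]
    refine ⟨fun w => u1 0 * (r3 w (2 * Real.pi) * u1 0 + r4 w (2 * Real.pi) * u2 0)
      - u2 0 * (r1 w (2 * Real.pi) * u1 0 + r2 w (2 * Real.pi) * u2 0), ?_, ?_, ?_⟩
    · have e1 := hr1 (2 * Real.pi)
      have e2 := hr2 (2 * Real.pi)
      have e3 := hr3 (2 * Real.pi)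
      have e4 := hr4 (2 * Real.pi)
      have : Differentiable ℂ (fun w => u1 0 * (r3 w (2 * Real.pi) * u1 0
        + r4 w (2 * Real.pi) * u2 0)
        - u2 0 * (r1 w (2 * Real.pi) * u1 0 + r2 w (2 * Real.pi) * u2 0)) := by fun_prop
      exact this.analyticAt 0
    · simp only [i1, i2, i4]
      have : u1 0 * (r3 0 (2 * Real.pi) * u1 0) ≠ 0 := mul_ne_zero hu10 (mul_ne_zero i3 hu10)
      simpa using this
    · refine Eventually.of_forall fun w => ?_
      simp only [s, y1, y2, a1, b1, a2, b2, z1, z2, z3, z4, zero_add, eu1, eu2, smul_eq_mul]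
      ring
  · have hdiff : Differentiable ℂ (fun w : ℂ => dc 0 w (0 + 2 * Real.pi)) :=
      ((dp2 0).mul (dp1 _)).sub ((dp1 0).mul (dp2 _))
    have h := (hdiff.analyticAt 0).analyticOrderAt_eq_natCast (n := 1)
    rw [Nat.cast_one] at h
    rw [h]
    refine ⟨fun w => v2 0 * (r1 w (2 * Real.pi) * v1 0 + r2 w (2 * Real.pi) * v2 0)
      - v1 0 * (r3 w (2 * Real.pi) * v1 0 + r4 w (2 * Real.pi) * v2 0), ?_, ?_, ?_⟩
    · have e1 := hr1 (2 * Real.pi)
      have e2 := hr2 (2 * Real.pi)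
      have e3 := hr3 (2 * Real.pi)
      have e4 := hr4 (2 * Real.pi)
      have : Differentiable ℂ (fun w => v2 0 * (r1 w (2 * Real.pi) * v1 0
        + r2 w (2 * Real.pi) * v2 0)
        - v1 0 * (r3 w (2 * Real.pi) * v1 0 + r4 w (2 * Real.pi) * v2 0)) := by fun_prop
      exact this.analyticAt 0
    · simp only [i1, i2, i4]
      have : v1 0 * (r3 0 (2 * Real.pi) * v1 0) ≠ 0 := mul_ne_zero hv10 (mul_ne_zero i3 hv10)
      simpa using this
    · refine Eventually.of_forall fun w => ?_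
      simp only [dc, p1, p2, a1, b1, a2, b2, z1, z2, z3, z4, zero_add, ev1, ev2, smul_eq_mul]
      ring
  · have hdiff : Differentiable ℂ
        (fun w : ℂ => (c 0 w (2 * Real.pi) + ds 0 w (2 * Real.pi)) ^ 2 - 4) :=
      (((((dp2 0).mul (dy1 _)).sub ((dp1 0).mul (dy2 _))).add
        (((dy1 0).mul (dp2 _)).sub ((dy2 0).mul (dp1 _)))).pow 2).sub (differentiable_const _)
    -- the quadratic coefficient
    let H : ℂ → ℂ := fun w => (r1 w (2 * Real.pi) - r4 w (2 * Real.pi)) ^ 2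
      + 4 * (r2 w (2 * Real.pi) * r3 w (2 * Real.pi))
    have hH : Differentiable ℂ H := by
      have e1 := hr1 (2 * Real.pi)
      have e2 := hr2 (2 * Real.pi)
      have e3 := hr3 (2 * Real.pi)
      have e4 := hr4 (2 * Real.pi)
      simp only [H]; fun_prop
    have hH0 : H 0 = 0 := by simp [H, i1, i2, i4]
    have hH1 : (1 : ℕ∞) ≤ analyticOrderAt H 0 := by
      rw [Order.one_le_iff_ne_zero, analyticOrderAt_ne_zero]
      exact ⟨hH.analyticAt 0, hH0⟩
    have hH2 := (natCast_le_analyticOrderAt (hH.analyticAt 0) (n := 1)).mp (by simpa using hH1)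
    obtain ⟨g, hg, hHg⟩ := hH2
    have h3 := (natCast_le_analyticOrderAt (hdiff.analyticAt 0) (n := 3))
    rw [show ((3 : ℕ) : ℕ∞) = 3 from rfl] at h3
    rw [h3]
    refine ⟨g, hg, ?_⟩
    filter_upwards [hHg] with w hw
    have wr1 := wr w (2 * Real.pi)
    have key : (c 0 w (2 * Real.pi) + ds 0 w (2 * Real.pi)) ^ 2 - 4 = w ^ 2 * H w := by
      have hT : c 0 w (2 * Real.pi) + ds 0 w (2 * Real.pi)
          = a1 w (2 * Real.pi) + b2 w (2 * Real.pi) := by
        simp only [c, ds, y1, y2, p1, p2]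
        rw [eu1, eu2, ev1, ev2]
        simp only [a1, b1, a2, b2, z1, z2, z3, z4, zero_add, mul_zero, add_zero]
        linear_combination (2 + w * r1 w (2 * Real.pi) + w * r4 w (2 * Real.pi)) * wronsk 0
      rw [hT]
      simp only [a1, b1, a2, b2, zero_add] at wr1 ⊢
      simp only [H]
      linear_combination 4 * wr1
    rw [key, hw]
    simp only [smul_eq_mul, sub_zero]
    ring

/-- The negation of the preceding statement: For any locally integrable complex a-periodic q, if the zero order of (tr M)^2-4 at z exceeds the sum of the minimal (over base points in [0,a]) Dirichlet and Neumann zero orders at z, then that sum is 0. -/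
theorem result :
    ¬ (∀ (a : ℝ), 0 < a → ∀ q : ℝ → ℂ, Function.Periodic q a →
    MeasureTheory.LocallyIntegrable q MeasureTheory.volume →
    ∀ c dc s ds : ℝ → ℂ → ℝ → ℂ,
    (∀ (x₀ : ℝ) (z : ℂ), Continuous (c x₀ z) ∧ Continuous (dc x₀ z) ∧
      Continuous (s x₀ z) ∧ Continuous (ds x₀ z) ∧
      ∀ x : ℝ,
        (c x₀ z x = 1 + ∫ t in x₀..x, dc x₀ z t) ∧
        (dc x₀ z x = ∫ t in x₀..x, (q t - z) * c x₀ z t) ∧
        (s x₀ z x = ∫ t in x₀..x, ds x₀ z t) ∧
        (ds x₀ z x = 1 + ∫ t in x₀..x, (q t - z) * s x₀ z t)) →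
    ∀ z : ℂ,
      (⨅ x₀ ∈ Set.Icc (0 : ℝ) a, analyticOrderAt (fun w : ℂ => s x₀ w (x₀ + a)) z) +
        (⨅ x₀ ∈ Set.Icc (0 : ℝ) a, analyticOrderAt (fun w : ℂ => dc x₀ w (x₀ + a)) z)
        < analyticOrderAt (fun w : ℂ => (c 0 w a + ds 0 w a) ^ 2 - 4) z →
      (⨅ x₀ ∈ Set.Icc (0 : ℝ) a, analyticOrderAt (fun w : ℂ => s x₀ w (x₀ + a)) z) +
        (⨅ x₀ ∈ Set.Icc (0 : ℝ) a, analyticOrderAt (fun w : ℂ => dc x₀ w (x₀ + a)) z) = 0) := by
  intro hall
  obtain ⟨c, dc, s, ds, hsys, hs1, hs0, hdc0, htr⟩ := exists_system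
  have hper : Function.Periodic Pool.Agent.Helper434.HillMain.q (2 * Real.pi) := per_q
  have h := hall (2 * Real.pi) (by positivity) Pool.Agent.Helper434.HillMain.q hper
    cont_q.locallyIntegrable c dc s ds hsys 0
  have hmem : (0 : ℝ) ∈ Set.Icc (0 : ℝ) (2 * Real.pi) := ⟨le_rfl, by positivity⟩
  have hle1 : (⨅ x₀ ∈ Set.Icc (0 : ℝ) (2 * Real.pi),
      analyticOrderAt (fun w : ℂ => s x₀ w (x₀ + 2 * Real.pi)) 0) ≤ 1 :=
    (iInf₂_le 0 hmem).trans hs0.le
  have hle2 : (⨅ x₀ ∈ Set.Icc (0 : ℝ) (2 * Real.pi),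
      analyticOrderAt (fun w : ℂ => dc x₀ w (x₀ + 2 * Real.pi)) 0) ≤ 1 :=
    (iInf₂_le 0 hmem).trans hdc0.le
  have hge1 : (1 : ℕ∞) ≤ (⨅ x₀ ∈ Set.Icc (0 : ℝ) (2 * Real.pi),
      analyticOrderAt (fun w : ℂ => s x₀ w (x₀ + 2 * Real.pi)) 0) :=
    le_iInf₂ fun x₀ _ => hs1 x₀
  have hsum := add_le_add hle1 hle2
  have h2 : (1 : ℕ∞) + 1 < 3 := by decide
  have hz := h (lt_of_le_of_lt hsum (lt_of_lt_of_le h2 htr))
  have : (⨅ x₀ ∈ Set.Icc (0 : ℝ) (2 * Real.pi),
      analyticOrderAt (fun w : ℂ => s x₀ w (x₀ + 2 * Real.pi)) 0) = 0 :=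
    (add_eq_zero.mp hz).1
  rw [this] at hge1
  exact absurd hge1 (by decide)

end Pool.Agent.S03176
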