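import Pool.Statements.S03180

set_option autoImplicit false
open scoped Topology
open Pool Pool.MP_5915c0_an

namespace Pool.Agent.S03180

open Complex

/-- the denominator of the inner function -/
noncomputable def den (w : Fin 2 → ℂ) : ℂ := w 0 * w 1 + I * (w 0 + w 1)

/-- the numerator of the inner function -/
noncomputable def num (w : Fin 2 → ℂ) : ℂ := w 0 * w 1 - I * (w 0 + w 1)

/-- imaginary parts of the two coordinates, as a continuous real-linear map -/
noncomputable def rhoL : (Fin 2 → ℂ) →L[ℝ] (Fin 2 → ℝ) :=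
  ContinuousLinearMap.pi fun i => imCLM.comp (ContinuousLinearMap.proj i)

theorem rhoL_apply (w : Fin 2 → ℂ) (i : Fin 2) : rhoL w i = (w i).im := rfl

/-- the open quadrant -/
def Quad : Set (Fin 2 → ℝ) := {x | 0 < x 0 ∧ 0 < x 1}

noncomputable def pp (w : Fin 2 → ℂ) : EuclideanSpace ℂ (Fin 2) := !₂[den w, w 1 * num w]

noncomputable def qq (w : Fin 2 → ℂ) : ℂ := (1 - I * w 1) * den w

noncomputable def gg (w : Fin 2 → ℂ) : EuclideanSpace ℂ (Fin 2) :=
  !₂[(1 - I * w 1)⁻¹, (1 - I * w 1)⁻¹ * (w 1 * (num w * (den w)⁻¹))]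

theorem normSq_den_sub (w : Fin 2 → ℂ) :
    normSq (den w) = normSq (num w) + 4 * (normSq (w 0) * (w 1).im + normSq (w 1) * (w 0).im) := by
  simp [den, num, normSq_apply]
  ring

theorem normSq_den_pos {w : Fin 2 → ℂ} (h0 : 0 < (w 0).im) (h1 : 0 < (w 1).im) :
    normSq (num w) < normSq (den w) := by
  rw [normSq_den_sub]
  have h0' : 0 < normSq (w 0) := by
    rw [normSq_pos]; intro h; rw [h] at h0; simp at h0
  have h1' : 0 < normSq (w 1) := by
    rw [normSq_pos]; intro h; rw [h] at h1; simp at h1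
  have := mul_pos h0' h1
  have := mul_pos h1' h0
  linarith

theorem den_ne {w : Fin 2 → ℂ} (h0 : 0 < (w 0).im) (h1 : 0 < (w 1).im) : den w ≠ 0 := by
  intro h
  have := normSq_den_pos h0 h1
  rw [h] at this
  simp at this
  exact absurd this (not_lt.mpr (normSq_nonneg _))

theorem lin_ne {w : Fin 2 → ℂ} (h1 : 0 ≤ (w 1).im) : (1 - I * w 1) ≠ 0 := by
  intro h
  have := congrArg Complex.re h
  simp at this
  linarith

theorem normSq_lin (a : ℂ) : normSq (1 - I * a) = 1 + 2 * a.im + normSq a := by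
  simp [normSq_apply]
  ring

theorem norm_gg_sq (w : Fin 2 → ℂ) :
    ‖gg w‖ ^ 2 = (1 + normSq (w 1) * (normSq (num w) * (normSq (den w))⁻¹)) *
      (normSq (1 - I * w 1))⁻¹ := by
  rw [EuclideanSpace.norm_sq_eq, Fin.sum_univ_two]
  simp only [gg, Complex.sq_norm]
  simp [map_mul, map_inv₀]
  ring

theorem norm_gg (w : Fin 2 → ℂ) :
    ‖gg w‖ = Real.sqrt ((1 + normSq (w 1) * (normSq (num w) * (normSq (den w))⁻¹)) *
      (normSq (1 - I * w 1))⁻¹) := by
  rw [← norm_gg_sq, Real.sqrt_sq (norm_nonneg _)]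

theorem coord (i : Fin 2) (w : Fin 2 → ℂ) : AnalyticAt ℂ (fun w : Fin 2 → ℂ => w i) w :=
  (ContinuousLinearMap.proj (R := ℂ) (φ := fun _ : Fin 2 => ℂ) i).analyticAt w

theorem analytic_den : AnalyticOnNhd ℂ den Set.univ := by
  intro w _
  exact ((coord 0 w).mul (coord 1 w)).add (analyticAt_const.mul ((coord 0 w).add (coord 1 w)))

theorem analytic_num : AnalyticOnNhd ℂ num Set.univ := by
  intro w _
  exact ((coord 0 w).mul (coord 1 w)).sub (analyticAt_const.mul ((coord 0 w).add (coord 1 w)))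

theorem analytic_lin (w : Fin 2 → ℂ) : AnalyticAt ℂ (fun w : Fin 2 → ℂ => 1 - I * w 1) w :=
  analyticAt_const.sub (analyticAt_const.mul (coord 1 w))

theorem analytic_qq : AnalyticOnNhd ℂ qq Set.univ := by
  intro w _
  exact (analytic_lin w).mul (analytic_den w trivial)

theorem analyticAt_vec (f g : (Fin 2 → ℂ) → ℂ) (w : Fin 2 → ℂ) (hf : AnalyticAt ℂ f w)
    (hg : AnalyticAt ℂ g w) :
    AnalyticAt ℂ (fun w => (!₂[f w, g w] : EuclideanSpace ℂ (Fin 2))) w := by
  have h1 : AnalyticAt ℂ (fun w => (![f w, g w] : Fin 2 → ℂ)) w := by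
    rw [analyticAt_pi_iff]
    intro i
    fin_cases i
    · simpa using hf
    · simpa using hg
  have h2 := ((EuclideanSpace.equiv (Fin 2) ℂ).symm : (Fin 2 → ℂ) →L[ℂ] EuclideanSpace ℂ (Fin 2)).comp_analyticOnNhd
    (s := {w}) (f := fun w => (![f w, g w] : Fin 2 → ℂ)) (by intro x hx; rw [hx]; exact h1)
  exact h2 w rfl

theorem analytic_pp : AnalyticOnNhd ℂ pp Set.univ := by
  intro w _
  unfold pp
  apply analyticAt_vec
  · exact analytic_den w trivial
  · exact (coord 1 w).mul (analytic_num w trivial)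

theorem analytic_gg : AnalyticOnNhd ℂ gg {w | w ∈ Set.univ ∧ rhoL w ∈ Quad} := by
  rintro w ⟨-, h0, h1⟩
  rw [rhoL_apply] at h0 h1
  have hd := den_ne h0 h1
  have hl := lin_ne h1.le
  unfold gg
  apply analyticAt_vec
  · exact (analytic_lin w).inv hl
  · exact ((analytic_lin w).inv hl).mul ((coord 1 w).mul ((analytic_num w trivial).mul
      ((analytic_den w trivial).inv hd)))

theorem norm_lt {w : Fin 2 → ℂ} (h0 : 0 < (w 0).im) (h1 : 0 < (w 1).im) : ‖gg w‖ < 1 := by
  have hd : 0 < normSq (den w) := normSq_pos.mpr (den_ne h0 h1)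
  have hl : 0 < normSq (1 - I * w 1) := normSq_pos.mpr (lin_ne h1.le)
  have hlt := normSq_den_pos h0 h1
  have h : ‖gg w‖ ^ 2 < 1 := by
    rw [norm_gg_sq, ← div_eq_mul_inv, ← div_eq_mul_inv, div_lt_one hl, normSq_lin]
    have h3 : normSq (num w) / normSq (den w) ≤ 1 := by
      rw [div_le_one hd]; exact hlt.le
    have h4 : normSq (w 1) * (normSq (num w) / normSq (den w)) ≤ normSq (w 1) * 1 :=
      mul_le_mul_of_nonneg_left h3 (normSq_nonneg _)
    linarith
  have h5 := norm_nonneg (gg w)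
  nlinarith

theorem ray_val (a b t : ℝ) (ht : t ≠ 0) (hd : (a + b) + a * b * t ≠ 0)
    (hb : 1 + b * t ≠ 0) :
    (gg ![(t : ℂ) * (a * I), (t : ℂ) * (b * I)]) 1 =
      t * (-(b * I) * ((a + b) - a * b * t) / ((1 + b * t) * ((a + b) + a * b * t)) : ℂ) := by
  have hdC : ((a : ℂ) + b) + a * b * t ≠ 0 := by exact_mod_cast hd
  have hbC : (1 : ℂ) + b * t ≠ 0 := by exact_mod_cast hb
  have htC : (t : ℂ) ≠ 0 := by exact_mod_cast ht
  have e1 : (1 - I * ((t : ℂ) * (b * I))) = 1 + b * t := by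
    linear_combination (-(b : ℂ) * t) * I_mul_I
  have e2 : num ![(t : ℂ) * (a * I), (t : ℂ) * (b * I)] = t * ((a + b) - a * b * t) := by
    simp only [num, Matrix.cons_val_zero, Matrix.cons_val_one]
    linear_combination ((a : ℂ) * b * t ^ 2 - t * (a + b)) * I_mul_I
  have e3 : den ![(t : ℂ) * (a * I), (t : ℂ) * (b * I)] = -(t * ((a + b) + a * b * t)) := by
    simp only [den, Matrix.cons_val_zero, Matrix.cons_val_one]
    linear_combination ((a : ℂ) * b * t ^ 2 + t * (a + b)) * I_mul_I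
  simp only [gg, e2, e3]
  simp only [Matrix.cons_val_one, Matrix.cons_val_fin_one]
  rw [e1]
  field_simp

theorem curve_val (t : ℝ) (ht : 0 < t) :
    (gg ![-(t : ℂ) + I * t ^ 2, (t : ℂ) + I * t ^ 2]) 1 =
      t * (-((1 + I * t) * (1 - t ^ 2)) / ((1 + t ^ 2 - I * t) * (3 + t ^ 2)) : ℂ) := by
  have hdR : (3 : ℝ) + t ^ 2 ≠ 0 := by positivity
  have hdC : (3 : ℂ) + t ^ 2 ≠ 0 := by exact_mod_cast hdR
  have hbC : (1 : ℂ) + t ^ 2 - I * t ≠ 0 := by
    intro h
    have := congrArg Complex.im h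
    simp [pow_two] at this
    exact ht.ne' this
  have htC : (t : ℂ) ≠ 0 := by exact_mod_cast ht.ne'
  have e1 : (1 - I * ((t : ℂ) + I * t ^ 2)) = 1 + t ^ 2 - I * t := by
    linear_combination (-(t : ℂ) ^ 2) * I_mul_I
  have e2 : num ![-(t : ℂ) + I * t ^ 2, (t : ℂ) + I * t ^ 2] = t ^ 2 * (1 - t ^ 2) := by
    simp only [num, Matrix.cons_val_zero, Matrix.cons_val_one]
    linear_combination ((t : ℂ) ^ 4 - 2 * t ^ 2) * I_mul_I
  have e3 : den ![-(t : ℂ) + I * t ^ 2, (t : ℂ) + I * t ^ 2] = -(t ^ 2 * (3 + t ^ 2)) := by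
    simp only [den, Matrix.cons_val_zero, Matrix.cons_val_one]
    linear_combination ((t : ℂ) ^ 4 + 2 * t ^ 2) * I_mul_I
  simp only [gg, e2, e3]
  simp only [Matrix.cons_val_one, Matrix.cons_val_fin_one]
  rw [e1]
  field_simp

open Filter Set in
theorem curve_deriv {F : (Fin 2 → ℂ) → EuclideanSpace ℂ (Fin 2)}
    {L : (Fin 2 → ℂ) →L[ℂ] EuclideanSpace ℂ (Fin 2)} (hF : HasFDerivAt F L 0)
    (γ : ℝ → Fin 2 → ℂ) (v : Fin 2 → ℂ) (hγ : HasDerivAt γ v 0) (hγ0 : γ 0 = 0)
    (φ : ℝ → ℂ) (c : ℂ) (hφ : Tendsto φ (𝓝[>] 0) (𝓝 c))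
    (h : ∀ᶠ t in 𝓝[>] (0 : ℝ), (F (γ t)) 1 = t * φ t) : (L v) 1 = c := by
  have h1 : HasFDerivAt F (L.restrictScalars ℝ) (γ 0) := by
    rw [hγ0]; exact hF.restrictScalars ℝ
  have h2 : HasDerivAt (fun t => F (γ t)) ((L.restrictScalars ℝ) v) 0 :=
    h1.comp_hasDerivAt 0 hγ
  have h3 : HasDerivAt (fun t => (F (γ t)) 1) ((L v) 1) 0 := by
    have := (((EuclideanSpace.proj (1 : Fin 2) : EuclideanSpace ℂ (Fin 2) →L[ℂ] ℂ).restrictScalars
      ℝ).hasFDerivAt (x := F (γ 0))).comp_hasDerivAt 0 h2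
    exact this
  have hcont : Tendsto (fun t => (F (γ t)) 1) (𝓝[>] 0) (𝓝 ((F (γ 0)) 1)) :=
    h3.continuousAt.tendsto.mono_left nhdsWithin_le_nhds
  have hzero : Tendsto (fun t : ℝ => (t : ℂ) * φ t) (𝓝[>] 0) (𝓝 0) := by
    have ht : Tendsto (fun t : ℝ => (t : ℂ)) (𝓝[>] 0) (𝓝 0) := by
      have : Tendsto (fun t : ℝ => (t : ℂ)) (𝓝 0) (𝓝 ((0 : ℝ) : ℂ)) :=
        Complex.continuous_ofReal.tendsto 0
      rw [Complex.ofReal_zero] at this
      exact this.mono_left nhdsWithin_le_nhds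
    simpa using ht.mul hφ
  have hF0 : (F (γ 0)) 1 = 0 :=
    tendsto_nhds_unique (hcont.congr' h) hzero
  have h4 := (hasDerivAt_iff_tendsto_slope_zero.mp h3).mono_left
    (nhdsWithin_mono (0 : ℝ) (fun x (hx : x ∈ Ioi (0 : ℝ)) => (ne_of_gt hx : x ≠ 0)))
  refine tendsto_nhds_unique h4 (hφ.congr' ?_)
  filter_upwards [h, self_mem_nhdsWithin] with t ht htpos
  have htpos' : (t : ℂ) ≠ 0 := by
    have : (0 : ℝ) < t := htpos
    exact_mod_cast this.ne'
  rw [zero_add, ht, hF0, sub_zero, Complex.real_smul]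
  push_cast
  field_simp

open Filter Set in
theorem ray_lim {F : (Fin 2 → ℂ) → EuclideanSpace ℂ (Fin 2)}
    {L : (Fin 2 → ℂ) →L[ℂ] EuclideanSpace ℂ (Fin 2)} (hF : HasFDerivAt F L 0)
    {V : Set (Fin 2 → ℂ)} (hV : V ∈ 𝓝 (0 : Fin 2 → ℂ))
    (h : ∀ w ∈ V, rhoL w ∈ Quad → F w = gg w) (a b : ℝ) (ha : 0 < a) (hb : 0 < b) :
    (L ![(a : ℂ) * I, (b : ℂ) * I]) 1 = -((b : ℂ) * I) := by
  have hγ0 : (fun t : ℝ => (![(t : ℂ) * (a * I), (t : ℂ) * (b * I)] : Fin 2 → ℂ)) 0 = 0 := by
    ext i; fin_cases i <;> simp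
  have hid : HasDerivAt (fun t : ℝ => (t : ℂ)) 1 0 := Complex.ofRealCLM.hasDerivAt
  have hγ : HasDerivAt (fun t : ℝ => (![(t : ℂ) * (a * I), (t : ℂ) * (b * I)] : Fin 2 → ℂ))
      ![(a : ℂ) * I, (b : ℂ) * I] 0 := by
    rw [hasDerivAt_pi]
    intro i
    fin_cases i
    · simpa using hid.mul_const ((a : ℂ) * I)
    · simpa using hid.mul_const ((b : ℂ) * I)
  refine curve_deriv hF _ _ hγ hγ0
    (fun t => (-(b * I) * ((a + b) - a * b * t) / ((1 + b * t) * ((a + b) + a * b * t)) : ℂ)) _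
    ?_ ?_
  · have hab : ((a : ℂ) + b) ≠ 0 := by
      have : a + b ≠ 0 := by positivity
      exact_mod_cast this
    have hc : ContinuousAt (fun t : ℝ => (-(b * I) * ((a + b) - a * b * t) /
        ((1 + b * t) * ((a + b) + a * b * t)) : ℂ)) 0 := by
      apply ContinuousAt.div
      · fun_prop
      · fun_prop
      · simpa using hab
    have := hc.tendsto.mono_left (nhdsWithin_le_nhds (s := Ioi (0 : ℝ)))
    convert this using 2
    simp only [Complex.ofReal_zero, mul_zero, sub_zero, add_zero, one_mul]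
    field_simp
  · have hcont : Tendsto (fun t : ℝ => (![(t : ℂ) * (a * I), (t : ℂ) * (b * I)] : Fin 2 → ℂ))
        (𝓝[>] 0) (𝓝 0) := by
      have := hγ.continuousAt.tendsto.mono_left (nhdsWithin_le_nhds (s := Ioi (0 : ℝ)))
      have hz := hγ0
      dsimp only at hz
      rwa [hz] at this
    filter_upwards [hcont.eventually_mem hV, self_mem_nhdsWithin] with t htV htpos
    have htpos' : (0 : ℝ) < t := htpos
    rw [h _ htV ?_]
    · exact ray_val a b t htpos'.ne' (by positivity) (by positivity)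
    · constructor
      · simp [rhoL_apply]; positivity
      · simp [rhoL_apply]; positivity

open Filter Set in
theorem curve_lim {F : (Fin 2 → ℂ) → EuclideanSpace ℂ (Fin 2)}
    {L : (Fin 2 → ℂ) →L[ℂ] EuclideanSpace ℂ (Fin 2)} (hF : HasFDerivAt F L 0)
    {V : Set (Fin 2 → ℂ)} (hV : V ∈ 𝓝 (0 : Fin 2 → ℂ))
    (h : ∀ w ∈ V, rhoL w ∈ Quad → F w = gg w) :
    (L ![-1, 1]) 1 = -(1 / 3) := by
  have hγ0 : (fun t : ℝ => (![-(t : ℂ) + I * t ^ 2, (t : ℂ) + I * t ^ 2] : Fin 2 → ℂ)) 0 = 0 := by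
    ext i; fin_cases i <;> simp
  have hid : HasDerivAt (fun t : ℝ => (t : ℂ)) 1 0 := Complex.ofRealCLM.hasDerivAt
  have hsq : HasDerivAt (fun t : ℝ => I * (t : ℂ) ^ 2) 0 0 := by
    simpa using (hid.pow 2).const_mul I
  have hγ : HasDerivAt (fun t : ℝ => (![-(t : ℂ) + I * t ^ 2, (t : ℂ) + I * t ^ 2] : Fin 2 → ℂ))
      ![-1, 1] 0 := by
    rw [hasDerivAt_pi]
    intro i
    fin_cases i
    · have h1 := hid.neg.add hsq
      rw [add_zero] at h1
      exact h1
    · have h1 := hid.add hsq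
      rw [add_zero] at h1
      exact h1
  refine curve_deriv hF _ _ hγ hγ0
    (fun t => (-((1 + I * t) * (1 - t ^ 2)) / ((1 + t ^ 2 - I * t) * (3 + t ^ 2)) : ℂ)) _
    ?_ ?_
  · have hc : ContinuousAt (fun t : ℝ => (-((1 + I * t) * (1 - t ^ 2)) /
        ((1 + t ^ 2 - I * t) * (3 + t ^ 2)) : ℂ)) 0 := by
      apply ContinuousAt.div
      · fun_prop
      · fun_prop
      · simp
    have := hc.tendsto.mono_left (nhdsWithin_le_nhds (s := Ioi (0 : ℝ)))
    convert this using 2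
    simp
    norm_num
  · have hcont : Tendsto (fun t : ℝ => (![-(t : ℂ) + I * t ^ 2, (t : ℂ) + I * t ^ 2] : Fin 2 → ℂ))
        (𝓝[>] 0) (𝓝 0) := by
      have := hγ.continuousAt.tendsto.mono_left (nhdsWithin_le_nhds (s := Ioi (0 : ℝ)))
      have hz := hγ0
      dsimp only at hz
      rwa [hz] at this
    filter_upwards [hcont.eventually_mem hV, self_mem_nhdsWithin] with t htV htpos
    have htpos' : (0 : ℝ) < t := htpos
    rw [h _ htV ?_]
    · exact curve_val t htpos'
    · have : 0 < t ^ 2 := by positivity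
      constructor
      · simp [rhoL_apply, pow_two]; nlinarith
      · simp [rhoL_apply, pow_two]; nlinarith

theorem no_ext {V : Set (Fin 2 → ℂ)} (hV : V ∈ 𝓝 (0 : Fin 2 → ℂ))
    {F : (Fin 2 → ℂ) → EuclideanSpace ℂ (Fin 2)} (hF : AnalyticOnNhd ℂ F V)
    (h : ∀ w ∈ V, rhoL w ∈ Quad → F w = gg w) : False := by
  have hF0 : HasFDerivAt F (fderiv ℂ F 0) 0 :=
    ((hF 0 (mem_of_mem_nhds hV)).differentiableAt).hasFDerivAt
  set L := fderiv ℂ F 0
  have h1 := ray_lim hF0 hV h 1 1 one_pos one_pos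
  have h2 := ray_lim hF0 hV h 2 1 two_pos one_pos
  have h3 := curve_lim hF0 hV h
  have e : (![-1, 1] : Fin 2 → ℂ) =
      (2 * I) • ![((2 : ℝ) : ℂ) * I, ((1 : ℝ) : ℂ) * I] - (3 * I) • ![((1 : ℝ) : ℂ) * I, ((1 : ℝ) : ℂ) * I] := by
    ext i
    fin_cases i
    · simp
      linear_combination (-(1 : ℂ)) * I_mul_I
    · simp
      linear_combination ((1 : ℂ)) * I_mul_I
  rw [e, map_sub, map_smul, map_smul] at h3
  simp only [PiLp.sub_apply, PiLp.smul_apply, smul_eq_mul, h1, h2] at h3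
  have h4 : (2 * I) * -(((1 : ℝ) : ℂ) * I) - (3 * I) * -(((1 : ℝ) : ℂ) * I) = -1 := by
    push_cast
    linear_combination ((1 : ℂ)) * I_mul_I
  rw [h4] at h3
  norm_num at h3

open Filter Set in
theorem tendsto_norm (m : Fin 2 → ℂ) (hm : rhoL m = 0) :
    Tendsto (fun w => ‖gg w‖) (𝓝[{w | w ∈ Set.univ ∧ rhoL w ∈ Quad}] m) (𝓝 1) := by
  have hm0 : (m 0).im = 0 := congrFun hm 0
  have hm1 : (m 1).im = 0 := congrFun hm 1
  have hlin : Continuous (fun w : Fin 2 → ℂ => normSq (1 - I * w 1)) := by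
    have : Continuous (fun w : Fin 2 → ℂ => (1 - I * w 1)) := by fun_prop
    exact continuous_normSq.comp this
  have hlin0 : normSq (1 - I * m 1) ≠ 0 := by
    rw [Ne, normSq_eq_zero]
    exact lin_ne hm1.ge
  by_cases h1 : m 1 = 0
  · -- squeeze
    have hval : Tendsto (fun w : Fin 2 → ℂ => Real.sqrt ((normSq (1 - I * w 1))⁻¹)) (𝓝 m) (𝓝 1) := by
      have hc : ContinuousAt (fun w : Fin 2 → ℂ => Real.sqrt ((normSq (1 - I * w 1))⁻¹)) m :=
        (Real.continuous_sqrt.continuousAt).comp (hlin.continuousAt.inv₀ hlin0)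
      have := hc.tendsto
      rw [h1] at this
      simpa using this
    refine tendsto_of_tendsto_of_tendsto_of_le_of_le' (hval.mono_left nhdsWithin_le_nhds)
      tendsto_const_nhds ?_ ?_
    · filter_upwards [self_mem_nhdsWithin] with w hw
      rw [norm_gg]
      apply Real.sqrt_le_sqrt
      have : 0 ≤ (normSq (1 - I * w 1))⁻¹ := inv_nonneg.mpr (normSq_nonneg _)
      have h2 : 0 ≤ normSq (w 1) * (normSq (num w) * (normSq (den w))⁻¹) := by
        have := inv_nonneg.mpr (normSq_nonneg (den w))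
        have := normSq_nonneg (num w)
        have := normSq_nonneg (w 1)
        positivity
      nlinarith
    · filter_upwards [self_mem_nhdsWithin] with w hw
      exact (norm_lt hw.2.1 hw.2.2).le
  · have hden : den m ≠ 0 := by
      intro h
      have hre := congrArg Complex.re h
      have him := congrArg Complex.im h
      simp [den, hm0, hm1] at hre him
      rcases hre with hre | hre
      · apply h1
        apply Complex.ext
        · simp; linarith
        · simpa using hm1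
      · apply h1
        apply Complex.ext
        · simpa using hre
        · simpa using hm1
    have hdc : Continuous (fun w : Fin 2 → ℂ => normSq (den w)) := by
      have : Continuous den := by unfold den; fun_prop
      exact continuous_normSq.comp this
    have hnc : Continuous (fun w : Fin 2 → ℂ => normSq (num w)) := by
      have : Continuous num := by unfold num; fun_prop
      exact continuous_normSq.comp this
    have h1c : Continuous (fun w : Fin 2 → ℂ => normSq (w 1)) :=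
      continuous_normSq.comp (continuous_apply 1)
    have hden' : normSq (den m) ≠ 0 := by rwa [Ne, normSq_eq_zero]
    have hc : ContinuousAt (fun w : Fin 2 → ℂ => ‖gg w‖) m := by
      have e : (fun w : Fin 2 → ℂ => ‖gg w‖) = fun w => Real.sqrt ((1 + normSq (w 1) *
          (normSq (num w) * (normSq (den w))⁻¹)) * (normSq (1 - I * w 1))⁻¹) := by
        funext w; exact norm_gg w
      rw [e]
      refine (Real.continuous_sqrt.continuousAt).comp ?_
      exact (continuousAt_const.add (h1c.continuousAt.mul (hnc.continuousAt.mul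
        (hdc.continuousAt.inv₀ hden')))).mul (hlin.continuousAt.inv₀ hlin0)
    have hval : ‖gg m‖ = 1 := by
      rw [norm_gg]
      have e1 : normSq (den m) = normSq (num m) := by
        rw [normSq_den_sub, hm0, hm1]; ring
      have e2 : normSq (1 - I * m 1) = 1 + normSq (m 1) := by
        rw [normSq_lin, hm1]; ring
      rw [← e1, mul_inv_cancel₀ hden', mul_one, ← e2, mul_inv_cancel₀ hlin0, Real.sqrt_one]
    have := hc.tendsto.mono_left (nhdsWithin_le_nhds (s := {w | w ∈ Set.univ ∧ rhoL w ∈ Quad}))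
    rwa [hval] at this

/-- The negation of the preceding statement: M near z is a real-analytic generic submanifold cut out by ρ, and W = {ρ ∈ Γ} a wedge on M. If p/q is holomorphic on W with norm below 1 tending to 1 at M, it extends holomorphically to a neighbourhood of z. -/
theorem result :
    ¬ (∀ (n d N : ℕ) (z : Fin n → ℂ) (U : Set (Fin n → ℂ)) (ρ : (Fin n → ℂ) → (Fin d → ℝ))
    (Γ : Set (Fin d → ℝ)) (p : (Fin n → ℂ) → EuclideanSpace ℂ (Fin N)) (q : (Fin n → ℂ) → ℂ)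
    (g : (Fin n → ℂ) → EuclideanSpace ℂ (Fin N)),
    IsOpen U → z ∈ U → AnalyticOnNhd ℝ ρ U → ρ z = 0 →
    Function.Surjective (fderiv ℝ ρ z) →
    (∀ v : Fin n → ℂ, ∃ a b : Fin n → ℂ,
      fderiv ℝ ρ z a = 0 ∧ fderiv ℝ ρ z b = 0 ∧ v = a + Complex.I • b) →
    IsOpen Γ → Convex ℝ Γ → Γ.Nonempty → (0 : Fin d → ℝ) ∉ Γ →
    (∀ x ∈ Γ, ∀ t : ℝ, 0 < t → t • x ∈ Γ) →
    AnalyticOnNhd ℂ p U → AnalyticOnNhd ℂ q U → ¬ (∀ᶠ w in 𝓝 z, q w = 0) →
    AnalyticOnNhd ℂ g {w | w ∈ U ∧ ρ w ∈ Γ} →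
    (∀ w ∈ U, ρ w ∈ Γ → q w • g w = p w) →
    (∀ w ∈ U, ρ w ∈ Γ → ‖g w‖ < 1) →
    (∀ m ∈ U, ρ m = 0 →
      Filter.Tendsto (fun w => ‖g w‖) (𝓝[{w | w ∈ U ∧ ρ w ∈ Γ}] m) (𝓝 1)) →
    ∃ V ∈ 𝓝 z, ∃ F : (Fin n → ℂ) → EuclideanSpace ℂ (Fin N),
      AnalyticOnNhd ℂ F V ∧ ∀ w ∈ V, w ∈ U → ρ w ∈ Γ → F w = g w) := by
  intro H
  have hfd : fderiv ℝ (⇑rhoL) 0 = rhoL := rhoL.fderiv
  obtain ⟨V, hV, F, hF, hFg⟩ := H 2 2 2 0 Set.univ rhoL Quad pp qq gg isOpen_univ (Set.mem_univ _)
    (rhoL.analyticOnNhd _) (map_zero _)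
    (by
      rw [hfd]
      intro y
      refine ⟨fun i => I * (y i : ℂ), ?_⟩
      ext i
      simp [rhoL_apply])
    (by
      rw [hfd]
      intro v
      refine ⟨fun i => ((v i).re : ℂ), fun i => ((v i).im : ℂ), ?_, ?_, ?_⟩
      · ext i; simp [rhoL_apply]
      · ext i; simp [rhoL_apply]
      · ext i
        simp only [Pi.add_apply, Pi.smul_apply, smul_eq_mul]
        rw [mul_comm I]
        exact (Complex.re_add_im (v i)).symm)
    (by
      have h0 : IsOpen {x : Fin 2 → ℝ | 0 < x 0} :=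
        isOpen_lt continuous_const (continuous_apply 0)
      have h1 : IsOpen {x : Fin 2 → ℝ | 0 < x 1} :=
        isOpen_lt continuous_const (continuous_apply 1)
      exact h0.inter h1)
    (by
      rintro x ⟨hx0, hx1⟩ y ⟨hy0, hy1⟩ a b ha hb hab
      constructor
      · simp only [Pi.add_apply, Pi.smul_apply, smul_eq_mul]
        rcases ha.eq_or_lt with h | h
        · have : b = 1 := by linarith
          rw [← h, this]; simpa using hy0
        · have h1 := mul_pos h hx0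
          have h2 := mul_nonneg hb hy0.le
          linarith
      · simp only [Pi.add_apply, Pi.smul_apply, smul_eq_mul]
        rcases ha.eq_or_lt with h | h
        · have : b = 1 := by linarith
          rw [← h, this]; simpa using hy1
        · have h1 := mul_pos h hx1
          have h2 := mul_nonneg hb hy1.le
          linarith)
    ⟨fun _ => 1, by simp [Quad]⟩
    (by simp [Quad])
    (by
      rintro x ⟨hx0, hx1⟩ t ht
      exact ⟨mul_pos ht hx0, mul_pos ht hx1⟩)
    analytic_pp analytic_qq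
    (by
      intro h
      have ht : Filter.Tendsto (fun t : ℝ => (fun _ => (t : ℂ) * I : Fin 2 → ℂ)) (𝓝[>] 0) (𝓝 0) := by
        have hc : Continuous (fun t : ℝ => (fun _ => (t : ℂ) * I : Fin 2 → ℂ)) := by fun_prop
        have := (hc.tendsto 0).mono_left (nhdsWithin_le_nhds (s := Set.Ioi (0 : ℝ)))
        convert this using 2
        ext i
        simp
      obtain ⟨t, ht1, ht2⟩ := ((ht.eventually h).and self_mem_nhdsWithin).exists
      have htpos : (0 : ℝ) < t := ht2
      have him : 0 < ((t : ℂ) * I).im := by simpa using htpos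
      rcases mul_eq_zero.mp ht1 with h1 | h1
      · exact lin_ne (w := fun _ => (t : ℂ) * I) him.le h1
      · exact den_ne (w := fun _ => (t : ℂ) * I) him him h1)
    analytic_gg
    (by
      rintro w - ⟨h0, h1⟩
      have hl := lin_ne (w := w) h1.le
      have hd := den_ne (w := w) h0 h1
      ext i
      fin_cases i
      · simp [qq, gg, pp]
        field_simp
      · simp [qq, gg, pp]
        field_simp)
    (by
      rintro w - ⟨h0, h1⟩
      exact norm_lt h0 h1)
    (by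
      intro m _ hm
      exact tendsto_norm m hm)
  exact no_ext hV hF (fun w hw hq => hFg w hw (Set.mem_univ _) hq)

end Pool.Agent.S03180
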