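import Pool.Statements.S03188
import Pool.Agent.Helper882.Dirac.NonMember
import Pool.Agent.Helper882.Dirac.Edgar

set_option autoImplicit false
open Pool Pool.MP_5a6e11_an

namespace Pool.Agent.S03188

open Pool.Agent.Helper882.Dirac

/-- The two Baire sigma-algebras on C(KK) agree. -/
theorem baire_eq :
    (⨆ (g : C(KK, ℝ) → ℝ) (_ : @Continuous C(KK, ℝ) ℝ
        (TopologicalSpace.induced (fun (f : C(KK, ℝ)) (x : KK) => f x) inferInstance) _ g),
        MeasurableSpace.comap g (borel ℝ))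
      = (⨆ (g : C(KK, ℝ) → ℝ) (_ : @Continuous C(KK, ℝ) ℝ
        (⨅ (φ : C(KK, ℝ) →L[ℝ] ℝ), TopologicalSpace.induced (⇑φ) inferInstance) _ g),
        MeasurableSpace.comap g (borel ℝ)) := by
  apply le_antisymm
  · refine iSup_le fun g => iSup_le fun hg => ?_
    have hle : (⨅ (φ : C(KK, ℝ) →L[ℝ] ℝ), TopologicalSpace.induced (⇑φ) inferInstance) ≤
        (TopologicalSpace.induced (fun (f : C(KK, ℝ)) (x : KK) => f x) inferInstance) := by
      rw [← continuous_iff_le_induced]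
      refine @continuous_pi _ _ _ (_) _ _ fun x => ?_
      refine continuous_iInf_dom (i := ContinuousMap.evalCLM ℝ x) ?_
      exact continuous_induced_dom
    have hg' : @Continuous C(KK, ℝ) ℝ
        (⨅ (φ : C(KK, ℝ) →L[ℝ] ℝ), TopologicalSpace.induced (⇑φ) inferInstance) _ g :=
      continuous_le_dom hle hg
    exact le_iSup₂_of_le g hg' le_rfl
  · refine iSup_le fun g => iSup_le fun hg => ?_
    have h1 := edgar_weak C(KK, ℝ) g hg
    have h2 : (⨆ (φ : C(KK, ℝ) →L[ℝ] ℝ), MeasurableSpace.comap (⇑φ) (borel ℝ)) ≤ evSigma KK :=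
      iSup_le fun φ => (KK_measurable φ).comap_le
    refine h1.comap_le.trans (h2.trans ?_)
    refine iSup_le fun x => ?_
    have hx : @Continuous C(KK, ℝ) ℝ
        (TopologicalSpace.induced (fun (f : C(KK, ℝ)) (x : KK) => f x) inferInstance) _
        (fun f : C(KK, ℝ) => f x) := by
      exact @Continuous.comp _ _ _ (_) _ _ _ _ (continuous_apply x) continuous_induced_dom
    exact le_iSup₂_of_le (fun f : C(KK, ℝ) => f x) hx le_rfl

/-- The negation of the preceding statement: For compact Hausdorff K whose pointwise and weak Baire σ-algebras on C(K) agree, the smallest weak*-sequentially closed set containing convex combinations of Dirac functionals equals the set of positive functionals sending 1 to 1. -/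
theorem result :
    ¬ (∀ (K : Type) [TopologicalSpace K] [CompactSpace K] [T2Space K],
      (⨆ (g : C(K, ℝ) → ℝ) (_ : @Continuous C(K, ℝ) ℝ
          (TopologicalSpace.induced (fun (f : C(K, ℝ)) (x : K) => f x) inferInstance) _ g),
          MeasurableSpace.comap g (borel ℝ))
        = (⨆ (g : C(K, ℝ) → ℝ) (_ : @Continuous C(K, ℝ) ℝ
          (⨅ (φ : C(K, ℝ) →L[ℝ] ℝ), TopologicalSpace.induced (⇑φ) inferInstance) _ g),
          MeasurableSpace.comap g (borel ℝ)) →
      ⋂₀ {S : Set (C(K, ℝ) →L[ℝ] ℝ) |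
          convexHull ℝ {φ : C(K, ℝ) →L[ℝ] ℝ | ∃ x : K, ∀ f : C(K, ℝ), φ f = f x} ⊆ S ∧
          ∀ (u : ℕ → C(K, ℝ) →L[ℝ] ℝ) (φ : C(K, ℝ) →L[ℝ] ℝ), (∀ n, u n ∈ S) →
            (∀ f : C(K, ℝ), Filter.Tendsto (fun n => u n f) Filter.atTop (nhds (φ f))) →
            φ ∈ S}
        = {φ : C(K, ℝ) →L[ℝ] ℝ | (∀ f : C(K, ℝ), 0 ≤ f → 0 ≤ φ f) ∧ φ 1 = 1}) := by
  intro h
  have h1 := h KK baire_eq
  obtain ⟨φ, hpos, hone, hQ⟩ := exists_not_QQ
  have h2 : φ ∈ {φ : C(KK, ℝ) →L[ℝ] ℝ | (∀ f : C(KK, ℝ), 0 ≤ f → 0 ≤ φ f) ∧ φ 1 = 1} := ⟨hpos, hone⟩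
  rw [← h1] at h2
  refine hQ (h2 {φ | QQ φ} ⟨?_, fun u φ hu hlim => QQ_closed u φ hu hlim⟩)
  apply convexHull_min _ QQ_convex
  rintro ψ ⟨x, hx⟩
  exact QQ_dirac x ψ hx

end Pool.Agent.S03188
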