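import Pool.Statements.S03191
import Pool.Agent.HDSum.Main

set_option autoImplicit false
open scoped Pointwise
open Pool Pool.MP_5b30f8_an

namespace Pool.Agent.S03191

/-- For every summable sequence of positive reals whose achievement set E (set of all subsums) has E+E homeomorphic to the Cantor set, the Hausdorff dimension of E is at least half that of E+E. -/
theorem result :
    ∀ x : ℕ → ℝ, (∀ n, 0 < x n) → Summable x →
      Nonempty (↥((Set.range (fun A : Set ℕ => ∑' n, A.indicator x n)) +
          (Set.range (fun A : Set ℕ => ∑' n, A.indicator x n)) : Set ℝ) ≃ₜ (ℕ → Bool)) →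
      dimH ((Set.range (fun A : Set ℕ => ∑' n, A.indicator x n)) +
          (Set.range (fun A : Set ℕ => ∑' n, A.indicator x n)) : Set ℝ) / 2 ≤
        dimH (Set.range (fun A : Set ℕ => ∑' n, A.indicator x n)) := by
  intro x hx hs _
  have h : dimH ((Set.range (fun A : Set ℕ => ∑' n, A.indicator x n)) +
          (Set.range (fun A : Set ℕ => ∑' n, A.indicator x n)) : Set ℝ) ≤
        2 * dimH (Set.range (fun A : Set ℕ => ∑' n, A.indicator x n)) :=
    Pool.Agent.HDSum.dim_sum_le x hx hs
  rw [mul_comm] at h
  exact ENNReal.div_le_of_le_mul h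

end Pool.Agent.S03191
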