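import Pool.Statements.S03194
import Pool.Agent.Helper694.AngG

set_option autoImplicit false
open Pool Pool.MP_5b6e6e_an

namespace Pool.Agent.S03194

/-- The negation of the preceding statement: For every planar domain with nonpolar complement there is a boundary set E of full harmonic measure such that each z in E has measurable arcs in Ω on circles about z whose angular measure has area-weighted average density tending to 1/2. -/
theorem result :
    ¬ (∀ Ω : Set ℂ, IsOpen Ω → IsConnected Ω →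
    (∃ u : ℂ → ENNReal,
      (LowerSemicontinuousOn u Ω ∧ ∀ a : ℂ, ∀ r : ℝ, 0 < r → Metric.closedBall a r ⊆ Ω →
        ∫⁻ t in Set.Ioc (0:ℝ) (2 * Real.pi), u (a + (r:ℂ) * Complex.exp ((t:ℂ) * Complex.I))
          ≤ ENNReal.ofReal (2 * Real.pi) * u a) ∧
      ∃ z ∈ Ω, ∃ w ∈ Ω, u z < u w ∧ u w < ⊤) →
    ∃ E ⊆ frontier Ω,
      (∀ z ∈ Ω, ∀ ε : ENNReal, 0 < ε → ∃ u : ℂ → ENNReal,
        (LowerSemicontinuousOn u Ω ∧ ∀ a : ℂ, ∀ r : ℝ, 0 < r → Metric.closedBall a r ⊆ Ω →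
          ∫⁻ t in Set.Ioc (0:ℝ) (2 * Real.pi), u (a + (r:ℂ) * Complex.exp ((t:ℂ) * Complex.I))
            ≤ ENNReal.ofReal (2 * Real.pi) * u a) ∧
        (∀ ζ ∈ frontier Ω \ E, 1 ≤ Filter.liminf u (nhdsWithin ζ Ω)) ∧ u z < ε) ∧
      ∀ z ∈ E, ∃ a b : ℝ → ℝ, Measurable (fun r => b r - a r) ∧
        (∀ r : ℝ, 0 < r → a r ≤ b r ∧ b r - a r ≤ 2 * Real.pi ∧
          ∀ t ∈ Set.Ioo (a r) (b r), z + (r:ℂ) * Complex.exp ((t:ℂ) * Complex.I) ∈ Ω) ∧
        Filter.Tendsto (fun R : ℝ => (Real.pi * R ^ 2)⁻¹ * ∫ r in (0:ℝ)..R, (b r - a r) * r)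
          (nhdsWithin 0 (Set.Ioi 0)) (nhds (1/2))) := by
  exact Pool.Agent.Helper694.Ang.main

end Pool.Agent.S03194
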