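import Pool.Statements.S03196

set_option autoImplicit false
open Pool Pool.MP_5bcbac_an

namespace Pool.Agent.S03196

open Matrix

abbrev E : Type := EuclideanSpace ℂ (Fin 2)

noncomputable abbrev T (M : Matrix (Fin 2) (Fin 2) ℂ) : E →L[ℂ] E :=
  Matrix.toEuclideanCLM (n := Fin 2) (𝕜 := ℂ) M

theorem trace_T (M : Matrix (Fin 2) (Fin 2) ℂ) :
    LinearMap.trace ℂ E ((T M : E →L[ℂ] E) : E →ₗ[ℂ] E) = M 0 0 + M 1 1 := by
  rw [LinearMap.trace_eq_sum_inner _ (EuclideanSpace.basisFun (Fin 2) ℂ)]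
  simp [Fin.sum_univ_two, EuclideanSpace.inner_eq_star_dotProduct,
    EuclideanSpace.basisFun_apply, Matrix.mulVec, dotProduct, EuclideanSpace.single]

theorem exists_a : ∃ a : ℝ, 0 < a ∧ a ^ 4 = 624 / 625 := by
  refine ⟨(624 / 625 : ℝ) ^ ((1 : ℝ) / 4), by positivity, ?_⟩
  rw [← Real.rpow_natCast, ← Real.rpow_mul (by norm_num)]
  norm_num

theorem root4 (Z : E →L[ℂ] E) (hZ : 0 ≤ Z) :
    cfc (fun x : ℝ => x ^ (1 / (4 : ℝ))) (Z ^ 4) = Z := by
  have hsa : IsSelfAdjoint Z := IsSelfAdjoint.of_nonneg hZ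
  rw [← cfc_pow_id (R := ℝ) Z 4 hsa]
  rw [← cfc_comp' (fun x : ℝ => x ^ (1 / (4 : ℝ))) (fun x : ℝ => x ^ 4) Z
    (hg := (Real.continuous_rpow_const (by norm_num)).continuousOn)]
  conv_rhs => rw [← cfc_id' ℝ Z hsa]
  refine cfc_congr fun x hx => ?_
  have hx0 : 0 ≤ x := spectrum_nonneg_of_nonneg hZ hx
  rw [← Real.rpow_natCast, ← Real.rpow_mul hx0]
  norm_num

theorem pow4 (X : E →L[ℂ] E) (hX : 0 ≤ X) :
    cfc (fun x : ℝ => x ^ (4 : ℝ)) X = X ^ 4 := by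
  have hsa : IsSelfAdjoint X := IsSelfAdjoint.of_nonneg hX
  rw [← cfc_pow_id (R := ℝ) X 4 hsa]
  refine cfc_congr fun x hx => ?_
  rw [← Real.rpow_natCast]
  norm_num

/-- The projection onto the line of (a^2, c/25), where c is 1 or -1. -/
noncomputable def P (a c : ℂ) : Matrix (Fin 2) (Fin 2) ℂ :=
  !![624 / 625, c * a ^ 2 / 25; c * a ^ 2 / 25, 1 / 625]

noncomputable def D (a : ℂ) : Matrix (Fin 2) (Fin 2) ℂ := !![a, 0; 0, 1 / 5]

theorem P_mul_P (a c : ℂ) (ha : a ^ 4 = 624 / 625) (hc : c ^ 2 = 1) : P a c * P a c = P a c := by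
  have h1 : (c * a ^ 2 / 25) * (c * a ^ 2 / 25) = 624 / 625 / 625 := by
    have : (c * a ^ 2 / 25) * (c * a ^ 2 / 25) = c ^ 2 * a ^ 4 / 625 := by ring
    rw [this, hc, ha]; ring
  ext i j
  fin_cases i <;> fin_cases j
  · simp only [P, Matrix.mul_apply, Fin.sum_univ_two]
    simp [h1]; norm_num
  · simp only [P, Matrix.mul_apply, Fin.sum_univ_two]
    simp; ring
  · simp only [P, Matrix.mul_apply, Fin.sum_univ_two]
    simp; ring
  · simp only [P, Matrix.mul_apply, Fin.sum_univ_two]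
    simp [h1]; norm_num

theorem P_star (a c : ℝ) : star (P (a : ℂ) (c : ℂ)) = P a c := by
  ext i j
  fin_cases i <;> fin_cases j <;> simp [P, Matrix.star_apply, Complex.conj_ofReal]

theorem D_nonneg (a : ℝ) (ha : 0 < a) : 0 ≤ T (D (a : ℂ)) := by
  have h : D (a : ℂ) = star (!![((Real.sqrt a : ℝ) : ℂ), 0; 0, ((Real.sqrt (1 / 5) : ℝ) : ℂ)]) *
      !![((Real.sqrt a : ℝ) : ℂ), 0; 0, ((Real.sqrt (1 / 5) : ℝ) : ℂ)] := by
    have h1 : ((Real.sqrt a : ℝ) : ℂ) * ((Real.sqrt a : ℝ) : ℂ) = a := by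
      rw [← Complex.ofReal_mul, Real.mul_self_sqrt ha.le]
    have h2 : ((Real.sqrt (1 / 5) : ℝ) : ℂ) * ((Real.sqrt (1 / 5) : ℝ) : ℂ) = 1 / 5 := by
      rw [← Complex.ofReal_mul, Real.mul_self_sqrt (by norm_num)]
      push_cast
      norm_num
    ext i j
    fin_cases i <;> fin_cases j
    · simp only [D, Matrix.mul_apply, Fin.sum_univ_two, Matrix.star_apply]
      simp [Complex.conj_ofReal, h1]
    · simp only [D, Matrix.mul_apply, Fin.sum_univ_two, Matrix.star_apply]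
      simp
    · simp only [D, Matrix.mul_apply, Fin.sum_univ_two, Matrix.star_apply]
      simp
    · simp only [D, Matrix.mul_apply, Fin.sum_univ_two, Matrix.star_apply]
      simp only [one_div] at h2 ⊢
      simp [Complex.conj_ofReal]
      simpa using h2.symm
  rw [h, T, map_mul, map_star]
  exact star_mul_self_nonneg _

theorem P_nonneg (a c : ℝ) (ha : a ^ 4 = 624 / 625) (hc : c ^ 2 = 1) :
    0 ≤ T (P (a : ℂ) (c : ℂ)) := by
  have hac : (a : ℂ) ^ 4 = 624 / 625 := by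
    have := congrArg (fun x : ℝ => (x : ℂ)) ha
    push_cast at this
    exact this
  have hcc : (c : ℂ) ^ 2 = 1 := by
    have := congrArg (fun x : ℝ => (x : ℂ)) hc
    push_cast at this
    exact this
  have h : P (a : ℂ) (c : ℂ) = star (P (a : ℂ) (c : ℂ)) * P (a : ℂ) (c : ℂ) := by
    rw [P_star, P_mul_P _ _ hac hcc]
  rw [h, T, map_mul, map_star]
  exact star_mul_self_nonneg _

theorem P_pow4 (a c : ℂ) (ha : a ^ 4 = 624 / 625) (hc : c ^ 2 = 1) : (T (P a c)) ^ 4 = T (P a c) := by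
  have h : P a c ^ 4 = P a c := by
    rw [pow_succ, pow_succ, pow_two, P_mul_P a c ha hc, P_mul_P a c ha hc, P_mul_P a c ha hc]
  rw [T, ← map_pow, h]

theorem D_pow4 (a : ℂ) (ha : a ^ 4 = 624 / 625) :
    (T (D a)) ^ 4 = (1 / 2 : ℂ) • T (P a 1) + (1 / 2 : ℂ) • T (P a (-1)) := by
  have h : D a ^ 4 = (1 / 2 : ℂ) • P a 1 + (1 / 2 : ℂ) • P a (-1) := by
    have h2 : D a ^ 2 = !![a ^ 2, 0; 0, 1 / 25] := by
      ext i j
      fin_cases i <;> fin_cases j <;> simp [D, pow_two, Matrix.mul_apply, Fin.sum_univ_two] <;> norm_num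
    have h4 : D a ^ 4 = D a ^ 2 * D a ^ 2 := by rw [← pow_add]
    rw [h4, h2]
    ext i j
    fin_cases i <;> fin_cases j
    · simp [P, Matrix.mul_apply, Fin.sum_univ_two]
      linear_combination ha
    · simp [P, Matrix.mul_apply, Fin.sum_univ_two]
      ring
    · simp [P, Matrix.mul_apply, Fin.sum_univ_two]
      ring
    · simp [P, Matrix.mul_apply, Fin.sum_univ_two]
      norm_num
  rw [T, ← map_pow, h, map_add, map_smul, map_smul]

theorem trace_sq_sub (M N : Matrix (Fin 2) (Fin 2) ℂ) :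
    LinearMap.trace ℂ E (((T M - T N) ^ 2 : E →L[ℂ] E) : E →ₗ[ℂ] E) =
      ((M - N) * (M - N)) 0 0 + ((M - N) * (M - N)) 1 1 := by
  rw [T, T, ← map_sub, ← map_pow, pow_two]
  exact trace_T _

/-- The negation of the preceding statement: For all positive semidefinite operators X, Y on C^n and all p ≥ 2, the map t ↦ Tr[(Y − (tX^p + (1−t)Y^p)^(1/p))^2] is non-decreasing on [0,1]. -/
theorem result :
    ¬ (∀ (n : ℕ) (X Y : EuclideanSpace ℂ (Fin n) →L[ℂ] EuclideanSpace ℂ (Fin n)) (p : ℝ),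
      0 ≤ X → 0 ≤ Y → 2 ≤ p →
      MonotoneOn
        (fun t : ℝ =>
          (LinearMap.trace ℂ (EuclideanSpace ℂ (Fin n))
            (((Y - cfc (fun x : ℝ => x ^ (1 / p))
                ((t : ℂ) • cfc (fun x : ℝ => x ^ p) X
                  + ((1 - t : ℝ) : ℂ) • cfc (fun x : ℝ => x ^ p) Y)) ^ 2 :
                EuclideanSpace ℂ (Fin n) →L[ℂ] EuclideanSpace ℂ (Fin n)) :
              EuclideanSpace ℂ (Fin n) →ₗ[ℂ] EuclideanSpace ℂ (Fin n))).re)
        (Set.Icc (0 : ℝ) 1)) := by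
  intro h
  obtain ⟨a, ha0, ha4⟩ := exists_a
  have ha4c : (a : ℂ) ^ 4 = 624 / 625 := by
    have := congrArg (fun x : ℝ => (x : ℂ)) ha4
    push_cast at this
    exact this
  have hX : 0 ≤ T (P (a : ℂ) 1) := by
    have := P_nonneg a 1 ha4 (by norm_num)
    simpa using this
  have hY : 0 ≤ T (P (a : ℂ) (-1)) := by
    have := P_nonneg a (-1) ha4 (by norm_num)
    simpa using this
  have hmono := h 2 (T (P a 1)) (T (P a (-1))) 4 hX hY (by norm_num)
  have hle := hmono (a := 1 / 2) (b := 1) (by norm_num) (by norm_num) (by norm_num)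
  have h1 : ((1 / 2 : ℝ) : ℂ) = 1 / 2 := by push_cast; rfl
  have h2 : ((1 - 1 / 2 : ℝ) : ℂ) = 1 / 2 := by push_cast; norm_num
  simp only [pow4 _ hX, pow4 _ hY] at hle
  rw [P_pow4 _ _ ha4c (by norm_num), P_pow4 _ _ ha4c (by norm_num), h1, h2, ← D_pow4 _ ha4c,
    root4 _ (D_nonneg a ha0)] at hle
  have h3 : ((1 : ℝ) : ℂ) • T (P (a : ℂ) 1) + ((1 - 1 : ℝ) : ℂ) • T (P (a : ℂ) (-1)) =
      (T (P (a : ℂ) 1)) ^ 4 := by
    rw [P_pow4 _ _ ha4c (by norm_num), sub_self, Complex.ofReal_zero, Complex.ofReal_one, one_smul,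
      zero_smul ℂ (T (P (a : ℂ) (-1))), add_zero]
  rw [h3, root4 _ hX, trace_sq_sub, trace_sq_sub] at hle
  have e1 : ((P (a : ℂ) (-1) - D a) * (P (a : ℂ) (-1) - D a)) 0 0 +
      ((P (a : ℂ) (-1) - D a) * (P (a : ℂ) (-1) - D a)) 1 1 =
      (((624 / 625 - a) ^ 2 + 2 * (a ^ 4 / 625) + (1 / 625 - 1 / 5) ^ 2 : ℝ) : ℂ) := by
    simp only [Matrix.mul_apply, Fin.sum_univ_two, Matrix.sub_apply]
    simp [P, D]
    ring
  have e2 : ((P (a : ℂ) (-1) - P (a : ℂ) 1) * (P (a : ℂ) (-1) - P (a : ℂ) 1)) 0 0 +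
      ((P (a : ℂ) (-1) - P (a : ℂ) 1) * (P (a : ℂ) (-1) - P (a : ℂ) 1)) 1 1 =
      ((8 * (a ^ 4 / 625) : ℝ) : ℂ) := by
    simp only [Matrix.mul_apply, Fin.sum_univ_two, Matrix.sub_apply]
    simp [P]
    ring
  rw [e1, e2, Complex.ofReal_re, Complex.ofReal_re, ha4] at hle
  nlinarith [sq_nonneg (624 / 625 - a)]

end Pool.Agent.S03196
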