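import Pool.Statements.S03208
import Pool.Agent.Helper968.Schild.Numeric
import Pool.Agent.Helper968.Schild.Family4

set_option autoImplicit false
open Pool Pool.MP_5d03ee_an

namespace Pool.Agent.S03208

/-- The negation of the preceding statement: Over normalized univalent starlike functions, the infimum of d*/d (d* = min modulus on the circle of convexity radius, d = distance to the nearest omitted value) equals the infimum of that ratio over Suffridge's functions g_a, a=2b²-1, b in [0,1]. -/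
theorem result :
    ¬ (∀ ρ : (ℂ → ℂ) → ℝ,
    (∀ f : ℂ → ℂ, ρ f =
      sInf ((fun w : ℂ => ‖w‖) '' frontier (f '' Metric.ball (0:ℂ)
        (sSup {r : ℝ | 0 < r ∧ r ≤ 1 ∧ Convex ℝ (f '' Metric.ball (0:ℂ) r)})))
      / Metric.infDist (0:ℂ) (f '' Metric.ball (0:ℂ) 1)ᶜ) →
    sInf {x : ℝ | ∃ f : ℂ → ℂ, DifferentiableOn ℂ f (Metric.ball (0:ℂ) 1) ∧
        Set.InjOn f (Metric.ball (0:ℂ) 1) ∧ f 0 = 0 ∧ deriv f 0 = 1 ∧
        StarConvex ℝ (0:ℂ) (f '' Metric.ball (0:ℂ) 1) ∧ x = ρ f}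
    = sInf {x : ℝ | ∃ b : ℝ, 0 ≤ b ∧ b ≤ 1 ∧ ∃ L M : ℂ → ℂ,
        ContinuousOn L (Metric.ball (0:ℂ) 1) ∧ ContinuousOn M (Metric.ball (0:ℂ) 1) ∧
        L 0 = 0 ∧ M 0 = 0 ∧
        (∀ z ∈ Metric.ball (0:ℂ) 1, Complex.exp (L z) =
          ((1 + 2 * (2 * (b:ℂ) ^ 2 - 1) * z + z ^ 2) ^ (1/2 : ℂ) / (1 - z)
            + (b:ℂ) * ((1 + z) / (1 - z))) / (1 + (b:ℂ))) ∧
        (∀ z ∈ Metric.ball (0:ℂ) 1, Complex.exp (M z) =
          2 / ((1 + 2 * (2 * (b:ℂ) ^ 2 - 1) * z + z ^ 2) ^ (1/2 : ℂ) + 1 + z)) ∧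
        x = ρ (fun z : ℂ => z * Complex.exp (2 * (b:ℂ) * L z + 2 * M z))}) := by
  intro H
  have h1 := H Helper968.Schild.rho (fun f => rfl)
  -- the left-hand side is at most 0.6048
  obtain ⟨hpar, hup⟩ := Helper968.Schild.example8
  have hA := csInf_le (s := {x : ℝ | ∃ f : ℂ → ℂ, DifferentiableOn ℂ f (Metric.ball (0:ℂ) 1) ∧
        Set.InjOn f (Metric.ball (0:ℂ) 1) ∧ f 0 = 0 ∧ deriv f 0 = 1 ∧
        StarConvex ℝ (0:ℂ) (f '' Metric.ball (0:ℂ) 1) ∧ x = Helper968.Schild.rho f})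
    ⟨0, by
      rintro _ ⟨f, -, -, -, -, -, rfl⟩
      exact Helper968.Schild.rho_nonneg f⟩
    ⟨_, hpar.diff_ef, hpar.starlike.1, Helper968.Schild.ef_zero _ _, hpar.deriv_ef_zero,
      hpar.starlike.2, rfl⟩
  -- the right-hand side is at least 0.605
  have hB : (0.605 : ℝ) ≤ sInf {x : ℝ | ∃ b : ℝ, 0 ≤ b ∧ b ≤ 1 ∧ ∃ L M : ℂ → ℂ,
        ContinuousOn L (Metric.ball (0:ℂ) 1) ∧ ContinuousOn M (Metric.ball (0:ℂ) 1) ∧
        L 0 = 0 ∧ M 0 = 0 ∧
        (∀ z ∈ Metric.ball (0:ℂ) 1, Complex.exp (L z) =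
          ((1 + 2 * (2 * (b:ℂ) ^ 2 - 1) * z + z ^ 2) ^ (1/2 : ℂ) / (1 - z)
            + (b:ℂ) * ((1 + z) / (1 - z))) / (1 + (b:ℂ))) ∧
        (∀ z ∈ Metric.ball (0:ℂ) 1, Complex.exp (M z) =
          2 / ((1 + 2 * (2 * (b:ℂ) ^ 2 - 1) * z + z ^ 2) ^ (1/2 : ℂ) + 1 + z)) ∧
        x = Helper968.Schild.rho
          (fun z : ℂ => z * Complex.exp (2 * (b:ℂ) * L z + 2 * M z))} := by
    apply le_csInf
    · refine ⟨_, 0, le_refl _, zero_le_one, fun _ => 0, fun _ => 0, continuousOn_const,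
        continuousOn_const, rfl, rfl, ?_, ?_, rfl⟩
      · intro z hz
        have hR := Helper968.Schild.R_zero (mem_ball_zero_iff.mp hz)
        have h0 := Helper968.Schild.one_sub_ne (mem_ball_zero_iff.mp hz)
        unfold Helper968.Schild.R Helper968.Schild.W at hR
        rw [hR, Complex.exp_zero]
        push_cast
        rw [div_self h0]
        norm_num
      · intro z hz
        have hR := Helper968.Schild.R_zero (mem_ball_zero_iff.mp hz)
        unfold Helper968.Schild.R Helper968.Schild.W at hR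
        rw [hR, Complex.exp_zero]
        ring_nf
    · rintro x ⟨b, hb0, hb1, L, M, hLc, hMc, hL0, hM0, hL, hM, rfl⟩
      have hF : Helper968.Schild.Fam b L M := ⟨hb0, hb1, hLc, hMc, hL0, hM0, hL, hM⟩
      exact hF.ratio
  rw [← h1] at hB
  have := hB.trans (hA.trans hup)
  norm_num at this

end Pool.Agent.S03208
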