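import Pool.Statements.S03209
-- import your own Pool.Agent.* helpers here

set_option autoImplicit false
open scoped BigOperators
open Pool Pool.MP_5d54af_an
open Metric Set

namespace Pool.Agent.S03209




/-- logarithm on a ball -/
lemma exists_log_on_ball {c : ℂ} {r : ℝ} {h : ℂ → ℂ}
    (hd : DifferentiableOn ℂ h (ball c r)) (hne : ∀ z ∈ ball c r, h z ≠ 0)
    {z0 : ℂ} (hz0 : z0 ∈ ball c r) {w0 : ℂ} (hw0 : Complex.exp w0 = h z0) :
    ∃ H : ℂ → ℂ, DifferentiableOn ℂ H (ball c r) ∧ H z0 = w0 ∧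
      (∀ z ∈ ball c r, Complex.exp (H z) = h z) ∧
      (∀ z ∈ ball c r, HasDerivAt H (deriv h z / h z) z) := by
  have hd' : DifferentiableOn ℂ (fun z => deriv h z / h z) (ball c r) :=
    (hd.deriv isOpen_ball).div hd hne
  obtain ⟨H, hH0, hH⟩ := (hd'.isExactOn_ball).with_val_at z0 w0
  refine ⟨H, fun z hz => (hH z hz).differentiableAt.differentiableWithinAt, hH0, ?_, hH⟩
  -- h * exp(-H) constant
  have hder : ∀ z ∈ ball c r, HasDerivAt (fun z => h z * Complex.exp (-H z)) 0 z := by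
    intro z hz
    have h1 : HasDerivAt h (deriv h z) z :=
      ((hd z hz).differentiableAt (isOpen_ball.mem_nhds hz)).hasDerivAt
    have h2 := (hH z hz).neg.cexp
    have h4 := hne z hz
    have h5 : deriv h z * Complex.exp ((-H) z) +
        h z * (Complex.exp ((-H) z) * -(deriv h z / h z)) = 0 := by
      field_simp
      ring
    exact (h1.mul h2).congr_deriv h5
  have hconst : ∀ z ∈ ball c r, h z * Complex.exp (-H z) = h z0 * Complex.exp (-H z0) := by
    intro z hz
    refine (convex_ball c r).is_const_of_fderivWithin_eq_zero (𝕜 := ℂ)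
      (f := fun z => h z * Complex.exp (-H z)) ?_ ?_ hz hz0
    · intro w hw
      exact (hder w hw).differentiableAt.differentiableWithinAt
    · intro w hw
      rw [fderivWithin_of_isOpen isOpen_ball hw]
      have := (hder w hw).hasFDerivAt.fderiv
      rw [this]
      ext
      simp
  intro z hz
  have := hconst z hz
  rw [hH0, ← hw0, ← Complex.exp_add, add_neg_cancel, Complex.exp_zero, Complex.exp_neg] at this
  field_simp at this
  exact this.symm

/-- two constants type lemma -/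
lemma core_local {c : ℂ} {r A δ lam : ℝ} (hr : 0 < r) (hA : 0 < A) (hδ : δ ≤ 1/4)
    (hlam : 0 ≤ lam) {h : ℂ → ℂ} (hd : DifferentiableOn ℂ h (ball c (8*r)))
    (hne : ∀ z ∈ ball c (8*r), h z ≠ 0)
    (hbd : ∀ z ∈ ball c (8*r), ‖h z‖ ≤ Real.exp A)
    (hL : ∀ z ∈ ball c (8*r), z.re < c.re - r/2 → ‖h z - 1‖ ≤ δ)
    (h1 : 2*δ*Real.exp (3*lam) ≤ 1/8) (h2 : (2*A+3)*Real.exp (-lam) ≤ 1/8) :
    ‖h c - 1‖ ≤ 1/4 := by
  set z0 : ℂ := c - r with hz0def
  have hz0 : z0 ∈ ball c (8*r) := by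
    rw [mem_ball, dist_eq_norm]
    simp [hz0def, abs_of_pos hr]
    linarith
  have hz0re : z0.re < c.re - r/2 := by
    simp [hz0def]; linarith
  have hδ0 : 0 ≤ δ := (norm_nonneg _).trans (hL z0 hz0 hz0re)
  have hlogb : ∀ w : ℂ, ‖w - 1‖ ≤ δ → ‖Complex.log w‖ ≤ 2 * δ := by
    intro w hw
    have h3 : ‖w - 1‖ ≤ 1/2 := by linarith
    have := Complex.norm_log_one_add_half_le_self h3
    rw [add_sub_cancel] at this
    linarith
  obtain ⟨H, hHd, hH0, hHe, hHder⟩ := exists_log_on_ball hd hne hz0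
    (w0 := Complex.log (h z0)) (Complex.exp_log (hne z0 hz0))
  -- H = log h on the left part
  set Ω : Set ℂ := ball c (8*r) ∩ {z | z.re < c.re - r/2} with hΩ
  have hΩo : IsOpen Ω := isOpen_ball.inter (isOpen_lt Complex.continuous_re continuous_const)
  have hΩc : Convex ℝ Ω := (convex_ball _ _).inter (convex_halfSpace_re_lt _)
  have hslit : ∀ z ∈ Ω, h z ∈ Complex.slitPlane := by
    intro z hz
    have h3 := hL z hz.1 hz.2
    rw [Complex.mem_slitPlane_iff]
    left
    have h4 : |(h z - 1).re| ≤ ‖h z - 1‖ := Complex.abs_re_le_norm _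
    rw [Complex.sub_re, Complex.one_re, abs_le] at h4
    linarith [h4.1]
  have hHL : ∀ z ∈ Ω, ‖H z‖ ≤ 2 * δ := by
    intro z hz
    have hconst : H z - Complex.log (h z) = H z0 - Complex.log (h z0) := by
      refine hΩc.is_const_of_fderivWithin_eq_zero (𝕜 := ℂ)
        (f := fun z => H z - Complex.log (h z)) ?_ ?_ hz ⟨hz0, hz0re⟩
      · intro w hw
        have h1 : DifferentiableAt ℂ h w :=
          (hd w hw.1).differentiableAt (isOpen_ball.mem_nhds hw.1)
        exact ((hHder w hw.1).differentiableAt.sub (h1.clog (hslit w hw))).differentiableWithinAt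
      · intro w hw
        rw [fderivWithin_of_isOpen hΩo hw]
        have h1 : HasDerivAt h (deriv h w) w :=
          ((hd w hw.1).differentiableAt (isOpen_ball.mem_nhds hw.1)).hasDerivAt
        have h2 := (hHder w hw.1).sub (h1.clog (hslit w hw))
        rw [sub_self] at h2
        have := h2.hasFDerivAt.fderiv
        rw [show (fun z => H z - Complex.log (h z)) = (H - fun z => Complex.log (h z)) from rfl, this]
        ext
        simp
    rw [hH0, sub_self, sub_eq_zero] at hconst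
    rw [hconst]
    exact hlogb _ (hL z hz.1 hz.2)
  -- Borel-Caratheodory
  have hBC : ∀ z : ℂ, ‖z - z0‖ ≤ 7*r/2 → ‖H z‖ ≤ 2*A+3 := by
    intro z hz
    have hsub : ∀ w ∈ ball (0:ℂ) (7*r), z0 + w ∈ ball c (8*r) := by
      intro w hw
      rw [mem_ball_zero_iff] at hw
      rw [mem_ball, dist_eq_norm]
      calc ‖z0 + w - c‖ = ‖(-(r:ℂ)) + w‖ := by rw [hz0def]; congr 1; ring
        _ ≤ ‖(-(r:ℂ))‖ + ‖w‖ := norm_add_le _ _
        _ = r + ‖w‖ := by simp [abs_of_pos hr]
        _ < 8*r := by linarith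
    have h3 := Complex.borelCaratheodory (f := fun w => H (z0 + w)) (M := A) (R := 7*r)
      (z := z - z0) hA ?_ ?_ (by positivity) ?_
    · simp only [add_sub_cancel, add_zero] at h3
      have h4 : ‖H z0‖ ≤ 2*δ := hHL z0 ⟨hz0, hz0re⟩
      have h5 : 0 < 7*r - ‖z - z0‖ := by linarith
      have h6 : 2 * A * ‖z - z0‖ / (7*r - ‖z - z0‖) ≤ 2*A := by
        rw [div_le_iff₀ h5]
        nlinarith
      have h7 : ‖H z0‖ * (7*r + ‖z - z0‖) / (7*r - ‖z - z0‖) ≤ 3 := by
        rw [div_le_iff₀ h5]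
        have : ‖H z0‖ ≤ 1/2 := by linarith
        nlinarith [norm_nonneg (z - z0), norm_nonneg (H z0)]
      linarith
    · intro w hw
      have := (hHder _ (hsub w hw)).comp_const_add z0 w
      exact this.differentiableAt.differentiableWithinAt
    · intro w hw
      have h4 := hsub w hw
      have h5 := hHe _ h4
      have h6 := hbd _ h4
      rw [← h5, Complex.norm_exp, Real.exp_le_exp] at h6
      exact h6
    · rw [mem_ball_zero_iff]; linarith
  -- max modulus on the rectangle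
  set U : Set ℂ := (Ioo (c.re - r) (c.re + r)) ×ℂ (Ioo (c.im - 2*r) (c.im + 2*r)) with hU
  have hcl : closure U = (Icc (c.re - r) (c.re + r)) ×ℂ (Icc (c.im - 2*r) (c.im + 2*r)) := by
    rw [hU, Complex.closure_reProdIm, closure_Ioo (by linarith), closure_Ioo (by linarith)]
  have hclz : ∀ z ∈ closure U, ‖z - z0‖ ≤ 7*r/2 ∧ z ∈ ball c (8*r) := by
    intro z hz
    rw [hcl, Complex.mem_reProdIm, mem_Icc, mem_Icc] at hz
    obtain ⟨⟨ha, hb⟩, ⟨hc, hd⟩⟩ := hz
    have h3 : ‖z - z0‖ ≤ 7*r/2 := by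
      rw [← sq_le_sq₀ (norm_nonneg _) (by positivity), Complex.sq_norm, Complex.normSq_apply]
      simp only [hz0def, Complex.sub_re, Complex.sub_im, Complex.ofReal_re, Complex.ofReal_im]
      nlinarith
    refine ⟨h3, ?_⟩
    rw [mem_ball, dist_eq_norm]
    calc ‖z - c‖ = ‖(z - z0) + (-(r:ℂ))‖ := by rw [hz0def]; congr 1; ring
        _ ≤ ‖z - z0‖ + ‖(-(r:ℂ))‖ := norm_add_le _ _
        _ = ‖z - z0‖ + r := by simp [abs_of_pos hr]
        _ < 8*r := by linarith
  set κ : ℝ := lam / r^2 with hκ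
  set P : ℂ → ℂ := fun z => (κ:ℂ) * ((z - c)^2 - 2*r*(z - c)) with hP
  have hPre : ∀ z, (P z).re = κ * ((z.re - c.re)^2 - (z.im - c.im)^2 - 2*r*(z.re - c.re)) := by
    intro z
    simp [hP, pow_two, Complex.mul_re, Complex.sub_re]
  have hκ0 : 0 ≤ κ := by positivity
  have hκr : κ * r^2 = lam := by rw [hκ]; field_simp
  have hkey : ‖H c * Complex.exp (P c)‖ ≤ 1/8 := by
    refine Complex.norm_le_of_forall_mem_frontier_norm_le (U := U)
      (f := fun z => H z * Complex.exp (P z)) ?_ ?_ ?_ ?_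
    · refine (isBounded_closedBall (x := z0) (r := 7*r/2)).subset ?_
      intro z hz
      rw [mem_closedBall, dist_eq_norm]
      exact (hclz z (subset_closure hz)).1
    · refine DifferentiableOn.diffContOnCl ?_
      intro z hz
      have h3 := (hclz z hz).2
      have h4 : DifferentiableAt ℂ H z := (hHder z h3).differentiableAt
      have h5 : DifferentiableAt ℂ (fun z => Complex.exp (P z)) z := by
        simp only [hP]; fun_prop
      exact (h4.mul h5).differentiableWithinAt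
    · intro z hz
      have hzc : z ∈ closure U := frontier_subset_closure hz
      have hb1 := hclz z hzc
      have hb2 := hBC z hb1.1
      have hzc' := hzc
      rw [hcl, Complex.mem_reProdIm, mem_Icc, mem_Icc] at hzc'
      obtain ⟨⟨ha, hb⟩, ⟨hc, hd⟩⟩ := hzc'
      rw [hU, Complex.frontier_reProdIm, closure_Ioo (by linarith), closure_Ioo (by linarith),
        frontier_Ioo (by linarith), frontier_Ioo (by linarith)] at hz
      have hexp : ‖Complex.exp (P z)‖ = Real.exp (κ * ((z.re - c.re)^2 - (z.im - c.im)^2 - 2*r*(z.re - c.re))) := by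
        rw [Complex.norm_exp, hPre]
      simp only [norm_mul]
      rw [hexp]
      have hother : ((z.re - c.re)^2 - (z.im - c.im)^2 - 2*r*(z.re - c.re)) ≤ - r^2 →
          ‖H z‖ * Real.exp (κ * ((z.re - c.re)^2 - (z.im - c.im)^2 - 2*r*(z.re - c.re))) ≤ 1/8 := by
        intro hle
        have h3 : κ * ((z.re - c.re)^2 - (z.im - c.im)^2 - 2*r*(z.re - c.re)) ≤ -lam := by
          rw [← hκr]; nlinarith
        calc _ ≤ (2*A+3) * Real.exp (-lam) := by gcongr
          _ ≤ 1/8 := h2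
      rcases hz with hz | hz
      · rw [Complex.mem_reProdIm] at hz
        apply hother
        have h3 : (z.im - c.im)^2 = 4*r^2 := by
          rcases hz.2 with h | h
          · rw [h]; ring
          · rw [mem_singleton_iff] at h; rw [h]; ring
        rw [h3]
        nlinarith
      · rw [Complex.mem_reProdIm] at hz
        rcases hz.1 with h | h
        · -- left edge
          have h3 : ‖H z‖ ≤ 2*δ := hHL z ⟨hb1.2, by simp only [mem_ofPred_eq]; rw [h]; linarith⟩
          have h4 : κ * ((z.re - c.re)^2 - (z.im - c.im)^2 - 2*r*(z.re - c.re)) ≤ 3*lam := by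
            rw [h, ← hκr]
            nlinarith [mul_nonneg hκ0 (sq_nonneg (z.im - c.im))]
          calc _ ≤ 2*δ * Real.exp (3*lam) := by gcongr
            _ ≤ 1/8 := h1
        · rw [mem_singleton_iff] at h
          apply hother
          rw [h]
          nlinarith [sq_nonneg (z.im - c.im)]
    · rw [hcl, Complex.mem_reProdIm, mem_Icc, mem_Icc]
      refine ⟨⟨by linarith, by linarith⟩, ⟨by linarith, by linarith⟩⟩
  have hPc : P c = 0 := by simp [hP]
  rw [hPc, Complex.exp_zero, mul_one] at hkey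
  have hc : c ∈ ball c (8*r) := mem_ball_self (by positivity)
  rw [← hHe c hc]
  have := Complex.norm_exp_sub_one_le (x := H c) (by linarith)
  linarith



/-- minimum modulus function -/
lemma exists_beta {f : ℂ → ℂ} (hf : Differentiable ℂ f) (hne : ∀ z, f z ≠ 0)
    (hnc : ∃ z w : ℂ, f z ≠ f w) :
    ∃ β : ℝ → ℝ, (∀ t z, ‖z‖ ≤ Real.exp t → Real.exp (-β t) ≤ ‖f z‖) ∧
      (∀ t, ∃ z, ‖z‖ = Real.exp t ∧ ‖f z‖ = Real.exp (-β t)) ∧ Monotone β ∧
      (∀ B, ∃ t, B < β t) := by
  have hF : Differentiable ℂ (fun z => (f z)⁻¹) := hf.inv hne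
  have key : ∀ t : ℝ, ∃ z, ‖z‖ = Real.exp t ∧ ∀ w, ‖w‖ ≤ Real.exp t → ‖(f w)⁻¹‖ ≤ ‖(f z)⁻¹‖ := by
    intro t
    have h1 := Complex.exists_mem_frontier_isMaxOn_norm (f := fun z => (f z)⁻¹)
      (U := ball (0:ℂ) (Real.exp t)) isBounded_ball ⟨0, mem_ball_self (Real.exp_pos t)⟩
      hF.diffContOnCl
    obtain ⟨z, hz, hmax⟩ := h1
    rw [frontier_ball _ (Real.exp_pos t).ne', mem_sphere_zero_iff_norm] at hz
    refine ⟨z, hz, ?_⟩
    intro w hw
    have hw' : w ∈ closure (ball (0:ℂ) (Real.exp t)) := by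
      rw [closure_ball _ (Real.exp_pos t).ne', mem_closedBall_zero_iff]; exact hw
    exact hmax hw'
  choose Z hZ hZmax using key
  have hpos : ∀ z, 0 < ‖f z‖ := fun z => norm_pos_iff.mpr (hne z)
  have hle : ∀ t z, ‖z‖ ≤ Real.exp t → ‖f (Z t)‖ ≤ ‖f z‖ := by
    intro t z hz
    have := hZmax t z hz
    rw [norm_inv, norm_inv] at this
    exact (inv_le_inv₀ (hpos _) (hpos _)).mp this
  have hmono : Monotone (fun t => -Real.log ‖f (Z t)‖) := by
    intro t u htu
    simp only [neg_le_neg_iff]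
    apply Real.log_le_log (hpos _)
    apply hle
    rw [hZ]; exact Real.exp_le_exp.mpr htu
  refine ⟨fun t => -Real.log ‖f (Z t)‖, ?_, ?_, hmono, ?_⟩
  · intro t z hz
    rw [neg_neg, Real.exp_log (hpos _)]
    exact hle t z hz
  · intro t
    exact ⟨Z t, hZ t, by rw [neg_neg, Real.exp_log (hpos _)]⟩
  · intro B
    by_contra hcon
    push Not at hcon
    have hbdd : ∀ z, ‖(f z)⁻¹‖ ≤ Real.exp B := by
      intro z
      have h1 : ‖z‖ ≤ Real.exp (‖z‖) := by
        have := Real.add_one_le_exp ‖z‖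
        linarith
      have h2 := hle _ z h1
      have h3 := hcon (‖z‖)
      rw [norm_inv]
      have h4 : Real.exp (-B) ≤ ‖f z‖ := by
        refine le_trans ?_ h2
        rw [← Real.exp_log (hpos (Z ‖z‖))]
        exact Real.exp_le_exp.mpr (by linarith)
      rw [inv_le_comm₀ (hpos z) (Real.exp_pos B), ← Real.exp_neg]
      exact h4
    obtain ⟨z, w, hzw⟩ := hnc
    apply hzw
    have hb : Bornology.IsBounded (Set.range (fun z => (f z)⁻¹)) := by
      rw [isBounded_iff_forall_norm_le]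
      refine ⟨Real.exp B, ?_⟩
      rintro _ ⟨z, rfl⟩
      exact hbdd z
    have := hF.apply_eq_apply_of_bounded hb z w
    simpa using this

/-- growth lemma -/
lemma growth {β : ℝ → ℝ} (hm : Monotone β) (hub : ∀ B, ∃ t, B < β t) (B : ℝ) :
    ∃ t, B ≤ β t ∧ β (t + 4 * ((Real.log (β t))^2)⁻¹) ≤ (5/4) * β t := by
  by_contra hcon
  push Not at hcon
  obtain ⟨t0, ht0⟩ := hub (max B (Real.exp 1))
  have hB : B ≤ β t0 := (le_max_left _ _).trans ht0.le
  have hE : Real.exp 1 ≤ β t0 := (le_max_right _ _).trans ht0.le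
  set stp : ℝ → ℝ := fun t => t + 4 * ((Real.log (β t))^2)⁻¹ with hstp
  set u : ℕ → ℝ := fun n => stp^[n] t0 with hu
  have hu0 : u 0 = t0 := rfl
  have hus : ∀ n, u (n+1) = stp (u n) := fun n => Function.iterate_succ_apply' _ _ _
  have h1 : ∀ n, t0 ≤ u n := by
    intro n
    induction n with
    | zero => exact le_of_eq hu0.symm
    | succ n ih =>
      rw [hus]
      have : (0:ℝ) ≤ 4 * ((Real.log (β (u n)))^2)⁻¹ := by positivity
      simp only [hstp]; linarith
  have h2 : ∀ n, (5/4:ℝ)^n * Real.exp 1 ≤ β (u n) := by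
    intro n
    induction n with
    | zero => simpa [hu0] using hE
    | succ n ih =>
      have h3 := hcon (u n) (hB.trans (hm (h1 n)))
      rw [hus, pow_succ]
      simp only [hstp]
      nlinarith
  -- logs
  have h3 : ∀ n : ℕ, (1/5:ℝ) * (n+1) ≤ Real.log (β (u n)) := by
    intro n
    have h4 : Real.log ((5/4:ℝ)^n * Real.exp 1) ≤ Real.log (β (u n)) :=
      Real.log_le_log (by positivity) (h2 n)
    rw [Real.log_mul (by positivity) (by positivity), Real.log_pow, Real.log_exp] at h4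
    have h5 : (1/5:ℝ) ≤ Real.log (5/4) := by
      have := Real.one_sub_inv_le_log_of_pos (show (0:ℝ) < 5/4 by norm_num)
      norm_num at this ⊢
      linarith
    have h6 : (0:ℝ) ≤ n := Nat.cast_nonneg n
    nlinarith
  have h4 : ∀ n : ℕ, 4 * ((Real.log (β (u n)))^2)⁻¹ ≤ 100 * (1 / ((n:ℝ)+1)^2) := by
    intro n
    have h5 := h3 n
    have h6 : (0:ℝ) < (1/5:ℝ) * (n+1) := by positivity
    have h7 : ((1/5:ℝ) * (n+1))^2 ≤ (Real.log (β (u n)))^2 := by gcongr
    have h8 : ((Real.log (β (u n)))^2)⁻¹ ≤ (((1/5:ℝ) * (n+1))^2)⁻¹ := by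
      gcongr
    calc _ ≤ 4 * (((1/5:ℝ) * (n+1))^2)⁻¹ := by gcongr
      _ = _ := by field_simp; norm_num
  have hsum : Summable (fun n : ℕ => 100 * (1 / ((n:ℝ)+1)^2)) := by
    apply Summable.mul_left
    have := (summable_nat_add_iff 1).mpr (Real.summable_one_div_nat_pow.mpr (show 1 < 2 by norm_num))
    simpa using this
  have h5 : ∀ n, u n ≤ t0 + ∑ i ∈ Finset.range n, 100 * (1 / ((i:ℝ)+1)^2) := by
    intro n
    induction n with
    | zero => simp [hu0]
    | succ n ih =>
      rw [hus, Finset.sum_range_succ]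
      have := h4 n
      simp only [hstp]; linarith
  set C : ℝ := t0 + ∑' i : ℕ, 100 * (1 / ((i:ℝ)+1)^2) with hC
  have h6 : ∀ n, u n ≤ C := by
    intro n
    refine (h5 n).trans ?_
    have := hsum.sum_le_tsum (Finset.range n) (fun i _ => by positivity)
    linarith
  have h7 : ∀ n : ℕ, (5/4:ℝ)^n * Real.exp 1 ≤ β C := fun n => (h2 n).trans (hm (h6 n))
  obtain ⟨n, hn⟩ := pow_unbounded_of_one_lt (β C) (show (1:ℝ) < 5/4 by norm_num)
  have h8 := h7 n
  have h9 : (1:ℝ) ≤ Real.exp 1 := Real.one_le_exp (by norm_num)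
  have h10 : (0:ℝ) < (5/4:ℝ)^n := by positivity
  nlinarith



lemma prod_bounds {ρ : ℝ} (hρ : 0 < ρ) (s : Multiset ℂ) (hs : ∀ w ∈ s, ρ ≤ ‖w‖) (z : ℂ) :
    ρ ^ (Multiset.card s) ≤ ‖(s.map (fun w => (0:ℂ) - w)).prod‖ ∧
    ‖(s.map (fun w => z - w)).prod‖ ≤
      ‖(s.map (fun w => (0:ℂ) - w)).prod‖ * (1 + ‖z‖/ρ) ^ (Multiset.card s) ∧
    (‖z‖ ≤ ρ → ‖(s.map (fun w => (0:ℂ) - w)).prod‖ * (1 - ‖z‖/ρ) ^ (Multiset.card s) ≤
      ‖(s.map (fun w => z - w)).prod‖) := by
  induction s using Multiset.induction_on with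
  | empty => simp
  | cons a s ih =>
    have ha : ρ ≤ ‖a‖ := hs a (Multiset.mem_cons_self a s)
    obtain ⟨i1, i2, i3⟩ := ih (fun w hw => hs w (Multiset.mem_cons_of_mem hw))
    set p0 := ‖(s.map (fun w => (0:ℂ) - w)).prod‖ with hp0
    set pz := ‖(s.map (fun w => z - w)).prod‖ with hpz
    simp only [Multiset.map_cons, Multiset.prod_cons, norm_mul, Multiset.card_cons, zero_sub,
      norm_neg]
    simp only [zero_sub] at hp0
    rw [← hp0, ← hpz]
    have hp00 : 0 ≤ p0 := norm_nonneg _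
    have hpz0 : 0 ≤ pz := norm_nonneg _
    have e1 : ‖z - a‖ ≤ ‖a‖ * (1 + ‖z‖/ρ) := by
      calc ‖z - a‖ ≤ ‖z‖ + ‖a‖ := norm_sub_le _ _
        _ = ρ * (‖z‖/ρ) + ‖a‖ := by field_simp
        _ ≤ ‖a‖ * (‖z‖/ρ) + ‖a‖ := by gcongr
        _ = _ := by ring
    have e2 : ‖a‖ * (1 - ‖z‖/ρ) ≤ ‖z - a‖ := by
      have h1 : ‖a‖ - ‖z‖ ≤ ‖z - a‖ := by
        rw [norm_sub_rev]; exact norm_sub_norm_le _ _
      have h2 : ρ * (‖z‖/ρ) ≤ ‖a‖ * (‖z‖/ρ) := by gcongr
      have h3 : ρ * (‖z‖/ρ) = ‖z‖ := by field_simp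
      linarith
    refine ⟨?_, ?_, ?_⟩
    · rw [pow_succ, mul_comm]
      gcongr
    · calc ‖z - a‖ * pz ≤ (‖a‖ * (1 + ‖z‖/ρ)) * (p0 * (1 + ‖z‖/ρ) ^ (Multiset.card s)) := by
            gcongr
        _ = _ := by ring
    · intro hz
      have h1 : 0 ≤ 1 - ‖z‖/ρ := by
        rw [sub_nonneg, div_le_one hρ]; exact hz
      calc ‖a‖ * p0 * (1 - ‖z‖/ρ) ^ (Multiset.card s + 1)
          = (‖a‖ * (1 - ‖z‖/ρ)) * (p0 * (1 - ‖z‖/ρ) ^ (Multiset.card s)) := by ring
        _ ≤ ‖z - a‖ * pz := by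
            gcongr
            exact i3 hz

lemma poly_bounds {ρ : ℝ} (hρ : 0 < ρ) (a : ℕ → ℂ) (j : ℕ) (haj : a j ≠ 0)
    (hroot : ∀ w : ℂ, ∑ k ∈ Finset.range (j+1), a k * w^k = 0 → ρ ≤ ‖w‖) (z : ℂ) :
    ‖a j‖ * ρ^j ≤ ‖a 0‖ ∧
    ‖∑ k ∈ Finset.range (j+1), a k * z^k‖ ≤ ‖a 0‖ * (1 + ‖z‖/ρ)^j ∧
    (‖z‖ ≤ ρ → ‖a 0‖ * (1 - ‖z‖/ρ)^j ≤ ‖∑ k ∈ Finset.range (j+1), a k * z^k‖) := by
  set p : Polynomial ℂ := ∑ k ∈ Finset.range (j+1), Polynomial.C (a k) * Polynomial.X^k with hp
  have heval : ∀ w, p.eval w = ∑ k ∈ Finset.range (j+1), a k * w^k := by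
    intro w
    simp [hp, Polynomial.eval_finsetSum]
  have hcoeff : ∀ n, p.coeff n = if n < j+1 then a n else 0 := by
    intro n
    simp only [hp, Polynomial.finsetSum_coeff, Polynomial.coeff_C_mul, Polynomial.coeff_X_pow]
    simp
  have hdeg : p.natDegree = j := by
    apply le_antisymm
    · rw [Polynomial.natDegree_le_iff_coeff_eq_zero]
      intro N hN
      rw [hcoeff, if_neg (by omega)]
    · apply Polynomial.le_natDegree_of_ne_zero
      rw [hcoeff, if_pos (by omega)]; exact haj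
  have hlc : p.leadingCoeff = a j := by
    rw [Polynomial.leadingCoeff, hdeg, hcoeff, if_pos (by omega)]
  have hp0 : p ≠ 0 := by
    intro h; rw [h] at hlc; simp at hlc; exact haj hlc.symm
  have hsp : p.Splits := IsAlgClosed.splits p
  have hcard : Multiset.card p.roots = j := by
    rw [← hdeg]; exact hsp.natDegree_eq_card_roots.symm
  have hfac : ∀ w, p.eval w = a j * (p.roots.map (fun x => w - x)).prod := by
    intro w
    have h1 := hsp.eq_prod_roots
    conv_lhs => rw [h1]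
    rw [hlc, Polynomial.eval_mul, Polynomial.eval_C, Polynomial.eval_multiset_prod, Multiset.map_map]
    simp
  have hmem : ∀ w ∈ p.roots, ρ ≤ ‖w‖ := by
    intro w hw
    apply hroot
    rw [← heval]
    exact (Polynomial.mem_roots hp0).mp hw
  obtain ⟨b1, b2, b3⟩ := prod_bounds hρ p.roots hmem z
  have h0 : a 0 = a j * (p.roots.map (fun x => (0:ℂ) - x)).prod := by
    rw [← hfac 0, heval]
    simp [Finset.sum_range_succ', ]
  have h0n : ‖a 0‖ = ‖a j‖ * ‖(p.roots.map (fun x => (0:ℂ) - x)).prod‖ := by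
    rw [← norm_mul, ← h0]
  rw [hcard] at b1 b2 b3
  rw [← heval, hfac, norm_mul, h0n]
  refine ⟨?_, ?_, ?_⟩
  · gcongr
  · rw [mul_assoc]; gcongr
  · intro hz
    rw [mul_assoc]
    gcongr
    exact b3 hz

/-- tail bound -/
lemma tail_bound {a : ℕ → ℂ} {f : ℂ → ℂ} (hf : ∀ z : ℂ, HasSum (fun k : ℕ => a k * z ^ k) (f z))
    {j : ℕ} {T β : ℝ} (hj : ∀ k, j < k → ‖a k‖ * Real.exp (k * T) ≤ Real.exp (-β))
    {y : ℝ} (hy : 0 < y) {z : ℂ} (hz : ‖z‖ ≤ Real.exp (T - y)) :
    ‖f z - ∑ k ∈ Finset.range (j+1), a k * z^k‖ ≤ Real.exp (-β) * Real.exp (-(j*y)) / y := by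
  have h1 : HasSum (fun k => a (k + (j+1)) * z ^ (k + (j+1)))
      (f z - ∑ k ∈ Finset.range (j+1), a k * z^k) :=
    (hasSum_nat_add_iff' (j+1)).mpr (hf z)
  have hexp1 : Real.exp (-y) < 1 := by rw [Real.exp_lt_one_iff]; linarith
  have h2 : HasSum (fun k : ℕ => Real.exp (-β) * Real.exp (-((j+1)*y)) * (Real.exp (-y))^k)
      (Real.exp (-β) * Real.exp (-((j+1)*y)) * (1 - Real.exp (-y))⁻¹) :=
    (hasSum_geometric_of_lt_one (Real.exp_pos _).le hexp1).mul_left _
  have h3 : ∀ k : ℕ, ‖a (k + (j+1)) * z ^ (k + (j+1))‖ ≤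
      Real.exp (-β) * Real.exp (-((j+1)*y)) * (Real.exp (-y))^k := by
    intro k
    have h4 := hj (k + (j+1)) (by omega)
    rw [norm_mul, norm_pow]
    calc ‖a (k + (j+1))‖ * ‖z‖^(k+(j+1)) ≤ ‖a (k + (j+1))‖ * (Real.exp (T - y))^(k+(j+1)) := by
          gcongr
      _ = (‖a (k + (j+1))‖ * Real.exp (((k + (j+1) : ℕ):ℝ) * T)) * Real.exp (-(((k + (j+1) : ℕ):ℝ) * y)) := by
          rw [mul_assoc, ← Real.exp_add, ← Real.exp_nat_mul]
          congr 2; ring
      _ ≤ Real.exp (-β) * Real.exp (-(((k + (j+1) : ℕ):ℝ) * y)) := by gcongr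
      _ = _ := by
          rw [← Real.exp_nat_mul]
          simp only [← Real.exp_add]
          congr 1; push_cast; ring
  have h5 := tsum_of_norm_bounded h2 h3
  rw [h1.tsum_eq] at h5
  refine h5.trans ?_
  have h6 : Real.exp (-((j+1)*y)) * (1 - Real.exp (-y))⁻¹ ≤ Real.exp (-(j*y)) / y := by
    have h7 : 0 < 1 - Real.exp (-y) := by linarith
    rw [← div_eq_mul_inv, div_le_div_iff₀ h7 hy]
    have h8 : Real.exp (-((j+1)*y)) = Real.exp (-(j*y)) * Real.exp (-y) := by
      rw [← Real.exp_add]; congr 1; ring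
    rw [h8, mul_assoc]
    gcongr
    have h9 : y + 1 ≤ Real.exp y := Real.add_one_le_exp y
    have h10 : Real.exp (-y) * Real.exp y = 1 := by rw [← Real.exp_add]; simp
    nlinarith [Real.exp_pos (-y)]
  calc _ = Real.exp (-β) * (Real.exp (-((j+1)*y)) * (1 - Real.exp (-y))⁻¹) := by ring
    _ ≤ Real.exp (-β) * (Real.exp (-(j*y)) / y) := by gcongr
    _ = _ := by ring

/-- entire -/
lemma differentiable_of_hasSum {a : ℕ → ℂ} {f : ℂ → ℂ}
    (hf : ∀ z : ℂ, HasSum (fun k : ℕ => a k * z ^ k) (f z)) : Differentiable ℂ f := by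
  intro z
  have h1 : DifferentiableOn ℂ (fun w => ∑' k, a k * w^k) (ball 0 (‖z‖+1)) := by
    have hs : Summable (fun k : ℕ => ‖a k * ((‖z‖+1 : ℝ):ℂ)^k‖) := (hf _).summable.norm
    refine Complex.differentiableOn_tsum_of_summable_norm hs ?_ isOpen_ball ?_
    · intro k; fun_prop
    · intro k w hw
      rw [mem_ball_zero_iff] at hw
      rw [norm_mul, norm_mul, norm_pow, norm_pow, Complex.norm_real, Real.norm_of_nonneg (by positivity)]
      gcongr
  have h2 : (fun w => ∑' k, a k * w^k) = f := by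
    ext w; exact (hf w).tsum_eq
  rw [h2] at h1
  exact h1.differentiableAt (isOpen_ball.mem_nhds (by rw [mem_ball_zero_iff]; linarith))


lemma exists_j {a : ℕ → ℂ} {f : ℂ → ℂ} (hf : ∀ z : ℂ, HasSum (fun k : ℕ => a k * z ^ k) (f z))
    {T β : ℝ} (h0 : Real.exp (-β) ≤ ‖a 0‖) :
    ∃ j : ℕ, Real.exp (-β) ≤ ‖a j‖ * Real.exp (j * T) ∧
      ∀ k, j < k → ‖a k‖ * Real.exp (k * T) ≤ Real.exp (-β) := by
  classical
  have h1 := (hf (Real.exp T : ℂ)).summable.tendsto_atTop_zero
  have h2 : ∀ᶠ k : ℕ in Filter.atTop, ‖a k * (Real.exp T : ℂ)^k‖ < Real.exp (-β) := by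
    have := h1.norm
    rw [norm_zero] at this
    exact this.eventually (gt_mem_nhds (Real.exp_pos _))
  obtain ⟨N, hN⟩ := Filter.eventually_atTop.mp h2
  have hterm : ∀ k : ℕ, ‖a k * (Real.exp T : ℂ)^k‖ = ‖a k‖ * Real.exp (k * T) := by
    intro k
    rw [norm_mul, norm_pow, Complex.norm_real, Real.norm_of_nonneg (Real.exp_pos _).le,
      ← Real.exp_nat_mul]
  set P : ℕ → Prop := fun k => Real.exp (-β) ≤ ‖a k‖ * Real.exp (k * T) with hP
  have hP0 : P 0 := by simpa [hP] using h0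
  refine ⟨Nat.findGreatest P N, Nat.findGreatest_spec (m := 0) (Nat.zero_le _) hP0, ?_⟩
  intro k hk
  by_cases hkN : k ≤ N
  · have := Nat.findGreatest_is_greatest hk hkN
    simp only [hP, not_le] at this
    exact this.le
  · push Not at hkN
    have := hN k hkN.le
    rw [hterm] at this
    exact this.le

lemma exists_tau {β : ℝ → ℝ} (hm : Monotone β) {aj : ℝ} (haj : 0 < aj) {j : ℕ} (hj : 0 < j)
    {T η : ℝ} (hη : 0 < η) (hT : Real.exp (-β T) ≤ aj * Real.exp (j * T)) :
    ∃ τ, τ ≤ T ∧ Real.exp (-β τ) ≤ aj * Real.exp (j * τ) ∧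
      ∀ x, x ≤ τ - η → aj * Real.exp (j * x) ≤ Real.exp (-β x) * Real.exp (-(j * (τ - η - x))) := by
  classical
  set P : ℕ → Prop := fun n =>
    aj * Real.exp (j * (T - n*η)) < Real.exp (-β (T - n*η)) with hP
  have hjR : (0:ℝ) < j := by exact_mod_cast hj
  have hex : ∃ n, P n := by
    have h1 : Real.exp (-(j*η)) < 1 := by rw [Real.exp_lt_one_iff]; nlinarith
    obtain ⟨n, hn⟩ := exists_pow_lt_of_lt_one
      (show 0 < Real.exp (-β T) / (aj * Real.exp (j*T)) by positivity) h1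
    refine ⟨n, ?_⟩
    simp only [hP]
    rw [← Real.exp_nat_mul, lt_div_iff₀ (by positivity)] at hn
    have h2 : aj * Real.exp (j * (T - n*η)) = Real.exp (n * -(j*η)) * (aj * Real.exp (j*T)) := by
      have : Real.exp (j * (T - n*η)) = Real.exp (n * -(j*η)) * Real.exp (j*T) := by
        rw [← Real.exp_add]; congr 1; ring
      rw [this]; ring
    rw [h2]
    refine lt_of_lt_of_le hn ?_
    apply Real.exp_le_exp.mpr
    have : β (T - n*η) ≤ β T := hm (by have : (0:ℝ) ≤ n * η := by positivity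
                                       linarith)
    linarith
  set n := Nat.find hex with hn
  have hn1 : P n := Nat.find_spec hex
  have hn0 : n ≠ 0 := by
    intro h
    rw [h] at hn1
    simp only [hP, Nat.cast_zero, zero_mul, sub_zero] at hn1
    linarith
  obtain ⟨m, hm'⟩ := Nat.exists_eq_succ_of_ne_zero hn0
  have hm1 : ¬ P m := Nat.find_min hex (by omega)
  refine ⟨T - m*η, ?_, ?_, ?_⟩
  · have : (0:ℝ) ≤ m * η := by positivity
    linarith
  · simp only [hP, not_lt] at hm1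
    exact hm1
  · intro x hx
    rw [hm'] at hn1
    simp only [hP, Nat.succ_eq_add_one, Nat.cast_add, Nat.cast_one] at hn1
    have e1 : T - ((m:ℝ)+1)*η = T - m*η - η := by ring
    rw [e1] at hn1
    have e2 : aj * Real.exp (j * x) =
        (aj * Real.exp (j * (T - m*η - η))) * Real.exp (-(j * (T - m*η - η - x))) := by
      rw [mul_assoc, ← Real.exp_add]
      congr 2; ring
    rw [e2]
    have e3 : Real.exp (-β (T - m*η - η)) ≤ Real.exp (-β x) := by
      apply Real.exp_le_exp.mpr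
      have := hm hx
      linarith
    gcongr
    exact hn1.le.trans e3

/-- lower bound for `-log|f|` near an extremal point -/
lemma V_lower {f : ℂ → ℂ} (hfd : Differentiable ℂ f) (hne : ∀ z, f z ≠ 0) {β : ℝ → ℝ}
    (hβ : ∀ t z, ‖z‖ ≤ Real.exp t → Real.exp (-β t) ≤ ‖f z‖) (hm : Monotone β)
    {τ ϱ M : ℝ} (hϱ : 0 < ϱ) (hM : 0 < M) (hβM : β (τ + ϱ) ≤ M) (hβ0 : 0 ≤ β τ)
    {c : ℂ} (hc : c.re = τ) (hcf : ‖f (Complex.exp c)‖ = Real.exp (-β τ)) :
    ∀ z ∈ ball c (ϱ * β τ / (8 * M)), ‖f (Complex.exp z)‖ ≤ Real.exp (-(β τ / 2)) := by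
  set h : ℂ → ℂ := fun z => (f (Complex.exp z))⁻¹ with hh
  have hhd : DifferentiableOn ℂ h (ball c ϱ) := by
    intro z hz
    exact ((hfd.comp Complex.differentiable_exp).inv (fun z => hne _) z).differentiableWithinAt
  have hhne : ∀ z ∈ ball c ϱ, h z ≠ 0 := fun z _ => inv_ne_zero (hne _)
  have hcm : c ∈ ball c ϱ := mem_ball_self hϱ
  obtain ⟨H, hHd, hH0, hHe, -⟩ := exists_log_on_ball hhd hhne hcm
    (w0 := Complex.log (h c)) (Complex.exp_log (hhne c hcm))
  have hre : ∀ z ∈ ball c ϱ, ‖f (Complex.exp z)‖ = Real.exp (-(H z).re) := by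
    intro z hz
    have h1 := hHe z hz
    have h2 : ‖Complex.exp (H z)‖ = ‖(f (Complex.exp z))⁻¹‖ := by rw [h1]
    rw [Complex.norm_exp, norm_inv] at h2
    rw [Real.exp_neg, h2, inv_inv]
  have hβτM : β τ ≤ M := (hm (by linarith)).trans hβM
  have hHc : (H c).re = β τ := by
    have := hre c hcm
    rw [hcf, Real.exp_eq_exp] at this
    linarith
  intro z hz
  rw [mem_ball, dist_eq_norm] at hz
  have hρ2 : ϱ * β τ / (8 * M) ≤ ϱ / 8 := by
    rw [div_le_div_iff₀ (by positivity) (by norm_num)]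
    nlinarith
  have hzϱ : ‖z - c‖ < ϱ := by linarith
  have hBC := Complex.borelCaratheodory_zero (f := fun w => H (c + w) - H c) (M := M) (R := ϱ)
    (z := z - c) hM ?_ ?_ hϱ ?_ (by simp)
  · simp only [add_sub_cancel] at hBC
    have h1 : 2 * M * ‖z - c‖ / (ϱ - ‖z - c‖) ≤ β τ / 2 := by
      rw [div_le_iff₀ (by linarith)]
      have h2 : ‖z - c‖ * (8 * M) < ϱ * β τ := (lt_div_iff₀ (by positivity)).mp hz
      nlinarith [norm_nonneg (z - c)]
    have h3 : |(H z - H c).re| ≤ ‖H z - H c‖ := Complex.abs_re_le_norm _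
    have h4 := (abs_le.mp (h3.trans (hBC.trans h1))).1
    rw [Complex.sub_re, hHc] at h4
    rw [hre z (by rw [mem_ball, dist_eq_norm]; exact hzϱ)]
    apply Real.exp_le_exp.mpr
    linarith
  · intro w hw
    have hw' : c + w ∈ ball c ϱ := by
      rw [mem_ball_zero_iff] at hw
      rw [mem_ball, dist_eq_norm]; simpa using hw
    have h1 : DifferentiableAt ℂ H (c + w) :=
      (hHd _ hw').differentiableAt (isOpen_ball.mem_nhds hw')
    have h2 : DifferentiableAt ℂ (fun w => H (c + w)) w :=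
      h1.comp w (by fun_prop)
    exact (h2.sub_const _).differentiableWithinAt
  · intro w hw
    have hw' : c + w ∈ ball c ϱ := by
      rw [mem_ball_zero_iff] at hw
      rw [mem_ball, dist_eq_norm]; simpa using hw
    have h1 := hre _ hw'
    have h2 : Real.exp (-β (τ + ϱ)) ≤ ‖f (Complex.exp (c + w))‖ := by
      apply hβ
      rw [Complex.norm_exp]
      apply Real.exp_le_exp.mpr
      rw [mem_ball_zero_iff] at hw
      have := (abs_le.mp (Complex.abs_re_le_norm w)).2
      rw [Complex.add_re, hc]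
      linarith
    rw [h1, Real.exp_le_exp] at h2
    change (H (c + w) - H c).re ≤ M
    rw [Complex.sub_re, hHc]
    linarith
  · rw [mem_ball_zero_iff]; exact hzϱ

lemma exp_ineq {X : ℝ} (hX : 10^6 ≤ X) :
    2 * ((2*X+3) * Real.exp (-(X/2))) * Real.exp (3 * (X/12)) ≤ 1/8 ∧
    (10*X^2+3) * Real.exp (-(X/12)) ≤ 1/8 := by
  constructor
  · have h1 : (X/4)^2/2 ≤ Real.exp (X/4) := by
      have := Real.pow_div_factorial_le_exp (X/4) (by linarith) 2
      norm_num [Nat.factorial] at this ⊢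
      linarith
    have h2 : 2 * ((2*X+3) * Real.exp (-(X/2))) * Real.exp (3 * (X/12)) =
        (2 * (2*X+3)) / Real.exp (X/4) := by
      rw [div_eq_mul_inv (2 * (2*X+3)), ← Real.exp_neg]
      have : Real.exp (-(X/4)) = Real.exp (-(X/2)) * Real.exp (3 * (X/12)) := by
        rw [← Real.exp_add]; congr 1; ring
      rw [this]; ring
    rw [h2, div_le_iff₀ (Real.exp_pos _)]
    nlinarith
  · have h1 : (X/12)^3/6 ≤ Real.exp (X/12) := by
      have := Real.pow_div_factorial_le_exp (X/12) (by linarith) 3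
      norm_num [Nat.factorial] at this ⊢
      linarith
    rw [Real.exp_neg, ← div_eq_mul_inv, div_le_iff₀ (Real.exp_pos _)]
    have h3 : 10^6 * X^2 ≤ X^3 := by
      rw [show X^3 = X * X^2 by ring]
      gcongr
    have h4 : 10^12 ≤ X^2 := by nlinarith
    nlinarith

set_option maxHeartbeats 4000000 in
lemma main_contra {a : ℕ → ℂ} {f : ℂ → ℂ} (hf : ∀ z : ℂ, HasSum (fun k : ℕ => a k * z ^ k) (f z))
    (hne : ∀ z, f z ≠ 0) {ε : ℝ} (hε : 0 < ε)
    (hZ : ∀ z n, (∑ k ∈ Finset.range (n + 1), a k * z ^ k) = 0 → ε ≤ ‖f z‖)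
    {β : ℝ → ℝ} (hβ : ∀ t z, ‖z‖ ≤ Real.exp t → Real.exp (-β t) ≤ ‖f z‖)
    (hβe : ∀ t, ∃ z, ‖z‖ = Real.exp t ∧ ‖f z‖ = Real.exp (-β t)) (hm : Monotone β)
    {t s q C : ℝ} (hs0 : 0 < s) (hs1 : s ≤ 1) (hC : 0 ≤ C) (hC1 : Real.exp (-C) ≤ ‖a 0‖)
    (hC2 : ‖a 0‖ ≤ Real.exp C) (hq1 : 10^6 ≤ q) (hqC : 4 + 2 * C ≤ q) (hqε : 4/ε ≤ q)
    (hqε2 : Real.exp (-(q/2)) < ε) (hsq : 1/q ≤ s) (hb : β t = q^16)
    (hgr : β (t + 4*s) ≤ (5/4) * β t) : False := by
  have hq0 : 0 < q := by linarith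
  have hq1' : 1 ≤ q := by linarith
  have hfd : Differentiable ℂ f := differentiable_of_hasSum hf
  have hf0 : f 0 = a 0 := by
    have h1 := hf 0
    have h2 : HasSum (fun k : ℕ => a k * (0:ℂ) ^ k) (a 0) := by
      have := hasSum_single (f := fun k : ℕ => a k * (0:ℂ) ^ k) 0 (by
        intro b hb; simp [hb])
      simpa using this
    exact h1.unique h2
  have ha0 : 0 < ‖a 0‖ := (Real.exp_pos _).trans_le hC1
  set b : ℝ := β t with hbdef
  set T : ℝ := t + 2*s with hT
  have hbT : b ≤ β T := hm (by linarith)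
  have hbT2 : β T ≤ (5/4)*b := (hm (by linarith)).trans hgr
  have hqpow : ∀ n m : ℕ, n ≤ m → q^n ≤ q^m := fun n m h => pow_le_pow_right₀ hq1' h
  have hb0 : 0 < b := by rw [hb]; positivity
  -- η₁
  set η1 : ℝ := 2 * Real.exp (-β T) / ε with hη1
  have hη1pos : 0 < η1 := by positivity
  have hη1s : η1 ≤ s/2 := by
    have h1 : Real.exp (-β T) ≤ 1/q^16 := by
      rw [one_div, Real.exp_neg]
      apply inv_anti₀ (by positivity)
      have := Real.add_one_le_exp (β T)
      linarith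
    have h2 : η1 ≤ 2 * (1/q^16) / ε := by rw [hη1]; gcongr
    have h3 : 2 * (1/q^16) / ε = (4/ε) * (1/q^16)/2 := by ring
    have h4 : (4/ε) * (1/q^16)/2 ≤ q * (1/q^16)/2 := by gcongr
    have h5 : q * (1/q^16)/2 = (1/q) * (1/q^14)/2 := by field_simp
    have h6 : (1/q^14) ≤ 1 := by
      rw [div_le_one (by positivity)]
      exact one_le_pow₀ hq1'
    have h7 : (1/q) * (1/q^14)/2 ≤ (1/q)*1/2 := by gcongr
    linarith
  -- j
  have h00 : Real.exp (-β T) ≤ ‖a 0‖ := by
    rw [← hf0]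
    exact hβ T 0 (by rw [norm_zero]; exact (Real.exp_pos _).le)
  obtain ⟨j, hj1, hj2⟩ := exists_j hf (T := T) (β := β T) h00
  have haj : 0 < ‖a j‖ := by
    by_contra hcon
    have : ‖a j‖ = 0 := le_antisymm (not_lt.mp hcon) (norm_nonneg _)
    rw [this, zero_mul] at hj1
    linarith [Real.exp_pos (-β T)]
  have hroot : ∀ w : ℂ, ∑ k ∈ Finset.range (j+1), a k * w^k = 0 → Real.exp (T - η1) ≤ ‖w‖ := by
    intro w hw
    by_contra hcon
    push Not at hcon
    have h1 := tail_bound hf hj2 hη1pos hcon.le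
    rw [hw, sub_zero] at h1
    have h2 := hZ w j hw
    have h3 : Real.exp (-(j*η1)) ≤ 1 := by
      rw [Real.exp_le_one_iff]
      have : (0:ℝ) ≤ j * η1 := by positivity
      linarith
    have h4 : Real.exp (-β T) * Real.exp (-(j*η1)) / η1 ≤ Real.exp (-β T) * 1 / η1 := by gcongr
    have h5 : Real.exp (-β T) * 1 / η1 = ε/2 := by
      rw [hη1]; field_simp
    linarith
  have hρpos : 0 < Real.exp (T - η1) := Real.exp_pos _
  have hPB := poly_bounds hρpos a j (norm_pos_iff.mp haj) hroot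
  -- lower bound for j
  have hjq : q^15 ≤ j * q := by
    obtain ⟨zt, hzt, hfzt⟩ := hβe t
    have h1 := tail_bound hf hj2 (y := 2*s) (by positivity) (z := zt) (by
      rw [hzt]; apply Real.exp_le_exp.mpr; rw [hT]; linarith)
    have h2 := (hPB zt).2.2 (by rw [hzt]; apply Real.exp_le_exp.mpr; rw [hT]; linarith)
    have h3 : Real.exp (-β T) * Real.exp (-(j*(2*s))) / (2*s) ≤ Real.exp (-b) * (q/2) := by
      have e1 : Real.exp (-β T) ≤ Real.exp (-b) := Real.exp_le_exp.mpr (by linarith)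
      have e2 : Real.exp (-(j*(2*s))) ≤ 1 := by
        rw [Real.exp_le_one_iff]
        have : (0:ℝ) ≤ j * (2*s) := by positivity
        linarith
      have e3 : 1/(2*s) ≤ q/2 := by
        rw [div_le_div_iff₀ (by positivity) (by norm_num)]
        rw [div_le_iff₀ hq0] at hsq
        linarith
      calc Real.exp (-β T) * Real.exp (-(j*(2*s))) / (2*s)
          = Real.exp (-β T) * Real.exp (-(j*(2*s))) * (1/(2*s)) := by ring
        _ ≤ Real.exp (-b) * 1 * (q/2) := by gcongr
        _ = _ := by ring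
    have h4 : ‖∑ k ∈ Finset.range (j+1), a k * zt^k‖ ≤ Real.exp (-b) * Real.exp (q/2) := by
      have e1 : ‖∑ k ∈ Finset.range (j+1), a k * zt^k‖ ≤
          ‖f zt‖ + ‖f zt - ∑ k ∈ Finset.range (j+1), a k * zt^k‖ := by
        have := norm_sub_norm_le (∑ k ∈ Finset.range (j+1), a k * zt^k) (f zt)
        rw [norm_sub_rev] at this
        linarith
      have e2 := Real.add_one_le_exp (q/2)
      rw [hfzt] at e1
      have e3 : Real.exp (-b) * (q/2 + 1) ≤ Real.exp (-b) * Real.exp (q/2) := by gcongr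
      rw [← hbdef] at e1
      nlinarith
    have h5 : Real.exp (-q) ≤ 1 - ‖zt‖ / Real.exp (T - η1) := by
      rw [hzt, ← Real.exp_sub]
      have e1 : Real.exp (t - (T - η1)) ≤ Real.exp (-s) := by
        apply Real.exp_le_exp.mpr; rw [hT]; linarith
      have e2 : Real.exp (-s) ≤ 1 - s/2 := by
        have h6 : Real.exp (-s) * Real.exp s = 1 := by rw [← Real.exp_add]; simp
        have h7 := Real.add_one_le_exp s
        have h8 : 0 < Real.exp (-s) := Real.exp_pos _
        nlinarith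
      have e3 : Real.exp (-q) ≤ s/2 := by
        have h6 := Real.quadratic_le_exp_of_nonneg hq0.le
        rw [Real.exp_neg]
        have h7 : 2*q ≤ Real.exp q := by nlinarith
        calc (Real.exp q)⁻¹ ≤ (2*q)⁻¹ := inv_anti₀ (by positivity) h7
          _ = (1/q)/2 := by field_simp
          _ ≤ s/2 := by linarith
      linarith
    have h6 : Real.exp (-C) * Real.exp (-q)^j ≤ Real.exp (-b) * Real.exp (q/2) := by
      calc Real.exp (-C) * Real.exp (-q)^j ≤ ‖a 0‖ * (1 - ‖zt‖ / Real.exp (T - η1))^j := by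
            gcongr
        _ ≤ _ := h2.trans h4
    rw [← Real.exp_nat_mul, ← Real.exp_add, ← Real.exp_add, Real.exp_le_exp] at h6
    have h7 : q^16 = q * q^15 := by ring
    have h8 : q ≤ q^15 := by simpa using hqpow 1 15 (by norm_num)
    rw [hb] at h6
    nlinarith
  have hj14 : q^14 ≤ (j:ℝ) := by
    have h1 : q^15 = q^14 * q := by ring
    rw [h1] at hjq
    exact le_of_mul_le_mul_right hjq hq0
  have hjR : (0:ℝ) < j := lt_of_lt_of_le (by positivity) hj14
  have hjN : 0 < j := by exact_mod_cast hjR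
  -- τ
  obtain ⟨τ, hτT, hτ1, hτ2⟩ := exists_tau hm haj hjN (η := 1/j) (by positivity) hj1
  -- β τ ≥ q^12
  have hβτ : q^12 ≤ β τ := by
    by_cases hR : T - τ ≤ s
    · have : b ≤ β τ := hm (by rw [hT] at hR; linarith)
      rw [hb] at this
      exact (hqpow 12 16 (by norm_num)).trans this
    · push Not at hR
      have h1 := (hPB 0).1
      rw [← Real.exp_nat_mul] at h1
      have h2 : Real.exp (-β τ) * Real.exp (j * (T - η1 - τ)) ≤ Real.exp C := by
        calc Real.exp (-β τ) * Real.exp (j * (T - η1 - τ))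
            ≤ (‖a j‖ * Real.exp (j*τ)) * Real.exp (j * (T - η1 - τ)) := by gcongr
          _ = ‖a j‖ * Real.exp (j * (T - η1)) := by
              rw [mul_assoc, ← Real.exp_add]; congr 2; ring
          _ ≤ _ := h1.trans hC2
      rw [← Real.exp_add, Real.exp_le_exp] at h2
      have h3 : 1/(2*q) ≤ T - η1 - τ := by
        have : 1/(2*q) = (1/q)/2 := by field_simp
        rw [this]; linarith
      have h4 : q^13 / 2 ≤ j * (T - η1 - τ) := by
        calc q^13/2 = q^14 * (1/(2*q)) := by field_simp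
          _ ≤ _ := by gcongr
      have h5 : q^13 = q * q^12 := by ring
      have h6 : q ≤ q^12 := by simpa using hqpow 1 12 (by norm_num)
      have h7 : 4 * q^12 ≤ q * q^12 := by gcongr; linarith
      linarith
  have hβτ0 : 0 ≤ β τ := le_trans (by positivity) hβτ
  have hβτpos : 0 < β τ := lt_of_lt_of_le (by positivity) hβτ
  have hβτb : β τ ≤ (5/4)*b := (hm hτT).trans hbT2
  obtain ⟨zτ, hzτ, hfzτ⟩ := hβe τ
  have hzτ0 : zτ ≠ 0 := by
    intro h; rw [h, norm_zero] at hzτ; linarith [Real.exp_pos τ]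
  set c : ℂ := Complex.log zτ with hc
  have hcexp : Complex.exp c = zτ := Complex.exp_log hzτ0
  have hcre : c.re = τ := by
    rw [hc, Complex.log_re, hzτ, Real.log_exp]
  set R : ℝ := T - τ with hR
  have hR0 : 0 ≤ R := by linarith
  have hVL := V_lower hfd hne hβ hm (τ := τ) (ϱ := R + 2*s) (M := (5/4)*b) (c := c)
    (by positivity) (by positivity) (by
      have : τ + (R + 2*s) = t + 4*s := by rw [hR, hT]; ring
      rw [this]; exact hgr) hβτ0 hcre (by rw [hcexp]; exact hfzτ)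
  set r : ℝ := (R + 2*s) * β τ / (80 * b) with hr
  have hr0 : 0 < r := by positivity
  have h8r : (R + 2*s) * β τ / (8 * ((5/4)*b)) = 8*r := by
    rw [hr]; field_simp; norm_num
  rw [h8r] at hVL
  have h8rle : 8*r ≤ (R + 2*s)/8 := by
    rw [hr]
    have : 8 * ((R + 2*s) * β τ / (80 * b)) = (R + 2*s) * (β τ / (10 * b)) := by field_simp; norm_num
    rw [this]
    have h1 : β τ / (10*b) ≤ 1/8 := by
      rw [div_le_div_iff₀ (by positivity) (by norm_num)]
      linarith
    calc _ ≤ (R + 2*s) * (1/8) := by gcongr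
      _ = _ := by ring
  -- f small on the ball
  have hfsmall : ∀ z ∈ ball c (8*r), ‖f (Complex.exp z)‖ < ε := by
    intro z hz
    refine (hVL z hz).trans_lt (lt_of_le_of_lt ?_ hqε2)
    apply Real.exp_le_exp.mpr
    have h6 : q ≤ q^12 := by simpa using hqpow 1 12 (by norm_num)
    linarith
  -- X
  set X : ℝ := j * r with hX
  have hrlow : 1/(40*q^5) ≤ r := by
    rw [hr, hb]
    have h1 : (2/q) * q^12 / (80*q^16) ≤ (R + 2*s) * β τ / (80 * q^16) := by
      have e1 : 2/q ≤ R + 2*s := by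
        have : 2/q = 2*(1/q) := by ring
        rw [this]; linarith
      gcongr
    refine le_trans (le_of_eq ?_) h1
    field_simp; norm_num
  have hXq : q^8 ≤ X := by
    have h1 : q^14 * (1/(40*q^5)) ≤ j * r := by gcongr
    have h2 : q^14 * (1/(40*q^5)) = q^8 * (q/40) := by field_simp
    have h3 : q^8 * 1 ≤ q^8 * (q/40) := by gcongr; linarith
    linarith
  have hX6 : 10^6 ≤ X := by
    have : q ≤ q^8 := by simpa using hqpow 1 8 (by norm_num)
    linarith
  have hX0 : 0 < X := by linarith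
  have hqX : q ≤ X := by
    have : q ≤ q^8 := by simpa using hqpow 1 8 (by norm_num)
    linarith
  have hjX : (j:ℝ) ≤ X^2 := by
    have h1 : (j:ℝ) * (1/(40*q^5)) ≤ X := by rw [hX]; gcongr
    have h2 : (j:ℝ) ≤ X * (40*q^5) := by
      rw [mul_one_div, div_le_iff₀ (by positivity)] at h1
      exact h1
    have h3 : 40*q^5 ≤ X := by
      refine le_trans ?_ hXq
      have : q^8 = q^3 * q^5 := by ring
      rw [this]
      have h4 : q ≤ q^3 := by simpa using hqpow 1 3 (by norm_num)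
      gcongr; linarith
    calc (j:ℝ) ≤ X * (40*q^5) := h2
      _ ≤ X * X := by gcongr
      _ = X^2 := by ring
  have hbX : b ≤ X^2 := by
    rw [hb]
    calc q^16 = (q^8)^2 := by ring
      _ ≤ X^2 := by gcongr
  have hrX : 1/r ≤ X := by
    have : 1/r = j/X := by rw [hX]; field_simp
    rw [this, div_le_iff₀ hX0]
    nlinarith
  -- bounds
  have hre_lt : ∀ z ∈ ball c (8*r), z.re < τ + 8*r := by
    intro z hz
    rw [mem_ball, dist_eq_norm] at hz
    have := (abs_le.mp (Complex.abs_re_le_norm (z - c))).2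
    rw [Complex.sub_re, hcre] at this
    linarith
  have hfinv : ∀ z ∈ ball c (8*r), ‖(f (Complex.exp z))⁻¹‖ ≤ Real.exp ((5/4)*b) := by
    intro z hz
    have h1 := hre_lt z hz
    have h2 := hβ (t + 4*s) (Complex.exp z) (by
      rw [Complex.norm_exp]; apply Real.exp_le_exp.mpr
      rw [hR, hT] at h8rle
      linarith)
    rw [norm_inv]
    have h3 : Real.exp (-((5/4)*b)) ≤ ‖f (Complex.exp z)‖ :=
      (Real.exp_le_exp.mpr (by linarith)).trans h2
    rw [Real.exp_neg] at h3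
    exact inv_le_of_inv_le₀ (Real.exp_pos _) h3
  have hxT : ∀ z ∈ ball c (8*r), z.re - (T - η1) ≤ 1 := by
    intro z hz
    have h1 := hre_lt z hz
    rw [hR] at h8rle
    linarith
  have hajz : ∀ z : ℂ, ‖a j * (Complex.exp z)^j‖ = ‖a j‖ * Real.exp (j * z.re) := by
    intro z
    rw [norm_mul, norm_pow, Complex.norm_exp, ← Real.exp_nat_mul]
  set A : ℝ := C + 2*j + 1 + (5/4)*b with hA
  have hA0 : 0 < A := by positivity
  have hAX : A ≤ 5*X^2 := by
    have h1 : C ≤ X := by linarith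
    have h2 : 10^6 * X ≤ X^2 := by nlinarith
    rw [hA]; nlinarith
  have hSj : ∀ z ∈ ball c (8*r), ‖∑ k ∈ Finset.range (j+1), a k * (Complex.exp z)^k‖ ≤
      Real.exp (C + 2*j) := by
    intro z hz
    have h1 := (hPB (Complex.exp z)).2.1
    rw [Complex.norm_exp, ← Real.exp_sub] at h1
    have h2 : 1 + Real.exp (z.re - (T - η1)) ≤ Real.exp 2 := by
      have e1 : Real.exp (z.re - (T - η1)) ≤ Real.exp 1 := Real.exp_le_exp.mpr (hxT z hz)
      have e2 : Real.exp 2 = Real.exp 1 * Real.exp 1 := by rw [← Real.exp_add]; norm_num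
      have e3 := Real.exp_one_gt_d9
      nlinarith
    calc _ ≤ ‖a 0‖ * (1 + Real.exp (z.re - (T - η1)))^j := h1
      _ ≤ Real.exp C * (Real.exp 2)^j := by gcongr
      _ = _ := by rw [← Real.exp_nat_mul, ← Real.exp_add]; congr 1; ring
  have hajz2 : ∀ z ∈ ball c (8*r), ‖a j * (Complex.exp z)^j‖ ≤ Real.exp (C + 2*j) := by
    intro z hz
    rw [hajz]
    have h1 := (hPB 0).1
    rw [← Real.exp_nat_mul] at h1
    calc ‖a j‖ * Real.exp (j * z.re) = (‖a j‖ * Real.exp (j * (T - η1))) * Real.exp (j * (z.re - (T - η1))) := by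
          rw [mul_assoc, ← Real.exp_add]; congr 2; ring
      _ ≤ Real.exp C * Real.exp (2 * j) := by
          have e1 : Real.exp (j * (z.re - (T - η1))) ≤ Real.exp (2*j) := by
            apply Real.exp_le_exp.mpr
            have := hxT z hz
            nlinarith
          have e2 := h1.trans hC2
          gcongr
      _ = _ := by rw [← Real.exp_add]
  -- the partial sum j-1
  obtain ⟨i, hi⟩ := Nat.exists_eq_succ_of_ne_zero hjN.ne'
  have hSS : ∀ z : ℂ, ∑ k ∈ Finset.range (j+1), a k * z^k = (∑ k ∈ Finset.range (i+1), a k * z^k) + a j * z^j := by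
    intro z
    rw [Finset.sum_range_succ, hi]
  set δ : ℝ := (2*X+3) * Real.exp (-(X/2)) with hδ
  obtain ⟨hE1, hE2⟩ := exp_ineq hX6
  have hδ14 : δ ≤ 1/4 := by
    have h1 : 1 ≤ Real.exp (3 * (X/12)) := Real.one_le_exp (by positivity)
    have h2 : 0 ≤ δ := by positivity
    nlinarith
  have hAE : (2*A+3) * Real.exp (-(X/12)) ≤ 1/8 := by
    refine le_trans ?_ hE2
    exact mul_le_mul_of_nonneg_right (by linarith) (Real.exp_pos _).le
  -- left bounds
  have hleft1 : ∀ z ∈ ball c (8*r), z.re < c.re - r/2 →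
      ‖(∑ k ∈ Finset.range (j+1), a k * (Complex.exp z)^k) / f (Complex.exp z) - 1‖ ≤
        2*X*Real.exp (-(X/2)) := by
    intro z hz hzl
    rw [hcre] at hzl
    have h1 := tail_bound hf hj2 (y := r/2) (by positivity) (z := Complex.exp z) (by
      rw [Complex.norm_exp]; apply Real.exp_le_exp.mpr; linarith)
    have h2 := hβ T (Complex.exp z) (by
      rw [Complex.norm_exp]; apply Real.exp_le_exp.mpr; linarith)
    have h3 : (∑ k ∈ Finset.range (j+1), a k * (Complex.exp z)^k) / f (Complex.exp z) - 1 =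
        -(f (Complex.exp z) - ∑ k ∈ Finset.range (j+1), a k * (Complex.exp z)^k) / f (Complex.exp z) := by
      have := hne (Complex.exp z)
      field_simp; ring
    rw [h3, norm_div, norm_neg, div_le_iff₀ (norm_pos_iff.mpr (hne _))]
    refine h1.trans ?_
    have h4 : Real.exp (-β T) * Real.exp (-(j*(r/2))) / (r/2) =
        (2 * (1/r) * Real.exp (-(X/2))) * Real.exp (-β T) := by
      have : (j:ℝ)*(r/2) = X/2 := by rw [hX]; ring
      rw [this]; field_simp
    rw [h4]
    gcongr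
  have hleft2 : ∀ z ∈ ball c (8*r), z.re < c.re - r/2 →
      ‖a j * (Complex.exp z)^j / f (Complex.exp z)‖ ≤ 3 * Real.exp (-(X/2)) := by
    intro z hz hzl
    rw [hcre] at hzl
    have h1 : z.re ≤ τ - 1/j := by
      have : 1/(j:ℝ) ≤ r/2 := by
        rw [div_le_iff₀ hjR]
        have : r/2*j = X/2 := by rw [hX]; ring
        rw [this]; linarith
      linarith
    have h2 := hτ2 z.re h1
    have h3 := hβ z.re (Complex.exp z) (by rw [Complex.norm_exp])
    rw [norm_div, hajz, div_le_iff₀ (norm_pos_iff.mpr (hne _))]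
    refine h2.trans ?_
    have h4 : Real.exp (-(j * (τ - 1/j - z.re))) ≤ 3 * Real.exp (-(X/2)) := by
      have e1 : -(j * (τ - 1/j - z.re)) ≤ 1 + (-(X/2)) := by
        have e2 : (j:ℝ) * (1/j) = 1 := by field_simp
        have e3 : j * (r/2) ≤ j * (τ - z.re) := by
          gcongr; linarith
        have e4 : (j:ℝ) * (r/2) = X/2 := by rw [hX]; ring
        nlinarith
      calc _ ≤ Real.exp (1 + (-(X/2))) := Real.exp_le_exp.mpr e1
        _ = Real.exp 1 * Real.exp (-(X/2)) := Real.exp_add _ _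
        _ ≤ _ := by
          have := Real.exp_one_lt_d9
          gcongr
          linarith
    calc _ ≤ ‖f (Complex.exp z)‖ * (3 * Real.exp (-(X/2))) := by gcongr
      _ = _ := by ring
  have hdiffS : ∀ n : ℕ, DifferentiableOn ℂ (fun z => (∑ k ∈ Finset.range (n+1), a k * (Complex.exp z)^k) / f (Complex.exp z)) (ball c (8*r)) := by
    intro n z hz
    have h1 : DifferentiableAt ℂ (fun z => f (Complex.exp z)) z :=
      (hfd.comp Complex.differentiable_exp) z
    have h2 : DifferentiableAt ℂ (fun z => ∑ k ∈ Finset.range (n+1), a k * (Complex.exp z)^k) z := by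
      fun_prop
    exact (h2.div h1 (hne _)).differentiableWithinAt
  have hnzS : ∀ n : ℕ, ∀ z ∈ ball c (8*r), (∑ k ∈ Finset.range (n+1), a k * (Complex.exp z)^k) / f (Complex.exp z) ≠ 0 := by
    intro n z hz
    refine div_ne_zero ?_ (hne _)
    intro h0
    have := hZ _ _ h0
    linarith [hfsmall z hz]
  -- apply core for j
  have hcore1 := core_local (c := c) (r := r) (A := A) (δ := δ) (lam := X/12)
    (h := fun z => (∑ k ∈ Finset.range (j+1), a k * (Complex.exp z)^k) / f (Complex.exp z))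
    hr0 hA0 hδ14 (by positivity) (hdiffS j) (hnzS j) (by
      intro z hz
      rw [div_eq_mul_inv, norm_mul]
      calc _ ≤ Real.exp (C + 2*j) * Real.exp ((5/4)*b) := by
            have e1 := hSj z hz
            have e2 := hfinv z hz
            gcongr
        _ = Real.exp (C + 2*j + (5/4)*b) := by rw [← Real.exp_add]
        _ ≤ _ := Real.exp_le_exp.mpr (by rw [hA]; linarith)) (by
      intro z hz hzl
      refine (hleft1 z hz hzl).trans ?_
      rw [hδ]; gcongr; linarith) hE1 hAE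
  have hcore2 := core_local (c := c) (r := r) (A := A) (δ := δ) (lam := X/12)
    (h := fun z => (∑ k ∈ Finset.range (i+1), a k * (Complex.exp z)^k) / f (Complex.exp z))
    hr0 hA0 hδ14 (by positivity) (hdiffS i) (hnzS i) (by
      intro z hz
      rw [div_eq_mul_inv, norm_mul]
      have e0 : ‖∑ k ∈ Finset.range (i+1), a k * (Complex.exp z)^k‖ ≤ 2 * Real.exp (C + 2*j) := by
        have e1 : ∑ k ∈ Finset.range (i+1), a k * (Complex.exp z)^k =
            (∑ k ∈ Finset.range (j+1), a k * (Complex.exp z)^k) - a j * (Complex.exp z)^j := by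
          rw [hSS]; ring
        rw [e1]
        refine (norm_sub_le _ _).trans ?_
        linarith [hSj z hz, hajz2 z hz]
      calc _ ≤ (2 * Real.exp (C + 2*j)) * Real.exp ((5/4)*b) := by
            have e2 := hfinv z hz
            gcongr
        _ ≤ (Real.exp 1 * Real.exp (C + 2*j)) * Real.exp ((5/4)*b) := by
            have e3 := Real.exp_one_gt_d9
            gcongr
            linarith
        _ = Real.exp (1 + (C + 2*j) + (5/4)*b) := by rw [← Real.exp_add, ← Real.exp_add]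
        _ ≤ _ := Real.exp_le_exp.mpr (by rw [hA]; linarith)) (by
      intro z hz hzl
      have e1 : (∑ k ∈ Finset.range (i+1), a k * (Complex.exp z)^k) / f (Complex.exp z) - 1 =
          ((∑ k ∈ Finset.range (j+1), a k * (Complex.exp z)^k) / f (Complex.exp z) - 1) -
            a j * (Complex.exp z)^j / f (Complex.exp z) := by
        rw [hSS]; ring
      rw [e1]
      refine (norm_sub_le _ _).trans ?_
      have := hleft1 z hz hzl
      have := hleft2 z hz hzl
      rw [hδ]; linarith) hE1 hAE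
  -- contradiction
  have hlast : (1:ℝ) ≤ ‖a j * (Complex.exp c)^j / f (Complex.exp c)‖ := by
    rw [norm_div, hajz, hcre, hcexp, hfzτ, le_div_iff₀ (Real.exp_pos _), one_mul]
    exact hτ1
  have hfin : a j * (Complex.exp c)^j / f (Complex.exp c) =
      ((∑ k ∈ Finset.range (j+1), a k * (Complex.exp c)^k) / f (Complex.exp c) - 1) -
      ((∑ k ∈ Finset.range (i+1), a k * (Complex.exp c)^k) / f (Complex.exp c) - 1) := by
    rw [hSS]; ring
  rw [hfin] at hlast
  have := hlast.trans (norm_sub_le _ _)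
  beta_reduce at hcore1 hcore2
  linarith

set_option maxHeartbeats 4000000 in
theorem final :
    ∀ (a : ℕ → ℂ) (f : ℂ → ℂ),
      (∀ z : ℂ, HasSum (fun k : ℕ => a k * z ^ k) (f z)) →
      (∀ z : ℂ, f z ≠ 0) →
      (∃ z w : ℂ, f z ≠ f w) →
      ∀ ε : ℝ, 0 < ε →
        ∃ z₀ : ℂ, ∃ n : ℕ,
          (∑ k ∈ Finset.range (n + 1), a k * z₀ ^ k) = 0 ∧ ‖f z₀‖ < ε := by
  intro a f hf hne hnc ε hε
  by_contra hcon
  push Not at hcon
  have hfd : Differentiable ℂ f := differentiable_of_hasSum hf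
  obtain ⟨β, hβ, hβe, hm, hub⟩ := exists_beta hfd hne hnc
  have hf0 : f 0 = a 0 := by
    have h1 := hf 0
    have h2 : HasSum (fun k : ℕ => a k * (0:ℂ) ^ k) (a 0) := by
      have := hasSum_single (f := fun k : ℕ => a k * (0:ℂ) ^ k) 0 (by
        intro b hb; simp [hb])
      simpa using this
    exact h1.unique h2
  have ha0 : 0 < ‖a 0‖ := by rw [← hf0]; exact norm_pos_iff.mpr (hne 0)
  obtain ⟨C, hC⟩ : ∃ C : ℝ, C = |Real.log ‖a 0‖| := ⟨_, rfl⟩
  obtain ⟨q0, hq0⟩ : ∃ q0 : ℝ, q0 = 2*10^7 + 2*C + 4/ε + 2*|Real.log ε| := ⟨_, rfl⟩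
  have h4ε : 0 < 4/ε := by positivity
  have hC0 : 0 ≤ C := by rw [hC]; exact abs_nonneg _
  have hLε : 0 ≤ |Real.log ε| := abs_nonneg _
  have hq0pos : 0 < q0 := by rw [hq0]; positivity
  obtain ⟨t, ht1, ht2⟩ := growth hm hub (q0^16)
  obtain ⟨b, hb⟩ : ∃ b : ℝ, b = β t := ⟨_, rfl⟩
  rw [← hb] at ht1 ht2
  have hb0 : 0 < b := lt_of_lt_of_le (by positivity) ht1
  obtain ⟨u, hu⟩ : ∃ u : ℝ, u = Real.exp (Real.log b / 64) := ⟨_, rfl⟩
  have hu64 : u^64 = b := by
    rw [hu, ← Real.exp_nat_mul]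
    have : ((64:ℕ):ℝ) * (Real.log b / 64) = Real.log b := by push_cast; ring
    rw [this, Real.exp_log hb0]
  have hu0 : 0 < u := by rw [hu]; exact Real.exp_pos _
  obtain ⟨q, hq⟩ : ∃ q : ℝ, q = u^4 := ⟨_, rfl⟩
  have hq16 : q^16 = b := by rw [hq, ← pow_mul]; exact hu64
  have hq0' : 0 < q := by rw [hq]; positivity
  have hqq0 : q0 ≤ q := by
    by_contra hc
    push Not at hc
    have : q^16 < q0^16 := by gcongr
    rw [hq16] at this
    linarith
  have hu64' : 64 ≤ u := by
    by_contra hc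
    push Not at hc
    have h1 : u^4 < 64^4 := by gcongr
    have : (64:ℝ)^4 ≤ 2*10^7 := by norm_num
    rw [← hq] at h1
    linarith
  have hlogb : Real.log b = 64 * Real.log u := by
    rw [hu, Real.log_exp]; ring
  have hlogu : Real.log u ≤ u := by
    have := Real.log_le_sub_one_of_pos hu0
    linarith
  have hlogu0 : 0 < Real.log u := Real.log_pos (by linarith)
  obtain ⟨s, hs⟩ : ∃ s : ℝ, s = ((Real.log b)^2)⁻¹ := ⟨_, rfl⟩
  rw [← hs] at ht2
  have hlogb1 : 1 ≤ Real.log b := by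
    rw [hlogb]
    have : (1:ℝ) ≤ Real.log u := by
      rw [Real.le_log_iff_exp_le hu0]
      have := Real.exp_one_lt_d9
      linarith
    linarith
  have hs0 : 0 < s := by rw [hs]; positivity
  have hs1 : s ≤ 1 := by
    rw [hs]
    exact inv_le_one_of_one_le₀ (one_le_pow₀ hlogb1)
  have hsq : 1/q ≤ s := by
    rw [hs, one_div]
    apply inv_anti₀ (by positivity)
    rw [hlogb, hq]
    have h1 : (64 * Real.log u)^2 ≤ (64 * u)^2 := by gcongr
    have h2 : (64*u)^2 ≤ u^4 := by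
      have : (64*u)^2 = 64^2 * u^2 := by ring
      rw [this]
      have : u^4 = u^2 * u^2 := by ring
      rw [this]
      gcongr
    exact h1.trans h2
  refine main_contra (a := a) (f := f) hf hne hε (fun z n h => hcon z n h) hβ hβe hm
    (t := t) (s := s) (q := q) (C := C) hs0 hs1 hC0 ?_ ?_ ?_ ?_ ?_ ?_ hsq (by rw [← hb, hq16]) (by rw [← hb]; exact ht2)
  · have h1 : Real.exp (-C) ≤ Real.exp (Real.log ‖a 0‖) := by
      apply Real.exp_le_exp.mpr
      have := neg_abs_le (Real.log ‖a 0‖)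
      rw [← hC] at this
      exact this
    rw [Real.exp_log ha0] at h1
    exact h1
  · have h1 : Real.exp (Real.log ‖a 0‖) ≤ Real.exp C := by
      apply Real.exp_le_exp.mpr
      have := le_abs_self (Real.log ‖a 0‖)
      rw [← hC] at this
      exact this
    rw [Real.exp_log ha0] at h1
    exact h1
  · linarith
  · linarith
  · linarith
  · rw [← Real.exp_log hε]
    apply Real.exp_lt_exp.mpr
    have := neg_abs_le (Real.log ε)
    linarith

/-- If f(z)=Σ a_k z^k converges everywhere, never vanishes and is nonconstant, then for every ε>0 some partial sum Σ_{k≤n} a_k z^k vanishes at a point z₀ where ∣f(z₀)∣<ε. -/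
theorem result :
    ∀ (a : ℕ → ℂ) (f : ℂ → ℂ),
      (∀ z : ℂ, HasSum (fun k : ℕ => a k * z ^ k) (f z)) →
      (∀ z : ℂ, f z ≠ 0) →
      (∃ z w : ℂ, f z ≠ f w) →
      ∀ ε : ℝ, 0 < ε →
        ∃ z₀ : ℂ, ∃ n : ℕ,
          (∑ k ∈ Finset.range (n + 1), a k * z₀ ^ k) = 0 ∧ ‖f z₀‖ < ε := by
  exact final

end Pool.Agent.S03209
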