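import Pool.Statements.S03219
import Pool.Agent.Helper420.QI.Fin

set_option autoImplicit false
open MeasureTheory Filter Topology
open Pool Pool.MP_5de7bf_an

namespace Pool.Agent.S03219

/-- For bounded open Ω in ℝ^N (N≥2) and 2<q<2*, there is ε>0 such that every critical value of ∫∣∇u∣² on the unit L^q-sphere of H^1_0(Ω) lying below λ₁+ε equals λ₁, where λ₁ is the constrained minimum. -/
theorem result :
  ∀ (N : ℕ), 2 ≤ N → ∀ (Ω : Set (EuclideanSpace ℝ (Fin N))), IsOpen Ω → Bornology.IsBounded Ω →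
  ∀ (q : ℝ), 2 < q → ((N : ℝ) - 2) * q < 2 * (N : ℝ) →
  ∀ (l1 : ℝ), l1 = sInf {t : ℝ | ∃ (u : EuclideanSpace ℝ (Fin N) → ℝ)
        (G : EuclideanSpace ℝ (Fin N) → EuclideanSpace ℝ (Fin N)),
        (MemLp u 2 volume ∧ MemLp G 2 volume ∧
          ∃ φ : ℕ → EuclideanSpace ℝ (Fin N) → ℝ,
            (∀ n, ContDiff ℝ (⊤ : ℕ∞) (φ n) ∧ HasCompactSupport (φ n) ∧ tsupport (φ n) ⊆ Ω) ∧
            Tendsto (fun n => eLpNorm (fun x => φ n x - u x) 2 volume) atTop (𝓝 0) ∧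
            Tendsto (fun n => eLpNorm (fun x => gradient (φ n) x - G x) 2 volume) atTop (𝓝 0)) ∧
        eLpNorm u (ENNReal.ofReal q) volume = 1 ∧
        t = ∫ x, ‖G x‖ ^ 2} →
  ∃ ε : ℝ, 0 < ε ∧
    ∀ (u : EuclideanSpace ℝ (Fin N) → ℝ)
      (G : EuclideanSpace ℝ (Fin N) → EuclideanSpace ℝ (Fin N)),
      (MemLp u 2 volume ∧ MemLp G 2 volume ∧
        ∃ φ : ℕ → EuclideanSpace ℝ (Fin N) → ℝ,
          (∀ n, ContDiff ℝ (⊤ : ℕ∞) (φ n) ∧ HasCompactSupport (φ n) ∧ tsupport (φ n) ⊆ Ω) ∧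
          Tendsto (fun n => eLpNorm (fun x => φ n x - u x) 2 volume) atTop (𝓝 0) ∧
          Tendsto (fun n => eLpNorm (fun x => gradient (φ n) x - G x) 2 volume) atTop (𝓝 0)) →
      eLpNorm u (ENNReal.ofReal q) volume = 1 →
      (∀ ψ : EuclideanSpace ℝ (Fin N) → ℝ, ContDiff ℝ (⊤ : ℕ∞) ψ → HasCompactSupport ψ →
        tsupport ψ ⊆ Ω →
        ∫ x, inner ℝ (G x) (gradient ψ x) =
          (∫ x, ‖G x‖ ^ 2) * ∫ x, |u x| ^ (q - 2) * u x * ψ x) →
      (∫ x, ‖G x‖ ^ 2) < l1 + ε →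
      (∫ x, ‖G x‖ ^ 2) = l1 := by
  intro N hN Ω hΩ hb q hq hq' l1 hl1
  have hfin : IsFiniteMeasure ((volume : Measure (EuclideanSpace ℝ (Fin N))).restrict Ω) :=
    ⟨by rw [Measure.restrict_apply_univ]; exact hb.measure_lt_top⟩
  obtain ⟨H, i1, i2, i3, J, D, r, hD, habs, hiff, hdense⟩ :=
    Pool.Agent.Helper420.QI.Conc.exists_dir hN hΩ hb hq hq'
  -- norms
  have hnormD : ∀ (w : H) (G : EuclideanSpace ℝ (Fin N) → EuclideanSpace ℝ (Fin N)),
      G =ᵐ[volume] D w → ∫ x, ‖G x‖ ^ 2 = ‖w‖ ^ 2 := by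
    intro w G hG
    rw [← D.norm_map w, ← real_inner_self_eq_norm_sq, L2.inner_def]
    apply integral_congr_ae
    filter_upwards [hG] with x hx
    rw [hx, real_inner_self_eq_norm_sq]
  have hnormq : ∀ (w : H) (u : EuclideanSpace ℝ (Fin N) → ℝ),
      u =ᵐ[volume.restrict Ωᶜ] 0 → u =ᵐ[volume.restrict Ω] J w →
      eLpNorm u (ENNReal.ofReal q) volume = eLpNorm (J w) (ENNReal.ofReal q) (volume.restrict Ω) := by
    intro w u h0 h1
    rw [← eLpNorm_congr_ae h1, ← eLpNorm_indicator_eq_eLpNorm_restrict hΩ.measurableSet]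
    apply eLpNorm_congr_ae
    rw [Filter.EventuallyEq, ae_restrict_iff' hΩ.measurableSet.compl] at h0
    filter_upwards [h0] with x hx
    by_cases hxΩ : x ∈ Ω
    · rw [Set.indicator_of_mem hxΩ]
    · rw [Set.indicator_of_notMem hxΩ]
      exact hx hxΩ
  have hset : {t : ℝ | ∃ (u : EuclideanSpace ℝ (Fin N) → ℝ)
        (G : EuclideanSpace ℝ (Fin N) → EuclideanSpace ℝ (Fin N)),
        (MemLp u 2 volume ∧ MemLp G 2 volume ∧
          ∃ φ : ℕ → EuclideanSpace ℝ (Fin N) → ℝ,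
            (∀ n, ContDiff ℝ (⊤ : ℕ∞) (φ n) ∧ HasCompactSupport (φ n) ∧ tsupport (φ n) ⊆ Ω) ∧
            Tendsto (fun n => eLpNorm (fun x => φ n x - u x) 2 volume) atTop (𝓝 0) ∧
            Tendsto (fun n => eLpNorm (fun x => gradient (φ n) x - G x) 2 volume) atTop (𝓝 0)) ∧
        eLpNorm u (ENNReal.ofReal q) volume = 1 ∧
        t = ∫ x, ‖G x‖ ^ 2} =
      {t : ℝ | ∃ w : H, eLpNorm (J w) (ENNReal.ofReal q) (volume.restrict Ω) = 1 ∧ t = ‖w‖ ^ 2} := by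
    ext t
    constructor
    · rintro ⟨u, G, h1, h2, h3⟩
      obtain ⟨hu0, w, huw, hGw⟩ := (hiff u G).mp h1
      refine ⟨w, ?_, ?_⟩
      · rw [← hnormq w u hu0 huw, h2]
      · rw [h3, hnormD w G hGw]
    · rintro ⟨w, h1, h2⟩
      have hu0 : Set.indicator Ω (J w) =ᵐ[volume.restrict Ωᶜ] 0 := by
        rw [Filter.EventuallyEq, ae_restrict_iff' hΩ.measurableSet.compl]
        exact Eventually.of_forall fun x hx => Set.indicator_of_notMem hx _
      have huw : Set.indicator Ω (J w) =ᵐ[volume.restrict Ω] J w := by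
        rw [Filter.EventuallyEq, ae_restrict_iff' hΩ.measurableSet]
        exact Eventually.of_forall fun x hx => Set.indicator_of_mem hx _
      refine ⟨Set.indicator Ω (J w), D w,
        (hiff _ _).mpr ⟨hu0, w, huw, Filter.EventuallyEq.rfl⟩, ?_, ?_⟩
      · rw [hnormq w _ hu0 huw, h1]
      · rw [h2, hnormD w _ Filter.EventuallyEq.rfl]
  rw [hset] at hl1
  obtain ⟨ε, hε, hmain⟩ := Pool.Agent.Helper420.QI.V1.isolated hD habs hl1
  refine ⟨ε, hε, fun u G hmem hu1 hcrit hlt => ?_⟩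
  obtain ⟨hu0, w, huw, hGw⟩ := (hiff u G).mp hmem
  rw [hnormD w G hGw] at hlt hcrit ⊢
  apply hmain w (by rw [← hnormq w u hu0 huw, hu1]) _ hlt
  intro φ
  refine Pool.Agent.Helper420.QI.Fin.extend_eq hD w (‖w‖ ^ 2)
    {h : H | ∃ ψ : EuclideanSpace ℝ (Fin N) → ℝ, (ContDiff ℝ (⊤ : ℕ∞) ψ ∧ HasCompactSupport ψ ∧
      tsupport ψ ⊆ Ω) ∧ J h =ᵐ[volume.restrict Ω] ψ ∧ D h =ᵐ[volume] gradient ψ} ?_ ?_ φ
  · intro v ε' hε'
    obtain ⟨ψ, h, h1, h2, h3, h4⟩ := hdense v ε' hε'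
    exact ⟨h, ⟨ψ, h1, h2, h3⟩, h4⟩
  · rintro h ⟨ψ, ⟨h1, h2, h3⟩, h4, h5⟩
    have h6 := hcrit ψ h1 h2 h3
    have h7 : ∫ x, inner ℝ (G x) (gradient ψ x) = inner ℝ w h := by
      rw [← D.inner_map_map w h, L2.inner_def]
      apply integral_congr_ae
      filter_upwards [hGw, h5] with x e1 e2
      rw [e1, e2]
    rw [h7] at h6
    rw [h6]
    congr 1
    have h8 : ∫ x, |u x| ^ (q - 2) * u x * ψ x = ∫ x in Ω, |u x| ^ (q - 2) * u x * ψ x := by
      rw [← integral_indicator hΩ.measurableSet]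
      congr 1
      ext x
      by_cases hx : x ∈ Ω
      · rw [Set.indicator_of_mem hx]
      · rw [Set.indicator_of_notMem hx]
        have : ψ x = 0 := by
          by_contra hne
          exact hx (h3 (subset_tsupport _ hne))
        rw [this, mul_zero]
    rw [h8]
    apply integral_congr_ae
    filter_upwards [huw, h4] with x e1 e2
    rw [e1, e2]

end Pool.Agent.S03219
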