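import Pool.Statements.S03226
-- import your own Pool.Agent.* helpers here

set_option autoImplicit false
open Pool Pool.MP_5e6479_an

namespace Pool.Agent.S03226

open Metric Filter Topology

/-- A Harnack inequality for `log |h|` when `h` is bounded below on a disc. -/
lemma harnack {h : ℂ → ℂ} {c : ℂ} {R δ : ℝ} (hR : 0 < R) (hδ : 0 < δ) (hd : Differentiable ℂ h)
    (hlow : ∀ z ∈ ball c R, δ ≤ ‖h z‖) {z : ℂ} (hz : z ∈ ball c R) :
    Real.log (‖h z‖ / δ) ≤ Real.log (‖h c‖ / δ) * ((R + ‖z - c‖) / (R - ‖z - c‖)) := by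
  have hne : ∀ w ∈ ball c R, h w ≠ 0 := fun w hw h0 => by
    have := hlow w hw
    rw [h0, norm_zero] at this
    linarith
  have hcc : c ∈ ball c R := mem_ball_self hR
  have hdd : DifferentiableOn ℂ (fun w => deriv h w / h w) (ball c R) :=
    (hd.deriv).differentiableOn.div hd.differentiableOn hne
  obtain ⟨g, hgc, hg⟩ := (hdd.isExactOn_ball).with_val_at c ((Real.log (‖h c‖ / δ) : ℝ) : ℂ)
  have hconst : ∀ w ∈ ball c R, h w * Complex.exp (-g w) = h c * Complex.exp (-g c) := by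
    intro w hw
    have hder : ∀ x ∈ ball c R, HasDerivAt (fun y => h y * Complex.exp (-g y)) 0 x := by
      intro x hx
      have h1 := (hd x).hasDerivAt
      have h2 := (hg x hx).neg.cexp
      have h3 := h1.mul h2
      refine h3.congr_deriv ?_
      have := hne x hx
      field_simp
      ring
    exact IsOpen.is_const_of_deriv_eq_zero isOpen_ball (convex_ball c R).isPreconnected
      (fun x hx => (hder x hx).differentiableAt.differentiableWithinAt)
      (fun x hx => (hder x hx).deriv) hw hcc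
  have hpos : ∀ w ∈ ball c R, 0 < ‖h w‖ := fun w hw => norm_pos_iff.2 (hne w hw)
  have hre : ∀ w ∈ ball c R, (g w).re = Real.log (‖h w‖ / δ) := by
    intro w hw
    have h1 := congrArg norm (hconst w hw)
    rw [norm_mul, norm_mul, Complex.norm_exp, Complex.norm_exp, Complex.neg_re, Complex.neg_re, hgc,
      Complex.ofReal_re, Real.exp_neg, Real.exp_neg, Real.exp_log (div_pos (hpos c hcc) hδ)] at h1
    have hc0 := (hpos c hcc).ne'
    have h2 : ‖h w‖ / δ = Real.exp (g w).re := by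
      have he := Real.exp_pos (g w).re
      field_simp at h1 ⊢
      linarith
    rw [h2, Real.log_exp]
  have hre0 : ∀ w ∈ ball c R, 0 ≤ (g w).re := by
    intro w hw
    rw [hre w hw]
    exact Real.log_nonneg ((one_le_div hδ).2 (hlow w hw))
  -- Borel-Caratheodory for `-g`
  have hzc : z - c ∈ ball (0 : ℂ) R := by
    rw [mem_ball_zero_iff]
    rwa [mem_ball_iff_norm] at hz
  have hshift : ∀ w ∈ ball (0 : ℂ) R, c + w ∈ ball c R := by
    intro w hw
    rw [mem_ball_iff_norm]
    simpa using hw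
  have hdiff : DifferentiableOn ℂ (fun w => -g (c + w)) (ball 0 R) := by
    intro w hw
    have h1 := (hg (c + w) (hshift w hw))
    have h2 : HasDerivAt (fun w => g (c + w)) (deriv h (c + w) / h (c + w)) w :=
      h1.comp_const_add c w
    exact h2.neg.differentiableAt.differentiableWithinAt
  have hBC : ∀ M : ℝ, 0 < M → ‖g z‖ ≤ 2 * M * ‖z - c‖ / (R - ‖z - c‖)
      + ‖g c‖ * (R + ‖z - c‖) / (R - ‖z - c‖) := by
    intro M hM
    have h1 := Complex.borelCaratheodory (f := fun w => -g (c + w)) hM hdiff ?_ hR hzc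
    · simpa using h1
    · intro w hw
      have := hre0 _ (hshift w hw)
      simp only [Set.mem_ofPred_eq, Complex.neg_re]
      linarith
  have hlim : ‖g z‖ ≤ ‖g c‖ * (R + ‖z - c‖) / (R - ‖z - c‖) := by
    have ht : Tendsto (fun M : ℝ => 2 * M * ‖z - c‖ / (R - ‖z - c‖)
      + ‖g c‖ * (R + ‖z - c‖) / (R - ‖z - c‖)) (𝓝[>] 0)
      (𝓝 (2 * 0 * ‖z - c‖ / (R - ‖z - c‖) + ‖g c‖ * (R + ‖z - c‖) / (R - ‖z - c‖))) := by
      apply tendsto_nhdsWithin_of_tendsto_nhds
      apply Continuous.tendsto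
      fun_prop
    have := ge_of_tendsto ht (eventually_nhdsWithin_of_forall fun M hM => hBC M hM)
    simpa using this
  have hgcn : ‖g c‖ = Real.log (‖h c‖ / δ) := by
    rw [hgc, Complex.norm_real, Real.norm_eq_abs, abs_of_nonneg]
    exact Real.log_nonneg ((one_le_div hδ).2 (hlow c hcc))
  rw [← hre z hz, ← hgcn, ← mul_div_assoc]
  exact ((Complex.re_le_norm _).trans hlim)

/-- The closed set: the closed left half-plane and all horizontal lines at integer height. -/
def bad : Set ℂ := {z : ℂ | z.re ≤ 0} ∪ {z : ℂ | ∃ n : ℤ, z.im = n}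

lemma isClosed_bad : IsClosed bad := by
  refine IsClosed.union (isClosed_le Complex.continuous_re continuous_const) ?_
  have h1 : IsClosed (Set.range ((↑) : ℤ → ℝ)) := Int.isClosedEmbedding_coe_real.isClosed_range
  have h2 : {z : ℂ | ∃ n : ℤ, z.im = n} = Complex.im ⁻¹' (Set.range ((↑) : ℤ → ℝ)) := by
    ext z
    simp [eq_comm]
  rw [h2]
  exact h1.preimage Complex.continuous_im

lemma not_poly {f : ℂ → ℂ} (h0 : ∀ z, f z ≠ 0) {a b : ℂ} (hab : f a ≠ f b) :
    ¬ ∃ p : Polynomial ℂ, ∀ z, f z = p.eval z := by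
  rintro ⟨p, hp⟩
  by_cases hd : p.degree = 0
  · rw [Polynomial.eq_C_of_degree_eq_zero hd] at hp
    apply hab
    rw [hp a, hp b]
    simp
  · obtain ⟨z, hz⟩ := IsAlgClosed.exists_root p hd
    exact h0 z (by rw [hp z]; exact hz)

lemma low_half {h : ℂ → ℂ} (hd : Differentiable ℂ h) {δ : ℝ}
    (hlow : ∀ z ∉ bad, δ ≤ ‖h z‖) {z : ℂ} (hz : 0 < z.re) : δ ≤ ‖h z‖ := by
  by_cases hzb : z ∈ bad
  · rcases hzb with hzb | ⟨n, hn⟩
    · exact absurd hzb (not_le.2 hz)
    · have ht : Tendsto (fun t : ℝ => ‖h (z + (t : ℂ) * Complex.I)‖) (𝓝[>] 0)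
          (𝓝 (‖h (z + ((0 : ℝ) : ℂ) * Complex.I)‖)) := by
        apply tendsto_nhdsWithin_of_tendsto_nhds
        have hc := hd.continuous
        apply Continuous.tendsto
        fun_prop
      have hev : ∀ᶠ t : ℝ in 𝓝[>] 0, δ ≤ ‖h (z + (t : ℂ) * Complex.I)‖ := by
        have h1 : Set.Ioo (0 : ℝ) 1 ∈ 𝓝[>] (0 : ℝ) := Ioo_mem_nhdsGT one_pos
        filter_upwards [h1] with t ht
        apply hlow
        rintro (h2 | ⟨m, hm⟩)
        · simp only [Set.mem_ofPred_eq, Complex.add_re, Complex.mul_re, Complex.ofReal_re,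
            Complex.I_re, Complex.ofReal_im, Complex.I_im] at h2
          linarith
        · simp only [Complex.add_im, Complex.mul_im, Complex.ofReal_re,
            Complex.I_re, Complex.ofReal_im, Complex.I_im, hn] at hm
          have h3 : t = ((m - n : ℤ) : ℝ) := by push_cast; linarith
          rw [h3] at ht
          have h4 : (0 : ℤ) < m - n := by exact_mod_cast ht.1
          have h5 : m - n < (1 : ℤ) := by exact_mod_cast ht.2
          omega
      have := ge_of_tendsto ht hev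
      simpa using this
  · exact hlow z hzb

lemma step {h : ℂ → ℂ} (hd : Differentiable ℂ h) {δ : ℝ} (hδ : 0 < δ)
    (hlow : ∀ z : ℂ, 0 < z.re → δ ≤ ‖h z‖) {z : ℂ} (hz : 2 ≤ z.re) :
    Real.log (‖h (z + 1)‖ / δ) ≤ 3 * Real.log (‖h z‖ / δ) := by
  have h1 : ∀ w ∈ ball z 2, δ ≤ ‖h w‖ := by
    intro w hw
    apply hlow
    rw [mem_ball_iff_norm] at hw
    have h2 := (Complex.abs_re_le_norm (w - z)).trans_lt hw
    rw [Complex.sub_re, abs_lt] at h2
    linarith
  have h2 : z + 1 ∈ ball z 2 := by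
    rw [mem_ball_iff_norm]
    simp
  have h3 := harnack (by norm_num) hδ hd h1 h2
  have h4 : ‖z + 1 - z‖ = 1 := by simp
  rw [h4] at h3
  norm_num at h3
  linarith

lemma steps {h : ℂ → ℂ} (hd : Differentiable ℂ h) {δ : ℝ} (hδ : 0 < δ)
    (hlow : ∀ z : ℂ, 0 < z.re → δ ≤ ‖h z‖) {z : ℂ} (hz : 2 ≤ z.re) (k : ℕ) :
    Real.log (‖h (z + k)‖ / δ) ≤ 3 ^ k * Real.log (‖h z‖ / δ) := by
  induction k with
  | zero => simp
  | succ k ih =>
    have h1 : 2 ≤ (z + k).re := by
      rw [Complex.add_re, Complex.natCast_re]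
      have : (0 : ℝ) ≤ k := Nat.cast_nonneg k
      linarith
    have h2 := step hd hδ hlow h1
    have h3 : z + ((k + 1 : ℕ) : ℂ) = z + k + 1 := by push_cast; ring
    rw [h3, pow_succ]
    nlinarith

lemma growth {h : ℂ → ℂ} (hd : Differentiable ℂ h) {δ : ℝ} (hδ : 0 < δ)
    (hlow : ∀ z : ℂ, 0 < z.re → δ ≤ ‖h z‖) (a b : ℝ) :
    ∃ K : ℝ, 0 ≤ K ∧ ∀ z : ℂ, 2 ≤ z.re → a ≤ z.im → z.im ≤ b →
      ‖h z‖ ≤ δ * Real.exp (K * Real.exp (2 * z.re)) := by
  have hcomp : IsCompact (Set.Icc (2 : ℝ) 3 ×ℂ Set.Icc a b) := isCompact_Icc.reProdIm isCompact_Icc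
  obtain ⟨C, hC⟩ := hcomp.exists_bound_of_continuousOn hd.continuous.continuousOn
  set K : ℝ := max 0 (Real.log (C / δ)) with hK
  refine ⟨K, le_max_left _ _, fun z hz ha hb => ?_⟩
  set k : ℕ := ⌊z.re - 2⌋₊ with hk
  have hk1 : (k : ℝ) ≤ z.re - 2 := Nat.floor_le (by linarith)
  have hk2 : z.re - 2 < k + 1 := Nat.lt_floor_add_one _
  set w : ℂ := z - k with hw
  have hwre : w.re = z.re - k := by simp [hw]
  have hwim : w.im = z.im := by simp [hw]
  have hw2 : 2 ≤ w.re := by rw [hwre]; linarith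
  have hwmem : w ∈ (Set.Icc (2 : ℝ) 3 ×ℂ Set.Icc a b) := by
    rw [Complex.mem_reProdIm]
    refine ⟨⟨hw2, ?_⟩, ?_⟩
    · rw [hwre]; linarith
    · rw [hwim]; exact ⟨ha, hb⟩
  have h1 := steps hd hδ hlow hw2 k
  have h2 : w + k = z := by rw [hw]; ring
  rw [h2] at h1
  have hwpos : 0 < ‖h w‖ := lt_of_lt_of_le hδ (hlow w (by linarith))
  have hzpos : 0 < ‖h z‖ := lt_of_lt_of_le hδ (hlow z (by linarith))
  have h3 : Real.log (‖h w‖ / δ) ≤ K := by
    refine le_trans ?_ (le_max_right _ _)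
    apply Real.log_le_log (div_pos hwpos hδ)
    exact div_le_div_of_nonneg_right (hC w hwmem) hδ.le
  have hK0 : 0 ≤ K := le_max_left _ _
  have h4 : (3 : ℝ) ^ k ≤ Real.exp (2 * z.re) := by
    have h5 : (3 : ℝ) ≤ Real.exp 2 := by
      have := Real.add_one_le_exp (2 : ℝ)
      linarith
    calc (3 : ℝ) ^ k ≤ (Real.exp 2) ^ k := pow_le_pow_left₀ (by norm_num) h5 k
      _ = Real.exp (k * 2) := by rw [← Real.exp_nat_mul]
      _ ≤ Real.exp (2 * z.re) := by
        apply Real.exp_le_exp.2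
        linarith
  have h6 : Real.log (‖h z‖ / δ) ≤ K * Real.exp (2 * z.re) := by
    calc Real.log (‖h z‖ / δ) ≤ 3 ^ k * Real.log (‖h w‖ / δ) := h1
      _ ≤ 3 ^ k * K := mul_le_mul_of_nonneg_left h3 (by positivity)
      _ ≤ Real.exp (2 * z.re) * K := mul_le_mul_of_nonneg_right h4 hK0
      _ = K * Real.exp (2 * z.re) := by ring
  rw [Real.log_le_iff_le_exp (div_pos hzpos hδ), div_le_iff₀ hδ] at h6
  linarith

/-- The negation of the preceding statement: For every closed set E in ℂ: if some non-polynomial entire function is bounded on E and some non-polynomial entire function has modulus at least a positive constant off E, then a single non-polynomial entire function does both. -/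
theorem result :
    ¬ (∀ E : Set ℂ, IsClosed E →
      (∃ f : ℂ → ℂ, Differentiable ℂ f ∧
          (¬ ∃ p : Polynomial ℂ, ∀ z, f z = p.eval z) ∧
          ∃ M : ℝ, ∀ z ∈ E, ‖f z‖ ≤ M) →
      (∃ g : ℂ → ℂ, Differentiable ℂ g ∧
          (¬ ∃ p : Polynomial ℂ, ∀ z, g z = p.eval z) ∧
          ∃ δ : ℝ, 0 < δ ∧ ∀ z ∉ E, δ ≤ ‖g z‖) →
      ∃ h : ℂ → ℂ, Differentiable ℂ h ∧
          (¬ ∃ p : Polynomial ℂ, ∀ z, h z = p.eval z) ∧
          (∃ M : ℝ, ∀ z ∈ E, ‖h z‖ ≤ M) ∧
          ∃ δ : ℝ, 0 < δ ∧ ∀ z ∉ E, δ ≤ ‖h z‖) := by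
  intro H
  have hf : ∃ f : ℂ → ℂ, Differentiable ℂ f ∧
      (¬ ∃ p : Polynomial ℂ, ∀ z, f z = p.eval z) ∧ ∃ M : ℝ, ∀ z ∈ bad, ‖f z‖ ≤ M := by
    refine ⟨fun z => Complex.exp (-Complex.exp (2 * Real.pi * z)), by fun_prop, ?_, Real.exp 1, ?_⟩
    · apply not_poly (fun z => Complex.exp_ne_zero _) (a := 0) (b := Complex.I / 2)
      have h1 : (2 * (Real.pi : ℂ) * (Complex.I / 2)) = Real.pi * Complex.I := by ring
      rw [h1, Complex.exp_pi_mul_I, mul_zero, Complex.exp_zero, neg_neg]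
      intro h2
      have h3 := congrArg norm h2
      rw [Complex.norm_exp, Complex.norm_exp] at h3
      simp only [Complex.neg_re, Complex.one_re] at h3
      have h4 := Real.exp_injective h3
      norm_num at h4
    · rintro z (hz | ⟨n, hn⟩)
      · rw [Complex.norm_exp]
        apply Real.exp_le_exp.2
        have h1 := (abs_le.1 (Complex.abs_re_le_norm (Complex.exp (2 * Real.pi * z)))).1
        rw [Complex.norm_exp] at h1
        have h2 : (2 * (Real.pi : ℂ) * z).re ≤ 0 := by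
          have : (2 * (Real.pi : ℂ) * z).re = 2 * Real.pi * z.re := by simp
          rw [this]
          have hz' : z.re ≤ 0 := hz
          nlinarith [Real.pi_pos]
        have h3 := Real.exp_le_one_iff.2 h2
        rw [Complex.neg_re]
        linarith
      · have h1 : (2 * (Real.pi : ℂ) * z) = ((2 * Real.pi * z.re : ℝ) : ℂ)
            + n * (2 * Real.pi * Complex.I) := by
          apply Complex.ext <;> simp [hn]
          ring
        show ‖Complex.exp (-Complex.exp (2 * Real.pi * z))‖ ≤ Real.exp 1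
        rw [h1, Complex.exp_add, Complex.exp_int_mul_two_pi_mul_I, mul_one, ← Complex.ofReal_exp,
          ← Complex.ofReal_neg, ← Complex.ofReal_exp, Complex.norm_real, Real.norm_eq_abs,
          abs_of_pos (Real.exp_pos _)]
        apply Real.exp_le_exp.2
        have := Real.exp_pos (2 * Real.pi * z.re)
        linarith
  have hg : ∃ g : ℂ → ℂ, Differentiable ℂ g ∧
      (¬ ∃ p : Polynomial ℂ, ∀ z, g z = p.eval z) ∧ ∃ δ : ℝ, 0 < δ ∧ ∀ z ∉ bad, δ ≤ ‖g z‖ := by
    refine ⟨Complex.exp, Complex.differentiable_exp, ?_, 1, one_pos, ?_⟩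
    · apply not_poly (fun z => Complex.exp_ne_zero _) (a := 0) (b := 1)
      intro h2
      have h3 := congrArg norm h2
      rw [Complex.norm_exp, Complex.norm_exp] at h3
      have h4 := Real.exp_injective h3
      norm_num at h4
    · intro z hz
      have h1 : 0 < z.re := by
        by_contra h2
        exact hz (Or.inl (not_lt.1 h2))
      rw [Complex.norm_exp]
      exact Real.one_le_exp h1.le
  obtain ⟨h, hd, hnp, ⟨M, hM⟩, δ, hδ, hlow⟩ := H bad isClosed_bad hf hg
  apply hnp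
  have hlow' : ∀ z : ℂ, 0 < z.re → δ ≤ ‖h z‖ := fun z hz => low_half hd hlow hz
  have hbdd : ∀ z : ℂ, ‖h z‖ ≤ M := by
    intro z
    set n : ℤ := ⌊z.im⌋ with hn
    have hn1 : (n : ℝ) ≤ z.im := Int.floor_le _
    have hn2 : z.im < n + 1 := Int.lt_floor_add_one _
    obtain ⟨K, hK0, hK⟩ := growth hd hδ hlow' n (n + 1)
    refine PhragmenLindelof.horizontal_strip (a := n) (b := n + 1) hd.diffContOnCl ?_ ?_ ?_ hn1 hn2.le
    · refine ⟨2, ?_, K, ?_⟩
      · have := Real.pi_gt_three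
        rw [add_sub_cancel_left, div_one]
        linarith
      · rw [Asymptotics.isBigO_iff]
        refine ⟨max δ M, ?_⟩
        have h1 : ∀ᶠ z : ℂ in Filter.comap (_root_.abs ∘ Complex.re) Filter.atTop
            ⊓ Filter.principal (Complex.im ⁻¹' Set.Ioo (n : ℝ) (n + 1)), 2 ≤ |z.re| :=
          Filter.Eventually.filter_mono inf_le_left
            ((Filter.eventually_ge_atTop (2 : ℝ)).comap (_root_.abs ∘ Complex.re))
        have h2 : ∀ᶠ z : ℂ in Filter.comap (_root_.abs ∘ Complex.re) Filter.atTop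
            ⊓ Filter.principal (Complex.im ⁻¹' Set.Ioo (n : ℝ) (n + 1)),
            z ∈ Complex.im ⁻¹' Set.Ioo (n : ℝ) (n + 1) :=
          Filter.Eventually.filter_mono inf_le_right (Filter.mem_principal_self _)
        filter_upwards [h1, h2] with w hw1 hw2
        rw [Real.norm_eq_abs, abs_of_pos (Real.exp_pos _)]
        have hexp := Real.exp_pos (K * Real.exp (2 * |w.re|))
        rcases le_or_gt 0 w.re with h3 | h3
        · rw [abs_of_nonneg h3] at hw1 ⊢
          exact (hK w hw1 hw2.1.le hw2.2.le).trans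
            (mul_le_mul_of_nonneg_right (le_max_left _ _) (Real.exp_pos _).le)
        · have h4 : ‖h w‖ ≤ M := hM w (Or.inl h3.le)
          have h5 : 1 ≤ Real.exp (K * Real.exp (2 * |w.re|)) :=
            Real.one_le_exp (by positivity)
          have h6 : 0 ≤ M := (norm_nonneg _).trans h4
          calc ‖h w‖ ≤ M := h4
            _ ≤ max δ M * 1 := by rw [mul_one]; exact le_max_right _ _
            _ ≤ max δ M * Real.exp (K * Real.exp (2 * |w.re|)) :=
              mul_le_mul_of_nonneg_left h5 (h6.trans (le_max_right _ _))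
    · intro w hw
      exact hM w (Or.inr ⟨n, hw⟩)
    · intro w hw
      exact hM w (Or.inr ⟨n + 1, by rw [hw]; push_cast; ring⟩)
  refine ⟨Polynomial.C (h 0), fun z => ?_⟩
  rw [Polynomial.eval_C]
  exact hd.apply_eq_apply_of_bounded (isBounded_iff_forall_norm_le.2
    ⟨M, by rintro _ ⟨w, rfl⟩; exact hbdd w⟩) z 0

end Pool.Agent.S03226
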