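import Pool.Statements.S03229
import Pool.Agent.Helper176.AronC0

set_option autoImplicit false
open Pool Pool.MP_5ea425_an

namespace Pool.Agent.S03229

/-- Some separable infinite-dimensional real Banach space has an Aronszajn null set A and a bi-Lipschitz bijection f of the space onto itself such that the complement of f(A) is Aronszajn null. -/
theorem result :
    ∃ (X : Type) (_ : NormedAddCommGroup X) (_ : NormedSpace ℝ X) (_ : CompleteSpace X)
      (_ : TopologicalSpace.SeparableSpace X) (_ : MeasurableSpace X) (_ : BorelSpace X),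
      ¬ FiniteDimensional ℝ X ∧
      ∃ (A : Set X) (f : X ≃ X) (K L : NNReal),
        LipschitzWith K (⇑f) ∧ LipschitzWith L (⇑f.symm) ∧
        (MeasurableSet A ∧
          ∀ x : ℕ → X, Dense ((Submodule.span ℝ (Set.range x) : Set X)) →
            ∃ B : ℕ → Set X, (∀ n, MeasurableSet (B n)) ∧ A = ⋃ n, B n ∧
              ∀ n, ∀ y : X, MeasureTheory.volume {t : ℝ | y + t • x n ∈ B n} = 0) ∧
        (MeasurableSet ((⇑f '' A)ᶜ) ∧
          ∀ x : ℕ → X, Dense ((Submodule.span ℝ (Set.range x) : Set X)) →
            ∃ B : ℕ → Set X, (∀ n, MeasurableSet (B n)) ∧ (⇑f '' A)ᶜ = ⋃ n, B n ∧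
              ∀ n, ∀ y : X, MeasureTheory.volume {t : ℝ | y + t • x n ∈ B n} = 0) := by
  letI : MeasurableSpace Helper176.AronC0.X := borel _
  haveI : BorelSpace Helper176.AronC0.X := ⟨rfl⟩
  have hZ : MeasurableSet Helper176.AronC0.Z := by
    unfold Helper176.AronC0.Z
    exact measurableSet_tendsto _ (fun N => (Helper176.AronC0.continuous_avg N).measurable)
  have hA : MeasurableSet Helper176.AronC0.A := by
    have hS : Continuous Helper176.AronC0.S := Helper176.AronC0.f.continuous
    exact hS.measurable hZ
  -- a set which is null in all directions `v` with `v 0 ≠ 0` is Aronszajn null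
  have key : ∀ D : Set Helper176.AronC0.X, MeasurableSet D →
      (∀ y v : Helper176.AronC0.X, v 0 ≠ 0 → MeasureTheory.volume {t : ℝ | y + t • v ∈ D} = 0) →
      ∀ x : ℕ → Helper176.AronC0.X,
        Dense ((Submodule.span ℝ (Set.range x) : Set Helper176.AronC0.X)) →
            ∃ B : ℕ → Set Helper176.AronC0.X, (∀ n, MeasurableSet (B n)) ∧ D = ⋃ n, B n ∧
              ∀ n, ∀ y : Helper176.AronC0.X,
                MeasureTheory.volume {t : ℝ | y + t • x n ∈ B n} = 0 := by
    intro D hD hnull x hx
    obtain ⟨n₀, hn₀⟩ := Helper176.AronC0.exists_ne x hx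
    refine ⟨fun n => if n = n₀ then D else ∅, ?_, ?_, ?_⟩
    · intro n
      by_cases hn : n = n₀
      · simp [hn, hD]
      · simp [hn]
    · ext z
      simp only [Set.mem_iUnion]
      constructor
      · intro hz
        exact ⟨n₀, by simpa using hz⟩
      · rintro ⟨n, hn⟩
        by_cases h : n = n₀
        · simpa [h] using hn
        · simp [h] at hn
    · intro n y
      by_cases hn : n = n₀
      · subst hn
        simpa using hnull y (x n) hn₀
      · simp [hn]
  refine ⟨Helper176.AronC0.X, inferInstance, inferInstance, inferInstance, inferInstance,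
    inferInstance, inferInstance, Helper176.AronC0.not_finiteDimensional,
    Helper176.AronC0.A, Helper176.AronC0.f.toEquiv, 1 + 1 / 2, 2,
    Helper176.AronC0.f_lip, Helper176.AronC0.f_symm_lip, ⟨hA, ?_⟩, ?_⟩
  · exact key _ hA Helper176.AronC0.A_line
  · rw [Helper176.AronC0.image_A]
    exact ⟨hZ.compl, key _ hZ.compl Helper176.AronC0.Z_line⟩

end Pool.Agent.S03229
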