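import Pool.Statements.S03232
import Pool.Agent.Helper56.Core

set_option autoImplicit false
open Pool Pool.MP_5ed9ac_an

namespace Pool.Agent.S03232

/-- The negation of the preceding statement: For every complex Hilbert space H, any subalgebra of B(H) whose diagonal T ∩ T* is a masa (equals its commutant), and which is maximal among such subalgebras, is closed in the operator-norm topology. -/
theorem result :
    ¬ (∀ (H : Type) [NormedAddCommGroup H] [InnerProductSpace ℂ H] [CompleteSpace H]
      (T : Subalgebra ℂ (H →L[ℂ] H)),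
      Set.centralizer {x : H →L[ℂ] H | x ∈ T ∧ star x ∈ T} = {x : H →L[ℂ] H | x ∈ T ∧ star x ∈ T} →
      (∀ T' : Subalgebra ℂ (H →L[ℂ] H), T ≤ T' →
        Set.centralizer {x : H →L[ℂ] H | x ∈ T' ∧ star x ∈ T'} = {x : H →L[ℂ] H | x ∈ T' ∧ star x ∈ T'} →
        T' = T) →
      IsClosed (T : Set (H →L[ℂ] H))) := by
  intro h
  obtain ⟨T, h0, hT, hmax⟩ := Helper56.exists_max Helper56.T0 Helper56.T0_tri
  exact Helper56.not_closed T h0 hT (h (Helper56.H2 Helper56.K) T hT hmax)

end Pool.Agent.S03232
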