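import Pool.Statements.S03236

set_option autoImplicit false
open Pool Pool.MP_5fe217_an

namespace Pool.Agent.S03236

open Metric Complex Real

noncomputable section

lemma coef_indep {u : ℂ → ℂ} (hu : DifferentiableOn ℂ u (ball 0 1)) {r : ℝ} (hr : 0 < r) (hr1 : r < 1) (n : ℕ) :
    (∮ z in C(0, r), (1 / (z - 0) ^ (n + 1)) • u z) = (2 * π * I / n.factorial) • iteratedDeriv n u 0 := by
  have h1 : DifferentiableOn ℂ u (closedBall 0 r) := hu.mono (closedBall_subset_ball hr1)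
  exact h1.circleIntegral_one_div_sub_center_pow_smul hr n

lemma circle_cont {u : ℂ → ℂ} (hu : DifferentiableOn ℂ u (ball 0 1)) {r : ℝ} (hr : 0 < r) (hr1 : r < 1) :
    Continuous (fun θ : ℝ => u (circleMap 0 r θ)) := by
  apply hu.continuousOn.comp_continuous (continuous_circleMap 0 r)
  intro θ
  rw [mem_ball_zero_iff, norm_circleMap_zero, abs_of_pos hr]
  exact hr1

lemma coef_bound {u : ℂ → ℂ} (hu : DifferentiableOn ℂ u (ball 0 1)) (h1 : deriv u 0 = 1)
    (hpos : ∀ z ∈ ball (0 : ℂ) 1, 0 ≤ ((starRingEnd ℂ) z * u z).re) :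
    -(iteratedDeriv 3 u 0 / 6).re ≤ 2 := by
  set a := iteratedDeriv 3 u 0 / 6 with ha
  have key : ∀ r : ℝ, 0 < r → r < 1 → 0 ≤ 1 + r ^ 2 * a.re / 2 := by
    intro r hr hr1
    have e1 := coef_indep hu hr hr1 1
    have e3 := coef_indep hu hr hr1 3
    have e0 : (∮ z in C(0, r), u z) = 0 := by
      apply circleIntegral_eq_zero_of_differentiable_on_off_countable hr.le Set.countable_empty
      · exact hu.continuousOn.mono (closedBall_subset_ball hr1)
      · intro z hz
        exact hu.differentiableAt (isOpen_ball.mem_nhds (ball_subset_ball hr1.le hz.1))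
    rw [iteratedDeriv_one, h1] at e1
    have hci : ∀ k : ℕ, CircleIntegrable (fun z : ℂ => (1 / (z - 0) ^ k) • u z) 0 r := by
      intro k
      apply ContinuousOn.circleIntegrable hr.le
      apply ContinuousOn.fun_smul
      · apply ContinuousOn.div continuousOn_const (by fun_prop)
        intro z hz
        rw [mem_sphere_zero_iff_norm] at hz
        have : z ≠ 0 := by
          intro h
          rw [h, norm_zero] at hz
          linarith
        simp [this]
      · apply hu.continuousOn.mono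
        exact sphere_subset_closedBall.trans (closedBall_subset_ball hr1)
    have hci0 : CircleIntegrable u 0 r := by
      have := hci 0
      simpa using this
    have hsum : (∮ z in C(0, r), ((1 / (z - 0) ^ (1 + 1)) • u z +
        ((1 / (2 * r ^ 2) : ℂ) * u z + (r ^ 2 / 2 : ℂ) * ((1 / (z - 0) ^ (3 + 1)) • u z)))) =
        2 * π * I * (1 + r ^ 2 * a / 2) := by
      have c1 : CircleIntegrable (fun z : ℂ => (1 / (2 * r ^ 2) : ℂ) * u z) 0 r := by
        have := hci0.const_smul (a := (1 / (2 * r ^ 2) : ℂ))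
        simpa [Pi.smul_def] using this
      have c2 : CircleIntegrable (fun z : ℂ => (r ^ 2 / 2 : ℂ) * ((1 / (z - 0) ^ (3 + 1)) • u z)) 0 r := by
        have := (hci (3 + 1)).const_smul (a := (r ^ 2 / 2 : ℂ))
        simpa [Pi.smul_def] using this
      have c3 : CircleIntegrable (fun z : ℂ => (1 / (2 * r ^ 2) : ℂ) * u z +
          (r ^ 2 / 2 : ℂ) * ((1 / (z - 0) ^ (3 + 1)) • u z)) 0 r := c1.add c2
      rw [circleIntegral.integral_add (hci (1 + 1)) c3, circleIntegral.integral_add c1 c2,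
        circleIntegral.integral_const_mul, circleIntegral.integral_const_mul, e1, e3, e0]
      simp only [smul_eq_mul]
      rw [ha]
      simp [Nat.factorial]
      ring
    have hpar : (∮ z in C(0, r), ((1 / (z - 0) ^ (1 + 1)) • u z +
        ((1 / (2 * r ^ 2) : ℂ) * u z + (r ^ 2 / 2 : ℂ) * ((1 / (z - 0) ^ (3 + 1)) • u z)))) =
        I * ∫ θ in (0 : ℝ)..2 * π, ((1 + (circleMap 0 r θ ^ 2).re / r ^ 2) / r ^ 2 : ℝ) •
          ((starRingEnd ℂ) (circleMap 0 r θ) * u (circleMap 0 r θ)) := by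
      rw [circleIntegral, ← intervalIntegral.integral_const_mul]
      congr 1
      funext θ
      set z := circleMap 0 r θ with hz
      have hzn : ‖z‖ = r := by
        rw [hz, norm_circleMap_zero, abs_of_pos hr]
      have hz0 : z ≠ 0 := by
        intro h
        rw [h, norm_zero] at hzn
        linarith
      have hr0 : (r : ℂ) ≠ 0 := by exact_mod_cast hr.ne'
      have hmul : (starRingEnd ℂ) z * z = (r : ℂ) ^ 2 := by
        rw [mul_comm, Complex.mul_conj', hzn]
      have hre : ((z ^ 2).re : ℂ) = (z ^ 2 + (starRingEnd ℂ) z ^ 2) / 2 := by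
        rw [← map_pow, Complex.add_conj]
        push_cast
        ring
      have hconj : (starRingEnd ℂ) z = r ^ 2 / z := by
        rw [eq_div_iff hz0, hmul]
      rw [deriv_circleMap, ← hz]
      simp only [Complex.real_smul, smul_eq_mul]
      push_cast
      rw [hre, hconj]
      field_simp
      ring
    have hcontG : Continuous (fun θ : ℝ => ((1 + (circleMap 0 r θ ^ 2).re / r ^ 2) / r ^ 2 : ℝ) •
          ((starRingEnd ℂ) (circleMap 0 r θ) * u (circleMap 0 r θ))) := by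
      have h2 := circle_cont hu hr hr1
      have h3 := continuous_circleMap 0 r
      apply Continuous.fun_smul
      · have : Continuous (fun θ : ℝ => (circleMap 0 r θ ^ 2).re) :=
          Complex.continuous_re.comp (h3.pow 2)
        fun_prop
      · exact (Complex.continuous_conj.comp h3).mul h2
    have hI : (∫ θ in (0 : ℝ)..2 * π, ((1 + (circleMap 0 r θ ^ 2).re / r ^ 2) / r ^ 2 : ℝ) •
          ((starRingEnd ℂ) (circleMap 0 r θ) * u (circleMap 0 r θ))) = 2 * π * (1 + r ^ 2 * a / 2) := by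
      have h4 : I * (∫ θ in (0 : ℝ)..2 * π, ((1 + (circleMap 0 r θ ^ 2).re / r ^ 2) / r ^ 2 : ℝ) •
          ((starRingEnd ℂ) (circleMap 0 r θ) * u (circleMap 0 r θ))) = I * (2 * π * (1 + r ^ 2 * a / 2)) := by
        rw [← hpar, hsum]
        ring
      exact mul_left_cancel₀ I_ne_zero h4
    have hre : 0 ≤ (2 * π * (1 + r ^ 2 * a / 2) : ℂ).re := by
      rw [← hI]
      have h5 := Complex.reCLM.intervalIntegral_comp_comm (hcontG.intervalIntegrable (μ := MeasureTheory.volume) 0 (2 * π))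
      simp only [Complex.reCLM_apply] at h5
      rw [← h5]
      apply intervalIntegral.integral_nonneg (by positivity)
      intro θ _
      rw [Complex.real_smul, Complex.re_ofReal_mul]
      have hb : circleMap 0 r θ ∈ ball (0 : ℂ) 1 := by
        rw [mem_ball_zero_iff, norm_circleMap_zero, abs_of_pos hr]
        exact hr1
      apply mul_nonneg _ (hpos _ hb)
      apply div_nonneg _ (by positivity)
      have h6 : |(circleMap 0 r θ ^ 2).re| ≤ r ^ 2 := by
        refine (Complex.abs_re_le_norm _).trans ?_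
        rw [norm_pow, norm_circleMap_zero, abs_of_pos hr]
      have h7 := (abs_le.1 h6).1
      have h8 : -1 ≤ (circleMap 0 r θ ^ 2).re / r ^ 2 := by
        rw [le_div_iff₀ (by positivity)]
        linarith
      linarith
    have h9 : (2 * π * (1 + r ^ 2 * a / 2) : ℂ).re = 2 * π * (1 + r ^ 2 * a.re / 2) := by
      have : (2 * π * (1 + r ^ 2 * a / 2) : ℂ) = ((2 * π : ℝ) : ℂ) * (1 + ((r ^ 2 / 2 : ℝ) : ℂ) * a) := by
        push_cast
        ring
      rw [this, Complex.re_ofReal_mul, Complex.add_re, Complex.re_ofReal_mul, Complex.one_re]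
      ring
    rw [h9] at hre
    have hpi : 0 < 2 * π := by positivity
    exact nonneg_of_mul_nonneg_right hre hpi
  by_contra hcon
  push Not at hcon
  set A := -a.re with hA
  have hA2 : 2 < A := hcon
  set s := (1 + 2 / A) / 2 with hs
  have hA0 : 0 < A := by linarith
  have h2A : 2 / A < 1 := by
    rw [div_lt_one hA0]
    exact hA2
  have h2A0 : 0 < 2 / A := by positivity
  have hs0 : 0 < s := by
    rw [hs]
    linarith
  have hs1 : s < 1 := by
    rw [hs]
    linarith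
  have h10 := key (Real.sqrt s) (Real.sqrt_pos.2 hs0) (by
    rw [Real.sqrt_lt' one_pos]
    linarith)
  rw [Real.sq_sqrt hs0.le] at h10
  have h11 : s * A = (A + 2) / 2 := by
    rw [hs]
    field_simp
  have h12 : a.re = -A := by
    rw [hA]
    ring
  rw [h12] at h10
  nlinarith

/-- the space -/
abbrev E : Type := EuclideanSpace ℂ (Fin 2)

/-- first coordinate vector -/
def e0 : E := EuclideanSpace.single 0 1

lemma e0_zero : e0 0 = 1 := by
  simp [e0]

lemma e0_one : e0 1 = 0 := by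
  simp [e0]

lemma norm_e0 : ‖e0‖ = 1 := by
  simp [e0]

/-- first coordinate functional -/
def pr : E →L[ℂ] ℂ := EuclideanSpace.proj 0

lemma pr_apply (z : E) : pr z = z 0 := rfl

/-- first coordinate projection -/
def P : E →L[ℂ] E := pr.smulRight e0

lemma P_apply (z : E) : P z = z 0 • e0 := rfl

/-- diagonal maps -/
def T (c : ℂ) : E →L[ℂ] E := ContinuousLinearMap.id ℂ E + (c - 1) • P

lemma T_apply (c : ℂ) (z : E) : T c z = z + ((c - 1) * z 0) • e0 := by
  simp [T, P_apply, smul_smul]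

lemma T_zero (c : ℂ) (z : E) : T c z 0 = c * z 0 := by
  rw [T_apply]
  simp [e0_zero]
  ring

lemma T_one (c : ℂ) (z : E) : T c z 1 = z 1 := by
  rw [T_apply]
  simp [e0_one]

lemma E_ext {z w : E} (h0 : z 0 = w 0) (h1 : z 1 = w 1) : z = w := by
  ext i
  fin_cases i
  · exact h0
  · exact h1

lemma T_inv {c : ℂ} (hc : c ≠ 0) : (T c).inverse = T c⁻¹ := by
  apply ContinuousLinearMap.inverse_eq
  · ext z : 1
    apply E_ext
    · rw [ContinuousLinearMap.comp_apply, T_zero, T_zero, ContinuousLinearMap.id_apply]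
      field_simp
    · rw [ContinuousLinearMap.comp_apply, T_one, T_one, ContinuousLinearMap.id_apply]
  · ext z : 1
    apply E_ext
    · rw [ContinuousLinearMap.comp_apply, T_zero, T_zero, ContinuousLinearMap.id_apply]
      field_simp
    · rw [ContinuousLinearMap.comp_apply, T_one, T_one, ContinuousLinearMap.id_apply]

/-- the lift of a function of one variable -/
def F (u : ℂ → ℂ) (z : E) : E := z + (u (z 0) - z 0) • e0

lemma F_zero (u : ℂ → ℂ) (z : E) : F u z 0 = u (z 0) := by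
  simp [F, e0_zero]

lemma F_one (u : ℂ → ℂ) (z : E) : F u z 1 = z 1 := by
  simp [F, e0_one]

lemma F_deriv {u : ℂ → ℂ} {z : E} {c : ℂ} (hu : HasDerivAt u c (z 0)) : HasFDerivAt (F u) (T c) z := by
  have h1 : HasFDerivAt (fun z : E => z 0) pr z := pr.hasFDerivAt
  have h2 : HasFDerivAt (fun z : E => u (z 0)) (c • pr) z := hu.comp_hasFDerivAt z h1
  have h3 := (hasFDerivAt_id z).add ((h2.sub h1).smul_const e0)
  have h4 : T c = ContinuousLinearMap.id ℂ E + (c • pr - pr).smulRight e0 := by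
    ext z : 1
    rw [T_apply]
    simp [pr_apply]
    ring_nf
  rw [h4]
  exact h3

lemma coord_le (z : E) (i : Fin 2) : ‖z i‖ ≤ ‖z‖ := PiLp.norm_apply_le z i

lemma coord_mem {z : E} (hz : z ∈ ball (0 : E) 1) : z 0 ∈ ball (0 : ℂ) 1 := by
  rw [mem_ball_zero_iff] at hz ⊢
  exact (coord_le z 0).trans_lt hz

lemma F_diff {u : ℂ → ℂ} (hu : DifferentiableOn ℂ u (ball 0 1)) : DifferentiableOn ℂ (F u) (ball 0 1) := by
  intro z hz
  have h1 := (hu.differentiableAt (isOpen_ball.mem_nhds (coord_mem hz))).hasDerivAt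
  exact (F_deriv h1).differentiableAt.differentiableWithinAt

lemma F_fderiv {u : ℂ → ℂ} (hu : DifferentiableOn ℂ u (ball 0 1)) {z : E} (hz : z ∈ ball (0 : E) 1) :
    fderiv ℂ (F u) z = T (deriv u (z 0)) := by
  have h1 := (hu.differentiableAt (isOpen_ball.mem_nhds (coord_mem hz))).hasDerivAt
  exact (F_deriv h1).fderiv

lemma T_id : T 1 = ContinuousLinearMap.id ℂ E := by
  ext z : 1
  rw [T_apply]
  simp

lemma inner_re (z w : E) : (inner ℂ z w).re = ((starRingEnd ℂ) (z 0) * w 0).re + ((starRingEnd ℂ) (z 1) * w 1).re := by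
  rw [PiLp.inner_apply, Fin.sum_univ_two, Complex.add_re]
  simp [RCLike.inner_apply, mul_comm]

/-- starlike maps -/
def SS (f : E → E) : Prop :=
  DifferentiableOn ℂ f (Metric.ball 0 1) ∧ Set.InjOn f (Metric.ball 0 1) ∧ f 0 = 0 ∧
     fderiv ℂ f 0 = ContinuousLinearMap.id ℂ E ∧
     ∀ z ∈ Metric.ball (0 : E) 1, z ≠ 0 →
       0 < (inner ℂ z ((fderiv ℂ f z).inverse (ContinuousLinearMap.id ℂ E (f z)))).re

/-- the class of vector fields -/
def NN (g : E → E) : Prop :=
  DifferentiableOn ℂ g (Metric.ball 0 1) ∧ g 0 = 0 ∧ fderiv ℂ g 0 = ContinuousLinearMap.id ℂ E ∧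
          ∀ z ∈ Metric.ball (0 : E) 1, z ≠ 0 → 0 < (inner ℂ z (g z)).re

lemma zero_mem : (0 : E) ∈ ball (0 : E) 1 := by simp

lemma sq_coord (a : ℂ) : ((starRingEnd ℂ) a * a).re = ‖a‖ ^ 2 := by
  rw [mul_comm, Complex.mul_conj', ← Complex.ofReal_pow, Complex.ofReal_re]

lemma pos_aux {z w : E} (hz : z ≠ 0) (h0 : z 0 ≠ 0 → 0 < ((starRingEnd ℂ) (z 0) * w 0).re) (h1 : w 1 = z 1) :
    0 < (inner ℂ z w).re := by
  rw [inner_re, h1, sq_coord]
  by_cases h : z 0 = 0
  · have h2 : z 1 ≠ 0 := by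
      intro h3
      exact hz (E_ext h h3)
    rw [h]
    have := norm_pos_iff.2 h2
    simp
    positivity
  · have := h0 h
    positivity

lemma F_SS {u : ℂ → ℂ} (hu : DifferentiableOn ℂ u (ball 0 1)) (hinj : Set.InjOn u (ball 0 1)) (h0 : u 0 = 0)
    (h1 : deriv u 0 = 1) (hd : ∀ z ∈ ball (0 : ℂ) 1, deriv u z ≠ 0)
    (hpos : ∀ z ∈ ball (0 : ℂ) 1, z ≠ 0 → 0 < ((starRingEnd ℂ) z * ((deriv u z)⁻¹ * u z)).re) : SS (F u) := by
  refine ⟨F_diff hu, ?_, ?_, ?_, ?_⟩
  · intro z hz w hw hzw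
    have e0' : F u z 0 = F u w 0 := by rw [hzw]
    have e1' : F u z 1 = F u w 1 := by rw [hzw]
    rw [F_zero, F_zero] at e0'
    rw [F_one, F_one] at e1'
    exact E_ext (hinj (coord_mem hz) (coord_mem hw) e0') e1'
  · apply E_ext
    · rw [F_zero]
      simpa using h0
    · rw [F_one]
  · rw [F_fderiv hu zero_mem]
    simp [h1, T_id]
  · intro z hz hz0
    rw [F_fderiv hu hz, T_inv (hd _ (coord_mem hz)), ContinuousLinearMap.id_apply]
    apply pos_aux hz0
    · intro h
      rw [T_zero, F_zero]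
      exact hpos _ (coord_mem hz) h
    · rw [T_one, F_one]

lemma F_NN {u : ℂ → ℂ} (hu : DifferentiableOn ℂ u (ball 0 1)) (h0 : u 0 = 0)
    (h1 : deriv u 0 = 1)
    (hpos : ∀ z ∈ ball (0 : ℂ) 1, z ≠ 0 → 0 < ((starRingEnd ℂ) z * u z).re) : NN (F u) := by
  refine ⟨F_diff hu, ?_, ?_, ?_⟩
  · apply E_ext
    · rw [F_zero]
      simpa using h0
    · rw [F_one]
  · rw [F_fderiv hu zero_mem]
    simp [h1, T_id]
  · intro z hz hz0
    apply pos_aux hz0
    · intro h
      rw [F_zero]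
      exact hpos _ (coord_mem hz) h
    · rw [F_one]

/-! ### the one variable functions -/

lemma id_SS : SS (F id) := by
  apply F_SS differentiableOn_id (Set.injOn_id _) rfl
  · simp
  · intro z _
    simp
  · intro z _ hz
    rw [deriv_id, inv_one, one_mul, id, sq_coord]
    have := norm_pos_iff.2 hz
    positivity

lemma F_id : F id = id := by
  funext z
  simp [F]

lemma re_cayley {w : ℂ} (hw : ‖w‖ < 1) : 0 < ((1 - w) / (1 + w)).re := by
  have h1 : (1 + w) ≠ 0 := by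
    intro h
    have : w = -1 := by linear_combination h
    rw [this] at hw
    simp at hw
  have h2 : ((1 - w) / (1 + w)) = ((1 - w) * (starRingEnd ℂ) (1 + w)) / ((‖1 + w‖ ^ 2 : ℝ) : ℂ) := by
    have h3 : (((‖1 + w‖ ^ 2 : ℝ)) : ℂ) = (1 + w) * (starRingEnd ℂ) (1 + w) := by
      rw [Complex.mul_conj']
      push_cast
      rfl
    rw [h3, mul_div_mul_right]
    exact (map_ne_zero _).2 h1
  rw [h2, Complex.div_ofReal_re]
  have h4 : 0 < ‖1 + w‖ ^ 2 := by
    have := norm_pos_iff.2 h1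
    positivity
  apply div_pos _ h4
  have h5 : ((1 - w) * (starRingEnd ℂ) (1 + w)).re = 1 - ‖w‖ ^ 2 := by
    rw [Complex.sq_norm, Complex.normSq_apply]
    simp
    ring
  rw [h5]
  have := norm_nonneg w
  nlinarith

/-- the base function -/
def uf (z : ℂ) : ℂ := z / (1 - z ^ 2)

lemma one_sub_sq_ne {z : ℂ} (hz : z ∈ ball (0 : ℂ) 1) : 1 - z ^ 2 ≠ 0 := by
  rw [mem_ball_zero_iff] at hz
  intro h
  have h1 : z ^ 2 = 1 := by linear_combination -h
  have h2 : ‖z‖ ^ 2 = 1 := by rw [← norm_pow, h1, norm_one]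
  have := norm_nonneg z
  nlinarith

lemma one_add_sq_ne {z : ℂ} (hz : z ∈ ball (0 : ℂ) 1) : 1 + z ^ 2 ≠ 0 := by
  rw [mem_ball_zero_iff] at hz
  intro h
  have h1 : z ^ 2 = -1 := by linear_combination h
  have h2 : ‖z‖ ^ 2 = 1 := by rw [← norm_pow, h1, norm_neg, norm_one]
  have := norm_nonneg z
  nlinarith

lemma uf_deriv {z : ℂ} (hz : z ∈ ball (0 : ℂ) 1) : HasDerivAt uf ((1 + z ^ 2) / (1 - z ^ 2) ^ 2) z := by
  have h1 : HasDerivAt (fun z : ℂ => z) 1 z := hasDerivAt_id z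
  have h2 : HasDerivAt (fun z : ℂ => 1 - z ^ 2) (-(2 * z)) z := by
    have := (hasDerivAt_pow 2 z).const_sub 1
    simpa using this
  have h3 := h1.div h2 (one_sub_sq_ne hz)
  have h4 : (1 + z ^ 2) / (1 - z ^ 2) ^ 2 = (1 * (1 - z ^ 2) - z * (-(2 * z))) / (1 - z ^ 2) ^ 2 := by
    congr 1
    ring
  rw [h4]
  exact h3

lemma uf_diff : DifferentiableOn ℂ uf (ball 0 1) := fun _ hz =>
  (uf_deriv hz).differentiableAt.differentiableWithinAt

lemma uf_ratio {z : ℂ} (hz : z ∈ ball (0 : ℂ) 1) : (deriv uf z)⁻¹ * uf z = z * ((1 - z ^ 2) / (1 + z ^ 2)) := by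
  rw [(uf_deriv hz).deriv, uf]
  have h1 := one_sub_sq_ne hz
  have h2 := one_add_sq_ne hz
  field_simp

lemma uf_pos {z : ℂ} (hz : z ∈ ball (0 : ℂ) 1) (hz0 : z ≠ 0) :
    0 < ((starRingEnd ℂ) z * (z * ((1 - z ^ 2) / (1 + z ^ 2)))).re := by
  have h1 : (starRingEnd ℂ) z * (z * ((1 - z ^ 2) / (1 + z ^ 2))) =
      ((‖z‖ ^ 2 : ℝ) : ℂ) * ((1 - z ^ 2) / (1 + z ^ 2)) := by
    have : (((‖z‖ ^ 2 : ℝ)) : ℂ) = z * (starRingEnd ℂ) z := by
      rw [Complex.mul_conj']
      push_cast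
      rfl
    rw [this]
    ring
  rw [h1, Complex.re_ofReal_mul]
  have h2 : ‖z ^ 2‖ < 1 := by
    rw [norm_pow]
    rw [mem_ball_zero_iff] at hz
    have := norm_nonneg z
    nlinarith
  have h3 := re_cayley h2
  have h4 := norm_pos_iff.2 hz0
  positivity

lemma uf_SS : SS (F uf) := by
  apply F_SS uf_diff
  · intro z hz w hw h
    have h1 := one_sub_sq_ne hz
    have h2 := one_sub_sq_ne hw
    simp only [uf] at h
    rw [div_eq_div_iff h1 h2] at h
    have h3 : (z - w) * (1 + z * w) = 0 := by linear_combination h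
    rcases mul_eq_zero.1 h3 with h4 | h4
    · exact sub_eq_zero.1 h4
    · exfalso
      have h5 : z * w = -1 := by linear_combination h4
      have h6 : ‖z‖ * ‖w‖ = 1 := by rw [← norm_mul, h5, norm_neg, norm_one]
      rw [mem_ball_zero_iff] at hz hw
      have := norm_nonneg z
      have := norm_nonneg w
      nlinarith
  · simp [uf]
  · rw [(uf_deriv (by simp)).deriv]
    simp
  · intro z hz
    rw [(uf_deriv hz).deriv]
    have h1 := one_sub_sq_ne hz
    have h2 := one_add_sq_ne hz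
    positivity
  · intro z hz hz0
    rw [uf_ratio hz]
    exact uf_pos hz hz0

/-- the auxiliary functions, s = ±1 -/
def ug (s : ℂ) (z : ℂ) : ℂ := z * (1 + s * z / 3) / (1 - s * z)

lemma ug_den {s z : ℂ} (hs : ‖s‖ = 1) (hz : z ∈ ball (0 : ℂ) 1) : 1 - s * z ≠ 0 := by
  rw [mem_ball_zero_iff] at hz
  intro h
  have h1 : s * z = 1 := by linear_combination -h
  have h2 : ‖s‖ * ‖z‖ = 1 := by rw [← norm_mul, h1, norm_one]
  rw [hs] at h2
  linarith

lemma ug_deriv {s z : ℂ} (hs : ‖s‖ = 1) (hs2 : s ^ 2 = 1) (hz : z ∈ ball (0 : ℂ) 1) :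
    HasDerivAt (ug s) ((1 + 2 * (s * z) / 3 - (s * z) ^ 2 / 3) / (1 - s * z) ^ 2) z := by
  have h1 : HasDerivAt (fun z : ℂ => z * (1 + s * z / 3)) (1 * (1 + s * z / 3) + z * (s * 1 / 3)) z := by
    apply (hasDerivAt_id z).mul
    exact (((hasDerivAt_id z).const_mul s).div_const 3).const_add 1
  have h2 : HasDerivAt (fun z : ℂ => 1 - s * z) (-(s * 1)) z :=
    ((hasDerivAt_id z).const_mul s).const_sub 1
  have h3 := h1.div h2 (ug_den hs hz)
  have h4 : (1 + 2 * (s * z) / 3 - (s * z) ^ 2 / 3) / (1 - s * z) ^ 2 =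
      ((1 * (1 + s * z / 3) + z * (s * 1 / 3)) * (1 - s * z) - z * (1 + s * z / 3) * (-(s * 1))) / (1 - s * z) ^ 2 := by
    congr 1
    linear_combination (0 : ℂ) * hs2
  rw [h4]
  exact h3

lemma ug_re {w : ℂ} (hw : ‖w‖ < 1) :
    0 < (1 / (1 - w) + (w / 3) / (1 + w / 3)).re := by
  have h1 : 1 / 2 < (1 / (1 - w)).re := by
    have h2 : ‖-w‖ < 1 := by rwa [norm_neg]
    have h3 := re_cayley h2
    have hne : (1 - w) ≠ 0 := by
      intro h
      have : w = 1 := by linear_combination -h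
      rw [this] at hw
      simp at hw
    have h4 : (1 - -w) / (1 + -w) = 2 * (1 / (1 - w)) - 1 := by
      have : 1 + -w = 1 - w := by ring
      rw [this]
      field_simp
      ring
    rw [h4] at h3
    have h5 : (2 * (1 / (1 - w)) - 1 : ℂ).re = 2 * (1 / (1 - w)).re - 1 := by
      have : (2 * (1 / (1 - w)) : ℂ) = ((2 : ℝ) : ℂ) * (1 / (1 - w)) := by norm_num
      rw [Complex.sub_re, this, Complex.re_ofReal_mul, Complex.one_re]
    rw [h5] at h3
    linarith
  have h6 : ‖(w / 3) / (1 + w / 3)‖ ≤ 1 / 2 := by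
    rw [norm_div]
    have h7 : ‖w / 3‖ ≤ 1 / 3 := by
      rw [norm_div]
      norm_num
      linarith
    have h8 : 1 - ‖w / 3‖ ≤ ‖1 + w / 3‖ := by
      have := norm_sub_norm_le (1 : ℂ) (-(w / 3))
      rw [norm_one, norm_neg, sub_neg_eq_add] at this
      exact this
    rw [div_le_iff₀ (by linarith)]
    linarith
  have h9 := (abs_le.1 ((Complex.abs_re_le_norm _).trans h6)).1
  rw [Complex.add_re]
  linarith

lemma ug_num {w : ℂ} (hw : ‖w‖ < 1) : 1 + w / 3 ≠ 0 := by
  intro h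
  have h1 : w = -3 := by linear_combination 3 * h
  rw [h1] at hw
  norm_num at hw

lemma ug_key {w : ℂ} (hw : ‖w‖ < 1) :
    1 + 2 * w / 3 - w ^ 2 / 3 ≠ 0 ∧ 0 < ((1 + w / 3) * (1 - w) / (1 + 2 * w / 3 - w ^ 2 / 3)).re := by
  have h1 := ug_re hw
  have h2 := ug_num hw
  have h3 : (1 - w) ≠ 0 := by
    intro h
    have : w = 1 := by linear_combination -h
    rw [this] at hw
    simp at hw
  have h4 : 1 / (1 - w) + (w / 3) / (1 + w / 3) = (1 + 2 * w / 3 - w ^ 2 / 3) / ((1 + w / 3) * (1 - w)) := by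
    have h2' : 3 + w ≠ 0 := by
      intro h
      apply h2
      linear_combination h / 3
    field_simp
    ring
  rw [h4] at h1
  have h5 : (1 + 2 * w / 3 - w ^ 2 / 3) ≠ 0 := by
    intro h
    rw [h] at h1
    simp at h1
  refine ⟨h5, ?_⟩
  have h6 : (1 + w / 3) * (1 - w) / (1 + 2 * w / 3 - w ^ 2 / 3) =
      ((1 + 2 * w / 3 - w ^ 2 / 3) / ((1 + w / 3) * (1 - w)))⁻¹ := by
    rw [inv_div]
  rw [h6, Complex.inv_re]
  apply div_pos h1
  rw [Complex.normSq_pos]
  intro h
  rw [h] at h1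
  simp at h1

lemma ug_SS {s : ℂ} (hs : ‖s‖ = 1) (hs2 : s ^ 2 = 1) : SS (F (ug s)) := by
  have hsz : ∀ z ∈ ball (0 : ℂ) 1, ‖s * z‖ < 1 := by
    intro z hz
    rw [norm_mul, hs, one_mul]
    exact mem_ball_zero_iff.1 hz
  apply F_SS
  · exact fun z hz => (ug_deriv hs hs2 hz).differentiableAt.differentiableWithinAt
  · intro z hz w hw h
    have h1 := ug_den hs hz
    have h2 := ug_den hs hw
    simp only [ug] at h
    rw [div_eq_div_iff h1 h2] at h
    have h3 : (z - w) * (1 + s * (z + w) / 3 - z * w / 3) = 0 := by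
      linear_combination h + (z * w * (z - w) / 3) * hs2
    rcases mul_eq_zero.1 h3 with h4 | h4
    · exact sub_eq_zero.1 h4
    · exfalso
      have h5 : (3 : ℂ) = z * w - s * z - s * w := by linear_combination 3 * h4
      have h6 : (3 : ℝ) ≤ ‖z‖ * ‖w‖ + ‖z‖ + ‖w‖ := by
        calc (3 : ℝ) = ‖(3 : ℂ)‖ := by norm_num
          _ = ‖z * w - s * z - s * w‖ := by rw [h5]
          _ ≤ ‖z * w - s * z‖ + ‖s * w‖ := norm_sub_le _ _
          _ ≤ ‖z * w‖ + ‖s * z‖ + ‖s * w‖ := by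
              have := norm_sub_le (z * w) (s * z)
              linarith
          _ = ‖z‖ * ‖w‖ + ‖z‖ + ‖w‖ := by
              rw [norm_mul, norm_mul, norm_mul, hs, one_mul, one_mul]
      rw [mem_ball_zero_iff] at hz hw
      have := norm_nonneg z
      have := norm_nonneg w
      nlinarith
  · simp [ug]
  · rw [(ug_deriv hs hs2 (by simp)).deriv]
    simp
  · intro z hz
    rw [(ug_deriv hs hs2 hz).deriv]
    have h1 := ug_den hs hz
    have h2 := (ug_key (hsz z hz)).1
    exact div_ne_zero h2 (pow_ne_zero 2 h1)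
  · intro z hz hz0
    rw [(ug_deriv hs hs2 hz).deriv]
    have h1 := ug_den hs hz
    obtain ⟨h2, h3⟩ := ug_key (hsz z hz)
    have h4 : (starRingEnd ℂ) z * (((1 + 2 * (s * z) / 3 - (s * z) ^ 2 / 3) / (1 - s * z) ^ 2)⁻¹ * ug s z) =
        ((‖z‖ ^ 2 : ℝ) : ℂ) * ((1 + s * z / 3) * (1 - s * z) / (1 + 2 * (s * z) / 3 - (s * z) ^ 2 / 3)) := by
      have : (((‖z‖ ^ 2 : ℝ)) : ℂ) = z * (starRingEnd ℂ) z := by
        rw [Complex.mul_conj']
        push_cast
        rfl
      rw [this, ug, inv_div]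
      field_simp
    rw [h4, Complex.re_ofReal_mul]
    have h5 := norm_pos_iff.2 hz0
    positivity

/-! ### functionals -/

/-- continuous linear functionals -/
def LL (L : (E → E) → ℂ) : Prop :=
  ((∀ g₁ g₂ : E → E, DifferentiableOn ℂ g₁ (Metric.ball 0 1) → DifferentiableOn ℂ g₂ (Metric.ball 0 1) →
          L (g₁ + g₂) = L g₁ + L g₂) ∧
       (∀ (c : ℂ) (g : E → E), DifferentiableOn ℂ g (Metric.ball 0 1) → L (c • g) = c * L g) ∧
       ∃ K : Set E, IsCompact K ∧ K ⊆ Metric.ball 0 1 ∧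
         ∃ C : ℝ, ∀ g : E → E, DifferentiableOn ℂ g (Metric.ball 0 1) →
           ∀ M : ℝ, (∀ x ∈ K, ‖g x‖ ≤ M) → ‖L g‖ ≤ C * M)

lemma LL_sub {L : (E → E) → ℂ} (hL : LL L) {g₁ g₂ : E → E} (h1 : DifferentiableOn ℂ g₁ (ball 0 1))
    (h2 : DifferentiableOn ℂ g₂ (ball 0 1)) : L (g₁ + (-1 : ℂ) • g₂) = L g₁ - L g₂ := by
  obtain ⟨ha, hs, -⟩ := hL
  rw [ha _ _ h1 (h2.const_smul _), hs _ _ h2]
  ring

lemma LL_congr {L : (E → E) → ℂ} (hL : LL L) {g₁ g₂ : E → E} (h1 : DifferentiableOn ℂ g₁ (ball 0 1))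
    (h2 : DifferentiableOn ℂ g₂ (ball 0 1)) (h : ∀ z ∈ ball (0 : E) 1, g₁ z = g₂ z) : L g₁ = L g₂ := by
  have e1 := LL_sub hL h1 h2
  obtain ⟨-, -, K, -, hK, C, hC⟩ := hL
  have h3 := hC (g₁ + (-1 : ℂ) • g₂) (h1.add (h2.const_smul _)) 0 (by
    intro x hx
    simp [h x (hK hx)])
  rw [mul_zero, e1] at h3
  exact sub_eq_zero.1 (norm_le_zero_iff.1 h3)

lemma deriv_bound {g : E → E} (hg : DifferentiableOn ℂ g (ball 0 1)) {r : ℝ} (hr : r < 1) :
    ∃ C : ℝ, 0 ≤ C ∧ ∀ w ∈ closedBall (0 : E) r, ‖fderiv ℂ g w‖ ≤ C := by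
  set r' := (1 + r) / 2 with hr'
  have h1 : r < r' := by
    rw [hr']
    linarith
  have h2 : r' < 1 := by
    rw [hr']
    linarith
  obtain ⟨B, hB⟩ := (isCompact_closedBall (0 : E) r').exists_bound_of_continuousOn
    (hg.continuousOn.mono (closedBall_subset_ball h2))
  have hd : 0 < r' - r := by linarith
  refine ⟨|B| / (r' - r), by positivity, fun w hw => ?_⟩
  apply ContinuousLinearMap.opNorm_le_bound _ (by positivity)
  intro v
  by_cases hv : v = 0
  · rw [hv]
    simp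
  · have hvn := norm_pos_iff.2 hv
    set R := (r' - r) / ‖v‖ with hR
    have hR0 : 0 < R := by positivity
    have hmaps : ∀ z ∈ closedBall (0 : ℂ) R, w + z • v ∈ closedBall (0 : E) r' := by
      intro z hz
      rw [mem_closedBall_zero_iff] at hz hw ⊢
      have h3 : ‖z • v‖ ≤ r' - r := by
        rw [norm_smul]
        calc ‖z‖ * ‖v‖ ≤ R * ‖v‖ := mul_le_mul_of_nonneg_right hz hvn.le
          _ = r' - r := by
            rw [hR]
            field_simp
      have := norm_add_le w (z • v)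
      linarith
    have hder : ∀ z ∈ closedBall (0 : ℂ) R,
        HasDerivAt (fun z : ℂ => g (w + z • v)) (fderiv ℂ g (w + z • v) v) z := by
      intro z hz
      have h3 := closedBall_subset_ball h2 (hmaps z hz)
      have h4 := (hg.differentiableAt (isOpen_ball.mem_nhds h3)).hasFDerivAt
      have h5 : HasDerivAt (fun z : ℂ => w + z • v) v z := by
        have := ((hasDerivAt_id z).smul_const v).const_add w
        simpa using this
      exact h4.comp_hasDerivAt z h5
    have hdc : DiffContOnCl ℂ (fun z : ℂ => g (w + z • v)) (ball 0 R) := by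
      apply DifferentiableOn.diffContOnCl
      intro z hz
      exact (hder z (closure_ball_subset_closedBall hz)).differentiableAt.differentiableWithinAt
    have h6 := Complex.norm_deriv_le_of_forall_mem_sphere_norm_le hR0 hdc (C := |B|) (by
      intro z hz
      exact (hB _ (hmaps z (sphere_subset_closedBall hz))).trans (le_abs_self B))
    rw [(hder 0 (by simp [hR0.le])).deriv] at h6
    simp only [zero_smul, add_zero] at h6
    have h7 : |B| / R = |B| / (r' - r) * ‖v‖ := by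
      rw [hR]
      field_simp
    rw [h7] at h6
    exact h6

lemma approx {L : (E → E) → ℂ} (hL : LL L) {g : E → E} (hg : DifferentiableOn ℂ g (ball 0 1)) {η : ℝ}
    (hη : 0 < η) : ∃ r : ℝ, 0 < r ∧ r < 1 ∧
      DifferentiableOn ℂ (fun z : E => (r : ℂ)⁻¹ • g ((r : ℂ) • z)) (ball 0 1) ∧
      ‖L (fun z : E => (r : ℂ)⁻¹ • g ((r : ℂ) • z)) - L g‖ ≤ η := by
  have hdiff : ∀ r : ℝ, 0 < r → r < 1 →
      DifferentiableOn ℂ (fun z : E => (r : ℂ)⁻¹ • g ((r : ℂ) • z)) (ball 0 1) := by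
    intro r hr hr1
    apply DifferentiableOn.fun_const_smul
    apply hg.comp (by fun_prop)
    intro z hz
    simp only [mem_ball_zero_iff] at hz ⊢
    rw [norm_smul, Complex.norm_real, Real.norm_eq_abs, abs_of_pos hr]
    have := norm_nonneg z
    nlinarith
  have hsub := fun r (hr : 0 < r) (hr1 : r < 1) => LL_sub hL (hdiff r hr hr1) hg
  obtain ⟨-, -, K, hKc, hK, C, hC⟩ := hL
  have hcont : ContinuousOn (fun p : ℝ × E => ((p.1 : ℝ) : ℂ)⁻¹ • g (((p.1 : ℝ) : ℂ) • p.2))
      (Set.Icc (1 / 2) 1 ×ˢ K) := by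
    apply ContinuousOn.fun_smul
    · apply ContinuousOn.inv₀ (by fun_prop)
      intro p hp
      have := hp.1.1
      have h0 : (p.1 : ℝ) ≠ 0 := by linarith
      exact_mod_cast h0
    · apply hg.continuousOn.comp (by fun_prop)
      intro p hp
      have h1 := hp.1.1
      have h2 := hp.1.2
      have h3 := hK hp.2
      simp only [mem_ball_zero_iff] at h3 ⊢
      rw [norm_smul, Complex.norm_real, Real.norm_eq_abs, abs_of_pos (by linarith)]
      have := norm_nonneg p.2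
      nlinarith
  have huc := (isCompact_Icc.prod hKc).uniformContinuousOn_of_continuous hcont
  rw [Metric.uniformContinuousOn_iff] at huc
  obtain ⟨δ, hδ, hδ'⟩ := huc (η / (|C| + 1)) (by positivity)
  set r := max (1 / 2) (1 - δ / 2) with hr
  have hr0 : 1 / 2 ≤ r := le_max_left _ _
  have hr1 : r < 1 := max_lt (by norm_num) (by linarith)
  have hr2 : 1 - δ / 2 ≤ r := le_max_right _ _
  refine ⟨r, by linarith, hr1, hdiff r (by linarith) hr1, ?_⟩
  rw [← hsub r (by linarith) hr1]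
  have h4 := hC ((fun z : E => (r : ℂ)⁻¹ • g ((r : ℂ) • z)) + (-1 : ℂ) • g)
    ((hdiff r (by linarith) hr1).add (hg.const_smul _)) (η / (|C| + 1)) (by
      intro x hx
      have h5 := hδ' (r, x) ⟨⟨hr0, hr1.le⟩, hx⟩ (1, x) ⟨⟨by norm_num, le_refl _⟩, hx⟩ (by
        rw [Prod.dist_eq, max_lt_iff]
        simp only [dist_self]
        refine ⟨?_, hδ⟩
        rw [Real.dist_eq, abs_lt]
        constructor <;> linarith)
      rw [dist_eq_norm] at h5
      simp only [Complex.ofReal_one, inv_one, one_smul] at h5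
      have h6 : ((fun z : E => (r : ℂ)⁻¹ • g ((r : ℂ) • z)) + (-1 : ℂ) • g) x =
          (r : ℂ)⁻¹ • g ((r : ℂ) • x) - g x := by
        simp [sub_eq_add_neg]
      rw [h6]
      exact h5.le)
  refine h4.trans ?_
  have h7 : C ≤ |C| + 1 := by
    have := le_abs_self C
    linarith
  have h8 : 0 < |C| + 1 := by positivity
  calc C * (η / (|C| + 1)) ≤ (|C| + 1) * (η / (|C| + 1)) := mul_le_mul_of_nonneg_right h7 (by positivity)
    _ = η := by field_simp

/-- perturbations of the identity are starlike -/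
lemma perturb {φ : E → E} {φ' : E → E →L[ℂ] E} {D : ℝ} (hD : 0 < D)
    (hφ : ∀ z ∈ ball (0 : E) 1, HasFDerivAt φ (φ' z) z) (hφ' : ∀ z ∈ ball (0 : E) 1, ‖φ' z‖ ≤ D)
    (h0 : φ 0 = 0) (h1 : φ' 0 = 0) :
    SS (fun z => z - ((1 / (4 * D) : ℝ) : ℂ) • φ z) := by
  set ε : ℝ := 1 / (4 * D) with hε
  have hε0 : 0 < ε := by positivity
  have hεD : ε * D = 1 / 4 := by
    rw [hε]
    field_simp
  have hlip : ∀ z ∈ ball (0 : E) 1, ∀ w ∈ ball (0 : E) 1, ‖φ z - φ w‖ ≤ D * ‖z - w‖ := by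
    intro z hz w hw
    exact (convex_ball (0 : E) 1).norm_image_sub_le_of_norm_hasFDerivWithin_le
      (fun x hx => (hφ x hx).hasFDerivWithinAt) hφ' hw hz
  have hder : ∀ z ∈ ball (0 : E) 1, HasFDerivAt (fun z => z - ((ε : ℝ) : ℂ) • φ z)
      (ContinuousLinearMap.id ℂ E - ((ε : ℝ) : ℂ) • φ' z) z := by
    intro z hz
    exact (hasFDerivAt_id z).sub ((hφ z hz).fun_const_smul _)
  have hnε : ‖((ε : ℝ) : ℂ)‖ = ε := by
    rw [Complex.norm_real, Real.norm_eq_abs, abs_of_pos hε0]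
  refine ⟨fun z hz => (hder z hz).differentiableAt.differentiableWithinAt, ?_, ?_, ?_, ?_⟩
  · intro z hz w hw h
    simp only at h
    have h2 : z - w = ((ε : ℝ) : ℂ) • (φ z - φ w) := by
      rw [smul_sub]
      have := sub_eq_sub_iff_sub_eq_sub.1 h
      exact this
    have h3 : ‖z - w‖ ≤ 1 / 4 * ‖z - w‖ := by
      calc ‖z - w‖ = ε * ‖φ z - φ w‖ := by rw [h2, norm_smul, hnε]
        _ ≤ ε * (D * ‖z - w‖) := mul_le_mul_of_nonneg_left (hlip z hz w hw) hε0.le
        _ = 1 / 4 * ‖z - w‖ := by rw [← mul_assoc, hεD]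
    have h4 : ‖z - w‖ = 0 := by
      have := norm_nonneg (z - w)
      linarith
    exact sub_eq_zero.1 (norm_eq_zero.1 h4)
  · simp only [h0]
    rw [sub_eq_zero]
    exact (smul_zero _).symm
  · rw [(hder 0 zero_mem).fderiv, h1]
    ext v : 1
    simp
  · intro z hz hz0
    rw [(hder z hz).fderiv, ContinuousLinearMap.id_apply]
    set A : E →L[ℂ] E := ((ε : ℝ) : ℂ) • φ' z with hA
    have hAn : ‖A‖ ≤ 1 / 4 := by
      rw [hA, norm_smul, hnε, ← hεD]
      exact mul_le_mul_of_nonneg_left (hφ' z hz) hε0.le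
    have hAn1 : ‖A‖ < 1 := by linarith
    have hunit : ((ContinuousLinearEquiv.unitsEquiv ℂ E (Units.oneSub A hAn1)) : E →L[ℂ] E) =
        ContinuousLinearMap.id ℂ E - A := rfl
    have hinv : (ContinuousLinearMap.id ℂ E - A).IsInvertible := ⟨_, hunit⟩
    set w := (ContinuousLinearMap.id ℂ E - A).inverse (z - ((ε : ℝ) : ℂ) • φ z) with hw
    have h2 := (hinv.inverse_apply_eq (x := w) (y := z - ((ε : ℝ) : ℂ) • φ z)).1 hw.symm
    rw [sub_apply, ContinuousLinearMap.id_apply] at h2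
    have hφz : ‖((ε : ℝ) : ℂ) • φ z‖ ≤ 1 / 4 * ‖z‖ := by
      rw [norm_smul, hnε]
      have h3 := hlip z hz 0 zero_mem
      rw [h0, sub_zero, sub_zero] at h3
      calc ε * ‖φ z‖ ≤ ε * (D * ‖z‖) := mul_le_mul_of_nonneg_left h3 hε0.le
        _ = 1 / 4 * ‖z‖ := by rw [← mul_assoc, hεD]
    have hAw : ‖A w‖ ≤ 1 / 4 * ‖w‖ := (A.le_opNorm w).trans (mul_le_mul_of_nonneg_right hAn (norm_nonneg _))
    have h4 : w - z = A w - ((ε : ℝ) : ℂ) • φ z := by
      have : w = z - ((ε : ℝ) : ℂ) • φ z + A w := by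
        rw [h2]
        abel
      nth_rewrite 1 [this]
      abel
    have h5 : ‖w - z‖ ≤ 1 / 4 * ‖w‖ + 1 / 4 * ‖z‖ := by
      rw [h4]
      exact (norm_sub_le _ _).trans (add_le_add hAw hφz)
    have h6 : ‖w‖ ≤ ‖w - z‖ + ‖z‖ := by
      have := norm_add_le (w - z) z
      rw [sub_add_cancel] at this
      exact this
    have h7 : ‖w - z‖ ≤ 2 / 3 * ‖z‖ := by linarith
    have h8 : (inner ℂ z w).re = ‖z‖ ^ 2 + (inner ℂ z (w - z)).re := by
      rw [inner_sub_right, Complex.sub_re]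
      have := inner_self_eq_norm_sq (𝕜 := ℂ) z
      simp only [RCLike.re_eq_complex_re] at this
      rw [this]
      ring
    have h9 : |(inner ℂ z (w - z)).re| ≤ ‖z‖ * (2 / 3 * ‖z‖) :=
      (Complex.abs_re_le_norm _).trans ((norm_inner_le_norm _ _).trans
        (mul_le_mul_of_nonneg_left h7 (norm_nonneg _)))
    have h10 := (abs_le.1 h9).1
    have h11 := norm_pos_iff.2 hz0
    rw [h8]
    nlinarith

lemma interior {L : (E → E) → ℂ} (hL : LL L) {M : ℝ} (hmax : ∀ g, SS g → (L g).re ≤ M)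
    (hid : M ≤ (L id).re) {g : E → E} (hg : SS g) : M ≤ (L g).re := by
  by_contra hcon
  push Not at hcon
  obtain ⟨hgd, -, hg0, hg1, -⟩ := hg
  obtain ⟨r, hr0, hr1, hrd, hr⟩ := approx hL hgd (η := (M - (L g).re) / 2) (by linarith)
  set gr : E → E := fun z : E => (r : ℂ)⁻¹ • g ((r : ℂ) • z) with hgr
  have hr' : (r : ℂ) ≠ 0 := by exact_mod_cast hr0.ne'
  have hrn : ‖(r : ℂ)‖ = r := by
    rw [Complex.norm_real, Real.norm_eq_abs, abs_of_pos hr0]
  have h1 : (L gr).re < M := by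
    have h2 := (Complex.abs_re_le_norm _).trans hr
    rw [Complex.sub_re] at h2
    have := (abs_le.1 h2).2
    linarith
  have hmaps : ∀ z ∈ ball (0 : E) 1, (r : ℂ) • z ∈ closedBall (0 : E) r := by
    intro z hz
    rw [mem_ball_zero_iff] at hz
    rw [mem_closedBall_zero_iff, norm_smul, hrn]
    nlinarith
  obtain ⟨C, hC0, hC⟩ := deriv_bound hgd hr1
  have hder : ∀ z ∈ ball (0 : E) 1, HasFDerivAt gr (fderiv ℂ g ((r : ℂ) • z)) z := by
    intro z hz
    have h3 := closedBall_subset_ball hr1 (hmaps z hz)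
    have h4 := (hgd.differentiableAt (isOpen_ball.mem_nhds h3)).hasFDerivAt
    have h5 : HasFDerivAt (fun z : E => (r : ℂ) • z) ((r : ℂ) • ContinuousLinearMap.id ℂ E) z :=
      (hasFDerivAt_id z).fun_const_smul _
    have h6 := (h4.comp z h5).fun_const_smul ((r : ℂ)⁻¹)
    have h7 : (r : ℂ)⁻¹ • ((fderiv ℂ g ((r : ℂ) • z)).comp ((r : ℂ) • ContinuousLinearMap.id ℂ E)) =
        fderiv ℂ g ((r : ℂ) • z) := by
      ext v : 1
      simp only [smul_apply, ContinuousLinearMap.comp_apply,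
        ContinuousLinearMap.id_apply, map_smul]
      rw [smul_smul, inv_mul_cancel₀ hr', one_smul]
    rw [h7] at h6
    exact h6
  have hpert := perturb (φ := fun z => gr z - z) (φ' := fun z => fderiv ℂ g ((r : ℂ) • z) - ContinuousLinearMap.id ℂ E)
    (D := C + 1) (by positivity) (fun z hz => (hder z hz).sub (hasFDerivAt_id z))
    (fun z hz => by
      refine (norm_sub_le _ _).trans (add_le_add (hC _ (hmaps z hz)) ?_)
      exact ContinuousLinearMap.norm_id_le)
    (by simp [hgr, hg0]) (by simp [hg1])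
  set ε : ℝ := 1 / (4 * (C + 1)) with hε
  have hε0 : 0 < ε := by positivity
  have h8 : (fun z : E => z - ((ε : ℝ) : ℂ) • (gr z - z)) = ((1 + ε : ℝ) : ℂ) • (id : E → E) + ((-ε : ℝ) : ℂ) • gr := by
    funext z
    simp only [Pi.add_apply, Pi.smul_apply, id]
    push_cast
    rw [smul_sub, add_smul, one_smul, neg_smul]
    abel
  have h9 := hmax _ hpert
  rw [h8] at h9
  have hidd : DifferentiableOn ℂ (id : E → E) (ball 0 1) := differentiableOn_id
  rw [hL.1 _ _ (hidd.const_smul _) (hrd.const_smul _), hL.2.1 _ _ hidd, hL.2.1 _ _ hrd, Complex.add_re,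
    Complex.re_ofReal_mul, Complex.re_ofReal_mul] at h9
  nlinarith

lemma mixture {L : (E → E) → ℂ} (hL : LL L) (hmax : ∀ g, SS g → (L g).re ≤ (L (F uf)).re) :
    (L (F uf)).re ≤ (L id).re := by
  have hp : ‖(1 : ℂ)‖ = 1 := norm_one
  have hm : ‖(-1 : ℂ)‖ = 1 := by simp
  have h1 := ug_SS hp (by norm_num)
  have h2 := ug_SS hm (by norm_num)
  have hidd : DifferentiableOn ℂ (id : E → E) (ball 0 1) := differentiableOn_id
  have h3 : L (F uf) = L (((1 / 4 : ℝ) : ℂ) • (id : E → E) + (((3 / 8 : ℝ) : ℂ) • F (ug 1) + ((3 / 8 : ℝ) : ℂ) • F (ug (-1)))) := by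
    apply LL_congr hL uf_SS.1 ((hidd.const_smul _).add ((h1.1.const_smul _).add (h2.1.const_smul _)))
    intro z hz
    have e1 := ug_den hp (coord_mem hz)
    have e2 := ug_den hm (coord_mem hz)
    have e3 := one_sub_sq_ne (coord_mem hz)
    apply E_ext
    · simp only [Pi.add_apply, Pi.smul_apply, id, PiLp.add_apply, PiLp.smul_apply, F_zero, smul_eq_mul, uf, ug]
      rw [one_mul] at e1
      rw [neg_one_mul, sub_neg_eq_add] at e2
      rw [one_mul, neg_one_mul, sub_neg_eq_add]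
      push_cast
      field_simp
      ring
    · simp only [Pi.add_apply, Pi.smul_apply, id, PiLp.add_apply, PiLp.smul_apply, F_one, smul_eq_mul]
      push_cast
      ring
  have h4 := hmax _ h1
  have h5 := hmax _ h2
  have h6 : (L (F uf)).re = 1 / 4 * (L id).re + (3 / 8 * (L (F (ug 1))).re + 3 / 8 * (L (F (ug (-1)))).re) := by
    rw [h3, hL.1 _ _ (hidd.const_smul _) ((h1.1.const_smul _).add (h2.1.const_smul _)),
      hL.1 _ _ (h1.1.const_smul _) (h2.1.const_smul _), hL.2.1 _ _ hidd, hL.2.1 _ _ h1.1, hL.2.1 _ _ h2.1]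
    simp only [Complex.add_re, Complex.re_ofReal_mul]
  linarith

/-! ### the functional for the vector fields -/

/-- restriction to the first axis -/
def uN (g : E → E) (z : ℂ) : ℂ := g (z • e0) 0

lemma norm_smul_e0 (z : ℂ) : ‖z • e0‖ = ‖z‖ := by
  rw [norm_smul, norm_e0, mul_one]

lemma uN_diff {g : E → E} (hg : DifferentiableOn ℂ g (ball 0 1)) : DifferentiableOn ℂ (uN g) (ball 0 1) := by
  intro z hz
  have h1 : z • e0 ∈ ball (0 : E) 1 := by
    rw [mem_ball_zero_iff, norm_smul_e0]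
    exact mem_ball_zero_iff.1 hz
  have h2 := (hg.differentiableAt (isOpen_ball.mem_nhds h1))
  have h3 : DifferentiableAt ℂ (fun z : ℂ => g (z • e0)) z := by
    apply DifferentiableAt.comp z h2
    fun_prop
  have h4 : DifferentiableAt ℂ (fun z : ℂ => pr (g (z • e0))) z := pr.differentiableAt.comp z h3
  exact h4.differentiableWithinAt

lemma uN_deriv {g : E → E} (hg : DifferentiableOn ℂ g (ball 0 1))
    (h1 : fderiv ℂ g 0 = ContinuousLinearMap.id ℂ E) : deriv (uN g) 0 = 1 := by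
  have h2 := (hg.differentiableAt (isOpen_ball.mem_nhds zero_mem)).hasFDerivAt
  rw [h1] at h2
  have h3 : HasDerivAt (fun z : ℂ => z • e0) e0 0 := by
    have := (hasDerivAt_id (0 : ℂ)).smul_const e0
    simpa using this
  have h2' : HasFDerivAt g (ContinuousLinearMap.id ℂ E) ((fun z : ℂ => z • e0) 0) := by
    simpa using h2
  have h4 := h2'.comp_hasDerivAt (0 : ℂ) h3
  have h5 := (pr.hasFDerivAt (x := (g ∘ fun z : ℂ => z • e0) 0)).comp_hasDerivAt (0 : ℂ) h4
  have h6 : HasDerivAt (uN g) (pr (ContinuousLinearMap.id ℂ E e0)) 0 := h5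
  rw [h6.deriv, ContinuousLinearMap.id_apply, pr_apply, e0_zero]

/-- the functional -/
def LF (g : E → E) : ℂ := -((2 * π * I)⁻¹ * ∮ z in C(0, 1 / 2), (1 / (z - 0) ^ (3 + 1)) • uN g z)

lemma half_pos' : (0 : ℝ) < 1 / 2 := by norm_num

lemma ci {u : ℂ → ℂ} (hu : DifferentiableOn ℂ u (ball 0 1)) :
    CircleIntegrable (fun z : ℂ => (1 / (z - 0) ^ (3 + 1)) • u z) 0 (1 / 2) := by
  apply ContinuousOn.circleIntegrable half_pos'.le
  apply ContinuousOn.fun_smul
  · apply ContinuousOn.div continuousOn_const (by fun_prop)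
    intro z hz
    rw [mem_sphere_zero_iff_norm] at hz
    have : z ≠ 0 := by
      intro h
      rw [h, norm_zero] at hz
      norm_num at hz
    simp [this]
  · apply hu.continuousOn.mono
    exact sphere_subset_closedBall.trans (closedBall_subset_ball (by norm_num))

lemma LF_LL : LL LF := by
  refine ⟨?_, ?_, (fun z : ℂ => z • e0) '' sphere 0 (1 / 2), ?_, ?_, 8, ?_⟩
  · intro g₁ g₂ h1 h2
    unfold LF
    have h3 := circleIntegral.integral_add (ci (uN_diff h1)) (ci (uN_diff h2))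
    have h4 : (fun z : ℂ => (1 / (z - 0) ^ (3 + 1)) • uN (g₁ + g₂) z) =
        fun z => (1 / (z - 0) ^ (3 + 1)) • uN g₁ z + (1 / (z - 0) ^ (3 + 1)) • uN g₂ z := by
      funext z
      have : uN (g₁ + g₂) z = uN g₁ z + uN g₂ z := rfl
      rw [this, smul_add]
    rw [h4, h3]
    ring
  · intro c g h1
    unfold LF
    have h4 : (fun z : ℂ => (1 / (z - 0) ^ (3 + 1)) • uN (c • g) z) =
        fun z => c * ((1 / (z - 0) ^ (3 + 1)) • uN g z) := by
      funext z
      have : uN (c • g) z = c * uN g z := rfl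
      rw [this, smul_eq_mul, smul_eq_mul]
      ring
    rw [h4, circleIntegral.integral_const_mul]
    ring
  · exact (isCompact_sphere 0 _).image (by fun_prop)
  · rintro _ ⟨z, hz, rfl⟩
    rw [mem_sphere_zero_iff_norm] at hz
    rw [mem_ball_zero_iff]
    simp only
    rw [norm_smul_e0, hz]
    norm_num
  · intro g _ M hM
    unfold LF
    rw [norm_neg]
    have h1 := circleIntegral.norm_two_pi_i_inv_smul_integral_le_of_norm_le_const (c := 0)
      (f := fun z : ℂ => (1 / (z - 0) ^ (3 + 1)) • uN g z) half_pos'.le (C := 16 * M) (by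
      intro z hz
      rw [mem_sphere_zero_iff_norm] at hz
      rw [norm_smul, sub_zero, norm_div, norm_pow, hz, norm_one]
      have h2 : ‖uN g z‖ ≤ M := by
        refine (coord_le _ 0).trans (hM _ ⟨z, ?_, rfl⟩)
        rw [mem_sphere_zero_iff_norm, hz]
      norm_num
      linarith)
    rw [smul_eq_mul] at h1
    refine h1.trans (le_of_eq ?_)
    ring

lemma LF_eq {g : E → E} (hg : DifferentiableOn ℂ g (ball 0 1)) : LF g = -(iteratedDeriv 3 (uN g) 0 / 6) := by
  unfold LF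
  rw [coef_indep (uN_diff hg) half_pos' (by norm_num) 3]
  have : (2 * π * I : ℂ) ≠ 0 := by simp [Real.pi_ne_zero]
  rw [smul_eq_mul]
  simp [Nat.factorial]
  field_simp
  rw [I_sq]
  ring

lemma LF_bound {g : E → E} (hg : NN g) : (LF g).re ≤ 2 := by
  obtain ⟨h1, h2, h3, h4⟩ := hg
  rw [LF_eq h1, Complex.neg_re]
  apply coef_bound (uN_diff h1) (uN_deriv h1 h3)
  intro z hz
  by_cases hz0 : z = 0
  · rw [hz0]
    simp
  · have h5 : z • e0 ∈ ball (0 : E) 1 := by
      rw [mem_ball_zero_iff, norm_smul_e0]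
      exact mem_ball_zero_iff.1 hz
    have h6 : z • e0 ≠ 0 := by
      intro h
      have := norm_smul_e0 z
      rw [h, norm_zero] at this
      exact hz0 (norm_eq_zero.1 this.symm)
    have h7 := h4 _ h5 h6
    rw [inner_re] at h7
    simp only [PiLp.smul_apply, e0_zero, e0_one, smul_eq_mul, mul_one, mul_zero, map_zero, zero_mul,
      Complex.zero_re, add_zero] at h7
    exact h7.le

/-- the extremal function -/
def uh (z : ℂ) : ℂ := z * ((1 - z ^ 2) / (1 + z ^ 2))

lemma uh_deriv {z : ℂ} (hz : z ∈ ball (0 : ℂ) 1) : HasDerivAt uh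
    (1 * ((1 - z ^ 2) / (1 + z ^ 2)) + z * ((-(2 * z) * (1 + z ^ 2) - (1 - z ^ 2) * (2 * z)) / (1 + z ^ 2) ^ 2)) z := by
  have h1 : HasDerivAt (fun z : ℂ => z) 1 z := hasDerivAt_id z
  have h2 : HasDerivAt (fun z : ℂ => 1 - z ^ 2) (-(2 * z)) z := by
    have := (hasDerivAt_pow 2 z).const_sub 1
    simpa using this
  have h3 : HasDerivAt (fun z : ℂ => 1 + z ^ 2) (2 * z) z := by
    have := (hasDerivAt_pow 2 z).const_add 1
    simpa using this
  exact h1.mul (h2.div h3 (one_add_sq_ne hz))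

lemma uh_diff : DifferentiableOn ℂ uh (ball 0 1) := fun _ hz =>
  (uh_deriv hz).differentiableAt.differentiableWithinAt

lemma uh_NN : NN (F uh) := by
  apply F_NN uh_diff
  · simp [uh]
  · rw [(uh_deriv (by simp)).deriv]
    simp
  · intro z hz hz0
    exact uf_pos hz hz0

lemma LF_uh : LF (F uh) = 2 := by
  unfold LF
  have h1 : (∮ z in C(0, 1 / 2), (1 / (z - 0) ^ (3 + 1)) • uN (F uh) z) =
      ∮ z in C(0, 1 / 2), ((z - 0) ^ (-3 : ℤ) + ((-2) * (z - 0)⁻¹ + 2 * z / (1 + z ^ 2))) := by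
    apply circleIntegral.integral_congr half_pos'.le
    intro z hz
    rw [mem_sphere_zero_iff_norm] at hz
    have hz0 : z ≠ 0 := by
      intro h
      rw [h, norm_zero] at hz
      norm_num at hz
    have hb : z ∈ ball (0 : ℂ) 1 := by
      rw [mem_ball_zero_iff, hz]
      norm_num
    have h2 := one_add_sq_ne hb
    have h3 : uN (F uh) z = uh z := by
      unfold uN
      rw [F_zero]
      simp [e0_zero]
    simp only [sub_zero]
    rw [h3, smul_eq_mul, uh]
    have h4 : z ^ (-3 : ℤ) = 1 / z ^ 3 := by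
      rw [zpow_neg, one_div]
      norm_cast
    rw [h4]
    field_simp
    ring
  have hsph : ∀ z ∈ sphere (0 : ℂ) (1 / 2), z - 0 ≠ 0 := by
    intro z hz
    rw [mem_sphere_zero_iff_norm] at hz
    intro h
    rw [sub_zero] at h
    rw [h, norm_zero] at hz
    norm_num at hz
  have c1 : CircleIntegrable (fun z : ℂ => (z - 0) ^ (-3 : ℤ)) 0 (1 / 2) := by
    apply ContinuousOn.circleIntegrable half_pos'.le
    apply ContinuousOn.zpow₀ (by fun_prop)
    intro z hz
    exact Or.inl (hsph z hz)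
  have c2 : CircleIntegrable (fun z : ℂ => (-2) * (z - 0)⁻¹) 0 (1 / 2) := by
    apply ContinuousOn.circleIntegrable half_pos'.le
    apply ContinuousOn.mul continuousOn_const
    apply ContinuousOn.inv₀ (by fun_prop)
    exact hsph
  have hd : DifferentiableOn ℂ (fun z : ℂ => 2 * z / (1 + z ^ 2)) (closedBall 0 (1 / 2)) := by
    apply DifferentiableOn.div (by fun_prop) (by fun_prop)
    intro z hz
    exact one_add_sq_ne (closedBall_subset_ball (by norm_num) hz)
  have c3 : CircleIntegrable (fun z : ℂ => 2 * z / (1 + z ^ 2)) 0 (1 / 2) :=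
    ContinuousOn.circleIntegrable half_pos'.le (hd.continuousOn.mono sphere_subset_closedBall)
  have c23 : CircleIntegrable (fun z : ℂ => (-2) * (z - 0)⁻¹ + 2 * z / (1 + z ^ 2)) 0 (1 / 2) := c2.add c3
  have e3 : (∮ z in C(0, 1 / 2), 2 * z / (1 + z ^ 2) : ℂ) = 0 := by
    apply circleIntegral_eq_zero_of_differentiable_on_off_countable half_pos'.le Set.countable_empty
      hd.continuousOn
    intro z hz
    apply DifferentiableAt.div (by fun_prop) (by fun_prop)
    exact one_add_sq_ne (ball_subset_ball (by norm_num) hz.1)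
  rw [h1, circleIntegral.integral_add c1 c23, circleIntegral.integral_add c2 c3, e3,
    circleIntegral.integral_const_mul, circleIntegral.integral_sub_center_inv 0 (by norm_num),
    circleIntegral.integral_sub_zpow_of_ne (by norm_num)]
  have : (2 * π * I : ℂ) ≠ 0 := by simp [Real.pi_ne_zero]
  field_simp
  ring

lemma id_NN : NN (F id) := by
  apply F_NN differentiableOn_id rfl
  · simp
  · intro z _ hz
    rw [id, sq_coord]
    have := norm_pos_iff.2 hz
    positivity

lemma LF_id : LF (F id) = 0 := by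
  have h1 : uN (F id) = id := by
    funext z
    unfold uN
    rw [F_zero]
    simp [e0_zero]
  rw [LF_eq id_NN.1, h1]
  have h2 : iteratedDeriv 3 (id : ℂ → ℂ) 0 = 0 := by
    rw [iteratedDeriv_succ', iteratedDeriv_succ']
    simp
  rw [h2]
  simp

lemma hf_eq {z : E} (hz : z ∈ ball (0 : E) 1) :
    (fderiv ℂ (F uf) z).inverse (ContinuousLinearMap.id ℂ E (F uf z)) = F uh z := by
  have hd : deriv uf (z 0) ≠ 0 := by
    rw [(uf_deriv (coord_mem hz)).deriv]
    exact div_ne_zero (one_add_sq_ne (coord_mem hz)) (pow_ne_zero 2 (one_sub_sq_ne (coord_mem hz)))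
  rw [F_fderiv uf_diff hz, T_inv hd, ContinuousLinearMap.id_apply]
  apply E_ext
  · rw [T_zero, F_zero, F_zero, uf_ratio (coord_mem hz), uh]
  · rw [T_one, F_one, F_one]

lemma hf_diff : DifferentiableOn ℂ
    (fun z : E => (fderiv ℂ (F uf) z).inverse (ContinuousLinearMap.id ℂ E (F uf z))) (ball 0 1) :=
  (uh_NN.1).congr (fun z hz => hf_eq hz)

end

/-- The negation of the preceding statement: For n at least 2, A with max eigenvalue real part below twice min Re(Az,z) on the sphere, and f normalized spirallike w.r.t. A on the ball: f is a support point of that family iff h = Df^{-1} A f is a support point of N_A. -/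
theorem result :
    ¬ (∀ n : ℕ, 2 ≤ n →
  ∀ A : EuclideanSpace ℂ (Fin n) →L[ℂ] EuclideanSpace ℂ (Fin n),
  (∃ c : ℝ, (∀ z : EuclideanSpace ℂ (Fin n), ‖z‖ = 1 → c ≤ (inner ℂ z (A z)).re) ∧
     ∀ μ : ℂ, Module.End.HasEigenvalue A.toLinearMap μ → μ.re < 2 * c) →
  ∀ f : EuclideanSpace ℂ (Fin n) → EuclideanSpace ℂ (Fin n),
  (DifferentiableOn ℂ f (Metric.ball 0 1) ∧ Set.InjOn f (Metric.ball 0 1) ∧ f 0 = 0 ∧
     fderiv ℂ f 0 = ContinuousLinearMap.id ℂ (EuclideanSpace ℂ (Fin n)) ∧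
     ∀ z ∈ Metric.ball (0 : EuclideanSpace ℂ (Fin n)) 1, z ≠ 0 →
       0 < (inner ℂ z ((fderiv ℂ f z).inverse (A (f z)))).re) →
  ((∃ L : (EuclideanSpace ℂ (Fin n) → EuclideanSpace ℂ (Fin n)) → ℂ,
      ((∀ g₁ g₂ : EuclideanSpace ℂ (Fin n) → EuclideanSpace ℂ (Fin n),
          DifferentiableOn ℂ g₁ (Metric.ball 0 1) → DifferentiableOn ℂ g₂ (Metric.ball 0 1) →
          L (g₁ + g₂) = L g₁ + L g₂) ∧
       (∀ (c : ℂ) (g : EuclideanSpace ℂ (Fin n) → EuclideanSpace ℂ (Fin n)),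
          DifferentiableOn ℂ g (Metric.ball 0 1) → L (c • g) = c * L g) ∧
       ∃ K : Set (EuclideanSpace ℂ (Fin n)), IsCompact K ∧ K ⊆ Metric.ball 0 1 ∧
         ∃ C : ℝ, ∀ g : EuclideanSpace ℂ (Fin n) → EuclideanSpace ℂ (Fin n),
           DifferentiableOn ℂ g (Metric.ball 0 1) →
           ∀ M : ℝ, (∀ x ∈ K, ‖g x‖ ≤ M) → ‖L g‖ ≤ C * M) ∧
      (∃ g₁ g₂ : EuclideanSpace ℂ (Fin n) → EuclideanSpace ℂ (Fin n),
        (DifferentiableOn ℂ g₁ (Metric.ball 0 1) ∧ Set.InjOn g₁ (Metric.ball 0 1) ∧ g₁ 0 = 0 ∧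
          fderiv ℂ g₁ 0 = ContinuousLinearMap.id ℂ (EuclideanSpace ℂ (Fin n)) ∧
          ∀ z ∈ Metric.ball (0 : EuclideanSpace ℂ (Fin n)) 1, z ≠ 0 →
            0 < (inner ℂ z ((fderiv ℂ g₁ z).inverse (A (g₁ z)))).re) ∧
        (DifferentiableOn ℂ g₂ (Metric.ball 0 1) ∧ Set.InjOn g₂ (Metric.ball 0 1) ∧ g₂ 0 = 0 ∧
          fderiv ℂ g₂ 0 = ContinuousLinearMap.id ℂ (EuclideanSpace ℂ (Fin n)) ∧
          ∀ z ∈ Metric.ball (0 : EuclideanSpace ℂ (Fin n)) 1, z ≠ 0 →
            0 < (inner ℂ z ((fderiv ℂ g₂ z).inverse (A (g₂ z)))).re) ∧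
        (L g₁).re ≠ (L g₂).re) ∧
      ∀ g : EuclideanSpace ℂ (Fin n) → EuclideanSpace ℂ (Fin n),
        (DifferentiableOn ℂ g (Metric.ball 0 1) ∧ Set.InjOn g (Metric.ball 0 1) ∧ g 0 = 0 ∧
          fderiv ℂ g 0 = ContinuousLinearMap.id ℂ (EuclideanSpace ℂ (Fin n)) ∧
          ∀ z ∈ Metric.ball (0 : EuclideanSpace ℂ (Fin n)) 1, z ≠ 0 →
            0 < (inner ℂ z ((fderiv ℂ g z).inverse (A (g z)))).re) →
        (L g).re ≤ (L f).re) ↔
   (∃ L : (EuclideanSpace ℂ (Fin n) → EuclideanSpace ℂ (Fin n)) → ℂ,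
      ((∀ g₁ g₂ : EuclideanSpace ℂ (Fin n) → EuclideanSpace ℂ (Fin n),
          DifferentiableOn ℂ g₁ (Metric.ball 0 1) → DifferentiableOn ℂ g₂ (Metric.ball 0 1) →
          L (g₁ + g₂) = L g₁ + L g₂) ∧
       (∀ (c : ℂ) (g : EuclideanSpace ℂ (Fin n) → EuclideanSpace ℂ (Fin n)),
          DifferentiableOn ℂ g (Metric.ball 0 1) → L (c • g) = c * L g) ∧
       ∃ K : Set (EuclideanSpace ℂ (Fin n)), IsCompact K ∧ K ⊆ Metric.ball 0 1 ∧
         ∃ C : ℝ, ∀ g : EuclideanSpace ℂ (Fin n) → EuclideanSpace ℂ (Fin n),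
           DifferentiableOn ℂ g (Metric.ball 0 1) →
           ∀ M : ℝ, (∀ x ∈ K, ‖g x‖ ≤ M) → ‖L g‖ ≤ C * M) ∧
      (∃ g₁ g₂ : EuclideanSpace ℂ (Fin n) → EuclideanSpace ℂ (Fin n),
        (DifferentiableOn ℂ g₁ (Metric.ball 0 1) ∧ g₁ 0 = 0 ∧ fderiv ℂ g₁ 0 = A ∧
          ∀ z ∈ Metric.ball (0 : EuclideanSpace ℂ (Fin n)) 1, z ≠ 0 → 0 < (inner ℂ z (g₁ z)).re) ∧
        (DifferentiableOn ℂ g₂ (Metric.ball 0 1) ∧ g₂ 0 = 0 ∧ fderiv ℂ g₂ 0 = A ∧
          ∀ z ∈ Metric.ball (0 : EuclideanSpace ℂ (Fin n)) 1, z ≠ 0 → 0 < (inner ℂ z (g₂ z)).re) ∧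
        (L g₁).re ≠ (L g₂).re) ∧
      ∀ g : EuclideanSpace ℂ (Fin n) → EuclideanSpace ℂ (Fin n),
        (DifferentiableOn ℂ g (Metric.ball 0 1) ∧ g 0 = 0 ∧ fderiv ℂ g 0 = A ∧
          ∀ z ∈ Metric.ball (0 : EuclideanSpace ℂ (Fin n)) 1, z ≠ 0 → 0 < (inner ℂ z (g z)).re) →
        (L g).re ≤ (L (fun z => (fderiv ℂ f z).inverse (A (f z)))).re))) := by
  intro h
  have h1 := (h 2 le_rfl (ContinuousLinearMap.id ℂ E) ⟨1, ?_, ?_⟩ (F uf) uf_SS).2 ⟨LF, LF_LL, ?_, ?_⟩
  · obtain ⟨L, hL, ⟨g₁, g₂, hg₁, hg₂, hne⟩, hmax⟩ := h1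
    have hL' : LL L := hL
    have hmax' : ∀ g, SS g → (L g).re ≤ (L (F uf)).re := hmax
    have hid := mixture hL' hmax'
    have e1 := interior hL' hmax' hid (g := g₁) hg₁
    have e2 := interior hL' hmax' hid (g := g₂) hg₂
    have e3 := hmax' g₁ hg₁
    have e4 := hmax' g₂ hg₂
    exact hne (le_antisymm (e3.trans e2) (e4.trans e1))
  · intro z hz
    rw [ContinuousLinearMap.id_apply]
    have := inner_self_eq_norm_sq (𝕜 := ℂ) z
    simp only [RCLike.re_eq_complex_re] at this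
    rw [this, hz]
    norm_num
  · intro μ hμ
    obtain ⟨v, hv, hv0⟩ := hμ.exists_hasEigenvector
    have h2 : v = μ • v := by
      have := Module.End.mem_eigenspace_iff.1 hv
      simpa using this
    have h3 : (1 - μ) • v = 0 := by
      rw [sub_smul, one_smul, ← h2, sub_self]
    have h4 : μ = 1 := by
      rcases smul_eq_zero.1 h3 with h5 | h5
      · linear_combination -h5
      · exact absurd h5 hv0
    rw [h4]
    norm_num
  · refine ⟨F uh, F id, uh_NN, id_NN, ?_⟩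
    rw [LF_uh, LF_id]
    norm_num
  · intro g hg
    have h2 : LF (fun z : E => (fderiv ℂ (F uf) z).inverse (ContinuousLinearMap.id ℂ E (F uf z))) = 2 := by
      rw [← LF_uh]
      exact LL_congr LF_LL hf_diff uh_NN.1 (fun z hz => hf_eq hz)
    have h3 := LF_bound (g := g) hg
    have h4 : (LF g).re ≤
        (LF (fun z : E => (fderiv ℂ (F uf) z).inverse (ContinuousLinearMap.id ℂ E (F uf z)))).re := by
      rw [h2]
      exact h3
    exact h4

end Pool.Agent.S03236
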