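import Pool.Statements.S03238
import Pool.Agent.Helper799.L2sum

set_option autoImplicit false
open Classical
open Pool Pool.MP_60034d_an

namespace Pool.Agent.S03238

/-- The negation of the preceding statement: For every sequence of bounded-degree edge-expanders with growing size, the l2-sum of their transportation cost spaces (Kantorovich–Rubinstein norms) fails the cotype-q inequality for every finite q and every constant, i.e. has trivial cotype. -/
theorem result :
    ¬ (∀ (N : ℕ → ℕ) (G : ∀ n, SimpleGraph (Fin (N n))),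
    Filter.Tendsto N Filter.atTop Filter.atTop →
    (∃ d : ℕ, ∀ n (v : Fin (N n)), (G n).degree v ≤ d) →
    (∃ h : ℝ, 0 < h ∧ ∀ n (S : Finset (Fin (N n))), (S.card : ℝ) ≤ (N n : ℝ) / 2 →
        h * (S.card : ℝ) ≤ (((S ×ˢ Sᶜ).filter (fun p => (G n).Adj p.1 p.2)).card : ℝ)) →
    ∀ ν : ∀ n, (Fin (N n) → ℝ) → ℝ,
      (∀ n (f : Fin (N n) → ℝ), ν n f = sSup {r : ℝ | ∃ g : Fin (N n) → ℝ,
          (∀ u v, |g u - g v| ≤ ((G n).dist u v : ℝ)) ∧ r = ∑ v, f v * g v}) →
    ∀ q : ℝ, 2 ≤ q → ∀ C : ℝ,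
      ∃ (m : ℕ) (x : Fin m → ∀ n, Fin (N n) → ℝ),
        (∀ i n, ∑ v, x i n v = 0) ∧
        (∀ i, Summable (fun n => ν n (x i n) ^ 2)) ∧
        C * Real.sqrt ((1 / 2 ^ m : ℝ) * ∑ s : Finset (Fin m),
            ∑' n, ν n (fun v => ∑ i, (if i ∈ s then (1:ℝ) else -1) * x i n v) ^ 2)
          < (∑ i, (Real.sqrt (∑' n, ν n (x i n) ^ 2)) ^ q) ^ (1 / q)) := by
  intro H
  obtain ⟨G, hconn, hdeg, hexp, K, hK, hcot⟩ := Pool.Agent.Helper799.Assemble.exists_family
  obtain ⟨m, x, hx, hsum, hlt⟩ := H (fun n => n + 2) G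
    (Filter.tendsto_add_atTop_nat 2)
    ⟨48, by
      intro n v
      exact hdeg n v ((G n).neighborFinset v) (by
        intro y hy
        exact (SimpleGraph.mem_neighborFinset _ _ _).1 hy)⟩
    ⟨1 / 2, by norm_num, by
      intro n S hS
      have hS' : 2 * S.card ≤ n + 2 := by
        have h1 : (2 * S.card : ℝ) ≤ ((n + 2 : ℕ) : ℝ) := by linarith
        exact_mod_cast h1
      obtain ⟨T, hT1, hT2, hT3⟩ := hexp n S hS'
      refine hT3.trans ?_
      have hle : T.card ≤ ((S ×ˢ Sᶜ).filter (fun p => (G n).Adj p.1 p.2)).card := by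
        choose! g hg1 hg2 using hT2
        apply Finset.card_le_card_of_injOn (fun y => (g y, y))
        · intro y hy
          have hy' : y ∈ T := hy
          rw [Finset.mem_coe, Finset.mem_filter, Finset.mem_product, Finset.mem_compl]
          exact ⟨⟨hg1 y hy', fun hyS => Finset.disjoint_left.1 hT1 hyS hy'⟩, hg2 y hy'⟩
        · intro y _ y' _ h
          exact (Prod.mk.inj h).2
      exact_mod_cast hle⟩
    (fun n f => Pool.Agent.Helper799.Assemble.nu (G n) f)
    (fun n f => rfl) 4 (by norm_num) (Real.sqrt (Real.sqrt K))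
  have hmain := Pool.Agent.Helper799.L2sum.l2sum G hconn K hK hcot m x hx hsum
  refine absurd hlt (not_lt.2 ?_)
  refine hmain.trans (le_of_eq ?_)
  congr 2

end Pool.Agent.S03238
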