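import Pool.Statements.S03244

set_option autoImplicit false
open Pool Pool.MP_6079fc_an

namespace Pool.Agent.S03244

abbrev E := EuclideanSpace ℂ (Fin 1)

lemma normE (z : E) : ‖z‖ = ‖z 0‖ := by
  rw [EuclideanSpace.norm_eq]
  simp

noncomputable def jj (z : ℂ) : ℕ := ⌊(z.re + 2) / 4⌋₊

noncomputable def kap (j : ℕ) : ℝ := 1 / (4 * ((j : ℝ) + 1))

noncomputable def dl (z : ℂ) : ℝ := kap (jj z) * max 0 (1 - ‖z - 4 * (jj z : ℂ)‖ ^ 2)

lemma kap_pos (j : ℕ) : 0 < kap j := by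
  unfold kap; positivity

lemma kap_le (j : ℕ) : kap j ≤ 1 / 4 := by
  unfold kap
  apply one_div_le_one_div_of_le (by norm_num)
  have : (0 : ℝ) ≤ j := Nat.cast_nonneg j
  linarith

lemma jj_eq (z : ℂ) (j : ℕ) (h : ‖z - 4 * (j : ℂ)‖ ≤ 1) : jj z = j := by
  have h1 : |(z - 4 * (j : ℂ)).re| ≤ 1 := (Complex.abs_re_le_norm _).trans h
  have h2 : (z - 4 * (j : ℂ)).re = z.re - 4 * j := by simp
  rw [h2, abs_le] at h1
  unfold jj
  have hj : (0 : ℝ) ≤ j := Nat.cast_nonneg j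
  rw [Nat.floor_eq_iff (by linarith)]
  constructor <;> linarith

lemma dl_nonneg (z : ℂ) : 0 ≤ dl z :=
  mul_nonneg (kap_pos _).le (le_max_left _ _)

lemma dl_pos_iff (z : ℂ) : 0 < dl z ↔ ‖z - 4 * (jj z : ℂ)‖ < 1 := by
  unfold dl
  rw [mul_pos_iff_of_pos_left (kap_pos _), lt_max_iff]
  have h0 := norm_nonneg (z - 4 * (jj z : ℂ))
  constructor
  · rintro (h | h)
    · exact absurd h (lt_irrefl _)
    · nlinarith
  · intro h
    right
    nlinarith

lemma dl_eq (z : ℂ) (h : ‖z - 4 * (jj z : ℂ)‖ < 1) :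
    dl z = kap (jj z) * (1 - ‖z - 4 * (jj z : ℂ)‖ ^ 2) := by
  unfold dl
  rw [max_eq_right]
  have h0 := norm_nonneg (z - 4 * (jj z : ℂ))
  nlinarith

lemma dl_eq' (z : ℂ) (j : ℕ) (h : ‖z - 4 * (j : ℂ)‖ ≤ 1) :
    dl z = kap j * (1 - ‖z - 4 * (j : ℂ)‖ ^ 2) := by
  have hj := jj_eq z j h
  unfold dl
  rw [hj, max_eq_right]
  have h0 := norm_nonneg (z - 4 * (j : ℂ))
  nlinarith

lemma dl_le_add (z z' : ℂ) : dl z ≤ dl z' + ‖z - z'‖ := by
  rcases (dl_nonneg z).eq_or_lt with h | h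
  · rw [← h]; exact add_nonneg (dl_nonneg _) (norm_nonneg _)
  · have hw := (dl_pos_iff z).1 h
    rw [dl_eq z hw]
    set j := jj z with hj
    set a := ‖z - 4 * (j : ℂ)‖ with ha
    set b := ‖z' - 4 * (j : ℂ)‖ with hb
    have ha0 : 0 ≤ a := norm_nonneg _
    have hb0 : 0 ≤ b := norm_nonneg _
    have htri : b ≤ a + ‖z - z'‖ := by
      have : z' - 4 * (j : ℂ) = (z - 4 * (j : ℂ)) - (z - z') := by ring
      rw [hb, this]
      exact norm_sub_le _ _
    have hk := kap_le j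
    have hk0 := kap_pos j
    by_cases hb1 : b ≤ 1
    · have := dl_eq' z' j hb1
      rw [this, ← hb]
      have : b ^ 2 - a ^ 2 ≤ 2 * ‖z - z'‖ := by
        by_cases hab : b ≤ a
        · nlinarith [norm_nonneg (z - z')]
        · push Not at hab
          nlinarith [norm_nonneg (z - z')]
      nlinarith [norm_nonneg (z - z')]
    · push Not at hb1
      have := dl_nonneg z'
      have h1 : 1 - a ^ 2 ≤ 2 * ‖z - z'‖ := by nlinarith
      have h2 : 0 ≤ 1 - a ^ 2 := by nlinarith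
      nlinarith

lemma norm_mul_dl (z : ℂ) : ‖z‖ * dl z ≤ 1 := by
  rcases (dl_nonneg z).eq_or_lt with h | h
  · rw [← h]; simp
  · have hw := (dl_pos_iff z).1 h
    rw [dl_eq z hw]
    set j := jj z with hj
    have h1 : ‖z‖ ≤ 4 * j + 1 := by
      have : z = (z - 4 * (j : ℂ)) + 4 * (j : ℂ) := by ring
      calc ‖z‖ = ‖(z - 4 * (j : ℂ)) + 4 * (j : ℂ)‖ := by rw [← this]
        _ ≤ ‖z - 4 * (j : ℂ)‖ + ‖4 * (j : ℂ)‖ := norm_add_le _ _
        _ ≤ 1 + 4 * j := by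
          apply add_le_add hw.le
          simp
        _ = 4 * j + 1 := by ring
    have hj0 : (0 : ℝ) ≤ j := Nat.cast_nonneg j
    have h2 : (4 * (j : ℝ) + 1) * kap j ≤ 1 := by
      unfold kap
      rw [mul_one_div, div_le_one (by positivity)]
      linarith
    have h3 : 0 ≤ 1 - ‖z - 4 * (j : ℂ)‖ ^ 2 := by nlinarith [norm_nonneg (z - 4 * (j : ℂ))]
    have h4 : 1 - ‖z - 4 * (j : ℂ)‖ ^ 2 ≤ 1 := by nlinarith [norm_nonneg (z - 4 * (j : ℂ))]
    calc ‖z‖ * (kap j * (1 - ‖z - 4 * (j : ℂ)‖ ^ 2))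
        ≤ (4 * (j : ℝ) + 1) * (kap j * 1) := by
          apply mul_le_mul h1 _ (mul_nonneg (kap_pos _).le h3) (by linarith)
          exact mul_le_mul_of_nonneg_left h4 (kap_pos _).le
      _ ≤ 1 := by rw [mul_one]; exact h2

lemma dl_lip : LipschitzWith 1 dl := by
  apply LipschitzWith.of_le_add
  intro x y
  rw [dist_eq_norm]
  exact dl_le_add x y

lemma same_disc (a b : ℂ) (h : ∀ ζ : ℂ, ‖ζ‖ ≤ 1 → 0 < dl (a + ζ * b)) (ζ : ℂ) (hζ : ‖ζ‖ ≤ 1) :
    ‖a + ζ * b - 4 * (jj a : ℂ)‖ < 1 := by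
  by_contra hcon
  push Not at hcon
  set j := jj a with hj
  let φ : ℝ → ℝ := fun t => ‖a + ((t : ℂ) * ζ) * b - 4 * (j : ℂ)‖
  have hφ : Continuous φ := by fun_prop
  have h0 : φ 0 < 1 := by
    have := h 0 (by simp)
    rw [zero_mul, add_zero, dl_pos_iff] at this
    simpa [φ] using this
  have h1 : 1 ≤ φ 1 := by simpa [φ] using hcon
  have hiv := intermediate_value_Icc (zero_le_one' ℝ) hφ.continuousOn
  have hmem : (1 : ℝ) ∈ Set.Icc (φ 0) (φ 1) := ⟨h0.le, h1⟩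
  obtain ⟨t, ht, hteq⟩ := hiv hmem
  have hzt : ‖(t : ℂ) * ζ‖ ≤ 1 := by
    rw [norm_mul, Complex.norm_real, Real.norm_eq_abs, abs_of_nonneg ht.1]
    exact mul_le_one₀ ht.2 (norm_nonneg _) hζ
  have hpos := h _ hzt
  rw [dl_pos_iff] at hpos
  have hle : ‖a + ((t : ℂ) * ζ) * b - 4 * (j : ℂ)‖ ≤ 1 := le_of_eq hteq
  rw [jj_eq _ _ hle] at hpos
  have : φ t < 1 := hpos
  linarith

lemma norm_expand (w b : ℂ) (x y : ℝ) (hxy : x ^ 2 + y ^ 2 = 1) :
    ‖w + ((x : ℂ) + (y : ℂ) * Complex.I) * b‖ ^ 2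
      = ‖w‖ ^ 2 + ‖b‖ ^ 2 + 2 * (((starRingEnd ℂ) w * b).re * x
        - ((starRingEnd ℂ) w * b).im * y) := by
  rw [Complex.sq_norm, Complex.sq_norm, Complex.sq_norm, Complex.normSq_apply,
    Complex.normSq_apply, Complex.normSq_apply]
  simp
  have e1 : y ^ 2 = 1 - x ^ 2 := by linarith
  ring_nf
  rw [e1]
  ring

lemma psh (a b : ℂ) (h : ∀ ζ : ℂ, ‖ζ‖ ≤ 1 → 0 < dl (a + ζ * b)) :
    (∫ θ in (0:ℝ)..(2 * Real.pi), Real.log (dl (a + Complex.exp ((θ : ℂ) * Complex.I) * b)))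
      ≤ 2 * Real.pi * Real.log (dl a) := by
  have hsd := same_disc a b h
  set j := jj a with hj
  set w := a - 4 * (j : ℂ) with hw
  set c := (starRingEnd ℂ) w * b with hc
  have hexp : ∀ θ : ℝ, ‖Complex.exp ((θ : ℂ) * Complex.I)‖ = 1 := Complex.norm_exp_ofReal_mul_I
  have hda : 0 < dl a := by
    have := h 0 (by simp)
    simpa using this
  have hw1 : ‖w‖ < 1 := (dl_pos_iff a).1 hda
  have hdaeq : dl a = kap j * (1 - ‖w‖ ^ 2) := dl_eq' a j hw1.le
  have hpt : ∀ θ : ℝ, dl (a + Complex.exp ((θ : ℂ) * Complex.I) * b)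
      = kap j * (1 - ‖w‖ ^ 2 - ‖b‖ ^ 2 - 2 * (c.re * Real.cos θ - c.im * Real.sin θ)) := by
    intro θ
    have h1 := hsd (Complex.exp ((θ : ℂ) * Complex.I)) (hexp θ).le
    rw [dl_eq' _ j h1.le]
    congr 1
    have h2 : a + Complex.exp ((θ : ℂ) * Complex.I) * b - 4 * (j : ℂ)
        = w + Complex.exp ((θ : ℂ) * Complex.I) * b := by rw [hw]; ring
    rw [h2]
    have h3 : ‖w + Complex.exp ((θ : ℂ) * Complex.I) * b‖ ^ 2
        = ‖w‖ ^ 2 + ‖b‖ ^ 2 + 2 * (c.re * Real.cos θ - c.im * Real.sin θ) := by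
      rw [Complex.exp_mul_I, ← Complex.ofReal_cos, ← Complex.ofReal_sin]
      exact norm_expand w b _ _ (Real.cos_sq_add_sin_sq θ)
    rw [h3]; ring
  have hcont : Continuous fun θ : ℝ => dl (a + Complex.exp ((θ : ℂ) * Complex.I) * b) :=
    dl_lip.continuous.comp (by fun_prop)
  have hposθ : ∀ θ : ℝ, 0 < dl (a + Complex.exp ((θ : ℂ) * Complex.I) * b) :=
    fun θ => h _ (hexp θ).le
  have hle : ∀ θ : ℝ, Real.log (dl (a + Complex.exp ((θ : ℂ) * Complex.I) * b))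
      ≤ (Real.log (dl a) - kap j / dl a * ‖b‖ ^ 2) + (-(2 * kap j / dl a * c.re)) * Real.cos θ
        + (2 * kap j / dl a * c.im) * Real.sin θ := by
    intro θ
    have h1 : Real.log (dl (a + Complex.exp ((θ : ℂ) * Complex.I) * b) / dl a)
        ≤ dl (a + Complex.exp ((θ : ℂ) * Complex.I) * b) / dl a - 1 :=
      Real.log_le_sub_one_of_pos (div_pos (hposθ θ) hda)
    rw [Real.log_div (hposθ θ).ne' hda.ne'] at h1
    have h2 : dl (a + Complex.exp ((θ : ℂ) * Complex.I) * b) / dl a - 1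
        = - kap j / dl a * ‖b‖ ^ 2 + (-(2 * kap j / dl a * c.re)) * Real.cos θ
        + (2 * kap j / dl a * c.im) * Real.sin θ := by
      rw [hpt θ]
      field_simp
      rw [hdaeq]
      ring
    rw [h2] at h1
    have h3 : - kap j / dl a * ‖b‖ ^ 2 = - (kap j / dl a * ‖b‖ ^ 2) := by ring
    rw [h3] at h1
    linarith
  have hint : (∫ θ in (0:ℝ)..(2 * Real.pi),
      Real.log (dl (a + Complex.exp ((θ : ℂ) * Complex.I) * b)))
      ≤ ∫ θ in (0:ℝ)..(2 * Real.pi),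
        ((Real.log (dl a) - kap j / dl a * ‖b‖ ^ 2) + (-(2 * kap j / dl a * c.re)) * Real.cos θ
        + (2 * kap j / dl a * c.im) * Real.sin θ) := by
    apply intervalIntegral.integral_mono (by positivity)
    · apply Continuous.intervalIntegrable
      exact hcont.log (fun θ => (hposθ θ).ne')
    · apply Continuous.intervalIntegrable
      fun_prop
    · exact hle
  refine hint.trans ?_
  have hval : (∫ θ in (0:ℝ)..(2 * Real.pi),
        ((Real.log (dl a) - kap j / dl a * ‖b‖ ^ 2) + (-(2 * kap j / dl a * c.re)) * Real.cos θ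
        + (2 * kap j / dl a * c.im) * Real.sin θ))
        = 2 * Real.pi * (Real.log (dl a) - kap j / dl a * ‖b‖ ^ 2) := by
    rw [intervalIntegral.integral_add, intervalIntegral.integral_add,
      intervalIntegral.integral_const_mul, intervalIntegral.integral_const_mul]
    · simp
      ring
    all_goals apply Continuous.intervalIntegrable; fun_prop
  rw [hval]
  have hk := kap_pos j
  have : 0 ≤ kap j / dl a * ‖b‖ ^ 2 := by positivity
  nlinarith [Real.pi_pos]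

lemma diffOn (G : ℕ → ℂ → ℂ) (hG : ∀ j, Differentiable ℂ (G j)) :
    DifferentiableOn ℂ (fun z : E => (fun _ : Fin 1 => G (jj (z 0)) (z 0)))
      {s : E | 0 < dl (s 0)} := by
  intro s hs
  have h1 : ‖s 0 - 4 * (jj (s 0) : ℂ)‖ < 1 := (dl_pos_iff _).1 hs
  have hcont : Continuous fun z : E => ‖z 0 - 4 * (jj (s 0) : ℂ)‖ := by fun_prop
  have hev : ∀ᶠ z : E in nhds s, ‖z 0 - 4 * (jj (s 0) : ℂ)‖ < 1 :=
    hcont.continuousAt.eventually_lt continuousAt_const h1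
  have heq : (fun z : E => (fun _ : Fin 1 => G (jj (z 0)) (z 0)))
      =ᶠ[nhds s] (fun z : E => (fun _ : Fin 1 => G (jj (s 0)) (z 0))) := by
    filter_upwards [hev] with z hz
    rw [jj_eq _ _ hz.le]
  have hd : DifferentiableAt ℂ (fun z : E => (fun _ : Fin 1 => G (jj (s 0)) (z 0))) s := by
    rw [differentiableAt_pi]
    intro _
    have h2 : DifferentiableAt ℂ (fun z : E => z 0) s := by fun_prop
    exact (hG _ _).comp s h2
  exact (hd.congr_of_eventuallyEq heq).differentiableWithinAt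

lemma circle_bound (j N : ℕ) (C : ℝ) (h0 h1 : ℂ → ℂ)
    (hd0 : DifferentiableOn ℂ h0 (Metric.ball 0 1))
    (_hd1 : DifferentiableOn ℂ h1 (Metric.ball 0 1))
    (hb : ∀ w : ℂ, ‖w‖ = 1 / 2 → (kap j * (3 / 4)) ^ N * ‖h1 w‖ ≤ C)
    (heq : ∀ w : ℂ, ‖w‖ = 1 / 2 → (kap j : ℂ) * w ^ j
      = h0 w * w ^ (j + 1) + h1 w * (kap j : ℂ) ^ (j + 1)) :
    (kap j * (3 / 4)) ^ N ≤ (2 * kap j) ^ j * C := by
  have hk := kap_pos j
  have hsub : Metric.closedBall (0 : ℂ) (1 / 2) ⊆ Metric.ball 0 1 :=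
    Metric.closedBall_subset_ball (by norm_num)
  have hsph : Metric.sphere (0 : ℂ) (1 / 2) ⊆ Metric.ball 0 1 :=
    Metric.sphere_subset_closedBall.trans hsub
  have hI0 : (∮ w in C(0, 1 / 2), h0 w) = 0 := by
    apply DiffContOnCl.circleIntegral_eq_zero (by norm_num)
    apply (hd0.mono _).diffContOnCl
    exact Metric.closure_ball_subset_closedBall.trans hsub
  have hA : (∮ w in C(0, 1 / 2), (kap j : ℂ) * (w - 0)⁻¹) = (kap j : ℂ) * (2 * Real.pi * Complex.I) := by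
    rw [circleIntegral.integral_const_mul, circleIntegral.integral_sub_center_inv _ (by norm_num)]
  have hne : ∀ w : ℂ, ‖w‖ = 1 / 2 → w ≠ 0 := by
    rintro w hw rfl
    simp at hw
  have hci0 : CircleIntegrable h0 0 (1 / 2) := by
    apply ContinuousOn.circleIntegrable (by norm_num)
    exact hd0.continuousOn.mono hsph
  have hciA : CircleIntegrable (fun w : ℂ => (kap j : ℂ) * (w - 0)⁻¹) 0 (1 / 2) := by
    apply ContinuousOn.circleIntegrable (by norm_num)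
    apply ContinuousOn.mul continuousOn_const
    apply ContinuousOn.inv₀ (by fun_prop)
    intro w hw
    have : ‖w‖ = 1 / 2 := by simpa using hw
    simpa using hne w this
  have hdiff : (∮ w in C(0, 1 / 2), ((kap j : ℂ) * (w - 0)⁻¹ - h0 w))
      = ∮ w in C(0, 1 / 2), h1 w * (kap j : ℂ) ^ (j + 1) / w ^ (j + 1) := by
    apply circleIntegral.integral_congr (by norm_num)
    intro w hw
    have hw' : ‖w‖ = 1 / 2 := by simpa using hw
    have hw0 := hne w hw'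
    have h := heq w hw'
    have hwp : w ^ (j + 1) ≠ 0 := pow_ne_zero _ hw0
    simp only [sub_zero]
    rw [eq_div_iff hwp, sub_mul]
    have e1 : (kap j : ℂ) * w⁻¹ * w ^ (j + 1) = (kap j : ℂ) * w ^ j := by
      rw [pow_succ]
      field_simp
    rw [e1, h]
    ring
  rw [circleIntegral.integral_sub hciA hci0, hI0, hA, sub_zero] at hdiff
  have hbound : ‖∮ w in C(0, 1 / 2), h1 w * (kap j : ℂ) ^ (j + 1) / w ^ (j + 1)‖
      ≤ 2 * Real.pi * (1 / 2) * (C / (kap j * (3 / 4)) ^ N * (kap j) ^ (j + 1) * 2 ^ (j + 1)) := by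
    apply circleIntegral.norm_integral_le_of_norm_le_const (by norm_num)
    intro w hw
    have hw' : ‖w‖ = 1 / 2 := by simpa using hw
    rw [norm_div, norm_mul, norm_pow, norm_pow, hw', Complex.norm_real, Real.norm_eq_abs,
      abs_of_pos hk]
    have h2 : ‖h1 w‖ ≤ C / (kap j * (3 / 4)) ^ N := by
      rw [le_div_iff₀ (by positivity)]
      have := hb w hw'
      linarith
    have h3 : ‖h1 w‖ * kap j ^ (j + 1) / (1 / 2) ^ (j + 1)
        = ‖h1 w‖ * kap j ^ (j + 1) * 2 ^ (j + 1) := by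
      rw [div_eq_mul_inv, ← inv_pow]
      norm_num
    rw [h3]
    gcongr
  rw [← hdiff] at hbound
  have hn : ‖(kap j : ℂ) * (2 * Real.pi * Complex.I)‖ = kap j * (2 * Real.pi) := by
    rw [norm_mul, norm_mul, norm_mul]
    simp [abs_of_pos hk, abs_of_pos Real.pi_pos]
  rw [hn] at hbound
  have hpi := Real.pi_pos
  have h5 : kap j * 2 ≤ C / (kap j * (3 / 4)) ^ N * (kap j) ^ (j + 1) * 2 ^ (j + 1) := by
    have e : 2 * Real.pi * (1 / 2) * (C / (kap j * (3 / 4)) ^ N * (kap j) ^ (j + 1) * 2 ^ (j + 1))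
      = (C / (kap j * (3 / 4)) ^ N * (kap j) ^ (j + 1) * 2 ^ (j + 1)) * Real.pi := by ring
    rw [e] at hbound
    have e2 : kap j * (2 * Real.pi) = kap j * 2 * Real.pi := by ring
    rw [e2] at hbound
    exact le_of_mul_le_mul_right hbound hpi
  have h6 : C / (kap j * (3 / 4)) ^ N * (kap j) ^ (j + 1) * 2 ^ (j + 1)
      = (2 * kap j) ^ j * C / (kap j * (3 / 4)) ^ N * (kap j * 2) := by
    rw [mul_pow, pow_succ, pow_succ]
    ring
  rw [h6] at h5
  have h7 : 1 ≤ (2 * kap j) ^ j * C / (kap j * (3 / 4)) ^ N := by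
    have h8 : 0 < kap j * 2 := by positivity
    nlinarith
  rw [one_le_div (by positivity)] at h7
  exact h7

lemma no_growth (N : ℕ) (C : ℝ) (hC : 0 ≤ C)
    (h : ∀ j : ℕ, (kap j * (3 / 4)) ^ N ≤ (2 * kap j) ^ j * C) : False := by
  have key : ∀ j : ℕ, N ≤ j → (3 / 16 : ℝ) ^ N * 2 ^ j ≤ C := by
    intro j hj
    have hk := kap_pos j
    have ht : (1 : ℝ) ≤ (j : ℝ) + 1 := by
      have : (0 : ℝ) ≤ j := Nat.cast_nonneg j
      linarith
    have e1 : (3 / 16 : ℝ) = (kap j * (3 / 4)) * ((j : ℝ) + 1) := by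
      unfold kap; field_simp; norm_num
    have e2 : (2 * kap j) * (((j : ℝ) + 1) * 2) = 1 := by
      unfold kap; field_simp; norm_num
    calc (3 / 16 : ℝ) ^ N * 2 ^ j = (kap j * (3 / 4)) ^ N * ((j : ℝ) + 1) ^ N * 2 ^ j := by
          rw [← mul_pow, ← e1]
      _ ≤ ((2 * kap j) ^ j * C) * ((j : ℝ) + 1) ^ j * 2 ^ j := by
          gcongr
          · exact h j
      _ = ((2 * kap j) * (((j : ℝ) + 1) * 2)) ^ j * C := by
          rw [mul_pow (2 * kap j), mul_pow ((j : ℝ) + 1) 2]; ring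
      _ = C := by rw [e2]; simp
  obtain ⟨n, hn⟩ := pow_unbounded_of_one_lt (C / (3 / 16 : ℝ) ^ N) (one_lt_two : (1 : ℝ) < 2)
  have h1 := key (max n N) (le_max_right _ _)
  have h2 : (2 : ℝ) ^ n ≤ 2 ^ (max n N) := pow_le_pow_right₀ (by norm_num) (le_max_left _ _)
  rw [div_lt_iff₀ (by positivity)] at hn
  have h3 : (0 : ℝ) < (3 / 16 : ℝ) ^ N := by positivity
  nlinarith

/-- The negation of the preceding statement: Take δ≥0 on C^n: K-Lipschitz, vanishing at infinity, ∣s∣δ(s) bounded, −log δ psh on {δ>0}. For εK<1, if g is locally Σu_i f_i on balls B(s,εδ(s)) with ∣u_i∣<Mδ(s)^−N, then g=Σh_i f_i with h_i in O(δ). -/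
theorem result :
    ¬ (∀ (n q k : ℕ) (δ : EuclideanSpace ℂ (Fin n) → ℝ) (K : NNReal),
    (∀ s, 0 ≤ δ s) → Continuous δ →
    Filter.Tendsto δ (Filter.cocompact _) (nhds 0) →
    LipschitzWith K δ →
    (∃ C : ℝ, ∀ s, ‖s‖ * δ s ≤ C) →
    (∀ a b : EuclideanSpace ℂ (Fin n), (∀ ζ : ℂ, ‖ζ‖ ≤ 1 → 0 < δ (a + ζ • b)) →
       (∫ θ in (0:ℝ)..(2 * Real.pi),
          Real.log (δ (a + Complex.exp ((θ : ℂ) * Complex.I) • b)))
        ≤ 2 * Real.pi * Real.log (δ a)) →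
    ∀ ε : ℝ, 0 < ε → ε * (K : ℝ) < 1 →
    ∀ (f : Fin k → EuclideanSpace ℂ (Fin n) → (Fin q → ℂ))
      (g : EuclideanSpace ℂ (Fin n) → (Fin q → ℂ)),
      (∀ i, DifferentiableOn ℂ (f i) {s | 0 < δ s} ∧
        ∃ N : ℕ, ∃ C : ℝ, ∀ z, 0 < δ z → δ z ^ N * ‖f i z‖ ≤ C) →
      (DifferentiableOn ℂ g {s | 0 < δ s} ∧
        ∃ N : ℕ, ∃ C : ℝ, ∀ z, 0 < δ z → δ z ^ N * ‖g z‖ ≤ C) →
      (∃ M : ℝ, ∃ N : ℕ, ∀ s, 0 < δ s →
        ∃ u : Fin k → EuclideanSpace ℂ (Fin n) → ℂ,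
          (∀ i, DifferentiableOn ℂ (u i) (Metric.ball s (ε * δ s))) ∧
          (∀ z ∈ Metric.ball s (ε * δ s), g z = ∑ i, u i z • f i z) ∧
          (∀ i, ∀ z ∈ Metric.ball s (ε * δ s), ‖u i z‖ < M / δ s ^ N)) →
      ∃ h : Fin k → EuclideanSpace ℂ (Fin n) → ℂ,
        (∀ i, DifferentiableOn ℂ (h i) {s | 0 < δ s} ∧
          ∃ N : ℕ, ∃ C : ℝ, ∀ z, 0 < δ z → δ z ^ N * ‖h i z‖ ≤ C) ∧
        ∀ z, 0 < δ z → g z = ∑ i, h i z • f i z) := by
  intro H
  let δ : E → ℝ := fun s => dl (s 0)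
  let ff : Fin 2 → E → (Fin 1 → ℂ) := ![fun z _ => (z 0 - 4 * (jj (z 0) : ℂ)) ^ (jj (z 0) + 1),
    fun z _ => (kap (jj (z 0)) : ℂ) ^ (jj (z 0) + 1)]
  let gg : E → (Fin 1 → ℂ) := fun z _ => (kap (jj (z 0)) : ℂ) * (z 0 - 4 * (jj (z 0) : ℂ)) ^ (jj (z 0))
  have hlip : LipschitzWith 1 δ := by
    apply LipschitzWith.of_le_add
    intro x y
    have := dl_le_add (x 0) (y 0)
    rw [dist_eq_norm, normE]
    simpa using this
  have hmul : ∀ s : E, ‖s‖ * δ s ≤ 1 := by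
    intro s
    rw [normE]
    exact norm_mul_dl (s 0)
  have hkn : ∀ j : ℕ, ‖(kap j : ℂ)‖ ≤ 1 := by
    intro j
    rw [Complex.norm_real, Real.norm_eq_abs, abs_of_pos (kap_pos j)]
    have := kap_le j
    linarith
  have hnorm1 : ∀ c : ℂ, ‖(fun _ : Fin 1 => c)‖ = ‖c‖ := fun c => pi_norm_const c
  have htend : Filter.Tendsto δ (Filter.cocompact _) (nhds 0) := by
    have h1 : Filter.Tendsto (fun s : E => ‖s‖⁻¹) (Filter.cocompact E) (nhds 0) :=
      tendsto_inv_atTop_zero.comp (tendsto_norm_cocompact_atTop)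
    have hev : ∀ᶠ s : E in Filter.cocompact E, 0 < ‖s‖ :=
      (tendsto_norm_cocompact_atTop).eventually_gt_atTop 0
    apply squeeze_zero' (Filter.Eventually.of_forall fun s => dl_nonneg _) _ h1
    filter_upwards [hev] with s hs
    rw [← one_div, le_div_iff₀ hs]
    have := hmul s
    linarith
  have hpsh : ∀ a b : E, (∀ ζ : ℂ, ‖ζ‖ ≤ 1 → 0 < δ (a + ζ • b)) →
       (∫ θ in (0:ℝ)..(2 * Real.pi),
          Real.log (δ (a + Complex.exp ((θ : ℂ) * Complex.I) • b)))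
        ≤ 2 * Real.pi * Real.log (δ a) := by
    intro a b hab
    have := psh (a 0) (b 0) (by
      intro ζ hζ
      have := hab ζ hζ
      simpa [δ] using this)
    simpa [δ] using this
  have hff : ∀ i, DifferentiableOn ℂ (ff i) {s | 0 < δ s} ∧
        ∃ N : ℕ, ∃ C : ℝ, ∀ z, 0 < δ z → δ z ^ N * ‖ff i z‖ ≤ C := by
    intro i
    fin_cases i
    · refine ⟨?_, 0, 1, ?_⟩
      · exact diffOn (fun j w => (w - 4 * (j : ℂ)) ^ (j + 1)) (fun j => by fun_prop)
      · intro z hz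
        have hz1 : ‖z 0 - 4 * (jj (z 0) : ℂ)‖ < 1 := (dl_pos_iff _).1 hz
        show δ z ^ 0 * ‖(fun _ : Fin 1 => (z 0 - 4 * (jj (z 0) : ℂ)) ^ (jj (z 0) + 1))‖ ≤ 1
        rw [hnorm1, pow_zero, one_mul, norm_pow]
        exact pow_le_one₀ (norm_nonneg _) hz1.le
    · refine ⟨?_, 0, 1, ?_⟩
      · exact diffOn (fun j _ => (kap j : ℂ) ^ (j + 1)) (fun j => by fun_prop)
      · intro z hz
        show δ z ^ 0 * ‖(fun _ : Fin 1 => (kap (jj (z 0)) : ℂ) ^ (jj (z 0) + 1))‖ ≤ 1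
        rw [hnorm1, pow_zero, one_mul, norm_pow]
        exact pow_le_one₀ (norm_nonneg _) (hkn _)
  have hgg : DifferentiableOn ℂ gg {s | 0 < δ s} ∧
        ∃ N : ℕ, ∃ C : ℝ, ∀ z, 0 < δ z → δ z ^ N * ‖gg z‖ ≤ C := by
    refine ⟨?_, 0, 1, ?_⟩
    · exact diffOn (fun j w => (kap j : ℂ) * (w - 4 * (j : ℂ)) ^ j) (fun j => by fun_prop)
    · intro z hz
      have hz1 : ‖z 0 - 4 * (jj (z 0) : ℂ)‖ < 1 := (dl_pos_iff _).1 hz
      show δ z ^ 0 * ‖(fun _ : Fin 1 => (kap (jj (z 0)) : ℂ) * (z 0 - 4 * (jj (z 0) : ℂ)) ^ (jj (z 0)))‖ ≤ 1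
      rw [hnorm1, pow_zero, one_mul, norm_mul, norm_pow]
      exact mul_le_one₀ (hkn _) (by positivity) (pow_le_one₀ (norm_nonneg _) hz1.le)
  have hloc : ∃ M : ℝ, ∃ N : ℕ, ∀ s, 0 < δ s →
        ∃ u : Fin 2 → E → ℂ,
          (∀ i, DifferentiableOn ℂ (u i) (Metric.ball s ((1 / 4 : ℝ) * δ s))) ∧
          (∀ z ∈ Metric.ball s ((1 / 4 : ℝ) * δ s), gg z = ∑ i, u i z • ff i z) ∧
          (∀ i, ∀ z ∈ Metric.ball s ((1 / 4 : ℝ) * δ s), ‖u i z‖ < M / δ s ^ N) := by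
    refine ⟨5, 0, ?_⟩
    intro s hs
    have hs1 : ‖s 0 - 4 * (jj (s 0) : ℂ)‖ < 1 := (dl_pos_iff _).1 hs
    set j := jj (s 0) with hj
    have hk := kap_pos j
    have hk1 := kap_le j
    have hδs : δ s = kap j * (1 - ‖s 0 - 4 * (j : ℂ)‖ ^ 2) := dl_eq' _ j hs1.le
    have hδs1 : δ s ≤ kap j := by
      rw [hδs]
      nlinarith [norm_nonneg (s 0 - 4 * (j : ℂ))]
    have hball : ∀ z ∈ Metric.ball s (1 / 4 * δ s), ‖z 0 - s 0‖ < 1 / 4 * δ s := by
      intro z hz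
      rw [Metric.mem_ball, dist_eq_norm, normE] at hz
      simpa using hz
    have hin : ∀ z ∈ Metric.ball s (1 / 4 * δ s), ‖z 0 - 4 * (j : ℂ)‖ < 1 := by
      intro z hz
      have h1 := hball z hz
      have h2 : ‖z 0 - 4 * (j : ℂ)‖ ≤ ‖z 0 - s 0‖ + ‖s 0 - 4 * (j : ℂ)‖ := by
        have : z 0 - 4 * (j : ℂ) = (z 0 - s 0) + (s 0 - 4 * (j : ℂ)) := by ring
        rw [this]
        exact norm_add_le _ _
      rw [hδs] at h1
      have h3 : kap j * (1 - ‖s 0 - 4 * (j : ℂ)‖ ^ 2) ≤ 1 - ‖s 0 - 4 * (j : ℂ)‖ ^ 2 := by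
        have : 0 ≤ 1 - ‖s 0 - 4 * (j : ℂ)‖ ^ 2 := by nlinarith [norm_nonneg (s 0 - 4 * (j : ℂ))]
        nlinarith
      nlinarith [norm_nonneg (s 0 - 4 * (j : ℂ))]
    have hjz : ∀ z ∈ Metric.ball s (1 / 4 * δ s), jj (z 0) = j :=
      fun z hz => jj_eq _ _ (hin z hz).le
    by_cases hcase : ‖s 0 - 4 * (j : ℂ)‖ ≤ kap j / 2
    · refine ⟨![fun _ => 0, fun z => ((z 0 - 4 * (j : ℂ)) / (kap j : ℂ)) ^ j], ?_, ?_, ?_⟩
      · intro i
        fin_cases i
        · exact differentiableOn_const 0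
        · show DifferentiableOn ℂ (fun z : E => ((z 0 - 4 * (j : ℂ)) / (kap j : ℂ)) ^ j) _
          fun_prop
      · intro z hz
        have hkne : (kap j : ℂ) ≠ 0 := by exact_mod_cast hk.ne'
        funext i
        simp only [Fin.sum_univ_two, Pi.add_apply, Pi.smul_apply, smul_eq_mul, gg, ff,
          Matrix.cons_val_zero, Matrix.cons_val_one, hjz z hz]
        rw [zero_mul, zero_add, div_pow, pow_succ]
        field_simp
      · intro i z hz
        fin_cases i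
        · simp
        · show ‖((z 0 - 4 * (j : ℂ)) / (kap j : ℂ)) ^ j‖ < 5 / δ s ^ 0
          rw [norm_pow, norm_div, Complex.norm_real, Real.norm_eq_abs, abs_of_pos hk, pow_zero,
            div_one]
          have h1 := hball z hz
          have h2 : ‖z 0 - 4 * (j : ℂ)‖ ≤ ‖z 0 - s 0‖ + ‖s 0 - 4 * (j : ℂ)‖ := by
            have : z 0 - 4 * (j : ℂ) = (z 0 - s 0) + (s 0 - 4 * (j : ℂ)) := by ring
            rw [this]
            exact norm_add_le _ _
          have h3 : ‖z 0 - 4 * (j : ℂ)‖ / kap j ≤ 1 := by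
            rw [div_le_one hk]
            linarith
          have h4 := pow_le_one₀ (n := j) (by positivity) h3
          linarith
    · push Not at hcase
      have hlow : ∀ z ∈ Metric.ball s (1 / 4 * δ s), kap j / 4 < ‖z 0 - 4 * (j : ℂ)‖ := by
        intro z hz
        have h1 := hball z hz
        have h2 : ‖s 0 - 4 * (j : ℂ)‖ ≤ ‖z 0 - s 0‖ + ‖z 0 - 4 * (j : ℂ)‖ := by
          have : s 0 - 4 * (j : ℂ) = (z 0 - 4 * (j : ℂ)) - (z 0 - s 0) := by ring
          rw [this]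
          have := norm_sub_le (z 0 - 4 * (j : ℂ)) (z 0 - s 0)
          linarith
        linarith
      have hne : ∀ z ∈ Metric.ball s (1 / 4 * δ s), z 0 - 4 * (j : ℂ) ≠ 0 := by
        intro z hz h0
        have := hlow z hz
        rw [h0, norm_zero] at this
        linarith
      refine ⟨![fun z => (kap j : ℂ) / (z 0 - 4 * (j : ℂ)), fun _ => 0], ?_, ?_, ?_⟩
      · intro i
        fin_cases i
        · show DifferentiableOn ℂ (fun z : E => (kap j : ℂ) / (z 0 - 4 * (j : ℂ))) _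
          intro z hz
          have hz0 := hne z hz
          have h9 : DifferentiableAt ℂ (fun z : E => (kap j : ℂ) / (z 0 - 4 * (j : ℂ))) z := by
            fun_prop (disch := exact hz0)
          exact h9.differentiableWithinAt
        · exact differentiableOn_const 0
      · intro z hz
        have hz0 := hne z hz
        funext i
        simp only [Fin.sum_univ_two, Pi.add_apply, Pi.smul_apply, smul_eq_mul, gg, ff,
          Matrix.cons_val_zero, Matrix.cons_val_one, hjz z hz]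
        rw [zero_mul, add_zero, pow_succ]
        field_simp
      · intro i z hz
        fin_cases i
        · show ‖(kap j : ℂ) / (z 0 - 4 * (j : ℂ))‖ < 5 / δ s ^ 0
          rw [norm_div, Complex.norm_real, Real.norm_eq_abs, abs_of_pos hk, pow_zero, div_one]
          have h1 := hlow z hz
          have h2 : 0 < ‖z 0 - 4 * (j : ℂ)‖ := by linarith
          rw [div_lt_iff₀ h2]
          linarith
        · simp
  obtain ⟨h, hh, hgh⟩ := H 1 1 2 δ 1 (fun s => dl_nonneg _) hlip.continuous htend hlip ⟨1, hmul⟩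
    hpsh (1 / 4) (by norm_num) (by norm_num) ff gg hff hgg hloc
  obtain ⟨hd1, N, C, hbd⟩ := hh 1
  obtain ⟨hd0, -⟩ := hh 0
  have hC : 0 ≤ C := by
    have h1 : 0 < δ (0 : E) := by
      show 0 < dl _
      rw [dl_eq' _ 0 (by simp)]
      have := kap_pos 0
      simpa using this
    have h2 := hbd 0 h1
    have h3 : 0 ≤ δ (0 : E) ^ N * ‖h 1 0‖ := by positivity
    linarith
  apply no_growth N C hC
  intro j
  let ι : ℂ → E := fun w => (4 * (j : ℂ) + w) • EuclideanSpace.single (0 : Fin 1) (1 : ℂ)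
  have hι0 : ∀ w, (ι w) 0 = 4 * (j : ℂ) + w := by
    intro w
    simp [ι]
  have hιd : Differentiable ℂ ι := by fun_prop
  have hδι : ∀ w : ℂ, ‖w‖ ≤ 1 → δ (ι w) = kap j * (1 - ‖w‖ ^ 2) := by
    intro w hw
    show dl ((ι w) 0) = _
    rw [hι0, dl_eq' _ j (by simpa using hw)]
    simp
  have hδpos : ∀ w : ℂ, ‖w‖ < 1 → 0 < δ (ι w) := by
    intro w hw
    rw [hδι w hw.le]
    have := kap_pos j
    have h1 : 0 < 1 - ‖w‖ ^ 2 := by nlinarith [norm_nonneg w]
    positivity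
  have hmaps : Set.MapsTo ι (Metric.ball 0 1) {s : E | 0 < δ s} := by
    intro w hw
    exact hδpos w (by simpa using hw)
  apply circle_bound j N C (fun w => h 0 (ι w)) (fun w => h 1 (ι w))
  · exact hd0.comp hιd.differentiableOn hmaps
  · exact hd1.comp hιd.differentiableOn hmaps
  · intro w hw
    have h1 := hbd (ι w) (hδpos w (by rw [hw]; norm_num))
    rw [hδι w (by rw [hw]; norm_num), hw] at h1
    norm_num at h1 ⊢
    exact h1
  · intro w hw
    have h1 := hgh (ι w) (hδpos w (by rw [hw]; norm_num))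
    have h2 := congrFun h1 0
    have hjj : jj (4 * (j : ℂ) + w) = j := jj_eq _ _ (by simp [hw]; norm_num)
    simp only [Fin.sum_univ_two, Pi.add_apply, Pi.smul_apply, smul_eq_mul] at h2
    simp only [gg, ff, Matrix.cons_val_zero, Matrix.cons_val_one, hι0, hjj] at h2
    simpa using h2

end Pool.Agent.S03244
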