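import Pool.Statements.S03245
import Pool.Agent.Leb624.Final

set_option autoImplicit false
open N216bd313
open Filter Set MeasureTheory
open Pool Pool.MP_6083a5_an

namespace Pool.Agent.S03245

/-- For every injective sequence xs in [-1,1], for Lebesgue-a.e. x in (-1,1), 2/π ≤ limsup_n (∑_{k<n} ∣ℓ_k(x)∣)/log n in EReal, with ℓ_k the Lagrange basis polynomials on nodes xs 0..xs (n-1). -/
theorem result :
    ∀ (xs : ℕ → Icc (-1 : ℝ) 1), Function.Injective xs → ∀ᵐ x ∂volume.restrict (Ioo (-1 : ℝ) 1), (2 / Real.pi : EReal) ≤ atTop.limsup fun n : ℕ ↦ (lebesgueFunctionSeq xs n x / Real.log n : EReal) := by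
  intro xs hinj
  exact Pool.Agent.Leb624.final xs hinj

end Pool.Agent.S03245
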