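import Pool.Statements.S03250

set_option autoImplicit false
open Filter Topology
open Pool Pool.MP_613746_an

namespace Pool.Agent.S03250

/-- Side lengths of the square blocks. -/
def N : ℕ → ℕ
  | 0 => 1
  | k + 1 => N k * (4 * N k)

/-- The blocks of row type: `W k idx a i j` is the entry in column `i` and row `j`.
Row `idx` is constant with value `!a`. -/
def W : ℕ → ℕ → Bool → ℕ → ℕ → Bool
  | 0, _, a, _, _ => !a
  | k + 1, idx, a, i, j =>
    if j / N k = idx / N k then W k (idx % N k) a (i % N k) (j % N k)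
    else W k ((j / N k) % (2 * N k) / 2) (decide ((j / N k) % (2 * N k) % 2 = 1))
      (j % N k) (i % N k)

/-- Blocks of both types; the second type is the transpose. -/
def B (k : ℕ) (ty : Bool) (idx : ℕ) (a : Bool) (i j : ℕ) : Bool :=
  if ty then W k idx a i j else W k idx a j i

lemma N_pos : ∀ k, 0 < N k
  | 0 => by simp [N]
  | k + 1 => by
    have := N_pos k
    simp only [N]
    positivity

lemma lt_N : ∀ k, k < N k
  | 0 => by simp [N]
  | k + 1 => by
    have h := lt_N k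
    have h1 := N_pos k
    simp only [N]
    nlinarith

lemma W_const : ∀ (k idx : ℕ) (a : Bool) (i : ℕ), W k idx a i idx = !a
  | 0, _, _, _ => by simp [W]
  | k + 1, idx, a, i => by
    simp only [W, if_true]
    exact W_const k _ a _

/-- In a block of row type of level `k+1`, every column contains, for each symbol `c`,
a run of length `N k` without the symbol `c`. -/
lemma W_run (k idx : ℕ) (a : Bool) (i : ℕ) (c : Bool) :
    ∃ t : ℕ, t < 4 * N k ∧ ∀ j' : ℕ, j' < N k → W (k + 1) idx a i (t * N k + j') = !c := by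
  have hN := N_pos k
  have hi : i % N k < N k := Nat.mod_lt _ hN
  -- the code
  obtain ⟨q, hq, hq1, hq2⟩ : ∃ q : ℕ, q < 2 * N k ∧ q / 2 = i % N k ∧ decide (q % 2 = 1) = c := by
    cases c
    · exact ⟨2 * (i % N k), by omega, by omega, by simp⟩
    · exact ⟨2 * (i % N k) + 1, by omega, by omega, by
        have : (2 * (i % N k) + 1) % 2 = 1 := by omega
        simp⟩
  obtain ⟨t, ht4, htne, htq⟩ : ∃ t : ℕ, t < 4 * N k ∧ t ≠ idx / N k ∧ t % (2 * N k) = q := by
    by_cases h : q = idx / N k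
    · refine ⟨q + 2 * N k, by omega, by omega, ?_⟩
      rw [Nat.add_mod_right, Nat.mod_eq_of_lt hq]
    · exact ⟨q, by omega, h, Nat.mod_eq_of_lt hq⟩
  refine ⟨t, ht4, fun j' hj' => ?_⟩
  have e1 : (t * N k + j') / N k = t := by
    rw [Nat.add_comm, Nat.add_mul_div_right _ _ hN, Nat.div_eq_of_lt hj', Nat.zero_add]
  have e2 : (t * N k + j') % N k = j' := by
    rw [Nat.add_comm, Nat.add_mul_mod_self_right, Nat.mod_eq_of_lt hj']
  simp only [W, e1, e2, if_neg htne, htq, hq1, hq2]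
  exact W_const k _ c _

/-- `x` is tiled by blocks of level `k` with offset `(u, v)`. -/
def Tile (k : ℕ) (x : ℤ → ℤ → Bool) (u v : ℤ) : Prop :=
  ∀ s t : ℤ, ∃ (ty : Bool) (idx : ℕ) (a : Bool), ∀ i j : ℕ, i < N k → j < N k →
    x (u + s * N k + i) (v + t * N k + j) = B k ty idx a i j

lemma Tile.shift {k : ℕ} {x : ℤ → ℤ → Bool} {u v : ℤ} (h : Tile k x u v) (c d : ℤ) :
    Tile k x (u + c * N k) (v + d * N k) := by
  intro s t
  obtain ⟨ty, idx, a, h⟩ := h (s + c) (t + d)
  refine ⟨ty, idx, a, fun i j hi hj => ?_⟩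
  rw [← h i j hi hj]
  congr 1 <;> ring

/-- sub-blocks -/
lemma B_sub (k : ℕ) (ty : Bool) (idx : ℕ) (a : Bool) (s t : ℕ) :
    ∃ (ty' : Bool) (idx' : ℕ) (a' : Bool), ∀ i j : ℕ, i < N k → j < N k →
      B (k + 1) ty idx a (s * N k + i) (t * N k + j) = B k ty' idx' a' i j := by
  have hN := N_pos k
  have e1 : ∀ t j' : ℕ, j' < N k → (t * N k + j') / N k = t := fun t j' hj' => by
    rw [Nat.add_comm, Nat.add_mul_div_right _ _ hN, Nat.div_eq_of_lt hj', Nat.zero_add]
  have e2 : ∀ t j' : ℕ, j' < N k → (t * N k + j') % N k = j' := fun t j' hj' => by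
    rw [Nat.add_comm, Nat.add_mul_mod_self_right, Nat.mod_eq_of_lt hj']
  cases ty
  · by_cases h : s = idx / N k
    · refine ⟨false, idx % N k, a, fun i j hi hj => ?_⟩
      simp [B, W, e1 _ _ hi, e2 _ _ hi, e2 _ _ hj, h]
    · refine ⟨true, s % (2 * N k) / 2, decide (s % (2 * N k) % 2 = 1), fun i j hi hj => ?_⟩
      simp only [B, W, e1 _ _ hi, e1 _ _ hj, e2 _ _ hi, e2 _ _ hj, if_neg h]
      simp
  · by_cases h : t = idx / N k
    · refine ⟨true, idx % N k, a, fun i j hi hj => ?_⟩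
      simp only [B, W, e1 _ _ hi, e1 _ _ hj, e2 _ _ hi, e2 _ _ hj, if_pos h]
      simp
    · refine ⟨false, t % (2 * N k) / 2, decide (t % (2 * N k) % 2 = 1), fun i j hi hj => ?_⟩
      simp only [B, W, e1 _ _ hi, e1 _ _ hj, e2 _ _ hi, e2 _ _ hj, if_neg h]
      simp

lemma Tile.down {k : ℕ} {x : ℤ → ℤ → Bool} {u v : ℤ} (h : Tile (k + 1) x u v) :
    Tile k x u v := by
  intro s t
  have h4 : (0 : ℤ) < 4 * N k := by have := N_pos k; positivity
  set S := s / (4 * N k : ℤ) with hS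
  set T := t / (4 * N k : ℤ) with hT
  obtain ⟨s', hs'⟩ : ∃ s' : ℕ, (s' : ℤ) = s % (4 * N k : ℤ) :=
    ⟨(s % (4 * N k : ℤ)).toNat, Int.toNat_of_nonneg (Int.emod_nonneg _ h4.ne')⟩
  obtain ⟨t', ht'⟩ : ∃ t' : ℕ, (t' : ℤ) = t % (4 * N k : ℤ) :=
    ⟨(t % (4 * N k : ℤ)).toNat, Int.toNat_of_nonneg (Int.emod_nonneg _ h4.ne')⟩
  have hs4 : s' < 4 * N k := by
    have := Int.emod_lt_of_pos s h4
    rw [← hs'] at this
    exact_mod_cast this
  have ht4 : t' < 4 * N k := by
    have := Int.emod_lt_of_pos t h4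
    rw [← ht'] at this
    exact_mod_cast this
  have es : s = 4 * N k * S + s' := by
    rw [hs']; exact (Int.mul_ediv_add_emod s _).symm
  have et : t = 4 * N k * T + t' := by
    rw [ht']; exact (Int.mul_ediv_add_emod t _).symm
  obtain ⟨ty, idx, a, h⟩ := h S T
  obtain ⟨ty', idx', a', h'⟩ := B_sub k ty idx a s' t'
  refine ⟨ty', idx', a', fun i j hi hj => ?_⟩
  have bi : s' * N k + i < N (k + 1) := by
    simp only [N]
    nlinarith
  have bj : t' * N k + j < N (k + 1) := by
    simp only [N]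
    nlinarith
  rw [← h' i j hi hj, ← h _ _ bi bj]
  congr 1
  · rw [es]; simp only [N]; push_cast; ring
  · rw [et]; simp only [N]; push_cast; ring

/-- The set of arrays tiled by level `k` blocks. -/
def T (k : ℕ) : Set (ℤ → ℤ → Bool) := {x | ∃ u v : ℤ, Tile k x u v}

lemma T_anti (k : ℕ) : T (k + 1) ⊆ T k := fun _ ⟨u, v, h⟩ => ⟨u, v, h.down⟩

lemma T_nonempty (k : ℕ) : (T k).Nonempty := by
  have hN : (0 : ℤ) < N k := by exact_mod_cast N_pos k
  refine ⟨fun m n => B k true 0 true (m % N k).toNat (n % N k).toNat, 0, 0, fun s t => ?_⟩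
  refine ⟨true, 0, true, fun i j hi hj => ?_⟩
  have e : ∀ (s : ℤ) (i : ℕ), i < N k → ((0 + s * N k + i) % N k : ℤ).toNat = i := by
    intro s i hi
    have : (0 + s * N k + i : ℤ) = i + N k * s := by ring
    rw [this, Int.add_mul_emod_self_left, Int.emod_eq_of_lt (by positivity) (by exact_mod_cast hi)]
    simp
  simp only [e s i hi, e t j hj]

lemma isClosed_Tile (k : ℕ) (u v : ℤ) : IsClosed {x : ℤ → ℤ → Bool | Tile k x u v} := by
  have : {x : ℤ → ℤ → Bool | Tile k x u v} = ⋂ s : ℤ, ⋂ t : ℤ,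
      (fun (x : ℤ → ℤ → Bool) (p : Fin (N k) × Fin (N k)) =>
        x (u + s * N k + (p.1 : ℕ)) (v + t * N k + (p.2 : ℕ))) ⁻¹'
      {y | ∃ (ty : Bool) (idx : ℕ) (a : Bool), ∀ i j : Fin (N k), y (i, j) = B k ty idx a i j} := by
    ext x
    simp only [Set.mem_ofPred_eq, Set.mem_iInter, Set.mem_preimage, Tile]
    refine forall_congr' fun s => forall_congr' fun t => exists_congr fun ty =>
      exists_congr fun idx => exists_congr fun a => ?_
    constructor
    · intro h i j
      exact h i j i.2 j.2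
    · intro h i j hi hj
      exact h ⟨i, hi⟩ ⟨j, hj⟩
  rw [this]
  refine isClosed_iInter fun s => isClosed_iInter fun t => IsClosed.preimage ?_ (isClosed_discrete _)
  refine continuous_pi fun p => ?_
  exact (continuous_apply _).comp (continuous_apply _)

lemma isClosed_T (k : ℕ) : IsClosed (T k) := by
  have hN : (0 : ℤ) < N k := by exact_mod_cast N_pos k
  have : T k = ⋃ u ∈ Finset.range (N k), ⋃ v ∈ Finset.range (N k),
      {x : ℤ → ℤ → Bool | Tile k x (u : ℕ) (v : ℕ)} := by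
    ext x
    simp only [T, Set.mem_ofPred_eq, Set.mem_iUnion, Finset.mem_range, exists_prop]
    constructor
    · rintro ⟨u, v, h⟩
      have h2 := h.shift (-(u / N k)) (-(v / N k))
      have e : ∀ u : ℤ, u + -(u / N k) * N k = ((u % N k).toNat : ℤ) := by
        intro u
        rw [Int.toNat_of_nonneg (Int.emod_nonneg _ hN.ne'), Int.emod_def]
        ring
      have lt : ∀ u : ℤ, (u % N k).toNat < N k := by
        intro u
        have := Int.emod_lt_of_pos u hN
        have h0 := Int.emod_nonneg u hN.ne'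
        omega
      rw [e, e] at h2
      exact ⟨_, lt u, _, lt v, h2⟩
    · rintro ⟨u, -, v, -, h⟩
      exact ⟨u, v, h⟩
  rw [this]
  refine (Finset.range (N k)).finite_toSet.isClosed_biUnion fun u _ => ?_
  exact (Finset.range (N k)).finite_toSet.isClosed_biUnion fun v _ => isClosed_Tile k u v

/-- The subshift. -/
def X : Set (ℤ → ℤ → Bool) := ⋂ k, T k

lemma isClosed_X : IsClosed X := isClosed_iInter isClosed_T

lemma X_nonempty : X.Nonempty :=
  IsCompact.nonempty_iInter_of_sequence_nonempty_isCompact_isClosed T T_anti T_nonempty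
    (isClosed_T 0).isCompact isClosed_T

lemma X_shift1 {x : ℤ → ℤ → Bool} (hx : x ∈ X) : (fun m n => x (m + 1) n) ∈ X := by
  simp only [X, Set.mem_iInter] at hx ⊢
  intro k
  obtain ⟨u, v, h⟩ := hx k
  refine ⟨u - 1, v, fun s t => ?_⟩
  obtain ⟨ty, idx, a, h⟩ := h s t
  refine ⟨ty, idx, a, fun i j hi hj => ?_⟩
  rw [← h i j hi hj]
  show x (u - 1 + s * N k + i + 1) _ = _
  congr 1
  ring

lemma X_shift2 {x : ℤ → ℤ → Bool} (hx : x ∈ X) : (fun m n => x m (n + 1)) ∈ X := by
  simp only [X, Set.mem_iInter] at hx ⊢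
  intro k
  obtain ⟨u, v, h⟩ := hx k
  refine ⟨u, v - 1, fun s t => ?_⟩
  obtain ⟨ty, idx, a, h⟩ := h s t
  refine ⟨ty, idx, a, fun i j hi hj => ?_⟩
  rw [← h i j hi hj]
  show x _ (v - 1 + t * N k + j + 1) = _
  congr 1
  ring

/-- The horizontal shift. -/
def f (x : X) : X := ⟨fun m n => x.1 (m + 1) n, X_shift1 x.2⟩

/-- The vertical shift. -/
def g (x : X) : X := ⟨fun m n => x.1 m (n + 1), X_shift2 x.2⟩

lemma f_iter (x : X) (r : ℕ) (m n : ℤ) : (f^[r] x).1 m n = x.1 (m + r) n := by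
  induction r generalizing x with
  | zero => simp
  | succ r ih =>
    rw [Function.iterate_succ_apply, ih]
    have e : m + r + 1 = m + ((r + 1 : ℕ) : ℤ) := by push_cast; ring
    show x.1 (m + r + 1) n = _
    rw [e]

lemma g_iter (x : X) (r : ℕ) (m n : ℤ) : (g^[r] x).1 m n = x.1 m (n + r) := by
  induction r generalizing x with
  | zero => simp
  | succ r ih =>
    rw [Function.iterate_succ_apply, ih]
    have e : n + r + 1 = n + ((r + 1 : ℕ) : ℤ) := by push_cast; ring
    show x.1 m (n + r + 1) = _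
    rw [e]

lemma f_cont : Continuous f := by
  refine Continuous.subtype_mk ?_ _
  refine continuous_pi fun m => continuous_pi fun n => ?_
  exact (continuous_apply n).comp ((continuous_apply (m + 1)).comp continuous_subtype_val)

lemma g_cont : Continuous g := by
  refine Continuous.subtype_mk ?_ _
  refine continuous_pi fun m => continuous_pi fun n => ?_
  exact (continuous_apply (n + 1)).comp ((continuous_apply m).comp continuous_subtype_val)

/-- Key dichotomy: the row or the column through the origin contains a run of length `N k`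
avoiding the symbol at the origin. -/
lemma key (x : X) (k : ℕ) :
    (∃ r : ℤ, ∀ i : ℕ, i < N k → x.1 (r + i) 0 = !(x.1 0 0)) ∨
    (∃ r : ℤ, ∀ i : ℕ, i < N k → x.1 0 (r + i) = !(x.1 0 0)) := by
  have hx : x.1 ∈ T (k + 1) := by
    have := x.2
    simp only [X, Set.mem_iInter] at this
    exact this (k + 1)
  obtain ⟨u, v, h⟩ := hx
  have hN : (0 : ℤ) < N (k + 1) := by exact_mod_cast N_pos (k + 1)
  have dec : ∀ u : ℤ, ∃ (s : ℤ) (i : ℕ), i < N (k + 1) ∧ u + s * N (k + 1) + i = 0 := by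
    intro u
    refine ⟨(-u) / N (k + 1), ((-u) % N (k + 1)).toNat, ?_, ?_⟩
    · have := Int.emod_lt_of_pos (-u) hN
      have h0 := Int.emod_nonneg (-u) hN.ne'
      omega
    · rw [Int.toNat_of_nonneg (Int.emod_nonneg _ hN.ne'), Int.emod_def]
      ring
  obtain ⟨s, i0, hi0, es⟩ := dec u
  obtain ⟨t, j0, hj0, et⟩ := dec v
  obtain ⟨ty, idx, a, h⟩ := h s t
  cases ty
  · left
    obtain ⟨q, hq, hrun⟩ := W_run k idx a j0 (x.1 0 0)
    refine ⟨u + s * N (k + 1) + q * N k, fun i hi => ?_⟩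
    rw [← hrun i hi]
    have bi : q * N k + i < N (k + 1) := by
      simp only [N]
      nlinarith
    have := h (q * N k + i) j0 bi hj0
    rw [et] at this
    simp only [B] at this
    push_cast at this
    rw [← add_assoc] at this
    simpa using this
  · right
    obtain ⟨q, hq, hrun⟩ := W_run k idx a i0 (x.1 0 0)
    refine ⟨v + t * N (k + 1) + q * N k, fun i hi => ?_⟩
    rw [← hrun i hi]
    have bi : q * N k + i < N (k + 1) := by
      simp only [N]
      nlinarith
    have := h i0 (q * N k + i) hi0 bi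
    rw [es] at this
    simp only [B] at this
    push_cast at this
    rw [← add_assoc] at this
    simpa using this

/-- A forward uniformly recurrent point has no long run avoiding the symbol at the origin. -/
lemma no_run (z : ℤ → Bool) (c : Bool) (L M : ℕ) (hL : M < L) (r : ℤ)
    (hr : ∀ i : ℕ, i < L → z (r + i) = !c)
    (hrec : ∃ n : ℕ, -r ≤ n ∧ ∀ i : ℕ, i < L → z (r + i + n) = z (r + i))
    (hsyn : ∀ m : ℕ, ∃ k : ℕ, m ≤ k ∧ k ≤ m + M ∧ z k = c) : False := by
  obtain ⟨n, hn, hrec⟩ := hrec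
  obtain ⟨m, hm⟩ : ∃ m : ℕ, (m : ℤ) = r + n := ⟨(r + n).toNat, Int.toNat_of_nonneg (by linarith)⟩
  obtain ⟨k, hk1, hk2, hk⟩ := hsyn m
  have hlt : k - m < L := by omega
  have h1 := hrec (k - m) hlt
  have h2 := hr (k - m) hlt
  have e : r + ((k - m : ℕ) : ℤ) + n = k := by
    rw [Nat.cast_sub hk1, hm]; ring
  rw [e, hk, h2] at h1
  cases c <;> simp at h1

lemma nhds_window (x : X) (S : Finset (ℤ × ℤ)) :
    {y : X | ∀ p ∈ S, y.1 p.1 p.2 = x.1 p.1 p.2} ∈ 𝓝 x := by
  refine IsOpen.mem_nhds ?_ (fun p _ => rfl)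
  have : {y : X | ∀ p ∈ S, y.1 p.1 p.2 = x.1 p.1 p.2} =
      ⋂ p ∈ S, (fun y : X => y.1 p.1 p.2) ⁻¹' {x.1 p.1 p.2} := by
    ext y
    simp
  rw [this]
  refine isOpen_biInter_finset fun p _ => IsOpen.preimage ?_ (isOpen_discrete _)
  exact (continuous_apply p.2).comp ((continuous_apply p.1).comp continuous_subtype_val)

theorem no_common (x : X)
    (hf : ∀ U ∈ 𝓝 x, ∃ N : ℕ, ∀ m : ℕ, ∃ k : ℕ, m ≤ k ∧ k ≤ m + N ∧ f^[k] x ∈ U)
    (hg : ∀ U ∈ 𝓝 x, ∃ N : ℕ, ∀ m : ℕ, ∃ k : ℕ, m ≤ k ∧ k ≤ m + N ∧ g^[k] x ∈ U) : False := by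
  obtain ⟨M1, hM1⟩ := hf _ (nhds_window x {(0, 0)})
  obtain ⟨M2, hM2⟩ := hg _ (nhds_window x {(0, 0)})
  have hk := lt_N (M1 + M2)
  rcases key x (M1 + M2) with ⟨r, hr⟩ | ⟨r, hr⟩
  · refine no_run (fun m => x.1 m 0) (x.1 0 0) (N (M1 + M2)) M1 (by omega) r hr ?_ ?_
    · obtain ⟨M, hM⟩ := hf _ (nhds_window x
        ((Finset.range (N (M1 + M2))).image fun i : ℕ => ((r + i : ℤ), (0 : ℤ))))
      obtain ⟨n, hn1, -, hn⟩ := hM (-r).toNat
      refine ⟨n, by omega, fun i hi => ?_⟩
      have := hn (r + i, 0) (Finset.mem_image.2 ⟨i, Finset.mem_range.2 hi, rfl⟩)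
      rw [f_iter] at this
      exact this
    · intro m
      obtain ⟨k, h1, h2, h3⟩ := hM1 m
      refine ⟨k, h1, h2, ?_⟩
      have := h3 (0, 0) (by simp)
      rw [f_iter] at this
      simpa using this
  · refine no_run (fun m => x.1 0 m) (x.1 0 0) (N (M1 + M2)) M2 (by omega) r hr ?_ ?_
    · obtain ⟨M, hM⟩ := hg _ (nhds_window x
        ((Finset.range (N (M1 + M2))).image fun i : ℕ => ((0 : ℤ), (r + i : ℤ))))
      obtain ⟨n, hn1, -, hn⟩ := hM (-r).toNat
      refine ⟨n, by omega, fun i hi => ?_⟩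
      have := hn (0, r + i) (Finset.mem_image.2 ⟨i, Finset.mem_range.2 hi, rfl⟩)
      rw [g_iter] at this
      exact this
    · intro m
      obtain ⟨k, h1, h2, h3⟩ := hM2 m
      refine ⟨k, h1, h2, ?_⟩
      have := h3 (0, 0) (by simp)
      rw [g_iter] at this
      simpa using this

/-- The negation of the preceding statement: For any nonempty compact metric space and commuting continuous maps f, g on it, some point x is uniformly recurrent for both: for each neighbourhood U of x, the times n with f^n(x) in U (resp. g^n(x) in U) have bounded gaps. -/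
theorem result :
    ¬ (∀ (X : Type) [MetricSpace X] [CompactSpace X] [Nonempty X]
      (f g : X → X), Continuous f → Continuous g → f ∘ g = g ∘ f →
      ∃ x : X,
        (∀ U ∈ 𝓝 x, ∃ N : ℕ, ∀ m : ℕ, ∃ k : ℕ, m ≤ k ∧ k ≤ m + N ∧ f^[k] x ∈ U) ∧
        (∀ U ∈ 𝓝 x, ∃ N : ℕ, ∀ m : ℕ, ∃ k : ℕ, m ≤ k ∧ k ≤ m + N ∧ g^[k] x ∈ U)) := by
  intro H
  let _ : MetricSpace X := TopologicalSpace.metrizableSpaceMetric X
  have : CompactSpace X := isCompact_iff_compactSpace.1 isClosed_X.isCompact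
  have : Nonempty X := X_nonempty.to_subtype
  obtain ⟨x, hf, hg⟩ := H X f g f_cont g_cont rfl
  exact no_common x hf hg

end Pool.Agent.S03250
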