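import Pool.Statements.S03264
import Mathlib

set_option autoImplicit false

namespace Pool.Agent.S03264

section part1


open Finset Filter Topology

section criterion

variable {X : Type} [NormedAddCommGroup X] [NormedSpace ℂ X]

/-- bad times -/
noncomputable def bad (T : X →L[ℂ] X) (z : X) (ε : ℝ) (N : ℕ) : Finset ℕ := by
  classical
  exact (range N).filter (fun t => ε ≤ ‖(T ^ t) z‖)

theorem mem_bad {T : X →L[ℂ] X} {z : X} {ε : ℝ} {N t : ℕ} : t ∈ bad T z ε N ↔ t < N ∧ ε ≤ ‖(T ^ t) z‖ := by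
  classical
  unfold bad
  rw [mem_filter, mem_range]

theorem pow_add_apply' (T : X →L[ℂ] X) (a b : ℕ) (x : X) : (T ^ (a + b)) x = (T ^ a) ((T ^ b) x) := by
  rw [pow_add]; rfl

theorem pow_mul_period (T : X →L[ℂ] X) {x : X} {d : ℕ} (h : (T ^ d) x = x) (m : ℕ) : (T ^ (d * m)) x = x := by
  induction m with
  | zero => simp
  | succ m ih => rw [Nat.mul_succ, pow_add_apply', h, ih]

theorem fhc_of_criterion [CompleteSpace X] [TopologicalSpace.SeparableSpace X]
    (T : X →L[ℂ] X) (P : Submodule ℂ X) (hPd : Dense (P : Set X))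
    (hPer : ∀ x ∈ P, ∃ d : ℕ, 0 < d ∧ (T ^ d) x = x)
    (hC : ∀ x ∈ P, ∀ ε : ℝ, 0 < ε → ∀ Q : ℕ, 0 < Q → ∃ z ∈ P, ∃ n : ℕ, Q ∣ n ∧ ‖(T ^ n) z - x‖ < ε ∧
      ∀ N : ℕ, ((bad T z ε N).card : ℝ) ≤ ε * N) :
    ∃ x : X, ∀ U : Set X, IsOpen U → U.Nonempty →
        ∃ δ : ℝ, 0 < δ ∧ ∃ N₀ : ℕ, ∀ N : ℕ, N₀ ≤ N →
          δ * (N : ℝ) ≤ (Nat.card {n : ℕ // n < N ∧ (T ^ n) x ∈ U} : ℝ) := by
  classical
  -- a dense sequence in P, each member infinitely often
  obtain ⟨xs, hxsP, hxs⟩ : ∃ xs : ℕ → X, (∀ l, xs l ∈ P) ∧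
      ∀ U : Set X, IsOpen U → U.Nonempty → ∀ l0 : ℕ, ∃ l ≥ l0, xs l ∈ U := by
    have : Nonempty P := ⟨0⟩
    have : SecondCountableTopology X := UniformSpace.secondCountable_of_separable X
    have : TopologicalSpace.SeparableSpace P := inferInstance
    let ds := TopologicalSpace.denseSeq P
    refine ⟨fun l => (ds (Nat.unpair l).1 : X), fun l => (ds _).2, ?_⟩
    intro U hU hne l0
    obtain ⟨y, hyU, hyP⟩ := hPd.inter_open_nonempty U hU hne
    have h1 : IsOpen ((fun p : P => (p : X)) ⁻¹' U) := hU.preimage continuous_subtype_val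
    obtain ⟨p, hpU, ⟨a, rfl⟩⟩ := (TopologicalSpace.denseRange_denseSeq P).inter_open_nonempty _ h1 ⟨⟨y, hyP⟩, hyU⟩
    refine ⟨Nat.pair a l0, Nat.right_le_pair a l0, ?_⟩
    simp only [Nat.unpair_pair]
    exact hpU
  -- states
  let S := {p : X × ℕ // p.1 ∈ P ∧ 0 < p.2 ∧ (T ^ p.2) p.1 = p.1}
  let ε : ℕ → ℕ → ℝ := fun l D => (1 / 2) ^ (l + 3) / D
  have hεpos : ∀ l D, 0 < D → 0 < ε l D := by
    intro l D hD
    simp only [ε]
    positivity
  have hstep : ∀ (l : ℕ) (s : S), ∃ z ∈ P, ∃ n : ℕ, ∃ d : ℕ, s.1.2 ∣ n ∧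
      ‖(T ^ n) z - (xs l - s.1.1)‖ < ε l s.1.2 ∧
      (∀ N : ℕ, ((bad T z (ε l s.1.2) N).card : ℝ) ≤ ε l s.1.2 * N) ∧ 0 < d ∧ (T ^ d) z = z := by
    intro l s
    obtain ⟨z, hzP, n, h1, h2, h3⟩ := hC (xs l - s.1.1) (P.sub_mem (hxsP l) s.2.1) (ε l s.1.2)
      (hεpos _ _ s.2.2.1) s.1.2 s.2.2.1
    obtain ⟨d, hd, hd'⟩ := hPer z hzP
    exact ⟨z, hzP, n, d, h1, h2, h3, hd, hd'⟩
  choose zf hzP nf df hdvd hclose hbad hdpos hdper using hstep
  have hnext : ∀ (l : ℕ) (s : S), (s.1.1 + zf l s) ∈ P ∧ 0 < s.1.2 * df l s ∧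
      (T ^ (s.1.2 * df l s)) (s.1.1 + zf l s) = s.1.1 + zf l s := by
    intro l s
    refine ⟨P.add_mem s.2.1 (hzP l s), Nat.mul_pos s.2.2.1 (hdpos l s), ?_⟩
    rw [map_add, pow_mul_period T s.2.2.2, mul_comm, pow_mul_period T (hdper l s)]
  let next : ℕ → S → S := fun l s => ⟨(s.1.1 + zf l s, s.1.2 * df l s), hnext l s⟩
  let s0 : S := ⟨(0, 1), P.zero_mem, one_pos, by simp⟩
  let st : ℕ → S := fun l => Nat.rec s0 (fun l s => next l s) l
  have hst : ∀ l, st (l + 1) = next l (st l) := fun l => rfl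
  let v : ℕ → X := fun l => (st l).1.1
  let D : ℕ → ℕ := fun l => (st l).1.2
  let z : ℕ → X := fun l => zf l (st l)
  let n : ℕ → ℕ := fun l => nf l (st l)
  have hv : ∀ l, v (l + 1) = v l + z l := fun l => rfl
  have hD : ∀ l, D (l + 1) = D l * df l (st l) := fun l => rfl
  have hDpos : ∀ l, 0 < D l := fun l => (st l).2.2.1
  have hDper : ∀ l, (T ^ (D l)) (v l) = v l := fun l => (st l).2.2.2
  have hDmono : ∀ l k, l ≤ k → D l ≤ D k := by
    intro l k hlk
    induction hlk with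
    | refl => exact le_rfl
    | step _ ih =>
      rename_i m _
      refine ih.trans ?_
      show D m ≤ D (m + 1)
      rw [hD]
      exact Nat.le_mul_of_pos_right _ (hdpos _ _)
  let e : ℕ → ℝ := fun l => ε l (D l)
  have hepos : ∀ l, 0 < e l := fun l => hεpos l _ (hDpos l)
  have hele : ∀ l, e l ≤ (1 / 2) ^ (l + 3) := by
    intro l
    simp only [e, ε]
    apply div_le_self (by positivity)
    exact_mod_cast hDpos l
  have hbad' : ∀ l N, ((bad T (z l) (e l) N).card : ℝ) ≤ e l * N := fun l N => hbad l (st l) N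
  have hclose' : ∀ l, ‖(T ^ (n l)) (z l) - (xs l - v l)‖ < e l := fun l => hclose l (st l)
  have hdvd' : ∀ l, D l ∣ n l := fun l => hdvd l (st l)
  -- smallness of z
  have hzsmall : ∀ l, ‖z l‖ < e l := by
    intro l
    by_contra hcon
    push Not at hcon
    have h1 : 0 ∈ bad T (z l) (e l) 1 := by
      rw [mem_bad]
      exact ⟨one_pos, by simpa using hcon⟩
    have h2 : 0 < (bad T (z l) (e l) 1).card := card_pos.mpr ⟨0, h1⟩
    have h3 := hbad' l 1
    have h4 := hele l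
    have h5 : (1 : ℝ) ≤ ((bad T (z l) (e l) 1).card : ℝ) := by exact_mod_cast h2
    have h6 : ((1 : ℝ) / 2) ^ (l + 3) ≤ (1 / 2) ^ 3 := by
      apply pow_le_pow_of_le_one (by norm_num) (by norm_num)
      omega
    norm_num at h3 h6
    linarith
  have hgeo : Summable (fun l : ℕ => ((1 : ℝ) / 2) ^ (l + 3)) := by
    have := (summable_geometric_two).mul_right (((1 : ℝ) / 2) ^ 3)
    refine this.congr ?_
    intro l
    rw [pow_add]
  have hzsum : Summable z := Summable.of_norm_bounded hgeo (fun l => ((hzsmall l).trans_le (hele l)).le)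
  have hvsum : ∀ l, v l = ∑ k ∈ range l, z k := by
    intro l
    induction l with
    | zero => simp; rfl
    | succ l ih => rw [hv, ih, sum_range_succ]
  let x : X := ∑' l, z l
  have hx : ∀ l, x = v l + ∑' k, z (k + l) := by
    intro l
    rw [hvsum]
    exact (hzsum.sum_add_tsum_nat_add l).symm
  refine ⟨x, ?_⟩
  intro U hU hne
  obtain ⟨y, hy⟩ := hne
  obtain ⟨r, hr, hball⟩ := Metric.isOpen_iff.mp hU y hy
  obtain ⟨l0, hl0⟩ : ∃ l0 : ℕ, ((1 : ℝ) / 2) ^ l0 < r / 2 :=
    exists_pow_lt_of_lt_one (by positivity) (by norm_num)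
  obtain ⟨l, hl, hxl⟩ := hxs (Metric.ball y (r / 2)) Metric.isOpen_ball ⟨y, Metric.mem_ball_self (by positivity)⟩ l0
  have hpow : ((1 : ℝ) / 2) ^ l ≤ (1 / 2) ^ l0 := pow_le_pow_of_le_one (by norm_num) (by norm_num) hl
  -- good times
  have hgood : ∀ m : ℕ, (∀ k, l < k → ‖(T ^ (n l + D (l + 1) * m)) (z k)‖ < e k) →
      (T ^ (n l + D (l + 1) * m)) x ∈ U := by
    intro m hm
    set t := n l + D (l + 1) * m with ht
    have h1 : (T ^ t) (v (l + 1)) = v l + (T ^ (n l)) (z l) := by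
      rw [ht, pow_add_apply', pow_mul_period T (hDper (l + 1)), hv, map_add]
      obtain ⟨c, hc⟩ := hdvd' l
      rw [hc, pow_mul_period T (hDper l)]
    have h2 : (T ^ t) x = (T ^ t) (v (l + 1)) + ∑' k, (T ^ t) (z (k + (l + 1))) := by
      rw [hx (l + 1), map_add]
      congr 1
      exact ((T ^ t)).map_tsum ((summable_nat_add_iff (l + 1)).mpr hzsum)
    have h3 : ‖∑' k, (T ^ t) (z (k + (l + 1)))‖ ≤ (1 / 2) ^ (l + 3) := by
      have hb : ∀ k, ‖(T ^ t) (z (k + (l + 1)))‖ ≤ ((1 : ℝ) / 2) ^ (l + 4) * (1 / 2) ^ k := by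
        intro k
        have h4 := hm (k + (l + 1)) (by omega)
        have h5 := hele (k + (l + 1))
        have h6 : ((1 : ℝ) / 2) ^ (k + (l + 1) + 3) = (1 / 2) ^ (l + 4) * (1 / 2) ^ k := by
          rw [← pow_add]
          congr 1
          omega
        rw [h6] at h5
        linarith
      have hs : HasSum (fun k : ℕ => ((1 : ℝ) / 2) ^ (l + 4) * (1 / 2) ^ k) (((1 : ℝ) / 2) ^ (l + 4) * 2) :=
        hasSum_geometric_two.mul_left _
      refine (tsum_of_norm_bounded hs hb).trans (le_of_eq ?_)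
      rw [pow_succ ((1 : ℝ) / 2) (l + 3)]
      ring
    apply hball
    rw [Metric.mem_ball, dist_eq_norm, h2, h1]
    have h7 := hclose' l
    have h8 : ‖xs l - y‖ < r / 2 := by
      rw [Metric.mem_ball, dist_eq_norm] at hxl
      exact hxl
    have h9 : v l + (T ^ (n l)) (z l) + ∑' k, (T ^ t) (z (k + (l + 1))) - y
        = ((T ^ (n l)) (z l) - (xs l - v l)) + (∑' k, (T ^ t) (z (k + (l + 1)))) + (xs l - y) := by abel
    rw [h9]
    have h10 := norm_add_le (((T ^ (n l)) (z l) - (xs l - v l)) + (∑' k, (T ^ t) (z (k + (l + 1))))) (xs l - y)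
    have h11 := norm_add_le ((T ^ (n l)) (z l) - (xs l - v l)) (∑' k, (T ^ t) (z (k + (l + 1))))
    have h12 := hele l
    have h13 : ((1 : ℝ) / 2) ^ (l + 3) = (1 / 2) ^ l / 8 := by rw [pow_add]; norm_num; ring
    rw [h13] at h3 h12
    linarith
  -- counting
  set Dl := D (l + 1) with hDl
  have hDlpos : (0 : ℝ) < Dl := by exact_mod_cast hDpos (l + 1)
  refine ⟨1 / (2 * Dl), by positivity, 8 * (n l + Dl) , ?_⟩
  intro N hN
  -- number of terms of the progression below N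
  set M := (N - n l) / Dl with hM
  have hnN : n l ≤ N := by omega
  -- bad indices
  let B : ℕ → Finset ℕ := fun k => (range M).filter (fun m => e k ≤ ‖(T ^ (n l + Dl * m)) (z k)‖)
  have hBcard : ∀ k, ((B k).card : ℝ) ≤ e k * N := by
    intro k
    refine le_trans ?_ (hbad' k N)
    have : (B k).card ≤ (bad T (z k) (e k) N).card := by
      apply card_le_card_of_injOn (fun m => n l + Dl * m)
      · intro m hm
        have hm' : m ∈ B k := hm
        simp only [B, mem_filter, mem_range] at hm'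
        show n l + Dl * m ∈ bad T (z k) (e k) N
        rw [mem_bad]
        refine ⟨?_, hm'.2⟩
        have h1 : Dl * (m + 1) ≤ Dl * M := Nat.mul_le_mul_left _ hm'.1
        have h2 : Dl * M ≤ N - n l := Nat.mul_div_le _ _
        have h3 : 0 < Dl := hDpos (l + 1)
        rw [Nat.mul_succ] at h1
        omega
      · intro m _ m' _ h
        have h3 : 0 < Dl := hDpos (l + 1)
        have : Dl * m = Dl * m' := by
          simp only at h
          omega
        exact Nat.eq_of_mul_eq_mul_left h3 this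
    exact_mod_cast this
  -- only finitely many B k are nonempty
  obtain ⟨K, hK⟩ : ∃ K : ℕ, ∀ k ≥ K, e k * N < 1 := by
    have : Tendsto (fun k : ℕ => ((1 : ℝ) / 2) ^ (k + 3) * N) atTop (𝓝 0) := by
      have := hgeo.tendsto_atTop_zero.mul_const (N : ℝ)
      simpa using this
    obtain ⟨K, hK⟩ := eventually_atTop.mp (this.eventually (gt_mem_nhds one_pos))
    refine ⟨K, fun k hk => lt_of_le_of_lt ?_ (hK k hk)⟩
    have := hele k
    gcongr
  have hBempty : ∀ k ≥ K, B k = ∅ := by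
    intro k hk
    rw [← card_eq_zero]
    by_contra h
    have h1 : 1 ≤ (B k).card := Nat.one_le_iff_ne_zero.mpr h
    have h2 : (1 : ℝ) ≤ ((B k).card : ℝ) := by exact_mod_cast h1
    have := hBcard k
    have := hK k hk
    linarith
  let BB := (Ico (l + 1) K).biUnion B
  have hBB : (BB.card : ℝ) ≤ (N : ℝ) / (8 * Dl) := by
    have h1 : (BB.card : ℝ) ≤ ∑ k ∈ Ico (l + 1) K, ((B k).card : ℝ) := by
      exact_mod_cast card_biUnion_le
    refine h1.trans ?_
    have h2 : ∀ k ∈ Ico (l + 1) K, ((B k).card : ℝ) ≤ (N / (16 * Dl)) * (1 / 2) ^ (k - (l + 1)) := by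
      intro k hk
      rw [mem_Ico] at hk
      refine (hBcard k).trans ?_
      have h3 : e k ≤ (1 / 2) ^ (k + 3) / Dl := by
        simp only [e, ε]
        gcongr
        exact_mod_cast hDmono (l + 1) k hk.1
      have h4 : ((1 : ℝ) / 2) ^ (k + 3) ≤ (1 / 16) * (1 / 2) ^ (k - (l + 1)) := by
        have h5 : ((1 : ℝ) / 16) = (1 / 2) ^ 4 := by norm_num
        rw [h5, ← pow_add]
        apply pow_le_pow_of_le_one (by norm_num) (by norm_num)
        omega
      calc e k * N ≤ ((1 / 16) * (1 / 2) ^ (k - (l + 1)) / Dl) * N := by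
            gcongr
            exact h3.trans (by gcongr)
        _ = _ := by field_simp
    refine (sum_le_sum h2).trans ?_
    rw [← mul_sum, sum_Ico_eq_sum_range]
    have h3 : ∑ k ∈ range (K - (l + 1)), ((1 : ℝ) / 2) ^ (l + 1 + k - (l + 1)) ≤ 2 := by
      have : ∀ k ∈ range (K - (l + 1)), ((1 : ℝ) / 2) ^ (l + 1 + k - (l + 1)) = (1 / 2) ^ k := by
        intro k _
        congr 1
        omega
      rw [sum_congr rfl this]
      exact sum_geometric_two_le _
    calc (N : ℝ) / (16 * Dl) * ∑ k ∈ range (K - (l + 1)), ((1 : ℝ) / 2) ^ (l + 1 + k - (l + 1))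
        ≤ (N : ℝ) / (16 * Dl) * 2 := by gcongr
      _ = _ := by field_simp; ring
  -- good indices
  let Gd := (range M) \ BB
  have hGdU : ∀ m ∈ Gd, (T ^ (n l + Dl * m)) x ∈ U := by
    intro m hm
    simp only [Gd] at hm
    rw [Finset.mem_sdiff] at hm
    apply hgood
    intro k hk
    by_contra hcon
    push Not at hcon
    have h1 : m ∈ B k := by
      simp only [B, mem_filter]
      exact ⟨hm.1, hcon⟩
    apply hm.2
    rw [mem_biUnion]
    refine ⟨k, ?_, h1⟩
    rw [mem_Ico]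
    refine ⟨hk, ?_⟩
    by_contra h
    push Not at h
    rw [hBempty k h] at h1
    exact absurd h1 (notMem_empty _)
  have hGdcard : (M : ℝ) - BB.card ≤ (Gd.card : ℝ) := by
    have h1 := le_card_sdiff BB (range M)
    rw [card_range] at h1
    have h2 : M ≤ Gd.card + BB.card := by
      show M ≤ ((range M) \ BB).card + BB.card
      omega
    have : (M : ℝ) ≤ (Gd.card : ℝ) + BB.card := by exact_mod_cast h2
    linarith
  have hMlow : ((N : ℝ) - n l) / Dl - 1 ≤ M := by
    have h1 := Nat.div_add_mod (N - n l) Dl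
    have h2 := Nat.mod_lt (N - n l) (hDpos (l + 1))
    rw [← hM] at h1
    have h3 : N - n l ≤ Dl * M + Dl := by
      have : (N - n l) % Dl < Dl := h2
      omega
    have h4 : (N : ℝ) ≤ Dl * M + Dl + n l := by
      have : N ≤ Dl * M + Dl + n l := by omega
      exact_mod_cast this
    rw [sub_le_iff_le_add, div_le_iff₀ hDlpos]
    linarith
  have hinjcard : Gd.card ≤ Nat.card {n : ℕ // n < N ∧ (T ^ n) x ∈ U} := by
    have hfin : Finite {n : ℕ // n < N ∧ (T ^ n) x ∈ U} := by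
      apply Set.Finite.to_subtype
      exact (Set.finite_lt_nat N).subset (fun n hn => hn.1)
    let f : Gd → {n : ℕ // n < N ∧ (T ^ n) x ∈ U} := fun m => ⟨n l + Dl * m, by
      refine ⟨?_, hGdU m m.2⟩
      have hm : (m : ℕ) ∈ range M \ BB := m.2
      rw [Finset.mem_sdiff, mem_range] at hm
      have h1 : Dl * ((m : ℕ) + 1) ≤ Dl * M := Nat.mul_le_mul_left _ hm.1
      have h2 : Dl * M ≤ N - n l := Nat.mul_div_le _ _
      have h3 : 0 < Dl := hDpos (l + 1)
      rw [Nat.mul_succ] at h1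
      omega⟩
    have hf : Function.Injective f := by
      intro m m' h
      have h1 : n l + Dl * (m : ℕ) = n l + Dl * (m' : ℕ) := congrArg Subtype.val h
      have h3 : 0 < Dl := hDpos (l + 1)
      have h2 : Dl * (m : ℕ) = Dl * (m' : ℕ) := by omega
      exact Subtype.ext (Nat.eq_of_mul_eq_mul_left h3 h2)
    have := Nat.card_le_card_of_injective f hf
    simpa using this
  have h1 : (Gd.card : ℝ) ≤ (Nat.card {n : ℕ // n < N ∧ (T ^ n) x ∈ U} : ℝ) := by exact_mod_cast hinjcard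
  refine le_trans ?_ h1
  refine le_trans ?_ hGdcard
  have h2 : (8 : ℝ) * (n l + Dl) ≤ N := by exact_mod_cast hN
  have h3 : 1 / (2 * (Dl : ℝ)) * N ≤ ((N : ℝ) - n l) / Dl - 1 - N / (8 * Dl) := by
    have h4 : ((N : ℝ) - n l) / Dl - 1 - N / (8 * Dl) - 1 / (2 * (Dl : ℝ)) * N = (3 * N - 8 * n l - 8 * Dl) / (8 * Dl) := by
      field_simp
      ring
    have h5 : 0 ≤ (3 * (N : ℝ) - 8 * n l - 8 * Dl) / (8 * Dl) := by
      apply div_nonneg _ (by positivity)
      have : (0 : ℝ) ≤ N := Nat.cast_nonneg N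
      linarith
    linarith
  linarith

end criterion


end part1

section part2


open Finset Filter Topology BoundedContinuousFunction

abbrev E := BoundedContinuousFunction ℤ ℂ

noncomputable def wt (m : ℤ) : ℝ := 1 + |(m : ℝ)|

theorem wt_pos (m : ℤ) : 0 < wt m := by
  unfold wt
  positivity

theorem wt_one_le (m : ℤ) : 1 ≤ wt m := by
  unfold wt
  have := abs_nonneg (m : ℝ)
  linarith

theorem wt_succ_le (m : ℤ) : wt (m + 1) ≤ 2 * wt m := by
  unfold wt
  push_cast
  have h1 := abs_add_le (m : ℝ) 1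
  have h2 := abs_nonneg (m : ℝ)
  rw [abs_one] at h1
  linarith

theorem wt_ne (m : ℤ) : ((wt m : ℝ) : ℂ) ≠ 0 := by
  exact_mod_cast (wt_pos m).ne'

/-- e(θ) = exp(2πiθ) -/
noncomputable def ex (θ : ℝ) : ℂ := Complex.exp (((2 * Real.pi * θ : ℝ) : ℂ) * Complex.I)

theorem ex_norm (θ : ℝ) : ‖ex θ‖ = 1 := Complex.norm_exp_ofReal_mul_I _

theorem ex_ne (θ : ℝ) : ex θ ≠ 0 := Complex.exp_ne_zero _

theorem ex_add (a b : ℝ) : ex (a + b) = ex a * ex b := by
  unfold ex
  rw [← Complex.exp_add]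
  congr 1
  push_cast
  ring

theorem ex_zero : ex 0 = 1 := by simp [ex]

theorem ex_int (m : ℤ) : ex m = 1 := by
  unfold ex
  rw [Complex.exp_eq_one_iff]
  exact ⟨m, by push_cast; ring⟩

theorem ex_nat_mul (n : ℕ) (a : ℝ) : ex (n * a) = ex a ^ n := by
  induction n with
  | zero => simp [ex_zero]
  | succ n ih =>
    rw [pow_succ, ← ih, ← ex_add]
    congr 1
    push_cast
    ring

theorem ex_neg (a : ℝ) : ex (-a) = (ex a)⁻¹ := by
  have : ex (-a) * ex a = 1 := by rw [← ex_add, neg_add_cancel, ex_zero]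
  exact eq_inv_of_mul_eq_one_left this

theorem ex_half : ex (1 / 2) = -1 := by
  unfold ex
  have : (((2 * Real.pi * (1 / 2) : ℝ) : ℂ) * Complex.I) = Real.pi * Complex.I := by
    push_cast
    ring
  rw [this, Complex.exp_pi_mul_I]

theorem ex_sub_norm_le (a b : ℝ) : ‖ex a - ex b‖ ≤ 2 * Real.pi * |a - b| := by
  have h1 : ex a - ex b = ex b * (ex (a - b) - 1) := by
    rw [mul_sub, ← ex_add, mul_one]
    congr 2
    ring
  rw [h1, norm_mul, ex_norm, one_mul]
  have h2 := Real.norm_exp_I_mul_ofReal_sub_one_le (x := 2 * Real.pi * (a - b))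
  unfold ex
  rw [mul_comm]
  refine h2.trans (le_of_eq ?_)
  rw [Real.norm_eq_abs, abs_mul, abs_mul, abs_of_pos Real.pi_pos]
  norm_num

noncomputable def ev (θ : ℝ) : E :=
  BoundedContinuousFunction.ofNormedAddCommGroup (fun m : ℤ => ex (m * θ) / ((wt m : ℝ) : ℂ))
    continuous_of_discreteTopology 1 (by
      intro m
      rw [norm_div, ex_norm, Complex.norm_real, Real.norm_of_nonneg (wt_pos m).le]
      exact div_le_one_of_le₀ (wt_one_le m) (wt_pos m).le)

theorem ev_apply (θ : ℝ) (m : ℤ) : ev θ m = ex (m * θ) / ((wt m : ℝ) : ℂ) := rfl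

theorem ev_norm_le (θ : ℝ) : ‖ev θ‖ ≤ 1 := by
  rw [BoundedContinuousFunction.norm_le zero_le_one]
  intro m
  rw [ev_apply, norm_div, ex_norm, Complex.norm_real, Real.norm_of_nonneg (wt_pos m).le]
  exact div_le_one_of_le₀ (wt_one_le m) (wt_pos m).le

theorem ev_ne (θ : ℝ) : ev θ ≠ 0 := by
  intro h
  have := congrArg (fun b : E => b 0) h
  simp only [ev_apply] at this
  rw [BoundedContinuousFunction.coe_zero, Pi.zero_apply] at this
  exact div_ne_zero (ex_ne _) (wt_ne _) this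

theorem ev_sub_norm_le (a b : ℝ) : ‖ev a - ev b‖ ≤ 2 * Real.pi * |a - b| := by
  rw [BoundedContinuousFunction.norm_le (by positivity)]
  intro m
  rw [BoundedContinuousFunction.sub_apply, ev_apply, ev_apply, ← sub_div, norm_div, Complex.norm_real,
    Real.norm_of_nonneg (wt_pos m).le, div_le_iff₀ (wt_pos m)]
  refine (ex_sub_norm_le _ _).trans ?_
  rw [← mul_sub, abs_mul]
  have h1 : |(m : ℝ)| ≤ wt m := by unfold wt; linarith
  calc 2 * Real.pi * (|(m : ℝ)| * |a - b|) ≤ 2 * Real.pi * (wt m * |a - b|) := by gcongr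
    _ = _ := by ring

/-- the weighted shift on the ambient space -/
noncomputable def TE : E →L[ℂ] E :=
  LinearMap.mkContinuous
    { toFun := fun b => BoundedContinuousFunction.ofNormedAddCommGroup
        (fun m : ℤ => ((wt (m + 1) / wt m : ℝ) : ℂ) * b (m + 1)) continuous_of_discreteTopology
        (2 * ‖b‖) (by
          intro m
          rw [norm_mul, Complex.norm_real, Real.norm_of_nonneg (div_pos (wt_pos _) (wt_pos _)).le]
          have h1 := b.norm_coe_le_norm (m + 1)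
          have h2 : wt (m + 1) / wt m ≤ 2 := by
            rw [div_le_iff₀ (wt_pos m)]
            exact wt_succ_le m
          exact mul_le_mul h2 h1 (norm_nonneg _) (by norm_num))
      map_add' := by
        intro b c
        ext m
        show ((wt (m + 1) / wt m : ℝ) : ℂ) * (b + c) (m + 1) = ((wt (m + 1) / wt m : ℝ) : ℂ) * b (m + 1) + ((wt (m + 1) / wt m : ℝ) : ℂ) * c (m + 1)
        rw [BoundedContinuousFunction.add_apply, mul_add]
      map_smul' := by
        intro a b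
        ext m
        show ((wt (m + 1) / wt m : ℝ) : ℂ) * (a • b) (m + 1) = a * (((wt (m + 1) / wt m : ℝ) : ℂ) * b (m + 1))
        rw [BoundedContinuousFunction.smul_apply, smul_eq_mul]
        ring } 2 (by
      intro b
      rw [BoundedContinuousFunction.norm_le (by positivity)]
      intro m
      show ‖((wt (m + 1) / wt m : ℝ) : ℂ) * b (m + 1)‖ ≤ _
      rw [norm_mul, Complex.norm_real, Real.norm_of_nonneg (div_pos (wt_pos _) (wt_pos _)).le]
      have h1 := b.norm_coe_le_norm (m + 1)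
      have h2 : wt (m + 1) / wt m ≤ 2 := by
        rw [div_le_iff₀ (wt_pos m)]
        exact wt_succ_le m
      exact mul_le_mul h2 h1 (norm_nonneg _) (by norm_num))

theorem TE_apply (b : E) (m : ℤ) : TE b m = ((wt (m + 1) / wt m : ℝ) : ℂ) * b (m + 1) := rfl

theorem TE_pow_apply (n : ℕ) (b : E) (m : ℤ) : (TE ^ n) b m = ((wt (m + n) / wt m : ℝ) : ℂ) * b (m + n) := by
  induction n generalizing b m with
  | zero =>
    simp only [pow_zero, Nat.cast_zero, add_zero]
    rw [div_self (wt_pos m).ne']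
    simp
  | succ n ih =>
    rw [pow_succ]
    show (TE ^ n) (TE b) m = _
    rw [ih, TE_apply, ← mul_assoc, ← Complex.ofReal_mul]
    have h1 : m + (n : ℤ) + 1 = m + ((n + 1 : ℕ) : ℤ) := by push_cast; ring
    rw [h1]
    congr 2
    have := (wt_pos (m + n)).ne'
    have := (wt_pos m).ne'
    field_simp

theorem TE_ev (θ : ℝ) : TE (ev θ) = ex θ • ev θ := by
  ext m
  rw [TE_apply, BoundedContinuousFunction.smul_apply, smul_eq_mul, ev_apply, ev_apply]
  have h1 : ex (((m + 1 : ℤ) : ℝ) * θ) = ex θ * ex (m * θ) := by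
    rw [← ex_add]
    congr 1
    push_cast
    ring
  rw [h1]
  push_cast
  have h2 := wt_ne m
  have h3 := wt_ne (m + 1)
  field_simp

theorem TE_pow_ev (n : ℕ) (θ : ℝ) : (TE ^ n) (ev θ) = ex (n * θ) • ev θ := by
  induction n with
  | zero => simp [ex_zero]
  | succ n ih =>
    rw [pow_succ']
    show TE ((TE ^ n) (ev θ)) = _
    rw [ih, map_smul, TE_ev, smul_smul, ← ex_add]
    congr 2
    push_cast
    ring


end part2

section part3


open Finset Filter Topology

/-- A point whose distance to all `q + m / n` is bounded below. -/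
theorem gap_one (q m : ℚ) (p : ℝ) (hp : Irrational p) :
    ∃ δ : ℝ, 0 < δ ∧ ∀ n : ℕ, 1 ≤ n → δ ≤ |(q : ℝ) + m / n - p| := by
  have hne : ∀ n : ℕ, (q : ℝ) + m / n - p ≠ 0 := by
    intro n h
    apply hp
    refine ⟨q + m / n, ?_⟩
    push_cast
    linarith
  have hlim : Tendsto (fun n : ℕ => |(q : ℝ) + m / n - p|) atTop (𝓝 |(q : ℝ) + 0 - p|) := by
    apply Tendsto.abs
    exact ((tendsto_const_nhds).add (tendsto_const_div_atTop_nhds_zero_nat (m : ℝ))).sub_const p
  have hq : 0 < |(q : ℝ) + 0 - p| := by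
    rw [abs_pos]
    intro h
    apply hp
    exact ⟨q, by linarith⟩
  obtain ⟨K, hK⟩ := eventually_atTop.mp (hlim.eventually (lt_mem_nhds (half_lt_self hq)))
  -- min over the first K
  have hfin : ∃ δ : ℝ, 0 < δ ∧ ∀ n ∈ range K, δ ≤ |(q : ℝ) + m / n - p| := by
    induction K with
    | zero => exact ⟨1, one_pos, by simp⟩
    | succ K _ =>
      have hne' : (range (K + 1)).Nonempty := ⟨0, by simp⟩
      refine ⟨((range (K + 1)).inf' hne' (fun n : ℕ => |(q : ℝ) + m / n - p|)), ?_, ?_⟩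
      · refine (Finset.lt_inf'_iff hne').mpr ?_
        intro n _
        exact abs_pos.mpr (hne n)
      · intro n hn
        exact Finset.inf'_le (fun n : ℕ => |(q : ℝ) + m / n - p|) hn
  obtain ⟨δ, hδ, hδ'⟩ := hfin
  refine ⟨min δ (|(q : ℝ) + 0 - p| / 2), lt_min hδ (by positivity), ?_⟩
  intro n _
  by_cases hn : n < K
  · exact (min_le_left _ _).trans (hδ' n (mem_range.mpr hn))
  · push Not at hn
    exact (min_le_right _ _).trans (hK n hn).le

/-- finitely many (q, m) -/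
theorem gap_fin (F : Finset (ℚ × ℚ)) (p : ℝ) (hp : Irrational p) :
    ∃ δ : ℝ, 0 < δ ∧ ∀ a ∈ F, ∀ n : ℕ, 1 ≤ n → δ < |(a.1 : ℝ) + a.2 / n - p| := by
  classical
  induction F using Finset.induction_on with
  | empty => exact ⟨1, one_pos, by simp⟩
  | insert a F _ ih =>
    obtain ⟨δ, hδ, h⟩ := ih
    obtain ⟨δ', hδ', h'⟩ := gap_one a.1 a.2 p hp
    refine ⟨min δ (δ' / 2), lt_min hδ (by positivity), ?_⟩
    intro b hb n hn
    rw [mem_insert] at hb
    rcases hb with rfl | hb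
    · have := h' n hn
      exact lt_of_lt_of_le (lt_of_le_of_lt (min_le_right _ _) (half_lt_self hδ')) this
    · exact lt_of_le_of_lt (min_le_left _ _) (h b hb n hn)

theorem exists_gaps : ∃ (p ρ : ℕ → ℝ), (∀ j, 0 < ρ j) ∧ (∀ j, 0 < p j ∧ p j < 1) ∧
    (∀ a b : ℝ, 0 ≤ a → a < b → b ≤ 1 → ∃ j, a < p j ∧ p j < b) ∧
    (∀ j, ρ j < |1 / 2 - p j|) ∧
    ∀ (q : ℚ) (L : ℕ), ∃ J : ℕ, ∀ j ≥ J, ∀ m < L, ∀ n : ℕ, 1 ≤ n → ρ j < |(q : ℝ) + m / n - p j| := by
  classical
  obtain ⟨qs, hqs⟩ := exists_surjective_nat ℚ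
  obtain ⟨I, hI⟩ := exists_surjective_nat (ℚ × ℚ)
  have hp : ∀ j : ℕ, ∃ p : ℝ, Irrational p ∧ 0 < p ∧ p < 1 ∧
      (0 ≤ (I j).1 → (I j).1 < (I j).2 → (I j).2 ≤ 1 → ((I j).1 : ℝ) < p ∧ p < (I j).2) := by
    intro j
    by_cases h : 0 ≤ (I j).1 ∧ (I j).1 < (I j).2 ∧ (I j).2 ≤ 1
    · obtain ⟨h0, h1, h2⟩ := h
      have h1' : ((I j).1 : ℝ) < (I j).2 := by exact_mod_cast h1
      have h0' : (0 : ℝ) ≤ (I j).1 := by exact_mod_cast h0
      have h2' : ((I j).2 : ℝ) ≤ 1 := by exact_mod_cast h2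
      obtain ⟨p, hp, ha, hb⟩ := exists_irrational_btwn h1'
      exact ⟨p, hp, lt_of_le_of_lt h0' ha, lt_of_lt_of_le hb h2', fun _ _ _ => ⟨ha, hb⟩⟩
    · obtain ⟨p, hp, ha, hb⟩ := exists_irrational_btwn (zero_lt_one (α := ℝ))
      exact ⟨p, hp, ha, hb, fun h0 h1 h2 => absurd ⟨h0, h1, h2⟩ h⟩
  choose p hirr hp0 hp1 hpI using hp
  have hρ : ∀ j : ℕ, ∃ δ : ℝ, 0 < δ ∧ ∀ a ∈ (insert ((1 / 2 : ℚ), (0 : ℚ))
      (((range (j + 1)).image qs) ×ˢ ((range (j + 1)).image (fun m : ℕ => (m : ℚ))))), ∀ n : ℕ, 1 ≤ n →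
      δ < |(a.1 : ℝ) + a.2 / n - p j| := fun j => gap_fin _ _ (hirr j)
  choose ρ hρ0 hρ1 using hρ
  refine ⟨p, ρ, hρ0, fun j => ⟨hp0 j, hp1 j⟩, ?_, ?_, ?_⟩
  · intro a b ha hab hb
    obtain ⟨a', haa', ha'b⟩ := exists_rat_btwn hab
    obtain ⟨b', hab', hb'b⟩ := exists_rat_btwn ha'b
    obtain ⟨j, hj⟩ := hI (a', b')
    have h0 : 0 ≤ (I j).1 := by
      rw [hj]
      have : (0 : ℝ) < a' := lt_of_le_of_lt ha haa'
      exact_mod_cast this.le
    have h1 : (I j).1 < (I j).2 := by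
      rw [hj]
      exact_mod_cast hab'
    have h2 : (I j).2 ≤ 1 := by
      rw [hj]
      have : (b' : ℝ) < 1 := lt_of_lt_of_le hb'b hb
      exact_mod_cast this.le
    have := hpI j h0 h1 h2
    rw [hj] at this
    exact ⟨j, haa'.trans this.1, this.2.trans hb'b⟩
  · intro j
    have := hρ1 j ((1 / 2 : ℚ), (0 : ℚ)) (mem_insert_self _ _) 1 le_rfl
    simpa using this
  · intro q L
    obtain ⟨i, hi⟩ := hqs q
    refine ⟨max i L, ?_⟩
    intro j hj m hm n hn
    have h1 : i ≤ j := (le_max_left _ _).trans hj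
    have h2 : L ≤ j := (le_max_right _ _).trans hj
    have := hρ1 j (q, (m : ℚ)) (by
      rw [mem_insert]
      right
      rw [mem_product]
      constructor
      · exact mem_image.mpr ⟨i, by rw [mem_range]; omega, hi⟩
      · exact mem_image.mpr ⟨m, by rw [mem_range]; omega, rfl⟩) n hn
    simpa using this


end part3

section part4


open Finset Filter Topology

/-- Dirichlet type average -/
noncomputable def beta (L : ℕ) (ω : ℂ) (t : ℕ) : ℂ := (1 / (L : ℂ)) * ∑ m ∈ range L, (-ω ^ t) ^ m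

theorem beta_parseval (L k : ℕ) (hL : 0 < L) (hLk : L ≤ k) (ω : ℂ) (hω : IsPrimitiveRoot ω k) :
    ∑ t ∈ range k, ‖beta L ω t‖ ^ 2 = k / L := by
  have hk : 0 < k := hL.trans_le hLk
  have hnorm : ‖ω‖ = 1 := hω.norm'_eq_one hk.ne'
  have hconj : (starRingEnd ℂ) ω = ω⁻¹ := by
    rw [Complex.inv_def, Complex.normSq_eq_norm_sq, hnorm]
    simp
  have hω0 : ω ≠ 0 := hω.ne_zero hk.ne'
  have hLc : (L : ℂ) ≠ 0 := by exact_mod_cast hL.ne'
  have key : ∀ t, ((‖beta L ω t‖ ^ 2 : ℝ) : ℂ) = (1 / (L : ℂ)) ^ 2 *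
      ∑ m ∈ range L, ∑ m' ∈ range L, ((-1) ^ m * (-1) ^ m') * (ω ^ m * (ω⁻¹) ^ m') ^ t := by
    intro t
    rw [← Complex.normSq_eq_norm_sq, ← Complex.mul_conj, beta, map_mul, map_sum]
    have h1 : (starRingEnd ℂ) (1 / (L : ℂ)) = 1 / L := by simp
    have h2 : ∀ m, (starRingEnd ℂ) ((-ω ^ t) ^ m) = (-(ω⁻¹) ^ t) ^ m := by
      intro m
      rw [map_pow, map_neg, map_pow, hconj]
    rw [h1]
    simp only [h2]
    have h3 : (1 / (L : ℂ) * ∑ m ∈ range L, (-ω ^ t) ^ m) * (1 / (L : ℂ) * ∑ m ∈ range L, (-(ω⁻¹) ^ t) ^ m)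
        = (1 / (L : ℂ)) ^ 2 * ((∑ m ∈ range L, (-ω ^ t) ^ m) * (∑ m ∈ range L, (-(ω⁻¹) ^ t) ^ m)) := by ring
    rw [h3, sum_mul_sum]
    congr 1
    apply sum_congr rfl
    intro m _
    apply sum_congr rfl
    intro m' _
    rw [neg_pow (ω ^ t), neg_pow ((ω⁻¹) ^ t), mul_pow, ← pow_mul, ← pow_mul, ← pow_mul, ← pow_mul,
      mul_comm t m, mul_comm t m']
    ring
  have h4 : ((∑ t ∈ range k, ‖beta L ω t‖ ^ 2 : ℝ) : ℂ) = ((k / L : ℝ) : ℂ) := by
    rw [Complex.ofReal_sum]
    simp only [key]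
    rw [← mul_sum, sum_comm]
    have h5 : ∀ m ∈ range L, ∑ t ∈ range k, ∑ m' ∈ range L, ((-1 : ℂ) ^ m * (-1) ^ m') * (ω ^ m * (ω⁻¹) ^ m') ^ t = k := by
      intro m hm
      rw [sum_comm, sum_eq_single m]
      · have : ω ^ m * ω⁻¹ ^ m = 1 := by
          rw [← mul_pow, mul_inv_cancel₀ hω0, one_pow]
        simp only [this, one_pow, mul_one]
        rw [← mul_pow]
        norm_num
      · intro m' hm' hne
        rw [← mul_sum]
        have hw : ω ^ m * ω⁻¹ ^ m' ≠ 1 := by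
          intro h
          have h6 : ω ^ m = ω ^ m' := by
            rw [inv_pow] at h
            have := pow_ne_zero m' hω0
            field_simp at h
            exact h
          rw [mem_range] at hm hm'
          exact hne (hω.pow_inj (hm.trans_le hLk) (hm'.trans_le hLk) h6).symm
        have hwk : (ω ^ m * ω⁻¹ ^ m') ^ k = 1 := by
          rw [mul_pow, ← pow_mul, ← pow_mul, mul_comm m k, mul_comm m' k, pow_mul, pow_mul, hω.pow_eq_one,
            inv_pow ω k, hω.pow_eq_one]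
          simp
        have h7 := mul_geom_sum (ω ^ m * ω⁻¹ ^ m') k
        rw [hwk, sub_self] at h7
        rcases mul_eq_zero.mp h7 with h8 | h8
        · exact absurd (sub_eq_zero.mp h8) hw
        · rw [h8, mul_zero]
      · intro h
        exact absurd hm h
    rw [sum_congr rfl h5, sum_const, card_range, nsmul_eq_mul]
    push_cast
    field_simp
  exact_mod_cast h4

theorem beta_periodic (L k : ℕ) (ω : ℂ) (hω : ω ^ k = 1) (t c : ℕ) : beta L ω (k * c + t) = beta L ω t := by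
  unfold beta
  rw [pow_add, pow_mul, hω, one_pow, one_mul]

theorem beta_sum_le (L k : ℕ) (hL : 0 < L) (hLk : L ≤ k) (ω : ℂ) (hω : IsPrimitiveRoot ω k) (N : ℕ) :
    ∑ t ∈ range N, ‖beta L ω t‖ ^ 2 ≤ ((N : ℝ) + k) / L := by
  have hk : 0 < k := hL.trans_le hLk
  have h1 : ∀ c : ℕ, ∑ t ∈ range (k * c), ‖beta L ω t‖ ^ 2 = c * (k / L : ℝ) := by
    intro c
    induction c with
    | zero => simp
    | succ c ih =>
      rw [Nat.mul_succ, sum_range_add, ih]
      simp only [beta_periodic L k ω hω.pow_eq_one]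
      rw [beta_parseval L k hL hLk ω hω]
      push_cast
      ring
  have h2 : N ≤ k * (N / k + 1) := by
    have := Nat.div_add_mod N k
    have := Nat.mod_lt N hk
    rw [Nat.mul_succ]
    omega
  have h3 : ∑ t ∈ range N, ‖beta L ω t‖ ^ 2 ≤ ∑ t ∈ range (k * (N / k + 1)), ‖beta L ω t‖ ^ 2 := by
    apply sum_le_sum_of_subset_of_nonneg
    · intro t ht
      rw [mem_range] at ht ⊢
      omega
    · intro t _ _
      positivity
  refine h3.trans ?_
  rw [h1]
  have h4 : ((N / k : ℕ) : ℝ) * k ≤ N := by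
    exact_mod_cast Nat.div_mul_le_self N k
  have hLr : (0 : ℝ) < L := by exact_mod_cast hL
  push_cast
  rw [← mul_div_assoc]
  gcongr
  nlinarith

theorem beta_small (L n : ℕ) (hL : 0 < L) (t : ℕ) (ht : 2 * t ≤ n) (hn : 0 < n) :
    ‖beta L (Complex.exp (2 * Real.pi * Complex.I / ((2 * n : ℕ) : ℂ))) t‖ ≤ 2 / L := by
  set ω := Complex.exp (2 * Real.pi * Complex.I / ((2 * n : ℕ) : ℂ)) with hω
  have hnr : (0 : ℝ) < n := by exact_mod_cast hn
  have h1 : ω ^ t = Complex.exp (((Real.pi * t / n : ℝ) : ℂ) * Complex.I) := by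
    rw [hω, ← Complex.exp_nat_mul]
    congr 1
    push_cast
    have : (n : ℂ) ≠ 0 := by exact_mod_cast hn.ne'
    field_simp
  have hLr : (0 : ℝ) < L := by exact_mod_cast hL
  have h2 : 1 ≤ ‖-ω ^ t - 1‖ := by
    have h3 : ‖-ω ^ t - 1‖ = ‖ω ^ t + 1‖ := by
      rw [← norm_neg]
      congr 1
      ring
    rw [h3]
    have h4 := Complex.abs_re_le_norm (ω ^ t + 1)
    refine le_trans ?_ h4
    rw [Complex.add_re, Complex.one_re, h1, Complex.exp_ofReal_mul_I_re]
    have h5 : 0 ≤ Real.cos (Real.pi * t / n) := by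
      apply Real.cos_nonneg_of_neg_pi_div_two_le_of_le
      · have : 0 ≤ Real.pi * t / n := by positivity
        have := Real.pi_pos
        linarith
      · rw [div_le_iff₀ hnr]
        have : (2 : ℝ) * t ≤ n := by exact_mod_cast ht
        have := Real.pi_pos
        nlinarith
    rw [abs_of_nonneg (by linarith)]
    linarith
  have h6 := geom_sum_mul (-ω ^ t) L
  have h7 : ‖∑ m ∈ range L, (-ω ^ t) ^ m‖ ≤ 2 := by
    have h8 : ‖∑ m ∈ range L, (-ω ^ t) ^ m‖ * ‖-ω ^ t - 1‖ ≤ 2 := by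
      rw [← norm_mul, h6]
      refine (norm_sub_le _ _).trans ?_
      rw [norm_pow, norm_neg, h1, Complex.norm_exp_ofReal_mul_I]
      norm_num
    calc ‖∑ m ∈ range L, (-ω ^ t) ^ m‖ = ‖∑ m ∈ range L, (-ω ^ t) ^ m‖ * 1 := (mul_one _).symm
      _ ≤ ‖∑ m ∈ range L, (-ω ^ t) ^ m‖ * ‖-ω ^ t - 1‖ := by gcongr
      _ ≤ 2 := h8
  rw [beta, norm_mul, norm_div, norm_one, Complex.norm_natCast]
  calc 1 / (L : ℝ) * ‖∑ m ∈ range L, (-ω ^ t) ^ m‖ ≤ 1 / (L : ℝ) * 2 := by gcongr
    _ = 2 / L := by ring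

theorem beta_count (L n : ℕ) (hL : 0 < L) (hLn : L ≤ 2 * n) (η : ℝ) (hη : 0 < η) (h2 : 2 / (L : ℝ) < η) (N : ℕ)
    (s : Finset ℕ) (hs : ∀ t ∈ s, t < N ∧
      η ≤ ‖beta L (Complex.exp (2 * Real.pi * Complex.I / ((2 * n : ℕ) : ℂ))) t‖) :
    (s.card : ℝ) ≤ 5 * N / (L * η ^ 2) := by
  set ω := Complex.exp (2 * Real.pi * Complex.I / ((2 * n : ℕ) : ℂ)) with hω
  have hn : 0 < n := by omega
  have hLr : (0 : ℝ) < L := by exact_mod_cast hL
  have hprim : IsPrimitiveRoot ω (2 * n) := Complex.isPrimitiveRoot_exp (2 * n) (by omega)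
  by_cases hN : 2 * N ≤ n
  · have : s = ∅ := by
      rw [eq_empty_iff_forall_notMem]
      intro t ht
      obtain ⟨h3, h4⟩ := hs t ht
      have h5 := beta_small L n hL t (by omega) hn
      rw [← hω] at h5
      linarith
    rw [this, card_empty]
    push_cast
    positivity
  · push Not at hN
    have h3 : (s.card : ℝ) * η ^ 2 ≤ ∑ t ∈ range N, ‖beta L ω t‖ ^ 2 := by
      have h4 : ∑ t ∈ s, ‖beta L ω t‖ ^ 2 ≤ ∑ t ∈ range N, ‖beta L ω t‖ ^ 2 := by
        apply sum_le_sum_of_subset_of_nonneg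
        · intro t ht
          exact mem_range.mpr (hs t ht).1
        · intro t _ _
          positivity
      refine le_trans ?_ h4
      rw [← nsmul_eq_mul]
      apply card_nsmul_le_sum
      intro t ht
      have := (hs t ht).2
      gcongr
    have h4 := beta_sum_le L (2 * n) hL hLn ω hprim N
    have h5 : ((N : ℝ) + (2 * n : ℕ)) ≤ 5 * N := by
      have : N + 2 * n ≤ 5 * N := by omega
      exact_mod_cast this
    rw [le_div_iff₀ (by positivity)]
    have h6 : (s.card : ℝ) * η ^ 2 ≤ 5 * N / L := by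
      refine h3.trans (h4.trans ?_)
      gcongr
    rw [le_div_iff₀ hLr] at h6
    linarith


end part4

section part5


open Finset Filter Topology BoundedContinuousFunction

noncomputable def pp : ℕ → ℝ := Classical.choose exists_gaps
noncomputable def rr : ℕ → ℝ := Classical.choose (Classical.choose_spec exists_gaps)

theorem gaps_spec : (∀ j, 0 < rr j) ∧ (∀ j, 0 < pp j ∧ pp j < 1) ∧
    (∀ a b : ℝ, 0 ≤ a → a < b → b ≤ 1 → ∃ j, a < pp j ∧ pp j < b) ∧
    (∀ j, rr j < |1 / 2 - pp j|) ∧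
    ∀ (q : ℚ) (L : ℕ), ∃ J : ℕ, ∀ j ≥ J, ∀ m < L, ∀ n : ℕ, 1 ≤ n → rr j < |(q : ℝ) + m / n - pp j| :=
  Classical.choose_spec (Classical.choose_spec exists_gaps)

def R : Set ℚ := {q | 0 < q ∧ q < 1 ∧ ∀ j, rr j < |(q : ℝ) - pp j|}

theorem half_mem_R : (1 / 2 : ℚ) ∈ R := by
  refine ⟨by norm_num, by norm_num, ?_⟩
  intro j
  have := gaps_spec.2.2.2.1 j
  push_cast
  exact this

theorem R_step (q : ℚ) (hq : q ∈ R) (L : ℕ) :
    ∃ n0 : ℕ, 1 ≤ n0 ∧ ∀ n ≥ n0, ∀ m < L, q + (m : ℚ) / ((2 * n : ℕ) : ℚ) ∈ R := by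
  obtain ⟨J, hJ⟩ := gaps_spec.2.2.2.2 q L
  obtain ⟨h0, h1, h2⟩ := hq
  -- a margin
  have hmarg : ∃ δ : ℝ, 0 < δ ∧ ∀ j < J, rr j + δ < |(q : ℝ) - pp j| := by
    clear hJ
    induction J with
    | zero => exact ⟨1, one_pos, fun j hj => absurd hj (Nat.not_lt_zero j)⟩
    | succ J ih =>
      obtain ⟨δ, hδ, h⟩ := ih
      refine ⟨min δ ((|(q : ℝ) - pp J| - rr J) / 2), lt_min hδ (by have := h2 J; linarith), ?_⟩
      intro j hj
      rcases Nat.lt_succ_iff_lt_or_eq.mp hj with hj | rfl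
      · have := h j hj
        have := min_le_left δ ((|(q : ℝ) - pp J| - rr J) / 2)
        linarith
      · have := min_le_right δ ((|(q : ℝ) - pp j| - rr j) / 2)
        have := h2 j
        linarith
  obtain ⟨δ, hδ, hmarg⟩ := hmarg
  have h1' : (0 : ℝ) < 1 - q := by
    have : (q : ℝ) < 1 := by exact_mod_cast h1
    linarith
  set δ' := min δ (1 - q : ℝ) with hδ'
  have hδ'pos : 0 < δ' := lt_min hδ h1'
  obtain ⟨n0, hn0⟩ := exists_nat_gt ((L : ℝ) / δ')
  refine ⟨n0 + 1, by omega, ?_⟩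
  intro n hn m hm
  have hn' : 0 < n := by omega
  have hnr : (0 : ℝ) < n := by exact_mod_cast hn'
  have hsmall : (m : ℝ) / ((2 * n : ℕ) : ℝ) < δ' := by
    rw [div_lt_iff₀ (by push_cast; positivity)]
    rw [div_lt_iff₀ hδ'pos] at hn0
    have h3 : (m : ℝ) < L := by exact_mod_cast hm
    have h4 : (n0 : ℝ) ≤ n := by
      have : n0 ≤ n := by omega
      exact_mod_cast this
    push_cast
    nlinarith
  have hnn : 0 ≤ (m : ℝ) / ((2 * n : ℕ) : ℝ) := by positivity
  refine ⟨?_, ?_, ?_⟩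
  · have : (0 : ℚ) ≤ (m : ℚ) / ((2 * n : ℕ) : ℚ) := by positivity
    linarith
  · have h5 := min_le_right δ (1 - q : ℝ)
    have h6 : ((q + (m : ℚ) / ((2 * n : ℕ) : ℚ) : ℚ) : ℝ) < 1 := by
      push_cast at hsmall ⊢
      linarith
    exact_mod_cast h6
  · intro j
    by_cases hj : j < J
    · have h7 := hmarg j hj
      have h8 := min_le_left δ (1 - q : ℝ)
      have h9 : ((q + (m : ℚ) / ((2 * n : ℕ) : ℚ) : ℚ) : ℝ) - pp j = (q - pp j : ℝ) + (m : ℝ) / ((2 * n : ℕ) : ℝ) := by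
        push_cast
        ring
      rw [h9]
      have h10 := abs_sub_abs_le_abs_sub (q - pp j : ℝ) (-((m : ℝ) / ((2 * n : ℕ) : ℝ)))
      rw [sub_neg_eq_add, abs_neg, abs_of_nonneg hnn] at h10
      linarith
    · push Not at hj
      have := hJ j hj m hm (2 * n) (by omega)
      push_cast at this ⊢
      exact this

/-- The space. -/
noncomputable def S0 : Submodule ℂ E := Submodule.span ℂ (Set.range (fun q : R => ev ((q : ℚ) : ℝ)))

noncomputable def XS : Submodule ℂ E := S0.topologicalClosure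

theorem ev_mem_XS {q : ℚ} (hq : q ∈ R) : ev (q : ℝ) ∈ XS :=
  S0.le_topologicalClosure (Submodule.subset_span ⟨⟨q, hq⟩, rfl⟩)

theorem XS_closed : IsClosed (XS : Set E) := S0.isClosed_topologicalClosure

theorem TE_mem_XS {b : E} (hb : b ∈ XS) : TE b ∈ XS := by
  have h1 : S0 ≤ XS.comap (TE : E →ₗ[ℂ] E) := by
    apply Submodule.span_le.mpr
    rintro _ ⟨q, rfl⟩
    show TE (ev ((q : ℚ) : ℝ)) ∈ XS
    rw [TE_ev]
    exact XS.smul_mem _ (ev_mem_XS q.2)
  have h2 : IsClosed ((XS.comap (TE : E →ₗ[ℂ] E) : Submodule ℂ E) : Set E) := XS_closed.preimage TE.continuous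
  exact (S0.topologicalClosure_minimal h1 h2) hb

abbrev X := ↥XS

instance : CompleteSpace X := XS_closed.completeSpace_coe

instance : TopologicalSpace.SeparableSpace X := by
  have h1 : TopologicalSpace.IsSeparable (XS : Set E) := by
    have h2 : TopologicalSpace.IsSeparable (Set.range (fun q : R => ev ((q : ℚ) : ℝ))) :=
      (Set.countable_range _).isSeparable
    exact (h2.span (R := ℂ)).closure
  exact h1.separableSpace

noncomputable def T : X →L[ℂ] X := (TE.comp XS.subtypeL).codRestrict XS (fun b => TE_mem_XS b.2)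

theorem T_coe (b : X) : ((T b : X) : E) = TE (b : E) := rfl

theorem T_pow_coe (n : ℕ) (b : X) : (((T ^ n) b : X) : E) = (TE ^ n) (b : E) := by
  induction n generalizing b with
  | zero => simp
  | succ n ih =>
    rw [pow_succ, pow_succ]
    show (((T ^ n) (T b) : X) : E) = (TE ^ n) (TE b)
    rw [ih, T_coe]

open Classical in
noncomputable def eX (q : ℚ) : X := if h : q ∈ R then ⟨ev (q : ℝ), ev_mem_XS h⟩ else 0

theorem eX_coe {q : ℚ} (h : q ∈ R) : ((eX q : X) : E) = ev (q : ℝ) := by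
  unfold eX
  rw [dif_pos h]

noncomputable def P : Submodule ℂ X := Submodule.span ℂ (Set.range eX)

theorem eX_mem_P (q : ℚ) : eX q ∈ P := Submodule.subset_span ⟨q, rfl⟩

theorem P_dense : Dense (P : Set X) := by
  rw [Subtype.dense_iff]
  have h1 : (S0 : Set E) ⊆ (fun b : X => (b : E)) '' (P : Set X) := by
    have h2 : S0 ≤ P.map XS.subtype := by
      apply Submodule.span_le.mpr
      rintro _ ⟨q, rfl⟩
      exact ⟨eX q, eX_mem_P q, eX_coe q.2⟩
    exact h2
  have h3 : ((XS : Submodule ℂ E) : Set E) = closure (S0 : Set E) := rfl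
  exact h3.subset.trans (closure_mono h1)

theorem T_eX {q : ℚ} (n : ℕ) : (T ^ n) (eX q) = ex (n * q) • eX q := by
  by_cases h : q ∈ R
  · apply Subtype.ext
    rw [T_pow_coe, Submodule.coe_smul, eX_coe h, TE_pow_ev]
  · have : eX q = 0 := by
      unfold eX
      rw [dif_neg h]
    rw [this]
    simp

theorem ex_den_mul (q : ℚ) (n : ℕ) (hn : q.den ∣ n) : ex (n * q) = 1 := by
  obtain ⟨c, rfl⟩ := hn
  have h1 : (((q.den * c : ℕ) : ℝ) * (q : ℝ)) = ((c * q.num : ℤ) : ℝ) := by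
    have h2 : (q : ℝ) * (q.den : ℝ) = (q.num : ℝ) := by
      exact_mod_cast Rat.mul_den_eq_num q
    push_cast
    rw [← h2]
    ring
  rw [h1, ex_int]

theorem X_norm (x : X) : ‖x‖ = ‖(x : E)‖ := rfl

theorem eX_of_not {q : ℚ} (h : q ∉ R) : eX q = 0 := by
  unfold eX
  rw [dif_neg h]

theorem eX_norm_le (q : ℚ) : ‖eX q‖ ≤ 1 := by
  by_cases h : q ∈ R
  · rw [X_norm, eX_coe h]
    exact ev_norm_le _
  · rw [eX_of_not h, norm_zero]
    exact zero_le_one

theorem eX_sub_norm_le {q q' : ℚ} (h : q ∈ R) (h' : q' ∈ R) : ‖eX q - eX q'‖ ≤ 2 * Real.pi * |(q : ℝ) - q'| := by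
  have h1 : ((eX q - eX q' : X) : E) = ev (q : ℝ) - ev (q' : ℝ) := by
    rw [← eX_coe h, ← eX_coe h']
    rfl
  rw [X_norm, h1]
  exact ev_sub_norm_le _ _


end part5

section part6


open Finset Filter Topology BoundedContinuousFunction

structure Sys {X : Type} [NormedAddCommGroup X] [NormedSpace ℂ X] (T : X →L[ℂ] X) (eX : ℚ → X)
    (P : Submodule ℂ X) : Prop where
  norm_le : ∀ q, ‖eX q‖ ≤ 1
  of_not : ∀ {q}, q ∉ R → eX q = 0
  sub_le : ∀ {q q'}, q ∈ R → q' ∈ R → ‖eX q - eX q'‖ ≤ 2 * Real.pi * |(q : ℝ) - q'|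
  T_e : ∀ (q : ℚ) (n : ℕ), (T ^ n) (eX q) = ex (n * q) • eX q
  P_eq : P = Submodule.span ℂ (Set.range eX)
  dense : Dense (P : Set X)

section abs

variable {X : Type} [NormedAddCommGroup X] [NormedSpace ℂ X]
  {T : X →L[ℂ] X} {eX : ℚ → X} {P : Submodule ℂ X} (hS : Sys T eX P)
include hS

theorem mem_P (q : ℚ) : eX q ∈ P := by
  rw [hS.P_eq]
  exact Submodule.subset_span ⟨q, rfl⟩

theorem P_per : ∀ x ∈ P, ∃ d : ℕ, 0 < d ∧ (T ^ d) x = x := by
  intro x hx
  rw [hS.P_eq] at hx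
  induction hx using Submodule.span_induction with
  | mem x hx =>
    obtain ⟨q, rfl⟩ := hx
    refine ⟨q.den, q.den_pos, ?_⟩
    rw [hS.T_e, ex_den_mul q _ dvd_rfl, one_smul]
  | zero => exact ⟨1, one_pos, by simp⟩
  | add x y _ _ hx hy =>
    obtain ⟨d, hd, hd'⟩ := hx
    obtain ⟨e, he, he'⟩ := hy
    refine ⟨d * e, Nat.mul_pos hd he, ?_⟩
    rw [map_add, pow_mul_period T hd', mul_comm, pow_mul_period T he']
  | smul a x _ hx =>
    obtain ⟨d, hd, hd'⟩ := hx
    exact ⟨d, hd, by rw [map_smul, hd']⟩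

theorem gen_C (q : ℚ) (ε : ℝ) (hε : 0 < ε) : ∃ n0 : ℕ, ∀ n ≥ n0, q.den ∣ n → ∃ z ∈ P,
    ‖(T ^ n) z - eX q‖ < ε ∧ ∀ N : ℕ, ((bad T z ε N).card : ℝ) ≤ ε * N := by
  by_cases hq : q ∈ R
  swap
  · refine ⟨0, fun n _ _ => ⟨0, P.zero_mem, ?_, ?_⟩⟩
    · rw [hS.of_not hq, map_zero, sub_zero, norm_zero]
      exact hε
    · intro N
      have : bad T (0 : X) ε N = ∅ := by
        rw [eq_empty_iff_forall_notMem]
        intro t ht
        rw [mem_bad, map_zero, norm_zero] at ht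
        linarith [ht.2]
      rw [this, card_empty]
      push_cast
      positivity
  · obtain ⟨L, hL⟩ := exists_nat_gt (max (4 / ε) (20 / ε ^ 3))
    have hL1 : 4 / ε < L := (le_max_left _ _).trans_lt hL
    have hL2 : 20 / ε ^ 3 < L := (le_max_right _ _).trans_lt hL
    have hLr : (0 : ℝ) < L := (by positivity : 0 < 4 / ε).trans hL1
    have hLpos : 0 < L := by exact_mod_cast hLr
    obtain ⟨n1, hn1, hR⟩ := R_step q hq L
    obtain ⟨n2, hn2⟩ := exists_nat_gt (2 * Real.pi * L / ε)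
    refine ⟨max (max n1 n2) L, ?_⟩
    intro n hn hden
    have hnn1 : n1 ≤ n := le_trans (le_trans (le_max_left _ _) (le_max_left _ _)) hn
    have hnn2 : n2 ≤ n := le_trans (le_trans (le_max_right _ _) (le_max_left _ _)) hn
    have hnL : L ≤ n := le_trans (le_max_right _ _) hn
    have hnpos : 0 < n := by omega
    have hnr : (0 : ℝ) < n := by exact_mod_cast hnpos
    have hnn2' : (n2 : ℝ) ≤ n := by exact_mod_cast hnn2
    set qm : ℕ → ℚ := fun m => q + (m : ℚ) / ((2 * n : ℕ) : ℚ) with hqm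
    have hqR : ∀ m < L, qm m ∈ R := fun m hm => hR n hnn1 m hm
    set δ := Real.pi * L / n with hδ
    have hδε : δ < ε / 2 := by
      rw [hδ, div_lt_iff₀ hnr]
      rw [div_lt_iff₀ hε] at hn2
      nlinarith
    have hdist : ∀ m < L, ‖eX (qm m) - eX q‖ ≤ δ := by
      intro m hm
      refine (hS.sub_le (hqR m hm) hq).trans ?_
      have h1 : ((qm m : ℚ) : ℝ) - q = m / (2 * n) := by
        rw [hqm]
        push_cast
        ring
      rw [h1, abs_of_nonneg (by positivity), hδ]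
      have h2 : (m : ℝ) ≤ L := by exact_mod_cast hm.le
      have h3 : 2 * Real.pi * ((m : ℝ) / (2 * n)) = Real.pi * m / n := by
        field_simp
      rw [h3]
      gcongr
    set ω := Complex.exp (2 * Real.pi * Complex.I / ((2 * n : ℕ) : ℂ)) with hω
    have hω' : ω = ex (1 / (2 * n)) := by
      rw [hω, ex]
      congr 1
      push_cast
      ring
    set z : X := ∑ m ∈ range L, ((-1) ^ m / (L : ℂ)) • eX (qm m) with hz
    have hcoef : ∀ t m : ℕ, ex (t * (qm m : ℚ)) = ex (t * q) * (ω ^ t) ^ m := by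
      intro t m
      rw [hω', ← pow_mul, ← ex_nat_mul, ← ex_add]
      congr 1
      rw [hqm]
      push_cast
      ring
    have hTz : ∀ t : ℕ, (T ^ t) z = ∑ m ∈ range L, ((1 / (L : ℂ)) * ex (t * q) * (-ω ^ t) ^ m) • eX (qm m) := by
      intro t
      rw [hz, map_sum]
      apply sum_congr rfl
      intro m _
      rw [map_smul, hS.T_e, smul_smul, hcoef]
      congr 1
      rw [neg_pow (ω ^ t)]
      ring
    have hbeta : ∀ t : ℕ, ∑ m ∈ range L, ((1 / (L : ℂ)) * ex (t * q) * (-ω ^ t) ^ m) = ex (t * q) * beta L ω t := by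
      intro t
      rw [beta, ← mul_sum]
      ring
    have hωn : ω ^ n = -1 := by
      rw [hω', ← ex_nat_mul, ← ex_half]
      congr 1
      field_simp
    have hωnorm : ‖ω‖ = 1 := by rw [hω']; exact ex_norm _
    have hdiff : ∀ t : ℕ, ‖(T ^ t) z - (ex (t * q) * beta L ω t) • eX q‖ ≤ δ := by
      intro t
      rw [hTz, ← hbeta, sum_smul, ← sum_sub_distrib]
      have h1 : ∀ m ∈ range L, ‖((1 / (L : ℂ)) * ex (t * q) * (-ω ^ t) ^ m) • eX (qm m) -
          ((1 / (L : ℂ)) * ex (t * q) * (-ω ^ t) ^ m) • eX q‖ ≤ 1 / L * δ := by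
        intro m hm
        rw [← smul_sub, norm_smul, norm_mul, norm_mul, ex_norm, norm_pow, norm_neg, norm_pow, hωnorm,
          norm_div, norm_one, Complex.norm_natCast]
        simp only [one_pow, mul_one]
        have := hdist m (mem_range.mp hm)
        gcongr
      refine (norm_sum_le_of_le _ h1).trans (le_of_eq ?_)
      rw [sum_const, card_range, nsmul_eq_mul]
      field_simp
    have hbound : ∀ t : ℕ, ‖(T ^ t) z‖ ≤ δ + ‖beta L ω t‖ := by
      intro t
      have h1 : (T ^ t) z = ((T ^ t) z - (ex (t * q) * beta L ω t) • eX q) + (ex (t * q) * beta L ω t) • eX q := by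
        abel
      rw [h1]
      refine (norm_add_le _ _).trans ?_
      have h2 : ‖(ex (t * q) * beta L ω t) • eX q‖ ≤ ‖beta L ω t‖ := by
        rw [norm_smul, norm_mul, ex_norm, one_mul]
        exact mul_le_of_le_one_right (norm_nonneg _) (hS.norm_le q)
      linarith [hdiff t]
    refine ⟨z, ?_, ?_, ?_⟩
    · exact P.sum_mem (fun m _ => P.smul_mem _ (mem_P hS _))
    · have h1 := hdiff n
      have h2 : beta L ω n = 1 := by
        rw [beta, hωn]
        simp only [neg_neg, one_pow, sum_const, card_range, nsmul_eq_mul, mul_one]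
        have : (L : ℂ) ≠ 0 := by exact_mod_cast hLpos.ne'
        field_simp
      rw [h2, ex_den_mul q n hden, mul_one, one_smul] at h1
      linarith
    · intro N
      have h1 := beta_count L n hLpos (by omega) (ε / 2) (by positivity)
        (by rw [div_lt_iff₀ hLr]; rw [div_lt_iff₀ hε] at hL1; linarith) N (bad T z ε N) (by
          intro t ht
          rw [mem_bad] at ht
          refine ⟨ht.1, ?_⟩
          have := hbound t
          rw [← hω]
          linarith [ht.2])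
      refine h1.trans ?_
      rw [div_lt_iff₀ (by positivity)] at hL2
      rw [div_le_iff₀ (by positivity)]
      have hN : (0 : ℝ) ≤ N := Nat.cast_nonneg N
      nlinarith

theorem gen_A (q : ℚ) (ε : ℝ) (hε : 0 < ε) : ∃ n0 : ℕ, ∀ n ≥ n0, ∃ z : X,
    ‖z - eX q‖ < ε ∧ ‖(T ^ n) z‖ < ε := by
  by_cases hq : q ∈ R
  swap
  · refine ⟨0, fun n _ => ⟨0, ?_, ?_⟩⟩
    · rw [hS.of_not hq, sub_zero, norm_zero]
      exact hε
    · rw [map_zero, norm_zero]
      exact hε
  · obtain ⟨n1, hn1, hR⟩ := R_step q hq 2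
    obtain ⟨n2, hn2⟩ := exists_nat_gt (Real.pi / ε)
    refine ⟨max n1 n2, ?_⟩
    intro n hn
    have hnn1 : n1 ≤ n := le_trans (le_max_left _ _) hn
    have hnn2 : n2 ≤ n := le_trans (le_max_right _ _) hn
    have hnpos : 0 < n := by omega
    have hnr : (0 : ℝ) < n := by exact_mod_cast hnpos
    have hnn2' : (n2 : ℝ) ≤ n := by exact_mod_cast hnn2
    set q' : ℚ := q + ((1 : ℕ) : ℚ) / ((2 * n : ℕ) : ℚ) with hq'
    have hq'R : q' ∈ R := hR n hnn1 1 (by norm_num)
    have hsub : (q' : ℝ) - q = 1 / (2 * n) := by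
      rw [hq']
      push_cast
      ring
    have hdist : ‖eX q' - eX q‖ ≤ Real.pi / n := by
      refine (hS.sub_le hq'R hq).trans (le_of_eq ?_)
      rw [hsub, abs_of_nonneg (by positivity)]
      field_simp
    have hsm : Real.pi / n < ε := by
      rw [div_lt_iff₀ hnr]
      rw [div_lt_iff₀ hε] at hn2
      nlinarith
    have hTq' : (T ^ n) (eX q') = -(ex (n * q) • eX q') := by
      rw [hS.T_e]
      have h1 : (n : ℝ) * (q' : ℝ) = n * q + 1 / 2 := by
        have : (q' : ℝ) = q + 1 / (2 * n) := by linarith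
        rw [this]
        field_simp
      rw [h1, ex_add, ex_half, mul_neg, mul_one, neg_smul]
    refine ⟨(1 / 2 : ℂ) • (eX q + eX q'), ?_, ?_⟩
    · have h1 : (1 / 2 : ℂ) • (eX q + eX q') - eX q = (1 / 2 : ℂ) • (eX q' - eX q) := by
        rw [smul_add, smul_sub]
        have : eX q = (1 / 2 : ℂ) • eX q + (1 / 2 : ℂ) • eX q := by
          rw [← add_smul]
          norm_num
        nth_rewrite 2 [this]
        abel
      rw [h1, norm_smul]
      norm_num
      linarith [norm_nonneg (eX q' - eX q)]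
    · rw [map_smul, map_add, hTq', hS.T_e]
      have h1 : ex (n * q) • eX q + -(ex (n * q) • eX q') = -(ex (n * q) • (eX q' - eX q)) := by
        rw [smul_sub]
        abel
      rw [h1, norm_smul, norm_neg, norm_smul, ex_norm]
      norm_num
      linarith [norm_nonneg (eX q' - eX q)]

theorem gen_B (q : ℚ) (ε : ℝ) (hε : 0 < ε) : ∃ n0 : ℕ, ∀ n ≥ n0, ∃ z : X,
    ‖z‖ < ε ∧ ‖(T ^ n) z - eX q‖ < ε := by
  by_cases hq : q ∈ R
  swap
  · refine ⟨0, fun n _ => ⟨0, ?_, ?_⟩⟩
    · rw [norm_zero]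
      exact hε
    · rw [map_zero, hS.of_not hq, sub_zero, norm_zero]
      exact hε
  · obtain ⟨n1, hn1, hR⟩ := R_step q hq 2
    obtain ⟨n2, hn2⟩ := exists_nat_gt (Real.pi / ε)
    refine ⟨max n1 n2, ?_⟩
    intro n hn
    have hnn1 : n1 ≤ n := le_trans (le_max_left _ _) hn
    have hnn2 : n2 ≤ n := le_trans (le_max_right _ _) hn
    have hnpos : 0 < n := by omega
    have hnr : (0 : ℝ) < n := by exact_mod_cast hnpos
    have hnn2' : (n2 : ℝ) ≤ n := by exact_mod_cast hnn2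
    set q' : ℚ := q + ((1 : ℕ) : ℚ) / ((2 * n : ℕ) : ℚ) with hq'
    have hq'R : q' ∈ R := hR n hnn1 1 (by norm_num)
    have hsub : (q' : ℝ) - q = 1 / (2 * n) := by
      rw [hq']
      push_cast
      ring
    have hdist : ‖eX q' - eX q‖ ≤ Real.pi / n := by
      refine (hS.sub_le hq'R hq).trans (le_of_eq ?_)
      rw [hsub, abs_of_nonneg (by positivity)]
      field_simp
    have hsm : Real.pi / n < ε := by
      rw [div_lt_iff₀ hnr]
      rw [div_lt_iff₀ hε] at hn2
      nlinarith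
    have hTq' : (T ^ n) (eX q') = -(ex (n * q) • eX q') := by
      rw [hS.T_e]
      have h1 : (n : ℝ) * (q' : ℝ) = n * q + 1 / 2 := by
        have : (q' : ℝ) = q + 1 / (2 * n) := by linarith
        rw [this]
        field_simp
      rw [h1, ex_add, ex_half, mul_neg, mul_one, neg_smul]
    refine ⟨((ex (n * q))⁻¹ * (1 / 2 : ℂ)) • (eX q - eX q'), ?_, ?_⟩
    · rw [norm_smul, norm_mul, norm_inv, ex_norm, norm_sub_rev]
      norm_num
      linarith [norm_nonneg (eX q' - eX q)]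
    · rw [map_smul, map_sub, hTq', hS.T_e]
      have h1 : ((ex (n * q))⁻¹ * (1 / 2 : ℂ)) • (ex (n * q) • eX q - -(ex (n * q) • eX q')) - eX q
          = (1 / 2 : ℂ) • (eX q' - eX q) := by
        rw [sub_neg_eq_add, ← smul_add, smul_smul]
        have h2 : (ex (n * q))⁻¹ * (1 / 2 : ℂ) * ex (n * q) = 1 / 2 := by
          have := ex_ne (n * q)
          field_simp
        rw [h2, smul_add, smul_sub]
        have : eX q = (1 / 2 : ℂ) • eX q + (1 / 2 : ℂ) • eX q := by
          rw [← add_smul]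
          norm_num
        nth_rewrite 2 [this]
        abel
      rw [h1, norm_smul]
      norm_num
      linarith [norm_nonneg (eX q' - eX q)]

theorem all_C (x : X) (hx : x ∈ P) : ∃ d : ℕ, 0 < d ∧ ∀ ε : ℝ, 0 < ε → ∃ n0 : ℕ, ∀ n ≥ n0, d ∣ n →
    ∃ z ∈ P, ‖(T ^ n) z - x‖ < ε ∧ ∀ N : ℕ, ((bad T z ε N).card : ℝ) ≤ ε * N := by
  classical
  rw [hS.P_eq] at hx
  have hPe := hS.P_eq
  induction hx using Submodule.span_induction with
  | mem x hx =>
    obtain ⟨q, rfl⟩ := hx
    exact ⟨q.den, q.den_pos, fun ε hε => gen_C hS q ε hε⟩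
  | zero =>
    refine ⟨1, one_pos, fun ε hε => ⟨0, fun n _ _ => ⟨0, P.zero_mem, ?_, ?_⟩⟩⟩
    · rw [map_zero, sub_zero, norm_zero]
      exact hε
    · intro N
      have : bad T (0 : X) ε N = ∅ := by
        rw [eq_empty_iff_forall_notMem]
        intro t ht
        rw [mem_bad, map_zero, norm_zero] at ht
        linarith [ht.2]
      rw [this, card_empty]
      push_cast
      positivity
  | add x y _ _ hx hy =>
    obtain ⟨d, hd, hx⟩ := hx
    obtain ⟨e, he, hy⟩ := hy
    refine ⟨d * e, Nat.mul_pos hd he, ?_⟩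
    intro ε hε
    obtain ⟨n1, h1⟩ := hx (ε / 2) (by positivity)
    obtain ⟨n2, h2⟩ := hy (ε / 2) (by positivity)
    refine ⟨max n1 n2, ?_⟩
    intro n hn hdn
    obtain ⟨z1, hz1, hc1, hb1⟩ := h1 n ((le_max_left _ _).trans hn) ((Dvd.intro _ rfl).trans hdn)
    obtain ⟨z2, hz2, hc2, hb2⟩ := h2 n ((le_max_right _ _).trans hn) ((Dvd.intro_left _ rfl).trans hdn)
    refine ⟨z1 + z2, P.add_mem hz1 hz2, ?_, ?_⟩
    · have : (T ^ n) (z1 + z2) - (x + y) = ((T ^ n) z1 - x) + ((T ^ n) z2 - y) := by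
        rw [map_add]
        abel
      rw [this]
      refine (norm_add_le _ _).trans_lt ?_
      linarith
    · intro N
      have hsub : bad T (z1 + z2) ε N ⊆ bad T z1 (ε / 2) N ∪ bad T z2 (ε / 2) N := by
        intro t ht
        rw [mem_bad] at ht
        rw [mem_union, mem_bad, mem_bad]
        by_contra hcon
        push Not at hcon
        have h3 := hcon.1 ht.1
        have h4 := hcon.2 ht.1
        have h5 := ht.2
        rw [map_add] at h5
        have h6 := norm_add_le ((T ^ t) z1) ((T ^ t) z2)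
        linarith
      have h7 : ((bad T (z1 + z2) ε N).card : ℝ) ≤ (bad T z1 (ε / 2) N).card + (bad T z2 (ε / 2) N).card := by
        exact_mod_cast (card_le_card hsub).trans (card_union_le _ _)
      have := hb1 N
      have := hb2 N
      linarith
  | smul a x _ hx =>
    obtain ⟨d, hd, hx⟩ := hx
    refine ⟨d, hd, ?_⟩
    intro ε hε
    have ha : 0 < ‖a‖ + 1 := by positivity
    obtain ⟨n1, h1⟩ := hx (ε / (‖a‖ + 1)) (by positivity)
    refine ⟨n1, ?_⟩
    intro n hn hdn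
    obtain ⟨z, hz, hc, hb⟩ := h1 n hn hdn
    have hε' : ε / (‖a‖ + 1) ≤ ε := div_le_self hε.le (by linarith [norm_nonneg a])
    refine ⟨a • z, P.smul_mem _ hz, ?_, ?_⟩
    · rw [map_smul, ← smul_sub, norm_smul]
      rw [lt_div_iff₀ ha] at hc
      nlinarith [norm_nonneg a, norm_nonneg ((T ^ n) z - x)]
    · intro N
      have hsub : bad T (a • z) ε N ⊆ bad T z (ε / (‖a‖ + 1)) N := by
        intro t ht
        rw [mem_bad] at ht ⊢
        refine ⟨ht.1, ?_⟩
        have h5 := ht.2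
        rw [map_smul, norm_smul] at h5
        rw [div_le_iff₀ ha]
        nlinarith [norm_nonneg a, norm_nonneg ((T ^ t) z)]
      have h7 : ((bad T (a • z) ε N).card : ℝ) ≤ (bad T z (ε / (‖a‖ + 1)) N).card := by
        exact_mod_cast card_le_card hsub
      have h8 := hb N
      have hN : (0 : ℝ) ≤ N := Nat.cast_nonneg N
      nlinarith

theorem all_A (x : X) (hx : x ∈ P) : ∀ ε : ℝ, 0 < ε → ∃ n0 : ℕ, ∀ n ≥ n0,
    ∃ z : X, ‖z - x‖ < ε ∧ ‖(T ^ n) z‖ < ε := by
  rw [hS.P_eq] at hx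
  induction hx using Submodule.span_induction with
  | mem x hx =>
    obtain ⟨q, rfl⟩ := hx
    exact fun ε hε => gen_A hS q ε hε
  | zero =>
    exact fun ε hε => ⟨0, fun n _ => ⟨0, by simpa using hε, by simpa using hε⟩⟩
  | add x y _ _ hx hy =>
    intro ε hε
    obtain ⟨n1, h1⟩ := hx (ε / 2) (by positivity)
    obtain ⟨n2, h2⟩ := hy (ε / 2) (by positivity)
    refine ⟨max n1 n2, ?_⟩
    intro n hn
    obtain ⟨z1, hc1, hb1⟩ := h1 n ((le_max_left _ _).trans hn)
    obtain ⟨z2, hc2, hb2⟩ := h2 n ((le_max_right _ _).trans hn)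
    refine ⟨z1 + z2, ?_, ?_⟩
    · have : z1 + z2 - (x + y) = (z1 - x) + (z2 - y) := by abel
      rw [this]
      refine (norm_add_le _ _).trans_lt ?_
      linarith
    · rw [map_add]
      refine (norm_add_le _ _).trans_lt ?_
      linarith
  | smul a x _ hx =>
    intro ε hε
    have ha : 0 < ‖a‖ + 1 := by positivity
    obtain ⟨n1, h1⟩ := hx (ε / (‖a‖ + 1)) (by positivity)
    refine ⟨n1, ?_⟩
    intro n hn
    obtain ⟨z, hc, hb⟩ := h1 n hn
    refine ⟨a • z, ?_, ?_⟩
    · rw [← smul_sub, norm_smul]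
      rw [lt_div_iff₀ ha] at hc
      nlinarith [norm_nonneg a, norm_nonneg (z - x)]
    · rw [map_smul, norm_smul]
      rw [lt_div_iff₀ ha] at hb
      nlinarith [norm_nonneg a, norm_nonneg ((T ^ n) z)]

theorem all_B (x : X) (hx : x ∈ P) : ∀ ε : ℝ, 0 < ε → ∃ n0 : ℕ, ∀ n ≥ n0,
    ∃ z : X, ‖z‖ < ε ∧ ‖(T ^ n) z - x‖ < ε := by
  rw [hS.P_eq] at hx
  induction hx using Submodule.span_induction with
  | mem x hx =>
    obtain ⟨q, rfl⟩ := hx
    exact fun ε hε => gen_B hS q ε hε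
  | zero =>
    exact fun ε hε => ⟨0, fun n _ => ⟨0, by simpa using hε, by simpa using hε⟩⟩
  | add x y _ _ hx hy =>
    intro ε hε
    obtain ⟨n1, h1⟩ := hx (ε / 2) (by positivity)
    obtain ⟨n2, h2⟩ := hy (ε / 2) (by positivity)
    refine ⟨max n1 n2, ?_⟩
    intro n hn
    obtain ⟨z1, hc1, hb1⟩ := h1 n ((le_max_left _ _).trans hn)
    obtain ⟨z2, hc2, hb2⟩ := h2 n ((le_max_right _ _).trans hn)
    refine ⟨z1 + z2, ?_, ?_⟩
    · refine (norm_add_le _ _).trans_lt ?_
      linarith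
    · have : (T ^ n) (z1 + z2) - (x + y) = ((T ^ n) z1 - x) + ((T ^ n) z2 - y) := by
        rw [map_add]
        abel
      rw [this]
      refine (norm_add_le _ _).trans_lt ?_
      linarith
  | smul a x _ hx =>
    intro ε hε
    have ha : 0 < ‖a‖ + 1 := by positivity
    obtain ⟨n1, h1⟩ := hx (ε / (‖a‖ + 1)) (by positivity)
    refine ⟨n1, ?_⟩
    intro n hn
    obtain ⟨z, hc, hb⟩ := h1 n hn
    refine ⟨a • z, ?_, ?_⟩
    · rw [norm_smul]
      rw [lt_div_iff₀ ha] at hc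
      nlinarith [norm_nonneg a, norm_nonneg z]
    · rw [map_smul, ← smul_sub, norm_smul]
      rw [lt_div_iff₀ ha] at hb
      nlinarith [norm_nonneg a, norm_nonneg ((T ^ n) z - x)]

theorem T_mixing : ∀ U V : Set X, IsOpen U → IsOpen V → U.Nonempty → V.Nonempty →
        ∃ N : ℕ, ∀ n : ℕ, N ≤ n → ((⇑(T ^ n)) ⁻¹' V ∩ U).Nonempty := by
  intro U V hU hV hUne hVne
  obtain ⟨u, huU, huP⟩ := hS.dense.inter_open_nonempty U hU hUne
  obtain ⟨v, hvV, hvP⟩ := hS.dense.inter_open_nonempty V hV hVne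
  obtain ⟨r, hr, hrU⟩ := Metric.isOpen_iff.mp hU u huU
  obtain ⟨s, hs, hsV⟩ := Metric.isOpen_iff.mp hV v hvV
  have hε : 0 < min r s / 2 := by positivity
  obtain ⟨n1, h1⟩ := all_A hS u huP _ hε
  obtain ⟨n2, h2⟩ := all_B hS v hvP _ hε
  refine ⟨max n1 n2, ?_⟩
  intro n hn
  obtain ⟨z1, ha1, hb1⟩ := h1 n ((le_max_left _ _).trans hn)
  obtain ⟨z2, ha2, hb2⟩ := h2 n ((le_max_right _ _).trans hn)
  have hmr := min_le_left r s
  have hms := min_le_right r s
  refine ⟨z1 + z2, ?_, ?_⟩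
  · show (T ^ n) (z1 + z2) ∈ V
    apply hsV
    rw [Metric.mem_ball, dist_eq_norm, map_add]
    have : (T ^ n) z1 + (T ^ n) z2 - v = (T ^ n) z1 + ((T ^ n) z2 - v) := by abel
    rw [this]
    refine (norm_add_le _ _).trans_lt ?_
    linarith
  · apply hrU
    rw [Metric.mem_ball, dist_eq_norm]
    have : z1 + z2 - u = (z1 - u) + z2 := by abel
    rw [this]
    refine (norm_add_le _ _).trans_lt ?_
    linarith

theorem T_FHC [CompleteSpace X] [TopologicalSpace.SeparableSpace X] : ∃ x : X, ∀ U : Set X, IsOpen U → U.Nonempty →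
        ∃ δ : ℝ, 0 < δ ∧ ∃ N₀ : ℕ, ∀ N : ℕ, N₀ ≤ N →
          δ * (N : ℝ) ≤ (Nat.card {n : ℕ // n < N ∧ (T ^ n) x ∈ U} : ℝ) := by
  apply fhc_of_criterion T P hS.dense (P_per hS)
  intro x hx ε hε Q hQ
  obtain ⟨d, hd, h⟩ := all_C hS x hx
  obtain ⟨n0, hn0⟩ := h ε hε
  obtain ⟨z, hz, h1, h2⟩ := hn0 (d * Q * (n0 + 1)) (by
    have : 0 < d * Q := Nat.mul_pos hd hQ
    nlinarith) ⟨Q * (n0 + 1), by ring⟩
  exact ⟨z, hz, d * Q * (n0 + 1), ⟨d * (n0 + 1), by ring⟩, h1, h2⟩

theorem T_chaotic [CompleteSpace X] [TopologicalSpace.SeparableSpace X] : (∃ x : X, Dense (Set.range (fun n : ℕ => (T ^ n) x))) ∧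
        Dense {x : X | ∃ n : ℕ, 0 < n ∧ (T ^ n) x = x} := by
  constructor
  · obtain ⟨x, hx⟩ := T_FHC hS
    refine ⟨x, ?_⟩
    rw [dense_iff_inter_open]
    intro U hU hne
    obtain ⟨δ, hδ, N₀, h⟩ := hx U hU hne
    have h1 := h (N₀ + 1) (by omega)
    have h2 : 0 < Nat.card {n : ℕ // n < N₀ + 1 ∧ (T ^ n) x ∈ U} := by
      have : (0 : ℝ) < (Nat.card {n : ℕ // n < N₀ + 1 ∧ (T ^ n) x ∈ U} : ℝ) := by
        refine lt_of_lt_of_le ?_ h1
        positivity
      exact_mod_cast this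
    obtain ⟨⟨n, hn, hnU⟩⟩ := (Nat.card_pos_iff.mp h2).1
    exact ⟨(T ^ n) x, hnU, n, rfl⟩
  · apply hS.dense.mono
    intro x hx
    exact P_per hS x hx

end abs


end part6

section part7


open Finset Filter Topology BoundedContinuousFunction

/-- unweighted coordinates -/
noncomputable def co (b : E) (m : ℤ) : ℂ := ((wt m : ℝ) : ℂ) * b m

theorem co_TE_pow (b : E) (n : ℕ) (m : ℤ) : co ((TE ^ n) b) m = co b (m + n) := by
  unfold co
  rw [TE_pow_apply, ← mul_assoc, ← Complex.ofReal_mul]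
  congr 2
  have := (wt_pos m).ne'
  field_simp

theorem co_ev (θ : ℝ) (m : ℤ) : co (ev θ) m = ex (m * θ) := by
  unfold co
  rw [ev_apply]
  have := wt_ne m
  field_simp

theorem co_norm_le (b : E) (m : ℤ) : ‖co b m‖ ≤ wt m * ‖b‖ := by
  unfold co
  rw [norm_mul, Complex.norm_real, Real.norm_of_nonneg (wt_pos m).le]
  exact mul_le_mul_of_nonneg_left (b.norm_coe_le_norm m) (wt_pos m).le

/-- the functional attached to a rapidly decaying sequence -/
noncomputable def phi (g : ℤ → ℂ) (hg : Summable (fun m => ‖g m‖ * wt m)) : E →L[ℂ] ℂ :=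
  have hs : ∀ b : E, Summable (fun m => g m * co b m) := fun b =>
    Summable.of_norm_bounded (hg.mul_right ‖b‖) (fun m => by
      rw [norm_mul, mul_assoc]
      exact mul_le_mul_of_nonneg_left (co_norm_le b m) (norm_nonneg _))
  LinearMap.mkContinuous
    { toFun := fun b => ∑' m, g m * co b m
      map_add' := fun b c => by
        rw [← (hs b).tsum_add (hs c)]
        apply tsum_congr
        intro m
        unfold co
        rw [BoundedContinuousFunction.add_apply]
        ring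
      map_smul' := fun a b => by
        rw [RingHom.id_apply, smul_eq_mul, ← tsum_mul_left]
        apply tsum_congr
        intro m
        unfold co
        rw [BoundedContinuousFunction.smul_apply, smul_eq_mul]
        ring } (∑' m, ‖g m‖ * wt m) (fun b => by
      show ‖∑' m, g m * co b m‖ ≤ _
      rw [← tsum_mul_right]
      apply tsum_of_norm_bounded (hg.mul_right ‖b‖).hasSum
      intro m
      rw [norm_mul, mul_assoc]
      exact mul_le_mul_of_nonneg_left (co_norm_le b m) (norm_nonneg _))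

theorem phi_apply (g : ℤ → ℂ) (hg : Summable (fun m => ‖g m‖ * wt m)) (b : E) :
    phi g hg b = ∑' m, g m * co b m := rfl

theorem phi_vanish (g : ℤ → ℂ) (hg : Summable (fun m => ‖g m‖ * wt m))
    (h0 : ∀ q ∈ R, ∑' m : ℤ, g m * ex (m * ((q : ℚ) : ℝ)) = 0) (b : E) (hb : b ∈ XS) :
    ∑' m, g m * co b m = 0 := by
  have h1 : S0 ≤ LinearMap.ker (phi g hg : E →ₗ[ℂ] ℂ) := by
    apply Submodule.span_le.mpr
    rintro _ ⟨q, rfl⟩
    show phi g hg (ev ((q : ℚ) : ℝ)) = 0
    rw [phi_apply]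
    simp only [co_ev]
    exact h0 q q.2
  have h2 : IsClosed ((LinearMap.ker (phi g hg : E →ₗ[ℂ] ℂ) : Submodule ℂ E) : Set E) :=
    (isClosed_singleton (x := (0 : ℂ))).preimage (phi g hg).continuous
  exact (S0.topologicalClosure_minimal h1 h2) hb

theorem bump (p r : ℝ) (hr : 0 < r) : ∃ f : SchwartzMap ℝ ℂ, f p = 1 ∧ ∀ x, r ≤ |x - p| → f x = 0 := by
  obtain ⟨u, h₁, h₂, h₃, -, h₄⟩ :=
    exists_contDiff_tsupport_subset (n := ⊤) (Metric.ball_mem_nhds p hr)
  have h₂' : HasCompactSupport (Complex.ofRealCLM ∘ u) := h₂.comp_left rfl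
  refine ⟨h₂'.toSchwartzMap (Complex.ofRealCLM.contDiff.comp h₃), by simp [h₄], ?_⟩
  intro x hx
  have : u x = 0 := by
    by_contra hne
    have := h₁ (subset_tsupport u hne)
    rw [Metric.mem_ball, Real.dist_eq] at this
    linarith
  simp [this]

theorem summable_wt : Summable (fun m : ℤ => 1 / wt m ^ 2) := by
  have h1 : Summable (fun n : ℕ => 1 / ((n : ℝ) + 1) ^ 2) := by
    have := (summable_nat_add_iff 1).mpr (Real.summable_one_div_nat_pow.mpr (one_lt_two))
    refine this.congr ?_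
    intro n
    push_cast
    rfl
  apply Summable.of_nat_of_neg
  · refine h1.congr ?_
    intro n
    unfold wt
    push_cast
    rw [abs_of_nonneg (by positivity), add_comm]
  · refine h1.congr ?_
    intro n
    unfold wt
    push_cast
    rw [abs_neg, abs_of_nonneg (by positivity), add_comm]

theorem fourier_ex (n : ℤ) (x : ℝ) : fourier n (x : UnitAddCircle) = ex (n * x) := by
  rw [fourier_coe_apply]
  unfold ex
  congr 1
  push_cast
  ring

theorem gap_fn (j : ℕ) : ∃ g : ℤ → ℂ, Summable (fun m => ‖g m‖ * wt m) ∧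
    (∀ q ∈ R, ∑' m : ℤ, g m * ex (m * ((q : ℚ) : ℝ)) = 0) ∧ ∑' m : ℤ, g m * ex (m * pp j) = 1 := by
  obtain ⟨hr, hp, -, -, -⟩ := gaps_spec
  obtain ⟨hp0, hp1⟩ := hp j
  set r := min (rr j) (min (pp j) (1 - pp j)) with hrdef
  have hrpos : 0 < r := lt_min (hr j) (lt_min hp0 (by linarith))
  have hr1 : r ≤ rr j := min_le_left _ _
  have hr2 : r ≤ pp j := (min_le_right _ _).trans (min_le_left _ _)
  have hr3 : r ≤ 1 - pp j := (min_le_right _ _).trans (min_le_right _ _)
  obtain ⟨f, hf1, hf0⟩ := bump (pp j) r hrpos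
  refine ⟨fun m => FourierTransform.fourier (f : ℝ → ℂ) m, ?_, ?_, ?_⟩
  · obtain ⟨C, hC⟩ : ∃ C : ℝ, ∀ x : ℝ, (1 + ‖x‖) ^ 3 * ‖FourierTransform.fourier (f : ℝ → ℂ) x‖ ≤ C := by
      refine ⟨2 ^ 3 * (Finset.Iic ((3, 0) : ℕ × ℕ)).sup (fun m => SchwartzMap.seminorm ℂ m.1 m.2)
        (FourierTransform.fourier f), ?_⟩
      intro x
      have := SchwartzMap.one_add_le_sup_seminorm_apply (𝕜 := ℂ) (m := (3, 0)) (k := 3) (n := 0) le_rfl le_rfl
        (FourierTransform.fourier f) x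
      rw [norm_iteratedFDeriv_zero] at this
      exact this
    have h1 : Summable (fun m : ℤ => C * (1 / wt m ^ 2)) := summable_wt.mul_left C
    refine Summable.of_nonneg_of_le (fun m => by have := wt_pos m; positivity) ?_ h1
    intro m
    have h2 := hC m
    have h3 : (1 + ‖(m : ℝ)‖) = wt m := by
      unfold wt
      rw [Real.norm_eq_abs]
    rw [h3] at h2
    have h4 := wt_pos m
    rw [mul_one_div, le_div_iff₀ (by positivity)]
    linarith
  · intro q hq
    obtain ⟨hq0, hq1, hq2⟩ := hq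
    have hq0' : (0 : ℝ) < q := by exact_mod_cast hq0
    have hq1' : (q : ℝ) < 1 := by exact_mod_cast hq1
    have h1 := SchwartzMap.tsum_eq_tsum_fourier f ((q : ℚ) : ℝ)
    simp only [fourier_ex] at h1
    refine h1.symm.trans ?_
    have h2 : ∀ n : ℤ, f ((q : ℝ) + n) = 0 := by
      intro n
      apply hf0
      rcases lt_trichotomy n 0 with hn | hn | hn
      · have : (n : ℝ) ≤ -1 := by
          have : n ≤ -1 := by omega
          exact_mod_cast this
        rw [abs_sub_comm]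
        refine le_trans ?_ (le_abs_self _)
        linarith
      · subst hn
        have := hq2 j
        push_cast
        rw [add_zero]
        linarith
      · have : (1 : ℝ) ≤ n := by
          have : 1 ≤ n := by omega
          exact_mod_cast this
        refine le_trans ?_ (le_abs_self _)
        linarith
    simp only [h2, tsum_zero]
  · have h1 := SchwartzMap.tsum_eq_tsum_fourier f (pp j)
    simp only [fourier_ex] at h1
    refine h1.symm.trans ?_
    rw [tsum_eq_single 0]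
    · push_cast
      rw [add_zero, hf1]
    · intro n hn
      apply hf0
      have h2 : (1 : ℝ) ≤ |(n : ℝ)| := by
        have : 1 ≤ |n| := Int.one_le_abs hn
        exact_mod_cast this
      rw [add_sub_cancel_left]
      linarith

def shearEquiv : ℤ × ℤ ≃ ℤ × ℤ where
  toFun := fun z => (z.2, z.2 + z.1)
  invFun := fun z => (z.2 - z.1, z.1)
  left_inv := fun z => by
    rcases z with ⟨a, b⟩
    simp only [Prod.mk.injEq, and_true]
    omega
  right_inv := fun z => by
    rcases z with ⟨a, b⟩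
    simp only [Prod.mk.injEq, true_and]
    omega

theorem conv_zero (g x : ℤ → ℂ) (hg : Summable (fun m => ‖g m‖)) (hx : Summable (fun m => ‖x m‖))
    (θ : ℝ) (hone : ∑' m : ℤ, g m * ex (m * θ) = 1) (hz : ∀ k : ℤ, ∑' m : ℤ, g m * x (m + k) = 0) :
    ∑' l : ℤ, x l * ex (-(l * θ)) = 0 := by
  have ha : Summable (fun m : ℤ => ‖g m * ex (m * θ)‖) := by
    refine hg.congr ?_
    intro m
    rw [norm_mul, ex_norm, mul_one]
  have hb : Summable (fun l : ℤ => ‖x l * ex (-(l * θ))‖) := by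
    refine hx.congr ?_
    intro m
    rw [norm_mul, ex_norm, mul_one]
  obtain ⟨F, hF⟩ : ∃ F : ℤ × ℤ → ℂ, ∀ z, F z = g z.1 * ex (z.1 * θ) * (x z.2 * ex (-(z.2 * θ))) :=
    ⟨_, fun _ => rfl⟩
  have h1 : (∑' m : ℤ, g m * ex (m * θ)) * (∑' l : ℤ, x l * ex (-(l * θ))) = ∑' z, F z := by
    rw [tsum_mul_tsum_of_summable_norm ha hb]
    exact tsum_congr (fun z => (hF z).symm)
  rw [hone, one_mul] at h1
  rw [h1]
  have hs : Summable F := by
    refine (summable_mul_of_summable_norm ha hb).congr ?_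
    intro z
    exact (hF z).symm
  have hs' : Summable (fun z => F (shearEquiv z)) := shearEquiv.summable_iff.mpr hs
  rw [← shearEquiv.tsum_eq F, hs'.tsum_prod]
  have h2 : ∀ k : ℤ, ∑' m : ℤ, F (shearEquiv (k, m)) = 0 := by
    intro k
    have h3 : ∀ m : ℤ, F (shearEquiv (k, m)) = ex (-(k * θ)) * (g m * x (m + k)) := by
      intro m
      rw [hF]
      show g m * ex (m * θ) * (x (m + k) * ex (-(((m + k : ℤ) : ℝ) * θ))) = _
      have h4 : ex (-(k * θ)) = ex (m * θ) * ex (-(((m + k : ℤ) : ℝ) * θ)) := by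
        rw [← ex_add]
        congr 1
        push_cast
        ring
      rw [h4]
      ring
    rw [tsum_congr h3, tsum_mul_left, hz k, mul_zero]
  rw [tsum_congr h2, tsum_zero]

theorem integral_ex (n : ℤ) : ∫ θ in (0 : ℝ)..1, ex (n * θ) = if n = 0 then 1 else 0 := by
  by_cases hn : n = 0
  · subst hn
    simp [ex_zero]
  · rw [if_neg hn]
    have h1 : ∀ θ : ℝ, ex (n * θ) = Complex.exp ((2 * Real.pi * n * Complex.I) * θ) := by
      intro θ
      unfold ex
      congr 1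
      push_cast
      ring
    simp only [h1]
    have hc : (2 * Real.pi * n * Complex.I : ℂ) ≠ 0 := by
      have h5 : (n : ℂ) ≠ 0 := by exact_mod_cast hn
      have h6 : (Real.pi : ℂ) ≠ 0 := by exact_mod_cast Real.pi_ne_zero
      exact mul_ne_zero (mul_ne_zero (mul_ne_zero two_ne_zero h6) h5) Complex.I_ne_zero
    rw [integral_exp_mul_complex hc]
    have h2 : Complex.exp ((2 * Real.pi * n * Complex.I) * ((1 : ℝ) : ℂ)) = 1 := by
      rw [Complex.exp_eq_one_iff]
      exact ⟨n, by push_cast; ring⟩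
    rw [h2]
    simp

theorem ex_continuous : Continuous ex := by
  unfold ex
  fun_prop

theorem key_zero (x : ℤ → ℂ) (hx : Summable (fun m => ‖x m‖))
    (hz : ∀ θ : ℝ, 0 < θ → θ < 1 → ∑' l : ℤ, x l * ex (-(l * θ)) = 0) (k : ℤ) : x k = 0 := by
  let f : ℤ → C(ℝ, ℂ) := fun l => ⟨fun θ => x l * ex ((k - l : ℤ) * θ), by
    have := ex_continuous
    fun_prop⟩
  have hf : Summable fun i : ℤ => ‖(f i).restrict (⟨Set.uIcc (0 : ℝ) 1, isCompact_uIcc⟩ : TopologicalSpace.Compacts ℝ)‖ := by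
    refine Summable.of_nonneg_of_le (fun _ => norm_nonneg _) ?_ hx
    intro l
    rw [ContinuousMap.norm_le _ (norm_nonneg _)]
    intro θ
    show ‖x l * ex ((k - l : ℤ) * θ)‖ ≤ _
    rw [norm_mul, ex_norm, mul_one]
  have h1 := intervalIntegral.hasSum_intervalIntegral_of_summable_norm hf
  have h2 : ∀ l : ℤ, ∫ θ in (0 : ℝ)..1, f l θ = if l = k then x k else 0 := by
    intro l
    show ∫ θ in (0 : ℝ)..1, x l * ex ((k - l : ℤ) * θ) = _
    rw [intervalIntegral.integral_const_mul, integral_ex]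
    by_cases h : l = k
    · subst h
      simp
    · rw [if_neg h, if_neg (by omega), mul_zero]
  simp only [h2] at h1
  have h3 : ∫ θ in (0 : ℝ)..1, ∑' l : ℤ, f l θ = 0 := by
    have h4 : ∫ θ in (0 : ℝ)..1, ∑' l : ℤ, f l θ = ∫ θ in (0 : ℝ)..1, (0 : ℂ) := by
      apply intervalIntegral.integral_congr_ae
      have h5 : ∀ᵐ θ : ℝ, θ ≠ 1 := by
        simp [MeasureTheory.ae_iff]
      filter_upwards [h5] with θ hθ1 hθ
      rw [Set.uIoc_of_le zero_le_one] at hθ
      have h6 := hz θ hθ.1 (lt_of_le_of_ne hθ.2 hθ1)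
      have h7 : ∀ l : ℤ, f l θ = ex (k * θ) * (x l * ex (-(l * θ))) := by
        intro l
        show x l * ex ((k - l : ℤ) * θ) = _
        have : ex ((k - l : ℤ) * θ) = ex (k * θ) * ex (-(l * θ)) := by
          rw [← ex_add]
          congr 1
          push_cast
          ring
        rw [this]
        ring
      simp only [h7]
      rw [tsum_mul_left, h6, mul_zero]
    rw [h4]
    simp
  rw [h3] at h1
  have h8 := hasSum_ite_eq k (x k)
  exact h8.unique h1

theorem X0_zero (x : E) (hx : Summable (fun m => ‖co x m‖))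
    (hz : ∀ (g : ℤ → ℂ), Summable (fun m => ‖g m‖ * wt m) →
      (∀ q ∈ R, ∑' m : ℤ, g m * ex (m * ((q : ℚ) : ℝ)) = 0) → ∀ k : ℤ, ∑' m : ℤ, g m * co x (m + k) = 0) :
    x = 0 := by
  have hF : Continuous (fun θ : ℝ => ∑' l : ℤ, co x l * ex (-(l * θ))) := by
    apply continuous_tsum (u := fun l => ‖co x l‖)
    · intro l
      have := ex_continuous
      fun_prop
    · exact hx
    · intro l θ
      rw [norm_mul, ex_norm, mul_one]
  have h0 : ∀ j, ∑' l : ℤ, co x l * ex (-(l * pp j)) = 0 := by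
    intro j
    obtain ⟨g, hg, hg0, hg1⟩ := gap_fn j
    apply conv_zero g (co x) _ hx (pp j) hg1 (hz g hg hg0)
    refine Summable.of_nonneg_of_le (fun _ => norm_nonneg _) ?_ hg
    intro m
    exact le_mul_of_one_le_right (norm_nonneg _) (wt_one_le m)
  have h1 : ∀ θ : ℝ, 0 < θ → θ < 1 → ∑' l : ℤ, co x l * ex (-(l * θ)) = 0 := by
    intro θ hθ0 hθ1
    by_contra hne
    have hopen : IsOpen {θ : ℝ | ∑' l : ℤ, co x l * ex (-(l * θ)) ≠ 0} := isOpen_ne.preimage hF
    obtain ⟨δ, hδ, hball⟩ := Metric.isOpen_iff.mp hopen θ hne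
    obtain ⟨j, hj1, hj2⟩ := gaps_spec.2.2.1 θ (min (θ + δ) 1) hθ0.le (lt_min (by linarith) hθ1) (min_le_right _ _)
    have h2 : pp j ∈ Metric.ball θ δ := by
      rw [Metric.mem_ball, Real.dist_eq, abs_lt]
      have := min_le_left (θ + δ) 1
      constructor <;> linarith
    exact hball h2 (h0 j)
  have h3 := key_zero (co x) hx h1
  ext m
  have h4 := h3 m
  unfold co at h4
  rw [BoundedContinuousFunction.coe_zero, Pi.zero_apply]
  exact (mul_eq_zero.mp h4).resolve_left (wt_ne m)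

theorem T_pow_S_iter (X₀ : Set X) (S : X → X) (hS : ∀ x ∈ X₀, S x ∈ X₀) (hTS : ∀ x ∈ X₀, T (S x) = x) (n : ℕ) :
    ∀ x ∈ X₀, (T ^ n) (S^[n] x) = x := by
  induction n with
  | zero => intro x _; simp
  | succ n ih =>
    intro x hx
    have h1 : ∀ k, S^[k] x ∈ X₀ := by
      intro k
      induction k with
      | zero => exact hx
      | succ k ihk => rw [Function.iterate_succ_apply']; exact hS _ ihk
    rw [Function.iterate_succ_apply', pow_succ]
    show (T ^ n) (T (S (S^[n] x))) = x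
    rw [hTS _ (h1 n), ih x hx]

theorem not_criterion : ¬ ∃ X₀ : Set X, Dense X₀ ∧ ∃ S : X → X, (∀ x ∈ X₀, S x ∈ X₀) ∧
        ∀ x ∈ X₀, Summable (fun n : ℕ => (T ^ n) x) ∧
          Summable (fun n : ℕ => S^[n] x) ∧ T (S x) = x := by
  rintro ⟨X₀, hd, S, hS, h⟩
  have hzero : ∀ x ∈ X₀, x = 0 := by
    intro x hx
    obtain ⟨h1, h2, -⟩ := h x hx
    have hTS := T_pow_S_iter X₀ S hS (fun y hy => (h y hy).2.2)
    have hTx : ∀ (n : ℕ) (m : ℤ), co (((T ^ n) x : X) : E) m = co (x : E) (m + n) := by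
      intro n m
      rw [T_pow_coe, co_TE_pow]
    have hSx : ∀ (n : ℕ) (m : ℤ), co ((S^[n] x : X) : E) m = co (x : E) (m - n) := by
      intro n m
      have h3 : (TE ^ n) ((S^[n] x : X) : E) = (x : E) := by
        rw [← T_pow_coe, hTS n x hx]
      rw [← h3, co_TE_pow]
      congr 1
      ring
    let ev0 : X →L[ℂ] ℂ := (BoundedContinuousFunction.evalCLM ℂ (0 : ℤ)).comp XS.subtypeL
    have hev0 : ∀ y : X, ev0 y = co (y : E) 0 := by
      intro y
      show (y : E) 0 = _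
      unfold co wt
      simp
    have hs1 : Summable (fun n : ℕ => ‖co (x : E) n‖) := by
      have h4 := (h1.map ev0 ev0.continuous).norm
      refine h4.congr ?_
      intro n
      show ‖ev0 ((T ^ n) x)‖ = _
      rw [hev0, hTx, zero_add]
    have hs2 : Summable (fun n : ℕ => ‖co (x : E) (-(n : ℤ))‖) := by
      have h4 := (h2.map ev0 ev0.continuous).norm
      refine h4.congr ?_
      intro n
      show ‖ev0 (S^[n] x)‖ = _
      rw [hev0, hSx, zero_sub]
    have hs : Summable (fun m : ℤ => ‖co (x : E) m‖) := Summable.of_nat_of_neg hs1 hs2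
    apply Subtype.ext
    apply X0_zero (x : E) hs
    intro g hg hg0 k
    rcases Int.eq_nat_or_neg k with ⟨n, rfl | rfl⟩
    · have h5 := phi_vanish g hg hg0 (((T ^ n) x : X) : E) (Subtype.coe_prop _)
      simp only [hTx] at h5
      exact h5
    · have h5 := phi_vanish g hg hg0 ((S^[n] x : X) : E) (Subtype.coe_prop _)
      simp only [hSx] at h5
      exact h5
  have h6 : X₀ ⊆ {0} := fun x hx => hzero x hx
  have h7 : Dense ({0} : Set X) := hd.mono h6
  have h8 : eX (1 / 2) ∈ closure ({0} : Set X) := h7 _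
  rw [closure_singleton, Set.mem_singleton_iff] at h8
  have h9 := eX_coe half_mem_R
  rw [h8] at h9
  exact ev_ne _ h9.symm


end part7

theorem sys : Sys T eX P where
  norm_le := eX_norm_le
  of_not := eX_of_not
  sub_le := eX_sub_norm_le
  T_e := fun q n => T_eX (q := q) n
  P_eq := rfl
  dense := P_dense

end Pool.Agent.S03264

open Pool Pool.MP_63a02b_an

namespace Pool.Agent.S03264

/-- The negation of the preceding statement: Every operator on a real or complex separable F-space that is chaotic, topologically mixing and frequently hypercyclic admits a dense set X0 and a self-map S of X0 with the series of T^n x and S^n x unconditionally convergent and TSx = x on X0. -/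
theorem result :
    ¬ (∀ (𝕂 : Type) [RCLike 𝕂] (X : Type) [AddCommGroup X] [Module 𝕂 X] [UniformSpace X]
      [IsUniformAddGroup X] [CompleteSpace X] [TopologicalSpace.MetrizableSpace X]
      [TopologicalSpace.SeparableSpace X] [ContinuousSMul 𝕂 X] (T : X →L[𝕂] X),
      ((∃ x : X, Dense (Set.range (fun n : ℕ => (T ^ n) x))) ∧
        Dense {x : X | ∃ n : ℕ, 0 < n ∧ (T ^ n) x = x}) →
      (∀ U V : Set X, IsOpen U → IsOpen V → U.Nonempty → V.Nonempty →
        ∃ N : ℕ, ∀ n : ℕ, N ≤ n → ((⇑(T ^ n)) ⁻¹' V ∩ U).Nonempty) →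
      (∃ x : X, ∀ U : Set X, IsOpen U → U.Nonempty →
        ∃ δ : ℝ, 0 < δ ∧ ∃ N₀ : ℕ, ∀ N : ℕ, N₀ ≤ N →
          δ * (N : ℝ) ≤ (Nat.card {n : ℕ // n < N ∧ (T ^ n) x ∈ U} : ℝ)) →
      ∃ X₀ : Set X, Dense X₀ ∧ ∃ S : X → X, (∀ x ∈ X₀, S x ∈ X₀) ∧
        ∀ x ∈ X₀, Summable (fun n : ℕ => (T ^ n) x) ∧
          Summable (fun n : ℕ => S^[n] x) ∧ T (S x) = x) := by
  intro h
  exact not_criterion (h ℂ X T (T_chaotic sys) (T_mixing sys) (T_FHC sys))

end Pool.Agent.S03264
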