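import Pool.Statements.S03266
import Pool.Agent.Helper172.WvN.Inst

set_option autoImplicit false
open Pool Pool.MP_63bee7_an

namespace Pool.Agent.S03266

section concrete
open Complex Filter Topology
open scoped InnerProductSpace NNReal ENNReal
open Pool.Agent.Helper172.WvN

/-- `ℓ²(ℕ)` -/
abbrev K0 : Type := lp (fun _ : ℕ => ℂ) 2
/-- `ℓ²(ℕ, ℓ²(ℕ))` -/
abbrev H0 : Type := lp (fun _ : ℕ => K0) 2

theorem norm_rsh {E : Type*} [NormedAddCommGroup E] [InnerProductSpace ℂ E] [CompleteSpace E] :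
    ‖rsh E‖ ≤ 1 := LinearMap.mkContinuous_norm_le _ zero_le_one _

theorem norm_lsh {E : Type*} [NormedAddCommGroup E] [InnerProductSpace ℂ E] [CompleteSpace E] :
    ‖lsh E‖ ≤ 1 := LinearMap.mkContinuous_norm_le _ zero_le_one _

theorem norm_g (n : ℕ) : ‖(((-1) ^ (n + 1) : ℂ) • (1 : K0 →L[ℂ] K0))‖ ≤ 1 := by
  rw [norm_smul]
  simp
  exact ContinuousLinearMap.norm_id_le

noncomputable def R0 : H0 →L[ℂ] H0 := rsh K0
noncomputable def S0 : H0 →L[ℂ] H0 := dia (fun _ => rsh ℂ) (fun _ => norm_rsh)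
noncomputable def S0' : H0 →L[ℂ] H0 := dia (fun _ => lsh ℂ) (fun _ => norm_lsh)
noncomputable def G0 : H0 →L[ℂ] H0 :=
  dia (fun n => ((-1) ^ (n + 1) : ℂ) • (1 : K0 →L[ℂ] K0)) norm_g
noncomputable def w0 : H0 := lp.single 2 0 (lp.single 2 0 1 : K0)

theorem star_R0 : star R0 = lsh K0 := star_rsh
theorem star_S0 : star S0 = S0' := star_dia _ _ _ _ (fun _ => star_rsh.symm)
theorem star_G0 : star G0 = G0 := by
  apply star_dia
  intro n
  rw [star_smul, star_one]
  simp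

theorem R0z (x : H0) : (R0 x) 0 = 0 := rfl
theorem R0s (x : H0) (n : ℕ) : (R0 x) (n + 1) = x n := rfl
theorem L0a (x : H0) (n : ℕ) : (lsh K0 x) n = x (n + 1) := rfl
theorem S0a (x : H0) (n : ℕ) : (S0 x) n = rsh ℂ (x n) := rfl
theorem S0'a (x : H0) (n : ℕ) : (S0' x) n = lsh ℂ (x n) := rfl
theorem G0a (x : H0) (n : ℕ) : (G0 x) n = ((-1) ^ (n + 1) : ℂ) • x n := rfl
theorem lr (x : K0) : lsh ℂ (rsh ℂ x) = x := by
  apply lp.ext; ext n; rfl

theorem rel0 : Rel R0 (star R0) S0 (star S0) G0 := by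
  rw [star_R0, star_S0]
  constructor
  · apply ContinuousLinearMap.ext; intro x; apply lp.ext; funext n; rfl
  · apply ContinuousLinearMap.ext; intro x; apply lp.ext; funext n
    show (S0' (S0 x)) n = x n
    rw [S0'a, S0a, lr]
  · apply ContinuousLinearMap.ext; intro x; apply lp.ext; funext n
    show (S0 (R0 x)) n = (R0 (S0 x)) n
    rcases n with _ | n
    · rw [S0a, R0z, R0z, map_zero]
    · rw [S0a, R0s, R0s, S0a]
  · apply ContinuousLinearMap.ext; intro x; apply lp.ext; funext n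
    show (S0' (R0 x)) n = (R0 (S0' x)) n
    rcases n with _ | n
    · rw [S0'a, R0z, R0z, map_zero]
    · rw [S0'a, R0s, R0s, S0'a]
  · apply ContinuousLinearMap.ext; intro x; apply lp.ext; funext n; rfl
  · apply ContinuousLinearMap.ext; intro x; apply lp.ext; funext n; rfl
  · apply ContinuousLinearMap.ext; intro x; apply lp.ext; funext n
    show (G0 (G0 x)) n = x n
    rw [G0a, G0a, smul_smul, ← mul_pow]
    simp
  · apply ContinuousLinearMap.ext; intro x; apply lp.ext; funext n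
    show (R0 (G0 x)) n = -((G0 (R0 x)) n)
    rcases n with _ | n
    · rw [G0a, R0z, R0z, smul_zero, neg_zero]
    · rw [G0a, R0s, R0s, G0a, pow_succ _ (n + 1)]
      simp
  · apply ContinuousLinearMap.ext; intro x; apply lp.ext; funext n
    show (lsh K0 (G0 x)) n = -((G0 (lsh K0 x)) n)
    rw [L0a, G0a, G0a, L0a, pow_succ _ (n + 1)]
    simp
  · apply ContinuousLinearMap.ext; intro x; apply lp.ext; funext n
    show (S0 (G0 x)) n = (G0 (S0 x)) n
    rw [S0a, G0a, G0a, S0a, map_smul]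
  · apply ContinuousLinearMap.ext; intro x; apply lp.ext; funext n
    show (S0' (G0 x)) n = (G0 (S0' x)) n
    rw [S0'a, G0a, G0a, S0'a, map_smul]
  · apply ContinuousLinearMap.ext; intro x; apply lp.ext; funext n
    show (G0 (R0 (lsh K0 x))) n = (G0 x) n + x n - (R0 (lsh K0 x)) n
    rcases n with _ | n
    · rw [G0a, G0a, R0z]
      simp
    · rw [G0a, G0a, R0s, L0a]
      simp

theorem sys0 : Sys R0 S0 G0 w0 := by
  refine ⟨rel0, star_G0, ?_, ?_⟩
  · rw [w0, lp.norm_single (by norm_num), lp.norm_single (by norm_num)]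
    simp
  · intro u
    rw [star_R0, star_S0]
    have h1 : ⟪w0, u⟫_ℂ = u 0 0 := by
      rw [w0, lp.inner_single_left, lp.inner_single_left]
      simp
    rw [h1]
    apply lp.ext
    funext n
    show ((cP S0 S0' u) n) - (R0 (lsh K0 (cP S0 S0' u))) n = (u 0 0) • (w0 n)
    rcases n with _ | n
    · rw [R0z, sub_zero]
      apply lp.ext
      funext k
      show (u 0) k - ((S0 (S0' u)) 0) k = (u 0 0) * ((w0 0) k)
      rw [S0a, S0'a]
      rcases k with _ | k
      · show (u 0) 0 - 0 = _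
        rw [sub_zero, w0, lp.single_apply_self, lp.single_apply_self, mul_one]
      · show (u 0) (k + 1) - (u 0) (k + 1) = _
        rw [sub_self, w0, lp.single_apply_self, lp.single_apply_ne _ _ _ (by omega), mul_zero]
    · rw [R0s, L0a, sub_self, w0, lp.single_apply_ne _ _ _ (by omega), smul_zero]

theorem R0pow (N : ℕ) (y : H0) (i : ℕ) : ((star R0 ^ N) y) i = y (i + N) := by
  induction N generalizing y i with
  | zero => simp
  | succ N ih =>
    rw [pow_succ, ContinuousLinearMap.mul_apply, ih, star_R0, L0a]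
    rfl

theorem tail_eq (N : ℕ) (y : H0) : ‖(star R0 ^ N) y‖ ^ 2 = ∑' i : ℕ, ‖y (i + N)‖ ^ 2 := by
  rw [norm2]
  congr 1
  ext i
  rw [R0pow]

theorem tail_iff (T : H0 →L[ℂ] H0) :
    (∀ ε : ℝ, 0 < ε → ∃ N : ℕ, ∀ x : H0, ‖x‖ ≤ 1 → (∑' i : ℕ, ‖(T x) (i + N)‖ ^ 2) ≤ ε) ↔
      Tendsto (fun n : ℕ => star R0 ^ n * T) atTop (𝓝 0) := by
  constructor
  · intro h
    rw [Metric.tendsto_atTop]
    intro ε hε
    obtain ⟨N, hN⟩ := h ((ε / 2) ^ 2) (by positivity)
    refine ⟨N, fun n hn => ?_⟩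
    rw [dist_zero_right]
    have h1 : ‖star R0 ^ n * T‖ ≤ ε / 2 := by
      apply ContinuousLinearMap.opNorm_le_of_unit_norm (by positivity)
      intro x hx
      obtain ⟨k, rfl⟩ := Nat.exists_eq_add_of_le' hn
      rw [pow_add, mul_assoc, ContinuousLinearMap.mul_apply]
      refine (star_pow_norm_le rel0 k _).trans ?_
      have h2 := hN x hx.le
      rw [← tail_eq] at h2
      rw [ContinuousLinearMap.mul_apply]
      exact (sq_le_sq₀ (norm_nonneg _) (by positivity)).1 h2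
    linarith
  · intro h ε hε
    rw [Metric.tendsto_atTop] at h
    obtain ⟨N, hN⟩ := h (Real.sqrt ε) (Real.sqrt_pos.2 hε)
    refine ⟨N, fun x hx => ?_⟩
    have h1 := hN N le_rfl
    rw [dist_zero_right] at h1
    rw [← tail_eq]
    have h2 : ‖(star R0 ^ N) (T x)‖ ≤ Real.sqrt ε := by
      rw [← ContinuousLinearMap.mul_apply]
      calc ‖(star R0 ^ N * T) x‖ ≤ ‖star R0 ^ N * T‖ * ‖x‖ := ContinuousLinearMap.le_opNorm _ _
        _ ≤ Real.sqrt ε * 1 := by gcongr
        _ = Real.sqrt ε := mul_one _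
    calc ‖(star R0 ^ N) (T x)‖ ^ 2 ≤ Real.sqrt ε ^ 2 := by gcongr
      _ = ε := Real.sq_sqrt hε.le

theorem tail_mono (T : H0 →L[ℂ] H0) {N M : ℕ} (h : N ≤ M) {ε : ℝ} (x : H0)
    (hN : (∑' i : ℕ, ‖(T x) (i + N)‖ ^ 2) ≤ ε) : (∑' i : ℕ, ‖(T x) (i + M)‖ ^ 2) ≤ ε := by
  rw [← tail_eq] at hN ⊢
  obtain ⟨k, rfl⟩ := Nat.exists_eq_add_of_le' h
  refine le_trans ?_ hN
  rw [pow_add, ContinuousLinearMap.mul_apply]
  have := star_pow_norm_le rel0 k ((star R0 ^ N) (T x))
  gcongr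

/-- all bounded operators on `ℓ²` -/
noncomputable def topVN : VonNeumannAlgebra K0 where
  toStarSubalgebra := ⊤
  centralizer_centralizer' := by
    apply Set.Subset.antisymm
    · intro x _; exact Set.mem_univ x
    · exact Set.subset_centralizer_centralizer

theorem mem_topVN (x : K0 →L[ℂ] K0) : x ∈ topVN := Set.mem_univ x

theorem J_eq : {S : H0 →L[ℂ] H0 | (∀ i j : ℕ, ∀ b ∈ topVN.commutant, ∀ x : K0,
                (S (lp.single 2 j (b x) : lp (fun _ : ℕ => K0) 2)) i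
                  = b ((S (lp.single 2 j x : lp (fun _ : ℕ => K0) 2)) i)) ∧
              ∀ ε : ℝ, 0 < ε → ∃ N : ℕ, ∀ x : lp (fun _ : ℕ => K0) 2, ‖x‖ ≤ 1 →
                (∑' i : ℕ, ‖(S x) (i + N)‖ ^ 2) ≤ ε ∧
                (∑' i : ℕ, ‖((star S) x) (i + N)‖ ^ 2) ≤ ε} = JR R0 := by
  ext S
  constructor
  · rintro ⟨_, h⟩
    refine ⟨(tail_iff S).1 ?_, (tail_iff (star S)).1 ?_⟩
    · intro ε hε
      obtain ⟨N, hN⟩ := h ε hε
      exact ⟨N, fun x hx => (hN x hx).1⟩
    · intro ε hε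
      obtain ⟨N, hN⟩ := h ε hε
      exact ⟨N, fun x hx => (hN x hx).2⟩
  · rintro ⟨h1, h2⟩
    refine ⟨?_, ?_⟩
    · intro i j b hb x
      rw [VonNeumannAlgebra.mem_commutant_iff] at hb
      have := hb ((lp.evalCLM ℂ (fun _ : ℕ => K0) 2 i).comp
        (S.comp (lp.singleContinuousLinearMap ℂ (fun _ : ℕ => K0) 2 j))) (mem_topVN _)
      have := congrArg (fun A : K0 →L[ℂ] K0 => A x) this
      exact this
    · intro ε hε
      obtain ⟨N, hN⟩ := (tail_iff S).2 h1 ε hε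
      obtain ⟨N', hN'⟩ := (tail_iff (star S)).2 h2 ε hε
      refine ⟨max N N', fun x hx => ⟨?_, ?_⟩⟩
      · exact tail_mono S (le_max_left _ _) x (hN x hx)
      · exact tail_mono (star S) (le_max_right _ _) x (hN' x hx)

end concrete

/-- The negation of the preceding statement: For every von Neumann algebra A on H, the multiplier algebra of A⊗K (realized on l2(N,H)) has real rank zero: every self-adjoint element is a norm limit of self-adjoint elements of it with finite spectrum. -/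
theorem result :
    ¬ (∀ (H : Type) [NormedAddCommGroup H] [InnerProductSpace ℂ H] [CompleteSpace H]
      (A : VonNeumannAlgebra H)
      (J : Set (lp (fun _ : ℕ => H) 2 →L[ℂ] lp (fun _ : ℕ => H) 2)),
      J = {S | (∀ i j : ℕ, ∀ b ∈ A.commutant, ∀ x : H,
                (S (lp.single 2 j (b x) : lp (fun _ : ℕ => H) 2)) i
                  = b ((S (lp.single 2 j x : lp (fun _ : ℕ => H) 2)) i)) ∧
              ∀ ε : ℝ, 0 < ε → ∃ N : ℕ, ∀ x : lp (fun _ : ℕ => H) 2, ‖x‖ ≤ 1 →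
                (∑' i : ℕ, ‖(S x) (i + N)‖ ^ 2) ≤ ε ∧
                (∑' i : ℕ, ‖((star S) x) (i + N)‖ ^ 2) ≤ ε} →
      ∀ (M : Set (lp (fun _ : ℕ => H) 2 →L[ℂ] lp (fun _ : ℕ => H) 2)),
        M = {T | ∀ S ∈ J, T * S ∈ J ∧ S * T ∈ J} →
        ∀ T ∈ M, IsSelfAdjoint T → ∀ ε : ℝ, 0 < ε →
          ∃ S ∈ M, IsSelfAdjoint S ∧ (spectrum ℂ S).Finite ∧ ‖T - S‖ < ε) := by
  intro hall
  obtain ⟨g, hgM, hgs, hgf, hgn⟩ := hall K0 topVN (Pool.Agent.Helper172.WvN.JR R0) J_eq.symm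
    (Pool.Agent.Helper172.WvN.MR R0) rfl
    (Pool.Agent.Helper172.WvN.ch R0 (star R0) S0 (star S0) G0)
    (Pool.Agent.Helper172.WvN.h_mem sys0)
    (isSelfAdjoint_iff.2 (Pool.Agent.Helper172.WvN.star_h sys0)) (1/200) (by norm_num)
  have := Pool.Agent.Helper172.WvN.main_abstract sys0 hgs.star_eq hgM hgf
  linarith

end Pool.Agent.S03266
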