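import Pool.Statements.S03267
import Pool.Agent.Helper438.CH2

set_option autoImplicit false
open scoped Pointwise
open Pool Pool.MP_63c1ce_an

namespace Pool.Agent.S03267

/-- For any group G acting on X: if some countably additive mass-one measure on all subsets of X is zero on every set having infinitely many disjoint countably-equidecomposable copies in X, then some countably additive mass-one G-invariant measure on all subsets exists. -/
theorem result :
    ∀ (G X : Type) [Group G] [MulAction G X],
      (∃ μ : Set X → ENNReal, μ Set.univ = 1 ∧
        (∀ s : ℕ → Set X, Pairwise (Function.onFun Disjoint s) →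
            μ (⋃ n, s n) = ∑' n, μ (s n)) ∧
        (∀ A : Set X,
          (∃ B : ℕ → Set X, Pairwise (Function.onFun Disjoint B) ∧
            ∀ n, ∃ (P : ℕ → Set X) (g : ℕ → G),
              Pairwise (Function.onFun Disjoint P) ∧ (⋃ i, P i) = A ∧
              Pairwise (Function.onFun Disjoint (fun i => g i • P i)) ∧
              (⋃ i, g i • P i) = B n) →
          μ A = 0)) →
      ∃ ν : Set X → ENNReal, ν Set.univ = 1 ∧
        (∀ s : ℕ → Set X, Pairwise (Function.onFun Disjoint s) →
            ν (⋃ n, s n) = ∑' n, ν (s n)) ∧
        ∀ (g : G) (A : Set X), ν (g • A) = ν A := by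
  rintro G X _ _ ⟨μ, h1, h2, h3⟩
  exact Pool.Agent.Helper438.CH.main μ h1 h2 (fun A hA => h3 A hA)

end Pool.Agent.S03267
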