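import Pool.Statements.S03269
import Pool.Agent.Helper506.BConvE
import Pool.Agent.Helper506.BConvF

set_option autoImplicit false
open Pool Pool.MP_64ccd3_an

namespace Pool.Agent.S03269

open Complex Metric Set Filter Topology MeasureTheory in
theorem aux (a : ℕ → ℂ) (E : Set ℂ)
    (hE : E = {ξ : ℂ | ‖ξ‖ = 1 ∧ ¬ ∃ r : ℝ, 0 < r ∧ ∃ g : ℂ → ℂ,
          DifferentiableOn ℂ g (Metric.ball ξ r) ∧
          ∀ w ∈ Metric.ball ξ r, ‖w‖ < 1 → g w = ∑' n, a n * w ^ n})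
    (hM : ∃ M : ℝ, ∀ ξ ∈ E, ∀ N : ℕ, ‖∑ n ∈ Finset.range (N + 1), a n * ξ ^ n‖ ≤ M)
    (hpos : 0 < MeasureTheory.volume
          {θ : ℝ | θ ∈ Set.Ioc 0 (2 * Real.pi) ∧ Complex.exp ((θ : ℂ) * Complex.I) ∈ E}) :
    Tendsto a atTop (𝓝 0) := by
  obtain ⟨M, hM⟩ := hM
  -- a regular point on the circle
  have hreg : ∀ z : ℂ, ‖z‖ = 1 → z ∉ E → ∃ r : ℝ, 0 < r ∧ ∃ g : ℂ → ℂ,
          DifferentiableOn ℂ g (Metric.ball z r) ∧
          ∀ w ∈ Metric.ball z r, ‖w‖ < 1 → g w = ∑' n, a n * w ^ n := by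
    intro z hz hzE
    by_contra hcon
    exact hzE (by rw [hE]; exact ⟨hz, hcon⟩)
  set S : Set ℝ := {t | exp (I * t) ∈ E} with hS
  have hnorm : ∀ t : ℝ, ‖exp (I * t)‖ = 1 := Pool.Agent.Helper506.BConv.norm_eit
  have hcont : Continuous fun t : ℝ => exp (I * t) := by fun_prop
  have hclosed : IsClosed S := by
    rw [← isOpen_compl_iff, isOpen_iff_mem_nhds]
    intro t ht
    obtain ⟨r, hr, g, hg, hge⟩ := hreg _ (hnorm t) ht
    have hnb : (fun t : ℝ => exp (I * t)) ⁻¹' (ball (exp (I * t)) r) ∈ 𝓝 t :=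
      hcont.continuousAt.preimage_mem_nhds (ball_mem_nhds _ hr)
    filter_upwards [hnb] with s hs
    intro hsE
    have hsE' : exp (I * s) ∈ E := hsE
    rw [hE] at hsE'
    apply hsE'.2
    have hs' : dist (exp (I * s)) (exp (I * t)) < r := hs
    refine ⟨r - dist (exp (I * s)) (exp (I * t)), by linarith, g, ?_, ?_⟩
    · exact hg.mono (ball_subset_ball' (by linarith))
    · intro w hw hw1
      exact hge w (ball_subset_ball' (by linarith) hw) hw1
  obtain ⟨x, hx⟩ : S.Nonempty := by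
    by_contra hcon
    rw [not_nonempty_iff_eq_empty] at hcon
    have : {θ : ℝ | θ ∈ Set.Ioc 0 (2 * Real.pi) ∧ Complex.exp ((θ : ℂ) * Complex.I) ∈ E} = ∅ := by
      ext θ
      simp only [mem_setOf_eq, mem_empty_iff_false, iff_false, not_and]
      intro _ h
      have h2 : θ ∈ S := by
        rw [hS, mem_setOf_eq, mul_comm]; exact h
      rw [hcon] at h2
      exact h2
    rw [this, measure_empty] at hpos
    exact lt_irrefl _ hpos
  have hx' : x + 2 * Real.pi ∈ S := by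
    have h1 : exp (I * ((x + 2 * Real.pi : ℝ) : ℂ)) = exp (I * x) := by
      rw [exp_eq_exp_iff_exists_int]
      refine ⟨1, ?_⟩
      push_cast; ring
    show exp (I * ((x + 2 * Real.pi : ℝ) : ℂ)) ∈ E
    rw [h1]
    exact hx
  have hM' : ∀ t ∈ S, ∀ m, ‖∑ j ∈ Finset.range m, a j * exp (I * t) ^ j‖ ≤ M := by
    intro t ht m
    rcases m with _ | m
    · have h1 := hM _ ht 0
      simp only [Finset.range_zero, Finset.sum_empty, norm_zero]
      exact (norm_nonneg _).trans h1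
    · exact hM _ ht m
  refine Pool.Agent.Helper506.BConv.coeff_tendsto_zero hclosed hx hx' hM' ?_
  intro t ht
  obtain ⟨r, hr, g, hg, hge⟩ := hreg _ (hnorm t) ht
  have hsub : closedBall (exp (I * t)) (r / 2) ⊆ ball (exp (I * t)) r :=
    closedBall_subset_ball (by linarith)
  obtain ⟨K, hK⟩ := (isCompact_closedBall (exp (I * t)) (r / 2)).exists_bound_of_continuousOn
    (hg.continuousOn.mono hsub)
  refine ⟨r / 2, by linarith, K, fun w hw1 hw => ?_⟩
  have hwm : w ∈ closedBall (exp (I * t)) (r / 2) := by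
    rw [mem_closedBall, dist_eq_norm]; exact hw.le
  rw [← hge w (hsub hwm) hw1]
  exact hK w hwm

theorem result :
  ∀ (a : ℕ → ℂ) (E : Set ℂ),
    (FormalMultilinearSeries.ofScalars ℂ a).radius = 1 →
    E = {ξ : ℂ | ‖ξ‖ = 1 ∧ ¬ ∃ r : ℝ, 0 < r ∧ ∃ g : ℂ → ℂ,
          DifferentiableOn ℂ g (Metric.ball ξ r) ∧
          ∀ w ∈ Metric.ball ξ r, ‖w‖ < 1 → g w = ∑' n, a n * w ^ n} →
    (∃ M : ℝ, ∀ ξ ∈ E, ∀ N : ℕ, ‖∑ n ∈ Finset.range (N + 1), a n * ξ ^ n‖ ≤ M) →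
    0 < MeasureTheory.volume
          {θ : ℝ | θ ∈ Set.Ioc 0 (2 * Real.pi) ∧ Complex.exp ((θ : ℂ) * Complex.I) ∈ E} →
    ∀ z : ℂ, ‖z‖ = 1 → z ∉ E →
      ∃ L : ℂ, Filter.Tendsto (fun N : ℕ => ∑ n ∈ Finset.range N, a n * z ^ n)
            Filter.atTop (nhds L) ∧
        ∃ r : ℝ, 0 < r ∧ ∃ g : ℂ → ℂ, DifferentiableOn ℂ g (Metric.ball z r) ∧
          (∀ w ∈ Metric.ball z r, ‖w‖ < 1 → g w = ∑' n, a n * w ^ n) ∧ g z = L := by
  intro a E _ hE hM hpos z hz hzE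
  have ha := aux a E hE hM hpos
  have hreg : ∃ r : ℝ, 0 < r ∧ ∃ g : ℂ → ℂ,
          DifferentiableOn ℂ g (Metric.ball z r) ∧
          ∀ w ∈ Metric.ball z r, ‖w‖ < 1 → g w = ∑' n, a n * w ^ n := by
    by_contra hcon
    exact hzE (by rw [hE]; exact ⟨hz, hcon⟩)
  obtain ⟨r, hr, g, hg, hge⟩ := hreg
  refine ⟨g z, ?_, r, hr, g, hg, hge, rfl⟩
  have hmul : ∀ w ∈ Metric.ball (1 : ℂ) r, z * w ∈ Metric.ball z r := by
    intro w hw
    rw [Metric.mem_ball, dist_eq_norm] at hw ⊢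
    have : z * w - z = z * (w - 1) := by ring
    rw [this, norm_mul, hz, one_mul]
    exact hw
  have hb : Filter.Tendsto (fun n => a n * z ^ n) Filter.atTop (nhds 0) := by
    rw [tendsto_zero_iff_norm_tendsto_zero] at ha ⊢
    refine ha.congr fun n => ?_
    rw [norm_mul, norm_pow, hz, one_pow, mul_one]
  have key := Pool.Agent.Helper506.BConv.riesz (b := fun n => a n * z ^ n) hb hr
    (G := fun w => g (z * w)) ?_ ?_
  · simpa using key
  · intro w hw
    have h1 := (hg (z * w) (hmul w hw)).differentiableAt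
      (Metric.isOpen_ball.mem_nhds (hmul w hw))
    have h2 : DifferentiableAt ℂ (fun w : ℂ => g (z * w)) w :=
      DifferentiableAt.comp w h1 (by fun_prop)
    exact h2.differentiableWithinAt
  · intro w hw hw1
    have h1 : ‖z * w‖ < 1 := by rw [norm_mul, hz, one_mul]; exact hw1
    show g (z * w) = _
    rw [hge (z * w) (hmul w hw) h1]
    refine tsum_congr fun n => ?_
    rw [mul_pow]; ring

end Pool.Agent.S03269
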