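import Pool.Statements.S03274
import Pool.Agent.Helper570.Troy.Avg
import Pool.Agent.Helper570.Troy.Dual
import Pool.Agent.Helper570.Troy.Wld

set_option autoImplicit false
open Pool Pool.MP_65146e_an

namespace Pool.Agent.S03274

/-- The negation of the preceding statement: Every real Banach space whose weak* dual ball is Corson compact (WLD) and that has an equivalent norm Gâteaux differentiable off 0 also has an equivalent norm whose dual norm is strictly convex. -/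
theorem result :
    ¬ (∀ (X : Type) [NormedAddCommGroup X] [NormedSpace ℝ X] [CompleteSpace X],
    (∃ (Γ : Type) (φ : WeakDual ℝ X → (Γ → ℝ)),
        ContinuousOn φ {f : WeakDual ℝ X | ∀ x : X, |f x| ≤ ‖x‖} ∧
        Set.InjOn φ {f : WeakDual ℝ X | ∀ x : X, |f x| ≤ ‖x‖} ∧
        ∀ f ∈ {f : WeakDual ℝ X | ∀ x : X, |f x| ≤ ‖x‖},
          (Function.support (φ f)).Countable) →
    (∃ N : X → ℝ,
        (∃ c C : ℝ, 0 < c ∧ 0 < C ∧ ∀ x : X, c * ‖x‖ ≤ N x ∧ N x ≤ C * ‖x‖) ∧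
        (∀ x y : X, N (x + y) ≤ N x + N y) ∧
        (∀ (a : ℝ) (x : X), N (a • x) = |a| * N x) ∧
        ∀ x : X, x ≠ 0 → ∃ L : X →L[ℝ] ℝ, ∀ v : X, HasLineDerivAt ℝ N (L v) x v) →
    ∃ M : X → ℝ,
        (∃ c C : ℝ, 0 < c ∧ 0 < C ∧ ∀ x : X, c * ‖x‖ ≤ M x ∧ M x ≤ C * ‖x‖) ∧
        (∀ x y : X, M (x + y) ≤ M x + M y) ∧
        (∀ (a : ℝ) (x : X), M (a • x) = |a| * M x) ∧
        ∀ f g : X →L[ℝ] ℝ, f ≠ g → (∀ x : X, f x ≤ M x) → (∀ x : X, g x ≤ M x) →
          ∃ r : ℝ, r < 1 ∧ ∀ x : X, (1 / 2 : ℝ) * (f x + g x) ≤ r * M x) := by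
  intro hmain
  open Pool.Agent.Helper570.Troy in
  · have : CompleteSpace X := X.complete
    obtain ⟨N, ⟨c, C, hc, hC, hN1⟩, hadd, hsmul, hsc⟩ := hmain X
      ⟨Idx, fun f γ => f (bas γ), by
        apply Continuous.continuousOn
        exact continuous_pi fun γ => WeakDual.eval_continuous (bas γ), by
        intro f _ g _ hfg
        have h1 : WeakDual.toStrongDual f = WeakDual.toStrongDual g :=
          ext_bas fun γ => congrFun hfg γ
        exact WeakDual.toStrongDual.injective h1, by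
        intro f _
        exact countable_supp (WeakDual.toStrongDual f)⟩
      ⟨AvT, ⟨1, 4, one_pos, by norm_num, fun x =>
        ⟨by rw [one_mul]; exact norm_le_AvT x, AvT_le x⟩⟩, AvT_add, AvT_smul,
        fun x hx => gateaux_AvT hx⟩
    have hE : EqN N c C := ⟨hc, hC, hadd, hsmul, fun x => (hN1 x).1, fun x => (hN1 x).2⟩
    obtain ⟨φ, ψ, hne, hφ, hψ, hflat⟩ := exists_flat hE
    obtain ⟨r, hr1, hr2⟩ := hsc φ ψ hne hφ hψ
    obtain ⟨x, hx⟩ := hflat r hr1
    exact absurd (hr2 x) (not_le.mpr hx)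

end Pool.Agent.S03274
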