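import Pool.Statements.S03275
import Pool.Agent.BV653.F4

set_option autoImplicit false
open Filter
open Pool Pool.MP_653dc2_an

namespace Pool.Agent.S03275

/-- For every real function f of bounded variation and every ε>0 there is δ>0 such that any BV function g with ∣(f−g)(−∞)∣+Var(f−g)<δ satisfies ∣(Mf−Mg)(−∞)∣+Var(Mf−Mg)<ε, where M is the centered Hardy–Littlewood maximal operator. -/
theorem result :
    ∀ f : ℝ → ℝ, BoundedVariationOn f Set.univ →
      ∀ ε : ℝ, 0 < ε → ∃ δ : ℝ, 0 < δ ∧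
        ∀ g : ℝ → ℝ, BoundedVariationOn g Set.univ →
          ENNReal.ofReal |limUnder atBot (f - g)| + eVariationOn (f - g) Set.univ
              < ENNReal.ofReal δ →
          ENNReal.ofReal |limUnder atBot
              (fun x : ℝ =>
                (⨆ r : Set.Ioi (0 : ℝ), (2 * (r : ℝ))⁻¹ * ∫ t in (x - (r : ℝ))..(x + (r : ℝ)), |f t|) -
                (⨆ r : Set.Ioi (0 : ℝ), (2 * (r : ℝ))⁻¹ * ∫ t in (x - (r : ℝ))..(x + (r : ℝ)), |g t|))|
            + eVariationOn
              (fun x : ℝ =>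
                (⨆ r : Set.Ioi (0 : ℝ), (2 * (r : ℝ))⁻¹ * ∫ t in (x - (r : ℝ))..(x + (r : ℝ)), |f t|) -
                (⨆ r : Set.Ioi (0 : ℝ), (2 * (r : ℝ))⁻¹ * ∫ t in (x - (r : ℝ))..(x + (r : ℝ)), |g t|))
              Set.univ
            < ENNReal.ofReal ε := by
  exact Pool.Agent.BV653.main

end Pool.Agent.S03275
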