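import Pool.Statements.S03285

set_option autoImplicit false
open Pool Pool.MP_67fc43_an


noncomputable section

open scoped BoundedContinuousFunction Topology Cardinal
open Filter Set

namespace Pool.Agent.S03285.CK

abbrev Dl : Type := ℕ → Fin 3
abbrev Wd : Type := List (Fin 3)
abbrev CD : Type := C(ℕ → Fin 3, ℝ)

def cons (i : Fin 3) (y : Dl) : Dl := fun n => Nat.casesOn n i (fun m => y m)
def tl (y : Dl) : Dl := fun n => y (n + 1)
def app : Wd → Dl → Dl
  | [], y => y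
  | i :: w, y => cons i (app w y)
def ystar : Dl := fun n => if n = 0 then 1 else 0

@[simp] theorem cons_zero (i : Fin 3) (y : Dl) : cons i y 0 = i := rfl
@[simp] theorem cons_succ (i : Fin 3) (y : Dl) (n : ℕ) : cons i y (n + 1) = y n := rfl
@[simp] theorem tl_cons (i : Fin 3) (y : Dl) : tl (cons i y) = y := rfl
theorem cons_tl (y : Dl) : cons (y 0) (tl y) = y := by
  funext n; cases n <;> rfl
@[simp] theorem app_nil (y : Dl) : app [] y = y := rfl
@[simp] theorem app_cons (i : Fin 3) (w : Wd) (y : Dl) : app (i :: w) y = cons i (app w y) := rfl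
theorem app_append (u w : Wd) (y : Dl) : app (u ++ w) y = app u (app w y) := by
  induction u with
  | nil => rfl
  | cons i u ih => simp [ih]

theorem continuous_cons (i : Fin 3) : Continuous (cons i) := by
  refine continuous_pi fun n => ?_
  cases n with
  | zero => exact continuous_const
  | succ m => exact continuous_apply m

theorem continuous_tl : Continuous tl := continuous_pi fun n => continuous_apply (n + 1)

/-- indicator of the clopen set of sequences starting with `i` -/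
def ind (i : Fin 3) : CD :=
  ⟨fun y => if y 0 = i then 1 else 0,
    (continuous_of_discreteTopology : Continuous (fun j : Fin 3 => if j = i then (1 : ℝ) else 0)).comp
      (continuous_apply 0)⟩

@[simp] theorem ind_apply (i : Fin 3) (y : Dl) : ind i y = if y 0 = i then 1 else 0 := rfl

/-- `(pullC i h) y = h (i y)` -/
def pullC (i : Fin 3) : CD →L[ℝ] CD :=
  LinearMap.mkContinuous
    { toFun := fun h => h.comp ⟨cons i, continuous_cons i⟩
      map_add' := fun _ _ => rfl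
      map_smul' := fun _ _ => rfl } 1
    (fun h => by
      rw [one_mul]
      exact (ContinuousMap.norm_le _ (norm_nonneg _)).2 fun y => h.norm_coe_le_norm _)

@[simp] theorem pullC_apply (i : Fin 3) (h : CD) (y : Dl) : pullC i h y = h (cons i y) := rfl

/-- `(pushC i h) (i y) = h y`, and zero at sequences not starting with `i` -/
def pushC (i : Fin 3) : CD →L[ℝ] CD :=
  LinearMap.mkContinuous
    { toFun := fun h => ind i * h.comp ⟨tl, continuous_tl⟩
      map_add' := fun a b => by ext y; simp [mul_add]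
      map_smul' := fun c b => by ext y; simp } 1
    (fun h => by
      rw [one_mul]
      refine (ContinuousMap.norm_le _ (norm_nonneg _)).2 fun y => ?_
      simp only [LinearMap.coe_mk, AddHom.coe_mk, ContinuousMap.mul_apply, ind_apply,
        ContinuousMap.comp_apply, ContinuousMap.coe_mk]
      split_ifs
      · rw [one_mul]; exact h.norm_coe_le_norm _
      · simp)

theorem pushC_apply (i : Fin 3) (h : CD) (y : Dl) :
    pushC i h y = if y 0 = i then h (tl y) else 0 := by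
  show (ind i * h.comp ⟨tl, continuous_tl⟩) y = _
  simp

def pushW : Wd → (CD →L[ℝ] CD)
  | [] => ContinuousLinearMap.id ℝ CD
  | i :: u => (pushC i).comp (pushW u)

def pullW : Wd → (CD →L[ℝ] CD)
  | [] => ContinuousLinearMap.id ℝ CD
  | i :: u => (pullW u).comp (pullC i)

theorem pullW_apply (w : Wd) (h : CD) (y : Dl) : pullW w h y = h (app w y) := by
  induction w generalizing h with
  | nil => rfl
  | cons i w ih => simp [pullW, ih]

/-- tables: formal finite combinations of `s_u s_w^*` -/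
abbrev Tb : Type := (List (Fin 3) × List (Fin 3)) →₀ ℝ

def opD (c : Tb) : CD →L[ℝ] CD := c.sum fun p a => a • (pushW p.1).comp (pullW p.2)

/-- expressions -/
inductive Ex : Type
  | cst (q : ℚ) : Ex
  | var : Ex
  | add (a b : Ex) : Ex
  | mul (a b : Ex) : Ex
  | pull (i : Fin 3) (a : Ex) : Ex
  | push (i : Fin 3) (a : Ex) : Ex
  deriving Countable

def Ex.ev : Ex → CD → CD
  | .cst q, _ => ContinuousMap.const _ (q : ℝ)
  | .var, h => h
  | .add a b, h => a.ev h + b.ev h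
  | .mul a b, h => a.ev h * b.ev h
  | .pull i a, h => pullC i (a.ev h)
  | .push i a, h => pushC i (a.ev h)

abbrev Mat : Type := ℕ → ℕ → (C(ℕ → Fin 3, ℝ) →L[ℝ] C(ℕ → Fin 3, ℝ))

/-- row bounded matrices -/
def RowBd (M : Mat) (C : ℝ) : Prop :=
  ∀ (e : ℕ) (y : Dl) (s : Finset ℕ) (f : ℕ → CD), (∀ e', ‖f e'‖ ≤ 1) →
    ∑ e' ∈ s, |(M e e' (f e')) y| ≤ C

/-- `M f` restricted to `a` is approximable by expressions in `f` -/
def Appr (M : Mat) (a : Set ℕ) (f : ℕ → CD) : Prop :=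
  ∀ ε > 0, ∃ P : Ex, ∃ F : Finset ℕ, ∀ e ∈ a, e ∉ F → ∀ u : Wd,
    |∑' e', (M e e' (f e')) (app u ystar) - (P.ev (f e)) (app u ystar)| ≤ ε

/-- the generic family -/
structure Fam (I : Type) where
  a : (ℕ → Bool) → Set ℕ
  a_inf : ∀ x, (a x).Infinite
  a_ad : ∀ x y, x ≠ y → (a x ∩ a y).Finite
  x : I → (ℕ → Bool)
  y : I → (ℕ → Bool)
  x_inj : Function.Injective x
  y_inj : Function.Injective y
  xy : ∀ i j, x i ≠ y j
  g : I → ℕ → C(ℕ → Fin 3, ℝ)
  g_le : ∀ i e, ‖g i e‖ ≤ 1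
  g_supp : ∀ i e, e ∉ a (x i) ∪ a (y i) → g i e = 0
  card : #I = 𝔠
  kill : ∀ (M : Mat) (N : Set I), N.Countable → ∃ i ∉ N, ∃ U : Set (ℕ → Bool), #U < 𝔠 ∧
    (Appr M (a (x i) ∪ a (y i)) (g i) → ∀ x' y', x' ∉ U → y' ∉ U → x' ≠ y' →
      ∀ f : ℕ → C(ℕ → Fin 3, ℝ), (∀ e, ‖f e‖ ≤ 1) → (∀ e ∉ a x' ∪ a y', f e = 0) →
        Appr M (a x' ∪ a y') f)

namespace Fam
variable {I : Type} (Φ : Fam I)

def A (i : I) : Set ℕ := Φ.a (Φ.x i) ∪ Φ.a (Φ.y i)

/-- `k` tends to `c` off the ideal generated by the sets `A i` -/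
def Lim (k : ℕ → CD) (c : CD) : Prop :=
  ∀ ε > 0, ∃ t : Finset I, ∃ F : Finset ℕ, ∀ e, e ∉ F → (∀ i ∈ t, e ∉ Φ.A i) → ‖k e - c‖ ≤ ε

/-- `k` is approximable by expressions in `g i` on `A i` -/
def Ap (k : ℕ → CD) (i : I) : Prop :=
  ∀ ε > 0, ∃ P : Ex, ∃ F : Finset ℕ, ∀ e ∈ Φ.A i, e ∉ F → ‖k e - P.ev (Φ.g i e)‖ ≤ ε

/-- membership in the space -/
def Mem (k : ℕ → CD) : Prop := (∃ c, Φ.Lim k c) ∧ ∀ i, Φ.Ap k i

end Fam

end Pool.Agent.S03285.CK

end

noncomputable section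

open scoped BoundedContinuousFunction Topology Cardinal
open Filter Set

namespace Pool.Agent.S03285.CK

/-- bounded sequences in `C(Δ)`, a sealed copy of `ℕ →ᵇ C(Δ)` -/
def BB : Type := ℕ →ᵇ C(ℕ → Fin 3, ℝ)

instance : NormedCommRing BB := inferInstanceAs (NormedCommRing (ℕ →ᵇ C(ℕ → Fin 3, ℝ)))
instance : NormedAlgebra ℝ BB := inferInstanceAs (NormedAlgebra ℝ (ℕ →ᵇ C(ℕ → Fin 3, ℝ)))
instance : CompleteSpace BB := inferInstanceAs (CompleteSpace (ℕ →ᵇ C(ℕ → Fin 3, ℝ)))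
instance : CoeFun BB (fun _ => ℕ → C(ℕ → Fin 3, ℝ)) :=
  ⟨fun k => (show ℕ →ᵇ C(ℕ → Fin 3, ℝ) from k)⟩

namespace BB

theorem ext {k k' : BB} (h : ∀ e, k e = k' e) : k = k' :=
  BoundedContinuousFunction.ext (f := (show ℕ →ᵇ C(ℕ → Fin 3, ℝ) from k))
    (g := (show ℕ →ᵇ C(ℕ → Fin 3, ℝ) from k')) h

/-- build an element from a bounded sequence -/
def mk (f : ℕ → CD) (C : ℝ) (h : ∀ e, ‖f e‖ ≤ C) : BB :=
  BoundedContinuousFunction.ofNormedAddCommGroup f continuous_of_discreteTopology C h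

@[simp] theorem mk_apply (f : ℕ → CD) (C : ℝ) (h : ∀ e, ‖f e‖ ≤ C) (e : ℕ) : mk f C h e = f e := rfl
@[simp] theorem add_apply (k k' : BB) (e : ℕ) : (k + k') e = k e + k' e := rfl
@[simp] theorem sub_apply (k k' : BB) (e : ℕ) : (k - k') e = k e - k' e := rfl
@[simp] theorem neg_apply (k : BB) (e : ℕ) : (-k) e = -k e := rfl
@[simp] theorem mul_apply (k k' : BB) (e : ℕ) : (k * k') e = k e * k' e := rfl
@[simp] theorem smul_apply (r : ℝ) (k : BB) (e : ℕ) : (r • k) e = r • k e := rfl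
@[simp] theorem zero_apply (e : ℕ) : (0 : BB) e = 0 := rfl
@[simp] theorem one_apply (e : ℕ) : (1 : BB) e = 1 := rfl

theorem norm_apply_le (k : BB) (e : ℕ) : ‖k e‖ ≤ ‖k‖ :=
  BoundedContinuousFunction.norm_coe_le_norm (show ℕ →ᵇ C(ℕ → Fin 3, ℝ) from k) e

theorem norm_le {k : BB} {C : ℝ} (hC : 0 ≤ C) : ‖k‖ ≤ C ↔ ∀ e, ‖k e‖ ≤ C :=
  BoundedContinuousFunction.norm_le (f := (show ℕ →ᵇ C(ℕ → Fin 3, ℝ) from k)) hC

/-- evaluation at a coordinate -/
def evalL (e : ℕ) : BB →L[ℝ] CD :=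
  LinearMap.mkContinuous
    { toFun := fun k => k e
      map_add' := fun _ _ => rfl
      map_smul' := fun _ _ => rfl } 1 (fun k => by rw [one_mul]; exact norm_apply_le k e)

@[simp] theorem evalL_apply (e : ℕ) (k : BB) : evalL e k = k e := rfl

end BB

theorem exists_rat_close (c : ℝ) (δ : ℝ) (hδ : 0 < δ) : ∃ q : ℚ, |c - q| ≤ δ := by
  obtain ⟨q, hq1, hq2⟩ := exists_rat_btwn (show c - δ < c by linarith)
  exact ⟨q, by rw [abs_le]; constructor <;> linarith⟩

namespace Fam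
variable {I : Type} (Φ : Fam I)

theorem Lim.add {k k' : ℕ → CD} {c c' : CD} (h : Φ.Lim k c) (h' : Φ.Lim k' c') :
    Φ.Lim (fun e => k e + k' e) (c + c') := by
  classical
  intro ε hε
  obtain ⟨t, F, H⟩ := h (ε / 2) (half_pos hε)
  obtain ⟨t', F', H'⟩ := h' (ε / 2) (half_pos hε)
  refine ⟨t ∪ t', F ∪ F', fun e he ht => ?_⟩
  have h1 := H e (fun h => he (Finset.mem_union_left _ h)) (fun i hi => ht i (Finset.mem_union_left _ hi))
  have h2 := H' e (fun h => he (Finset.mem_union_right _ h)) (fun i hi => ht i (Finset.mem_union_right _ hi))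
  calc ‖k e + k' e - (c + c')‖ = ‖(k e - c) + (k' e - c')‖ := by congr 1; abel
    _ ≤ ‖k e - c‖ + ‖k' e - c'‖ := norm_add_le _ _
    _ ≤ ε := by linarith

theorem Lim.smul {k : ℕ → CD} {c : CD} (r : ℝ) (h : Φ.Lim k c) :
    Φ.Lim (fun e => r • k e) (r • c) := by
  intro ε hε
  obtain ⟨t, F, H⟩ := h (ε / (|r| + 1)) (by positivity)
  refine ⟨t, F, fun e he ht => ?_⟩
  have h1 := H e he ht
  calc ‖r • k e - r • c‖ = |r| * ‖k e - c‖ := by rw [← smul_sub, norm_smul, Real.norm_eq_abs]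
    _ ≤ |r| * (ε / (|r| + 1)) := by gcongr
    _ ≤ ε := by
      rw [mul_div_assoc', div_le_iff₀ (by positivity)]
      nlinarith [abs_nonneg r]

theorem Ap.add {k k' : ℕ → CD} {i : I} (h : Φ.Ap k i) (h' : Φ.Ap k' i) :
    Φ.Ap (fun e => k e + k' e) i := by
  classical
  intro ε hε
  obtain ⟨P, F, H⟩ := h (ε / 2) (half_pos hε)
  obtain ⟨P', F', H'⟩ := h' (ε / 2) (half_pos hε)
  refine ⟨.add P P', F ∪ F', fun e he hF => ?_⟩
  have h1 := H e he (fun h => hF (Finset.mem_union_left _ h))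
  have h2 := H' e he (fun h => hF (Finset.mem_union_right _ h))
  calc ‖k e + k' e - (P.ev (Φ.g i e) + P'.ev (Φ.g i e))‖
      = ‖(k e - P.ev (Φ.g i e)) + (k' e - P'.ev (Φ.g i e))‖ := by congr 1; abel
    _ ≤ ‖k e - P.ev (Φ.g i e)‖ + ‖k' e - P'.ev (Φ.g i e)‖ := norm_add_le _ _
    _ ≤ ε := by linarith

theorem Ap.smul {k : ℕ → CD} {i : I} (B : ℝ) (hB : ∀ e, ‖k e‖ ≤ B) (r : ℝ) (h : Φ.Ap k i) :
    Φ.Ap (fun e => r • k e) i := by
  intro ε hε
  have hB0 : 0 ≤ B := (norm_nonneg _).trans (hB 0)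
  obtain ⟨q, hq⟩ := exists_rat_close r (ε / (2 * (B + 1))) (by positivity)
  obtain ⟨P, F, H⟩ := h (ε / (2 * (|(q : ℝ)| + 1))) (by positivity)
  refine ⟨.mul (.cst q) P, F, fun e he hF => ?_⟩
  have h1 := H e he hF
  have h3 : (Ex.mul (.cst q) P).ev (Φ.g i e) = (q : ℝ) • P.ev (Φ.g i e) := by
    ext y; simp [Ex.ev]
  rw [h3]
  calc ‖r • k e - (q : ℝ) • P.ev (Φ.g i e)‖
      = ‖(r - q) • k e + (q : ℝ) • (k e - P.ev (Φ.g i e))‖ := by
        congr 1; rw [sub_smul, smul_sub]; abel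
    _ ≤ |r - q| * ‖k e‖ + |(q : ℝ)| * ‖k e - P.ev (Φ.g i e)‖ := by
        refine (norm_add_le _ _).trans ?_
        rw [norm_smul, norm_smul, Real.norm_eq_abs, Real.norm_eq_abs]
    _ ≤ (ε / (2 * (B + 1))) * B + |(q : ℝ)| * (ε / (2 * (|(q : ℝ)| + 1))) := by
        gcongr
        exact hB e
    _ ≤ ε / 2 + ε / 2 := by
        gcongr
        · rw [div_mul_eq_mul_div, div_le_iff₀ (by positivity)]
          nlinarith
        · rw [mul_div_assoc', div_le_iff₀ (by positivity)]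
          nlinarith [abs_nonneg (q : ℝ)]
    _ = ε := by ring

theorem Lim.zero : Φ.Lim (fun _ => (0 : CD)) 0 := fun ε hε => ⟨∅, ∅, by simp [hε.le]⟩
theorem Ap.zero (i : I) : Φ.Ap (fun _ => (0 : CD)) i := fun ε hε =>
  ⟨.cst 0, ∅, by
    intro e _ _
    have : (Ex.cst 0).ev (Φ.g i e) = 0 := by ext y; simp [Ex.ev]
    rw [this]; simp [hε.le]⟩

end Fam

/-- the space, as a submodule of `ℓ_∞(ℕ, C(Δ))` -/
def XS {I : Type} (Φ : Fam I) : Submodule ℝ BB where
  carrier := {k | Φ.Mem k}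
  add_mem' := by
    rintro a b ⟨⟨c, hc⟩, ha⟩ ⟨⟨c', hc'⟩, hb⟩
    exact ⟨⟨c + c', Fam.Lim.add Φ hc hc'⟩, fun i => Fam.Ap.add Φ (ha i) (hb i)⟩
  zero_mem' := ⟨⟨0, Fam.Lim.zero Φ⟩, fun i => Fam.Ap.zero Φ i⟩
  smul_mem' := by
    rintro r a ⟨⟨c, hc⟩, ha⟩
    exact ⟨⟨r • c, Fam.Lim.smul Φ r hc⟩, fun i =>
      Fam.Ap.smul Φ ‖a‖ (fun e => a.norm_apply_le e) r (ha i)⟩

theorem mem_XS {I : Type} (Φ : Fam I) (k : BB) : k ∈ XS Φ ↔ Φ.Mem k := Iff.rfl

/-- coordinatewise action -/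
def hat (t : CD →L[ℝ] CD) : BB →L[ℝ] BB :=
  LinearMap.mkContinuous
    { toFun := fun k => BB.mk (fun e => t (k e)) (‖t‖ * ‖k‖)
        (fun e => (t.le_opNorm _).trans (by gcongr; exact k.norm_apply_le e))
      map_add' := fun a b => by apply BB.ext; intro e; simp
      map_smul' := fun r a => by apply BB.ext; intro e; simp } ‖t‖
    (fun k => (BB.norm_le (by positivity)).2 fun e =>
      (t.le_opNorm _).trans (by gcongr; exact k.norm_apply_le e))

@[simp] theorem hat_apply (t : CD →L[ℝ] CD) (k : BB) (e : ℕ) : hat t k e = t (k e) := rfl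

/-- `h` placed at coordinate `e'` -/
def single (e' : ℕ) (h : CD) : BB :=
  BB.mk (fun e => if e = e' then h else 0) ‖h‖ (fun e => by
    split_ifs
    · exact le_rfl
    · rw [norm_zero]; exact norm_nonneg _)

@[simp] theorem single_apply (e' : ℕ) (h : CD) (e : ℕ) :
    single e' h e = if e = e' then h else 0 := rfl

open scoped Classical in
/-- restriction to a set of coordinates -/
def restr (s : Set ℕ) (k : BB) : BB :=
  BB.mk (fun e => if e ∈ s then k e else 0) ‖k‖ (fun e => by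
      split_ifs
      · exact k.norm_apply_le e
      · rw [norm_zero]; exact norm_nonneg k)

open scoped Classical in
theorem restr_apply (s : Set ℕ) (k : BB) (e : ℕ) : restr s k e = if e ∈ s then k e else 0 := rfl

/-- the constant sequence -/
def cst (h : CD) : BB := BB.mk (fun _ => h) ‖h‖ (fun _ => le_rfl)

@[simp] theorem cst_apply (h : CD) (e : ℕ) : cst h e = h := rfl

end Pool.Agent.S03285.CK

end

noncomputable section

open scoped BoundedContinuousFunction Topology Cardinal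
open Filter Set

namespace Pool.Agent.S03285.CK

variable {I : Type} (Φ : Fam I)

theorem single_Lim (e' : ℕ) (h : CD) : Φ.Lim (single e' h) 0 := by
  intro ε hε
  refine ⟨∅, {e'}, fun e he _ => ?_⟩
  rw [single_apply, if_neg (by simpa using he)]
  simp [hε.le]

theorem single_mem (e' : ℕ) (h : CD) : single e' h ∈ XS Φ := by
  refine ⟨⟨0, single_Lim Φ e' h⟩, fun i ε hε => ⟨.cst 0, {e'}, fun e _ he => ?_⟩⟩
  rw [single_apply, if_neg (by simpa using he)]
  have : (Ex.cst 0).ev (Φ.g i e) = 0 := by ext y; simp [Ex.ev]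
  rw [this]; simp [hε.le]

/-- `h ↦ single e' h` into the space -/
def singleL (e' : ℕ) : CD →L[ℝ] XS Φ :=
  LinearMap.mkContinuous
    { toFun := fun h => (⟨single e' h, single_mem Φ e' h⟩ : XS Φ)
      map_add' := fun a b => by
        apply Subtype.ext; apply BB.ext; intro e
        by_cases h : e = e' <;> simp [h]
      map_smul' := fun r a => by
        apply Subtype.ext; apply BB.ext; intro e
        by_cases h : e = e' <;> simp [h] } 1
    (fun h => by
      rw [one_mul]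
      refine (BB.norm_le (norm_nonneg _)).2 fun e => ?_
      show ‖single e' h e‖ ≤ ‖h‖
      rw [single_apply]
      split_ifs
      · exact le_rfl
      · rw [norm_zero]; exact norm_nonneg _)

@[simp] theorem singleL_coe (e' : ℕ) (h : CD) : ((singleL Φ e' h : XS Φ) : BB) = single e' h := rfl

/-- the matrix of an operator -/
def matOf (S : XS Φ →L[ℝ] XS Φ) : Mat := fun e e' =>
  (BB.evalL e).comp
    ((XS Φ).subtypeL.comp (S.comp (singleL Φ e')))

theorem matOf_apply (S : XS Φ →L[ℝ] XS Φ) (e e' : ℕ) (h : CD) :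
    matOf Φ S e e' h = (S (singleL Φ e' h) : BB) e := rfl

end Pool.Agent.S03285.CK

end

noncomputable section

open scoped BoundedContinuousFunction Topology Cardinal
open Filter Set

namespace Pool.Agent.S03285.CK

/-- action of a table on functions of finite words -/
def wop (c : Tb) (f : Wd → ℝ) (v : Wd) : ℝ :=
  c.sum fun p a => a * (if v.take p.1.length = p.1 then f (p.2 ++ v.drop p.1.length) else 0)

/-- bounded functions on the set of finite words -/
abbrev FW : Type := lp (fun _ : List (Fin 3) => ℝ) ⊤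

end Pool.Agent.S03285.CK

end

noncomputable section

open scoped BoundedContinuousFunction Topology Cardinal
open Filter Set

namespace Pool.Agent.S03285.CK

namespace PAD

theorem exists_AD : ∃ a : (ℕ → Bool) → Set ℕ, (∀ x, (a x).Infinite) ∧
    ∀ x y, x ≠ y → (a x ∩ a y).Finite := by
  let cd : (ℕ → Bool) → ℕ → ℕ := fun x n => Encodable.encode (List.ofFn (fun i : Fin n => x i))
  have hcd : ∀ x y n m, cd x n = cd y m → n = m ∧ ∀ i, i < n → x i = y i := by
    intro x y n m h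
    have h1 : List.ofFn (fun i : Fin n => x i) = List.ofFn (fun i : Fin m => y i) :=
      Encodable.encode_injective h
    have h2 : n = m := by
      have := congrArg List.length h1
      simpa using this
    subst h2
    refine ⟨rfl, fun i hi => ?_⟩
    have h3 := List.ofFn_injective h1
    exact congrFun h3 ⟨i, hi⟩
  refine ⟨fun x => Set.range (cd x), ?_, ?_⟩
  · intro x
    apply Set.infinite_range_of_injective
    intro n m h
    exact (hcd x x n m h).1
  · intro x y hxy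
    obtain ⟨k, hk⟩ := Function.ne_iff.1 hxy
    refine Set.Finite.subset ((Set.finite_Iic k).image (cd x)) ?_
    rintro c ⟨⟨n, rfl⟩, ⟨m, hm⟩⟩
    refine ⟨n, ?_, rfl⟩
    rw [Set.mem_Iic]
    by_contra hlt
    exact hk ((hcd x y n m hm.symm).2 k (not_le.1 hlt))

end PAD

namespace PCM

theorem card_seq_le {α : Type} (h : #α ≤ 𝔠) : #(ℕ → α) ≤ 𝔠 := by
  have h1 : #(ℕ → α) = #α ^ Cardinal.aleph0 := by
    rw [← Cardinal.mk_nat]
    rfl
  rw [h1]
  calc #α ^ Cardinal.aleph0 ≤ 𝔠 ^ Cardinal.aleph0 := Cardinal.power_le_power_right h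
    _ = 𝔠 := Cardinal.continuum_power_aleph0

theorem card_CD : #CD ≤ 𝔠 := by
  have hinj : Function.Injective (fun (f : CD) (n : ℕ) => f (TopologicalSpace.denseSeq Dl n)) := by
    intro f g hfg
    have h1 : (f : Dl → ℝ) = g := by
      apply DenseRange.equalizer (TopologicalSpace.denseRange_denseSeq Dl) f.continuous
        g.continuous
      funext n
      exact congrFun hfg n
    exact DFunLike.coe_injective h1
  refine (Cardinal.mk_le_of_injective hinj).trans (card_seq_le ?_)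
  rw [Cardinal.mk_real]

theorem card_CLM : #(CD →L[ℝ] CD) ≤ 𝔠 := by
  have hinj : Function.Injective
      (fun (f : CD →L[ℝ] CD) (n : ℕ) => f (TopologicalSpace.denseSeq CD n)) := by
    intro f g hfg
    have h1 : (f : CD → CD) = g := by
      apply DenseRange.equalizer (TopologicalSpace.denseRange_denseSeq CD) f.continuous
        g.continuous
      funext n
      exact congrFun hfg n
    exact DFunLike.coe_injective h1
  exact (Cardinal.mk_le_of_injective hinj).trans (card_seq_le card_CD)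

theorem card_Mat : #Mat ≤ 𝔠 := by
  exact card_seq_le (card_seq_le card_CLM)

end PCM

namespace PGR

theorem fresh_pair {B : Type} (hB : #B = 𝔠) (U : Set B) (hU : #U < 𝔠) :
    ∃ x y, x ∉ U ∧ y ∉ U ∧ x ≠ y := by
  have hinf : Infinite B := by
    rw [Cardinal.infinite_iff, hB]
    exact Cardinal.aleph0_le_continuum
  have h1 : #(Uᶜ : Set B) = #B := Cardinal.mk_compl_of_infinite U (by rw [hB]; exact hU)
  have h2 : Infinite (Uᶜ : Set B) := by
    rw [Cardinal.infinite_iff, h1, hB]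
    exact Cardinal.aleph0_le_continuum
  obtain ⟨x, y, hxy⟩ := exists_pair_ne (Uᶜ : Set B)
  exact ⟨x, y, x.2, y.2, fun h => hxy (Subtype.ext h)⟩

theorem general_rec {B G S : Type} (hB : #B = 𝔠) (hS : #S ≤ 𝔠) (Q : B → B → G → Prop)
    (hQ : ∀ x y, ∃ g, Q x y g) (P : S → B → B → G → Prop) :
    ∃ (I : Type) (x y : I → B) (g : I → G), #I = 𝔠 ∧ Function.Injective x ∧
      Function.Injective y ∧ (∀ i j, x i ≠ y j) ∧ (∀ i, Q (x i) (y i) (g i)) ∧
      ∀ (s : S) (N : Set I), N.Countable → ∃ i ∉ N, ∃ U : Set B, #U < 𝔠 ∧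
        (P s (x i) (y i) (g i) → ∀ x' y', x' ∉ U → y' ∉ U → x' ≠ y' → ∀ f, Q x' y' f →
          P s x' y' f) := by
  classical
  -- the index type
  let J : Type := (𝔠 : Cardinal.{0}).ord.ToType
  have hJ : #J = 𝔠 := Cardinal.mk_ord_toType _
  have hJi : ∀ i : J, #(Set.Iio i) < 𝔠 := fun i => Cardinal.mk_Iio_ord_toType i
  have hE : #(Option S × ℝ) = 𝔠 := by
    rw [Cardinal.mk_prod, Cardinal.lift_id, Cardinal.lift_id, Cardinal.mk_real,
      Cardinal.mk_option]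
    refine Cardinal.mul_eq_right Cardinal.aleph0_le_continuum ?_ ?_
    · exact (Cardinal.add_le_of_le Cardinal.aleph0_le_continuum hS
        (Cardinal.one_le_aleph0.trans Cardinal.aleph0_le_continuum))
    · exact (by simp)
  obtain ⟨e⟩ : Nonempty (J ≃ Option S × ℝ) := Cardinal.eq.1 (hJ.trans hE.symm)
  let T : Type := B × B × G
  let Good : J → Set B → T → Prop := fun i U t =>
    t.1 ≠ t.2.1 ∧ t.1 ∉ U ∧ t.2.1 ∉ U ∧ Q t.1 t.2.1 t.2.2 ∧
      ∀ s, (e i).1 = some s → (P s t.1 t.2.1 t.2.2 → ∀ x' y', x' ∉ U → y' ∉ U → x' ≠ y' →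
        ∀ f, Q x' y' f → P s x' y' f)
  have hGood : ∀ (i : J) (U : Set B), #U < 𝔠 → ∃ t, Good i U t := by
    intro i U hU
    by_cases h : ∃ s, (e i).1 = some s ∧ ∃ x' y', x' ∉ U ∧ y' ∉ U ∧ x' ≠ y' ∧
        ∃ f, Q x' y' f ∧ ¬ P s x' y' f
    · obtain ⟨s, hs, x', y', hx', hy', hne, f, hf, hP⟩ := h
      refine ⟨(x', y', f), hne, hx', hy', hf, ?_⟩
      intro s' hs' hP'
      have : s' = s := Option.some.inj (hs'.symm.trans hs)
      subst this
      exact absurd hP' hP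
    · obtain ⟨x, y, hx, hy, hxy⟩ := fresh_pair hB U hU
      obtain ⟨g, hg⟩ := hQ x y
      refine ⟨(x, y, g), hxy, hx, hy, hg, ?_⟩
      intro s hs _ x' y' hx' hy' hne f hf
      by_contra hP
      exact h ⟨s, hs, x', y', hx', hy', hne, f, hf, hP⟩
  have hT : Nonempty T := by
    have : ∃ x y : B, x ∉ (∅ : Set B) ∧ y ∉ (∅ : Set B) ∧ x ≠ y := fresh_pair hB ∅ (by
      rw [Cardinal.mk_emptyCollection]
      exact Cardinal.aleph0_pos.trans_le Cardinal.aleph0_le_continuum)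
    obtain ⟨x, y, -, -, -⟩ := this
    obtain ⟨g, -⟩ := hQ x y
    exact ⟨(x, y, g)⟩
  have wf : WellFounded (fun a b : J => a < b) := wellFounded_lt
  let Uh : ∀ i : J, (∀ j : J, j < i → T) → Set B := fun i h =>
    {b | ∃ (j : J) (hj : j < i), b = (h j hj).1 ∨ b = (h j hj).2.1}
  let F : J → T := wf.fix (fun i h => Classical.epsilon (fun t => Good i (Uh i h) t))
  let UF : J → Set B := fun i => {b | ∃ j : J, j < i ∧ (b = (F j).1 ∨ b = (F j).2.1)}
  have hUF : ∀ i, Uh i (fun j _ => F j) = UF i := by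
    intro i
    ext b
    constructor
    · rintro ⟨j, hj, h⟩; exact ⟨j, hj, h⟩
    · rintro ⟨j, hj, h⟩; exact ⟨j, hj, h⟩
  have hFeq : ∀ i, F i = Classical.epsilon (fun t => Good i (UF i) t) := by
    intro i
    have := wf.fix_eq (fun i h => Classical.epsilon (fun t => Good i (Uh i h) t)) i
    rw [← hUF i]
    exact this
  have hcard : ∀ i, #(UF i) < 𝔠 := by
    intro i
    have hsub : UF i ⊆ (fun j => (F j).1) '' Set.Iio i ∪ (fun j => (F j).2.1) '' Set.Iio i := by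
      rintro b ⟨j, hj, h | h⟩
      · exact Or.inl ⟨j, hj, h.symm⟩
      · exact Or.inr ⟨j, hj, h.symm⟩
    refine (Cardinal.mk_le_mk_of_subset hsub).trans_lt ((Cardinal.mk_union_le _ _).trans_lt ?_)
    refine Cardinal.add_lt_of_lt Cardinal.aleph0_le_continuum ?_ ?_
    · exact Cardinal.mk_image_le.trans_lt (hJi i)
    · exact Cardinal.mk_image_le.trans_lt (hJi i)
  have hF : ∀ i, Good i (UF i) (F i) := by
    intro i
    rw [hFeq i]
    exact Classical.epsilon_spec (hGood i (UF i) (hcard i))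
  refine ⟨J, fun i => (F i).1, fun i => (F i).2.1, fun i => (F i).2.2, hJ, ?_, ?_, ?_, ?_, ?_⟩
  · intro i j hij
    rcases lt_trichotomy i j with h | h | h
    · exact absurd (show (F j).1 ∈ UF j from ⟨i, h, Or.inl hij.symm⟩) (hF j).2.1
    · exact h
    · exact absurd (show (F i).1 ∈ UF i from ⟨j, h, Or.inl hij⟩) (hF i).2.1
  · intro i j hij
    rcases lt_trichotomy i j with h | h | h
    · exact absurd (show (F j).2.1 ∈ UF j from ⟨i, h, Or.inr hij.symm⟩) (hF j).2.2.1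
    · exact h
    · exact absurd (show (F i).2.1 ∈ UF i from ⟨j, h, Or.inr hij⟩) (hF i).2.2.1
  · intro i j hij
    change (F i).1 = (F j).2.1 at hij
    rcases lt_trichotomy i j with h | h | h
    · exact absurd (show (F j).2.1 ∈ UF j from ⟨i, h, Or.inl hij.symm⟩) (hF j).2.2.1
    · subst h; exact (hF i).1 hij
    · exact absurd (show (F i).1 ∈ UF i from ⟨j, h, Or.inr hij⟩) (hF i).2.1
  · intro i
    exact (hF i).2.2.2.1
  · intro s N hN
    have hunc : ¬ {j : J | (e j).1 = some s}.Countable := by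
      intro hc
      have h2 : (Set.range (fun t : ℝ => e.symm (some s, t))).Countable := by
        refine hc.mono ?_
        rintro _ ⟨t, rfl⟩
        show (e (e.symm (some s, t))).1 = some s
        rw [Equiv.apply_symm_apply]
      have hinj : Function.Injective (fun t : ℝ => e.symm (some s, t)) := by
        intro a b hab
        have := e.symm.injective hab
        exact (Prod.ext_iff.1 this).2
      have h3 : Countable ℝ := by
        have : (Set.univ : Set ℝ).Countable := by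
          rw [← Set.preimage_range (fun t : ℝ => e.symm (some s, t))]
          exact h2.preimage_of_injOn hinj.injOn
        exact Set.countable_univ_iff.1 this
      exact not_countable (α := ℝ) h3
    obtain ⟨i, hi, hiN⟩ : ∃ i ∈ {j : J | (e j).1 = some s}, i ∉ N := by
      by_contra hcon
      push_neg at hcon
      exact hunc (hN.mono hcon)
    exact ⟨i, hiN, UF i, hcard i, (hF i).2.2.2.2 s hi⟩

end PGR

namespace PYS

theorem app_len_add (w : Wd) (y : Dl) (m : ℕ) : app w y (w.length + m) = y m := by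
  induction w with
  | nil => simp
  | cons i w ih =>
    have : (i :: w).length + m = (w.length + m) + 1 := by simp; omega
    rw [this, app_cons, cons_succ, ih]

theorem app_lt (w : Wd) (y : Dl) (m : ℕ) (h : m < w.length) : app w y m = w[m] := by
  induction w generalizing m with
  | nil => simp at h
  | cons i w ih =>
    cases m with
    | zero => simp
    | succ m =>
      rw [app_cons, cons_succ, ih m (by simpa using h)]
      simp

theorem app_ystar_inj {w w' : Wd} (h : app w ystar = app w' ystar) : w = w' := by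
  induction w generalizing w' with
  | nil =>
    cases w' with
    | nil => rfl
    | cons i w' =>
      exfalso
      have h1 := congrFun h (w'.length + 1)
      have h2 := app_len_add w' ystar 0
      simp only [app_nil, app_cons, cons_succ] at h1
      rw [Nat.add_zero] at h2
      rw [h2] at h1
      simp [ystar] at h1
  | cons i w ih =>
    cases w' with
    | nil =>
      exfalso
      have h1 := congrFun h (w.length + 1)
      have h2 := app_len_add w ystar 0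
      simp only [app_nil, app_cons, cons_succ] at h1
      rw [Nat.add_zero] at h2
      rw [h2] at h1
      simp [ystar] at h1
    | cons j w' =>
      have h0 := congrFun h 0
      simp only [app_cons, cons_zero] at h0
      have h1 : app w ystar = app w' ystar := by
        have := congrArg tl h
        simpa using this
      rw [h0, ih h1]

/-- the points `u y*` are dense -/
theorem norm_le_of_ystar (h : CD) (c : ℝ) (hc : 0 ≤ c) (hh : ∀ u : Wd, |h (app u ystar)| ≤ c) :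
    ‖h‖ ≤ c := by
  refine (ContinuousMap.norm_le _ hc).2 fun y => ?_
  have ht : Tendsto (fun n : ℕ => app (List.ofFn (fun k : Fin n => y k)) ystar) atTop (𝓝 y) := by
    rw [tendsto_pi_nhds]
    intro m
    refine tendsto_const_nhds.congr' ?_
    filter_upwards [eventually_gt_atTop m] with n hn
    rw [app_lt _ _ _ (by simpa using hn)]
    simp
  have h2 : Tendsto (fun n : ℕ => |h (app (List.ofFn (fun k : Fin n => y k)) ystar)|) atTop
      (𝓝 |h y|) := ((h.continuous.tendsto y).comp ht).abs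
  rw [Real.norm_eq_abs]
  exact le_of_tendsto' h2 fun n => hh _

end PYS

namespace PBU

theorem exists_bumps (hinj : ∀ w w' : Wd, app w ystar = app w' ystar → w = w') (Q : Finset Wd) :
    ∃ φ : Wd → CD,
    (∀ w ∈ Q, ∀ w' ∈ Q, φ w (app w' ystar) = if w = w' then 1 else 0) ∧
    ∀ (t : Wd → ℝ) (B : ℝ), 0 ≤ B → (∀ w ∈ Q, |t w| ≤ B) → ‖∑ w ∈ Q, t w • φ w‖ ≤ B := by
  classical
  -- a separating coordinate
  have hsep : ∀ w w' : Wd, ∃ n : ℕ, w ≠ w' → app w ystar n ≠ app w' ystar n := by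
    intro w w'
    by_cases h : w = w'
    · exact ⟨0, fun h' => absurd h h'⟩
    · have h1 : app w ystar ≠ app w' ystar := fun h2 => h (hinj w w' h2)
      obtain ⟨n, hn⟩ := Function.ne_iff.1 h1
      exact ⟨n, fun _ => hn⟩
  choose N hN using hsep
  set K : ℕ := (Q ×ˢ Q).sup (fun p => N p.1 p.2) + 1 with hK
  let res : (ℕ → Fin 3) → (Fin K → Fin 3) := fun y n => y n
  have hres : Continuous res := continuous_pi fun n => continuous_apply (n : ℕ)
  have hresinj : ∀ w ∈ Q, ∀ w' ∈ Q, res (app w ystar) = res (app w' ystar) → w = w' := by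
    intro w hw w' hw' h
    by_contra hne
    have h1 := hN w w' hne
    have h2 : N w w' < K := by
      have : N w w' ≤ (Q ×ˢ Q).sup (fun p => N p.1 p.2) :=
        Finset.le_sup (f := fun p : Wd × Wd => N p.1 p.2)
          (Finset.mem_product.2 ⟨hw, hw'⟩ : (w, w') ∈ Q ×ˢ Q)
      omega
    exact h1 (congrFun h ⟨N w w', h2⟩)
  let φ : Wd → CD := fun w =>
    ⟨fun y => if res y = res (app w ystar) then (1 : ℝ) else 0,
      (continuous_of_discreteTopology :
        Continuous (fun j : Fin K → Fin 3 => if j = res (app w ystar) then (1 : ℝ) else 0)).comp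
        hres⟩
  have hφ : ∀ w y, φ w y = if res y = res (app w ystar) then (1 : ℝ) else 0 := fun _ _ => rfl
  refine ⟨φ, ?_, ?_⟩
  · intro w hw w' hw'
    rw [hφ]
    by_cases h : w = w'
    · subst h; simp
    · rw [if_neg h, if_neg]
      intro h2
      exact h (hresinj w' hw' w hw h2).symm
  · intro t B hB ht
    refine (ContinuousMap.norm_le _ hB).2 fun y => ?_
    have e1 : (∑ w ∈ Q, t w • φ w) y
        = ∑ w ∈ Q, t w * (if res y = res (app w ystar) then (1 : ℝ) else 0) := by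
      rw [ContinuousMap.coe_sum, Finset.sum_apply]
      rfl
    rw [e1]
    by_cases hex : ∃ w0 ∈ Q, res y = res (app w0 ystar)
    · obtain ⟨w0, hw0, h0⟩ := hex
      rw [Finset.sum_eq_single w0]
      · rw [if_pos h0, mul_one]
        exact ht w0 hw0
      · intro w hw hne
        rw [if_neg, mul_zero]
        intro h1
        exact hne (hresinj w hw w0 hw0 (h1.symm.trans h0))
      · intro h; exact absurd hw0 h
    · push Not at hex
      rw [Finset.sum_eq_zero]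
      · simpa using hB
      · intro w hw
        rw [if_neg (hex w hw), mul_zero]

end PBU

section

theorem Ex.continuous_ev (P : Ex) : Continuous P.ev := by
  induction P with
  | cst q => exact continuous_const
  | var => exact continuous_id
  | add a b iha ihb => exact iha.add ihb
  | mul a b iha ihb => exact iha.mul ihb
  | pull i a ih => exact (pullC i).continuous.comp ih
  | push i a ih => exact (pushC i).continuous.comp ih

/-- `P` is determined by finitely many point values at the level `N` -/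
def Ex.LocAt (P : Ex) (N : ℕ) : Prop :=
  ∀ v : Wd, v.length = N → ∃ Q : Finset Wd, ∃ p : (Wd → ℝ) → ℝ,
    (∀ t t' : Wd → ℝ, (∀ w ∈ Q, t w = t' w) → p t = p t') ∧
    ∀ (h : CD) (z : Dl), P.ev h (app v z) = p (fun w => h (app w z))

theorem Ex.LocAt.succ {P : Ex} {N : ℕ} (hP : P.LocAt N) : P.LocAt (N + 1) := by
  intro v hv
  rcases List.eq_nil_or_concat v with h0 | ⟨v0, x, hvx⟩
  · subst h0; simp at hv
  · rw [List.concat_eq_append] at hvx
    subst hvx
    have hl : v0.length = N := by simpa using hv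
    obtain ⟨Q, p, hp, hev⟩ := hP v0 hl
    refine ⟨Q.image (fun w => w ++ [x]), fun t => p (fun w => t (w ++ [x])), ?_, ?_⟩
    · intro t t' htt
      apply hp
      intro w hw
      exact htt _ (Finset.mem_image_of_mem _ hw)
    · intro h z
      rw [app_append, hev h (app [x] z)]
      congr 1
      funext w
      show h (app w (app [x] z)) = h (app (w ++ [x]) z)
      rw [app_append]

theorem Ex.LocAt.mono {P : Ex} {N M : ℕ} (hP : P.LocAt N) (hNM : N ≤ M) : P.LocAt M := by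
  induction M, hNM using Nat.le_induction with
  | base => exact hP
  | succ M _ ih => exact ih.succ

theorem Ex.loc (P : Ex) : ∃ N : ℕ, ∀ v : Wd, v.length = N → ∃ Q : Finset Wd, ∃ p : (Wd → ℝ) → ℝ,
    (∀ t t' : Wd → ℝ, (∀ w ∈ Q, t w = t' w) → p t = p t') ∧
    ∀ (h : CD) (z : Dl), P.ev h (app v z) = p (fun w => h (app w z)) := by
  change ∃ N : ℕ, P.LocAt N
  induction P with
  | cst q =>
    refine ⟨0, fun v hv => ⟨∅, fun _ => (q : ℝ), fun _ _ _ => rfl, fun h z => rfl⟩⟩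
  | var =>
    refine ⟨0, fun v hv => ⟨{[]}, fun t => t [], fun t t' htt => htt [] (by simp), fun h z => ?_⟩⟩
    have : v = [] := List.length_eq_zero_iff.1 hv
    subst this
    rfl
  | add a b iha ihb =>
    obtain ⟨Na, ha⟩ := iha
    obtain ⟨Nb, hb⟩ := ihb
    refine ⟨max Na Nb, fun v hv => ?_⟩
    obtain ⟨Qa, pa, hpa, hea⟩ := ha.mono (le_max_left Na Nb) v hv
    obtain ⟨Qb, pb, hpb, heb⟩ := hb.mono (le_max_right Na Nb) v hv
    refine ⟨Qa ∪ Qb, fun t => pa t + pb t, fun t t' htt => ?_, fun h z => ?_⟩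
    · show pa t + pb t = pa t' + pb t'
      rw [hpa t t' fun w hw => htt w (Finset.mem_union_left _ hw),
        hpb t t' fun w hw => htt w (Finset.mem_union_right _ hw)]
    · show (a.ev h + b.ev h) (app v z) = _
      rw [ContinuousMap.add_apply, hea, heb]
  | mul a b iha ihb =>
    obtain ⟨Na, ha⟩ := iha
    obtain ⟨Nb, hb⟩ := ihb
    refine ⟨max Na Nb, fun v hv => ?_⟩
    obtain ⟨Qa, pa, hpa, hea⟩ := ha.mono (le_max_left Na Nb) v hv
    obtain ⟨Qb, pb, hpb, heb⟩ := hb.mono (le_max_right Na Nb) v hv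
    refine ⟨Qa ∪ Qb, fun t => pa t * pb t, fun t t' htt => ?_, fun h z => ?_⟩
    · show pa t * pb t = pa t' * pb t'
      rw [hpa t t' fun w hw => htt w (Finset.mem_union_left _ hw),
        hpb t t' fun w hw => htt w (Finset.mem_union_right _ hw)]
    · show (a.ev h * b.ev h) (app v z) = _
      rw [ContinuousMap.mul_apply, hea, heb]
  | pull i a ih =>
    obtain ⟨N, ha⟩ := ih
    refine ⟨N, fun v hv => ?_⟩
    obtain ⟨Q, p, hp, hev⟩ := ha.succ (i :: v) (by simp [hv])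
    refine ⟨Q, p, hp, fun h z => ?_⟩
    show pullC i (a.ev h) (app v z) = _
    rw [pullC_apply, ← app_cons, hev]
  | push i a ih =>
    obtain ⟨N, ha⟩ := ih
    refine ⟨N + 1, fun v hv => ?_⟩
    cases v with
    | nil => simp at hv
    | cons j v2 =>
      have hl : v2.length = N := by simpa using hv
      obtain ⟨Q, p, hp, hev⟩ := ha v2 hl
      refine ⟨Q, fun t => if j = i then p t else 0, fun t t' htt => ?_, fun h z => ?_⟩
      · show (if j = i then p t else 0) = (if j = i then p t' else 0)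
        rw [hp t t' htt]
      · show pushC i (a.ev h) (app (j :: v2) z) = _
        rw [pushC_apply, app_cons, cons_zero, tl_cons, hev]

end

namespace PTA

theorem opD_add (a b : Tb) : opD (a + b) = opD a + opD b := by
  unfold opD
  apply Finsupp.sum_add_index'
  · intro p; simp
  · intro p x y; rw [add_smul]

theorem opD_zero : opD 0 = 0 := by
  unfold opD
  exact Finsupp.sum_zero_index

theorem opD_single (p : List (Fin 3) × List (Fin 3)) (x : ℝ) :
    opD (Finsupp.single p x) = x • (pushW p.1).comp (pullW p.2) := by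
  unfold opD
  rw [Finsupp.sum_single_index]
  simp

theorem opD_sum {ι : Type*} (s : Finset ι) (f : ι → Tb) :
    opD (∑ i ∈ s, f i) = ∑ i ∈ s, opD (f i) := by
  classical
  induction s using Finset.induction_on with
  | empty => simp [opD_zero]
  | insert a s ha ih => rw [Finset.sum_insert ha, Finset.sum_insert ha, opD_add, ih]

theorem pushW_app (u v : Wd) (h : CD) (z : Dl) (hl : u.length = v.length) :
    pushW u h (app v z) = if u = v then h z else 0 := by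
  induction u generalizing v with
  | nil =>
    have hv : v = [] := List.length_eq_zero_iff.mp hl.symm
    subst hv
    simp [pushW]
  | cons i u ih =>
    cases v with
    | nil => simp at hl
    | cons j v =>
      have hl' : u.length = v.length := by simpa using hl
      have h1 : pushW (i :: u) h (app (j :: v) z) = pushC i (pushW u h) (cons j (app v z)) := rfl
      rw [h1, pushC_apply, cons_zero, tl_cons, ih v hl']
      by_cases hij : j = i
      · subst hij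
        by_cases huv : u = v
        · subst huv; simp
        · simp [huv]
      · have : ¬ (i :: u = j :: v) := by
          intro h2
          exact hij (List.cons.inj h2).1.symm
        simp [hij, this]

theorem exists_table (N : ℕ) (Q : Wd → Finset Wd) (c : Wd → Wd → ℝ) : ∃ tb : Tb,
    ∀ (h : CD) (z : Dl) (v : Wd), v.length = N →
      opD tb h (app v z) = ∑ w ∈ Q v, c v w * h (app w z) := by
  classical
  have hfin : {l : List (Fin 3) | l.length = N}.Finite := List.finite_length_eq (Fin 3) N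
  refine ⟨∑ v ∈ hfin.toFinset, ∑ w ∈ Q v, Finsupp.single (v, w) (c v w), ?_⟩
  intro h z v hv
  have h1 : opD (∑ v ∈ hfin.toFinset, ∑ w ∈ Q v, Finsupp.single (v, w) (c v w)) h (app v z)
      = ∑ v' ∈ hfin.toFinset, ∑ w ∈ Q v', c v' w * (pushW v' (pullW w h) (app v z)) := by
    rw [opD_sum, ContinuousLinearMap.sum_apply, ContinuousMap.coe_sum, Finset.sum_apply]
    apply Finset.sum_congr rfl
    intro v' _
    rw [opD_sum, ContinuousLinearMap.sum_apply, ContinuousMap.coe_sum, Finset.sum_apply]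
    apply Finset.sum_congr rfl
    intro w _
    rw [opD_single]
    rfl
  rw [h1, Finset.sum_eq_single v]
  · apply Finset.sum_congr rfl
    intro w _
    rw [pushW_app v v _ _ rfl, if_pos rfl, pullW_apply]
  · intro v' hv' hne
    apply Finset.sum_eq_zero
    intro w _
    have hl : v'.length = v.length := by
      have : v' ∈ {l : List (Fin 3) | l.length = N} := hfin.mem_toFinset.mp hv'
      rw [hv]; exact this
    rw [pushW_app v' v _ _ hl, if_neg hne, mul_zero]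
  · intro hnot
    exact absurd (hfin.mem_toFinset.mpr hv) hnot

end PTA

end Pool.Agent.S03285.CK

end

noncomputable section

open scoped BoundedContinuousFunction Topology Cardinal
open Filter Set

namespace Pool.Agent.S03285.CK

namespace PBA

/-- the functional `h ↦ (M e e' h) y` -/
def phiF (M : Mat) (y : Dl) (e e' : ℕ) : CD →L[ℝ] ℝ :=
  (ContinuousMap.evalCLM ℝ y).comp (M e e')

theorem phiF_apply (M : Mat) (y : Dl) (e e' : ℕ) (h : CD) : phiF M y e e' h = (M e e' h) y := rfl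

theorem phiF_sum_le (M : Mat) (C : ℝ) (hM : RowBd M C) (e : ℕ) (y : Dl) (s : Finset ℕ) :
    ∑ e' ∈ s, ‖phiF M y e e'‖ ≤ C := by
  refine le_of_forall_pos_le_add fun η hη => ?_
  have hδ : 0 < η / (s.card + 1 : ℝ) := by positivity
  have hex : ∀ e', ∃ h : CD, ‖h‖ < 1 ∧ ‖phiF M y e e'‖ - η / (s.card + 1 : ℝ) < ‖phiF M y e e' h‖ :=
    fun e' => ContinuousLinearMap.exists_lt_apply_of_lt_opNorm _ (by linarith)
  choose h h1 h2 using hex
  have h3 := hM e y s h (fun e' => (h1 e').le)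
  have h4 : ∑ e' ∈ s, ‖phiF M y e e'‖ ≤ ∑ e' ∈ s, (|(M e e' (h e')) y| + η / (s.card + 1 : ℝ)) := by
    refine Finset.sum_le_sum fun e' _ => ?_
    have := h2 e'
    rw [phiF_apply, Real.norm_eq_abs ((M e e' (h e')) y)] at this
    linarith
  rw [Finset.sum_add_distrib, Finset.sum_const, nsmul_eq_mul] at h4
  have h5 : (s.card : ℝ) * (η / (s.card + 1 : ℝ)) ≤ η := by
    rw [mul_div_assoc', div_le_iff₀ (by positivity)]
    nlinarith
  linarith

/-- Baire category step -/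
theorem baire_step (hcont : ∀ P : Ex, Continuous P.ev) (M : Mat) (C : ℝ) (hM : RowBd M C) (a : Set ℕ)
    (H : ∀ f : ℕ → CD, (∀ e, ‖f e‖ ≤ 1) → (∀ e ∉ a, f e = 0) → Appr M a f) (ε : ℝ) (hε : 0 < ε) :
    ∃ P : Ex, ∃ F : Finset ℕ, ∃ f0 : ℕ → CD, (∀ e, ‖f0 e‖ ≤ 1) ∧ (∀ e ∉ a, f0 e = 0) ∧
      ∀ f : ℕ → CD, (∀ e, ‖f e‖ ≤ 1) → (∀ e ∉ a, f e = 0) → (∀ e ∈ F, f e = f0 e) →
        ∀ e ∈ a, e ∉ F → ∀ u : Wd,
          |∑' e', (M e e' (f e')) (app u ystar) - (P.ev (f e)) (app u ystar)| ≤ ε := by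
  classical
  let B : Set CD := Metric.closedBall (0 : CD) 1
  have : CompleteSpace B := Metric.isClosed_closedBall.completeSpace_coe
  have i1 : TopologicalSpace.IsCompletelyPseudoMetrizableSpace B :=
    Metric.isClosed_closedBall.isCompletelyPseudoMetrizableSpace
  have i2 : TopologicalSpace.IsCompletelyPseudoMetrizableSpace (ℕ → B) :=
    TopologicalSpace.IsCompletelyPseudoMetrizableSpace.pi_countable
  have i3 : BaireSpace (ℕ → B) := BaireSpace.of_completelyPseudoMetrizable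
  let cut : (ℕ → B) → ℕ → CD := fun f e => if e ∈ a then ((f e : B) : CD) else 0
  have hcut_norm : ∀ f e, ‖cut f e‖ ≤ 1 := by
    intro f e
    simp only [cut]
    split_ifs
    · exact mem_closedBall_zero_iff.mp (f e).2
    · simp
  have hcut_zero : ∀ f, ∀ e ∉ a, cut f e = 0 := by
    intro f e he
    simp only [cut, if_neg he]
  have hcut_cont : ∀ e, Continuous fun f : ℕ → B => cut f e := by
    intro e
    by_cases he : e ∈ a
    · simp only [cut, if_pos he]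
      exact continuous_subtype_val.comp (continuous_apply e)
    · simp only [cut, if_neg he]
      exact continuous_const
  let S : Ex × Finset ℕ → Set (ℕ → B) := fun p => {f | ∀ e ∈ a, e ∉ p.2 → ∀ u : Wd,
    |∑' e', (M e e' (cut f e')) (app u ystar) - (p.1.ev (cut f e)) (app u ystar)| ≤ ε}
  have hclosed : ∀ p, IsClosed (S p) := by
    intro p
    have : S p = ⋂ (e : ℕ) (_ : e ∈ a) (_ : e ∉ p.2) (u : Wd), {f : ℕ → B |
      |∑' e', (M e e' (cut f e')) (app u ystar) - (p.1.ev (cut f e)) (app u ystar)| ≤ ε} := by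
      ext f
      simp only [S, mem_setOf_eq, mem_iInter]
    rw [this]
    refine isClosed_iInter fun e => isClosed_iInter fun he => isClosed_iInter fun _ =>
      isClosed_iInter fun u => ?_
    refine isClosed_le ?_ continuous_const
    refine continuous_abs.comp (Continuous.sub ?_ ?_)
    · refine continuous_tsum (u := fun e' => ‖phiF M (app u ystar) e e'‖) (fun e' => ?_) ?_ ?_
      · have := (phiF M (app u ystar) e e').continuous.comp (hcut_cont e')
        exact this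
      · exact summable_of_sum_le (fun e' => norm_nonneg (phiF M (app u ystar) e e')) (fun s => phiF_sum_le M C hM e _ s)
      · intro e' f
        rw [← phiF_apply]
        refine (ContinuousLinearMap.le_opNorm _ _).trans ?_
        exact mul_le_of_le_one_right (norm_nonneg _) (hcut_norm f e')
    · have h1 : Continuous fun f : ℕ → B => p.1.ev (cut f e) := (hcont p.1).comp (hcut_cont e)
      exact (ContinuousMap.evalCLM ℝ (app u ystar)).continuous.comp h1
  have hunion : ⋃ p, S p = univ := by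
    refine eq_univ_of_forall fun f => ?_
    obtain ⟨P, F, hPF⟩ := H (cut f) (hcut_norm f) (hcut_zero f) ε hε
    exact mem_iUnion.mpr ⟨(P, F), hPF⟩
  haveI : Nonempty (ℕ → B) := ⟨fun _ => ⟨0, by simp [B]⟩⟩
  obtain ⟨⟨P, F1⟩, g0, hg0⟩ := nonempty_interior_of_iUnion_of_closed hclosed hunion
  obtain ⟨F2, u, hu1, hu2⟩ := isOpen_pi_iff.mp isOpen_interior g0 hg0
  refine ⟨P, F1 ∪ F2, cut g0, hcut_norm g0, hcut_zero g0, ?_⟩
  intro f hf1 hf2 hf3 e hea heF w
  let k : ℕ → B := fun e => if e ∈ a then ⟨f e, mem_closedBall_zero_iff.mpr (hf1 e)⟩ else g0 e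
  have hkcut : cut k = f := by
    funext e
    by_cases he : e ∈ a
    · simp only [cut, k, if_pos he]
    · simp only [cut, if_neg he]
      exact (hf2 e he).symm
  have hk : k ∈ S (P, F1) := by
    refine interior_subset (hu2 ?_)
    intro e he
    by_cases hea : e ∈ a
    · have h1 : k e = g0 e := by
        apply Subtype.ext
        simp only [k, if_pos hea]
        rw [hf3 e (Finset.mem_union_right _ he)]
        simp only [cut, if_pos hea]
      rw [h1]
      exact (hu1 e he).2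
    · have h1 : k e = g0 e := by
        simp only [k, if_neg hea]
      rw [h1]
      exact (hu1 e he).2
  have := hk e hea (fun h => heF (Finset.mem_union_left _ h)) w
  rw [hkcut] at this
  exact this

end PBA

namespace PKE

def OffSmall (M : Mat) (a : Set ℕ) (F : Finset ℕ) (e : ℕ) (ε : ℝ) : Prop :=
  ∀ (u : Wd) (f : ℕ → CD), (∀ e', ‖f e'‖ ≤ 1) → (∀ e', (e' ∉ a ∨ e' ∈ F ∨ e' = e) → f e' = 0) →
    |∑' e', (M e e' (f e')) (app u ystar)| ≤ ε

theorem summ {M : Mat} {C : ℝ} (hM : RowBd M C) (e : ℕ) (y : Dl) (f : ℕ → CD) (hf : ∀ e', ‖f e'‖ ≤ 1) :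
    Summable (fun e' => (M e e' (f e')) y) := by
  have h : Summable (fun e' => |(M e e' (f e')) y|) :=
    summable_of_sum_le (fun _ => abs_nonneg _) (fun s => hM e y s f hf)
  exact h.of_abs

theorem app_split (N : ℕ) : ∀ y : Dl, ∃ (v : Wd) (z : Dl), v.length = N ∧ app v z = y := by
  induction N with
  | zero => intro y; exact ⟨[], y, rfl, rfl⟩
  | succ N ih =>
    intro y
    obtain ⟨v, z, h1, h2⟩ := ih (tl y)
    refine ⟨y 0 :: v, z, by simp [h1], ?_⟩
    rw [app_cons, h2, cons_tl]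

/-- key lemma; the hypotheses hbumps, hloc, htable, hbaire are proved elsewhere -/
theorem key
    (hbumps : ∀ Q : Finset Wd, ∃ φ : Wd → CD,
      (∀ w ∈ Q, ∀ w' ∈ Q, φ w (app w' ystar) = if w = w' then 1 else 0) ∧
      ∀ (t : Wd → ℝ) (B : ℝ), 0 ≤ B → (∀ w ∈ Q, |t w| ≤ B) → ‖∑ w ∈ Q, t w • φ w‖ ≤ B)
    (hloc : ∀ P : Ex, ∃ N : ℕ, ∀ v : Wd, v.length = N → ∃ Q : Finset Wd, ∃ p : (Wd → ℝ) → ℝ,
      (∀ t t' : Wd → ℝ, (∀ w ∈ Q, t w = t' w) → p t = p t') ∧
      ∀ (h : CD) (z : Dl), P.ev h (app v z) = p (fun w => h (app w z)))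
    (htable : ∀ (N : ℕ) (Q : Wd → Finset Wd) (c : Wd → Wd → ℝ), ∃ tb : Tb,
      ∀ (h : CD) (z : Dl) (v : Wd), v.length = N →
        opD tb h (app v z) = ∑ w ∈ Q v, c v w * h (app w z))
    (M : Mat) (C : ℝ) (hM : RowBd M C) (a : Set ℕ) (ε : ℝ) (hε : 0 < ε)
    (hbaire : ∃ P : Ex, ∃ F : Finset ℕ, ∃ f0 : ℕ → CD, (∀ e, ‖f0 e‖ ≤ 1) ∧ (∀ e ∉ a, f0 e = 0) ∧
      ∀ f : ℕ → CD, (∀ e, ‖f e‖ ≤ 1) → (∀ e ∉ a, f e = 0) → (∀ e ∈ F, f e = f0 e) →
        ∀ e ∈ a, e ∉ F → ∀ u : Wd,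
          |∑' e', (M e e' (f e')) (app u ystar) - (P.ev (f e)) (app u ystar)| ≤ ε) :
    ∃ c : Tb, ∃ F : Finset ℕ, ∀ e ∈ a, e ∉ F →
      (∀ h : CD, ‖h‖ ≤ 1 → ∀ u : Wd,
        |(M e e h) (app u ystar) - (opD c h) (app u ystar)| ≤ 8 * ε) ∧ OffSmall M a F e ε := by
  classical
  obtain ⟨P, F, f0, hf0, hf0a, hB⟩ := hbaire
  have hoff : ∀ e ∈ a, e ∉ F → OffSmall M a F e ε := by
    intro e he heF u f hf hfz
    set fp : ℕ → CD := fun e' => if e' ∈ F then f0 e' else f e' with hfp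
    set fm : ℕ → CD := fun e' => if e' ∈ F then f0 e' else -f e' with hfm
    have hp1 : ∀ e', ‖fp e'‖ ≤ 1 := by
      intro e'
      simp only [hfp]
      split_ifs
      · exact hf0 e'
      · exact hf e'
    have hm1 : ∀ e', ‖fm e'‖ ≤ 1 := by
      intro e'
      simp only [hfm]
      split_ifs
      · exact hf0 e'
      · rw [norm_neg]; exact hf e'
    have hp2 : ∀ e' ∉ a, fp e' = 0 := by
      intro e' he'
      simp only [hfp]
      split_ifs
      · exact hf0a e' he'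
      · exact hfz e' (Or.inl he')
    have hm2 : ∀ e' ∉ a, fm e' = 0 := by
      intro e' he'
      simp only [hfm]
      split_ifs
      · exact hf0a e' he'
      · rw [hfz e' (Or.inl he'), neg_zero]
    have hp3 : ∀ e' ∈ F, fp e' = f0 e' := fun e' he' => if_pos he'
    have hm3 : ∀ e' ∈ F, fm e' = f0 e' := fun e' he' => if_pos he'
    have b1 := hB fp hp1 hp2 hp3 e he heF u
    have b2 := hB fm hm1 hm2 hm3 e he heF u
    have e1 : fp e = 0 := by
      simp only [hfp, if_neg heF]; exact hfz e (Or.inr (Or.inr rfl))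
    have e2 : fm e = 0 := by
      simp only [hfm, if_neg heF]; rw [hfz e (Or.inr (Or.inr rfl)), neg_zero]
    rw [e1] at b1
    rw [e2] at b2
    have s1 := summ hM e (app u ystar) fp hp1
    have s2 := summ hM e (app u ystar) fm hm1
    have hd : (∑' e', (M e e' (fp e')) (app u ystar)) - (∑' e', (M e e' (fm e')) (app u ystar)) =
        2 * ∑' e', (M e e' (f e')) (app u ystar) := by
      rw [← s1.tsum_sub s2, ← tsum_mul_left]
      congr 1
      funext e'
      by_cases h : e' ∈ F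
      · rw [hp3 e' h, hm3 e' h, hfz e' (Or.inr (Or.inl h))]
        simp
      · have h1 : fp e' = f e' := if_neg h
        have h2 : fm e' = -f e' := if_neg h
        rw [h1, h2]
        simp
        ring
    rw [abs_le] at b1 b2 ⊢
    constructor <;> linarith [b1.1, b1.2, b2.1, b2.2]
  have hdiag : ∀ e ∈ a, e ∉ F → ∀ h : CD, ‖h‖ ≤ 1 → ∀ u : Wd,
      |(M e e h) (app u ystar) - ((P.ev h) (app u ystar) - (P.ev 0) (app u ystar))| ≤ 2 * ε := by
    intro e he heF h hh u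
    set fp : ℕ → CD := fun e' => if e' ∈ F then f0 e' else if e' = e then h else 0 with hfp
    set fm : ℕ → CD := fun e' => if e' ∈ F then f0 e' else 0 with hfm
    have hp1 : ∀ e', ‖fp e'‖ ≤ 1 := by
      intro e'
      simp only [hfp]
      split_ifs
      · exact hf0 e'
      · exact hh
      · simp
    have hm1 : ∀ e', ‖fm e'‖ ≤ 1 := by
      intro e'
      simp only [hfm]
      split_ifs
      · exact hf0 e'
      · simp
    have hp2 : ∀ e' ∉ a, fp e' = 0 := by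
      intro e' he'
      simp only [hfp]
      split_ifs with h1 h2
      · exact hf0a e' he'
      · subst h2; exact absurd he he'
      · rfl
    have hm2 : ∀ e' ∉ a, fm e' = 0 := by
      intro e' he'
      simp only [hfm]
      split_ifs
      · exact hf0a e' he'
      · rfl
    have hp3 : ∀ e' ∈ F, fp e' = f0 e' := fun e' he' => if_pos he'
    have hm3 : ∀ e' ∈ F, fm e' = f0 e' := fun e' he' => if_pos he'
    have b1 := hB fp hp1 hp2 hp3 e he heF u
    have b2 := hB fm hm1 hm2 hm3 e he heF u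
    have e1 : fp e = h := by
      simp only [hfp, if_neg heF, if_true]
    have e2 : fm e = 0 := by
      simp only [hfm, if_neg heF]
    rw [e1] at b1
    rw [e2] at b2
    have s1 := summ hM e (app u ystar) fp hp1
    have s2 := summ hM e (app u ystar) fm hm1
    have hd : (∑' e', (M e e' (fp e')) (app u ystar)) - (∑' e', (M e e' (fm e')) (app u ystar)) =
        (M e e h) (app u ystar) := by
      rw [← s1.tsum_sub s2]
      rw [tsum_eq_single e]
      · rw [e1, e2]; simp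
      · intro e' he'
        by_cases h1 : e' ∈ F
        · rw [hp3 e' h1, hm3 e' h1]; simp
        · have h2 : fp e' = 0 := by simp only [hfp, if_neg h1, if_neg he']
          have h3 : fm e' = 0 := by simp only [hfm, if_neg h1]
          rw [h2, h3]; simp
    rw [abs_le] at b1 b2 ⊢
    constructor <;> linarith [b1.1, b1.2, b2.1, b2.2]
  by_cases hne : ∃ e1 ∈ a, e1 ∉ F
  swap
  · push Not at hne
    exact ⟨0, F, fun e he heF => absurd (hne e he) heF⟩
  obtain ⟨e1, he1, he1F⟩ := hne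
  obtain ⟨N, hN⟩ := hloc P
  have hN' : ∀ v : Wd, ∃ Q : Finset Wd, ∃ p : (Wd → ℝ) → ℝ, v.length = N →
      (∀ t t' : Wd → ℝ, (∀ w ∈ Q, t w = t' w) → p t = p t') ∧
      ∀ (h : CD) (z : Dl), P.ev h (app v z) = p (fun w => h (app w z)) := by
    intro v
    by_cases hv : v.length = N
    · obtain ⟨Q, p, h1, h2⟩ := hN v hv
      exact ⟨Q, p, fun _ => ⟨h1, h2⟩⟩
    · exact ⟨∅, fun _ => 0, fun h => absurd h hv⟩
  choose Q p hQp using hN'
  choose φ hφ1 hφ2 using hbumps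
  set c : Wd → Wd → ℝ := fun v w => (M e1 e1 (φ (Q v) w)) (app v ystar) with hc
  obtain ⟨tb, htb⟩ := htable N Q c
  refine ⟨tb, F, fun e he heF => ⟨?_, hoff e he heF⟩⟩
  intro h hh u
  obtain ⟨v, z, hv, hvz⟩ := app_split N (app u ystar)
  have d1 := hdiag e he heF h hh u
  rw [← hvz] at d1 ⊢
  rw [htb h z v hv]
  set t : Wd → ℝ := fun w => h (app w z) with ht
  have ht1 : ∀ w ∈ Q v, |t w| ≤ 1 := by
    intro w _
    have := (h.norm_coe_le_norm (app w z)).trans hh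
    rwa [Real.norm_eq_abs] at this
  set h' : CD := ∑ w ∈ Q v, t w • φ (Q v) w with hh'
  have hh'1 : ‖h'‖ ≤ 1 := hφ2 (Q v) t 1 zero_le_one ht1
  have d2 := hdiag e1 he1 he1F h' hh'1 v
  have ev1 : (M e1 e1 h') (app v ystar) = ∑ w ∈ Q v, c v w * h (app w z) := by
    rw [hh', map_sum]
    rw [ContinuousMap.coe_sum, Finset.sum_apply]
    apply Finset.sum_congr rfl
    intro w _
    rw [map_smul, ContinuousMap.smul_apply, smul_eq_mul, mul_comm]
  have ev2 : ∀ w ∈ Q v, h' (app w ystar) = t w := by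
    intro w hw
    rw [hh', ContinuousMap.coe_sum, Finset.sum_apply, Finset.sum_eq_single w]
    · rw [ContinuousMap.smul_apply, hφ1 (Q v) w hw w hw, if_pos rfl, smul_eq_mul, mul_one]
    · intro w' hw' hne
      rw [ContinuousMap.smul_apply, hφ1 (Q v) w' hw' w hw, if_neg hne, smul_eq_mul, mul_zero]
    · intro h0; exact absurd hw h0
  have ev3 : (P.ev h') (app v ystar) = (P.ev h) (app v z) := by
    rw [(hQp v hv).2, (hQp v hv).2]
    exact (hQp v hv).1 _ _ ev2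
  have ev4 : (P.ev 0) (app v ystar) = (P.ev 0) (app v z) := by
    rw [(hQp v hv).2, (hQp v hv).2]
    exact (hQp v hv).1 _ _ (fun w _ => rfl)
  rw [ev1, ev3, ev4] at d2
  rw [abs_le] at d1 d2 ⊢
  constructor <;> linarith [d1.1, d1.2, d2.1, d2.2]

end PKE

end Pool.Agent.S03285.CK

end

noncomputable section

open scoped BoundedContinuousFunction Topology Cardinal
open Filter Set

namespace Pool.Agent.S03285.CK

namespace PBS

variable {I : Type} (Φ : Fam I)

theorem A_inter {i j : I} (h : i ≠ j) : (Φ.A i ∩ Φ.A j).Finite := by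
  have h1 : (Φ.a (Φ.x i) ∩ Φ.a (Φ.x j)).Finite := Φ.a_ad _ _ fun he => h (Φ.x_inj he)
  have h2 : (Φ.a (Φ.x i) ∩ Φ.a (Φ.y j)).Finite := Φ.a_ad _ _ (Φ.xy i j)
  have h3 : (Φ.a (Φ.y i) ∩ Φ.a (Φ.x j)).Finite := Φ.a_ad _ _ (Φ.xy j i).symm
  have h4 : (Φ.a (Φ.y i) ∩ Φ.a (Φ.y j)).Finite := Φ.a_ad _ _ fun he => h (Φ.y_inj he)
  refine ((h1.union h2).union (h3.union h4)).subset ?_
  rintro e ⟨h5 | h5, h6 | h6⟩
  · exact Or.inl (Or.inl ⟨h5, h6⟩)
  · exact Or.inl (Or.inr ⟨h5, h6⟩)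
  · exact Or.inr (Or.inl ⟨h5, h6⟩)
  · exact Or.inr (Or.inr ⟨h5, h6⟩)

theorem A_inf (i : I) : (Φ.A i).Infinite := (Φ.a_inf _).mono subset_union_left

theorem exists_off (t : Finset I) (F : Finset ℕ) : ∃ e, e ∉ F ∧ ∀ i ∈ t, e ∉ Φ.A i := by
  classical
  obtain ⟨z, hz⟩ := Infinite.exists_notMem_finset (t.image Φ.x ∪ t.image Φ.y)
  have hz1 : ∀ i ∈ t, z ≠ Φ.x i := fun i hi he =>
    hz (Finset.mem_union_left _ (Finset.mem_image.mpr ⟨i, hi, he.symm⟩))
  have hz2 : ∀ i ∈ t, z ≠ Φ.y i := fun i hi he =>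
    hz (Finset.mem_union_right _ (Finset.mem_image.mpr ⟨i, hi, he.symm⟩))
  have hfin : ((F : Set ℕ) ∪ ⋃ i ∈ t, (Φ.a z ∩ Φ.A i)).Finite := by
    refine F.finite_toSet.union ?_
    refine t.finite_toSet.biUnion fun i hi => ?_
    have e1 := Φ.a_ad z (Φ.x i) (hz1 i hi)
    have e2 := Φ.a_ad z (Φ.y i) (hz2 i hi)
    refine (e1.union e2).subset ?_
    rintro e ⟨h5, h6 | h6⟩
    · exact Or.inl ⟨h5, h6⟩
    · exact Or.inr ⟨h5, h6⟩
  obtain ⟨e, he, hn⟩ := ((Φ.a_inf z).diff hfin).nonempty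
  refine ⟨e, fun h => hn (Or.inl h), fun i hi hA => hn (Or.inr ?_)⟩
  exact Set.mem_biUnion hi ⟨he, hA⟩

theorem Lim_unique {k : ℕ → CD} {c c' : CD} (h : Φ.Lim k c) (h' : Φ.Lim k c') : c = c' := by
  classical
  apply eq_of_forall_dist_le
  intro ε hε
  obtain ⟨t, F, H⟩ := h (ε / 2) (half_pos hε)
  obtain ⟨t', F', H'⟩ := h' (ε / 2) (half_pos hε)
  obtain ⟨e, he, hA⟩ := exists_off Φ (t ∪ t') (F ∪ F')
  have h1 := H e (fun h => he (Finset.mem_union_left _ h)) (fun i hi => hA i (Finset.mem_union_left _ hi))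
  have h2 := H' e (fun h => he (Finset.mem_union_right _ h)) (fun i hi => hA i (Finset.mem_union_right _ hi))
  rw [← dist_eq_norm] at h1 h2
  calc dist c c' ≤ dist (k e) c + dist (k e) c' := dist_triangle_left _ _ _
    _ ≤ ε := by linarith

theorem Lim_norm {k : ℕ → CD} {c : CD} (h : Φ.Lim k c) (B : ℝ) (hB : ∀ e, ‖k e‖ ≤ B) :
    ‖c‖ ≤ B := by
  apply le_of_forall_pos_le_add
  intro ε hε
  obtain ⟨t, F, H⟩ := h ε hε
  obtain ⟨e, he, hA⟩ := exists_off Φ t F
  have h1 := H e he hA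
  have h2 : ‖c‖ ≤ ‖k e‖ + ‖k e - c‖ := by
    have : c = k e - (k e - c) := by abel
    calc ‖c‖ = ‖k e - (k e - c)‖ := by rw [← this]
      _ ≤ ‖k e‖ + ‖k e - c‖ := norm_sub_le _ _
  linarith [hB e]

end PBS

namespace PCL

variable {I : Type} (Φ : Fam I)

theorem isClosed_XS (hnorm : ∀ (k : ℕ → CD) (c : CD) (B : ℝ), Φ.Lim k c → (∀ e, ‖k e‖ ≤ B) → ‖c‖ ≤ B) :
    IsClosed (XS Φ : Set BB) := by
  refine isClosed_of_closure_subset fun k hk => ?_
  have hk' : ∀ ε > 0, ∃ k1 ∈ XS Φ, ‖k - k1‖ < ε := by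
    intro ε hε
    obtain ⟨k1, h1, h2⟩ := Metric.mem_closure_iff.mp hk ε hε
    exact ⟨k1, h1, by rw [← dist_eq_norm]; exact h2⟩
  have hpt : ∀ (a b : BB) (e : ℕ), ‖a e - b e‖ ≤ ‖a - b‖ := fun a b e => (a - b).norm_apply_le e
  show Φ.Mem k
  refine ⟨?_, ?_⟩
  · have hn : ∀ n : ℕ, ∃ k1 ∈ XS Φ, ‖k - k1‖ < 1 / ((n : ℝ) + 1) := fun n =>
      hk' _ (by positivity)
    choose u huX hu using hn
    have hc : ∀ n, ∃ c, Φ.Lim (u n) c := fun n => (huX n).1
    choose c hc using hc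
    have hcc : ∀ n m, ‖c n - c m‖ ≤ ‖u n - u m‖ := by
      intro n m
      have h1 := Fam.Lim.add Φ (hc n) (Fam.Lim.smul Φ (-1) (hc m))
      have h2 := hnorm _ _ ‖u n - u m‖ h1 (fun e => by
        have h3 : (u n) e + (-1 : ℝ) • (u m) e = (u n) e - (u m) e := by
          rw [neg_one_smul, sub_eq_add_neg]
        rw [h3]
        exact hpt _ _ e)
      rw [neg_one_smul, ← sub_eq_add_neg] at h2
      exact h2
    have hcau : CauchySeq c := by
      refine cauchySeq_of_le_tendsto_0 (fun N : ℕ => 1 / ((N : ℝ) + 1) + 1 / ((N : ℝ) + 1)) ?_ ?_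
      · intro n m N hnN hmN
        rw [dist_eq_norm]
        refine (hcc n m).trans ?_
        have h1 : u n - u m = (k - u m) - (k - u n) := by abel
        rw [h1]
        refine (norm_sub_le _ _).trans ?_
        have h2 : (1:ℝ) / ((n : ℝ) + 1) ≤ 1 / ((N : ℝ) + 1) := by
          have : (N : ℝ) ≤ n := by exact_mod_cast hnN
          exact one_div_le_one_div_of_le (by positivity) (by linarith)
        have h3 : (1:ℝ) / ((m : ℝ) + 1) ≤ 1 / ((N : ℝ) + 1) := by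
          have : (N : ℝ) ≤ m := by exact_mod_cast hmN
          exact one_div_le_one_div_of_le (by positivity) (by linarith)
        have h4 := hu n
        have h5 := hu m
        linarith
      · have h := (tendsto_one_div_add_atTop_nhds_zero_nat (𝕜 := ℝ)).add
          (tendsto_one_div_add_atTop_nhds_zero_nat (𝕜 := ℝ))
        rw [add_zero] at h
        exact h
    obtain ⟨c', hc'⟩ := cauchySeq_tendsto_of_complete hcau
    refine ⟨c', fun ε hε => ?_⟩
    have he3 : 0 < ε / 3 := by positivity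
    have h1 : ∀ᶠ n in Filter.atTop, dist (c n) c' < ε / 3 := (Metric.tendsto_nhds.mp hc') _ he3
    have h2 : ∀ᶠ n : ℕ in Filter.atTop, 1 / ((n : ℝ) + 1) < ε / 3 :=
      (tendsto_one_div_add_atTop_nhds_zero_nat (𝕜 := ℝ)).eventually (gt_mem_nhds he3)
    obtain ⟨n, hn1, hn2⟩ := (h1.and h2).exists
    obtain ⟨t, F, H⟩ := hc n (ε / 3) he3
    refine ⟨t, F, fun e he ht => ?_⟩
    have h3 := H e he ht
    have h4 := hpt k (u n) e
    have h5 := hu n
    rw [dist_eq_norm] at hn1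
    calc ‖k e - c'‖ = ‖(k e - (u n) e) + (((u n) e - c n) + (c n - c'))‖ := by congr 1; abel
      _ ≤ ‖k e - (u n) e‖ + (‖(u n) e - c n‖ + ‖c n - c'‖) :=
        (norm_add_le _ _).trans (add_le_add le_rfl (norm_add_le _ _))
      _ ≤ ε := by linarith
  · intro i ε hε
    obtain ⟨k1, hk1, hlt⟩ := hk' (ε / 2) (by positivity)
    obtain ⟨P, F, H⟩ := hk1.2 i (ε / 2) (by positivity)
    refine ⟨P, F, fun e he hF => ?_⟩
    have h3 := H e he hF
    have h4 := hpt k k1 e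
    calc ‖k e - P.ev (Φ.g i e)‖ = ‖(k e - k1 e) + (k1 e - P.ev (Φ.g i e))‖ := by congr 1; abel
      _ ≤ ‖k e - k1 e‖ + ‖k1 e - P.ev (Φ.g i e)‖ := norm_add_le _ _
      _ ≤ ε := by linarith

end PCL

namespace PCO

variable {I : Type} (Φ : Fam I)

/-- the indicator of `{y | y n = i}` as an expression -/
def cylE : ℕ → Fin 3 → Ex
  | 0, i => .push i (.cst 1)
  | n + 1, i => .add (.add (.push 0 (cylE n i)) (.push 1 (cylE n i))) (.push 2 (cylE n i))

theorem cylE_ev (n : ℕ) (i : Fin 3) (k : CD) (y : Dl) :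
    (cylE n i).ev k y = if y n = i then 1 else 0 := by
  induction n generalizing y with
  | zero =>
    simp [cylE, Ex.ev, pushC_apply]
  | succ n ih =>
    have h3 : y 0 = 0 ∨ y 0 = 1 ∨ y 0 = 2 := by
      generalize y 0 = z
      fin_cases z <;> simp
    simp only [cylE, Ex.ev, ContinuousMap.add_apply, pushC_apply, ih]
    rcases h3 with h | h | h <;> simp [h, tl] <;> rfl

/-- approximable by closed expressions -/
def Clo (h : CD) : Prop := ∀ ε > 0, ∃ P : Ex, (∀ k k' : CD, P.ev k = P.ev k') ∧ ‖h - P.ev 0‖ ≤ ε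

theorem Clo.add {a b : CD} (ha : Clo a) (hb : Clo b) : Clo (a + b) := by
  intro ε hε
  obtain ⟨P, hP, h1⟩ := ha (ε / 2) (half_pos hε)
  obtain ⟨Q, hQ, h2⟩ := hb (ε / 2) (half_pos hε)
  refine ⟨.add P Q, fun k k' => ?_, ?_⟩
  · simp only [Ex.ev]
    rw [hP k k', hQ k k']
  · simp only [Ex.ev]
    calc ‖a + b - (P.ev 0 + Q.ev 0)‖ = ‖(a - P.ev 0) + (b - Q.ev 0)‖ := by congr 1; abel
      _ ≤ ‖a - P.ev 0‖ + ‖b - Q.ev 0‖ := norm_add_le _ _
      _ ≤ ε := by linarith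

theorem Clo.mul {a b : CD} (ha : Clo a) (hb : Clo b) : Clo (a * b) := by
  intro ε hε
  obtain ⟨P, hP, h1⟩ := ha (min 1 (ε / (2 * (‖b‖ + 1)))) (by positivity)
  obtain ⟨Q, hQ, h2⟩ := hb (ε / (2 * (‖a‖ + 1))) (by positivity)
  refine ⟨.mul P Q, fun k k' => ?_, ?_⟩
  · simp only [Ex.ev]
    rw [hP k k', hQ k k']
  · simp only [Ex.ev]
    have hP1 : ‖P.ev 0‖ ≤ ‖a‖ + 1 := by
      have h3 : ‖P.ev 0‖ ≤ ‖a‖ + ‖a - P.ev 0‖ := by
        have := norm_sub_le a (a - P.ev 0)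
        rwa [sub_sub_cancel] at this
      have h4 := h1.trans (min_le_left _ _)
      linarith
    have h5 := h1.trans (min_le_right _ _)
    calc ‖a * b - P.ev 0 * Q.ev 0‖ = ‖(a - P.ev 0) * b + P.ev 0 * (b - Q.ev 0)‖ := by
          congr 1; ring
      _ ≤ ‖(a - P.ev 0) * b‖ + ‖P.ev 0 * (b - Q.ev 0)‖ := norm_add_le _ _
      _ ≤ ‖a - P.ev 0‖ * ‖b‖ + ‖P.ev 0‖ * ‖b - Q.ev 0‖ :=
          add_le_add (norm_mul_le _ _) (norm_mul_le _ _)
      _ ≤ (ε / (2 * (‖b‖ + 1))) * ‖b‖ + (‖a‖ + 1) * (ε / (2 * (‖a‖ + 1))) := by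
          gcongr
      _ ≤ ε / 2 + ε / 2 := by
          gcongr
          · rw [div_mul_eq_mul_div, div_le_iff₀ (by positivity)]
            nlinarith [norm_nonneg b]
          · apply le_of_eq
            field_simp
      _ = ε := by ring

theorem Clo.const (r : ℝ) : Clo (algebraMap ℝ CD r) := by
  intro ε hε
  obtain ⟨q, hq⟩ := exists_rat_close r ε hε
  refine ⟨.cst q, fun k k' => rfl, ?_⟩
  refine (ContinuousMap.norm_le _ hε.le).2 fun y => ?_
  have : (algebraMap ℝ CD r - (Ex.cst q).ev 0) y = r - q := by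
    simp [Ex.ev]
  rw [this]
  exact hq

/-- the subalgebra of approximable functions -/
def CloA : Subalgebra ℝ CD where
  carrier := {h | Clo h}
  mul_mem' := fun ha hb => Clo.mul ha hb
  add_mem' := fun ha hb => Clo.add ha hb
  algebraMap_mem' := Clo.const

theorem CloA_sep : CloA.SeparatesPoints := by
  intro x y hxy
  obtain ⟨n, hn⟩ := Function.ne_iff.1 hxy
  refine ⟨((cylE n (x n)).ev 0 : CD), ⟨(cylE n (x n)).ev 0, ?_, rfl⟩, ?_⟩
  · show Clo _
    intro ε hε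
    refine ⟨cylE n (x n), fun k k' => ?_, ?_⟩
    · ext z
      rw [cylE_ev, cylE_ev]
    · rw [sub_self, norm_zero]
      exact hε.le
  · rw [cylE_ev, cylE_ev, if_pos rfl, if_neg (fun h => hn h.symm)]
    exact one_ne_zero

theorem closed_expr_dense (h : CD) (ε : ℝ) (hε : 0 < ε) :
    ∃ P : Ex, (∀ k k' : CD, P.ev k = P.ev k') ∧ ‖h - P.ev 0‖ ≤ ε := by
  have htop := ContinuousMap.subalgebra_topologicalClosure_eq_top_of_separatesPoints CloA CloA_sep
  have hmem : h ∈ CloA.topologicalClosure := by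
    rw [htop]
    trivial
  have hcl : h ∈ closure (CloA : Set CD) := hmem
  obtain ⟨a, ha, hda⟩ := Metric.mem_closure_iff.1 hcl (ε / 2) (half_pos hε)
  obtain ⟨P, hP, h1⟩ := (show Clo a from ha) (ε / 2) (half_pos hε)
  refine ⟨P, hP, ?_⟩
  rw [dist_eq_norm] at hda
  calc ‖h - P.ev 0‖ = ‖(h - a) + (a - P.ev 0)‖ := by congr 1; abel
    _ ≤ ‖h - a‖ + ‖a - P.ev 0‖ := norm_add_le _ _
    _ ≤ ε := by linarith

theorem cst_mem (h : CD) : cst h ∈ XS Φ := by
  refine ⟨⟨h, fun ε hε => ⟨∅, ∅, fun e _ _ => ?_⟩⟩, fun i ε hε => ?_⟩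
  · rw [cst_apply, sub_self, norm_zero]
    exact hε.le
  · obtain ⟨P, hP, h1⟩ := closed_expr_dense h ε hε
    refine ⟨P, ∅, fun e _ _ => ?_⟩
    rw [cst_apply, hP (Φ.g i e) 0]
    exact h1

theorem ind_mem (i : I) (h : CD) (hA : ∀ i j, i ≠ j → (Φ.A i ∩ Φ.A j).Finite) :
    restr (Φ.A i) (cst h) ∈ XS Φ ∧ Φ.Lim (restr (Φ.A i) (cst h)) 0 := by
  classical
  have hLim : Φ.Lim (restr (Φ.A i) (cst h)) 0 := by
    intro ε hε
    refine ⟨{i}, ∅, fun e _ he => ?_⟩
    have h1 := he i (Finset.mem_singleton_self i)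
    rw [restr_apply, if_neg h1, sub_zero, norm_zero]
    exact hε.le
  refine ⟨⟨⟨0, hLim⟩, fun j ε hε => ?_⟩, hLim⟩
  by_cases hij : i = j
  · subst hij
    obtain ⟨P, hP, h1⟩ := closed_expr_dense h ε hε
    refine ⟨P, ∅, fun e he _ => ?_⟩
    rw [restr_apply, if_pos he, cst_apply, hP (Φ.g i e) 0]
    exact h1
  · refine ⟨.cst 0, (hA i j hij).toFinset, fun e he hF => ?_⟩
    have h1 : e ∉ Φ.A i := fun h2 => hF ((Set.Finite.mem_toFinset _).2 ⟨h2, he⟩)
    rw [restr_apply, if_neg h1]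
    have h3 : (Ex.cst 0).ev (Φ.g j e) = 0 := by ext y; simp [Ex.ev]
    rw [h3, sub_zero, norm_zero]
    exact hε.le

end PCO

namespace PMU

variable {I : Type} (Φ : Fam I)

theorem one_mem_XS : (1 : BB) ∈ XS Φ := by
  rw [mem_XS]
  refine ⟨⟨1, fun ε hε => ⟨∅, ∅, fun e _ _ => ?_⟩⟩, fun i ε hε => ⟨.cst 1, ∅, fun e _ _ => ?_⟩⟩
  · rw [BB.one_apply, sub_self, norm_zero]; exact hε.le
  · have : (Ex.cst 1).ev (Φ.g i e) = 1 := by ext y; simp [Ex.ev]
    rw [this, BB.one_apply, sub_self, norm_zero]; exact hε.le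

theorem mul_close {a b a' b' : CD} {B B' ε : ℝ} (hε : 0 < ε) (ha : ‖a‖ ≤ B) (ha' : ‖a'‖ ≤ B')
    (h1 : ‖a - b‖ ≤ min 1 (ε / (2 * (B' + 1)))) (h2 : ‖a' - b'‖ ≤ ε / (2 * (B + 2))) :
    ‖a * a' - b * b'‖ ≤ ε := by
  have hB : 0 ≤ B := (norm_nonneg _).trans ha
  have hB' : 0 ≤ B' := (norm_nonneg _).trans ha'
  have h3 : ‖a - b‖ ≤ 1 := h1.trans (min_le_left _ _)
  have h4 : ‖a - b‖ ≤ ε / (2 * (B' + 1)) := h1.trans (min_le_right _ _)
  have h5 : ‖b‖ ≤ B + 1 := by
    calc ‖b‖ = ‖a - (a - b)‖ := by congr 1; abel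
      _ ≤ ‖a‖ + ‖a - b‖ := norm_sub_le _ _
      _ ≤ B + 1 := by linarith
  calc ‖a * a' - b * b'‖ = ‖(a - b) * a' + b * (a' - b')‖ := by congr 1; ring
    _ ≤ ‖(a - b) * a'‖ + ‖b * (a' - b')‖ := norm_add_le _ _
    _ ≤ ‖a - b‖ * ‖a'‖ + ‖b‖ * ‖a' - b'‖ := add_le_add (norm_mul_le _ _) (norm_mul_le _ _)
    _ ≤ (ε / (2 * (B' + 1))) * B' + (B + 1) * (ε / (2 * (B + 2))) := by
        gcongr
    _ ≤ ε / 2 + ε / 2 := by
        gcongr
        · rw [div_mul_eq_mul_div, div_le_iff₀ (by positivity)]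
          nlinarith
        · rw [mul_div_assoc', div_le_iff₀ (by positivity)]
          nlinarith
    _ = ε := by ring

theorem mul_mem_XS {k k' : BB} (hk : k ∈ XS Φ) (hk' : k' ∈ XS Φ) : k * k' ∈ XS Φ := by
  classical
  rw [mem_XS] at hk hk' ⊢
  obtain ⟨⟨c, hc⟩, ha⟩ := hk
  obtain ⟨⟨c', hc'⟩, ha'⟩ := hk'
  have hn : 0 ≤ ‖k‖ := norm_nonneg _
  have hn' : 0 ≤ ‖k'‖ := norm_nonneg _
  refine ⟨⟨c * c', ?_⟩, ?_⟩
  · intro ε hε
    obtain ⟨t, F, H⟩ := hc (min 1 (ε / (2 * (‖k'‖ + 1)))) (lt_min one_pos (by positivity))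
    obtain ⟨t', F', H'⟩ := hc' (ε / (2 * (‖k‖ + 2))) (by positivity)
    refine ⟨t ∪ t', F ∪ F', fun e he ht => ?_⟩
    have h1 := H e (fun h => he (Finset.mem_union_left _ h))
      (fun i hi => ht i (Finset.mem_union_left _ hi))
    have h2 := H' e (fun h => he (Finset.mem_union_right _ h))
      (fun i hi => ht i (Finset.mem_union_right _ hi))
    rw [BB.mul_apply]
    exact mul_close hε (k.norm_apply_le e) (k'.norm_apply_le e) h1 h2
  · intro i ε hε
    obtain ⟨P, F, H⟩ := ha i (min 1 (ε / (2 * (‖k'‖ + 1)))) (lt_min one_pos (by positivity))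
    obtain ⟨P', F', H'⟩ := ha' i (ε / (2 * (‖k‖ + 2))) (by positivity)
    refine ⟨.mul P P', F ∪ F', fun e he hF => ?_⟩
    have h1 := H e he (fun h => hF (Finset.mem_union_left _ h))
    have h2 := H' e he (fun h => hF (Finset.mem_union_right _ h))
    rw [BB.mul_apply]
    exact mul_close hε (k.norm_apply_le e) (k'.norm_apply_le e) h1 h2

theorem hat_mem_of (t : CD →L[ℝ] CD) (ht : ∀ h, ‖t h‖ ≤ ‖h‖) (E : Ex → Ex)
    (hE : ∀ P h, (E P).ev h = t (P.ev h)) {k : BB} (hk : k ∈ XS Φ) : hat t k ∈ XS Φ := by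
  rw [mem_XS] at hk ⊢
  obtain ⟨⟨c, hc⟩, ha⟩ := hk
  refine ⟨⟨t c, ?_⟩, ?_⟩
  · intro ε hε
    obtain ⟨s, F, H⟩ := hc ε hε
    refine ⟨s, F, fun e he hs => ?_⟩
    rw [hat_apply, ← map_sub]
    exact (ht _).trans (H e he hs)
  · intro i ε hε
    obtain ⟨P, F, H⟩ := ha i ε hε
    refine ⟨E P, F, fun e he hF => ?_⟩
    rw [hat_apply, hE, ← map_sub]
    exact (ht _).trans (H e he hF)

theorem hat_pull_mem (i : Fin 3) {k : BB} (hk : k ∈ XS Φ) : hat (pullC i) k ∈ XS Φ := by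
  refine hat_mem_of Φ (pullC i) ?_ (Ex.pull i) (fun _ _ => rfl) hk
  intro h
  exact (ContinuousMap.norm_le _ (norm_nonneg _)).2 fun y => h.norm_coe_le_norm _

theorem hat_push_mem (i : Fin 3) {k : BB} (hk : k ∈ XS Φ) : hat (pushC i) k ∈ XS Φ := by
  refine hat_mem_of Φ (pushC i) ?_ (Ex.push i) (fun _ _ => rfl) hk
  intro h
  refine (ContinuousMap.norm_le _ (norm_nonneg _)).2 fun y => ?_
  rw [pushC_apply]
  split_ifs
  · exact h.norm_coe_le_norm _
  · rw [norm_zero]; exact norm_nonneg _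

theorem hat_pushW_mem (u : Wd) {k : BB} (hk : k ∈ XS Φ) : hat (pushW u) k ∈ XS Φ := by
  induction u with
  | nil =>
    have : hat (pushW []) k = k := BB.ext fun e => rfl
    rw [this]; exact hk
  | cons i u ih =>
    have : hat (pushW (i :: u)) k = hat (pushC i) (hat (pushW u) k) := BB.ext fun e => rfl
    rw [this]; exact hat_push_mem Φ i ih

theorem hat_pullW_mem (u : Wd) : ∀ {k : BB}, k ∈ XS Φ → hat (pullW u) k ∈ XS Φ := by
  induction u with
  | nil =>
    intro k hk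
    have : hat (pullW []) k = k := BB.ext fun e => rfl
    rw [this]; exact hk
  | cons i u ih =>
    intro k hk
    have : hat (pullW (i :: u)) k = hat (pullW u) (hat (pullC i) k) := BB.ext fun e => rfl
    rw [this]; exact ih (hat_pull_mem Φ i hk)

theorem hat_opD_mem (c : Tb) {k : BB} (hk : k ∈ XS Φ) : hat (opD c) k ∈ XS Φ := by
  have h1 : hat (opD c) k = ∑ p ∈ c.support, c p • hat (pushW p.1) (hat (pullW p.2) k) := by
    apply BB.ext
    intro e
    have h2 : (∑ p ∈ c.support, c p • hat (pushW p.1) (hat (pullW p.2) k) : BB) e =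
        BB.evalL e (∑ p ∈ c.support, c p • hat (pushW p.1) (hat (pullW p.2) k)) := rfl
    rw [h2, map_sum, hat_apply, opD, Finsupp.sum]
    rw [ContinuousLinearMap.sum_apply]
    rfl
  rw [h1]
  refine Submodule.sum_mem _ fun p _ => Submodule.smul_mem _ _ ?_
  exact hat_pushW_mem Φ p.1 (hat_pullW_mem Φ p.2 hk)

end PMU

namespace PRE

variable {I : Type} (Φ : Fam I)

theorem restr_Lim (s : Set ℕ) {k : BB} (h0 : Φ.Lim k 0) : Φ.Lim (restr s k) 0 := by
  classical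
  intro ε hε
  obtain ⟨t, F, H⟩ := h0 ε hε
  refine ⟨t, F, fun e he ht => ?_⟩
  have h1 := H e he ht
  rw [sub_zero] at h1 ⊢
  rw [restr_apply]
  split_ifs
  · exact h1
  · rw [norm_zero]; exact hε.le

theorem Ap_congr_fin {k k' : ℕ → CD} {i : I} (h : Φ.Ap k' i) (G : Set ℕ) (hG : G.Finite)
    (hkk : ∀ e ∈ Φ.A i, e ∉ G → k e = k' e) : Φ.Ap k i := by
  classical
  intro ε hε
  obtain ⟨P, F, H⟩ := h ε hε
  refine ⟨P, F ∪ hG.toFinset, fun e he hF => ?_⟩
  have h1 : e ∉ F := fun h => hF (Finset.mem_union_left _ h)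
  have h2 : e ∉ G := fun h => hF (Finset.mem_union_right _ (hG.mem_toFinset.mpr h))
  rw [hkk e he h2]
  exact H e he h1

theorem inter_fin (hA : ∀ i j, i ≠ j → (Φ.A i ∩ Φ.A j).Finite) (t : Finset I) (F : Finset ℕ)
    (j : I) (hj : j ∉ t) : (Φ.A j ∩ ((F : Set ℕ) ∪ ⋃ i ∈ t, Φ.A i)).Finite := by
  rw [Set.inter_union_distrib_left]
  refine Set.Finite.union (F.finite_toSet.subset Set.inter_subset_right) ?_
  rw [Set.inter_iUnion₂]
  refine Set.Finite.biUnion t.finite_toSet fun i hi => ?_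
  exact hA j i (fun h => hj (h ▸ hi))

theorem restr_mem (hA : ∀ i j, i ≠ j → (Φ.A i ∩ Φ.A j).Finite) {k : BB} (hk : k ∈ XS Φ)
    (h0 : Φ.Lim k 0) (t : Finset I) (F : Finset ℕ) :
    restr ((F : Set ℕ) ∪ ⋃ i ∈ t, Φ.A i) k ∈ XS Φ := by
  classical
  rw [mem_XS] at hk ⊢
  refine ⟨⟨0, restr_Lim Φ _ h0⟩, fun j => ?_⟩
  by_cases hj : j ∈ t
  · refine Ap_congr_fin Φ (hk.2 j) ∅ Set.finite_empty fun e he _ => ?_
    rw [restr_apply, if_pos]
    exact Or.inr (Set.mem_iUnion₂.mpr ⟨j, hj, he⟩)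
  · refine Ap_congr_fin Φ (Fam.Ap.zero Φ j) _ (inter_fin Φ hA t F j hj) fun e he hn => ?_
    rw [restr_apply, if_neg]
    exact fun h => hn ⟨he, h⟩

/-- sets of the form (member of `A i`) minus (finite set and finitely many other `A j`) -/
theorem restr_mem' (hA : ∀ i j, i ≠ j → (Φ.A i ∩ Φ.A j).Finite) {k : BB} (hk : k ∈ XS Φ)
    (h0 : Φ.Lim k 0) (i : I) (t : Finset I) (F : Finset ℕ) :
    restr (Φ.A i \ ((F : Set ℕ) ∪ ⋃ j ∈ t, Φ.A j)) k ∈ XS Φ := by
  classical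
  rw [mem_XS] at hk ⊢
  refine ⟨⟨0, restr_Lim Φ _ h0⟩, fun j => ?_⟩
  by_cases hi : i ∈ t
  · refine Ap_congr_fin Φ (Fam.Ap.zero Φ j) ∅ Set.finite_empty fun e he _ => ?_
    rw [restr_apply, if_neg]
    rintro ⟨h1, h2⟩
    exact h2 (Or.inr (Set.mem_iUnion₂.mpr ⟨i, hi, h1⟩))
  · by_cases hj : j = i
    · subst hj
      refine Ap_congr_fin Φ (hk.2 j) _ (inter_fin Φ hA t F j hi) fun e he hn => ?_
      rw [restr_apply, if_pos]
      exact ⟨he, fun h => hn ⟨he, h⟩⟩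
    · refine Ap_congr_fin Φ (Fam.Ap.zero Φ j) _ (hA j i hj) fun e he hn => ?_
      rw [restr_apply, if_neg]
      rintro ⟨h1, -⟩
      exact hn ⟨he, h1⟩

end PRE

end Pool.Agent.S03285.CK

end

noncomputable section

open scoped BoundedContinuousFunction Topology Cardinal
open Filter Set

namespace Pool.Agent.S03285.CK

namespace PDE

variable {I : Type} (Φ : Fam I)

/-- codes -/
abbrev Code (J : Set I) : Type := List (J × Ex) × Finset ℕ × (ℕ →₀ ℕ) × ℕ

theorem code_card (J : Set I) (hJ : #J < 𝔠) : #(Code J) < 𝔠 := by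
  have h0 : (ℵ₀ : Cardinal) < 𝔠 := Cardinal.aleph0_lt_continuum
  have hE : #Ex < 𝔠 := lt_of_le_of_lt (Cardinal.mk_le_aleph0_iff.2 inferInstance) h0
  have h1 : #(J × Ex) < 𝔠 := by
    rw [Cardinal.mk_prod, Cardinal.lift_id, Cardinal.lift_id]
    exact Cardinal.mul_lt_of_lt h0.le hJ hE
  have h2 : #(List (J × Ex)) < 𝔠 :=
    lt_of_le_of_lt (Cardinal.mk_list_le_max _) (max_lt h0 h1)
  have h3 : #(Finset ℕ × (ℕ →₀ ℕ) × ℕ) < 𝔠 :=
    lt_of_le_of_lt (Cardinal.mk_le_aleph0_iff.2 inferInstance) h0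
  show #(List (J × Ex) × (Finset ℕ × (ℕ →₀ ℕ) × ℕ)) < 𝔠
  rw [Cardinal.mk_prod, Cardinal.lift_id, Cardinal.lift_id]
  exact Cardinal.mul_lt_of_lt h0.le h2 h3

/-- matching of a code -/
def Matches (J : Set I) (q : ℕ → CD) (c : Code J) (k : ℕ → CD) : Prop :=
  (∀ e ∈ c.2.1, ‖k e - q (c.2.2.1 e)‖ ≤ 1 / ((c.2.2.2 : ℝ) + 1)) ∧
  (∀ e, e ∉ c.2.1 → (∀ p ∈ c.1, e ∉ Φ.A (p.1 : I)) → ‖k e‖ ≤ 1 / ((c.2.2.2 : ℝ) + 1)) ∧
  (∀ e, e ∉ c.2.1 → ∀ p ∈ c.1, e ∈ Φ.A (p.1 : I) →
    ‖k e - p.2.ev (Φ.g (p.1 : I) e)‖ ≤ 1 / ((c.2.2.2 : ℝ) + 1))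

theorem Matches.close {J : Set I} {q : ℕ → CD} {c : Code J} {k d : ℕ → CD}
    (hk : Matches Φ J q c k) (hd : Matches Φ J q c d) (e : ℕ) :
    ‖k e - d e‖ ≤ 2 * (1 / ((c.2.2.2 : ℝ) + 1)) := by
  set κ := 1 / ((c.2.2.2 : ℝ) + 1) with hκ
  obtain ⟨hk1, hk2, hk3⟩ := hk
  obtain ⟨hd1, hd2, hd3⟩ := hd
  have tri : ∀ z : CD, ‖k e - z‖ ≤ κ → ‖d e - z‖ ≤ κ → ‖k e - d e‖ ≤ 2 * κ := by
    intro z h1 h2
    calc ‖k e - d e‖ = ‖(k e - z) - (d e - z)‖ := by congr 1; abel
      _ ≤ ‖k e - z‖ + ‖d e - z‖ := norm_sub_le _ _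
      _ ≤ 2 * κ := by linarith
  by_cases he : e ∈ c.2.1
  · exact tri _ (hk1 e he) (hd1 e he)
  · by_cases hp : ∀ p ∈ c.1, e ∉ Φ.A (p.1 : I)
    · apply tri 0
      · rw [sub_zero]; exact hk2 e he hp
      · rw [sub_zero]; exact hd2 e he hp
    · push Not at hp
      obtain ⟨p, hp1, hp2⟩ := hp
      exact tri _ (hk3 e he p hp1 hp2) (hd3 e he p hp1 hp2)

theorem exists_matches (J : Set I) (q : ℕ → CD) (hq : DenseRange q) (k : ℕ → CD)
    (hAp : ∀ i, Φ.Ap k i)
    (hk : ∀ κ > 0, ∃ t : Finset I, (∀ i ∈ t, i ∈ J) ∧ ∃ F : Finset ℕ,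
        ∀ e, e ∉ F → (∀ i ∈ t, e ∉ Φ.A i) → ‖k e‖ ≤ κ) (n : ℕ) :
    ∃ c : Code J, c.2.2.2 = n ∧ Matches Φ J q c k := by
  classical
  have hκ : (0 : ℝ) < 1 / ((n : ℝ) + 1) := by positivity
  obtain ⟨t, htJ, F₀, hF₀⟩ := hk _ hκ
  have hch : ∀ i : I, ∃ PF : Ex × Finset ℕ, ∀ e ∈ Φ.A i, e ∉ PF.2 →
      ‖k e - PF.1.ev (Φ.g i e)‖ ≤ 1 / ((n : ℝ) + 1) := by
    intro i
    obtain ⟨P, F, h⟩ := hAp i _ hκ
    exact ⟨(P, F), h⟩
  choose PF hPF using hch
  have hqd : ∀ e : ℕ, ∃ m : ℕ, ‖k e - q m‖ ≤ 1 / ((n : ℝ) + 1) := by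
    intro e
    obtain ⟨m, hm⟩ := hq.exists_dist_lt (k e) hκ
    rw [dist_eq_norm] at hm
    exact ⟨m, hm.le⟩
  choose m hm using hqd
  let F : Finset ℕ := F₀ ∪ t.biUnion (fun i => (PF i).2)
  let l : List (J × Ex) := t.attach.toList.map (fun i => (⟨i.1, htJ i.1 i.2⟩, (PF i.1).1))
  let v : ℕ →₀ ℕ := Finsupp.onFinset F (fun e => if e ∈ F then m e else 0) (by
    intro e he
    by_contra h
    simp [h] at he)
  have hl : ∀ p : J × Ex, p ∈ l ↔ ∃ i : I, ∃ hi : i ∈ t, p = (⟨i, htJ i hi⟩, (PF i).1) := by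
    intro p
    simp only [l, List.mem_map, Finset.mem_toList, Finset.mem_attach, true_and, Subtype.exists]
    constructor
    · rintro ⟨i, hi, rfl⟩
      exact ⟨i, hi, rfl⟩
    · rintro ⟨i, hi, rfl⟩
      exact ⟨i, hi, rfl⟩
  refine ⟨(l, F, v, n), rfl, ?_, ?_, ?_⟩
  · intro e he
    have hv : v e = m e := by
      show (if e ∈ F then m e else 0) = m e
      rw [if_pos he]
    show ‖k e - q (v e)‖ ≤ _
    rw [hv]
    exact hm e
  · intro e he hp
    apply hF₀ e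
    · intro h
      exact he (Finset.mem_union_left _ h)
    · intro i hi
      exact hp _ ((hl _).2 ⟨i, hi, rfl⟩)
  · intro e he p hp hep
    obtain ⟨i, hi, rfl⟩ := (hl p).1 hp
    apply hPF i e hep
    intro h
    exact he (Finset.mem_union_right _ (Finset.mem_biUnion.2 ⟨i, hi, h⟩))

/-- elements of the space supported (up to finite sets and small norm) on finitely many `A i`,
`i ∈ J`, form a set of density `< 𝔠` when `#J < 𝔠` -/
theorem dens (hA : ∀ i j, i ≠ j → (Φ.A i ∩ Φ.A j).Finite) (J : Set I) (hJ : #J < 𝔠) :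
    ∃ D : Set (XS Φ), #D < 𝔠 ∧ ∀ k : XS Φ,
      (∀ κ > 0, ∃ t : Finset I, (∀ i ∈ t, i ∈ J) ∧ ∃ F : Finset ℕ,
        ∀ e, e ∉ F → (∀ i ∈ t, e ∉ Φ.A i) → ‖(k : BB) e‖ ≤ κ) →
      ∀ κ > 0, ∃ d ∈ D, ‖k - d‖ ≤ κ := by
  classical
  let q : ℕ → CD := TopologicalSpace.denseSeq CD
  have hq : DenseRange q := TopologicalSpace.denseRange_denseSeq CD
  let Y : Code J → XS Φ := fun c =>
    if h : ∃ k : XS Φ, Matches Φ J q c (fun e => (k : BB) e) then h.choose else 0
  refine ⟨Set.range Y, ?_, ?_⟩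
  · exact lt_of_le_of_lt Cardinal.mk_range_le (code_card J hJ)
  · intro k hk κ hκ
    obtain ⟨n, hn⟩ := exists_nat_gt (2 / κ)
    have hn' : 2 * (1 / ((n : ℝ) + 1)) ≤ κ := by
      have h1 : (0 : ℝ) < (n : ℝ) + 1 := by positivity
      rw [mul_one_div, div_le_iff₀ h1]
      rw [div_lt_iff₀ hκ] at hn
      nlinarith
    obtain ⟨c, hc, hm⟩ := exists_matches Φ J q hq (fun e => (k : BB) e) (k.2.2) hk n
    have hex : ∃ k : XS Φ, Matches Φ J q c (fun e => (k : BB) e) := ⟨k, hm⟩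
    refine ⟨Y c, ⟨c, rfl⟩, ?_⟩
    have hY : Matches Φ J q c (fun e => ((Y c : XS Φ) : BB) e) := by
      have : Y c = hex.choose := dif_pos hex
      rw [this]
      exact hex.choose_spec
    show ‖((k : BB) - (Y c : XS Φ))‖ ≤ κ
    rw [BB.norm_le hκ.le]
    intro e
    have h1 := Matches.close Φ hm hY e
    rw [hc] at h1
    exact h1.trans hn'

end PDE

namespace PRP

/-- a closed subalgebra of `BB` is isomorphic, as a Banach space, to `C(K)` -/
theorem exists_CK (S : Submodule ℝ BB) (hc : IsClosed (S : Set BB)) (h1 : (1 : BB) ∈ S)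
    (hm : ∀ f ∈ S, ∀ g ∈ S, f * g ∈ S) :
    ∃ (K : Type) (_ : TopologicalSpace K) (_ : CompactSpace K) (_ : T2Space K),
      Nonempty (S ≃L[ℝ] C(K, ℝ)) := by
  let iota : ℕ × Dl → (S → ℝ) := fun p k => ((k : BB) p.1) p.2
  let K : Set (S → ℝ) := closure (Set.range iota)
  have hcl : ∀ (P : (S → ℝ) → Prop), IsClosed {p | P p} → (∀ x, P (iota x)) → ∀ p ∈ K, P p :=
    fun P hP hx p hp => closure_minimal (by rintro _ ⟨x, rfl⟩; exact hx x) hP hp
  have hbd : ∀ p ∈ K, ∀ k : S, |p k| ≤ ‖(k : BB)‖ := by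
    intro p hp k
    refine hcl (fun p => |p k| ≤ ‖(k : BB)‖) ?_ ?_ p hp
    · exact isClosed_le (continuous_abs.comp (continuous_apply k)) continuous_const
    · rintro ⟨e, y⟩
      have h2 : ‖((k : BB) e) y‖ ≤ ‖(k : BB) e‖ := ContinuousMap.norm_coe_le_norm _ y
      exact h2.trans (BB.norm_apply_le _ e)
  have hKc : IsCompact K := by
    refine (isCompact_univ_pi (fun k : S =>
      (isCompact_Icc : IsCompact (Set.Icc (-‖(k:BB)‖) (‖(k:BB)‖))))).of_isClosed_subset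
      isClosed_closure ?_
    intro p hp k _
    exact abs_le.mp (hbd p hp k)
  haveI : CompactSpace K := isCompact_iff_compactSpace.mp hKc
  let ev : S → C(K, ℝ) := fun k =>
    ⟨fun p => p.1 k, (continuous_apply k).comp continuous_subtype_val⟩
  have hadd : ∀ k k' : S, ev (k + k') = ev k + ev k' := by
    intro k k'
    ext p
    refine hcl (fun p => p (k + k') = p k + p k') ?_ ?_ p.1 p.2
    · exact isClosed_eq (continuous_apply _) ((continuous_apply k).add (continuous_apply k'))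
    · rintro ⟨e, y⟩
      rfl
  have hsmul : ∀ (r : ℝ) (k : S), ev (r • k) = r • ev k := by
    intro r k
    ext p
    refine hcl (fun p => p (r • k) = r * p k) ?_ ?_ p.1 p.2
    · exact isClosed_eq (continuous_apply _) (continuous_const.mul (continuous_apply _))
    · rintro ⟨e, y⟩
      rfl
  have hmul : ∀ k k' : S, ev ⟨k * k', hm _ k.2 _ k'.2⟩ = ev k * ev k' := by
    intro k k'
    ext p
    refine hcl (fun p => p ⟨k * k', hm _ k.2 _ k'.2⟩ = p k * p k') ?_ ?_ p.1 p.2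
    · exact isClosed_eq (continuous_apply _) ((continuous_apply k).mul (continuous_apply k'))
    · rintro ⟨e, y⟩
      rfl
  have hone : ev ⟨1, h1⟩ = 1 := by
    ext p
    refine hcl (fun p => p ⟨1, h1⟩ = 1) ?_ ?_ p.1 p.2
    · exact isClosed_eq (continuous_apply _) continuous_const
    · rintro ⟨e, y⟩
      rfl
  have hnorm : ∀ k : S, ‖ev k‖ = ‖k‖ := by
    intro k
    apply le_antisymm
    · exact (ContinuousMap.norm_le _ (norm_nonneg _)).2 fun p => hbd p.1 p.2 k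
    · refine (BB.norm_le (norm_nonneg _)).2 fun e => ?_
      refine (ContinuousMap.norm_le _ (norm_nonneg _)).2 fun y => ?_
      exact (ev k).norm_coe_le_norm ⟨iota (e, y), subset_closure ⟨(e, y), rfl⟩⟩
  haveI : CompleteSpace S := hc.completeSpace_coe
  let Ψ : S →ₗᵢ[ℝ] C(K, ℝ) :=
    { toFun := ev
      map_add' := hadd
      map_smul' := hsmul
      norm_map' := hnorm }
  have hΨ : ∀ k, Ψ k = ev k := fun _ => rfl
  let A : Subalgebra ℝ C(K, ℝ) :=
    { carrier := Set.range Ψ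
      mul_mem' := by
        rintro _ _ ⟨k, rfl⟩ ⟨k', rfl⟩
        exact ⟨⟨k * k', hm _ k.2 _ k'.2⟩, hmul k k'⟩
      add_mem' := by
        rintro _ _ ⟨k, rfl⟩ ⟨k', rfl⟩
        exact ⟨k + k', hadd k k'⟩
      algebraMap_mem' := by
        intro r
        refine ⟨r • ⟨1, h1⟩, ?_⟩
        rw [map_smul, hΨ, hone, Algebra.algebraMap_eq_smul_one] }
  have hAc : IsClosed (A : Set C(K, ℝ)) := Ψ.isometry.isClosedEmbedding.isClosed_range
  have hsep : A.SeparatesPoints := by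
    intro p q hpq
    have h2 : p.1 ≠ q.1 := fun h => hpq (Subtype.ext h)
    obtain ⟨k, hk⟩ := Function.ne_iff.mp h2
    exact ⟨ev k, ⟨ev k, ⟨k, rfl⟩, rfl⟩, hk⟩
  have htop := ContinuousMap.subalgebra_topologicalClosure_eq_top_of_separatesPoints A hsep
  have hsurj : Function.Surjective Ψ := by
    intro f
    have h2 : f ∈ A.topologicalClosure := by rw [htop]; trivial
    have h3 : f ∈ closure (A : Set C(K, ℝ)) := h2
    rw [hAc.closure_eq] at h3
    exact h3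
  exact ⟨K, inferInstance, inferInstance, inferInstance,
    ⟨(LinearIsometryEquiv.ofSurjective Ψ hsurj).toContinuousLinearEquiv⟩⟩

end PRP

namespace PCB

/-- the space is isomorphic to its cube -/
theorem cube (S : Submodule ℝ BB) (hpull : ∀ i, ∀ k ∈ S, hat (pullC i) k ∈ S)
    (hpush : ∀ i, ∀ k ∈ S, hat (pushC i) k ∈ S) : Nonempty (S ≃L[ℝ] S × S × S) := by
  have hpp : ∀ (i j : Fin 3) (h : CD), pullC i (pushC j h) = if i = j then h else 0 := by
    intro i j h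
    ext y
    rw [pullC_apply, pushC_apply, cons_zero, tl_cons]
    split_ifs <;> rfl
  have hsum : ∀ h : CD, pushC 0 (pullC 0 h) + pushC 1 (pullC 1 h) + pushC 2 (pullC 2 h) = h := by
    intro h
    ext y
    rw [ContinuousMap.add_apply, ContinuousMap.add_apply, pushC_apply, pushC_apply, pushC_apply,
      pullC_apply, pullC_apply, pullC_apply]
    have hy := cons_tl y
    have h3 : y 0 = 0 ∨ y 0 = 1 ∨ y 0 = 2 := by
      generalize y 0 = a
      fin_cases a <;> simp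
    rcases h3 with h3 | h3 | h3
    · rw [h3] at hy
      rw [h3, hy]
      simp
    · rw [h3] at hy
      rw [h3, hy]
      simp
    · rw [h3] at hy
      rw [h3, hy]
      simp
  let P : Fin 3 → (S →L[ℝ] S) := fun i =>
    ((hat (pullC i)).comp S.subtypeL).codRestrict S (fun k => hpull i k k.2)
  let Q : Fin 3 → (S →L[ℝ] S) := fun i =>
    ((hat (pushC i)).comp S.subtypeL).codRestrict S (fun k => hpush i k k.2)
  have hP : ∀ i (k : S) (e : ℕ), ((P i k : S) : BB) e = pullC i ((k : BB) e) := fun i k e => rfl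
  have hQ : ∀ i (k : S) (e : ℕ), ((Q i k : S) : BB) e = pushC i ((k : BB) e) := fun i k e => rfl
  refine ⟨ContinuousLinearEquiv.equivOfInverse ((P 0).prod ((P 1).prod (P 2)))
    ((Q 0).comp (ContinuousLinearMap.fst ℝ S (S × S)) +
      (Q 1).comp ((ContinuousLinearMap.fst ℝ S S).comp (ContinuousLinearMap.snd ℝ S (S × S))) +
      (Q 2).comp ((ContinuousLinearMap.snd ℝ S S).comp (ContinuousLinearMap.snd ℝ S (S × S))))
    ?_ ?_⟩
  · intro k
    apply Subtype.ext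
    apply BB.ext
    intro e
    exact hsum ((k : BB) e)
  · rintro ⟨k0, k1, k2⟩
    have key : ∀ (i : Fin 3) (e : ℕ), pullC i (pushC 0 ((k0 : BB) e) + pushC 1 ((k1 : BB) e) +
        pushC 2 ((k2 : BB) e)) = (if i = 0 then (k0 : BB) e else 0) +
          (if i = 1 then (k1 : BB) e else 0) + (if i = 2 then (k2 : BB) e else 0) := by
      intro i e
      rw [map_add, map_add, hpp, hpp, hpp]
    refine Prod.ext ?_ (Prod.ext ?_ ?_)
    · apply Subtype.ext
      apply BB.ext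
      intro e
      exact (key 0 e).trans (by simp)
    · apply Subtype.ext
      apply BB.ext
      intro e
      exact (key 1 e).trans (by simp)
    · apply Subtype.ext
      apply BB.ext
      intro e
      exact (key 2 e).trans (by simp)

end PCB

namespace PLL

variable {I : Type} (Φ : Fam I)

theorem exists_limL (huniq : ∀ (k : ℕ → CD) (c c' : CD), Φ.Lim k c → Φ.Lim k c' → c = c')
    (hnorm : ∀ (k : ℕ → CD) (c : CD) (B : ℝ), Φ.Lim k c → (∀ e, ‖k e‖ ≤ B) → ‖c‖ ≤ B) :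
    ∃ L : XS Φ →L[ℝ] CD, ∀ k : XS Φ, Φ.Lim (k : BB) (L k) := by
  classical
  have hex : ∀ k : XS Φ, ∃ c, Φ.Lim (k : BB) c := fun k => k.2.1
  choose c hc using hex
  let L0 : XS Φ →ₗ[ℝ] CD :=
    { toFun := c
      map_add' := fun k k' =>
        huniq ((k + k' : XS Φ) : BB) _ _ (hc (k + k')) (Fam.Lim.add Φ (hc k) (hc k'))
      map_smul' := fun r k =>
        huniq ((r • k : XS Φ) : BB) _ _ (hc (r • k)) (Fam.Lim.smul Φ r (hc k)) }
  refine ⟨L0.mkContinuous 1 (fun k => ?_), fun k => hc k⟩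
  rw [one_mul]
  exact hnorm _ _ ‖(k : BB)‖ (hc k) (fun e => BB.norm_apply_le (k : BB) e)

end PLL

namespace PRB

variable {I : Type} (Φ : Fam I)

theorem RowBd_matOf (S : XS Φ →L[ℝ] XS Φ) : RowBd (matOf Φ S) ‖S‖ := by
  classical
  intro e y s f hf
  set eps : ℕ → ℝ := fun e2 => if 0 ≤ (matOf Φ S e e2 (f e2)) y then 1 else -1 with heps
  have heps1 : ∀ e2, |eps e2| ≤ 1 := by
    intro e2
    simp only [heps]
    split_ifs <;> simp
  have heps2 : ∀ e2, eps e2 * (matOf Φ S e e2 (f e2)) y = |(matOf Φ S e e2 (f e2)) y| := by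
    intro e2
    simp only [heps]
    split_ifs with h
    · rw [abs_of_nonneg h, one_mul]
    · push Not at h
      rw [abs_of_neg h]; ring
  set z : XS Φ := ∑ e2 ∈ s, eps e2 • singleL Φ e2 (f e2) with hz
  have hzc : ∀ e', (z : BB) e' = if e' ∈ s then eps e' • f e' else 0 := by
    intro e'
    have h1 : (z : BB) e' = ((BB.evalL e').comp (XS Φ).subtypeL) z := rfl
    rw [h1, hz, map_sum]
    have h2 : ∀ e2 ∈ s, ((BB.evalL e').comp (XS Φ).subtypeL) (eps e2 • singleL Φ e2 (f e2)) =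
        if e2 = e' then eps e' • f e' else 0 := by
      intro e2 _
      rw [map_smul]
      have h3 : ((BB.evalL e').comp (XS Φ).subtypeL) (singleL Φ e2 (f e2)) = single e2 (f e2) e' := rfl
      rw [h3, single_apply]
      by_cases h : e' = e2
      · subst h; simp
      · rw [if_neg h, if_neg (fun h' => h h'.symm), smul_zero]
    rw [Finset.sum_congr rfl h2, Finset.sum_ite_eq']
  have hzn : ‖z‖ ≤ 1 := by
    have h1 : ‖z‖ = ‖(z : BB)‖ := rfl
    rw [h1]
    refine (BB.norm_le zero_le_one).2 fun e' => ?_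
    rw [hzc]
    split_ifs
    · rw [norm_smul, Real.norm_eq_abs]
      calc |eps e'| * ‖f e'‖ ≤ 1 * 1 := mul_le_mul (heps1 e') (hf e') (norm_nonneg _) zero_le_one
        _ = 1 := one_mul 1
    · rw [norm_zero]; exact zero_le_one
  have hsum : ((S z : XS Φ) : BB) e y = ∑ e2 ∈ s, |(matOf Φ S e e2 (f e2)) y| := by
    have h1 : ((S z : XS Φ) : BB) e = ((BB.evalL e).comp ((XS Φ).subtypeL.comp S)) z := rfl
    rw [h1, hz, map_sum, ContinuousMap.coe_sum, Finset.sum_apply]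
    apply Finset.sum_congr rfl
    intro e2 _
    rw [map_smul, ContinuousMap.smul_apply, smul_eq_mul, ← heps2 e2]
    rfl
  rw [← hsum]
  have hle : ∀ h : CD, h y ≤ ‖h‖ := fun h => (le_abs_self (h y)).trans (ContinuousMap.norm_coe_le_norm h y)
  calc ((S z : XS Φ) : BB) e y ≤ ‖((S z : XS Φ) : BB) e‖ := hle _
    _ ≤ ‖((S z : XS Φ) : BB)‖ := BB.norm_apply_le _ e
    _ = ‖S z‖ := rfl
    _ ≤ ‖S‖ * ‖z‖ := S.le_opNorm z
    _ ≤ ‖S‖ * 1 := by gcongr
    _ = ‖S‖ := mul_one _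

end PRB

namespace PEX

variable {I : Type} (Φ : Fam I)

theorem ec_norm_apply_le (f : XS Φ) (e : ℕ) : ‖(f : BB) e‖ ≤ ‖f‖ := (f : BB).norm_apply_le e

theorem ec_row_sum_le (S : XS Φ →L[ℝ] XS Φ) (hrow : RowBd (matOf Φ S) ‖S‖) (f : XS Φ) (e : ℕ)
    (y : Dl) (s : Finset ℕ) :
    ∑ e' ∈ s, |(matOf Φ S e e' ((f : BB) e')) y| ≤ ‖S‖ * ‖f‖ := by
  rcases eq_or_lt_of_le (norm_nonneg f) with h0 | h0
  · have h1 : ∀ e', (f : BB) e' = 0 := fun e' => by
      have := ec_norm_apply_le Φ f e'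
      rw [← h0] at this
      exact norm_le_zero_iff.1 this
    simp [h1, ← h0]
  · have h := hrow e y s (fun e' => (‖f‖)⁻¹ • (f : BB) e') (fun e' => by
      rw [norm_smul, norm_inv, norm_norm]
      have := ec_norm_apply_le Φ f e'
      rw [inv_mul_le_iff₀ h0]
      simpa using this)
    have h2 : ∀ e', |(matOf Φ S e e' ((‖f‖)⁻¹ • (f : BB) e')) y| =
        ‖f‖⁻¹ * |(matOf Φ S e e' ((f : BB) e')) y| := by
      intro e'
      rw [map_smul, ContinuousMap.smul_apply, smul_eq_mul, abs_mul, abs_of_pos (inv_pos.2 h0)]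
    simp only [h2] at h
    rw [← Finset.mul_sum, inv_mul_le_iff₀ h0] at h
    linarith

theorem ec_summable (S : XS Φ →L[ℝ] XS Φ) (hrow : RowBd (matOf Φ S) ‖S‖) (f : XS Φ) (e : ℕ)
    (y : Dl) : Summable fun e' => (matOf Φ S e e' ((f : BB) e')) y :=
  Summable.of_abs (summable_of_sum_le (fun _ => abs_nonneg _)
    (fun s => ec_row_sum_le Φ S hrow f e y s))

theorem ec_tsum_le (S : XS Φ →L[ℝ] XS Φ) (hrow : RowBd (matOf Φ S) ‖S‖) (f : XS Φ) (e : ℕ)
    (y : Dl) : |∑' e', (matOf Φ S e e' ((f : BB) e')) y| ≤ ‖S‖ * ‖f‖ := by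
  have hs : Summable fun e' => |(matOf Φ S e e' ((f : BB) e')) y| :=
    summable_of_sum_le (fun _ => abs_nonneg _) (fun s => ec_row_sum_le Φ S hrow f e y s)
  have h1 : |∑' e', (matOf Φ S e e' ((f : BB) e')) y| ≤
      ∑' e', |(matOf Φ S e e' ((f : BB) e')) y| := by
    have := norm_tsum_le_tsum_norm (f := fun e' => (matOf Φ S e e' ((f : BB) e')) y)
      (by simpa [Real.norm_eq_abs] using hs)
    simpa [Real.norm_eq_abs] using this
  refine h1.trans ?_
  exact Real.tsum_le_of_sum_le (fun _ => abs_nonneg _) (fun s => ec_row_sum_le Φ S hrow f e y s)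

/-- defect functional -/
def ecσ (S : XS Φ →L[ℝ] XS Φ) (hrow : RowBd (matOf Φ S) ‖S‖) (e : ℕ) (y : Dl) : XS Φ →ₗ[ℝ] ℝ where
  toFun f := ((S f : BB) e) y - ∑' e', (matOf Φ S e e' ((f : BB) e')) y
  map_add' f g := by
    have h1 : ∀ e', (matOf Φ S e e' (((f + g : XS Φ) : BB) e')) y =
        (matOf Φ S e e' ((f : BB) e')) y + (matOf Φ S e e' ((g : BB) e')) y := by
      intro e'
      have : ((f + g : XS Φ) : BB) e' = (f : BB) e' + (g : BB) e' := rfl
      rw [this, map_add, ContinuousMap.add_apply]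
    simp only [h1]
    rw [(ec_summable Φ S hrow f e y).tsum_add (ec_summable Φ S hrow g e y), map_add]
    have h2 : ((S f + S g : XS Φ) : BB) e = (S f : BB) e + (S g : BB) e := rfl
    rw [h2, ContinuousMap.add_apply]
    ring
  map_smul' c f := by
    have h1 : ∀ e', (matOf Φ S e e' (((c • f : XS Φ) : BB) e')) y =
        c * (matOf Φ S e e' ((f : BB) e')) y := by
      intro e'
      have : ((c • f : XS Φ) : BB) e' = c • (f : BB) e' := rfl
      rw [this, map_smul, ContinuousMap.smul_apply, smul_eq_mul]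
    simp only [h1]
    rw [tsum_mul_left, map_smul]
    have h2 : ((c • S f : XS Φ) : BB) e = c • (S f : BB) e := rfl
    rw [h2, ContinuousMap.smul_apply]
    simp only [smul_eq_mul, RingHom.id_apply]
    ring

theorem ecσ_apply (S : XS Φ →L[ℝ] XS Φ) (hrow : RowBd (matOf Φ S) ‖S‖) (e : ℕ) (y : Dl)
    (f : XS Φ) : ecσ Φ S hrow e y f =
      ((S f : BB) e) y - ∑' e', (matOf Φ S e e' ((f : BB) e')) y := rfl

theorem ecσ_le (S : XS Φ →L[ℝ] XS Φ) (hrow : RowBd (matOf Φ S) ‖S‖) (e : ℕ) (y : Dl)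
    (f : XS Φ) : |ecσ Φ S hrow e y f| ≤ 2 * ‖S‖ * ‖f‖ := by
  rw [ecσ_apply]
  have h1 := ec_tsum_le Φ S hrow f e y
  have h2 : |((S f : BB) e) y| ≤ ‖S‖ * ‖f‖ := by
    calc |((S f : BB) e) y| = ‖((S f : BB) e) y‖ := (Real.norm_eq_abs _).symm
      _ ≤ ‖(S f : BB) e‖ := ContinuousMap.norm_coe_le_norm _ _
      _ ≤ ‖S f‖ := ec_norm_apply_le Φ (S f) e
      _ ≤ ‖S‖ * ‖f‖ := S.le_opNorm f
  calc |((S f : BB) e) y - ∑' e', (matOf Φ S e e' ((f : BB) e')) y|
      ≤ |((S f : BB) e) y| + |∑' e', (matOf Φ S e e' ((f : BB) e')) y| := abs_sub _ _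
    _ ≤ ‖S‖ * ‖f‖ + ‖S‖ * ‖f‖ := add_le_add h2 h1
    _ = 2 * ‖S‖ * ‖f‖ := by ring

theorem ecσ_single (S : XS Φ →L[ℝ] XS Φ) (hrow : RowBd (matOf Φ S) ‖S‖) (e : ℕ) (y : Dl)
    (e' : ℕ) (h : CD) : ecσ Φ S hrow e y (singleL Φ e' h) = 0 := by
  rw [ecσ_apply, tsum_eq_single e']
  · rw [singleL_coe, single_apply, if_pos rfl, matOf_apply, sub_self]
  · intro e2 he2
    rw [singleL_coe, single_apply, if_neg he2, map_zero]
    rfl

theorem ec_finite (hA : ∀ i j, i ≠ j → (Φ.A i ∩ Φ.A j).Finite) (S : XS Φ →L[ℝ] XS Φ)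
    (hrow : RowBd (matOf Φ S) ‖S‖) (e : ℕ) (y : Dl) (n : ℕ) :
    {i : I | ∃ f : XS Φ, (∀ e, e ∉ Φ.A i → (f : BB) e = 0) ∧ ‖f‖ ≤ 1 ∧
      1 / ((n : ℝ) + 1) ≤ ecσ Φ S hrow e y f}.Finite := by
  classical
  by_contra hinf
  have hinf' : Set.Infinite {i : I | ∃ f : XS Φ, (∀ e, e ∉ Φ.A i → (f : BB) e = 0) ∧ ‖f‖ ≤ 1 ∧
      1 / ((n : ℝ) + 1) ≤ ecσ Φ S hrow e y f} := hinf
  obtain ⟨N, hN⟩ := exists_nat_gt (2 * ‖S‖ * ((n : ℝ) + 1))
  obtain ⟨T, hT, hTN⟩ := hinf'.exists_subset_card_eq N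
  have hex : ∀ i : I, ∃ f : XS Φ, i ∈ T → (∀ e, e ∉ Φ.A i → (f : BB) e = 0) ∧ ‖f‖ ≤ 1 ∧
      1 / ((n : ℝ) + 1) ≤ ecσ Φ S hrow e y f := by
    intro i
    by_cases hi : i ∈ T
    · obtain ⟨f, hf⟩ := hT hi
      exact ⟨f, fun _ => hf⟩
    · exact ⟨0, fun h => absurd h hi⟩
  choose f hf using hex
  have hFfin : (⋃ i ∈ (T : Set I), ⋃ j ∈ (T : Set I), ⋃ (_ : i ≠ j), (Φ.A i ∩ Φ.A j)).Finite := by
    refine T.finite_toSet.biUnion fun i _ => T.finite_toSet.biUnion fun j _ => ?_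
    exact Set.finite_iUnion fun h => hA i j h
  set F := hFfin.toFinset with hF
  have hFmem : ∀ i ∈ T, ∀ j ∈ T, i ≠ j → ∀ e2, e2 ∈ Φ.A i → e2 ∈ Φ.A j → e2 ∈ F := by
    intro i hi j hj hij e2 h1 h2
    rw [hF, Set.Finite.mem_toFinset]
    simp only [Set.mem_iUnion]
    exact ⟨i, hi, j, hj, hij, h1, h2⟩
  set g : I → XS Φ := fun i => f i - ∑ e2 ∈ F, singleL Φ e2 ((f i : BB) e2) with hg
  have hsum : ∀ (i : I) (F' : Finset ℕ) (e3 : ℕ),
      ((∑ e2 ∈ F', singleL Φ e2 ((f i : BB) e2) : XS Φ) : BB) e3 =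
        if e3 ∈ F' then (f i : BB) e3 else 0 := by
    intro i F' e3
    induction F' using Finset.induction_on with
    | empty => simp
    | insert a F' ha ih =>
      rw [Finset.sum_insert ha]
      have h1 : ((singleL Φ a ((f i : BB) a) + ∑ e2 ∈ F', singleL Φ e2 ((f i : BB) e2) : XS Φ) :
          BB) e3 = (singleL Φ a ((f i : BB) a) : BB) e3 +
            ((∑ e2 ∈ F', singleL Φ e2 ((f i : BB) e2) : XS Φ) : BB) e3 := rfl
      rw [h1, ih, singleL_coe, single_apply]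
      by_cases h2 : e3 = a
      · subst h2
        simp [ha]
      · simp [h2]
  have hgv : ∀ i e3, ((g i : XS Φ) : BB) e3 = if e3 ∈ F then 0 else (f i : BB) e3 := by
    intro i e3
    have h1 : ((g i : XS Φ) : BB) e3 = (f i : BB) e3 -
        ((∑ e2 ∈ F, singleL Φ e2 ((f i : BB) e2) : XS Φ) : BB) e3 := rfl
    rw [h1, hsum]
    split_ifs <;> simp
  have hgσ : ∀ i, ecσ Φ S hrow e y (g i) = ecσ Φ S hrow e y (f i) := by
    intro i
    rw [hg]
    simp only [map_sub, map_sum, ecσ_single, Finset.sum_const_zero, sub_zero]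
  have hGv : ∀ (T' : Finset I) (e3 : ℕ), ((∑ i ∈ T', g i : XS Φ) : BB) e3 =
      ∑ i ∈ T', ((g i : XS Φ) : BB) e3 := by
    intro T' e3
    induction T' using Finset.induction_on with
    | empty => simp
    | insert a T' ha ih =>
      rw [Finset.sum_insert ha, Finset.sum_insert ha, ← ih]
      rfl
  have hGn : ‖∑ i ∈ T, g i‖ ≤ 1 := by
    refine (BB.norm_le zero_le_one).2 fun e3 => ?_
    change ‖((∑ i ∈ T, g i : XS Φ) : BB) e3‖ ≤ 1
    rw [hGv]
    by_cases h3 : e3 ∈ F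
    · simp [hgv, h3]
    · by_cases h4 : ∃ i ∈ T, e3 ∈ Φ.A i
      · obtain ⟨i, hi, hiA⟩ := h4
        rw [Finset.sum_eq_single i]
        · rw [hgv, if_neg h3]
          exact (ec_norm_apply_le Φ (f i) e3).trans (hf i hi).2.1
        · intro j hj hji
          have h5 : e3 ∉ Φ.A j := fun h => h3 (hFmem i hi j hj hji.symm e3 hiA h)
          rw [hgv, (hf j hj).1 e3 h5]
          simp
        · intro h
          exact absurd hi h
      · rw [Finset.sum_eq_zero]
        · simp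
        · intro j hj
          have h5 : e3 ∉ Φ.A j := fun h => h4 ⟨j, hj, h⟩
          rw [hgv, (hf j hj).1 e3 h5]
          simp
  have h6 := ecσ_le Φ S hrow e y (∑ i ∈ T, g i)
  have h7 : (N : ℝ) * (1 / ((n : ℝ) + 1)) ≤ ecσ Φ S hrow e y (∑ i ∈ T, g i) := by
    rw [map_sum]
    calc (N : ℝ) * (1 / ((n : ℝ) + 1)) = ∑ _i ∈ T, 1 / ((n : ℝ) + 1) := by
          rw [Finset.sum_const, hTN, nsmul_eq_mul]
      _ ≤ ∑ i ∈ T, ecσ Φ S hrow e y (g i) := by
          refine Finset.sum_le_sum fun i hi => ?_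
          rw [hgσ]
          exact (hf i hi).2.2
  have h8 : (N : ℝ) * (1 / ((n : ℝ) + 1)) ≤ 2 * ‖S‖ := by
    calc (N : ℝ) * (1 / ((n : ℝ) + 1)) ≤ |ecσ Φ S hrow e y (∑ i ∈ T, g i)| := h7.trans (le_abs_self _)
      _ ≤ 2 * ‖S‖ * ‖∑ i ∈ T, g i‖ := h6
      _ ≤ 2 * ‖S‖ * 1 := by
          refine mul_le_mul_of_nonneg_left hGn (by positivity)
      _ = 2 * ‖S‖ := mul_one _
  rw [mul_one_div, div_le_iff₀ (by positivity)] at h8
  linarith

/-- for all but countably many `i` the operator acts on elements supported in `A i` by its matrix -/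
theorem exc_countable (hA : ∀ i j, i ≠ j → (Φ.A i ∩ Φ.A j).Finite) (S : XS Φ →L[ℝ] XS Φ)
    (hrow : RowBd (matOf Φ S) ‖S‖) :
    {i : I | ∃ f : XS Φ, (∀ e, e ∉ Φ.A i → (f : BB) e = 0) ∧ ∃ (e : ℕ) (u : Wd),
      ((S f : BB) e) (app u ystar) ≠
        ∑' e', (matOf Φ S e e' ((f : BB) e')) (app u ystar)}.Countable := by
  classical
  have hcount : (⋃ (e : ℕ) (u : Wd) (n : ℕ),
      {i : I | ∃ f : XS Φ, (∀ e, e ∉ Φ.A i → (f : BB) e = 0) ∧ ‖f‖ ≤ 1 ∧
      1 / ((n : ℝ) + 1) ≤ ecσ Φ S hrow e (app u ystar) f}).Countable :=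
    Set.countable_iUnion fun e => Set.countable_iUnion fun u => Set.countable_iUnion fun n =>
      (ec_finite Φ hA S hrow e (app u ystar) n).countable
  refine hcount.mono ?_
  rintro i ⟨f, hf, e, u, hne⟩
  have hσ : ecσ Φ S hrow e (app u ystar) f ≠ 0 := by
    rw [ecσ_apply]
    exact sub_ne_zero.2 hne
  have hf0 : 0 < ‖f‖ := by
    rw [norm_pos_iff]
    intro h
    rw [h, map_zero] at hσ
    exact hσ rfl
  set c : ℝ := ‖f‖⁻¹ * SignType.sign (ecσ Φ S hrow e (app u ystar) f) with hc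
  have hpos : 0 < ‖f‖⁻¹ * |ecσ Φ S hrow e (app u ystar) f| :=
    mul_pos (inv_pos.2 hf0) (abs_pos.2 hσ)
  obtain ⟨n, hn⟩ := exists_nat_one_div_lt hpos
  simp only [Set.mem_iUnion]
  refine ⟨e, u, n, c • f, ?_, ?_, ?_⟩
  · intro e2 he2
    have h1 : ((c • f : XS Φ) : BB) e2 = c • (f : BB) e2 := rfl
    rw [h1, hf e2 he2, smul_zero]
  · rw [norm_smul, hc, norm_mul, norm_inv, norm_norm]
    have h1 : ‖((SignType.sign (ecσ Φ S hrow e (app u ystar) f) : SignType) : ℝ)‖ ≤ 1 := by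
      rcases lt_trichotomy (ecσ Φ S hrow e (app u ystar) f) 0 with h | h | h
      · simp [sign_neg h]
      · simp [h]
      · simp [sign_pos h]
    calc ‖f‖⁻¹ * ‖((SignType.sign (ecσ Φ S hrow e (app u ystar) f) : SignType) : ℝ)‖ * ‖f‖
        ≤ ‖f‖⁻¹ * 1 * ‖f‖ := by gcongr
      _ = 1 := by rw [mul_one, inv_mul_cancel₀ hf0.ne']
  · rw [map_smul, hc, smul_eq_mul, mul_assoc, sign_mul_self]
    exact hn.le

end PEX

namespace PEZ

variable {I : Type} (Φ : Fam I)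

theorem singleL_norm_7429 (e' : ℕ) (h : CD) : ‖singleL Φ e' h‖ ≤ ‖h‖ := by
  refine (BB.norm_le (norm_nonneg _)).2 fun e => ?_
  show ‖single e' h e‖ ≤ ‖h‖
  rw [single_apply]
  split_ifs
  · exact le_rfl
  · rw [norm_zero]; exact norm_nonneg _

/-- for all but countably many `i` the columns of the matrix tend to zero along `A i` -/
theorem excz_countable (hA : ∀ i j, i ≠ j → (Φ.A i ∩ Φ.A j).Finite) (S : XS Φ →L[ℝ] XS Φ)
    (hS : ∀ k : XS Φ, Φ.Lim (S k : BB) 0) :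
    {i : I | ∃ (e' : ℕ) (h : CD), ∃ κ > 0, ∀ F : Finset ℕ, ∃ e ∈ Φ.A i, e ∉ F ∧
      κ < ‖matOf Φ S e e' h‖}.Countable := by
  classical
  let q : ℕ → CD := TopologicalSpace.denseSeq CD
  have hq : DenseRange q := TopologicalSpace.denseRange_denseSeq CD
  have hch : ∀ (p : ℕ × ℕ × ℕ), ∃ t : Finset I, ∃ F : Finset ℕ, ∀ e, e ∉ F →
      (∀ i ∈ t, e ∉ Φ.A i) →
      ‖(S (singleL Φ p.1 (q p.2.1)) : BB) e - 0‖ ≤ 1 / ((p.2.2 : ℝ) + 1) := fun p =>
    hS (singleL Φ p.1 (q p.2.1)) _ (by positivity)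
  choose t F hF using hch
  refine Set.Countable.mono ?_ (Set.countable_iUnion (fun p => (t p).countable_toSet))
  rintro i ⟨e', h, κ, hκ, hi⟩
  by_contra hN
  have hN' : ∀ p, i ∉ t p := fun p hp => hN (Set.mem_iUnion.mpr ⟨p, hp⟩)
  obtain ⟨n, hn⟩ := exists_nat_one_div_lt (show (0 : ℝ) < κ / 2 by linarith)
  obtain ⟨m, hm⟩ := hq.exists_dist_lt h (show (0 : ℝ) < κ / (2 * (‖S‖ + 1)) by positivity)
  have hfin : ∀ j ∈ t (e', m, n), (Φ.A i ∩ Φ.A j).Finite := by
    intro j hj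
    apply hA
    rintro rfl
    exact hN' _ hj
  let G : Finset ℕ := F (e', m, n) ∪ (t (e', m, n)).attach.biUnion
    (fun j => (hfin j.1 j.2).toFinset)
  obtain ⟨e, heA, heG, hlt⟩ := hi G
  have h1 : e ∉ F (e', m, n) := fun hh => heG (Finset.mem_union_left _ hh)
  have h2 : ∀ j ∈ t (e', m, n), e ∉ Φ.A j := by
    intro j hj hh
    apply heG
    apply Finset.mem_union_right
    rw [Finset.mem_biUnion]
    exact ⟨⟨j, hj⟩, Finset.mem_attach _ _, (Set.Finite.mem_toFinset _).mpr ⟨heA, hh⟩⟩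
  have h3 := hF (e', m, n) e h1 h2
  rw [sub_zero] at h3
  have h4 : ‖matOf Φ S e e' (h - q m)‖ ≤ ‖S‖ * ‖h - q m‖ := by
    rw [matOf_apply]
    calc ‖(S (singleL Φ e' (h - q m)) : BB) e‖ ≤ ‖(S (singleL Φ e' (h - q m)) : BB)‖ :=
          BB.norm_apply_le _ _
      _ ≤ ‖S‖ * ‖singleL Φ e' (h - q m)‖ := S.le_opNorm _
      _ ≤ ‖S‖ * ‖h - q m‖ := by
        gcongr
        exact singleL_norm_7429 Φ e' _
  have h5 : ‖S‖ * ‖h - q m‖ ≤ κ / 2 := by
    rw [dist_eq_norm] at hm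
    have h6 : ‖S‖ * ‖h - q m‖ ≤ (‖S‖ + 1) * (κ / (2 * (‖S‖ + 1))) := by
      gcongr
      linarith
    refine h6.trans (le_of_eq ?_)
    have : ‖S‖ + 1 ≠ 0 := by positivity
    field_simp
  have h7 : matOf Φ S e e' h = matOf Φ S e e' (h - q m) + matOf Φ S e e' (q m) := by
    rw [← map_add, sub_add_cancel]
  have h8 : ‖matOf Φ S e e' (q m)‖ ≤ 1 / ((n : ℝ) + 1) := h3
  have h9 : ‖matOf Φ S e e' h‖ ≤ κ := by
    rw [h7]
    refine (norm_add_le _ _).trans ?_
    linarith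
  linarith

end PEZ

namespace PLW

variable {I : Type} (Φ : Fam I)

theorem lower (hA : ∀ i j, i ≠ j → (Φ.A i ∩ Φ.A j).Finite) (hinf : ∀ i, (Φ.A i).Infinite)
    (hind : ∀ (i : I) (h : CD), restr (Φ.A i) (cst h) ∈ XS Φ)
    (t : CD →L[ℝ] CD) (D : Set (XS Φ)) (hD : #D < 𝔠) (C : ℝ) (hC : 0 ≤ C)
    (H : ∀ k : XS Φ, ∀ κ > 0, ∃ d ∈ D, ‖hat t (k : BB) - (d : BB)‖ ≤ C * ‖k‖ + κ) (h : CD) :
    ‖t h‖ ≤ 2 * C * ‖h‖ := by
  apply le_of_forall_pos_le_add
  intro ε hε
  let kk : I → XS Φ := fun i => ⟨restr (Φ.A i) (cst h), hind i h⟩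
  have hkk : ∀ i, ‖kk i‖ ≤ ‖h‖ := by
    intro i
    change ‖restr (Φ.A i) (cst h)‖ ≤ ‖h‖
    refine (BB.norm_le (norm_nonneg _)).2 fun e => ?_
    rw [restr_apply]
    split_ifs
    · exact le_rfl
    · rw [norm_zero]; exact norm_nonneg _
  choose d hd hdk using fun i => H (kk i) (ε / 2) (half_pos hε)
  have hni : ¬ Function.Injective (fun i => (⟨d i, hd i⟩ : D)) := by
    intro hinj
    have := Cardinal.mk_le_of_injective hinj
    rw [Φ.card] at this
    exact absurd hD (not_lt.2 this)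
  rw [Function.Injective] at hni
  push Not at hni
  obtain ⟨i, j, hij, hne⟩ := hni
  have hdij : d i = d j := congrArg (fun x : D => (x : XS Φ)) hij
  have hinf2 : (Φ.A i \ (Φ.A i ∩ Φ.A j)).Infinite := (hinf i).diff (hA i j hne)
  obtain ⟨e, he1, he2⟩ := hinf2.nonempty
  have he3 : e ∉ Φ.A j := fun h3 => he2 ⟨he1, h3⟩
  have h1 : (hat t (kk i : BB) - hat t (kk j : BB)) e = t h := by
    rw [BB.sub_apply, hat_apply, hat_apply]
    change t (restr (Φ.A i) (cst h) e) - t (restr (Φ.A j) (cst h) e) = t h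
    rw [restr_apply, restr_apply, if_pos he1, if_neg he3, cst_apply, map_zero, sub_zero]
  have h2 : ‖t h‖ ≤ ‖hat t (kk i : BB) - hat t (kk j : BB)‖ := by
    rw [← h1]
    exact BB.norm_apply_le _ _
  have h3 := hdk i
  have h4 := hdk j
  rw [← hdij] at h4
  have h5 : ‖hat t (kk i : BB) - hat t (kk j : BB)‖ ≤
      ‖hat t (kk i : BB) - (d i : BB)‖ + ‖hat t (kk j : BB) - (d i : BB)‖ := by
    rw [← norm_neg (hat t (kk j : BB) - (d i : BB))]
    refine le_trans (le_of_eq ?_) (norm_add_le _ _)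
    congr 1
    abel
  have h6 := mul_le_mul_of_nonneg_left (hkk i) hC
  have h7 := mul_le_mul_of_nonneg_left (hkk j) hC
  linarith

end PLW

end Pool.Agent.S03285.CK

end

noncomputable section

open scoped BoundedContinuousFunction Topology Cardinal
open Filter Set

namespace Pool.Agent.S03285.CK

open PKE

namespace PBD



variable (a : (ℕ → Bool) → Set ℕ)

theorem compl_inf_aux (U : Set (ℕ → Bool)) (hU : #U < 𝔠) : (Uᶜ).Infinite := by
  have h1 : #(ℕ → Bool) = 𝔠 := by simp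
  have h2 : #U < #(ℕ → Bool) := by rw [h1]; exact hU
  have h3 := Cardinal.mk_compl_of_infinite U h2
  rw [← Set.infinite_coe_iff, Cardinal.infinite_iff, h3, h1]
  exact Cardinal.aleph0_le_continuum

theorem exists_other_aux (U : Set (ℕ → Bool)) (hU : #U < 𝔠) (b : ℕ → Bool) : ∃ z, z ∉ U ∧ b ≠ z := by
  obtain ⟨z, hz, hz2⟩ := (compl_inf_aux U hU).exists_notMem_finset {b}
  refine ⟨z, hz, ?_⟩
  rintro rfl
  exact hz2 (Finset.mem_singleton_self _)

theorem branch_diag (hnorm : ∀ (h : CD) (c : ℝ), 0 ≤ c → (∀ u : Wd, |h (app u ystar)| ≤ c) → ‖h‖ ≤ c)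
    (hinf : ∀ x, (a x).Infinite) (M : Mat) (U : Set (ℕ → Bool)) (hU : #U < 𝔠)
    (hkey : ∀ x' y', x' ∉ U → y' ∉ U → x' ≠ y' → ∀ ε > 0,
      ∃ c : Tb, ∃ F : Finset ℕ, ∀ e ∈ a x' ∪ a y', e ∉ F →
        (∀ h : CD, ‖h‖ ≤ 1 → ∀ u : Wd,
          |(M e e h) (app u ystar) - (opD c h) (app u ystar)| ≤ 8 * ε) ∧
        OffSmall M (a x' ∪ a y') F e ε) (ε : ℝ) (hε : 0 < ε) :
    ∃ c : Tb, ∀ b, b ∉ U → ∃ F : Finset ℕ, ∀ e ∈ a b, e ∉ F → ∀ h : CD, ‖h‖ ≤ 1 → ∀ u : Wd,
      |(M e e h) (app u ystar) - (opD c h) (app u ystar)| ≤ 24 * ε := by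
  obtain ⟨x0, hx0, -⟩ := exists_other_aux U hU (fun _ => true)
  obtain ⟨y0, hy0, hxy⟩ := exists_other_aux U hU x0
  obtain ⟨c, F, hc⟩ := hkey x0 y0 hx0 hy0 hxy ε hε
  refine ⟨c, fun b hb => ?_⟩
  by_cases hbx : b = x0
  · subst hbx
    refine ⟨F, fun e he heF h hh u => ?_⟩
    have h1 := (hc e (Or.inl he) heF).1 h hh u
    linarith
  · obtain ⟨c2, F2, hc2⟩ := hkey x0 b hx0 hb (Ne.symm hbx) ε hε
    obtain ⟨e0, he0, he0F⟩ := (hinf x0).exists_notMem_finset (F ∪ F2)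
    rw [Finset.mem_union, not_or] at he0F
    refine ⟨F2, fun e he heF h hh u => ?_⟩
    have h1 := (hc e0 (Or.inl he0) he0F.1).1 h hh u
    have h2 := (hc2 e0 (Or.inl he0) he0F.2).1 h hh u
    have h3 := (hc2 e (Or.inr he) heF).1 h hh u
    rw [abs_le] at h1 h2 h3 ⊢
    constructor
    · linarith [h1.1, h1.2, h2.1, h2.2, h3.1, h3.2]
    · linarith [h1.1, h1.2, h2.1, h2.2, h3.1, h3.2]

theorem offSmall_mono_aux (M : Mat) (s t : Set ℕ) (hst : s ⊆ t) (F : Finset ℕ) (e : ℕ) (ε : ℝ)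
    (h : OffSmall M t F e ε) : OffSmall M s F e ε := by
  intro u f hf hf0
  apply h u f hf
  intro e' he'
  apply hf0
  rcases he' with h1 | h1
  · exact Or.inl (fun h2 => h1 (hst h2))
  · exact Or.inr h1

theorem branch_off (M : Mat) (U : Set (ℕ → Bool)) (hU : #U < 𝔠)
    (hkey : ∀ x' y', x' ∉ U → y' ∉ U → x' ≠ y' → ∀ ε > 0,
      ∃ c : Tb, ∃ F : Finset ℕ, ∀ e ∈ a x' ∪ a y', e ∉ F →
        (∀ h : CD, ‖h‖ ≤ 1 → ∀ u : Wd,
          |(M e e h) (app u ystar) - (opD c h) (app u ystar)| ≤ 8 * ε) ∧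
        OffSmall M (a x' ∪ a y') F e ε) (b b' : ℕ → Bool) (hb : b ∉ U) (hb' : b' ∉ U)
    (ε : ℝ) (hε : 0 < ε) :
    ∃ F : Finset ℕ, ∀ e ∈ a b', e ∉ F → OffSmall M (a b) F e ε := by
  by_cases hbb : b = b'
  · subst hbb
    obtain ⟨z, hz, hbz⟩ := exists_other_aux U hU b
    obtain ⟨c, F, hc⟩ := hkey b z hb hz hbz ε hε
    exact ⟨F, fun e he heF => offSmall_mono_aux M _ _ Set.subset_union_left F e ε
      (hc e (Or.inl he) heF).2⟩
  · obtain ⟨c, F, hc⟩ := hkey b b' hb hb' hbb ε hε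
    exact ⟨F, fun e he heF => offSmall_mono_aux M _ _ Set.subset_union_left F e ε
      (hc e (Or.inr he) heF).2⟩

end PBD

namespace PBM



theorem bs_summable {M : Mat} {C : ℝ} (hM : RowBd M C) {β : ℝ} (hβ : 0 ≤ β) {f : ℕ → CD}
    (hf : ∀ e, ‖f e‖ ≤ β) (e : ℕ) (y : Dl) : Summable fun e' => (M e e' (f e')) y := by
  have hK : (0 : ℝ) < β + 1 := by linarith
  have hf' : ∀ e', ‖(β + 1)⁻¹ • f e'‖ ≤ 1 := by
    intro e'
    rw [norm_smul, norm_inv, Real.norm_eq_abs, abs_of_pos hK, inv_mul_le_iff₀ hK]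
    have := hf e'
    linarith
  have h1 : Summable fun e' => |(M e e' ((β + 1)⁻¹ • f e')) y| :=
    summable_of_sum_le (fun _ => abs_nonneg _) (fun s => hM e y s _ hf')
  have h2 : Summable fun e' => (M e e' ((β + 1)⁻¹ • f e')) y := h1.of_abs
  have h3 := h2.mul_left (β + 1)
  refine h3.congr (fun e' => ?_)
  rw [map_smul, ContinuousMap.smul_apply, smul_eq_mul, ← mul_assoc, mul_inv_cancel₀ hK.ne',
    one_mul]

/-- single branch -/
theorem bs_single (a : (ℕ → Bool) → Set ℕ) (M : Mat) (C : ℝ) (hM : RowBd M C)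
    (b b' : ℕ → Bool)
    (hoff : ∀ δ > 0, ∃ F : Finset ℕ, ∀ e ∈ a b', e ∉ F → OffSmall M (a b) F e δ)
    (hZ : ∀ (e' : ℕ) (h : CD), ∀ δ > 0, ∃ F : Finset ℕ, ∀ e ∈ a b', e ∉ F → ∀ u : Wd,
      |(M e e' h) (app u ystar)| ≤ δ)
    (f : ℕ → CD) (β : ℝ) (hβ : 0 ≤ β) (hf : ∀ e, ‖f e‖ ≤ β)
    (hs : ∀ e, e ∉ a b → f e = 0) (κ : ℝ) (hκ : 0 < κ) :
    ∃ F : Finset ℕ, ∀ e ∈ a b', e ∉ F → ∀ u : Wd,
      |∑' e', (M e e' (if e' = e then 0 else f e')) (app u ystar)| ≤ κ := by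
  classical
  have hK : (0 : ℝ) < β + 1 := by linarith
  obtain ⟨F, hF⟩ := hoff (κ / (2 * (β + 1))) (by positivity)
  choose Z hZ' using fun e' : ℕ => hZ e' (f e') (κ / (2 * ((F.card : ℝ) + 1))) (by positivity)
  refine ⟨F ∪ F.biUnion Z, ?_⟩
  intro e he heF u
  rw [Finset.mem_union, not_or] at heF
  obtain ⟨heF1, heF2⟩ := heF
  -- the two parts
  set g1 : ℕ → CD := fun e' => if e' ∈ F then f e' else 0 with hg1
  set g2 : ℕ → CD := fun e' => if e' ∈ F ∨ e' = e then 0 else f e' with hg2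
  have hg1n : ∀ e', ‖g1 e'‖ ≤ β := by
    intro e'
    simp only [hg1]
    split_ifs
    · exact hf e'
    · rw [norm_zero]; exact hβ
  have hg2n : ∀ e', ‖g2 e'‖ ≤ β := by
    intro e'
    simp only [hg2]
    split_ifs
    · rw [norm_zero]; exact hβ
    · exact hf e'
  have hsplit : ∀ e', (if e' = e then 0 else f e') = g1 e' + g2 e' := by
    intro e'
    simp only [hg1, hg2]
    by_cases h1 : e' = e
    · subst h1
      simp [heF1]
    · by_cases h2 : e' ∈ F
      · simp [h1, h2]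
      · simp [h1, h2]
  have hS1 := bs_summable hM hβ hg1n e (app u ystar)
  have hS2 := bs_summable hM hβ hg2n e (app u ystar)
  have hsum : ∑' e', (M e e' (if e' = e then 0 else f e')) (app u ystar) =
      ∑' e', (M e e' (g1 e')) (app u ystar) + ∑' e', (M e e' (g2 e')) (app u ystar) := by
    rw [← hS1.tsum_add hS2]
    refine tsum_congr (fun e' => ?_)
    rw [hsplit e', map_add, ContinuousMap.add_apply]
  -- the finite part
  have hb1 : |∑' e', (M e e' (g1 e')) (app u ystar)| ≤ κ / 2 := by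
    have h1 : ∑' e', (M e e' (g1 e')) (app u ystar) =
        ∑ e' ∈ F, (M e e' (g1 e')) (app u ystar) := by
      refine tsum_eq_sum (fun e' he' => ?_)
      simp only [hg1, if_neg he', map_zero, ContinuousMap.zero_apply]
    rw [h1]
    have h2 : ∀ e' ∈ F, |(M e e' (g1 e')) (app u ystar)| ≤ κ / (2 * ((F.card : ℝ) + 1)) := by
      intro e' he'
      simp only [hg1, if_pos he']
      refine hZ' e' e he ?_ u
      intro hmem
      exact heF2 (Finset.mem_biUnion.mpr ⟨e', he', hmem⟩)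
    calc |∑ e' ∈ F, (M e e' (g1 e')) (app u ystar)|
        ≤ ∑ e' ∈ F, |(M e e' (g1 e')) (app u ystar)| := Finset.abs_sum_le_sum_abs _ _
      _ ≤ ∑ _e' ∈ F, κ / (2 * ((F.card : ℝ) + 1)) := Finset.sum_le_sum h2
      _ = F.card * (κ / (2 * ((F.card : ℝ) + 1))) := by
          rw [Finset.sum_const, nsmul_eq_mul]
      _ ≤ κ / 2 := by
          have hc : (0 : ℝ) ≤ F.card := Nat.cast_nonneg _
          rw [← mul_div_assoc, div_le_div_iff₀ (by positivity) (by norm_num)]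
          nlinarith
  -- the off-diagonal part
  have hb2 : |∑' e', (M e e' (g2 e')) (app u ystar)| ≤ κ / 2 := by
    have h1 := hF e he heF1 u (fun e' => (β + 1)⁻¹ • g2 e') (by
      intro e'
      rw [norm_smul, norm_inv, Real.norm_eq_abs, abs_of_pos hK, inv_mul_le_iff₀ hK]
      have := hg2n e'
      linarith) (by
      intro e' he'
      have : g2 e' = 0 := by
        simp only [hg2]
        rcases he' with h | h | h
        · rw [hs e' h]; simp
        · simp [h]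
        · simp [h]
      simp only [this, smul_zero])
    have h2 : ∑' e', (M e e' ((β + 1)⁻¹ • g2 e')) (app u ystar) =
        (β + 1)⁻¹ * ∑' e', (M e e' (g2 e')) (app u ystar) := by
      rw [← tsum_mul_left]
      refine tsum_congr (fun e' => ?_)
      rw [map_smul, ContinuousMap.smul_apply, smul_eq_mul]
    rw [h2, abs_mul, abs_inv, abs_of_pos hK, inv_mul_le_iff₀ hK] at h1
    refine h1.trans (le_of_eq ?_)
    field_simp
  rw [hsum]
  refine (abs_add_le _ _).trans ?_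
  linarith

/-- off-diagonal part for finitely many branches -/
theorem bs_off (a : (ℕ → Bool) → Set ℕ) (M : Mat) (C : ℝ) (hM : RowBd M C)
    (b' : ℕ → Bool)
    (hZ : ∀ (e' : ℕ) (h : CD), ∀ δ > 0, ∃ F : Finset ℕ, ∀ e ∈ a b', e ∉ F → ∀ u : Wd,
      |(M e e' h) (app u ystar)| ≤ δ) (β : ℝ) (hβ : 0 ≤ β) (t : Finset (ℕ → Bool)) :
    (∀ b ∈ t, ∀ δ > 0, ∃ F : Finset ℕ, ∀ e ∈ a b', e ∉ F → OffSmall M (a b) F e δ) →
    ∀ f : ℕ → CD, (∀ e, ‖f e‖ ≤ β) → (∀ e, (∀ b ∈ t, e ∉ a b) → f e = 0) →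
    ∀ κ : ℝ, 0 < κ →
    ∃ F : Finset ℕ, ∀ e ∈ a b', e ∉ F → ∀ u : Wd,
      |∑' e', (M e e' (if e' = e then 0 else f e')) (app u ystar)| ≤ κ := by
  classical
  induction t using Finset.induction_on with
  | empty =>
    intro _ f _ hs κ hκ
    refine ⟨∅, fun e _ _ u => ?_⟩
    have h1 : ∀ e', (M e e' (if e' = e then 0 else f e')) (app u ystar) = 0 := by
      intro e'
      have : f e' = 0 := hs e' (by simp)
      rw [this]
      simp
    rw [tsum_congr h1, tsum_zero, abs_zero]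
    exact hκ.le
  | insert b t hbt ih =>
    intro hoff f hf hs κ hκ
    set f1 : ℕ → CD := fun e => if e ∈ a b then f e else 0 with hf1
    set f2 : ℕ → CD := fun e => if e ∈ a b then 0 else f e with hf2
    have hf1n : ∀ e', ‖f1 e'‖ ≤ β := by
      intro e'
      simp only [hf1]
      split_ifs
      · exact hf e'
      · rw [norm_zero]; exact hβ
    have hf2n : ∀ e', ‖f2 e'‖ ≤ β := by
      intro e'
      simp only [hf2]
      split_ifs
      · rw [norm_zero]; exact hβ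
      · exact hf e'
    obtain ⟨F1, hF1⟩ := bs_single a M C hM b b' (hoff b (Finset.mem_insert_self _ _)) hZ f1 β hβ
      hf1n (fun e he => by simp only [hf1, if_neg he]) (κ / 2) (by linarith)
    obtain ⟨F2, hF2⟩ := ih (fun b hb => hoff b (Finset.mem_insert_of_mem hb)) f2 hf2n
      (by
        intro e he
        simp only [hf2]
        split_ifs with hab
        · rfl
        · refine hs e (fun b1 hb1 => ?_)
          rcases Finset.mem_insert.mp hb1 with rfl | h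
          · exact hab
          · exact he b1 h) (κ / 2) (by linarith)
    refine ⟨F1 ∪ F2, fun e he heF u => ?_⟩
    rw [Finset.mem_union, not_or] at heF
    have h1 := hF1 e he heF.1 u
    have h2 := hF2 e he heF.2 u
    have hn1 : ∀ e', ‖(if e' = e then 0 else f1 e')‖ ≤ β := by
      intro e'
      split_ifs
      · rw [norm_zero]; exact hβ
      · exact hf1n e'
    have hn2 : ∀ e', ‖(if e' = e then 0 else f2 e')‖ ≤ β := by
      intro e'
      split_ifs
      · rw [norm_zero]; exact hβ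
      · exact hf2n e'
    have hS1 := bs_summable hM hβ hn1 e (app u ystar)
    have hS2 := bs_summable hM hβ hn2 e (app u ystar)
    have hsum : ∑' e', (M e e' (if e' = e then 0 else f e')) (app u ystar) =
        ∑' e', (M e e' (if e' = e then 0 else f1 e')) (app u ystar) +
          ∑' e', (M e e' (if e' = e then 0 else f2 e')) (app u ystar) := by
      rw [← hS1.tsum_add hS2]
      refine tsum_congr (fun e' => ?_)
      rw [← ContinuousMap.add_apply, ← map_add]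
      congr 2
      simp only [hf1, hf2]
      split_ifs <;> simp
    rw [hsum]
    refine (abs_add_le _ _).trans ?_
    linarith

/-- the action of `M` on a function supported on finitely many good branches is asymptotically
the coordinatewise action of the table `c` -/
theorem branch_sum (a : (ℕ → Bool) → Set ℕ) (M : Mat) (C : ℝ) (hM : RowBd M C)
    (c : Tb) (ε : ℝ) (hε : 0 < ε) (t : Finset (ℕ → Bool)) (b' : ℕ → Bool)
    (hdiag : ∃ F : Finset ℕ, ∀ e ∈ a b', e ∉ F → ∀ h : CD, ‖h‖ ≤ 1 → ∀ u : Wd,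
      |(M e e h) (app u ystar) - (opD c h) (app u ystar)| ≤ 24 * ε)
    (hoff : ∀ b ∈ t, ∀ δ > 0, ∃ F : Finset ℕ, ∀ e ∈ a b', e ∉ F → OffSmall M (a b) F e δ)
    (hZ : ∀ (e' : ℕ) (h : CD), ∀ δ > 0, ∃ F : Finset ℕ, ∀ e ∈ a b', e ∉ F → ∀ u : Wd,
      |(M e e' h) (app u ystar)| ≤ δ)
    (f : ℕ → CD) (β : ℝ) (hβ : 0 ≤ β) (hf : ∀ e, ‖f e‖ ≤ β)
    (hs : ∀ e, (∀ b ∈ t, e ∉ a b) → f e = 0) (κ : ℝ) (hκ : 0 < κ) :
    ∃ F : Finset ℕ, ∀ e ∈ a b', e ∉ F → ∀ u : Wd,
      |∑' e', (M e e' (f e')) (app u ystar) - (opD c (f e)) (app u ystar)| ≤ 24 * ε * β + κ := by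
  classical
  obtain ⟨F1, hF1⟩ := hdiag
  obtain ⟨F2, hF2⟩ := bs_off a M C hM b' hZ β hβ t hoff f hf hs κ hκ
  refine ⟨F1 ∪ F2, fun e he heF u => ?_⟩
  rw [Finset.mem_union, not_or] at heF
  have h2 := hF2 e he heF.2 u
  have hd : |(M e e (f e)) (app u ystar) - (opD c (f e)) (app u ystar)| ≤ 24 * ε * β := by
    rcases hβ.eq_or_lt with h0 | hpos
    · have hfe : f e = 0 := by
        have := hf e
        rw [← h0] at this
        exact norm_le_zero_iff.mp this
      rw [hfe, map_zero, map_zero, ContinuousMap.zero_apply, sub_zero, abs_zero, ← h0, mul_zero]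
    · have h1 := hF1 e he heF.1 (β⁻¹ • f e) (by
        rw [norm_smul, norm_inv, Real.norm_eq_abs, abs_of_pos hpos, inv_mul_le_iff₀ hpos, mul_one]
        exact hf e) u
      rw [map_smul, map_smul, ContinuousMap.smul_apply, ContinuousMap.smul_apply, smul_eq_mul,
        smul_eq_mul, ← mul_sub, abs_mul, abs_inv, abs_of_pos hpos, inv_mul_le_iff₀ hpos] at h1
      linarith
  have hS := bs_summable hM hβ hf e (app u ystar)
  have hsum : ∑' e', (M e e' (f e')) (app u ystar) = (M e e (f e)) (app u ystar) +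
      ∑' e', (M e e' (if e' = e then 0 else f e')) (app u ystar) := by
    rw [hS.tsum_eq_add_tsum_ite e]
    congr 1
    refine tsum_congr (fun e' => ?_)
    split_ifs
    · simp
    · rfl
  rw [hsum]
  have h3 : (M e e (f e)) (app u ystar) +
      ∑' e', (M e e' (if e' = e then 0 else f e')) (app u ystar) - (opD c (f e)) (app u ystar) =
      ((M e e (f e)) (app u ystar) - (opD c (f e)) (app u ystar)) +
        ∑' e', (M e e' (if e' = e then 0 else f e')) (app u ystar) := by ring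
  rw [h3]
  refine (abs_add_le _ _).trans ?_
  linarith

end PBM

end Pool.Agent.S03285.CK

end

noncomputable section

open scoped BoundedContinuousFunction Topology Cardinal
open Filter Set

namespace Pool.Agent.S03285.CK

namespace PWL

theorem h441_push (h : CD) (u : Wd) : ∀ (v : Wd) (y : Dl), u.length ≤ v.length →
    pushW u h (app v y) = if v.take u.length = u then h (app (v.drop u.length) y) else 0 := by
  induction u with
  | nil => intro v y _; simp [pushW]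
  | cons i u ih =>
    intro v y hv
    cases v with
    | nil => simp at hv
    | cons j v =>
      have hv' : u.length ≤ v.length := by simpa using hv
      show pushC i (pushW u h) (cons j (app v y)) = _
      rw [pushC_apply, cons_zero, tl_cons, ih v y hv']
      by_cases hji : j = i
      · subst hji
        simp
      · simp [hji]

theorem h441_op (c : Tb) (h : CD) (x : Dl) :
    opD c h x = c.sum fun p a => a * (pushW p.1 (pullW p.2 h)) x := by
  unfold opD Finsupp.sum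
  rw [sum_apply, ContinuousMap.sum_apply]
  rfl


theorem wop_loc (c : Tb) : ∃ N : ℕ, ∀ v : Wd, N ≤ v.length → ∃ Q : Finset Wd,
    (∀ w ∈ Q, v.length ≤ w.length + N) ∧ ∀ (f : Wd → ℝ) (h : CD),
      (∀ w ∈ Q, f w = h (app w ystar)) → wop c f v = opD c h (app v ystar) := by
  classical
  refine ⟨c.support.sup (fun p => p.1.length), fun v hv => ?_⟩
  have hle : ∀ p ∈ c.support, p.1.length ≤ v.length := fun p hp =>
    (Finset.le_sup (f := fun p : List (Fin 3) × List (Fin 3) => p.1.length) hp).trans hv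
  refine ⟨c.support.image (fun p => p.2 ++ v.drop p.1.length), ?_, ?_⟩
  · intro w hw
    obtain ⟨p, hp, rfl⟩ := Finset.mem_image.mp hw
    have h1 := Finset.le_sup (f := fun p : List (Fin 3) × List (Fin 3) => p.1.length) hp
    rw [List.length_append, List.length_drop]
    omega
  · intro f h hf
    rw [h441_op]
    unfold wop Finsupp.sum
    apply Finset.sum_congr rfl
    intro p hp
    beta_reduce
    rw [h441_push _ _ _ _ (hle p hp)]
    congr 1
    split_ifs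
    · rw [pullW_apply, ← app_append]
      exact hf _ (Finset.mem_image.mpr ⟨p, hp, rfl⟩)
    · rfl

theorem wop_cov (c : Tb) : ∃ N : ℕ, ∀ v : Wd, N ≤ v.length → ∀ (f : Wd → ℝ) (j : Fin 3),
    wop c f (v ++ [j]) = wop c (fun w => f (w ++ [j])) v := by
  refine ⟨c.support.sup (fun p => p.1.length), fun v hv f j => ?_⟩
  unfold wop Finsupp.sum
  apply Finset.sum_congr rfl
  intro p hp
  have hle : p.1.length ≤ v.length :=
    (Finset.le_sup (f := fun p : List (Fin 3) × List (Fin 3) => p.1.length) hp).trans hv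
  beta_reduce
  rw [List.take_append_of_le_length hle, List.drop_append_of_le_length hle, List.append_assoc]

end PWL

namespace PWP

theorem wprod_bound
    (hbumps : ∀ Q : Finset Wd, ∃ φ : Wd → CD,
      (∀ w ∈ Q, ∀ w' ∈ Q, φ w (app w' ystar) = if w = w' then 1 else 0) ∧
      ∀ (t : Wd → ℝ) (B : ℝ), 0 ≤ B → (∀ w ∈ Q, |t w| ≤ B) → ‖∑ w ∈ Q, t w • φ w‖ ≤ B)
    (hloc : ∀ c : Tb, ∃ N : ℕ, ∀ v : Wd, N ≤ v.length → ∃ Q : Finset Wd,
      (∀ w ∈ Q, v.length ≤ w.length + N) ∧ ∀ (f : Wd → ℝ) (h : CD),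
        (∀ w ∈ Q, f w = h (app w ystar)) → wop c f v = opD c h (app v ystar))
    (c1 d1 c2 d2 : Tb) (lam ε : ℝ)
    (H : ‖(opD c1).comp (opD d1) + (opD c2).comp (opD d2) - lam • ContinuousLinearMap.id ℝ CD‖ ≤ ε) :
    ∃ N : ℕ, ∀ v : Wd, N ≤ v.length → ∀ (f : Wd → ℝ) (B : ℝ), 0 ≤ B → (∀ w, |f w| ≤ B) →
      |wop c1 (wop d1 f) v + wop c2 (wop d2 f) v - lam * f v| ≤ ε * B := by
  classical
  -- a uniform statement for a product of two tables
  have two : ∀ c d : Tb, ∃ N : ℕ, ∀ v : Wd, N ≤ v.length → ∃ Q : Finset Wd,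
      ∀ (f : Wd → ℝ) (h : CD), (∀ w ∈ Q, f w = h (app w ystar)) →
        wop c (wop d f) v = opD c (opD d h) (app v ystar) := by
    intro c d
    obtain ⟨N1, h1⟩ := hloc c
    obtain ⟨N2, h2⟩ := hloc d
    refine ⟨N1 + N2, fun v hv => ?_⟩
    obtain ⟨Q1, hQ1, hQ1'⟩ := h1 v (by omega)
    choose! Qd hQd hQd' using h2
    refine ⟨Q1.biUnion Qd, fun f h hf => ?_⟩
    apply hQ1'
    intro w hw
    have hlen := hQ1 w hw
    apply hQd' w (by omega)
    intro w' hw'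
    exact hf w' (Finset.mem_biUnion.2 ⟨w, hw, hw'⟩)
  obtain ⟨N1, h1⟩ := two c1 d1
  obtain ⟨N2, h2⟩ := two c2 d2
  refine ⟨N1 + N2, fun v hv f B hB hf => ?_⟩
  obtain ⟨Q1, hQ1⟩ := h1 v (by omega)
  obtain ⟨Q2, hQ2⟩ := h2 v (by omega)
  obtain ⟨φ, hφ, hφ'⟩ := hbumps (insert v (Q1 ∪ Q2))
  set Q : Finset Wd := insert v (Q1 ∪ Q2) with hQ
  set h : CD := ∑ w ∈ Q, f w • φ w with hh
  have hn : ‖h‖ ≤ B := hφ' f B hB (fun w _ => hf w)
  have hval : ∀ w ∈ Q, f w = h (app w ystar) := by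
    intro w hw
    rw [hh, ContinuousMap.sum_apply]
    rw [Finset.sum_eq_single w]
    · rw [ContinuousMap.smul_apply, hφ w hw w hw, if_pos rfl, smul_eq_mul, mul_one]
    · intro w' hw' hne
      rw [ContinuousMap.smul_apply, hφ w' hw' w hw, if_neg hne, smul_zero]
    · intro hn; exact absurd hw hn
  have e1 := hQ1 f h (fun w hw => hval w (by simp [hQ, hw]))
  have e2 := hQ2 f h (fun w hw => hval w (by simp [hQ, hw]))
  have e3 := hval v (by simp [hQ])
  rw [e1, e2, e3]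
  have e4 : opD c1 (opD d1 h) (app v ystar) + opD c2 (opD d2 h) (app v ystar) -
      lam * h (app v ystar) = (((opD c1).comp (opD d1) + (opD c2).comp (opD d2) -
        lam • ContinuousLinearMap.id ℝ CD) h) (app v ystar) := rfl
  rw [e4, ← Real.norm_eq_abs]
  refine (ContinuousMap.norm_coe_le_norm _ _).trans ?_
  refine (ContinuousLinearMap.le_opNorm _ _).trans ?_
  have hε : 0 ≤ ε := le_trans (norm_nonneg ((opD c1).comp (opD d1) + (opD c2).comp (opD d2) -
    lam • ContinuousLinearMap.id ℝ CD)) H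
  exact mul_le_mul H hn (norm_nonneg _) hε

end PWP

namespace POW

theorem exists_opW (c : Tb) : ∃ R : FW →L[ℝ] FW, ∀ (f : FW) (v : Wd),
    (R f) v = wop c (fun w => f w) v := by
  have hb : ∀ (f : FW) (v : Wd), ‖wop c (fun w => f w) v‖ ≤ (∑ p ∈ c.support, |c p|) * ‖f‖ := by
    intro f v
    unfold wop Finsupp.sum
    rw [Finset.sum_mul]
    refine (norm_sum_le _ _).trans (Finset.sum_le_sum fun p _ => ?_)
    rw [norm_mul, Real.norm_eq_abs]
    refine mul_le_mul_of_nonneg_left ?_ (abs_nonneg _)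
    split_ifs
    · exact lp.norm_apply_le_norm ENNReal.top_ne_zero f _
    · rw [norm_zero]; exact norm_nonneg _
  have hmem : ∀ f : FW, Memℓp (fun v => wop c (fun w => f w) v) ⊤ := fun f =>
    memℓp_infty ⟨(∑ p ∈ c.support, |c p|) * ‖f‖, by
      rintro _ ⟨v, rfl⟩
      exact hb f v⟩
  refine ⟨LinearMap.mkContinuous
    { toFun := fun f => (⟨fun v => wop c (fun w => f w) v, hmem f⟩ : FW)
      map_add' := ?_
      map_smul' := ?_ } (∑ p ∈ c.support, |c p|) ?_, ?_⟩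
  · intro f g
    apply lp.ext
    funext v
    show wop c (fun w => (f + g : FW) w) v = wop c (fun w => f w) v + wop c (fun w => g w) v
    unfold wop Finsupp.sum
    rw [← Finset.sum_add_distrib]
    refine Finset.sum_congr rfl fun p _ => ?_
    simp only []
    split_ifs
    · rw [lp.coeFn_add, Pi.add_apply, mul_add]
    · simp
  · intro r f
    apply lp.ext
    funext v
    show wop c (fun w => (r • f : FW) w) v = r * wop c (fun w => f w) v
    unfold wop Finsupp.sum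
    rw [Finset.mul_sum]
    refine Finset.sum_congr rfl fun p _ => ?_
    simp only []
    split_ifs
    · rw [lp.coeFn_smul, Pi.smul_apply, smul_eq_mul]; ring
    · simp
  · intro f
    exact lp.norm_le_of_forall_le (mul_nonneg (Finset.sum_nonneg fun _ _ => abs_nonneg _)
      (norm_nonneg _)) (fun v => hb f v)
  · intro f v
    rfl

theorem trunc (R : FW →L[ℝ] FW) (N : ℕ) (ε : ℝ) (hε : 0 ≤ ε)
    (H : ∀ v : Wd, N ≤ v.length → ∀ f : FW, |(R f) v| ≤ ε * ‖f‖) :
    ∃ s : FW →L[ℝ] FW, ‖s‖ ≤ ε ∧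
      FiniteDimensional ℝ (LinearMap.range ((R - s : FW →L[ℝ] FW) : FW →ₗ[ℝ] FW)) := by
  classical
  have hb : ∀ (f : FW) (v : Wd), ‖(if N ≤ v.length then (R f) v else 0 : ℝ)‖ ≤ ε * ‖f‖ := by
    intro f v
    split_ifs with h
    · exact H v h f
    · rw [norm_zero]; exact mul_nonneg hε (norm_nonneg _)
  have hmem : ∀ f : FW, Memℓp (fun v : Wd => (if N ≤ v.length then (R f) v else 0 : ℝ)) ⊤ := fun f =>
    memℓp_infty ⟨ε * ‖f‖, by
      rintro _ ⟨v, rfl⟩
      exact hb f v⟩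
  set sl : FW →ₗ[ℝ] FW :=
    { toFun := fun f => (⟨fun v : Wd => (if N ≤ v.length then (R f) v else 0 : ℝ), hmem f⟩ : FW)
      map_add' := by
        intro f g
        apply lp.ext
        funext v
        show (if N ≤ v.length then (R (f + g)) v else 0 : ℝ)
          = (if N ≤ v.length then (R f) v else 0) + (if N ≤ v.length then (R g) v else 0)
        split_ifs
        · rw [map_add, lp.coeFn_add, Pi.add_apply]
        · simp
      map_smul' := by
        intro r f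
        apply lp.ext
        funext v
        show (if N ≤ v.length then (R (r • f)) v else 0 : ℝ)
          = r * (if N ≤ v.length then (R f) v else 0)
        split_ifs
        · rw [map_smul, lp.coeFn_smul, Pi.smul_apply, smul_eq_mul]
        · simp } with hsl
  set s : FW →L[ℝ] FW := sl.mkContinuous ε (fun f => lp.norm_le_of_forall_le
    (mul_nonneg hε (norm_nonneg _)) (fun v => hb f v)) with hs
  refine ⟨s, LinearMap.mkContinuous_norm_le _ hε _, ?_⟩
  have hfin : {v : Wd | v.length < N}.Finite := List.finite_length_lt _ _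
  have : Finite {v : Wd | v.length < N} := hfin
  have hsv : ∀ (f : FW) (v : Wd), (s f) v = if N ≤ v.length then (R f) v else 0 := fun f v => rfl
  let L : LinearMap.range ((R - s : FW →L[ℝ] FW) : FW →ₗ[ℝ] FW) →ₗ[ℝ]
      ({v : Wd | v.length < N} → ℝ) :=
    { toFun := fun g v => (g : FW) (v : Wd)
      map_add' := fun _ _ => rfl
      map_smul' := fun _ _ => rfl }
  refine FiniteDimensional.of_injective L ?_
  rintro ⟨g, f, rfl⟩ ⟨g', f', rfl⟩ h
  apply Subtype.ext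
  apply lp.ext
  funext v
  have e : ∀ f : FW, N ≤ v.length → (((R - s : FW →L[ℝ] FW) : FW →ₗ[ℝ] FW) f) v = 0 := by
    intro f hv
    show ((R f - s f : FW)) v = 0
    rw [lp.coeFn_sub, Pi.sub_apply, hsv, if_pos hv, sub_self]
  by_cases hv : v.length < N
  · exact congrFun h ⟨v, hv⟩
  · push Not at hv
    show (((R - s : FW →L[ℝ] FW) : FW →ₗ[ℝ] FW) f) v = (((R - s : FW →L[ℝ] FW) : FW →ₗ[ℝ] FW) f') v
    rw [e f hv, e f' hv]

end POW

namespace PFR

theorem fred_ker {E G : Type} [NormedAddCommGroup E] [NormedSpace ℝ E] [CompleteSpace E]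
    [NormedAddCommGroup G] [NormedSpace ℝ G] (A : E →L[ℝ] G) (B : G →L[ℝ] E) (s : E →L[ℝ] E)
    (hs : ‖s‖ < 1)
    (hk : FiniteDimensional ℝ (LinearMap.range
      ((B.comp A - ContinuousLinearMap.id ℝ E - s : E →L[ℝ] E) : E →ₗ[ℝ] E))) :
    FiniteDimensional ℝ (LinearMap.ker (A : E →ₗ[ℝ] G)) := by
  set K : E →L[ℝ] E := B.comp A - ContinuousLinearMap.id ℝ E - s with hK
  let f : LinearMap.ker (A : E →ₗ[ℝ] G) →ₗ[ℝ] LinearMap.range (K : E →ₗ[ℝ] E) :=
    (K : E →ₗ[ℝ] E).rangeRestrict.comp (LinearMap.ker (A : E →ₗ[ℝ] G)).subtype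
  have hf : Function.Injective f := by
    rw [← LinearMap.ker_eq_bot, LinearMap.ker_eq_bot']
    intro x hx
    have hx1 : K (x : E) = 0 := by
      have := congrArg Subtype.val hx
      simpa [f] using this
    have hx2 : A (x : E) = 0 := by
      have := x.2
      rwa [LinearMap.mem_ker] at this
    have hx3 : (x : E) = - s (x : E) := by
      have h4 : K (x : E) = B (A (x : E)) - (x : E) - s (x : E) := by
        rw [hK]; rfl
      rw [h4, hx2, map_zero, zero_sub] at hx1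
      have h5 : -(x : E) = s (x : E) := sub_eq_zero.1 hx1
      rw [← h5, neg_neg]
    have h5 : ‖(x : E)‖ ≤ ‖s‖ * ‖(x : E)‖ := by
      calc ‖(x : E)‖ = ‖s (x : E)‖ := by
            conv_lhs => rw [hx3]
            rw [norm_neg]
        _ ≤ ‖s‖ * ‖(x : E)‖ := s.le_opNorm _
    have h6 : ‖(x : E)‖ = 0 := by
      have := norm_nonneg (x : E)
      nlinarith
    exact Subtype.ext (norm_eq_zero.1 h6)
  exact Module.Finite.of_injective f hf

theorem fred_coker {E G : Type} [NormedAddCommGroup E] [NormedSpace ℝ E]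
    [NormedAddCommGroup G] [NormedSpace ℝ G] [CompleteSpace G] (A : E →L[ℝ] G) (B : G →L[ℝ] E)
    (s : G →L[ℝ] G) (hs : ‖s‖ < 1)
    (hk : FiniteDimensional ℝ (LinearMap.range
      ((A.comp B - ContinuousLinearMap.id ℝ G - s : G →L[ℝ] G) : G →ₗ[ℝ] G))) :
    FiniteDimensional ℝ (G ⧸ LinearMap.range (A : E →ₗ[ℝ] G)) := by
  set K : G →L[ℝ] G := A.comp B - ContinuousLinearMap.id ℝ G - s with hK
  have hu : IsUnit (1 - (-s)) := isUnit_one_sub_of_norm_lt_one (by rwa [norm_neg])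
  obtain ⟨U, hU⟩ := hu
  have hUa : ∀ x, (U : G →L[ℝ] G) x = x + s x := by
    intro x
    rw [hU]
    simp
  have hfin : Module.Finite ℝ (G ⧸ LinearMap.ker (K : G →ₗ[ℝ] G)) :=
    Module.Finite.equiv (LinearMap.quotKerEquivRange (K : G →ₗ[ℝ] G)).symm
  let q : G →ₗ[ℝ] (G ⧸ LinearMap.range (A : E →ₗ[ℝ] G)) :=
    (LinearMap.range (A : E →ₗ[ℝ] G)).mkQ.comp ((U : G →L[ℝ] G) : G →ₗ[ℝ] G)
  have hq : LinearMap.ker (K : G →ₗ[ℝ] G) ≤ LinearMap.ker q := by
    intro x hx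
    rw [LinearMap.mem_ker] at hx ⊢
    have h4 : K x = A (B x) - x - s x := by
      rw [hK]; rfl
    have h5 : A (B x) = x + s x := by
      have h6 : A (B x) - x - s x = 0 := by rw [← h4]; exact hx
      rw [sub_sub] at h6
      exact sub_eq_zero.1 h6
    show (LinearMap.range (A : E →ₗ[ℝ] G)).mkQ ((U : G →L[ℝ] G) x) = 0
    rw [Submodule.mkQ_apply, Submodule.Quotient.mk_eq_zero, hUa, ← h5]
    exact ⟨B x, rfl⟩
  have hsurj : Function.Surjective ((LinearMap.ker (K : G →ₗ[ℝ] G)).liftQ q hq) := by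
    intro y
    obtain ⟨z, rfl⟩ := Submodule.mkQ_surjective _ y
    refine ⟨Submodule.Quotient.mk (((U⁻¹ : (G →L[ℝ] G)ˣ) : G →L[ℝ] G) z), ?_⟩
    rw [Submodule.liftQ_apply]
    show (LinearMap.range (A : E →ₗ[ℝ] G)).mkQ ((U : G →L[ℝ] G) (((U⁻¹ : (G →L[ℝ] G)ˣ) : G →L[ℝ] G) z)) = _
    have h7 : (U : G →L[ℝ] G) (((U⁻¹ : (G →L[ℝ] G)ˣ) : G →L[ℝ] G) z) = z := by
      exact congrArg (fun f : G →L[ℝ] G => f z) (Units.mul_inv U)
    rw [h7]
  exact Module.Finite.of_surjective _ hsurj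

end PFR

namespace PII

theorem index_finite_rank {V W : Type} [AddCommGroup V] [Module ℝ V] [AddCommGroup W] [Module ℝ W]
    (A B : V →ₗ[ℝ] W) [FiniteDimensional ℝ (LinearMap.ker A)]
    [FiniteDimensional ℝ (W ⧸ LinearMap.range A)]
    (hk : FiniteDimensional ℝ (LinearMap.range (A - B))) :
    FiniteDimensional ℝ (LinearMap.ker B) ∧ FiniteDimensional ℝ (W ⧸ LinearMap.range B) ∧
      A.index = B.index := by
  have hV0 : FiniteDimensional ℝ (V ⧸ LinearMap.ker (A - B)) :=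
    Module.Finite.equiv (LinearMap.quotKerEquivRange (A - B)).symm
  obtain ⟨ι, hι⟩ : ∃ ι : LinearMap.ker (A - B) →ₗ[ℝ] V, ι = (LinearMap.ker (A - B)).subtype :=
    ⟨_, rfl⟩
  have hιk : LinearMap.ker ι = ⊥ := by rw [hι]; exact Submodule.ker_subtype _
  have hιr : LinearMap.range ι = LinearMap.ker (A - B) := by rw [hι]; exact Submodule.range_subtype _
  have i1 : FiniteDimensional ℝ (LinearMap.ker ι) := by rw [hιk]; infer_instance
  have i2 : FiniteDimensional ℝ (V ⧸ LinearMap.range ι) := by rw [hιr]; exact hV0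
  have hAB : A ∘ₗ ι = B ∘ₗ ι := by
    ext x
    have hx : (A - B) (ι x) = 0 := by
      rw [hι]
      exact x.2
    rw [LinearMap.sub_apply, sub_eq_zero] at hx
    exact hx
  have i3 : FiniteDimensional ℝ (LinearMap.ker (A ∘ₗ ι)) := by
    rw [LinearMap.ker_comp]; infer_instance
  have i4 : FiniteDimensional ℝ (W ⧸ LinearMap.range (A ∘ₗ ι)) := by
    rw [LinearMap.range_comp]; infer_instance
  have hBk : FiniteDimensional ℝ (LinearMap.ker B) := by
    rw [← Submodule.fg_iff_finiteDimensional]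
    apply Submodule.fg_of_fg_map_of_fg_inf_ker (LinearMap.ker (A - B)).mkQ
    · exact IsNoetherian.noetherian _
    · rw [Submodule.ker_mkQ]
      have h1 : LinearMap.ker B ⊓ LinearMap.ker (A - B) =
          Submodule.map ι (LinearMap.ker (A ∘ₗ ι)) := by
        rw [hAB]
        ext v
        constructor
        · rintro ⟨h1, h2⟩
          refine ⟨⟨v, h2⟩, ?_, ?_⟩
          · rw [hι]
            exact h1
          · rw [hι]
            rfl
        · rintro ⟨x, hx, rfl⟩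
          refine ⟨hx, ?_⟩
          rw [hι]
          exact x.2
      rw [h1]
      exact ((Submodule.fg_iff_finiteDimensional _).2 i3).map _
  have hBr : FiniteDimensional ℝ (W ⧸ LinearMap.range B) := by
    have hle : LinearMap.range (A ∘ₗ ι) ≤ LinearMap.range B := by
      rw [hAB]
      exact LinearMap.range_comp_le_range _ _
    exact Module.Finite.of_surjective (Submodule.factor hle) (Submodule.factor_surjective hle)
  refine ⟨hBk, hBr, ?_⟩
  have h1 : (A ∘ₗ ι).index = A.index + ι.index := LinearMap.index_comp A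
  have h2 : (B ∘ₗ ι).index = B.index + ι.index := LinearMap.index_comp B
  rw [hAB] at h1
  linarith

end PII

end Pool.Agent.S03285.CK

end

noncomputable section

open scoped BoundedContinuousFunction Topology Cardinal
open Filter Set

namespace Pool.Agent.S03285.CK

section
variable {I : Type} (Φ : Fam I)

/-- the generic function as an element of `BB` -/
def gB (i : I) : BB := BB.mk (Φ.g i) 1 (Φ.g_le i)

theorem gB_Lim (i : I) : Φ.Lim (gB Φ i) 0 := by
  intro ε hε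
  refine ⟨{i}, ∅, fun e _ he => ?_⟩
  have : Φ.g i e = 0 := Φ.g_supp i e (he i (Finset.mem_singleton_self i))
  show ‖Φ.g i e - 0‖ ≤ ε
  rw [this]; simp [hε.le]

theorem gB_mem (i : I) : gB Φ i ∈ XS Φ := by
  refine ⟨⟨0, gB_Lim Φ i⟩, fun j ε hε => ?_⟩
  by_cases hij : i = j
  · subst hij
    refine ⟨.var, ∅, fun e _ _ => ?_⟩
    show ‖Φ.g i e - Φ.g i e‖ ≤ ε
    simp [hε.le]
  · refine ⟨.cst 0, (PBS.A_inter Φ hij).toFinset, fun e he hF => ?_⟩
    have h0 : Φ.g i e = 0 := by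
      apply Φ.g_supp i e
      intro h
      apply hF
      rw [Set.Finite.mem_toFinset]
      exact ⟨h, he⟩
    show ‖Φ.g i e - (Ex.cst 0).ev (Φ.g j e)‖ ≤ ε
    have : (Ex.cst 0).ev (Φ.g j e) = 0 := by ext y; simp [Ex.ev]
    rw [h0, this]; simp [hε.le]

/-- the generic function as an element of the space -/
def gX (i : I) : XS Φ := ⟨gB Φ i, gB_mem Φ i⟩

theorem bumps (Q : Finset Wd) : ∃ φ : Wd → CD,
    (∀ w ∈ Q, ∀ w' ∈ Q, φ w (app w' ystar) = if w = w' then 1 else 0) ∧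
    ∀ (t : Wd → ℝ) (B : ℝ), 0 ≤ B → (∀ w ∈ Q, |t w| ≤ B) → ‖∑ w ∈ Q, t w • φ w‖ ≤ B :=
  PBU.exists_bumps (fun _ _ h => PYS.app_ystar_inj h) Q

theorem key' (M : Mat) (C : ℝ) (hM : RowBd M C) (a : Set ℕ)
    (H : ∀ f : ℕ → CD, (∀ e, ‖f e‖ ≤ 1) → (∀ e ∉ a, f e = 0) → Appr M a f) (ε : ℝ) (hε : 0 < ε) :
    ∃ c : Tb, ∃ F : Finset ℕ, ∀ e ∈ a, e ∉ F →
      (∀ h : CD, ‖h‖ ≤ 1 → ∀ u : Wd,
        |(M e e h) (app u ystar) - (opD c h) (app u ystar)| ≤ 8 * ε) ∧ PKE.OffSmall M a F e ε :=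
  PKE.key bumps Ex.loc PTA.exists_table M C hM a ε hε
    (PBA.baire_step Ex.continuous_ev M C hM a H ε hε)

theorem row_summable {M : Mat} {C : ℝ} (hM : RowBd M C) (e : ℕ) (y : Dl) (f : ℕ → CD) (β : ℝ)
    (hf : ∀ e', ‖f e'‖ ≤ β) : Summable fun e' => (M e e' (f e')) y := by
  have hβ : 0 ≤ β := (norm_nonneg _).trans (hf 0)
  have h1 : ∀ e', ‖(β + 1)⁻¹ • f e'‖ ≤ 1 := fun e' => by
    rw [norm_smul, norm_inv, Real.norm_eq_abs, abs_of_pos (by positivity)]
    rw [inv_mul_le_iff₀ (by positivity)]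
    linarith [hf e']
  have h2 := PKE.summ hM e y (fun e' => (β + 1)⁻¹ • f e') h1
  have h3 := h2.mul_left (β + 1)
  refine h3.congr fun e' => ?_
  simp only [map_smul, ContinuousMap.smul_apply, smul_eq_mul]
  rw [← mul_assoc, mul_inv_cancel₀ (by positivity), one_mul]

/-- the operator acts by its matrix on elements supported on finitely many good `A i` -/
theorem act_finite (S : XS Φ →L[ℝ] XS Φ) (N : Set I)
    (hN : ∀ i, i ∉ N → ∀ f : XS Φ, (∀ e, e ∉ Φ.A i → (f : BB) e = 0) → ∀ (e : ℕ) (u : Wd),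
      ((S f : BB) e) (app u ystar) = ∑' e', (matOf Φ S e e' ((f : BB) e')) (app u ystar))
    (t : Finset I) (ht : ∀ i ∈ t, i ∉ N) :
    ∀ f : XS Φ, Φ.Lim (f : BB) 0 → (∀ e, (∀ i ∈ t, e ∉ Φ.A i) → (f : BB) e = 0) →
      ∀ (e : ℕ) (u : Wd),
      ((S f : BB) e) (app u ystar) = ∑' e', (matOf Φ S e e' ((f : BB) e')) (app u ystar) := by
  classical
  have hrow := PRB.RowBd_matOf Φ S
  induction t using Finset.induction_on with
  | empty =>
    intro f _ hf e u
    have h0 : f = 0 := by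
      apply Subtype.ext; apply BB.ext; intro e
      exact hf e (by simp)
    subst h0
    have h1 : ∀ e', (matOf Φ S e e' (((0 : XS Φ) : BB) e')) (app u ystar) = 0 := fun e' => by
      have : (((0 : XS Φ) : BB) e') = 0 := rfl
      rw [this, map_zero]; rfl
    simp only [h1, tsum_zero]
    rw [map_zero]; rfl
  | insert i t hi ih =>
    intro f hf0 hf e u
    have hm := PRE.restr_mem Φ (fun i j h => PBS.A_inter Φ h) f.2 hf0 {i} ∅
    have hs : ((∅ : Finset ℕ) : Set ℕ) ∪ ⋃ j ∈ ({i} : Finset I), Φ.A j = Φ.A i := by simp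
    rw [hs] at hm
    set f1 : XS Φ := ⟨restr (Φ.A i) f, hm⟩ with hf1
    set f2 : XS Φ := f - f1 with hf2
    have e1 : ∀ e, (f1 : BB) e = if e ∈ Φ.A i then (f : BB) e else 0 := fun e => restr_apply _ _ _
    have e2 : ∀ e, (f2 : BB) e = if e ∈ Φ.A i then 0 else (f : BB) e := fun e => by
      have : (f2 : BB) e = (f : BB) e - (f1 : BB) e := rfl
      rw [this, e1]
      split_ifs <;> simp
    have hL2 : Φ.Lim (f2 : BB) 0 := by
      intro ε hε
      obtain ⟨t', F', H'⟩ := hf0 ε hε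
      refine ⟨t', F', fun e he h => ?_⟩
      rw [e2]
      split_ifs
      · simp [hε.le]
      · exact H' e he h
    have s1 := hN i (ht i (Finset.mem_insert_self i t)) f1 (fun e he => by rw [e1, if_neg he]) e u
    have s2 := ih (fun j hj => ht j (Finset.mem_insert_of_mem hj)) f2 hL2 (fun e he => by
      rw [e2]
      split_ifs with h
      · rfl
      · apply hf e
        intro j hj
        rcases Finset.mem_insert.1 hj with rfl | hj
        · exact h
        · exact he j hj) e u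
    have hff : f = f1 + f2 := by rw [hf2]; abel
    have hS : (S f : BB) e = (S f1 : BB) e + (S f2 : BB) e := by
      rw [hff, map_add]; rfl
    rw [hS, ContinuousMap.add_apply, s1, s2,
      ← (row_summable hrow e _ (fun e' => (f1 : BB) e') ‖(f1 : BB)‖
        (fun e' => BB.norm_apply_le _ _)).tsum_add
        (row_summable hrow e _ (fun e' => (f2 : BB) e') ‖(f2 : BB)‖
          (fun e' => BB.norm_apply_le _ _))]
    congr 1
    funext e'
    rw [← ContinuousMap.add_apply, ← map_add]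
    congr 2
    rw [e1, e2]
    split_ifs <;> simp

end

end Pool.Agent.S03285.CK

end

noncomputable section

open scoped BoundedContinuousFunction Topology Cardinal
open Filter Set

namespace Pool.Agent.S03285.CK

section
variable {I : Type} (Φ : Fam I)

/-- elements carried (up to small norm) by finitely many `A i`, `i ∈ J` -/
def Carr (J : Set I) (k : XS Φ) : Prop :=
  ∀ κ > 0, ∃ t : Finset I, (∀ i ∈ t, i ∈ J) ∧ ∃ F : Finset ℕ,
    ∀ e, e ∉ F → (∀ i ∈ t, e ∉ Φ.A i) → ‖(k : BB) e‖ ≤ κ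

theorem Lim_of_norm_le {k k' : ℕ → CD} (h : Φ.Lim k 0) (B : ℝ) (hk : ∀ e, ‖k' e‖ ≤ B * ‖k e‖) :
    Φ.Lim k' 0 := by
  intro ε hε
  obtain ⟨t, F, H⟩ := h (ε / (|B| + 1)) (by positivity)
  refine ⟨t, F, fun e he ht => ?_⟩
  have h1 := H e he ht
  rw [sub_zero] at h1 ⊢
  calc ‖k' e‖ ≤ B * ‖k e‖ := hk e
    _ ≤ |B| * ‖k e‖ := by gcongr; exact le_abs_self B
    _ ≤ |B| * (ε / (|B| + 1)) := by gcongr
    _ ≤ ε := by
      rw [mul_div_assoc', div_le_iff₀ (by positivity)]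
      nlinarith [abs_nonneg B]

theorem restr_coe_mem {k : XS Φ} (h0 : Φ.Lim (k : BB) 0) (t : Finset I) (F : Finset ℕ) :
    restr ((F : Set ℕ) ∪ ⋃ i ∈ t, Φ.A i) (k : BB) ∈ XS Φ :=
  PRE.restr_mem Φ (fun i j h => PBS.A_inter Φ h) k.2 h0 t F

open scoped Classical in
theorem tail_small (J : Set I) (g : XS Φ) (hg : Φ.Lim (g : BB) 0) (b : ℝ) (hb : 0 ≤ b)
    (h : ∀ η, η ∉ J → ∀ κ > 0, ∃ F : Finset ℕ, ∀ e ∈ Φ.A η, e ∉ F → ‖(g : BB) e‖ ≤ b + κ)
    (κ : ℝ) (hκ : 0 < κ) : ∃ g' : XS Φ, Carr Φ J g' ∧ ‖g - g'‖ ≤ b + κ := by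
  obtain ⟨t, F, H⟩ := hg κ hκ
  choose! G hG using fun (η : I) (hη : η ∉ J) => h η hη κ hκ
  set t1 := t.filter (fun i => i ∈ J) with ht1
  set F1 := F ∪ t.biUnion G with hF1
  refine ⟨⟨restr ((F1 : Set ℕ) ∪ ⋃ i ∈ t1, Φ.A i) (g : BB), restr_coe_mem Φ hg t1 F1⟩, ?_, ?_⟩
  · intro κ' hκ'
    refine ⟨t1, fun i hi => (Finset.mem_filter.1 hi).2, F1, fun e he h' => ?_⟩
    show ‖restr _ (g : BB) e‖ ≤ κ'
    rw [restr_apply, if_neg]
    · simp [hκ'.le]
    · rintro (h1 | h1)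
      · exact he h1
      · simp only [Set.mem_iUnion] at h1
        obtain ⟨i, hi, h2⟩ := h1
        exact h' i hi h2
  · refine (BB.norm_le (by positivity)).2 fun e => ?_
    show ‖(g : BB) e - restr _ (g : BB) e‖ ≤ b + κ
    rw [restr_apply]
    split_ifs with hS
    · simp; positivity
    · rw [sub_zero]
      have h1 : e ∉ F1 := fun h => hS (Or.inl h)
      have h2 : ∀ i ∈ t1, e ∉ Φ.A i := fun i hi h => hS (Or.inr (by
        simp only [Set.mem_iUnion]; exact ⟨i, hi, h⟩))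
      by_cases h3 : ∃ η ∈ t, e ∈ Φ.A η
      · obtain ⟨η, hη, heη⟩ := h3
        have hJ : η ∉ J := fun hJ => h2 η (Finset.mem_filter.2 ⟨hη, hJ⟩) heη
        exact hG η hJ e heη (fun h => h1 (Finset.mem_union_right _ (Finset.mem_biUnion.2 ⟨η, hη, h⟩)))
      · push Not at h3
        have := H e (fun h => h1 (Finset.mem_union_left _ h)) h3
        rw [sub_zero] at this
        linarith

open scoped Classical in
theorem split_off (J : Set I) (k : XS Φ) (hk : Φ.Lim (k : BB) 0) (κ : ℝ) (hκ : 0 < κ) :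
    ∃ (k1 f : XS Φ) (t : Finset I), (∀ i ∈ t, i ∉ J) ∧ Carr Φ J k1 ∧ Φ.Lim (f : BB) 0 ∧
      (∀ e, (∀ i ∈ t, e ∉ Φ.A i) → (f : BB) e = 0) ∧ ‖f‖ ≤ ‖k‖ ∧ ‖k - k1 - f‖ ≤ κ := by
  obtain ⟨t, F, H⟩ := hk κ hκ
  set t1 := t.filter (fun i => i ∈ J) with ht1
  set t2 := t.filter (fun i => i ∉ J) with ht2
  have m1 := restr_coe_mem Φ hk t1 F
  have m2 := restr_coe_mem Φ hk t F
  have h12' : ((F : Set ℕ) ∪ ⋃ i ∈ t1, Φ.A i) ⊆ ((F : Set ℕ) ∪ ⋃ i ∈ t, Φ.A i) := by
    rintro e (h | h)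
    · exact Or.inl h
    · refine Or.inr ?_
      simp only [Set.mem_iUnion] at h ⊢
      obtain ⟨i, hi, h⟩ := h
      exact ⟨i, (Finset.mem_filter.1 hi).1, h⟩
  obtain ⟨S1, hS1⟩ : ∃ S : Set ℕ, S = (F : Set ℕ) ∪ ⋃ i ∈ t1, Φ.A i := ⟨_, rfl⟩
  obtain ⟨S2, hS2⟩ : ∃ S : Set ℕ, S = (F : Set ℕ) ∪ ⋃ i ∈ t, Φ.A i := ⟨_, rfl⟩
  rw [← hS1] at m1
  rw [← hS2] at m2
  have h12 : S1 ⊆ S2 := by rw [hS1, hS2]; exact h12'
  set k1 : XS Φ := ⟨restr S1 (k : BB), m1⟩ with hk1
  set k2 : XS Φ := ⟨restr S2 (k : BB), m2⟩ with hk2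
  have e1 : ∀ e, (k1 : BB) e = if e ∈ S1 then (k : BB) e else 0 := fun e => restr_apply _ _ _
  have e2 : ∀ e, (k2 : BB) e = if e ∈ S2 then (k : BB) e else 0 := fun e => restr_apply _ _ _
  have e3 : ∀ e, ((k2 - k1 : XS Φ) : BB) e = if e ∈ S2 \ S1 then (k : BB) e else 0 := fun e => by
    have : ((k2 - k1 : XS Φ) : BB) e = (k2 : BB) e - (k1 : BB) e := rfl
    rw [this, e1, e2]
    by_cases a1 : e ∈ S1
    · have a2 := h12 a1
      simp [a1, a2]
    · by_cases a2 : e ∈ S2 <;> simp [a1, a2]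
  refine ⟨k1, k2 - k1, t2, fun i hi => (Finset.mem_filter.1 hi).2, ?_, ?_, ?_, ?_, ?_⟩
  · intro κ' hκ'
    refine ⟨t1, fun i hi => (Finset.mem_filter.1 hi).2, F, fun e he h' => ?_⟩
    rw [e1, if_neg]
    · simp [hκ'.le]
    · rw [hS1]
      rintro (h1 | h1)
      · exact he h1
      · simp only [Set.mem_iUnion] at h1
        obtain ⟨i, hi, h2⟩ := h1
        exact h' i hi h2
  · refine Lim_of_norm_le Φ hk 1 fun e => ?_
    rw [e3, one_mul]
    split_ifs
    · exact le_rfl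
    · rw [norm_zero]; exact norm_nonneg _
  · intro e he
    rw [e3, if_neg]
    rintro ⟨h1, h2⟩
    rw [hS2] at h1
    rw [hS1] at h2
    rcases h1 with h1 | h1
    · exact h2 (Or.inl h1)
    · simp only [Set.mem_iUnion] at h1
      obtain ⟨i, hi, h3⟩ := h1
      by_cases hJ : i ∈ J
      · apply h2
        refine Or.inr ?_
        simp only [Set.mem_iUnion]
        exact ⟨i, Finset.mem_filter.2 ⟨hi, hJ⟩, h3⟩
      · exact he i (Finset.mem_filter.2 ⟨hi, hJ⟩) h3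
  · refine (BB.norm_le (norm_nonneg _)).2 fun e => ?_
    show ‖((k2 - k1 : XS Φ) : BB) e‖ ≤ ‖k‖
    rw [e3]
    split_ifs
    · exact BB.norm_apply_le _ _
    · rw [norm_zero]; exact norm_nonneg _
  · refine (BB.norm_le hκ.le).2 fun e => ?_
    show ‖((k - k1 - (k2 - k1) : XS Φ) : BB) e‖ ≤ κ
    have : ((k - k1 - (k2 - k1) : XS Φ) : BB) e = (k : BB) e - (k2 : BB) e := by
      have : k - k1 - (k2 - k1) = k - k2 := by abel
      rw [this]; rfl
    rw [this, e2]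
    split_ifs with hS
    · simp [hκ.le]
    · rw [sub_zero]
      rw [hS2] at hS
      have := H e (fun h => hS (Or.inl h)) (fun i hi h => hS (Or.inr (by
        simp only [Set.mem_iUnion]; exact ⟨i, hi, h⟩)))
      rwa [sub_zero] at this

end

end Pool.Agent.S03285.CK

end

noncomputable section

open scoped BoundedContinuousFunction Topology Cardinal
open Filter Set

namespace Pool.Agent.S03285.CK

section
variable {I : Type} (Φ : Fam I)

/-- constants -/
def cstL : CD →L[ℝ] XS Φ :=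
  LinearMap.mkContinuous
    { toFun := fun h => (⟨cst h, PCO.cst_mem Φ h⟩ : XS Φ)
      map_add' := fun a b => by apply Subtype.ext; apply BB.ext; intro e; rfl
      map_smul' := fun r a => by apply Subtype.ext; apply BB.ext; intro e; rfl } 1
    (fun h => by
      rw [one_mul]
      exact (BB.norm_le (norm_nonneg _)).2 fun e => le_rfl)

theorem cstL_norm (h : CD) : ‖cstL Φ h‖ ≤ ‖h‖ :=
  (BB.norm_le (norm_nonneg _)).2 fun e => le_rfl

theorem cstL_apply (h : CD) (e : ℕ) : (cstL Φ h : BB) e = h := rfl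

/-- the action of a table on the space -/
def hatX (c : Tb) : XS Φ →L[ℝ] XS Φ :=
  ((hat (opD c)).comp (XS Φ).subtypeL).codRestrict (XS Φ) (fun k => PMU.hat_opD_mem Φ c k.2)

theorem hatX_coe (c : Tb) (k : XS Φ) : ((hatX Φ c k : XS Φ) : BB) = hat (opD c) (k : BB) := rfl

theorem hatX_apply (c : Tb) (k : XS Φ) (e : ℕ) : (hatX Φ c k : BB) e = opD c ((k : BB) e) := rfl

theorem card_J {N1 N2 : Set I} (h1 : N1.Countable) (h2 : N2.Countable) (U : Set (ℕ → Bool))
    (hU : #U < 𝔠) : #({i | Φ.x i ∈ U} ∪ {i | Φ.y i ∈ U} ∪ (N1 ∪ N2) : Set I) < 𝔠 := by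
  have ha : #({i | Φ.x i ∈ U} : Set I) < 𝔠 := by
    refine lt_of_le_of_lt ?_ hU
    refine Cardinal.mk_le_of_injective (f := fun i : {i | Φ.x i ∈ U} => (⟨Φ.x i, i.2⟩ : U)) ?_
    intro i j hij
    exact Subtype.ext (Φ.x_inj (congrArg Subtype.val hij))
  have hb : #({i | Φ.y i ∈ U} : Set I) < 𝔠 := by
    refine lt_of_le_of_lt ?_ hU
    refine Cardinal.mk_le_of_injective (f := fun i : {i | Φ.y i ∈ U} => (⟨Φ.y i, i.2⟩ : U)) ?_
    intro i j hij
    exact Subtype.ext (Φ.y_inj (congrArg Subtype.val hij))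
  have hc : #(N1 ∪ N2 : Set I) < 𝔠 :=
    lt_of_le_of_lt (Cardinal.le_aleph0_iff_set_countable.2 (h1.union h2)) Cardinal.aleph0_lt_continuum
  refine lt_of_le_of_lt (Cardinal.mk_union_le _ _) (Cardinal.add_lt_of_lt Cardinal.aleph0_le_continuum
    (lt_of_le_of_lt (Cardinal.mk_union_le _ _) (Cardinal.add_lt_of_lt Cardinal.aleph0_le_continuum ha hb)) hc)

/-- estimate of the difference on elements supported on good `A i` -/
theorem est (T' : XS Φ →L[ℝ] XS Φ) (hT0 : ∀ k : XS Φ, Φ.Lim (T' k : BB) 0) (J : Set I)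
    (N1 : Set I) (hN1 : ∀ i, i ∉ N1 → ∀ f : XS Φ, (∀ e, e ∉ Φ.A i → (f : BB) e = 0) →
      ∀ (e : ℕ) (u : Wd),
      ((T' f : BB) e) (app u ystar) = ∑' e', (matOf Φ T' e e' ((f : BB) e')) (app u ystar))
    (hJ1 : N1 ⊆ J) (U : Set (ℕ → Bool)) (hJx : ∀ i, i ∉ J → Φ.x i ∉ U) (hJy : ∀ i, i ∉ J → Φ.y i ∉ U)
    (hZ : ∀ i, i ∉ J → ∀ (e' : ℕ) (h : CD), ∀ δ > 0, ∃ F : Finset ℕ, ∀ e ∈ Φ.A i, e ∉ F →
      ‖matOf Φ T' e e' h‖ ≤ δ)
    (c : Tb) (ε : ℝ) (hε : 0 < ε)
    (hdiag : ∀ b, b ∉ U → ∃ F : Finset ℕ, ∀ e ∈ Φ.a b, e ∉ F → ∀ h : CD, ‖h‖ ≤ 1 → ∀ u : Wd,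
      |(matOf Φ T' e e h) (app u ystar) - (opD c h) (app u ystar)| ≤ 24 * ε)
    (hoff : ∀ b b', b ∉ U → b' ∉ U → ∀ δ > 0, ∃ F : Finset ℕ, ∀ e ∈ Φ.a b', e ∉ F →
      PKE.OffSmall (matOf Φ T') (Φ.a b) F e δ)
    (t : Finset I) (ht : ∀ i ∈ t, i ∉ J) (f : XS Φ) (hf0 : Φ.Lim (f : BB) 0)
    (hfs : ∀ e, (∀ i ∈ t, e ∉ Φ.A i) → (f : BB) e = 0) (κ : ℝ) (hκ : 0 < κ) :
    ∃ g' : XS Φ, Carr Φ J g' ∧ ‖(T' - hatX Φ c) f - g'‖ ≤ 24 * ε * ‖f‖ + κ := by
  classical
  have hrow := PRB.RowBd_matOf Φ T'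
  refine tail_small Φ J _ ?_ (24 * ε * ‖f‖) (by positivity) ?_ κ hκ
  · have h1 := Fam.Lim.add Φ (hT0 f) (Fam.Lim.smul Φ (-1) (Lim_of_norm_le Φ hf0 ‖opD c‖
      (k' := (hatX Φ c f : BB)) (fun e => (opD c).le_opNorm _)))
    have h2 : (fun e => (T' f : BB) e + (-1 : ℝ) • (hatX Φ c f : BB) e) =
        (((T' - hatX Φ c) f : XS Φ) : BB) := by
      funext e
      show _ = (T' f : BB) e - (hatX Φ c f : BB) e
      rw [neg_one_smul, sub_eq_add_neg]
    rw [h2] at h1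
    simpa using h1
  · intro η hη κ' hκ'
    have hb : ∀ b', b' ∉ U → Φ.a b' ⊆ Φ.A η → ∃ F : Finset ℕ, ∀ e ∈ Φ.a b', e ∉ F →
        ‖(((T' - hatX Φ c) f : XS Φ) : BB) e‖ ≤ 24 * ε * ‖f‖ + κ' := by
      intro b' hb' hsub
      obtain ⟨F, hF⟩ := PBM.branch_sum Φ.a (matOf Φ T') ‖T'‖ hrow c ε hε
        (t.image Φ.x ∪ t.image Φ.y) b' (hdiag b' hb')
        (fun b hb δ hδ => by
          refine hoff b b' ?_ hb' δ hδ
          rcases Finset.mem_union.1 hb with h | h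
          · obtain ⟨i, hi, rfl⟩ := Finset.mem_image.1 h
            exact hJx i (ht i hi)
          · obtain ⟨i, hi, rfl⟩ := Finset.mem_image.1 h
            exact hJy i (ht i hi))
        (fun e' h δ hδ => by
          obtain ⟨F, hF⟩ := hZ η hη e' h δ hδ
          exact ⟨F, fun e he heF u =>
            (ContinuousMap.norm_coe_le_norm _ _).trans (hF e (hsub he) heF)⟩)
        (fun e => (f : BB) e) ‖f‖ (norm_nonneg _) (fun e => BB.norm_apply_le _ _)
        (fun e he => hfs e (fun i hi h => by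
          rcases h with h | h
          · exact he (Φ.x i) (Finset.mem_union_left _ (Finset.mem_image_of_mem _ hi)) h
          · exact he (Φ.y i) (Finset.mem_union_right _ (Finset.mem_image_of_mem _ hi)) h))
        κ' hκ'
      refine ⟨F, fun e he heF => PYS.norm_le_of_ystar _ _ (by positivity) fun u => ?_⟩
      have h1 := hF e he heF u
      have h2 := act_finite Φ T' N1 hN1 t (fun i hi h => ht i hi (hJ1 h)) f hf0 hfs e u
      rw [← h2] at h1
      exact h1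
    obtain ⟨F1, hF1⟩ := hb (Φ.x η) (hJx η hη) subset_union_left
    obtain ⟨F2, hF2⟩ := hb (Φ.y η) (hJy η hη) subset_union_right
    refine ⟨F1 ∪ F2, fun e he heF => ?_⟩
    rcases he with he | he
    · exact hF1 e he (fun h => heF (Finset.mem_union_left _ h))
    · exact hF2 e he (fun h => heF (Finset.mem_union_right _ h))

theorem approx (T : XS Φ →L[ℝ] XS Φ) (ε : ℝ) (hε : 0 < ε) : ∃ c : Tb, ∃ D : Set (XS Φ), #D < 𝔠 ∧
      ∀ k : XS Φ, ∀ κ > 0, ∃ d ∈ D, ‖(T k : BB) - hat (opD c) (k : BB) - (d : BB)‖ ≤ ε * ‖k‖ + κ := by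
  classical
  have hA : ∀ i j, i ≠ j → (Φ.A i ∩ Φ.A j).Finite := fun i j h => PBS.A_inter Φ h
  obtain ⟨L, hL⟩ := PLL.exists_limL Φ (fun k c c' h h' => PBS.Lim_unique Φ h h')
    (fun k c B h hB => PBS.Lim_norm Φ h B hB)
  set T' : XS Φ →L[ℝ] XS Φ := T - (cstL Φ).comp (L.comp T) with hT'
  have hT0 : ∀ k : XS Φ, Φ.Lim (T' k : BB) 0 := by
    intro k ε hε
    obtain ⟨t, F, H⟩ := hL (T k) ε hε
    refine ⟨t, F, fun e he h => ?_⟩
    rw [sub_zero]
    exact H e he h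
  have hrow := PRB.RowBd_matOf Φ T'
  have hN1 := PEX.exc_countable Φ hA T' hrow
  have hN2 := PEZ.excz_countable Φ hA T' hT0
  set N1 := {i : I | ∃ f : XS Φ, (∀ e, e ∉ Φ.A i → (f : BB) e = 0) ∧ ∃ (e : ℕ) (u : Wd),
      ((T' f : BB) e) (app u ystar) ≠
        ∑' e', (matOf Φ T' e e' ((f : BB) e')) (app u ystar)} with hN1d
  set N2 := {i : I | ∃ (e' : ℕ) (h : CD), ∃ κ > 0, ∀ F : Finset ℕ, ∃ e ∈ Φ.A i, e ∉ F ∧
      κ < ‖matOf Φ T' e e' h‖} with hN2d
  obtain ⟨i, hi, U, hU, hkill⟩ := Φ.kill (matOf Φ T') N1 hN1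
  have hN1' : ∀ i, i ∉ N1 → ∀ f : XS Φ, (∀ e, e ∉ Φ.A i → (f : BB) e = 0) →
      ∀ (e : ℕ) (u : Wd),
      ((T' f : BB) e) (app u ystar) = ∑' e', (matOf Φ T' e e' ((f : BB) e')) (app u ystar) := by
    intro i hi f hf e u
    by_contra hne
    exact hi ⟨f, hf, e, u, hne⟩
  have hAppr : Appr (matOf Φ T') (Φ.a (Φ.x i) ∪ Φ.a (Φ.y i)) (Φ.g i) := by
    intro δ hδ
    obtain ⟨P, F, H⟩ := (T' (gX Φ i)).2.2 i δ hδ
    refine ⟨P, F, fun e he heF u => ?_⟩
    have h1 := hN1' i hi (gX Φ i) (fun e he => Φ.g_supp i e he) e u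
    have h2 := H e he heF
    have h3 : |((T' (gX Φ i) : BB) e - P.ev (Φ.g i e)) (app u ystar)| ≤ δ :=
      (ContinuousMap.norm_coe_le_norm _ _).trans h2
    rw [ContinuousMap.sub_apply, h1] at h3
    exact h3
  have H := hkill hAppr
  have hkey : ∀ x' y', x' ∉ U → y' ∉ U → x' ≠ y' → ∀ ε > 0,
      ∃ c : Tb, ∃ F : Finset ℕ, ∀ e ∈ Φ.a x' ∪ Φ.a y', e ∉ F →
        (∀ h : CD, ‖h‖ ≤ 1 → ∀ u : Wd,
          |(matOf Φ T' e e h) (app u ystar) - (opD c h) (app u ystar)| ≤ 8 * ε) ∧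
        PKE.OffSmall (matOf Φ T') (Φ.a x' ∪ Φ.a y') F e ε := fun x' y' hx hy hne ε hε =>
    key' (matOf Φ T') ‖T'‖ hrow _ (H x' y' hx hy hne) ε hε
  obtain ⟨c, hc⟩ := PBD.branch_diag Φ.a PYS.norm_le_of_ystar Φ.a_inf (matOf Φ T') U hU hkey
    (ε / 48) (by positivity)
  have hoff := PBD.branch_off Φ.a (matOf Φ T') U hU hkey
  set J : Set I := {i | Φ.x i ∈ U} ∪ {i | Φ.y i ∈ U} ∪ (N1 ∪ N2) with hJ
  have hJc : #J < 𝔠 := card_J Φ hN1 hN2 U hU
  obtain ⟨D0, hD0, hdens⟩ := PDE.dens Φ hA J hJc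
  set Tr : XS Φ →L[ℝ] XS Φ := T' - hatX Φ c with hTr
  have hest := est Φ T' hT0 J N1 hN1' (fun i hi => Or.inr (Or.inl hi)) U
    (fun i hi h => hi (Or.inl (Or.inl h))) (fun i hi h => hi (Or.inl (Or.inr h)))
    (fun i hi e' h δ hδ => by
      by_contra hne
      push Not at hne
      exact hi (Or.inr (Or.inr ⟨e', h, δ, hδ, hne⟩)))
    c (ε / 48) (by positivity) hc hoff
  set q : ℕ → CD := TopologicalSpace.denseSeq CD with hq
  have hqd : ∀ (h : CD) (δ : ℝ), 0 < δ → ∃ n, ‖h - q n‖ ≤ δ := fun h δ hδ => by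
    obtain ⟨n, hn⟩ := (TopologicalSpace.denseRange_denseSeq CD).exists_dist_lt h hδ
    exact ⟨n, by rw [← dist_eq_norm]; exact hn.le⟩
  refine ⟨c, Set.range (fun p : ℕ × ℕ × D0 × D0 =>
    cstL Φ (q p.1) + Tr (cstL Φ (q p.2.1)) + Tr p.2.2.1 + p.2.2.2), ?_, ?_⟩
  · refine lt_of_le_of_lt Cardinal.mk_range_le ?_
    simp only [Cardinal.mk_prod, Cardinal.lift_id, Cardinal.mk_nat]
    have hal := Cardinal.aleph0_lt_continuum
    have hle := Cardinal.aleph0_le_continuum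
    exact Cardinal.mul_lt_of_lt hle hal (Cardinal.mul_lt_of_lt hle hal
      (Cardinal.mul_lt_of_lt hle hD0 hD0))
  · intro k κ hκ
    set δ : ℝ := κ / (3 * (‖Tr‖ + 1)) with hδd
    have hδ : 0 < δ := by positivity
    set k0 : XS Φ := k - cstL Φ (L k) with hk0
    have hk0L : Φ.Lim (k0 : BB) 0 := by
      intro ε hε
      obtain ⟨t, F, H⟩ := hL k ε hε
      refine ⟨t, F, fun e he h => ?_⟩
      rw [sub_zero]
      exact H e he h
    have hLk : ‖L k‖ ≤ ‖k‖ := PBS.Lim_norm Φ (hL k) ‖k‖ (fun e => BB.norm_apply_le _ _)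
    have hk0n : ‖k0‖ ≤ 2 * ‖k‖ := by
      calc ‖k0‖ ≤ ‖k‖ + ‖cstL Φ (L k)‖ := norm_sub_le _ _
        _ ≤ ‖k‖ + ‖k‖ := by gcongr; exact (cstL_norm Φ _).trans hLk
        _ = 2 * ‖k‖ := by ring
    obtain ⟨k1, f, t, ht, hk1, hf0, hfs, hfn, hrest⟩ := split_off Φ J k0 hk0L δ hδ
    obtain ⟨g', hg', hgn⟩ := hest t ht f hf0 hfs δ hδ
    obtain ⟨d1, hd1, hd1n⟩ := hdens k1 hk1 δ hδ
    obtain ⟨d2, hd2, hd2n⟩ := hdens g' hg' δ hδ
    obtain ⟨n, hn⟩ := hqd (L (T k)) δ hδ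
    obtain ⟨m, hm⟩ := hqd (L k) δ hδ
    refine ⟨_, ⟨(n, m, ⟨d1, hd1⟩, ⟨d2, hd2⟩), rfl⟩, ?_⟩
    have hkey2 : T k - hatX Φ c k - (cstL Φ (q n) + Tr (cstL Φ (q m)) + Tr d1 + d2) =
        cstL Φ (L (T k) - q n) + Tr (cstL Φ (L k - q m)) + Tr (k1 - d1) + (Tr f - g') + (g' - d2) +
          Tr (k0 - k1 - f) := by
      have e1 : T k = T' k + cstL Φ (L (T k)) := by
        rw [hT']; simp
      have e2 : T' k - hatX Φ c k = Tr k := by rw [hTr]; rfl
      have e3 : k = cstL Φ (L k) + k0 := by rw [hk0]; abel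
      have e4 : Tr k = Tr (cstL Φ (L k)) + Tr k0 := by
        conv_lhs => rw [e3]
        rw [map_add]
      have e5 : T k - hatX Φ c k = cstL Φ (L (T k)) + Tr k := by
        rw [← e2]; nth_rewrite 1 [e1]; abel
      rw [e5, e4]
      simp only [map_sub, map_add]
      abel
    have hcoe : (T k : BB) - hat (opD c) (k : BB) -
        ((cstL Φ (q n) + Tr (cstL Φ (q m)) + Tr d1 + d2 : XS Φ) : BB) =
        ((T k - hatX Φ c k - (cstL Φ (q n) + Tr (cstL Φ (q m)) + Tr d1 + d2) : XS Φ) : BB) := rfl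
    show ‖(T k : BB) - hat (opD c) (k : BB) -
        ((cstL Φ (q n) + Tr (cstL Φ (q m)) + Tr d1 + d2 : XS Φ) : BB)‖ ≤ _
    rw [hcoe, hkey2]
    have n1 : ‖cstL Φ (L (T k) - q n)‖ ≤ δ := (cstL_norm Φ _).trans hn
    have n2 : ‖Tr (cstL Φ (L k - q m))‖ ≤ ‖Tr‖ * δ :=
      (Tr.le_opNorm _).trans (by gcongr; exact (cstL_norm Φ _).trans hm)
    have n3 : ‖Tr (k1 - d1)‖ ≤ ‖Tr‖ * δ := (Tr.le_opNorm _).trans (by gcongr)
    have n4 : ‖Tr (k0 - k1 - f)‖ ≤ ‖Tr‖ * δ := (Tr.le_opNorm _).trans (by gcongr)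
    have n5 : 24 * (ε / 48) * ‖f‖ ≤ ε * ‖k‖ := by
      have : ‖f‖ ≤ 2 * ‖k‖ := hfn.trans hk0n
      nlinarith
    have n6 : 3 * δ + 3 * (‖Tr‖ * δ) = κ := by
      rw [hδd]; field_simp; ring
    change ‖(cstL Φ (L (T k) - q n) + Tr (cstL Φ (L k - q m)) + Tr (k1 - d1) + (Tr f - g') +
      (g' - d2) + Tr (k0 - k1 - f) : XS Φ)‖ ≤ _
    refine le_trans (norm_add_le _ _) ?_
    refine le_trans (add_le_add (norm_add_le _ _) le_rfl) ?_
    refine le_trans (add_le_add (add_le_add (norm_add_le _ _) le_rfl) le_rfl) ?_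
    refine le_trans (add_le_add (add_le_add (add_le_add (norm_add_le _ _) le_rfl) le_rfl) le_rfl) ?_
    refine le_trans (add_le_add (add_le_add (add_le_add (add_le_add (norm_add_le _ _) le_rfl) le_rfl) le_rfl) le_rfl) ?_
    have n7 : ‖Tr f - g'‖ ≤ 24 * (ε / 48) * ‖f‖ + δ := hgn
    have n8 : ‖g' - d2‖ ≤ δ := hd2n
    linarith [n1, n2, n3, n4, n5, n6, n7, n8]

end

end Pool.Agent.S03285.CK

end

noncomputable section

open scoped BoundedContinuousFunction Topology Cardinal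
open Filter Set

namespace Pool.Agent.S03285.CK

namespace PIC

theorem FW_memlp (g : List (Fin 3) → ℝ) (C : ℝ) (h : ∀ w, ‖g w‖ ≤ C) :
    Memℓp (E := fun _ : List (Fin 3) => ℝ) g ⊤ :=
  memℓp_infty ⟨C, by rintro _ ⟨w, rfl⟩; exact h w⟩

/-- shift by one letter on the right -/
def ShJ (j : Fin 3) : FW →ₗ[ℝ] FW where
  toFun f := ⟨fun w => f (w ++ [j]), FW_memlp _ ‖f‖ fun w => lp.norm_apply_le_norm
    (ENNReal.top_ne_zero) f (w ++ [j])⟩
  map_add' f g := by ext w; rfl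
  map_smul' c f := by ext w; rfl

theorem ShJ_apply (j : Fin 3) (f : FW) (w : Wd) : (ShJ j f) w = f (w ++ [j]) := rfl

def Jm : FW →ₗ[ℝ] ℝ × (Fin 3 → FW) where
  toFun f := (f [], fun j => ShJ j f)
  map_add' f g := by
    refine Prod.ext rfl ?_
    funext j
    exact map_add (ShJ j) f g
  map_smul' c f := by
    refine Prod.ext rfl ?_
    funext j
    exact map_smul (ShJ j) c f

theorem Jm_apply (f : FW) : Jm f = (f [], fun j => ShJ j f) := rfl

theorem Jm_bij : Function.Bijective Jm := by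
  constructor
  · intro f g h
    rw [Jm_apply, Jm_apply, Prod.mk.injEq] at h
    obtain ⟨h1, h2⟩ := h
    ext w
    rcases List.eq_nil_or_concat w with rfl | ⟨l, a, rfl⟩
    · exact h1
    · have := congrFun h2 a
      have h3 : (ShJ a f) l = (ShJ a g) l := by rw [this]
      rw [ShJ_apply, ShJ_apply] at h3
      simpa using h3
  · rintro ⟨x, F⟩
    have hb : ∀ w : List (Fin 3), ‖(if h : w = [] then x else F (w.getLast h) w.dropLast)‖ ≤
        ‖x‖ + ∑ j, ‖F j‖ := by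
      intro w
      have hs : ∀ j, ‖F j‖ ≤ ∑ j, ‖F j‖ := fun j =>
        Finset.single_le_sum (f := fun j => ‖F j‖) (fun i _ => norm_nonneg _) (Finset.mem_univ j)
      split_ifs with h
      · have : 0 ≤ ∑ j, ‖F j‖ := Finset.sum_nonneg fun i _ => norm_nonneg _
        linarith
      · have h1 := lp.norm_apply_le_norm ENNReal.top_ne_zero (F (w.getLast h)) w.dropLast
        have h2 := hs (w.getLast h)
        have h3 := norm_nonneg x
        linarith
    let G : List (Fin 3) → ℝ := fun w => if h : w = [] then x else F (w.getLast h) w.dropLast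
    have hG0 : G [] = x := dif_pos rfl
    refine ⟨⟨G, FW_memlp _ _ hb⟩, ?_⟩
    rw [Jm_apply]
    refine Prod.ext ?_ ?_
    · exact hG0
    · funext j
      ext w
      rw [ShJ_apply]
      show (if h : w ++ [j] = [] then x else F ((w ++ [j]).getLast h) (w ++ [j]).dropLast) = F j w
      have hne : w ++ [j] ≠ [] := by simp
      rw [dif_neg hne, List.getLast_append_singleton, List.dropLast_concat]

def J2m : FW × FW →ₗ[ℝ] (ℝ × ℝ) × (Fin 3 → FW × FW) where
  toFun f := ((f.1 [], f.2 []), fun j => (ShJ j f.1, ShJ j f.2))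
  map_add' f g := by
    refine Prod.ext rfl ?_
    funext j
    exact Prod.ext (map_add (ShJ j) f.1 g.1) (map_add (ShJ j) f.2 g.2)
  map_smul' c f := by
    refine Prod.ext rfl ?_
    funext j
    exact Prod.ext (map_smul (ShJ j) c f.1) (map_smul (ShJ j) c f.2)

theorem J2m_apply (f : FW × FW) :
    J2m f = ((f.1 [], f.2 []), fun j => (ShJ j f.1, ShJ j f.2)) := rfl

theorem J2m_bij : Function.Bijective J2m := by
  constructor
  · rintro ⟨f1, f2⟩ ⟨g1, g2⟩ h
    rw [J2m_apply, J2m_apply, Prod.mk.injEq] at h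
    obtain ⟨h1, h2⟩ := h
    rw [Prod.mk.injEq] at h1
    refine Prod.ext (Jm_bij.1 ?_) (Jm_bij.1 ?_)
    · exact Prod.ext h1.1 (funext fun j => congrArg Prod.fst (congrFun h2 j))
    · exact Prod.ext h1.2 (funext fun j => congrArg Prod.snd (congrFun h2 j))
  · rintro ⟨⟨x, y⟩, F⟩
    obtain ⟨f1, hf1⟩ := Jm_bij.2 (x, fun j => (F j).1)
    obtain ⟨f2, hf2⟩ := Jm_bij.2 (y, fun j => (F j).2)
    rw [Jm_apply, Prod.mk.injEq] at hf1 hf2
    refine ⟨(f1, f2), ?_⟩
    rw [J2m_apply]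
    refine Prod.ext (Prod.ext hf1.1 hf2.1) ?_
    funext j
    exact Prod.ext (congrFun hf1.2 j) (congrFun hf2.2 j)

/-- restriction to short words -/
def Rst (N : ℕ) : FW →ₗ[ℝ] ({v : Wd // v.length < N} → ℝ) where
  toFun f v := f v.1
  map_add' f g := rfl
  map_smul' c f := rfl

theorem findim_quot_top (X : Type) [AddCommGroup X] [Module ℝ X] :
    FiniteDimensional ℝ (X ⧸ (⊤ : Submodule ℝ X)) := by
  have : Subsingleton (X ⧸ (⊤ : Submodule ℝ X)) := by
    refine ⟨fun a b => ?_⟩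
    obtain ⟨a, rfl⟩ := Submodule.Quotient.mk_surjective _ a
    obtain ⟨b, rfl⟩ := Submodule.Quotient.mk_surjective _ b
    exact (Submodule.Quotient.eq _).2 trivial
  exact Module.Finite.of_surjective (0 : (Fin 0 → ℝ) →ₗ[ℝ] (X ⧸ (⊤ : Submodule ℝ X)))
    (fun y => ⟨0, Subsingleton.elim _ _⟩)

theorem finrank_ker_B {X Y : Type} [AddCommGroup X] [Module ℝ X] [AddCommGroup Y] [Module ℝ Y]
    (A : X →ₗ[ℝ] Y) [FiniteDimensional ℝ (LinearMap.ker A)] :
    Module.finrank ℝ (LinearMap.ker ((0 : ℝ →ₗ[ℝ] (ℝ × ℝ)).prodMap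
      (LinearMap.pi (fun j : Fin 3 => A ∘ₗ LinearMap.proj j)))) =
      1 + 3 * Module.finrank ℝ (LinearMap.ker A) := by
  let e : (LinearMap.ker ((0 : ℝ →ₗ[ℝ] (ℝ × ℝ)).prodMap
      (LinearMap.pi (fun j : Fin 3 => A ∘ₗ LinearMap.proj j)))) ≃ₗ[ℝ]
      ℝ × (Fin 3 → LinearMap.ker A) :=
    { toFun := fun x => (x.1.1, fun j => ⟨x.1.2 j, by
        have hx := x.2
        rw [LinearMap.mem_ker] at hx
        have h2 := congrArg Prod.snd hx
        have h3 := congrFun h2 j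
        exact h3⟩)
      map_add' := fun x y => rfl
      map_smul' := fun c x => rfl
      invFun := fun y => ⟨(y.1, fun j => (y.2 j).1), by
        rw [LinearMap.mem_ker]
        refine Prod.ext ?_ ?_
        · rfl
        · funext j
          exact (y.2 j).2⟩
      left_inv := fun x => rfl
      right_inv := fun y => rfl }
  rw [e.finrank_eq, Module.finrank_prod, Module.finrank_self, Module.finrank_pi_fintype]
  simp

theorem finrank_coker_B {X Y : Type} [AddCommGroup X] [Module ℝ X] [AddCommGroup Y] [Module ℝ Y]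
    (A : X →ₗ[ℝ] Y) [FiniteDimensional ℝ (Y ⧸ LinearMap.range A)] :
    Module.finrank ℝ (((ℝ × ℝ) × (Fin 3 → Y)) ⧸ LinearMap.range
      ((0 : ℝ →ₗ[ℝ] (ℝ × ℝ)).prodMap
      (LinearMap.pi (fun j : Fin 3 => A ∘ₗ LinearMap.proj j)))) =
      2 + 3 * Module.finrank ℝ (Y ⧸ LinearMap.range A) := by
  let Q : ((ℝ × ℝ) × (Fin 3 → Y)) →ₗ[ℝ] (ℝ × ℝ) × (Fin 3 → (Y ⧸ LinearMap.range A)) :=
    (LinearMap.id : (ℝ × ℝ) →ₗ[ℝ] (ℝ × ℝ)).prodMap
      (LinearMap.pi (fun j : Fin 3 => (LinearMap.range A).mkQ ∘ₗ LinearMap.proj j))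
  have hQ : ∀ x, Q x = (x.1, fun j => (LinearMap.range A).mkQ (x.2 j)) := fun x => rfl
  have hsurj : Function.Surjective Q := by
    rintro ⟨r, G⟩
    choose g hg using fun j => (LinearMap.range A).mkQ_surjective (G j)
    refine ⟨(r, g), ?_⟩
    rw [hQ]
    exact Prod.ext rfl (funext hg)
  have hker : LinearMap.range ((0 : ℝ →ₗ[ℝ] (ℝ × ℝ)).prodMap
      (LinearMap.pi (fun j : Fin 3 => A ∘ₗ LinearMap.proj j))) = LinearMap.ker Q := by
    ext y
    rw [LinearMap.mem_ker, hQ]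
    constructor
    · rintro ⟨x, rfl⟩
      refine Prod.ext rfl ?_
      funext j
      show (LinearMap.range A).mkQ (A (x.2 j)) = 0
      rw [Submodule.mkQ_apply, Submodule.Quotient.mk_eq_zero]
      exact ⟨_, rfl⟩
    · intro h
      have h1 : y.1 = 0 := congrArg Prod.fst h
      have h2 : ∀ j, ∃ x, A x = y.2 j := by
        intro j
        have := congrFun (congrArg Prod.snd h) j
        have h3 : (LinearMap.range A).mkQ (y.2 j) = 0 := this
        rw [Submodule.mkQ_apply, Submodule.Quotient.mk_eq_zero] at h3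
        exact h3
      choose x hx using h2
      refine ⟨(0, x), ?_⟩
      refine Prod.ext ?_ ?_
      · exact h1.symm
      · funext j
        exact hx j
  rw [(Submodule.quotEquivOfEq _ _ hker).finrank_eq,
    (LinearMap.quotKerEquivOfSurjective Q hsurj).finrank_eq, Module.finrank_prod,
    Module.finrank_prod, Module.finrank_self, Module.finrank_pi_fintype]
  simp

theorem index_contra
    (hinv : ∀ (V W : Type) [AddCommGroup V] [Module ℝ V] [AddCommGroup W] [Module ℝ W]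
      (A B : V →ₗ[ℝ] W) [FiniteDimensional ℝ (LinearMap.ker A)]
      [FiniteDimensional ℝ (W ⧸ LinearMap.range A)],
      FiniteDimensional ℝ (LinearMap.range (A - B)) →
      FiniteDimensional ℝ (LinearMap.ker B) ∧ FiniteDimensional ℝ (W ⧸ LinearMap.range B) ∧
        A.index = B.index)
    (A : FW →ₗ[ℝ] FW × FW) [FiniteDimensional ℝ (LinearMap.ker A)]
    [FiniteDimensional ℝ ((FW × FW) ⧸ LinearMap.range A)] (N : ℕ)
    (hcov : ∀ v : Wd, N ≤ v.length → ∀ (f g : FW) (j : Fin 3), (∀ w : Wd, g w = f (w ++ [j])) →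
      (A f).1 (v ++ [j]) = (A g).1 v ∧ (A f).2 (v ++ [j]) = (A g).2 v) : False := by
  set J : FW ≃ₗ[ℝ] ℝ × (Fin 3 → FW) := LinearEquiv.ofBijective Jm Jm_bij with hJ
  set J2 : (FW × FW) ≃ₗ[ℝ] (ℝ × ℝ) × (Fin 3 → FW × FW) :=
    LinearEquiv.ofBijective J2m J2m_bij with hJ2
  have i1 : FiniteDimensional ℝ (LinearMap.ker (J.symm : (ℝ × (Fin 3 → FW)) →ₗ[ℝ] FW)) := by
    rw [LinearEquiv.ker]; infer_instance
  have i2 : FiniteDimensional ℝ (FW ⧸ LinearMap.range (J.symm : (ℝ × (Fin 3 → FW)) →ₗ[ℝ] FW)) := by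
    rw [LinearEquiv.range]; exact findim_quot_top _
  have i3 : FiniteDimensional ℝ (LinearMap.ker (A ∘ₗ (J.symm : (ℝ × (Fin 3 → FW)) →ₗ[ℝ] FW))) := by
    rw [LinearMap.ker_comp]; infer_instance
  have i4 : FiniteDimensional ℝ ((FW × FW) ⧸
      LinearMap.range (A ∘ₗ (J.symm : (ℝ × (Fin 3 → FW)) →ₗ[ℝ] FW))) := by
    rw [LinearMap.range_comp, LinearEquiv.range, Submodule.map_top]; infer_instance
  have i5 : FiniteDimensional ℝ (LinearMap.ker
      (J2 : (FW × FW) →ₗ[ℝ] (ℝ × ℝ) × (Fin 3 → FW × FW))) := by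
    rw [LinearEquiv.ker]; infer_instance
  have i6 : FiniteDimensional ℝ (((ℝ × ℝ) × (Fin 3 → FW × FW)) ⧸ LinearMap.range
      (J2 : (FW × FW) →ₗ[ℝ] (ℝ × ℝ) × (Fin 3 → FW × FW))) := by
    rw [LinearEquiv.range]; exact findim_quot_top _
  set Ah : (ℝ × (Fin 3 → FW)) →ₗ[ℝ] (ℝ × ℝ) × (Fin 3 → FW × FW) :=
    (J2 : (FW × FW) →ₗ[ℝ] (ℝ × ℝ) × (Fin 3 → FW × FW)) ∘ₗ
      (A ∘ₗ (J.symm : (ℝ × (Fin 3 → FW)) →ₗ[ℝ] FW)) with hAh
  have i7 : FiniteDimensional ℝ (LinearMap.ker Ah) := by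
    rw [hAh, LinearMap.ker_comp]; infer_instance
  have i8 : FiniteDimensional ℝ (((ℝ × ℝ) × (Fin 3 → FW × FW)) ⧸ LinearMap.range Ah) := by
    rw [hAh, LinearMap.range_comp]; infer_instance
  have hidx : Ah.index = A.index := by
    rw [hAh, LinearMap.index_comp, LinearMap.index_comp, LinearEquiv.index_eq_zero,
      LinearEquiv.index_eq_zero]
    ring
  set Bh : (ℝ × (Fin 3 → FW)) →ₗ[ℝ] (ℝ × ℝ) × (Fin 3 → FW × FW) :=
    (0 : ℝ →ₗ[ℝ] (ℝ × ℝ)).prodMap (LinearMap.pi (fun j : Fin 3 => A ∘ₗ LinearMap.proj j)) with hBh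
  have hfin : FiniteDimensional ℝ (LinearMap.range (Ah - Bh)) := by
    have hf : Finite {v : Wd // v.length < N} := (List.finite_length_lt (Fin 3) N).to_subtype
    let D : ((ℝ × ℝ) × (Fin 3 → FW × FW)) →ₗ[ℝ]
        (ℝ × ℝ) × (Fin 3 → ({v : Wd // v.length < N} → ℝ) × ({v : Wd // v.length < N} → ℝ)) :=
      (LinearMap.id : (ℝ × ℝ) →ₗ[ℝ] (ℝ × ℝ)).prodMap
        (LinearMap.pi (fun j : Fin 3 => ((Rst N).prodMap (Rst N)) ∘ₗ LinearMap.proj j))
    have hD : ∀ x, D x = (x.1, fun j => (Rst N (x.2 j).1, Rst N (x.2 j).2)) := fun x => rfl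
    refine FiniteDimensional.of_injective (D.domRestrict (LinearMap.range (Ah - Bh))) ?_
    rw [← LinearMap.ker_eq_bot, LinearMap.ker_eq_bot']
    rintro ⟨w, x, rfl⟩ hw
    obtain ⟨f, rfl⟩ := J.surjective x
    have hval : (Ah - Bh) (J f) = (((A f).1 [], (A f).2 []), fun j =>
        (ShJ j (A f).1 - (A (ShJ j f)).1, ShJ j (A f).2 - (A (ShJ j f)).2)) := by
      rw [LinearMap.sub_apply]
      have e1 : Ah (J f) = J2m (A f) := by
        rw [hAh]
        simp only [LinearMap.comp_apply, LinearEquiv.coe_coe, LinearEquiv.symm_apply_apply]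
        rfl
      have e2 : Bh (J f) = ((0, 0), fun j => A (ShJ j f)) := rfl
      rw [e1, e2, J2m_apply]
      refine Prod.ext ?_ ?_
      · show ((A f).1 [], (A f).2 []) - ((0 : ℝ), (0 : ℝ)) = _
        rw [Prod.mk_sub_mk, sub_zero, sub_zero]
      · rfl
    have hw2 : D ((Ah - Bh) (J f)) = 0 := hw
    apply Subtype.ext
    show (Ah - Bh) (J f) = 0
    rw [hval] at hw2 ⊢
    rw [hD] at hw2
    have h1 : ((A f).1 [], (A f).2 []) = (0 : ℝ × ℝ) := congrArg Prod.fst hw2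
    have h2 := congrArg Prod.snd hw2
    refine Prod.ext h1 ?_
    funext j
    have h3 := congrFun h2 j
    have h4 : Rst N (ShJ j (A f).1 - (A (ShJ j f)).1) = 0 := congrArg Prod.fst h3
    have h5 : Rst N (ShJ j (A f).2 - (A (ShJ j f)).2) = 0 := congrArg Prod.snd h3
    refine Prod.ext ?_ ?_
    · ext v
      show (ShJ j (A f).1) v - (A (ShJ j f)).1 v = 0
      by_cases hv : v.length < N
      · exact congrFun h4 ⟨v, hv⟩
      · have := (hcov v (not_lt.1 hv) f (ShJ j f) j (fun w => rfl)).1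
        rw [ShJ_apply, this, sub_self]
    · ext v
      show (ShJ j (A f).2) v - (A (ShJ j f)).2 v = 0
      by_cases hv : v.length < N
      · exact congrFun h5 ⟨v, hv⟩
      · have := (hcov v (not_lt.1 hv) f (ShJ j f) j (fun w => rfl)).2
        rw [ShJ_apply, this, sub_self]
  obtain ⟨-, -, h⟩ := hinv _ _ Ah Bh hfin
  rw [hidx, LinearMap.index_eq_finrank_sub, LinearMap.index_eq_finrank_sub, hBh, finrank_ker_B A,
    finrank_coker_B A] at h
  push_cast at h
  omega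

end PIC

namespace PNT

namespace A7766

theorem pair (R : Tb → FW →L[ℝ] FW)
    (hR : ∀ c, ∀ (f : FW) (v : Wd), (R c f) v = wop c (fun w => f w) v)
    (c1 d1 c2 d2 : Tb) (lam ε : ℝ)
    (H : ‖(opD c1).comp (opD d1) + (opD c2).comp (opD d2) - lam • ContinuousLinearMap.id ℝ CD‖ ≤ ε) :
    ∃ s : FW →L[ℝ] FW, ‖s‖ ≤ ε ∧ FiniteDimensional ℝ (LinearMap.range
      (((R c1).comp (R d1) + (R c2).comp (R d2) - lam • ContinuousLinearMap.id ℝ FW - s :
        FW →L[ℝ] FW) : FW →ₗ[ℝ] FW)) := by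
  have hε : 0 ≤ ε := le_trans (norm_nonneg ((opD c1).comp (opD d1) + (opD c2).comp (opD d2) -
    lam • ContinuousLinearMap.id ℝ CD)) H
  obtain ⟨N, hN⟩ := PWP.wprod_bound (PBU.exists_bumps (fun _ _ h => PYS.app_ystar_inj h))
    PWL.wop_loc c1 d1 c2 d2 lam ε H
  apply POW.trunc _ N ε hε
  intro v hv f
  have h1 := hN v hv (fun w => f w) ‖f‖ (norm_nonneg _)
    (fun w => by
      rw [← Real.norm_eq_abs]
      exact lp.norm_apply_le_norm ENNReal.top_ne_zero f w)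
  have e : ∀ c d : Tb, (R c (R d f)) v = wop c (wop d (fun w => f w)) v := by
    intro c d
    rw [hR]
    congr 1
    funext w
    rw [hR]
  have h2 : (((R c1).comp (R d1) + (R c2).comp (R d2) - lam • ContinuousLinearMap.id ℝ FW :
      FW →L[ℝ] FW) f) v = wop c1 (wop d1 (fun w => f w)) v + wop c2 (wop d2 (fun w => f w)) v -
        lam * f v := by
    rw [← e, ← e]
    rfl
  rw [h2]
  exact h1

theorem single (R : Tb → FW →L[ℝ] FW)
    (hR : ∀ c, ∀ (f : FW) (v : Wd), (R c f) v = wop c (fun w => f w) v)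
    (c d : Tb) (lam ε : ℝ)
    (H : ‖(opD c).comp (opD d) - lam • ContinuousLinearMap.id ℝ CD‖ ≤ ε) :
    ∃ s : FW →L[ℝ] FW, ‖s‖ ≤ ε ∧ FiniteDimensional ℝ (LinearMap.range
      (((R c).comp (R d) - lam • ContinuousLinearMap.id ℝ FW - s :
        FW →L[ℝ] FW) : FW →ₗ[ℝ] FW)) := by
  have h0 : R 0 = 0 := by
    apply ContinuousLinearMap.ext
    intro f
    apply lp.ext
    funext v
    rw [hR]
    unfold wop
    rw [Finsupp.sum_zero_index]
    rfl
  have h1 : opD 0 = 0 := by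
    unfold opD
    rw [Finsupp.sum_zero_index]
  have h2 := pair R hR c d 0 0 lam ε (by
    rw [h1, ContinuousLinearMap.zero_comp, add_zero]
    exact H)
  rw [h0, ContinuousLinearMap.zero_comp, add_zero] at h2
  exact h2

theorem matrix_rank (T11 T12 T21 T22 : FW →ₗ[ℝ] FW)
    (h11 : FiniteDimensional ℝ (LinearMap.range T11))
    (h12 : FiniteDimensional ℝ (LinearMap.range T12))
    (h21 : FiniteDimensional ℝ (LinearMap.range T21))
    (h22 : FiniteDimensional ℝ (LinearMap.range T22))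
    (K : FW × FW →ₗ[ℝ] FW × FW)
    (hK : ∀ p, K p = (T11 p.1 + T12 p.2, T21 p.1 + T22 p.2)) :
    FiniteDimensional ℝ (LinearMap.range K) := by
  have hle : LinearMap.range K ≤ Submodule.prod (LinearMap.range T11 ⊔ LinearMap.range T12)
      (LinearMap.range T21 ⊔ LinearMap.range T22) := by
    rintro _ ⟨p, rfl⟩
    rw [hK, Submodule.mem_prod]
    exact ⟨Submodule.add_mem_sup ⟨p.1, rfl⟩ ⟨p.2, rfl⟩,
      Submodule.add_mem_sup ⟨p.1, rfl⟩ ⟨p.2, rfl⟩⟩
  have f11 := (Submodule.fg_iff_finiteDimensional _).2 h11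
  have f12 := (Submodule.fg_iff_finiteDimensional _).2 h12
  have f21 := (Submodule.fg_iff_finiteDimensional _).2 h21
  have f22 := (Submodule.fg_iff_finiteDimensional _).2 h22
  have hfg : (Submodule.prod (LinearMap.range T11 ⊔ LinearMap.range T12)
      (LinearMap.range T21 ⊔ LinearMap.range T22)).FG := (f11.sup f12).prod (f21.sup f22)
  have hfd := (Submodule.fg_iff_finiteDimensional _).1 hfg
  exact Submodule.finiteDimensional_of_le hle

theorem matrix_norm (s11 s12 s21 s22 : FW →L[ℝ] FW) {ε : ℝ} (hε : 0 ≤ ε)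
    (h11 : ‖s11‖ ≤ ε) (h12 : ‖s12‖ ≤ ε) (h21 : ‖s21‖ ≤ ε) (h22 : ‖s22‖ ≤ ε) :
    ‖(s11.coprod s12).prod (s21.coprod s22)‖ ≤ 2 * ε := by
  have key : ∀ s t : FW →L[ℝ] FW, ‖s‖ ≤ ε → ‖t‖ ≤ ε → ∀ p : FW × FW,
      ‖s p.1 + t p.2‖ ≤ 2 * ε * ‖p‖ := by
    intro s t hs ht p
    have a1 : ‖s p.1‖ ≤ ε * ‖p‖ :=
      (s.le_opNorm _).trans (mul_le_mul hs (norm_fst_le p) (norm_nonneg _) hε)
    have a2 : ‖t p.2‖ ≤ ε * ‖p‖ :=
      (t.le_opNorm _).trans (mul_le_mul ht (norm_snd_le p) (norm_nonneg _) hε)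
    have a3 := norm_add_le (s p.1) (t p.2)
    linarith
  refine ContinuousLinearMap.opNorm_le_bound _ (by positivity) fun p => ?_
  rw [Prod.norm_def]
  exact max_le (key s11 s12 h11 h12 p) (key s21 s22 h21 h22 p)

end A7766

/-- no tables can implement an approximate isomorphism between rank one and rank two -/
theorem no_tables
    (hcon : ∀ (A : FW →ₗ[ℝ] FW × FW) [FiniteDimensional ℝ (LinearMap.ker A)]
      [FiniteDimensional ℝ ((FW × FW) ⧸ LinearMap.range A)] (N : ℕ)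
      (_ : ∀ v : Wd, N ≤ v.length → ∀ (f g : FW) (j : Fin 3), (∀ w : Wd, g w = f (w ++ [j])) →
        (A f).1 (v ++ [j]) = (A g).1 v ∧ (A f).2 (v ++ [j]) = (A g).2 v), False)
    (c1 c2 d1 d2 : Tb)
    (h0 : ‖(opD d1).comp (opD c1) + (opD d2).comp (opD c2) - ContinuousLinearMap.id ℝ CD‖ ≤ 1 / 10)
    (h11 : ‖(opD c1).comp (opD d1) - ContinuousLinearMap.id ℝ CD‖ ≤ 1 / 10)
    (h12 : ‖(opD c1).comp (opD d2)‖ ≤ 1 / 10)
    (h21 : ‖(opD c2).comp (opD d1)‖ ≤ 1 / 10)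
    (h22 : ‖(opD c2).comp (opD d2) - ContinuousLinearMap.id ℝ CD‖ ≤ 1 / 10) : False := by
  choose R hR using POW.exists_opW
  obtain ⟨s, hs, hsf⟩ := A7766.pair R hR d1 c1 d2 c2 1 (1 / 10) (by rw [one_smul]; exact h0)
  obtain ⟨s11, hs11, hf11⟩ := A7766.single R hR c1 d1 1 (1 / 10) (by rw [one_smul]; exact h11)
  obtain ⟨s12, hs12, hf12⟩ := A7766.single R hR c1 d2 0 (1 / 10)
    (by rw [zero_smul, sub_zero]; exact h12)
  obtain ⟨s21, hs21, hf21⟩ := A7766.single R hR c2 d1 0 (1 / 10)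
    (by rw [zero_smul, sub_zero]; exact h21)
  obtain ⟨s22, hs22, hf22⟩ := A7766.single R hR c2 d2 1 (1 / 10) (by rw [one_smul]; exact h22)
  obtain ⟨A, hA⟩ : ∃ A : FW →L[ℝ] FW × FW, A = (R c1).prod (R c2) := ⟨_, rfl⟩
  obtain ⟨B, hB⟩ : ∃ B : FW × FW →L[ℝ] FW, B = (R d1).coprod (R d2) := ⟨_, rfl⟩
  have hA1 : ∀ f, A f = (R c1 f, R c2 f) := fun f => by rw [hA]; rfl
  have hB1 : ∀ p, B p = R d1 p.1 + R d2 p.2 := fun p => by rw [hB]; rfl
  have i1 : FiniteDimensional ℝ (LinearMap.ker (A : FW →ₗ[ℝ] FW × FW)) := by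
    apply PFR.fred_ker A B s (lt_of_le_of_lt hs (by norm_num))
    have e : (B.comp A - ContinuousLinearMap.id ℝ FW - s : FW →L[ℝ] FW) =
        (R d1).comp (R c1) + (R d2).comp (R c2) - (1 : ℝ) • ContinuousLinearMap.id ℝ FW - s := by
      rw [one_smul]
      congr 2
      apply ContinuousLinearMap.ext
      intro f
      rw [ContinuousLinearMap.comp_apply, hA1, hB1]
      rfl
    rw [e]
    exact hsf
  have i2 : FiniteDimensional ℝ ((FW × FW) ⧸ LinearMap.range (A : FW →ₗ[ℝ] FW × FW)) := by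
    apply PFR.fred_coker A B ((s11.coprod s12).prod (s21.coprod s22))
    · have := A7766.matrix_norm s11 s12 s21 s22 (by norm_num) hs11 hs12 hs21 hs22
      exact lt_of_le_of_lt this (by norm_num)
    · apply A7766.matrix_rank _ _ _ _ hf11 hf12 hf21 hf22
      intro p
      have e1 : ((A.comp B - ContinuousLinearMap.id ℝ (FW × FW) -
          (s11.coprod s12).prod (s21.coprod s22) : FW × FW →L[ℝ] FW × FW) :
            FW × FW →ₗ[ℝ] FW × FW) p =
          A (B p) - p - (s11 p.1 + s12 p.2, s21 p.1 + s22 p.2) := rfl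
      rw [e1, hA1, hB1]
      have e2 : ∀ (c d : Tb) (lam : ℝ) (t : FW →L[ℝ] FW) (x : FW),
          (((R c).comp (R d) - lam • ContinuousLinearMap.id ℝ FW - t : FW →L[ℝ] FW) :
            FW →ₗ[ℝ] FW) x = R c (R d x) - lam • x - t x := fun _ _ _ _ _ => rfl
      rw [e2, e2, e2, e2, map_add, map_add, one_smul, zero_smul, zero_smul, one_smul]
      apply Prod.ext
      · show R c1 (R d1 p.1) + R c1 (R d2 p.2) - p.1 - (s11 p.1 + s12 p.2) =
          R c1 (R d1 p.1) - p.1 - s11 p.1 + (R c1 (R d2 p.2) - 0 - s12 p.2)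
        abel
      · show R c2 (R d1 p.1) + R c2 (R d2 p.2) - p.2 - (s21 p.1 + s22 p.2) =
          R c2 (R d1 p.1) - 0 - s21 p.1 + (R c2 (R d2 p.2) - p.2 - s22 p.2)
        abel
  obtain ⟨N1, hN1⟩ := PWL.wop_cov c1
  obtain ⟨N2, hN2⟩ := PWL.wop_cov c2
  refine hcon (A : FW →ₗ[ℝ] FW × FW) (N1 + N2) ?_
  intro v hv f g j hfg
  have e : ∀ (c : Tb) (N : ℕ), (∀ v : Wd, N ≤ v.length → ∀ (f : Wd → ℝ) (j : Fin 3),
      wop c f (v ++ [j]) = wop c (fun w => f (w ++ [j])) v) → N ≤ v.length →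
      (R c f) (v ++ [j]) = (R c g) v := by
    intro c N h1 h2
    rw [hR, h1 v h2, hR]
    congr 1
    funext w
    exact (hfg w).symm
  have hAf : ∀ f, (A : FW →ₗ[ℝ] FW × FW) f = (R c1 f, R c2 f) := hA1
  rw [hAf, hAf]
  exact ⟨e c1 N1 hN1 (by omega), e c2 N2 hN2 (by omega)⟩

end PNT

end Pool.Agent.S03285.CK

end

noncomputable section

open scoped BoundedContinuousFunction Topology Cardinal
open Filter Set

namespace Pool.Agent.S03285.CK

namespace PNS

variable {I : Type} (Φ : Fam I)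


/-- approximation of a map by a small set -/
def QQ (f : XS Φ → BB) (C : ℝ) : Prop :=
  ∃ D : Set (XS Φ), #D < 𝔠 ∧ ∀ k : XS Φ, ∀ κ > 0, ∃ d ∈ D, ‖f k - (d : BB)‖ ≤ C * ‖k‖ + κ

theorem QQ.add {f g : XS Φ → BB} {C C' : ℝ} (hf : QQ Φ f C) (hg : QQ Φ g C') :
    QQ Φ (fun k => f k + g k) (C + C') := by
  obtain ⟨D, hD, H⟩ := hf
  obtain ⟨D', hD', H'⟩ := hg
  refine ⟨(fun p : XS Φ × XS Φ => p.1 + p.2) '' (D ×ˢ D'), ?_, ?_⟩
  · refine lt_of_le_of_lt Cardinal.mk_image_le ?_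
    rw [Cardinal.mk_setProd]
    exact Cardinal.mul_lt_of_lt Cardinal.aleph0_le_continuum hD hD'
  · intro k κ hκ
    obtain ⟨d, hd, h1⟩ := H k (κ / 2) (half_pos hκ)
    obtain ⟨d', hd', h2⟩ := H' k (κ / 2) (half_pos hκ)
    refine ⟨d + d', ⟨(d, d'), ⟨hd, hd'⟩, rfl⟩, ?_⟩
    have e : f k + g k - ((d + d' : XS Φ) : BB) = (f k - (d : BB)) + (g k - (d' : BB)) := by
      rw [Submodule.coe_add]; abel
    rw [e]
    refine (norm_add_le _ _).trans ?_
    linarith

theorem QQ.neg {f : XS Φ → BB} {C : ℝ} (hf : QQ Φ f C) : QQ Φ (fun k => - f k) C := by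
  obtain ⟨D, hD, H⟩ := hf
  refine ⟨(fun p : XS Φ => -p) '' D, lt_of_le_of_lt Cardinal.mk_image_le hD, ?_⟩
  intro k κ hκ
  obtain ⟨d, hd, h1⟩ := H k κ hκ
  refine ⟨-d, ⟨d, hd, rfl⟩, ?_⟩
  have e : - f k - ((-d : XS Φ) : BB) = -(f k - (d : BB)) := by
    rw [Submodule.coe_neg]; abel
  rw [e, norm_neg]
  exact h1

theorem QQ.of_bdd {f : XS Φ → BB} {C : ℝ} (h : ∀ k, ‖f k‖ ≤ C * ‖k‖) : QQ Φ f C := by
  refine ⟨{0}, ?_, ?_⟩
  · rw [Cardinal.mk_singleton]
    exact Cardinal.one_lt_aleph0.trans_le Cardinal.aleph0_le_continuum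
  · intro k κ hκ
    refine ⟨0, rfl, ?_⟩
    rw [Submodule.coe_zero, sub_zero]
    linarith [h k]

theorem QQ.congr {f g : XS Φ → BB} {C : ℝ} (hf : QQ Φ f C) (h : ∀ k, f k = g k) : QQ Φ g C := by
  have : f = g := funext h
  rw [← this]; exact hf

theorem hat_comp (t s : CD →L[ℝ] CD) (k : BB) : hat (t.comp s) k = hat t (hat s k) := by
  apply BB.ext; intro e; simp

theorem hat_norm_le (t : CD →L[ℝ] CD) (k : BB) : ‖hat t k‖ ≤ ‖t‖ * ‖k‖ :=
  (BB.norm_le (by positivity)).2 fun e =>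
      (t.le_opNorm _).trans (by gcongr; exact k.norm_apply_le e)

theorem QQ.prod
    (hmem : ∀ (c : Tb) {k : BB}, k ∈ XS Φ → hat (opD c) k ∈ XS Φ)
    (S1 S2 : XS Φ →L[ℝ] XS Φ) (a b : Tb) (ε β B0 : ℝ) (hε : 0 < ε) (hB : 0 ≤ B0)
    (hβ : ‖opD b‖ ≤ β) (hS : ‖S1‖ ≤ B0)
    (h1 : QQ Φ (fun k => (S1 k : BB) - hat (opD a) (k : BB)) ε)
    (h2 : QQ Φ (fun k => (S2 k : BB) - hat (opD b) (k : BB)) ε) :
    QQ Φ (fun k => (S1 (S2 k) : BB) - hat ((opD a).comp (opD b)) (k : BB)) (ε * β + B0 * ε) := by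
  obtain ⟨D, hD, H⟩ := h1
  obtain ⟨D', hD', H'⟩ := h2
  refine ⟨(fun p : XS Φ × XS Φ => p.1 + S1 p.2) '' (D ×ˢ D'), ?_, ?_⟩
  · refine lt_of_le_of_lt Cardinal.mk_image_le ?_
    rw [Cardinal.mk_setProd]
    exact Cardinal.mul_lt_of_lt Cardinal.aleph0_le_continuum hD hD'
  · intro k κ hκ
    let k' : XS Φ := ⟨hat (opD b) (k : BB), hmem b k.2⟩
    have hk' : ‖k'‖ ≤ β * ‖k‖ := by
      have h := hat_norm_le (opD b) (k : BB)
      have : ‖k'‖ = ‖hat (opD b) (k : BB)‖ := rfl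
      rw [this]
      refine h.trans ?_
      have : ‖(k : BB)‖ = ‖k‖ := rfl
      rw [this]
      gcongr
    obtain ⟨d, hd, e1⟩ := H k' (κ / 2) (half_pos hκ)
    obtain ⟨d', hd', e2⟩ := H' k (κ / (2 * (B0 + 1))) (by positivity)
    refine ⟨d + S1 d', ⟨(d, d'), ⟨hd, hd'⟩, rfl⟩, ?_⟩
    have e3 : (S1 (S2 k) : BB) - hat ((opD a).comp (opD b)) (k : BB) - ((d + S1 d' : XS Φ) : BB)
        = ((S1 k' : BB) - hat (opD a) (k' : BB) - (d : BB)) + ((S1 (S2 k - k' - d') : XS Φ) : BB) := by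
      rw [hat_comp, map_sub, map_sub, Submodule.coe_add, Submodule.coe_sub, Submodule.coe_sub]
      have : (k' : BB) = hat (opD b) (k : BB) := rfl
      rw [this]
      abel
    simp only [] 
    rw [e3]
    refine (norm_add_le _ _).trans ?_
    have e4 : ‖((S1 (S2 k - k' - d') : XS Φ) : BB)‖ ≤ B0 * (ε * ‖k‖ + κ / (2 * (B0 + 1))) := by
      have h5 : ‖((S1 (S2 k - k' - d') : XS Φ) : BB)‖ = ‖S1 (S2 k - k' - d')‖ := rfl
      rw [h5]
      refine (S1.le_opNorm _).trans ?_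
      have h6 : ‖S2 k - k' - d'‖ ≤ ε * ‖k‖ + κ / (2 * (B0 + 1)) := by
        have h7 : ‖S2 k - k' - d'‖ = ‖(S2 k : BB) - hat (opD b) (k : BB) - (d' : BB)‖ := rfl
        rw [h7]; exact e2
      gcongr
    have e5 : B0 * (κ / (2 * (B0 + 1))) ≤ κ / 2 := by
      rw [mul_div_assoc', div_le_div_iff₀ (by positivity) (by norm_num)]
      nlinarith
    have e6 : ε * ‖k'‖ ≤ ε * (β * ‖k‖) := by gcongr
    calc _ ≤ (ε * ‖k'‖ + κ / 2) + B0 * (ε * ‖k‖ + κ / (2 * (B0 + 1))) := add_le_add e1 e4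
      _ ≤ (ε * β + B0 * ε) * ‖k‖ + κ := by nlinarith

/-- the space is not isomorphic to its square; all hypotheses except `iso` are proved elsewhere -/
theorem no_square
    (hmem : ∀ (c : Tb) {k : BB}, k ∈ XS Φ → hat (opD c) k ∈ XS Φ)
    (happrox : ∀ (T : XS Φ →L[ℝ] XS Φ) (ε : ℝ), 0 < ε → ∃ c : Tb, ∃ D : Set (XS Φ), #D < 𝔠 ∧
      ∀ k : XS Φ, ∀ κ > 0, ∃ d ∈ D, ‖(T k : BB) - hat (opD c) (k : BB) - (d : BB)‖ ≤ ε * ‖k‖ + κ)
    (hlower : ∀ (t : CD →L[ℝ] CD) (D : Set (XS Φ)), #D < 𝔠 → ∀ C : ℝ, 0 ≤ C →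
      (∀ k : XS Φ, ∀ κ > 0, ∃ d ∈ D, ‖hat t (k : BB) - (d : BB)‖ ≤ C * ‖k‖ + κ) →
      ∀ h : CD, ‖t h‖ ≤ 2 * C * ‖h‖)
    (hnt : ∀ (c1 c2 d1 d2 : Tb),
      ‖(opD d1).comp (opD c1) + (opD d2).comp (opD c2) - ContinuousLinearMap.id ℝ CD‖ ≤ 1 / 10 →
      ‖(opD c1).comp (opD d1) - ContinuousLinearMap.id ℝ CD‖ ≤ 1 / 10 →
      ‖(opD c1).comp (opD d2)‖ ≤ 1 / 10 → ‖(opD c2).comp (opD d1)‖ ≤ 1 / 10 →
      ‖(opD c2).comp (opD d2) - ContinuousLinearMap.id ℝ CD‖ ≤ 1 / 10 → False)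
    (iso : XS Φ ≃L[ℝ] XS Φ × XS Φ) : False := by
  classical
  have hl : ∀ (t : CD →L[ℝ] CD) (C : ℝ), 0 ≤ C → QQ Φ (fun k => hat t (k : BB)) C →
      ∀ h : CD, ‖t h‖ ≤ 2 * C * ‖h‖ := by
    intro t C hC ⟨D, hD, H⟩
    exact hlower t D hD C hC H
  have hl2 : ∀ (t : CD →L[ℝ] CD) (C : ℝ), 0 ≤ C → QQ Φ (fun k => hat t (k : BB)) C →
      ‖t‖ ≤ 2 * C := fun t C hC h => ContinuousLinearMap.opNorm_le_bound _ (by positivity) (hl t C hC h)
  let U1 : XS Φ →L[ℝ] XS Φ :=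
    (ContinuousLinearMap.fst ℝ (XS Φ) (XS Φ)).comp (iso : XS Φ →L[ℝ] XS Φ × XS Φ)
  let U2 : XS Φ →L[ℝ] XS Φ :=
    (ContinuousLinearMap.snd ℝ (XS Φ) (XS Φ)).comp (iso : XS Φ →L[ℝ] XS Φ × XS Φ)
  let V1 : XS Φ →L[ℝ] XS Φ :=
    (iso.symm : XS Φ × XS Φ →L[ℝ] XS Φ).comp (ContinuousLinearMap.inl ℝ (XS Φ) (XS Φ))
  let V2 : XS Φ →L[ℝ] XS Φ :=
    (iso.symm : XS Φ × XS Φ →L[ℝ] XS Φ).comp (ContinuousLinearMap.inr ℝ (XS Φ) (XS Φ))
  have hU1 : ∀ k, U1 k = (iso k).1 := fun _ => rfl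
  have hU2 : ∀ k, U2 k = (iso k).2 := fun _ => rfl
  have hV1 : ∀ k, V1 k = iso.symm (k, 0) := fun _ => rfl
  have hV2 : ∀ k, V2 k = iso.symm (0, k) := fun _ => rfl
  have r0 : ∀ k, V1 (U1 k) + V2 (U2 k) = k := by
    intro k
    rw [hV1, hV2, ← map_add, hU1, hU2]
    simp
  have r11 : ∀ k, U1 (V1 k) = k := by intro k; rw [hU1, hV1]; simp
  have r12 : ∀ k, U1 (V2 k) = 0 := by intro k; rw [hU1, hV2]; simp
  have r21 : ∀ k, U2 (V1 k) = 0 := by intro k; rw [hU2, hV1]; simp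
  have r22 : ∀ k, U2 (V2 k) = k := by intro k; rw [hU2, hV2]; simp
  clear_value U1 U2 V1 V2
  obtain ⟨B0, hB0, bU1, bU2, bV1, bV2⟩ : ∃ B0 : ℝ, 0 ≤ B0 ∧ ‖U1‖ ≤ B0 ∧ ‖U2‖ ≤ B0 ∧ ‖V1‖ ≤ B0 ∧ ‖V2‖ ≤ B0 := by
    refine ⟨‖U1‖ + ‖U2‖ + ‖V1‖ + ‖V2‖, by positivity, ?_, ?_, ?_, ?_⟩ <;>
    linarith [norm_nonneg U1, norm_nonneg U2, norm_nonneg V1, norm_nonneg V2]
  obtain ⟨ε, hεdef⟩ : ∃ ε : ℝ, ε = 1 / (200 * (B0 + 1)) := ⟨_, rfl⟩
  have hε : 0 < ε := by rw [hεdef]; positivity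
  have hεB : ε * (B0 + 1) = 1 / 200 := by rw [hεdef]; field_simp
  have hε1 : ε ≤ 1 / 200 := by nlinarith
  have hQ : ∀ T : XS Φ →L[ℝ] XS Φ, ∃ c : Tb, QQ Φ (fun k => (T k : BB) - hat (opD c) (k : BB)) ε := by
    intro T
    obtain ⟨c, D, hD, H⟩ := happrox T ε hε
    exact ⟨c, D, hD, H⟩
  have hnorm : ∀ (T : XS Φ →L[ℝ] XS Φ) (c : Tb), ‖T‖ ≤ B0 →
      QQ Φ (fun k => (T k : BB) - hat (opD c) (k : BB)) ε → ‖opD c‖ ≤ 2 * (B0 + ε) := by
    intro T c hT hc
    apply hl2 _ _ (by positivity)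
    have h1 := QQ.add Φ (QQ.of_bdd Φ (f := fun k => ((T k : XS Φ) : BB)) (C := B0) (fun k => by
      have : ‖((T k : XS Φ) : BB)‖ = ‖T k‖ := rfl
      rw [this]
      exact (T.le_opNorm k).trans (by gcongr))) (QQ.neg Φ hc)
    exact QQ.congr Φ h1 (fun k => by abel)
  obtain ⟨c1, qU1⟩ := hQ U1
  obtain ⟨c2, qU2⟩ := hQ U2
  obtain ⟨d1, qV1⟩ := hQ V1
  obtain ⟨d2, qV2⟩ := hQ V2
  have nU1 := hnorm U1 c1 bU1 qU1
  have nU2 := hnorm U2 c2 bU2 qU2
  have nV1 := hnorm V1 d1 bV1 qV1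
  have nV2 := hnorm V2 d2 bV2 qV2
  have P11 := QQ.prod Φ hmem V1 U1 d1 c1 ε _ B0 hε hB0 nU1 bV1 qV1 qU1
  have P22 := QQ.prod Φ hmem V2 U2 d2 c2 ε _ B0 hε hB0 nU2 bV2 qV2 qU2
  have R11 := QQ.prod Φ hmem U1 V1 c1 d1 ε _ B0 hε hB0 nV1 bU1 qU1 qV1
  have R12 := QQ.prod Φ hmem U1 V2 c1 d2 ε _ B0 hε hB0 nV2 bU1 qU1 qV2
  have R21 := QQ.prod Φ hmem U2 V1 c2 d1 ε _ B0 hε hB0 nV1 bU2 qU2 qV1
  have R22 := QQ.prod Φ hmem U2 V2 c2 d2 ε _ B0 hε hB0 nV2 bU2 qU2 qV2
  have hC : ε * (2 * (B0 + ε)) + B0 * ε ≤ 1 / 40 := by nlinarith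
  have hC0 : 0 ≤ ε * (2 * (B0 + ε)) + B0 * ε := by positivity
  generalize ε * (2 * (B0 + ε)) + B0 * ε = C at P11 P22 R11 R12 R21 R22 hC hC0
  have hsub : ∀ (t s : CD →L[ℝ] CD) (k : BB), hat (t - s) k = hat t k - hat s k := by
    intro t s k; apply BB.ext; intro e; simp
  have hadd : ∀ (t s : CD →L[ℝ] CD) (k : BB), hat (t + s) k = hat t k + hat s k := by
    intro t s k; apply BB.ext; intro e; simp
  have hid : ∀ (k : BB), hat (ContinuousLinearMap.id ℝ CD) k = k := by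
    intro k; apply BB.ext; intro e; simp
  refine hnt c1 c2 d1 d2 ?_ ?_ ?_ ?_ ?_
  · refine (hl2 _ (C + C) (by positivity) ?_).trans (by linarith)
    refine QQ.congr Φ (QQ.neg Φ (QQ.add Φ P11 P22)) (fun k => ?_)
    have h := congrArg (fun z : XS Φ => (z : BB)) (r0 k)
    simp only [Submodule.coe_add] at h
    rw [hsub, hadd, hid]
    nth_rewrite 5 [← h]
    abel
  · refine (hl2 _ C hC0 ?_).trans (by linarith)
    refine QQ.congr Φ (QQ.neg Φ R11) (fun k => ?_)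
    rw [hsub, hid, r11]
    abel
  · refine (hl2 _ C hC0 ?_).trans (by linarith)
    refine QQ.congr Φ (QQ.neg Φ R12) (fun k => ?_)
    rw [r12, Submodule.coe_zero]
    abel
  · refine (hl2 _ C hC0 ?_).trans (by linarith)
    refine QQ.congr Φ (QQ.neg Φ R21) (fun k => ?_)
    rw [r21, Submodule.coe_zero]
    abel
  · refine (hl2 _ C hC0 ?_).trans (by linarith)
    refine QQ.congr Φ (QQ.neg Φ R22) (fun k => ?_)
    rw [hsub, hid, r22]
    abel

end PNS

end Pool.Agent.S03285.CK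

end

noncomputable section

open scoped BoundedContinuousFunction Topology Cardinal
open Filter Set

namespace Pool.Agent.S03285.CK

theorem exists_fam : ∃ I : Type, Nonempty (Fam I) := by
  obtain ⟨a, ha, had⟩ := PAD.exists_AD
  have hB : #(ℕ → Bool) = 𝔠 := by simp
  obtain ⟨I, x, y, g, hI, hx, hy, hxy, hQ, hk⟩ := PGR.general_rec (B := ℕ → Bool) (G := ℕ → CD)
    (S := Mat) hB PCM.card_Mat
    (fun x y f => (∀ e, ‖f e‖ ≤ 1) ∧ ∀ e ∉ a x ∪ a y, f e = 0)
    (fun x y => ⟨fun _ => 0, by simp, by simp⟩)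
    (fun M x y f => Appr M (a x ∪ a y) f)
  exact ⟨I, ⟨{ a := a, a_inf := ha, a_ad := had, x := x, y := y, x_inj := hx, y_inj := hy, xy := hxy,
               g := g, g_le := fun i => (hQ i).1, g_supp := fun i => (hQ i).2, card := hI,
               kill := fun M N hN => by
                 obtain ⟨i, hi, U, hU, h⟩ := hk M N hN
                 exact ⟨i, hi, U, hU, fun h1 x' y' hx' hy' hne f hf1 hf2 =>
                   h h1 x' y' hx' hy' hne f ⟨hf1, hf2⟩⟩ }⟩⟩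

theorem no_sq {I : Type} (Φ : Fam I) (iso : XS Φ ≃L[ℝ] XS Φ × XS Φ) : False := by
  have hA : ∀ i j, i ≠ j → (Φ.A i ∩ Φ.A j).Finite := fun i j h => PBS.A_inter Φ h
  refine PNS.no_square Φ (fun c k hk => PMU.hat_opD_mem Φ c hk) (approx Φ) ?_ ?_ iso
  · exact PLW.lower Φ hA (PBS.A_inf Φ) (fun i h => (PCO.ind_mem Φ i h hA).1)
  · exact PNT.no_tables (PIC.index_contra (fun V W _ _ _ _ A B _ _ h =>
      PII.index_finite_rank A B h))

theorem main :
    ∃ (K : Type) (_ : TopologicalSpace K) (_ : CompactSpace K) (_ : T2Space K),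
      IsEmpty (C(K, ℝ) ≃L[ℝ] C(K, ℝ) × C(K, ℝ)) ∧
      Nonempty (C(K, ℝ) ≃L[ℝ] C(K, ℝ) × C(K, ℝ) × C(K, ℝ)) := by
  obtain ⟨I, ⟨Φ⟩⟩ := exists_fam
  obtain ⟨K, i1, i2, i3, ⟨e⟩⟩ := PRP.exists_CK (XS Φ)
    (PCL.isClosed_XS Φ (fun k c B h hB => PBS.Lim_norm Φ h B hB)) (PMU.one_mem_XS Φ)
    (fun f hf g hg => PMU.mul_mem_XS Φ hf hg)
  obtain ⟨q⟩ := PCB.cube (XS Φ) (fun i k hk => PMU.hat_pull_mem Φ i hk)
    (fun i k hk => PMU.hat_push_mem Φ i hk)
  refine ⟨K, i1, i2, i3, ⟨fun s => no_sq Φ ((e.trans s).trans (e.symm.prodCongr e.symm))⟩, ?_⟩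
  exact ⟨(e.symm.trans q).trans (e.prodCongr (e.prodCongr e))⟩

end Pool.Agent.S03285.CK

end

namespace Pool.Agent.S03285

/-- There is a compact Hausdorff space K such that the real space C(K) is not linearly homeomorphic to C(K)⊕C(K) but is linearly homeomorphic to C(K)⊕C(K)⊕C(K). -/
theorem result :
    ∃ (K : Type) (_ : TopologicalSpace K) (_ : CompactSpace K) (_ : T2Space K),
      IsEmpty (C(K, ℝ) ≃L[ℝ] C(K, ℝ) × C(K, ℝ)) ∧
      Nonempty (C(K, ℝ) ≃L[ℝ] C(K, ℝ) × C(K, ℝ) × C(K, ℝ)) := by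
  exact Pool.Agent.S03285.CK.main

end Pool.Agent.S03285
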