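import Pool.Statements.S03308
import Pool.Agent.Helper99.RadFinal

set_option autoImplicit false
open Pool Pool.MP_6acab6_an

namespace Pool.Agent.S03308

/-- The negation of the preceding statement: There is a constant C such that for every n and every norm on R^n there are an invertible linear map u and orthonormal bases e, eta with (sign-average of the norm of the sum of ±u e_i) times (sign-average of the dual norm of the sum of ±(u^-1)* eta_i) at most C n. -/
theorem result :
    ¬ (∃ C : ℝ, ∀ (n : ℕ) (N : EuclideanSpace ℝ (Fin n) → ℝ),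
    (∀ x, N x = 0 → x = 0) →
    (∀ (c : ℝ) (x : EuclideanSpace ℝ (Fin n)), N (c • x) = |c| * N x) →
    (∀ x y, N (x + y) ≤ N x + N y) →
    ∃ (u : EuclideanSpace ℝ (Fin n) ≃ₗ[ℝ] EuclideanSpace ℝ (Fin n))
      (e η : OrthonormalBasis (Fin n) ℝ (EuclideanSpace ℝ (Fin n))),
      ((∑ ε : Fin n → Bool,
          N (∑ i, (if ε i then (1:ℝ) else -1) • u (e i))) / 2 ^ n) *
      ((∑ ε : Fin n → Bool,
          sSup ((fun x : EuclideanSpace ℝ (Fin n) =>
              |inner ℝ (∑ i, (if ε i then (1:ℝ) else -1) • η i) (u.symm x)|)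
            '' {x | N x ≤ 1})) / 2 ^ n)
      ≤ C * (n : ℝ)) := by
  rintro ⟨C, h⟩
  exact Pool.Agent.Helper99.Rad.final C h

end Pool.Agent.S03308
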