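import Pool.Statements.S03312
import Pool.Agent.Helper415.DGA4

set_option autoImplicit false
open Pool Pool.MP_6afacc_an

namespace Pool.Agent.S03312

/-- The negation of the preceding statement: In every real Banach space with modulus of smoothness at most γu^q (1<q≤2) and every symmetric unit-norm dictionary with dense span, every run of the Dual Greedy Algorithm, from any start, has residuals tending to 0. -/
theorem result :
    ¬ (∀ (X : Type) [NormedAddCommGroup X] [NormedSpace ℝ X] [CompleteSpace X],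
    ∀ (q γ : ℝ), 1 < q → q ≤ 2 →
    (∀ x y : X, ‖x‖ = 1 → ‖y‖ = 1 → ∀ u : ℝ, 0 < u →
        (‖x + u • y‖ + ‖x - u • y‖) / 2 - 1 ≤ γ * u ^ q) →
    ∀ D : Set X, (∀ g ∈ D, ‖g‖ = 1) → (∀ g ∈ D, -g ∈ D) →
    Dense ((Submodule.span ℝ D : Submodule ℝ X) : Set X) →
    ∀ (f : ℕ → X) (F : ℕ → X →L[ℝ] ℝ) (φ : ℕ → X) (a : ℕ → ℝ),
    (∀ m, ‖F m‖ = 1 ∧ F m (f m) = ‖f m‖) →
    (∀ m, φ m ∈ D ∧ ∀ g ∈ D, F m g ≤ F m (φ m)) →
    (∀ m, ∀ b : ℝ, ‖f m - a m • φ m‖ ≤ ‖f m - b • φ m‖) →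
    (∀ m, f (m + 1) = f m - a m • φ m) →
    Filter.Tendsto f Filter.atTop (nhds 0)) := by
  intro h
  have key := h Pool.Agent.Helper415.DGA.XX 2 (10 ^ 12) (by norm_num) le_rfl
    Pool.Agent.Helper415.DGA.smoothX Pool.Agent.Helper415.DGA.DD
    (by
      rintro g ⟨j, rfl | rfl⟩
      · exact Pool.Agent.Helper415.DGA.norm_gX j
      · rw [norm_neg]; exact Pool.Agent.Helper415.DGA.norm_gX j)
    (by
      rintro g ⟨j, rfl | rfl⟩
      · exact ⟨j, Or.inr rfl⟩
      · exact ⟨j, Or.inl (neg_neg _)⟩)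
    Pool.Agent.Helper415.DGA.dense_span
    Pool.Agent.Helper415.DGA.fX Pool.Agent.Helper415.DGA.FX
    Pool.Agent.Helper415.DGA.gX Pool.Agent.Helper415.DGA.aa
    (fun m => ⟨Pool.Agent.Helper415.DGA.norm_FX m, by
      rw [Pool.Agent.Helper415.DGA.FX_fX, Pool.Agent.Helper415.DGA.norm_fX]⟩)
    (fun m => ⟨Pool.Agent.Helper415.DGA.gX_mem m, by
      rintro g ⟨j, rfl | rfl⟩
      · exact (le_abs_self _).trans (Pool.Agent.Helper415.DGA.FX_le j m)
      · rw [map_neg]; exact (neg_le_abs _).trans (Pool.Agent.Helper415.DGA.FX_le j m)⟩)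
    (fun m b => Pool.Agent.Helper415.DGA.line_opt m b)
    (fun m => Pool.Agent.Helper415.DGA.fX_succ m)
  have h1 : Filter.Tendsto (fun m => ‖Pool.Agent.Helper415.DGA.fX m‖) Filter.atTop (nhds 0) := by
    have := key.norm
    rwa [norm_zero] at this
  have h2 : (7 / 8 : ℝ) ≤ 0 := by
    apply ge_of_tendsto' h1
    intro m
    rw [Pool.Agent.Helper415.DGA.norm_fX]
    exact Pool.Agent.Helper415.DGA.lam_ge m
  norm_num at h2

end Pool.Agent.S03312
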