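import Pool.Statements.S03319
import Pool.Agent.Helper343.NP13

set_option autoImplicit false
open Filter Topology Real
open Pool Pool.MP_6b834f_an

namespace Pool.Agent.S03319

/-- For any distinct points a_n of the Riemann sphere and numbers d_n in [0,1] with sum at most 2, some function meromorphic in the unit disc with infinite growth index α has deficiency d_n at each a_n and deficiency 0 at every other value. -/
theorem result :
    ∀ (a : ℕ → Option ℂ) (d : ℕ → ℝ), Function.Injective a →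
      (∀ n, 0 ≤ d n ∧ d n ≤ 1) → Summable d → ∑' n, d n ≤ 2 →
      ∃ f : ℂ → ℂ, MeromorphicOn f (Metric.ball (0 : ℂ) 1) ∧
        (∀ M : ℝ, ∃ᶠ r in 𝓝[<] (1 : ℝ),
          M * Real.log (1 / (1 - r)) ≤
            ∫ t in (0 : ℝ)..r,
              (1 / Real.pi * ∫ z in Metric.ball (0 : ℂ) t,
                (‖deriv f z‖ / (1 + ‖f z‖ ^ 2)) ^ 2) / t) ∧
        ∀ (b : Option ℂ) (e : ℝ),
          ((∃ n, a n = b ∧ d n = e) ∨ ((∀ n, a n ≠ b) ∧ e = 0)) →
          ∀ ε : ℝ, 0 < ε →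
            (∀ᶠ r in 𝓝[<] (1 : ℝ),
              (e - ε) * (∫ t in (0 : ℝ)..r,
                (1 / Real.pi * ∫ z in Metric.ball (0 : ℂ) t,
                  (‖deriv f z‖ / (1 + ‖f z‖ ^ 2)) ^ 2) / t)
              ≤ (2 * Real.pi)⁻¹ * ∫ θ in (0 : ℝ)..(2 * Real.pi),
                  (Option.elim b (fun z : ℂ => Real.posLog ‖f z‖)
                    (fun (c : ℂ) (z : ℂ) => Real.posLog ‖f z - c‖⁻¹))
                    (circleMap 0 r θ)) ∧
            (∃ᶠ r in 𝓝[<] (1 : ℝ),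
              (2 * Real.pi)⁻¹ * ∫ θ in (0 : ℝ)..(2 * Real.pi),
                  (Option.elim b (fun z : ℂ => Real.posLog ‖f z‖)
                    (fun (c : ℂ) (z : ℂ) => Real.posLog ‖f z - c‖⁻¹))
                    (circleMap 0 r θ)
              ≤ (e + ε) * (∫ t in (0 : ℝ)..r,
                (1 / Real.pi * ∫ z in Metric.ball (0 : ℂ) t,
                  (‖deriv f z‖ / (1 + ‖f z‖ ^ 2)) ^ 2) / t)) := by
  intro a d ha hd hs hle
  obtain ⟨b, p1, p2, p3, p4, p5⟩ := Pool.Agent.H343N.J4.seq_exists a d ha hd hs hle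
  have hb : Pool.Agent.H343N.Good b := ⟨p1, p2⟩
  refine ⟨fun z => Pool.Agent.H343N.F1 hb z / Pool.Agent.H343N.F2 hb z,
    Pool.Agent.H343N.J7.mero _ _ (Pool.Agent.H343N.F1_diff hb) (Pool.Agent.H343N.F2_diff hb),
    fun M => Pool.Agent.H343N.alpha_inf hb M, ?_⟩
  intro c e hce ε hε
  have hD : 0 ≤ e / 2 ∧ Tendsto (fun K : ℕ => (Nat.card {k : ℕ | k < K ∧ b k = c} : ℝ) / K) atTop (𝓝 (e / 2)) := by
    rcases hce with ⟨n, rfl, rfl⟩ | ⟨hn, rfl⟩
    · exact ⟨by linarith [(hd n).1], p3 n⟩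
    · refine ⟨by norm_num, ?_⟩
      rw [zero_div]
      exact p4 c hn
  obtain ⟨hD0, hS⟩ := hD
  have h1 := Pool.Agent.H343N.def_low hb c hS hε
  have h2 := Pool.Agent.H343N.def_up hb c hD0 hS (p5 c) hε
  have e2 : 2 * (e / 2) = e := by ring
  rw [e2] at h1 h2
  exact ⟨h1, h2⟩

end Pool.Agent.S03319
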