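import Pool.Statements.S03329
import Pool.Agent.Helper828.CapF

set_option autoImplicit false
open Filter Topology Asymptotics Real
open Pool Pool.MP_6dace2_an

namespace Pool.Agent.S03329

/-- For closed plates E_k(r) shrinking to distinct points z_k, with log-capacity μ_k r^ν_k(1+o(1)) and non-constant levels δ_k, the condenser capacity equals −2πΣ(δ_k−δ)²/(ν_k log r)+R/(log r)²+o(1/(log r)²) as r→0⁺. -/
theorem result :
  ∀ (n : ℕ) (z : Fin n → ℂ) (δ μ ν : Fin n → ℝ) (E : Fin n → ℝ → Set ℂ) (D R : ℝ),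
    Function.Injective z →
    (∃ k l, δ k ≠ δ l) →
    (∀ k, 0 < μ k) → (∀ k, 0 < ν k) →
    (∀ k r, IsClosed (E k r)) →
    (∀ k, ∀ ε > 0, ∀ᶠ r in 𝓝[>] (0:ℝ), E k r ⊆ Metric.ball (z k) ε) →
    (∀ k, Tendsto (fun r : ℝ =>
        (⨅ m : ℕ, ⨆ w : Fin (m+2) → E k r,
          (∏ i : Fin (m+2), ∏ j ∈ Finset.Ioi i, ‖(w i : ℂ) - (w j : ℂ)‖)
            ^ ((2:ℝ) / (((m:ℝ) + 2) * ((m:ℝ) + 1)))) / (μ k * r ^ (ν k)))
        (𝓝[>] 0) (𝓝 1)) →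
    D = (∑ k, δ k / ν k) / (∑ k, 1 / ν k) →
    R = 2 * π * (∑ k, (δ k - D) ^ 2 / (ν k) ^ 2 * Real.log (μ k)
        + ∑ k, ∑ l ∈ Finset.univ.erase k,
            (δ k - D) * (δ l - D) / (ν k * ν l) * Real.log ‖z k - z l‖) →
    (fun r : ℝ =>
        (⨅ (u : ℂ → ℝ) (_ : LocallyLipschitz u ∧ (∃ c : ℝ, Tendsto u (cocompact ℂ) (𝓝 c)) ∧
              ∀ k, ∀ x ∈ E k r, u x = δ k),
            ∫⁻ x, (‖fderiv ℝ u x‖₊ : ENNReal) ^ 2).toReal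
        - (-(2 * π) * ∑ k, (δ k - D) ^ 2 / (ν k * Real.log r) + R * (1 / Real.log r) ^ 2))
      =o[𝓝[>] 0] (fun r : ℝ => (1 / Real.log r) ^ 2) := by
  intro n z δ μ ν E D R hz hδ hμ hν hE hEz htd hD hR
  exact Pool.Agent.Helper828.Cap.main z δ μ ν E D R hz hδ hμ hν hE hEz htd hD hR

end Pool.Agent.S03329
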