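import Pool.Statements.S03333
import Pool.Agent.Helper523.Herm.Final

set_option autoImplicit false
open Pool Pool.MP_6deb90_an

namespace Pool.Agent.S03333

/-- There is a real c such that for all 2 ≤ n < m and complex a, b, 1 + H_1(z) + a H_n(z) + b H_m(z) has a zero z with ∣Im z∣ ≤ c, where H_k(z) = (-1)^k e^{z^2} (d/dz)^k e^{-z^2}. -/
theorem result :
    ∃ c : ℝ, ∀ n m : ℕ, 2 ≤ n → n < m → ∀ a b : ℂ, ∃ z : ℂ,
      |z.im| ≤ c ∧
      1 + (-1 : ℂ) ^ 1 * Complex.exp (z ^ 2) *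
            iteratedDeriv 1 (fun w : ℂ => Complex.exp (-w ^ 2)) z
        + a * ((-1 : ℂ) ^ n * Complex.exp (z ^ 2) *
            iteratedDeriv n (fun w : ℂ => Complex.exp (-w ^ 2)) z)
        + b * ((-1 : ℂ) ^ m * Complex.exp (z ^ 2) *
            iteratedDeriv m (fun w : ℂ => Complex.exp (-w ^ 2)) z) = 0 := by
  obtain ⟨R, hR⟩ := Helper523.Herm.disc_version
  refine ⟨R, ?_⟩
  intro n m hn hnm a b
  obtain ⟨z, hz, h0⟩ := hR n m hn hnm a b
  refine ⟨z, (Complex.abs_im_le_norm z).trans hz, ?_⟩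
  rw [Helper523.Herm.rodrigues, Helper523.Herm.rodrigues, Helper523.Herm.rodrigues]
  rw [Helper523.Herm.eval_Fq] at h0
  rw [Helper523.Herm.He_one]
  simpa using h0

end Pool.Agent.S03333
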