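import Pool.Statements.S03335
import Pool.Agent.Helper482.Stk.M_e7

set_option autoImplicit false
open Pool Pool.MP_6dec34_an

namespace Pool.Agent.S03335

/-- For every non-circular ellipse there is a positive-measure subset of its interior and a threshold such that every Steklov eigenfunction (harmonic inside, normal derivative = σ·u on the boundary) with σ above the threshold has constant sign on that subset. -/
theorem result :
  ∀ a b : ℝ, 0 < b → b < a →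
    ∃ S : Set (ℝ × ℝ), MeasurableSet S ∧ MeasureTheory.volume S ≠ 0 ∧
      S ⊆ {x : ℝ × ℝ | (x.1 / a) ^ 2 + (x.2 / b) ^ 2 < 1} ∧
      ∃ Λ : ℝ, ∀ σ : ℝ, Λ ≤ σ → ∀ u : ℝ × ℝ → ℝ, ContDiff ℝ 2 u →
        (∀ x : ℝ × ℝ, (x.1 / a) ^ 2 + (x.2 / b) ^ 2 < 1 →
          fderiv ℝ (fun y => fderiv ℝ u y ((1 : ℝ), (0 : ℝ))) x ((1 : ℝ), (0 : ℝ)) +
            fderiv ℝ (fun y => fderiv ℝ u y ((0 : ℝ), (1 : ℝ))) x ((0 : ℝ), (1 : ℝ)) = 0) →
        (∀ p : ℝ × ℝ, (p.1 / a) ^ 2 + (p.2 / b) ^ 2 = 1 →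
          fderiv ℝ u p (p.1 / a ^ 2, p.2 / b ^ 2) =
            σ * Real.sqrt ((p.1 / a ^ 2) ^ 2 + (p.2 / b ^ 2) ^ 2) * u p) →
        (∀ x ∈ S, 0 ≤ u x) ∨ (∀ x ∈ S, u x ≤ 0) := by
  intro a b hb hab
  exact Pool.Agent.Helper482.Stk.M_e7.steklov_main a b hb hab

end Pool.Agent.S03335
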