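import Pool.Statements.S03339

set_option autoImplicit false
open Pool Pool.MP_6eb165_an

namespace Pool.Agent.S03339

open Complex Set Metric

/-- The plane `v 0 + v 1 + v 2 = 0` in `ℂ^3` with the maximum norm. -/
noncomputable def E : Submodule ℂ (Fin 3 → ℂ) where
  carrier := {v | v 0 + v 1 + v 2 = 0}
  add_mem' := by
    intro a b ha hb
    simp only [mem_ofPred_eq, Pi.add_apply] at *
    linear_combination ha + hb
  zero_mem' := by simp
  smul_mem' := by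
    intro c a ha
    simp only [mem_ofPred_eq, Pi.smul_apply, smul_eq_mul] at *
    linear_combination c * ha

lemma mem_E (v : Fin 3 → ℂ) : v ∈ E ↔ v 0 + v 1 + v 2 = 0 := Iff.rfl

lemma sum_zero (v : E) : v.1 0 + v.1 1 + v.1 2 = 0 := v.2

/-- coordinates as continuous functionals -/
noncomputable def coord (i : Fin 3) : E →L[ℂ] ℂ :=
  (ContinuousLinearMap.proj (R := ℂ) (φ := fun _ : Fin 3 => ℂ) i).comp E.subtypeL

@[simp] lemma coord_apply (i : Fin 3) (v : E) : coord i v = v.1 i := rfl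

lemma coord_le (i : Fin 3) (v : E) : ‖v.1 i‖ ≤ ‖v‖ := norm_le_pi_norm v.1 i

lemma norm_eq_one_exists {v : E} (h : ‖v‖ = 1) : ∃ i, ‖v.1 i‖ = 1 := by
  by_contra hne
  push Not at hne
  have h1 : ∀ i, ‖v.1 i‖ < 1 := fun i => lt_of_le_of_ne (h ▸ coord_le i v) (hne i)
  have h2 : ‖v.1‖ < 1 := (pi_norm_lt_iff one_pos).2 h1
  have h3 : ‖v‖ < 1 := h2
  linarith

/-- pairs of a unit vector and a supporting unit functional -/
abbrev PP : Type := {p : E × (E →L[ℂ] ℂ) // ‖p.1‖ = 1 ∧ ‖p.2‖ = 1 ∧ p.2 p.1 = 1}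

/-- If coordinate `i` of the unit vector `x` is unimodular, it is controlled by the radius. -/
lemma coord_le_radius (F : E → E) (C : ℝ) (hF : ∀ p : PP, ‖p.1.2 (F p.1.1)‖ ≤ C)
    (x : E) (hx : ‖x‖ = 1) (i : Fin 3) (hi : ‖x.1 i‖ = 1) : ‖(F x).1 i‖ ≤ C := by
  set f : E →L[ℂ] ℂ := (starRingEnd ℂ (x.1 i)) • coord i with hf
  have hfx : f x = 1 := by
    simp only [hf, smul_apply, coord_apply, smul_eq_mul]
    rw [mul_comm, Complex.mul_conj, Complex.normSq_eq_norm_sq, hi]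
    simp
  have hfn : ‖f‖ = 1 := by
    apply le_antisymm
    · apply ContinuousLinearMap.opNorm_le_bound _ zero_le_one
      intro v
      simp only [hf, smul_apply, coord_apply, smul_eq_mul, norm_mul,
        Complex.norm_conj, hi, one_mul]
      exact coord_le i v
    · have := f.le_opNorm x
      rw [hfx, hx, mul_one] at this
      simpa using this
  have := hF ⟨(x, f), hx, hfn, hfx⟩
  simpa [hf, hi] using this

/-- a direction in the plane that kills coordinate `i` -/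
noncomputable def dir : Fin 3 → E
  | 0 => ⟨![0, 1, -1], by simp [mem_E]⟩
  | 1 => ⟨![1, 0, -1], by simp [mem_E]⟩
  | 2 => ⟨![1, -1, 0], by simp [mem_E]⟩

lemma dir_self (i : Fin 3) : (dir i).1 i = 0 := by fin_cases i <;> simp [dir]

lemma dir_other (i j : Fin 3) (h : j ≠ i) : ‖(dir i).1 j‖ = 1 := by
  fin_cases i <;> fin_cases j <;> simp [dir] at h ⊢

instance : Nontrivial E :=
  ⟨⟨dir 0, 0, by
    intro h
    have h1 := dir_other 0 1 (by decide)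
    rw [h] at h1
    simp at h1⟩⟩

lemma two_coord (w : E) (i j : Fin 3) (h : i ≠ j) (m : ℝ) (hi : ‖w.1 i‖ ≤ m) (hj : ‖w.1 j‖ ≤ m) :
    ‖w‖ ≤ 2 * m := by
  have hm : 0 ≤ m := (norm_nonneg _).trans hi
  have h0 := sum_zero w
  have key : ∀ l, ‖w.1 l‖ ≤ 2 * m := by
    intro l
    by_cases hl : l = i
    · subst hl; linarith
    by_cases hl' : l = j
    · subst hl'; linarith
    have : w.1 l = -(w.1 i + w.1 j) := by
      fin_cases i <;> fin_cases j <;> fin_cases l <;> simp at h hl hl' ⊢ <;>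
        linear_combination h0
    rw [this, norm_neg]
    calc ‖w.1 i + w.1 j‖ ≤ ‖w.1 i‖ + ‖w.1 j‖ := norm_add_le _ _
      _ ≤ 2 * m := by linarith
  exact (pi_norm_le_iff_of_nonneg (by linarith)).2 key

/-- Maximum principle: the norm of a holomorphic map on the unit ball is dominated by its
values at points with two unimodular coordinates. -/
lemma two_active (F : E → E) (hF : Differentiable ℂ F) (y : E) (hy : ‖y‖ ≤ 1) :
    ∃ (x : E) (i j : Fin 3), ‖x‖ = 1 ∧ i ≠ j ∧ ‖x.1 i‖ = 1 ∧ ‖x.1 j‖ = 1 ∧ ‖F y‖ ≤ ‖F x‖ := by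
  obtain ⟨z, hz, hmax⟩ := Complex.exists_mem_frontier_isMaxOn_norm (f := F) (U := ball (0 : E) 1)
    isBounded_ball ⟨0, by simp⟩ hF.diffContOnCl
  rw [frontier_ball (0 : E) one_ne_zero] at hz
  have hz1 : ‖z‖ = 1 := by simpa using hz
  have hyz : ‖F y‖ ≤ ‖F z‖ := by
    apply hmax
    rw [closure_ball (0 : E) one_ne_zero]
    simpa using hy
  obtain ⟨i, hi⟩ := norm_eq_one_exists hz1
  by_cases hex : ∃ j, j ≠ i ∧ ‖z.1 j‖ = 1
  · obtain ⟨j, hji, hj⟩ := hex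
    exact ⟨z, i, j, hz1, hji.symm, hi, hj, hyz⟩
  push Not at hex
  have hlt : ∀ j, j ≠ i → ‖z.1 j‖ < 1 := fun j hj =>
    lt_of_le_of_ne (hz1 ▸ coord_le j z) (hex j hj)
  set U : Set ℂ := {ζ : ℂ | ∀ j, j ≠ i → ‖z.1 j + ζ * (dir i).1 j‖ < 1} with hU
  have h0U : (0 : ℂ) ∈ U := by
    intro j hj
    simpa using hlt j hj
  have hUo : IsOpen U := by
    have : U = ⋂ j : Fin 3, {ζ : ℂ | j ≠ i → ‖z.1 j + ζ * (dir i).1 j‖ < 1} := by
      ext ζ; simp [hU]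
    rw [this]
    apply isOpen_iInter_of_finite
    intro j
    by_cases hj : j ≠ i
    · simp only [hj, ne_eq, not_false_eq_true, forall_true_left]
      exact isOpen_lt (by fun_prop) continuous_const
    · simp [hj]
  obtain ⟨j0, hj0⟩ : ∃ j0 : Fin 3, j0 ≠ i := exists_ne i
  have hUb : Bornology.IsBounded U := by
    apply (isBounded_ball (x := (0 : ℂ)) (r := 3)).subset
    intro ζ hζ
    have h1 := hζ j0 hj0
    have h2 : ‖ζ * (dir i).1 j0‖ = ‖ζ‖ := by rw [norm_mul, dir_other i j0 hj0, mul_one]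
    have h3 : ‖ζ * (dir i).1 j0‖ ≤ ‖z.1 j0 + ζ * (dir i).1 j0‖ + ‖z.1 j0‖ := by
      have : ζ * (dir i).1 j0 = (z.1 j0 + ζ * (dir i).1 j0) - z.1 j0 := by ring
      calc ‖ζ * (dir i).1 j0‖ = ‖(z.1 j0 + ζ * (dir i).1 j0) - z.1 j0‖ := by rw [← this]
        _ ≤ _ := norm_sub_le _ _
    have h4 := hlt j0 hj0
    simp only [mem_ball, dist_zero_right]
    linarith
  obtain ⟨ζ, hζ, hζmax⟩ := Complex.exists_mem_frontier_isMaxOn_norm
    (f := fun ζ : ℂ => F (z + ζ • dir i)) (U := U) hUb ⟨0, h0U⟩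
    (Differentiable.diffContOnCl (hF.comp (by fun_prop)))
  have hcl : ∀ j, j ≠ i → ‖z.1 j + ζ * (dir i).1 j‖ ≤ 1 := by
    intro j hj
    have hsub : U ⊆ {ζ : ℂ | ‖z.1 j + ζ * (dir i).1 j‖ ≤ 1} := fun ξ hξ => (hξ j hj).le
    have hc : IsClosed {ζ : ℂ | ‖z.1 j + ζ * (dir i).1 j‖ ≤ 1} :=
      isClosed_le (by fun_prop) continuous_const
    exact closure_minimal hsub hc (frontier_subset_closure hζ)
  have hnot : ζ ∉ U := by
    intro hin
    rw [frontier, hUo.interior_eq] at hζ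
    exact hζ.2 hin
  obtain ⟨j, hji, hj⟩ : ∃ j, j ≠ i ∧ 1 ≤ ‖z.1 j + ζ * (dir i).1 j‖ := by
    by_contra hcon
    push Not at hcon
    exact hnot hcon
  have hj1 : ‖z.1 j + ζ * (dir i).1 j‖ = 1 := le_antisymm (hcl j hji) hj
  set x : E := z + ζ • dir i with hx
  have hxc : ∀ l, x.1 l = z.1 l + ζ * (dir i).1 l := by
    intro l; simp [hx]
  have hxi : ‖x.1 i‖ = 1 := by rw [hxc, dir_self, mul_zero, add_zero, hi]
  have hxn : ‖x‖ = 1 := by
    apply le_antisymm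
    · refine (pi_norm_le_iff_of_nonneg zero_le_one).2 ?_
      intro l
      change ‖x.1 l‖ ≤ 1
      by_cases hl : l = i
      · rw [hl]; exact hxi.le
      · rw [hxc]; exact hcl l hl
    · rw [← hxi]; exact coord_le i x
  refine ⟨x, i, j, hxn, hji.symm, hxi, by rw [hxc]; exact hj1, hyz.trans ?_⟩
  have := hζmax (subset_closure h0U)
  simpa [hx] using this

/-- The set whose supremum is the polynomial numerical index of order `k`. -/
def S (k : ℕ) : Set ℝ := {c : ℝ | 0 ≤ c ∧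
          ∀ (A : ContinuousMultilinearMap ℂ (fun _ : Fin k => E) E) (y : E), ‖y‖ ≤ 1 →
            c * ‖A (fun _ => y)‖ ≤
              ⨆ p : {p : E × (E →L[ℂ] ℂ) // ‖p.1‖ = 1 ∧ ‖p.2‖ = 1 ∧ p.2 p.1 = 1},
                ‖p.1.2 (A (fun _ => p.1.1))‖}

lemma bdd (k : ℕ) (A : ContinuousMultilinearMap ℂ (fun _ : Fin k => E) E) :
    BddAbove (range fun p : PP => ‖p.1.2 (A (fun _ => p.1.1))‖) := by
  refine ⟨‖A‖, ?_⟩
  rintro _ ⟨p, rfl⟩
  obtain ⟨h1, h2, -⟩ := p.2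
  calc ‖p.1.2 (A (fun _ => p.1.1))‖ ≤ ‖p.1.2‖ * ‖A (fun _ => p.1.1)‖ := p.1.2.le_opNorm _
    _ = ‖A (fun _ => p.1.1)‖ := by rw [h2, one_mul]
    _ ≤ ‖A‖ * ∏ _i : Fin k, ‖p.1.1‖ := A.le_opNorm _
    _ = ‖A‖ := by simp [h1]

lemma half_mem (k : ℕ) : (1 / 2 : ℝ) ∈ S k := by
  refine ⟨by norm_num, ?_⟩
  intro A y hy
  have hd : Differentiable ℂ (fun v : E => A (fun _ => v)) := by
    have h1 : Differentiable ℂ A := by
      intro v
      exact (A.hasFDerivAt v).differentiableAt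
    exact h1.comp (differentiable_pi.2 fun _ => differentiable_id)
  obtain ⟨x, i, j, hx, hij, hi, hj, hle⟩ := two_active _ hd y hy
  set C := ⨆ p : PP, ‖p.1.2 (A (fun _ => p.1.1))‖ with hC
  have hb : ∀ p : PP, ‖p.1.2 (A (fun _ => p.1.1))‖ ≤ C := fun p => le_ciSup (bdd k A) p
  have h1 := coord_le_radius (fun v => A (fun _ => v)) C hb x hx i hi
  have h2 := coord_le_radius (fun v => A (fun _ => v)) C hb x hx j hj
  have h3 := two_coord (A (fun _ => x)) i j hij C h1 h2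
  have : ‖A (fun _ => y)‖ ≤ 2 * C := hle.trans h3
  change 1 / 2 * ‖A (fun _ => y)‖ ≤ C
  linarith

/-- Multiplying by a norming functional: the sets `S k` decrease. -/
lemma S_succ (k : ℕ) : S (k + 2) ⊆ S (k + 1) := by
  rintro c ⟨hc, h⟩
  refine ⟨hc, ?_⟩
  intro A y hy
  set C := ⨆ p : PP, ‖p.1.2 (A (fun _ => p.1.1))‖ with hC
  have hb : ∀ p : PP, ‖p.1.2 (A (fun _ => p.1.1))‖ ≤ C := fun p => le_ciSup (bdd _ A) p
  have hC0 : 0 ≤ C := Real.iSup_nonneg fun _ => norm_nonneg _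
  change c * ‖A (fun _ => y)‖ ≤ C
  by_cases hy0 : y = 0
  · subst hy0
    have : A (fun _ => (0 : E)) = 0 := A.map_coord_zero (0 : Fin (k + 1)) rfl
    rw [this]
    simpa using hC0
  have hyn : ‖y‖ ≠ 0 := norm_ne_zero_iff.2 hy0
  obtain ⟨g, hg1, hgy⟩ := exists_dual_vector ℂ y hyn
  -- the polynomial `x ↦ g x • A (x, …, x)`
  let B : ContinuousMultilinearMap ℂ (fun _ : Fin (k + 2) => E) E :=
    ContinuousLinearMap.uncurryLeft (g.smulRight A)
  have hB : ∀ x : E, B (fun _ => x) = g x • A (fun _ => x) := by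
    intro x
    simp only [B, ContinuousLinearMap.uncurryLeft_apply, ContinuousLinearMap.smulRight_apply,
      smul_apply]
    rfl
  have hyle := h B ((‖y‖⁻¹ : ℂ) • y) (by
    rw [norm_smul, norm_inv, Complex.norm_real, norm_norm, inv_mul_cancel₀ hyn])
  rw [hB] at hyle
  have hgy' : g ((‖y‖⁻¹ : ℂ) • y) = 1 := by
    rw [map_smul, hgy, smul_eq_mul]
    have : (‖y‖ : ℂ) ≠ 0 := by exact_mod_cast hyn
    exact inv_mul_cancel₀ this
  rw [hgy', one_smul] at hyle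
  have hAy : A (fun _ => (‖y‖⁻¹ : ℂ) • y) = ((‖y‖⁻¹ : ℂ) ^ (k + 1)) • A (fun _ => y) := by
    rw [A.map_smul_univ (fun _ => (‖y‖⁻¹ : ℂ)) (fun _ => y)]
    simp
  have hR : (⨆ p : PP, ‖p.1.2 (B (fun _ => p.1.1))‖) ≤ C := by
    apply Real.iSup_le _ hC0
    intro p
    rw [hB, map_smul, norm_smul]
    have h1 : ‖g p.1.1‖ ≤ 1 := by
      have := g.le_opNorm p.1.1
      rwa [hg1, p.2.1, one_mul] at this
    calc ‖g p.1.1‖ * ‖p.1.2 (A (fun _ => p.1.1))‖ ≤ 1 * ‖p.1.2 (A (fun _ => p.1.1))‖ := by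
          gcongr
      _ ≤ C := by rw [one_mul]; exact hb p
  have h2 : c * ‖A (fun _ => (‖y‖⁻¹ : ℂ) • y)‖ ≤ C := hyle.trans hR
  have h3 : ‖A (fun _ => y)‖ ≤ ‖A (fun _ => (‖y‖⁻¹ : ℂ) • y)‖ := by
    rw [hAy, norm_smul, norm_pow, norm_inv, Complex.norm_real, norm_norm]
    have h4 : 1 ≤ (‖y‖⁻¹) ^ (k + 1) := by
      apply one_le_pow₀
      rw [one_le_inv₀ (norm_pos_iff.2 hy0)]
      exact hy
    calc ‖A (fun _ => y)‖ = 1 * ‖A (fun _ => y)‖ := (one_mul _).symm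
      _ ≤ _ := by gcongr
  calc c * ‖A (fun _ => y)‖ ≤ c * ‖A (fun _ => (‖y‖⁻¹ : ℂ) • y)‖ := by gcongr
    _ ≤ C := h2

/-- The cyclic difference operator. -/
noncomputable def T0 : (Fin 3 → ℂ) →ₗ[ℂ] (Fin 3 → ℂ) where
  toFun v := ![v 1 - v 2, v 2 - v 0, v 0 - v 1]
  map_add' a b := by
    ext i; fin_cases i <;> simp <;> ring
  map_smul' c a := by
    ext i; fin_cases i <;> simp <;> ring

lemma T0_mem (v : E) : T0 v.1 ∈ E := by
  rw [mem_E]
  simp [T0]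

noncomputable def T1 : E →ₗ[ℂ] E := T0.restrict (p := E) (q := E) (fun v hv => T0_mem ⟨v, hv⟩)

noncomputable def T : E →L[ℂ] E := LinearMap.toContinuousLinearMap T1

lemma T_apply (v : E) : (T v).1 = ![v.1 1 - v.1 2, v.1 2 - v.1 0, v.1 0 - v.1 1] := rfl

lemma sq_sub (a b : ℂ) (ha : ‖a‖ ≤ 1) (hb : ‖b‖ ≤ 1) (hab : ‖a + b‖ = 1) :
    ‖a - b‖ ≤ √3 := by
  apply Real.le_sqrt_of_sq_le
  have h := parallelogram_law_with_norm ℝ a b
  have h1 : ‖a‖ * ‖a‖ ≤ 1 := by nlinarith [norm_nonneg a]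
  have h2 : ‖b‖ * ‖b‖ ≤ 1 := by nlinarith [norm_nonneg b]
  nlinarith

lemma T_active (x : E) (hx : ‖x‖ = 1) (i : Fin 3) (hi : ‖x.1 i‖ = 1) : ‖(T x).1 i‖ ≤ √3 := by
  have h0 := sum_zero x
  have hc : ∀ j, ‖x.1 j‖ ≤ 1 := fun j => hx ▸ coord_le j x
  rw [T_apply]
  fin_cases i
  · have hs : ‖x.1 1 + x.1 2‖ = 1 := by
      rw [show x.1 1 + x.1 2 = -x.1 0 by linear_combination h0, norm_neg]; exact hi
    exact sq_sub _ _ (hc 1) (hc 2) hs
  · have hs : ‖x.1 2 + x.1 0‖ = 1 := by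
      rw [show x.1 2 + x.1 0 = -x.1 1 by linear_combination h0, norm_neg]; exact hi
    exact sq_sub _ _ (hc 2) (hc 0) hs
  · have hs : ‖x.1 0 + x.1 1‖ = 1 := by
      rw [show x.1 0 + x.1 1 = -x.1 2 by linear_combination h0, norm_neg]; exact hi
    exact sq_sub _ _ (hc 0) (hc 1) hs

/-- A functional on `ℂ^3` is given by its coefficients, whose absolute values sum up to at most
its norm. -/
lemma sum_coeff_le (g : (Fin 3 → ℂ) →L[ℂ] ℂ) :
    ‖g (Pi.single 0 1)‖ + ‖g (Pi.single 1 1)‖ + ‖g (Pi.single 2 1)‖ ≤ ‖g‖ := by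
  set a : Fin 3 → ℂ := fun i => g (Pi.single i 1) with ha
  have hg : ∀ v, g v = v 0 * a 0 + v 1 * a 1 + v 2 * a 2 := by
    intro v
    have hv : v = v 0 • Pi.single 0 (1 : ℂ) + v 1 • Pi.single 1 (1 : ℂ) +
        v 2 • Pi.single 2 (1 : ℂ) := by
      ext i; fin_cases i <;> simp
    conv_lhs => rw [hv]
    simp only [map_add, map_smul, smul_eq_mul, ha]
  have hu : ∀ z : ℂ, ∃ u : ℂ, ‖u‖ ≤ 1 ∧ u * z = ‖z‖ := by
    intro z
    by_cases hz : z = 0
    · exact ⟨0, by simp, by simp [hz]⟩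
    · refine ⟨(starRingEnd ℂ z) / ‖z‖, ?_, ?_⟩
      · rw [norm_div, Complex.norm_conj, Complex.norm_real, norm_norm,
          div_self (norm_ne_zero_iff.2 hz)]
      · have hz' : (‖z‖ : ℂ) ≠ 0 := by exact_mod_cast norm_ne_zero_iff.2 hz
        field_simp
        rw [mul_comm, Complex.mul_conj, Complex.normSq_eq_norm_sq]
        push_cast
        ring
  choose u hu1 hu2 using hu
  set v : Fin 3 → ℂ := fun i => u (a i) with hv
  have hvn : ‖v‖ ≤ 1 := (pi_norm_le_iff_of_nonneg zero_le_one).2 fun i => hu1 _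
  have h1 : g v = ((‖a 0‖ + ‖a 1‖ + ‖a 2‖ : ℝ) : ℂ) := by
    rw [hg]
    simp only [hv, hu2]
    push_cast
    ring
  have h2 : ‖g v‖ ≤ ‖g‖ := by
    calc ‖g v‖ ≤ ‖g‖ * ‖v‖ := g.le_opNorm v
      _ ≤ ‖g‖ * 1 := by gcongr
      _ = ‖g‖ := mul_one _
  rw [h1, Complex.norm_real, Real.norm_of_nonneg (by positivity)] at h2
  exact h2

lemma radius_T (p : PP) : ‖p.1.2 (T p.1.1)‖ ≤ √3 := by
  obtain ⟨⟨x, φ⟩, hx, hφ, hφx⟩ := p
  simp only at hx hφ hφx ⊢
  obtain ⟨g, hg, hgn⟩ := exists_extension_norm_eq E φ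
  rw [← hg (T x)]
  rw [← hg x] at hφx
  rw [hφ] at hgn
  set a : Fin 3 → ℂ := fun i => g (Pi.single i 1) with ha
  have hsum : ‖a 0‖ + ‖a 1‖ + ‖a 2‖ ≤ 1 := by
    have := sum_coeff_le g
    rw [hgn] at this
    exact this
  have hgv : ∀ v : Fin 3 → ℂ, g v = v 0 * a 0 + v 1 * a 1 + v 2 * a 2 := by
    intro v
    have hv : v = v 0 • Pi.single 0 (1 : ℂ) + v 1 • Pi.single 1 (1 : ℂ) +
        v 2 • Pi.single 2 (1 : ℂ) := by
      ext i; fin_cases i <;> simp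
    conv_lhs => rw [hv]
    simp only [map_add, map_smul, smul_eq_mul, ha]
  have hc : ∀ j, ‖x.1 j‖ ≤ 1 := fun j => hx ▸ coord_le j x
  have h1 : 1 ≤ ‖x.1 0‖ * ‖a 0‖ + ‖x.1 1‖ * ‖a 1‖ + ‖x.1 2‖ * ‖a 2‖ := by
    have h2 : ‖g x‖ = 1 := by rw [hφx]; simp
    rw [hgv] at h2
    rw [← h2]
    calc _ ≤ ‖x.1 0 * a 0 + x.1 1 * a 1‖ + ‖x.1 2 * a 2‖ := norm_add_le _ _
      _ ≤ ‖x.1 0 * a 0‖ + ‖x.1 1 * a 1‖ + ‖x.1 2 * a 2‖ := by
        gcongr; exact norm_add_le _ _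
      _ = _ := by simp only [norm_mul]
  have hz : ∀ j, ‖a j‖ = 0 ∨ ‖x.1 j‖ = 1 := by
    have hnn : ∀ j, 0 ≤ (1 - ‖x.1 j‖) * ‖a j‖ := fun j =>
      mul_nonneg (by linarith [hc j]) (norm_nonneg _)
    have hz0 : ∀ j, (1 - ‖x.1 j‖) * ‖a j‖ = 0 := by
      intro j
      have e0 := hnn 0
      have e1 := hnn 1
      have e2 := hnn 2
      fin_cases j
      · change (1 - ‖x.1 0‖) * ‖a 0‖ = 0
        nlinarith
      · change (1 - ‖x.1 1‖) * ‖a 1‖ = 0
        nlinarith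
      · change (1 - ‖x.1 2‖) * ‖a 2‖ = 0
        nlinarith
    intro j
    rcases mul_eq_zero.1 (hz0 j) with h | h
    · right; linarith
    · left; exact h
  have hb : ∀ j, ‖(T x).1 j * a j‖ ≤ √3 * ‖a j‖ := by
    intro j
    rw [norm_mul]
    rcases hz j with h | h
    · rw [h]; simp
    · have := T_active x hx j h
      gcongr
  rw [hgv]
  calc _ ≤ ‖(T x).1 0 * a 0 + (T x).1 1 * a 1‖ + ‖(T x).1 2 * a 2‖ := norm_add_le _ _
    _ ≤ ‖(T x).1 0 * a 0‖ + ‖(T x).1 1 * a 1‖ + ‖(T x).1 2 * a 2‖ := by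
        gcongr; exact norm_add_le _ _
    _ ≤ √3 * ‖a 0‖ + √3 * ‖a 1‖ + √3 * ‖a 2‖ := by
        gcongr <;> apply hb
    _ = √3 * (‖a 0‖ + ‖a 1‖ + ‖a 2‖) := by ring
    _ ≤ √3 * 1 := by gcongr
    _ = √3 := mul_one _

lemma S_one_le (c : ℝ) (hc : c ∈ S 1) : c ≤ √3 / 2 := by
  have h := hc.2 (ContinuousMultilinearMap.ofSubsingleton ℂ E E (0 : Fin 1) T) (dir 0)
    ((pi_norm_le_iff_of_nonneg zero_le_one).2 (by
      intro i
      change ‖(dir 0).1 i‖ ≤ 1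
      by_cases hi : i = 0
      · rw [hi, dir_self]; simp
      · exact (dir_other 0 i hi).le))
  simp only [ContinuousMultilinearMap.ofSubsingleton_apply_apply] at h
  have h1 : (⨆ p : PP, ‖p.1.2 (T p.1.1)‖) ≤ √3 :=
    Real.iSup_le radius_T (Real.sqrt_nonneg _)
  have h2 : 2 ≤ ‖T (dir 0)‖ := by
    calc (2 : ℝ) = ‖(T (dir 0)).1 0‖ := by
          rw [T_apply]
          simp only [dir, Matrix.cons_val_zero, Matrix.cons_val_one, Matrix.cons_val]
          norm_num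
      _ ≤ _ := coord_le 0 _
  have h3 : c * 2 ≤ √3 := by
    calc c * 2 ≤ c * ‖T (dir 0)‖ := by
          have := hc.1
          gcongr
      _ ≤ √3 := h.trans h1
  linarith

lemma S_sub (k : ℕ) : S (k + 1) ⊆ S 1 := by
  induction k with
  | zero => exact subset_rfl
  | succ n ih => exact (S_succ n).trans ih

lemma S_bdd (k : ℕ) : BddAbove (S (k + 1)) :=
  ⟨√3 / 2, fun _ hc => S_one_le _ (S_sub k hc)⟩

lemma anti : Antitone fun k : ℕ => sSup (S (k + 1)) :=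
  antitone_nat_of_succ_le fun n =>
    csSup_le_csSup (S_bdd n) ⟨_, half_mem _⟩ (S_succ n)

/-- There is a real or complex Banach space X whose polynomial numerical indices n^(k)(X) (best constant c with c‖P‖ ≤ numerical radius of P, over k-homogeneous polynomials P on X) converge to a limit different from 0 and 1. -/
theorem result :
    ∃ (𝕂 : Type) (_ : RCLike 𝕂) (X : Type) (_ : NormedAddCommGroup X)
      (_ : NormedSpace 𝕂 X) (_ : CompleteSpace X) (L : ℝ),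
      Filter.Tendsto
        (fun k : ℕ => sSup {c : ℝ | 0 ≤ c ∧
          ∀ (A : ContinuousMultilinearMap 𝕂 (fun _ : Fin k => X) X) (y : X), ‖y‖ ≤ 1 →
            c * ‖A (fun _ => y)‖ ≤
              ⨆ p : {p : X × (X →L[𝕂] 𝕂) // ‖p.1‖ = 1 ∧ ‖p.2‖ = 1 ∧ p.2 p.1 = 1},
                ‖p.1.2 (A (fun _ => p.1.1))‖})
        Filter.atTop (nhds L) ∧ L ≠ 0 ∧ L ≠ 1 := by
  have hlow : ∀ k, (1 / 2 : ℝ) ≤ sSup (S (k + 1)) := fun k => le_csSup (S_bdd k) (half_mem _)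
  have hup : ∀ k, sSup (S (k + 1)) ≤ √3 / 2 := fun k =>
    csSup_le ⟨_, half_mem _⟩ fun c hc => S_one_le c (S_sub k hc)
  have hbd : BddBelow (range fun k : ℕ => sSup (S (k + 1))) := by
    refine ⟨1 / 2, ?_⟩
    rintro _ ⟨k, rfl⟩
    exact hlow k
  have ht := tendsto_atTop_ciInf anti hbd
  have hL1 : (1 / 2 : ℝ) ≤ ⨅ k : ℕ, sSup (S (k + 1)) := le_ciInf hlow
  have hL2 : (⨅ k : ℕ, sSup (S (k + 1))) ≤ √3 / 2 := (ciInf_le hbd 0).trans (hup 0)
  have h3 : √3 < 2 := by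
    rw [Real.sqrt_lt' (by norm_num)]
    norm_num
  refine ⟨ℂ, inferInstance, E, inferInstance, inferInstance, inferInstance,
    ⨅ k : ℕ, sSup (S (k + 1)), ?_, ?_, ?_⟩
  · exact (Filter.tendsto_add_atTop_iff_nat 1).1 ht
  · linarith
  · linarith

end Pool.Agent.S03339
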