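import Pool.Statements.S03341

set_option autoImplicit false
open Pool Pool.MP_6efd37_an

namespace Pool.Agent.S03341

open Set Topology

section

variable (f : ℝ → ℝ) (hf : ∀ x h : ℝ, 0 < h → 2 * f x ≤ f (x + h) + f (x + 2 * h)) (c : ℝ)

include hf

/-- reflecting a point x through a larger point u of the sublevel set at least doubles f - c -/
lemma refl_step (u x : ℝ) (hu : f u ≤ c) (hxu : x < u) :
    2 * (f x - c) ≤ f (2 * u - x) - c := by
  have h := hf x (u - x) (by linarith)
  have e1 : x + (u - x) = u := by ring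
  have e2 : x + 2 * (u - x) = 2 * u - x := by ring
  rw [e1, e2] at h
  linarith

lemma closed_step (w v : ℝ) (hw : f w ≤ c) (hv : f v ≤ c) (hwv : w < v) :
    f (2 * w - v) ≤ c := by
  have h := refl_step f hf c w (2 * w - v) hw (by linarith)
  have e : 2 * w - (2 * w - v) = v := by ring
  rw [e] at h
  linarith

lemma prog_step (u v : ℝ) (hu : f u ≤ c) (hv : f v ≤ c) (huv : u < v) (n : ℕ) :
    f (u - n * (v - u)) ≤ c ∧ f (u - (n + 1) * (v - u)) ≤ c := by
  induction n with
  | zero =>
    refine ⟨by simpa using hu, ?_⟩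
    have := closed_step f hf c u v hu hv huv
    have e : u - ((0 : ℕ) + 1) * (v - u) = 2 * u - v := by push_cast; ring
    rw [e]; exact this
  | succ n ih =>
    obtain ⟨h1, h2⟩ := ih
    refine ⟨by push_cast; exact h2, ?_⟩
    have := closed_step f hf c (u - (n + 1) * (v - u)) (u - n * (v - u)) h2 h1 (by nlinarith)
    have e : u - (((n + 1 : ℕ) : ℝ) + 1) * (v - u) =
        2 * (u - (n + 1) * (v - u)) - (u - n * (v - u)) := by push_cast; ring
    rw [e]; exact this

/-- density of the sublevel set in an interval spreads to the left -/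
lemma dense_left (α β : ℝ) (hαβ : α < β)
    (hd : ∀ a b, α < a → a < b → b < β → ∃ s, a < s ∧ s < b ∧ f s ≤ c)
    (a b : ℝ) (hab : a < b) (hb : b < β) : ∃ s, a < s ∧ s < b ∧ f s ≤ c := by
  by_cases hcase : b ≤ α
  · -- choose two close points
    set δ : ℝ := min (b - a) (β - α) with hδ
    have hδpos : 0 < δ := lt_min (by linarith) (by linarith)
    have hδ1 : δ ≤ b - a := min_le_left _ _
    have hδ2 : δ ≤ β - α := min_le_right _ _
    obtain ⟨u, hu1, hu2, hu⟩ := hd (α + δ / 8) (α + δ / 4) (by linarith) (by linarith) (by linarith)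
    obtain ⟨v, hv1, hv2, hv⟩ := hd (α + δ / 4) (α + δ / 2) (by linarith) (by linarith) (by linarith)
    have huv : u < v := by linarith
    have hvu : v - u < b - a := by linarith
    have hpos : 0 < v - u := by linarith
    set n : ℕ := ⌊(u - b) / (v - u)⌋₊ with hn
    have hub : 0 ≤ (u - b) / (v - u) := div_nonneg (by linarith) hpos.le
    have hn1 : (n : ℝ) ≤ (u - b) / (v - u) := Nat.floor_le hub
    have hn2 : (u - b) / (v - u) < n + 1 := Nat.lt_floor_add_one _
    rw [le_div_iff₀ hpos] at hn1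
    rw [div_lt_iff₀ hpos] at hn2
    refine ⟨u - (n + 1) * (v - u), by nlinarith, by linarith, (prog_step f hf c u v hu hv huv n).2⟩
  · push Not at hcase
    have h1 : a ≤ max a α := le_max_left _ _
    have h2 : α ≤ max a α := le_max_right _ _
    have h3 : max a α < b := max_lt hab hcase
    obtain ⟨s, hs1, hs2, hs⟩ := hd ((max a α + b) / 2) b (by linarith) (by linarith) hb
    exact ⟨s, by linarith, hs2, hs⟩

/-- the quadrupling step -/
lemma transport (β : ℝ)
    (hd : ∀ a b, a < b → b < β → ∃ s, a < s ∧ s < b ∧ f s ≤ c)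
    (v v' x : ℝ) (hvv : v < v') (hv'β : v' < β) (hv : f v ≤ c) (hv' : f v' ≤ c)
    (hx : x + 2 * (v' - v) ≤ v) :
    4 * (f x - c) ≤ f (x + 2 * (v' - v)) - c := by
  obtain ⟨w, hw1, hw2, hw⟩ := hd ((x + v') / 2) ((x + v') / 2 + (v' - v) / 2)
    (by linarith) (by linarith)
  have hwv : w < v := by linarith
  have hu : f (2 * w - v') ≤ c := closed_step f hf c w v' hw hv' (by linarith)
  have hu' : f (2 * w - v) ≤ c := closed_step f hf c w v hw hv hwv
  have h1 := refl_step f hf c (2 * w - v') x hu (by linarith)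
  have h2 := refl_step f hf c (2 * w - v) (2 * (2 * w - v') - x) hu' (by linarith)
  have e : 2 * (2 * w - v) - (2 * (2 * w - v') - x) = x + 2 * (v' - v) := by ring
  rw [e] at h2
  linarith

lemma subdivide (β : ℝ)
    (hd : ∀ a b, a < b → b < β → ∃ s, a < s ∧ s < b ∧ f s ≤ c) (k : ℕ) :
    ∀ v v' x : ℝ, v < v' → v' < β → f v ≤ c → f v' ≤ c → x + 2 * (v' - v) ≤ v → 0 ≤ f x - c →
      4 ^ k * (f x - c) ≤ f (x + 2 * (v' - v)) - c := by
  induction k with
  | zero =>
    intro v v' x h1 h2 h3 h4 h5 h6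
    have := transport f hf c β hd v v' x h1 h2 h3 h4 h5
    simp only [pow_zero, one_mul]
    linarith
  | succ k ih =>
    intro v v' x h1 h2 h3 h4 h5 h6
    obtain ⟨w, hw1, hw2, hw⟩ := hd v v' h1 h2
    have ht := transport f hf c β hd v w x hw1 (by linarith) h3 hw (by linarith)
    have hi := ih w v' (x + 2 * (w - v)) hw2 h2 hw h4 (by linarith) (by linarith)
    have e : x + 2 * (w - v) + 2 * (v' - w) = x + 2 * (v' - v) := by ring
    rw [e] at hi
    have h4k : (0 : ℝ) < 4 ^ k := by positivity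
    rw [pow_succ]
    nlinarith

/-- if the sublevel set is dense to the left of β then it contains everything to the left of β -/
lemma half_line (β : ℝ)
    (hd : ∀ a b, a < b → b < β → ∃ s, a < s ∧ s < b ∧ f s ≤ c) (x : ℝ) (hx : x < β) :
    f x ≤ c := by
  by_contra hcon
  push Not at hcon
  set L : ℝ := β - x with hL
  have hLpos : 0 < L := by linarith
  obtain ⟨v, hv1, hv2, hv⟩ := hd (x + L / 2) (x + L / 2 + L / 16) (by linarith) (by linarith)
  obtain ⟨v', hv'1, hv'2, hv'⟩ := hd (x + L / 2 + L / 16) (x + L / 2 + L / 8) (by linarith)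
    (by linarith)
  have key : ∀ k : ℕ, 4 ^ k * (f x - c) ≤ f (x + 2 * (v' - v)) - c := fun k =>
    subdivide f hf c β hd k v v' x (by linarith) (by linarith) hv hv' (by linarith) (by linarith)
  obtain ⟨k, hk⟩ := pow_unbounded_of_one_lt ((f (x + 2 * (v' - v)) - c) / (f x - c))
    (show (1 : ℝ) < 4 by norm_num)
  rw [div_lt_iff₀ (by linarith)] at hk
  exact absurd (key k) (not_le.mpr hk)

end

/-- Every function from the reals to the reals with 2f(x) ≤ f(x+h)+f(x+2h) for all x and all h>0 is monotone (nondecreasing or nonincreasing), with no measurability assumed. -/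
theorem result :
    ∀ f : ℝ → ℝ, (∀ x h : ℝ, 0 < h → 2 * f x ≤ f (x + h) + f (x + 2 * h)) →
      (Monotone f ∨ Antitone f) := by
  intro f hf
  -- f is bounded above on every left half line, by the Baire category theorem
  have hbdd : ∀ m : ℝ, ∃ c : ℝ, ∀ x < m, f x ≤ c := by
    intro m
    have hU : ⋃ n : ℕ, closure {x : ℝ | f x ≤ n} = univ := by
      rw [eq_univ_iff_forall]
      intro x
      obtain ⟨n, hn⟩ := exists_nat_ge (f x)
      exact mem_iUnion.mpr ⟨n, subset_closure hn⟩
    have hdense : Dense (⋃ n : ℕ, interior (closure {x : ℝ | f x ≤ n})) :=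
      dense_iUnion_interior_of_closed (fun n => isClosed_closure) hU
    obtain ⟨y, hy1, hy2⟩ := hdense.inter_open_nonempty (Ioi m) isOpen_Ioi ⟨m + 1, by simp⟩
    obtain ⟨n, hn⟩ := mem_iUnion.mp hy2
    have hnhds : interior (closure {x : ℝ | f x ≤ n}) ∈ 𝓝 y := isOpen_interior.mem_nhds hn
    obtain ⟨l, u, hlu, hsub⟩ := mem_nhds_iff_exists_Ioo_subset.mp hnhds
    refine ⟨n, fun x hx => ?_⟩
    have hyl : l < y := hlu.1
    have hyu : y < u := hlu.2
    have hd : ∀ a b, l < a → a < b → b < u → ∃ s, a < s ∧ s < b ∧ f s ≤ n := by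
      intro a b ha hab hb
      have hmem : (a + b) / 2 ∈ closure {x : ℝ | f x ≤ n} :=
        interior_subset (hsub ⟨by linarith, by linarith⟩)
      obtain ⟨s, hs1, hs2⟩ := mem_closure_iff.mp hmem (Ioo a b) isOpen_Ioo
        ⟨by linarith, by linarith⟩
      exact ⟨s, hs1.1, hs1.2, hs2⟩
    have hd' : ∀ a b, a < b → b < u → ∃ s, a < s ∧ s < b ∧ f s ≤ n := fun a b hab hb =>
      dense_left f hf n l u (by linarith) hd a b hab hb
    have hmy : m < y := hy1
    exact half_line f hf n u hd' x (by linarith)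
  left
  intro x a hxa
  by_contra hcon
  push Not at hcon
  have hlt : x < a := by
    rcases hxa.lt_or_eq with h | h
    · exact h
    · subst h; exact absurd hcon (lt_irrefl _)
  set t : ℝ := a - x with ht
  have htpos : 0 < t := by linarith
  have hseq : ∀ n : ℕ, 2 ^ n * (f x - f a) ≤ f (a - t / 2 ^ n) - f a := by
    intro n
    induction n with
    | zero => simp [ht]
    | succ n ih =>
      have hpos : (0 : ℝ) < 2 ^ n := by positivity
      have h := hf (a - t / 2 ^ n) (t / 2 ^ (n + 1)) (by positivity)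
      have e1 : a - t / 2 ^ n + t / 2 ^ (n + 1) = a - t / 2 ^ (n + 1) := by
        rw [pow_succ]; field_simp; ring
      have e2 : a - t / 2 ^ n + 2 * (t / 2 ^ (n + 1)) = a := by
        rw [pow_succ]; field_simp; ring
      rw [e1, e2] at h
      have e3 : (2 : ℝ) ^ (n + 1) * (f x - f a) = 2 * (2 ^ n * (f x - f a)) := by
        rw [pow_succ]; ring
      linarith
  obtain ⟨c, hc⟩ := hbdd a
  obtain ⟨n, hn⟩ := pow_unbounded_of_one_lt ((c - f a) / (f x - f a))
    (show (1 : ℝ) < 2 by norm_num)
  rw [div_lt_iff₀ (by linarith)] at hn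
  have h1 := hseq n
  have h2 := hc (a - t / 2 ^ n) (by
    have : (0 : ℝ) < t / 2 ^ n := by positivity
    linarith)
  linarith

end Pool.Agent.S03341
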