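import Pool.Statements.S03343
import Pool.Agent.Helper343.M7

set_option autoImplicit false
open Filter Topology
open Pool Pool.MP_6f1701_an

/-!
Proof idea (all details in `Pool.Agent.Helper343.M1` ... `M7`).

* `M1`: a Mittag-Leffler type function `E`, analytic on `{Re z > 0, Im z > -π}`, real on the reals, equal to
  `exp (exp z) - J z` near the real axis (`‖J‖ ≤ 1`), and `‖E z‖ ≤ 10 / Im z` for `Re z ≥ 1`, `Im z ≥ π/2`.
* `M2`, `M3`: if `F' = exp (exp τ + λ(τ))` with `λ` slowly varying and `Re F` is large at the points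
  `ρ + (2j+1)πi`, then one can go down from `ρ + (2k+1)πi` to the real axis inside `{|F| large}` (a staircase
  crossing one half-plane of `W = exp τ` after the other).
* `M4`, `M5`: on the quadrant `{Re s > 0, Im s > 0}` one builds `f_n' = exp (∑_{k<n} E((s + 2^{-k})/δ_k))`
  with `δ_k → 0` extremely fast; `f_{n+1}` is close to `f_n` off the real axis, real and huge on the real axis,
  and each segment between the levels `y_n` and `y_{n+1}` can be crossed near every `x0 > 0` inside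
  `{|f_{n+1}| ≥ n - 4}`.
* `M6`: the limit `F` satisfies `F' ≠ 0`, has the asymptotic value `∞` at every `x0 > 0`, a finite asymptotic
  value at every `iy`, `y > 0`, and `|F| ≥ n - 3` on `[1, 2] + i y_n`.
* `M7`: transfer to the disc by `ψ(s) = (s² - i)/(s² + i)`.
-/

namespace Pool.Agent.S03343

/-- There is a holomorphic, non-constant f on the unit disc with nowhere-zero derivative and asymptotic values (finite or infinite) at a dense set of circle points, plus Jordan arcs in the disc tending to a boundary arc on which min ∣f∣ tends to infinity. -/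
theorem result :
    ∃ f : ℂ → ℂ,
      DifferentiableOn ℂ f (Metric.ball (0 : ℂ) 1) ∧
      (¬ ∃ c : ℂ, ∀ z ∈ Metric.ball (0 : ℂ) 1, f z = c) ∧
      (∀ z ∈ Metric.ball (0 : ℂ) 1, deriv f z ≠ 0) ∧
      (∀ ζ₀ ∈ Metric.sphere (0 : ℂ) 1, ∀ ε : ℝ, 0 < ε →
        ∃ ζ ∈ Metric.sphere (0 : ℂ) 1, dist ζ ζ₀ < ε ∧
          ∃ γ : ℝ → ℂ, ContinuousOn γ (Set.Ico 0 1) ∧
            (∀ t ∈ Set.Ico (0 : ℝ) 1, γ t ∈ Metric.ball (0 : ℂ) 1) ∧
            Tendsto γ (𝓝[<] (1 : ℝ)) (𝓝 ζ) ∧
            ((∃ w : ℂ, Tendsto (fun t => f (γ t)) (𝓝[<] (1 : ℝ)) (𝓝 w)) ∨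
              Tendsto (fun t => ‖f (γ t)‖) (𝓝[<] (1 : ℝ)) atTop)) ∧
      (∃ a b : ℝ, a < b ∧ b < a + 2 * Real.pi ∧
        ∃ g : ℕ → ℝ → ℂ,
          (∀ n, ContinuousOn (g n) (Set.Icc 0 1) ∧ Set.InjOn (g n) (Set.Icc 0 1) ∧
            g n '' Set.Icc 0 1 ⊆ Metric.ball (0 : ℂ) 1) ∧
          Tendsto (fun n => Metric.hausdorffDist (g n '' Set.Icc 0 1)
              ((fun θ : ℝ => Complex.exp ((θ : ℂ) * Complex.I)) '' Set.Icc a b))
            atTop (𝓝 0) ∧
          ∀ M : ℝ, ∀ᶠ n in atTop, ∀ t ∈ Set.Icc (0 : ℝ) 1, M ≤ ‖f (g n t)‖) := by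
  refine ⟨Pool.Agent.H343.M.ff, ?_, ?_, ?_, ?_, ?_⟩
  · intro z hz
    exact (Pool.Agent.H343.M.ff_hasDeriv hz).differentiableAt.differentiableWithinAt
  · rintro ⟨c, hc⟩
    have h0 : (0:ℂ) ∈ Metric.ball (0:ℂ) 1 := Metric.mem_ball_self one_pos
    apply Pool.Agent.H343.M.ff_deriv h0
    have h1 : Pool.Agent.H343.M.ff =ᶠ[𝓝 0] fun _ => c := by
      filter_upwards [Metric.isOpen_ball.mem_nhds h0] with w hw using hc w hw
    rw [h1.deriv_eq, deriv_const]
  · intro z hz
    exact Pool.Agent.H343.M.ff_deriv hz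
  · intro ζ₀ hζ₀ ε hε
    obtain ⟨ζ, h1, h2, h3⟩ := Pool.Agent.H343.M.near_circle hζ₀ hε
    exact ⟨ζ, h1, h2, Pool.Agent.H343.M.asym_all h1 h3⟩
  · have hat : Real.arctan (1/4) < Real.arctan 1 := Real.arctan_strictMono (by norm_num)
    have hb1 := Real.neg_pi_div_two_lt_arctan (1/4)
    have hb2 := Real.arctan_lt_pi_div_two 1
    have hpi := Real.pi_pos
    set P : ℕ → ℝ → ℂ := fun n t => ((1 + t : ℝ) : ℂ) + Pool.Agent.H343.M.yn n * Complex.I with hP
    have hOm : ∀ n, ∀ t ∈ Set.Icc (0:ℝ) 1, P n t ∈ Pool.Agent.H343.M.Om := by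
      intro n t ht
      constructor
      · simp [hP]; linarith [ht.1]
      · simp [hP]; exact Pool.Agent.H343.M.yn_pos n
    refine ⟨-2 * Real.arctan 1, -2 * Real.arctan (1/4), by linarith, by linarith,
      fun n t => Pool.Agent.H343.M.psi (P n t), ?_, ?_, ?_⟩
    · intro n
      refine ⟨?_, ?_, ?_⟩
      · intro t ht
        have h2 := hOm n t ht
        have h3 : ContinuousAt (P n) t := by
          simp only [hP]; fun_prop
        exact (ContinuousAt.comp (f := P n)
          (Pool.Agent.H343.M.psi_diff h2.1.le h2.2.le).continuousAt h3).continuousWithinAt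
      · intro t ht t' ht' h
        have h1 : P n t = P n t' := by
          rw [← Pool.Agent.H343.M.phi_psi (hOm n t ht), ← Pool.Agent.H343.M.phi_psi (hOm n t' ht')]
          exact congrArg _ h
        have h2 := congrArg Complex.re h1
        simp [hP] at h2
        exact h2
      · rintro _ ⟨t, ht, rfl⟩
        exact Pool.Agent.H343.M.psi_ball (hOm n t ht)
    · -- Hausdorff convergence
      have hK : IsCompact (Set.Icc (1:ℝ) 2 ×ℂ Set.Icc (0:ℝ) 1) := isCompact_Icc.reProdIm isCompact_Icc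
      have hmem : ∀ x ∈ Set.Icc (1:ℝ) 2, ∀ y ∈ Set.Icc (0:ℝ) 1,
          ((x:ℂ) + y * Complex.I) ∈ (Set.Icc (1:ℝ) 2 ×ℂ Set.Icc (0:ℝ) 1) := by
        intro x hx y hy
        rw [Complex.mem_reProdIm]
        simp
        exact ⟨hx, hy⟩
      have huc : UniformContinuousOn Pool.Agent.H343.M.psi (Set.Icc (1:ℝ) 2 ×ℂ Set.Icc (0:ℝ) 1) := by
        apply hK.uniformContinuousOn_of_continuous
        intro s hs
        rw [Complex.mem_reProdIm] at hs
        exact (Pool.Agent.H343.M.psi_diff (by linarith [hs.1.1]) hs.2.1).continuousAt.continuousWithinAt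
      rw [Metric.uniformContinuousOn_iff] at huc
      rw [Metric.tendsto_atTop]
      intro ε hε
      obtain ⟨δ, hδ, hδ2⟩ := huc (ε/2) (by positivity)
      have hy : ∀ᶠ n in atTop, Pool.Agent.H343.M.yn n < δ :=
        Pool.Agent.H343.M.yn_tendsto.eventually (eventually_lt_nhds hδ)
      obtain ⟨N, hN⟩ := eventually_atTop.1 hy
      refine ⟨N, fun n hn => ?_⟩
      have hyn := hN n hn
      have hy0 := Pool.Agent.H343.M.yn_pos n
      have hy1 := Pool.Agent.H343.M.yn_le_one n
      have hclose : ∀ x ∈ Set.Icc (1:ℝ) 2, dist (Pool.Agent.H343.M.psi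
          ((x:ℂ) + Pool.Agent.H343.M.yn n * Complex.I)) (Pool.Agent.H343.M.psi x) ≤ ε/2 := by
        intro x hx
        have h1 := hδ2 ((x:ℂ) + Pool.Agent.H343.M.yn n * Complex.I) (hmem x hx _ ⟨hy0.le, hy1⟩)
          (x:ℂ) (by simpa using hmem x hx 0 ⟨le_rfl, zero_le_one⟩) (by
            rw [dist_eq_norm, add_sub_cancel_left, norm_mul, Complex.norm_I, mul_one,
              Complex.norm_real, Real.norm_eq_abs, abs_of_pos hy0]
            exact hyn)
        exact h1.le
      rw [Real.dist_eq, sub_zero, abs_of_nonneg Metric.hausdorffDist_nonneg]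
      refine lt_of_le_of_lt ?_ (half_lt_self hε)
      apply Metric.hausdorffDist_le_of_mem_dist (by positivity)
      · rintro _ ⟨t, ht, rfl⟩
        have hx : 1 + t ∈ Set.Icc (1:ℝ) 2 := ⟨by linarith [ht.1], by linarith [ht.2]⟩
        exact ⟨_, Pool.Agent.H343.M.arc_eq' hx, hclose _ hx⟩
      · rintro _ ⟨θ, hθ, rfl⟩
        obtain ⟨x, hx, hx2⟩ := Pool.Agent.H343.M.arc_eq hθ.1 hθ.2
        refine ⟨Pool.Agent.H343.M.psi ((x:ℂ) + Pool.Agent.H343.M.yn n * Complex.I),
          ⟨x - 1, ⟨by linarith [hx.1], by linarith [hx.2]⟩, ?_⟩, ?_⟩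
        · simp only [hP]
          have : (1 + (x - 1) : ℝ) = x := by ring
          rw [this]
        · simp only
          rw [hx2, dist_comm]
          exact hclose x hx
    · intro M
      have h1 : ∀ᶠ n : ℕ in atTop, M + 3 ≤ (n:ℝ) :=
        tendsto_natCast_atTop_atTop.eventually_ge_atTop _
      filter_upwards [h1] with n hn t ht
      rw [Pool.Agent.H343.M.ff_psi (hOm n t ht)]
      have := Pool.Agent.H343.M.FF_level n (x := 1 + t) ⟨by linarith [ht.1], by linarith [ht.2]⟩
      simp only [hP]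
      linarith

end Pool.Agent.S03343
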