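import Pool.Statements.S03346
import Pool.Agent.MP6f388.Main
-- import your own Pool.Agent.* helpers here

set_option autoImplicit false
open scoped ZeroAtInfty
open Pool Pool.MP_6f388c_an

namespace Pool.Agent.S03346

/-- The negation of the preceding statement: For every countable compact Hausdorff K and every real Banach space X that is a quotient of C(K), each infinite-dimensional closed subspace of X contains an isomorphic copy of c_0. -/
theorem result :
    ¬ (∀ (K : Type) [TopologicalSpace K] [CompactSpace K] [T2Space K] [Countable K]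
      (X : Type) [NormedAddCommGroup X] [NormedSpace ℝ X] [CompleteSpace X],
      (∃ T : C(K, ℝ) →L[ℝ] X, Function.Surjective T) →
      ∀ Y : Submodule ℝ X, IsClosed (Y : Set X) → ¬ FiniteDimensional ℝ Y →
        ∃ S : C₀(ℕ, ℝ) →L[ℝ] X, (∀ f, S f ∈ Y) ∧
          ∃ c : ℝ, 0 < c ∧ ∀ f, c * ‖f‖ ≤ ‖S f‖) := by
  intro hall
  classical
  -- Hilbert space with an orthonormal sequence and the increasing subspaces
  let b : HilbertBasis ℕ ℝ (lp (fun _ : ℕ => ℝ) 2) := default
  let V : ℕ → Submodule ℝ (lp (fun _ : ℕ => ℝ) 2) := fun j => Submodule.span ℝ (b '' Set.Iio j)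
  have hVfd : ∀ j, FiniteDimensional ℝ (V j) := fun j =>
    FiniteDimensional.span_of_finite ℝ ((Set.finite_Iio j).image b)
  have hVmono : Monotone V := fun i j hij =>
    Submodule.span_mono (Set.image_mono (Set.Iio_subset_Iio hij))
  obtain ⟨dec, A, ND, hdec⟩ := Pool.Agent.MP6f388.exists_netData V hVmono
  -- the countable compact space
  have : CompactSpace (Pool.Agent.MP6f388.KSet A Pool.Agent.MP6f388.fq) :=
    isCompact_iff_compactSpace.1 (Pool.Agent.MP6f388.isCompact_KSet A _)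
  have : Countable (Pool.Agent.MP6f388.KSet A Pool.Agent.MP6f388.fq) :=
    (Pool.Agent.MP6f388.countable_KSet A _).to_subtype
  -- the maps
  let Dm := Pool.Agent.MP6f388.Dsub V
  let Φ : Dm →ₗ[ℝ] C(Pool.Agent.MP6f388.KSet A Pool.Agent.MP6f388.fq, ℝ) :=
    (Pool.Agent.MP6f388.Phi dec A Pool.Agent.MP6f388.fq).domRestrict Dm
  let R : Dm →ₗ[ℝ] (lp (fun _ : ℕ => ℝ) 2) :=
    (Pool.Agent.MP6f388.Rmap (lp (fun _ : ℕ => ℝ) 2)).domRestrict Dm
  have hlow : ∀ y : Dm, ‖R y‖ ≤ 16 * ‖Φ y‖ := fun y =>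
    Pool.Agent.MP6f388.R_le_Phi ND y.1 y.2
  have hlift : ∀ y : Dm, ∃ y' : Dm, R y' = R y ∧ ‖Φ y'‖ ≤ ‖R y‖ := fun y => by
    obtain ⟨y', hy', h1, h2⟩ := Pool.Agent.MP6f388.lift ND hdec y.1 y.2
    exact ⟨⟨y', hy'⟩, h1, h2⟩
  -- linearly independent vectors
  have hmem : ∀ i, Finsupp.single (i + 1) (b i) ∈ Dm := by
    intro i j
    rw [Finsupp.single_apply]
    split_ifs with h
    · rw [← h]
      exact Submodule.subset_span ⟨i, Nat.lt_succ_self i, rfl⟩
    · exact (V j).zero_mem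
  have hli : LinearIndependent ℝ (fun i : ℕ => R ⟨Finsupp.single (i + 1) (b i), hmem i⟩) := by
    have h1 : (fun i : ℕ => R ⟨Finsupp.single (i + 1) (b i), hmem i⟩) = b := by
      ext1 i
      change Pool.Agent.MP6f388.Rmap (lp (fun _ : ℕ => ℝ) 2) (Finsupp.single (i + 1) (b i)) = b i
      simp [Pool.Agent.MP6f388.Rmap]
    rw [h1]
    exact b.orthonormal.linearIndependent
  refine Pool.Agent.MP6f388.final_abstract Φ R hlow hlift
    (fun i => ⟨Finsupp.single (i + 1) (b i), hmem i⟩) hli ?_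
  intro X _ _ _ hT Y hY1 hY2
  exact hall (Pool.Agent.MP6f388.KSet A Pool.Agent.MP6f388.fq) X hT Y hY1 hY2

end Pool.Agent.S03346
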