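import Pool.Statements.S03347

set_option autoImplicit false
open Pool Pool.MP_6f6574_an

namespace Pool.Agent.S03347

open Metric Set Filter Topology

section univalent

variable {f : ℂ → ℂ} {U : Set ℂ}

/-- An injective holomorphic map is open, local form. -/
theorem nhds_le_map (hU : IsOpen U) (hf : DifferentiableOn ℂ f U) (hi : InjOn f U)
    {z : ℂ} (hz : z ∈ U) : 𝓝 (f z) ≤ map f (𝓝 z) := by
  have ha : AnalyticAt ℂ f z := hf.analyticAt (hU.mem_nhds hz)
  rcases ha.eventually_constant_or_nhds_le_map_nhds with h | h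
  · exfalso
    have h1 : ∀ᶠ w in 𝓝[≠] z, f w = f z ∧ w ∈ U :=
      (h.and (hU.mem_nhds hz)).filter_mono nhdsWithin_le_nhds
    have h2 : ∀ᶠ w in 𝓝[≠] z, w ≠ z := eventually_mem_nhdsWithin
    obtain ⟨w, hw, hw2⟩ := (h1.and h2).exists
    exact hw2 (hi hw.2 hz hw.1)
  · exact h

theorem map_nhds (hU : IsOpen U) (hf : DifferentiableOn ℂ f U) (hi : InjOn f U)
    {z : ℂ} (hz : z ∈ U) : map f (𝓝 z) = 𝓝 (f z) := by
  apply le_antisymm
  · exact (hf.analyticAt (hU.mem_nhds hz)).continuousAt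
  · exact nhds_le_map hU hf hi hz

theorem isOpen_image (hU : IsOpen U) (hf : DifferentiableOn ℂ f U) (hi : InjOn f U)
    {s : Set ℂ} (hs : IsOpen s) (hsU : s ⊆ U) : IsOpen (f '' s) := by
  rw [isOpen_iff_mem_nhds]
  rintro _ ⟨z, hz, rfl⟩
  rw [← map_nhds hU hf hi (hsU hz)]
  exact image_mem_map (hs.mem_nhds hz)

theorem invFunOn_left (hi : InjOn f U) {z : ℂ} (hz : z ∈ U) :
    Function.invFunOn f U (f z) = z :=
  hi.leftInvOn_invFunOn hz

theorem invFunOn_mem {w : ℂ} (hw : w ∈ f '' U) :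
    Function.invFunOn f U w ∈ U :=
  Function.invFunOn_mem (by simpa using hw)

theorem invFunOn_right {w : ℂ} (hw : w ∈ f '' U) :
    f (Function.invFunOn f U w) = w :=
  Function.invFunOn_eq (by simpa using hw)

theorem continuousAt_inv (hU : IsOpen U) (hf : DifferentiableOn ℂ f U) (hi : InjOn f U)
    {w : ℂ} (hw : w ∈ f '' U) : ContinuousAt (Function.invFunOn f U) w := by
  obtain ⟨z, hz, rfl⟩ := hw
  rw [ContinuousAt, invFunOn_left hi hz]
  intro V hV
  rw [mem_map]
  have h1 : V ∩ U ∈ 𝓝 z := inter_mem hV (hU.mem_nhds hz)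
  have h2 : f '' (V ∩ U) ∈ 𝓝 (f z) := by
    rw [← map_nhds hU hf hi hz]
    exact image_mem_map h1
  refine mem_of_superset h2 ?_
  rintro _ ⟨y, hy, rfl⟩
  simp only [mem_preimage]
  rw [invFunOn_left hi hy.2]
  exact hy.1

/-- the inverse is differentiable where the derivative does not vanish -/
theorem hasDerivAt_inv_of_ne (hU : IsOpen U) (hf : DifferentiableOn ℂ f U) (hi : InjOn f U)
    {z : ℂ} (hz : z ∈ U) (hd : deriv f z ≠ 0) :
    HasDerivAt (Function.invFunOn f U) (deriv f z)⁻¹ (f z) := by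
  have hzz : Function.invFunOn f U (f z) = z := invFunOn_left hi hz
  apply HasDerivAt.of_local_left_inverse (f := f)
  · exact continuousAt_inv hU hf hi (mem_image_of_mem f hz)
  · rw [hzz]
    exact (hf.differentiableAt (hU.mem_nhds hz)).hasDerivAt
  · exact hd
  · have : f '' U ∈ 𝓝 (f z) := (isOpen_image hU hf hi hU subset_rfl).mem_nhds (mem_image_of_mem f hz)
    filter_upwards [this] with w hw using invFunOn_right hw

/-- zeros of the derivative are isolated -/
theorem eventually_deriv_ne_zero (hU : IsOpen U) (hf : DifferentiableOn ℂ f U) (hi : InjOn f U)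
    {z : ℂ} (hz : z ∈ U) : ∀ᶠ y in 𝓝[≠] z, deriv f y ≠ 0 := by
  have ha : AnalyticAt ℂ f z := hf.analyticAt (hU.mem_nhds hz)
  rcases ha.deriv.eventually_eq_zero_or_eventually_ne_zero with h | h
  · exfalso
    obtain ⟨r, hr, hrs⟩ := Metric.eventually_nhds_iff_ball.mp (h.and (hU.mem_nhds hz))
    have hconst : ∀ y ∈ ball z r, f y = f z := by
      intro y hy
      have hdiff : DifferentiableOn ℂ f (ball z r) := hf.mono (fun x hx => (hrs x hx).2)
      refine (convex_ball z r).is_const_of_fderivWithin_eq_zero (𝕜 := ℂ) hdiff ?_ hy (mem_ball_self hr)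
      intro x hx
      rw [fderivWithin_of_isOpen isOpen_ball hx]
      ext
      simp [(hrs x hx).1]
    have h1 : z + (r/2 : ℝ) ∈ ball z r := by
      simp [abs_of_pos hr]
      linarith
    have h2 := hi (hrs _ h1).2 hz (hconst _ h1)
    have : ((r/2 : ℝ) : ℂ) = 0 := by
      simpa using h2
    have : r / 2 = 0 := by exact_mod_cast this
    linarith
  · exact h

theorem differentiableAt_inv (hU : IsOpen U) (hf : DifferentiableOn ℂ f U) (hi : InjOn f U)
    {w : ℂ} (hw : w ∈ f '' U) : DifferentiableAt ℂ (Function.invFunOn f U) w := by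
  obtain ⟨z, hz, rfl⟩ := hw
  refine (Complex.analyticAt_of_differentiable_on_punctured_nhds_of_continuousAt ?_
    (continuousAt_inv hU hf hi (mem_image_of_mem f hz))).differentiableAt
  have h1 : ∀ᶠ y in 𝓝 z, y ∈ U ∧ (y ≠ z → deriv f y ≠ 0) := by
    have := eventually_deriv_ne_zero hU hf hi hz
    rw [eventually_nhdsWithin_iff] at this
    exact (hU.mem_nhds hz |> fun h => (show ∀ᶠ y in 𝓝 z, y ∈ U from h)).and this
  have h2 : ∀ᶠ w in 𝓝 (f z), w ≠ f z → DifferentiableAt ℂ (Function.invFunOn f U) w := by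
    rw [← map_nhds hU hf hi hz, eventually_map]
    filter_upwards [h1] with y hy hne
    have hyz : y ≠ z := fun h => hne (by rw [h])
    exact (hasDerivAt_inv_of_ne hU hf hi hy.1 (hy.2 hyz)).differentiableAt
  rw [eventually_nhdsWithin_iff]
  exact h2

theorem deriv_ne_zero (hU : IsOpen U) (hf : DifferentiableOn ℂ f U) (hi : InjOn f U)
    {z : ℂ} (hz : z ∈ U) : deriv f z ≠ 0 := by
  have hzz : Function.invFunOn f U (f z) = z := invFunOn_left hi hz
  have hg := (differentiableAt_inv hU hf hi (mem_image_of_mem f hz)).hasDerivAt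
  have hf' : HasDerivAt f (deriv f z) z := (hf.differentiableAt (hU.mem_nhds hz)).hasDerivAt
  have hcomp : HasDerivAt (Function.invFunOn f U ∘ f)
      (deriv (Function.invFunOn f U) (f z) * deriv f z) z := HasDerivAt.comp z hg hf'
  have hid : HasDerivAt (Function.invFunOn f U ∘ f) 1 z := by
    refine (hasDerivAt_id z).congr_of_eventuallyEq ?_
    filter_upwards [hU.mem_nhds hz] with y hy
    simp [invFunOn_left hi hy]
  have := hcomp.unique hid
  intro h
  rw [h] at this
  simp at this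

theorem hasDerivAt_inv (hU : IsOpen U) (hf : DifferentiableOn ℂ f U) (hi : InjOn f U)
    {z : ℂ} (hz : z ∈ U) :
    HasDerivAt (Function.invFunOn f U) (deriv f z)⁻¹ (f z) :=
  hasDerivAt_inv_of_ne hU hf hi hz (deriv_ne_zero hU hf hi hz)


end univalent

/-- the image of a convex univalent map contains the disc of radius `1 / M` -/
theorem ball_subset_image {f : ℂ → ℂ} (hf : DifferentiableOn ℂ f (ball 0 1))
    (hi : InjOn f (ball 0 1)) (h0 : f 0 = 0) {M : ℝ} (hM : 0 < M)
    (hlow : ∀ z ∈ ball (0:ℂ) 1, ‖z‖ ≤ M * ‖f z‖) :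
    ball (0:ℂ) (1 / M) ⊆ f '' ball 0 1 := by
  have hop : IsOpen (f '' ball (0:ℂ) 1) := isOpen_image isOpen_ball hf hi isOpen_ball subset_rfl
  have hpc : IsPreconnected (ball (0:ℂ) (1 / M)) := (convex_ball _ _).isPreconnected
  refine hpc.subset_of_closure_inter_subset hop ?_ ?_
  · refine ⟨0, mem_ball_self (by positivity), 0, mem_ball_self one_pos, h0⟩
  · rintro w ⟨hw, hwb⟩
    rw [mem_closure_iff_seq_limit] at hw
    obtain ⟨x, hx, hxw⟩ := hw
    choose y hy hyx using hx
    have hyc : ∀ n, y n ∈ closedBall (0:ℂ) 1 := fun n => ball_subset_closedBall (hy n)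
    obtain ⟨a, ha, φ, hφ, hlim⟩ := (isCompact_closedBall (0:ℂ) 1).tendsto_subseq hyc
    have hxw' : Tendsto (fun n => f (y (φ n))) atTop (𝓝 w) := by
      have := hxw.comp hφ.tendsto_atTop
      refine this.congr (fun n => ?_)
      simp [hyx]
    by_cases hab : a ∈ ball (0:ℂ) 1
    · have hc : ContinuousAt f a := (hf.differentiableAt (isOpen_ball.mem_nhds hab)).continuousAt
      have h2 : Tendsto (fun n => f (y (φ n))) atTop (𝓝 (f a)) := hc.tendsto.comp hlim
      exact ⟨a, hab, tendsto_nhds_unique h2 hxw'⟩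
    · exfalso
      have hna : ‖a‖ = 1 := by
        have h1 : ‖a‖ ≤ 1 := by simpa using ha
        have h2 : ¬ ‖a‖ < 1 := by simpa using hab
        linarith [not_lt.mp h2]
      have h3 : Tendsto (fun n => ‖y (φ n)‖) atTop (𝓝 ‖a‖) := hlim.norm
      have h4 : Tendsto (fun n => M * ‖f (y (φ n))‖) atTop (𝓝 (M * ‖w‖)) := hxw'.norm.const_mul M
      have h5 : ‖a‖ ≤ M * ‖w‖ := le_of_tendsto_of_tendsto' h3 h4 (fun n => hlow _ (hy _))
      have h6 : ‖w‖ < 1 / M := by simpa using hwb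
      rw [lt_div_iff₀ hM] at h6
      linarith [mul_comm M ‖w‖]

/-- tangent line inequality -/
theorem tangent_ineq {f : ℂ → ℂ} (hf : DifferentiableOn ℂ f (ball 0 1))
    (hi : InjOn f (ball 0 1)) (h0 : f 0 = 0) (hconv : Convex ℝ (f '' ball 0 1)) {M : ℝ} (hM : 0 < M)
    (hlow : ∀ z ∈ ball (0:ℂ) 1, ‖z‖ ≤ M * ‖f z‖)
    {z w : ℂ} (hz : z ∈ ball (0:ℂ) 1) (hz0 : z ≠ 0) (hw : M * ‖w‖ ≤ ‖z‖) :
    ((starRingEnd ℂ) z * ((deriv f z)⁻¹ * (w - f z))).re ≤ 0 := by
  set U : Set ℂ := ball (0:ℂ) 1 with hU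
  have hUo : IsOpen U := isOpen_ball
  set g := Function.invFunOn f U with hg
  have hball := ball_subset_image hf hi h0 hM hlow
  have hzn : 0 < ‖z‖ := norm_pos_iff.mpr hz0
  -- the bound along the segment
  have hbound : ∀ s : ℝ, 0 ≤ s → s ≤ 1 → ‖g (f z + (s:ℂ) * (w - f z))‖ ≤ ‖z‖ := by
    intro s hs0 hs1
    let G : ℂ → ℂ := fun ζ => ((1 - s : ℝ) : ℂ) * f ζ + (s : ℂ) * (ζ * (w / z))
    have hGm : MapsTo G U (f '' U) := by
      intro ζ hζ
      have hζ1 : ‖ζ‖ < 1 := by simpa [hU] using hζ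
      have hmem : ζ * (w / z) ∈ f '' U := by
        apply hball
        rw [mem_ball_zero_iff, norm_mul, norm_div, lt_div_iff₀ hM]
        have h1 : M * (‖w‖ / ‖z‖) ≤ 1 := by
          rw [← mul_div_assoc, div_le_one hzn]; exact hw
        have h2 : ‖ζ‖ * (‖w‖ / ‖z‖) * M = ‖ζ‖ * (M * (‖w‖ / ‖z‖)) := by ring
        rw [h2]
        calc ‖ζ‖ * (M * (‖w‖ / ‖z‖)) ≤ ‖ζ‖ * 1 := by gcongr
          _ < 1 := by linarith
      have := hconv (mem_image_of_mem f hζ) hmem (show (0:ℝ) ≤ 1 - s by linarith) hs0 (by ring)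
      simpa [G] using this
    have hGd : DifferentiableOn ℂ G U := by
      apply DifferentiableOn.add
      · exact hf.const_mul _
      · fun_prop
    have hgd : DifferentiableOn ℂ g (f '' U) := fun y hy =>
      (differentiableAt_inv hUo hf hi hy).differentiableWithinAt
    have hcomp : DifferentiableOn ℂ (g ∘ G) U := hgd.comp hGd hGm
    have hmaps : MapsTo (g ∘ G) (ball (0:ℂ) 1) (closedBall 0 1) := by
      intro ζ hζ
      exact ball_subset_closedBall (invFunOn_mem (hGm hζ))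
    have hG0 : G 0 = 0 := by simp [G, h0]
    have hcomp0 : (g ∘ G) 0 = 0 := by
      simp only [Function.comp, hG0]
      have := invFunOn_left hi (mem_ball_self (x := (0:ℂ)) one_pos)
      rw [h0] at this
      exact this
    have hsch := Complex.norm_le_norm_of_mapsTo_ball hcomp hmaps hcomp0 (by simpa [hU] using hz)
    have hGz : G z = f z + (s:ℂ) * (w - f z) := by
      simp only [G]
      rw [mul_div_cancel₀ _ hz0]
      push_cast
      ring
    simp only [Function.comp, hGz] at hsch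
    exact hsch
  -- derivative of the path
  have hd1 : HasDerivAt (fun s : ℝ => f z + (s:ℂ) * (w - f z)) (w - f z) 0 := by
    have h1 : HasDerivAt (fun s : ℝ => (s:ℂ)) 1 0 := Complex.ofRealCLM.hasDerivAt
    simpa using (h1.mul_const (w - f z)).const_add (f z)
  have hgz : g (f z) = z := invFunOn_left hi hz
  have hd2 : HasDerivAt (fun s : ℝ => g (f z + (s:ℂ) * (w - f z)))
      ((deriv f z)⁻¹ * (w - f z)) 0 := by
    have hgd := hasDerivAt_inv hUo hf hi hz
    have h3 : HasDerivAt g (deriv f z)⁻¹ ((fun s : ℝ => f z + (s:ℂ) * (w - f z)) 0) := by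
      simpa using hgd
    exact HasDerivAt.comp (𝕜' := ℂ) (0:ℝ) h3 hd1
  have hd3 := hd2.norm_sq
  have hval : g (f z + ((0:ℝ):ℂ) * (w - f z)) = z := by simpa using hgz
  rw [hval] at hd3
  have hslope := (hasDerivAt_iff_tendsto_slope.mp hd3).mono_left
    (nhdsWithin_mono (0:ℝ) (show Ioi (0:ℝ) ⊆ {0}ᶜ from fun x hx => ne_of_gt hx))
  have hle : 2 * inner ℝ z ((deriv f z)⁻¹ * (w - f z)) ≤ 0 := by
    refine le_of_tendsto hslope ?_
    have : Ioo (0:ℝ) 1 ∈ 𝓝[>] (0:ℝ) := Ioo_mem_nhdsGT one_pos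
    filter_upwards [this] with s hs
    rw [slope_def_field]
    apply div_nonpos_of_nonpos_of_nonneg
    · have h1 := hbound s hs.1.le hs.2.le
      have h2 : ‖g (f z + (s:ℂ) * (w - f z))‖ ^ 2 ≤ ‖z‖ ^ 2 := by gcongr
      simp only [hval]
      linarith
    · linarith [hs.1]
  have hin : inner ℝ z ((deriv f z)⁻¹ * (w - f z)) =
      ((starRingEnd ℂ) z * ((deriv f z)⁻¹ * (w - f z))).re := by
    rw [Complex.inner, mul_comm]
  rw [← hin]
  linarith

theorem pointwise {f : ℂ → ℂ} (hf : DifferentiableOn ℂ f (ball 0 1))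
    (hi : InjOn f (ball 0 1)) (h0 : f 0 = 0) (hconv : Convex ℝ (f '' ball 0 1)) {M : ℝ} (hM : 0 < M)
    (hlow : ∀ z ∈ ball (0:ℂ) 1, ‖z‖ ≤ M * ‖f z‖)
    {z : ℂ} (hz : z ∈ ball (0:ℂ) 1) (hz0 : z ≠ 0) :
    ‖(deriv f z)⁻¹‖ ≤ M * (f z / z / deriv f z).re := by
  have hd : deriv f z ≠ 0 := deriv_ne_zero isOpen_ball hf hi hz
  set d := deriv f z with hdd
  have hzn : 0 < ‖z‖ := norm_pos_iff.mpr hz0
  have hdn : 0 < ‖d‖ := norm_pos_iff.mpr hd
  -- choose w
  set w : ℂ := ((‖z‖ / M / (‖z‖ * ‖d‖) : ℝ) : ℂ) * (z * d) with hw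
  have hwn : M * ‖w‖ ≤ ‖z‖ := by
    rw [hw, norm_mul, norm_mul, Complex.norm_real, Real.norm_of_nonneg (by positivity)]
    have : M * (‖z‖ / M / (‖z‖ * ‖d‖) * (‖z‖ * ‖d‖)) = ‖z‖ := by
      field_simp
    rw [this]
  have h1 := tangent_ineq hf hi h0 hconv hM hlow hz hz0 hwn
  rw [← hdd] at h1
  have h2 : (starRingEnd ℂ) z * (d⁻¹ * (w - f z)) =
      ((‖z‖ / M / (‖z‖ * ‖d‖) * ‖z‖ ^ 2 : ℝ) : ℂ) - ((‖z‖ ^ 2 : ℝ) : ℂ) * (f z / z / d) := by
    have h3 : (starRingEnd ℂ) z * z = ((‖z‖ ^ 2 : ℝ) : ℂ) := by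
      rw [mul_comm, Complex.mul_conj, Complex.normSq_eq_norm_sq]
    have h4 : ((‖z‖ ^ 2 : ℝ) : ℂ) * (f z / z / d) = (starRingEnd ℂ) z * (d⁻¹ * f z) := by
      rw [← h3]; field_simp
    rw [h4, hw, Complex.ofReal_mul (‖z‖ / M / (‖z‖ * ‖d‖)), ← h3]
    field_simp
  rw [h2, Complex.sub_re, Complex.ofReal_re, Complex.re_ofReal_mul] at h1
  rw [norm_inv]
  have h5 : ‖z‖ / M / (‖z‖ * ‖d‖) * ‖z‖ ^ 2 = ‖z‖ ^ 2 * (‖d‖⁻¹ / M) := by
    field_simp
  rw [h5, ← mul_sub] at h1
  have h6 : ‖d‖⁻¹ / M - (f z / z / d).re ≤ 0 := by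
    by_contra hcon
    push Not at hcon
    have : 0 < ‖z‖ ^ 2 * (‖d‖⁻¹ / M - (f z / z / d).re) := by positivity
    linarith
  have h7 : ‖d‖⁻¹ / M ≤ (f z / z / d).re := by linarith
  rw [div_le_iff₀ hM] at h7
  linarith

/-- For every normalized univalent map f of the unit disc onto a convex domain, and every 0<r<1, the mean over the circle of radius r of ∣1/f'∣ is at most any upper bound M of ∣z/f(z)∣ on the punctured disc. -/
theorem result :
    ∀ f : ℂ → ℂ, DifferentiableOn ℂ f (Metric.ball 0 1) →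
      Set.InjOn f (Metric.ball 0 1) → f 0 = 0 → deriv f 0 = 1 →
      Convex ℝ (f '' Metric.ball 0 1) →
      ∀ M : ℝ, (∀ z ∈ Metric.ball (0:ℂ) 1, z ≠ 0 → ‖z / f z‖ ≤ M) →
      ∀ r : ℝ, 0 < r → r < 1 →
        (1 / (2 * Real.pi)) * ∫ θ in (0:ℝ)..(2 * Real.pi), ‖(deriv f (circleMap 0 r θ))⁻¹‖ ≤ M := by
  intro f hf hi h0 h1 hconv M hMb r hr0 hr1
  have hfz : ∀ z ∈ ball (0:ℂ) 1, z ≠ 0 → f z ≠ 0 := by
    intro z hz hz0 h
    exact hz0 (hi hz (mem_ball_self one_pos) (by rw [h, h0]))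
  have hM : 0 < M := by
    have hmem : (1/2 : ℂ) ∈ ball (0:ℂ) 1 := by
      simp; norm_num
    have hne : (1/2 : ℂ) ≠ 0 := by norm_num
    have := hMb (1/2) hmem hne
    refine lt_of_lt_of_le ?_ this
    exact norm_pos_iff.mpr (div_ne_zero hne (hfz _ hmem hne))
  have hlow : ∀ z ∈ ball (0:ℂ) 1, ‖z‖ ≤ M * ‖f z‖ := by
    intro z hz
    by_cases hz0 : z = 0
    · simp [hz0, h0]
    · have := hMb z hz hz0
      rw [norm_div, div_le_iff₀ (norm_pos_iff.mpr (hfz z hz hz0))] at this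
      exact this
  -- the holomorphic function with value one at the origin
  set q : ℂ → ℂ := fun z => dslope f 0 z / deriv f z with hq
  have hdf : DifferentiableOn ℂ (deriv f) (ball (0:ℂ) 1) := hf.deriv isOpen_ball
  have hqd : DifferentiableOn ℂ q (ball (0:ℂ) 1) := by
    apply DifferentiableOn.div _ hdf (fun z hz => deriv_ne_zero isOpen_ball hf hi hz)
    exact (Complex.differentiableOn_dslope (isOpen_ball.mem_nhds (mem_ball_self one_pos))).mpr hf
  have hq0 : q 0 = 1 := by simp [hq, h1]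
  have hsub : closedBall (0:ℂ) |r| ⊆ ball (0:ℂ) 1 := by
    rw [abs_of_pos hr0]; exact closedBall_subset_ball hr1
  have hsph : sphere (0:ℂ) |r| ⊆ ball (0:ℂ) 1 := sphere_subset_closedBall.trans hsub
  have hmean : Real.circleAverage q 0 r = 1 := by
    rw [DiffContOnCl.circleAverage, hq0]
    apply DifferentiableOn.diffContOnCl
    rw [closure_ball _ (by simpa using hr0.ne')]
    exact hqd.mono hsub
  have hci1 : CircleIntegrable (fun z => ‖(deriv f z)⁻¹‖) 0 r := by
    apply ContinuousOn.circleIntegrable'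
    apply ContinuousOn.norm
    apply ContinuousOn.inv₀ (hdf.continuousOn.mono hsph)
    intro z hz
    exact deriv_ne_zero isOpen_ball hf hi (hsph hz)
  have hci2 : CircleIntegrable (fun z => M * (q z).re) 0 r := by
    apply ContinuousOn.circleIntegrable'
    apply ContinuousOn.mul continuousOn_const
    exact Complex.continuous_re.comp_continuousOn (hqd.continuousOn.mono hsph)
  have hci3 : CircleIntegrable q 0 r := by
    apply ContinuousOn.circleIntegrable'
    exact hqd.continuousOn.mono hsph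
  have hcomp : Real.circleAverage (fun z => ‖(deriv f z)⁻¹‖) 0 r ≤
      Real.circleAverage (fun z => M * (q z).re) 0 r := by
    apply Real.circleAverage_mono hci1 hci2
    intro z hz
    have hzb := hsph hz
    have hz0 : z ≠ 0 := by
      rintro rfl
      rw [mem_sphere_zero_iff_norm, norm_zero] at hz
      exact absurd hz.symm (by positivity)
    have := pointwise hf hi h0 hconv hM hlow hzb hz0
    simp only [hq]
    rw [dslope_of_ne _ hz0, slope_def_field, h0, sub_zero, sub_zero]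
    exact this
  have hre : Real.circleAverage (fun z => M * (q z).re) 0 r = M := by
    have h2 : Real.circleAverage (fun z => (q z).re) 0 r = 1 := by
      have := Complex.reCLM.circleAverage_comp_comm hci3
      simp only [Function.comp_def, Complex.reCLM_apply] at this
      rw [this, hmean]
      simp
    have h3 := Real.circleAverage_fun_smul (f := fun z => (q z).re) (c := 0) (R := r) (a := M)
    simp only [smul_eq_mul] at h3
    rw [h3, h2, mul_one]
  rw [hre] at hcomp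
  rw [Real.circleAverage_def] at hcomp
  simpa using hcomp

end Pool.Agent.S03347
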