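import Pool.Statements.S03349
import Pool.Agent.Helper474.TurM

set_option autoImplicit false
open Pool Pool.MP_6f83fd_an

namespace Pool.Agent.S03349

/-- The minimum, over complex vectors of length n+1 with first entry 1 and all entries of modulus at most 1, of the largest modulus of the k-th power sum for k = 1..n+1, converges to a real limit as n grows. -/
theorem result :
    ∃ L : ℝ, Filter.Tendsto
      (fun n : ℕ =>
        ⨅ z : {z : Fin (n + 1) → ℂ // z 0 = 1 ∧ ∀ j, ‖z j‖ ≤ 1},
          ⨆ k : Fin (n + 1), ‖∑ j, (z.1 j) ^ (k.val + 1)‖)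
      Filter.atTop (nhds L) := by
  exact Pool.Agent.Helper474.Tur.sg_tendsto

end Pool.Agent.S03349
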