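import Pool.Statements.S03354
import Pool.Agent.Helper107.Comm

set_option autoImplicit false
open MeasureTheory
open Pool Pool.MP_6fecbe_an

namespace Pool.Agent.S03354

/-- The negation of the preceding statement: In dimension d≥2, for bounded mean-zero Ω on the sphere and b in BMO, there is C such that for every A₂ weight w with constant at most A, the principal-value commutator [b,T_Ω] satisfies ‖[b,T_Ω]f‖_{L²(w)} ≤ C·A²·‖f‖_{L²(w)} for bounded compactly supported f. -/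
theorem result :
    ¬ (∀ (d : ℕ), 2 ≤ d →
  ∀ (Ω : EuclideanSpace ℝ (Fin d) → ℝ), Measurable Ω → (∃ M : ℝ, ∀ y, |Ω y| ≤ M) →
    (∫ y in {y : EuclideanSpace ℝ (Fin d) | 1 < ‖y‖ ∧ ‖y‖ < 2}, Ω (‖y‖⁻¹ • y)) = 0 →
  ∀ (b : EuclideanSpace ℝ (Fin d) → ℝ), MeasureTheory.LocallyIntegrable b MeasureTheory.volume →
    (∃ M : ℝ, ∀ (x : EuclideanSpace ℝ (Fin d)) (r : ℝ), 0 < r →
      (⨍ y in Metric.ball x r, |b y - ⨍ z in Metric.ball x r, b z|) ≤ M) →
  ∃ C : ℝ, ∀ (w : EuclideanSpace ℝ (Fin d) → ℝ) (A : ℝ),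
    MeasureTheory.LocallyIntegrable w MeasureTheory.volume →
    MeasureTheory.LocallyIntegrable (fun x => (w x)⁻¹) MeasureTheory.volume →
    (∀ᵐ x ∂MeasureTheory.volume, 0 < w x) →
    (∀ (x : EuclideanSpace ℝ (Fin d)) (r : ℝ), 0 < r →
      (⨍ y in Metric.ball x r, w y) * (⨍ y in Metric.ball x r, (w y)⁻¹) ≤ A) →
    ∀ (f g : EuclideanSpace ℝ (Fin d) → ℝ), Measurable f → HasCompactSupport f →
      (∃ K : ℝ, ∀ x, |f x| ≤ K) →
      (∀ᵐ x ∂MeasureTheory.volume, Filter.Tendsto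
        (fun ε : ℝ => ∫ y in {y : EuclideanSpace ℝ (Fin d) | ε < dist x y},
          (b x - b y) * (Ω (‖x - y‖⁻¹ • (x - y)) / ‖x - y‖ ^ d) * f y)
        (nhdsWithin 0 (Set.Ioi 0)) (nhds (g x))) →
      ∫⁻ x, ENNReal.ofReal ((g x) ^ 2 * w x)
        ≤ ENNReal.ofReal (C * A ^ 4) * ∫⁻ x, ENNReal.ofReal ((f x) ^ 2 * w x)) := by
  intro h
  have h2 := h 2 le_rfl
  refine Pool.Agent.Helper107.Comm.main (fun q => ?_)
  obtain ⟨C, hC⟩ := h2 (Pool.Agent.Helper107.Comm.OmQ q) (Pool.Agent.Helper107.Comm.measurable_OmQ q)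
    ⟨4 * ‖q‖, Pool.Agent.Helper107.Comm.abs_OmQ_le q⟩ (Pool.Agent.Helper107.Comm.OmQ_mean q)
    Pool.Agent.Helper107.Comm.bb Pool.Agent.Helper107.Comm.bb_locallyIntegrable
    Pool.Agent.Helper107.Comm.bb_bmo
  refine ⟨C, fun k hk => ?_⟩
  have hρ := Pool.Agent.Helper107.Comm.p_rho_pos hk
  have hρ' := Pool.Agent.Helper107.Comm.p_rho_le hk
  have hloc : ∀ (K : ℕ) (ρ : ℝ) (X Z : Finset (EuclideanSpace ℝ (Fin 2))),
      LocallyIntegrable (Pool.Agent.Helper107.Spike.wt K ρ X Z) volume := by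
    intro K ρ X Z
    rw [locallyIntegrable_iff]
    intro S hS
    obtain ⟨R, hR⟩ := hS.isBounded.subset_ball_lt 0 0
    exact (Pool.Agent.Helper107.Spike.wt_integrableOn K ρ X Z 0 R).mono_set hR.2
  refine hC _ (Pool.Agent.Helper107.Comm.pA k) (hloc _ _ _ _) ?_
    (Filter.Eventually.of_forall (Pool.Agent.Helper107.Spike.wt_pos _ _ _ _)) ?_ _ _
    (Pool.Agent.Helper107.Comm.measurable_ft (hρ := hρ))
    (Pool.Agent.Helper107.Spike.ft_compact _ _ hρ _) ?_
    (Filter.Eventually.of_forall (fun x => Pool.Agent.Helper107.Comm.gq_pv hρ' q x))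
  · simp only [Pool.Agent.Helper107.Spike.wt_inv]
    exact hloc _ _ _ _
  · intro x r hr
    have hb := Pool.Agent.Helper107.Spike.A2_bound (2 * Pool.Agent.Helper107.Comm.pm k)
      (Pool.Agent.Helper107.Comm.pr k) hρ hρ' _ _
      (Pool.Agent.Helper107.Spike.disj_XZ (Pool.Agent.Helper107.Comm.pn k))
      (Pool.Agent.Helper107.Spike.sep_XZ (Pool.Agent.Helper107.Comm.pn k)) x r hr
    have hV : 0 < volume.real (Metric.ball x r) := by
      rw [Pool.Agent.Helper107.Spike.vol_ball x r hr.le]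
      have := Real.pi_pos
      positivity
    rw [setAverage_eq, setAverage_eq, smul_eq_mul, smul_eq_mul]
    rw [show (volume.real (Metric.ball x r))⁻¹ * (∫ y in Metric.ball x r,
      Pool.Agent.Helper107.Spike.wt (2 * Pool.Agent.Helper107.Comm.pm k)
        (Pool.Agent.Helper107.Comm.pr k) (Pool.Agent.Helper107.Spike.XX
          (Pool.Agent.Helper107.Comm.pn k)) (Pool.Agent.Helper107.Spike.ZZ
          (Pool.Agent.Helper107.Comm.pn k)) y) * ((volume.real (Metric.ball x r))⁻¹ *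
      (∫ y in Metric.ball x r, (Pool.Agent.Helper107.Spike.wt (2 * Pool.Agent.Helper107.Comm.pm k)
        (Pool.Agent.Helper107.Comm.pr k) (Pool.Agent.Helper107.Spike.XX
          (Pool.Agent.Helper107.Comm.pn k)) (Pool.Agent.Helper107.Spike.ZZ
          (Pool.Agent.Helper107.Comm.pn k)) y)⁻¹)) = (volume.real (Metric.ball x r) ^ 2)⁻¹ *
      ((∫ y in Metric.ball x r,
      Pool.Agent.Helper107.Spike.wt (2 * Pool.Agent.Helper107.Comm.pm k)
        (Pool.Agent.Helper107.Comm.pr k) (Pool.Agent.Helper107.Spike.XX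
          (Pool.Agent.Helper107.Comm.pn k)) (Pool.Agent.Helper107.Spike.ZZ
          (Pool.Agent.Helper107.Comm.pn k)) y) *
      (∫ y in Metric.ball x r, (Pool.Agent.Helper107.Spike.wt (2 * Pool.Agent.Helper107.Comm.pm k)
        (Pool.Agent.Helper107.Comm.pr k) (Pool.Agent.Helper107.Spike.XX
          (Pool.Agent.Helper107.Comm.pn k)) (Pool.Agent.Helper107.Spike.ZZ
          (Pool.Agent.Helper107.Comm.pn k)) y)⁻¹)) by field_simp,
      inv_mul_le_iff₀ (by positivity)]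
    refine hb.trans (le_of_eq ?_)
    unfold Pool.Agent.Helper107.Comm.pA
    ring
  · obtain ⟨K, hK⟩ := (Pool.Agent.Helper107.Spike.ft_contDiff
      (Pool.Agent.Helper107.Comm.pm k) (Pool.Agent.Helper107.Comm.pr k) hρ
      (Pool.Agent.Helper107.Spike.ZZ (Pool.Agent.Helper107.Comm.pn k))).continuous.bounded_above_of_compact_support
      (Pool.Agent.Helper107.Spike.ft_compact _ _ hρ _)
    exact ⟨K, hK⟩

end Pool.Agent.S03354
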