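import Pool.Statements.S03355
import Pool.Agent.Helper428.Becker
-- import your own Pool.Agent.* helpers here

set_option autoImplicit false
open Pool Pool.MP_7034e0_an

namespace Pool.Agent.S03355

open Complex Set Filter Topology Pool.Agent.Helper428.Becker

/-- the key inequality: `2 (Re η + 1) ≤ |1 + e^M|²` -/
lemma key1 (M : ℂ) : 2 * ((h M).re + 1) ≤ ‖1 + exp M‖ ^ 2 := by
  rw [h_re, Complex.sq_norm, Complex.normSq_apply]
  simp only [add_re, one_re, add_im, one_im, exp_re, exp_im, zero_add]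
  have h1 : 2 * M.re + 1 ≤ Real.exp (2 * M.re) := Real.add_one_le_exp _
  have h2 : Real.exp (2 * M.re) = Real.exp M.re * Real.exp M.re := by
    rw [← Real.exp_add]; ring_nf
  have h3 := Real.sin_sq_add_cos_sq M.im
  nlinarith [h1, h2, h3]

lemma key2 (M : ℂ) : 2 * ((h M).re + 1) ≤ 12 * ‖1 + exp M‖ := by
  have h1 := key1 M
  have h0 : 0 ≤ ‖1 + exp M‖ := norm_nonneg _
  rcases le_or_gt ‖1 + exp M‖ (1/2) with hD | hD
  · nlinarith
  · have h2 : Real.exp M.re ≤ ‖1 + exp M‖ + 1 := by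
      rw [← Complex.norm_exp]
      calc ‖exp M‖ = ‖(1 + exp M) - 1‖ := by ring_nf
        _ ≤ ‖1 + exp M‖ + ‖(1 : ℂ)‖ := norm_sub_le _ _
        _ = _ := by simp
    have h3 : M.re + 1 ≤ Real.exp M.re := Real.add_one_le_exp _
    have h4 : Real.exp M.re * Real.cos M.im ≤ Real.exp M.re := by
      have := Real.cos_le_one M.im
      nlinarith [Real.exp_pos M.re]
    rw [h_re]
    linarith

/-- For every r>1 there is a locally univalent analytic f on the unit disk with sup (1-∣z∣^2)∣f''/f'∣ at most r that does not extend to a quasiconformal homeomorphism of the plane, so radius 1 in Becker's criterion cannot be enlarged. -/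
theorem result :
    ∀ r : ℝ, 1 < r →
      ∃ f : ℂ → ℂ,
        DifferentiableOn ℂ f (Metric.ball (0 : ℂ) 1) ∧
        (∀ z ∈ Metric.ball (0 : ℂ) 1, deriv f z ≠ 0) ∧
        (∀ z ∈ Metric.ball (0 : ℂ) 1,
          (1 - ‖z‖ ^ 2) * ‖deriv (deriv f) z / deriv f z‖ ≤ r) ∧
        ¬ ∃ F : ℂ ≃ₜ ℂ,
            (∀ z ∈ Metric.ball (0 : ℂ) 1, F z = f z) ∧
            ∃ H : ℝ, ∀ z : ℂ, ∃ δ : ℝ, 0 < δ ∧
              ∀ ρ : ℝ, 0 < ρ → ρ < δ →
                ∀ w₁ w₂ : ℂ, ‖w₁ - z‖ = ρ → ‖w₂ - z‖ = ρ →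
                  ‖F w₁ - F z‖ ≤ H * ‖F w₂ - F z‖ := by
  intro r hr
  obtain ⟨c, hc1, hcr⟩ : ∃ c : ℝ, 1 < c ∧ 1 + 12 * (c - 1) ≤ r :=
    ⟨1 + (r - 1) / 12, by linarith, by linarith⟩
  have hc0 : 0 < c := by linarith
  have hpi := Real.pi_pos
  have hpc : Real.pi / c < Real.pi := div_lt_self hpi hc1
  have hpc0 : 0 < Real.pi / c := div_pos hpi hc0
  have hcos : -1 < Real.cos (Real.pi / c) := by
    rw [← Real.cos_pi]
    exact Real.cos_lt_cos_of_nonneg_of_le_pi hpc0.le le_rfl hpc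
  have hsin : 0 < Real.sin (Real.pi / c) := Real.sin_pos_of_pos_of_lt_pi hpc0 hpc
  obtain ⟨p, hp⟩ : ∃ p : ℝ, p = 1 + Real.cos (Real.pi / c) := ⟨_, rfl⟩
  obtain ⟨q, hq⟩ : ∃ q : ℝ, q = Real.pi / c + Real.sin (Real.pi / c) := ⟨_, rfl⟩
  have hp0 : 0 < p := by linarith
  have hq0 : 0 < q := by linarith
  obtain ⟨R, hR⟩ : ∃ R : ℝ, R = (p ^ 2 + q ^ 2) / p := ⟨_, rfl⟩
  have hR0 : 0 < R := by rw [hR]; positivity
  have hRp : R * p = p ^ 2 + q ^ 2 := by rw [hR]; field_simp
  -- the affine map into the half-plane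
  obtain ⟨A, hA⟩ : ∃ A : ℂ → ℂ, A = fun z => (-1 : ℂ) + R * (1 + z) := ⟨_, rfl⟩
  have hAre : ∀ z, (A z).re = -1 + R * (1 + z.re) := by
    intro z; rw [hA]; simp
  have hz1 : ∀ z ∈ Metric.ball (0 : ℂ) 1, 0 < 1 + z.re := by
    intro z hz
    rw [mem_ball_zero_iff] at hz
    have := abs_lt.1 ((Complex.abs_re_le_norm z).trans_lt hz)
    linarith
  have hAhalf : ∀ z ∈ Metric.ball (0 : ℂ) 1, -1 < (A z).re := by
    intro z hz
    rw [hAre]
    have := mul_pos hR0 (hz1 z hz)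
    linarith
  have hAd : ∀ z, HasDerivAt A R z := by
    intro z
    rw [hA]
    simpa using (((hasDerivAt_id z).const_add 1).const_mul (R : ℂ)).const_add (-1)
  have hw : ∀ z ∈ Metric.ball (0 : ℂ) 1,
      HasDerivAt (fun z => W (A z)) ((1 + exp (W (A z)))⁻¹ * R) z := by
    intro z hz
    exact ((strict_W (hAhalf z hz)).hasDerivAt).comp z (hAd z)
  have hne : ∀ z ∈ Metric.ball (0 : ℂ) 1, 1 + exp (W (A z)) ≠ 0 := fun z hz =>
    one_add_exp_ne (W_mem (hAhalf z hz))
  have hf1 : ∀ z ∈ Metric.ball (0 : ℂ) 1,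
      HasDerivAt (fun z => exp (c * W (A z)))
        (exp (c * W (A z)) * (c * ((1 + exp (W (A z)))⁻¹ * R))) z := by
    intro z hz
    exact ((hw z hz).const_mul (c : ℂ)).cexp
  have hf1' : ∀ z ∈ Metric.ball (0 : ℂ) 1, deriv (fun z => exp (c * W (A z))) z =
      exp (c * W (A z)) * (c * ((1 + exp (W (A z)))⁻¹ * R)) := fun z hz => (hf1 z hz).deriv
  have hf2 : ∀ z ∈ Metric.ball (0 : ℂ) 1,
      deriv (deriv (fun z => exp (c * W (A z)))) z =
        exp (c * W (A z)) * (c * ((1 + exp (W (A z)))⁻¹ * R)) *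
          (c * ((1 + exp (W (A z)))⁻¹ * R)) +
        exp (c * W (A z)) * (c * (-(exp (W (A z)) * ((1 + exp (W (A z)))⁻¹ * R)) /
          (1 + exp (W (A z))) ^ 2 * R)) := by
    intro z hz
    have hev : deriv (fun z => exp (c * W (A z))) =ᶠ[𝓝 z]
        fun z => exp (c * W (A z)) * (c * ((1 + exp (W (A z)))⁻¹ * R)) := by
      filter_upwards [Metric.isOpen_ball.mem_nhds hz] with y hy
      exact hf1' y hy
    rw [hev.deriv_eq]
    apply HasDerivAt.deriv
    apply (hf1 z hz).mul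
    apply HasDerivAt.const_mul
    apply HasDerivAt.mul_const
    exact ((hw z hz).cexp.const_add 1).inv (hne z hz)
  refine ⟨fun z => exp (c * W (A z)), ?_, ?_, ?_, ?_⟩
  · intro z hz
    exact (hf1 z hz).differentiableAt.differentiableWithinAt
  · intro z hz
    rw [hf1' z hz]
    have := hne z hz
    have hcC : (c : ℂ) ≠ 0 := by exact_mod_cast hc0.ne'
    have hRC : (R : ℂ) ≠ 0 := by exact_mod_cast hR0.ne'
    exact mul_ne_zero (exp_ne_zero _) (mul_ne_zero hcC (mul_ne_zero (inv_ne_zero this) hRC))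
  · intro z hz
    have hn := hne z hz
    have hcC : (c : ℂ) ≠ 0 := by exact_mod_cast hc0.ne'
    have hRC : (R : ℂ) ≠ 0 := by exact_mod_cast hR0.ne'
    have hratio : deriv (deriv (fun z => exp (c * W (A z)))) z /
        deriv (fun z => exp (c * W (A z))) z =
        R * ((1 + (c - 1) * (1 + exp (W (A z)))) / (1 + exp (W (A z))) ^ 2) := by
      rw [hf2 z hz, hf1' z hz]
      have he := exp_ne_zero (c * W (A z))
      field_simp
      ring
    rw [hratio]
    set M := W (A z) with hM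
    have hhM : h M = A z := h_W (hAhalf z hz)
    have k1 := key1 M
    have k2 := key2 M
    rw [hhM, hAre] at k1 k2
    have hD : 0 < ‖1 + exp M‖ := norm_pos_iff.2 hn
    have hzn : ‖z‖ < 1 := mem_ball_zero_iff.1 hz
    have hT : (1 - ‖z‖ ^ 2) * R ≤ 2 * (-1 + R * (1 + z.re) + 1) := by
      have e1 : ‖z‖ ^ 2 = z.re * z.re + z.im * z.im := by
        rw [Complex.sq_norm, Complex.normSq_apply]
      have e2 := hz1 z hz
      have e3 : 1 - ‖z‖ ^ 2 ≤ 2 * (1 + z.re) := by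
        rw [e1]; nlinarith [mul_self_nonneg z.im, mul_self_nonneg (z.re + 1)]
      nlinarith
    have hpos : 0 < (1 - ‖z‖ ^ 2) * R := by
      have : 0 < 1 - ‖z‖ ^ 2 := by nlinarith [norm_nonneg z]
      positivity
    have hnum : ‖(1 : ℂ) + (c - 1) * (1 + exp M)‖ ≤ 1 + (c - 1) * ‖1 + exp M‖ := by
      calc ‖(1 : ℂ) + (c - 1) * (1 + exp M)‖ ≤ ‖(1 : ℂ)‖ + ‖((c : ℂ) - 1) * (1 + exp M)‖ :=
            norm_add_le _ _
        _ = 1 + (c - 1) * ‖1 + exp M‖ := by
            rw [norm_one, norm_mul]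
            congr 2
            have : (c : ℂ) - 1 = ((c - 1 : ℝ) : ℂ) := by push_cast; ring
            rw [this, Complex.norm_real, Real.norm_of_nonneg (by linarith)]
    rw [norm_mul, norm_div, norm_pow, Complex.norm_real, Real.norm_of_nonneg hR0.le]
    have : (1 - ‖z‖ ^ 2) * (R * (‖(1 : ℂ) + (c - 1) * (1 + exp M)‖ / ‖1 + exp M‖ ^ 2)) =
        ((1 - ‖z‖ ^ 2) * R) * ‖(1 : ℂ) + (c - 1) * (1 + exp M)‖ / ‖1 + exp M‖ ^ 2 := by ring
    rw [this, div_le_iff₀ (by positivity)]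
    refine le_trans ?_ (mul_le_mul_of_nonneg_right hcr (by positivity))
    calc ((1 - ‖z‖ ^ 2) * R) * ‖(1 : ℂ) + (c - 1) * (1 + exp M)‖
        ≤ ((1 - ‖z‖ ^ 2) * R) * (1 + (c - 1) * ‖1 + exp M‖) :=
          mul_le_mul_of_nonneg_left hnum hpos.le
      _ = ((1 - ‖z‖ ^ 2) * R) + (c - 1) * (((1 - ‖z‖ ^ 2) * R) * ‖1 + exp M‖) := by ring
      _ ≤ ‖1 + exp M‖ ^ 2 + (c - 1) * ((12 * ‖1 + exp M‖) * ‖1 + exp M‖) := by
          apply add_le_add (hT.trans k1)
          apply mul_le_mul_of_nonneg_left _ (by linarith)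
          exact mul_le_mul_of_nonneg_right (hT.trans k2) hD.le
      _ = (1 + 12 * (c - 1)) * ‖1 + exp M‖ ^ 2 := by ring
  · rintro ⟨F, hF, -⟩
    -- the two points
    have hval : ∀ s : ℝ, |s| = Real.pi / c → ∀ z : ℂ, A z = h (s * I) →
        (s : ℂ) * I ∈ S ∧ -1 < (h ((s : ℂ) * I)).re ∧ W (A z) = s * I := by
      intro s hs z hAz
      have m1 : (s : ℂ) * I ∈ S := by
        show |((s : ℂ) * I).im| < Real.pi
        simpa [hs] using hpc
      have m2 : -1 < (h ((s : ℂ) * I)).re := by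
        rw [h_re]
        have : Real.cos s = Real.cos (Real.pi / c) := by rw [← hs, Real.cos_abs]
        simp [this]
        exact hcos
      exact ⟨m1, m2, by rw [hAz, W_h m1 m2]⟩
    obtain ⟨z₁, hz₁⟩ : ∃ z : ℂ, z = ⟨p / R - 1, q / R⟩ := ⟨_, rfl⟩
    obtain ⟨z₂, hz₂⟩ : ∃ z : ℂ, z = ⟨p / R - 1, -(q / R)⟩ := ⟨_, rfl⟩
    have hball : (p / R - 1) * (p / R - 1) + (q / R) * (q / R) < 1 := by
      have e : (p / R - 1) * (p / R - 1) + (q / R) * (q / R) =
          1 + ((p ^ 2 + q ^ 2) - 2 * (R * p)) / R ^ 2 := by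
        field_simp; ring
      rw [e, hRp]
      have : ((p ^ 2 + q ^ 2) - 2 * (p ^ 2 + q ^ 2)) / R ^ 2 < 0 := by
        apply div_neg_of_neg_of_pos
        · nlinarith [sq_nonneg p, sq_nonneg q, pow_pos hp0 2]
        · positivity
      linarith
    have b₁ : z₁ ∈ Metric.ball (0 : ℂ) 1 := by
      rw [mem_ball_zero_iff, ← sq_lt_one_iff₀ (norm_nonneg _), Complex.sq_norm,
        Complex.normSq_apply, hz₁]
      exact hball
    have b₂ : z₂ ∈ Metric.ball (0 : ℂ) 1 := by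
      rw [mem_ball_zero_iff, ← sq_lt_one_iff₀ (norm_nonneg _), Complex.sq_norm,
        Complex.normSq_apply, hz₂]
      simpa using hball
    have a₁ : A z₁ = h (((Real.pi / c : ℝ) : ℂ) * I) := by
      apply Complex.ext
      · rw [hAre, h_re, hz₁]
        have : R * (p / R) = p := by field_simp
        simp
        linarith
      · rw [h_im, hA, hz₁]
        have : R * (q / R) = q := by field_simp
        simp
        linarith
    have a₂ : A z₂ = h (((-(Real.pi / c) : ℝ) : ℂ) * I) := by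
      apply Complex.ext
      · rw [hAre, h_re, hz₂]
        have : R * (p / R) = p := by field_simp
        simp
        linarith
      · rw [h_im, hA, hz₂]
        have : R * (q / R) = q := by field_simp
        simp
        linarith
    have w₁ := (hval _ (abs_of_pos hpc0) z₁ a₁).2.2
    have w₂ := (hval _ (by rw [abs_neg, abs_of_pos hpc0]) z₂ a₂).2.2
    have hcC : (c : ℂ) ≠ 0 := by exact_mod_cast hc0.ne'
    have f₁ : exp (c * W (A z₁)) = -1 := by
      rw [w₁]
      have : (c : ℂ) * (((Real.pi / c : ℝ) : ℂ) * I) = Real.pi * I := by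
        push_cast; field_simp
      rw [this, exp_pi_mul_I]
    have f₂ : exp (c * W (A z₂)) = -1 := by
      rw [w₂]
      have : (c : ℂ) * (((-(Real.pi / c) : ℝ) : ℂ) * I) = -(Real.pi * I) := by
        push_cast; field_simp
      rw [this, exp_neg, exp_pi_mul_I]
      norm_num
    have hFF : F z₁ = F z₂ := by
      rw [hF z₁ b₁, hF z₂ b₂]
      show exp (c * W (A z₁)) = exp (c * W (A z₂))
      rw [f₁, f₂]
    have hzz : z₁ = z₂ := F.injective hFF
    have him := congrArg Complex.im hzz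
    rw [hz₁, hz₂] at him
    simp only at him
    have : 0 < q / R := by positivity
    linarith

end Pool.Agent.S03355
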