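import Pool.Statements.S03358
import Pool.Agent.Helper749.Bi.Counter

set_option autoImplicit false
open Filter MeasureTheory
open scoped ENNReal Topology
open Pool Pool.MP_7045fd_an

namespace Pool.Agent.S03358

/-- The negation of the preceding statement: For n≥8 and a domain Ω in ℝⁿ with 0 on its boundary, if Σ 2^{k(n-4)} cap₂(C_{2^{-k}}∖Ω) diverges, then every H̊²(Ω) weak solution of Δ²u=f with smooth f compactly supported in Ω has a continuous representative tending to 0 at 0. -/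
theorem result :
    ¬ (∀ (n : ℕ), 8 ≤ n →
  ∀ (Ω : Set (EuclideanSpace ℝ (Fin n))), IsOpen Ω → IsConnected Ω →
    (0 : EuclideanSpace ℝ (Fin n)) ∈ frontier Ω →
    (∑' k : ℕ, (2 : ℝ≥0∞) ^ ((k + 1) * (n - 4)) *
        ⨅ (φ : EuclideanSpace ℝ (Fin n) → ℝ)
          (_ : ContDiff ℝ (⊤ : ℕ∞) φ ∧ HasCompactSupport φ ∧
            ∃ U : Set (EuclideanSpace ℝ (Fin n)), IsOpen U ∧
              {x : EuclideanSpace ℝ (Fin n) |
                ((1 : ℝ) / 2) ^ (k + 1) / 2 ≤ ‖x‖ ∧ ‖x‖ ≤ ((1 : ℝ) / 2) ^ (k + 1)} \ Ω ⊆ U ∧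
              ∀ x ∈ U, φ x = 1),
          ∫⁻ x, ‖∑ i : Fin n, iteratedFDeriv ℝ 2 φ x
                  ![EuclideanSpace.single i (1 : ℝ), EuclideanSpace.single i (1 : ℝ)]‖ₑ ^ 2) = ⊤ →
    ∀ f u : EuclideanSpace ℝ (Fin n) → ℝ,
      ContDiff ℝ (⊤ : ℕ∞) f → HasCompactSupport f → tsupport f ⊆ Ω →
      (∃ φ : ℕ → EuclideanSpace ℝ (Fin n) → ℝ,
          (∀ k, ContDiff ℝ (⊤ : ℕ∞) (φ k) ∧ HasCompactSupport (φ k) ∧ tsupport (φ k) ⊆ Ω) ∧
          (∀ ε : ℝ≥0∞, 0 < ε → ∃ N : ℕ, ∀ k ≥ N, ∀ m ≥ N,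
            ∫⁻ x, ‖(∑ i : Fin n, iteratedFDeriv ℝ 2 (φ k) x
                      ![EuclideanSpace.single i (1 : ℝ), EuclideanSpace.single i (1 : ℝ)])
                    - (∑ i : Fin n, iteratedFDeriv ℝ 2 (φ m) x
                      ![EuclideanSpace.single i (1 : ℝ), EuclideanSpace.single i (1 : ℝ)])‖ₑ ^ 2 < ε) ∧
          ∀ᵐ x, Tendsto (fun k => φ k x) atTop (𝓝 (u x))) →
      (∀ ψ : EuclideanSpace ℝ (Fin n) → ℝ,
          ContDiff ℝ (⊤ : ℕ∞) ψ → HasCompactSupport ψ → tsupport ψ ⊆ Ω →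
          ∫ x, u x * (∑ i : Fin n, ∑ j : Fin n, iteratedFDeriv ℝ 4 ψ x
              ![EuclideanSpace.single i (1 : ℝ), EuclideanSpace.single i (1 : ℝ),
                EuclideanSpace.single j (1 : ℝ), EuclideanSpace.single j (1 : ℝ)])
            = ∫ x, f x * ψ x) →
      ∃ v : EuclideanSpace ℝ (Fin n) → ℝ, ContinuousOn v Ω ∧
        (∀ᵐ x, x ∈ Ω → u x = v x) ∧ Tendsto v (𝓝[Ω] 0) (𝓝 0)) := by
  intro H
  have hA : Pool.Agent.Helper749.Bi.Ac 4 < 1 / 2 := by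
    unfold Pool.Agent.Helper749.Bi.Ac
    rw [integral_sin_pow_odd]
    norm_num [Finset.prod_range_succ]
  obtain ⟨κ, u, hκ, hdl, hf, ⟨φ, hφ1, hφ2, hφ3⟩, hweq, hno⟩ :=
    Pool.Agent.Helper749.Bi.counter (a := 4) (by norm_num) hA
  have hU := Pool.Agent.Helper749.Bi.U0_tst (a := 4)
  have hC : ∀ ε : ℝ≥0∞, 0 < ε → ∃ N : ℕ, ∀ k ≥ N, ∀ m ≥ N,
      ∫⁻ x, ‖Pool.Agent.Helper749.Bi.lap (φ k) x -
        Pool.Agent.Helper749.Bi.lap (φ m) x‖ₑ ^ 2 < ε := by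
    intro ε hε
    have hlim : Tendsto (fun J => ENNReal.ofReal (80 * Pool.Agent.Helper749.Bi.dl J + 80 *
        Pool.Agent.Helper749.Bi.dl J)) atTop (𝓝 0) := by
      have h1 := ((Pool.Agent.Helper749.Bi.dl_tendsto.const_mul 80).add
        (Pool.Agent.Helper749.Bi.dl_tendsto.const_mul 80))
      have h2 := ENNReal.tendsto_ofReal h1
      simpa using h2
    obtain ⟨N, hN⟩ := (hlim.eventually (Iio_mem_nhds hε)).exists_forall_of_atTop
    refine ⟨N, fun k hk m hm => lt_of_le_of_lt ?_ (hN N le_rfl)⟩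
    have Tk := (hφ1 k).1
    have Tm := (hφ1 m).1
    have TN := (hφ1 N).1
    have e1 := hφ2 N k hk
    have e2 := hφ2 N m hm
    have e3 := Pool.Agent.Helper749.Bi.En_tri Tk TN Tm
    rw [Pool.Agent.Helper749.Bi.En_sub_comm TN Tm] at e3
    have e4 : ∫⁻ x, ‖Pool.Agent.Helper749.Bi.lap (φ k) x -
        Pool.Agent.Helper749.Bi.lap (φ m) x‖ₑ ^ 2 =
        ENNReal.ofReal (Pool.Agent.Helper749.Bi.En (fun x => φ k x - φ m x)) := by
      unfold Pool.Agent.Helper749.Bi.En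
      rw [Pool.Agent.Helper749.Bi.lap_sub Tk.1 Tm.1]
      exact Pool.Agent.Helper749.Bi.lint_eq (Tk.lap.sub Tm.lap)
    refine le_trans (le_of_eq e4) (ENNReal.ofReal_le_ofReal ?_)
    linarith
  have hfin := H (2 * 4 + 4) (by norm_num)
    (Pool.Agent.Helper749.Bi.Om 4 (fun J => Pool.Agent.Helper749.Bi.dy (κ J)))
    (Pool.Agent.Helper749.Bi.Om_open hdl)
    (Pool.Agent.Helper749.Bi.Om_conn (fun i => Pool.Agent.Helper749.Bi.dy_le_half _))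
    (Pool.Agent.Helper749.Bi.Om_frontier hdl)
    (Pool.Agent.Helper749.Bi.wiener_top (by norm_num) hκ)
    (Pool.Agent.Helper749.Bi.bilap (Pool.Agent.Helper749.Bi.U0 4)) u
    hU.bilap.1 hU.bilap.2 hf
    ⟨φ, fun k => ⟨(hφ1 k).1.1, (hφ1 k).1.2, (hφ1 k).2⟩, hC, hφ3⟩
    (fun ψ h1 h2 h3 => hweq ψ ⟨h1, h2⟩ h3)
  obtain ⟨v, -, hv1, hv2⟩ := hfin
  exact hno ⟨v, hv1, hv2⟩

end Pool.Agent.S03358
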