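import Pool.Statements.S03360
import Pool.Agent.Helper107.Spike

set_option autoImplicit false
open MeasureTheory Filter Topology
open Pool Pool.MP_70f35d_an

namespace Pool.Agent.S03360

/-- The negation of the preceding statement: In dimension d≥2 there is C such that for every bounded (by M) mean-zero degree-0 homogeneous Ω and every A₂ weight w with constant A, the principal-value rough singular integral satisfies ‖T_Ω f‖_{L²(w)} ≤ C·M·A·‖f‖_{L²(w)} for smooth compactly supported f. -/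
theorem result :
    ¬ (∀ d : ℕ, 2 ≤ d → ∃ C : ℝ, 0 < C ∧
      ∀ (Ω : EuclideanSpace ℝ (Fin d) → ℝ) (M : ℝ),
        Measurable Ω →
        (∀ x, |Ω x| ≤ M) →
        (∀ x, ∀ t : ℝ, 0 < t → Ω (t • x) = Ω x) →
        (∫ y in {y : EuclideanSpace ℝ (Fin d) | 1 ≤ ‖y‖ ∧ ‖y‖ ≤ 2}, Ω y) = 0 →
        ∀ (w : EuclideanSpace ℝ (Fin d) → ℝ) (A : ℝ),
          (∀ x, 0 < w x) →
          (∀ (x : EuclideanSpace ℝ (Fin d)) (r : ℝ), 0 < r →
            IntegrableOn w (Metric.ball x r) ∧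
            IntegrableOn (fun y => (w y)⁻¹) (Metric.ball x r) ∧
            (∫ y in Metric.ball x r, w y) * (∫ y in Metric.ball x r, (w y)⁻¹)
              ≤ A * (volume (Metric.ball x r)).toReal ^ 2) →
          ∀ (f : EuclideanSpace ℝ (Fin d) → ℝ),
            ContDiff ℝ (⊤ : ℕ∞) f → HasCompactSupport f →
            ∀ (T : EuclideanSpace ℝ (Fin d) → ℝ),
              (∀ x, Tendsto
                (fun ε : ℝ => ∫ y in {y : EuclideanSpace ℝ (Fin d) | ε < ‖y‖},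
                  f (x - y) * Ω y / ‖y‖ ^ d)
                (𝓝[>] 0) (𝓝 (T x))) →
              ∫⁻ x, ENNReal.ofReal ((T x) ^ 2 * w x)
                ≤ ENNReal.ofReal ((C * M * A) ^ 2) *
                  ∫⁻ x, ENNReal.ofReal ((f x) ^ 2 * w x)) := by
  intro h
  obtain ⟨C, hC, h⟩ := h 2 le_rfl
  -- parameters
  obtain ⟨q₀, hq₀⟩ := exists_nat_gt (32 * 10 ^ 6 * C)
  set q : ℕ := max q₀ 2 with hq
  have hq2 : 2 ≤ q := le_max_right _ _
  have hqC : 32 * 10 ^ 6 * C < q := hq₀.trans_le (by exact_mod_cast le_max_left _ _)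
  have hqr : (2:ℝ) ≤ q := by exact_mod_cast hq2
  set Lq : ℕ := q ^ 4 with hLq
  have hL16 : 16 ≤ Lq := by
    calc 16 = 2 ^ 4 := by norm_num
      _ ≤ q ^ 4 := Nat.pow_le_pow_left hq2 4
  have hLr : (Lq : ℝ) = (q:ℝ) ^ 4 := by rw [hLq]; push_cast; ring
  set m : ℕ := 8 * Lq with hm
  set n : ℕ := 2 ^ (3 * Lq) with hn
  set ρ : ℝ := 1 / (2 * q) with hρdef
  have hρ : 0 < ρ := by positivity
  have hρ' : ρ ≤ 1 / 4 := one_div_le_one_div_of_le (by norm_num) (by linarith)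
  have hm1 : 1 ≤ m := by omega
  have hn1 : 1 ≤ n := Nat.one_le_two_pow
  have hmr : (m:ℝ) = 8 * (q:ℝ) ^ 4 := by rw [hm]; push_cast; rw [hLr]
  have hmρ : (m:ℝ) * ρ ^ 2 = 2 * (q:ℝ) ^ 2 := by
    rw [hmr, hρdef]; field_simp; ring
  have hsmall : 1024 * ρ * (n:ℝ) ^ 2 < 2 ^ m := by
    have h1 : (n:ℝ) ^ 2 = 2 ^ (6 * Lq) := by
      rw [hn]; push_cast; rw [← pow_mul]; congr 1; ring
    have h2 : (2:ℝ) ^ m = 2 ^ (6 * Lq) * 2 ^ (2 * Lq) := by
      rw [← pow_add]; congr 1; omega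
    have h3 : (2:ℝ) ^ 9 ≤ 2 ^ (2 * Lq) := pow_le_pow_right₀ (by norm_num) (by omega)
    rw [h1, h2]
    have h4 : (0:ℝ) < 2 ^ (6 * Lq) := by positivity
    nlinarith
  set A : ℝ := (64 * ((2 * m : ℕ) : ℝ) + 1) + (1 + 196 * ((2 * m : ℕ) : ℝ) * ρ ^ 2) ^ 2 with hA
  have hA0 : 0 ≤ A := by positivity
  have hAle : A ≤ 10 ^ 6 * (q:ℝ) ^ 4 := by
    have h1 : 196 * ((2 * m : ℕ) : ℝ) * ρ ^ 2 = 784 * (q:ℝ) ^ 2 := by
      push_cast
      rw [show 196 * (2 * (m:ℝ)) * ρ ^ 2 = 392 * (m * ρ ^ 2) by ring, hmρ]; ring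
    have h2 : ((2 * m : ℕ) : ℝ) = 16 * (q:ℝ) ^ 4 := by push_cast; rw [hmr]; ring
    rw [hA, h1, h2]
    have h4 : (4:ℝ) ≤ (q:ℝ) ^ 2 := by nlinarith
    have h5 : (q:ℝ) ^ 4 = ((q:ℝ) ^ 2) ^ 2 := by ring
    rw [h5]
    nlinarith
  have hcore := Pool.Agent.Helper107.Spike.core m n hm1 hn1 ρ hρ hρ' hsmall (C * 1 * A)
    (by positivity) (fun T hT => h (Pool.Agent.Helper107.Spike.Om (4 * n)) 1
      (Pool.Agent.Helper107.Spike.measurable_Om _) (Pool.Agent.Helper107.Spike.abs_Om_le _)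
      (fun x t ht => Pool.Agent.Helper107.Spike.Om_smul _ x t ht)
      (Pool.Agent.Helper107.Spike.Om_mean _)
      (Pool.Agent.Helper107.Spike.wt (2 * m) ρ (Pool.Agent.Helper107.Spike.XX n)
        (Pool.Agent.Helper107.Spike.ZZ n)) A
      (Pool.Agent.Helper107.Spike.wt_pos _ _ _ _)
      (fun x r hr => ⟨Pool.Agent.Helper107.Spike.wt_integrableOn _ _ _ _ x r,
        by
          simp only [Pool.Agent.Helper107.Spike.wt_inv]
          exact Pool.Agent.Helper107.Spike.wt_integrableOn _ _ _ _ x r,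
        Pool.Agent.Helper107.Spike.A2_bound (2 * m) ρ hρ hρ' _ _
          (Pool.Agent.Helper107.Spike.disj_XZ n) (Pool.Agent.Helper107.Spike.sep_XZ n) x r hr⟩)
      (Pool.Agent.Helper107.Spike.ft m ρ hρ (Pool.Agent.Helper107.Spike.ZZ n))
      (Pool.Agent.Helper107.Spike.ft_contDiff _ _ _ _)
      (Pool.Agent.Helper107.Spike.ft_compact _ _ _ _) T hT)
  have hpi : 3 < Real.pi := Real.pi_gt_three
  have hlog2 : 0.69 < Real.log 2 := by have := Real.log_two_gt_d9; linarith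
  have hlog : 2 * (q:ℝ) ^ 4 ≤ Real.log (n + 1) := by
    have h1 : Real.log (n:ℝ) = 3 * (Lq:ℝ) * Real.log 2 := by
      rw [hn]; push_cast; rw [Real.log_pow]; push_cast; ring
    have h2 : Real.log (n:ℝ) ≤ Real.log (n + 1) :=
      Real.log_le_log (by positivity) (by linarith)
    rw [hLr] at h1
    have h3 : (0:ℝ) < (q:ℝ) ^ 4 := by positivity
    nlinarith
  have hlow : 3 * (q:ℝ) ^ 6 / 32 ≤ m * (Real.pi * ρ ^ 2) / 4 * (Real.log (n + 1) / 32) := by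
    have h1 : m * (Real.pi * ρ ^ 2) / 4 = Real.pi * (q:ℝ) ^ 2 / 2 := by
      rw [show m * (Real.pi * ρ ^ 2) / 4 = Real.pi * (m * ρ ^ 2) / 4 by ring, hmρ]; ring
    rw [h1]
    have h2 : 3 * (q:ℝ) ^ 2 / 2 ≤ Real.pi * (q:ℝ) ^ 2 / 2 := by nlinarith [sq_nonneg (q:ℝ)]
    have h3 : 2 * (q:ℝ) ^ 4 / 32 ≤ Real.log (n + 1) / 32 := by linarith
    calc 3 * (q:ℝ) ^ 6 / 32 = 3 * (q:ℝ) ^ 2 / 2 * (2 * (q:ℝ) ^ 4 / 32) := by ring
      _ ≤ _ := mul_le_mul h2 h3 (by positivity) (by positivity)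
  have hfin : 3 * (q:ℝ) ^ 6 / 32 ≤ C * (10 ^ 6 * (q:ℝ) ^ 4) := by
    refine hlow.trans (hcore.trans ?_)
    rw [mul_one]
    exact mul_le_mul_of_nonneg_left hAle hC.le
  have h4 : (0:ℝ) < (q:ℝ) ^ 4 := by positivity
  have h5 : 3 * (q:ℝ) ^ 2 / 32 ≤ C * 10 ^ 6 := by
    have h6 : (3 * (q:ℝ) ^ 2 / 32) * (q:ℝ) ^ 4 ≤ (C * 10 ^ 6) * (q:ℝ) ^ 4 := by
      calc (3 * (q:ℝ) ^ 2 / 32) * (q:ℝ) ^ 4 = 3 * (q:ℝ) ^ 6 / 32 := by ring
        _ ≤ _ := hfin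
        _ = _ := by ring
    exact le_of_mul_le_mul_right h6 h4
  nlinarith

end Pool.Agent.S03360
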