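import Pool.Statements.S03364
import Pool.Agent.Helper73.Cayley

set_option autoImplicit false
open Pool Pool.MP_71344e_an
open Pool.Agent.Helper73

namespace Pool.Agent.S03364

/-- The negation of the preceding statement: On the 2j-regular tree, if a Jacobi matrix invariant under a free, cofinite group of tree automorphisms has gap-free spectrum, then b is constant and j values exist so every vertex sees each of them on exactly two incident edges. -/
theorem result :
    ¬ (∀ (j : ℕ) (G : SimpleGraph (FreeGroup (Fin j))),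
      (∀ u v, G.Adj u v ↔ ∃ i : Fin j, v = u * FreeGroup.of i ∨ u = v * FreeGroup.of i) →
      ∀ (a : FreeGroup (Fin j) → FreeGroup (Fin j) → ℝ) (b : FreeGroup (Fin j) → ℝ)
        (Γ : Subgroup (Equiv.Perm (FreeGroup (Fin j)))),
      (∀ γ ∈ Γ, ∀ u v, G.Adj u v ↔ G.Adj (γ u) (γ v)) →
      (∀ γ ∈ Γ, ∀ v, γ v = v → γ = 1) →
      (∀ γ ∈ Γ, ∀ v, G.Adj v (γ v) → γ (γ v) = v → γ = 1) →
      (∃ F : Finset (FreeGroup (Fin j)), ∀ v, ∃ γ ∈ Γ, γ v ∈ F) →
      (∀ u v, G.Adj u v → a u v = a v u ∧ 0 < a u v) →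
      (∀ γ ∈ Γ, ∀ u v, G.Adj u v → a (γ u) (γ v) = a u v) →
      (∀ γ ∈ Γ, ∀ v, b (γ v) = b v) →
      ∀ H : lp (fun _ : FreeGroup (Fin j) => ℂ) 2 →L[ℂ] lp (fun _ : FreeGroup (Fin j) => ℂ) 2,
      (∀ u, inner ℂ (lp.single 2 u (1 : ℂ)) (H (lp.single 2 u (1 : ℂ))) = (b u : ℂ)) →
      (∀ u v, u ≠ v → G.Adj u v →
          inner ℂ (lp.single 2 u (1 : ℂ)) (H (lp.single 2 v (1 : ℂ))) = (a u v : ℂ)) →
      (∀ u v, u ≠ v → ¬ G.Adj u v →
          inner ℂ (lp.single 2 u (1 : ℂ)) (H (lp.single 2 v (1 : ℂ))) = 0) →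
      Set.OrdConnected {x : ℝ | (x : ℂ) ∈ spectrum ℂ H} →
      (∃ c : ℝ, ∀ v, b v = c) ∧
      ∃ α : Fin j → ℝ, ∀ v : FreeGroup (Fin j),
        (Finset.univ.val.map (fun i : Fin j => a v (v * FreeGroup.of i))) +
          (Finset.univ.val.map (fun i : Fin j => a v (v * (FreeGroup.of i)⁻¹))) =
        (Finset.univ.val.map α) + (Finset.univ.val.map α)) := by
  intro hall
  obtain ⟨H, hH⟩ := exists_IsH (Equiv.refl F) (1 / 4)
  have hHs : ∀ u v : F, H (lp.single 2 v (1 : ℂ)) u
      = (∑ y : L, if u * gen y = v then (1 : ℂ) else 0)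
        + (pot (1 / 4) 1 u : ℂ) * (if u = v then 1 else 0) := by
    intro u v
    rw [hH]
    have : ∀ w : F, (lp.single 2 v (1 : ℂ) : E2 F) w = if w = v then (1 : ℂ) else 0 := by
      intro w
      rw [lp.single_apply]
      by_cases hw : w = v
      · subst hw; simp
      · simp [hw]
    rw [this]
    congr 1
    exact Finset.sum_congr rfl fun y _ => this _
  have hin : ∀ u v : F, inner ℂ (lp.single 2 u (1 : ℂ) : E2 F) (H (lp.single 2 v (1 : ℂ)))
      = (∑ y : L, if u * gen y = v then (1 : ℂ) else 0)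
        + (pot (1 / 4) 1 u : ℂ) * (if u = v then 1 else 0) := by
    intro u v
    rw [lp.inner_single_left, hHs]
    simp
  have hadj : ∀ u v : F, Cay.Adj u v ↔ ∃ i : Fin 2, v = u * FreeGroup.of i ∨
      u = v * FreeGroup.of i := by
    intro u v
    rw [cay_adj]
    constructor
    · rintro ⟨⟨i, b⟩, rfl⟩
      refine ⟨i, ?_⟩
      cases b
      · right; rw [gen_false, inv_mul_cancel_right]
      · left; rfl
    · rintro ⟨i, rfl | rfl⟩
      · exact ⟨(i, true), rfl⟩
      · exact ⟨(i, false), by rw [gen_false, mul_inv_cancel_right]⟩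
  have hgen2 : ∀ y : L, gen y * gen y ≠ 1 := by
    intro y h
    have h1 : (gen y * gen y).toWord = y :: (gen y).toWord :=
      toWord_of_notMem (by rw [gen_mem_St]; exact (iv_ne y).symm)
    rw [h] at h1
    simp at h1
  let Gm : Subgroup (Equiv.Perm F) :=
    { carrier := {φ | ∃ g : F, chi g = 1 ∧ φ = Equiv.mulLeft g}
      mul_mem' := by
        rintro _ _ ⟨g, hg, rfl⟩ ⟨h, hh, rfl⟩
        refine ⟨g * h, by rw [map_mul, hg, hh, mul_one], ?_⟩
        ext v
        simp [mul_assoc]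
      one_mem' := ⟨1, map_one _, by ext v; simp⟩
      inv_mem' := by
        rintro _ ⟨g, hg, rfl⟩
        refine ⟨g⁻¹, by rw [map_inv, hg, inv_one], ?_⟩
        rw [inv_eq_iff_mul_eq_one]
        ext v
        simp }
  have h := hall 2 Cay hadj (fun _ _ => 1) (pot (1 / 4) 1) Gm
    (by
      rintro _ ⟨g, _, rfl⟩ u v
      exact ((lft g).map_rel_iff).symm)
    (by
      rintro _ ⟨g, _, rfl⟩ v hv
      have : g = 1 := by simpa using hv
      subst this
      ext w
      simp)
    (by
      rintro _ ⟨g, _, rfl⟩ v ⟨y, hy⟩ h2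
      exfalso
      simp only [Equiv.coe_mulLeft] at hy h2
      rw [hy, ← mul_assoc, hy, mul_assoc] at h2
      exact hgen2 y (by simpa using h2))
    ⟨{1, gen (1, true)}, fun v => by
      rcases Int.units_eq_one_or (chi v) with hc | hc
      · exact ⟨Equiv.mulLeft v⁻¹, ⟨v⁻¹, by rw [map_inv, hc, inv_one], rfl⟩, by simp⟩
      · refine ⟨Equiv.mulLeft (gen (1, true) * v⁻¹), ⟨_, ?_, rfl⟩, by simp⟩
        rw [map_mul, map_inv, hc, chi_gen]
        simp⟩
    (fun u v _ => ⟨rfl, one_pos⟩)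
    (fun _ _ _ _ _ => rfl)
    (by
      rintro _ ⟨g, hg, rfl⟩ v
      unfold pot
      simp only [Equiv.coe_mulLeft]
      rw [map_mul, hg, one_mul])
    H
    (by
      intro u
      rw [hin]
      have : ∀ y : L, u * gen y ≠ u := fun y hy => gen_ne_one y (by simpa using hy)
      simp [this])
    (by
      rintro u v huv ⟨y, rfl⟩
      rw [hin, if_neg huv, Finset.sum_eq_single y]
      · simp
      · intro z _ hz
        rw [if_neg]
        intro hh
        exact hz (gen_inj (mul_left_cancel hh))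
      · intro hh; exact absurd (Finset.mem_univ y) hh)
    (by
      intro u v huv hn
      rw [hin, if_neg huv, Finset.sum_eq_zero]
      · simp
      · intro z _
        rw [if_neg]
        intro hh
        exact hn ⟨z, hh.symm⟩)
    (ordConnected hH (by norm_num) le_rfl)
  obtain ⟨⟨c, hc⟩, _⟩ := h
  have h1 := (hc 1).trans (hc (gen (1, true))).symm
  unfold pot at h1
  rw [map_one, chi_gen] at h1
  norm_num at h1

end Pool.Agent.S03364
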