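import Pool.Statements.S03370
import Pool.Agent.Helper66.CantC

set_option autoImplicit false
open scoped ENNReal NNReal
open Pool Pool.MP_73658e_an

namespace Pool.Agent.S03370

/-- The negation of the preceding statement: For 1<p<∞ and measurable weights U,V≥0, if the tailed condition (∫U/(∣I∣^p+∣x−x_I∣^p))(∫_I V^{-1/(p−1)})^{p−1} ≤ B holds for all intervals I, then ∫(Mf)^p U ≤ C∫∣f∣^p V for all measurable f, where M is the maximal function. -/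
theorem result :
    ¬ (∀ p : ℝ, 1 < p → ∀ U V : ℝ → ℝ≥0∞, Measurable U → Measurable V →
      ∀ B : ℝ≥0, (∀ a b : ℝ, a < b →
        (∫⁻ x, U x / ENNReal.ofReal ((b - a) ^ p + |x - (a + b) / 2| ^ p)) *
          (∫⁻ x in Set.Icc a b, V x ^ (-(1 / (p - 1)))) ^ (p - 1) ≤ (B : ℝ≥0∞)) →
      ∃ C : ℝ≥0, ∀ f : ℝ → ℝ, Measurable f →
        ∫⁻ x, (⨆ a : ℝ, ⨆ b : ℝ, ⨆ (_ : a < x ∧ x < b),
            ENNReal.ofReal (b - a)⁻¹ * ∫⁻ t in Set.Ioo a b, ‖f t‖ₑ) ^ p * U x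
          ≤ (C : ℝ≥0∞) * ∫⁻ x, ‖f x‖ₑ ^ p * V x) := by
  exact Pool.Agent.Helper66.Cant.main

end Pool.Agent.S03370
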