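import Pool.Statements.S03374
import Pool.Agent.Helper506.ArcAngle

set_option autoImplicit false
open Pool Pool.MP_74c692_an

namespace Pool.Agent.S03374

/-- The negation of the preceding statement: For every support point f of the normalized univalent class S, and any regular parametrization of the omitted arc running out to infinity, the angle arg(dw/w) along the arc is monotone and tends to 0. -/
theorem result :
    ¬ (∀ f : ℂ → ℂ, DifferentiableOn ℂ f (Metric.ball (0 : ℂ) 1) → Set.InjOn f (Metric.ball (0 : ℂ) 1) →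
    f 0 = 0 → deriv f 0 = 1 →
    (∃ L : (ℂ → ℂ) →ₗ[ℂ] ℂ, ∃ r : ℝ, ∃ C : ℝ, 0 ≤ r ∧ r < 1 ∧
      (∀ g : ℂ → ℂ, DifferentiableOn ℂ g (Metric.ball (0 : ℂ) 1) →
        ∀ M : ℝ, (∀ z : ℂ, ‖z‖ ≤ r → ‖g z‖ ≤ M) → ‖L g‖ ≤ C * M) ∧
      (∃ g h : ℂ → ℂ,
        (DifferentiableOn ℂ g (Metric.ball (0 : ℂ) 1) ∧ Set.InjOn g (Metric.ball (0 : ℂ) 1) ∧
          g 0 = 0 ∧ deriv g 0 = 1) ∧
        (DifferentiableOn ℂ h (Metric.ball (0 : ℂ) 1) ∧ Set.InjOn h (Metric.ball (0 : ℂ) 1) ∧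
          h 0 = 0 ∧ deriv h 0 = 1) ∧
        L g ≠ L h) ∧
      (∀ g : ℂ → ℂ,
        (DifferentiableOn ℂ g (Metric.ball (0 : ℂ) 1) ∧ Set.InjOn g (Metric.ball (0 : ℂ) 1) ∧
          g 0 = 0 ∧ deriv g 0 = 1) →
        (L g).re ≤ (L f).re)) →
    ∀ γ : ℝ → ℂ, ContinuousOn γ (Set.Ici 0) → Set.InjOn γ (Set.Ici 0) →
      γ '' Set.Ici 0 = (f '' Metric.ball (0 : ℂ) 1)ᶜ →
      (∀ t : ℝ, 0 < t → DifferentiableAt ℝ γ t ∧ deriv γ t ≠ 0) →
      Filter.Tendsto (fun t : ℝ => ‖γ t‖) Filter.atTop Filter.atTop →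
      (MonotoneOn (fun t : ℝ => Complex.arg (deriv γ t / γ t)) (Set.Ioi 0) ∨
        AntitoneOn (fun t : ℝ => Complex.arg (deriv γ t / γ t)) (Set.Ioi 0)) ∧
      Filter.Tendsto (fun t : ℝ => Complex.arg (deriv γ t / γ t)) Filter.atTop (nhds 0)) := by
  intro H
  obtain ⟨f, c, ε, C, X, hε, hc, hC, hCε, hfS, hsupp, himg, hXc, hXb, hXan, hXapp, hXder⟩ :=
    Pool.Agent.Helper506.Arc.exists_example
  obtain ⟨L, r, C', hr0, hr1, hcont, ⟨g, h, hg, hh, hne⟩, hmax⟩ := hsupp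
  have hγ := H f hfS.1 hfS.2.1 hfS.2.2.1 hfS.2.2.2
    ⟨L, r, C', hr0, hr1, hcont, ⟨g, h, hg, hh, hne⟩, hmax⟩
    (Pool.Agent.Helper506.Arc.gam X c)
    (fun t ht => (Pool.Agent.Helper506.Arc.gam_hasDerivAt ht hXan).continuousAt.continuousWithinAt)
    (by
      intro x hx y hy hxy
      have h1 : ‖Pool.Agent.Helper506.Arc.gam X c x‖ = ‖Pool.Agent.Helper506.Arc.gam X c y‖ := by
        rw [hxy]
      rw [Pool.Agent.Helper506.Arc.gam_norm hc hx, Pool.Agent.Helper506.Arc.gam_norm hc hy] at h1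
      have h2 : x + 1 / 4 = y + 1 / 4 := by
        field_simp at h1
        linarith
      linarith)
    (by
      rw [himg]
      ext w
      constructor
      · rintro ⟨t, ht, rfl⟩
        have ht0 : (0 : ℝ) ≤ t := ht
        exact ⟨t + 1 / 4, by simpa using ht0, rfl⟩
      · rintro ⟨r, hr, rfl⟩
        have hr0 : (1 / 4 : ℝ) ≤ r := hr
        refine ⟨r - 1 / 4, by simpa using hr0, ?_⟩
        simp only [Pool.Agent.Helper506.Arc.gam]
        congr 1
        ring)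
    (by
      intro t ht
      have hd := Pool.Agent.Helper506.Arc.gam_hasDerivAt (c := c) ht.le hXan
      refine ⟨hd.differentiableAt, ?_⟩
      rw [hd.deriv]
      refine mul_ne_zero (Pool.Agent.Helper506.Arc.gam_ne hc ht.le) (mul_ne_zero ?_ ?_)
      · have : (1 / (t + 1 / 4) : ℝ) ≠ 0 := by positivity
        exact_mod_cast this
      · intro h0
        have := congrArg Complex.re h0
        simp at this)
    (by
      have : Filter.Tendsto (fun t : ℝ => (t + 1 / 4) / c) Filter.atTop Filter.atTop :=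
        (Filter.tendsto_id.atTop_add tendsto_const_nhds).atTop_div_const hc
      refine this.congr' ?_
      filter_upwards [Filter.eventually_ge_atTop (0 : ℝ)] with t ht
      exact (Pool.Agent.Helper506.Arc.gam_norm hc ht).symm)
  have key : ∀ t : ℝ, 0 ≤ t →
      Complex.arg (deriv (Pool.Agent.Helper506.Arc.gam X c) t / Pool.Agent.Helper506.Arc.gam X c t)
      = Real.arctan (-(2 * (1 / (t + 1 / 4)) * deriv X (1 / (t + 1 / 4)))) :=
    fun t ht => Pool.Agent.Helper506.Arc.gam_arg hc ht hXan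
  have hCε2 : C * ε ^ 2 ≤ ε / 2 := by nlinarith
  have d3 := abs_le.1 (hXder 3 ⟨by norm_num, by norm_num⟩)
  have d1 := abs_le.1 (hXder 1 ⟨by norm_num, by norm_num⟩)
  have d0 := abs_le.1 (hXder (1 / 10) ⟨by norm_num, by norm_num⟩)
  have k1 := key (1 / 12) (by norm_num)
  have k2 := key (3 / 4) (by norm_num)
  have k3 := key (39 / 4) (by norm_num)
  rw [show (1 / (1 / 12 + 1 / 4) : ℝ) = 3 by norm_num] at k1
  rw [show (1 / (3 / 4 + 1 / 4) : ℝ) = 1 by norm_num] at k2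
  rw [show (1 / (39 / 4 + 1 / 4) : ℝ) = 1 / 10 by norm_num] at k3
  have e12 : Complex.arg (deriv (Pool.Agent.Helper506.Arc.gam X c) (1 / 12) /
      Pool.Agent.Helper506.Arc.gam X c (1 / 12)) <
      Complex.arg (deriv (Pool.Agent.Helper506.Arc.gam X c) (3 / 4) /
      Pool.Agent.Helper506.Arc.gam X c (3 / 4)) := by
    rw [k1, k2, Real.arctan_lt_arctan_iff]
    nlinarith [d3.1, d3.2, d1.1, d1.2]
  have e32 : Complex.arg (deriv (Pool.Agent.Helper506.Arc.gam X c) (39 / 4) /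
      Pool.Agent.Helper506.Arc.gam X c (39 / 4)) <
      Complex.arg (deriv (Pool.Agent.Helper506.Arc.gam X c) (3 / 4) /
      Pool.Agent.Helper506.Arc.gam X c (3 / 4)) := by
    rw [k3, k2, Real.arctan_lt_arctan_iff]
    nlinarith [d0.1, d0.2, d1.1, d1.2]
  rcases hγ.1 with hm | hm
  · have := hm (show (3 / 4 : ℝ) ∈ Set.Ioi 0 by norm_num [Set.mem_Ioi])
      (show (39 / 4 : ℝ) ∈ Set.Ioi 0 by norm_num [Set.mem_Ioi]) (by norm_num)
    exact absurd this (not_le.2 e32)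
  · have := hm (show (1 / 12 : ℝ) ∈ Set.Ioi 0 by norm_num [Set.mem_Ioi])
      (show (3 / 4 : ℝ) ∈ Set.Ioi 0 by norm_num [Set.mem_Ioi]) (by norm_num)
    exact absurd this (not_le.2 e12)

end Pool.Agent.S03374
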