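import Pool.Statements.S03381
import Pool.Agent.Helper694.CS.Final
-- import your own Pool.Agent.* helpers here

set_option autoImplicit false
open Pool Pool.MP_76068a_an

namespace Pool.Agent.S03381

/-- There exist two non-isomorphic torsion-free simple groups whose reduced group C*-algebras (norm closures of the algebras generated by left-regular translation operators on l^2) are isomorphic as C*-algebras. -/
theorem result :
    ∃ (Γ₁ Γ₂ : Type) (_ : Group Γ₁) (_ : Group Γ₂),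
      IsSimpleGroup Γ₁ ∧ IsSimpleGroup Γ₂ ∧
      (∀ g : Γ₁, g ≠ 1 → ¬ IsOfFinOrder g) ∧
      (∀ g : Γ₂, g ≠ 1 → ¬ IsOfFinOrder g) ∧
      IsEmpty (Γ₁ ≃* Γ₂) ∧
      Nonempty
        (↥((StarAlgebra.adjoin ℂ
              {T : lp (fun _ : Γ₁ => ℂ) 2 →L[ℂ] lp (fun _ : Γ₁ => ℂ) 2 |
                ∃ g : Γ₁, ∀ (f : lp (fun _ : Γ₁ => ℂ) 2) (h : Γ₁),
                  T f h = f (g⁻¹ * h)}).topologicalClosure)
          ≃⋆ₐ[ℂ]
         ↥((StarAlgebra.adjoin ℂ
              {T : lp (fun _ : Γ₂ => ℂ) 2 →L[ℂ] lp (fun _ : Γ₂ => ℂ) 2 |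
                ∃ g : Γ₂, ∀ (f : lp (fun _ : Γ₂ => ℂ) 2) (h : Γ₂),
                  T f h = f (g⁻¹ * h)}).topologicalClosure)) :=
  Pool.CS.final

end Pool.Agent.S03381
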