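import Pool.Statements.S03392
-- import your own Pool.Agent.* helpers here

set_option autoImplicit false
open Pool Pool.MP_7697ea_an

namespace Pool.Agent.S03392

/-- Evaluation of a list of integer coefficients (low degree first). -/
noncomputable def ev (z : ℂ) : List ℤ → ℂ
  | [] => 0
  | c :: l => (c : ℂ) + z * ev z l

/-- Sum of coefficient lists. -/
def addL : List ℤ → List ℤ → List ℤ
  | [], l => l
  | a :: l, [] => a :: l
  | a :: l, b :: m => (a + b) :: addL l m

/-- Scalar multiple of a coefficient list. -/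
def smulL (c : ℤ) : List ℤ → List ℤ
  | [] => []
  | a :: l => (c * a) :: smulL c l

/-- Product of coefficient lists. -/
def mulL : List ℤ → List ℤ → List ℤ
  | [], _ => []
  | a :: l, m => addL (smulL a m) (0 :: mulL l m)

/-- Coefficient list of the rising factorial `(z+a)_k`. -/
def pochL (a : ℤ) : ℕ → List ℤ
  | 0 => [1]
  | k + 1 => mulL (pochL a k) [a + (k : ℤ), 1]

theorem ev_addL (z : ℂ) (l m : List ℤ) : ev z (addL l m) = ev z l + ev z m := by
  induction l generalizing m with
  | nil => simp [addL, ev]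
  | cons a l ih =>
    cases m with
    | nil => simp [addL, ev]
    | cons b m =>
      simp only [addL, ev, ih]
      push_cast
      ring

theorem ev_smulL (z : ℂ) (c : ℤ) (l : List ℤ) : ev z (smulL c l) = (c : ℂ) * ev z l := by
  induction l with
  | nil => simp [smulL, ev]
  | cons a l ih =>
    simp only [smulL, ev, ih]
    push_cast
    ring

theorem ev_mulL (z : ℂ) (l m : List ℤ) : ev z (mulL l m) = ev z l * ev z m := by
  induction l with
  | nil => simp [mulL, ev]
  | cons a l ih =>
    simp only [mulL, ev, ev_addL, ev_smulL, ih]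
    push_cast
    ring

theorem ev_pochL (z : ℂ) (a : ℤ) (k : ℕ) :
    ev z (pochL a k) = (ascPochhammer ℂ k).eval (z + (a : ℂ)) := by
  induction k with
  | zero => simp [pochL, ev]
  | succ k ih =>
    rw [pochL, ev_mulL, ih, ascPochhammer_succ_eval]
    simp only [ev]
    push_cast
    ring

/-- The term of `P_11^3` for `f_k = binom(11,k)` belonging to the triple `k`. -/
def termL (k : Fin 3 → ℕ) : List ℤ :=
  smulL (((Nat.factorial 11 / (Nat.factorial (k 0) * Nat.factorial (k 1) * Nat.factorial (k 2))) *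
      (Nat.choose 11 (k 0) * Nat.choose 11 (k 1) * Nat.choose 11 (k 2)) : ℕ) : ℤ)
    (addL
      (addL
        (mulL (mulL (pochL 0 (k 0)) (pochL 0 (k 1))) (pochL 0 (k 2)))
        (addL (mulL (mulL (pochL 1 (k 0)) (pochL 1 (k 1))) (pochL (-2) (k 2)))
          (mulL (mulL (pochL 2 (k 0)) (pochL (-1) (k 1))) (pochL (-1) (k 2)))))
      (smulL (-1)
        (addL
          (mulL (mulL (pochL 0 (k 0)) (pochL 1 (k 1))) (pochL (-1) (k 2)))
          (addL (mulL (mulL (pochL 1 (k 0)) (pochL (-1) (k 1))) (pochL 0 (k 2)))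
            (mulL (mulL (pochL 2 (k 0)) (pochL 0 (k 1))) (pochL (-2) (k 2)))))))

/-- The coefficient list of `P_11^3`. -/
def totalL : List ℤ :=
  ((List.Nat.antidiagonalTuple 3 11).map termL).foldr addL []

theorem ev_foldr (z : ℂ) (L : List (List ℤ)) :
    ev z (L.foldr addL []) = (L.map (ev z)).sum := by
  induction L with
  | nil => simp [ev]
  | cons a l ih => simp [ev_addL, ih]

theorem totalL_eq : totalL =
    [553800094848000, 1396367382009600, 1375144657286400, 658799211470400, 153268257542400,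
      13860699652800, 0, 0, 0, 0, 0, 0] := by
  decide +kernel

/-- The sum in the frozen statement for `n = 11`, `r = 3`, `f_k = binom(11,k)`. -/
theorem sum_eq (z : ℂ) :
    ∑ k ∈ Finset.Nat.antidiagonalTuple 3 11,
            (Nat.multinomial Finset.univ k : ℂ) *
              (∏ i, (((fun j : ℕ => (Nat.choose 11 j : ℝ)) (k i) : ℝ) : ℂ)) *
              Matrix.det (Matrix.of (fun i j : Fin 3 =>
                (ascPochhammer ℂ (k i)).eval (z + ((j : ℕ) : ℂ) - ((i : ℕ) : ℂ)))) =
      15697281600 * ((z + 2) * (z + 3) * (883 * z ^ 3 + 5349 * z ^ 2 + 9926 * z + 5880)) := by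
  have h1 : ∀ k ∈ Finset.Nat.antidiagonalTuple 3 11,
      (Nat.multinomial Finset.univ k : ℂ) *
              (∏ i, (((fun j : ℕ => (Nat.choose 11 j : ℝ)) (k i) : ℝ) : ℂ)) *
              Matrix.det (Matrix.of (fun i j : Fin 3 =>
                (ascPochhammer ℂ (k i)).eval (z + ((j : ℕ) : ℂ) - ((i : ℕ) : ℂ)))) =
        ev z (termL k) := by
    intro k hk
    have hsum : k 0 + k 1 + k 2 = 11 := by
      have := (Finset.Nat.mem_antidiagonalTuple).1 hk
      rw [Fin.sum_univ_three] at this
      exact this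
    have hm : Nat.multinomial Finset.univ k =
        Nat.factorial 11 / (Nat.factorial (k 0) * Nat.factorial (k 1) * Nat.factorial (k 2)) := by
      rw [Nat.multinomial, Fin.sum_univ_three, Fin.prod_univ_three, hsum]
    rw [hm, Matrix.det_fin_three, termL, ev_smulL, ev_addL, ev_addL, ev_addL, ev_smulL, ev_addL,
      ev_addL]
    generalize Nat.factorial 11 /
      (Nat.factorial (k 0) * Nat.factorial (k 1) * Nat.factorial (k 2)) = N
    simp only [ev_mulL, ev_pochL, Fin.prod_univ_three, Matrix.of_apply]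
    push_cast
    have e00 : z + ((0 : Fin 3) : ℕ) - ((0 : Fin 3) : ℕ) = z + 0 := by simp
    have e01 : z + ((1 : Fin 3) : ℕ) - ((0 : Fin 3) : ℕ) = z + 1 := by simp
    have e02 : z + ((2 : Fin 3) : ℕ) - ((0 : Fin 3) : ℕ) = z + 2 := by simp
    have e10 : z + ((0 : Fin 3) : ℕ) - ((1 : Fin 3) : ℕ) = z + -1 := by simp; ring
    have e11 : z + ((1 : Fin 3) : ℕ) - ((1 : Fin 3) : ℕ) = z + 0 := by simp
    have e12 : z + ((2 : Fin 3) : ℕ) - ((1 : Fin 3) : ℕ) = z + 1 := by simp; ring
    have e20 : z + ((0 : Fin 3) : ℕ) - ((2 : Fin 3) : ℕ) = z + -2 := by simp; ring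
    have e21 : z + ((1 : Fin 3) : ℕ) - ((2 : Fin 3) : ℕ) = z + -1 := by simp; ring
    have e22 : z + ((2 : Fin 3) : ℕ) - ((2 : Fin 3) : ℕ) = z + 0 := by simp
    rw [e00, e01, e02, e10, e11, e12, e20, e21, e22]
    ring
  rw [Finset.sum_congr rfl h1]
  have h2 : ∑ k ∈ Finset.Nat.antidiagonalTuple 3 11, ev z (termL k) = ev z totalL := by
    rw [totalL, ev_foldr, List.map_map]
    rfl
  rw [h2, totalL_eq]
  simp only [ev]
  push_cast
  ring

/-- A real cubic with the coefficients below cannot have three real zeros. -/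
theorem cubic_aux (a b c : ℝ) (h1 : 883 * (a + b + c) = -5349)
    (h2 : 883 * (a * b + a * c + b * c) = 9926) (h3 : 883 * (a * b * c) = -5880) : False := by
  have hd : ((a - b) * (a - c) * (b - c)) ^ 2 =
      (a + b + c) ^ 2 * (a * b + a * c + b * c) ^ 2 - 4 * (a * b + a * c + b * c) ^ 3
        - 4 * (a + b + c) ^ 3 * (a * b * c)
        + 18 * (a + b + c) * (a * b + a * c + b * c) * (a * b * c) - 27 * (a * b * c) ^ 2 := by
    ring
  have e1 : a + b + c = -5349 / 883 := by linarith
  have e2 : a * b + a * c + b * c = 9926 / 883 := by linarith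
  have e3 : a * b * c = -5880 / 883 := by linarith
  rw [e1, e2, e3] at hd
  have := sq_nonneg ((a - b) * (a - c) * (b - c))
  rw [hd] at this
  norm_num at this

/-- The cubic factor has a zero that is not real. -/
theorem exists_nonreal : ∃ z : ℂ, z.im ≠ 0 ∧ 883 * z ^ 3 + 5349 * z ^ 2 + 9926 * z + 5880 = 0 := by
  by_contra hcon
  push Not at hcon
  have hreal : ∀ z : ℂ, 883 * z ^ 3 + 5349 * z ^ 2 + 9926 * z + 5880 = 0 → z.im = 0 := by
    intro z hz
    by_contra h
    exact hcon z h hz
  obtain ⟨p, hp⟩ : ∃ p : Polynomial ℂ, p = Polynomial.C 883 * Polynomial.X ^ 3 +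
    Polynomial.C 5349 * Polynomial.X ^ 2 + Polynomial.C 9926 * Polynomial.X +
    Polynomial.C 5880 := ⟨_, rfl⟩
  have hdeg : p.natDegree = 3 := by
    rw [hp]
    exact Polynomial.natDegree_cubic (by norm_num)
  have hlead : p.leadingCoeff = 883 := by
    rw [hp]
    exact Polynomial.leadingCoeff_cubic (by norm_num)
  have hsplit : p.Splits := IsAlgClosed.splits p
  have hcard : Multiset.card p.roots = 3 := by
    rw [← hdeg]; exact hsplit.natDegree_eq_card_roots.symm
  obtain ⟨a, b, c, habc⟩ := Multiset.card_eq_three.1 hcard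
  have hprod : p = Polynomial.C 883 * ((Polynomial.X - Polynomial.C a) *
      ((Polynomial.X - Polynomial.C b) * (Polynomial.X - Polynomial.C c))) := by
    have := hsplit.eq_prod_roots
    rw [hlead, habc] at this
    simpa using this
  have hev : ∀ z : ℂ, 883 * z ^ 3 + 5349 * z ^ 2 + 9926 * z + 5880 =
      883 * ((z - a) * ((z - b) * (z - c))) := by
    intro z
    have := congrArg (Polynomial.eval z) hprod
    rw [hp] at this
    simpa using this
  have ha : a.im = 0 := hreal a (by rw [hev]; ring)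
  have hb : b.im = 0 := hreal b (by rw [hev]; ring)
  have hc : c.im = 0 := hreal c (by rw [hev]; ring)
  have ea : a = ((a.re : ℝ) : ℂ) := Complex.ext rfl (by simpa using ha)
  have eb : b = ((b.re : ℝ) : ℂ) := Complex.ext rfl (by simpa using hb)
  have ec : c = ((c.re : ℝ) : ℂ) := Complex.ext rfl (by simpa using hc)
  have h0 := hev 0
  have h1 := hev 1
  have h2 := hev (-1)
  rw [ea, eb, ec] at h0 h1 h2
  have r0 : (5880 : ℝ) = 883 * ((0 - a.re) * ((0 - b.re) * (0 - c.re))) := by
    have : ((5880 : ℝ) : ℂ) = ((883 * ((0 - a.re) * ((0 - b.re) * (0 - c.re))) : ℝ) : ℂ) := by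
      push_cast
      rw [← h0]; ring
    exact_mod_cast this
  have r1 : (883 + 5349 + 9926 + 5880 : ℝ) =
      883 * ((1 - a.re) * ((1 - b.re) * (1 - c.re))) := by
    have : ((883 + 5349 + 9926 + 5880 : ℝ) : ℂ) =
        ((883 * ((1 - a.re) * ((1 - b.re) * (1 - c.re))) : ℝ) : ℂ) := by
      push_cast
      rw [← h1]; ring
    exact_mod_cast this
  have r2 : (-883 + 5349 - 9926 + 5880 : ℝ) =
      883 * ((-1 - a.re) * ((-1 - b.re) * (-1 - c.re))) := by
    have : ((-883 + 5349 - 9926 + 5880 : ℝ) : ℂ) =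
        ((883 * ((-1 - a.re) * ((-1 - b.re) * (-1 - c.re))) : ℝ) : ℂ) := by
      push_cast
      rw [← h2]; ring
    exact_mod_cast this
  exact cubic_aux a.re b.re c.re (by linarith) (by linarith) (by linarith)

/-- The negation of the preceding statement: For all n, real f with f n ≠ 0 whose degree-n polynomial has only real negative complex roots, and all r ≥ 2: if the Pochhammer–Toeplitz polynomial P_n^r is not identically zero, all its complex roots are real and negative. -/
theorem result :
    ¬ (∀ (n : ℕ) (f : ℕ → ℝ), f n ≠ 0 →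
      (∀ z : ℂ, ∑ k ∈ Finset.range (n + 1), (f k : ℂ) * z ^ k = 0 → z.im = 0 ∧ z.re < 0) →
      ∀ r : ℕ, 2 ≤ r →
        (∃ w : ℂ, ∑ k ∈ Finset.Nat.antidiagonalTuple r n,
            (Nat.multinomial Finset.univ k : ℂ) * (∏ i, (f (k i) : ℂ)) *
              Matrix.det (Matrix.of (fun i j : Fin r =>
                (ascPochhammer ℂ (k i)).eval (w + ((j : ℕ) : ℂ) - ((i : ℕ) : ℂ)))) ≠ 0) →
        ∀ z : ℂ, ∑ k ∈ Finset.Nat.antidiagonalTuple r n,
            (Nat.multinomial Finset.univ k : ℂ) * (∏ i, (f (k i) : ℂ)) *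
              Matrix.det (Matrix.of (fun i j : Fin r =>
                (ascPochhammer ℂ (k i)).eval (z + ((j : ℕ) : ℂ) - ((i : ℕ) : ℂ)))) = 0 →
          z.im = 0 ∧ z.re < 0) := by
  intro H
  have H1 := H 11 (fun j : ℕ => (Nat.choose 11 j : ℝ)) (by norm_num) (by
    intro z hz
    have hz' : (z + 1) ^ 11 = 0 := by
      rw [add_pow]
      rw [← hz]
      refine Finset.sum_congr rfl fun k _ => ?_
      push_cast
      ring
    have : z + 1 = 0 := by
      exact pow_eq_zero_iff (by norm_num) |>.1 hz'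
    have hz1 : z = -1 := by linear_combination this
    rw [hz1]
    norm_num) 3 (by norm_num) ⟨0, by rw [sum_eq]; norm_num⟩
  obtain ⟨z, hzim, hz⟩ := exists_nonreal
  have := H1 z (by rw [sum_eq, hz]; ring)
  exact hzim this.1

end Pool.Agent.S03392
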