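import Pool.Statements.S03393
import Pool.Agent.Helper320.CQNum
import Pool.Agent.Helper320.CQErg
import Pool.Agent.Helper320.CQCob
import Pool.Agent.Helper320.CQConj
import Pool.Agent.Helper320.CQKappa
import Pool.Agent.Helper320.CQFinal

set_option autoImplicit false
open Pool Pool.MP_76c0db_an

namespace Pool.Agent.S03393

/-- For every C^2 orientation-preserving circle diffeomorphism with irrational rotation number τ, and every ε>0, some C^2 conjugate H∘F∘H⁻¹ is within ε of the rotation x↦x+τ in C^2 norm. -/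
theorem result :
    ∀ F : CircleDeg1Lift, ContDiff ℝ 2 (F : ℝ → ℝ) →
      (∀ x : ℝ, 0 < deriv (F : ℝ → ℝ) x) →
      Irrational (CircleDeg1Lift.translationNumber F) →
      ∀ ε : ℝ, 0 < ε →
        ∃ H : CircleDeg1Lift, ∃ Hinv : ℝ → ℝ,
          ContDiff ℝ 2 (H : ℝ → ℝ) ∧
          (∀ x : ℝ, 0 < deriv (H : ℝ → ℝ) x) ∧
          Function.LeftInverse Hinv H ∧
          Function.RightInverse Hinv H ∧
          ∀ x : ℝ,
            |H (F (Hinv x)) - x - CircleDeg1Lift.translationNumber F| < ε ∧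
            |deriv (fun y : ℝ => H (F (Hinv y))) x - 1| < ε ∧
            |deriv (deriv (fun y : ℝ => H (F (Hinv y)))) x| < ε := by
  intro F hF2 hFpos hirr ε hε
  have hL : Helper320.CQ.Lift (F : ℝ → ℝ) := ⟨hF2, F.map_add_one, hFpos⟩
  have hGP := fun N => Helper320.CQ.exists_GP F hF2.continuous hirr N
  have hint : ∫ t in (0:ℝ)..1, Helper320.CQ.nl F t = 0 := by
    have h1 : ∫ t in (0:ℝ)..1, Helper320.CQ.nl F t =
        Real.log (deriv F 1) - Real.log (deriv F 0) :=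
      intervalIntegral.integral_eq_sub_of_hasDerivAt
        (fun x _ => Helper320.CQ.hasDerivAt_logderiv hL x)
        ((Helper320.CQ.nl_cont hL).intervalIntegrable _ _)
    have h2 := hL.deriv_per 0
    rw [zero_add] at h2
    rw [h1, h2, sub_self]
  have hcob : ∀ δ > (0:ℝ), ∃ v : ℝ → ℝ, Continuous v ∧ (∀ x, v (x + 1) = v x) ∧
      ∫ t in (0:ℝ)..1, |Helper320.CQ.nl F t + v (F t) * deriv F t - v t| ≤ δ := fun δ hδ =>
    Helper320.CQ.coboundary hL
      (fun A hA hA1 hAF => Helper320.CQ.erg hL hGP hA hA1 hAF)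
      (Helper320.CQ.nl_cont hL) (Helper320.CQ.nl_per hL) hint hδ
  obtain ⟨C, hC, hfin⟩ := Helper320.CQ.final_bound hL
  obtain ⟨κ, hκ, hκ1, hκ2⟩ : ∃ κ : ℝ, 0 < κ ∧ κ ≤ 1 ∧ C * κ ≤ min 1 (ε / 20) := by
    have hm : 0 < min 1 (ε / 20) := lt_min one_pos (by positivity)
    refine ⟨min 1 (min 1 (ε / 20) / C), lt_min one_pos (by positivity), min_le_left _ _, ?_⟩
    calc C * min 1 (min 1 (ε / 20) / C) ≤ C * (min 1 (ε / 20) / C) :=
          mul_le_mul_of_nonneg_left (min_le_right _ _) hC.le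
      _ = _ := by field_simp
  obtain ⟨N1, hN1⟩ := Helper320.CQ.kappa hL
    (fun ε hε => Helper320.CQ.small hL hε) hcob hκ
  obtain ⟨N2, hN2⟩ := hfin κ hκ hκ1
  obtain ⟨q, q', p, p', hq, hgp⟩ := hGP (max N1 N2)
  obtain ⟨H, hH, hb⟩ := hN2 q q' p p' ((le_max_right _ _).trans hq) hgp
    (hN1 q q' p p' ((le_max_left _ _).trans hq) hgp)
  obtain ⟨H', Hinv, h1, h2, h3, h4, h5⟩ := Helper320.CQ.conj_close F hL H hH
    (mul_pos hC hκ) (hκ2.trans (min_le_left _ _)) hb
  have h6 : 10 * (C * κ) < ε := by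
    have := hκ2.trans (min_le_right _ _)
    linarith
  exact ⟨H', Hinv, h1, h2, h3, h4, fun x =>
    ⟨(h5 x).1.trans_lt h6, (h5 x).2.1.trans_lt h6, (h5 x).2.2.trans_lt h6⟩⟩

end Pool.Agent.S03393
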