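import Pool.Statements.S03403

set_option autoImplicit false
open Filter Topology

namespace Pool.Agent.Helper830.GS

/-! ### Gateaux differentiability of convex Lipschitz functions -/

section Gateaux

variable {X : Type} [NormedAddCommGroup X] [NormedSpace ℝ X]

/-- second difference -/
noncomputable def S (H : X → ℝ) (x z : X) (s : ℝ) : ℝ := H (x + s • z) + H (x - s • z) - 2 * H x

/-- good directions -/
def Good (H : X → ℝ) (x z : X) : Prop := Tendsto (fun s : ℝ => S H x z s / s) (𝓝[>] 0) (𝓝 0)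

variable {H : X → ℝ} (hconv : ConvexOn ℝ Set.univ H) (hlip : ∀ x y, |H x - H y| ≤ ‖x - y‖)

include hconv in
lemma S_nonneg (x z : X) (s : ℝ) : 0 ≤ S H x z s := by
  have h := hconv.2 (Set.mem_univ (x + s • z)) (Set.mem_univ (x - s • z))
    (by norm_num : (0:ℝ) ≤ 1/2) (by norm_num : (0:ℝ) ≤ 1/2) (by norm_num)
  have e : (1/2 : ℝ) • (x + s • z) + (1/2 : ℝ) • (x - s • z) = x := by
    module
  rw [e] at h
  simp only [smul_eq_mul] at h
  unfold S; linarith

include hconv in
lemma S_add (x z w : X) (s : ℝ) : S H x (z + w) s ≤ (S H x z (2 * s) + S H x w (2 * s)) / 2 := by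
  have h1 := hconv.2 (Set.mem_univ (x + (2 * s) • z)) (Set.mem_univ (x + (2 * s) • w))
    (by norm_num : (0:ℝ) ≤ 1/2) (by norm_num : (0:ℝ) ≤ 1/2) (by norm_num)
  have h2 := hconv.2 (Set.mem_univ (x - (2 * s) • z)) (Set.mem_univ (x - (2 * s) • w))
    (by norm_num : (0:ℝ) ≤ 1/2) (by norm_num : (0:ℝ) ≤ 1/2) (by norm_num)
  have e1 : (1/2 : ℝ) • (x + (2 * s) • z) + (1/2 : ℝ) • (x + (2 * s) • w) = x + s • (z + w) := by
    module
  have e2 : (1/2 : ℝ) • (x - (2 * s) • z) + (1/2 : ℝ) • (x - (2 * s) • w) = x - s • (z + w) := by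
    module
  rw [e1] at h1
  rw [e2] at h2
  simp only [smul_eq_mul] at h1 h2
  unfold S
  linarith

include hconv in
lemma Good.add {x z w : X} (hz : Good H x z) (hw : Good H x w) : Good H x (z + w) := by
  unfold Good at *
  have hmul : Tendsto (fun s : ℝ => 2 * s) (𝓝[>] 0) (𝓝[>] 0) := by
    apply tendsto_nhdsWithin_of_tendsto_nhds_of_eventually_within
    · have : Tendsto (fun s : ℝ => 2 * s) (𝓝 0) (𝓝 (2 * 0)) := by
        exact (continuous_const.mul continuous_id).tendsto 0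
      rw [mul_zero] at this
      exact this.mono_left nhdsWithin_le_nhds
    · filter_upwards [self_mem_nhdsWithin] with s hs
      have : (0:ℝ) < s := hs
      show (0:ℝ) < 2 * s
      linarith
  have h1 := (hz.comp hmul).add (hw.comp hmul)
  rw [add_zero] at h1
  refine tendsto_of_tendsto_of_tendsto_of_le_of_le' tendsto_const_nhds h1 ?_ ?_
  · filter_upwards [self_mem_nhdsWithin] with s hs
    exact div_nonneg (S_nonneg hconv _ _ _) (le_of_lt hs)
  · filter_upwards [self_mem_nhdsWithin] with s hs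
    have hs' : (0:ℝ) < s := hs
    have := S_add hconv x z w s
    simp only [Function.comp]
    rw [← add_div, div_le_div_iff₀ hs' (by linarith)]
    nlinarith

lemma Good.smul {x z : X} (hz : Good H x z) (c : ℝ) : Good H x (c • z) := by
  unfold Good at *
  rcases eq_or_ne c 0 with rfl | hc
  · have : ∀ s : ℝ, S H x ((0:ℝ) • z) s / s = 0 := by
      intro s
      unfold S
      simp
      left; ring
    simp only [this]
    exact tendsto_const_nhds
  have hmul : Tendsto (fun s : ℝ => |c| * s) (𝓝[>] 0) (𝓝[>] 0) := by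
    apply tendsto_nhdsWithin_of_tendsto_nhds_of_eventually_within
    · have : Tendsto (fun s : ℝ => |c| * s) (𝓝 0) (𝓝 (|c| * 0)) := by
        exact (continuous_const.mul continuous_id).tendsto 0
      rw [mul_zero] at this
      exact this.mono_left nhdsWithin_le_nhds
    · filter_upwards [self_mem_nhdsWithin] with s hs
      have : (0:ℝ) < s := hs
      show (0:ℝ) < |c| * s
      positivity
  have h1 := (hz.comp hmul).const_mul |c|
  rw [mul_zero] at h1
  refine h1.congr' ?_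
  filter_upwards [self_mem_nhdsWithin] with s hs
  have hs' : (0:ℝ) < s := hs
  simp only [Function.comp]
  have hS : S H x z (|c| * s) = S H x (c • z) s := by
    unfold S
    rcases abs_choice c with h | h
    · rw [h, smul_smul, mul_comm c s]
    · rw [h]
      have e1 : x + (-c * s) • z = x - s • c • z := by module
      have e2 : x - (-c * s) • z = x + s • c • z := by module
      rw [e1, e2]; ring
  rw [hS]
  have : |c| ≠ 0 := by positivity
  field_simp

include hconv hlip in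
lemma Good.closure {x : X} {D : Set X} (hD : ∀ z ∈ D, Good H x z) {z : X}
    (hz : z ∈ closure D) : Good H x z := by
  unfold Good
  rw [Metric.tendsto_nhds]
  intro ε hε
  obtain ⟨w, hw, hzw⟩ := Metric.mem_closure_iff.mp hz (ε / 4) (by positivity)
  have h1 := (Metric.tendsto_nhds.mp (hD w hw)) (ε / 2) (by positivity)
  filter_upwards [h1, self_mem_nhdsWithin] with s hs1 hs2
  have hs' : (0:ℝ) < s := hs2
  rw [Real.dist_eq, sub_zero] at *
  rw [abs_of_nonneg (div_nonneg (S_nonneg hconv _ _ _) hs'.le)] at *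
  rw [div_lt_iff₀ hs'] at *
  have h3 : ‖s • z - s • w‖ < s * (ε / 4) := by
    rw [← smul_sub, norm_smul, Real.norm_eq_abs, abs_of_pos hs', ← dist_eq_norm]
    exact mul_lt_mul_of_pos_left hzw hs'
  have h4 := hlip (x + s • z) (x + s • w)
  have h5 := hlip (x - s • z) (x - s • w)
  have e1 : x + s • z - (x + s • w) = s • z - s • w := by abel
  have e2 : x - s • z - (x - s • w) = -(s • z - s • w) := by abel
  rw [e1] at h4
  rw [e2, norm_neg] at h5
  rw [abs_le] at h4 h5
  unfold S at *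
  linarith [h4.1, h4.2, h5.1, h5.2]

/-- difference quotient -/
noncomputable def Q (H : X → ℝ) (x z : X) (s : ℝ) : ℝ := (H (x + s • z) - H x) / s

include hconv in
lemma Q_mono (x z : X) : MonotoneOn (Q H x z) (Set.Ioi 0) := by
  intro s hs t ht hst
  have hs' : (0:ℝ) < s := hs
  have ht' : (0:ℝ) < t := ht
  have h := hconv.2 (Set.mem_univ (x + t • z)) (Set.mem_univ x)
    (by positivity : (0:ℝ) ≤ s / t) (by rw [sub_nonneg]; exact (div_le_one ht').mpr hst : (0:ℝ) ≤ 1 - s / t)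
    (by ring)
  have e : (s / t) • (x + t • z) + (1 - s / t) • x = x + s • z := by
    have : (s / t) * t = s := by field_simp
    calc (s / t) • (x + t • z) + (1 - s / t) • x = x + ((s / t) * t) • z := by module
      _ = _ := by rw [this]
  rw [e] at h
  simp only [smul_eq_mul] at h
  unfold Q
  rw [div_le_div_iff₀ hs' ht']
  have h2 : s / t * H (x + t • z) * t = s * H (x + t • z) := by field_simp
  have h3 : H (x + s • z) * t ≤ (s / t * H (x + t • z) + (1 - s / t) * H x) * t :=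
    mul_le_mul_of_nonneg_right h ht'.le
  have h4 : (s / t * H (x + t • z) + (1 - s / t) * H x) * t = s * H (x + t • z) + (t - s) * H x := by
    field_simp
  rw [h4] at h3
  nlinarith

include hlip in
lemma Q_abs_le (x z : X) {s : ℝ} (hs : 0 < s) : |Q H x z s| ≤ ‖z‖ := by
  unfold Q
  rw [abs_div, abs_of_pos hs, div_le_iff₀ hs]
  have := hlip (x + s • z) x
  have e : x + s • z - x = s • z := by abel
  rw [e, norm_smul, Real.norm_eq_abs, abs_of_pos hs] at this
  linarith

/-- one sided derivative -/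
noncomputable def D (H : X → ℝ) (x z : X) : ℝ := sInf (Q H x z '' Set.Ioi 0)

include hconv hlip in
lemma tendsto_Q (x z : X) : Tendsto (Q H x z) (𝓝[>] 0) (𝓝 (D H x z)) := by
  apply (Q_mono hconv x z).tendsto_nhdsGT
  refine ⟨-‖z‖, ?_⟩
  rintro _ ⟨s, hs, rfl⟩
  exact (abs_le.mp (Q_abs_le hlip x z hs)).1

include hconv hlip in
lemma D_add_neg {x z : X} (hz : Good H x z) : D H x z + D H x (-z) = 0 := by
  have h1 := (tendsto_Q hconv hlip x z).add (tendsto_Q hconv hlip x (-z))
  have h2 : Tendsto (fun s : ℝ => Q H x z s + Q H x (-z) s) (𝓝[>] 0) (𝓝 0) := by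
    refine Tendsto.congr (fun s => ?_) hz
    unfold Q S
    rw [← add_div, smul_neg, ← sub_eq_add_neg]
    ring_nf
  exact tendsto_nhds_unique h1 h2

include hconv hlip in
lemma D_add_le (x z w : X) : D H x (z + w) ≤ D H x z + D H x w := by
  have hmul : Tendsto (fun s : ℝ => 2 * s) (𝓝[>] 0) (𝓝[>] 0) := by
    apply tendsto_nhdsWithin_of_tendsto_nhds_of_eventually_within
    · have : Tendsto (fun s : ℝ => 2 * s) (𝓝 0) (𝓝 (2 * 0)) := by
        exact (continuous_const.mul continuous_id).tendsto 0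
      rw [mul_zero] at this
      exact this.mono_left nhdsWithin_le_nhds
    · filter_upwards [self_mem_nhdsWithin] with s hs
      have : (0:ℝ) < s := hs
      show (0:ℝ) < 2 * s
      linarith
  have h1 := ((tendsto_Q hconv hlip x z).comp hmul).add ((tendsto_Q hconv hlip x w).comp hmul)
  refine le_of_tendsto_of_tendsto (tendsto_Q hconv hlip x (z + w)) h1 ?_
  filter_upwards [self_mem_nhdsWithin] with s hs
  have hs' : (0:ℝ) < s := hs
  have h := hconv.2 (Set.mem_univ (x + (2 * s) • z)) (Set.mem_univ (x + (2 * s) • w))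
    (by norm_num : (0:ℝ) ≤ 1/2) (by norm_num : (0:ℝ) ≤ 1/2) (by norm_num)
  have e1 : (1/2 : ℝ) • (x + (2 * s) • z) + (1/2 : ℝ) • (x + (2 * s) • w) = x + s • (z + w) := by
    module
  rw [e1] at h
  simp only [smul_eq_mul] at h
  simp only [Function.comp, Q]
  rw [← add_div, div_le_div_iff₀ hs' (by linarith)]
  nlinarith

lemma D_smul_pos (x z : X) {c : ℝ} (hc : 0 < c) (hconv : ConvexOn ℝ Set.univ H)
    (hlip : ∀ x y, |H x - H y| ≤ ‖x - y‖) : D H x (c • z) = c * D H x z := by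
  have hmul : Tendsto (fun s : ℝ => c * s) (𝓝[>] 0) (𝓝[>] 0) := by
    apply tendsto_nhdsWithin_of_tendsto_nhds_of_eventually_within
    · have : Tendsto (fun s : ℝ => c * s) (𝓝 0) (𝓝 (c * 0)) := by
        exact (continuous_const.mul continuous_id).tendsto 0
      rw [mul_zero] at this
      exact this.mono_left nhdsWithin_le_nhds
    · filter_upwards [self_mem_nhdsWithin] with s hs
      have : (0:ℝ) < s := hs
      show (0:ℝ) < c * s
      positivity
  have h1 := ((tendsto_Q hconv hlip x z).comp hmul).const_mul c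
  refine tendsto_nhds_unique (tendsto_Q hconv hlip x (c • z)) (h1.congr' ?_)
  filter_upwards [self_mem_nhdsWithin] with s hs
  have hs' : (0:ℝ) < s := hs
  simp only [Function.comp, Q]
  rw [smul_smul, mul_comm s c]
  field_simp

lemma D_abs_le (x z : X) (hconv : ConvexOn ℝ Set.univ H)
    (hlip : ∀ x y, |H x - H y| ≤ ‖x - y‖) : |D H x z| ≤ 1 * ‖z‖ := by
  rw [one_mul]
  refine le_of_tendsto (tendsto_Q hconv hlip x z).abs ?_
  filter_upwards [self_mem_nhdsWithin] with s hs
  exact Q_abs_le hlip x z hs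

lemma D_zero (x : X) : D H x 0 = 0 := by
  unfold D Q
  have : (fun s : ℝ => (H (x + s • (0:X)) - H x) / s) = fun _ => 0 := by
    funext s; simp
  rw [this]
  have : (fun _ : ℝ => (0:ℝ)) '' Set.Ioi 0 = {0} := by
    ext y; constructor
    · rintro ⟨_, _, rfl⟩; rfl
    · rintro rfl; exact ⟨1, by norm_num, rfl⟩
  rw [this, csInf_singleton]

theorem gateaux (hconv : ConvexOn ℝ Set.univ H) (hlip : ∀ x y, |H x - H y| ≤ ‖x - y‖) (x : X)
    (hgood : ∀ z, Good H x z) :
    ∃ g : X →L[ℝ] ℝ, ∀ z : X, HasDerivAt (fun t : ℝ => H (x + t • z)) (g z) 0 := by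
  have hneg : ∀ z, D H x (-z) = - D H x z := fun z => by
    have := D_add_neg hconv hlip (hgood z); linarith
  have hadd : ∀ z w, D H x (z + w) = D H x z + D H x w := by
    intro z w
    apply le_antisymm (D_add_le hconv hlip x z w)
    have := D_add_le hconv hlip x (-z) (-w)
    rw [← neg_add, hneg, hneg, hneg] at this
    linarith
  have hsmul : ∀ (c : ℝ) z, D H x (c • z) = c * D H x z := by
    intro c z
    rcases lt_trichotomy c 0 with hc | hc | hc
    · have h1 := D_smul_pos (H := H) x z (neg_pos.mpr hc) hconv hlip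
      rw [neg_smul, hneg] at h1
      linarith
    · rw [hc, zero_smul, zero_mul, D_zero]
    · exact D_smul_pos x z hc hconv hlip
  let gl : X →ₗ[ℝ] ℝ := { toFun := D H x, map_add' := hadd, map_smul' := hsmul }
  refine ⟨gl.mkContinuous 1 (fun z => by
    rw [Real.norm_eq_abs]; exact D_abs_le x z hconv hlip), fun z => ?_⟩
  show HasDerivAt (fun t : ℝ => H (x + t • z)) (D H x z) 0
  rw [hasDerivAt_iff_tendsto_slope]
  rw [← nhdsLT_sup_nhdsGT, tendsto_sup]
  constructor
  · -- left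
    have h1 := (tendsto_Q hconv hlip x (-z))
    have hn : Tendsto (fun s : ℝ => -s) (𝓝[<] 0) (𝓝[>] 0) := by
      have := tendsto_neg_nhdsLT (a := (0:ℝ))
      rwa [neg_zero] at this
    have h2 := (h1.comp hn).neg
    rw [hneg, neg_neg] at h2
    refine h2.congr ?_
    intro s
    simp only [Function.comp, Q, slope_def_field]
    simp only [zero_smul, add_zero, sub_zero, smul_neg, neg_smul, neg_neg]
    rw [div_neg, neg_neg]
  · refine (tendsto_Q hconv hlip x z).congr ?_
    intro s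
    simp only [Q, slope_def_field]
    simp only [zero_smul, add_zero, sub_zero]

end Gateaux

/-! ### Unconditional basis facts -/

section Basis

variable {X : Type} [NormedAddCommGroup X] [NormedSpace ℝ X]
variable {Γ : Type} (e : Γ → X) (f : Γ → X →L[ℝ] ℝ)

lemma bounded_partial [CompleteSpace X] (hsum : ∀ x : X, HasSum (fun γ : Γ => f γ x • e γ) x) :
    ∃ C : ℝ, 0 < C ∧ ∀ (F : Finset Γ) (x : X), ‖∑ γ ∈ F, f γ x • e γ‖ ≤ C * ‖x‖ := by
  classical
  let P : Finset Γ → X →L[ℝ] X := fun F => ∑ γ ∈ F, (f γ).smulRight (e γ)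
  have hP : ∀ F x, P F x = ∑ γ ∈ F, f γ x • e γ := by
    intro F x
    simp only [P, _root_.sum_apply, ContinuousLinearMap.smulRight_apply]
  obtain ⟨C, hC⟩ : ∃ C, ∀ F, ‖P F‖ ≤ C := by
    apply banach_steinhaus
    intro x
    have hs := (hsum x).summable
    rw [summable_iff_vanishing_norm] at hs
    obtain ⟨s, hs⟩ := hs 1 one_pos
    refine ⟨∑ γ ∈ s, ‖f γ x • e γ‖ + 1, fun F => ?_⟩
    rw [hP, ← Finset.sum_inter_add_sum_sdiff F s]
    refine (norm_add_le _ _).trans (add_le_add ?_ ?_)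
    · refine (norm_sum_le _ _).trans ?_
      apply Finset.sum_le_sum_of_subset_of_nonneg Finset.inter_subset_right
      intro _ _ _; exact norm_nonneg _
    · exact (hs _ Finset.sdiff_disjoint).le
  refine ⟨max C 1, lt_of_lt_of_le one_pos (le_max_right _ _), fun F x => ?_⟩
  rw [← hP]
  refine ((P F).le_opNorm x).trans ?_
  exact mul_le_mul_of_nonneg_right ((hC F).trans (le_max_left _ _)) (norm_nonneg _)

variable {e f}

lemma abs_sum_le {C : ℝ} (hC : ∀ (F : Finset Γ) (x : X), ‖∑ γ ∈ F, f γ x • e γ‖ ≤ C * ‖x‖)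
    (g : X →L[ℝ] ℝ) (hg : ‖g‖ ≤ 1) (F : Finset Γ) (x : X) :
    ∑ γ ∈ F, |g (e γ)| * |f γ x| ≤ 2 * C * ‖x‖ := by
  classical
  have key : ∀ G : Finset Γ, |∑ γ ∈ G, g (f γ x • e γ)| ≤ C * ‖x‖ := by
    intro G
    rw [← map_sum]
    calc |g (∑ γ ∈ G, f γ x • e γ)| ≤ ‖g‖ * ‖∑ γ ∈ G, f γ x • e γ‖ := g.le_opNorm _
      _ ≤ 1 * ‖∑ γ ∈ G, f γ x • e γ‖ := mul_le_mul_of_nonneg_right hg (norm_nonneg _)
      _ ≤ C * ‖x‖ := by rw [one_mul]; exact hC G x
  have h1 : ∑ γ ∈ F, |g (e γ)| * |f γ x| = ∑ γ ∈ F, |g (f γ x • e γ)| := by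
    apply Finset.sum_congr rfl
    intro γ _
    rw [map_smul, smul_eq_mul, abs_mul, mul_comm]
  rw [h1, ← Finset.sum_filter_add_sum_filter_not F (fun γ => 0 ≤ g (f γ x • e γ))]
  have h2 : ∑ γ ∈ F.filter (fun γ => 0 ≤ g (f γ x • e γ)), |g (f γ x • e γ)| ≤ C * ‖x‖ := by
    have : ∑ γ ∈ F.filter (fun γ => 0 ≤ g (f γ x • e γ)), |g (f γ x • e γ)| =
        ∑ γ ∈ F.filter (fun γ => 0 ≤ g (f γ x • e γ)), g (f γ x • e γ) := by
      apply Finset.sum_congr rfl
      intro γ hγ
      exact abs_of_nonneg (Finset.mem_filter.mp hγ).2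
    rw [this]
    exact (le_abs_self _).trans (key _)
  have h3 : ∑ γ ∈ F.filter (fun γ => ¬ 0 ≤ g (f γ x • e γ)), |g (f γ x • e γ)| ≤ C * ‖x‖ := by
    have : ∑ γ ∈ F.filter (fun γ => ¬ 0 ≤ g (f γ x • e γ)), |g (f γ x • e γ)| =
        - ∑ γ ∈ F.filter (fun γ => ¬ 0 ≤ g (f γ x • e γ)), g (f γ x • e γ) := by
      rw [← Finset.sum_neg_distrib]
      apply Finset.sum_congr rfl
      intro γ hγ
      exact abs_of_neg (not_le.mp (Finset.mem_filter.mp hγ).2)
    rw [this]
    exact (neg_le_abs _).trans (key _)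
  linarith

end Basis

/-! ### The functions -/

section Functions

variable {X : Type} [NormedAddCommGroup X] [NormedSpace ℝ X]
variable {Γ : Type} (u : Γ → X →L[ℝ] ℝ) (b : Γ → X) (ι : Γ → ℝ)
variable {n : ℕ} (r : Fin n → ℚ) (V : Fin n → Set ℝ) (σ : ℝ)

/-- admissible tuples -/
def Comp : Set (Fin n → Γ) :=
  {s | (∀ j, ι (s j) ∈ V j) ∧ (∀ j, 0 ≤ r j) ∧ ∀ z, ∑ j, (r j : ℝ) * |u (s j) z| ≤ ‖z‖}

noncomputable def val (s : Fin n → Γ) (x : X) : ℝ := ∑ j, (r j : ℝ) * max (σ * u (s j) x) 0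

variable {u ι r V σ}

lemma val_nonneg {s : Fin n → Γ} (hs : s ∈ Comp u ι r V) (x : X) : 0 ≤ val u r σ s x := by
  apply Finset.sum_nonneg
  intro j _
  have : (0:ℝ) ≤ r j := by exact_mod_cast hs.2.1 j
  positivity

lemma val_lip (hσ : |σ| = 1) {s : Fin n → Γ} (hs : s ∈ Comp u ι r V) (x y : X) :
    val u r σ s x ≤ val u r σ s y + ‖x - y‖ := by
  refine le_trans ?_ (add_le_add_right (hs.2.2 (x - y)) _)
  unfold val
  rw [← Finset.sum_add_distrib]
  apply Finset.sum_le_sum
  intro j _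
  have hr : (0:ℝ) ≤ r j := by exact_mod_cast hs.2.1 j
  rw [← mul_add]
  apply mul_le_mul_of_nonneg_left _ hr
  have h1 : σ * u (s j) x = σ * u (s j) y + σ * u (s j) (x - y) := by
    rw [map_sub]; ring
  have h2 : σ * u (s j) (x - y) ≤ |u (s j) (x - y)| := by
    refine (le_abs_self _).trans ?_
    rw [abs_mul, hσ, one_mul]
  apply max_le
  · rw [h1]
    exact add_le_add (le_max_left _ _) h2
  · have := le_max_right (σ * u (s j) y) 0
    have := abs_nonneg (u (s j) (x - y))
    linarith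

lemma val_le (hσ : |σ| = 1) {s : Fin n → Γ} (hs : s ∈ Comp u ι r V) (x : X) :
    val u r σ s x ≤ ‖x‖ := by
  have h := val_lip hσ hs x 0
  have h0 : val u r σ s 0 = 0 := by
    unfold val; simp
  rw [h0, sub_zero, zero_add] at h
  exact h

lemma val_convex {s : Fin n → Γ} (hs : s ∈ Comp u ι r V) (x y : X) {α β : ℝ} (hα : 0 ≤ α)
    (hβ : 0 ≤ β) : val u r σ s (α • x + β • y) ≤ α * val u r σ s x + β * val u r σ s y := by
  unfold val
  rw [Finset.mul_sum, Finset.mul_sum, ← Finset.sum_add_distrib]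
  apply Finset.sum_le_sum
  intro j _
  have hr : (0:ℝ) ≤ r j := by exact_mod_cast hs.2.1 j
  have h : max (σ * u (s j) (α • x + β • y)) 0 ≤
      α * max (σ * u (s j) x) 0 + β * max (σ * u (s j) y) 0 := by
    apply max_le
    · rw [map_add, map_smul, map_smul, smul_eq_mul, smul_eq_mul]
      have h1 := mul_le_mul_of_nonneg_left (le_max_left (σ * u (s j) x) 0) hα
      have h2 := mul_le_mul_of_nonneg_left (le_max_left (σ * u (s j) y) 0) hβ
      linarith
    · positivity
  calc (r j : ℝ) * max (σ * u (s j) (α • x + β • y)) 0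
      ≤ (r j : ℝ) * (α * max (σ * u (s j) x) 0 + β * max (σ * u (s j) y) 0) :=
        mul_le_mul_of_nonneg_left h hr
    _ = _ := by ring

variable (u ι r V σ)

noncomputable def ff (x : X) : ℝ := ⨆ s : Comp u ι r V, val u r σ s.1 x

variable {u ι r V σ}

lemma ff_nonneg (x : X) : 0 ≤ ff u ι r V σ x :=
  Real.iSup_nonneg (fun s => val_nonneg s.2 x)

lemma le_ff (hσ : |σ| = 1) {s : Fin n → Γ} (hs : s ∈ Comp u ι r V) (x : X) :
    val u r σ s x ≤ ff u ι r V σ x := by
  have hb : BddAbove (Set.range (fun s : Comp u ι r V => val u r σ s.1 x)) :=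
    ⟨‖x‖, by rintro _ ⟨s, rfl⟩; exact val_le hσ s.2 x⟩
  exact le_ciSup hb ⟨s, hs⟩

lemma ff_le {x : X} {C : ℝ} (hC : 0 ≤ C) (h : ∀ s ∈ Comp u ι r V, val u r σ s x ≤ C) :
    ff u ι r V σ x ≤ C :=
  Real.iSup_le (fun s => h s.1 s.2) hC

lemma ff_lip (hσ : |σ| = 1) (x y : X) : ff u ι r V σ x ≤ ff u ι r V σ y + ‖x - y‖ := by
  apply ff_le
  · have := ff_nonneg (u := u) (ι := ι) (r := r) (V := V) (σ := σ) y
    positivity
  · intro s hs
    exact (val_lip hσ hs x y).trans (by have := le_ff hσ hs y; linarith)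

lemma ff_convex (hσ : |σ| = 1) (x y : X) {α β : ℝ} (hα : 0 ≤ α) (hβ : 0 ≤ β) :
    ff u ι r V σ (α • x + β • y) ≤ α * ff u ι r V σ x + β * ff u ι r V σ y := by
  apply ff_le
  · have := ff_nonneg (u := u) (ι := ι) (r := r) (V := V) (σ := σ) x
    have := ff_nonneg (u := u) (ι := ι) (r := r) (V := V) (σ := σ) y
    positivity
  · intro s hs
    refine (val_convex hs x y hα hβ).trans ?_
    exact add_le_add (mul_le_mul_of_nonneg_left (le_ff hσ hs x) hα)
      (mul_le_mul_of_nonneg_left (le_ff hσ hs y) hβ)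

/-- cost -/
noncomputable def q (v : Γ →₀ ℝ) : ℝ := v.sum (fun _ a => a ^ 2)

lemma q_eq (v : Γ →₀ ℝ) {F : Finset Γ} (hF : v.support ⊆ F) : q v = ∑ γ ∈ F, (v γ) ^ 2 := by
  unfold q
  exact Finsupp.sum_of_support_subset v hF _ (fun _ _ => by norm_num)

lemma q_nonneg (v : Γ →₀ ℝ) : 0 ≤ q v := Finset.sum_nonneg (fun _ _ => sq_nonneg _)

lemma q_zero : q (0 : Γ →₀ ℝ) = 0 := by simp [q]

lemma sq_le_q (v : Γ →₀ ℝ) (γ : Γ) : (v γ) ^ 2 ≤ q v := by
  classical
  rw [q_eq v (Finset.subset_insert γ v.support)]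
  exact Finset.single_le_sum (f := fun γ => (v γ) ^ 2) (fun _ _ => sq_nonneg _)
    (Finset.mem_insert_self _ _)

lemma q_convex (v w : Γ →₀ ℝ) {α β : ℝ} (hα : 0 ≤ α) (hβ : 0 ≤ β) (hab : α + β = 1) :
    q (α • v + β • w) ≤ α * q v + β * q w := by
  classical
  have h1 : (α • v + β • w).support ⊆ v.support ∪ w.support := by
    refine Finsupp.support_add.trans (Finset.union_subset_union Finsupp.support_smul Finsupp.support_smul)
  rw [q_eq _ h1, q_eq v Finset.subset_union_left, q_eq w Finset.subset_union_right,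
    Finset.mul_sum, Finset.mul_sum, ← Finset.sum_add_distrib]
  apply Finset.sum_le_sum
  intro γ _
  simp only [Finsupp.add_apply, Finsupp.smul_apply, smul_eq_mul]
  have : β = 1 - α := by linarith
  subst this
  nlinarith [mul_nonneg (mul_nonneg hα hβ) (sq_nonneg (v γ - w γ))]

lemma q_second (v : Γ →₀ ℝ) (γ : Γ) (s : ℝ) :
    q (v + Finsupp.single γ s) + q (v - Finsupp.single γ s) = 2 * q v + 2 * s ^ 2 := by
  classical
  set F := insert γ v.support with hF
  have h0 : (Finsupp.single γ s).support ⊆ F := by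
    refine Finsupp.support_single_subset.trans ?_
    intro x hx
    rw [Finset.mem_singleton] at hx
    rw [hx, hF]; exact Finset.mem_insert_self _ _
  have h1 : (v + Finsupp.single γ s).support ⊆ F :=
    Finsupp.support_add.trans (Finset.union_subset (Finset.subset_insert _ _) h0)
  have h2 : (v - Finsupp.single γ s).support ⊆ F :=
    Finsupp.support_sub.trans (Finset.union_subset (Finset.subset_insert _ _) h0)
  have h3 : q (Finsupp.single γ s) = s ^ 2 := by
    unfold q; rw [Finsupp.sum_single_index]; norm_num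
  rw [← h3, q_eq _ h1, q_eq _ h2, q_eq v (Finset.subset_insert _ _), q_eq _ h0,
    ← Finset.sum_add_distrib, Finset.mul_sum, Finset.mul_sum, ← Finset.sum_add_distrib]
  apply Finset.sum_congr rfl
  intro η _
  simp only [Finsupp.add_apply, Finsupp.sub_apply]
  ring

variable (u ι r V σ)

noncomputable def hh (l : ℕ) (x : X) : ℝ :=
  ⨅ v : Γ →₀ ℝ, (ff u ι r V σ (x - Finsupp.linearCombination ℝ b v) + ((l : ℝ) + 1) * q v)

variable {u b ι r V σ}

lemma hh_le (l : ℕ) (x : X) (v : Γ →₀ ℝ) :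
    hh u b ι r V σ l x ≤ ff u ι r V σ (x - Finsupp.linearCombination ℝ b v) + ((l : ℝ) + 1) * q v := by
  apply ciInf_le
  refine ⟨0, ?_⟩
  rintro _ ⟨v, rfl⟩
  have h1 := ff_nonneg (u := u) (ι := ι) (r := r) (V := V) (σ := σ) (x - Finsupp.linearCombination ℝ b v)
  have h2 := q_nonneg v
  positivity

lemma le_hh (l : ℕ) {x : X} {C : ℝ} (h : ∀ v : Γ →₀ ℝ,
    C ≤ ff u ι r V σ (x - Finsupp.linearCombination ℝ b v) + ((l : ℝ) + 1) * q v) :
    C ≤ hh u b ι r V σ l x := le_ciInf h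

lemma hh_le_ff (l : ℕ) (x : X) : hh u b ι r V σ l x ≤ ff u ι r V σ x := by
  have := hh_le (u := u) (b := b) (ι := ι) (r := r) (V := V) (σ := σ) l x 0
  simpa [q_zero] using this

lemma hh_lip' (hσ : |σ| = 1) (l : ℕ) (x y : X) :
    hh u b ι r V σ l x ≤ hh u b ι r V σ l y + ‖x - y‖ := by
  rw [← sub_le_iff_le_add]
  apply le_hh
  intro v
  have h1 := hh_le (u := u) (b := b) (ι := ι) (r := r) (V := V) (σ := σ) l x v
  have h2 := ff_lip (u := u) (ι := ι) (r := r) (V := V) hσ (x - Finsupp.linearCombination ℝ b v)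
    (y - Finsupp.linearCombination ℝ b v)
  rw [sub_sub_sub_cancel_right] at h2
  linarith

lemma hh_lip (hσ : |σ| = 1) (l : ℕ) (x y : X) :
    |hh u b ι r V σ l x - hh u b ι r V σ l y| ≤ ‖x - y‖ := by
  have h1 := hh_lip' (u := u) (b := b) (ι := ι) (r := r) (V := V) hσ l x y
  have h2 := hh_lip' (u := u) (b := b) (ι := ι) (r := r) (V := V) hσ l y x
  rw [norm_sub_rev] at h2
  rw [abs_le]
  constructor <;> linarith

lemma hh_convex (hσ : |σ| = 1) (l : ℕ) : ConvexOn ℝ Set.univ (hh u b ι r V σ l) := by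
  refine ⟨convex_univ, ?_⟩
  intro x _ y _ α β hα hβ hab
  simp only [smul_eq_mul]
  rcases hα.eq_or_lt with hα0 | hα0
  · subst hα0
    have : β = 1 := by linarith
    subst this
    simp
  rcases hβ.eq_or_lt with hβ0 | hβ0
  · subst hβ0
    have : α = 1 := by linarith
    subst this
    simp
  -- infimum over two vectors
  have key : ∀ v w : Γ →₀ ℝ, hh u b ι r V σ l (α • x + β • y) ≤
      α * (ff u ι r V σ (x - Finsupp.linearCombination ℝ b v) + ((l : ℝ) + 1) * q v) +
      β * (ff u ι r V σ (y - Finsupp.linearCombination ℝ b w) + ((l : ℝ) + 1) * q w) := by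
    intro v w
    have h1 := hh_le (u := u) (b := b) (ι := ι) (r := r) (V := V) (σ := σ) l (α • x + β • y)
      (α • v + β • w)
    have h2 : α • x + β • y - Finsupp.linearCombination ℝ b (α • v + β • w) =
        α • (x - Finsupp.linearCombination ℝ b v) + β • (y - Finsupp.linearCombination ℝ b w) := by
      rw [map_add, map_smul, map_smul]; module
    rw [h2] at h1
    have h3 := ff_convex (u := u) (ι := ι) (r := r) (V := V) hσ (x - Finsupp.linearCombination ℝ b v)
      (y - Finsupp.linearCombination ℝ b w) hα hβ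
    have h4 := q_convex v w hα hβ hab
    have h5 : ((l : ℝ) + 1) * q (α • v + β • w) ≤ ((l : ℝ) + 1) * (α * q v + β * q w) :=
      mul_le_mul_of_nonneg_left h4 (by positivity)
    linarith
  have h1 : (hh u b ι r V σ l (α • x + β • y) - β * hh u b ι r V σ l y) / α ≤ hh u b ι r V σ l x := by
    apply le_hh
    intro v
    rw [div_le_iff₀ hα0, sub_le_iff_le_add, ← sub_le_iff_le_add', ← div_le_iff₀' hβ0]
    apply le_hh
    intro w
    rw [div_le_iff₀' hβ0, sub_le_iff_le_add']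
    have := key v w
    linarith
  rw [div_le_iff₀ hα0] at h1
  linarith

lemma hh_second (l : ℕ) (x : X) (γ : Γ) (s : ℝ) :
    S (hh u b ι r V σ l) x (b γ) s ≤ 2 * ((l : ℝ) + 1) * s ^ 2 := by
  unfold S
  have key : (hh u b ι r V σ l (x + s • b γ) + hh u b ι r V σ l (x - s • b γ)
      - 2 * ((l : ℝ) + 1) * s ^ 2) / 2 ≤ hh u b ι r V σ l x := by
    apply le_hh
    intro v
    have h1 := hh_le (u := u) (b := b) (ι := ι) (r := r) (V := V) (σ := σ) l (x + s • b γ)
      (v + Finsupp.single γ s)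
    have h2 := hh_le (u := u) (b := b) (ι := ι) (r := r) (V := V) (σ := σ) l (x - s • b γ)
      (v - Finsupp.single γ s)
    rw [map_add, Finsupp.linearCombination_single, add_sub_add_right_eq_sub] at h1
    rw [map_sub, Finsupp.linearCombination_single, sub_sub_sub_cancel_right] at h2
    have h3 := q_second v γ s
    have h4 : ((l : ℝ) + 1) * q (v + Finsupp.single γ s) + ((l : ℝ) + 1) * q (v - Finsupp.single γ s)
        = ((l : ℝ) + 1) * (2 * q v + 2 * s ^ 2) := by rw [← mul_add, h3]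
    linarith
  linarith

lemma ff_le_hh (hσ : |σ| = 1) (hub : ∀ γ, u γ (b γ) = 1) (hub' : ∀ γ η, γ ≠ η → u γ (b η) = 0)
    (l : ℕ) (x : X) :
    ff u ι r V σ x ≤ hh u b ι r V σ l x + (∑ j, |(r j : ℝ)|) ^ 2 / (4 * ((l : ℝ) + 1)) := by
  rw [← sub_le_iff_le_add]
  apply le_hh
  intro v
  set M := ∑ j, |(r j : ℝ)| with hM
  have hM0 : 0 ≤ M := Finset.sum_nonneg (fun _ _ => abs_nonneg _)
  have huT : ∀ γ, u γ (Finsupp.linearCombination ℝ b v) = v γ := by
    intro γ
    classical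
    rw [Finsupp.linearCombination_apply, Finsupp.sum, map_sum]
    by_cases hγ : γ ∈ v.support
    · rw [Finset.sum_eq_single γ]
      · rw [map_smul, hub, smul_eq_mul, mul_one]
      · intro η _ hη
        rw [map_smul, hub' γ η (Ne.symm hη), smul_zero]
      · intro h; exact absurd hγ h
    · rw [Finset.sum_eq_zero]
      · exact (Finsupp.notMem_support_iff.mp hγ).symm
      · intro η hη
        have : γ ≠ η := by rintro rfl; exact hγ hη
        rw [map_smul, hub' γ η this, smul_zero]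
  set t := Real.sqrt (q v) with ht
  have ht2 : t ^ 2 = q v := Real.sq_sqrt (q_nonneg v)
  have ht0 : 0 ≤ t := Real.sqrt_nonneg _
  have hvt : ∀ γ, |v γ| ≤ t := fun γ => Real.abs_le_sqrt (sq_le_q v γ)
  have h1 : ff u ι r V σ x ≤ ff u ι r V σ (x - Finsupp.linearCombination ℝ b v) + M * t := by
    apply ff_le
    · have := ff_nonneg (u := u) (ι := ι) (r := r) (V := V) (σ := σ)
        (x - Finsupp.linearCombination ℝ b v)
      positivity
    · intro s hs
      have h2 : val u r σ s x ≤ val u r σ s (x - Finsupp.linearCombination ℝ b v) + M * t := by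
        unfold val
        rw [hM, Finset.sum_mul, ← Finset.sum_add_distrib]
        apply Finset.sum_le_sum
        intro j _
        have hr : (0:ℝ) ≤ r j := by exact_mod_cast hs.2.1 j
        rw [abs_of_nonneg hr, ← mul_add]
        apply mul_le_mul_of_nonneg_left _ hr
        rw [map_sub, huT]
        have h3 : σ * v (s j) ≤ t := by
          refine (le_abs_self _).trans ?_
          rw [abs_mul, hσ, one_mul]; exact hvt _
        apply max_le
        · have := le_max_left (σ * (u (s j) x - v (s j))) 0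
          linarith
        · have := le_max_right (σ * (u (s j) x - v (s j))) 0
          linarith
      exact h2.trans (by have := le_ff hσ hs (x - Finsupp.linearCombination ℝ b v); linarith)
  have h2 : M * t - ((l : ℝ) + 1) * q v ≤ M ^ 2 / (4 * ((l : ℝ) + 1)) := by
    have hl : (0:ℝ) < (l : ℝ) + 1 := by positivity
    rw [le_div_iff₀ (by positivity), ← ht2]
    nlinarith [sq_nonneg (M - 2 * ((l : ℝ) + 1) * t)]
  linarith

lemma hh_gateaux (hσ : |σ| = 1) (hd : Dense (Submodule.span ℝ (Set.range b) : Set X))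
    (l : ℕ) (x : X) :
    ∃ g : X →L[ℝ] ℝ, ∀ z : X, HasDerivAt (fun t : ℝ => hh u b ι r V σ l (x + t • z)) (g z) 0 := by
  have hconv := hh_convex (u := u) (b := b) (ι := ι) (r := r) (V := V) hσ l
  have hlip := hh_lip (u := u) (b := b) (ι := ι) (r := r) (V := V) hσ l
  apply gateaux hconv hlip x
  have h1 : ∀ γ, Good (hh u b ι r V σ l) x (b γ) := by
    intro γ
    unfold Good
    have hlim : Tendsto (fun s : ℝ => 2 * ((l : ℝ) + 1) * s) (𝓝[>] 0) (𝓝 0) := by
      have : Tendsto (fun s : ℝ => 2 * ((l : ℝ) + 1) * s) (𝓝 0) (𝓝 (2 * ((l : ℝ) + 1) * 0)) :=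
        (continuous_const.mul continuous_id).tendsto 0
      rw [mul_zero] at this
      exact this.mono_left nhdsWithin_le_nhds
    refine tendsto_of_tendsto_of_tendsto_of_le_of_le' tendsto_const_nhds hlim ?_ ?_
    · filter_upwards [self_mem_nhdsWithin] with s hs
      exact div_nonneg (S_nonneg hconv _ _ _) (le_of_lt hs)
    · filter_upwards [self_mem_nhdsWithin] with s hs
      have hs' : (0:ℝ) < s := hs
      rw [div_le_iff₀ hs']
      have := hh_second (u := u) (b := b) (ι := ι) (r := r) (V := V) (σ := σ) l x γ s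
      nlinarith
  have h2 : ∀ z ∈ (Submodule.span ℝ (Set.range b) : Set X), Good (hh u b ι r V σ l) x z := by
    intro z hz
    induction hz using Submodule.span_induction with
    | mem z hz => obtain ⟨γ, rfl⟩ := hz; exact h1 γ
    | zero =>
      have := (Good.smul (z := (0:X)) (x := x) (H := hh u b ι r V σ l) (c := 0) ?_)
      · simpa using this
      · unfold Good
        have : ∀ s : ℝ, S (hh u b ι r V σ l) x (0:X) s / s = 0 := by
          intro s; unfold S; simp; left; ring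
        simp only [this]
        exact tendsto_const_nhds
    | add z w _ _ hz hw => exact Good.add hconv hz hw
    | smul c z _ hz => exact Good.smul hz c
  intro z
  exact Good.closure hconv hlip h2 (hd z)

end Functions

/-! ### Separation -/

section Separation

open scoped ENNReal

variable {X : Type} [NormedAddCommGroup X] [NormedSpace ℝ X]
variable {Γ : Type} {u : Γ → X →L[ℝ] ℝ} {b : Γ → X} {ι : Γ → ℝ}

lemma exists_rat_below {a η : ℝ} (ha : 0 ≤ a) (hη : 0 < η) :
    ∃ q : ℚ, 0 ≤ q ∧ (q : ℝ) ≤ a ∧ a - η ≤ q := by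
  rcases ha.eq_or_lt with h | h
  · exact ⟨0, le_refl _, by rw [← h]; norm_num, by rw [← h]; push_cast; linarith⟩
  · obtain ⟨q, hq1, hq2⟩ := exists_rat_btwn (show max (a - η) 0 < a from max_lt (by linarith) h)
    refine ⟨q, ?_, hq2.le, (le_max_left _ _).trans hq1.le⟩
    have : (0:ℝ) < q := lt_of_le_of_lt (le_max_right _ _) hq1
    exact_mod_cast this.le

lemma separate (hι : Function.Injective ι) (hub : ∀ γ, u γ (b γ) = 1)
    (hub' : ∀ γ η, γ ≠ η → u γ (b η) = 0)
    (hc0 : ∀ x τ, 0 < τ → {γ | τ ≤ |u γ x|}.Finite) {σ : ℝ} (hσ : |σ| = 1)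
    (x y : X) (F : Finset Γ) (a : Γ → ℝ) (ha : ∀ γ, 0 ≤ a γ)
    (haF : ∀ z, ∑ γ ∈ F, a γ * |u γ z| ≤ ‖z‖) {δ : ℝ} (hδ : 0 < δ)
    (h : δ ≤ ∑ γ ∈ F, a γ * max (max (σ * u γ x) 0 - max (σ * u γ y) 0) 0) :
    ∃ (n : ℕ) (r : Fin n → ℚ) (V : Fin n → ↥(TopologicalSpace.countableBasis ℝ)) (l : ℕ),
      δ / 4 ≤ hh u b ι r (fun j => (V j).1) σ l x - hh u b ι r (fun j => (V j).1) σ l y := by
  classical
  set F' := F.filter (fun γ => max (σ * u γ y) 0 < max (σ * u γ x) 0) with hF'
  have h1 : ∑ γ ∈ F, a γ * max (max (σ * u γ x) 0 - max (σ * u γ y) 0) 0 =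
      ∑ γ ∈ F', a γ * (max (σ * u γ x) 0 - max (σ * u γ y) 0) := by
    rw [hF', Finset.sum_filter]
    apply Finset.sum_congr rfl
    intro γ _
    by_cases hγ : max (σ * u γ y) 0 < max (σ * u γ x) 0
    · rw [if_pos hγ, max_eq_left (by linarith)]
    · rw [if_neg hγ, max_eq_right (by linarith), mul_zero]
  rw [h1] at h
  set n := F'.card with hn
  set s : Fin n → Γ := fun j => (F'.equivFin.symm j).1 with hs
  have hsum : ∀ g : Γ → ℝ, ∑ j, g (s j) = ∑ γ ∈ F', g γ := by
    intro g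
    rw [hs]
    rw [Equiv.sum_comp F'.equivFin.symm (fun γ : F' => g γ.1)]
    exact Finset.sum_coe_sort F' g
  set w : Fin n → ℝ := fun j => max (σ * u (s j) x) 0 - max (σ * u (s j) y) 0 with hw
  have hw0 : ∀ j, 0 ≤ w j := by
    intro j
    have hj : s j ∈ F' := (F'.equivFin.symm j).2
    rw [hF', Finset.mem_filter] at hj
    rw [hw]; simp only; linarith [hj.2]
  have h2 : δ ≤ ∑ j, a (s j) * w j := by
    rw [hw, hsum (fun γ => a γ * (max (σ * u γ x) 0 - max (σ * u γ y) 0))]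
    exact h
  set W := ∑ j, w j with hW
  have hW0 : 0 ≤ W := Finset.sum_nonneg (fun j _ => hw0 j)
  set η := δ / (2 * (W + 1)) with hη
  have hη0 : 0 < η := by positivity
  have hr := fun j => exists_rat_below (ha (s j)) hη0
  choose r hr0 hr1 hr2 using hr
  have h3 : δ / 2 ≤ ∑ j, (r j : ℝ) * w j := by
    have h4 : ∑ j, (a (s j) - η) * w j ≤ ∑ j, (r j : ℝ) * w j :=
      Finset.sum_le_sum (fun j _ => mul_le_mul_of_nonneg_right (hr2 j) (hw0 j))
    have h5 : ∑ j, (a (s j) - η) * w j = ∑ j, a (s j) * w j - η * W := by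
      rw [hW, Finset.mul_sum, ← Finset.sum_sub_distrib]
      apply Finset.sum_congr rfl
      intro j _; ring
    have h6 : η * W ≤ δ / 2 := by
      rw [hη, div_mul_eq_mul_div, div_le_div_iff₀ (by positivity) (by norm_num)]
      nlinarith
    linarith
  set M := ∑ j, |(r j : ℝ)| with hM
  have hM0 : 0 ≤ M := Finset.sum_nonneg (fun _ _ => abs_nonneg _)
  set τ := δ / (8 * (M + 1)) with hτ
  have hτ0 : 0 < τ := by positivity
  have hMτ : M * τ ≤ δ / 8 := by
    rw [hτ, mul_div_assoc', div_le_div_iff₀ (by positivity) (by norm_num)]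
    nlinarith
  have hVex : ∀ j : Fin n, ∃ V : ↥(TopologicalSpace.countableBasis ℝ), ι (s j) ∈ V.1 ∧
      ∀ γ, ι γ ∈ V.1 → max (σ * u γ y) 0 ≤ max (σ * u (s j) y) 0 + τ := by
    intro j
    have hfin : (ι '' ({γ | τ ≤ |u γ y|} \ {s j})).Finite := ((hc0 y τ hτ0).subset Set.sdiff_subset).image _
    have hopen : IsOpen (ι '' ({γ | τ ≤ |u γ y|} \ {s j}))ᶜ := hfin.isClosed.isOpen_compl
    have hmem : ι (s j) ∈ (ι '' ({γ | τ ≤ |u γ y|} \ {s j}))ᶜ := by
      rintro ⟨γ, ⟨_, hγ2⟩, hγ3⟩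
      exact hγ2 (hι hγ3)
    obtain ⟨V, hV1, hV2, hV3⟩ :=
      (TopologicalSpace.isBasis_countableBasis ℝ).exists_subset_of_mem_open hmem hopen
    refine ⟨⟨V, hV1⟩, hV2, ?_⟩
    intro γ hγ
    by_cases hγs : γ = s j
    · rw [hγs]; linarith
    · have hlt : |u γ y| < τ := by
        by_contra hcon
        push Not at hcon
        exact hV3 hγ ⟨γ, ⟨hcon, hγs⟩, rfl⟩
      have h7 : σ * u γ y ≤ τ := by
        refine (le_abs_self _).trans ?_
        rw [abs_mul, hσ, one_mul]; exact hlt.le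
      have h8 := le_max_right (σ * u (s j) y) 0
      apply max_le <;> linarith
  choose V hV1 hV2 using hVex
  have hcomp : s ∈ Comp u ι r (fun j => (V j).1) := by
    refine ⟨hV1, hr0, fun z => ?_⟩
    calc ∑ j, (r j : ℝ) * |u (s j) z| ≤ ∑ j, a (s j) * |u (s j) z| :=
          Finset.sum_le_sum (fun j _ => mul_le_mul_of_nonneg_right (hr1 j) (abs_nonneg _))
      _ = ∑ γ ∈ F', a γ * |u γ z| := hsum (fun γ => a γ * |u γ z|)
      _ ≤ ∑ γ ∈ F, a γ * |u γ z| := by
          apply Finset.sum_le_sum_of_subset_of_nonneg (Finset.filter_subset _ _)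
          intro γ _ _
          exact mul_nonneg (ha γ) (abs_nonneg _)
      _ ≤ ‖z‖ := haF z
  obtain ⟨l, hl⟩ := exists_nat_ge (2 * M ^ 2 / δ)
  have hl2 : M ^ 2 / (4 * ((l : ℝ) + 1)) ≤ δ / 8 := by
    rw [div_le_div_iff₀ (by positivity) (by norm_num)]
    rw [div_le_iff₀ hδ] at hl
    nlinarith
  refine ⟨n, r, V, l, ?_⟩
  have k1 := ff_le_hh (u := u) (b := b) (ι := ι) (r := r) (V := fun j => (V j).1) hσ hub hub' l x
  have k2 := hh_le_ff (u := u) (b := b) (ι := ι) (r := r) (V := fun j => (V j).1) (σ := σ) l y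
  have k3 := le_ff (σ := σ) hσ hcomp x
  have k4 : ff u ι r (fun j => (V j).1) σ y ≤ val u r σ s y + M * τ := by
    apply ff_le
    · have := val_nonneg (σ := σ) hcomp y
      positivity
    · intro s' hs'
      unfold val
      rw [hM, Finset.sum_mul, ← Finset.sum_add_distrib]
      apply Finset.sum_le_sum
      intro j _
      have hr' : (0:ℝ) ≤ r j := by exact_mod_cast hr0 j
      rw [abs_of_nonneg hr', ← mul_add]
      exact mul_le_mul_of_nonneg_left (hV2 j (s' j) (hs'.1 j)) hr'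
  have k5 : val u r σ s x - val u r σ s y = ∑ j, (r j : ℝ) * w j := by
    unfold val
    rw [← Finset.sum_sub_distrib]
    apply Finset.sum_congr rfl
    intro j _
    rw [hw]; ring
  linarith

abbrev Idx : Type :=
  Σ n : ℕ, (Fin n → ℚ) × (Fin n → ↥(TopologicalSpace.countableBasis ℝ)) × ℕ × Bool

def sg (t : Bool) : ℝ := if t then 1 else -1

lemma sg_abs (t : Bool) : |sg t| = 1 := by
  unfold sg; cases t <;> simp

instance : Countable ↥(TopologicalSpace.countableBasis ℝ) :=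
  (TopologicalSpace.countable_countableBasis ℝ).to_subtype

instance : Countable Idx := inferInstance

instance : Nonempty Idx := ⟨⟨0, Fin.elim0, Fin.elim0, 0, true⟩⟩

noncomputable def HH (u : Γ → X →L[ℝ] ℝ) (b : Γ → X) (ι : Γ → ℝ) (i : Idx) (x : X) : ℝ :=
  hh u b ι i.2.1 (fun j => (i.2.2.1 j).1) (sg i.2.2.2.2) i.2.2.2.1 x

lemma HH_lip (i : Idx) (x y : X) : |HH u b ι i x - HH u b ι i y| ≤ ‖x - y‖ :=
  hh_lip (sg_abs _) _ x y

lemma sep_all (hι : Function.Injective ι) (hub : ∀ γ, u γ (b γ) = 1)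
    (hub' : ∀ γ η, γ ≠ η → u γ (b η) = 0)
    (hc0 : ∀ x τ, 0 < τ → {γ | τ ≤ |u γ x|}.Finite) {c : ℝ} (hc : 0 < c)
    (x y : X) (hxy : x ≠ y) (F : Finset Γ) (a : Γ → ℝ) (ha : ∀ γ, 0 ≤ a γ)
    (haF : ∀ z, ∑ γ ∈ F, a γ * |u γ z| ≤ ‖z‖)
    (h : c * ‖x - y‖ ≤ ∑ γ ∈ F, a γ * |u γ (x - y)|) :
    ∃ i : Idx, c / 16 * ‖x - y‖ ≤ |HH u b ι i x - HH u b ι i y| := by
  have hd : 0 < ‖x - y‖ := norm_pos_iff.mpr (sub_ne_zero.mpr hxy)
  set p : ℝ → X → Γ → ℝ := fun σ x γ => max (σ * u γ x) 0 with hp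
  have h1 : ∀ γ, |u γ (x - y)| ≤ max (p 1 x γ - p 1 y γ) 0 + max (p 1 y γ - p 1 x γ) 0 +
      max (p (-1) x γ - p (-1) y γ) 0 + max (p (-1) y γ - p (-1) x γ) 0 := by
    intro γ
    simp only [hp]
    rw [map_sub]
    have e1 : u γ x = max (1 * u γ x) 0 - max (-1 * u γ x) 0 := by
      rcases le_total 0 (u γ x) with hx | hx
      · rw [max_eq_left (by linarith), max_eq_right (by linarith)]; ring
      · rw [max_eq_right (by linarith), max_eq_left (by linarith)]; ring
    have e2 : u γ y = max (1 * u γ y) 0 - max (-1 * u γ y) 0 := by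
      rcases le_total 0 (u γ y) with hx | hx
      · rw [max_eq_left (by linarith), max_eq_right (by linarith)]; ring
      · rw [max_eq_right (by linarith), max_eq_left (by linarith)]; ring
    set A := max (1 * u γ x) 0
    set B := max (-1 * u γ x) 0
    set A' := max (1 * u γ y) 0
    set B' := max (-1 * u γ y) 0
    rw [e1, e2]
    have i1 := le_max_left (A - A') 0
    have i2 := le_max_left (A' - A) 0
    have i3 := le_max_left (B - B') 0
    have i4 := le_max_left (B' - B) 0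
    have j1 := le_max_right (A - A') 0
    have j2 := le_max_right (A' - A) 0
    have j3 := le_max_right (B - B') 0
    have j4 := le_max_right (B' - B) 0
    rw [abs_le]
    constructor <;> linarith
  have h2 : ∑ γ ∈ F, a γ * |u γ (x - y)| ≤
      ∑ γ ∈ F, a γ * max (p 1 x γ - p 1 y γ) 0 + ∑ γ ∈ F, a γ * max (p 1 y γ - p 1 x γ) 0 +
      ∑ γ ∈ F, a γ * max (p (-1) x γ - p (-1) y γ) 0 +
      ∑ γ ∈ F, a γ * max (p (-1) y γ - p (-1) x γ) 0 := by
    rw [← Finset.sum_add_distrib, ← Finset.sum_add_distrib, ← Finset.sum_add_distrib]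
    apply Finset.sum_le_sum
    intro γ _
    rw [← mul_add, ← mul_add, ← mul_add]
    exact mul_le_mul_of_nonneg_left (h1 γ) (ha γ)
  have hδ : 0 < c * ‖x - y‖ / 4 := by positivity
  have hcases : c * ‖x - y‖ / 4 ≤ ∑ γ ∈ F, a γ * max (p 1 x γ - p 1 y γ) 0 ∨
      c * ‖x - y‖ / 4 ≤ ∑ γ ∈ F, a γ * max (p 1 y γ - p 1 x γ) 0 ∨
      c * ‖x - y‖ / 4 ≤ ∑ γ ∈ F, a γ * max (p (-1) x γ - p (-1) y γ) 0 ∨
      c * ‖x - y‖ / 4 ≤ ∑ γ ∈ F, a γ * max (p (-1) y γ - p (-1) x γ) 0 := by
    by_contra hcon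
    push Not at hcon
    linarith [hcon.1, hcon.2.1, hcon.2.2.1, hcon.2.2.2]
  have fin : ∀ (σ : ℝ) (t : Bool), sg t = σ → |σ| = 1 → ∀ x' y' : X,
      c * ‖x - y‖ / 4 ≤ ∑ γ ∈ F, a γ * max (p σ x' γ - p σ y' γ) 0 →
      ∃ i : Idx, c / 16 * ‖x - y‖ ≤ HH u b ι i x' - HH u b ι i y' := by
    intro σ t ht hσ x' y' hxy'
    obtain ⟨n, r, V, l, hl⟩ := separate (b := b) hι hub hub' hc0 hσ x' y' F a ha haF hδ hxy'
    refine ⟨⟨n, r, V, l, t⟩, ?_⟩
    unfold HH
    simp only
    rw [ht]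
    refine le_trans (le_of_eq ?_) hl
    ring
  rcases hcases with h3 | h3 | h3 | h3
  · obtain ⟨i, hi⟩ := fin 1 true (by simp [sg]) (by simp) x y h3
    exact ⟨i, hi.trans (le_abs_self _)⟩
  · obtain ⟨i, hi⟩ := fin 1 true (by simp [sg]) (by simp) y x h3
    refine ⟨i, hi.trans ?_⟩
    rw [abs_sub_comm]; exact le_abs_self _
  · obtain ⟨i, hi⟩ := fin (-1) false (by simp [sg]) (by simp) x y h3
    exact ⟨i, hi.trans (le_abs_self _)⟩
  · obtain ⟨i, hi⟩ := fin (-1) false (by simp [sg]) (by simp) y x h3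
    refine ⟨i, hi.trans ?_⟩
    rw [abs_sub_comm]; exact le_abs_self _

end Separation

section Main

open scoped ENNReal

variable {X : Type} [NormedAddCommGroup X] [NormedSpace ℝ X]

theorem main [CompleteSpace X] (Dn : Set X) (hDd : Dense Dn) (hDc : Cardinal.mk ↥Dn = Cardinal.continuum)
    {Γ : Type} (e : Γ → X) (f : Γ → X →L[ℝ] ℝ)
    (hfe : ∀ i : Γ, f i (e i) = 1) (hfe' : ∀ i j : Γ, i ≠ j → f i (e j) = 0)
    (hsum : ∀ x : X, HasSum (fun γ : Γ => f γ x • e γ) x) :
    ∃ (φ : X → lp (fun _ : ℕ => ℝ) ∞) (K L : NNReal),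
      LipschitzWith K φ ∧ AntilipschitzWith L φ ∧
      ∀ (j : ℕ) (x : X), ∃ g : X →L[ℝ] ℝ, ∀ h : X,
        HasDerivAt (fun t : ℝ => φ (x + t • h) j) (g h) 0 := by
  classical
  obtain ⟨C, hC0, hC⟩ := bounded_partial e f hsum
  have he0 : ∀ γ, e γ ≠ 0 := by
    intro γ h
    have := hfe γ
    rw [h, map_zero] at this
    exact zero_ne_one this
  have hen : ∀ γ, ‖e γ‖ ≠ 0 := fun γ => norm_ne_zero_iff.mpr (he0 γ)
  let u : Γ → X →L[ℝ] ℝ := fun γ => ‖e γ‖ • f γ
  let b : Γ → X := fun γ => ‖e γ‖⁻¹ • e γ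
  have hu : ∀ γ x, u γ x = ‖e γ‖ * f γ x := fun γ x => rfl
  have hub : ∀ γ, u γ (b γ) = 1 := by
    intro γ
    rw [hu, map_smul, hfe, smul_eq_mul, mul_one, mul_inv_cancel₀ (hen γ)]
  have hub' : ∀ γ η, γ ≠ η → u γ (b η) = 0 := by
    intro γ η h
    rw [hu, map_smul, hfe' γ η h, smul_zero, mul_zero]
  have huabs : ∀ γ x, |u γ x| = ‖f γ x • e γ‖ := by
    intro γ x
    rw [hu, abs_mul, abs_norm, norm_smul, Real.norm_eq_abs, mul_comm]
  have hubd : ∀ γ x, |u γ x| ≤ C * ‖x‖ := by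
    intro γ x
    have := hC {γ} x
    rw [Finset.sum_singleton] at this
    rw [huabs]; exact this
  have hc0 : ∀ x τ, 0 < τ → {γ | τ ≤ |u γ x|}.Finite := by
    intro x τ hτ
    have h1 := (hsum x).summable.tendsto_cofinite_zero
    have h2 := (tendsto_zero_iff_norm_tendsto_zero.mp h1).eventually (Iio_mem_nhds hτ)
    rw [Filter.eventually_cofinite] at h2
    refine h2.subset ?_
    intro γ hγ
    have hγ' : τ ≤ |u γ x| := hγ
    rw [huabs] at hγ'
    simpa using hγ'
  have hdense : Dense (Submodule.span ℝ (Set.range b) : Set X) := by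
    intro x
    refine mem_closure_of_tendsto (hsum x) (Filter.Eventually.of_forall ?_)
    intro F
    apply Submodule.sum_mem
    intro γ _
    apply Submodule.smul_mem
    have : e γ = ‖e γ‖ • b γ := by
      show e γ = ‖e γ‖ • (‖e γ‖⁻¹ • e γ)
      rw [smul_smul, mul_inv_cancel₀ (hen γ), one_smul]
    rw [this]
    exact Submodule.smul_mem _ _ (Submodule.subset_span ⟨γ, rfl⟩)
  -- injection into the reals
  obtain ⟨ι, hι⟩ : ∃ ι : Γ → ℝ, Function.Injective ι := by
    have h1 : ∀ γ, ∃ d : Dn, dist (b γ) d.1 < 1 / (2 * C) := by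
      intro γ
      obtain ⟨d, hd, hd2⟩ := hDd.exists_dist_lt (b γ) (show 0 < 1 / (2 * C) by positivity)
      exact ⟨⟨d, hd⟩, hd2⟩
    choose d hd using h1
    have hdinj : Function.Injective d := by
      intro γ η hγη
      by_contra hne
      have h2 : dist (b γ) (b η) < 1 / C := by
        calc dist (b γ) (b η) ≤ dist (b γ) (d γ).1 + dist (b η) (d γ).1 := dist_triangle_right _ _ _
          _ < 1 / (2 * C) + 1 / (2 * C) := add_lt_add (hd γ) (by rw [hγη]; exact hd η)
          _ = 1 / C := by field_simp; norm_num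
      have h3 := hubd γ (b γ - b η)
      rw [map_sub, hub, hub' γ η hne, sub_zero, abs_one, ← dist_eq_norm] at h3
      rw [lt_div_iff₀ hC0] at h2
      linarith
    have h4 : Cardinal.mk ↥Dn = Cardinal.mk ℝ := by rw [hDc, Cardinal.mk_real]
    obtain ⟨eq⟩ := Cardinal.eq.mp h4
    exact ⟨fun γ => eq (d γ), fun γ η h => hdinj (eq.injective h)⟩
  -- norming
  have hnorming : ∀ z : X, ∃ (F : Finset Γ) (a : Γ → ℝ), (∀ γ, 0 ≤ a γ) ∧
      (∀ x, ∑ γ ∈ F, a γ * |u γ x| ≤ ‖x‖) ∧
      1 / (4 * C) * ‖z‖ ≤ ∑ γ ∈ F, a γ * |u γ z| := by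
    intro z
    obtain ⟨g, hg1, hg2⟩ := exists_dual_vector'' ℝ z
    have h1 : HasSum (fun γ => g (f γ z • e γ)) (g z) := (hsum z).mapL g
    have h2 : ∃ F : Finset Γ, ‖z‖ / 2 ≤ ∑ γ ∈ F, g (f γ z • e γ) := by
      by_cases hz : z = 0
      · exact ⟨∅, by simp [hz]⟩
      · have hz' : 0 < ‖z‖ := norm_pos_iff.mpr hz
        have h3 : ‖z‖ / 2 < g z := by
          rw [hg2]; simp only [RCLike.ofReal_real_eq_id, id]; linarith
        have h4 := h1.eventually (Ioi_mem_nhds h3)
        obtain ⟨F, hF⟩ := h4.exists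
        exact ⟨F, le_of_lt hF⟩
    obtain ⟨F, hF⟩ := h2
    refine ⟨F, fun γ => |g (e γ)| / (‖e γ‖ * (2 * C)), fun γ => by positivity, ?_, ?_⟩
    · intro x
      have h3 := abs_sum_le hC g hg1 F x
      have h4 : ∑ γ ∈ F, |g (e γ)| / (‖e γ‖ * (2 * C)) * |u γ x| =
          (∑ γ ∈ F, |g (e γ)| * |f γ x|) / (2 * C) := by
        rw [Finset.sum_div]
        apply Finset.sum_congr rfl
        intro γ _
        rw [hu, abs_mul, abs_norm]
        have := hen γ
        field_simp
      rw [h4, div_le_iff₀ (by positivity)]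
      linarith
    · have h4 : ∑ γ ∈ F, |g (e γ)| / (‖e γ‖ * (2 * C)) * |u γ z| =
          (∑ γ ∈ F, |g (e γ)| * |f γ z|) / (2 * C) := by
        rw [Finset.sum_div]
        apply Finset.sum_congr rfl
        intro γ _
        rw [hu, abs_mul, abs_norm]
        have := hen γ
        field_simp
      have h5 : ∑ γ ∈ F, g (f γ z • e γ) ≤ ∑ γ ∈ F, |g (e γ)| * |f γ z| := by
        apply Finset.sum_le_sum
        intro γ _
        rw [map_smul, smul_eq_mul, ← abs_mul, mul_comm]
        exact le_abs_self _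
      rw [h4, le_div_iff₀ (by positivity)]
      have h6 : 1 / (4 * C) * ‖z‖ * (2 * C) = ‖z‖ / 2 := by field_simp; ring
      rw [h6]
      linarith
  -- enumeration
  obtain ⟨en, hen'⟩ := exists_surjective_nat Idx
  have hmem : ∀ x : X, Memℓp (fun k : ℕ => HH u b ι (en k) x - HH u b ι (en k) 0) ∞ := by
    intro x
    apply memℓp_infty
    refine ⟨‖x‖, ?_⟩
    rintro _ ⟨k, rfl⟩
    have := HH_lip (u := u) (b := b) (ι := ι) (en k) x 0
    rw [sub_zero] at this
    exact this
  let φ : X → lp (fun _ : ℕ => ℝ) ∞ := fun x => ⟨_, hmem x⟩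
  have hφ : ∀ x k, φ x k = HH u b ι (en k) x - HH u b ι (en k) 0 := fun x k => rfl
  have hφsub : ∀ x y k, (φ x - φ y) k = HH u b ι (en k) x - HH u b ι (en k) y := by
    intro x y k
    have : (φ x - φ y) k = φ x k - φ y k := rfl
    rw [this, hφ, hφ]; ring
  refine ⟨φ, 1, ⟨64 * C, by positivity⟩, ?_, ?_, ?_⟩
  · apply LipschitzWith.of_dist_le_mul
    intro x y
    rw [dist_eq_norm, dist_eq_norm, NNReal.coe_one, one_mul]
    apply lp.norm_le_of_forall_le (norm_nonneg _)
    intro k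
    rw [hφsub]
    exact HH_lip (en k) x y
  · apply AntilipschitzWith.of_le_mul_dist
    intro x y
    rw [dist_eq_norm, dist_eq_norm]
    by_cases hxy : x = y
    · rw [hxy]; simp
    obtain ⟨F, a, ha, haF, hz⟩ := hnorming (x - y)
    obtain ⟨i, hi⟩ := sep_all (b := b) hι hub hub' hc0 (show 0 < 1 / (4 * C) by positivity) x y hxy F a ha
      haF hz
    obtain ⟨k, rfl⟩ := hen' i
    have h1 : |HH u b ι (en k) x - HH u b ι (en k) y| ≤ ‖φ x - φ y‖ := by
      have := lp.norm_apply_le_norm (p := ∞) (by simp) (φ x - φ y) k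
      rw [hφsub] at this
      exact this
    have h2 : 1 / (4 * C) / 16 * ‖x - y‖ = ‖x - y‖ / (64 * C) := by field_simp; ring
    rw [h2] at hi
    have h3 := hi.trans h1
    rw [div_le_iff₀ (by positivity)] at h3
    show ‖x - y‖ ≤ (64 * C) * ‖φ x - φ y‖
    linarith
  · intro k x
    obtain ⟨g, hg⟩ := hh_gateaux (u := u) (b := b) (ι := ι) (r := (en k).2.1)
      (V := fun j => ((en k).2.2.1 j).1) (sg_abs (en k).2.2.2.2) hdense (en k).2.2.2.1 x
    refine ⟨g, fun h => ?_⟩
    have h1 := (hg h).sub_const (HH u b ι (en k) 0)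
    exact h1

end Main


end Pool.Agent.Helper830.GS

open scoped ENNReal
open Pool Pool.MP_786be7_an

namespace Pool.Agent.S03403

/-- Every real Banach space with an equivalent norm Fréchet smooth off 0, density continuum, and a (long) unconditional basis admits a bi-Lipschitz map into ℓ∞ whose every coordinate is Gâteaux differentiable everywhere. -/
theorem result :
  ∀ (X : Type) [NormedAddCommGroup X] [NormedSpace ℝ X] [CompleteSpace X],
    (∃ N : X → ℝ, (∀ x y : X, N (x + y) ≤ N x + N y) ∧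
      (∀ (c : ℝ) (x : X), N (c • x) = |c| * N x) ∧
      (∃ a b : ℝ, 0 < a ∧ 0 < b ∧ ∀ x : X, a * ‖x‖ ≤ N x ∧ N x ≤ b * ‖x‖) ∧
      ∀ x : X, x ≠ 0 → DifferentiableAt ℝ N x) →
    ((∃ D : Set X, Dense D ∧ Cardinal.mk ↥D = Cardinal.continuum) ∧
      ∀ D : Set X, Dense D → Cardinal.continuum ≤ Cardinal.mk ↥D) →
    (∃ (Γ : Type) (e : Γ → X) (f : Γ → X →L[ℝ] ℝ),
      (∀ i : Γ, f i (e i) = 1) ∧ (∀ i j : Γ, i ≠ j → f i (e j) = 0) ∧
      ∀ x : X, HasSum (fun γ : Γ => f γ x • e γ) x) →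
    ∃ (φ : X → lp (fun _ : ℕ => ℝ) ∞) (K L : NNReal),
      LipschitzWith K φ ∧ AntilipschitzWith L φ ∧
      ∀ (j : ℕ) (x : X), ∃ g : X →L[ℝ] ℝ, ∀ h : X,
        HasDerivAt (fun t : ℝ => φ (x + t • h) j) (g h) 0 := by
  intro X _ _ _ _ hD hB
  obtain ⟨⟨Dn, hDd, hDc⟩, -⟩ := hD
  obtain ⟨Γ, e, f, hfe, hfe', hsum⟩ := hB
  exact Pool.Agent.Helper830.GS.main Dn hDd hDc e f hfe hfe' hsum

end Pool.Agent.S03403
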