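import Pool.Statements.S03405
import Pool.Agent.Lev.All

set_option autoImplicit false
open Pool Pool.MP_78b16e_an

namespace Pool.Agent.S03405

/-- For a composition-closed set S of complex rational maps of degree ≥2 with a non-special member, X∘A=Y∘B is solvable in S for all A,B in S iff for all A,B some k,l≥1 give A^2k=A^k∘B^l and B^2l=B^l∘A^k. -/
theorem result :
    ∀ (comp : RatFunc ℂ → RatFunc ℂ → RatFunc ℂ) (deg : RatFunc ℂ → ℕ)
      (special : RatFunc ℂ → Prop),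
      (∀ f g : RatFunc ℂ,
        comp f g = Polynomial.aeval g (RatFunc.num f) / Polynomial.aeval g (RatFunc.denom f)) →
      (∀ f : RatFunc ℂ, deg f = max (RatFunc.num f).natDegree (RatFunc.denom f).natDegree) →
      (∀ f : RatFunc ℂ, special f ↔
        ((∃ (ω₁ ω₂ a b : ℂ) (θ : ℂ → ℂ),
            LinearIndependent ℝ ![ω₁, ω₂] ∧
            (∃ m₁ n₁ m₂ n₂ : ℤ, a * ω₁ = (m₁ : ℂ) * ω₁ + (n₁ : ℂ) * ω₂ ∧
                a * ω₂ = (m₂ : ℂ) * ω₁ + (n₂ : ℂ) * ω₂) ∧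
            MeromorphicOn θ Set.univ ∧
            (∀ z : ℂ, θ (z + ω₁) = θ z ∧ θ (z + ω₂) = θ z) ∧
            (∃ z : ℂ, DifferentiableAt ℂ θ z ∧ deriv θ z ≠ 0) ∧
            (∀ᶠ z in Filter.codiscrete ℂ,
              RatFunc.eval (RingHom.id ℂ) (θ z) f = θ (a * z + b))) ∨
         (∃ μ : RatFunc ℂ, deg μ = 1 ∧ ∃ n : ℕ,
            (comp μ f = comp (RatFunc.X ^ n) μ ∨
             comp μ f = comp (RatFunc.X ^ n)⁻¹ μ ∨
             comp μ f = comp (algebraMap (Polynomial ℂ) (RatFunc ℂ)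
                (Polynomial.Chebyshev.T ℂ (n : ℤ))) μ ∨
             comp μ f = comp (-(algebraMap (Polynomial ℂ) (RatFunc ℂ)
                (Polynomial.Chebyshev.T ℂ (n : ℤ)))) μ)))) →
      ∀ S : Set (RatFunc ℂ),
        (∀ f ∈ S, ∀ g ∈ S, comp f g ∈ S) →
        (∀ f ∈ S, 2 ≤ deg f) →
        (∃ f ∈ S, ¬ special f) →
        ((∀ A ∈ S, ∀ B ∈ S, ∃ P ∈ S, ∃ Q ∈ S, comp P A = comp Q B) ↔
          ∀ A ∈ S, ∀ B ∈ S, ∃ k l : ℕ, 1 ≤ k ∧ 1 ≤ l ∧
            (comp A)^[2 * k] RatFunc.X =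
              comp ((comp A)^[k] RatFunc.X) ((comp B)^[l] RatFunc.X) ∧
            (comp B)^[2 * l] RatFunc.X =
              comp ((comp B)^[l] RatFunc.X) ((comp A)^[k] RatFunc.X)) := by
  intro comp deg special h1 h2 h3 S hS hd hns
  have e1 : comp = Pool.Agent.Lev.cp := by funext f g; exact h1 f g
  have e2 : deg = Pool.Agent.Lev.dg := by funext f; exact h2 f
  subst e1
  subst e2
  have e3 : ∀ f, special f ↔ Pool.Agent.Lev.Special f := fun f => h3 f
  obtain ⟨f, hf, hsf⟩ := hns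
  exact Pool.Agent.Lev.t_main S hS hd ⟨f, hf, fun h => hsf ((e3 f).2 h)⟩

end Pool.Agent.S03405
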