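import Pool.Statements.S03412
-- import your own Pool.Agent.* helpers here
import Pool.Agent.H574Leontev.Final

set_option autoImplicit false
open Filter Topology
open Pool Pool.MP_79be58_an

namespace Pool.Agent.S03412

/-- The negation of the preceding statement: Let f be entire of order ρ and finite type, with positive indicator h, indicator h′ of f′, simple zeros, and ln∣f′∣/∣z∣^ρ − h′(arg z) → 0 along the zeros. Then outside discs of zero linear density, ln∣f(z)∣ = h(arg z)∣z∣^ρ + o(∣z∣^ρ). -/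
theorem result :
    ¬ (∀ (ρ : ℝ), 0 < ρ → ∀ (f : ℂ → ℂ) (h h' : ℝ → ℝ),
      Differentiable ℂ f →
      (∃ C : ℝ, ∀ z : ℂ, ‖f z‖ ≤ C * Real.exp (C * ‖z‖ ^ ρ)) →
      (∀ φ : ℝ, ∀ ε : ℝ, 0 < ε →
        (∀ᶠ r : ℝ in atTop,
          ‖f ((r : ℂ) * Complex.exp ((φ : ℂ) * Complex.I))‖ ≤ Real.exp ((h φ + ε) * r ^ ρ)) ∧
        (∃ᶠ r : ℝ in atTop,
          Real.exp ((h φ - ε) * r ^ ρ) ≤ ‖f ((r : ℂ) * Complex.exp ((φ : ℂ) * Complex.I))‖)) →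
      (∀ φ : ℝ, ∀ ε : ℝ, 0 < ε →
        (∀ᶠ r : ℝ in atTop,
          ‖deriv f ((r : ℂ) * Complex.exp ((φ : ℂ) * Complex.I))‖ ≤ Real.exp ((h' φ + ε) * r ^ ρ)) ∧
        (∃ᶠ r : ℝ in atTop,
          Real.exp ((h' φ - ε) * r ^ ρ) ≤ ‖deriv f ((r : ℂ) * Complex.exp ((φ : ℂ) * Complex.I))‖)) →
      (∀ φ : ℝ, 0 < h φ) →
      (∀ z : ℂ, f z = 0 → deriv f z ≠ 0) →
      Tendsto (fun z : ℂ => Real.log ‖deriv f z‖ / ‖z‖ ^ ρ - h' (Complex.arg z))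
        (cocompact ℂ ⊓ 𝓟 {z : ℂ | f z = 0}) (𝓝 0) →
      ∃ c : ℕ → ℂ, ∃ s : ℕ → ℝ, (∀ j, 0 ≤ s j) ∧
        (∀ ε : ℝ, 0 < ε → ∃ R0 : ℝ, ∀ R : ℝ, R0 ≤ R → ∀ n : ℕ,
          ∑ j ∈ Finset.range n, (if ‖c j‖ < R then s j else 0) ≤ ε * R) ∧
        (∀ ε : ℝ, 0 < ε → ∃ R0 : ℝ, ∀ z : ℂ, R0 ≤ ‖z‖ →
          z ∉ ⋃ j, Metric.ball (c j) (s j) →
          |Real.log ‖f z‖ - h (Complex.arg z) * ‖z‖ ^ ρ| ≤ ε * ‖z‖ ^ ρ)) := by
  intro H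
  obtain ⟨C, hC1, hC⟩ := H574Leontev.FF_growth 0
  choose h hh using H574Leontev.f_ind
  choose h' hh' using H574Leontev.f_deriv_ind
  have hpos : ∀ φ : ℝ, 0 < h φ := by
    intro φ
    obtain ⟨c, hc, hf⟩ := H574Leontev.f_lower φ
    exact lt_of_lt_of_le hc ((hh φ).le_of_frequently hf)
  refine H574Leontev.not_crg h hpos (H (4 / 3) (by norm_num) (H574Leontev.FF 0) h h'
    (H574Leontev.FF_differentiable 0) ⟨C, fun z => ?_⟩ (fun φ ε hε => hh φ ε hε)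
    (fun φ ε hε => hh' φ ε hε) hpos H574Leontev.f_simple
    (H574Leontev.f_zeros_tendsto h' hh'))
  refine (hC z).trans ?_
  have h1 : 0 < Real.exp (C * ‖z‖ ^ ((4 : ℝ) / 3)) := Real.exp_pos _
  nlinarith

end Pool.Agent.S03412
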