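import Pool.Statements.S03425
import Pool.Agent.Ramm7c.Fin

set_option autoImplicit false
open MeasureTheory
open Pool Pool.MP_7c460f_an
open Filter Topology Pool.Agent.Ramm7c

namespace Pool.Agent.S03425

/-- For bounded open connected D in R^3, nonzero f in L^2(D), and transversal polynomial zero sets in C^3 with smooth positive rapidly decaying densities, the operator h ↦ ∫ h(u1)F(u1+u2)dm1 has infinite-dimensional range. -/
theorem result :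
  ∀ (D : Set (Fin 3 → ℝ)), IsOpen D → IsConnected D → Bornology.IsBounded D →
  ∀ (f : (Fin 3 → ℝ) → ℂ), MemLp f 2 (volume.restrict D) →
  ¬ (f =ᵐ[volume.restrict D] 0) →
  ∀ (F : EuclideanSpace ℂ (Fin 3) → ℂ),
  (∀ z, F z = ∫ x in D, f x * Complex.exp (Complex.I * ∑ i, WithLp.ofLp z i * (x i : ℂ))) →
  ∀ (L₁ L₂ : MvPolynomial (Fin 3) ℂ), 1 ≤ L₁.totalDegree → 1 ≤ L₂.totalDegree →
  ∀ (V₁ V₂ : Set (EuclideanSpace ℂ (Fin 3))),
  V₁ = {z | MvPolynomial.eval (WithLp.ofLp z) L₁ = 0} →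
  V₂ = {z | MvPolynomial.eval (WithLp.ofLp z) L₂ = 0} →
  ∀ (ρ₁ ρ₂ : EuclideanSpace ℂ (Fin 3) → ℝ),
  ContDiff ℝ ((⊤ : ℕ∞) : WithTop ℕ∞) ρ₁ → ContDiff ℝ ((⊤ : ℕ∞) : WithTop ℕ∞) ρ₂ →
  (∀ z, 0 < ρ₁ z) → (∀ z, 0 < ρ₂ z) →
  (∀ N : ℕ, ∃ C : ℝ, ∀ z, ρ₁ z * (1 + ‖z‖) ^ N ≤ C) →
  (∀ N : ℕ, ∃ C : ℝ, ∀ z, ρ₂ z * (1 + ‖z‖) ^ N ≤ C) →
  ∀ (m₁ m₂ : Measure (EuclideanSpace ℂ (Fin 3))),
  m₁ = ((Measure.hausdorffMeasure (4 : ℝ)).restrict V₁).withDensity (fun z => ENNReal.ofReal (ρ₁ z)) →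
  m₂ = ((Measure.hausdorffMeasure (4 : ℝ)).restrict V₂).withDensity (fun z => ENNReal.ofReal (ρ₂ z)) →
  (∀ x : Fin 3 → ℝ, MemLp (fun z : EuclideanSpace ℂ (Fin 3) =>
      Complex.exp (Complex.I * ∑ i, WithLp.ofLp z i * (x i : ℂ))) 2 m₁) →
  (∀ x : Fin 3 → ℝ, MemLp (fun z : EuclideanSpace ℂ (Fin 3) =>
      Complex.exp (Complex.I * ∑ i, WithLp.ofLp z i * (x i : ℂ))) 2 m₂) →
  (∀ h : EuclideanSpace ℂ (Fin 3) → ℂ, MemLp h 2 m₁ →
      (∀ᵐ u₂ ∂m₂, Integrable (fun u₁ => h u₁ * F (u₁ + u₂)) m₁) ∧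
      MemLp (fun u₂ => ∫ u₁, h u₁ * F (u₁ + u₂) ∂m₁) 2 m₂) →
  (∃ p₁ ∈ V₁, ∃ p₂ ∈ V₂, ∃ Q₁ Q₂ : MvPolynomial (Fin 3) ℂ,
      ∃ U₁ U₂ : Set (EuclideanSpace ℂ (Fin 3)),
      IsOpen U₁ ∧ IsOpen U₂ ∧ p₁ ∈ U₁ ∧ p₂ ∈ U₂ ∧
      V₁ ∩ U₁ = {z | MvPolynomial.eval (WithLp.ofLp z) Q₁ = 0} ∩ U₁ ∧
      V₂ ∩ U₂ = {z | MvPolynomial.eval (WithLp.ofLp z) Q₂ = 0} ∩ U₂ ∧
      LinearIndependent ℂ
        ![fun i : Fin 3 => MvPolynomial.eval (WithLp.ofLp p₁) (MvPolynomial.pderiv i Q₁),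
          fun i : Fin 3 => MvPolynomial.eval (WithLp.ofLp p₂) (MvPolynomial.pderiv i Q₂)]) →
  ∀ (n : ℕ) (g : Fin n → EuclideanSpace ℂ (Fin 3) → ℂ),
  ∃ h : EuclideanSpace ℂ (Fin 3) → ℂ, MemLp h 2 m₁ ∧
    ∀ c : Fin n → ℂ,
      ¬ ((fun u₂ => ∫ u₁, h u₁ * F (u₁ + u₂) ∂m₁) =ᵐ[m₂] fun u₂ => ∑ k, c k * g k u₂) := by
  intro D hDo _ hDb f hf hfne F hF L₁ L₂ hL₁ hL₂ V₁ V₂ hV₁ hV₂ ρ₁ ρ₂ hρ₁s hρ₂s hρ₁p hρ₂p _ _
    m₁ m₂ hm₁ hm₂ hexp₁ _ _ hpt n g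
  obtain ⟨p₁, hp₁, p₂, hp₂, Q₁, Q₂, U₁, U₂, hU₁, hU₂, hpU₁, hpU₂, hVQ₁, hVQ₂, hli⟩ := hpt
  by_contra hcon
  push Not at hcon
  -- the extended function
  set h0 : (Fin 3 → ℝ) → ℂ := D.indicator f with hh0
  have hDm : MeasurableSet D := hDo.measurableSet
  have hDfin : volume D < ⊤ := hDb.measure_lt_top
  have : IsFiniteMeasure (volume.restrict D) := ⟨by rwa [Measure.restrict_apply_univ]⟩
  have hint : Integrable h0 := by
    rw [hh0, integrable_indicator_iff hDm]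
    exact memLp_one_iff_integrable.1 (hf.mono_exponent (by norm_num))
  obtain ⟨B, hB'⟩ := hDb.exists_norm_le
  have hB : ∀ x, B < ‖x‖ → h0 x = 0 := by
    intro x hx
    rw [hh0, Set.indicator_of_notMem]
    intro hxD
    exact absurd (hB' x hxD) (not_le.2 hx)
  have hne : ¬ h0 =ᵐ[volume] 0 := by
    intro h
    apply hfne
    have h1 := indicator_ae_eq_restrict (μ := volume) (f := f) hDm
    exact h1.symm.trans (ae_restrict_of_ae h)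
  have hFg : ∀ z, F z = gg h0 (WithLp.ofLp z) := by
    intro z
    rw [hF, gg, ← integral_indicator hDm]
    apply integral_congr_ae
    refine Eventually.of_forall fun x => ?_
    simp only [hh0]
    by_cases hx : x ∈ D
    · simp only [Set.indicator_of_mem hx]
    · simp only [Set.indicator_of_notMem hx, zero_mul]
  have hGc := gg_continuous h0 hint B hB
  have hK : Continuous (fun p : E3 × E3 => F (p.1 + p.2)) := by
    have : F = fun z => gg h0 (WithLp.ofLp z) := funext hFg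
    rw [this]
    apply hGc.comp
    exact (PiLp.continuous_ofLp 2 _).comp (continuous_fst.add continuous_snd)
  -- finiteness of m₁
  have hfin : IsFiniteMeasure m₁ := by
    have h1 := hexp₁ 0
    simp only [Pi.zero_apply, Complex.ofReal_zero, mul_zero, Finset.sum_const_zero,
      Complex.exp_zero] at h1
    rcases (memLp_const_iff (by norm_num) (by norm_num)).1 h1 with h2 | h2
    · exact absurd h2 one_ne_zero
    · exact ⟨h2⟩
  have hL₁0 : L₁ ≠ 0 := by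
    rintro rfl
    simp at hL₁
  have hL₂0 : L₂ ≠ 0 := by
    rintro rfl
    simp at hL₂
  have : ProperSpace E3 := FiniteDimensional.proper ℂ E3
  have hball₁ : ∀ v ∈ V₁, ∀ r : ℝ, 0 < r → m₁ (Metric.ball v r) ≠ 0 := by
    intro v hv r hr
    rw [hV₁] at hv
    rw [hm₁, hV₁]
    exact m_pos L₁ hL₁0 ρ₁ hρ₁s.continuous hρ₁p v hv r hr
  have hball₂ : ∀ v ∈ V₂, ∀ r : ℝ, 0 < r → m₂ (Metric.ball v r) ≠ 0 := by
    intro v hv r hr
    rw [hV₂] at hv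
    rw [hm₂, hV₂]
    exact m_pos L₂ hL₂0 ρ₂ hρ₂s.continuous hρ₂p v hv r hr
  have hstep := step0 m₁ m₂ V₁ V₂ hball₁ hball₂ (fun u w => F (u + w)) hK n g hcon
  have hmV₁ : ∀ x : X3, MvPolynomial.eval x L₁ = 0 → (WithLp.toLp 2 x : E3) ∈ V₁ := by
    intro x hx; rw [hV₁]; exact hx
  have hmV₂ : ∀ x : X3, MvPolynomial.eval x L₂ = 0 → (WithLp.toLp 2 x : E3) ∈ V₂ := by
    intro x hx; rw [hV₂]; exact hx
  have hzero : ∀ a b : X3, MvPolynomial.eval a L₁ = 0 → MvPolynomial.eval b L₂ = 0 →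
      gg h0 (a + b) = 0 := by
    intro a b ha hb
    have hRC : RC (gg h0) n (a + b) (sh a L₁) (sh b L₂) := by
      intro v hv
      obtain ⟨α, h1, h2⟩ := hstep (fun i => WithLp.toLp 2 (v i + a)) (fun i => by
        apply hmV₁
        rw [← eval_sh]; exact hv i)
      refine ⟨α, h1, fun w hw => ?_⟩
      have h3 := h2 (WithLp.toLp 2 (w + b)) (by
        apply hmV₂
        rw [← eval_sh]; exact hw)
      rw [← h3]
      refine Finset.sum_congr rfl fun i _ => ?_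
      simp only [hFg]
      congr 2
      show a + b + v i + w = (v i + a) + (w + b)
      abel
    exact main_claim (gg h0) hGc n (a + b) (fun z r hr => gg_RL h0 z r hr)
      (gg_line_differentiable h0 hint B hB) (gg_H4 h0 hint B hB hne) (sh a L₁) (sh b L₂)
      (sh_ne_zero a L₁ hL₁0) (sh_ne_zero b L₂ hL₂0)
      (by rw [eval_sh, zero_add]; exact ha) (by rw [eval_sh, zero_add]; exact hb) hRC
  -- transversality
  have hpre : ∀ (U : Set E3) (p : E3), IsOpen U → p ∈ U →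
      (fun x : X3 => (WithLp.toLp 2 x : E3)) ⁻¹' U ∈ 𝓝 (WithLp.ofLp p) := by
    intro U p hU hp
    apply (PiLp.continuous_toLp 2 _).continuousAt.preimage_mem_nhds
    exact hU.mem_nhds hp
  have hQ₁ : MvPolynomial.eval (WithLp.ofLp p₁) Q₁ = 0 := by
    have : p₁ ∈ V₁ ∩ U₁ := ⟨hp₁, hpU₁⟩
    rw [hVQ₁] at this
    exact this.1
  have hQ₂ : MvPolynomial.eval (WithLp.ofLp p₂) Q₂ = 0 := by
    have : p₂ ∈ V₂ ∩ U₂ := ⟨hp₂, hpU₂⟩
    rw [hVQ₂] at this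
    exact this.1
  have htr := transv Q₁ Q₂ (WithLp.ofLp p₁) (WithLp.ofLp p₂) hQ₁ hQ₂ hli
    _ _ (hpre U₁ p₁ hU₁ hpU₁) (hpre U₂ p₂ hU₂ hpU₂)
  have hev : ∀ᶠ y in 𝓝 (WithLp.ofLp p₁ + WithLp.ofLp p₂), gg h0 y = 0 := by
    filter_upwards [htr] with y hy
    obtain ⟨v, hvU, w, hwU, hv, hw, hvw⟩ := hy
    rw [← hvw]
    apply hzero
    · have : (WithLp.toLp 2 v : E3) ∈ V₁ ∩ U₁ := by
        rw [hVQ₁]; exact ⟨hv, hvU⟩
      have h1 := this.1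
      rw [hV₁] at h1
      exact h1
    · have : (WithLp.toLp 2 w : E3) ∈ V₂ ∩ U₂ := by
        rw [hVQ₂]; exact ⟨hw, hwU⟩
      have h1 := this.1
      rw [hV₂] at h1
      exact h1
  have hall := gg_zero_of_eventually h0 hint B hB _ hev
  refine gg_H4 h0 hint B hB hne (fun _ => 1) ?_ 1 one_ne_zero ?_
  · intro h
    have := congrFun h 0
    simp at this
  · intro y
    apply Finset.sum_eq_zero
    intro m _
    rw [hall, mul_zero]

end Pool.Agent.S03425
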