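import Pool.Statements.S03432
import Pool.Agent.Helper737.QF.Fini

set_option autoImplicit false
open Pool Pool.MP_7cf0e7_an

namespace Pool.Agent.S03432

/-- The negation of the preceding statement: For every real Banach space X, exactly one holds: some continuous quadratic form x ↦ B(x,x) is positive at every nonzero x, or every continuous quadratic form vanishes on some non-separable linear subspace of X. -/
theorem result :
    ¬ (∀ (X : Type) [NormedAddCommGroup X] [NormedSpace ℝ X] [CompleteSpace X],
      Xor' (∃ B : X →L[ℝ] X →L[ℝ] ℝ, ∀ x : X, x ≠ 0 → 0 < B x x)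
        (∀ B : X →L[ℝ] X →L[ℝ] ℝ, ∃ V : Submodule ℝ X,
          ¬ TopologicalSpace.IsSeparable (V : Set X) ∧ ∀ x ∈ V, B x x = 0)) := by
  exact Pool.Agent.Helper737.QF.main

end Pool.Agent.S03432
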