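import Pool.Statements.S03437
import Pool.Agent.Helper655.BDH1
import Pool.Agent.Helper655.BDJ5
-- import your own Pool.Agent.* helpers here

set_option autoImplicit false
open Pool Pool.MP_7d8448_an

namespace Pool.Agent.S03437

/-- There is a holomorphic f on the bidisk in H^2 such that every H^1 function is an H^1-limit of polynomial multiples of f, but not every H^2 function is an H^2-limit of polynomial multiples of f. -/
theorem result :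
  ∃ f : ℂ × ℂ → ℂ,
    DifferentiableOn ℂ f (Metric.ball (0 : ℂ × ℂ) 1) ∧
    (⨆ r ∈ Set.Ioo (0:ℝ) 1,
        ∫⁻ x in Set.Icc (0:ℝ) (2 * Real.pi) ×ˢ Set.Icc (0:ℝ) (2 * Real.pi),
          (‖f ((r:ℂ) * Complex.exp ((x.1:ℂ) * Complex.I),
               (r:ℂ) * Complex.exp ((x.2:ℂ) * Complex.I))‖ₑ) ^ (2:ℝ)) < ⊤ ∧
    (∀ g : ℂ × ℂ → ℂ, DifferentiableOn ℂ g (Metric.ball (0 : ℂ × ℂ) 1) →
      (⨆ r ∈ Set.Ioo (0:ℝ) 1,
        ∫⁻ x in Set.Icc (0:ℝ) (2 * Real.pi) ×ˢ Set.Icc (0:ℝ) (2 * Real.pi),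
          (‖g ((r:ℂ) * Complex.exp ((x.1:ℂ) * Complex.I),
               (r:ℂ) * Complex.exp ((x.2:ℂ) * Complex.I))‖ₑ) ^ (1:ℝ)) < ⊤ →
      ∀ ε : ENNReal, 0 < ε → ∃ P : MvPolynomial (Fin 2) ℂ,
        (⨆ r ∈ Set.Ioo (0:ℝ) 1,
          ∫⁻ x in Set.Icc (0:ℝ) (2 * Real.pi) ×ˢ Set.Icc (0:ℝ) (2 * Real.pi),
            (‖MvPolynomial.eval ![(r:ℂ) * Complex.exp ((x.1:ℂ) * Complex.I),
                                  (r:ℂ) * Complex.exp ((x.2:ℂ) * Complex.I)] P *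
                f ((r:ℂ) * Complex.exp ((x.1:ℂ) * Complex.I),
                   (r:ℂ) * Complex.exp ((x.2:ℂ) * Complex.I)) -
              g ((r:ℂ) * Complex.exp ((x.1:ℂ) * Complex.I),
                 (r:ℂ) * Complex.exp ((x.2:ℂ) * Complex.I))‖ₑ) ^ (1:ℝ)) < ε) ∧
    ¬ (∀ g : ℂ × ℂ → ℂ, DifferentiableOn ℂ g (Metric.ball (0 : ℂ × ℂ) 1) →
      (⨆ r ∈ Set.Ioo (0:ℝ) 1,
        ∫⁻ x in Set.Icc (0:ℝ) (2 * Real.pi) ×ˢ Set.Icc (0:ℝ) (2 * Real.pi),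
          (‖g ((r:ℂ) * Complex.exp ((x.1:ℂ) * Complex.I),
               (r:ℂ) * Complex.exp ((x.2:ℂ) * Complex.I))‖ₑ) ^ (2:ℝ)) < ⊤ →
      ∀ ε : ENNReal, 0 < ε → ∃ P : MvPolynomial (Fin 2) ℂ,
        (⨆ r ∈ Set.Ioo (0:ℝ) 1,
          ∫⁻ x in Set.Icc (0:ℝ) (2 * Real.pi) ×ˢ Set.Icc (0:ℝ) (2 * Real.pi),
            (‖MvPolynomial.eval ![(r:ℂ) * Complex.exp ((x.1:ℂ) * Complex.I),
                                  (r:ℂ) * Complex.exp ((x.2:ℂ) * Complex.I)] P *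
                f ((r:ℂ) * Complex.exp ((x.1:ℂ) * Complex.I),
                   (r:ℂ) * Complex.exp ((x.2:ℂ) * Complex.I)) -
              g ((r:ℂ) * Complex.exp ((x.1:ℂ) * Complex.I),
                 (r:ℂ) * Complex.exp ((x.2:ℂ) * Complex.I))‖ₑ) ^ (2:ℝ)) < ε) := by
  obtain ⟨gc, hD⟩ := Pool.Agent.Helper655.BD.J5.exists_data
  refine ⟨Pool.Agent.Helper655.BD.FF gc, Pool.Agent.Helper655.BD.K3.FF_diff hD,
    Pool.Agent.Helper655.BD.K5.FF_H2 hD, ?_, ?_⟩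
  · intro g hg hN ε hε
    obtain ⟨P, hP⟩ := Pool.Agent.Helper655.BD.H1.h1_cyclic hD g hg hN ε hε
    exact ⟨P, hP⟩
  · intro hall
    obtain ⟨ε0, hε0, hlow⟩ := Pool.Agent.Helper655.BD.K10.low_fn hD
    obtain ⟨P, hP⟩ := hall (fun _ => 1) (differentiableOn_const _) (by
      refine lt_of_le_of_lt (b := MeasureTheory.volume
        (Set.Icc (0:ℝ) (2 * Real.pi) ×ˢ Set.Icc (0:ℝ) (2 * Real.pi))) ?_ ?_
      · refine iSup₂_le ?_
        intro r hr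
        simp
      · rw [MeasureTheory.Measure.volume_eq_prod, MeasureTheory.Measure.prod_prod]
        simp only [Real.volume_Icc]
        exact ENNReal.mul_lt_top ENNReal.ofReal_lt_top ENNReal.ofReal_lt_top) ε0 hε0
    exact absurd hP (not_lt.2 (hlow P))

end Pool.Agent.S03437
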