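import Pool.Statements.S03442

set_option autoImplicit false
open MeasureTheory
open Pool Pool.MP_7da0cb_an

namespace Pool.Agent.S03442

open Set


/-- the reference measure -/
noncomputable abbrev mu : Measure ℝ := volume.restrict (Icc (0:ℝ) 1)

noncomputable def cs (n : ℕ) (t : ℝ) : ℝ := Real.cos (n * Real.pi * (4/3 * t))

lemma cs_cont (n : ℕ) : Continuous (cs n) := by unfold cs; fun_prop

lemma int_cos (m : ℤ) (hm : m ≠ 0) : ∫ t in (0:ℝ)..1, Real.cos ((m:ℝ) * Real.pi * t) = 0 := by
  have h1 : (m:ℝ) * Real.pi ≠ 0 := by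
    have : (m:ℝ) ≠ 0 := by exact_mod_cast hm
    positivity
  rw [intervalIntegral.integral_comp_mul_left (fun x => Real.cos x) h1]
  simp only [mul_zero, mul_one, integral_cos, Real.sin_zero, sub_zero, smul_eq_mul]
  rw [Real.sin_int_mul_pi]
  simp

lemma int_cos_cos (m n : ℕ) (h : m ≠ n) :
    ∫ t in (0:ℝ)..1, Real.cos (m * Real.pi * t) * Real.cos (n * Real.pi * t) = 0 := by
  have h1 : ∀ t : ℝ, Real.cos (m * Real.pi * t) * Real.cos (n * Real.pi * t) =
      (1/2) * Real.cos ((((m:ℤ) + (n:ℤ) : ℤ) : ℝ) * Real.pi * t) +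
      (1/2) * Real.cos ((((m:ℤ) - (n:ℤ) : ℤ) : ℝ) * Real.pi * t) := by
    intro t
    have e1 : (((m:ℤ) + (n:ℤ) : ℤ) : ℝ) * Real.pi * t = (m * Real.pi * t) + (n * Real.pi * t) := by
      push_cast; ring
    have e2 : (((m:ℤ) - (n:ℤ) : ℤ) : ℝ) * Real.pi * t = (m * Real.pi * t) - (n * Real.pi * t) := by
      push_cast; ring
    rw [e1, e2, Real.cos_add, Real.cos_sub]
    ring
  simp_rw [h1]
  rw [intervalIntegral.integral_add, intervalIntegral.integral_const_mul,
    intervalIntegral.integral_const_mul, int_cos _ (by omega), int_cos _ (by omega)]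
  · simp
  · apply Continuous.intervalIntegrable; fun_prop
  · apply Continuous.intervalIntegrable; fun_prop

lemma int_cos_sq (m : ℕ) (h : m ≠ 0) :
    ∫ t in (0:ℝ)..1, Real.cos (m * Real.pi * t) * Real.cos (m * Real.pi * t) = 1/2 := by
  have h1 : ∀ t : ℝ, Real.cos (m * Real.pi * t) * Real.cos (m * Real.pi * t) =
      (1/2) * Real.cos ((((m:ℤ) + (m:ℤ) : ℤ) : ℝ) * Real.pi * t) + (1/2) := by
    intro t
    have e1 : (((m:ℤ) + (m:ℤ) : ℤ) : ℝ) * Real.pi * t = (m * Real.pi * t) + (m * Real.pi * t) := by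
      push_cast; ring
    rw [e1, Real.cos_add]
    have := Real.sin_sq_add_cos_sq (m * Real.pi * t)
    nlinarith
  simp_rw [h1]
  rw [intervalIntegral.integral_add, intervalIntegral.integral_const_mul, int_cos _ (by omega)]
  · simp
  · apply Continuous.intervalIntegrable; fun_prop
  · apply Continuous.intervalIntegrable; fun_prop

/-- normalising constants -/
noncomputable def A (n : ℕ) : ℝ := if n = 0 then Real.sqrt (4/3) else Real.sqrt (8/3)

lemma A_sq_zero : A 0 * A 0 = 4/3 := by
  unfold A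
  rw [if_pos rfl]
  exact Real.mul_self_sqrt (by norm_num)

lemma A_sq (n : ℕ) (h : n ≠ 0) : A n * A n = 8/3 := by
  unfold A
  rw [if_neg h]
  exact Real.mul_self_sqrt (by norm_num)

lemma A_le (n : ℕ) : |A n| ≤ Real.sqrt (8/3) := by
  unfold A
  split_ifs
  · rw [abs_of_nonneg (Real.sqrt_nonneg _)]
    apply Real.sqrt_le_sqrt; norm_num
  · rw [abs_of_nonneg (Real.sqrt_nonneg _)]

/-- the functions of the system -/
noncomputable def fn (n : ℕ) (t : ℝ) : ℝ := (Icc (0:ℝ) (3/4)).indicator (fun t => A n * cs n t) t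

lemma fn_meas (n : ℕ) : Measurable (fn n) := by
  unfold fn
  exact Measurable.indicator ((cs_cont n).measurable.const_mul _) measurableSet_Icc

lemma fn_bound (n : ℕ) (t : ℝ) : |fn n t| ≤ Real.sqrt (8/3) := by
  unfold fn indicator
  split_ifs
  · rw [abs_mul]
    calc |A n| * |cs n t| ≤ Real.sqrt (8/3) * 1 := by
          apply mul_le_mul (A_le n) _ (abs_nonneg _) (Real.sqrt_nonneg _)
          exact Real.abs_cos_le_one _
      _ = _ := mul_one _
  · rw [abs_zero]; exact Real.sqrt_nonneg _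

lemma fn_memLp (n : ℕ) : MemLp (fn n) 2 mu := by
  apply MemLp.of_bound (fn_meas n).aestronglyMeasurable (Real.sqrt (8/3))
  filter_upwards with t
  rw [Real.norm_eq_abs]
  exact fn_bound n t

lemma int_fn (n : ℕ) (g : ℝ → ℝ) :
    ∫ t, fn n t * g t ∂mu = A n * ∫ t in Icc (0:ℝ) (3/4), cs n t * g t := by
  have h1 : ∀ t, fn n t * g t = (Icc (0:ℝ) (3/4)).indicator (fun t => A n * (cs n t * g t)) t := by
    intro t
    unfold fn indicator
    split_ifs
    · ring
    · ring
  simp_rw [h1]
  rw [integral_indicator measurableSet_Icc, Measure.restrict_restrict measurableSet_Icc]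
  have : Icc (0:ℝ) (3/4) ∩ Icc (0:ℝ) 1 = Icc (0:ℝ) (3/4) := by
    apply inter_eq_left.mpr
    apply Icc_subset_Icc_right; norm_num
  rw [this, integral_const_mul]

lemma int_fn_fn (m n : ℕ) : ∫ t, fn m t * fn n t ∂mu = if m = n then 1 else 0 := by
  rw [int_fn]
  have h1 : ∫ t in Icc (0:ℝ) (3/4), cs m t * fn n t = A n * ∫ t in Icc (0:ℝ) (3/4), cs m t * cs n t := by
    rw [← integral_const_mul]
    apply setIntegral_congr_fun measurableSet_Icc
    intro t ht
    simp only [fn, indicator_of_mem ht]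
    ring
  rw [h1, integral_Icc_eq_integral_Ioc, ← intervalIntegral.integral_of_le (by norm_num)]
  have h2 : ∫ t in (0:ℝ)..(3/4), cs m t * cs n t =
      (3/4) * ∫ t in (0:ℝ)..1, Real.cos (m * Real.pi * t) * Real.cos (n * Real.pi * t) := by
    unfold cs
    have := intervalIntegral.integral_comp_mul_left (a := 0) (b := 3/4)
      (fun x => Real.cos (m * Real.pi * x) * Real.cos (n * Real.pi * x)) (c := 4/3) (by norm_num)
    rw [this]
    norm_num
  rw [h2]
  split_ifs with h
  · subst h
    by_cases hm : m = 0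
    · subst hm
      have := A_sq_zero
      simp only [CharP.cast_eq_zero, zero_mul, Real.cos_zero, mul_one,
        intervalIntegral.integral_const, sub_zero, smul_eq_mul]
      nlinarith
    · rw [int_cos_sq m hm]
      have := A_sq m hm
      nlinarith
  · rw [int_cos_cos m n h]
    ring

noncomputable def phi (n : ℕ) : Lp ℝ 2 mu := (fn_memLp n).toLp (fn n)

lemma inner_phi (n : ℕ) (g : Lp ℝ 2 mu) : inner ℝ (phi n) g = ∫ t, fn n t * g t ∂mu := by
  rw [MeasureTheory.L2.inner_def]
  apply integral_congr_ae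
  filter_upwards [(fn_memLp n).coeFn_toLp] with t ht
  unfold phi
  rw [ht]
  simp [mul_comm]

lemma phi_orthonormal : Orthonormal ℝ phi := by
  rw [orthonormal_iff_ite]
  intro i j
  rw [inner_phi, ← int_fn_fn]
  apply integral_congr_ae
  filter_upwards [(fn_memLp j).coeFn_toLp] with t ht
  unfold phi
  rw [ht]


/-- cosines as continuous maps on [0,3/4] -/
noncomputable def ce (n : ℕ) : C(Icc (0:ℝ) (3/4), ℝ) := ⟨fun t => cs n t, by
  have := cs_cont n
  fun_prop⟩

lemma ce_mul (n : ℕ) : ce 1 * ce (n+1) = (1/2 : ℝ) • ce (n+2) + (1/2 : ℝ) • ce n := by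
  ext t
  change cs 1 t * cs (n+1) t = (1/2) * cs (n+2) t + (1/2) * cs n t
  unfold cs
  have h1 : ((n+2 : ℕ) : ℝ) * Real.pi * (4/3 * t) =
    ((n+1 : ℕ) : ℝ) * Real.pi * (4/3 * t) + ((1 : ℕ) : ℝ) * Real.pi * (4/3 * t) := by
    push_cast; ring
  have h2 : (n : ℝ) * Real.pi * (4/3 * t) =
    ((n+1 : ℕ) : ℝ) * Real.pi * (4/3 * t) - ((1 : ℕ) : ℝ) * Real.pi * (4/3 * t) := by
    push_cast; ring
  rw [h1, h2, Real.cos_add, Real.cos_sub]
  ring

lemma ce_zero : ce 0 = 1 := by
  ext t
  change cs 0 t = 1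
  simp [cs]

lemma ce_pow (k : ℕ) : (ce 1) ^ k ∈ Submodule.span ℝ (range ce) := by
  induction k with
  | zero =>
    rw [pow_zero, ← ce_zero]
    exact Submodule.subset_span ⟨0, rfl⟩
  | succ k ih =>
    rw [pow_succ']
    generalize (ce 1) ^ k = g at ih
    induction ih using Submodule.span_induction with
    | mem x hx =>
      obtain ⟨n, rfl⟩ := hx
      rcases n with _ | n
      · rw [ce_zero, mul_one]
        exact Submodule.subset_span ⟨1, rfl⟩
      · rw [ce_mul]
        apply Submodule.add_mem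
        · apply Submodule.smul_mem
          exact Submodule.subset_span ⟨_, rfl⟩
        · apply Submodule.smul_mem
          exact Submodule.subset_span ⟨_, rfl⟩
    | zero => simp
    | add x y _ _ hx hy => rw [mul_add]; exact Submodule.add_mem _ hx hy
    | smul a x _ hx =>
      rw [mul_smul_comm]
      exact Submodule.smul_mem _ _ hx

lemma closure_top : (Submodule.span ℝ (range ce)).topologicalClosure = ⊤ := by
  set A : Subalgebra ℝ C(Icc (0:ℝ) (3/4), ℝ) := Algebra.adjoin ℝ {ce 1} with hA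
  have hAW : (Subalgebra.toSubmodule A) ≤ Submodule.span ℝ (range ce) := by
    rw [hA, Algebra.adjoin_eq_span, Submodule.span_le]
    intro g hg
    rw [SetLike.mem_coe, Submonoid.mem_closure_singleton] at hg
    obtain ⟨k, rfl⟩ := hg
    exact ce_pow k
  have hsep : A.SeparatesPoints := by
    intro x y hxy
    refine ⟨ce 1, ⟨ce 1, Algebra.subset_adjoin rfl, rfl⟩, ?_⟩
    intro h
    apply hxy
    change Real.cos _ = Real.cos _ at h
    simp only [Nat.cast_one, one_mul] at h
    have hx : Real.pi * (4/3 * (x:ℝ)) ∈ Icc 0 Real.pi := by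
      constructor
      · exact mul_nonneg Real.pi_pos.le (mul_nonneg (by norm_num) x.2.1)
      · have := x.2.2
        nlinarith [Real.pi_pos]
    have hy : Real.pi * (4/3 * (y:ℝ)) ∈ Icc 0 Real.pi := by
      constructor
      · exact mul_nonneg Real.pi_pos.le (mul_nonneg (by norm_num) y.2.1)
      · have := y.2.2
        nlinarith [Real.pi_pos]
    have := Real.injOn_cos hx hy h
    have := mul_left_cancel₀ Real.pi_ne_zero this
    have := mul_left_cancel₀ (by norm_num) this
    exact Subtype.ext this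
  have htop := ContinuousMap.subalgebra_topologicalClosure_eq_top_of_separatesPoints A hsep
  rw [eq_top_iff]
  intro g _
  have hg : g ∈ A.topologicalClosure := by rw [htop]; trivial
  exact closure_mono hAW hg

lemma complete (ψ : ℝ → ℝ) (hψ : IntegrableOn ψ (Icc (0:ℝ) (3/4)))
    (h : ∀ n, ∫ t in Icc (0:ℝ) (3/4), cs n t * ψ t = 0) :
    ∀ᵐ t, t ∈ Ioo (0:ℝ) (3/4) → ψ t = 0 := by
  have hle : (0:ℝ) ≤ 3/4 := by norm_num
  set B : ℝ := ∫ t in Icc (0:ℝ) (3/4), |ψ t| with hB
  have hB0 : 0 ≤ B := integral_nonneg (fun t => abs_nonneg _)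
  -- integrals against continuous functions vanish
  have key : ∀ G : ℝ → ℝ, Continuous G → ∫ t in Icc (0:ℝ) (3/4), G t * ψ t = 0 := by
    intro G hG
    by_contra hne
    set I : ℝ := ∫ t in Icc (0:ℝ) (3/4), G t * ψ t with hI
    have hIpos : 0 < |I| := abs_pos.mpr hne
    set g : C(Icc (0:ℝ) (3/4), ℝ) := ⟨fun t => G t, by fun_prop⟩ with hg
    have hmem : g ∈ closure ((Submodule.span ℝ (range ce) : Submodule ℝ _) :
        Set C(Icc (0:ℝ) (3/4), ℝ)) := by
      have : g ∈ (Submodule.span ℝ (range ce)).topologicalClosure := by rw [closure_top]; trivial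
      exact this
    rw [Metric.mem_closure_iff] at hmem
    have hε : 0 < |I| / (B + 1) := by positivity
    obtain ⟨w, hw, hd⟩ := hmem _ hε
    rw [SetLike.mem_coe, Finsupp.mem_span_range_iff_exists_finsupp] at hw
    obtain ⟨c, hc⟩ := hw
    set P : ℝ → ℝ := fun t => ∑ i ∈ c.support, c i * cs i t with hP
    have hPc : Continuous P := by
      apply continuous_finsetSum
      intro i _
      exact continuous_const.mul (cs_cont i)
    have hPint : ∫ t in Icc (0:ℝ) (3/4), P t * ψ t = 0 := by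
      have h1 : ∀ t, P t * ψ t = ∑ i ∈ c.support, c i * (cs i t * ψ t) := by
        intro t
        rw [hP]
        simp only [Finset.sum_mul, mul_assoc]
      simp_rw [h1]
      rw [integral_finsetSum]
      · simp_rw [integral_const_mul, h]
        simp
      · intro i _
        apply Integrable.const_mul
        exact hψ.continuousOn_mul (cs_cont i).continuousOn isCompact_Icc
    have hdiff : ∀ t ∈ Icc (0:ℝ) (3/4), |G t - P t| ≤ |I| / (B + 1) := by
      intro t ht
      rw [dist_eq_norm] at hd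
      have h2 := (lt_of_le_of_lt ((g - w).norm_coe_le_norm ⟨t, ht⟩) hd).le
      rw [Real.norm_eq_abs] at h2
      have h3 : (g - w) ⟨t, ht⟩ = G t - P t := by
        rw [← hc, Finsupp.sum]
        simp only [ContinuousMap.sub_apply, ContinuousMap.sum_apply, ContinuousMap.smul_apply,
          smul_eq_mul]
        rfl
      rwa [h3] at h2
    have hI2 : I = ∫ t in Icc (0:ℝ) (3/4), (G t - P t) * ψ t := by
      have h1 : ∀ t, (G t - P t) * ψ t = G t * ψ t - P t * ψ t := fun t => by ring
      simp_rw [h1]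
      rw [integral_sub, hPint, sub_zero]
      · exact hψ.continuousOn_mul hG.continuousOn isCompact_Icc
      · exact hψ.continuousOn_mul hPc.continuousOn isCompact_Icc
    have hbound : |I| ≤ |I| / (B + 1) * B := by
      calc |I| = ‖∫ t in Icc (0:ℝ) (3/4), (G t - P t) * ψ t‖ := by rw [← hI2, Real.norm_eq_abs]
        _ ≤ ∫ t in Icc (0:ℝ) (3/4), |I| / (B + 1) * |ψ t| := by
            apply norm_integral_le_of_norm_le
            · exact (hψ.abs).const_mul _
            · rw [ae_restrict_iff' measurableSet_Icc]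
              filter_upwards with t ht
              rw [norm_mul, Real.norm_eq_abs, Real.norm_eq_abs]
              exact mul_le_mul_of_nonneg_right (hdiff t ht) (abs_nonneg _)
        _ = _ := by rw [integral_const_mul]
    have : |I| / (B + 1) * B < |I| := by
      rw [div_mul_eq_mul_div, div_lt_iff₀ (by positivity)]
      nlinarith
    linarith
  apply IsOpen.ae_eq_zero_of_integral_contDiff_smul_eq_zero isOpen_Ioo
  · apply IntegrableOn.locallyIntegrableOn
    exact hψ.mono_set Ioo_subset_Icc_self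
  · intro g hg1 hg2 hg3
    rw [← key g hg1.continuous]
    rw [← integral_indicator measurableSet_Icc]
    apply integral_congr_ae
    filter_upwards with t
    simp only [smul_eq_mul]
    by_cases ht : t ∈ Icc (0:ℝ) (3/4)
    · rw [indicator_of_mem ht]
    · rw [indicator_of_notMem ht]
      have : g t = 0 := by
        apply image_eq_zero_of_notMem_tsupport
        intro h'
        exact ht (Ioo_subset_Icc_self (hg3 h'))
      rw [this, zero_mul]

/-- disjoint pieces of (3/4,1] -/
def pc (k : ℕ) : Set ℝ := Ioc (1 - 1/(4*((k:ℝ)+1))) (1 - 1/(4*((k:ℝ)+2)))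

lemma pc_meas (k : ℕ) : MeasurableSet (pc k) := measurableSet_Ioc

lemma pc_bounds (k : ℕ) : 3/4 ≤ 1 - 1/(4*((k:ℝ)+1)) ∧ 1 - 1/(4*((k:ℝ)+1)) < 1 - 1/(4*((k:ℝ)+2)) ∧
    1 - 1/(4*((k:ℝ)+2)) < 1 := by
  have hk : (0:ℝ) ≤ k := Nat.cast_nonneg k
  refine ⟨?_, ?_, ?_⟩
  · have : 1/(4*((k:ℝ)+1)) ≤ 1/4 := by
      apply one_div_le_one_div_of_le <;> linarith
    linarith
  · have : 1/(4*((k:ℝ)+2)) < 1/(4*((k:ℝ)+1)) := by
      apply one_div_lt_one_div_of_lt <;> linarith
    linarith
  · have : 0 < 1/(4*((k:ℝ)+2)) := by positivity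
    linarith

lemma pc_disj (j k : ℕ) (h : j < k) (t : ℝ) (h1 : t ∈ pc j) (h2 : t ∈ pc k) : False := by
  have e1 := h1.2
  have e2 := h2.1
  have : 1/(4*((k:ℝ)+1)) ≤ 1/(4*((j:ℝ)+2)) := by
    have hjk : (j:ℝ) + 1 ≤ k := by exact_mod_cast h
    have hj : (0:ℝ) ≤ j := Nat.cast_nonneg j
    apply one_div_le_one_div_of_le <;> linarith
  linarith

noncomputable def gk (k : ℕ) : ℝ → ℝ := (pc k).indicator (fun _ => (1:ℝ))

lemma gk_meas (k : ℕ) : Measurable (gk k) := measurable_const.indicator (pc_meas k)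

lemma gk_memLp (k : ℕ) : MemLp (gk k) 2 mu := by
  apply MemLp.of_bound (gk_meas k).aestronglyMeasurable 1
  filter_upwards with t
  unfold gk indicator
  split_ifs <;> simp

noncomputable def Gk (k : ℕ) : Lp ℝ 2 mu := (gk_memLp k).toLp (gk k)

lemma inner_Gk (k j : ℕ) : inner ℝ (Gk k) (Gk j) = ∫ t, gk k t * gk j t ∂mu := by
  rw [MeasureTheory.L2.inner_def]
  apply integral_congr_ae
  filter_upwards [(gk_memLp k).coeFn_toLp, (gk_memLp j).coeFn_toLp] with t ht ht'
  unfold Gk
  rw [ht, ht']
  simp [mul_comm]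

lemma Gk_orth (j k : ℕ) (h : j ≠ k) : inner ℝ (Gk j) (Gk k) = 0 := by
  rw [inner_Gk]
  have : ∀ t, gk j t * gk k t = 0 := by
    intro t
    unfold gk indicator
    split_ifs with h1 h2
    · exfalso
      rcases lt_or_gt_of_ne h with h' | h'
      · exact pc_disj j k h' t h1 h2
      · exact pc_disj k j h' t h2 h1
    all_goals simp
  simp_rw [this]
  simp

lemma Gk_ne (k : ℕ) : Gk k ≠ 0 := by
  intro h0
  have h1 : inner ℝ (Gk k) (Gk k) = 0 := by rw [h0]; simp
  rw [inner_Gk] at h1
  have h2 : ∀ t, gk k t * gk k t = (pc k).indicator (fun _ => (1:ℝ)) t := by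
    intro t
    unfold gk indicator
    split_ifs <;> simp
  simp_rw [h2] at h1
  rw [integral_indicator (pc_meas k), Measure.restrict_restrict (pc_meas k)] at h1
  have h3 : pc k ∩ Icc (0:ℝ) 1 = pc k := by
    apply inter_eq_left.mpr
    intro t ht
    obtain ⟨b1, b2, b3⟩ := pc_bounds k
    exact ⟨by linarith [ht.1], by linarith [ht.2]⟩
  rw [h3] at h1
  obtain ⟨b1, b2, b3⟩ := pc_bounds k
  simp only [pc, integral_const, MeasurableSet.univ, measureReal_restrict_apply, univ_inter,
    Real.volume_real_Ioc, smul_eq_mul, mul_one] at h1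
  rw [max_eq_left (by linarith)] at h1
  linarith

lemma Gk_mem (k : ℕ) : Gk k ∈ (Submodule.span ℝ (Set.range phi))ᗮ := by
  rw [Submodule.mem_orthogonal]
  intro u hu
  induction hu using Submodule.span_induction with
  | mem x hx =>
    obtain ⟨n, rfl⟩ := hx
    rw [inner_phi]
    have : ∀ᵐ t ∂mu, fn n t * (Gk k : ℝ → ℝ) t = 0 := by
      filter_upwards [(gk_memLp k).coeFn_toLp] with t ht
      unfold Gk
      rw [ht]
      unfold fn gk indicator
      split_ifs with h1 h2
      · exfalso
        obtain ⟨b1, b2, b3⟩ := pc_bounds k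
        have := h1.2
        have := h2.1
        linarith
      all_goals simp
    rw [integral_congr_ae this]
    simp
  | zero => simp
  | add x y _ _ hx hy => rw [inner_add_left, hx, hy, add_zero]
  | smul a x _ hx => rw [inner_smul_left, hx, mul_zero]

lemma infinite_dim : ¬ FiniteDimensional ℝ (Submodule.orthogonal (Submodule.span ℝ (Set.range phi))) := by
  intro hfd
  have hli : LinearIndependent ℝ (fun k => (⟨Gk k, Gk_mem k⟩ :
      (Submodule.span ℝ (Set.range phi))ᗮ)) := by
    apply LinearIndependent.of_comp (Submodule.subtype _)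
    exact linearIndependent_of_ne_zero_of_inner_eq_zero (fun k => Gk_ne k)
      (fun i j h => Gk_orth i j h)
  have := hli.finite_of_isNoetherian
  exact not_finite ℕ

theorem result :
    ¬ (∀ (M : ℝ) (φ : ℕ → MeasureTheory.Lp ℝ 2 (volume.restrict (Set.Icc (0:ℝ) 1))),
      Orthonormal ℝ φ →
      (∀ n, ∀ᵐ x ∂(volume.restrict (Set.Icc (0:ℝ) 1)), |(φ n : ℝ → ℝ) x| ≤ M) →
      ¬ FiniteDimensional ℝ (Submodule.orthogonal (Submodule.span ℝ (Set.range φ))) →
      ∃ ψ : ℕ → MeasureTheory.Lp ℝ 2 (volume.restrict (Set.Icc (0:ℝ) 1)),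
        (∀ k, ∀ᵐ x ∂(volume.restrict (Set.Icc (0:ℝ) 1)), |(ψ k : ℝ → ℝ) x| ≤ M) ∧
        Orthonormal ℝ (Sum.elim φ ψ) ∧
        (Submodule.span ℝ (Set.range (Sum.elim φ ψ))).topologicalClosure = ⊤) := by
  intro H
  obtain ⟨ψ, hb, ho, -⟩ := H (Real.sqrt (8/3)) phi phi_orthonormal (by
    intro n
    filter_upwards [(fn_memLp n).coeFn_toLp] with t ht
    unfold phi
    rw [ht]
    exact fn_bound n t) infinite_dim
  set f : Lp ℝ 2 mu := ψ 0 with hf
  have hnorm : inner ℝ f f = 1 := by
    have := ho.1 (Sum.inr 0)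
    simp only [Sum.elim_inr] at this
    rw [real_inner_self_eq_norm_sq, hf, this]
    norm_num
  have hort : ∀ n, inner ℝ (phi n) f = 0 := by
    intro n
    have := ho.2 (i := Sum.inl n) (j := Sum.inr 0) (by simp)
    simpa using this
  have hfint : Integrable (f : ℝ → ℝ) mu := by
    exact (Lp.memLp f).integrable (by norm_num)
  have hfint' : IntegrableOn (f : ℝ → ℝ) (Icc (0:ℝ) (3/4)) := by
    have : IntegrableOn (f : ℝ → ℝ) (Icc (0:ℝ) 1) := hfint
    exact this.mono_set (Icc_subset_Icc_right (by norm_num))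
  have hA : ∀ n, A n ≠ 0 := by
    intro n
    by_cases hn : n = 0
    · subst hn
      intro h; have := A_sq_zero; rw [h] at this; norm_num at this
    · intro h; have := A_sq n hn; rw [h] at this; norm_num at this
  have hzero := complete f hfint' (by
    intro n
    have := hort n
    rw [inner_phi, int_fn] at this
    rcases mul_eq_zero.mp this with h | h
    · exact absurd h (hA n)
    · exact h)
  -- bound the norm
  have hsq : inner ℝ f f = ∫ t in Icc (0:ℝ) 1, (f t) ^ 2 := by
    rw [MeasureTheory.L2.inner_def]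
    apply integral_congr_ae
    filter_upwards with t
    simp [sq]
  have hle : ∫ t in Icc (0:ℝ) 1, (f t) ^ 2 ≤ ∫ t in Icc (0:ℝ) 1, (Icc (3/4:ℝ) 1).indicator (fun _ => (8/3:ℝ)) t := by
    apply integral_mono_of_nonneg
    · filter_upwards with t
      positivity
    · apply Integrable.indicator _ measurableSet_Icc
      exact integrable_const _
    · have h0 : ∀ᵐ t ∂(volume.restrict (Icc (0:ℝ) 1)), t ∈ Ioo (0:ℝ) (3/4) → f t = 0 :=
        ae_restrict_of_ae hzero
      have h1 : ∀ᵐ t ∂(volume.restrict (Icc (0:ℝ) 1)), t ∈ Icc (0:ℝ) 1 :=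
        ae_restrict_mem measurableSet_Icc
      have h2 : ∀ᵐ t ∂(volume.restrict (Icc (0:ℝ) 1)), t ≠ 0 := by
        apply ae_restrict_of_ae
        simp [ae_iff]
      filter_upwards [h0, h1, h2, hb 0] with t a1 a2 a3 a4
      by_cases ht : t ∈ Icc (3/4:ℝ) 1
      · rw [indicator_of_mem ht]
        have : (f t) ^ 2 ≤ (Real.sqrt (8/3)) ^ 2 := by
          rw [← sq_abs]
          apply pow_le_pow_left₀ (abs_nonneg _) a4
        rwa [Real.sq_sqrt (by norm_num)] at this
      · have ht' : t ∈ Ioo (0:ℝ) (3/4) := by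
          refine ⟨lt_of_le_of_ne a2.1 (Ne.symm a3), ?_⟩
          by_contra h
          exact ht ⟨not_lt.mp h, a2.2⟩
        rw [a1 ht', indicator_of_notMem ht]
        norm_num
  rw [integral_indicator measurableSet_Icc, Measure.restrict_restrict measurableSet_Icc] at hle
  have h3 : Icc (3/4:ℝ) 1 ∩ Icc (0:ℝ) 1 = Icc (3/4:ℝ) 1 := by
    apply inter_eq_left.mpr
    apply Icc_subset_Icc_left; norm_num
  rw [h3] at hle
  simp only [integral_const, MeasurableSet.univ, measureReal_restrict_apply, univ_inter,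
    Real.volume_real_Icc, smul_eq_mul] at hle
  rw [← hsq, hnorm, max_eq_left (by norm_num)] at hle
  norm_num at hle

end Pool.Agent.S03442
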