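import Pool.Statements.S03446
import Pool.Agent.Helper551.Topo

set_option autoImplicit false
open MeasureTheory
open Pool Pool.MP_7dd24e_an

namespace Pool.Agent.S03446

/-- The negation of the preceding statement: If two nested topological spheres in R^3 bound a shell whose Newtonian potential is constant in the inner cavity, then the two surfaces are the images of concentric spheres of radii 1 and k<1 under one invertible affine map. -/
theorem result :
    ¬ (∀ (S S₁ U T₁ : Set (EuclideanSpace ℝ (Fin 3))),
    Nonempty (S ≃ₜ Metric.sphere (0 : EuclideanSpace ℝ (Fin 3)) 1) →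
    Nonempty (S₁ ≃ₜ Metric.sphere (0 : EuclideanSpace ℝ (Fin 3)) 1) →
    IsOpen U → IsConnected U → Bornology.IsBounded U → frontier U = S →
    IsOpen T₁ → IsConnected T₁ → Bornology.IsBounded T₁ → frontier T₁ = S₁ →
    closure T₁ ⊆ U →
    (∃ c : ℝ, ∀ P ∈ T₁, ∫ M in U \ closure T₁, (dist P M)⁻¹ = c) →
    ∃ (f : EuclideanSpace ℝ (Fin 3) ≃ᵃ[ℝ] EuclideanSpace ℝ (Fin 3)) (k : ℝ),
      0 < k ∧ k < 1 ∧
      S = f '' Metric.sphere (0 : EuclideanSpace ℝ (Fin 3)) 1 ∧
      S₁ = f '' Metric.sphere (0 : EuclideanSpace ℝ (Fin 3)) k) := by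
  intro H
  obtain ⟨f, k, _, _, hS, _⟩ := H (frontier Helper551.UU) (frontier Helper551.TT) Helper551.UU Helper551.TT
    Helper551.UU_star.homeo Helper551.TT_star.homeo
    Helper551.UU_star.op Helper551.UU_star.connected Helper551.UU_star.bd rfl
    Helper551.TT_star.op Helper551.TT_star.connected Helper551.TT_star.bd rfl
    Helper551.TT_closure_sub
    ⟨Helper551.cc, fun P hP => by
      rw [Helper551.TT_closure]
      exact Helper551.shell_const Helper551.UU_dom P hP⟩
  exact Helper551.not_ellipsoid f hS

end Pool.Agent.S03446
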