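import Pool.Statements.S03450

set_option autoImplicit false
open Filter Topology
open Pool Pool.MP_7de1bc_an


open scoped ENNReal

namespace Pool.Agent.S03450.JQ

/-- sequences of pairwise disjoint order-connected sets of rationals -/
def Ix : Type := {J : ℕ → Set ℚ // (∀ i, (J i).OrdConnected) ∧ ∀ i j, i ≠ j → Disjoint (J i) (J j)}

noncomputable abbrev H := lp (fun _ : ℕ => ℝ) 2
noncomputable abbrev Z := lp (fun _ : Ix => H) ⊤

open Classical in
noncomputable def ev (q : ℚ) (J : Ix) : H :=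
  if h : ∃ i, q ∈ J.1 i then lp.single 2 h.choose (1 : ℝ) else 0

open Classical in
lemma ev_apply (q : ℚ) (J : Ix) (i : ℕ) : (ev q J) i = if q ∈ J.1 i then 1 else 0 := by
  unfold ev
  by_cases h : ∃ i, q ∈ J.1 i
  · rw [dif_pos h]
    rw [lp.single_apply]
    by_cases hi : q ∈ J.1 i
    · have : i = h.choose := by
        by_contra hne
        exact (Set.disjoint_left.1 (J.2.2 _ _ hne)) hi h.choose_spec
      rw [if_pos hi, this]
      simp
    · have : i ≠ h.choose := by
        intro heq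
        rw [heq] at hi
        exact hi h.choose_spec
      rw [if_neg hi]
      simp [this]
  · rw [dif_neg h]
    have hi : q ∉ J.1 i := fun hi => h ⟨i, hi⟩
    rw [if_neg hi]
    rfl

lemma ev_norm (q : ℚ) (J : Ix) : ‖ev q J‖ ≤ 1 := by
  unfold ev
  split_ifs with h
  · rw [lp.norm_single (by norm_num)]; simp
  · simp

noncomputable def e (q : ℚ) : Z :=
  ⟨fun J => ev q J, memℓp_infty ⟨1, by rintro _ ⟨J, rfl⟩; exact ev_norm q J⟩⟩

lemma e_apply (q : ℚ) (J : Ix) : (e q) J = ev q J := rfl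

noncomputable def XS : Submodule ℝ Z := (Submodule.span ℝ (Set.range e)).topologicalClosure

/-- the Banach space -/
def X : Type := XS

noncomputable instance : NormedAddCommGroup X := inferInstanceAs (NormedAddCommGroup XS)
noncomputable instance : NormedSpace ℝ X := inferInstanceAs (NormedSpace ℝ XS)

instance : CompleteSpace X :=
  (Submodule.isClosed_topologicalClosure (Submodule.span ℝ (Set.range e))).completeSpace_coe

instance : TopologicalSpace.SeparableSpace X := by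
  have h1 : TopologicalSpace.IsSeparable (Set.range e) := (Set.countable_range e).isSeparable
  have h2 : TopologicalSpace.IsSeparable ((Submodule.span ℝ (Set.range e) : Submodule ℝ Z) : Set Z) :=
    h1.span
  have h3 : TopologicalSpace.IsSeparable ((XS : Submodule ℝ Z) : Set Z) := h2.closure
  exact h3.separableSpace

noncomputable def toZ : X →L[ℝ] Z := XS.subtypeL

lemma toZ_mem (v : X) : toZ v ∈ XS := Subtype.prop (p := fun x => x ∈ XS) v

lemma norm_toZ (v : X) : ‖toZ v‖ = ‖v‖ := rfl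

noncomputable def mkX (v : Z) (hv : v ∈ XS) : X := (⟨v, hv⟩ : XS)

lemma toZ_mkX (v : Z) (hv : v ∈ XS) : toZ (mkX v hv) = v := rfl

lemma toZ_inj (u v : X) (h : toZ u = toZ v) : u = v := Subtype.ext h

noncomputable def eX (q : ℚ) : X :=
  mkX (e q) (Submodule.le_topologicalClosure _ (Submodule.subset_span ⟨q, rfl⟩))

lemma toZ_eX (q : ℚ) : toZ (eX q) = e q := rfl

/-- components -/
noncomputable def cp (J : Ix) : X →L[ℝ] H := (lp.evalCLM ℝ (fun _ : Ix => H) ⊤ J).comp toZ

lemma cp_apply (J : Ix) (v : X) : cp J v = (toZ v) J := rfl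

lemma cp_eX (J : Ix) (q : ℚ) : cp J (eX q) = ev q J := rfl

lemma cp_le (J : Ix) (v : X) : ‖cp J v‖ ≤ ‖v‖ := lp.norm_apply_le_norm (by simp) (toZ v) J

/-- the trivial index -/
def J0 : Ix := ⟨fun _ => ∅, fun _ => Set.ordConnected_empty, fun _ _ _ => by simp⟩

lemma norm_le_of_cp (v : X) (C : ℝ) (h : ∀ J, ‖cp J v‖ ≤ C) : ‖v‖ ≤ C :=
  haveI : Nonempty Ix := ⟨J0⟩
  lp.norm_le_of_forall_le' (f := toZ v) C h

/-- index of a single interval -/
def JS (S : Set ℚ) (hS : S.OrdConnected) : Ix := ⟨fun i => if i = 0 then S else ∅, by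
  constructor
  · intro i
    change (if i = 0 then S else ∅ : Set ℚ).OrdConnected
    split_ifs
    · exact hS
    · exact Set.ordConnected_empty
  · intro i j hij
    by_cases hi : i = 0
    · have : j ≠ 0 := fun h => hij (hi.trans h.symm)
      simp [this]
    · simp [hi]⟩

noncomputable def fS (S : Set ℚ) (hS : S.OrdConnected) : X →L[ℝ] ℝ :=
  (lp.evalCLM ℝ (fun _ : ℕ => ℝ) 2 0).comp (cp (JS S hS))

open Classical in
lemma fS_eX (S : Set ℚ) (hS : S.OrdConnected) (q : ℚ) :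
    fS S hS (eX q) = if q ∈ S then 1 else 0 := by
  change (ev q (JS S hS)) 0 = _
  rw [ev_apply]
  simp [JS]

lemma fS_le (S : Set ℚ) (hS : S.OrdConnected) (v : X) : |fS S hS v| ≤ ‖v‖ := by
  have h1 : ‖(cp (JS S hS) v) 0‖ ≤ ‖cp (JS S hS) v‖ := lp.norm_apply_le_norm (by norm_num) _ 0
  exact h1.trans (cp_le _ v)

/-- extensionality of functionals on unit vectors -/
lemma clm_ext (f g : X →L[ℝ] ℝ) (h : ∀ q, f (eX q) = g (eX q)) (v : X) : f v = g v := by
  have hcl : IsClosed {x : X | f x = g x} := isClosed_eq f.continuous g.continuous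
  have hd : v ∈ closure ((Submodule.span ℝ (Set.range eX) : Submodule ℝ X) : Set X) := by
    rw [Metric.mem_closure_iff]
    intro ε hε
    have hv : toZ v ∈ closure ((Submodule.span ℝ (Set.range e) : Submodule ℝ Z) : Set Z) := toZ_mem v
    rw [Metric.mem_closure_iff] at hv
    obtain ⟨u, hu, hd⟩ := hv ε hε
    have huX : u ∈ XS := Submodule.le_topologicalClosure _ hu
    refine ⟨mkX u huX, ?_, hd⟩
    rw [SetLike.mem_coe, Finsupp.mem_span_range_iff_exists_finsupp] at hu
    obtain ⟨c, hc⟩ := hu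
    have : mkX u huX = c.sum fun i a => a • eX i := by
      apply toZ_inj
      rw [toZ_mkX, ← hc, Finsupp.sum, Finsupp.sum, map_sum]
      rfl
    rw [this]
    exact Submodule.sum_mem _ (fun q _ => Submodule.smul_mem _ _ (Submodule.subset_span ⟨q, rfl⟩))
  have hsub : ((Submodule.span ℝ (Set.range eX) : Submodule ℝ X) : Set X) ⊆ {x : X | f x = g x} := by
    intro x hx
    induction hx using Submodule.span_induction with
    | mem x hx => obtain ⟨q, rfl⟩ := hx; exact h q
    | zero => simp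
    | add x y _ _ hx hy =>
      change f (x + y) = g (x + y)
      rw [map_add, map_add]
      rw [show f x = g x from hx, show f y = g y from hy]
    | smul a x _ hx =>
      change f (a • x) = g (a • x)
      rw [map_smul, map_smul, show f x = g x from hx]
  exact (closure_minimal hsub hcl) hd

lemma dense_span (v : X) (δ : ℝ) (hδ : 0 < δ) :
    ∃ u ∈ Submodule.span ℝ (Set.range eX), ‖v - u‖ < δ := by
  have hv : toZ v ∈ closure ((Submodule.span ℝ (Set.range e) : Submodule ℝ Z) : Set Z) := toZ_mem v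
  rw [Metric.mem_closure_iff] at hv
  obtain ⟨u, hu, hd⟩ := hv δ hδ
  have huX : u ∈ XS := Submodule.le_topologicalClosure _ hu
  refine ⟨mkX u huX, ?_, ?_⟩
  · rw [SetLike.mem_coe, Finsupp.mem_span_range_iff_exists_finsupp] at hu
    obtain ⟨c, hc⟩ := hu
    have : mkX u huX = c.sum fun i a => a • eX i := by
      apply toZ_inj
      rw [toZ_mkX, ← hc, Finsupp.sum, Finsupp.sum, map_sum]
      rfl
    rw [this]
    exact Submodule.sum_mem _ (fun q _ => Submodule.smul_mem _ _ (Submodule.subset_span ⟨q, rfl⟩))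
  · rw [dist_eq_norm] at hd
    exact hd

lemma cp_coord (J : Ix) (i : ℕ) (v : X) : (cp J v) i = fS (J.1 i) (J.2.1 i) v := by
  have := clm_ext ((lp.evalCLM ℝ (fun _ : ℕ => ℝ) 2 i).comp (cp J)) (fS (J.1 i) (J.2.1 i)) (by
    intro q
    rw [fS_eX]
    change (ev q J) i = _
    rw [ev_apply]) v
  exact this

lemma fS_diff (A B : Set ℚ) (hA : IsLowerSet A) (hB : IsLowerSet B) (hAB : A ⊆ B)
    (hD : (B \ A).OrdConnected) (v : X) :
    fS (B \ A) hD v = fS B hB.ordConnected v - fS A hA.ordConnected v := by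
  have := clm_ext (fS (B \ A) hD) (fS B hB.ordConnected - fS A hA.ordConnected) (by
    intro q
    change _ = fS B hB.ordConnected (eX q) - fS A hA.ordConnected (eX q)
    rw [fS_eX, fS_eX, fS_eX]
    by_cases h1 : q ∈ A
    · have h2 := hAB h1
      simp [h1, h2]
    · by_cases h2 : q ∈ B <;> simp [h1, h2]) v
  exact this

lemma diff_ord (A B : Set ℚ) (hA : IsLowerSet A) (hB : IsLowerSet B) : (B \ A).OrdConnected := by
  rw [Set.ordConnected_def]
  intro x hx y hy z hz
  refine ⟨hB hz.2 hy.1, fun hzA => hx.2 (hA hz.1 hzA)⟩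

/-- finitely many disjoint intervals -/
lemma sum_sq_le (J : Ix) (v : X) (F : Finset ℕ) :
    ∑ i ∈ F, (fS (J.1 i) (J.2.1 i) v)^2 ≤ ‖v‖^2 := by
  have h := lp.sum_rpow_le_norm_rpow (p := 2) (by norm_num) (cp J v) F
  have h2 := pow_le_pow_left₀ (norm_nonneg _) (cp_le J v) 2
  simp only [ENNReal.toReal_ofNat, Real.rpow_ofNat, Real.norm_eq_abs, sq_abs] at h
  refine le_trans ?_ (h.trans h2)
  apply le_of_eq
  apply Finset.sum_congr rfl
  intro i _
  rw [cp_coord]

/-- adding a vector that is small on all intervals -/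
def AddGood (s : X) : Prop := ∃ Λ : ℝ, 0 ≤ Λ ∧ ∀ (y : X) (δ : ℝ), 0 ≤ δ →
  (∀ (S : Set ℚ) (hS : S.OrdConnected), |fS S hS y| ≤ δ) → ∀ J, |inner ℝ (cp J s) (cp J y)| ≤ Λ * δ

lemma addGood_eX (q : ℚ) : AddGood (eX q) := by
  refine ⟨1, zero_le_one, fun y δ hδ hy J => ?_⟩
  rw [cp_eX, one_mul]
  unfold ev
  split_ifs with h
  · rw [lp.inner_single_left, cp_coord]
    simpa using hy _ _
  · simpa using hδ

lemma addGood_span (s : X) (hs : s ∈ Submodule.span ℝ (Set.range eX)) : AddGood s := by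
  induction hs using Submodule.span_induction with
  | mem x hx => obtain ⟨q, rfl⟩ := hx; exact addGood_eX q
  | zero => exact ⟨0, le_rfl, fun y δ hδ hy J => by simp⟩
  | add x y _ _ hx hy =>
    obtain ⟨a, ha, hx⟩ := hx
    obtain ⟨b, hb, hy⟩ := hy
    refine ⟨a + b, by positivity, fun z δ hδ hz J => ?_⟩
    rw [map_add, inner_add_left, add_mul]
    exact (abs_add_le _ _).trans (add_le_add (hx z δ hδ hz J) (hy z δ hδ hz J))
  | smul c x _ hx =>
    obtain ⟨a, ha, hx⟩ := hx
    refine ⟨|c| * a, by positivity, fun z δ hδ hz J => ?_⟩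
    rw [map_smul, inner_smul_left, abs_mul, mul_assoc]
    exact mul_le_mul_of_nonneg_left (hx z δ hδ hz J) (abs_nonneg _)

lemma add_norm_sq (s : X) (hs : AddGood s) : ∃ Λ : ℝ, 0 ≤ Λ ∧ ∀ (y : X) (δ : ℝ), 0 ≤ δ →
    (∀ (S : Set ℚ) (hS : S.OrdConnected), |fS S hS y| ≤ δ) →
    ‖s + y‖^2 ≤ ‖s‖^2 + ‖y‖^2 + 2 * (Λ * δ) := by
  obtain ⟨Λ, hΛ, h⟩ := hs
  refine ⟨Λ, hΛ, fun y δ hδ hy => ?_⟩
  have hnn : 0 ≤ ‖s‖^2 + ‖y‖^2 + 2 * (Λ * δ) := by positivity
  have : ‖s + y‖ ≤ Real.sqrt (‖s‖^2 + ‖y‖^2 + 2 * (Λ * δ)) := by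
    apply norm_le_of_cp
    intro J
    apply Real.le_sqrt_of_sq_le
    rw [map_add, @norm_add_sq_real]
    have h1 := h y δ hδ hy J
    have h2 := pow_le_pow_left₀ (norm_nonneg _) (cp_le J s) 2
    have h3 := pow_le_pow_left₀ (norm_nonneg _) (cp_le J y) 2
    have h4 := le_abs_self (inner ℝ (cp J s) (cp J y))
    linarith
  calc ‖s + y‖^2 ≤ (Real.sqrt (‖s‖^2 + ‖y‖^2 + 2 * (Λ * δ)))^2 :=
        pow_le_pow_left₀ (norm_nonneg _) this 2
    _ = _ := Real.sq_sqrt hnn

end Pool.Agent.S03450.JQ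

namespace Pool.Agent.S03450.JQ

/-- lower sets of rationals -/
abbrev LS := {A : Set ℚ // IsLowerSet A}

noncomputable def FF (x : X) (A : LS) : ℝ := fS A.1 A.2.ordConnected x

/-- chains of big intervals -/
def Ch (δ : ℝ) (x : X) : ℕ → LS → Prop
  | 0, _ => True
  | (k+1), L => ∃ A B : LS, A.1 ⊆ B.1 ∧ B.1 ⊆ L.1 ∧ Ch δ x k A ∧ δ < |FF x B - FF x A|

lemma Ch_mono (δ : ℝ) (x : X) (k : ℕ) (L L' : LS) (h : L.1 ⊆ L'.1) (hc : Ch δ x k L) :
    Ch δ x k L' := by
  cases k with
  | zero => trivial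
  | succ k =>
    obtain ⟨A, B, h1, h2, h3, h4⟩ := hc
    exact ⟨A, B, h1, h2.trans h, h3, h4⟩

lemma Ch_family (δ : ℝ) (x : X) (k : ℕ) (L : LS) (hc : Ch δ x k L) :
    ∃ J : Ix, (∀ i, J.1 i ⊆ L.1) ∧ (∀ i, k ≤ i → J.1 i = ∅) ∧
      ∀ i, i < k → δ < |fS (J.1 i) (J.2.1 i) x| := by
  induction k generalizing L with
  | zero => exact ⟨J0, fun i => Set.empty_subset _, fun i _ => rfl, fun i hi => absurd hi (Nat.not_lt_zero i)⟩
  | succ k ih =>
    obtain ⟨A, B, h1, h2, h3, h4⟩ := hc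
    obtain ⟨J, hJL, hJe, hJb⟩ := ih A h3
    have hD := diff_ord A.1 B.1 A.2 B.2
    refine ⟨⟨Function.update J.1 k (B.1 \ A.1), ?_, ?_⟩, ?_, ?_, ?_⟩
    · intro i
      by_cases hi : i = k
      · subst hi; rw [Function.update_self]; exact hD
      · rw [Function.update_of_ne hi]; exact J.2.1 i
    · intro i j hij
      by_cases hi : i = k
      · subst hi
        rw [Function.update_self, Function.update_of_ne (Ne.symm hij)]
        exact Set.disjoint_left.2 (fun q hq hq' => hq.2 (hJL j hq'))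
      · by_cases hj : j = k
        · subst hj
          rw [Function.update_self, Function.update_of_ne hi]
          exact Set.disjoint_left.2 (fun q hq hq' => hq'.2 (hJL i hq))
        · rw [Function.update_of_ne hi, Function.update_of_ne hj]
          exact J.2.2 i j hij
    · intro i
      by_cases hi : i = k
      · subst hi
        change Function.update J.1 i (B.1 \ A.1) i ⊆ L.1
        rw [Function.update_self]; exact Set.sdiff_subset.trans h2
      · change Function.update J.1 k (B.1 \ A.1) i ⊆ L.1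
        rw [Function.update_of_ne hi]; exact (hJL i).trans (h1.trans h2)
    · intro i hi
      change Function.update J.1 k (B.1 \ A.1) i = ∅
      rw [Function.update_of_ne (by omega)]
      exact hJe i (by omega)
    · intro i hi
      have key : ∀ (S T : Set ℚ) (hS : S.OrdConnected) (hT : T.OrdConnected), S = T →
          fS S hS x = fS T hT x := by
        intro S T hS hT hST; subst hST; rfl
      by_cases hik : i = k
      · subst hik
        have hself : Function.update J.1 i (B.1 \ A.1) i = B.1 \ A.1 := Function.update_self i _ _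
        rw [key _ (B.1 \ A.1) _ hD hself, fS_diff A.1 B.1 A.2 B.2 h1]
        exact h4
      · have hne : Function.update J.1 k (B.1 \ A.1) i = J.1 i := Function.update_of_ne hik _ _
        rw [key _ (J.1 i) _ (J.2.1 i) hne]
        exact hJb i (by omega)

lemma Ch_bound (δ B : ℝ) (hδ : 0 ≤ δ) (x : X) (hx : ‖x‖ ≤ B) (k : ℕ) (L : LS) (hc : Ch δ x k L) :
    k * δ^2 ≤ B^2 := by
  obtain ⟨J, -, -, hJ⟩ := Ch_family δ x k L hc
  have h1 := sum_sq_le J x (Finset.range k)
  have h2 : ∑ i ∈ Finset.range k, δ^2 ≤ ∑ i ∈ Finset.range k, (fS (J.1 i) (J.2.1 i) x)^2 := by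
    apply Finset.sum_le_sum
    intro i hi
    rw [← sq_abs (fS (J.1 i) (J.2.1 i) x)]
    exact pow_le_pow_left₀ hδ (hJ i (Finset.mem_range.1 hi)).le 2
  rw [Finset.sum_const, Finset.card_range, nsmul_eq_mul] at h2
  have h3 := pow_le_pow_left₀ (norm_nonneg _) hx 2
  linarith

open Classical in
noncomputable def gg (δ : ℝ) (m : ℕ) (x : X) (L : LS) : ℕ := Nat.findGreatest (fun k => Ch δ x k L) m

lemma gg_le (δ : ℝ) (m : ℕ) (x : X) (L : LS) : gg δ m x L ≤ m := by
  classical
  unfold gg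
  exact Nat.findGreatest_le (P := fun k => Ch δ x k L) m

lemma gg_spec (δ : ℝ) (m : ℕ) (x : X) (L : LS) : Ch δ x (gg δ m x L) L := by
  classical
  unfold gg
  exact Nat.findGreatest_spec (P := fun k => Ch δ x k L) (Nat.zero_le m) trivial

lemma gg_ge (δ : ℝ) (m : ℕ) (x : X) (L : LS) (k : ℕ) (hk : k ≤ m) (hc : Ch δ x k L) :
    k ≤ gg δ m x L := by
  classical
  unfold gg
  exact Nat.le_findGreatest hk hc

lemma gg_mono (δ : ℝ) (m : ℕ) (x : X) (L L' : LS) (h : L.1 ⊆ L'.1) : gg δ m x L ≤ gg δ m x L' :=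
  gg_ge δ m x L' _ (gg_le δ m x L) (Ch_mono δ x _ L L' h (gg_spec δ m x L))

lemma gg_eq (δ : ℝ) (m : ℕ) (x : X) (hm : ∀ L, ¬ Ch δ x (m+1) L)
    (A B : LS) (h : A.1 ⊆ B.1) (hg : gg δ m x A = gg δ m x B) : |FF x B - FF x A| ≤ δ := by
  by_contra hcon
  push Not at hcon
  have h1 : Ch δ x (gg δ m x A + 1) B := ⟨A, B, h, subset_rfl, gg_spec δ m x A, hcon⟩
  have h2 : gg δ m x A + 1 ≤ m := by
    by_contra h3
    have h4 := gg_le δ m x A
    have h5 : gg δ m x A = m := by omega
    rw [h5] at h1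
    exact hm B h1
  have := gg_ge δ m x B _ h2 h1
  omega

/-- finitely many representatives -/
lemma reps (δ B : ℝ) (hδ : 0 < δ) (m : ℕ) (hm : B^2 < (m+1) * δ^2) (N : ℕ) (x : ℕ → X)
    (hx : ∀ j, ‖x j‖ ≤ B) :
    ∃ K : Finset LS, K.card ≤ m * N + 1 ∧ ∀ L : LS, ∃ L' ∈ K, ∀ j, j < N →
      |FF (x j) L - FF (x j) L'| ≤ δ := by
  classical
  let G : LS → ℕ := fun L => ∑ j ∈ Finset.range N, gg δ m (x j) L
  have hG : ∀ L, G L ≤ m * N := by
    intro L
    have : G L ≤ ∑ j ∈ Finset.range N, m := Finset.sum_le_sum (fun j _ => gg_le δ m (x j) L)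
    rw [Finset.sum_const, Finset.card_range, smul_eq_mul, mul_comm] at this
    exact this
  have hno : ∀ j L, ¬ Ch δ (x j) (m+1) L := by
    intro j L hc
    have := Ch_bound δ B hδ.le (x j) (hx j) (m+1) L hc
    push_cast at this
    linarith
  -- total order on lower sets
  have htot : ∀ A B : LS, A.1 ⊆ B.1 ∨ B.1 ⊆ A.1 := fun A B => A.2.total B.2
  have hkey : ∀ A B : LS, G A = G B → ∀ j, j < N → |FF (x j) A - FF (x j) B| ≤ δ := by
    have aux : ∀ A B : LS, A.1 ⊆ B.1 → G A = G B → ∀ j, j < N → |FF (x j) B - FF (x j) A| ≤ δ := by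
      intro A B hAB hGe j hj
      have hle : ∀ j ∈ Finset.range N, gg δ m (x j) A ≤ gg δ m (x j) B :=
        fun j _ => gg_mono δ m (x j) A B hAB
      have := (Finset.sum_eq_sum_iff_of_le hle).1 hGe j (Finset.mem_range.2 hj)
      exact gg_eq δ m (x j) (hno j) A B hAB this
    intro A B hGe j hj
    rcases htot A B with h | h
    · rw [abs_sub_comm]; exact aux A B h hGe j hj
    · exact aux B A h hGe.symm j hj
  -- choose representatives
  let S : Finset ℕ := (Finset.range (m * N + 1)).filter (fun k => ∃ L, G L = k)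
  let r : ℕ → LS := fun k => if h : ∃ L, G L = k then h.choose else ⟨∅, isLowerSet_empty⟩
  refine ⟨S.image r, ?_, ?_⟩
  · refine Finset.card_image_le.trans ?_
    refine (Finset.card_filter_le _ _).trans ?_
    rw [Finset.card_range]
  · intro L
    have hex : ∃ L', G L' = G L := ⟨L, rfl⟩
    refine ⟨r (G L), Finset.mem_image_of_mem _ ?_, ?_⟩
    · rw [Finset.mem_filter, Finset.mem_range]
      exact ⟨by have := hG L; omega, hex⟩
    · have hr : G (r (G L)) = G L := by
        simp only [r]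
        rw [dif_pos hex]
        exact hex.choose_spec
      exact hkey L _ hr.symm

/-- choice of signs -/
lemma signs (K : Finset LS) (v : ℕ → LS → ℝ) (B lam : ℝ) (hB : ∀ j L, |v j L| ≤ B) (N : ℕ) :
    ∃ σ : ℕ → ℝ, (∀ j, |σ j| = 1) ∧
      ∑ L ∈ K, Real.cosh (lam * ∑ j ∈ Finset.range N, σ j * v j L) ≤ K.card * (Real.cosh (lam * B))^N := by
  induction N with
  | zero => exact ⟨fun _ => 1, by simp, by simp⟩
  | succ N ih =>
    obtain ⟨σ, hσ, hs⟩ := ih
    set a : LS → ℝ := fun L => lam * ∑ j ∈ Finset.range N, σ j * v j L with ha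
    have hsum : ∑ L ∈ K, Real.cosh (a L + lam * v N L) + ∑ L ∈ K, Real.cosh (a L - lam * v N L)
        ≤ 2 * (K.card * (Real.cosh (lam * B))^(N+1)) := by
      rw [← Finset.sum_add_distrib]
      have h1 : ∀ L ∈ K, Real.cosh (a L + lam * v N L) + Real.cosh (a L - lam * v N L) ≤
          2 * Real.cosh (lam * B) * Real.cosh (a L) := by
        intro L _
        rw [Real.cosh_add, Real.cosh_sub]
        have h2 : Real.cosh (lam * v N L) ≤ Real.cosh (lam * B) := by
          rw [Real.cosh_le_cosh, abs_mul, abs_mul]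
          apply mul_le_mul_of_nonneg_left _ (abs_nonneg _)
          exact (hB N L).trans (le_abs_self B)
        have h3 := Real.cosh_pos (a L)
        nlinarith
      refine (Finset.sum_le_sum h1).trans ?_
      rw [← Finset.mul_sum, pow_succ]
      have h4 := Real.cosh_pos (lam * B)
      nlinarith
    -- one of the two signs works
    obtain ⟨s, hs1, hs2⟩ : ∃ s : ℝ, |s| = 1 ∧
        ∑ L ∈ K, Real.cosh (a L + lam * (s * v N L)) ≤ K.card * (Real.cosh (lam * B))^(N+1) := by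
      by_cases h : ∑ L ∈ K, Real.cosh (a L + lam * v N L) ≤ K.card * (Real.cosh (lam * B))^(N+1)
      · exact ⟨1, by simp, by simpa using h⟩
      · refine ⟨-1, by simp, ?_⟩
        push Not at h
        have h5 : ∑ L ∈ K, Real.cosh (a L + lam * (-1 * v N L)) = ∑ L ∈ K, Real.cosh (a L - lam * v N L) := by
          apply Finset.sum_congr rfl
          intro L _
          congr 1; ring
        rw [h5]
        linarith
    refine ⟨Function.update σ N s, ?_, ?_⟩
    · intro j
      by_cases hj : j = N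
      · subst hj; rw [Function.update_self]; exact hs1
      · rw [Function.update_of_ne hj]; exact hσ j
    · refine le_trans (le_of_eq ?_) hs2
      apply Finset.sum_congr rfl
      intro L _
      congr 1
      rw [Finset.sum_range_succ, Function.update_self, mul_add, ha]
      congr 2
      apply Finset.sum_congr rfl
      intro j hj
      rw [Function.update_of_ne (by have := Finset.mem_range.1 hj; omega)]

/-- small averages -/
lemma small_avg (B ε : ℝ) (hB : 0 < B) (hε : 0 < ε) :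
    ∃ N : ℕ, 0 < N ∧ ∀ x : ℕ → X, (∀ j, ‖x j‖ ≤ B) →
      ∃ σ : ℕ → ℝ, (∀ j, |σ j| = 1) ∧ ∀ (S : Set ℚ) (hS : S.OrdConnected),
        |fS S hS (∑ j ∈ Finset.range N, σ j • x j)| ≤ ε * N := by
  set δ := ε/4 with hδ
  have hδ0 : 0 < δ := by positivity
  obtain ⟨m, hm⟩ := exists_nat_gt (B^2/δ^2)
  have hm' : B^2 < (m+1) * δ^2 := by
    rw [div_lt_iff₀ (by positivity)] at hm
    nlinarith [sq_nonneg δ]
  set κ := δ^2/(2*B^2) with hκ
  have hκ0 : 0 < κ := by positivity
  -- choose N with exp (κ N) > 2 (m N + 1)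
  obtain ⟨N, hN⟩ := exists_nat_gt (4 * (m + 1) / κ^2 + 1)
  have hN1 : (1:ℝ) < N := lt_of_le_of_lt (by have : 0 ≤ 4 * ((m:ℝ) + 1) / κ^2 := by positivity
                                             linarith) hN
  have hN0 : 0 < N := by
    have : (0:ℝ) < N := by linarith
    exact_mod_cast this
  have hexp : 2 * ((m:ℝ) * N + 1) < Real.exp (κ * N) := by
    have h1 : (κ * N)^2/2 ≤ Real.exp (κ * N) := by
      have h := Real.quadratic_le_exp_of_nonneg (x := κ * N) (by positivity)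
      nlinarith [show 0 ≤ κ * N by positivity]
    have h2 : 4 * ((m:ℝ) + 1) / κ^2 < N := by linarith
    rw [div_lt_iff₀ (by positivity)] at h2
    have h3 : 2 * ((m:ℝ) * N + 1) ≤ 2 * ((m + 1) * N) := by nlinarith
    have h4 : 2 * (((m:ℝ) + 1) * N) < (κ * N)^2/2 := by
      have : 4 * ((m:ℝ) + 1) * N < N * κ^2 * N := mul_lt_mul_of_pos_right h2 (by linarith)
      nlinarith
    linarith
  refine ⟨N, hN0, fun x hx => ?_⟩
  obtain ⟨K, hK, hrep⟩ := reps δ B hδ0 m hm' N x hx
  set lam := δ/B^2 with hlam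
  have hl0 : 0 < lam := by positivity
  have hv : ∀ j L, |FF (x j) L| ≤ B := fun j L => (fS_le _ _ _).trans (hx j)
  obtain ⟨σ, hσ, hs⟩ := signs K (fun j L => FF (x j) L) B lam hv N
  refine ⟨σ, hσ, ?_⟩
  -- bound on representatives
  have hrepb : ∀ L ∈ K, |∑ j ∈ Finset.range N, σ j * FF (x j) L| ≤ δ * N := by
    intro L hL
    by_contra hcon
    push Not at hcon
    have h1 : Real.cosh (lam * ∑ j ∈ Finset.range N, σ j * FF (x j) L) ≤
        K.card * (Real.cosh (lam * B))^N := by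
      refine le_trans ?_ hs
      exact Finset.single_le_sum (f := fun L => Real.cosh (lam * ∑ j ∈ Finset.range N, σ j * FF (x j) L))
        (fun L _ => (Real.cosh_pos _).le) hL
    have h2 : Real.cosh (lam * (δ * N)) ≤ Real.cosh (lam * ∑ j ∈ Finset.range N, σ j * FF (x j) L) := by
      rw [Real.cosh_le_cosh, abs_mul lam, abs_mul lam]
      apply mul_le_mul_of_nonneg_left _ (abs_nonneg _)
      rw [abs_of_nonneg (show 0 ≤ δ * (N:ℝ) by positivity)]
      exact hcon.le
    have h3 : Real.exp (lam * (δ * N)) / 2 ≤ Real.cosh (lam * (δ * N)) := by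
      rw [Real.cosh_eq]
      have := Real.exp_pos (-(lam * (δ * N)))
      linarith
    have h4 : (Real.cosh (lam * B))^N ≤ Real.exp (N * ((lam * B)^2/2)) := by
      rw [Real.exp_nat_mul]
      exact pow_le_pow_left₀ (Real.cosh_pos _).le (Real.cosh_le_exp_half_sq _) N
    have h5 : (K.card : ℝ) ≤ m * N + 1 := by exact_mod_cast hK
    have h6 : Real.exp (lam * (δ * N)) ≤ 2 * ((m * N + 1) * Real.exp (N * ((lam * B)^2/2))) := by
      have h7 : (K.card : ℝ) * (Real.cosh (lam * B))^N ≤ (m * N + 1) * Real.exp (N * ((lam * B)^2/2)) :=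
        mul_le_mul h5 h4 (pow_nonneg (Real.cosh_pos _).le _) (by positivity)
      linarith
    have h8 : lam * (δ * N) = κ * N + N * ((lam * B)^2/2) := by
      rw [hlam, hκ]
      field_simp
      ring
    rw [h8, Real.exp_add] at h6
    have h9 := Real.exp_pos (N * ((lam * B)^2/2))
    have h10 : Real.exp (κ * N) ≤ 2 * (m * N + 1) := by
      have : Real.exp (κ * N) * Real.exp (N * ((lam * B)^2/2)) ≤
          (2 * (m * N + 1)) * Real.exp (N * ((lam * B)^2/2)) := by linarith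
      exact le_of_mul_le_mul_right this h9
    linarith
  -- all lower sets
  have hall : ∀ L : LS, |∑ j ∈ Finset.range N, σ j * FF (x j) L| ≤ 2 * δ * N := by
    intro L
    obtain ⟨L', hL', hd⟩ := hrep L
    have h1 := hrepb L' hL'
    have h2 : |∑ j ∈ Finset.range N, σ j * FF (x j) L - ∑ j ∈ Finset.range N, σ j * FF (x j) L'| ≤ δ * N := by
      rw [← Finset.sum_sub_distrib]
      refine (Finset.abs_sum_le_sum_abs _ _).trans ?_
      have : ∑ j ∈ Finset.range N, |σ j * FF (x j) L - σ j * FF (x j) L'| ≤ ∑ j ∈ Finset.range N, δ := by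
        apply Finset.sum_le_sum
        intro j hj
        rw [← mul_sub, abs_mul, hσ, one_mul]
        exact hd j (Finset.mem_range.1 hj)
      rw [Finset.sum_const, Finset.card_range, nsmul_eq_mul, mul_comm] at this
      exact this
    have h3 := abs_sub_abs_le_abs_sub (∑ j ∈ Finset.range N, σ j * FF (x j) L) (∑ j ∈ Finset.range N, σ j * FF (x j) L')
    linarith
  intro S hS
  -- S as a difference of lower sets
  let Bs : LS := ⟨{q | ∃ s ∈ S, q ≤ s}, fun a b hab ⟨s, hs, h⟩ => ⟨s, hs, hab.trans h⟩⟩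
  let As : LS := ⟨{q | ∀ s ∈ S, q < s} ∩ {q | ∃ s ∈ S, q ≤ s}, fun a b hab h =>
    ⟨fun s hs => lt_of_le_of_lt hab (h.1 s hs), by
      obtain ⟨s, hs, h2⟩ := h.2
      exact ⟨s, hs, hab.trans h2⟩⟩⟩
  have hAB : As.1 ⊆ Bs.1 := fun q hq => hq.2
  have hSd : S = Bs.1 \ As.1 := by
    ext q
    constructor
    · intro hq
      refine ⟨⟨q, hq, le_rfl⟩, fun h => lt_irrefl q (h.1 q hq)⟩
    · rintro ⟨⟨s, hs, hqs⟩, h2⟩
      have : ¬ ∀ s ∈ S, q < s := fun h => h2 ⟨h, ⟨s, hs, hqs⟩⟩
      push Not at this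
      obtain ⟨s', hs', h3⟩ := this
      exact hS.out hs' hs ⟨h3, hqs⟩
  have hval : fS S hS (∑ j ∈ Finset.range N, σ j • x j) =
      ∑ j ∈ Finset.range N, σ j * FF (x j) Bs - ∑ j ∈ Finset.range N, σ j * FF (x j) As := by
    have h1 : fS S hS (∑ j ∈ Finset.range N, σ j • x j) =
        fS (Bs.1 \ As.1) (diff_ord _ _ As.2 Bs.2) (∑ j ∈ Finset.range N, σ j • x j) := by
      congr 1
      congr 1
    rw [h1, fS_diff As.1 Bs.1 As.2 Bs.2 hAB, map_sum, map_sum]
    simp only [map_smul, smul_eq_mul]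
    rfl
  rw [hval]
  have h1 := hall Bs
  have h2 := hall As
  have h3 := abs_sub (∑ j ∈ Finset.range N, σ j * FF (x j) Bs) (∑ j ∈ Finset.range N, σ j * FF (x j) As)
  rw [hδ] at h1 h2
  linarith

end Pool.Agent.S03450.JQ

namespace Pool.Agent.S03450.JQ

/-- no lower l_1 estimate for bounded sequences in the span -/
lemma no_l1_seq (x : ℕ → X) (hspan : ∀ n, x n ∈ Submodule.span ℝ (Set.range eX)) (B c : ℝ) (hB : 0 < B)
    (hc : 0 < c) (hx : ∀ n, ‖x n‖ ≤ B)
    (hlow : ∀ (F : Finset ℕ) (b : ℕ → ℝ), c * ∑ n ∈ F, |b n| ≤ ‖∑ n ∈ F, b n • x n‖) : False := by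
  have key : ∀ K : ℕ, ∃ (n : ℕ) (b : ℕ → ℝ), ∑ j ∈ Finset.range n, |b j| = K ∧
      ‖∑ j ∈ Finset.range n, b j • x j‖^2 ≤ K * (B^2 + 1) := by
    intro K
    induction K with
    | zero => exact ⟨0, fun _ => 0, by simp, by simp⟩
    | succ K ih =>
      obtain ⟨n, b, hb1, hb2⟩ := ih
      set s := ∑ j ∈ Finset.range n, b j • x j with hs
      have hsp : s ∈ Submodule.span ℝ (Set.range eX) :=
        Submodule.sum_mem _ (fun j _ => Submodule.smul_mem _ _ (hspan j))
      obtain ⟨Λ, hΛ, hadd⟩ := add_norm_sq s (addGood_span s hsp)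
      obtain ⟨N, hN, hsm⟩ := small_avg B (1/(2*Λ+1)) hB (by positivity)
      have hNr : (0:ℝ) < N := by exact_mod_cast hN
      obtain ⟨σ, hσ, hσS⟩ := hsm (fun j => x (n + j)) (fun j => hx _)
      set y := (1/(N:ℝ)) • ∑ j ∈ Finset.range N, σ j • x (n + j) with hy
      have hyS : ∀ (S : Set ℚ) (hS : S.OrdConnected), |fS S hS y| ≤ 1/(2*Λ+1) := by
        intro S hS
        rw [hy, map_smul, smul_eq_mul, abs_mul, abs_of_pos (by positivity : (0:ℝ) < 1/N)]
        have := hσS S hS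
        rw [div_mul_eq_mul_div, one_mul, div_le_iff₀ hNr]
        exact this
      have hyn : ‖y‖ ≤ B := by
        rw [hy, norm_smul, Real.norm_eq_abs, abs_of_pos (by positivity : (0:ℝ) < 1/N),
          div_mul_eq_mul_div, one_mul, div_le_iff₀ hNr]
        refine (norm_sum_le _ _).trans ?_
        have : ∑ j ∈ Finset.range N, ‖σ j • x (n + j)‖ ≤ ∑ j ∈ Finset.range N, B := by
          apply Finset.sum_le_sum
          intro j _
          rw [norm_smul, Real.norm_eq_abs, hσ, one_mul]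
          exact hx _
        rw [Finset.sum_const, Finset.card_range, nsmul_eq_mul, mul_comm] at this
        exact this
      have hnew := hadd y (1/(2*Λ+1)) (by positivity) hyS
      refine ⟨n + N, fun j => if j < n then b j else (1/(N:ℝ)) * σ (j - n), ?_, ?_⟩
      · rw [Finset.sum_range_add]
        have h1 : ∑ j ∈ Finset.range n, |if j < n then b j else (1/(N:ℝ)) * σ (j - n)| =
            ∑ j ∈ Finset.range n, |b j| := by
          apply Finset.sum_congr rfl
          intro j hj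
          rw [if_pos (Finset.mem_range.1 hj)]
        have h2 : ∑ j ∈ Finset.range N, |if n + j < n then b (n + j) else (1/(N:ℝ)) * σ (n + j - n)| =
            1 := by
          have : ∀ j ∈ Finset.range N, |if n + j < n then b (n + j) else (1/(N:ℝ)) * σ (n + j - n)| = 1/(N:ℝ) := by
            intro j _
            rw [if_neg (by omega), abs_mul, hσ, mul_one, abs_of_pos (by positivity)]
          rw [Finset.sum_congr rfl this, Finset.sum_const, Finset.card_range, nsmul_eq_mul]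
          field_simp
        rw [h1, h2, hb1]
        push_cast; ring
      · rw [Finset.sum_range_add]
        have h1 : ∑ j ∈ Finset.range n, (if j < n then b j else (1/(N:ℝ)) * σ (j - n)) • x j = s := by
          rw [hs]
          apply Finset.sum_congr rfl
          intro j hj
          rw [if_pos (Finset.mem_range.1 hj)]
        have h2 : ∑ j ∈ Finset.range N, (if n + j < n then b (n + j) else (1/(N:ℝ)) * σ (n + j - n)) • x (n + j) = y := by
          rw [hy, Finset.smul_sum]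
          apply Finset.sum_congr rfl
          intro j _
          rw [if_neg (by omega), mul_smul, Nat.add_sub_cancel_left]
        rw [h1, h2]
        have h3 : 2 * (Λ * (1/(2*Λ+1))) ≤ 1 := by
          rw [mul_one_div, mul_div_assoc', div_le_one (by positivity)]
          linarith
        have h4 : ‖y‖^2 ≤ B^2 := pow_le_pow_left₀ (norm_nonneg _) hyn 2
        push_cast
        linarith
  obtain ⟨K, hK⟩ := exists_nat_gt ((B^2+1)/c^2)
  obtain ⟨n, b, hb1, hb2⟩ := key K
  have h1 := hlow (Finset.range n) b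
  rw [hb1] at h1
  have hK0 : (0:ℝ) < K := lt_of_le_of_lt (by positivity) hK
  have h2 : (c * K)^2 ≤ K * (B^2+1) := (pow_le_pow_left₀ (by positivity) h1 2).trans hb2
  rw [div_lt_iff₀ (by positivity)] at hK
  nlinarith

open Classical in
lemma no_l1 : ¬ ∃ (T : lp (fun _ : ℕ => ℝ) (1 : ENNReal) →L[ℝ] X) (c : ℝ),
    0 < c ∧ ∀ y, c * ‖y‖ ≤ ‖T y‖ := by
  rintro ⟨T, c, hc, hT⟩
  have happ : ∀ n : ℕ, ∃ u ∈ Submodule.span ℝ (Set.range eX), ‖T (lp.single 1 n (1:ℝ)) - u‖ < c/2 :=
    fun n => dense_span _ _ (by positivity)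
  choose x hxs hx using happ
  have hb : ∀ n, ‖T (lp.single 1 n (1:ℝ))‖ ≤ ‖T‖ := by
    intro n
    have h1 := T.le_opNorm (lp.single 1 n (1:ℝ))
    rw [lp.norm_single (by norm_num)] at h1
    simpa using h1
  apply no_l1_seq x hxs (‖T‖ + c) (c/2) (by positivity) (by positivity)
  · intro n
    have h1 : ‖x n‖ ≤ ‖T (lp.single 1 n (1:ℝ))‖ + ‖T (lp.single 1 n (1:ℝ)) - x n‖ := by
      have := norm_sub_norm_le (x n) (T (lp.single 1 n (1:ℝ)))
      rw [norm_sub_rev] at this
      linarith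
    linarith [hb n, hx n]
  · intro F b
    have h1 := hT (∑ n ∈ F, lp.single 1 n (b n))
    have h2 : ‖∑ n ∈ F, lp.single (E := fun _ : ℕ => ℝ) 1 n (b n)‖ = ∑ n ∈ F, |b n| := by
      have := lp.norm_sum_single (p := 1) (by norm_num) b F
      simpa using this
    rw [h2, map_sum] at h1
    have h3 : ∀ n ∈ F, T (lp.single 1 n (b n)) = b n • T (lp.single 1 n (1:ℝ)) := by
      intro n _
      rw [← map_smul, ← lp.single_smul]
      simp
    rw [Finset.sum_congr rfl h3] at h1
    have h4 : ‖∑ n ∈ F, b n • T (lp.single 1 n (1:ℝ)) - ∑ n ∈ F, b n • x n‖ ≤ (c/2) * ∑ n ∈ F, |b n| := by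
      rw [← Finset.sum_sub_distrib, Finset.mul_sum]
      refine (norm_sum_le _ _).trans ?_
      apply Finset.sum_le_sum
      intro n _
      rw [← smul_sub, norm_smul, Real.norm_eq_abs, mul_comm]
      exact mul_le_mul_of_nonneg_right (hx n).le (abs_nonneg _)
    have h5 := norm_sub_norm_le (∑ n ∈ F, b n • T (lp.single 1 n (1:ℝ))) (∑ n ∈ F, b n • x n)
    linarith

end Pool.Agent.S03450.JQ

namespace Pool.Agent.S03450.JQ

/-- rationals in an open real interval -/
def QI (s s' : ℝ) : Set ℚ := {q | s < (q : ℝ) ∧ (q : ℝ) < s'}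

lemma QI_ne (s s' : ℝ) (h : s < s') : (QI s s').Nonempty := by
  obtain ⟨q, h1, h2⟩ := exists_rat_btwn h
  exact ⟨q, h1, h2⟩

/-- convex combinations of unit vectors over a set -/
def CC (S : Set ℚ) : Set X := convexHull ℝ (eX '' S)

lemma CC_mono (S T : Set ℚ) (h : S ⊆ T) : CC S ⊆ CC T := convexHull_mono (Set.image_mono h)

lemma CC_ne (S : Set ℚ) (h : S.Nonempty) : (CC S).Nonempty := by
  rw [CC, convexHull_nonempty_iff]
  exact h.image _

/-- value of interval functionals on convex combinations -/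
lemma fS_CC_one (T S : Set ℚ) (hS : S.OrdConnected) (h : T ⊆ S) (u : X) (hu : u ∈ CC T) :
    fS S hS u = 1 := by
  have hconv : Convex ℝ {x : X | fS S hS x = 1} := by
    intro x hx y hy a b _ _ hab
    change fS S hS (a • x + b • y) = 1
    rw [map_add, map_smul, map_smul, show fS S hS x = 1 from hx, show fS S hS y = 1 from hy]
    simpa using hab
  have hsub : eX '' T ⊆ {x : X | fS S hS x = 1} := by
    rintro _ ⟨q, hq, rfl⟩
    change fS S hS (eX q) = 1
    rw [fS_eX, if_pos (h hq)]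
  exact convexHull_min hsub hconv hu

lemma fS_CC_zero (T S : Set ℚ) (hS : S.OrdConnected) (h : Disjoint T S) (u : X) (hu : u ∈ CC T) :
    fS S hS u = 0 := by
  have hconv : Convex ℝ {x : X | fS S hS x = 0} := by
    intro x hx y hy a b _ _ _
    change fS S hS (a • x + b • y) = 0
    rw [map_add, map_smul, map_smul, show fS S hS x = 0 from hx, show fS S hS y = 0 from hy]
    simp
  have hsub : eX '' T ⊆ {x : X | fS S hS x = 0} := by
    rintro _ ⟨q, hq, rfl⟩
    change fS S hS (eX q) = 0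
    rw [fS_eX, if_neg (Set.disjoint_left.1 h hq)]
  exact convexHull_min hsub hconv hu

lemma norm_eX_le (q : ℚ) : ‖eX q‖ ≤ 1 := by
  apply norm_le_of_cp
  intro J
  rw [cp_eX]
  exact ev_norm q J

lemma norm_CC_ge (T : Set ℚ) (u : X) (hu : u ∈ CC T) : 1 ≤ ‖u‖ := by
  have h1 := fS_CC_one T Set.univ Set.ordConnected_univ (Set.subset_univ _) u hu
  have h2 := fS_le Set.univ Set.ordConnected_univ u
  rw [h1] at h2
  simpa using h2

section renorm
variable (p : Seminorm ℝ X) (a b : ℝ) (ha : 0 < a) (hab : ∀ x : X, a * ‖x‖ ≤ p x ∧ p x ≤ b * ‖x‖)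

/-- infimum of the norm over convex combinations near a point -/
noncomputable def mm (s s' : ℝ) : ℝ := sInf (p '' CC (QI s s'))

include ha hab in
lemma p_ge (T : Set ℚ) (u : X) (hu : u ∈ CC T) : a ≤ p u := by
  have h1 := norm_CC_ge T u hu
  have h2 := (hab u).1
  nlinarith

include ha hab in
lemma bdd (s s' : ℝ) : BddBelow (p '' CC (QI s s')) := by
  refine ⟨a, ?_⟩
  rintro _ ⟨u, hu, rfl⟩
  exact p_ge p a b ha hab _ u hu

include ha hab in
lemma mm_le (s s' : ℝ) (u : X) (hu : u ∈ CC (QI s s')) : mm p s s' ≤ p u :=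
  csInf_le (bdd p a b ha hab s s') ⟨u, hu, rfl⟩

include ha hab in
lemma mm_mono (s s' r r' : ℝ) (h : r < r') (h1 : s ≤ r) (h2 : r' ≤ s') : mm p s s' ≤ mm p r r' := by
  apply csInf_le_csInf (bdd p a b ha hab s s')
  · exact (CC_ne _ (QI_ne r r' h)).image _
  · apply Set.image_mono
    apply CC_mono
    intro q hq
    exact ⟨lt_of_le_of_lt h1 hq.1, lt_of_lt_of_le hq.2 h2⟩

include ha hab in
lemma mm_le_b (s s' : ℝ) (h : s < s') : mm p s s' ≤ |b| := by
  obtain ⟨q, hq⟩ := QI_ne s s' h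
  have hu : eX q ∈ CC (QI s s') := subset_convexHull ℝ _ ⟨q, hq, rfl⟩
  refine (mm_le p a b ha hab s s' _ hu).trans ?_
  refine (hab _).2.trans ?_
  have h1 := norm_eX_le q
  have h2 := norm_nonneg (eX q)
  have h3 := le_abs_self b
  have h4 := abs_nonneg b
  nlinarith

include ha hab in
lemma mm_ge_a (s s' : ℝ) (h : s < s') : a ≤ mm p s s' := by
  apply le_csInf ((CC_ne _ (QI_ne s s' h)).image _)
  rintro _ ⟨u, hu, rfl⟩
  exact p_ge p a b ha hab _ u hu

/-- local value at a point -/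
noncomputable def MM (t : ℝ) : ℝ := sSup {r | ∃ s s', s < t ∧ t < s' ∧ r = mm p s s'}

include ha hab in
lemma MM_bdd (t : ℝ) : BddAbove {r | ∃ s s', s < t ∧ t < s' ∧ r = mm p s s'} := by
  refine ⟨|b|, ?_⟩
  rintro _ ⟨s, s', h1, h2, rfl⟩
  exact mm_le_b p a b ha hab s s' (h1.trans h2)

include ha hab in
lemma le_MM (t s s' : ℝ) (h1 : s < t) (h2 : t < s') : mm p s s' ≤ MM p t :=
  le_csSup (MM_bdd p a b ha hab t) ⟨s, s', h1, h2, rfl⟩

include ha hab in
lemma left_countable : {t : ℝ | ∃ s, s < t ∧ MM p t < mm p s t}.Countable := by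
  have h : ∀ t : {t : ℝ | ∃ s, s < t ∧ MM p t < mm p s t}, ∃ rs : ℚ × ℚ, (rs.2 : ℝ) < t.1 ∧
      MM p t.1 < rs.1 ∧ (rs.1 : ℝ) < mm p rs.2 t.1 := by
    rintro ⟨t, s, hs, hm⟩
    obtain ⟨r, hr1, hr2⟩ := exists_rat_btwn hm
    obtain ⟨s₂, hs1, hs2⟩ := exists_rat_btwn hs
    exact ⟨(r, s₂), hs2, hr1, hr2.trans_le (mm_mono p a b ha hab s t s₂ t hs2 hs1.le le_rfl)⟩
  choose f hf using h
  have hinj : Function.Injective f := by
    have aux : ∀ x y : {t : ℝ | ∃ s, s < t ∧ MM p t < mm p s t}, f x = f y → ¬ x.1 < y.1 := by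
      intro x y hxy hlt
      have h1 := hf x
      have h2 := hf y
      rw [← hxy] at h2
      have h3 := le_MM p a b ha hab x.1 (f x).2 y.1 h1.1 hlt
      linarith [h1.2.1, h2.2.2]
    intro x y hxy
    apply Subtype.ext
    rcases lt_trichotomy x.1 y.1 with h | h | h
    · exact absurd h (aux x y hxy)
    · exact h
    · exact absurd h (aux y x hxy.symm)
  exact Set.countable_coe_iff.1 (Function.Injective.countable hinj)

include ha hab in
lemma right_countable : {t : ℝ | ∃ s, t < s ∧ MM p t < mm p t s}.Countable := by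
  have h : ∀ t : {t : ℝ | ∃ s, t < s ∧ MM p t < mm p t s}, ∃ rs : ℚ × ℚ, t.1 < (rs.2 : ℝ) ∧
      MM p t.1 < rs.1 ∧ (rs.1 : ℝ) < mm p t.1 rs.2 := by
    rintro ⟨t, s, hs, hm⟩
    obtain ⟨r, hr1, hr2⟩ := exists_rat_btwn hm
    obtain ⟨s₂, hs1, hs2⟩ := exists_rat_btwn hs
    exact ⟨(r, s₂), hs1, hr1, hr2.trans_le (mm_mono p a b ha hab t s t s₂ hs1 le_rfl hs2.le)⟩
  choose f hf using h
  have hinj : Function.Injective f := by
    have aux : ∀ x y : {t : ℝ | ∃ s, t < s ∧ MM p t < mm p t s}, f x = f y → ¬ x.1 < y.1 := by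
      intro x y hxy hlt
      have h1 := hf x
      have h2 := hf y
      rw [hxy] at h1
      have h3 := le_MM p a b ha hab y.1 x.1 (f y).2 hlt h2.1
      linarith [h1.2.2, h2.2.1]
    intro x y hxy
    apply Subtype.ext
    rcases lt_trichotomy x.1 y.1 with h | h | h
    · exact absurd h (aux x y hxy)
    · exact h
    · exact absurd h (aux y x hxy.symm)
  exact Set.countable_coe_iff.1 (Function.Injective.countable hinj)

include ha hab in
lemma good_point : ∃ t : ℝ, (∀ s, s < t → mm p s t ≤ MM p t) ∧ (∀ s, t < s → mm p t s ≤ MM p t) := by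
  have h1 := left_countable p a b ha hab
  have h2 := right_countable p a b ha hab
  have h3 := h1.union h2
  by_contra hcon
  push Not at hcon
  apply (Set.not_countable_univ (α := ℝ))
  apply h3.mono
  intro t _
  by_cases h : ∀ s, s < t → mm p s t ≤ MM p t
  · obtain ⟨s, hs, hm⟩ := hcon t h
    exact Or.inr ⟨s, hs, hm⟩
  · push Not at h
    obtain ⟨s, hs, hm⟩ := h
    exact Or.inl ⟨s, hs, hm⟩

include ha hab in
/-- the alternating sequence -/
lemma exists_seq : ∃ (t c : ℝ) (z : ℕ → X), 0 < c ∧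
    (∀ n, Even n → z n ∈ CC {q : ℚ | (q:ℝ) < t}) ∧ (∀ n, ¬ Even n → z n ∈ CC {q : ℚ | t < (q:ℝ)}) ∧
    (∀ n : ℕ, p (z n) < c + 1/((n:ℝ)+1)) ∧
    (∀ n i j : ℕ, n ≤ i → n ≤ j → c - 1/((n:ℝ)+1) < p ((1/2 : ℝ) • (z i + z j))) := by
  obtain ⟨t, hl, hr⟩ := good_point p a b ha hab
  set c := MM p t with hc
  have hac : a ≤ c := (mm_ge_a p a b ha hab (t-1) (t+1) (by linarith)).trans
    (le_MM p a b ha hab t (t-1) (t+1) (by linarith) (by linarith))
  have hex : ∀ n : ℕ, ∃ ss : ℝ × ℝ, ss.1 < t ∧ t < ss.2 ∧ c - 1/((n:ℝ)+1) < mm p ss.1 ss.2 := by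
    intro n
    have hne : {r | ∃ s s', s < t ∧ t < s' ∧ r = mm p s s'}.Nonempty :=
      ⟨_, t-1, t+1, by linarith, by linarith, rfl⟩
    have hlt : c - 1/((n:ℝ)+1) < sSup {r | ∃ s s', s < t ∧ t < s' ∧ r = mm p s s'} := by
      change c - 1/((n:ℝ)+1) < MM p t
      have : 0 < 1/((n:ℝ)+1) := by positivity
      linarith
    obtain ⟨_, ⟨s, s', h1, h2, rfl⟩, h3⟩ := exists_lt_of_lt_csSup hne hlt
    exact ⟨(s, s'), h1, h2, h3⟩
  choose ss hs1 hs2 hs3 using hex
  -- running maxima and minima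
  have hmax : ∀ n : ℕ, ∃ sg : ℝ × ℝ, sg.1 < t ∧ t < sg.2 ∧ ∀ i, i ≤ n → (ss i).1 ≤ sg.1 ∧ sg.2 ≤ (ss i).2 := by
    intro n
    induction n with
    | zero =>
      refine ⟨ss 0, hs1 0, hs2 0, ?_⟩
      intro i hi
      have : i = 0 := by omega
      subst this
      exact ⟨le_rfl, le_rfl⟩
    | succ n ih =>
      obtain ⟨sg, h1, h2, h3⟩ := ih
      refine ⟨(max sg.1 (ss (n+1)).1, min sg.2 (ss (n+1)).2), max_lt h1 (hs1 _), lt_min h2 (hs2 _), ?_⟩
      intro i hi
      by_cases hin : i = n+1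
      · subst hin; exact ⟨le_max_right _ _, min_le_right _ _⟩
      · have := h3 i (by omega)
        exact ⟨this.1.trans (le_max_left _ _), (min_le_left _ _).trans this.2⟩
  choose sg hg1 hg2 hg3 using hmax
  have hz : ∀ n : ℕ, ∃ z : X, p z < c + 1/((n:ℝ)+1) ∧ (Even n → z ∈ CC (QI (sg n).1 t)) ∧
      (¬ Even n → z ∈ CC (QI t (sg n).2)) := by
    intro n
    have hpos : 0 < 1/((n:ℝ)+1) := by positivity
    by_cases hn : Even n
    · have hlt : sInf (p '' CC (QI (sg n).1 t)) < c + 1/((n:ℝ)+1) := by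
        have := hl _ (hg1 n)
        change mm p (sg n).1 t < _
        linarith
      obtain ⟨_, ⟨z, hz, rfl⟩, h2⟩ := exists_lt_of_csInf_lt ((CC_ne _ (QI_ne _ _ (hg1 n))).image _) hlt
      exact ⟨z, h2, fun _ => hz, fun h => absurd hn h⟩
    · have hlt : sInf (p '' CC (QI t (sg n).2)) < c + 1/((n:ℝ)+1) := by
        have := hr _ (hg2 n)
        change mm p t (sg n).2 < _
        linarith
      obtain ⟨_, ⟨z, hz, rfl⟩, h2⟩ := exists_lt_of_csInf_lt ((CC_ne _ (QI_ne _ _ (hg2 n))).image _) hlt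
      exact ⟨z, h2, fun h => absurd h hn, fun _ => hz⟩
  choose z hz1 hz2 hz3 using hz
  have hzin : ∀ n i, n ≤ i → z i ∈ CC (QI (ss n).1 (ss n).2) := by
    intro n i hni
    have h3 := hg3 i n hni
    by_cases hi : Even i
    · refine CC_mono _ _ ?_ (hz2 i hi)
      intro q hq
      exact ⟨lt_of_le_of_lt h3.1 hq.1, hq.2.trans (hs2 n)⟩
    · refine CC_mono _ _ ?_ (hz3 i hi)
      intro q hq
      exact ⟨(hs1 n).trans hq.1, lt_of_lt_of_le hq.2 h3.2⟩
  refine ⟨t, c, z, lt_of_lt_of_le ha hac, ?_, ?_, hz1, ?_⟩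
  · intro n hn
    refine CC_mono _ _ ?_ (hz2 n hn)
    intro q hq; exact hq.2
  · intro n hn
    refine CC_mono _ _ ?_ (hz3 n hn)
    intro q hq; exact hq.1
  · intro n i j hi hj
    refine (hs3 n).trans_le (mm_le p a b ha hab _ _ _ ?_)
    have h1 := hzin n i hi
    have h2 := hzin n j hj
    have := (convex_convexHull ℝ (eX '' QI (ss n).1 (ss n).2)) h1 h2 (by norm_num : (0:ℝ) ≤ 1/2)
      (by norm_num : (0:ℝ) ≤ 1/2) (by norm_num)
    rw [smul_add]
    exact this

include ha hab in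
lemma not_wcr (hW : ∀ u : ℕ → X, (∀ n, p (u n) = 1) →
    Tendsto (fun k : ℕ × ℕ => p (u k.1 + u k.2)) atTop (𝓝 2) →
    ∀ f : X →L[ℝ] ℝ, CauchySeq (fun n => f (u n))) : False := by
  obtain ⟨t, c, z, hc, hze, hzo, hz1, hz2⟩ := exists_seq p a b ha hab
  have hone : Tendsto (fun n : ℕ => 1/((n:ℝ)+1)) atTop (𝓝 0) := tendsto_one_div_add_atTop_nhds_zero_nat
  -- norms converge
  have hzlow : ∀ n : ℕ, c - 1/((n:ℝ)+1) < p (z n) := by
    intro n
    have h1 := hz2 n n n le_rfl le_rfl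
    have h2 : (1/2 : ℝ) • (z n + z n) = z n := by
      rw [← two_smul ℝ (z n), smul_smul]; norm_num
    rwa [h2] at h1
  have hpz : Tendsto (fun n => p (z n)) atTop (𝓝 c) := by
    have h1 : Tendsto (fun n : ℕ => c - 1/((n:ℝ)+1)) atTop (𝓝 c) := by
      simpa using (tendsto_const_nhds (x := c)).sub hone
    have h2 : Tendsto (fun n : ℕ => c + 1/((n:ℝ)+1)) atTop (𝓝 c) := by
      simpa using (tendsto_const_nhds (x := c)).add hone
    exact tendsto_of_tendsto_of_tendsto_of_le_of_le h1 h2 (fun n => (hzlow n).le) (fun n => (hz1 n).le)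
  have hpos : ∀ n, 0 < p (z n) := by
    intro n
    by_cases hn : Even n
    · exact lt_of_lt_of_le ha (p_ge p a b ha hab _ _ (hze n hn))
    · exact lt_of_lt_of_le ha (p_ge p a b ha hab _ _ (hzo n hn))
  let u : ℕ → X := fun n => (p (z n))⁻¹ • z n
  have hu1 : ∀ n, p (u n) = 1 := by
    intro n
    change p ((p (z n))⁻¹ • z n) = 1
    rw [map_smul_eq_mul, norm_inv, Real.norm_eq_abs, abs_of_pos (hpos n)]
    exact inv_mul_cancel₀ (hpos n).ne'
  have hpair : Tendsto (fun k : ℕ × ℕ => p (z k.1 + z k.2)) atTop (𝓝 (2*c)) := by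
    rw [Metric.tendsto_nhds]
    intro ε hε
    obtain ⟨n, hn⟩ := exists_nat_gt (2/ε)
    filter_upwards [eventually_ge_atTop ((n, n) : ℕ × ℕ)] with k hk
    have hk1 : n ≤ k.1 := hk.1
    have hk2 : n ≤ k.2 := hk.2
    have hnε : 2 * (1/((n:ℝ)+1)) < ε := by
      rw [div_lt_iff₀ hε] at hn
      rw [mul_one_div, div_lt_iff₀ (by positivity)]
      linarith
    have h1 := hz2 n k.1 k.2 hk1 hk2
    rw [map_smul_eq_mul, Real.norm_eq_abs, abs_of_pos (by norm_num : (0:ℝ) < 1/2)] at h1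
    have h2 := map_add_le_add p (z k.1) (z k.2)
    have h3 := hz1 k.1
    have h4 := hz1 k.2
    have h5 : 1/((k.1:ℝ)+1) ≤ 1/((n:ℝ)+1) := by
      apply one_div_le_one_div_of_le (by positivity)
      have : (n:ℝ) ≤ k.1 := by exact_mod_cast hk1
      linarith
    have h6 : 1/((k.2:ℝ)+1) ≤ 1/((n:ℝ)+1) := by
      apply one_div_le_one_div_of_le (by positivity)
      have : (n:ℝ) ≤ k.2 := by exact_mod_cast hk2
      linarith
    rw [Real.dist_eq, abs_lt]
    constructor <;> linarith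
  have hupair : Tendsto (fun k : ℕ × ℕ => p (u k.1 + u k.2)) atTop (𝓝 2) := by
    have hf1 : Tendsto (fun k : ℕ × ℕ => k.1) atTop atTop := by
      rw [← prod_atTop_atTop_eq]; exact tendsto_fst
    have hf2 : Tendsto (fun k : ℕ × ℕ => k.2) atTop atTop := by
      rw [← prod_atTop_atTop_eq]; exact tendsto_snd
    have hq : Tendsto (fun n => |(p (z n))⁻¹ - c⁻¹| * p (z n)) atTop (𝓝 0) := by
      have h1 : Tendsto (fun n => (p (z n))⁻¹ - c⁻¹) atTop (𝓝 0) := by
        have := (hpz.inv₀ hc.ne').sub_const c⁻¹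
        simpa using this
      have := h1.abs.mul hpz
      simpa using this
    have hdiff : ∀ k : ℕ × ℕ, |p (u k.1 + u k.2) - c⁻¹ * p (z k.1 + z k.2)| ≤
        |(p (z k.1))⁻¹ - c⁻¹| * p (z k.1) + |(p (z k.2))⁻¹ - c⁻¹| * p (z k.2) := by
      intro k
      have e1 : c⁻¹ * p (z k.1 + z k.2) = p (c⁻¹ • (z k.1 + z k.2)) := by
        rw [map_smul_eq_mul, Real.norm_eq_abs, abs_of_pos (inv_pos.2 hc)]
      rw [e1]
      refine (abs_sub_map_le_sub p _ _).trans ?_
      have e2 : (u k.1 + u k.2) - c⁻¹ • (z k.1 + z k.2) =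
          ((p (z k.1))⁻¹ - c⁻¹) • z k.1 + ((p (z k.2))⁻¹ - c⁻¹) • z k.2 := by
        simp only [u]
        rw [sub_smul, sub_smul, smul_add]
        abel
      rw [e2]
      refine (map_add_le_add p _ _).trans ?_
      rw [map_smul_eq_mul, map_smul_eq_mul, Real.norm_eq_abs, Real.norm_eq_abs]
    have hlim0 : Tendsto (fun k : ℕ × ℕ => p (u k.1 + u k.2) - c⁻¹ * p (z k.1 + z k.2)) atTop (𝓝 0) := by
      apply squeeze_zero_norm (a := fun k : ℕ × ℕ => |(p (z k.1))⁻¹ - c⁻¹| * p (z k.1) + |(p (z k.2))⁻¹ - c⁻¹| * p (z k.2))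
      · intro k
        rw [Real.norm_eq_abs]
        exact hdiff k
      · have := (hq.comp hf1).add (hq.comp hf2)
        simpa using this
    have h2 : Tendsto (fun k : ℕ × ℕ => c⁻¹ * p (z k.1 + z k.2)) atTop (𝓝 2) := by
      have := hpair.const_mul c⁻¹
      have e : c⁻¹ * (2 * c) = 2 := by field_simp
      rwa [e] at this
    have := hlim0.add h2
    simpa using this
  -- the separating functional
  have hS : ({q : ℚ | (q:ℝ) < t}).OrdConnected := by
    rw [Set.ordConnected_def]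
    intro x _ y hy w hw
    have h1 : (w:ℝ) ≤ y := by exact_mod_cast hw.2
    exact lt_of_le_of_lt h1 hy
  have hcau := hW u hu1 hupair (fS _ hS)
  rw [Metric.cauchySeq_iff] at hcau
  obtain ⟨N, hN⟩ := hcau (1/(c+1)) (by positivity)
  have h1 := hN (2*N) (by omega) (2*N+1) (by omega)
  have hev : Even (2*N) := even_two_mul N
  have hod : ¬ Even (2*N+1) := by
    rw [Nat.not_even_iff_odd]; exact odd_two_mul_add_one N
  have e1 : fS _ hS (u (2*N)) = (p (z (2*N)))⁻¹ := by
    simp only [u]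
    rw [map_smul, fS_CC_one _ _ hS subset_rfl _ (hze _ hev)]
    simp
  have e2 : fS _ hS (u (2*N+1)) = 0 := by
    simp only [u]
    rw [map_smul, fS_CC_zero _ _ hS _ _ (hzo _ hod)]
    · simp
    · rw [Set.disjoint_left]
      intro q hq hq'
      exact absurd (show (q:ℝ) < t from hq') (not_lt.2 (le_of_lt (show t < (q:ℝ) from hq)))
  rw [e1, e2, Real.dist_eq, sub_zero, abs_of_pos (inv_pos.2 (hpos _))] at h1
  have h2 : p (z (2*N)) < c + 1 := by
    have := hz1 (2*N)
    have h3 : 1/(((2*N : ℕ):ℝ)+1) ≤ 1 := by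
      rw [div_le_one (by positivity)]
      have : (0:ℝ) ≤ ((2*N : ℕ):ℝ) := Nat.cast_nonneg _
      linarith
    linarith
  have h3 : (c+1)⁻¹ < (p (z (2*N)))⁻¹ := inv_strictAnti₀ (hpos _) h2
  rw [one_div] at h1
  linarith

end renorm

theorem main : ¬ (∀ (X : Type) [NormedAddCommGroup X] [NormedSpace ℝ X] [CompleteSpace X]
      [TopologicalSpace.SeparableSpace X],
      (¬ ∃ (T : lp (fun _ : ℕ => ℝ) (1 : ENNReal) →L[ℝ] X) (c : ℝ),
          0 < c ∧ ∀ y, c * ‖y‖ ≤ ‖T y‖) ↔
      ∃ (p : Seminorm ℝ X) (a b : ℝ), 0 < a ∧ 0 < b ∧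
        (∀ x : X, a * ‖x‖ ≤ p x ∧ p x ≤ b * ‖x‖) ∧
        ∀ u : ℕ → X, (∀ n, p (u n) = 1) →
          Tendsto (fun k : ℕ × ℕ => p (u k.1 + u k.2)) atTop (𝓝 2) →
          ∀ f : X →L[ℝ] ℝ, CauchySeq (fun n => f (u n))) := by
  intro h
  obtain ⟨p, a, b, ha, -, hab, hW⟩ := (h X).1 no_l1
  exact not_wcr p a b ha hab hW

end Pool.Agent.S03450.JQ

namespace Pool.Agent.S03450

/-- The negation of the preceding statement: A separable real Banach space has no isomorphic copy of ℓ1 iff it has an equivalent norm in which every unit-sphere sequence with norm of (x_n + x_m) tending to 2 is weakly Cauchy. -/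
theorem result :
    ¬ (∀ (X : Type) [NormedAddCommGroup X] [NormedSpace ℝ X] [CompleteSpace X]
      [TopologicalSpace.SeparableSpace X],
      (¬ ∃ (T : lp (fun _ : ℕ => ℝ) (1 : ENNReal) →L[ℝ] X) (c : ℝ),
          0 < c ∧ ∀ y, c * ‖y‖ ≤ ‖T y‖) ↔
      ∃ (p : Seminorm ℝ X) (a b : ℝ), 0 < a ∧ 0 < b ∧
        (∀ x : X, a * ‖x‖ ≤ p x ∧ p x ≤ b * ‖x‖) ∧
        ∀ u : ℕ → X, (∀ n, p (u n) = 1) →
          Tendsto (fun k : ℕ × ℕ => p (u k.1 + u k.2)) atTop (𝓝 2) →
          ∀ f : X →L[ℝ] ℝ, CauchySeq (fun n => f (u n))) := by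
  exact Pool.Agent.S03450.JQ.main

end Pool.Agent.S03450
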