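import Pool.Statements.S03457
import Pool.Agent.Helper187.GlobalU

set_option autoImplicit false
open Pool Pool.MP_7e3aa6_an

namespace Pool.Agent.S03457

/-- There is a complete orthonormal sequence of real L² functions on [0,1] such that, for every continuous f on [0,1] that is not identically zero, the partial sums of its orthogonal expansion are unbounded at almost every point of [0,1]. -/
theorem result :
    ∃ φ : ℕ → ℝ → ℝ,
      (∀ i, MeasureTheory.MemLp (φ i) 2
        (MeasureTheory.volume.restrict (Set.Icc (0:ℝ) 1))) ∧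
      (∀ i j, ∫ x in Set.Icc (0:ℝ) 1, φ i x * φ j x = if i = j then (1:ℝ) else 0) ∧
      (∀ g : ℝ → ℝ, MeasureTheory.MemLp g 2
          (MeasureTheory.volume.restrict (Set.Icc (0:ℝ) 1)) →
        (∀ i, ∫ x in Set.Icc (0:ℝ) 1, g x * φ i x = 0) →
        g =ᵐ[MeasureTheory.volume.restrict (Set.Icc (0:ℝ) 1)] 0) ∧
      (∀ f : ℝ → ℝ, ContinuousOn f (Set.Icc (0:ℝ) 1) →
        (∃ x ∈ Set.Icc (0:ℝ) 1, f x ≠ 0) →
        ∀ᵐ t ∂(MeasureTheory.volume.restrict (Set.Icc (0:ℝ) 1)),
          ¬ BddAbove (Set.range (fun n : ℕ =>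
            |∑ i ∈ Finset.range n, φ i t * ∫ x in Set.Icc (0:ℝ) 1, f x * φ i x|))) := by
  obtain ⟨Φ, hon, hcomp, hdiv⟩ := Pool.Agent.Helper187.GlobalU.main
  refine ⟨fun i => Φ i, fun i => MeasureTheory.Lp.memLp (Φ i), ?_, ?_, ?_⟩
  · intro i j
    rw [← (orthonormal_iff_ite.mp hon) i j, Pool.Agent.Helper187.StepSpace.inner_eq]
  · intro g hg h
    have hx : hg.toLp g = 0 := by
      apply hcomp
      intro i
      rw [Pool.Agent.Helper187.StepSpace.inner_of_ae hg.coeFn_toLp (Filter.EventuallyEq.refl _ _)]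
      exact h i
    have h2 : (hg.toLp g : ℝ → ℝ) =ᵐ[MeasureTheory.volume.restrict (Set.Icc (0:ℝ) 1)] fun _ => 0 := by
      rw [hx]
      exact MeasureTheory.Lp.coeFn_zero _ _ _
    filter_upwards [hg.coeFn_toLp, h2] with t e1 e2
    rw [← e1, e2]
    rfl
  · rintro f hf ⟨x0, hx0, hfx0⟩
    obtain ⟨C, hC⟩ := isCompact_Icc.exists_bound_of_continuousOn hf
    have hmem : ∀ᵐ t ∂(MeasureTheory.volume.restrict (Set.Icc (0:ℝ) 1)), t ∈ Set.Icc (0:ℝ) 1 :=
      MeasureTheory.ae_restrict_mem measurableSet_Icc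
    have hfm : MeasureTheory.AEStronglyMeasurable f
        (MeasureTheory.volume.restrict (Set.Icc (0:ℝ) 1)) := hf.aestronglyMeasurable measurableSet_Icc
    have hfL : MeasureTheory.MemLp f 2 (MeasureTheory.volume.restrict (Set.Icc (0:ℝ) 1)) := by
      apply MeasureTheory.MemLp.of_bound hfm C
      filter_upwards [hmem] with t ht
      exact hC t ht
    have hne : hfL.toLp f ≠ 0 := by
      intro h0
      have h1 : f =ᵐ[MeasureTheory.volume.restrict (Set.Icc (0:ℝ) 1)] fun _ => (0:ℝ) := by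
        have h2 : (hfL.toLp f : ℝ → ℝ) =ᵐ[MeasureTheory.volume.restrict (Set.Icc (0:ℝ) 1)]
            fun _ => 0 := by
          rw [h0]
          exact MeasureTheory.Lp.coeFn_zero _ _ _
        filter_upwards [hfL.coeFn_toLp, h2] with t e1 e2
        rw [← e1, e2]
      have h3 := MeasureTheory.Measure.eqOn_Icc_of_ae_eq MeasureTheory.volume (by norm_num : (0:ℝ) ≠ 1) h1 hf
        continuousOn_const
      exact hfx0 (h3 hx0)
    filter_upwards [hdiv (hfL.toLp f) ⟨C, by
      filter_upwards [hfL.coeFn_toLp, hmem] with t e1 e2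
      rw [e1]
      exact hC t e2⟩ hne] with t ht
    intro hb
    apply ht
    have hcoef : ∀ i, inner ℝ (hfL.toLp f) (Φ i) = ∫ x in Set.Icc (0:ℝ) 1, f x * Φ i x := fun i =>
      Pool.Agent.Helper187.StepSpace.inner_of_ae hfL.coeFn_toLp (Filter.EventuallyEq.refl _ _)
    simp_rw [hcoef]
    have : (fun N : ℕ => |∑ i ∈ Finset.range N, (∫ x in Set.Icc (0:ℝ) 1, f x * Φ i x) * Φ i t|) =
        fun N : ℕ => |∑ i ∈ Finset.range N, Φ i t * ∫ x in Set.Icc (0:ℝ) 1, f x * Φ i x| := by
      funext N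
      congr 1
      apply Finset.sum_congr rfl
      intro i _
      ring
    rw [this]
    exact hb

end Pool.Agent.S03457
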