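import Pool.Statements.S03469
import Pool.Agent.Helper633.GoalOfStep
import Pool.Agent.Helper19.RU.StepF
import Pool.Agent.Helper19.RU.Asm

set_option autoImplicit false
open MeasureTheory
open Pool Pool.MP_7ebef4_an

namespace Pool.Agent.S03469

/-- For every n>1, each holomorphic f on the unit ball of ℂⁿ with bounded sphere integral means of ∣f∣ is, on the ball, a finite sum of products g_i·h_i of holomorphic functions whose sphere integral means of ∣·∣² are bounded. -/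
theorem result :
  ∀ n : ℕ, 1 < n → ∀ f : EuclideanSpace ℂ (Fin n) → ℂ,
    DifferentiableOn ℂ f (Metric.ball (0 : EuclideanSpace ℂ (Fin n)) 1) →
    (∃ C : ℝ, ∀ r : ℝ, 0 ≤ r → r < 1 →
      ∫⁻ ζ, ‖f ((r : ℂ) • (ζ : EuclideanSpace ℂ (Fin n)))‖ₑ
        ∂((volume : Measure (EuclideanSpace ℂ (Fin n))).toSphere) ≤ ENNReal.ofReal C) →
    ∃ N : ℕ, ∃ g h : Fin N → EuclideanSpace ℂ (Fin n) → ℂ,
      (∀ i, DifferentiableOn ℂ (g i) (Metric.ball (0 : EuclideanSpace ℂ (Fin n)) 1) ∧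
        ∃ C : ℝ, ∀ r : ℝ, 0 ≤ r → r < 1 →
          ∫⁻ ζ, ‖g i ((r : ℂ) • (ζ : EuclideanSpace ℂ (Fin n)))‖ₑ ^ 2
            ∂((volume : Measure (EuclideanSpace ℂ (Fin n))).toSphere) ≤ ENNReal.ofReal C) ∧
      (∀ i, DifferentiableOn ℂ (h i) (Metric.ball (0 : EuclideanSpace ℂ (Fin n)) 1) ∧
        ∃ C : ℝ, ∀ r : ℝ, 0 ≤ r → r < 1 →
          ∫⁻ ζ, ‖h i ((r : ℂ) • (ζ : EuclideanSpace ℂ (Fin n)))‖ₑ ^ 2
            ∂((volume : Measure (EuclideanSpace ℂ (Fin n))).toSphere) ≤ ENNReal.ofReal C) ∧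
      ∀ z ∈ Metric.ball (0 : EuclideanSpace ℂ (Fin n)) 1, f z = ∑ i, g i z * h i z := by
  intro n hn f hf hC
  obtain ⟨al, Nc, C, hal, hstep⟩ := Pool.Agent.Helper19.RU.step_of_EBlock n hn.le hn
    (Pool.Agent.Helper19.RU.eblock n hn.le hn)
  exact Pool.Agent.Helper633.Lim.goal_of_step n al Nc C hn hal
    (Pool.Agent.Helper19.RU.repro n al hn.le hal) hstep f hf hC

end Pool.Agent.S03469
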