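import Pool.Statements.S03474
import Pool.Agent.Helper873.FinalTwo

set_option autoImplicit false
open Pool Pool.MP_7f5f24_an

namespace Pool.Agent.S03474

/-- conversion of indices -/
lemma conv (d : ℕ →₀ ℂ) (K : ℕ) (hK : ∀ n ∈ d.support, n + 1 ≤ K) (s : ℂ) :
    ∑ n ∈ Finset.Icc 1 K, d (n - 1) * (n : ℂ) ^ (-s) =
      Helper873.Monomial.poly d (Helper873.Alg.vs s) := by
  rw [Helper873.Alg.poly_vs]
  have h1 : ∑ n ∈ d.support, d n * ((n : ℂ) + 1) ^ (-s) =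
      ∑ n ∈ Finset.range K, d n * ((n : ℂ) + 1) ^ (-s) := by
    refine Finset.sum_subset (fun n hn => ?_) fun n _ hn => ?_
    · rw [Finset.mem_range]; exact hK n hn
    · rw [Finsupp.notMem_support_iff.1 hn, zero_mul]
  rw [h1, Finset.range_eq_Ico]
  have h2 := Finset.sum_Ico_add' (fun n : ℕ => d (n - 1) * (n : ℂ) ^ (-s)) 0 K 1
  have h3 : Finset.Icc 1 K = Finset.Ico (0 + 1) (K + 1) := by
    ext n; simp only [Finset.mem_Icc, Finset.mem_Ico]; omega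
  rw [h3, ← h2]
  refine Finset.sum_congr rfl fun n _ => ?_
  simp

/-- The negation of the preceding statement: For 0<p<2, every nonzero function on Re s>1/2 that is the pointwise limit of Dirichlet polynomials Cauchy in the H^p norm has zeros satisfying sum of multiplicity times (Re ρ−1/2)/(1+∣ρ∣^2) finite. -/
theorem result :
    ¬ (∀ p : ℝ, 0 < p → p < 2 →
    ∀ (c : ℕ → ℕ → ℂ) (N : ℕ → ℕ) (f : ℂ → ℂ),
      (∀ ε : ℝ, 0 < ε → ∃ K : ℕ, ∀ j ≥ K, ∀ k ≥ K, ∃ T₀ : ℝ, 0 < T₀ ∧ ∀ T ≥ T₀,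
        (1 / (2 * T)) * ∫ t in (-T)..T,
          ‖(∑ n ∈ Finset.Icc 1 (N j), c j n * (n : ℂ) ^ (-((t : ℂ) * Complex.I)))
            - (∑ n ∈ Finset.Icc 1 (N k), c k n * (n : ℂ) ^ (-((t : ℂ) * Complex.I)))‖ ^ p
          < ε) →
      (∀ s : ℂ, 1 / 2 < s.re →
        Filter.Tendsto (fun k : ℕ => ∑ n ∈ Finset.Icc 1 (N k), c k n * (n : ℂ) ^ (-s))
          Filter.atTop (nhds (f s))) →
      (∃ s : ℂ, 1 / 2 < s.re ∧ f s ≠ 0) →
      ∃ C : ℝ, ∀ S : Finset ℂ, (∀ ρ ∈ S, 1 / 2 < ρ.re ∧ f ρ = 0) →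
        ∑ ρ ∈ S, (analyticOrderNatAt f ρ : ℝ) * (ρ.re - 1 / 2) / (1 + ‖ρ‖ ^ 2) ≤ C) := by
  intro H
  obtain ⟨P, f, h1, h2, h3, h4⟩ := Helper873.FinalTwo.main74
  choose K hK using fun k => Helper873.Monomial.exists_bound (P k)
  refine h4 (H 1 one_pos one_lt_two (fun k n => P k (n - 1)) K f ?_ ?_
    ⟨3 / 2, by norm_num, h3⟩)
  · intro ε hε
    obtain ⟨N, hN⟩ := h1 ε hε
    refine ⟨N, fun j hj k hk => ?_⟩
    have h5 := Helper873.Mean.mean_value (P j - P k)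
    have h6 := (tendsto_order.1 h5).2 ε (hN j hj k hk)
    obtain ⟨T0, hT0⟩ := Filter.eventually_atTop.1 h6
    refine ⟨max T0 1, lt_of_lt_of_le one_pos (le_max_right _ _), fun T hT => ?_⟩
    have h7 := hT0 T ((le_max_left _ _).trans hT)
    simp_rw [conv (P j) (K j) (hK j), conv (P k) (K k) (hK k), Real.rpow_one,
      ← Helper873.Alg.poly_sub]
    exact h7
  · intro s hs
    simp_rw [conv (P _) (K _) (hK _)]
    exact h2 s hs

end Pool.Agent.S03474
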