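import Pool.Statements.S03481
import Pool.Agent.Helper34.KreinMain

set_option autoImplicit false
open MeasureTheory
open Pool Pool.MP_8048c5_an

namespace Pool.Agent.S03481

/-- For finite A>0, every measurable f on (-A,A) defining a bounded functional on exponential sums with frequencies in (-A,A) (sup norm on ℝ) extends to a measurable g on ℝ defining a bounded such functional for all real frequencies. -/
theorem result :
    ∀ A : ℝ, 0 < A → ∀ f : ℝ → ℂ,
      AEMeasurable f (volume.restrict (Set.Ioo (-A) A)) →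
      (∃ C : ℝ, ∀ s : Finset ℝ, (∀ x ∈ s, x ∈ Set.Ioo (-A) A) →
        ∀ c : ℝ → ℂ, ∀ M : ℝ,
          (∀ t : ℝ, ‖∑ x ∈ s, c x * Complex.exp (Complex.I * (x : ℂ) * (t : ℂ))‖ ≤ M) →
          ‖∑ x ∈ s, c x * f x‖ ≤ C * M) →
      ∃ g : ℝ → ℂ, (∀ x ∈ Set.Ioo (-A) A, g x = f x) ∧ AEMeasurable g volume ∧
        ∃ C : ℝ, ∀ s : Finset ℝ, ∀ c : ℝ → ℂ, ∀ M : ℝ,
          (∀ t : ℝ, ‖∑ x ∈ s, c x * Complex.exp (Complex.I * (x : ℂ) * (t : ℂ))‖ ≤ M) →
          ‖∑ x ∈ s, c x * g x‖ ≤ C * M := by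
  intro A hA f hf hfb
  obtain ⟨C, hC⟩ := hfb
  obtain ⟨H, i1, i2, i3, π, u, v, hπ, hb, hu, hv, hrep⟩ :=
    Pool.Agent.Helper34.Krein.exists_rep (Set.Ioo (-A) A) f C (by
      intro h hh M hM
      rw [Pool.Agent.Helper34.Krein.Phi_apply]
      refine hC h.support ?_ h M ?_
      · intro x hx
        exact (Finsupp.mem_supported ℂ h).1 hh hx
      · intro t
        rw [← Pool.Agent.Helper34.Krein.ap_apply]
        exact hM t)
  have hF : AEStronglyMeasurable (fun l : ℝ => inner ℂ v (π l u))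
      (volume.restrict (Set.Ioo (-A) A)) := by
    refine hf.aestronglyMeasurable.congr ?_
    filter_upwards [self_mem_ae_restrict measurableSet_Ioo] with x hx
    exact hrep x hx
  obtain ⟨uc, u0, u2, hsum, hc, h0, hnorm, hz⟩ := hπ.decomposition u v isOpen_Ioo hF
  refine ⟨fun x => inner ℂ v (π x (uc + u0)), ?_, ?_, ‖v‖ * ‖uc + u0‖, ?_⟩
  · intro x hx
    rw [hrep x hx, hsum, map_add (π x) (uc + u0) u2, inner_add_right, hz x hx, add_zero]
  · exact (Pool.Agent.Helper34.Krein.aestronglyMeasurable_good hc h0 v).aemeasurable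
  · intro s c M hM
    have h1 := Pool.Agent.Helper34.Krein.norm_Phi_coeff_le hb v (uc + u0)
      (∑ x ∈ s, Finsupp.single x (c x)) M (by
        intro t
        rw [Pool.Agent.Helper34.Krein.ap_finset]
        exact hM t)
    rw [Pool.Agent.Helper34.Krein.Phi_finset] at h1
    exact h1

end Pool.Agent.S03481
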