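import Pool.Statements.S03486
-- import your own Pool.Agent.* helpers here

set_option autoImplicit false
open Pool Pool.MP_80a07b_an
open Topology Set Filter

namespace Pool.Agent.S03486

lemma exists_countable_subgroup {U : Type*} [Group U] (G : Subgroup U)
    (hG : (G : Set U).Infinite) :
    ∃ H : Subgroup U, H ≤ G ∧ (H : Set U).Countable ∧ (H : Set U).Infinite := by
  have e := hG.natEmbedding
  let f : ℕ → U := fun n => (e n : U)
  have : Countable (FreeGroup ℕ) := by
    unfold FreeGroup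
    infer_instance
  refine ⟨(FreeGroup.lift f).range, ?_, ?_, ?_⟩
  · rw [FreeGroup.range_lift_eq_closure, Subgroup.closure_le]
    rintro _ ⟨n, rfl⟩
    exact (e n).2
  · rw [MonoidHom.coe_range]
    exact countable_range _
  · apply Set.infinite_of_injective_forall_mem (f := f)
    · intro a b hab
      exact e.injective (Subtype.ext hab)
    · intro n
      rw [SetLike.mem_coe]
      exact ⟨FreeGroup.of n, by simp⟩

/-- Topological dynamics core: minimal sets and Baire category. -/
lemma dyn {Y Γ ι : Type*} [TopologicalSpace Y] [T2Space Y] [Group Γ] [Infinite Γ] [Countable ι]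
    (act : Γ → Y → Y) (hcont : ∀ g, Continuous (act g))
    (hone : ∀ y, act 1 y = y) (hmul : ∀ g h y, act (g * h) y = act g (act h y))
    (K : Set Y) (hK : IsCompact K) (hne : K.Nonempty) (hinv : ∀ g, ∀ y ∈ K, act g y ∈ K)
    (B : ι → Set Y) (hB : ∀ n, IsClosed (B n)) (hcov : K ⊆ ⋃ n, B n) :
    ∃ n, ∃ x ∈ K, ∃ a g h : Γ, g ≠ h ∧ act (a * g) x ∈ B n ∧ act (a * h) x ∈ B n := by
  classical
  -- minimal closed invariant set
  let S : Set (Set Y) := {V | V ⊆ K ∧ IsClosed V ∧ V.Nonempty ∧ ∀ g, ∀ y ∈ V, act g y ∈ V}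
  have hKS : K ∈ S := ⟨Subset.rfl, hK.isClosed, hne, hinv⟩
  obtain ⟨M, hMK, hM⟩ := zorn_superset_nonempty S (by
    intro c hc hchain hcne
    refine ⟨⋂₀ c, ⟨?_, ?_, ?_, ?_⟩, fun s hs => sInter_subset_of_mem hs⟩
    · obtain ⟨s, hs⟩ := hcne
      exact (sInter_subset_of_mem hs).trans (hc hs).1
    · exact isClosed_sInter fun s hs => (hc hs).2.1
    · have : Nonempty c := hcne.to_subtype
      rw [sInter_eq_iInter]
      apply IsCompact.nonempty_iInter_of_directed_nonempty_isCompact_isClosed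
      · rintro ⟨U, hU⟩ ⟨V, hV⟩
        rcases hchain.total hU hV with h | h
        · exact ⟨⟨U, hU⟩, Subset.rfl, h⟩
        · exact ⟨⟨V, hV⟩, h, Subset.rfl⟩
      · exact fun U => (hc U.2).2.2.1
      · exact fun U => hK.of_isClosed_subset (hc U.2).2.1 (hc U.2).1
      · exact fun U => (hc U.2).2.1
    · intro g y hy s hs
      exact (hc hs).2.2.2 g y (hy s hs)) K hKS
  obtain ⟨hMK', hMcl, hMne, hMinv⟩ := hM.prop
  have hMmin : ∀ V : Set Y, V ⊆ M → IsClosed V → V.Nonempty →
      (∀ g, ∀ y ∈ V, act g y ∈ V) → V = M := by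
    intro V hVM hVcl hVne hVinv
    exact Subset.antisymm hVM (hM.2 ⟨hVM.trans hMK', hVcl, hVne, hVinv⟩ hVM)
  have hMcomp : IsCompact M := hK.of_isClosed_subset hMcl hMK'
  -- Baire
  have : CompactSpace M := isCompact_iff_compactSpace.mp hMcomp
  have : Nonempty M := hMne.to_subtype
  have hbaire := nonempty_interior_of_iUnion_of_closed (X := M)
    (f := fun n => ((↑) : M → Y) ⁻¹' (B n))
    (fun n => (hB n).preimage continuous_subtype_val) (by
      rw [← preimage_iUnion]
      exact eq_univ_of_forall fun y => hcov (hMK' y.2))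
  obtain ⟨n, ⟨z, hz⟩⟩ := hbaire
  rw [mem_interior] at hz
  obtain ⟨W, hWB, hWo, hzW⟩ := hz
  obtain ⟨O, hO, rfl⟩ := isOpen_induced_iff.mp hWo
  -- the translates of O cover M
  have hcover : M ⊆ ⋃ g : Γ, act g ⁻¹' O := by
    by_contra hcon
    have hN : (M \ ⋃ g : Γ, act g ⁻¹' O) = M := by
      apply hMmin
      · exact sdiff_subset
      · exact hMcl.sdiff (isOpen_iUnion fun g => hO.preimage (hcont g))
      · exact nonempty_of_not_subset hcon
      · rintro g y ⟨hyM, hy⟩
        refine ⟨hMinv g y hyM, ?_⟩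
        intro hgy
        apply hy
        rw [mem_iUnion] at hgy ⊢
        obtain ⟨k, hk⟩ := hgy
        refine ⟨k * g, ?_⟩
        rw [mem_preimage, hmul]
        exact hk
    have hzM : (z : Y) ∈ M \ ⋃ g : Γ, act g ⁻¹' O := by
      rw [hN]; exact z.2
    apply hzM.2
    rw [mem_iUnion]
    refine ⟨1, ?_⟩
    rw [mem_preimage, hone]
    exact hzW
  obtain ⟨t, ht⟩ := hMcomp.elim_finite_subcover _ (fun g => hO.preimage (hcont g)) hcover
  -- pigeonhole
  obtain ⟨x, hx⟩ := hMne
  have hsel : ∀ γ : Γ, ∃ g : t, act g (act γ x) ∈ O := by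
    intro γ
    have := ht (hMinv γ x hx)
    simp only [mem_iUnion, mem_preimage] at this
    obtain ⟨g, hg, hgO⟩ := this
    exact ⟨⟨g, hg⟩, hgO⟩
  choose F hF using hsel
  obtain ⟨g, h, hgh, hFgh⟩ := Finite.exists_ne_map_eq_of_infinite F
  refine ⟨n, x, hMK' hx, F g, g, h, hgh, ?_, ?_⟩
  · rw [hmul]
    have : (⟨act (F g) (act g x), hMinv _ _ (hMinv _ _ hx)⟩ : M) ∈ ((↑) : M → Y) ⁻¹' O := hF g
    exact hWB this
  · rw [hmul, hFgh]
    have : (⟨act (F h) (act h x), hMinv _ _ (hMinv _ _ hx)⟩ : M) ∈ ((↑) : M → Y) ⁻¹' O := hF h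
    exact hWB this


section weak
variable {X : Type} [NormedAddCommGroup X] [NormedSpace ℝ X]

lemma isClosed_weak_of_convex (s : Set X) (hs : Convex ℝ s) (hc : IsClosed s) :
    IsClosed {z : WeakSpace ℝ X | (toWeakSpace ℝ X).symm z ∈ s} := by
  have h := hs.toWeakSpace_closure ℝ
  rw [hc.closure_eq] at h
  have h2 : {z : WeakSpace ℝ X | (toWeakSpace ℝ X).symm z ∈ s} = (toWeakSpace ℝ X) '' s := by
    ext z
    constructor
    · intro hz
      exact ⟨(toWeakSpace ℝ X).symm z, hz, (toWeakSpace ℝ X).apply_symm_apply z⟩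
    · rintro ⟨x, hx, rfl⟩
      simpa using hx
  rw [h2, h]
  exact isClosed_closure

lemma weak_cont_of_finrank (T : X →L[ℝ] X) (V : Submodule ℝ X) [FiniteDimensional ℝ V]
    (hT : ∀ x, T x ∈ V) :
    Continuous (fun z : WeakSpace ℝ X => T ((toWeakSpace ℝ X).symm z)) := by
  let b := Module.finBasis ℝ V
  let T' : X →L[ℝ] V := T.codRestrict V hT
  let φ : Fin (Module.finrank ℝ V) → (X →L[ℝ] ℝ) := fun i =>
    (LinearMap.toContinuousLinearMap (b.coord i)).comp T'
  have h : (fun z : WeakSpace ℝ X => T ((toWeakSpace ℝ X).symm z)) =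
      fun z => ∑ i, (φ i ((toWeakSpace ℝ X).symm z)) • ((b i : V) : X) := by
    funext z
    have h1 : T ((toWeakSpace ℝ X).symm z) = ((T' ((toWeakSpace ℝ X).symm z) : V) : X) := rfl
    rw [h1]
    have h2 := congrArg (fun v : V => (v : X)) (b.sum_repr (T' ((toWeakSpace ℝ X).symm z)))
    simp only [Submodule.coe_sum, Submodule.coe_smul] at h2
    rw [← h2]
    rfl
  rw [h]
  refine continuous_finsetSum _ fun i _ => ?_
  refine Continuous.smul ?_ continuous_const
  exact WeakBilin.eval_continuous (topDualPairing ℝ X).flip (φ i)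

lemma isCompact_ball
    (hrefl : ∀ φ : (X →L[ℝ] ℝ) →L[ℝ] ℝ, ∃ x : X, ∀ f : X →L[ℝ] ℝ, φ f = f x) (R : ℝ) :
    IsCompact {z : WeakSpace ℝ X | (toWeakSpace ℝ X).symm z ∈ Metric.closedBall (0 : X) R} := by
  have hcl := isClosed_weak_of_convex (Metric.closedBall (0 : X) R)
    (convex_closedBall _ _) Metric.isClosed_closedBall
  have := NormedSpace.isCompact_closure_of_isBounded ℝ X
    {z : WeakSpace ℝ X | (toWeakSpace ℝ X).symm z ∈ Metric.closedBall (0 : X) R}
    (by
      have : (toWeakSpace ℝ X) ⁻¹' {z : WeakSpace ℝ X | (toWeakSpace ℝ X).symm z ∈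
          Metric.closedBall (0 : X) R} = Metric.closedBall (0 : X) R := by
        ext x; simp
      rw [this]
      exact Metric.isBounded_closedBall)
    (by
      intro φ _
      obtain ⟨x, hx⟩ := hrefl (WeakDual.toStrongDual φ)
      refine ⟨toWeakSpace ℝ X x, ?_⟩
      refine DFunLike.ext _ _ fun f => ?_
      exact (hx f).symm)
  rwa [hcl.closure_eq] at this

end weak

variable {X : Type} [NormedAddCommGroup X] [NormedSpace ℝ X]

theorem main
    (hrefl : ∀ φ : (X →L[ℝ] ℝ) →L[ℝ] ℝ, ∃ x : X, ∀ f : X →L[ℝ] ℝ, φ f = f x)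
    (G : Subgroup (X →L[ℝ] X)ˣ) (hinf : (G : Set (X →L[ℝ] X)ˣ).Infinite)
    (C : ℝ) (hC : ∀ g ∈ G, ‖g.val‖ ≤ C)
    (hfin : ∀ g ∈ G, ∃ s : Finset X, ∀ x : X, g.val x - x ∈ Submodule.span ℝ (s : Set X))
    (s : Finset X) (ε : ℝ) (hε : 0 < ε)
    (hs : ∀ h ∈ G, (∀ x ∈ s, ‖h.val x - x‖ < ε) → h = 1) : False := by
  classical
  -- WLOG C ≥ 1
  obtain ⟨C, hC1, hC⟩ : ∃ C : ℝ, 1 ≤ C ∧ ∀ g ∈ G, ∀ x : X, ‖g.val x‖ ≤ C * ‖x‖ := by
    refine ⟨max C 1, le_max_right _ _, fun g hg x => ?_⟩
    exact ((g.val).le_opNorm x).trans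
      (mul_le_mul_of_nonneg_right ((hC g hg).trans (le_max_left _ _)) (norm_nonneg _))
  have hC0 : 0 < C := by linarith
  -- countable infinite subgroup
  obtain ⟨H, hHG, hHc, hHinf⟩ := exists_countable_subgroup G hinf
  have : Countable H := hHc.to_subtype
  have : Infinite H := hHinf.to_subtype
  let act : H → (s → WeakSpace ℝ X) → (s → WeakSpace ℝ X) :=
    fun g y i => WeakSpace.map (g : (X →L[ℝ] X)ˣ).val (y i)
  let Op : H → X →L[ℝ] X := fun g => (g : (X →L[ℝ] X)ˣ).val
  have hOp1 : ∀ x, Op 1 x = x := fun x => rfl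
  have hOpmul : ∀ g h x, Op (g * h) x = Op g (Op h x) := fun g h x => rfl
  have hOpC : ∀ g x, ‖Op g x‖ ≤ C * ‖x‖ := fun g x => hC g (hHG g.2) x
  have hOps : ∀ h : H, (∀ x ∈ s, ‖Op h x - x‖ < ε) → h = 1 := by
    intro h hh
    have := hs h (hHG h.2) hh
    exact Subtype.ext this
  let R : ℝ := C * ∑ x ∈ s, ‖x‖
  have hR : ∀ g (i : s), ‖Op g i‖ ≤ R := by
    intro g i
    refine (hOpC g i).trans (mul_le_mul_of_nonneg_left ?_ hC0.le)
    exact Finset.single_le_sum (f := fun x : X => ‖x‖) (fun x _ => norm_nonneg x) i.2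
  -- separable invariant closed subspace
  let O : Set X := ⋃ x ∈ s, Set.range (fun g : H => Op g x)
  have hOc : O.Countable := by
    refine Set.Countable.biUnion s.countable_toSet fun x _ => Set.countable_range _
  let D : Submodule ℝ X := (Submodule.span ℝ O).topologicalClosure
  have hDcl : IsClosed (D : Set X) := Submodule.isClosed_topologicalClosure _
  have hDsep : TopologicalSpace.IsSeparable (D : Set X) := by
    have h1 : TopologicalSpace.IsSeparable O := hOc.isSeparable
    have h2 := (TopologicalSpace.IsSeparable.span (R := ℝ) h1).closure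
    rwa [← Submodule.topologicalClosure_coe] at h2
  have hDinv : ∀ g : H, ∀ x ∈ D, Op g x ∈ D := by
    intro g
    have : D ≤ D.comap (Op g : X →ₗ[ℝ] X) := by
      apply Submodule.topologicalClosure_minimal
      · rw [Submodule.span_le]
        intro x hx
        simp only [O, mem_iUnion, mem_range] at hx
        obtain ⟨y, hy, k, rfl⟩ := hx
        apply Submodule.le_topologicalClosure
        apply Submodule.subset_span
        simp only [O, mem_iUnion, mem_range]
        exact ⟨y, hy, g * k, rfl⟩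
      · exact hDcl.preimage (Op g).continuous
    exact this
  let K : Set (s → WeakSpace ℝ X) := {y |
    (∀ (g : H) (i : s), ‖Op g ((toWeakSpace ℝ X).symm (y i))‖ ≤ R) ∧
    (∀ i, (toWeakSpace ℝ X).symm (y i) ∈ D) ∧
    (∀ g h : H, h ≠ 1 → ∃ i, ε / C ≤ ‖Op h (Op g ((toWeakSpace ℝ X).symm (y i)))
      - Op g ((toWeakSpace ℝ X).symm (y i))‖)}
  have hKcl : IsClosed K := by
    have e : K = (⋂ (g : H), ⋂ (i : s), {y | ‖Op g ((toWeakSpace ℝ X).symm (y i))‖ ≤ R}) ∩
      ((⋂ (i : s), {y | (toWeakSpace ℝ X).symm (y i) ∈ D}) ∩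
      (⋂ (g : H), ⋂ (h : H), ⋂ (_ : h ≠ 1), ⋃ (i : s),
        {y | ε / C ≤ ‖Op h (Op g ((toWeakSpace ℝ X).symm (y i)))
      - Op g ((toWeakSpace ℝ X).symm (y i))‖})) := by
      ext y
      simp [K]
    rw [e]
    refine IsClosed.inter ?_ (IsClosed.inter ?_ ?_)
    · refine isClosed_iInter fun g => isClosed_iInter fun i => ?_
      have h1 := isClosed_weak_of_convex (Metric.closedBall (0 : X) R)
        (convex_closedBall _ _) Metric.isClosed_closedBall
      have h2 : Continuous (fun y : s → WeakSpace ℝ X => WeakSpace.map (Op g) (y i)) :=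
        (WeakSpace.map (Op g)).continuous.comp (continuous_apply i)
      have h3 := h1.preimage h2
      convert h3 using 1
      ext y
      simp only [mem_ofPred_eq, mem_preimage, Metric.mem_closedBall, dist_zero_right]
      rfl
    · refine isClosed_iInter fun i => ?_
      have h1 := isClosed_weak_of_convex (D : Set X) D.convex hDcl
      exact h1.preimage (continuous_apply i)
    · refine isClosed_iInter fun g => isClosed_iInter fun h => isClosed_iInter fun _ => ?_
      refine isClosed_iUnion_of_finite fun i => ?_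
      refine isClosed_le continuous_const ?_
      refine Continuous.norm ?_
      obtain ⟨t, ht⟩ := hfin h (hHG h.2)
      have h1 := weak_cont_of_finrank ((Op h - 1) ∘L (Op g)) (Submodule.span ℝ (t : Set X))
        (fun x => by simpa using ht (Op g x))
      have h2 := h1.comp (continuous_apply (A := fun _ : s => WeakSpace ℝ X) i)
      exact h2
  have hKcomp : IsCompact K := by
    have h1 := isCompact_univ_pi (fun _ : s => isCompact_ball hrefl R)
    refine h1.of_isClosed_subset hKcl ?_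
    intro y hy i _
    have := hy.1 1 i
    rw [hOp1] at this
    simpa using this
  have hKne : K.Nonempty := by
    refine ⟨fun i => toWeakSpace ℝ X i, ?_, ?_, ?_⟩
    · intro g i
      exact hR g i
    · intro i
      apply Submodule.le_topologicalClosure
      apply Submodule.subset_span
      simp only [O, mem_iUnion, mem_range]
      exact ⟨i, i.2, 1, rfl⟩
    · intro g h hh
      by_contra hcon
      push Not at hcon
      apply hh
      have h1 : g⁻¹ * h * g = 1 := by
        apply hOps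
        intro x hx
        have h2 := hcon ⟨x, hx⟩
        have h3 : Op (g⁻¹ * h * g) x - x = Op g⁻¹ (Op h (Op g x) - Op g x) := by
          rw [map_sub, ← hOpmul, ← hOpmul, ← hOpmul]
          simp [mul_assoc, hOp1]
        rw [h3]
        refine (hOpC _ _).trans_lt ?_
        have h4 : ‖Op h (Op g x) - Op g x‖ < ε / C := h2
        calc C * ‖Op h (Op g x) - Op g x‖ < C * (ε / C) := by gcongr
          _ = ε := by field_simp
      have h5 : h = g * (g⁻¹ * h * g) * g⁻¹ := by group
      rw [h5, h1]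
      group
  have hKinv : ∀ g, ∀ y ∈ K, act g y ∈ K := by
    rintro k y ⟨h1, h2, h3⟩
    refine ⟨?_, ?_, ?_⟩
    · intro g i
      exact h1 (g * k) i
    · intro i
      exact hDinv k _ (h2 i)
    · intro g h hh
      exact h3 (g * k) h hh
  -- the countable family of small balls
  let r : ℝ := ε / (4 * C ^ 2)
  have hr : 0 < r := by positivity
  have hsep : TopologicalSpace.IsSeparable (Set.univ.pi (fun _ : s => (D : Set X))) :=
    TopologicalSpace.IsSeparable.univ_pi fun _ => hDsep
  obtain ⟨c, hcc, hc⟩ := hsep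
  have : Countable c := hcc.to_subtype
  let B : c → Set (s → WeakSpace ℝ X) := fun n =>
    {y | ∀ i, (toWeakSpace ℝ X).symm (y i) ∈ Metric.closedBall ((n : s → X) i) r}
  have hB : ∀ n, IsClosed (B n) := by
    intro n
    have e : B n = ⋂ i, {y | (toWeakSpace ℝ X).symm (y i) ∈ Metric.closedBall ((n : s → X) i) r} := by
      ext y; simp [B]
    rw [e]
    refine isClosed_iInter fun i => ?_
    exact (isClosed_weak_of_convex (Metric.closedBall ((n : s → X) i) r)
        (convex_closedBall _ _) Metric.isClosed_closedBall).preimage (continuous_apply i)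
  have hcov : K ⊆ ⋃ n, B n := by
    intro y hy
    have h1 : (fun i => (toWeakSpace ℝ X).symm (y i)) ∈ Set.univ.pi (fun _ : s => (D : Set X)) :=
      fun i _ => hy.2.1 i
    have h2 := hc h1
    rw [Metric.mem_closure_iff] at h2
    obtain ⟨n, hn, hd⟩ := h2 r hr
    rw [mem_iUnion]
    refine ⟨⟨n, hn⟩, fun i => ?_⟩
    rw [dist_pi_lt_iff hr] at hd
    exact (hd i).le
  obtain ⟨n, x, hxK, a, g, h, hgh, hg, hh⟩ := dyn act
    (by
      intro g
      exact continuous_pi fun i => (WeakSpace.map (Op g)).continuous.comp (continuous_apply i))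
    (by intro y; rfl) (by intro g h y; rfl) K hKcomp hKne hKinv B hB hcov
  -- contradiction
  have hk : (a * g)⁻¹ * (a * h) ≠ 1 := by
    intro hcon
    apply hgh
    have : a * h = a * g := by
      have := congrArg (fun z => (a * g) * z) hcon
      simpa using this
    exact (mul_left_cancel this).symm
  obtain ⟨i, hi⟩ := hxK.2.2 1 _ hk
  rw [hOp1] at hi
  set z : X := (toWeakSpace ℝ X).symm (x i) with hz
  have hgi : dist (Op (a * g) z) ((n : s → X) i) ≤ r := hg i
  have hhi : dist (Op (a * h) z) ((n : s → X) i) ≤ r := hh i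
  have h1 : ‖Op (a * h) z - Op (a * g) z‖ ≤ 2 * r := by
    rw [← dist_eq_norm]
    calc dist (Op (a * h) z) (Op (a * g) z)
        ≤ dist (Op (a * h) z) ((n : s → X) i) + dist (Op (a * g) z) ((n : s → X) i) :=
          dist_triangle_right _ _ _
      _ ≤ 2 * r := by linarith
  have h2 : Op ((a * g)⁻¹ * (a * h)) z - z = Op (a * g)⁻¹ (Op (a * h) z - Op (a * g) z) := by
    rw [map_sub, ← hOpmul, ← hOpmul]
    simp [hOp1]
  rw [h2] at hi
  have h3 := hi.trans (hOpC _ _)
  have h4 : C * ‖Op (a * h) z - Op (a * g) z‖ ≤ C * (2 * r) := by gcongr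
  have h5 : C * (2 * r) = (ε / C) / 2 := by
    simp only [r]
    field_simp
    ring
  have h6 : 0 < ε / C := by positivity
  linarith


/-- The negation of the preceding statement: There is a reflexive real Banach space X and an infinite, norm-bounded group of invertible operators on X, each equal to identity plus a finite-rank operator, which is discrete in the topology of pointwise convergence. -/
theorem result :
    ¬ (∃ (X : Type) (_ : NormedAddCommGroup X) (_ : NormedSpace ℝ X), CompleteSpace X ∧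
      (∀ φ : (X →L[ℝ] ℝ) →L[ℝ] ℝ, ∃ x : X, ∀ f : X →L[ℝ] ℝ, φ f = f x) ∧
      ∃ G : Subgroup (X →L[ℝ] X)ˣ, (G : Set (X →L[ℝ] X)ˣ).Infinite ∧
        (∃ C : ℝ, ∀ g ∈ G, ‖g.val‖ ≤ C) ∧
        (∀ g ∈ G, ∃ s : Finset X, ∀ x : X, g.val x - x ∈ Submodule.span ℝ (s : Set X)) ∧
        (∀ g ∈ G, ∃ s : Finset X, ∃ ε : ℝ, 0 < ε ∧ ∀ h ∈ G,
          (∀ x ∈ s, ‖h.val x - g.val x‖ < ε) → h = g)) := by
  rintro ⟨X, i1, i2, _, hrefl, G, hinf, ⟨C, hC⟩, hfin, hdisc⟩
  obtain ⟨s, ε, hε, hs⟩ := hdisc 1 G.one_mem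
  exact main hrefl G hinf C hC hfin s ε hε (fun h hh hx => hs h hh (by simpa using hx))

end Pool.Agent.S03486
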