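import Pool.Statements.S03491
import Pool.Agent.Helper233.LP.Expan

set_option autoImplicit false
open Pool Pool.MP_81537f_an

namespace Pool.Agent.S03491

open Pool.Agent.Helper233.LP Finset

/-- A function with finitely many zeros whose exponent cancels the top genus factors lies in the smaller class. -/
theorem member_small (p : ℕ) (hp : 1 ≤ p) (f : ℂ → ℂ) (c : ℂ) (m : ℕ) (β : Polynomial ℝ) (y : ℕ → ℝ)
    (hdeg : β.natDegree ≤ 2 * p + 1) (hfin : {k | y k ≠ 0}.Finite)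
    (hβ : ∀ j < 2 * p + 1, ((j:ℝ)+1) * β.coeff (j+1) = - ∑' k, (y k) ^ (j+1))
    (hf : ∀ z : ℂ, f z = c * z ^ m *
          Complex.exp (-((0:ℝ) : ℂ) * z ^ (2 * p + 2) + Polynomial.aeval z β) *
          ∏' n, ((1 - (y n : ℂ) * z) *
            Complex.exp (∑ j ∈ Finset.Icc 1 (2 * p + 1), ((y n : ℂ) * z) ^ j / (j : ℂ)))) :
    ∃ (c : ℂ) (m : ℕ) (a : ℝ) (β : Polynomial ℝ) (y : ℕ → ℝ),
        0 ≤ a ∧ β.natDegree ≤ 2 * p - 1 ∧ Summable (fun n => |y n| ^ (2 * p)) ∧
        ∀ z : ℂ, f z = c * z ^ m *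
          Complex.exp (-(a : ℂ) * z ^ (2 * p) + Polynomial.aeval z β) *
          ∏' n, ((1 - (y n : ℂ) * z) *
            Complex.exp (∑ j ∈ Finset.Icc 1 (2 * p - 1), ((y n : ℂ) * z) ^ j / (j : ℂ))) := by
  obtain ⟨q, rfl⟩ : ∃ q, p = q + 1 := ⟨p - 1, by omega⟩
  refine ⟨c, m, 0, ∑ i ∈ range (2 * q + 2), Polynomial.monomial i (β.coeff i), y, le_rfl, ?_, ?_, ?_⟩
  · apply Polynomial.natDegree_sum_le_of_forall_le
    intro i hi
    have := Finset.mem_range.mp hi
    exact (Polynomial.natDegree_monomial_le _).trans (by omega)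
  · apply summable_of_hasFiniteSupport
    apply hfin.subset
    intro k hk h0
    apply hk
    simp [h0]
  · intro z
    rw [hf z]
    have hS : ∀ n ∉ hfin.toFinset, y n = 0 := by
      intro n hn
      simpa using hn
    rw [tprod_eq_prod (s := hfin.toFinset), tprod_eq_prod (s := hfin.toFinset)]
    rotate_left
    · intro n hn
      exact factor_zero _ _ (by rw [hS n hn]; simp)
    · intro n hn
      exact factor_zero _ _ (by rw [hS n hn]; simp)
    have hfac : ∀ n, (1 - (y n : ℂ) * z) * Complex.exp (∑ j ∈ Finset.Icc 1 (2 * (q + 1) + 1), ((y n : ℂ) * z) ^ j / (j : ℂ))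
        = (1 - (y n : ℂ) * z) * Complex.exp (∑ j ∈ Finset.Icc 1 (2 * (q + 1) - 1), ((y n : ℂ) * z) ^ j / (j : ℂ)) *
          Complex.exp (((y n : ℂ) * z) ^ (2 * q + 2) / ((2 * q + 2 : ℕ) : ℂ) + ((y n : ℂ) * z) ^ (2 * q + 3) / ((2 * q + 3 : ℕ) : ℂ)) := by
      intro n
      rw [show 2 * (q + 1) + 1 = (2 * q + 1) + 1 + 1 by ring, show 2 * (q + 1) - 1 = 2 * q + 1 by omega,
        Finset.sum_Icc_succ_top (by omega), Finset.sum_Icc_succ_top (by omega), mul_assoc, ← Complex.exp_add,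
        add_assoc]
    simp only [hfac]
    rw [Finset.prod_mul_distrib, ← Complex.exp_sum]
    have hpow : ∀ j : ℕ, 1 ≤ j → j ≤ 2 * q + 3 → ∑ n ∈ hfin.toFinset, ((y n : ℂ) * z) ^ j / (j : ℂ) =
        - (z ^ j * (β.coeff j : ℂ)) := by
      intro j hj1 hj2
      obtain ⟨i, rfl⟩ : ∃ i, j = i + 1 := ⟨j - 1, by omega⟩
      have h1 := hβ i (by omega)
      have h2 : ∑' k, (y k) ^ (i+1) = ∑ n ∈ hfin.toFinset, (y n) ^ (i+1) := by
        apply tsum_eq_sum
        intro n hn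
        rw [hS n hn]; simp
      rw [h2] at h1
      have h3 : ((i:ℂ)+1) * (β.coeff (i+1) : ℂ) = - ∑ n ∈ hfin.toFinset, (y n : ℂ) ^ (i+1) := by
        exact_mod_cast h1
      have h4 : ((i:ℂ)+1) ≠ 0 := by exact_mod_cast Nat.succ_ne_zero i
      rw [← Finset.sum_div, div_eq_iff (by exact_mod_cast Nat.succ_ne_zero i)]
      simp only [mul_pow]
      rw [← Finset.sum_mul]
      push_cast
      linear_combination (z ^ (i+1)) * h3
    rw [Finset.sum_add_distrib, hpow _ (by omega) (by omega), hpow _ (by omega) (by omega)]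
    have hpoly : Polynomial.aeval z β = Polynomial.aeval z (∑ i ∈ range (2 * q + 2), Polynomial.monomial i (β.coeff i)) +
        z ^ (2 * q + 2) * (β.coeff (2 * q + 2) : ℂ) + z ^ (2 * q + 3) * (β.coeff (2 * q + 3) : ℂ) := by
      rw [Polynomial.aeval_eq_sum_range' (show β.natDegree < 2 * q + 2 + 1 + 1 by omega), Finset.sum_range_succ,
        Finset.sum_range_succ, map_sum]
      simp only [Polynomial.aeval_monomial, Complex.real_smul]
      simp only [Complex.coe_algebraMap]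
      ring
    rw [hpoly]
    have hcomb : ∀ X Y : ℂ, c * z ^ m * X * (Y * Complex.exp (-(z ^ (2 * q + 2) * (β.coeff (2 * q + 2) : ℂ)) + -(z ^ (2 * q + 3) * (β.coeff (2 * q + 3) : ℂ)))) =
        c * z ^ m * (X * Complex.exp (-(z ^ (2 * q + 2) * (β.coeff (2 * q + 2) : ℂ)) + -(z ^ (2 * q + 3) * (β.coeff (2 * q + 3) : ℂ)))) * Y := by
      intro X Y; ring
    rw [hcomb, ← Complex.exp_add]
    congr 3
    push_cast
    ring

/-- For every p ≥ 1, if f with f(0)=1 lies in V_{2p} but not V_{2p−2}, then f's Taylor series never has 2p+2 consecutive zero coefficients. V_{2p} means: a real entire function of genus ≤ 2p+1 with only real zeros, times exp(−a z^{2p+2}) with a ≥ 0. -/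
theorem result :
    ∀ p : ℕ, 1 ≤ p → ∀ f : ℂ → ℂ,
      (∃ (c : ℂ) (m : ℕ) (a : ℝ) (β : Polynomial ℝ) (y : ℕ → ℝ),
        0 ≤ a ∧ β.natDegree ≤ 2 * p + 1 ∧ Summable (fun n => |y n| ^ (2 * p + 2)) ∧
        ∀ z : ℂ, f z = c * z ^ m *
          Complex.exp (-(a : ℂ) * z ^ (2 * p + 2) + Polynomial.aeval z β) *
          ∏' n, ((1 - (y n : ℂ) * z) *
            Complex.exp (∑ j ∈ Finset.Icc 1 (2 * p + 1), ((y n : ℂ) * z) ^ j / (j : ℂ)))) →
      (¬ ∃ (c : ℂ) (m : ℕ) (a : ℝ) (β : Polynomial ℝ) (y : ℕ → ℝ),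
        0 ≤ a ∧ β.natDegree ≤ 2 * p - 1 ∧ Summable (fun n => |y n| ^ (2 * p)) ∧
        ∀ z : ℂ, f z = c * z ^ m *
          Complex.exp (-(a : ℂ) * z ^ (2 * p) + Polynomial.aeval z β) *
          ∏' n, ((1 - (y n : ℂ) * z) *
            Complex.exp (∑ j ∈ Finset.Icc 1 (2 * p - 1), ((y n : ℂ) * z) ^ j / (j : ℂ)))) →
      f 0 = 1 →
      ¬ ∃ n : ℕ, ∀ j : ℕ, j < 2 * p + 2 → iteratedDeriv (n + j) f 0 = 0 := by
  intro p hp f hV hnV h0 hrun
  obtain ⟨n, hrun⟩ := hrun
  obtain ⟨c, m, a, β, y, ha, hdeg, hs, hf⟩ := hV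
  apply hnV
  have hexp := expansion (2 * p + 1) f c m a β y hdeg hs hf h0
  have hA : ∀ j < 2 * p + 2, A (lfun (2 * p + 1) a β y) (n + j) = 0 := by
    intro j hj
    have h1 := hexp (n + j)
    rw [hrun j hj] at h1
    have h2 : ((n+j).factorial : ℂ) ≠ 0 := by exact_mod_cast (n+j).factorial_ne_zero
    rcases mul_eq_zero.mp h1.symm with h3 | h3
    · exact absurd h3 h2
    · exact_mod_cast h3
  have hn : 1 ≤ n := by
    by_contra hn
    have hn0 : n = 0 := by omega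
    subst hn0
    have := hA 0 (by omega)
    rw [add_zero, A_zero] at this
    exact one_ne_zero this
  obtain ⟨ha0, hfin, hl⟩ := seq_main (2 * p + 1) ⟨p + 1, by ring⟩ a ha y hs _ (ClInf_lfun _ a β y) n hn
    (fun i hi => hA i hi)
  subst ha0
  refine member_small p hp f c m β y hdeg hfin ?_ hf
  intro j hj
  have := hl j hj
  rw [lfun, if_pos hj] at this
  exact this

end Pool.Agent.S03491
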