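import Pool.Statements.S03494
import Pool.Agent.Helper368.Final1

set_option autoImplicit false
open MeasureTheory
open Pool Pool.MP_816d1e_an

namespace Pool.Agent.S03494

/-- The negation of the preceding statement: Let K be a compact non-polar subset of the reals whose logarithmic equilibrium measure equals the h-Hausdorff measure restricted to K, for some continuous nondecreasing h with h(0)=0. Then K has Hausdorff dimension 0. -/
theorem result :
    ¬ (∀ (K : Set ℝ), IsCompact K →
  ∀ (h : NNReal → NNReal), Continuous h → Monotone h → h 0 = 0 →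
  ∀ (μ : Measure ℝ), IsProbabilityMeasure μ → μ Kᶜ = 0 →
  (∃ ν : Measure ℝ, IsProbabilityMeasure ν ∧ ν Kᶜ = 0 ∧
      (∫⁻ x, ∫⁻ y, (if x = y then (⊤ : ENNReal)
          else ENNReal.ofReal (Real.log (Metric.diam K + 1) - Real.log (dist x y))) ∂ν ∂ν) < ⊤) →
  (∀ ν : Measure ℝ, IsProbabilityMeasure ν → ν Kᶜ = 0 →
      (∫⁻ x, ∫⁻ y, (if x = y then (⊤ : ENNReal)
          else ENNReal.ofReal (Real.log (Metric.diam K + 1) - Real.log (dist x y))) ∂μ ∂μ)
        ≤ (∫⁻ x, ∫⁻ y, (if x = y then (⊤ : ENNReal)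
          else ENNReal.ofReal (Real.log (Metric.diam K + 1) - Real.log (dist x y))) ∂ν ∂ν)) →
  μ = (Measure.mkMetric (fun r : ENNReal => ((h r.toNNReal : NNReal) : ENNReal))).restrict K →
  dimH K = 0) := by
  intro H
  have hlam2 := Pool.Agent.Helper368.two_le_lamS
  have hlam1 : ∀ i, 1 ≤ Pool.Agent.Helper368.lamS i := fun i => by linarith [hlam2 i]
  obtain ⟨ν, U, hU, hlim⟩ := Pool.Agent.Helper368.exists_limit hlam1
  have hK := Pool.Agent.Helper368.limit_support hlam1 hU hlim
  have hne : (Pool.Agent.Helper368.KK Pool.Agent.Helper368.lamS).Nonempty := by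
    by_contra hcon
    rw [Set.not_nonempty_iff_eq_empty] at hcon
    rw [hcon, Set.compl_empty, measure_univ] at hK
    exact one_ne_zero hK
  have hT : (2:ℝ) ≤ Metric.diam (Pool.Agent.Helper368.KK Pool.Agent.Helper368.lamS) + 1 := by
    have := Pool.Agent.Helper368.diam_KK hlam2 hne
    linarith
  have hV := Pool.Agent.Helper368.VV_bdd hT hlam1 Pool.Agent.Helper368.lamS_le
  have hen := Pool.Agent.Helper368.limit_energy hT hlam1 hU hlim
  apply Pool.Agent.Helper368.dim_ne_zero hU hlim hK
  apply H (Pool.Agent.Helper368.KK Pool.Agent.Helper368.lamS) (Pool.Agent.Helper368.KK_compact _)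
    (Pool.Agent.Helper368.hh (ν : Measure ℝ))
    (Pool.Agent.Helper368.hh_continuous _ (Pool.Agent.Helper368.cc_small hU hlim))
    (Pool.Agent.Helper368.hh_mono _)
    (by rw [← ENNReal.coe_eq_zero, Pool.Agent.Helper368.hh_coe]; exact Pool.Agent.Helper368.cc_zero hU hlim)
    (ν : Measure ℝ) inferInstance hK
    ⟨(ν : Measure ℝ), inferInstance, hK, lt_of_le_of_lt hen hV⟩
  · intro ν' hν' hν'K
    exact le_trans hen (Pool.Agent.Helper368.lower_bound hT hlam1 hV ν' hν'K)
  · exact Pool.Agent.Helper368.nu_eq hU hlim hK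

end Pool.Agent.S03494
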