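import Pool.Statements.S03501
import Pool.Agent.Helper606.Fek.P_final_main

set_option autoImplicit false
open Pool Pool.MP_82f4f8_an

namespace Pool.Agent.S03501

/-- For the square boundary and its exterior conformal map φ (φ(z)/z→c), n-point Fekete potentials differ from log∣φ∣−log∣c∣ outside and from −log∣c∣ inside by at most C(δ)/n at points at distance ≥δ from the square. -/
theorem result :
  ∀ φ : ℂ → ℂ, ∀ c : ℂ,
    DifferentiableOn ℂ φ {z : ℂ | 1 < max |z.re| |z.im|} →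
    Set.InjOn φ {z : ℂ | 1 < max |z.re| |z.im|} →
    φ '' {z : ℂ | 1 < max |z.re| |z.im|} = {w : ℂ | 1 < ‖w‖} →
    Filter.Tendsto (fun z => φ z / z) (Filter.cocompact ℂ) (nhds c) →
    ∀ δ : ℝ, 0 < δ → ∃ C : ℝ, ∀ n : ℕ, 2 ≤ n → ∀ z : Fin n → ℂ,
      (∀ k, max |(z k).re| |(z k).im| = 1) →
      (∀ w : Fin n → ℂ, (∀ k, max |(w k).re| |(w k).im| = 1) →
        ∏ p ∈ Finset.univ.filter (fun p : Fin n × Fin n => p.1 < p.2), ‖w p.1 - w p.2‖ ≤
        ∏ p ∈ Finset.univ.filter (fun p : Fin n × Fin n => p.1 < p.2), ‖z p.1 - z p.2‖) →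
      ∀ x : ℂ, δ ≤ Metric.infDist x {y : ℂ | max |y.re| |y.im| = 1} →
        (1 < max |x.re| |x.im| →
          |(1 / (n : ℝ)) * ∑ k, Real.log ‖x - z k‖ - (Real.log ‖φ x‖ - Real.log ‖c‖)| ≤ C / n) ∧
        (max |x.re| |x.im| < 1 →
          |(1 / (n : ℝ)) * ∑ k, Real.log ‖x - z k‖ + Real.log ‖c‖| ≤ C / n) := by
  exact Pool.Agent.Helper606.Fek.final_main

end Pool.Agent.S03501
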