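import Pool.Statements.S03510
import Pool.Agent.Helper853.UM.Adm

set_option autoImplicit false
open Pool Pool.MP_845814_an

namespace Pool.Agent.S03510

/-- The negation of the preceding statement: For every n ≥ 2 and all f, g continuous on the closed unit ball of ℂⁿ and holomorphic inside, if ∣f∣ = ∣g∣ on a subset of the unit sphere of positive surface measure, then f = c·g on the closed ball for some complex constant c. -/
theorem result :
    ¬ (∀ n : ℕ, 2 ≤ n →
    ∀ f g : EuclideanSpace ℂ (Fin n) → ℂ,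
      ContinuousOn f (Metric.closedBall (0 : EuclideanSpace ℂ (Fin n)) 1) →
      DifferentiableOn ℂ f (Metric.ball (0 : EuclideanSpace ℂ (Fin n)) 1) →
      ContinuousOn g (Metric.closedBall (0 : EuclideanSpace ℂ (Fin n)) 1) →
      DifferentiableOn ℂ g (Metric.ball (0 : EuclideanSpace ℂ (Fin n)) 1) →
      (MeasureTheory.volume : MeasureTheory.Measure (EuclideanSpace ℂ (Fin n))).toSphere
          {ζ : Metric.sphere (0 : EuclideanSpace ℂ (Fin n)) 1 | ‖f ζ‖ = ‖g ζ‖} ≠ 0 →
      ∃ c : ℂ, ∀ z ∈ Metric.closedBall (0 : EuclideanSpace ℂ (Fin n)) 1, f z = c * g z) := by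
  intro H
  obtain ⟨t, _, _, hF⟩ := Pool.Agent.Helper853.UM.exists_F (EuclideanSpace ℂ (Fin 2))
  obtain ⟨f, hfc, hfd, _, _, hf0, hfm⟩ := hF
    (MeasureTheory.volume : MeasureTheory.Measure (EuclideanSpace ℂ (Fin 2))).toSphere (1 / 2)
    (by norm_num) (by norm_num)
  set μ := (MeasureTheory.volume : MeasureTheory.Measure (EuclideanSpace ℂ (Fin 2))).toSphere with hμ
  have huniv : μ Set.univ ≠ 0 := by
    rw [hμ, MeasureTheory.Measure.toSphere_apply_univ]
    apply mul_ne_zero
    · have h4 : Module.finrank ℝ (EuclideanSpace ℂ (Fin 2)) ≠ 0 := by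
        have : 0 < Module.finrank ℝ (EuclideanSpace ℂ (Fin 2)) := Module.finrank_pos
        omega
      exact_mod_cast h4
    · exact (Metric.measure_ball_pos _ _ one_pos).ne'
  have hpos : μ {ζ : Metric.sphere (0 : EuclideanSpace ℂ (Fin 2)) 1 | ‖f ζ‖ = 1} ≠ 0 := by
    intro h0
    have hreal : μ.real {ζ : Metric.sphere (0 : EuclideanSpace ℂ (Fin 2)) 1 | ‖f ζ‖ = 1} = 0 := by
      rw [MeasureTheory.measureReal_def, h0]; simp
    have hle : μ.real Set.univ ≤ μ.real {ζ : Metric.sphere (0 : EuclideanSpace ℂ (Fin 2)) 1 | ‖f ζ‖ = 1}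
        + μ.real {ζ : Metric.sphere (0 : EuclideanSpace ℂ (Fin 2)) 1 | ‖f ζ‖ ≠ 1} := by
      refine le_trans (MeasureTheory.measureReal_mono ?_ (MeasureTheory.measure_ne_top _ _))
        (MeasureTheory.measureReal_union_le _ _)
      intro x _
      by_cases hx : ‖f x‖ = 1
      · left; exact hx
      · right; exact hx
    have hposr : 0 < μ.real Set.univ := by
      rw [MeasureTheory.measureReal_def]
      exact ENNReal.toReal_pos huniv (MeasureTheory.measure_ne_top _ _)
    rw [hreal] at hle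
    linarith
  obtain ⟨c, hc⟩ := H 2 le_rfl f (fun _ => 1) hfc hfd continuousOn_const
    (differentiableOn_const _) (by simpa using hpos)
  obtain ⟨x, hx⟩ := MeasureTheory.nonempty_of_measure_ne_zero hpos
  have h1 := hc 0 (by simp)
  have h2 := hc (x : EuclideanSpace ℂ (Fin 2)) (Metric.sphere_subset_closedBall x.2)
  have hx' : ‖f x‖ = 1 := hx
  simp only [mul_one] at h1 h2
  rw [h2] at hx'
  rw [h1] at hf0
  linarith

end Pool.Agent.S03510
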