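import Pool.Statements.S03512
import Pool.Agent.Helper382.Cancel

set_option autoImplicit false
open Pool Pool.MP_846a4c_an

namespace Pool.Agent.S03512

/-- The negation of the preceding statement: In every locally compact Hausdorff group, if n copies of A and n copies of B are equidecomposable with Borel pieces (left translations plus level permutations), n ≥ 1, then A and B are Borel-equidecomposable by left translations. -/
theorem result :
    ¬ (∀ (G : Type) [Group G] [TopologicalSpace G] [IsTopologicalGroup G] [LocallyCompactSpace G]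
    [T2Space G] [MeasurableSpace G] [BorelSpace G] (A B : Set G) (n : ℕ), 0 < n →
    (∃ (k : ℕ) (P : Fin k → Set (G × ℕ)) (g : Fin k → G) (σ : Fin k → Equiv.Perm ℕ),
      (∀ i, MeasurableSet (P i)) ∧
      Pairwise (fun i j => Disjoint (P i) (P j)) ∧
      (⋃ i, P i) = A ×ˢ Set.Iio n ∧
      Pairwise (fun i j =>
        Disjoint ((fun p : G × ℕ => (g i * p.1, σ i p.2)) '' P i)
                 ((fun p : G × ℕ => (g j * p.1, σ j p.2)) '' P j)) ∧
      (⋃ i, (fun p : G × ℕ => (g i * p.1, σ i p.2)) '' P i) = B ×ˢ Set.Iio n) →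
    ∃ (k : ℕ) (P : Fin k → Set G) (g : Fin k → G),
      (∀ i, MeasurableSet (P i)) ∧
      Pairwise (fun i j => Disjoint (P i) (P j)) ∧
      (⋃ i, P i) = A ∧
      Pairwise (fun i j =>
        Disjoint ((fun x : G => g i * x) '' P i) ((fun x : G => g j * x) '' P j)) ∧
      (⋃ i, (fun x : G => g i * x) '' P i) = B) := by
  intro h
  obtain ⟨k, P, g, h1, h2, h3, h4, h5⟩ :=
    h Pool.Agent.H382C.GG (Pool.Agent.H382C.vp '' Pool.Agent.H382C.SA) (Pool.Agent.H382C.vp '' Pool.Agent.H382C.SAᶜ) 2 (by norm_num) Pool.Agent.H382C.half1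
  exact Pool.Agent.H382C.half2 k P g h1 h2 h3 h4 h5

end Pool.Agent.S03512
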