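import Pool.Statements.S03520
import Pool.Agent.Helper183.Gar.Mean
import Pool.Agent.Helper183.Gar.Walls
import Pool.Agent.Helper183.Gar.Slice
import Pool.Agent.Helper183.Gar.ExMatch
import Pool.Agent.Helper183.Gar.Rigid
import Pool.Agent.Helper183.Gar.PathF
import Pool.Agent.Helper183.Gar.Bdd
import Pool.Agent.Helper183.Gar.GAmen
import Pool.Agent.Helper183.Gar.PathA
import Pool.Agent.Helper183.Gar.ExPar
import Pool.Agent.Helper183.Gar.Polar
import Pool.Agent.Helper183.Gar.Pieces
import Pool.Agent.Helper183.Gar.Isol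
import Pool.Agent.Helper183.Gar.NoMatch
import Pool.Agent.Helper183.Gar.Equi
import Pool.Agent.Helper183.Gar.Final

set_option autoImplicit false
open MeasureTheory
open Pool Pool.MP_85f3a0_an

namespace Pool.Agent.S03520

/-- The negation of the preceding statement: If bounded Lebesgue measurable sets A, B in ℝⁿ are finitely equidecomposable using isometries from a (discretely) amenable group G, then they are equidecomposable with Lebesgue measurable pieces and some isometries of ℝⁿ. -/
theorem result :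
    ¬ (∀ (n : ℕ)
      (G : Subgroup (EuclideanSpace ℝ (Fin n) ≃ᵢ EuclideanSpace ℝ (Fin n)))
      (A B : Set (EuclideanSpace ℝ (Fin n))),
      Bornology.IsBounded A → Bornology.IsBounded B →
      NullMeasurableSet A volume → NullMeasurableSet B volume →
      (∃ m : Set G → ℝ, (∀ S, 0 ≤ m S) ∧ m Set.univ = 1 ∧
          (∀ S T : Set G, Disjoint S T → m (S ∪ T) = m S + m T) ∧
          (∀ (g : G) (S : Set G), m ((fun h => g * h) '' S) = m S)) →
      (∃ k : ℕ, ∃ P : Fin k → Set (EuclideanSpace ℝ (Fin n)),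
        ∃ g : Fin k → (EuclideanSpace ℝ (Fin n) ≃ᵢ EuclideanSpace ℝ (Fin n)),
          (∀ i, g i ∈ G) ∧ (⋃ i, P i) = A ∧
          Pairwise (fun i j => Disjoint (P i) (P j)) ∧
          (⋃ i, (⇑(g i)) '' (P i)) = B ∧
          Pairwise (fun i j => Disjoint ((⇑(g i)) '' (P i)) ((⇑(g j)) '' (P j)))) →
      (∃ k : ℕ, ∃ P : Fin k → Set (EuclideanSpace ℝ (Fin n)),
        ∃ g : Fin k → (EuclideanSpace ℝ (Fin n) ≃ᵢ EuclideanSpace ℝ (Fin n)),
          (∀ i, NullMeasurableSet (P i) volume) ∧ (⋃ i, P i) = A ∧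
          Pairwise (fun i j => Disjoint (P i) (P j)) ∧
          (⋃ i, (⇑(g i)) '' (P i)) = B ∧
          Pairwise (fun i j => Disjoint ((⇑(g i)) '' (P i)) ((⇑(g j)) '' (P j))))) := by
  intro H
  obtain ⟨P⟩ : Nonempty Gardner.Par := by
    apply Gardner.exists_par
    · intro n i k l hn hk hl h
      exact Gardner.ypos_inj n i k l hn hk hl h
    · intro N η ε s hη hε hs
      exact Gardner.exists_walls N η ε s hη hε hs
  obtain ⟨N, g, hg, M, hM, hMg⟩ := Gardner.equi P Gardner.ypos_zero Gardner.ypos_step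
    (fun h hh H0 H1 h0 h1 => Gardner.exists_matching h hh H0 H1 h0 h1)
  obtain ⟨Pc, h1, h2, h3, h4⟩ := Gardner.pieces N g M hM hMg
  have hy : ∀ n i k : ℕ, |Gardner.ypos n i k| ≤ 2 := by
    intro n i k
    rw [abs_le]
    exact ⟨by linarith [Gardner.ypos_nonneg n i k], (Gardner.ypos_lt_two n i k).le⟩
  obtain ⟨k, Q, g', m1, m2, m3, m4, m5⟩ := H 3 Gardner.GG P.A P.B
    (Gardner.bounded_A P hy) (Gardner.bounded_B P hy)
    (Gardner.meas_A P).nullMeasurableSet (Gardner.meas_B P).nullMeasurableSet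
    Gardner.GG_amenable ⟨N, Pc, g, hg, h1, h2, h3, h4⟩
  refine Gardner.final P ?_ Gardner.ae_slice ?_ k Q g' m1 m2 m3 m4 m5
  · intro ι _ g
    exact Gardner.isolation P (fun c δ b h1 h2 => Gardner.exists_path (fun a b a' b' h => Gardner.row_inj a b a' b' h) c δ b h1 h2)
      Gardner.line_of_isometry Gardner.rigid g
  · intro h hh H0 H1 m0 m1 h0 h1 M hM B hf hme
    exact Gardner.no_measurable_matching h hh H0 H1 m0 m1 h0 h1 M hM B hf hme

end Pool.Agent.S03520
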