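import Pool.Statements.S03524
import Pool.Agent.Helper57.AUC9

set_option autoImplicit false
open Pool Pool.MP_87a66e_an

namespace Pool.Agent.S03524

/-- The negation of the preceding statement: For every real Banach space X: if for each t>0 some higher-order asymptotic modulus of convexity δ^(n0)(t) is positive, then X has an equivalent norm whose first-order asymptotic modulus δ^(1)(t) is positive for all t>0. -/
theorem result :
    ¬ (∀ (X : Type) [NormedAddCommGroup X] [NormedSpace ℝ X] [CompleteSpace X],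
  ∀ δ : (X → ℝ) → ℕ → ℝ → X → EReal,
    (∀ (N : X → ℝ) (t : ℝ) (z : X), δ N 0 t z = ((N z - 1 : ℝ) : EReal)) →
    (∀ (N : X → ℝ) (k : ℕ) (t : ℝ) (z : X), δ N (k + 1) t z =
      ⨆ (Y : Submodule ℝ X) (_ : IsClosed (Y : Set X)) (_ : FiniteDimensional ℝ (X ⧸ Y)),
        ⨅ (y : X) (_ : y ∈ Y) (_ : N y = 1), δ N k t (z + t • y)) →
    (∀ t : ℝ, 0 < t → ∃ n₀ : ℕ, 0 < ⨅ (x : X) (_ : ‖x‖ = 1), δ (fun v => ‖v‖) n₀ t x) →
    ∃ p : Seminorm ℝ X,
      (∃ a b : ℝ, 0 < a ∧ 0 < b ∧ ∀ x : X, a * ‖x‖ ≤ p x ∧ p x ≤ b * ‖x‖) ∧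
      ∀ t : ℝ, 0 < t → 0 < ⨅ (x : X) (_ : p x = 1), δ (fun v => p v) 1 t x) := by
  intro h
  obtain ⟨p, ⟨a, b, ha, hb, hab⟩, hp⟩ := h Pool.Agent.Helper57.AUC.X
    Pool.Agent.Helper57.AUC.dl (fun _ _ _ => rfl) (fun _ _ _ _ => rfl)
    Pool.Agent.Helper57.AUC.H_pos
  obtain ⟨d, hd, h1⟩ := Pool.Agent.Helper57.AUC.one_of_dl (fun v => p v) (a / (2 * b))
    (hp (a / (2 * b)) (by positivity))
  exact Pool.Agent.Helper57.AUC.not_auc p ha hb hab hd h1

end Pool.Agent.S03524
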