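import Pool.Statements.S03533
import Pool.Agent.Helper320.TWFinal

set_option autoImplicit false
open Pool Pool.MP_896b3c_an

namespace Pool.Agent.S03533

/-- There is a C^3 area-preserving monotone twist diffeomorphism of the annulus with an invariant continuous graph on which the induced circle map has irrational rotation number but is not topologically conjugate to a rotation. -/
theorem result :
    ∃ F : ℝ × ℝ → ℝ × ℝ, ContDiff ℝ 3 F ∧ Function.Bijective F ∧
      (∀ x y : ℝ, F (x + 1, y) = F (x, y) + (1, 0)) ∧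
      (∀ p : ℝ × ℝ, LinearMap.det (fderiv ℝ F p).toLinearMap = 1) ∧
      (∀ p : ℝ × ℝ, 0 < (fderiv ℝ F p (0, 1)).1) ∧
      ∃ γ : ℝ → ℝ, Continuous γ ∧ (∀ x, γ (x + 1) = γ x) ∧
        ∃ g : CircleDeg1Lift, (∀ x, F (x, γ x) = (g x, γ (g x))) ∧
          Irrational g.translationNumber ∧
          ¬ ∃ h : ℝ ≃ₜ ℝ, ∃ a : ℝ, (∀ x, h (x + 1) = h x + 1) ∧
              ∀ x, h (g x) = h x + a := by
  exact Helper320.TW.main_result

end Pool.Agent.S03533
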