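import Pool.Statements.S03537
import Pool.Agent.H248.ID.Core

set_option autoImplicit false
open Pool Pool.MP_8995c5_an

namespace Pool.Agent.S03537

open MeasureTheory Metric Set Filter Topology H248.ID in
/-- auxiliary form with `n = m + 1` -/
theorem aux (m : ℕ) (hm : 1 ≤ m) (Ω : Set (E (m + 1))) (hΩ : IsOpen Ω)
    (f : E (m + 1) → E (m + 1)) (Df : E (m + 1) → Matrix (Fin (m + 1)) (Fin (m + 1)) ℝ)
    (hf : ∀ i, LocallyIntegrableOn (fun x => f x i) Ω volume)
    (hD : ∀ i j, LocallyIntegrableOn (fun x => Df x i j) Ω volume)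
    (hW : ∀ φ : E (m + 1) → ℝ, ContDiff ℝ (⊤ : ℕ∞) φ → HasCompactSupport φ → tsupport φ ⊆ Ω →
      ∀ i j, ∫ x, f x i * fderiv ℝ φ x (Pi.single j (1 : ℝ) : E (m + 1)) =
        - ∫ x, Df x i j * φ x)
    (hJ : LocallyIntegrableOn (fun x => (Df x).det) Ω volume)
    (hpos : ∀ᵐ x ∂(volume.restrict Ω), 0 ≤ (Df x).det ∧ ((Df x).det = 0 → Df x = 0))
    (hexp : ∃ l : ℝ, 0 < l ∧ LocallyIntegrableOn (fun x => Real.exp (l * kk (Df x))) Ω volume) :
    ∃ g : E (m + 1) → E (m + 1), ContinuousOn g Ω ∧ f =ᵐ[volume.restrict Ω] g := by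
  obtain ⟨l, hl, hexp⟩ := hexp
  have hfa : ∀ i, AEStronglyMeasurable (fun x => f x i) (volume.restrict Ω) :=
    fun i => (hf i).aestronglyMeasurable
  have hDa : ∀ i j, AEStronglyMeasurable (fun x => Df x i j) (volume.restrict Ω) :=
    fun i j => (hD i j).aestronglyMeasurable
  set f1 : E (m + 1) → E (m + 1) := fun x i => (hfa i).mk _ x with hf1
  set D1 : E (m + 1) → Matrix (Fin (m + 1)) (Fin (m + 1)) ℝ :=
    fun x => Matrix.of fun i j => (hDa i j).mk _ x with hD1
  have hff1 : ∀ᵐ x ∂(volume.restrict Ω), f x = f1 x := by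
    have : ∀ᵐ x ∂(volume.restrict Ω), ∀ i, f x i = (hfa i).mk _ x :=
      ae_all_iff.2 fun i => (hfa i).ae_eq_mk
    filter_upwards [this] with x hx
    ext i
    exact hx i
  have hDD1 : ∀ᵐ x ∂(volume.restrict Ω), Df x = D1 x := by
    have : ∀ᵐ x ∂(volume.restrict Ω), ∀ i j, Df x i j = (hDa i j).mk _ x :=
      ae_all_iff.2 fun i => ae_all_iff.2 fun j => (hDa i j).ae_eq_mk
    filter_upwards [this] with x hx
    ext i j
    exact hx i j
  have hf1m : Measurable f1 := measurable_pi_iff.2 fun i => (hfa i).stronglyMeasurable_mk.measurable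
  have hD1m : ∀ i j, Measurable fun x => D1 x i j := fun i j =>
    (hDa i j).stronglyMeasurable_mk.measurable
  have hΩm : MeasurableSet Ω := hΩ.measurableSet
  suffices h : ∃ g : E (m + 1) → E (m + 1), ContinuousOn g Ω ∧ f1 =ᵐ[volume.restrict Ω] g by
    obtain ⟨g, hg, hfg⟩ := h
    refine ⟨g, hg, ?_⟩
    exact EventuallyEq.trans hff1 hfg
  refine continuous_rep hΩ ?_
  intro a ha ε hε
  obtain ⟨R0, hR0, hR0Ω⟩ := Metric.nhds_basis_closedBall.mem_iff.1 (hΩ.mem_nhds ha)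
  set R : ℝ := R0 / 2 with hR
  have hRpos : 0 < R := by positivity
  have hBΩ : closedBall a (2 * R) ⊆ Ω := by
    have : 2 * R = R0 := by rw [hR]; ring
    rw [this]
    exact hR0Ω
  have hBc : IsCompact (closedBall a (2 * R)) := isCompact_closedBall _ _
  have hff1B : ∀ᵐ x ∂(volume.restrict (closedBall a (2 * R))), f x = f1 x :=
    ae_restrict_of_ae_restrict_of_subset hBΩ hff1
  have hDD1B : ∀ᵐ x ∂(volume.restrict (closedBall a (2 * R))), Df x = D1 x :=
    ae_restrict_of_ae_restrict_of_subset hBΩ hDD1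
  have c1 : ∀ i, IntegrableOn (fun x => f1 x i) (closedBall a (2 * R)) := fun i =>
    ((hf i).integrableOn_compact_subset hBΩ hBc).congr (by
      filter_upwards [hff1B] with x hx
      rw [hx])
  have c2 : ∀ φ : E (m + 1) → ℝ, ContDiff ℝ (⊤ : ℕ∞) φ → tsupport φ ⊆ closedBall a (2 * R) →
      ∀ i j, ∫ x, f1 x i * pd φ j x = - ∫ x, D1 x i j * φ x := by
    intro φ hφ hsupp i j
    have hcs : HasCompactSupport φ := hBc.of_isClosed_subset (isClosed_tsupport _) hsupp
    have h1 := hW φ hφ hcs (hsupp.trans hBΩ) i j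
    have h2 : ∫ x, f1 x i * pd φ j x = ∫ x, f x i * pd φ j x := by
      refine integral_congr_ae ?_
      have := (ae_restrict_iff' hΩm).1 hff1
      filter_upwards [this] with x hx
      by_cases hxs : x ∈ tsupport φ
      · rw [hx (hBΩ (hsupp hxs))]
      · rw [pd_eq_zero_of_notMem hxs, mul_zero, mul_zero]
    have h3 : ∫ x, D1 x i j * φ x = ∫ x, Df x i j * φ x := by
      refine integral_congr_ae ?_
      have := (ae_restrict_iff' hΩm).1 hDD1
      filter_upwards [this] with x hx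
      by_cases hxs : x ∈ tsupport φ
      · rw [hx (hBΩ (hsupp hxs))]
      · rw [image_eq_zero_of_notMem_tsupport hxs, mul_zero, mul_zero]
    rw [h2, h3]
    exact h1
  have c3 : IntegrableOn (fun x => (D1 x).det) (closedBall a (2 * R)) :=
    (hJ.integrableOn_compact_subset hBΩ hBc).congr (by
      filter_upwards [hDD1B] with x hx
      rw [hx])
  have c4 : ∀ᵐ x ∂(volume.restrict (closedBall a (2 * R))),
      0 ≤ (D1 x).det ∧ ((D1 x).det = 0 → D1 x = 0) := by
    have := ae_restrict_of_ae_restrict_of_subset hBΩ hpos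
    filter_upwards [hDD1B, this] with x hx hx2
    rw [← hx]
    exact hx2
  have c5 : IntegrableOn (fun x => Real.exp (l * kk (D1 x))) (closedBall a (2 * R)) :=
    (hexp.integrableOn_compact_subset hBΩ hBc).congr (by
      filter_upwards [hDD1B] with x hx
      rw [hx])
  obtain ⟨r, hr0, hrR, h⟩ := core hm hf1m hD1m hRpos c1 c2 c3 c4 hl c5 hε
  exact ⟨r, hr0, (closedBall_subset_closedBall (by linarith)).trans hBΩ, h⟩

/-- For n≥2 and open Ω in R^n: if f is W^{1,1}_loc with finite distortion (J_f locally integrable, J_f≥0, Df=0 where J_f=0) and exp(λ K_I^{1/(n-1)}) is locally integrable on Ω for some λ>0, then f agrees a.e. with a function continuous on Ω. -/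
theorem result :
  ∀ (n : ℕ), 2 ≤ n → ∀ (Ω : Set (Fin n → ℝ)), IsOpen Ω →
  ∀ (f : (Fin n → ℝ) → (Fin n → ℝ)) (Df : (Fin n → ℝ) → Matrix (Fin n) (Fin n) ℝ),
    (∀ i, MeasureTheory.LocallyIntegrableOn (fun x => f x i) Ω MeasureTheory.volume) →
    (∀ i j, MeasureTheory.LocallyIntegrableOn (fun x => Df x i j) Ω MeasureTheory.volume) →
    (∀ φ : (Fin n → ℝ) → ℝ, ContDiff ℝ (⊤ : ℕ∞) φ → HasCompactSupport φ → tsupport φ ⊆ Ω →
      ∀ i j, ∫ x, f x i * fderiv ℝ φ x (Pi.single j (1 : ℝ) : Fin n → ℝ)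
        = - ∫ x, Df x i j * φ x) →
    MeasureTheory.LocallyIntegrableOn (fun x => (Df x).det) Ω MeasureTheory.volume →
    (∀ᵐ x ∂(MeasureTheory.volume.restrict Ω),
        0 ≤ (Df x).det ∧ ((Df x).det = 0 → Df x = 0)) →
    (∃ l : ℝ, 0 < l ∧ MeasureTheory.LocallyIntegrableOn
        (fun x => Real.exp (l * (if (Df x).det = 0 then (1 : ℝ) else
          ‖Matrix.toEuclideanCLM (𝕜 := ℝ) (Df x).adjugate‖ ^ n / (Df x).det ^ (n - 1))
            ^ ((1 : ℝ) / ((n : ℝ) - 1))))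
        Ω MeasureTheory.volume) →
    ∃ g : (Fin n → ℝ) → (Fin n → ℝ), ContinuousOn g Ω ∧ f =ᵐ[MeasureTheory.volume.restrict Ω] g := by
  intro n hn Ω hΩ f Df hf hD hW hJ hpos hexp
  obtain ⟨m, rfl⟩ : ∃ m, n = m + 1 := ⟨n - 1, by omega⟩
  exact aux m (by omega) Ω hΩ f Df hf hD hW hJ hpos hexp

end Pool.Agent.S03537
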