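import Pool.Statements.S03540
import Pool.Agent.Helper976.Fac.J859

set_option autoImplicit false
open Pool Pool.MP_89f94c_an

namespace Pool.Agent.S03540

/-- The negation of the preceding statement: There is M ≥ 1 such that every absolutely summable complex function a on the positive rationals equals a convolution b⋆c of two such functions with ‖b‖₁‖c‖₁ ≤ M‖a‖₁. -/
theorem result :
    ¬ (∃ M : ℝ, 1 ≤ M ∧
      ∀ a : ℚ → ℂ, (∀ q : ℚ, q ≤ 0 → a q = 0) → Summable (fun q : ℚ => ‖a q‖) →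
        ∃ b c : ℚ → ℂ,
          (∀ q : ℚ, q ≤ 0 → b q = 0) ∧ (∀ q : ℚ, q ≤ 0 → c q = 0) ∧
          Summable (fun q : ℚ => ‖b q‖) ∧ Summable (fun q : ℚ => ‖c q‖) ∧
          (∀ q : ℚ, a q = ∑' r : ℚ, b r * c (q - r)) ∧
          (∑' q : ℚ, ‖b q‖) * (∑' q : ℚ, ‖c q‖) ≤ M * ∑' q : ℚ, ‖a q‖) := by
  rintro ⟨M, hM, H⟩
  obtain ⟨f, hf0, -, hfs, hno⟩ := Pool.Agent.Helper976.Fac.J859.no_factor
  obtain ⟨b, c, hb, hc, hbs, hcs, hconv, -⟩ := H f hf0 hfs
  exact hno b c hb hc hbs hcs (fun q _ => hconv q)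

end Pool.Agent.S03540
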