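import Pool.Statements.S03541
import Pool.Agent.Helper827.B13

set_option autoImplicit false
open Pool Pool.MP_8a3d3f_an

namespace Pool.Agent.S03541

/-- For real Banach spaces X, Y: if X has an equivalent norm Fréchet differentiable off 0, and Y is the image of X under a Lipschitz, co-Lipschitz map, then Y carries an everywhere Fréchet differentiable nonzero real function with bounded support. -/
theorem result :
    ∀ (X : Type) [NormedAddCommGroup X] [NormedSpace ℝ X] [CompleteSpace X]
      (Y : Type) [NormedAddCommGroup Y] [NormedSpace ℝ Y] [CompleteSpace Y],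
      (∃ N : X → ℝ, (∀ x y : X, N (x + y) ≤ N x + N y) ∧
          (∀ (t : ℝ) (x : X), N (t • x) = |t| * N x) ∧
          (∃ a b : ℝ, 0 < a ∧ 0 < b ∧ ∀ x : X, a * ‖x‖ ≤ N x ∧ N x ≤ b * ‖x‖) ∧
          ∀ x : X, x ≠ 0 → DifferentiableAt ℝ N x) →
      (∃ f : X → Y, (∃ L : NNReal, LipschitzWith L f) ∧
          ∃ c : ℝ, 0 < c ∧ ∀ x : X, ∀ r : ℝ, 0 < r →
            Metric.ball (f x) (c * r) ⊆ f '' Metric.ball x r) →
      ∃ φ : Y → ℝ, (∀ y : Y, DifferentiableAt ℝ φ y) ∧ φ ≠ 0 ∧
          Bornology.IsBounded (Function.support φ) := by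
  intro X _ _ _ Y _ _ _ ⟨N, _, hN2, ⟨a, b, ha, hb, hab⟩, hd⟩ ⟨f, ⟨L, hL⟩, c, hc, hco⟩
  rcases subsingleton_or_nontrivial X with hX | hX
  · -- X trivial, hence Y trivial
    have hY : ∀ y : Y, y = 0 := by
      intro y
      by_contra hy
      have h1 : ∀ u ∈ Metric.ball (f 0) (c * 1), u = f 0 := by
        intro u hu
        obtain ⟨x, _, hx⟩ := hco 0 1 one_pos hu
        rw [← hx, Subsingleton.elim x 0]
      have hy' : 0 < ‖y‖ := norm_pos_iff.2 hy
      have h2 := h1 (f 0 + (c / 2 / ‖y‖) • y) (by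
        rw [Metric.mem_ball, dist_eq_norm, add_sub_cancel_left, norm_smul, Real.norm_eq_abs,
          abs_of_pos (by positivity), div_mul_cancel₀ _ hy'.ne']
        linarith)
      have h3 : (c / 2 / ‖y‖) • y = 0 := by
        have := congrArg (fun u => u - f 0) h2
        simpa using this
      rcases smul_eq_zero.1 h3 with h4 | h4
      · have : 0 < c / 2 / ‖y‖ := by positivity
        exact this.ne' h4
      · exact hy h4
    refine ⟨fun _ => 1, fun y => differentiableAt_const _, ?_, ?_⟩
    · intro h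
      have := congrFun h 0
      simp at this
    · apply (Metric.isBounded_ball (x := (0 : Y)) (r := 1)).subset
      intro y _
      rw [hY y]
      exact Metric.mem_ball_self one_pos
  · obtain ⟨g, hg, hg0, hgb⟩ := Pool.Agent.Helper827.B.bump_of_norm hN2 ha hb hab hd
    have hL' : ∀ x y, ‖f x - f y‖ ≤ (L : ℝ) * ‖x - y‖ := fun x y => by
      have := hL.dist_le_mul x y
      rwa [dist_eq_norm, dist_eq_norm] at this
    obtain ⟨φ, h1, _, h3, h4⟩ := Pool.Agent.Helper827.B.frechet_of_frag
      (Pool.Agent.Helper827.B.quot_frag hg hg0 hgb L.2 hL' hc hco)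
    refine ⟨φ, fun y => (h1.differentiable (by norm_num)) y, ?_, h4⟩
    intro h
    exact h3 (by rw [h]; rfl)

end Pool.Agent.S03541
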