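import Pool.Statements.S03543
import Pool.Agent.Helper704.RW.Main

set_option autoImplicit false
open MeasureTheory
open Pool Pool.MP_8a7e24_an

namespace Pool.Agent.S03543

/-- Every complex L² function on ℝ is arbitrarily close in L² to some ψ whose dyadic dilates and integer translates 2^{j/2}ψ(2^j x−k) have two-sided Riesz bounds on finite combinations and span a dense subspace of L². -/
theorem result :
    ∀ f : ℝ → ℂ, MemLp f 2 volume → ∀ ε : ℝ, 0 < ε →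
      ∃ ψ : ℝ → ℂ, MemLp ψ 2 volume ∧
        ∫ x, ‖f x - ψ x‖ ^ 2 < ε ∧
        (∃ A B : ℝ, 0 < A ∧ 0 < B ∧
          ∀ s : Finset (ℤ × ℤ), ∀ c : ℤ × ℤ → ℂ,
            A * ∑ p ∈ s, ‖c p‖ ^ 2 ≤
              ∫ x, ‖∑ p ∈ s, c p * ((((2 : ℝ) ^ ((p.1 : ℝ) / 2) : ℝ) : ℂ) *
                  ψ ((2 : ℝ) ^ p.1 * x - (p.2 : ℝ)))‖ ^ 2 ∧
            ∫ x, ‖∑ p ∈ s, c p * ((((2 : ℝ) ^ ((p.1 : ℝ) / 2) : ℝ) : ℂ) *
                  ψ ((2 : ℝ) ^ p.1 * x - (p.2 : ℝ)))‖ ^ 2 ≤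
              B * ∑ p ∈ s, ‖c p‖ ^ 2) ∧
        (∀ g : ℝ → ℂ, MemLp g 2 volume → ∀ δ : ℝ, 0 < δ →
          ∃ s : Finset (ℤ × ℤ), ∃ c : ℤ × ℤ → ℂ,
            ∫ x, ‖g x - ∑ p ∈ s, c p * ((((2 : ℝ) ^ ((p.1 : ℝ) / 2) : ℝ) : ℂ) *
                  ψ ((2 : ℝ) ^ p.1 * x - (p.2 : ℝ)))‖ ^ 2 < δ) := by
  intro f hf ε hε
  exact Pool.Agent.Helper704.RW.main f hf ε hε

end Pool.Agent.S03543
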