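import Pool.Statements.S03546

set_option autoImplicit false
open Pool Pool.MP_8a8b2f_an

namespace Pool.Agent.S03546

open MeasureTheory Filter Topology

noncomputable section

/-- the weight -/
def rho (x : ℝ) : ℝ := 1 / Real.sqrt (1 + |x|)

lemma rho_pos (x : ℝ) : 0 < rho x := by
  unfold rho
  have : 0 < 1 + |x| := by positivity
  positivity

lemma rho_cont : Continuous rho := by
  unfold rho
  apply Continuous.div continuous_const (by fun_prop)
  intro x
  have : 0 < 1 + |x| := by positivity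
  positivity

/-- test functions: continuous, compactly supported, vanishing on the negative half line -/
def DS : Submodule ℂ (ℝ → ℂ) where
  carrier := {f | Continuous f ∧ HasCompactSupport f ∧ ∀ x ≤ 0, f x = 0}
  add_mem' := by
    rintro f g ⟨hf1, hf2, hf3⟩ ⟨hg1, hg2, hg3⟩
    refine ⟨hf1.add hg1, hf2.add hg2, fun x hx => ?_⟩
    simp [hf3 x hx, hg3 x hx]
  zero_mem' := by
    refine ⟨continuous_const, HasCompactSupport.zero, fun x _ => rfl⟩
  smul_mem' := by
    rintro c f ⟨hf1, hf2, hf3⟩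
    refine ⟨hf1.const_smul c, ?_, fun x hx => ?_⟩
    · exact hf2.smul_left (f := fun _ => c)
    · simp [hf3 x hx]

/-- the space of test functions as a type -/
def DD : Type := DS

instance : AddCommGroup DD := inferInstanceAs (AddCommGroup DS)

instance : Module ℂ DD := inferInstanceAs (Module ℂ DS)

/-- the underlying function -/
def fn (f : DD) : ℝ → ℂ := (show DS from f : ℝ → ℂ)

lemma fn_cont (f : DD) : Continuous (fn f) := f.2.1

lemma fn_supp (f : DD) : HasCompactSupport (fn f) := f.2.2.1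

lemma fn_neg (f : DD) {x : ℝ} (hx : x ≤ 0) : fn f x = 0 := f.2.2.2 x hx

lemma fn_add (f g : DD) (x : ℝ) : fn (f + g) x = fn f x + fn g x := rfl

lemma fn_sub (f g : DD) (x : ℝ) : fn (f - g) x = fn f x - fn g x := rfl

lemma fn_smul (c : ℂ) (f : DD) (x : ℝ) : fn (c • f) x = c * fn f x := rfl

lemma fn_ext {f g : DD} (h : ∀ x, fn f x = fn g x) : f = g := Subtype.ext (funext h)

lemma int_prod (f g : DD) {k : ℝ → ℝ} (hk : Continuous k) :
    Integrable (fun x => (starRingEnd ℂ) (fn f x) * fn g x * (k x : ℂ)) := by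
  apply Continuous.integrable_of_hasCompactSupport
  · have h1 := fn_cont f
    have h2 := fn_cont g
    exact ((Complex.continuous_conj.comp h1).mul h2).mul (Complex.continuous_ofReal.comp hk)
  · have h1 : HasCompactSupport (fun x => (starRingEnd ℂ) (fn f x) * fn g x) :=
      (fn_supp g).mul_left
    exact h1.mul_right

lemma int_sq (f : DD) {k : ℝ → ℝ} (hk : Continuous k) :
    Integrable (fun x => ‖fn f x‖ ^ 2 * k x) := by
  apply Continuous.integrable_of_hasCompactSupport
  · have h1 := fn_cont f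
    fun_prop
  · have h1 : HasCompactSupport (fun x => ‖fn f x‖ ^ 2) := by
      have h2 := (fn_supp f).norm
      simp_rw [pow_two]
      exact h2.mul_left
    exact h1.mul_right

/-- the inner product -/
def ip (f g : DD) : ℂ := ∫ x, (starRingEnd ℂ) (fn f x) * fn g x * (rho x : ℂ)

lemma ip_self (f : DD) : ip f f = ((∫ x, ‖fn f x‖ ^ 2 * rho x : ℝ) : ℂ) := by
  unfold ip
  rw [← integral_complex_ofReal]
  congr 1
  funext x
  rw [mul_comm ((starRingEnd ℂ) (fn f x)), Complex.mul_conj']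
  push_cast
  ring

/-- the pre-inner-product structure -/
abbrev core : PreInnerProductSpace.Core ℂ DD where
  inner f g := ip f g
  conj_inner_symm f g := by
    unfold ip
    rw [← integral_conj]
    congr 1
    funext x
    simp only [map_mul, Complex.conj_conj, Complex.conj_ofReal]
    ring
  re_inner_nonneg f := by
    rw [ip_self]
    simp only [RCLike.re_eq_complex_re, Complex.ofReal_re]
    exact integral_nonneg (fun x => mul_nonneg (by positivity) (rho_pos x).le)
  add_left f g k := by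
    unfold ip
    rw [← integral_add (int_prod f k rho_cont) (int_prod g k rho_cont)]
    congr 1
    funext x
    rw [fn_add, map_add]
    ring
  smul_left f g c := by
    unfold ip
    rw [← integral_const_mul]
    congr 1
    funext x
    rw [fn_smul, map_mul]
    ring

instance : SeminormedAddCommGroup DD := InnerProductSpace.Core.toSeminormedAddCommGroup (c := core)

instance : InnerProductSpace ℂ DD := InnerProductSpace.ofCore core

lemma inner_def (f g : DD) : inner ℂ f g = ∫ x, (starRingEnd ℂ) (fn f x) * fn g x * (rho x : ℂ) := rfl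

lemma norm_sq (f : DD) : ‖f‖ ^ 2 = ∫ x, ‖fn f x‖ ^ 2 * rho x := by
  have h1 : inner ℂ f f = ((∫ x, ‖fn f x‖ ^ 2 * rho x : ℝ) : ℂ) := ip_self f
  rw [← inner_self_eq_norm_sq (𝕜 := ℂ) f, h1]
  simp

/-- right translation -/
def shL (t : ℝ) : DD →ₗ[ℂ] DD where
  toFun f := (⟨fun x => fn f (x - max t 0), by
    refine ⟨(fn_cont f).comp (by fun_prop), ?_, ?_⟩
    · exact (fn_supp f).comp_homeomorph (Homeomorph.subRight (max t 0))
    · intro x hx
      apply fn_neg
      have := le_max_right t 0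
      linarith⟩ : DS)
  map_add' f g := by
    apply fn_ext
    intro x
    rfl
  map_smul' c f := by
    apply fn_ext
    intro x
    rfl

lemma shL_fn (t : ℝ) (f : DD) (x : ℝ) : fn (shL t f) x = fn f (x - max t 0) := rfl

lemma shL_int (t : ℝ) (f : DD) (k : ℝ → ℝ) :
    ∫ x, ‖fn (shL t f) x‖ ^ 2 * k x = ∫ x, ‖fn f x‖ ^ 2 * k (x + max t 0) := by
  rw [← integral_add_right_eq_self (fun x => ‖fn (shL t f) x‖ ^ 2 * k x) (max t 0)]
  congr 1
  funext x
  rw [shL_fn, add_sub_cancel_right]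

lemma rho_anti {x y : ℝ} (hx : 0 ≤ x) (hxy : x ≤ y) : rho y ≤ rho x := by
  unfold rho
  rw [abs_of_nonneg hx, abs_of_nonneg (hx.trans hxy)]
  apply one_div_le_one_div_of_le
  · apply Real.sqrt_pos.2
    linarith
  · apply Real.sqrt_le_sqrt
    linarith

lemma shL_norm (t : ℝ) (f : DD) : ‖shL t f‖ ≤ 1 * ‖f‖ := by
  rw [one_mul, ← sq_le_sq₀ (norm_nonneg _) (norm_nonneg _), norm_sq, norm_sq, shL_int]
  have hm := le_max_right t 0
  apply integral_mono
  · exact int_sq f (rho_cont.comp (by fun_prop))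
  · exact int_sq f rho_cont
  · intro x
    simp only
    rcases le_total x 0 with hx | hx
    · rw [fn_neg f hx]
      simp
    · exact mul_le_mul_of_nonneg_left (rho_anti hx (by linarith)) (by positivity)

/-- right translation as a continuous linear map -/
def sh (t : ℝ) : DD →L[ℂ] DD := (shL t).mkContinuous 1 (shL_norm t)

lemma sh_fn (t : ℝ) (f : DD) (x : ℝ) : fn (sh t f) x = fn f (x - max t 0) := rfl

/-- the Hilbert space -/
abbrev HH : Type := UniformSpace.Completion DD

/-- the semigroup -/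
def T (t : ℝ) : HH →L[ℂ] HH := (sh t).completion

lemma T_coe (t : ℝ) (f : DD) : T t (f : HH) = (sh t f : DD) := by
  unfold T
  simp

lemma T_norm (t : ℝ) : ‖T t‖ ≤ 1 := by
  apply ContinuousLinearMap.opNorm_le_bound _ zero_le_one
  intro x
  rw [one_mul]
  induction x using UniformSpace.Completion.induction_on with
  | hp => exact isClosed_le ((T t).continuous.norm) continuous_norm
  | ih f =>
    rw [T_coe, UniformSpace.Completion.norm_coe, UniformSpace.Completion.norm_coe]
    have := shL_norm t f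
    rw [one_mul] at this
    exact this

lemma T_zero : T 0 = ContinuousLinearMap.id ℂ HH := by
  ext x
  induction x using UniformSpace.Completion.induction_on with
  | hp => exact isClosed_eq (T 0).continuous continuous_id
  | ih f =>
    rw [T_coe]
    simp only [ContinuousLinearMap.coe_id', id]
    congr 1
    apply fn_ext
    intro x
    rw [sh_fn]
    simp

lemma T_add {s t : ℝ} (hs : 0 ≤ s) (ht : 0 ≤ t) : T (s + t) = (T s).comp (T t) := by
  ext x
  induction x using UniformSpace.Completion.induction_on with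
  | hp => exact isClosed_eq (T (s + t)).continuous ((T s).comp (T t)).continuous
  | ih f =>
    rw [ContinuousLinearMap.comp_apply, T_coe, T_coe, T_coe]
    congr 1
    apply fn_ext
    intro x
    rw [sh_fn, sh_fn, sh_fn, max_eq_left hs, max_eq_left ht, max_eq_left (add_nonneg hs ht)]
    congr 1
    ring

lemma sh_small (f : DD) {ε : ℝ} (hε : 0 < ε) : ∃ δ > 0, ∀ h, 0 ≤ h → h < δ → ‖sh h f - f‖ < ε := by
  obtain ⟨R, hR⟩ : ∃ R : ℝ, ∀ x, R < |x| → fn f x = 0 := by
    obtain ⟨R, hR⟩ := (fn_supp f).isCompact.isBounded.subset_closedBall (0 : ℝ)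
    refine ⟨R, fun x hx => ?_⟩
    by_contra hne
    have h1 : x ∈ tsupport (fn f) := subset_tsupport _ hne
    have h2 := hR h1
    rw [Metric.mem_closedBall, dist_zero_right, Real.norm_eq_abs] at h2
    linarith
  have huc : UniformContinuous (fn f) := (fn_supp f).uniformContinuous_of_continuous (fn_cont f)
  set R' : ℝ := |R| + 1 with hR'
  have hR'0 : 0 < R' := by positivity
  set η : ℝ := ε / Real.sqrt (2 * R' + 1) with hη
  have hs0 : 0 < Real.sqrt (2 * R' + 1) := Real.sqrt_pos.2 (by linarith)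
  have hη0 : 0 < η := by positivity
  rw [Metric.uniformContinuous_iff] at huc
  obtain ⟨δ, hδ, hδ'⟩ := huc η hη0
  refine ⟨min δ 1, by positivity, fun h hh0 hh => ?_⟩
  have hh1 : h < δ := lt_of_lt_of_le hh (min_le_left _ _)
  have hh2 : h < 1 := lt_of_lt_of_le hh (min_le_right _ _)
  rw [← sq_lt_sq₀ (norm_nonneg _) hε.le, norm_sq]
  have hpt : ∀ x, ‖fn (sh h f - f) x‖ ^ 2 * rho x ≤ (Set.Icc (-R') R').indicator (fun _ => η ^ 2) x := by
    intro x
    rw [fn_sub, sh_fn, max_eq_left hh0]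
    have hrho : rho x ≤ 1 := by
      unfold rho
      rw [div_le_one (Real.sqrt_pos.2 (by positivity))]
      exact Real.one_le_sqrt.2 (by linarith [abs_nonneg x])
    by_cases hx : x ∈ Set.Icc (-R') R'
    · rw [Set.indicator_of_mem hx]
      have h1 := hδ' (a := x - h) (b := x) (by
        rw [Real.dist_eq]
        have : x - h - x = -h := by ring
        rw [this, abs_neg, abs_of_nonneg hh0]
        exact hh1)
      rw [dist_eq_norm] at h1
      have h2 : ‖fn f (x - h) - fn f x‖ ^ 2 ≤ η ^ 2 := pow_le_pow_left₀ (norm_nonneg _) h1.le 2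
      have h3 := (rho_pos x).le
      have h4 : 0 ≤ ‖fn f (x - h) - fn f x‖ ^ 2 := by positivity
      nlinarith
    · rw [Set.indicator_of_notMem hx]
      have hx' : R' < |x| := by
        rw [Set.mem_Icc, ← abs_le] at hx
        exact not_le.1 hx
      have h1 : fn f x = 0 := hR x (by
        have := le_abs_self R
        linarith)
      have h2 : fn f (x - h) = 0 := hR (x - h) (by
        have h3 := abs_sub_abs_le_abs_sub x h
        rw [abs_of_nonneg hh0] at h3
        have := le_abs_self R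
        linarith)
      rw [h1, h2]
      simp
  have hle : ∫ x, ‖fn (sh h f - f) x‖ ^ 2 * rho x ≤
      ∫ x, (Set.Icc (-R') R').indicator (fun _ => η ^ 2) x := by
    apply integral_mono (int_sq _ rho_cont) _ hpt
    rw [integrable_indicator_iff measurableSet_Icc]
    exact integrableOn_const (by simp)
  refine lt_of_le_of_lt hle ?_
  rw [integral_indicator measurableSet_Icc, setIntegral_const]
  simp only [Measure.real, Real.volume_Icc]
  rw [ENNReal.toReal_ofReal (by linarith), smul_eq_mul]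
  have h5 : η ^ 2 * (2 * R' + 1) = ε ^ 2 := by
    rw [hη, div_pow, Real.sq_sqrt (by linarith)]
    field_simp
  have h6 : 0 < η ^ 2 := by positivity
  nlinarith

lemma T_small (x : HH) {ε : ℝ} (hε : 0 < ε) : ∃ δ > 0, ∀ h, 0 ≤ h → h < δ → ‖T h x - x‖ < ε := by
  have h1 := UniformSpace.Completion.denseRange_coe (α := DD) x
  rw [Metric.mem_closure_iff] at h1
  obtain ⟨_, ⟨f, rfl⟩, hf⟩ := h1 (ε / 3) (by positivity)
  rw [dist_eq_norm] at hf
  obtain ⟨δ, hδ, hδ'⟩ := sh_small f (show 0 < ε / 3 by positivity)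
  refine ⟨δ, hδ, fun h hh0 hh => ?_⟩
  have h2 := hδ' h hh0 hh
  have h3 : T h x - x = T h (x - (f : HH)) + (T h (f : HH) - (f : HH)) + ((f : HH) - x) := by
    rw [map_sub]
    abel
  rw [h3]
  refine lt_of_le_of_lt norm_add₃_le ?_
  have h4 : ‖T h (x - (f : HH))‖ ≤ ‖x - (f : HH)‖ := by
    have := (T h).le_of_opNorm_le (T_norm h) (x - (f : HH))
    rwa [one_mul] at this
  have h5 : ‖T h (f : HH) - (f : HH)‖ < ε / 3 := by
    rw [T_coe, ← UniformSpace.Completion.coe_sub, UniformSpace.Completion.norm_coe]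
    exact h2
  have h6 : ‖(f : HH) - x‖ < ε / 3 := by
    rw [norm_sub_rev]
    exact hf
  linarith

lemma T_cont (x : HH) : ContinuousOn (fun t : ℝ => T t x) (Set.Ici 0) := by
  rw [Metric.continuousOn_iff]
  intro b hb ε hε
  obtain ⟨δ, hδ, hδ'⟩ := T_small x hε
  refine ⟨δ, hδ, fun a ha hab => ?_⟩
  rw [Real.dist_eq] at hab
  rw [dist_eq_norm]
  have key : ∀ u v : ℝ, 0 ≤ u → u ≤ v → v - u < δ → ‖T v x - T u x‖ < ε := by
    intro u v hu huv hlt
    have h1 : T v = (T u).comp (T (v - u)) := by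
      rw [← T_add hu (by linarith)]
      congr 1
      ring
    rw [h1, ContinuousLinearMap.comp_apply, ← map_sub]
    have h2 := (T u).le_of_opNorm_le (T_norm u) (T (v - u) x - x)
    rw [one_mul] at h2
    exact lt_of_le_of_lt h2 (hδ' (v - u) (by linarith) hlt)
  rcases le_total a b with h | h
  · rw [norm_sub_rev]
    apply key a b ha h
    rw [abs_of_nonpos (by linarith)] at hab
    linarith
  · apply key b a hb h
    rw [abs_of_nonneg (by linarith)] at hab
    exact hab

/-- the multiplier -/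
def wt (a : ℝ) (x : ℝ) : ℝ := min (a * (1 + |x|)) 1

lemma wt_cont (a : ℝ) : Continuous (wt a) := by
  unfold wt
  fun_prop

lemma wt_abs {a : ℝ} (ha : 0 < a) (x : ℝ) : |wt a x| ≤ 1 := by
  unfold wt
  have h1 : 0 ≤ a * (1 + |x|) := by positivity
  rw [abs_of_nonneg (le_min h1 zero_le_one)]
  exact min_le_right _ _

/-- multiplication by the multiplier -/
def WL (a : ℝ) : DD →ₗ[ℂ] DD where
  toFun f := (⟨fun x => (wt a x : ℂ) * fn f x, by
    refine ⟨(Complex.continuous_ofReal.comp (wt_cont a)).mul (fn_cont f), ?_, ?_⟩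
    · exact (fn_supp f).mul_left
    · intro x hx
      change (wt a x : ℂ) * fn f x = 0
      rw [fn_neg f hx, mul_zero]⟩ : DS)
  map_add' f g := by
    apply fn_ext
    intro x
    exact mul_add _ _ _
  map_smul' c f := by
    apply fn_ext
    intro x
    exact mul_left_comm _ _ _

lemma WL_fn (a : ℝ) (f : DD) (x : ℝ) : fn (WL a f) x = (wt a x : ℂ) * fn f x := rfl

lemma WL_norm {a : ℝ} (ha : 0 < a) (f : DD) : ‖WL a f‖ ≤ 1 * ‖f‖ := by
  rw [one_mul, ← sq_le_sq₀ (norm_nonneg _) (norm_nonneg _), norm_sq, norm_sq]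
  apply integral_mono (int_sq _ rho_cont) (int_sq _ rho_cont)
  intro x
  simp only
  rw [WL_fn, norm_mul, mul_pow, Complex.norm_real, Real.norm_eq_abs]
  have h1 : |wt a x| ^ 2 ≤ 1 := pow_le_one₀ (abs_nonneg _) (wt_abs ha x)
  have h2 := (rho_pos x).le
  have h3 : 0 ≤ ‖fn f x‖ ^ 2 := by positivity
  apply mul_le_mul_of_nonneg_right _ h2
  exact mul_le_of_le_one_left h3 h1

/-- multiplication operator on test functions -/
def WC {a : ℝ} (ha : 0 < a) : DD →L[ℂ] DD := (WL a).mkContinuous 1 (WL_norm ha)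

/-- multiplication operator on the Hilbert space -/
def W {a : ℝ} (ha : 0 < a) : HH →L[ℂ] HH := (WC ha).completion

lemma W_coe {a : ℝ} (ha : 0 < a) (f : DD) : W ha (f : HH) = (WC ha f : DD) := by
  unfold W
  simp

lemma W_norm {a : ℝ} (ha : 0 < a) (x : HH) : ‖W ha x‖ ≤ ‖x‖ := by
  induction x using UniformSpace.Completion.induction_on with
  | hp => exact isClosed_le ((W ha).continuous.norm) continuous_norm
  | ih f =>
    rw [W_coe, UniformSpace.Completion.norm_coe, UniformSpace.Completion.norm_coe]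
    have := WL_norm ha f
    rw [one_mul] at this
    exact this

lemma WC_inner {a : ℝ} (ha : 0 < a) (f : DD) :
    (inner ℂ f (WC ha f)).re = ∫ x, ‖fn f x‖ ^ 2 * (wt a x * rho x) := by
  have h1 : inner ℂ f (WC ha f) = ((∫ x, ‖fn f x‖ ^ 2 * (wt a x * rho x) : ℝ) : ℂ) := by
    rw [inner_def, ← integral_complex_ofReal]
    congr 1
    funext x
    have h2 : fn (WC ha f) x = (wt a x : ℂ) * fn f x := rfl
    rw [h2]
    have h3 : (starRingEnd ℂ) (fn f x) * fn f x = ((‖fn f x‖ ^ 2 : ℝ) : ℂ) := by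
      rw [mul_comm, Complex.mul_conj']
      push_cast
      rfl
    have h4 : (starRingEnd ℂ) (fn f x) * ((wt a x : ℂ) * fn f x) * (rho x : ℂ) =
        ((starRingEnd ℂ) (fn f x) * fn f x) * (wt a x : ℂ) * (rho x : ℂ) := by ring
    rw [h4, h3]
    push_cast
    ring
  rw [h1, Complex.ofReal_re]

/-- the pointwise inequality -/
lemma pointwise {a s h : ℝ} (ha : 0 < a) (hs : 1 ≤ s) (hh0 : 0 < h) (hh : a * h ≤ 1 / 2) :
    1 / Real.sqrt s * (min (a * s) 1 + h * (a / 2 - 2 * a * min (a * s) 1) - (2 * a ^ 2 + a) * h ^ 2) ≤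
      min (a * (s + h)) 1 * (1 / Real.sqrt (s + h)) := by
  have hs0 : 0 < s := by linarith
  set r := Real.sqrt s / Real.sqrt (s + h) with hr
  have hp : 0 < Real.sqrt s := Real.sqrt_pos.2 hs0
  have hq : 0 < Real.sqrt (s + h) := Real.sqrt_pos.2 (by linarith)
  have hr0 : 0 < r := by positivity
  have hrr : 1 / Real.sqrt (s + h) = 1 / Real.sqrt s * r := by
    rw [hr]
    field_simp
  have hr1 : 1 - h / (2 * s) ≤ r := by
    rcases le_total (1 - h / (2 * s)) 0 with h1 | h1
    · linarith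
    · rw [hr, le_div_iff₀ hq]
      have h2 : (1 - h / (2 * s)) * Real.sqrt (s + h) = Real.sqrt ((1 - h / (2 * s)) ^ 2 * (s + h)) := by
        rw [Real.sqrt_mul (by positivity), Real.sqrt_sq h1]
      rw [h2]
      apply Real.sqrt_le_sqrt
      set u := h / s with hu
      have hu0 : 0 < u := by positivity
      have h3 : h = u * s := by
        rw [hu]
        field_simp
      have h4 : h / (2 * s) = u / 2 := by
        rw [hu]
        field_simp
      rw [h4] at h1 ⊢
      have h5 : s + h = s * (1 + u) := by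
        rw [h3]
        ring
      rw [h5]
      have h6 : (1 - u / 2) ^ 2 * (1 + u) ≤ 1 := by nlinarith [mul_pos hu0 hu0]
      nlinarith
  rw [hrr]
  have h7 : min (a * (s + h)) 1 * (1 / Real.sqrt s * r) = 1 / Real.sqrt s * (min (a * (s + h)) 1 * r) := by ring
  rw [h7]
  apply mul_le_mul_of_nonneg_left _ (by positivity)
  have hsa : h / (2 * s) * s = h / 2 := by field_simp
  have hhs : h / (2 * s) ≤ h / 2 := by
    apply div_le_div_of_nonneg_left hh0.le (by norm_num) (by linarith)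
  have hhs0 : 0 < h / (2 * s) := by positivity
  rcases le_total 1 (a * s) with hA | hA
  · -- first case
    have hB : 1 ≤ a * (s + h) := by nlinarith
    rw [min_eq_right hA, min_eq_right hB]
    have h8 : h / (2 * s) ≤ a * h / 2 := by
      rw [div_le_div_iff₀ (by positivity) (by norm_num)]
      nlinarith
    have h9 : 0 < a * h := by positivity
    have h10 : 0 < (2 * a ^ 2 + a) * h ^ 2 := by positivity
    nlinarith
  · rw [min_eq_left hA]
    rcases le_total (a * (s + h)) 1 with hB | hB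
    · rw [min_eq_left hB]
      have h8 : a * (s + h) * (1 - h / (2 * s)) ≤ a * (s + h) * r :=
        mul_le_mul_of_nonneg_left hr1 (by positivity)
      have h9 : a * (s + h) * (1 - h / (2 * s)) = a * s + a * h / 2 - a * h * (h / (2 * s)) := by
        field_simp
        ring
      have h10 : a * h * (h / (2 * s)) ≤ a * h * (h / 2) := mul_le_mul_of_nonneg_left hhs (by positivity)
      have h11 : 0 ≤ h * (2 * a * (a * s)) := by positivity
      have h12 : 0 ≤ a ^ 2 * h ^ 2 := by positivity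
      nlinarith
    · rw [min_eq_right hB, one_mul]
      have h8 : 1 / 2 ≤ a * s := by nlinarith
      have h9 : h / (2 * s) ≤ a * h := by
        rw [div_le_iff₀ (by positivity)]
        nlinarith
      have h10 : 1 - a * h ≤ a * s := by nlinarith
      have h11 : a * h * (1 - a * h) ≤ a * h * (a * s) := mul_le_mul_of_nonneg_left h10 (by positivity)
      have h12 : 0 ≤ a * h ^ 2 := by positivity
      nlinarith

lemma rho_nonneg_eq {x : ℝ} (hx : 0 ≤ x) : rho x = 1 / Real.sqrt (1 + x) := by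
  unfold rho
  rw [abs_of_nonneg hx]

lemma quad {a h : ℝ} (ha : 0 < a) (hh0 : 0 < h) (hh : a * h ≤ 1 / 2) (f : DD) :
    (inner ℂ f (WC ha f)).re + h * ((a / 2) * ‖f‖ ^ 2 - 2 * a * (inner ℂ f (WC ha f)).re)
      - (2 * a ^ 2 + a) * h ^ 2 * ‖f‖ ^ 2 ≤ (inner ℂ (sh h f) (WC ha (sh h f))).re := by
  rw [WC_inner, WC_inner, norm_sq]
  have h1 : ∫ x, ‖fn (sh h f) x‖ ^ 2 * (wt a x * rho x) =
      ∫ x, ‖fn f x‖ ^ 2 * (wt a (x + h) * rho (x + h)) := by
    have := shL_int h f (fun x => wt a x * rho x)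
    rw [max_eq_left hh0.le] at this
    exact this
  rw [h1]
  have hc := wt_cont a
  have hr := rho_cont
  have i1 := int_sq f (k := fun x => wt a x * rho x) (by fun_prop)
  have i2 := int_sq f (k := rho) hr
  have h2 : (∫ x, ‖fn f x‖ ^ 2 * (wt a x * rho x)) +
      h * ((a / 2) * (∫ x, ‖fn f x‖ ^ 2 * rho x) - 2 * a * (∫ x, ‖fn f x‖ ^ 2 * (wt a x * rho x)))
      - (2 * a ^ 2 + a) * h ^ 2 * (∫ x, ‖fn f x‖ ^ 2 * rho x) =
      ∫ x, ((1 - 2 * a * h) * (‖fn f x‖ ^ 2 * (wt a x * rho x)) +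
        (h * a / 2 - (2 * a ^ 2 + a) * h ^ 2) * (‖fn f x‖ ^ 2 * rho x)) := by
    rw [integral_add (i1.const_mul _) (i2.const_mul _), integral_const_mul, integral_const_mul]
    ring
  rw [h2]
  apply integral_mono ((i1.const_mul _).add (i2.const_mul _)) (int_sq f (by fun_prop))
  intro x
  simp only [Pi.add_apply]
  rcases le_total x 0 with hx | hx
  · rw [fn_neg f hx]
    simp
  · have h3 := pointwise (s := 1 + x) ha (by linarith) hh0 hh
    have h4 : wt a x = min (a * (1 + x)) 1 := by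
      unfold wt
      rw [abs_of_nonneg hx]
    have h5 : wt a (x + h) = min (a * (1 + x + h)) 1 := by
      unfold wt
      rw [abs_of_nonneg (by linarith : 0 ≤ x + h)]
      ring_nf
    have h6 : rho (x + h) = 1 / Real.sqrt (1 + x + h) := by
      rw [rho_nonneg_eq (by linarith : 0 ≤ x + h)]
      ring_nf
    rw [← h4, ← h5, ← h6, ← rho_nonneg_eq hx] at h3
    have h7 : 0 ≤ ‖fn f x‖ ^ 2 := by positivity
    calc (1 - 2 * a * h) * (‖fn f x‖ ^ 2 * (wt a x * rho x)) +
        (h * a / 2 - (2 * a ^ 2 + a) * h ^ 2) * (‖fn f x‖ ^ 2 * rho x)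
        = ‖fn f x‖ ^ 2 * (rho x * (wt a x + h * (a / 2 - 2 * a * wt a x) - (2 * a ^ 2 + a) * h ^ 2)) := by
          ring
      _ ≤ ‖fn f x‖ ^ 2 * (wt a (x + h) * rho (x + h)) := mul_le_mul_of_nonneg_left h3 h7

/-- the quadratic form -/
def QQ {a : ℝ} (ha : 0 < a) (x : HH) : ℝ := (inner ℂ x (W ha x)).re

lemma QQ_cont {a : ℝ} (ha : 0 < a) : Continuous (QQ ha) := by
  unfold QQ
  have h1 := (W ha).continuous
  exact Complex.continuous_re.comp (continuous_id.inner h1)

lemma QQ_le {a : ℝ} (ha : 0 < a) (x : HH) : |QQ ha x| ≤ ‖x‖ ^ 2 := by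
  unfold QQ
  refine (Complex.abs_re_le_norm _).trans ((norm_inner_le_norm _ _).trans ?_)
  rw [pow_two]
  exact mul_le_mul_of_nonneg_left (W_norm ha x) (norm_nonneg _)

lemma quadH {a h : ℝ} (ha : 0 < a) (hh0 : 0 < h) (hh : a * h ≤ 1 / 2) (x : HH) :
    QQ ha x + h * ((a / 2) * ‖x‖ ^ 2 - 2 * a * QQ ha x)
      - (2 * a ^ 2 + a) * h ^ 2 * ‖x‖ ^ 2 ≤ QQ ha (T h x) := by
  induction x using UniformSpace.Completion.induction_on with
  | hp =>
    have h1 := QQ_cont ha
    have h2 := (T h).continuous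
    apply isClosed_le
    · fun_prop
    · exact h1.comp h2
  | ih f =>
    unfold QQ
    rw [T_coe, W_coe, W_coe, UniformSpace.Completion.inner_coe, UniformSpace.Completion.inner_coe,
      UniformSpace.Completion.norm_coe]
    exact quad ha hh0 hh f

lemma QQ_expand {a : ℝ} (ha : 0 < a) (x d : HH) (h : ℝ) :
    QQ ha (x + (h : ℂ) • d) =
      QQ ha x + h * ((inner ℂ d (W ha x)).re + (inner ℂ x (W ha d)).re) + h ^ 2 * QQ ha d := by
  unfold QQ
  rw [map_add, map_smul, inner_add_left, inner_add_right, inner_add_right, inner_smul_left,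
    inner_smul_right, inner_smul_left, inner_smul_right]
  simp only [Complex.conj_ofReal, Complex.add_re, Complex.re_ofReal_mul]
  ring

lemma gen_ineq {a : ℝ} (ha : 0 < a) (x y : HH)
    (hxy : Tendsto (fun h : ℝ => ((h : ℂ)⁻¹) • (T h x - x)) (𝓝[>] 0) (𝓝 y)) :
    (a / 2) * ‖x‖ ^ 2 - 2 * a * QQ ha x ≤ (inner ℂ y (W ha x)).re + (inner ℂ x (W ha y)).re := by
  have hW := (W ha).continuous
  have hid : Tendsto (fun h : ℝ => h) (𝓝[>] 0) (𝓝 0) := tendsto_nhdsWithin_of_tendsto_nhds tendsto_id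
  have t1 : Tendsto (fun h : ℝ => (inner ℂ (((h : ℂ)⁻¹) • (T h x - x)) (W ha x)).re +
      (inner ℂ x (W ha (((h : ℂ)⁻¹) • (T h x - x)))).re + h * QQ ha (((h : ℂ)⁻¹) • (T h x - x)))
      (𝓝[>] 0) (𝓝 ((inner ℂ y (W ha x)).re + (inner ℂ x (W ha y)).re + 0 * QQ ha y)) := by
    refine Tendsto.add (Tendsto.add ?_ ?_) ?_
    · exact (Complex.continuous_re.tendsto _).comp (hxy.inner tendsto_const_nhds)
    · exact (Complex.continuous_re.tendsto _).comp
        (tendsto_const_nhds.inner ((hW.tendsto _).comp hxy))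
    · exact hid.mul (((QQ_cont ha).tendsto _).comp hxy)
  have t2 : Tendsto (fun h : ℝ => (a / 2) * ‖x‖ ^ 2 - 2 * a * QQ ha x - (2 * a ^ 2 + a) * h * ‖x‖ ^ 2)
      (𝓝[>] 0) (𝓝 ((a / 2) * ‖x‖ ^ 2 - 2 * a * QQ ha x - (2 * a ^ 2 + a) * 0 * ‖x‖ ^ 2)) := by
    refine Tendsto.sub tendsto_const_nhds ?_
    exact (hid.const_mul _).mul_const _
  have h3 := le_of_tendsto_of_tendsto t2 t1 (by
    have h4 : Set.Ioo (0 : ℝ) (1 / (2 * a)) ∈ 𝓝[>] (0 : ℝ) := Ioo_mem_nhdsGT (by positivity)
    filter_upwards [h4] with h hh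
    obtain ⟨hh0, hh1⟩ := hh
    have h5 : a * h ≤ 1 / 2 := by
      rw [lt_div_iff₀ (by positivity)] at hh1
      linarith
    have h6 := quadH ha hh0 h5 x
    set d := ((h : ℂ)⁻¹) • (T h x - x) with hd
    have hne : (h : ℂ) ≠ 0 := by
      exact_mod_cast hh0.ne'
    have h7 : T h x = x + (h : ℂ) • d := by
      rw [hd, smul_smul, mul_inv_cancel₀ hne, one_smul]
      abel
    rw [h7, QQ_expand] at h6
    have h8 : h * ((a / 2) * ‖x‖ ^ 2 - 2 * a * QQ ha x - (2 * a ^ 2 + a) * h * ‖x‖ ^ 2) ≤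
        h * ((inner ℂ d (W ha x)).re + (inner ℂ x (W ha d)).re + h * QQ ha d) := by
      nlinarith
    exact le_of_mul_le_mul_left h8 hh0)
  linarith

lemma cond_one (x y : HH)
    (hxy : Tendsto (fun h : ℝ => ((h : ℂ)⁻¹) • (T h x - x)) (𝓝[>] 0) (𝓝 y))
    (μ : ℂ) (hμ : μ.re < 0) : 1 / 4 * |μ.re| * ‖x‖ ≤ ‖μ • x - y‖ := by
  set a := -μ.re with hadef
  have ha : 0 < a := by
    rw [hadef]
    linarith
  have h1 := gen_ineq ha x y hxy
  set g := μ • x - y with hg
  have hy : y = μ • x - g := by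
    rw [hg]
    abel
  have h2 : (inner ℂ y (W ha x)).re + (inner ℂ x (W ha y)).re =
      - 2 * a * QQ ha x - ((inner ℂ g (W ha x)).re + (inner ℂ x (W ha g)).re) := by
    unfold QQ
    rw [hy, map_sub, map_smul, inner_sub_left, inner_sub_right, inner_smul_left, inner_smul_right]
    simp only [Complex.sub_re, Complex.mul_re, Complex.conj_re, Complex.conj_im]
    have h0 : μ.re = -a := by
      rw [hadef]
      ring
    rw [h0]
    ring
  rw [h2] at h1
  have h3 : |(inner ℂ g (W ha x)).re| ≤ ‖g‖ * ‖x‖ := by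
    refine (Complex.abs_re_le_norm _).trans ((norm_inner_le_norm _ _).trans ?_)
    exact mul_le_mul_of_nonneg_left (W_norm ha x) (norm_nonneg _)
  have h4 : |(inner ℂ x (W ha g)).re| ≤ ‖x‖ * ‖g‖ := by
    refine (Complex.abs_re_le_norm _).trans ((norm_inner_le_norm _ _).trans ?_)
    exact mul_le_mul_of_nonneg_left (W_norm ha g) (norm_nonneg _)
  have h5 := (abs_le.1 h3).1
  have h6 := (abs_le.1 h4).1
  have h7 : |μ.re| = a := by
    rw [abs_of_neg hμ]
  rw [h7]
  rcases (norm_nonneg x).eq_or_lt with h8 | h8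
  · rw [← h8]
    simp
  · have h9 : (1 / 4 * a * ‖x‖) * ‖x‖ ≤ ‖g‖ * ‖x‖ := by nlinarith
    exact le_of_mul_le_mul_right h9 h8

/-- a test function -/
def f0 : DD := (⟨fun x => ((max 0 (x * (1 - x)) : ℝ) : ℂ), by
  refine ⟨by fun_prop, ?_, ?_⟩
  · apply HasCompactSupport.intro (K := Set.Icc 0 1) isCompact_Icc
    intro x hx
    have h1 : x * (1 - x) ≤ 0 := by
      by_contra hne
      push Not at hne
      apply hx
      constructor
      · by_contra h0
        push Not at h0
        nlinarith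
      · by_contra h0
        push Not at h0
        nlinarith
    change ((max 0 (x * (1 - x)) : ℝ) : ℂ) = 0
    rw [max_eq_left h1]
    simp
  · intro x hx
    have h1 : x * (1 - x) ≤ 0 := by nlinarith
    change ((max 0 (x * (1 - x)) : ℝ) : ℂ) = 0
    rw [max_eq_left h1]
    simp⟩ : DS)

lemma f0_fn (x : ℝ) : fn f0 x = ((max 0 (x * (1 - x)) : ℝ) : ℂ) := rfl

lemma f0_pos : 0 < ‖f0‖ ^ 2 := by
  rw [norm_sq]
  apply (integral_pos_iff_support_of_nonneg (fun x => mul_nonneg (by positivity) (rho_pos x).le)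
    (int_sq f0 rho_cont)).2
  have h1 : Set.Ioo (0 : ℝ) 1 ⊆ Function.support (fun x => ‖fn f0 x‖ ^ 2 * rho x) := by
    intro x hx
    obtain ⟨hx0, hx1⟩ := hx
    rw [Function.mem_support, f0_fn]
    have h2 : 0 < x * (1 - x) := by
      have : 0 < 1 - x := by linarith
      positivity
    rw [max_eq_right h2.le, Complex.norm_real, Real.norm_eq_abs]
    have h3 := rho_pos x
    positivity
  refine lt_of_lt_of_le ?_ (measure_mono h1)
  simp

lemma f0_decay {t : ℝ} (ht : 0 ≤ t) : ‖sh t f0‖ ^ 2 ≤ rho t * (Real.sqrt 2 * ‖f0‖ ^ 2) := by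
  rw [norm_sq, norm_sq]
  have h1 := shL_int t f0 rho
  rw [max_eq_left ht] at h1
  have h2 : ∫ x, ‖fn (sh t f0) x‖ ^ 2 * rho x = ∫ x, ‖fn (shL t f0) x‖ ^ 2 * rho x := rfl
  rw [h2, h1, ← integral_const_mul, ← integral_const_mul]
  have hr := rho_cont
  apply integral_mono (int_sq f0 (by fun_prop)) (((int_sq f0 hr).const_mul _).const_mul _)
  intro x
  simp only
  rcases le_total x 0 with hx | hx
  · rw [fn_neg f0 hx]
    simp
  · rcases le_total 1 x with hx1 | hx1
    · have h3 : fn f0 x = 0 := by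
        rw [f0_fn]
        have h4 : x * (1 - x) ≤ 0 := by nlinarith
        rw [max_eq_left h4]
        simp
      rw [h3]
      simp
    · have h3 : rho (x + t) ≤ rho t := rho_anti ht (by linarith)
      have h4 : 1 ≤ Real.sqrt 2 * rho x := by
        rw [rho_nonneg_eq hx, mul_one_div, le_div_iff₀ (Real.sqrt_pos.2 (by linarith)), one_mul]
        exact Real.sqrt_le_sqrt (by linarith)
      have h5 : 0 ≤ ‖fn f0 x‖ ^ 2 := by positivity
      have h6 := (rho_pos t).le
      calc ‖fn f0 x‖ ^ 2 * rho (x + t) ≤ ‖fn f0 x‖ ^ 2 * rho t := mul_le_mul_of_nonneg_left h3 h5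
        _ = rho t * (‖fn f0 x‖ ^ 2 * 1) := by ring
        _ ≤ rho t * (‖fn f0 x‖ ^ 2 * (Real.sqrt 2 * rho x)) :=
            mul_le_mul_of_nonneg_left (mul_le_mul_of_nonneg_left h4 h5) h6
        _ = rho t * (Real.sqrt 2 * (‖fn f0 x‖ ^ 2 * rho x)) := by ring

lemma no_lower : ¬ ∃ m₁ : ℝ, 0 < m₁ ∧ ∀ t : ℝ, 0 ≤ t → ∀ x : HH, m₁ * ‖x‖ ≤ ‖T t x‖ := by
  rintro ⟨m, hm, h⟩
  have key : ∀ t : ℝ, 0 ≤ t → m ^ 2 ≤ Real.sqrt 2 * rho t := by
    intro t ht
    have h1 := h t ht (f0 : HH)
    rw [T_coe, UniformSpace.Completion.norm_coe, UniformSpace.Completion.norm_coe] at h1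
    have h2 : (m * ‖f0‖) ^ 2 ≤ ‖sh t f0‖ ^ 2 := pow_le_pow_left₀ (by positivity) h1 2
    have h3 := f0_decay ht
    have h4 := f0_pos
    rw [mul_pow] at h2
    have h5 : m ^ 2 * ‖f0‖ ^ 2 ≤ (Real.sqrt 2 * rho t) * ‖f0‖ ^ 2 := by linarith
    exact le_of_mul_le_mul_right h5 h4
  have h1 := key (4 / m ^ 4) (by positivity)
  rw [rho_nonneg_eq (by positivity), mul_one_div, le_div_iff₀ (Real.sqrt_pos.2 (by positivity))] at h1
  have h2 : (m ^ 2 * Real.sqrt (1 + 4 / m ^ 4)) ^ 2 ≤ (Real.sqrt 2) ^ 2 :=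
    pow_le_pow_left₀ (by positivity) h1 2
  rw [mul_pow, Real.sq_sqrt (by positivity), Real.sq_sqrt (by norm_num)] at h2
  have h3 : (m ^ 2) ^ 2 * (1 + 4 / m ^ 4) = m ^ 4 + 4 := by
    field_simp
  rw [h3] at h2
  have h4 : 0 < m ^ 4 := by positivity
  linarith

end

/-- The negation of the preceding statement: Take a strongly continuous contraction semigroup on a complex Hilbert space with generator A, and some m>0 with ‖(μ−A)x‖ ≥ m∣Re μ∣‖x‖ for all x in D(A) and Re μ<0. Then some m₁>0 gives ‖T(t)x‖ ≥ m₁‖x‖ for all t≥0 and all x. -/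
theorem result :
    ¬ (∀ (H : Type) [NormedAddCommGroup H] [InnerProductSpace ℂ H] [CompleteSpace H]
      (T : ℝ → H →L[ℂ] H),
      T 0 = ContinuousLinearMap.id ℂ H →
      (∀ s t : ℝ, 0 ≤ s → 0 ≤ t → T (s + t) = (T s).comp (T t)) →
      (∀ x : H, ContinuousOn (fun t : ℝ => T t x) (Set.Ici 0)) →
      (∀ t : ℝ, 0 ≤ t → ‖T t‖ ≤ 1) →
      ∀ m : ℝ, 0 < m →
      (∀ x y : H,
        Filter.Tendsto (fun h : ℝ => ((h : ℂ)⁻¹) • (T h x - x))
          (nhdsWithin 0 (Set.Ioi 0)) (nhds y) →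
        ∀ μ : ℂ, μ.re < 0 → m * |μ.re| * ‖x‖ ≤ ‖μ • x - y‖) →
      ∃ m₁ : ℝ, 0 < m₁ ∧ ∀ t : ℝ, 0 ≤ t → ∀ x : H, m₁ * ‖x‖ ≤ ‖T t x‖) := by
  intro hall
  exact no_lower (hall HH T T_zero (fun s t hs ht => T_add hs ht) T_cont (fun t _ => T_norm t)
    (1 / 4) (by norm_num) cond_one)

end Pool.Agent.S03546
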