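import Pool.Statements.S03551
import Pool.Agent.Helper621.HIP.P_primA
import Pool.Agent.Helper621.HIP.P_primH

set_option autoImplicit false
open Pool Pool.MP_8b9602_an

namespace Pool.Agent.S03551

/-- The disc algebra and H^∞ (sup-norm spaces of holomorphic functions on the disc, continuous up to the boundary or bounded) are primary: if one is isomorphic to Y×Z, it is isomorphic to Y or to Z. -/
theorem result :
    (∀ X : Submodule ℂ (BoundedContinuousFunction (↥(Metric.closedBall (0:ℂ) 1)) ℂ),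
      (X : Set (BoundedContinuousFunction (↥(Metric.closedBall (0:ℂ) 1)) ℂ)) =
        {f : BoundedContinuousFunction (↥(Metric.closedBall (0:ℂ) 1)) ℂ | ∃ g : ℂ → ℂ,
          DifferentiableOn ℂ g (Metric.ball (0:ℂ) 1) ∧
          ∀ x : ↥(Metric.closedBall (0:ℂ) 1), f x = g (x : ℂ)} →
      ∀ (Y : Type) [NormedAddCommGroup Y] [NormedSpace ℂ Y]
        (Z : Type) [NormedAddCommGroup Z] [NormedSpace ℂ Z],
        Nonempty (X ≃L[ℂ] (Y × Z)) →
          Nonempty (X ≃L[ℂ] Y) ∨ Nonempty (X ≃L[ℂ] Z)) ∧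
    (∀ X : Submodule ℂ (BoundedContinuousFunction (↥(Metric.ball (0:ℂ) 1)) ℂ),
      (X : Set (BoundedContinuousFunction (↥(Metric.ball (0:ℂ) 1)) ℂ)) =
        {f : BoundedContinuousFunction (↥(Metric.ball (0:ℂ) 1)) ℂ | ∃ g : ℂ → ℂ,
          DifferentiableOn ℂ g (Metric.ball (0:ℂ) 1) ∧
          ∀ x : ↥(Metric.ball (0:ℂ) 1), f x = g (x : ℂ)} →
      ∀ (Y : Type) [NormedAddCommGroup Y] [NormedSpace ℂ Y]
        (Z : Type) [NormedAddCommGroup Z] [NormedSpace ℂ Z],
        Nonempty (X ≃L[ℂ] (Y × Z)) →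
          Nonempty (X ≃L[ℂ] Y) ∨ Nonempty (X ≃L[ℂ] Z)) := by
  constructor
  · intro X hX Y _ _ Z _ _ hYZ
    have hXD : X = Pool.Agent.Helper621.DAP.DA := by
      apply SetLike.coe_injective
      rw [hX]
      ext f
      constructor
      · rintro ⟨g, hg, h⟩
        exact ⟨g, hg, fun z => (h z).symm⟩
      · rintro ⟨g, hg, h⟩
        exact ⟨g, hg, fun z => (h z).symm⟩
    subst hXD
    obtain ⟨e⟩ := hYZ
    exact Pool.Agent.Helper621.DAP.primA Y Z e
  · intro X hX Y _ _ Z _ _ hYZ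
    have hXD : X = Pool.Agent.Helper621.DAP.HI := by
      apply SetLike.coe_injective
      rw [hX]
      ext f
      constructor
      · rintro ⟨g, hg, h⟩
        exact ⟨g, hg, fun z => h z⟩
      · rintro ⟨g, hg, h⟩
        exact ⟨g, hg, fun z => h z⟩
    subst hXD
    obtain ⟨e⟩ := hYZ
    exact Pool.Agent.Helper621.DAP.primH Y Z e

end Pool.Agent.S03551
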