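import Pool.Statements.S03554

set_option autoImplicit false
open Filter Topology
open Pool Pool.MP_8ba4a6_an

namespace Pool.Agent.S03554

/-- The plateau function: it equals 1 on [1/2, 2]. -/
noncomputable def G (x : ℝ) : ℝ := (1 + 36 * max 0 (1 / 2 - x)) / (1 + 27 / 10 * max 0 (x - 2))

lemma G_den_pos (x : ℝ) : 0 < 1 + 27 / 10 * max 0 (x - 2) := by
  have := le_max_left (0:ℝ) (x - 2)
  linarith

lemma G_num_pos (x : ℝ) : 0 < 1 + 36 * max 0 (1 / 2 - x) := by
  have := le_max_left (0:ℝ) (1 / 2 - x)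
  linarith

lemma G_pos (x : ℝ) : 0 < G x := div_pos (G_num_pos x) (G_den_pos x)

lemma G_anti : Antitone G := by
  intro a b hab
  unfold G
  apply div_le_div₀ (G_num_pos a).le _ (G_den_pos a) _
  · have : max 0 (1 / 2 - b) ≤ max 0 (1 / 2 - a) := max_le_max le_rfl (by linarith)
    linarith
  · have : max 0 (a - 2) ≤ max 0 (b - 2) := max_le_max le_rfl (by linarith)
    linarith

lemma G_cont : Continuous G := by
  unfold G
  apply Continuous.div
  · fun_prop
  · fun_prop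
  · intro x
    exact (G_den_pos x).ne'

lemma G_one {x : ℝ} (h1 : 1 / 2 ≤ x) (h2 : x ≤ 2) : G x = 1 := by
  unfold G
  rw [max_eq_left (by linarith), max_eq_left (by linarith)]
  norm_num

lemma G_four : G 4 = 5 / 32 := by
  unfold G
  rw [max_eq_left (by norm_num), max_eq_right (by norm_num)]
  norm_num

lemma G_quarter : G (1 / 4) = 10 := by
  unfold G
  rw [max_eq_right (by norm_num), max_eq_left (by norm_num)]
  norm_num

/-- The right-hand side function of the counterexample. -/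
noncomputable def f (x y : ℝ) : ℝ := 2 * G x / (x * (1 + y))

lemma step_eq {x y : ℝ} (hx : 0 < x) (hy : 0 < y) : x * f x y = 2 * G x / (1 + y) := by
  unfold f
  field_simp

lemma key {x : ℕ → ℝ} (h : ∀ n : ℕ, x (n + 2) = x (n + 1) * f (x (n + 1)) (x n))
    (hs : |x 0 - 1| + |x 1 - 1| ≤ 1 / 4) :
    ∀ n : ℕ, |x n - 1| ≤ 2 * (|x 0 - 1| + |x 1 - 1|) * (9 / 10) ^ n ∧
      |x (n + 1) - 1| ≤ 2 * (|x 0 - 1| + |x 1 - 1|) * (9 / 10) ^ (n + 1) := by
  intro n
  set C := |x 0 - 1| + |x 1 - 1| with hC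
  have h0 := abs_nonneg (x 0 - 1)
  have h1 := abs_nonneg (x 1 - 1)
  have hC0 : 0 ≤ C := by positivity
  induction n with
  | zero =>
    constructor
    · simp only [pow_zero, mul_one]; linarith
    · simp only [zero_add, pow_one]; linarith
  | succ n ih =>
    obtain ⟨ih1, ih2⟩ := ih
    refine ⟨ih2, ?_⟩
    have hp1 : ((9:ℝ) / 10) ^ n ≤ 1 := pow_le_one₀ (by norm_num) (by norm_num)
    have hp2 : ((9:ℝ) / 10) ^ (n + 1) ≤ 1 := pow_le_one₀ (by norm_num) (by norm_num)
    have hp0 : 0 < ((9:ℝ) / 10) ^ n := by positivity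
    have hb1 : |x n - 1| ≤ 1 / 2 := by
      calc |x n - 1| ≤ 2 * C * (9 / 10) ^ n := ih1
        _ ≤ 2 * C * 1 := by gcongr
        _ ≤ 1 / 2 := by linarith
    have hb2 : |x (n + 1) - 1| ≤ 1 / 2 := by
      calc |x (n + 1) - 1| ≤ 2 * C * (9 / 10) ^ (n + 1) := ih2
        _ ≤ 2 * C * 1 := by gcongr
        _ ≤ 1 / 2 := by linarith
    rw [abs_le] at hb1 hb2
    have hxn : 0 < x n := by linarith [hb1.1]
    have hxn1 : 0 < x (n + 1) := by linarith [hb2.1]
    have e : x (n + 2) = 2 / (1 + x n) := by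
      rw [h n, step_eq hxn1 hxn, G_one (by linarith [hb2.1]) (by linarith [hb2.2])]
      norm_num
    have e2 : x (n + 2) - 1 = -(x n - 1) / (1 + x n) := by
      rw [e]
      field_simp
      ring
    rw [show n + 1 + 1 = n + 2 from rfl, e2, abs_div, abs_neg, abs_of_pos (by linarith : (0:ℝ) < 1 + x n),
      div_le_iff₀ (by linarith)]
    have h3 : (3:ℝ) / 2 ≤ 1 + x n := by linarith [hb1.1]
    have : 2 * C * (9 / 10) ^ (n + 2) * (3 / 2) ≤ 2 * C * (9 / 10) ^ (n + 2) * (1 + x n) := by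
      gcongr
    calc |x n - 1| ≤ 2 * C * (9 / 10) ^ n := ih1
      _ ≤ 2 * C * (9 / 10) ^ (n + 2) * (3 / 2) := by
        rw [pow_add]
        have : 0 ≤ 2 * C * (9 / 10 : ℝ) ^ n := by positivity
        nlinarith
      _ ≤ _ := this

lemma fdiag_anti {x₁ x₂ : ℝ} (h1 : 0 < x₁) (h12 : x₁ < x₂) : x₂ * f x₂ x₂ < x₁ * f x₁ x₁ := by
  have h2 : 0 < x₂ := h1.trans h12
  rw [step_eq h2 h2, step_eq h1 h1]
  have g1 := G_pos x₁
  have g2 := G_anti h12.le
  calc 2 * G x₂ / (1 + x₂) ≤ 2 * G x₁ / (1 + x₂) := by gcongr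
    _ < 2 * G x₁ / (1 + x₁) := by gcongr

/-- The period two orbit. -/
noncomputable def orb (n : ℕ) : ℝ := if n % 2 = 0 then 4 else 1 / 4

lemma orb_even (n : ℕ) : orb (2 * n) = 4 := by
  unfold orb; simp

/-- The negation of the preceding statement: If f>0 is continuous on the positive quadrant, nonincreasing in x, strictly decreasing in y, x·f(x,x) strictly decreasing, and the unique positive equilibrium of x_{n+1}=x_n f(x_n,x_{n-1}) is locally asymptotically stable, then every positive solution converges to it. -/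
theorem result :
    ¬ (∀ (f : ℝ → ℝ → ℝ) (xbar : ℝ),
      ContinuousOn (fun p : ℝ × ℝ => f p.1 p.2) (Set.Ioi (0:ℝ) ×ˢ Set.Ioi (0:ℝ)) →
      (∀ x y : ℝ, 0 < x → 0 < y → 0 < f x y) →
      (∀ x₁ x₂ y : ℝ, 0 < x₁ → x₁ ≤ x₂ → 0 < y → f x₂ y ≤ f x₁ y) →
      (∀ x y₁ y₂ : ℝ, 0 < x → 0 < y₁ → y₁ < y₂ → f x y₂ < f x y₁) →
      (∀ x₁ x₂ : ℝ, 0 < x₁ → x₁ < x₂ → x₂ * f x₂ x₂ < x₁ * f x₁ x₁) →
      0 < xbar →
      f xbar xbar = 1 →
      (∀ y : ℝ, 0 < y → f y y = 1 → y = xbar) →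
      (∀ ε : ℝ, 0 < ε → ∃ δ : ℝ, 0 < δ ∧
        ∀ x : ℕ → ℝ, 0 < x 0 → 0 < x 1 →
          (∀ n : ℕ, x (n + 2) = x (n + 1) * f (x (n + 1)) (x n)) →
          |x 0 - xbar| + |x 1 - xbar| < δ →
          ∀ n : ℕ, |x n - xbar| < ε) →
      (∃ γ : ℝ, 0 < γ ∧
        ∀ x : ℕ → ℝ, 0 < x 0 → 0 < x 1 →
          (∀ n : ℕ, x (n + 2) = x (n + 1) * f (x (n + 1)) (x n)) →
          |x 0 - xbar| + |x 1 - xbar| < γ →
          Tendsto x atTop (𝓝 xbar)) →
      ∀ x : ℕ → ℝ, 0 < x 0 → 0 < x 1 →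
        (∀ n : ℕ, x (n + 2) = x (n + 1) * f (x (n + 1)) (x n)) →
        Tendsto x atTop (𝓝 xbar)) := by
  intro H
  have hT := H f 1 ?_ ?_ ?_ ?_ ?_ one_pos ?_ ?_ ?_ ?_ orb ?_ ?_ ?_
  · -- contradiction
    have h1 : Tendsto (fun n : ℕ => orb (2 * n)) atTop (𝓝 1) :=
      hT.comp (tendsto_id.const_mul_atTop' (by norm_num))
    have h2 : Tendsto (fun n : ℕ => orb (2 * n)) atTop (𝓝 4) := by
      simp only [orb_even]
      exact tendsto_const_nhds
    have := tendsto_nhds_unique h1 h2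
    norm_num at this
  · -- continuity
    unfold f
    apply ContinuousOn.div
    · exact (continuous_const.mul (G_cont.comp continuous_fst)).continuousOn
    · fun_prop
    · rintro ⟨a, b⟩ ⟨ha, hb⟩
      simp only [Set.mem_Ioi] at ha hb
      positivity
  · intro x y hx hy
    unfold f
    have := G_pos x
    positivity
  · intro x₁ x₂ y h1 h12 hy
    unfold f
    have h2 : 0 < x₂ := h1.trans_le h12
    have g1 := G_pos x₁
    have g2 := G_anti h12
    calc 2 * G x₂ / (x₂ * (1 + y)) ≤ 2 * G x₁ / (x₂ * (1 + y)) := by gcongr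
      _ ≤ 2 * G x₁ / (x₁ * (1 + y)) := by gcongr
  · intro x y₁ y₂ hx h1 h12
    unfold f
    have g1 := G_pos x
    have h2 : 0 < y₂ := h1.trans h12
    gcongr
  · intro x₁ x₂ h1 h12
    exact fdiag_anti h1 h12
  · unfold f
    rw [G_one (by norm_num) (by norm_num)]
    norm_num
  · intro y hy hfy
    by_contra hne
    have h11 : (1:ℝ) * f 1 1 = 1 := by
      unfold f
      rw [G_one (by norm_num) (by norm_num)]
      norm_num
    rcases lt_or_gt_of_ne hne with h | h
    · have := fdiag_anti hy h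
      rw [h11, hfy] at this
      linarith
    · have := fdiag_anti one_pos h
      rw [h11, hfy] at this
      linarith
  · intro ε hε
    refine ⟨min (ε / 2) (1 / 4), by positivity, ?_⟩
    intro x _ _ hx hs n
    have hs1 : |x 0 - 1| + |x 1 - 1| < ε / 2 := hs.trans_le (min_le_left _ _)
    have hs2 : |x 0 - 1| + |x 1 - 1| < 1 / 4 := hs.trans_le (min_le_right _ _)
    have := (key hx hs2.le n).1
    have hp1 : ((9:ℝ) / 10) ^ n ≤ 1 := pow_le_one₀ (by norm_num) (by norm_num)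
    calc |x n - 1| ≤ 2 * (|x 0 - 1| + |x 1 - 1|) * (9 / 10) ^ n := this
      _ ≤ 2 * (|x 0 - 1| + |x 1 - 1|) * 1 := by gcongr
      _ < ε := by linarith
  · refine ⟨1 / 4, by norm_num, ?_⟩
    intro x _ _ hx hs
    rw [tendsto_iff_norm_sub_tendsto_zero]
    have hg : Tendsto (fun n : ℕ => 2 * (|x 0 - 1| + |x 1 - 1|) * (9 / 10 : ℝ) ^ n) atTop (𝓝 0) := by
      have := (tendsto_pow_atTop_nhds_zero_of_lt_one (r := (9:ℝ) / 10) (by norm_num) (by norm_num)).const_mul
        (2 * (|x 0 - 1| + |x 1 - 1|))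
      simpa using this
    exact squeeze_zero (fun n => norm_nonneg _) (fun n => (key hx hs.le n).1) hg
  · unfold orb; norm_num
  · unfold orb; norm_num
  · intro n
    have hx : ∀ m, 0 < orb m := by
      intro m; unfold orb; split_ifs <;> norm_num
    rw [step_eq (hx _) (hx _)]
    rcases Nat.even_or_odd' n with ⟨k, rfl | rfl⟩
    · have e1 : orb (2 * k) = 4 := orb_even k
      have e2 : orb (2 * k + 1) = 1 / 4 := by
        unfold orb; rw [if_neg (by omega)]
      have e3 : orb (2 * k + 2) = 4 := orb_even (k + 1)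
      rw [e1, e2, e3, G_quarter]; norm_num
    · have e1 : orb (2 * k + 1) = 1 / 4 := by
        unfold orb; rw [if_neg (by omega)]
      have e2 : orb (2 * k + 1 + 1) = 4 := orb_even (k + 1)
      have e3 : orb (2 * k + 1 + 2) = 1 / 4 := by
        unfold orb; rw [if_neg (by omega)]
      rw [e1, e2, e3, G_four]; norm_num

end Pool.Agent.S03554
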