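import Pool.Statements.S03567
import Pool.Agent.Helper139.SI10

set_option autoImplicit false
open Pool Pool.MP_8cf91f_an

namespace Pool.Agent.S03567

/-- Every surjective unital complex-linear map between unital C*-algebras that preserves the spectral radius of every element is injective and maps squares to squares, i.e. is a Jordan isomorphism. -/
theorem result :
    ∀ (A B : Type) [CStarAlgebra A] [CStarAlgebra B] (T : A →ₗ[ℂ] B),
      Function.Surjective T → T 1 = 1 →
      (∀ a : A, spectralRadius ℂ (T a) = spectralRadius ℂ a) →
      Function.Injective T ∧ ∀ a : A, T (a * a) = T a * T a := by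
  intro A B _ _ T hsurj hone hsr
  exact Pool.Agent.Helper139.SI.spectral_isometry T hsurj hone hsr

end Pool.Agent.S03567
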