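import Pool.Statements.S03577
import Pool.Agent.Helper53.DbwModel

set_option autoImplicit false
open Pool Pool.MP_8e34e8_an

namespace Pool.Agent.S03577

/-- There is a complete normed algebra of continuous functions on a compact Hausdorff space, separating points, that is not amenable, yet every bounded 2-cocycle into every dual Banach bimodule is a coboundary. -/
theorem result :
  ∃ (K : Type) (hK : TopologicalSpace K) (hKc : CompactSpace K) (hKt : T2Space K)
    (A : Type) (hA : NormedCommRing A) (hAa : NormedAlgebra ℂ A) (hAc : CompleteSpace A)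
    (φ : A →ₐ[ℂ] C(K, ℂ)),
    Function.Injective φ ∧
    (∀ x y : K, x ≠ y → ∃ a : A, φ a x ≠ φ a y) ∧
    (∃ (E : Type) (hE : NormedAddCommGroup E) (hEs : NormedSpace ℂ E) (hEc : CompleteSpace E)
       (L R : A →L[ℂ] E →L[ℂ] E),
       (∀ a b : A, L (a * b) = (L a).comp (L b)) ∧
       (∀ a b : A, R (a * b) = (R b).comp (R a)) ∧
       (∀ a b : A, (L a).comp (R b) = (R b).comp (L a)) ∧
       ∃ D : A →L[ℂ] (E →L[ℂ] ℂ),
         (∀ (a b : A) (x : E), D (a * b) x = D b (R a x) + D a (L b x)) ∧
         ¬ ∃ f : E →L[ℂ] ℂ, ∀ (a : A) (x : E), D a x = f (R a x) - f (L a x)) ∧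
    (∀ (E : Type) [NormedAddCommGroup E] [NormedSpace ℂ E] [CompleteSpace E]
       (L R : A →L[ℂ] E →L[ℂ] E),
       (∀ a b : A, L (a * b) = (L a).comp (L b)) →
       (∀ a b : A, R (a * b) = (R b).comp (R a)) →
       (∀ a b : A, (L a).comp (R b) = (R b).comp (L a)) →
       ∀ T : A →L[ℂ] A →L[ℂ] (E →L[ℂ] ℂ),
         (∀ (a b c : A) (x : E),
            T b c (R a x) - T (a * b) c x + T a (b * c) x - T a b (L c x) = 0) →
         ∃ S : A →L[ℂ] (E →L[ℂ] ℂ), ∀ (a b : A) (x : E),
            T a b x = S b (R a x) - S (a * b) x + S a (L b x)) := by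
  refine ⟨Agent.Helper53.DbwModel.Kspace, inferInstance, inferInstance, inferInstance,
    Agent.Helper53.DbwModel.Alg, inferInstance, inferInstance, inferInstance,
    Agent.Helper53.DbwModel.gelHom, Agent.Helper53.DbwModel.gelHom_injective,
    Agent.Helper53.DbwModel.separates, ?_, ?_⟩
  · refine ⟨Agent.Helper53.DbwModel.CX, inferInstance, inferInstance, inferInstance,
      Agent.Helper53.DbwModel.actL, Agent.Helper53.DbwModel.actR, ?_, ?_, ?_,
      Agent.Helper53.DbwModel.der, Agent.Helper53.DbwModel.der_mul,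
      Agent.Helper53.DbwModel.der_not_inner⟩
    · intro a b
      ext x : 1
      show (a * b).g * x = a.g * (b.g * x)
      rw [Agent.Helper53.DbwModel.Alg.g_mul, mul_assoc]
    · intro a b
      ext x : 1
      show Agent.Helper53.DbwModel.hmap (a * b) * x
        = Agent.Helper53.DbwModel.hmap b * (Agent.Helper53.DbwModel.hmap a * x)
      rw [Agent.Helper53.DbwModel.hmap_mul, mul_assoc, mul_left_comm]
    · intro a b
      ext x : 1
      show a.g * (Agent.Helper53.DbwModel.hmap b * x)
        = Agent.Helper53.DbwModel.hmap b * (a.g * x)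
      rw [mul_left_comm]
  · intro E _ _ _ L R hL hR hLR T hT
    exact Agent.Helper53.DbwModel.exists_primitive L R T hL hR hLR hT

end Pool.Agent.S03577
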