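import Pool.Statements.S03586
-- import your own Pool.Agent.* helpers here

set_option autoImplicit false
open Pool Pool.MP_90924b_an

namespace Pool.Agent.S03586

/-- The point whose hyperplane is the complex line `z 1 = l * (1 - z 0)`. -/
noncomputable def pt (l : ℂ) : EuclideanSpace ℂ (Fin 2) :=
  WithLp.toLp 2 ![((‖l‖ ^ 2 / (1 + ‖l‖ ^ 2) : ℝ) : ℂ), l / ((1 + ‖l‖ ^ 2 : ℝ) : ℂ)]

lemma pt_zero (l : ℂ) : pt l 0 = ((‖l‖ ^ 2 / (1 + ‖l‖ ^ 2) : ℝ) : ℂ) := rfl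

lemma pt_one (l : ℂ) : pt l 1 = l / ((1 + ‖l‖ ^ 2 : ℝ) : ℂ) := rfl

lemma norm_pt_sq (l : ℂ) : ‖pt l‖ ^ 2 = ‖l‖ ^ 2 / (1 + ‖l‖ ^ 2) := by
  rw [EuclideanSpace.norm_sq_eq, Fin.sum_univ_two, pt_zero, pt_one, norm_div,
    Complex.norm_real, Complex.norm_real, Real.norm_eq_abs, Real.norm_eq_abs, sq_abs,
    abs_of_pos (by positivity : (0 : ℝ) < 1 + ‖l‖ ^ 2)]
  have h : (1 : ℝ) + ‖l‖ ^ 2 ≠ 0 := by positivity
  field_simp
  ring

lemma norm_pt_lt (l : ℂ) : ‖pt l‖ < 1 := by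
  have h1 : ‖pt l‖ ^ 2 < 1 := by
    rw [norm_pt_sq, div_lt_one (by positivity)]
    linarith
  have h2 := norm_nonneg (pt l)
  nlinarith

lemma ball_facts (z : EuclideanSpace ℂ (Fin 2)) (hz : z ∈ Metric.ball 0 1) :
    ‖z 0‖ ^ 2 + ‖z 1‖ ^ 2 < 1 := by
  rw [mem_ball_zero_iff] at hz
  have h1 : ‖z‖ ^ 2 = ‖z 0‖ ^ 2 + ‖z 1‖ ^ 2 := by
    rw [EuclideanSpace.norm_sq_eq, Fin.sum_univ_two]
  rw [← h1]
  have := norm_nonneg z
  nlinarith

lemma one_sub_ne (z : EuclideanSpace ℂ (Fin 2)) (hz : z ∈ Metric.ball 0 1) : 1 - z 0 ≠ 0 := by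
  intro h
  have h1 : z 0 = 1 := by
    linear_combination -h
  have h2 := ball_facts z hz
  rw [h1] at h2
  simp at h2
  have := sq_nonneg ‖z 1‖
  linarith

/-- Incidence of a point of the ball with the hyperplane of `pt l`. -/
lemma inner_pt (l : ℂ) (hl : l ≠ 0) (z : EuclideanSpace ℂ (Fin 2)) :
    inner ℂ (pt l) z = (((‖pt l‖ ^ 2 : ℝ)) : ℂ) ↔ z 1 = l * (1 - z 0) := by
  have h1 : inner ℂ (pt l) z = ((‖l‖ ^ 2 / (1 + ‖l‖ ^ 2) : ℝ) : ℂ) * z 0
      + (starRingEnd ℂ) l / ((1 + ‖l‖ ^ 2 : ℝ) : ℂ) * z 1 := by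
    rw [PiLp.inner_apply, Fin.sum_univ_two, pt_zero, pt_one]
    simp only [RCLike.inner_apply, map_div₀, Complex.conj_ofReal]
    ring
  have hs : ((1 + ‖l‖ ^ 2 : ℝ) : ℂ) ≠ 0 := by
    have : (1 + ‖l‖ ^ 2 : ℝ) ≠ 0 := by positivity
    exact_mod_cast this
  have hc : (starRingEnd ℂ) l * l = ((‖l‖ ^ 2 : ℝ) : ℂ) := by
    rw [mul_comm, Complex.mul_conj, Complex.normSq_eq_norm_sq]
  have hl' : (starRingEnd ℂ) l ≠ 0 := by
    rw [map_ne_zero]
    exact hl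
  rw [h1, norm_pt_sq]
  have e1 : ((‖l‖ ^ 2 / (1 + ‖l‖ ^ 2) : ℝ) : ℂ)
      = ((starRingEnd ℂ) l * l) / ((1 + ‖l‖ ^ 2 : ℝ) : ℂ) := by
    rw [hc]; push_cast; ring
  rw [e1]
  constructor
  · intro h
    have h2 : (starRingEnd ℂ) l * (l * z 0 + z 1) = (starRingEnd ℂ) l * l := by
      field_simp at h
      linear_combination (starRingEnd ℂ) l * h
    have h3 := mul_left_cancel₀ hl' h2
    linear_combination h3
  · intro h
    rw [h]
    field_simp
    ring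

lemma norm_cos_le (w : ℂ) : ‖Complex.cos w‖ ≤ Real.exp ‖w‖ := by
  rw [Complex.cos, norm_div]
  have h1 : ‖Complex.exp (w * Complex.I)‖ ≤ Real.exp ‖w‖ := by
    rw [Complex.norm_exp]
    apply Real.exp_le_exp.mpr
    have := Complex.abs_im_le_norm w
    have h2 : (w * Complex.I).re = - w.im := by simp
    rw [h2]
    exact le_trans (neg_le_abs _) this
  have h2 : ‖Complex.exp (-w * Complex.I)‖ ≤ Real.exp ‖w‖ := by
    rw [Complex.norm_exp]
    apply Real.exp_le_exp.mpr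
    have := Complex.abs_im_le_norm w
    have h2 : (-w * Complex.I).re = w.im := by simp
    rw [h2]
    exact le_trans (le_abs_self _) this
  have h3 := norm_add_le (Complex.exp (w * Complex.I)) (Complex.exp (-w * Complex.I))
  have h4 : ‖(2 : ℂ)‖ = 2 := by simp
  rw [h4, div_le_iff₀ (by norm_num)]
  linarith

/-- The bounded holomorphic function. -/
noncomputable def f (z : EuclideanSpace ℂ (Fin 2)) : ℂ :=
  Complex.cos ((z 1 / (1 - z 0)) ^ 2) * Complex.exp (-2 / (1 - z 0))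

lemma f_bound (z : EuclideanSpace ℂ (Fin 2)) (hz : z ∈ Metric.ball 0 1) : ‖f z‖ ≤ 1 := by
  have hb := ball_facts z hz
  have hu := one_sub_ne z hz
  set u : ℂ := 1 - z 0 with hudef
  have hu0 : 0 < ‖u‖ ^ 2 := by positivity
  have h1 : ‖z 0‖ ^ 2 = 1 - 2 * u.re + ‖u‖ ^ 2 := by
    have : z 0 = 1 - u := by rw [hudef]; ring
    rw [this, ← Complex.normSq_eq_norm_sq, ← Complex.normSq_eq_norm_sq, Complex.normSq_apply,
      Complex.normSq_apply]
    simp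
    ring
  have h2 : ‖(z 1 / u) ^ 2‖ ≤ 2 * (u.re / ‖u‖ ^ 2) - 1 := by
    rw [norm_pow, norm_div, div_pow]
    have : ‖z 1‖ ^ 2 ≤ 2 * u.re - ‖u‖ ^ 2 := by linarith
    calc ‖z 1‖ ^ 2 / ‖u‖ ^ 2 ≤ (2 * u.re - ‖u‖ ^ 2) / ‖u‖ ^ 2 := by gcongr
      _ = 2 * (u.re / ‖u‖ ^ 2) - 1 := by field_simp
  have h3 : (-2 / u).re = -2 * (u.re / ‖u‖ ^ 2) := by
    rw [← Complex.normSq_eq_norm_sq, Complex.div_re]
    simp
    ring
  have h4 : ‖Complex.exp (-2 / u)‖ = Real.exp (-2 * (u.re / ‖u‖ ^ 2)) := by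
    rw [Complex.norm_exp, h3]
  have h5 := norm_cos_le ((z 1 / u) ^ 2)
  unfold f
  rw [norm_mul, ← hudef, h4]
  calc ‖Complex.cos ((z 1 / u) ^ 2)‖ * Real.exp (-2 * (u.re / ‖u‖ ^ 2))
      ≤ Real.exp ‖(z 1 / u) ^ 2‖ * Real.exp (-2 * (u.re / ‖u‖ ^ 2)) := by gcongr
    _ = Real.exp (‖(z 1 / u) ^ 2‖ + -2 * (u.re / ‖u‖ ^ 2)) := by rw [Real.exp_add]
    _ ≤ Real.exp 0 := by
        apply Real.exp_le_exp.mpr
        linarith
    _ = 1 := Real.exp_zero

lemma f_diff : DifferentiableOn ℂ f (Metric.ball 0 1) := by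
  intro z hz
  have hu := one_sub_ne z hz
  apply DifferentiableAt.differentiableWithinAt
  unfold f
  have h0 : DifferentiableAt ℂ (fun z : EuclideanSpace ℂ (Fin 2) => z 0) z := by fun_prop
  have h1 : DifferentiableAt ℂ (fun z : EuclideanSpace ℂ (Fin 2) => z 1) z := by fun_prop
  have h2 : DifferentiableAt ℂ (fun z : EuclideanSpace ℂ (Fin 2) => 1 - z 0) z := by fun_prop
  have h3 : DifferentiableAt ℂ (fun z : EuclideanSpace ℂ (Fin 2) => z 1 / (1 - z 0)) z := by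
    fun_prop (disch := exact hu)
  have h4 : DifferentiableAt ℂ (fun z : EuclideanSpace ℂ (Fin 2) => -2 / (1 - z 0)) z := by
    fun_prop (disch := exact hu)
  exact (h3.pow 2).ccos.mul h4.cexp

/-- The slopes. -/
def Z : Set ℂ := {l | Complex.cos (l ^ 2) = 0}

lemma Z_ne_zero (l : ℂ) (hl : l ∈ Z) : l ≠ 0 := by
  rintro rfl
  simp [Z] at hl

lemma Z_norm (l : ℂ) (hl : l ∈ Z) : 1 ≤ ‖l‖ ^ 2 := by
  obtain ⟨k, hk⟩ := Complex.cos_eq_zero_iff.mp hl
  have h1 : ‖l‖ ^ 2 = |(2 * (k : ℝ) + 1)| * Real.pi / 2 := by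
    rw [← norm_pow, hk]
    have : ((2 * (k : ℂ) + 1) * (Real.pi : ℂ) / 2) = (((2 * (k : ℝ) + 1) * Real.pi / 2 : ℝ) : ℂ) := by
      push_cast; ring
    rw [this, Complex.norm_real, Real.norm_eq_abs, abs_div, abs_mul, abs_of_pos Real.pi_pos]
    norm_num
  have h2 : (1 : ℝ) ≤ |(2 * (k : ℝ) + 1)| := by
    have h3 : (2 * k + 1 : ℤ) ≠ 0 := by omega
    have h4 : (1 : ℤ) ≤ |2 * k + 1| := Int.one_le_abs h3
    have h5 : ((1 : ℤ) : ℝ) ≤ ((|2 * k + 1| : ℤ) : ℝ) := by exact_mod_cast h4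
    push_cast at h5
    exact h5
  rw [h1]
  have := Real.pi_gt_three
  nlinarith

lemma Z_countable : Z.Countable := by
  have h1 : Z ⊆ ⋃ k : ℤ, {l : ℂ | l ^ 2 = (2 * (k : ℂ) + 1) * Real.pi / 2} := by
    intro l hl
    obtain ⟨k, hk⟩ := Complex.cos_eq_zero_iff.mp hl
    exact Set.mem_iUnion.mpr ⟨k, hk⟩
  refine Set.Countable.mono h1 (Set.countable_iUnion fun k => ?_)
  apply Set.Finite.countable
  have h2 : ∀ c : ℂ, {l : ℂ | l ^ 2 = c}.Finite := by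
    intro c
    by_cases h : ∃ l : ℂ, l ^ 2 = c
    · obtain ⟨l0, h0⟩ := h
      refine Set.Finite.subset (Set.toFinite {l0, -l0}) ?_
      intro l hl
      have : l ^ 2 = l0 ^ 2 := by rw [h0]; exact hl
      rcases sq_eq_sq_iff_eq_or_eq_neg.mp this with h | h
      · left; exact h
      · right; exact h
    · convert Set.finite_empty
      ext l
      simp only [Set.mem_empty_iff_false, iff_false]
      intro hl
      exact h ⟨l, hl⟩
  exact h2 _

/-- The negation of the preceding statement: For a countable set A in the unit ball of C^N lying in a (rho,c,q)-wedge, if the union of hyperplanes {(z,a)=∣a∣^2}, a in A, is the zero set of a nonzero bounded holomorphic function on the ball, then the sum of 1-∣a∣^2 over A is finite. -/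
theorem result :
    ¬ (∀ (N : ℕ) (ρ q c : ℝ), 0 < ρ → ρ < 1 → 0 < q → q < 1 → 0 < c →
    ∀ (e₀ : EuclideanSpace ℂ (Fin N)), ‖e₀‖ = 1 →
    ∀ (A : Set (EuclideanSpace ℂ (Fin N))), A.Countable → A ⊆ Metric.ball 0 1 →
    (∀ a ∈ A, ‖a‖ < ρ ∨
      (|(1 - inner ℂ e₀ a).im| ≤ c * (1 - inner ℂ e₀ a).re ∧
        ‖a‖ ^ 2 - ‖inner ℂ e₀ a‖ ^ 2 ≤ q * (1 - ‖inner ℂ e₀ a‖ ^ 2) ∧
        (1 - inner ℂ e₀ a).re ≤ 1 / (c ^ 2 + 1))) →
    (∃ f : EuclideanSpace ℂ (Fin N) → ℂ,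
      DifferentiableOn ℂ f (Metric.ball 0 1) ∧
      (∃ M : ℝ, ∀ z ∈ Metric.ball (0 : EuclideanSpace ℂ (Fin N)) 1, ‖f z‖ ≤ M) ∧
      (∃ z ∈ Metric.ball (0 : EuclideanSpace ℂ (Fin N)) 1, f z ≠ 0) ∧
      {z | z ∈ Metric.ball (0 : EuclideanSpace ℂ (Fin N)) 1 ∧ f z = 0} =
        {z | z ∈ Metric.ball (0 : EuclideanSpace ℂ (Fin N)) 1 ∧
          ∃ a ∈ A, inner ℂ a z = (((‖a‖ ^ 2 : ℝ)) : ℂ)}) →
    Summable (fun a : A => 1 - ‖(a : EuclideanSpace ℂ (Fin N))‖ ^ 2)) := by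
  intro H
  let e₀ : EuclideanSpace ℂ (Fin 2) := EuclideanSpace.single 0 1
  have he₀ : ‖e₀‖ = 1 := by simp [e₀]
  have hinner : ∀ l : ℂ, inner ℂ e₀ (pt l) = ((‖l‖ ^ 2 / (1 + ‖l‖ ^ 2) : ℝ) : ℂ) := by
    intro l
    simp only [e₀, EuclideanSpace.inner_single_left, map_one, one_mul]
    rw [pt_zero]
  have hS := H 2 (1 / 2) (1 / 2) 1 (by norm_num) (by norm_num) (by norm_num) (by norm_num)
    (by norm_num) e₀ he₀ (pt '' Z) (Z_countable.image _) ?_ ?_ ?_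
  · -- the sum diverges
    let L : ℕ → ℂ := fun k => ((Real.sqrt ((2 * (k : ℝ) + 1) * Real.pi / 2) : ℝ) : ℂ)
    have hnn : ∀ k : ℕ, 0 ≤ (2 * (k : ℝ) + 1) * Real.pi / 2 := fun k => by positivity
    have hLZ : ∀ k, L k ∈ Z := by
      intro k
      show Complex.cos (L k ^ 2) = 0
      rw [Complex.cos_eq_zero_iff]
      refine ⟨k, ?_⟩
      simp only [L]
      rw [← Complex.ofReal_pow, Real.sq_sqrt (hnn k)]
      push_cast
      ring
    have hLn : ∀ k, ‖L k‖ ^ 2 = (2 * (k : ℝ) + 1) * Real.pi / 2 := by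
      intro k
      simp only [L]
      rw [Complex.norm_real, Real.norm_eq_abs, sq_abs, Real.sq_sqrt (hnn k)]
    let g : ℕ → (pt '' Z) := fun k => ⟨pt (L k), ⟨L k, hLZ k, rfl⟩⟩
    have hval : ∀ k, 1 - ‖((g k : (pt '' Z)) : EuclideanSpace ℂ (Fin 2))‖ ^ 2
        = 1 / (1 + (2 * (k : ℝ) + 1) * Real.pi / 2) := by
      intro k
      show 1 - ‖pt (L k)‖ ^ 2 = _
      rw [norm_pt_sq, hLn]
      have : (1 : ℝ) + (2 * (k : ℝ) + 1) * Real.pi / 2 ≠ 0 := by positivity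
      field_simp
      ring
    have hg : Function.Injective g := by
      intro k k' h
      have h1 := hval k
      rw [h, hval k'] at h1
      have h2 : (1 : ℝ) + (2 * (k : ℝ) + 1) * Real.pi / 2 ≠ 0 := by positivity
      have h3 : (1 : ℝ) + (2 * (k' : ℝ) + 1) * Real.pi / 2 ≠ 0 := by positivity
      rw [div_eq_div_iff h3 h2] at h1
      have h4 := Real.pi_pos
      have h5 : (k : ℝ) * Real.pi = k' * Real.pi := by linarith
      have h6 := mul_right_cancel₀ h4.ne' h5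
      exact_mod_cast h6
    have h1 := hS.comp_injective hg
    have h2 : Summable (fun k : ℕ => (1 : ℝ) / (6 * ((k + 1 : ℕ) : ℝ))) := by
      refine Summable.of_nonneg_of_le (fun k => by positivity) (fun k => ?_) h1
      simp only [Function.comp]
      rw [hval k]
      have hp := Real.pi_lt_four
      have hp0 := Real.pi_pos
      have hk : (0 : ℝ) ≤ k := by positivity
      apply one_div_le_one_div_of_le (by positivity)
      push_cast
      nlinarith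
    have h3 : Summable (fun k : ℕ => (1 : ℝ) / ((k + 1 : ℕ) : ℝ)) := by
      have := h2.mul_left 6
      refine this.congr (fun k => ?_)
      have : ((k + 1 : ℕ) : ℝ) ≠ 0 := by positivity
      field_simp
    exact Real.not_summable_one_div_natCast ((summable_nat_add_iff 1).mp h3)
  · rintro _ ⟨l, _, rfl⟩
    rw [mem_ball_zero_iff]
    exact norm_pt_lt l
  · rintro _ ⟨l, hl, rfl⟩
    right
    have hs := Z_norm l hl
    rw [hinner l]
    have h0 : (0 : ℝ) < 1 + ‖l‖ ^ 2 := by positivity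
    have hre : (1 - ((‖l‖ ^ 2 / (1 + ‖l‖ ^ 2) : ℝ) : ℂ)).re = 1 / (1 + ‖l‖ ^ 2) := by
      simp only [Complex.sub_re, Complex.one_re, Complex.ofReal_re]
      field_simp
      ring
    have him : (1 - ((‖l‖ ^ 2 / (1 + ‖l‖ ^ 2) : ℝ) : ℂ)).im = 0 := by
      simp only [Complex.sub_im, Complex.one_im, Complex.ofReal_im]
      ring
    refine ⟨?_, ?_, ?_⟩
    · rw [hre, him]
      simp
      positivity
    · rw [norm_pt_sq, Complex.norm_real, Real.norm_eq_abs, sq_abs]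
      have h1 : ‖l‖ ^ 2 / (1 + ‖l‖ ^ 2) ≤ 1 := by
        rw [div_le_one h0]; linarith
      nlinarith
    · rw [hre]
      rw [div_le_div_iff₀ h0 (by norm_num)]
      linarith
  · refine ⟨f, f_diff, ⟨1, f_bound⟩, ⟨0, by simp, ?_⟩, ?_⟩
    · unfold f
      simp
    · ext z
      simp only [Set.mem_ofPred_eq, and_congr_right_iff]
      intro hz
      have hu := one_sub_ne z hz
      constructor
      · intro hf
        unfold f at hf
        rcases mul_eq_zero.mp hf with h | h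
        · refine ⟨pt (z 1 / (1 - z 0)), ⟨_, h, rfl⟩, ?_⟩
          rw [inner_pt _ (Z_ne_zero _ h)]
          field_simp
        · exact absurd h (Complex.exp_ne_zero _)
      · rintro ⟨_, ⟨l, hl, rfl⟩, h⟩
        rw [inner_pt _ (Z_ne_zero _ hl)] at h
        unfold f
        have : z 1 / (1 - z 0) = l := by
          rw [h]; field_simp
        rw [this]
        have hl' : Complex.cos (l ^ 2) = 0 := hl
        rw [hl', zero_mul]

end Pool.Agent.S03586
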