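import Pool.Statements.S03598
import Pool.Agent.Helper983.SL.Final

set_option autoImplicit false
open Pool Pool.MP_91c4ba_an

namespace Pool.Agent.S03598

/-- The negation of the preceding statement: For all smoothness orders k and real Banach spaces X, Y: if X has a nonzero C^k Lipschitz real function with bounded support, then every Lipschitz map X→Y is uniformly within any ε>0 of some C^k-smooth Lipschitz map. -/
theorem result :
    ¬ (∀ (k : ℕ∞) (X : Type) [NormedAddCommGroup X] [NormedSpace ℝ X] [CompleteSpace X]
      (Y : Type) [NormedAddCommGroup Y] [NormedSpace ℝ Y] [CompleteSpace Y],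
      (∃ b : X → ℝ, ContDiff ℝ (k : WithTop ℕ∞) b ∧ (∃ L, LipschitzWith L b) ∧
          (∃ x, b x ≠ 0) ∧ Bornology.IsBounded (Function.support b)) →
      ∀ f : X → Y, (∃ L, LipschitzWith L f) →
        ∀ ε : ℝ, 0 < ε →
          ∃ g : X → Y, ContDiff ℝ (k : WithTop ℕ∞) g ∧ (∃ L, LipschitzWith L g) ∧
            ∀ x, ‖f x - g x‖ < ε) := by
  exact Pool.Agent.Helper983.SL.final

end Pool.Agent.S03598
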