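import Pool.Statements.S03600
-- import your own Pool.Agent.* helpers here

set_option autoImplicit false
open Pool Pool.MP_91c8d1_an

namespace Pool.Agent.S03600

lemma range_iso {X S : Type} [MetricSpace X] (f g : S → X)
    (h : ∀ s t, dist (f s) (f t) = dist (g s) (g t)) :
    Nonempty (↥(Set.range f) ≃ᵢ ↥(Set.range g)) := by
  classical
  let φ : Set.range f → Set.range g := fun x => ⟨g x.2.choose, _, rfl⟩
  let ψ : Set.range g → Set.range f := fun x => ⟨f x.2.choose, _, rfl⟩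
  have hφ : Isometry φ := Isometry.of_dist_eq (fun x y => by
    change dist (g x.2.choose) (g y.2.choose) = dist (x : X) (y : X)
    rw [← h, x.2.choose_spec, y.2.choose_spec])
  refine ⟨IsometryEquiv.mk' φ ψ (fun y => ?_) hφ⟩
  apply Subtype.ext
  change g (ψ y).2.choose = (y : X)
  have h1 : f (ψ y).2.choose = f y.2.choose := (ψ y).2.choose_spec
  have h2 : g y.2.choose = (y : X) := y.2.choose_spec
  have h3 := h (ψ y).2.choose y.2.choose
  rw [h1, dist_self] at h3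
  have h4 := dist_eq_zero.1 h3.symm
  rw [h4, h2]

lemma paradox_of (X : Type) [MetricSpace X] [MeasurableSpace X] (ι : Type) [Fintype ι]
    (D : ι → Set X) (A : Fin 2 → ι → Set X)
    (hiso : ∀ c i, Nonempty (↥(A c i) ≃ᵢ ↥(D i)))
    (hcov : ∀ x, ∃ i, x ∈ D i)
    (hdis : ∀ c i c' i' x, x ∈ A c i → x ∈ A c' i' → c = c' ∧ i = i')
    (hm : ∀ c i, MeasurableSet (A c i)) :
    ∃ (n m : ℕ) (A : Fin n → Set X) (B : Fin m → Set X)
          (A' : Fin n → Set X) (B' : Fin m → Set X),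
          (∀ i, MeasurableSet (A i)) ∧ (∀ j, MeasurableSet (B j)) ∧
          Pairwise (Function.onFun Disjoint A) ∧
          Pairwise (Function.onFun Disjoint B) ∧
          (∀ i j, Disjoint (A i) (B j)) ∧
          (∀ i, Nonempty (↥(A i) ≃ᵢ ↥(A' i))) ∧
          (∀ j, Nonempty (↥(B j) ≃ᵢ ↥(B' j))) ∧
          (⋃ i, A' i) = Set.univ ∧ (⋃ j, B' j) = Set.univ := by
  classical
  let e := Fintype.equivFin ι
  have hcov' : (⋃ k, D (e.symm k)) = Set.univ := by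
    apply Set.eq_univ_of_forall
    intro x
    obtain ⟨i, hi⟩ := hcov x
    exact Set.mem_iUnion.2 ⟨e i, by simpa using hi⟩
  refine ⟨Fintype.card ι, Fintype.card ι, fun k => A 0 (e.symm k), fun k => A 1 (e.symm k),
    fun k => D (e.symm k), fun k => D (e.symm k), fun k => hm _ _, fun k => hm _ _,
    ?_, ?_, ?_, fun k => hiso _ _, fun k => hiso _ _, hcov', hcov'⟩
  · intro k l hkl
    refine Set.disjoint_left.2 (fun x hx hx' => hkl ?_)
    exact e.symm.injective (hdis _ _ _ _ x hx hx').2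
  · intro k l hkl
    refine Set.disjoint_left.2 (fun x hx hx' => hkl ?_)
    exact e.symm.injective (hdis _ _ _ _ x hx hx').2
  · intro k l
    refine Set.disjoint_left.2 (fun x hx hx' => ?_)
    exact absurd (hdis _ _ _ _ x hx hx').1 (by decide)

/-- The ring of 2-adic integers. -/
abbrev R := ℤ_[2]

/-- The ambient compact metric space: four 2-adic coordinates with the maximum metric. -/
abbrev M := R × R × R × R

/-- Points hanging at the node `v` of level `n`. -/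
noncomputable def P (n v y : ℕ) (b : R) : M :=
  ((v : R), (2 : R) ^ n, (2 : R) ^ (n + 1) * b, (8 : R) ^ (n + 1) * (y : R))

/-- Points of the base. -/
noncomputable def W (a : R) : M := (a, 0, 0, 0)

/-- The space. -/
def XS : Set M :=
  {x | (∃ a, x = W a) ∨ ∃ n v y b, v < 2 ^ n ∧ y < 8 ^ (v + n + 1) ∧ x = P n v y b}

lemma norm_two : ‖(2 : R)‖ = 1 / 2 := by
  have h := PadicInt.norm_p (p := 2)
  simpa using h

lemma norm_two_pow (n : ℕ) : ‖(2 : R) ^ n‖ = (1 / 2 : ℝ) ^ n := by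
  rw [norm_pow, norm_two]

lemma nle {n : ℕ} {x : R} (h : (2 : R) ^ n ∣ x) : ‖x‖ ≤ (1 / 2 : ℝ) ^ n := by
  obtain ⟨y, rfl⟩ := h
  rw [norm_mul, norm_two_pow]
  have := PadicInt.norm_le_one y
  have h2 : (0 : ℝ) ≤ (1 / 2 : ℝ) ^ n := by positivity
  nlinarith [norm_nonneg y]

lemma two_pow_ne (n : ℕ) : (2 : R) ^ n ≠ 0 := by
  intro h
  have := norm_two_pow n
  rw [h, norm_zero] at this
  have h2 : (0 : ℝ) < (1 / 2 : ℝ) ^ n := by positivity
  linarith

lemma half_pow_lt {n m : ℕ} (h : n < m) : (1 / 2 : ℝ) ^ m < (1 / 2 : ℝ) ^ n :=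
  pow_lt_pow_right_of_lt_one₀ (by norm_num) (by norm_num) h

lemma two_pow_inj {n m : ℕ} (h : (2 : R) ^ n = (2 : R) ^ m) : n = m := by
  have h1 := norm_two_pow n
  rw [h, norm_two_pow] at h1
  rcases lt_trichotomy n m with h2 | h2 | h2
  · have := half_pow_lt h2; linarith
  · exact h2
  · have := half_pow_lt h2; linarith

lemma lower_pow {n m : ℕ} (h : n < m) : (1 / 2 : ℝ) ^ n ≤ dist ((2 : R) ^ n) ((2 : R) ^ m) := by
  by_contra hc
  push Not at hc
  rw [dist_eq_norm] at hc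
  have h1 := PadicInt.nonarchimedean ((2 : R) ^ n - (2 : R) ^ m) ((2 : R) ^ m)
  rw [sub_add_cancel, norm_two_pow, norm_two_pow] at h1
  have h2 := half_pow_lt h
  have h3 := max_lt hc h2
  linarith

lemma lower_nat {n v w : ℕ} (hv : v < 2 ^ n) (hw : w < 2 ^ n) (h : v ≠ w) :
    (1 / 2 : ℝ) ^ n ≤ dist (v : R) (w : R) := by
  by_contra hc
  push Not at hc
  rw [dist_eq_norm] at hc
  have h1 : ‖(((v : ℤ) - (w : ℤ) : ℤ) : R)‖ ≤ ((2 : ℕ) : ℝ) ^ (-(n : ℤ)) := by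
    have : (((v : ℤ) - (w : ℤ) : ℤ) : R) = (v : R) - (w : R) := by push_cast; ring
    rw [this]
    have h2 : ((2 : ℕ) : ℝ) ^ (-(n : ℤ)) = (1 / 2 : ℝ) ^ n := by
      rw [zpow_neg, zpow_natCast, one_div, inv_pow]
      norm_num
    rw [h2]
    exact hc.le
  rw [PadicInt.norm_int_le_pow_iff_dvd] at h1
  have h3 : ((2 : ℤ) ^ n) ∣ (v : ℤ) - (w : ℤ) := by simpa using h1
  obtain ⟨k, hk⟩ := h3
  have hv' : (v : ℤ) < 2 ^ n := by exact_mod_cast hv
  have hw' : (w : ℤ) < 2 ^ n := by exact_mod_cast hw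
  have hv0 : (0 : ℤ) ≤ v := Int.natCast_nonneg v
  have hw0 : (0 : ℤ) ≤ w := Int.natCast_nonneg w
  have hp : (0 : ℤ) < 2 ^ n := by positivity
  have hk0 : k = 0 := by
    rcases lt_trichotomy k 0 with h4 | h4 | h4
    · exfalso; nlinarith
    · exact h4
    · exfalso; nlinarith
  subst hk0
  apply h
  have : (v : ℤ) = w := by linarith
  exact_mod_cast this

lemma natcast_inj {v w : ℕ} (h : (v : R) = (w : R)) : v = w := by
  exact_mod_cast h

lemma eight_pow_ne (n : ℕ) : (8 : R) ^ n ≠ 0 := by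
  have : (8 : R) = 2 ^ 3 := by norm_num
  rw [this, ← pow_mul]
  exact two_pow_ne _

lemma code_inj {n v y n' v' y' : ℕ} {b b' : R}
    (h1 : (P n v y b).1 = (P n' v' y' b').1)
    (h2 : (P n v y b).2.1 = (P n' v' y' b').2.1)
    (h3 : (P n v y b).2.2.2 = (P n' v' y' b').2.2.2) : n = n' ∧ v = v' ∧ y = y' := by
  have e1 : n = n' := two_pow_inj h2
  subst e1
  refine ⟨rfl, natcast_inj h1, ?_⟩
  have h4 : (8 : R) ^ (n + 1) * (y : R) = (8 : R) ^ (n + 1) * (y' : R) := h3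
  exact natcast_inj (mul_left_cancel₀ (eight_pow_ne _) h4)


lemma dist_W (a a' : R) : dist (W a) (W a') = dist a a' := by
  simp [W, Prod.dist_eq]

lemma dist_M (x y : M) : dist x y = max (dist x.1 y.1) (max (dist x.2.1 y.2.1)
    (max (dist x.2.2.1 y.2.2.1) (dist x.2.2.2 y.2.2.2))) := rfl

lemma P_mem {n v y : ℕ} (b : R) (hv : v < 2 ^ n) (hy : y < 8 ^ (v + n + 1)) :
    P n v y b ∈ XS := Or.inr ⟨n, v, y, b, hv, hy, rfl⟩

lemma W_mem (a : R) : W a ∈ XS := Or.inl ⟨a, rfl⟩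

/-- The last coordinate is small. -/
lemma last_small {n m k : ℕ} (hn : k ≤ n) (hm : k ≤ m) (x y : R) :
    dist ((8 : R) ^ (n + 1) * x) ((8 : R) ^ (m + 1) * y) ≤ (1 / 2 : ℝ) ^ k := by
  rw [dist_eq_norm]
  apply nle
  have h8 : (8 : R) = 2 ^ 3 := by norm_num
  apply dvd_sub
  · rw [h8, ← pow_mul]
    exact Dvd.dvd.mul_right (pow_dvd_pow _ (by omega)) _
  · rw [h8, ← pow_mul]
    exact Dvd.dvd.mul_right (pow_dvd_pow _ (by omega)) _

lemma third_small {n m k : ℕ} (hn : k ≤ n) (hm : k ≤ m) (x y : R) :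
    dist ((2 : R) ^ n * x) ((2 : R) ^ m * y) ≤ (1 / 2 : ℝ) ^ k := by
  rw [dist_eq_norm]
  apply nle
  apply dvd_sub
  · exact Dvd.dvd.mul_right (pow_dvd_pow _ hn) _
  · exact Dvd.dvd.mul_right (pow_dvd_pow _ hm) _

lemma pow_small {n m k : ℕ} (hn : k ≤ n) (hm : k ≤ m) :
    dist ((2 : R) ^ n) ((2 : R) ^ m) ≤ (1 / 2 : ℝ) ^ k := by
  have := third_small hn hm 1 1
  simpa using this

lemma lower_pow' {n m : ℕ} (h : n ≠ m) :
    (1 / 2 : ℝ) ^ (min n m) ≤ dist ((2 : R) ^ n) ((2 : R) ^ m) := by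
  rcases lt_or_gt_of_ne h with h1 | h1
  · rw [min_eq_left h1.le]; exact lower_pow h1
  · rw [min_eq_right h1.le, dist_comm]; exact lower_pow h1

lemma max_aux1 {A B C D D' : ℝ} (h : D ≤ A) (h' : D' ≤ A) :
    max A (max B (max C D)) = max A (max B (max C D')) := by
  apply le_antisymm
  · exact max_le (le_max_left _ _) (max_le (le_max_of_le_right (le_max_left _ _))
      (max_le (le_max_of_le_right (le_max_of_le_right (le_max_left _ _))) (le_max_of_le_left h)))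
  · exact max_le (le_max_left _ _) (max_le (le_max_of_le_right (le_max_left _ _))
      (max_le (le_max_of_le_right (le_max_of_le_right (le_max_left _ _))) (le_max_of_le_left h')))

lemma max_aux2 {A B C D D' : ℝ} (h : D ≤ B) (h' : D' ≤ B) :
    max A (max B (max C D)) = max A (max B (max C D')) := by
  congr 1
  apply le_antisymm
  · exact max_le (le_max_left _ _)
      (max_le (le_max_of_le_right (le_max_left _ _)) (le_max_of_le_left h))
  · exact max_le (le_max_left _ _)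
      (max_le (le_max_of_le_right (le_max_left _ _)) (le_max_of_le_left h'))

/-- First isometry: the shift of the base with a new digit. -/
lemma iso_N (c n v y n' v' y' : ℕ) (b b' : R) (hv : v < 2 ^ n) (hv' : v' < 2 ^ n') :
    dist (P n v y b) (P n' v' y' b') =
      dist (P n (v + 1) (y + c * 8 ^ (v + n + 1)) b)
        (P n' (v' + 1) (y' + c * 8 ^ (v' + n' + 1)) b') := by
  rw [dist_M, dist_M]
  simp only [P]
  have e1 : dist (((v + 1 : ℕ) : R)) (((v' + 1 : ℕ) : R)) = dist (v : R) (v' : R) := by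
    push_cast
    simp [dist_eq_norm]
  rw [e1]
  by_cases hn : n = n'
  · subst hn
    by_cases hvv : v = v'
    · subst hvv
      have e2 : dist ((8 : R) ^ (n + 1) * ((y + c * 8 ^ (v + n + 1) : ℕ) : R))
          ((8 : R) ^ (n + 1) * ((y' + c * 8 ^ (v + n + 1) : ℕ) : R)) =
          dist ((8 : R) ^ (n + 1) * (y : R)) ((8 : R) ^ (n + 1) * (y' : R)) := by
        rw [dist_eq_norm, dist_eq_norm]
        congr 1
        push_cast
        ring
      rw [e2]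
    · have h1 := lower_nat hv hv' hvv
      exact max_aux1 ((last_small (le_refl n) (le_refl n) _ _).trans h1)
        ((last_small (le_refl n) (le_refl n) _ _).trans h1)
  · have h1 := lower_pow' hn
    exact max_aux2 ((last_small (min_le_left n n') (min_le_right n n') _ _).trans h1)
      ((last_small (min_le_left n n') (min_le_right n n') _ _).trans h1)

/-- Second isometry: from the top node of level `n` to level `n+1`. -/
lemma iso_T (s t k n y n' y' : ℕ) (b b' : R) :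
    dist (P n (2 ^ n - 1) (t + 8 * y) ((s : R) + 2 * b))
        (P n' (2 ^ n' - 1) (t + 8 * y') ((s : R) + 2 * b')) =
      dist (P (n + 1) (2 ^ n - 1) (y + 8 ^ (2 ^ n - 1 + n) * k) b)
        (P (n' + 1) (2 ^ n' - 1) (y' + 8 ^ (2 ^ n' - 1 + n') * k) b') := by
  rw [dist_M, dist_M]
  simp only [P]
  by_cases hn : n = n'
  · subst hn
    have e2 : dist ((8 : R) ^ (n + 1) * ((t + 8 * y : ℕ) : R))
        ((8 : R) ^ (n + 1) * ((t + 8 * y' : ℕ) : R)) =
        dist ((8 : R) ^ (n + 1 + 1) * ((y + 8 ^ (2 ^ n - 1 + n) * k : ℕ) : R))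
          ((8 : R) ^ (n + 1 + 1) * ((y' + 8 ^ (2 ^ n - 1 + n) * k : ℕ) : R)) := by
      rw [dist_eq_norm, dist_eq_norm]
      congr 1
      push_cast
      ring
    have e3 : dist ((2 : R) ^ (n + 1) * ((s : R) + 2 * b)) ((2 : R) ^ (n + 1) * ((s : R) + 2 * b')) =
        dist ((2 : R) ^ (n + 1 + 1) * b) ((2 : R) ^ (n + 1 + 1) * b') := by
      rw [dist_eq_norm, dist_eq_norm]
      congr 1
      ring
    rw [e2, e3]
    simp
  · have h1 := lower_pow' hn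
    have e1 : dist (((2 ^ n - 1 : ℕ) : R)) (((2 ^ n' - 1 : ℕ) : R)) =
        dist ((2 : R) ^ n) ((2 : R) ^ n') := by
      rw [Nat.cast_sub Nat.one_le_two_pow, Nat.cast_sub Nat.one_le_two_pow]
      push_cast
      simp [dist_eq_norm]
    rw [← e1] at h1
    generalize (((2 ^ n - 1 : ℕ) : R)) = p1 at *
    generalize (((2 ^ n' - 1 : ℕ) : R)) = p2 at *
    generalize ((t + 8 * y : ℕ) : R) = z1
    generalize ((t + 8 * y' : ℕ) : R) = z2
    generalize ((y + 8 ^ (2 ^ n - 1 + n) * k : ℕ) : R) = z3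
    generalize ((y' + 8 ^ (2 ^ n' - 1 + n') * k : ℕ) : R) = z4
    generalize hm : min n n' = m at h1
    have m1 : m ≤ n := hm ▸ min_le_left n n'
    have m2 : m ≤ n' := hm ▸ min_le_right n n'
    have a2 := (pow_small m1 m2).trans h1
    have a3 := (third_small (m1.trans (Nat.le_succ n))
      (m2.trans (Nat.le_succ n')) ((s : R) + 2 * b) ((s : R) + 2 * b')).trans h1
    have a4 := (last_small m1 m2 z1 z2).trans h1
    have b2 := (pow_small (m1.trans (Nat.le_succ n)) (m2.trans (Nat.le_succ n'))).trans h1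
    have b3 := (third_small (m1.trans ((Nat.le_succ n).trans (Nat.le_succ _)))
      (m2.trans ((Nat.le_succ n').trans (Nat.le_succ _))) b b').trans h1
    have b4 := (last_small (m1.trans (Nat.le_succ n)) (m2.trans (Nat.le_succ n')) z3 z4).trans h1
    exact (max_eq_left (max_le a2 (max_le a3 a4))).trans
      (max_eq_left (max_le b2 (max_le b3 b4))).symm

lemma iso_W (u k : ℕ) (a a' : R) :
    dist (W ((u : R) + 2 * a)) (W ((u : R) + 2 * a')) = dist (P 0 0 k a) (P 0 0 k a') := by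
  rw [dist_W, dist_M]
  simp [P, dist_eq_norm]


lemma continuous_P (n v y : ℕ) : Continuous (P n v y) := by
  unfold P
  fun_prop

lemma layer_closed (n : ℕ) :
    IsClosed {x : M | ∃ v y b, v < 2 ^ n ∧ y < 8 ^ (v + n + 1) ∧ x = P n v y b} := by
  have h : {x : M | ∃ v y b, v < 2 ^ n ∧ y < 8 ^ (v + n + 1) ∧ x = P n v y b} =
      ⋃ v ∈ Set.Iio (2 ^ n), ⋃ y ∈ Set.Iio (8 ^ (v + n + 1)), Set.range (P n v y) := by
    ext x
    simp only [Set.mem_ofPred_eq, Set.mem_iUnion, Set.mem_Iio, Set.mem_range, exists_prop]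
    constructor
    · rintro ⟨v, y, b, hv, hy, rfl⟩
      exact ⟨v, hv, y, hy, b, rfl⟩
    · rintro ⟨v, hv, y, hy, b, rfl⟩
      exact ⟨v, y, b, hv, hy, rfl⟩
  rw [h]
  apply Set.Finite.isClosed_biUnion (Set.finite_Iio _)
  intro v _
  apply Set.Finite.isClosed_biUnion (Set.finite_Iio _)
  intro y _
  exact (isCompact_range (continuous_P n v y)).isClosed

lemma norm_third_le {x : M} (hx : x ∈ XS) : ‖x.2.2.1‖ ≤ ‖x.2.1‖ := by
  rcases hx with ⟨a, rfl⟩ | ⟨n, v, y, b, _, _, rfl⟩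
  · simp [W]
  · change ‖(2 : R) ^ (n + 1) * b‖ ≤ ‖(2 : R) ^ n‖
    rw [norm_two_pow]
    exact nle (Dvd.dvd.mul_right (pow_dvd_pow _ (Nat.le_succ n)) _)

lemma norm_last_le {x : M} (hx : x ∈ XS) : ‖x.2.2.2‖ ≤ ‖x.2.1‖ := by
  rcases hx with ⟨a, rfl⟩ | ⟨n, v, y, b, _, _, rfl⟩
  · simp [W]
  · change ‖(8 : R) ^ (n + 1) * (y : R)‖ ≤ ‖(2 : R) ^ n‖
    rw [norm_two_pow]
    apply nle
    have h8 : (8 : R) = 2 ^ 3 := by norm_num
    rw [h8, ← pow_mul]
    exact Dvd.dvd.mul_right (pow_dvd_pow _ (by omega)) _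

lemma norm_eq_of_dist_lt {a b : R} (h : dist a b < ‖a‖) : ‖b‖ = ‖a‖ := by
  rw [dist_comm, dist_eq_norm] at h
  by_contra hne
  have h1 : ‖(b - a) + a‖ = max ‖b - a‖ ‖a‖ := PadicInt.norm_add_eq_max_of_ne (ne_of_lt h)
  rw [sub_add_cancel, max_eq_right h.le] at h1
  exact hne h1

lemma xs_closed : IsClosed XS := by
  rw [← closure_subset_iff_isClosed]
  intro x hx
  have h3 : ‖x.2.2.1‖ ≤ ‖x.2.1‖ := by
    have hc : IsClosed {x : M | ‖x.2.2.1‖ ≤ ‖x.2.1‖} :=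
      isClosed_le (by fun_prop) (by fun_prop)
    exact closure_minimal (fun y hy => norm_third_le hy) hc hx
  have h4 : ‖x.2.2.2‖ ≤ ‖x.2.1‖ := by
    have hc : IsClosed {x : M | ‖x.2.2.2‖ ≤ ‖x.2.1‖} :=
      isClosed_le (by fun_prop) (by fun_prop)
    exact closure_minimal (fun y hy => norm_last_le hy) hc hx
  by_cases h0 : x.2.1 = 0
  · rw [h0, norm_zero] at h3 h4
    have h3' := norm_le_zero_iff.1 h3
    have h4' := norm_le_zero_iff.1 h4
    left
    refine ⟨x.1, ?_⟩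
    unfold W
    ext1
    · rfl
    · ext1
      · exact h0
      · ext1
        · exact h3'
        · exact h4'
  · have hpos : 0 < ‖x.2.1‖ := norm_pos_iff.2 h0
    have key : ∀ y ∈ XS, dist x y < ‖x.2.1‖ → ∃ n, ‖x.2.1‖ = (1 / 2 : ℝ) ^ n ∧
        ∃ v z b, v < 2 ^ n ∧ z < 8 ^ (v + n + 1) ∧ y = P n v z b := by
      intro y hy hd
      have hd1 : dist x.2.1 y.2.1 < ‖x.2.1‖ :=
        lt_of_le_of_lt (by rw [dist_M]; exact le_max_of_le_right (le_max_left _ _)) hd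
      have hn := norm_eq_of_dist_lt hd1
      rcases hy with ⟨a, rfl⟩ | ⟨n, v, z, b, hv, hz, rfl⟩
      · exfalso
        have : ‖(W a).2.1‖ = 0 := by simp [W]
        rw [this] at hn
        linarith
      · refine ⟨n, ?_, v, z, b, hv, hz, rfl⟩
        rw [← hn]
        exact norm_two_pow n
    obtain ⟨y0, hy0, hd0⟩ := Metric.mem_closure_iff.1 hx _ hpos
    obtain ⟨n, hn, -⟩ := key y0 hy0 hd0
    have hmem : x ∈ {x : M | ∃ v y b, v < 2 ^ n ∧ y < 8 ^ (v + n + 1) ∧ x = P n v y b} := by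
      rw [← (layer_closed n).closure_eq, Metric.mem_closure_iff]
      intro ε hε
      obtain ⟨y, hy, hd⟩ := Metric.mem_closure_iff.1 hx (min ε ‖x.2.1‖) (lt_min hε hpos)
      obtain ⟨m, hm, v, z, b, hv, hz, rfl⟩ := key y hy (lt_of_lt_of_le hd (min_le_right _ _))
      have hnm : n = m := by
        rw [hn] at hm
        rcases lt_trichotomy n m with h2 | h2 | h2
        · have := half_pow_lt h2; linarith
        · exact h2
        · have := half_pow_lt h2; linarith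
      subst hnm
      exact ⟨_, ⟨v, z, b, hv, hz, rfl⟩, lt_of_lt_of_le hd (min_le_left _ _)⟩
    obtain ⟨v, y, b, hv, hy, hxe⟩ := hmem
    exact Or.inr ⟨n, v, y, b, hv, hy, hxe⟩

lemma digit (b : R) : ∃ (s : Fin 2) (b' : R), b = (((s : ℕ) : ℕ) : R) + 2 * b' := by
  obtain ⟨n, hn, hb⟩ := PadicInt.exists_mem_range (p := 2) b
  rw [PadicInt.maximalIdeal_eq_span_p, Ideal.mem_span_singleton] at hb
  obtain ⟨b', hb'⟩ := hb
  refine ⟨⟨n, hn⟩, b', ?_⟩
  have : b = n + (b - n) := by ring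
  rw [this, hb']
  simp


/-- Cylinder sets: prescribed integer data, free third coordinate. -/
def cyl (T : Set (ℕ × ℕ × ℕ)) : Set ↥XS :=
  {x | ∃ n v y b, (n, v, y) ∈ T ∧ (x : M) = P n v y b}

lemma cyl_inj {n v y n' v' y' : ℕ} {b b' : R} (h : P n v y b = P n' v' y' b') :
    n = n' ∧ v = v' ∧ y = y' :=
  code_inj (b := b) (b' := b') (by rw [h]) (by rw [h]) (by rw [h])

lemma cyl_measurable [MeasurableSpace ↥XS] [BorelSpace ↥XS] (T : Set (ℕ × ℕ × ℕ)) :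
    MeasurableSet (cyl T) := by
  have h : cyl T = ⋃ t ∈ T, {x : ↥XS | (x : M).1 = (t.2.1 : R) ∧ (x : M).2.1 = (2 : R) ^ t.1 ∧
      (x : M).2.2.2 = (8 : R) ^ (t.1 + 1) * (t.2.2 : R)} := by
    ext x
    simp only [cyl, Set.mem_ofPred_eq, Set.mem_iUnion, exists_prop]
    constructor
    · rintro ⟨n, v, y, b, ht, hx⟩
      refine ⟨(n, v, y), ht, ?_⟩
      rw [hx]
      exact ⟨rfl, rfl, rfl⟩
    · rintro ⟨⟨n, v, y⟩, ht, h1, h2, h3⟩
      rcases x.2 with ⟨a, ha⟩ | ⟨n', v', y', b', _, _, hx⟩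
      · exfalso
        have : (x : M).2.1 = 0 := by rw [ha]; rfl
        rw [this] at h2
        exact two_pow_ne _ h2.symm
      · have h4 := code_inj (n := n) (v := v) (y := y) (n' := n') (v' := v') (y' := y')
          (b := b') (b' := b') (by rw [← hx]; exact h1.symm) (by rw [← hx]; exact h2.symm)
          (by rw [← hx]; exact h3.symm)
        obtain ⟨rfl, rfl, rfl⟩ := h4
        exact ⟨n, v, y, b', ht, hx⟩
  rw [h]
  apply MeasurableSet.biUnion T.to_countable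
  intro t _
  apply IsClosed.measurableSet
  apply IsClosed.inter
  · exact isClosed_eq (by fun_prop) (by fun_prop)
  · apply IsClosed.inter
    · exact isClosed_eq (by fun_prop) (by fun_prop)
    · exact isClosed_eq (by fun_prop) (by fun_prop)

lemma iso_of {S : Type} (f g : S → ↥XS) (D A : Set ↥XS) (hD : D = Set.range f)
    (hA : A = Set.range g) (h : ∀ s t, dist (f s) (f t) = dist (g s) (g t)) :
    Nonempty (↥A ≃ᵢ ↥D) := by
  subst hD
  subst hA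
  exact range_iso g f (fun s t => (h s t).symm)

/-- Integer data of the images of the first kind. -/
def TN (c : ℕ) : Set (ℕ × ℕ × ℕ) :=
  {q | ∃ n v y, v + 1 < 2 ^ n ∧ y < 8 ^ (v + n + 1) ∧ q = (n, v + 1, y + c * 8 ^ (v + n + 1))}

/-- Integer data of the images of the second kind. -/
def TT (c s t : ℕ) : Set (ℕ × ℕ × ℕ) :=
  {q | ∃ n y, y < 8 ^ (2 ^ n - 1 + n) ∧
    q = (n + 1, 2 ^ n - 1, y + 8 ^ (2 ^ n - 1 + n) * (t + 8 * (2 + 2 * c + s)))}

/-- Integer data of the images of the third kind. -/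
def TW (c u : ℕ) : Set (ℕ × ℕ × ℕ) := {(0, 0, 2 * c + u)}

def DN : Set ↥XS := {x | ∃ n v y b, v + 1 < 2 ^ n ∧ y < 8 ^ (v + n + 1) ∧ (x : M) = P n v y b}

def DT (s t : ℕ) : Set ↥XS :=
  {x | ∃ n y b, y < 8 ^ (2 ^ n - 1 + n) ∧
    (x : M) = P n (2 ^ n - 1) (t + 8 * y) ((s : R) + 2 * b)}

def DW (u : ℕ) : Set ↥XS := {x | ∃ a, (x : M) = W ((u : R) + 2 * a)}

lemma bound_N {c v n y : ℕ} (hc : c < 2) (hy : y < 8 ^ (v + n + 1)) :
    y + c * 8 ^ (v + n + 1) < 8 ^ (v + 1 + n + 1) := by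
  have : 8 ^ (v + 1 + n + 1) = 8 * 8 ^ (v + n + 1) := by
    rw [← pow_succ']; congr 1; omega
  rw [this]
  nlinarith

lemma bound_T {c s t n y : ℕ} (hc : c < 2) (hs : s < 2) (ht : t < 8)
    (hy : y < 8 ^ (2 ^ n - 1 + n)) :
    y + 8 ^ (2 ^ n - 1 + n) * (t + 8 * (2 + 2 * c + s)) < 8 ^ (2 ^ n - 1 + (n + 1) + 1) := by
  have : 8 ^ (2 ^ n - 1 + (n + 1) + 1) = 8 ^ (2 ^ n - 1 + n) * 64 := by
    rw [show 2 ^ n - 1 + (n + 1) + 1 = 2 ^ n - 1 + n + 2 by omega, pow_add]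
    norm_num
  rw [this]
  have h2 : t + 8 * (2 + 2 * c + s) + 1 ≤ 64 := by omega
  generalize 8 ^ (2 ^ n - 1 + n) = E at *
  calc y + E * (t + 8 * (2 + 2 * c + s)) < E + E * (t + 8 * (2 + 2 * c + s)) := by omega
    _ = E * (t + 8 * (2 + 2 * c + s) + 1) := by ring
    _ ≤ E * 64 := Nat.mul_le_mul_left _ h2

lemma top_lt (n : ℕ) : 2 ^ n - 1 < 2 ^ n := Nat.sub_lt (by positivity) (by norm_num)

lemma top_lt' (n : ℕ) : 2 ^ n - 1 < 2 ^ (n + 1) :=
  (top_lt n).trans_le (Nat.pow_le_pow_right (by norm_num) (Nat.le_succ n))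

lemma bound_T' {t n y : ℕ} (ht : t < 8) (hy : y < 8 ^ (2 ^ n - 1 + n)) :
    t + 8 * y < 8 ^ (2 ^ n - 1 + n + 1) := by
  rw [pow_succ]
  generalize 8 ^ (2 ^ n - 1 + n) = E at *
  omega

lemma piece_N (c : ℕ) (hc : c < 2) : Nonempty (↥(cyl (TN c)) ≃ᵢ ↥DN) := by
  let S := {q : ℕ × ℕ × ℕ × R // q.2.1 + 1 < 2 ^ q.1 ∧ q.2.2.1 < 8 ^ (q.2.1 + q.1 + 1)}
  let f : S → ↥XS := fun q => ⟨P q.1.1 q.1.2.1 q.1.2.2.1 q.1.2.2.2,
    P_mem _ (lt_trans (Nat.lt_succ_self _) q.2.1) q.2.2⟩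
  let g : S → ↥XS := fun q => ⟨P q.1.1 (q.1.2.1 + 1)
      (q.1.2.2.1 + c * 8 ^ (q.1.2.1 + q.1.1 + 1)) q.1.2.2.2,
    P_mem _ q.2.1 (bound_N hc q.2.2)⟩
  refine iso_of f g _ _ ?_ ?_ ?_
  · ext x
    constructor
    · rintro ⟨n, v, y, b, hv, hy, hx⟩
      exact ⟨⟨(n, v, y, b), hv, hy⟩, Subtype.ext hx.symm⟩
    · rintro ⟨⟨⟨n, v, y, b⟩, hv, hy⟩, rfl⟩
      exact ⟨n, v, y, b, hv, hy, rfl⟩
  · ext x
    constructor
    · rintro ⟨n', v', y', b, ⟨n, v, y, hv, hy, hq⟩, hx⟩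
      obtain ⟨rfl, rfl, rfl⟩ : n' = n ∧ v' = v + 1 ∧ y' = y + c * 8 ^ (v + n + 1) := by
        simpa using hq
      exact ⟨⟨(n', v, y, b), hv, hy⟩, Subtype.ext hx.symm⟩
    · rintro ⟨⟨⟨n, v, y, b⟩, hv, hy⟩, rfl⟩
      exact ⟨n, v + 1, y + c * 8 ^ (v + n + 1), b, ⟨n, v, y, hv, hy, rfl⟩, rfl⟩
  · rintro ⟨⟨n, v, y, b⟩, hv, hy⟩ ⟨⟨n', v', y', b'⟩, hv', hy'⟩
    exact iso_N c n v y n' v' y' b b' (lt_trans (Nat.lt_succ_self _) hv)
      (lt_trans (Nat.lt_succ_self _) hv')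

lemma piece_T (c s t : ℕ) (hc : c < 2) (hs : s < 2) (ht : t < 8) :
    Nonempty (↥(cyl (TT c s t)) ≃ᵢ ↥(DT s t)) := by
  let S := {q : ℕ × ℕ × R // q.2.1 < 8 ^ (2 ^ q.1 - 1 + q.1)}
  let f : S → ↥XS := fun q => ⟨P q.1.1 (2 ^ q.1.1 - 1) (t + 8 * q.1.2.1) ((s : R) + 2 * q.1.2.2),
    P_mem _ (top_lt _) (bound_T' ht q.2)⟩
  let g : S → ↥XS := fun q => ⟨P (q.1.1 + 1) (2 ^ q.1.1 - 1)
      (q.1.2.1 + 8 ^ (2 ^ q.1.1 - 1 + q.1.1) * (t + 8 * (2 + 2 * c + s))) q.1.2.2,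
    P_mem _ (top_lt' _) (bound_T hc hs ht q.2)⟩
  refine iso_of f g _ _ ?_ ?_ ?_
  · ext x
    constructor
    · rintro ⟨n, y, b, hy, hx⟩
      exact ⟨⟨(n, y, b), hy⟩, Subtype.ext hx.symm⟩
    · rintro ⟨⟨⟨n, y, b⟩, hy⟩, rfl⟩
      exact ⟨n, y, b, hy, rfl⟩
  · ext x
    constructor
    · rintro ⟨n', v', y', b, ⟨n, y, hy, hq⟩, hx⟩
      obtain ⟨rfl, rfl, rfl⟩ : n' = n + 1 ∧ v' = 2 ^ n - 1 ∧
          y' = y + 8 ^ (2 ^ n - 1 + n) * (t + 8 * (2 + 2 * c + s)) := by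
        simpa using hq
      exact ⟨⟨(n, y, b), hy⟩, Subtype.ext hx.symm⟩
    · rintro ⟨⟨⟨n, y, b⟩, hy⟩, rfl⟩
      exact ⟨n + 1, 2 ^ n - 1, _, b, ⟨n, y, hy, rfl⟩, rfl⟩
  · rintro ⟨⟨n, y, b⟩, hy⟩ ⟨⟨n', y', b'⟩, hy'⟩
    exact iso_T s t (t + 8 * (2 + 2 * c + s)) n y n' y' b b'

lemma piece_W (c u : ℕ) (hc : c < 2) (hu : u < 2) :
    Nonempty (↥(cyl (TW c u)) ≃ᵢ ↥(DW u)) := by
  let f : R → ↥XS := fun a => ⟨W ((u : R) + 2 * a), W_mem _⟩
  let g : R → ↥XS := fun a => ⟨P 0 0 (2 * c + u) a, P_mem _ (by norm_num) (by omega)⟩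
  refine iso_of f g _ _ ?_ ?_ ?_
  · ext x
    constructor
    · rintro ⟨a, hx⟩
      exact ⟨a, Subtype.ext hx.symm⟩
    · rintro ⟨a, rfl⟩
      exact ⟨a, rfl⟩
  · ext x
    constructor
    · rintro ⟨n', v', y', b, hq, hx⟩
      obtain ⟨rfl, rfl, rfl⟩ : n' = 0 ∧ v' = 0 ∧ y' = 2 * c + u := by
        simpa [TW] using hq
      exact ⟨b, Subtype.ext hx.symm⟩
    · rintro ⟨a, rfl⟩
      exact ⟨0, 0, 2 * c + u, a, rfl, rfl⟩
  · intro a a'
    exact iso_W u (2 * c + u) a a'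

/-- The index type of the pieces. -/
abbrev Idx := Unit ⊕ (Fin 2 × Fin 8) ⊕ Fin 2

def TA (c : ℕ) : Idx → Set (ℕ × ℕ × ℕ)
  | Sum.inl _ => TN c
  | Sum.inr (Sum.inl p) => TT c (p.1 : ℕ) (p.2 : ℕ)
  | Sum.inr (Sum.inr u) => TW c (u : ℕ)

def DD : Idx → Set ↥XS
  | Sum.inl _ => DN
  | Sum.inr (Sum.inl p) => DT (p.1 : ℕ) (p.2 : ℕ)
  | Sum.inr (Sum.inr u) => DW (u : ℕ)

lemma piece_iso (c : Fin 2) (i : Idx) : Nonempty (↥(cyl (TA (c : ℕ) i)) ≃ᵢ ↥(DD i)) := by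
  rcases i with _ | p | u
  · exact piece_N c c.2
  · exact piece_T c p.1 p.2 c.2 p.1.2 p.2.2
  · exact piece_W c u c.2 u.2

lemma cover (x : ↥XS) : ∃ i, x ∈ DD i := by
  rcases x.2 with ⟨a, ha⟩ | ⟨n, v, y, b, hv, hy, hx⟩
  · obtain ⟨u, a', rfl⟩ := digit a
    exact ⟨Sum.inr (Sum.inr u), a', ha⟩
  · rcases Nat.lt_or_ge (v + 1) (2 ^ n) with h | h
    · exact ⟨Sum.inl (), n, v, y, b, h, hy, hx⟩
    · have hv' : v = 2 ^ n - 1 := by omega
      subst hv'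
      obtain ⟨s, b', rfl⟩ := digit b
      refine ⟨Sum.inr (Sum.inl (s, ⟨y % 8, Nat.mod_lt _ (by norm_num)⟩)), n, y / 8, b', ?_, ?_⟩
      · rw [pow_succ] at hy
        exact Nat.div_lt_of_lt_mul (by linarith)
      · rw [hx]
        congr 1
        exact (Nat.mod_add_div y 8).symm

lemma disj_TN (c c' : ℕ) (q : ℕ × ℕ × ℕ) (h : q ∈ TN c) (h' : q ∈ TN c') : c = c' := by
  obtain ⟨n, v, y, hv, hy, rfl⟩ := h
  obtain ⟨n', v', y', hv', hy', hq⟩ := h'
  simp only [Prod.mk.injEq] at hq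
  obtain ⟨rfl, h1, h2⟩ := hq
  obtain rfl : v = v' := by omega
  generalize 8 ^ (v + n + 1) = E at *
  have hE : 0 < E := by omega
  have h3 := congrArg (· / E) h2
  simp only [Nat.add_mul_div_right _ _ hE, Nat.div_eq_of_lt hy, Nat.div_eq_of_lt hy'] at h3
  omega

lemma disj_NT (c c' s t : ℕ) (hc : c < 2) (q : ℕ × ℕ × ℕ) (h : q ∈ TN c) (h' : q ∈ TT c' s t) :
    False := by
  obtain ⟨n, v, y, hv, hy, rfl⟩ := h
  obtain ⟨m, y', hy', hq⟩ := h'
  simp only [Prod.mk.injEq] at hq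
  obtain ⟨rfl, h1, h2⟩ := hq
  have e1 : v + (m + 1) + 1 = (2 ^ m - 1 + m) + 1 := by omega
  rw [e1, pow_succ] at h2 hy
  generalize 8 ^ (2 ^ m - 1 + m) = E at *
  have h3 : c * (E * 8) ≤ 1 * (E * 8) := Nat.mul_le_mul_right _ (by omega)
  have h4 : E * 16 ≤ E * (t + 8 * (2 + 2 * c' + s)) := Nat.mul_le_mul_left _ (by omega)
  omega

lemma disj_TT (c s t c' s' t' : ℕ) (hs : s < 2) (ht : t < 8) (hs' : s' < 2) (ht' : t' < 8)
    (q : ℕ × ℕ × ℕ) (h : q ∈ TT c s t) (h' : q ∈ TT c' s' t') : c = c' ∧ s = s' ∧ t = t' := by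
  obtain ⟨n, y, hy, rfl⟩ := h
  obtain ⟨n', y', hy', hq⟩ := h'
  simp only [Prod.mk.injEq] at hq
  obtain ⟨h0, h1, h2⟩ := hq
  obtain rfl : n = n' := by omega
  generalize 8 ^ (2 ^ n - 1 + n) = E at *
  have hE : 0 < E := by omega
  have h3 := congrArg (· / E) h2
  simp only [Nat.add_mul_div_left _ _ hE, Nat.div_eq_of_lt hy, Nat.div_eq_of_lt hy'] at h3
  omega

lemma disj (c c' : Fin 2) (i i' : Idx) (x : ↥XS) (hx : x ∈ cyl (TA (c : ℕ) i))
    (hx' : x ∈ cyl (TA (c' : ℕ) i')) : c = c' ∧ i = i' := by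
  obtain ⟨n, v, y, b, hq, h1⟩ := hx
  obtain ⟨n', v', y', b', hq', h2⟩ := hx'
  obtain ⟨rfl, rfl, rfl⟩ := cyl_inj (h1.symm.trans h2)
  rcases i with ⟨⟩ | p | u <;> rcases i' with ⟨⟩ | p' | u'
  · exact ⟨Fin.ext (disj_TN _ _ _ hq hq'), rfl⟩
  · exact (disj_NT _ _ _ _ c.2 _ hq hq').elim
  · exfalso
    obtain ⟨m, w, z, hw, hz, he⟩ := hq
    have h3 : (n, v, y) = (0, 0, 2 * (c' : ℕ) + (u' : ℕ)) := hq'
    simp only [Prod.mk.injEq] at he h3
    omega
  · exact (disj_NT _ _ _ _ c'.2 _ hq' hq).elim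
  · obtain ⟨h3, h4, h5⟩ := disj_TT _ _ _ _ _ _ p.1.2 p.2.2 p'.1.2 p'.2.2 _ hq hq'
    refine ⟨Fin.ext h3, ?_⟩
    rw [Prod.ext (Fin.ext h4) (Fin.ext h5)]
  · exfalso
    obtain ⟨m, z, hz, he⟩ := hq
    have h3 : (n, v, y) = (0, 0, 2 * (c' : ℕ) + (u' : ℕ)) := hq'
    simp only [Prod.mk.injEq] at he h3
    omega
  · exfalso
    obtain ⟨m, w, z, hw, hz, he⟩ := hq'
    have h3 : (n, v, y) = (0, 0, 2 * (c : ℕ) + (u : ℕ)) := hq
    simp only [Prod.mk.injEq] at he h3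
    omega
  · exfalso
    obtain ⟨m, z, hz, he⟩ := hq'
    have h3 : (n, v, y) = (0, 0, 2 * (c : ℕ) + (u : ℕ)) := hq
    simp only [Prod.mk.injEq] at he h3
    omega
  · have h3 : (n, v, y) = (0, 0, 2 * (c : ℕ) + (u : ℕ)) := hq
    have h4 : (n, v, y) = (0, 0, 2 * (c' : ℕ) + (u' : ℕ)) := hq'
    simp only [Prod.mk.injEq] at h3 h4
    have hu := u.2
    have hu' := u'.2
    have h5 : c = c' := Fin.ext (by omega)
    have h6 : u = u' := Fin.ext (by omega)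
    subst h5 h6
    exact ⟨rfl, rfl⟩

/-- The negation of the preceding statement: No nonempty compact metric space has finitely many pairwise disjoint Borel pieces A_i, B_j such that sets isometric to the A_i cover the space and sets isometric to the B_j also cover the space. -/
theorem result :
    ¬ (∀ (X : Type) [MetricSpace X] [CompactSpace X] [Nonempty X]
      [MeasurableSpace X] [BorelSpace X],
      ¬ ∃ (n m : ℕ) (A : Fin n → Set X) (B : Fin m → Set X)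
          (A' : Fin n → Set X) (B' : Fin m → Set X),
          (∀ i, MeasurableSet (A i)) ∧ (∀ j, MeasurableSet (B j)) ∧
          Pairwise (Function.onFun Disjoint A) ∧
          Pairwise (Function.onFun Disjoint B) ∧
          (∀ i j, Disjoint (A i) (B j)) ∧
          (∀ i, Nonempty (↥(A i) ≃ᵢ ↥(A' i))) ∧
          (∀ j, Nonempty (↥(B j) ≃ᵢ ↥(B' j))) ∧
          (⋃ i, A' i) = Set.univ ∧ (⋃ j, B' j) = Set.univ) := by
  intro h
  have : CompactSpace ↥XS := isCompact_iff_compactSpace.1 xs_closed.isCompact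
  have : Nonempty ↥XS := ⟨⟨W 0, W_mem 0⟩⟩
  let _ : MeasurableSpace ↥XS := borel _
  have : BorelSpace ↥XS := ⟨rfl⟩
  apply h ↥XS
  exact paradox_of ↥XS Idx DD (fun c i => cyl (TA (c : ℕ) i)) piece_iso cover
    (fun c i c' i' x hx hx' => disj c c' i i' x hx hx') (fun c i => cyl_measurable _)

end Pool.Agent.S03600
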