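import Pool.Statements.S03602
import Pool.Agent.Helper140.NontangentialZeros

set_option autoImplicit false
open Pool Pool.MP_922b93_an

namespace Pool.Agent.S03602

/-- The negation of the preceding statement: For n ≥ 2, every f continuous on the closed unit ball of ℂⁿ, holomorphic inside, with f(0)=0, vanishes along a continuous path in the open ball tending to a boundary point ζ, with ‖ζ−γ(t)‖ ≤ C(1−‖γ(t)‖). -/
theorem result :
    ¬ (∀ n : ℕ, 2 ≤ n →
      ∀ f : EuclideanSpace ℂ (Fin n) → ℂ,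
        ContinuousOn f (Metric.closedBall 0 1) →
        DifferentiableOn ℂ f (Metric.ball 0 1) →
        f 0 = 0 →
        ∃ γ : ℝ → EuclideanSpace ℂ (Fin n), ∃ ζ : EuclideanSpace ℂ (Fin n), ∃ C : ℝ,
          ‖ζ‖ = 1 ∧
          ContinuousOn γ (Set.Ico 0 1) ∧
          (∀ t ∈ Set.Ico (0 : ℝ) 1, γ t ∈ Metric.ball 0 1 ∧ f (γ t) = 0) ∧
          Filter.Tendsto γ (nhdsWithin 1 (Set.Iio 1)) (nhds ζ) ∧
          (∀ t ∈ Set.Ico (0 : ℝ) 1, ‖ζ - γ t‖ ≤ C * (1 - ‖γ t‖))) := by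
  intro h
  obtain ⟨η, hη, hη1, hno⟩ := Pool.Agent.Helper140.NT.no_path
  obtain ⟨γ, ζ, C, hζ, hc, hz, ht, hn⟩ := h 2 le_rfl (Pool.Agent.Helper140.NT.ff η)
    (Pool.Agent.Helper140.NT.ff_cont η hη hη1) (Pool.Agent.Helper140.NT.ff_diff η hη hη1)
    (Pool.Agent.Helper140.NT.ff_zero η)
  exact hno γ ζ C hζ hc hz ht hn

end Pool.Agent.S03602
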