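import Pool.Statements.S03604
import Mathlib

set_option autoImplicit false
open Pool Pool.MP_9251a8_an


namespace Pool.Agent.S03604

section Aux

open MeasureTheory Metric Set Filter Topology


section Calib

variable {n : ℕ}

theorem integral_fderiv_zero {h : EuclideanSpace ℝ (Fin n) → ℝ} (hh : ContDiff ℝ 1 h)
    (hc : HasCompactSupport h) (e : EuclideanSpace ℝ (Fin n)) :
    ∫ x, fderiv ℝ h x e = 0 := by
  have hcont : Continuous (fun x => fderiv ℝ h x e) := by
    have := hh.continuous_fderiv (by simp)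
    fun_prop
  have hcs : HasCompactSupport (fun x => fderiv ℝ h x e) := by
    have h1 : HasCompactSupport (fderiv ℝ h) := hc.fderiv ℝ
    exact h1.comp_left (g := fun A : EuclideanSpace ℝ (Fin n) →L[ℝ] ℝ => A e) (by simp)
  have key := integral_mul_fderiv_eq_neg_fderiv_mul_of_integrable (μ := (volume : Measure (EuclideanSpace ℝ (Fin n))))
    (f := fun _ => (1 : ℝ)) (g := h) (v := e) (𝕜 := ℝ) (by simp)
    (by simpa using hcont.integrable_of_hasCompactSupport hcs)
    (by simpa using hh.continuous.integrable_of_hasCompactSupport hc)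
    (fun x _ => by fun_prop) (fun x _ => hh.differentiable (by simp) x)
  simpa using key

theorem calib {e : EuclideanSpace ℝ (Fin n)} (he : ‖e‖ = 1) {f P : ℝ → ℝ} (hf : Continuous f)
    (hP : Continuous P) {c : ℝ} (hfP : ∀ s, f s ^ 2 / 2 = c - P s)
    {u : EuclideanSpace ℝ (Fin n) → ℝ} (hu1 : ContDiff ℝ 1 u)
    (hu : ∀ x, HasFDerivAt u (f (u x) • innerSL ℝ e) x)
    {φ : EuclideanSpace ℝ (Fin n) → ℝ} (hφ : ContDiff ℝ 1 φ) (hφc : HasCompactSupport φ) :
    0 ≤ ∫ x : EuclideanSpace ℝ (Fin n),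
            (((1 / 2 : ℝ) * ‖fderiv ℝ (fun y => u y + φ y) x‖ ^ 2 - P (u x + φ x))
              - ((1 / 2 : ℝ) * ‖fderiv ℝ u x‖ ^ 2 - P (u x))) := by
  set Φ : ℝ → ℝ := fun s => ∫ r in (0:ℝ)..s, f r with hΦ
  have hΦd : ∀ s, HasDerivAt Φ (f s) s := fun s =>
    intervalIntegral.integral_hasDerivAt_right (hf.intervalIntegrable _ _)
      (hf.stronglyMeasurableAtFilter _ _) hf.continuousAt
  have hΦ1 : ContDiff ℝ 1 Φ := by
    rw [contDiff_one_iff_deriv]
    refine ⟨fun s => (hΦd s).differentiableAt, ?_⟩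
    have : deriv Φ = f := by ext s; exact (hΦd s).deriv
    rw [this]; exact hf
  set v : EuclideanSpace ℝ (Fin n) → ℝ := fun y => u y + φ y with hv
  have hv1 : ContDiff ℝ 1 v := hu1.add hφ
  set h : EuclideanSpace ℝ (Fin n) → ℝ := fun x => Φ (v x) - Φ (u x) with hh
  have hh1 : ContDiff ℝ 1 h := (hΦ1.comp hv1).sub (hΦ1.comp hu1)
  have hhc : HasCompactSupport h := by
    apply hφc.mono
    intro x hx
    rw [Function.mem_support] at hx ⊢
    intro h0
    apply hx
    simp [hh, hv, h0]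
  have hfd : ∀ x, fderiv ℝ h x e = f (v x) * fderiv ℝ v x e - f (u x) * fderiv ℝ u x e := by
    intro x
    have h1 : HasFDerivAt (fun x => Φ (v x)) (f (v x) • fderiv ℝ v x) x :=
      (hΦd (v x)).comp_hasFDerivAt x ((hv1.differentiable (by simp)) x).hasFDerivAt
    have h2 : HasFDerivAt (fun x => Φ (u x)) (f (u x) • fderiv ℝ u x) x :=
      (hΦd (u x)).comp_hasFDerivAt x ((hu1.differentiable (by simp)) x).hasFDerivAt
    have h3 : HasFDerivAt h (f (v x) • fderiv ℝ v x - f (u x) • fderiv ℝ u x) x := h1.sub h2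
    rw [h3.fderiv]
    simp
  have hfu : ∀ x, fderiv ℝ u x = f (u x) • innerSL ℝ e := fun x => (hu x).fderiv
  have hfun : ∀ x, ‖fderiv ℝ u x‖ ^ 2 = f (u x) ^ 2 := by
    intro x
    rw [hfu, norm_smul, innerSL_apply_norm, he, mul_one, Real.norm_eq_abs, sq_abs]
  have hfue : ∀ x, fderiv ℝ u x e = f (u x) := by
    intro x
    rw [hfu]
    simp [he]
  have hcontI : Continuous (fun x => (((1 / 2 : ℝ) * ‖fderiv ℝ v x‖ ^ 2 - P (v x))
              - ((1 / 2 : ℝ) * ‖fderiv ℝ u x‖ ^ 2 - P (u x)))) := by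
    have c1 := hv1.continuous_fderiv (by simp)
    have c2 := hu1.continuous_fderiv (by simp)
    have c3 := hv1.continuous
    have c4 := hu1.continuous
    fun_prop
  have hcsI : HasCompactSupport (fun x => (((1 / 2 : ℝ) * ‖fderiv ℝ v x‖ ^ 2 - P (v x))
              - ((1 / 2 : ℝ) * ‖fderiv ℝ u x‖ ^ 2 - P (u x)))) := by
    apply HasCompactSupport.intro hφc
    intro x hx
    have hev : φ =ᶠ[𝓝 x] 0 := notMem_tsupport_iff_eventuallyEq.mp hx
    have hev2 : v =ᶠ[𝓝 x] u := by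
      filter_upwards [hev] with z hz
      simp [hv, hz]
    rw [hev2.fderiv_eq, hev2.eq_of_nhds]
    ring
  have hcontD : Continuous (fun x => fderiv ℝ h x e) := by
    have := hh1.continuous_fderiv (by simp)
    fun_prop
  have hcsD : HasCompactSupport (fun x => fderiv ℝ h x e) := by
    have h1 : HasCompactSupport (fderiv ℝ h) := hhc.fderiv ℝ
    exact h1.comp_left (g := fun A : EuclideanSpace ℝ (Fin n) →L[ℝ] ℝ => A e) (by simp)
  rw [← integral_fderiv_zero hh1 hhc e]
  apply integral_mono (hcontD.integrable_of_hasCompactSupport hcsD)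
    (hcontI.integrable_of_hasCompactSupport hcsI)
  intro x
  simp only
  rw [hfd, hfun, hfue]
  have h1 : |fderiv ℝ v x e| ≤ ‖fderiv ℝ v x‖ := by
    have := (fderiv ℝ v x).le_opNorm e
    rwa [he, mul_one, Real.norm_eq_abs] at this
  have h2 : (fderiv ℝ v x e) ^ 2 ≤ ‖fderiv ℝ v x‖ ^ 2 := by
    rw [← sq_abs]; gcongr
  have h3 := hfP (v x)
  have h4 := hfP (u x)
  nlinarith [sq_nonneg (fderiv ℝ v x e - f (v x))]

end Calib

section Rot

/-- the square of the field for energy `exp t` -/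
noncomputable def FF (t s : ℝ) : ℝ := Real.sqrt (2 * Real.exp t + Real.sin (Real.pi * s) ^ 4)

theorem FF_arg_pos (t s : ℝ) : 0 < 2 * Real.exp t + Real.sin (Real.pi * s) ^ 4 := by
  have h1 := Real.exp_pos t
  have h2 : 0 ≤ Real.sin (Real.pi * s) ^ 4 := by positivity
  linarith

theorem FF_pos (t s : ℝ) : 0 < FF t s := Real.sqrt_pos.mpr (FF_arg_pos t s)

theorem FF_sq (t s : ℝ) : FF t s ^ 2 = 2 * Real.exp t + Real.sin (Real.pi * s) ^ 4 :=
  Real.sq_sqrt (FF_arg_pos t s).le

theorem FF_cont2 : Continuous (fun p : ℝ × ℝ => FF p.1 p.2) := by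
  unfold FF; fun_prop

theorem FF_cont (t : ℝ) : Continuous (FF t) := by
  unfold FF; fun_prop

theorem FF_contDiff (t : ℝ) : ContDiff ℝ 1 (FF t) := by
  unfold FF
  apply ContDiff.sqrt
  · fun_prop
  · intro s; exact (FF_arg_pos t s).ne'

theorem FF_periodic (t : ℝ) : Function.Periodic (FF t) 1 := by
  intro s
  unfold FF
  rw [mul_add, mul_one, Real.sin_add_pi]
  congr 2
  ring

theorem FFinv_cont (t : ℝ) : Continuous (fun s => (FF t s)⁻¹) :=
  (FF_cont t).inv₀ (fun s => (FF_pos t s).ne')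

/-- time function -/
noncomputable def TH (t s : ℝ) : ℝ := ∫ r in (0:ℝ)..s, (FF t r)⁻¹

/-- the period -/
noncomputable def TT (t : ℝ) : ℝ := TH t 1

theorem TT_cont : Continuous TT := by
  unfold TT TH
  apply intervalIntegral.continuous_parametric_intervalIntegral_of_continuous'
  apply Continuous.inv₀
  · exact FF_cont2
  · intro p; exact (FF_pos _ _).ne'

theorem TT_le (t : ℝ) : TT t ≤ (Real.sqrt (2 * Real.exp t))⁻¹ := by
  have h1 : TT t ≤ ∫ r in (0:ℝ)..1, (Real.sqrt (2 * Real.exp t))⁻¹ := by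
    apply intervalIntegral.integral_mono_on (by norm_num) ((FFinv_cont t).intervalIntegrable _ _)
      (by simp)
    intro x _
    apply inv_anti₀
    · have := Real.exp_pos t
      positivity
    · unfold FF
      apply Real.sqrt_le_sqrt
      have : 0 ≤ Real.sin (Real.pi * x) ^ 4 := by positivity
      linarith
  simpa using h1

theorem TT_ge {η : ℝ} (h0 : 0 < η) (h1 : η ≤ 1) :
    ((1 + Real.pi ^ 2) * η)⁻¹ ≤ TT (Real.log (η ^ 4 / 2)) := by
  set t := Real.log (η ^ 4 / 2) with ht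
  have he : 2 * Real.exp t = η ^ 4 := by
    rw [ht, Real.exp_log (by positivity)]; ring
  have hpi := Real.pi_pos
  have hle : ∀ r ∈ Icc (0:ℝ) η, ((1 + Real.pi ^ 2) * η ^ 2)⁻¹ ≤ (FF t r)⁻¹ := by
    intro r hr
    apply inv_anti₀ (FF_pos t r)
    unfold FF
    rw [he]
    apply Real.sqrt_le_iff.mpr
    refine ⟨by positivity, ?_⟩
    have hs1 : |Real.sin (Real.pi * r)| ≤ Real.pi * η := by
      refine (Real.abs_sin_le_abs).trans ?_
      rw [abs_of_nonneg (by have := hr.1; positivity)]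
      exact mul_le_mul_of_nonneg_left hr.2 hpi.le
    have hs2 : Real.sin (Real.pi * r) ^ 4 ≤ (Real.pi * η) ^ 4 := by
      rw [← (show |Real.sin (Real.pi * r)| ^ 4 = Real.sin (Real.pi * r) ^ 4 from
        Even.pow_abs (by decide) _)]
      gcongr
    have : 0 ≤ 2 * Real.pi ^ 2 * η ^ 4 := by positivity
    nlinarith
  have e1 : TT t = (∫ r in (0:ℝ)..η, (FF t r)⁻¹) + ∫ r in η..1, (FF t r)⁻¹ :=
    (intervalIntegral.integral_add_adjacent_intervals ((FFinv_cont t).intervalIntegrable _ _)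
      ((FFinv_cont t).intervalIntegrable _ _)).symm
  have e2 : 0 ≤ ∫ r in η..1, (FF t r)⁻¹ :=
    intervalIntegral.integral_nonneg h1 (fun r _ => (inv_pos.mpr (FF_pos t r)).le)
  have e3 : ∫ r in (0:ℝ)..η, ((1 + Real.pi ^ 2) * η ^ 2)⁻¹ ≤ ∫ r in (0:ℝ)..η, (FF t r)⁻¹ := by
    apply intervalIntegral.integral_mono_on h0.le (by simp) ((FFinv_cont t).intervalIntegrable _ _)
    exact hle
  rw [intervalIntegral.integral_const, sub_zero, smul_eq_mul] at e3
  have e4 : ((1 + Real.pi ^ 2) * η)⁻¹ = η * ((1 + Real.pi ^ 2) * η ^ 2)⁻¹ := by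
    field_simp
  rw [e4, e1]
  linarith

theorem exists_TT {τ : ℝ} (hτ : 0 < τ) : ∃ t, TT t = τ := by
  have hpi := Real.pi_pos
  apply mem_range_of_exists_le_of_exists_ge TT_cont
  · refine ⟨Real.log (1 / (2 * τ ^ 2)), (TT_le _).trans ?_⟩
    rw [Real.exp_log (by positivity)]
    have : 2 * (1 / (2 * τ ^ 2)) = (τ⁻¹) ^ 2 := by field_simp
    rw [this, Real.sqrt_sq (by positivity), inv_inv]
  · set η := min 1 (((1 + Real.pi ^ 2) * τ)⁻¹) with hη
    have h0 : 0 < η := lt_min one_pos (by positivity)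
    refine ⟨Real.log (η ^ 4 / 2), le_trans ?_ (TT_ge h0 (min_le_left _ _))⟩
    rw [le_inv_comm₀ hτ (by positivity)]
    have : η ≤ ((1 + Real.pi ^ 2) * τ)⁻¹ := min_le_right _ _
    calc (1 + Real.pi ^ 2) * η ≤ (1 + Real.pi ^ 2) * ((1 + Real.pi ^ 2) * τ)⁻¹ := by gcongr
      _ = τ⁻¹ := by field_simp

theorem TH_deriv (t s : ℝ) : HasDerivAt (TH t) (FF t s)⁻¹ s :=
  intervalIntegral.integral_hasDerivAt_right ((FFinv_cont t).intervalIntegrable _ _)
      ((FFinv_cont t).stronglyMeasurableAtFilter _ _) (FFinv_cont t).continuousAt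

theorem TH_strictMono (t : ℝ) : StrictMono (TH t) := by
  apply strictMono_of_deriv_pos
  intro s
  rw [(TH_deriv t s).deriv]
  exact inv_pos.mpr (FF_pos t s)

theorem TH_add_one (t s : ℝ) : TH t (s + 1) = TH t s + TT t := by
  have hper : Function.Periodic (fun s => (FF t s)⁻¹) 1 := fun s => by
    simp only [FF_periodic t s]
  have h1 := hper.intervalIntegral_add_eq s 0
  rw [zero_add] at h1
  unfold TT TH
  rw [← h1]
  exact (intervalIntegral.integral_add_adjacent_intervals ((FFinv_cont t).intervalIntegrable _ _)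
      ((FFinv_cont t).intervalIntegrable _ _)).symm

theorem TH_cont (t : ℝ) : Continuous (TH t) :=
  continuous_iff_continuousAt.mpr fun s => (TH_deriv t s).continuousAt

theorem TH_bdd (t : ℝ) : ∃ M : ℝ, ∀ s, |TH t s - TT t * s| ≤ M := by
  have hper : Function.Periodic (fun s => TH t s - TT t * s) 1 := by
    intro s
    simp only [TH_add_one]
    ring
  have hc : Continuous (fun s => TH t s - TT t * s) := by
    have := TH_cont t
    fun_prop
  obtain ⟨M, hM⟩ := (isCompact_Icc (a := (0:ℝ)) (b := 1)).exists_bound_of_continuousOn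
    (f := fun s => TH t s - TT t * s) hc.continuousOn
  refine ⟨M, fun s => ?_⟩
  obtain ⟨s', hs', he⟩ := hper.exists_mem_Ico₀ one_pos s
  have h2 := hM s' ⟨hs'.1, hs'.2.le⟩
  have he' : TH t s - TT t * s = TH t s' - TT t * s' := he
  rw [he']
  simpa using h2

theorem TT_pos (t : ℝ) : 0 < TT t := by
  have h := TH_strictMono t (zero_lt_one)
  have h0 : TH t 0 = 0 := by simp [TH]
  rw [h0] at h
  exact h

theorem TH_surj (t : ℝ) : Function.Surjective (TH t) := by
  obtain ⟨M, hM⟩ := TH_bdd t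
  have hT := TT_pos t
  apply (TH_cont t).surjective
  · refine tendsto_atTop_mono (fun s => ?_) ((tendsto_id.const_mul_atTop hT).atTop_add
      (tendsto_const_nhds (x := -M)))
    have := (abs_le.mp (hM s)).1
    simp only [id]
    linarith
  · refine tendsto_atBot_mono (fun s => ?_) ((tendsto_id.const_mul_atBot hT).atBot_add
      (tendsto_const_nhds (x := M)))
    have := (abs_le.mp (hM s)).2
    simp only [id]
    linarith

/-- existence of the rotating profile -/
theorem exists_profile (t : ℝ) : ∃ p : ℝ → ℝ, ContDiff ℝ 2 p ∧ (∀ s, HasDerivAt p (FF t (p s)) s) ∧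
    (∀ s, p (TH t s) = s) ∧ (∀ s, TH t (p s) = s) := by
  set o := (TH_strictMono t).orderIsoOfSurjective (TH t) (TH_surj t) with ho
  set p : ℝ → ℝ := fun s => o.symm s with hp
  have h1 : ∀ s, p (TH t s) = s := fun s => o.symm_apply_apply s
  have h2 : ∀ s, TH t (p s) = s := fun s => o.apply_symm_apply s
  have hpc : Continuous p := o.symm.continuous
  have hd : ∀ s, HasDerivAt p (FF t (p s)) s := by
    intro s
    have := HasDerivAt.of_local_left_inverse (f := TH t) (g := p) (a := s) hpc.continuousAt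
      (TH_deriv t (p s)) (inv_ne_zero (FF_pos t (p s)).ne') (Eventually.of_forall h2)
    rwa [inv_inv] at this
  have hder : deriv p = fun s => FF t (p s) := by ext s; exact (hd s).deriv
  have hp1 : ContDiff ℝ 1 p := by
    rw [contDiff_one_iff_deriv]
    refine ⟨fun s => (hd s).differentiableAt, ?_⟩
    rw [hder]
    exact (FF_cont t).comp hpc
  have hp2 : ContDiff ℝ 2 p := by
    have : (2 : WithTop ℕ∞) = 1 + 1 := by norm_num
    rw [this, contDiff_succ_iff_deriv]
    refine ⟨fun s => (hd s).differentiableAt, by simp, ?_⟩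
    rw [hder]
    exact (FF_contDiff t).comp hp1
  exact ⟨p, hp2, hd, h1, h2⟩

end Rot

section Families

variable {n : ℕ}

/-- the potential -/
noncomputable def PP (s : ℝ) : ℝ := -(Real.sin (Real.pi * s) ^ 4) / 2

theorem PP_cont : Continuous PP := by unfold PP; fun_prop

/-- property of a minimal foliation of slope `α` for the potential `V` -/
def IsFol (V : ℝ → EuclideanSpace ℝ (Fin n) → ℝ) (α : EuclideanSpace ℝ (Fin n))
    (F : Set (EuclideanSpace ℝ (Fin n) → ℝ)) : Prop :=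
      (∀ u ∈ F, ContDiff ℝ 2 u ∧
        (∃ C : ℝ, ∀ x : EuclideanSpace ℝ (Fin n), |u x - inner ℝ α x| ≤ C) ∧
        ∀ φ : EuclideanSpace ℝ (Fin n) → ℝ, ContDiff ℝ 1 φ → HasCompactSupport φ →
          0 ≤ ∫ x : EuclideanSpace ℝ (Fin n),
            (((1 / 2 : ℝ) * ‖fderiv ℝ (fun y => u y + φ y) x‖ ^ 2 - V (u x + φ x) x)
              - ((1 / 2 : ℝ) * ‖fderiv ℝ u x‖ ^ 2 - V (u x) x))) ∧
      (∀ x : EuclideanSpace ℝ (Fin n), ∀ t : ℝ, ∃! u, u ∈ F ∧ u x = t) ∧
      (∀ u ∈ F, ∀ i : Fin n,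
        (fun x => u (x + EuclideanSpace.single i (1 : ℝ))) ∈ F ∧
        (fun x => u (x - EuclideanSpace.single i (1 : ℝ))) ∈ F) ∧
      (∀ u ∈ F, (fun x => u x + 1) ∈ F ∧ (fun x => u x - 1) ∈ F)

theorem exists_fol_ne {α : EuclideanSpace ℝ (Fin n)} (hα : α ≠ 0) :
    ∃ F, IsFol (fun s _ => PP s) α F := by
  have hα' : 0 < ‖α‖ := norm_pos_iff.mpr hα
  obtain ⟨t, ht⟩ := exists_TT (inv_pos.mpr hα')
  obtain ⟨p, hp2, hd, h1, h2⟩ := exists_profile t
  obtain ⟨M, hM⟩ := TH_bdd t
  set e : EuclideanSpace ℝ (Fin n) := ‖α‖⁻¹ • α with he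
  have he1 : ‖e‖ = 1 := by rw [he, norm_smul, norm_inv, norm_norm, inv_mul_cancel₀ hα'.ne']
  have hαe : ∀ x, inner ℝ α x = ‖α‖ * inner ℝ e x := by
    intro x
    rw [he, inner_smul_left]
    simp only [conj_trivial]
    rw [← mul_assoc, mul_inv_cancel₀ hα'.ne', one_mul]
  have hp1 : ∀ s, p s + 1 = p (s + TT t) := by
    intro s
    have h3 : TH t (p s + 1) = s + TT t := by rw [TH_add_one, h2]
    rw [← h3, h1]
  have hpm : ∀ s, p s - 1 = p (s - TT t) := by
    intro s
    have h3 := hp1 (s - TT t)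
    rw [sub_add_cancel] at h3
    linarith
  set F : Set (EuclideanSpace ℝ (Fin n) → ℝ) :=
    Set.range (fun c : ℝ => fun x : EuclideanSpace ℝ (Fin n) => p (inner ℝ e x + c)) with hF
  refine ⟨F, ?_, ?_, ?_, ?_⟩
  · rintro u ⟨c, rfl⟩
    have hu2 : ContDiff ℝ 2 (fun x : EuclideanSpace ℝ (Fin n) => p (inner ℝ e x + c)) := by
      apply hp2.comp
      exact (contDiff_const.inner ℝ contDiff_id).add contDiff_const
    refine ⟨hu2, ⟨(M + |c|) * ‖α‖, fun x => ?_⟩, ?_⟩
    · simp only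
      rw [hαe]
      set σ := inner ℝ e x with hσ
      have h3 := hM (p (σ + c))
      rw [h2, ht] at h3
      have h4 : p (σ + c) - ‖α‖ * σ = -((σ + c) - ‖α‖⁻¹ * p (σ + c)) * ‖α‖ + c * ‖α‖ := by
        field_simp
        ring
      rw [h4]
      refine (abs_add_le _ _).trans ?_
      rw [abs_mul, abs_mul, abs_neg, abs_norm, add_mul]
      gcongr
    · intro φ hφ hφc
      apply calib he1 (FF_cont t) PP_cont (c := Real.exp t) _ (hu2.of_le (by norm_num)) _ hφ hφc
      · intro s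
        rw [FF_sq, PP]
        ring
      · intro x
        have h5 : HasFDerivAt (fun x : EuclideanSpace ℝ (Fin n) => inner ℝ e x + c) (innerSL ℝ e) x := by
          have := (innerSL ℝ e).hasFDerivAt (x := x)
          exact this.add_const c
        exact (hd (inner ℝ e x + c)).comp_hasFDerivAt x h5
  · intro x s
    refine ⟨fun z => p (inner ℝ e z + (TH t s - inner ℝ e x)), ⟨⟨_, rfl⟩, ?_⟩, ?_⟩
    · simp only
      rw [add_sub_cancel, h1]
    · rintro u ⟨⟨c, rfl⟩, hc⟩
      simp only at hc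
      have : c = TH t s - inner ℝ e x := by
        rw [← hc, h2]; ring
      rw [this]
  · rintro u ⟨c, rfl⟩ i
    constructor
    · refine ⟨inner ℝ e (EuclideanSpace.single i (1 : ℝ)) + c, ?_⟩
      ext x
      simp only [inner_add_right]
      congr 1
      ring
    · refine ⟨-inner ℝ e (EuclideanSpace.single i (1 : ℝ)) + c, ?_⟩
      ext x
      simp only [inner_sub_right]
      congr 1
      ring
  · rintro u ⟨c, rfl⟩
    constructor
    · refine ⟨c + TT t, ?_⟩
      ext x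
      simp only
      rw [hp1]
      congr 1
      ring
    · refine ⟨c - TT t, ?_⟩
      ext x
      simp only
      rw [hpm]
      congr 1
      ring

/-- the heteroclinic profile -/
noncomputable def HH (k : ℤ) (s : ℝ) : ℝ := k + 1 / 2 + Real.arctan (Real.pi * s) / Real.pi

theorem sin_HH (k : ℤ) (s : ℝ) :
    Real.sin (Real.pi * HH k s) ^ 2 = 1 / (1 + (Real.pi * s) ^ 2) := by
  have hpi := Real.pi_pos
  have h1 : Real.pi * HH k s = (Real.arctan (Real.pi * s) + Real.pi / 2) + k * Real.pi := by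
    unfold HH; field_simp; ring
  rw [h1, Real.sin_add_int_mul_pi, Real.sin_add_pi_div_two, mul_pow, ← Real.cos_sq_arctan]
  have : ((-1 : ℝ) ^ k) ^ 2 = 1 := by
    rw [← zpow_natCast, ← zpow_mul, mul_comm, zpow_mul]
    norm_num
  rw [this, one_mul]

theorem HH_deriv (k : ℤ) (s : ℝ) :
    HasDerivAt (HH k) (Real.sin (Real.pi * HH k s) ^ 2) s := by
  have hpi := Real.pi_pos
  rw [sin_HH]
  have h1 : HasDerivAt (fun s => Real.pi * s) Real.pi s := by
    simpa using (hasDerivAt_id s).const_mul Real.pi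
  have h2 := ((Real.hasDerivAt_arctan (Real.pi * s)).comp s h1).div_const Real.pi
  have h3 := h2.const_add ((k : ℝ) + 1 / 2)
  have h4 : 1 / (1 + (Real.pi * s) ^ 2) * Real.pi / Real.pi = 1 / (1 + (Real.pi * s) ^ 2) := by
    field_simp
  rw [h4] at h3
  exact h3

theorem HH_mem (k : ℤ) (s : ℝ) : (k : ℝ) < HH k s ∧ HH k s < k + 1 := by
  have hpi := Real.pi_pos
  have h1 := Real.neg_pi_div_two_lt_arctan (Real.pi * s)
  have h2 := Real.arctan_lt_pi_div_two (Real.pi * s)
  have h3 : -(1 / 2) < Real.arctan (Real.pi * s) / Real.pi := by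
    rw [lt_div_iff₀ hpi]; linarith
  have h4 : Real.arctan (Real.pi * s) / Real.pi < 1 / 2 := by
    rw [div_lt_iff₀ hpi]; linarith
  unfold HH
  constructor <;> linarith

theorem HH_surj (k : ℤ) {t : ℝ} (h1 : (k : ℝ) < t) (h2 : t < k + 1) : ∃ s, HH k s = t := by
  have hpi := Real.pi_pos
  refine ⟨Real.tan (Real.pi * (t - k - 1 / 2)) / Real.pi, ?_⟩
  unfold HH
  rw [mul_div_cancel₀ _ hpi.ne', Real.arctan_tan]
  · field_simp; ring
  · nlinarith
  · nlinarith

theorem HH_inj (k : ℤ) : Function.Injective (HH k) := by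
  intro a b hab
  have hpi := Real.pi_pos
  unfold HH at hab
  have h1 : Real.arctan (Real.pi * a) / Real.pi = Real.arctan (Real.pi * b) / Real.pi := by linarith
  have h2 : Real.arctan (Real.pi * a) = Real.arctan (Real.pi * b) := by
    field_simp at h1; exact h1
  have h3 := Real.arctan_injective h2
  exact mul_left_cancel₀ hpi.ne' h3

theorem exists_fol_zero {e : EuclideanSpace ℝ (Fin n)} (he : ‖e‖ = 1) :
    ∃ F, IsFol (fun s _ => PP s) (0 : EuclideanSpace ℝ (Fin n)) F := by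
  have hpi := Real.pi_pos
  set F : Set (EuclideanSpace ℝ (Fin n) → ℝ) :=
    Set.range (fun k : ℤ => fun _ : EuclideanSpace ℝ (Fin n) => (k : ℝ)) ∪
    Set.range (fun q : ℤ × ℝ => fun x : EuclideanSpace ℝ (Fin n) => HH q.1 (inner ℝ e x + q.2))
    with hF
  have hfc : Continuous (fun s : ℝ => Real.sin (Real.pi * s) ^ 2) := by fun_prop
  have hfP : ∀ s : ℝ, (Real.sin (Real.pi * s) ^ 2) ^ 2 / 2 = 0 - PP s := by
    intro s; unfold PP; ring
  have hint : ∀ k : ℤ, Real.sin (Real.pi * (k : ℝ)) = 0 := by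
    intro k; rw [mul_comm]; exact Real.sin_int_mul_pi k
  have hHc : ∀ k, ContDiff ℝ 2 (HH k) := by
    intro k
    unfold HH
    have h0 : ContDiff ℝ 2 (fun s : ℝ => Real.pi * s) := by fun_prop
    have h1 : ContDiff ℝ 2 (fun s : ℝ => Real.arctan (Real.pi * s)) := h0.arctan
    exact contDiff_const.add (h1.div_const _)
  refine ⟨F, ?_, ?_, ?_, ?_⟩
  · rintro u (⟨k, rfl⟩ | ⟨⟨k, c⟩, rfl⟩)
    · refine ⟨contDiff_const, ⟨|(k : ℝ)|, fun x => by simp⟩, ?_⟩
      intro φ hφ hφc
      apply calib he hfc PP_cont (c := 0) hfP contDiff_const _ hφ hφc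
      intro x
      simp only [hint]
      have h9 : HasFDerivAt (fun _ : EuclideanSpace ℝ (Fin n) => (k : ℝ))
          (0 : EuclideanSpace ℝ (Fin n) →L[ℝ] ℝ) x := hasFDerivAt_const (k : ℝ) x
      have h10 : ((0 : ℝ) ^ 2) • innerSL ℝ e = (0 : EuclideanSpace ℝ (Fin n) →L[ℝ] ℝ) := by simp
      rw [h10]
      exact h9
    · have hu2 : ContDiff ℝ 2 (fun x : EuclideanSpace ℝ (Fin n) => HH k (inner ℝ e x + c)) := by
        apply (hHc k).comp
        exact (contDiff_const.inner ℝ contDiff_id).add contDiff_const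
      refine ⟨hu2, ⟨|(k : ℝ)| + 1, fun x => ?_⟩, ?_⟩
      · simp only [inner_zero_left, sub_zero]
        have h3 := HH_mem k (inner ℝ e x + c)
        have h4 := neg_abs_le (k : ℝ)
        have h5 := le_abs_self (k : ℝ)
        rw [abs_le]
        constructor <;> linarith [h3.1, h3.2]
      · intro φ hφ hφc
        apply calib he hfc PP_cont (c := 0) hfP (hu2.of_le (by norm_num)) _ hφ hφc
        intro x
        have h5 : HasFDerivAt (fun x : EuclideanSpace ℝ (Fin n) => inner ℝ e x + c) (innerSL ℝ e) x := by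
          have := (innerSL ℝ e).hasFDerivAt (x := x)
          exact this.add_const c
        exact HasDerivAt.comp_hasFDerivAt (h₂ := HH k)
          (f := fun x : EuclideanSpace ℝ (Fin n) => inner ℝ e x + c) x
          (HH_deriv k (inner ℝ e x + c)) h5
  · intro x s
    by_cases hs : (⌊s⌋ : ℝ) = s
    · refine ⟨fun _ => (⌊s⌋ : ℝ), ⟨Or.inl ⟨⌊s⌋, rfl⟩, hs⟩, ?_⟩
      rintro u ⟨⟨k, rfl⟩ | ⟨⟨k, c⟩, rfl⟩, hu⟩
      · simp only at hu
        ext z
        simp only
        rw [hu, hs]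
      · exfalso
        simp only at hu
        have h3 := HH_mem k (inner ℝ e x + c)
        rw [hu, ← hs] at h3
        have h4 : k < ⌊s⌋ := by exact_mod_cast h3.1
        have h5 : ⌊s⌋ < k + 1 := by exact_mod_cast h3.2
        omega
    · have h3 : (⌊s⌋ : ℝ) < s := lt_of_le_of_ne (Int.floor_le s) hs
      have h4 : s < ⌊s⌋ + 1 := Int.lt_floor_add_one s
      obtain ⟨a, ha⟩ := HH_surj ⌊s⌋ h3 h4
      refine ⟨fun z => HH ⌊s⌋ (inner ℝ e z + (a - inner ℝ e x)),
        ⟨Or.inr ⟨(⌊s⌋, a - inner ℝ e x), rfl⟩, ?_⟩, ?_⟩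
      · simp only
        rw [add_sub_cancel, ha]
      · rintro u ⟨⟨k, rfl⟩ | ⟨⟨k, c⟩, rfl⟩, hu⟩
        · exfalso
          simp only at hu
          apply hs
          rw [← hu, Int.floor_intCast]
        · simp only at hu
          have h5 := HH_mem k (inner ℝ e x + c)
          rw [hu] at h5
          have h6 : ⌊s⌋ = k := Int.floor_eq_iff.mpr ⟨h5.1.le, h5.2⟩
          subst h6
          have h7 := HH_inj _ (hu.trans ha.symm)
          have h8 : c = a - inner ℝ e x := by linarith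
          simp only [h8]
  · rintro u (⟨k, rfl⟩ | ⟨⟨k, c⟩, rfl⟩) i
    · exact ⟨Or.inl ⟨k, rfl⟩, Or.inl ⟨k, rfl⟩⟩
    · constructor
      · refine Or.inr ⟨(k, inner ℝ e (EuclideanSpace.single i (1 : ℝ)) + c), ?_⟩
        ext x
        simp only [inner_add_right]
        congr 1
        ring
      · refine Or.inr ⟨(k, -inner ℝ e (EuclideanSpace.single i (1 : ℝ)) + c), ?_⟩
        ext x
        simp only [inner_sub_right]
        congr 1
        ring
  · rintro u (⟨k, rfl⟩ | ⟨⟨k, c⟩, rfl⟩)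
    · refine ⟨Or.inl ⟨k + 1, ?_⟩, Or.inl ⟨k - 1, ?_⟩⟩
      · ext x; simp
      · ext x; simp
    · refine ⟨Or.inr ⟨(k + 1, c), ?_⟩, Or.inr ⟨(k - 1, c), ?_⟩⟩
      · ext x; simp only [HH]; push_cast; ring
      · ext x; simp only [HH]; push_cast; ring

theorem exists_fol (hn : 1 ≤ n) (α : EuclideanSpace ℝ (Fin n)) :
    ∃ F, IsFol (fun s _ => PP s) α F := by
  by_cases hα : α = 0
  · subst hα
    exact exists_fol_zero (e := EuclideanSpace.single (⟨0, hn⟩ : Fin n) (1 : ℝ)) (by simp)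
  · exact exists_fol_ne hα

theorem PP_contDiff : ContDiff ℝ ((⊤ : ℕ∞) : WithTop ℕ∞)
      (fun p : ℝ × EuclideanSpace ℝ (Fin n) => PP p.1) := by
  unfold PP
  fun_prop

theorem PP_periodic (s : ℝ) : PP (s + 1) = PP s := by
  unfold PP
  rw [mul_add, mul_one, Real.sin_add_pi]
  ring

theorem PP_ne : PP 0 ≠ PP (1 / 2) := by
  unfold PP
  have : Real.pi * (1 / 2) = Real.pi / 2 := by ring
  rw [this, Real.sin_pi_div_two, mul_zero, Real.sin_zero]
  norm_num

end Families

end Aux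

/-- The negation of the preceding statement: For smooth V on ℝ×ℝⁿ, 1-periodic in all variables: if every slope α admits a translation-invariant family of action-minimizing solutions with u−α·x bounded, exactly one graph through each point, then V is independent of u. -/
theorem result :
    ¬ (∀ n : ℕ, 1 ≤ n → ∀ V : ℝ → EuclideanSpace ℝ (Fin n) → ℝ,
    ContDiff ℝ ((⊤ : ℕ∞) : WithTop ℕ∞)
      (fun p : ℝ × EuclideanSpace ℝ (Fin n) => V p.1 p.2) →
    (∀ s : ℝ, ∀ x : EuclideanSpace ℝ (Fin n), V (s + 1) x = V s x) →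
    (∀ i : Fin n, ∀ s : ℝ, ∀ x : EuclideanSpace ℝ (Fin n),
      V s (x + EuclideanSpace.single i (1 : ℝ)) = V s x) →
    (∀ α : EuclideanSpace ℝ (Fin n), ∃ F : Set (EuclideanSpace ℝ (Fin n) → ℝ),
      (∀ u ∈ F, ContDiff ℝ 2 u ∧
        (∃ C : ℝ, ∀ x : EuclideanSpace ℝ (Fin n), |u x - inner ℝ α x| ≤ C) ∧
        ∀ φ : EuclideanSpace ℝ (Fin n) → ℝ, ContDiff ℝ 1 φ → HasCompactSupport φ →
          0 ≤ ∫ x : EuclideanSpace ℝ (Fin n),
            (((1 / 2 : ℝ) * ‖fderiv ℝ (fun y => u y + φ y) x‖ ^ 2 - V (u x + φ x) x)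
              - ((1 / 2 : ℝ) * ‖fderiv ℝ u x‖ ^ 2 - V (u x) x))) ∧
      (∀ x : EuclideanSpace ℝ (Fin n), ∀ t : ℝ, ∃! u, u ∈ F ∧ u x = t) ∧
      (∀ u ∈ F, ∀ i : Fin n,
        (fun x => u (x + EuclideanSpace.single i (1 : ℝ))) ∈ F ∧
        (fun x => u (x - EuclideanSpace.single i (1 : ℝ))) ∈ F) ∧
      (∀ u ∈ F, (fun x => u x + 1) ∈ F ∧ (fun x => u x - 1) ∈ F)) →
    ∀ s t : ℝ, ∀ x : EuclideanSpace ℝ (Fin n), V s x = V t x) := by
  intro h
  have h1 := h 1 le_rfl (fun s _ => PP s) PP_contDiff (fun s _ => PP_periodic s)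
    (fun _ _ _ => rfl) (fun α => exists_fol le_rfl α)
  exact PP_ne (h1 0 (1 / 2) 0)

end Pool.Agent.S03604
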