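import Mathlib

set_option autoImplicit false

namespace Pool.Agent.SendovHull

/-- Bernoulli: `1 - R^n ≤ n (1-R)`. -/
lemma bern (R : ℝ) (h0 : 0 ≤ R) (n : ℕ) : 1 - R ^ n ≤ n * (1 - R) := by
  have h := one_add_mul_le_pow (a := R - 1) (by linarith) n
  have e : (1 + (R - 1)) = R := by ring
  rw [e] at h
  nlinarith

/-- `m (1 - R^(m+k)) ≤ (m+k) (1 - R^m)`. -/
lemma ratio_le (R : ℝ) (h0 : 0 ≤ R) (h1 : R ≤ 1) (m k : ℕ) :
    (m : ℝ) * (1 - R ^ (m + k)) ≤ (m + k : ℝ) * (1 - R ^ m) := by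
  have hk := bern R h0 k
  have hRm : 0 ≤ R ^ m := pow_nonneg h0 m
  -- m (1-R) R^m ≤ 1 - R^m
  have h2 : (m : ℝ) * (1 - R) * R ^ m ≤ 1 - R ^ m := by
    have hb := one_add_mul_le_pow (a := 1 - R) (by linarith) m
    have h3 : R ^ m * (1 + (1 - R)) ^ m ≤ 1 := by
      rw [← mul_pow]
      apply pow_le_one₀
      · nlinarith
      · nlinarith [sq_nonneg (1 - R)]
    nlinarith [mul_le_mul_of_nonneg_left hb hRm]
  have h4 : (1 : ℝ) - R ^ (m + k) = (1 - R ^ m) + R ^ m * (1 - R ^ k) := by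
    rw [pow_add]; ring
  rw [h4]
  have h5 : R ^ m * (1 - R ^ k) ≤ R ^ m * (k * (1 - R)) := mul_le_mul_of_nonneg_left hk hRm
  have hm : (0 : ℝ) ≤ m := Nat.cast_nonneg m
  have hk0 : (0 : ℝ) ≤ k := Nat.cast_nonneg k
  have h6 : (m : ℝ) * (R ^ m * (1 - R ^ k)) ≤ m * (R ^ m * (k * (1 - R))) :=
    mul_le_mul_of_nonneg_left h5 hm
  have h7 : (k : ℝ) * (m * (1 - R) * R ^ m) ≤ k * (1 - R ^ m) := mul_le_mul_of_nonneg_left h2 hk0
  nlinarith

/-- `2 (1 - R^n) ≤ n (1 - R^2)` for `n ≥ 2`. -/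
lemma two_le (R : ℝ) (h0 : 0 ≤ R) (h1 : R ≤ 1) (n : ℕ) (hn : 2 ≤ n) :
    2 * (1 - R ^ n) ≤ n * (1 - R ^ 2) := by
  induction n, hn using Nat.le_induction with
  | base => norm_num
  | succ n hn ih =>
    have hR : R ^ n ≤ R := by
      calc R ^ n ≤ R ^ 1 := pow_le_pow_of_le_one h0 h1 (by omega)
        _ = R := pow_one R
    have hRn : 0 ≤ R ^ n := pow_nonneg h0 n
    push_cast
    rw [pow_succ]
    nlinarith

lemma P1 (K s y : ℝ) (hK : 1 ≤ K) (hs : K + 1 ≤ s) (hy : 1 ≤ (s + 1) * y) :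
    0 ≤ K * s * y ^ 2 + s * (s - 3 * K) * y + (2 * K ^ 2 + 2 * K - s) := by
  rcases le_total (3 * K) s with h | h
  · -- derivative nonnegative
    have hs1 : (0 : ℝ) < s + 1 := by linarith
    obtain ⟨y0, hy0⟩ : ∃ y0 : ℝ, y0 = 1 / (s + 1) := ⟨_, rfl⟩
    have hy0' : (s + 1) * y0 = 1 := by rw [hy0]; field_simp
    have hy0p : 0 < y0 := by rw [hy0]; positivity
    have hyy : y0 ≤ y := by
      by_contra hlt
      push Not at hlt
      nlinarith
    have h1 : K * s * y ^ 2 + s * (s - 3 * K) * y + (2 * K ^ 2 + 2 * K - s)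
        = (y - y0) * (s * (s - 3 * K) + K * s * (y + y0))
          + (K * s * y0 ^ 2 + s * (s - 3 * K) * y0 + (2 * K ^ 2 + 2 * K - s)) := by ring
    have h2 : K * s * y0 ^ 2 + s * (s - 3 * K) * y0 + (2 * K ^ 2 + 2 * K - s)
        = K * s * y0 ^ 2 + (2 * K + 1) * (K - 1) + y0 + 3 * K * y0 := by
      have : s * y0 = 1 - y0 := by linarith
      have h3 : s * (s - 3 * K) * y0 = (s - 3 * K) * (1 - y0) := by rw [← this]; ring
      rw [h3]
      have h4 : (s - 3 * K) * (1 - y0) = s - 3 * K - s * y0 + 3 * K * y0 := by ring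
      rw [h4, this]; ring
    rw [h1, h2]
    have h5 : 0 ≤ (y - y0) * (s * (s - 3 * K) + K * s * (y + y0)) := by
      apply mul_nonneg (by linarith)
      have : 0 ≤ s * (s - 3 * K) := mul_nonneg (by linarith) (by linarith)
      have : 0 ≤ K * s * (y + y0) := by
        apply mul_nonneg (mul_nonneg (by linarith) (by linarith)) (by linarith)
      linarith
    have h6 : 0 ≤ (2 * K + 1) * (K - 1) := mul_nonneg (by linarith) (by linarith)
    have h7 : 0 ≤ K * s * y0 ^ 2 := by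
      apply mul_nonneg (mul_nonneg (by linarith) (by linarith)) (sq_nonneg _)
    have h8 : 0 ≤ 3 * K * y0 := by
      apply mul_nonneg (by linarith) hy0p.le
    linarith
  · have hK0 : 0 < K := by linarith
    have e : 4 * K * (K * s * y ^ 2 + s * (s - 3 * K) * y + (2 * K ^ 2 + 2 * K - s))
        = s * (2 * K * y - (3 * K - s)) ^ 2 + (s - K) ^ 2 * (4 * K - s)
          + 4 * K * (K ^ 2 + 2 * K - s) := by ring
    have h1 : 0 ≤ s * (2 * K * y - (3 * K - s)) ^ 2 := mul_nonneg (by linarith) (sq_nonneg _)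
    have h2 : 0 ≤ (s - K) ^ 2 * (4 * K - s) := mul_nonneg (sq_nonneg _) (by linarith)
    have h3 : 0 ≤ 4 * K * (K ^ 2 + 2 * K - s) := by
      apply mul_nonneg (by linarith)
      nlinarith
    have h4 : 0 ≤ 4 * K * (K * s * y ^ 2 + s * (s - 3 * K) * y + (2 * K ^ 2 + 2 * K - s)) := by
      rw [e]; linarith
    exact nonneg_of_mul_nonneg_right h4 (by linarith)

/-- The key inequality with `K = k - 1 ≥ 1`, `s = n - 1`, `m = s - K`. -/
lemma Q1K (K s R X E : ℝ) (hK : 1 ≤ K) (hs : K + 1 ≤ s) (hX0 : 0 ≤ X) (hXR : X ≤ R)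
    (hR1 : R ≤ 1) (hE1 : E ≤ 1) (hEn : E ≤ (s + 1) * (1 - R)) :
    2 * (s - K) * (K + 1) * E ≤ (s + 1) * s * ((1 - R * X) * (1 + K * (X * (1 - R + X)))) := by
  obtain ⟨x, hx⟩ : ∃ x : ℝ, x = 1 - R := ⟨_, rfl⟩
  have hRx : R = 1 - x := by linarith
  subst hRx
  have hx0 : 0 ≤ x := by linarith
  have hs0 : 0 < s := by linarith
  have hX1 : X ≤ 1 := by linarith
  -- F ≥ Φ
  have hF : 1 - X + x * (X + K * (X * (1 + X)))
      ≤ (1 - (1 - x) * X) * (1 + K * (X * (1 - (1 - x) + X))) := by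
    have : (1 - (1 - x) * X) * (1 + K * (X * (1 - (1 - x) + X)))
        - (1 - X + x * (X + K * (X * (1 + X)))) = K * X * ((1 - x) * X * ((1 - x) - X)) := by ring
    have h1 : 0 ≤ K * X * ((1 - x) * X * ((1 - x) - X)) := by
      apply mul_nonneg (mul_nonneg (by linarith) hX0)
      apply mul_nonneg (mul_nonneg (by linarith) hX0) (by linarith)
    linarith
  have hm : 0 < s - K := by linarith
  have hmk : 0 < 2 * (s - K) * (K + 1) := by
    apply mul_pos (by linarith) (by linarith)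
  have hns : 0 < (s + 1) * s := by apply mul_pos <;> linarith
  refine le_trans ?_ (mul_le_mul_of_nonneg_left hF hns.le)
  have hG0 : 0 ≤ X + K * (X * (1 + X)) := by
    have : 0 ≤ K * (X * (1 + X)) := mul_nonneg (by linarith) (mul_nonneg hX0 (by linarith))
    linarith
  -- P1 consequence
  have hP : 1 ≤ (s + 1) * (1 - X) → 2 * (s - K) * (K + 1)
      ≤ s * ((s + 1) * (1 - X) + (X + K * (X * (1 + X)))) := by
    intro h
    have := P1 K s (1 - X) hK hs h
    nlinarith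
  rcases le_total 1 ((s + 1) * x) with hc | hc
  · -- case n x ≥ 1
    have hy : 1 ≤ (s + 1) * (1 - X) := by nlinarith
    have h1 := hP hy
    have h2 : 2 * (s - K) * (K + 1) * E ≤ 2 * (s - K) * (K + 1) := by
      nlinarith
    have h3 : s * ((s + 1) * (1 - X) + (X + K * (X * (1 + X))))
        ≤ (s + 1) * s * (1 - X + x * (X + K * (X * (1 + X)))) := by
      have : (s + 1) * s * (1 - X + x * (X + K * (X * (1 + X))))
        = s * ((s + 1) * (1 - X) + ((s + 1) * x) * (X + K * (X * (1 + X)))) := by ring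
      rw [this]
      apply mul_le_mul_of_nonneg_left _ hs0.le
      have : 1 * (X + K * (X * (1 + X))) ≤ ((s + 1) * x) * (X + K * (X * (1 + X))) :=
        mul_le_mul_of_nonneg_right hc hG0
      linarith
    linarith
  · have hEx : E ≤ (s + 1) * x := by
      have : (1 : ℝ) - (1 - x) = x := by ring
      rw [this] at hEn; exact hEn
    have h0 : 2 * (s - K) * (K + 1) * E ≤ 2 * (s - K) * (K + 1) * ((s + 1) * x) :=
      mul_le_mul_of_nonneg_left hEx hmk.le
    refine le_trans h0 ?_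
    rcases le_total 1 ((s + 1) * (1 - X)) with hy | hy
    · have h1 := hP hy
      -- interpolation
      have h2 : (s + 1) * s * (1 - X + x * (X + K * (X * (1 + X))))
          = (1 - (s + 1) * x) * ((s + 1) * s * (1 - X))
            + ((s + 1) * x) * (s * ((s + 1) * (1 - X) + (X + K * (X * (1 + X))))) := by ring
      rw [h2]
      have h3 : 0 ≤ (1 - (s + 1) * x) * ((s + 1) * s * (1 - X)) := by
        apply mul_nonneg (by linarith)
        apply mul_nonneg hns.le (by linarith)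
      have h4 : ((s + 1) * x) * (2 * (s - K) * (K + 1))
          ≤ ((s + 1) * x) * (s * ((s + 1) * (1 - X) + (X + K * (X * (1 + X))))) := by
        apply mul_le_mul_of_nonneg_left h1
        apply mul_nonneg (by linarith) hx0
      linarith
    · -- 1 - X ≤ 1/(s+1)
      have h1 : x * ((1 + X) * (1 + K * X)) ≤ 1 - X + x * (X + K * (X * (1 + X))) := by
        have : 1 - X + x * (X + K * (X * (1 + X))) - x * ((1 + X) * (1 + K * X))
          = (1 - X) - x := by ring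
        linarith
      have h2 : 2 * (s - K) * (K + 1) ≤ s * ((1 + X) * (1 + K * X)) := by
        -- s (2 - t)(1+K-Kt) with t = 1 - X, s t ≤ 1
        obtain ⟨t, ht⟩ : ∃ t : ℝ, t = 1 - X := ⟨_, rfl⟩
        have hXt : X = 1 - t := by linarith
        subst hXt
        have ht0 : 0 ≤ t := by linarith
        have hst : s * t ≤ 1 := by
          have : (s + 1) * (1 - (1 - t)) = s * t + t := by ring
          linarith
        have e : s * ((1 + (1 - t)) * (1 + K * (1 - t))) - 2 * (s - K) * (K + 1)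
            = 2 * K * (K + 1) - (3 * K + 1) * (s * t) + K * s * t ^ 2 := by ring
        have h3 : 0 ≤ K * s * t ^ 2 := by
          apply mul_nonneg (mul_nonneg (by linarith) hs0.le) (sq_nonneg _)
        have h4 : (3 * K + 1) * (s * t) ≤ (3 * K + 1) * 1 :=
          mul_le_mul_of_nonneg_left hst (by linarith)
        nlinarith
      calc 2 * (s - K) * (K + 1) * ((s + 1) * x)
          = ((s + 1) * x) * (2 * (s - K) * (K + 1)) := by ring
        _ ≤ ((s + 1) * x) * (s * ((1 + X) * (1 + K * X))) := by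
            apply mul_le_mul_of_nonneg_left h2
            apply mul_nonneg (by linarith) hx0
        _ = (s + 1) * s * (x * ((1 + X) * (1 + K * X))) := by ring
        _ ≤ _ := mul_le_mul_of_nonneg_left h1 hns.le

/-- The key inequality `(Q1)`. -/
lemma Q1 (m k : ℕ) (hm : 1 ≤ m) (hk : 1 ≤ k) (R X : ℝ) (hX0 : 0 ≤ X) (hXR : X ≤ R)
    (hR1 : R ≤ 1) :
    2 * (m : ℝ) * k * (1 - R ^ (m + k)) ≤
      (m + k : ℝ) * (m + k - 1) * ((1 - R * X) * (1 + (k - 1) * (X * (1 - R + X)))) := by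
  have hR0 : 0 ≤ R := le_trans hX0 hXR
  have hm1 : (1 : ℝ) ≤ m := by exact_mod_cast hm
  have hRX : R * X ≤ R ^ 2 := by nlinarith
  rcases Nat.eq_or_lt_of_le hk with h | h
  · -- k = 1
    rw [← h]
    have h2 := two_le R hR0 hR1 (m + 1) (by omega)
    push_cast at h2 ⊢
    have h3 : ((m : ℝ) + 1) * (1 - R ^ 2) ≤ (m + 1) * (1 - R * X) :=
      mul_le_mul_of_nonneg_left (by linarith) (by linarith)
    have h4 : (m : ℝ) * (2 * (1 - R ^ (m + 1))) ≤ m * ((m + 1) * (1 - R * X)) :=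
      mul_le_mul_of_nonneg_left (by linarith) (by linarith)
    calc 2 * (m : ℝ) * 1 * (1 - R ^ (m + 1)) = m * (2 * (1 - R ^ (m + 1))) := by ring
      _ ≤ m * ((m + 1) * (1 - R * X)) := h4
      _ = _ := by ring
  · have hk2 : (2 : ℝ) ≤ k := by exact_mod_cast h
    have hE1 : (1 : ℝ) - R ^ (m + k) ≤ 1 := by
      have := pow_nonneg hR0 (m + k); linarith
    have hE0 : (0 : ℝ) ≤ 1 - R ^ (m + k) := by
      have := pow_le_one₀ hR0 hR1 (n := m + k); linarith
    have hEn := bern R hR0 (m + k)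
    push_cast at hEn
    have := Q1K ((k : ℝ) - 1) ((m : ℝ) + k - 1) R X (1 - R ^ (m + k)) (by linarith) (by linarith)
      hX0 hXR hR1 hE1 (by linarith)
    calc 2 * (m : ℝ) * k * (1 - R ^ (m + k))
        = 2 * ((m : ℝ) + k - 1 - (k - 1)) * ((k : ℝ) - 1 + 1) * (1 - R ^ (m + k)) := by ring
      _ ≤ _ := this
      _ = _ := by ring


/-- Cauchy–Schwarz in the plane. -/
lemma planar (a b c d D : ℝ) (hD : 0 ≤ D) (hcd : c ^ 2 + d ^ 2 = 1) (h : a ^ 2 + b ^ 2 ≤ D ^ 2) :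
    a * c + b * d ≤ D := by
  have h1 : (a * c + b * d) ^ 2 ≤ D ^ 2 := by
    have : (a * c + b * d) ^ 2 + (a * d - b * c) ^ 2 = (a ^ 2 + b ^ 2) * (c ^ 2 + d ^ 2) := by ring
    rw [hcd] at this
    nlinarith [sq_nonneg (a * d - b * c)]
  exact le_of_abs_le (abs_le_of_sq_le_sq h1 hD)

/-- Basic facts about `L = Y + X`, `A = Y - X`. -/
lemma geom (R X Y : ℝ) (hX0 : 0 ≤ X) (hXR : X ≤ R) (hR1 : R ≤ 1) (hY0 : 0 ≤ Y)
    (hY : Y ^ 2 = 1 - X * (R - X)) :
    1 ≤ Y + X ∧ 0 ≤ Y - X ∧ (Y - X) * (Y + X) = 1 - R * X ∧ 1 - Y ≤ (Y - X) * (Y + X - 1) ∧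
      X * (1 - R + X) ≤ Y + X - 1 ∧ Y ≤ 1 := by
  have hs : 0 ≤ X * (R - X) := mul_nonneg hX0 (by linarith)
  have hY1 : Y ≤ 1 := by nlinarith
  have hYY : 1 - X * (R - X) ≤ Y := by nlinarith
  have hL : X * (1 - R + X) ≤ Y + X - 1 := by nlinarith
  have hX1 : X ≤ 1 := by linarith
  have hxx : 0 ≤ X * (1 - R + X) := mul_nonneg hX0 (by linarith)
  have hAL : (Y - X) * (Y + X) = 1 - R * X := by nlinarith
  have hL1 : 1 ≤ Y + X := by linarith
  have hRX : R * X ≤ 1 := by nlinarith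
  refine ⟨hL1, ?_, hAL, ?_, hL, hY1⟩
  · by_contra hneg
    push Not at hneg
    nlinarith
  · have : (Y - X) * (Y + X - 1) = 1 - R * X - Y + X := by
      have : (Y - X) * (Y + X - 1) = (Y - X) * (Y + X) - Y + X := by ring
      rw [this, hAL]
    nlinarith

/-- The per-coefficient inequality. -/
lemma term (i k : ℕ) (hi : 1 ≤ i) (hk : 1 ≤ k) (hn : 3 ≤ i + k) (R X Y η c d v : ℝ)
    (hX0 : 0 ≤ X) (hXR : X ≤ R) (hR1 : R < 1) (hY0 : 0 ≤ Y)
    (hY : Y ^ 2 = 1 - X * (R - X)) (hη : Y ^ 2 + η ^ 2 = 1) (hcd : c ^ 2 + d ^ 2 = 1)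
    (hv : v * (Y + X) ^ k = 1) :
    (1 - R ^ (i + k)) * (i * v * (k * (1 - (Y * c - η * d)) + ((i + k : ℝ) - 1) * (Y - X) * c))
      ≤ (i + k : ℝ) * ((i + k : ℝ) - 1) * (Y - X) * (1 - R ^ i * c) := by
  obtain ⟨hL1, hA0, hAL, hstar, hLX, hY1⟩ := geom R X Y hX0 hXR hR1.le hY0 hY
  have hR0 : 0 ≤ R := le_trans hX0 hXR
  obtain ⟨L, hL⟩ : ∃ L : ℝ, L = Y + X := ⟨_, rfl⟩
  obtain ⟨A, hA⟩ : ∃ A : ℝ, A = Y - X := ⟨_, rfl⟩
  rw [← hL] at hL1 hAL hstar hLX hv
  rw [← hA] at hA0 hAL hstar ⊢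
  have hi1 : (1 : ℝ) ≤ i := by exact_mod_cast hi
  have hk1 : (1 : ℝ) ≤ k := by exact_mod_cast hk
  have hn3 : (3 : ℝ) ≤ (i + k : ℝ) := by exact_mod_cast hn
  have hLk0 : 0 < L ^ k := by positivity
  have hv0 : 0 < v := by
    by_contra hneg
    push Not at hneg
    nlinarith
  obtain ⟨E, hE⟩ : ∃ E : ℝ, E = 1 - R ^ (i + k) := ⟨_, rfl⟩
  have hE0 : 0 ≤ E := by
    have := pow_le_one₀ hR0 hR1.le (n := i + k); linarith
  obtain ⟨N, hN⟩ : ∃ N : ℝ, N = (i + k : ℝ) - 1 := ⟨_, rfl⟩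
  have hN2 : 2 ≤ N := by linarith
  obtain ⟨n, hnn⟩ : ∃ n : ℝ, n = (i + k : ℝ) := ⟨_, rfl⟩
  have hRi0 : 0 ≤ R ^ i := pow_nonneg hR0 i
  -- Q''
  obtain ⟨q, hq⟩ : ∃ q : ℝ, q = i * E * k * v := ⟨_, rfl⟩
  have hq0 : 0 ≤ q := by
    rw [hq]; positivity
  have hQ : 2 * q ≤ n * (N * A) := by
    have h1 := Q1 i k hi hk R X hX0 hXR hR1.le
    rw [← hE, ← hN, ← hnn] at h1
    have hRX1 : 0 ≤ 1 - R * X := by nlinarith
    have hb := one_add_mul_le_pow (a := L - 1) (by linarith) (k - 1)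
    have e1 : (1 + (L - 1)) = L := by ring
    rw [e1] at hb
    have hcast : ((k - 1 : ℕ) : ℝ) = (k : ℝ) - 1 := by
      rw [Nat.cast_sub hk]; simp
    rw [hcast] at hb
    have h2 : 1 + ((k : ℝ) - 1) * (X * (1 - R + X)) ≤ L ^ (k - 1) := by
      have : ((k : ℝ) - 1) * (X * (1 - R + X)) ≤ ((k : ℝ) - 1) * (L - 1) :=
        mul_le_mul_of_nonneg_left hLX (by linarith)
      linarith
    have h3 : (1 - R * X) * (1 + ((k : ℝ) - 1) * (X * (1 - R + X))) ≤ A * L ^ k := by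
      have : A * L ^ k = (1 - R * X) * L ^ (k - 1) := by
        rw [← hAL]
        have : L ^ k = L * L ^ (k - 1) := by
          rw [← pow_succ']; congr 1; omega
        rw [this]; ring
      rw [this]
      exact mul_le_mul_of_nonneg_left h2 hRX1
    have h4 : 2 * (i : ℝ) * k * E ≤ n * N * (A * L ^ k) := by
      refine le_trans h1 ?_
      apply mul_le_mul_of_nonneg_left h3
      apply mul_nonneg <;> linarith
    have h5 : (2 * (i : ℝ) * k * E) * v ≤ (n * N * (A * L ^ k)) * v :=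
      mul_le_mul_of_nonneg_right h4 hv0.le
    have h6 : (n * N * (A * L ^ k)) * v = n * (N * A) := by
      have : (n * N * (A * L ^ k)) * v = n * N * A * (v * L ^ k) := by ring
      rw [this, hv]; ring
    rw [h6] at h5
    rw [hq]; linarith
  obtain ⟨w, hw⟩ : ∃ w : ℝ, w = i * E * v + n * R ^ i := ⟨_, rfl⟩
  have hw0 : 0 ≤ w := by
    rw [hw]
    have : 0 ≤ (i : ℝ) * E * v := by positivity
    have : 0 ≤ n * R ^ i := mul_nonneg (by linarith) hRi0
    linarith
  have hnw : q * (L - 1) ≤ n - w := by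
    have h1 := ratio_le R hR0 hR1.le i k
    rw [← hE, ← hnn] at h1
    have hb := one_add_mul_le_pow (a := L - 1) (by linarith) k
    have e1 : (1 + (L - 1)) = L := by ring
    rw [e1] at hb
    have h2 : (i : ℝ) * E * v * (k * (L - 1)) ≤ i * E * v * (L ^ k - 1) := by
      apply mul_le_mul_of_nonneg_left _ (by positivity)
      linarith
    have h3 : (i : ℝ) * E * v * (L ^ k - 1) = i * E - i * E * v := by
      have : (i : ℝ) * E * v * (L ^ k - 1) = i * E * (v * L ^ k) - i * E * v := by ring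
      rw [this, hv]; ring
    rw [hw, hq]
    nlinarith
  have hnw0 : 0 ≤ n - w := le_trans (mul_nonneg hq0 (by linarith)) hnw
  have hNA0 : 0 ≤ N * A := mul_nonneg (by linarith) hA0
  -- XIV
  have hXIV : 2 * q * (n - w * Y) ≤ N * A * (n ^ 2 - w ^ 2) := by
    have h1 : 2 * q * (n - w) ≤ n * (N * A) * (n - w) := mul_le_mul_of_nonneg_right hQ hnw0
    have h2 : 2 * (1 - Y) ≤ N * A * (L - 1) := by
      have h3 : 2 * (A * (L - 1)) ≤ N * (A * (L - 1)) :=
        mul_le_mul_of_nonneg_right hN2 (mul_nonneg hA0 (by linarith))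
      linarith
    have h3 : 2 * q * (1 - Y) ≤ N * A * (n - w) := by
      calc 2 * q * (1 - Y) = q * (2 * (1 - Y)) := by ring
        _ ≤ q * (N * A * (L - 1)) := mul_le_mul_of_nonneg_left h2 hq0
        _ = N * A * (q * (L - 1)) := by ring
        _ ≤ N * A * (n - w) := mul_le_mul_of_nonneg_left hnw hNA0
    have h4 : w * (2 * q * (1 - Y)) ≤ w * (N * A * (n - w)) := mul_le_mul_of_nonneg_left h3 hw0
    calc 2 * q * (n - w * Y) = 2 * q * (n - w) + w * (2 * q * (1 - Y)) := by ring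
      _ ≤ n * (N * A) * (n - w) + w * (N * A * (n - w)) := add_le_add h1 h4
      _ = N * A * (n ^ 2 - w ^ 2) := by ring
  -- final
  have hD0 : 0 ≤ n * (N * A) - q := by linarith
  have hsq : (N * A * w - q * Y) ^ 2 + (q * η) ^ 2 ≤ (n * (N * A) - q) ^ 2 := by
    have e : (N * A * w - q * Y) ^ 2 + (q * η) ^ 2
        = (N * A) ^ 2 * w ^ 2 - 2 * (N * A) * w * q * Y + q ^ 2 * (Y ^ 2 + η ^ 2) := by ring
    rw [e, hη]
    have h5 : N * A * (2 * q * (n - w * Y)) ≤ N * A * (N * A * (n ^ 2 - w ^ 2)) :=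
      mul_le_mul_of_nonneg_left hXIV hNA0
    have h6 : (n * (N * A) - q) ^ 2 - ((N * A) ^ 2 * w ^ 2 - 2 * (N * A) * w * q * Y + q ^ 2 * 1)
        = N * A * (N * A * (n ^ 2 - w ^ 2)) - N * A * (2 * q * (n - w * Y)) := by ring
    linarith
  have hfin := planar (N * A * w - q * Y) (q * η) c d (n * (N * A) - q) hD0 hcd hsq
  rw [← hE, ← hN, ← hnn]
  rw [hw, hq] at hfin
  have h7 : n * N * A * (1 - R ^ i * c)
        - E * (i * v * (k * (1 - (Y * c - η * d)) + N * A * c))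
      = (n * (N * A) - i * E * k * v)
        - ((N * A * (i * E * v + n * R ^ i) - i * E * k * v * Y) * c + i * E * k * v * η * d) := by
    ring
  linarith

end Pool.Agent.SendovHull
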