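import Mathlib
import Pool.Agent.SendovHullReal

set_option autoImplicit false

open Polynomial Finset
open scoped ComplexConjugate

namespace Pool.Agent.SendovHull

/-- Per-coefficient inequality on the unit circle (`R = 1`). -/
lemma term1 (i k : ℕ) (hi : 1 ≤ i) (hk : 1 ≤ k) (R X Y v : ℝ)
    (hX0 : 0 ≤ X) (hXR : X ≤ R) (hR1 : R ≤ 1) (hY0 : 0 ≤ Y)
    (hY : Y ^ 2 = 1 - X * (R - X)) (hv : v * (Y + X) ^ k = 1) :
    (i * v * (k * (1 - Y) + ((i + k : ℝ) - 1) * (Y - X)))
      ≤ (i + k : ℝ) * ((i + k : ℝ) - 1) * (Y - X) := by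
  obtain ⟨hL1, hA0, hAL, hstar, hLX, hY1⟩ := geom R X Y hX0 hXR hR1 hY0 hY
  obtain ⟨L, hL⟩ : ∃ L : ℝ, L = Y + X := ⟨_, rfl⟩
  obtain ⟨A, hA⟩ : ∃ A : ℝ, A = Y - X := ⟨_, rfl⟩
  rw [← hL] at hL1 hAL hstar hLX hv
  rw [← hA] at hA0 hAL hstar ⊢
  have hi1 : (1 : ℝ) ≤ i := by exact_mod_cast hi
  have hk1 : (1 : ℝ) ≤ k := by exact_mod_cast hk
  have hLk0 : 0 < L ^ k := by positivity
  have hv0 : 0 < v := by
    by_contra hneg
    push Not at hneg
    nlinarith
  have hb := one_add_mul_le_pow (a := L - 1) (by linarith) k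
  have e1 : (1 + (L - 1)) = L := by ring
  rw [e1] at hb
  have h1 : (k : ℝ) * (1 - Y) ≤ A * (L ^ k - 1) := by
    calc (k : ℝ) * (1 - Y) ≤ k * (A * (L - 1)) := mul_le_mul_of_nonneg_left hstar (by linarith)
      _ = A * (k * (L - 1)) := by ring
      _ ≤ A * (L ^ k - 1) := mul_le_mul_of_nonneg_left (by linarith) hA0
  have h2 : A * (L ^ k - 1) ≤ ((i + k : ℝ) - 1) * (A * (L ^ k - 1)) := by
    have h3 : 0 ≤ A * (L ^ k - 1) := by
      apply mul_nonneg hA0
      have : 0 ≤ (k : ℝ) * (L - 1) := mul_nonneg (by linarith) (by linarith)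
      linarith
    nlinarith
  have h3 : (k * (1 - Y) + ((i + k : ℝ) - 1) * A) ≤ ((i + k : ℝ) - 1) * A * L ^ k := by
    nlinarith
  have h4 : i * v * (k * (1 - Y) + ((i + k : ℝ) - 1) * A)
      ≤ i * v * (((i + k : ℝ) - 1) * A * L ^ k) :=
    mul_le_mul_of_nonneg_left h3 (by positivity)
  have h5 : i * v * (((i + k : ℝ) - 1) * A * L ^ k) = i * (((i + k : ℝ) - 1) * A) := by
    have : i * v * (((i + k : ℝ) - 1) * A * L ^ k) = i * (((i + k : ℝ) - 1) * A) * (v * L ^ k) := by
      ring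
    rw [this, hv]; ring
  rw [h5] at h4
  refine le_trans h4 ?_
  have h6 : 0 ≤ ((i + k : ℝ) - 1) * A := mul_nonneg (by linarith) hA0
  nlinarith

/-- The summed inequality. `c i, d i` are the real and imaginary parts of the unit complex
number `conj e ^ (n - i)`. -/
lemma summed (n : ℕ) (hn : 3 ≤ n) (b c d v : ℕ → ℝ) (R X Y η : ℝ)
    (hb : ∀ i < n, 0 ≤ b i) (hbs : ∑ i ∈ range n, b i ≤ 1)
    (hX0 : 0 ≤ X) (hXR : X ≤ R) (hR1 : R ≤ 1) (hY0 : 0 ≤ Y)
    (hY : Y ^ 2 = 1 - X * (R - X)) (hη : Y ^ 2 + η ^ 2 = 1)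
    (hcd : ∀ i < n, c i ^ 2 + d i ^ 2 = 1)
    (hv : ∀ i < n, v i * (Y + X) ^ (n - i) = 1)
    (hzero : ∑ i ∈ range n, b i * (R ^ i * c i) = R ^ n) :
    ∑ i ∈ range n, b i * (i * v i * ((n - i : ℝ) * (1 - (Y * c i - η * d i))
        + (n - 1 : ℝ) * (Y - X) * c i)) ≤ n * (n - 1 : ℝ) * (Y - X) := by
  obtain ⟨hL1, hA0, hAL, hstar, hLX, hY1⟩ := geom R X Y hX0 hXR hR1 hY0 hY
  have hn3 : (3 : ℝ) ≤ n := by exact_mod_cast hn
  have hnNA : 0 ≤ (n : ℝ) * (n - 1) * (Y - X) := by
    apply mul_nonneg (mul_nonneg (by linarith) (by linarith)) hA0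
  have hc1 : ∀ i < n, c i ≤ 1 := by
    intro i hi
    have := hcd i hi
    nlinarith [sq_nonneg (d i), sq_nonneg (c i - 1)]
  have hR0 : 0 ≤ R := le_trans hX0 hXR
  rcases lt_or_eq_of_le hR1 with hR | hR
  · -- R < 1
    have hE : 0 < 1 - R ^ n := by
      have := pow_lt_one₀ hR0 hR (n := n) (by omega); linarith
    have hterm : ∀ i ∈ range n, (1 - R ^ n) * (b i * (i * v i *
        ((n - i : ℝ) * (1 - (Y * c i - η * d i)) + (n - 1 : ℝ) * (Y - X) * c i)))
        ≤ b i * (n * (n - 1 : ℝ) * (Y - X) * (1 - R ^ i * c i)) := by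
      intro i hi
      have hin : i < n := mem_range.mp hi
      rcases Nat.eq_zero_or_pos i with h0 | hpos
      · subst h0
        simp only [Nat.cast_zero, zero_mul, mul_zero, pow_zero, one_mul]
        apply mul_nonneg (hb 0 hin)
        apply mul_nonneg hnNA
        have := hc1 0 hin; linarith
      · have hk : 1 ≤ n - i := by omega
        have hsum : i + (n - i) = n := by omega
        have hcast : ((n - i : ℕ) : ℝ) = (n : ℝ) - i := by
          rw [Nat.cast_sub hin.le]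
        have h := term i (n - i) hpos hk (by omega) R X Y η (c i) (d i) (v i) hX0 hXR hR hY0 hY hη
          (hcd i hin) (hv i hin)
        rw [hsum, hcast] at h
        have e1 : (i : ℝ) + ((n : ℝ) - i) = n := by ring
        rw [e1] at h
        have := mul_le_mul_of_nonneg_left h (hb i hin)
        calc _ = b i * ((1 - R ^ n) * (i * v i * ((n - i : ℝ) * (1 - (Y * c i - η * d i))
                + (n - 1 : ℝ) * (Y - X) * c i))) := by ring
          _ ≤ _ := this
    have h1 := sum_le_sum hterm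
    rw [← mul_sum] at h1
    have h2 : ∑ i ∈ range n, b i * (n * (n - 1 : ℝ) * (Y - X) * (1 - R ^ i * c i))
        = n * (n - 1 : ℝ) * (Y - X) * (∑ i ∈ range n, b i - R ^ n) := by
      rw [← hzero, ← sum_sub_distrib, mul_sum]
      apply sum_congr rfl
      intro i _; ring
    rw [h2] at h1
    have h3 : n * (n - 1 : ℝ) * (Y - X) * (∑ i ∈ range n, b i - R ^ n)
        ≤ n * (n - 1 : ℝ) * (Y - X) * (1 - R ^ n) :=
      mul_le_mul_of_nonneg_left (by linarith) hnNA
    have h4 := le_trans h1 h3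
    rw [mul_comm (n * (n - 1 : ℝ) * (Y - X)) (1 - R ^ n)] at h4
    exact le_of_mul_le_mul_left h4 hE
  · -- R = 1
    rw [hR] at hzero
    simp only [one_pow, one_mul] at hzero
    have hnonneg : ∀ i ∈ range n, 0 ≤ b i * (1 - c i) := by
      intro i hi
      have hin : i < n := mem_range.mp hi
      apply mul_nonneg (hb i hin)
      have := hc1 i hin; linarith
    have hs0 : ∑ i ∈ range n, b i * (1 - c i) ≤ 0 := by
      have : ∑ i ∈ range n, b i * (1 - c i) = ∑ i ∈ range n, b i - ∑ i ∈ range n, b i * c i := by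
        rw [← sum_sub_distrib]; apply sum_congr rfl; intro i _; ring
      rw [this, hzero]; linarith
    have hs1 : ∑ i ∈ range n, b i * (1 - c i) = 0 := le_antisymm hs0 (sum_nonneg hnonneg)
    have hall := (sum_eq_zero_iff_of_nonneg hnonneg).mp hs1
    have hterm : ∀ i ∈ range n, b i * (i * v i *
        ((n - i : ℝ) * (1 - (Y * c i - η * d i)) + (n - 1 : ℝ) * (Y - X) * c i))
        ≤ b i * (n * (n - 1 : ℝ) * (Y - X)) := by
      intro i hi
      have hin : i < n := mem_range.mp hi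
      rcases eq_or_ne (b i) 0 with hb0 | hb0
      · rw [hb0]; simp
      · have hci : c i = 1 := by
          have := hall i hi
          rcases mul_eq_zero.mp this with h | h
          · exact absurd h hb0
          · linarith
        have hdi : d i = 0 := by
          have := hcd i hin
          rw [hci] at this
          nlinarith
        apply mul_le_mul_of_nonneg_left _ (hb i hin)
        rw [hci, hdi]
        rcases Nat.eq_zero_or_pos i with h0 | hpos
        · subst h0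
          simp only [Nat.cast_zero, zero_mul]
          exact hnNA
        · have hk : 1 ≤ n - i := by omega
          have hcast : ((n - i : ℕ) : ℝ) = (n : ℝ) - i := by
            rw [Nat.cast_sub hin.le]
          have h := term1 i (n - i) hpos hk R X Y (v i) hX0 hXR hR1 hY0 hY (hv i hin)
          rw [hcast] at h
          have e1 : (i : ℝ) + ((n : ℝ) - i) = n := by ring
          rw [e1] at h
          calc _ = (i * v i * ((n - i : ℝ) * (1 - Y) + (n - 1 : ℝ) * (Y - X))) := by ring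
            _ ≤ _ := h
    refine le_trans (sum_le_sum hterm) ?_
    rw [← sum_mul]
    nlinarith

lemma eval_der_pow (z : ℂ) (i : ℕ) :
    z * (derivative (X ^ i : ℂ[X])).eval z = i * z ^ i := by
  rcases i with _ | i
  · simp
  · rw [derivative_X_pow]
    simp only [eval_mul, eval_C, eval_pow, eval_X, Nat.add_sub_cancel]
    ring

lemma eval_der2_pow (z : ℂ) (i : ℕ) :
    z ^ 2 * (derivative (derivative (X ^ i : ℂ[X]))).eval z = i * (i - 1) * z ^ i := by
  rcases i with _ | _ | i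
  · simp
  · simp
  · rw [derivative_X_pow, derivative_C_mul, derivative_X_pow]
    have e1 : i + 1 + 1 - 1 = i + 1 := by omega
    have e2 : i + 1 - 1 = i := by omega
    rw [e1, e2]
    simp only [eval_mul, eval_C, eval_pow, eval_X]
    push_cast
    ring

lemma eval_der (n : ℕ) (a : ℕ → ℂ) (z : ℂ) :
    z * (derivative (X ^ n + ∑ i ∈ range n, C (a i) * X ^ i : ℂ[X])).eval z
      = n * z ^ n + ∑ i ∈ range n, a i * (i * z ^ i) := by
  rw [derivative_add, eval_add, mul_add, eval_der_pow, derivative_sum, eval_finsetSum, mul_sum]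
  congr 1
  apply sum_congr rfl
  intro i _
  rw [derivative_C_mul, eval_C_mul, ← eval_der_pow]; ring

lemma eval_der2 (n : ℕ) (a : ℕ → ℂ) (z : ℂ) :
    z ^ 2 * (derivative (derivative (X ^ n + ∑ i ∈ range n, C (a i) * X ^ i : ℂ[X]))).eval z
      = n * (n - 1) * z ^ n + ∑ i ∈ range n, a i * (i * (i - 1) * z ^ i) := by
  rw [derivative_add, derivative_add, eval_add, mul_add, eval_der2_pow, derivative_sum,
    derivative_sum, eval_finsetSum, mul_sum]
  congr 1
  apply sum_congr rfl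
  intro i _
  rw [derivative_C_mul, derivative_C_mul, eval_C_mul, ← eval_der2_pow]; ring


lemma norm_one {a : ℂ} (h : Complex.normSq a = 1) : ‖a‖ = 1 := by
  rw [Complex.norm_def, h, Real.sqrt_one]

lemma le_one_of_sq {c d : ℝ} (h : c ^ 2 + d ^ 2 = 1) : c ≤ 1 := by
  nlinarith [sq_nonneg d, sq_nonneg (c - 1)]

lemma aux_prod {v c i n : ℝ} (hv0 : 0 ≤ v) (hv1 : v ≤ 1) (hc : c ≤ 1) (hi : 0 ≤ i)
    (hin : i ≤ n - 1) : i * (v * c) ≤ n - 1 := by
  have h2 : v * c ≤ 1 := by nlinarith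
  nlinarith

lemma half (ξ v : ℂ) (hξ : ‖ξ‖ = 1) (hv : 1 < ‖v‖) : (ξ / (ξ - v)).re < 1 / 2 := by
  have hs : ξ - v ≠ 0 := by
    intro h
    have : ξ = v := sub_eq_zero.mp h
    rw [this] at hξ; linarith
  have hn : 0 < Complex.normSq (ξ - v) := Complex.normSq_pos.mpr hs
  have h1 : Complex.normSq ξ = 1 := by
    rw [Complex.normSq_eq_norm_sq, hξ]; norm_num
  have h2 : 1 < Complex.normSq v := by
    rw [Complex.normSq_eq_norm_sq]; nlinarith
  rw [Complex.div_re]
  have h3 : ξ.re * (ξ - v).re / Complex.normSq (ξ - v) + ξ.im * (ξ - v).im / Complex.normSq (ξ - v)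
      = (ξ.re * (ξ - v).re + ξ.im * (ξ - v).im) / Complex.normSq (ξ - v) := by ring
  rw [h3, div_lt_iff₀ hn]
  rw [Complex.normSq_apply] at h1 h2 ⊢
  simp only [Complex.sub_re, Complex.sub_im]
  nlinarith

lemma sum_lt (q : ℂ[X]) (zs ξ : ℂ) (hq : 0 < natDegree q)
    (h : ∀ w, q.eval w = 0 → (ξ / (zs - w)).re < 1 / 2) (hzs : q.eval zs ≠ 0) :
    (ξ * ((derivative q).eval zs / q.eval zs)).re < natDegree q / 2 := by
  rw [(IsAlgClosed.splits q).eval_derivative_div_eval_of_ne_zero hzs, ← Multiset.sum_map_mul_left]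
  have hq0 : q ≠ 0 := by rintro rfl; simp at hq
  have h1 : ((q.roots.map fun w ↦ ξ * (1 / (zs - w))).sum).re
      = (q.roots.map fun w ↦ (ξ / (zs - w)).re).sum := by
    have := map_multiset_sum Complex.reAddGroupHom (q.roots.map fun w ↦ ξ * (1 / (zs - w)))
    simp only [Complex.coe_reAddGroupHom, Multiset.map_map, Function.comp_def] at this
    rw [this]
    congr 1
    apply Multiset.map_congr rfl
    intro w _
    rw [mul_one_div]
  rw [h1]
  have h2 : (q.roots.map fun w ↦ (ξ / (zs - w)).re).sum < (q.roots.map fun _ ↦ (1 / 2 : ℝ)).sum := by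
    apply Multiset.sum_lt_sum_of_nonempty
    · intro h0
      have := IsAlgClosed.card_roots_eq_natDegree (p := q)
      rw [h0] at this
      simp at this
      omega
    · intro w hw
      exact h w ((mem_roots hq0).mp hw)
  refine lt_of_lt_of_eq h2 ?_
  rw [Multiset.map_const', Multiset.sum_replicate, IsAlgClosed.card_roots_eq_natDegree,
    nsmul_eq_mul]
  ring

lemma contra (n : ℕ) (hn : 3 ≤ n) (b : ℕ → ℝ) (hb : ∀ i < n, 0 ≤ b i)
    (hbs : ∑ i ∈ range n, b i ≤ 1) (z ζ : ℂ) (hz0 : z ≠ 0) (hz1 : ‖z‖ ≤ 1)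
    (hzero : z ^ n = ∑ i ∈ range n, (b i : ℂ) * z ^ i)
    (hζ : ‖ζ‖ ^ 2 = (z * conj ζ).re) (p : ℂ[X])
    (hp : p = X ^ n + ∑ i ∈ range n, C (-(b i : ℂ)) * X ^ i) (hpd : natDegree p = n)
    (hcrit : ∀ w, (derivative p).eval w = 0 → 1 < ‖w - ζ‖) : False := by
  have hn3 : (3 : ℝ) ≤ n := by exact_mod_cast hn
  obtain ⟨R, hRdef⟩ : ∃ R : ℝ, R = ‖z‖ := ⟨_, rfl⟩
  have hR0 : 0 < R := by rw [hRdef]; exact norm_pos_iff.mpr hz0
  have hR1 : R ≤ 1 := by rw [hRdef]; exact hz1
  have hRC : (R : ℂ) ≠ 0 := by exact_mod_cast hR0.ne'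
  -- ‖ζ‖ ≤ R
  have hζR : ‖ζ‖ ≤ R := by
    have h1 : (z * conj ζ).re ≤ ‖z‖ * ‖ζ‖ := by
      have := Complex.re_le_norm (z * conj ζ)
      rw [norm_mul, Complex.norm_conj] at this
      exact this
    rw [← hζ, ← hRdef] at h1
    by_contra hlt
    push Not at hlt
    have : 0 < ‖ζ‖ := lt_trans hR0 hlt
    nlinarith
  obtain ⟨x, hx⟩ : ∃ x : ℝ, x = ‖ζ‖ ^ 2 / R := ⟨_, rfl⟩
  have hRx : R * x = ‖ζ‖ ^ 2 := by rw [hx]; field_simp
  have hx0 : 0 ≤ x := by rw [hx]; positivity
  have hxR : x ≤ R := by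
    rw [hx, div_le_iff₀ hR0]
    nlinarith [norm_nonneg ζ]
  obtain ⟨Y, hYdef⟩ : ∃ Y : ℝ, Y = Real.sqrt (1 - x * (R - x)) := ⟨_, rfl⟩
  have hrad : 0 ≤ 1 - x * (R - x) := by nlinarith [sq_nonneg (x - (R - x))]
  have hY0 : 0 ≤ Y := by rw [hYdef]; exact Real.sqrt_nonneg _
  have hY : Y ^ 2 = 1 - x * (R - x) := by rw [hYdef]; exact Real.sq_sqrt hrad
  obtain ⟨hL1, hA0, hAL, hstar, hLX, hY1⟩ := geom R x Y hx0 hxR hR1 hY0 hY
  obtain ⟨L, hL⟩ : ∃ L : ℝ, L = Y + x := ⟨_, rfl⟩
  rw [← hL] at hL1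
  have hL0 : 0 < L := by linarith
  have hLC : (L : ℂ) ≠ 0 := by exact_mod_cast hL0.ne'
  -- the unit vector
  obtain ⟨e, he⟩ : ∃ e : ℂ, e = z / R := ⟨_, rfl⟩
  have hze : z = R * e := by rw [he]; field_simp
  have hee : e * conj e = 1 := by
    rw [Complex.mul_conj, he, Complex.normSq_eq_norm_sq, norm_div, Complex.norm_real,
      Real.norm_of_nonneg hR0.le, ← hRdef, div_self hR0.ne']
    norm_num
  have hene : e ≠ 0 := by
    intro h; rw [h] at hee; simp at hee
  obtain ⟨f, hf⟩ : ∃ f : ℂ, f = conj e := ⟨_, rfl⟩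
  rw [← hf] at hee
  have hfn : Complex.normSq f = 1 := by
    have h1 : (Complex.normSq e : ℂ) = 1 := by rw [← Complex.mul_conj, ← hf, hee]
    have h2 : Complex.normSq e = 1 := by exact_mod_cast h1
    rw [hf, Complex.normSq_conj, h2]
  have hen : Complex.normSq e = 1 := by
    have : Complex.normSq f = Complex.normSq e := by rw [hf, Complex.normSq_conj]
    rw [← this, hfn]
  -- ε
  obtain ⟨ε, hε⟩ : ∃ ε : ℂ, ε = L - f * ζ := ⟨_, rfl⟩
  have hfζ : (f * ζ).re = x := by
    have h1 : (z * conj ζ).re = R * (f * ζ).re := by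
      rw [hze, hf]
      simp only [Complex.mul_re, Complex.conj_re, Complex.conj_im, Complex.mul_im,
        Complex.ofReal_re, Complex.ofReal_im]
      ring
    rw [← hζ, ← hRx] at h1
    exact (mul_left_cancel₀ hR0.ne' h1).symm
  have hεre : ε.re = Y := by
    rw [hε, Complex.sub_re, hfζ, Complex.ofReal_re, hL]; ring
  obtain ⟨η, hη⟩ : ∃ η : ℝ, η = ε.im := ⟨_, rfl⟩
  have hfζn : Complex.normSq (f * ζ) = R * x := by
    rw [Complex.normSq_mul, hfn, Complex.normSq_eq_norm_sq, hRx]; ring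
  have hYη : Y ^ 2 + η ^ 2 = 1 := by
    have h1 : η = - (f * ζ).im := by rw [hη, hε]; simp
    have h2 : x ^ 2 + (f * ζ).im ^ 2 = R * x := by
      rw [← hfζn, Complex.normSq_apply, hfζ]; ring
    rw [h1, hY]
    linarith
  have hεn : Complex.normSq ε = 1 := by
    rw [Complex.normSq_apply, hεre, ← hη]; linarith
  -- the test point
  obtain ⟨zs, hzs⟩ : ∃ zs : ℂ, zs = L * e := ⟨_, rfl⟩
  have hzs0 : zs ≠ 0 := by rw [hzs]; exact mul_ne_zero hLC hene
  obtain ⟨ξ, hξ⟩ : ∃ ξ : ℂ, ξ = zs - ζ := ⟨_, rfl⟩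
  have hξe : ξ = e * ε := by
    rw [hξ, hε, hzs, mul_sub, ← mul_assoc e f ζ, hee]; ring
  have hξ1 : ‖ξ‖ = 1 := by
    apply norm_one
    rw [hξe, Complex.normSq_mul, hen, hεn]; ring
  have hhalf : ∀ w, (derivative p).eval w = 0 → (ξ / (zs - w)).re < 1 / 2 := by
    intro w hw
    have h1 := hcrit w hw
    have h2 := half ξ (w - ζ) hξ1 h1
    have h3 : ξ - (w - ζ) = zs - w := by rw [hξ]; ring
    rw [h3] at h2
    exact h2
  -- evaluation
  obtain ⟨t, ht⟩ : ∃ t : ℂ, t = zs⁻¹ := ⟨_, rfl⟩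
  have htz : zs * t = 1 := by rw [ht]; exact mul_inv_cancel₀ hzs0
  have htf : t = (L⁻¹ : ℝ) * f := by
    have : t = t * (e * f) := by rw [hee, mul_one]
    rw [this]
    have h2 : t * (e * f) = (t * (L * e)) * (L : ℂ)⁻¹ * f := by field_simp
    rw [h2, ← hzs, mul_comm t zs, htz]; push_cast; ring
  have hpow : ∀ i < n, zs ^ i = zs ^ n * t ^ (n - i) := by
    intro i hi
    have h1 : zs ^ n = zs ^ i * zs ^ (n - i) := by rw [← pow_add]; congr 1; omega
    rw [h1, mul_assoc, ← mul_pow, htz]; simp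
  obtain ⟨u, hu⟩ : ∃ u : ℂ, u = n - ∑ i ∈ range n, (b i : ℂ) * (i * t ^ (n - i)) := ⟨_, rfl⟩
  obtain ⟨D, hD⟩ : ∃ D : ℂ, D = ∑ i ∈ range n, (b i : ℂ) * (i * (n - i) * t ^ (n - i)) := ⟨_, rfl⟩
  have hp1 : zs * (derivative p).eval zs = zs ^ n * u := by
    rw [hp, eval_der, hu, mul_sub, mul_sum, mul_comm (n : ℂ), sub_eq_add_neg, ← sum_neg_distrib]
    congr 1
    apply sum_congr rfl
    intro i hi
    rw [hpow i (mem_range.mp hi)]; ring
  have hp2 : zs ^ 2 * (derivative (derivative p)).eval zs = zs ^ n * ((n - 1) * u + D) := by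
    rw [hp, eval_der2, hu, hD]
    have h1 : zs ^ n * ((n - 1) * (n - ∑ i ∈ range n, (b i : ℂ) * (i * t ^ (n - i)))
          + ∑ i ∈ range n, (b i : ℂ) * (i * (n - i) * t ^ (n - i)))
        = n * (n - 1) * zs ^ n + (∑ i ∈ range n, zs ^ n * ((b i : ℂ) * (i * (n - i) * t ^ (n - i)))
          - ∑ i ∈ range n, zs ^ n * (n - 1) * ((b i : ℂ) * (i * t ^ (n - i)))) := by
      rw [← mul_sum, ← mul_sum]; ring
    rw [h1, ← sum_sub_distrib]
    congr 1
    apply sum_congr rfl
    intro i hi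
    rw [hpow i (mem_range.mp hi)]; ring
  -- real and imaginary parts of powers
  obtain ⟨c, hc⟩ : ∃ c : ℕ → ℝ, ∀ i, c i = (f ^ (n - i)).re := ⟨_, fun _ => rfl⟩
  obtain ⟨d, hd⟩ : ∃ d : ℕ → ℝ, ∀ i, d i = (f ^ (n - i)).im := ⟨_, fun _ => rfl⟩
  obtain ⟨v, hv⟩ : ∃ v : ℕ → ℝ, ∀ i, v i = (L⁻¹) ^ (n - i) := ⟨_, fun _ => rfl⟩
  have hv0 : ∀ i, 0 ≤ v i := by intro i; rw [hv]; positivity
  have hv1 : ∀ i, v i ≤ 1 := by
    intro i; rw [hv]
    apply pow_le_one₀ (by positivity)
    exact inv_le_one_of_one_le₀ hL1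
  have hcd : ∀ i < n, c i ^ 2 + d i ^ 2 = 1 := by
    intro i _
    have : Complex.normSq (f ^ (n - i)) = 1 := by rw [map_pow, hfn, one_pow]
    rw [Complex.normSq_apply] at this
    rw [hc, hd]; linarith
  have hc1 : ∀ i < n, c i ≤ 1 := fun i hi => le_one_of_sq (hcd i hi)
  have htpow : ∀ i, t ^ (n - i) = (v i : ℂ) * f ^ (n - i) := by
    intro i; rw [htf, mul_pow, hv]; push_cast; ring
  have htre : ∀ i, (t ^ (n - i)).re = v i * c i := by
    intro i; rw [htpow, Complex.re_ofReal_mul, hc]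
  -- Re u
  have hure : u.re = n - ∑ i ∈ range n, b i * (i * (v i * c i)) := by
    rw [hu, Complex.sub_re, Complex.re_sum, Complex.natCast_re]
    congr 1
    apply sum_congr rfl
    intro i _
    rw [Complex.re_ofReal_mul]
    congr 1
    have : ((i : ℂ) * t ^ (n - i)).re = i * (t ^ (n - i)).re := by
      rw [← Complex.ofReal_natCast, Complex.re_ofReal_mul]
    rw [this, htre]
  have hupos : 0 < u.re := by
    rw [hure]
    have h1 : ∑ i ∈ range n, b i * (i * (v i * c i)) ≤ ∑ i ∈ range n, b i * (n - 1 : ℝ) := by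
      apply sum_le_sum
      intro i hi
      have hin : i < n := mem_range.mp hi
      apply mul_le_mul_of_nonneg_left _ (hb i hin)
      have h3 : (i : ℝ) ≤ n - 1 := by
        have : i + 1 ≤ n := hin
        have : ((i + 1 : ℕ) : ℝ) ≤ n := by exact_mod_cast this
        push_cast at this; linarith
      exact aux_prod (hv0 i) (hv1 i) (hc1 i hin) (Nat.cast_nonneg i) h3
    rw [← sum_mul] at h1
    have h5 : (∑ i ∈ range n, b i) * (n - 1 : ℝ) ≤ 1 * (n - 1 : ℝ) :=
      mul_le_mul_of_nonneg_right hbs (by linarith)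
    linarith
  have hu0 : u ≠ 0 := by intro h; rw [h] at hupos; simp at hupos
  have hder0 : (derivative p).eval zs ≠ 0 := by
    intro h
    rw [h, mul_zero] at hp1
    rcases mul_eq_zero.mp hp1.symm with h1 | h1
    · exact hzs0 (pow_eq_zero_iff (by omega) |>.mp h1)
    · exact hu0 h1
  have hdeg : natDegree (derivative p) = n - 1 := by
    rw [natDegree_derivative, hpd]
  have hsum := sum_lt (derivative p) zs ξ (by omega) hhalf hder0
  rw [hdeg, Nat.cast_sub (by omega : 1 ≤ n), Nat.cast_one] at hsum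
  obtain ⟨T, hT⟩ : ∃ T : ℂ, T = D / u := ⟨_, rfl⟩
  have hDT : D = T * u := by rw [hT]; field_simp
  have hratio : ξ * ((derivative (derivative p)).eval zs / (derivative p).eval zs)
      = ((L⁻¹ : ℝ) : ℂ) * (ε * ((n - 1) + T)) := by
    have h1 : (derivative (derivative p)).eval zs / (derivative p).eval zs
        = ((n - 1) + T) / zs := by
      rw [div_eq_div_iff hder0 hzs0]
      have h2 : zs ^ 2 * ((derivative (derivative p)).eval zs * zs)
          = zs ^ 2 * (((n - 1) + T) * (derivative p).eval zs) := by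
        calc zs ^ 2 * ((derivative (derivative p)).eval zs * zs)
            = (zs ^ 2 * (derivative (derivative p)).eval zs) * zs := by ring
          _ = zs ^ n * ((n - 1) * u + D) * zs := by rw [hp2]
          _ = (zs ^ n * u) * ((n - 1) + T) * zs := by rw [hDT]; ring
          _ = zs ^ 2 * (((n - 1) + T) * (derivative p).eval zs) := by rw [← hp1]; ring
      exact mul_left_cancel₀ (pow_ne_zero 2 hzs0) h2
    rw [h1, hξe, hzs]
    push_cast
    field_simp
  rw [hratio, Complex.re_ofReal_mul] at hsum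
  have hεT : (ε * T).re < - (((n : ℝ) - 1) * (Y - x)) / 2 := by
    have h1 : (ε * ((n - 1) + T)).re = (n - 1) * Y + (ε * T).re := by
      have : ε * ((n - 1 : ℂ) + T) = ((n - 1 : ℝ) : ℂ) * ε + ε * T := by push_cast; ring
      rw [this, Complex.add_re, Complex.re_ofReal_mul, hεre]
    rw [h1] at hsum
    have h2 : (n - 1) * Y + (ε * T).re < L * (((n : ℝ) - 1) / 2) := by
      have := mul_lt_mul_of_pos_left hsum hL0
      rw [← mul_assoc, mul_inv_cancel₀ hL0.ne', one_mul] at this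
      exact this
    rw [hL] at h2
    linarith
  -- linearisation
  have hlin : (ε * D).re - ‖D‖ ≤ 2 * (ε * T).re * u.re := by
    have h1 : 2 * (ε * T).re * u.re = (ε * D).re + (ε * T * conj u).re := by
      rw [hDT]
      simp only [Complex.mul_re, Complex.mul_im, Complex.conj_re, Complex.conj_im]
      ring
    have h2 : ‖ε * T * conj u‖ = ‖D‖ := by
      rw [norm_mul, norm_mul, Complex.norm_conj, hDT, norm_mul]
      rw [norm_one hεn, one_mul]
    have h3 := Complex.abs_re_le_norm (ε * T * conj u)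
    rw [h2] at h3
    have h4 := neg_le_of_abs_le h3
    rw [h1]; linarith
  have hkey : ((n : ℝ) - 1) * (Y - x) * u.re < ‖D‖ - (ε * D).re := by
    have : 2 * (ε * T).re * u.re < - (((n : ℝ) - 1) * (Y - x)) * u.re := by
      have := mul_lt_mul_of_pos_right hεT hupos
      linarith
    linarith
  have hDn : ‖D‖ ≤ ∑ i ∈ range n, b i * (i * (n - i : ℝ) * v i) := by
    rw [hD]
    refine le_trans (norm_sum_le _ _) ?_
    apply sum_le_sum
    intro i hi
    have hin : i < n := mem_range.mp hi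
    rw [norm_mul, norm_mul, norm_mul, htpow, norm_mul, Complex.norm_real, Complex.norm_real,
      Real.norm_of_nonneg (hb i hin), Real.norm_of_nonneg (hv0 i), Complex.norm_natCast]
    have h1 : ‖(n : ℂ) - i‖ = (n : ℝ) - i := by
      have : (n : ℂ) - i = (((n : ℝ) - i : ℝ) : ℂ) := by push_cast; ring
      rw [this, Complex.norm_real, Real.norm_of_nonneg]
      have : (i : ℝ) ≤ n := by exact_mod_cast hin.le
      linarith
    have h2 : ‖f ^ (n - i)‖ = 1 := by
      rw [norm_pow, norm_one hfn, one_pow]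
    rw [h1, h2, mul_one]
  have hDre : (ε * D).re = ∑ i ∈ range n, b i * (i * (n - i : ℝ) * v i) * (Y * c i - η * d i) := by
    rw [hD, mul_sum, Complex.re_sum]
    apply sum_congr rfl
    intro i _
    have h1 : ε * ((b i : ℂ) * (i * (n - i) * t ^ (n - i)))
        = ((b i * (i * (n - i : ℝ) * v i) : ℝ) : ℂ) * (ε * f ^ (n - i)) := by
      rw [htpow]; push_cast; ring
    rw [h1, Complex.re_ofReal_mul, Complex.mul_re, hεre, ← hη, hc, hd]
  -- combine
  have hfin := summed n hn b c d v R x Y η hb hbs hx0 hxR hR1 hY0 hY hYη hcd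
    (by
      intro i _
      rw [hv, ← hL, ← mul_pow, inv_mul_cancel₀ hL0.ne', one_pow])
    (by
      have h1 : (∑ i ∈ range n, b i * (R ^ i * c i) : ℝ)
          = (∑ i ∈ range n, (b i : ℂ) * ((R : ℂ) ^ i * f ^ (n - i))).re := by
        rw [Complex.re_sum]
        apply sum_congr rfl
        intro i _
        rw [hc, Complex.re_ofReal_mul, ← Complex.ofReal_pow, Complex.re_ofReal_mul]
      rw [h1]
      have h2 : ∑ i ∈ range n, (b i : ℂ) * ((R : ℂ) ^ i * f ^ (n - i)) = f ^ n * z ^ n := by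
        rw [hzero, mul_sum]
        apply sum_congr rfl
        intro i hi
        have hin : i < n := mem_range.mp hi
        have h3 : f ^ n = f ^ i * f ^ (n - i) := by rw [← pow_add]; congr 1; omega
        have h4 : f ^ i * e ^ i = 1 := by rw [← mul_pow, mul_comm f e, hee, one_pow]
        calc (b i : ℂ) * ((R : ℂ) ^ i * f ^ (n - i))
            = (b i : ℂ) * ((R : ℂ) ^ i * f ^ (n - i)) * (f ^ i * e ^ i) := by rw [h4, mul_one]
          _ = f ^ n * ((b i : ℂ) * z ^ i) := by rw [h3, hze, mul_pow]; ring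
      rw [h2, hze, mul_pow]
      have h5 : f ^ n * ((R : ℂ) ^ n * e ^ n) = ((R ^ n : ℝ) : ℂ) := by
        have h4 : f ^ n * e ^ n = 1 := by rw [← mul_pow, mul_comm f e, hee, one_pow]
        calc f ^ n * ((R : ℂ) ^ n * e ^ n) = (R : ℂ) ^ n * (f ^ n * e ^ n) := by ring
          _ = _ := by rw [h4]; push_cast; ring
      rw [h5, Complex.ofReal_re])
  have h1 : ∑ i ∈ range n, b i * (i * v i * ((n - i : ℝ) * (1 - (Y * c i - η * d i))
        + (n - 1 : ℝ) * (Y - x) * c i))
      = (∑ i ∈ range n, b i * (i * (n - i : ℝ) * v i)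
          - ∑ i ∈ range n, b i * (i * (n - i : ℝ) * v i) * (Y * c i - η * d i))
        + (n - 1 : ℝ) * (Y - x) * ∑ i ∈ range n, b i * (i * (v i * c i)) := by
    rw [mul_sum, ← sum_sub_distrib, ← sum_add_distrib]
    apply sum_congr rfl
    intro i _; ring
  rw [h1, ← hDre] at hfin
  rw [hure] at hkey
  have h2 : ((n : ℝ) - 1) * (Y - x) * (n - ∑ i ∈ range n, b i * (i * (v i * c i)))
      = n * (n - 1) * (Y - x) - (n - 1) * (Y - x) * ∑ i ∈ range n, b i * (i * (v i * c i)) := by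
    ring
  rw [h2] at hkey
  linarith

end Pool.Agent.SendovHull
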