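import Pool.Statements.S03605
import Pool.Agent.SendovHullReal
import Pool.Agent.SendovHullCx

set_option autoImplicit false
open Pool Pool.MP_9284e8_an

namespace Pool.Agent.S03605

open Pool.Agent.SendovHull
open scoped ComplexConjugate

/-- `n = 2`. -/
lemma two (p : Polynomial ℂ) (hm : p.Monic) (hd : p.natDegree = 2)
    (hz : ∀ z : ℂ, p.eval z = 0 → ‖z‖ ≤ 1) (ζ : ℂ) (hζ : ζ ∈ convexHull ℝ {z : ℂ | p.eval z = 0}) :
    ∃ w : ℂ, (Polynomial.derivative p).eval w = 0 ∧ ‖w - ζ‖ ≤ 1 := by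
  have hp := hm.as_sum
  rw [hd] at hp
  simp only [Finset.sum_range_succ, Finset.sum_range_zero, zero_add, pow_zero, mul_one, pow_one]
    at hp
  obtain ⟨a, ha⟩ : ∃ a : ℂ, a = p.coeff 0 := ⟨_, rfl⟩
  obtain ⟨b, hb⟩ : ∃ b : ℂ, b = p.coeff 1 := ⟨_, rfl⟩
  rw [← ha, ← hb] at hp
  have hev : ∀ z, p.eval z = z ^ 2 + (a + b * z) := by
    intro z; rw [hp]; simp
  refine ⟨-b / 2, ?_, ?_⟩
  · rw [hp]
    simp
    ring
  · have hsub : {z : ℂ | p.eval z = 0} ⊆ Metric.closedBall (-b / 2) 1 := by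
      intro z hz0
      have hz0' : p.eval z = 0 := hz0
      rw [mem_closedBall_iff_norm]
      have h1 : p.eval (-b - z) = 0 := by
        rw [hev] at hz0' ⊢
        linear_combination hz0'
      have h2 := hz _ h1
      have h3 := hz _ hz0'
      have h4 : z - -b / 2 = (1 / 2 : ℂ) * (z - (-b - z)) := by ring
      rw [h4, norm_mul]
      have h5 : ‖(1 / 2 : ℂ)‖ = 1 / 2 := by norm_num
      rw [h5]
      have h6 := norm_sub_le z (-b - z)
      linarith
    have := convexHull_min hsub (convex_closedBall _ _) hζ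
    rw [mem_closedBall_iff_norm] at this
    rw [norm_sub_rev]; exact this

/-- The coefficients sum to at most one. -/
lemma sum_le_one (n : ℕ) (hn : 1 ≤ n) (b : ℕ → ℝ) (hb : ∀ i < n, 0 ≤ b i)
    (h : ∀ x : ℝ, x ^ n = ∑ i ∈ Finset.range n, b i * x ^ i → |x| ≤ 1) :
    ∑ i ∈ Finset.range n, b i ≤ 1 := by
  by_contra hlt
  push Not at hlt
  obtain ⟨B, hB⟩ : ∃ B : ℝ, B = ∑ i ∈ Finset.range n, b i := ⟨_, rfl⟩
  rw [← hB] at hlt
  have hcont : ContinuousOn (fun x : ℝ => x ^ n - ∑ i ∈ Finset.range n, b i * x ^ i)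
      (Set.Icc 1 B) := by
    apply Continuous.continuousOn
    fun_prop
  have h1 : (fun x : ℝ => x ^ n - ∑ i ∈ Finset.range n, b i * x ^ i) 1 < 0 := by
    simp only [one_pow, mul_one]
    rw [← hB]; linarith
  have h2 : 0 ≤ (fun x : ℝ => x ^ n - ∑ i ∈ Finset.range n, b i * x ^ i) B := by
    simp only
    have h3 : ∑ i ∈ Finset.range n, b i * B ^ i ≤ ∑ i ∈ Finset.range n, b i * B ^ (n - 1) := by
      apply Finset.sum_le_sum
      intro i hi
      have hin := Finset.mem_range.mp hi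
      apply mul_le_mul_of_nonneg_left _ (hb i hin)
      exact pow_le_pow_right₀ hlt.le (by omega)
    rw [← Finset.sum_mul, ← hB] at h3
    have h4 : B * B ^ (n - 1) = B ^ n := by
      rw [← pow_succ']; congr 1; omega
    linarith
  obtain ⟨x, hx, hx0⟩ := intermediate_value_Icc hlt.le hcont ⟨h1.le, h2⟩
  have h5 : x ^ n = ∑ i ∈ Finset.range n, b i * x ^ i := by
    simp only at hx0; linarith
  have h6 := h x h5
  have h7 : x = 1 := le_antisymm (le_of_abs_le h6) hx.1
  rw [h7] at hx0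
  linarith

/-- For every monic complex polynomial of degree n ≥ 2 whose lower coefficients are real and ≤ 0 and whose zeros all lie in the closed unit disc, every point of the convex hull of its zeros is within distance 1 of some zero of its derivative. -/
theorem result :
    ∀ (n : ℕ), 2 ≤ n → ∀ p : Polynomial ℂ, p.Monic → p.natDegree = n →
      (∀ k : ℕ, k < n → ∃ r : ℝ, r ≤ 0 ∧ p.coeff k = (r : ℂ)) →
      (∀ z : ℂ, p.eval z = 0 → ‖z‖ ≤ 1) →
      ∀ ζ ∈ convexHull ℝ {z : ℂ | p.eval z = 0},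
        ∃ w : ℂ, (Polynomial.derivative p).eval w = 0 ∧ ‖w - ζ‖ ≤ 1 := by
  intro n hn p hm hd hcoef hz ζ hζ
  rcases Nat.eq_or_lt_of_le hn with h2 | h3
  · exact two p hm (by omega) hz ζ hζ
  have hn3 : 3 ≤ n := h3
  by_contra hcon
  push Not at hcon
  -- coefficients
  obtain ⟨b, hb, hbc⟩ : ∃ b : ℕ → ℝ, (∀ i < n, 0 ≤ b i) ∧ ∀ i < n, p.coeff i = -(b i : ℂ) := by
    refine ⟨fun i => -(p.coeff i).re, ?_, ?_⟩
    · intro i hi
      obtain ⟨r, hr, hr2⟩ := hcoef i hi
      simp only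
      rw [hr2, Complex.ofReal_re]; linarith
    · intro i hi
      obtain ⟨r, hr, hr2⟩ := hcoef i hi
      simp only
      rw [hr2, Complex.ofReal_re]; push_cast; ring
  have hp : p = Polynomial.X ^ n
      + ∑ i ∈ Finset.range n, Polynomial.C (-(b i : ℂ)) * Polynomial.X ^ i := by
    have h := hm.as_sum
    rw [hd] at h
    conv_lhs => rw [h]
    congr 1
    apply Finset.sum_congr rfl
    intro i hi
    rw [hbc i (Finset.mem_range.mp hi)]
  have hev : ∀ z : ℂ, p.eval z = z ^ n - ∑ i ∈ Finset.range n, (b i : ℂ) * z ^ i := by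
    intro z
    rw [hp, Polynomial.eval_add, Polynomial.eval_finsetSum, sub_eq_add_neg,
      ← Finset.sum_neg_distrib]
    simp
  have hbs : ∑ i ∈ Finset.range n, b i ≤ 1 := by
    apply sum_le_one n (by omega) b hb
    intro x hx
    have h1 : p.eval (x : ℂ) = 0 := by
      rw [hev]
      have : ((x ^ n : ℝ) : ℂ) = ((∑ i ∈ Finset.range n, b i * x ^ i : ℝ) : ℂ) := by rw [hx]
      push_cast at this
      rw [this]; ring
    have h2 := hz _ h1
    rwa [Complex.norm_real] at h2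
  have hp0 : 0 < p.degree := by
    rw [← Polynomial.natDegree_pos_iff_degree_pos]; omega
  have hpne : p ≠ 0 := hm.ne_zero
  -- critical points lie in the unit disc
  have hroots : p.rootSet ℂ = {z : ℂ | p.eval z = 0} := by
    ext z
    rw [Polynomial.mem_rootSet, Polynomial.coe_aeval_eq_eval]
    simp [hpne]
  have hder_ne : Polynomial.derivative p ≠ 0 := by
    intro h
    have h1 := Polynomial.natDegree_derivative p
    rw [h, hd, Polynomial.natDegree_zero] at h1
    omega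
  have hcd : ∀ w : ℂ, (Polynomial.derivative p).eval w = 0 → ‖w‖ ≤ 1 := by
    intro w hw
    have h1 : w ∈ (Polynomial.derivative p).rootSet ℂ := by
      rw [Polynomial.mem_rootSet, Polynomial.coe_aeval_eq_eval]
      exact ⟨hder_ne, hw⟩
    have h2 := Polynomial.rootSet_derivative_subset_convexHull_rootSet hp0 h1
    rw [hroots] at h2
    have h3 : {z : ℂ | p.eval z = 0} ⊆ Metric.closedBall 0 1 := by
      intro z hz0
      rw [mem_closedBall_zero_iff]
      exact hz z hz0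
    have h4 := convexHull_min h3 (convex_closedBall _ _) h2
    rwa [mem_closedBall_zero_iff] at h4
  -- ζ ≠ 0
  have hζ0 : ζ ≠ 0 := by
    intro h0
    have hdeg : (Polynomial.derivative p).degree ≠ 0 := by
      intro hdeg
      have h1 := Polynomial.natDegree_eq_zero_iff_degree_le_zero.mpr hdeg.le
      rw [Polynomial.natDegree_derivative, hd] at h1
      omega
    obtain ⟨w, hw⟩ := IsAlgClosed.exists_root (Polynomial.derivative p) hdeg
    have h1 := hcon w hw
    rw [h0, sub_zero] at h1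
    exact absurd (hcd w hw) (not_le.mpr h1)
  -- a zero in the far half-plane
  obtain ⟨z, hz0, hzζ⟩ : ∃ z : ℂ, p.eval z = 0 ∧ ‖ζ‖ ^ 2 ≤ (z * conj ζ).re := by
    by_contra hno
    push Not at hno
    have hconv : Convex ℝ {z : ℂ | (z * conj ζ).re < ‖ζ‖ ^ 2} := by
      apply convex_halfSpace_lt (f := fun z : ℂ => (z * conj ζ).re)
      constructor
      · intro x y; simp only [add_mul, Complex.add_re]
      · intro c x; simp; ring
    have hsub : {z : ℂ | p.eval z = 0} ⊆ {z : ℂ | (z * conj ζ).re < ‖ζ‖ ^ 2} :=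
      fun z hz => hno z hz
    have h1 := convexHull_min hsub hconv hζ
    have h2 : (ζ * conj ζ).re < ‖ζ‖ ^ 2 := h1
    rw [Complex.mul_conj, Complex.ofReal_re, Complex.normSq_eq_norm_sq] at h2
    exact lt_irrefl _ h2
  have hζn : 0 < ‖ζ‖ ^ 2 := by
    have := norm_pos_iff.mpr hζ0
    positivity
  -- scale
  obtain ⟨c, hc⟩ : ∃ c : ℝ, c = (z * conj ζ).re / ‖ζ‖ ^ 2 := ⟨_, rfl⟩
  have hc1 : 1 ≤ c := by
    rw [hc, le_div_iff₀ hζn]; linarith
  have hcζ : c * ‖ζ‖ ^ 2 = (z * conj ζ).re := by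
    rw [hc]; field_simp
  have hzne : z ≠ 0 := by
    intro h; rw [h] at hzζ; simp at hzζ
    exact hζ0 hzζ
  refine contra n hn3 b hb hbs z (c * ζ) hzne (hz z hz0) ?_ ?_ p hp hd ?_
  · have := hev z
    rw [hz0] at this
    exact (sub_eq_zero.mp this.symm)
  · rw [norm_mul, Complex.norm_real, Real.norm_of_nonneg (by linarith), mul_pow, map_mul,
      Complex.conj_ofReal]
    have h1 : (z * ((c : ℂ) * conj ζ)).re = c * (z * conj ζ).re := by
      rw [← Complex.re_ofReal_mul]; congr 1; ring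
    rw [h1, ← hcζ]; ring
  · intro w hw
    by_contra hle
    push Not at hle
    have h1 := hcon w hw
    have h2 := hcd w hw
    -- convexity
    have hs : 0 ≤ c⁻¹ := by positivity
    have hs1 : c⁻¹ ≤ 1 := inv_le_one_of_one_le₀ hc1
    have hcC : (c : ℂ) ≠ 0 := by
      have : c ≠ 0 := by linarith
      exact_mod_cast this
    have h3 : w - ζ = (c⁻¹ : ℝ) * (w - c * ζ) + ((1 - c⁻¹ : ℝ) : ℂ) * w := by
      push_cast
      field_simp
      ring
    have h4 : ‖w - ζ‖ ≤ c⁻¹ * ‖w - c * ζ‖ + (1 - c⁻¹) * ‖w‖ := by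
      calc ‖w - ζ‖ = ‖((c⁻¹ : ℝ) : ℂ) * (w - c * ζ) + ((1 - c⁻¹ : ℝ) : ℂ) * w‖ := by rw [h3]
        _ ≤ ‖((c⁻¹ : ℝ) : ℂ) * (w - c * ζ)‖ + ‖((1 - c⁻¹ : ℝ) : ℂ) * w‖ := norm_add_le _ _
        _ = _ := by
          rw [norm_mul, norm_mul, Complex.norm_real, Complex.norm_real, Real.norm_of_nonneg hs,
            Real.norm_of_nonneg (by linarith)]
    have h5 : c⁻¹ * ‖w - c * ζ‖ ≤ c⁻¹ * 1 := mul_le_mul_of_nonneg_left hle hs
    have h6 : (1 - c⁻¹) * ‖w‖ ≤ (1 - c⁻¹) * 1 := mul_le_mul_of_nonneg_left h2 (by linarith)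
    linarith

end Pool.Agent.S03605
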