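import Pool.Statements.S03611
import Pool.Agent.Helper192.HK.G

/-!
# The Harris-Kadison question (Kaplansky's problem for C*-algebras): positive answer

Proof (all steps are in `Pool/Agent/Helper192/HK/`).

1. `F.lean`: `T` is bounded.  `σ(Tx) ⊆ σ(x)`.  If `x_n → 0` and `T x_n → b`, then for every `c` with
   `r(c) = 0` one has `r(b + c) = 0` (Ransford's three circles argument applied to
   `c + w T x_n + (b - T x_n) = T(y + (w-1) x_n)`).  With `c = -g b g⁻¹`, `g = 1 + s k`, the maximum principle gives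
   `r(bk - kb) = 0` for every `k`.  With `k = b*`: `b` is normal and `r(b) = 0`, so `b = 0`.
2. `F.lean`, `inv_bound`: for `a` invertible and `u ∈ A`, `σ(T(a)⁻¹ T(u)) ⊆ σ(a⁻¹ u)`, because
   `l - T(a)⁻¹T(u) = T(a)⁻¹ T(l a - u)` and `l a - u = a (l - a⁻¹ u)`.  By the open mapping theorem choose `u` with
   `T(u) = (T(a)⁻¹)*`, `‖u‖ ≤ K ‖T(a)⁻¹‖`; then `‖T(a)⁻¹‖² = r(T(a)⁻¹ (T(a)⁻¹)*) ≤ ‖a⁻¹‖ K ‖T(a)⁻¹‖`, so
   `‖T(a)⁻¹‖ ≤ K ‖a⁻¹‖` for every invertible `a`.
3. `A`-`E`: let `h = h*`, `X = σ(h)`, and represent `B` on a Hilbert space.  `S = π ∘ T : C(X) → B(H)` is bounded and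
   `‖S(f)⁻¹‖ ≤ K ‖f⁻¹‖`.  Strong-* limits of `S(φ_n)`, `φ_n ↑ 1_{h > s}`, exist (bounded maps from `C(X)` to a Hilbert
   space are unconditionally summing) and are idempotent: replace `φ` by `φ ± 2i φ(1-φ)`, whose values stay away from a
   given `l ∉ {0,1}`, so the resolvent of the limit is bounded by `C / min(|l|, |l-1|)`, which forces idempotency.
   Riemann sums of these idempotents converge to `S(h)` and (with weights) to `S(h²)`, whence `S(h²) = S(h)²`.
4. `G.lean`: GNS representations separate points; linearise.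
-/

set_option autoImplicit false
open Pool Pool.MP_92e372_an

namespace Pool.Agent.S03611

/-- For unital C*-algebras A and B, every surjective unital complex-linear map from A to B that sends invertible elements to invertible elements satisfies φ(a²) = φ(a)² for all a, i.e. is a Jordan homomorphism. -/
theorem result :
    ∀ (A B : Type) [CStarAlgebra A] [CStarAlgebra B] (φ : A →ₗ[ℂ] B),
      Function.Surjective φ → φ 1 = 1 → (∀ a : A, IsUnit a → IsUnit (φ a)) →
      ∀ a : A, φ (a * a) = φ a * φ a := by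
  intro A B _ _ φ hs h1 hT a
  exact Pool.Agent.Helper192.HK.harris_kadison A B φ hs h1 hT a

end Pool.Agent.S03611
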