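import Pool.Statements.S03616
import Pool.Agent.Helper224.Bl3
-- import your own Pool.Agent.* helpers here

set_option autoImplicit false
open scoped ENNReal
open Pool Pool.MP_9323ee_an

namespace Pool.Agent.S03616

/-- The negation of the preceding statement: There is a bi-Lipschitz map from real ℓ_∞ into the bounded real functions on ℝ whose image lies in c_0(ℝ), meaning each image has only finitely many coordinates of size at least ε, for every ε > 0. -/
theorem result :
    ¬ (∃ f : lp (fun _ : ℕ => ℝ) ∞ → lp (fun _ : ℝ => ℝ) ∞,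
      (∃ K : NNReal, LipschitzWith K f) ∧
      (∃ K : NNReal, AntilipschitzWith K f) ∧
      ∀ x : lp (fun _ : ℕ => ℝ) ∞, ∀ ε : ℝ, 0 < ε →
        Set.Finite {γ : ℝ | ε ≤ |f x γ|}) := by
  rintro ⟨f, ⟨D, hD⟩, ⟨A, hA⟩, hf⟩
  refine Pool.Agent.Helper224.Bl.main f D A ?_ ?_ D.2 A.2 hf
  · intro x y
    rw [← dist_eq_norm, ← dist_eq_norm]
    exact hD.dist_le_mul x y
  · intro x y
    rw [← dist_eq_norm, ← dist_eq_norm]
    exact hA.le_mul_dist x y

end Pool.Agent.S03616
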