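import Pool.Statements.S03622
import Pool.Agent.Helper212.Tame.Main

set_option autoImplicit false
open Pool Pool.MP_937f58_an

namespace Pool.Agent.S03622

/-- The negation of the preceding statement: For every Polish group G, evaluating the bounded right-uniformly-continuous real functions on G whose translate orbit has no independent sequence (the tame functions) gives a topological embedding of G into the product space, i.e. the universal tame compactification embeds G. -/
theorem result :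
    ¬ (∀ (G : Type) [TopologicalSpace G] [Group G] [IsTopologicalGroup G] [PolishSpace G],
      Topology.IsEmbedding
        (fun (g : G)
            (f : {f : G → ℝ //
              (∃ C : ℝ, ∀ x : G, |f x| ≤ C) ∧
              (∀ ε : ℝ, 0 < ε → ∃ V ∈ nhds (1 : G), ∀ v ∈ V, ∀ x : G, |f (v * x) - f x| < ε) ∧
              ¬ ∃ s : ℕ → G, ∃ a b : ℝ, a < b ∧
                ∀ P M : Finset ℕ, Disjoint P M →
                  ∃ x : G, (∀ n ∈ P, f (s n * x) < a) ∧ (∀ n ∈ M, b < f (s n * x))}) =>
          f.1 g)) := by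
  intro h
  have hP : PolishSpace (Multiplicative C(ℕ → Bool, ℝ)) :=
    inferInstanceAs (PolishSpace C(ℕ → Bool, ℝ))
  have he := h (Multiplicative C(ℕ → Bool, ℝ))
  obtain ⟨U, hU, hU1⟩ := Pool.Agent.Helper212.Tame.exists_ultra
  have hl : Filter.Tendsto (fun v : C(ℕ → Bool, ℝ) => Multiplicative.ofAdd v)
      (Pool.Agent.Helper212.Tame.FF U) (nhds (1 : Multiplicative C(ℕ → Bool, ℝ))) := by
    rw [he.isInducing.tendsto_nhds_iff, tendsto_pi_nhds]
    rintro ⟨f, ⟨C, hC⟩, hc, hi⟩
    have h1 : ContinuousAt (fun v : C(ℕ → Bool, ℝ) => f (Multiplicative.ofAdd v)) 0 := by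
      rw [Metric.continuousAt_iff']
      intro ε hε
      obtain ⟨V, hV, hV2⟩ := hc ε hε
      have h2 : {v : C(ℕ → Bool, ℝ) | Multiplicative.ofAdd v ∈ V} ∈ nhds (0 : C(ℕ → Bool, ℝ)) := hV
      filter_upwards [h2] with v hv
      have h3 := hV2 _ hv 1
      rw [mul_one] at h3
      exact h3
    exact Pool.Agent.Helper212.Tame.FF_tendsto hU hU1
      (fun v : C(ℕ → Bool, ℝ) => f (Multiplicative.ofAdd v)) (fun v => hC _) hi h1
  have h4 : {g : Multiplicative C(ℕ → Bool, ℝ) | ‖Multiplicative.toAdd g‖ < 1} ∈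
      nhds (1 : Multiplicative C(ℕ → Bool, ℝ)) := by
    have h5 : {v : C(ℕ → Bool, ℝ) | ‖v‖ < 1} ∈ nhds (0 : C(ℕ → Bool, ℝ)) := by
      have h6 := Metric.ball_mem_nhds (0 : C(ℕ → Bool, ℝ)) one_pos
      refine Filter.mem_of_superset h6 fun v hv => ?_
      rw [Metric.mem_ball, dist_zero_right] at hv
      exact hv
    exact h5
  have h7 : ∀ᶠ v : C(ℕ → Bool, ℝ) in Pool.Agent.Helper212.Tame.FF U, ‖v‖ < 1 := hl h4
  have := Pool.Agent.Helper212.Tame.FF_neBot (U := U)
  obtain ⟨v, hv1, hv2⟩ := (h7.and (Pool.Agent.Helper212.Tame.FF_norm hU1)).exists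
  exact absurd hv1 (not_lt.2 hv2)

end Pool.Agent.S03622
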