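import Pool.Statements.S03624

set_option autoImplicit false
open Filter Topology

namespace Pool.Agent.Helper830.TR

/-! ### the linear order and the tree -/

abbrev L : Type := ℝ ×ₗ ℕ

def rr (a : L) : ℝ := (ofLex a).1
def nn (a : L) : ℕ := (ofLex a).2
def mk (c : ℝ) (n : ℕ) : L := toLex (c, n)

@[simp] lemma rr_mk (c : ℝ) (n : ℕ) : rr (mk c n) = c := rfl
@[simp] lemma nn_mk (c : ℝ) (n : ℕ) : nn (mk c n) = n := rfl

lemma lt_iff (a b : L) : a < b ↔ rr a < rr b ∨ (rr a = rr b ∧ nn a < nn b) := Prod.Lex.lt_iff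

lemma ext_L {a b : L} (h1 : rr a = rr b) (h2 : nn a = nn b) : a = b := by
  apply (toLex (α := ℝ × ℕ)).symm.injective
  exact Prod.ext h1 h2

lemma rr_mono {a b : L} (h : a ≤ b) : rr a ≤ rr b := Prod.Lex.monotone_fst a b h

lemma lt_of_rr {a b : L} (h : rr a < rr b) : a < b := (lt_iff a b).mpr (Or.inl h)

def Nice (s : Set L) : Prop := s.IsWF ∧ ∀ a ∈ s, ∀ b ∈ s, rr a = rr b → a < b → nn a = 0

lemma Nice.mono {s t : Set L} (h : Nice t) (hst : s ⊆ t) : Nice s :=
  ⟨h.1.mono hst, fun a ha b hb => h.2 a (hst ha) b (hst hb)⟩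

lemma nice_insert {s : Set L} (hs : Nice s) {a : L} (h1 : ∀ b ∈ s, b < a)
    (h2 : ∀ b ∈ s, rr b = rr a → nn b = 0) : Nice (insert a s) := by
  refine ⟨hs.1.insert a, ?_⟩
  rintro x (rfl | hx) y (rfl | hy) hxy hlt
  · exact absurd hlt (lt_irrefl _)
  · exact absurd hlt (lt_asymm (h1 y hy))
  · exact h2 x hx hxy
  · exact hs.2 x hx y hy hxy hlt

abbrev T : Type := {s : Set L // Nice s}

/-- initial segment -/
def Ini (s t : Set L) : Prop := s ⊆ t ∧ ∀ a ∈ t, ∀ b ∈ s, a ≤ b → a ∈ s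

lemma Ini.refl (s : Set L) : Ini s s := ⟨subset_rfl, fun _ ha _ _ _ => ha⟩

lemma Ini.trans {s t u : Set L} (h1 : Ini s t) (h2 : Ini t u) : Ini s u :=
  ⟨h1.1.trans h2.1, fun a ha b hb hab => h1.2 a (h2.2 a ha b (h1.1 hb) hab) b hb hab⟩

lemma ini_insert {s : Set L} {a : L} (h1 : ∀ b ∈ s, b < a) : Ini s (insert a s) := by
  refine ⟨Set.subset_insert _ _, ?_⟩
  rintro x (rfl | hx) b hb hxb
  · exact absurd (h1 b hb) (not_lt.mpr hxb)
  · exact hx

abbrev J : Type := T × L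

/-- the node u = (v, a) lies on the chain of s -/
def On (s : Set L) (u : J) : Prop := u.2 ∈ s ∧ (u.1 : Set L) = s ∩ Set.Iio u.2

lemma On.mono {s t : Set L} (h : Ini s t) {u : J} (hu : On s u) : On t u := by
  refine ⟨h.1 hu.1, ?_⟩
  rw [hu.2]
  ext b
  constructor
  · rintro ⟨h1, h2⟩; exact ⟨h.1 h1, h2⟩
  · rintro ⟨h1, h2⟩; exact ⟨h.2 b h1 _ hu.1 (le_of_lt h2), h2⟩

lemma gap (s : T) (c : ℝ) : ∃ q : ℝ, c < q ∧ ∀ u : J, On s u → c < rr u.2 → q ≤ rr u.2 := by
  by_cases hne : ({a ∈ (s : Set L) | c < rr a}).Nonempty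
  · have hwf : ({a ∈ (s : Set L) | c < rr a}).IsWF := s.2.1.mono (fun a ha => ha.1)
    refine ⟨rr (hwf.min hne), (hwf.min_mem hne).2, ?_⟩
    intro u hu hc
    exact rr_mono (hwf.min_le hne ⟨hu.1, hc⟩)
  · refine ⟨c + 1, by linarith, ?_⟩
    intro u hu hc
    exact absurd ⟨u.2, hu.1, hc⟩ hne

lemma sec_finite {s : Set L} (hs : Nice s) (ρ : ℝ) : {a ∈ s | rr a = ρ}.Finite := by
  have hsub : {a ∈ s | rr a = ρ} ⊆ {mk ρ 0} ∪ {a ∈ s | rr a = ρ ∧ nn a ≠ 0} := by
    rintro a ⟨ha, hr⟩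
    by_cases h0 : nn a = 0
    · left; exact ext_L hr h0
    · right; exact ⟨ha, hr, h0⟩
  have hss : ({a ∈ s | rr a = ρ ∧ nn a ≠ 0}).Subsingleton := by
    rintro a ⟨ha, hra, hna⟩ b ⟨hb, hrb, hnb⟩
    rcases lt_trichotomy a b with h | h | h
    · exact absurd (hs.2 a ha b hb (hra.trans hrb.symm) h) hna
    · exact h
    · exact absurd (hs.2 b hb a ha (hrb.trans hra.symm) h) hnb
  exact ((Set.finite_singleton _).union hss.finite).subset hsub

lemma fin (s : T) (ρ : ℝ) : {u : J | On s u ∧ rr u.2 = ρ}.Finite := by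
  apply Set.Finite.of_finite_image (f := fun u : J => u.2)
  · apply (sec_finite s.2 ρ).subset
    rintro _ ⟨u, ⟨hu, hr⟩, rfl⟩
    exact ⟨hu.1, hr⟩
  · rintro u ⟨hu, _⟩ v ⟨hv, _⟩ (huv : u.2 = v.2)
    apply Prod.ext
    · apply Subtype.ext
      rw [hu.2, hv.2, huv]
    · exact huv

/-! ### cardinality -/

lemma wf_countable {A : Set ℝ} (hA : A.IsWF) : A.Countable := by
  have key : ∀ x ∈ A, ∃ y, x < y ∧ ∀ z ∈ A, x < z → y ≤ z := by
    intro x _
    by_cases hne : ({z ∈ A | x < z}).Nonempty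
    · have hwf : ({z ∈ A | x < z}).IsWF := hA.mono (fun a ha => ha.1)
      exact ⟨hwf.min hne, (hwf.min_mem hne).2, fun z hz hxz => hwf.min_le hne ⟨hz, hxz⟩⟩
    · exact ⟨x + 1, by linarith, fun z hz hxz => absurd ⟨z, hz, hxz⟩ hne⟩
  choose! y hy1 hy2 using key
  apply Set.PairwiseDisjoint.countable_of_Ioo (y := y) _ hy1
  intro a ha b hb hab
  simp only [Function.onFun]
  rcases lt_or_gt_of_ne hab with h | h
  · have := hy2 a ha b hb h
    rw [Set.disjoint_iff_forall_ne]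
    intro u hu v hv
    exact ((hu.2.trans_le this).trans hv.1).ne
  · have := hy2 b hb a ha h
    rw [Set.disjoint_iff_forall_ne]
    intro u hu v hv
    exact ((hv.2.trans_le this).trans hu.1).ne'

lemma nice_countable {s : Set L} (hs : Nice s) : s.Countable := by
  have h1 : (rr '' s).IsWF :=
    (Set.IsPWO.image_of_monotone hs.1.isPWO (fun a b h => rr_mono h)).isWF
  have h2 := wf_countable h1
  have h3 : s ⊆ ⋃ ρ ∈ rr '' s, {a ∈ s | rr a = ρ} := by
    intro a ha
    exact Set.mem_biUnion ⟨a, ha, rfl⟩ ⟨ha, rfl⟩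
  exact (h2.biUnion (fun ρ _ => (sec_finite hs ρ).countable)).mono h3

lemma mk_L : Cardinal.mk L = Cardinal.continuum := by
  have h1 : Cardinal.mk L = Cardinal.mk (ℝ × ℕ) := Cardinal.mk_congr (ofLex (α := ℝ × ℕ))
  rw [h1, Cardinal.mk_prod]
  simp [Cardinal.mk_real]

lemma exists_iota : ∃ ι : J → ℝ, Function.Injective ι := by
  have h1 : Cardinal.mk T ≤ Cardinal.continuum := by
    have e1 : Cardinal.mk T ≤ Cardinal.mk {t : Set L // Cardinal.mk t ≤ Cardinal.aleph0} := by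
      refine ⟨⟨fun s => ⟨s.1, ?_⟩, ?_⟩⟩
      · exact Cardinal.le_aleph0_iff_set_countable.mpr (nice_countable s.2)
      · intro s t hst
        exact Subtype.ext (congrArg (fun z => z.1) hst)
    refine e1.trans ((Cardinal.mk_bounded_set_le L Cardinal.aleph0).trans ?_)
    rw [mk_L, max_eq_left Cardinal.aleph0_le_continuum, Cardinal.continuum_power_aleph0]
  have h2 : Cardinal.mk J ≤ Cardinal.mk ℝ := by
    rw [Cardinal.mk_prod, Cardinal.lift_id, Cardinal.lift_id, Cardinal.mk_real, mk_L]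
    calc Cardinal.mk T * Cardinal.continuum ≤ Cardinal.continuum * Cardinal.continuum :=
          mul_le_mul_left h1 _
      _ = Cardinal.continuum := Cardinal.continuum_mul_self
  obtain ⟨e⟩ := h2
  exact ⟨e, e.injective⟩

/-! ### the space -/

section Space

abbrev B : Type := lp (fun _ : J => ℝ) ⊤

open Classical in
noncomputable def eFun (s : T) (u : J) : ℝ := if On s u then 1 else 0

lemma eFun_mem (s : T) : Memℓp (eFun s) ⊤ := by
  apply memℓp_infty
  refine ⟨1, ?_⟩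
  rintro _ ⟨u, rfl⟩
  simp only [eFun]
  split_ifs <;> simp

noncomputable def e (s : T) : B := ⟨eFun s, eFun_mem s⟩

lemma e_of_on {s : T} {u : J} (h : On s u) : (e s : J → ℝ) u = 1 := if_pos h

lemma e_of_not {s : T} {u : J} (h : ¬ On s u) : (e s : J → ℝ) u = 0 := if_neg h

noncomputable def XS : Submodule ℝ B := (Submodule.span ℝ (Set.range e)).topologicalClosure

abbrev X : Type := ↥XS

noncomputable instance : CompleteSpace X :=
  (Submodule.isClosed_topologicalClosure (Submodule.span ℝ (Set.range e))).completeSpace_coe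

def ev (x : X) (u : J) : ℝ := (x.1 : J → ℝ) u

noncomputable def E (s : T) : X :=
  ⟨e s, Submodule.le_topologicalClosure _ (Submodule.subset_span ⟨s, rfl⟩)⟩

lemma ev_E_on {s : T} {u : J} (h : On s u) : ev (E s) u = 1 := e_of_on h
lemma ev_E_not {s : T} {u : J} (h : ¬ On s u) : ev (E s) u = 0 := e_of_not h

lemma ev_add (x y : X) (u : J) : ev (x + y) u = ev x u + ev y u := rfl
lemma ev_sub (x y : X) (u : J) : ev (x - y) u = ev x u - ev y u := rfl
lemma ev_smul (c : ℝ) (x : X) (u : J) : ev (c • x) u = c * ev x u := rfl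

lemma ev_sum {ι : Type} (S : Finset ι) (x : ι → X) (u : J) :
    ev (∑ i ∈ S, x i) u = ∑ i ∈ S, ev (x i) u := by
  classical
  induction S using Finset.induction_on with
  | empty => rfl
  | insert i S hi ih => rw [Finset.sum_insert hi, Finset.sum_insert hi, ev_add, ih]

lemma abs_ev_le (x : X) (u : J) : |ev x u| ≤ ‖x‖ := by
  have := lp.norm_apply_le_norm (p := ⊤) (by simp) x.1 u
  exact this

lemma norm_le_of_ev (x : X) {C : ℝ} (hC : 0 ≤ C) (h : ∀ u, |ev x u| ≤ C) : ‖x‖ ≤ C := by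
  have : ‖x.1‖ ≤ C := lp.norm_le_of_forall_le hC (fun u => h u)
  exact this

lemma ext_X {x y : X} (h : ∀ u, ev x u = ev y u) : x = y := by
  apply Subtype.ext
  apply lp.ext
  funext u
  exact h u

lemma supp_span (z : B) (hz : z ∈ Submodule.span ℝ (Set.range e)) :
    ∃ S : Finset T, ∀ u : J, (z : J → ℝ) u ≠ 0 → ∃ s ∈ S, On s u := by
  classical
  induction hz using Submodule.span_induction with
  | mem x hx =>
    obtain ⟨s, rfl⟩ := hx
    refine ⟨{s}, fun u hu => ⟨s, Finset.mem_singleton_self s, ?_⟩⟩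
    by_contra hcon
    exact hu (e_of_not hcon)
  | zero => exact ⟨∅, fun u hu => absurd rfl hu⟩
  | add x y _ _ hx hy =>
    obtain ⟨S1, h1⟩ := hx
    obtain ⟨S2, h2⟩ := hy
    refine ⟨S1 ∪ S2, fun u hu => ?_⟩
    have hu' : (x : J → ℝ) u + (y : J → ℝ) u ≠ 0 := hu
    by_cases h0 : (x : J → ℝ) u = 0
    · have : (y : J → ℝ) u ≠ 0 := by
        intro h; apply hu'; rw [h0, h, add_zero]
      obtain ⟨s, hs, hs'⟩ := h2 u this
      exact ⟨s, Finset.mem_union_right _ hs, hs'⟩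
    · obtain ⟨s, hs, hs'⟩ := h1 u h0
      exact ⟨s, Finset.mem_union_left _ hs, hs'⟩
  | smul c x _ hx =>
    obtain ⟨S1, h1⟩ := hx
    refine ⟨S1, fun u hu => h1 u ?_⟩
    intro h0
    apply hu
    show c * (x : J → ℝ) u = 0
    rw [h0, mul_zero]

lemma supp (z : X) {ε : ℝ} (hε : 0 < ε) :
    ∃ S : Finset T, ∀ u : J, ε ≤ |ev z u| → ∃ s ∈ S, On s u := by
  have hz : z.1 ∈ closure (Submodule.span ℝ (Set.range e) : Set B) := z.2
  obtain ⟨z', hz', hd⟩ := Metric.mem_closure_iff.mp hz ε hε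
  obtain ⟨S, hS⟩ := supp_span z' hz'
  refine ⟨S, fun u hu => hS u ?_⟩
  intro h0
  have h1 : |(z.1 - z' : J → ℝ) u| ≤ ‖z.1 - z'‖ := by
    have := lp.norm_apply_le_norm (p := ⊤) (by simp) (z.1 - z') u
    exact this
  have h2 : (z.1 - z' : J → ℝ) u = ev z u := by
    show (z.1 : J → ℝ) u - (z' : J → ℝ) u = ev z u
    rw [h0, sub_zero]; rfl
  rw [h2] at h1
  rw [dist_eq_norm] at hd
  linarith

lemma gapX (z : X) {ε : ℝ} (hε : 0 < ε) (c : ℝ) :
    ∃ q : ℚ, c < q ∧ ∀ w : J, c < rr w.2 → rr w.2 < q → |ev z w| < ε := by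
  classical
  obtain ⟨S, hS⟩ := supp z hε
  have h1 : ∀ S : Finset T, ∃ q : ℝ, c < q ∧ ∀ s ∈ S, ∀ u : J, On s u → c < rr u.2 → q ≤ rr u.2 := by
    intro S
    induction S using Finset.induction_on with
    | empty => exact ⟨c + 1, by linarith, fun s hs => absurd hs (Finset.notMem_empty s)⟩
    | insert s S hs ih =>
      obtain ⟨q, hq, hq'⟩ := ih
      obtain ⟨q1, hq1, hq1'⟩ := gap s c
      refine ⟨min q q1, lt_min hq hq1, ?_⟩
      intro t ht u hu hc
      rcases Finset.mem_insert.mp ht with rfl | ht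
      · exact (min_le_right _ _).trans (hq1' u hu hc)
      · exact (min_le_left _ _).trans (hq' t ht u hu hc)
  obtain ⟨q, hq, hq'⟩ := h1 S
  obtain ⟨p, hp1, hp2⟩ := exists_rat_btwn hq
  refine ⟨p, hp1, ?_⟩
  intro w hw1 hw2
  by_contra hcon
  push Not at hcon
  obtain ⟨s, hs, hon⟩ := hS w hcon
  have := hq' s hs w hon hw1
  linarith

lemma finX (z : X) {ε : ℝ} (hε : 0 < ε) (ρ : ℝ) : {u : J | rr u.2 = ρ ∧ ε ≤ |ev z u|}.Finite := by
  obtain ⟨S, hS⟩ := supp z hε
  have h1 : (⋃ s ∈ S, {u : J | On s u ∧ rr u.2 = ρ}).Finite :=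
    S.finite_toSet.biUnion (fun s _ => fin s ρ)
  refine h1.subset ?_
  rintro u ⟨hu1, hu2⟩
  obtain ⟨s, hs, hon⟩ := hS u hu2
  exact Set.mem_biUnion (Finset.mem_coe.mpr hs) ⟨hon, hu1⟩

/-! ### the embedding -/

def AA (ι : J → ℝ) (q α ε : ℚ) (V : Set ℝ) : Set X :=
  {z | ∃ u : J, ι u ∈ V ∧ |ev z u - α| ≤ ε ∧ rr u.2 < q ∧
    ∀ w : J, rr u.2 < rr w.2 → rr w.2 < q → |ev z w| ≤ ε}

abbrev Idx : Type := ℚ × ℚ × ℚ × ↥(TopologicalSpace.countableBasis ℝ)

instance : Countable ↥(TopologicalSpace.countableBasis ℝ) :=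
  (TopologicalSpace.countable_countableBasis ℝ).to_subtype

instance : Countable Idx := inferInstance

instance : Nonempty ↥(TopologicalSpace.countableBasis ℝ) := by
  have h := (TopologicalSpace.isBasis_countableBasis ℝ).sUnion_eq
  have h0 : (0 : ℝ) ∈ ⋃₀ TopologicalSpace.countableBasis ℝ := by rw [h]; trivial
  obtain ⟨V, hV, _⟩ := h0
  exact ⟨⟨V, hV⟩⟩

instance : Nonempty Idx := inferInstance

noncomputable def FF (ι : J → ℝ) (i : Idx) (x : X) : ℝ :=
  Metric.infDist x (AA ι i.1 i.2.1 i.2.2.1 i.2.2.2.1)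

lemma FF_lip (ι : J → ℝ) (i : Idx) (x y : X) : |FF ι i x - FF ι i y| ≤ ‖x - y‖ := by
  have h := (Metric.lipschitz_infDist_pt (AA ι i.1 i.2.1 i.2.2.1 i.2.2.2.1)).dist_le_mul x y
  rw [Real.dist_eq, dist_eq_norm, NNReal.coe_one, one_mul] at h
  exact h

lemma sep_one (ι : J → ℝ) (hι : Function.Injective ι) (x y : X) (u0 : J) {d : ℝ} (hd : 0 < d)
    (h1 : 9 / 10 * d < |ev x u0 - ev y u0|) (h2 : |ev y u0| ≤ |ev x u0|) :
    ∃ i : Idx, d / 6 ≤ |FF ι i x - FF ι i y| := by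
  obtain ⟨ε, hε0, hε1⟩ := exists_rat_btwn (show (0:ℝ) < d / 100 by positivity)
  obtain ⟨α, hα1, hα2⟩ := exists_rat_btwn (show ev x u0 - ε < ev x u0 by linarith)
  have hα : |ev x u0 - α| ≤ ε := by rw [abs_le]; constructor <;> linarith
  obtain ⟨q, hq1, hq2⟩ := gapX x hε0 (rr u0.2)
  set C : Set J := {u | rr u.2 < q ∧ |ev y u - α| ≤ ε + d / 6 ∧
    ∀ w : J, rr u.2 < rr w.2 → rr w.2 < q → |ev y w| ≤ ε + d / 6} with hC
  have hx0 : 9 / 20 * d < |ev x u0| := by
    have := abs_sub (ev x u0) (ev y u0)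
    linarith
  have hαabs : 9 / 20 * d - ε < |(α : ℝ)| := by
    have h3 : |ev x u0| ≤ |ev x u0 - α| + |(α : ℝ)| := by
      have := abs_add_le (ev x u0 - α) (α : ℝ)
      rwa [sub_add_cancel] at this
    linarith
  have hbig : ∀ u ∈ C, ε + d / 6 < |ev y u| := by
    rintro u ⟨_, hu2, _⟩
    have h3 : |(α : ℝ)| ≤ |ev y u - α| + |ev y u| := by
      have := abs_sub (ev y u) (ev y u - α)
      rw [sub_sub_cancel] at this
      linarith
    linarith
  have hCfin : C.Finite := by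
    by_cases hne : C.Nonempty
    · obtain ⟨u1, hu1⟩ := hne
      have hsame : ∀ u ∈ C, rr u.2 = rr u1.2 := by
        intro u hu
        rcases lt_trichotomy (rr u.2) (rr u1.2) with h | h | h
        · have h3 := hu.2.2 u1 h hu1.1
          have h4 := hbig u1 hu1
          linarith
        · exact h
        · have h3 := hu1.2.2 u h hu.1
          have h4 := hbig u hu
          linarith
      refine (finX y (show (0:ℝ) < ε + d / 6 by positivity) (rr u1.2)).subset ?_
      intro u hu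
      exact ⟨hsame u hu, (hbig u hu).le⟩
    · rw [Set.not_nonempty_iff_eq_empty] at hne
      rw [hne]; exact Set.finite_empty
  have hfin2 : (ι '' (C \ {u0})).Finite := (hCfin.subset Set.sdiff_subset).image _
  have hnot : ι u0 ∉ ι '' (C \ {u0}) := by
    rintro ⟨u, hu, hu'⟩
    exact hu.2 (hι hu')
  obtain ⟨V, hVb, hV0, hVsub⟩ := (TopologicalSpace.isBasis_countableBasis ℝ).exists_subset_of_mem_open
    (show ι u0 ∈ (ι '' (C \ {u0}))ᶜ from hnot) hfin2.isClosed.isOpen_compl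
  refine ⟨⟨q, α, ε, ⟨V, hVb⟩⟩, ?_⟩
  have hxA : x ∈ AA ι q α ε V :=
    ⟨u0, hV0, hα, hq1, fun w hw1 hw2 => (hq2 w hw1 hw2).le⟩
  have hfx : FF ι ⟨q, α, ε, ⟨V, hVb⟩⟩ x = 0 := Metric.infDist_zero_of_mem hxA
  have hfy : d / 6 ≤ FF ι ⟨q, α, ε, ⟨V, hVb⟩⟩ y := by
    unfold FF
    apply (Metric.le_infDist ⟨x, hxA⟩).mpr
    rintro z ⟨u, hu1, hu2, hu3, hu4⟩
    by_contra hcon
    push Not at hcon
    rw [dist_eq_norm] at hcon
    have hyz : ∀ w, |ev y w - ev z w| < d / 6 := by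
      intro w
      have := abs_ev_le (y - z) w
      rw [ev_sub] at this
      exact this.trans_lt hcon
    have huC : u ∈ C := by
      refine ⟨hu3, ?_, ?_⟩
      · have h3 : ev y u - α = (ev y u - ev z u) + (ev z u - α) := by ring
        rw [h3]
        refine (abs_add_le _ _).trans ?_
        have := hyz u
        linarith
      · intro w hw1 hw2
        have h3 : ev y w = (ev y w - ev z w) + ev z w := by ring
        rw [h3]
        refine (abs_add_le _ _).trans ?_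
        have := hyz w
        have := hu4 w hw1 hw2
        linarith
    by_cases hu0 : u = u0
    · rw [hu0] at huC
      have h3 := huC.2.1
      have h4 : ev x u0 - ev y u0 = (ev x u0 - α) - (ev y u0 - α) := by ring
      rw [h4] at h1
      have h5 := abs_sub (ev x u0 - α) (ev y u0 - α)
      linarith
    · exact hVsub hu1 ⟨u, ⟨huC, hu0⟩, rfl⟩
  rw [hfx, zero_sub, abs_neg]
  exact hfy.trans (le_abs_self _)

lemma sep_all (ι : J → ℝ) (hι : Function.Injective ι) (x y : X) (hxy : x ≠ y) :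
    ∃ i : Idx, ‖x - y‖ / 6 ≤ |FF ι i x - FF ι i y| := by
  have hd : 0 < ‖x - y‖ := norm_pos_iff.mpr (sub_ne_zero.mpr hxy)
  obtain ⟨u0, hu0⟩ : ∃ u0, 9 / 10 * ‖x - y‖ < |ev x u0 - ev y u0| := by
    by_contra hcon
    push Not at hcon
    have := norm_le_of_ev (x - y) (C := 9 / 10 * ‖x - y‖) (by positivity) (fun u => hcon u)
    linarith
  rcases le_total |ev y u0| |ev x u0| with h | h
  · exact sep_one ι hι x y u0 hd hu0 h
  · rw [abs_sub_comm] at hu0
    obtain ⟨i, hi⟩ := sep_one ι hι y x u0 hd hu0 h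
    exact ⟨i, by rwa [abs_sub_comm]⟩

theorem embed : ∃ f : X → lp (fun _ : ℕ => ℝ) ⊤, ∃ K₁ K₂ : NNReal,
    LipschitzWith K₁ f ∧ AntilipschitzWith K₂ f := by
  obtain ⟨ι, hι⟩ := exists_iota
  obtain ⟨en, hen⟩ := exists_surjective_nat Idx
  have hmem : ∀ x : X, Memℓp (fun k : ℕ => FF ι (en k) x - FF ι (en k) 0) ⊤ := by
    intro x
    apply memℓp_infty
    refine ⟨‖x‖, ?_⟩
    rintro _ ⟨k, rfl⟩
    have := FF_lip ι (en k) x 0
    rw [sub_zero] at this
    exact this
  let φ : X → lp (fun _ : ℕ => ℝ) ⊤ := fun x => ⟨_, hmem x⟩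
  have hφsub : ∀ x y k, (φ x - φ y) k = FF ι (en k) x - FF ι (en k) y := by
    intro x y k
    have : (φ x - φ y) k = φ x k - φ y k := rfl
    rw [this]
    show FF ι (en k) x - FF ι (en k) 0 - (FF ι (en k) y - FF ι (en k) 0) = _
    ring
  refine ⟨φ, 1, 6, ?_, ?_⟩
  · apply LipschitzWith.of_dist_le_mul
    intro x y
    rw [dist_eq_norm, dist_eq_norm, NNReal.coe_one, one_mul]
    apply lp.norm_le_of_forall_le (norm_nonneg _)
    intro k
    rw [hφsub]
    exact FF_lip ι (en k) x y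
  · apply AntilipschitzWith.of_le_mul_dist
    intro x y
    rw [dist_eq_norm, dist_eq_norm]
    by_cases hxy : x = y
    · rw [hxy]; simp
    obtain ⟨i, hi⟩ := sep_all ι hι x y hxy
    obtain ⟨k, rfl⟩ := hen i
    have h1 : |FF ι (en k) x - FF ι (en k) y| ≤ ‖φ x - φ y‖ := by
      have := lp.norm_apply_le_norm (p := ⊤) (by simp) (φ x - φ y) k
      rw [hφsub] at this
      exact this
    have h2 : ((6 : NNReal) : ℝ) = 6 := by norm_num
    rw [h2]
    linarith

end Space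

/-! ### no strictly convex norm -/

section NoSC

def F (t : T) : Set X :=
  {x | (∀ u : J, On t u → ev x u = 1) ∧ ∀ u : J, ¬ On t u → ¬ Ini (t : Set L) (u.1 : Set L) → ev x u = 0}

lemma E_mem_F (t : T) : E t ∈ F t :=
  ⟨fun _ h => ev_E_on h, fun _ h _ => ev_E_not h⟩

lemma F_mono {s t : T} (h : Ini (s : Set L) t) : F t ⊆ F s := by
  rintro x ⟨h1, h2⟩
  refine ⟨fun u hu => h1 u (hu.mono h), ?_⟩
  intro u hu1 hu2
  by_cases hon : On t u
  · exfalso
    apply hu2
    have ha : u.2 ∉ (s : Set L) := by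
      intro ha
      apply hu1
      refine ⟨ha, ?_⟩
      rw [hon.2]
      ext b
      constructor
      · rintro ⟨h3, h4⟩; exact ⟨h.2 b h3 _ ha (le_of_lt h4), h4⟩
      · rintro ⟨h3, h4⟩; exact ⟨h.1 h3, h4⟩
    rw [hon.2]
    refine ⟨?_, ?_⟩
    · intro b hb
      refine ⟨h.1 hb, ?_⟩
      rw [Set.mem_Iio]
      by_contra hcon
      push Not at hcon
      exact ha (h.2 _ hon.1 b hb hcon)
    · rintro a ⟨ha1, _⟩ b hb hab
      exact h.2 a ha1 b hb hab
  · exact h2 u hon (fun hini => hu2 (h.trans hini))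

lemma F_half {t : T} {x y : X} (hx : x ∈ F t) (hy : y ∈ F t) : (1 / 2 : ℝ) • (x + y) ∈ F t := by
  refine ⟨fun u hu => ?_, fun u h1 h2 => ?_⟩
  · rw [ev_smul, ev_add, hx.1 u hu, hy.1 u hu]; norm_num
  · rw [ev_smul, ev_add, hx.2 u h1 h2, hy.2 u h1 h2]; norm_num

variable (N : X → ℝ) {c C : ℝ} (hc : 0 < c) (hC : 0 < C)
  (hN1 : ∀ x : X, c * ‖x‖ ≤ N x ∧ N x ≤ C * ‖x‖)
  (hN2 : ∀ x y : X, N (x + y) ≤ N x + N y)
  (hN3 : ∀ (r : ℝ) (x : X), N (r • x) = |r| * N x)

noncomputable def mu (t : T) : ℝ := sInf (N '' F t)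

include hc hN1 in
lemma N_nonneg (x : X) : 0 ≤ N x := le_trans (by positivity) (hN1 x).1

include hc hN1 in
lemma bdd (t : T) : BddBelow (N '' F t) := ⟨0, by rintro _ ⟨x, _, rfl⟩; exact N_nonneg N hc hN1 x⟩

include hc hN1 in
lemma mu_le {t : T} {x : X} (hx : x ∈ F t) : mu N t ≤ N x :=
  csInf_le (bdd N hc hN1 t) ⟨x, hx, rfl⟩

include hc hN1 in
lemma mu_mono {s t : T} (h : Ini (s : Set L) t) : mu N s ≤ mu N t :=
  csInf_le_csInf (bdd N hc hN1 s) ⟨_, E t, E_mem_F t, rfl⟩ (Set.image_mono (F_mono h))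

lemma exists_near (t : T) {ε : ℝ} (hε : 0 < ε) : ∃ x ∈ F t, N x < mu N t + ε := by
  have h : sInf (N '' F t) < mu N t + ε := by
    show mu N t < mu N t + ε
    linarith
  have hne : (N '' F t).Nonempty := ⟨_, E t, E_mem_F t, rfl⟩
  obtain ⟨_, ⟨x, hx, rfl⟩, hlt⟩ := exists_lt_of_csInf_lt hne h
  exact ⟨x, hx, hlt⟩

include hN2 hN3 in
lemma N_sum {ι : Type} (S : Finset ι) (x : ι → X) : N (∑ i ∈ S, x i) ≤ ∑ i ∈ S, N (x i) := by
  classical
  induction S using Finset.induction_on with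
  | empty =>
    have := hN3 0 0
    rw [zero_smul, abs_zero, zero_mul] at this
    simp [this]
  | insert i S hi ih =>
    rw [Finset.sum_insert hi, Finset.sum_insert hi]
    exact (hN2 _ _).trans (by linarith)

include hc hC hN1 hN2 hN3 in
lemma avg (s : T) (S : ℕ → T) (hI : ∀ n, Ini (s : Set L) (S n))
    (hd : ∀ n m (u : J), n ≠ m → ¬ On s u → (On (S n) u ∨ Ini (S n : Set L) (u.1 : Set L)) →
      (On (S m) u ∨ Ini (S m : Set L) (u.1 : Set L)) → False) (m : ℝ) (hm : ∀ n, mu N (S n) ≤ m) :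
    N (E s) ≤ m := by
  apply le_of_forall_pos_le_add
  intro ε hε
  choose x hx hxN using fun n => exists_near N (S n) (half_pos hε)
  have hm0 : 0 ≤ m + ε / 2 := by
    have := N_nonneg N hc hN1 (x 0)
    have := hxN 0
    have := hm 0
    linarith
  set Bd : ℝ := (m + ε / 2) / c with hBd
  have hBd0 : 0 ≤ Bd := by positivity
  have hxB : ∀ n, ‖x n‖ ≤ Bd := by
    intro n
    rw [hBd, le_div_iff₀ hc]
    have h1 := (hN1 (x n)).1
    have := hxN n
    have := hm n
    linarith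
  obtain ⟨K, hK⟩ := exists_nat_gt (2 * C * Bd / ε)
  have hK0 : (0 : ℝ) < (K : ℝ) := lt_of_le_of_lt (by positivity) hK
  set y : X := ((K : ℝ)⁻¹) • ∑ n ∈ Finset.range K, x n with hy
  have hNy : N y ≤ m + ε / 2 := by
    rw [hy, hN3, abs_of_pos (by positivity), inv_mul_le_iff₀ hK0]
    refine (N_sum N hN2 hN3 _ _).trans ?_
    calc ∑ n ∈ Finset.range K, N (x n) ≤ ∑ n ∈ Finset.range K, (m + ε / 2) := by
          apply Finset.sum_le_sum
          intro n _
          have := hxN n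
          have := hm n
          linarith
      _ = K * (m + ε / 2) := by rw [Finset.sum_const, Finset.card_range, nsmul_eq_mul]
  have hdist : ‖E s - y‖ ≤ Bd / K := by
    apply norm_le_of_ev _ (by positivity)
    intro u
    rw [ev_sub, hy, ev_smul, ev_sum]
    by_cases hon : On s u
    · rw [ev_E_on hon, Finset.sum_congr rfl (fun n _ => (hx n).1 u (hon.mono (hI n))),
        Finset.sum_const, Finset.card_range, nsmul_eq_mul, mul_one, inv_mul_cancel₀ hK0.ne', sub_self,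
        abs_zero]
      positivity
    · rw [ev_E_not hon, zero_sub, abs_neg, abs_mul, abs_of_pos (by positivity), div_eq_inv_mul]
      apply mul_le_mul_of_nonneg_left _ (by positivity)
      by_cases hall : ∀ n ∈ Finset.range K, ev (x n) u = 0
      · rw [Finset.sum_eq_zero hall, abs_zero]; exact hBd0
      · push Not at hall
        obtain ⟨n0, hn0, hne⟩ := hall
        have hin : ∀ n, ev (x n) u ≠ 0 → (On (S n) u ∨ Ini (S n : Set L) (u.1 : Set L)) := by
          intro n hn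
          by_contra hcon
          push Not at hcon
          exact hn ((hx n).2 u hcon.1 hcon.2)
        rw [Finset.sum_eq_single n0]
        · exact (abs_ev_le _ _).trans (hxB n0)
        · intro n _ hnn
          by_contra hcon
          exact hd n n0 u hnn hon (hin n hcon) (hin n0 hne)
        · intro h; exact absurd hn0 h
  have h1 : N (E s) ≤ N y + N (E s - y) := by
    have := hN2 y (E s - y)
    rwa [add_sub_cancel] at this
  have h2 : N (E s - y) ≤ ε / 2 := by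
    refine (hN1 _).2.trans ?_
    calc C * ‖E s - y‖ ≤ C * (Bd / K) := mul_le_mul_of_nonneg_left hdist hC.le
      _ ≤ ε / 2 := by
        rw [div_lt_iff₀ hε] at hK
        rw [mul_div_assoc', div_le_iff₀ hK0]
        nlinarith
  linarith

/-- one point extensions have disjoint cones -/
lemma disj {s : Set L} {a b : L} (ha : ∀ z ∈ s, z < a) (hb : ∀ z ∈ s, z < b) (hab : a ≠ b) (u : J)
    (h0 : ¬ On s u) (h1 : On (insert a s) u ∨ Ini (insert a s) (u.1 : Set L))
    (h2 : On (insert b s) u ∨ Ini (insert b s) (u.1 : Set L)) : False := by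
  have key : ∀ a : L, (∀ z ∈ s, z < a) → On (insert a s) u → u.2 = a ∧ (u.1 : Set L) = s := by
    intro a ha hon
    have hins : ∀ z, z ≤ a → insert a s ∩ Set.Iio z = s ∩ Set.Iio z := by
      intro z hz
      ext w
      constructor
      · rintro ⟨rfl | hw, hw2⟩
        · exact absurd hw2 (not_lt.mpr hz)
        · exact ⟨hw, hw2⟩
      · rintro ⟨hw, hw2⟩; exact ⟨Or.inr hw, hw2⟩
    have hua : u.2 = a := by
      rcases hon.1 with h | h
      · exact h
      · exfalso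
        apply h0
        refine ⟨h, ?_⟩
        rw [hon.2]
        exact hins _ (ha _ h).le
    refine ⟨hua, ?_⟩
    rw [hon.2, hua, hins a le_rfl]
    ext w
    constructor
    · rintro ⟨hw, _⟩; exact hw
    · intro hw; exact ⟨hw, ha w hw⟩
  rcases h1 with h1 | h1 <;> rcases h2 with h2 | h2
  · exact hab ((key a ha h1).1.symm.trans (key b hb h2).1)
  · have h3 := (key a ha h1).2
    have h4 : b ∈ (u.1 : Set L) := h2.1 (Set.mem_insert b s)
    rw [h3] at h4
    exact lt_irrefl _ (hb b h4)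
  · have h3 := (key b hb h2).2
    have h4 : a ∈ (u.1 : Set L) := h1.1 (Set.mem_insert a s)
    rw [h3] at h4
    exact lt_irrefl _ (ha a h4)
  · have h3 : a ∈ (u.1 : Set L) := h1.1 (Set.mem_insert a s)
    have h4 : b ∈ (u.1 : Set L) := h2.1 (Set.mem_insert b s)
    rcases lt_or_gt_of_ne hab with h | h
    · rcases h2.2 a h3 b (Set.mem_insert b s) h.le with h5 | h5
      · exact hab h5
      · exact lt_irrefl _ (ha a h5)
    · rcases h1.2 b h4 a (Set.mem_insert a s) h.le with h5 | h5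
      · exact hab h5.symm
      · exact lt_irrefl _ (hb b h5)

def cut (t : T) (r : ℝ) : T := ⟨{b ∈ (t : Set L) | rr b ≤ r}, t.2.mono (fun _ h => h.1)⟩

lemma ini_cut {s t : T} (h : Ini (s : Set L) t) (r : ℝ) : Ini (cut s r : Set L) (cut t r : Set L) := by
  refine ⟨fun a ha => ⟨h.1 ha.1, ha.2⟩, ?_⟩
  rintro a ⟨ha1, ha2⟩ b ⟨hb1, _⟩ hab
  exact ⟨h.2 a ha1 b hb1 hab, ha2⟩

lemma cut_ini (t : T) (r : ℝ) : Ini (cut t r : Set L) t := by
  refine ⟨fun a ha => ha.1, ?_⟩
  rintro a ha b ⟨_, hb2⟩ hab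
  exact ⟨ha, (rr_mono hab).trans hb2⟩

def PP (t : T) : Prop := ∀ a ∈ (t : Set L), rr a < mu N (cut t (rr a))

/-- the union of a chain -/
lemma chain_ub (c : Set {t : T // PP N t}) (hch : IsChain (fun s t => Ini (s.1 : Set L) (t.1 : Set L)) c)
    (hcm : ∀ {s t : T}, Ini (s : Set L) t → mu N s ≤ mu N t) :
    ∃ ub : {t : T // PP N t}, ∀ a ∈ c, Ini (a.1 : Set L) (ub.1 : Set L) := by
  set U : Set L := ⋃ t ∈ c, (t.1 : Set L) with hU
  have hmem : ∀ a, a ∈ U ↔ ∃ t ∈ c, a ∈ (t.1 : Set L) := by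
    intro a; rw [hU]; simp
  have hcomp : ∀ s ∈ c, ∀ t ∈ c, Ini (s.1 : Set L) (t.1 : Set L) ∨ Ini (t.1 : Set L) (s.1 : Set L) := by
    intro s hs t ht
    by_cases hst : s = t
    · rw [hst]; exact Or.inl (Ini.refl _)
    · exact hch hs ht hst
  have hini : ∀ t ∈ c, Ini (t.1 : Set L) U := by
    intro t ht
    refine ⟨fun a ha => (hmem a).mpr ⟨t, ht, ha⟩, ?_⟩
    intro a ha b hb hab
    obtain ⟨s, hs, has⟩ := (hmem a).mp ha
    rcases hcomp s hs t ht with h | h
    · exact h.1 has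
    · exact h.2 a has b hb hab
  have hwf : U.IsWF := by
    rw [Set.isWF_iff_no_descending_seq]
    intro f hf hfU
    obtain ⟨t, ht, h0⟩ := (hmem (f 0)).mp (hfU 0)
    have hall : ∀ n, f n ∈ (t.1 : Set L) := fun n =>
      (hini t ht).2 (f n) (hfU n) (f 0) h0 (hf.antitone (Nat.zero_le n))
    exact (Set.isWF_iff_no_descending_seq.mp t.1.2.1) f hf hall
  have hnice : Nice U := by
    refine ⟨hwf, ?_⟩
    intro a ha b hb hab hlt
    obtain ⟨t, ht, hbt⟩ := (hmem b).mp hb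
    have hat : a ∈ (t.1 : Set L) := (hini t ht).2 a ha b hbt hlt.le
    exact t.1.2.2 a hat b hbt hab hlt
  refine ⟨⟨⟨U, hnice⟩, ?_⟩, fun a ha => hini a ha⟩
  intro a ha
  obtain ⟨t, ht, hat⟩ := (hmem a).mp ha
  refine lt_of_lt_of_le (t.2 a hat) (hcm ?_)
  exact ini_cut (s := t.1) (t := ⟨U, hnice⟩) (hini t ht) (rr a)

include hc hC hN1 hN2 hN3 in
theorem not_sc : ¬ (∀ x y : X, N x = 1 → N y = 1 → x ≠ y → N ((1 / 2 : ℝ) • (x + y)) < 1) := by
  intro hSC
  have hmono : ∀ {s t : T}, Ini (s : Set L) t → mu N s ≤ mu N t := fun h => mu_mono N hc hN1 h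
  obtain ⟨⟨t, htP⟩, hmax⟩ := exists_maximal_of_chains_bounded
    (r := fun (s t : {t : T // PP N t}) => Ini (s.1 : Set L) (t.1 : Set L))
    (fun c hch => chain_ub N c hch hmono) (fun h1 h2 => h1.trans h2)
  set m : ℝ := mu N t with hm
  have hlt : ∀ a ∈ (t : Set L), rr a < m := fun a ha => lt_of_lt_of_le (htP a ha) (hmono (cut_ini t _))
  -- no extension at the real m can have a larger value
  have hext : ∀ (s : T), Ini (t : Set L) s → (∀ a ∈ (s : Set L), a ∈ (t : Set L) ∨ rr a = m) →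
      (∃ a ∈ (s : Set L), rr a = m) → mu N s ≤ m := by
    intro s hs hs2 hs3
    by_contra hcon
    push Not at hcon
    have hsP : PP N s := by
      intro a ha
      rcases hs2 a ha with h | h
      · exact lt_of_lt_of_le (htP a h) (hmono (ini_cut hs _))
      · have hcut : cut s (rr a) = s := by
          apply Subtype.ext
          ext b
          constructor
          · rintro ⟨hb, _⟩; exact hb
          · intro hb
            refine ⟨hb, ?_⟩
            rcases hs2 b hb with h' | h'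
            · exact ((hlt b h').trans_eq h.symm).le
            · exact (h'.trans h.symm).le
        rw [hcut, h]; exact hcon
    have hback := hmax ⟨s, hsP⟩ hs
    obtain ⟨a, ha, ham⟩ := hs3
    have := hlt a (hback.1 ha)
    linarith
  have hbelow : ∀ n, ∀ z ∈ (t : Set L), z < mk m n := fun n z hz => lt_of_rr (hlt z hz)
  have hn1 : ∀ n, Nice (insert (mk m n) (t : Set L)) := by
    intro n
    apply nice_insert t.2 (hbelow n)
    intro b hb hbm
    exact absurd hbm (hlt b hb).ne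
  let t1 : ℕ → T := fun n => ⟨insert (mk m n) (t : Set L), hn1 n⟩
  have hbelow2 : ∀ k, ∀ z ∈ (t1 0 : Set L), z < mk m (k + 1) := by
    rintro k z (rfl | hz)
    · exact (lt_iff _ _).mpr (Or.inr ⟨rfl, Nat.succ_pos k⟩)
    · exact hbelow _ z hz
  have hn2 : ∀ k, Nice (insert (mk m (k + 1)) (t1 0 : Set L)) := by
    intro k
    apply nice_insert (hn1 0) (hbelow2 k)
    rintro b (rfl | hb) hbm
    · rfl
    · exact absurd hbm (hlt b hb).ne
  let t2 : ℕ → T := fun k => ⟨insert (mk m (k + 1)) (t1 0 : Set L), hn2 k⟩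
  have hI1 : ∀ n, Ini (t : Set L) (t1 n) := fun n => ini_insert (hbelow n)
  have hI2 : ∀ k, Ini (t1 0 : Set L) (t2 k) := fun k => ini_insert (hbelow2 k)
  have hmu1 : ∀ n, mu N (t1 n) ≤ m := by
    intro n
    apply hext _ (hI1 n)
    · rintro a (rfl | ha)
      · right; rfl
      · left; exact ha
    · exact ⟨mk m n, Set.mem_insert _ _, rfl⟩
  have hmu2 : ∀ k, mu N (t2 k) ≤ m := by
    intro k
    apply hext _ ((hI1 0).trans (hI2 k))
    · rintro a (rfl | rfl | ha)
      · right; rfl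
      · right; rfl
      · left; exact ha
    · exact ⟨mk m (k + 1), Set.mem_insert _ _, rfl⟩
  have hmkinj : ∀ n k, n ≠ k → mk m n ≠ mk m k := by
    intro n k hnk h
    exact hnk (congrArg nn h)
  have hE1 : N (E t) ≤ m := by
    apply avg N hc hC hN1 hN2 hN3 t t1 hI1 _ m hmu1
    intro n k u hnk h0 h1 h2
    exact disj (hbelow n) (hbelow k) (hmkinj n k hnk) u h0 h1 h2
  have hE2 : N (E (t1 0)) ≤ m := by
    apply avg N hc hC hN1 hN2 hN3 (t1 0) t2 hI2 _ m hmu2
    intro n k u hnk h0 h1 h2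
    exact disj (hbelow2 n) (hbelow2 k) (hmkinj _ _ (by omega)) u h0 h1 h2
  have hF1 : E t ∈ F t := E_mem_F t
  have hF2 : E (t1 0) ∈ F t := F_mono (hI1 0) (E_mem_F _)
  have hE1' : N (E t) = m := le_antisymm hE1 (mu_le N hc hN1 hF1)
  have hE2' : N (E (t1 0)) = m := le_antisymm hE2 (mu_le N hc hN1 hF2)
  have hmid : m ≤ N ((1 / 2 : ℝ) • (E t + E (t1 0))) := mu_le N hc hN1 (F_half hF1 hF2)
  -- the two vectors differ at a node
  let u0 : J := (t, mk m 0)
  have hon : On (t1 0 : Set L) u0 := by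
    refine ⟨Set.mem_insert _ _, ?_⟩
    ext b
    constructor
    · intro hb; exact ⟨Or.inr hb, hbelow 0 b hb⟩
    · rintro ⟨rfl | hb, hb2⟩
      · exact absurd (show mk m 0 < mk m 0 from hb2) (lt_irrefl _)
      · exact hb
  have hoff : ¬ On (t : Set L) u0 := by
    intro h
    have := hlt _ h.1
    rw [rr_mk] at this
    exact lt_irrefl _ this
  have hmpos : 0 < m := by
    rw [← hE2']
    refine lt_of_lt_of_le ?_ (hN1 _).1
    have h1 : |ev (E (t1 0)) u0| ≤ ‖E (t1 0)‖ := abs_ev_le _ _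
    rw [ev_E_on hon, abs_one] at h1
    have : c * 1 ≤ c * ‖E (t1 0)‖ := mul_le_mul_of_nonneg_left h1 hc.le
    linarith
  have hminv : |m⁻¹| = m⁻¹ := abs_of_pos (by positivity)
  have hx1 : N (m⁻¹ • E t) = 1 := by rw [hN3, hminv, hE1', inv_mul_cancel₀ hmpos.ne']
  have hy1 : N (m⁻¹ • E (t1 0)) = 1 := by rw [hN3, hminv, hE2', inv_mul_cancel₀ hmpos.ne']
  have hxy : m⁻¹ • E t ≠ m⁻¹ • E (t1 0) := by
    intro h
    have h1 := congrArg (fun x => ev x u0) h
    simp only [ev_smul] at h1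
    rw [ev_E_on hon, ev_E_not hoff, mul_zero, mul_one] at h1
    have : (0:ℝ) < m⁻¹ := by positivity
    linarith
  have hfin := hSC _ _ hx1 hy1 hxy
  have hrew : (1 / 2 : ℝ) • (m⁻¹ • E t + m⁻¹ • E (t1 0)) = m⁻¹ • ((1 / 2 : ℝ) • (E t + E (t1 0))) := by
    rw [← smul_add, smul_comm]
  rw [hrew, hN3, hminv] at hfin
  have : 1 ≤ m⁻¹ * N ((1 / 2 : ℝ) • (E t + E (t1 0))) := by
    rw [← div_eq_inv_mul, one_le_div hmpos]; exact hmid
  linarith

end NoSC

end Pool.Agent.Helper830.TR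

open Pool Pool.MP_938f3b_an

namespace Pool.Agent.S03624

/-- The negation of the preceding statement: Every real Banach space admitting a bi-Lipschitz map into the space of bounded real sequences with sup norm carries a norm, equivalent to its own, whose unit sphere contains no nontrivial segment (strictly convex). -/
theorem result :
    ¬ (∀ (X : Type) [NormedAddCommGroup X] [NormedSpace ℝ X] [CompleteSpace X],
      (∃ f : X → lp (fun _ : ℕ => ℝ) ⊤, ∃ K₁ K₂ : NNReal,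
          LipschitzWith K₁ f ∧ AntilipschitzWith K₂ f) →
      ∃ N : X → ℝ, ∃ c C : ℝ, 0 < c ∧ 0 < C ∧
        (∀ x : X, c * ‖x‖ ≤ N x ∧ N x ≤ C * ‖x‖) ∧
        (∀ x y : X, N (x + y) ≤ N x + N y) ∧
        (∀ (r : ℝ) (x : X), N (r • x) = |r| * N x) ∧
        (∀ x y : X, N x = 1 → N y = 1 → x ≠ y → N ((1 / 2 : ℝ) • (x + y)) < 1)) := by
  intro h
  obtain ⟨N, c, C, hc, hC, hN1, hN2, hN3, hN4⟩ :=
    h Pool.Agent.Helper830.TR.X Pool.Agent.Helper830.TR.embed
  exact Pool.Agent.Helper830.TR.not_sc N hc hC hN1 hN2 hN3 hN4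

end Pool.Agent.S03624
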