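import Pool.Statements.S03626
import Pool.Agent.Helper293.Spl.Final

set_option autoImplicit false
open Pool Pool.MP_93bcc1_an

namespace Pool.Agent.S03626

/-- The negation of the preceding statement: For every triangulation of a closed planar region homeomorphic to a disk, the space of C^1 piecewise cubic splines has dimension 10 − 7·(interior vertices) + 3·(interior edges) + (interior vertices whose edges lie on only two lines). -/
theorem result :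
    ¬ (∀ (T : Finset (Finset (ℝ × ℝ))) (Ω : Set (ℝ × ℝ)),
    (∀ t ∈ T, t.card = 3 ∧ AffineIndependent ℝ (Subtype.val : ↥(t : Set (ℝ × ℝ)) → ℝ × ℝ)) →
    (∀ t ∈ T, ∀ s ∈ T, convexHull ℝ (t : Set (ℝ × ℝ)) ∩ convexHull ℝ (s : Set (ℝ × ℝ)) =
        convexHull ℝ ((t : Set (ℝ × ℝ)) ∩ (s : Set (ℝ × ℝ)))) →
    Ω = ⋃ t ∈ T, convexHull ℝ (t : Set (ℝ × ℝ)) →
    Nonempty (Ω ≃ₜ Metric.closedBall (0 : EuclideanSpace ℝ (Fin 2)) 1) →
    (Module.finrank ℝ (Submodule.span ℝ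
        {p : T → MvPolynomial (Fin 2) ℝ |
          (∀ t, (p t).totalDegree ≤ 3) ∧
          ∀ t s : T, ∀ x ∈ convexHull ℝ ((t : Finset (ℝ × ℝ)) : Set (ℝ × ℝ)) ∩
              convexHull ℝ ((s : Finset (ℝ × ℝ)) : Set (ℝ × ℝ)),
            MvPolynomial.eval ![x.1, x.2] (p t) = MvPolynomial.eval ![x.1, x.2] (p s) ∧
            ∀ i : Fin 2, MvPolynomial.eval ![x.1, x.2] (MvPolynomial.pderiv i (p t)) =
              MvPolynomial.eval ![x.1, x.2] (MvPolynomial.pderiv i (p s))}) : ℤ)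
      = 10 - 7 * ({v : ℝ × ℝ | (∃ t ∈ T, v ∈ t) ∧ v ∈ interior Ω}.ncard : ℤ)
        + 3 * ({e : Finset (ℝ × ℝ) | e.card = 2 ∧ (∃ t ∈ T, e ⊆ t) ∧
              ∀ a ∈ e, ∀ b ∈ e, a ≠ b → midpoint ℝ a b ∈ interior Ω}.ncard : ℤ)
        + ({v : ℝ × ℝ | (∃ t ∈ T, v ∈ t) ∧ v ∈ interior Ω ∧
              ∃ d₁ d₂ : ℝ × ℝ, ∀ t ∈ T, v ∈ t → ∀ w ∈ t,
                (∃ c : ℝ, w - v = c • d₁) ∨ (∃ c : ℝ, w - v = c • d₂)}.ncard : ℤ)) := by
  exact Helper293.Spl.not_main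

end Pool.Agent.S03626
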