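import Pool.Statements.S03650
-- import your own Pool.Agent.* helpers here
import Pool.Agent.Helper418.QA1
import Pool.Agent.Helper418.QA2
import Pool.Agent.Helper418.QA3
import Pool.Agent.Helper418.QA4

set_option autoImplicit false
open Real Filter Topology MeasureTheory
open Pool Pool.MP_96fdd3_an

namespace Pool.Agent.S03650

open Pool.Agent.Helper418.QA

structure St where
  F : ℝ → ℂ
  d : ℕ
  K : ℕ
  δ : ℝ
  hF : F ∈ V (-(d:ℤ)) (d:ℤ)
  hδ : 0 < δ

def Rel (i : ℕ) (s s' : St) : Prop :=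
  (∫ x in (0:ℝ)..2*π, ‖s'.F x - s.F x‖) ≤ s.δ/2 ∧
  (∀ T : ℕ, ∑ l ∈ Finset.Icc 1 T, (l:ℝ)^s.K * ‖co (s'.F - s.F) (-(l:ℤ))‖ ≤ s.δ/2) ∧
  s.d ≤ s'.d ∧ i ≤ s'.d ∧ 1 ≤ s'.d ∧ s'.δ ≤ s.δ/2 ∧
  (∫ x in (0:ℝ)..2*π, Real.log (‖s'.F x‖ + s'.δ)) ≤ -(i:ℝ) ∧
  s'.K = s.K + 1 + (i+1) * s'.d

lemma exists_next (i : ℕ) (s : St) : ∃ s' : St, Rel i s s' := by
  have hη : 0 < s.δ / 4 := by have := s.hδ; positivity
  obtain ⟨D, P1, C, hP1, hC, hb, hI1, hco1⟩ := step1 s.hF s.K (3 * s.K + 6) hη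
  obtain ⟨D', P2, δ, hP2, hδ, hI2, hco2, hlog⟩ := step2 hP1 s.K hC hb hη i
  have hc0 := V_continuous s.hF
  have hc1 := V_continuous hP1
  have hc2 := V_continuous hP2
  refine ⟨⟨P2, max D' (s.d + i + 1), s.K + 1 + (i+1) * (max D' (s.d + i + 1)), min δ (s.δ/2), ?_, ?_⟩, ?_⟩
  · refine V_mono ?_ ?_ hP2
    · have : (D':ℤ) ≤ ((max D' (s.d + i + 1) : ℕ) : ℤ) := by exact_mod_cast le_max_left _ _
      linarith
    · exact_mod_cast le_max_left _ _
  · exact lt_min hδ (by have := s.hδ; positivity)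
  · refine ⟨?_, ?_, ?_, ?_, ?_, ?_, ?_, rfl⟩
    · calc (∫ x in (0:ℝ)..2*π, ‖P2 x - s.F x‖)
          ≤ ∫ x in (0:ℝ)..2*π, (‖P2 x - P1 x‖ + ‖P1 x - s.F x‖) := by
            refine intervalIntegral.integral_mono_on (by positivity) ?_ ?_ ?_
            · exact Continuous.intervalIntegrable (by fun_prop) _ _
            · exact Continuous.intervalIntegrable (by fun_prop) _ _
            · intro x _
              have : P2 x - s.F x = (P2 x - P1 x) + (P1 x - s.F x) := by ring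
              rw [this]
              exact norm_add_le _ _
        _ = (∫ x in (0:ℝ)..2*π, ‖P2 x - P1 x‖) + ∫ x in (0:ℝ)..2*π, ‖P1 x - s.F x‖ := by
            rw [intervalIntegral.integral_add]
            · exact Continuous.intervalIntegrable (by fun_prop) _ _
            · exact Continuous.intervalIntegrable (by fun_prop) _ _
        _ ≤ s.δ / 4 + s.δ / 4 := add_le_add hI2 hI1
        _ = s.δ / 2 := by ring
    · intro T
      have h1 : ∀ l : ℕ, ‖co (P2 - s.F) (-(l:ℤ))‖ ≤ ‖co (P2 - P1) (-(l:ℤ))‖ + ‖co (P1 - s.F) (-(l:ℤ))‖ := by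
        intro l
        have : P2 - s.F = (P2 - P1) + (P1 - s.F) := by ring
        rw [this, co_add (hc2.sub hc1) (hc1.sub hc0)]
        exact norm_add_le _ _
      calc ∑ l ∈ Finset.Icc 1 T, (l:ℝ)^s.K * ‖co (P2 - s.F) (-(l:ℤ))‖
          ≤ ∑ l ∈ Finset.Icc 1 T, ((l:ℝ)^s.K * ‖co (P2 - P1) (-(l:ℤ))‖ + (l:ℝ)^s.K * ‖co (P1 - s.F) (-(l:ℤ))‖) := by
            refine Finset.sum_le_sum fun l _ => ?_
            rw [← mul_add]
            exact mul_le_mul_of_nonneg_left (h1 l) (by positivity)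
        _ ≤ s.δ / 4 + s.δ / 4 := by
            rw [Finset.sum_add_distrib]
            exact add_le_add (hco2 T) (hco1 T)
        _ = s.δ / 2 := by ring
    · show s.d ≤ max D' (s.d + i + 1)
      omega
    · show i ≤ max D' (s.d + i + 1)
      omega
    · show 1 ≤ max D' (s.d + i + 1)
      omega
    · exact min_le_right _ _
    · refine le_trans ?_ hlog
      have hd : 0 < min δ (s.δ/2) := lt_min hδ (by have := s.hδ; positivity)
      refine intervalIntegral.integral_mono_on (by positivity) ?_ ?_ ?_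
      · refine Continuous.intervalIntegrable (Continuous.log (by fun_prop) ?_) _ _
        intro x; positivity
      · refine Continuous.intervalIntegrable (Continuous.log (by fun_prop) ?_) _ _
        intro x; positivity
      · intro x _
        refine Real.log_le_log (by positivity) ?_
        have : min δ (s.δ/2) ≤ δ := min_le_left _ _
        show ‖P2 x‖ + min δ (s.δ/2) ≤ ‖P2 x‖ + δ
        linarith

noncomputable def sq : ℕ → St
  | 0 => ⟨ek (-1), 1, 0, 1, ek_mem (by norm_num) (by norm_num), one_pos⟩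
  | (n+1) => Classical.choose (exists_next n (sq n))

lemma sq_rel (n : ℕ) : Rel n (sq n) (sq (n+1)) := Classical.choose_spec (exists_next n (sq n))

noncomputable def F (n : ℕ) : ℝ → ℂ := (sq n).F
noncomputable def δ (n : ℕ) : ℝ := (sq n).δ
noncomputable def K (n : ℕ) : ℕ := (sq n).K
noncomputable def t (n : ℕ) : ℕ := (sq (n+1)).d

lemma F_zero : F 0 = ek (-1) := rfl
lemma δ_zero : δ 0 = 1 := rfl
lemma K_zero : K 0 = 0 := rfl
lemma δ_pos (n : ℕ) : 0 < δ n := (sq n).hδ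
lemma δ_succ (n : ℕ) : δ (n+1) ≤ δ n / 2 := (sq_rel n).2.2.2.2.2.1
lemma K_succ (n : ℕ) : K (n+1) = K n + 1 + (n+1) * t n := (sq_rel n).2.2.2.2.2.2.2
lemma t_mono : Monotone t := monotone_nat_of_le_succ fun n => (sq_rel (n+1)).2.2.1
lemma one_le_t (n : ℕ) : 1 ≤ t n := (sq_rel n).2.2.2.2.1
lemma le_t (n : ℕ) : n ≤ t n := (sq_rel n).2.2.2.1
lemma K_strictMono : StrictMono K := strictMono_nat_of_lt_succ fun n => by
  rw [K_succ]; omega
lemma hKt (n : ℕ) : (n+1) * t n ≤ K (n+1) := by rw [K_succ]; omega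
lemma F_continuous (n : ℕ) : Continuous (F n) := V_continuous (sq n).hF
lemma F_periodic (n : ℕ) : Function.Periodic (F n) (2 * π) := V_periodic (sq n).hF

lemma δ_le (n j : ℕ) : δ (n + j) ≤ δ n * (1/2)^j := by
  induction j with
  | zero => simp
  | succ j ih =>
    rw [← add_assoc, pow_succ]
    have := δ_succ (n+j)
    nlinarith

/-- differences -/
noncomputable def Dd (n : ℕ) : ℝ → ℂ := F (n+1) - F n

lemma Dd_continuous (n : ℕ) : Continuous (Dd n) := (F_continuous (n+1)).sub (F_continuous n)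
lemma Dd_periodic (n : ℕ) : Function.Periodic (Dd n) (2 * π) := (F_periodic (n+1)).sub (F_periodic n)

lemma Dd_mem (n : ℕ) : Dd n ∈ V (-(t n : ℤ)) (t n : ℤ) := by
  refine Submodule.sub_mem _ (sq (n+1)).hF (V_mono ?_ ?_ (sq n).hF)
  · have : ((sq n).d : ℤ) ≤ (t n : ℤ) := by exact_mod_cast (sq_rel n).2.2.1
    linarith
  · exact_mod_cast (sq_rel n).2.2.1

lemma Dd_int (n : ℕ) : (∫ x in (0:ℝ)..2*π, ‖Dd n x‖) ≤ δ n / 2 := (sq_rel n).1

lemma Dd_co (n T : ℕ) : ∑ l ∈ Finset.Icc 1 T, (l:ℝ)^(K n) * ‖co (Dd n) (-(l:ℤ))‖ ≤ δ n / 2 := (sq_rel n).2.1 T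

lemma F_log (n : ℕ) : (∫ x in (0:ℝ)..2*π, Real.log (‖F (n+1) x‖ + δ (n+1))) ≤ -(n:ℝ) := (sq_rel n).2.2.2.2.2.2.1

noncomputable abbrev μ0 : Measure ℝ := volume.restrict (Set.Ioc (0:ℝ) (2 * π))

lemma int_eq (h : ℝ → ℝ) : ∫ x in (0:ℝ)..2*π, h x = ∫ x, h x ∂μ0 := by
  rw [intervalIntegral.integral_of_le (by positivity)]

lemma Dd_integrable (n : ℕ) : Integrable (Dd n) μ0 := (Dd_continuous n).integrableOn_Ioc

lemma geo_sum (n : ℕ) : HasSum (fun j : ℕ => δ n / 2 * (1/2)^j) (δ n) := by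
  have := (hasSum_geometric_of_lt_one (r := (1/2:ℝ)) (by norm_num) (by norm_num)).mul_left (δ n / 2)
  have h2 : δ n / 2 * (1 - 1 / 2)⁻¹ = δ n := by norm_num
  rw [h2] at this
  exact this

lemma Dd_int' (n j : ℕ) : ∫ x, ‖Dd (n + j) x‖ ∂μ0 ≤ δ n / 2 * (1/2)^j := by
  rw [← int_eq]
  have h1 := Dd_int (n + j)
  have h2 := δ_le n j
  linarith

lemma Dd_summable (n : ℕ) : Summable fun j => ∫ x, ‖Dd (n + j) x‖ ∂μ0 := by
  refine Summable.of_nonneg_of_le (fun j => integral_nonneg fun x => norm_nonneg _) (Dd_int' n) (geo_sum n).summable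

/-- the limit function -/
noncomputable def f : ℝ → ℂ := fun x => F 0 x + ∑' i, Dd i x

lemma f_periodic : Function.Periodic f (2 * π) := by
  intro x
  unfold f
  rw [F_periodic 0 x]
  congr 1
  exact tsum_congr fun i => Dd_periodic i x

lemma tsum_integrable (n : ℕ) : Integrable (fun x => ∑' j, Dd (n + j) x) μ0 :=
  integrable_tsum_aux (fun j => Dd_integrable (n + j)) (Dd_summable n)

lemma f_integrable : Integrable f μ0 := by
  refine Integrable.add ((F_continuous 0).integrableOn_Ioc) ?_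
  simpa using tsum_integrable 0

lemma sum_Dd (n : ℕ) (x : ℝ) : F 0 x + ∑ i ∈ Finset.range n, Dd i x = F n x := by
  induction n with
  | zero => simp
  | succ n ih =>
    rw [Finset.sum_range_succ, ← add_assoc, ih]
    simp [Dd]

lemma f_sub (n : ℕ) : ∀ᵐ x ∂μ0, f x - F n x = ∑' j, Dd (n + j) x := by
  have h := ae_summable_norm (D := Dd) Dd_integrable (by simpa using Dd_summable 0)
  filter_upwards [h] with x hx
  have h1 := (hx.of_norm).sum_add_tsum_nat_add n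
  unfold f
  rw [← h1, ← sum_Dd n x]
  have : ∑' i, Dd (i + n) x = ∑' j, Dd (n + j) x := tsum_congr fun i => by rw [add_comm]
  rw [this]
  ring

lemma f_sub_int (n : ℕ) : ∫ x, ‖f x - F n x‖ ∂μ0 ≤ δ n := by
  have h1 : ∫ x, ‖f x - F n x‖ ∂μ0 = ∫ x, ‖∑' j, Dd (n + j) x‖ ∂μ0 := by
    refine integral_congr_ae ?_
    filter_upwards [f_sub n] with x hx
    rw [hx]
  rw [h1]
  refine (integral_norm_tsum_le (fun j => Dd_integrable (n + j)) (Dd_summable n)).trans ?_
  rw [← (geo_sum n).tsum_eq]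
  exact (Dd_summable n).tsum_le_tsum (Dd_int' n) (geo_sum n).summable

lemma co_f (n : ℤ) : co f n = co (F 0) n + ∑' i, co (Dd i) n := by
  have hs : Summable fun i => ∫ x, ‖Complex.exp (-(n : ℂ) * Complex.I * (x : ℂ)) * Dd i x‖ ∂μ0 := by
    have := Dd_summable 0
    simp only [zero_add] at this
    refine this.congr fun i => ?_
    congr 1
    funext x
    rw [norm_mul, norm_exp_aux, one_mul]
  have hi : ∀ i, Integrable (fun x : ℝ => Complex.exp (-(n : ℂ) * Complex.I * (x : ℂ)) * Dd i x) μ0 := fun i =>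
    (co_integrand_continuous (Dd_continuous i) n).integrableOn_Ioc
  have h2 := integral_tsum_of_summable_integral_norm hi hs
  have h3 : ∀ i, co (Dd i) n = ∫ x, Complex.exp (-(n : ℂ) * Complex.I * (x : ℂ)) * Dd i x ∂μ0 := by
    intro i
    unfold co
    rw [intervalIntegral.integral_of_le (by positivity)]
  simp_rw [h3]
  rw [h2]
  unfold co
  rw [intervalIntegral.integral_of_le (by positivity), intervalIntegral.integral_of_le (by positivity)]
  rw [← integral_add]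
  · congr 1
    funext x
    rw [tsum_mul_left]
    unfold f
    ring
  · exact (co_integrand_continuous (F_continuous 0) n).integrableOn_Ioc
  · exact integrable_tsum_aux hi hs

lemma co_f_neg_one : co f (-1) ≠ 0 := by
  have h1 : co f (-1) = co (F 0) (-1) + co (fun x => f x - F 0 x) (-1) := by
    unfold co
    rw [intervalIntegral.integral_of_le (by positivity), intervalIntegral.integral_of_le (by positivity),
      intervalIntegral.integral_of_le (by positivity)]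
    rw [← integral_add]
    · congr 1
      funext x
      ring
    · exact (co_integrand_continuous (F_continuous 0) _).integrableOn_Ioc
    · have h2 : Integrable (fun x => f x - F 0 x) μ0 := f_integrable.sub ((F_continuous 0).integrableOn_Ioc)
      refine h2.bdd_mul (c := 1) ?_ ?_
      · exact Continuous.aestronglyMeasurable (by fun_prop)
      · exact Eventually.of_forall fun x => (norm_exp_aux _ x).le
  have h2 : ‖co (fun x => f x - F 0 x) (-1)‖ ≤ 1 := by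
    refine (norm_co_le _ _).trans ?_
    rw [int_eq]
    exact (f_sub_int 0).trans (le_of_eq δ_zero)
  have h3 : co (F 0) (-1) = ((2 * π : ℝ) : ℂ) := by
    rw [F_zero, co_ek, if_pos rfl]
  intro h0
  rw [h1, h3] at h0
  have h4 : ((2 * π : ℝ) : ℂ) = - co (fun x => f x - F 0 x) (-1) := by linear_combination h0
  have h5 : ‖((2 * π : ℝ) : ℂ)‖ ≤ 1 := by rw [h4, norm_neg]; exact h2
  rw [Complex.norm_real, Real.norm_of_nonneg (by positivity)] at h5
  linarith [Real.pi_gt_three]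

section coeffs
variable {μ : ℕ → ℕ} (h1 : ∀ k, 1 ≤ μ k) (hge : ∀ i k, K i ≤ k → t i ≤ μ k)
include h1 hge

lemma Dd_co_k (i k l : ℕ) (hl : 1 ≤ l) :
    (l:ℝ)^k * ‖co (Dd i) (-(l:ℤ))‖ ≤ MM μ k * ((l:ℝ)^(K i) * ‖co (Dd i) (-(l:ℤ))‖) := by
  have hl' : (1:ℝ) ≤ l := by exact_mod_cast hl
  have hM1 := one_le_MM h1 k
  by_cases hlt : l ≤ t i
  · rw [← mul_assoc]
    refine mul_le_mul_of_nonneg_right ?_ (norm_nonneg _)
    by_cases hk : k ≤ K i
    · calc (l:ℝ)^k ≤ (l:ℝ)^(K i) := pow_le_pow_right₀ hl' hk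
        _ = 1 * (l:ℝ)^(K i) := (one_mul _).symm
        _ ≤ MM μ k * (l:ℝ)^(K i) := mul_le_mul_of_nonneg_right hM1 (by positivity)
    · push Not at hk
      obtain ⟨j, rfl⟩ : ∃ j, k = K i + j := ⟨k - K i, by omega⟩
      rw [pow_add, mul_comm]
      refine mul_le_mul_of_nonneg_right ?_ (by positivity)
      calc (l:ℝ)^j ≤ (t i:ℝ)^j := pow_le_pow_left₀ (by positivity) (by exact_mod_cast hlt) _
        _ ≤ MM μ (K i + j) := MM_ge h1 (hge i) j
  · have : co (Dd i) (-(l:ℤ)) = 0 := by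
      refine co_eq_zero (Dd_mem i) ?_
      rintro ⟨h, _⟩
      have : (l:ℤ) ≤ t i := by linarith
      exact hlt (by exact_mod_cast this)
    rw [this]
    simp

lemma Dd_co_sum (i k T : ℕ) :
    ∑ l ∈ Finset.Icc 1 T, (l:ℝ)^k * ‖co (Dd i) (-(l:ℤ))‖ ≤ MM μ k * (δ i / 2) := by
  calc ∑ l ∈ Finset.Icc 1 T, (l:ℝ)^k * ‖co (Dd i) (-(l:ℤ))‖
      ≤ ∑ l ∈ Finset.Icc 1 T, MM μ k * ((l:ℝ)^(K i) * ‖co (Dd i) (-(l:ℤ))‖) := by
        refine Finset.sum_le_sum fun l hl => ?_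
        exact Dd_co_k h1 hge i k l (Finset.mem_Icc.mp hl).1
    _ = MM μ k * ∑ l ∈ Finset.Icc 1 T, ((l:ℝ)^(K i) * ‖co (Dd i) (-(l:ℤ))‖) := by rw [Finset.mul_sum]
    _ ≤ MM μ k * (δ i / 2) := mul_le_mul_of_nonneg_left (Dd_co i T) (MM_pos h1 k).le

lemma co_f_sum (k T : ℕ) :
    ∑ l ∈ Finset.Icc 1 T, (l:ℝ)^k * ‖co f (-(l:ℤ))‖ ≤ (2 * π + 1) * MM μ k := by
  have hcoD : ∀ n : ℤ, Summable fun i => ‖co (Dd i) n‖ := by
    intro n
    refine Summable.of_nonneg_of_le (fun i => norm_nonneg _) (fun i => ?_) (by simpa using Dd_summable 0)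
    rw [← int_eq]
    exact norm_co_le _ _
  have hterm : ∀ l : ℕ, 1 ≤ l → (l:ℝ)^k * ‖co f (-(l:ℤ))‖ ≤
      (if l = 1 then 2 * π else 0) + ∑' i, (l:ℝ)^k * ‖co (Dd i) (-(l:ℤ))‖ := by
    intro l hl
    have ha : ‖co f (-(l:ℤ))‖ ≤ ‖co (F 0) (-(l:ℤ))‖ + ∑' i, ‖co (Dd i) (-(l:ℤ))‖ := by
      rw [co_f]
      refine (norm_add_le _ _).trans (add_le_add le_rfl ?_)
      exact norm_tsum_le_tsum_norm (hcoD _)
    have hb : (l:ℝ)^k * ‖co (F 0) (-(l:ℤ))‖ ≤ if l = 1 then 2 * π else 0 := by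
      rw [F_zero, co_ek]
      by_cases h : l = 1
      · subst h
        simp [abs_of_pos Real.pi_pos]
      · rw [if_neg h, if_neg]
        · simp
        · intro h'
          apply h
          have : (l:ℤ) = 1 := by linarith
          exact_mod_cast this
    calc (l:ℝ)^k * ‖co f (-(l:ℤ))‖ ≤ (l:ℝ)^k * (‖co (F 0) (-(l:ℤ))‖ + ∑' i, ‖co (Dd i) (-(l:ℤ))‖) :=
          mul_le_mul_of_nonneg_left ha (by positivity)
      _ = (l:ℝ)^k * ‖co (F 0) (-(l:ℤ))‖ + ∑' i, (l:ℝ)^k * ‖co (Dd i) (-(l:ℤ))‖ := by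
          rw [mul_add, tsum_mul_left]
      _ ≤ _ := by linarith
  have hs : ∀ l ∈ Finset.Icc 1 T, Summable fun i => (l:ℝ)^k * ‖co (Dd i) (-(l:ℤ))‖ := fun l _ =>
    (hcoD _).mul_left _
  have hMk := one_le_MM h1 k
  have hg := geo_sum 0
  rw [δ_zero] at hg
  calc ∑ l ∈ Finset.Icc 1 T, (l:ℝ)^k * ‖co f (-(l:ℤ))‖
      ≤ ∑ l ∈ Finset.Icc 1 T, ((if l = 1 then 2 * π else 0) + ∑' i, (l:ℝ)^k * ‖co (Dd i) (-(l:ℤ))‖) :=
        Finset.sum_le_sum fun l hl => hterm l (Finset.mem_Icc.mp hl).1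
    _ = (∑ l ∈ Finset.Icc 1 T, (if l = 1 then 2 * π else 0)) + ∑' i, ∑ l ∈ Finset.Icc 1 T, (l:ℝ)^k * ‖co (Dd i) (-(l:ℤ))‖ := by
        rw [Finset.sum_add_distrib, Summable.tsum_finsetSum hs]
    _ ≤ 2 * π + MM μ k * 1 := by
        refine add_le_add ?_ ?_
        · rw [Finset.sum_ite_eq']
          split_ifs
          · exact le_rfl
          · positivity
        · rw [← (hg.mul_left (MM μ k)).tsum_eq]
          refine Summable.tsum_le_tsum (fun i => ?_) (summable_sum hs) (hg.mul_left (MM μ k)).summable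
          refine (Dd_co_sum h1 hge i k T).trans ?_
          refine mul_le_mul_of_nonneg_left ?_ (MM_pos h1 k).le
          have := δ_le 0 i
          rw [zero_add, δ_zero] at this
          linarith
    _ ≤ (2 * π + 1) * MM μ k := by nlinarith [Real.pi_pos]

end coeffs

lemma log_contra (hne : ∀ᵐ x ∂μ0, f x ≠ 0) (hint : Integrable (fun x => Real.log ‖f x‖) μ0) (n : ℕ) :
    ∫ x, Real.log ‖f x‖ ∂μ0 ≤ -(n:ℝ) + 1 := by
  have hδ := δ_pos (n+1)
  have hc : Continuous (fun x => Real.log (‖F (n+1) x‖ + δ (n+1))) := by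
    have := F_continuous (n+1)
    refine Continuous.log (by fun_prop) ?_
    intro x; positivity
  have hi1 : Integrable (fun x => Real.log (‖F (n+1) x‖ + δ (n+1))) μ0 := hc.integrableOn_Ioc
  have hi2 : Integrable (fun x => ‖f x - F (n+1) x‖ / δ (n+1)) μ0 :=
    ((f_integrable.sub ((F_continuous (n+1)).integrableOn_Ioc)).norm).div_const _
  have h1 : ∫ x, Real.log ‖f x‖ ∂μ0 ≤ ∫ x, (Real.log (‖F (n+1) x‖ + δ (n+1)) + ‖f x - F (n+1) x‖ / δ (n+1)) ∂μ0 := by
    refine integral_mono_ae hint (hi1.add hi2) ?_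
    filter_upwards [hne] with x hx
    have ha : 0 < ‖F (n+1) x‖ + δ (n+1) := by positivity
    have hb : ‖f x‖ ≤ (‖F (n+1) x‖ + δ (n+1)) + ‖f x - F (n+1) x‖ := by
      have : f x = F (n+1) x + (f x - F (n+1) x) := by ring
      calc ‖f x‖ = ‖F (n+1) x + (f x - F (n+1) x)‖ := by rw [← this]
        _ ≤ ‖F (n+1) x‖ + ‖f x - F (n+1) x‖ := norm_add_le _ _
        _ ≤ _ := by linarith
    have hf : 0 < ‖f x‖ := norm_pos_iff.mpr hx
    calc Real.log ‖f x‖ ≤ Real.log ((‖F (n+1) x‖ + δ (n+1)) + ‖f x - F (n+1) x‖) := Real.log_le_log hf hb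
      _ = Real.log ((‖F (n+1) x‖ + δ (n+1)) * (1 + ‖f x - F (n+1) x‖ / (‖F (n+1) x‖ + δ (n+1)))) := by
          congr 1; field_simp
      _ = Real.log (‖F (n+1) x‖ + δ (n+1)) + Real.log (1 + ‖f x - F (n+1) x‖ / (‖F (n+1) x‖ + δ (n+1))) := by
          rw [Real.log_mul (by positivity) (by positivity)]
      _ ≤ Real.log (‖F (n+1) x‖ + δ (n+1)) + ‖f x - F (n+1) x‖ / (‖F (n+1) x‖ + δ (n+1)) := by
          have : 0 < 1 + ‖f x - F (n+1) x‖ / (‖F (n+1) x‖ + δ (n+1)) := by positivity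
          have := Real.log_le_sub_one_of_pos this
          linarith
      _ ≤ Real.log (‖F (n+1) x‖ + δ (n+1)) + ‖f x - F (n+1) x‖ / δ (n+1) := by
          have : ‖f x - F (n+1) x‖ / (‖F (n+1) x‖ + δ (n+1)) ≤ ‖f x - F (n+1) x‖ / δ (n+1) := by
            refine div_le_div_of_nonneg_left (norm_nonneg _) hδ ?_
            linarith [norm_nonneg (F (n+1) x)]
          linarith
  rw [integral_add hi1 hi2, integral_div] at h1
  have h2 := F_log n
  rw [int_eq] at h2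
  have h3 := f_sub_int (n+1)
  have h4 : (∫ x, ‖f x - F (n+1) x‖ ∂μ0) / δ (n+1) ≤ 1 := by
    rw [div_le_one hδ]; exact h3
  linarith

/-- The negation of the preceding statement: For log-convex positive M_n with xⁿ/M_n→0 and C{M_n} quasianalytic: if f is integrable on the circle, its negative-frequency part lies in C{M_n} and is nonzero, then f≠0 a.e. and log∣f∣ is integrable. -/
theorem result :
    ¬ (∀ M : ℕ → ℝ,
      (∀ n, 0 < M n) →
      (∀ n : ℕ, 1 ≤ n → M n ^ 2 ≤ M (n - 1) * M (n + 1)) →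
      (∀ x : ℝ, 0 ≤ x → Tendsto (fun n : ℕ => x ^ n / M n) atTop (𝓝 0)) →
      (∀ g : ℝ → ℂ, ContDiff ℝ ((⊤ : ℕ∞) : WithTop ℕ∞) g → Function.Periodic g (2 * π) →
        (∃ C Q : ℝ, 0 < C ∧ 0 < Q ∧ ∀ n : ℕ, ∀ x : ℝ, ‖iteratedDeriv n g x‖ ≤ C * Q ^ n * M n) →
        (∃ x₀ : ℝ, ∀ n : ℕ, iteratedDeriv n g x₀ = 0) → g = 0) →
      ∀ f : ℝ → ℂ, Function.Periodic f (2 * π) → IntegrableOn f (Set.Ioc 0 (2 * π)) →
        (∃ n : ℤ, n < 0 ∧
          (∫ x in (0 : ℝ)..2 * π, Complex.exp (-(n : ℂ) * Complex.I * (x : ℂ)) * f x) ≠ 0) →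
        (∃ g : ℝ → ℂ, ContDiff ℝ ((⊤ : ℕ∞) : WithTop ℕ∞) g ∧ Function.Periodic g (2 * π) ∧
          (∃ C Q : ℝ, 0 < C ∧ 0 < Q ∧ ∀ n : ℕ, ∀ x : ℝ, ‖iteratedDeriv n g x‖ ≤ C * Q ^ n * M n) ∧
          ∀ n : ℤ, (∫ x in (0 : ℝ)..2 * π, Complex.exp (-(n : ℂ) * Complex.I * (x : ℂ)) * g x) =
            if n < 0 then
              (∫ x in (0 : ℝ)..2 * π, Complex.exp (-(n : ℂ) * Complex.I * (x : ℂ)) * f x)
            else 0) →
        (∀ᵐ x ∂(volume.restrict (Set.Ioc (0 : ℝ) (2 * π))), f x ≠ 0) ∧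
          IntegrableOn (fun x => Real.log ‖f x‖) (Set.Ioc 0 (2 * π))) := by
  intro H
  obtain ⟨μ, hmono, h1, hge, hle, hinf⟩ := exists_mu K t K_strictMono K_zero t_mono one_le_t le_t
  have hgx : ∃ g : ℝ → ℂ, ContDiff ℝ ((⊤ : ℕ∞) : WithTop ℕ∞) g ∧ Function.Periodic g (2 * π) ∧
      (∃ C Q : ℝ, 0 < C ∧ 0 < Q ∧ ∀ n : ℕ, ∀ x : ℝ, ‖iteratedDeriv n g x‖ ≤ C * Q ^ n * MM μ n) ∧
      ∀ n : ℤ, (∫ x in (0 : ℝ)..2 * π, Complex.exp (-(n : ℂ) * Complex.I * (x : ℂ)) * g x) =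
        if n < 0 then
          (∫ x in (0 : ℝ)..2 * π, Complex.exp (-(n : ℂ) * Complex.I * (x : ℂ)) * f x)
        else 0 := by
    obtain ⟨g, hg1, hg2, hg3, hg4⟩ := fourier_series (fun l : ℕ => (1 / (2 * π : ℝ) : ℂ) * co f (-((l:ℤ)+1)))
      (fun k => (2 * π + 1) * MM μ k) (by
        intro k T
        have h := co_f_sum h1 hge k T
        have hpi : (1 : ℝ) / (2 * π) ≤ 1 := by
          rw [div_le_one (by positivity)]
          linarith [Real.pi_gt_three]
        calc ∑ l ∈ Finset.range T, ((l:ℝ)+1)^k * ‖(1 / (2 * π : ℝ) : ℂ) * co f (-((l:ℤ)+1))‖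
            ≤ ∑ l ∈ Finset.range T, ((l:ℝ)+1)^k * ‖co f (-((l:ℤ)+1))‖ := by
              refine Finset.sum_le_sum fun l _ => ?_
              refine mul_le_mul_of_nonneg_left ?_ (by positivity)
              rw [norm_mul]
              have : ‖(1 / (2 * π : ℝ) : ℂ)‖ = 1 / (2 * π) := by
                rw [← Complex.ofReal_one, ← Complex.ofReal_div, Complex.norm_real, Real.norm_of_nonneg (by positivity)]
              rw [this]
              exact mul_le_of_le_one_left (norm_nonneg _) hpi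
          _ = ∑ l ∈ Finset.Icc 1 T, (l:ℝ)^k * ‖co f (-(l:ℤ))‖ := by
              have hI : Finset.Icc 1 T = Finset.Ico (0 + 1) (T + 1) := by
                ext l; simp only [Finset.mem_Icc, Finset.mem_Ico]; omega
              rw [hI, ← Finset.sum_Ico_add' (fun l : ℕ => ((l:ℝ))^k * ‖co f (-(l:ℤ))‖) 0 T 1, Finset.range_eq_Ico]
              refine Finset.sum_congr rfl fun l _ => ?_
              push_cast
              rfl
          _ ≤ _ := h)
    refine ⟨g, hg1, hg2, ⟨2 * π + 1, 1, by positivity, one_pos, ?_⟩, ?_⟩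
    · intro n x
      simpa using hg3 n x
    · intro n
      have := hg4 n
      unfold co at this
      rw [this]
      split_ifs with hn
      · have h2 : -(((((-n).toNat - 1 : ℕ)) : ℤ) + 1) = n := by omega
        rw [h2]
        have h3 : ((2 * π : ℝ) : ℂ) ≠ 0 := by
          rw [Complex.ofReal_ne_zero]; positivity
        field_simp
      · rfl
  obtain ⟨hne, hint⟩ := H (MM μ) (MM_pos h1) (MM_logconvex hmono h1) (MM_tendsto h1 hinf)
    (fun g hg hp hb h0 => quasi K t h1 hle hKt one_le_t g hg hp hb h0) f f_periodic f_integrable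
    ⟨-1, by norm_num, co_f_neg_one⟩ hgx
  obtain ⟨n, hn⟩ := exists_nat_gt (1 - ∫ x, Real.log ‖f x‖ ∂μ0)
  have := log_contra hne hint n
  linarith

end Pool.Agent.S03650
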