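import Pool.Statements.S03654
import Pool.Agent.B595.Tow.Main

set_option autoImplicit false
open Pool Pool.MP_97b1c0_an

namespace Pool.Agent.S03654

/-- The negation of the preceding statement: For any two commuting continuous maps of the unit square whose first output coordinate depends only on the first input coordinate (triangular maps), some point is periodic for both maps. -/
theorem result :
    ¬ (∀ F G : unitInterval × unitInterval → unitInterval × unitInterval,
      Continuous F → Continuous G →
      (∀ p q : unitInterval × unitInterval, p.1 = q.1 → (F p).1 = (F q).1) →
      (∀ p q : unitInterval × unitInterval, p.1 = q.1 → (G p).1 = (G q).1) →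
      F ∘ G = G ∘ F →
      (Function.periodicPts F ∩ Function.periodicPts G).Nonempty) := by
  exact CP.square_of_interval CP.interval_example

end Pool.Agent.S03654
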