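import Pool.Statements.S03680
import Pool.Agent.Helper741.GroupVN.Counter

set_option autoImplicit false
open Pool Pool.MP_9b2fd3_an

namespace Pool.Agent.S03680

open Pool.Agent.Helper741.GroupVN Pool.Agent.Helper741.GroupVN.Aff

/-- The negation of the preceding statement: For factors M, N on separable Hilbert spaces, neither of dimension ≤ 4, any commutativity-preserving bijection φ of self-adjoint parts has the form φ(a) = J(b) for a Jordan *-isomorphism J and some self-adjoint b in the double commutant of a. -/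
theorem result :
    ¬ (∀ (H : Type) [NormedAddCommGroup H] [InnerProductSpace ℂ H] [CompleteSpace H]
      [TopologicalSpace.SeparableSpace H]
      (K : Type) [NormedAddCommGroup K] [InnerProductSpace ℂ K] [CompleteSpace K]
      [TopologicalSpace.SeparableSpace K]
      (M : VonNeumannAlgebra H) (N : VonNeumannAlgebra K),
      (∀ z ∈ M, (∀ x ∈ M, x * z = z * x) → ∃ c : ℂ, z = c • (1 : H →L[ℂ] H)) →
      (∀ z ∈ N, (∀ x ∈ N, x * z = z * x) → ∃ c : ℂ, z = c • (1 : K →L[ℂ] K)) →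
      (¬ ∃ s : Finset (H →L[ℂ] H), s.card ≤ 4 ∧
          ∀ x ∈ M, x ∈ Submodule.span ℂ (s : Set (H →L[ℂ] H))) →
      (¬ ∃ s : Finset (K →L[ℂ] K), s.card ≤ 4 ∧
          ∀ x ∈ N, x ∈ Submodule.span ℂ (s : Set (K →L[ℂ] K))) →
      ∀ φ : {a : H →L[ℂ] H // a ∈ M ∧ IsSelfAdjoint a} →
            {b : K →L[ℂ] K // b ∈ N ∧ IsSelfAdjoint b},
        Function.Bijective φ →
        (∀ a b, Commute a.1 b.1 ↔ Commute (φ a).1 (φ b).1) →
        ∃ J : (H →L[ℂ] H) → (K →L[ℂ] K),
          Set.BijOn J (M : Set (H →L[ℂ] H)) (N : Set (K →L[ℂ] K)) ∧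
          (∀ x ∈ M, ∀ y ∈ M, ∀ c : ℂ,
            J (x + y) = J x + J y ∧ J (c • x) = c • J x ∧
            J (star x) = star (J x) ∧
            J (x * y + y * x) = J x * J y + J y * J x) ∧
          ∀ a : {a : H →L[ℂ] H // a ∈ M ∧ IsSelfAdjoint a},
            ∃ b : H →L[ℂ] H, IsSelfAdjoint b ∧
              b ∈ Set.centralizer (Set.centralizer ({a.1} : Set (H →L[ℂ] H))) ∧
              J b = (φ a).1) := by
  classical
  intro hall
  have hsep : TopologicalSpace.SeparableSpace (L2 Aff) := separable_L2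
  let A : {a : L2 Aff →L[ℂ] L2 Aff // a ∈ LG Aff ∧ IsSelfAdjoint a} :=
    ⟨aa, sym_mem _, sym_selfAdjoint _⟩
  let B : {a : L2 Aff →L[ℂ] L2 Aff // a ∈ LG Aff ∧ IsSelfAdjoint a} :=
    ⟨bb, sym_mem _, sym_selfAdjoint _⟩
  have hAB : ∀ x : {a : L2 Aff →L[ℂ] L2 Aff // a ∈ LG Aff ∧ IsSelfAdjoint a},
      Commute x.1 A.1 ↔ Commute x.1 B.1 := fun x => same_commutant x.2.1
  have hBA : ∀ x : {a : L2 Aff →L[ℂ] L2 Aff // a ∈ LG Aff ∧ IsSelfAdjoint a},
      Commute A.1 x.1 ↔ Commute B.1 x.1 := fun x => by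
    rw [Commute.symm_iff, hAB x, Commute.symm_iff]
  have hC : Commute A.1 B.1 := (hAB A).mp (Commute.refl _)
  have hne : ∀ x y, Equiv.swap A B x = y → (x = A ∧ y = B) ∨ (x = B ∧ y = A) ∨
      (x ≠ A ∧ x ≠ B ∧ y = x) := by
    intro x y h
    rcases eq_or_ne x A with rfl | h1
    · left
      refine ⟨rfl, ?_⟩
      rw [← h, Equiv.swap_apply_left]
    · rcases eq_or_ne x B with rfl | h2
      · right; left
        refine ⟨rfl, ?_⟩
        rw [← h, Equiv.swap_apply_right]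
      · right; right
        refine ⟨h1, h2, ?_⟩
        rw [← h, Equiv.swap_apply_of_ne_of_ne h1 h2]
  have hφ : ∀ c d, Commute c.1 d.1 ↔ Commute (Equiv.swap A B c).1 (Equiv.swap A B d).1 := by
    intro c d
    rcases hne c _ rfl with ⟨h1, h2⟩ | ⟨h1, h2⟩ | ⟨-, -, h2⟩ <;>
    rcases hne d _ rfl with ⟨h3, h4⟩ | ⟨h3, h4⟩ | ⟨-, -, h4⟩
    · rw [h2, h4, h1, h3]
      exact ⟨fun _ => Commute.refl _, fun _ => Commute.refl _⟩
    · rw [h2, h4, h1, h3]
      exact ⟨fun h => h.symm, fun h => h.symm⟩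
    · rw [h2, h4, h1]
      exact hBA d
    · rw [h2, h4, h1, h3]
      exact ⟨fun h => h.symm, fun h => h.symm⟩
    · rw [h2, h4, h1, h3]
      exact ⟨fun _ => Commute.refl _, fun _ => Commute.refl _⟩
    · rw [h2, h4, h1]
      exact (hBA d).symm
    · rw [h2, h4, h3]
      exact hAB c
    · rw [h2, h4, h3]
      exact (hAB c).symm
    · rw [h2, h4]
  obtain ⟨J, hbij, hJ, hcov⟩ := hall (L2 Aff) (L2 Aff) (LG Aff) (LG Aff)
    (fun z hz h => factor_of_icc icc z hz h) (fun z hz h => factor_of_icc icc z hz h)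
    (fun ⟨s, hs, h⟩ => big s hs h) (fun ⟨s, hs, h⟩ => big s hs h)
    (Equiv.swap A B) (Equiv.bijective _) hφ
  obtain ⟨-, hinj, hsurj⟩ := hbij
  have h1m : (1 : L2 Aff →L[ℂ] L2 Aff) ∈ LG Aff := one_mem _
  have hsm : ∀ (c : ℂ) (x : L2 Aff →L[ℂ] L2 Aff), x ∈ LG Aff → c • x ∈ LG Aff := by
    intro c x hx
    exact (mem_LG _).mpr fun g => by rw [mul_smul_comm, smul_mul_assoc, (mem_LG _).mp hx g]
  have hadd : ∀ x ∈ LG Aff, ∀ y ∈ LG Aff, J (x + y) = J x + J y :=
    fun x hx y hy => (hJ x hx y hy 0).1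
  have hsmul : ∀ x ∈ LG Aff, ∀ c : ℂ, J (c • x) = c • J x :=
    fun x hx c => (hJ x hx x hx c).2.1
  have hjor : ∀ x ∈ LG Aff, ∀ y ∈ LG Aff, J (x * y + y * x) = J x * J y + J y * J x :=
    fun x hx y hy => (hJ x hx y hy 0).2.2.2
  have hJ1 : J 1 = 1 := by
    obtain ⟨u, hu, hu1⟩ := hsurj h1m
    have h2 := hjor u hu 1 h1m
    rw [mul_one, one_mul, hadd u hu u hu, hu1, one_mul, mul_one] at h2
    have h3 : (2 : ℂ) • (1 : L2 Aff →L[ℂ] L2 Aff) = (2 : ℂ) • J 1 := by
      rw [two_smul, two_smul]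
      exact h2
    have h4 := congrArg (fun x => (2 : ℂ)⁻¹ • x) h3
    simp only [smul_smul, inv_mul_cancel₀ (two_ne_zero : (2 : ℂ) ≠ 0), one_smul] at h4
    exact h4.symm
  have hrefl : ∀ s : Aff, s * s = 1 → (s.c : Zsqrtd 2) ≠ 1 →
      ∃ β : ℂ, β * β = 1 ∧ J (β • lam s) = lam s := by
    intro s hs hsc
    have hs1 : s ≠ 1 := by
      rintro rfl
      exact hsc rfl
    let W : {a : L2 Aff →L[ℂ] L2 Aff // a ∈ LG Aff ∧ IsSelfAdjoint a} :=
      ⟨lam s, lam_mem _, by
        rw [IsSelfAdjoint, star_lam, inv_eq_of_mul_eq_one_left hs]⟩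
    have hWA : W ≠ A := fun h => lam_ne_sym (k := 2) hsc (congrArg Subtype.val h)
    have hWB : W ≠ B := fun h => lam_ne_sym (k := 1) hsc (congrArg Subtype.val h)
    obtain ⟨z, -, hz, hJz⟩ := hcov W
    rw [Equiv.swap_apply_of_ne_of_ne hWA hWB] at hJz
    obtain ⟨α, β, hzz⟩ := lam_symmetry hs hs1 hz
    have hzm : z ∈ LG Aff := by
      rw [hzz]
      exact add_mem (hsm _ _ h1m) (hsm _ _ (lam_mem _))
    have hJz' : J z = lam s := hJz
    have h2 : z * z + z * z = 1 + 1 := by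
      apply hinj (add_mem (mul_mem hzm hzm) (mul_mem hzm hzm)) (add_mem h1m h1m)
      rw [hjor z hzm z hzm, hadd 1 h1m 1 h1m, hJ1, hJz', lam_mul, hs, lam_one]
    have h3 : z * z = (α * α + β * β) • (1 : L2 Aff →L[ℂ] L2 Aff) + (2 * (α * β)) • lam s := by
      rw [hzz, mul_add, add_mul, add_mul, smul_mul_smul_comm, smul_mul_smul_comm,
        smul_mul_smul_comm, smul_mul_smul_comm, lam_mul, hs, lam_one, one_mul, mul_one, one_mul]
      module
    rw [h3] at h2
    have h4 := congrArg (fun T : L2 Aff →L[ℂ] L2 Aff => T (delta 1) 1) h2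
    have h5 := congrArg (fun T : L2 Aff →L[ℂ] L2 Aff => T (delta 1) s) h2
    simp only [_root_.add_apply, _root_.smul_apply, one_apply_eq_self, lam_delta, mul_one,
      lp.coeFn_add, lp.coeFn_smul, Pi.add_apply, Pi.smul_apply, delta_apply, smul_eq_mul,
      if_neg hs1, if_neg (Ne.symm hs1), if_true, mul_zero, add_zero, zero_add] at h4 h5
    have h6 : α * α + β * β = 1 := by linear_combination h4 / 2
    have h7 : α * β = 0 := by linear_combination h5 / 4
    rcases mul_eq_zero.mp h7 with h8 | h8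
    · refine ⟨β, by rw [h8] at h6; simpa using h6, ?_⟩
      have h11 : β • lam s = z := by rw [hzz, h8, zero_smul, zero_add]
      rw [h11]
      exact hJz'
    · exfalso
      have h9 : z = α • (1 : L2 Aff →L[ℂ] L2 Aff) := by rw [hzz, h8, zero_smul, add_zero]
      rw [h9, hsmul 1 h1m, hJ1] at hJz'
      have h10 := congrArg (fun T : L2 Aff →L[ℂ] L2 Aff => T (delta 1) s) hJz'
      simp only [_root_.smul_apply, one_apply_eq_self, lam_delta, mul_one,
        lp.coeFn_smul, Pi.smul_apply, delta_apply, smul_eq_mul, if_neg hs1, if_true,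
        mul_zero] at h10
      exact zero_ne_one h10
  obtain ⟨β₁, hβ₁, hJ₁⟩ := hrefl refl1 refl1_sq refl_c_ne
  obtain ⟨β₂, hβ₂, hJ₂⟩ := hrefl refl2 refl2_sq refl_c_ne
  have hJbb : J ((β₁ * β₂) • bb) = bb := by
    have h2 := hjor (β₁ • lam refl1) (hsm _ _ (lam_mem _)) (β₂ • lam refl2)
      (hsm _ _ (lam_mem _))
    rw [hJ₁, hJ₂, ← bb_eq, smul_mul_smul_comm, smul_mul_smul_comm, mul_comm β₂ β₁,
      ← smul_add, ← bb_eq] at h2
    exact h2
  obtain ⟨z, -, hz, hJz⟩ := hcov A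
  rw [Equiv.swap_apply_left] at hJz
  have hJz' : J z = bb := hJz
  have hzm : z ∈ LG Aff := by
    have h2 : z ∈ Set.centralizer (Set.centralizer (LG Aff : Set (L2 Aff →L[ℂ] L2 Aff))) := by
      refine Set.centralizer_subset (Set.centralizer_subset ?_) hz
      rw [Set.singleton_subset_iff]
      exact A.2.1
    have h3 := (LG Aff).centralizer_centralizer
    rw [h3] at h2
    exact h2
  have hzb : z = (β₁ * β₂) • bb := by
    have hbm : bb ∈ LG Aff := sym_mem _
    apply hinj hzm (hsm _ _ hbm)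
    rw [hJz', hJbb]
  have hpar : par ∈ Set.centralizer ({A.1} : Set (L2 Aff →L[ℂ] L2 Aff)) := by
    rw [Set.mem_centralizer_iff]
    rintro _ rfl
    exact par_commute_aa.symm
  have h2 := (Set.mem_centralizer_iff.mp hz) _ hpar
  rw [hzb, mul_smul_comm, smul_mul_assoc] at h2
  have hbeta : β₁ * β₂ ≠ 0 := by
    intro h
    have : (β₁ * β₂) * (β₁ * β₂) = 1 := by linear_combination β₂ * β₂ * hβ₁ + hβ₂
    rw [h, mul_zero] at this
    exact zero_ne_one this
  exact par_not_commute_bb (smul_right_injective _ hbeta h2)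

end Pool.Agent.S03680
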