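import Pool.Statements.S03685

set_option autoImplicit false
open scoped ENNReal Topology
open Filter
open Pool Pool.MP_9ca510_an

namespace Pool.Agent.S03685

section Abs

variable {E : Type} [NormedAddCommGroup E] [NormedSpace ℂ E] {k : ℕ}

/-- values of the polynomial on the closed unit ball -/
def PN (A : ContinuousMultilinearMap ℂ (fun _ : Fin k => E) E) : Set ℝ :=
  {s : ℝ | ∃ x : E, ‖x‖ ≤ 1 ∧ s = ‖A (fun _ => x)‖}

/-- values on the numerical range -/
def NR (A : ContinuousMultilinearMap ℂ (fun _ : Fin k => E) E) : Set ℝ :=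
  {s : ℝ | ∃ (x : E) (φ : E →L[ℂ] ℂ), ‖x‖ = 1 ∧ ‖φ‖ = 1 ∧ φ x = 1 ∧ s = ‖φ (A (fun _ => x))‖}

/-- numerical radii of norm-one polynomials -/
def SS (E : Type) [NormedAddCommGroup E] [NormedSpace ℂ E] (k : ℕ) : Set ℝ :=
  {r : ℝ | ∃ A : ContinuousMultilinearMap ℂ (fun _ : Fin k => E) E,
    sSup (PN A) = 1 ∧ r = sSup (NR A)}

lemma norm_le_of_ball (A : ContinuousMultilinearMap ℂ (fun _ : Fin k => E) E) (x : E)
    (hx : ‖x‖ ≤ 1) : ‖A (fun _ => x)‖ ≤ ‖A‖ := by
  refine (A.le_opNorm _).trans ?_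
  have : ∏ _i : Fin k, ‖x‖ ≤ 1 := by
    apply Finset.prod_le_one
    · intros; exact norm_nonneg _
    · intros; exact hx
  nlinarith [norm_nonneg A]

lemma bdd_PN (A : ContinuousMultilinearMap ℂ (fun _ : Fin k => E) E) : BddAbove (PN A) := by
  refine ⟨‖A‖, ?_⟩
  rintro s ⟨x, hx, rfl⟩
  exact norm_le_of_ball A x hx

lemma bdd_NR (A : ContinuousMultilinearMap ℂ (fun _ : Fin k => E) E) : BddAbove (NR A) := by
  refine ⟨‖A‖, ?_⟩
  rintro s ⟨x, φ, hx, hφ, -, rfl⟩
  refine (φ.le_opNorm _).trans ?_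
  rw [hφ, one_mul]
  exact norm_le_of_ball A x hx.le

lemma NR_nonneg (A : ContinuousMultilinearMap ℂ (fun _ : Fin k => E) E) : 0 ≤ sSup (NR A) := by
  apply Real.sSup_nonneg
  rintro s ⟨x, φ, -, -, -, rfl⟩
  exact norm_nonneg _

lemma le_PN (A : ContinuousMultilinearMap ℂ (fun _ : Fin k => E) E) (x : E) (hx : ‖x‖ ≤ 1) :
    ‖A (fun _ => x)‖ ≤ sSup (PN A) := le_csSup (bdd_PN A) ⟨x, hx, rfl⟩

lemma le_NR (A : ContinuousMultilinearMap ℂ (fun _ : Fin k => E) E) (x : E) (φ : E →L[ℂ] ℂ)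
    (hx : ‖x‖ = 1) (hφ : ‖φ‖ = 1) (h : φ x = 1) :
    ‖φ (A (fun _ => x))‖ ≤ sSup (NR A) := le_csSup (bdd_NR A) ⟨x, φ, hx, hφ, h, rfl⟩

lemma PN_nonempty (A : ContinuousMultilinearMap ℂ (fun _ : Fin k => E) E) : (PN A).Nonempty :=
  ⟨_, 0, by simp, rfl⟩

lemma SS_nonneg : ∀ r ∈ SS E k, 0 ≤ r := by
  rintro r ⟨A, -, rfl⟩
  exact NR_nonneg A

lemma SS_bddBelow : BddBelow (SS E k) := ⟨0, fun r hr => SS_nonneg r hr⟩

lemma SS_nonempty [Nontrivial E] : (SS E k).Nonempty := by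
  obtain ⟨x0, hx0⟩ := exists_norm_eq E (zero_le_one (α := ℝ))
  obtain ⟨g, hg, hgx⟩ := exists_dual_vector' ℂ x0
  let A : ContinuousMultilinearMap ℂ (fun _ : Fin k => E) E :=
    ((ContinuousMultilinearMap.mkPiAlgebra ℂ (Fin k) ℂ).compContinuousLinearMap
      (fun _ => g)).smulRight x0
  have hA : ∀ x, A (fun _ => x) = (g x) ^ k • x0 := by
    intro x; simp [A]
  refine ⟨_, A, ?_, rfl⟩
  apply le_antisymm
  · apply csSup_le (PN_nonempty A)
    rintro s ⟨x, hx, rfl⟩
    rw [hA, norm_smul, hx0, mul_one, norm_pow]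
    apply pow_le_one₀ (norm_nonneg _)
    refine (g.le_opNorm x).trans ?_
    rw [hg, one_mul]; exact hx
  · have := le_PN A x0 hx0.le
    rw [hA, hgx, hx0] at this
    simpa [hx0] using this

end Abs

section Sum

variable {Λ : Type} {X : Λ → Type} [∀ i, NormedAddCommGroup (X i)] [∀ i, NormedSpace ℂ (X i)]
  {E : Type} [NormedAddCommGroup E] [NormedSpace ℂ E] {k : ℕ}

/-- the sup-norm sum structure on `E` -/
structure SumStr (X : Λ → Type) [∀ i, NormedAddCommGroup (X i)] [∀ i, NormedSpace ℂ (X i)]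
    (E : Type) [NormedAddCommGroup E] [NormedSpace ℂ E] where
  p : ∀ i, E →L[ℂ] X i
  j : ∀ i, X i →L[ℂ] E
  pj : ∀ i u, p i (j i u) = u
  pj' : ∀ i l, l ≠ i → ∀ u, p l (j i u) = 0
  up : ∀ (x : E) (c : ℝ), 0 ≤ c → (∀ i, ‖p i x‖ ≤ c) → ‖x‖ ≤ c
  lo : ∀ i x, ‖p i x‖ ≤ ‖x‖

variable (S : SumStr X E)

include S

lemma SumStr.norm_j (i : Λ) (u : X i) : ‖S.j i u‖ ≤ ‖u‖ := by
  apply S.up _ _ (norm_nonneg _)
  intro l
  by_cases h : l = i
  · subst h; rw [S.pj]
  · rw [S.pj' i l h]; simp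

/-- replacing one coordinate -/
lemma SumStr.repl (i : Λ) (x : E) (u : X i) (hx : ‖x‖ ≤ 1) (hu : ‖u‖ ≤ 1) (c : ℂ) (hc : ‖c‖ ≤ 1) :
    ‖S.j i u + c • (x - S.j i (S.p i x))‖ ≤ 1 := by
  apply S.up _ _ zero_le_one
  intro l
  by_cases h : l = i
  · subst h
    simpa [S.pj] using hu
  · rw [map_add, S.pj' i l h, map_smul, map_sub, S.pj' i l h, sub_zero, zero_add, norm_smul]
    have := (S.lo l x).trans hx
    nlinarith [norm_nonneg c, norm_nonneg (S.p l x)]

/-- upper bound -/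
lemma upper [∀ i, Nontrivial (X i)] (i : Λ) : sInf (SS E k) ≤ sInf (SS (X i) k) := by
  apply le_csInf SS_nonempty
  rintro r ⟨B, hB, rfl⟩
  let A : ContinuousMultilinearMap ℂ (fun _ : Fin k => E) E :=
    (S.j i).compContinuousMultilinearMap (B.compContinuousLinearMap (fun _ => S.p i))
  have hA : ∀ x, A (fun _ => x) = S.j i (B (fun _ => S.p i x)) := by
    intro x; rfl
  have hAn : sSup (PN A) = 1 := by
    rw [← hB]
    apply le_antisymm
    · apply csSup_le (PN_nonempty A)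
      rintro s ⟨x, hx, rfl⟩
      rw [hA]
      exact (S.norm_j i _).trans (le_PN B _ ((S.lo i x).trans hx))
    · apply csSup_le (PN_nonempty B)
      rintro s ⟨u, hu, rfl⟩
      have h1 := le_PN A (S.j i u) ((S.norm_j i u).trans hu)
      rw [hA, S.pj] at h1
      refine le_trans ?_ h1
      have := S.lo i (S.j i (B fun _ => u))
      rwa [S.pj] at this
  refine csInf_le_of_le SS_bddBelow (b := sSup (NR A)) ⟨A, hAn, rfl⟩ ?_
  apply Real.sSup_le _ (NR_nonneg B)
  rintro s ⟨x, φ, hx, hφ, hφx, rfl⟩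
  rw [hA]
  set u := S.p i x with hu
  set ψ : X i →L[ℂ] ℂ := φ.comp (S.j i) with hψ
  have hu1 : ‖u‖ ≤ 1 := (S.lo i x).trans hx.le
  have key : ∀ u' : X i, ‖u'‖ ≤ 1 → (ψ u').re ≤ (ψ u).re := by
    intro u' hu'
    have h1 := S.repl i x u' hx.le hu' 1 (by simp)
    have h2 : ‖φ (S.j i u' + (1 : ℂ) • (x - S.j i (S.p i x)))‖ ≤ 1 := by
      refine (φ.le_opNorm _).trans ?_
      rw [hφ, one_mul]; exact h1
    have h3 : φ (S.j i u' + (1 : ℂ) • (x - S.j i (S.p i x))) = ψ u' + (1 - ψ u) := by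
      simp [hψ, ← hu, hφx]
    rw [h3] at h2
    have h4 := (Complex.re_le_norm _).trans h2
    simp at h4
    linarith
  have h0 : 0 ≤ (ψ u).re := by simpa using key 0 (by simp)
  have hre : ‖ψ‖ ≤ (ψ u).re := by
    apply ψ.opNorm_le_bound h0
    intro u'
    by_cases hz : ψ u' = 0
    · rw [hz, norm_zero]; exact mul_nonneg h0 (norm_nonneg _)
    have hu'0 : u' ≠ 0 := by rintro rfl; simp at hz
    have hn : 0 < ‖u'‖ := norm_pos_iff.mpr hu'0
    have hm : 0 < ‖ψ u'‖ := norm_pos_iff.mpr hz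
    have h1 := key (((starRingEnd ℂ (ψ u')) / ((‖ψ u'‖ * ‖u'‖ : ℝ) : ℂ)) • u') (by
      rw [norm_smul, norm_div, RCLike.norm_conj, Complex.norm_real, Real.norm_eq_abs,
        abs_of_pos (by positivity)]
      field_simp
      exact le_refl _)
    have h2 : ψ (((starRingEnd ℂ (ψ u')) / ((‖ψ u'‖ * ‖u'‖ : ℝ) : ℂ)) • u')
        = ((‖ψ u'‖ / ‖u'‖ : ℝ) : ℂ) := by
      rw [map_smul, smul_eq_mul, div_mul_eq_mul_div, mul_comm, Complex.mul_conj,
        Complex.normSq_eq_norm_sq, ← Complex.ofReal_div]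
      congr 1
      field_simp
    rw [h2, Complex.ofReal_re, div_le_iff₀ hn] at h1
    exact h1
  have hB' : φ (S.j i (B fun _ => u)) = ψ (B fun _ => u) := rfl
  rw [hB']
  by_cases hψ0 : ‖ψ‖ = 0
  · have : ψ = 0 := norm_eq_zero.mp hψ0
    rw [this]; simpa using NR_nonneg B
  have hψp : 0 < ‖ψ‖ := lt_of_le_of_ne (norm_nonneg _) (Ne.symm hψ0)
  have hle : ‖ψ u‖ ≤ ‖ψ‖ * ‖u‖ := ψ.le_opNorm u
  have hle2 : (ψ u).re ≤ ‖ψ u‖ := Complex.re_le_norm _
  have hu2 : ‖u‖ = 1 := by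
    apply le_antisymm hu1
    by_contra hcon
    push Not at hcon
    nlinarith
  have hnorm : ‖ψ u‖ = ‖ψ‖ := by
    rw [hu2, mul_one] at hle
    linarith
  have hval : ψ u = (‖ψ‖ : ℂ) := by
    have h5 : (ψ u).re = ‖ψ‖ := by linarith
    have h6 : (ψ u).im = 0 := by
      have := Complex.sq_norm_sub_sq_re (ψ u)
      rw [hnorm, h5] at this
      have : (ψ u).im ^ 2 = 0 := by linarith
      exact pow_eq_zero_iff (two_ne_zero) |>.mp this
    apply Complex.ext <;> simp [h5, h6]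
  have hψ1 : ‖ψ‖ ≤ 1 := by
    apply ψ.opNorm_le_bound zero_le_one
    intro v
    refine (φ.le_opNorm _).trans ?_
    rw [hφ]
    gcongr
    exact S.norm_j i v
  have hfin := le_NR B u ((‖ψ‖⁻¹ : ℂ) • ψ) hu2 (by
    rw [norm_smul, norm_inv, Complex.norm_real, norm_norm, inv_mul_cancel₀ hψ0]) (by
    rw [ContinuousLinearMap.smul_apply, hval, smul_eq_mul, inv_mul_cancel₀]
    exact_mod_cast hψ0)
  rw [ContinuousLinearMap.smul_apply, norm_smul, norm_inv, Complex.norm_real, norm_norm] at hfin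
  have h7 : ‖ψ (B fun _ => u)‖ = ‖ψ‖ * (‖ψ‖⁻¹ * ‖ψ (B fun _ => u)‖) := by
    field_simp
  rw [h7]
  have h8 : 0 ≤ ‖ψ‖⁻¹ * ‖ψ (B fun _ => u)‖ := by positivity
  nlinarith

/-- lower bound -/
lemma lower [∀ i, Nontrivial (X i)] (A : ContinuousMultilinearMap ℂ (fun _ : Fin k => E) E)
    (hA : sSup (PN A) = 1) (m : ℝ) (hm0 : 0 ≤ m) (hm : ∀ i, m ≤ sInf (SS (X i) k)) :
    m ≤ sSup (NR A) := by
  apply le_of_forall_pos_lt_add
  intro ε hε
  -- choose a scale t in (0,1) with m ≤ t m + ε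
  obtain ⟨t, ht0, ht1, htm⟩ : ∃ t : ℝ, 0 < t ∧ t < 1 ∧ m < t * m + ε := by
    refine ⟨max (1/2) (1 - ε / (2 * (m + 1))), by positivity, ?_, ?_⟩
    · apply max_lt (by norm_num)
      have : 0 < ε / (2 * (m + 1)) := by positivity
      linarith
    · have h1 : (1 - ε / (2 * (m + 1))) ≤ max (1/2) (1 - ε / (2 * (m + 1))) := le_max_right _ _
      have h2 : (1 - ε / (2 * (m + 1))) * m ≤ max (1/2) (1 - ε / (2 * (m + 1))) * m := by gcongr
      have h3 : ε / (2 * (m + 1)) * m < ε := by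
        rw [div_mul_eq_mul_div, div_lt_iff₀ (by positivity)]
        nlinarith
      nlinarith
  -- a point where A is almost one
  obtain ⟨s, ⟨x0, hx0, rfl⟩, hs⟩ := exists_lt_of_lt_csSup (PN_nonempty A) (by rw [hA]; exact ht1)
  obtain ⟨i, hi⟩ : ∃ i, t < ‖S.p i (A fun _ => x0)‖ := by
    by_contra hcon
    push Not at hcon
    exact absurd (S.up _ _ ht0.le hcon) (not_le.mpr hs)
  -- move to the sphere in coordinate i
  obtain ⟨b, hb, hab⟩ : ∃ b : X i, ‖b‖ = 1 ∧ S.p i x0 = ((‖S.p i x0‖ : ℝ) : ℂ) • b := by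
    by_cases h : S.p i x0 = 0
    · obtain ⟨b, hb⟩ := exists_norm_eq (X i) (zero_le_one (α := ℝ))
      exact ⟨b, hb, by rw [h]; simp⟩
    · refine ⟨((‖S.p i x0‖ : ℝ) : ℂ)⁻¹ • S.p i x0, ?_, ?_⟩
      · rw [norm_smul, norm_inv, Complex.norm_real, norm_norm, inv_mul_cancel₀ (norm_ne_zero_iff.mpr h)]
      · rw [smul_smul, mul_inv_cancel₀, one_smul]
        exact_mod_cast norm_ne_zero_iff.mpr h
  set y := x0 - S.j i (S.p i x0) with hy
  let f : ℂ → X i := fun z => S.p i (A fun _ => z • S.j i b + y)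
  obtain ⟨z, hz, hfz⟩ : ∃ z : ℂ, ‖z‖ = 1 ∧ t < ‖f z‖ := by
    by_contra hcon
    push Not at hcon
    have hd : Differentiable ℂ f := by
      apply (S.p i).differentiable.comp
      have h1 : Differentiable ℂ (fun z : ℂ => (fun _ : Fin k => z • S.j i b + y)) := by
        rw [differentiable_pi]
        intro _
        fun_prop
      exact (A.contDiff (n := 1)).differentiable (by simp) |>.comp h1
    have := Complex.norm_le_of_forall_mem_frontier_norm_le (f := f) (U := Metric.ball 0 1)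
      Metric.isBounded_ball hd.diffContOnCl (C := t) (by
        intro z hz
        rw [frontier_ball _ one_ne_zero] at hz
        exact hcon z (by simpa using hz)) (z := ((‖S.p i x0‖ : ℝ) : ℂ)) (by
        rw [closure_ball _ one_ne_zero]
        simpa using (S.lo i x0).trans hx0)
    have hfx : f ((‖S.p i x0‖ : ℝ) : ℂ) = S.p i (A fun _ => x0) := by
      have : ((‖S.p i x0‖ : ℝ) : ℂ) • S.j i b + y = x0 := by
        rw [← map_smul, ← hab, hy]; abel
      simp only [f, this]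
    rw [hfx] at this
    linarith
  -- build the polynomial on X i
  set u0 : X i := z • b with hu0
  have hu0n : ‖u0‖ = 1 := by rw [hu0, norm_smul, hz, hb, mul_one]
  obtain ⟨g, hg, hgu⟩ := exists_dual_vector' ℂ u0
  rw [hu0n] at hgu
  let L : X i →L[ℂ] E := S.j i + g.smulRight y
  have hL : ∀ u, L u = S.j i u + g u • y := fun u => rfl
  have hpy : S.p i y = 0 := by rw [hy, map_sub, S.pj, sub_self]
  have hLn : ∀ u, ‖u‖ ≤ 1 → ‖L u‖ ≤ 1 := by
    intro u hu
    rw [hL]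
    refine S.repl i x0 u hx0 hu (g u) ?_
    refine (g.le_opNorm u).trans ?_
    rw [hg, one_mul]; exact hu
  have hpL : ∀ u, S.p i (L u) = u := by
    intro u
    rw [hL, map_add, S.pj, map_smul, hpy, smul_zero, add_zero]
  let B : ContinuousMultilinearMap ℂ (fun _ : Fin k => X i) (X i) :=
    (S.p i).compContinuousMultilinearMap (A.compContinuousLinearMap (fun _ => L))
  have hB : ∀ u, B (fun _ => u) = S.p i (A (fun _ => L u)) := fun u => rfl
  have hLu0 : L u0 = z • S.j i b + y := by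
    rw [hL, hgu, hu0, map_smul]; simp
  have hBt : t < sSup (PN B) := by
    refine lt_of_lt_of_le hfz ?_
    have := le_PN B u0 hu0n.le
    rw [hB, hLu0] at this
    exact this
  set σ := sSup (PN B) with hσ
  have hσ0 : 0 < σ := ht0.trans hBt
  let B' : ContinuousMultilinearMap ℂ (fun _ : Fin k => X i) (X i) := ((σ⁻¹ : ℝ) : ℂ) • B
  have hB' : ∀ u, B' (fun _ => u) = ((σ⁻¹ : ℝ) : ℂ) • B (fun _ => u) := fun u => rfl
  have hB'n : sSup (PN B') = 1 := by
    apply le_antisymm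
    · apply csSup_le (PN_nonempty B')
      rintro s ⟨u, hu, rfl⟩
      rw [hB', norm_smul, Complex.norm_real, Real.norm_eq_abs, abs_of_pos (by positivity),
        inv_mul_le_iff₀ hσ0, mul_one]
      exact le_PN B u hu
    · have : σ ≤ σ * sSup (PN B') := by
        conv_lhs => rw [hσ]
        apply csSup_le (PN_nonempty B)
        rintro s ⟨u, hu, rfl⟩
        have h1 := le_PN B' u hu
        rw [hB', norm_smul, Complex.norm_real, Real.norm_eq_abs, abs_of_pos (by positivity),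
          inv_mul_le_iff₀ hσ0] at h1
        exact h1
      by_contra hcon
      push Not at hcon
      nlinarith
  have h1 : m ≤ sSup (NR B') := (hm i).trans (csInf_le SS_bddBelow ⟨B', hB'n, rfl⟩)
  have h2 : σ * sSup (NR B') ≤ sSup (NR A) := by
    rw [← le_div_iff₀' hσ0]
    apply Real.sSup_le _ (div_nonneg (NR_nonneg A) hσ0.le)
    rintro s ⟨u, φ, hu, hφ, hφu, rfl⟩
    rw [le_div_iff₀' hσ0, hB', map_smul, norm_smul, Complex.norm_real, Real.norm_eq_abs,
      abs_of_pos (by positivity), mul_inv_cancel_left₀ hσ0.ne']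
    have hLu : ‖L u‖ = 1 := by
      apply le_antisymm (hLn u hu.le)
      have := S.lo i (L u)
      rwa [hpL, hu] at this
    have hv : (φ.comp (S.p i)) (L u) = 1 := by
      rw [ContinuousLinearMap.comp_apply, hpL, hφu]
    have hφn : ‖φ.comp (S.p i)‖ = 1 := by
      apply le_antisymm
      · apply ContinuousLinearMap.opNorm_le_bound _ zero_le_one
        intro v
        refine (φ.le_opNorm _).trans ?_
        rw [hφ]
        gcongr
        exact S.lo i v
      · have := (φ.comp (S.p i)).le_opNorm (L u)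
        rw [hv, hLu] at this
        simpa using this
    exact le_NR A (L u) (φ.comp (S.p i)) hLu hφn hv
  have h3 : t * m ≤ σ * sSup (NR B') := by
    have : t * m ≤ σ * m := by gcongr
    have : σ * m ≤ σ * sSup (NR B') := by gcongr
    linarith
  linarith

/-- the equality for an abstract sup-norm sum -/
lemma main_eq [Nonempty Λ] [∀ i, Nontrivial (X i)] :
    sInf (SS E k) = ⨅ i, sInf (SS (X i) k) := by
  have hbb : BddBelow (Set.range fun i => sInf (SS (X i) k)) := by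
    refine ⟨0, ?_⟩
    rintro _ ⟨i, rfl⟩
    exact Real.sInf_nonneg fun r hr => SS_nonneg r hr
  have hne : Nontrivial E := by
    obtain ⟨i⟩ := ‹Nonempty Λ›
    obtain ⟨u, hu⟩ := exists_ne (0 : X i)
    refine ⟨S.j i u, 0, ?_⟩
    intro h
    apply hu
    rw [← S.pj i u, h, map_zero]
  apply le_antisymm
  · exact le_ciInf fun i => upper S i
  · apply le_csInf SS_nonempty
    rintro r ⟨A, hA, rfl⟩
    apply lower S A hA
    · exact Real.iInf_nonneg fun i => Real.sInf_nonneg fun r hr => SS_nonneg r hr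
    · exact fun i => ciInf_le hbb i

end Sum

section Concrete

variable {Λ : Type} (X : Λ → Type) [∀ i, NormedAddCommGroup (X i)] [∀ i, NormedSpace ℂ (X i)]

/-- evaluation at a coordinate -/
noncomputable def ev (i : Λ) : lp X ∞ →L[ℂ] X i :=
  LinearMap.mkContinuous
    { toFun := fun f => f i
      map_add' := fun _ _ => rfl
      map_smul' := fun _ _ => rfl } 1
    (fun f => by rw [one_mul]; exact lp.norm_apply_le_norm ENNReal.top_ne_zero f i)

open Classical in
/-- the structure for the bounded families -/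
noncomputable def strL : SumStr X (lp X ∞) where
  p := ev X
  j := fun i => lp.singleContinuousLinearMap ℂ X ∞ i
  pj := fun i u => lp.single_apply_self ∞ i u
  pj' := fun i l h u => lp.single_apply_ne ∞ i u h
  up := fun x c hc h => lp.norm_le_of_forall_le hc h
  lo := fun i x => lp.norm_apply_le_norm ENNReal.top_ne_zero x i

open Classical in
/-- the structure for a subspace containing all finitely supported families -/
noncomputable def strC (C : Submodule ℂ (lp X ∞))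
    (hC : ∀ i (u : X i), lp.single ∞ i u ∈ C) : SumStr X C where
  p := fun i => (ev X i).comp C.subtypeL
  j := fun i => (lp.singleContinuousLinearMap ℂ X ∞ i).codRestrict C (hC i)
  pj := fun i u => lp.single_apply_self ∞ i u
  pj' := fun i l h u => lp.single_apply_ne ∞ i u h
  up := fun x c hc h => lp.norm_le_of_forall_le hc h
  lo := fun i x => lp.norm_apply_le_norm ENNReal.top_ne_zero x.1 i

end Concrete

/-- For any nonempty family of nontrivial complex Banach spaces and every k ≥ 1, the order-k polynomial numerical index of their c0-sum and of their ell-infinity-sum both equal the infimum of the order-k polynomial numerical indices of the summands. -/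
theorem result :
    ∀ (Λ : Type) [Nonempty Λ] (X : Λ → Type) [∀ i, NormedAddCommGroup (X i)]
      [∀ i, NormedSpace ℂ (X i)] [∀ i, CompleteSpace (X i)] [∀ i, Nontrivial (X i)]
      (C : Submodule ℂ (lp X ∞)),
      (∀ f : lp X ∞, f ∈ C ↔ Tendsto (fun i => ‖f i‖) cofinite (𝓝 0)) →
      ∀ k : ℕ, 1 ≤ k →
        (sInf {r : ℝ | ∃ A : ContinuousMultilinearMap ℂ (fun _ : Fin k => C) C,
            sSup {s : ℝ | ∃ x : C, ‖x‖ ≤ 1 ∧ s = ‖A (fun _ => x)‖} = 1 ∧
            r = sSup {s : ℝ | ∃ (x : C) (φ : C →L[ℂ] ℂ), ‖x‖ = 1 ∧ ‖φ‖ = 1 ∧ φ x = 1 ∧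
                  s = ‖φ (A (fun _ => x))‖}}
          = ⨅ i, sInf {r : ℝ | ∃ A : ContinuousMultilinearMap ℂ (fun _ : Fin k => X i) (X i),
            sSup {s : ℝ | ∃ x : X i, ‖x‖ ≤ 1 ∧ s = ‖A (fun _ => x)‖} = 1 ∧
            r = sSup {s : ℝ | ∃ (x : X i) (φ : X i →L[ℂ] ℂ), ‖x‖ = 1 ∧ ‖φ‖ = 1 ∧ φ x = 1 ∧
                  s = ‖φ (A (fun _ => x))‖}}) ∧
        (sInf {r : ℝ | ∃ A : ContinuousMultilinearMap ℂ (fun _ : Fin k => lp X ∞) (lp X ∞),
            sSup {s : ℝ | ∃ x : lp X ∞, ‖x‖ ≤ 1 ∧ s = ‖A (fun _ => x)‖} = 1 ∧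
            r = sSup {s : ℝ | ∃ (x : lp X ∞) (φ : lp X ∞ →L[ℂ] ℂ), ‖x‖ = 1 ∧ ‖φ‖ = 1 ∧
                  φ x = 1 ∧ s = ‖φ (A (fun _ => x))‖}}
          = ⨅ i, sInf {r : ℝ | ∃ A : ContinuousMultilinearMap ℂ (fun _ : Fin k => X i) (X i),
            sSup {s : ℝ | ∃ x : X i, ‖x‖ ≤ 1 ∧ s = ‖A (fun _ => x)‖} = 1 ∧
            r = sSup {s : ℝ | ∃ (x : X i) (φ : X i →L[ℂ] ℂ), ‖x‖ = 1 ∧ ‖φ‖ = 1 ∧ φ x = 1 ∧
                  s = ‖φ (A (fun _ => x))‖}}) := by
  classical
  intro Λ _ X _ _ _ _ C hC k _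
  refine ⟨?_, main_eq (strL X)⟩
  refine main_eq (strC X C ?_)
  intro i u
  rw [hC]
  apply Tendsto.congr' _ tendsto_const_nhds
  have : ∀ᶠ l in cofinite, l ≠ i := by
    simp only [Filter.eventually_cofinite, not_not]
    exact Set.finite_singleton i
  filter_upwards [this] with l hl
  rw [lp.single_apply_ne _ _ _ hl, norm_zero]

end Pool.Agent.S03685
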