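import Pool.Statements.S03688
import Pool.Agent.Bl169.Final

set_option autoImplicit false
open Pool Pool.MP_9cdd18_an

namespace Pool.Agent.S03688

/-- The negation of the preceding statement: If φ is plurisubharmonic on an open Ω in ℂⁿ and every point has an open neighbourhood in Ω on which φ is maximal, then φ is maximal on all of Ω. -/
theorem result :
    ¬ (∀ n : ℕ,
    ∀ PSH : Set (Fin n → ℂ) → ((Fin n → ℂ) → EReal) → Prop,
    (∀ (U : Set (Fin n → ℂ)) (u : (Fin n → ℂ) → EReal),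
      PSH U u ↔
        (UpperSemicontinuousOn u U ∧ (∀ x ∈ U, u x ≠ ⊤) ∧
          ∀ a b : Fin n → ℂ, (∀ z : ℂ, ‖z‖ ≤ 1 → a + z • b ∈ U) →
            ∀ M : ℝ, u a ≤
              ((((2 * Real.pi)⁻¹ *
                ∫ θ in (0:ℝ)..(2 * Real.pi),
                  (max (u (a + Complex.exp ((θ : ℂ) * Complex.I) • b)) (M : EReal)).toReal) : ℝ) : EReal))) →
    ∀ MAX : Set (Fin n → ℂ) → ((Fin n → ℂ) → EReal) → Prop,
    (∀ (U : Set (Fin n → ℂ)) (φ : (Fin n → ℂ) → EReal),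
      MAX U φ ↔
        (PSH U φ ∧
          ∀ v : (Fin n → ℂ) → EReal, PSH U v →
            (∃ K : Set (Fin n → ℂ), IsCompact K ∧ K ⊆ U ∧ ∀ x ∈ U \ K, v x ≤ φ x) →
            ∀ x ∈ U, v x ≤ φ x)) →
    ∀ Ω : Set (Fin n → ℂ), IsOpen Ω →
    ∀ φ : (Fin n → ℂ) → EReal, PSH Ω φ →
      (∀ x ∈ Ω, ∃ U : Set (Fin n → ℂ), IsOpen U ∧ x ∈ U ∧ U ⊆ Ω ∧ MAX U φ) →
      MAX Ω φ) := by
  intro h
  have h1 := h 2 Pool.Agent.Bl169.FPsh (fun U u => Iff.rfl) Pool.Agent.Bl169.FMax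
    (fun U φ => Iff.rfl) Pool.Agent.Bl169.Om Pool.Agent.Bl169.isOpen_Om Pool.Agent.Bl169.uu
    (Pool.Agent.Bl169.fpsh_uu _ subset_rfl) Pool.Agent.Bl169.local_max
  exact Pool.Agent.Bl169.not_max h1

end Pool.Agent.S03688
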