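import Pool.Statements.S03689
import Pool.Agent.Helper853.Gf.Domain

set_option autoImplicit false
open Pool Pool.MP_9ce036_an

namespace Pool.Agent.S03689

/-- There is a smoothly bounded strictly pseudoconvex domain in some C^n and a pole w in it such that the pluricomplex Green function with pole w is not C^2 on the domain minus w. -/
theorem result :
  ∃ (n : ℕ) (Ω : Set (EuclideanSpace ℂ (Fin n))) (w : EuclideanSpace ℂ (Fin n)),
    IsOpen Ω ∧ IsConnected Ω ∧ Bornology.IsBounded Ω ∧ w ∈ Ω ∧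
    (∃ ρ : EuclideanSpace ℂ (Fin n) → ℝ, ContDiff ℝ ((⊤ : ℕ∞) : WithTop ℕ∞) ρ ∧
      Ω = {z | ρ z < 0} ∧
      ∀ z : EuclideanSpace ℂ (Fin n), ρ z = 0 →
        fderiv ℝ ρ z ≠ 0 ∧
        ∀ ξ : EuclideanSpace ℂ (Fin n), ξ ≠ 0 → fderiv ℝ ρ z ξ = 0 →
          fderiv ℝ ρ z (Complex.I • ξ) = 0 →
          0 < fderiv ℝ (fderiv ℝ ρ) z ξ ξ
              + fderiv ℝ (fderiv ℝ ρ) z (Complex.I • ξ) (Complex.I • ξ)) ∧
    ¬ ∃ f : EuclideanSpace ℂ (Fin n) → ℝ, ContDiffOn ℝ 2 f (Ω \ {w}) ∧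
      ∀ z ∈ Ω \ {w}, ((f z : ℝ) : EReal) =
        sSup {t : EReal | ∃ u : EuclideanSpace ℂ (Fin n) → EReal, t = u z ∧
          UpperSemicontinuousOn u Ω ∧
          (∀ y ∈ Ω, u y < 0) ∧
          (∃ C : ℝ, ∃ δ : ℝ, 0 < δ ∧ ∀ y ∈ Ω, y ≠ w → ‖y - w‖ < δ →
              u y ≤ ((Real.log ‖y - w‖ + C : ℝ) : EReal)) ∧
          ∀ a ∈ Ω, ∀ b : EuclideanSpace ℂ (Fin n), ∀ r : ℝ, 0 < r →
            (∀ ζ : ℂ, ‖ζ‖ ≤ r → a + ζ • b ∈ Ω) →
            ∫⁻ θ in Set.Icc (0 : ℝ) (2 * Real.pi),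
                EReal.toENNReal (-(u (a + ((r : ℂ) * Complex.exp ((θ : ℂ) * Complex.I)) • b)))
              ≤ ENNReal.ofReal (2 * Real.pi) * EReal.toENNReal (-(u a))} := by
  obtain ⟨k, e, c, hk, he, hlap, hT, hc, hc2⟩ := Pool.Agent.Helper853.Gf.exists_params
  have hG := Pool.Agent.Helper853.Gf.gDom hk he hT hc hc2
  have hρ := Pool.Agent.Helper853.Gf.contDiff_rho (k := k) he
  refine ⟨2, Pool.Agent.Helper853.Gf.Dom k e, 0, Pool.Agent.Helper853.Gf.isOpen_Dom he,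
    Pool.Agent.Helper853.Gf.isConnected_Dom k e, Pool.Agent.Helper853.Gf.isBounded_Dom he hT,
    Pool.Agent.Helper853.Gf.zero_mem_Dom k e,
    ⟨Pool.Agent.Helper853.Gf.rho (Pool.Agent.Helper853.Gf.Psi k e) (1 / 2), hρ, rfl, ?_⟩, ?_⟩
  · intro z hz
    have h := Pool.Agent.Helper853.Gf.levi_pos (contDiff_infty.mp hρ 2)
      (fun u hu => Pool.Agent.Helper853.Gf.hasDerivAt_Psi he hu) z
      (Pool.Agent.Helper853.Gf.hasDerivAt_Psi1 he (by positivity))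
      (hlap _ (by positivity)) hz
    exact ⟨h.1, fun ξ hξ _ _ => h.2 ξ hξ⟩
  · exact Pool.Agent.Helper853.Gf.green_not_C2 hG

end Pool.Agent.S03689
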