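import Pool.Statements.S03692
import Pool.Agent.Helper57.Beta3

set_option autoImplicit false
open Pool Pool.MP_9d0e4c_an

namespace Pool.Agent.S03692

/-- The negation of the preceding statement: For every real or complex Banach space X in which every Lipschitz map from the reals is differentiable almost everywhere (RNP), the numerical index of X equals the numerical index of its dual X*. -/
theorem result :
    ¬ (∀ (𝕜 : Type) [RCLike 𝕜] (X : Type) [NormedAddCommGroup X] [NormedSpace ℝ X]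
      [NormedSpace 𝕜 X] [IsScalarTower ℝ 𝕜 X] [CompleteSpace X],
      (∀ (f : ℝ → X) (K : NNReal), LipschitzWith K f →
        ∀ᵐ t ∂(MeasureTheory.volume : MeasureTheory.Measure ℝ), DifferentiableAt ℝ f t) →
      (⨅ T : {T : X →L[𝕜] X // ‖T‖ = 1},
          ⨆ p : {p : X × (X →L[𝕜] 𝕜) // ‖p.1‖ = 1 ∧ ‖p.2‖ = 1 ∧ p.2 p.1 = 1},
            ‖p.1.2 (T.1 p.1.1)‖)
        =
      (⨅ T : {T : (X →L[𝕜] 𝕜) →L[𝕜] (X →L[𝕜] 𝕜) // ‖T‖ = 1},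
          ⨆ p : {p : (X →L[𝕜] 𝕜) × ((X →L[𝕜] 𝕜) →L[𝕜] 𝕜) //
                  ‖p.1‖ = 1 ∧ ‖p.2‖ = 1 ∧ p.2 p.1 = 1},
            ‖p.1.2 (T.1 p.1.1)‖)) := by
  intro h
  have h1 := h ℝ Pool.Agent.Helper57.Beta.YY (fun f K hf => Pool.Agent.Helper57.Beta.yy_rnp f K hf)
  have hnt := Pool.Agent.Helper57.Beta.yy_nontrivial
  obtain ⟨T₁, hT₁, hNR⟩ := Pool.Agent.Helper57.Beta.yy_upper
  have hlow : (3 / 4 : ℝ) ≤
      (⨅ T : {T : Pool.Agent.Helper57.Beta.YY →L[ℝ] Pool.Agent.Helper57.Beta.YY // ‖T‖ = 1},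
          ⨆ p : {p : Pool.Agent.Helper57.Beta.YY × (Pool.Agent.Helper57.Beta.YY →L[ℝ] ℝ) //
              ‖p.1‖ = 1 ∧ ‖p.2‖ = 1 ∧ p.2 p.1 = 1},
            ‖p.1.2 (T.1 p.1.1)‖) := by
    have : Nonempty {T : Pool.Agent.Helper57.Beta.YY →L[ℝ] Pool.Agent.Helper57.Beta.YY //
        ‖T‖ = 1} := ⟨⟨ContinuousLinearMap.id ℝ _, ContinuousLinearMap.norm_id⟩⟩
    apply le_ciInf
    rintro ⟨T, hT⟩
    apply Pool.Agent.Helper57.Beta.yy_lower hT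
    intro x f hx hf hfx
    refine le_ciSup (f := fun p : {p : Pool.Agent.Helper57.Beta.YY ×
        (Pool.Agent.Helper57.Beta.YY →L[ℝ] ℝ) // ‖p.1‖ = 1 ∧ ‖p.2‖ = 1 ∧ p.2 p.1 = 1} =>
        ‖p.1.2 (T p.1.1)‖) ?_ ⟨(x, f), hx, hf, hfx⟩
    refine ⟨‖T‖, ?_⟩
    rintro r ⟨⟨⟨x, f⟩, hx, hf, hfx⟩, rfl⟩
    simp only at hx hf hfx ⊢
    have h1 := f.le_opNorm (T x)
    have h2 := T.le_opNorm x
    rw [hf, one_mul] at h1
    rw [hx, mul_one] at h2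
    exact h1.trans h2
  have hup : (⨅ T : {T : (Pool.Agent.Helper57.Beta.YY →L[ℝ] ℝ) →L[ℝ]
            (Pool.Agent.Helper57.Beta.YY →L[ℝ] ℝ) // ‖T‖ = 1},
          ⨆ p : {p : (Pool.Agent.Helper57.Beta.YY →L[ℝ] ℝ) ×
                  ((Pool.Agent.Helper57.Beta.YY →L[ℝ] ℝ) →L[ℝ] ℝ) //
                  ‖p.1‖ = 1 ∧ ‖p.2‖ = 1 ∧ p.2 p.1 = 1},
            ‖p.1.2 (T.1 p.1.1)‖) ≤ 2 / 3 := by
    refine ciInf_le_of_le ?_ ⟨T₁, hT₁⟩ ?_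
    · refine ⟨0, ?_⟩
      rintro r ⟨T, rfl⟩
      exact Real.iSup_nonneg (fun p => norm_nonneg _)
    · apply Real.iSup_le _ (by norm_num)
      rintro ⟨⟨x, f⟩, hx, hf, hfx⟩
      exact hNR x f hx hf hfx
  have h2 : (3 / 4 : ℝ) ≤ 2 / 3 := hlow.trans (h1.le.trans hup)
  norm_num at h2

end Pool.Agent.S03692
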