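import Pool.Statements.S03696
import Pool.Agent.Helper671.NC.Final

set_option autoImplicit false
open Pool Pool.MP_9d6b4a_an

namespace Pool.Agent.S03696

/-- The negation of the preceding statement: For invertible measure-preserving maps T_i of a probability space and distinct integer polynomials p_i with zero constant term, every positive-measure set A has positive m, n with μ(A ∩ ⋂ T_i^{-(m+p_i(n))}A) > 0. -/
theorem result :
    ¬ (∀ (α : Type) [MeasurableSpace α] (μ : MeasureTheory.Measure α)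
      [MeasureTheory.IsProbabilityMeasure μ]
      (ℓ : ℕ) (T : Fin ℓ → Equiv.Perm α) (p : Fin ℓ → Polynomial ℤ),
      (∀ i, Measurable (T i)) →
      (∀ i, Measurable (T i).symm) →
      (∀ i, MeasureTheory.MeasurePreserving (T i) μ μ) →
      Function.Injective p →
      (∀ i, (p i).coeff 0 = 0) →
      ∀ A : Set α, MeasurableSet A → 0 < μ A →
        ∃ m n : ℕ, 0 < m ∧ 0 < n ∧
          0 < μ (A ∩ ⋂ i, ⇑(T i ^ ((m : ℤ) + (p i).eval (n : ℤ))) ⁻¹' A)) := by
  intro hall
  obtain ⟨α, mα, μ, hμ, ℓ, T, p, h1, h2, h3, h4, h5, A, hA, hA0, h6⟩ :=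
    Pool.Agent.Helper671.NC.main
  obtain ⟨m, n, hm, hn, h7⟩ := hall α μ ℓ T p h1 h2 h3 h4 h5 A hA hA0
  rw [h6 m n hm hn] at h7
  exact lt_irrefl _ h7

end Pool.Agent.S03696
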