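import Pool.Statements.S03716
import Pool.Agent.Helper503.SurfJ

set_option autoImplicit false
open scoped Manifold
open Pool Pool.MP_9ef1f5_an

namespace Pool.Agent.S03716

/-- The negation of the preceding statement: For every Riemann surface whose bounded holomorphic functions separate points, and every simple closed curve disconnecting it, the curve (as point evaluations) also disconnects the maximal ideal space of bounded holomorphic functions in its Gelfand topology. -/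
theorem result :
    ¬ (∀ (R : Type) [TopologicalSpace R] [T2Space R] [ConnectedSpace R] [ChartedSpace ℂ R]
      [IsManifold 𝓘(ℂ) ⊤ R],
      (∀ z w : R, z ≠ w → ∃ f : R → ℂ, MDifferentiable 𝓘(ℂ) 𝓘(ℂ) f ∧
          (∃ C : ℝ, ∀ x, ‖f x‖ ≤ C) ∧ f z ≠ f w) →
      ∀ γ : Circle → R, Continuous γ → Function.Injective γ →
        ¬ IsPreconnected (Set.range γ)ᶜ →
        ¬ IsPreconnected
          ({φ : {f : R → ℂ // MDifferentiable 𝓘(ℂ) 𝓘(ℂ) f ∧ ∃ C : ℝ, ∀ x, ‖f x‖ ≤ C} → ℂ |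
              (∀ u : {f : R → ℂ // MDifferentiable 𝓘(ℂ) 𝓘(ℂ) f ∧ ∃ C : ℝ, ∀ x, ‖f x‖ ≤ C},
                  u.1 = (fun _ => (1 : ℂ)) → φ u = 1) ∧
              (∀ f g h : {f : R → ℂ // MDifferentiable 𝓘(ℂ) 𝓘(ℂ) f ∧ ∃ C : ℝ, ∀ x, ‖f x‖ ≤ C},
                  h.1 = f.1 + g.1 → φ h = φ f + φ g) ∧
              (∀ f g h : {f : R → ℂ // MDifferentiable 𝓘(ℂ) 𝓘(ℂ) f ∧ ∃ C : ℝ, ∀ x, ‖f x‖ ≤ C},
                  h.1 = f.1 * g.1 → φ h = φ f * φ g) ∧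
              (∀ (c : ℂ) (f h : {f : R → ℂ // MDifferentiable 𝓘(ℂ) 𝓘(ℂ) f ∧ ∃ C : ℝ, ∀ x, ‖f x‖ ≤ C}),
                  h.1 = c • f.1 → φ h = c * φ f)} \
           {φ : {f : R → ℂ // MDifferentiable 𝓘(ℂ) 𝓘(ℂ) f ∧ ∃ C : ℝ, ∀ x, ‖f x‖ ≤ C} → ℂ |
              ∃ t : Circle, ∀ f : {f : R → ℂ // MDifferentiable 𝓘(ℂ) 𝓘(ℂ) f ∧ ∃ C : ℝ, ∀ x, ‖f x‖ ≤ C},
                φ f = f.1 (γ t)})) := by
  intro H
  have h1 := H Pool.Agent.Helper503.Surf.Pt.R Pool.Agent.Helper503.Surf.Pt.separates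
    Pool.Agent.Helper503.Surf.Pt.gam Pool.Agent.Helper503.Surf.Pt.gam_continuous
    Pool.Agent.Helper503.Surf.Pt.gam_injective Pool.Agent.Helper503.Surf.Pt.not_pre
  exact h1 (Pool.Agent.Helper503.HInf.transfer Pool.Agent.Helper503.Surf.Pt.gam
    Pool.Agent.Helper503.Surf.Pt.pre)

end Pool.Agent.S03716
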