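import Pool.Statements.S03725

set_option autoImplicit false
set_option maxHeartbeats 4000000
open Pool Pool.MP_9fe0db_an

namespace Pool.Agent.S03725

/-- Scalar Clarkson inequality. -/
theorem clarkson {a b q : ℝ} (ha : 0 ≤ a) (hb : 0 ≤ b) (hq : 2 ≤ q) :
    ((a + b) / 2) ^ q + (|a - b| / 2) ^ q ≤ (a ^ q + b ^ q) / 2 := by
  have hq2 : 1 ≤ q / 2 := by linarith
  have key : ∀ x : ℝ, 0 ≤ x → (x ^ 2) ^ (q / 2) = x ^ q := by
    intro x hx
    rw [← Real.rpow_natCast x 2, ← Real.rpow_mul hx]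
    congr 1
    push_cast
    ring
  have h1 : ((a + b) / 2) ^ q + (|a - b| / 2) ^ q
      ≤ (((a + b) / 2) ^ 2 + (|a - b| / 2) ^ 2) ^ (q / 2) := by
    rw [← key ((a + b) / 2) (by positivity), ← key (|a - b| / 2) (by positivity)]
    exact Real.add_rpow_le_rpow_add (by positivity) (by positivity) hq2
  have h2 : ((a + b) / 2) ^ 2 + (|a - b| / 2) ^ 2 = (1 / 2) * a ^ 2 + (1 / 2) * b ^ 2 := by
    rw [div_pow |a - b|, sq_abs]
    ring
  have h3 : ((1 / 2 : ℝ) • (a ^ 2) + (1 / 2 : ℝ) • (b ^ 2)) ^ (q / 2)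
      ≤ (1 / 2 : ℝ) • ((a ^ 2) ^ (q / 2)) + (1 / 2 : ℝ) • ((b ^ 2) ^ (q / 2)) := by
    have hc := (convexOn_rpow hq2).2
    exact hc (Set.mem_Ici.2 (by positivity)) (Set.mem_Ici.2 (by positivity))
      (by norm_num) (by norm_num) (by norm_num)
  simp only [smul_eq_mul] at h3
  rw [key a ha, key b hb] at h3
  rw [h2] at h1
  linarith

theorem convex_step {X : Type} [NormedAddCommGroup X] [NormedSpace ℝ X] (N : X → ℝ)
    (h0 : ∀ x, 0 ≤ N x) (hadd : ∀ x y : X, N (x + y) ≤ N x + N y)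
    (hsmul : ∀ (c : ℝ) (x : X), N (c • x) = |c| * N x) {q K : ℝ} (hq : 2 ≤ q) (hK : 0 < K)
    (hconv : ∀ ε : ℝ, 0 < ε → ε ≤ 2 → ∀ x y : X, N x = 1 → N y = 1 →
          ε ≤ N (x - y) → K * ε ^ q ≤ 1 - N ((1 / 2 : ℝ) • (x + y)))
    (u v : X) (hu : N u = 1) (hv : N v ≤ 1) :
    N ((1 / 2 : ℝ) • (u + v)) ^ q
      + min ((1 / 2 : ℝ) ^ q) (K / 3 * (1 / 2) ^ (q - 1)) * (N (u - v) / 2) ^ q
      ≤ (1 + N v ^ q) / 2 := by
  have hq0 : 0 < q := by linarith
  have hcl := clarkson (a := 1) (b := N v) (q := q) (by norm_num) (h0 v) hq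
  rw [Real.one_rpow] at hcl
  have hmid : N ((1 / 2 : ℝ) • (u + v)) ≤ (1 + N v) / 2 := by
    rw [hsmul, abs_of_pos (by norm_num : (0:ℝ) < 1/2)]
    have := hadd u v
    rw [hu] at this
    linarith
  have hnn : 0 ≤ (N (u - v) / 2) ^ q := Real.rpow_nonneg (by linarith [h0 (u - v)]) _
  rcases le_or_gt (N (u - v) / 2) (1 - N v) with hA | hB
  · -- case A
    have h1 : N ((1 / 2 : ℝ) • (u + v)) ^ q ≤ ((1 + N v) / 2) ^ q :=
      Real.rpow_le_rpow (h0 _) hmid hq0.le
    have h2 : (1 / 2 : ℝ) ^ q * (N (u - v) / 2) ^ q ≤ (|1 - N v| / 2) ^ q := by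
      rw [← Real.mul_rpow (by norm_num) (by linarith [h0 (u - v)])]
      apply Real.rpow_le_rpow (by linarith [h0 (u - v)]) _ hq0.le
      rw [abs_of_nonneg (by linarith)]
      linarith
    have h3 : min ((1 / 2 : ℝ) ^ q) (K / 3 * (1 / 2) ^ (q - 1)) * (N (u - v) / 2) ^ q
        ≤ (1 / 2 : ℝ) ^ q * (N (u - v) / 2) ^ q :=
      mul_le_mul_of_nonneg_right (min_le_left _ _) hnn
    linarith
  · -- case B
    have hneg : ∀ x : X, N (-x) = N x := by
      intro x
      have := hsmul (-1) x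
      simpa using this
    have huv : N (u - v) ≤ 1 + N v := by
      have := hadd u (-v)
      rw [hu, hneg, ← sub_eq_add_neg] at this
      exact this
    have hv3 : 1 / 3 < N v := by linarith
    have hv0 : 0 < N v := by linarith
    set w : X := (N v)⁻¹ • v with hw
    have hNw : N w = 1 := by
      rw [hw, hsmul, abs_of_pos (inv_pos.2 hv0)]
      field_simp
    have hvw : v = N v • w := by
      rw [hw, smul_smul, mul_inv_cancel₀ hv0.ne', one_smul]
    have huw : N (u - v) / 2 ≤ N (u - w) := by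
      have h1 : u - v = (u - w) + (1 - N v) • w := by
        rw [sub_smul, one_smul, ← hvw]
        abel
      have h2 := hadd (u - w) ((1 - N v) • w)
      rw [← h1, hsmul, hNw, abs_of_nonneg (by linarith : 0 ≤ 1 - N v)] at h2
      linarith
    have hε := hconv (N (u - v) / 2) (by linarith) (by linarith) u w hu hNw huw
    have hmid2 : N ((1 / 2 : ℝ) • (u + v)) ≤ (1 + N v) / 2 - N v * (K * (N (u - v) / 2) ^ q) := by
      have h1 : (1 / 2 : ℝ) • (u + v) = N v • ((1 / 2 : ℝ) • (u + w)) + ((1 - N v) / 2) • u := by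
        conv_lhs => rw [hvw]
        module
      have h2 := hadd (N v • ((1 / 2 : ℝ) • (u + w))) (((1 - N v) / 2) • u)
      rw [← h1, hsmul (N v), hsmul ((1 - N v) / 2), hu, abs_of_pos hv0,
        abs_of_nonneg (by linarith : 0 ≤ (1 - N v) / 2)] at h2
      nlinarith
    set t : ℝ := (1 + N v) / 2 with ht
    set η : ℝ := N v * (K * (N (u - v) / 2) ^ q) with hη
    have ht0 : 0 < t := by rw [ht]; linarith
    have htη : 0 ≤ t - η := le_trans (h0 _) hmid2
    have hη0 : 0 ≤ η := by positivity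
    have h1 : N ((1 / 2 : ℝ) • (u + v)) ^ q ≤ (t - η) ^ q :=
      Real.rpow_le_rpow (h0 _) hmid2 hq0.le
    have h2 : (t - η) ^ q ≤ t ^ q - η * t ^ (q - 1) := by
      rcases htη.eq_or_lt with h | h
      · rw [← h, Real.zero_rpow hq0.ne']
        have : t = η := by linarith
        rw [← this]
        rw [Real.rpow_sub_one ht0.ne']
        rw [mul_div_cancel₀ _ ht0.ne']
        simp
      · have e1 : (t - η) ^ q = (t - η) * (t - η) ^ (q - 1) := by
          rw [Real.rpow_sub_one h.ne']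
          field_simp
        have e2 : t ^ q = t * t ^ (q - 1) := by
          rw [Real.rpow_sub_one ht0.ne']
          field_simp
        have e3 : (t - η) ^ (q - 1) ≤ t ^ (q - 1) :=
          Real.rpow_le_rpow h.le (by linarith) (by linarith)
        rw [e1, e2]
        nlinarith
    have h3 : (1 / 2 : ℝ) ^ (q - 1) ≤ t ^ (q - 1) :=
      Real.rpow_le_rpow (by norm_num) (by rw [ht]; linarith) (by linarith)
    have h4 : K / 3 * (1 / 2) ^ (q - 1) * (N (u - v) / 2) ^ q ≤ η * t ^ (q - 1) := by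
      have : K / 3 * (N (u - v) / 2) ^ q ≤ η := by
        rw [hη]
        have : 0 ≤ K * (N (u - v) / 2) ^ q := by positivity
        nlinarith
      calc K / 3 * (1 / 2) ^ (q - 1) * (N (u - v) / 2) ^ q
          = (K / 3 * (N (u - v) / 2) ^ q) * (1 / 2) ^ (q - 1) := by ring
        _ ≤ η * t ^ (q - 1) := mul_le_mul this h3 (by positivity) hη0
    have h5 : min ((1 / 2 : ℝ) ^ q) (K / 3 * (1 / 2) ^ (q - 1)) * (N (u - v) / 2) ^ q
        ≤ K / 3 * (1 / 2) ^ (q - 1) * (N (u - v) / 2) ^ q :=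
      mul_le_mul_of_nonneg_right (min_le_right _ _) hnn
    have h6 : 0 ≤ (|1 - N v| / 2) ^ q := by positivity
    linarith

/-- Uniform convexity of power type gives the additive gain inequality. -/
theorem convex_gain {X : Type} [NormedAddCommGroup X] [NormedSpace ℝ X] (N : X → ℝ)
    (h0 : ∀ x, 0 ≤ N x) (hadd : ∀ x y : X, N (x + y) ≤ N x + N y)
    (hsmul : ∀ (c : ℝ) (x : X), N (c • x) = |c| * N x) {q K : ℝ} (hq : 2 ≤ q) (hK : 0 < K)
    (hconv : ∀ ε : ℝ, 0 < ε → ε ≤ 2 → ∀ x y : X, N x = 1 → N y = 1 →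
          ε ≤ N (x - y) → K * ε ^ q ≤ 1 - N ((1 / 2 : ℝ) • (x + y))) :
    ∃ δ : ℝ, 0 < δ ∧ ∀ x y : X, N x ^ q + δ * N y ^ q ≤ (N (x + y) ^ q + N (x - y) ^ q) / 2 := by
  have hq0 : 0 < q := by linarith
  refine ⟨min ((1 / 2 : ℝ) ^ q) (K / 3 * (1 / 2) ^ (q - 1)), by positivity, ?_⟩
  set δ : ℝ := min ((1 / 2 : ℝ) ^ q) (K / 3 * (1 / 2) ^ (q - 1)) with hδ
  have hneg : ∀ x : X, N (-x) = N x := by
    intro x
    have := hsmul (-1) x
    simpa using this
  have main : ∀ u v : X, N v ≤ N u →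
      N ((1 / 2 : ℝ) • (u + v)) ^ q + δ * (N (u - v) / 2) ^ q ≤ (N u ^ q + N v ^ q) / 2 := by
    intro u v huv
    rcases (h0 u).eq_or_lt with hR | hR
    · have hv : N v = 0 := le_antisymm (by linarith) (h0 v)
      have h1 : N ((1 / 2 : ℝ) • (u + v)) = 0 := by
        apply le_antisymm _ (h0 _)
        rw [hsmul]
        have := hadd u v
        have h2 := h0 (u + v)
        have : N (u + v) = 0 := by linarith
        rw [this]; simp
      have h2 : N (u - v) = 0 := by
        apply le_antisymm _ (h0 _)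
        have := hadd u (-v)
        rw [hneg, ← sub_eq_add_neg] at this
        linarith
      rw [h1, h2, hv, ← hR]
      simp [Real.zero_rpow hq0.ne']
    · set R : ℝ := N u with hRdef
      have e1 : N (R⁻¹ • u) = 1 := by
        rw [hsmul, abs_of_pos (inv_pos.2 hR), ← hRdef]
        field_simp
      have e2 : N (R⁻¹ • v) = N v / R := by
        rw [hsmul, abs_of_pos (inv_pos.2 hR)]
        field_simp
      have h1 := convex_step N h0 hadd hsmul hq hK hconv (R⁻¹ • u) (R⁻¹ • v) e1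
        (by rw [e2, div_le_one hR]; exact huv)
      rw [← hδ] at h1
      have e3 : N ((1 / 2 : ℝ) • (R⁻¹ • u + R⁻¹ • v)) = N ((1 / 2 : ℝ) • (u + v)) / R := by
        rw [← smul_add, smul_comm, hsmul, abs_of_pos (inv_pos.2 hR)]
        field_simp
      have e4 : N (R⁻¹ • u - R⁻¹ • v) / 2 = (N (u - v) / 2) / R := by
        rw [← smul_sub, hsmul, abs_of_pos (inv_pos.2 hR)]
        field_simp
      rw [e2, e3, e4, Real.div_rpow (h0 _) hR.le, Real.div_rpow (by linarith [h0 (u - v)]) hR.le,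
        Real.div_rpow (h0 _) hR.le] at h1
      have hRq : 0 < R ^ q := Real.rpow_pos_of_pos hR q
      have h2 := mul_le_mul_of_nonneg_left h1 hRq.le
      have e5 : R ^ q * (N ((1 / 2 : ℝ) • (u + v)) ^ q / R ^ q + δ * ((N (u - v) / 2) ^ q / R ^ q))
          = N ((1 / 2 : ℝ) • (u + v)) ^ q + δ * (N (u - v) / 2) ^ q := by
        field_simp
      have e6 : R ^ q * ((1 + N v ^ q / R ^ q) / 2) = (R ^ q + N v ^ q) / 2 := by
        field_simp
      rw [e5, e6] at h2
      exact h2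
  intro x y
  have hx : (1 / 2 : ℝ) • ((x + y) + (x - y)) = x := by module
  have hx' : (1 / 2 : ℝ) • ((x - y) + (x + y)) = x := by module
  have hy : N ((x + y) - (x - y)) / 2 = N y := by
    have : (x + y) - (x - y) = (2 : ℝ) • y := by module
    rw [this, hsmul]
    norm_num
  have hy' : N ((x - y) - (x + y)) / 2 = N y := by
    have : (x - y) - (x + y) = (-2 : ℝ) • y := by module
    rw [this, hsmul]
    norm_num
  rcases le_total (N (x - y)) (N (x + y)) with h | h
  · have := main (x + y) (x - y) h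
    rw [hx, hy] at this
    exact this
  · have := main (x - y) (x + y) h
    rw [hx', hy'] at this
    linarith

theorem rpow_le_tangent {A m : ℝ} (hA : 0 < A) (hm : 1 ≤ m) :
    A ^ m ≤ 1 + m * (A ^ (m - 1) * (A - 1)) := by
  have h1 := one_add_mul_self_le_rpow_one_add (s := A⁻¹ - 1) (by
    have := inv_pos.2 hA
    linarith) hm
  have e1 : (1 + (A⁻¹ - 1)) ^ m = (A ^ m)⁻¹ := by
    rw [← Real.inv_rpow hA.le]
    congr 1
    ring
  rw [e1] at h1
  have hAm : 0 < A ^ m := Real.rpow_pos_of_pos hA m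
  have h2 := mul_le_mul_of_nonneg_left h1 hAm.le
  rw [mul_inv_cancel₀ hAm.ne'] at h2
  rw [Real.rpow_sub_one hA.ne']
  have e2 : A ^ m * (1 + m * (A⁻¹ - 1)) = A ^ m + m * (A ^ m / A * (1 - A)) := by
    field_simp
  rw [e2] at h2
  linarith

theorem one_le_rpow_tangent {A m : ℝ} (hA : 0 ≤ A) (hm : 1 ≤ m) :
    1 + m * (A - 1) ≤ A ^ m := by
  have h1 := one_add_mul_self_le_rpow_one_add (s := A - 1) (by linarith) hm
  have : 1 + (A - 1) = A := by ring
  rw [this] at h1
  exact h1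

/-- Scalar second order bound. -/
theorem rpow_le_second {A q : ℝ} (hA : 0 ≤ A) (hA2 : A ≤ 2) (hq : 2 ≤ q) :
    A ^ q ≤ 1 + q * (A - 1) + q * (q - 1) * 2 ^ (q - 2) * (A - 1) ^ 2 := by
  have h2q : (1 : ℝ) ≤ 2 ^ (q - 2) := Real.one_le_rpow (by norm_num) (by linarith)
  have hqq : 0 ≤ q * (q - 1) := by nlinarith
  rcases hA.eq_or_lt with h | h
  · rw [← h, Real.zero_rpow (by linarith)]
    have : q * (q - 1) ≤ q * (q - 1) * 2 ^ (q - 2) := by nlinarith
    nlinarith
  · have h1 := rpow_le_tangent (m := q) h (by linarith)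
    have h3 : (A ^ (q - 1) - 1) * (A - 1) ≤ (q - 1) * 2 ^ (q - 2) * (A - 1) ^ 2 := by
      rcases le_total 1 A with h4 | h4
      · have h5 := rpow_le_tangent (m := q - 1) h (by linarith)
        have h6 : A ^ (q - 1 - 1) ≤ 2 ^ (q - 2) := by
          have : q - 1 - 1 = q - 2 := by ring
          rw [this]
          exact Real.rpow_le_rpow hA hA2 (by linarith)
        have h7 : A ^ (q - 1) - 1 ≤ (q - 1) * 2 ^ (q - 2) * (A - 1) := by
          have : (q - 1) * (A ^ (q - 1 - 1) * (A - 1)) ≤ (q - 1) * (2 ^ (q - 2) * (A - 1)) := by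
            apply mul_le_mul_of_nonneg_left _ (by linarith)
            exact mul_le_mul_of_nonneg_right h6 (by linarith)
          linarith
        have h8 := mul_le_mul_of_nonneg_right h7 (by linarith : 0 ≤ A - 1)
        nlinarith
      · have h5 := one_le_rpow_tangent (m := q - 1) hA (by linarith)
        have h7 : 1 - A ^ (q - 1) ≤ (q - 1) * (1 - A) := by linarith
        have h8 := mul_le_mul_of_nonneg_right h7 (by linarith : 0 ≤ 1 - A)
        have h9 : (q - 1) * (A - 1) ^ 2 ≤ (q - 1) * 2 ^ (q - 2) * (A - 1) ^ 2 := by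
          apply mul_le_mul_of_nonneg_right _ (sq_nonneg _)
          nlinarith
        nlinarith
    have h4 := mul_le_mul_of_nonneg_left h3 (by linarith : 0 ≤ q)
    nlinarith

/-- Uniform smoothness of power type gives an additive upper inequality for small steps. -/
theorem smooth_step {X : Type} [NormedAddCommGroup X] [NormedSpace ℝ X] (N : X → ℝ)
    (h0 : ∀ x, 0 ≤ N x) (hadd : ∀ x y : X, N (x + y) ≤ N x + N y)
    (hsmul : ∀ (c : ℝ) (x : X), N (c • x) = |c| * N x) {p q K : ℝ} (hp : 1 < p) (hp2 : p ≤ 2)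
    (hq : 2 ≤ q) (hK : 0 < K)
    (hsm : ∀ t : ℝ, 0 < t → t ≤ 1 → ∀ x y : X, N x = 1 → N y = 1 →
          (N (x + t • y) + N (x - t • y)) / 2 - 1 ≤ K * t ^ p) :
    ∃ C : ℝ, 0 < C ∧ ∀ x z : X, N z ≤ 1 →
      (N (x + z) ^ q + N (x - z) ^ q) / 2 ≤ (1 + C * N z ^ p) * N x ^ q + C * N z ^ p := by
  have hq0 : 0 < q := by linarith
  have hp0 : 0 < p := by linarith
  set D : ℝ := q * (q - 1) * 2 ^ (q - 2) with hD
  have hD0 : 0 ≤ D := by
    rw [hD]
    have : 0 ≤ q * (q - 1) := by nlinarith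
    positivity
  set C : ℝ := q * K + D + 2 ^ q with hC
  have h2q : (0 : ℝ) < 2 ^ q := by positivity
  have hCpos : 0 < C := by positivity
  have hneg : ∀ x : X, N (-x) = N x := by
    intro x
    have := hsmul (-1) x
    simpa using this
  have hsub : ∀ x y : X, N (x - y) ≤ N x + N y := by
    intro x y
    have := hadd x (-y)
    rw [hneg, ← sub_eq_add_neg] at this
    exact this
  refine ⟨C, hCpos, ?_⟩
  intro x z hz
  have hxq : 0 ≤ N x ^ q := Real.rpow_nonneg (h0 x) q
  have hzp : 0 ≤ N z ^ p := Real.rpow_nonneg (h0 z) p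
  rcases (h0 z).eq_or_lt with hz0 | hz0
  · have h1 : N (x + z) ^ q ≤ N x ^ q :=
      Real.rpow_le_rpow (h0 _) (by have := hadd x z; linarith) hq0.le
    have h2 : N (x - z) ^ q ≤ N x ^ q :=
      Real.rpow_le_rpow (h0 _) (by have := hsub x z; linarith) hq0.le
    have h3 : 0 ≤ C * N z ^ p * N x ^ q := by positivity
    have h4 : 0 ≤ C * N z ^ p := by positivity
    nlinarith
  rcases lt_or_ge (N x) (N z) with hxz | hxz
  · have h1 : N (x + z) ^ q ≤ (2 * N z) ^ q :=
      Real.rpow_le_rpow (h0 _) (by have := hadd x z; linarith) hq0.le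
    have h2 : N (x - z) ^ q ≤ (2 * N z) ^ q :=
      Real.rpow_le_rpow (h0 _) (by have := hsub x z; linarith) hq0.le
    have h3 : (2 * N z) ^ q = 2 ^ q * N z ^ q := Real.mul_rpow (by norm_num) hz0.le
    have h4 : N z ^ q ≤ N z ^ p :=
      Real.rpow_le_rpow_of_exponent_ge hz0 hz (by linarith)
    have h5 : 2 ^ q * N z ^ q ≤ C * N z ^ p := by
      apply mul_le_mul _ h4 (Real.rpow_nonneg hz0.le q) hCpos.le
      rw [hC]
      have : 0 ≤ q * K := by positivity
      linarith
    have h6 : 0 ≤ (1 + C * N z ^ p) * N x ^ q := by positivity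
    linarith
  · set r : ℝ := N x with hr
    have hr0 : 0 < r := by linarith
    set t : ℝ := N z / r with ht
    have ht0 : 0 < t := by positivity
    have ht1 : t ≤ 1 := by rw [ht, div_le_one hr0]; exact hxz
    set x' : X := r⁻¹ • x with hx'
    set y' : X := (N z)⁻¹ • z with hy'
    have hx'1 : N x' = 1 := by
      rw [hx', hsmul, abs_of_pos (inv_pos.2 hr0), ← hr]
      field_simp
    have hy'1 : N y' = 1 := by
      rw [hy', hsmul, abs_of_pos (inv_pos.2 hz0)]
      field_simp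
    have hty : t • y' = r⁻¹ • z := by
      rw [hy', ht, smul_smul]
      congr 1
      field_simp
    have hA : N (x' + t • y') = N (x + z) / r := by
      rw [hty, hx', ← smul_add, hsmul, abs_of_pos (inv_pos.2 hr0)]
      field_simp
    have hB : N (x' - t • y') = N (x - z) / r := by
      rw [hty, hx', ← smul_sub, hsmul, abs_of_pos (inv_pos.2 hr0)]
      field_simp
    have hsm' := hsm t ht0 ht1 x' y' hx'1 hy'1
    rw [hA, hB] at hsm'
    set A : ℝ := N (x + z) / r with hAdef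
    set B : ℝ := N (x - z) / r with hBdef
    have hA0 : 0 ≤ A := by rw [hAdef]; exact div_nonneg (h0 _) hr0.le
    have hB0 : 0 ≤ B := by rw [hBdef]; exact div_nonneg (h0 _) hr0.le
    have hAu : A ≤ 1 + t := by
      rw [hAdef, ht, div_le_iff₀ hr0]
      have := hadd x z
      have e : (1 + N z / r) * r = r + N z := by field_simp
      rw [e]; exact this
    have hBu : B ≤ 1 + t := by
      rw [hBdef, ht, div_le_iff₀ hr0]
      have := hsub x z
      have e : (1 + N z / r) * r = r + N z := by field_simp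
      rw [e]; exact this
    have hAl : 1 - t ≤ A := by
      rw [hAdef, ht, le_div_iff₀ hr0]
      have := hsub (x + z) z
      rw [add_sub_cancel_right] at this
      have e : (1 - N z / r) * r = r - N z := by field_simp
      rw [e]; linarith
    have hBl : 1 - t ≤ B := by
      rw [hBdef, ht, le_div_iff₀ hr0]
      have := hadd (x - z) z
      rw [sub_add_cancel] at this
      have e : (1 - N z / r) * r = r - N z := by field_simp
      rw [e]; linarith
    have hA2 := rpow_le_second hA0 (by linarith) hq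
    have hB2 := rpow_le_second hB0 (by linarith) hq
    rw [← hD] at hA2 hB2
    have hAs : (A - 1) ^ 2 ≤ t ^ 2 := by
      apply sq_le_sq'
      · linarith
      · linarith
    have hBs : (B - 1) ^ 2 ≤ t ^ 2 := by
      apply sq_le_sq'
      · linarith
      · linarith
    have ht2 : t ^ 2 ≤ t ^ p := by
      have : t ^ (2 : ℝ) ≤ t ^ p := Real.rpow_le_rpow_of_exponent_ge ht0 ht1 hp2
      rwa [Real.rpow_two] at this
    have htp : 0 ≤ t ^ p := Real.rpow_nonneg ht0.le p
    have h1 : (A ^ q + B ^ q) / 2 ≤ 1 + (q * K + D) * t ^ p := by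
      have e1 : D * (A - 1) ^ 2 ≤ D * t ^ p := mul_le_mul_of_nonneg_left (by linarith) hD0
      have e2 : D * (B - 1) ^ 2 ≤ D * t ^ p := mul_le_mul_of_nonneg_left (by linarith) hD0
      have e3 : q * ((A + B) / 2 - 1) ≤ q * (K * t ^ p) := mul_le_mul_of_nonneg_left hsm' hq0.le
      nlinarith
    have h2 : (A ^ q + B ^ q) / 2 ≤ 1 + C * t ^ p := by
      have : (q * K + D) * t ^ p ≤ C * t ^ p := mul_le_mul_of_nonneg_right (by rw [hC]; linarith) htp
      linarith
    have hrq : 0 < r ^ q := Real.rpow_pos_of_pos hr0 q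
    have e1 : N (x + z) ^ q = r ^ q * A ^ q := by
      rw [← Real.mul_rpow hr0.le hA0, hAdef]
      congr 1
      field_simp
    have e2 : N (x - z) ^ q = r ^ q * B ^ q := by
      rw [← Real.mul_rpow hr0.le hB0, hBdef]
      congr 1
      field_simp
    have h3 : (N (x + z) ^ q + N (x - z) ^ q) / 2 ≤ r ^ q * (1 + C * t ^ p) := by
      rw [e1, e2]
      have := mul_le_mul_of_nonneg_left h2 hrq.le
      linarith
    have h4 : r ^ q * t ^ p = r ^ (q - p) * N z ^ p := by
      rw [ht, Real.div_rpow hz0.le hr0.le, Real.rpow_sub hr0]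
      field_simp
    have h5 : r ^ (q - p) ≤ 1 + r ^ q := by
      rcases le_total r 1 with h | h
      · have : r ^ (q - p) ≤ 1 := Real.rpow_le_one hr0.le h (by linarith)
        linarith
      · have : r ^ (q - p) ≤ r ^ q := Real.rpow_le_rpow_of_exponent_le h (by linarith)
        linarith
    have h6 : r ^ q * (1 + C * t ^ p) = r ^ q + C * (r ^ (q - p) * N z ^ p) := by
      rw [← h4]; ring
    have h7 : C * (r ^ (q - p) * N z ^ p) ≤ C * ((1 + r ^ q) * N z ^ p) := by
      apply mul_le_mul_of_nonneg_left _ hCpos.le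
      exact mul_le_mul_of_nonneg_right h5 hzp
    have h8 : r ^ q + C * ((1 + r ^ q) * N z ^ p) = (1 + C * N z ^ p) * r ^ q + C * N z ^ p := by
      ring
    linarith

/-- Admissible minorants of `F` with midpoint gain `g`. -/
def Adm {X : Type} [NormedAddCommGroup X] [NormedSpace ℝ X] (F g : X → ℝ) (G : X → ℝ) : Prop :=
  ConvexOn ℝ Set.univ G ∧ (∀ x, G x ≤ F x) ∧ ∀ x y, G x + g y ≤ (G (x + y) + G (x - y)) / 2

/-- The largest admissible minorant. -/
noncomputable def Psi {X : Type} [NormedAddCommGroup X] [NormedSpace ℝ X] (F g : X → ℝ) (x : X) :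
    ℝ :=
  ⨆ G : {G : X → ℝ // Adm F g G}, G.1 x

section
variable {X : Type} [NormedAddCommGroup X] [NormedSpace ℝ X] {F g : X → ℝ}

theorem psi_bdd (x : X) :
    BddAbove (Set.range (fun G : {G : X → ℝ // Adm F g G} => G.1 x)) := by
  refine ⟨F x, ?_⟩
  rintro r ⟨G, rfl⟩
  exact G.2.2.1 x

theorem le_psi {G : X → ℝ} (hG : Adm F g G) (x : X) : G x ≤ Psi F g x :=
  le_ciSup (psi_bdd x) (⟨G, hG⟩ : {G : X → ℝ // Adm F g G})

theorem psi_le {G₀ : X → ℝ} (hG₀ : Adm F g G₀) {x : X} {r : ℝ}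
    (h : ∀ G : X → ℝ, Adm F g G → G x ≤ r) : Psi F g x ≤ r := by
  have : Nonempty {G : X → ℝ // Adm F g G} := ⟨⟨G₀, hG₀⟩⟩
  exact ciSup_le (fun G => h G.1 G.2)

theorem psi_adm {G₀ : X → ℝ} (hG₀ : Adm F g G₀) : Adm F g (Psi F g) := by
  refine ⟨⟨convex_univ, ?_⟩, ?_, ?_⟩
  · intro x _ y _ a b ha hb hab
    apply psi_le hG₀
    intro G hG
    have h1 := hG.1.2 (Set.mem_univ x) (Set.mem_univ y) ha hb hab
    have h2 := le_psi hG x
    have h3 := le_psi hG y
    simp only [smul_eq_mul] at h1 ⊢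
    have h4 := mul_le_mul_of_nonneg_left h2 ha
    have h5 := mul_le_mul_of_nonneg_left h3 hb
    linarith
  · intro x
    exact psi_le hG₀ (fun G hG => hG.2.1 x)
  · intro x y
    have : Psi F g x ≤ (Psi F g (x + y) + Psi F g (x - y)) / 2 - g y := by
      apply psi_le hG₀
      intro G hG
      have h1 := hG.2.2 x y
      have h2 := le_psi hG (x + y)
      have h3 := le_psi hG (x - y)
      linarith
    linarith

theorem adm_scale {q : ℝ} (hF : ∀ (c : ℝ) (x : X), c ≠ 0 → F (c • x) = |c| ^ q * F x)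
    (hg : ∀ (c : ℝ) (x : X), c ≠ 0 → g (c • x) = |c| ^ q * g x) {G : X → ℝ} (hG : Adm F g G)
    {c : ℝ} (hc : c ≠ 0) : Adm F g (fun x => (|c| ^ q)⁻¹ * G (c • x)) := by
  have hcq : 0 < |c| ^ q := Real.rpow_pos_of_pos (abs_pos.2 hc) q
  have hcq' : 0 < (|c| ^ q)⁻¹ := inv_pos.2 hcq
  refine ⟨⟨convex_univ, ?_⟩, ?_, ?_⟩
  · intro x _ y _ a b ha hb hab
    have h1 := hG.1.2 (Set.mem_univ (c • x)) (Set.mem_univ (c • y)) ha hb hab
    have e : c • (a • x + b • y) = a • (c • x) + b • (c • y) := by module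
    simp only [smul_eq_mul] at h1 ⊢
    rw [e]
    have := mul_le_mul_of_nonneg_left h1 hcq'.le
    linarith
  · intro x
    have h1 := mul_le_mul_of_nonneg_left (hG.2.1 (c • x)) hcq'.le
    rw [hF c x hc, ← mul_assoc, inv_mul_cancel₀ hcq.ne', one_mul] at h1
    exact h1
  · intro x y
    have h1 := mul_le_mul_of_nonneg_left (hG.2.2 (c • x) (c • y)) hcq'.le
    rw [hg c y hc, mul_add, ← mul_assoc _ (|c| ^ q), inv_mul_cancel₀ hcq.ne', one_mul] at h1
    simp only [smul_add, smul_sub]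
    linarith

theorem psi_scale {q : ℝ} (hF : ∀ (c : ℝ) (x : X), c ≠ 0 → F (c • x) = |c| ^ q * F x)
    (hg : ∀ (c : ℝ) (x : X), c ≠ 0 → g (c • x) = |c| ^ q * g x) {G₀ : X → ℝ}
    (hG₀ : Adm F g G₀) {c : ℝ} (hc : c ≠ 0) (x : X) :
    Psi F g (c • x) = |c| ^ q * Psi F g x := by
  have hcq : 0 < |c| ^ q := Real.rpow_pos_of_pos (abs_pos.2 hc) q
  apply le_antisymm
  · have h1 := le_psi (adm_scale hF hg (psi_adm hG₀) hc) x
    have h2 := mul_le_mul_of_nonneg_left h1 hcq.le
    rw [← mul_assoc, mul_inv_cancel₀ hcq.ne', one_mul] at h2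
    exact h2
  · have hc' : c⁻¹ ≠ 0 := inv_ne_zero hc
    have h1 := le_psi (adm_scale hF hg (psi_adm hG₀) hc') (c • x)
    rw [smul_smul, inv_mul_cancel₀ hc, one_smul, abs_inv, Real.inv_rpow (abs_nonneg c), inv_inv]
      at h1
    exact h1

end

/-- For a real Banach space and 1<p≤2≤q: if it has an equivalent norm with convexity modulus at least Kε^q and one with smoothness modulus at most Kt^p, then some single equivalent norm has both bounds. -/
theorem result :
    ∀ (X : Type) [NormedAddCommGroup X] [NormedSpace ℝ X] [CompleteSpace X],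
    ∀ p q : ℝ, 1 < p → p ≤ 2 → 2 ≤ q →
    (∃ N : X → ℝ,
        ((∀ x y : X, N (x + y) ≤ N x + N y) ∧
          (∀ (c : ℝ) (x : X), N (c • x) = |c| * N x) ∧
          ∃ a b : ℝ, 0 < a ∧ 0 < b ∧ ∀ x : X, a * ‖x‖ ≤ N x ∧ N x ≤ b * ‖x‖) ∧
        ∃ K : ℝ, 0 < K ∧ ∀ ε : ℝ, 0 < ε → ε ≤ 2 → ∀ x y : X, N x = 1 → N y = 1 →
          ε ≤ N (x - y) → K * ε ^ q ≤ 1 - N ((1 / 2 : ℝ) • (x + y))) →
    (∃ N : X → ℝ,
        ((∀ x y : X, N (x + y) ≤ N x + N y) ∧
          (∀ (c : ℝ) (x : X), N (c • x) = |c| * N x) ∧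
          ∃ a b : ℝ, 0 < a ∧ 0 < b ∧ ∀ x : X, a * ‖x‖ ≤ N x ∧ N x ≤ b * ‖x‖) ∧
        ∃ K : ℝ, 0 < K ∧ ∀ t : ℝ, 0 < t → t ≤ 1 → ∀ x y : X, N x = 1 → N y = 1 →
          (N (x + t • y) + N (x - t • y)) / 2 - 1 ≤ K * t ^ p) →
    ∃ N : X → ℝ,
        ((∀ x y : X, N (x + y) ≤ N x + N y) ∧
          (∀ (c : ℝ) (x : X), N (c • x) = |c| * N x) ∧
          ∃ a b : ℝ, 0 < a ∧ 0 < b ∧ ∀ x : X, a * ‖x‖ ≤ N x ∧ N x ≤ b * ‖x‖) ∧
        (∃ K : ℝ, 0 < K ∧ ∀ ε : ℝ, 0 < ε → ε ≤ 2 → ∀ x y : X, N x = 1 → N y = 1 →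
          ε ≤ N (x - y) → K * ε ^ q ≤ 1 - N ((1 / 2 : ℝ) • (x + y))) ∧
        ∃ K : ℝ, 0 < K ∧ ∀ t : ℝ, 0 < t → t ≤ 1 → ∀ x y : X, N x = 1 → N y = 1 →
          (N (x + t • y) + N (x - t • y)) / 2 - 1 ≤ K * t ^ p := by
  intro X _ _ _ p q hp hp2 hq
  rintro ⟨N₁, ⟨hadd₁, hsmul₁, a₁, b₁, ha₁, hb₁, hab₁⟩, K₁, hK₁, hconv⟩
  rintro ⟨N₂, ⟨hadd₂, hsmul₂, a₂, b₂, ha₂, hb₂, hab₂⟩, K₂, hK₂, hsm⟩
  have hq0 : 0 < q := by linarith
  have hp0 : 0 < p := by linarith
  have h0₁ : ∀ x, 0 ≤ N₁ x := fun x => le_trans (by positivity) (hab₁ x).1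
  have h0₂ : ∀ x, 0 ≤ N₂ x := fun x => le_trans (by positivity) (hab₂ x).1
  obtain ⟨δ, hδ, hgain⟩ := convex_gain N₁ h0₁ hadd₁ hsmul₁ hq hK₁ hconv
  obtain ⟨C, hC, hsmooth⟩ := smooth_step N₂ h0₂ hadd₂ hsmul₂ hp hp2 hq hK₂ hsm
  -- comparison of the two norms
  have h12 : ∀ x, N₁ x ≤ (b₁ / a₂) * N₂ x := by
    intro x
    have h1 := (hab₁ x).2
    have h2 := (hab₂ x).1
    have h3 : b₁ * ‖x‖ = (b₁ / a₂) * (a₂ * ‖x‖) := by field_simp
    rw [h3] at h1
    exact h1.trans (mul_le_mul_of_nonneg_left h2 (by positivity))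
  have h21 : ∀ x, N₂ x ≤ (b₂ / a₁) * N₁ x := by
    intro x
    have h1 := (hab₂ x).2
    have h2 := (hab₁ x).1
    have h3 : b₂ * ‖x‖ = (b₂ / a₁) * (a₁ * ‖x‖) := by field_simp
    rw [h3] at h1
    exact h1.trans (mul_le_mul_of_nonneg_left h2 (by positivity))
  set β : ℝ := ((b₁ / a₂) ^ q)⁻¹ with hβ
  have hβ0 : 0 < β := by positivity
  set γ : ℝ := ((b₂ / a₁) ^ q)⁻¹ with hγ
  have hγ0 : 0 < γ := by positivity
  set c : ℝ := δ * β * γ / 2 with hc
  have hc0 : 0 < c := by positivity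
  set F : X → ℝ := fun x => N₂ x ^ q with hF
  set g : X → ℝ := fun x => c * N₂ x ^ q with hg
  set Φ : X → ℝ := fun x => β * N₁ x ^ q with hΦ
  have hFnn : ∀ x, 0 ≤ F x := fun x => Real.rpow_nonneg (h0₂ x) q
  have hΦnn : ∀ x, 0 ≤ Φ x := fun x => mul_nonneg hβ0.le (Real.rpow_nonneg (h0₁ x) q)
  have hΦF : ∀ x, Φ x ≤ F x := by
    intro x
    have h1 : N₁ x ^ q ≤ (b₁ / a₂) ^ q * N₂ x ^ q := by
      rw [← Real.mul_rpow (by positivity) (h0₂ x)]
      exact Real.rpow_le_rpow (h0₁ x) (h12 x) hq0.le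
    have h2 := mul_le_mul_of_nonneg_left h1 hβ0.le
    rw [← mul_assoc, hβ, inv_mul_cancel₀ (by positivity), one_mul, ← hβ] at h2
    exact h2
  have hFΦ : ∀ x, γ * F x ≤ N₁ x ^ q := by
    intro x
    have h1 : N₂ x ^ q ≤ (b₂ / a₁) ^ q * N₁ x ^ q := by
      rw [← Real.mul_rpow (by positivity) (h0₁ x)]
      exact Real.rpow_le_rpow (h0₂ x) (h21 x) hq0.le
    have h2 := mul_le_mul_of_nonneg_left h1 hγ0.le
    rw [← mul_assoc, hγ, inv_mul_cancel₀ (by positivity), one_mul, ← hγ] at h2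
    exact h2
  -- strong gain of Φ
  have hΦgain : ∀ x y, Φ x + 2 * g y ≤ (Φ (x + y) + Φ (x - y)) / 2 := by
    intro x y
    have h1 := mul_le_mul_of_nonneg_left (hgain x y) hβ0.le
    have h2 := mul_le_mul_of_nonneg_left (hFΦ y) (by positivity : 0 ≤ δ * β)
    simp only [hΦ, hg, hF, hc] at h2 ⊢
    linarith
  have hgnn : ∀ y, 0 ≤ g y := fun y => mul_nonneg hc0.le (hFnn y)
  have hN₁conv : ConvexOn ℝ Set.univ N₁ := by
    refine ⟨convex_univ, ?_⟩
    intro x _ y _ a b ha hb _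
    have := hadd₁ (a • x) (b • y)
    rw [hsmul₁, hsmul₁, abs_of_nonneg ha, abs_of_nonneg hb] at this
    simpa [smul_eq_mul] using this
  have hΦconv : ConvexOn ℝ Set.univ Φ := by
    have h1 : ConvexOn ℝ Set.univ (fun x => N₁ x ^ q) := by
      refine ⟨convex_univ, ?_⟩
      intro x _ y _ a b ha hb hab
      have h2 := hN₁conv.2 (Set.mem_univ x) (Set.mem_univ y) ha hb hab
      have h3 : N₁ (a • x + b • y) ^ q ≤ (a • N₁ x + b • N₁ y) ^ q :=
        Real.rpow_le_rpow (h0₁ _) h2 hq0.le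
      have h4 := (convexOn_rpow (by linarith : 1 ≤ q)).2 (Set.mem_Ici.2 (h0₁ x))
        (Set.mem_Ici.2 (h0₁ y)) ha hb hab
      exact h3.trans h4
    refine ⟨convex_univ, ?_⟩
    intro x _ y _ a b ha hb hab
    have h2 := h1.2 (Set.mem_univ x) (Set.mem_univ y) ha hb hab
    have h3 := mul_le_mul_of_nonneg_left h2 hβ0.le
    simp only [hΦ, smul_eq_mul] at h3 ⊢
    linarith
  have hΦadm : Adm F g Φ := by
    refine ⟨hΦconv, hΦF, ?_⟩
    intro x y
    have := hΦgain x y
    have := hgnn y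
    linarith
  have hFscale : ∀ (c : ℝ) (x : X), c ≠ 0 → F (c • x) = |c| ^ q * F x := by
    intro c x _
    simp only [hF]
    rw [hsmul₂, Real.mul_rpow (abs_nonneg c) (h0₂ x)]
  have hgscale : ∀ (c : ℝ) (x : X), c ≠ 0 → g (c • x) = |c| ^ q * g x := by
    intro d x hd
    have := hFscale d x hd
    simp only [hF] at this
    simp only [hg]
    rw [this]
    ring
  set Ψ : X → ℝ := Psi F g with hΨ
  have hΨadm : Adm F g Ψ := psi_adm hΦadm
  have hΨF : ∀ x, Ψ x ≤ F x := hΨadm.2.1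
  have hΦΨ : ∀ x, Φ x ≤ Ψ x := fun x => le_psi hΦadm x
  have hΨnn : ∀ x, 0 ≤ Ψ x := fun x => (hΦnn x).trans (hΦΨ x)
  have hN20 : N₂ 0 = 0 := by
    have := hsmul₂ 0 0
    simpa using this
  have hΨ0 : Ψ 0 = 0 := by
    apply le_antisymm _ (hΨnn 0)
    have h1 := hΨF 0
    have h2 : F 0 = 0 := by
      simp only [hF]
      rw [hN20, Real.zero_rpow hq0.ne']
    linarith
  have hΨscale : ∀ (d : ℝ) (x : X), Ψ (d • x) = |d| ^ q * Ψ x := by
    intro d x
    rcases eq_or_ne d 0 with h | h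
    · rw [h, zero_smul, hΨ0, abs_zero, Real.zero_rpow hq0.ne', zero_mul]
    · exact psi_scale hFscale hgscale hΦadm h x
  set M : X → ℝ := fun x => Ψ x ^ q⁻¹ with hM
  have hM0 : ∀ x, 0 ≤ M x := fun x => Real.rpow_nonneg (hΨnn x) _
  have hMq : ∀ x, M x ^ q = Ψ x := fun x => Real.rpow_inv_rpow (hΨnn x) hq0.ne'
  have hMle : ∀ (x : X) (r : ℝ), 0 ≤ r → Ψ x ≤ r ^ q → M x ≤ r := by
    intro x r hr h
    rw [← hMq x] at h
    exact (Real.rpow_le_rpow_iff (hM0 x) hr hq0).1 h
  have hleM : ∀ (x : X) (r : ℝ), 0 ≤ r → r ^ q ≤ Ψ x → r ≤ M x := by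
    intro x r hr h
    rw [← hMq x] at h
    exact (Real.rpow_le_rpow_iff hr (hM0 x) hq0).1 h
  have hMsmul : ∀ (d : ℝ) (x : X), M (d • x) = |d| * M x := by
    intro d x
    simp only [hM]
    rw [hΨscale, Real.mul_rpow (Real.rpow_nonneg (abs_nonneg d) q) (hΨnn x),
      Real.rpow_rpow_inv (abs_nonneg d) hq0.ne']
  have hMN₂ : ∀ x, M x ≤ N₂ x := fun x => hMle x _ (h0₂ x) (hΨF x)
  set e : ℝ := β ^ q⁻¹ with he
  have he0 : 0 < e := Real.rpow_pos_of_pos hβ0 _
  have heq : e ^ q = β := Real.rpow_inv_rpow hβ0.le hq0.ne'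
  have hN₁M : ∀ x, e * N₁ x ≤ M x := by
    intro x
    apply hleM x _ (mul_nonneg he0.le (h0₁ x))
    rw [Real.mul_rpow he0.le (h0₁ x), heq]
    exact hΦΨ x
  have hMpos : ∀ x, M x = 0 → x = 0 := by
    intro x hx
    have h1 := hN₁M x
    have h2 := (hab₁ x).1
    rw [hx] at h1
    have h3 : N₁ x ≤ 0 := by
      by_contra h
      push Not at h
      have := mul_pos he0 h
      linarith
    have h4 : ‖x‖ ≤ 0 := by
      by_contra h
      push Not at h
      have := mul_pos ha₁ h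
      linarith
    exact norm_le_zero_iff.1 h4
  have hMadd : ∀ x y : X, M (x + y) ≤ M x + M y := by
    intro x y
    rcases (hM0 x).eq_or_lt with hx | hx
    · have := hMpos x hx.symm
      rw [this, zero_add]
      have := hM0 (0 : X)
      linarith
    rcases (hM0 y).eq_or_lt with hy | hy
    · have := hMpos y hy.symm
      rw [this, add_zero]
      have := hM0 (0 : X)
      linarith
    have hs : 0 < M x + M y := by linarith
    apply hMle _ _ hs.le
    have h1 := hΨadm.1.2 (Set.mem_univ ((M x)⁻¹ • x)) (Set.mem_univ ((M y)⁻¹ • y))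
      (show (0 : ℝ) ≤ M x / (M x + M y) by positivity)
      (show (0 : ℝ) ≤ M y / (M x + M y) by positivity) (by field_simp)
    have e1 : Ψ ((M x)⁻¹ • x) = 1 := by
      rw [hΨscale, ← hMq x, abs_of_pos (inv_pos.2 hx), ← Real.mul_rpow (by positivity) hx.le,
        inv_mul_cancel₀ hx.ne', Real.one_rpow]
    have e2 : Ψ ((M y)⁻¹ • y) = 1 := by
      rw [hΨscale, ← hMq y, abs_of_pos (inv_pos.2 hy), ← Real.mul_rpow (by positivity) hy.le,
        inv_mul_cancel₀ hy.ne', Real.one_rpow]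
    have e3 : (M x / (M x + M y)) • ((M x)⁻¹ • x) + (M y / (M x + M y)) • ((M y)⁻¹ • y)
        = (M x + M y)⁻¹ • (x + y) := by
      rw [smul_smul, smul_smul, smul_add]
      congr 2
      · field_simp
      · field_simp
    rw [e1, e2, e3, hΨscale, abs_of_pos (inv_pos.2 hs)] at h1
    have e4 : (M x / (M x + M y)) • (1 : ℝ) + (M y / (M x + M y)) • (1 : ℝ) = 1 := by
      simp only [smul_eq_mul, mul_one]
      field_simp
    rw [e4, Real.inv_rpow hs.le] at h1
    have hsq : 0 < (M x + M y) ^ q := Real.rpow_pos_of_pos hs q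
    have h2 := mul_le_mul_of_nonneg_left h1 hsq.le
    rw [← mul_assoc, mul_inv_cancel₀ hsq.ne', one_mul, mul_one] at h2
    exact h2
  refine ⟨M, ⟨hMadd, hMsmul, e * a₁, b₂, by positivity, hb₂, ?_⟩, ?_, ?_⟩
  · intro x
    constructor
    · have h1 := mul_le_mul_of_nonneg_left (hab₁ x).1 he0.le
      rw [← mul_assoc] at h1
      exact h1.trans (hN₁M x)
    · exact (hMN₂ x).trans (hab₂ x).2
  · -- uniform convexity
    refine ⟨c / q * (1 / 2) ^ q, by positivity, ?_⟩
    intro ε hε _ x y hx hy hxy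
    have h1 := hΨadm.2.2 ((1 / 2 : ℝ) • (x + y)) ((1 / 2 : ℝ) • (x - y))
    have e1 : (1 / 2 : ℝ) • (x + y) + (1 / 2 : ℝ) • (x - y) = x := by module
    have e2 : (1 / 2 : ℝ) • (x + y) - (1 / 2 : ℝ) • (x - y) = y := by module
    rw [e1, e2, ← hMq x, ← hMq y, hx, hy, Real.one_rpow] at h1
    have h2 : c * ((1 / 2) ^ q * ε ^ q) ≤ g ((1 / 2 : ℝ) • (x - y)) := by
      simp only [hg]
      apply mul_le_mul_of_nonneg_left _ hc0.le
      rw [← Real.mul_rpow (by norm_num) hε.le]
      apply Real.rpow_le_rpow (by positivity) _ hq0.le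
      rw [hsmul₂, abs_of_pos (by norm_num : (0:ℝ) < 1/2)]
      have := hMN₂ (x - y)
      linarith
    have h3 := one_le_rpow_tangent (m := q) (hM0 ((1 / 2 : ℝ) • (x + y))) (by linarith)
    rw [hMq] at h3
    have h4 : c * ((1 / 2) ^ q * ε ^ q) ≤ q * (1 - M ((1 / 2 : ℝ) • (x + y))) := by linarith
    have h5 : c / q * (1 / 2) ^ q * ε ^ q = (c * ((1 / 2) ^ q * ε ^ q)) / q := by ring
    rw [h5, div_le_iff₀ hq0]
    linarith
  · -- uniform smoothness
    set C₀ : ℝ := (b₂ / a₁) * e⁻¹ with hC₀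
    have hC₀0 : 0 < C₀ := by positivity
    have hN₂M : ∀ x, N₂ x ≤ C₀ * M x := by
      intro x
      have h1 := h21 x
      have h2 := hN₁M x
      have h3 : N₁ x ≤ e⁻¹ * M x := by
        have := mul_le_mul_of_nonneg_left h2 (inv_pos.2 he0).le
        rwa [← mul_assoc, inv_mul_cancel₀ he0.ne', one_mul] at this
      have h4 := mul_le_mul_of_nonneg_left h3 (by positivity : 0 ≤ b₂ / a₁)
      rw [← mul_assoc] at h4
      exact h1.trans h4
    set K : ℝ := 5 * C * C₀ ^ p + 2 * C * C₀ ^ p + C₀ ^ p + 1 with hK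
    refine ⟨K, by positivity, ?_⟩
    intro t ht0 ht1 x y hx hy
    set z : X := t • y with hz
    have hMz : M z = t := by rw [hz, hMsmul, hy, abs_of_pos ht0, mul_one]
    have hN₂z : N₂ z ≤ C₀ * t := by
      have := hN₂M z
      rwa [hMz] at this
    have htp : 0 < t ^ p := Real.rpow_pos_of_pos ht0 p
    have hCp : 0 < C₀ ^ p := Real.rpow_pos_of_pos hC₀0 p
    have hN₂zp : N₂ z ^ p ≤ C₀ ^ p * t ^ p := by
      rw [← Real.mul_rpow hC₀0.le ht0.le]
      exact Real.rpow_le_rpow (h0₂ z) hN₂z hp0.le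
    rcases le_or_gt 1 (K * t ^ p) with hbig | hsmall
    · have h1 := hMadd x z
      have h2 : M (x - z) ≤ M x + M z := by
        have := hMadd x ((-1 : ℝ) • z)
        rw [hMsmul] at this
        simpa [← sub_eq_add_neg] using this
      rw [hMz, hx] at h1 h2
      linarith
    · set s : ℝ := C * N₂ z ^ p with hs
      have hs0 : 0 ≤ s := mul_nonneg hC.le (Real.rpow_nonneg (h0₂ z) p)
      have hsle : s ≤ C * (C₀ ^ p * t ^ p) := mul_le_mul_of_nonneg_left hN₂zp hC.le
      have hexp : K * t ^ p = 5 * (C * (C₀ ^ p * t ^ p)) + 2 * (C * (C₀ ^ p * t ^ p))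
          + C₀ ^ p * t ^ p + t ^ p := by
        rw [hK]; ring
      have hpos1 : 0 < C * (C₀ ^ p * t ^ p) := by positivity
      have hpos2 : 0 < C₀ ^ p * t ^ p := by positivity
      have hs2 : s ≤ 1 / 2 := by linarith
      have hN₂z1 : N₂ z ≤ 1 := by
        have h1 : N₂ z ^ p ≤ 1 ^ p := by
          rw [Real.one_rpow]
          linarith
        exact (Real.rpow_le_rpow_iff (h0₂ z) (by norm_num) hp0).1 h1
      have hsm' : ∀ w : X, (F (w + z) + F (w - z)) / 2 ≤ (1 + s) * F w + s := by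
        intro w
        exact hsmooth w z hN₂z1
      -- the competitor
      set G : X → ℝ := fun w =>
        ((1 - s) / (1 + s)) * ((Ψ (w + z) + Ψ (w - z)) / 2 - s) + s * Φ w with hG
      have hs1 : 0 < 1 + s := by linarith
      have hrat : 0 ≤ (1 - s) / (1 + s) := div_nonneg (by linarith) hs1.le
      have hGadm : Adm F g G := by
        refine ⟨⟨convex_univ, ?_⟩, ?_, ?_⟩
        · intro u _ v _ a b ha hb hab
          have c1 := hΨadm.1.2 (Set.mem_univ (u + z)) (Set.mem_univ (v + z)) ha hb hab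
          have c2 := hΨadm.1.2 (Set.mem_univ (u - z)) (Set.mem_univ (v - z)) ha hb hab
          have c3 := hΦconv.2 (Set.mem_univ u) (Set.mem_univ v) ha hb hab
          have e1 : a • (u + z) + b • (v + z) = (a • u + b • v) + z := by
            have : z = (a + b) • z := by rw [hab, one_smul]
            conv_rhs => rw [this]
            module
          have e2 : a • (u - z) + b • (v - z) = (a • u + b • v) - z := by
            have : z = (a + b) • z := by rw [hab, one_smul]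
            conv_rhs => rw [this]
            module
          rw [e1] at c1
          rw [e2] at c2
          simp only [smul_eq_mul] at c1 c2 c3
          simp only [hG, smul_eq_mul]
          have c4 := mul_le_mul_of_nonneg_left c3 hs0
          have c5 : (Ψ (a • u + b • v + z) + Ψ (a • u + b • v - z)) / 2 - s
              ≤ a * ((Ψ (u + z) + Ψ (u - z)) / 2 - s) + b * ((Ψ (v + z) + Ψ (v - z)) / 2 - s) := by
            have : s = a * s + b * s := by rw [← add_mul, hab, one_mul]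
            linarith
          have c6 := mul_le_mul_of_nonneg_left c5 hrat
          linarith
        · intro w
          have c1 : (Ψ (w + z) + Ψ (w - z)) / 2 - s ≤ (1 + s) * F w := by
            have := hsm' w
            have := hΨF (w + z)
            have := hΨF (w - z)
            linarith
          have c2 := mul_le_mul_of_nonneg_left c1 hrat
          have c3 : (1 - s) / (1 + s) * ((1 + s) * F w) = (1 - s) * F w := by
            field_simp
          have c4 := mul_le_mul_of_nonneg_left (hΦF w) hs0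
          simp only [hG]
          linarith
        · intro w y'
          have c1 := hΨadm.2.2 (w + z) y'
          have c2 := hΨadm.2.2 (w - z) y'
          have c3 := hΦgain w y'
          have e1 : w + z + y' = w + y' + z := by abel
          have e2 : w + z - y' = w - y' + z := by abel
          have e3 : w - z + y' = w + y' - z := by abel
          have e4 : w - z - y' = w - y' - z := by abel
          rw [e1, e2] at c1
          rw [e3, e4] at c2
          simp only [hG]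
          have c4 : (Ψ (w + z) + Ψ (w - z)) / 2 - s + g y'
              ≤ (((Ψ (w + y' + z) + Ψ (w + y' - z)) / 2 - s)
                + ((Ψ (w - y' + z) + Ψ (w - y' - z)) / 2 - s)) / 2 := by linarith
          have c5 := mul_le_mul_of_nonneg_left c4 hrat
          have c6 := mul_le_mul_of_nonneg_left c3 hs0
          have c7 : g y' ≤ (1 - s) / (1 + s) * g y' + s * (2 * g y') := by
            have h1 : 1 ≤ (1 - s) / (1 + s) + 2 * s := by
              rw [div_add' _ _ _ hs1.ne', le_div_iff₀ hs1]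
              nlinarith
            have h2 := mul_le_mul_of_nonneg_right h1 (hgnn y')
            linarith
          linarith
      have hGΨ := le_psi hGadm x
      have hGx : (1 - s) / (1 + s) * ((Ψ (x + z) + Ψ (x - z)) / 2 - s) ≤ 1 := by
        have h1 : G x ≤ 1 := by
          have h2 : Ψ x = 1 := by rw [← hMq x, hx, Real.one_rpow]
          rw [← h2]
          exact hGΨ
        have h3 : 0 ≤ s * Φ x := mul_nonneg hs0 (hΦnn x)
        simp only [hG] at h1
        linarith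
      have hbd : (Ψ (x + z) + Ψ (x - z)) / 2 ≤ 1 + 5 * s := by
        have h1 : 0 < 1 - s := by linarith
        have h2 : (Ψ (x + z) + Ψ (x - z)) / 2 - s ≤ (1 + s) / (1 - s) := by
          rw [le_div_iff₀ h1]
          have h3 := mul_le_mul_of_nonneg_left hGx hs1.le
          have h4 : (1 + s) * ((1 - s) / (1 + s) * ((Ψ (x + z) + Ψ (x - z)) / 2 - s))
              = (1 - s) * ((Ψ (x + z) + Ψ (x - z)) / 2 - s) := by
            field_simp
          rw [h4] at h3
          linarith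
        have h3 : (1 + s) / (1 - s) ≤ 1 + 4 * s := by
          rw [div_le_iff₀ h1]
          nlinarith
        linarith
      have hA := one_le_rpow_tangent (m := q) (hM0 (x + z)) (by linarith)
      have hB := one_le_rpow_tangent (m := q) (hM0 (x - z)) (by linarith)
      rw [hMq] at hA hB
      have h1 : q * ((M (x + z) + M (x - z)) / 2 - 1) ≤ 5 * s := by linarith
      have h2 : (M (x + z) + M (x - z)) / 2 - 1 ≤ 5 * s := by
        rcases le_or_gt ((M (x + z) + M (x - z)) / 2 - 1) 0 with h | h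
        · linarith
        · nlinarith
      linarith

end Pool.Agent.S03725
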