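import Pool.Statements.S03734
-- import your own Pool.Agent.* helpers here

set_option autoImplicit false
open MeasureTheory
open Pool Pool.MP_a106cb_an

namespace Pool.Agent.S03734

noncomputable section

open Filter Topology
open scoped Pointwise ENNReal BoundedContinuousFunction

/-- the small root of x^2 - 3x + 1 -/
def al : ℝ := (3 - Real.sqrt 5) / 2

lemma al_sq : al ^ 2 = 3 * al - 1 := by
  have h5 : Real.sqrt 5 ^ 2 = 5 := Real.sq_sqrt (by norm_num)
  unfold al
  nlinarith [h5]

lemma al_pos : 0 < al := by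
  have h5 : Real.sqrt 5 < 3 := by
    rw [Real.sqrt_lt' (by norm_num)]
    norm_num
  unfold al
  linarith

lemma al_lt : al < 2 / 5 := by
  have h5 : 2.2 < Real.sqrt 5 := by
    rw [Real.lt_sqrt (by norm_num)]
    norm_num
  unfold al
  linarith

/-- even-indexed Fibonacci numbers -/
def nn : ℕ → ℤ
  | 0 => 0
  | 1 => 1
  | (k + 2) => 3 * nn (k + 1) - nn k

def mm : ℕ → ℤ
  | 0 => 1
  | 1 => 0
  | (k + 2) => 3 * mm (k + 1) - mm k

lemma al_pow (k : ℕ) : al ^ k = mm k + nn k * al ∧ al ^ (k + 1) = mm (k + 1) + nn (k + 1) * al := by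
  induction k with
  | zero => simp [mm, nn]
  | succ k ih =>
    refine ⟨ih.2, ?_⟩
    have e : al ^ (k + 1 + 1) = 3 * al ^ (k + 1) - al ^ k := by
      have : al ^ (k + 1 + 1) = al ^ k * al ^ 2 := by ring
      rw [this, al_sq]; ring
    rw [e, ih.1, ih.2]
    simp only [mm, nn]
    push_cast
    ring

lemma al_irr : Irrational al := by
  unfold al
  have : Irrational (Real.sqrt 5) := by
    have := Nat.Prime.irrational_sqrt (show Nat.Prime 5 by norm_num)
    simpa using this
  have h2 := this.ratCast_sub 3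
  have h3 := h2.div_ratCast (q := 2) (by norm_num)
  simpa using h3

/-- membership in Z + Z al -/
def InZ (x : ℝ) : Prop := ∃ a b : ℤ, x = a + b * al

lemma InZ.mul {x y : ℝ} (hx : InZ x) (hy : InZ y) : InZ (x * y) := by
  obtain ⟨a, b, rfl⟩ := hx
  obtain ⟨c, d, rfl⟩ := hy
  refine ⟨a * c - b * d, a * d + b * c + 3 * b * d, ?_⟩
  have := al_sq
  push_cast
  linear_combination (b * d : ℝ) * this

/-- Pisot type lemma -/
lemma pisot (θ : ℝ) (m : ℕ → ℤ) (h : Tendsto (fun k => (nn k : ℝ) * θ - m k) atTop (𝓝 0)) :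
    InZ θ := by
  have hal0 : al ≠ 0 := al_pos.ne'
  set δ : ℕ → ℝ := fun k => (nn k : ℝ) * θ - m k with hδ
  have hr : ∀ k, ((m (k + 2) - 3 * m (k + 1) + m k : ℤ) : ℝ) = -(δ (k + 2) - 3 * δ (k + 1) + δ k) := by
    intro k
    simp only [hδ, nn]
    push_cast
    ring
  have h1 : Tendsto (fun k => δ (k + 1)) atTop (𝓝 0) := h.comp (tendsto_add_atTop_nat 1)
  have h2 : Tendsto (fun k => δ (k + 2)) atTop (𝓝 0) := h.comp (tendsto_add_atTop_nat 2)
  have h3 : Tendsto (fun k => -(δ (k + 2) - 3 * δ (k + 1) + δ k)) atTop (𝓝 0) := by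
    have := ((h2.sub (h1.const_mul 3)).add h).neg
    simpa using this
  have h4 : ∀ᶠ k in atTop, m (k + 2) - 3 * m (k + 1) + m k = 0 := by
    have h5 := (Metric.tendsto_atTop.1 h3) 1 (by norm_num)
    obtain ⟨N, hN⟩ := h5
    filter_upwards [eventually_ge_atTop N] with k hk
    have h6 := hN k hk
    rw [← hr k, Real.dist_eq, sub_zero] at h6
    have : |(m (k + 2) - 3 * m (k + 1) + m k)| < 1 := by
      exact_mod_cast h6
    exact Int.abs_lt_one_iff.1 this
  obtain ⟨K, hK⟩ := eventually_atTop.1 h4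
  -- E k = δ (k+1) - al * δ k
  have hE : ∀ k, K ≤ k → (δ (k + 2) - al * δ (k + 1)) * al = δ (k + 1) - al * δ k := by
    intro k hk
    have h7 := hr k
    rw [hK k hk] at h7
    have h8 : δ (k + 2) = 3 * δ (k + 1) - δ k := by
      push_cast at h7
      linarith
    rw [h8]
    have := al_sq
    linear_combination (- δ (k + 1)) * this
  have hE2 : ∀ j, (δ (K + j + 1) - al * δ (K + j)) * al ^ j = δ (K + 1) - al * δ K := by
    intro j
    induction j with
    | zero => simp
    | succ j ih =>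
      rw [← ih, ← hE (K + j) (by omega)]
      have e1 : K + (j + 1) + 1 = K + j + 2 := by ring
      have e2 : K + (j + 1) = K + j + 1 := by ring
      rw [e1, e2]
      ring
  have hE3 : δ (K + 1) - al * δ K = 0 := by
    have t1 : Tendsto (fun j => (δ (K + j + 1) - al * δ (K + j)) * al ^ j) atTop (𝓝 0) := by
      have a1 : Tendsto (fun j => δ (K + j + 1)) atTop (𝓝 0) := by
        have := h.comp (tendsto_add_atTop_nat (K + 1))
        refine this.congr ?_
        intro j
        simp only [Function.comp]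
        congr 1
        ring
      have a2 : Tendsto (fun j => δ (K + j)) atTop (𝓝 0) := by
        have := h.comp (tendsto_add_atTop_nat K)
        refine this.congr ?_
        intro j
        simp only [Function.comp]
        congr 1
        ring
      have a3 : Tendsto (fun j => al ^ j) atTop (𝓝 (0:ℝ)) :=
        tendsto_pow_atTop_nhds_zero_of_lt_one al_pos.le (by linarith [al_lt])
      have := (a1.sub (a2.const_mul al)).mul a3
      simpa using this
    have t2 : Tendsto (fun j : ℕ => (δ (K + j + 1) - al * δ (K + j)) * al ^ j) atTop (𝓝 (δ (K + 1) - al * δ K)) := by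
      refine tendsto_const_nhds.congr ?_
      intro j
      exact (hE2 j).symm
    exact tendsto_nhds_unique t2 t1
  -- n_{k+1} - al n_k times al^k equals one
  have hn : ∀ k : ℕ, ((nn (k + 1) : ℝ) - al * nn k) * al ^ k = 1 := by
    intro k
    induction k with
    | zero => simp [nn]
    | succ k ih =>
      rw [← ih]
      simp only [nn]
      push_cast
      have := al_sq
      have e : (3 * (nn (k + 1) : ℝ) - nn k - al * nn (k + 1)) * al ^ (k + 1)
          = (3 * al * (nn (k + 1) : ℝ) - al * nn k - al ^ 2 * nn (k + 1)) * al ^ k := by ring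
      rw [e, this]
      ring
  have h9 : θ = (m (K + 1) - al * m K) * al ^ K := by
    have e1 : (nn (K + 1) : ℝ) * θ - m (K + 1) - al * (nn K * θ - m K) = 0 := hE3
    have e2 := hn K
    have e3 : ((nn (K + 1) : ℝ) - al * nn K) * θ = m (K + 1) - al * m K := by linarith
    calc θ = (((nn (K + 1) : ℝ) - al * nn K) * al ^ K) * θ := by rw [e2, one_mul]
      _ = (((nn (K + 1) : ℝ) - al * nn K) * θ) * al ^ K := by ring
      _ = _ := by rw [e3]
  rw [h9]
  refine InZ.mul ⟨m (K + 1), - m K, by push_cast; ring⟩ ⟨mm K, nn K, (al_pow K).1⟩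

abbrev KK : Type := ℕ → ZMod 2

/-- Haar probability measure on the compact group -/
def PP : Measure KK := Measure.addHaarMeasure ⊤

instance : IsProbabilityMeasure PP := ⟨by
  have := Measure.addHaarMeasure_self (K₀ := (⊤ : TopologicalSpace.PositiveCompacts KK))
  simpa [PP] using this⟩

instance : PP.IsAddHaarMeasure := by unfold PP; infer_instance

/-- the k-th generator -/
def ee (k : ℕ) : KK := Pi.single k 1

lemma dense_gen (S : AddSubgroup KK) (h : ∀ k, ee k ∈ S) : Dense (S : Set KK) := by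
  intro x
  rw [mem_closure_iff_nhds]
  intro U hU
  rw [nhds_pi, Filter.mem_pi] at hU
  obtain ⟨I, hI, t, ht, hsub⟩ := hU
  refine ⟨∑ k ∈ hI.toFinset, Pi.single k (x k), hsub ?_, ?_⟩
  · intro i hi
    have : (∑ k ∈ hI.toFinset, (Pi.single k (x k) : KK)) i = x i := by
      rw [Finset.sum_apply]
      rw [Finset.sum_eq_single i]
      · simp
      · intro b _ hb
        simp [Pi.single_apply, hb.symm]
      · intro h
        exact absurd (hI.mem_toFinset.2 hi) h
    rw [this]
    exact mem_of_mem_nhds (ht i)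
  · refine AddSubgroup.sum_mem _ ?_
    intro k _
    have hz : ∀ z : ZMod 2, z = 0 ∨ z = 1 := by decide
    rcases hz (x k) with h0 | h0
    · rw [h0]; simp [AddSubgroup.zero_mem]
    · rw [h0]; exact h k

lemma ergK {u : KK → ℂ} (hu : Measurable u) (h : ∀ k, ∀ᵐ x ∂PP, u (ee k + x) = u x) :
    ∃ c, ∀ᵐ x ∂PP, u x = c := by
  have := exists_eventuallyEq_const_of_forall_separating (l := ae PP) (f := u) MeasurableSet ?_
  · obtain ⟨c, hc⟩ := this
    exact ⟨c, hc⟩
  · intro U hU
    have hd : Dense (AddAction.aestabilizer KK PP (u ⁻¹' U) : Set KK) := by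
      apply dense_gen
      intro k
      rw [← AddSubgroup.neg_mem_iff]
      rw [AddAction.mem_aestabilizer]
      have : -ee k +ᵥ (u ⁻¹' U) = (fun x => ee k + x) ⁻¹' (u ⁻¹' U) := by
        ext x
        rw [Set.mem_vadd_set_iff_neg_vadd_mem, neg_neg]
        rfl
      rw [this]
      refine Filter.Eventually.set_eq ?_
      filter_upwards [h k] with x hx
      simp only [Set.mem_preimage, hx]
    have h1 := aeconst_of_dense_aestabilizer_vadd (hu hU).nullMeasurableSet hd
    rw [Filter.eventuallyConst_set] at h1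
    rcases h1 with h1 | h1
    · left; exact h1
    · right; exact h1

/-- zero-one digit as real -/
def bt (z : ZMod 2) : ℝ := if z = 0 then 0 else 1
/-- sign of the flip -/
def sg (z : ZMod 2) : ℤ := if z = 0 then 1 else -1

lemma bt_add_one (z : ZMod 2) : bt (1 + z) = bt z + sg z := by
  have hz : ∀ z : ZMod 2, z = 0 ∨ z = 1 := by decide
  have h11 : (1 : ZMod 2) + 1 = 0 := by decide
  rcases hz z with h | h <;> subst h <;> simp [bt, sg, h11]

lemma bt_nonneg (z : ZMod 2) : 0 ≤ bt z := by unfold bt; split_ifs <;> norm_num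
lemma bt_le (z : ZMod 2) : bt z ≤ 1 := by unfold bt; split_ifs <;> norm_num

lemma summ_al : Summable (fun k : ℕ => al ^ (k + 1)) := by
  have := summable_geometric_of_lt_one al_pos.le (by linarith [al_lt] : al < 1)
  exact (summable_nat_add_iff 1).2 this

lemma summ_bt (ε : KK) : Summable (fun k : ℕ => bt (ε k) * al ^ (k + 1)) := by
  refine Summable.of_nonneg_of_le ?_ ?_ summ_al
  · intro k; exact mul_nonneg (bt_nonneg _) (pow_nonneg al_pos.le _)
  · intro k
    have := bt_le (ε k)
    have := pow_nonneg al_pos.le (k + 1)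
    nlinarith

/-- the coding map -/
def Phi (ε : KK) : ℝ := ∑' k, bt (ε k) * al ^ (k + 1)

lemma Phi_cont : Continuous Phi := by
  unfold Phi
  refine continuous_tsum (u := fun k => al ^ (k + 1)) ?_ summ_al ?_
  · intro k
    have : Continuous (fun z : ZMod 2 => bt z) := continuous_of_discreteTopology
    exact (this.comp (continuous_apply k)).mul continuous_const
  · intro k ε
    rw [Real.norm_eq_abs, abs_of_nonneg (mul_nonneg (bt_nonneg _) (pow_nonneg al_pos.le _))]
    have := bt_le (ε k)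
    have := pow_nonneg al_pos.le (k + 1)
    nlinarith

lemma Phi_flip (k : ℕ) (ε : KK) : Phi (ee k + ε) = Phi ε + sg (ε k) * al ^ (k + 1) := by
  unfold Phi
  have h1 : (fun j => bt ((ee k + ε) j) * al ^ (j + 1)) =
      fun j => bt (ε j) * al ^ (j + 1) + (if j = k then (sg (ε k) : ℝ) * al ^ (k + 1) else 0) := by
    funext j
    by_cases hj : j = k
    · subst hj
      simp only [ee, Pi.add_apply, Pi.single_eq_same, if_true, bt_add_one]
      ring
    · simp [ee, hj]
  rw [h1, Summable.tsum_add (summ_bt ε)]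
  · rw [tsum_ite_eq]
  · exact (hasSum_ite_eq k _).summable

/-- the rotation angle -/
def aa : UnitAddCircle := ((al : ℝ) : UnitAddCircle)

def psi (j : ℤ) (ε : KK) : UnitAddCircle := ((Phi ε : ℝ) : UnitAddCircle) + j • aa

lemma psi_cont (j : ℤ) : Continuous (psi j) := by
  unfold psi
  exact ((AddCircle.continuous_mk' 1).comp Phi_cont).add continuous_const

lemma psi_meas (j : ℤ) : Measurable (psi j) := (psi_cont j).measurable

lemma aa_pow (k : ℕ) : (((al ^ k : ℝ)) : UnitAddCircle) = nn k • aa := by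
  rw [(al_pow k).1, AddCircle.coe_add]
  have h1 : (((mm k : ℤ) : ℝ) : UnitAddCircle) = 0 := by
    rw [AddCircle.coe_eq_zero_iff]
    exact ⟨mm k, by simp⟩
  rw [h1, zero_add]
  unfold aa
  rw [← AddCircle.coe_zsmul]
  simp

lemma psi_flip (j : ℤ) (k : ℕ) (ε : KK) :
    psi j (ee k + ε) = psi (j + sg (ε k) * nn (k + 1)) ε := by
  unfold psi
  rw [Phi_flip, AddCircle.coe_add, add_zsmul, mul_zsmul, ← aa_pow, add_assoc, add_comm (j • aa)]
  congr 2
  rw [← AddCircle.coe_zsmul]
  simp

/-- the infinite invariant measure -/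
def MM : Measure UnitAddCircle := Measure.sum (fun j : ℤ => Measure.map (psi j) PP)

instance (j : ℤ) : IsProbabilityMeasure (Measure.map (psi j) PP) :=
  Measure.isProbabilityMeasure_map (psi_meas j).aemeasurable

instance : SFinite MM := by unfold MM; infer_instance

instance : NeZero MM := ⟨by
  intro h
  have h1 : MM Set.univ = 0 := by rw [h]; simp
  unfold MM at h1
  rw [Measure.sum_apply_eq_zero] at h1
  have := h1 0
  simp at this⟩

lemma ae_MM_of {p : UnitAddCircle → Prop} (h : ∀ᵐ x ∂MM, p x) :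
    ∀ᵐ ε ∂PP, ∀ j : ℤ, p (psi j ε) := by
  rw [ae_all_iff]
  intro j
  unfold MM at h
  rw [Measure.ae_sum_iff] at h
  exact ae_of_ae_map (psi_meas j).aemeasurable (h j)

lemma ae_MM_iff {p : UnitAddCircle → Prop} (hp : MeasurableSet {x | p x}) :
    (∀ᵐ x ∂MM, p x) ↔ ∀ᵐ ε ∂PP, ∀ j : ℤ, p (psi j ε) := by
  refine ⟨ae_MM_of, fun h => ?_⟩
  unfold MM
  rw [Measure.ae_sum_iff]
  intro j
  rw [ae_map_iff (psi_meas j).aemeasurable hp]
  filter_upwards [h] with x hx using hx j

def TT (x : UnitAddCircle) : UnitAddCircle := x + aa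

lemma TT_meas : Measurable TT := measurable_id.add_const aa

lemma TT_bij : Function.Bijective TT := (Equiv.addRight aa).bijective

lemma TT_psi (j : ℤ) : TT ∘ psi j = psi (j + 1) := by
  funext ε
  simp only [TT, psi, Function.comp, add_zsmul, one_zsmul]
  abel

lemma TT_MM : Measure.map TT MM = MM := by
  unfold MM
  rw [Measure.map_sum TT_meas.aemeasurable]
  have : (fun i : ℤ => Measure.map TT (Measure.map (psi i) PP)) =
      (fun j : ℤ => Measure.map (psi j) PP) ∘ (Equiv.addRight (1 : ℤ)) := by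
    funext i
    rw [Measure.map_map TT_meas (psi_meas i), TT_psi]
    rfl
  rw [this]
  exact Measure.sum_comp_equiv _ _

/-- a probability measure equivalent to MM -/
def mu : Measure UnitAddCircle := MM.toFinite

instance : IsProbabilityMeasure mu := by unfold mu; infer_instance

lemma ae_mu : ae mu = ae MM := ae_toFinite

lemma mu_ac : mu ≪ MM := toFinite_absolutelyContinuous _
lemma ac_mu : MM ≪ mu := absolutelyContinuous_toFinite _

lemma ns1 : Measure.map TT mu ≪ mu := by
  have h1 : Measure.map TT mu ≪ Measure.map TT MM := mu_ac.map TT_meas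
  rw [TT_MM] at h1
  exact h1.trans ac_mu

lemma ns2 : mu ≪ Measure.map TT mu := by
  have h1 : Measure.map TT MM ≪ Measure.map TT mu := ac_mu.map TT_meas
  rw [TT_MM] at h1
  exact mu_ac.trans h1

/-- eigenvalues -/
lemma lam_eq (lam : ℂ) (hlam : ‖lam‖ = 1)
    (h : Tendsto (fun k => lam ^ (nn k)) atTop (𝓝 1)) :
    ∃ p : ℤ, lam = fourier p aa := by
  set l : Circle := ⟨lam, mem_sphere_zero_iff_norm.2 hlam⟩ with hl
  have h1 : (1 : ℝ) ≠ 0 := one_ne_zero
  set t : UnitAddCircle := (AddCircle.homeomorphCircle h1).symm l with ht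
  have htl : AddCircle.toCircle t = l := by
    rw [← AddCircle.homeomorphCircle_apply h1, ht, Homeomorph.apply_symm_apply]
  have h2 : Tendsto (fun k => l ^ (nn k)) atTop (𝓝 1) := by
    rw [tendsto_iff_dist_tendsto_zero] at h ⊢
    refine h.congr (fun k => ?_)
    rfl
  have h3 : Tendsto (fun k => (nn k) • t) atTop (𝓝 0) := by
    have h4 : ∀ k, (AddCircle.homeomorphCircle h1).symm (l ^ (nn k)) = (nn k) • t := by
      intro k
      rw [Homeomorph.symm_apply_eq, AddCircle.homeomorphCircle_apply, AddCircle.toCircle_zsmul, htl]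
    have h5 := ((AddCircle.homeomorphCircle h1).symm.continuous.tendsto 1).comp h2
    have h6 : (AddCircle.homeomorphCircle h1).symm 1 = 0 := by
      rw [Homeomorph.symm_apply_eq, AddCircle.homeomorphCircle_apply, AddCircle.toCircle_zero]
    rw [h6] at h5
    exact h5.congr h4
  obtain ⟨θ, hθ⟩ := QuotientAddGroup.mk_surjective t
  have hθ' : ((θ : ℝ) : UnitAddCircle) = t := hθ
  have h7 : Tendsto (fun k => (nn k : ℝ) * θ - round ((nn k : ℝ) * θ)) atTop (𝓝 0) := by
    have h8 := h3.norm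
    rw [norm_zero] at h8
    rw [tendsto_zero_iff_abs_tendsto_zero]
    refine h8.congr ?_
    intro k
    rw [← hθ', ← AddCircle.coe_zsmul, zsmul_eq_mul, UnitAddCircle.norm_eq]
    rfl
  obtain ⟨a, b, hab⟩ := pisot θ _ h7
  refine ⟨b, ?_⟩
  rw [fourier_apply]
  have h9 : t = b • aa := by
    rw [← hθ', hab, AddCircle.coe_add]
    have h1 : (((a : ℤ) : ℝ) : UnitAddCircle) = 0 := by
      rw [AddCircle.coe_eq_zero_iff]
      exact ⟨a, by simp⟩
    rw [h1, zero_add]
    unfold aa
    rw [← AddCircle.coe_zsmul]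
    simp
  rw [← h9, htl]

lemma ee_tendsto : Tendsto ee atTop (𝓝 0) := by
  rw [tendsto_pi_nhds]
  intro i
  refine tendsto_const_nhds.congr' ?_
  filter_upwards [eventually_gt_atTop i] with k hk
  simp [ee, hk.ne]

lemma sg_cases (z : ZMod 2) : sg z = 1 ∨ sg z = -1 := by
  unfold sg; split_ifs <;> simp

/-- continuity of translations in mean square forces the eigenvalue condition -/
lemma lam_tendsto (u : KK → ℂ) (hu : Measurable u) (lam : ℂ) (hlam : ‖lam‖ = 1)
    (r : ℝ) (hr : 0 < r) (hur : ∀ᵐ ε ∂PP, ‖u ε‖ = r)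
    (h : ∀ k, ∀ᵐ ε ∂PP, u (ee k + ε) = lam ^ (sg (ε k) * nn (k + 1)) * u ε) :
    Tendsto (fun k => lam ^ (nn k)) atTop (𝓝 1) := by
  have hlam0 : lam ≠ 0 := by
    intro h0; rw [h0] at hlam; simp at hlam
  have hmem : MemLp u 2 PP := by
    refine MemLp.of_bound hu.aestronglyMeasurable r ?_
    filter_upwards [hur] with ε hε using hε.le
  haveI : Fact ((2 : ℝ≥0∞) ≠ ∞) := ⟨by norm_num⟩
  haveI : ContinuousVAdd KKᵈᵃᵃ (Lp ℂ 2 PP) :=
    Lp.instContinuousVAddDomAddAct (X := KK) (M := KK) (E := ℂ) (μ := PP) (p := 2)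
  set f : Lp ℂ 2 PP := hmem.toLp u with hf
  have hcont : Continuous (fun x : KK => DomAddAct.mk x +ᵥ f) := by
    have h1 : Continuous (fun x : KK => DomAddAct.mk x) := DomAddAct.mkHomeomorph.continuous
    exact h1.vadd continuous_const
  have h1 : Tendsto (fun k => DomAddAct.mk (ee k) +ᵥ f) atTop (𝓝 f) := by
    have h2 := (hcont.tendsto 0).comp ee_tendsto
    have h3 : DomAddAct.mk (0 : KK) +ᵥ f = f := by
      rw [DomAddAct.mk_zero, zero_vadd]
    rw [h3] at h2
    exact h2
  have h2 : ∀ k, ‖(DomAddAct.mk (ee k) +ᵥ f) - f‖ = ‖lam ^ nn (k + 1) - 1‖ * r := by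
    intro k
    have hae : ∀ᵐ ε ∂PP, ‖((DomAddAct.mk (ee k) +ᵥ f) - f : Lp ℂ 2 PP) ε‖ = ‖(((‖lam ^ nn (k + 1) - 1‖ * r : ℝ)) : ℝ)‖ := by
      have e1 := Lp.coeFn_sub (DomAddAct.mk (ee k) +ᵥ f) f
      have e2 : (DomAddAct.mk (ee k) +ᵥ f : Lp ℂ 2 PP) =ᵐ[PP] (fun x => f (ee k +ᵥ x)) :=
        DomAddAct.vadd_Lp_ae_eq (DomAddAct.mk (ee k)) f
      have e3 : f =ᵐ[PP] u := hmem.coeFn_toLp
      have e4 : (fun x => f (ee k +ᵥ x)) =ᵐ[PP] (fun x => u (ee k +ᵥ x)) :=
        (measurePreserving_vadd (ee k) PP).quasiMeasurePreserving.ae_eq_comp e3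
      filter_upwards [e1, e2, e3, e4, h k, hur] with ε a1 a2 a3 a4 a5 a6
      rw [a1, Pi.sub_apply, a2, a4, a3, vadd_eq_add, a5]
      have : lam ^ (sg (ε k) * nn (k + 1)) * u ε - u ε = (lam ^ (sg (ε k) * nn (k + 1)) - 1) * u ε := by ring
      rw [this, norm_mul, a6, norm_mul, norm_norm, Real.norm_eq_abs, abs_of_pos hr]
      congr 1
      rcases sg_cases (ε k) with hs | hs
      · rw [hs, one_mul]
      · rw [hs, neg_one_mul, zpow_neg]
        have e5 : lam ^ nn (k + 1) ≠ 0 := zpow_ne_zero _ hlam0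
        have e6 : (lam ^ nn (k + 1))⁻¹ - 1 = -((lam ^ nn (k + 1))⁻¹ * (lam ^ nn (k + 1) - 1)) := by
          field_simp
          ring
        rw [e6, norm_neg, norm_mul, norm_inv, norm_zpow, hlam, one_zpow, inv_one, one_mul]
    rw [Lp.norm_def, eLpNorm_congr_norm_ae hae, eLpNorm_const' _ (by norm_num) (by norm_num)]
    simp [abs_of_pos hr]
  have h3 : Tendsto (fun k => ‖(DomAddAct.mk (ee k) +ᵥ f) - f‖) atTop (𝓝 0) := by
    have := (h1.sub (tendsto_const_nhds (x := f))).norm
    simpa using this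
  have h4 : Tendsto (fun k => ‖lam ^ nn (k + 1) - 1‖ * r) atTop (𝓝 0) := h3.congr h2
  have h5 : Tendsto (fun k => ‖lam ^ nn (k + 1) - 1‖) atTop (𝓝 0) := by
    have := h4.mul_const (r⁻¹)
    rw [zero_mul] at this
    refine this.congr (fun k => ?_)
    field_simp
  have h6 : Tendsto (fun k => lam ^ nn (k + 1)) atTop (𝓝 1) := by
    rw [tendsto_iff_norm_sub_tendsto_zero]
    exact h5
  exact (tendsto_add_atTop_iff_nat (f := fun k => lam ^ nn k) 1).1 h6

lemma fourier_zsmul (p n : ℤ) (x : UnitAddCircle) : fourier p (n • x) = (fourier p x : ℂ) ^ n := by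
  rw [fourier_apply, fourier_apply, smul_comm, AddCircle.toCircle_zsmul]
  simp

lemma fourier_add_arg (p : ℤ) (x y : UnitAddCircle) :
    fourier p (x + y) = (fourier p x : ℂ) * fourier p y := by
  rw [fourier_apply, fourier_apply, fourier_apply, smul_add, AddCircle.toCircle_add]
  simp

lemma fourier_ne_zero (p : ℤ) (x : UnitAddCircle) : (fourier p x : ℂ) ≠ 0 := by
  rw [fourier_apply]
  exact Circle.coe_ne_zero _

lemma norm_fourier (p : ℤ) (x : UnitAddCircle) : ‖(fourier p x : ℂ)‖ = 1 := by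
  rw [fourier_apply]
  exact Circle.norm_coe _

/-- eigenfunctions of the rotation for the measure MM -/
lemma eigen (G : UnitAddCircle → ℂ) (hG : Measurable G) (lam : ℂ) (hlam : ‖lam‖ = 1)
    (h : ∀ᵐ x ∂MM, G (TT x) = lam * G x) (hnc : ¬ ∃ c, ∀ᵐ x ∂MM, G x = c) :
    ∃ p : ℤ, p ≠ 0 ∧ lam = fourier p aa ∧ ∃ C : ℂ, C ≠ 0 ∧ ∀ᵐ x ∂MM, G x = C * fourier p x := by
  have hlam0 : lam ≠ 0 := by
    intro h0; rw [h0] at hlam; simp at hlam
  have H1 : ∀ᵐ ε ∂PP, ∀ j : ℤ, G (psi (j + 1) ε) = lam * G (psi j ε) := by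
    filter_upwards [ae_MM_of h] with ε hε j
    have := hε j
    rw [← TT_psi j]
    exact this
  have H2 : ∀ᵐ ε ∂PP, ∀ j : ℤ, G (psi j ε) = lam ^ j * G (psi 0 ε) := by
    filter_upwards [H1] with ε hε j
    induction j using Int.induction_on with
    | zero => simp
    | succ i ih =>
      rw [hε i, ih, zpow_add_one₀ hlam0]; ring
    | pred i ih =>
      have := hε (-(i : ℤ) - 1)
      rw [sub_add_cancel, ih] at this
      rw [zpow_sub_one₀ hlam0]
      field_simp
      rw [this]; ring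
  set u : KK → ℂ := fun ε => G (psi 0 ε) with hu
  have hum : Measurable u := hG.comp (psi_meas 0)
  have H3 : ∀ k, ∀ᵐ ε ∂PP, u (ee k + ε) = lam ^ (sg (ε k) * nn (k + 1)) * u ε := by
    intro k
    filter_upwards [H2] with ε hε
    simp only [hu]
    rw [psi_flip, zero_add]
    exact hε _
  -- the modulus is constant
  obtain ⟨c, hc⟩ := ergK (u := fun ε => ((‖u ε‖ : ℝ) : ℂ)) (Complex.measurable_ofReal.comp hum.norm) (by
    intro k
    filter_upwards [H3 k] with ε hε
    rw [hε, norm_mul, norm_zpow, hlam, one_zpow, one_mul])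
  have hr : ∀ᵐ ε ∂PP, ‖u ε‖ = ‖c‖ := by
    filter_upwards [hc] with ε hε
    rw [← hε]; simp
  have hc0 : 0 < ‖c‖ := by
    rcases eq_or_lt_of_le (norm_nonneg c) with h0 | h0
    · exfalso
      apply hnc
      refine ⟨0, ?_⟩
      rw [ae_MM_iff (measurableSet_eq_fun hG measurable_const)]
      filter_upwards [H2, hr] with ε h1 h2 j
      rw [h1 j]
      rw [← h0] at h2
      have : u ε = 0 := norm_eq_zero.1 h2
      simp only [hu] at this
      rw [this, mul_zero]
    · exact h0
  have h1 := lam_tendsto u hum lam hlam ‖c‖ hc0 hr H3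
  obtain ⟨p, hp⟩ := lam_eq lam hlam h1
  -- invariance after division
  obtain ⟨C, hC⟩ := ergK (u := fun ε => u ε * (fourier p (psi 0 ε))⁻¹)
    (hum.mul (((fourier p).continuous.measurable.comp (psi_meas 0)).inv)) (by
      intro k
      filter_upwards [H3 k] with ε hε
      rw [hε, psi_flip, zero_add]
      have e1 : psi (sg (ε k) * nn (k + 1)) ε = psi 0 ε + (sg (ε k) * nn (k + 1)) • aa := by
        simp [psi]
      rw [e1, fourier_add_arg, fourier_zsmul, ← hp]
      have e2 := fourier_ne_zero p (psi 0 ε)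
      have e3 : lam ^ (sg (ε k) * nn (k + 1)) ≠ 0 := zpow_ne_zero _ hlam0
      field_simp)
  have hCC : ∀ᵐ x ∂MM, G x = C * fourier p x := by
    have hms : MeasurableSet {x | G x = C * fourier p x} :=
      measurableSet_eq_fun hG (measurable_const.mul (fourier p).continuous.measurable)
    rw [ae_MM_iff hms]
    filter_upwards [H2, hC] with ε h1 h2 j
    rw [h1 j]
    have e1 : psi j ε = psi 0 ε + j • aa := by simp [psi]
    rw [e1, fourier_add_arg, fourier_zsmul, ← hp]
    have e2 := fourier_ne_zero p (psi 0 ε)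
    simp only [hu] at h2
    rw [← h2]
    field_simp
  refine ⟨p, ?_, hp, C, ?_, hCC⟩
  · rintro rfl
    apply hnc
    refine ⟨C, ?_⟩
    filter_upwards [hCC] with x hx
    rw [hx]; simp
  · rintro rfl
    apply hnc
    refine ⟨0, ?_⟩
    filter_upwards [hCC] with x hx
    rw [hx]; simp

/-- a finite measure on the circle invariant under an irrational rotation is Haar -/
lemma inv_haar (ρ : Measure UnitAddCircle) [IsFiniteMeasure ρ] (β : UnitAddCircle)
    (hβ : Measure.map (fun x => x + β) ρ = ρ)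
    (hd : DenseRange (fun n : ℤ => n • β)) : ρ ≪ volume := by
  have hn : ∀ n : ℤ, Measure.map (fun x => x + n • β) ρ = ρ := by
    intro n
    induction n using Int.induction_on with
    | zero => simp
    | succ i ih =>
      have e : (fun x : UnitAddCircle => x + ((i : ℤ) + 1) • β) =
          (fun x => x + β) ∘ (fun x => x + (i : ℤ) • β) := by
        funext x; simp only [Function.comp, add_zsmul, one_zsmul, add_assoc]
      rw [e, ← Measure.map_map (measurable_add_const _) (measurable_add_const _), ih, hβ]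
    | pred i ih =>
      have e : (fun x : UnitAddCircle => x + (-(i : ℤ)) • β) =
          (fun x => x + β) ∘ (fun x => x + (-(i : ℤ) - 1) • β) := by
        funext x; simp only [Function.comp, sub_zsmul, one_zsmul, add_assoc]; abel_nf
      have h1 : Measure.map (fun x => x + β) (Measure.map (fun x => x + (-(i : ℤ) - 1) • β) ρ) = ρ := by
        rw [Measure.map_map (measurable_add_const _) (measurable_add_const _), ← e, ih]
      have h2 : Measure.map (fun x => x + (-β)) (Measure.map (fun x => x + β) (Measure.map (fun x => x + (-(i : ℤ) - 1) • β) ρ)) = Measure.map (fun x => x + (-β)) (Measure.map (fun x => x + β) ρ) := by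
        rw [h1, hβ]
      rw [Measure.map_map (measurable_add_const _) (measurable_add_const _),
        Measure.map_map (measurable_add_const _) (measurable_add_const _)] at h2
      have e3 : (fun x : UnitAddCircle => x + (-β)) ∘ (fun x => x + β) = id := by
        funext x; simp
      rw [e3, Measure.map_id, Measure.map_id] at h2
      exact h2
  have hinv : ∀ g : UnitAddCircle, Measure.map (fun x => g + x) ρ = ρ := by
    intro g
    have : IsFiniteMeasure (Measure.map (fun x => g + x) ρ) := by infer_instance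
    apply ext_of_forall_integral_eq_of_IsFiniteMeasure
    intro f
    have hF : Continuous (fun g : UnitAddCircle => ∫ x, f (g + x) ∂ρ) := by
      refine continuous_of_dominated (bound := fun _ => ‖f‖) ?_ ?_ ?_ ?_
      · intro x
        exact (f.continuous.comp (continuous_const.add continuous_id)).aestronglyMeasurable
      · intro x
        exact Filter.Eventually.of_forall (fun y => f.norm_coe_le_norm _)
      · exact integrable_const _
      · exact Filter.Eventually.of_forall (fun y => f.continuous.comp (continuous_id.add continuous_const))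
    have h1 : (fun g : UnitAddCircle => ∫ x, f (g + x) ∂ρ) = fun _ => ∫ x, f x ∂ρ := by
      refine DenseRange.equalizer hd hF continuous_const ?_
      funext n
      simp only [Function.comp]
      conv_rhs => rw [← hn n]
      rw [integral_map (measurable_add_const _).aemeasurable f.continuous.aestronglyMeasurable]
      simp only [add_comm]
    rw [integral_map (measurable_const_add _).aemeasurable f.continuous.aestronglyMeasurable]
    exact congrFun h1 g
  have : ρ.IsAddLeftInvariant := ⟨hinv⟩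
  rw [Measure.isAddInvariant_eq_smul_of_compactSpace ρ volume]
  exact Measure.smul_absolutelyContinuous

lemma dense_mul (p : ℤ) (hp : p ≠ 0) : DenseRange (fun n : ℤ => n • (p • aa)) := by
  have e : p • aa = ((p * al : ℝ) : UnitAddCircle) := by
    unfold aa
    rw [← AddCircle.coe_zsmul]; simp
  rw [e, AddCircle.denseRange_zsmul_coe_iff]
  have := al_irr.intCast_mul hp
  simpa using this

lemma tail_bound (ε : KK) (N : ℕ) :
    |Phi ε - ∑ k ∈ Finset.range N, bt (ε k) * al ^ (k + 1)| ≤ 2 * al ^ N := by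
  have h1 := (summ_bt ε).sum_add_tsum_nat_add N
  have h2 : Phi ε - ∑ k ∈ Finset.range N, bt (ε k) * al ^ (k + 1) = ∑' k, bt (ε (k + N)) * al ^ (k + N + 1) := by
    unfold Phi
    rw [← h1]; ring
  rw [h2]
  have h3 : 0 ≤ ∑' k, bt (ε (k + N)) * al ^ (k + N + 1) :=
    tsum_nonneg (fun k => mul_nonneg (bt_nonneg _) (pow_nonneg al_pos.le _))
  rw [abs_of_nonneg h3]
  have hg := hasSum_geometric_of_lt_one al_pos.le (by linarith [al_lt] : al < 1)
  have hg2 : HasSum (fun k : ℕ => al ^ (k + N + 1)) ((1 - al)⁻¹ * al ^ (N + 1)) := by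
    have := hg.mul_right (al ^ (N + 1))
    refine this.congr_fun ?_ |> fun h => h
    intro k; ring
  have h4 : ∑' k, bt (ε (k + N)) * al ^ (k + N + 1) ≤ ∑' k : ℕ, al ^ (k + N + 1) := by
    refine Summable.tsum_le_tsum ?_ ?_ hg2.summable
    · intro k
      have := bt_le (ε (k + N))
      have := pow_nonneg al_pos.le (k + N + 1)
      nlinarith
    · exact (summable_nat_add_iff N).2 (summ_bt ε)
  refine h4.trans ?_
  rw [hg2.tsum_eq, pow_succ]
  have h5 : (0:ℝ) < 1 - al := by linarith [al_lt]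
  have h6 : (1 - al)⁻¹ * al ≤ 2 := by
    rw [inv_mul_le_iff₀ h5]
    linarith [al_lt]
  have h7 := pow_nonneg al_pos.le N
  calc (1 - al)⁻¹ * (al ^ N * al) = ((1 - al)⁻¹ * al) * al ^ N := by ring
    _ ≤ 2 * al ^ N := by gcongr

/-- the Cantor type set -/
def CC (p : ℤ) : Set UnitAddCircle := Set.range (fun ε : KK => p • ((Phi ε : ℝ) : UnitAddCircle))

lemma CC_compact (p : ℤ) : IsCompact (CC p) := by
  apply isCompact_range
  exact ((AddCircle.continuous_mk' 1).comp Phi_cont).const_smul p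

lemma CC_null (p : ℤ) : volume (CC p) = 0 := by
  have key : ∀ N : ℕ, volume (CC p) ≤ ENNReal.ofReal (4 * |(p : ℝ)| * (2 * al) ^ N) := by
    intro N
    set c : (Fin N → ZMod 2) → UnitAddCircle := fun w =>
      p • ((∑ k : Fin N, bt (w k) * al ^ ((k : ℕ) + 1) : ℝ) : UnitAddCircle) with hc
    have hsub : CC p ⊆ ⋃ w : Fin N → ZMod 2, Metric.closedBall (c w) (|(p : ℝ)| * (2 * al ^ N)) := by
      rintro _ ⟨ε, rfl⟩
      rw [Set.mem_iUnion]
      refine ⟨fun k => ε k, ?_⟩
      rw [mem_closedBall_iff_norm]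
      simp only [hc]
      rw [← smul_sub, ← AddCircle.coe_sub, ← AddCircle.coe_zsmul, UnitAddCircle.norm_eq]
      refine (round_le _ 0).trans ?_
      rw [Int.cast_zero, sub_zero, zsmul_eq_mul, abs_mul]
      have := tail_bound ε N
      rw [Finset.sum_range] at this
      gcongr
    calc volume (CC p) ≤ volume (⋃ w : Fin N → ZMod 2, Metric.closedBall (c w) (|(p : ℝ)| * (2 * al ^ N))) :=
          measure_mono hsub
      _ ≤ ∑ w : Fin N → ZMod 2, volume (Metric.closedBall (c w) (|(p : ℝ)| * (2 * al ^ N))) :=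
          measure_iUnion_fintype_le _ _
      _ ≤ ∑ w : Fin N → ZMod 2, ENNReal.ofReal (2 * (|(p : ℝ)| * (2 * al ^ N))) := by
          apply Finset.sum_le_sum
          intro w _
          rw [AddCircle.volume_closedBall]
          exact ENNReal.ofReal_le_ofReal (min_le_right _ _)
      _ = ENNReal.ofReal (4 * |(p : ℝ)| * (2 * al) ^ N) := by
          rw [Finset.sum_const, Finset.card_univ, Fintype.card_fun, ZMod.card, Fintype.card_fin,
            nsmul_eq_mul, ← ENNReal.ofReal_natCast, ← ENNReal.ofReal_mul (by positivity)]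
          congr 1
          push_cast
          rw [mul_pow]; ring
  have hlim : Tendsto (fun N : ℕ => ENNReal.ofReal (4 * |(p : ℝ)| * (2 * al) ^ N)) atTop (𝓝 0) := by
    have h1 : Tendsto (fun N : ℕ => (2 * al) ^ N) atTop (𝓝 0) :=
      tendsto_pow_atTop_nhds_zero_of_lt_one (by linarith [al_pos]) (by linarith [al_lt])
    have h2 := h1.const_mul (4 * |(p : ℝ)|)
    rw [mul_zero] at h2
    have h3 := ENNReal.tendsto_ofReal h2
    rwa [ENNReal.ofReal_zero] at h3
  have := ge_of_tendsto' hlim key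
  exact le_antisymm this zero_le

lemma arg_circle (t : UnitAddCircle) :
    (((Complex.arg (AddCircle.toCircle t : ℂ)) / (2 * Real.pi) : ℝ) : UnitAddCircle) = t := by
  obtain ⟨x, hx⟩ := QuotientAddGroup.mk_surjective t
  have hx' : ((x : ℝ) : UnitAddCircle) = t := hx
  rw [← hx', AddCircle.toCircle_apply_mk, Circle.coe_exp, Complex.arg_exp_mul_I, toIocMod]
  have hpi := Real.pi_pos
  have e : (2 * Real.pi / 1 * x - toIocDiv (mul_pos two_pos Real.pi_pos) (-Real.pi) (2 * Real.pi / 1 * x) • (2 * Real.pi)) / (2 * Real.pi) = x - ((toIocDiv (mul_pos two_pos Real.pi_pos) (-Real.pi) (2 * Real.pi / 1 * x) : ℤ) : ℝ) := by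
    rw [zsmul_eq_mul]
    field_simp
  rw [e, AddCircle.coe_sub]
  have h1 : ∀ n : ℤ, (((n : ℤ) : ℝ) : UnitAddCircle) = 0 := by
    intro n
    rw [AddCircle.coe_eq_zero_iff]
    exact ⟨n, by simp⟩
  rw [h1, sub_zero]

/-- the factor part -/
lemma no_factor : ¬ ∃ (Y : Type) (mY : MeasurableSpace Y) (hY : StandardBorelSpace Y)
          (π : UnitAddCircle → Y) (S : Y → Y) (ν : Measure Y),
          Measurable π ∧ Measurable S ∧ (∀ᵐ x ∂mu, π (TT x) = S (π x)) ∧
          (∃ B : Set Y, MeasurableSet B ∧ mu (π ⁻¹' B) ≠ 0 ∧ mu (π ⁻¹' Bᶜ) ≠ 0) ∧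
          IsProbabilityMeasure ν ∧ ν ≪ Measure.map π mu ∧ Measure.map π mu ≪ ν ∧
          MeasurePreserving S ν ν ∧
          ∀ g : Y → ℂ, MemLp g 2 ν → ∀ ε : ℝ, 0 < ε →
            ∃ (n : ℕ) (c : Fin n → ℂ) (f : Fin n → Y → ℂ) (lam : Fin n → ℂ),
              (∀ i, MemLp (f i) 2 ν ∧ ∀ᵐ y ∂ν, f i (S y) = lam i * f i y) ∧
              eLpNorm (fun y => g y - ∑ i, c i * f i y) 2 ν < ENNReal.ofReal ε := by
  rintro ⟨Y, mY, hY, π, S, ν, hπ, hS, hfac, ⟨B, hB, hB1, hB2⟩, hν, hac1, hac2, hSp, hspan⟩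
  -- a nonconstant eigenfunction
  have hex : ∃ (h : Y → ℂ) (lam : ℂ), MemLp h 2 ν ∧ (∀ᵐ y ∂ν, h (S y) = lam * h y) ∧
      ¬ ∃ c, ∀ᵐ y ∂ν, h y = c := by
    by_contra hcon
    push Not at hcon
    have hb1 : ν B ≠ 0 := by
      intro h0
      apply hB1
      have := hac2 h0
      rwa [Measure.map_apply hπ hB] at this
    have hb2 : ν Bᶜ ≠ 0 := by
      intro h0
      apply hB2
      have := hac2 h0
      rwa [Measure.map_apply hπ hB.compl] at this
    have hd1 : 0 < (ν B).toReal := ENNReal.toReal_pos hb1 (measure_ne_top _ _)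
    have hd2 : 0 < (ν Bᶜ).toReal := ENNReal.toReal_pos hb2 (measure_ne_top _ _)
    set d : ℝ := min (ν B).toReal (ν Bᶜ).toReal with hd
    have hd0 : 0 < d := lt_min hd1 hd2
    have hg : MemLp (B.indicator (fun _ => (1 : ℂ))) 2 ν :=
      memLp_indicator_const 2 hB 1 (Or.inr (measure_ne_top _ _))
    obtain ⟨n, c, f, lam, hf, hlt⟩ := hspan _ hg (Real.sqrt (d / 4)) (Real.sqrt_pos.2 (by positivity))
    have hconst : ∀ i, ∃ a, ∀ᵐ y ∂ν, f i y = a := by
      intro i
      exact hcon (f i) (lam i) (hf i).1 (hf i).2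
    choose a ha using hconst
    set A : ℂ := ∑ i, c i * a i with hA
    have hae : (fun y => B.indicator (fun _ => (1 : ℂ)) y - ∑ i, c i * f i y) =ᵐ[ν]
        (fun y => B.indicator (fun _ => (1 : ℂ)) y - A) := by
      filter_upwards [ae_all_iff.2 ha] with y hy
      rw [hA]
      simp only [hy]
    rw [eLpNorm_congr_ae hae] at hlt
    have hmeas : AEStronglyMeasurable (fun y => B.indicator (fun _ => (1 : ℂ)) y - A) ν :=
      (hg.sub (memLp_const A)).1
    have hcheb := mul_meas_ge_le_pow_eLpNorm' ν (p := 2) (by norm_num) (by norm_num) hmeas (1 / 2 : ℝ≥0∞)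
    have hsq : eLpNorm (fun y => B.indicator (fun _ => (1 : ℂ)) y - A) 2 ν ^ (2 : ℝ≥0∞).toReal
        < ENNReal.ofReal (d / 4) := by
      have h1 : (ENNReal.ofReal (Real.sqrt (d / 4))) ^ (2 : ℝ≥0∞).toReal = ENNReal.ofReal (d / 4) := by
        rw [ENNReal.toReal_ofNat, ENNReal.rpow_ofNat, ← ENNReal.ofReal_pow (Real.sqrt_nonneg _),
          Real.sq_sqrt (by positivity)]
      rw [← h1]
      exact ENNReal.rpow_lt_rpow hlt (by norm_num)
    have hfin : ∀ U : Set Y, d ≤ (ν U).toReal →
        U ⊆ {x | (1 / 2 : ℝ≥0∞) ≤ ‖B.indicator (fun _ => (1 : ℂ)) x - A‖ₑ} → False := by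
      intro U hU hsub
      have h1 : (1 / 2 : ℝ≥0∞) ^ (2 : ℝ≥0∞).toReal * ν U < ENNReal.ofReal (d / 4) :=
        lt_of_le_of_lt (le_trans (mul_le_mul_right (measure_mono hsub) _) hcheb) hsq
      have h2 : ENNReal.ofReal (d / 4) ≤ (1 / 2 : ℝ≥0∞) ^ (2 : ℝ≥0∞).toReal * ν U := by
        have h3 : ν U = ENNReal.ofReal (ν U).toReal := (ENNReal.ofReal_toReal (measure_ne_top _ _)).symm
        have h4 : (1 / 2 : ℝ≥0∞) ^ (2 : ℝ≥0∞).toReal = ENNReal.ofReal (1 / 4) := by
          rw [ENNReal.toReal_ofNat, ENNReal.rpow_ofNat]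
          have : (1 / 2 : ℝ≥0∞) = ENNReal.ofReal (1 / 2) := by
            rw [ENNReal.ofReal_div_of_pos (by norm_num)]; simp
          rw [this, ← ENNReal.ofReal_pow (by norm_num)]
          norm_num
        rw [h3, h4, ← ENNReal.ofReal_mul (by norm_num)]
        apply ENNReal.ofReal_le_ofReal
        linarith
      exact absurd h1 (not_lt.2 h2)
    have htri : (1 / 2 : ℝ) ≤ ‖(1 : ℂ) - A‖ ∨ (1 / 2 : ℝ) ≤ ‖(0 : ℂ) - A‖ := by
      by_contra hh
      push Not at hh
      have : ‖(1 : ℂ)‖ ≤ ‖(1 : ℂ) - A‖ + ‖A‖ := by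
        have := norm_add_le ((1 : ℂ) - A) A
        simpa using this
      rw [zero_sub, norm_neg] at hh
      rw [norm_one] at this
      linarith [hh.1, hh.2]
    have hhalf : (1 / 2 : ℝ≥0∞) = ENNReal.ofReal (1 / 2) := by
      rw [ENNReal.ofReal_div_of_pos (by norm_num)]; simp
    rcases htri with h | h
    · refine hfin B (min_le_left _ _) ?_
      intro y hy
      rw [Set.mem_setOf_eq, Set.indicator_of_mem hy, hhalf, ← ofReal_norm_eq_enorm]
      exact ENNReal.ofReal_le_ofReal h
    · refine hfin Bᶜ (min_le_right _ _) ?_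
      intro y hy
      rw [Set.mem_setOf_eq, Set.indicator_of_notMem hy, hhalf, ← ofReal_norm_eq_enorm]
      exact ENNReal.ofReal_le_ofReal h
  obtain ⟨h0, lam, hmem0, heig0, hnc0⟩ := hex
  -- measurable representative
  set h : Y → ℂ := hmem0.1.mk h0 with hh
  have hhm : Measurable h := hmem0.1.stronglyMeasurable_mk.measurable
  have hae : h0 =ᵐ[ν] h := hmem0.1.ae_eq_mk
  have hmem : MemLp h 2 ν := hmem0.ae_eq hae
  have heig : ∀ᵐ y ∂ν, h (S y) = lam * h y := by
    have h1 : ∀ᵐ y ∂ν, h0 (S y) = h (S y) := hSp.quasiMeasurePreserving.ae hae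
    filter_upwards [h1, hae, heig0] with y a1 a2 a3
    rw [← a1, a3, a2]
  have hnc : ¬ ∃ c, ∀ᵐ y ∂ν, h y = c := by
    rintro ⟨c, hc⟩
    apply hnc0
    refine ⟨c, ?_⟩
    filter_upwards [hc, hae] with y a1 a2
    rw [a2, a1]
  -- norm of the eigenvalue
  have hlam : ‖lam‖ = 1 := by
    have h1 : eLpNorm (h ∘ S) 2 ν = eLpNorm h 2 ν := eLpNorm_comp_measurePreserving hmem.1 hSp
    have h2 : eLpNorm (h ∘ S) 2 ν = ‖lam‖ₑ * eLpNorm h 2 ν := by
      have h3 : (h ∘ S) =ᵐ[ν] (lam • h) := by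
        filter_upwards [heig] with y hy
        simp [hy]
      rw [eLpNorm_congr_ae h3, eLpNorm_const_smul]
    have h4 : eLpNorm h 2 ν ≠ 0 := by
      intro h5
      rw [eLpNorm_eq_zero_iff hmem.1 (by norm_num)] at h5
      exact hnc ⟨0, h5⟩
    have h5 : eLpNorm h 2 ν ≠ ∞ := hmem.2.ne
    rw [h1] at h2
    have h6 : ‖lam‖ₑ = 1 := by
      have : (1 : ℝ≥0∞) * eLpNorm h 2 ν = ‖lam‖ₑ * eLpNorm h 2 ν := by rw [one_mul]; exact h2
      exact ((ENNReal.mul_left_inj h4 h5).1 this).symm
    rw [← toReal_enorm, h6]; simp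
  -- transport to the circle
  set G : UnitAddCircle → ℂ := fun x => h (π x) with hG
  have hGm : Measurable G := hhm.comp hπ
  have tr : ∀ {q : Y → Prop}, (∀ᵐ y ∂ν, q y) → ∀ᵐ x ∂MM, q (π x) := by
    intro q hq
    have h1 : ∀ᵐ y ∂(Measure.map π mu), q y := hac2.ae_le hq
    have h2 := ae_of_ae_map hπ.aemeasurable h1
    rw [ae_mu] at h2
    exact h2
  have rt : ∀ {q : Y → Prop}, MeasurableSet {y | q y} → (∀ᵐ x ∂MM, q (π x)) → ∀ᵐ y ∂ν, q y := by
    intro q hm hq
    rw [← ae_mu] at hq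
    rw [← ae_map_iff hπ.aemeasurable hm] at hq
    exact hac1.ae_le hq
  have hfac' : ∀ᵐ x ∂MM, π (TT x) = S (π x) := by
    rw [ae_mu] at hfac
    exact hfac
  have hGeig : ∀ᵐ x ∂MM, G (TT x) = lam * G x := by
    filter_upwards [tr heig, hfac'] with x a1 a2
    simp only [hG]
    rw [a2, a1]
  have hGnc : ¬ ∃ c, ∀ᵐ x ∂MM, G x = c := by
    rintro ⟨c, hc⟩
    exact hnc ⟨c, rt (q := fun y => h y = c) (measurableSet_eq_fun hhm measurable_const) hc⟩
  obtain ⟨p, hp, hlp, C, hC, hGC⟩ := eigen G hGm lam hlam hGeig hGnc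
  -- circle valued version
  set w : Y → UnitAddCircle := fun y => ((Complex.arg (h y / C) / (2 * Real.pi) : ℝ) : UnitAddCircle) with hw
  have hwm : Measurable w := by
    have h1 : Measurable (fun y => Complex.arg (h y / C) / (2 * Real.pi)) :=
      (Complex.measurable_arg.comp (hhm.div_const C)).div_const _
    exact (AddCircle.continuous_mk' (1 : ℝ)).measurable.comp h1
  have hwp : ∀ᵐ x ∂MM, w (π x) = p • x := by
    filter_upwards [hGC] with x hx
    simp only [hw]
    have : h (π x) / C = AddCircle.toCircle (p • x) := by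
      have h1 : h (π x) = C * fourier p x := hx
      rw [h1, fourier_apply]
      field_simp
    rw [this, arg_circle]
  have hTq : Measure.QuasiMeasurePreserving TT MM MM := ⟨TT_meas, by rw [TT_MM]⟩
  have hwT : ∀ᵐ x ∂MM, w (π (TT x)) = p • (TT x) := hTq.ae hwp
  have hwS : ∀ᵐ y ∂ν, w (S y) = w y + p • aa := by
    refine rt (q := fun y => w (S y) = w y + p • aa)
      (measurableSet_eq_fun (hwm.comp hS) (hwm.add_const _)) ?_
    filter_upwards [hwp, hwT, hfac'] with x a1 a2 a3
    rw [← a3, a2, a1]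
    simp only [TT, smul_add]
  have hinv : Measure.map (fun x => x + p • aa) (Measure.map w ν) = Measure.map w ν := by
    rw [Measure.map_map (measurable_add_const _) hwm]
    have h1 : ((fun x => x + p • aa) ∘ w) =ᵐ[ν] (w ∘ S) := by
      filter_upwards [hwS] with y hy
      simp only [Function.comp]
      rw [hy]
    rw [Measure.map_congr h1, ← Measure.map_map hwm hS, hSp.map_eq]
  have hpm : IsProbabilityMeasure (Measure.map w ν) := Measure.isProbabilityMeasure_map hwm.aemeasurable
  have hacv := inv_haar (Measure.map w ν) (p • aa) hinv (dense_mul p hp)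
  have hz : Measure.map w ν (CC p) = 0 := hacv (CC_null p)
  have hCm : MeasurableSet (CC p) := (CC_compact p).isClosed.measurableSet
  have h1 : ∀ᵐ y ∂ν, w y ∉ CC p := by
    rw [Measure.map_apply hwm hCm] at hz
    exact measure_eq_zero_iff_ae_notMem.1 hz
  have h2 : ∀ᵐ x ∂MM, w (π x) ∉ CC p := tr h1
  have h3 : ∀ᵐ x ∂MM, p • x ∉ CC p := by
    filter_upwards [h2, hwp] with x a1 a2
    rw [← a2]; exact a1
  have h4 := ae_MM_of h3
  obtain ⟨ε, hε⟩ := h4.exists
  apply hε 0
  refine ⟨ε, ?_⟩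
  simp [psi]

lemma main : ¬ (∀ (X : Type) [MeasurableSpace X] [StandardBorelSpace X] (μ : Measure X)
      [IsProbabilityMeasure μ] (T : X → X),
      Measurable T → Function.Bijective T →
      Measure.map T μ ≪ μ → μ ≪ Measure.map T μ →
      (¬ ∃ (Y : Type) (mY : MeasurableSpace Y) (hY : StandardBorelSpace Y)
          (π : X → Y) (S : Y → Y) (ν : Measure Y),
          Measurable π ∧ Measurable S ∧ (∀ᵐ x ∂μ, π (T x) = S (π x)) ∧
          (∃ B : Set Y, MeasurableSet B ∧ μ (π ⁻¹' B) ≠ 0 ∧ μ (π ⁻¹' Bᶜ) ≠ 0) ∧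
          IsProbabilityMeasure ν ∧ ν ≪ Measure.map π μ ∧ Measure.map π μ ≪ ν ∧
          MeasurePreserving S ν ν ∧
          ∀ g : Y → ℂ, MemLp g 2 ν → ∀ ε : ℝ, 0 < ε →
            ∃ (n : ℕ) (c : Fin n → ℂ) (f : Fin n → Y → ℂ) (lam : Fin n → ℂ),
              (∀ i, MemLp (f i) 2 ν ∧ ∀ᵐ y ∂ν, f i (S y) = lam i * f i y) ∧
              eLpNorm (fun y => g y - ∑ i, c i * f i y) 2 ν < ENNReal.ofReal ε) →
      ∀ (f : X → ℂ) (c : ℂ), ‖c‖ = 1 → Measurable f → (∃ C : ℝ, ∀ x, ‖f x‖ ≤ C) →
        (∀ᵐ x ∂μ, f (T x) = c * f x) → ∃ a : ℂ, ∀ᵐ x ∂μ, f x = a) := by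
  intro H
  obtain ⟨a, ha⟩ := H UnitAddCircle mu TT TT_meas TT_bij ns1 ns2 no_factor
    (fun x => fourier 1 x) (fourier 1 aa) (norm_fourier 1 aa) (fourier 1).continuous.measurable
    ⟨1, fun x => (norm_fourier 1 x).le⟩ (by
      refine Filter.Eventually.of_forall (fun x => ?_)
      simp only [TT]
      rw [fourier_add_arg, mul_comm])
  rw [ae_mu] at ha
  have hTq : Measure.QuasiMeasurePreserving TT MM MM := ⟨TT_meas, by rw [TT_MM]⟩
  have h2 := hTq.ae ha
  obtain ⟨x, h3, h4⟩ := (ha.and h2).exists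
  have h5 : (fourier 1 (TT x) : ℂ) = fourier 1 aa * fourier 1 x := by
    simp only [TT]
    rw [fourier_add_arg, mul_comm]
  rw [h4, h3] at h5
  have h6 : a ≠ 0 := by rw [← h3]; exact fourier_ne_zero 1 x
  have h7 : (fourier 1 aa : ℂ) = 1 := by
    have : (1 - fourier 1 aa : ℂ) * a = 0 := by rw [sub_mul, one_mul, ← h5, sub_self]
    rcases mul_eq_zero.1 this with h | h
    · exact (sub_eq_zero.1 h).symm
    · exact absurd h h6
  rw [fourier_one] at h7
  have h8 : AddCircle.toCircle aa = AddCircle.toCircle (0 : UnitAddCircle) := by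
    rw [AddCircle.toCircle_zero]
    exact Circle.ext (by simpa using h7)
  have h9 := AddCircle.injective_toCircle one_ne_zero h8
  unfold aa at h9
  rw [AddCircle.coe_eq_zero_iff] at h9
  obtain ⟨n, hn⟩ := h9
  exact al_irr ⟨n, by rw [← hn]; simp⟩

end

/-- The negation of the preceding statement: If an invertible nonsingular map of a standard probability space has no non-trivial factor carrying an equivalent invariant probability with discrete spectrum, then each bounded eigenfunction with unimodular eigenvalue is a.e. constant, so the map is weakly mixing. -/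
theorem result :
    ¬ (∀ (X : Type) [MeasurableSpace X] [StandardBorelSpace X] (μ : Measure X)
      [IsProbabilityMeasure μ] (T : X → X),
      Measurable T → Function.Bijective T →
      Measure.map T μ ≪ μ → μ ≪ Measure.map T μ →
      (¬ ∃ (Y : Type) (mY : MeasurableSpace Y) (hY : StandardBorelSpace Y)
          (π : X → Y) (S : Y → Y) (ν : Measure Y),
          Measurable π ∧ Measurable S ∧ (∀ᵐ x ∂μ, π (T x) = S (π x)) ∧
          (∃ B : Set Y, MeasurableSet B ∧ μ (π ⁻¹' B) ≠ 0 ∧ μ (π ⁻¹' Bᶜ) ≠ 0) ∧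
          IsProbabilityMeasure ν ∧ ν ≪ Measure.map π μ ∧ Measure.map π μ ≪ ν ∧
          MeasurePreserving S ν ν ∧
          ∀ g : Y → ℂ, MemLp g 2 ν → ∀ ε : ℝ, 0 < ε →
            ∃ (n : ℕ) (c : Fin n → ℂ) (f : Fin n → Y → ℂ) (lam : Fin n → ℂ),
              (∀ i, MemLp (f i) 2 ν ∧ ∀ᵐ y ∂ν, f i (S y) = lam i * f i y) ∧
              eLpNorm (fun y => g y - ∑ i, c i * f i y) 2 ν < ENNReal.ofReal ε) →
      ∀ (f : X → ℂ) (c : ℂ), ‖c‖ = 1 → Measurable f → (∃ C : ℝ, ∀ x, ‖f x‖ ≤ C) →
        (∀ᵐ x ∂μ, f (T x) = c * f x) → ∃ a : ℂ, ∀ᵐ x ∂μ, f x = a) := by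
  exact main

end Pool.Agent.S03734
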