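import Pool.Statements.S03738
import Pool.Agent.Helper269.OneRadius

set_option autoImplicit false
open MeasureTheory
open Pool Pool.MP_a19bc9_an

namespace Pool.Agent.S03738

/-- The negation of the preceding statement: In the unit ball of C^n, a bounded continuous real u that at every point equals its invariant sphere mean for one radius in (0,1) equals it for every radius in (0,1), i.e. u is M-harmonic. -/
theorem result :
    ¬ (∀ n : ℕ, 1 ≤ n →
  ∀ φ : (Fin n → ℂ) → (Fin n → ℂ) → (Fin n → ℂ),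
  (∀ z w : Fin n → ℂ, φ z w =
      (1 - ∑ j, w j * starRingEnd ℂ (z j))⁻¹ •
        (z - ((∑ j, w j * starRingEnd ℂ (z j)) / (∑ j, z j * starRingEnd ℂ (z j))) • z
          - ((Real.sqrt (1 - ∑ j, Complex.normSq (z j)) : ℝ) : ℂ) •
            (w - ((∑ j, w j * starRingEnd ℂ (z j)) / (∑ j, z j * starRingEnd ℂ (z j))) • z))) →
  ∀ u : (Fin n → ℂ) → ℝ,
  ContinuousOn u {z : Fin n → ℂ | ∑ j, Complex.normSq (z j) < 1} →
  (∃ C : ℝ, ∀ z ∈ {z : Fin n → ℂ | ∑ j, Complex.normSq (z j) < 1}, |u z| ≤ C) →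
  (∀ z ∈ {z : Fin n → ℂ | ∑ j, Complex.normSq (z j) < 1}, ∃ r : ℝ, 0 < r ∧ r < 1 ∧
     u z = ⨍ x in {x : Fin n → ℂ | ∑ j, Complex.normSq (x j) < 1},
        u (φ z (((r : ℂ) * ((Real.sqrt (∑ j, Complex.normSq (x j)) : ℝ) : ℂ)⁻¹) • x))) →
  ∀ z ∈ {z : Fin n → ℂ | ∑ j, Complex.normSq (z j) < 1}, ∀ r : ℝ, 0 < r → r < 1 →
     u z = ⨍ x in {x : Fin n → ℂ | ∑ j, Complex.normSq (x j) < 1},
        u (φ z (((r : ℂ) * ((Real.sqrt (∑ j, Complex.normSq (x j)) : ℝ) : ℂ)⁻¹) • x))) := by
  intro H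
  have hvol_pos : volume {x : Fin 1 → ℂ | ∑ j, Complex.normSq (x j) < 1} ≠ 0 := by
    have hopen : IsOpen {x : Fin 1 → ℂ | ∑ j, Complex.normSq (x j) < 1} :=
      isOpen_lt Helper269.OneRadius.continuous_N continuous_const
    exact (hopen.measure_pos volume ⟨0, by simp⟩).ne'
  have hvol_fin : volume {x : Fin 1 → ℂ | ∑ j, Complex.normSq (x j) < 1} ≠ ⊤ := by
    have hb : Bornology.IsBounded {x : Fin 1 → ℂ | ∑ j, Complex.normSq (x j) < 1} := by
      refine (Metric.isBounded_closedBall (x := (0 : Fin 1 → ℂ)) (r := 1)).subset fun x hx => ?_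
      have hx' : ∑ j, Complex.normSq (x j) < 1 := hx
      rw [mem_closedBall_zero_iff, pi_norm_le_iff_of_nonneg zero_le_one]
      intro j
      have h1 : Complex.normSq (x j) ≤ ∑ j, Complex.normSq (x j) :=
        Finset.single_le_sum (fun i _ => Complex.normSq_nonneg (x i)) (Finset.mem_univ j)
      rw [Complex.normSq_eq_norm_sq] at h1
      nlinarith [norm_nonneg (x j)]
    exact hb.measure_lt_top.ne
  set B : Set (Fin 1 → ℂ) := {x : Fin 1 → ℂ | ∑ j, Complex.normSq (x j) < 1} with hB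
  set P : Measure (Fin 1 → ℂ) :=
    ((volume.restrict B) Set.univ)⁻¹ • (volume.restrict B) with hP
  have hPprob : IsProbabilityMeasure P := by
    constructor
    rw [hP, Measure.smul_apply, Measure.restrict_apply_univ, smul_eq_mul]
    exact ENNReal.inv_mul_cancel hvol_pos hvol_fin
  set ζ : (Fin 1 → ℂ) → Fin 1 → ℂ := fun x =>
    (((Real.sqrt (∑ j, Complex.normSq (x j)) : ℝ) : ℂ)⁻¹) • x with hζdef
  have hζm : Measurable ζ := by
    have h1 : Measurable fun x : Fin 1 → ℂ => ∑ j, Complex.normSq (x j) :=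
      Helper269.OneRadius.continuous_N.measurable
    have h2 : Measurable fun x : Fin 1 → ℂ =>
        (((Real.sqrt (∑ j, Complex.normSq (x j)) : ℝ) : ℂ)⁻¹) :=
      (Complex.measurable_ofReal.comp h1.sqrt).inv
    exact h2.smul measurable_id
  have hζN : ∀ᵐ x ∂P, Helper269.OneRadius.N (ζ x) = 1 := by
    have h0 : ∀ᵐ x ∂(volume : Measure (Fin 1 → ℂ)), x ≠ 0 := by
      rw [ae_iff]
      simp
    have h1 : ∀ᵐ x ∂P, x ≠ 0 := by
      rw [hP]
      exact Measure.ae_smul_measure (ae_restrict_of_ae h0) _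
    filter_upwards [h1] with x hx
    have hNx : 0 < ∑ j, Complex.normSq (x j) := by
      rcases (Helper269.OneRadius.N_nonneg x).lt_or_eq with h | h
      · exact h
      · exfalso
        apply hx
        ext j
        have := (Finset.sum_eq_zero_iff_of_nonneg
          (fun i _ => Complex.normSq_nonneg (x i))).1 h.symm j (Finset.mem_univ j)
        simpa using this
    have hs : Real.sqrt (∑ j, Complex.normSq (x j)) ^ 2 = ∑ j, Complex.normSq (x j) :=
      Real.sq_sqrt hNx.le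
    have : Helper269.OneRadius.N (ζ x) = Complex.normSq
        (((Real.sqrt (∑ j, Complex.normSq (x j)) : ℝ) : ℂ)⁻¹) * ∑ j, Complex.normSq (x j) :=
      Helper269.OneRadius.N_smul _ _
    rw [this, Complex.normSq_inv, Complex.normSq_ofReal, ← pow_two, hs]
    exact inv_mul_cancel₀ hNx.ne'
  have hform : ∀ (z : Fin 1 → ℂ) (r : ℝ),
      (⨍ x in B, Helper269.OneRadius.u (Helper269.OneRadius.phi z
        (((r : ℂ) * ((Real.sqrt (∑ j, Complex.normSq (x j)) : ℝ) : ℂ)⁻¹) • x)))
      = ∫ x, Helper269.OneRadius.u (Helper269.OneRadius.phi z ((r : ℂ) • ζ x)) ∂P := by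
    intro z r
    simp only [hζdef, smul_smul]
    rfl
  have key := H 1 le_rfl Helper269.OneRadius.phi (fun z w => rfl) Helper269.OneRadius.u
    Helper269.OneRadius.continuousOn_u
    ⟨1, fun z hz => (Helper269.OneRadius.abs_u_le z).trans (le_of_lt hz)⟩
    (fun z hz => by
      obtain ⟨r, hr0, hr1, hr⟩ := Helper269.OneRadius.one_radius hz P ζ hζm hζN
      refine ⟨r, hr0, hr1, ?_⟩
      rw [hform]
      exact hr)
    0 (by simp) (1 / 2) (by norm_num) (by norm_num)
  rw [hform] at key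
  exact Helper269.OneRadius.not_mean P ζ hζN key

end Pool.Agent.S03738
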