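import Pool.Statements.S03743

set_option autoImplicit false
open scoped ContDiff
open Pool Pool.MP_a1b43b_an

namespace Pool.Agent.S03743

/-- smooth step -/
noncomputable def st (x : ℝ) : ℝ := Real.smoothTransition x

lemma st_smooth : ContDiff ℝ ∞ st := Real.smoothTransition.contDiff
lemma st_nonneg (x : ℝ) : 0 ≤ st x := Real.smoothTransition.nonneg x
lemma st_le_one (x : ℝ) : st x ≤ 1 := Real.smoothTransition.le_one x
lemma st_zero {x : ℝ} (h : x ≤ 0) : st x = 0 := Real.smoothTransition.zero_of_nonpos h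
lemma st_one {x : ℝ} (h : 1 ≤ x) : st x = 1 := Real.smoothTransition.one_of_one_le h
lemma st_cont : Continuous st := st_smooth.continuous
lemma st_mono : Monotone st := Real.smoothTransition.monotone
lemma st_diff : Differentiable ℝ st := st_smooth.differentiable (by norm_num)
lemma st_hasDeriv (x : ℝ) : HasDerivAt st (deriv st x) x := st_diff.differentiableAt.hasDerivAt
lemma dst_smooth : ContDiff ℝ ∞ (deriv st) := (contDiff_infty_iff_deriv.1 st_smooth).2
lemma dst_nonneg (x : ℝ) : 0 ≤ deriv st x := st_mono.deriv_nonneg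

lemma dst_left {x : ℝ} (h : x < 0) : deriv st x = 0 := by
  have : st =ᶠ[nhds x] fun _ => (0:ℝ) := by
    filter_upwards [Iio_mem_nhds h] with t ht
    exact st_zero (le_of_lt ht)
  rw [this.deriv_eq]; simp

lemma dst_right {x : ℝ} (h : 1 < x) : deriv st x = 0 := by
  have : st =ᶠ[nhds x] fun _ => (1:ℝ) := by
    filter_upwards [Ioi_mem_nhds h] with t ht
    exact st_one (le_of_lt ht)
  rw [this.deriv_eq]; simp

lemma st_symm (x : ℝ) : st (1 - x) = 1 - st x := by
  unfold st Real.smoothTransition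
  have h := Real.smoothTransition.pos_denom x
  rw [sub_sub_cancel, eq_sub_iff_add_eq, add_comm (expNegInvGlue (1 - x)) (expNegInvGlue x),
    ← add_div, div_eq_one_iff_eq h.ne']
  ring

/-- odd saturation: 1 for y ≥ 1/4, -1 for y ≤ -1/4 -/
noncomputable def h (y : ℝ) : ℝ := st (4 * y) - st (-(4 * y))

lemma h_smooth : ContDiff ℝ ∞ h :=
  (st_smooth.comp (by fun_prop)).sub (st_smooth.comp (by fun_prop))
lemma h_cont : Continuous h := h_smooth.continuous
lemma h_zero : h 0 = 0 := by simp [h]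
lemma h_neg (y : ℝ) : h (-y) = -h y := by
  unfold h
  rw [show 4 * -y = -(4 * y) by ring, neg_neg]; ring
lemma h_one {y : ℝ} (hy : 1 / 4 ≤ y) : h y = 1 := by
  unfold h
  rw [st_one (by linarith), st_zero (by linarith)]; ring
lemma h_nonneg {y : ℝ} (hy : 0 ≤ y) : 0 ≤ h y := by
  unfold h
  rw [st_zero (x := -(4 * y)) (by linarith)]
  have := st_nonneg (4 * y)
  linarith
lemma h_le_one (y : ℝ) : h y ≤ 1 := by
  unfold h
  have := st_nonneg (-(4 * y))
  have := st_le_one (4 * y)
  linarith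

lemma dh_right {y : ℝ} (hy : 1 / 4 < y) : deriv h y = 0 := by
  have : h =ᶠ[nhds y] fun _ => (1:ℝ) := by
    filter_upwards [Ioi_mem_nhds hy] with t ht
    exact h_one (le_of_lt ht)
  rw [this.deriv_eq]; simp

lemma dh_left {y : ℝ} (hy : y < -(1 / 4)) : deriv h y = 0 := by
  have : h =ᶠ[nhds y] fun _ => (-1:ℝ) := by
    filter_upwards [Iio_mem_nhds hy] with t ht
    have h1 := h_one (y := -t) (by simp only [Set.mem_Iio] at ht; linarith)
    rw [h_neg] at h1
    linarith
  rw [this.deriv_eq]; simp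

/-- the step used in the kick -/
noncomputable def S (y : ℝ) : ℝ := st (4 * y - 2)

lemma S_smooth : ContDiff ℝ ∞ S := st_smooth.comp (by fun_prop)
lemma S_mono : Monotone S := fun a b hab => st_mono (by linarith)
lemma S_zero {y : ℝ} (hy : y ≤ 1 / 2) : S y = 0 := st_zero (by linarith)
lemma S_one {y : ℝ} (hy : 3 / 4 ≤ y) : S y = 1 := st_one (by linarith)
lemma dS_nonneg (y : ℝ) : 0 ≤ deriv S y := S_mono.deriv_nonneg
lemma S_hasDeriv (x : ℝ) : HasDerivAt S (deriv S x) x :=
  (S_smooth.differentiable (by norm_num)).differentiableAt.hasDerivAt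

/-- the decay rate -/
noncomputable def ep : ℝ := Real.log 2 / 3

lemma ep_pos : 0 < ep := by
  unfold ep
  have := Real.log_pos (by norm_num : (1:ℝ) < 2)
  positivity

/-- E t = 2^(-t/3) -/
noncomputable def E (t : ℝ) : ℝ := Real.exp (-(ep * t))

lemma E_pos (t : ℝ) : 0 < E t := Real.exp_pos _
lemma E_hasDeriv (t : ℝ) : HasDerivAt E (-ep * E t) t := by
  unfold E
  have h1 : HasDerivAt (fun t : ℝ => -(ep * t)) (-ep) t := by
    have h2 := (hasDerivAt_id t).const_mul (-ep)
    rw [mul_one] at h2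
    refine h2.congr_of_eventuallyEq (Filter.Eventually.of_forall fun s => ?_)
    simp only [id]; ring
  refine h1.exp.congr_deriv ?_
  ring
lemma E_smooth : ContDiff ℝ ∞ E := Real.contDiff_exp.comp (by fun_prop)
lemma E_add (s t : ℝ) : E (s + t) = E s * E t := by
  unfold E
  rw [← Real.exp_add]; congr 1; ring
lemma E_three : E 3 = 1 / 2 := by
  unfold E ep
  rw [show -(Real.log 2 / 3 * 3) = -Real.log 2 by ring, Real.exp_neg, Real.exp_log (by norm_num)]
  norm_num
lemma E_le_one {t : ℝ} (ht : 0 ≤ t) : E t ≤ 1 := by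
  unfold E
  apply Real.exp_le_one_iff.2
  have := ep_pos
  have : 0 ≤ ep * t := by positivity
  linarith
lemma E_ge_half {t : ℝ} (ht : t ≤ 3) : 1 / 2 ≤ E t := by
  rw [← E_three]
  unfold E
  apply Real.exp_le_exp.2
  have := ep_pos
  nlinarith

/-- the transition along the orbit -/
noncomputable def sg (t : ℝ) : ℝ := st (4 * t - 15 / 2)
lemma sg_smooth : ContDiff ℝ ∞ sg := st_smooth.comp (by fun_prop)
lemma sg_cont : Continuous sg := sg_smooth.continuous
lemma sg_zero {t : ℝ} (ht : t ≤ 15 / 8) : sg t = 0 := st_zero (by linarith)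
lemma sg_one {t : ℝ} (ht : 17 / 8 ≤ t) : sg t = 1 := st_one (by linarith)
lemma sg_nonneg (t : ℝ) : 0 ≤ sg t := st_nonneg _
lemma sg_hasDeriv (t : ℝ) : HasDerivAt sg (4 * deriv st (4 * t - 15 / 2)) t := by
  have h1 : HasDerivAt (fun t : ℝ => 4 * t - 15 / 2) 4 t := by
    simpa using ((hasDerivAt_id t).const_mul 4).sub_const (15 / 2)
  refine ((st_hasDeriv (4 * t - 15 / 2)).comp t h1).congr_deriv ?_
  ring

/-- primitive of sg -/
noncomputable def P (t : ℝ) : ℝ := ∫ s in (0:ℝ)..t, sg s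

lemma P_hasDeriv (t : ℝ) : HasDerivAt P (sg t) t :=
  intervalIntegral.integral_hasDerivAt_right (sg_cont.intervalIntegrable 0 t)
    sg_cont.aestronglyMeasurable.stronglyMeasurableAtFilter sg_cont.continuousAt

lemma P_zero {t : ℝ} (ht : t ≤ 15 / 8) : P t = 0 := by
  unfold P
  rw [intervalIntegral.integral_congr (g := fun _ => (0:ℝ))]
  · simp
  · intro s hs
    refine sg_zero ?_
    rcases Set.mem_uIcc.1 hs with h' | h' <;> linarith [h'.1, h'.2]

lemma P_mid : P (17 / 8) = 1 / 8 := by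
  have h1 : P (17 / 8) = ∫ s in (15/8:ℝ)..(17/8), sg s := by
    have e := intervalIntegral.integral_add_adjacent_intervals (μ := MeasureTheory.volume)
      (sg_cont.intervalIntegrable 0 (15/8)) (sg_cont.intervalIntegrable (15/8) (17/8))
    have e0 : (∫ s in (0:ℝ)..(15/8), sg s) = 0 := P_zero le_rfl
    rw [e0, zero_add] at e
    exact e.symm
  have h2 : (∫ s in (15/8:ℝ)..(17/8), sg (4 - s)) = ∫ s in (15/8:ℝ)..(17/8), sg s := by
    rw [intervalIntegral.integral_comp_sub_left]
    norm_num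
  have h3 : (∫ s in (15/8:ℝ)..(17/8), sg (4 - s)) = ∫ s in (15/8:ℝ)..(17/8), (1 - sg s) := by
    apply intervalIntegral.integral_congr
    intro s _
    change st (4 * (4 - s) - 15 / 2) = 1 - st (4 * s - 15 / 2)
    rw [← st_symm]
    congr 1
    ring
  rw [intervalIntegral.integral_sub (by simp) (sg_cont.intervalIntegrable _ _)] at h3
  simp only [intervalIntegral.integral_const, smul_eq_mul, mul_one] at h3
  rw [h1]
  rw [h2] at h3
  norm_num at h3 ⊢
  linarith

lemma P_right {t : ℝ} (ht : 17 / 8 ≤ t) : P t = t - 2 := by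
  have e := intervalIntegral.integral_add_adjacent_intervals (μ := MeasureTheory.volume)
      (sg_cont.intervalIntegrable 0 (17/8)) (sg_cont.intervalIntegrable (17/8) t)
  have e0 : (∫ s in (0:ℝ)..(17/8), sg s) = 1 / 8 := P_mid
  have e1 : (∫ s in (17/8:ℝ)..t, sg s) = t - 17 / 8 := by
    rw [intervalIntegral.integral_congr (g := fun _ => (1:ℝ))]
    · simp
    · intro s hs
      rw [Set.uIcc_of_le ht] at hs
      exact sg_one hs.1
  rw [e0, e1] at e
  unfold P
  rw [← e]
  ring

lemma P_mono : Monotone P := by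
  apply monotone_of_deriv_nonneg
  · exact fun t => (P_hasDeriv t).differentiableAt
  · intro t
    rw [(P_hasDeriv t).deriv]
    exact sg_nonneg t

/-- w = e^(ep t) y -/
noncomputable def w (t : ℝ) : ℝ := t - 3 * P t

lemma w_left {t : ℝ} (ht : t ≤ 15 / 8) : w t = t := by
  unfold w; rw [P_zero ht]; ring
lemma w_right {t : ℝ} (ht : 17 / 8 ≤ t) : w t = 2 * (3 - t) := by
  unfold w; rw [P_right ht]; ring
lemma w_mid {t : ℝ} (h1 : 15 / 8 ≤ t) (h2 : t ≤ 17 / 8) : 3 / 2 ≤ w t := by
  have := P_mono h2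
  rw [P_mid] at this
  unfold w
  linarith
lemma w_hasDeriv (t : ℝ) : HasDerivAt w (1 - 3 * sg t) t :=
  (hasDerivAt_id t).sub ((P_hasDeriv t).const_mul 3)

lemma w_nonneg {t : ℝ} (h0 : 0 ≤ t) (h3 : t ≤ 3) : 0 ≤ w t := by
  rcases le_total t (15 / 8) with h | h
  · rw [w_left h]; exact h0
  · rcases le_total t (17 / 8) with h' | h'
    · linarith [w_mid h h']
    · rw [w_right h']; linarith

lemma w_ge_half {t : ℝ} (h0 : 1 / 2 ≤ t) (h3 : t ≤ 11 / 4) : 1 / 2 ≤ w t := by
  rcases le_total t (15 / 8) with h | h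
  · rw [w_left h]; exact h0
  · rcases le_total t (17 / 8) with h' | h'
    · linarith [w_mid h h']
    · rw [w_right h']; linarith

/-- first coordinates of the orbit on [0,3] -/
noncomputable def y0 (t : ℝ) : ℝ := E t * w t
noncomputable def x0 (t : ℝ) : ℝ := -(E t * (1 - 3 * sg t))

lemma y0_hasDeriv (t : ℝ) : HasDerivAt y0 (-x0 t - ep * y0 t) t := by
  refine ((E_hasDeriv t).mul (w_hasDeriv t)).congr_deriv ?_
  simp only [x0, y0]
  ring

lemma y0_cont : Continuous y0 :=
  continuous_iff_continuousAt.2 fun t => (y0_hasDeriv t).continuousAt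

/-- the kick as a function of time -/
noncomputable def k (t : ℝ) : ℝ := 12 * E t * deriv st (4 * t - 15 / 2)

lemma k_smooth : ContDiff ℝ ∞ k :=
  (contDiff_const.mul E_smooth).mul (dst_smooth.comp (by fun_prop))
lemma k_nonneg (t : ℝ) : 0 ≤ k t := by
  unfold k
  have := E_pos t
  have := dst_nonneg (4 * t - 15 / 2)
  positivity
lemma k_left {t : ℝ} (ht : t < 15 / 8) : k t = 0 := by
  unfold k; rw [dst_left (by linarith)]; ring
lemma k_right {t : ℝ} (ht : 17 / 8 < t) : k t = 0 := by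
  unfold k; rw [dst_right (by linarith)]; ring

lemma x0_hasDeriv (t : ℝ) : HasDerivAt x0 (-ep * x0 t + k t) t := by
  have h1 : HasDerivAt (fun t => 1 - 3 * sg t) (-(3 * (4 * deriv st (4 * t - 15 / 2)))) t :=
    ((sg_hasDeriv t).const_mul 3).const_sub 1
  refine ((E_hasDeriv t).mul h1).neg.congr_deriv ?_
  simp only [x0, k]
  ring

lemma y0_nonneg {t : ℝ} (h0 : 0 ≤ t) (h3 : t ≤ 3) : 0 ≤ y0 t :=
  mul_nonneg (E_pos t).le (w_nonneg h0 h3)

lemma y0_le_w {t : ℝ} (h0 : 0 ≤ t) (h3 : t ≤ 3) : y0 t ≤ w t := by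
  have h1 := E_le_one h0
  have h2 := w_nonneg h0 h3
  unfold y0
  nlinarith

lemma y0_ge_w {t : ℝ} (h0 : 0 ≤ t) (h3 : t ≤ 3) : w t / 2 ≤ y0 t := by
  have h1 := E_ge_half h3
  have h2 := w_nonneg h0 h3
  unfold y0
  nlinarith

lemma y0_anti {t : ℝ} (h1 : -(1/8) < t) (h2 : t < 1 / 8) : y0 (t + 3) = -y0 t := by
  unfold y0
  rw [E_add, E_three, w_left (t := t) (by linarith), w_right (t := t + 3) (by linarith)]
  ring

lemma x0_anti {t : ℝ} (h1 : -(1/8) < t) (h2 : t < 1 / 8) : x0 (t + 3) = -x0 t := by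
  unfold x0
  rw [E_add, E_three, sg_zero (t := t) (by linarith), sg_one (t := t + 3) (by linarith)]
  ring


/-- integral for the third coordinate -/
noncomputable def J (t : ℝ) : ℝ := ∫ s in (0:ℝ)..t, Real.exp s * h (y0 s)

lemma J_int_cont : Continuous (fun s => Real.exp s * h (y0 s)) :=
  Real.continuous_exp.mul (h_cont.comp y0_cont)

lemma J_hasDeriv (t : ℝ) : HasDerivAt J (Real.exp t * h (y0 t)) t :=
  intervalIntegral.integral_hasDerivAt_right (J_int_cont.intervalIntegrable 0 t)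
    J_int_cont.aestronglyMeasurable.stronglyMeasurableAtFilter J_int_cont.continuousAt

lemma J_zero : J 0 = 0 := by simp [J]

/-- initial value of the third coordinate -/
noncomputable def C : ℝ := -(J 3) / (Real.exp 3 + 1)

lemma C_eq : C * (Real.exp 3 + 1) = -(J 3) := by
  unfold C
  have := Real.exp_pos 3
  field_simp

lemma J3_nonneg : 0 ≤ J 3 := by
  unfold J
  apply intervalIntegral.integral_nonneg (by norm_num)
  intro s hs
  exact mul_nonneg (Real.exp_pos s).le (h_nonneg (y0_nonneg hs.1 hs.2))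

lemma C_nonpos : C ≤ 0 := by
  have h1 := C_eq
  have h2 := J3_nonneg
  have h3 := Real.exp_pos 3
  by_contra hc
  push Not at hc
  have : 0 < C * (Real.exp 3 + 1) := by positivity
  linarith

/-- third coordinate of the orbit -/
noncomputable def z0 (t : ℝ) : ℝ := Real.exp (-t) * (C + J t)

lemma z0_hasDeriv (t : ℝ) : HasDerivAt z0 (h (y0 t) - z0 t) t := by
  have h1 : HasDerivAt (fun t : ℝ => Real.exp (-t)) (-Real.exp (-t)) t := by
    have := (hasDerivAt_neg t).exp
    refine this.congr_deriv ?_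
    ring
  have h2 : HasDerivAt (fun t => C + J t) (Real.exp t * h (y0 t)) t := (J_hasDeriv t).const_add C
  refine (h1.mul h2).congr_deriv ?_
  have e : Real.exp (-t) * Real.exp t = 1 := by rw [← Real.exp_add]; simp
  unfold z0
  linear_combination h (y0 t) * e

lemma z0_cont : Continuous z0 :=
  continuous_iff_continuousAt.2 fun t => (z0_hasDeriv t).continuousAt

lemma z0_anti {t : ℝ} (h1 : -(1/8) < t) (h2 : t < 1 / 8) : z0 (t + 3) = -z0 t := by
  have e1 : J (t + 3) = J 3 - Real.exp 3 * J t := by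
    have e := intervalIntegral.integral_add_adjacent_intervals (μ := MeasureTheory.volume)
      (J_int_cont.intervalIntegrable 0 3) (J_int_cont.intervalIntegrable 3 (t + 3))
    have e2 : (∫ s in (3:ℝ)..(t + 3), Real.exp s * h (y0 s)) = - (Real.exp 3 * J t) := by
      have e3 : (∫ s in (0:ℝ)..t, (fun s => Real.exp s * h (y0 s)) (s + 3))
          = ∫ s in (0 + 3:ℝ)..(t + 3), Real.exp s * h (y0 s) :=
        intervalIntegral.integral_comp_add_right (fun s => Real.exp s * h (y0 s)) 3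
      rw [zero_add] at e3
      rw [← e3]
      unfold J
      rw [← intervalIntegral.integral_const_mul, ← intervalIntegral.integral_neg]
      apply intervalIntegral.integral_congr
      intro s hs
      have hs1 : -(1/8) < s ∧ s < 1/8 := by
        rcases Set.mem_uIcc.1 hs with h' | h' <;> constructor <;> linarith [h'.1, h'.2]
      change Real.exp (s + 3) * h (y0 (s + 3)) = -(Real.exp 3 * (Real.exp s * h (y0 s)))
      rw [y0_anti hs1.1 hs1.2, h_neg, Real.exp_add]
      ring
    rw [e2] at e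
    change J 3 + -(Real.exp 3 * J t) = J (t + 3) at e
    linarith
  unfold z0
  rw [e1]
  have e3 : Real.exp (-(t + 3)) * Real.exp 3 = Real.exp (-t) := by
    rw [← Real.exp_add]; congr 1; ring
  have e4 : Real.exp (-(t+3)) * (C * (Real.exp 3 + 1) + J 3) = 0 := by rw [C_eq]; ring
  linear_combination e4 - (C + J t) * e3

/-- the constant in z0 t = 1 - c1 * exp (-t) -/
noncomputable def c1 : ℝ := Real.exp (1/2) - C - J (1/2)

lemma J_half_le : J (1/2) ≤ Real.exp (1/2) - 1 := by
  have e : (∫ s in (0:ℝ)..(1/2), Real.exp s) = Real.exp (1/2) - 1 := by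
    rw [integral_exp, Real.exp_zero]
  rw [← e]
  unfold J
  apply intervalIntegral.integral_mono_on (by norm_num) (J_int_cont.intervalIntegrable _ _)
    (Real.continuous_exp.intervalIntegrable _ _)
  intro s hs
  have := h_le_one (y0 s)
  have := Real.exp_pos s
  nlinarith

lemma c1_pos : 0 < c1 := by
  have := J_half_le
  have := C_nonpos
  unfold c1
  linarith

lemma z0_eq {t : ℝ} (h1 : 1/2 ≤ t) (h2 : t ≤ 11/4) : z0 t = 1 - c1 * Real.exp (-t) := by
  have e := intervalIntegral.integral_add_adjacent_intervals (μ := MeasureTheory.volume)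
      (J_int_cont.intervalIntegrable 0 (1/2)) (J_int_cont.intervalIntegrable (1/2) t)
  have e2 : (∫ s in (1/2:ℝ)..t, Real.exp s * h (y0 s)) = Real.exp t - Real.exp (1/2) := by
    rw [← integral_exp]
    apply intervalIntegral.integral_congr
    intro s hs
    rw [Set.uIcc_of_le h1] at hs
    have hs1 : 1/2 ≤ s := hs.1
    have hs2 : s ≤ 11/4 := hs.2.trans h2
    have : 1/4 ≤ y0 s := by
      have := y0_ge_w (t := s) (by linarith) (by linarith)
      have := w_ge_half hs1 hs2
      linarith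
    simp only [h_one this, mul_one]
  rw [e2] at e
  change J (1/2) + (Real.exp t - Real.exp (1/2)) = J t at e
  unfold z0 c1
  rw [← e]
  have e5 : Real.exp (-t) * Real.exp t = 1 := by rw [← Real.exp_add]; simp
  linear_combination e5

/-- time as a function of z -/
noncomputable def tau (z : ℝ) : ℝ := Real.log c1 - Real.log (1 - z)

lemma tau_z0 {t : ℝ} (h1 : 1/2 ≤ t) (h2 : t ≤ 11/4) : tau (z0 t) = t := by
  rw [z0_eq h1 h2]
  unfold tau
  have := c1_pos
  have := Real.exp_pos (-t)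
  rw [sub_sub_cancel, Real.log_mul (by positivity) (by positivity), Real.log_exp]
  ring

/-- the kick as a function of z -/
noncomputable def phi (z : ℝ) : ℝ := if z < 1 then k (tau z) else 0

lemma phi_nonneg (z : ℝ) : 0 ≤ phi z := by
  unfold phi
  split_ifs
  · exact k_nonneg _
  · exact le_rfl

lemma phi_z0 {t : ℝ} (h1 : 1/2 ≤ t) (h2 : t ≤ 11/4) : phi (z0 t) = k t := by
  have : z0 t < 1 := by
    rw [z0_eq h1 h2]
    have := c1_pos
    have := Real.exp_pos (-t)
    have : 0 < c1 * Real.exp (-t) := by positivity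
    linarith
  unfold phi
  rw [if_pos this, tau_z0 h1 h2]

lemma phi_smooth : ContDiff ℝ ∞ phi := by
  rw [contDiff_iff_contDiffAt]
  intro z
  rcases lt_or_ge z 1 with hz | hz
  · have h1 : phi =ᶠ[nhds z] fun z => k (tau z) := by
      filter_upwards [Iio_mem_nhds hz] with t ht
      have ht' : t < 1 := ht
      unfold phi
      rw [if_pos ht']
    refine ContDiffAt.congr_of_eventuallyEq ?_ h1
    have h2 : ContDiffAt ℝ ∞ tau z := by
      have h3 : ContDiffAt ℝ ∞ (fun z : ℝ => Real.log (1 - z)) z := by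
        apply ContDiffAt.log
        · fun_prop
        · linarith
      exact contDiffAt_const.sub h3
    exact k_smooth.contDiffAt.comp z h2
  · -- locally zero
    have h1 : phi =ᶠ[nhds z] fun _ => (0:ℝ) := by
      have hc := c1_pos
      have he := Real.exp_pos (-3)
      have hlt : 1 - c1 * Real.exp (-3) < z := by
        have : 0 < c1 * Real.exp (-3) := by positivity
        linarith
      filter_upwards [Ioi_mem_nhds hlt] with t ht
      unfold phi
      split_ifs with h
      · apply k_right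
        simp only [Set.mem_Ioi] at ht
        have h4 : Real.log (1 - t) < Real.log (c1 * Real.exp (-3)) :=
          Real.log_lt_log (by linarith) (by linarith)
        rw [Real.log_mul hc.ne' he.ne', Real.log_exp] at h4
        unfold tau
        linarith
      · rfl
    exact (contDiffAt_const (c := (0:ℝ))).congr_of_eventuallyEq h1

/-- the forcing term -/
noncomputable def f (y z : ℝ) : ℝ := S y * phi z - S (-y) * phi (-z)

lemma f_neg (y z : ℝ) : f (-y) (-z) = -f y z := by
  unfold f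
  rw [neg_neg, neg_neg]
  ring

/-- along the orbit, the forcing is the kick -/
lemma f_orbit {t : ℝ} (h0 : 0 ≤ t) (h3 : t ≤ 3) : f (y0 t) (z0 t) = k t := by
  have hy := y0_nonneg h0 h3
  have hS2 : S (-(y0 t)) = 0 := S_zero (by linarith)
  unfold f
  rw [hS2, zero_mul, sub_zero]
  rcases le_total t (1/2) with h | h
  · have h1 : y0 t ≤ 1/2 := by
      have := y0_le_w h0 h3
      rw [w_left (by linarith)] at this
      linarith
    rw [S_zero h1, k_left (by linarith), zero_mul]
  · rcases le_total t (11/4) with h' | h'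
    · rw [phi_z0 h h']
      rcases lt_or_ge t (15/8) with h4 | h4
      · rw [k_left h4, mul_zero]
      · rcases le_or_gt t (17/8) with h5 | h5
        · have h6 : 3/4 ≤ y0 t := by
            have := y0_ge_w h0 h3
            have := w_mid h4 h5
            linarith
          rw [S_one h6, one_mul]
        · rw [k_right h5, mul_zero]
    · have h1 : y0 t ≤ 1/2 := by
        have := y0_le_w h0 h3
        rw [w_right (by linarith)] at this
        linarith
      rw [S_zero h1, k_right (by linarith), zero_mul]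


/-- components of the vector field -/
noncomputable def F (p : Fin 3 → ℝ) : Fin 3 → ℝ :=
  ![-ep * p 0 + f (p 1) (p 2), -p 0 - ep * p 1, h (p 1) - p 2]

lemma F_neg (p : Fin 3 → ℝ) : F (-p) = -F p := by
  unfold F
  ext i
  fin_cases i
  · simp [f_neg]; ring
  · simp; ring
  · simp [h_neg]; ring

lemma F_smooth : ContDiff ℝ ∞ F := by
  have h0 : ContDiff ℝ ∞ (fun v : Fin 3 → ℝ => v 0) := contDiff_apply ℝ ℝ 0
  have h1 : ContDiff ℝ ∞ (fun v : Fin 3 → ℝ => v 1) := contDiff_apply ℝ ℝ 1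
  have h2 : ContDiff ℝ ∞ (fun v : Fin 3 → ℝ => v 2) := contDiff_apply ℝ ℝ 2
  rw [contDiff_pi]
  intro i
  fin_cases i
  · change ContDiff ℝ ∞ (fun p : Fin 3 → ℝ =>
      -ep * p 0 + (S (p 1) * phi (p 2) - S (-(p 1)) * phi (-(p 2))))
    exact (contDiff_const.mul h0).add (((S_smooth.comp h1).mul (phi_smooth.comp h2)).sub
      ((S_smooth.comp h1.neg).mul (phi_smooth.comp h2.neg)))
  · change ContDiff ℝ ∞ (fun p : Fin 3 → ℝ => -p 0 - ep * p 1)
    exact h0.neg.sub (contDiff_const.mul h1)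
  · change ContDiff ℝ ∞ (fun p : Fin 3 → ℝ => h (p 1) - p 2)
    exact (h_smooth.comp h1).sub h2

/-- partial derivatives of f -/
noncomputable def fy (y z : ℝ) : ℝ := deriv S y * phi z + deriv S (-y) * phi (-z)
noncomputable def fz (y z : ℝ) : ℝ := S y * deriv phi z + S (-y) * deriv phi (-z)

lemma fy_nonneg (y z : ℝ) : 0 ≤ fy y z := by
  unfold fy
  have := dS_nonneg y
  have := dS_nonneg (-y)
  have := phi_nonneg z
  have := phi_nonneg (-z)
  positivity

lemma fz_dh (y z : ℝ) : fz y z * deriv h y = 0 := by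
  rcases lt_or_ge (1/2) y with h1 | h1
  · rw [dh_right (by linarith), mul_zero]
  · rcases lt_or_ge (1/2) (-y) with h2 | h2
    · rw [dh_left (by linarith), mul_zero]
    · unfold fz
      rw [S_zero h1, S_zero h2]
      ring

lemma F_hasFDeriv (v : Fin 3 → ℝ) : HasFDerivAt F
    (ContinuousLinearMap.pi
      (![(-ep) • ContinuousLinearMap.proj 0 + fy (v 1) (v 2) • ContinuousLinearMap.proj 1
            + fz (v 1) (v 2) • ContinuousLinearMap.proj 2,
        (-1 : ℝ) • ContinuousLinearMap.proj 0 + (-ep) • ContinuousLinearMap.proj 1,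
        (deriv h (v 1)) • ContinuousLinearMap.proj 1 + (-1 : ℝ) • ContinuousLinearMap.proj 2] :
        Fin 3 → ((Fin 3 → ℝ) →L[ℝ] ℝ))) v := by
  rw [hasFDerivAt_pi]
  have p0 : HasFDerivAt (fun v : Fin 3 → ℝ => v 0)
      (ContinuousLinearMap.proj 0 : (Fin 3 → ℝ) →L[ℝ] ℝ) v := hasFDerivAt_apply 0 v
  have p1 : HasFDerivAt (fun v : Fin 3 → ℝ => v 1)
      (ContinuousLinearMap.proj 1 : (Fin 3 → ℝ) →L[ℝ] ℝ) v := hasFDerivAt_apply 1 v
  have p2 : HasFDerivAt (fun v : Fin 3 → ℝ => v 2)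
      (ContinuousLinearMap.proj 2 : (Fin 3 → ℝ) →L[ℝ] ℝ) v := hasFDerivAt_apply 2 v
  have hS : ∀ y, HasDerivAt S (deriv S y) y := S_hasDeriv
  have hph : ∀ z, HasDerivAt phi (deriv phi z) z := fun z =>
    (phi_smooth.differentiable (by norm_num)).differentiableAt.hasDerivAt
  have hh : ∀ y, HasDerivAt h (deriv h y) y := fun y =>
    (h_smooth.differentiable (by norm_num)).differentiableAt.hasDerivAt
  have dS : HasFDerivAt (fun v : Fin 3 → ℝ => S (v 1))
      ((deriv S (v 1)) • (ContinuousLinearMap.proj 1 : (Fin 3 → ℝ) →L[ℝ] ℝ)) v :=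
    HasDerivAt.comp_hasFDerivAt (h₂ := S) v (hS _) p1
  have dS' : HasFDerivAt (fun v : Fin 3 → ℝ => S (-(v 1)))
      ((deriv S (-(v 1))) • (-(ContinuousLinearMap.proj 1 : (Fin 3 → ℝ) →L[ℝ] ℝ))) v :=
    HasDerivAt.comp_hasFDerivAt (h₂ := S) v (hS _) p1.neg
  have dp : HasFDerivAt (fun v : Fin 3 → ℝ => phi (v 2))
      ((deriv phi (v 2)) • (ContinuousLinearMap.proj 2 : (Fin 3 → ℝ) →L[ℝ] ℝ)) v :=
    HasDerivAt.comp_hasFDerivAt (h₂ := phi) v (hph _) p2
  have dp' : HasFDerivAt (fun v : Fin 3 → ℝ => phi (-(v 2)))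
      ((deriv phi (-(v 2))) • (-(ContinuousLinearMap.proj 2 : (Fin 3 → ℝ) →L[ℝ] ℝ))) v :=
    HasDerivAt.comp_hasFDerivAt (h₂ := phi) v (hph _) p2.neg
  have dh : HasFDerivAt (fun v : Fin 3 → ℝ => h (v 1))
      ((deriv h (v 1)) • (ContinuousLinearMap.proj 1 : (Fin 3 → ℝ) →L[ℝ] ℝ)) v :=
    HasDerivAt.comp_hasFDerivAt (h₂ := h) v (hh _) p1
  intro i
  fin_cases i
  · change HasFDerivAt (fun p : Fin 3 → ℝ =>
      -ep * p 0 + (S (p 1) * phi (p 2) - S (-(p 1)) * phi (-(p 2)))) _ v
    refine ((p0.const_mul (-ep)).add ((dS.mul dp).sub (dS'.mul dp'))).congr_fderiv ?_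
    ext u
    simp [fy, fz]
    ring
  · change HasFDerivAt (fun p : Fin 3 → ℝ => -p 0 - ep * p 1) _ v
    refine (p0.neg.sub (p1.const_mul ep)).congr_fderiv ?_
    ext u
    simp
    ring
  · change HasFDerivAt (fun p : Fin 3 → ℝ => h (p 1) - p 2) _ v
    refine (dh.sub p2).congr_fderiv ?_
    ext u
    simp
    ring

lemma eig (v : Fin 3 → ℝ) (z : ℂ)
    (hz : Polynomial.aeval z
            (LinearMap.toMatrix' (fderiv ℝ F v).toLinearMap).charpoly = 0) : z.re < 0 := by
  rw [Polynomial.aeval_def, Polynomial.eval₂_eq_eval_map, ← Matrix.charpoly_map,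
    Matrix.eval_charpoly, (F_hasFDeriv v).fderiv, Matrix.det_fin_three] at hz
  simp [LinearMap.toMatrix'_apply] at hz
  have e : ((fz (v 1) (v 2) : ℝ) : ℂ) * ((deriv h (v 1) : ℝ) : ℂ) = 0 := by
    rw [← Complex.ofReal_mul, fz_dh]; simp
  have key : (z + 1) * ((z + ep) ^ 2 + fy (v 1) (v 2)) = 0 := by
    linear_combination hz - e
  have hfy := fy_nonneg (v 1) (v 2)
  have hep := ep_pos
  rcases mul_eq_zero.1 key with h1 | h1
  · have : z = -1 := by linear_combination h1
    rw [this]; norm_num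
  · have h2 := congrArg Complex.re h1
    have h3 := congrArg Complex.im h1
    simp [pow_two] at h2 h3
    by_contra hc
    push Not at hc
    have h4 : 0 < z.re + ep := by linarith
    have h5 : z.im = 0 := by
      have : (z.re + ep) * z.im = 0 := by linarith
      rcases mul_eq_zero.1 this with h | h
      · exact absurd h h4.ne'
      · exact h
    rw [h5] at h2
    nlinarith


/-- the orbit on a neighbourhood of [0,3] -/
noncomputable def g0 (t : ℝ) : Fin 3 → ℝ := ![x0 t, y0 t, z0 t]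

lemma g0_hasDeriv {t : ℝ} (h0 : 0 ≤ t) (h3 : t ≤ 3) : HasDerivAt g0 (F (g0 t)) t := by
  rw [hasDerivAt_pi]
  intro i
  fin_cases i
  · change HasDerivAt x0 (-ep * x0 t + f (y0 t) (z0 t)) t
    rw [f_orbit h0 h3]
    exact x0_hasDeriv t
  · change HasDerivAt y0 (-x0 t - ep * y0 t) t
    exact y0_hasDeriv t
  · change HasDerivAt z0 (h (y0 t) - z0 t) t
    exact z0_hasDeriv t

lemma g0_anti {t : ℝ} (h1 : -(1/8) < t) (h2 : t < 1 / 8) : g0 (t + 3) = -g0 t := by
  unfold g0
  rw [x0_anti h1 h2, y0_anti h1 h2, z0_anti h1 h2]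
  simp

/-- the periodic orbit -/
noncomputable def ga (t : ℝ) : Fin 3 → ℝ :=
  ((-1 : ℝ) ^ (⌊t / 3⌋ : ℤ)) • g0 (t - 3 * (⌊t / 3⌋ : ℤ))

lemma ga_local (t : ℝ) : ga =ᶠ[nhds t] fun s =>
    ((-1 : ℝ) ^ (⌊t / 3⌋ : ℤ)) • g0 (s - 3 * (⌊t / 3⌋ : ℤ)) := by
  set n := ⌊t / 3⌋ with hn
  have hn1 : (n : ℝ) ≤ t / 3 := Int.floor_le _
  have hn2 : t / 3 < n + 1 := Int.lt_floor_add_one _
  have hmem : Set.Ioo (3 * (n : ℝ) - 1 / 8) (3 * n + 3) ∈ nhds t :=
    Ioo_mem_nhds (by linarith) (by linarith)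
  filter_upwards [hmem] with s hs
  obtain ⟨hs1, hs2⟩ := hs
  rcases le_or_gt (3 * (n : ℝ)) s with h | h
  · have : ⌊s / 3⌋ = n := by
      rw [Int.floor_eq_iff]
      constructor <;> linarith
    unfold ga
    rw [this]
  · have : ⌊s / 3⌋ = n - 1 := by
      rw [Int.floor_eq_iff]
      push_cast
      constructor <;> linarith
    unfold ga
    rw [this]
    have e : s - 3 * ((n - 1 : ℤ) : ℝ) = (s - 3 * (n : ℝ)) + 3 := by push_cast; ring
    rw [e, g0_anti (by linarith) (by linarith), zpow_sub₀ (by norm_num : (-1 : ℝ) ≠ 0)]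
    rw [zpow_one, div_neg, div_one, neg_smul, smul_neg, neg_neg]

lemma F_zpow (n : ℤ) (v : Fin 3 → ℝ) : F (((-1 : ℝ) ^ n) • v) = ((-1 : ℝ) ^ n) • F v := by
  rcases Int.even_or_odd n with h | h
  · rw [h.neg_one_zpow, one_smul, one_smul]
  · rw [h.neg_one_zpow, neg_one_smul, neg_one_smul, F_neg]

lemma ga_hasDeriv (t : ℝ) : HasDerivAt ga (F (ga t)) t := by
  have hn1 : (⌊t / 3⌋ : ℝ) ≤ t / 3 := Int.floor_le _
  have hn2 : t / 3 < ⌊t / 3⌋ + 1 := Int.lt_floor_add_one _
  refine HasDerivAt.congr_of_eventuallyEq ?_ (ga_local t)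
  have h1 : HasDerivAt g0 (F (g0 (t - 3 * (⌊t / 3⌋ : ℤ)))) (t - 3 * (⌊t / 3⌋ : ℤ)) :=
    g0_hasDeriv (by linarith) (by linarith)
  have h2 : HasDerivAt (fun s : ℝ => g0 (s - 3 * (⌊t / 3⌋ : ℤ)))
      (F (g0 (t - 3 * (⌊t / 3⌋ : ℤ)))) t := by
    have := h1.comp_sub_const t (3 * (⌊t / 3⌋ : ℤ))
    exact this
  have h3 := h2.const_smul ((-1 : ℝ) ^ (⌊t / 3⌋ : ℤ))
  unfold ga
  rw [F_zpow]
  exact h3

lemma ga_periodic (t : ℝ) : ga (t + 6) = ga t := by
  have e : ⌊(t + 6) / 3⌋ = ⌊t / 3⌋ + 2 := by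
    rw [show (t + 6) / 3 = t / 3 + (2 : ℤ) by push_cast; ring, Int.floor_add_intCast]
  unfold ga
  rw [e, zpow_add₀ (by norm_num : (-1 : ℝ) ≠ 0)]
  have e2 : t + 6 - 3 * ((⌊t / 3⌋ + 2 : ℤ) : ℝ) = t - 3 * (⌊t / 3⌋ : ℤ) := by push_cast; ring
  rw [e2]
  norm_num

lemma F_zero : F 0 = 0 := by
  have h1 := F_neg 0
  rw [neg_zero] at h1
  ext i
  have := congrFun h1 i
  simp only [Pi.neg_apply, Pi.zero_apply] at this ⊢
  linarith

lemma ga_nonconst : ga 1 ≠ ga 0 := by
  intro hc
  have e1 : ⌊(1 : ℝ) / 3⌋ = 0 := by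
    rw [Int.floor_eq_iff]; norm_num
  have e0 : ⌊(0 : ℝ) / 3⌋ = 0 := by
    rw [Int.floor_eq_iff]; norm_num
  have := congrFun hc 1
  unfold ga at this
  rw [e1, e0] at this
  simp [g0, y0] at this
  rw [w_left (t := 1) (by norm_num), w_left (t := 0) (by norm_num)] at this
  have h1 := E_pos 1
  simp at this
  exact absurd this h1.ne'

/-- There is a C^∞ vector field F on R^3 with F(0)=0, all complex eigenvalues of its Jacobian at every point having negative real part, and a non-constant periodic solution of x' = F(x). -/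
theorem result :
    ∃ F : (Fin 3 → ℝ) → (Fin 3 → ℝ),
      ContDiff ℝ ∞ F ∧ F 0 = 0 ∧
      (∀ (x : Fin 3 → ℝ) (z : ℂ),
        Polynomial.aeval z
            (LinearMap.toMatrix' (fderiv ℝ F x).toLinearMap).charpoly = 0 →
          z.re < 0) ∧
      ∃ γ : ℝ → (Fin 3 → ℝ), ∃ T : ℝ, 0 < T ∧
        (∀ t : ℝ, HasDerivAt γ (F (γ t)) t) ∧
        (∀ t : ℝ, γ (t + T) = γ t) ∧
        ∃ t : ℝ, γ t ≠ γ 0 :=
  ⟨F, F_smooth, F_zero, eig, ga, 6, by norm_num, ga_hasDeriv, ga_periodic, 1, ga_nonconst⟩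

end Pool.Agent.S03743
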