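import Pool.Statements.S03750

set_option autoImplicit false
open Filter Topology
open Pool Pool.MP_a2b00d_an

section
open Filter Topology
open scoped ENNReal InnerProductSpace
namespace Pool.Agent.S03750.Kap

/-- The Hilbert space of square summable functions. -/
noncomputable abbrev H (G : Type) := lp (fun _ : G => ℂ) 2

variable {G : Type}

theorem two_pos' : 0 < (2 : ℝ≥0∞).toReal := by norm_num

theorem memH_iff (f : G → ℂ) : Memℓp f 2 ↔ Summable (fun x => ‖f x‖ ^ 2) := by
  rw [memℓp_gen_iff two_pos']
  norm_num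

theorem norm_sq (f : H G) : ‖f‖ ^ 2 = ∑' x, ‖f x‖ ^ 2 := by
  have := lp.norm_rpow_eq_tsum two_pos' f
  norm_num at this
  exact this

/-- Composition with a permutation, a linear isometry. -/
noncomputable def tr (σ : Equiv.Perm G) : H G →ₗᵢ[ℂ] H G where
  toFun f := ⟨fun x => f (σ x), by
    have h := (memH_iff _).1 (lp.memℓp f)
    exact (memH_iff _).2 ((σ.summable_iff (f := fun x => ‖f x‖ ^ 2)).2 h)⟩
  map_add' f g := by ext x; rfl
  map_smul' c f := by ext x; rfl
  norm_map' f := by
    have h : ∀ g : H G, ‖g‖ = Real.sqrt (∑' x, ‖g x‖ ^ 2) := fun g => by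
      rw [← norm_sq, Real.sqrt_sq (norm_nonneg _)]
    rw [h, h]
    congr 1
    exact σ.tsum_eq (fun x => ‖f x‖ ^ 2)

@[simp] theorem tr_apply (σ : Equiv.Perm G) (f : H G) (x : G) : tr σ f x = f (σ x) := rfl

theorem tr_inner (σ : Equiv.Perm G) (f g : H G) : ⟪tr σ f, tr σ g⟫_ℂ = ⟪f, g⟫_ℂ :=
  (tr σ).inner_map_map f g

variable [Group G]

/-- Left convolution by an absolutely summable function, on square summable functions. -/
noncomputable def conv (b : G → ℂ) : H G →L[ℂ] H G :=
  ∑' g, b g • (tr (Equiv.mulLeft g⁻¹)).toContinuousLinearMap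

/-- Right convolution. -/
noncomputable def rconv (b : G → ℂ) (k : H G) : H G :=
  ∑' g, b g • (tr (Equiv.mulRight g⁻¹) k)

omit [Group G] in
theorem norm_tr_le (σ : Equiv.Perm G) :
    ‖(tr σ).toContinuousLinearMap‖ ≤ 1 := LinearIsometry.norm_toContinuousLinearMap_le _

theorem summable_conv {b : G → ℂ} (hb : Summable fun g => ‖b g‖) :
    Summable fun g => b g • (tr (Equiv.mulLeft g⁻¹)).toContinuousLinearMap := by
  refine Summable.of_norm_bounded hb (fun g => ?_)
  rw [norm_smul]
  exact mul_le_of_le_one_right (norm_nonneg _) (norm_tr_le _)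

theorem conv_apply {b : G → ℂ} (hb : Summable fun g => ‖b g‖) (f : H G) (x : G) :
    conv b f x = ∑' g, b g * f (g⁻¹ * x) := by
  have h1 : HasSum (fun g => b g • (tr (Equiv.mulLeft g⁻¹)).toContinuousLinearMap) (conv b) :=
    (summable_conv hb).hasSum
  have h2 := h1.mapL ((lp.evalCLM ℂ (fun _ : G => ℂ) 2 x).comp
    (ContinuousLinearMap.apply ℂ (H G) f))
  exact h2.tsum_eq.symm

theorem summable_rconv {b : G → ℂ} (hb : Summable fun g => ‖b g‖) (k : H G) :
    Summable fun g => b g • (tr (Equiv.mulRight g⁻¹) k) := by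
  refine Summable.of_norm_bounded (g := fun g => ‖b g‖ * ‖k‖) (hb.mul_right _) (fun g => ?_)
  rw [norm_smul, (tr _).norm_map]

theorem rconv_apply {b : G → ℂ} (hb : Summable fun g => ‖b g‖) (k : H G) (x : G) :
    rconv b k x = ∑' g, b g * k (x * g⁻¹) := by
  have h1 : HasSum (fun g => b g • (tr (Equiv.mulRight g⁻¹) k)) (rconv b k) :=
    (summable_rconv hb k).hasSum
  have h2 := h1.mapL (lp.evalCLM ℂ (fun _ : G => ℂ) 2 x)
  exact h2.tsum_eq.symm

/-- The delta function. -/
noncomputable def del [DecidableEq G] (x : G) : H G := lp.single 2 x 1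

theorem conv_rtr {b : G → ℂ} (hb : Summable fun g => ‖b g‖) (h : G) (f : H G) :
    conv b (tr (Equiv.mulRight h) f) = tr (Equiv.mulRight h) (conv b f) := by
  ext x
  rw [conv_apply hb, tr_apply, conv_apply hb]
  simp [mul_assoc]


/-- Kernel of left convolution. -/
noncomputable def N (b : G → ℂ) : Submodule ℂ (H G) := LinearMap.ker (conv b).toLinearMap

theorem mem_N (b : G → ℂ) (f : H G) : f ∈ N b ↔ conv b f = 0 := by
  simp [N]

theorem N_closed (b : G → ℂ) : IsClosed (N b : Set (H G)) := by
  have : (N b : Set (H G)) = (conv b) ⁻¹' {0} := by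
    ext f; simp [N]
  rw [this]
  exact isClosed_singleton.preimage (conv b).continuous

instance (b : G → ℂ) : CompleteSpace (N b) := (N_closed b).completeSpace_coe

theorem N_inv {b : G → ℂ} (hb : Summable fun g => ‖b g‖) (h : G) {f : H G} (hf : f ∈ N b) :
    tr (Equiv.mulRight h) f ∈ N b := by
  rw [mem_N] at hf ⊢
  rw [conv_rtr hb, hf, map_zero]

omit [Group G] in
theorem tr_tr_symm (σ : Equiv.Perm G) (f : H G) : tr σ (tr σ.symm f) = f := by
  ext x; simp

theorem Nperp_inv {b : G → ℂ} (hb : Summable fun g => ‖b g‖) (h : G) {f : H G}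
    (hf : f ∈ (N b)ᗮ) : tr (Equiv.mulRight h) f ∈ (N b)ᗮ := by
  rw [Submodule.mem_orthogonal] at hf ⊢
  intro u hu
  have h1 : u = tr (Equiv.mulRight h) (tr (Equiv.mulRight h).symm u) := (tr_tr_symm _ _).symm
  rw [h1, tr_inner]
  apply hf
  have h2 := N_inv hb h⁻¹ hu
  have h3 : (Equiv.mulRight h).symm = Equiv.mulRight h⁻¹ := by ext; simp
  rw [h3]
  exact h2

theorem rconv_mem {b : G → ℂ} (hb : Summable fun g => ‖b g‖) {k : H G} (hk : k ∈ (N b)ᗮ) :
    rconv b k ∈ (N b)ᗮ := by
  have h1 : HasSum (fun g => b g • (tr (Equiv.mulRight g⁻¹) k)) (rconv b k) :=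
    (summable_rconv hb k).hasSum
  refine (N b).isClosed_orthogonal.mem_of_tendsto h1 (Eventually.of_forall fun s => ?_)
  exact Submodule.sum_mem _ fun g _ => Submodule.smul_mem _ _ (Nperp_inv hb _ hk)

theorem conv_rconv {b : G → ℂ} (hb : Summable fun g => ‖b g‖) (k : H G) :
    conv b (rconv b k) = rconv b (conv b k) := by
  have h1 : HasSum (fun g => b g • (tr (Equiv.mulRight g⁻¹) k)) (rconv b k) :=
    (summable_rconv hb k).hasSum
  have h2 := h1.mapL (conv b)
  rw [← h2.tsum_eq]
  unfold rconv
  congr 1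
  ext g
  rw [map_smul, conv_rtr hb]

variable [DecidableEq G]

theorem kaplansky {b : G → ℂ} (hb : Summable fun g => ‖b g‖) (k : H G)
    (hk : conv b k = lp.single 2 1 1) (n : H G) (hn : conv b n = 0) : n = 0 := by
  set δ : H G := lp.single 2 1 1 with hδ
  -- replace k by its projection on the orthogonal complement of the kernel
  obtain ⟨k', hk'1, hk'2⟩ : ∃ k' : H G, k' ∈ (N b)ᗮ ∧ conv b k' = δ := by
    refine ⟨k - (N b).starProjection k, ?_, ?_⟩
    · exact Submodule.sub_starProjection_mem_orthogonal k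
    · have : conv b ((N b).starProjection k) = 0 := by
        rw [← mem_N]
        exact Submodule.starProjection_apply_mem _ _
      rw [map_sub, this, sub_zero, hk]
  have hu := rconv_mem hb hk'1
  set u := rconv b k' with hudef
  have h1 : conv b u = conv b δ := by
    rw [hudef, conv_rconv hb, hk'2]
    ext x
    rw [rconv_apply hb, conv_apply hb]
    rw [tsum_eq_single x, tsum_eq_single x]
    · simp [hδ]
    · intro g hg
      have : g⁻¹ * x ≠ 1 := fun h => hg (by rw [inv_mul_eq_one] at h; exact h)
      simp [hδ, this]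
    · intro g hg
      have : x * g⁻¹ ≠ 1 := fun h => hg (by rw [mul_inv_eq_one] at h; exact h.symm)
      simp [hδ, this]
  have h2 : δ - u ∈ N b := by
    rw [mem_N, map_sub, h1, sub_self]
  have h3 : u 1 = 1 := by
    have h4 : conv b k' 1 = 1 := by rw [hk'2]; simp [hδ]
    rw [← h4, hudef, rconv_apply hb, conv_apply hb]
    simp
  -- the component of δ in the kernel vanishes
  have h5 : δ - u = 0 := by
    have h6 : ⟪δ - u, u⟫_ℂ = 0 := (Submodule.mem_orthogonal _ _).1 hu _ h2
    have h7 : ⟪δ, u⟫_ℂ = 1 := by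
      rw [hδ, lp.inner_single_left]; simp [h3]
    have h8 : ⟪δ, δ⟫_ℂ = 1 := by
      rw [hδ, lp.inner_single_left]; simp
    have h9 : ⟪δ - u, δ⟫_ℂ = 0 := by
      have h10 : ⟪u, δ⟫_ℂ = 1 := by
        rw [← inner_conj_symm, h7]; simp
      rw [inner_sub_left, h8, h10, sub_self]
    have : ⟪δ - u, δ - u⟫_ℂ = 0 := by
      rw [inner_sub_right, h9, h6, sub_self]
    exact inner_self_eq_zero.1 this
  have h6 : δ ∈ (N b)ᗮ := by
    have : δ = u := sub_eq_zero.1 h5
    rw [this]; exact hu
  ext g
  have h7 : tr (Equiv.mulRight g⁻¹) δ ∈ (N b)ᗮ := Nperp_inv hb _ h6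
  have h8 : ⟪n, tr (Equiv.mulRight g⁻¹) δ⟫_ℂ = 0 :=
    (Submodule.mem_orthogonal _ _).1 h7 _ ((mem_N _ _).2 hn)
  have h9 : tr (Equiv.mulRight g⁻¹) δ = lp.single 2 g 1 := by
    ext x
    rw [tr_apply]
    by_cases hx : x = g
    · subst hx; simp [hδ]
    · have : x * g⁻¹ ≠ 1 := fun h => hx (by rw [mul_inv_eq_one] at h; exact h)
      simp [hδ, this, hx]
  rw [h9, lp.inner_single_right] at h8
  simpa using h8

end Pool.Agent.S03750.Kap
end

section
open Filter Topology
namespace Pool.Agent.S03750.Tree

/-- Averaging over two disjoint injective child maps: a nonnegative function vanishing at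
infinity with summable outward differences is summable. -/
theorem summable_of_children {G : Type} (K : G → ℝ) (hK : ∀ g, 0 ≤ K g)
    (hfin : ∀ T : ℝ, 0 < T → {g | T < K g}.Finite) (φ ψ : G → G)
    (hinj : Function.Injective (Sum.elim φ ψ))
    (h1 : Summable fun g => |K g - K (φ g)|) (h2 : Summable fun g => |K g - K (ψ g)|) :
    Summable K := by
  set A : ℝ := (∑' g, |K g - K (φ g)|) + ∑' g, |K g - K (ψ g)| with hA
  have key : ∀ T : ℝ, 0 < T → ∑' g, max (K g - T) 0 ≤ A := by
    intro T hT
    set L : G → ℝ := fun g => max (K g - T) 0 with hL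
    have hL0 : ∀ g, 0 ≤ L g := fun g => le_max_right _ _
    have hLs : Summable L := by
      refine summable_of_hasFiniteSupport ((hfin T hT).subset ?_)
      intro g hg
      by_contra hcon
      apply hg
      simp only [Set.mem_ofPred_eq, not_lt] at hcon
      simp only [hL]
      exact max_eq_right (by linarith)
    have hLip : ∀ g g', L g ≤ L g' + |K g - K g'| := by
      intro g g'
      simp only [hL]
      apply max_le
      · have := le_abs_self (K g - K g')
        have := le_max_left (K g' - T) 0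
        linarith
      · have := abs_nonneg (K g - K g')
        have := le_max_right (K g' - T) 0
        linarith
    have hφi : Function.Injective φ := fun x y h => by
      have := @hinj (Sum.inl x) (Sum.inl y) (by simpa using h)
      simpa using this
    have hψi : Function.Injective ψ := fun x y h => by
      have := @hinj (Sum.inr x) (Sum.inr y) (by simpa using h)
      simpa using this
    have hφs : Summable fun g => L (φ g) := hLs.comp_injective hφi
    have hψs : Summable fun g => L (ψ g) := hLs.comp_injective hψi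
    have hsum : (∑' g, L (φ g)) + ∑' g, L (ψ g) ≤ ∑' g, L g := by
      have h3 : Summable (fun s => L (Sum.elim φ ψ s)) := hLs.comp_injective hinj
      have h4 : ∑' s, L (Sum.elim φ ψ s) = (∑' g, L (φ g)) + ∑' g, L (ψ g) := by
        exact Summable.tsum_sum (f := fun s => L (Sum.elim φ ψ s)) hφs hψs
      rw [← h4]
      exact tsum_comp_le_tsum_of_inj hLs hL0 hinj
    have e1 : ∑' g, L g ≤ ∑' g, (L (φ g) + |K g - K (φ g)|) :=
      hLs.tsum_le_tsum (fun g => hLip _ _) (hφs.add h1)
    have e2 : ∑' g, L g ≤ ∑' g, (L (ψ g) + |K g - K (ψ g)|) :=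
      hLs.tsum_le_tsum (fun g => hLip _ _) (hψs.add h2)
    rw [hφs.tsum_add h1] at e1
    rw [hψs.tsum_add h2] at e2
    linarith
  refine summable_of_sum_le (c := A) hK (fun s => ?_)
  refine le_of_forall_pos_le_add (fun ε hε => ?_)
  set T : ℝ := ε / (s.card + 1) with hT
  have hTpos : 0 < T := by positivity
  have hLs : Summable (fun g => max (K g - T) 0) := by
    refine summable_of_hasFiniteSupport ((hfin T hTpos).subset ?_)
    intro g hg
    by_contra hcon
    apply hg
    simp only [Set.mem_ofPred_eq, not_lt] at hcon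
    exact max_eq_right (by linarith)
  have h3 : ∑ g ∈ s, K g ≤ ∑ g ∈ s, (max (K g - T) 0 + T) := by
    apply Finset.sum_le_sum
    intro g _
    have := le_max_left (K g - T) 0
    linarith
  have h4 : ∑ g ∈ s, max (K g - T) 0 ≤ ∑' g, max (K g - T) 0 :=
    hLs.sum_le_tsum s (fun _ _ => le_max_right _ _)
  have h5 : (s.card : ℝ) * T ≤ ε := by
    rw [hT, mul_div_assoc', div_le_iff₀ (by positivity)]
    nlinarith
  calc ∑ g ∈ s, K g ≤ ∑ g ∈ s, (max (K g - T) 0 + T) := h3
    _ = ∑ g ∈ s, max (K g - T) 0 + s.card * T := by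
      rw [Finset.sum_add_distrib, Finset.sum_const, nsmul_eq_mul]
    _ ≤ A + ε := by linarith [key T hTpos]

variable {α : Type} [DecidableEq α]

open FreeGroup

/-- The child of g in direction i. -/
def child (i : α) (g : FreeGroup α) : FreeGroup α :=
  if g.toWord.getLast? = some (i, false) then g * (of i)⁻¹ else g * of i

theorem toWord_mul_letter (g : FreeGroup α) (l : α × Bool)
    (h : ∀ a ∈ g.toWord.getLast?, a.1 = l.1 → a.2 = l.2) :
    (g * mk [l]).toWord = g.toWord ++ [l] := by
  rw [toWord_mul, toWord_mk, reduce_singleton]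
  apply IsReduced.reduce_eq
  unfold FreeGroup.IsReduced
  rw [List.isChain_append]
  refine ⟨isReduced_toWord, List.isChain_singleton _, ?_⟩
  intro x hx y hy
  simp at hy
  subst hy
  exact h x hx

theorem toWord_child (i : α) (g : FreeGroup α) :
    ∃ s : Bool, (child i g).toWord = g.toWord ++ [(i, s)] := by
  unfold child
  split_ifs with h
  · refine ⟨false, ?_⟩
    have : (of i)⁻¹ = mk [(i, false)] := rfl
    rw [this]
    apply toWord_mul_letter
    intro a ha h1
    rw [h] at ha
    simp at ha
    rw [← ha]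
  · refine ⟨true, ?_⟩
    have : (of i) = mk [(i, true)] := rfl
    rw [this]
    apply toWord_mul_letter
    intro a ha h1
    by_contra h2
    apply h
    rw [Option.mem_def] at ha
    rw [ha]
    have : a = (i, false) := Prod.ext h1 (by simpa using h2)
    rw [this]

theorem child_injective {i j : α} (hij : i ≠ j) :
    Function.Injective (Sum.elim (child i) (child j)) := by
  have main : ∀ (a b : α) (g h : FreeGroup α), child a g = child b h → a = b ∧ g = h := by
    intro a b g h hgh
    obtain ⟨s, hs⟩ := toWord_child a g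
    obtain ⟨t, ht⟩ := toWord_child b h
    rw [hgh, ht] at hs
    have h1 := List.append_inj' hs rfl
    have h2 : h = g := toWord_injective h1.1
    have h3 : (b, t) = (a, s) := by simpa using h1.2
    exact ⟨(congrArg Prod.fst h3).symm, h2.symm⟩
  rintro (g | g) (h | h) hgh
  · simp only [Sum.elim_inl] at hgh
    rw [(main _ _ _ _ hgh).2]
  · simp only [Sum.elim_inl, Sum.elim_inr] at hgh
    exact absurd (main _ _ _ _ hgh).1 hij
  · simp only [Sum.elim_inl, Sum.elim_inr] at hgh
    exact absurd (main _ _ _ _ hgh).1 hij.symm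
  · simp only [Sum.elim_inr] at hgh
    rw [(main _ _ _ _ hgh).2]

theorem summable_child {K : FreeGroup α → ℝ} {i : α}
    (h : Summable fun g => |K (g * (of i)⁻¹) - K g|) :
    Summable fun g => |K g - K (child i g)| := by
  have h' : Summable fun g => |K g - K (g * of i)| := by
    have := (Equiv.mulRight (of i)).summable_iff.2 h
    simpa [Function.comp_def] using this
  refine Summable.of_nonneg_of_le (fun _ => abs_nonneg _) (fun g => ?_) (h'.add h)
  unfold child
  split_ifs
  · rw [abs_sub_comm]
    have := abs_nonneg (K g - K (g * of i))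
    linarith
  · have := abs_nonneg (K (g * (of i)⁻¹) - K g)
    linarith

/-- The letter weights. -/
def wt (i j : α) (A B : ℂ) (l : α × Bool) : ℂ :=
  if l = (i, true) then A else if l = (j, true) then B else 0

/-- The Green type function of the positive walk. -/
def Gr (i j : α) (A B : ℂ) (g : FreeGroup α) : ℂ := (g.toWord.map (wt i j A B)).prod

theorem toWord_inv_of_mul (i : α) (g : FreeGroup α) :
    ((of i)⁻¹ * g).toWord = if g.toWord.head? = some (i, true) then g.toWord.tail
      else (i, false) :: g.toWord := by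
  have h1 : (of i)⁻¹ = mk [(i, false)] := rfl
  rw [h1, toWord_mul, toWord_mk, reduce_singleton, List.singleton_append, reduce.cons,
    reduce_toWord]
  cases h : g.toWord with
  | nil => simp
  | cons hd tl =>
    obtain ⟨c, s⟩ := hd
    simp only [List.head?_cons, List.tail_cons, Option.some.injEq, Prod.mk.injEq]
    by_cases h2 : c = i
    · subst h2
      cases s <;> simp
    · have h3 : ¬ i = c := fun h => h2 h.symm
      simp [h2, h3]

theorem Gr_eq {i j : α} (hij : i ≠ j) (A B : ℂ) (g : FreeGroup α) :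
    Gr i j A B g - A * Gr i j A B ((of i)⁻¹ * g) - B * Gr i j A B ((of j)⁻¹ * g) =
      if g = 1 then 1 else 0 := by
  unfold Gr
  rw [toWord_inv_of_mul, toWord_inv_of_mul]
  cases h : g.toWord with
  | nil =>
    have : g = 1 := toWord_eq_nil_iff.1 h
    simp [this, wt]
  | cons hd tl =>
    have hg : g ≠ 1 := fun h0 => by
      rw [h0, toWord_one] at h
      exact absurd h (by simp)
    obtain ⟨c, s⟩ := hd
    simp only [List.head?_cons, List.tail_cons, Option.some.injEq, if_neg hg]
    by_cases h2 : ((c, s) : α × Bool) = (i, true)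
    · have h3 : ¬ ((c, s) : α × Bool) = (j, true) := by
        rw [h2]
        intro h4
        exact hij (congrArg Prod.fst h4)
      rw [if_pos h2, if_neg h3]
      simp [wt, h2]
    · by_cases h3 : ((c, s) : α × Bool) = (j, true)
      · rw [if_neg h2, if_pos h3]
        simp [wt, h3, hij.symm]
      · rw [if_neg h2, if_neg h3]
        simp [wt, h2, h3]

theorem summable_list {p : Bool → ℝ} (hp : ∀ b, 0 ≤ p b) (h : p true + p false < 1) :
    Summable fun l : List Bool => (l.map p).prod := by
  rw [← (List.equivSigmaTuple (α := Bool)).symm.summable_iff]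
  have h0 : ((fun l : List Bool => (l.map p).prod) ∘ (List.equivSigmaTuple (α := Bool)).symm) =
      fun x : (Σ n, Fin n → Bool) => ∏ i, p (x.2 i) := by
    ext x
    obtain ⟨n, f⟩ := x
    simp [List.equivSigmaTuple, List.map_ofFn, List.prod_ofFn]
  rw [h0, summable_sigma_of_nonneg (fun x => Finset.prod_nonneg fun i _ => hp _)]
  refine ⟨fun n => (hasSum_fintype _).summable, ?_⟩
  have h1 : ∀ n : ℕ, ∑' f : Fin n → Bool, ∏ i, p (f i) = (p true + p false) ^ n := by
    intro n
    rw [tsum_fintype, ← Fintype.sum_bool, Fintype.sum_pow]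
  simp_rw [h1]
  exact summable_geometric_of_lt_one (add_nonneg (hp _) (hp _)) h

theorem summable_Gr {i j : α} (hij : i ≠ j) {A B : ℂ} (h : ‖A‖ ^ 2 + ‖B‖ ^ 2 < 1) :
    Summable fun g => ‖Gr i j A B g‖ ^ 2 := by
  have h1 : (fun g => ‖Gr i j A B g‖ ^ 2) =
      (fun l : List (α × Bool) => (l.map fun x => ‖wt i j A B x‖ ^ 2).prod) ∘ toWord := by
    ext g
    simp only [Gr, Function.comp]
    induction g.toWord with
    | nil => simp
    | cons hd tl ih =>
      simp only [List.map_cons, List.prod_cons, norm_mul, mul_pow, ih]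
  rw [h1]
  apply Summable.comp_injective _ toWord_injective
  set ι : Bool → α × Bool := fun b => if b then (i, true) else (j, true) with hι
  have hιi : Function.Injective ι := by
    intro a b hab
    cases a <;> cases b <;> simp [hι, hij, hij.symm] at hab ⊢
  rw [← (List.map_injective_iff.2 hιi).summable_iff]
  · have : ((fun l : List (α × Bool) => (l.map fun x => ‖wt i j A B x‖ ^ 2).prod) ∘ List.map ι) =
        fun l : List Bool => (l.map fun b => if b then ‖A‖ ^ 2 else ‖B‖ ^ 2).prod := by
      ext l
      simp only [Function.comp, List.map_map]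
      congr 1
      apply List.map_congr_left
      intro b _
      cases b
      · simp [hι, wt, hij.symm]
      · simp [hι, wt]
    rw [this]
    apply summable_list
    · intro b; split_ifs <;> positivity
    · simpa using h
  · intro l hl
    have : ∃ x ∈ l, ¬ (x ∈ Set.range ι) := by
      by_contra hcon
      push Not at hcon
      apply hl
      have h2 : l ∈ Set.range (List.map ι) := by
        rw [Set.range_list_map]
        exact hcon
      exact h2
    obtain ⟨x, hx, hx2⟩ := this
    apply List.prod_eq_zero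
    rw [List.mem_map]
    refine ⟨x, hx, ?_⟩
    have h3 : x ≠ (i, true) := fun h => hx2 ⟨true, by simp [hι, h]⟩
    have h4 : x ≠ (j, true) := fun h => hx2 ⟨false, by simp [hι, h]⟩
    simp [wt, h3, h4]

end Pool.Agent.S03750.Tree
end

section
open Filter Topology
namespace Pool.Agent.S03750.Main
open Pool.Agent.S03750.Kap Pool.Agent.S03750.Tree

variable {G : Type} [Group G]

/-- Convolution of functions. -/
noncomputable def cv (m S : G → ℂ) : G → ℂ := fun u => ∑' h, m h * S (h⁻¹ * u)

/-- The shear (g, u) to (g, g inverse u). -/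
def shear (G : Type) [Group G] : G × G ≃ G × G where
  toFun p := (p.1, p.1⁻¹ * p.2)
  invFun p := (p.1, p.1 * p.2)
  left_inv p := by simp
  right_inv p := by simp

omit [Group G] in
theorem summable_prod {m S : G → ℂ} (hm : Summable fun g => ‖m g‖) (hS : Summable fun g => ‖S g‖) :
    Summable fun p : G × G => ‖m p.1‖ * ‖S p.2‖ :=
  hm.mul_of_nonneg hS (fun _ => norm_nonneg _) (fun _ => norm_nonneg _)

theorem summable_cv {m S : G → ℂ} (hm : Summable fun g => ‖m g‖) (hS : Summable fun g => ‖S g‖) :
    Summable fun u => ‖cv m S u‖ := by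
  have h1 : Summable fun p : G × G => ‖m p.1‖ * ‖S (p.1⁻¹ * p.2)‖ := by
    have := (shear G).summable_iff.2 (summable_prod hm hS)
    exact this
  have h2 : Summable fun p : G × G => ‖m p.2‖ * ‖S (p.2⁻¹ * p.1)‖ := by
    have := (Equiv.prodComm G G).summable_iff.2 h1
    exact this
  have h3 := h2.prod
  refine Summable.of_nonneg_of_le (fun _ => norm_nonneg _) (fun u => ?_) h3
  have h4 : Summable fun h => ‖m h‖ * ‖S (h⁻¹ * u)‖ := h2.prod_factor u
  have h5 : Summable fun h => ‖m h * S (h⁻¹ * u)‖ := by
    simpa only [norm_mul] using h4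
  refine (norm_tsum_le_tsum_norm h5).trans (le_of_eq ?_)
  simp only [norm_mul]

theorem tsum_cv {m S : G → ℂ} (hm : Summable fun g => ‖m g‖) (hS : Summable fun g => ‖S g‖) :
    ∑' u, cv m S u = (∑' g, m g) * ∑' g, S g := by
  have h1 : Summable fun p : G × G => m p.1 * S (p.1⁻¹ * p.2) := by
    have := (shear G).summable_iff.2 (summable_prod hm hS)
    refine Summable.of_norm ?_
    simp only [norm_mul]
    exact this
  have h2 : ∑' u, ∑' h, m h * S (h⁻¹ * u) = ∑' h, ∑' u, m h * S (h⁻¹ * u) := by
    exact Summable.tsum_comm (f := fun h u => m h * S (h⁻¹ * u)) h1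
  unfold cv
  rw [h2]
  have h3 : ∀ h, ∑' u, m h * S (h⁻¹ * u) = m h * ∑' g, S g := by
    intro h
    rw [tsum_mul_left]
    congr 1
    exact (Equiv.mulLeft h⁻¹).tsum_eq S
  simp_rw [h3]
  rw [tsum_mul_right]

theorem conv_conv {m S : G → ℂ} (hm : Summable fun g => ‖m g‖) (hS : Summable fun g => ‖S g‖)
    (f : H G) : conv m (conv S f) = conv (cv m S) f := by
  ext t
  rw [conv_apply hm, conv_apply (summable_cv hm hS)]
  simp_rw [conv_apply hS]
  have h0 : Summable fun p : G × G => m p.1 * (S p.2 * f (p.2⁻¹ * (p.1⁻¹ * t))) := by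
    refine Summable.of_norm_bounded (g := fun p : G × G => (‖m p.1‖ * ‖S p.2‖) * ‖f‖)
      ((summable_prod hm hS).mul_right _) (fun p => ?_)
    rw [norm_mul, norm_mul, mul_assoc]
    have := lp.norm_apply_le_norm (p := 2) (by norm_num) f (p.2⁻¹ * (p.1⁻¹ * t))
    gcongr
  have h1 : Summable fun p : G × G => m p.1 * (S (p.1⁻¹ * p.2) * f (p.2⁻¹ * t)) := by
    have := (shear G).summable_iff.2 h0
    refine this.congr (fun p => ?_)
    simp only [Function.comp, shear, Equiv.coe_fn_mk, mul_inv_rev, inv_inv, mul_assoc,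
      mul_inv_cancel_left]
  calc ∑' g, m g * ∑' h, S h * f (h⁻¹ * (g⁻¹ * t))
      = ∑' g, ∑' h, m g * (S h * f (h⁻¹ * (g⁻¹ * t))) := by
        congr 1; ext g; rw [tsum_mul_left]
    _ = ∑' g, ∑' u, m g * (S (g⁻¹ * u) * f (u⁻¹ * t)) := by
        congr 1; ext g
        rw [← (Equiv.mulLeft g⁻¹).tsum_eq (fun h => m g * (S h * f (h⁻¹ * (g⁻¹ * t))))]
        congr 1; ext u
        simp only [Equiv.coe_mulLeft, mul_inv_rev, inv_inv, mul_assoc, mul_inv_cancel_left]
    _ = ∑' u, ∑' g, m g * (S (g⁻¹ * u) * f (u⁻¹ * t)) :=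
        (Summable.tsum_comm (f := fun g u => m g * (S (g⁻¹ * u) * f (u⁻¹ * t))) h1).symm
    _ = ∑' u, cv m S u * f (u⁻¹ * t) := by
        congr 1; ext u
        unfold cv
        rw [← tsum_mul_right]
        congr 1; ext g; ring

omit [Group G] in
theorem summable_sq_of_summable {f : G → ℂ} (hf : Summable fun g => ‖f g‖) : Memℓp f 2 := by
  have : Memℓp f 1 := by
    rw [memℓp_gen_iff (by norm_num)]
    simpa using hf
  exact this.of_exponent_ge (by norm_num)

open FreeGroup in
/-- Main lemma: no single element m of the augmentation ideal divides both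
differences i minus 1 and j minus 1. -/
theorem main_lemma {α : Type} [DecidableEq α] {i j : α} (hij : i ≠ j)
    (m f1 f2 : FreeGroup α → ℂ) (hm : Summable fun g => ‖m g‖) (hm0 : ∑' g, m g = 0)
    (hf1 : Summable fun g => ‖f1 g‖) (hf2 : Summable fun g => ‖f2 g‖)
    (h1 : ∀ g, cv m f1 g = (if g = of i then 1 else 0) - (if g = 1 then 1 else 0))
    (h2 : ∀ g, cv m f2 g = (if g = of j then 1 else 0) - (if g = 1 then 1 else 0)) : False := by
  have hG : ‖(1/2 : ℂ)‖ ^ 2 + ‖(1/2 : ℂ)‖ ^ 2 < 1 := by norm_num
  set Gh : H (FreeGroup α) := ⟨Gr i j (1/2) (1/2), (memH_iff _).2 (summable_Gr hij hG)⟩ with hGh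
  set S : FreeGroup α → ℂ := fun g => -(1/2) * (f1 g + f2 g) with hSdef
  have hS : Summable fun g => ‖S g‖ := by
    refine Summable.of_nonneg_of_le (fun _ => norm_nonneg _) (fun g => ?_) (hf1.add hf2)
    simp only [hSdef, norm_mul]
    have : ‖(-(1/2) : ℂ)‖ = 1/2 := by norm_num
    rw [this]
    have := norm_add_le (f1 g) (f2 g)
    have h3 := norm_nonneg (f1 g + f2 g)
    linarith
  have hsm : ∀ {f : FreeGroup α → ℂ}, (Summable fun g => ‖f g‖) → ∀ u,
      Summable fun h => m h * f (h⁻¹ * u) := by
    intro f hf u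
    have h3 : Summable fun p : FreeGroup α × FreeGroup α => ‖m p.1‖ * ‖f (p.1⁻¹ * p.2)‖ := by
      have := (shear (FreeGroup α)).summable_iff.2 (summable_prod hm hf)
      exact this
    have h4 := (((Equiv.prodComm _ _).summable_iff.2 h3).prod_factor u)
    refine Summable.of_norm (h4.congr fun h => ?_)
    simp
  have hcvS : ∀ g, cv m S g = (if g = 1 then 1 else 0) - (1/2) * (if g = of i then 1 else 0)
      - (1/2) * (if g = of j then 1 else 0) := by
    intro g
    have : cv m S g = -(1/2) * (cv m f1 g + cv m f2 g) := by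
      simp only [cv, hSdef]
      rw [← (hsm hf1 g).tsum_add (hsm hf2 g), ← tsum_mul_left]
      congr 1; ext h; ring
    rw [this, h1, h2]
    ring
  set k : H (FreeGroup α) := conv S Gh with hk
  have hkd : conv m k = lp.single 2 1 1 := by
    rw [hk, conv_conv hm hS]
    ext t
    rw [conv_apply (summable_cv hm hS)]
    have h3 : ∀ g, cv m S g * Gh (g⁻¹ * t) = (if g = 1 then Gh t else 0)
        - (if g = of i then (1/2) * Gh ((of i)⁻¹ * t) else 0)
        - (if g = of j then (1/2) * Gh ((of j)⁻¹ * t) else 0) := by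
      intro g
      rw [hcvS]
      have hi1 : of i ≠ 1 := of_ne_one i
      have hj1 : of j ≠ 1 := of_ne_one j
      have hij1 : of i ≠ of j := fun h => hij (of_injective h)
      by_cases ha : g = 1
      · subst ha; simp [hi1.symm, hj1.symm]
      · by_cases hb : g = of i
        · subst hb; simp [hi1, hij1]
        · by_cases hc : g = of j
          · subst hc; simp [hj1, hij1.symm]
          · simp [ha, hb, hc]
    simp_rw [h3]
    rw [Summable.tsum_sub, Summable.tsum_sub, tsum_ite_eq, tsum_ite_eq, tsum_ite_eq]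
    · have := Gr_eq hij (1/2) (1/2) t
      simp only [hGh]
      rw [this]
      by_cases ht : t = 1
      · subst ht; simp
      · simp [ht]
    · exact (hasSum_ite_eq _ _).summable
    · exact (hasSum_ite_eq _ _).summable
    · exact ((hasSum_ite_eq _ _).summable).sub (hasSum_ite_eq _ _).summable
    · exact (hasSum_ite_eq _ _).summable
  have hinj := kaplansky hm k hkd
  -- identify the right differences of k
  have hdiff : ∀ (c : α) (f : FreeGroup α → ℂ) (hf : Summable fun g => ‖f g‖)
      (_ : ∀ g, cv m f g = (if g = of c then 1 else 0) - (if g = 1 then 1 else 0)),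
      ∀ g, k (g * (of c)⁻¹) - k g = f g := by
    intro c f hf hcv g
    set fh : H (FreeGroup α) := ⟨f, summable_sq_of_summable hf⟩ with hfh
    have h3 : conv m (tr (Equiv.mulRight (of c)⁻¹) k - k - fh) = 0 := by
      rw [map_sub, map_sub, conv_rtr hm, hkd]
      ext t
      have h4 : conv m fh t = (if t = of c then 1 else 0) - (if t = 1 then 1 else 0) := by
        rw [conv_apply hm, ← hcv t]
        rfl
      have h5 : (tr (Equiv.mulRight (of c)⁻¹) (lp.single 2 1 1 : H (FreeGroup α))) t =
          if t = of c then 1 else 0 := by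
        rw [tr_apply]
        by_cases ht : t = of c
        · subst ht; simp
        · have : t * (of c)⁻¹ ≠ 1 := fun h => ht (by rwa [mul_inv_eq_one] at h)
          simp [ht, this]
      have h6 : (lp.single 2 1 1 : H (FreeGroup α)) t = if t = 1 then 1 else 0 := by
        by_cases ht : t = 1
        · subst ht; simp
        · simp [ht]
      simp only [lp.coeFn_sub, Pi.sub_apply, lp.coeFn_zero, Pi.zero_apply]
      rw [h4, h5, h6]
      ring
    have h7 := hinj _ h3
    have h8 := congrArg (fun F : H (FreeGroup α) => F g) h7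
    simp only [lp.coeFn_sub, Pi.sub_apply, lp.coeFn_zero, Pi.zero_apply, tr_apply,
      Equiv.coe_mulRight] at h8
    have h9 : fh g = f g := rfl
    rw [h9] at h8
    exact sub_eq_zero.1 h8
  have hK : ∀ (c : α) (f : FreeGroup α → ℂ) (hf : Summable fun g => ‖f g‖)
      (_ : ∀ g, k (g * (of c)⁻¹) - k g = f g),
      Summable fun g => |‖k (g * (of c)⁻¹)‖ - ‖k g‖| := by
    intro c f hf h
    refine Summable.of_nonneg_of_le (fun _ => abs_nonneg _) (fun g => ?_) hf
    rw [← h g]
    exact abs_norm_sub_norm_le _ _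
  have s1 := summable_child (K := fun g => ‖k g‖) (hK i f1 hf1 (hdiff i f1 hf1 h1))
  have s2 := summable_child (K := fun g => ‖k g‖) (hK j f2 hf2 (hdiff j f2 hf2 h2))
  have hksum : Summable fun g => ‖k g‖ := by
    refine summable_of_children (fun g => ‖k g‖) (fun _ => norm_nonneg _) ?_ (child i) (child j)
      (child_injective hij) s1 s2
    intro T hT
    have h3 : Summable (fun x => ‖k x‖ ^ 2) := (memH_iff _).1 (lp.memℓp k)
    have h4 := h3.tendsto_cofinite_zero
    have h5 := (h4.eventually (gt_mem_nhds (by positivity : (0:ℝ) < T ^ 2)))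
    rw [Filter.eventually_cofinite] at h5
    refine h5.subset ?_
    intro g hg
    simp only [Set.mem_ofPred_eq, not_lt] at hg ⊢
    gcongr
  have h3 := tsum_cv hm hksum
  rw [hm0, zero_mul] at h3
  have h4 : ∀ t, cv m (fun g => k g) t = if t = 1 then 1 else 0 := by
    intro t
    have h5 : cv m (fun g => k g) t = conv m k t := (conv_apply hm k t).symm
    rw [h5, hkd]
    by_cases ht : t = 1
    · subst ht; simp
    · simp [ht]
  simp_rw [h4] at h3
  rw [tsum_ite_eq] at h3
  exact one_ne_zero h3

end Pool.Agent.S03750.Main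
end

namespace Pool.Agent.S03750

/-- The negation of the preceding statement: Every ℓ¹-null sequence in the augmentation ideal of ℓ¹ of the countably generated free group factors as one ideal element a convolved with an ℓ¹-null sequence from the ideal. -/
theorem result :
    ¬ (∀ x : ℕ → FreeGroup ℕ → ℂ,
      (∀ n, Summable (fun g => ‖x n g‖) ∧ ∑' g, x n g = 0) →
      Tendsto (fun n => ∑' g, ‖x n g‖) atTop (𝓝 0) →
      ∃ a : FreeGroup ℕ → ℂ, Summable (fun g => ‖a g‖) ∧ ∑' g, a g = 0 ∧
        ∃ y : ℕ → FreeGroup ℕ → ℂ,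
          (∀ n, Summable (fun g => ‖y n g‖) ∧ ∑' g, y n g = 0) ∧
          Tendsto (fun n => ∑' g, ‖y n g‖) atTop (𝓝 0) ∧
          ∀ n g, x n g = ∑' h, a h * y n (h⁻¹ * g)) := by
  intro H
  set x : ℕ → FreeGroup ℕ → ℂ := fun n g => if n < 2 then
    (if g = FreeGroup.of n then 1 else 0) - (if g = 1 then 1 else 0) else 0 with hx
  have hd : ∀ c : FreeGroup ℕ, Summable (fun g : FreeGroup ℕ => if g = c then (1 : ℂ) else 0) :=
    fun c => (hasSum_ite_eq c 1).summable
  obtain ⟨a, ha, ha0, y, hy, -, hxy⟩ := H x (by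
    intro n
    by_cases hn : n < 2
    · have h1 : x n = fun g => (if g = FreeGroup.of n then 1 else 0) - (if g = 1 then 1 else 0) := by
        ext g; simp only [hx, if_pos hn]
      rw [h1]
      refine ⟨((hd _).norm.add (hd _).norm).of_nonneg_of_le (fun _ => norm_nonneg _)
        (fun g => norm_sub_le _ _), ?_⟩
      rw [(hd _).tsum_sub (hd _), tsum_ite_eq, tsum_ite_eq, sub_self]
    · have h1 : x n = fun g => 0 := by
        ext g; simp only [hx, if_neg hn]
      rw [h1]
      simp [summable_zero]) (by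
    refine tendsto_const_nhds.congr' ?_
    filter_upwards [eventually_ge_atTop 2] with n hn
    have hn' : ¬ n < 2 := by omega
    have h1 : x n = fun g => 0 := by
      ext g; simp only [hx, if_neg hn']
    rw [h1]
    simp)
  refine Pool.Agent.S03750.Main.main_lemma (α := ℕ) (i := 0) (j := 1) (by norm_num) a (y 0) (y 1)
    ha ha0 (hy 0).1 (hy 1).1 ?_ ?_
  · intro g
    have := hxy 0 g
    simp only [hx] at this
    unfold Pool.Agent.S03750.Main.cv
    rw [← this]
    simp
  · intro g
    have := hxy 1 g
    simp only [hx] at this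
    unfold Pool.Agent.S03750.Main.cv
    rw [← this]
    simp

end Pool.Agent.S03750
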