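import Pool.Statements.S03755
import Pool.Agent.Helper417.CubicNormal

set_option autoImplicit false
open Pool Pool.MP_a2f1b8_an

namespace Pool.Agent.S03755

/-- For every smooth plane cubic P(x,y,z)=0, there is a holomorphic map from {P≠0} in C^3 to C^2, invariant under scaling, with surjective derivative everywhere; that is, a holomorphic immersion of P^2 minus the cubic into C^2. -/
theorem result :
    ∀ P : MvPolynomial (Fin 3) ℂ, P.IsHomogeneous 3 →
      (∀ z : Fin 3 → ℂ, z ≠ 0 → MvPolynomial.eval z P = 0 →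
        ∃ i : Fin 3, MvPolynomial.eval z (MvPolynomial.pderiv i P) ≠ 0) →
      ∃ F : (Fin 3 → ℂ) → (Fin 2 → ℂ),
        DifferentiableOn ℂ F {z : Fin 3 → ℂ | MvPolynomial.eval z P ≠ 0} ∧
        (∀ z : Fin 3 → ℂ, MvPolynomial.eval z P ≠ 0 →
          ∀ c : ℂ, c ≠ 0 → F (c • z) = F z) ∧
        (∀ z : Fin 3 → ℂ, MvPolynomial.eval z P ≠ 0 →
          Function.Surjective (fderiv ℂ F z)) := by
  intro P hP hsm
  exact Pool.Agent.Helper417.CubicNormal.good_smooth P hP hsm

end Pool.Agent.S03755
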