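import Pool.Statements.S03761
import Pool.Agent.Helper873.Final

set_option autoImplicit false
open MeasureTheory
open Pool Pool.MP_a3494b_an

namespace Pool.Agent.S03761

/-- There is a bounded measurable function on the infinite torus with Haar measure whose Fourier coefficient at the exponent vector of n is 1 for n=1 and 1/(√n·log n) for n≥2, i.e. whose Riesz projection is the symbol φ₀. -/
theorem result :
    ∃ f : (ℕ → UnitAddCircle) → ℂ,
      MemLp f ⊤ (Measure.infinitePi (fun _ : ℕ => AddCircle.haarAddCircle (T := 1))) ∧
      (∫ x, f x ∂(Measure.infinitePi (fun _ : ℕ => AddCircle.haarAddCircle (T := 1)))) = 1 ∧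
      ∀ n : ℕ, 2 ≤ n →
        (∫ x, (∏ k ∈ Finset.range n,
            fourier (-((n.factorization (Nat.nth Nat.Prime k) : ℕ) : ℤ)) (x k)) * f x
          ∂(Measure.infinitePi (fun _ : ℕ => AddCircle.haarAddCircle (T := 1))))
          = (((Real.sqrt n * Real.log n)⁻¹ : ℝ) : ℂ) := by
  exact Pool.Agent.Helper873.Final.main

end Pool.Agent.S03761
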