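import Pool.Statements.S03769
import Pool.Agent.Helper287.MB.Fin

set_option autoImplicit false
open MeasureTheory
open Pool Pool.MP_a59212_an

namespace Pool.Agent.S03769

/-- For n ≥ 1, every closed Aut(B)-invariant subspace Y of C(closed ball) with Y∩C₀(B) neither 0 nor C₀(B) equals Y∩C₀(B) plus one of: 0, constants, ball algebra, its conjugates, continuous pluriharmonic, or continuous M-harmonic functions. -/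
theorem result :
  ∀ n : ℕ, 0 < n →
  ∀ Y : Submodule ℂ C({z : Fin n → ℂ // ∑ i, ‖z i‖ ^ 2 ≤ 1}, ℂ),
  IsClosed (Y : Set C({z : Fin n → ℂ // ∑ i, ‖z i‖ ^ 2 ≤ 1}, ℂ)) →
  (∀ φ : (Fin n → ℂ) → (Fin n → ℂ),
      ContinuousOn φ {z : Fin n → ℂ | ∑ i, ‖z i‖ ^ 2 ≤ 1} →
      (∀ z : Fin n → ℂ, ∑ i, ‖z i‖ ^ 2 ≤ 1 → ∑ i, ‖φ z i‖ ^ 2 ≤ 1) →
      DifferentiableOn ℂ φ {z : Fin n → ℂ | ∑ i, ‖z i‖ ^ 2 < 1} →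
      (∀ z : Fin n → ℂ, ∑ i, ‖z i‖ ^ 2 < 1 → ∑ i, ‖φ z i‖ ^ 2 < 1) →
      (∃ ψ : (Fin n → ℂ) → (Fin n → ℂ),
          DifferentiableOn ℂ ψ {z : Fin n → ℂ | ∑ i, ‖z i‖ ^ 2 < 1} ∧
          ∀ z : Fin n → ℂ, ∑ i, ‖z i‖ ^ 2 < 1 →
            ∑ i, ‖ψ z i‖ ^ 2 < 1 ∧ φ (ψ z) = z ∧ ψ (φ z) = z) →
      ∀ f ∈ Y, ∀ g : C({z : Fin n → ℂ // ∑ i, ‖z i‖ ^ 2 ≤ 1}, ℂ),
        (∀ x : {z : Fin n → ℂ // ∑ i, ‖z i‖ ^ 2 ≤ 1},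
          ∀ hx : ∑ i, ‖φ x.1 i‖ ^ 2 ≤ 1, g x = f ⟨φ x.1, hx⟩) → g ∈ Y) →
  (∃ f ∈ Y, f ≠ 0 ∧
      ∀ x : {z : Fin n → ℂ // ∑ i, ‖z i‖ ^ 2 ≤ 1}, ∑ i, ‖x.1 i‖ ^ 2 = 1 → f x = 0) →
  (∃ f : C({z : Fin n → ℂ // ∑ i, ‖z i‖ ^ 2 ≤ 1}, ℂ),
      (∀ x : {z : Fin n → ℂ // ∑ i, ‖z i‖ ^ 2 ≤ 1}, ∑ i, ‖x.1 i‖ ^ 2 = 1 → f x = 0) ∧
      f ∉ Y) →
  ∃ P : C({z : Fin n → ℂ // ∑ i, ‖z i‖ ^ 2 ≤ 1}, ℂ) → Prop,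
    (P = (fun h : C({z : Fin n → ℂ // ∑ i, ‖z i‖ ^ 2 ≤ 1}, ℂ) => h = 0) ∨
     P = (fun h : C({z : Fin n → ℂ // ∑ i, ‖z i‖ ^ 2 ≤ 1}, ℂ) =>
            ∃ c : ℂ, ∀ x : {z : Fin n → ℂ // ∑ i, ‖z i‖ ^ 2 ≤ 1}, h x = c) ∨
     P = (fun h : C({z : Fin n → ℂ // ∑ i, ‖z i‖ ^ 2 ≤ 1}, ℂ) =>
            ∃ F : (Fin n → ℂ) → ℂ,
              DifferentiableOn ℂ F {z : Fin n → ℂ | ∑ i, ‖z i‖ ^ 2 < 1} ∧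
              ∀ x : {z : Fin n → ℂ // ∑ i, ‖z i‖ ^ 2 ≤ 1},
                ∑ i, ‖x.1 i‖ ^ 2 < 1 → h x = F x.1) ∨
     P = (fun h : C({z : Fin n → ℂ // ∑ i, ‖z i‖ ^ 2 ≤ 1}, ℂ) =>
            ∃ F : (Fin n → ℂ) → ℂ,
              DifferentiableOn ℂ F {z : Fin n → ℂ | ∑ i, ‖z i‖ ^ 2 < 1} ∧
              ∀ x : {z : Fin n → ℂ // ∑ i, ‖z i‖ ^ 2 ≤ 1},
                ∑ i, ‖x.1 i‖ ^ 2 < 1 → h x = starRingEnd ℂ (F x.1)) ∨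
     P = (fun h : C({z : Fin n → ℂ // ∑ i, ‖z i‖ ^ 2 ≤ 1}, ℂ) =>
            ∃ F G : (Fin n → ℂ) → ℂ,
              DifferentiableOn ℂ F {z : Fin n → ℂ | ∑ i, ‖z i‖ ^ 2 < 1} ∧
              DifferentiableOn ℂ G {z : Fin n → ℂ | ∑ i, ‖z i‖ ^ 2 < 1} ∧
              ∀ x : {z : Fin n → ℂ // ∑ i, ‖z i‖ ^ 2 ≤ 1},
                ∑ i, ‖x.1 i‖ ^ 2 < 1 → h x = F x.1 + starRingEnd ℂ (G x.1)) ∨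
     P = (fun h : C({z : Fin n → ℂ // ∑ i, ‖z i‖ ^ 2 ≤ 1}, ℂ) =>
            ∀ F : (Fin n → ℂ) → ℂ,
              (∀ x : {z : Fin n → ℂ // ∑ i, ‖z i‖ ^ 2 ≤ 1}, F x.1 = h x) →
              ∀ ψ : (Fin n → ℂ) → (Fin n → ℂ),
                DifferentiableOn ℂ ψ {z : Fin n → ℂ | ∑ i, ‖z i‖ ^ 2 < 1} →
                (∀ z : Fin n → ℂ, ∑ i, ‖z i‖ ^ 2 < 1 → ∑ i, ‖ψ z i‖ ^ 2 < 1) →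
                (∃ χ : (Fin n → ℂ) → (Fin n → ℂ),
                    DifferentiableOn ℂ χ {z : Fin n → ℂ | ∑ i, ‖z i‖ ^ 2 < 1} ∧
                    ∀ z : Fin n → ℂ, ∑ i, ‖z i‖ ^ 2 < 1 →
                      ∑ i, ‖χ z i‖ ^ 2 < 1 ∧ ψ (χ z) = z ∧ χ (ψ z) = z) →
                ∀ r : ℝ, 0 < r → r < 1 →
                  ∫ z in {z : Fin n → ℂ | ∑ i, ‖z i‖ ^ 2 < r ^ 2}, F (ψ z) =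
                    (volume {z : Fin n → ℂ | ∑ i, ‖z i‖ ^ 2 < r ^ 2}).toReal • F (ψ 0))) ∧
    (∀ h : C({z : Fin n → ℂ // ∑ i, ‖z i‖ ^ 2 ≤ 1}, ℂ), P h → h ∈ Y) ∧
    ∀ f ∈ Y, ∃ g h : C({z : Fin n → ℂ // ∑ i, ‖z i‖ ^ 2 ≤ 1}, ℂ),
      g ∈ Y ∧
      (∀ x : {z : Fin n → ℂ // ∑ i, ‖z i‖ ^ 2 ≤ 1}, ∑ i, ‖x.1 i‖ ^ 2 = 1 → g x = 0) ∧
      P h ∧ f = g + h := by
  intro n hn Y hY hinv _ _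
  haveI : Nonempty (Fin n) := ⟨⟨0, hn⟩⟩
  exact Pool.Agent.Helper287.MB.final_aux n
    (PiLp.continuousLinearEquiv 2 ℂ (fun _ : Fin n => ℂ) : EuclideanSpace ℂ (Fin n) ≃L[ℂ] (Fin n → ℂ))
    (fun z => (EuclideanSpace.norm_sq_eq z).symm) Y hY hinv

end Pool.Agent.S03769
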