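import Pool.Statements.S03771
import Pool.Agent.Helper192.KP.F

set_option autoImplicit false
open Pool Pool.MP_a5bb4a_an

namespace Pool.Agent.S03771

/-- For semisimple unital complex Banach algebras A, B, every unital surjective linear map T from A to B sending invertibles to invertibles satisfies T(xy+yx) = T(x)T(y)+T(y)T(x), i.e. is a Jordan epimorphism. -/
theorem result :
    ∀ (A B : Type) [NormedRing A] [NormedAlgebra ℂ A] [CompleteSpace A]
      [NormedRing B] [NormedAlgebra ℂ B] [CompleteSpace B],
      (⊥ : Ideal A).jacobson = ⊥ →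
      (⊥ : Ideal B).jacobson = ⊥ →
      ∀ T : A →ₗ[ℂ] B,
        T 1 = 1 →
        Function.Surjective T →
        (∀ x : A, IsUnit x → IsUnit (T x)) →
        ∀ x y : A, T (x * y + y * x) = T x * T y + T y * T x := by
  intro A B _ _ _ _ _ _ _ hB T h1 hs hT x y
  exact Pool.Agent.Helper192.KP.kaplansky_jordan hB T hs h1 hT x y

end Pool.Agent.S03771
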