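import Pool.Statements.S03776
import Pool.Agent.Helper570.Troy.Avg
import Pool.Agent.Helper570.Troy.Dual

set_option autoImplicit false
open Pool Pool.MP_a65686_an

namespace Pool.Agent.S03776

/-- The negation of the preceding statement: If a real Banach space has an uncountable unconditional basis and an equivalent Gâteaux differentiable norm, then it has an equivalent norm whose dual norm on the dual space is strictly convex. -/
theorem result :
    ¬ (∀ (X : Type) [NormedAddCommGroup X] [NormedSpace ℝ X] [CompleteSpace X],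
      (∃ (I : Type) (e : I → X) (f : I → (X →L[ℝ] ℝ)),
          Uncountable I ∧
          (∀ i : I, f i (e i) = 1) ∧
          (∀ i j : I, i ≠ j → f i (e j) = 0) ∧
          ∀ x : X, HasSum (fun i => f i x • e i) x) →
      (∃ N : X → ℝ,
          (∃ c C : ℝ, 0 < c ∧ 0 < C ∧ ∀ x : X, c * ‖x‖ ≤ N x ∧ N x ≤ C * ‖x‖) ∧
          (∀ x y : X, N (x + y) ≤ N x + N y) ∧
          (∀ (a : ℝ) (x : X), N (a • x) = |a| * N x) ∧
          ∀ x : X, x ≠ 0 → ∃ L : X →L[ℝ] ℝ,
            ∀ h : X, HasDerivAt (fun t : ℝ => N (x + t • h)) (L h) 0) →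
      ∃ N : X → ℝ,
          (∃ c C : ℝ, 0 < c ∧ 0 < C ∧ ∀ x : X, c * ‖x‖ ≤ N x ∧ N x ≤ C * ‖x‖) ∧
          (∀ x y : X, N (x + y) ≤ N x + N y) ∧
          (∀ (a : ℝ) (x : X), N (a • x) = |a| * N x) ∧
          ∀ φ ψ : X →L[ℝ] ℝ, φ ≠ ψ →
            sSup ((fun x => φ x) '' {x : X | N x ≤ 1}) = 1 →
            sSup ((fun x => ψ x) '' {x : X | N x ≤ 1}) = 1 →
            sSup ((fun x => (φ + ψ) x) '' {x : X | N x ≤ 1}) < 2) := by
  intro hmain
  open Pool.Agent.Helper570.Troy in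
  · have : CompleteSpace X := X.complete
    obtain ⟨N, ⟨c, C, hc, hC, hN1⟩, hadd, hsmul, hsc⟩ := hmain X
      ⟨Idx, bas, coord, inferInstance, fun i => bas_self i, fun i j hij => bas_ne hij,
        fun x => hasSum_bas x⟩
      ⟨AvT, ⟨1, 4, one_pos, by norm_num, fun x =>
        ⟨by rw [one_mul]; exact norm_le_AvT x, AvT_le x⟩⟩, AvT_add, AvT_smul,
        fun x hx => gateaux_AvT hx⟩
    have hE : EqN N c C := ⟨hc, hC, hadd, hsmul, fun x => (hN1 x).1, fun x => (hN1 x).2⟩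
    obtain ⟨φ, ψ, hne, hφ, hψ, hflat⟩ := exists_flat hE
    have hN0 : N 0 = 0 := by
      have := hsmul 0 (0 : X)
      simpa using this
    have hmem0 : (0 : X) ∈ {x : X | N x ≤ 1} := by
      change N 0 ≤ 1
      rw [hN0]; exact zero_le_one
    have hup : ∀ F : X →L[ℝ] ℝ, ∀ b : ℝ, (∀ x, N x ≤ 1 → F x ≤ b) →
        BddAbove ((fun x => F x) '' {x : X | N x ≤ 1}) ∧
          sSup ((fun x => F x) '' {x : X | N x ≤ 1}) ≤ b := by
      intro F b hF
      refine ⟨⟨b, ?_⟩, ?_⟩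
      · rintro _ ⟨x, hx, rfl⟩
        exact hF x hx
      · apply csSup_le (Set.Nonempty.image _ ⟨0, hmem0⟩)
        rintro _ ⟨x, hx, rfl⟩
        exact hF x hx
    have hφb := hup φ 1 fun x hx => (hφ x).trans hx
    have hψb := hup ψ 1 fun x hx => (hψ x).trans hx
    have hsb := hup (φ + ψ) 2 fun x hx => by
      have h1 := (hφ x).trans hx
      have h2 := (hψ x).trans hx
      change φ x + ψ x ≤ 2
      linarith
    have hkey : ∀ r : ℝ, 0 ≤ r → r < 1 → ∃ y : X, N y ≤ 1 ∧ 2 * r < φ y + ψ y := by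
      intro r hr0 hr1
      obtain ⟨x, hx⟩ := hflat r hr1
      have hx0 : x ≠ 0 := by
        rintro rfl
        rw [hN0, map_zero, map_zero] at hx
        norm_num at hx
      have hpos : 0 < N x := hE.pos hx0
      refine ⟨(N x)⁻¹ • x, ?_, ?_⟩
      · rw [hsmul, abs_of_pos (inv_pos.mpr hpos), inv_mul_cancel₀ hpos.ne']
      · rw [map_smul, map_smul, smul_eq_mul, smul_eq_mul, ← mul_add, inv_mul_eq_div,
          lt_div_iff₀ hpos]
        linarith
    have hge : ∀ r : ℝ, 0 ≤ r → r < 1 → 2 * r ≤ sSup ((fun x => φ x) '' {x : X | N x ≤ 1}) +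
        sSup ((fun x => ψ x) '' {x : X | N x ≤ 1}) ∧
        2 * r ≤ sSup ((fun x => (φ + ψ) x) '' {x : X | N x ≤ 1}) := by
      intro r hr0 hr1
      obtain ⟨y, hy1, hy2⟩ := hkey r hr0 hr1
      have h1 : φ y ≤ sSup ((fun x => φ x) '' {x : X | N x ≤ 1}) := le_csSup hφb.1 ⟨y, hy1, rfl⟩
      have h2 : ψ y ≤ sSup ((fun x => ψ x) '' {x : X | N x ≤ 1}) := le_csSup hψb.1 ⟨y, hy1, rfl⟩
      have h3 : (φ + ψ) y ≤ sSup ((fun x => (φ + ψ) x) '' {x : X | N x ≤ 1}) :=
        le_csSup hsb.1 ⟨y, hy1, rfl⟩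
      have h4 : (φ + ψ) y = φ y + ψ y := rfl
      exact ⟨by linarith, by linarith⟩
    have hlim : ∀ t : ℝ, (∀ r : ℝ, 0 ≤ r → r < 1 → 2 * r ≤ t) → 2 ≤ t := by
      intro t ht
      by_contra hcon
      push Not at hcon
      have h0 := ht 0 le_rfl one_pos
      have h1 := ht ((t / 2 + 1) / 2) (by linarith) (by linarith)
      linarith
    have hA := hlim _ fun r h0 h1 => (hge r h0 h1).1
    have hB := hlim _ fun r h0 h1 => (hge r h0 h1).2
    have hlt := hsc φ ψ hne (by linarith [hφb.2, hψb.2]) (by linarith [hφb.2, hψb.2])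
    linarith

end Pool.Agent.S03776
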