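import Pool.Statements.S03777
import Pool.Agent.Helper981.Wright.Final

set_option autoImplicit false
open Pool Pool.MP_a6b860_an

namespace Pool.Agent.S03777

/-- For every dimension d, with F the L² Fourier (Plancherel) transform on L²(ℝ^d), some unitary U on L²(ℝ^d) has the property that ∣f∣, ∣Ff∣, ∣Uf∣ agreeing a.e. with those of g forces f = c·g for some ∣c∣ = 1. -/
theorem result :
    ∀ d : ℕ,
      ∀ F : MeasureTheory.Lp ℂ 2 (MeasureTheory.volume : MeasureTheory.Measure (EuclideanSpace ℝ (Fin d))) ≃ₗᵢ[ℂ]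
          MeasureTheory.Lp ℂ 2 (MeasureTheory.volume : MeasureTheory.Measure (EuclideanSpace ℝ (Fin d))),
        (∀ f : MeasureTheory.Lp ℂ 2 (MeasureTheory.volume : MeasureTheory.Measure (EuclideanSpace ℝ (Fin d))),
          MeasureTheory.Integrable (f : EuclideanSpace ℝ (Fin d) → ℂ) MeasureTheory.volume →
            ∀ᵐ ξ ∂(MeasureTheory.volume : MeasureTheory.Measure (EuclideanSpace ℝ (Fin d))),
              (F f : EuclideanSpace ℝ (Fin d) → ℂ) ξ =
                ∫ x, Complex.exp (-(2 * (Real.pi : ℂ) * ((inner ℝ x ξ : ℝ) : ℂ)) * Complex.I) *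
                  (f : EuclideanSpace ℝ (Fin d) → ℂ) x) →
        ∃ U : MeasureTheory.Lp ℂ 2 (MeasureTheory.volume : MeasureTheory.Measure (EuclideanSpace ℝ (Fin d))) ≃ₗᵢ[ℂ]
            MeasureTheory.Lp ℂ 2 (MeasureTheory.volume : MeasureTheory.Measure (EuclideanSpace ℝ (Fin d))),
          ∀ f g : MeasureTheory.Lp ℂ 2 (MeasureTheory.volume : MeasureTheory.Measure (EuclideanSpace ℝ (Fin d))),
            (∀ᵐ x ∂(MeasureTheory.volume : MeasureTheory.Measure (EuclideanSpace ℝ (Fin d))),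
                ‖(f : EuclideanSpace ℝ (Fin d) → ℂ) x‖ = ‖(g : EuclideanSpace ℝ (Fin d) → ℂ) x‖) →
            (∀ᵐ x ∂(MeasureTheory.volume : MeasureTheory.Measure (EuclideanSpace ℝ (Fin d))),
                ‖(F f : EuclideanSpace ℝ (Fin d) → ℂ) x‖ = ‖(F g : EuclideanSpace ℝ (Fin d) → ℂ) x‖) →
            (∀ᵐ x ∂(MeasureTheory.volume : MeasureTheory.Measure (EuclideanSpace ℝ (Fin d))),
                ‖(U f : EuclideanSpace ℝ (Fin d) → ℂ) x‖ = ‖(U g : EuclideanSpace ℝ (Fin d) → ℂ) x‖) →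
            ∃ c : ℂ, ‖c‖ = 1 ∧ f = c • g := by
  intro d F _
  obtain ⟨U, hU⟩ := Pool.Agent.Helper981.Wright.two_moduli d
  exact ⟨U, fun f g h1 _ h3 => hU f g h1 h3⟩

end Pool.Agent.S03777
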