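import Mathlib
import Pool.Statements.S03782

set_option autoImplicit false
open MeasureTheory Filter Topology
open Pool Pool.MP_a70d84_an

section

namespace Pool.Agent.S03782.Inner

/-- The atomic singular inner function. -/
noncomputable def F (z : ℂ) : ℂ := Complex.exp (-((1 + z) / (1 - z)))

lemma F_norm_le (z : ℂ) (hz : ‖z‖ ≤ 1) : ‖F z‖ ≤ 1 := by
  unfold F
  rw [Complex.norm_exp]
  rw [Real.exp_le_one_iff]
  simp only [Complex.neg_re, Left.neg_nonpos_iff]
  rw [Complex.div_re]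
  have h1 : Complex.normSq z ≤ 1 := by
    rw [Complex.normSq_eq_norm_sq]
    nlinarith [norm_nonneg z]
  rw [Complex.normSq_apply] at h1
  have h2 : 0 ≤ Complex.normSq (1 - z) := Complex.normSq_nonneg _
  rw [← add_div]
  apply div_nonneg _ h2
  simp
  nlinarith

lemma F_norm_eq (z : ℂ) (hz : ‖z‖ = 1) : ‖F z‖ = 1 := by
  unfold F
  rw [Complex.norm_exp]
  rw [Real.exp_eq_one_iff]
  simp only [Complex.neg_re, neg_eq_zero]
  rw [Complex.div_re]
  have h1 : Complex.normSq z = 1 := by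
    rw [Complex.normSq_eq_norm_sq, hz]; norm_num
  rw [Complex.normSq_apply] at h1
  rw [← add_div]
  rw [div_eq_zero_iff]
  left
  simp
  nlinarith

lemma F_diff (z : ℂ) (hz : z ≠ 1) : DifferentiableAt ℂ F z := by
  unfold F
  have : (1 - z) ≠ 0 := sub_ne_zero.mpr (Ne.symm hz)
  fun_prop (disch := assumption)

/-- boundary function -/
noncomputable def g (t : AddCircle (1:ℝ)) : ℂ := F (fourier 1 t)

/-- circle average vs integral over AddCircle 1 -/
lemma avg_eq (h : ℂ → ℂ) :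
    ∫ t : AddCircle (1:ℝ), h (fourier 1 t) ∂AddCircle.haarAddCircle = Real.circleAverage h 0 1 := by
  rw [Real.circleAverage_def]
  rw [AddCircle.integral_haarAddCircle]
  rw [← AddCircle.intervalIntegral_preimage (1:ℝ) 0]
  simp only [zero_add, inv_one, one_smul]
  have : ∀ x : ℝ, h (fourier 1 (x : AddCircle (1:ℝ))) = (fun θ => h (circleMap 0 1 θ)) (2 * Real.pi * x) := by
    intro x
    simp only [fourier_coe_apply, circleMap]
    congr 1
    simp
    congr 1
    ring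
  simp_rw [this]
  rw [intervalIntegral.integral_comp_mul_left (fun θ => h (circleMap 0 1 θ)) (by positivity)]
  simp


lemma fourier_one_norm (t : AddCircle (1:ℝ)) : ‖(fourier 1 t : ℂ)‖ = 1 := by
  rw [fourier_apply]; exact Circle.norm_coe _

lemma measurable_fourier_one : Measurable (fun t : AddCircle (1:ℝ) => (fourier 1 t : ℂ)) :=
  (fourier 1 : C(AddCircle (1:ℝ), ℂ)).continuous.measurable

lemma measurable_F : Measurable F := by
  unfold F
  fun_prop

lemma lim_int (h : ℂ → ℂ) (hm : Measurable h) (C : ℝ)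
    (hC : ∀ z, ‖z‖ = 1 → ‖h z‖ ≤ C) (ρ : ℕ → ℝ) (h0 : ∀ n, 0 ≤ ρ n) (h1 : ∀ n, ρ n < 1)
    (hρ : Tendsto ρ atTop (𝓝 1)) :
    Tendsto (fun n => Real.circleAverage (fun z => h z * F (ρ n * z)) 0 1) atTop
      (𝓝 (∫ t : AddCircle (1:ℝ), h (fourier 1 t) * g t ∂AddCircle.haarAddCircle)) := by
  simp_rw [← avg_eq]
  apply tendsto_integral_of_dominated_convergence (fun _ => C)
  · intro n
    apply Measurable.aestronglyMeasurable
    have := measurable_fourier_one
    have h2 := measurable_F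
    fun_prop
  · exact integrable_const _
  · intro n
    refine Filter.Eventually.of_forall fun t => ?_
    rw [norm_mul]
    have h2 := hC _ (fourier_one_norm t)
    have h3 : ‖F (ρ n * fourier 1 t)‖ ≤ 1 := by
      apply F_norm_le
      rw [norm_mul, fourier_one_norm, mul_one, Complex.norm_real, Real.norm_eq_abs, abs_of_nonneg (h0 n)]
      exact (h1 n).le
    have h4 : 0 ≤ C := le_trans (norm_nonneg _) h2
    calc _ ≤ C * 1 := mul_le_mul h2 h3 (norm_nonneg _) h4
      _ = C := mul_one C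
  · have hae : ∀ᵐ t : AddCircle (1:ℝ) ∂AddCircle.haarAddCircle, t ≠ 0 := by
      have : (AddCircle.haarAddCircle : Measure (AddCircle (1:ℝ))) {0} = 0 := by
        have h1 := AddCircle.volume_closedBall (T := (1:ℝ)) (x := (0 : AddCircle (1:ℝ))) 0
        rw [Metric.closedBall_zero, AddCircle.volume_eq_smul_haarAddCircle] at h1
        simpa using h1
      exact compl_mem_ae_iff.mpr this
    filter_upwards [hae] with t ht
    apply Tendsto.const_mul
    unfold g
    have hw : (fourier 1 t : ℂ) ≠ 1 := by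
      intro hh
      apply ht
      rw [fourier_one] at hh
      have h5 : AddCircle.toCircle t = AddCircle.toCircle (0 : AddCircle (1:ℝ)) := by
        rw [AddCircle.toCircle_zero]
        exact Circle.ext (by simpa using hh)
      exact AddCircle.injective_toCircle one_ne_zero h5
    have h6 : ContinuousAt F (fourier 1 t : ℂ) := (F_diff _ hw).continuousAt
    have h7 : Tendsto (fun n => ((ρ n : ℝ) : ℂ) * fourier 1 t) atTop (𝓝 (fourier 1 t)) := by
      have : Tendsto (fun n => ((ρ n : ℝ) : ℂ)) atTop (𝓝 ((1:ℝ):ℂ)) :=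
        (Complex.continuous_ofReal.tendsto _).comp hρ
      have := this.mul_const (fourier 1 t : ℂ)
      simpa using this
    exact h6.tendsto.comp h7


noncomputable def rho (n : ℕ) : ℝ := 1 - 1 / ((n:ℝ) + 2)

lemma rho_nonneg (n : ℕ) : 0 ≤ rho n := by
  unfold rho
  have : (1:ℝ) / ((n:ℝ) + 2) ≤ 1 := by
    rw [div_le_one (by positivity)]; linarith [Nat.cast_nonneg (α := ℝ) n]
  linarith

lemma rho_lt_one (n : ℕ) : rho n < 1 := by
  unfold rho
  have : (0:ℝ) < 1 / ((n:ℝ) + 2) := by positivity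
  linarith

lemma rho_tendsto : Tendsto rho atTop (𝓝 1) := by
  unfold rho
  have h1 : Tendsto (fun n : ℕ => (n:ℝ) + 2) atTop atTop :=
    tendsto_atTop_add_const_right _ _ tendsto_natCast_atTop_atTop
  have h2 : Tendsto (fun n : ℕ => 1 / ((n:ℝ) + 2)) atTop (𝓝 0) :=
    tendsto_const_nhds.div_atTop h1
  have := h2.const_sub 1
  simpa using this

lemma diffF_rho (ρ : ℝ) (h0 : 0 ≤ ρ) (h1 : ρ < 1) (z : ℂ) (hz : ‖z‖ ≤ 1) :
    DifferentiableAt ℂ (fun z => F (ρ * z)) z := by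
  have hne : (ρ * z : ℂ) ≠ 1 := by
    intro h
    have h2 : ‖(ρ * z : ℂ)‖ = 1 := by rw [h]; simp
    rw [norm_mul, Complex.norm_real, Real.norm_eq_abs, abs_of_nonneg h0] at h2
    nlinarith [norm_nonneg z]
  exact (F_diff _ hne).comp z (by fun_prop)

lemma dcc_rho (ρ : ℝ) (h0 : 0 ≤ ρ) (h1 : ρ < 1) :
    DiffContOnCl ℂ (fun z => F (ρ * z)) (Metric.ball 0 |1|) := by
  constructor
  · intro z hz
    have : ‖z‖ ≤ 1 := by simpa using (mem_ball_zero_iff.mp hz).le
    exact (diffF_rho ρ h0 h1 z this).differentiableWithinAt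
  · intro z hz
    have h2 : z ∈ Metric.closedBall (0:ℂ) |1| := Metric.closure_ball_subset_closedBall hz
    have : ‖z‖ ≤ 1 := by simpa using (mem_closedBall_zero_iff.mp h2)
    exact (diffF_rho ρ h0 h1 z this).continuousAt.continuousWithinAt

/-- (a) negative Fourier coefficients vanish -/
lemma int_pow_mul (m : ℕ) (hm : 0 < m) :
    ∫ t : AddCircle (1:ℝ), (fourier 1 t : ℂ) ^ m * g t ∂AddCircle.haarAddCircle = 0 := by
  have h := lim_int (fun z => z ^ m) (by fun_prop) 1 (fun z hz => by simp [hz]) rho rho_nonneg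
    rho_lt_one rho_tendsto
  refine tendsto_nhds_unique h ?_
  have : ∀ n, Real.circleAverage (fun z => z ^ m * F (rho n * z)) 0 1 = 0 := by
    intro n
    have h2 : DiffContOnCl ℂ (fun z => z ^ m * F (rho n * z)) (Metric.ball 0 |1|) := by
      have h3 : DiffContOnCl ℂ (fun z : ℂ => z ^ m) (Metric.ball 0 |1|) :=
        Differentiable.diffContOnCl (by fun_prop)
      exact h3.smul (dcc_rho _ (rho_nonneg n) (rho_lt_one n))
    have h4 := h2.circleAverage
    rw [h4]
    simp [hm.ne']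
  simp_rw [this]
  exact tendsto_const_nhds

/-- (b) reproducing property -/
lemma int_kernel (r : ℝ) (hr0 : 0 ≤ r) (hr : r < 1) :
    ∫ t : AddCircle (1:ℝ), (fourier 1 t : ℂ) / (fourier 1 t - r) * g t ∂AddCircle.haarAddCircle
      = F r := by
  have hlow : ∀ z : ℂ, ‖z‖ = 1 → 1 - r ≤ ‖z - r‖ := by
    intro z hz
    have := norm_sub_norm_le z (r:ℂ)
    rw [hz, Complex.norm_real, Real.norm_eq_abs, abs_of_nonneg hr0] at this
    exact this
  have h := lim_int (fun z => z / (z - r)) (by fun_prop) (1 / (1 - r)) (fun z hz => by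
      rw [norm_div, hz]
      apply one_div_le_one_div_of_le (by linarith) (hlow z hz)) rho rho_nonneg
    rho_lt_one rho_tendsto
  refine tendsto_nhds_unique h ?_
  have : ∀ n, Real.circleAverage (fun z => z / (z - r) * F (rho n * z)) 0 1 = F (rho n * r) := by
    intro n
    have h2 := (dcc_rho _ (rho_nonneg n) (rho_lt_one n)).circleAverage_smul_div (w := (r:ℂ))
      (by simp [abs_of_nonneg hr0, hr])
    simpa using h2
  simp_rw [this]
  have h6 : ContinuousAt F (r : ℂ) := (F_diff _ (by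
    intro hh
    have : r = 1 := by exact_mod_cast hh
    linarith)).continuousAt
  have h7 : Tendsto (fun n => ((rho n : ℝ) : ℂ) * r) atTop (𝓝 (r : ℂ)) := by
      have : Tendsto (fun n => ((rho n : ℝ) : ℂ)) atTop (𝓝 ((1:ℝ):ℂ)) :=
        (Complex.continuous_ofReal.tendsto _).comp rho_tendsto
      have := this.mul_const (r : ℂ)
      simpa using this
  exact h6.tendsto.comp h7

lemma g_norm (t : AddCircle (1:ℝ)) : ‖g t‖ = 1 := F_norm_eq _ (fourier_one_norm t)

lemma g_meas : Measurable g := measurable_F.comp measurable_fourier_one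

/-- Fourier coefficients of g -/
noncomputable def c (k : ℤ) : ℂ := fourierCoeff g k

lemma fourier_pow (m : ℕ) (t : AddCircle (1:ℝ)) : (fourier (m:ℤ) t : ℂ) = (fourier 1 t : ℂ) ^ m := by
  induction m with
  | zero => simp
  | succ n ih => rw [pow_succ, ← ih, Nat.cast_succ, fourier_add]

lemma c_neg (k : ℤ) (hk : k < 0) : c k = 0 := by
  obtain ⟨m, rfl⟩ : ∃ m : ℕ, k = -(m : ℤ) := ⟨k.natAbs, by omega⟩
  unfold c fourierCoeff
  rw [neg_neg]
  simp_rw [fourier_pow, smul_eq_mul]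
  exact int_pow_mul m (by omega)

lemma g_integrable : Integrable g (AddCircle.haarAddCircle : Measure (AddCircle (1:ℝ))) := by
  apply Integrable.of_bound g_meas.aestronglyMeasurable 1
  exact Filter.Eventually.of_forall fun t => (g_norm t).le

lemma hasSum_c (r : ℝ) (hr0 : 0 ≤ r) (hr : r < 1) :
    HasSum (fun j : ℕ => (r:ℂ) ^ j * c j) (F r) := by
  rw [← int_kernel r hr0 hr]
  have : ∀ j : ℕ, (r:ℂ) ^ j * c j = ∫ t : AddCircle (1:ℝ), (r:ℂ) ^ j * ((fourier (-(j:ℤ)) t : ℂ) * g t)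
      ∂AddCircle.haarAddCircle := by
    intro j
    rw [integral_const_mul]
    rfl
  simp_rw [this]
  have hint : ∀ j : ℕ, Integrable (fun t : AddCircle (1:ℝ) => (r:ℂ) ^ j * ((fourier (-(j:ℤ)) t : ℂ) * g t))
      AddCircle.haarAddCircle := by
    intro j
    apply Integrable.const_mul
    exact g_integrable.fourier_smul _
  have hnorm : ∀ (j : ℕ) (t : AddCircle (1:ℝ)),
      ‖(r:ℂ) ^ j * ((fourier (-(j:ℤ)) t : ℂ) * g t)‖ = r ^ j := by
    intro j t
    rw [norm_mul, norm_mul, g_norm, norm_pow, Complex.norm_real, Real.norm_eq_abs, abs_of_nonneg hr0,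
      fourier_apply, Circle.norm_coe]
    ring
  have hs := hasSum_integral_of_summable_integral_norm hint (by
    simp_rw [hnorm]
    simp only [integral_const, probReal_univ, one_smul]
    exact summable_geometric_of_lt_one hr0 hr)
  refine (congrArg (HasSum _) ?_).mpr hs
  apply integral_congr_ae
  refine Filter.Eventually.of_forall fun t => ?_
  simp only
  have hw : ‖(fourier 1 t : ℂ)‖ = 1 := fourier_one_norm t
  have hw0 : (fourier 1 t : ℂ) ≠ 0 := by
    intro h; rw [h] at hw; simp at hw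
  have hterm : ∀ j : ℕ, (r:ℂ) ^ j * ((fourier (-(j:ℤ)) t : ℂ) * g t) = (r / (fourier 1 t : ℂ)) ^ j * g t := by
    intro j
    have : (fourier (-(j:ℤ)) t : ℂ) = ((fourier 1 t : ℂ) ^ j)⁻¹ := by
      have h1 : (fourier (-(j:ℤ)) t : ℂ) * (fourier (j:ℤ) t : ℂ) = 1 := by
        rw [← fourier_add]; simp
      rw [fourier_pow] at h1
      exact eq_inv_of_mul_eq_one_left h1
    rw [this, div_pow]
    ring
  simp_rw [hterm]
  rw [tsum_mul_right, tsum_geometric_of_norm_lt_one]
  · congr 1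
    have h2 : (fourier 1 t : ℂ) - r ≠ 0 := by
      intro h
      rw [sub_eq_zero] at h
      rw [h, Complex.norm_real, Real.norm_eq_abs, abs_of_nonneg hr0] at hw
      linarith
    field_simp
  · rw [norm_div, hw, div_one, Complex.norm_real, Real.norm_eq_abs, abs_of_nonneg hr0]
    exact hr

lemma F_conj (z : ℂ) : F (starRingEnd ℂ z) = starRingEnd ℂ (F z) := by
  unfold F
  rw [← Complex.exp_conj]
  simp

lemma g_neg (t : AddCircle (1:ℝ)) : g (-t) = starRingEnd ℂ (g t) := by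
  unfold g
  rw [← F_conj]
  congr 1
  rw [fourier_one, fourier_one, AddCircle.toCircle_neg, Circle.coe_inv_eq_conj]

lemma c_real (k : ℤ) : starRingEnd ℂ (c k) = c k := by
  unfold c fourierCoeff
  rw [← integral_conj]
  have h1 : ∀ t : AddCircle (1:ℝ), starRingEnd ℂ ((fourier (-k) t : ℂ) • g t) =
      (fun s => (fourier (-k) s : ℂ) • g s) (-t) := by
    intro t
    simp only [smul_eq_mul, map_mul, g_neg]
    rw [← fourier_neg]
    congr 1
    simp [fourier_apply]
  simp_rw [h1]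
  exact integral_neg_eq_self (fun s => (fourier (-k) s : ℂ) • g s) _

end Pool.Agent.S03782.Inner

end

section
open Pool.Agent.S03782.Inner

namespace Pool.Agent.S03782.Ell2

noncomputable abbrev E := lp (fun _ : ℕ => ℂ) 2

lemma memLp_fg (k : ℤ) : MemLp (fun t : AddCircle (1:ℝ) => (fourier k t : ℂ) * g t) 2
    (AddCircle.haarAddCircle : Measure (AddCircle (1:ℝ))) := by
  apply MemLp.of_bound (C := 1)
  · apply Measurable.aestronglyMeasurable
    exact ((fourier k : C(AddCircle (1:ℝ), ℂ)).continuous.measurable).mul g_meas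
  · refine Filter.Eventually.of_forall fun t => ?_
    rw [norm_mul, g_norm, fourier_apply, Circle.norm_coe]; simp

noncomputable def fL (k : ℤ) : Lp ℂ 2 (AddCircle.haarAddCircle : Measure (AddCircle (1:ℝ))) :=
  (memLp_fg k).toLp _

lemma repr_fL (k j : ℤ) : fourierBasis.repr (fL k) j = c (j - k) := by
  rw [fourierBasis_repr]
  unfold c fL
  rw [fourierCoeff_congr_ae (MemLp.coeFn_toLp (memLp_fg k))]
  unfold fourierCoeff
  congr 1
  ext t
  simp only [smul_eq_mul]
  rw [← mul_assoc, ← fourier_add]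
  congr 3
  ring

lemma inner_fL (k l : ℤ) : inner ℂ (fL k) (fL l) = if k = l then (1:ℂ) else 0 := by
  rw [L2.inner_def]
  have h1 : ∀ᵐ t ∂(AddCircle.haarAddCircle : Measure (AddCircle (1:ℝ))),
      inner ℂ ((fL k : AddCircle (1:ℝ) → ℂ) t) ((fL l : AddCircle (1:ℝ) → ℂ) t) = (fourier (-(k-l)) t : ℂ) * 1 := by
    filter_upwards [MemLp.coeFn_toLp (memLp_fg k), MemLp.coeFn_toLp (memLp_fg l)] with t hk hl
    unfold fL
    rw [hk, hl]
    rw [RCLike.inner_apply]
    have h2 : starRingEnd ℂ (g t) * g t = 1 := by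
      rw [mul_comm, Complex.mul_conj, Complex.normSq_eq_norm_sq, g_norm]; simp
    calc _ = (starRingEnd ℂ (g t) * g t) * (starRingEnd ℂ (fourier k t) * fourier l t) := by
            rw [map_mul]; ring
      _ = _ := by
            rw [h2, ← fourier_neg, ← fourier_add]
            have : -k + l = -(k-l) := by ring
            rw [this]; ring
  rw [integral_congr_ae h1]
  have h3 := congrFun (fourierCoeff_fourier (T := (1:ℝ)) 0) (k - l)
  unfold fourierCoeff at h3
  simp only [smul_eq_mul, fourier_zero] at h3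
  rw [h3]
  rw [Pi.single_apply]
  congr 1
  simp [sub_eq_zero]

lemma u_mem (k : ℕ) : Memℓp (fun j : ℕ => c ((j:ℤ) - k)) 2 := by
  have h := (fourierBasis.repr (fL k)).2
  apply memℓp_gen
  have h2 := (memℓp_gen_iff (by norm_num)).mp h
  have h3 := h2.comp_injective Nat.cast_injective (i := fun j : ℕ => (j : ℤ))
  refine h3.congr ?_
  intro j
  simp only [Function.comp]
  rw [← repr_fL k j]

noncomputable def u (k : ℕ) : E := ⟨fun j => c ((j:ℤ) - k), u_mem k⟩

lemma u_apply (k j : ℕ) : (u k) j = c ((j:ℤ) - k) := rfl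

lemma inner_u (k l : ℕ) : inner ℂ (u k) (u l) = if k = l then (1:ℂ) else 0 := by
  have h1 : HasSum (fun j : ℤ => inner ℂ (fourierBasis.repr (fL k) j) (fourierBasis.repr (fL l) j))
      (inner ℂ (fourierBasis.repr (fL k)) (fourierBasis.repr (fL l))) := lp.hasSum_inner _ _
  rw [LinearIsometryEquiv.inner_map_map, inner_fL] at h1
  simp_rw [repr_fL] at h1
  have h2 : HasSum (fun j : ℕ => inner ℂ (c ((j:ℤ) - k)) (c ((j:ℤ) - l))) (if (k:ℤ) = l then (1:ℂ) else 0) := by
    have h3 := (Function.Injective.hasSum_iff (Nat.cast_injective (R := ℤ))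
      (f := fun j : ℤ => inner ℂ (c (j - k)) (c (j - l))) (a := if (k:ℤ) = l then (1:ℂ) else 0) ?_).mpr h1
    · exact h3
    · intro j hj
      have : j < 0 := by
        by_contra hh
        push Not at hh
        exact hj ⟨j.toNat, by simp [hh]⟩
      rw [c_neg (j - k) (by omega)]
      simp
  have h4 := lp.hasSum_inner (𝕜 := ℂ) (u k) (u l)
  have h5 := h4.unique h2
  rw [h5]
  norm_cast

lemma u_orth : Orthonormal ℂ u := by
  rw [orthonormal_iff_ite]
  exact inner_u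

noncomputable def GI : E →ₗᵢ[ℂ] E := u_orth.orthogonalFamily.linearIsometry

noncomputable def G : E →L[ℂ] E := GI.toContinuousLinearMap

/-- basis vector -/
noncomputable def e (k : ℕ) : E := lp.single 2 k (1:ℂ)

lemma G_e (k : ℕ) : G (e k) = u k := by
  have h : GI (e k) = LinearIsometry.toSpanSingleton ℂ E (u_orth.1 k) (1:ℂ) :=
    u_orth.orthogonalFamily.linearIsometry_apply_single (1:ℂ)
  have h2 : G (e k) = GI (e k) := rfl
  rw [h2, h]
  simp

lemma G_norm_map (x : E) : ‖G x‖ = ‖x‖ := GI.norm_map x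

lemma G_entry (j k : ℕ) : (G (e k)) j = fourierCoeff g ((j:ℤ) - k) := by
  rw [G_e]; rfl

noncomputable def H : E →L[ℂ] E := ContinuousLinearMap.adjoint G

lemma HG : H * G = 1 := by
  unfold H
  exact (ContinuousLinearMap.norm_map_iff_adjoint_comp_self G).mp G_norm_map

lemma inner_e (j : ℕ) (x : E) : inner ℂ (e j) x = x j := by
  unfold e
  rw [lp.inner_single_left]
  simp

lemma H_entry (j k : ℕ) : (H (e k)) j = fourierCoeff g ((k:ℤ) - j) := by
  rw [← inner_e]
  unfold H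
  rw [ContinuousLinearMap.adjoint_inner_right, ← inner_conj_symm, inner_e, G_entry]
  exact c_real _

lemma H_norm (x : E) : ‖H x‖ ≤ ‖x‖ := by
  have h1 : ‖H‖ ≤ 1 := by
    unfold H
    rw [LinearIsometryEquiv.norm_map]
    exact GI.norm_toContinuousLinearMap_le
  calc ‖H x‖ ≤ ‖H‖ * ‖x‖ := H.le_opNorm x
    _ ≤ 1 * ‖x‖ := by gcongr
    _ = ‖x‖ := one_mul _

end Pool.Agent.S03782.Ell2

end

section
open Pool.Agent.S03782.Inner Pool.Agent.S03782.Ell2

namespace Pool.Agent.S03782.PW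

noncomputable def sg (j : ℕ) : ℂ →L[ℂ] E := lp.singleContinuousLinearMap ℂ (fun _ : ℕ => ℂ) 2 j
noncomputable def ev (j : ℕ) : E →L[ℂ] ℂ := lp.evalCLM ℂ (fun _ : ℕ => ℂ) 2 j

lemma ev_apply (j : ℕ) (x : E) : ev j x = x j := rfl

lemma sg_apply (j : ℕ) (a : ℂ) (i : ℕ) : (sg j a) i = if i = j then a else 0 := by
  have : (sg j a) i = (Pi.single j a : ℕ → ℂ) i := rfl
  rw [this, Pi.single_apply]

lemma e_apply (k j : ℕ) : (e k) j = if j = k then (1:ℂ) else 0 := sg_apply k 1 j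

noncomputable def P (n : ℕ) : E →L[ℂ] E := ∑ j ∈ Finset.range (n+1), (sg j).comp (ev j)
noncomputable def W (n : ℕ) : E →L[ℂ] E := ∑ j ∈ Finset.range (n+1), (sg j).comp (ev (n - j))

lemma P_apply (n : ℕ) (x : E) (j : ℕ) : (P n x) j = if j ≤ n then x j else 0 := by
  unfold P
  rw [← ev_apply]
  rw [ContinuousLinearMap.sum_apply, map_sum]
  simp only [ContinuousLinearMap.comp_apply, ev_apply, sg_apply]
  rw [Finset.sum_ite_eq]
  simp [Nat.lt_succ_iff]

lemma W_apply (n : ℕ) (x : E) (j : ℕ) : (W n x) j = if j ≤ n then x (n - j) else 0 := by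
  unfold W
  rw [← ev_apply]
  rw [ContinuousLinearMap.sum_apply, map_sum]
  simp only [ContinuousLinearMap.comp_apply, ev_apply, sg_apply]
  rw [Finset.sum_ite_eq]
  simp [Nat.lt_succ_iff]

lemma E_ext {x y : E} (h : ∀ j, x j = y j) : x = y := lp.ext (funext h)

lemma P_P (n : ℕ) : P n * P n = P n := by
  ext x j
  simp only [ContinuousLinearMap.mul_apply, P_apply]
  split_ifs <;> rfl

lemma W_W (n : ℕ) : W n * W n = P n := by
  ext x j
  simp only [ContinuousLinearMap.mul_apply, P_apply, W_apply]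
  by_cases h1 : j ≤ n
  · have h2 : n - j ≤ n := by omega
    have h3 : n - (n - j) = j := by omega
    simp [h1, h3]
  · simp [h1]

lemma P_W (n : ℕ) : P n * W n = W n := by
  ext x j
  simp only [ContinuousLinearMap.mul_apply, P_apply, W_apply]
  split_ifs <;> rfl

lemma W_P (n : ℕ) : W n * P n = W n := by
  ext x j
  simp only [ContinuousLinearMap.mul_apply, P_apply, W_apply]
  split_ifs with h1 h2
  · rfl
  · omega
  · rfl

lemma inner_P (n : ℕ) (x y : E) :
    inner ℂ (P n x) y = ∑ j ∈ Finset.range (n+1), starRingEnd ℂ (x j) * y j := by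
  have h1 := lp.hasSum_inner (𝕜 := ℂ) (P n x) y
  have h2 : HasSum (fun j => inner ℂ ((P n x) j) (y j))
      (∑ j ∈ Finset.range (n+1), inner ℂ ((P n x) j) (y j)) := by
    apply hasSum_sum_of_ne_finset_zero
    intro j hj
    rw [P_apply]
    have : ¬ j ≤ n := by simpa [Nat.lt_succ_iff] using hj
    simp [this]
  rw [h1.unique h2]
  apply Finset.sum_congr rfl
  intro j hj
  rw [P_apply]
  have : j ≤ n := by simpa [Nat.lt_succ_iff] using hj
  simp only [this, if_true, RCLike.inner_apply]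
  ring

lemma inner_W (n : ℕ) (x y : E) :
    inner ℂ (W n x) y = ∑ j ∈ Finset.range (n+1), starRingEnd ℂ (x (n - j)) * y j := by
  rw [← P_W n, ContinuousLinearMap.mul_apply, inner_P]
  apply Finset.sum_congr rfl
  intro j hj
  rw [W_apply]
  have : j ≤ n := by simpa [Nat.lt_succ_iff] using hj
  simp only [this, if_true]

lemma P_sa (n : ℕ) (x y : E) : inner ℂ (P n x) y = inner ℂ x (P n y) := by
  rw [← inner_conj_symm x, inner_P, inner_P, map_sum]
  apply Finset.sum_congr rfl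
  intro j hj
  simp [mul_comm]

lemma W_sa (n : ℕ) (x y : E) : inner ℂ (W n x) y = inner ℂ x (W n y) := by
  rw [← inner_conj_symm x, inner_W, inner_W, map_sum, ← Finset.sum_range_reflect]
  apply Finset.sum_congr rfl
  intro j hj
  have : j ≤ n := by simpa [Nat.lt_succ_iff] using hj
  have h1 : n + 1 - 1 - j = n - j := by omega
  have h2 : n - (n - j) = j := by omega
  simp [h1, h2, mul_comm]

lemma P_norm (n : ℕ) (x : E) : ‖P n x‖ ≤ ‖x‖ := by
  have h1 : ‖P n x‖ ^ 2 ≤ ‖P n x‖ * ‖x‖ := by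
    have h2 : inner ℂ (P n x) (P n x) = inner ℂ (P n x) x := by
      rw [P_sa n x x, P_sa n x (P n x)]
      rw [← ContinuousLinearMap.mul_apply, P_P]
    have h3 : ‖P n x‖ ^ 2 = ‖(inner ℂ (P n x) (P n x) : ℂ)‖ := by
      rw [inner_self_eq_norm_sq_to_K]; simp
    rw [h3, h2]
    exact norm_inner_le_norm _ _
  by_contra hh
  push Not at hh
  have : 0 < ‖P n x‖ := lt_of_le_of_lt (norm_nonneg _) hh
  nlinarith

lemma W_norm (n : ℕ) (x : E) : ‖W n x‖ ≤ ‖x‖ := by
  have h1 : ‖W n x‖ ^ 2 = ‖P n x‖ ^ 2 := by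
    have h2 : inner ℂ (W n x) (W n x) = inner ℂ (P n x) (P n x) := by
      rw [W_sa n x (W n x), P_sa n x (P n x)]
      rw [← ContinuousLinearMap.mul_apply, ← ContinuousLinearMap.mul_apply, P_P, W_W]
    have h3 : ‖W n x‖ ^ 2 = ‖(inner ℂ (W n x) (W n x) : ℂ)‖ := by
      rw [inner_self_eq_norm_sq_to_K]; simp
    rw [h3, h2, inner_self_eq_norm_sq_to_K]
    simp
  have h2 : ‖W n x‖ = ‖P n x‖ := by
    have := norm_nonneg (W n x); have := norm_nonneg (P n x)
    nlinarith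
  rw [h2]; exact P_norm n x

/-- `x = lim P n x` -/
lemma P_tendsto (x : E) : Tendsto (fun n => P n x) atTop (𝓝 x) := by
  have h := (lp.hasSum_single (p := 2) (by norm_num) x).tendsto_sum_nat
  have h2 := (tendsto_add_atTop_iff_nat 1).mpr h
  refine h2.congr ?_
  intro n
  unfold P
  rw [ContinuousLinearMap.sum_apply]
  rfl

lemma clm_ext {A B : E →L[ℂ] E} (h : ∀ j k, (A (e k)) j = (B (e k)) j) : A = B := by
  apply lp.ext_continuousLinearMap (p := 2) (by norm_num)
  intro k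
  ext j
  exact h j k

lemma P_e (n k : ℕ) : P n (e k) = if k ≤ n then e k else 0 := by
  apply E_ext
  intro j
  rw [P_apply]
  split_ifs with h1 h2 h2
  · rfl
  · rw [e_apply, if_neg (by omega)]; rfl
  · rw [e_apply, if_neg (by omega)]
  · rfl

lemma W_e (n k : ℕ) : W n (e k) = if k ≤ n then e (n - k) else 0 := by
  apply E_ext
  intro j
  rw [W_apply]
  split_ifs with h1 h2 h2
  · rw [e_apply, e_apply]
    congr 1
    simp only [eq_iff_iff]
    omega
  · rw [e_apply, if_neg (by omega)]; rfl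
  · rw [e_apply, if_neg (by omega)]
  · rfl

lemma W_G_W (n : ℕ) : W n * G * W n = P n * H * P n := by
  apply clm_ext
  intro j k
  simp only [ContinuousLinearMap.mul_apply, W_e, P_e]
  rw [W_apply, P_apply]
  by_cases hk : k ≤ n
  · simp only [hk, if_true]
    by_cases hj : j ≤ n
    · simp only [hj, if_true]
      rw [G_entry, H_entry]
      congr 1
      omega
    · simp [hj]
  · simp [hk]

lemma W_H_W (n : ℕ) : W n * H * W n = P n * G * P n := by
  apply clm_ext
  intro j k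
  simp only [ContinuousLinearMap.mul_apply, W_e, P_e]
  rw [W_apply, P_apply]
  by_cases hk : k ≤ n
  · simp only [hk, if_true]
    by_cases hj : j ≤ n
    · simp only [hj, if_true]
      rw [G_entry, H_entry]
      congr 1
      omega
    · simp [hj]
  · simp [hk]

end Pool.Agent.S03782.PW

end

section
open Pool.Agent.S03782.Inner Pool.Agent.S03782.Ell2 Pool.Agent.S03782.PW

namespace Pool.Agent.S03782.Main1

/-- strongly convergent, bounded -/
def SC (X : ℕ → (E →L[ℂ] E)) (X0 : E →L[ℂ] E) (C : ℝ) : Prop :=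
  (∀ n x, ‖X n x‖ ≤ C * ‖x‖) ∧ ∀ x, Tendsto (fun n => X n x) atTop (𝓝 (X0 x))

lemma SC.mul {X Y : ℕ → (E →L[ℂ] E)} {X0 Y0 : E →L[ℂ] E} {C D : ℝ} (hC : 0 ≤ C)
    (hX : SC X X0 C) (hY : SC Y Y0 D) : SC (fun n => X n * Y n) (X0 * Y0) (C * D) := by
  constructor
  · intro n x
    calc ‖X n (Y n x)‖ ≤ C * ‖Y n x‖ := hX.1 n _
      _ ≤ C * (D * ‖x‖) := by gcongr; exact hY.1 n x
      _ = _ := by ring
  · intro x
    have h1 := hX.2 (Y0 x)
    have h2 : Tendsto (fun n => X n (Y n x - Y0 x)) atTop (𝓝 0) := by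
      have h3 : Tendsto (fun n => C * ‖Y n x - Y0 x‖) atTop (𝓝 0) := by
        have h4 : Tendsto (fun n => Y n x - Y0 x) atTop (𝓝 0) := by
          have := (hY.2 x).sub_const (Y0 x)
          simpa using this
        have h5 := h4.norm.const_mul C
        simpa using h5
      exact squeeze_zero_norm (fun n => hX.1 n _) h3
    have h6 := h1.add h2
    simp only [add_zero] at h6
    refine h6.congr ?_
    intro n
    rw [map_sub]
    simp

lemma SC.sub {X Y : ℕ → (E →L[ℂ] E)} {X0 Y0 : E →L[ℂ] E} {C D : ℝ}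
    (hX : SC X X0 C) (hY : SC Y Y0 D) : SC (fun n => X n - Y n) (X0 - Y0) (C + D) := by
  constructor
  · intro n x
    calc ‖(X n - Y n) x‖ = ‖X n x - Y n x‖ := rfl
      _ ≤ ‖X n x‖ + ‖Y n x‖ := norm_sub_le _ _
      _ ≤ C * ‖x‖ + D * ‖x‖ := add_le_add (hX.1 n x) (hY.1 n x)
      _ = _ := by ring
  · intro x
    exact (hX.2 x).sub (hY.2 x)

lemma SC_P : SC P 1 1 := ⟨fun n x => by rw [one_mul]; exact P_norm n x, fun x => P_tendsto x⟩

lemma SC_G : SC (fun _ => G) G 1 :=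
  ⟨fun n x => by rw [one_mul]; exact (G_norm_map x).le, fun x => tendsto_const_nhds⟩

lemma SC_H : SC (fun _ => H) H 1 :=
  ⟨fun n x => by rw [one_mul]; exact H_norm x, fun x => tendsto_const_nhds⟩

noncomputable def Gn (n : ℕ) : E →L[ℂ] E := P n * G * P n
noncomputable def Hn (n : ℕ) : E →L[ℂ] E := P n * H * P n

lemma SC_Gn : SC Gn G 1 := by
  have := (SC_P.mul zero_le_one SC_G).mul (by norm_num) SC_P
  show SC (fun n => P n * G * P n) G 1
  simpa using this

lemma SC_Hn : SC Hn H 1 := by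
  have := (SC_P.mul zero_le_one SC_H).mul (by norm_num) SC_P
  show SC (fun n => P n * H * P n) H 1
  simpa using this

noncomputable def D (n : ℕ) : E →L[ℂ] E := P n - Gn n * Hn n
noncomputable def D' (n : ℕ) : E →L[ℂ] E := P n - Hn n * Gn n

lemma SC_D : SC D (1 - G * H) 2 := by
  have := SC_P.sub (SC_Gn.mul zero_le_one SC_Hn)
  norm_num at this
  exact this

lemma SC_D' : SC D' 0 2 := by
  have := SC_P.sub (SC_Hn.mul zero_le_one SC_Gn)
  rw [HG] at this
  norm_num at this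
  exact this

noncomputable def A (n : ℕ) : E →L[ℂ] E := D n * D' n

lemma A_tendsto (x : E) : Tendsto (fun n => A n x) atTop (𝓝 0) := by
  have := (SC_D.mul (by norm_num) SC_D').2 x
  show Tendsto (fun n => (D n * D' n) x) atTop (𝓝 0)
  simpa using this

lemma W_Gn_W (n : ℕ) : W n * Gn n * W n = Hn n := by
  unfold Gn Hn
  have : W n * (P n * G * P n) * W n = (W n * P n) * G * (P n * W n) := by
    simp only [mul_assoc]
  rw [this, W_P, P_W, W_G_W]

lemma W_Hn_W (n : ℕ) : W n * Hn n * W n = Gn n := by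
  unfold Gn Hn
  have : W n * (P n * H * P n) * W n = (W n * P n) * H * (P n * W n) := by
    simp only [mul_assoc]
  rw [this, W_P, P_W, W_H_W]

lemma P_Gn (n : ℕ) : P n * Gn n = Gn n := by
  unfold Gn; rw [← mul_assoc, ← mul_assoc, P_P]
lemma Gn_P (n : ℕ) : Gn n * P n = Gn n := by
  unfold Gn; rw [mul_assoc, P_P]
lemma P_Hn (n : ℕ) : P n * Hn n = Hn n := by
  unfold Hn; rw [← mul_assoc, ← mul_assoc, P_P]
lemma Hn_P (n : ℕ) : Hn n * P n = Hn n := by
  unfold Hn; rw [mul_assoc, P_P]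

lemma W_D_W (n : ℕ) : W n * D n * W n = D' n := by
  unfold D D'
  have h1 : W n * (P n - Gn n * Hn n) * W n = W n * P n * W n - W n * Gn n * (Hn n * W n) := by
    simp only [mul_sub, sub_mul, mul_assoc]
  rw [h1, W_P, W_W]
  congr 1
  calc W n * Gn n * (Hn n * W n) = W n * (Gn n * P n) * (Hn n * W n) := by rw [Gn_P]
    _ = (W n * Gn n * W n) * (W n * Hn n * W n) := by rw [← W_W n]; simp only [mul_assoc]
    _ = _ := by rw [W_Gn_W, W_Hn_W]

lemma W_D'_W (n : ℕ) : W n * D' n * W n = D n := by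
  unfold D D'
  have h1 : W n * (P n - Hn n * Gn n) * W n = W n * P n * W n - W n * Hn n * (Gn n * W n) := by
    simp only [mul_sub, sub_mul, mul_assoc]
  rw [h1, W_P, W_W]
  congr 1
  calc W n * Hn n * (Gn n * W n) = W n * (Hn n * P n) * (Gn n * W n) := by rw [Hn_P]
    _ = (W n * Hn n * W n) * (W n * Gn n * W n) := by rw [← W_W n]; simp only [mul_assoc]
    _ = _ := by rw [W_Gn_W, W_Hn_W]

lemma D_P (n : ℕ) : D n * P n = D n := by
  unfold D; rw [sub_mul, P_P, mul_assoc, Hn_P]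

lemma W_A_W (n : ℕ) : W n * A n * W n = D' n * D n := by
  unfold A
  calc W n * (D n * D' n) * W n = W n * (D n * P n) * (D' n * W n) := by
        rw [D_P]; simp only [mul_assoc]
    _ = (W n * D n * W n) * (W n * D' n * W n) := by rw [← W_W n]; simp only [mul_assoc]
    _ = _ := by rw [W_D_W, W_D'_W]

lemma WAW_tendsto (x : E) : Tendsto (fun n => (W n * A n * W n) x) atTop (𝓝 0) := by
  have := (SC_D'.mul (by norm_num) SC_D).2 x
  simp_rw [W_A_W]
  simpa using this

/-- weakly null sequences and compact operators -/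
lemma compact_null (K : E →L[ℂ] E) (hK : IsCompactOperator K) (z : ℕ → E) (hz : ∀ n, ‖z n‖ ≤ 1)
    (hc : ∀ j, Tendsto (fun n => (z n) j) atTop (𝓝 0)) :
    Tendsto (fun n => K (z n)) atTop (𝓝 0) := by
  have hw : ∀ y : E, Tendsto (fun n => inner ℂ y (z n)) atTop (𝓝 0) := by
    intro y
    rw [Metric.tendsto_atTop]
    intro ε hε
    obtain ⟨N, hN⟩ := (Metric.tendsto_atTop.mp (P_tendsto y)) (ε/2) (by positivity)
    have hN' := hN N le_rfl
    rw [dist_eq_norm] at hN'
    have h1 : Tendsto (fun n => (inner ℂ (P N y) (z n) : ℂ)) atTop (𝓝 0) := by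
      simp_rw [inner_P]
      rw [← Finset.sum_const_zero (s := Finset.range (N+1))]
      apply tendsto_finset_sum
      intro j _
      have := (hc j).const_mul (starRingEnd ℂ (y j))
      simpa using this
    obtain ⟨M, hM⟩ := (Metric.tendsto_atTop.mp h1) (ε/2) (by positivity)
    refine ⟨M, fun n hn => ?_⟩
    have h2 := hM n hn
    rw [dist_zero_right] at h2 ⊢
    have h3 : inner ℂ y (z n) = inner ℂ (P N y) (z n) - inner ℂ (P N y - y) (z n) := by
      rw [inner_sub_left]; ring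
    rw [h3]
    calc _ ≤ ‖(inner ℂ (P N y) (z n) : ℂ)‖ + ‖(inner ℂ (P N y - y) (z n) : ℂ)‖ := norm_sub_le _ _
      _ ≤ ‖(inner ℂ (P N y) (z n) : ℂ)‖ + ‖P N y - y‖ * ‖z n‖ := by
          gcongr; exact norm_inner_le_norm _ _
      _ ≤ ‖(inner ℂ (P N y) (z n) : ℂ)‖ + ‖P N y - y‖ * 1 := by
          gcongr; exact hz n
      _ < ε := by linarith
  obtain ⟨S, hS, hS2⟩ := hK.image_subset_compact_of_bounded (f := (K : E →ₗ[ℂ] E)) (S := Metric.closedBall 0 1) Metric.isBounded_closedBall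
  refine hS.tendsto_nhds_of_unique_mapClusterPt ?_ ?_
  · refine Filter.Eventually.of_forall fun n => hS2 ⟨z n, ?_, rfl⟩
    rw [mem_closedBall_zero_iff]; exact hz n
  · intro y' _ hy'
    have h1 : ∀ x : E, inner ℂ x y' = (0:ℂ) := by
      intro x
      have h2 : MapClusterPt (inner ℂ x y' : ℂ) atTop ((fun y => (inner ℂ x y : ℂ)) ∘ fun n => K (z n)) := by
        apply hy'.continuousAt_comp
        fun_prop
      have h3 : Tendsto ((fun y => (inner ℂ x y : ℂ)) ∘ fun n => K (z n)) atTop (𝓝 0) := by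
        have := hw (ContinuousLinearMap.adjoint K x)
        refine this.congr ?_
        intro n
        simp only [Function.comp]
        rw [ContinuousLinearMap.adjoint_inner_left]
      by_contra hne
      obtain ⟨U, V, hU, hV, hxU, hxV, hd⟩ := t2_separation hne
      have h4 := h2.frequently (hU.mem_nhds hxU)
      have h5 := h3 (hV.mem_nhds hxV)
      obtain ⟨n, hn1, hn2⟩ := (h4.and_eventually h5).exists
      exact Set.disjoint_left.mp hd hn1 hn2
    have := h1 y'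
    rwa [inner_self_eq_zero] at this

end Pool.Agent.S03782.Main1

end

section
open Pool.Agent.S03782.Inner Pool.Agent.S03782.Ell2 Pool.Agent.S03782.PW Pool.Agent.S03782.Main1

namespace Pool.Agent.S03782.Main2

lemma v_mem (r : ℝ) (h0 : 0 ≤ r) (h1 : r < 1) :
    Memℓp (fun j : ℕ => ((Real.sqrt (1 - r^2) * r ^ j : ℝ) : ℂ)) 2 := by
  apply memℓp_gen
  have h2 : Summable (fun j : ℕ => (1 - r^2) * (r^2) ^ j) :=
    (summable_geometric_of_lt_one (by positivity) (by nlinarith)).mul_left _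
  refine h2.congr ?_
  intro j
  have h3 : (0:ℝ) ≤ 1 - r^2 := by nlinarith
  have : ‖((Real.sqrt (1 - r^2) * r ^ j : ℝ) : ℂ)‖ = Real.sqrt (1 - r^2) * r ^ j := by
    rw [Complex.norm_real, Real.norm_eq_abs, abs_of_nonneg (by positivity)]
  rw [this]
  simp only [ENNReal.toReal_ofNat, Real.rpow_ofNat]
  rw [mul_pow, Real.sq_sqrt h3]
  ring

noncomputable def v (r : ℝ) (h0 : 0 ≤ r) (h1 : r < 1) : E :=
  ⟨fun j => ((Real.sqrt (1 - r^2) * r ^ j : ℝ) : ℂ), v_mem r h0 h1⟩

lemma v_apply (r : ℝ) (h0 : 0 ≤ r) (h1 : r < 1) (j : ℕ) :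
    (v r h0 h1) j = ((Real.sqrt (1 - r^2) * r ^ j : ℝ) : ℂ) := rfl

lemma v_norm (r : ℝ) (h0 : 0 ≤ r) (h1 : r < 1) : ‖v r h0 h1‖ = 1 := by
  have h3 : (0:ℝ) ≤ 1 - r^2 := by nlinarith
  have h := lp.hasSum_inner (𝕜 := ℂ) (v r h0 h1) (v r h0 h1)
  have h2 : HasSum (fun j : ℕ => (((1 - r^2) * (r^2) ^ j : ℝ) : ℂ)) (((1 - r^2) * (1 - r^2)⁻¹ : ℝ) : ℂ) := by
    rw [Complex.hasSum_ofReal]
    exact (hasSum_geometric_of_lt_one (by positivity) (by nlinarith)).mul_left _
  have h4 : ∀ j : ℕ, (inner ℂ ((v r h0 h1) j) ((v r h0 h1) j) : ℂ) = (((1 - r^2) * (r^2) ^ j : ℝ) : ℂ) := by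
    intro j
    rw [v_apply, RCLike.inner_apply, Complex.conj_ofReal, ← Complex.ofReal_mul]
    congr 1
    have := Real.mul_self_sqrt h3
    calc _ = (Real.sqrt (1 - r^2) * Real.sqrt (1 - r^2)) * (r^j * r^j) := by ring
      _ = _ := by rw [this]; ring
  simp_rw [h4] at h
  have h5 := h.unique h2
  rw [mul_inv_cancel₀ (by nlinarith)] at h5
  have h6 : ‖v r h0 h1‖ ^ 2 = 1 := by
    rw [← inner_self_eq_norm_sq (𝕜 := ℂ), h5]; simp
  have := norm_nonneg (v r h0 h1)
  nlinarith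

lemma H_v (r : ℝ) (h0 : 0 ≤ r) (h1 : r < 1) : H (v r h0 h1) = F r • v r h0 h1 := by
  apply E_ext
  intro k
  rw [← inner_e]
  unfold H
  rw [ContinuousLinearMap.adjoint_inner_right, G_e]
  have h := lp.hasSum_inner (𝕜 := ℂ) (u k) (v r h0 h1)
  have h2 : HasSum (fun j : ℕ => (inner ℂ ((u k) j) ((v r h0 h1) j) : ℂ))
      (((Real.sqrt (1 - r^2) * r ^ k : ℝ) : ℂ) * F r) := by
    have h3 := (hasSum_c r h0 h1).mul_left (((Real.sqrt (1 - r^2) * r ^ k : ℝ) : ℂ))
    have h4 := (Function.Injective.hasSum_iff (add_left_injective k)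
      (f := fun j : ℕ => (inner ℂ ((u k) j) ((v r h0 h1) j) : ℂ)) (a := ((Real.sqrt (1 - r^2) * r ^ k : ℝ) : ℂ) * F r) ?_).mp ?_
    · exact h4
    · intro j hj
      rw [u_apply, c_neg _ (by
        by_contra hh
        apply hj
        exact ⟨j - k, by simp; omega⟩)]
      simp
    · refine h3.congr_fun ?_
      intro m
      simp only [Function.comp]
      rw [u_apply, v_apply, RCLike.inner_apply, c_real]
      have : ((m + k : ℕ) : ℤ) - (k:ℤ) = m := by push_cast; ring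
      rw [this]
      push_cast
      ring
  rw [h.unique h2]
  have h7 : (F r • v r h0 h1) k = F r * (v r h0 h1) k := rfl
  rw [h7, v_apply]
  ring

lemma inner_Pv_v (r : ℝ) (h0 : 0 ≤ r) (h1 : r < 1) (n : ℕ) :
    (inner ℂ (P n (v r h0 h1)) (v r h0 h1) : ℂ) = ((1 - r^(2*(n+1)) : ℝ) : ℂ) := by
  have h3 : (0:ℝ) ≤ 1 - r^2 := by nlinarith
  rw [inner_P]
  have h4 : ∀ j : ℕ, starRingEnd ℂ ((v r h0 h1) j) * ((v r h0 h1) j) = (((1 - r^2) * (r^2) ^ j : ℝ) : ℂ) := by
    intro j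
    rw [v_apply, Complex.conj_ofReal, ← Complex.ofReal_mul]
    congr 1
    have := Real.mul_self_sqrt h3
    calc _ = (Real.sqrt (1 - r^2) * Real.sqrt (1 - r^2)) * (r^j * r^j) := by ring
      _ = _ := by rw [this]; ring
  simp_rw [h4]
  rw [← Complex.ofReal_sum]
  congr 1
  rw [← Finset.mul_sum]
  have := mul_neg_geom_sum (r^2) (n+1)
  rw [this, ← pow_mul]

lemma tail_norm (r : ℝ) (h0 : 0 ≤ r) (h1 : r < 1) (n : ℕ) :
    ‖v r h0 h1 - P n (v r h0 h1)‖ = r ^ (n+1) := by
  have h2 : (inner ℂ (v r h0 h1 - P n (v r h0 h1)) (v r h0 h1 - P n (v r h0 h1)) : ℂ)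
      = ((r^(2*(n+1)) : ℝ) : ℂ) := by
    rw [inner_sub_left, inner_sub_right, inner_sub_right]
    have h3 : (inner ℂ (v r h0 h1) (P n (v r h0 h1)) : ℂ) = inner ℂ (P n (v r h0 h1)) (v r h0 h1) :=
      (P_sa n _ _).symm
    have h4 : (inner ℂ (P n (v r h0 h1)) (P n (v r h0 h1)) : ℂ) = inner ℂ (P n (v r h0 h1)) (v r h0 h1) := by
      rw [P_sa n _ (P n (v r h0 h1)), ← ContinuousLinearMap.mul_apply, P_P, h3]
    rw [h3, h4, inner_Pv_v, inner_self_eq_norm_sq_to_K, v_norm]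
    push_cast
    simp
  have h6 : ‖v r h0 h1 - P n (v r h0 h1)‖ ^ 2 = (r ^ (n+1))^2 := by
    rw [← pow_mul, mul_comm (n+1) 2]
    rw [← inner_self_eq_norm_sq (𝕜 := ℂ), h2]
    exact Complex.ofReal_re _
  have := norm_nonneg (v r h0 h1 - P n (v r h0 h1))
  have h8 : 0 ≤ r^(n+1) := by positivity
  exact (sq_eq_sq₀ this h8).mp h6

lemma inner_Wv_v (r : ℝ) (h0 : 0 ≤ r) (h1 : r < 1) (n : ℕ) :
    (inner ℂ (W n (v r h0 h1)) (v r h0 h1) : ℂ) = ((((n:ℝ)+1) * (1 - r^2) * r^n : ℝ) : ℂ) := by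
  have h3 : (0:ℝ) ≤ 1 - r^2 := by nlinarith
  rw [inner_W]
  have h4 : ∀ j ∈ Finset.range (n+1), starRingEnd ℂ ((v r h0 h1) (n - j)) * ((v r h0 h1) j)
      = (((1 - r^2) * r ^ n : ℝ) : ℂ) := by
    intro j hj
    rw [v_apply, v_apply, Complex.conj_ofReal, ← Complex.ofReal_mul]
    congr 1
    have := Real.mul_self_sqrt h3
    have hj' : j ≤ n := by simpa [Nat.lt_succ_iff] using hj
    have h5 : r ^ (n - j) * r ^ j = r ^ n := by rw [← pow_add]; congr 1; omega
    calc _ = (Real.sqrt (1 - r^2) * Real.sqrt (1 - r^2)) * (r^(n-j) * r^j) := by ring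
      _ = _ := by rw [this, h5]
  rw [Finset.sum_congr rfl h4, Finset.sum_const, Finset.card_range]
  push_cast
  simp
  ring

lemma Gn_norm (n : ℕ) (x : E) : ‖Gn n x‖ ≤ ‖x‖ := by
  have := SC_Gn.1 n x; rwa [one_mul] at this
lemma Hn_norm (n : ℕ) (x : E) : ‖Hn n x‖ ≤ ‖x‖ := by
  have := SC_Hn.1 n x; rwa [one_mul] at this

lemma D_sa (n : ℕ) (x y : E) : (inner ℂ (D n x) y : ℂ) = inner ℂ x (D n y) := by
  unfold D Gn Hn
  simp only [ContinuousLinearMap.sub_apply, ContinuousLinearMap.mul_apply]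
  rw [inner_sub_left, inner_sub_right, P_sa]
  congr 1
  rw [P_sa]
  unfold H
  rw [← ContinuousLinearMap.adjoint_inner_right, P_sa, P_sa,
    ContinuousLinearMap.adjoint_inner_left, P_sa]

/-- main lower bound -/
lemma lower (r : ℝ) (h0 : 0 ≤ r) (h1 : r < 1) (n : ℕ) :
    ((n:ℝ)+1) * (1 - r^2) * r^n - 2 * (‖F r‖ + r^(n+1)) - (‖F r‖ + r^(n+1))^2 ≤
    ‖(inner ℂ (P n (v r h0 h1)) (A n (W n (v r h0 h1))) : ℂ)‖ := by
  set V := v r h0 h1 with hV
  set δ := ‖F r‖ + r^(n+1) with hδ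
  have hVn : ‖V‖ = 1 := v_norm r h0 h1
  -- D' (W V) = W D V
  have e1 : D' n (W n V) = W n (D n V) := by
    rw [← W_D_W]
    simp only [ContinuousLinearMap.mul_apply]
    rw [← ContinuousLinearMap.mul_apply (W n) (W n), W_W, ← ContinuousLinearMap.mul_apply (D n) (P n), D_P]
  have e2 : (inner ℂ (P n V) (A n (W n V)) : ℂ) = inner ℂ (D n V) (W n (D n V)) := by
    unfold A
    rw [ContinuousLinearMap.mul_apply, e1, ← D_sa, ← ContinuousLinearMap.mul_apply (D n) (P n), D_P]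
  rw [e2]
  set f := Gn n (Hn n V) with hf
  have e3 : D n V = P n V - f := rfl
  have hfn : ‖f‖ ≤ δ := by
    rw [hf]
    refine (Gn_norm n _).trans ?_
    have e4 : Hn n V = P n (H (P n V)) := rfl
    rw [e4]
    refine (P_norm n _).trans ?_
    have e5 : H (P n V) = F r • V - H (V - P n V) := by
      rw [map_sub, H_v]; abel
    rw [e5]
    refine (norm_sub_le _ _).trans ?_
    rw [norm_smul, hVn, mul_one, hδ]
    gcongr
    refine (H_norm _).trans ?_
    rw [hV, tail_norm]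
  have hδ0 : 0 ≤ δ := le_trans (norm_nonneg _) hfn
  have hPV : ‖P n V‖ ≤ 1 := by rw [← hVn]; exact P_norm n V
  have e6 : (inner ℂ (P n V) (W n (P n V)) : ℂ) = ((((n:ℝ)+1) * (1 - r^2) * r^n : ℝ) : ℂ) := by
    rw [← W_sa, ← ContinuousLinearMap.mul_apply (W n) (P n), W_P, ← P_sa,
      ← ContinuousLinearMap.mul_apply (P n) (W n), P_W]
    exact inner_Wv_v r h0 h1 n
  have e7 : (inner ℂ (D n V) (W n (D n V)) : ℂ) = inner ℂ (P n V) (W n (P n V))
      - (inner ℂ f (W n (P n V)) + inner ℂ (P n V) (W n f) - inner ℂ f (W n f)) := by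
    rw [e3, map_sub, inner_sub_left, inner_sub_right, inner_sub_right]
    ring
  rw [e7, e6]
  have b1 : ‖(inner ℂ f (W n (P n V)) : ℂ)‖ ≤ δ := by
    calc _ ≤ ‖f‖ * ‖W n (P n V)‖ := norm_inner_le_norm _ _
      _ ≤ δ * 1 := by
        gcongr
        exact (W_norm n _).trans hPV
      _ = δ := mul_one _
  have b2 : ‖(inner ℂ (P n V) (W n f) : ℂ)‖ ≤ δ := by
    calc _ ≤ ‖P n V‖ * ‖W n f‖ := norm_inner_le_norm _ _
      _ ≤ 1 * δ := by
        gcongr
        exact (W_norm n _).trans hfn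
      _ = δ := one_mul _
  have b3 : ‖(inner ℂ f (W n f) : ℂ)‖ ≤ δ ^ 2 := by
    calc _ ≤ ‖f‖ * ‖W n f‖ := norm_inner_le_norm _ _
      _ ≤ δ * δ := by
        gcongr
        exact (W_norm n _).trans hfn
      _ = δ ^ 2 := by ring
  have b4 : ‖(inner ℂ f (W n (P n V)) + inner ℂ (P n V) (W n f) - inner ℂ f (W n f) : ℂ)‖ ≤ 2 * δ + δ^2 := by
    refine (norm_sub_le _ _).trans ?_
    have := norm_add_le (inner ℂ f (W n (P n V)) : ℂ) (inner ℂ (P n V) (W n f))
    linarith
  have b5 := norm_sub_norm_le ((((n:ℝ)+1) * (1 - r^2) * r^n : ℝ) : ℂ)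
    (inner ℂ f (W n (P n V)) + inner ℂ (P n V) (W n f) - inner ℂ f (W n f) : ℂ)
  have b6 : ((n:ℝ)+1) * (1 - r^2) * r^n ≤ ‖((((n:ℝ)+1) * (1 - r^2) * r^n : ℝ) : ℂ)‖ := by
    rw [Complex.norm_real]; exact Real.le_norm_self _
  linarith

end Pool.Agent.S03782.Main2

end

section
open Pool.Agent.S03782.Inner Pool.Agent.S03782.Ell2 Pool.Agent.S03782.PW Pool.Agent.S03782.Main1 Pool.Agent.S03782.Main2

namespace Pool.Agent.S03782.Main3

noncomputable def rr (m : ℕ) : ℝ := 1 + (-2) / ((m + 2 : ℕ) : ℝ)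

lemma rr_eq (m : ℕ) : rr m = 1 - 2 / ((m:ℝ) + 2) := by
  unfold rr; push_cast; ring

lemma rr_nonneg (m : ℕ) : 0 ≤ rr m := by
  rw [rr_eq]
  have : (2:ℝ) / ((m:ℝ) + 2) ≤ 1 := by
    rw [div_le_one (by positivity)]; linarith [Nat.cast_nonneg (α := ℝ) m]
  linarith

lemma rr_lt (m : ℕ) : rr m < 1 := by
  rw [rr_eq]
  have : (0:ℝ) < 2 / ((m:ℝ) + 2) := by positivity
  linarith

lemma inv_tendsto : Tendsto (fun m : ℕ => 1 / ((m:ℝ) + 2)) atTop (𝓝 0) := by
  have h1 : Tendsto (fun n : ℕ => (n:ℝ) + 2) atTop atTop :=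
    tendsto_atTop_add_const_right _ _ tendsto_natCast_atTop_atTop
  exact tendsto_const_nhds.div_atTop h1

lemma rr_tendsto : Tendsto rr atTop (𝓝 1) := by
  have h := (inv_tendsto.const_mul 2).const_sub 1
  simp only [mul_zero, sub_zero] at h
  refine h.congr ?_
  intro m
  rw [rr_eq]; ring

lemma q_tendsto : Tendsto (fun m => rr m ^ (m+2)) atTop (𝓝 (Real.exp (-2))) := by
  have h := Real.tendsto_one_add_div_pow_exp (-2)
  exact (tendsto_add_atTop_iff_nat 2).mpr h

lemma F_rr (m : ℕ) : ‖F (rr m)‖ = Real.exp (-((m:ℝ)+1)) := by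
  unfold F
  have h1 : -((1 + (rr m : ℂ)) / (1 - (rr m : ℂ))) = ((-((1 + rr m) / (1 - rr m)) : ℝ) : ℂ) := by
    push_cast; ring
  rw [h1, Complex.norm_exp_ofReal]
  congr 2
  rw [rr_eq]
  have : ((m:ℝ) + 2) ≠ 0 := by positivity
  field_simp
  ring

lemma p_tendsto : Tendsto (fun m => ‖F (rr m)‖) atTop (𝓝 0) := by
  simp_rw [F_rr]
  apply Real.tendsto_exp_neg_atTop_nhds_zero.comp
  exact tendsto_atTop_add_const_right _ _ tendsto_natCast_atTop_atTop

/-- test vector -/
noncomputable def V (m : ℕ) : E := v (rr m) (rr_nonneg m) (rr_lt m)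

noncomputable def L (m : ℕ) : ℝ :=
  (4 - 4 * (1 / ((m:ℝ) + 2))) * rr m ^ (m+2) - 2 * (‖F (rr m)‖ + rr m ^ (m+2)) - (‖F (rr m)‖ + rr m ^ (m+2))^2

lemma L_tendsto : Tendsto L atTop (𝓝 (Real.exp (-2) * (2 - Real.exp (-2)))) := by
  have h1 := (inv_tendsto.const_mul 4).const_sub 4
  have h2 := (p_tendsto.add q_tendsto).const_mul 2
  have h3 := (p_tendsto.add q_tendsto).pow 2
  have h4 := ((h1.mul q_tendsto).sub h2).sub h3
  have h5 : (4 - 4 * 0) * Real.exp (-2) - 2 * (0 + Real.exp (-2)) - (0 + Real.exp (-2)) ^ 2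
    = Real.exp (-2) * (2 - Real.exp (-2)) := by ring
  rw [h5] at h4
  exact h4

lemma lim_pos : 0 < Real.exp (-2) * (2 - Real.exp (-2)) := by
  apply mul_pos (Real.exp_pos _)
  have : Real.exp (-2) < 1 := by
    rw [Real.exp_lt_one_iff]; norm_num
  linarith

lemma L_le (m : ℕ) : L m ≤ ‖(inner ℂ (P (m+1) (V m)) (A (m+1) (W (m+1) (V m))) : ℂ)‖ := by
  refine le_trans ?_ (lower (rr m) (rr_nonneg m) (rr_lt m) (m+1))
  unfold L
  have h0 := rr_nonneg m
  have h1 := rr_lt m
  have h2 : (((m+1:ℕ):ℝ)+1) * (1 - rr m ^ 2) = 4 - 4 * (1 / ((m:ℝ) + 2)) := by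
    rw [rr_eq]
    have : ((m:ℝ) + 2) ≠ 0 := by positivity
    push_cast
    field_simp
    ring
  rw [h2]
  have h3 : rr m ^ (m+2) ≤ rr m ^ (m+1) := pow_le_pow_of_le_one h0 h1.le (by omega)
  have h4 : 0 ≤ 4 - 4 * (1 / ((m:ℝ) + 2)) := by
    have : (1:ℝ) / ((m:ℝ) + 2) ≤ 1 := by
      rw [div_le_one (by positivity)]; linarith [Nat.cast_nonneg (α := ℝ) m]
    linarith
  have h5 := mul_le_mul_of_nonneg_left h3 h4
  have h6 : m + 1 + 1 = m + 2 := rfl
  rw [h6]
  linarith

lemma s_tendsto : Tendsto (fun m => Real.sqrt (1 - rr m ^ 2)) atTop (𝓝 0) := by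
  have h := ((rr_tendsto.pow 2).const_sub 1).sqrt
  simpa using h

lemma V_coord (m j : ℕ) : ‖(V m) j‖ ≤ Real.sqrt (1 - rr m ^ 2) := by
  unfold V
  rw [v_apply, Complex.norm_real, Real.norm_eq_abs]
  have h0 := rr_nonneg m
  have h1 := rr_lt m
  rw [abs_of_nonneg (by positivity)]
  have : rr m ^ j ≤ 1 := pow_le_one₀ h0 h1.le
  calc _ ≤ Real.sqrt (1 - rr m ^ 2) * 1 := by gcongr
    _ = _ := mul_one _

lemma PV_null (K : E →L[ℂ] E) (hK : IsCompactOperator K) :
    Tendsto (fun m => K (P (m+1) (V m))) atTop (𝓝 0) := by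
  apply compact_null K hK
  · intro m
    refine (P_norm _ _).trans ?_
    exact (v_norm _ _ _).le
  · intro j
    apply squeeze_zero_norm _ s_tendsto
    intro m
    rw [P_apply]
    split_ifs
    · exact V_coord m j
    · simp

lemma WV_null (K : E →L[ℂ] E) (hK : IsCompactOperator K) :
    Tendsto (fun m => K (W (m+1) (V m))) atTop (𝓝 0) := by
  apply compact_null K hK
  · intro m
    refine (W_norm _ _).trans ?_
    exact (v_norm _ _ _).le
  · intro j
    apply squeeze_zero_norm _ s_tendsto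
    intro m
    rw [W_apply]
    split_ifs
    · exact V_coord m _
    · simp

lemma not_J : ¬ (∃ K K' : E →L[ℂ] E,
        IsCompactOperator K ∧ IsCompactOperator K' ∧
        ∃ C : ℕ → (E →L[ℂ] E),
          (∀ n, C n = P n * C n * P n) ∧
          Tendsto (fun n => ‖C n‖) atTop (𝓝 0) ∧
          ∀ n, A n = P n * K * P n + W n * K' * W n + C n) := by
  rintro ⟨K, K', hK, hK', C, -, hC, hA⟩
  have h1 : ∀ m, L m ≤ ‖K (W (m+1) (V m))‖ + ‖K' (P (m+1) (V m))‖ + ‖C (m+1)‖ := by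
    intro m
    refine (L_le m).trans ?_
    have hV : ‖V m‖ = 1 := v_norm _ _ _
    have hPV : ‖P (m+1) (V m)‖ ≤ 1 := by rw [← hV]; exact P_norm _ _
    have hWV : ‖W (m+1) (V m)‖ ≤ 1 := by rw [← hV]; exact W_norm _ _
    have h2 : A (m+1) (W (m+1) (V m)) = P (m+1) (K (W (m+1) (V m))) + W (m+1) (K' (P (m+1) (V m)))
        + C (m+1) (W (m+1) (V m)) := by
      rw [hA]
      simp only [ContinuousLinearMap.add_apply, ContinuousLinearMap.mul_apply]
      rw [← ContinuousLinearMap.mul_apply (P (m+1)) (W (m+1)), P_W,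
        ← ContinuousLinearMap.mul_apply (W (m+1)) (W (m+1)), W_W]
    calc _ ≤ ‖P (m+1) (V m)‖ * ‖A (m+1) (W (m+1) (V m))‖ := norm_inner_le_norm _ _
      _ ≤ 1 * ‖A (m+1) (W (m+1) (V m))‖ := by gcongr
      _ = ‖A (m+1) (W (m+1) (V m))‖ := one_mul _
      _ ≤ _ := by
        rw [h2]
        refine (norm_add₃_le).trans ?_
        have a1 := P_norm (m+1) (K (W (m+1) (V m)))
        have a2 := W_norm (m+1) (K' (P (m+1) (V m)))
        have a3 : ‖C (m+1) (W (m+1) (V m))‖ ≤ ‖C (m+1)‖ := by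
          refine ((C (m+1)).le_opNorm _).trans ?_
          calc _ ≤ ‖C (m+1)‖ * 1 := by gcongr
            _ = _ := mul_one _
        linarith
  have h2 : Tendsto (fun m => ‖K (W (m+1) (V m))‖ + ‖K' (P (m+1) (V m))‖ + ‖C (m+1)‖) atTop (𝓝 0) := by
    have b1 := (WV_null K hK).norm
    have b2 := (PV_null K' hK').norm
    have b3 := (tendsto_add_atTop_iff_nat 1).mpr hC
    have := (b1.add b2).add b3
    simpa using this
  have h3 := le_of_tendsto_of_tendsto' L_tendsto h2 h1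
  exact absurd h3 (not_le.mpr lim_pos)

/-- the generating set of the statement -/
def S : Set (ℕ → (E →L[ℂ] E)) :=
  {G : ℕ → (lp (fun _ : ℕ => ℂ) 2 →L[ℂ] lp (fun _ : ℕ => ℂ) 2) |
              ∃ a : Lp ℂ ⊤ (volume : Measure (AddCircle (1 : ℝ))),
              ∃ T : lp (fun _ : ℕ => ℂ) 2 →L[ℂ] lp (fun _ : ℕ => ℂ) 2,
                (∀ j k : ℕ, (T (lp.single 2 k (1 : ℂ) : lp (fun _ : ℕ => ℂ) 2)) j
                    = fourierCoeff (⇑a : AddCircle (1 : ℝ) → ℂ) ((j : ℤ) - (k : ℤ))) ∧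
                ∀ n, G n = P n * T * P n}

lemma vol_eq : (volume : Measure (AddCircle (1:ℝ))) = AddCircle.haarAddCircle := by
  rw [AddCircle.volume_eq_smul_haarAddCircle]
  simp

lemma mem_S (f : AddCircle (1:ℝ) → ℂ) (hf : Measurable f) (hb : ∀ t, ‖f t‖ ≤ 1) (T : E →L[ℂ] E)
    (hT : ∀ j k : ℕ, (T (e k)) j = fourierCoeff f ((j:ℤ) - (k:ℤ))) :
    (fun n => P n * T * P n) ∈ S := by
  have hm : MemLp f ⊤ (volume : Measure (AddCircle (1:ℝ))) :=
    memLp_top_of_bound hf.aestronglyMeasurable 1 (Filter.Eventually.of_forall hb)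
  refine ⟨hm.toLp f, T, ?_, fun n => rfl⟩
  intro j k
  have h1 : (hm.toLp f : AddCircle (1:ℝ) → ℂ) =ᵐ[AddCircle.haarAddCircle] f := by
    exact hm.coeFn_toLp.filter_mono (ae_mono vol_eq.ge)
  rw [fourierCoeff_congr_ae h1]
  exact hT j k

lemma P_mem : P ∈ S := by
  have h := mem_S (fun _ => 1) measurable_const (fun t => by simp) 1 (by
    intro j k
    have h3 := congrFun (fourierCoeff_fourier (T := (1:ℝ)) 0) ((j:ℤ) - k)
    have h4 : (⇑(fourier 0 : C(AddCircle (1:ℝ), ℂ))) = (fun _ => (1:ℂ)) := by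
      ext t; simp
    rw [h4] at h3
    rw [h3, Pi.single_apply]
    show (e k) j = _
    rw [e_apply]
    congr 1
    simp only [eq_iff_iff]
    omega)
  have h2 : (fun n => P n * 1 * P n) = P := by
    funext n; rw [mul_one, P_P]
  rwa [h2] at h

lemma G_mem : Gn ∈ S := mem_S g g_meas (fun t => (g_norm t).le) G G_entry

lemma H_mem : Hn ∈ S := by
  refine mem_S (fun t => starRingEnd ℂ (g t)) ?_ ?_ H ?_
  · exact Complex.continuous_conj.measurable.comp g_meas
  · intro t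
    rw [RCLike.norm_conj]; exact (g_norm t).le
  · intro j k
    rw [H_entry]
    have h1 : c ((k:ℤ) - j) = fourierCoeff g ((k:ℤ) - j) := rfl
    rw [← h1, ← c_real]
    unfold c fourierCoeff
    rw [← integral_conj]
    congr 1
    ext t
    simp only [smul_eq_mul, map_mul]
    rw [← fourier_neg]
    congr 3
    ring

lemma A_mem : A ∈ NonUnitalAlgebra.adjoin ℂ S := by
  have hP := NonUnitalAlgebra.subset_adjoin ℂ (s := S) P_mem
  have hG := NonUnitalAlgebra.subset_adjoin ℂ (s := S) G_mem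
  have hH := NonUnitalAlgebra.subset_adjoin ℂ (s := S) H_mem
  have h1 : A = (P - Gn * Hn) * (P - Hn * Gn) := rfl
  rw [h1]
  exact mul_mem (sub_mem hP (mul_mem hG hH)) (sub_mem hP (mul_mem hH hG))

end Pool.Agent.S03782.Main3

end

namespace Pool.Agent.S03782

/-- The negation of the preceding statement: On ℓ²(ℕ), a finite-section sequence has the form P_nKP_n+W_nK'W_n+C_n (K,K' compact, ‖C_n‖→0) iff it lies in the closed algebra generated by P_nT(a)P_n, a∈L^∞, and both s-lim A_n and s-lim W_nA_nW_n are compact. -/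
theorem result :
    ¬ (∀ (P W : ℕ → (lp (fun _ : ℕ => ℂ) 2 →L[ℂ] lp (fun _ : ℕ => ℂ) 2)),
    (∀ (n : ℕ) (x : lp (fun _ : ℕ => ℂ) 2) (j : ℕ), (P n x) j = if j ≤ n then x j else 0) →
    (∀ (n : ℕ) (x : lp (fun _ : ℕ => ℂ) 2) (j : ℕ), (W n x) j = if j ≤ n then x (n - j) else 0) →
    ∀ A : ℕ → (lp (fun _ : ℕ => ℂ) 2 →L[ℂ] lp (fun _ : ℕ => ℂ) 2),
      (∃ K K' : lp (fun _ : ℕ => ℂ) 2 →L[ℂ] lp (fun _ : ℕ => ℂ) 2,
        IsCompactOperator K ∧ IsCompactOperator K' ∧
        ∃ C : ℕ → (lp (fun _ : ℕ => ℂ) 2 →L[ℂ] lp (fun _ : ℕ => ℂ) 2),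
          (∀ n, C n = P n * C n * P n) ∧
          Tendsto (fun n => ‖C n‖) atTop (𝓝 0) ∧
          ∀ n, A n = P n * K * P n + W n * K' * W n + C n)
      ↔
      ((∀ ε : ℝ, 0 < ε →
          ∃ B ∈ NonUnitalAlgebra.adjoin ℂ
            {G : ℕ → (lp (fun _ : ℕ => ℂ) 2 →L[ℂ] lp (fun _ : ℕ => ℂ) 2) |
              ∃ a : Lp ℂ ⊤ (volume : Measure (AddCircle (1 : ℝ))),
              ∃ T : lp (fun _ : ℕ => ℂ) 2 →L[ℂ] lp (fun _ : ℕ => ℂ) 2,
                (∀ j k : ℕ, (T (lp.single 2 k (1 : ℂ) : lp (fun _ : ℕ => ℂ) 2)) j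
                    = fourierCoeff (⇑a : AddCircle (1 : ℝ) → ℂ) ((j : ℤ) - (k : ℤ))) ∧
                ∀ n, G n = P n * T * P n},
            ∀ n, ‖A n - B n‖ ≤ ε) ∧
       (∃ K : lp (fun _ : ℕ => ℂ) 2 →L[ℂ] lp (fun _ : ℕ => ℂ) 2,
          IsCompactOperator K ∧ ∀ x, Tendsto (fun n => A n x) atTop (𝓝 (K x))) ∧
       (∃ K : lp (fun _ : ℕ => ℂ) 2 →L[ℂ] lp (fun _ : ℕ => ℂ) 2,
          IsCompactOperator K ∧
          ∀ x, Tendsto (fun n => (W n * A n * W n) x) atTop (𝓝 (K x))))) := by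
  intro hall
  have h := hall Pool.Agent.S03782.PW.P Pool.Agent.S03782.PW.W Pool.Agent.S03782.PW.P_apply
    Pool.Agent.S03782.PW.W_apply Pool.Agent.S03782.Main1.A
  apply Pool.Agent.S03782.Main3.not_J
  apply h.mpr
  refine ⟨?_, ⟨0, ?_, ?_⟩, ⟨0, ?_, ?_⟩⟩
  · intro ε hε
    refine ⟨Pool.Agent.S03782.Main1.A, Pool.Agent.S03782.Main3.A_mem, ?_⟩
    intro n
    rw [sub_self, norm_zero]
    exact hε.le
  · exact isCompactOperator_zero
  · intro x
    exact Pool.Agent.S03782.Main1.A_tendsto x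
  · exact isCompactOperator_zero
  · intro x
    exact Pool.Agent.S03782.Main1.WAW_tendsto x

end Pool.Agent.S03782
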