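import Pool.Statements.S03786
import Pool.Agent.Helper401.Gp2
import Pool.Agent.Helper401.Gp8

set_option autoImplicit false
open Pool Pool.MP_a7579f_an

namespace Pool.Agent.S03786

/-- The negation of the preceding statement: For every closed subalgebra X of H^∞ containing the disk algebra whose maximal ideal space does not have the disk dense, some nontrivial Gleason part of M(X) contains a character not obtained by restricting a character of H^∞. -/
theorem result :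
    ¬ (∀ (H X : Subalgebra ℂ (BoundedContinuousFunction (Metric.ball (0:ℂ) 1) ℂ)),
      (∀ f, f ∈ H ↔ ∃ F : ℂ → ℂ, DifferentiableOn ℂ F (Metric.ball 0 1) ∧
          ∀ z : Metric.ball (0:ℂ) 1, F z = f z) →
      X ≤ H →
      IsClosed (X : Set (BoundedContinuousFunction (Metric.ball (0:ℂ) 1) ℂ)) →
      (∀ F : ℂ → ℂ, ContinuousOn F (Metric.closedBall 0 1) →
          DifferentiableOn ℂ F (Metric.ball 0 1) →
          ∃ f ∈ X, ∀ z : Metric.ball (0:ℂ) 1, f z = F z) →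
      ¬ Dense {φ : WeakDual.characterSpace ℂ X |
          ∃ z : Metric.ball (0:ℂ) 1, ∀ f : X, φ f = f.1 z} →
      ∃ χ ψ : WeakDual.characterSpace ℂ X, χ ≠ ψ ∧
        (∃ c : ℝ, c < 2 ∧ ∀ f : X, ‖f‖ ≤ 1 → ‖χ f - ψ f‖ ≤ c) ∧
        ¬ ∃ ρ : WeakDual.characterSpace ℂ H,
            ∀ f (hX : f ∈ X) (hH : f ∈ H), ρ ⟨f, hH⟩ = χ ⟨f, hX⟩) := by
  intro hall
  obtain ⟨O, iO, om, m0, T, bdd, cst, sq, hT, hT0, nrm⟩ := Helper401.Gp.exists_dat
  have hc : Helper401.Gp.Cst om := fun c ε hε => by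
    obtain ⟨q, c', h1, h2, -⟩ := cst c ε hε
    exact ⟨q, c', h1, h2⟩
  obtain ⟨χ, ψ, hne, ⟨c, hc2, hle⟩, hno⟩ := hall Helper401.Gp.HH (Helper401.Gp.XX om hc) (fun f => Iff.rfl)
    (fun f hf => hf.1) (Helper401.Gp.XX_closed om hc) (Helper401.Gp.disk_alg om hc)
    (Helper401.Gp.not_dense hT hT0 nrm cst)
  apply hno
  let χ' : Helper401.Gp.XX om hc →ₐ[ℂ] ℂ := WeakDual.CharacterSpace.toAlgHom χ
  let ψ' : Helper401.Gp.XX om hc →ₐ[ℂ] ℂ := WeakDual.CharacterSpace.toAlgHom ψ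
  by_cases hv : Helper401.Gp.Van χ'
  · exfalso
    have hne' : χ' ≠ ψ' := by
      intro h
      apply hne
      ext x
      exact DFunLike.congr_fun h x
    obtain ⟨f, hf, hlt⟩ := Helper401.Gp.sep hv hne' bdd sq hc2
    exact absurd (hle f hf) (not_le.mpr hlt)
  · unfold Helper401.Gp.Van at hv
    push Not at hv
    obtain ⟨g, hg, hg'⟩ := hv
    obtain ⟨ρ, hρ⟩ := Helper401.Gp.ext_hom hg hg'
    exact ⟨WeakDual.CharacterSpace.equivAlgHom.symm ρ, hρ⟩

end Pool.Agent.S03786
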