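import Pool.Statements.S03792
import Pool.Agent.Helper321.DW.Final

set_option autoImplicit false
open Filter Topology
open Pool Pool.MP_a7f513_an

namespace Pool.Agent.S03792

/-- The negation of the preceding statement: For a product of bounded convex domains in C^{N_j} (total dimension at least 2), each with the Denjoy-Wolff property, every fixed-point-free holomorphic self-map has some factor whose iterates converge to one boundary point of that factor, for every starting point. -/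
theorem result :
    ¬ (∀ (ℓ : ℕ) (N : Fin ℓ → ℕ) (D : ∀ j : Fin ℓ, Set (Fin (N j) → ℂ)),
      (∀ j, 0 < N j) → 2 ≤ ∑ j, N j →
      (∀ j, IsOpen (D j) ∧ (D j).Nonempty ∧ Bornology.IsBounded (D j) ∧ Convex ℝ (D j)) →
      (∀ j, ∀ f : (Fin (N j) → ℂ) → (Fin (N j) → ℂ),
          DifferentiableOn ℂ f (D j) → Set.MapsTo f (D j) (D j) →
          (∀ z ∈ D j, f z ≠ z) →
          ∃ p ∈ frontier (D j), ∀ z ∈ D j,
            Tendsto (fun m : ℕ => f^[m] z) atTop (𝓝 p)) →
      ∀ F : (∀ j : Fin ℓ, Fin (N j) → ℂ) → (∀ j : Fin ℓ, Fin (N j) → ℂ),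
        DifferentiableOn ℂ F (Set.univ.pi D) →
        Set.MapsTo F (Set.univ.pi D) (Set.univ.pi D) →
        (∀ z ∈ Set.univ.pi D, F z ≠ z) →
        ∃ j₀ : Fin ℓ, ∃ p ∈ frontier (D j₀), ∀ z ∈ Set.univ.pi D,
          Tendsto (fun m : ℕ => (F^[m] z) j₀) atTop (𝓝 p)) := by
  intro hmain
  obtain ⟨F, hF1, hF2, hF3, hF4⟩ := Pool.Agent.Helper321.DW.exists_counterexample
  obtain ⟨j₀, p, hp, hlim⟩ := hmain 2 (fun _ => 2) (fun _ => Pool.Agent.Helper321.DW.BB)
    (fun _ => by norm_num) (by simp) (fun _ => Pool.Agent.Helper321.DW.BB_props)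
    (fun _ f h1 h2 h3 => Pool.Agent.Helper321.DW.BB_DenjoyWolff f h1 h2 h3) F hF1 hF2 hF3
  obtain ⟨P, hP, hnot⟩ := hF4 j₀ p hp
  exact hnot (hlim P hP)

end Pool.Agent.S03792
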