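import Pool.Statements.S03796
-- import your own Pool.Agent.* helpers here

set_option autoImplicit false
open scoped ComplexOrder
open Pool Pool.MP_a946bc_an

namespace Pool.Agent.S03796

/-- power sums of the eigenvalues of a diagonal matrix -/
theorem sum_eig (d : Fin 4 → ℝ) (h : (Matrix.diagonal (fun i => (d i : ℂ))).IsHermitian)
    (p : ℝ) : ∑ i, (h.eigenvalues i) ^ p = ∑ i, (d i) ^ p := by
  have h1 := h.roots_charpoly_eq_eigenvalues
  have h0 : ∏ i, (Polynomial.X - Polynomial.C (d i : ℂ)) =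
      (Multiset.map (fun a => Polynomial.X - Polynomial.C a)
        (Multiset.map (fun i => (d i : ℂ)) Finset.univ.val)).prod := by
    rw [Multiset.map_map]
    rfl
  rw [Matrix.charpoly_diagonal, h0, Polynomial.roots_multiset_prod_X_sub_C] at h1
  have h2 : Multiset.map (fun i => (d i : ℂ)) Finset.univ.val =
      Multiset.map (fun i => (h.eigenvalues i : ℂ)) Finset.univ.val := h1
  have h3 := congrArg (Multiset.map (fun z : ℂ => z.re ^ p)) h2
  rw [Multiset.map_map, Multiset.map_map] at h3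
  have h4 := congrArg Multiset.sum h3
  simp only [Function.comp_def, Complex.ofReal_re] at h4
  exact h4.symm

/-- a word in two diagonal matrices -/
theorem word_diag (a b : Fin 4 → ℝ) (s : List Bool) :
    (s.map (fun c => cond c (Matrix.diagonal (fun i => (b i : ℂ)))
      (Matrix.diagonal (fun i => (a i : ℂ))))).prod =
    Matrix.diagonal (fun i => ((a i ^ s.count false * b i ^ s.count true : ℝ) : ℂ)) := by
  induction s with
  | nil => simp
  | cons c s ih =>
    rw [List.map_cons, List.prod_cons, ih]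
    cases c
    · rw [List.count_cons_self, List.count_cons_of_ne (by decide)]
      simp only [cond_false, Matrix.diagonal_mul_diagonal]
      congr 1
      funext i
      push_cast
      ring
    · rw [List.count_cons_self, List.count_cons_of_ne (by decide)]
      simp only [cond_true, Matrix.diagonal_mul_diagonal]
      congr 1
      funext i
      push_cast
      ring

theorem psd_diag (a : Fin 4 → ℝ) (h : ∀ i, 0 ≤ a i) :
    (Matrix.diagonal (fun i => (a i : ℂ))).PosSemidef := by
  rw [Matrix.posSemidef_diagonal_iff]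
  intro i
  exact_mod_cast h i

/-- The negation of the preceding statement: For PSD complex n×n matrices with A₀,B₀ isospectral and A₁,B₁ isospectral, if every word trace in A is real and at least the modulus of the matching word trace in B, then for all p≥1 the sum of p-th powers of eigenvalues of A₀+A₁ is at least that of B₀+B₁. -/
theorem result :
    ¬ (∀ (n : ℕ) (A₀ A₁ B₀ B₁ : Matrix (Fin n) (Fin n) ℂ)
      (hA₀ : A₀.PosSemidef) (hA₁ : A₁.PosSemidef)
      (hB₀ : B₀.PosSemidef) (hB₁ : B₁.PosSemidef),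
      A₀.charpoly = B₀.charpoly →
      A₁.charpoly = B₁.charpoly →
      (∀ s : List Bool,
        ((‖((s.map (fun b => cond b B₁ B₀)).prod).trace‖ : ℝ) : ℂ) ≤
          ((s.map (fun b => cond b A₁ A₀)).prod).trace) →
      ∀ p : ℝ, 1 ≤ p →
        ∑ i, ((hB₀.add hB₁).isHermitian.eigenvalues i) ^ p ≤
          ∑ i, ((hA₀.add hA₁).isHermitian.eigenvalues i) ^ p) := by
  intro H
  set a : Fin 4 → ℝ := ![1, 2, 0, 1] with ha
  set b : Fin 4 → ℝ := ![1, 2, 1, 0] with hb
  set b' : Fin 4 → ℝ := ![2, 1, 0, 1] with hb'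
  have a0 : a 0 = 1 := rfl
  have a1 : a 1 = 2 := rfl
  have a2 : a 2 = 0 := rfl
  have a3 : a 3 = 1 := rfl
  have b0 : b 0 = 1 := rfl
  have b1 : b 1 = 2 := rfl
  have b2 : b 2 = 1 := rfl
  have b3 : b 3 = 0 := rfl
  have c0 : b' 0 = 2 := rfl
  have c1 : b' 1 = 1 := rfl
  have c2 : b' 2 = 0 := rfl
  have c3 : b' 3 = 1 := rfl
  have pa : ∀ i, 0 ≤ a i := by intro i; fin_cases i <;> simp [ha]
  have pb : ∀ i, 0 ≤ b i := by intro i; fin_cases i <;> simp [hb]
  have pb' : ∀ i, 0 ≤ b' i := by intro i; fin_cases i <;> simp [hb']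
  have h1 := H 4 _ _ _ _ (psd_diag a pa) (psd_diag b pb) (psd_diag a pa) (psd_diag b' pb') rfl
    (by
      rw [Matrix.charpoly_diagonal, Matrix.charpoly_diagonal]
      simp only [Fin.prod_univ_four, b0, b1, b2, b3, c0, c1, c2, c3]
      ring)
    (by
      intro s
      rw [word_diag, word_diag, Matrix.trace_diagonal, Matrix.trace_diagonal,
        ← Complex.ofReal_sum, ← Complex.ofReal_sum, Complex.norm_real, Complex.real_le_real]
      have h0 : 0 ≤ ∑ i, a i ^ s.count false * b' i ^ s.count true :=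
        Finset.sum_nonneg (fun i _ => mul_nonneg (pow_nonneg (pa i) _) (pow_nonneg (pb' i) _))
      rw [Real.norm_of_nonneg h0]
      simp only [Fin.sum_univ_four, a0, a1, a2, a3, b0, b1, b2, b3, c0, c1, c2, c3]
      generalize s.count false = m
      generalize s.count true = n
      rcases Nat.eq_zero_or_pos m with rfl | hm
      · rcases Nat.eq_zero_or_pos n with rfl | hn
        · norm_num
        · rw [zero_pow hn.ne', pow_zero, pow_zero, pow_zero, one_pow]
          try linarith
      rcases Nat.eq_zero_or_pos n with rfl | hn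
      · rw [zero_pow hm.ne', pow_zero, pow_zero, pow_zero, one_pow]
        try linarith
      have e1 : (2 : ℝ) ≤ 2 ^ m := by
        calc (2 : ℝ) = 2 ^ 1 := (pow_one 2).symm
          _ ≤ 2 ^ m := pow_le_pow_right₀ (by norm_num) hm
      have e2 : (2 : ℝ) ≤ 2 ^ n := by
        calc (2 : ℝ) = 2 ^ 1 := (pow_one 2).symm
          _ ≤ 2 ^ n := pow_le_pow_right₀ (by norm_num) hn
      rw [zero_pow hm.ne', zero_pow hn.ne', one_pow, one_pow]
      nlinarith)
    (3 / 2) (by norm_num)
  have k1 : ∀ (u v : Fin 4 → ℝ) (h : (Matrix.diagonal (fun i => (u i : ℂ)) +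
      Matrix.diagonal (fun i => (v i : ℂ))).IsHermitian), ∑ i, (h.eigenvalues i) ^ (3 / 2 : ℝ) =
      ∑ i, (u i + v i) ^ (3 / 2 : ℝ) := by
    intro u v h
    have e : Matrix.diagonal (fun i => (u i : ℂ)) + Matrix.diagonal (fun i => (v i : ℂ)) =
        Matrix.diagonal (fun i => ((u i + v i : ℝ) : ℂ)) := by
      rw [Matrix.diagonal_add]
      congr 1
      funext i
      push_cast
      rfl
    have key : ∀ (M : Matrix (Fin 4) (Fin 4) ℂ) (hM : M.IsHermitian),
        M = Matrix.diagonal (fun i => ((u i + v i : ℝ) : ℂ)) →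
        ∑ i, (hM.eigenvalues i) ^ (3 / 2 : ℝ) = ∑ i, (u i + v i) ^ (3 / 2 : ℝ) := by
      intro M hM hMe
      subst hMe
      exact sum_eig _ hM _
    exact key _ h e
  rw [k1, k1] at h1
  simp only [Fin.sum_univ_four, a0, a1, a2, a3, b0, b1, b2, b3, c0, c1, c2, c3] at h1
  rw [show (1 : ℝ) + 2 = 3 by norm_num, show (2 : ℝ) + 1 = 3 by norm_num,
    show (0 : ℝ) + 0 = 0 by norm_num, show (1 : ℝ) + 1 = 2 by norm_num,
    show (2 : ℝ) + 2 = 4 by norm_num, show (0 : ℝ) + 1 = 1 by norm_num,
    show (1 : ℝ) + 0 = 1 by norm_num, Real.one_rpow, Real.zero_rpow (by norm_num)] at h1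
  have e3 : (3 : ℝ) ^ (3 / 2 : ℝ) = 3 * Real.sqrt 3 := by
    rw [Real.sqrt_eq_rpow, show (3 / 2 : ℝ) = 1 + 1 / 2 by norm_num, Real.rpow_add (by norm_num),
      Real.rpow_one]
  have e4 : (4 : ℝ) ^ (3 / 2 : ℝ) = 8 := by
    rw [show (4 : ℝ) = 2 ^ (2 : ℝ) by norm_num, ← Real.rpow_mul (by norm_num)]
    norm_num
  rw [e3, e4] at h1
  have e5 : (5 / 3 : ℝ) < Real.sqrt 3 := by
    rw [Real.lt_sqrt (by norm_num)]; norm_num
  linarith

end Pool.Agent.S03796
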