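import Pool.Statements.S03802
import Pool.Agent.Helper902.James

set_option autoImplicit false
open Pool Pool.MP_aaef33_an

namespace Pool.Agent.S03802

/-- The negation of the preceding statement: A real Banach space is nonreflexive iff its dual has a closed infinite-dimensional subspace whose nonzero elements all fail to attain their norm on the closed unit ball. -/
theorem result :
    ¬ (∀ (X : Type) [NormedAddCommGroup X] [NormedSpace ℝ X] [CompleteSpace X],
      (¬ Function.Surjective (NormedSpace.inclusionInDoubleDual ℝ X)) ↔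
        ∃ Y : Submodule ℝ (X →L[ℝ] ℝ),
          IsClosed (Y : Set (X →L[ℝ] ℝ)) ∧ ¬ FiniteDimensional ℝ Y ∧
            ∀ f ∈ Y, f ≠ 0 → ∀ x : X, ‖x‖ ≤ 1 → |f x| < ‖f‖) := by
  intro hmain
  obtain ⟨Y, -, hY, hna⟩ := (hmain Pool.Agent.Helper902.James.J).1
    Pool.Agent.Helper902.James.nonreflexive
  exact Pool.Agent.Helper902.James.no_space Y hY hna

end Pool.Agent.S03802
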