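import Pool.Statements.S03804
import Pool.Agent.Helper871.Tal4
import Pool.Agent.Helper871.Tal5

set_option autoImplicit false
open Pool Pool.MP_aafae6_an

namespace Pool.Agent.S03804

/-- The negation of the preceding statement: If a real Banach space has an equivalent norm whose Y-lower semicontinuous envelope is Gâteaux differentiable off zero for every norming subspace Y of the dual, then it embeds isomorphically into a weakly compactly generated Banach space. -/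
theorem result :
    ¬ (∀ (X : Type) [NormedAddCommGroup X] [NormedSpace ℝ X] [CompleteSpace X],
    (∃ N : X → ℝ,
      (∀ x y : X, N (x + y) ≤ N x + N y) ∧
      (∀ (r : ℝ) (x : X), N (r • x) = |r| * N x) ∧
      (∃ a b : ℝ, 0 < a ∧ 0 < b ∧ ∀ x : X, a * ‖x‖ ≤ N x ∧ N x ≤ b * ‖x‖) ∧
      ∀ Y : Submodule ℝ (X →L[ℝ] ℝ),
        (∃ c : ℝ, 0 < c ∧ ∀ x : X,
          c * N x ≤ sSup {r : ℝ | ∃ f ∈ Y, (∀ z : X, f z ≤ N z) ∧ f x = r}) →
        ∀ x : X, x ≠ 0 → ∃ g : X →L[ℝ] ℝ, ∀ h : X,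
          HasDerivAt
            (fun t : ℝ => sSup {r : ℝ | ∃ f ∈ Y, (∀ z : X, f z ≤ N z) ∧ f (x + t • h) = r})
            (g h) 0) →
    ∃ (Z : Type) (_ : NormedAddCommGroup Z) (_ : NormedSpace ℝ Z) (_ : CompleteSpace Z),
      (∃ K : Set Z, IsCompact ((toWeakSpace ℝ Z) '' K) ∧
        Dense ((Submodule.span ℝ K : Submodule ℝ Z) : Set Z)) ∧
      ∃ T : X →L[ℝ] Z, ∃ c : ℝ, 0 < c ∧ ∀ x : X, c * ‖x‖ ≤ ‖T x‖) := by
  intro h
  obtain ⟨Z, _, _, _, ⟨K, hK, hd⟩, T, c, hc, hT⟩ := h Helper871.Tal.X Helper871.Tal.good_norm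
  exact Helper871.Tal.not_embed Z K hK hd T c hc hT

end Pool.Agent.S03804
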