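import Pool.Statements.S03806
import Pool.Agent.MP6c344.Package

set_option autoImplicit false
open MeasureTheory
open Pool Pool.MP_ab2f70_an

namespace Pool.Agent.S03806

/-- The negation of the preceding statement: For every positive, bounded, decreasing w on [0,∞) with log w(x)/x → −∞ and w(x+y) ≤ C w(x)w(y), an f with f·w integrable is not a.e. zero near 0 iff finite combinations of its right translates by a>0 are dense in weighted L¹. -/
theorem result :
    ¬ (∀ w : ℝ → ℝ,
    (∀ x : ℝ, 0 ≤ x → 0 < w x) →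
    (∃ M : ℝ, ∀ x : ℝ, 0 ≤ x → w x ≤ M) →
    AntitoneOn w (Set.Ici 0) →
    Filter.Tendsto (fun x : ℝ => Real.log (w x) / x) Filter.atTop Filter.atBot →
    (∃ C : ℝ, ∀ x y : ℝ, 0 ≤ x → 0 ≤ y → w (x + y) ≤ C * w x * w y) →
    ∀ f : ℝ → ℂ, IntegrableOn (fun x : ℝ => f x * (w x : ℂ)) (Set.Ioi (0:ℝ)) →
      ((∀ ε : ℝ, 0 < ε → ¬ (∀ᵐ x ∂(volume.restrict (Set.Ioo (0:ℝ) ε)), f x = 0)) ↔
       (∀ g : ℝ → ℂ, IntegrableOn (fun x : ℝ => g x * (w x : ℂ)) (Set.Ioi (0:ℝ)) →
          ∀ ε : ℝ, 0 < ε → ∃ (n : ℕ) (a : Fin n → ℝ) (c : Fin n → ℂ), (∀ i, 0 < a i) ∧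
            IntegrableOn
              (fun x : ℝ => ‖g x - ∑ i, c i * Set.indicator (Set.Ioi (a i)) (fun t : ℝ => f (t - a i)) x‖ * w x)
              (Set.Ioi (0:ℝ)) ∧
            ∫ x in Set.Ioi (0:ℝ),
              ‖g x - ∑ i, c i * Set.indicator (Set.Ioi (a i)) (fun t : ℝ => f (t - a i)) x‖ * w x < ε))) := by
  intro H
  obtain ⟨w, f, g, w1, w2, w3, w4, w5, w6, w7, f1, f2, f3, f4, g1, ⟨C, g2⟩, g3, g4⟩ :=
    MP6c344.radical_package
  have hfI : IntegrableOn (fun x : ℝ => f x * (w x : ℂ)) (Set.Ioi (0:ℝ)) := by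
    refine Integrable.mono' f4 ?_ ?_
    · exact (f1.mul (Complex.measurable_ofReal.comp w1.measurable)).aestronglyMeasurable
    · filter_upwards with t
      rw [norm_mul, Complex.norm_real, Real.norm_of_nonneg (w2 t).le]
  have key := (H w (fun x _ => w2 x) ⟨1, fun x _ => w4 x⟩ w6 w7
    ⟨1, fun x y hx hy => by rw [one_mul]; exact w5 x y hx hy⟩ f hfI).1 ?_
  · have hxI : IntegrableOn (fun x : ℝ => MP6c344.xx x * (w x : ℂ)) (Set.Ioi (0:ℝ)) := by
      refine Integrable.mono' (MP6c344.xx_int w1) ?_ ?_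
      · exact (MP6c344.xx_meas.mul (Complex.measurable_ofReal.comp w1.measurable)).aestronglyMeasurable
      · filter_upwards with t
        rw [norm_mul, Complex.norm_real, Real.norm_of_nonneg (w2 t).le]
    have hC : 0 ≤ C := by
      have h1 := (norm_nonneg _).trans (g2 0)
      rw [w3, mul_one] at h1
      exact h1
    set P : ℝ := ‖∫ t in Set.Ioi (0:ℝ), MP6c344.xx t * g t‖ with hP
    have hP0 : 0 < P := norm_pos_iff.2 g4
    obtain ⟨n, a, c, ha, hI, hlt⟩ := key MP6c344.xx hxI (P / (C + 1)) (by positivity)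
    set D : ℝ → ℂ := fun x => MP6c344.xx x -
      ∑ i, c i * Set.indicator (Set.Ioi (a i)) (fun t : ℝ => f (t - a i)) x with hD
    -- each term integrates to zero
    have hterm : ∀ i, Integrable (fun x => Set.indicator (Set.Ioi (a i)) (fun t : ℝ => f (t - a i)) x * g x)
        (volume.restrict (Set.Ioi (0:ℝ))) ∧
        ∫ x in Set.Ioi (0:ℝ), Set.indicator (Set.Ioi (a i)) (fun t : ℝ => f (t - a i)) x * g x = 0 := by
      intro i
      have hai := ha i
      have e0 : ∀ x, Set.indicator (Set.Ioi (0:ℝ)) (fun x =>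
          Set.indicator (Set.Ioi (a i)) (fun t : ℝ => f (t - a i)) x * g x) x
          = (fun x => Set.indicator (Set.Ioi (0:ℝ)) (fun x => f x * g (x + a i)) x) (x - a i) := by
        intro x
        by_cases hx : a i < x
        · have h1 : x ∈ Set.Ioi (0:ℝ) := lt_trans hai hx
          have h2 : x ∈ Set.Ioi (a i) := hx
          have h3 : x - a i ∈ Set.Ioi (0:ℝ) := sub_pos.2 hx
          simp only [Set.indicator_of_mem h1, Set.indicator_of_mem h2, Set.indicator_of_mem h3,
            sub_add_cancel]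
        · have h2 : x ∉ Set.Ioi (a i) := hx
          have h3 : x - a i ∉ Set.Ioi (0:ℝ) := fun h => hx (sub_pos.1 h)
          simp only [Set.indicator_of_notMem h3]
          by_cases h1 : x ∈ Set.Ioi (0:ℝ)
          · simp only [Set.indicator_of_mem h1, Set.indicator_of_notMem h2, zero_mul]
          · simp only [Set.indicator_of_notMem h1]
      have hfg : Integrable (fun x => f x * g (x + a i)) (volume.restrict (Set.Ioi (0:ℝ))) := by
        refine Integrable.mono' (f4.const_mul (C * w (a i))) ?_ ?_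
        · exact (f1.mul (g1.comp (measurable_id.add_const _))).aestronglyMeasurable
        · rw [ae_restrict_iff' measurableSet_Ioi]
          filter_upwards with t ht
          have ht0 : (0:ℝ) < t := ht
          rw [norm_mul]
          calc ‖f t‖ * ‖g (t + a i)‖ ≤ ‖f t‖ * (C * (w t * w (a i))) := by
                apply mul_le_mul_of_nonneg_left _ (norm_nonneg _)
                exact (g2 _).trans (mul_le_mul_of_nonneg_left (w5 _ _ ht0.le hai.le) hC)
            _ = C * w (a i) * (‖f t‖ * w t) := by ring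
      constructor
      · refine (integrable_indicator_iff measurableSet_Ioi).1 ?_
        have h5 : Integrable (fun x => Set.indicator (Set.Ioi (0:ℝ)) (fun x => f x * g (x + a i)) x) :=
          (integrable_indicator_iff measurableSet_Ioi).2 hfg
        have h6 := h5.comp_sub_right (a i)
        exact h6.congr (ae_of_all _ fun x => (e0 x).symm)
      · rw [← integral_indicator measurableSet_Ioi]
        simp_rw [e0]
        rw [integral_sub_right_eq_self (fun x => Set.indicator (Set.Ioi (0:ℝ)) (fun x => f x * g (x + a i)) x) (a i),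
          integral_indicator measurableSet_Ioi]
        exact g3 (a i) hai
    have hxg : Integrable (fun x => MP6c344.xx x * g x) (volume.restrict (Set.Ioi (0:ℝ))) := by
      refine Integrable.mono' ((MP6c344.xx_int w1).const_mul C) ?_ ?_
      · exact (MP6c344.xx_meas.mul g1).aestronglyMeasurable
      · filter_upwards with t
        rw [norm_mul]
        calc ‖MP6c344.xx t‖ * ‖g t‖ ≤ ‖MP6c344.xx t‖ * (C * w t) :=
              mul_le_mul_of_nonneg_left (g2 t) (norm_nonneg _)
          _ = C * (‖MP6c344.xx t‖ * w t) := by ring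
    have e1 : ∫ x in Set.Ioi (0:ℝ), D x * g x = ∫ x in Set.Ioi (0:ℝ), MP6c344.xx x * g x := by
      have e2 : ∀ x, D x * g x = MP6c344.xx x * g x -
          ∑ i, c i * (Set.indicator (Set.Ioi (a i)) (fun t : ℝ => f (t - a i)) x * g x) := by
        intro x
        simp only [hD]
        rw [sub_mul, Finset.sum_mul]
        congr 1
        apply Finset.sum_congr rfl
        intro i _
        ring
      simp_rw [e2]
      rw [integral_sub hxg (integrable_finsetSum _ fun i _ => (hterm i).1.const_mul _),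
        integral_finsetSum _ (fun i _ => (hterm i).1.const_mul _)]
      simp_rw [integral_const_mul]
      simp only [(hterm _).2, mul_zero, Finset.sum_const_zero, sub_zero]
    have e3 : P ≤ C * ∫ x in Set.Ioi (0:ℝ), ‖D x‖ * w x := by
      rw [hP, ← e1, ← integral_const_mul]
      refine norm_integral_le_of_norm_le (hI.const_mul C) ?_
      filter_upwards with t
      rw [norm_mul]
      calc ‖D t‖ * ‖g t‖ ≤ ‖D t‖ * (C * w t) := mul_le_mul_of_nonneg_left (g2 t) (norm_nonneg _)
        _ = C * (‖D t‖ * w t) := by ring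
    have e4 : (∫ x in Set.Ioi (0:ℝ), ‖D x‖ * w x) < P / (C + 1) := hlt
    rw [lt_div_iff₀ (by positivity)] at e4
    have e5 : 0 ≤ ∫ x in Set.Ioi (0:ℝ), ‖D x‖ * w x :=
      integral_nonneg fun t => mul_nonneg (norm_nonneg _) (w2 t).le
    nlinarith
  · intro ε hε hae
    rw [ae_restrict_iff' measurableSet_Ioo] at hae
    have hm : 0 < min ε 1 := lt_min hε one_pos
    have hsub : Set.Ioo (0:ℝ) (min ε 1) ⊆ {x | ¬ (x ∈ Set.Ioo (0:ℝ) ε → f x = 0)} := by
      intro x hx
      rw [Set.mem_ofPred_eq]
      intro h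
      exact f3 x hx.1.le (lt_of_lt_of_le hx.2 (min_le_right _ _))
        (h ⟨hx.1, lt_of_lt_of_le hx.2 (min_le_left _ _)⟩)
    have h0 : volume {x | ¬ (x ∈ Set.Ioo (0:ℝ) ε → f x = 0)} = 0 := hae
    have h1 := measure_mono_null hsub h0
    rw [Real.volume_Ioo, ENNReal.ofReal_eq_zero] at h1
    linarith

end Pool.Agent.S03806
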