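import Pool.Statements.S03808
import Pool.Agent.Helper638.Light.P_final2

set_option autoImplicit false
open Pool Pool.MP_ab57f0_an

namespace Pool.Agent.S03808

/-- The negation of the preceding statement: There exist finitely many pairwise disjoint circles in the plane and a point outside them all such that every ray from the point hits a circle, reflects by the mirror law, and keeps hitting circles forever. -/
theorem result :
    ¬ (∃ (k : ℕ) (c : Fin k → EuclideanSpace ℝ (Fin 2)) (r : Fin k → ℝ)
      (p : EuclideanSpace ℝ (Fin 2)),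
      (∀ i, 0 < r i) ∧
      (∀ i j, i ≠ j → r i + r j < dist (c i) (c j)) ∧
      (∀ i, r i < dist p (c i)) ∧
      ∀ v : EuclideanSpace ℝ (Fin 2), v ≠ 0 →
        ∃ (q : ℕ → EuclideanSpace ℝ (Fin 2)) (d : ℕ → EuclideanSpace ℝ (Fin 2)),
          q 0 = p ∧ d 0 = v ∧
          ∀ n : ℕ, ∃ i : Fin k, ∃ t : ℝ, 0 < t ∧
            q (n + 1) = q n + t • d n ∧
            dist (q (n + 1)) (c i) = r i ∧
            (∀ s : ℝ, 0 < s → s < t → ∀ j : Fin k,
              r j < dist (q n + s • d n) (c j)) ∧
            d (n + 1) = d n - (2 * inner ℝ (d n) (q (n + 1) - c i) / r i ^ 2) • (q (n + 1) - c i)) := by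
  exact Pool.Light.final2

end Pool.Agent.S03808
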