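import Pool.Statements.S03813
-- import your own Pool.Agent.* helpers here

set_option autoImplicit false
open Pool Pool.MP_abc713_an

namespace Pool.Agent.S03813

open Filter Topology Finset

/-- radius of type `j` -/
def R (j : ℕ) : ℕ := (j + 1) ^ 2

/-- period of type `j` -/
def P : ℕ → ℕ
  | 0 => 32
  | (j + 1) => 32 * R (j + 1) * P j

theorem R_pos (j : ℕ) : 0 < R j := by unfold R; positivity

theorem R_le (j : ℕ) : 32 * R j ≤ P j := by
  cases j with
  | zero => simp [R, P]
  | succ j =>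
    have : 0 < P j := by
      induction j with
      | zero => simp [P]
      | succ j ih => rw [P]; have := R_pos (j + 1); positivity
    rw [P]
    exact Nat.le_mul_of_pos_right _ this

theorem P_pos (j : ℕ) : 0 < P j := by
  have := R_le j
  have := R_pos j
  omega

theorem j_lt_P (j : ℕ) : j < P j := by
  have := R_le j
  have h : j + 1 ≤ R j := by
    unfold R; nlinarith
  omega

theorem P_growth (i d : ℕ) : 16 * 2 ^ (d + 1) * R (i + d + 1) * P i ≤ P (i + d + 1) := by
  induction d with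
  | zero =>
    rw [P]
    simp only [Nat.add_zero, zero_add, pow_one]
    exact le_of_eq (by ring)
  | succ d ih =>
    have h1 : P (i + (d + 1) + 1) = 32 * R (i + (d + 1) + 1) * P (i + (d + 1)) := by rw [P]
    rw [h1]
    have h2 : P (i + d + 1) ≥ 16 * 2 ^ (d + 1) * P i := by
      refine le_trans ?_ ih
      have := R_pos (i + d + 1)
      calc 16 * 2 ^ (d + 1) * P i = 16 * 2 ^ (d + 1) * 1 * P i := by ring
        _ ≤ _ := by gcongr; omega
    calc 16 * 2 ^ (d + 1 + 1) * R (i + (d + 1) + 1) * P i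
        = 2 * R (i + (d + 1) + 1) * (16 * 2 ^ (d + 1) * P i) := by ring
      _ ≤ 2 * R (i + (d + 1) + 1) * P (i + d + 1) := by gcongr
      _ ≤ 32 * R (i + (d + 1) + 1) * P (i + (d + 1)) := by
        have : i + (d + 1) = i + d + 1 := by omega
        rw [this]
        gcongr
        norm_num

def act (j m : ℕ) : Prop := P j ≤ m ∧ m % P j < R j

instance (m : ℕ) : DecidablePred (fun j => act j m) := fun j => by unfold act; infer_instance
instance (j m : ℕ) : Decidable (act j m) := by unfold act; infer_instance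

def J (m : ℕ) : ℕ := Nat.findGreatest (fun j => act j m) m

/-- `n` is good for type `i` -/
def Good (i n : ℕ) : Prop := P i ∣ n ∧ P i ≤ n ∧
  ∀ j, i < j → ∀ n', P j ∣ n' → P j ≤ n' → (n + R j ≤ n' ∨ n' + R j ≤ n)

section pattern

variable (v : ℕ → ℕ → ℝ)

noncomputable def p (m : ℕ) : ℝ := if act (J m) m then v (J m) (m % P (J m)) else 0

theorem good_pattern (hv1 : ∀ i l, R i ≤ l → v i l = 0) (hv2 : ∀ i l, |v i l| ≤ i + 1)
    {i n : ℕ} (hG : Good i n) (l : ℕ) : |p v (n + l) - v i l| ≤ ((l : ℝ) + 1) / (i + 1) := by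
  obtain ⟨hd, hle, hfar⟩ := hG
  have key : ∀ j, i < j → act j (n + l) → n + R j ≤ (n + l) - (n + l) % P j := by
    intro j hij ⟨h1, h2⟩
    have hdvd : P j ∣ (n + l) - (n + l) % P j := Nat.dvd_sub_mod _
    have hge : P j ≤ (n + l) - (n + l) % P j := by
      apply Nat.le_of_dvd _ hdvd
      have := Nat.mod_lt (n + l) (P_pos j)
      have : (n + l) % P j < n + l := by omega
      omega
    rcases hfar j hij _ hdvd hge with h | h
    · exact h
    · exfalso
      omega
  by_cases hl : l < R i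
  · have hlP : l < P i := by have := R_le i; omega
    have hmod : (n + l) % P i = l := by
      rw [Nat.add_mod, Nat.mod_eq_zero_of_dvd hd, zero_add, Nat.mod_mod, Nat.mod_eq_of_lt hlP]
    have hact : act i (n + l) := ⟨by omega, by rw [hmod]; exact hl⟩
    have hJ : J (n + l) = i := by
      unfold J
      rw [Nat.findGreatest_eq_iff]
      refine ⟨?_, fun _ => hact, ?_⟩
      · have := j_lt_P i
        omega
      · intro j hij _ hact'
        have h1 := key j hij hact'
        have h2 := hact'.2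
        have h3 : R i ≤ R j := by
          unfold R
          have : i + 1 ≤ j + 1 := by omega
          gcongr
        omega
    unfold p
    rw [hJ, if_pos hact, hmod, sub_self, abs_zero]
    positivity
  · push Not at hl
    rw [hv1 i l hl, sub_zero]
    have hi : (0 : ℝ) < (i : ℝ) + 1 := by positivity
    have hRl : ((i : ℝ) + 1) ^ 2 ≤ l := by
      have : ((R i : ℕ) : ℝ) ≤ l := by exact_mod_cast hl
      unfold R at this
      push_cast at this
      exact this
    unfold p
    split_ifs with hact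
    · refine (hv2 _ _).trans ?_
      rcases le_or_gt (J (n + l)) i with h | h
      · have h' : (J (n + l) : ℝ) ≤ i := by exact_mod_cast h
        rw [le_div_iff₀ hi]
        nlinarith
      · have h1 := key _ h hact
        have h2 : R (J (n + l)) ≤ l := by omega
        have h3 : ((J (n + l) : ℝ) + 1) ^ 2 ≤ l := by
          have : ((R (J (n + l)) : ℕ) : ℝ) ≤ l := by exact_mod_cast h2
          unfold R at this
          push_cast at this
          exact this
        have h' : (i : ℝ) ≤ J (n + l) := by exact_mod_cast h.le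
        rw [le_div_iff₀ hi]
        nlinarith
    · rw [abs_zero]
      positivity

theorem p_bound (hv2 : ∀ i l, |v i l| ≤ i + 1) (m : ℕ) : (p v m) ^ 2 ≤ m + 1 := by
  unfold p
  split_ifs with hact
  · have h1 := hv2 (J m) (m % P (J m))
    have h2 : ((J m : ℝ) + 1) ^ 2 ≤ m := by
      have h3 := R_le (J m)
      have h4 := hact.1
      have h5 : R (J m) ≤ m := by omega
      have : ((R (J m) : ℕ) : ℝ) ≤ m := by exact_mod_cast h5
      unfold R at this
      push_cast at this
      exact this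
    have h6 : |v (J m) (m % P (J m))| ^ 2 ≤ ((J m : ℝ) + 1) ^ 2 := by
      gcongr
    rw [sq_abs] at h6
    linarith
  · have : (0 : ℝ) ≤ m := Nat.cast_nonneg m
    nlinarith

end pattern

/-- excluded set -/
noncomputable def Ex (a j : ℕ) : Finset ℕ := by
  classical
  exact (Ico a (2 * a)).filter (fun n => ∃ n', P j ∣ n' ∧ P j ≤ n' ∧ ¬ (n + R j ≤ n' ∨ n' + R j ≤ n))

theorem card_Ex (a j : ℕ) : ((Ex a j).card : ℝ) ≤ 6 * a * R j / P j := by
  classical
  have hP := P_pos j
  have hR := R_pos j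
  have hRP := R_le j
  set Q := (2 * a + R j) / P j with hQ
  have hsub : Ex a j ⊆ (Icc 1 Q).biUnion (fun q => Ico (q * P j - R j) (q * P j + R j)) := by
    intro n hn
    unfold Ex at hn
    rw [mem_filter, mem_Ico] at hn
    obtain ⟨⟨h1, h2⟩, n', ⟨q, rfl⟩, h3, h4⟩ := hn
    push Not at h4
    rw [mem_biUnion]
    refine ⟨q, ?_, ?_⟩
    · rw [mem_Icc]
      constructor
      · rcases Nat.eq_zero_or_pos q with h | h
        · rw [h] at h3
          omega
        · exact h
      · rw [hQ, Nat.le_div_iff_mul_le hP, mul_comm]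
        omega
    · rw [mem_Ico, mul_comm]
      omega
  have h1 : (Ex a j).card ≤ Q * (2 * R j) := by
    refine (card_le_card hsub).trans (card_biUnion_le.trans ?_)
    refine (sum_le_card_nsmul _ _ (2 * R j) ?_).trans ?_
    · intro q _
      rw [Nat.card_Ico]
      omega
    · simp
  rcases Nat.eq_zero_or_pos Q with h | h
  · rw [h, zero_mul] at h1
    have : (Ex a j).card = 0 := by omega
    rw [this, Nat.cast_zero]
    positivity
  · have h2 : P j ≤ 2 * a + R j := by
      have := (Nat.le_div_iff_mul_le hP).mp (hQ ▸ h)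
      omega
    have h3 : R j ≤ a := by omega
    have h4 : Q * P j ≤ 3 * a := by
      have := Nat.div_mul_le_self (2 * a + R j) (P j)
      rw [← hQ] at this
      omega
    rw [le_div_iff₀ (by exact_mod_cast hP)]
    have h5 : (Ex a j).card * P j ≤ 6 * a * R j := by
      calc (Ex a j).card * P j ≤ Q * (2 * R j) * P j := by gcongr
        _ = Q * P j * (2 * R j) := by ring
        _ ≤ 3 * a * (2 * R j) := by gcongr
        _ = 6 * a * R j := by ring
    exact_mod_cast h5

theorem Ex_empty (a j : ℕ) (h : 4 * a < j) : Ex a j = ∅ := by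
  classical
  unfold Ex
  rw [filter_eq_empty_iff]
  intro n hn
  rw [mem_Ico] at hn
  push Not
  intro n' _ h1
  have := j_lt_P j
  have := R_le j
  left
  omega

noncomputable def GoodSet (i a : ℕ) : Finset ℕ := by
  classical
  exact (Ico a (2 * a)).filter (Good i)

theorem card_GoodSet (i a : ℕ) (ha : P i ≤ a) :
    (a : ℝ) / (2 * P i) - 1 ≤ ((GoodSet i a).card : ℝ) := by
  classical
  have hP := P_pos i
  -- multiples
  have h1 : (Ico a (2 * a)).filter (fun n => P i ∣ n) ⊆ GoodSet i a ∪ (Ioc i (4 * a)).biUnion (Ex a) := by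
    intro n hn
    rw [mem_filter, mem_Ico] at hn
    rw [mem_union]
    by_cases hg : Good i n
    · left
      unfold GoodSet
      rw [mem_filter, mem_Ico]
      exact ⟨hn.1, hg⟩
    · right
      unfold Good at hg
      push Not at hg
      obtain ⟨j, hij, n', h2, h3, h4⟩ := hg hn.2 (by omega)
      have hmem : n ∈ Ex a j := by
        unfold Ex
        rw [mem_filter, mem_Ico]
        refine ⟨hn.1, n', h2, h3, ?_⟩
        push Not
        exact h4
      rw [mem_biUnion]
      refine ⟨j, ?_, hmem⟩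
      rw [mem_Ioc]
      refine ⟨hij, ?_⟩
      by_contra hcon
      push Not at hcon
      rw [Ex_empty a j hcon] at hmem
      simp at hmem
  have h2 : (a : ℝ) / P i - 1 ≤ (((Ico a (2 * a)).filter (fun n => P i ∣ n)).card : ℝ) := by
    have h3 : (Ioc 0 (2 * a - 1)).filter (fun n => P i ∣ n) ⊆
        (Ico a (2 * a)).filter (fun n => P i ∣ n) ∪ (Ioc 0 (a - 1)).filter (fun n => P i ∣ n) := by
      intro n
      simp only [mem_filter, mem_Ioc, mem_union, mem_Ico]
      omega
    have h4 := (card_le_card h3).trans (card_union_le _ _)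
    rw [Nat.Ioc_filter_dvd_card_eq_div, Nat.Ioc_filter_dvd_card_eq_div] at h4
    set C := ((Ico a (2 * a)).filter (fun n => P i ∣ n)).card
    have h5 : a ≤ C * P i + P i := by
      have h6 := Nat.div_add_mod (2 * a - 1) (P i)
      have h7 := Nat.mod_lt (2 * a - 1) hP
      have h8 := Nat.div_mul_le_self (a - 1) (P i)
      have h9 : P i * ((2 * a - 1) / P i) ≤ P i * (C + (a - 1) / P i) := Nat.mul_le_mul_left _ h4
      rw [mul_add, mul_comm (P i) C, mul_comm (P i) ((a - 1) / P i)] at h9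
      omega
    have h6 : (a : ℝ) ≤ C * P i + P i := by exact_mod_cast h5
    have hP' : (0 : ℝ) < P i := by exact_mod_cast hP
    rw [sub_le_iff_le_add, div_le_iff₀ hP']
    linarith
  have h3 : (((Ico a (2 * a)).filter (fun n => P i ∣ n)).card : ℝ) ≤
      (GoodSet i a).card + ∑ j ∈ Ioc i (4 * a), ((Ex a j).card : ℝ) := by
    have h4 := (card_le_card h1).trans ((card_union_le _ _).trans (Nat.add_le_add_left card_biUnion_le _))
    exact_mod_cast h4
  have h4 : ∑ j ∈ Ioc i (4 * a), ((Ex a j).card : ℝ) ≤ (a : ℝ) / (2 * P i) := by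
    have hP' : (0 : ℝ) < P i := by exact_mod_cast hP
    have e1 : Ioc i (4 * a) = Ico (i + 1) (4 * a + 1) := by
      ext x
      simp only [mem_Ioc, mem_Ico]
      omega
    rw [e1, sum_Ico_eq_sum_range]
    have e2 : ∀ d ∈ range (4 * a + 1 - (i + 1)), ((Ex a (i + 1 + d)).card : ℝ) ≤
        (6 * a / (32 * P i)) * (1 / 2 : ℝ) ^ d := by
      intro d _
      refine (card_Ex a _).trans ?_
      have e3 := P_growth i d
      have e4 : i + 1 + d = i + d + 1 := by omega
      rw [e4]
      have hPj : (0 : ℝ) < P (i + d + 1) := by exact_mod_cast P_pos _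
      have hRj : (0 : ℝ) < R (i + d + 1) := by exact_mod_cast R_pos _
      have e5 : (16 : ℝ) * 2 ^ (d + 1) * R (i + d + 1) * P i ≤ P (i + d + 1) := by exact_mod_cast e3
      rw [div_le_iff₀ hPj]
      calc 6 * (a : ℝ) * R (i + d + 1)
          = (6 * a / (32 * P i)) * (1 / 2 : ℝ) ^ d * (16 * 2 ^ (d + 1) * R (i + d + 1) * P i) := by
            rw [one_div, inv_pow, pow_succ]
            field_simp
            ring
        _ ≤ (6 * a / (32 * P i)) * (1 / 2 : ℝ) ^ d * P (i + d + 1) := by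
            gcongr
    refine (sum_le_sum e2).trans ?_
    rw [← mul_sum]
    have e6 := sum_geometric_two_le (4 * a + 1 - (i + 1))
    calc (6 * (a : ℝ) / (32 * P i)) * ∑ d ∈ range (4 * a + 1 - (i + 1)), (1 / 2 : ℝ) ^ d
        ≤ (6 * (a : ℝ) / (32 * P i)) * 2 := by gcongr
      _ = (3 / 8) * ((a : ℝ) / P i) := by field_simp; ring
      _ ≤ (1 / 2) * ((a : ℝ) / P i) := mul_le_mul_of_nonneg_right (by norm_num) (by positivity)
      _ = (a : ℝ) / (2 * P i) := by field_simp
  have h5 : (a : ℝ) / (2 * P i) = (a : ℝ) / P i - (a : ℝ) / (2 * P i) := by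
    have hP' : (0 : ℝ) < P i := by exact_mod_cast hP
    field_simp
    ring
  linarith


open ZeroAtInfty

abbrev X := C₀(ℕ, ℝ)

theorem tendsto_X (x : X) : Tendsto x atTop (𝓝 0) := by
  have := zero_at_infty x
  rwa [cocompact_eq_atTop] at this

noncomputable def mkX (f : ℕ → ℝ) (hf : Tendsto f atTop (𝓝 0)) : X :=
  { toFun := f
    continuous_toFun := continuous_of_discreteTopology
    zero_at_infty' := by rwa [cocompact_eq_atTop] }

@[simp] theorem mkX_apply (f : ℕ → ℝ) (hf : Tendsto f atTop (𝓝 0)) (n : ℕ) : mkX f hf n = f n := rfl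

theorem norm_le_X (x : X) {C : ℝ} (hC : 0 ≤ C) : ‖x‖ ≤ C ↔ ∀ n, |x n| ≤ C := by
  rw [← ZeroAtInftyContinuousMap.norm_toBCF_eq_norm, BoundedContinuousFunction.norm_le hC]
  rfl

theorem abs_le_norm_X (x : X) (n : ℕ) : |x n| ≤ ‖x‖ := (norm_le_X x (norm_nonneg x)).mp le_rfl n

theorem weight_bound (k : ℕ) : ((k : ℝ) + 2) / (k + 1) ≤ 2 := by
  rw [div_le_iff₀ (by positivity)]
  have : (0 : ℝ) ≤ k := Nat.cast_nonneg k
  linarith

noncomputable def T : X →L[ℝ] X :=
  LinearMap.mkContinuous
    { toFun := fun x => mkX (fun k => (((k : ℝ) + 2) / (k + 1)) * x (k + 1)) (by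
        have h1 : Tendsto (fun k : ℕ => 2 * |x (k + 1)|) atTop (𝓝 0) := by
          have := ((tendsto_X x).comp (tendsto_add_atTop_nat 1)).abs.const_mul 2
          simpa using this
        apply squeeze_zero_norm _ h1
        intro k
        rw [Real.norm_eq_abs, abs_mul]
        gcongr
        rw [abs_of_nonneg (by positivity)]
        exact weight_bound k)
      map_add' := by
        intro x y
        ext k
        simp [mul_add]
      map_smul' := by
        intro c x
        ext k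
        simp
        ring } 2 (by
    intro x
    simp only [LinearMap.coe_mk, AddHom.coe_mk]
    rw [norm_le_X _ (by positivity)]
    intro k
    rw [mkX_apply, abs_mul]
    have h1 := weight_bound k
    have h2 := abs_le_norm_X x (k + 1)
    have h3 : |((k : ℝ) + 2) / (k + 1)| ≤ 2 := by
      rw [abs_of_nonneg (by positivity)]
      exact h1
    gcongr)

theorem T_apply (x : X) (k : ℕ) : T x k = (((k : ℝ) + 2) / (k + 1)) * x (k + 1) := rfl

theorem T_pow_apply (n : ℕ) (x : X) (k : ℕ) :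
    (T ^ n) x k = (((n : ℝ) + k + 1) / (k + 1)) * x (n + k) := by
  induction n generalizing k with
  | zero =>
    have : ((k : ℝ) + 1) ≠ 0 := by positivity
    simp [this]
  | succ n ih =>
    rw [pow_succ', mul_apply_eq_comp, T_apply, ih]
    have h1 : ((k : ℝ) + 1) ≠ 0 := by positivity
    have h2 : ((k : ℝ) + 1 + 1) ≠ 0 := by positivity
    have h3 : n + (k + 1) = n + 1 + k := by omega
    rw [h3]
    push_cast
    field_simp
    ring

/-- enumeration of patterns -/
theorem exists_enum : ∃ f : ℕ → (ℕ →₀ ℚ), Function.Surjective f := exists_surjective_nat _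

noncomputable def enum : ℕ → (ℕ →₀ ℚ) := exists_enum.choose

theorem enum_surj : Function.Surjective enum := exists_enum.choose_spec

noncomputable def v (i l : ℕ) : ℝ :=
  if l < R i ∧ |((enum (Nat.unpair i).1 l : ℚ) : ℝ)| ≤ i + 1 then ((enum (Nat.unpair i).1 l : ℚ) : ℝ) else 0

theorem v1 : ∀ i l, R i ≤ l → v i l = 0 := by
  intro i l h
  unfold v
  rw [if_neg]
  rintro ⟨h1, _⟩
  omega

theorem v2 : ∀ i l, |v i l| ≤ i + 1 := by
  intro i l
  unfold v
  split_ifs with h
  · exact h.2
  · rw [abs_zero]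
    positivity

theorem exists_type (q : ℕ →₀ ℚ) (i0 : ℕ) : ∃ i ≥ i0, ∀ l, v i l = q l := by
  obtain ⟨a, ha⟩ := enum_surj q
  obtain ⟨B1, hB1⟩ : ∃ B : ℕ, ∀ l, |((q l : ℚ) : ℝ)| ≤ B := by
    have hfin : (Set.range (fun l => |((q l : ℚ) : ℝ)|)).Finite := by
      apply ((q.finite_range).image (fun r : ℚ => |(r : ℝ)|)).subset
      rintro _ ⟨l, rfl⟩
      exact ⟨q l, ⟨l, rfl⟩, rfl⟩
    obtain ⟨b, hb⟩ := hfin.bddAbove
    obtain ⟨B, hB⟩ := exists_nat_ge b
    exact ⟨B, fun l => (hb ⟨l, rfl⟩).trans hB⟩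
  obtain ⟨B2, hB2⟩ : ∃ B : ℕ, ∀ l, q l ≠ 0 → l < B := by
    obtain ⟨b, hb⟩ := q.support.finite_toSet.bddAbove
    refine ⟨b + 1, fun l hl => Nat.lt_succ_of_le (hb ?_)⟩
    simpa using hl
  set i := Nat.pair a (i0 + B1 + B2) with hi
  have hge : i0 + B1 + B2 ≤ i := Nat.right_le_pair _ _
  refine ⟨i, by omega, ?_⟩
  intro l
  unfold v
  rw [hi, Nat.unpair_pair, ← hi]
  simp only [ha]
  by_cases hl : q l = 0
  · simp [hl]
  · rw [if_pos]
    have h1 := hB2 l hl
    have h2 : i + 1 ≤ R i := by unfold R; nlinarith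
    refine ⟨by omega, (hB1 l).trans ?_⟩
    have : B1 ≤ i + 1 := by omega
    exact_mod_cast this

/-- approximation by patterns -/
theorem exists_pattern (x : X) {ε : ℝ} (hε : 0 < ε) : ∃ q : ℕ →₀ ℚ, ∀ l, |((q l : ℚ) : ℝ) / (l + 1) - x l| ≤ ε := by
  have h1 := (tendsto_X x)
  rw [Metric.tendsto_atTop] at h1
  obtain ⟨K, hK⟩ := h1 ε hε
  have h2 : ∀ l : ℕ, ∃ r : ℚ, |(r : ℝ) - x l * (l + 1)| < ε := by
    intro l
    obtain ⟨r, hr1, hr2⟩ := exists_rat_btwn (show x l * (l + 1) - ε < x l * (l + 1) + ε by linarith)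
    exact ⟨r, by rw [abs_lt]; constructor <;> linarith⟩
  choose r hr using h2
  classical
  let q : ℕ →₀ ℚ := Finsupp.onFinset (range K) (fun l => if l < K then r l else 0) (by
    intro l hl
    by_contra h
    rw [mem_range] at h
    simp [h] at hl)
  refine ⟨q, ?_⟩
  intro l
  have hl1 : (1 : ℝ) ≤ (l : ℝ) + 1 := by
    have : (0 : ℝ) ≤ l := Nat.cast_nonneg l
    linarith
  by_cases hl : l < K
  · have : q l = r l := by simp [q, hl]
    rw [this]
    have h3 : (r l : ℝ) / (l + 1) - x l = ((r l : ℝ) - x l * (l + 1)) / (l + 1) := by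
      field_simp
    rw [h3, abs_div, abs_of_nonneg (by positivity : (0 : ℝ) ≤ (l : ℝ) + 1)]
    calc |(r l : ℝ) - x l * (l + 1)| / (l + 1) ≤ |(r l : ℝ) - x l * (l + 1)| / 1 := by
          gcongr
      _ ≤ ε := by rw [div_one]; exact (hr l).le
  · have : q l = 0 := by simp [q, hl]
    rw [this]
    have h3 := hK l (by omega)
    rw [Real.dist_eq, sub_zero] at h3
    simpa using h3.le

theorem fhc_of_phase (c : ℕ) (hc : c < 2) (y : X)
    (hy : ∀ e : ℕ, e % 2 = c → ∀ m : ℕ, 4 ^ e ≤ m → m < 4 ^ (e + 1) → ((m : ℝ) + 1) * y m = p v m)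
    (U : Set X) (hU : IsOpen U) (hne : U.Nonempty) :
    ∃ δ : ℝ, 0 < δ ∧ ∀ᶠ N : ℕ in Filter.atTop,
            δ * (N : ℝ) ≤ (({n : ℕ | n < N ∧ (T ^ n) y ∈ U}.ncard : ℕ) : ℝ) := by
  classical
  obtain ⟨x, hx⟩ := hne
  obtain ⟨ε, hε, hball⟩ := Metric.isOpen_iff.mp hU x hx
  obtain ⟨q, hq⟩ := exists_pattern x (show (0 : ℝ) < ε / 4 by positivity)
  obtain ⟨i0, hi0⟩ := exists_nat_gt (4 / ε)
  obtain ⟨i, hii, hiq⟩ := exists_type q i0
  have hi : 1 / ((i : ℝ) + 1) ≤ ε / 4 := by
    have h1 : (4 : ℝ) / ε ≤ i + 1 := by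
      have : (i0 : ℝ) ≤ i := by exact_mod_cast hii
      linarith
    rw [div_le_iff₀ (by positivity)]
    rw [div_le_iff₀ hε] at h1
    nlinarith
  -- tail of y and x
  have hyt := tendsto_X y
  have hxt := tendsto_X x
  rw [Metric.tendsto_atTop] at hyt hxt
  obtain ⟨M1, hM1⟩ := hyt (ε / 8) (by positivity)
  obtain ⟨M2, hM2⟩ := hxt (ε / 4) (by positivity)
  -- good times
  have hgood : ∀ e : ℕ, e % 2 = c → M1 + M2 + P i ≤ 4 ^ e → ∀ n ∈ GoodSet i (4 ^ e), (T ^ n) y ∈ U := by
    intro e he heM n hn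
    unfold GoodSet at hn
    rw [mem_filter, mem_Ico] at hn
    obtain ⟨⟨hn1, hn2⟩, hG⟩ := hn
    apply hball
    rw [Metric.mem_ball, dist_eq_norm]
    apply lt_of_le_of_lt (b := 3 * ε / 4)
    swap
    · linarith
    rw [norm_le_X _ (by positivity)]
    intro l
    rw [ZeroAtInftyContinuousMap.sub_apply, T_pow_apply]
    have hl1 : (0 : ℝ) < (l : ℝ) + 1 := by positivity
    by_cases hl : n + l < 4 ^ (e + 1)
    · have h1 := hy e he (n + l) (by omega) hl
      have h2 := good_pattern v v1 v2 hG l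
      rw [hiq] at h2
      have h3 : ((n : ℝ) + l + 1) / (l + 1) * y (n + l) - x l
          = (p v (n + l) - q l) / (l + 1) + (((q l : ℚ) : ℝ) / (l + 1) - x l) := by
        rw [← h1]
        push_cast
        field_simp
        ring
      rw [h3]
      refine (abs_add_le _ _).trans ?_
      have h4 : |(p v (n + l) - q l) / (l + 1)| ≤ ε / 4 := by
        rw [abs_div, abs_of_pos hl1, div_le_iff₀ hl1]
        refine h2.trans ?_
        calc ((l : ℝ) + 1) / (i + 1) = 1 / ((i : ℝ) + 1) * (l + 1) := by ring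
          _ ≤ ε / 4 * (l + 1) := by gcongr
      have h5 := hq l
      linarith
    · push Not at hl
      have h42 : 4 ^ (e + 1) = 4 * 4 ^ e := by rw [pow_succ]; ring
      have hln : n ≤ l := by omega
      have h1 := hM1 (n + l) (by omega)
      have h2 := hM2 l (by omega)
      rw [Real.dist_eq, sub_zero] at h1 h2
      have h3 : ((n : ℝ) + l + 1) / (l + 1) ≤ 2 := by
        rw [div_le_iff₀ hl1]
        have : (n : ℝ) ≤ l := by exact_mod_cast hln
        linarith
      refine (abs_sub _ _).trans ?_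
      rw [abs_mul, abs_of_nonneg (by positivity : (0 : ℝ) ≤ ((n : ℝ) + l + 1) / (l + 1))]
      have h4 : ((n : ℝ) + l + 1) / (l + 1) * |y (n + l)| ≤ 2 * (ε / 8) := by
        gcongr
      linarith
  -- counting
  have hP := P_pos i
  have hP' : (0 : ℝ) < P i := by exact_mod_cast hP
  refine ⟨1 / (128 * P i), by positivity, ?_⟩
  rw [eventually_atTop]
  refine ⟨64 * (4 * P i + M1 + M2 + P i + 1), ?_⟩
  intro N hN
  -- choose the exponent
  obtain ⟨e, he1, he2, he3⟩ : ∃ e, e % 2 = c ∧ 2 * 4 ^ e ≤ N ∧ N < 32 * 4 ^ e := by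
    set L := Nat.log 4 (N / 2) with hL
    have hN2 : N / 2 ≠ 0 := by omega
    have h1 : 4 ^ L ≤ N / 2 := Nat.pow_log_le_self 4 hN2
    have h2 : N / 2 < 4 ^ (L + 1) := Nat.lt_pow_succ_log_self (by norm_num) _
    have h42 : 4 ^ (L + 1) = 4 * 4 ^ L := by rw [pow_succ]; ring
    by_cases hpar : L % 2 = c
    · exact ⟨L, hpar, by omega, by omega⟩
    · have hLpos : 1 ≤ L := by
        by_contra h
        have : L = 0 := by omega
        rw [this] at h2
        norm_num at h2
        omega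
      have h43 : 4 ^ L = 4 * 4 ^ (L - 1) := by
        conv_lhs => rw [show L = (L - 1) + 1 by omega]
        rw [pow_succ]; ring
      exact ⟨L - 1, by omega, by omega, by omega⟩
  have hbig : M1 + M2 + P i ≤ 4 ^ e := by omega
  have hsub : (GoodSet i (4 ^ e) : Set ℕ) ⊆ {n : ℕ | n < N ∧ (T ^ n) y ∈ U} := by
    intro n hn
    have hn' : n ∈ GoodSet i (4 ^ e) := hn
    refine ⟨?_, hgood e he1 hbig n hn'⟩
    unfold GoodSet at hn'
    rw [mem_filter, mem_Ico] at hn'
    omega
  have hfin : {n : ℕ | n < N ∧ (T ^ n) y ∈ U}.Finite :=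
    (Set.finite_lt_nat N).subset (fun n hn => hn.1)
  have hcard := Set.ncard_le_ncard hsub hfin
  rw [Set.ncard_coe_finset] at hcard
  have h1 := card_GoodSet i (4 ^ e) (by omega)
  have h2 : ((GoodSet i (4 ^ e)).card : ℝ) ≤ (({n : ℕ | n < N ∧ (T ^ n) y ∈ U}.ncard : ℕ) : ℝ) := by
    exact_mod_cast hcard
  refine le_trans ?_ h2
  refine le_trans ?_ h1
  have h3 : (N : ℝ) < 32 * 4 ^ e := by exact_mod_cast he3
  have h4 : (4 : ℝ) * P i ≤ 4 ^ e := by
    have : 4 * P i ≤ 4 ^ e := by omega
    exact_mod_cast this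
  push_cast
  rw [div_mul_eq_mul_div, one_mul, le_sub_iff_add_le, div_add' _ _ _ (by positivity), div_le_div_iff₀ (by positivity) (by positivity)]
  nlinarith

theorem main (x : X) : ∃ y z : X, x = y + z ∧
        (∀ U : Set X, IsOpen U → U.Nonempty →
          ∃ δ : ℝ, 0 < δ ∧ ∀ᶠ N : ℕ in Filter.atTop,
            δ * (N : ℝ) ≤ (({n : ℕ | n < N ∧ (T ^ n) y ∈ U}.ncard : ℕ) : ℝ)) ∧
        (∀ U : Set X, IsOpen U → U.Nonempty →
          ∃ δ : ℝ, 0 < δ ∧ ∀ᶠ N : ℕ in Filter.atTop,
            δ * (N : ℝ) ≤ (({n : ℕ | n < N ∧ (T ^ n) z ∈ U}.ncard : ℕ) : ℝ)) := by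
  classical
  have hp : Tendsto (fun m : ℕ => p v m / (m + 1)) atTop (𝓝 0) := by
    have h1 : Tendsto (fun m : ℕ => Real.sqrt (1 / ((m : ℝ) + 1))) atTop (𝓝 0) := by
      have := (Real.continuous_sqrt.tendsto 0).comp (tendsto_one_div_add_atTop_nhds_zero_nat (𝕜 := ℝ))
      rw [Real.sqrt_zero] at this
      exact this
    apply squeeze_zero_norm _ h1
    intro m
    rw [Real.norm_eq_abs]
    apply Real.le_sqrt_of_sq_le
    have h2 := p_bound v v2 m
    have h3 : (0 : ℝ) < (m : ℝ) + 1 := by positivity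
    rw [sq_abs, div_pow, div_le_div_iff₀ (by positivity) h3]
    nlinarith
  let fy : ℕ → ℝ := fun m => if Nat.log 4 m % 2 = 0 then p v m / (m + 1) else x m - p v m / (m + 1)
  have hfy : Tendsto fy atTop (𝓝 0) := by
    have h1 : Tendsto (fun m : ℕ => |p v m / (m + 1)| + |x m|) atTop (𝓝 0) := by
      have := hp.abs.add (tendsto_X x).abs
      simpa using this
    apply squeeze_zero_norm _ h1
    intro m
    simp only [fy]
    rw [Real.norm_eq_abs]
    split_ifs
    · exact le_add_of_nonneg_right (abs_nonneg _)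
    · refine (abs_sub _ _).trans ?_
      rw [add_comm]
  let y : X := mkX fy hfy
  have hlog : ∀ e m : ℕ, 4 ^ e ≤ m → m < 4 ^ (e + 1) → Nat.log 4 m = e := by
    intro e m h1 h2
    exact Nat.log_eq_of_pow_le_of_lt_pow h1 h2
  refine ⟨y, x - y, by abel, ?_, ?_⟩
  · apply fhc_of_phase 0 (by norm_num) y
    intro e he m h1 h2
    simp only [y, mkX_apply, fy]
    rw [hlog e m h1 h2, if_pos he]
    field_simp
  · apply fhc_of_phase 1 (by norm_num) (x - y)
    intro e he m h1 h2
    rw [ZeroAtInftyContinuousMap.sub_apply]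
    simp only [y, mkX_apply, fy]
    rw [hlog e m h1 h2, if_neg (by omega)]
    field_simp
    ring

/-- There is a bounded operator T on a nonzero separable real or complex Banach space such that every vector is a sum of two vectors whose orbits visit each nonempty open set with positive lower density. -/
theorem result :
    ∃ (𝕜 : Type) (_ : RCLike 𝕜) (X : Type) (_ : NormedAddCommGroup X)
      (_ : NormedSpace 𝕜 X) (_ : CompleteSpace X)
      (_ : TopologicalSpace.SeparableSpace X) (_ : Nontrivial X)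
      (T : X →L[𝕜] X),
      ∀ x : X, ∃ y z : X, x = y + z ∧
        (∀ U : Set X, IsOpen U → U.Nonempty →
          ∃ δ : ℝ, 0 < δ ∧ ∀ᶠ N : ℕ in Filter.atTop,
            δ * (N : ℝ) ≤ (({n : ℕ | n < N ∧ (T ^ n) y ∈ U}.ncard : ℕ) : ℝ)) ∧
        (∀ U : Set X, IsOpen U → U.Nonempty →
          ∃ δ : ℝ, 0 < δ ∧ ∀ᶠ N : ℕ in Filter.atTop,
            δ * (N : ℝ) ≤ (({n : ℕ | n < N ∧ (T ^ n) z ∈ U}.ncard : ℕ) : ℝ)) := by
  have hsep : TopologicalSpace.SeparableSpace X := by
    obtain ⟨y, z, _, hy, _⟩ := main 0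
    refine ⟨Set.range (fun n : ℕ => (T ^ n) y), Set.countable_range _, ?_⟩
    rw [dense_iff_inter_open]
    intro U hU hne
    obtain ⟨δ, hδ, hev⟩ := hy U hU hne
    obtain ⟨N, hN⟩ := (hev.and (eventually_gt_atTop 0)).exists
    have h1 : (0 : ℝ) < (({n : ℕ | n < N ∧ (T ^ n) y ∈ U}.ncard : ℕ) : ℝ) := by
      have : (0 : ℝ) < N := by exact_mod_cast hN.2
      have := mul_pos hδ this
      linarith [hN.1]
    have h2 : {n : ℕ | n < N ∧ (T ^ n) y ∈ U}.ncard ≠ 0 := by
      intro h
      rw [h] at h1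
      simp at h1
    obtain ⟨n, _, hn⟩ := Set.nonempty_of_ncard_ne_zero h2
    exact ⟨_, hn, n, rfl⟩
  have hnt : Nontrivial X := by
    refine ⟨mkX (fun n => 1 / ((n : ℝ) + 1)) tendsto_one_div_add_atTop_nhds_zero_nat, 0, ?_⟩
    intro h
    have := congrArg (fun f : X => f 0) h
    simp at this
  exact ⟨ℝ, inferInstance, X, inferInstance, inferInstance, inferInstance, hsep, hnt, T, main⟩

end Pool.Agent.S03813
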