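import Pool.Statements.S03817
import Pool.Agent.Helper60.Mah.End
import Pool.Agent.Helper60.Unc.AllMajor

set_option autoImplicit false
open Pool Pool.MP_ac58b9_an

namespace Pool.Agent.S03817

/-- For 1<p<∞, p≠2, and any finite measure whose real L_p space has density exactly aleph_1, that L_p space has an unconditional basis: a family e_i with every x a unique unconditionally convergent sum of a_i e_i. -/
theorem result :
    ∀ (p : ENNReal) [Fact (1 ≤ p)], 1 < p → p ≠ 2 → p ≠ ⊤ →
    ∀ (Ω : Type) [MeasurableSpace Ω] (μ : MeasureTheory.Measure Ω),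
      MeasureTheory.IsFiniteMeasure μ →
      (∃ D : Set (MeasureTheory.Lp ℝ p μ),
          Dense D ∧ Cardinal.mk ↥D ≤ Cardinal.aleph 1) →
      (∀ D : Set (MeasureTheory.Lp ℝ p μ),
          Dense D → Cardinal.aleph 1 ≤ Cardinal.mk ↥D) →
      ∃ (I : Type) (e : I → MeasureTheory.Lp ℝ p μ),
        ∀ x : MeasureTheory.Lp ℝ p μ,
          ∃! a : I → ℝ, HasSum (fun i => a i • e i) x := by
  intro p _ hp1 hp2 hpt Ω _ μ hμ hD _
  exact H60Mah.all_of_major H60Unc.major_all p hp1 hp2 hpt Ω μ hμ hD

end Pool.Agent.S03817
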