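import Pool.Statements.S03820

set_option autoImplicit false
open Pool Pool.MP_aca27d_an

namespace Pool.Agent.S03820

/-! ### Order-theoretic part -/

section Order

variable {Ω : Type} [LinearOrder Ω]

/-- Every sequence has a strict upper bound. -/
def SeqBdd (Ω : Type) [LinearOrder Ω] : Prop := ∀ s : ℕ → Ω, ∃ b, ∀ n, s n < b

/-- Initial segments are countable. -/
def SegCtb (Ω : Type) [LinearOrder Ω] : Prop := ∀ a : Ω, (Set.Iio a).Countable

/-- `S` contains a non-minimal closure point of every self-map. -/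
def Stat (S : Set Ω) : Prop :=
  ∀ s : Ω → Ω, ∃ δ ∈ S, (∃ b, b < δ) ∧ ∀ β, β < δ → s β < δ

theorem exists_bound (hb : SeqBdd Ω) {A : Set Ω} (hA : A.Countable) (x : Ω) :
    ∃ b, x < b ∧ ∀ a ∈ A, a < b := by
  have hA' : (insert x A).Countable := hA.insert x
  obtain ⟨e, he⟩ := hA'.exists_eq_range ⟨x, Set.mem_insert _ _⟩
  obtain ⟨b, hb'⟩ := hb e
  have key : ∀ a ∈ insert x A, a < b := by
    intro a ha
    rw [he] at ha
    obtain ⟨n, rfl⟩ := ha
    exact hb' n
  exact ⟨b, key x (Set.mem_insert _ _), fun a ha => key a (Set.mem_insert_of_mem _ ha)⟩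

theorem iic_countable (hc : SegCtb Ω) (a : Ω) : (Set.Iic a).Countable := by
  have : Set.Iic a = insert a (Set.Iio a) := by
    ext b; simp [le_iff_eq_or_lt]
  rw [this]
  exact (hc a).insert a

/-- A bound for a self-map over initial segments. -/
theorem exists_bound_fun (hb : SeqBdd Ω) (hc : SegCtb Ω) (s : Ω → Ω) :
    ∃ t : Ω → Ω, ∀ a, a < t a ∧ ∀ β, β ≤ a → s β < t a := by
  have : ∀ a, ∃ b, a < b ∧ ∀ β, β ≤ a → s β < b := by
    intro a
    obtain ⟨b, h1, h2⟩ := exists_bound hb ((iic_countable hc a).image s) a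
    exact ⟨b, h1, fun β hβ => h2 _ ⟨β, hβ, rfl⟩⟩
  choose t ht using this
  exact ⟨t, ht⟩

theorem stat_univ [WellFoundedLT Ω] [Nonempty Ω] (hb : SeqBdd Ω) (hc : SegCtb Ω) :
    Stat (Set.univ : Set Ω) := by
  intro s
  obtain ⟨t, ht⟩ := exists_bound_fun hb hc s
  obtain ⟨x⟩ := ‹Nonempty Ω›
  let p : ℕ → Ω := fun n => Nat.rec x (fun _ y => t y) n
  have hp : ∀ n, p (n + 1) = t (p n) := fun n => rfl
  have hne : {b : Ω | ∀ n, p n < b}.Nonempty := hb p
  let δ := WellFounded.min (wellFounded_lt (α := Ω)) _ hne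
  have hδ : ∀ n, p n < δ := WellFounded.min_mem (wellFounded_lt (α := Ω)) _ hne
  refine ⟨δ, Set.mem_univ _, ⟨p 0, hδ 0⟩, ?_⟩
  intro β hβ
  have hnot : ¬ (∀ n, p n < β) := by
    intro h
    exact (WellFounded.not_lt_min (wellFounded_lt (α := Ω)) {b : Ω | ∀ n, p n < b} h) hβ
  push Not at hnot
  obtain ⟨n, hn⟩ := hnot
  exact ((ht (p n)).2 β hn).trans (hδ (n + 1))

theorem exists_stat [WellFoundedLT Ω] (hb : SeqBdd Ω) (hc : SegCtb Ω)
    (hu : ¬ (Set.univ : Set Ω).Countable) :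
    ∃ S : ℕ → Set Ω, (∀ k, Stat (S k)) ∧ ∀ j k, ∀ δ, δ ∈ S j → δ ∈ S k → j = k := by
  have hne : Nonempty Ω := by
    by_contra h
    rw [not_nonempty_iff] at h
    exact hu (Set.countable_univ)
  have : ∀ β : Ω, ∃ f : Ω → ℕ, Set.InjOn f (Set.Iio β) := fun β =>
    Set.countable_iff_exists_injOn.mp (hc β)
  choose f hf using this
  let A : ℕ → Ω → Set Ω := fun n α => {β | α < β ∧ f β α = n}
  have h1 : ∀ α, ∃ n, Stat (A n α) := by
    intro α
    by_contra hcon
    push Not at hcon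
    unfold Stat at hcon
    push Not at hcon
    choose s hs using hcon
    have : ∀ β, ∃ b, α < b ∧ ∀ n, s n β < b := by
      intro β
      obtain ⟨b, h1, h2⟩ := exists_bound hb (Set.countable_range (fun n => s n β)) α
      exact ⟨b, h1, fun n => h2 _ ⟨n, rfl⟩⟩
    choose r hr using this
    obtain ⟨δ, -, ⟨c, hcδ⟩, hcl⟩ := stat_univ hb hc r
    have hαδ : α < δ := (hr c).1.trans (hcl c hcδ)
    obtain ⟨β, hβ, hβ'⟩ := hs (f δ α) δ ⟨hαδ, rfl⟩ ⟨c, hcδ⟩
    exact absurd (((hr β).2 (f δ α)).trans (hcl β hβ)) (not_lt.mpr hβ')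
  choose n hn using h1
  have h2 : ∃ m, (n ⁻¹' {m}).Infinite := by
    by_contra hcon
    push Not at hcon
    apply hu
    have : (Set.univ : Set Ω) = ⋃ m, n ⁻¹' {m} := by
      ext x; simp
    rw [this]
    exact Set.countable_iUnion (fun m => (Set.not_infinite.mp (by simpa using hcon m)).countable)
  obtain ⟨m, hm⟩ := h2
  let e := hm.natEmbedding
  refine ⟨fun k => A m (e k), ?_, ?_⟩
  · intro k
    have h3 : n (e k) = m := (e k).2
    have h4 := hn (e k)
    rw [h3] at h4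
    exact h4
  · intro j k δ hj hk
    have h5 : (e j : Ω) = e k := hf δ hj.1 hk.1 (hj.2.trans hk.2.symm)
    exact e.injective (Subtype.ext h5)

theorem exists_omega1 : ∃ (Ω : Type) (_ : LinearOrder Ω), WellFoundedLT Ω ∧ SegCtb Ω ∧
    ¬ (Set.univ : Set Ω).Countable := by
  refine ⟨(Cardinal.aleph 1).ord.ToType, inferInstance, inferInstance, ?_, ?_⟩
  · intro a
    have h := Cardinal.mk_Iio_lt a (by simp)
    rw [Cardinal.mk_ord_toType] at h
    rw [← Cardinal.le_aleph0_iff_set_countable]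
    rw [← Order.lt_succ_iff, Cardinal.succ_aleph0]
    exact h
  · intro h
    have h' := Cardinal.le_aleph0_iff_set_countable.mpr h
    rw [Cardinal.mk_univ, Cardinal.mk_ord_toType] at h'
    exact absurd h' (not_le.mpr Cardinal.aleph0_lt_aleph_one)

theorem seqBdd_of (hc : SegCtb Ω) (hu : ¬ (Set.univ : Set Ω).Countable) : SeqBdd Ω := by
  intro s
  by_contra hcon
  push Not at hcon
  apply hu
  have : (Set.univ : Set Ω) = ⋃ n, Set.Iic (s n) := by
    ext x
    simp only [Set.mem_univ, Set.mem_iUnion, Set.mem_Iic, true_iff]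
    exact hcon x
  rw [this]
  exact Set.countable_iUnion (fun n => iic_countable hc (s n))

end Order

/-! ### The function spaces -/

section Space

variable {Ω : Type} [LinearOrder Ω]

/-- Left continuity at `δ` (no condition at a minimal point). -/
def LC {Z : Type} [NormedAddCommGroup Z] (g : Ω → Z) (δ : Ω) : Prop :=
  ∀ ε : ℝ, 0 < ε → ∀ c, c < δ → ∃ a, a < δ ∧ ∀ b, a < b → b < δ → ‖g b - g δ‖ < ε

variable {Z : Type} [NormedAddCommGroup Z] [NormedSpace ℝ Z]
variable {V : Type} [NormedAddCommGroup V] [NormedSpace ℝ V]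

theorem LC.add {g h : Ω → Z} {δ : Ω} (hg : LC g δ) (hh : LC h δ) :
    LC (fun b => g b + h b) δ := by
  intro ε hε c hc
  obtain ⟨a1, ha1, h1⟩ := hg (ε / 2) (half_pos hε) c hc
  obtain ⟨a2, ha2, h2⟩ := hh (ε / 2) (half_pos hε) c hc
  refine ⟨max a1 a2, max_lt ha1 ha2, fun b hab hbd => ?_⟩
  have e1 := h1 b (lt_of_le_of_lt (le_max_left _ _) hab) hbd
  have e2 := h2 b (lt_of_le_of_lt (le_max_right _ _) hab) hbd
  have e3 : g b + h b - (g δ + h δ) = (g b - g δ) + (h b - h δ) := by abel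
  show ‖g b + h b - (g δ + h δ)‖ < ε
  rw [e3]
  have e4 := norm_add_le (g b - g δ) (h b - h δ)
  linarith

theorem LC.clm {Z' : Type} [NormedAddCommGroup Z'] [NormedSpace ℝ Z'] {g : Ω → Z} {δ : Ω}
    (hg : LC g δ) (L : Z →L[ℝ] Z') : LC (fun b => L (g b)) δ := by
  intro ε hε c hc
  have hpos : 0 < ‖L‖ + 1 := by positivity
  obtain ⟨a1, ha1, h1⟩ := hg (ε / (‖L‖ + 1)) (div_pos hε hpos) c hc
  refine ⟨a1, ha1, fun b hab hbd => ?_⟩
  have e1 := h1 b hab hbd
  show ‖L (g b) - L (g δ)‖ < ε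
  rw [← map_sub]
  have e2 := L.le_opNorm (g b - g δ)
  have e3 : (‖L‖ + 1) * ‖g b - g δ‖ < ε := by
    rw [lt_div_iff₀ hpos] at e1
    linarith
  nlinarith [norm_nonneg (g b - g δ)]

theorem LC.unif {g : Ω → Z} {δ : Ω}
    (h : ∀ ε : ℝ, 0 < ε → ∃ g' : Ω → Z, LC g' δ ∧ ∀ b, ‖g b - g' b‖ ≤ ε) : LC g δ := by
  intro ε hε c hc
  obtain ⟨g', hg', hgg'⟩ := h (ε / 4) (by positivity)
  obtain ⟨a, ha, h1⟩ := hg' (ε / 4) (by positivity) c hc
  refine ⟨a, ha, fun b hab hbd => ?_⟩
  have e1 := h1 b hab hbd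
  have e2 := hgg' b
  have e3 := hgg' δ
  have e4 : g b - g δ = (g b - g' b) + (g' b - g' δ) - (g δ - g' δ) := by abel
  rw [e4]
  have e5 := norm_sub_le ((g b - g' b) + (g' b - g' δ)) (g δ - g' δ)
  have e6 := norm_add_le (g b - g' b) (g' b - g' δ)
  linarith

/-- The space of bounded, eventually zero functions `f : Ω → V` such that `P i ∘ f` is left
continuous at all points of `S i`. -/
def Sp [Nonempty Ω] (S : ℕ → Set Ω) (P : ℕ → V →L[ℝ] Z) :
    Submodule ℝ (lp (fun _ : Ω => V) ⊤) where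
  carrier := {f | (∃ a, ∀ b, a < b → f b = 0) ∧
    ∀ i, ∀ δ ∈ S i, LC (fun b => P i (f b)) δ}
  add_mem' := by
    rintro f g ⟨⟨a, ha⟩, hf⟩ ⟨⟨a', ha'⟩, hg⟩
    refine ⟨⟨max a a', fun b hb => ?_⟩, fun i δ hδ => ?_⟩
    · rw [lp.coeFn_add, Pi.add_apply, ha b (lt_of_le_of_lt (le_max_left _ _) hb),
        ha' b (lt_of_le_of_lt (le_max_right _ _) hb), add_zero]
    · have := (hf i δ hδ).add (hg i δ hδ)
      simpa [lp.coeFn_add] using this
  zero_mem' := by
    obtain ⟨x⟩ := ‹Nonempty Ω›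
    refine ⟨⟨x, fun b _ => by simp⟩, fun i δ hδ ε hε c hc => ⟨c, hc, fun b _ _ => ?_⟩⟩
    simpa using hε
  smul_mem' := by
    rintro r f ⟨⟨a, ha⟩, hf⟩
    refine ⟨⟨a, fun b hb => ?_⟩, fun i δ hδ => ?_⟩
    · rw [lp.coeFn_smul, Pi.smul_apply, ha b hb, smul_zero]
    · have := (hf i δ hδ).clm (r • ContinuousLinearMap.id ℝ Z)
      simpa [lp.coeFn_smul] using this

theorem Sp_isClosed [Nonempty Ω] (hb : SeqBdd Ω) (S : ℕ → Set Ω) (P : ℕ → V →L[ℝ] Z) :
    IsClosed (Sp S P : Set (lp (fun _ : Ω => V) ⊤)) := by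
  apply IsSeqClosed.isClosed
  intro x y hx hxy
  have hpt : ∀ n b, ‖y b - x n b‖ ≤ ‖y - x n‖ := by
    intro n b
    have := lp.norm_apply_le_norm (p := ⊤) (by simp) (y - x n) b
    simpa [lp.coeFn_sub] using this
  have hlim : ∀ ε : ℝ, 0 < ε → ∃ n, ‖y - x n‖ < ε := by
    intro ε hε
    have := (Metric.tendsto_atTop.mp hxy) ε hε
    obtain ⟨N, hN⟩ := this
    refine ⟨N, ?_⟩
    have := hN N le_rfl
    rwa [dist_comm, dist_eq_norm] at this
  refine ⟨?_, ?_⟩
  · have h1 : ∀ n, ∃ a, ∀ b, a < b → x n b = 0 := fun n => (hx n).1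
    choose a ha using h1
    obtain ⟨c, hc⟩ := hb a
    refine ⟨c, fun b hcb => ?_⟩
    by_contra hne
    have hpos : 0 < ‖y b‖ := norm_pos_iff.mpr hne
    obtain ⟨n, hn⟩ := hlim _ hpos
    have h2 := hpt n b
    rw [ha n b ((hc n).trans hcb), sub_zero] at h2
    linarith
  · intro i δ hδ
    apply LC.unif
    intro ε hε
    have hpos : 0 < ‖P i‖ + 1 := by positivity
    obtain ⟨n, hn⟩ := hlim (ε / (‖P i‖ + 1)) (div_pos hε hpos)
    refine ⟨fun b => P i (x n b), (hx n).2 i δ hδ, fun b => ?_⟩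
    show ‖P i (y b) - P i (x n b)‖ ≤ ε
    rw [← map_sub]
    have e1 := (P i).le_opNorm (y b - x n b)
    have e2 := hpt n b
    rw [lt_div_iff₀ hpos] at hn
    have e3 := norm_nonneg (y b - x n b)
    have e4 := norm_nonneg (P i)
    nlinarith

/-- Evaluation. -/
def ev [Nonempty Ω] {S : ℕ → Set Ω} {P : ℕ → V →L[ℝ] Z} (f : Sp S P) (b : Ω) : V :=
  (f : lp (fun _ : Ω => V) ⊤) b

variable [Nonempty Ω] {S : ℕ → Set Ω} {P : ℕ → V →L[ℝ] Z}

@[simp] theorem ev_add (f g : Sp S P) (b : Ω) : ev (f + g) b = ev f b + ev g b := rfl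
@[simp] theorem ev_sub (f g : Sp S P) (b : Ω) : ev (f - g) b = ev f b - ev g b := rfl
@[simp] theorem ev_smul (r : ℝ) (f : Sp S P) (b : Ω) : ev (r • f) b = r • ev f b := rfl
@[simp] theorem ev_zero (b : Ω) : ev (0 : Sp S P) b = 0 := rfl

theorem ev_le (f : Sp S P) (b : Ω) : ‖ev f b‖ ≤ ‖f‖ :=
  lp.norm_apply_le_norm (p := ⊤) (by simp) (f : lp (fun _ : Ω => V) ⊤) b

theorem norm_le_of (f : Sp S P) {C : ℝ} (hC : 0 ≤ C) (h : ∀ b, ‖ev f b‖ ≤ C) : ‖f‖ ≤ C :=
  lp.norm_le_of_forall_le (f := (f : lp (fun _ : Ω => V) ⊤)) hC h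

theorem ev_ext {f g : Sp S P} (h : ∀ b, ev f b = ev g b) : f = g := by
  apply Subtype.ext
  apply lp.ext
  funext b
  exact h b

theorem ev_evzero (f : Sp S P) : ∃ a, ∀ b, a < b → ev f b = 0 := f.2.1

theorem ev_LC (f : Sp S P) (i : ℕ) (δ : Ω) (hδ : δ ∈ S i) : LC (fun b => P i (ev f b)) δ :=
  f.2.2 i δ hδ

/-- Constructor. -/
def mkE (g : Ω → V) (C : ℝ) (hC : ∀ b, ‖g b‖ ≤ C) (h0 : ∃ a, ∀ b, a < b → g b = 0)
    (hl : ∀ i, ∀ δ ∈ S i, LC (fun b => P i (g b)) δ) : Sp S P :=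
  ⟨⟨g, memℓp_infty ⟨C, by rintro _ ⟨b, rfl⟩; exact hC b⟩⟩, h0, hl⟩

@[simp] theorem ev_mkE (g : Ω → V) (C : ℝ) (hC : ∀ b, ‖g b‖ ≤ C)
    (h0 : ∃ a, ∀ b, a < b → g b = 0)
    (hl : ∀ i, ∀ δ ∈ S i, LC (fun b => P i (g b)) δ) (b : Ω) :
    ev (mkE (S := S) (P := P) g C hC h0 hl) b = g b := rfl

/-- Evaluation as a continuous linear map. -/
noncomputable def evL (b : Ω) : Sp S P →L[ℝ] V :=
  LinearMap.mkContinuous
    { toFun := fun f => ev f b
      map_add' := fun _ _ => rfl
      map_smul' := fun _ _ => rfl } 1 (fun f => by rw [one_mul]; exact ev_le f b)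

@[simp] theorem evL_apply (b : Ω) (f : Sp S P) : evL b f = ev f b := rfl

/-- The function equal to `v` on the closed initial segment and zero afterwards. -/
def chi (γ : Ω) (v : V) : Sp S P :=
  mkE (fun b => if b ≤ γ then v else 0) ‖v‖
    (fun b => by
      split_ifs
      · exact le_rfl
      · simp)
    ⟨γ, fun b hb => by simp [not_le.mpr hb]⟩
    (fun i δ hδ ε hε c hc => by
      by_cases h : δ ≤ γ
      · refine ⟨c, hc, fun b _ hbd => ?_⟩
        simp [h, hbd.le.trans h, hε]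
      · push Not at h
        refine ⟨γ, h, fun b hb hbd => ?_⟩
        simp [not_le.mpr h, not_le.mpr hb, hε])

theorem ev_chi (γ : Ω) (v : V) (b : Ω) :
    ev (chi γ v : Sp S P) b = if b ≤ γ then v else 0 := rfl

theorem chi_add (γ : Ω) (v w : V) : (chi γ (v + w) : Sp S P) = chi γ v + chi γ w := by
  apply ev_ext; intro b
  rw [ev_add, ev_chi, ev_chi, ev_chi]
  split_ifs <;> simp

theorem chi_smul (γ : Ω) (r : ℝ) (v : V) : (chi γ (r • v) : Sp S P) = r • chi γ v := by
  apply ev_ext; intro b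
  rw [ev_smul, ev_chi, ev_chi]
  split_ifs <;> simp

theorem norm_chi_le (γ : Ω) (v : V) : ‖(chi γ v : Sp S P)‖ ≤ ‖v‖ := by
  apply norm_le_of _ (norm_nonneg _)
  intro b
  rw [ev_chi]
  split_ifs
  · exact le_rfl
  · simp

/-- A functional on the space depends only on a countable initial segment. -/
theorem functional_bdd (hb : SeqBdd Ω) (φ : Sp S P →L[ℝ] ℝ) :
    ∃ s : Ω, ∀ f : Sp S P, (∀ b, b ≤ s → ev f b = 0) → φ f = 0 := by
  by_contra hcon
  push Not at hcon
  have h1 : ∀ s : Ω, ∃ f : Sp S P, ‖f‖ ≤ 1 ∧ (∀ b, b ≤ s → ev f b = 0) ∧ 0 < φ f := by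
    intro s
    obtain ⟨f, hf, hne⟩ := hcon s
    have hfne : f ≠ 0 := by
      rintro rfl
      exact hne (map_zero φ)
    have hpos : 0 < ‖f‖ := norm_pos_iff.mpr hfne
    rcases lt_or_gt_of_ne hne with hlt | hgt
    · refine ⟨(-(‖f‖)⁻¹) • f, ?_, ?_, ?_⟩
      · rw [norm_smul, norm_neg, norm_inv, norm_norm, inv_mul_cancel₀ hpos.ne']
      · intro b hbs
        rw [ev_smul, hf b hbs, smul_zero]
      · rw [map_smul, smul_eq_mul]
        have : 0 < (‖f‖)⁻¹ := inv_pos.mpr hpos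
        nlinarith
    · refine ⟨((‖f‖)⁻¹) • f, ?_, ?_, ?_⟩
      · rw [norm_smul, norm_inv, norm_norm, inv_mul_cancel₀ hpos.ne']
      · intro b hbs
        rw [ev_smul, hf b hbs, smul_zero]
      · rw [map_smul, smul_eq_mul]
        have : 0 < (‖f‖)⁻¹ := inv_pos.mpr hpos
        positivity
  have h2 : ∃ n : ℕ, ∀ s : Ω, ∃ f : Sp S P, ‖f‖ ≤ 1 ∧ (∀ b, b ≤ s → ev f b = 0) ∧
      1 / ((n : ℝ) + 1) < φ f := by
    by_contra hc2
    push Not at hc2
    choose s hs using hc2
    obtain ⟨b, hb'⟩ := hb s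
    obtain ⟨f, hf1, hf2, hf3⟩ := h1 b
    obtain ⟨n, hn⟩ := exists_nat_one_div_lt hf3
    have := hs n f hf1 (fun x hx => hf2 x (hx.trans (hb' n).le))
    linarith
  obtain ⟨n, hn⟩ := h2
  have h3 : ∀ N : ℕ, ∀ s : Ω, ∃ f : Sp S P, ‖f‖ ≤ 1 ∧ (∀ b, b ≤ s → ev f b = 0) ∧
      (N : ℝ) * (1 / ((n : ℝ) + 1)) ≤ φ f := by
    intro N
    induction N with
    | zero => intro s; exact ⟨0, by simp, by simp, by simp⟩
    | succ N ih =>
      intro s
      obtain ⟨f1, h11, h12, h13⟩ := hn s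
      obtain ⟨a, ha⟩ := ev_evzero f1
      obtain ⟨f2, h21, h22, h23⟩ := ih (max s a)
      refine ⟨f1 + f2, ?_, ?_, ?_⟩
      · apply norm_le_of _ zero_le_one
        intro b
        rw [ev_add]
        by_cases hba : b ≤ a
        · rw [h22 b (hba.trans (le_max_right _ _)), add_zero]
          exact (ev_le f1 b).trans h11
        · push Not at hba
          rw [ha b hba, zero_add]
          exact (ev_le f2 b).trans h21
      · intro b hbs
        rw [ev_add, h12 b hbs, h22 b (hbs.trans (le_max_left _ _)), add_zero]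
      · rw [map_add]
        push_cast
        linarith
  obtain ⟨N, hN⟩ := exists_nat_gt (‖φ‖ * ((n : ℝ) + 1))
  obtain ⟨x⟩ := ‹Nonempty Ω›
  obtain ⟨f, hf1, hf2, hf3⟩ := h3 N x
  have e1 : φ f ≤ ‖φ‖ := by
    have := φ.le_opNorm f
    have h4 : φ f ≤ ‖φ f‖ := le_abs_self _
    have h5 : ‖φ‖ * ‖f‖ ≤ ‖φ‖ * 1 := mul_le_mul_of_nonneg_left hf1 φ.opNorm_nonneg
    linarith
  have hpos : (0 : ℝ) < (n : ℝ) + 1 := by positivity
  have e2 : ‖φ‖ < (N : ℝ) * (1 / ((n : ℝ) + 1)) := by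
    rw [mul_one_div, lt_div_iff₀ hpos]
    exact hN
  linarith

end Space

/-! ### Rigidity -/

section Rigid

variable {Ω : Type} [LinearOrder Ω]

theorem eventually_const (hb : SeqBdd Ω) {Z : Type} [NormedAddCommGroup Z] {A : Set Ω}
    (hA : Stat A) (g : Ω → Z) (hg : ∀ δ ∈ A, LC g δ) :
    ∃ β₀, ∀ β β', β₀ ≤ β → β₀ ≤ β' → g β = g β' := by
  have h1 : ∀ n : ℕ, ∃ η, ∀ β β', η < β → η < β' → ‖g β - g β'‖ < 1 / ((n : ℝ) + 1) := by
    intro n
    by_contra hcon
    push Not at hcon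
    choose p q hp hq hpq using hcon
    obtain ⟨δ, hδ, ⟨c, hcδ⟩, hcl⟩ := hA (fun a => max (p a) (q a))
    have hpos : (0 : ℝ) < 1 / ((n : ℝ) + 1) := by positivity
    obtain ⟨a, ha, h2⟩ := hg δ hδ (1 / ((n : ℝ) + 1) / 2) (half_pos hpos) c hcδ
    have hm := hcl a ha
    have e1 := h2 (p a) (hp a) ((le_max_left _ _).trans_lt hm)
    have e2 := h2 (q a) (hq a) ((le_max_right _ _).trans_lt hm)
    have e3 := hpq a
    have e4 : g (p a) - g (q a) = (g (p a) - g δ) - (g (q a) - g δ) := by abel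
    rw [e4] at e3
    have e5 := norm_sub_le (g (p a) - g δ) (g (q a) - g δ)
    linarith
  choose η hη using h1
  obtain ⟨β₀, hβ₀⟩ := hb η
  refine ⟨β₀, fun β β' hβ hβ' => ?_⟩
  by_contra hne
  have hpos : 0 < ‖g β - g β'‖ := norm_pos_iff.mpr (sub_ne_zero.mpr hne)
  obtain ⟨n, hn⟩ := exists_nat_one_div_lt hpos
  have := hη n β β' ((hβ₀ n).trans_le hβ) ((hβ₀ n).trans_le hβ')
  linarith

abbrev V3 : Type := Fin 3 → ℝ

variable [Nonempty Ω] {S : ℕ → Set Ω} {P Q : ℕ → V3 →L[ℝ] V3}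

/-- `chi` as a linear map in the vector. -/
noncomputable def chiL (γ : Ω) : V3 →ₗ[ℝ] Sp S P where
  toFun v := chi γ v
  map_add' := chi_add γ
  map_smul' := chi_smul γ

/-- The value of the image of an indicator function, as a linear map in the vector. -/
noncomputable def valL (T : Sp S P →L[ℝ] Sp S Q) (γ β : Ω) : V3 →ₗ[ℝ] V3 :=
  (evL β : Sp S Q →L[ℝ] V3).toLinearMap ∘ₗ T.toLinearMap ∘ₗ chiL γ

theorem valL_apply (T : Sp S P →L[ℝ] Sp S Q) (γ β : Ω) (v : V3) :
    valL T γ β v = ev (T (chi γ v)) β := rfl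

theorem lin_ext {A B : V3 →ₗ[ℝ] V3} (h : ∀ j, A (Pi.single j 1) = B (Pi.single j 1)) : A = B := by
  apply (Pi.basisFun ℝ (Fin 3)).ext
  intro j
  simpa using h j

theorem exists_h (hb : SeqBdd Ω) (hc : SegCtb Ω) (T : Sp S P →L[ℝ] Sp S Q) :
    ∃ h : Ω → Ω, (∀ a, a < h a) ∧
      (∀ a β, β ≤ a → ∀ f : Sp S P, (∀ b, b ≤ h a → ev f b = 0) → ev (T f) β = 0) ∧
      (∀ a γ, γ ≤ a → ∀ v β, h a ≤ β → ev (T (chi γ v)) β = 0) := by
  have h1 : ∀ β, ∃ s : Ω, ∀ f : Sp S P, (∀ b, b ≤ s → ev f b = 0) → ev (T f) β = 0 := by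
    intro β
    have hj : ∀ j : Fin 3, ∃ s : Ω, ∀ f : Sp S P, (∀ b, b ≤ s → ev f b = 0) →
        ev (T f) β j = 0 := by
      intro j
      exact functional_bdd hb
        ((ContinuousLinearMap.proj j : V3 →L[ℝ] ℝ).comp ((evL β).comp T))
    choose s hs using hj
    refine ⟨max (max (s 0) (s 1)) (s 2), fun f hf => ?_⟩
    funext j
    apply hs j f
    intro b hbs
    apply hf b
    refine hbs.trans ?_
    fin_cases j
    · exact (le_max_left _ _).trans (le_max_left _ _)
    · exact (le_max_right _ _).trans (le_max_left _ _)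
    · exact le_max_right _ _
  choose s hs using h1
  have h2 : ∀ γ, ∃ t : Ω, ∀ v β, t < β → ev (T (chi γ v)) β = 0 := by
    intro γ
    have hj : ∀ j : Fin 3, ∃ t : Ω, ∀ β, t < β →
        ev (T (chi γ (Pi.single j 1))) β = 0 := fun j => ev_evzero _
    choose t ht using hj
    refine ⟨max (max (t 0) (t 1)) (t 2), fun v β hβ => ?_⟩
    have : valL T γ β = 0 := by
      apply lin_ext
      intro j
      rw [valL_apply, LinearMap.zero_apply]
      apply ht j
      refine lt_of_le_of_lt ?_ hβ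
      fin_cases j
      · exact (le_max_left _ _).trans (le_max_left _ _)
      · exact (le_max_right _ _).trans (le_max_left _ _)
      · exact le_max_right _ _
    rw [← valL_apply, this, LinearMap.zero_apply]
  choose t ht using h2
  obtain ⟨h, hh⟩ := exists_bound_fun hb hc (fun a => max (s a) (t a))
  refine ⟨h, fun a => (hh a).1, ?_, ?_⟩
  · intro a β hβ f hf
    apply hs β f
    intro b hbs
    apply hf b
    exact hbs.trans ((le_max_left _ _).trans ((hh a).2 β hβ).le)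
  · intro a γ hγ v β hβ
    apply ht γ v β
    exact (lt_of_le_of_lt (le_max_right _ _) ((hh a).2 γ hγ)).trans_le hβ

theorem val_eq (T : Sp S P →L[ℝ] Sp S Q) (h : Ω → Ω)
    (H1 : ∀ a β, β ≤ a → ∀ f : Sp S P, (∀ b, b ≤ h a → ev f b = 0) → ev (T f) β = 0)
    (a β γ : Ω) (hβ : β ≤ a) (hγ : h a ≤ γ) :
    valL T γ β = valL T (h β) β := by
  have key : ∀ a β γ γ', β ≤ a → h a ≤ γ → h a ≤ γ' → ∀ v, valL T γ β v = valL T γ' β v := by
    intro a β γ γ' hβ hγ hγ' v
    have : ev (T (chi γ v - chi γ' v)) β = 0 := by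
      apply H1 a β hβ
      intro b hb
      rw [ev_sub, ev_chi, ev_chi, if_pos (hb.trans hγ), if_pos (hb.trans hγ'), sub_self]
    rw [map_sub, ev_sub, sub_eq_zero] at this
    exact this
  apply LinearMap.ext
  intro v
  rw [key a β γ (max γ (h β)) hβ hγ (hγ.trans (le_max_left _ _)) v]
  exact key β β (max γ (h β)) (h β) le_rfl (le_max_right _ _) le_rfl v

/-- The common eventual value of an operator on constant functions. -/
theorem exists_phi (hb : SeqBdd Ω) (hS : ∀ i, Stat (S i))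
    (hQ : ∀ w, (∀ i, Q i w = 0) → w = 0) (T : Sp S P →L[ℝ] Sp S Q) (h : Ω → Ω)
    (H1 : ∀ a β, β ≤ a → ∀ f : Sp S P, (∀ b, b ≤ h a → ev f b = 0) → ev (T f) β = 0) :
    ∃ (b₀ : Ω) (Φ : V3 →ₗ[ℝ] V3), ∀ β, b₀ ≤ β → valL T (h β) β = Φ := by
  have h1 : ∀ (i : ℕ) (v : V3), ∃ β₀, ∀ β β', β₀ ≤ β → β₀ ≤ β' →
      Q i (valL T (h β) β v) = Q i (valL T (h β') β' v) := by
    intro i v
    apply eventually_const hb (hS i) (fun β => Q i (valL T (h β) β v))
    intro δ hδ ε hε c hcδ
    obtain ⟨a, ha, h2⟩ := ev_LC (T (chi (h δ) v)) i δ hδ ε hε c hcδ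
    refine ⟨a, ha, fun b hab hbd => ?_⟩
    have h3 := h2 b hab hbd
    have e1 : valL T (h b) b = valL T (h δ) b :=
      (val_eq T h H1 δ b (h δ) hbd.le le_rfl).symm
    show ‖Q i (valL T (h b) b v) - Q i (valL T (h δ) δ v)‖ < ε
    rw [e1]
    exact h3
  choose B hB using h1
  obtain ⟨b₀, hb₀⟩ := hb (fun n => B (Nat.unpair n).1
    (Pi.single (Fin.ofNat 3 (Nat.unpair n).2) 1))
  refine ⟨b₀, valL T (h b₀) b₀, fun β hβ => ?_⟩
  apply lin_ext
  intro j
  rw [← sub_eq_zero]
  apply hQ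
  intro i
  rw [map_sub, sub_eq_zero]
  have h4 := hb₀ (Nat.pair i j)
  simp only [Nat.unpair_pair] at h4
  have h5 : Fin.ofNat 3 (j : ℕ) = j := by
    ext
    simp [Fin.ofNat]
  rw [h5] at h4
  exact hB i (Pi.single j 1) β b₀ (h4.le.trans hβ) h4.le

/-- Types are preserved. -/
theorem type_pres (hc : SegCtb Ω) (hS : ∀ i, Stat (S i))
    (hdisj : ∀ j k δ, δ ∈ S j → δ ∈ S k → j = k)
    (T : Sp S P →L[ℝ] Sp S Q) (h : Ω → Ω) (H0 : ∀ a, a < h a)
    (H1 : ∀ a β, β ≤ a → ∀ f : Sp S P, (∀ b, b ≤ h a → ev f b = 0) → ev (T f) β = 0)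
    (H2 : ∀ a γ, γ ≤ a → ∀ v β, h a ≤ β → ev (T (chi γ v)) β = 0)
    (b₀ : Ω) (Φ : V3 →ₗ[ℝ] V3) (hΦ : ∀ β, b₀ ≤ β → valL T (h β) β = Φ)
    (i : ℕ) (v : V3) (hv : P i v = 0) : Q i (Φ v) = 0 := by
  classical
  obtain ⟨δ, hδ, ⟨c, hcδ⟩, hcl⟩ := hS i (fun a => max (h a) (h b₀))
  have hb₀δ : b₀ < δ := (H0 b₀).trans ((le_max_right _ _).trans_lt (hcl c hcδ))
  have hclh : ∀ a, a < δ → h a < δ := fun a ha => (le_max_left _ _).trans_lt (hcl a ha)
  obtain ⟨e, he⟩ := (hc δ).exists_eq_range ⟨b₀, hb₀δ⟩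
  have heδ : ∀ n, e n < δ := by
    intro n
    have : e n ∈ Set.Iio δ := by rw [he]; exact ⟨n, rfl⟩
    exact this
  have hesurj : ∀ b, b < δ → ∃ n, e n = b := by
    intro b hb
    have : b ∈ Set.range e := by rw [← he]; exact hb
    exact this
  let p : ℕ → Ω := fun n => Nat.rec b₀ (fun n y => h (max (h y) (e n))) n
  have hp0 : p 0 = b₀ := rfl
  have hp : ∀ n, p (n + 1) = h (max (h (p n)) (e n)) := fun n => rfl
  have hpδ : ∀ n, p n < δ := by
    intro n
    induction n with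
    | zero => exact hb₀δ
    | succ n ih =>
      rw [hp]
      exact hclh _ (max_lt (hclh _ ih) (heδ n))
  have hpβ : ∀ n, p n < h (p n) := fun n => H0 _
  have hβp : ∀ n, h (p n) < p (n + 1) := by
    intro n
    rw [hp]
    exact (le_max_left _ _).trans_lt (H0 _)
  have hep : ∀ n, e n < p (n + 1) := by
    intro n
    rw [hp]
    exact (le_max_right _ _).trans_lt (H0 _)
  have hpmono : StrictMono p := strictMono_nat_of_lt_succ (fun n => (hpβ n).trans (hβp n))
  -- the index function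
  let N : Ω → ℕ := fun b => sInf {n | b ≤ p n}
  have hN0 : ∀ b, b ≤ p 0 → N b = 0 := fun b hb => Nat.sInf_eq_zero.mpr (Or.inl hb)
  have hNs : ∀ b n, p n < b → b ≤ p (n + 1) → N b = n + 1 := by
    intro b n h1 h2
    apply le_antisymm
    · exact Nat.sInf_le h2
    · by_contra hlt
      push Not at hlt
      have hmem : N b ∈ {n | b ≤ p n} := Nat.sInf_mem ⟨n + 1, h2⟩
      have h3 : b ≤ p (N b) := hmem
      have h4 : p (N b) ≤ p n := hpmono.monotone (Nat.lt_succ_iff.mp hlt)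
      exact absurd (h3.trans h4) (not_le.mpr h1)
  have hNmem : ∀ b, b < δ → b ≤ p (N b) := by
    intro b hb
    obtain ⟨n, hn⟩ := hesurj b hb
    have : b ≤ p (n + 1) := by rw [← hn]; exact (hep n).le
    exact Nat.sInf_mem (s := {n | b ≤ p n}) ⟨n + 1, this⟩
  have hNle : ∀ b n, b ≤ p n → N b ≤ n := fun b n hb => Nat.sInf_le hb
  let F : Ω → V3 := fun b => if b < δ ∧ Even (N b) then v else 0
  have hF0 : ∀ b, δ ≤ b → F b = 0 := by
    intro b hb
    simp only [F]
    rw [if_neg]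
    intro h
    exact absurd h.1 (not_lt.mpr hb)
  have hFP : ∀ b, P i (F b) = 0 := by
    intro b
    simp only [F]
    split_ifs
    · exact hv
    · exact map_zero _
  have hFN : ∀ b b', b < δ → b' < δ → N b = N b' → F b = F b' := by
    intro b b' h1 h2 h3
    simp only [F, h1, h2, h3]
  let f : Sp S P := mkE F ‖v‖
    (fun b => by
      simp only [F]
      split_ifs
      · exact le_rfl
      · simp)
    ⟨δ, fun b hb => hF0 b hb.le⟩
    (fun j δ' hδ' ε hε c hc => by
      rcases lt_trichotomy δ' δ with hlt | heq | hgt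
      · rcases Nat.eq_zero_or_pos (N δ') with h0 | hpos
        · refine ⟨c, hc, fun b _ hbd => ?_⟩
          have h1 : δ' ≤ p 0 := by have := hNmem δ' hlt; rwa [h0] at this
          have h2 : F b = F δ' := by
            apply hFN b δ' (hbd.trans hlt) hlt
            rw [h0]
            exact hN0 b (hbd.le.trans h1)
          show ‖P j (F b) - P j (F δ')‖ < ε
          rw [h2, sub_self, norm_zero]
          exact hε
        · obtain ⟨k, hk⟩ := Nat.exists_eq_succ_of_ne_zero hpos.ne'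
          have h1 : δ' ≤ p (k + 1) := by have := hNmem δ' hlt; rwa [hk] at this
          have h2 : p k < δ' := by
            by_contra hcon
            push Not at hcon
            have := hNle δ' k hcon
            omega
          refine ⟨p k, h2, fun b hb hbd => ?_⟩
          have h3 : F b = F δ' := by
            apply hFN b δ' (hbd.trans hlt) hlt
            rw [hNs b k hb (hbd.le.trans h1), hNs δ' k h2 h1]
          show ‖P j (F b) - P j (F δ')‖ < ε
          rw [h3, sub_self, norm_zero]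
          exact hε
      · subst heq
        have hji : j = i := hdisj j i δ' hδ' hδ
        subst hji
        refine ⟨c, hc, fun b _ _ => ?_⟩
        show ‖P j (F b) - P j (F δ')‖ < ε
        rw [hFP, hFP, sub_self, norm_zero]
        exact hε
      · refine ⟨δ, hgt, fun b hb _ => ?_⟩
        show ‖P j (F b) - P j (F δ')‖ < ε
        rw [hF0 b hb.le, hF0 δ' hgt.le, sub_self, norm_zero]
        exact hε)
  have hevf : ∀ b, ev f b = F b := fun b => rfl
  let ε : ℕ → ℝ := fun n => if Even n then 1 else 0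
  have hFε : ∀ b, b < δ → F b = ε (N b) • v := by
    intro b hb
    simp only [F, ε, hb, true_and]
    split_ifs <;> simp
  let G : ℕ → Sp S P := fun n =>
    Nat.rec (chi (p 0) v) (fun n y => y + ε (n + 1) • (chi (p (n + 1)) v - chi (p n) v)) n
  have hG0 : G 0 = chi (p 0) v := rfl
  have hG : ∀ n, G (n + 1) = G n + ε (n + 1) • (chi (p (n + 1)) v - chi (p n) v) := fun n => rfl
  have hGb : ∀ n b, p n < b → ev (G n) b = 0 := by
    intro n
    induction n with
    | zero => intro b hb; rw [hG0, ev_chi, if_neg (not_le.mpr hb)]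
    | succ n ih =>
      intro b hb
      have h1 : p n < b := (hpmono (Nat.lt_succ_self n)).trans hb
      rw [hG, ev_add, ev_smul, ev_sub, ih b h1, ev_chi, ev_chi, if_neg (not_le.mpr hb),
        if_neg (not_le.mpr h1)]
      simp
  have hGa : ∀ n b, b ≤ p n → ev (G n) b = F b := by
    intro n
    induction n with
    | zero =>
      intro b hb
      rw [hG0, ev_chi, if_pos hb, hFε b (hb.trans_lt (hpδ 0)), hN0 b hb]
      simp [ε]
    | succ n ih =>
      intro b hb
      rw [hG, ev_add, ev_smul, ev_sub, ev_chi, ev_chi, if_pos hb]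
      rcases le_or_gt b (p n) with h1 | h1
      · rw [if_pos h1, sub_self, smul_zero, add_zero, ih b h1]
      · rw [if_neg (not_le.mpr h1), hGb n b h1, sub_zero, zero_add,
          hFε b (hb.trans_lt (hpδ (n + 1))), hNs b n h1 hb]
  have hTchi : ∀ n β, h (p n) ≤ β → ev (T (chi (p n) v)) β = 0 :=
    fun n β hβ => H2 (p n) (p n) le_rfl v β hβ
  have hTG : ∀ n β, h (p n) ≤ β → ev (T (G n)) β = 0 := by
    intro n
    induction n with
    | zero => intro β hβ; rw [hG0]; exact hTchi 0 β hβ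
    | succ n ih =>
      intro β hβ
      have h1 : h (p n) ≤ β := ((hβp n).trans (hpβ (n + 1))).le.trans hβ
      rw [hG, map_add, map_smul, map_sub, ev_add, ev_smul, ev_sub, ih β h1, hTchi n β h1,
        hTchi (n + 1) β hβ]
      simp
  have hTf : ∀ n, ev (T f) (h (p n)) = ε (n + 1) • Φ v := by
    intro n
    have h1 : ev (T (f - G (n + 1))) (h (p n)) = 0 := by
      apply H1 (max (h (p n)) (e n)) (h (p n)) (le_max_left _ _)
      intro b hb
      rw [← hp] at hb
      rw [ev_sub, hGa (n + 1) b hb, hevf, sub_self]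
    rw [map_sub, ev_sub, sub_eq_zero] at h1
    rw [h1, hG, map_add, map_smul, map_sub, ev_add, ev_smul, ev_sub, hTG n _ le_rfl,
      hTchi n _ le_rfl, zero_add, sub_zero]
    have h2 : valL T (p (n + 1)) (h (p n)) = Φ := by
      rw [val_eq T h H1 (max (h (p n)) (e n)) (h (p n)) (p (n + 1)) (le_max_left _ _)
        (hp n).symm.le.ge]
      · apply hΦ
        have : p 0 ≤ p n := hpmono.monotone (Nat.zero_le n)
        exact (hp0 ▸ this).trans (hpβ n).le
    rw [← h2]
    rfl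
  -- conclusion
  by_contra hne
  have hpos : 0 < ‖Q i (Φ v)‖ := norm_pos_iff.mpr hne
  obtain ⟨a, ha, hlc⟩ := ev_LC (T f) i δ hδ (‖Q i (Φ v)‖ / 2) (half_pos hpos) c hcδ
  obtain ⟨m, hm⟩ := hesurj a ha
  have hpm : a < p (m + 1) := hm ▸ hep m
  have k1 := hlc (h (p (m + 1))) (hpm.trans (hpβ (m + 1))) (hclh _ (hpδ (m + 1)))
  have k2 := hlc (h (p (m + 2)))
    (hpm.trans ((hpmono (Nat.lt_succ_self (m + 1))).trans (hpβ (m + 2)))) (hclh _ (hpδ (m + 2)))
  simp only [hTf] at k1 k2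
  set L := Q i (ev (T f) δ) with hL
  have k3 : ‖Q i (Φ v)‖ < ‖Q i (Φ v)‖ / 2 + ‖Q i (Φ v)‖ / 2 := by
    rcases Nat.even_or_odd (m + 1 + 1) with hev | hodd
    · have h1 : ε (m + 1 + 1) = 1 := by simp [ε, hev]
      have h2 : ε (m + 2 + 1) = 0 := by
        have : ¬ Even (m + 2 + 1) := by
          rw [Nat.not_even_iff_odd]
          exact hev.add_one
        simp [ε, this]
      rw [h1, one_smul] at k1
      rw [h2, zero_smul, map_zero] at k2
      have h3 : Q i (Φ v) = (Q i (Φ v) - L) - (0 - L) := by abel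
      calc ‖Q i (Φ v)‖ = ‖(Q i (Φ v) - L) - (0 - L)‖ := by rw [← h3]
        _ ≤ ‖Q i (Φ v) - L‖ + ‖0 - L‖ := norm_sub_le _ _
        _ < _ := add_lt_add k1 k2
    · have h1 : ε (m + 1 + 1) = 0 := by
        have : ¬ Even (m + 1 + 1) := Nat.not_even_iff_odd.mpr hodd
        simp [ε, this]
      have h2 : ε (m + 2 + 1) = 1 := by
        have : Even (m + 2 + 1) := hodd.add_one
        simp [ε, this]
      rw [h1, zero_smul, map_zero] at k1
      rw [h2, one_smul] at k2
      have h3 : Q i (Φ v) = (Q i (Φ v) - L) - (0 - L) := by abel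
      calc ‖Q i (Φ v)‖ = ‖(Q i (Φ v) - L) - (0 - L)‖ := by rw [← h3]
        _ ≤ ‖Q i (Φ v) - L‖ + ‖0 - L‖ := norm_sub_le _ _
        _ < _ := by rw [add_comm]; exact add_lt_add k1 k2
  linarith

/-- The eventual value of an isomorphic embedding is injective. -/
theorem phi_inj (T : Sp S P →L[ℝ] Sp S Q) (h : Ω → Ω) (H0 : ∀ a, a < h a)
    (H1 : ∀ a β, β ≤ a → ∀ f : Sp S P, (∀ b, b ≤ h a → ev f b = 0) → ev (T f) β = 0)
    (H2 : ∀ a γ, γ ≤ a → ∀ v β, h a ≤ β → ev (T (chi γ v)) β = 0)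
    (b₀ : Ω) (Φ : V3 →ₗ[ℝ] V3) (hΦ : ∀ β, b₀ ≤ β → valL T (h β) β = Φ)
    (C : ℝ) (hC : ∀ f, ‖f‖ ≤ C * ‖T f‖) (v : V3) (hv : Φ v = 0) : v = 0 := by
  by_contra hne
  have hvpos : 0 < ‖v‖ := norm_pos_iff.mpr hne
  let q : ℕ → Ω := fun n => Nat.rec (h b₀) (fun _ y => h (h y)) n
  have hq0 : q 0 = h b₀ := rfl
  have hq : ∀ n, q (n + 1) = h (h (q n)) := fun n => rfl
  have hqmono : StrictMono q := strictMono_nat_of_lt_succ (fun n => by
    rw [hq]; exact (H0 _).trans (H0 _))
  let u : ℕ → Ω → V3 := fun k β => ev (T (chi (q k) v)) β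
  -- below b₀
  have hu1 : ∀ k β, β ≤ b₀ → u k β = valL T (h β) β v := by
    intro k β hβ
    have : valL T (q k) β = valL T (h β) β :=
      val_eq T h H1 b₀ β (q k) hβ (hqmono.monotone (Nat.zero_le k))
    rw [← this]
    rfl
  -- windows
  have hu2 : ∀ j k β, j < k → b₀ ≤ β → u j β ≠ 0 → u k β = 0 := by
    intro j k β hjk hβ hne'
    have h1 : β < h (q j) := by
      by_contra hcon
      push Not at hcon
      exact hne' (H2 (q j) (q j) le_rfl v β hcon)
    have h2 : valL T (q k) β = valL T (h β) β := by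
      apply val_eq T h H1 (h (q j)) β (q k) h1.le
      rw [← hq]
      exact hqmono.monotone hjk
    have h3 : u k β = valL T (q k) β v := rfl
    rw [h3, h2, hΦ β hβ, hv]
  obtain ⟨N, hN⟩ := exists_nat_gt (|C| * ‖T‖)
  let c : ℕ → ℝ := fun k => if k < N then 1 else -1
  have hc1 : ∀ k, |c k| = 1 := by
    intro k
    simp only [c]
    split_ifs <;> simp
  have hcsum : ∑ k ∈ Finset.range (N + N), c k = 0 := by
    rw [Finset.sum_range_add]
    have h1 : ∑ k ∈ Finset.range N, c k = N := by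
      rw [Finset.sum_congr rfl (g := fun _ => (1 : ℝ))]
      · simp
      · intro k hk
        simp [c, Finset.mem_range.mp hk]
    have h2 : ∑ k ∈ Finset.range N, c (N + k) = -N := by
      rw [Finset.sum_congr rfl (g := fun _ => (-1 : ℝ))]
      · simp
      · intro k hk
        simp [c]
    rw [h1, h2]
    ring
  let f : Sp S P := ∑ k ∈ Finset.range (N + N), c k • chi (q k) v
  have hevf : ∀ b, ev f b = ∑ k ∈ Finset.range (N + N), c k • ev (chi (q k) v : Sp S P) b := by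
    intro b
    have : ev f b = evL b f := rfl
    rw [this, map_sum]
    rfl
  have hevTf : ∀ β, ev (T f) β = ∑ k ∈ Finset.range (N + N), c k • u k β := by
    intro b
    have : ev (T f) b = evL b (T f) := rfl
    rw [this, map_sum, map_sum]
    apply Finset.sum_congr rfl
    intro k _
    rw [map_smul, map_smul]
    rfl
  have hTf : ‖T f‖ ≤ ‖T‖ * ‖v‖ := by
    apply norm_le_of _ (mul_nonneg T.opNorm_nonneg hvpos.le)
    intro β
    rw [hevTf]
    rcases le_or_gt β b₀ with hβ | hβ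
    · rw [Finset.sum_congr rfl (g := fun k => c k • valL T (h β) β v)
        (fun k _ => by rw [hu1 k β hβ]), ← Finset.sum_smul, hcsum, zero_smul, norm_zero]
      exact mul_nonneg T.opNorm_nonneg hvpos.le
    · by_cases hex : ∃ j ∈ Finset.range (N + N), u j β ≠ 0
      · obtain ⟨j, hj, hju⟩ := hex
        rw [Finset.sum_eq_single_of_mem j hj]
        · rw [norm_smul, Real.norm_eq_abs, hc1, one_mul]
          refine (ev_le _ _).trans ((T.le_opNorm _).trans ?_)
          exact mul_le_mul_of_nonneg_left (norm_chi_le _ _) T.opNorm_nonneg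
        · intro k _ hkj
          have : u k β = 0 := by
            by_contra hku
            rcases lt_or_gt_of_ne hkj with hlt | hgt
            · exact hju (hu2 k j β hlt hβ.le hku)
            · exact hku (hu2 j k β hgt hβ.le hju)
          rw [this, smul_zero]
      · push Not at hex
        rw [Finset.sum_eq_zero (fun k hk => by rw [hex k hk, smul_zero]), norm_zero]
        exact mul_nonneg T.opNorm_nonneg hvpos.le
  have hf : (N : ℝ) * ‖v‖ ≤ ‖f‖ := by
    have h1 : ev f (q N) = -((N : ℝ) • v) := by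
      rw [hevf, Finset.sum_range_add]
      have h2 : ∑ k ∈ Finset.range N, c k • ev (chi (q k) v : Sp S P) (q N) = 0 := by
        apply Finset.sum_eq_zero
        intro k hk
        rw [ev_chi, if_neg (not_le.mpr (hqmono (Finset.mem_range.mp hk))), smul_zero]
      have h3 : ∑ k ∈ Finset.range N, c (N + k) • ev (chi (q (N + k)) v : Sp S P) (q N)
          = -((N : ℝ) • v) := by
        rw [Finset.sum_congr rfl (g := fun _ => (-1 : ℝ) • v)]
        · rw [Finset.sum_const, Finset.card_range, ← Nat.cast_smul_eq_nsmul ℝ]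
          simp
        · intro k hk
          rw [ev_chi, if_pos (hqmono.monotone (Nat.le_add_right N k))]
          simp [c]
      rw [h2, h3, zero_add]
    have h4 := ev_le f (q N)
    rw [h1, norm_neg, norm_smul] at h4
    simpa using h4
  have h5 := hC f
  have h6 : C * ‖T f‖ ≤ |C| * (‖T‖ * ‖v‖) :=
    mul_le_mul (le_abs_self C) hTf (norm_nonneg _) (abs_nonneg C)
  have h7 : (N : ℝ) * ‖v‖ ≤ |C| * ‖T‖ * ‖v‖ := by linarith
  have h8 := le_of_mul_le_mul_right h7 hvpos
  linarith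

/-- Rigidity: an isomorphic embedding induces an injective linear map respecting types. -/
theorem rigidity (hb : SeqBdd Ω) (hc : SegCtb Ω) (hS : ∀ i, Stat (S i))
    (hdisj : ∀ j k δ, δ ∈ S j → δ ∈ S k → j = k)
    (hQ : ∀ w, (∀ i, Q i w = 0) → w = 0) (T : Sp S P →L[ℝ] Sp S Q) (C : ℝ)
    (hC : ∀ f, ‖f‖ ≤ C * ‖T f‖) :
    ∃ Φ : V3 →ₗ[ℝ] V3, (∀ v, Φ v = 0 → v = 0) ∧ ∀ i v, P i v = 0 → Q i (Φ v) = 0 := by
  obtain ⟨h, H0, H1, H2⟩ := exists_h hb hc T
  obtain ⟨b₀, Φ, hΦ⟩ := exists_phi hb hS hQ T h H1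
  exact ⟨Φ, phi_inj T h H0 H1 H2 b₀ Φ hΦ C hC,
    fun i v hv => type_pres hc hS hdisj T h H0 H1 H2 b₀ Φ hΦ i v hv⟩

end Rigid

/-! ### The two concrete spaces -/

section Concrete

/-- Cross product with `a`. -/
noncomputable def crossL (a : V3) : V3 →L[ℝ] V3 :=
  LinearMap.toContinuousLinearMap
    { toFun := fun u =>
        ![a 1 * u 2 - a 2 * u 1, a 2 * u 0 - a 0 * u 2, a 0 * u 1 - a 1 * u 0]
      map_add' := by
        intro u v
        ext j
        fin_cases j <;> simp <;> ring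
      map_smul' := by
        intro r u
        ext j
        fin_cases j <;> simp <;> ring }

/-- Inner product with `a`, as a constant vector. -/
noncomputable def dotL (a : V3) : V3 →L[ℝ] V3 :=
  LinearMap.toContinuousLinearMap
    { toFun := fun u => fun _ => a 0 * u 0 + a 1 * u 1 + a 2 * u 2
      map_add' := by
        intro u v
        ext j
        simp
        ring
      map_smul' := by
        intro r u
        ext j
        simp
        ring }

theorem crossL_apply (a u : V3) : crossL a u =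
    ![a 1 * u 2 - a 2 * u 1, a 2 * u 0 - a 0 * u 2, a 0 * u 1 - a 1 * u 0] := rfl

theorem dotL_apply (a u : V3) : dotL a u = fun _ => a 0 * u 0 + a 1 * u 1 + a 2 * u 2 := rfl

/-- Six vectors whose squares span the symmetric tensors. -/
def xs : ℕ → V3
  | 0 => ![1, 0, 0]
  | 1 => ![0, 1, 0]
  | 2 => ![0, 0, 1]
  | 3 => ![1, 1, 0]
  | 4 => ![1, 0, 1]
  | 5 => ![0, 1, 1]
  | _ => 0

noncomputable def PE (i : ℕ) : V3 →L[ℝ] V3 := crossL (xs i)
noncomputable def PF (i : ℕ) : V3 →L[ℝ] V3 := dotL (xs i)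

theorem PE_sep (w : V3) (h : ∀ i, PE i w = 0) : w = 0 := by
  have h0 := h 0
  have h1 := h 1
  simp only [PE, crossL_apply, xs] at h0 h1
  have a1 := congrFun h0 1
  have a2 := congrFun h0 2
  have a3 := congrFun h1 0
  have a4 := congrFun h1 2
  simp at a1 a2 a3 a4
  ext j
  fin_cases j <;> simp [*]

theorem PF_sep (w : V3) (h : ∀ i, PF i w = 0) : w = 0 := by
  have h0 := h 0
  have h1 := h 1
  have h2 := h 2
  simp only [PF, dotL_apply, xs] at h0 h1 h2
  have a1 := congrFun h0 0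
  have a2 := congrFun h1 0
  have a3 := congrFun h2 0
  simp at a1 a2 a3
  ext j
  fin_cases j <;> simp [*]

theorem no_EF (Φ : V3 →ₗ[ℝ] V3) (hinj : ∀ v, Φ v = 0 → v = 0)
    (h : ∀ i v, PE i v = 0 → PF i (Φ v) = 0) : False := by
  have hx : ∀ i, PF i (Φ (xs i)) = 0 := by
    intro i
    apply h
    rw [PE, crossL_apply]
    ext j
    fin_cases j <;> simp <;> ring
  set a := Φ (xs 0) with ha
  set b := Φ (xs 1) with hb
  set c := Φ (xs 2) with hc
  have e3 : Φ (xs 3) = a + b := by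
    rw [ha, hb, ← map_add]
    congr 1
    ext j
    fin_cases j <;> simp [xs]
  have e4 : Φ (xs 4) = a + c := by
    rw [ha, hc, ← map_add]
    congr 1
    ext j
    fin_cases j <;> simp [xs]
  have e5 : Φ (xs 5) = b + c := by
    rw [hb, hc, ← map_add]
    congr 1
    ext j
    fin_cases j <;> simp [xs]
  have h0 := congrFun (hx 0) 0
  have h1 := congrFun (hx 1) 0
  have h2 := congrFun (hx 2) 0
  have h3 := congrFun (hx 3) 0
  have h4 := congrFun (hx 4) 0
  have h5 := congrFun (hx 5) 0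
  rw [e3] at h3
  rw [e4] at h4
  rw [e5] at h5
  rw [← ha] at h0
  rw [← hb] at h1
  rw [← hc] at h2
  simp only [PF, dotL_apply, xs] at h0 h1 h2 h3 h4 h5
  simp at h0 h1 h2 h3 h4 h5
  -- kernel vector
  have hker : Φ ((c 1) • xs 0 - (c 0) • xs 1 + (b 0) • xs 2) = 0 := by
    rw [map_add, map_sub, map_smul, map_smul, map_smul, ← ha, ← hb, ← hc]
    ext j
    fin_cases j
    · simp [h0]
      ring
    · simp [h1]
      have : a 1 = - b 0 := by linarith
      rw [this]
      ring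
    · simp [h2]
      have h6 : a 2 = - c 0 := by linarith
      have h7 : b 2 = - c 1 := by linarith
      rw [h6, h7]
      ring
  have hz := hinj _ hker
  have z0 := congrFun hz 0
  have z1 := congrFun hz 1
  have z2 := congrFun hz 2
  simp [xs] at z0 z1 z2
  have ha0 : a = 0 := by
    ext j
    fin_cases j
    · simpa using h0
    · simp
      linarith
    · simp
      linarith
  have := hinj (xs 0) ha0
  have := congrFun this 0
  simp [xs] at this

theorem no_FE (Φ : V3 →ₗ[ℝ] V3) (hinj : ∀ v, Φ v = 0 → v = 0)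
    (h : ∀ i v, PF i v = 0 → PE i (Φ v) = 0) : False := by
  have h1 : PE 0 (Φ (xs 1)) = 0 := by
    apply h
    rw [PF, dotL_apply]
    ext j
    simp [xs]
  have h2 : PE 0 (Φ (xs 2)) = 0 := by
    apply h
    rw [PF, dotL_apply]
    ext j
    simp [xs]
  set b := Φ (xs 1) with hb
  set c := Φ (xs 2) with hc
  simp only [PE, crossL_apply, xs] at h1 h2
  have a1 := congrFun h1 1
  have a2 := congrFun h1 2
  have a3 := congrFun h2 1
  have a4 := congrFun h2 2
  simp at a1 a2 a3 a4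
  have hker : Φ ((c 0) • xs 1 - (b 0) • xs 2) = 0 := by
    rw [map_sub, map_smul, map_smul, ← hb, ← hc]
    ext j
    fin_cases j
    · simp
      ring
    · simp [a2, a4]
    · simp [a1, a3]
  have hz := hinj _ hker
  have z1 := congrFun hz 1
  have z2 := congrFun hz 2
  simp [xs] at z1 z2
  have hb0 : b = 0 := by
    ext j
    fin_cases j
    · simpa using z2
    · simpa using a2
    · simpa using a1
  have := hinj (xs 1) hb0
  have := congrFun this 1
  simp [xs] at this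

variable {Ω : Type} [LinearOrder Ω] [Nonempty Ω] {S : ℕ → Set Ω}

/-- Pointwise application of a cross product. -/
noncomputable def crossMap (a : V3) : Sp S PE →L[ℝ] Sp S PF :=
  LinearMap.mkContinuous
    { toFun := fun f => mkE (fun b => crossL a (ev f b)) (‖crossL a‖ * ‖f‖)
        (fun b => ((crossL a).le_opNorm _).trans
          (mul_le_mul_of_nonneg_left (ev_le f b) (norm_nonneg _)))
        (by
          obtain ⟨c, hc⟩ := ev_evzero f
          exact ⟨c, fun b hb => by rw [hc b hb, map_zero]⟩)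
        (fun i δ hδ => by
          have h1 := (ev_LC f i δ hδ).clm (-(dotL a))
          have h2 : (fun b => PF i (crossL a (ev f b))) =
              fun b => (-(dotL a)) (PE i (ev f b)) := by
            funext b
            ext j
            simp only [PF, PE, ContinuousLinearMap.neg_apply, dotL_apply, crossL_apply]
            simp
            ring
          rw [h2]
          exact h1)
      map_add' := by
        intro f g
        apply ev_ext
        intro b
        rw [ev_add, ev_mkE, ev_mkE, ev_mkE, ev_add, map_add]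
      map_smul' := by
        intro r f
        apply ev_ext
        intro b
        rw [RingHom.id_apply, ev_smul, ev_mkE, ev_mkE, ev_smul, map_smul] }
    ‖crossL a‖ (fun f => norm_le_of _ (mul_nonneg (norm_nonneg _) (norm_nonneg _))
      (fun b => ((crossL a).le_opNorm _).trans
          (mul_le_mul_of_nonneg_left (ev_le f b) (norm_nonneg _))))

theorem ev_crossMap (a : V3) (f : Sp S PE) (b : Ω) :
    ev (crossMap a f : Sp S PF) b = crossL a (ev f b) := rfl

/-- The embedding of the square of the first space into the square of the second. -/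
noncomputable def Psi : (Sp S PE × Sp S PE) →L[ℝ] (Sp S PF × Sp S PF) :=
  ((crossMap ![0, 1, -1]).comp (ContinuousLinearMap.fst ℝ (Sp S PE) (Sp S PE)) +
    (crossMap ![-1, 0, 0]).comp (ContinuousLinearMap.snd ℝ (Sp S PE) (Sp S PE))).prod
  ((crossMap ![-1, 0, 0]).comp (ContinuousLinearMap.fst ℝ (Sp S PE) (Sp S PE)) +
    (crossMap ![0, -1, -1]).comp (ContinuousLinearMap.snd ℝ (Sp S PE) (Sp S PE)))

theorem Psi_bound (x : Sp S PE × Sp S PE) : ‖x‖ ≤ 3 * ‖Psi x‖ := by
  obtain ⟨f, g⟩ := x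
  set M := ‖Psi (f, g)‖ with hM
  have hM0 : 0 ≤ M := norm_nonneg _
  have hy : ∀ b j, |ev (Psi (f, g)).1 b j| ≤ M := by
    intro b j
    have h1 := norm_le_pi_norm (ev (Psi (f, g)).1 b) j
    have h2 := ev_le (Psi (f, g)).1 b
    have h3 := norm_fst_le (Psi (f, g))
    rw [Real.norm_eq_abs] at h1
    linarith
  have hz : ∀ b j, |ev (Psi (f, g)).2 b j| ≤ M := by
    intro b j
    have h1 := norm_le_pi_norm (ev (Psi (f, g)).2 b) j
    have h2 := ev_le (Psi (f, g)).2 b
    have h3 := norm_snd_le (Psi (f, g))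
    rw [Real.norm_eq_abs] at h1
    linarith
  have e1 : ∀ b, ev (Psi (f, g)).1 b =
      crossL ![0, 1, -1] (ev f b) + crossL ![-1, 0, 0] (ev g b) := fun b => rfl
  have e2 : ∀ b, ev (Psi (f, g)).2 b =
      crossL ![-1, 0, 0] (ev f b) + crossL ![0, -1, -1] (ev g b) := fun b => rfl
  have key : ∀ b, (∀ j, |ev f b j| ≤ 3 * M) ∧ (∀ j, |ev g b j| ≤ 3 * M) := by
    intro b
    have y0 := hy b 0
    have y1 := hy b 1
    have y2 := hy b 2
    have z0 := hz b 0
    have z1 := hz b 1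
    have z2 := hz b 2
    rw [e1] at y0 y1 y2
    rw [e2] at z0 z1 z2
    simp only [crossL_apply] at y0 y1 y2 z0 z1 z2
    simp at y0 y1 y2 z0 z1 z2
    rw [abs_le] at y0 y1 y2 z0 z1 z2
    obtain ⟨y0l, y0r⟩ := y0
    obtain ⟨y1l, y1r⟩ := y1
    obtain ⟨y2l, y2r⟩ := y2
    obtain ⟨z0l, z0r⟩ := z0
    obtain ⟨z1l, z1r⟩ := z1
    obtain ⟨z2l, z2r⟩ := z2
    constructor
    · intro j
      rw [abs_le]
      fin_cases j
      · constructor <;> simp <;> linarith
      · constructor <;> simp <;> linarith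
      · constructor <;> simp <;> linarith
    · intro j
      rw [abs_le]
      fin_cases j
      · constructor <;> simp <;> linarith
      · constructor <;> simp <;> linarith
      · constructor <;> simp <;> linarith
  have h3M : 0 ≤ 3 * M := by linarith
  rw [Prod.norm_def]
  apply max_le
  · apply norm_le_of _ h3M
    intro b
    rw [pi_norm_le_iff_of_nonneg h3M]
    intro j
    rw [Real.norm_eq_abs]
    exact (key b).1 j
  · apply norm_le_of _ h3M
    intro b
    rw [pi_norm_le_iff_of_nonneg h3M]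
    intro j
    rw [Real.norm_eq_abs]
    exact (key b).2 j

end Concrete

/-- The negation of the preceding statement: For real Banach spaces E, F: if neither is isomorphic to a closed subspace of the other, then neither E×E nor F×F is isomorphic to a closed subspace of the other. -/
theorem result :
    ¬ (∀ (E F : Type) [NormedAddCommGroup E] [NormedSpace ℝ E] [CompleteSpace E]
      [NormedAddCommGroup F] [NormedSpace ℝ F] [CompleteSpace F],
      ((¬ ∃ (T : E →L[ℝ] F) (C : ℝ), ∀ x : E, ‖x‖ ≤ C * ‖T x‖) ∧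
       (¬ ∃ (T : F →L[ℝ] E) (C : ℝ), ∀ y : F, ‖y‖ ≤ C * ‖T y‖)) →
      ((¬ ∃ (T : (E × E) →L[ℝ] (F × F)) (C : ℝ), ∀ x : E × E, ‖x‖ ≤ C * ‖T x‖) ∧
       (¬ ∃ (T : (F × F) →L[ℝ] (E × E)) (C : ℝ), ∀ y : F × F, ‖y‖ ≤ C * ‖T y‖))) := by
  intro hmain
  obtain ⟨Ω, inst, hwf, hc, hu⟩ := exists_omega1
  have hb : SeqBdd Ω := seqBdd_of hc hu
  have hne : Nonempty Ω := by
    by_contra h
    rw [not_nonempty_iff] at h
    exact hu (Set.countable_univ)
  obtain ⟨S, hS, hdisj⟩ := exists_stat hb hc hu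
  haveI : CompleteSpace (Sp S PE) := (Sp_isClosed hb S PE).completeSpace_coe
  haveI : CompleteSpace (Sp S PF) := (Sp_isClosed hb S PF).completeSpace_coe
  have h := hmain (Sp S PE) (Sp S PF) ⟨?_, ?_⟩
  · exact h.1 ⟨Psi, 3, Psi_bound⟩
  · rintro ⟨T, C, hC⟩
    obtain ⟨Φ, h1, h2⟩ := rigidity hb hc hS hdisj PF_sep T C hC
    exact no_EF Φ h1 h2
  · rintro ⟨T, C, hC⟩
    obtain ⟨Φ, h1, h2⟩ := rigidity hb hc hS hdisj PE_sep T C hC
    exact no_FE Φ h1 h2

end Pool.Agent.S03820
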