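-- Proof of S03821.
import Pool.Statements.S03821
import Pool.Agent.Helper159.Atomic

set_option autoImplicit false
open Pool Pool.MP_acb846_an

namespace Pool.Agent.S03821

open Pool.Agent.Helper159 in
/-- There is a bounded operator on ℓ²(ℚ) whose closed invariant subspaces are exactly 0, the whole space, and, for real t, the functions supported on rationals ≤ t or on rationals < t. -/
theorem result :
    ∃ T : lp (fun _ : ℚ => ℂ) 2 →L[ℂ] lp (fun _ : ℚ => ℂ) 2,
      ∀ M : Submodule ℂ (lp (fun _ : ℚ => ℂ) 2),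
        (IsClosed (M : Set (lp (fun _ : ℚ => ℂ) 2)) ∧ ∀ x ∈ M, T x ∈ M) ↔
          (M = ⊥ ∨ M = ⊤ ∨
            ∃ t : ℝ,
              (∀ f : lp (fun _ : ℚ => ℂ) 2, f ∈ M ↔ ∀ q : ℚ, t < (q : ℝ) → f q = 0) ∨
              (∀ f : lp (fun _ : ℚ => ℂ) 2, f ∈ M ↔ ∀ q : ℚ, t ≤ (q : ℝ) → f q = 0)) := by
  obtain ⟨T, hT⟩ := lat_lowerSet (Ω := ℚ)
  refine ⟨T, fun M => (hT M).trans ⟨?_, ?_⟩⟩
  · rintro ⟨D, hD⟩
    by_cases h1 : ∀ q : ℚ, q ∉ D
    · left
      rw [eq_bot_iff]
      intro f hf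
      rw [Submodule.mem_bot]
      ext q
      exact (hD f).1 hf q (h1 q)
    by_cases h2 : ∀ q : ℚ, q ∈ D
    · right; left
      rw [eq_top_iff]
      intro f _
      exact (hD f).2 fun q hq => absurd (h2 q) hq
    push Not at h1 h2
    obtain ⟨a, ha⟩ := h1
    obtain ⟨b, hb⟩ := h2
    right; right
    let E : Set ℝ := (fun q : ℚ => (q : ℝ)) '' (D : Set ℚ)
    have hEne : E.Nonempty := ⟨_, a, ha, rfl⟩
    have hbd : ∀ q ∈ D, q < b := by
      intro q hq
      by_contra hcon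
      exact hb (D.lower (not_lt.1 hcon) hq)
    have hEbd : BddAbove E := by
      refine ⟨(b : ℝ), ?_⟩
      rintro _ ⟨q, hq, rfl⟩
      have h4 : (q : ℝ) ≤ (b : ℝ) := by exact_mod_cast (hbd q hq).le
      exact h4
    let t := sSup E
    have hle : ∀ q ∈ D, (q : ℝ) ≤ t := fun q hq => le_csSup hEbd ⟨q, hq, rfl⟩
    have hlt : ∀ q : ℚ, (q : ℝ) < t → q ∈ D := by
      intro q hq
      obtain ⟨_, ⟨s, hs, rfl⟩, hqs⟩ := exists_lt_of_lt_csSup hEne hq
      have hqs' : (q : ℝ) < (s : ℝ) := hqs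
      have h4 : q ≤ s := by exact_mod_cast hqs'.le
      exact D.lower h4 hs
    refine ⟨t, ?_⟩
    by_cases h3 : ∃ q ∈ D, (q : ℝ) = t
    · left
      obtain ⟨s, hs, hst⟩ := h3
      intro f
      rw [hD]
      refine ⟨fun h q hq => h q fun hqD => absurd (hle q hqD) (not_le.2 hq), fun h q hq => ?_⟩
      refine h q ?_
      by_contra hcon
      rcases (not_lt.1 hcon).lt_or_eq with h4 | h4
      · exact hq (hlt q h4)
      · rw [← hst] at h4
        have : q = s := by exact_mod_cast h4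
        exact hq (this ▸ hs)
    · right
      push Not at h3
      intro f
      rw [hD]
      refine ⟨fun h q hq => h q fun hqD => h3 q hqD (le_antisymm (hle q hqD) hq),
        fun h q hq => ?_⟩
      refine h q ?_
      by_contra hcon
      exact hq (hlt q (not_le.1 hcon))
  · rintro (rfl | rfl | ⟨t, h | h⟩)
    · refine ⟨⊥, fun f => ?_⟩
      rw [Submodule.mem_bot]
      refine ⟨fun h q _ => by rw [h]; rfl, fun h => ?_⟩
      ext q
      exact h q (by simp)
    · refine ⟨⊤, fun f => ⟨fun _ q hq => absurd (LowerSet.mem_top) hq, fun _ => trivial⟩⟩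
    · refine ⟨⟨{q : ℚ | (q : ℝ) ≤ t}, fun a b hba ha => ?_⟩, fun f => ?_⟩
      · have : (b : ℝ) ≤ a := by exact_mod_cast hba
        exact this.trans ha
      · rw [h]
        refine ⟨fun h q hq => h q (not_le.1 hq), fun h q hq => h q (not_le.2 hq)⟩
    · refine ⟨⟨{q : ℚ | (q : ℝ) < t}, fun a b hba ha => ?_⟩, fun f => ?_⟩
      · have : (b : ℝ) ≤ a := by exact_mod_cast hba
        exact this.trans_lt ha
      · rw [h]
        refine ⟨fun h q hq => h q (not_lt.1 hq), fun h q hq => h q (not_lt.2 hq)⟩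

end Pool.Agent.S03821
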