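import Pool.Statements.S03824

set_option autoImplicit false
open scoped InnerProductSpace
open Pool Pool.MP_ace6cd_an

namespace Pool.Agent.S03824

section Abstract

variable {H : Type} [NormedAddCommGroup H] [InnerProductSpace ℂ H] [CompleteSpace H]

/-- The size of the `n`-th term of a biorthogonal system. -/
noncomputable def bd (f g : ℕ → H) (n : ℕ) : ℝ := 1 + ‖g n‖ * ‖f n‖

omit [InnerProductSpace ℂ H] [CompleteSpace H] in
lemma one_le_bd (f g : ℕ → H) (n : ℕ) : 1 ≤ bd f g n := by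
  unfold bd
  have := mul_nonneg (norm_nonneg (g n)) (norm_nonneg (f n))
  linarith

/-- Rapidly decreasing eigenvalues. -/
noncomputable def lam (f g : ℕ → H) : ℕ → ℝ
  | 0 => 1
  | (n + 1) => lam f g n / (4 * bd f g (n + 1))

lemma lam_pos (f g : ℕ → H) (n : ℕ) : 0 < lam f g n := by
  induction n with
  | zero => exact one_pos
  | succ n ih =>
    have := one_le_bd f g (n + 1)
    change 0 < lam f g n / (4 * bd f g (n + 1))
    positivity

lemma lam_succ_mul (f g : ℕ → H) (n : ℕ) :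
    lam f g (n + 1) * bd f g (n + 1) = lam f g n / 4 := by
  have h := one_le_bd f g (n + 1)
  change lam f g n / (4 * bd f g (n + 1)) * bd f g (n + 1) = lam f g n / 4
  field_simp

lemma lam_tail (f g : ℕ → H) (n j : ℕ) :
    lam f g (j + (n + 1)) * bd f g (j + (n + 1)) ≤ lam f g n / 4 * (1 / 4) ^ j := by
  induction j with
  | zero =>
    rw [Nat.zero_add, lam_succ_mul]
    simp
  | succ j ih =>
    have e : j + 1 + (n + 1) = (j + (n + 1)) + 1 := by ring
    rw [e, lam_succ_mul]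
    have h1 : lam f g (j + (n + 1)) ≤ lam f g (j + (n + 1)) * bd f g (j + (n + 1)) :=
      le_mul_of_one_le_right (lam_pos f g _).le (one_le_bd f g _)
    have h2 : lam f g (j + (n + 1)) ≤ lam f g n / 4 * (1 / 4) ^ j := h1.trans ih
    calc lam f g (j + (n + 1)) / 4 ≤ (lam f g n / 4 * (1 / 4) ^ j) / 4 := by linarith
      _ = lam f g n / 4 * (1 / 4) ^ (j + 1) := by ring

/-- The rank-one operator `x ↦ ⟪g n, x⟫ • f n`. -/
noncomputable def rk (f g : ℕ → H) (n : ℕ) : H →L[ℂ] H :=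
  (innerSL ℂ (g n)).smulRight (f n)

omit [CompleteSpace H] in
lemma rk_apply (f g : ℕ → H) (n : ℕ) (x : H) : rk f g n x = ⟪g n, x⟫_ℂ • f n := rfl

lemma norm_term (f g : ℕ → H) (n : ℕ) :
    ‖((lam f g n : ℝ) : ℂ) • rk f g n‖ ≤ lam f g n * bd f g n := by
  rw [norm_smul]
  have h1 : ‖((lam f g n : ℝ) : ℂ)‖ = lam f g n := by
    rw [Complex.norm_real, Real.norm_eq_abs, abs_of_pos (lam_pos f g n)]
  have h2 : ‖rk f g n‖ ≤ bd f g n := by
    unfold rk bd
    rw [ContinuousLinearMap.norm_smulRight_apply, innerSL_apply_norm]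
    linarith
  rw [h1]
  exact mul_le_mul_of_nonneg_left h2 (lam_pos f g n).le

lemma hasSum_geo (c : ℝ) : HasSum (fun j : ℕ => c / 4 * (1 / 4 : ℝ) ^ j) (c / 3) := by
  have h := (hasSum_geometric_of_lt_one (r := (1 / 4 : ℝ)) (by norm_num) (by norm_num)).mul_left
    (c / 4)
  have e : c / 4 * (1 - 1 / 4)⁻¹ = c / 3 := by norm_num; ring
  rwa [e] at h

lemma summable_term (f g : ℕ → H) :
    Summable (fun n => ((lam f g n : ℝ) : ℂ) • rk f g n) := by
  rw [← summable_nat_add_iff 1]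
  refine Summable.of_norm_bounded (hasSum_geo (lam f g 0)).summable ?_
  intro j
  exact (norm_term f g (j + 1)).trans (lam_tail f g 0 j)

/-- The operator `∑ lam n • ⟪g n, ·⟫ f n`. -/
noncomputable def opT (f g : ℕ → H) : H →L[ℂ] H :=
  ∑' n, ((lam f g n : ℝ) : ℂ) • rk f g n

lemma opT_hasSum (f g : ℕ → H) (x : H) :
    HasSum (fun n => (((lam f g n : ℝ) : ℂ) * ⟪g n, x⟫_ℂ) • f n) (opT f g x) := by
  have h := (summable_term f g).hasSum
  have h2 := (ContinuousLinearMap.apply ℂ H x).hasSum h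
  have e : (fun n => (((lam f g n : ℝ) : ℂ) * ⟪g n, x⟫_ℂ) • f n) =
      fun n => (ContinuousLinearMap.apply ℂ H x) (((lam f g n : ℝ) : ℂ) • rk f g n) := by
    ext n
    simp [rk_apply, mul_smul]
  rw [e]
  exact h2

/-- On vectors whose first coefficients vanish the operator is small. -/
lemma opT_small (f g : ℕ → H) (n : ℕ) (x : H) (hx : ∀ m ≤ n, ⟪g m, x⟫_ℂ = 0) :
    ‖opT f g x‖ ≤ lam f g n / 3 * ‖x‖ := by
  have h := (hasSum_nat_add_iff' (n + 1)).mpr (opT_hasSum f g x)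
  have hz : ∑ i ∈ Finset.range (n + 1), (((lam f g i : ℝ) : ℂ) * ⟪g i, x⟫_ℂ) • f i = 0 := by
    apply Finset.sum_eq_zero
    intro i hi
    rw [hx i (Nat.lt_succ_iff.mp (Finset.mem_range.mp hi))]
    simp
  rw [hz, sub_zero] at h
  refine h.norm_le_of_bounded ((hasSum_geo (lam f g n)).mul_right ‖x‖) ?_
  intro j
  rw [norm_smul, norm_mul, Complex.norm_real, Real.norm_eq_abs, abs_of_pos (lam_pos f g _)]
  have h1 : ‖⟪g (j + (n + 1)), x⟫_ℂ‖ ≤ ‖g (j + (n + 1))‖ * ‖x‖ := norm_inner_le_norm _ _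
  have h2 := lam_tail f g n j
  have h3 := lam_pos f g (j + (n + 1))
  calc lam f g (j + (n + 1)) * ‖⟪g (j + (n + 1)), x⟫_ℂ‖ * ‖f (j + (n + 1))‖
      ≤ lam f g (j + (n + 1)) * (‖g (j + (n + 1))‖ * ‖x‖) * ‖f (j + (n + 1))‖ := by gcongr
    _ = lam f g (j + (n + 1)) * (‖g (j + (n + 1))‖ * ‖f (j + (n + 1))‖) * ‖x‖ := by ring
    _ ≤ lam f g (j + (n + 1)) * bd f g (j + (n + 1)) * ‖x‖ := by
        gcongr
        unfold bd
        linarith
    _ ≤ lam f g n / 4 * (1 / 4) ^ j * ‖x‖ := by gcongr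

variable {f g : ℕ → H} (hb : ∀ m n, ⟪g m, f n⟫_ℂ = if m = n then 1 else 0)

include hb

lemma opT_f (n : ℕ) : opT f g (f n) = ((lam f g n : ℝ) : ℂ) • f n := by
  have h := opT_hasSum f g (f n)
  refine h.unique ?_
  have h2 := hasSum_single (f := fun m => (((lam f g m : ℝ) : ℂ) * ⟪g m, f n⟫_ℂ) • f m) n
    (by
      intro m hm
      simp [hb, hm])
  simpa [hb] using h2

lemma inner_opT (n : ℕ) (x : H) :
    ⟪g n, opT f g x⟫_ℂ = ((lam f g n : ℝ) : ℂ) * ⟪g n, x⟫_ℂ := by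
  have h := (innerSL ℂ (g n)).hasSum (opT_hasSum f g x)
  refine h.unique ?_
  have h2 := hasSum_single
    (f := fun m => (innerSL ℂ (g n)) ((((lam f g m : ℝ) : ℂ) * ⟪g m, x⟫_ℂ) • f m)) n
    (by
      intro m hm
      simp [hb, Ne.symm hm])
  simpa [hb] using h2

lemma inner_opT_pow (n k : ℕ) (x : H) :
    ⟪g n, (opT f g ^ k) x⟫_ℂ = ((lam f g n : ℝ) : ℂ) ^ k * ⟪g n, x⟫_ℂ := by
  induction k with
  | zero => simp
  | succ k ih =>
    rw [pow_succ', mul_apply_eq_comp, inner_opT hb, ih]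
    ring

lemma opT_pow_small (n k : ℕ) (x : H) (hx : ∀ m ≤ n, ⟪g m, x⟫_ℂ = 0) :
    ‖(opT f g ^ k) x‖ ≤ (lam f g n / 3) ^ k * ‖x‖ := by
  induction k with
  | zero => simp
  | succ k ih =>
    rw [pow_succ', mul_apply_eq_comp]
    have h1 : ∀ m ≤ n, ⟪g m, (opT f g ^ k) x⟫_ℂ = 0 := by
      intro m hm
      rw [inner_opT_pow hb, hx m hm, mul_zero]
    have h2 := opT_small f g n _ h1
    have h3 := lam_pos f g n
    calc ‖opT f g ((opT f g ^ k) x)‖ ≤ lam f g n / 3 * ‖(opT f g ^ k) x‖ := h2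
      _ ≤ lam f g n / 3 * ((lam f g n / 3) ^ k * ‖x‖) := by gcongr
      _ = (lam f g n / 3) ^ (k + 1) * ‖x‖ := by ring

lemma opT_pow_f (n k : ℕ) : (opT f g ^ k) (f n) = (((lam f g n : ℝ) : ℂ) ^ k) • f n := by
  induction k with
  | zero => simp
  | succ k ih =>
    rw [pow_succ', mul_apply_eq_comp, ih, map_smul, opT_f hb, smul_smul]
    ring_nf

/-- A closed invariant subspace containing `x` contains every `f n` seen by `x`. -/
lemma mem_of_inner_ne_zero (M : Submodule ℂ H) (hM : IsClosed (M : Set H))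
    (hinv : ∀ x ∈ M, opT f g x ∈ M) (x : H) (hx : x ∈ M) (n : ℕ) (hn : ⟪g n, x⟫_ℂ ≠ 0) :
    f n ∈ M := by
  induction n using Nat.strong_induction_on with
  | _ n ih =>
    set c : ℂ := ⟪g n, x⟫_ℂ with hc
    set x' : H := x - ∑ m ∈ Finset.range n, ⟪g m, x⟫_ℂ • f m with hx'
    have hx'M : x' ∈ M := by
      refine M.sub_mem hx (M.sum_mem ?_)
      intro m hm
      by_cases h0 : ⟪g m, x⟫_ℂ = 0
      · rw [h0, zero_smul]
        exact M.zero_mem
      · exact M.smul_mem _ (ih m (Finset.mem_range.mp hm) h0)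
    have hcoef : ∀ m, ⟪g m, x'⟫_ℂ = if m < n then 0 else ⟪g m, x⟫_ℂ := by
      intro m
      rw [hx', inner_sub_right, inner_sum]
      simp only [inner_smul_right, hb]
      by_cases hmn : m < n
      · simp [hmn]
      · simp [hmn]
    set x'' : H := x' - c • f n with hx''
    have hcoef2 : ∀ m ≤ n, ⟪g m, x''⟫_ℂ = 0 := by
      intro m hm
      rw [hx'', inner_sub_right, inner_smul_right, hcoef, hb]
      rcases Nat.lt_or_eq_of_le hm with h | h
      · simp [h, h.ne]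
      · subst h
        simp [hc]
    have hpow : ∀ k, (opT f g ^ k) x' ∈ M := by
      intro k
      induction k with
      | zero => simpa using hx'M
      | succ k ihk =>
        rw [pow_succ', mul_apply_eq_comp]
        exact hinv _ ihk
    set l : ℂ := ((lam f g n : ℝ) : ℂ) with hl
    have hlpos := lam_pos f g n
    have hl0 : l ≠ 0 := by
      rw [hl]
      exact_mod_cast hlpos.ne'
    have hln : ‖l‖ = lam f g n := by
      rw [hl, Complex.norm_real, Real.norm_eq_abs, abs_of_pos hlpos]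
    have hdiff : ∀ k, ‖(c * l ^ k)⁻¹ • (opT f g ^ k) x' - f n‖ ≤
        (1 / 3 : ℝ) ^ k * (‖c‖⁻¹ * ‖x''‖) := by
      intro k
      have e1 : x' = c • f n + x'' := by
        rw [hx'']
        abel
      have e2 : (opT f g ^ k) x' = (c * l ^ k) • f n + (opT f g ^ k) x'' := by
        conv_lhs => rw [e1]
        rw [map_add, map_smul, opT_pow_f hb, smul_smul]
      have hck : c * l ^ k ≠ 0 := mul_ne_zero hn (pow_ne_zero _ hl0)
      have e3 : (c * l ^ k)⁻¹ • (opT f g ^ k) x' - f n = (c * l ^ k)⁻¹ • (opT f g ^ k) x'' := by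
        rw [e2, smul_add, smul_smul, inv_mul_cancel₀ hck, one_smul]
        abel
      rw [e3, norm_smul, norm_inv, norm_mul, norm_pow, hln]
      have h4 := opT_pow_small hb n k x'' hcoef2
      have hcpos : 0 < ‖c‖ := norm_pos_iff.mpr hn
      calc (‖c‖ * lam f g n ^ k)⁻¹ * ‖(opT f g ^ k) x''‖
          ≤ (‖c‖ * lam f g n ^ k)⁻¹ * ((lam f g n / 3) ^ k * ‖x''‖) := by gcongr
        _ = (1 / 3 : ℝ) ^ k * (‖c‖⁻¹ * ‖x''‖) := by
            rw [div_pow, div_pow, one_pow]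
            field_simp
    have hlim : Filter.Tendsto (fun k : ℕ => (c * l ^ k)⁻¹ • (opT f g ^ k) x')
        Filter.atTop (nhds (f n)) := by
      rw [tendsto_iff_norm_sub_tendsto_zero]
      refine squeeze_zero (fun k => norm_nonneg _) hdiff ?_
      have h5 := (tendsto_pow_atTop_nhds_zero_of_lt_one (r := (1 / 3 : ℝ)) (by norm_num)
        (by norm_num)).mul_const (‖c‖⁻¹ * ‖x''‖)
      simpa using h5
    exact hM.mem_of_tendsto hlim (Filter.Eventually.of_forall fun k => M.smul_mem _ (hpow k))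

/-- Action of polynomials on the eigenvectors. -/
lemma aeval_f (q : Polynomial ℂ) (n : ℕ) :
    (Polynomial.aeval (opT f g) q) (f n) = (q.eval ((lam f g n : ℝ) : ℂ)) • f n := by
  induction q using Polynomial.induction_on' with
  | add p q hp hq => simp [hp, hq, add_smul]
  | monomial k a =>
    rw [Polynomial.aeval_monomial, Polynomial.eval_monomial, mul_apply_eq_comp,
      opT_pow_f hb, map_smul]
    simp [Algebra.algebraMap_eq_smul_one, smul_smul, mul_comm]

/-- A rank-two functional orthogonal to the biorthogonal system kills the powers. -/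
lemma functional_zero (x0 y0 x1 y1 : H)
    (h : ∀ n, ⟪g n, x0⟫_ℂ * ⟪y0, f n⟫_ℂ + ⟪g n, x1⟫_ℂ * ⟪y1, f n⟫_ℂ = 0) (q : Polynomial ℂ) :
    ⟪y0, (Polynomial.aeval (opT f g) q) (opT f g x0)⟫_ℂ +
      ⟪y1, (Polynomial.aeval (opT f g) q) (opT f g x1)⟫_ℂ = 0 := by
  have key : ∀ x y : H, HasSum (fun n => (((lam f g n : ℝ) : ℂ) * q.eval ((lam f g n : ℝ) : ℂ)) *
      (⟪g n, x⟫_ℂ * ⟪y, f n⟫_ℂ)) ⟪y, (Polynomial.aeval (opT f g) q) (opT f g x)⟫_ℂ := by
    intro x y
    have h1 := (innerSL ℂ y).hasSum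
      ((Polynomial.aeval (opT f g) q).hasSum (opT_hasSum f g x))
    have e : (fun n => (((lam f g n : ℝ) : ℂ) * q.eval ((lam f g n : ℝ) : ℂ)) *
        (⟪g n, x⟫_ℂ * ⟪y, f n⟫_ℂ)) = fun n => (innerSL ℂ y) ((Polynomial.aeval (opT f g) q)
          ((((lam f g n : ℝ) : ℂ) * ⟪g n, x⟫_ℂ) • f n)) := by
      ext n
      rw [map_smul, aeval_f hb, innerSL_apply_apply, inner_smul_right, inner_smul_right]
      ring
    rw [e]
    exact h1
  have h2 := (key x0 y0).add (key x1 y1)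
  refine h2.unique ?_
  have e : (fun n => (((lam f g n : ℝ) : ℂ) * q.eval ((lam f g n : ℝ) : ℂ)) *
        (⟪g n, x0⟫_ℂ * ⟪y0, f n⟫_ℂ) + (((lam f g n : ℝ) : ℂ) * q.eval ((lam f g n : ℝ) : ℂ)) *
        (⟪g n, x1⟫_ℂ * ⟪y1, f n⟫_ℂ)) = fun _ => 0 := by
    ext n
    rw [← mul_add, h n, mul_zero]
  rw [e]
  exact hasSum_zero

end Abstract

section Concrete

/-- The Hilbert space `ℓ²(ℕ)`. -/
abbrev L2 : Type := lp (fun _ : ℕ => ℂ) 2

/-- The standard unit vectors. -/
noncomputable def e (n : ℕ) : L2 := lp.single 2 n (1 : ℂ)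

lemma inner_e (n : ℕ) (x : L2) : ⟪e n, x⟫_ℂ = x n := by
  unfold e
  rw [lp.inner_single_left]
  simp

lemma inner_e' (n : ℕ) (x : L2) : ⟪x, e n⟫_ℂ = (starRingEnd ℂ) (x n) := by
  rw [← inner_conj_symm, inner_e]

lemma e_apply (n m : ℕ) : (e n : ℕ → ℂ) m = if m = n then 1 else 0 := by
  unfold e
  rw [lp.single_apply]
  by_cases h : m = n
  · subst h
    simp
  · simp [h]

noncomputable def al (k : ℕ) : ℝ := 2 * 16 ^ k

noncomputable def be (k : ℕ) : ℝ := 16 ^ k

noncomputable def ga : ℕ → ℝ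
  | 0 => 0
  | (k + 1) => be k

/-- The basis vectors. -/
noncomputable def ff (n : ℕ) : L2 :=
  if n % 2 = 0 then e (n + 1)
  else e (n + 1) + ((al (n / 2) : ℝ) : ℂ) • e n + ((be (n / 2) : ℝ) : ℂ) • e (n + 2)

/-- The biorthogonal vectors. -/
noncomputable def gg (n : ℕ) : L2 :=
  if n % 2 = 0 then
    e (n + 1) - ((al (n / 2) : ℝ) : ℂ) • e (n + 2) - ((ga (n / 2) : ℝ) : ℂ) • e n
  else e (n + 1)

lemma ff_even (k : ℕ) : ff (2 * k) = e (2 * k + 1) := by
  unfold ff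
  rw [if_pos (by omega)]

lemma ff_odd (k : ℕ) : ff (2 * k + 1) =
    e (2 * k + 2) + ((al k : ℝ) : ℂ) • e (2 * k + 1) + ((be k : ℝ) : ℂ) • e (2 * k + 3) := by
  unfold ff
  rw [if_neg (by omega), show (2 * k + 1) / 2 = k by omega]

lemma inner_gg_even (k : ℕ) (x : L2) : ⟪gg (2 * k), x⟫_ℂ =
    x (2 * k + 1) - ((al k : ℝ) : ℂ) * x (2 * k + 2) - ((ga k : ℝ) : ℂ) * x (2 * k) := by
  unfold gg
  rw [if_pos (by omega), show (2 * k) / 2 = k by omega, inner_sub_left, inner_sub_left,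
    inner_smul_left, inner_smul_left, inner_e, inner_e, inner_e, Complex.conj_ofReal,
    Complex.conj_ofReal]

lemma inner_gg_odd (k : ℕ) (x : L2) : ⟪gg (2 * k + 1), x⟫_ℂ = x (2 * k + 2) := by
  unfold gg
  rw [if_neg (by omega), inner_e]

lemma inner_ff_even (k : ℕ) (y : L2) : ⟪y, ff (2 * k)⟫_ℂ = (starRingEnd ℂ) (y (2 * k + 1)) := by
  rw [ff_even, inner_e']

lemma inner_ff_odd (k : ℕ) (y : L2) : ⟪y, ff (2 * k + 1)⟫_ℂ =
    (starRingEnd ℂ) (y (2 * k + 2)) + ((al k : ℝ) : ℂ) * (starRingEnd ℂ) (y (2 * k + 1)) +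
      ((be k : ℝ) : ℂ) * (starRingEnd ℂ) (y (2 * k + 3)) := by
  rw [ff_odd, inner_add_right, inner_add_right, inner_smul_right, inner_smul_right, inner_e',
    inner_e', inner_e']

lemma ff_odd_apply (k i : ℕ) : (ff (2 * k + 1) : ℕ → ℂ) i =
    (if i = 2 * k + 2 then 1 else 0) + ((al k : ℝ) : ℂ) * (if i = 2 * k + 1 then 1 else 0) +
      ((be k : ℝ) : ℂ) * (if i = 2 * k + 3 then 1 else 0) := by
  rw [ff_odd]
  simp only [lp.coeFn_add, lp.coeFn_smul, Pi.add_apply, Pi.smul_apply, smul_eq_mul, e_apply]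

lemma ff_even_apply (k i : ℕ) : (ff (2 * k) : ℕ → ℂ) i = if i = 2 * k + 1 then 1 else 0 := by
  rw [ff_even, e_apply]

lemma biorth (m n : ℕ) : ⟪gg m, ff n⟫_ℂ = if m = n then 1 else 0 := by
  rcases Nat.even_or_odd' m with ⟨j, rfl | rfl⟩ <;> rcases Nat.even_or_odd' n with ⟨k, rfl | rfl⟩
  · rw [inner_gg_even, ff_even_apply, ff_even_apply, ff_even_apply]
    by_cases h : j = k
    · subst h
      simp
    · rw [if_neg (by omega), if_neg (by omega), if_neg (by omega), if_neg (by omega)]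
      simp
  · rw [inner_gg_even, ff_odd_apply, ff_odd_apply, ff_odd_apply,
      if_neg (show ¬ (2 * j = 2 * k + 1) by omega)]
    rw [if_neg (show ¬ (2 * j + 1 = 2 * k + 2) by omega),
      if_neg (show ¬ (2 * j + 2 = 2 * k + 1) by omega),
      if_neg (show ¬ (2 * j + 2 = 2 * k + 3) by omega),
      if_neg (show ¬ (2 * j = 2 * k + 3) by omega)]
    by_cases h : j = k
    · subst h
      simp
    · by_cases h' : j = k + 1
      · subst h'
        rw [if_neg (show ¬ (2 * (k + 1) + 1 = 2 * k + 1) by omega),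
          if_pos (show 2 * (k + 1) + 1 = 2 * k + 3 by omega),
          if_neg (show ¬ (2 * (k + 1) + 2 = 2 * k + 2) by omega),
          if_pos (show 2 * (k + 1) = 2 * k + 2 by omega)]
        simp [ga]
      · rw [if_neg (show ¬ (2 * j + 1 = 2 * k + 1) by omega),
          if_neg (show ¬ (2 * j + 1 = 2 * k + 3) by omega),
          if_neg (show ¬ (2 * j + 2 = 2 * k + 2) by omega),
          if_neg (show ¬ (2 * j = 2 * k + 2) by omega)]
        simp
  · rw [inner_gg_odd, ff_even_apply, if_neg (by omega), if_neg (by omega)]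
  · rw [inner_gg_odd, ff_odd_apply, if_neg (show ¬ (2 * j + 2 = 2 * k + 1) by omega),
      if_neg (show ¬ (2 * j + 2 = 2 * k + 3) by omega)]
    by_cases h : j = k
    · subst h
      simp
    · rw [if_neg (by omega), if_neg (by omega)]
      simp

lemma tendsto_coord (y : L2) : Filter.Tendsto (fun n => ‖y n‖) Filter.atTop (nhds 0) := by
  have h := (lp.hasSum_inner (𝕜 := ℂ) y y).summable.tendsto_atTop_zero
  have h2 := h.norm
  simp only [norm_zero] at h2
  have h3 : (fun n => ‖⟪y n, y n⟫_ℂ‖) = fun n => ‖y n‖ ^ 2 := by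
    ext n
    rw [inner_self_eq_norm_sq_to_K]
    simp
  rw [h3] at h2
  have h4 := h2.sqrt
  simpa using h4

/-- The basis is hereditarily complete. -/
lemma strong (x y : L2) (hx0 : x 0 = 0) (h : ∀ n, ⟪gg n, x⟫_ℂ * ⟪y, ff n⟫_ℂ = 0) :
    ⟪y, x⟫_ℂ = 0 := by
  set c : ℕ → ℂ := fun n => (starRingEnd ℂ) (y n) with hc
  have heven : ∀ k, (x (2 * k + 1) - ((al k : ℝ) : ℂ) * x (2 * k + 2) -
      ((ga k : ℝ) : ℂ) * x (2 * k)) * c (2 * k + 1) = 0 := by
    intro k
    have := h (2 * k)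
    rwa [inner_gg_even, inner_ff_even] at this
  have hodd : ∀ k, x (2 * k + 2) * (c (2 * k + 2) + ((al k : ℝ) : ℂ) * c (2 * k + 1) +
      ((be k : ℝ) : ℂ) * c (2 * k + 3)) = 0 := by
    intro k
    have := h (2 * k + 1)
    rwa [inner_gg_odd, inner_ff_odd] at this
  set S : ℕ → ℂ := fun K => ∑ n ∈ Finset.range (2 * K + 1), c n * x n with hS
  have hSs : ∀ K, S (K + 1) = S K + c (2 * K + 1) * x (2 * K + 1) +
      c (2 * K + 2) * x (2 * K + 2) := by
    intro K
    rw [hS]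
    simp only
    rw [show 2 * (K + 1) + 1 = 2 * K + 1 + 1 + 1 by ring, Finset.sum_range_succ,
      Finset.sum_range_succ]
  have hSf : ∀ K, S K = -(((ga K : ℝ) : ℂ) * x (2 * K) * c (2 * K + 1)) := by
    intro K
    induction K with
    | zero =>
      rw [hS]
      simp [hx0]
    | succ K ih =>
      rw [hSs, ih]
      have h1 := heven K
      have h2 := hodd K
      rw [show 2 * (K + 1) = 2 * K + 2 by ring, show (2 * K + 2) + 1 = 2 * K + 3 by ring]
      change _ = -(((be K : ℝ) : ℂ) * x (2 * K + 2) * c (2 * K + 3))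
      linear_combination h1 + h2
  have hSa : ∀ K, ((al K : ℝ) : ℂ) * x (2 * K + 2) * c (2 * K + 1) =
      S (K + 1) - c (2 * K + 2) * x (2 * K + 2) := by
    intro K
    rw [hSs, hSf]
    have h1 := heven K
    linear_combination -h1
  have hSb : ∀ K, S (K + 1) = -(((be K : ℝ) : ℂ) * x (2 * K + 2) * c (2 * K + 3)) := by
    intro K
    exact hSf (K + 1)
  have hsum : HasSum (fun n => c n * x n) ⟪y, x⟫_ℂ := by
    have := lp.hasSum_inner (𝕜 := ℂ) y x
    simpa [hc, mul_comm] using this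
  have hlim0 := hsum.tendsto_sum_nat
  have hsub : Filter.Tendsto (fun K : ℕ => 2 * (K + 1) + 1) Filter.atTop Filter.atTop := by
    apply Filter.tendsto_atTop_mono (f := fun K : ℕ => K) (fun K => by omega)
    exact Filter.tendsto_id
  have hlim : Filter.Tendsto (fun K => ‖S (K + 1)‖) Filter.atTop (nhds ‖⟪y, x⟫_ℂ‖) :=
    (hlim0.comp hsub).norm
  have hsub2 : Filter.Tendsto (fun K : ℕ => 2 * K + 2) Filter.atTop Filter.atTop := by
    apply Filter.tendsto_atTop_mono (f := fun K : ℕ => K) (fun K => by omega)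
    exact Filter.tendsto_id
  have hsub3 : Filter.Tendsto (fun K : ℕ => 2 * K + 1) Filter.atTop Filter.atTop := by
    apply Filter.tendsto_atTop_mono (f := fun K : ℕ => K) (fun K => by omega)
    exact Filter.tendsto_id
  have hterm : Filter.Tendsto (fun K => ‖c (2 * K + 2) * x (2 * K + 2)‖) Filter.atTop
      (nhds 0) := by
    have := (hsum.summable.tendsto_atTop_zero.comp hsub2).norm
    simpa using this
  have hw : Filter.Tendsto (fun K => ‖c (2 * K + 1)‖) Filter.atTop (nhds 0) := by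
    have := (tendsto_coord y).comp hsub3
    simpa [hc, Function.comp_def] using this
  by_contra hne
  have hpos : 0 < ‖⟪y, x⟫_ℂ‖ := norm_pos_iff.mpr hne
  have ev1 : ∀ᶠ K in Filter.atTop, ‖⟪y, x⟫_ℂ‖ / 2 < ‖S (K + 1)‖ :=
    hlim.eventually_const_lt (by linarith)
  have ev2 : ∀ᶠ K in Filter.atTop, ‖c (2 * K + 2) * x (2 * K + 2)‖ < ‖⟪y, x⟫_ℂ‖ / 2 :=
    hterm.eventually_lt_const (by linarith)
  obtain ⟨K0, hK0⟩ := Filter.eventually_atTop.mp (ev1.and ev2)
  have hmono : ∀ K, K0 ≤ K → ‖c (2 * K + 1)‖ ≤ ‖c (2 * (K + 1) + 1)‖ := by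
    intro K hK
    obtain ⟨h1, h2⟩ := hK0 K hK
    have hbpos : 0 < be K := by unfold be; positivity
    have hal : al K = 2 * be K := rfl
    have e1 : ‖((al K : ℝ) : ℂ) * x (2 * K + 2) * c (2 * K + 1)‖ ≤ 2 * ‖S (K + 1)‖ := by
      rw [hSa]
      calc ‖S (K + 1) - c (2 * K + 2) * x (2 * K + 2)‖
          ≤ ‖S (K + 1)‖ + ‖c (2 * K + 2) * x (2 * K + 2)‖ := norm_sub_le _ _
        _ ≤ 2 * ‖S (K + 1)‖ := by linarith
    have hSn : ‖S (K + 1)‖ = be K * ‖x (2 * K + 2)‖ * ‖c (2 * K + 3)‖ := by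
      rw [hSb, norm_neg, norm_mul, norm_mul, Complex.norm_real, Real.norm_eq_abs,
        abs_of_pos hbpos]
    have hSpos : 0 < ‖S (K + 1)‖ := by linarith
    have hxpos : 0 < ‖x (2 * K + 2)‖ := by
      rcases (norm_nonneg (x (2 * K + 2))).lt_or_eq with h3 | h3
      · exact h3
      · rw [hSn, ← h3] at hSpos
        simp at hSpos
    rw [norm_mul, norm_mul, Complex.norm_real, Real.norm_eq_abs, hal,
      abs_of_pos (by linarith), hSn] at e1
    have e2 : (2 * be K * ‖x (2 * K + 2)‖) * ‖c (2 * K + 1)‖ ≤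
        (2 * be K * ‖x (2 * K + 2)‖) * ‖c (2 * K + 3)‖ := by
      calc _ ≤ _ := e1
        _ = _ := by ring
    exact le_of_mul_le_mul_left e2 (by positivity)
  have hmono2 : Monotone (fun j => ‖c (2 * (j + K0) + 1)‖) := by
    apply monotone_nat_of_le_succ
    intro j
    have := hmono (j + K0) (by omega)
    rwa [show j + 1 + K0 = j + K0 + 1 by ring]
  have hlim3 : Filter.Tendsto (fun j => ‖c (2 * (j + K0) + 1)‖) Filter.atTop (nhds 0) :=
    hw.comp (Filter.tendsto_add_atTop_nat K0)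
  have hz := hmono2.ge_of_tendsto hlim3 1
  have hz' : c (2 * K0 + 3) = 0 := by
    have : ‖c (2 * (1 + K0) + 1)‖ = 0 := le_antisymm hz (norm_nonneg _)
    rw [show 2 * (1 + K0) + 1 = 2 * K0 + 3 by ring] at this
    exact norm_eq_zero.mp this
  have h5 := (hK0 K0 le_rfl).1
  rw [hSb, hz'] at h5
  simp at h5
  have h6 : ‖⟪y, x⟫_ℂ‖ = 0 := le_antisymm (by linarith) (norm_nonneg _)
  linarith

lemma geo_bound (n : ℕ) : (1 / 4 : ℝ) ^ (n / 2) ≤ 2 * (1 / 2) ^ n := by
  have h1 : (1 / 4 : ℝ) ^ (n / 2) = (1 / 2) ^ (2 * (n / 2)) := by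
    rw [pow_mul]
    norm_num
  have h2 : (1 / 2 : ℝ) ^ (2 * (n / 2) + 1) ≤ (1 / 2) ^ n :=
    pow_le_pow_of_le_one (by norm_num) (by norm_num) (by omega)
  rw [h1]
  rw [pow_succ] at h2
  linarith

lemma mem_of_bound (u : ℕ → ℂ) (C : ℝ) (h : ∀ n, ‖u n‖ ≤ C * (1 / 2) ^ n) :
    Memℓp (E := fun _ : ℕ => ℂ) u 2 := by
  apply memℓp_gen
  have hs : Summable (fun n : ℕ => C ^ 2 * (1 / 4 : ℝ) ^ n) :=
    (summable_geometric_of_lt_one (by norm_num) (by norm_num)).mul_left _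
  refine Summable.of_nonneg_of_le (fun n => by positivity) (fun n => ?_) hs
  have h1 : (1 / 4 : ℝ) ^ n = ((1 / 2) ^ n) ^ 2 := by
    rw [← pow_mul, mul_comm, pow_mul]
    norm_num
  rw [h1, ← mul_pow]
  simp only [ENNReal.toReal_ofNat, Real.rpow_ofNat]
  exact pow_le_pow_left₀ (norm_nonneg _) (h n) 2

/-- Odd coordinates of the first pair of vectors. -/
noncomputable def vv (i k : ℕ) : ℝ :=
  if (k + i) % 2 = 0 then (1 / 4) ^ k / 2 else -4 * (1 / 4) ^ k

/-- Even coordinates of the second pair of vectors. -/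
noncomputable def ww (i k : ℕ) : ℝ :=
  if (k + i) % 2 = 0 then (1 / 4) ^ k else 0

lemma abs_vv (i k : ℕ) : |vv i k| ≤ 4 * (1 / 4) ^ k := by
  unfold vv
  have h : (0 : ℝ) < (1 / 4) ^ k := by positivity
  split_ifs
  · rw [abs_of_pos (by positivity)]
    linarith
  · rw [abs_of_neg (by linarith)]
    linarith

lemma abs_ww (i k : ℕ) : |ww i k| ≤ (1 / 4) ^ k := by
  unfold ww
  have h : (0 : ℝ) < (1 / 4) ^ k := by positivity
  split_ifs
  · rw [abs_of_pos h]
  · rw [abs_zero]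
    exact h.le

noncomputable def xfun (i : ℕ) : ℕ → ℂ
  | 0 => 0
  | 1 => if i = 0 then 1 else 0
  | (n + 2) => if n % 2 = 0 then ((vv i (n / 2) : ℝ) : ℂ) else 0

noncomputable def yfun (i : ℕ) : ℕ → ℂ
  | 0 => 0
  | (n + 1) => if n % 2 = 0 then ((ww i (n / 2) : ℝ) : ℂ) else 0

lemma xfun_ss (i n : ℕ) :
    xfun i (n + 2) = if n % 2 = 0 then ((vv i (n / 2) : ℝ) : ℂ) else 0 := rfl

lemma yfun_s (i n : ℕ) :
    yfun i (n + 1) = if n % 2 = 0 then ((ww i (n / 2) : ℝ) : ℂ) else 0 := rfl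

lemma xfun_bound (i n : ℕ) : ‖xfun i n‖ ≤ 32 * (1 / 2) ^ n := by
  match n with
  | 0 => simp [xfun]
  | 1 =>
    unfold xfun
    split_ifs
    · norm_num
    · norm_num
  | (n + 2) =>
    rw [xfun_ss]
    have h0 : (0 : ℝ) ≤ (1 / 2) ^ (n + 2) := by positivity
    split_ifs
    · rw [Complex.norm_real, Real.norm_eq_abs]
      have h1 := abs_vv i (n / 2)
      have h2 := geo_bound n
      rw [pow_add]
      norm_num
      norm_num at h1 h2
      linarith
    · rw [norm_zero]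
      positivity

lemma yfun_bound (i n : ℕ) : ‖yfun i n‖ ≤ 32 * (1 / 2) ^ n := by
  match n with
  | 0 => simp [yfun]
  | (n + 1) =>
    rw [yfun_s]
    split_ifs
    · rw [Complex.norm_real, Real.norm_eq_abs]
      have h1 := abs_ww i (n / 2)
      have h2 := geo_bound n
      have h3 : (0 : ℝ) < (1 / 2) ^ n := by positivity
      have h4 : (1 / 2 : ℝ) ^ (n + 1) = (1 / 2) ^ n * (1 / 2) := pow_succ _ _
      rw [h4]
      linarith
    · rw [norm_zero]
      positivity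

noncomputable def xx (i : ℕ) : L2 := ⟨xfun i, mem_of_bound _ 32 (xfun_bound i)⟩

noncomputable def yy (i : ℕ) : L2 := ⟨yfun i, mem_of_bound _ 32 (yfun_bound i)⟩

lemma xx_even (i k : ℕ) : (xx i : ℕ → ℂ) (2 * k + 2) = ((vv i k : ℝ) : ℂ) := by
  change xfun i (2 * k + 2) = _
  rw [xfun_ss]
  rw [if_pos (by omega), show 2 * k / 2 = k by omega]

lemma xx_odd (i k : ℕ) : (xx i : ℕ → ℂ) (2 * k + 3) = 0 := by
  change xfun i ((2 * k + 1) + 2) = _
  rw [xfun_ss]
  rw [if_neg (by omega)]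

lemma xx_one (i : ℕ) : (xx i : ℕ → ℂ) 1 = if i = 0 then 1 else 0 := rfl

lemma xx_zero (i : ℕ) : (xx i : ℕ → ℂ) 0 = 0 := rfl

lemma yy_odd (i k : ℕ) : (yy i : ℕ → ℂ) (2 * k + 1) = ((ww i k : ℝ) : ℂ) := by
  change yfun i (2 * k + 1) = _
  rw [yfun_s]
  rw [if_pos (by omega), show 2 * k / 2 = k by omega]

lemma yy_even (i k : ℕ) : (yy i : ℕ → ℂ) (2 * k + 2) = 0 := by
  change yfun i ((2 * k + 1) + 1) = _
  rw [yfun_s]
  rw [if_neg (by omega)]

lemma even_term (i k : ℕ) (hi : i < 2) :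
    ⟪gg (2 * k), xx i⟫_ℂ * ⟪yy i, ff (2 * k)⟫_ℂ = 0 := by
  rw [inner_gg_even, inner_ff_even, yy_odd, Complex.conj_ofReal, xx_even]
  by_cases hp : (k + i) % 2 = 0
  · have h1 : vv i k = (1 / 4) ^ k / 2 := if_pos hp
    rcases k with _ | k
    · have hi0 : i = 0 := by omega
      subst hi0
      rw [h1, xx_one]
      simp [al, ga]
    · have h2 : vv i k = -4 * (1 / 4) ^ k := if_neg (by omega)
      rw [show 2 * (k + 1) + 1 = 2 * k + 3 by ring, xx_odd, show 2 * (k + 1) = 2 * k + 2 by ring,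
        xx_even, h1, h2]
      have h3 : (0 : ℂ) - ((al (k + 1) : ℝ) : ℂ) * (((1 / 4 : ℝ) ^ (k + 1) / 2 : ℝ) : ℂ) -
          ((ga (k + 1) : ℝ) : ℂ) * ((-4 * (1 / 4 : ℝ) ^ k : ℝ) : ℂ) =
          ((0 - al (k + 1) * ((1 / 4 : ℝ) ^ (k + 1) / 2) - be k * (-4 * (1 / 4 : ℝ) ^ k) : ℝ) :
            ℂ) := by
        push_cast
        rfl
      have h4 : (0 - al (k + 1) * ((1 / 4 : ℝ) ^ (k + 1) / 2) - be k * (-4 * (1 / 4 : ℝ) ^ k) :
          ℝ) = 0 := by
        unfold al be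
        ring
      rw [h3, h4]
      simp
  · have h1 : ww i k = 0 := if_neg hp
    rw [h1]
    simp

lemma odd_term (i k : ℕ) :
    ⟪gg (2 * k + 1), xx i⟫_ℂ * ⟪yy i, ff (2 * k + 1)⟫_ℂ =
      if (k + i) % 2 = 0 then 1 else -1 := by
  rw [inner_gg_odd, inner_ff_odd, yy_odd, yy_even, show 2 * k + 3 = 2 * (k + 1) + 1 by ring,
    yy_odd, Complex.conj_ofReal, Complex.conj_ofReal, xx_even]
  have h16 : (16 : ℝ) ^ k * ((1 / 4 : ℝ) ^ k * (1 / 4 : ℝ) ^ k) = 1 := by
    rw [← mul_pow, ← mul_pow]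
    norm_num
  by_cases hp : (k + i) % 2 = 0
  · have h1 : vv i k = (1 / 4) ^ k / 2 := if_pos hp
    have h2 : ww i k = (1 / 4) ^ k := if_pos hp
    have h3 : ww i (k + 1) = 0 := if_neg (by omega)
    rw [if_pos hp, h1, h2, h3]
    have h4 : ((1 / 4 : ℝ) ^ k / 2) * (0 + al k * (1 / 4 : ℝ) ^ k + be k * 0) = 1 := by
      unfold al
      linear_combination h16
    have h5 : (((((1 / 4 : ℝ) ^ k / 2) * (0 + al k * (1 / 4 : ℝ) ^ k + be k * 0)) : ℝ) : ℂ) =
        1 := by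
      rw [h4]
      simp
    rw [← h5]
    push_cast
    simp
  · have h1 : vv i k = -4 * (1 / 4) ^ k := if_neg hp
    have h2 : ww i k = 0 := if_neg hp
    have h3 : ww i (k + 1) = (1 / 4) ^ (k + 1) := if_pos (by omega)
    rw [if_neg hp, h1, h2, h3]
    have h4 : (-4 * (1 / 4 : ℝ) ^ k) * (0 + al k * 0 + be k * (1 / 4 : ℝ) ^ (k + 1)) = -1 := by
      unfold be
      linear_combination -h16
    have h5 : (((-4 * (1 / 4 : ℝ) ^ k) * (0 + al k * 0 + be k * (1 / 4 : ℝ) ^ (k + 1)) : ℝ) :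
        ℂ) = -1 := by
      rw [h4]
      simp
    rw [← h5]
    push_cast
    simp

lemma rank_two (n : ℕ) : ⟪gg n, xx 0⟫_ℂ * ⟪yy 0, ff n⟫_ℂ + ⟪gg n, xx 1⟫_ℂ * ⟪yy 1, ff n⟫_ℂ = 0 := by
  rcases Nat.even_or_odd' n with ⟨k, rfl | rfl⟩
  · rw [even_term 0 k (by norm_num), even_term 1 k (by norm_num), add_zero]
  · rw [odd_term, odd_term]
    rcases Nat.mod_two_eq_zero_or_one k with h | h
    · rw [if_pos (by omega), if_neg (by omega)]
      ring
    · rw [if_neg (by omega), if_pos (by omega)]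
      ring

lemma inner_yx (i : ℕ) : ⟪yy i, xx i⟫_ℂ = if i = 0 then 1 else 0 := by
  have h := lp.hasSum_inner (𝕜 := ℂ) (yy i) (xx i)
  refine h.unique ?_
  have hz : ∀ n, n ≠ 1 → ⟪(yy i : ℕ → ℂ) n, (xx i : ℕ → ℂ) n⟫_ℂ = 0 := by
    intro n hn
    rcases Nat.even_or_odd' n with ⟨k, rfl | rfl⟩
    · rcases k with _ | k
      · rw [Nat.mul_zero, xx_zero]
        simp
      · rw [show 2 * (k + 1) = 2 * k + 2 by ring, yy_even]
        simp
    · rcases k with _ | k
      · exact absurd rfl hn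
      · rw [show 2 * (k + 1) + 1 = 2 * k + 3 by ring, xx_odd]
        simp
  have h2 := hasSum_single 1 hz
  have h3 : ⟪(yy i : ℕ → ℂ) 1, (xx i : ℕ → ℂ) 1⟫_ℂ = if i = 0 then 1 else 0 := by
    rw [xx_one]
    have : (yy i : ℕ → ℂ) 1 = ((ww i 0 : ℝ) : ℂ) := yy_odd i 0
    rw [this]
    by_cases hi : i = 0
    · subst hi
      simp [ww]
    · simp [hi]
  rwa [h3] at h2

/-- The operator of the counterexample. -/
noncomputable def A : L2 →L[ℂ] L2 := opT ff gg

/-- The projection on the zeroth coordinate. -/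
noncomputable def B : L2 →L[ℂ] L2 := (innerSL ℂ (e 0)).smulRight (e 0)

lemma B_apply (x : L2) : B x = x 0 • e 0 := by
  change ⟪e 0, x⟫_ℂ • e 0 = _
  rw [inner_e]

lemma inner_gg_e0 (n : ℕ) : ⟪gg n, e 0⟫_ℂ = 0 := by
  rcases Nat.even_or_odd' n with ⟨k, rfl | rfl⟩
  · rw [inner_gg_even, e_apply, e_apply, e_apply]
    rcases k with _ | k
    · simp [ga]
    · simp
  · rw [inner_gg_odd, e_apply]
    simp

lemma A_e0 : A (e 0) = 0 := by
  have h := opT_hasSum ff gg (e 0)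
  refine h.unique ?_
  simp only [inner_gg_e0, mul_zero, zero_smul]
  exact hasSum_zero

/-- Every vector with zeroth coordinate zero is synthesised by the basis vectors it sees. -/
lemma mem_closure (x : L2) (hx0 : x 0 = 0) :
    x ∈ (Submodule.span ℂ {v : L2 | ∃ n, ⟪gg n, x⟫_ℂ ≠ 0 ∧ v = ff n}).topologicalClosure := by
  rw [← Submodule.orthogonal_orthogonal_eq_closure, Submodule.mem_orthogonal]
  intro y hy
  apply strong x y hx0
  intro n
  by_cases h : ⟪gg n, x⟫_ℂ = 0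
  · rw [h, zero_mul]
  · rw [Submodule.mem_orthogonal] at hy
    have := hy (ff n) (Submodule.subset_span ⟨n, h, rfl⟩)
    have h7 : ⟪y, ff n⟫_ℂ = 0 := by rw [← inner_conj_symm, this, map_zero]
    rw [h7, mul_zero]

/-- Structure of the closed invariant subspaces. -/
lemma key (M : Submodule ℂ L2) (hM : IsClosed (M : Set L2)) (hinv : ∀ x ∈ M, A x ∈ M)
    (x : L2) (hx : x ∈ M) :
    (x - x 0 • e 0 ∈ (Submodule.span ℂ {v : L2 | v ∈ M ∧ ∃ n, v = ff n}).topologicalClosure) ∧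
      x 0 • e 0 ∈ M := by
  have h0 : ((x - x 0 • e 0 : L2) : ℕ → ℂ) 0 = 0 := by
    simp only [lp.coeFn_sub, lp.coeFn_smul, Pi.sub_apply, Pi.smul_apply, smul_eq_mul, e_apply]
    simp
  have h1 := mem_closure _ h0
  have h2 : ∀ n, ⟪gg n, x - x 0 • e 0⟫_ℂ = ⟪gg n, x⟫_ℂ := by
    intro n
    rw [inner_sub_right, inner_smul_right, inner_gg_e0, mul_zero, sub_zero]
  have h3 : {v : L2 | ∃ n, ⟪gg n, x - x 0 • e 0⟫_ℂ ≠ 0 ∧ v = ff n} ⊆
      {v : L2 | v ∈ M ∧ ∃ n, v = ff n} := by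
    rintro v ⟨n, hn, rfl⟩
    rw [h2] at hn
    exact ⟨mem_of_inner_ne_zero biorth M hM hinv x hx n hn, n, rfl⟩
  have h4 := Submodule.topologicalClosure_mono (Submodule.span_mono (R := ℂ) h3) h1
  refine ⟨h4, ?_⟩
  have h5 : (Submodule.span ℂ {v : L2 | v ∈ M ∧ ∃ n, v = ff n}).topologicalClosure ≤ M := by
    apply Submodule.topologicalClosure_minimal _ _ hM
    rw [Submodule.span_le]
    rintro v ⟨hv, -⟩
    exact hv
  have h6 := M.sub_mem hx (h5 h4)
  simpa using h6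

end Concrete

/-- The negation of the preceding statement: For a bounded operator A on a complex Hilbert space whose closed invariant subspaces are all closed spans of eigenvectors, every operator leaving those subspaces invariant is a weak-operator limit of polynomials in A, i.e. A is reflexive. -/
theorem result :
    ¬ (∀ (H : Type) [NormedAddCommGroup H] [InnerProductSpace ℂ H] [CompleteSpace H]
      (A : H →L[ℂ] H),
      (∀ M : Submodule ℂ H, IsClosed (M : Set H) → (∀ x ∈ M, A x ∈ M) →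
        M = (Submodule.span ℂ {x : H | x ∈ M ∧ ∃ c : ℂ, A x = c • x}).topologicalClosure) →
      ∀ B : H →L[ℂ] H,
        (∀ M : Submodule ℂ H, IsClosed (M : Set H) → (∀ x ∈ M, A x ∈ M) →
          ∀ x ∈ M, B x ∈ M) →
        ∀ (s : Finset (H × H)) (ε : ℝ), 0 < ε →
          ∃ p : Polynomial ℂ, ∀ z ∈ s,
            ‖⟪(B - Polynomial.aeval A p) z.1, z.2⟫_ℂ‖ < ε) := by
  intro h
  have hsyn : ∀ M : Submodule ℂ L2, IsClosed (M : Set L2) → (∀ x ∈ M, A x ∈ M) →
      M = (Submodule.span ℂ {x : L2 | x ∈ M ∧ ∃ c : ℂ, A x = c • x}).topologicalClosure := by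
    intro M hM hinv
    apply le_antisymm
    · intro x hx
      obtain ⟨h1, h2⟩ := key M hM hinv x hx
      have h3 : {v : L2 | v ∈ M ∧ ∃ n, v = ff n} ⊆ {x : L2 | x ∈ M ∧ ∃ c : ℂ, A x = c • x} := by
        rintro v ⟨hv, n, rfl⟩
        exact ⟨hv, _, opT_f biorth n⟩
      have h4 := Submodule.topologicalClosure_mono (Submodule.span_mono (R := ℂ) h3) h1
      have h5 : x 0 • e 0 ∈
          (Submodule.span ℂ {x : L2 | x ∈ M ∧ ∃ c : ℂ, A x = c • x}).topologicalClosure := by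
        apply Submodule.le_topologicalClosure
        apply Submodule.subset_span
        refine ⟨h2, 0, ?_⟩
        rw [map_smul, A_e0]
        simp
      have h6 := Submodule.add_mem _ h4 h5
      simpa using h6
    · apply Submodule.topologicalClosure_minimal _ _ hM
      rw [Submodule.span_le]
      rintro v ⟨hv, -⟩
      exact hv
  have hB : ∀ M : Submodule ℂ L2, IsClosed (M : Set L2) → (∀ x ∈ M, A x ∈ M) →
      ∀ x ∈ M, B x ∈ M := by
    intro M hM hinv x hx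
    rw [B_apply]
    exact (key M hM hinv x hx).2
  classical
  obtain ⟨p, hp⟩ := h L2 A hsyn B hB {(xx 0, yy 0), (xx 1, yy 1), (e 0, e 0)} (1 / 4)
    (by norm_num)
  have hp0 := hp (xx 0, yy 0) (by simp)
  have hp1 := hp (xx 1, yy 1) (by simp)
  have hp2 := hp (e 0, e 0) (by simp)
  simp only at hp0 hp1 hp2
  have hdec : ∀ x : L2, (Polynomial.aeval A p) x =
      (Polynomial.aeval A p.divX) (A x) + p.coeff 0 • x := by
    intro x
    conv_lhs => rw [← Polynomial.divX_mul_X_add p]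
    simp [Algebra.algebraMap_eq_smul_one]
  have hBx : ∀ i, B (xx i) = 0 := by
    intro i
    rw [B_apply, xx_zero, zero_smul]
  have hfun := functional_zero biorth (xx 0) (yy 0) (xx 1) (yy 1) rank_two p.divX
  have hsum : ⟪yy 0, (B - Polynomial.aeval A p) (xx 0)⟫_ℂ +
      ⟪yy 1, (B - Polynomial.aeval A p) (xx 1)⟫_ℂ = - p.coeff 0 := by
    have hfun' : ⟪yy 0, (Polynomial.aeval A p.divX) (A (xx 0))⟫_ℂ +
      ⟪yy 1, (Polynomial.aeval A p.divX) (A (xx 1))⟫_ℂ = 0 := hfun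
    rw [sub_apply, sub_apply, hBx, hBx, hdec, hdec,
      zero_sub, zero_sub, inner_neg_right, inner_neg_right, inner_add_right, inner_add_right,
      inner_smul_right, inner_smul_right, inner_yx, inner_yx]
    simp only [if_true, one_ne_zero, if_false]
    linear_combination -hfun'
  have he0 : ⟪e 0, (B - Polynomial.aeval A p) (e 0)⟫_ℂ = 1 - p.coeff 0 := by
    rw [sub_apply, B_apply, hdec, A_e0, map_zero, zero_add, inner_sub_right,
      inner_smul_right, inner_smul_right, inner_e, e_apply]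
    simp
  have n0 : ‖⟪yy 0, (B - Polynomial.aeval A p) (xx 0)⟫_ℂ‖ < 1 / 4 := by
    rw [norm_inner_symm]
    exact hp0
  have n1 : ‖⟪yy 1, (B - Polynomial.aeval A p) (xx 1)⟫_ℂ‖ < 1 / 4 := by
    rw [norm_inner_symm]
    exact hp1
  have n2 : ‖⟪e 0, (B - Polynomial.aeval A p) (e 0)⟫_ℂ‖ < 1 / 4 := by
    rw [norm_inner_symm]
    exact hp2
  have n3 : ‖p.coeff 0‖ < 1 / 2 := by
    have := norm_add_le ⟪yy 0, (B - Polynomial.aeval A p) (xx 0)⟫_ℂ
      ⟪yy 1, (B - Polynomial.aeval A p) (xx 1)⟫_ℂ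
    rw [hsum, norm_neg] at this
    linarith
  rw [he0] at n2
  have n4 : ‖(1 : ℂ)‖ ≤ ‖1 - p.coeff 0‖ + ‖p.coeff 0‖ := by
    have := norm_add_le (1 - p.coeff 0) (p.coeff 0)
    simpa using this
  rw [norm_one] at n4
  linarith

end Pool.Agent.S03824
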