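import Pool.Statements.S03836
import Pool.Agent.Helper276.Rajchman

set_option autoImplicit false
open Filter Topology
open Pool Pool.MP_ae9c87_an

namespace Pool.Agent.S03836

open Pool.Agent.Helper276.Rajchman MeasureTheory
open scoped ComplexOrder

noncomputable section

/-- the compact interval -/
abbrev K : Type := Set.Icc (1 : ℝ) 2

lemma h12 : (1 : ℝ) ≤ 2 := by norm_num

/-- continuous functions -/
abbrev CK : Type := C(K, ℂ)

/-- the joint exponentials -/
def EE (m : ℤ) : C(ℝ × K, ℂ) :=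
  ⟨fun q => Complex.exp (Complex.I * ((q.1 * (q.2 : ℝ) + m * phi (q.2 : ℝ) : ℝ) : ℂ)), by
    have := phi_cont
    fun_prop⟩

/-- exponentials -/
def E (t : ℝ) (m : ℤ) : CK := (EE m).curry t

lemma E_apply (t : ℝ) (m : ℤ) (x : K) :
    E t m x = Complex.exp (Complex.I * ((t * (x : ℝ) + m * phi (x : ℝ) : ℝ) : ℂ)) := rfl

lemma E_cont (m : ℤ) : Continuous (fun t => E t m) := (EE m).curry.continuous

lemma E_mul (s t : ℝ) (m n : ℤ) : E s m * E t n = E (s + t) (m + n) := by
  ext x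
  rw [ContinuousMap.mul_apply, E_apply, E_apply, E_apply, ← Complex.exp_add]
  congr 1
  push_cast
  ring

lemma E_zero : E 0 0 = 1 := by
  ext x
  simp [E_apply]

lemma E_star (t : ℝ) (m : ℤ) : star (E t m) = E (-t) (-m) := by
  ext x
  rw [ContinuousMap.star_apply, E_apply, E_apply, Complex.star_def, ← Complex.exp_conj]
  congr 1
  simp
  ring

lemma E_norm (t : ℝ) (m : ℤ) : ‖E t m‖ ≤ 1 := by
  rw [ContinuousMap.norm_le _ zero_le_one]
  intro x
  rw [E_apply, Complex.norm_exp_I_mul_ofReal]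

/-- the approximating functionals -/
def Lk (k : ℕ) (g : CK) : ℂ := ∫ y in (1 : ℝ)..2, (rho k y : ℂ) * Set.IccExtend h12 g y

lemma Lk_int (k : ℕ) (g : CK) :
    IntervalIntegrable (fun y => (rho k y : ℂ) * Set.IccExtend h12 g y) volume 1 2 := by
  apply Continuous.intervalIntegrable
  exact (Complex.continuous_ofReal.comp (rho_contDiff k).continuous).mul g.continuous.Icc_extend'

lemma Lk_add (k : ℕ) (f g : CK) : Lk k (f + g) = Lk k f + Lk k g := by
  unfold Lk
  rw [← intervalIntegral.integral_add (Lk_int k f) (Lk_int k g)]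
  congr 1
  funext y
  have : Set.IccExtend h12 (f + g : CK) y = Set.IccExtend h12 f y + Set.IccExtend h12 g y := rfl
  rw [this]
  ring

lemma Lk_smul (k : ℕ) (c : ℂ) (g : CK) : Lk k (c • g) = c * Lk k g := by
  unfold Lk
  rw [← intervalIntegral.integral_const_mul]
  congr 1
  funext y
  have : Set.IccExtend h12 (c • g : CK) y = c * Set.IccExtend h12 g y := rfl
  rw [this]
  ring

lemma Lk_E (k : ℕ) (t : ℝ) (m : ℤ) : Lk k (E t m) = II (rho k) t m := by
  unfold Lk II
  apply intervalIntegral.integral_congr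
  intro y hy
  rw [Set.uIcc_of_le h12] at hy
  simp only
  rw [Set.IccExtend_of_mem h12 _ hy, E_apply]

lemma mass_eq (k : ℕ) : ((∫ y in (1 : ℝ)..2, rho k y : ℝ) : ℂ) = II (rho k) 0 0 := by
  rw [← intervalIntegral.integral_ofReal]
  unfold II
  congr 1
  funext y
  simp

lemma mass_le (k : ℕ) : ∫ y in (1 : ℝ)..2, rho k y ≤ 2 := by
  have h1 := mass_close k
  rw [← mass_eq] at h1
  have h2 : ‖((∫ y in (1 : ℝ)..2, rho k y : ℝ) : ℂ)‖ ≤ 2 := by
    have h3 : ((∫ y in (1 : ℝ)..2, rho k y : ℝ) : ℂ) = (((∫ y in (1 : ℝ)..2, rho k y : ℝ) : ℂ) - 1) + 1 := by ring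
    rw [h3]
    refine (norm_add_le _ _).trans ?_
    rw [norm_one]
    linarith
  rw [Complex.norm_real, Real.norm_eq_abs] at h2
  exact (le_abs_self _).trans h2

lemma Lk_bound (k : ℕ) (g : CK) : ‖Lk k g‖ ≤ 2 * ‖g‖ := by
  have h1 : ‖Lk k g‖ ≤ ∫ y in (1 : ℝ)..2, rho k y * ‖g‖ := by
    apply intervalIntegral.norm_integral_le_of_norm_le h12
    · refine Eventually.of_forall (fun y _ => ?_)
      rw [norm_mul, Complex.norm_real, Real.norm_of_nonneg (rho_nonneg k y)]
      exact mul_le_mul_of_nonneg_left (g.norm_coe_le_norm _) (rho_nonneg k y)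
    · apply Continuous.intervalIntegrable
      exact (rho_contDiff k).continuous.mul continuous_const
  rw [intervalIntegral.integral_mul_const] at h1
  exact h1.trans (mul_le_mul_of_nonneg_right (mass_le k) (norm_nonneg _))

lemma Lk_nonneg (k : ℕ) (g : CK) (hg : 0 ≤ g) : 0 ≤ Lk k g := by
  have hre : ∀ y : ℝ, Set.IccExtend h12 g y = (((Set.IccExtend h12 g y).re : ℝ) : ℂ) ∧
      0 ≤ (Set.IccExtend h12 g y).re := by
    intro y
    have h1 : 0 ≤ Set.IccExtend h12 g y := hg _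
    rw [Complex.nonneg_iff] at h1
    refine ⟨?_, h1.1⟩
    apply Complex.ext
    · simp
    · simp [← h1.2]
  have h2 : Lk k g = ((∫ y in (1 : ℝ)..2, rho k y * (Set.IccExtend h12 g y).re : ℝ) : ℂ) := by
    rw [← intervalIntegral.integral_ofReal]
    unfold Lk
    congr 1
    funext y
    rw [(hre y).1]
    push_cast
    simp
  rw [h2, Complex.zero_le_real]
  apply intervalIntegral.integral_nonneg h12
  intro y _
  exact mul_nonneg (rho_nonneg k y) (hre y).2

/-- the chosen ultrafilter -/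
def UU : Ultrafilter ℕ := Filter.hyperfilter ℕ

lemma UU_le : (UU : Filter ℕ) ≤ atTop := by
  rw [← Nat.cofinite_eq_atTop]
  exact Filter.hyperfilter_le_cofinite

lemma exists_lim (g : CK) : ∃ z : ℂ, Tendsto (fun k => Lk k g) UU (𝓝 z) := by
  have hc : IsCompact (Metric.closedBall (0 : ℂ) (2 * ‖g‖)) := isCompact_closedBall _ _
  obtain ⟨z, _, hz⟩ := hc.ultrafilter_le_nhds (UU.map (fun k => Lk k g)) (by
    rw [Filter.le_principal_iff]
    apply Filter.mem_map.2
    apply Filter.univ_mem'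
    intro k
    simp only [Set.mem_preimage, Metric.mem_closedBall, dist_zero_right]
    exact Lk_bound k g)
  exact ⟨z, hz⟩

/-- the limit functional -/
def L0 (g : CK) : ℂ := Classical.choose (exists_lim g)

lemma L0_tendsto (g : CK) : Tendsto (fun k => Lk k g) UU (𝓝 (L0 g)) :=
  Classical.choose_spec (exists_lim g)

/-- the limit functional as a positive linear map -/
def LL : CK →ₚ[ℂ] ℂ :=
  PositiveLinearMap.mk₀
    { toFun := L0
      map_add' := by
        intro f g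
        have h1 := (L0_tendsto f).add (L0_tendsto g)
        simp_rw [← Lk_add] at h1
        exact tendsto_nhds_unique (L0_tendsto (f + g)) h1
      map_smul' := by
        intro c g
        have h1 := (L0_tendsto g).const_mul c
        simp_rw [← Lk_smul] at h1
        exact tendsto_nhds_unique (L0_tendsto (c • g)) h1 } (by
      intro g hg
      exact ge_of_tendsto (L0_tendsto g) (Eventually.of_forall (fun k => Lk_nonneg k g hg)))

lemma LL_apply (g : CK) : LL g = L0 g := rfl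

lemma LL_bound (g : CK) : ‖LL g‖ ≤ 2 * ‖g‖ := by
  rw [LL_apply]
  exact le_of_tendsto (L0_tendsto g).norm (Eventually.of_forall (fun k => Lk_bound k g))

lemma LL_E (j : ℕ) (t : ℝ) (m : ℤ) (hm : |m| ≤ (nn j : ℤ)) :
    ‖LL (E t m) - II (rho j) t m‖ ≤ 1 / 2 ^ (j + 3) := by
  rw [LL_apply]
  have h1 := ((L0_tendsto (E t m)).sub_const (II (rho j) t m)).norm
  refine le_of_tendsto h1 ?_
  have h2 : ∀ᶠ k in (UU : Filter ℕ), j ≤ k := UU_le (eventually_ge_atTop j)
  filter_upwards [h2] with k hk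
  rw [Lk_E]
  exact cauchy' j t m hm k hk

/-- the functional has a Rajchman transform -/
lemma LL_decay : Tendsto (fun t : ℝ => LL (E (-t) 0)) atTop (𝓝 0) := by
  rw [Metric.tendsto_atTop]
  intro ε hε
  obtain ⟨j, hj⟩ : ∃ j : ℕ, (1 : ℝ) / 2 ^ (j + 3) < ε / 2 := by
    obtain ⟨j, hj⟩ := exists_pow_lt_of_lt_one (half_pos hε) (by norm_num : (1 / 2 : ℝ) < 1)
    refine ⟨j, lt_of_le_of_lt ?_ hj⟩
    rw [one_div_pow]
    apply one_div_le_one_div_of_le (by positivity)
    exact pow_le_pow_right₀ (by norm_num) (by omega)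
  have h1 : Tendsto (fun t : ℝ => 4 / |(-t)| * cst (rho j)) atTop (𝓝 (0 * cst (rho j))) := by
    apply Tendsto.mul_const
    apply Tendsto.const_div_atTop
    simp_rw [abs_neg]
    exact tendsto_abs_atTop_atTop
  rw [zero_mul] at h1
  have h2 := (h1.eventually (gt_mem_nhds (half_pos hε))).and (eventually_gt_atTop 0)
  obtain ⟨N, hN⟩ := eventually_atTop.1 h2
  refine ⟨N, fun t ht => ?_⟩
  obtain ⟨h3, h4⟩ := hN t ht
  rw [dist_zero_right]
  have h5 := LL_E j (-t) 0 (by simp)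
  have h6 := II_zero_bound (rho_contDiff j) (-t) (by linarith : -t < 0).ne
  have h7 : LL (E (-t) 0) = (LL (E (-t) 0) - II (rho j) (-t) 0) + II (rho j) (-t) 0 := by ring
  rw [h7]
  refine lt_of_le_of_lt (norm_add_le _ _) ?_
  linarith

/-- the algebra generated by the exponentials -/
def subA : StarSubalgebra ℂ CK where
  toSubalgebra := Algebra.adjoin ℂ (Set.range (fun s : ℝ => E s 0))
  star_mem' := by
    change Algebra.adjoin ℂ (Set.range (fun s : ℝ => E s 0)) ≤
      star (Algebra.adjoin ℂ (Set.range (fun s : ℝ => E s 0)))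
    refine Algebra.adjoin_le ?_
    rintro _ ⟨s, rfl⟩
    change star (E s 0) ∈ Algebra.adjoin ℂ (Set.range (fun s : ℝ => E s 0))
    rw [E_star, neg_zero]
    exact Algebra.subset_adjoin ⟨-s, rfl⟩

lemma subA_sep : subA.SeparatesPoints := by
  intro x y hxy
  refine ⟨_, ⟨E 1 0, Algebra.subset_adjoin ⟨1, rfl⟩, rfl⟩, ?_⟩
  intro h
  apply hxy
  change E 1 0 x = E 1 0 y at h
  rw [E_apply, E_apply, Complex.exp_eq_exp_iff_exists_int] at h
  obtain ⟨n, hn⟩ := h
  have h1 : ((1 * (x : ℝ) + ((0 : ℤ) : ℝ) * phi x : ℝ) : ℂ) =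
      ((1 * (y : ℝ) + ((0 : ℤ) : ℝ) * phi y : ℝ) : ℂ) + n * (2 * Real.pi) := by
    have h2 : Complex.I * ((1 * (x : ℝ) + ((0 : ℤ) : ℝ) * phi x : ℝ) : ℂ) =
      Complex.I * (((1 * (y : ℝ) + ((0 : ℤ) : ℝ) * phi y : ℝ) : ℂ) + n * (2 * Real.pi)) := by
      rw [hn]
      ring
    exact mul_left_cancel₀ Complex.I_ne_zero h2
  have h3 : (x : ℝ) = y + n * (2 * Real.pi) := by
    have := congrArg Complex.re h1
    simpa using this
  have hx := x.2
  have hy := y.2
  have hpi := Real.pi_gt_three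
  have hn0 : n = 0 := by
    by_contra hne
    rcases lt_or_gt_of_ne hne with h4 | h4
    · have h5 : (n : ℝ) ≤ -1 := by exact_mod_cast Int.le_sub_one_of_lt h4
      nlinarith [hx.1, hx.2, hy.1, hy.2]
    · have h5 : (1 : ℝ) ≤ n := by exact_mod_cast h4
      nlinarith [hx.1, hx.2, hy.1, hy.2]
  rw [hn0] at h3
  apply Subtype.ext
  simpa using h3

lemma subA_le_span (g : CK) (hg : g ∈ subA) : g ∈ Submodule.span ℂ (Set.range (fun s : ℝ => E s 0)) := by
  have h1 : Subalgebra.toSubmodule (Algebra.adjoin ℂ (Set.range (fun s : ℝ => E s 0))) =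
      Submodule.span ℂ (Set.range (fun s : ℝ => E s 0)) := by
    apply Algebra.adjoin_eq_span_of_subset
    refine Set.Subset.trans ?_ Submodule.subset_span
    intro x hx
    refine Submonoid.closure_induction (fun _ => id) ⟨0, E_zero⟩ ?_ hx
    rintro _ _ _ _ ⟨s, rfl⟩ ⟨t, rfl⟩
    refine ⟨s + t, ?_⟩
    simp only
    rw [E_mul, add_zero]
  rw [← h1]
  exact hg

lemma LL_decay_shift (s : ℝ) : Tendsto (fun t : ℝ => LL (E (-t) 0 * E s 0)) atTop (𝓝 0) := by
  have h1 : Tendsto (fun t : ℝ => t - s) atTop atTop := tendsto_atTop_add_const_right _ _ tendsto_id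
  have h2 := LL_decay.comp h1
  refine h2.congr (fun t => ?_)
  simp only [Function.comp]
  rw [E_mul]
  congr 2
  ring

/-- functions with decaying transform -/
def decS : Submodule ℂ CK where
  carrier := {g | Tendsto (fun t : ℝ => LL (E (-t) 0 * g)) atTop (𝓝 0)}
  add_mem' := by
    intro f g hf hg
    have h1 := Tendsto.add hf hg
    rw [add_zero] at h1
    refine h1.congr (fun t => ?_)
    rw [mul_add, map_add]
  zero_mem' := by
    simp
  smul_mem' := by
    intro c g hg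
    have h1 := Tendsto.const_mul c hg
    rw [mul_zero] at h1
    refine h1.congr (fun t => ?_)
    rw [mul_smul_comm, map_smul, smul_eq_mul]

lemma LL_decay_all (g : CK) : Tendsto (fun t : ℝ => LL (E (-t) 0 * g)) atTop (𝓝 0) := by
  have hspan : Submodule.span ℂ (Set.range (fun s : ℝ => E s 0)) ≤ decS := by
    rw [Submodule.span_le]
    rintro _ ⟨s, rfl⟩
    exact LL_decay_shift s
  have htop := ContinuousMap.starSubalgebra_topologicalClosure_eq_top_of_separatesPoints subA subA_sep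
  have hg : g ∈ closure (subA : Set CK) := by
    have : g ∈ subA.topologicalClosure := by
      rw [htop]
      trivial
    exact this
  rw [Metric.tendsto_atTop]
  intro ε hε
  rw [Metric.mem_closure_iff] at hg
  obtain ⟨f, hf, hfg⟩ := hg (ε / 4) (by positivity)
  have hfd : Tendsto (fun t : ℝ => LL (E (-t) 0 * f)) atTop (𝓝 0) := hspan (subA_le_span f hf)
  rw [Metric.tendsto_atTop] at hfd
  obtain ⟨N, hN⟩ := hfd (ε / 2) (half_pos hε)
  refine ⟨N, fun t ht => ?_⟩
  have h1 := hN t ht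
  rw [dist_zero_right] at h1 ⊢
  have h2 : LL (E (-t) 0 * g) = LL (E (-t) 0 * (g - f)) + LL (E (-t) 0 * f) := by
    rw [← map_add]
    congr 1
    ring
  rw [h2]
  refine lt_of_le_of_lt (norm_add_le _ _) ?_
  have h3 := LL_bound (E (-t) 0 * (g - f))
  have h4 : ‖E (-t) 0 * (g - f)‖ ≤ ‖g - f‖ := by
    refine (norm_mul_le _ _).trans ?_
    exact mul_le_of_le_one_left (norm_nonneg _) (E_norm _ _)
  rw [dist_eq_norm] at hfg
  linarith

/-- the Hilbert space -/
abbrev HH : Type := LL.GNS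

/-- the representation -/
def rep : CK →⋆ₐ[ℂ] (HH →L[ℂ] HH) := LL.gnsStarAlgHom

/-- vectors of the Hilbert space coming from continuous functions -/
def vec (a : CK) : HH := ((LL.toPreGNS a : LL.PreGNS) : HH)

lemma rep_vec (a b : CK) : rep a (vec b) = vec (a * b) := by
  change LL.gnsNonUnitalStarAlgHom a ((LL.toPreGNS b : LL.PreGNS) : HH) = _
  rw [PositiveLinearMap.gnsNonUnitalStarAlgHom_apply_coe]
  rfl

lemma inner_vec (a b : CK) : inner ℂ (vec a) (vec b) = LL (star a * b) := by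
  unfold vec
  rw [UniformSpace.Completion.inner_coe]
  rfl

lemma vec_dense (x : HH) {ε : ℝ} (hε : 0 < ε) : ∃ a : CK, ‖x - vec a‖ < ε := by
  have h1 := UniformSpace.Completion.denseRange_coe (α := LL.PreGNS) x
  rw [Metric.mem_closure_iff] at h1
  obtain ⟨_, ⟨a, rfl⟩, ha⟩ := h1 ε hε
  refine ⟨LL.ofPreGNS a, ?_⟩
  rw [dist_eq_norm] at ha
  exact ha

lemma rep_norm (a : CK) : ‖rep a‖ ≤ ‖a‖ := NonUnitalStarAlgHom.norm_apply_le rep a

lemma rep_norm_apply (a : CK) (x : HH) : ‖rep a x‖ ≤ ‖a‖ * ‖x‖ :=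
  ((rep a).le_opNorm x).trans (mul_le_mul_of_nonneg_right (rep_norm a) (norm_nonneg _))

/-- the semigroup -/
def T (t : ℝ) : HH →L[ℂ] HH := rep (E t 0)

lemma T_zero : T 0 = 1 := by
  unfold T
  rw [E_zero, map_one]

lemma T_add (s t : ℝ) : T (s + t) = T s * T t := by
  unfold T
  rw [← map_mul, E_mul, add_zero]

lemma T_norm (t : ℝ) : ‖T t‖ ≤ 1 := (rep_norm _).trans (E_norm t 0)

lemma T_norm_apply (t : ℝ) (x : HH) : ‖T t x‖ ≤ ‖x‖ := by
  have h1 := (T t).le_opNorm x
  have h2 := T_norm t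
  nlinarith [norm_nonneg x]

/-- evaluation of the representation at a vector, as a continuous linear map -/
def repAt (x : HH) : CK →L[ℂ] HH :=
  LinearMap.mkContinuous
    { toFun := fun a => rep a x
      map_add' := by
        intro a b
        rw [map_add]
        rfl
      map_smul' := by
        intro c a
        rw [map_smul]
        rfl } ‖x‖ (by
      intro a
      rw [mul_comm]
      exact rep_norm_apply a x)

lemma repAt_apply (x : HH) (a : CK) : repAt x a = rep a x := rfl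

lemma T_cont (x : HH) : Continuous (fun t : ℝ => T t x) := (repAt x).continuous.comp (E_cont 0)

lemma T_weak_vec (a b : CK) : Tendsto (fun t : ℝ => inner ℂ (T t (vec a)) (vec b)) atTop (𝓝 0) := by
  refine (LL_decay_all (star a * b)).congr (fun t => ?_)
  unfold T
  rw [rep_vec, inner_vec, star_mul, E_star, neg_zero]
  congr 1
  ring

lemma T_weak (x y : HH) : Tendsto (fun t : ℝ => inner ℂ (T t x) y) atTop (𝓝 0) := by
  rw [Metric.tendsto_atTop]
  intro ε hε
  obtain ⟨a, ha⟩ := vec_dense x (show 0 < ε / (3 * (‖y‖ + 1)) by positivity)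
  obtain ⟨b, hb⟩ := vec_dense y (show 0 < ε / (3 * (‖vec a‖ + 1)) by positivity)
  have h1 := T_weak_vec a b
  rw [Metric.tendsto_atTop] at h1
  obtain ⟨N, hN⟩ := h1 (ε / 3) (by positivity)
  refine ⟨N, fun t ht => ?_⟩
  have h2 := hN t ht
  rw [dist_zero_right] at h2 ⊢
  have h3 : inner ℂ (T t x) y = inner ℂ (T t (x - vec a)) y + inner ℂ (T t (vec a)) (y - vec b) +
      inner ℂ (T t (vec a)) (vec b) := by
    rw [map_sub, inner_sub_left, inner_sub_right]
    ring
  rw [h3]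
  have h4 : ‖inner ℂ (T t (x - vec a)) y‖ ≤ ε / (3 * (‖y‖ + 1)) * ‖y‖ :=
    (norm_inner_le_norm _ _).trans (mul_le_mul_of_nonneg_right ((T_norm_apply _ _).trans ha.le) (norm_nonneg _))
  have h5 : ‖inner ℂ (T t (vec a)) (y - vec b)‖ ≤ ‖vec a‖ * (ε / (3 * (‖vec a‖ + 1))) :=
    (norm_inner_le_norm _ _).trans (mul_le_mul (T_norm_apply _ _) hb.le (norm_nonneg _) (norm_nonneg _))
  have h6 : ε / (3 * (‖y‖ + 1)) * ‖y‖ < ε / 3 := by
    rw [div_mul_eq_mul_div, div_lt_div_iff₀ (by positivity) (by norm_num)]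
    nlinarith [norm_nonneg y]
  have h7 : ‖vec a‖ * (ε / (3 * (‖vec a‖ + 1))) < ε / 3 := by
    rw [mul_div_assoc', div_lt_div_iff₀ (by positivity) (by norm_num)]
    nlinarith [norm_nonneg (vec a)]
  have h8 := norm_add₃_le (a := inner ℂ (T t (x - vec a)) y) (b := inner ℂ (T t (vec a)) (y - vec b))
    (c := inner ℂ (T t (vec a)) (vec b))
  linarith

lemma int_E : IntegrableOn (fun t : ℝ => ((Real.exp (-t) : ℝ) : ℂ) • E t 0) (Set.Ioi 0) := by
  have h1 : IntegrableOn (fun t : ℝ => Real.exp (-t)) (Set.Ioi 0) := integrableOn_exp_neg_Ioi 0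
  refine Integrable.mono' h1 ?_ ?_
  · apply Continuous.aestronglyMeasurable
    have := E_cont 0
    fun_prop
  · refine Eventually.of_forall (fun t => ?_)
    rw [norm_smul, Complex.norm_real, Real.norm_of_nonneg (Real.exp_pos _).le]
    exact mul_le_of_le_one_right (Real.exp_pos _).le (E_norm t 0)

/-- the resolvent multiplier -/
def RR : CK := ∫ t in Set.Ioi (0 : ℝ), ((Real.exp (-t) : ℝ) : ℂ) • E t 0

lemma RR_apply (x : K) : RR x = 1 / (1 - Complex.I * ((x : ℝ) : ℂ)) := by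
  have h1 := (ContinuousMap.evalCLM ℂ x).integral_comp_comm int_E
  simp only [ContinuousMap.evalCLM_apply] at h1
  unfold RR
  rw [← h1]
  have h2 : ∀ t : ℝ, (((Real.exp (-t) : ℝ) : ℂ) • E t 0) x =
      Complex.exp ((-(1 - Complex.I * ((x : ℝ) : ℂ))) * t) := by
    intro t
    rw [ContinuousMap.smul_apply, E_apply, smul_eq_mul, Complex.ofReal_exp, ← Complex.exp_add]
    congr 1
    push_cast
    ring
  simp_rw [h2]
  rw [integral_exp_mul_complex_Ioi (by simp) 0]
  simp only [Complex.ofReal_zero, mul_zero, Complex.exp_zero]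
  rw [neg_div_neg_eq]

lemma exp_phi (y : ℝ) : Complex.exp (Complex.I * ((phi y : ℝ) : ℂ)) =
    1 - 2 * (1 / (1 - Complex.I * (y : ℂ))) := by
  have hne : 1 - Complex.I * (y : ℂ) ≠ 0 := by
    intro hy
    have := congrArg Complex.re hy
    simp at this
  have hs : (0 : ℝ) < Real.sqrt (1 + y ^ 2) := Real.sqrt_pos.2 (by positivity)
  have hsC : ((Real.sqrt (1 + y ^ 2) : ℝ) : ℂ) ≠ 0 := by exact_mod_cast hs.ne'
  have hsq : ((Real.sqrt (1 + y ^ 2) : ℝ) : ℂ) ^ 2 = 1 + (y : ℂ) ^ 2 := by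
    rw [← Complex.ofReal_pow, Real.sq_sqrt (by positivity)]
    push_cast
    ring
  have h1 : Complex.exp (Complex.I * ((Real.arctan y : ℝ) : ℂ)) =
      (1 + Complex.I * (y : ℂ)) / ((Real.sqrt (1 + y ^ 2) : ℝ) : ℂ) := by
    rw [mul_comm, Complex.exp_mul_I, ← Complex.ofReal_cos, ← Complex.ofReal_sin, Real.cos_arctan,
      Real.sin_arctan]
    push_cast
    field_simp
  have h2 : Complex.exp (Complex.I * ((phi y : ℝ) : ℂ)) =
      -((Complex.exp (Complex.I * ((Real.arctan y : ℝ) : ℂ))) ^ 2) := by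
    have h3 : Complex.I * ((phi y : ℝ) : ℂ) = Real.pi * Complex.I +
        ((2 : ℕ) : ℂ) * (Complex.I * ((Real.arctan y : ℝ) : ℂ)) := by
      unfold phi
      push_cast
      ring
    rw [h3, Complex.exp_add, Complex.exp_pi_mul_I, Complex.exp_nat_mul]
    ring
  have hI := Complex.I_sq
  have hz : (1 : ℂ) + (y : ℂ) ^ 2 ≠ 0 := by
    rw [← hsq]
    exact pow_ne_zero 2 hsC
  rw [h2, h1, div_pow, hsq]
  field_simp
  linear_combination ((y : ℂ) ^ 2 + Complex.I * (y : ℂ) ^ 3) * hI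

lemma one_sub_RR : (1 : CK) - (2 : ℂ) • RR = E 0 1 := by
  ext x
  rw [ContinuousMap.sub_apply, ContinuousMap.smul_apply, RR_apply, ContinuousMap.one_apply, E_apply]
  have h1 : (0 * (x : ℝ) + ((1 : ℤ) : ℝ) * phi x) = phi x := by simp
  rw [h1, exp_phi, smul_eq_mul]

lemma cogen (z : HH) : z - (2 : ℂ) • ∫ t in Set.Ioi (0 : ℝ), ((Real.exp (-t) : ℝ) : ℂ) • T t z =
    rep (E 0 1) z := by
  have h1 := (repAt z).integral_comp_comm int_E
  have h2 : ∀ t : ℝ, repAt z (((Real.exp (-t) : ℝ) : ℂ) • E t 0) = ((Real.exp (-t) : ℝ) : ℂ) • T t z := by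
    intro t
    rw [map_smul]
    rfl
  simp_rw [h2] at h1
  rw [h1, ← one_sub_RR, map_sub, map_one, map_smul]
  rfl

lemma cogen_iter (n : ℕ) (z : HH) :
    (fun z : HH => z - (2 : ℂ) • ∫ t in Set.Ioi (0 : ℝ), ((Real.exp (-t) : ℝ) : ℂ) • T t z)^[n] z =
      rep (E 0 n) z := by
  induction n generalizing z with
  | zero =>
    simp only [Function.iterate_zero, id, Nat.cast_zero]
    rw [E_zero, map_one]
    rfl
  | succ n ih =>
    rw [Function.iterate_succ_apply, ih, cogen, ← mul_apply_eq_comp, ← map_mul, E_mul, add_zero]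
    norm_cast

lemma cogen_inner (n : ℕ) :
    inner ℂ ((fun z : HH => z - (2 : ℂ) • ∫ t in Set.Ioi (0 : ℝ), ((Real.exp (-t) : ℝ) : ℂ) • T t z)^[n]
      (vec 1)) (vec 1) = LL (E 0 (-(n : ℤ))) := by
  rw [cogen_iter, rep_vec, inner_vec, mul_one, mul_one, E_star, neg_zero]

lemma LL_big (j : ℕ) : 5 / 16 ≤ ‖LL (E 0 (-(nn (j + 1) : ℤ)))‖ := by
  have h1 := LL_E (j + 1) 0 (-(nn (j + 1) : ℤ)) (by simp)
  have h2 := big j
  have h3 : (1 / 2 : ℂ) = LL (E 0 (-(nn (j + 1) : ℤ))) -
      (LL (E 0 (-(nn (j + 1) : ℤ))) - II (rho (j + 1)) 0 (-(nn (j + 1) : ℤ))) -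
      (II (rho (j + 1)) 0 (-(nn (j + 1) : ℤ)) - 1 / 2) := by ring
  have h4 : ‖(1 / 2 : ℂ)‖ = 1 / 2 := by simp
  have h5 : (1 / 2 : ℝ) ≤ ‖LL (E 0 (-(nn (j + 1) : ℤ)))‖ +
      ‖LL (E 0 (-(nn (j + 1) : ℤ))) - II (rho (j + 1)) 0 (-(nn (j + 1) : ℤ))‖ +
      ‖II (rho (j + 1)) 0 (-(nn (j + 1) : ℤ)) - 1 / 2‖ := by
    rw [← h4]
    conv_lhs => rw [h3]
    exact (norm_sub_le _ _).trans (add_le_add (norm_sub_le _ _) le_rfl)
  have h6 : (1 : ℝ) / 2 ^ (j + 1 + 3) ≤ 1 / 16 := by
    apply one_div_le_one_div_of_le (by norm_num)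
    have : (2 : ℝ) ^ 4 ≤ 2 ^ (j + 1 + 3) := pow_le_pow_right₀ (by norm_num) (by omega)
    linarith
  linarith

lemma not_cogen_weak : ¬ Tendsto (fun n : ℕ =>
    inner ℂ ((fun z : HH => z - (2 : ℂ) • ∫ t in Set.Ioi (0 : ℝ), ((Real.exp (-t) : ℝ) : ℂ) • T t z)^[n]
      (vec 1)) (vec 1)) atTop (𝓝 0) := by
  intro h
  have h1 : Tendsto (fun j : ℕ => nn (j + 1)) atTop atTop :=
    nn_strictMono.tendsto_atTop.comp (tendsto_add_atTop_nat 1)
  have h2 := (h.comp h1).norm
  rw [norm_zero] at h2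
  have h3 := h2.eventually (gt_mem_nhds (show (0 : ℝ) < 5 / 16 by norm_num))
  obtain ⟨j, hj⟩ := h3.exists
  simp only [Function.comp] at hj
  rw [cogen_inner] at hj
  exact absurd (LL_big j) (not_le.2 hj)

end

/-- The negation of the preceding statement: For every contractive strongly continuous semigroup T on a complex Hilbert space with cogenerator V = I − 2∫₀^∞ e^{−t}T(t)dt, T(t)x → 0 weakly for all x iff Vⁿx → 0 weakly for all x. -/
theorem result :
    ¬ (∀ (H : Type) [NormedAddCommGroup H] [InnerProductSpace ℂ H] [CompleteSpace H]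
      (T : ℝ → H →L[ℂ] H),
      T 0 = 1 →
      (∀ s t : ℝ, 0 ≤ s → 0 ≤ t → T (s + t) = T s * T t) →
      (∀ x : H, ContinuousOn (fun t : ℝ => T t x) (Set.Ici 0)) →
      (∀ t : ℝ, 0 ≤ t → ‖T t‖ ≤ 1) →
      ((∀ x y : H, Tendsto (fun t : ℝ => inner ℂ (T t x) y) atTop (𝓝 0)) ↔
        (∀ x y : H, Tendsto (fun n : ℕ =>
            inner ℂ ((fun z : H => z - (2 : ℂ) •
              ∫ t in Set.Ioi (0 : ℝ), ((Real.exp (-t) : ℝ) : ℂ) • T t z)^[n] x) y)
            atTop (𝓝 0)))) := by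
  intro hall
  have h1 := (hall HH T T_zero (fun s t _ _ => T_add s t) (fun x => (T_cont x).continuousOn)
    (fun t _ => T_norm t)).1 T_weak (vec 1) (vec 1)
  exact not_cogen_weak h1

end Pool.Agent.S03836
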