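import Pool.Statements.S03839

set_option autoImplicit false
open Classical
open scoped ENNReal NNReal
open Pool Pool.MP_af6564_an

namespace Pool.Agent.S03839

/-! Proof idea. Replace the squared coefficients by integer multiplicities `n J` whose normalised
Carleson sums are at most `N`, and split this multiset into `N` plain families (layers), the
`i`-th one collecting the `J` for which the running total of multiplicities along the chain of
ancestors of `J` passes a number congruent to `-i` modulo `N` at `J`. Each layer has Carleson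
constant at most `2`, so its image has Carleson constant at most `2K`, and averaging the layers
bounds the rearranged Carleson norm by `2K` times the original one. -/

abbrev D := {p : ℕ × ℕ // p.2 < 2 ^ p.1}

/-- `J` is contained in `I`. -/
def SubI (J I : D) : Prop := I.1.1 ≤ J.1.1 ∧ J.1.2 / 2 ^ (J.1.1 - I.1.1) = I.1.2

def ch (I : D) (c : Fin 2) : D := ⟨(I.1.1 + 1, 2 * I.1.2 + c.1), by
  have h := I.2
  have h2 := c.2
  simp only [pow_succ]; omega⟩

lemma sub_of_lt {J I : D} (h : J.1.1 < I.1.1) : ¬ SubI J I := fun h' => by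
  have := h'.1; omega

lemma ite_split (J I : D) (x : ℝ) :
    (if SubI J I then x else 0) = (if J = I then x else 0) +
      ((if SubI J (ch I 0) then x else 0) + (if SubI J (ch I 1) then x else 0)) := by
  rcases lt_trichotomy J.1.1 I.1.1 with h | h | h
  · have h1 : ¬ SubI J I := sub_of_lt h
    have h2 : ¬ J = I := by rintro rfl; omega
    have h3 : ∀ c, ¬ SubI J (ch I c) := fun c => sub_of_lt (by simp only [ch]; omega)
    simp [h1, h2, h3]
  · have h3 : ∀ c, ¬ SubI J (ch I c) := fun c => sub_of_lt (by simp only [ch]; omega)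
    have h4 : SubI J I ↔ J = I := by
      unfold SubI
      rw [h]
      simp only [le_refl, Nat.sub_self, pow_zero, Nat.div_one, true_and]
      constructor
      · intro h5
        exact Subtype.ext (Prod.ext h h5)
      · rintro rfl; rfl
    simp [h3, h4]
  · have h2 : ¬ J = I := by rintro rfl; omega
    obtain ⟨d, hd⟩ : ∃ d, J.1.1 = I.1.1 + 1 + d := ⟨J.1.1 - (I.1.1 + 1), by omega⟩
    have e1 : J.1.1 - I.1.1 = d + 1 := by omega
    have e2 : J.1.1 - (I.1.1 + 1) = d := by omega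
    have key : ∀ c : Fin 2, SubI J (ch I c) ↔ J.1.2 / 2 ^ d = 2 * I.1.2 + c.1 := by
      intro c
      unfold SubI ch
      simp only
      rw [e2]
      constructor
      · exact fun h => h.2
      · exact fun h => ⟨by omega, h⟩
    have key2 : SubI J I ↔ J.1.2 / 2 ^ d / 2 = I.1.2 := by
      unfold SubI
      rw [e1, pow_succ, Nat.div_div_eq_div_mul]
      constructor
      · exact fun h => h.2
      · exact fun h => ⟨by omega, h⟩
    simp only [key, key2, h2, if_false, zero_add]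
    set q := J.1.2 / 2 ^ d
    have h0 : ((0 : Fin 2) : ℕ) = 0 := rfl
    have h1 : ((1 : Fin 2) : ℕ) = 1 := rfl
    rw [h0, h1]
    by_cases hq : q / 2 = I.1.2
    · rw [if_pos hq]
      rcases Nat.mod_two_eq_zero_or_one q with hm | hm
      · rw [if_pos (by omega), if_neg (by omega)]; ring
      · rw [if_neg (by omega), if_pos (by omega)]; ring
    · rw [if_neg hq, if_neg (by omega), if_neg (by omega)]; ring

/-- normalised sum below `I`, with rearrangement `σ`. -/
noncomputable def A (σ : D → D) (S : Finset D) (w : D → ℝ) (I : D) : ℝ :=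
  (2:ℝ) ^ I.1.1 * ∑ J ∈ S, (if SubI (σ J) I then w J / (2:ℝ) ^ (σ J).1.1 else 0)

lemma A_rec (σ : D → D) (S : Finset D) (w : D → ℝ) (I : D) :
    A σ S w I = (∑ J ∈ S, if σ J = I then w J else 0) +
      (A σ S w (ch I 0) + A σ S w (ch I 1)) / 2 := by
  unfold A
  have e0 : (ch I 0).1.1 = I.1.1 + 1 := rfl
  have e1 : (ch I 1).1.1 = I.1.1 + 1 := rfl
  rw [e0, e1, Finset.sum_congr rfl (fun J _ => ite_split (σ J) I (w J / (2:ℝ) ^ (σ J).1.1))]
  rw [Finset.sum_add_distrib, Finset.sum_add_distrib, mul_add, mul_add, Finset.mul_sum]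
  have : ∀ J ∈ S, (2:ℝ) ^ I.1.1 * (if σ J = I then w J / (2:ℝ) ^ (σ J).1.1 else 0)
      = if σ J = I then w J else 0 := by
    intro J _
    split_ifs with h
    · rw [h]; field_simp
    · simp
  rw [Finset.sum_congr rfl this]
  ring

lemma A_deep (σ : D → D) (S : Finset D) (w : D → ℝ) :
    ∃ L : ℕ, ∀ I : D, L ≤ I.1.1 → A σ S w I = 0 := by
  refine ⟨S.sup (fun J => (σ J).1.1) + 1, fun I hI => ?_⟩
  unfold A
  rw [Finset.sum_eq_zero, mul_zero]
  intro J hJ
  have h1 : (σ J).1.1 ≤ S.sup (fun J => (σ J).1.1) := Finset.le_sup (f := fun J => (σ J).1.1) hJ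
  rw [if_neg (sub_of_lt (by omega))]

lemma D_induct (P : D → Prop) (L : ℕ) (h0 : ∀ I : D, L ≤ I.1.1 → P I)
    (h1 : ∀ I : D, P (ch I 0) → P (ch I 1) → P I) : ∀ I, P I := by
  have : ∀ m : ℕ, ∀ I : D, L ≤ I.1.1 + m → P I := by
    intro m
    induction m with
    | zero => intro I hI; exact h0 I (by simpa using hI)
    | succ m ih =>
      intro I hI
      exact h1 I (ih _ (by simp only [ch]; omega)) (ih _ (by simp only [ch]; omega))
  intro I
  exact this L I (by omega)

/-- bounded on the members implies bounded everywhere -/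
lemma A_bound (σ : D → D) (S : Finset D) (M : ℝ) (hM : 0 ≤ M)
    (h : ∀ J ∈ S, A σ S (fun _ => 1) (σ J) ≤ M) (I : D) : A σ S (fun _ => 1) I ≤ M := by
  obtain ⟨L, hL⟩ := A_deep σ S (fun _ => 1)
  refine D_induct (fun I => A σ S (fun _ => 1) I ≤ M) L (fun I hI => by rw [hL I hI]; exact hM) ?_ I
  intro I h0 h1
  by_cases hI : ∃ J ∈ S, σ J = I
  · obtain ⟨J, hJ, rfl⟩ := hI
    exact h J hJ
  · rw [A_rec, Finset.sum_eq_zero]
    · linarith
    · intro J hJ
      rw [if_neg (fun h => hI ⟨J, hJ, h⟩)]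


lemma A_congr (σ : D → D) (S : Finset D) (w w' : D → ℝ) (h : ∀ J ∈ S, w J = w' J) (I : D) :
    A σ S w I = A σ S w' I := by
  unfold A
  congr 1
  refine Finset.sum_congr rfl (fun J hJ => ?_)
  rw [h J hJ]

lemma A_mono (σ : D → D) (S : Finset D) (w w' : D → ℝ) (h : ∀ J ∈ S, w J ≤ w' J) (I : D) :
    A σ S w I ≤ A σ S w' I := by
  unfold A
  refine mul_le_mul_of_nonneg_left (Finset.sum_le_sum (fun J hJ => ?_)) (by positivity)
  split_ifs
  · exact div_le_div_of_nonneg_right (h J hJ) (by positivity)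
  · exact le_rfl

lemma A_nonneg (σ : D → D) (S : Finset D) (w : D → ℝ) (h : ∀ J ∈ S, 0 ≤ w J) (I : D) :
    0 ≤ A σ S w I := by
  unfold A
  refine mul_nonneg (by positivity) (Finset.sum_nonneg (fun J hJ => ?_))
  split_ifs
  · exact div_nonneg (h J hJ) (by positivity)
  · exact le_rfl

lemma A_own (σ : D → D) (S : Finset D) (w : D → ℝ) (h : ∀ J ∈ S, 0 ≤ w J) (J : D) (hJ : J ∈ S) :
    w J ≤ A σ S w (σ J) := by
  have hs : SubI (σ J) (σ J) := by
    unfold SubI; simp
  have h2 : (if SubI (σ J) (σ J) then w J / (2:ℝ) ^ (σ J).1.1 else 0) ≤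
      ∑ J' ∈ S, (if SubI (σ J') (σ J) then w J' / (2:ℝ) ^ (σ J').1.1 else 0) := by
    refine Finset.single_le_sum
      (f := fun J' => (if SubI (σ J') (σ J) then w J' / (2:ℝ) ^ (σ J').1.1 else 0)) ?_ hJ
    intro J' hJ'
    split_ifs
    · exact div_nonneg (h J' hJ') (by positivity)
    · exact le_rfl
  rw [if_pos hs] at h2
  unfold A
  have h3 : (0:ℝ) < 2 ^ (σ J).1.1 := by positivity
  calc w J = (2:ℝ) ^ (σ J).1.1 * (w J / (2:ℝ) ^ (σ J).1.1) := by field_simp
    _ ≤ _ := mul_le_mul_of_nonneg_left h2 h3.le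

lemma A_smul (σ : D → D) (S : Finset D) (w : D → ℝ) (c : ℝ) (I : D) :
    A σ S (fun J => c * w J) I = c * A σ S w I := by
  unfold A
  rw [mul_left_comm, Finset.mul_sum S _ c]
  congr 1
  refine Finset.sum_congr rfl (fun J _ => ?_)
  split_ifs
  · ring
  · ring

lemma A_add (σ : D → D) (S : Finset D) (w w' : D → ℝ) (I : D) :
    A σ S (fun J => w J + w' J) I = A σ S w I + A σ S w' I := by
  unfold A
  rw [← mul_add, ← Finset.sum_add_distrib]
  congr 1
  refine Finset.sum_congr rfl (fun J _ => ?_)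
  split_ifs
  · ring
  · ring

/-- strict containment of a child. -/
lemma sub_ch_iff (I K : D) (c : Fin 2) : (SubI (ch I c) K ∧ K ≠ ch I c) ↔ SubI I K := by
  have hc := c.2
  constructor
  · rintro ⟨h1, h2⟩
    rcases Nat.lt_or_ge I.1.1 K.1.1 with h | h
    · exfalso
      have h3 : K.1.1 = I.1.1 + 1 := by
        have : K.1.1 ≤ I.1.1 + 1 := h1.1
        omega
      apply h2
      have h4 := h1.2
      simp only [ch, h3, Nat.sub_self, pow_zero, Nat.div_one] at h4
      refine Subtype.ext (Prod.ext ?_ ?_)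
      · simp only [ch]; exact h3
      · simp only [ch]; exact h4.symm
    · refine ⟨h, ?_⟩
      have h4 := h1.2
      simp only [ch] at h4
      have e : I.1.1 + 1 - K.1.1 = (I.1.1 - K.1.1) + 1 := by omega
      rw [e, pow_succ', ← Nat.div_div_eq_div_mul] at h4
      rw [← h4]
      congr 1
      omega
  · intro h
    have hle : K.1.1 ≤ I.1.1 := h.1
    refine ⟨⟨by simp only [ch]; omega, ?_⟩, ?_⟩
    · simp only [ch]
      have e : I.1.1 + 1 - K.1.1 = (I.1.1 - K.1.1) + 1 := by omega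
      rw [e, pow_succ', ← Nat.div_div_eq_div_mul, ← h.2]
      congr 1
      omega
    · rintro rfl
      simp only [ch] at hle
      omega

/-- total multiplicity strictly above `I`. -/
noncomputable def g (σ : Equiv.Perm D) (S : Finset D) (n : D → ℕ) (I : D) : ℕ :=
  ∑ J ∈ S, (if SubI I (σ J) ∧ σ J ≠ I then n J else 0)

lemma sum_own (σ : Equiv.Perm D) (S : Finset D) (n : D → ℕ) (hn : ∀ J, J ∉ S → n J = 0) (I : D) :
    (∑ J ∈ S, (if σ J = I then n J else 0)) = n (σ.symm I) := by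
  rw [Finset.sum_congr rfl (g := fun J => if J = σ.symm I then n J else 0)]
  · rw [Finset.sum_ite_eq']
    split_ifs with h
    · rfl
    · exact (hn _ h).symm
  · intro J _
    simp only [Equiv.eq_symm_apply]

lemma g_ch (σ : Equiv.Perm D) (S : Finset D) (n : D → ℕ) (hn : ∀ J, J ∉ S → n J = 0)
    (I : D) (c : Fin 2) : g σ S n (ch I c) = g σ S n I + n (σ.symm I) := by
  rw [← sum_own σ S n hn I]
  unfold g
  rw [← Finset.sum_add_distrib]
  refine Finset.sum_congr rfl (fun J _ => ?_)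
  rw [if_congr (sub_ch_iff I (σ J) c) rfl rfl]
  by_cases h : σ J = I
  · have : SubI I (σ J) := by rw [h]; unfold SubI; simp
    simp [h]
    rw [h] at this
    intro h'
    exact absurd this h'
  · simp [h]

lemma hermite (N : ℕ) (hN : 0 < N) (m : ℕ) : ∑ i ∈ Finset.range N, (m + i) / N = m := by
  induction m with
  | zero =>
    apply Finset.sum_eq_zero
    intro i hi
    rw [Nat.zero_add]
    exact Nat.div_eq_of_lt (Finset.mem_range.1 hi)
  | succ m ih =>
    have h1 := Finset.sum_range_succ (fun i => (m + i) / N) N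
    have h2 := Finset.sum_range_succ' (fun i => (m + i) / N) N
    rw [h1, ih] at h2
    have h3 : (m + N) / N = m / N + 1 := Nat.add_div_right m hN
    have h4 : ∑ i ∈ Finset.range N, (m + 1 + i) / N = ∑ i ∈ Finset.range N, (m + (i + 1)) / N := by
      refine Finset.sum_congr rfl (fun i _ => ?_)
      congr 1; omega
    rw [h4]
    simp only [Nat.add_zero] at h2
    omega

/-- the `i`-th layer -/
noncomputable def layer (σ : Equiv.Perm D) (S : Finset D) (n : D → ℕ) (N i : ℕ) : Finset D :=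
  S.filter (fun J => (g σ S n (σ J) + i) / N < (g σ S n (σ J) + n J + i) / N)

lemma layer_bound (σ : Equiv.Perm D) (S : Finset D) (n : D → ℕ) (hn : ∀ J, J ∉ S → n J = 0)
    (N : ℕ) (hN : 0 < N) (i : ℕ) (I : D) :
    A σ (layer σ S n N i) (fun _ => 1) I ≤ (A σ S (fun J => (n J : ℝ)) I) / N +
      (((g σ S n I : ℝ) + i) / N - (((g σ S n I + i) / N : ℕ) : ℝ)) := by
  obtain ⟨L1, hL1⟩ := A_deep σ (layer σ S n N i) (fun _ => 1)
  have hNr : (0:ℝ) < N := by exact_mod_cast hN
  refine D_induct (fun I => A σ (layer σ S n N i) (fun _ => 1) I ≤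
    (A σ S (fun J => (n J : ℝ)) I) / N +
      (((g σ S n I : ℝ) + i) / N - (((g σ S n I + i) / N : ℕ) : ℝ))) L1 ?_ ?_ I
  · intro I hI
    rw [hL1 I hI]
    have h1 : 0 ≤ A σ S (fun J => (n J : ℝ)) I := A_nonneg _ _ _ (fun _ _ => by positivity) _
    have h2 : (((g σ S n I + i) / N : ℕ) : ℝ) ≤ ((g σ S n I : ℝ) + i) / N := by
      have := @Nat.cast_div_le ℝ _ _ _ (g σ S n I + i) N
      simpa using this
    have h3 : 0 ≤ A σ S (fun J => (n J : ℝ)) I / N := by positivity
    linarith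
  · intro I h0 h1
    rw [g_ch σ S n hn] at h0 h1
    rw [A_rec σ (layer σ S n N i), A_rec σ S]
    set ν := n (σ.symm I) with hν
    have own1 : (∑ J ∈ S, if σ J = I then (n J : ℝ) else 0) = (ν : ℝ) := by
      have := sum_own σ S n hn I
      rw [hν, ← this]
      push_cast
      rfl
    have own2 : (∑ J ∈ layer σ S n N i, if σ J = I then (1 : ℝ) else 0) ≤
        (((g σ S n I + ν + i) / N : ℕ) : ℝ) - (((g σ S n I + i) / N : ℕ) : ℝ) := by
      have hmono : (g σ S n I + i) / N ≤ (g σ S n I + ν + i) / N :=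
        Nat.div_le_div_right (by omega)
      have e : (∑ J ∈ layer σ S n N i, if σ J = I then (1 : ℝ) else 0) =
          if σ.symm I ∈ layer σ S n N i then 1 else 0 := by
        rw [Finset.sum_congr rfl (g := fun J => if J = σ.symm I then (1:ℝ) else 0)]
        · rw [Finset.sum_ite_eq']
        · intro J _
          simp only [Equiv.eq_symm_apply]
      rw [e]
      split_ifs with h
      · have h' := (Finset.mem_filter.1 h).2
        rw [Equiv.apply_symm_apply] at h'
        have : (g σ S n I + i) / N + 1 ≤ (g σ S n I + ν + i) / N := h'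
        have h2 : (((g σ S n I + i) / N + 1 : ℕ) : ℝ) ≤ (((g σ S n I + ν + i) / N : ℕ) : ℝ) := by
          exact_mod_cast this
        push_cast at h2 ⊢
        linarith
      · have h2 : (((g σ S n I + i) / N : ℕ) : ℝ) ≤ (((g σ S n I + ν + i) / N : ℕ) : ℝ) := by
          exact_mod_cast hmono
        linarith
    rw [own1]
    push_cast at h0 h1 own2 ⊢
    have e1 : ((g σ S n I : ℝ) + ν + i) / N = ((g σ S n I : ℝ) + i) / N + ν / N := by ring
    rw [e1] at h0 h1
    have e2 : ((ν:ℝ) + (A σ S (fun J => (n J : ℝ)) (ch I 0) + A σ S (fun J => (n J : ℝ)) (ch I 1)) / 2) / N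
      = ν / N + (A σ S (fun J => (n J : ℝ)) (ch I 0) / N + A σ S (fun J => (n J : ℝ)) (ch I 1) / N) / 2 := by
      ring
    rw [e2]
    linarith

lemma layer_le_two (σ : Equiv.Perm D) (S : Finset D) (n : D → ℕ) (hn : ∀ J, J ∉ S → n J = 0)
    (N : ℕ) (hN : 0 < N) (i : ℕ) (hA : ∀ I, A σ S (fun J => (n J : ℝ)) I ≤ N) (I : D) :
    A σ (layer σ S n N i) (fun _ => 1) I ≤ 2 := by
  have hNr : (0:ℝ) < N := by exact_mod_cast hN
  have h1 := layer_bound σ S n hn N hN i I
  have h2 : A σ S (fun J => (n J : ℝ)) I / N ≤ 1 := by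
    rw [div_le_one hNr]; exact hA I
  have h3 : ((g σ S n I : ℝ) + i) / N - (((g σ S n I + i) / N : ℕ) : ℝ) ≤ 1 := by
    have h4 := Nat.div_add_mod (g σ S n I + i) N
    have h5 := Nat.mod_lt (g σ S n I + i) hN
    have h6 : ((N : ℝ) * (((g σ S n I + i) / N : ℕ) : ℝ) + (((g σ S n I + i) % N : ℕ) : ℝ)) =
        (g σ S n I : ℝ) + i := by exact_mod_cast h4
    have h7 : (((g σ S n I + i) % N : ℕ) : ℝ) ≤ N := by exact_mod_cast h5.le
    rw [sub_le_iff_le_add, div_le_iff₀ hNr]
    nlinarith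
  linarith

lemma layer_count (σ : Equiv.Perm D) (S : Finset D) (n : D → ℕ)
    (N : ℕ) (hN : 0 < N) (hle : ∀ J, n J ≤ N) (J : D) (hJ : J ∈ S) :
    n J ≤ ∑ i ∈ Finset.range N, (if J ∈ layer σ S n N i then 1 else 0) := by
  have h1 := hermite N hN (g σ S n (σ J) + n J)
  have h2 := hermite N hN (g σ S n (σ J))
  have h3 : ∑ i ∈ Finset.range N, (g σ S n (σ J) + n J + i) / N ≤
      ∑ i ∈ Finset.range N, ((g σ S n (σ J) + i) / N + (if J ∈ layer σ S n N i then 1 else 0)) := by
    refine Finset.sum_le_sum (fun i _ => ?_)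
    have h4 : (g σ S n (σ J) + n J + i) / N ≤ (g σ S n (σ J) + i) / N + 1 := by
      have : (g σ S n (σ J) + n J + i) ≤ (g σ S n (σ J) + i) + N := by have := hle J; omega
      calc (g σ S n (σ J) + n J + i) / N ≤ ((g σ S n (σ J) + i) + N) / N := Nat.div_le_div_right this
        _ = _ := Nat.add_div_right _ hN
    split_ifs with h
    · exact h4
    · have : ¬ ((g σ S n (σ J) + i) / N < (g σ S n (σ J) + n J + i) / N) := fun h' =>
        h (Finset.mem_filter.2 ⟨hJ, h'⟩)
      omega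
  rw [Finset.sum_add_distrib, h1, h2] at h3
  omega

/-- transference -/
lemma transfer (σ τ : Equiv.Perm D) (K : ℝ)
    (h : ∀ S : Finset D, (∀ I, A σ S (fun _ => 1) I ≤ 2) → ∀ I, A τ S (fun _ => 1) I ≤ K * 2)
    (S : Finset D) (w : D → ℝ) (hw : ∀ J, 0 ≤ w J) (hw0 : ∀ J, J ∉ S → w J = 0) (M : ℝ)
    (hM : ∀ I, A σ S w I ≤ M) (I : D) : A τ S w I ≤ 2 * K * M := by
  have hwM : ∀ J, w J ≤ M := by
    intro J
    by_cases hJ : J ∈ S
    · exact (A_own σ S w (fun J _ => hw J) J hJ).trans (hM _)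
    · rw [hw0 J hJ]
      exact (A_nonneg σ S w (fun J _ => hw J) I).trans (hM I)
  have hM0 : 0 ≤ M := (A_nonneg σ S w (fun J _ => hw J) I).trans (hM I)
  have main : ∀ N : ℕ, 0 < N → A τ S w I ≤ 2 * K * M + M / N * A τ S (fun _ => 1) I := by
    intro N hN
    have hNr : (0:ℝ) < N := by exact_mod_cast hN
    set n : D → ℕ := fun J => ⌊N * w J / M⌋₊ with hn
    have hn0 : ∀ J, J ∉ S → n J = 0 := by
      intro J hJ
      simp [hn, hw0 J hJ]
    have hnle : ∀ J, (n J : ℝ) ≤ N * w J / M := by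
      intro J
      refine Nat.floor_le ?_
      have := hw J
      positivity
    have hnN : ∀ J, n J ≤ N := by
      intro J
      have h1 : (n J : ℝ) ≤ N := by
        refine (hnle J).trans ?_
        refine div_le_of_le_mul₀ hM0 hNr.le ?_
        exact mul_le_mul_of_nonneg_left (hwM J) hNr.le
      exact_mod_cast h1
    have hw_le : ∀ J, w J ≤ M / N * ((n J : ℝ) + 1) := by
      intro J
      rcases hM0.eq_or_lt with h0 | h0
      · have := hwM J
        rw [← h0] at this ⊢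
        simpa using this
      · have h1 : N * w J / M < (n J : ℝ) + 1 := Nat.lt_floor_add_one _
        have h2 : w J = M / N * (N * w J / M) := by field_simp
        calc w J = M / N * (N * w J / M) := h2
          _ ≤ _ := mul_le_mul_of_nonneg_left h1.le (by positivity)
    have hAn : ∀ I, A σ S (fun J => (n J : ℝ)) I ≤ N := by
      intro I
      have h1 : A σ S (fun J => (n J : ℝ)) I ≤ A σ S (fun J => N / M * w J) I :=
        A_mono _ _ _ _ (fun J _ => by have := hnle J; rw [div_mul_eq_mul_div]; exact this) _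
      have h2 : A σ S (fun J => N / M * w J) I = N / M * A σ S w I := A_smul _ _ _ _ _
      rw [h2] at h1
      refine h1.trans ?_
      rcases hM0.eq_or_lt with h0 | h0
      · rw [← h0]; simp
      · calc (N:ℝ) / M * A σ S w I ≤ N / M * M := mul_le_mul_of_nonneg_left (hM I) (by positivity)
          _ = N := by field_simp
    have hlay : ∀ i, A τ (layer σ S n N i) (fun _ => 1) I ≤ K * 2 := fun i =>
      h _ (layer_le_two σ S n hn0 N hN i hAn) I
    have hsum : A τ S (fun J => (n J : ℝ)) I ≤ ∑ i ∈ Finset.range N, A τ (layer σ S n N i) (fun _ => 1) I := by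
      have e1 : ∀ i, A τ (layer σ S n N i) (fun _ => 1) I =
          A τ S (fun J => if J ∈ layer σ S n N i then 1 else 0) I := by
        intro i
        unfold A
        congr 1
        have hsub : layer σ S n N i ⊆ S := Finset.filter_subset _ _
        rw [← Finset.sum_subset hsub]
        · refine Finset.sum_congr rfl (fun J hJ => ?_)
          simp only [hJ, if_true]
        · intro J _ hJ
          simp only [hJ, if_false, zero_div, ite_self]
      rw [Finset.sum_congr rfl (fun i _ => e1 i)]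
      have e2 : ∑ i ∈ Finset.range N, A τ S (fun J => if J ∈ layer σ S n N i then 1 else 0) I =
          A τ S (fun J => ∑ i ∈ Finset.range N, if J ∈ layer σ S n N i then (1:ℝ) else 0) I := by
        unfold A
        rw [← Finset.mul_sum, Finset.sum_comm]
        congr 1
        refine Finset.sum_congr rfl (fun J _ => ?_)
        split_ifs
        · rw [Finset.sum_div]
        · simp
      rw [e2]
      refine A_mono _ _ _ _ (fun J hJ => ?_) _
      have := layer_count σ S n N hN hnN J hJ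
      have h3 : (n J : ℝ) ≤ ((∑ i ∈ Finset.range N, (if J ∈ layer σ S n N i then 1 else 0) : ℕ) : ℝ) := by
        exact_mod_cast this
      push_cast at h3
      exact h3
    have hsum2 : A τ S (fun J => (n J : ℝ)) I ≤ N * (K * 2) := by
      refine hsum.trans ((Finset.sum_le_sum (fun i _ => hlay i)).trans ?_)
      simp
    calc A τ S w I ≤ A τ S (fun J => M / N * ((n J : ℝ) + 1)) I := A_mono _ _ _ _ (fun J _ => hw_le J) _
      _ = M / N * (A τ S (fun J => (n J : ℝ)) I + A τ S (fun _ => 1) I) := by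
          rw [A_smul, A_add]
      _ ≤ M / N * (N * (K * 2) + A τ S (fun _ => 1) I) := by
          refine mul_le_mul_of_nonneg_left ?_ (by positivity)
          linarith
      _ = 2 * K * M + M / N * A τ S (fun _ => 1) I := by
          field_simp
  set c := A τ S (fun _ => 1) I
  have hlim : Filter.Tendsto (fun N : ℕ => 2 * K * M + M / (N : ℝ) * c) Filter.atTop
      (nhds (2 * K * M + 0 * c)) := by
    refine Filter.Tendsto.add tendsto_const_nhds (Filter.Tendsto.mul_const c ?_)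
    exact tendsto_const_div_atTop_nhds_zero_nat M
  have := ge_of_tendsto hlim (Filter.eventually_atTop.2 ⟨1, fun N hN => main N hN⟩)
  linarith


/-- the Carleson constant of the image of `B` under `σ`. -/
noncomputable def T (B : Set D) (I : D) : ℝ≥0∞ :=
  (2:ℝ≥0∞) ^ I.1.1 * ∑' J : D,
    (if J ∈ B ∧ I.1.1 ≤ J.1.1 ∧ J.1.2 / 2 ^ (J.1.1 - I.1.1) = I.1.2
      then ((2:ℝ≥0∞) ^ J.1.1)⁻¹ else 0)

lemma T_fin (σ : Equiv.Perm D) (S : Finset D) (I : D) :
    T (σ '' (S : Set D)) I = ENNReal.ofReal (A σ S (fun _ => 1) I) := by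
  unfold T A
  rw [ENNReal.ofReal_mul (by positivity), ENNReal.ofReal_pow (by norm_num)]
  have h2 : ENNReal.ofReal 2 = 2 := by norm_num
  rw [h2]
  congr 1
  rw [ENNReal.ofReal_sum_of_nonneg]
  · rw [tsum_eq_sum (s := S.map σ.toEmbedding)]
    · rw [Finset.sum_map]
      refine Finset.sum_congr rfl (fun J hJ => ?_)
      simp only [Equiv.toEmbedding_apply]
      by_cases h : SubI (σ J) I
      · have h' : σ J ∈ σ '' (S : Set D) ∧ I.1.1 ≤ (σ J).1.1 ∧
            (σ J).1.2 / 2 ^ ((σ J).1.1 - I.1.1) = I.1.2 :=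
          ⟨⟨J, hJ, rfl⟩, h.1, h.2⟩
        rw [if_pos h', if_pos h, one_div, ENNReal.ofReal_inv_of_pos (by positivity),
          ENNReal.ofReal_pow (by norm_num), h2]
      · have h' : ¬ (σ J ∈ σ '' (S : Set D) ∧ I.1.1 ≤ (σ J).1.1 ∧
            (σ J).1.2 / 2 ^ ((σ J).1.1 - I.1.1) = I.1.2) := fun h' => h ⟨h'.2.1, h'.2.2⟩
        rw [if_neg h', if_neg h, ENNReal.ofReal_zero]
    · intro J hJ
      rw [if_neg]
      rintro ⟨⟨J', hJ', rfl⟩, -⟩
      exact hJ (Finset.mem_map.2 ⟨J', hJ', rfl⟩)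
  · intro J _
    split_ifs
    · positivity
    · exact le_rfl

lemma T_mono {B B' : Set D} (h : B ⊆ B') (I : D) : T B I ≤ T B' I := by
  unfold T
  refine mul_le_mul_right ?_ _
  refine ENNReal.tsum_le_tsum (fun J => ?_)
  split_ifs with h1 h2 h2
  · exact le_rfl
  · exact absurd ⟨h h1.1, h1.2⟩ h2
  · exact zero_le
  · exact le_rfl

/-- `T` is a supremum over finite subfamilies. -/
lemma T_sup (B : Set D) (I : D) (c : ℝ≥0∞) (h : ∀ S : Finset D, (S : Set D) ⊆ B → T (S : Set D) I ≤ c) :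
    T B I ≤ c := by
  unfold T
  rw [ENNReal.tsum_eq_iSup_sum, ENNReal.mul_iSup]
  refine iSup_le (fun F => ?_)
  refine le_trans ?_ (h (F.filter (· ∈ B)) (by intro J hJ; simpa using (Finset.mem_filter.1 hJ).2))
  unfold T
  refine mul_le_mul_right ?_ _
  refine le_trans ?_ (ENNReal.sum_le_tsum F)
  refine Finset.sum_le_sum (fun J hJ => ?_)
  split_ifs with h1 h2 h2
  · exact le_rfl
  · refine absurd ⟨?_, h1.2⟩ h2
    simp only [Finset.coe_filter, Set.mem_ofPred_eq]
    exact ⟨hJ, h1.1⟩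
  · exact zero_le
  · exact le_rfl

/-- from the operator bound to the Carleson constants. -/
lemma forward (σ τ : Equiv.Perm D) (C : ℝ) (hC : 0 < C)
    (h : ∀ (S : Finset D) (M : ℝ), (∀ I, A σ S (fun _ => 1) I ≤ M) → ∀ I, A τ S (fun _ => 1) I ≤ C * M)
    (B : Set D) : (⨆ I ∈ τ '' B, T (τ '' B) I) ≤ ENNReal.ofReal C * (⨆ I ∈ σ '' B, T (σ '' B) I) := by
  set c := (⨆ I ∈ σ '' B, T (σ '' B) I) with hc
  by_cases htop : c = ⊤
  · rw [htop, ENNReal.mul_top]
    · exact le_top
    · simpa using hC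
  refine iSup₂_le (fun I _ => T_sup _ _ _ (fun F hF => ?_))
  set S : Finset D := F.map τ.symm.toEmbedding with hS
  have hFS : (F : Set D) = τ '' (S : Set D) := by
    rw [hS, Finset.coe_map]
    ext x
    simp
  have hSB : (S : Set D) ⊆ B := by
    intro x hx
    have h1 : τ x ∈ (F : Set D) := by rw [hFS]; exact ⟨x, hx, rfl⟩
    obtain ⟨y, hy, hxy⟩ := hF h1
    rwa [← τ.injective hxy]
  rw [hFS, T_fin]
  have hM : ∀ I, A σ S (fun _ => 1) I ≤ c.toReal := by
    refine A_bound σ S _ ENNReal.toReal_nonneg (fun J hJ => ?_)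
    rw [← ENNReal.ofReal_le_iff_le_toReal htop, ← T_fin]
    refine (T_mono (Set.image_mono hSB) _).trans ?_
    exact le_iSup₂ (f := fun I (_ : I ∈ σ '' B) => T (σ '' B) I) (σ J) ⟨J, hSB hJ, rfl⟩
  have h2 := h S c.toReal hM I
  calc ENNReal.ofReal (A τ S (fun _ => 1) I) ≤ ENNReal.ofReal (C * c.toReal) :=
        ENNReal.ofReal_le_ofReal h2
    _ = ENNReal.ofReal C * c := by
        rw [ENNReal.ofReal_mul hC.le, ENNReal.ofReal_toReal htop]

/-- from the Carleson constants to the operator bound. -/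
lemma backward (σ τ : Equiv.Perm D) (K : ℝ≥0)
    (h : ∀ B : Set D, (⨆ I ∈ τ '' B, T (τ '' B) I) ≤ (K : ℝ≥0∞) * (⨆ I ∈ σ '' B, T (σ '' B) I))
    (S : Finset D) (w : D → ℝ) (hw : ∀ J, 0 ≤ w J) (hw0 : ∀ J, J ∉ S → w J = 0) (M : ℝ)
    (hM : ∀ I, A σ S w I ≤ M) (I : D) : A τ S w I ≤ 2 * K * M := by
  refine transfer σ τ K ?_ S w hw hw0 M hM I
  clear hM hw0 hw I w S
  intro S hS
  refine A_bound τ S _ (by positivity) (fun J hJ => ?_)
  have h1 : T (τ '' (S : Set D)) (τ J) ≤ (K : ℝ≥0∞) * 2 := by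
    calc T (τ '' (S : Set D)) (τ J) ≤ (⨆ I ∈ τ '' (S : Set D), T (τ '' (S : Set D)) I) :=
          le_iSup₂ (f := fun I (_ : I ∈ τ '' (S : Set D)) => T (τ '' (S : Set D)) I) (τ J) ⟨J, hJ, rfl⟩
      _ ≤ (K : ℝ≥0∞) * (⨆ I ∈ σ '' (S : Set D), T (σ '' (S : Set D)) I) := h _
      _ ≤ (K : ℝ≥0∞) * 2 := by
          refine mul_le_mul_right ?_ _
          refine iSup₂_le (fun I _ => ?_)
          rw [T_fin]
          have := ENNReal.ofReal_le_ofReal (hS I)
          simpa using this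
  rw [T_fin] at h1
  have h2 : (K : ℝ≥0∞) * 2 = ENNReal.ofReal ((K:ℝ) * 2) := by
    rw [ENNReal.ofReal_mul (by positivity)]
    simp
  rw [h2, ENNReal.ofReal_le_ofReal_iff (by positivity)] at h1
  exact h1

/-- For every permutation π of the dyadic intervals of [0,1]: the Haar rearrangement T_π is bounded with bounded inverse in dyadic BMO iff some K>0 gives CC(π(B)) ≤ K·CC(B) and CC(B) ≤ K·CC(π(B)) for all collections B. -/
theorem result :
  ∀ π : Equiv.Perm {p : ℕ × ℕ // p.2 < 2 ^ p.1},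
    (∃ C : ℝ, 0 < C ∧
      ∀ a : {p : ℕ × ℕ // p.2 < 2 ^ p.1} →₀ ℝ, ∀ M : ℝ,
        ((∀ I : {p : ℕ × ℕ // p.2 < 2 ^ p.1},
            (2:ℝ) ^ I.1.1 * ∑ J ∈ a.support,
              (if I.1.1 ≤ J.1.1 ∧ J.1.2 / 2 ^ (J.1.1 - I.1.1) = I.1.2
                then a J ^ 2 / (2:ℝ) ^ J.1.1 else 0) ≤ M) →
          ∀ I : {p : ℕ × ℕ // p.2 < 2 ^ p.1},
            (2:ℝ) ^ I.1.1 * ∑ J ∈ a.support,
              (if I.1.1 ≤ (π J).1.1 ∧ (π J).1.2 / 2 ^ ((π J).1.1 - I.1.1) = I.1.2
                then a J ^ 2 / (2:ℝ) ^ (π J).1.1 else 0) ≤ C * M) ∧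
        ((∀ I : {p : ℕ × ℕ // p.2 < 2 ^ p.1},
            (2:ℝ) ^ I.1.1 * ∑ J ∈ a.support,
              (if I.1.1 ≤ (π J).1.1 ∧ (π J).1.2 / 2 ^ ((π J).1.1 - I.1.1) = I.1.2
                then a J ^ 2 / (2:ℝ) ^ (π J).1.1 else 0) ≤ M) →
          ∀ I : {p : ℕ × ℕ // p.2 < 2 ^ p.1},
            (2:ℝ) ^ I.1.1 * ∑ J ∈ a.support,
              (if I.1.1 ≤ J.1.1 ∧ J.1.2 / 2 ^ (J.1.1 - I.1.1) = I.1.2
                then a J ^ 2 / (2:ℝ) ^ J.1.1 else 0) ≤ C * M)) ↔
    (∃ K : ℝ≥0, 0 < K ∧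
      ∀ B : Set {p : ℕ × ℕ // p.2 < 2 ^ p.1},
        (⨆ I ∈ π '' B, (2:ℝ≥0∞) ^ I.1.1 *
            ∑' J : {p : ℕ × ℕ // p.2 < 2 ^ p.1},
              (if J ∈ π '' B ∧ I.1.1 ≤ J.1.1 ∧ J.1.2 / 2 ^ (J.1.1 - I.1.1) = I.1.2
                then ((2:ℝ≥0∞) ^ J.1.1)⁻¹ else 0))
          ≤ (K : ℝ≥0∞) *
            (⨆ I ∈ B, (2:ℝ≥0∞) ^ I.1.1 *
              ∑' J : {p : ℕ × ℕ // p.2 < 2 ^ p.1},
                (if J ∈ B ∧ I.1.1 ≤ J.1.1 ∧ J.1.2 / 2 ^ (J.1.1 - I.1.1) = I.1.2
                  then ((2:ℝ≥0∞) ^ J.1.1)⁻¹ else 0)) ∧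
        (⨆ I ∈ B, (2:ℝ≥0∞) ^ I.1.1 *
            ∑' J : {p : ℕ × ℕ // p.2 < 2 ^ p.1},
              (if J ∈ B ∧ I.1.1 ≤ J.1.1 ∧ J.1.2 / 2 ^ (J.1.1 - I.1.1) = I.1.2
                then ((2:ℝ≥0∞) ^ J.1.1)⁻¹ else 0))
          ≤ (K : ℝ≥0∞) *
            (⨆ I ∈ π '' B, (2:ℝ≥0∞) ^ I.1.1 *
              ∑' J : {p : ℕ × ℕ // p.2 < 2 ^ p.1},
                (if J ∈ π '' B ∧ I.1.1 ≤ J.1.1 ∧ J.1.2 / 2 ^ (J.1.1 - I.1.1) = I.1.2
                  then ((2:ℝ≥0∞) ^ J.1.1)⁻¹ else 0))) := by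
  intro π
  have conv1 : ∀ (σ : Equiv.Perm D) (S : Finset D) (w : D → ℝ) (I : D),
      (2:ℝ) ^ I.1.1 * ∑ J ∈ S,
        (if I.1.1 ≤ (σ J).1.1 ∧ (σ J).1.2 / 2 ^ ((σ J).1.1 - I.1.1) = I.1.2
          then w J / (2:ℝ) ^ (σ J).1.1 else 0) = A σ S w I := by
    intro σ S w I
    unfold A
    congr 1
    refine Finset.sum_congr rfl (fun J _ => ?_)
    exact if_congr (by unfold SubI; rfl) rfl rfl
  have conv0 : ∀ (S : Finset D) (w : D → ℝ) (I : D),
      (2:ℝ) ^ I.1.1 * ∑ J ∈ S,
        (if I.1.1 ≤ J.1.1 ∧ J.1.2 / 2 ^ (J.1.1 - I.1.1) = I.1.2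
          then w J / (2:ℝ) ^ J.1.1 else 0) = A (Equiv.refl D) S w I :=
    fun S w I => conv1 (Equiv.refl D) S w I
  have cT : ∀ (σ : Equiv.Perm D) (B : Set D), (⨆ I ∈ σ '' B, (2:ℝ≥0∞) ^ I.1.1 *
            ∑' J : {p : ℕ × ℕ // p.2 < 2 ^ p.1},
              (if J ∈ σ '' B ∧ I.1.1 ≤ J.1.1 ∧ J.1.2 / 2 ^ (J.1.1 - I.1.1) = I.1.2
                then ((2:ℝ≥0∞) ^ J.1.1)⁻¹ else 0)) = (⨆ I ∈ σ '' B, T (σ '' B) I) := by
    intro σ B
    rfl
  have cT0 : ∀ (B : Set D), (⨆ I ∈ B, (2:ℝ≥0∞) ^ I.1.1 *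
            ∑' J : {p : ℕ × ℕ // p.2 < 2 ^ p.1},
              (if J ∈ B ∧ I.1.1 ≤ J.1.1 ∧ J.1.2 / 2 ^ (J.1.1 - I.1.1) = I.1.2
                then ((2:ℝ≥0∞) ^ J.1.1)⁻¹ else 0)) =
        (⨆ I ∈ (Equiv.refl D) '' B, T ((Equiv.refl D) '' B) I) := by
    intro B
    simp only [Equiv.coe_refl, Set.image_id]
    rfl
  constructor
  · rintro ⟨C, hC, h⟩
    refine ⟨NNReal.mk C hC.le, hC, fun B => ?_⟩
    have hK : ((NNReal.mk C hC.le : ℝ≥0) : ℝ≥0∞) = ENNReal.ofReal C := by
      rw [ENNReal.ofReal, Real.toNNReal_of_nonneg hC.le]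
    rw [hK]
    have key : ∀ S : Finset D, ∃ a : D →₀ ℝ, a.support = S ∧ ∀ J ∈ S, a J ^ 2 = 1 := by
      intro S
      refine ⟨Finsupp.indicator S (fun _ _ => 1), ?_, ?_⟩
      · ext J
        simp [Finsupp.indicator_apply]
      · intro J hJ
        simp [Finsupp.indicator_apply, hJ]
    constructor
    · refine (le_of_eq (cT π B)).trans ((forward (Equiv.refl D) π C hC (fun S M hM I => ?_) B).trans
        (le_of_eq ?_))
      · obtain ⟨a, ha, ha1⟩ := key S
        have h1 := (h a M).1 (fun I => ?_) I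
        · refine le_trans (le_of_eq ?_) h1
          rw [← A_congr π S _ (fun _ => 1) ha1, ← ha]
          exact (conv1 π a.support (fun J => a J ^ 2) I).symm
        · refine le_trans (le_of_eq ?_) (hM I)
          rw [← A_congr _ S _ (fun _ => 1) ha1, ← ha]
          exact conv0 a.support (fun J => a J ^ 2) I
      · rw [cT0 B]
    · refine (le_of_eq (cT0 B)).trans ((forward π (Equiv.refl D) C hC (fun S M hM I => ?_) B).trans
        (le_of_eq ?_))
      · obtain ⟨a, ha, ha1⟩ := key S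
        have h1 := (h a M).2 (fun I => ?_) I
        · refine le_trans (le_of_eq ?_) h1
          rw [← A_congr _ S _ (fun _ => 1) ha1, ← ha]
          exact (conv0 a.support (fun J => a J ^ 2) I).symm
        · refine le_trans (le_of_eq ?_) (hM I)
          rw [← A_congr π S _ (fun _ => 1) ha1, ← ha]
          exact conv1 π a.support (fun J => a J ^ 2) I
      · rw [cT π B]
  · rintro ⟨K, hK, h⟩
    refine ⟨2 * K, by positivity, fun a M => ⟨fun hM I => ?_, fun hM I => ?_⟩⟩
    · refine (le_of_eq (conv1 π a.support (fun J => a J ^ 2) I)).trans ?_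
      refine backward (Equiv.refl D) π K (fun B => ?_) a.support (fun J => a J ^ 2)
        (fun J => sq_nonneg _) (fun J hJ => ?_) M (fun I => ?_) I
      · rw [← cT π B, ← cT0 B]; exact (h B).1
      · simp [Finsupp.notMem_support_iff.1 hJ]
      · exact (le_of_eq (conv0 a.support (fun J => a J ^ 2) I).symm).trans (hM I)
    · refine (le_of_eq (conv0 a.support (fun J => a J ^ 2) I)).trans ?_
      refine backward π (Equiv.refl D) K (fun B => ?_) a.support (fun J => a J ^ 2)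
        (fun J => sq_nonneg _) (fun J hJ => ?_) M (fun I => ?_) I
      · rw [← cT π B, ← cT0 B]; exact (h B).2
      · simp [Finsupp.notMem_support_iff.1 hJ]
      · exact (le_of_eq (conv1 π a.support (fun J => a J ^ 2) I).symm).trans (hM I)

end Pool.Agent.S03839
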