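import Pool.Statements.S03842
import Pool.Agent.Helper311.TI.Final

set_option autoImplicit false
open MeasureTheory Filter Topology
open Pool Pool.MP_af79d0_an

namespace Pool.Agent.S03842

/-- The negation of the preceding statement: There is a continuous positive weight w, log w convex near −∞ and concave near +∞, with log w(x)/x → −∞ as ∣x∣→∞ and ∫ d(log w)/(1+x²) = −∞, whose L¹(w) has a closed right-translation-invariant subspace that is neither trivial nor of the form {f = 0 a.e. on x<a}. -/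
theorem result :
    ¬ (∃ w : ℝ → ℝ, Continuous w ∧ (∀ x, 0 < w x) ∧
    (∃ a b : ℝ, ConvexOn ℝ (Set.Iic a) (fun x => Real.log (w x)) ∧
      ConcaveOn ℝ (Set.Ici b) (fun x => Real.log (w x)) ∧
      (∫⁻ x in Set.Iic a, ENNReal.ofReal (-deriv (fun y => Real.log (w y)) x / (1 + x ^ 2))) +
      (∫⁻ x in Set.Ici b, ENNReal.ofReal (-deriv (fun y => Real.log (w y)) x / (1 + x ^ 2))) = ⊤) ∧
    Tendsto (fun x => Real.log (w x) / x) (cocompact ℝ) atBot ∧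
    ∃ S : Set (ℝ → ℂ),
      (∀ f ∈ S, Integrable (fun x => (w x : ℂ) * f x)) ∧
      (∀ f ∈ S, ∀ g ∈ S, f + g ∈ S) ∧
      (∀ c : ℂ, ∀ f ∈ S, c • f ∈ S) ∧
      (∀ f ∈ S, ∀ g : ℝ → ℂ, g =ᵐ[volume] f → g ∈ S) ∧
      (∀ f ∈ S, ∀ t : ℝ, 0 ≤ t → (fun x => f (x - t)) ∈ S) ∧
      (∀ (u : ℕ → ℝ → ℂ) (f : ℝ → ℂ), (∀ n, u n ∈ S) →
        Integrable (fun x => (w x : ℂ) * f x) →
        Tendsto (fun n => ∫ x, ‖u n x - f x‖ * w x) atTop (𝓝 0) → f ∈ S) ∧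
      (∃ f ∈ S, ¬ f =ᵐ[volume] 0) ∧
      (∃ f : ℝ → ℂ, Integrable (fun x => (w x : ℂ) * f x) ∧ f ∉ S) ∧
      ∀ a : ℝ, S ≠ {f : ℝ → ℂ | Integrable (fun x => (w x : ℂ) * f x) ∧
        ∀ᵐ x ∂volume, x < a → f x = 0}) := by
  exact Pool.Agent.Helper311.TI.S_final

end Pool.Agent.S03842
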