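import Pool.Statements.S03849
import Pool.Agent.Helper787.PathD

set_option autoImplicit false
open Pool Pool.MP_b001a4_an

namespace Pool.Agent.S03849

/-- Assume f is meromorphic on ℂ, its poles in ∣z∣<r number at most C r^k for some k<1/2, and its Nevanlinna characteristic eventually exceeds r^μ for some μ>1/2. Then some continuous path to infinity has ∣f(z)∣/∣z∣^n tending to infinity along it, for every n. -/
theorem result :
    ∀ f : ℂ → ℂ, MeromorphicOn f Set.univ →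
      (∃ k : ℝ, k < 1 / 2 ∧ ∃ C : ℝ, ∀ r : ℝ, 1 ≤ r →
        (∑ᶠ (z : ℂ) (_ : z ∈ Metric.ball (0 : ℂ) r),
          (((-(MeromorphicOn.divisor f Set.univ z)) ⊔ 0 : ℤ) : ℝ)) ≤ C * r ^ k) →
      (∃ μ : ℝ, 1 / 2 < μ ∧
        ∀ᶠ r in Filter.atTop, r ^ μ ≤ ValueDistribution.characteristic f ⊤ r) →
      ∃ γ : ℝ → ℂ, Continuous γ ∧
        Filter.Tendsto (fun t => ‖γ t‖) Filter.atTop Filter.atTop ∧
        ∀ n : ℕ, Filter.Tendsto (fun t => ‖f (γ t)‖ / ‖γ t‖ ^ n) Filter.atTop Filter.atTop := by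
  rintro f hf ⟨k, hk, C, hcount⟩ ⟨μ, hμ, hT⟩
  exact Pool.Agent.Helper787.PathGrowth.mainThm hf hk hcount hμ hT

end Pool.Agent.S03849
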