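import Pool.Statements.S03856

set_option autoImplicit false
open Pool Pool.MP_b0cea1_an

namespace Pool.Agent.S03856

section helpers
open MeasureTheory Set Metric Filter Topology
open scoped ENNReal Real

/-- Area formula for injective holomorphic maps. -/
theorem lintegral_deriv_sq_eq (f : ℂ → ℂ) (s : Set ℂ) (hs : IsOpen s)
    (hf : DifferentiableOn ℂ f s) (hinj : InjOn f s) :
    ∫⁻ z in s, ‖deriv f z‖ₑ ^ 2 = volume (f '' s) := by
  have h1 : ∀ x ∈ s, HasFDerivWithinAt f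
      (((ContinuousLinearMap.toSpanSingleton ℂ (deriv f x)).restrictScalars ℝ) : ℂ →L[ℝ] ℂ) s x := by
    intro x hx
    have h2 : HasDerivAt f (deriv f x) x :=
      (hf.differentiableAt (hs.mem_nhds hx)).hasDerivAt
    have h3 := h2.hasFDerivAt.restrictScalars ℝ
    exact h3.hasFDerivWithinAt
  have h2 := lintegral_abs_det_fderiv_eq_addHaar_image volume hs.measurableSet h1 hinj
  rw [← h2]
  congr 1
  ext z
  have : (((ContinuousLinearMap.toSpanSingleton ℂ (deriv f z)).restrictScalars ℝ) : ℂ →L[ℝ] ℂ).det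
      = ‖deriv f z‖ ^ 2 := by
    have h4 : ((ContinuousLinearMap.toSpanSingleton ℂ (deriv f z)).restrictScalars ℝ : ℂ →L[ℝ] ℂ).toLinearMap
        = LinearMap.mul ℝ ℂ (deriv f z) := by
      apply LinearMap.ext
      intro w
      simp [mul_comm]
    rw [ContinuousLinearMap.det, h4]
    have h5 := Algebra.norm_complex_apply (deriv f z)
    rw [Algebra.norm_apply] at h5
    rw [Complex.normSq_eq_norm_sq] at h5
    exact h5
  rw [this, abs_of_nonneg (by positivity), ENNReal.ofReal_pow (norm_nonneg _), ofReal_norm]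

theorem circle_bound (g : ℂ → ℂ) (c : ℂ) (R : ℝ) 
    (hg : DifferentiableOn ℂ g (ball c R)) (r : ℝ) (hr : 0 < r) (hrR : r < R) :
    ENNReal.ofReal (2 * π) * ‖g c‖ₑ ^ 2 ≤
      ∫⁻ t in Ioo (-π) π, ‖g (c + r * (Real.cos t + Real.sin t * Complex.I))‖ₑ ^ 2 := by
  have hd : DiffContOnCl ℂ (fun z => g z ^ 2) (ball c |r|) := by
    rw [abs_of_pos hr]
    apply DifferentiableOn.diffContOnCl
    rw [closure_ball _ hr.ne']
    exact (hg.mono (closedBall_subset_ball hrR)).pow 2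
  have h1 := hd.circleAverage
  rw [Real.circleAverage_eq_integral_add (-π)] at h1
  have h2 : ∫ t in (-π)..π, (g (circleMap c r t)) ^ 2 = (2 * π) * (g c) ^ 2 := by
    have h3 : ∫ t in (0:ℝ)..(2 * π), (g (circleMap c r (t + -π))) ^ 2 = ∫ t in (-π)..π, (g (circleMap c r t)) ^ 2 := by
      rw [intervalIntegral.integral_comp_add_right (fun t => (g (circleMap c r t)) ^ 2)]
      congr 1 <;> ring
    rw [← h3]
    have : (2 * π : ℝ) ≠ 0 := by positivity
    rw [← h1]
    rw [Complex.real_smul]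
    push_cast
    field_simp
  have h4 : ‖(2 * π : ℂ) * (g c) ^ 2‖ₑ ≤ ∫⁻ t in Ioo (-π) π, ‖(g (circleMap c r t)) ^ 2‖ₑ := by
    rw [← h2, intervalIntegral.integral_of_le (by linarith [Real.pi_pos]), integral_Ioc_eq_integral_Ioo]
    exact enorm_integral_le_lintegral_enorm _
  have h5 : ‖(2 * π : ℂ) * (g c) ^ 2‖ₑ = ENNReal.ofReal (2 * π) * ‖g c‖ₑ ^ 2 := by
    rw [enorm_mul, enorm_pow]
    congr 1
    rw [← ofReal_norm]
    congr 1
    simp [abs_of_pos Real.pi_pos]
  rw [h5] at h4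
  refine h4.trans (le_of_eq ?_)
  congr 1
  ext t
  rw [enorm_pow, circleMap]
  congr 4
  rw [Complex.exp_mul_I]
  simp

/-- Area mean value inequality. -/
theorem sq_norm_le_lintegral (g : ℂ → ℂ) (c : ℂ) (R : ℝ) (hR : 0 < R)
    (hg : DifferentiableOn ℂ g (ball c R)) :
    ENNReal.ofReal (π * R ^ 2) * ‖g c‖ₑ ^ 2 ≤ ∫⁻ z in ball c R, ‖g z‖ₑ ^ 2 := by
  have h0 : ∫⁻ z in ball c R, ‖g z‖ₑ ^ 2 = ∫⁻ z, (ball c R).indicator (fun z => ‖g z‖ₑ ^ 2) z := by
    rw [lintegral_indicator isOpen_ball.measurableSet]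
  have h1 : ∫⁻ z, (ball c R).indicator (fun z => ‖g z‖ₑ ^ 2) z =
      ∫⁻ z, (ball c R).indicator (fun z => ‖g z‖ₑ ^ 2) (c + z) :=
    (lintegral_add_left_eq_self _ c).symm
  rw [h0, h1, ← Complex.lintegral_comp_polarCoord_symm]
  have h2 : (polarCoord.target : Set (ℝ × ℝ)) = Ioi (0:ℝ) ×ˢ Ioo (-π) π := rfl
  have hm : Measurable ((ball c R).indicator (fun z => ‖g z‖ₑ ^ 2)) := by
    classical
    rw [← Set.piecewise_eq_indicator]
    apply ContinuousOn.measurable_piecewise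
    · exact (ENNReal.continuous_pow 2).comp_continuousOn hg.continuousOn.enorm
    · exact continuousOn_const
    · exact isOpen_ball.measurableSet
  rw [h2, Measure.volume_eq_prod, ← Measure.prod_restrict, lintegral_prod]
  swap
  · apply Measurable.aemeasurable
    simp only [Complex.polarCoord_symm_apply]
    simp only [smul_eq_mul]
    apply Measurable.mul
    · fun_prop
    · apply hm.comp
      fun_prop
  calc ENNReal.ofReal (π * R ^ 2) * ‖g c‖ₑ ^ 2
      = ∫⁻ r in Ioo 0 R, ENNReal.ofReal r * (ENNReal.ofReal (2 * π) * ‖g c‖ₑ ^ 2) := by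
        rw [lintegral_mul_const _ (by fun_prop)]
        rw [← mul_assoc]
        congr 1
        have : ∫⁻ r in Ioo 0 R, ENNReal.ofReal r = ENNReal.ofReal (R ^ 2 / 2) := by
          rw [← ofReal_integral_eq_lintegral_ofReal]
          · congr 1
            rw [← integral_Ioc_eq_integral_Ioo, ← intervalIntegral.integral_of_le hR.le]
            simp
          · exact (continuous_id.integrableOn_Icc).mono_set Ioo_subset_Icc_self
          · filter_upwards [self_mem_ae_restrict measurableSet_Ioo] with r hr using hr.1.le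
        rw [this, ← ENNReal.ofReal_mul (by positivity)]
        congr 1
        ring
    _ ≤ ∫⁻ r in Ioo 0 R, ∫⁻ t in Ioo (-π) π, ENNReal.ofReal r *
          (ball c R).indicator (fun z => ‖g z‖ₑ ^ 2) (c + Complex.polarCoord.symm (r, t)) := by
        apply setLIntegral_mono' measurableSet_Ioo
        intro r hr
        rw [lintegral_const_mul']
        swap
        · exact ENNReal.ofReal_ne_top
        gcongr
        refine (circle_bound g c R hg r hr.1 hr.2).trans (le_of_eq ?_)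
        congr 1
        ext t
        rw [Set.indicator_of_mem]
        · simp [Complex.polarCoord_symm_apply]
        · rw [mem_ball, dist_eq_norm]
          simp only [add_sub_cancel_left]
          rw [Complex.norm_polarCoord_symm, abs_of_pos hr.1]
          exact hr.2
    _ ≤ _ := by
        simp only [smul_eq_mul]
        apply lintegral_mono_set
        exact Ioo_subset_Ioi_self

/-- The open upper half plane as a subset of `ℂ`. -/
def UH : Set ℂ := {z : ℂ | 0 < z.im}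

theorem isOpen_UH : IsOpen UH := isOpen_lt continuous_const Complex.continuous_im

/-- Dirichlet integral of `f` over `S`. -/
noncomputable def dir (f : ℂ → ℂ) (S : Set ℂ) : ℝ≥0∞ := ∫⁻ z in S, ‖deriv f z‖ₑ ^ 2

theorem dir_mono (f : ℂ → ℂ) {S T : Set ℂ} (h : S ⊆ T) : dir f S ≤ dir f T :=
  lintegral_mono_set h

theorem deriv_bound (f : ℂ → ℂ) (V : Set ℂ) (hfV : DifferentiableOn ℂ f V) (hfin : dir f V ≠ ∞)
    (ζ : ℂ) (h : ℝ) (hh : 0 < h) (hb : ball ζ h ⊆ V) :
    ‖deriv f ζ‖ ≤ √((dir f V).toReal) / h := by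
  have h1 := sq_norm_le_lintegral (deriv f) ζ h hh ((hfV.mono hb).deriv isOpen_ball)
  have h2 : ENNReal.ofReal (π * h ^ 2) * ‖deriv f ζ‖ₑ ^ 2 ≤ dir f V :=
    h1.trans (lintegral_mono_set hb)
  have h3 : π * h ^ 2 * ‖deriv f ζ‖ ^ 2 ≤ (dir f V).toReal := by
    have h4 := ENNReal.toReal_mono hfin h2
    rw [ENNReal.toReal_mul, ENNReal.toReal_pow, ENNReal.toReal_ofReal (by positivity), toReal_enorm] at h4
    exact h4
  rw [le_div_iff₀ hh]
  apply Real.le_sqrt_of_sq_le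
  refine le_trans ?_ h3
  have : (1:ℝ) ≤ π := by linarith [Real.pi_gt_three]
  have h5 : (‖deriv f ζ‖ * h) ^ 2 = 1 * (h ^ 2 * ‖deriv f ζ‖ ^ 2) := by ring
  rw [h5, mul_assoc]
  gcongr

theorem seg_bound (f : ℂ → ℂ) (V : Set ℂ) (hV : IsOpen V) (hfV : DifferentiableOn ℂ f V) (hfin : dir f V ≠ ∞)
    (S : Set ℂ) (hS : Convex ℝ S) (h : ℝ) (hh : 0 < h) (hb : ∀ ζ ∈ S, ball ζ h ⊆ V) 
    (z w : ℂ) (hz : z ∈ S) (hw : w ∈ S) : 
    ‖f w - f z‖ ≤ √((dir f V).toReal) / h * ‖w - z‖ := by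
  apply Convex.norm_image_sub_le_of_norm_deriv_le (s := S) _ _ hS hz hw
  · intro x hx
    exact hfV.differentiableAt (hV.mem_nhds (hb x hx (mem_ball_self hh)))
  · intro x hx
    exact deriv_bound f V hfV hfin x h hh (hb x hx)

/-- The open box over the interval `(x-y, x+y)`. -/
def box (x y : ℝ) : Set ℂ := {ζ : ℂ | |ζ.re - x| < y ∧ 0 < ζ.im ∧ ζ.im < 2 * y}

theorem isOpen_box (x y : ℝ) : IsOpen (box x y) := by
  have h1 : IsOpen {ζ : ℂ | |ζ.re - x| < y} :=
    isOpen_lt ((Complex.continuous_re.sub continuous_const).abs) continuous_const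
  have h2 : IsOpen {ζ : ℂ | 0 < ζ.im} := isOpen_lt continuous_const Complex.continuous_im
  have h3 : IsOpen {ζ : ℂ | ζ.im < 2 * y} := isOpen_lt Complex.continuous_im continuous_const
  exact h1.inter (h2.inter h3)

theorem box_subset_UH (x y : ℝ) : box x y ⊆ UH := fun _ h => h.2.1

theorem ball_subset_box (x y : ℝ) : ball (⟨x, y⟩ : ℂ) y ⊆ box x y := by
  intro ζ hζ
  rw [mem_ball, dist_eq_norm] at hζ
  have h1 := (Complex.abs_re_le_norm (ζ - ⟨x, y⟩)).trans_lt hζ
  have h2 := (Complex.abs_im_le_norm (ζ - ⟨x, y⟩)).trans_lt hζ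
  simp only [Complex.sub_re, Complex.sub_im] at h1 h2
  rw [abs_lt] at h2
  refine ⟨h1, by linarith, by linarith⟩

theorem step_bound (f : ℂ → ℂ) (hf : DifferentiableOn ℂ f UH) (hfin : dir f UH ≠ ∞)
    (x y : ℝ) (hy : 0 < y) (s : ℝ) (hs : s ^ 2 = 1) :
    ‖f ⟨x + s * (y / 3), y / 3⟩ - f ⟨x, y⟩‖ ≤ 3 * √((dir f (box x y)).toReal) := by
  have hfb : dir f (box x y) ≠ ∞ := ne_top_of_le_ne_top hfin (dir_mono f (box_subset_UH x y))
  have hn : ‖(⟨x + s * (y / 3), y / 3⟩ : ℂ) - ⟨x, y⟩‖ ≤ 3 * y / 4 := by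
    rw [Complex.norm_def]
    apply Real.sqrt_le_iff.mpr
    refine ⟨by positivity, ?_⟩
    simp [Complex.normSq_apply]
    nlinarith [sq_nonneg y]
  have := seg_bound f (box x y) (isOpen_box x y) (hf.mono (box_subset_UH x y)) hfb
    (closedBall (⟨x, y⟩ : ℂ) (3 * y / 4)) (convex_closedBall _ _) (y / 4) (by positivity)
    (fun ζ hζ => (by
      refine Subset.trans ?_ (ball_subset_box x y)
      apply ball_subset_ball'
      rw [mem_closedBall] at hζ
      linarith))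
    ⟨x, y⟩ ⟨x + s * (y / 3), y / 3⟩ (mem_closedBall_self (by positivity))
    (by rw [mem_closedBall, dist_eq_norm]; exact hn)
  refine this.trans ?_
  calc √((dir f (box x y)).toReal) / (y / 4) * ‖(⟨x + s * (y / 3), y / 3⟩ : ℂ) - ⟨x, y⟩‖ 
      ≤ √((dir f (box x y)).toReal) / (y / 4) * (3 * y / 4) := by gcongr
    _ = 3 * √((dir f (box x y)).toReal) := by field_simp

theorem dir_split (f : ℂ → ℂ) (x y : ℝ) :
    dir f (box (x - y / 3) (y / 3)) + dir f (box (x + y / 3) (y / 3)) ≤ dir f (box x y) := by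
  unfold dir
  rw [← lintegral_union (isOpen_box _ _).measurableSet]
  · apply lintegral_mono_set
    rintro ζ (h | h)
    · obtain ⟨h1, h2, h3⟩ := h
      rw [abs_lt] at h1
      refine ⟨abs_lt.mpr ⟨by linarith, by linarith⟩, h2, by linarith⟩
    · obtain ⟨h1, h2, h3⟩ := h
      rw [abs_lt] at h1
      refine ⟨abs_lt.mpr ⟨by linarith, by linarith⟩, h2, by linarith⟩
  · rw [Set.disjoint_left]
    rintro ζ ⟨h1, -, -⟩ ⟨h2, -, -⟩
    rw [abs_lt] at h1 h2
    linarith [h1.2, h2.1]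

/-- Average of `F` over the `2 ^ N` leaves of the tree rooted at `x + i y`. -/
noncomputable def leafAvg (F : ℂ → ℝ) : ℕ → ℝ → ℝ → ℝ
  | 0, x, y => F ⟨x, y⟩
  | N + 1, x, y => (leafAvg F N (x - y / 3) (y / 3) + leafAvg F N (x + y / 3) (y / 3)) / 2

/-- The leaves of the tree of depth `N` rooted at `x + i y`. -/
def leaves : ℕ → ℝ → ℝ → Set ℂ
  | 0, x, y => {⟨x, y⟩}
  | N + 1, x, y => leaves N (x - y / 3) (y / 3) ∪ leaves N (x + y / 3) (y / 3)

theorem exists_leaf (F : ℂ → ℝ) (N : ℕ) : ∀ x y : ℝ, ∃ w ∈ leaves N x y, F w ≤ leafAvg F N x y := by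
  induction N with
  | zero => intro x y; exact ⟨⟨x, y⟩, rfl, le_refl _⟩
  | succ N ih =>
    intro x y
    obtain ⟨w1, h1, h1'⟩ := ih (x - y / 3) (y / 3)
    obtain ⟨w2, h2, h2'⟩ := ih (x + y / 3) (y / 3)
    rcases le_total (leafAvg F N (x - y / 3) (y / 3)) (leafAvg F N (x + y / 3) (y / 3)) with h | h
    · refine ⟨w1, Or.inl h1, ?_⟩
      rw [leafAvg]
      linarith
    · refine ⟨w2, Or.inr h2, ?_⟩
      rw [leafAvg]
      linarith

theorem leafAvg_le (f : ℂ → ℂ) (hf : DifferentiableOn ℂ f UH) (hfin : dir f UH ≠ ∞) (c : ℂ) (N : ℕ) :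
    ∀ x y : ℝ, 0 < y → leafAvg (fun w => ‖f w - c‖) N x y ≤
      ‖f ⟨x, y⟩ - c‖ + 12 * √((dir f (box x y)).toReal) := by
  induction N with
  | zero =>
    intro x y hy
    simp only [leafAvg]
    linarith [Real.sqrt_nonneg ((dir f (box x y)).toReal)]
  | succ N ih =>
    intro x y hy
    have h1 := ih (x - y / 3) (y / 3) (by positivity)
    have h2 := ih (x + y / 3) (y / 3) (by positivity)
    have s1 := step_bound f hf hfin x y hy (-1) (by norm_num)
    have s2 := step_bound f hf hfin x y hy 1 (by norm_num)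
    have e1 : x + -1 * (y / 3) = x - y / 3 := by ring
    have e2 : x + 1 * (y / 3) = x + y / 3 := by ring
    rw [e1] at s1
    rw [e2] at s2
    have t1 : ‖f ⟨x - y / 3, y / 3⟩ - c‖ ≤ ‖f ⟨x - y / 3, y / 3⟩ - f ⟨x, y⟩‖ + ‖f ⟨x, y⟩ - c‖ :=
      norm_sub_le_norm_sub_add_norm_sub _ _ _
    have t2 : ‖f ⟨x + y / 3, y / 3⟩ - c‖ ≤ ‖f ⟨x + y / 3, y / 3⟩ - f ⟨x, y⟩‖ + ‖f ⟨x, y⟩ - c‖ :=
      norm_sub_le_norm_sub_add_norm_sub _ _ _
    have hsp := dir_split f x y
    have hfb : ∀ x y, dir f (box x y) ≠ ∞ := fun x y =>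
      ne_top_of_le_ne_top hfin (dir_mono f (box_subset_UH x y))
    have hsp' : (dir f (box (x - y / 3) (y / 3))).toReal + (dir f (box (x + y / 3) (y / 3))).toReal
        ≤ (dir f (box x y)).toReal := by
      rw [← ENNReal.toReal_add (hfb _ _) (hfb _ _)]
      exact ENNReal.toReal_mono (hfb _ _) hsp
    set A := (dir f (box x y)).toReal
    set A1 := (dir f (box (x - y / 3) (y / 3))).toReal
    set A2 := (dir f (box (x + y / 3) (y / 3))).toReal
    have hA1 : 0 ≤ A1 := ENNReal.toReal_nonneg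
    have hA2 : 0 ≤ A2 := ENNReal.toReal_nonneg
    have hA : 0 ≤ A := ENNReal.toReal_nonneg
    have key : √A1 + √A2 ≤ 3 / 2 * √A := by
      have q1 := Real.sq_sqrt hA1
      have q2 := Real.sq_sqrt hA2
      have q := Real.sq_sqrt hA
      apply le_of_sq_le_sq _ (by positivity)
      nlinarith [sq_nonneg (√A1 - √A2), Real.sqrt_nonneg A1, Real.sqrt_nonneg A2, Real.sqrt_nonneg A]
    simp only [leafAvg]
    linarith


theorem leaves_im (N : ℕ) : ∀ x y : ℝ, ∀ w ∈ leaves N x y, w.im = y / 3 ^ N := by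
  induction N with
  | zero => intro x y w hw; rw [leaves, mem_singleton_iff] at hw; simp [hw]
  | succ N ih =>
    rintro x y w (hw | hw)
    · rw [ih _ _ w hw]; rw [pow_succ]; field_simp
    · rw [ih _ _ w hw]; rw [pow_succ]; field_simp

theorem leaves_re (N : ℕ) : ∀ x y : ℝ, 0 < y → ∀ w ∈ leaves N x y, |w.re - x| ≤ y / 2 := by
  induction N with
  | zero => intro x y hy w hw; rw [leaves, mem_singleton_iff] at hw; simp [hw]; positivity
  | succ N ih =>
    rintro x y hy w (hw | hw)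
    · have := ih _ _ (by positivity) w hw
      rw [abs_le] at this ⊢
      constructor <;> linarith
    · have := ih _ _ (by positivity) w hw
      rw [abs_le] at this ⊢
      constructor <;> linarith

theorem leaves_norm_le (N : ℕ) (y : ℝ) (hy : 0 < y) (w : ℂ) (hw : w ∈ leaves N 0 y) : ‖w‖ ≤ 2 * y := by
  have h1 := leaves_re N 0 y hy w hw
  have h2 := leaves_im N 0 y w hw
  have h3 : |w.im| ≤ y := by
    rw [h2, abs_of_pos (by positivity)]
    apply div_le_self hy.le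
    exact one_le_pow₀ (by norm_num)
  have := Complex.norm_le_abs_re_add_abs_im w
  rw [sub_zero] at h1
  linarith

theorem leaves_norm_ge (N : ℕ) (y : ℝ) (hy : 0 < y) (w : ℂ) (hw : w ∈ leaves N 0 y) : y / 6 ≤ ‖w‖ := by
  cases N with
  | zero =>
    have h2 := leaves_im 0 0 y w hw
    have := Complex.abs_im_le_norm w
    rw [h2, pow_zero, div_one, abs_of_pos hy] at this
    linarith
  | succ N =>
    have h0 := Complex.abs_re_le_norm w
    refine le_trans ?_ h0
    rcases hw with hw | hw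
    · have := leaves_re N _ _ (by positivity) w hw
      rw [abs_le] at this
      rw [le_abs]
      right
      linarith
    · have := leaves_re N _ _ (by positivity) w hw
      rw [abs_le] at this
      rw [le_abs]
      left
      linarith

/-- radii within relative distance `δ` of the leaves -/
def radii (δ : ℝ) (N : ℕ) (x y : ℝ) : Set ℝ := {t : ℝ | ∃ w ∈ leaves N x y, |t - ‖w‖| < δ * w.im}

theorem volume_radii_le (δ : ℝ) (N : ℕ) : ∀ x y : ℝ,
    volume (radii δ N x y) ≤ ENNReal.ofReal (2 * δ * y * (2 / 3) ^ N) := by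
  induction N with
  | zero =>
    intro x y
    have : radii δ 0 x y ⊆ Ioo (‖(⟨x, y⟩ : ℂ)‖ - δ * y) (‖(⟨x, y⟩ : ℂ)‖ + δ * y) := by
      rintro t ⟨w, hw, ht⟩
      rw [leaves, mem_singleton_iff] at hw
      subst hw
      rw [abs_lt] at ht
      simp only at ht
      constructor <;> linarith
    refine (measure_mono this).trans ?_
    rw [Real.volume_Ioo]
    apply ENNReal.ofReal_le_ofReal
    simp
    linarith
  | succ N ih =>
    intro x y
    have : radii δ (N + 1) x y ⊆ radii δ N (x - y / 3) (y / 3) ∪ radii δ N (x + y / 3) (y / 3) := by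
      rintro t ⟨w, hw | hw, ht⟩
      · exact Or.inl ⟨w, hw, ht⟩
      · exact Or.inr ⟨w, hw, ht⟩
    refine (measure_mono this).trans ((measure_union_le _ _).trans ?_)
    refine (add_le_add (ih _ _) (ih _ _)).trans (le_of_eq ?_)
    rw [← two_mul]
    have : (2 : ℝ≥0∞) = ENNReal.ofReal 2 := by simp
    rw [this, ← ENNReal.ofReal_mul (by norm_num)]
    congr 1
    rw [pow_succ]
    ring

/-- The forcing set. -/
def K : Set UpperHalfPlane := {z | ∃ n : ℕ, (z : ℂ) ∈ leaves n 0 ((1 / 2) ^ n)}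

theorem dist_bound (z w : UpperHalfPlane) (l : ℝ) (h : dist z w < l) :
    ‖(z : ℂ) - w‖ < (Real.exp l - 1) * w.im := by
  have h1 := UpperHalfPlane.dist_lt_iff_dist_coe_center_lt.mp h
  have h2 : ‖((w.center l : UpperHalfPlane) : ℂ) - w‖ = w.im * (Real.cosh l - 1) := by
    have : ((w.center l : UpperHalfPlane) : ℂ) - w = ((w.im * (Real.cosh l - 1) : ℝ) : ℂ) * Complex.I := by
      apply Complex.ext
      · simp [UpperHalfPlane.center]
      · simp [UpperHalfPlane.center]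
        ring
    rw [this, norm_mul, Complex.norm_I, mul_one, Complex.norm_real, Real.norm_eq_abs, abs_of_nonneg]
    have := Real.one_le_cosh l
    have := w.im_pos
    apply mul_nonneg this.le
    linarith
  rw [dist_eq_norm] at h1
  have h3 : ‖(z : ℂ) - w‖ ≤ ‖(z : ℂ) - (w.center l : UpperHalfPlane)‖ + ‖((w.center l : UpperHalfPlane) : ℂ) - w‖ :=
    norm_sub_le_norm_sub_add_norm_sub _ _ _
  have h4 : Real.exp l = Real.cosh l + Real.sinh l := (Real.cosh_add_sinh l).symm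
  rw [h4]
  linarith

theorem measure_bound (c : ℝ) (hc : 0 < c) : ∃ ε : ℝ, 0 < ε ∧ ∀ r : ℝ, 0 < r → r < ε →
    (volume ({t : ℝ | ∃ z : UpperHalfPlane, (∃ w ∈ K, dist z w < Real.log (13 / 12)) ∧ ‖(z : ℂ)‖ = t}
            ∩ Set.Ioo 0 r)).toReal < c * r := by
  obtain ⟨M, hM⟩ := exists_pow_lt_of_lt_one (show 0 < c / 3 by positivity) (show (2 / 3 : ℝ) < 1 by norm_num)
  refine ⟨(1 / 2) ^ M / 12, by positivity, ?_⟩
  intro r hr hrε
  have hex : ∃ n : ℕ, (1 / 2 : ℝ) ^ n < 12 * r := exists_pow_lt_of_lt_one (by positivity) (by norm_num)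
  classical
  set n₀ := Nat.find hex with hn₀
  have hn₀' : (1 / 2 : ℝ) ^ n₀ < 12 * r := Nat.find_spec hex
  have hMn : M ≤ n₀ := by
    by_contra hlt
    push Not at hlt
    have : (1 / 2 : ℝ) ^ M ≤ (1 / 2) ^ n₀ := pow_le_pow_of_le_one (by norm_num) (by norm_num) hlt.le
    linarith
  have hsub : ({t : ℝ | ∃ z : UpperHalfPlane, (∃ w ∈ K, dist z w < Real.log (13 / 12)) ∧ ‖(z : ℂ)‖ = t}
            ∩ Set.Ioo 0 r) ⊆ ⋃ k : ℕ, radii (1 / 12) (n₀ + k) 0 ((1 / 2) ^ (n₀ + k)) := by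
    rintro t ⟨⟨z, ⟨w, ⟨n, hn⟩, hd⟩, hzt⟩, -, htr⟩
    have h1 := dist_bound z w _ hd
    rw [Real.exp_log (by norm_num)] at h1
    have h2 : |t - ‖(w : ℂ)‖| < 1 / 12 * (w : ℂ).im := by
      rw [← hzt]
      refine (abs_norm_sub_norm_le _ _).trans_lt ?_
      refine h1.trans_le (le_of_eq ?_)
      norm_num
    have hy : (0:ℝ) < (1 / 2) ^ n := by positivity
    have h3 := leaves_norm_ge n _ hy w hn
    have h4 := leaves_im n _ _ (w : ℂ) hn
    have h5 : (w : ℂ).im ≤ (1 / 2) ^ n := by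
      rw [h4]
      apply div_le_self hy.le
      exact one_le_pow₀ (by norm_num)
    have h6 : (1 / 2 : ℝ) ^ n < 12 * r := by
      rw [abs_lt] at h2
      linarith [h2.1]
    have h7 : n₀ ≤ n := Nat.find_min' hex h6
    rw [mem_iUnion]
    refine ⟨n - n₀, ?_⟩
    rw [Nat.add_sub_cancel' h7]
    exact ⟨w, hn, h2⟩
  have hvol : volume (⋃ k : ℕ, radii (1 / 12) (n₀ + k) 0 ((1 / 2) ^ (n₀ + k))) ≤
      ENNReal.ofReal ((1 / 4) * (1 / 3) ^ n₀) := by
    refine (measure_iUnion_le _).trans ?_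
    have hs : HasSum (fun k : ℕ => (1 / 6 * (1 / 3) ^ n₀ : ℝ) * (1 / 3) ^ k)
        ((1 / 6 * (1 / 3) ^ n₀) * (1 - 1 / 3)⁻¹) :=
      (hasSum_geometric_of_lt_one (by norm_num) (by norm_num)).mul_left _
    have e : ((1 / 4) * (1 / 3) ^ n₀ : ℝ) = ((1 / 6 * (1 / 3) ^ n₀) * (1 - 1 / 3)⁻¹) := by norm_num; ring
    rw [e, ← hs.tsum_eq, ENNReal.ofReal_tsum_of_nonneg (fun k => by positivity) hs.summable]
    apply ENNReal.tsum_le_tsum
    intro k
    refine (volume_radii_le _ _ _ _).trans (ENNReal.ofReal_le_ofReal (le_of_eq ?_))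
    have : (2 * (1 / 12) * (1 / 2) ^ (n₀ + k) * (2 / 3) ^ (n₀ + k) : ℝ) = 1 / 6 * ((1 / 2) * (2 / 3)) ^ (n₀ + k) := by
      rw [mul_pow]; ring
    rw [this]
    norm_num
    rw [pow_add]; ring
  have hvol2 := (measure_mono hsub).trans hvol
  have h8 := ENNReal.toReal_mono ENNReal.ofReal_ne_top hvol2
  rw [ENNReal.toReal_ofReal (by positivity)] at h8
  refine h8.trans_lt ?_
  have h9 : (1 / 3 : ℝ) ^ n₀ = (1 / 2) ^ n₀ * (2 / 3) ^ n₀ := by rw [← mul_pow]; norm_num
  have h10 : (2 / 3 : ℝ) ^ n₀ ≤ (2 / 3) ^ M := pow_le_pow_of_le_one (by norm_num) (by norm_num) hMn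
  have h11 : (1 / 3 : ℝ) ^ n₀ ≤ 12 * r * (c / 3) := by
    rw [h9]
    apply mul_le_mul hn₀'.le (h10.trans hM.le) (by positivity) (by positivity)
  have h12 : (1 / 3 : ℝ) ^ n₀ < 12 * r * (c / 3) := by
    rw [h9]
    apply mul_lt_mul hn₀' (h10.trans hM.le) (by positivity) (by positivity)
  nlinarith


theorem leaf_pos (N : ℕ) (y : ℝ) (hy : 0 < y) (w : ℂ) (hw : w ∈ leaves N 0 y) : 0 < w.im := by
  rw [leaves_im N 0 y w hw]
  positivity

theorem box_subset (y : ℝ) : box 0 y ⊆ UH ∩ ball 0 (3 * y) := by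
  rintro ζ ⟨h1, h2, h3⟩
  refine ⟨h2, ?_⟩
  rw [mem_ball, dist_zero_right]
  have := Complex.norm_le_abs_re_add_abs_im ζ
  rw [sub_zero] at h1
  rw [abs_of_pos h2] at this
  linarith

theorem forcing_K (f : ℂ → ℂ) (hf : DifferentiableOn ℂ f UH) (hinj : InjOn f UH)
    (hmaps : MapsTo f UH (ball (0 : ℂ) 1)) (α : ℂ)
    (hT : Tendsto (fun z : UpperHalfPlane => f (z : ℂ))
      (comap (fun z : UpperHalfPlane => (z : ℂ)) (𝓝 0) ⊓ 𝓟 K) (𝓝 α)) (c : ℝ) (hc : 0 < c) :
    Tendsto (fun z : UpperHalfPlane => f (z : ℂ))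
      (comap (fun z : UpperHalfPlane => (z : ℂ)) (𝓝 0) ⊓
        𝓟 {z : UpperHalfPlane | c * ‖(z : ℂ)‖ ≤ z.im}) (𝓝 α) := by
  have hfin : dir f UH ≠ ∞ := by
    unfold dir
    rw [lintegral_deriv_sq_eq f UH isOpen_UH hf hinj]
    apply ne_top_of_le_ne_top (measure_ball_lt_top (x := (0 : ℂ)) (r := 1) (μ := volume)).ne
    apply measure_mono
    rintro _ ⟨z, hz, rfl⟩
    exact hmaps hz
  -- small balls carry little Dirichlet integral
  have hsmall : Tendsto (fun ρ : ℝ => (dir f (UH ∩ ball 0 ρ)).toReal) (𝓝[>] 0) (𝓝 0) := by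
    have h1 : Tendsto (fun ρ : ℝ => dir f (UH ∩ ball 0 ρ)) (𝓝[>] 0) (𝓝 0) := by
      have h2 : ∀ ρ : ℝ, dir f (UH ∩ ball 0 ρ) = ∫⁻ z in ball 0 ρ, ‖deriv f z‖ₑ ^ 2 ∂(volume.restrict UH) := by
        intro ρ
        unfold dir
        rw [Measure.restrict_restrict isOpen_ball.measurableSet, inter_comm]
      simp_rw [h2]
      apply tendsto_setLIntegral_zero (μ := volume.restrict UH)
      · exact hfin
      · have h3 : Tendsto (fun ρ : ℝ => volume (ball (0:ℂ) ρ)) (𝓝[>] 0) (𝓝 0) := by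
          simp_rw [Complex.volume_ball]
          have : Tendsto (fun ρ : ℝ => ENNReal.ofReal ρ ^ 2 * (NNReal.pi : ℝ≥0∞)) (𝓝 0) (𝓝 (ENNReal.ofReal 0 ^ 2 * (NNReal.pi : ℝ≥0∞))) := by
            apply ENNReal.Tendsto.mul_const
            · exact ((ENNReal.continuous_pow 2).tendsto _).comp ((ENNReal.continuous_ofReal).tendsto 0)
            · right; exact ENNReal.coe_ne_top
          simp at this
          exact this.mono_left nhdsWithin_le_nhds
        refine tendsto_of_tendsto_of_tendsto_of_le_of_le tendsto_const_nhds h3 (fun _ => bot_le) ?_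
        intro ρ
        exact Measure.restrict_apply_le _ _
    have := (ENNReal.tendsto_toReal ENNReal.zero_ne_top).comp h1
    rw [ENNReal.toReal_zero] at this
    exact this
  rw [Metric.tendsto_nhds] at hT
  rw [Metric.tendsto_nhds]
  intro η hη
  have hT1 := hT (η / 2) (by positivity)
  rw [eventually_inf_principal, eventually_comap, Metric.eventually_nhds_iff] at hT1
  obtain ⟨δ, hδ, hδ'⟩ := hT1
  -- choose c' ≤ 1
  set c' := min c 1 with hc'
  have hc'0 : 0 < c' := lt_min hc one_pos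
  set B := 4 / c' + 12 with hB
  have hB0 : 0 < B := by positivity
  have hs1 : ∀ᶠ ρ in 𝓝[>] (0:ℝ), (dir f (UH ∩ ball 0 ρ)).toReal < (η / (2 * B)) ^ 2 :=
    hsmall.eventually_lt_const (by positivity)
  rw [eventually_nhdsWithin_iff, Metric.eventually_nhds_iff] at hs1
  obtain ⟨ρ₀, hρ₀, hρ₀'⟩ := hs1
  rw [eventually_inf_principal, eventually_comap, Metric.eventually_nhds_iff]
  refine ⟨min (min (δ / 4) (ρ₀ / 12)) 1, by positivity, ?_⟩
  rintro ζ hζ z rfl hz
  rw [dist_zero_right, lt_min_iff, lt_min_iff] at hζ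
  obtain ⟨⟨hζ1, hζ2⟩, hζ3⟩ := hζ
  have hz0 : 0 < ‖(z : ℂ)‖ := by
    have := Complex.abs_im_le_norm (z : ℂ)
    have h2 : 0 < (z : ℂ).im := z.im_pos
    rw [abs_of_pos h2] at this
    linarith
  obtain ⟨n, hn1, hn2⟩ := exists_nat_pow_near_of_lt_one hz0 hζ3.le (show (0:ℝ) < 1 / 2 by norm_num)
    (show (1 / 2 : ℝ) < 1 by norm_num)
  set y : ℝ := (1 / 2) ^ n with hy
  have hy0 : 0 < y := by positivity
  have hn1' : y / 2 < ‖(z : ℂ)‖ := by rw [pow_succ] at hn1; linarith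
  set V := UH ∩ ball 0 (3 * y) with hV
  have hVo : IsOpen V := isOpen_UH.inter isOpen_ball
  have hfV : DifferentiableOn ℂ f V := hf.mono inter_subset_left
  have hVfin : dir f V ≠ ∞ := ne_top_of_le_ne_top hfin (dir_mono f inter_subset_left)
  have hD : √((dir f V).toReal) < η / (2 * B) := by
    rw [Real.sqrt_lt' (by positivity)]
    apply hρ₀'
    · rw [Real.dist_eq, sub_zero, abs_of_pos (by positivity)]
      linarith
    · exact mem_Ioi.mpr (by positivity)
  -- the leaf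
  obtain ⟨w, hw, hw'⟩ := exists_leaf (fun w => ‖f w - f ⟨0, y⟩‖) n 0 y
  have hwavg := leafAvg_le f hf hfin (f ⟨0, y⟩) n 0 y hy0
  have hwim := leaf_pos n y hy0 w hw
  have hw1 : ‖f w - f ⟨0, y⟩‖ ≤ 12 * √((dir f V).toReal) := by
    refine hw'.trans (hwavg.trans ?_)
    rw [sub_self, norm_zero, zero_add]
    have : (dir f (box 0 y)).toReal ≤ (dir f V).toReal :=
      ENNReal.toReal_mono hVfin (dir_mono f (box_subset y))
    gcongr
  have hw2 : ‖f w - α‖ < η / 2 := by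
    have := hδ' (y := w) (by
      rw [dist_zero_right]
      have := leaves_norm_le n y hy0 w hw
      linarith) ⟨w, hwim⟩ rfl ⟨n, hw⟩
    rwa [dist_eq_norm] at this
  -- segment bound
  have hzim : c * ‖(z : ℂ)‖ ≤ (z : ℂ).im := hz
  have hS : Convex ℝ {ζ : ℂ | ‖ζ‖ ≤ y ∧ c' * y / 2 ≤ ζ.im} := by
    have h1 : Convex ℝ (closedBall (0:ℂ) y) := convex_closedBall _ _
    have h2 : Convex ℝ {ζ : ℂ | c' * y / 2 ≤ ζ.im} := convex_halfSpace_im_ge _
    have h3 : {ζ : ℂ | ‖ζ‖ ≤ y ∧ c' * y / 2 ≤ ζ.im} = closedBall (0:ℂ) y ∩ {ζ : ℂ | c' * y / 2 ≤ ζ.im} := by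
      ext ζ; simp
    rw [h3]
    exact h1.inter h2
  have hc'1 : c' ≤ 1 := min_le_right _ _
  have hc'c : c' ≤ c := min_le_left _ _
  have hseg := seg_bound f V hVo hfV hVfin {ζ : ℂ | ‖ζ‖ ≤ y ∧ c' * y / 2 ≤ ζ.im} hS (c' * y / 2) (by positivity)
    (by
      rintro ζ ⟨h1, h2⟩ ξ hξ
      rw [mem_ball, dist_eq_norm] at hξ
      have h3 := (Complex.abs_im_le_norm (ξ - ζ)).trans_lt hξ
      rw [Complex.sub_im, abs_lt] at h3
      refine ⟨?_, ?_⟩
      · show 0 < ξ.im
        linarith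
      · rw [mem_ball, dist_zero_right]
        have h4 : ‖ξ‖ ≤ ‖ξ - ζ‖ + ‖ζ‖ := by
          calc ‖ξ‖ = ‖(ξ - ζ) + ζ‖ := by ring_nf
            _ ≤ _ := norm_add_le _ _
        nlinarith)
    ⟨0, y⟩ (z : ℂ) (by
      constructor
      · rw [Complex.norm_def]
        apply Real.sqrt_le_iff.mpr
        refine ⟨hy0.le, ?_⟩
        simp [Complex.normSq_apply, sq]
      · simp only
        nlinarith)
    (by
      refine ⟨hn2, ?_⟩
      nlinarith)
  have hzy : ‖(z : ℂ) - ⟨0, y⟩‖ ≤ 2 * y := by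
    have h1 : ‖(⟨0, y⟩ : ℂ)‖ ≤ y := by
      rw [Complex.norm_def]
      apply Real.sqrt_le_iff.mpr
      refine ⟨hy0.le, ?_⟩
      simp [Complex.normSq_apply, sq]
    have := norm_sub_le (z : ℂ) ⟨0, y⟩
    linarith
  have hseg2 : ‖f z - f ⟨0, y⟩‖ ≤ 4 / c' * √((dir f V).toReal) := by
    refine hseg.trans ?_
    calc √((dir f V).toReal) / (c' * y / 2) * ‖(z : ℂ) - ⟨0, y⟩‖ 
        ≤ √((dir f V).toReal) / (c' * y / 2) * (2 * y) := by gcongr
      _ = 4 / c' * √((dir f V).toReal) := by field_simp; ring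
  rw [dist_eq_norm]
  have t1 : ‖f z - α‖ ≤ ‖f z - f ⟨0, y⟩‖ + ‖f ⟨0, y⟩ - α‖ := norm_sub_le_norm_sub_add_norm_sub _ _ _
  have t2 : ‖f ⟨0, y⟩ - α‖ ≤ ‖f ⟨0, y⟩ - f w‖ + ‖f w - α‖ := norm_sub_le_norm_sub_add_norm_sub _ _ _
  rw [norm_sub_rev (f ⟨0, y⟩) (f w)] at t2
  have t3 : B * √((dir f V).toReal) < η / 2 := by
    calc B * √((dir f V).toReal) < B * (η / (2 * B)) := by gcongr
      _ = η / 2 := by field_simp
  have t4 : B * √((dir f V).toReal) = 4 / c' * √((dir f V).toReal) + 12 * √((dir f V).toReal) := by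
    rw [hB]; ring
  linarith


end helpers

/-- The negation of the preceding statement: If a set K in the upper half-plane forces every univalent map into the unit disc with a limit along K at 0 to have that angular limit at 0, then for each l>0 the moduli of its hyperbolic l-neighbourhood have positive upper density at 0. -/
theorem result :
    ¬ (∀ K : Set UpperHalfPlane,
    (∀ f : ℂ → ℂ, DifferentiableOn ℂ f {z : ℂ | 0 < z.im} →
      Set.InjOn f {z : ℂ | 0 < z.im} →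
      Set.MapsTo f {z : ℂ | 0 < z.im} (Metric.ball (0 : ℂ) 1) →
      ∀ α : ℂ,
        Filter.Tendsto (fun z : UpperHalfPlane => f (z : ℂ))
          (Filter.comap (fun z : UpperHalfPlane => (z : ℂ)) (nhds 0) ⊓ Filter.principal K)
          (nhds α) →
        ∀ c : ℝ, 0 < c →
          Filter.Tendsto (fun z : UpperHalfPlane => f (z : ℂ))
            (Filter.comap (fun z : UpperHalfPlane => (z : ℂ)) (nhds 0) ⊓
              Filter.principal {z : UpperHalfPlane | c * ‖(z : ℂ)‖ ≤ z.im})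
            (nhds α)) →
    ∀ l : ℝ, 0 < l →
      ∃ c : ℝ, 0 < c ∧ ∀ ε : ℝ, 0 < ε → ∃ r : ℝ, 0 < r ∧ r < ε ∧
        c * r ≤ (MeasureTheory.volume
          ({t : ℝ | ∃ z : UpperHalfPlane, (∃ w ∈ K, dist z w < l) ∧ ‖(z : ℂ)‖ = t}
            ∩ Set.Ioo 0 r)).toReal) := by
  intro H
  have h1 := H K (fun f hf hinj hmaps α hT c hc => forcing_K f hf hinj hmaps α hT c hc)
    (Real.log (13 / 12)) (Real.log_pos (by norm_num))
  obtain ⟨c, hc, h2⟩ := h1
  obtain ⟨ε, hε, h3⟩ := measure_bound c hc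
  obtain ⟨r, hr, hrε, h4⟩ := h2 ε hε
  exact absurd (h3 r hr hrε) (not_lt.mpr h4)

end Pool.Agent.S03856
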