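import Pool.Statements.S03862
import Pool.Agent.Helper552.NevE

set_option autoImplicit false
open Filter
open Pool Pool.MP_b2d7d1_an

namespace Pool.Agent.S03862

/-- The negation of the preceding statement: If f is meromorphic on the plane, of finite order, and has at least three distinct deficient values in ℂ∪{∞}, then for every σ>1 the ratio T(σr)/T(r) of Nevanlinna characteristics stays bounded for all large r. -/
theorem result :
    ¬ (∀ f : ℂ → ℂ, MeromorphicOn f Set.univ →
      (∃ ρ : ℝ, ∀ᶠ r in atTop, ValueDistribution.characteristic f ⊤ r ≤ r ^ ρ) →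
      (∃ S : Finset (WithTop ℂ), 2 < S.card ∧
        ∀ a ∈ S, ∃ ε : ℝ, 0 < ε ∧
          ∀ᶠ r in atTop, ε * ValueDistribution.characteristic f ⊤ r ≤
            ValueDistribution.proximity f a r) →
      ∀ σ : ℝ, 1 < σ → ∃ C : ℝ, ∀ᶠ r in atTop,
        ValueDistribution.characteristic f ⊤ (σ * r) ≤
          C * ValueDistribution.characteristic f ⊤ r) := by
  intro H
  classical
  have h3 : ∃ S : Finset (WithTop ℂ), 2 < S.card ∧
        ∀ a ∈ S, ∃ ε : ℝ, 0 < ε ∧
          ∀ᶠ r in atTop, ε * ValueDistribution.characteristic Pool.Agent.Helper552.Nev.f ⊤ r ≤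
            ValueDistribution.proximity Pool.Agent.Helper552.Nev.f a r := by
    refine ⟨{((0 : ℂ) : WithTop ℂ), ((1 : ℂ) : WithTop ℂ), ⊤}, ?_, ?_⟩
    · rw [Finset.card_insert_of_notMem, Finset.card_insert_of_notMem, Finset.card_singleton]
      · norm_num
      · simp
      · rw [Finset.mem_insert, Finset.mem_singleton]
        push Not
        refine ⟨?_, WithTop.coe_ne_top⟩
        intro h
        exact zero_ne_one (WithTop.coe_injective h)
    · intro a ha
      rw [Finset.mem_insert, Finset.mem_insert, Finset.mem_singleton] at ha
      rcases ha with rfl | rfl | rfl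
      · have := Pool.Agent.Helper552.Nev.deficient Pool.Agent.Helper552.Nev.sec0 le_rfl
          (by linarith [Real.pi_gt_three])
        rw [ValueDistribution.proximity_coe]
        simpa only [sub_zero] using this
      · have := Pool.Agent.Helper552.Nev.deficient Pool.Agent.Helper552.Nev.sec1 (by positivity)
          (by linarith [Real.pi_gt_three])
        rw [ValueDistribution.proximity_coe]
        exact this
      · have := Pool.Agent.Helper552.Nev.deficient Pool.Agent.Helper552.Nev.sec2 (by positivity)
          (by linarith [Real.pi_gt_three])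
        rw [ValueDistribution.proximity_top]
        exact this
  have key := H Pool.Agent.Helper552.Nev.f Pool.Agent.Helper552.Nev.mf.meromorphicOn
    Pool.Agent.Helper552.Nev.finite_order h3 2 (by norm_num)
  exact Pool.Agent.Helper552.Nev.not_regular key

end Pool.Agent.S03862
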