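import Pool.Statements.S03868
import Mathlib

set_option autoImplicit false
open Pool Pool.MP_b37dfb_an

namespace Pool.Agent.S03868

noncomputable section

open Finset

/-- root of unity -/
def rt (Q : ℕ) : ℂ := Complex.exp (2 * Real.pi * Complex.I / Q)

lemma rt_prim {Q : ℕ} (hQ : Q ≠ 0) : IsPrimitiveRoot (rt Q) Q := Complex.isPrimitiveRoot_exp Q hQ

lemma rt_norm (Q : ℕ) : ‖rt Q‖ = 1 := by
  unfold rt
  rw [show (2 * Real.pi * Complex.I / Q : ℂ) = ((2 * Real.pi / Q : ℝ) : ℂ) * Complex.I by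
    push_cast; ring]
  exact Complex.norm_exp_ofReal_mul_I _

lemma rt_conj (Q : ℕ) : (starRingEnd ℂ) (rt Q) = (rt Q)⁻¹ := by
  rw [Complex.inv_eq_conj (rt_norm Q)]

lemma rt_ne (Q : ℕ) : rt Q ≠ 0 := by
  intro h
  have := rt_norm Q
  rw [h] at this; simp at this

lemma orth {Q : ℕ} (hQ : Q ≠ 0) {m n : ℕ} (hm : m < Q) (hn : n < Q) :
    ∑ q ∈ range Q, (rt Q) ^ (q * m) * ((rt Q)⁻¹) ^ (q * n) = if m = n then (Q : ℂ) else 0 := by
  have hp := rt_prim hQ
  have e : ∀ q, (rt Q) ^ (q * m) * ((rt Q)⁻¹) ^ (q * n) = ((rt Q) ^ m * ((rt Q)⁻¹) ^ n) ^ q := by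
    intro q
    rw [mul_pow, ← pow_mul, ← pow_mul, mul_comm q m, mul_comm q n]
  simp only [e]
  split_ifs with h
  · subst h
    rw [inv_pow, mul_inv_cancel₀ (pow_ne_zero _ (rt_ne Q))]
    simp
  · set r := (rt Q) ^ m * ((rt Q)⁻¹) ^ n with hr
    have hr1 : r ≠ 1 := by
      intro h1
      rw [hr, inv_pow, mul_inv_eq_one₀ (pow_ne_zero _ (rt_ne Q))] at h1
      exact h (hp.pow_inj hm hn h1)
    have hrQ : r ^ Q = 1 := by
      rw [hr, mul_pow, ← pow_mul, ← pow_mul, mul_comm m Q, mul_comm n Q, pow_mul, pow_mul, inv_pow,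
        hp.pow_eq_one]
      simp
    have := mul_geom_sum r Q
    rw [hrQ, sub_self] at this
    rcases mul_eq_zero.mp this with h2 | h2
    · exact absurd (sub_eq_zero.mp h2) hr1
    · exact h2

lemma parseval {Q : ℕ} (hQ : Q ≠ 0) {L : ℕ} (hL : L ≤ Q) (x : ℕ → ℂ) :
    ∑ q ∈ range Q, ‖∑ a ∈ range L, x a * (rt Q) ^ (q * a)‖ ^ 2 = Q * ∑ a ∈ range L, ‖x a‖ ^ 2 := by
  have h : ((∑ q ∈ range Q, ‖∑ a ∈ range L, x a * (rt Q) ^ (q * a)‖ ^ 2 : ℝ) : ℂ) =
      ((Q * ∑ a ∈ range L, ‖x a‖ ^ 2 : ℝ) : ℂ) := by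
    push_cast
    have e : ∀ q, ((‖∑ a ∈ range L, x a * (rt Q) ^ (q * a)‖ : ℂ)) ^ 2 =
        ∑ a ∈ range L, ∑ b ∈ range L, x a * (starRingEnd ℂ) (x b) *
          ((rt Q) ^ (q * a) * ((rt Q)⁻¹) ^ (q * b)) := by
      intro q
      rw [← Complex.mul_conj', map_sum, sum_mul_sum]
      apply sum_congr rfl; intro a _
      apply sum_congr rfl; intro b _
      rw [map_mul, map_pow, rt_conj]
      ring
    simp only [e]
    rw [sum_comm, mul_sum]
    apply sum_congr rfl
    intro a ha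
    rw [sum_comm]
    rw [sum_eq_single a]
    · rw [← mul_sum, orth hQ (lt_of_lt_of_le (mem_range.mp ha) hL) (lt_of_lt_of_le (mem_range.mp ha) hL), if_pos rfl,
        Complex.mul_conj']
      ring
    · intro b hb hba
      rw [← mul_sum, orth hQ (lt_of_lt_of_le (mem_range.mp ha) hL) (lt_of_lt_of_le (mem_range.mp hb) hL),
        if_neg (Ne.symm hba), mul_zero]
    · intro h; exact absurd ha h
  exact_mod_cast h

/-- absolutely summable power series -/
def AS (G : PowerSeries ℂ) : Prop := Summable (fun n => ‖PowerSeries.coeff n G‖)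

def ev (G : PowerSeries ℂ) (z : ℂ) : ℂ := ∑' n, PowerSeries.coeff n G * z ^ n

lemma AS.summable_norm {G : PowerSeries ℂ} (h : AS G) {z : ℂ} (hz : ‖z‖ = 1) :
    Summable (fun n => ‖PowerSeries.coeff n G * z ^ n‖) := by
  unfold AS at h
  simpa only [norm_mul, norm_pow, hz, one_pow, mul_one] using h

lemma AS.mul {G H : PowerSeries ℂ} (hG : AS G) (hH : AS H) : AS (G * H) := by
  unfold AS at hG hH ⊢
  have := summable_norm_sum_mul_antidiagonal_of_summable_norm
    (f := fun n => PowerSeries.coeff n G) (g := fun n => PowerSeries.coeff n H) hG hH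
  simpa only [PowerSeries.coeff_mul] using this

lemma ev_mul {G H : PowerSeries ℂ} (hG : AS G) (hH : AS H) {z : ℂ} (hz : ‖z‖ = 1) :
    ev (G * H) z = ev G z * ev H z := by
  unfold ev
  rw [tsum_mul_tsum_eq_tsum_sum_antidiagonal_of_summable_norm (hG.summable_norm hz) (hH.summable_norm hz)]
  apply tsum_congr
  intro n
  rw [PowerSeries.coeff_mul, sum_mul]
  apply sum_congr rfl
  rintro ⟨i, j⟩ hij
  have hij' : i + j = n := HasAntidiagonal.mem_antidiagonal.mp hij
  rw [← hij', pow_add]; ring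

lemma AS_poly (P : Polynomial ℂ) : AS (P : PowerSeries ℂ) := by
  unfold AS
  apply summable_of_ne_finset_zero (s := range (P.natDegree + 1))
  intro n hn
  rw [mem_range, not_lt] at hn
  rw [Polynomial.coeff_coe, Polynomial.coeff_eq_zero_of_natDegree_lt (by omega), norm_zero]

lemma ev_poly (P : Polynomial ℂ) (z : ℂ) : ev (P : PowerSeries ℂ) z = P.eval z := by
  unfold ev
  rw [Polynomial.eval_eq_sum_range, tsum_eq_sum (s := range (P.natDegree + 1))]
  · simp
  · intro n hn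
    rw [mem_range, not_lt] at hn
    rw [Polynomial.coeff_coe, Polynomial.coeff_eq_zero_of_natDegree_lt (by omega), zero_mul]

/-- the square root series of 1 - X -/
def sq1 : PowerSeries ℂ := PowerSeries.mk fun n => match n with
  | 0 => 1
  | (n + 1) => - (catalan n : ℂ) / (2 * 4 ^ n)

lemma cat_tele (n : ℕ) : (catalan n : ℝ) / (2 * 4 ^ n) =
    (n.centralBinom : ℝ) / 4 ^ n - ((n + 1).centralBinom : ℝ) / 4 ^ (n + 1) := by
  have h1 : ((n:ℝ) + 1) * catalan n = n.centralBinom := by exact_mod_cast succ_mul_catalan_eq_centralBinom n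
  have h2 : ((n:ℝ) + 1) * (n + 1).centralBinom = 2 * (2 * n + 1) * n.centralBinom := by
    exact_mod_cast Nat.succ_mul_centralBinom_succ n
  have hn : (0:ℝ) < (n:ℝ) + 1 := by positivity
  have h3 : ((n + 1).centralBinom : ℝ) = 2 * (2 * n + 1) * catalan n := by
    have : ((n:ℝ) + 1) * (n + 1).centralBinom = ((n:ℝ) + 1) * (2 * (2 * n + 1) * catalan n) := by
      rw [h2, ← h1]; ring
    exact mul_left_cancel₀ hn.ne' this
  rw [← h1, h3, pow_succ]
  field_simp
  ring

lemma cat_sum (n : ℕ) : ∑ i ∈ range n, (catalan i : ℝ) / (2 * 4 ^ i) ≤ 1 := by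
  have : ∑ i ∈ range n, (catalan i : ℝ) / (2 * 4 ^ i) = 1 - (n.centralBinom : ℝ) / 4 ^ n := by
    induction n with
    | zero => simp
    | succ n ih => rw [sum_range_succ, ih, cat_tele]; ring
  rw [this]
  have : (0:ℝ) ≤ (n.centralBinom : ℝ) / 4 ^ n := by positivity
  linarith

lemma sq1_AS : AS sq1 := by
  unfold AS
  rw [← summable_nat_add_iff 1]
  apply summable_of_sum_range_le (c := 1)
  · intro n; exact norm_nonneg _
  · intro n
    refine le_trans (le_of_eq ?_) (cat_sum n)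
    apply sum_congr rfl
    intro i _
    simp [sq1, PowerSeries.coeff_mk]

lemma sq1_mul : sq1 * sq1 = 1 - PowerSeries.X := by
  ext n
  rw [PowerSeries.coeff_mul]
  match n with
  | 0 => simp [sq1]
  | 1 => 
    rw [Finset.Nat.sum_antidiagonal_eq_sum_range_succ_mk]
    simp [sum_range_succ, sq1, PowerSeries.coeff_one]
  | (n + 2) =>
    rw [Finset.Nat.sum_antidiagonal_eq_sum_range_succ_mk, sum_range_succ, sum_range_succ']
    have hmid : ∀ k ∈ range (n + 1), PowerSeries.coeff (k + 1) sq1 * PowerSeries.coeff (n + 2 - (k + 1)) sq1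
        = (catalan k * catalan (n - k) : ℂ) / (4 * 4 ^ n) := by
      intro k hk
      have hk' : k ≤ n := by
        have := mem_range.mp hk; omega
      have e1 : n + 2 - (k + 1) = (n - k) + 1 := by omega
      rw [e1]
      simp only [sq1, PowerSeries.coeff_mk]
      have e2 : (4:ℂ) ^ n = 4 ^ k * 4 ^ (n - k) := by rw [← pow_add]; congr 1; omega
      rw [e2]
      field_simp
      ring
    rw [sum_congr rfl hmid, ← sum_div]
    have hcat : ∑ k ∈ range (n + 1), (catalan k * catalan (n - k) : ℂ) = catalan (n + 1) := by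
      rw [catalan_succ]
      push_cast
      rw [← Fin.sum_univ_eq_sum_range (fun k => (catalan k * catalan (n - k) : ℂ)) (n + 1)]
    rw [hcat]
    simp only [sq1, PowerSeries.coeff_mk, Nat.sub_self, Nat.sub_zero, map_sub, PowerSeries.coeff_one,
      PowerSeries.coeff_X]
    simp
    rw [pow_succ]
    field_simp
    ring

lemma ev_norm_sq_of_sq {R G : PowerSeries ℂ} (hR : AS R) (h : R * R = G) {z : ℂ} (hz : ‖z‖ = 1) :
    ‖ev R z‖ ^ 2 = ‖ev G z‖ := by
  rw [← h, ev_mul hR hR hz, norm_mul, sq]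

/-- factorisation property -/
def Fac (P : Polynomial ℂ) : Prop := ∃ G H : PowerSeries ℂ, AS G ∧ AS H ∧ G * H = (P : PowerSeries ℂ) ∧
  ∀ z : ℂ, ‖z‖ = 1 → ‖ev G z‖ ^ 2 = ‖P.eval z‖ ∧ ‖ev H z‖ ^ 2 = ‖P.eval z‖

lemma Fac.mul {P Q : Polynomial ℂ} (hP : Fac P) (hQ : Fac Q) : Fac (P * Q) := by
  obtain ⟨G, H, hG, hH, hGH, hv⟩ := hP
  obtain ⟨G', H', hG', hH', hGH', hv'⟩ := hQ
  refine ⟨G * G', H * H', hG.mul hG', hH.mul hH', ?_, ?_⟩
  · rw [Polynomial.coe_mul, ← hGH, ← hGH']; ring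
  · intro z hz
    rw [ev_mul hG hG' hz, ev_mul hH hH' hz, Polynomial.eval_mul, norm_mul, norm_mul, norm_mul,
      mul_pow, mul_pow, (hv z hz).1, (hv z hz).2, (hv' z hz).1, (hv' z hz).2]
    exact ⟨rfl, rfl⟩

lemma Fac_of_sq {P : Polynomial ℂ} {R : PowerSeries ℂ} (hR : AS R) (h : R * R = (P : PowerSeries ℂ)) :
    Fac P := by
  refine ⟨R, R, hR, hR, h, fun z hz => ?_⟩
  have := ev_norm_sq_of_sq hR h hz
  rw [ev_poly] at this
  exact ⟨this, this⟩

lemma Fac_C (c : ℂ) : Fac (Polynomial.C c) := by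
  obtain ⟨s, hs⟩ := IsAlgClosed.exists_pow_nat_eq c (n := 2) (by norm_num)
  refine Fac_of_sq (R := ((Polynomial.C s : Polynomial ℂ) : PowerSeries ℂ)) (AS_poly _) ?_
  rw [← Polynomial.coe_mul, ← Polynomial.C_mul, ← sq, hs]

/-- square root of 1 - b X -/
def sqb (b : ℂ) : PowerSeries ℂ := PowerSeries.rescale b sq1

lemma sqb_AS {b : ℂ} (hb : ‖b‖ ≤ 1) : AS (sqb b) := by
  have h := sq1_AS
  unfold AS at h ⊢
  refine Summable.of_nonneg_of_le (fun n => norm_nonneg _) (fun n => ?_) h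
  unfold sqb
  rw [PowerSeries.coeff_rescale, norm_mul, norm_pow]
  exact mul_le_of_le_one_left (norm_nonneg _) (pow_le_one₀ (norm_nonneg _) hb)

lemma sqb_mul (b : ℂ) : sqb b * sqb b =
    ((1 - Polynomial.C b * Polynomial.X : Polynomial ℂ) : PowerSeries ℂ) := by
  unfold sqb
  rw [← map_mul, sq1_mul, map_sub, map_one, PowerSeries.rescale_X]
  simp

/-- geometric series -/
def geo (b : ℂ) : PowerSeries ℂ := PowerSeries.mk fun n => b ^ n

lemma geo_AS {b : ℂ} (hb : ‖b‖ < 1) : AS (geo b) := by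
  unfold AS geo
  simp only [PowerSeries.coeff_mk, norm_pow]
  exact summable_geometric_of_lt_one (norm_nonneg _) hb

lemma geo_mul (b : ℂ) : geo b *
    ((1 - Polynomial.C b * Polynomial.X : Polynomial ℂ) : PowerSeries ℂ) = 1 := by
  ext n
  rw [Polynomial.coe_sub, Polynomial.coe_one, Polynomial.coe_mul, Polynomial.coe_C, Polynomial.coe_X, mul_sub, mul_one,
    mul_comm (PowerSeries.C b), ← mul_assoc, map_sub, PowerSeries.coeff_mul_C]
  cases n with
  | zero => simp [geo]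
  | succ n =>
    rw [PowerSeries.coeff_succ_mul_X]
    simp [geo, PowerSeries.coeff_one, pow_succ]

lemma Fac_lin (a : ℂ) : Fac (Polynomial.X - Polynomial.C a) := by
  rcases le_or_gt 1 ‖a‖ with ha | ha
  · have ha0 : a ≠ 0 := by
      intro h; rw [h] at ha; simp at ha; linarith
    have e : (Polynomial.X - Polynomial.C a : Polynomial ℂ) =
        Polynomial.C (-a) * (1 - Polynomial.C (a⁻¹) * Polynomial.X) := by
      rw [mul_sub, mul_one, ← mul_assoc, ← Polynomial.C_mul]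
      have : -a * a⁻¹ = -1 := by field_simp
      rw [this]
      simp; ring
    rw [e]
    apply (Fac_C _).mul
    apply Fac_of_sq (R := sqb a⁻¹) (sqb_AS _) (sqb_mul _)
    rw [norm_inv]
    exact inv_le_one_of_one_le₀ ha
  · set b := (starRingEnd ℂ) a with hb
    have hbn : ‖b‖ < 1 := by rw [hb, Complex.norm_conj]; exact ha
    refine ⟨sqb b, sqb b * geo b * ((Polynomial.X - Polynomial.C a : Polynomial ℂ) : PowerSeries ℂ),
      sqb_AS hbn.le, ((sqb_AS hbn.le).mul (geo_AS hbn)).mul (AS_poly _), ?_, ?_⟩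
    · calc sqb b * (sqb b * geo b * ((Polynomial.X - Polynomial.C a : Polynomial ℂ) : PowerSeries ℂ))
          = (sqb b * sqb b) * geo b * ((Polynomial.X - Polynomial.C a : Polynomial ℂ) : PowerSeries ℂ) := by ring
        _ = _ := by rw [sqb_mul, mul_comm _ (geo b), geo_mul, one_mul]
    · intro z hz
      have hzz : z * (starRingEnd ℂ) z = 1 := by
        rw [Complex.mul_conj', hz]; norm_num
      have hnorm : ‖z - a‖ = ‖1 - b * z‖ := by
        have : 1 - b * z = z * (starRingEnd ℂ) (z - a) := by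
          rw [map_sub, mul_sub, hzz, hb]; ring
        rw [this, norm_mul, hz, one_mul, Complex.norm_conj]
      have hev1 : ‖ev (sqb b) z‖ ^ 2 = ‖1 - b * z‖ := by
        rw [ev_norm_sq_of_sq (sqb_AS hbn.le) (sqb_mul b) hz, ev_poly]
        simp
      have hgeo : ‖ev (geo b) z‖ * ‖1 - b * z‖ = 1 := by
        have := ev_mul (geo_AS hbn) (AS_poly (1 - Polynomial.C b * Polynomial.X)) hz
        rw [geo_mul, ev_poly] at this
        have h1 : ev 1 z = 1 := by
          have := ev_poly 1 z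
          simpa using this
        rw [h1] at this
        have h2 := congrArg norm this
        rw [norm_mul, norm_one] at h2
        simpa using h2.symm
      have hpos : 0 < ‖1 - b * z‖ := by
        by_contra h
        have : ‖1 - b * z‖ = 0 := le_antisymm (not_lt.mp h) (norm_nonneg _)
        rw [this, mul_zero] at hgeo
        exact zero_ne_one hgeo
      have hg : ‖ev (geo b) z‖ = 1 / ‖1 - b * z‖ := by
        field_simp; exact hgeo
      constructor
      · rw [hev1]; simp [hnorm]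
      · rw [ev_mul ((sqb_AS hbn.le).mul (geo_AS hbn)) (AS_poly _) hz, ev_mul (sqb_AS hbn.le) (geo_AS hbn) hz,
          ev_poly, norm_mul, norm_mul, mul_pow, mul_pow, hev1, hg]
        simp only [Polynomial.eval_sub, Polynomial.eval_X, Polynomial.eval_C]
        rw [hnorm]
        field_simp

lemma Fac_all (P : Polynomial ℂ) : Fac P := by
  have h := Polynomial.C_leadingCoeff_mul_prod_multiset_X_sub_C (p := P)
    IsAlgClosed.card_roots_eq_natDegree
  rw [← h]
  apply (Fac_C _).mul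
  induction P.roots using Multiset.induction_on with
  | empty => simpa using Fac_C 1
  | cons a s ih =>
    rw [Multiset.map_cons, Multiset.prod_cons]
    exact (Fac_lin a).mul ih


/-- integral over the circle -/
def NN (Φ : ℂ → ℝ) : ℝ := ∫ t in (0:ℝ)..(2 * Real.pi), Φ (Complex.exp (t * Complex.I))

lemma exp_cont : Continuous (fun t : ℝ => Complex.exp (t * Complex.I)) := by fun_prop

lemma exp_norm (t : ℝ) : ‖Complex.exp (t * Complex.I)‖ = 1 := Complex.norm_exp_ofReal_mul_I t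

lemma NN_int {Φ : ℂ → ℝ} (hΦ : Continuous Φ) :
    IntervalIntegrable (fun t : ℝ => Φ (Complex.exp (t * Complex.I))) MeasureTheory.volume 0 (2 * Real.pi) :=
  (hΦ.comp exp_cont).intervalIntegrable _ _

lemma NN_rot (Φ : ℂ → ℝ) {u : ℂ} (hu : ‖u‖ = 1) : NN (fun z => Φ (z * u)) = NN Φ := by
  obtain ⟨θ, hθ⟩ : ∃ θ : ℝ, u = Complex.exp (θ * Complex.I) := by
    refine ⟨Complex.arg u, ?_⟩
    have := Complex.norm_mul_exp_arg_mul_I u
    rw [hu] at this
    simpa using this.symm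
  unfold NN
  subst hθ
  have e : ∀ t : ℝ, Φ (Complex.exp (t * Complex.I) * Complex.exp (θ * Complex.I)) =
      (fun s : ℝ => Φ (Complex.exp (s * Complex.I))) (t + θ) := by
    intro t
    simp only
    rw [← Complex.exp_add]
    congr 2
    push_cast; ring
  simp only [e]
  rw [intervalIntegral.integral_comp_add_right (fun s : ℝ => Φ (Complex.exp (s * Complex.I)))]
  have hper : Function.Periodic (fun s : ℝ => Φ (Complex.exp (s * Complex.I))) (2 * Real.pi) := by
    intro s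
    simp only
    congr 1
    push_cast
    rw [add_mul, Complex.exp_add, Complex.exp_two_pi_mul_I, mul_one]
  have := hper.intervalIntegral_add_eq θ 0
  rw [zero_add] at this ⊢
  rw [add_comm (2 * Real.pi) θ]
  exact this

lemma NN_mono {Φ Ψ : ℂ → ℝ} (hΦ : Continuous Φ) (hΨ : Continuous Ψ)
    (h : ∀ z, ‖z‖ = 1 → Φ z ≤ Ψ z) : NN Φ ≤ NN Ψ := by
  unfold NN
  apply intervalIntegral.integral_mono_on (by positivity) (NN_int hΦ) (NN_int hΨ)
  intro t _
  exact h _ (exp_norm t)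

lemma NN_const (c : ℝ) : NN (fun _ => c) = 2 * Real.pi * c := by
  unfold NN; simp

lemma NN_add {Φ Ψ : ℂ → ℝ} (hΦ : Continuous Φ) (hΨ : Continuous Ψ) :
    NN (fun z => Φ z + Ψ z) = NN Φ + NN Ψ := by
  unfold NN
  exact intervalIntegral.integral_add (NN_int hΦ) (NN_int hΨ)

lemma NN_smul (c : ℝ) (Φ : ℂ → ℝ) : NN (fun z => c * Φ z) = c * NN Φ := by
  unfold NN
  exact intervalIntegral.integral_const_mul _ _

lemma NN_sum {ι : Type} (s : Finset ι) (Φ : ι → ℂ → ℝ) (hΦ : ∀ i, Continuous (Φ i)) :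
    NN (fun z => ∑ i ∈ s, Φ i z) = ∑ i ∈ s, NN (Φ i) := by
  unfold NN
  exact intervalIntegral.integral_finsetSum (fun i _ => NN_int (hΦ i))

lemma NN_avg {Q : ℕ} (hQ : Q ≠ 0) {Φ : ℂ → ℝ} (hΦ : Continuous Φ) :
    NN Φ = NN (fun z => (1 / (Q:ℝ)) * ∑ q ∈ range Q, Φ (z * (rt Q) ^ q)) := by
  rw [NN_smul, NN_sum]
  · have : ∀ q ∈ range Q, NN (fun z => Φ (z * (rt Q) ^ q)) = NN Φ := by
      intro q _
      exact NN_rot Φ (by rw [norm_pow, rt_norm, one_pow])
    rw [sum_congr rfl this, sum_const, card_range, nsmul_eq_mul]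
    have : (Q:ℝ) ≠ 0 := by exact_mod_cast hQ
    field_simp
  · intro q
    exact hΦ.comp (by fun_prop)

/-- sum of squares of coefficients -/
def S2 (F : Polynomial ℂ) : ℝ := ∑ n ∈ range (F.natDegree + 1), ‖F.coeff n‖ ^ 2

lemma disc_sq {Q : ℕ} (F : Polynomial ℂ) (hQ : F.natDegree < Q) {z : ℂ} (hz : ‖z‖ = 1) :
    (1 / (Q:ℝ)) * ∑ q ∈ range Q, ‖F.eval (z * (rt Q) ^ q)‖ ^ 2 = S2 F := by
  have hQ0 : Q ≠ 0 := by omega
  have e : ∀ q, F.eval (z * (rt Q) ^ q) =
      ∑ a ∈ range (F.natDegree + 1), (F.coeff a * z ^ a) * (rt Q) ^ (q * a) := by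
    intro q
    rw [Polynomial.eval_eq_sum_range]
    apply sum_congr rfl
    intro a _
    rw [mul_pow, ← pow_mul]; ring
  simp only [e]
  rw [parseval hQ0 (by omega)]
  have : (Q:ℝ) ≠ 0 := by exact_mod_cast hQ0
  rw [← mul_assoc, one_div, inv_mul_cancel₀ this, one_mul]
  unfold S2
  apply sum_congr rfl
  intro a _
  rw [norm_mul, norm_pow, hz, one_pow, mul_one]

lemma NN_sq (F : Polynomial ℂ) : NN (fun z => ‖F.eval z‖ ^ 2) = 2 * Real.pi * S2 F := by
  have hc : Continuous (fun z : ℂ => ‖F.eval z‖ ^ 2) := by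
    exact (F.continuous.norm).pow 2
  rw [NN_avg (Q := F.natDegree + 1) (by omega) hc, ← NN_const]
  unfold NN
  apply intervalIntegral.integral_congr
  intro t _
  exact disc_sq F (by omega) (exp_norm t)

lemma NN_mul_le (G H : Polynomial ℂ) : NN (fun z => ‖(G * H).eval z‖) ≤
    2 * Real.pi * (Real.sqrt (S2 G) * Real.sqrt (S2 H)) := by
  set Q := G.natDegree + H.natDegree + 1 with hQdef
  have hQ0 : Q ≠ 0 := by omega
  have hQr : (0:ℝ) < Q := by positivity
  have hc : Continuous (fun z : ℂ => ‖(G * H).eval z‖) := (G * H).continuous.norm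
  rw [NN_avg hQ0 hc, ← NN_const]
  apply NN_mono
  · apply Continuous.mul continuous_const
    apply continuous_finsetSum
    intro q _
    exact hc.comp (by fun_prop)
  · exact continuous_const
  · intro z hz
    have h1 : ∑ q ∈ range Q, ‖(G * H).eval (z * (rt Q) ^ q)‖ ≤
        Real.sqrt (∑ q ∈ range Q, ‖G.eval (z * (rt Q) ^ q)‖ ^ 2) *
        Real.sqrt (∑ q ∈ range Q, ‖H.eval (z * (rt Q) ^ q)‖ ^ 2) := by
      simp only [Polynomial.eval_mul, norm_mul]
      exact Real.sum_mul_le_sqrt_mul_sqrt _ _ _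
    have h2 : ∑ q ∈ range Q, ‖G.eval (z * (rt Q) ^ q)‖ ^ 2 = Q * S2 G := by
      rw [← disc_sq (Q := Q) G (by omega) hz]; field_simp
    have h3 : ∑ q ∈ range Q, ‖H.eval (z * (rt Q) ^ q)‖ ^ 2 = Q * S2 H := by
      rw [← disc_sq (Q := Q) H (by omega) hz]; field_simp
    rw [h2, h3, Real.sqrt_mul hQr.le, Real.sqrt_mul hQr.le] at h1
    calc 1 / (Q:ℝ) * ∑ q ∈ range Q, ‖(G * H).eval (z * (rt Q) ^ q)‖
        ≤ 1 / (Q:ℝ) * (Real.sqrt Q * Real.sqrt (S2 G) * (Real.sqrt Q * Real.sqrt (S2 H))) := by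
          apply mul_le_mul_of_nonneg_left h1 (by positivity)
      _ = (1 / (Q:ℝ)) * (Real.sqrt Q * Real.sqrt Q) * (Real.sqrt (S2 G) * Real.sqrt (S2 H)) := by ring
      _ = _ := by
          rw [Real.mul_self_sqrt hQr.le]; field_simp

/-- block operator -/
def Bop (F : Polynomial ℂ) (Λ L : ℕ) (z : ℂ) : ℂ :=
  (1 / (L:ℂ)) * ∑ a ∈ range L, ∑ b ∈ range (4 * L), F.coeff (Λ + a + b) * z ^ (Λ + a + b)

lemma Bop_cont (F : Polynomial ℂ) (Λ L : ℕ) : Continuous (Bop F Λ L) := by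
  unfold Bop
  fun_prop

lemma Bop_formula (F : Polynomial ℂ) (Λ L Q : ℕ) (h1 : F.natDegree < Q) (h2 : Λ + 5 * L ≤ Q)
    (hL : L ≠ 0) (z : ℂ) :
    Bop F Λ L z = (1 / (Q:ℂ)) * ∑ q ∈ range Q, ((1 / (L:ℂ)) * (rt Q) ^ (q * Λ) *
      (∑ a ∈ range L, (rt Q) ^ (q * a)) * (∑ b ∈ range (4 * L), (rt Q) ^ (q * b))) *
      F.eval (z * ((rt Q)⁻¹) ^ q) := by
  have hQ0 : Q ≠ 0 := by omega
  have hQc : (Q:ℂ) ≠ 0 := by exact_mod_cast hQ0
  have e : ∀ q, ((1 / (L:ℂ)) * (rt Q) ^ (q * Λ) *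
      (∑ a ∈ range L, (rt Q) ^ (q * a)) * (∑ b ∈ range (4 * L), (rt Q) ^ (q * b))) *
      F.eval (z * ((rt Q)⁻¹) ^ q) = (1 / (L:ℂ)) * ∑ a ∈ range L, ∑ b ∈ range (4 * L), ∑ n ∈ range Q,
        F.coeff n * z ^ n * ((rt Q) ^ (q * (Λ + a + b)) * ((rt Q)⁻¹) ^ (q * n)) := by
    intro q
    rw [Polynomial.eval_eq_sum_range' h1]
    rw [mul_assoc (1 / (L:ℂ)), mul_assoc (1 / (L:ℂ)), mul_assoc (1 / (L:ℂ))]
    congr 1
    rw [mul_assoc ((rt Q) ^ (q * Λ)), sum_mul_sum, mul_assoc, sum_mul, mul_sum]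
    apply sum_congr rfl; intro a _
    rw [sum_mul, mul_sum]
    apply sum_congr rfl; intro b _
    rw [mul_sum, mul_sum]
    apply sum_congr rfl; intro n _
    rw [mul_pow, ← pow_mul, mul_add, mul_add, pow_add, pow_add]
    ring
  simp only [e]
  rw [← mul_sum, sum_comm]
  unfold Bop
  rw [mul_left_comm]
  congr 1
  rw [mul_sum]
  apply sum_congr rfl; intro a ha
  rw [sum_comm, mul_sum]
  apply sum_congr rfl; intro b hb
  rw [sum_comm]
  rw [sum_eq_single (Λ + a + b)]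
  · rw [← mul_sum, orth hQ0, if_pos rfl]
    · field_simp
    · have := mem_range.mp ha; have := mem_range.mp hb; omega
    · have := mem_range.mp ha; have := mem_range.mp hb; omega
  · intro n hn hne
    rw [← mul_sum, orth hQ0, if_neg (Ne.symm hne), mul_zero]
    · have := mem_range.mp ha; have := mem_range.mp hb; omega
    · exact mem_range.mp hn
  · intro h
    exfalso; apply h
    rw [mem_range]
    have := mem_range.mp ha; have := mem_range.mp hb; omega

lemma Bop_bound (F : Polynomial ℂ) (Λ L : ℕ) (hL : L ≠ 0) :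
    NN (fun z => ‖Bop F Λ L z‖) ≤ 2 * NN (fun z => ‖F.eval z‖) := by
  set Q := F.natDegree + Λ + 5 * L + 1 with hQdef
  have hQ0 : Q ≠ 0 := by omega
  have hQr : (0:ℝ) < Q := by positivity
  have hLr : (0:ℝ) < L := by positivity
  set K : ℕ → ℂ := fun q => (1 / (L:ℂ)) * (rt Q) ^ (q * Λ) *
      (∑ a ∈ range L, (rt Q) ^ (q * a)) * (∑ b ∈ range (4 * L), (rt Q) ^ (q * b)) with hK
  have hf := Bop_formula F Λ L Q (by omega) (by omega) hL
  have hFc : Continuous (fun z : ℂ => ‖F.eval z‖) := F.continuous.norm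
  have hinv : ∀ q, ‖((rt Q)⁻¹) ^ q‖ = 1 := by
    intro q; rw [norm_pow, norm_inv, rt_norm]; simp
  calc NN (fun z => ‖Bop F Λ L z‖) ≤ NN (fun z => (1 / (Q:ℝ)) * ∑ q ∈ range Q, ‖K q‖ * ‖F.eval (z * ((rt Q)⁻¹) ^ q)‖) := by
        apply NN_mono (Bop_cont F Λ L).norm
        · apply Continuous.mul continuous_const
          apply continuous_finsetSum
          intro q _
          exact continuous_const.mul (hFc.comp (by fun_prop))
        · intro z _
          rw [hf z, norm_mul]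
          have : ‖(1 / (Q:ℂ))‖ = 1 / (Q:ℝ) := by simp
          rw [this]
          apply mul_le_mul_of_nonneg_left _ (by positivity)
          refine (norm_sum_le _ _).trans (le_of_eq ?_)
          apply sum_congr rfl; intro q _
          rw [norm_mul]
    _ = (1 / (Q:ℝ)) * ∑ q ∈ range Q, ‖K q‖ * NN (fun z => ‖F.eval z‖) := by
        rw [NN_smul, NN_sum]
        · congr 1
          apply sum_congr rfl; intro q _
          rw [NN_smul, NN_rot (fun z => ‖F.eval z‖) (hinv q)]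
        · intro q
          exact continuous_const.mul (hFc.comp (by fun_prop))
    _ = ((1 / (Q:ℝ)) * ∑ q ∈ range Q, ‖K q‖) * NN (fun z => ‖F.eval z‖) := by
        rw [← sum_mul]; ring
    _ ≤ 2 * NN (fun z => ‖F.eval z‖) := by
        apply mul_le_mul_of_nonneg_right
        · have e1 : ∀ q, ‖K q‖ = (1 / (L:ℝ)) * (‖∑ a ∈ range L, (rt Q) ^ (q * a)‖ *
              ‖∑ b ∈ range (4 * L), (rt Q) ^ (q * b)‖) := by
            intro q
            rw [hK]
            simp only [norm_mul, norm_pow, rt_norm, one_pow, mul_one]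
            simp [mul_assoc]
          simp only [e1]
          rw [← mul_sum]
          have h1 : ∑ q ∈ range Q, ‖∑ a ∈ range L, (rt Q) ^ (q * a)‖ *
              ‖∑ b ∈ range (4 * L), (rt Q) ^ (q * b)‖ ≤
              Real.sqrt (∑ q ∈ range Q, ‖∑ a ∈ range L, (rt Q) ^ (q * a)‖ ^ 2) *
              Real.sqrt (∑ q ∈ range Q, ‖∑ b ∈ range (4 * L), (rt Q) ^ (q * b)‖ ^ 2) :=
            Real.sum_mul_le_sqrt_mul_sqrt _ _ _
          have p1 := parseval hQ0 (L := L) (by omega) (fun _ => 1)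
          have p2 := parseval hQ0 (L := 4 * L) (by omega) (fun _ => 1)
          simp only [one_mul, norm_one, one_pow, sum_const, card_range, nsmul_eq_mul, mul_one] at p1 p2
          rw [p1, p2] at h1
          have h2 : Real.sqrt (Q * L) * Real.sqrt (Q * (4 * L : ℕ)) = 2 * (Q * L) := by
            rw [← Real.sqrt_mul (by positivity)]
            have : (Q:ℝ) * L * (Q * (4 * L : ℕ)) = (2 * (Q * L)) ^ 2 := by push_cast; ring
            rw [this, Real.sqrt_sq (by positivity)]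
          rw [h2] at h1
          calc 1 / (Q:ℝ) * (1 / (L:ℝ) * ∑ q ∈ range Q, ‖∑ a ∈ range L, (rt Q) ^ (q * a)‖ *
              ‖∑ b ∈ range (4 * L), (rt Q) ^ (q * b)‖) ≤ 1 / (Q:ℝ) * (1 / (L:ℝ) * (2 * (Q * L))) := by
                apply mul_le_mul_of_nonneg_left _ (by positivity)
                apply mul_le_mul_of_nonneg_left h1 (by positivity)
            _ = 2 := by field_simp
        · unfold NN
          apply intervalIntegral.integral_nonneg (by positivity)
          intro t _; exact norm_nonneg _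

/-- polynomial with given coefficients on a finset -/
def pol (s : Finset ℕ) (x : ℕ → ℂ) : Polynomial ℂ := ∑ i ∈ s, Polynomial.C (x i) * Polynomial.X ^ i

lemma pol_coeff (s : Finset ℕ) (x : ℕ → ℂ) (n : ℕ) : (pol s x).coeff n = if n ∈ s then x n else 0 := by
  unfold pol
  rw [Polynomial.finsetSum_coeff]
  simp only [Polynomial.coeff_C_mul_X_pow]
  rw [Finset.sum_ite_eq]

lemma pol_eval (s : Finset ℕ) (x : ℕ → ℂ) (z : ℂ) : (pol s x).eval z = ∑ i ∈ s, x i * z ^ i := by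
  unfold pol
  rw [Polynomial.eval_finsetSum]
  simp

lemma S2_pol (s : Finset ℕ) (x : ℕ → ℂ) : S2 (pol s x) = ∑ i ∈ s, ‖x i‖ ^ 2 := by
  unfold S2
  have h1 : ∀ n ∈ range ((pol s x).natDegree + 1), ‖(pol s x).coeff n‖ ^ 2 =
      if n ∈ s then ‖x n‖ ^ 2 else 0 := by
    intro n _
    rw [pol_coeff]; split_ifs <;> simp
  rw [sum_congr rfl h1, ← sum_filter]
  apply sum_subset_zero_on_sdiff
  · intro n hn
    exact (mem_filter.mp hn).2
  · intro n hn
    rw [mem_sdiff, mem_filter, not_and] at hn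
    have h2 : n ∉ range ((pol s x).natDegree + 1) := fun h => hn.2 h hn.1
    rw [mem_range, not_lt] at h2
    have h3 := Polynomial.coeff_eq_zero_of_natDegree_lt (p := pol s x) (n := n) (by omega)
    rw [pol_coeff, if_pos hn.1] at h3
    rw [h3]; simp
  · intro n _; rfl

lemma S2_nonneg (F : Polynomial ℂ) : 0 ≤ S2 F := by
  unfold S2; positivity

lemma bessel {P : Polynomial ℂ} {G : PowerSeries ℂ} (hG : AS G)
    (h : ∀ z : ℂ, ‖z‖ = 1 → ‖ev G z‖ ^ 2 = ‖P.eval z‖) (s : Finset ℕ) :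
    2 * Real.pi * ∑ i ∈ s, ‖PowerSeries.coeff i G‖ ^ 2 ≤ NN (fun z => ‖P.eval z‖) := by
  set g : ℕ → ℂ := fun n => PowerSeries.coeff n G with hg
  have hlim : Filter.Tendsto (fun m => NN (fun z => ‖(pol (range m) g).eval z‖ ^ 2)) Filter.atTop
      (nhds (NN (fun z => ‖P.eval z‖))) := by
    have e : NN (fun z => ‖P.eval z‖) = ∫ t in (0:ℝ)..(2 * Real.pi), ‖ev G (Complex.exp (t * Complex.I))‖ ^ 2 := by
      unfold NN
      apply intervalIntegral.integral_congr
      intro t _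
      exact (h _ (exp_norm t)).symm
    rw [e]
    unfold NN
    apply intervalIntegral.tendsto_integral_filter_of_dominated_convergence
      (fun _ => (∑' n, ‖g n‖) ^ 2)
    · filter_upwards with m
      apply Continuous.aestronglyMeasurable
      exact (((pol (range m) g).continuous.comp exp_cont).norm).pow 2
    · filter_upwards with m
      filter_upwards with t _
      rw [Real.norm_eq_abs, abs_pow, abs_norm]
      apply pow_le_pow_left₀ (norm_nonneg _)
      rw [pol_eval]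
      refine (norm_sum_le _ _).trans ?_
      have : ∀ i ∈ range m, ‖g i * Complex.exp (t * Complex.I) ^ i‖ = ‖g i‖ := by
        intro i _
        rw [norm_mul, norm_pow, exp_norm, one_pow, mul_one]
      rw [sum_congr rfl this]
      exact hG.sum_le_tsum _ (fun _ _ => norm_nonneg _)
    · exact intervalIntegrable_const
    · filter_upwards with t _
      apply Filter.Tendsto.pow
      apply Filter.Tendsto.norm
      have hs := (hG.summable_norm (exp_norm t)).of_norm.hasSum.tendsto_sum_nat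
      simp only [pol_eval]
      exact hs
  refine ge_of_tendsto hlim ?_
  obtain ⟨m0, hm0⟩ := s.exists_nat_subset_range
  filter_upwards [Filter.eventually_ge_atTop m0] with m hm
  rw [NN_sq, S2_pol]
  apply mul_le_mul_of_nonneg_left _ (by positivity)
  apply sum_le_sum_of_subset_of_nonneg
  · exact hm0.trans (range_subset_range.mpr hm)
  · intro i _ _; positivity

/-- the key block estimate -/
lemma block_le {P : Polynomial ℂ} {G H : PowerSeries ℂ} (hGH : G * H = (P : PowerSeries ℂ))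
    (Λ L : ℕ) (hL : L ≠ 0) :
    NN (fun z => ‖Bop P Λ L z‖) ≤ 2 * (2 * Real.pi *
      (Real.sqrt (∑ i ∈ Ico (Λ / 2) (Λ + 5 * L), ‖PowerSeries.coeff i G‖ ^ 2) *
        Real.sqrt (∑ i ∈ range (Λ + 5 * L), ‖PowerSeries.coeff i H‖ ^ 2) +
       Real.sqrt (∑ i ∈ range (Λ / 2), ‖PowerSeries.coeff i G‖ ^ 2) *
        Real.sqrt (∑ i ∈ Ico (Λ / 2) (Λ + 5 * L), ‖PowerSeries.coeff i H‖ ^ 2))) := by
  set M := Λ + 5 * L with hM
  set g : ℕ → ℂ := fun n => PowerSeries.coeff n G with hg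
  set h : ℕ → ℂ := fun n => PowerSeries.coeff n H with hh
  set G1 := pol (Ico (Λ / 2) M) g
  set H1 := pol (range M) h
  set G2 := pol (range (Λ / 2)) g
  set H2 := pol (Ico (Λ / 2) M) h
  have hcoef : ∀ n, Λ ≤ n → n < M → P.coeff n = (G1 * H1 + G2 * H2).coeff n := by
    intro n hn1 hn2
    rw [Polynomial.coeff_add, Polynomial.coeff_mul, Polynomial.coeff_mul, ← sum_add_distrib,
      ← Polynomial.coeff_coe, ← hGH, PowerSeries.coeff_mul]
    apply sum_congr rfl
    rintro ⟨i, j⟩ hij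
    have hij' : i + j = n := HasAntidiagonal.mem_antidiagonal.mp hij
    simp only [G1, H1, G2, H2, pol_coeff, mem_Ico, mem_range]
    by_cases hi : Λ / 2 ≤ i
    · have h1 : i < M := by omega
      have h2 : j < M := by omega
      have h3 : ¬ i < Λ / 2 := by omega
      simp [hi, h1, h2, h3, g, h]
    · have h1 : i < Λ / 2 := by omega
      have h2 : Λ / 2 ≤ j := by omega
      have h3 : j < M := by omega
      simp [hi, h1, h2, h3, g, h]
  have hB : ∀ z, Bop P Λ L z = Bop (G1 * H1 + G2 * H2) Λ L z := by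
    intro z
    unfold Bop
    congr 1
    apply sum_congr rfl; intro a ha
    apply sum_congr rfl; intro b hb
    have := mem_range.mp ha; have := mem_range.mp hb
    rw [hcoef _ (by omega) (by omega)]
  simp only [hB]
  refine (Bop_bound _ Λ L hL).trans ?_
  apply mul_le_mul_of_nonneg_left _ (by norm_num)
  calc NN (fun z => ‖(G1 * H1 + G2 * H2).eval z‖)
      ≤ NN (fun z => ‖(G1 * H1).eval z‖ + ‖(G2 * H2).eval z‖) := by
        apply NN_mono
        · exact (Polynomial.continuous _).norm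
        · exact (Polynomial.continuous _).norm.add (Polynomial.continuous _).norm
        · intro z _
          rw [Polynomial.eval_add]
          exact norm_add_le _ _
    _ = NN (fun z => ‖(G1 * H1).eval z‖) + NN (fun z => ‖(G2 * H2).eval z‖) := by
        rw [NN_add (Polynomial.continuous _).norm (Polynomial.continuous _).norm]
    _ ≤ 2 * Real.pi * (Real.sqrt (S2 G1) * Real.sqrt (S2 H1)) + 2 * Real.pi * (Real.sqrt (S2 G2) * Real.sqrt (S2 H2)) :=
        add_le_add (NN_mul_le _ _) (NN_mul_le _ _)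
    _ = _ := by
        rw [S2_pol, S2_pol, S2_pol, S2_pol]; ring

/-- block length -/
def NL (p : ℕ) : ℕ := 2 ^ Nat.log 2 p

lemma NL_pos (p : ℕ) : NL p ≠ 0 := by unfold NL; positivity

lemma NL_le (p : ℕ) : NL p ≤ p + 1 := by
  unfold NL
  rcases Nat.eq_zero_or_pos p with h | h
  · subst h; simp
  · exact (Nat.pow_log_le_self 2 h.ne').trans (by omega)

lemma pow16 (p : ℕ) : 5 * (p + 1) ≤ 7 * 16 ^ p := by
  induction p with
  | zero => norm_num
  | succ n ih => rw [pow_succ]; omega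

lemma sep {p q : ℕ} (h : p < q) : 16 ^ p + 5 * NL p ≤ 16 ^ q / 2 := by
  have h1 := NL_le p
  have h2 := pow16 p
  have h3 : 16 ^ (p + 1) ≤ 16 ^ q := Nat.pow_le_pow_right (by norm_num) h
  rw [pow_succ] at h3
  omega

/-- weights -/
def kp (p : ℕ) : ℝ := ((p:ℝ) + 1) ^ (-(3/4) : ℝ)

lemma kp_nonneg (p : ℕ) : 0 ≤ kp p := by unfold kp; positivity

lemma kp_sq_summable : Summable (fun p => kp p ^ 2) := by
  have h := (Real.summable_nat_rpow (p := (-(3/2) : ℝ))).mpr (by norm_num)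
  have h2 := (summable_nat_add_iff 1).mpr h
  refine h2.congr ?_
  intro p
  unfold kp
  rw [← Real.rpow_natCast, ← Real.rpow_mul (by positivity)]
  push_cast
  norm_num

def SK : ℝ := ∑' p, kp p ^ 2

lemma sum_kp_mul {D : ℕ} {x : ℕ → ℝ} {A : ℝ} (hA : 0 ≤ A)
    (hx2 : ∑ p ∈ range D, x p ^ 2 ≤ A) : ∑ p ∈ range D, kp p * x p ≤ Real.sqrt SK * Real.sqrt A := by
  refine (Real.sum_mul_le_sqrt_mul_sqrt _ _ _).trans ?_
  apply mul_le_mul
  · apply Real.sqrt_le_sqrt
    exact kp_sq_summable.sum_le_tsum _ (fun _ _ => by positivity)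
  · exact Real.sqrt_le_sqrt hx2
  · positivity
  · positivity

lemma blocks_sq {A : ℝ} {g : ℕ → ℂ} (hg : ∀ s : Finset ℕ, ∑ i ∈ s, ‖g i‖ ^ 2 ≤ A) (D : ℕ) :
    ∑ p ∈ range D, (Real.sqrt (∑ i ∈ Ico (16 ^ p / 2) (16 ^ p + 5 * NL p), ‖g i‖ ^ 2)) ^ 2 ≤ A := by
  have h1 : ∀ p ∈ range D, (Real.sqrt (∑ i ∈ Ico (16 ^ p / 2) (16 ^ p + 5 * NL p), ‖g i‖ ^ 2)) ^ 2
      = ∑ i ∈ Ico (16 ^ p / 2) (16 ^ p + 5 * NL p), ‖g i‖ ^ 2 := by
    intro p _
    exact Real.sq_sqrt (by positivity)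
  rw [sum_congr rfl h1, ← sum_biUnion]
  · exact hg _
  · intro p _ q _ hpq
    rw [Function.onFun, disjoint_left]
    intro i hi hj
    rw [mem_Ico] at hi hj
    rcases lt_or_gt_of_ne hpq with h | h
    · have := sep h; omega
    · have := sep h; omega

lemma total (P : Polynomial ℂ) (D : ℕ) :
    ∑ p ∈ range D, kp p * NN (fun z => ‖Bop P (16 ^ p) (NL p) z‖) ≤
      4 * Real.sqrt SK * NN (fun z => ‖P.eval z‖) := by
  obtain ⟨G, H, hG, hH, hGH, hv⟩ := Fac_all P
  set A : ℝ := NN (fun z => ‖P.eval z‖) / (2 * Real.pi) with hA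
  have hpi : (0:ℝ) < 2 * Real.pi := by positivity
  have hNN0 : 0 ≤ NN (fun z => ‖P.eval z‖) := by
    unfold NN
    exact intervalIntegral.integral_nonneg (by positivity) (fun t _ => norm_nonneg _)
  have hA0 : 0 ≤ A := by positivity
  have hNA : NN (fun z => ‖P.eval z‖) = 2 * Real.pi * A := by rw [hA]; field_simp
  have hg : ∀ s : Finset ℕ, ∑ i ∈ s, ‖PowerSeries.coeff i G‖ ^ 2 ≤ A := by
    intro s
    have := bessel hG (fun z hz => (hv z hz).1) s
    rw [hNA] at this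
    exact le_of_mul_le_mul_left this hpi
  have hh : ∀ s : Finset ℕ, ∑ i ∈ s, ‖PowerSeries.coeff i H‖ ^ 2 ≤ A := by
    intro s
    have := bessel hH (fun z hz => (hv z hz).2) s
    rw [hNA] at this
    exact le_of_mul_le_mul_left this hpi
  set x : ℕ → ℝ := fun p => Real.sqrt (∑ i ∈ Ico (16 ^ p / 2) (16 ^ p + 5 * NL p), ‖PowerSeries.coeff i G‖ ^ 2)
  set y : ℕ → ℝ := fun p => Real.sqrt (∑ i ∈ Ico (16 ^ p / 2) (16 ^ p + 5 * NL p), ‖PowerSeries.coeff i H‖ ^ 2)
  have hb : ∀ p, NN (fun z => ‖Bop P (16 ^ p) (NL p) z‖) ≤ 4 * Real.pi * Real.sqrt A * (x p + y p) := by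
    intro p
    refine (block_le hGH (16 ^ p) (NL p) (NL_pos p)).trans ?_
    have a1 : Real.sqrt (∑ i ∈ range (16 ^ p + 5 * NL p), ‖PowerSeries.coeff i H‖ ^ 2) ≤ Real.sqrt A :=
      Real.sqrt_le_sqrt (hh _)
    have a2 : Real.sqrt (∑ i ∈ range (16 ^ p / 2), ‖PowerSeries.coeff i G‖ ^ 2) ≤ Real.sqrt A :=
      Real.sqrt_le_sqrt (hg _)
    have hx0 : 0 ≤ x p := Real.sqrt_nonneg _
    have hy0 : 0 ≤ y p := Real.sqrt_nonneg _
    have b1 : x p * Real.sqrt (∑ i ∈ range (16 ^ p + 5 * NL p), ‖PowerSeries.coeff i H‖ ^ 2) ≤ x p * Real.sqrt A :=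
      mul_le_mul_of_nonneg_left a1 hx0
    have b2 : Real.sqrt (∑ i ∈ range (16 ^ p / 2), ‖PowerSeries.coeff i G‖ ^ 2) * y p ≤ Real.sqrt A * y p :=
      mul_le_mul_of_nonneg_right a2 hy0
    calc _ ≤ 2 * (2 * Real.pi * (x p * Real.sqrt A + Real.sqrt A * y p)) := by
          apply mul_le_mul_of_nonneg_left _ (by norm_num)
          apply mul_le_mul_of_nonneg_left _ hpi.le
          exact add_le_add b1 b2
      _ = _ := by ring
  have hx := sum_kp_mul (D := D) (x := x) hA0 (blocks_sq hg D)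
  have hy := sum_kp_mul (D := D) (x := y) hA0 (blocks_sq hh D)
  calc ∑ p ∈ range D, kp p * NN (fun z => ‖Bop P (16 ^ p) (NL p) z‖)
      ≤ ∑ p ∈ range D, kp p * (4 * Real.pi * Real.sqrt A * (x p + y p)) :=
        sum_le_sum fun p _ => mul_le_mul_of_nonneg_left (hb p) (kp_nonneg p)
    _ = 4 * Real.pi * Real.sqrt A * (∑ p ∈ range D, kp p * x p + ∑ p ∈ range D, kp p * y p) := by
        rw [← sum_add_distrib, mul_sum]
        apply sum_congr rfl; intro p _; ring
    _ ≤ 4 * Real.pi * Real.sqrt A * (Real.sqrt SK * Real.sqrt A + Real.sqrt SK * Real.sqrt A) := by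
        apply mul_le_mul_of_nonneg_left (add_le_add hx hy) (by positivity)
    _ = 8 * Real.pi * Real.sqrt SK * (Real.sqrt A * Real.sqrt A) := by ring
    _ = _ := by rw [Real.mul_self_sqrt hA0, hNA]; ring

/-- rotation of the block p -/
def zt (p : ℕ) : ℂ := ((rt (NL p))⁻¹) ^ p

lemma zt_norm (p : ℕ) : ‖zt p‖ = 1 := by
  unfold zt; rw [norm_pow, norm_inv, rt_norm]; simp

lemma zt_ne (p : ℕ) : zt p ≠ 0 := by
  intro h
  have := zt_norm p
  rw [h] at this; simp at this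

/-- the p-th part of the multiplier -/
def bt (p n : ℕ) : ℂ := (kp p : ℂ) * ((1 / (NL p : ℂ)) * ∑ a ∈ range (NL p), ∑ b ∈ range (4 * NL p),
  if 16 ^ p + a + b = n then (zt p) ^ (a + b) else 0)

/-- the multiplier sequence -/
def bb (n : ℕ) : ℂ := ∑ p ∈ range (n + 1), bt p n

lemma bt_zero {p n : ℕ} (h : n < 16 ^ p ∨ 16 ^ p + 5 * NL p ≤ n) : bt p n = 0 := by
  unfold bt
  rw [sum_eq_zero, mul_zero, mul_zero]
  intro a ha
  apply sum_eq_zero
  intro b hb
  have := mem_range.mp ha; have := mem_range.mp hb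
  rw [if_neg]
  omega

lemma bb_ext {n D : ℕ} (h : n < D) : bb n = ∑ p ∈ range D, bt p n := by
  unfold bb
  apply sum_subset (range_subset_range.mpr h)
  intro p _ hp
  rw [mem_range, not_lt] at hp
  apply bt_zero
  left
  have : p < 16 ^ p := Nat.lt_pow_self (by norm_num)
  omega

lemma bt_sum (p D : ℕ) (c : ℕ → ℂ) (z : ℂ) : ∑ n ∈ range D, bt p n * c n * z ^ n =
    (kp p : ℂ) * ((zt p)⁻¹ ^ (16 ^ p) * Bop (pol (range D) c) (16 ^ p) (NL p) (z * zt p)) := by
  unfold bt Bop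
  have e : ∀ n, (kp p : ℂ) * ((1 / (NL p : ℂ)) * ∑ a ∈ range (NL p), ∑ b ∈ range (4 * NL p),
      if 16 ^ p + a + b = n then (zt p) ^ (a + b) else 0) * c n * z ^ n =
      (kp p : ℂ) * (1 / (NL p : ℂ)) * ∑ a ∈ range (NL p), ∑ b ∈ range (4 * NL p),
      if 16 ^ p + a + b = n then (zt p) ^ (a + b) * c n * z ^ n else 0 := by
    intro n
    rw [← mul_assoc (kp p : ℂ), mul_assoc, mul_assoc ((kp p : ℂ) * (1 / (NL p : ℂ)))]
    congr 1
    rw [sum_mul]
    apply sum_congr rfl; intro a _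
    rw [sum_mul]
    apply sum_congr rfl; intro b _
    split_ifs <;> ring
  simp only [e]
  rw [← mul_sum, mul_assoc]
  congr 1
  rw [← mul_assoc _ (1 / (NL p : ℂ)), mul_comm _ (1 / (NL p : ℂ)), mul_assoc]
  congr 1
  rw [sum_comm, mul_sum]
  apply sum_congr rfl; intro a _
  rw [sum_comm, mul_sum]
  apply sum_congr rfl; intro b _
  rw [pol_coeff, sum_ite_eq]
  split_ifs with h
  · have h0 := zt_ne p
    rw [mul_pow, add_assoc, pow_add (zt p) (16 ^ p), inv_pow]
    field_simp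
  · ring

lemma mult_bound (D : ℕ) (c : ℕ → ℂ) :
    ∫ t in (0:ℝ)..(2 * Real.pi),
          ‖∑ n ∈ Finset.range D, bb n * c n * Complex.exp ((n : ℂ) * (t : ℂ) * Complex.I)‖
        ≤ (4 * Real.sqrt SK) * ∫ t in (0:ℝ)..(2 * Real.pi),
          ‖∑ n ∈ Finset.range D, c n * Complex.exp ((n : ℂ) * (t : ℂ) * Complex.I)‖ := by
  have hexp : ∀ (n : ℕ) (t : ℝ), Complex.exp ((n : ℂ) * (t : ℂ) * Complex.I) =
      (Complex.exp (t * Complex.I)) ^ n := by
    intro n t
    rw [← Complex.exp_nat_mul, mul_assoc]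
  simp only [hexp]
  set P := pol (range D) c with hP
  have h1 : ∀ z : ℂ, ∑ n ∈ range D, bb n * c n * z ^ n =
      ∑ p ∈ range D, (kp p : ℂ) * ((zt p)⁻¹ ^ (16 ^ p) * Bop P (16 ^ p) (NL p) (z * zt p)) := by
    intro z
    have : ∀ n ∈ range D, bb n * c n * z ^ n = ∑ p ∈ range D, bt p n * c n * z ^ n := by
      intro n hn
      rw [bb_ext (mem_range.mp hn), sum_mul, sum_mul]
    rw [sum_congr rfl this, sum_comm]
    apply sum_congr rfl; intro p _
    rw [bt_sum]
  have hR : ∫ t in (0:ℝ)..(2 * Real.pi), ‖∑ n ∈ Finset.range D, c n * (Complex.exp (t * Complex.I)) ^ n‖ =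
      NN (fun z => ‖P.eval z‖) := by
    unfold NN
    simp only [hP, pol_eval]
  have hL : ∫ t in (0:ℝ)..(2 * Real.pi), ‖∑ n ∈ Finset.range D, bb n * c n * (Complex.exp (t * Complex.I)) ^ n‖ =
      NN (fun z => ‖∑ n ∈ range D, bb n * c n * z ^ n‖) := rfl
  rw [hR, hL]
  refine le_trans ?_ (total P D)
  calc NN (fun z => ‖∑ n ∈ range D, bb n * c n * z ^ n‖)
      ≤ NN (fun z => ∑ p ∈ range D, kp p * ‖Bop P (16 ^ p) (NL p) (z * zt p)‖) := by
        apply NN_mono
        · fun_prop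
        · apply continuous_finsetSum; intro p _
          exact continuous_const.mul ((Bop_cont P _ _).comp (by fun_prop)).norm
        · intro z _
          rw [h1]
          refine (norm_sum_le _ _).trans (le_of_eq ?_)
          apply sum_congr rfl; intro p _
          rw [norm_mul, norm_mul, norm_pow, norm_inv, zt_norm, Complex.norm_real, Real.norm_eq_abs,
            abs_of_nonneg (kp_nonneg p)]
          simp
    _ = ∑ p ∈ range D, kp p * NN (fun z => ‖Bop P (16 ^ p) (NL p) z‖) := by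
        rw [NN_sum]
        · apply sum_congr rfl; intro p _
          rw [NN_smul, NN_rot (fun z => ‖Bop P (16 ^ p) (NL p) z‖) (zt_norm p)]
        · intro p
          exact continuous_const.mul ((Bop_cont P _ _).comp (by fun_prop)).norm

lemma bb_val {p N s : ℕ} (hN : NL p = N) (h1 : N ≤ s) (h2 : s < 3 * N) :
    bb (16 ^ p + s) = (kp p : ℂ) * (zt p) ^ s := by
  unfold bb
  have hp : p < 16 ^ p := Nat.lt_pow_self (by norm_num)
  rw [sum_eq_single p]
  · unfold bt
    congr 1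
    have hNc : (N:ℂ) ≠ 0 := by
      have := NL_pos p
      rw [hN] at this; exact_mod_cast this
    have : ∀ a ∈ range (NL p), ∑ b ∈ range (4 * NL p), (if 16 ^ p + a + b = 16 ^ p + s then (zt p) ^ (a + b) else 0)
        = (zt p) ^ s := by
      intro a ha
      have ha' := mem_range.mp ha
      rw [sum_eq_single (s - a)]
      · rw [if_pos (by omega)]
        congr 1; omega
      · intro b _ hb
        rw [if_neg (by omega)]
      · intro h
        exfalso; apply h; rw [mem_range]; omega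
    rw [sum_congr rfl this, sum_const, card_range, nsmul_eq_mul, hN]
    field_simp
  · intro q _ hq
    apply bt_zero
    rcases lt_or_gt_of_ne hq with h | h
    · right
      have := sep h
      omega
    · left
      have := sep h
      omega
  · intro h
    exfalso; apply h; rw [mem_range]; omega

lemma NL_eq {i p : ℕ} (h1 : 2 ^ i ≤ p) (h2 : p < 2 * 2 ^ i) : NL p = 2 ^ i := by
  unfold NL
  congr 1
  rw [Nat.log_eq_iff (by right; constructor; norm_num; have : 0 < 2 ^ i := by positivity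
                         omega)]
  constructor
  · exact h1
  · rw [pow_succ]; omega

lemma shifted_parseval {N : ℕ} (hN : N ≠ 0) (x : ℕ → ℂ) :
    ∑ p ∈ Ico N (2 * N), ‖∑ a ∈ range N, x a * (rt N) ^ (p * a)‖ ^ 2 = N * ∑ a ∈ range N, ‖x a‖ ^ 2 := by
  rw [← parseval hN le_rfl x, Finset.sum_Ico_eq_sum_range]
  have : 2 * N - N = N := by omega
  rw [this]
  apply sum_congr rfl; intro q _
  congr 2
  apply sum_congr rfl; intro a _
  rw [add_mul, pow_add, pow_mul, (rt_prim hN).pow_eq_one, one_pow, one_mul]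

lemma hat_bound {N : ℕ} (hN : N ≠ 0) (x : ℕ → ℂ) {s : ℝ} (hs : 0 ≤ s) (hx : ∀ a < N, ‖x a‖ ≤ s) :
    Real.sqrt (∑ p ∈ Ico N (2 * N), ‖∑ a ∈ range N, x a * (rt N) ^ (p * a)‖ ^ 2) ≤ N * s := by
  rw [shifted_parseval hN]
  apply Real.sqrt_le_iff.mpr
  refine ⟨by positivity, ?_⟩
  have : ∑ a ∈ range N, ‖x a‖ ^ 2 ≤ ∑ a ∈ range N, s ^ 2 :=
    sum_le_sum fun a ha => pow_le_pow_left₀ (norm_nonneg _) (hx a (mem_range.mp ha)) 2
  rw [sum_const, card_range, nsmul_eq_mul] at this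
  calc (N:ℝ) * ∑ a ∈ range N, ‖x a‖ ^ 2 ≤ N * (N * s ^ 2) := mul_le_mul_of_nonneg_left this (by positivity)
    _ = _ := by ring

lemma lower {i : ℕ} {E : ℝ} {K : ℕ} (a : Fin K → Fin 3 → ℕ → ℂ) (s : Fin K → Fin 3 → ℝ)
    (h1 : ∀ n : Fin 3 → ℕ, (∀ j, n j ≤ 16 ^ (2 * 2 ^ i) + 2 ^ i) →
      bb (∑ j, n j) = ∑ k, ∏ j, a k j (n j))
    (h2 : ∀ k j m, m ≤ 16 ^ (2 * 2 ^ i) + 2 ^ i → ‖a k j m‖ ≤ s k j)
    (h3 : ∑ k, ∏ j, s k j ≤ E) :
    ∑ p ∈ Ico (2 ^ i) (2 * 2 ^ i), kp p ≤ E := by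
  set N := 2 ^ i with hNdef
  have hN : N ≠ 0 := by positivity
  have hNr : (0:ℝ) < N := by positivity
  have hs0 : ∀ k j, 0 ≤ s k j := fun k j => (norm_nonneg _).trans (h2 k j 0 (Nat.zero_le _))
  have hval : ∀ p ∈ Ico N (2 * N), ∀ x ∈ range N, ∀ y ∈ range N,
      (rt N) ^ (p * x) * (rt N) ^ (p * y) * bb (16 ^ p + N + x + y) = (kp p : ℂ) := by
    intro p hp x hx y hy
    rw [mem_Ico] at hp; rw [mem_range] at hx hy
    have hNL := NL_eq hp.1 hp.2
    rw [add_assoc, add_assoc, bb_val hNL (by omega) (by omega)]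
    unfold zt
    rw [hNL, ← hNdef, pow_add, pow_add, ← pow_mul, ← pow_mul, ← pow_mul, mul_comm p N, pow_mul ((rt N)⁻¹) N p,
      inv_pow, (rt_prim hN).pow_eq_one]
    have h0 := rt_ne N
    simp only [inv_one, one_pow, one_mul, inv_pow]
    field_simp
  have hsum : ((∑ p ∈ Ico N (2 * N), kp p : ℝ) : ℂ) * N ^ 2 =
      ∑ k, ∑ p ∈ Ico N (2 * N), a k 0 (16 ^ p + N) *
        ((∑ x ∈ range N, a k 1 x * (rt N) ^ (p * x)) * (∑ y ∈ range N, a k 2 y * (rt N) ^ (p * y))) := by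
    rw [sum_comm]
    push_cast
    rw [sum_mul]
    apply sum_congr rfl
    intro p hp
    have e1 : (kp p : ℂ) * N ^ 2 = ∑ x ∈ range N, ∑ y ∈ range N, (kp p : ℂ) := by
      simp; ring
    rw [e1]
    have e2 : ∀ x ∈ range N, ∀ y ∈ range N, (kp p : ℂ) =
        ∑ k, a k 0 (16 ^ p + N) * ((a k 1 x * (rt N) ^ (p * x)) * (a k 2 y * (rt N) ^ (p * y))) := by
      intro x hx y hy
      rw [← hval p hp x hx y hy]
      have hp' := mem_Ico.mp hp; have hx' := mem_range.mp hx; have hy' := mem_range.mp hy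
      have hpp : 16 ^ p ≤ 16 ^ (2 * N) := Nat.pow_le_pow_right (by norm_num) hp'.2.le
      have := h1 ![16 ^ p + N, x, y] (by
        intro j
        have hxx : x ≤ 16 ^ (2 * N) + N := hx'.le.trans (Nat.le_add_left _ _)
        have hyy : y ≤ 16 ^ (2 * N) + N := hy'.le.trans (Nat.le_add_left _ _)
        have hpp2 : 16 ^ p + N ≤ 16 ^ (2 * N) + N := Nat.add_le_add_right hpp _
        fin_cases j
        · exact hpp2
        · exact hxx
        · exact hyy)
      rw [Fin.sum_univ_three] at this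
      simp only [Matrix.cons_val_zero, Matrix.cons_val_one, Matrix.cons_val_two, Fin.prod_univ_three] at this
      simp at this
      rw [this, mul_sum]
      apply sum_congr rfl; intro k _
      ring
    rw [sum_congr rfl fun x hx => sum_congr rfl fun y hy => e2 x hx y hy]
    rw [sum_congr rfl fun x _ => sum_comm, sum_comm]
    apply sum_congr rfl; intro k _
    rw [sum_mul_sum, mul_sum]
    apply sum_congr rfl; intro x _
    rw [mul_sum]
  have hkp0 : 0 ≤ ∑ p ∈ Ico N (2 * N), kp p := sum_nonneg fun p _ => kp_nonneg p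
  have hnorm : (∑ p ∈ Ico N (2 * N), kp p) * (N:ℝ) ^ 2 ≤ ∑ k, (N:ℝ) ^ 2 * ∏ j, s k j := by
    have e3 : (∑ p ∈ Ico N (2 * N), kp p) * (N:ℝ) ^ 2 = ‖((∑ p ∈ Ico N (2 * N), kp p : ℝ) : ℂ) * N ^ 2‖ := by
      rw [norm_mul, norm_pow, Complex.norm_real, Real.norm_eq_abs, abs_of_nonneg hkp0, Complex.norm_natCast]
    rw [e3, hsum]
    refine (norm_sum_le _ _).trans ?_
    apply sum_le_sum; intro k _
    refine (norm_sum_le _ _).trans ?_
    have b1 : ∀ p ∈ Ico N (2 * N), ‖a k 0 (16 ^ p + N) *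
        ((∑ x ∈ range N, a k 1 x * (rt N) ^ (p * x)) * (∑ y ∈ range N, a k 2 y * (rt N) ^ (p * y)))‖ ≤
        s k 0 * (‖∑ x ∈ range N, a k 1 x * (rt N) ^ (p * x)‖ * ‖∑ y ∈ range N, a k 2 y * (rt N) ^ (p * y)‖) := by
      intro p hp
      have hp' := mem_Ico.mp hp
      have hpp : 16 ^ p ≤ 16 ^ (2 * N) := Nat.pow_le_pow_right (by norm_num) hp'.2.le
      rw [norm_mul, norm_mul]
      apply mul_le_mul_of_nonneg_right (h2 k 0 _ (Nat.add_le_add_right hpp _)) (by positivity)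
    refine (sum_le_sum b1).trans ?_
    rw [← mul_sum]
    have b2 : ∑ p ∈ Ico N (2 * N), ‖∑ x ∈ range N, a k 1 x * (rt N) ^ (p * x)‖ *
        ‖∑ y ∈ range N, a k 2 y * (rt N) ^ (p * y)‖ ≤ (N * s k 1) * (N * s k 2) := by
      refine (Real.sum_mul_le_sqrt_mul_sqrt _ _ _).trans ?_
      have hNN : N ≤ 16 ^ (2 * N) + N := Nat.le_add_left _ _
      apply mul_le_mul (hat_bound hN _ (hs0 k 1) fun x hx => h2 k 1 x (hx.le.trans hNN))
        (hat_bound hN _ (hs0 k 2) fun x hx => h2 k 2 x (hx.le.trans hNN)) (Real.sqrt_nonneg _)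
      have := hs0 k 1
      positivity
    calc s k 0 * ∑ p ∈ Ico N (2 * N), ‖∑ x ∈ range N, a k 1 x * (rt N) ^ (p * x)‖ *
        ‖∑ y ∈ range N, a k 2 y * (rt N) ^ (p * y)‖ ≤ s k 0 * ((N * s k 1) * (N * s k 2)) :=
          mul_le_mul_of_nonneg_left b2 (hs0 k 0)
      _ = _ := by rw [Fin.prod_univ_three]; ring
  rw [← mul_sum, mul_comm] at hnorm
  have := le_of_mul_le_mul_left hnorm (by positivity)
  exact this.trans h3

lemma kp_sum_lower (i : ℕ) : (1 / 2) * ((2 * 2 ^ i : ℕ) : ℝ) ^ (1/4 : ℝ) ≤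
    ∑ p ∈ Ico (2 ^ i) (2 * 2 ^ i), kp p := by
  set N := 2 ^ i with hN
  have hNr : (0:ℝ) < N := by rw [hN]; positivity
  have h1 : ∀ p ∈ Ico N (2 * N), ((2 * N : ℕ) : ℝ) ^ (-(3/4) : ℝ) ≤ kp p := by
    intro p hp
    have hp' := mem_Ico.mp hp
    unfold kp
    apply Real.rpow_le_rpow_of_nonpos (by positivity) _ (by norm_num)
    have : p + 1 ≤ 2 * N := hp'.2
    exact_mod_cast this
  have h2 := card_nsmul_le_sum _ _ _ h1
  rw [Nat.card_Ico, nsmul_eq_mul] at h2
  refine le_trans (le_of_eq ?_) h2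
  have e : ((2 * N : ℕ) : ℝ) ^ (1/4 : ℝ) = ((2 * N : ℕ) : ℝ) * ((2 * N : ℕ) : ℝ) ^ (-(3/4) : ℝ) := by
    conv_rhs => rw [← Real.rpow_one_add' (by positivity) (by norm_num)]
    norm_num
  rw [e]
  have : 2 * N - N = N := by omega
  rw [this]
  push_cast
  ring

end

/-- The negation of the preceding statement: If the coefficient sequence of ψ is a Fourier multiplier of H¹, then for some C and all M ≥ 2 every finite section of the Hankel tensor ψ̂(n₁+…+n_M) has projective ℓ^∞-tensor norm at most e^{CM}. -/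
theorem result :
    ¬ (∀ b : ℕ → ℂ,
    (∃ C : ℝ, ∀ (N : ℕ) (c : ℕ → ℂ),
      ∫ t in (0:ℝ)..(2 * Real.pi),
          ‖∑ n ∈ Finset.range N, b n * c n * Complex.exp ((n : ℂ) * (t : ℂ) * Complex.I)‖
        ≤ C * ∫ t in (0:ℝ)..(2 * Real.pi),
          ‖∑ n ∈ Finset.range N, c n * Complex.exp ((n : ℂ) * (t : ℂ) * Complex.I)‖) →
    ∃ C : ℝ, ∀ M : ℕ, 2 ≤ M → ∀ N : ℕ,
      ∃ (K : ℕ) (a : Fin K → Fin M → ℕ → ℂ) (s : Fin K → Fin M → ℝ),
        (∀ n : Fin M → ℕ, (∀ i, n i ≤ N) → b (∑ i, n i) = ∑ k, ∏ i, a k i (n i)) ∧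
        (∀ k i m, m ≤ N → ‖a k i m‖ ≤ s k i) ∧
        ∑ k, ∏ i, s k i ≤ Real.exp (C * (M : ℝ))) := by
  intro hall
  obtain ⟨C, hC⟩ := hall bb ⟨4 * Real.sqrt SK, mult_bound⟩
  set E := Real.exp (C * ((3 : ℕ) : ℝ)) with hE
  have hE0 : 0 < E := Real.exp_pos _
  obtain ⟨i, hi⟩ := pow_unbounded_of_one_lt ((2 * E) ^ 4) (by norm_num : (1:ℝ) < 2)
  obtain ⟨K, a, s, h1, h2, h3⟩ := hC 3 (by norm_num) (16 ^ (2 * 2 ^ i) + 2 ^ i)
  have h4 := lower a s h1 h2 h3
  have h5 := (kp_sum_lower i).trans h4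
  have h6 : 2 * E < ((2 * 2 ^ i : ℕ) : ℝ) ^ (1/4 : ℝ) := by
    have h7 : (2 * E) ^ 4 < ((2 * 2 ^ i : ℕ) : ℝ) := by
      push_cast
      have : (0:ℝ) < 2 ^ i := by positivity
      linarith
    have h8 : 2 * E = ((2 * E) ^ 4) ^ (1/4 : ℝ) := by
      rw [← Real.rpow_natCast, ← Real.rpow_mul (by positivity)]
      norm_num
    rw [h8]
    exact Real.rpow_lt_rpow (by positivity) h7 (by norm_num)
  have h5' : (1 / 2) * ((2 * 2 ^ i : ℕ) : ℝ) ^ (1/4 : ℝ) ≤ E := h5
  linarith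

end Pool.Agent.S03868
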