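import Pool.Statements.S03871

set_option autoImplicit false
open Pool Pool.MP_b405c8_an

namespace Pool.Agent.S03871



section HB

/-- One-vector form of the Hahn-Banach theorem for a sublinear function. -/
lemma hb {E : Type*} [AddCommGroup E] [Module ℝ E] (N : E → ℝ)
    (hom : ∀ c : ℝ, 0 < c → ∀ x, N (c • x) = c * N x) (sub : ∀ x y, N (x + y) ≤ N x + N y)
    (k : E) : ∃ g : E →ₗ[ℝ] ℝ, g k = N k ∧ ∀ x, g x ≤ N x := by
  have N0 : N 0 = 0 := by
    have := hom 2 (by norm_num) 0
    rw [smul_zero] at this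
    linarith
  by_cases hk : k = 0
  · obtain ⟨g, -, hg⟩ := exists_extension_of_le_sublinear (⟨⊥, 0⟩ : E →ₗ.[ℝ] ℝ) N hom sub
      (by
        rintro ⟨x, hx⟩
        have : x = 0 := by simpa using hx
        subst this
        simp [N0])
    exact ⟨g, by simp [hk, N0], hg⟩
  · obtain ⟨g, hg1, hg2⟩ := exists_extension_of_le_sublinear
      (LinearPMap.mkSpanSingleton k (N k) hk) N hom sub
      (by
        rintro ⟨x, hx⟩
        obtain ⟨c, rfl⟩ := Submodule.mem_span_singleton.1 hx
        have h1 : (LinearPMap.mkSpanSingleton k (N k) hk) ⟨c • k, hx⟩ = c • N k :=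
          LinearPMap.mkSpanSingleton'_apply _ _ _ _ _
        rw [h1]
        simp only [smul_eq_mul]
        rcases lt_trichotomy c 0 with hc | hc | hc
        · have h2 := sub (c • k) ((-c) • k)
          rw [← add_smul, add_neg_cancel, zero_smul, N0, hom (-c) (by linarith)] at h2
          linarith
        · simp [hc, N0]
        · rw [hom c hc])
    refine ⟨g, ?_, hg2⟩
    have h3 := hg1 ⟨k, Submodule.mem_span_singleton_self k⟩
    rw [LinearPMap.mkSpanSingleton_apply ℝ ℝ hk (N k)] at h3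
    exact h3

end HB



lemma real_lemma (F1 F2 : ℝ → ℝ) (h1 : ∀ x, 0 < x → 0 ≤ F1 x) (h2 : ∀ x, 0 < x → 0 ≤ F2 x)
    (s1 : ∀ ε, 0 < ε → ∃ x, 0 < x ∧ F1 x < ε) (s2 : ∀ ε, 0 < ε → ∃ x, 0 < x ∧ F2 x < ε)
    (FI : ∀ x y x' y', 0 < x → 0 < y → 0 < x' → 0 < y' → x + y < x' + y' →
      F1 x + F2 y ≤ F1 x' + F2 y') :
    ∃ k : ℝ, ∀ x, 0 < x → F1 x = k * x ∧ F2 x = k * x := by
  have c12 : ∀ x y, 0 < x → x < y → F1 x ≤ F2 y := by
    intro x y hx hxy
    refine le_of_forall_pos_lt_add ?_
    intro ε hε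
    obtain ⟨s, hs, hs'⟩ := s1 ε hε
    have := FI x ((y - x) / 2) s y hx (by linarith) hs (by linarith) (by linarith)
    have := h2 ((y - x) / 2) (by linarith)
    linarith
  have c21 : ∀ x y, 0 < x → x < y → F2 x ≤ F1 y := by
    intro x y hx hxy
    refine le_of_forall_pos_lt_add ?_
    intro ε hε
    obtain ⟨s, hs, hs'⟩ := s2 ε hε
    have := FI ((y - x) / 2) x y s (by linarith) hx (by linarith) hs (by linarith)
    have := h1 ((y - x) / 2) (by linarith)
    linarith
  have hmono : ∀ x y, 0 < x → x < y → F2 x ≤ F2 y := by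
    intro x y hx hxy
    exact (c21 x ((x + y) / 2) hx (by linarith)).trans (c12 _ _ (by linarith) (by linarith))
  have sup : ∀ x y z, 0 < x → 0 < y → x + y < z → F2 x + F2 y ≤ F2 z := by
    intro x y z hx hy hz
    refine le_of_forall_pos_lt_add ?_
    intro ε hε
    obtain ⟨s, hs, hs'⟩ := s1 ε hε
    have e1 := c21 x (x + (z - x - y) / 2) hx (by linarith)
    have := FI (x + (z - x - y) / 2) y s z (by linarith) hy hs (by linarith) (by linarith)
    linarith
  have sub : ∀ x y z, 0 < x → 0 < y → 0 < z → z < x + y → F2 z ≤ F2 x + F2 y := by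
    intro x y z hx hy hz hlt
    set d := min x (x + y - z) / 2 with hd
    have hm : 0 < min x (x + y - z) := lt_min hx (by linarith)
    have hd0 : 0 < d := by rw [hd]; linarith
    have hd1 : d < x := by
      have : min x (x + y - z) ≤ x := min_le_left _ _
      rw [hd]; linarith
    have hd2 : 2 * d ≤ x + y - z := by
      have : min x (x + y - z) ≤ x + y - z := min_le_right _ _
      rw [hd]; linarith
    have e1 := c12 (x - d) x (by linarith) (by linarith)
    have := FI (d / 2) z (x - d) y (by linarith) hz (by linarith) hy (by linarith)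
    have := h1 (d / 2) (by linarith)
    linarith
  have nsup : ∀ (n : ℕ) (x z : ℝ), 0 < x → ((n : ℝ) + 1) * x < z → ((n : ℝ) + 1) * F2 x ≤ F2 z := by
    intro n
    induction n with
    | zero =>
      intro x z hx hz
      have := hmono x z hx (by simpa using hz)
      simpa using this
    | succ n ih =>
      intro x z hx hz
      push_cast at hz ⊢
      set z' := (((n : ℝ) + 1) * x + z - x) / 2 with hz'
      have e1 : ((n : ℝ) + 1) * x < z' := by rw [hz']; nlinarith
      have e2 : z' + x < z := by rw [hz']; nlinarith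
      have e0 : 0 < z' := lt_trans (by positivity) e1
      have := ih x z' hx e1
      have := sup z' x z e0 hx e2
      linarith
  have nsub : ∀ (n : ℕ) (x z : ℝ), 0 < x → 0 < z → z < ((n : ℝ) + 1) * x →
      F2 z ≤ ((n : ℝ) + 1) * F2 x := by
    intro n
    induction n with
    | zero =>
      intro x z hx hz hlt
      have := hmono z x hz (by simpa using hlt)
      simpa using this
    | succ n ih =>
      intro x z hx hz hlt
      push_cast at hlt ⊢
      have hx2 := h2 x hx
      rcases lt_or_ge z (((n : ℝ) + 1) * x) with hc | hc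
      · have := ih x z hx hz hc
        linarith
      · set z' := (((n : ℝ) + 1) * x + (z - x)) / 2 with hz'
        have e1 : z' < ((n : ℝ) + 1) * x := by rw [hz']; nlinarith
        have e2 : z < z' + x := by rw [hz']; nlinarith
        have e0 : 0 < z' := by
          rw [hz']
          have : 0 ≤ (n : ℝ) * x := by positivity
          nlinarith
        have := ih x z' hx e0 e1
        have := sub z' x z e0 hx hz e2
        linarith
  have key : ∀ x y, 0 < x → 0 < y → y * F2 x ≤ x * F2 y := by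
    intro x y hx hy
    by_contra hcon
    push Not at hcon
    have hy2 := h2 y hy
    set D := y * F2 x - x * F2 y with hD
    have hD0 : 0 < D := by rw [hD]; linarith
    obtain ⟨n, hn⟩ := exists_nat_gt (2 * y * F2 y / D)
    have hn' : 2 * y * F2 y < n * D := by
      rwa [div_lt_iff₀ hD0] at hn
    -- choose m with (n+1) x < z < (m+1) y ≤ (n+1) x + 2 y
    set m := ⌊((n : ℝ) + 1) * x / y⌋₊ with hm
    have hm1 : ((n : ℝ) + 1) * x / y < (m : ℝ) + 1 := Nat.lt_floor_add_one _
    have hm2 : (m : ℝ) ≤ ((n : ℝ) + 1) * x / y := Nat.floor_le (by positivity)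
    have hm1' : ((n : ℝ) + 1) * x < ((m : ℝ) + 1) * y := by
      rwa [div_lt_iff₀ hy] at hm1
    have hm2' : (m : ℝ) * y ≤ ((n : ℝ) + 1) * x := by
      rwa [le_div_iff₀ hy] at hm2
    obtain ⟨z, hz1, hz2⟩ := exists_between hm1'
    have hz0 : 0 < z := lt_trans (by positivity) hz1
    have a1 := nsup n x z hx hz1
    have a2 := nsub m y z hy hz0 hz2
    have a3 : ((n : ℝ) + 1) * F2 x ≤ ((m : ℝ) + 1) * F2 y := a1.trans a2
    have a4 : ((n : ℝ) + 1) * F2 x * y ≤ ((m : ℝ) + 1) * F2 y * y :=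
      mul_le_mul_of_nonneg_right a3 hy.le
    have a5 : (m : ℝ) * y * F2 y ≤ ((n : ℝ) + 1) * x * F2 y := mul_le_mul_of_nonneg_right hm2' hy2
    have a6 : 0 ≤ y * F2 y := by positivity
    nlinarith
  refine ⟨F2 1, ?_⟩
  have k2 : ∀ x, 0 < x → F2 x = F2 1 * x := by
    intro x hx
    have e1 := key x 1 hx one_pos
    have e2 := key 1 x one_pos hx
    linarith
  have hk0 : 0 ≤ F2 1 := h2 1 one_pos
  intro x hx
  refine ⟨le_antisymm ?_ ?_, k2 x hx⟩
  · refine le_of_forall_pos_le_add ?_
    intro ε hε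
    set δ := ε / (F2 1 + 1) with hδ
    have hδ0 : 0 < δ := by rw [hδ]; positivity
    have := c12 x (x + δ) hx (by linarith)
    rw [k2 (x + δ) (by linarith)] at this
    have e : F2 1 * δ ≤ ε := by
      rw [hδ, mul_div_assoc', div_le_iff₀ (by linarith)]
      nlinarith
    linarith
  · refine le_of_forall_pos_le_add ?_
    intro ε hε
    set δ := min (ε / (F2 1 + 1)) (x / 2) with hδ
    have hδ0 : 0 < δ := by
      rw [hδ]
      exact lt_min (by positivity) (by linarith)
    have hδx : δ ≤ x / 2 := min_le_right _ _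
    have hδε : δ ≤ ε / (F2 1 + 1) := min_le_left _ _
    have := c21 (x - δ) x (by linarith) (by linarith)
    rw [k2 (x - δ) (by linarith)] at this
    have e : F2 1 * δ ≤ ε := by
      have : F2 1 * δ ≤ F2 1 * (ε / (F2 1 + 1)) := mul_le_mul_of_nonneg_left hδε hk0
      refine this.trans ?_
      rw [mul_div_assoc', div_le_iff₀ (by linarith)]
      nlinarith
    linarith

variable {A : Type} [CStarAlgebra A] [PartialOrder A] [StarOrderedRing A]

/-- A real-linear functional that is nonnegative on positive elements and star-invariant. -/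
structure PosF (f : A →ₗ[ℝ] ℝ) : Prop where
  nonneg : ∀ a : A, 0 ≤ a → 0 ≤ f a
  star_eq : ∀ a : A, f (star a) = f a

/-- A nonzero positive functional all of whose positive minorants are its multiples. -/
structure PureF (f : A →ₗ[ℝ] ℝ) : Prop where
  pos : PosF f
  one_pos : 0 < f 1
  pure : ∀ g : A →ₗ[ℝ] ℝ, PosF g → (∀ a : A, 0 ≤ a → g a ≤ f a) → ∃ r : ℝ, ∀ a, g a = r * f a

lemma PosF.mono {f : A →ₗ[ℝ] ℝ} (hf : PosF f) {a b : A} (h : a ≤ b) : f a ≤ f b := by
  have := hf.nonneg (b - a) (sub_nonneg.2 h)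
  rw [map_sub] at this
  linarith

lemma le_norm_smul_one {a : A} (ha : IsSelfAdjoint a) : a ≤ ‖a‖ • (1 : A) := by
  have := ha.le_algebraMap_norm_self
  rwa [Algebra.algebraMap_eq_smul_one] at this

lemma smul_one_nonneg {r : ℝ} (hr : 0 ≤ r) : (0 : A) ≤ r • (1 : A) := by
  exact smul_nonneg hr zero_le_one

lemma sa_add_star (x : A) : IsSelfAdjoint (x + star x) := IsSelfAdjoint.add_star_self x

/-- The key directedness lemma in its basic form. -/
lemma exists_upper {f : A →ₗ[ℝ] ℝ} (hf : PureF f) {k : A} (hk : IsSelfAdjoint k)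
    (hfk : f k < 0) {δ : ℝ} (hδ : 0 < δ) :
    ∃ h : A, 0 ≤ h ∧ k ≤ h ∧ f h < δ := by
  classical
  let S : A → Set ℝ := fun x => {r | ∃ h : A, 0 ≤ h ∧ x + star x ≤ (2 : ℝ) • h ∧ r = f h}
  have hne : ∀ x, (S x).Nonempty := by
    intro x
    refine ⟨_, ‖x + star x‖ • (1 : A), smul_one_nonneg (norm_nonneg _), ?_, rfl⟩
    refine (le_norm_smul_one (sa_add_star x)).trans ?_
    rw [two_smul]
    exact le_add_of_nonneg_left (smul_one_nonneg (norm_nonneg _))
  have hbd : ∀ x, BddBelow (S x) := by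
    intro x
    refine ⟨0, ?_⟩
    rintro r ⟨h, h0, -, rfl⟩
    exact hf.pos.nonneg h h0
  let N : A → ℝ := fun x => sInf (S x)
  have hNle : ∀ x h : A, 0 ≤ h → x + star x ≤ (2 : ℝ) • h → N x ≤ f h :=
    fun x h h0 h1 => csInf_le (hbd x) ⟨h, h0, h1, rfl⟩
  have hNlt : ∀ x : A, ∀ ε : ℝ, 0 < ε → ∃ h : A, 0 ≤ h ∧ x + star x ≤ (2 : ℝ) • h ∧ f h < N x + ε := by
    intro x ε hε
    obtain ⟨r, ⟨h, h0, h1, rfl⟩, hr⟩ := exists_lt_of_csInf_lt (hne x)
      (show sInf (S x) < N x + ε by simp only [N]; linarith)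
    exact ⟨h, h0, h1, hr⟩
  have hsub : ∀ x y, N (x + y) ≤ N x + N y := by
    intro x y
    refine le_of_forall_pos_lt_add ?_
    intro ε hε
    obtain ⟨h, h0, h1, h2⟩ := hNlt x (ε / 2) (by linarith)
    obtain ⟨h', h0', h1', h2'⟩ := hNlt y (ε / 2) (by linarith)
    have := hNle (x + y) (h + h') (add_nonneg h0 h0') (by
      rw [star_add, smul_add]
      have := add_le_add h1 h1'
      calc x + y + (star x + star y) = (x + star x) + (y + star y) := by abel
        _ ≤ _ := this)
    rw [map_add] at this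
    linarith
  have hhomle : ∀ c : ℝ, 0 < c → ∀ x, N (c • x) ≤ c * N x := by
    intro c hc x
    refine le_of_forall_pos_lt_add ?_
    intro ε hε
    obtain ⟨h, h0, h1, h2⟩ := hNlt x (ε / c) (by positivity)
    have := hNle (c • x) (c • h) (smul_nonneg hc.le h0) (by
      rw [star_smul, star_trivial, ← smul_add, smul_comm]
      exact smul_le_smul_of_nonneg_left h1 hc.le)
    rw [map_smul, smul_eq_mul] at this
    have h3 : c * f h < c * (N x + ε / c) := by
      exact mul_lt_mul_of_pos_left h2 hc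
    have h4 : c * (N x + ε / c) = c * N x + ε := by field_simp
    linarith
  have hhom : ∀ c : ℝ, 0 < c → ∀ x, N (c • x) = c * N x := by
    intro c hc x
    refine le_antisymm (hhomle c hc x) ?_
    have := hhomle c⁻¹ (by positivity) (c • x)
    rw [smul_smul, inv_mul_cancel₀ hc.ne', one_smul] at this
    have h5 : c * N x ≤ c * (c⁻¹ * N (c • x)) := by
      exact mul_le_mul_of_nonneg_left this hc.le
    rw [← mul_assoc, mul_inv_cancel₀ hc.ne', one_mul] at h5
    exact h5
  obtain ⟨g, hg1, hg2⟩ := hb N hhom hsub k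
  have hgneg : ∀ x : A, x + star x ≤ 0 → g x ≤ 0 := by
    intro x hx
    refine (hg2 x).trans ?_
    have := hNle x 0 le_rfl (by simpa using hx)
    simpa using this
  have hgpos : ∀ x : A, 0 ≤ x → 0 ≤ g x := by
    intro x hx
    have := hgneg (-x) (by
      rw [star_neg, ← neg_add]
      rw [neg_nonpos]
      exact add_nonneg hx (star_nonneg_iff.2 hx))
    rw [map_neg] at this
    linarith
  have hgst : ∀ x : A, g (star x) = g x := by
    intro x
    have h1 := hgneg (x - star x) (by simp)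
    have h2 := hgneg (star x - x) (by simp)
    rw [map_sub] at h1 h2
    linarith
  have hgle : ∀ x : A, 0 ≤ x → g x ≤ f x := by
    intro x hx
    refine (hg2 x).trans (hNle x x hx ?_)
    rw [(IsSelfAdjoint.of_nonneg hx).star_eq, two_smul]
  obtain ⟨r, hr⟩ := hf.pure g ⟨hgpos, hgst⟩ hgle
  have hr0 : 0 ≤ r := by
    by_contra hcon
    have h1 := hgpos 1 zero_le_one
    rw [hr 1] at h1
    have := hf.one_pos
    nlinarith
  have hk0 : N k ≤ 0 := by
    rw [← hg1, hr k]
    exact mul_nonpos_of_nonneg_of_nonpos hr0 hfk.le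
  obtain ⟨h, h0, h1, h2⟩ := hNlt k δ hδ
  refine ⟨h, h0, ?_, by linarith⟩
  rw [hk.star_eq, ← two_smul ℝ k] at h1
  have := smul_le_smul_of_nonneg_left h1 (show (0 : ℝ) ≤ 1 / 2 by norm_num)
  simpa [smul_smul] using this


lemma exists_upper_two {f : A →ₗ[ℝ] ℝ} (hf : PureF f) {a b : A} (ha : IsSelfAdjoint a)
    (hb : IsSelfAdjoint b) {t : ℝ} (h1 : f a < t) (h2 : f b < t) :
    ∃ c : A, a ≤ c ∧ b ≤ c ∧ f c < t := by
  have hf1 := hf.one_pos
  set m := max (f a) (f b) with hm
  have hmt : m < t := max_lt h1 h2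
  have hma : f a ≤ m := le_max_left _ _
  have hmb : f b ≤ m := le_max_right _ _
  set η := (t - m) / (2 * f 1) with hη
  have hη0 : 0 < η := div_pos (by linarith) (by linarith)
  have hηf : η * f 1 = (t - m) / 2 := by
    rw [hη]; field_simp
  set s := (m - f a) / f 1 + η with hs
  have hs0 : 0 ≤ s := by
    have : 0 ≤ (m - f a) / f 1 := div_nonneg (by linarith) hf1.le
    linarith
  have hsf : s * f 1 = (m - f a) + (t - m) / 2 := by
    rw [hs, add_mul, hηf, div_mul_cancel₀ _ hf1.ne']
  obtain ⟨h, h0, hk, hh⟩ := exists_upper hf (k := b - a - s • (1 : A))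
    ((hb.sub ha).sub ((IsSelfAdjoint.all s).smul (IsSelfAdjoint.one A)))
    (by
      rw [map_sub, map_sub, map_smul, smul_eq_mul, hsf]
      linarith)
    (show (0 : ℝ) < (t - m) / 2 by linarith)
  refine ⟨a + h + s • (1 : A), ?_, ?_, ?_⟩
  · have := add_nonneg h0 (smul_one_nonneg (A := A) hs0)
    rw [add_assoc]
    exact le_add_of_nonneg_right this
  · have := add_le_add_left hk (a + s • (1 : A))
    calc b = (b - a - s • (1 : A)) + (a + s • (1 : A)) := by abel
      _ ≤ h + (a + s • (1 : A)) := by gcongr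
      _ = a + h + s • (1 : A) := by abel
  · rw [map_add, map_add, map_smul, smul_eq_mul, hsf]
    linarith

/-- Monotonicity of inflationary order automorphisms at a pure functional. -/
lemma mono_pure {f : A →ₗ[ℝ] ℝ} (hf : PureF f) (K K' : A → A)
    (hK : ∀ a, IsStrictlyPositive a → IsStrictlyPositive (K a))
    (hK' : ∀ a, IsStrictlyPositive a → IsStrictlyPositive (K' a))
    (hKK' : ∀ a, IsStrictlyPositive a → K (K' a) = a)
    (hK'K : ∀ a, IsStrictlyPositive a → K' (K a) = a)
    (hm : ∀ a b, IsStrictlyPositive a → IsStrictlyPositive b → a ≤ b → K a ≤ K b)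
    (hm' : ∀ a b, IsStrictlyPositive a → IsStrictlyPositive b → a ≤ b → K' a ≤ K' b)
    (hle : ∀ a, IsStrictlyPositive a → K' a ≤ a)
    {a b : A} (ha : IsStrictlyPositive a) (hb : IsStrictlyPositive b) (hab : f a < f b) :
    f (K a) ≤ f (K b) := by
  by_contra hcon
  push Not at hcon
  have hf1 := hf.one_pos
  have ht : 0 < f b := lt_of_le_of_lt (hf.pos.nonneg a ha.nonneg) hab
  have hX0 := hf.pos.nonneg _ (hK a ha).nonneg
  set X := K a with hX
  set Y := K b with hY
  set d := f X - f Y with hd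
  have hd0 : 0 < d := by rw [hd]; linarith
  set M := f X / d + 1 with hM
  have hM1 : 1 ≤ M := by
    have : 0 ≤ f X / d := div_nonneg hX0 hd0.le
    linarith
  have hMd : M * d = f X + d := by
    rw [hM, add_mul, div_mul_cancel₀ _ hd0.ne', one_mul]
  have hXs := (hK a ha).isSelfAdjoint
  have hYs := (hK b hb).isSelfAdjoint
  set ε := f b / (2 * f 1) with hε
  have hε0 : 0 < ε := div_pos ht (by linarith)
  have hεf : ε * f 1 = f b / 2 := by rw [hε]; field_simp
  obtain ⟨a', h1, h2, h3⟩ := exists_upper_two hf (a := X + M • (Y - X)) (b := ε • (1 : A))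
    (hXs.add ((IsSelfAdjoint.all M).smul (hYs.sub hXs)))
    ((IsSelfAdjoint.all ε).smul (IsSelfAdjoint.one A)) (t := f b)
    (by
      rw [map_add, map_smul, map_sub, smul_eq_mul]
      nlinarith)
    (by rw [map_smul, smul_eq_mul, hεf]; linarith)
  have hεsp : IsStrictlyPositive (ε • (1 : A)) := by
    have : IsStrictlyPositive (1 : A) := isStrictlyPositive_one
    exact IsStrictlyPositive.smul hε0 this
  have ha' : IsStrictlyPositive a' := hεsp.of_le h2
  have ha'' := hK' a' ha'
  have hfa'' : f (K' a') < f b := lt_of_le_of_lt (hf.pos.mono (hle a' ha')) h3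
  obtain ⟨d0, g1, g2, g3⟩ := exists_upper_two hf ha.isSelfAdjoint ha''.isSelfAdjoint hab hfa''
  have hd0sp : IsStrictlyPositive d0 := ha.of_le g1
  have k1 : X ≤ K d0 := hm a d0 ha hd0sp g1
  have k2 : a' ≤ K d0 := by
    have := hm _ _ ha'' hd0sp g2
    rwa [hKK' a' ha'] at this
  have k3 : 0 ≤ M • (K d0 - Y) := by
    have e1 : M • (K d0 - Y) = (M - 1) • (K d0 - X) + (K d0 - a') + (a' - (X + M • (Y - X))) := by
      simp only [smul_sub, sub_smul, one_smul]
      abel
    rw [e1]
    refine add_nonneg (add_nonneg (smul_nonneg (by linarith) (sub_nonneg.2 k1))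
      (sub_nonneg.2 k2)) (sub_nonneg.2 h1)
  have k4 : Y ≤ K d0 := by
    have := smul_nonneg (show (0 : ℝ) ≤ M⁻¹ by positivity) k3
    rw [smul_smul, inv_mul_cancel₀ (by positivity), one_smul] at this
    exact sub_nonneg.1 this
  have k5 := hm' _ _ (hK b hb) (hK d0 hd0sp) k4
  rw [hK'K b hb, hK'K d0 hd0sp] at k5
  have := hf.pos.mono k5
  linarith

/-- The functional `a ↦ f (u* a u)`. -/
noncomputable def conjF (f : A →ₗ[ℝ] ℝ) (u : A) : A →ₗ[ℝ] ℝ where
  toFun a := f (star u * a * u)
  map_add' a b := by rw [mul_add, add_mul, map_add]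
  map_smul' r a := by
    rw [mul_smul_comm, smul_mul_assoc, map_smul]
    rfl

lemma conjF_apply (f : A →ₗ[ℝ] ℝ) (u a : A) : conjF f u a = f (star u * a * u) := rfl

lemma PosF.conj {f : A →ₗ[ℝ] ℝ} (hf : PosF f) (u : A) : PosF (conjF f u) where
  nonneg a ha := hf.nonneg _ (star_left_conjugate_nonneg ha u)
  star_eq a := by
    rw [conjF_apply, conjF_apply, ← hf.star_eq]
    congr 1
    simp [star_mul, mul_assoc]

lemma PureF.conj {f : A →ₗ[ℝ] ℝ} (hf : PureF f) {u : A} (hu : IsUnit u) :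
    PureF (conjF f u) := by
  obtain ⟨u, rfl⟩ := hu
  refine ⟨hf.pos.conj _, ?_, ?_⟩
  · have h1 : star ((u⁻¹ : Aˣ) : A) * ((u⁻¹ : Aˣ) : A) ≤ (‖((u⁻¹ : Aˣ) : A)‖ ^ 2) • (1 : A) := by
      rw [← Algebra.algebraMap_eq_smul_one]
      exact CStarAlgebra.star_mul_le_algebraMap_norm_sq
    have h2 := star_left_conjugate_le_conjugate h1 (u : A)
    have h3 : star (u : A) * (star ((u⁻¹ : Aˣ) : A) * ((u⁻¹ : Aˣ) : A)) * (u : A) = 1 := by
      rw [mul_assoc, mul_assoc, Units.inv_mul, mul_one, ← star_mul, Units.inv_mul, star_one]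
    rw [h3] at h2
    have h4 := hf.pos.mono h2
    rw [mul_smul_comm, smul_mul_assoc, map_smul, smul_eq_mul] at h4
    have h5 := hf.one_pos
    rw [conjF_apply]
    by_contra hcon
    push Not at hcon
    have h6 : (‖((u⁻¹ : Aˣ) : A)‖ ^ 2) * f (star (u : A) * 1 * (u : A)) ≤ 0 :=
      mul_nonpos_of_nonneg_of_nonpos (by positivity) hcon
    linarith
  · intro g hg hle
    obtain ⟨r, hr⟩ := hf.pure (conjF g ((u⁻¹ : Aˣ) : A)) (hg.conj _) (by
      intro a ha
      rw [conjF_apply]
      have := hle (star ((u⁻¹ : Aˣ) : A) * a * ((u⁻¹ : Aˣ) : A)) (star_left_conjugate_nonneg ha _)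
      rw [conjF_apply] at this
      have e : star (u : A) * (star ((u⁻¹ : Aˣ) : A) * a * ((u⁻¹ : Aˣ) : A)) * (u : A) = a := by
        calc star (u : A) * (star ((u⁻¹ : Aˣ) : A) * a * ((u⁻¹ : Aˣ) : A)) * (u : A)
            = (star (u : A) * star ((u⁻¹ : Aˣ) : A)) * a * (((u⁻¹ : Aˣ) : A) * (u : A)) := by
              simp only [mul_assoc]
          _ = a := by rw [Units.inv_mul, ← star_mul, Units.inv_mul, star_one, one_mul, mul_one]
      rwa [e] at this)
    refine ⟨r, fun a => ?_⟩
    have := hr (star (u : A) * a * (u : A))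
    rw [conjF_apply] at this
    have e : star ((u⁻¹ : Aˣ) : A) * (star (u : A) * a * (u : A)) * ((u⁻¹ : Aˣ) : A) = a := by
      calc star ((u⁻¹ : Aˣ) : A) * (star (u : A) * a * (u : A)) * ((u⁻¹ : Aˣ) : A)
          = (star ((u⁻¹ : Aˣ) : A) * star (u : A)) * a * ((u : A) * ((u⁻¹ : Aˣ) : A)) := by
            simp only [mul_assoc]
        _ = a := by rw [Units.mul_inv, ← star_mul, Units.mul_inv, star_one, one_mul, mul_one]
    rw [e] at this
    rw [this, conjF_apply]




lemma neg_norm_smul_one_le {a : A} (ha : IsSelfAdjoint a) : -(‖a‖ • (1 : A)) ≤ a := by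
  have := ha.neg_algebraMap_norm_le_self
  rwa [Algebra.algebraMap_eq_smul_one] at this

lemma PosF.two_mul_le {f : A →ₗ[ℝ] ℝ} (hf : PosF f) (x : A) :
    2 * f x ≤ ‖x + star x‖ * f 1 := by
  have h1 := hf.mono (le_norm_smul_one (sa_add_star x))
  rw [map_add, hf.star_eq, map_smul, smul_eq_mul] at h1
  linarith

lemma PosF.eq_zero {f : A →ₗ[ℝ] ℝ} (hf : PosF f) (h1 : f 1 = 0) (x : A) : f x = 0 := by
  have h2 := hf.two_mul_le x
  have h3 := hf.two_mul_le (-x)
  rw [h1, mul_zero] at h2 h3
  rw [map_neg] at h3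
  linarith

lemma PosF.abs_apply_le {f : A →ₗ[ℝ] ℝ} (hf : PosF f) (h1 : f 1 = 1) (x : A) : |f x| ≤ ‖x‖ := by
  have h2 := hf.two_mul_le x
  have h3 := hf.two_mul_le (-x)
  rw [h1, mul_one] at h2 h3
  rw [map_neg] at h3
  have h4 : ‖x + star x‖ ≤ ‖x‖ + ‖x‖ := (norm_add_le _ _).trans (by rw [norm_star])
  have h5 : ‖-x + star (-x)‖ ≤ ‖x‖ + ‖x‖ := (norm_add_le _ _).trans (by rw [norm_star, norm_neg])
  rw [abs_le]
  constructor <;> linarith

/-- The upper spectral bound of (the real part of) an element. -/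
noncomputable def ub (x : A) : ℝ := sInf {r : ℝ | x + star x ≤ (2 * r) • (1 : A)}

lemma ub_nonempty (x : A) : {r : ℝ | x + star x ≤ (2 * r) • (1 : A)}.Nonempty := by
  refine ⟨‖x + star x‖ / 2, ?_⟩
  show x + star x ≤ (2 * (‖x + star x‖ / 2)) • (1 : A)
  rw [mul_div_cancel₀ _ (two_ne_zero)]
  exact le_norm_smul_one (sa_add_star x)

lemma smul_one_le_zero [Nontrivial A] {r : ℝ} (h : r • (1 : A) ≤ 0) : r ≤ 0 := by
  by_contra hcon
  push Not at hcon
  have h1 : (0 : A) ≤ r • (1 : A) := smul_one_nonneg hcon.le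
  have h2 := le_antisymm h h1
  rw [smul_eq_zero] at h2
  rcases h2 with h2 | h2
  · linarith
  · exact one_ne_zero h2

lemma ub_bddBelow [Nontrivial A] (x : A) :
    BddBelow {r : ℝ | x + star x ≤ (2 * r) • (1 : A)} := by
  refine ⟨-‖x + star x‖ / 2, ?_⟩
  rintro r hr
  have h1 := (neg_norm_smul_one_le (sa_add_star x)).trans hr
  have h2 : (-(‖x + star x‖) - 2 * r) • (1 : A) ≤ 0 := by
    rw [sub_smul, neg_smul]
    exact sub_nonpos.2 h1
  have := smul_one_le_zero h2
  linarith

lemma ub_le [Nontrivial A] {x : A} {r : ℝ} (h : x + star x ≤ (2 * r) • (1 : A)) : ub x ≤ r :=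
  csInf_le (ub_bddBelow x) h

lemma ub_lt {x : A} {ε : ℝ} (hε : 0 < ε) : x + star x ≤ (2 * (ub x + ε)) • (1 : A) := by
  obtain ⟨r, hr, hr2⟩ := exists_lt_of_csInf_lt (ub_nonempty x)
    (show sInf {r : ℝ | x + star x ≤ (2 * r) • (1 : A)} < ub x + ε by
      show ub x < ub x + ε
      linarith)
  refine le_trans hr ?_
  rw [← sub_nonneg, ← sub_smul]
  exact smul_one_nonneg (by linarith)

lemma ub_add [Nontrivial A] (x y : A) : ub (x + y) ≤ ub x + ub y := by
  refine le_of_forall_pos_lt_add ?_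
  intro ε hε
  have h1 := ub_lt (x := x) (show (0 : ℝ) < ε / 3 by linarith)
  have h2 := ub_lt (x := y) (show (0 : ℝ) < ε / 3 by linarith)
  have h3 : x + y + star (x + y) ≤ (2 * ((ub x + ε / 3) + (ub y + ε / 3))) • (1 : A) := by
    have := add_le_add h1 h2
    rw [← add_smul, ← mul_add] at this
    calc x + y + star (x + y) = (x + star x) + (y + star y) := by rw [star_add]; abel
      _ ≤ _ := this
  have := ub_le h3
  linarith

lemma ub_smul_le [Nontrivial A] (c : ℝ) (hc : 0 < c) (x : A) : ub (c • x) ≤ c * ub x := by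
  refine le_of_forall_pos_le_add ?_
  intro ε hε
  have h1 := ub_lt (x := x) (show (0 : ℝ) < ε / c by positivity)
  have h2 : c • x + star (c • x) ≤ (2 * (c * ub x + ε)) • (1 : A) := by
    rw [star_smul, star_trivial, ← smul_add]
    have := smul_le_smul_of_nonneg_left h1 hc.le
    rw [smul_smul] at this
    have e : c * (2 * (ub x + ε / c)) = 2 * (c * ub x + ε) := by field_simp
    rwa [e] at this
  exact ub_le h2

lemma ub_smul [Nontrivial A] (c : ℝ) (hc : 0 < c) (x : A) : ub (c • x) = c * ub x := by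
  refine le_antisymm (ub_smul_le c hc x) ?_
  have := ub_smul_le c⁻¹ (by positivity) (c • x)
  rw [smul_smul, inv_mul_cancel₀ hc.ne', one_smul] at this
  have h5 : c * ub x ≤ c * (c⁻¹ * ub (c • x)) := mul_le_mul_of_nonneg_left this hc.le
  rwa [← mul_assoc, mul_inv_cancel₀ hc.ne', one_mul] at h5

lemma PosF.le_ub {f : A →ₗ[ℝ] ℝ} (hf : PosF f) (h1 : f 1 = 1) (x : A) : f x ≤ ub x := by
  refine le_of_forall_pos_le_add ?_
  intro ε hε
  have := hf.mono (ub_lt (x := x) hε)
  rw [map_add, hf.star_eq, map_smul, h1, smul_eq_mul] at this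
  linarith

lemma exists_state [Nontrivial A] (d : A) :
    ∃ f : A →ₗ[ℝ] ℝ, PosF f ∧ f 1 = 1 ∧ f d = ub d := by
  obtain ⟨g, hg1, hg2⟩ := hb (ub : A → ℝ) ub_smul ub_add d
  have hgneg : ∀ x : A, x + star x ≤ 0 → g x ≤ 0 := by
    intro x hx
    refine (hg2 x).trans (ub_le ?_)
    simpa using hx
  refine ⟨g, ⟨?_, ?_⟩, ?_, hg1⟩
  · intro x hx
    have := hgneg (-x) (by
      rw [star_neg, ← neg_add]
      rw [neg_nonpos]
      exact add_nonneg hx (star_nonneg_iff.2 hx))
    rw [map_neg] at this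
    linarith
  · intro x
    have h1 := hgneg (x - star x) (by simp)
    have h2 := hgneg (star x - x) (by simp)
    rw [map_sub] at h1 h2
    linarith
  · have h1 : g 1 ≤ 1 := (hg2 1).trans (ub_le (by rw [star_one, mul_one, two_smul]))
    have h2 : g (-1) ≤ -1 := (hg2 (-1)).trans (ub_le (by
      rw [star_neg, star_one, mul_neg, mul_one, neg_smul, two_smul, neg_add]))
    rw [map_neg] at h2
    linarith

lemma le_zero_of_ub {d : A} (hd : IsSelfAdjoint d) (h : ub d ≤ 0) : d ≤ 0 := by
  have h1 : ∀ ε : ℝ, 0 < ε → 0 ≤ ε • (1 : A) - d := by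
    intro ε hε
    have h2 := ub_lt (x := d) hε
    rw [hd.star_eq, ← two_smul ℝ d, mul_smul] at h2
    have h3 := smul_le_smul_of_nonneg_left h2 (show (0 : ℝ) ≤ 1 / 2 by norm_num)
    rw [smul_smul, smul_smul] at h3
    norm_num at h3
    rw [sub_nonneg]
    refine h3.trans ?_
    rw [← sub_nonneg, ← sub_smul]
    exact smul_one_nonneg (by linarith)
  have h2 : Filter.Tendsto (fun n : ℕ => (1 / ((n : ℝ) + 1)) • (1 : A) - d) Filter.atTop
      (nhds ((0 : ℝ) • (1 : A) - d)) :=
    (tendsto_one_div_add_atTop_nhds_zero_nat.smul_const (1 : A)).sub_const d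
  have h3 : (0 : ℝ) • (1 : A) - d ∈ {a : A | 0 ≤ a} :=
    CStarAlgebra.isClosed_nonneg.mem_of_tendsto h2
      (Filter.Eventually.of_forall fun n => h1 _ (by positivity))
  have h4 : 0 ≤ (0 : ℝ) • (1 : A) - d := h3
  rw [zero_smul, zero_sub] at h4
  exact neg_nonneg.1 h4

lemma exists_pure_ub [Nontrivial A] (d : A) :
    ∃ f : A →ₗ[ℝ] ℝ, PureF f ∧ f 1 = 1 ∧ f d = ub d := by
  let K : Set (A → ℝ) := {F | (∀ x y, F (x + y) = F x + F y) ∧ (∀ (r : ℝ) x, F (r • x) = r * F x) ∧
    (∀ x, 0 ≤ x → 0 ≤ F x) ∧ (∀ x, F (star x) = F x) ∧ F 1 = 1 ∧ F d = ub d}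
  let mk : ∀ F ∈ K, A →ₗ[ℝ] ℝ := fun F hF =>
    { toFun := F, map_add' := hF.1, map_smul' := by intro r x; simpa using hF.2.1 r x }
  have mkPos : ∀ F (hF : F ∈ K), PosF (mk F hF) := fun F hF => ⟨hF.2.2.1, hF.2.2.2.1⟩
  have hof : ∀ f : A →ₗ[ℝ] ℝ, PosF f → f 1 = 1 → f d = ub d → (fun x => f x) ∈ K := by
    intro f hf h1 h2
    exact ⟨fun x y => map_add f x y, fun r x => by simp, hf.nonneg,
      hf.star_eq, h1, h2⟩
  have hKne : K.Nonempty := by
    obtain ⟨f, hf, h1, h2⟩ := exists_state d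
    exact ⟨_, hof f hf h1 h2⟩
  have hKclosed : IsClosed K := by
    have e : K = (⋂ x : A, ⋂ y : A, {F : A → ℝ | F (x + y) = F x + F y}) ∩
        (⋂ r : ℝ, ⋂ x : A, {F : A → ℝ | F (r • x) = r * F x}) ∩
        (⋂ x : A, ⋂ _ : 0 ≤ x, {F : A → ℝ | 0 ≤ F x}) ∩
        (⋂ x : A, {F : A → ℝ | F (star x) = F x}) ∩ {F | F 1 = 1} ∩ {F | F d = ub d} := by
      ext F
      simp only [K, Set.mem_ofPred_eq, Set.mem_inter_iff, Set.mem_iInter]
      tauto
    rw [e]
    refine IsClosed.inter (IsClosed.inter (IsClosed.inter (IsClosed.inter (IsClosed.inter ?_ ?_) ?_)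
      ?_) ?_) ?_
    · exact isClosed_iInter fun x => isClosed_iInter fun y =>
        isClosed_eq (by fun_prop) (by fun_prop)
    · exact isClosed_iInter fun r => isClosed_iInter fun x =>
        isClosed_eq (by fun_prop) (by fun_prop)
    · exact isClosed_iInter fun x => isClosed_iInter fun _ =>
        isClosed_le continuous_const (continuous_apply _)
    · exact isClosed_iInter fun x => isClosed_eq (continuous_apply _) (continuous_apply _)
    · exact isClosed_eq (continuous_apply _) continuous_const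
    · exact isClosed_eq (continuous_apply _) continuous_const
  have hKcomp : IsCompact K := by
    refine IsCompact.of_isClosed_subset
      (isCompact_univ_pi (fun x : A => isCompact_Icc (a := -‖x‖) (b := ‖x‖))) hKclosed ?_
    intro F hF x _
    have := (mkPos F hF).abs_apply_le hF.2.2.2.2.1 x
    exact abs_le.1 this
  obtain ⟨F, hF⟩ := hKcomp.extremePoints_nonempty hKne
  have hFK : F ∈ K := hF.1
  refine ⟨mk F hFK, ⟨mkPos F hFK, ?_, ?_⟩, hFK.2.2.2.2.1, hFK.2.2.2.2.2⟩
  · have : mk F hFK 1 = 1 := hFK.2.2.2.2.1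
    rw [this]; norm_num
  · intro g hg hle
    set f := mk F hFK with hfdef
    have hf : PosF f := mkPos F hFK
    have hf1 : f 1 = 1 := hFK.2.2.2.2.1
    have hfd : f d = ub d := hFK.2.2.2.2.2
    set l := g 1 with hl
    have hl0 : 0 ≤ l := hg.nonneg 1 zero_le_one
    have hl1 : l ≤ 1 := by
      have := hle 1 zero_le_one
      rwa [hf1] at this
    have hfg : PosF (f - g) := by
      refine ⟨fun a ha => ?_, fun a => ?_⟩
      · rw [LinearMap.sub_apply]
        have := hle a ha
        linarith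
      · rw [LinearMap.sub_apply, LinearMap.sub_apply, hf.star_eq, hg.star_eq]
    rcases hl0.eq_or_lt with h0 | h0
    · refine ⟨0, fun a => ?_⟩
      rw [zero_mul]
      exact hg.eq_zero h0.symm a
    rcases hl1.eq_or_lt with h1 | h1
    · refine ⟨1, fun a => ?_⟩
      have := hfg.eq_zero (by rw [LinearMap.sub_apply, hf1, ← hl, h1, sub_self]) a
      rw [LinearMap.sub_apply] at this
      linarith
    have s1 : PosF (l⁻¹ • g) := by
      refine ⟨fun a ha => ?_, fun a => ?_⟩
      · rw [LinearMap.smul_apply, smul_eq_mul]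
        exact mul_nonneg (by positivity) (hg.nonneg a ha)
      · rw [LinearMap.smul_apply, LinearMap.smul_apply, hg.star_eq]
    have h1l : 0 < 1 - l := by linarith
    have s2 : PosF ((1 - l)⁻¹ • (f - g)) := by
      refine ⟨fun a ha => ?_, fun a => ?_⟩
      · rw [LinearMap.smul_apply, smul_eq_mul]
        exact mul_nonneg (by positivity) (hfg.nonneg a ha)
      · rw [LinearMap.smul_apply, LinearMap.smul_apply, hfg.star_eq]
    have t1 : (l⁻¹ • g) 1 = 1 := by
      rw [LinearMap.smul_apply, smul_eq_mul, ← hl, inv_mul_cancel₀ h0.ne']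
    have t2 : ((1 - l)⁻¹ • (f - g)) 1 = 1 := by
      rw [LinearMap.smul_apply, smul_eq_mul, LinearMap.sub_apply, hf1, ← hl,
        inv_mul_cancel₀ h1l.ne']
    have d1 := s1.le_ub t1 d
    have d2 := s2.le_ub t2 d
    have comb : ∀ x, l * (l⁻¹ • g) x + (1 - l) * ((1 - l)⁻¹ • (f - g)) x = f x := by
      intro x
      rw [LinearMap.smul_apply, LinearMap.smul_apply, LinearMap.sub_apply, smul_eq_mul,
        smul_eq_mul, ← mul_assoc, mul_inv_cancel₀ h0.ne', ← mul_assoc, mul_inv_cancel₀ h1l.ne']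
      ring
    have cd := comb d
    rw [hfd] at cd
    have d1' : (l⁻¹ • g) d = ub d := by nlinarith
    have d2' : ((1 - l)⁻¹ • (f - g)) d = ub d := by nlinarith
    have hext := (mem_extremePoints.1 hF).2 _ (hof _ s1 t1 d1') _ (hof _ s2 t2 d2') (by
      refine ⟨l, 1 - l, h0, h1l, by ring, ?_⟩
      funext x
      exact comb x)
    refine ⟨l, fun a => ?_⟩
    have := congrFun hext.1 a
    have e : (l⁻¹ • g) a = f a := this
    rw [← e, LinearMap.smul_apply, smul_eq_mul, ← mul_assoc, mul_inv_cancel₀ h0.ne', one_mul]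

lemma exists_pure_ne [Nontrivial A] {d : A} (hd : IsSelfAdjoint d) (h0 : d ≠ 0) :
    ∃ f : A →ₗ[ℝ] ℝ, PureF f ∧ f 1 = 1 ∧ f d ≠ 0 := by
  by_cases h1 : ub d ≤ 0
  · by_cases h2 : ub (-d) ≤ 0
    · have h3 := le_zero_of_ub hd h1
      have h4 := le_zero_of_ub hd.neg h2
      exact absurd (le_antisymm h3 (neg_nonpos.1 h4)) h0
    · obtain ⟨f, hf, hf1, hfd⟩ := exists_pure_ub (-d)
      refine ⟨f, hf, hf1, ?_⟩
      intro h5
      rw [map_neg, h5] at hfd
      push Not at h2
      linarith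
  · obtain ⟨f, hf, hf1, hfd⟩ := exists_pure_ub d
    refine ⟨f, hf, hf1, ?_⟩
    push Not at h1
    rw [hfd]
    exact h1.ne'




lemma quad_cs {a b c : ℝ} (h : ∀ s : ℝ, 0 ≤ a * s ^ 2 + 2 * b * s + c) : b ^ 2 ≤ a * c := by
  have h' : ∀ s : ℝ, 0 ≤ a * (s * s) + (2 * b) * s + c := by
    intro s
    have := h s
    nlinarith
  have := discrim_le_zero h'
  rw [discrim] at this
  nlinarith

/-- Cauchy-Schwarz with a positive weight. -/
lemma PosF.cs {f : A →ₗ[ℝ] ℝ} (hf : PosF f) {a : A} (ha : 0 ≤ a) (u v : A) :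
    (f (star u * a * v)) ^ 2 ≤ f (star u * a * u) * f (star v * a * v) := by
  apply quad_cs
  intro s
  have h1 := hf.nonneg _ (star_left_conjugate_nonneg ha (s • u + v))
  have hst := (IsSelfAdjoint.of_nonneg ha).star_eq
  have e : star (s • u + v) * a * (s • u + v) = (s ^ 2) • (star u * a * u) +
      s • (star u * a * v + star (star u * a * v)) + star v * a * v := by
    simp only [star_add, star_smul, star_trivial, add_mul, mul_add, smul_mul_assoc, mul_smul_comm,
      smul_add, star_mul, star_star, hst, smul_smul, mul_assoc, sq]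
    abel
  rw [e, map_add, map_add, map_smul, map_smul, map_add, hf.star_eq, smul_eq_mul, smul_eq_mul] at h1
  nlinarith

lemma PosF.cs_one {f : A →ₗ[ℝ] ℝ} (hf : PosF f) (u v : A) :
    (f (star u * v)) ^ 2 ≤ f (star u * u) * f (star v * v) := by
  have := hf.cs (zero_le_one (α := A)) u v
  simpa using this

lemma isUnit_sub_smul {y : A} (hy : IsSelfAdjoint y) {z : ℂ} (hz : z.im ≠ 0) :
    IsUnit (y - z • (1 : A)) := by
  have h1 : z ∉ spectrum ℂ y := by
    intro h
    exact hz (hy.im_eq_zero_of_mem_spectrum h)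
  rw [spectrum.notMem_iff, Algebra.algebraMap_eq_smul_one] at h1
  have := h1.neg
  rwa [neg_sub] at this

/-- A noncommutative algebra has a pure functional with a genuinely non-multiplicative element. -/
lemma exists_pure_nonmul [Nontrivial A] (hnc : ∃ h k : A, IsSelfAdjoint h ∧ IsSelfAdjoint k ∧ h * k ≠ k * h) :
    ∃ (f : A →ₗ[ℝ] ℝ) (y : A), PureF f ∧ f 1 = 1 ∧ IsSelfAdjoint y ∧ f y = 0 ∧ f (y * y) = 1 := by
  obtain ⟨h, k, hh, hk, hne⟩ := hnc
  set d : A := Complex.I • (h * k - k * h) with hd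
  have hdsa : IsSelfAdjoint d := by
    rw [IsSelfAdjoint, hd, star_smul, star_sub, star_mul, star_mul, hh.star_eq, hk.star_eq]
    simp only [Complex.star_def, Complex.conj_I, neg_smul, smul_sub]
    abel
  have hd0 : d ≠ 0 := by
    rw [hd]
    intro h0
    rw [smul_eq_zero] at h0
    rcases h0 with h0 | h0
    · exact Complex.I_ne_zero h0
    · exact hne (sub_eq_zero.1 h0)
  obtain ⟨f, hf, hf1, hfd⟩ := exists_pure_ne hdsa hd0
  set h0 : A := h - (f h) • (1 : A) with hh0
  have h0sa : IsSelfAdjoint h0 := hh.sub ((IsSelfAdjoint.all (f h)).smul (IsSelfAdjoint.one A))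
  have hfh0 : f h0 = 0 := by
    rw [hh0, map_sub, map_smul, hf1, smul_eq_mul, mul_one, sub_self]
  have hpos : 0 < f (h0 * h0) := by
    have hnn : 0 ≤ f (h0 * h0) := by
      have := hf.pos.nonneg _ (star_mul_self_nonneg h0)
      rwa [h0sa.star_eq] at this
    rcases hnn.eq_or_lt with h1 | h1
    · exfalso
      apply hfd
      have h2 : ∀ z : A, f (h0 * z) = 0 := by
        intro z
        have := hf.pos.cs_one h0 z
        rw [h0sa.star_eq, ← h1, zero_mul] at this
        exact pow_eq_zero_iff (two_ne_zero) |>.1 (le_antisymm this (sq_nonneg _))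
      have e : d = h0 * (Complex.I • k) + star (h0 * (Complex.I • k)) := by
        rw [hd, star_mul, star_smul, h0sa.star_eq, hk.star_eq, hh0]
        simp only [Complex.star_def, Complex.conj_I, sub_mul, mul_sub,
          mul_smul_comm, smul_mul_assoc, one_mul, mul_one]
        module
      rw [e, map_add, hf.pos.star_eq, h2, add_zero]
    · exact h1
  set c : ℝ := (Real.sqrt (f (h0 * h0)))⁻¹ with hc
  refine ⟨f, c • h0, hf, hf1, (IsSelfAdjoint.all c).smul h0sa, ?_, ?_⟩
  · rw [map_smul, hfh0, smul_zero]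
  · rw [smul_mul_smul_comm, map_smul, smul_eq_mul, hc, ← mul_inv, Real.mul_self_sqrt hpos.le,
      inv_mul_cancel₀ hpos.ne']

lemma f_I_sa {f : A →ₗ[ℝ] ℝ} (hf : PosF f) {y : A} (hy : IsSelfAdjoint y) :
    f (Complex.I • y) = 0 := by
  have h1 := hf.star_eq (Complex.I • y)
  rw [star_smul, hy.star_eq, Complex.star_def, Complex.conj_I, neg_smul, map_neg] at h1
  linarith

/-- The element `u`, invertible together with `1 + u`, `1 - u`, whose vector is a unit vector
orthogonal to the cyclic vector. -/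
lemma exists_u {f : A →ₗ[ℝ] ℝ} (hf : PureF f) (hf1 : f 1 = 1) {y : A} (hy : IsSelfAdjoint y)
    (hfy : f y = 0) (hfyy : f (y * y) = 1) :
    ∃ u : A, IsUnit u ∧ IsUnit (1 + u) ∧ IsUnit (1 - u) ∧ f u = 0 ∧ f (Complex.I • u) = 0 ∧
      f (star u * u) = 1 := by
  set z : A := y - Complex.I • (1 : A) with hz
  have hzst : star z = y + Complex.I • (1 : A) := by
    rw [hz, star_sub, star_smul, star_one, hy.star_eq, Complex.star_def, Complex.conj_I, neg_smul,
      sub_neg_eq_add]
  have hzu : IsUnit z := isUnit_sub_smul hy (by simp)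
  have e1 : z * z = y * y - (2 : ℝ) • (Complex.I • y) - 1 := by
    rw [hz]
    simp only [sub_mul, mul_sub, smul_mul_assoc, mul_smul_comm, one_mul, mul_one]
    match_scalars
    · simp
    · simp; ring
    · simp
  have e2 : star (z * z) * (z * z) = (y * y + 1) * (y * y + 1) := by
    have c1 : star z * z = y * y + 1 := by
      rw [hzst, hz]
      simp only [add_mul, mul_sub, smul_mul_assoc, mul_smul_comm, one_mul, mul_one]
      match_scalars
      · simp
      · simp
      · simp
    have c2 : (y * y + 1) * z = z * (y * y + 1) := by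
      have h1 : Commute (y * y + 1) z := by
        rw [hz]
        have : Commute (y * y + 1) y :=
          ((Commute.refl y).mul_left (Commute.refl y)).add_left (Commute.one_left y)
        exact this.sub_right ((Commute.one_right _).smul_right _)
      exact h1.eq
    calc star (z * z) * (z * z) = star z * (star z * z) * z := by
          rw [star_mul]; simp only [mul_assoc]
      _ = star z * ((y * y + 1) * z) := by rw [c1, mul_assoc]
      _ = star z * (z * (y * y + 1)) := by rw [c2]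
      _ = (star z * z) * (y * y + 1) := by rw [mul_assoc]
      _ = _ := by rw [c1]
  set S : ℝ := f (star (z * z) * (z * z)) with hS
  have hS3 : 3 ≤ S := by
    have c3 : (y * y + 1) * (y * y + 1) = (y * y) * (y * y) + ((2 : ℝ) • (y * y) + 1) := by
      simp only [add_mul, mul_add, one_mul, mul_one, two_smul]
      abel
    have c4 : 0 ≤ f ((y * y) * (y * y)) := by
      have := hf.pos.nonneg _ (star_mul_self_nonneg (y * y))
      rwa [star_mul, hy.star_eq] at this
    rw [hS, e2, c3, map_add, map_add, map_smul, hfyy, hf1, smul_eq_mul]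
    linarith
  set R : ℝ := Real.sqrt S with hR
  have hRR : R * R = S := Real.mul_self_sqrt (by linarith)
  have hR0 : 0 ≤ R := Real.sqrt_nonneg _
  have hR1 : 1 < R := by nlinarith
  set ρ : ℝ := Real.sqrt R with hρ
  have hρρ : ρ * ρ = R := Real.mul_self_sqrt hR0
  have hρ0 : 0 ≤ ρ := Real.sqrt_nonneg _
  have hρ1 : 1 < ρ := by nlinarith
  have hRne : R ≠ 0 := by linarith
  have hfz : f (z * z) = 0 := by
    rw [e1, map_sub, map_sub, map_smul, f_I_sa hf.pos hy, hfyy, hf1]
    simp
  have hfIz : f (Complex.I • (z * z)) = 0 := by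
    have e3 : Complex.I • (z * z) = Complex.I • (y * y) + (2 : ℝ) • y - Complex.I • (1 : A) := by
      rw [e1, smul_sub, smul_sub, smul_comm Complex.I (2 : ℝ), smul_smul, Complex.I_mul_I,
        neg_smul, one_smul, smul_neg, sub_neg_eq_add]
    have hyy : IsSelfAdjoint (y * y) := by
      rw [IsSelfAdjoint, star_mul, hy.star_eq]
    rw [e3, map_sub, map_add, f_I_sa hf.pos hyy, f_I_sa hf.pos (IsSelfAdjoint.one A),
      map_smul, hfy]
    simp
  have hRR' : (R⁻¹ : ℝ) ≠ 0 := inv_ne_zero hRne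
  have unit_smul : ∀ (r : ℝ) (x : A), r ≠ 0 → IsUnit x → IsUnit (r • x) := by
    intro r x hr hx
    rw [Algebra.smul_def]
    exact ((IsUnit.mk0 r hr).map (algebraMap ℝ A)).mul hx
  refine ⟨R⁻¹ • (z * z), unit_smul _ _ hRR' (hzu.mul hzu), ?_, ?_, ?_, ?_, ?_⟩
  · have h1 : IsUnit (y - (Complex.I * (1 + ρ)) • (1 : A)) := isUnit_sub_smul hy (by
      simp
      linarith)
    have h2 : IsUnit (y - (Complex.I * (1 - ρ)) • (1 : A)) := isUnit_sub_smul hy (by
      simp
      intro h
      linarith)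
    have h3 := unit_smul _ _ hRR' (h1.mul h2)
    have h4 : R⁻¹ • ((y - (Complex.I * (1 + ρ)) • (1 : A)) * (y - (Complex.I * (1 - ρ)) • (1 : A))) =
        1 + R⁻¹ • (z * z) := by
      have h5 : (y - (Complex.I * (1 + ρ)) • (1 : A)) * (y - (Complex.I * (1 - ρ)) • (1 : A)) =
          z * z + R • (1 : A) := by
        rw [e1]
        simp only [sub_mul, mul_sub, smul_mul_assoc, mul_smul_comm, one_mul, mul_one]
        match_scalars
        · simp
        · simp; ring
        · have : (R : ℂ) = ρ * ρ := by rw [← hρρ]; push_cast; ring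
          simp only [Complex.coe_algebraMap, this]
          ring_nf
          simp
      rw [h5, smul_add, smul_smul, inv_mul_cancel₀ hRne, one_smul, add_comm]
    rwa [h4] at h3
  · have h1 : IsUnit (y - (Complex.I + ρ) • (1 : A)) := isUnit_sub_smul hy (by simp)
    have h2 : IsUnit (y - (Complex.I - ρ) • (1 : A)) := isUnit_sub_smul hy (by simp)
    have h3 := unit_smul _ _ (neg_ne_zero.2 hRR') (h1.mul h2)
    have h4 : (-R⁻¹) • ((y - (Complex.I + ρ) • (1 : A)) * (y - (Complex.I - ρ) • (1 : A))) =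
        1 - R⁻¹ • (z * z) := by
      have h5 : (y - (Complex.I + ρ) • (1 : A)) * (y - (Complex.I - ρ) • (1 : A)) =
          z * z - R • (1 : A) := by
        rw [e1]
        simp only [sub_mul, mul_sub, smul_mul_assoc, mul_smul_comm, one_mul, mul_one]
        match_scalars
        · simp
        · simp; ring
        · have : (R : ℂ) = ρ * ρ := by rw [← hρρ]; push_cast; ring
          simp only [Complex.coe_algebraMap, this]
          ring_nf
          simp
      rw [h5, smul_sub, smul_smul, neg_mul, inv_mul_cancel₀ hRne, neg_smul, neg_smul, one_smul]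
      abel
    rwa [h4] at h3
  · rw [map_smul, hfz, smul_zero]
  · rw [smul_comm, map_smul, hfIz, smul_zero]
  · rw [star_smul, star_trivial, smul_mul_smul_comm, map_smul, ← hS, ← hRR, smul_eq_mul]
    field_simp


lemma conj_one_add {f : A →ₗ[ℝ] ℝ} (hf : PosF f) {a : A} (ha : IsSelfAdjoint a) (w : A) :
    conjF f (1 + w) a = f a + conjF f w a + 2 * f (a * w) := by
  have e : star (1 + w) * a * (1 + w) = a + star w * a * w + (a * w + star (a * w)) := by
    simp only [star_add, star_one, star_mul, ha.star_eq, add_mul, mul_add, one_mul, mul_one]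
    abel
  rw [conjF_apply, e, map_add, map_add, map_add, hf.star_eq, conjF_apply]
  ring

lemma conj_one_sub {f : A →ₗ[ℝ] ℝ} (hf : PosF f) {a : A} (ha : IsSelfAdjoint a) (w : A) :
    conjF f (1 - w) a = f a + conjF f w a - 2 * f (a * w) := by
  have := conj_one_add hf ha (-w)
  rw [← sub_eq_add_neg, mul_neg, map_neg] at this
  rw [this]
  have e : conjF f (-w) a = conjF f w a := by
    rw [conjF_apply, conjF_apply]
    congr 1
    simp
  rw [e]
  ring

lemma orth_of_conj_eq {f : A →ₗ[ℝ] ℝ} (hf : PureF f) (hf1 : f 1 = 1) {w : A} (hw : f w = 0)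
    (hc : ∀ a, conjF f w a = f a) {a : A} (ha : IsSelfAdjoint a) : f (a * w) = 0 := by
  obtain ⟨r, hr⟩ := hf.pure ((1 / 4 : ℝ) • conjF f (1 + w)) (by
      have h := hf.pos.conj (1 + w)
      refine ⟨fun b hb => ?_, fun b => ?_⟩
      · rw [LinearMap.smul_apply, smul_eq_mul]
        exact mul_nonneg (by norm_num) (h.nonneg b hb)
      · rw [LinearMap.smul_apply, LinearMap.smul_apply, h.star_eq]) (by
      intro b hb
      have hbs := IsSelfAdjoint.of_nonneg hb
      rw [LinearMap.smul_apply, smul_eq_mul, conj_one_add hf.pos hbs, hc]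
      have h2 := (hf.pos.conj (1 - w)).nonneg b hb
      rw [conj_one_sub hf.pos hbs, hc] at h2
      linarith)
  have h1 := hr 1
  rw [LinearMap.smul_apply, smul_eq_mul, conj_one_add hf.pos (IsSelfAdjoint.one A), hc, one_mul, hw,
    hf1] at h1
  have h2 := hr a
  rw [LinearMap.smul_apply, smul_eq_mul, conj_one_add hf.pos ha, hc] at h2
  have h3 : r = 1 / 2 := by linarith
  rw [h3] at h2
  linarith

open ComplexStarModule in
lemma not_proportional {f : A →ₗ[ℝ] ℝ} (hf : PureF f) (hf1 : f 1 = 1) {u : A} (hu : f u = 0)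
    (hIu : f (Complex.I • u) = 0) (huu : f (star u * u) = 1) :
    ¬ ∃ r : ℝ, ∀ a, conjF f u a = r * f a := by
  rintro ⟨r, hr⟩
  have hr1 : r = 1 := by
    have := hr 1
    rw [conjF_apply, mul_one, huu, hf1] at this
    linarith
  have hc : ∀ a, conjF f u a = f a := by
    intro a; rw [hr, hr1, one_mul]
  have hcI : ∀ a, conjF f (Complex.I • u) a = f a := by
    intro a
    rw [← hc a, conjF_apply, conjF_apply]
    congr 1
    rw [star_smul, Complex.star_def, Complex.conj_I, smul_mul_assoc, smul_mul_assoc, mul_smul_comm,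
      smul_smul, neg_mul, Complex.I_mul_I, neg_neg, one_smul]
  have h1 := orth_of_conj_eq hf hf1 hu hc (a := (ℜ (star u) : A)) (ℜ (star u)).2
  have h2 := orth_of_conj_eq hf hf1 hIu hcI (a := (ℑ (star u) : A)) (ℑ (star u)).2
  have h3 := realPart_add_I_smul_imaginaryPart (star u)
  have h4 : f (star u * u) = 0 := by
    calc f (star u * u) = f (((ℜ (star u) : A) + Complex.I • (ℑ (star u) : A)) * u) := by rw [h3]
      _ = f ((ℜ (star u) : A) * u) + f ((ℑ (star u) : A) * (Complex.I • u)) := by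
          rw [add_mul, map_add, smul_mul_assoc, mul_smul_comm]
      _ = 0 := by rw [h1, h2, add_zero]
  rw [huu] at h4
  exact one_ne_zero h4

lemma exists_small {f g : A →ₗ[ℝ] ℝ} (hf : PosF f) (hg : PureF g)
    (h : ¬ ∃ r : ℝ, ∀ a, f a = r * g a) {ε : ℝ} (hε : 0 < ε) :
    ∃ p : A, 0 ≤ p ∧ f p = 1 ∧ g p < ε := by
  by_contra hcon
  push Not at hcon
  apply h
  obtain ⟨r, hr⟩ := hg.pure (ε • f) (by
      refine ⟨fun b hb => ?_, fun b => ?_⟩
      · rw [LinearMap.smul_apply, smul_eq_mul]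
        exact mul_nonneg hε.le (hf.nonneg b hb)
      · rw [LinearMap.smul_apply, LinearMap.smul_apply, hf.star_eq]) (by
      intro b hb
      rw [LinearMap.smul_apply, smul_eq_mul]
      rcases (hf.nonneg b hb).eq_or_lt with h0 | h0
      · rw [← h0, mul_zero]
        exact hg.pos.nonneg b hb
      · have := hcon ((f b)⁻¹ • b) (smul_nonneg (by positivity) hb) (by
          rw [map_smul, smul_eq_mul, inv_mul_cancel₀ h0.ne'])
        rw [map_smul, smul_eq_mul] at this
        have h3 : ε * f b ≤ (f b)⁻¹ * g b * f b := mul_le_mul_of_nonneg_right this h0.le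
        have h4 : (f b)⁻¹ * g b * f b = g b := by field_simp
        linarith)
  refine ⟨r / ε, fun a => ?_⟩
  have := hr a
  rw [LinearMap.smul_apply, smul_eq_mul] at this
  field_simp
  linarith

lemma abs_le_of_sq_le {x κ : ℝ} (hκ : 0 ≤ κ) (h : x ^ 2 ≤ κ ^ 2) : |x| ≤ κ := by
  exact abs_le_of_sq_le_sq h hκ

/-- Richness of the joint range of the four functionals. -/
lemma rich {f : A →ₗ[ℝ] ℝ} (hf : PureF f) (hf1 : f 1 = 1) {u : A} (hU : IsUnit u) (hu : f u = 0)
    (hIu : f (Complex.I • u) = 0) (huu : f (star u * u) = 1) {x y η : ℝ} (hx : 0 < x) (hy : 0 < y)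
    (hη : 0 < η) :
    ∃ a : A, IsStrictlyPositive a ∧ x ≤ f a ∧ f a < x + η ∧ y ≤ conjF f u a ∧
      conjF f u a < y + η ∧ |conjF f (1 + u) a - (x + y)| < η ∧
      |conjF f (1 - u) a - (x + y)| < η := by
  have hnp := not_proportional hf hf1 hu hIu huu
  have hnp' : ¬ ∃ r : ℝ, ∀ a, f a = r * conjF f u a := by
    rintro ⟨r, hr⟩
    apply hnp
    have h1 := hr 1
    rw [hf1, conjF_apply, mul_one, huu, mul_one] at h1
    refine ⟨1, fun a => ?_⟩
    rw [hr a, ← h1, one_mul, one_mul]
  have hf2 := hf.conj hU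
  set κ : ℝ := min 1 (η / (8 * (x + y))) with hκ
  have hxy : 0 < x + y := by linarith
  have hκ0 : 0 < κ := lt_min one_pos (by positivity)
  have hκ1 : κ ≤ 1 := min_le_left _ _
  have hκη : κ * (x + y) ≤ η / 8 := by
    have : κ ≤ η / (8 * (x + y)) := min_le_right _ _
    calc κ * (x + y) ≤ η / (8 * (x + y)) * (x + y) := mul_le_mul_of_nonneg_right this hxy.le
      _ = η / 8 := by field_simp
  have hκκ : κ ^ 2 ≤ κ := by nlinarith
  obtain ⟨p, hp0, hp1, hp2⟩ := exists_small hf.pos hf2 hnp' (show (0 : ℝ) < κ ^ 2 by positivity)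
  obtain ⟨q, hq0, hq1, hq2⟩ := exists_small hf2.pos hf hnp (show (0 : ℝ) < κ ^ 2 by positivity)
  have hp3 := hf2.pos.nonneg p hp0
  have hq3 := hf.pos.nonneg q hq0
  have csp : |f (p * u)| ≤ κ := by
    apply abs_le_of_sq_le hκ0.le
    have := hf.pos.cs hp0 1 u
    rw [star_one, one_mul, mul_one, hp1, one_mul] at this
    exact this.trans hp2.le
  have csq : |f (q * u)| ≤ κ := by
    apply abs_le_of_sq_le hκ0.le
    have := hf.pos.cs hq0 1 u
    rw [star_one, one_mul, mul_one] at this
    have h3 : f (star u * q * u) = 1 := hq1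
    rw [h3, mul_one] at this
    exact this.trans hq2.le
  have ha0 : 0 ≤ x • p + y • q := add_nonneg (smul_nonneg hx.le hp0) (smul_nonneg hy.le hq0)
  have hδ : IsStrictlyPositive ((η / 8) • (1 : A)) :=
    IsStrictlyPositive.smul (by positivity) isStrictlyPositive_one
  have hsp : IsStrictlyPositive (x • p + y • q + (η / 8) • (1 : A)) := hδ.nonneg_add ha0
  have v1 : f (x • p + y • q + (η / 8) • (1 : A)) = x + y * f q + η / 8 := by
    simp only [map_add, map_smul, smul_eq_mul, hp1, hf1, mul_one]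
  have v2 : conjF f u (x • p + y • q + (η / 8) • (1 : A)) = x * conjF f u p + y + η / 8 := by
    have h1 : conjF f u 1 = 1 := by rw [conjF_apply, mul_one, huu]
    simp only [map_add, map_smul, smul_eq_mul, hq1, h1, mul_one]
  have v3 : f ((x • p + y • q + (η / 8) • (1 : A)) * u) = x * f (p * u) + y * f (q * u) := by
    simp only [add_mul, smul_mul_assoc, one_mul, map_add, map_smul, smul_eq_mul, hu, mul_zero,
      add_zero]
  have w1 : |f ((x • p + y • q + (η / 8) • (1 : A)) * u)| ≤ κ * (x + y) := by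
    rw [v3]
    calc |x * f (p * u) + y * f (q * u)| ≤ |x * f (p * u)| + |y * f (q * u)| := abs_add_le _ _
      _ = x * |f (p * u)| + y * |f (q * u)| := by
          rw [abs_mul, abs_mul, abs_of_pos hx, abs_of_pos hy]
      _ ≤ x * κ + y * κ := by gcongr
      _ = κ * (x + y) := by ring
  have w2 : y * f q ≤ κ * (x + y) := by nlinarith
  have w3 : x * conjF f u p ≤ κ * (x + y) := by nlinarith
  have w4 : 0 ≤ y * f q := mul_nonneg hy.le hq3
  have w5 : 0 ≤ x * conjF f u p := mul_nonneg hx.le hp3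
  rw [abs_le] at w1
  refine ⟨_, hsp, ?_, ?_, ?_, ?_, ?_, ?_⟩
  · rw [v1]; linarith
  · rw [v1]; linarith
  · rw [v2]; linarith
  · rw [v2]; linarith
  · rw [conj_one_add hf.pos hsp.isSelfAdjoint, v1, v2, abs_lt]
    constructor <;> linarith [w1.1, w1.2]
  · rw [conj_one_sub hf.pos hsp.isSelfAdjoint, v1, v2, abs_lt]
    constructor <;> linarith [w1.1, w1.2]




/-- An inflationary order automorphism of the positive definite cone, with its inverse. -/
structure Infl (K K' : A → A) : Prop where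
  map : ∀ a, IsStrictlyPositive a → IsStrictlyPositive (K a)
  map' : ∀ a, IsStrictlyPositive a → IsStrictlyPositive (K' a)
  right : ∀ a, IsStrictlyPositive a → K (K' a) = a
  left : ∀ a, IsStrictlyPositive a → K' (K a) = a
  mono : ∀ a b, IsStrictlyPositive a → IsStrictlyPositive b → a ≤ b → K a ≤ K b
  mono' : ∀ a b, IsStrictlyPositive a → IsStrictlyPositive b → a ≤ b → K' a ≤ K' b
  le : ∀ a, IsStrictlyPositive a → K' a ≤ a

lemma Infl.mono_pure {K K' : A → A} (h : Infl K K') {f : A →ₗ[ℝ] ℝ} (hf : PureF f) {a b : A}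
    (ha : IsStrictlyPositive a) (hb : IsStrictlyPositive b) (hab : f a < f b) :
    f (K a) ≤ f (K b) :=
  Pool.Agent.S03871.mono_pure hf K K' h.map h.map' h.right h.left h.mono h.mono' h.le ha hb hab

/-- The level function of `K` at `f`. -/
noncomputable def lev (K : A → A) (f : A →ₗ[ℝ] ℝ) (x : ℝ) : ℝ :=
  sSup {r : ℝ | ∃ a : A, IsStrictlyPositive a ∧ f a < x ∧ r = f (K a)}

lemma exists_sp_lt {f : A →ₗ[ℝ] ℝ} (hf : PureF f) {x : ℝ} (hx : 0 < x) :
    ∃ a : A, IsStrictlyPositive a ∧ f a < x := by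
  have := hf.one_pos
  refine ⟨(x / (2 * f 1)) • (1 : A), IsStrictlyPositive.smul (by positivity) isStrictlyPositive_one, ?_⟩
  rw [map_smul, smul_eq_mul]
  have : x / (2 * f 1) * f 1 = x / 2 := by field_simp
  linarith

lemma exists_sp_eq {f : A →ₗ[ℝ] ℝ} (hf : PureF f) {x : ℝ} (hx : 0 < x) :
    ∃ a : A, IsStrictlyPositive a ∧ f a = x := by
  have := hf.one_pos
  refine ⟨(x / f 1) • (1 : A), IsStrictlyPositive.smul (by positivity) isStrictlyPositive_one, ?_⟩
  rw [map_smul, smul_eq_mul]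
  field_simp

lemma f_sp_pos {f : A →ₗ[ℝ] ℝ} (hf : PureF f) {a : A} (ha : IsStrictlyPositive a) : 0 < f a := by
  rcases subsingleton_or_nontrivial A with hs | hs
  · have h1 := hf.one_pos
    have : (1 : A) = a := Subsingleton.elim _ _
    rwa [this] at h1
  · obtain ⟨r, hr, hra⟩ := (CFC.exists_pos_algebraMap_le_iff ha.isSelfAdjoint).2
      (fun x hx => ha.spectrum_pos hx)
    rw [Algebra.algebraMap_eq_smul_one] at hra
    have h2 := hf.pos.mono hra
    rw [map_smul, smul_eq_mul] at h2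
    have := hf.one_pos
    have : 0 < r * f 1 := by positivity
    linarith

lemma lev_bdd {K K' : A → A} (h : Infl K K') {f : A →ₗ[ℝ] ℝ} (hf : PureF f) (x : ℝ) :
    BddAbove {r : ℝ | ∃ a : A, IsStrictlyPositive a ∧ f a < x ∧ r = f (K a)} := by
  rcases le_or_gt x 0 with hx | hx
  · refine ⟨0, ?_⟩
    rintro r ⟨a, ha, hax, rfl⟩
    have := f_sp_pos hf ha
    linarith
  · obtain ⟨b, hb, hbx⟩ := exists_sp_eq hf hx
    refine ⟨f (K b), ?_⟩
    rintro r ⟨a, ha, hax, rfl⟩
    exact h.mono_pure hf ha hb (by rw [hbx]; exact hax)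

lemma le_lev {K K' : A → A} (h : Infl K K') {f : A →ₗ[ℝ] ℝ} (hf : PureF f) {x : ℝ} {a : A}
    (ha : IsStrictlyPositive a) (hax : f a < x) : f (K a) ≤ lev K f x :=
  le_csSup (lev_bdd h hf x) ⟨a, ha, hax, rfl⟩

lemma lev_le {K K' : A → A} (h : Infl K K') {f : A →ₗ[ℝ] ℝ} (hf : PureF f) {x : ℝ} (hx : 0 < x)
    {a : A} (ha : IsStrictlyPositive a) (hax : x ≤ f a) : lev K f x ≤ f (K a) := by
  refine csSup_le ?_ ?_
  · obtain ⟨b, hb, hbx⟩ := exists_sp_lt hf hx
    exact ⟨_, b, hb, hbx, rfl⟩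
  · rintro r ⟨b, hb, hbx, rfl⟩
    exact h.mono_pure hf hb ha (lt_of_lt_of_le hbx hax)

lemma lev_nonneg {K K' : A → A} (h : Infl K K') {f : A →ₗ[ℝ] ℝ} (hf : PureF f) {x : ℝ}
    (hx : 0 < x) : 0 ≤ lev K f x := by
  obtain ⟨b, hb, hbx⟩ := exists_sp_lt hf hx
  exact (f_sp_pos hf (h.map b hb)).le.trans (le_lev h hf hb hbx)

lemma lev_small {K K' : A → A} (h : Infl K K') {f : A →ₗ[ℝ] ℝ} (hf : PureF f) {ε : ℝ}
    (hε : 0 < ε) : ∃ x, 0 < x ∧ lev K f x < ε := by
  obtain ⟨b, hb, hbε⟩ := exists_sp_lt hf hε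
  refine ⟨f (K' b), f_sp_pos hf (h.map' b hb), ?_⟩
  have := lev_le h hf (f_sp_pos hf (h.map' b hb)) (h.map' b hb) le_rfl
  rw [h.right b hb] at this
  linarith

/-- The main inequality chain: the level functions at the orthogonal pair are linear with the
same slope. -/
lemma lev_linear {K K' : A → A} (h : Infl K K') {f : A →ₗ[ℝ] ℝ} (hf : PureF f) (hf1 : f 1 = 1)
    {u : A} (hU : IsUnit u) (hU1 : IsUnit (1 + u)) (hU2 : IsUnit (1 - u)) (hu : f u = 0)
    (hIu : f (Complex.I • u) = 0) (huu : f (star u * u) = 1) :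
    ∃ k : ℝ, ∀ a, IsStrictlyPositive a → f (K a) = k * f a ∧ conjF f u (K a) = k * conjF f u a := by
  have hf2 := hf.conj hU
  have hfp := hf.conj hU1
  have hfm := hf.conj hU2
  obtain ⟨k, hk⟩ := real_lemma (lev K f) (lev K (conjF f u)) (fun x hx => lev_nonneg h hf hx)
    (fun x hx => lev_nonneg h hf2 hx) (fun ε hε => lev_small h hf hε)
    (fun ε hε => lev_small h hf2 hε) (by
      intro x y x' y' hx hy hx' hy' hlt
      set D := x' + y' - (x + y) with hD
      have hD0 : 0 < D := by linarith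
      set δ := min (D / 8) (min (x' / 2) (y' / 2)) with hδ
      have hδ0 : 0 < δ := lt_min (by linarith) (lt_min (by linarith) (by linarith))
      have hδ1 : δ ≤ D / 8 := min_le_left _ _
      have hδ2 : δ ≤ x' / 2 := (min_le_right _ _).trans (min_le_left _ _)
      have hδ3 : δ ≤ y' / 2 := (min_le_right _ _).trans (min_le_right _ _)
      obtain ⟨a, ha, a1, -, a3, -, a5, a6⟩ := rich hf hf1 hU hu hIu huu hx hy
        (show (0 : ℝ) < D / 4 by linarith)
      obtain ⟨b, hb, -, b2, -, b4, b5, b6⟩ := rich hf hf1 hU hu hIu huu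
        (show 0 < x' - δ by linarith) (show 0 < y' - δ by linarith) hδ0
      rw [abs_lt] at a5 a6 b5 b6
      have m1 := h.mono_pure hfp ha hb (by linarith [a5.1, a5.2, b5.1, b5.2])
      have m2 := h.mono_pure hfm ha hb (by linarith [a6.1, a6.2, b6.1, b6.2])
      have hKa := (h.map a ha).isSelfAdjoint
      have hKb := (h.map b hb).isSelfAdjoint
      rw [conj_one_add hf.pos hKa, conj_one_add hf.pos hKb] at m1
      rw [conj_one_sub hf.pos hKa, conj_one_sub hf.pos hKb] at m2
      have l1 := lev_le h hf hx ha a1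
      have l2 := lev_le h hf2 hy ha a3
      have l3 := le_lev h hf (x := x') hb (by linarith)
      have l4 := le_lev h hf2 (x := y') hb (by linarith)
      linarith)
  refine ⟨k, fun a ha => ?_⟩
  have hk0 : 0 ≤ k := by
    have := (hk 1 one_pos).1
    have h0 := lev_nonneg h hf one_pos
    linarith
  have gen : ∀ g : A →ₗ[ℝ] ℝ, PureF g → (∀ x, 0 < x → lev K g x = k * x) → g (K a) = k * g a := by
    intro g hg hlev
    have hga := f_sp_pos hg ha
    refine le_antisymm ?_ ?_
    · refine le_of_forall_pos_le_add ?_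
      intro ε hε
      set δ := ε / (k + 1) with hδ
      have hδ0 : 0 < δ := by rw [hδ]; positivity
      have := le_lev h hg (x := g a + δ) ha (by linarith)
      rw [hlev _ (by linarith)] at this
      have e : k * δ ≤ ε := by
        rw [hδ, mul_div_assoc', div_le_iff₀ (by linarith)]
        nlinarith
      linarith
    · have := lev_le h hg hga ha le_rfl
      rwa [hlev _ hga] at this
  exact ⟨gen f hf (fun x hx => (hk x hx).1), gen _ hf2 (fun x hx => (hk x hx).2)⟩

/-- If all self-adjoint elements commute then the algebra is commutative. -/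
lemma comm_of_sa (h : ∀ x y : A, IsSelfAdjoint x → IsSelfAdjoint y → x * y = y * x) (x y : A) :
    x * y = y * x := by
  open ComplexStarModule in
  have hx := realPart_add_I_smul_imaginaryPart x
  have hy := realPart_add_I_smul_imaginaryPart y
  open ComplexStarModule in
  have h1 := h (ℜ x : A) (ℜ y : A) (ℜ x).2 (ℜ y).2
  open ComplexStarModule in
  have h2 := h (ℜ x : A) (ℑ y : A) (ℜ x).2 (ℑ y).2
  open ComplexStarModule in
  have h3 := h (ℑ x : A) (ℜ y : A) (ℑ x).2 (ℜ y).2
  open ComplexStarModule in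
  have h4 := h (ℑ x : A) (ℑ y : A) (ℑ x).2 (ℑ y).2
  rw [← hx, ← hy]
  simp only [add_mul, mul_add, smul_mul_assoc, mul_smul_comm, h1, h2, h3, h4]
  module

/-- In a unital C*-algebra, if some operation makes the positive invertible elements a commutative group whose translations preserve the usual order, then the algebra's own multiplication is commutative. -/
theorem result :
    ∀ (A : Type) [CStarAlgebra A] [PartialOrder A] [StarOrderedRing A],
    ∀ (op : A → A → A),
      (∀ a b : A, (0 ≤ a ∧ IsUnit a) → (0 ≤ b ∧ IsUnit b) →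
          (0 ≤ op a b ∧ IsUnit (op a b))) →
      (∀ a b c : A, (0 ≤ a ∧ IsUnit a) → (0 ≤ b ∧ IsUnit b) → (0 ≤ c ∧ IsUnit c) →
          op (op a b) c = op a (op b c)) →
      (∀ a b : A, (0 ≤ a ∧ IsUnit a) → (0 ≤ b ∧ IsUnit b) → op a b = op b a) →
      (∃ e : A, (0 ≤ e ∧ IsUnit e) ∧
          (∀ a : A, (0 ≤ a ∧ IsUnit a) → op e a = a) ∧
          (∀ a : A, (0 ≤ a ∧ IsUnit a) → ∃ b : A, (0 ≤ b ∧ IsUnit b) ∧ op a b = e)) →
      (∀ a b c : A, (0 ≤ a ∧ IsUnit a) → (0 ≤ b ∧ IsUnit b) → (0 ≤ c ∧ IsUnit c) →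
          a ≤ b → op a c ≤ op b c) →
      ∀ x y : A, x * y = y * x := by
  intro A _ _ _ op hcl hassoc hcomm ⟨e, he, hid, hinv⟩ hmono
  rcases subsingleton_or_nontrivial A with hs | hnt
  · intro x y
    exact Subsingleton.elim _ _
  by_contra hnc
  have hnc' : ∃ h k : A, IsSelfAdjoint h ∧ IsSelfAdjoint k ∧ h * k ≠ k * h := by
    by_contra hcon
    push Not at hcon
    exact hnc (comm_of_sa hcon)
  obtain ⟨f, y, hf, hf1, hy, hfy, hfyy⟩ := exists_pure_nonmul hnc'
  obtain ⟨u, hU, hU1, hU2, hu, hIu, huu⟩ := exists_u hf hf1 hy hfy hfyy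
  have hf2 := hf.conj hU
  have sp : ∀ a : A, IsStrictlyPositive a ↔ (0 ≤ a ∧ IsUnit a) := fun a => Iff.rfl
  -- translations by `c ≥ e`
  have trans : ∀ c : A, IsStrictlyPositive c → e ≤ c →
      conjF f u e * f c = f e * conjF f u c := by
    intro c hc hec
    obtain ⟨c', hc', hcc'⟩ := hinv c hc
    have hc'e : c' ≤ e := by
      have := hmono e c c' he hc hc' hec
      rwa [hid c' hc', hcc'] at this
    have hinf : Infl (fun a => op a c) (fun a => op a c') := by
      refine ⟨fun a ha => hcl a c ha hc, fun a ha => hcl a c' ha hc', ?_, ?_, ?_, ?_, ?_⟩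
      · intro a ha
        show op (op a c') c = a
        rw [hassoc a c' c ha hc' hc, hcomm c' c hc' hc, hcc', hcomm a e ha he, hid a ha]
      · intro a ha
        show op (op a c) c' = a
        rw [hassoc a c c' ha hc hc', hcc', hcomm a e ha he, hid a ha]
      · intro a b ha hb hab
        exact hmono a b c ha hb hc hab
      · intro a b ha hb hab
        exact hmono a b c' ha hb hc' hab
      · intro a ha
        show op a c' ≤ a
        have := hmono c' e a hc' he ha hc'e
        rwa [hid a ha, hcomm c' a hc' ha] at this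
    obtain ⟨k, hk⟩ := lev_linear hinf hf hf1 hU hU1 hU2 hu hIu huu
    have h1 := hk e he
    simp only [hid c hc] at h1
    rw [h1.1, h1.2]
    ring
  have hspe : IsStrictlyPositive e := he
  have hfe := f_sp_pos hf hspe
  have hf2e := f_sp_pos hf2 hspe
  have hnp := not_proportional hf hf1 hu hIu huu
  have hnp' : ¬ ∃ r : ℝ, ∀ a, f a = r * conjF f u a := by
    rintro ⟨r, hr⟩
    apply hnp
    have h1 := hr 1
    rw [hf1, conjF_apply, mul_one, huu, mul_one] at h1
    refine ⟨1, fun a => ?_⟩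
    rw [hr a, ← h1, one_mul, one_mul]
  obtain ⟨p, hp0, hp1, hp2⟩ := exists_small hf.pos hf2 hnp'
    (show 0 < conjF f u e / f e by positivity)
  have h3 := trans (e + p) (hspe.add_nonneg hp0) (le_add_of_nonneg_right hp0)
  rw [map_add, map_add, hp1] at h3
  have h4 : f e * conjF f u p < conjF f u e := by
    rw [lt_div_iff₀ hfe] at hp2
    linarith
  nlinarith

end Pool.Agent.S03871
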