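import Pool.Statements.S03877

set_option autoImplicit false
open Pool Pool.MP_b47fb1_an

namespace Pool.Agent.S03877

/-- A finite family of elements whose anticommutators are scalars leaves invariant (under left
multiplication) a finite-dimensional subspace containing `1`. -/
lemma exists_fd {A : Type*} [Ring A] [Algebra ℂ A] {ι : Type*} (s : ι → A)
    (hs : ∀ a b, ∃ z : ℂ, s a * s b + s b * s a = algebraMap ℂ A z) (S : Finset ι) :
    ∃ F : Submodule ℂ A, FiniteDimensional ℂ F ∧ (1 : A) ∈ F ∧
      ∀ a ∈ S, ∀ x ∈ F, s a * x ∈ F := by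
  classical
  induction S using Finset.induction_on with
  | empty =>
    exact ⟨Submodule.span ℂ {1}, inferInstance, Submodule.mem_span_singleton_self _, by simp⟩
  | insert b S hb ih =>
    obtain ⟨F, hF, h1, hmul⟩ := ih
    refine ⟨F ⊔ F.map (LinearMap.mulLeft ℂ (s b)), inferInstance, Submodule.mem_sup_left h1, ?_⟩
    intro a ha x hx
    obtain ⟨y, hy, w, hw, rfl⟩ := Submodule.mem_sup.1 hx
    obtain ⟨z, hz, rfl⟩ := Submodule.mem_map.1 hw
    simp only [LinearMap.mulLeft_apply]
    rw [mul_add]
    rcases Finset.mem_insert.1 ha with rfl | haS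
    · apply Submodule.add_mem
      · exact Submodule.mem_sup_right (Submodule.mem_map.2 ⟨y, hy, rfl⟩)
      · obtain ⟨c, hc⟩ := hs a a
        apply Submodule.mem_sup_left
        have : s a * (s a * z) = (c / 2 : ℂ) • z := by
          have h2 : (2 : ℂ) • (s a * (s a * z)) = c • z := by
            rw [two_smul, ← mul_assoc, ← add_mul, hc, Algebra.smul_def]
          calc s a * (s a * z) = (1 / 2 : ℂ) • ((2 : ℂ) • (s a * (s a * z))) := by
                rw [smul_smul]; norm_num
            _ = (c / 2 : ℂ) • z := by rw [h2, smul_smul]; ring_nf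
        rw [this]
        exact F.smul_mem _ hz
    · apply Submodule.add_mem
      · exact Submodule.mem_sup_left (hmul a haS y hy)
      · obtain ⟨c, hc⟩ := hs a b
        have : s a * (s b * z) = c • z - s b * (s a * z) := by
          rw [eq_sub_iff_add_eq, ← mul_assoc, ← mul_assoc, ← add_mul, hc, Algebra.smul_def]
        rw [this]
        apply Submodule.sub_mem
        · exact Submodule.mem_sup_left (F.smul_mem _ hz)
        · exact Submodule.mem_sup_right (Submodule.mem_map.2 ⟨s a * z, hmul a haS z hz, rfl⟩)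

/-- A vector killed by all the raising operators. -/
lemma exists_top {V : Type*} [AddCommGroup V] [Module ℂ V] [FiniteDimensional ℂ V] [Nontrivial V]
    {κ : Type*} (H : Module.End ℂ V) (e : κ → Module.End ℂ V) (t : κ → ℝ) (ht : ∀ k, 0 < t k)
    (hc : ∀ k v, H (e k v) - e k (H v) = (t k : ℂ) • e k v) :
    ∃ v : V, v ≠ 0 ∧ ∀ k, e k v = 0 := by
  classical
  obtain ⟨h0, hh0⟩ := Module.End.exists_eigenvalue H
  have hfin : Set.Finite {μ : ℂ | H.HasEigenvalue μ} := Module.End.finite_hasEigenvalue H
  obtain ⟨h, hh, hmax⟩ := hfin.exists_maximalFor (fun μ : ℂ => μ.re) _ ⟨h0, hh0⟩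
  obtain ⟨v, hv⟩ := hh.exists_hasEigenvector
  refine ⟨v, hv.2, fun k => ?_⟩
  by_contra hne
  have hHv : H v = h • v := hv.apply_eq_smul
  have h1 : H (e k v) = (h + (t k : ℂ)) • e k v := by
    have := hc k v
    rw [hHv, map_smul] at this
    rw [add_smul, ← this]
    abel
  have h2 : H.HasEigenvalue (h + (t k : ℂ)) :=
    Module.End.hasEigenvalue_of_hasEigenvector ⟨Module.End.mem_eigenspace_iff.2 h1, hne⟩
  have h3 := hmax h2 (by simpa using (ht k).le)
  simp at h3
  exact absurd (ht k) (not_lt.2 h3)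


section CAR

variable {A : Type*} [CStarAlgebra A] {n : ℕ}

/-- canonical anticommutation relations for an `n × n` array of annihilators -/
structure IsCAR (d : Fin n → Fin n → A) : Prop where
  dd : ∀ i j k l, d i j * d k l + d k l * d i j = 0
  ds : ∀ i j k l, d i j * star (d k l) + star (d k l) * d i j = if i = k ∧ j = l then 1 else 0

/-- the `gl_n` generators -/
def gen (d : Fin n → Fin n → A) (a b : Fin n) : A := ∑ j, star (d a j) * d b j

lemma IsCAR.adj {d : Fin n → Fin n → A} (h : IsCAR d) : IsCAR (fun i j => star (d i j)) where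
  dd i j k l := by
    have := congrArg star (h.dd k l i j)
    simpa using this
  ds i j k l := by
    have := h.ds k l i j
    simp only [star_star]
    rw [add_comm, this]
    by_cases hh : k = i ∧ l = j
    · rw [if_pos hh, if_pos ⟨hh.1.symm, hh.2.symm⟩]
    · rw [if_neg hh, if_neg (fun h' => hh ⟨h'.1.symm, h'.2.symm⟩)]

lemma IsCAR.ss {d : Fin n → Fin n → A} (h : IsCAR d) (i j k l : Fin n) :
    star (d i j) * star (d k l) + star (d k l) * star (d i j) = 0 :=
  h.adj.dd i j k l

lemma IsCAR.gen_star {d : Fin n → Fin n → A} (h : IsCAR d) (a b i j : Fin n) :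
    gen d a b * star (d i j) - star (d i j) * gen d a b
      = if b = i then star (d a j) else 0 := by
  unfold gen
  rw [Finset.sum_mul, Finset.mul_sum, ← Finset.sum_sub_distrib]
  have key : ∀ l, star (d a l) * d b l * star (d i j)
      - star (d i j) * (star (d a l) * d b l)
      = if b = i ∧ l = j then star (d a l) else 0 := by
    intro l
    have h1 := h.ds b l i j
    have h2 := h.ss a l i j
    have e1 : star (d a l) * d b l * star (d i j)
        - star (d i j) * (star (d a l) * d b l)
        = star (d a l) * (d b l * star (d i j) + star (d i j) * d b l)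
        - (star (d a l) * star (d i j) + star (d i j) * star (d a l)) * d b l := by
      noncomm_ring
    rw [e1, h1, h2]
    split_ifs <;> simp
  simp_rw [key]
  by_cases hb : b = i
  · simp [hb]
  · simp [hb]

lemma IsCAR.gen_d {d : Fin n → Fin n → A} (h : IsCAR d) (a b i j : Fin n) :
    gen d a b * d i j - d i j * gen d a b
      = - (if i = a then d b j else 0) := by
  unfold gen
  rw [Finset.sum_mul, Finset.mul_sum, ← Finset.sum_sub_distrib]
  have key : ∀ l, star (d a l) * d b l * d i j
      - d i j * (star (d a l) * d b l)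
      = - (if i = a ∧ j = l then d b l else 0) := by
    intro l
    have h1 := h.ds i j a l
    have h2 := h.dd b l i j
    have e1 : star (d a l) * d b l * d i j
        - d i j * (star (d a l) * d b l)
        = star (d a l) * (d b l * d i j + d i j * d b l)
        - (d i j * star (d a l) + star (d a l) * d i j) * d b l := by
      noncomm_ring
    rw [e1, h1, h2]
    split_ifs <;> simp
  simp_rw [key]
  by_cases hb : i = a
  · simp [hb]
  · simp [hb]

lemma IsCAR.gen_gen {d : Fin n → Fin n → A} (h : IsCAR d) (a b i k : Fin n) :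
    gen d a b * gen d i k - gen d i k * gen d a b
      = (if b = i then gen d a k else 0) - (if k = a then gen d i b else 0) := by
  conv_lhs => rw [show gen d i k = ∑ j, star (d i j) * d k j from rfl]
  rw [Finset.sum_mul, Finset.mul_sum, ← Finset.sum_sub_distrib]
  have key : ∀ j, gen d a b * (star (d i j) * d k j) - star (d i j) * d k j * gen d a b
      = (if b = i then star (d a j) * d k j else 0)
        - (if k = a then star (d i j) * d b j else 0) := by
    intro j
    have h1 := h.gen_star a b i j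
    have h2 := h.gen_d a b k j
    have e1 : gen d a b * (star (d i j) * d k j) - star (d i j) * d k j * gen d a b
        = (gen d a b * star (d i j) - star (d i j) * gen d a b) * d k j
        + star (d i j) * (gen d a b * d k j - d k j * gen d a b) := by
      noncomm_ring
    rw [e1, h1, h2]
    split_ifs <;> simp [sub_eq_add_neg]
  simp_rw [key]
  rw [Finset.sum_sub_distrib]
  congr 1
  · split_ifs <;> simp [gen]
  · split_ifs <;> simp [gen]


/-- the matrix of generators acting on columns -/
def colOp (d : Fin n → Fin n → A) : (Fin n → A) →ₗ[ℂ] (Fin n → A) where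
  toFun ψ i := ∑ k, gen d i k * ψ k
  map_add' ψ φ := by ext i; simp [mul_add, Finset.sum_add_distrib]
  map_smul' c ψ := by ext i; simp [Finset.smul_sum]

/-- the total `gl_n` action on columns -/
def tot (d : Fin n → Fin n → A) (a b : Fin n) : (Fin n → A) →ₗ[ℂ] (Fin n → A) where
  toFun ψ i := gen d a b * ψ i - if i = b then ψ a else 0
  map_add' ψ φ := by
    ext i
    by_cases h : i = b
    · simp [mul_add, h]; abel
    · simp [mul_add, h]
  map_smul' c ψ := by
    ext i; by_cases h : i = b <;> simp [h, smul_sub]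

/-- the grading operator -/
def grad (d : Fin n → Fin n → A) : (Fin n → A) →ₗ[ℂ] (Fin n → A) where
  toFun ψ i := - ((∑ c : Fin n, ((c : ℕ) : ℂ) • gen d c c) * ψ i) + ((i : ℕ) : ℂ) • ψ i
  map_add' ψ φ := by
    ext i; simp only [Pi.add_apply, mul_add, smul_add]; abel
  map_smul' c ψ := by
    ext i; simp only [Pi.smul_apply, RingHom.id_apply, smul_add, smul_neg, mul_smul_comm,
      smul_comm c]

lemma IsCAR.colOp_tot {d : Fin n → Fin n → A} (h : IsCAR d) (a b : Fin n) (ψ : Fin n → A) :
    colOp d (tot d a b ψ) = tot d a b (colOp d ψ) := by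
  ext i
  simp only [colOp, tot, LinearMap.coe_mk, AddHom.coe_mk]
  have e1 : ∀ k, gen d i k * (gen d a b * ψ k - if k = b then ψ a else 0)
      = gen d a b * (gen d i k * ψ k) - (if b = i then gen d a k * ψ k else 0)
        + (if k = a then gen d i b * ψ k else 0) - (if k = b then gen d i k * ψ a else 0) := by
    intro k
    have h1 := h.gen_gen a b i k
    have h2 : gen d i k * gen d a b = gen d a b * gen d i k
        - ((if b = i then gen d a k else 0) - (if k = a then gen d i b else 0)) := by
      rw [← h1]; abel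
    rw [mul_sub, ← mul_assoc, h2]
    split_ifs <;> simp only [sub_mul, add_mul, mul_assoc, sub_zero, mul_zero,
      add_zero, zero_sub, sub_neg_eq_add] <;> abel
  simp_rw [e1]
  rw [Finset.sum_sub_distrib, Finset.sum_add_distrib, Finset.sum_sub_distrib, ← Finset.mul_sum]
  by_cases hb : b = i
  · subst hb; simp
  · have hb' : ¬ i = b := fun h => hb h.symm
    simp [hb, hb']

lemma IsCAR.grad_gen {d : Fin n → Fin n → A} (h : IsCAR d) (a b : Fin n) :
    (∑ c : Fin n, ((c : ℕ) : ℂ) • gen d c c) * gen d a b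
      - gen d a b * (∑ c : Fin n, ((c : ℕ) : ℂ) • gen d c c)
      = (((a : ℕ) : ℂ) - ((b : ℕ) : ℂ)) • gen d a b := by
  rw [Finset.sum_mul, Finset.mul_sum, ← Finset.sum_sub_distrib]
  have key : ∀ c : Fin n, ((c : ℕ) : ℂ) • gen d c c * gen d a b
      - gen d a b * (((c : ℕ) : ℂ) • gen d c c)
      = (if c = a then ((c : ℕ) : ℂ) • gen d c b else 0)
        - (if b = c then ((c : ℕ) : ℂ) • gen d a c else 0) := by
    intro c
    have h1 := h.gen_gen c c a b
    rw [smul_mul_assoc, mul_smul_comm, ← smul_sub, h1, smul_sub,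
      smul_ite, smul_ite, smul_zero]
  simp_rw [key]
  rw [Finset.sum_sub_distrib]
  simp [sub_smul]

lemma IsCAR.grad_tot {d : Fin n → Fin n → A} (h : IsCAR d) (a b : Fin n) (ψ : Fin n → A) :
    grad d (tot d a b ψ) - tot d a b (grad d ψ)
      = (((b : ℕ) : ℂ) - ((a : ℕ) : ℂ)) • tot d a b ψ := by
  have h1 := h.grad_gen a b
  have h2 : gen d a b * (∑ c : Fin n, ((c : ℕ) : ℂ) • gen d c c)
      = (∑ c : Fin n, ((c : ℕ) : ℂ) • gen d c c) * gen d a b
        - (((a : ℕ) : ℂ) - ((b : ℕ) : ℂ)) • gen d a b := by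
    rw [← h1]; abel
  ext i
  simp only [grad, tot, LinearMap.coe_mk, AddHom.coe_mk, Pi.sub_apply, Pi.smul_apply]
  rw [mul_add, mul_neg, ← mul_assoc (gen d a b), h2]
  by_cases hb : i = b
  · subst hb
    simp only [if_true, mul_sub, sub_mul, smul_sub, mul_smul_comm, smul_mul_assoc, mul_assoc,
      sub_smul]
    abel
  · simp only [hb, if_false, sub_zero, sub_mul, mul_smul_comm, smul_mul_assoc, mul_assoc,
      sub_smul]
    abel


lemma grad_eq (d : Fin n → Fin n → A) (ψ : Fin n → A) :
    grad d ψ = - ∑ c : Fin n, ((c : ℕ) : ℂ) • tot d c c ψ := by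
  ext i
  simp only [grad, tot, LinearMap.coe_mk, AddHom.coe_mk, Pi.neg_apply, Finset.sum_apply,
    Pi.smul_apply, smul_sub, Finset.sum_sub_distrib, smul_ite, smul_zero, Finset.sum_ite_eq,
    Finset.mem_univ, if_true, Finset.sum_mul, smul_mul_assoc]
  abel

lemma IsCAR.colOp_grad {d : Fin n → Fin n → A} (h : IsCAR d) (ψ : Fin n → A) :
    colOp d (grad d ψ) = grad d (colOp d ψ) := by
  rw [grad_eq, grad_eq, map_neg, map_sum]
  simp_rw [map_smul, h.colOp_tot]

lemma IsCAR.norm_gen_le [PartialOrder A] [StarOrderedRing A] {d : Fin n → Fin n → A}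
    (h : IsCAR d) (i : Fin n) : ‖gen d i i‖ ≤ n := by
  unfold gen
  refine (norm_sum_le _ _).trans ?_
  have : ∀ j, ‖star (d i j) * d i j‖ ≤ 1 := by
    intro j
    rw [CStarAlgebra.norm_le_one_iff_of_nonneg _ (star_mul_self_nonneg _)]
    have h1 := h.ds i j i j
    simp only [and_self, if_true] at h1
    rw [← h1]
    exact le_add_of_nonneg_left (mul_star_self_nonneg _)
  calc ∑ j, ‖star (d i j) * d i j‖ ≤ ∑ _j : Fin n, (1 : ℝ) := Finset.sum_le_sum fun j _ => this j
    _ = n := by simp

/-- the matrix of generators, in the C*-algebra of matrices -/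
def genMat (d : Fin n → Fin n → A) : CStarMatrix (Fin n) (Fin n) A :=
  CStarMatrix.ofMatrix (Matrix.of fun i k => gen d i k)

lemma genMat_apply (d : Fin n → Fin n → A) (i k : Fin n) : genMat d i k = gen d i k := rfl

lemma genMat_isSelfAdjoint (d : Fin n → Fin n → A) : IsSelfAdjoint (genMat d) := by
  ext i k
  rw [CStarMatrix.star_apply, genMat_apply, genMat_apply]
  simp [gen, star_sum]

lemma IsCAR.exists_inv {d : Fin n → Fin n → A} (h : IsCAR d) :
    ∃ F : Submodule ℂ A, FiniteDimensional ℂ F ∧ (1 : A) ∈ F ∧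
      ∀ a b, ∀ x ∈ F, gen d a b * x ∈ F := by
  classical
  obtain ⟨F, hF, h1, hm⟩ := exists_fd (A := A)
    (fun p : (Fin n × Fin n) ⊕ (Fin n × Fin n) =>
      Sum.elim (fun q => d q.1 q.2) (fun q => star (d q.1 q.2)) p) (by
      rintro (⟨i, j⟩ | ⟨i, j⟩) (⟨k, l⟩ | ⟨k, l⟩)
      · exact ⟨0, by simpa using h.dd i j k l⟩
      · refine ⟨if i = k ∧ j = l then 1 else 0, ?_⟩
        simp only [Sum.elim_inl, Sum.elim_inr]
        rw [h.ds i j k l]
        split_ifs <;> simp
      · refine ⟨if k = i ∧ l = j then 1 else 0, ?_⟩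
        simp only [Sum.elim_inl, Sum.elim_inr]
        rw [add_comm, h.ds k l i j]
        split_ifs <;> simp
      · exact ⟨0, by simpa using h.ss i j k l⟩) Finset.univ
  refine ⟨F, hF, h1, fun a b x hx => ?_⟩
  unfold gen
  rw [Finset.sum_mul]
  refine F.sum_mem fun j _ => ?_
  rw [mul_assoc]
  exact hm (Sum.inr (a, j)) (Finset.mem_univ _) _ (hm (Sum.inl (b, j)) (Finset.mem_univ _) _ hx)

lemma exists_eigen [PartialOrder A] [StarOrderedRing A] (d : Fin n → Fin n → A)
    (F : Submodule ℂ A) (hF : FiniteDimensional ℂ F) (h1 : (1 : A) ∈ F)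
    (hm : ∀ a b, ∀ x ∈ F, gen d a b * x ∈ F) (μ : ℂ) (hμ : μ ∈ spectrum ℂ (genMat d)) :
    ∃ ψ : Fin n → A, (∀ i, ψ i ∈ F) ∧ ψ ≠ 0 ∧ colOp d ψ = μ • ψ := by
  classical
  by_contra hcon
  push Not at hcon
  let L : (Fin n → F) →ₗ[ℂ] (Fin n → F) :=
    { toFun := fun ψ i => ⟨(∑ k, gen d i k * (ψ k : A)) - μ • (ψ i : A),
        F.sub_mem (F.sum_mem fun k _ => hm i k _ (ψ k).2) (F.smul_mem _ (ψ i).2)⟩
      map_add' := by
        intro ψ φ; ext i
        simp only [Pi.add_apply, Submodule.coe_add, mul_add, Finset.sum_add_distrib, smul_add]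
        abel
      map_smul' := by
        intro c ψ; ext i
        simp only [Pi.smul_apply, Submodule.coe_smul, mul_smul_comm, RingHom.id_apply, smul_sub,
          Finset.smul_sum, smul_comm c] }
  have hinj : Function.Injective L := by
    rw [injective_iff_map_eq_zero]
    intro ψ hψ
    by_contra hne
    apply hcon (fun i => (ψ i : A)) (fun i => (ψ i).2)
    · intro h0
      apply hne
      ext i
      simpa using congrFun h0 i
    · ext i
      have := congrArg (fun φ : Fin n → F => (φ i : A)) hψ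
      simp only [L, LinearMap.coe_mk, AddHom.coe_mk, Pi.zero_apply, Submodule.coe_zero] at this
      simp only [colOp, LinearMap.coe_mk, AddHom.coe_mk, Pi.smul_apply]
      exact sub_eq_zero.1 this
  have hsurj : Function.Surjective L := LinearMap.injective_iff_surjective.1 hinj
  choose y hy using fun k : Fin n => hsurj (Pi.single k ⟨1, h1⟩)
  let Y : CStarMatrix (Fin n) (Fin n) A :=
    CStarMatrix.ofMatrix (Matrix.of fun i k => ((y k i : F) : A))
  have hY : ∀ i k, Y i k = ((y k i : F) : A) := fun i k => rfl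
  have hMY : (genMat d - algebraMap ℂ _ μ) * Y = 1 := by
    ext i k
    have := congrArg (fun φ : Fin n → F => (φ i : A)) (hy k)
    simp only [L, LinearMap.coe_mk, AddHom.coe_mk] at this
    rw [sub_mul, ← Algebra.smul_def]
    simp only [CStarMatrix.sub_apply, CStarMatrix.mul_apply, CStarMatrix.smul_apply]
    simp only [genMat_apply, hY]
    rw [this, CStarMatrix.one_apply]
    by_cases hik : i = k
    · subst hik; simp
    · simp [hik]
  have hreal := (genMat_isSelfAdjoint d).mem_spectrum_eq_re hμ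
  have hsa : star (genMat d - algebraMap ℂ _ μ) = genMat d - algebraMap ℂ _ μ := by
    rw [star_sub, (genMat_isSelfAdjoint d).star_eq, ← algebraMap_star_comm]
    congr 2
    rw [hreal]
    simp
  have hYM : star Y * (genMat d - algebraMap ℂ _ μ) = 1 := by
    have := congrArg star hMY
    rwa [star_mul, hsa, star_one] at this
  apply spectrum.mem_iff.1 hμ
  have hu : IsUnit (genMat d - algebraMap ℂ (CStarMatrix (Fin n) (Fin n) A) μ) :=
    isUnit_iff_exists.2 ⟨Y, hMY, by
      have : star Y = Y := by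
        calc star Y = star Y * ((genMat d - algebraMap ℂ _ μ) * Y) := by rw [hMY, mul_one]
          _ = Y := by rw [← mul_assoc, hYM, one_mul]
      rw [← this]; exact hYM⟩
  rw [← neg_sub]
  exact hu.neg

theorem IsCAR.norm_genMat_le [PartialOrder A] [StarOrderedRing A] {d : Fin n → Fin n → A}
    (h : IsCAR d) : ‖genMat d‖ ≤ 2 * n := by
  classical
  rcases subsingleton_or_nontrivial (CStarMatrix (Fin n) (Fin n) A) with hs | hs
  · rw [Subsingleton.elim (genMat d) 0, norm_zero]
    positivity
  obtain ⟨μ, hμ, hnorm⟩ := spectrum.exists_nnnorm_eq_spectralRadius (genMat d)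
  rw [(genMat_isSelfAdjoint d).spectralRadius_eq_nnnorm] at hnorm
  have hnorm' : ‖μ‖ = ‖genMat d‖ := by
    have := congrArg ENNReal.toNNReal hnorm
    simpa using congrArg NNReal.toReal this
  rw [← hnorm']
  obtain ⟨F, hF, h1, hm⟩ := h.exists_inv
  obtain ⟨φ, hφF, hφ0, hφ⟩ := exists_eigen d F hF h1 hm μ hμ
  let S : Submodule ℂ (Fin n → A) :=
    { carrier := {ψ | (∀ i, ψ i ∈ F) ∧ colOp d ψ = μ • ψ}
      add_mem' := by
        rintro a b ⟨ha, ha'⟩ ⟨hb, hb'⟩
        exact ⟨fun i => F.add_mem (ha i) (hb i), by rw [map_add, ha', hb', smul_add]⟩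
      zero_mem' := ⟨fun i => F.zero_mem, by simp⟩
      smul_mem' := by
        rintro c a ⟨ha, ha'⟩
        exact ⟨fun i => F.smul_mem _ (ha i), by rw [map_smul, ha', smul_comm]⟩ }
  have : Nontrivial S := ⟨⟨⟨φ, hφF, hφ⟩, 0, fun hh => hφ0 (congrArg Subtype.val hh)⟩⟩
  have : FiniteDimensional ℂ S := by
    let f : S →ₗ[ℂ] (Fin n → F) :=
      { toFun := fun ψ i => ⟨ψ.1 i, ψ.2.1 i⟩
        map_add' := by intro a b; rfl
        map_smul' := by intro c a; rfl }
    exact FiniteDimensional.of_injective f (fun a b hab => by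
      ext i
      exact congrArg (fun φ : Fin n → F => (φ i : A)) hab)
  have htot : ∀ a b, ∀ ψ ∈ S, tot d a b ψ ∈ S := by
    rintro a b ψ ⟨h2, h3⟩
    refine ⟨fun i => ?_, ?_⟩
    · simp only [tot, LinearMap.coe_mk, AddHom.coe_mk]
      apply F.sub_mem (hm _ _ _ (h2 i))
      split_ifs
      · exact h2 a
      · exact F.zero_mem
    · rw [h.colOp_tot, h3, map_smul]
  have hgrad : ∀ ψ ∈ S, grad d ψ ∈ S := by
    intro ψ hψ
    rw [grad_eq]
    exact S.neg_mem (S.sum_mem fun c _ => S.smul_mem _ (htot c c ψ hψ))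
  obtain ⟨v, hv0, hv⟩ := exists_top (V := S) (κ := {p : Fin n × Fin n // p.1 < p.2})
    ((grad d).restrict hgrad) (fun p => (tot d p.1.1 p.1.2).restrict (htot p.1.1 p.1.2))
    (fun p => ((p.1.2 : ℕ) : ℝ) - ((p.1.1 : ℕ) : ℝ))
    (fun p => by
      have : ((p.1.1 : ℕ) : ℝ) < ((p.1.2 : ℕ) : ℝ) := by exact_mod_cast p.2
      linarith)
    (fun p w => by
      apply Subtype.ext
      have := h.grad_tot p.1.1 p.1.2 w.1
      simpa using this)
  obtain ⟨ψ, hψF, hψ⟩ := v
  have hψ0 : ψ ≠ 0 := fun hh => hv0 (Subtype.ext hh)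
  have hraise : ∀ a b : Fin n, a < b → tot d a b ψ = 0 := by
    intro a b hab
    have := congrArg Subtype.val (hv ⟨(a, b), hab⟩)
    simpa using this
  obtain ⟨i1, hi1⟩ := Function.ne_iff.1 hψ0
  obtain ⟨i0, hi0, hmin⟩ := (Finset.univ.filter (fun i => ψ i ≠ 0)).exists_min_image
    (fun i => i) ⟨i1, by simpa using hi1⟩
  have hi0' : ψ i0 ≠ 0 := by simpa using hi0
  have hpos : 0 < ‖ψ i0‖ := norm_pos_iff.2 hi0'
  have heq : μ • ψ i0 = ∑ k, gen d i0 k * ψ k := by
    have := congrFun hψ i0
    simpa [colOp] using this.symm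
  have hterm : ∀ k, ‖gen d i0 k * ψ k‖ ≤ ‖ψ i0‖ + if k = i0 then n * ‖ψ i0‖ else 0 := by
    intro k
    rcases lt_trichotomy k i0 with hk | hk | hk
    · have : ψ k = 0 := by
        by_contra hne
        exact absurd (hmin k (by simpa using hne)) (not_le.2 hk)
      rw [this, if_neg hk.ne]
      simp
    · subst hk
      rw [if_pos rfl]
      calc ‖gen d k k * ψ k‖ ≤ ‖gen d k k‖ * ‖ψ k‖ := norm_mul_le _ _
        _ ≤ n * ‖ψ k‖ := by gcongr; exact h.norm_gen_le k
        _ ≤ _ := by simp
    · have := congrFun (hraise i0 k hk) k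
      simp only [tot, LinearMap.coe_mk, AddHom.coe_mk, if_true, Pi.zero_apply] at this
      rw [sub_eq_zero.1 this, if_neg hk.ne']
      simp
  have hfin : ‖μ‖ * ‖ψ i0‖ ≤ (2 * n) * ‖ψ i0‖ := by
    rw [← norm_smul, heq]
    refine (norm_sum_le _ _).trans ((Finset.sum_le_sum fun k _ => hterm k).trans ?_)
    rw [Finset.sum_add_distrib]
    simp
    linarith
  exact le_of_mul_le_mul_right hfin hpos


/-- the matrix with entries `star (d i j)` -/
def creMat (d : Fin n → Fin n → A) : CStarMatrix (Fin n) (Fin n) A :=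
  CStarMatrix.ofMatrix (Matrix.of fun i k => star (d i k))

lemma creMat_apply (d : Fin n → Fin n → A) (i k : Fin n) : creMat d i k = star (d i k) := rfl

lemma IsCAR.norm_creMat_le [PartialOrder A] [StarOrderedRing A] {d : Fin n → Fin n → A}
    (h : IsCAR d) : ‖creMat d‖ ≤ Real.sqrt 2 * Real.sqrt n := by
  have h1 : creMat d * star (creMat d) = genMat d := by
    ext i k
    rw [CStarMatrix.mul_apply, genMat_apply]
    unfold gen
    refine Finset.sum_congr rfl fun j _ => ?_
    rw [CStarMatrix.star_apply, creMat_apply, creMat_apply, star_star]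
  have h2 : ‖creMat d‖ * ‖creMat d‖ ≤ 2 * n := by
    rw [← CStarRing.norm_self_mul_star, h1]
    exact h.norm_genMat_le
  rw [← Real.sqrt_mul (by norm_num)]
  exact Real.le_sqrt_of_sq_le (by rw [sq]; exact h2)

lemma inner_bound [PartialOrder A] [StarOrderedRing A] (M : CStarMatrix (Fin n) (Fin n) A)
    (a b : Fin n → A) :
    ‖∑ i : Fin n, ∑ j : Fin n, star (b i) * M i j * a j‖
      ≤ ‖M‖ * Real.sqrt ‖∑ j : Fin n, star (a j) * a j‖
        * Real.sqrt ‖∑ i : Fin n, star (b i) * b i‖ := by
  let v : WithCStarModule A (Fin n → A) := (WithCStarModule.equiv A _).symm (fun i => star (b i))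
  let w : WithCStarModule A (Fin n → A) := (WithCStarModule.equiv A _).symm (fun i => star (a i))
  have hv : ‖v‖ = Real.sqrt ‖∑ i : Fin n, star (b i) * b i‖ := by
    rw [CStarModule.norm_eq_sqrt_norm_inner_self (A := A)]
    congr 2
    rw [WithCStarModule.pi_inner]
    refine Finset.sum_congr rfl fun i _ => ?_
    simp [v, WithCStarModule.inner_def]
  have hw : ‖w‖ = Real.sqrt ‖∑ i : Fin n, star (a i) * a i‖ := by
    rw [CStarModule.norm_eq_sqrt_norm_inner_self (A := A)]
    congr 2
    rw [WithCStarModule.pi_inner]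
    refine Finset.sum_congr rfl fun i _ => ?_
    simp [w, WithCStarModule.inner_def]
  have hin : inner A w (CStarMatrix.toCLM M v)
      = ∑ i : Fin n, ∑ j : Fin n, star (b i) * M i j * a j := by
    rw [WithCStarModule.pi_inner, Finset.sum_comm]
    refine Finset.sum_congr rfl fun j _ => ?_
    rw [CStarMatrix.toCLM_apply_eq_sum]
    simp [v, w, WithCStarModule.inner_def, Finset.sum_mul]
  rw [← hin, ← hv, ← hw]
  calc ‖inner A w (CStarMatrix.toCLM M v)‖ ≤ ‖w‖ * ‖CStarMatrix.toCLM M v‖ :=
        CStarModule.norm_inner_le _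
    _ ≤ ‖w‖ * (‖CStarMatrix.toCLM M‖ * ‖v‖) := by
        gcongr; exact (CStarMatrix.toCLM M).le_opNorm v
    _ = ‖M‖ * ‖w‖ * ‖v‖ := by rw [CStarMatrix.norm_def]; ring

end CAR


/-- the annihilators built from two anticommuting families of self-adjoint unitaries -/
lemma isCAR_of_clifford {A : Type*} [CStarAlgebra A] (c : ℕ → ℕ → A)
    (hsa : ∀ i j, IsSelfAdjoint (c i j)) (hsq : ∀ i j, c i j * c i j = 1)
    (hac : ∀ i j k l, (i, j) ≠ (k, l) → c i j * c k l = -(c k l * c i j)) (n : ℕ) :
    IsCAR (fun i j : Fin n => (1 / 2 : ℂ) • (c i j + Complex.I • c (n + i) j)) := by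
  have hst : ∀ i j : Fin n, star ((1 / 2 : ℂ) • (c i j + Complex.I • c (n + i) j))
      = (1 / 2 : ℂ) • (c i j - Complex.I • c (n + i) j) := by
    intro i j
    rw [star_smul, star_add, star_smul, (hsa _ _).star_eq, (hsa _ _).star_eq]
    simp [sub_eq_add_neg]
  have hanti : ∀ i j k l, c i j * c k l + c k l * c i j = if i = k ∧ j = l then 2 else 0 := by
    intro i j k l
    by_cases h : i = k ∧ j = l
    · obtain ⟨rfl, rfl⟩ := h
      rw [if_pos ⟨rfl, rfl⟩, hsq]
      norm_num
    · rw [if_neg h, hac i j k l (by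
        intro hh
        exact h (by simpa using hh))]
      abel
  have e0 : ∀ (i j : Fin n) (k l : Fin n), c i j * c (n + k) l + c (n + k) l * c i j = 0 := by
    intro i j k l
    rw [hanti, if_neg]
    intro hh
    have := i.2
    omega
  have e0' : ∀ (i j : Fin n) (k l : Fin n), c (n + i) j * c k l + c k l * c (n + i) j = 0 := by
    intro i j k l
    rw [add_comm]; exact e0 k l i j
  constructor
  · intro i j k l
    have h1 := hanti i j k l
    have h2 := hanti (n + i) j (n + k) l
    have h3 := e0 i j k l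
    have h4 := e0' i j k l
    have key : ((1 / 2 : ℂ) • (c i j + Complex.I • c (n + i) j))
          * ((1 / 2 : ℂ) • (c k l + Complex.I • c (n + k) l))
        + ((1 / 2 : ℂ) • (c k l + Complex.I • c (n + k) l))
          * ((1 / 2 : ℂ) • (c i j + Complex.I • c (n + i) j))
        = (1 / 4 : ℂ) • ((c i j * c k l + c k l * c i j)
          - (c (n + i) j * c (n + k) l + c (n + k) l * c (n + i) j)
          + Complex.I • (c i j * c (n + k) l + c (n + k) l * c i j)
          + Complex.I • (c (n + i) j * c k l + c k l * c (n + i) j)) := by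
      simp only [smul_mul_assoc, mul_smul_comm, add_mul, mul_add, smul_add, smul_sub, smul_smul]
      ring_nf
      simp only [Complex.I_sq]
      module
    rw [key, h1, h2, h3, h4]
    simp
  · intro i j k l
    rw [hst]
    have h1 := hanti i j k l
    have h2 := hanti (n + i) j (n + k) l
    have h3 := e0 i j k l
    have h4 := e0' i j k l
    have key : ((1 / 2 : ℂ) • (c i j + Complex.I • c (n + i) j))
          * ((1 / 2 : ℂ) • (c k l - Complex.I • c (n + k) l))
        + ((1 / 2 : ℂ) • (c k l - Complex.I • c (n + k) l))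
          * ((1 / 2 : ℂ) • (c i j + Complex.I • c (n + i) j))
        = (1 / 4 : ℂ) • ((c i j * c k l + c k l * c i j)
          + (c (n + i) j * c (n + k) l + c (n + k) l * c (n + i) j)
          - Complex.I • (c i j * c (n + k) l + c (n + k) l * c i j)
          + Complex.I • (c (n + i) j * c k l + c k l * c (n + i) j)) := by
      simp only [smul_mul_assoc, mul_smul_comm, add_mul, mul_add, smul_add, smul_sub, smul_smul,
        sub_mul, mul_sub]
      ring_nf
      simp only [Complex.I_sq]
      module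
    rw [key, h1, h2, h3, h4]
    have hiff : ((n + (i : ℕ) = n + (k : ℕ) ∧ (j : ℕ) = (l : ℕ))) ↔ (i = k ∧ j = l) := by
      rw [Fin.ext_iff, Fin.ext_iff]; omega
    have hiff' : (((i : ℕ) = (k : ℕ) ∧ (j : ℕ) = (l : ℕ))) ↔ (i = k ∧ j = l) := by
      rw [Fin.ext_iff, Fin.ext_iff]
    simp only [hiff, hiff']
    split_ifs
    · have h4 : (2 + 2 : A) = (4 : ℂ) • 1 := by
        rw [← Algebra.algebraMap_eq_smul_one, map_ofNat]
        norm_num
      simp only [smul_zero, sub_zero, add_zero]
      rw [h4, smul_smul]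
      norm_num
    · simp

/-- There is C such that for any pairwise anticommuting self-adjoint unitaries c_ij in a C*-algebra and every n, the n×n matrix [c_ij] has C*-norm at most C·√n, with that norm expressed via the Hilbert module Aⁿ. -/
theorem result :
    ∃ C : ℝ, ∀ (A : Type) [CStarAlgebra A] (c : ℕ → ℕ → A),
      (∀ i j, IsSelfAdjoint (c i j)) →
      (∀ i j, c i j * c i j = 1) →
      (∀ i j k l, (i, j) ≠ (k, l) → c i j * c k l = -(c k l * c i j)) →
      ∀ (n : ℕ) (a b : Fin n → A),
        ‖∑ i : Fin n, ∑ j : Fin n, star (b i) * c (i : ℕ) (j : ℕ) * a j‖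
          ≤ C * Real.sqrt (n : ℝ)
            * Real.sqrt ‖∑ j : Fin n, star (a j) * a j‖
            * Real.sqrt ‖∑ i : Fin n, star (b i) * b i‖ := by
  refine ⟨2 * Real.sqrt 2, ?_⟩
  intro A _ c hsa hsq hac n a b
  let _ := CStarAlgebra.spectralOrder A
  have _ := CStarAlgebra.spectralOrderedRing A
  have hd := isCAR_of_clifford c hsa hsq hac n
  set d : Fin n → Fin n → A :=
    (fun i j : Fin n => (1 / 2 : ℂ) • (c i j + Complex.I • c (n + i) j)) with hdef
  have hst : ∀ i j : Fin n, star (d i j) = (1 / 2 : ℂ) • (c i j - Complex.I • c (n + i) j) := by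
    intro i j
    rw [hdef]
    simp only
    rw [star_smul, star_add, star_smul, (hsa _ _).star_eq, (hsa _ _).star_eq]
    simp [sub_eq_add_neg]
  let M : CStarMatrix (Fin n) (Fin n) A := creMat d + creMat (fun i j => star (d i j))
  have hM : ∀ i j : Fin n, M i j = c i j := by
    intro i j
    have e1 : M i j = star (d i j) + d i j := by
      have : M i j = creMat d i j + creMat (fun i j => star (d i j)) i j := rfl
      rw [this, creMat_apply, creMat_apply, star_star]
    rw [e1, hst, hdef]
    simp only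
    rw [← smul_add]
    have : c i j - Complex.I • c (n + i) j + (c i j + Complex.I • c (n + i) j)
        = (2 : ℂ) • c i j := by
      rw [two_smul]; abel
    rw [this, smul_smul]
    norm_num
  have hnorm : ‖M‖ ≤ 2 * Real.sqrt 2 * Real.sqrt n := by
    calc ‖M‖ ≤ ‖creMat d‖ + ‖creMat (fun i j => star (d i j))‖ := norm_add_le _ _
      _ ≤ Real.sqrt 2 * Real.sqrt n + Real.sqrt 2 * Real.sqrt n :=
          add_le_add hd.norm_creMat_le hd.adj.norm_creMat_le
      _ = 2 * Real.sqrt 2 * Real.sqrt n := by ring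
  have hb := inner_bound M a b
  simp only [hM] at hb
  refine hb.trans ?_
  gcongr

end Pool.Agent.S03877
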