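import Pool.Statements.S03894
import Pool.Agent.Helper459.CaraG
import Pool.Agent.Helper459.CaraH

set_option autoImplicit false
open scoped ContDiff
open Pool Pool.MP_b76fe9_an

namespace Pool.Agent.S03894

/-- The negation of the preceding statement: For every bounded connected domain in C^n with smooth defining function, nonvanishing gradient on the boundary and nonnegative Levi form, every Cauchy sequence for the Carathéodory distance converges in that distance to a point of the domain. -/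
theorem result :
    ¬ (∀ (n : ℕ) (ρ : (Fin n → ℂ) → ℝ),
    ContDiff ℝ ∞ ρ →
    Bornology.IsBounded {z : Fin n → ℂ | ρ z < 0} →
    IsConnected {z : Fin n → ℂ | ρ z < 0} →
    (∀ p : Fin n → ℂ, ρ p = 0 → fderiv ℝ ρ p ≠ 0) →
    (∀ p w : Fin n → ℂ, ρ p = 0 → fderiv ℝ ρ p w = 0 →
        fderiv ℝ ρ p (Complex.I • w) = 0 →
        0 ≤ fderiv ℝ (fderiv ℝ ρ) p w w
            + fderiv ℝ (fderiv ℝ ρ) p (Complex.I • w) (Complex.I • w)) →
    ∀ x : ℕ → (Fin n → ℂ), (∀ j, ρ (x j) < 0) →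
      (∀ ε : ℝ, ε > 0 → ∃ N : ℕ, ∀ j ≥ N, ∀ k ≥ N, ∀ f : (Fin n → ℂ) → ℂ,
          DifferentiableOn ℂ f {z : Fin n → ℂ | ρ z < 0} →
          (∀ z : Fin n → ℂ, ρ z < 0 → ‖f z‖ < 1) →
          Real.log ((1 + ‖(f (x j) - f (x k)) / (1 - (starRingEnd ℂ) (f (x j)) * f (x k))‖)
                  / (1 - ‖(f (x j) - f (x k)) / (1 - (starRingEnd ℂ) (f (x j)) * f (x k))‖)) ≤ ε) →
      ∃ y : Fin n → ℂ, ρ y < 0 ∧
        ∀ ε : ℝ, ε > 0 → ∃ N : ℕ, ∀ j ≥ N, ∀ f : (Fin n → ℂ) → ℂ,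
          DifferentiableOn ℂ f {z : Fin n → ℂ | ρ z < 0} →
          (∀ z : Fin n → ℂ, ρ z < 0 → ‖f z‖ < 1) →
          Real.log ((1 + ‖(f (x j) - f y) / (1 - (starRingEnd ℂ) (f (x j)) * f y)‖)
                  / (1 - ‖(f (x j) - f y) / (1 - (starRingEnd ℂ) (f (x j)) * f y)‖)) ≤ ε) := by
  obtain ⟨M, h1, h2, h3, h4, h5, h6, h7⟩ := Pool.Agent.Helper459.CC.exists_M
  obtain ⟨N, R, g1, g2, g3, g4⟩ := Pool.Agent.Helper459.CC.exists_params
  exact Pool.Agent.Helper459.CC.not_complete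
    (Pool.Agent.Helper459.CC.weight ⟨h1, h2, h3, h4, h5, h6, h7⟩ ⟨g1, g2, g3, g4⟩)


end Pool.Agent.S03894
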