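import Pool.Statements.S03918
import Pool.Agent.Helper103.Strip3

set_option autoImplicit false
open Polynomial Filter
open Pool Pool.MP_bcdbe1_an

namespace Pool.Agent.S03918

/-- The negation of the preceding statement: For every complex polynomial p, the width of the strip of real parts of zeros of (p(z+l)-p(z-l))/(2l) is non-increasing in l for l greater than the zero-strip width of p', and tends to 0 as l goes to infinity. -/
theorem result :
    ¬ (∀ W : Polynomial ℂ → ℝ,
      (∀ q : Polynomial ℂ,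
        W q = sSup {x : ℝ | ∃ z ∈ q.roots, ∃ w ∈ q.roots, x = z.re - w.re}) →
      ∀ p : Polynomial ℂ,
        AntitoneOn
          (fun l : ℝ =>
            W ((p.comp (X + C (l : ℂ)) - p.comp (X - C (l : ℂ))) * C (1 / (2 * (l : ℂ)))))
          (Set.Ioi (W (derivative p))) ∧
        Tendsto
          (fun l : ℝ =>
            W ((p.comp (X + C (l : ℂ)) - p.comp (X - C (l : ℂ))) * C (1 / (2 * (l : ℂ)))))
          atTop (nhds 0)) := by
  intro H
  have h := (H (fun q => sSup {x : ℝ | ∃ z ∈ q.roots, ∃ w ∈ q.roots, x = z.re - w.re})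
    (fun q => rfl) Pool.Agent.Helper103.Strip.P).1
  have hW := Pool.Agent.Helper103.Strip.width_dP
  have h1 : (1 : ℝ) ∈ Set.Ioi (sSup {x : ℝ | ∃ z ∈ (derivative Pool.Agent.Helper103.Strip.P).roots,
      ∃ w ∈ (derivative Pool.Agent.Helper103.Strip.P).roots, x = z.re - w.re}) := by
    rw [Set.mem_Ioi]
    linarith
  have h2 : (21 / 20 : ℝ) ∈ Set.Ioi (sSup {x : ℝ |
      ∃ z ∈ (derivative Pool.Agent.Helper103.Strip.P).roots,
      ∃ w ∈ (derivative Pool.Agent.Helper103.Strip.P).roots, x = z.re - w.re}) := by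
    rw [Set.mem_Ioi]
    linarith
  have h3 := h h1 h2 (by norm_num)
  have h4 := Pool.Agent.Helper103.Strip.width_one
  have h5 := Pool.Agent.Helper103.Strip.width_two
  have h6 : sSup {x : ℝ | ∃ z ∈ (Pool.Agent.Helper103.Strip.DD Pool.Agent.Helper103.Strip.P
        (21 / 20)).roots, ∃ w ∈ (Pool.Agent.Helper103.Strip.DD Pool.Agent.Helper103.Strip.P
        (21 / 20)).roots, x = z.re - w.re} ≤
      sSup {x : ℝ | ∃ z ∈ (Pool.Agent.Helper103.Strip.DD Pool.Agent.Helper103.Strip.P
        1).roots, ∃ w ∈ (Pool.Agent.Helper103.Strip.DD Pool.Agent.Helper103.Strip.P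
        1).roots, x = z.re - w.re} := h3
  linarith

end Pool.Agent.S03918
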