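import Pool.Statements.S03924
import Pool.Agent.Helper73.CayleyT

set_option autoImplicit false
open Pool Pool.MP_bd309d_an

namespace Pool.Agent.S03924

open Pool.Agent.Helper73.T5

/-- The negation of the preceding statement: On the (2j+1)-regular tree, j ≥ 1, take a Jacobi operator with positive edge weights a and real vertex weights b, invariant under a free cofinite automorphism group. If its spectrum is connected, then all a's are equal and all b's are equal. -/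
theorem result :
    ¬ (∀ (j : ℕ), 1 ≤ j → ∀ (V : Type) (G : SimpleGraph V), G.IsTree →
    (∀ v : V, (G.neighborSet v).ncard = 2 * j + 1) →
    ∀ (a : V → V → ℝ) (b : V → ℝ),
      (∀ u v, G.Adj u v → a u v = a v u) →
      (∀ u v, G.Adj u v → 0 < a u v) →
      (∃ Γ : Subgroup (G ≃g G),
        (∀ g ∈ Γ, ∀ v : V, g v = v → g = 1) ∧
        (∃ F : Finset V, ∀ v : V, ∃ g ∈ Γ, ∃ w ∈ F, g w = v) ∧
        (∀ g ∈ Γ, ∀ v : V, b (g v) = b v) ∧
        (∀ g ∈ Γ, ∀ u v : V, G.Adj u v → a (g u) (g v) = a u v)) →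
      IsPreconnected {t : ℝ | ∀ ε : ℝ, 0 < ε → ∃ ψ : V →₀ ℝ, ψ ≠ 0 ∧
          (∑ᶠ v : V, ((b v - t) * ψ v + ∑ᶠ w ∈ G.neighborSet v, a v w * ψ w) ^ 2)
            < ε * ∑ᶠ v : V, ψ v ^ 2} →
      (∀ u v u' v' : V, G.Adj u v → G.Adj u' v' → a u v = a u' v') ∧
        (∀ u v : V, b u = b v)) := by
  intro hall
  obtain ⟨H, hH⟩ := exists_IsH (Equiv.refl W) (1 / 4)
  have hconn := ordConnected hH (by norm_num) le_rfl
  have hmain := hall 2 (by norm_num) W Cay cay_tree (fun v => by rw [cay_card])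
    (fun _ _ => 1) (pot (1 / 4) 1) (fun _ _ _ => rfl) (fun _ _ _ => one_pos)
  have hfin : ¬ ((∀ u v u' v' : W, Cay.Adj u v → Cay.Adj u' v' → (1 : ℝ) = 1) ∧
      (∀ u v : W, pot (1 / 4) 1 u = pot (1 / 4) 1 v)) := by
    rintro ⟨_, hb⟩
    have h1 := hb 1 (gen 2)
    unfold pot at h1
    rw [map_one, chi_gen] at h1
    have h2 : ty 2 = -1 := rfl
    rw [h2] at h1
    norm_num at h1
  refine hfin (hmain ⟨Gam, ?_, ?_, ?_, fun _ _ _ _ _ => rfl⟩ ?_)
  · rintro _ ⟨g, _, rfl⟩ v hv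
    rw [lft_apply] at hv
    have hg1 : g = 1 := by simpa using hv
    subst hg1
    ext v
    simp
  · classical
    have key : ∀ s p : ℤˣ, ∃ w ∈ ({1, gen 0, gen 2, gen 0 * gen 2} : Finset W),
        chi w = s ∧ par w = p := by
      have t0 : ty 0 = 1 := rfl
      have t2 : ty 2 = -1 := rfl
      intro s p
      rcases Int.units_eq_one_or s with rfl | rfl <;> rcases Int.units_eq_one_or p with rfl | rfl
      · exact ⟨1, by simp, map_one _, map_one _⟩
      · exact ⟨gen 0, by simp, by rw [chi_gen, t0], par_gen 0⟩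
      · exact ⟨gen 0 * gen 2, by simp, by rw [map_mul, chi_gen, chi_gen, t0, t2]; rfl,
          by rw [map_mul, par_gen, par_gen]; rfl⟩
      · exact ⟨gen 2, by simp, by rw [chi_gen, t2], par_gen 2⟩
    refine ⟨{1, gen 0, gen 2, gen 0 * gen 2}, fun v => ?_⟩
    obtain ⟨w, hw, h1, h2⟩ := key (chi v) (par v)
    refine ⟨lft (v * w⁻¹), ⟨v * w⁻¹, ⟨?_, ?_⟩, rfl⟩, w, hw, ?_⟩
    · rw [map_mul, map_inv, h1, mul_inv_cancel]
    · rw [map_mul, map_inv, h2, mul_inv_cancel]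
    · rw [lft_apply, inv_mul_cancel_right]
  · rintro _ ⟨g, ⟨hg, _⟩, rfl⟩ v
    rw [lft_apply]
    unfold pot
    rw [map_mul, hg, one_mul]
  · have h1 : {t : ℝ | ∀ ε : ℝ, 0 < ε → ∃ ψ : W →₀ ℝ, ψ ≠ 0 ∧
          (∑ᶠ v : W, ((pot (1 / 4) 1 v - t) * ψ v
            + ∑ᶠ w ∈ Cay.neighborSet v, (fun _ _ => (1 : ℝ)) v w * ψ w) ^ 2)
            < ε * ∑ᶠ v : W, ψ v ^ 2} = {t : ℝ | (t : ℂ) ∈ spectrum ℂ H} := by
      ext t
      rw [Set.mem_ofPred_eq, Set.mem_ofPred_eq, ← spec_iff hH t]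
      simp only [one_mul, finsum_nb]
      rfl
    rw [h1]
    exact hconn.isPreconnected

end Pool.Agent.S03924
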