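import Pool.Statements.S03931

set_option autoImplicit false
open Pool Pool.MP_bdf9ed_an

namespace Pool.Agent.S03931

open Set Filter Topology Function BoundedContinuousFunction

/-! ### Step 1: approximating continuous functions on the Cantor space by discrete ones -/

/-- Cut a binary sequence after its first `N` terms. -/
def cut (N : ℕ) (t : Fin N → Bool) : ℕ → Bool := fun i => if h : i < N then t ⟨i, h⟩ else false

attribute [local instance] PiNat.metricSpace in
theorem exists_cut (F : (ℕ → Bool) → ℝ) (hF : Continuous F) (η : ℝ) (hη : 0 < η) :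
    ∃ N : ℕ, ∀ t : ℕ → Bool, |F (cut N (fun i => t i)) - F t| < η := by
  have huc : @UniformContinuous (ℕ → Bool) ℝ PseudoMetricSpace.toUniformSpace
      PseudoMetricSpace.toUniformSpace F :=
    @CompactSpace.uniformContinuous_of_continuous (ℕ → Bool) ℝ PseudoMetricSpace.toUniformSpace
      PseudoMetricSpace.toUniformSpace _ F hF
  obtain ⟨δ, hδ, h⟩ := Metric.uniformContinuous_iff.mp huc η hη
  obtain ⟨N, hN⟩ := exists_pow_lt_of_lt_one hδ (by norm_num : (1 / 2 : ℝ) < 1)
  refine ⟨N, fun t => ?_⟩
  have hd : dist (cut N (fun i => t i)) t ≤ (1 / 2) ^ N := by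
    rw [← PiNat.mem_cylinder_iff_dist_le]
    intro i hi
    simp [cut, hi]
  have := h (lt_of_le_of_lt hd hN)
  rwa [Real.dist_eq] at this

/-- Uniform approximation by a continuous function with values in `η ℤ + θ`. -/
theorem approx (F : (ℕ → Bool) → ℝ) (hF : Continuous F) (η θ : ℝ) (hη : 0 < η) (hθ0 : 0 ≤ θ)
    (hθ : θ ≤ η) :
    ∃ G : (ℕ → Bool) → ℝ, Continuous G ∧ (∀ t, |G t - F t| ≤ 3 * η) ∧
      ∀ t, ∃ z : ℤ, G t = η * z + θ := by
  obtain ⟨N, hN⟩ := exists_cut F hF η hη
  refine ⟨fun t => η * ⌊F (cut N (fun i => t i)) / η⌋ + θ, ?_, ?_, ?_⟩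
  · have h1 : Continuous (fun t : ℕ → Bool => (fun i : Fin N => t i)) := by fun_prop
    have h2 : Continuous (fun s : Fin N → Bool => η * (⌊F (cut N s) / η⌋ : ℝ) + θ) :=
      continuous_of_discreteTopology
    exact h2.comp h1
  · intro t
    have h1 := abs_lt.mp (hN t)
    have h2 := Int.floor_le (F (cut N (fun i => t i)) / η)
    have h3 := Int.lt_floor_add_one (F (cut N (fun i => t i)) / η)
    rw [le_div_iff₀ hη] at h2
    rw [div_lt_iff₀ hη] at h3
    rw [abs_le]
    constructor <;> nlinarith
  · intro t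
    exact ⟨_, rfl⟩

/-! ### Step 2: the index space and a generic function on it -/

/-- The index space. -/
abbrev X : Type := ℕ × (ℕ → Bool)

/-- The first coordinate together with the first `n` binary digits. -/
def restr (n : ℕ) (x : X) : ℕ × (Fin n → Bool) := (x.1, fun i => x.2 i)

/-- Replace the first digits. -/
def join (n : ℕ) (v : ℕ × (Fin n → Bool)) (t : ℕ → Bool) : X :=
  (v.1, fun i => if h : i < n then v.2 ⟨i, h⟩ else t i)

theorem join_restr (n : ℕ) (x : X) : join n (restr n x) x.2 = x := by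
  unfold join restr
  ext i
  · rfl
  · by_cases h : i < n <;> simp [h]

theorem restr_join (n : ℕ) (v : ℕ × (Fin n → Bool)) (t : ℕ → Bool) :
    restr n (join n v t) = v := by
  unfold join restr
  ext i
  · rfl
  · simp

theorem join_join (n : ℕ) (v : ℕ × (Fin n → Bool)) (t : ℕ → Bool) :
    join n v (join n v t).2 = join n v t := by
  have := join_restr n (join n v t)
  rwa [restr_join] at this

theorem continuous_restr (n : ℕ) : Continuous (restr n) := by
  unfold restr
  fun_prop

theorem continuous_join (n : ℕ) (v : ℕ × (Fin n → Bool)) : Continuous (join n v) := by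
  unfold join
  refine Continuous.prodMk continuous_const ?_
  refine continuous_pi fun i => ?_
  by_cases h : i < n
  · simp only [h, dite_true]; exact continuous_const
  · simp only [h, dite_false]; exact continuous_apply i

/-- The combination attached to `h` points, with prescribed beginnings. -/
noncomputable def comb (p : X → ℝ) (h n : ℕ) (v : Fin h → ℕ × (Fin n → Bool)) (a b : Fin h → ℚ)
    (c : X →ᵇ ℝ) (t : Fin h → ℕ → Bool) : ℝ :=
  ∑ i, ((a i : ℝ) * c (join n (v i) (t i)) + (b i : ℝ) * p (join n (v i) (t i)))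

/-- The functions for which the combination never vanishes. -/
def good (p : X → ℝ) (h n : ℕ) (v : Fin h → ℕ × (Fin n → Bool)) (a b : Fin h → ℚ) :
    Set (X →ᵇ ℝ) := {c | ∀ t, comb p h n v a b c t ≠ 0}

theorem isOpen_good (p : X → ℝ) (hp : Continuous p) (h n : ℕ)
    (v : Fin h → ℕ × (Fin n → Bool)) (a b : Fin h → ℚ) : IsOpen (good p h n v a b) := by
  have hcont : Continuous (fun q : (X →ᵇ ℝ) × (Fin h → ℕ → Bool) =>
      comb p h n v a b q.1 q.2) := by
    unfold comb
    refine continuous_finsetSum _ fun i _ => ?_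
    have hj : Continuous (fun q : (X →ᵇ ℝ) × (Fin h → ℕ → Bool) =>
        join n (v i) (q.2 i)) :=
      (continuous_join n (v i)).comp ((continuous_apply i).comp continuous_snd)
    have he : Continuous (fun q : (X →ᵇ ℝ) × (Fin h → ℕ → Bool) =>
        q.1 (join n (v i) (q.2 i))) := by
      fun_prop
    exact (continuous_const.mul he).add (continuous_const.mul (hp.comp hj))
  have hcl : IsClosed {q : (X →ᵇ ℝ) × (Fin h → ℕ → Bool) | comb p h n v a b q.1 q.2 = 0} :=
    isClosed_singleton.preimage hcont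
  have := isClosedMap_fst_of_compactSpace _ hcl
  rw [← isOpen_compl_iff] at this
  convert this using 1
  ext c
  simp only [good, mem_ofPred_eq, mem_compl_iff, mem_image, Prod.exists, exists_and_right,
    exists_eq_right, not_exists]

theorem dense_good (p : X → ℝ) (hp : Continuous p) (h n : ℕ)
    (v : Fin h → ℕ × (Fin n → Bool)) (a b : Fin h → ℚ) (hh : 0 < h) (hv : Injective v)
    (ha : ∀ i, a i ≠ 0) : Dense (good p h n v a b) := by
  rw [Metric.dense_iff]
  intro c ε hε
  -- the precision
  set S : ℝ := ∑ i, 3 / |(a i : ℝ)| with hS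
  have hS0 : 0 ≤ S := Finset.sum_nonneg fun i _ => by positivity
  set η : ℝ := ε / (S + 1) with hη
  have hηpos : 0 < η := by positivity
  have hηS : η * S < ε := by
    have : η * (S + 1) = ε := by rw [hη]; field_simp
    nlinarith
  set θ : ℝ := η / (2 * h) with hθ
  have hh' : (1 : ℝ) ≤ h := by exact_mod_cast hh
  have hθ0 : 0 ≤ θ := by positivity
  have hθ1 : θ ≤ η := by
    rw [hθ]
    apply div_le_self hηpos.le
    linarith
  have hθh : (h : ℝ) * θ = η / 2 := by
    rw [hθ]; field_simp
  -- the approximations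
  have hF : ∀ i, Continuous (fun t : ℕ → Bool =>
      (a i : ℝ) * c (join n (v i) t) + (b i : ℝ) * p (join n (v i) t)) := by
    intro i
    exact (continuous_const.mul (c.continuous.comp (continuous_join n (v i)))).add
      (continuous_const.mul (hp.comp (continuous_join n (v i))))
  choose G hGc hG1 hG2 using fun i => approx _ (hF i) η θ hηpos hθ0 hθ1
  -- the perturbation
  let e : (ℕ × (Fin n → Bool)) → (ℕ → Bool) → ℝ := fun w t =>
    ∑ i, if v i = w then (G i t - ((a i : ℝ) * c (join n (v i) t) +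
      (b i : ℝ) * p (join n (v i) t))) / (a i : ℝ) else 0
  have he_cont : Continuous (fun x : X => e (restr n x) x.2) := by
    have h1 : Continuous (fun q : (ℕ × (Fin n → Bool)) × (ℕ → Bool) => e q.1 q.2) := by
      rw [continuous_prod_of_discrete_left]
      intro w
      refine continuous_finsetSum _ fun i _ => ?_
      by_cases hw : v i = w
      · simp only [hw, if_true]
        have := ((hGc i).sub (hF i)).div_const (a i : ℝ)
        simpa [hw] using this
      · simp only [hw, if_false]
        exact continuous_const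
    exact h1.comp ((continuous_restr n).prodMk continuous_snd)
  have he_bd : ∀ w t, |e w t| ≤ η * S := by
    intro w t
    calc |e w t| ≤ ∑ i, |if v i = w then (G i t - ((a i : ℝ) * c (join n (v i) t) +
        (b i : ℝ) * p (join n (v i) t))) / (a i : ℝ) else 0| := Finset.abs_sum_le_sum_abs _ _
      _ ≤ ∑ i, η * (3 / |(a i : ℝ)|) := by
          refine Finset.sum_le_sum fun i _ => ?_
          have hai : 0 < |(a i : ℝ)| := abs_pos.mpr (by exact_mod_cast ha i)
          by_cases hw : v i = w
          · rw [if_pos hw, abs_div, div_le_iff₀ hai]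
            have := hG1 i t
            calc _ ≤ 3 * η := this
              _ = η * (3 / |(a i : ℝ)|) * |(a i : ℝ)| := by field_simp
          · rw [if_neg hw, abs_zero]; positivity
      _ = η * S := by rw [hS, Finset.mul_sum]
  let E : X →ᵇ ℝ := BoundedContinuousFunction.ofNormedAddCommGroup
    (fun x : X => e (restr n x) x.2) he_cont (η * S) (fun x => by
      rw [Real.norm_eq_abs]; exact he_bd _ _)
  have hEapp : ∀ x, E x = e (restr n x) x.2 := fun x => rfl
  have hEnorm : ‖E‖ ≤ η * S := BoundedContinuousFunction.norm_ofNormedAddCommGroup_le _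
    (by positivity) _
  refine ⟨c + E, ?_, ?_⟩
  · rw [Metric.mem_ball, dist_eq_norm]
    have : c + E - c = E := by abel
    rw [this]
    exact lt_of_le_of_lt hEnorm hηS
  · intro t
    -- each term is a value of `G`
    have hterm : ∀ i, ((a i : ℝ) * (c + E) (join n (v i) (t i)) +
        (b i : ℝ) * p (join n (v i) (t i))) = G i (join n (v i) (t i)).2 := by
      intro i
      have hai : (a i : ℝ) ≠ 0 := by exact_mod_cast ha i
      have h1 : e (v i) (join n (v i) (t i)).2 =
          (G i (join n (v i) (t i)).2 - ((a i : ℝ) * c (join n (v i) (t i)) +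
            (b i : ℝ) * p (join n (v i) (t i)))) / (a i : ℝ) := by
        have h2 : ∀ j, (v j = v i) = (j = i) := fun j => by
          rw [hv.eq_iff]
        show (∑ j, if v j = v i then (G j (join n (v i) (t i)).2 -
          ((a j : ℝ) * c (join n (v j) (join n (v i) (t i)).2) +
          (b j : ℝ) * p (join n (v j) (join n (v i) (t i)).2))) / (a j : ℝ) else 0) = _
        simp only [h2]
        rw [Finset.sum_ite_eq' Finset.univ i]
        simp only [Finset.mem_univ, if_true]
        rw [join_join]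
      have h3 : (c + E) (join n (v i) (t i)) = c (join n (v i) (t i)) +
          e (v i) (join n (v i) (t i)).2 := by
        rw [BoundedContinuousFunction.add_apply, hEapp, restr_join]
      rw [h3, h1]
      field_simp
      ring
    choose z hz using fun i => hG2 i (join n (v i) (t i)).2
    have hsum : comb p h n v a b (c + E) t = η * ((∑ i, z i : ℤ) : ℝ) + η / 2 := by
      unfold comb
      rw [Finset.sum_congr rfl (fun i _ => (hterm i).trans (hz i)), Finset.sum_add_distrib,
        ← Finset.mul_sum, Finset.sum_const, Finset.card_univ, Fintype.card_fin, nsmul_eq_mul,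
        hθh]
      push_cast
      rfl
    rw [hsum]
    intro h0
    have h1 : η * (2 * ((∑ i, z i : ℤ) : ℝ) + 1) = 0 := by linarith
    have h2 : (2 * ((∑ i, z i : ℤ) : ℝ) + 1) = 0 := by
      rcases mul_eq_zero.mp h1 with h | h
      · exact absurd h hηpos.ne'
      · exact h
    have h3 : 2 * (∑ i, z i : ℤ) + 1 = 0 := by exact_mod_cast h2
    omega

/-- The independence property of a pair of functions. -/
def Indep {Y : Type} (c p : Y → ℝ) : Prop :=
  ∀ (h : ℕ) (x : Fin h → Y) (a b : Fin h → ℚ), 0 < h → Injective x → (∀ i, a i ≠ 0) →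
    ∑ i, ((a i : ℝ) * c (x i) + (b i : ℝ) * p (x i)) ≠ 0

theorem exists_restr_injective (h : ℕ) (x : Fin h → X) (hx : Injective x) :
    ∃ n : ℕ, Injective (fun i => restr n (x i)) := by
  have key : ∀ y z : X, y ≠ z → ∃ n : ℕ, ∀ m, n ≤ m → restr m y ≠ restr m z := by
    intro y z hyz
    by_contra hcon
    push Not at hcon
    apply hyz
    ext i
    · obtain ⟨m, _, hm⟩ := hcon 0
      have := congrArg Prod.fst hm
      simpa [restr] using this
    · obtain ⟨m, hm1, hm⟩ := hcon (i + 1)
      have := congrFun (congrArg Prod.snd hm) ⟨i, by omega⟩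
      simpa [restr] using this
  choose! N hN using key
  refine ⟨∑ i, ∑ j, N (x i) (x j), ?_⟩
  intro i j hij
  by_contra hne
  refine hN (x i) (x j) (fun h => hne (hx h)) _ ?_ hij
  calc N (x i) (x j) ≤ ∑ j, N (x i) (x j) :=
        Finset.single_le_sum (f := fun j => N (x i) (x j)) (fun _ _ => Nat.zero_le _)
          (Finset.mem_univ j)
    _ ≤ ∑ i, ∑ j, N (x i) (x j) :=
        Finset.single_le_sum (f := fun i => ∑ j, N (x i) (x j)) (fun _ _ => Nat.zero_le _)
          (Finset.mem_univ i)

/-- The index type for the Baire category argument. -/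
abbrev Idx : Type := Σ h : ℕ, Σ n : ℕ, (Fin h → ℕ × (Fin n → Bool)) × (Fin h → ℚ) × (Fin h → ℚ)

theorem exists_indep (p : X → ℝ) (hp : Continuous p) :
    ∃ c : X → ℝ, Continuous c ∧ Indep c p := by
  let T : Set Idx := {q | 0 < q.1 ∧ Injective q.2.2.1 ∧ ∀ i, q.2.2.2.1 i ≠ 0}
  have hdense : Dense (⋂ q ∈ T, good p q.1 q.2.1 q.2.2.1 q.2.2.2.1 q.2.2.2.2) := by
    apply dense_biInter_of_isOpen
    · intro q _
      exact isOpen_good p hp _ _ _ _ _
    · exact T.to_countable
    · intro q hq
      exact dense_good p hp _ _ _ _ _ hq.1 hq.2.1 hq.2.2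
  obtain ⟨c, hc⟩ := hdense.nonempty
  refine ⟨c, c.continuous, ?_⟩
  intro h x a b hh hx ha
  obtain ⟨n, hn⟩ := exists_restr_injective h x hx
  have hmem := mem_iInter₂.mp hc (⟨h, n, fun i => restr n (x i), a, b⟩ : Idx) ⟨hh, hn, ha⟩
  have := hmem (fun i => (x i).2)
  unfold comb at this
  simp only [join_restr] at this
  exact this

/-! ### Step 3: the set attached to an independent pair -/

section Abstract

variable {Y : Type} (c p : Y → ℝ)

/-- The independence property in terms of finitely supported coefficients. -/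
theorem Indep.finsupp {c p : Y → ℝ} (hk : Indep c p) (W U : Y →₀ ℚ) (hWU : ∀ y, W y = 0 → U y = 0)
    (hW : W ≠ 0) :
    Finsupp.linearCombination ℚ c W + Finsupp.linearCombination ℚ p U ≠ 0 := by
  classical
  have hU : Finsupp.linearCombination ℚ p U = ∑ y ∈ W.support, U y • p y := by
    rw [Finsupp.linearCombination_apply, Finsupp.sum_of_support_subset U _ _ (by simp)]
    intro y hy
    rw [Finsupp.mem_support_iff] at hy ⊢
    exact fun h => hy (hWU y h)
  have hW' : Finsupp.linearCombination ℚ c W = ∑ y ∈ W.support, W y • c y := by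
    rw [Finsupp.linearCombination_apply, Finsupp.sum]
  rw [hU, hW', ← Finset.sum_add_distrib]
  have e := W.support.equivFin
  have := hk W.support.card (fun i => (e.symm i : Y)) (fun i => W (e.symm i)) (fun i => U (e.symm i))
    (Finset.card_pos.mpr (Finsupp.support_nonempty_iff.mpr hW))
    (Subtype.val_injective.comp e.symm.injective)
    (fun i => Finsupp.mem_support_iff.mp (e.symm i).2)
  rw [← Finset.sum_coe_sort, ← e.symm.sum_comp]
  simpa [Rat.smul_def] using this

/-- The rational hull of all points `c y + τ p y` with `|τ| ≤ 1`. -/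
def Hull : Set ℝ :=
  {z | ∃ (h : ℕ) (w u : Fin h → ℚ) (y : Fin h → Y), (∀ i, |u i| ≤ w i) ∧ ∑ i, w i = 1 ∧
    z = ∑ i, ((w i : ℝ) * c (y i) + (u i : ℝ) * p (y i))}

theorem rep_unique {c p : Y → ℝ} (hk : Indep c p) {h : ℕ} {w u : Fin h → ℚ} {y : Fin h → Y}
    (hu : ∀ i, |u i| ≤ w i) (hw : ∑ i, w i = 1) {x : Y} {τ : ℚ}
    (heq : ∑ i, ((w i : ℝ) * c (y i) + (u i : ℝ) * p (y i)) = c x + (τ : ℝ) * p x) :
    ∀ i, w i ≠ 0 → y i = x := by
  classical
  by_contra hcon
  push Not at hcon
  obtain ⟨i0, hi0, hyi0⟩ := hcon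
  have hw0 : ∀ i, 0 ≤ w i := fun i => le_trans (abs_nonneg _) (hu i)
  have hwi0 : 0 < w i0 := lt_of_le_of_ne (hw0 i0) (Ne.symm hi0)
  set W : Y →₀ ℚ := ∑ i, Finsupp.single (y i) (w i) - Finsupp.single x 1 with hWdef
  set U : Y →₀ ℚ := ∑ i, Finsupp.single (y i) (u i) - Finsupp.single x τ with hUdef
  have hWapp : ∀ z, W z = (∑ i, if y i = z then w i else 0) - if x = z then 1 else 0 := by
    intro z
    rw [hWdef, Finsupp.sub_apply, Finsupp.finsetSum_apply]
    simp only [Finsupp.single_apply]
  have hUapp : ∀ z, U z = (∑ i, if y i = z then u i else 0) - if x = z then τ else 0 := by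
    intro z
    rw [hUdef, Finsupp.sub_apply, Finsupp.finsetSum_apply]
    simp only [Finsupp.single_apply]
  refine hk.finsupp W U ?_ ?_ ?_
  · intro z hz
    rw [hWapp] at hz
    by_cases hxz : x = z
    · exfalso
      subst hxz
      rw [if_pos rfl] at hz
      have h1 : (∑ i, if y i = x then w i else 0) ≤ ∑ i, (if i = i0 then 0 else w i) := by
        refine Finset.sum_le_sum fun i _ => ?_
        by_cases hi : i = i0
        · subst hi; rw [if_neg hyi0, if_pos rfl]
        · rw [if_neg hi]; split_ifs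
          · exact le_refl _
          · exact hw0 i
      have h2 : ∑ i, (if i = i0 then 0 else w i) + w i0 = 1 := by
        rw [← hw, ← Finset.sum_erase_add _ _ (Finset.mem_univ i0)]
        rw [← Finset.sum_erase_add Finset.univ w (Finset.mem_univ i0)]
        rw [if_pos rfl, add_zero]
        congr 1
        refine Finset.sum_congr rfl fun i hi => ?_
        rw [if_neg (Finset.ne_of_mem_erase hi)]
      linarith
    · rw [if_neg hxz, sub_zero] at hz
      rw [hUapp, if_neg hxz, sub_zero]
      have h1 := (Finset.sum_eq_zero_iff_of_nonneg (fun i _ => by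
        split_ifs
        · exact hw0 i
        · exact le_refl _)).mp hz
      refine Finset.sum_eq_zero fun i _ => ?_
      by_cases hi : y i = z
      · rw [if_pos hi]
        have h2 := h1 i (Finset.mem_univ i)
        rw [if_pos hi] at h2
        have h3 := hu i
        rw [h2] at h3
        exact abs_eq_zero.mp (le_antisymm h3 (abs_nonneg _))
      · rw [if_neg hi]
  · intro h0
    have h1 : W (y i0) = 0 := by rw [h0]; rfl
    rw [hWapp, if_neg (fun h => hyi0 h.symm), sub_zero] at h1
    have h2 : w i0 ≤ ∑ i, if y i = y i0 then w i else 0 := by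
      have := Finset.single_le_sum (f := fun i => if y i = y i0 then w i else 0)
        (fun i _ => by
          show 0 ≤ if y i = y i0 then w i else 0
          split_ifs
          · exact hw0 i
          · exact le_refl _) (Finset.mem_univ i0)
      simpa using this
    linarith
  · rw [hWdef, hUdef, map_sub, map_sub, map_sum, map_sum]
    simp only [Finsupp.linearCombination_single, Rat.smul_def]
    rw [Finset.sum_add_distrib] at heq
    push_cast
    linarith

/-- The points which are removed from the hull. -/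
def Del (P : Set ℝ) : Set ℝ :=
  ⋃ τ ∈ {τ : ℚ | |τ| < 1}, (fun x => c x + (τ : ℝ) * p x) '' (p ⁻¹' P)

theorem mem_Del {P : Set ℝ} {z : ℝ} :
    z ∈ Del c p P ↔ ∃ τ : ℚ, |τ| < 1 ∧ ∃ x, p x ∈ P ∧ c x + (τ : ℝ) * p x = z := by
  simp [Del]

theorem two_points {c p : Y → ℝ} (hk : Indep c p) {x y : Y} {ρ τ : ℚ}
    (h : c x + (ρ : ℝ) * p x = c y + (τ : ℝ) * p y) : x = y := by
  by_contra hne
  have := hk 2 ![x, y] ![1, -1] ![ρ, -τ] (by norm_num) (by
    intro i j hij
    fin_cases i <;> fin_cases j <;> simp_all) (by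
    intro i
    fin_cases i <;> simp)
  apply this
  simp [Fin.sum_univ_two]
  linarith

theorem mem_Hull_point (x : Y) (ρ : ℚ) (hρ : |ρ| ≤ 1) : c x + (ρ : ℝ) * p x ∈ Hull c p := by
  refine ⟨1, ![1], ![ρ], ![x], ?_, ?_, ?_⟩
  · intro i; fin_cases i; simpa using hρ
  · simp
  · simp

/-- If the midpoint of two points of the hull is a removed point, then the two points lie on the
same segment. -/
theorem of_midpoint {c p : Y → ℝ} (hk : Indep c p) {s t : ℝ} (hs : s ∈ Hull c p)
    (ht : t ∈ Hull c p) {x : Y} {τ : ℚ} (hm : (s + t) / 2 = c x + (τ : ℝ) * p x) :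
    (∃ ρ : ℚ, |ρ| ≤ 1 ∧ s = c x + (ρ : ℝ) * p x) ∧ (∃ ρ : ℚ, |ρ| ≤ 1 ∧ t = c x + (ρ : ℝ) * p x) := by
  obtain ⟨h1, w1, u1, y1, hu1, hw1, hs⟩ := hs
  obtain ⟨h2, w2, u2, y2, hu2, hw2, ht⟩ := ht
  have hall := rep_unique hk (h := h1 + h2) (w := fun i => Fin.append w1 w2 i / 2)
    (u := fun i => Fin.append u1 u2 i / 2) (y := Fin.append y1 y2) (x := x) (τ := τ)
    (by
      intro i
      refine Fin.addCases (fun i => ?_) (fun i => ?_) i
      · simp only [Fin.append_left, abs_div, abs_two]
        linarith [hu1 i]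
      · simp only [Fin.append_right, abs_div, abs_two]
        linarith [hu2 i])
    (by
      rw [Fin.sum_univ_add]
      simp only [Fin.append_left, Fin.append_right]
      rw [← Finset.sum_div, ← Finset.sum_div, hw1, hw2]
      norm_num)
    (by
      rw [Fin.sum_univ_add]
      simp only [Fin.append_left, Fin.append_right]
      rw [← hm, hs, ht, add_div, Finset.sum_div, Finset.sum_div]
      congr 1
      · refine Finset.sum_congr rfl fun i _ => ?_
        push_cast; ring
      · refine Finset.sum_congr rfl fun i _ => ?_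
        push_cast; ring)
  have aux : ∀ (h : ℕ) (w u : Fin h → ℚ) (y : Fin h → Y), (∀ i, |u i| ≤ w i) → ∑ i, w i = 1 →
      (∀ i, w i ≠ 0 → y i = x) → ∀ z : ℝ, z = ∑ i, ((w i : ℝ) * c (y i) + (u i : ℝ) * p (y i)) →
      ∃ ρ : ℚ, |ρ| ≤ 1 ∧ z = c x + (ρ : ℝ) * p x := by
    intro h w u y hu hw hy z hz
    refine ⟨∑ i, u i, ?_, ?_⟩
    · calc |∑ i, u i| ≤ ∑ i, |u i| := Finset.abs_sum_le_sum_abs _ _
        _ ≤ ∑ i, w i := Finset.sum_le_sum fun i _ => hu i
        _ = 1 := hw
    · have h1 : ∀ i, (w i : ℝ) * c (y i) + (u i : ℝ) * p (y i) =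
          (w i : ℝ) * c x + (u i : ℝ) * p x := by
        intro i
        by_cases hi : w i = 0
        · have h3 := hu i
          rw [hi] at h3
          have h4 : u i = 0 := abs_eq_zero.mp (le_antisymm h3 (abs_nonneg _))
          rw [hi, h4]; simp
        · rw [hy i hi]
      rw [hz, Finset.sum_congr rfl fun i _ => h1 i, Finset.sum_add_distrib, ← Finset.sum_mul,
        ← Finset.sum_mul]
      have h2 : (∑ i, (w i : ℝ)) = 1 := by exact_mod_cast hw
      rw [h2]
      push_cast
      ring
  constructor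
  · refine aux h1 w1 u1 y1 hu1 hw1 (fun i hi => ?_) s hs
    have := hall (Fin.castAdd h2 i) (by simpa [Fin.append_left] using hi)
    simpa [Fin.append_left] using this
  · refine aux h2 w2 u2 y2 hu2 hw2 (fun i hi => ?_) t ht
    have := hall (Fin.natAdd h1 i) (by simpa [Fin.append_right] using hi)
    simpa [Fin.append_right] using this

theorem midpoint_mem_Hull {s t : ℝ} (hs : s ∈ Hull c p) (ht : t ∈ Hull c p) :
    (s + t) / 2 ∈ Hull c p := by
  obtain ⟨h1, w1, u1, y1, hu1, hw1, hs⟩ := hs
  obtain ⟨h2, w2, u2, y2, hu2, hw2, ht⟩ := ht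
  refine ⟨h1 + h2, fun i => Fin.append w1 w2 i / 2, fun i => Fin.append u1 u2 i / 2,
    Fin.append y1 y2, ?_, ?_, ?_⟩
  · intro i
    refine Fin.addCases (fun i => ?_) (fun i => ?_) i
    · simp only [Fin.append_left, abs_div, abs_two]
      linarith [hu1 i]
    · simp only [Fin.append_right, abs_div, abs_two]
      linarith [hu2 i]
  · rw [Fin.sum_univ_add]
    simp only [Fin.append_left, Fin.append_right]
    rw [← Finset.sum_div, ← Finset.sum_div, hw1, hw2]
    norm_num
  · rw [Fin.sum_univ_add]
    simp only [Fin.append_left, Fin.append_right]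
    rw [hs, ht, add_div, Finset.sum_div, Finset.sum_div]
    congr 1
    · refine Finset.sum_congr rfl fun i _ => ?_
      push_cast; ring
    · refine Finset.sum_congr rfl fun i _ => ?_
      push_cast; ring

/-- The complement of the required set. -/
def Rem (P : Set ℝ) : Set ℝ := Hull c p \ Del c p P

/-- Distances in `P` are killed. -/
theorem killed {c p : Y → ℝ} (hk : Indep c p) {P : Set ℝ} (hP : ∀ α ∈ P, 0 < α) (x : Y)
    (hx : p x ∈ P) : c x ∉ Rem c p P ∧ c x + p x ∈ Rem c p P ∧ c x - p x ∈ Rem c p P := by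
  refine ⟨?_, ?_, ?_⟩
  · intro h
    apply h.2
    rw [mem_Del]
    exact ⟨0, by simp, x, hx, by simp⟩
  · refine ⟨?_, ?_⟩
    · have := mem_Hull_point c p x 1 (by simp)
      simpa using this
    · rw [mem_Del]
      rintro ⟨τ, hτ, y, hy, h⟩
      have h1 : x = y := two_points hk (ρ := 1) (τ := τ) (by rw [h]; simp)
      subst h1
      have h2 : (1 - (τ : ℝ)) * p x = 0 := by linarith
      rcases mul_eq_zero.mp h2 with h3 | h3
      · have h4 : (τ : ℝ) = 1 := by linarith
        have h5 : τ = 1 := by exact_mod_cast h4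
        rw [h5] at hτ; simp at hτ
      · exact (hP _ hx).ne' h3
  · refine ⟨?_, ?_⟩
    · have := mem_Hull_point c p x (-1) (by simp)
      simpa [sub_eq_add_neg] using this
    · rw [mem_Del]
      rintro ⟨τ, hτ, y, hy, h⟩
      have h1 : x = y := two_points hk (ρ := -1) (τ := τ) (by rw [h]; simp [sub_eq_add_neg])
      subst h1
      have h2 : (1 + (τ : ℝ)) * p x = 0 := by linarith
      rcases mul_eq_zero.mp h2 with h3 | h3
      · have h4 : (τ : ℝ) = -1 := by linarith
        have h5 : τ = -1 := by exact_mod_cast h4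
        rw [h5] at hτ; simp at hτ
      · exact (hP _ hx).ne' h3

/-- Only distances in `P` are killed. -/
theorem only_killed {c p : Y → ℝ} (hk : Indep c p) {P : Set ℝ} (hp0 : ∀ y, 0 ≤ p y) {s t : ℝ}
    (hs : s ∈ Rem c p P) (ht : t ∈ Rem c p P) (hm : (s + t) / 2 ∉ Rem c p P) :
    |s - t| / 2 ∈ P := by
  have hmH : (s + t) / 2 ∈ Hull c p := midpoint_mem_Hull c p hs.1 ht.1
  have hmD : (s + t) / 2 ∈ Del c p P := by
    by_contra h
    exact hm ⟨hmH, h⟩
  obtain ⟨τ, hτ, x, hx, hxm⟩ := (mem_Del c p).mp hmD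
  obtain ⟨⟨ρ, hρ, hsρ⟩, ⟨σ, hσ, htσ⟩⟩ := of_midpoint hk hs.1 ht.1 hxm.symm
  have hρ1 : |ρ| = 1 := by
    refine le_antisymm hρ (not_lt.mp fun h => hs.2 ?_)
    exact (mem_Del c p).mpr ⟨ρ, h, x, hx, hsρ.symm⟩
  have hσ1 : |σ| = 1 := by
    refine le_antisymm hσ (not_lt.mp fun h => ht.2 ?_)
    exact (mem_Del c p).mpr ⟨σ, h, x, hx, htσ.symm⟩
  have hne : ρ ≠ σ := by
    intro h
    apply hm
    have : (s + t) / 2 = s := by rw [hsρ, htσ, h]; ring
    rw [this]; exact hs
  have hx0 := hp0 x
  rcases (abs_eq zero_le_one).mp hρ1 with h1 | h1 <;> rcases (abs_eq zero_le_one).mp hσ1 with h2 | h2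
  · exact absurd (h1.trans h2.symm) hne
  · have : |s - t| / 2 = p x := by
      rw [hsρ, htσ, h1, h2]
      push_cast
      rw [show c x + 1 * p x - (c x + -1 * p x) = 2 * p x by ring, abs_of_nonneg (by linarith)]
      ring
    rw [this]; exact hx
  · have : |s - t| / 2 = p x := by
      rw [hsρ, htσ, h1, h2]
      push_cast
      rw [show c x + -1 * p x - (c x + 1 * p x) = -(2 * p x) by ring, abs_neg,
        abs_of_nonneg (by linarith)]
      ring
    rw [this]; exact hx
  · exact absurd (h1.trans h2.symm) hne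

variable [TopologicalSpace Y]

theorem measurableSet_Hull [SigmaCompactSpace Y] {c p : Y → ℝ} (hc : Continuous c)
    (hp : Continuous p) : MeasurableSet (Hull c p) := by
  have heq : Hull c p = ⋃ (q : Σ h : ℕ, (Fin h → ℚ) × (Fin h → ℚ)),
      ⋃ (_ : (∀ i, |q.2.2 i| ≤ q.2.1 i) ∧ ∑ i, q.2.1 i = 1),
        range (fun y : Fin q.1 → Y => ∑ i, ((q.2.1 i : ℝ) * c (y i) + (q.2.2 i : ℝ) * p (y i))) := by
    ext z
    simp only [Hull, mem_ofPred_eq, mem_iUnion, mem_range, exists_prop]
    constructor
    · rintro ⟨h, w, u, y, h1, h2, h3⟩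
      exact ⟨⟨h, w, u⟩, ⟨h1, h2⟩, y, h3.symm⟩
    · rintro ⟨⟨h, w, u⟩, ⟨h1, h2⟩, y, h3⟩
      exact ⟨h, w, u, y, h1, h2, h3.symm⟩
  rw [heq]
  refine MeasurableSet.iUnion fun q => MeasurableSet.iUnion fun _ => ?_
  have hcont : Continuous (fun y : Fin q.1 → Y =>
      ∑ i, ((q.2.1 i : ℝ) * c (y i) + (q.2.2 i : ℝ) * p (y i))) := by
    refine continuous_finsetSum _ fun i _ => ?_
    exact (continuous_const.mul (hc.comp (continuous_apply i))).add
      (continuous_const.mul (hp.comp (continuous_apply i)))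
  obtain ⟨K, hK, hKr⟩ := isSigmaCompact_range hcont
  rw [← hKr]
  exact MeasurableSet.iUnion fun n => (hK n).isClosed.measurableSet

theorem measurableSet_Del [PolishSpace Y] [MeasurableSpace Y] [BorelSpace Y] {c p : Y → ℝ}
    (hk : Indep c p) (hc : Continuous c) (hp : Continuous p) {P : Set ℝ} (hP : MeasurableSet P) :
    MeasurableSet (Del c p P) := by
  unfold Del
  refine MeasurableSet.biUnion (to_countable _) fun τ _ => ?_
  refine (hp.measurable hP).image_of_continuousOn_injOn ?_ ?_
  · exact (hc.add (continuous_const.mul hp)).continuousOn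
  · intro x _ y _ h
    exact two_points hk h

end Abstract

/-- A continuous map of the index space onto the half-line. -/
theorem exists_param : ∃ p : X → ℝ, Continuous p ∧ (∀ x, 0 ≤ p x) ∧ ∀ α : ℝ, 0 ≤ α → ∃ x, p x = α := by
  obtain ⟨f, hf, hfs⟩ := exists_nat_bool_continuous_surjective_of_compact (Set.Icc (0 : ℝ) 1)
  refine ⟨fun x => (x.1 : ℝ) + (f x.2 : ℝ), ?_, ?_, ?_⟩
  · exact (continuous_of_discreteTopology.comp continuous_fst).add
      (continuous_subtype_val.comp (hf.comp continuous_snd))
  · intro x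
    have h1 : (0 : ℝ) ≤ (f x.2 : ℝ) := (f x.2).2.1
    positivity
  · intro α hα
    obtain ⟨t, ht⟩ := hfs ⟨Int.fract α, Int.fract_nonneg α, (Int.fract_lt_one α).le⟩
    refine ⟨(⌊α⌋₊, t), ?_⟩
    simp only [ht]
    rw [← Int.floor_toNat]
    have h1 : ((⌊α⌋.toNat : ℕ) : ℝ) = (⌊α⌋ : ℝ) := by
      have : ((⌊α⌋.toNat : ℕ) : ℤ) = ⌊α⌋ := Int.toNat_of_nonneg (Int.floor_nonneg.mpr hα)
      exact_mod_cast this
    rw [h1]
    exact Int.floor_add_fract α

/-- Every Borel set A of nonnegative reals containing 0 equals, for some Borel set B of reals, the set of all α ≥ 0 such that each point of B has a point of B at distance exactly α. -/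
theorem result :
    ∀ A : Set ℝ, MeasurableSet A → (0 : ℝ) ∈ A → A ⊆ Set.Ici (0 : ℝ) →
      ∃ B : Set ℝ, MeasurableSet B ∧
        {α : ℝ | 0 ≤ α ∧ ∀ x ∈ B, ∃ y ∈ B, |x - y| = α} = A := by
  intro A hA h0A hAnn
  obtain ⟨p, hp, hp0, hps⟩ := exists_param
  obtain ⟨c, hc, hk⟩ := exists_indep p hp
  set P : Set ℝ := Ioi 0 \ A with hPdef
  have hPm : MeasurableSet P := measurableSet_Ioi.diff hA
  have hPpos : ∀ α ∈ P, 0 < α := fun α hα => hα.1
  refine ⟨(Rem c p P)ᶜ, ((measurableSet_Hull hc hp).diff
    (measurableSet_Del hk hc hp hPm)).compl, ?_⟩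
  ext α
  constructor
  · rintro ⟨hα0, hα⟩
    rcases eq_or_lt_of_le hα0 with h | h
    · rw [← h]; exact h0A
    · by_contra hαA
      obtain ⟨x, hx⟩ := hps α hα0
      have hxP : p x ∈ P := by rw [hx]; exact ⟨h, hαA⟩
      obtain ⟨h1, h2, h3⟩ := killed hk hPpos x hxP
      obtain ⟨y, hy, hxy⟩ := hα (c x) h1
      rcases abs_choice (c x - y) with h4 | h4
      · apply hy
        have : y = c x - p x := by rw [hx, ← hxy, h4]; ring
        rw [this]; exact h3
      · apply hy
        have : y = c x + p x := by rw [hx, ← hxy, h4]; ring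
        rw [this]; exact h2
  · intro hα
    have hα0 : 0 ≤ α := hAnn hα
    refine ⟨hα0, ?_⟩
    intro x hx
    by_contra hcon
    push Not at hcon
    have h1 : x + α ∈ Rem c p P := by
      by_contra h
      exact hcon (x + α) h (by rw [show x - (x + α) = -α by ring, abs_neg, abs_of_nonneg hα0])
    have h2 : x - α ∈ Rem c p P := by
      by_contra h
      exact hcon (x - α) h (by rw [show x - (x - α) = α by ring, abs_of_nonneg hα0])
    have h3 := only_killed hk hp0 h1 h2 (by
      have : (x + α + (x - α)) / 2 = x := by ring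
      rw [this]; exact hx)
    have h4 : |x + α - (x - α)| / 2 = α := by
      rw [show x + α - (x - α) = 2 * α by ring, abs_of_nonneg (by linarith)]; ring
    rw [h4] at h3
    exact h3.2 hα

end Pool.Agent.S03931
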