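import Pool.Statements.S03936

set_option autoImplicit false
open MeasureTheory
open Pool Pool.MP_be6048_an

namespace Pool.Agent.S03936

open Polynomial
open scoped Pointwise


/-- TV bound on subintervals by counting critical points -/
lemma tv_aux (A : ℝ[X]) (hA : A.derivative ≠ 0) (M : ℝ) :
    ∀ k : ℕ, ∀ a b : ℝ, a ≤ b → (∀ x ∈ Set.Icc a b, |A.eval x| ≤ M) →
      (A.derivative.roots.toFinset.filter (fun c => a < c ∧ c < b)).card ≤ k →
      ∫ x in a..b, |A.derivative.eval x| ≤ 2 * M * (k + 1) := by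
  intro k
  induction k using Nat.strong_induction_on with
  | _ k ih =>
    intro a b hab hM hk
    have hcont : Continuous fun x : ℝ => A.derivative.eval x := A.derivative.continuous
    by_cases hroot : ∃ c, a < c ∧ c < b ∧ A.derivative.eval c = 0
    · obtain ⟨c, hac, hcb, hc⟩ := hroot
      have hcmem : c ∈ A.derivative.roots.toFinset := by
        rw [Multiset.mem_toFinset, mem_roots hA]; exact hc
      set k1 := (A.derivative.roots.toFinset.filter (fun y => a < y ∧ y < c)).card with hk1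
      set k2 := (A.derivative.roots.toFinset.filter (fun y => c < y ∧ y < b)).card with hk2
      have hsum : k1 + k2 + 1 ≤ k := by
        refine le_trans ?_ hk
        have hd1 : Disjoint (A.derivative.roots.toFinset.filter (fun y => a < y ∧ y < c))
            (A.derivative.roots.toFinset.filter (fun y => c < y ∧ y < b)) := by
          rw [Finset.disjoint_left]
          intro y h1 h2
          have := (Finset.mem_filter.mp h1).2.2
          have := (Finset.mem_filter.mp h2).2.1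
          linarith
        have hd2 : c ∉ (A.derivative.roots.toFinset.filter (fun y => a < y ∧ y < c)) ∪
            (A.derivative.roots.toFinset.filter (fun y => c < y ∧ y < b)) := by
          intro h
          rcases Finset.mem_union.mp h with h | h
          · have := (Finset.mem_filter.mp h).2.2; linarith
          · have := (Finset.mem_filter.mp h).2.1; linarith
        rw [hk1, hk2, ← Finset.card_union_of_disjoint hd1, ← Finset.card_insert_of_notMem hd2]
        apply Finset.card_le_card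
        intro y hy
        rcases Finset.mem_insert.mp hy with rfl | hy
        · exact Finset.mem_filter.mpr ⟨hcmem, hac, hcb⟩
        · rcases Finset.mem_union.mp hy with hy | hy
          · obtain ⟨h1, h2, h3⟩ := Finset.mem_filter.mp hy
            exact Finset.mem_filter.mpr ⟨h1, h2, by linarith⟩
          · obtain ⟨h1, h2, h3⟩ := Finset.mem_filter.mp hy
            exact Finset.mem_filter.mpr ⟨h1, by linarith, h3⟩
      have i1 := ih k1 (by omega) a c hac.le (fun x hx => hM x ⟨hx.1, hx.2.trans hcb.le⟩) le_rfl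
      have i2 := ih k2 (by omega) c b hcb.le (fun x hx => hM x ⟨hac.le.trans hx.1, hx.2⟩) le_rfl
      rw [← intervalIntegral.integral_add_adjacent_intervals (b := c)
        (hcont.abs.intervalIntegrable _ _) (hcont.abs.intervalIntegrable _ _)]
      have hM0 : 0 ≤ M := le_trans (abs_nonneg _) (hM a ⟨le_rfl, hab⟩)
      have hs : (k1 : ℝ) + k2 + 1 ≤ k := by exact_mod_cast hsum
      nlinarith
    · push Not at hroot
      -- the derivative has constant sign
      have hM0 : 0 ≤ M := le_trans (abs_nonneg _) (hM a ⟨le_rfl, hab⟩)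
      have hFTC : ∫ x in a..b, A.derivative.eval x = A.eval b - A.eval a := by
        apply intervalIntegral.integral_eq_sub_of_hasDerivAt
        · intro x _
          exact A.hasDerivAt x
        · exact hcont.intervalIntegrable _ _
      have hb1 := abs_le.mp (hM b ⟨hab, le_rfl⟩)
      have ha1 := abs_le.mp (hM a ⟨le_rfl, hab⟩)
      have hk0 : (0 : ℝ) ≤ k := Nat.cast_nonneg k
      rcases eq_or_lt_of_le hab with rfl | hlt
      · simp; positivity
      have hsign : (∀ x ∈ Set.Ioo a b, 0 < A.derivative.eval x) ∨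
          (∀ x ∈ Set.Ioo a b, A.derivative.eval x < 0) := by
        by_contra hcon
        push Not at hcon
        obtain ⟨⟨x, hx, hx1⟩, ⟨y, hy, hy1⟩⟩ := hcon
        have hpc : IsPreconnected (Set.Ioo a b) := isPreconnected_Ioo
        have := hpc.intermediate_value hx hy hcont.continuousOn
        obtain ⟨c, hc, hc0⟩ := this ⟨hx1, hy1⟩
        exact hroot c hc.1 hc.2 hc0
      have key : ∫ x in a..b, |A.derivative.eval x| ≤ 2 * M := by
        rcases hsign with hs | hs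
        · have : ∫ x in a..b, |A.derivative.eval x| = ∫ x in a..b, A.derivative.eval x := by
            apply intervalIntegral.integral_congr_ae
            have h1 : ∀ᵐ x : ℝ, x ≠ b := by
              simp [ae_iff, measure_singleton]
            filter_upwards [h1] with x hxb hx
            rw [Set.uIoc_of_le hab] at hx
            exact abs_of_pos (hs x ⟨hx.1, lt_of_le_of_ne hx.2 hxb⟩)
          rw [this, hFTC]; linarith
        · have : ∫ x in a..b, |A.derivative.eval x| = ∫ x in a..b, -A.derivative.eval x := by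
            apply intervalIntegral.integral_congr_ae
            have h1 : ∀ᵐ x : ℝ, x ≠ b := by
              simp [ae_iff, measure_singleton]
            filter_upwards [h1] with x hxb hx
            rw [Set.uIoc_of_le hab] at hx
            exact abs_of_neg (hs x ⟨hx.1, lt_of_le_of_ne hx.2 hxb⟩)
          rw [this, intervalIntegral.integral_neg, hFTC]; linarith
      nlinarith

lemma tv (A : ℝ[X]) (m : ℕ) (hm : 1 ≤ m) (hdeg : A.natDegree ≤ m) (M : ℝ)
    (hM : ∀ x ∈ Set.Icc (-1 : ℝ) 1, |A.eval x| ≤ M) :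
    ∫ x in (-1 : ℝ)..1, |A.derivative.eval x| ≤ 2 * m * M := by
  have hM0 : 0 ≤ M := le_trans (abs_nonneg _) (hM 0 (by norm_num))
  by_cases hA : A.derivative = 0
  · simp [hA]; positivity
  · have hcard : (A.derivative.roots.toFinset.filter (fun c => (-1 : ℝ) < c ∧ c < 1)).card ≤ m - 1 := by
      refine (Finset.card_filter_le _ _).trans ?_
      refine (Multiset.toFinset_card_le _).trans ?_
      refine (card_roots' _).trans ?_
      exact (natDegree_derivative_le _).trans (by omega)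
    have := tv_aux A hA M (m - 1) (-1) 1 (by norm_num) hM hcard
    have e : ((m - 1 : ℕ) : ℝ) + 1 = m := by
      rw [Nat.cast_sub hm]; simp
    rw [e] at this
    linarith

lemma cheb (A : ℝ[X]) (m : ℕ) (hdeg : A.natDegree ≤ m) (hc : A.coeff m = 1) (M : ℝ)
    (hM : ∀ x ∈ Set.Icc (-1 : ℝ) 1, |A.eval x| ≤ M) : 1 ≤ 2 ^ (m - 1) * M := by
  have hM0 : 0 ≤ M := le_trans (abs_nonneg _) (hM 0 (by norm_num))
  have hMpos : 0 < M := by
    rcases eq_or_lt_of_le hM0 with h | h
    · exfalso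
      have hz : A = 0 := by
        apply Polynomial.eq_zero_of_infinite_isRoot
        apply (Set.Icc_infinite (by norm_num : (-1 : ℝ) < 1)).mono
        intro x hx
        have := hM x hx
        rw [← h] at this
        exact abs_eq_zero.mp (le_antisymm this (abs_nonneg _))
      rw [hz] at hc
      simp at hc
    · exact h
  have h1 := Chebyshev.coeff_le_of_forall_abs_le_one (n := m) (P := C M⁻¹ * A) (by
    rw [degree_C_mul (inv_ne_zero hMpos.ne')]
    exact natDegree_le_iff_degree_le.mp hdeg) (by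
    intro x hx
    rw [eval_mul, eval_C, abs_mul, abs_of_pos (inv_pos.mpr hMpos)]
    have := hM x hx
    rw [inv_mul_le_iff₀ hMpos]
    linarith)
  rw [coeff_C_mul, hc, mul_one] at h1
  rw [inv_le_iff_one_le_mul₀ hMpos] at h1
  exact h1



/-- sup norm on [-1,1] -/
noncomputable def Dn (Q : ℂ[X]) : ℝ := sSup ((fun x : ℝ => ‖Q.eval (x : ℂ)‖) '' Set.Icc (-1) 1)

/-- L1 norm of the derivative on [-1,1] -/
noncomputable def Nn (Q : ℂ[X]) : ℝ := ∫ x in (-1 : ℝ)..1, ‖Q.derivative.eval (x : ℂ)‖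

lemma cont_eval (Q : ℂ[X]) : Continuous fun x : ℝ => Q.eval (x : ℂ) :=
  Q.continuous.comp Complex.continuous_ofReal

lemma Dn_bdd (Q : ℂ[X]) : BddAbove ((fun x : ℝ => ‖Q.eval (x : ℂ)‖) '' Set.Icc (-1) 1) :=
  (isCompact_Icc.image (cont_eval Q).norm).bddAbove

lemma le_Dn (Q : ℂ[X]) (x : ℝ) (hx : x ∈ Set.Icc (-1 : ℝ) 1) : ‖Q.eval (x : ℂ)‖ ≤ Dn Q :=
  le_csSup (Dn_bdd Q) ⟨x, hx, rfl⟩

lemma Dn_le (Q : ℂ[X]) (M : ℝ) (h : ∀ x ∈ Set.Icc (-1 : ℝ) 1, ‖Q.eval (x : ℂ)‖ ≤ M) : Dn Q ≤ M := by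
  apply csSup_le
  · exact ⟨_, 0, by norm_num, rfl⟩
  · rintro _ ⟨x, hx, rfl⟩
    exact h x hx

lemma Dn_attained (Q : ℂ[X]) : ∃ x ∈ Set.Icc (-1 : ℝ) 1, ‖Q.eval (x : ℂ)‖ = Dn Q := by
  have := (isCompact_Icc.image (cont_eval Q).norm (s := Set.Icc (-1 : ℝ) 1)).sSup_mem
    ⟨_, 0, by norm_num, rfl⟩
  obtain ⟨x, hx, h⟩ := this
  exact ⟨x, hx, h⟩

/-- real part polynomial -/
noncomputable def reP (Q : ℂ[X]) : ℝ[X] := ∑ i ∈ Finset.range (Q.natDegree + 1), C (Q.coeff i).re * X ^ i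
noncomputable def imP (Q : ℂ[X]) : ℝ[X] := ∑ i ∈ Finset.range (Q.natDegree + 1), C (Q.coeff i).im * X ^ i

lemma re_im_decomp (Q : ℂ[X]) :
    Q = (reP Q).map Complex.ofRealHom + C Complex.I * (imP Q).map Complex.ofRealHom := by
  conv_lhs => rw [Q.as_sum_range_C_mul_X_pow]
  unfold reP imP
  rw [Polynomial.map_sum, Polynomial.map_sum, Finset.mul_sum, ← Finset.sum_add_distrib]
  apply Finset.sum_congr rfl
  intro i _
  simp only [Polynomial.map_mul, Polynomial.map_pow, map_X, map_C, Complex.ofRealHom_eq_coe]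
  rw [← mul_assoc, ← add_mul, ← C_mul, ← C_add]
  congr 2
  rw [mul_comm]
  exact (Complex.re_add_im _).symm

lemma eval_map_ofReal (A : ℝ[X]) (x : ℝ) :
    (A.map Complex.ofRealHom).eval (x : ℂ) = ((A.eval x : ℝ) : ℂ) := by
  rw [eval_map]
  exact (Polynomial.hom_eval₂ A (RingHom.id ℝ) Complex.ofRealHom x).symm ▸ by
    rw [eval₂_id]; rfl

lemma eval_decomp (Q : ℂ[X]) (x : ℝ) :
    Q.eval (x : ℂ) = (((reP Q).eval x : ℝ) : ℂ) + Complex.I * (((imP Q).eval x : ℝ) : ℂ) := by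
  conv_lhs => rw [re_im_decomp Q]
  rw [eval_add, eval_mul, eval_C, eval_map_ofReal, eval_map_ofReal]

lemma deriv_eval_decomp (Q : ℂ[X]) (x : ℝ) :
    Q.derivative.eval (x : ℂ) = (((reP Q).derivative.eval x : ℝ) : ℂ) +
      Complex.I * (((imP Q).derivative.eval x : ℝ) : ℂ) := by
  conv_lhs => rw [re_im_decomp Q]
  rw [derivative_add, derivative_C_mul, derivative_map, derivative_map, eval_add, eval_mul, eval_C,
    eval_map_ofReal, eval_map_ofReal]

lemma natDegree_reP (Q : ℂ[X]) : (reP Q).natDegree ≤ Q.natDegree := by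
  unfold reP
  apply natDegree_sum_le_of_forall_le
  intro i hi
  refine (natDegree_C_mul_X_pow_le _ _).trans ?_
  exact Nat.lt_succ_iff.mp (Finset.mem_range.mp hi)

lemma natDegree_imP (Q : ℂ[X]) : (imP Q).natDegree ≤ Q.natDegree := by
  unfold imP
  apply natDegree_sum_le_of_forall_le
  intro i hi
  refine (natDegree_C_mul_X_pow_le _ _).trans ?_
  exact Nat.lt_succ_iff.mp (Finset.mem_range.mp hi)

lemma coeff_reP (Q : ℂ[X]) : (reP Q).coeff Q.natDegree = (Q.leadingCoeff).re := by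
  unfold reP
  rw [finsetSum_coeff]
  rw [Finset.sum_eq_single Q.natDegree]
  · simp
  · intro b _ hb
    rw [coeff_C_mul, coeff_X_pow, if_neg (Ne.symm hb), mul_zero]
  · intro h
    exact absurd (Finset.mem_range.mpr (Nat.lt_succ_self _)) h

lemma prod_diff (f : ℂ → ℝ) (δ : ℝ) (hδ : δ ≤ 1) (x : ℝ) (hx : x ∈ Set.Icc (-1 : ℝ) 1)
    (s : Multiset ℂ) (hs : ∀ w ∈ s, f w ∈ Set.Icc (-1 : ℝ) 1 ∧ ‖w - f w‖ ≤ δ) :
    ‖(s.map (fun w => (x : ℂ) - w)).prod - (((s.map (fun w => x - f w)).prod : ℝ) : ℂ)‖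
      ≤ s.card * 3 ^ s.card * δ ∧ |(s.map (fun w => x - f w)).prod| ≤ 3 ^ s.card := by
  induction s using Multiset.induction_on with
  | empty => simp
  | cons w s ih =>
    obtain ⟨ih1, ih2⟩ := ih (fun u hu => hs u (Multiset.mem_cons_of_mem hu))
    obtain ⟨hf, hw⟩ := hs w (Multiset.mem_cons_self w s)
    have hδ0 : 0 ≤ δ := (norm_nonneg _).trans hw
    have hxf : |x - f w| ≤ 2 := by
      rw [abs_le]; constructor <;> linarith [hx.1, hx.2, hf.1, hf.2]
    have hxw : ‖(x : ℂ) - w‖ ≤ 3 := by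
      have e : (x : ℂ) - w = ((x - f w : ℝ) : ℂ) - (w - f w) := by push_cast; ring
      rw [e]
      refine (norm_sub_le _ _).trans ?_
      rw [Complex.norm_real, Real.norm_eq_abs]
      linarith
    simp only [Multiset.map_cons, Multiset.prod_cons, Multiset.card_cons]
    set p := (s.map (fun w => (x : ℂ) - w)).prod
    set q := (s.map (fun w => x - f w)).prod
    constructor
    · have e : ((x : ℂ) - w) * p - (((x - f w) * q : ℝ) : ℂ) =
          ((x : ℂ) - w) * (p - (q : ℂ)) - (w - f w) * (q : ℂ) := by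
        push_cast; ring
      rw [e]
      refine (norm_sub_le _ _).trans ?_
      rw [norm_mul, norm_mul, Complex.norm_real, Real.norm_eq_abs]
      have h1 : ‖(x : ℂ) - w‖ * ‖p - (q : ℂ)‖ ≤ 3 * (s.card * 3 ^ s.card * δ) :=
        mul_le_mul hxw ih1 (norm_nonneg _) (by norm_num)
      have h2 : ‖w - f w‖ * |q| ≤ δ * 3 ^ s.card :=
        mul_le_mul hw ih2 (abs_nonneg _) hδ0
      have h3 : (0 : ℝ) ≤ δ * 3 ^ s.card := by positivity
      push_cast
      rw [pow_succ]
      nlinarith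
    · rw [abs_mul, pow_succ]
      have : |x - f w| * |q| ≤ 2 * 3 ^ s.card :=
        mul_le_mul hxf ih2 (abs_nonneg _) (by norm_num)
      have h3 : (0 : ℝ) ≤ 3 ^ s.card := by positivity
      nlinarith

/-- key estimate: all zeros near `[-1,1]` forces ratio about at most `2m`. -/
lemma near (Q : ℂ[X]) (m : ℕ) (hm : 1 ≤ m) (hQm : Q.Monic) (hdeg : Q.natDegree = m) (δ : ℝ) (hδ : δ ≤ 1)
    (f : ℂ → ℝ) (hroots : ∀ w ∈ Q.roots, f w ∈ Set.Icc (-1 : ℝ) 1 ∧ ‖w - f w‖ ≤ δ) :
    Nn Q ≤ 2 * m * (1 + m * 3 ^ m * δ * 2 ^ (m - 1)) * Dn Q := by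
  have hsplit : Q = (Q.roots.map (fun w => X - C w)).prod :=
    (IsAlgClosed.splits Q).eq_prod_roots_of_monic hQm
  have hcard : Q.roots.card = m := by
    rw [← hdeg]
    exact (IsAlgClosed.splits Q).natDegree_eq_card_roots.symm
  have heval : ∀ x : ℝ, Q.eval (x : ℂ) = (Q.roots.map (fun w => (x : ℂ) - w)).prod := by
    intro x
    conv_lhs => rw [hsplit]
    rw [eval_multiset_prod, Multiset.map_map]
    congr 1
    apply Multiset.map_congr rfl
    intro w _
    simp
  -- nonneg of δ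
  have hδ0 : 0 ≤ δ := by
    have : 0 < Q.roots.card := by omega
    obtain ⟨w, hw⟩ := Multiset.card_pos_iff_exists_mem.mp this
    exact (norm_nonneg _).trans (hroots w hw).2
  have hRe : ∀ x ∈ Set.Icc (-1 : ℝ) 1, |(reP Q).eval x| ≤ Dn Q := by
    intro x hx
    refine le_trans ?_ (le_Dn Q x hx)
    have : (reP Q).eval x = (Q.eval (x : ℂ)).re := by
      rw [eval_decomp]; simp
    rw [this]
    exact Complex.abs_re_le_norm _
  have hIm : ∀ x ∈ Set.Icc (-1 : ℝ) 1, |(imP Q).eval x| ≤ m * 3 ^ m * δ := by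
    intro x hx
    have h1 : (imP Q).eval x = (Q.eval (x : ℂ)).im := by
      rw [eval_decomp]; simp
    obtain ⟨h2, -⟩ := prod_diff f δ hδ x hx Q.roots hroots
    rw [hcard, ← heval x] at h2
    refine le_trans ?_ h2
    rw [h1]
    have h3 : (Q.eval (x : ℂ)).im = (Q.eval (x : ℂ) - (((Q.roots.map (fun w => x - f w)).prod : ℝ) : ℂ)).im := by
      simp
    rw [h3]
    exact Complex.abs_im_le_norm _
  have hN : Nn Q ≤ (∫ x in (-1 : ℝ)..1, |(reP Q).derivative.eval x|) +
      ∫ x in (-1 : ℝ)..1, |(imP Q).derivative.eval x| := by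
    unfold Nn
    rw [← intervalIntegral.integral_add]
    · apply intervalIntegral.integral_mono_on (by norm_num)
      · exact ((cont_eval _).norm).intervalIntegrable _ _
      · exact (((reP Q).derivative.continuous.abs).add ((imP Q).derivative.continuous.abs)).intervalIntegrable _ _
      · intro x _
        rw [deriv_eval_decomp]
        refine (norm_add_le _ _).trans ?_
        rw [norm_mul, Complex.norm_I, one_mul, Complex.norm_real, Complex.norm_real,
          Real.norm_eq_abs, Real.norm_eq_abs]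
    · exact ((reP Q).derivative.continuous.abs).intervalIntegrable _ _
    · exact ((imP Q).derivative.continuous.abs).intervalIntegrable _ _
  have t1 := tv (reP Q) m hm (by rw [← hdeg]; exact natDegree_reP Q) _ hRe
  have t2 := tv (imP Q) m hm (by rw [← hdeg]; exact natDegree_imP Q) _ hIm
  have hch := cheb (reP Q) m (by rw [← hdeg]; exact natDegree_reP Q) (by
    rw [← hdeg, coeff_reP, hQm.leadingCoeff]; simp) _ hRe
  have hE : (0 : ℝ) ≤ m * 3 ^ m * δ := by positivity
  have hm0 : (0 : ℝ) ≤ m := Nat.cast_nonneg m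
  calc Nn Q ≤ 2 * m * Dn Q + 2 * m * (m * 3 ^ m * δ) := by linarith
    _ ≤ 2 * m * Dn Q + 2 * m * ((m * 3 ^ m * δ) * (2 ^ (m - 1) * Dn Q)) := by
      have : (m * 3 ^ m * δ) * 1 ≤ (m * 3 ^ m * δ) * (2 ^ (m - 1) * Dn Q) :=
        mul_le_mul_of_nonneg_left hch hE
      nlinarith
    _ = 2 * m * (1 + m * 3 ^ m * δ * 2 ^ (m - 1)) * Dn Q := by ring



lemma Nn_C_mul (c : ℂ) (Q : ℂ[X]) : Nn (C c * Q) = ‖c‖ * Nn Q := by
  unfold Nn
  rw [← intervalIntegral.integral_const_mul]
  congr 1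
  ext x
  rw [derivative_C_mul, eval_mul, eval_C, norm_mul]

lemma Dn_C_mul (c : ℂ) (Q : ℂ[X]) : Dn (C c * Q) = ‖c‖ * Dn Q := by
  unfold Dn
  have : (fun x : ℝ => ‖(C c * Q).eval (x : ℂ)‖) = fun x : ℝ => ‖c‖ • ‖Q.eval (x : ℂ)‖ := by
    ext x
    rw [eval_mul, eval_C, norm_mul, smul_eq_mul]
  rw [this]
  have h2 : (fun x : ℝ => ‖c‖ • ‖Q.eval (x : ℂ)‖) '' Set.Icc (-1) 1 =
      ‖c‖ • ((fun x : ℝ => ‖Q.eval (x : ℂ)‖) '' Set.Icc (-1) 1) := by
    rw [← Set.image_smul, Set.image_image]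
  rw [h2, Real.sSup_smul_of_nonneg (norm_nonneg _), smul_eq_mul]

/-- the family of normalised polynomials -/
noncomputable def fam (m : ℕ) (u : Fin m → ℂ) : ℂ[X] := ∏ i, (1 - C (u i) * X)

lemma fam_eval_zero (m : ℕ) (u : Fin m → ℂ) : (fam m u).eval 0 = 1 := by
  unfold fam
  rw [eval_prod]
  simp

lemma one_le_Dn_fam (m : ℕ) (u : Fin m → ℂ) : 1 ≤ Dn (fam m u) := by
  have := le_Dn (fam m u) 0 (by norm_num)
  rw [Complex.ofReal_zero, fam_eval_zero, norm_one] at this
  exact this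

lemma fam_eval (m : ℕ) (u : Fin m → ℂ) (x : ℂ) : (fam m u).eval x = ∏ i, (1 - u i * x) := by
  unfold fam
  rw [eval_prod]
  simp

lemma fam_deriv_eval (m : ℕ) (u : Fin m → ℂ) (x : ℂ) :
    (fam m u).derivative.eval x = ∑ i, (∏ j ∈ Finset.univ.erase i, (1 - u j * x)) * (-u i) := by
  unfold fam
  rw [derivative_prod_finset]
  rw [eval_finsetSum]
  apply Finset.sum_congr rfl
  intro i _
  rw [eval_mul, eval_prod]
  simp

lemma cont_Nn_fam (m : ℕ) : Continuous fun u : Fin m → ℂ => Nn (fam m u) := by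
  unfold Nn
  simp_rw [fam_deriv_eval]
  apply intervalIntegral.continuous_parametric_intervalIntegral_of_continuous'
  fun_prop

lemma cont_Dn_fam (m : ℕ) : Continuous fun u : Fin m → ℂ => Dn (fam m u) := by
  unfold Dn
  simp_rw [fam_eval]
  apply IsCompact.continuous_sSup isCompact_Icc
  fun_prop

/-- the admissible parameters -/
def Us (G : Set ℂ) : Set ℂ := {u | u = 0 ∨ u⁻¹ ∉ G}

lemma Us_closed (G : Set ℂ) (hG : IsOpen G) : IsClosed (Us G) := by
  have h : (Us G)ᶜ = {0}ᶜ ∩ (fun u : ℂ => u⁻¹) ⁻¹' G := by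
    ext u
    simp [Us]
  rw [← isOpen_compl_iff, h]
  exact ContinuousOn.isOpen_inter_preimage continuousOn_inv₀ isOpen_compl_singleton hG

lemma Us_bdd (G : Set ℂ) (δ : ℝ) (hδ : 0 < δ) (hG : Metric.ball (0 : ℂ) δ ⊆ G) :
    Bornology.IsBounded (Us G) := by
  apply (Metric.isBounded_closedBall (x := (0 : ℂ)) (r := δ⁻¹)).subset
  intro u hu
  rw [mem_closedBall_zero_iff]
  rcases hu with rfl | hu
  · simp; positivity
  · by_contra hcon
    push Not at hcon
    apply hu
    apply hG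
    rw [mem_ball_zero_iff, norm_inv]
    exact inv_lt_of_inv_lt₀ hδ hcon

lemma Us_compact (G : Set ℂ) (hGo : IsOpen G) (δ : ℝ) (hδ : 0 < δ) (hG : Metric.ball (0 : ℂ) δ ⊆ G) :
    IsCompact (Us G) :=
  Metric.isCompact_of_isClosed_isBounded (Us_closed G hGo) (Us_bdd G δ hδ hG)

lemma exists_max (m : ℕ) (G : Set ℂ) (hGo : IsOpen G) (δ : ℝ) (hδ : 0 < δ)
    (hG : Metric.ball (0 : ℂ) δ ⊆ G) :
    ∃ u : Fin m → ℂ, (∀ i, u i ∈ Us G) ∧ ∀ v : Fin m → ℂ, (∀ i, v i ∈ Us G) →
      Nn (fam m v) / Dn (fam m v) ≤ Nn (fam m u) / Dn (fam m u) := by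
  have hK : IsCompact (Set.pi Set.univ (fun _ : Fin m => Us G)) :=
    isCompact_univ_pi (fun _ => Us_compact G hGo δ hδ hG)
  have hne : (Set.pi Set.univ (fun _ : Fin m => Us G)).Nonempty :=
    ⟨fun _ => 0, fun _ _ => Or.inl rfl⟩
  have hcont : Continuous fun u : Fin m → ℂ => Nn (fam m u) / Dn (fam m u) := by
    apply (cont_Nn_fam m).div (cont_Dn_fam m)
    intro u
    have := one_le_Dn_fam m u
    linarith
  obtain ⟨u, hu, hmax⟩ := hK.exists_isMaxOn hne hcont.continuousOn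
  refine ⟨u, fun i => hu i (Set.mem_univ i), ?_⟩
  intro v hv
  exact hmax (fun i _ => hv i)

/-- Factorisation of polynomials without zeros in `G`. -/
lemma exists_fam (G : Set ℂ) (h0 : (0 : ℂ) ∈ G) : ∀ m : ℕ, ∀ Q : ℂ[X], Q.natDegree ≤ m →
    (∀ z ∈ G, Q.eval z ≠ 0) → ∃ u : Fin m → ℂ, (∀ i, u i ∈ Us G) ∧ Q = C (Q.eval 0) * fam m u := by
  intro m
  induction m with
  | zero =>
    intro Q hQ _
    refine ⟨Fin.elim0, fun i => Fin.elim0 i, ?_⟩
    have := Polynomial.eq_C_of_natDegree_le_zero hQ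
    rw [this]
    simp [fam]
  | succ m ih =>
    intro Q hQ hz
    by_cases hd : Q.natDegree ≤ m
    · obtain ⟨u, hu, hQu⟩ := ih Q hd hz
      refine ⟨Fin.cons 0 u, ?_, ?_⟩
      · intro i
        refine Fin.cases ?_ ?_ i
        · left; rfl
        · intro j; simpa using hu j
      · conv_lhs => rw [hQu]
        congr 1
        unfold fam
        rw [Fin.prod_univ_succ]
        simp
    · have hdeg : Q.natDegree = m + 1 := by omega
      obtain ⟨w, hw⟩ := IsAlgClosed.exists_root Q (by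
        intro h
        have := natDegree_eq_zero_iff_degree_le_zero.mpr h.le
        omega)
      obtain ⟨Q1, hQ1⟩ := dvd_iff_isRoot.mpr hw
      have hwG : w ∉ G := fun h => hz w h hw
      have hw0 : w ≠ 0 := fun h => hwG (h ▸ h0)
      have hQ1ne : Q1 ≠ 0 := by
        rintro rfl
        rw [mul_zero] at hQ1
        rw [hQ1] at hdeg
        simp at hdeg
      have hQ1d : Q1.natDegree ≤ m := by
        have := natDegree_mul (X_sub_C_ne_zero w) hQ1ne
        rw [← hQ1, natDegree_X_sub_C, hdeg] at this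
        omega
      have hQ1z : ∀ z ∈ G, Q1.eval z ≠ 0 := by
        intro z hzG h
        apply hz z hzG
        rw [hQ1, eval_mul, h, mul_zero]
      obtain ⟨u, hu, hQu⟩ := ih Q1 hQ1d hQ1z
      refine ⟨Fin.cons w⁻¹ u, ?_, ?_⟩
      · intro i
        refine Fin.cases ?_ ?_ i
        · right; simpa using hwG
        · intro j; simpa using hu j
      · have e1 : Q.eval 0 = -w * Q1.eval 0 := by
          rw [hQ1]; simp
        rw [e1]
        have e2 : fam (m + 1) (Fin.cons w⁻¹ u) = (1 - C w⁻¹ * X) * fam m u := by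
          unfold fam
          rw [Fin.prod_univ_succ]
          simp
        rw [e2]
        conv_lhs => rw [hQ1, hQu]
        have e3 : (X - C w : ℂ[X]) = C (-w) * (1 - C w⁻¹ * X) := by
          rw [mul_sub, mul_one, ← mul_assoc, ← C_mul]
          rw [neg_mul, mul_inv_cancel₀ hw0]
          simp
          ring
        rw [e3, C_mul]
        ring



/-- the test polynomial -/
noncomputable def P0 : ℂ[X] :=
  (X ^ 2 + C (Complex.I * (1 / 10)) * X - C (17 / 20)) * (X ^ 2 + C (Complex.I * (1 / 2)) * X - C (1 / 5))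

lemma P0_natDegree : P0.natDegree ≤ 4 := by
  unfold P0
  refine natDegree_mul_le.trans ?_
  have h1 : (X ^ 2 + C (Complex.I * (1 / 10)) * X - C (17 / 20) : ℂ[X]).natDegree ≤ 2 := by
    compute_degree
  have h2 : (X ^ 2 + C (Complex.I * (1 / 2)) * X - C (1 / 5) : ℂ[X]).natDegree ≤ 2 := by
    compute_degree
  omega

lemma P0_eval (x : ℝ) : P0.eval (x : ℂ) =
    ((x ^ 4 - 11 / 10 * x ^ 2 + 17 / 100 : ℝ) : ℂ) + ((3 / 5 * x ^ 3 - 89 / 200 * x : ℝ) : ℂ) * Complex.I := by
  unfold P0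
  simp only [eval_mul, eval_add, eval_sub, eval_pow, eval_X, eval_C]
  push_cast
  linear_combination ((1 / 20 : ℂ) * x ^ 2) * Complex.I_sq

lemma quad_im (b α : ℝ) (hα : b ^ 2 < α) (z : ℂ)
    (h : z ^ 2 + (Complex.I * (2 * b)) * z - α = 0) : z.im = -b := by
  have hre := congrArg Complex.re h
  have him := congrArg Complex.im h
  simp [pow_two] at hre him
  have h1 : z.re * (z.im + b) = 0 := by linarith
  rcases mul_eq_zero.mp h1 with h2 | h2
  · rw [h2] at hre
    nlinarith [sq_nonneg (z.im + b)]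
  · linarith

lemma P0_ne (z : ℂ) (hz : |z.im| < 1 / 20) : P0.eval z ≠ 0 := by
  unfold P0
  rw [eval_mul]
  intro h
  rcases mul_eq_zero.mp h with h | h
  · have := quad_im (1 / 20) (17 / 20) (by norm_num) z (by
      simp only [eval_add, eval_sub, eval_mul, eval_pow, eval_X, eval_C] at h
      rw [← h]; push_cast; ring)
    rw [this] at hz
    norm_num [abs_lt] at hz
  · have := quad_im (1 / 4) (1 / 5) (by norm_num) z (by
      simp only [eval_add, eval_sub, eval_mul, eval_pow, eval_X, eval_C] at h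
      rw [← h]; push_cast; ring)
    rw [this] at hz
    norm_num [abs_lt] at hz

lemma P0_Dn : Dn P0 ≤ 171 / 1000 := by
  apply Dn_le
  intro x hx
  rw [P0_eval]
  apply le_of_sq_le_sq _ (by norm_num)
  rw [Complex.sq_norm, Complex.normSq_add_mul_I]
  have hs0 : 0 ≤ x ^ 2 := sq_nonneg x
  have hs1 : x ^ 2 ≤ 1 := by nlinarith [hx.1, hx.2]
  set s := x ^ 2 with hs
  have e : (x ^ 4 - 11 / 10 * x ^ 2 + 17 / 100) ^ 2 + (3 / 5 * x ^ 3 - 89 / 200 * x) ^ 2 =
      (s ^ 2 - 11 / 10 * s + 17 / 100) ^ 2 + s * (3 / 5 * s - 89 / 200) ^ 2 := by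
    rw [hs]; ring
  rw [e]
  have e2 : (171 / 1000 : ℝ) ^ 2 - ((s ^ 2 - 11 / 10 * s + 17 / 100) ^ 2 + s * (3 / 5 * s - 89 / 200) ^ 2)
      = (s - 42 / 100) ^ 2 * (s * (1 - s) + 4 / 10000) + (270440 / 10 ^ 9 - 89 / 10 ^ 6 * s) := by
    ring
  have h3 : 0 ≤ (s - 42 / 100) ^ 2 * (s * (1 - s) + 4 / 10000) := by
    have : 0 ≤ 1 - s := by linarith
    positivity
  have h4 : 0 ≤ (270440 / 10 ^ 9 - 89 / 10 ^ 6 * s) := by
    norm_num; linarith
  linarith

lemma chord (a b : ℝ) (hab : a ≤ b) (r : ℝ)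
    (h : r ^ 2 ≤ ((b ^ 4 - 11 / 10 * b ^ 2 + 17 / 100) - (a ^ 4 - 11 / 10 * a ^ 2 + 17 / 100)) ^ 2 +
      ((3 / 5 * b ^ 3 - 89 / 200 * b) - (3 / 5 * a ^ 3 - 89 / 200 * a)) ^ 2) :
    r ≤ ∫ x in a..b, ‖P0.derivative.eval (x : ℂ)‖ := by
  have h1 : ‖∫ x in a..b, P0.derivative.eval (x : ℂ)‖ ≤ ∫ x in a..b, ‖P0.derivative.eval (x : ℂ)‖ :=
    intervalIntegral.norm_integral_le_integral_norm hab
  refine le_trans ?_ h1
  have h2 : ∫ x in a..b, P0.derivative.eval (x : ℂ) = P0.eval (b : ℂ) - P0.eval (a : ℂ) := by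
    apply intervalIntegral.integral_eq_sub_of_hasDerivAt (f := fun x : ℝ => P0.eval (x : ℂ))
    · intro x _
      exact (P0.hasDerivAt (x : ℂ)).comp_ofReal
    · exact (cont_eval _).intervalIntegrable _ _
  rw [h2, P0_eval, P0_eval]
  apply le_of_sq_le_sq _ (norm_nonneg _)
  have e : (((b ^ 4 - 11 / 10 * b ^ 2 + 17 / 100 : ℝ) : ℂ) + ((3 / 5 * b ^ 3 - 89 / 200 * b : ℝ) : ℂ) * Complex.I
    - (((a ^ 4 - 11 / 10 * a ^ 2 + 17 / 100 : ℝ) : ℂ) + ((3 / 5 * a ^ 3 - 89 / 200 * a : ℝ) : ℂ) * Complex.I))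
    = (((b ^ 4 - 11 / 10 * b ^ 2 + 17 / 100) - (a ^ 4 - 11 / 10 * a ^ 2 + 17 / 100) : ℝ) : ℂ) +
      (((3 / 5 * b ^ 3 - 89 / 200 * b) - (3 / 5 * a ^ 3 - 89 / 200 * a) : ℝ) : ℂ) * Complex.I := by
    push_cast; ring
  rw [e, Complex.sq_norm, Complex.normSq_add_mul_I]
  exact h



lemma eLp_one (Q : ℂ[X]) :
    eLpNorm (fun x : ℝ => ((⇑Polynomial.derivative)^[1] Q).eval (x : ℂ)) 1
      (volume.restrict (Set.Icc (-1 : ℝ) 1)) = ENNReal.ofReal (Nn Q) := by
  simp only [Function.iterate_one]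
  rw [eLpNorm_one_eq_lintegral_enorm]
  unfold Nn
  rw [intervalIntegral.integral_of_le (by norm_num), ← integral_Icc_eq_integral_Ioc]
  rw [ofReal_integral_norm_eq_lintegral_enorm]
  exact ((cont_eval _).continuousOn.integrableOn_compact isCompact_Icc)

lemma eLp_top (Q : ℂ[X]) :
    eLpNorm (fun x : ℝ => Q.eval (x : ℂ)) ⊤
      (volume.restrict (Set.Icc (-1 : ℝ) 1)) = ENNReal.ofReal (Dn Q) := by
  rw [eLpNorm_exponent_top]
  apply le_antisymm
  · apply eLpNormEssSup_le_of_ae_bound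
    filter_upwards [ae_restrict_mem measurableSet_Icc] with x hx
    exact le_Dn Q x hx
  · -- everywhere bounded by the essential supremum
    set c := eLpNormEssSup (fun x : ℝ => Q.eval (x : ℂ)) (volume.restrict (Set.Icc (-1 : ℝ) 1)) with hc
    by_cases hct : c = ⊤
    · rw [hct]; exact le_top
    have hbound : ∀ x ∈ Set.Icc (-1 : ℝ) 1, ‖Q.eval (x : ℂ)‖ ≤ c.toReal := by
      have hae : ∀ᵐ x : ℝ ∂(volume.restrict (Set.Icc (-1 : ℝ) 1)), ‖Q.eval (x : ℂ)‖ₑ ≤ c :=
        ae_le_eLpNormEssSup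
      have hae2 : ∀ᵐ x : ℝ ∂(volume.restrict (Set.Ioo (-1 : ℝ) 1)), ‖Q.eval (x : ℂ)‖ₑ ≤ c :=
        ae_restrict_of_ae_restrict_of_subset Set.Ioo_subset_Icc_self hae
      have hcl : IsClosed {x : ℝ | ‖Q.eval (x : ℂ)‖ₑ ≤ c} :=
        isClosed_le (cont_eval Q).enorm continuous_const
      -- the open set where the bound fails inside Ioo has measure zero so is empty
      have hopen : IsOpen (Set.Ioo (-1 : ℝ) 1 ∩ {x : ℝ | ‖Q.eval (x : ℂ)‖ₑ ≤ c}ᶜ) :=
        isOpen_Ioo.inter hcl.isOpen_compl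
      have hzero : volume (Set.Ioo (-1 : ℝ) 1 ∩ {x : ℝ | ‖Q.eval (x : ℂ)‖ₑ ≤ c}ᶜ) = 0 := by
        rw [ae_iff, Measure.restrict_apply' measurableSet_Ioo] at hae2
        rw [Set.inter_comm]
        exact hae2
      have hempty := (hopen.measure_eq_zero_iff volume).mp hzero
      have hIoo : Set.Ioo (-1 : ℝ) 1 ⊆ {x : ℝ | ‖Q.eval (x : ℂ)‖ₑ ≤ c} := by
        intro x hx
        by_contra hcon
        have : x ∈ (∅ : Set ℝ) := by rw [← hempty]; exact ⟨hx, hcon⟩
        exact this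
      have hIcc : Set.Icc (-1 : ℝ) 1 ⊆ {x : ℝ | ‖Q.eval (x : ℂ)‖ₑ ≤ c} := by
        rw [← closure_Ioo (by norm_num : (-1 : ℝ) ≠ 1)]
        exact hcl.closure_subset_iff.mpr hIoo
      intro x hx
      have := hIcc hx
      simp only [Set.mem_ofPred_eq] at this
      rw [← toReal_enorm]
      exact ENNReal.toReal_mono hct this
    have := Dn_le Q _ hbound
    calc ENNReal.ofReal (Dn Q) ≤ ENNReal.ofReal c.toReal := ENNReal.ofReal_le_ofReal this
      _ = c := ENNReal.ofReal_toReal hct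

lemma ratio_eq (Q : ℂ[X]) (hQ : 0 < Dn Q) :
    eLpNorm (fun x : ℝ => ((⇑Polynomial.derivative)^[1] Q).eval (x : ℂ)) 1
      (volume.restrict (Set.Icc (-1 : ℝ) 1)) /
    eLpNorm (fun x : ℝ => Q.eval (x : ℂ)) ⊤
      (volume.restrict (Set.Icc (-1 : ℝ) 1)) = ENNReal.ofReal (Nn Q / Dn Q) := by
  rw [eLp_one, eLp_top, ENNReal.ofReal_div_of_pos hQ]


/-- distance of zeros to the segment -/
lemma near_of_frontier (δ : ℝ) (hδ : 0 < δ) (w : ℂ)
    (hw : w ∈ frontier (Metric.thickening δ ((fun x : ℝ => (x : ℂ)) '' Set.Icc (-1) 1))) :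
    ∃ x ∈ Set.Icc (-1 : ℝ) 1, ‖w - (x : ℂ)‖ ≤ δ := by
  have h1 : w ∈ closure (Metric.thickening δ ((fun x : ℝ => (x : ℂ)) '' Set.Icc (-1) 1)) :=
    frontier_subset_closure hw
  have h2 := Metric.closure_thickening_subset_cthickening _ _ h1
  have hS : IsCompact ((fun x : ℝ => (x : ℂ)) '' Set.Icc (-1) 1) :=
    isCompact_Icc.image Complex.continuous_ofReal
  rw [hS.cthickening_eq_biUnion_closedBall hδ.le] at h2
  obtain ⟨y, hy, hwy⟩ := Set.mem_iUnion₂.mp h2
  obtain ⟨x, hx, rfl⟩ := hy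
  exact ⟨x, hx, by rwa [← mem_closedBall_iff_norm]⟩

lemma im_lt_of_mem (δ : ℝ) (z : ℂ)
    (hz : z ∈ Metric.thickening δ ((fun x : ℝ => (x : ℂ)) '' Set.Icc (-1) 1)) : |z.im| < δ := by
  obtain ⟨y, ⟨x, hx, rfl⟩, hd⟩ := Metric.mem_thickening_iff.mp hz
  rw [dist_eq_norm] at hd
  have h1 := Complex.abs_im_le_norm (z - (x : ℂ))
  simp at h1
  linarith

lemma fam_ne (m : ℕ) (G : Set ℂ) (u : Fin m → ℂ) (hu : ∀ i, u i ∈ Us G) (z : ℂ) (hz : z ∈ G) :
    (fam m u).eval z ≠ 0 := by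
  rw [fam_eval]
  rw [Finset.prod_ne_zero_iff]
  intro i _ h
  have h1 : u i * z = 1 := by linear_combination -h
  rcases hu i with h2 | h2
  · rw [h2] at h1; simp at h1
  · apply h2
    have : (u i)⁻¹ = z := inv_eq_of_mul_eq_one_right h1
    rw [this]; exact hz

lemma fam_natDegree (m : ℕ) (u : Fin m → ℂ) : (fam m u).natDegree ≤ m := by
  unfold fam
  refine (natDegree_prod_le _ _).trans ?_
  refine (Finset.sum_le_card_nsmul _ _ 1 ?_).trans (by simp)
  intro i _
  refine (natDegree_sub_le _ _).trans ?_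
  simp only [natDegree_one, zero_le, sup_of_le_right]
  exact natDegree_C_mul_le _ _ |>.trans natDegree_X_le

lemma P0_Nn : 1418 / 1000 ≤ Nn P0 := by
  unfold Nn
  have hi : ∀ a b : ℝ, IntervalIntegrable (fun x : ℝ => ‖P0.derivative.eval (x : ℂ)‖) volume a b :=
    fun a b => ((cont_eval _).norm).intervalIntegrable a b
  have c1 := chord 0 (1 / 5) (by norm_num) (94 / 1000) (by norm_num)
  have c2 := chord (1 / 5) (9 / 20) (by norm_num) (152 / 1000) (by norm_num)
  have c3 := chord (9 / 20) (13 / 20) (by norm_num) (106 / 1000) (by norm_num)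
  have c4 := chord (13 / 20) (4 / 5) (by norm_num) (76 / 1000) (by norm_num)
  have c5 := chord (4 / 5) 1 (by norm_num) (281 / 1000) (by norm_num)
  have d1 := chord (-(1 / 5)) 0 (by norm_num) (94 / 1000) (by norm_num)
  have d2 := chord (-(9 / 20)) (-(1 / 5)) (by norm_num) (152 / 1000) (by norm_num)
  have d3 := chord (-(13 / 20)) (-(9 / 20)) (by norm_num) (106 / 1000) (by norm_num)
  have d4 := chord (-(4 / 5)) (-(13 / 20)) (by norm_num) (76 / 1000) (by norm_num)
  have d5 := chord (-1) (-(4 / 5)) (by norm_num) (281 / 1000) (by norm_num)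
  rw [← intervalIntegral.integral_add_adjacent_intervals (hi (-1) 0) (hi 0 1),
    ← intervalIntegral.integral_add_adjacent_intervals (hi 0 (1 / 5)) (hi (1 / 5) 1),
    ← intervalIntegral.integral_add_adjacent_intervals (hi (1 / 5) (9 / 20)) (hi (9 / 20) 1),
    ← intervalIntegral.integral_add_adjacent_intervals (hi (9 / 20) (13 / 20)) (hi (13 / 20) 1),
    ← intervalIntegral.integral_add_adjacent_intervals (hi (13 / 20) (4 / 5)) (hi (4 / 5) 1),
    ← intervalIntegral.integral_add_adjacent_intervals (hi (-1) (-(4 / 5))) (hi (-(4 / 5)) 0),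
    ← intervalIntegral.integral_add_adjacent_intervals (hi (-(4 / 5)) (-(13 / 20))) (hi (-(13 / 20)) 0),
    ← intervalIntegral.integral_add_adjacent_intervals (hi (-(13 / 20)) (-(9 / 20))) (hi (-(9 / 20)) 0),
    ← intervalIntegral.integral_add_adjacent_intervals (hi (-(9 / 20)) (-(1 / 5))) (hi (-(1 / 5)) 0)]
  linarith


/-- The negation of the preceding statement: Let G be a bounded open convex set in ℂ containing [-1,1], and 1 ≤ k ≤ n, 1 ≤ q ≤ ∞. Take any degree-n complex polynomial with no zeros in G that maximizes the L^q norm of its k-th derivative on [-1,1] over its sup norm there. Then all its zeros lie on the boundary of G. -/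
theorem result :
    ¬ (∀ G : Set ℂ, IsOpen G → Convex ℝ G → Bornology.IsBounded G →
      (∀ x : ℝ, x ∈ Set.Icc (-1 : ℝ) 1 → (x : ℂ) ∈ G) →
      ∀ n k : ℕ, 1 ≤ k → k ≤ n →
      ∀ q : ENNReal, 1 ≤ q →
      ∀ P : Polynomial ℂ, P.natDegree = n → (∀ z ∈ G, P.eval z ≠ 0) →
        (∀ Q : Polynomial ℂ, Q.natDegree = n → (∀ z ∈ G, Q.eval z ≠ 0) →
          eLpNorm (fun x : ℝ => ((⇑Polynomial.derivative)^[k] Q).eval (x : ℂ)) q
              (volume.restrict (Set.Icc (-1 : ℝ) 1)) /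
            eLpNorm (fun x : ℝ => Q.eval (x : ℂ)) ⊤
              (volume.restrict (Set.Icc (-1 : ℝ) 1))
          ≤
          eLpNorm (fun x : ℝ => ((⇑Polynomial.derivative)^[k] P).eval (x : ℂ)) q
              (volume.restrict (Set.Icc (-1 : ℝ) 1)) /
            eLpNorm (fun x : ℝ => P.eval (x : ℂ)) ⊤
              (volume.restrict (Set.Icc (-1 : ℝ) 1))) →
        ∀ z : ℂ, P.eval z = 0 → z ∈ frontier G) := by
  intro H
  set S : Set ℂ := (fun x : ℝ => (x : ℂ)) '' Set.Icc (-1) 1 with hS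
  set δ : ℝ := 1 / 10 ^ 6 with hδdef
  have hδ : 0 < δ := by rw [hδdef]; norm_num
  set G : Set ℂ := Metric.thickening δ S with hG
  have hGo : IsOpen G := Metric.isOpen_thickening
  have hSc : Convex ℝ S := by
    rw [hS]
    exact (convex_Icc (-1 : ℝ) 1).is_linear_image
      (f := fun x : ℝ => (x : ℂ)) ⟨fun x y => by push_cast; rfl, fun c x => by
        simp⟩
  have hGc : Convex ℝ G := hSc.thickening δ
  have hScomp : IsCompact S := isCompact_Icc.image Complex.continuous_ofReal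
  have hGb : Bornology.IsBounded G := hScomp.isBounded.thickening
  have hSG : S ⊆ G := Metric.self_subset_thickening hδ S
  have hI : ∀ x : ℝ, x ∈ Set.Icc (-1 : ℝ) 1 → (x : ℂ) ∈ G := fun x hx => hSG ⟨x, hx, rfl⟩
  have h0G : (0 : ℂ) ∈ G := by
    have := hI 0 (by norm_num)
    simpa using this
  have hball : Metric.ball (0 : ℂ) δ ⊆ G := by
    rw [hG]
    apply Metric.ball_subset_thickening
    exact ⟨0, by norm_num, by simp⟩
  obtain ⟨u, hu, hmax⟩ := exists_max 4 G hGo δ hδ hball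
  set Q : ℂ[X] := fam 4 u with hQ
  have hDQ : 1 ≤ Dn Q := one_le_Dn_fam 4 u
  -- the test polynomial gives a large ratio
  have hP0ne : ∀ z ∈ G, P0.eval z ≠ 0 := by
    intro z hz
    apply P0_ne
    have := im_lt_of_mem δ z hz
    rw [hδdef] at this
    norm_num at this ⊢
    linarith
  obtain ⟨v, hv, hPv⟩ := exists_fam G h0G 4 P0 P0_natDegree hP0ne
  have hP00 : P0.eval 0 ≠ 0 := hP0ne 0 h0G
  have hratio : (8.2 : ℝ) ≤ Nn Q / Dn Q := by
    refine le_trans ?_ (hmax v hv)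
    have e1 : Nn P0 = ‖P0.eval 0‖ * Nn (fam 4 v) := by
      conv_lhs => rw [hPv]
      rw [Nn_C_mul]
    have e2 : Dn P0 = ‖P0.eval 0‖ * Dn (fam 4 v) := by
      conv_lhs => rw [hPv]
      rw [Dn_C_mul]
    have hc : 0 < ‖P0.eval 0‖ := norm_pos_iff.mpr hP00
    have hD := one_le_Dn_fam 4 v
    have hN := P0_Nn
    have hD0 := P0_Dn
    rw [le_div_iff₀ (by linarith)]
    rw [e1] at hN
    rw [e2] at hD0
    have : ‖P0.eval 0‖ * (8.2 * Dn (fam 4 v)) ≤ ‖P0.eval 0‖ * Nn (fam 4 v) := by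
      have : ‖P0.eval 0‖ * (8.2 * Dn (fam 4 v)) = 8.2 * (‖P0.eval 0‖ * Dn (fam 4 v)) := by ring
      rw [this]
      norm_num at hN hD0 ⊢
      linarith
    exact le_of_mul_le_mul_left this hc
  have hNpos : 0 < Nn Q := by
    by_contra hcon
    push Not at hcon
    have : Nn Q / Dn Q ≤ 0 := div_nonpos_of_nonpos_of_nonneg hcon (by linarith)
    norm_num at hratio
    linarith
  have hdeg4 : Q.natDegree ≤ 4 := fam_natDegree 4 u
  have hdeg1 : 1 ≤ Q.natDegree := by
    by_contra hcon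
    have h0 : Q.natDegree = 0 := by omega
    have : Q.derivative = 0 := by
      rw [Polynomial.eq_C_of_natDegree_eq_zero h0, derivative_C]
    have : Nn Q = 0 := by unfold Nn; rw [this]; simp
    linarith
  have hQne : ∀ z ∈ G, Q.eval z ≠ 0 := fun z hz => fam_ne 4 G u hu z hz
  -- apply the claim
  have hroots := H G hGo hGc hGb hI Q.natDegree 1 le_rfl hdeg1 1 le_rfl Q rfl hQne (by
    intro R hR hRne
    obtain ⟨v', hv', hRv⟩ := exists_fam G h0G 4 R (by rw [hR]; exact hdeg4) hRne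
    have hR0 : R.eval 0 ≠ 0 := hRne 0 h0G
    have hc : 0 < ‖R.eval 0‖ := norm_pos_iff.mpr hR0
    have hD := one_le_Dn_fam 4 v'
    have e1 : Nn R = ‖R.eval 0‖ * Nn (fam 4 v') := by
      conv_lhs => rw [hRv]
      rw [Nn_C_mul]
    have e2 : Dn R = ‖R.eval 0‖ * Dn (fam 4 v') := by
      conv_lhs => rw [hRv]
      rw [Dn_C_mul]
    have hDR : 0 < Dn R := by rw [e2]; exact mul_pos hc (by linarith)
    rw [ratio_eq R hDR, ratio_eq Q (by linarith)]
    apply ENNReal.ofReal_le_ofReal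
    rw [e1, e2, mul_div_mul_left _ _ hc.ne']
    exact hmax v' hv')
  -- choose near points
  have hQ0 : Q ≠ 0 := by
    intro h
    rw [h] at hdeg1
    simp at hdeg1
  have hch : ∀ w : ℂ, ∃ x : ℝ, Q.eval w = 0 → (x ∈ Set.Icc (-1 : ℝ) 1 ∧ ‖w - (x : ℂ)‖ ≤ δ) := by
    intro w
    by_cases hw : Q.eval w = 0
    · obtain ⟨x, hx, hx2⟩ := near_of_frontier δ hδ w (hroots w hw)
      exact ⟨x, fun _ => ⟨hx, hx2⟩⟩
    · exact ⟨0, fun h => absurd h hw⟩
  choose f hf using hch
  set c : ℂ := Q.leadingCoeff with hcdef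
  have hc0 : c ≠ 0 := leadingCoeff_ne_zero.mpr hQ0
  set R : ℂ[X] := C c⁻¹ * Q with hRdef
  have hRm : R.Monic := by
    rw [hRdef, mul_comm]
    exact monic_mul_leadingCoeff_inv hQ0
  have hRdeg : R.natDegree = Q.natDegree := by
    rw [hRdef]
    exact natDegree_C_mul (inv_ne_zero hc0)
  have hRroots : ∀ w ∈ R.roots, f w ∈ Set.Icc (-1 : ℝ) 1 ∧ ‖w - f w‖ ≤ δ := by
    intro w hw
    rw [hRdef, roots_C_mul _ (inv_ne_zero hc0)] at hw
    exact hf w ((mem_roots hQ0).mp hw)
  have hfin := near R Q.natDegree hdeg1 hRm hRdeg δ (by rw [hδdef]; norm_num) f hRroots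
  rw [hRdef, Nn_C_mul, Dn_C_mul] at hfin
  have hcpos : 0 < ‖c⁻¹‖ := norm_pos_iff.mpr (inv_ne_zero hc0)
  have hfin2 : Nn Q ≤ 2 * Q.natDegree * (1 + Q.natDegree * 3 ^ Q.natDegree * δ * 2 ^ (Q.natDegree - 1)) * Dn Q := by
    have : ‖c⁻¹‖ * Nn Q ≤ ‖c⁻¹‖ * (2 * Q.natDegree * (1 + Q.natDegree * 3 ^ Q.natDegree * δ * 2 ^ (Q.natDegree - 1)) * Dn Q) := by
      refine hfin.trans (le_of_eq ?_)
      ring
    exact le_of_mul_le_mul_left this hcpos
  have hcoef : 2 * (Q.natDegree : ℝ) * (1 + Q.natDegree * 3 ^ Q.natDegree * δ * 2 ^ (Q.natDegree - 1)) ≤ 8.1 := by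
    generalize Q.natDegree = d at hdeg4 hdeg1
    rw [hδdef]
    interval_cases d <;> norm_num
  have : Nn Q ≤ 8.1 * Dn Q := hfin2.trans (mul_le_mul_of_nonneg_right hcoef (by linarith))
  have h82 : 8.2 * Dn Q ≤ Nn Q := by
    rwa [le_div_iff₀ (by linarith)] at hratio
  norm_num at this h82
  linarith

end Pool.Agent.S03936
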