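import Pool.Statements.S03939
import Pool.Agent.H312CantorSupport

set_option autoImplicit false
open Pool Pool.MP_bec4cd_an

namespace Pool.Agent.S03939

/-- Every separable real Banach space with nonseparable dual contains a Cantor-set-homeomorphic subset K of its unit sphere and ε>0 such that norm-one functionals attaining 1 at distinct points of K are always at least ε apart in norm. -/
theorem result :
    ∀ (X : Type) [NormedAddCommGroup X] [NormedSpace ℝ X] [CompleteSpace X],
      TopologicalSpace.SeparableSpace X →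
      ¬ TopologicalSpace.SeparableSpace (X →L[ℝ] ℝ) →
      ∃ K : Set X, K ⊆ Metric.sphere (0 : X) 1 ∧ Nonempty (K ≃ₜ (ℕ → Bool)) ∧
        ∃ ε : ℝ, 0 < ε ∧
          ∀ x ∈ K, ∀ y ∈ K, x ≠ y →
            ∀ f g : X →L[ℝ] ℝ, ‖f‖ = 1 → f x = 1 → ‖g‖ = 1 → g y = 1 →
              ε ≤ ‖f - g‖ := by
  intro X _ _ _ hsep hns
  exact Pool.Agent.H312Support.cantor_support hns

end Pool.Agent.S03939
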