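import Pool.Statements.S03941
import Mathlib

set_option autoImplicit false
set_option maxHeartbeats 4000000
open Pool Pool.MP_bed2b2_an

namespace Pool.Agent.S03941

open Complex



/-- Bessel-Clifford series -/
noncomputable def C (k : ℕ) (Y : ℂ) : ℂ :=
  ∑' n : ℕ, Y ^ n / ((n.factorial : ℂ) * ((n + k).factorial : ℂ))

lemma C_term_bound (k n : ℕ) (Y : ℂ) (R : ℝ) (h : ‖Y‖ ≤ R) :
    ‖Y ^ n / ((n.factorial : ℂ) * ((n + k).factorial : ℂ))‖ ≤ R ^ n / n.factorial := by
  have h0 : 0 ≤ ‖Y‖ := norm_nonneg _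
  rw [norm_div, norm_pow, norm_mul, Complex.norm_natCast, Complex.norm_natCast]
  have h1 : (1 : ℝ) ≤ (n + k).factorial := by exact_mod_cast Nat.factorial_pos _
  have h2 : (0 : ℝ) < n.factorial := by exact_mod_cast Nat.factorial_pos _
  calc ‖Y‖ ^ n / (n.factorial * (n + k).factorial) ≤ ‖Y‖ ^ n / (n.factorial * 1) := by gcongr
    _ ≤ R ^ n / n.factorial := by rw [mul_one]; gcongr

lemma C_summable (k : ℕ) (Y : ℂ) :
    Summable (fun n : ℕ => Y ^ n / ((n.factorial : ℂ) * ((n + k).factorial : ℂ))) :=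
  Summable.of_norm_bounded (Real.summable_pow_div_factorial ‖Y‖)
    (fun n => C_term_bound k n Y ‖Y‖ le_rfl)

lemma term_shift (k n : ℕ) (Y : ℂ) :
    ((n + 1 : ℕ) : ℂ) * Y ^ (n + 1 - 1) / (((n + 1).factorial : ℂ) * ((n + 1 + k).factorial : ℂ))
      = Y ^ n / ((n.factorial : ℂ) * ((n + (k + 1)).factorial : ℂ)) := by
  rw [Nat.factorial_succ, show n + 1 + k = n + (k + 1) by ring, Nat.add_sub_cancel]
  have h1 : ((n : ℂ) + 1) ≠ 0 := by exact_mod_cast Nat.succ_ne_zero n
  have h2 : ((n.factorial : ℕ) : ℂ) ≠ 0 := by exact_mod_cast Nat.factorial_ne_zero n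
  have h3 : (((n + (k + 1)).factorial : ℕ) : ℂ) ≠ 0 := by exact_mod_cast Nat.factorial_ne_zero _
  push_cast
  field_simp

lemma C_hasDerivAt (k : ℕ) (Y : ℂ) : HasDerivAt (C k) (C (k + 1) Y) Y := by
  set R : ℝ := ‖Y‖ + 1 with hR
  have hR0 : 0 ≤ R := by positivity
  have hYR : Y ∈ Metric.ball (0:ℂ) R := by
    rw [Metric.mem_ball, dist_zero_right, hR]; linarith
  have key : HasDerivAt (fun z => ∑' n : ℕ, z ^ n / ((n.factorial : ℂ) * ((n + k).factorial : ℂ)))
      (∑' n : ℕ, (n : ℂ) * Y ^ (n - 1) / ((n.factorial : ℂ) * ((n + k).factorial : ℂ))) Y := by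
    refine hasDerivAt_tsum_of_isPreconnected
      (g := fun (n : ℕ) (z : ℂ) => z ^ n / ((n.factorial : ℂ) * ((n + k).factorial : ℂ)))
      (g' := fun (n : ℕ) (z : ℂ) => (n : ℂ) * z ^ (n - 1) / ((n.factorial : ℂ) * ((n + k).factorial : ℂ)))
      (u := fun n : ℕ => R ^ (n - 1) / ((n - 1).factorial : ℝ)) (t := Metric.ball 0 R)
      (y₀ := Y) (y := Y) ?_ Metric.isOpen_ball (convex_ball _ _).isPreconnected ?_ ?_ hYR (C_summable k Y) hYR
    · rw [← summable_nat_add_iff 1]
      simpa using Real.summable_pow_div_factorial R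
    · intro n y _
      exact (hasDerivAt_pow n y).div_const _
    · intro n y hy
      have hy' : ‖y‖ ≤ R := by
        have := Metric.mem_ball.1 hy
        rw [dist_zero_right] at this
        exact this.le
      rcases n with _ | n
      · simp
      · rw [term_shift]
        simpa using C_term_bound (k + 1) n y R hy'
  have e2 : (∑' n : ℕ, (n : ℂ) * Y ^ (n - 1) / ((n.factorial : ℂ) * ((n + k).factorial : ℂ)))
      = C (k + 1) Y := by
    have hs : Summable (fun n : ℕ => (n : ℂ) * Y ^ (n - 1) / ((n.factorial : ℂ) * ((n + k).factorial : ℂ))) := by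
      rw [← summable_nat_add_iff 1]
      refine (C_summable (k + 1) Y).congr ?_
      intro n
      rw [term_shift]
    rw [hs.tsum_eq_zero_add]
    unfold C
    simp only [Nat.cast_zero, zero_mul, zero_div, zero_add]
    refine tsum_congr ?_
    intro n
    rw [term_shift]
  rw [e2] at key
  exact key

lemma C_rec (Y : ℂ) : Y * C 2 Y + C 1 Y = C 0 Y := by
  have h0 := (C_summable 0 Y)
  have h1 := (C_summable 1 Y)
  have h2 := (C_summable 2 Y)
  have e0 : C 0 Y = _ := h0.tsum_eq_zero_add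
  have e1 : C 1 Y = _ := h1.tsum_eq_zero_add
  have e2 : Y * C 2 Y = ∑' n : ℕ, Y * (Y ^ n / ((n.factorial : ℂ) * ((n + 2).factorial : ℂ))) :=
    (tsum_mul_left).symm
  rw [e0, e1, e2]
  have s1 := (summable_nat_add_iff 1).2 h1
  have s2 := h2.mul_left Y
  rw [add_comm, add_assoc, ← s1.tsum_add s2]
  congr 1
  refine tsum_congr ?_
  intro n
  have h1 : ((n : ℂ) + 1) ≠ 0 := by exact_mod_cast Nat.succ_ne_zero n
  have h1' : ((n : ℂ) + 1 + 1) ≠ 0 := by exact_mod_cast Nat.succ_ne_zero (n+1)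
  have h2 : ((n.factorial : ℕ) : ℂ) ≠ 0 := by exact_mod_cast Nat.factorial_ne_zero n
  simp only [Nat.factorial_succ, Nat.add_zero]
  push_cast
  field_simp
  ring

/-- the Bessel function -/
noncomputable def f (z : ℂ) : ℂ := C 0 (-(z ^ 2 / 4))
noncomputable def f1 (z : ℂ) : ℂ := -(z / 2) * C 1 (-(z ^ 2 / 4))

lemma f_eq (z : ℂ) : (∑' n : ℕ, (-1 : ℂ) ^ n * (z / 2) ^ (2 * n) / ((n.factorial : ℂ)) ^ 2) = f z := by
  unfold f C
  refine tsum_congr ?_
  intro n
  have : (-(z ^ 2 / 4)) ^ n = (-1 : ℂ) ^ n * (z / 2) ^ (2 * n) := by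
    rw [pow_mul, ← mul_pow]; congr 1; ring
  rw [this]
  simp only [Nat.add_zero]
  rw [sq]

lemma f_hasDerivAt (z : ℂ) : HasDerivAt f (f1 z) z := by
  have h := (C_hasDerivAt 0 (-(z ^ 2 / 4)))
  have h2 : HasDerivAt (fun z : ℂ => -(z ^ 2 / 4)) (-(z / 2)) z := by
    refine (((hasDerivAt_pow 2 z).div_const 4).neg).congr_deriv ?_
    push_cast; ring
  have := h.comp z h2
  unfold f1
  rw [mul_comm]
  exact this

lemma f1_hasDerivAt (z : ℂ) (hz : z ≠ 0) : HasDerivAt f1 (- f z - f1 z / z) z := by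
  have h := (C_hasDerivAt 1 (-(z ^ 2 / 4)))
  have h2 : HasDerivAt (fun z : ℂ => -(z ^ 2 / 4)) (-(z / 2)) z := by
    refine (((hasDerivAt_pow 2 z).div_const 4).neg).congr_deriv ?_
    push_cast; ring
  have h3 := h.comp z h2
  have h4 : HasDerivAt (fun z : ℂ => -(z / 2)) (-(1 / 2)) z := ((hasDerivAt_id z).div_const 2).neg
  have h5 := h4.mul h3
  have e : f1 = (fun z : ℂ => -(z / 2)) * ((C 1) ∘ fun z : ℂ => -(z ^ 2 / 4)) := by
    funext w; rfl
  have hr := C_rec (-(z ^ 2 / 4))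
  rw [e]
  refine h5.congr_deriv ?_
  unfold f
  rw [← hr]
  simp only [Function.comp, Pi.mul_apply]
  field_simp
  ring


/-! no solution in the punctured disc of radius 4 -/

noncomputable def S (Y : ℂ) : ℂ := ∑' n : ℕ, Y ^ n / (((n + 1).factorial : ℂ)) ^ 2

lemma S_summable (Y : ℂ) : Summable (fun n : ℕ => Y ^ n / (((n + 1).factorial : ℂ)) ^ 2) := by
  refine Summable.of_norm_bounded (Real.summable_pow_div_factorial ‖Y‖) ?_
  intro n
  rw [norm_div, norm_pow, norm_pow, Complex.norm_natCast]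
  have h2 : (0 : ℝ) < n.factorial := by exact_mod_cast Nat.factorial_pos _
  have h1 : (1 : ℝ) ≤ n.factorial := by exact_mod_cast Nat.factorial_pos _
  have h3 : (n.factorial : ℝ) ≤ (n + 1).factorial := by
    exact_mod_cast Nat.factorial_le (Nat.le_succ n)
  have h4 : (n.factorial : ℝ) ≤ ((n + 1).factorial : ℝ) ^ 2 := by nlinarith
  gcongr

lemma C_eq_S (Y : ℂ) : C 0 Y = 1 + Y * S Y := by
  unfold C
  rw [(C_summable 0 Y).tsum_eq_zero_add]
  unfold S
  rw [← tsum_mul_left]
  congr 1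
  · simp
  · refine tsum_congr ?_
    intro n
    simp only [Nat.add_zero]
    rw [pow_succ]; ring

lemma S_id (Y : ℂ) : (1 - Y / 4) * S Y = 1 - ∑' n : ℕ,
    (1 / (4 * (((n + 1).factorial : ℂ)) ^ 2) - 1 / (((n + 2).factorial : ℂ)) ^ 2) * Y ^ (n + 1) := by
  have h := S_summable Y
  have h1 := (summable_nat_add_iff 1).2 h
  have e1 : S Y = 1 + ∑' n : ℕ, Y ^ (n + 1) / (((n + 2).factorial : ℂ)) ^ 2 := by
    unfold S
    rw [h.tsum_eq_zero_add]
    simp
  have e2 : Y / 4 * S Y = ∑' n : ℕ, Y / 4 * (Y ^ n / (((n + 1).factorial : ℂ)) ^ 2) := by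
    unfold S; rw [tsum_mul_left]
  have h2 := h.mul_left (Y / 4)
  have e3 : (∑' n : ℕ,
    (1 / (4 * (((n + 1).factorial : ℂ)) ^ 2) - 1 / (((n + 2).factorial : ℂ)) ^ 2) * Y ^ (n + 1))
     = (∑' n : ℕ, Y / 4 * (Y ^ n / (((n + 1).factorial : ℂ)) ^ 2)) -
       ∑' n : ℕ, Y ^ (n + 1) / (((n + 2).factorial : ℂ)) ^ 2 := by
    rw [← h2.tsum_sub h1]
    refine tsum_congr ?_
    intro n
    have h2 : (((n+1).factorial : ℕ) : ℂ) ≠ 0 := by exact_mod_cast Nat.factorial_ne_zero _
    have h3 : (((n+2).factorial : ℕ) : ℂ) ≠ 0 := by exact_mod_cast Nat.factorial_ne_zero _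
    rw [pow_succ]
    field_simp
    ring
  rw [e3, ← e2, sub_mul, one_mul]
  nth_rewrite 1 [e1]
  ring

lemma S_ne_zero (Y : ℂ) (hY : ‖Y‖ < 4) : S Y ≠ 0 := by
  intro h0
  have hc : ∀ n : ℕ, 0 ≤ (1 / (4 * (((n + 1).factorial : ℝ)) ^ 2) - 1 / (((n + 2).factorial : ℝ)) ^ 2) := by
    intro n
    rw [sub_nonneg]
    have h2 : (0 : ℝ) < (n + 1).factorial := by exact_mod_cast Nat.factorial_pos _
    rw [show ((n + 2).factorial : ℝ) = (n + 2) * (n + 1).factorial by
      rw [Nat.factorial_succ]; push_cast; ring]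
    apply one_div_le_one_div_of_le (by positivity)
    have : (0:ℝ) ≤ n := Nat.cast_nonneg n
    have h4 : (2:ℝ) ^ 2 ≤ (n + 2) ^ 2 := by gcongr; linarith
    rw [mul_pow]
    have := mul_le_mul_of_nonneg_right h4 (sq_nonneg ((n + 1).factorial : ℝ))
    linarith
  -- complex identity
  have h1 := S_id Y
  rw [h0, mul_zero] at h1
  have h1' : (∑' n : ℕ,
    (1 / (4 * (((n + 1).factorial : ℂ)) ^ 2) - 1 / (((n + 2).factorial : ℂ)) ^ 2) * Y ^ (n + 1)) = 1 := by
    linear_combination h1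
  -- real identity
  set ρ : ℝ := ‖Y‖ with hρ
  have hρ0 : 0 ≤ ρ := norm_nonneg _
  have h2 := S_id (ρ : ℂ)
  have hSr : S (ρ : ℂ) = ((∑' n : ℕ, ρ ^ n / (((n + 1).factorial : ℝ)) ^ 2 : ℝ) : ℂ) := by
    unfold S; push_cast; rfl
  have hDr : (∑' n : ℕ,
    (1 / (4 * (((n + 1).factorial : ℂ)) ^ 2) - 1 / (((n + 2).factorial : ℂ)) ^ 2) * (ρ : ℂ) ^ (n + 1))
     = ((∑' n : ℕ, (1 / (4 * (((n + 1).factorial : ℝ)) ^ 2) - 1 / (((n + 2).factorial : ℝ)) ^ 2) * ρ ^ (n + 1) : ℝ) : ℂ) := by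
    push_cast; rfl
  rw [hSr, hDr] at h2
  have h2' : (1 - ρ / 4) * (∑' n : ℕ, ρ ^ n / (((n + 1).factorial : ℝ)) ^ 2) = 1 -
    (∑' n : ℕ, (1 / (4 * (((n + 1).factorial : ℝ)) ^ 2) - 1 / (((n + 2).factorial : ℝ)) ^ 2) * ρ ^ (n + 1)) := by
    exact_mod_cast h2
  have hsumR : Summable (fun n : ℕ => ρ ^ n / (((n + 1).factorial : ℝ)) ^ 2) := by
    have := (S_summable (ρ : ℂ)).norm
    refine this.congr ?_
    intro n
    rw [norm_div, norm_pow, norm_pow, Complex.norm_natCast]
    simp [abs_of_nonneg hρ0]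
  have hA : 1 ≤ ∑' n : ℕ, ρ ^ n / (((n + 1).factorial : ℝ)) ^ 2 := by
    have := hsumR.le_tsum 0 (fun n _ => by positivity)
    simpa using this
  have hsumD : Summable (fun n : ℕ => (1 / (4 * (((n + 1).factorial : ℝ)) ^ 2) - 1 / (((n + 2).factorial : ℝ)) ^ 2) * ρ ^ (n + 1)) := by
    have a1 := hsumR.mul_left (ρ / 4)
    have a2 := (summable_nat_add_iff 1).2 hsumR
    refine (a1.sub a2).congr ?_
    intro n
    have h2 : (((n+1).factorial : ℕ) : ℝ) ≠ 0 := by exact_mod_cast Nat.factorial_ne_zero _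
    have h3 : (((n+1+1).factorial : ℕ) : ℝ) ≠ 0 := by exact_mod_cast Nat.factorial_ne_zero _
    rw [pow_succ]
    field_simp
    ring
  have hn : ∀ n : ℕ, ‖((1 / (4 * (((n + 1).factorial : ℂ)) ^ 2) - 1 / (((n + 2).factorial : ℂ)) ^ 2) * Y ^ (n + 1) : ℂ)‖
      = (1 / (4 * (((n + 1).factorial : ℝ)) ^ 2) - 1 / (((n + 2).factorial : ℝ)) ^ 2) * ρ ^ (n + 1) := by
    intro n
    rw [norm_mul, norm_pow, ← hρ]
    congr 1
    have : ((1 / (4 * (((n + 1).factorial : ℂ)) ^ 2) - 1 / (((n + 2).factorial : ℂ)) ^ 2) : ℂ)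
      = (((1 / (4 * (((n + 1).factorial : ℝ)) ^ 2) - 1 / (((n + 2).factorial : ℝ)) ^ 2) : ℝ) : ℂ) := by
      push_cast; rfl
    rw [this, Complex.norm_real, Real.norm_of_nonneg (hc n)]
  have h3 : (1 : ℝ) ≤ ∑' n : ℕ, (1 / (4 * (((n + 1).factorial : ℝ)) ^ 2) - 1 / (((n + 2).factorial : ℝ)) ^ 2) * ρ ^ (n + 1) := by
    have h4 : ‖(∑' n : ℕ,
    (1 / (4 * (((n + 1).factorial : ℂ)) ^ 2) - 1 / (((n + 2).factorial : ℂ)) ^ 2) * Y ^ (n + 1))‖ ≤ _ :=
      norm_tsum_le_tsum_norm (by simpa only [hn] using hsumD)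
    rw [h1', norm_one] at h4
    simpa only [hn] using h4
  have h5 : 0 < 1 - ρ / 4 := by linarith
  nlinarith

lemma f_ne_one_of_small (z : ℂ) (hz : z ≠ 0) (hz4 : ‖z‖ < 4) : f z ≠ 1 := by
  intro h
  unfold f at h
  rw [C_eq_S] at h
  have h1 : -(z ^ 2 / 4) * S (-(z ^ 2 / 4)) = 0 := by linear_combination h
  rcases mul_eq_zero.1 h1 with h2 | h2
  · apply hz
    have : z ^ 2 = 0 := by linear_combination -4 * h2
    exact pow_eq_zero_iff (two_ne_zero) |>.1 this
  · refine S_ne_zero _ ?_ h2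
    rw [norm_neg, norm_div, norm_pow]
    have : ‖(4 : ℂ)‖ = 4 := by simp
    rw [this]
    have h0 := norm_nonneg z
    rw [div_lt_iff₀ (by norm_num)]
    nlinarith


lemma C_conj (k : ℕ) (Y : ℂ) : C k ((starRingEnd ℂ) Y) = (starRingEnd ℂ) (C k Y) := by
  unfold C
  rw [Complex.conj_tsum]
  refine tsum_congr ?_
  intro n
  simp

lemma f_conj (z : ℂ) : f ((starRingEnd ℂ) z) = (starRingEnd ℂ) (f z) := by
  unfold f
  rw [← C_conj]
  congr 1
  have : (starRingEnd ℂ) 4 = 4 := Complex.conj_ofNat 4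
  simp [this]

lemma f1_conj (z : ℂ) : f1 ((starRingEnd ℂ) z) = (starRingEnd ℂ) (f1 z) := by
  unfold f1
  rw [map_mul, ← C_conj]
  have h4 : (starRingEnd ℂ) 4 = 4 := Complex.conj_ofNat 4
  have h2 : (starRingEnd ℂ) 2 = 2 := Complex.conj_ofNat 2
  simp [h4, h2]

lemma f_neg (z : ℂ) : f (-z) = f z := by
  unfold f; congr 1; ring

noncomputable def φ (x : ℝ) : ℝ := (f x).re
noncomputable def φ1 (x : ℝ) : ℝ := (f1 x).re

lemma f_real (x : ℝ) : f x = (φ x : ℂ) := by
  have := f_conj (x : ℂ)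
  rw [Complex.conj_ofReal] at this
  exact (Complex.conj_eq_iff_re.1 this.symm).symm

lemma f1_real (x : ℝ) : f1 x = (φ1 x : ℂ) := by
  have := f1_conj (x : ℂ)
  rw [Complex.conj_ofReal] at this
  exact (Complex.conj_eq_iff_re.1 this.symm).symm

lemma φ_hasDerivAt (x : ℝ) : HasDerivAt φ (φ1 x) x :=
  (f_hasDerivAt (x : ℂ)).real_of_complex

lemma φ1_hasDerivAt (x : ℝ) (hx : x ≠ 0) : HasDerivAt φ1 (-φ x - φ1 x / x) x := by
  have h := (f1_hasDerivAt (x : ℂ) (by exact_mod_cast hx)).real_of_complex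
  refine h.congr_deriv ?_
  rw [f_real, f1_real]
  simp only [Complex.sub_re, Complex.neg_re, Complex.ofReal_re]
  rw [← Complex.ofReal_div, Complex.ofReal_re]

noncomputable def E (x : ℝ) : ℝ := x * (φ x ^ 2 + φ1 x ^ 2) + φ x * φ1 x + φ x ^ 2 / (2 * x)

lemma E_hasDerivAt (x : ℝ) (hx : 0 < x) : HasDerivAt E (-(φ x ^ 2) / (2 * x ^ 2)) x := by
  have h := φ_hasDerivAt x
  have h1 := φ1_hasDerivAt x hx.ne'
  have a1 := (hasDerivAt_id x).mul ((h.pow 2).add (h1.pow 2))
  have a2 := h.mul h1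
  have a3 := (h.pow 2).div ((hasDerivAt_id x).const_mul 2) (by simpa using hx.ne')
  have := (a1.add a2).add a3
  refine this.congr_deriv ?_
  simp only [id, Pi.pow_apply, Pi.add_apply]
  push_cast
  field_simp
  ring

lemma E_antitone (x : ℝ) (hx : 2 ≤ x) : E x ≤ E 2 := by
  have hm : AntitoneOn E (Set.Ici 2) := by
    apply antitoneOn_of_deriv_nonpos (convex_Ici 2)
    · intro t ht
      exact (E_hasDerivAt t (by have := Set.mem_Ici.1 ht; linarith)).continuousAt.continuousWithinAt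
    · intro t ht
      rw [interior_Ici] at ht
      exact (E_hasDerivAt t (by have := Set.mem_Ioi.1 ht; linarith)).differentiableAt.differentiableWithinAt
    · intro t ht
      rw [interior_Ici] at ht
      have ht' := Set.mem_Ioi.1 ht
      rw [(E_hasDerivAt t (by linarith)).deriv]
      apply div_nonpos_of_nonpos_of_nonneg
      · have := sq_nonneg (φ t); linarith
      · positivity
  exact hm (Set.mem_Ici.2 le_rfl) (Set.mem_Ici.2 hx) hx

lemma C_neg_one_bound (k N : ℕ) (hN1 : 1 ≤ N) :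
    ‖C k (-1) - ∑ n ∈ Finset.range N, (-1 : ℂ) ^ n / ((n.factorial : ℂ) * ((n + k).factorial : ℂ))‖
      ≤ 2 / (N.factorial : ℝ) ^ 2 := by
  have h := C_summable k (-1)
  have h2 : C k (-1) - ∑ n ∈ Finset.range N, (-1 : ℂ) ^ n / ((n.factorial : ℂ) * ((n + k).factorial : ℂ))
     = ∑' n : ℕ, (-1 : ℂ) ^ (n + N) / (((n + N).factorial : ℂ) * ((n + N + k).factorial : ℂ)) := by
    unfold C
    rw [← h.sum_add_tsum_nat_add N]
    ring
  rw [h2]
  have hb : ∀ n : ℕ, ‖(-1 : ℂ) ^ (n + N) / (((n + N).factorial : ℂ) * ((n + N + k).factorial : ℂ))‖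
      ≤ 1 / (N.factorial : ℝ) ^ 2 * (1 / 2) ^ n := by
    intro n
    rw [norm_div, norm_pow, norm_neg, norm_one, one_pow, norm_mul, Complex.norm_natCast, Complex.norm_natCast]
    have a1 : (N.factorial : ℝ) * 2 ^ n ≤ (n + N).factorial := by
      have : N.factorial * (N + 1) ^ n ≤ (N + n).factorial := Nat.factorial_mul_pow_le_factorial
      have h3 : N.factorial * 2 ^ n ≤ N.factorial * (N + 1) ^ n := by
        gcongr; omega
      rw [add_comm n N]
      exact_mod_cast h3.trans this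
    have a2 : (N.factorial : ℝ) ≤ (n + N + k).factorial := by
      exact_mod_cast Nat.factorial_le (by omega)
    have hN : (0 : ℝ) < N.factorial := by exact_mod_cast Nat.factorial_pos _
    calc 1 / (((n + N).factorial : ℝ) * ((n + N + k).factorial : ℝ))
        ≤ 1 / ((N.factorial : ℝ) * 2 ^ n * N.factorial) := by gcongr
      _ = 1 / (N.factorial : ℝ) ^ 2 * (1 / 2) ^ n := by
        rw [one_div_pow]; field_simp
  have hg : HasSum (fun n : ℕ => 1 / (N.factorial : ℝ) ^ 2 * (1 / 2 : ℝ) ^ n)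
      (1 / (N.factorial : ℝ) ^ 2 * 2) := hasSum_geometric_two.mul_left _
  have := tsum_of_norm_bounded hg hb
  calc _ ≤ _ := this
    _ = 2 / (N.factorial : ℝ) ^ 2 := by ring

lemma φ_two : |φ 2 - 2 / 9| ≤ 1 / 288 := by
  have h := C_neg_one_bound 0 4 (by norm_num)
  have h2 : φ 2 = (C 0 (-1)).re := by
    unfold φ f; congr 2; norm_num
  have h4 : (∑ n ∈ Finset.range 4, (-1 : ℂ) ^ n / ((n.factorial : ℂ) * ((n + 0).factorial : ℂ))) = ((2 / 9 : ℝ) : ℂ) := by
    simp [Finset.sum_range_succ, Nat.factorial]; norm_num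
  rw [h4] at h
  have h3 := Complex.abs_re_le_norm (C 0 (-1) - ((2 / 9 : ℝ) : ℂ))
  rw [Complex.sub_re, Complex.ofReal_re] at h3
  rw [h2]
  refine (h3.trans h).trans ?_
  norm_num [Nat.factorial]

lemma φ1_two : |φ1 2 + 83 / 144| ≤ 1 / 288 := by
  have h := C_neg_one_bound 1 4 (by norm_num)
  have h2 : φ1 2 = -(C 1 (-1)).re := by
    unfold φ1 f1
    rw [← Complex.neg_re]; congr 1; norm_num
  have h4 : (∑ n ∈ Finset.range 4, (-1 : ℂ) ^ n / ((n.factorial : ℂ) * ((n + 1).factorial : ℂ))) = ((83 / 144 : ℝ) : ℂ) := by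
    simp [Finset.sum_range_succ, Nat.factorial]; norm_num
  rw [h4] at h
  have h3 := Complex.abs_re_le_norm (C 1 (-1) - ((83 / 144 : ℝ) : ℂ))
  rw [Complex.sub_re, Complex.ofReal_re] at h3
  have h5 : |φ1 2 + 83 / 144| = |(C 1 (-1)).re - 83 / 144| := by
    rw [h2, ← abs_neg]; congr 1; ring
  rw [h5]
  refine (h3.trans h).trans ?_
  norm_num [Nat.factorial]

lemma E_two : E 2 ≤ 2 / 3 := by
  have h1 := abs_le.1 φ_two
  have h2 := abs_le.1 φ1_two
  unfold E
  set a := φ 2
  set b := φ1 2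
  obtain ⟨h11, h12⟩ := h1
  obtain ⟨h21, h22⟩ := h2
  have e1 : a ^ 2 ≤ (2258 / 10000) ^ 2 := by nlinarith
  have e2 : b ^ 2 ≤ (58 / 100) ^ 2 := by nlinarith
  have e3 : a * b ≤ - (218 / 1000) * (572 / 1000) := by nlinarith
  norm_num at e1 e2 e3 ⊢
  linarith

lemma E_le (x : ℝ) (hx : 2 ≤ x) : E x ≤ 2 / 3 := (E_antitone x hx).trans E_two

/-! Step A : rays with Re (u^2) ≤ 0 -/

lemma comp_line (g : ℂ → ℂ) (g' : ℂ) (u : ℂ) (t : ℝ) (h : HasDerivAt g g' (t * u)) :
    HasDerivAt (fun t : ℝ => g (t * u)) (g' * u) t := by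
  have h0 : HasDerivAt (fun t : ℝ => (t : ℂ) * u) u t := by
    simpa using (Complex.ofRealCLM.hasDerivAt (x := t)).mul_const u
  exact h.comp t h0

lemma normSq_hasDerivAt (u : ℂ) (t : ℝ) :
    HasDerivAt (fun t : ℝ => Complex.normSq (f (t * u)))
      (2 * (u * f1 (t * u) * (starRingEnd ℂ) (f (t * u))).re) t := by
  have h1 : HasDerivAt (fun t : ℝ => f (t * u)) (f1 (t * u) * u) t :=
    comp_line f _ u t (f_hasDerivAt ((t : ℂ) * u))
  have hre : HasDerivAt (fun t : ℝ => (f (t * u)).re) (f1 (t * u) * u).re t :=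
    (Complex.reCLM.hasFDerivAt.comp_hasDerivAt t h1)
  have him : HasDerivAt (fun t : ℝ => (f (t * u)).im) (f1 (t * u) * u).im t :=
    (Complex.imCLM.hasFDerivAt.comp_hasDerivAt t h1)
  have h2 := (hre.mul hre).add (him.mul him)
  have e : (fun t : ℝ => Complex.normSq (f (t * u))) =
    (fun t : ℝ => (f (t * u)).re) * (fun t : ℝ => (f (t * u)).re) +
      (fun t : ℝ => (f (t * u)).im) * (fun t : ℝ => (f (t * u)).im) := by
    funext s; simp [Complex.normSq_apply]
  rw [e]
  refine h2.congr_deriv ?_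
  simp only [Complex.mul_re, Complex.mul_im, Complex.conj_re, Complex.conj_im]
  ring

noncomputable def P (u : ℂ) (t : ℝ) : ℝ := t * (u * f1 (t * u) * (starRingEnd ℂ) (f (t * u))).re

lemma P_hasDerivAt (u : ℂ) (hu : Complex.normSq u = 1) (t : ℝ) (ht : 0 < t) :
    HasDerivAt (P u) (t * (Complex.normSq (f1 (t * u)) - (u ^ 2).re * Complex.normSq (f (t * u)))) t := by
  have hu0 : u ≠ 0 := by rintro rfl; simp at hu
  have htu : (t : ℂ) * u ≠ 0 := mul_ne_zero (by exact_mod_cast ht.ne') hu0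
  have h1 : HasDerivAt (fun t : ℝ => f (t * u)) (f1 (t * u) * u) t :=
    comp_line f _ u t (f_hasDerivAt ((t : ℂ) * u))
  have h2 : HasDerivAt (fun t : ℝ => f1 (t * u)) ((- f (t * u) - f1 (t * u) / (t * u)) * u) t :=
    comp_line f1 _ u t (f1_hasDerivAt ((t : ℂ) * u) htu)
  have h2' : HasDerivAt (fun t : ℝ => u * f1 (t * u)) (u * ((- f (t * u) - f1 (t * u) / (t * u)) * u)) t :=
    h2.const_mul u
  have e0 : u * ((- f (t * u) - f1 (t * u) / (t * u)) * u) = - (u ^ 2 * f (t * u)) - u * f1 (t * u) / t := by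
    have : (t : ℂ) ≠ 0 := by exact_mod_cast ht.ne'
    field_simp
  rw [e0] at h2'
  have hre : HasDerivAt (fun t : ℝ => (f (t * u)).re) (u * f1 (t * u)).re t := by
    rw [mul_comm u]; exact (Complex.reCLM.hasFDerivAt.comp_hasDerivAt t h1)
  have him : HasDerivAt (fun t : ℝ => (f (t * u)).im) (u * f1 (t * u)).im t := by
    rw [mul_comm u]; exact (Complex.imCLM.hasFDerivAt.comp_hasDerivAt t h1)
  have hre1 : HasDerivAt (fun t : ℝ => (u * f1 (t * u)).re) (- (u ^ 2 * f (t * u)) - u * f1 (t * u) / t).re t :=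
    (Complex.reCLM.hasFDerivAt.comp_hasDerivAt t h2')
  have him1 : HasDerivAt (fun t : ℝ => (u * f1 (t * u)).im) (- (u ^ 2 * f (t * u)) - u * f1 (t * u) / t).im t :=
    (Complex.imCLM.hasFDerivAt.comp_hasDerivAt t h2')
  have h3 := (hasDerivAt_id t).mul ((hre1.mul hre).add (him1.mul him))
  have e : P u = (fun t : ℝ => t) * ((fun t : ℝ => (u * f1 (t * u)).re) * (fun t : ℝ => (f (t * u)).re) +
      (fun t : ℝ => (u * f1 (t * u)).im) * (fun t : ℝ => (f (t * u)).im)) := by
    funext s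
    simp only [P, Pi.mul_apply, Pi.add_apply, Complex.mul_re (u * f1 (s * u)), Complex.conj_re, Complex.conj_im]
    ring
  rw [e]
  refine h3.congr_deriv ?_
  have e5 : Complex.normSq (f1 (t * u)) = Complex.normSq (u * f1 (t * u)) := by
    rw [map_mul, hu, one_mul]
  rw [e5]
  have e6 : (u * f1 (t * u) / (t : ℂ)).re = (u * f1 (t * u)).re / t := Complex.div_ofReal_re _ _
  have e7 : (u * f1 (t * u) / (t : ℂ)).im = (u * f1 (t * u)).im / t := Complex.div_ofReal_im _ _
  simp only [Complex.sub_re, Complex.sub_im, Complex.neg_re, Complex.neg_im, e6, e7, Pi.add_apply, Pi.mul_apply]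
  generalize u * f1 (t * u) = G
  generalize f (t * u) = F
  generalize u ^ 2 = U
  simp only [Complex.mul_re, Complex.mul_im, Complex.normSq_apply, id]
  have := ht.ne'
  field_simp
  ring


lemma f_zero : f 0 = 1 := by
  unfold f C
  rw [tsum_eq_single 0]
  · simp
  · intro n hn
    simp [hn]

lemma f_differentiable : Differentiable ℂ f := fun z => (f_hasDerivAt z).differentiableAt

lemma f1_continuous : Continuous f1 := by
  have : f1 = deriv f := by funext z; exact (f_hasDerivAt z).deriv.symm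
  rw [this]
  exact (f_differentiable.contDiff (n := 1)).continuous_deriv le_rfl

lemma P_continuous (u : ℂ) : Continuous (P u) := by
  unfold P
  have h1 : Continuous (fun t : ℝ => f1 (t * u)) := f1_continuous.comp (by fun_prop)
  have h2 : Continuous (fun t : ℝ => f (t * u)) := f_differentiable.continuous.comp (by fun_prop)
  have h3 : Continuous (fun t : ℝ => (starRingEnd ℂ) (f (t * u))) := Complex.continuous_conj.comp h2
  exact continuous_id.mul (Complex.continuous_re.comp ((continuous_const.mul h1).mul h3))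

lemma case_A (u : ℂ) (hu : Complex.normSq u = 1) (hre : (u ^ 2).re ≤ 0) (t : ℝ) (ht : 0 < t) :
    f (t * u) ≠ 1 := by
  intro hf1
  set g : ℝ → ℝ := fun t => Complex.normSq (f (t * u)) with hg
  have hPd : ∀ s : ℝ, 0 < s → 0 ≤ s * (Complex.normSq (f1 (s * u)) - (u ^ 2).re * Complex.normSq (f (s * u))) := by
    intro s hs
    have h1 := Complex.normSq_nonneg (f1 (s * u))
    have h2 := Complex.normSq_nonneg (f (s * u))
    have h3 := mul_nonneg (neg_nonneg.2 hre) h2
    apply mul_nonneg hs.le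
    linarith
  have hPmono : MonotoneOn (P u) (Set.Ici 0) := by
    apply monotoneOn_of_deriv_nonneg (convex_Ici 0) (P_continuous u).continuousOn
    · intro s hs
      rw [interior_Ici] at hs
      exact (P_hasDerivAt u hu s hs).differentiableAt.differentiableWithinAt
    · intro s hs
      rw [interior_Ici] at hs
      rw [(P_hasDerivAt u hu s hs).deriv]
      exact hPd s hs
  have hP0 : P u 0 = 0 := by simp [P]
  have hPnn : ∀ s : ℝ, 0 ≤ s → 0 ≤ P u s := by
    intro s hs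
    have := hPmono (Set.mem_Ici.2 le_rfl) (Set.mem_Ici.2 hs) hs
    linarith
  have hgd : ∀ s : ℝ, HasDerivAt g (2 * (u * f1 (s * u) * (starRingEnd ℂ) (f (s * u))).re) s :=
    fun s => normSq_hasDerivAt u s
  have hgmono : MonotoneOn g (Set.Ici 0) := by
    apply monotoneOn_of_deriv_nonneg (convex_Ici 0)
    · exact fun s _ => (hgd s).continuousAt.continuousWithinAt
    · exact fun s _ => (hgd s).differentiableAt.differentiableWithinAt
    · intro s hs
      rw [interior_Ici] at hs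
      have hs' : 0 < s := hs
      rw [(hgd s).deriv]
      have := hPnn s hs'.le
      unfold P at this
      have := (mul_nonneg_iff_of_pos_left hs').1 this
      linarith
  have hg0 : g 0 = 1 := by simp [hg, f_zero]
  have hgt : g t = 1 := by simp [hg, hf1]
  have hg1 : ∀ s : ℝ, 0 ≤ s → s ≤ t → g s = 1 := by
    intro s h1 h2
    have a1 := hgmono (Set.mem_Ici.2 le_rfl) (Set.mem_Ici.2 h1) h1
    have a2 := hgmono (Set.mem_Ici.2 h1) (Set.mem_Ici.2 ht.le) h2
    linarith
  -- derivative of g vanishes on (0,t), so P = 0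
  have hev : ∀ s : ℝ, 0 < s → s < t → P u s = 0 := by
    intro s h1 h2
    have h3 : HasDerivAt g 0 s := by
      have h4 : HasDerivAt (fun _ : ℝ => (1:ℝ)) 0 s := hasDerivAt_const s 1
      refine h4.congr_of_eventuallyEq ?_
      filter_upwards [Ioo_mem_nhds h1 h2] with w hw
      exact hg1 w hw.1.le hw.2.le
    have h5 := h3.unique (hgd s)
    unfold P
    have : (u * f1 (s * u) * (starRingEnd ℂ) (f (s * u))).re = 0 := by linarith
    rw [this, mul_zero]
  have hev2 : ∀ s : ℝ, 0 < s → s < t → f1 (s * u) = 0 := by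
    intro s h1 h2
    have h3 : HasDerivAt (P u) 0 s := by
      have h4 : HasDerivAt (fun _ : ℝ => (0:ℝ)) 0 s := hasDerivAt_const s 0
      refine h4.congr_of_eventuallyEq ?_
      filter_upwards [Ioo_mem_nhds h1 h2] with w hw
      exact hev w hw.1 hw.2
    have h5 := h3.unique (P_hasDerivAt u hu s h1)
    have h6 := (mul_eq_zero.1 h5.symm).resolve_left h1.ne'
    have h7 := Complex.normSq_nonneg (f1 (s * u))
    have h8 := Complex.normSq_nonneg (f (s * u))
    have h9 := mul_nonneg (neg_nonneg.2 hre) h8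
    have h10 : Complex.normSq (f1 (s * u)) = 0 := by linarith
    exact Complex.normSq_eq_zero.1 h10
  have hu0 : u ≠ 0 := by rintro rfl; simp at hu
  have hs1 : 0 < t / 2 := by linarith
  have hs2 : t / 2 < t := by linarith
  have htu : ((t / 2 : ℝ) : ℂ) * u ≠ 0 := mul_ne_zero (by exact_mod_cast hs1.ne') hu0
  have h2 : HasDerivAt (fun t : ℝ => f1 (t * u))
      ((- f ((t / 2 : ℝ) * u) - f1 ((t / 2 : ℝ) * u) / ((t / 2 : ℝ) * u)) * u) (t / 2) :=
    comp_line f1 _ u (t / 2) (f1_hasDerivAt (((t / 2 : ℝ) : ℂ) * u) htu)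
  have h3 : HasDerivAt (fun t : ℝ => f1 (t * u)) 0 (t / 2) := by
    have h4 : HasDerivAt (fun _ : ℝ => (0:ℂ)) 0 (t / 2) := hasDerivAt_const _ 0
    refine h4.congr_of_eventuallyEq ?_
    filter_upwards [Ioo_mem_nhds hs1 hs2] with w hw
    exact hev2 w hw.1 hw.2
  have h5 := h3.unique h2
  rw [hev2 _ hs1 hs2] at h5
  simp only [zero_div, sub_zero, neg_mul] at h5
  have h6 : f ((t / 2 : ℝ) * u) = 0 := by
    have := (neg_eq_zero.1 h5.symm)
    exact (mul_eq_zero.1 this).resolve_right hu0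
  have h7 := hg1 (t / 2) hs1.le hs2.le
  simp only [hg] at h7
  rw [h6] at h7
  simp at h7




/-- abstract system of differential inequalities on a vertical segment -/
lemma ode_abstract (p q p1 q1 : ℝ → ℝ) (x y R : ℝ) (hx : 14 / 5 ≤ x) (hy0 : 0 ≤ y) (hyx : y ≤ x)
    (hR4 : 4 ≤ R) (hR : R ^ 2 = x ^ 2 + y ^ 2)
    (hp : ∀ η, HasDerivAt p (p1 η) η) (hq : ∀ η, HasDerivAt q (q1 η) η)
    (hp1 : ∀ η, HasDerivAt p1 ((1 + (x ^ 2 - η ^ 2) / (4 * (x ^ 2 + η ^ 2) ^ 2)) * p η
        + x * η / (2 * (x ^ 2 + η ^ 2) ^ 2) * q η) η)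
    (hq1 : ∀ η, HasDerivAt q1 ((1 + (x ^ 2 - η ^ 2) / (4 * (x ^ 2 + η ^ 2) ^ 2)) * q η
        - x * η / (2 * (x ^ 2 + η ^ 2) ^ 2) * p η) η)
    (hq0 : q 0 = 0) (hp10 : p1 0 = 0) (hA : p 0 ^ 2 + q1 0 ^ 2 ≤ 2 / 3)
    (ha : p y ^ 2 + q y ^ 2 = R) :
    R / 2 < y * (p1 y * p y + q1 y * q y) + x * (q1 y * p y - p1 y * q y) := by
  have hx0 : 0 < x := by linarith
  set α : ℝ → ℝ := fun η => (x ^ 2 - η ^ 2) / (4 * (x ^ 2 + η ^ 2) ^ 2) with hα
  set β : ℝ → ℝ := fun η => x * η / (2 * (x ^ 2 + η ^ 2) ^ 2) with hβ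
  set a : ℝ → ℝ := fun η => p η ^ 2 + q η ^ 2 with hadef
  set b : ℝ → ℝ := fun η => p1 η ^ 2 + q1 η ^ 2 with hbdef
  set r : ℝ → ℝ := fun η => p1 η * p η + q1 η * q η with hrdef
  set m : ℝ → ℝ := fun η => q1 η * p η - p1 η * q η with hmdef
  set K : ℝ → ℝ := fun η => η ^ 2 / (4 * x * (x ^ 2 + η ^ 2)) with hKdef
  have hden : ∀ η : ℝ, 0 < x ^ 2 + η ^ 2 := fun η => by positivity
  have da : ∀ η, HasDerivAt a (2 * r η) η := by
    intro η
    have := ((hp η).pow 2).add ((hq η).pow 2)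
    refine this.congr_deriv ?_
    simp only [hrdef]; push_cast; ring
  have db : ∀ η, HasDerivAt b (2 * (1 + α η) * r η - 2 * β η * m η) η := by
    intro η
    have := ((hp1 η).pow 2).add ((hq1 η).pow 2)
    refine this.congr_deriv ?_
    simp only [hrdef, hmdef, hα, hβ]; push_cast; ring
  have dr : ∀ η, HasDerivAt r (b η + (1 + α η) * a η) η := by
    intro η
    have := ((hp1 η).mul (hp η)).add ((hq1 η).mul (hq η))
    refine this.congr_deriv ?_
    simp only [hbdef, hadef, hα]; ring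
  have dm : ∀ η, HasDerivAt m (-(β η) * a η) η := by
    intro η
    have := ((hq1 η).mul (hp η)).sub ((hp1 η).mul (hq η))
    refine this.congr_deriv ?_
    simp only [hadef, hβ]; ring
  have dK : ∀ η, HasDerivAt K (β η) η := by
    intro η
    have h1 : HasDerivAt (fun η : ℝ => η ^ 2) (2 * η) η := by
      simpa using hasDerivAt_pow 2 η
    have h2 : HasDerivAt (fun η : ℝ => 4 * x * (x ^ 2 + η ^ 2)) (4 * x * (2 * η)) η :=
      (h1.const_add (x ^ 2)).const_mul (4 * x)
    have h3 := h1.div h2 (by have := hden η; positivity)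
    refine h3.congr_deriv ?_
    have := hden η
    simp only [hβ]
    field_simp
    ring
  have hβ0 : ∀ η, 0 ≤ η → 0 ≤ β η := by
    intro η h; simp only [hβ]; have := hden η; positivity
  have hα0 : ∀ η, 0 ≤ η → η ≤ x → 0 ≤ α η := by
    intro η h h'; simp only [hα]; have := hden η
    apply div_nonneg _ (by positivity)
    nlinarith
  have ha0 : ∀ η, 0 ≤ a η := by intro η; simp only [hadef]; positivity
  have hb0 : ∀ η, 0 ≤ b η := by intro η; simp only [hbdef]; positivity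
  have mono : ∀ (F F' : ℝ → ℝ), (∀ η, HasDerivAt F (F' η) η) → (∀ η, 0 < η → η < y → 0 ≤ F' η) →
      ∀ η, 0 ≤ η → η ≤ y → F 0 ≤ F η ∧ F η ≤ F y := by
    intro F F' hF hF' η h1 h2
    have hm : MonotoneOn F (Set.Icc 0 y) := by
      apply monotoneOn_of_deriv_nonneg (convex_Icc 0 y)
      · exact fun t _ => (hF t).continuousAt.continuousWithinAt
      · exact fun t _ => (hF t).differentiableAt.differentiableWithinAt
      · intro t ht
        rw [interior_Icc] at ht
        rw [(hF t).deriv]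
        exact hF' t ht.1 ht.2
    exact ⟨hm ⟨le_rfl, hy0⟩ ⟨h1, h2⟩ h1, hm ⟨h1, h2⟩ ⟨hy0, le_rfl⟩ h2⟩
  -- F1
  have hr0 : r 0 = 0 := by simp only [hrdef, hq0, hp10]; ring
  have F1 : ∀ η, 0 ≤ η → η ≤ y → 0 ≤ r η := by
    intro η h1 h2
    have := (mono r _ dr (fun t h3 h4 => by
      have := hα0 t h3.le (by linarith)
      have := ha0 t; have := hb0 t
      positivity) η h1 h2).1
    linarith
  have F2 : ∀ η, 0 ≤ η → η ≤ y → a η ≤ a y := by
    intro η h1 h2
    exact (mono a _ da (fun t h3 h4 => by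
      have := F1 t h3.le h4.le; linarith) η h1 h2).2
  have F3 : ∀ η, 0 ≤ η → η ≤ y → m η ≤ m 0 := by
    intro η h1 h2
    have := (mono (fun t => - m t) _ (fun t => (dm t).neg) (fun t h3 h4 => by
      have h5 := hβ0 t h3.le
      have h6 := ha0 t
      have := mul_nonneg h5 h6
      linarith) η h1 h2).1
    linarith
  have hm0 : m 0 = q1 0 * p 0 := by simp only [hmdef, hq0]; ring
  have hm0u : m 0 ≤ 1 / 3 := by rw [hm0]; nlinarith [sq_nonneg (q1 0 - p 0)]
  have hm0l : -(1 / 3) ≤ m 0 := by rw [hm0]; nlinarith [sq_nonneg (q1 0 + p 0)]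
  have F4 : m 0 - a y * K y ≤ m y := by
    have := (mono (fun t => m t + a y * K t) _ (fun t => (dm t).add ((dK t).const_mul (a y)))
      (fun t h3 h4 => by
        have h5 := hβ0 t h3.le
        have h6 := F2 t h3.le h4.le
        nlinarith [mul_le_mul_of_nonneg_left h6 h5]) y hy0 le_rfl).1
    have hK0 : K 0 = 0 := by simp [hKdef]
    simp only [hK0] at this
    linarith
  have F5 : ∀ η, 0 ≤ η → η ≤ y → a η - b η ≤ 2 / 3 + 2 / 3 * K η := by
    intro η h1 h2
    have := (mono (fun t => b t - a t + 2 / 3 * K t) _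
      (fun t => ((db t).sub (da t)).add ((dK t).const_mul (2 / 3)))
      (fun t h3 h4 => by
        have h5 := hβ0 t h3.le
        have h6 := hα0 t h3.le (by linarith)
        have h7 := F1 t h3.le h4.le
        have h8 := F3 t h3.le h4.le
        have h9 : m t ≤ 1 / 3 := by linarith
        have h10 := mul_nonneg h6 h7
        have h11 := mul_le_mul_of_nonneg_left h9 h5
        nlinarith) η h1 h2).1
    have hK0 : K 0 = 0 := by simp [hKdef]
    simp only [hK0] at this
    have ha00 : a 0 = p 0 ^ 2 := by simp only [hadef, hq0]; ring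
    have hb00 : b 0 = q1 0 ^ 2 := by simp only [hbdef, hp10]; ring
    nlinarith [sq_nonneg (q1 0), sq_nonneg (p 0)]
  have hRpos : 0 < R := by linarith
  have hKy : K y = y ^ 2 / (4 * x * R ^ 2) := by simp only [hKdef, hR]
  have hKnn : 0 ≤ K y := by rw [hKy]; positivity
  have hay : a y = R := ha
  -- k = R * K y
  set k : ℝ := R * K y with hk
  have hk' : k * (4 * x * R) = y ^ 2 := by
    rw [hk, hKy]; field_simp
  have hk0 : 0 ≤ k := by positivity
  have hyR : 2 * y ^ 2 ≤ R ^ 2 := by nlinarith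
  have hk18 : k ≤ 9 / 50 := by
    by_contra hcon
    push Not at hcon
    have h1 : 9 / 50 * (4 * x * R) < y ^ 2 := by
      rw [← hk']; exact mul_lt_mul_of_pos_right hcon (by positivity)
    have hxR : R ^ 2 ≤ 2 * x ^ 2 := by nlinarith
    have h2 : (9 / 50 * (4 * x * R)) ^ 2 < (y ^ 2) ^ 2 := by
      apply pow_lt_pow_left₀ h1 (by positivity) (by norm_num)
    have h3 : (y ^ 2) ^ 2 ≤ x ^ 2 * (R ^ 2 / 2) := by
      have : (y ^ 2) ^ 2 = y ^ 2 * y ^ 2 := by ring
      rw [this]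
      apply mul_le_mul _ _ (by positivity) (by positivity)
      · nlinarith
      · linarith
    have h4 : 0 < x ^ 2 * R ^ 2 := by positivity
    nlinarith
  have hKle : K y ≤ 9 / 200 := by
    have : R * K y ≤ 9 / 50 := hk18
    nlinarith
  -- lower bound for y
  have hy105 : 21 / 20 < y := by
    by_contra hcon
    push Not at hcon
    set T : ℝ → ℝ := fun η => a η + b η + 2 * r η with hT
    have dT : ∀ η, HasDerivAt T (2 * r η + (2 * (1 + α η) * r η - 2 * β η * m η)
        + 2 * (b η + (1 + α η) * a η)) η := fun η =>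
      ((da η).add (db η)).add ((dr η).const_mul 2)
    have dE : ∀ η : ℝ, HasDerivAt (fun η : ℝ => Real.exp (-(21 / 10) * η))
        (Real.exp (-(21 / 10) * η) * (-(21 / 10))) η := by
      intro η
      have h1 : HasDerivAt (fun η : ℝ => -(21 / 10 : ℝ) * η) (-(21 / 10)) η := by
        simpa using (hasDerivAt_id η).const_mul (-(21 / 10 : ℝ))
      exact h1.exp
    have key := (mono (fun η => -(T η * Real.exp (-(21 / 10) * η))) _
      (fun t => ((dT t).mul (dE t)).neg) (fun t h3 h4 => by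
        have e0 : 0 < Real.exp (-(21 / 10) * t) := Real.exp_pos _
        have h5 := hβ0 t h3.le
        have h6 := hα0 t h3.le (by linarith)
        have h7 := F1 t h3.le h4.le
        have h8 := ha0 t
        have h9 := hb0 t
        have hα1 : α t ≤ 1 / 30 := by
          simp only [hα]
          rw [div_le_iff₀ (by have := hden t; positivity)]
          have : 7 ≤ x ^ 2 := by nlinarith
          nlinarith [sq_nonneg t, sq_nonneg x]
        have hβ1 : β t ≤ 1 / 40 := by
          simp only [hβ]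
          rw [div_le_iff₀ (by have := hden t; positivity)]
          have hx2 : 196 / 25 ≤ x ^ 2 := by nlinarith
          have h41 : t ≤ 21 / 20 := by linarith
          have h42 : 196 / 25 * x ^ 2 ≤ x ^ 2 * x ^ 2 := by nlinarith
          have h43 : x * t ≤ x * (21 / 20) := by nlinarith
          have h44 : x ^ 2 * x ^ 2 ≤ (x ^ 2 + t ^ 2) ^ 2 := by nlinarith [sq_nonneg t, sq_nonneg x, mul_nonneg (sq_nonneg t) (sq_nonneg x), sq_nonneg (t^2)]
          nlinarith
        have hm2 : -(a t + b t) ≤ 2 * m t := by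
          simp only [hadef, hbdef, hmdef]
          nlinarith [sq_nonneg (q1 t + p t), sq_nonneg (p1 t - q t)]
        have h10 : 2 * r t + (2 * (1 + α t) * r t - 2 * β t * m t)
          + 2 * (b t + (1 + α t) * a t) ≤ 21 / 10 * T t := by
          simp only [hT]
          have e1 : α t * (r t + a t) ≤ 1 / 30 * (r t + a t) :=
            mul_le_mul_of_nonneg_right hα1 (by linarith)
          have e2 : -(β t * (2 * m t)) ≤ β t * (a t + b t) := by
            have := mul_le_mul_of_nonneg_left hm2 h5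
            linarith
          have e3 : β t * (a t + b t) ≤ 1 / 40 * (a t + b t) :=
            mul_le_mul_of_nonneg_right hβ1 (by linarith)
          nlinarith
        have h11 := mul_le_mul_of_nonneg_right h10 e0.le
        nlinarith) y hy0 le_rfl).1
    have hT0 : T 0 ≤ 2 / 3 := by
      simp only [hT, hr0, hadef, hbdef, hq0, hp10]
      linarith
    simp only [mul_zero, Real.exp_zero, mul_one] at key
    have key2 : T y * Real.exp (-(21 / 10) * y) ≤ 2 / 3 := by linarith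
    have hexp : Real.exp (21 / 10 * y) ≤ 10 := by
      calc Real.exp (21 / 10 * y) ≤ Real.exp (441 / 200) := by
            apply Real.exp_le_exp.2; linarith
        _ ≤ 10 := by
            rw [← Real.le_log_iff_exp_le (by norm_num)]
            have h2 := Real.log_two_gt_d9
            have h5 : (10 : ℝ) = 2 ^ 3 * (5 / 4) := by norm_num
            rw [h5, Real.log_mul (by norm_num) (by norm_num), Real.log_pow]
            have h6 : 1 - (5 / 4 : ℝ)⁻¹ ≤ Real.log (5 / 4) :=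
              Real.one_sub_inv_le_log_of_pos (by norm_num)
            push_cast
            norm_num at h6 ⊢
            linarith
    have key3 : T y ≤ 20 / 3 := by
      have e1 : T y = T y * Real.exp (-(21 / 10) * y) * Real.exp (21 / 10 * y) := by
        rw [mul_assoc, ← Real.exp_add]; ring_nf; simp
      rw [e1]
      calc T y * Real.exp (-(21 / 10) * y) * Real.exp (21 / 10 * y)
          ≤ 2 / 3 * Real.exp (21 / 10 * y) := mul_le_mul_of_nonneg_right key2 (Real.exp_pos _).le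
        _ ≤ 2 / 3 * 10 := by linarith
        _ = 20 / 3 := by norm_num
    have h5 := F5 y hy0 le_rfl
    have h6 := F1 y hy0 le_rfl
    simp only [hT] at key3
    rw [hay] at h5 key3
    linarith
  -- final inequality
  have h5 := F5 y hy0 le_rfl
  rw [hay] at h5
  have h6 := F1 y hy0 le_rfl
  have h7 : m y ≤ 1 / 3 := by have := F3 y hy0 le_rfl; linarith
  have h8 : -(1 / 3) - k ≤ m y := by
    rw [hay] at F4; rw [hk]; linarith
  have hid : r y ^ 2 = a y * b y - m y ^ 2 := by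
    simp only [hadef, hbdef, hrdef, hmdef]; ring
  have hb7 : R - 7 / 10 ≤ b y := by linarith
  have hm2 : m y ^ 2 ≤ 264 / 1000 := by
    have h9 : -(514 / 1000) ≤ m y := by linarith
    nlinarith
  have hr2 : (89 / 100 * R) ^ 2 ≤ r y ^ 2 := by
    rw [hid, hay]
    have : R * (R - 7 / 10) ≤ R * b y := mul_le_mul_of_nonneg_left hb7 hRpos.le
    nlinarith
  have hr89 : 89 / 100 * R ≤ r y := by
    exact (sq_le_sq₀ (by positivity) h6).1 hr2
  have h10 : y * (89 / 100 * R) ≤ y * r y := mul_le_mul_of_nonneg_left hr89 hy0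
  have h11 : x * (-(1 / 3) - k) ≤ x * m y := mul_le_mul_of_nonneg_left h8 hx0.le
  have h12 : x * k * (4 * R) = y ^ 2 := by rw [← hk']; ring
  have goal2 : R / 2 < y * (89 / 100 * R) + x * (-(1 / 3) - k) := by
    have h13 : 21 / 20 * (89 / 100 * R) < y * (89 / 100 * R) :=
      mul_lt_mul_of_pos_right hy105 (by positivity)
    have h14 : (R / 2) * (4 * R) < (21 / 20 * (89 / 100 * R) + x * (-(1 / 3) - k)) * (4 * R) := by
      nlinarith [sq_nonneg (x - 2 / 3 * R)]
    have h15 := lt_of_mul_lt_mul_right h14 (by positivity)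
    linarith
  linarith


/-! the normalised function `W = z^(1/2) J_0` -/

noncomputable def sW (z : ℂ) : ℂ := Complex.exp (Complex.log z / 2)

noncomputable def W (z : ℂ) : ℂ := sW z * f z
noncomputable def W1 (z : ℂ) : ℂ := sW z * (f1 z + f z / (2 * z))

lemma sW_hasDerivAt (z : ℂ) (hz : z ∈ Complex.slitPlane) : HasDerivAt sW (sW z / (2 * z)) z := by
  have h := ((Complex.hasDerivAt_log hz).div_const 2).cexp
  refine h.congr_deriv ?_
  unfold sW
  have := Complex.slitPlane_ne_zero hz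
  field_simp

lemma W_hasDerivAt (z : ℂ) (hz : z ∈ Complex.slitPlane) : HasDerivAt W (W1 z) z := by
  have h := (sW_hasDerivAt z hz).mul (f_hasDerivAt z)
  have e : W = sW * f := rfl
  rw [e]
  refine h.congr_deriv ?_
  unfold W1
  have := Complex.slitPlane_ne_zero hz
  field_simp
  ring

lemma W1_hasDerivAt (z : ℂ) (hz : z ∈ Complex.slitPlane) :
    HasDerivAt W1 (-((1 + 1 / (4 * z ^ 2)) * W z)) z := by
  have hz0 := Complex.slitPlane_ne_zero hz
  have h1 : HasDerivAt (fun z : ℂ => 2 * z) 2 z := by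
    simpa using (hasDerivAt_id z).const_mul (2 : ℂ)
  have h2 := (f_hasDerivAt z).div h1 (by simpa using hz0)
  have h3 := (f1_hasDerivAt z hz0).add h2
  have h := (sW_hasDerivAt z hz).mul h3
  refine h.congr_deriv ?_
  unfold W
  simp only [Pi.add_apply, Pi.div_apply]
  field_simp
  ring

lemma comp_vert (g : ℂ → ℂ) (g' : ℂ) (x η : ℝ) (h : HasDerivAt g g' ((x : ℂ) + (η : ℂ) * I)) :
    HasDerivAt (fun η : ℝ => g ((x : ℂ) + (η : ℂ) * I)) (g' * I) η := by
  have h0 : HasDerivAt (fun η : ℝ => (x : ℂ) + (η : ℂ) * I) I η := by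
    simpa using ((Complex.ofRealCLM.hasDerivAt (x := η)).mul_const I).const_add (x : ℂ)
  exact h.comp η h0

lemma normSq_sW (z : ℂ) (hz : z ≠ 0) : Complex.normSq (sW z) = ‖z‖ := by
  unfold sW
  rw [Complex.normSq_eq_norm_sq, Complex.norm_exp]
  have : (Complex.log z / 2).re = Real.log ‖z‖ / 2 := by
    have : (2 : ℂ) = ((2 : ℝ) : ℂ) := by norm_num
    rw [this, Complex.div_ofReal_re, Complex.log_re]
  rw [this, ← Real.exp_nat_mul]
  push_cast
  rw [mul_div_cancel₀ _ (two_ne_zero)]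
  exact Real.exp_log (norm_pos_iff.2 hz)

lemma sW_real (x : ℝ) (hx : 0 < x) : sW x = ((Real.exp (Real.log x / 2) : ℝ) : ℂ) := by
  unfold sW
  rw [← Complex.ofReal_log hx.le]
  push_cast
  rfl

lemma key_M (u : ℂ) (hu : Complex.normSq u = 1) (h0 : 0 ≤ u.im) (h1 : u.im ≤ u.re) (t : ℝ) (ht : 4 ≤ t)
    (hf : Complex.normSq (f (t * u)) = 1) :
    0 < (u * f1 (t * u) * (starRingEnd ℂ) (f (t * u))).re := by
  have ht0 : 0 < t := by linarith
  have hn : u.re * u.re + u.im * u.im = 1 := by rw [← hu, Complex.normSq_apply]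
  have hre7 : 7 / 10 ≤ u.re := by nlinarith
  set x : ℝ := t * u.re with hx
  set y : ℝ := t * u.im with hy
  have hx28 : 14 / 5 ≤ x := by rw [hx]; nlinarith
  have hx0 : 0 < x := by linarith
  have hy0 : 0 ≤ y := by rw [hy]; positivity
  have hyx : y ≤ x := by rw [hx, hy]; exact mul_le_mul_of_nonneg_left h1 ht0.le
  have hR : t ^ 2 = x ^ 2 + y ^ 2 := by rw [hx, hy]; linear_combination (-(t ^ 2)) * hn
  have hz : (t : ℂ) * u = (x : ℂ) + (y : ℂ) * I := by
    apply Complex.ext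
    · simp [hx]
    · simp [hy]
  have hslit : ∀ η : ℝ, (x : ℂ) + (η : ℂ) * I ∈ Complex.slitPlane := by
    intro η; left; simpa using hx0
  set V : ℝ → ℂ := fun η => W ((x : ℂ) + (η : ℂ) * I) with hV
  set V1 : ℝ → ℂ := fun η => W1 ((x : ℂ) + (η : ℂ) * I) * I with hV1
  have dV : ∀ η, HasDerivAt V (V1 η) η := fun η => comp_vert W _ x η (W_hasDerivAt _ (hslit η))
  have dV1 : ∀ η : ℝ, HasDerivAt V1 ((1 + 1 / (4 * ((x : ℂ) + (η : ℂ) * I) ^ 2)) * V η) η := by
    intro η
    have := (comp_vert W1 _ x η (W1_hasDerivAt _ (hslit η))).mul_const I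
    refine this.congr_deriv ?_
    simp only [hV]
    rw [mul_assoc, Complex.I_mul_I]; ring
  have hq : ∀ η : ℝ, 1 / (4 * ((x : ℂ) + (η : ℂ) * I) ^ 2) =
      (((x ^ 2 - η ^ 2) / (4 * (x ^ 2 + η ^ 2) ^ 2) : ℝ) : ℂ) +
        ((-(x * η / (2 * (x ^ 2 + η ^ 2) ^ 2)) : ℝ) : ℂ) * I := by
    intro η
    have hz0 := Complex.slitPlane_ne_zero (hslit η)
    have hd : (x ^ 2 + η ^ 2 : ℝ) ≠ 0 := by positivity
    have hd' : ((x : ℂ) ^ 2 + (η : ℂ) ^ 2) ≠ 0 := by exact_mod_cast hd
    have hw0 : (x : ℂ) - (η : ℂ) * I ≠ 0 := by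
      intro h; apply hd'
      linear_combination ((x : ℂ) + (η : ℂ) * I) * h + (η : ℂ) ^ 2 * Complex.I_sq
    have hfac : ((x : ℂ) ^ 2 + (η : ℂ) ^ 2) = ((x : ℂ) + (η : ℂ) * I) * ((x : ℂ) - (η : ℂ) * I) := by
      linear_combination (η : ℂ) ^ 2 * Complex.I_sq
    have hw2 : ((x : ℂ) ^ 2 - (η : ℂ) ^ 2) - 2 * x * η * I = ((x : ℂ) - (η : ℂ) * I) ^ 2 := by
      linear_combination (-(η : ℂ) ^ 2) * Complex.I_sq
    have e1 : (((x ^ 2 - η ^ 2) / (4 * (x ^ 2 + η ^ 2) ^ 2) : ℝ) : ℂ) +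
        ((-(x * η / (2 * (x ^ 2 + η ^ 2) ^ 2)) : ℝ) : ℂ) * I
        = (((x : ℂ) ^ 2 - (η : ℂ) ^ 2) - 2 * x * η * I) / (4 * ((x : ℂ) ^ 2 + (η : ℂ) ^ 2) ^ 2) := by
      push_cast
      field_simp
      ring
    rw [e1, hw2, hfac]
    field_simp
  have hpr : ∀ (U : ℝ → ℂ) (U' : ℂ) (η : ℝ), HasDerivAt U U' η → HasDerivAt (fun η => (U η).re) U'.re η :=
    fun U U' η h => (Complex.reCLM.hasFDerivAt.comp_hasDerivAt η h)
  have hpi : ∀ (U : ℝ → ℂ) (U' : ℂ) (η : ℝ), HasDerivAt U U' η → HasDerivAt (fun η => (U η).im) U'.im η :=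
    fun U U' η h => (Complex.imCLM.hasFDerivAt.comp_hasDerivAt η h)
  have hV0 : V 0 = ((Real.exp (Real.log x / 2) * φ x : ℝ) : ℂ) := by
    simp only [hV, Complex.ofReal_zero, zero_mul, add_zero]
    unfold W
    rw [sW_real x hx0, f_real]; push_cast; rfl
  have hV10 : V1 0 = ((Real.exp (Real.log x / 2) * (φ1 x + φ x / (2 * x)) : ℝ) : ℂ) * I := by
    simp only [hV1, Complex.ofReal_zero, zero_mul, add_zero]
    unfold W1
    rw [sW_real x hx0, f_real, f1_real]; push_cast; rfl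
  have hex : Real.exp (Real.log x / 2) ^ 2 = x := by
    rw [← Real.exp_nat_mul]; push_cast
    rw [mul_div_cancel₀ _ (two_ne_zero)]
    exact Real.exp_log hx0
  have hznorm : ‖(x : ℂ) + (y : ℂ) * I‖ = t := by
    rw [← hz, norm_mul, Complex.norm_real, Real.norm_of_nonneg ht0.le]
    have : ‖u‖ = 1 := by
      have := Complex.normSq_eq_norm_sq u
      rw [hu] at this
      nlinarith [norm_nonneg u]
    rw [this, mul_one]
  have hz0 := Complex.slitPlane_ne_zero (hslit y)
  have hVy : Complex.normSq (V y) = t := by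
    simp only [hV]
    unfold W
    rw [map_mul, normSq_sW _ hz0, hznorm, ← hz, hf, mul_one]
  have main := ode_abstract (fun η => (V η).re) (fun η => (V η).im) (fun η => (V1 η).re) (fun η => (V1 η).im)
    x y t hx28 hy0 hyx ht hR (fun η => hpr V _ η (dV η)) (fun η => hpi V _ η (dV η))
    (fun η => by
      refine (hpr V1 _ η (dV1 η)).congr_deriv ?_
      rw [hq η]
      simp only [Complex.mul_re, Complex.add_re, Complex.add_im, Complex.one_re, Complex.one_im,
        Complex.ofReal_re, Complex.ofReal_im, Complex.mul_im, Complex.I_re, Complex.I_im]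
      ring)
    (fun η => by
      refine (hpi V1 _ η (dV1 η)).congr_deriv ?_
      rw [hq η]
      simp only [Complex.mul_re, Complex.add_re, Complex.add_im, Complex.one_re, Complex.one_im,
        Complex.ofReal_re, Complex.ofReal_im, Complex.mul_im, Complex.I_re, Complex.I_im]
      ring)
    (by simp only [hV0, Complex.ofReal_im])
    (by
      show (V1 0).re = 0
      rw [hV10]
      simp only [Complex.mul_re, Complex.ofReal_re, Complex.ofReal_im, Complex.I_re, Complex.I_im]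
      ring)
    (by
      have a1 : (V 0).re = Real.exp (Real.log x / 2) * φ x := by rw [hV0, Complex.ofReal_re]
      have a2 : (V1 0).im = Real.exp (Real.log x / 2) * (φ1 x + φ x / (2 * x)) := by
        rw [hV10]
        simp only [Complex.mul_im, Complex.ofReal_re, Complex.ofReal_im, Complex.I_re, Complex.I_im]
        ring
      show (V 0).re ^ 2 + (V1 0).im ^ 2 ≤ 2 / 3
      rw [a1, a2, mul_pow, mul_pow, hex]
      have hE := E_le x (by linarith)
      unfold E at hE
      have : x * φ x ^ 2 + x * (φ1 x + φ x / (2 * x)) ^ 2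
          = x * (φ x ^ 2 + φ1 x ^ 2) + φ x * φ1 x + φ x ^ 2 / (2 * x) - φ x ^ 2 / (4 * x) := by
        field_simp; ring
      rw [this]
      have : 0 ≤ φ x ^ 2 / (4 * x) := by positivity
      linarith)
    (by
      have : (V y).re ^ 2 + (V y).im ^ 2 = Complex.normSq (V y) := by
        rw [Complex.normSq_apply]; ring
      rw [← hVy, ← this])
  -- translate
  have e2 : (V1 y * (starRingEnd ℂ) (V y)) = I * ((t : ℂ) * ((f1 (t * u) + f (t * u) / (2 * (t * u))) * (starRingEnd ℂ) (f (t * u)))) := by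
    simp only [hV1, hV]
    unfold W W1
    rw [map_mul, ← hz]
    have e3 : sW (t * u) * (starRingEnd ℂ) (sW (t * u)) = (t : ℂ) := by
      rw [Complex.mul_conj, hz, normSq_sW _ hz0, hznorm]
    calc _ = (sW (t * u) * (starRingEnd ℂ) (sW (t * u))) * (I * ((f1 (t * u) + f (t * u) / (2 * (t * u))) * (starRingEnd ℂ) (f (t * u)))) := by ring
      _ = _ := by rw [e3]; ring
  have hzc : ((t : ℂ) * u) ≠ 0 := by rw [hz]; exact hz0
  have e4 : ((t : ℂ) * u) * ((t : ℂ) * ((f1 (t * u) + f (t * u) / (2 * (t * u))) * (starRingEnd ℂ) (f (t * u))))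
     = ((t ^ 2 : ℝ) : ℂ) * (u * f1 (t * u) * (starRingEnd ℂ) (f (t * u))) + ((t / 2 : ℝ) : ℂ) := by
    have e5 : f (t * u) * (starRingEnd ℂ) (f (t * u)) = 1 := by
      rw [Complex.mul_conj, hf]; norm_num
    have e6 : ((t : ℂ) * u) * ((t : ℂ) * ((f1 (t * u) + f (t * u) / (2 * (t * u))) * (starRingEnd ℂ) (f (t * u))))
      = (t : ℂ) ^ 2 * (u * f1 (t * u) * (starRingEnd ℂ) (f (t * u))) + (t : ℂ) / 2 * (f (t * u) * (starRingEnd ℂ) (f (t * u))) := by
      have hu0 : u ≠ 0 := right_ne_zero_of_mul hzc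
      have ht00 : (t : ℂ) ≠ 0 := left_ne_zero_of_mul hzc
      field_simp
    rw [e6, e5]; push_cast; ring
  set G : ℂ := (t : ℂ) * ((f1 (t * u) + f (t * u) / (2 * (t * u))) * (starRingEnd ℂ) (f (t * u))) with hG
  have e7 : y * ((V1 y).re * (V y).re + (V1 y).im * (V y).im) + x * ((V1 y).im * (V y).re - (V1 y).re * (V y).im)
      = (((t : ℂ) * u) * G).re := by
    have a1 : (V1 y).re * (V y).re + (V1 y).im * (V y).im = (V1 y * (starRingEnd ℂ) (V y)).re := by
      simp [Complex.mul_re]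
    have a2 : (V1 y).im * (V y).re - (V1 y).re * (V y).im = (V1 y * (starRingEnd ℂ) (V y)).im := by
      simp [Complex.mul_im]; ring
    rw [a1, a2, e2, hz]
    simp [Complex.mul_re, Complex.mul_im]
    ring
  have main' : t / 2 < (((t : ℂ) * u) * G).re := by rw [← e7]; exact main
  rw [e4, Complex.add_re, Complex.ofReal_re, Complex.re_ofReal_mul] at main'
  have h8 : 0 < t ^ 2 * (u * f1 (t * u) * (starRingEnd ℂ) (f (t * u))).re := by linarith
  exact (mul_pos_iff_of_pos_left (by positivity)).1 h8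

lemma uniq (u : ℂ) (hu : Complex.normSq u = 1) (h0 : 0 ≤ u.im) (h1 : u.im ≤ u.re) (s t : ℝ)
    (hs : 4 ≤ s) (hst : s < t) (hfs : f (s * u) = 1) (hft : f (t * u) = 1) : False := by
  set g : ℝ → ℝ := fun t => Complex.normSq (f (t * u)) with hg
  have dg : ∀ w : ℝ, HasDerivAt g (2 * (u * f1 (w * u) * (starRingEnd ℂ) (f (w * u))).re) w :=
    fun w => normSq_hasDerivAt u w
  have hgs : g s = 1 := by simp [hg, hfs]
  have hgt : g t = 1 := by simp [hg, hft]
  have hM : ∀ w : ℝ, 4 ≤ w → g w = 1 → 0 < 2 * (u * f1 (w * u) * (starRingEnd ℂ) (f (w * u))).re := by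
    intro w hw hgw
    have := key_M u hu h0 h1 w hw hgw
    linarith
  have hge : ∀ w ∈ Set.Icc s t, (1 : ℝ) ≤ g w := by
    intro w hw
    refine image_le_of_deriv_right_lt_deriv_boundary' (f := fun _ => (1:ℝ)) (f' := fun _ => 0) (a := s) (b := t)
      continuousOn_const (fun x _ => (hasDerivAt_const x (1:ℝ)).hasDerivWithinAt) (B := g)
      (B' := fun w => 2 * (u * f1 (w * u) * (starRingEnd ℂ) (f (w * u))).re) (by rw [hgs])
      (fun x _ => (dg x).continuousAt.continuousWithinAt) (fun x _ => (dg x).hasDerivWithinAt)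
      ?_ hw
    intro x hx h
    exact hM x (by have := hx.1; linarith) h.symm
  have hpos := hM t (by linarith) hgt
  have hle : 2 * (u * f1 (t * u) * (starRingEnd ℂ) (f (t * u))).re ≤ 0 := by
    have h3 := (hasDerivWithinAt_iff_tendsto_slope' (by simp)).1 ((dg t).hasDerivWithinAt (s := Set.Iio t))
    refine le_of_tendsto h3 ?_
    filter_upwards [Ioo_mem_nhdsLT hst] with w hw
    rw [slope_def_field, hgt]
    apply div_nonpos_of_nonneg_of_nonpos
    · have := hge w ⟨hw.1.le, hw.2.le⟩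
      linarith
    · linarith [hw.2]
  linarith

lemma f_abs_symm (u : ℂ) (t : ℝ) (h : f (t * u) = 1) : f (t * ((|u.re| : ℝ) + (|u.im| : ℝ) * I)) = 1 := by
  have hu : u = (u.re : ℂ) + (u.im : ℂ) * I := (Complex.re_add_im u).symm
  have hc : f (t * ((u.re : ℂ) - (u.im : ℂ) * I)) = 1 := by
    have : (t : ℂ) * ((u.re : ℂ) - (u.im : ℂ) * I) = (starRingEnd ℂ) (t * u) := by
      apply Complex.ext <;> simp
    rw [this, f_conj, h, map_one]
  have hp : f (t * ((u.re : ℂ) + (u.im : ℂ) * I)) = 1 := by rw [← hu]; exact h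
  rcases abs_choice u.re with h1 | h1 <;> rcases abs_choice u.im with h2 | h2 <;> rw [h1, h2] <;> push_cast
  · exact hp
  · rw [← hc]; congr 1; ring
  · rw [← hc, ← f_neg]; congr 1; ring
  · rw [← hp, ← f_neg]; congr 1; ring

theorem result' :
    ∀ u : ℂ, ‖u‖ = 1 → ∀ s t : ℝ, 0 < s → 0 < t →
      (∑' n : ℕ, (-1 : ℂ) ^ n * (((s : ℂ) * u) / 2) ^ (2 * n) / ((n.factorial : ℂ)) ^ 2) = 1 →
      (∑' n : ℕ, (-1 : ℂ) ^ n * (((t : ℂ) * u) / 2) ^ (2 * n) / ((n.factorial : ℂ)) ^ 2) = 1 →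
      s = t := by
  intro u hu s t hs ht hfs hft
  rw [f_eq] at hfs hft
  have hn : Complex.normSq u = 1 := by rw [Complex.normSq_eq_norm_sq, hu]; norm_num
  by_cases hre : (u ^ 2).re ≤ 0
  · exact absurd hfs (case_A u hn hre s hs)
  · push Not at hre
    have hre' : 0 < u.re ^ 2 - u.im ^ 2 := by
      have : (u ^ 2).re = u.re ^ 2 - u.im ^ 2 := by rw [sq, Complex.mul_re]; ring
      rw [← this]; exact hre
    set v : ℂ := (|u.re| : ℝ) + (|u.im| : ℝ) * I with hv
    have hvre : v.re = |u.re| := by simp [hv]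
    have hvim : v.im = |u.im| := by simp [hv]
    have hvn : Complex.normSq v = 1 := by
      rw [Complex.normSq_apply, hvre, hvim, abs_mul_abs_self, abs_mul_abs_self, ← Complex.normSq_apply]
      exact hn
    have h1 := f_abs_symm u s hfs
    have h2 := f_abs_symm u t hft
    have hv0 : v ≠ 0 := by intro h; rw [h] at hvn; simp at hvn
    have hvnorm : ‖v‖ = 1 := by
      have := Complex.normSq_eq_norm_sq v
      rw [hvn] at this
      nlinarith [norm_nonneg v]
    have h4 : ∀ w : ℝ, 0 < w → f (w * v) = 1 → 4 ≤ w := by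
      intro w hw hfw
      by_contra hcon
      push Not at hcon
      refine f_ne_one_of_small (w * v) (mul_ne_zero (by exact_mod_cast hw.ne') hv0) ?_ hfw
      rw [norm_mul, hvnorm, mul_one, Complex.norm_real, Real.norm_of_nonneg hw.le]
      exact hcon
    have him : v.im ≤ v.re := by
      rw [hvre, hvim]
      exact sq_le_sq.1 (by linarith)
    have him0 : 0 ≤ v.im := by rw [hvim]; exact abs_nonneg _
    rcases lt_trichotomy s t with h | h | h
    · exact (uniq v hvn him0 him s t (h4 s hs h1) h h1 h2).elim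
    · exact h
    · exact (uniq v hvn him0 him t s (h4 t ht h2) h h2 h1).elim


/-- For every unit complex number u, the Bessel function J_0 (given by its power series) takes the value 1 at most at one point t·u with t>0, i.e. J_0(z)=1 has at most one solution on each open ray from the origin. -/
theorem result :
    ∀ u : ℂ, ‖u‖ = 1 → ∀ s t : ℝ, 0 < s → 0 < t →
      (∑' n : ℕ, (-1 : ℂ) ^ n * (((s : ℂ) * u) / 2) ^ (2 * n) / ((n.factorial : ℂ)) ^ 2) = 1 →
      (∑' n : ℕ, (-1 : ℂ) ^ n * (((t : ℂ) * u) / 2) ^ (2 * n) / ((n.factorial : ℂ)) ^ 2) = 1 →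
      s = t := by
  exact result'

end Pool.Agent.S03941
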