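import Pool.Statements.S03947
import Pool.Agent.RM8c.F1
-- import your own Pool.Agent.* helpers here

set_option autoImplicit false
open MeasureTheory
open Pool Pool.MP_bf8c07_an

namespace Pool.Agent.S03947

/-- For each d ≥ 1 there is C such that for every radial f in W^{1,1}(R^d) with weak gradient g, the centered maximal function Mf is a.e. finite, locally integrable, and has an integrable weak gradient G with ∫∣G∣ ≤ C ∫∣g∣. -/
theorem result :
  ∀ d : ℕ, 1 ≤ d → ∃ C : ℝ, 0 ≤ C ∧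
    ∀ (f : EuclideanSpace ℝ (Fin d) → ℝ)
      (g : EuclideanSpace ℝ (Fin d) → EuclideanSpace ℝ (Fin d)),
      (∀ x y : EuclideanSpace ℝ (Fin d), ‖x‖ = ‖y‖ → f x = f y) →
      Integrable f → Integrable g →
      (∀ φ : EuclideanSpace ℝ (Fin d) → ℝ,
        ContDiff ℝ ((⊤ : ℕ∞) : WithTop ℕ∞) φ → HasCompactSupport φ →
        ∀ v : EuclideanSpace ℝ (Fin d),
          ∫ x, f x * fderiv ℝ φ x v = - ∫ x, inner ℝ (g x) v * φ x) →
      (∀ᵐ x ∂(volume : Measure (EuclideanSpace ℝ (Fin d))),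
          (⨆ (r : ℝ) (_ : 0 < r),
            (volume (Metric.ball x r))⁻¹ * ∫⁻ y in Metric.ball x r, ‖f y‖ₑ) < ⊤) ∧
      ∃ G : EuclideanSpace ℝ (Fin d) → EuclideanSpace ℝ (Fin d),
        Integrable G ∧
        LocallyIntegrable (fun x : EuclideanSpace ℝ (Fin d) =>
          (⨆ (r : ℝ) (_ : 0 < r),
            (volume (Metric.ball x r))⁻¹ * ∫⁻ y in Metric.ball x r, ‖f y‖ₑ).toReal) ∧
        (∀ φ : EuclideanSpace ℝ (Fin d) → ℝ,
          ContDiff ℝ ((⊤ : ℕ∞) : WithTop ℕ∞) φ → HasCompactSupport φ →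
          ∀ v : EuclideanSpace ℝ (Fin d),
            ∫ x, (⨆ (r : ℝ) (_ : 0 < r),
              (volume (Metric.ball x r))⁻¹ * ∫⁻ y in Metric.ball x r, ‖f y‖ₑ).toReal
                * fderiv ℝ φ x v
              = - ∫ x, inner ℝ (G x) v * φ x) ∧
        ∫ x, ‖G x‖ ≤ C * ∫ x, ‖g x‖ := by
  intro d hd
  obtain ⟨n, rfl⟩ : ∃ n, d = n + 1 := ⟨d - 1, by omega⟩
  exact Pool.Agent.RM8c.FINn n

end Pool.Agent.S03947
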