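import Pool.Statements.S03952

set_option autoImplicit false
open Pool Pool.MP_c0175c_an

namespace Pool.Agent.S03952

section helpers
open MeasureTheory Filter Topology Set

lemma unif_ac {α X : Type*} [MeasurableSpace α] [NormedAddCommGroup X]
    (ν : VectorMeasure α X) (m : Measure α) [IsFiniteMeasure m]
    (hac : ∀ E, MeasurableSet E → m E = 0 → ν E = 0) (ε : ℝ) (hε : 0 < ε) :
    ∃ δ : ℝ, 0 < δ ∧ ∀ E, MeasurableSet E → m.real E < δ → ‖ν E‖ ≤ ε := by
  by_contra hcon
  push Not at hcon
  have h1 : ∀ j : ℕ, ∃ E, MeasurableSet E ∧ m.real E < (1/2 : ℝ)^j ∧ ε < ‖ν E‖ := by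
    intro j
    obtain ⟨E, hE1, hE2, hE3⟩ := hcon ((1/2 : ℝ)^j) (by positivity)
    exact ⟨E, hE1, hE2, hE3⟩
  choose E hEm hEs hEn using h1
  set C : ℕ → Set α := fun n => ⋃ j ∈ {j | n ≤ j}, E j with hC
  set B : Set α := ⋂ n, C n with hB
  have hCm : ∀ n, MeasurableSet (C n) := by
    intro n
    exact MeasurableSet.biUnion (Set.to_countable _) (fun j _ => hEm j)
  have hBm : MeasurableSet B := MeasurableSet.iInter hCm
  have hCanti : Antitone C := by
    intro a b hab
    apply Set.biUnion_subset_biUnion_left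
    intro j hj
    exact le_trans hab hj
  have hB0 : m B = 0 := by
    have hsum : ∑' j, m (E j) ≠ ⊤ := by
      have hle : ∀ j, m (E j) ≤ ENNReal.ofReal ((1/2 : ℝ)^j) := by
        intro j
        rw [← ENNReal.ofReal_toReal (measure_ne_top m (E j))]
        exact ENNReal.ofReal_le_ofReal (le_of_lt (hEs j))
      have hs : Summable (fun j : ℕ => (1/2 : ℝ)^j) := summable_geometric_two
      have := ENNReal.ofReal_tsum_of_nonneg (fun j => by positivity) hs
      refine ne_top_of_le_ne_top ?_ (ENNReal.tsum_le_tsum hle)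
      rw [← this]
      exact ENNReal.ofReal_ne_top
    have := measure_limsup_atTop_eq_zero hsum
    rw [limsup_eq_iInf_iSup_of_nat] at this
    have hBe : B = ⨅ n, ⨆ i, ⨆ (_ : i ≥ n), E i := by
      ext x
      simp [hB, hC]
    rw [hBe]
    exact this
  set A : ℕ → Set α := fun n => E n \ B with hA
  have hAm : ∀ n, MeasurableSet (A n) := fun n => (hEm n).diff hBm
  have hAC : ∀ n, A n ⊆ C n := by
    intro n x hx
    simp only [hC, Set.mem_iUnion]
    exact ⟨n, le_refl n, hx.1⟩
  have hAn : ∀ n, ε < ‖ν (A n)‖ := by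
    intro n
    have h2 : ν (E n ∩ B) + ν (A n) = ν (E n) := by
      have := ν.of_add_of_sdiff ((hEm n).inter hBm) (hEm n) Set.inter_subset_left
      rw [Set.sdiff_self_inter] at this
      exact this
    have h3 : ν (E n ∩ B) = 0 := by
      apply hac _ ((hEm n).inter hBm)
      exact measure_mono_null Set.inter_subset_right hB0
    rw [h3, zero_add] at h2
    rw [h2]
    exact hEn n
  have hlim : ∀ n, ∃ k, n < k ∧ ‖ν (A n ∩ C k)‖ < ε / 2 := by
    intro n
    have ht := ν.tendsto_vectorMeasure_iInter_atTop_nat (s := fun k => A n ∩ C k)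
      (by
        intro a b hab
        exact Set.inter_subset_inter_right _ (hCanti hab))
      (fun k => (hAm n).inter (hCm k))
    have he : (⋂ k, A n ∩ C k) = ∅ := by
      rw [← Set.inter_iInter]
      simp only [hA]
      exact Set.sdiff_inter_self
    rw [he, ν.empty] at ht
    have := (ht.norm)
    rw [norm_zero] at this
    have hev := this.eventually (gt_mem_nhds (half_pos hε))
    obtain ⟨k, hk1, hk2⟩ := (hev.and (eventually_gt_atTop n)).exists
    exact ⟨k, hk2, hk1⟩
  choose k hk1 hk2 using hlim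
  let s : ℕ → ℕ := fun i => Nat.rec 0 (fun _ x => k x) i
  have hs : ∀ i, s (i+1) = k (s i) := fun i => rfl
  have hsm : StrictMono s := strictMono_nat_of_lt_succ (fun i => by rw [hs]; exact hk1 _)
  set D : ℕ → Set α := fun i => A (s i) \ C (s (i+1)) with hD
  have hDm : ∀ i, MeasurableSet (D i) := fun i => (hAm _).diff (hCm _)
  have hdisj : ∀ i j, i < j → Disjoint (D i) (D j) := by
    intro i j hij
    rw [Set.disjoint_left]
    intro x hx hy
    apply hx.2
    apply hCanti (hsm.monotone (Nat.succ_le_of_lt hij))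
    exact hAC _ hy.1
  have hpd : Pairwise (Function.onFun Disjoint D) := by
    intro i j hij
    rcases lt_or_gt_of_ne hij with h | h
    · exact hdisj i j h
    · exact (hdisj j i h).symm
  have hsum := ν.m_iUnion hDm hpd
  have ht0 := hsum.summable.tendsto_atTop_zero
  have hDn : ∀ i, ε / 2 ≤ ‖ν (D i)‖ := by
    intro i
    have h2 : ν (A (s i) ∩ C (s (i+1))) + ν (D i) = ν (A (s i)) := by
      have := ν.of_add_of_sdiff ((hAm (s i)).inter (hCm (s (i+1)))) (hAm (s i)) Set.inter_subset_left
      rw [Set.sdiff_self_inter] at this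
      exact this
    have h3 := hAn (s i)
    have h4 := hk2 (s i)
    rw [← hs] at h4
    rw [← h2] at h3
    have h5 := norm_add_le (ν (A (s i) ∩ C (s (i+1)))) (ν (D i))
    linarith
  have := ht0.norm
  rw [norm_zero] at this
  have hev := this.eventually (gt_mem_nhds (half_pos hε))
  obtain ⟨i, hi⟩ := hev.exists
  linarith [hDn i]

lemma sqrt_ineq (M x y : ℝ) (hM : 0 < M) :
    Real.sqrt (M^2 + (x+y)^2) ≤ Real.sqrt (M^2 + x^2) + (x / Real.sqrt (M^2+x^2)) * y
      + min (y^2/(2*M)) (2*|y|) := by
  set a := Real.sqrt (M^2 + x^2) with ha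
  have ha2 : a^2 = M^2 + x^2 := Real.sq_sqrt (by positivity)
  have hMa : M ≤ a := by
    rw [ha]; apply Real.le_sqrt_of_sq_le; nlinarith [sq_nonneg x]
  have ha0 : 0 < a := lt_of_lt_of_le hM hMa
  have hxa : |x| ≤ a := by
    rw [ha]; apply Real.abs_le_sqrt; nlinarith [sq_nonneg M]
  have hxa' : |x / a| ≤ 1 := by
    rw [abs_div, abs_of_pos ha0]
    exact div_le_one_of_le₀ hxa ha0.le
  have hxay : |(x/a)*y| ≤ |y| := by
    rw [abs_mul]
    calc |x/a| * |y| ≤ 1 * |y| := by gcongr
      _ = |y| := one_mul _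
  rw [← sub_le_iff_le_add']
  apply le_min
  · rw [sub_le_iff_le_add']
    apply Real.sqrt_le_iff.mpr
    constructor
    · have h1 : 0 ≤ y^2/(2*M) := by positivity
      have h2 : -|y| ≤ (x/a)*y := (abs_le.mp hxay).1
      have h3 : |y| ≤ M/2 + y^2/(2*M) := by
        rw [← sub_nonneg]
        have : M/2 + y^2/(2*M) - |y| = (M - |y|)^2/(2*M) := by
          field_simp
          rw [sub_sq, sq_abs]; ring
        rw [this]; positivity
      linarith
    · have h1 : y^2/(2*a) ≤ y^2/(2*M) := by gcongr
      have h2 : M^2 + (x+y)^2 = a^2 + 2*x*y + y^2 := by rw [ha2]; ring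
      rw [h2]
      have h3 : a^2 + 2*x*y + y^2 ≤ (a + x/a*y + y^2/(2*a))^2 := by
        have h4 : (a + x/a*y + y^2/(2*a))^2 = a^2 + 2*x*y + y^2 + (x/a*y + y^2/(2*a))^2 := by
          field_simp
          ring
        rw [h4]
        nlinarith [sq_nonneg (x/a*y + y^2/(2*a))]
      refine le_trans h3 ?_
      have h5 : 0 ≤ a + x/a*y + y^2/(2*a) := by
        have h6 : -|y| ≤ (x/a)*y := (abs_le.mp hxay).1
        have h7 : |y| ≤ a/2 + y^2/(2*a) := by
          rw [← sub_nonneg]
          have : a/2 + y^2/(2*a) - |y| = (a - |y|)^2/(2*a) := by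
            field_simp
            rw [sub_sq, sq_abs]; ring
          rw [this]; positivity
        linarith
      apply pow_le_pow_left₀ h5
      linarith
  · rw [sub_le_iff_le_add']
    have h1 : Real.sqrt (M^2 + (x+y)^2) ≤ a + |y| := by
      apply Real.sqrt_le_iff.mpr
      constructor
      · positivity
      · have h2 : M^2 + (x+y)^2 = a^2 + 2*x*y + y^2 := by rw [ha2]; ring
        rw [h2, add_sq, sq_abs]
        have h3 : x*y ≤ |x| * |y| := by rw [← abs_mul]; exact le_abs_self _
        have h4 : |x| * |y| ≤ a * |y| := by gcongr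
        linarith
    have h2 : -|y| ≤ (x/a)*y := (abs_le.mp hxay).1
    linarith

/-- setwise null plus uniform bound gives null against bounded measurable functions -/
lemma mult_null {α : Type*} [MeasurableSpace α] (m : Measure α) [IsFiniteMeasure m]
    (f : ℕ → α → ℝ) (hf : ∀ n, Integrable (f n) m)
    (h1 : ∀ E, MeasurableSet E → Tendsto (fun n => ∫ x in E, f n x ∂m) atTop (𝓝 0))
    (C : ℝ) (hC : ∀ n, ∫ x, |f n x| ∂m ≤ C)
    (φ : α → ℝ) (hφ : StronglyMeasurable φ) (hb : ∀ x, |φ x| ≤ 1) :
    Tendsto (fun n => ∫ x, φ x * f n x ∂m) atTop (𝓝 0) := by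
  -- simple functions
  have hsimp : ∀ (ψ : SimpleFunc α ℝ),
      Tendsto (fun n => ∫ x, ψ x * f n x ∂m) atTop (𝓝 0) := by
    intro ψ
    have hrep : ∀ n, ∫ x, ψ x * f n x ∂m = ∑ y ∈ ψ.range, y * ∫ x in ψ ⁻¹' {y}, f n x ∂m := by
      intro n
      have h2 : ∀ x, ψ x * f n x = ∑ y ∈ ψ.range, y * (ψ ⁻¹' {y}).indicator (f n) x := by
        intro x
        rw [Finset.sum_eq_single (ψ x)]
        · simp
        · intro b _ hb
          rw [Set.indicator_of_notMem, mul_zero]
          intro hx
          exact hb (by simpa using hx.symm)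
        · intro hx
          exact absurd (ψ.mem_range_self x) hx
      simp_rw [h2]
      rw [integral_finsetSum]
      · apply Finset.sum_congr rfl
        intro y _
        rw [integral_const_mul, integral_indicator (ψ.measurableSet_fiber y)]
      · intro y _
        exact ((hf n).indicator (ψ.measurableSet_fiber y)).const_mul y
    simp_rw [hrep]
    rw [show (0:ℝ) = ∑ y ∈ ψ.range, y * 0 by simp]
    apply tendsto_finsetSum
    intro y _
    exact (h1 _ (ψ.measurableSet_fiber y)).const_mul y
  -- uniform approximation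
  rw [Metric.tendsto_atTop]
  intro ε hε
  have hC0 : 0 ≤ C := le_trans (integral_nonneg (fun x => abs_nonneg _)) (hC 0)
  obtain ⟨K, hK⟩ : ∃ K : ℕ, C / (K+1) < ε / 2 := by
    obtain ⟨K, hK⟩ := exists_nat_gt (C / (ε/2))
    refine ⟨K, ?_⟩
    rw [div_lt_iff₀ (by positivity)]
    rw [div_lt_iff₀ (by positivity)] at hK
    nlinarith
  -- approximate by floor
  let g : α → ℝ := fun x => (⌊φ x * (K+1)⌋ : ℝ) / (K+1)
  have hg_meas : Measurable g := by
    have : Measurable (fun x => ⌊φ x * (K+1)⌋) := Int.measurable_floor.comp (hφ.measurable.mul_const _)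
    exact (measurable_from_top.comp this).div_const _
  have hg_fin : (Set.range g).Finite := by
    have : Set.range g ⊆ (fun z : ℤ => (z:ℝ)/(K+1)) '' (Set.Icc (-(K+1) : ℤ) (K+1)) := by
      rintro _ ⟨x, rfl⟩
      refine ⟨⌊φ x * (K+1)⌋, ?_, rfl⟩
      have h3 := abs_le.mp (hb x)
      constructor
      · apply Int.le_floor.mpr
        push_cast
        have : (0:ℝ) < K+1 := by positivity
        nlinarith
      · have h4 : (⌊φ x * (K+1)⌋ : ℝ) ≤ φ x * (K+1) := Int.floor_le _
        have : (0:ℝ) < K+1 := by positivity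
        have h5 : (⌊φ x * (K+1)⌋ : ℝ) ≤ K+1 := by nlinarith
        exact_mod_cast h5
    exact Set.Finite.subset ((Set.finite_Icc _ _).image _) this
  let ψ : SimpleFunc α ℝ := ⟨g, fun y => hg_meas (measurableSet_singleton y), hg_fin⟩
  have happ : ∀ x, |φ x - ψ x| ≤ 1/(K+1) := by
    intro x
    have hK1 : (0:ℝ) < K+1 := by positivity
    show |φ x - (⌊φ x * (K+1)⌋ : ℝ) / (K+1)| ≤ 1/(K+1)
    have h3 : φ x - (⌊φ x * (K+1)⌋ : ℝ) / (K+1) = Int.fract (φ x * (K+1)) / (K+1) := by
      rw [Int.fract]; field_simp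
    rw [h3, abs_div, abs_of_pos hK1, abs_of_nonneg (Int.fract_nonneg _)]
    gcongr
    exact (Int.fract_lt_one _).le
  have hψi : ∀ n, Integrable (fun x => ψ x * f n x) m := by
    intro n
    apply (hf n).bdd_mul (c := 2) hg_meas.aestronglyMeasurable
    apply Eventually.of_forall
    intro x
    rw [Real.norm_eq_abs]
    have h4 := happ x
    have h5 := hb x
    have h6 : (1:ℝ)/(K+1) ≤ 1 := by
      rw [div_le_one (by positivity)]
      have : (0:ℝ) ≤ K := by positivity
      linarith
    have h7 := abs_sub_abs_le_abs_sub (ψ x) (φ x)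
    rw [abs_sub_comm] at h7
    show |ψ x| ≤ 2
    linarith
  have hφi : ∀ n, Integrable (fun x => φ x * f n x) m := by
    intro n
    apply (hf n).bdd_mul (c := 1) hφ.aestronglyMeasurable
    apply Eventually.of_forall
    intro x
    exact hb x
  obtain ⟨N, hN⟩ := (Metric.tendsto_atTop.mp (hsimp ψ)) (ε/2) (half_pos hε)
  refine ⟨N, fun n hn => ?_⟩
  have h8 := hN n hn
  rw [Real.dist_eq, sub_zero] at h8 ⊢
  have h9 : |∫ x, φ x * f n x ∂m - ∫ x, ψ x * f n x ∂m| ≤ C/(K+1) := by
    rw [← integral_sub (hφi n) (hψi n)]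
    refine le_trans (abs_integral_le_integral_abs) ?_
    have h10 : ∫ x, |φ x * f n x - ψ x * f n x| ∂m ≤ ∫ x, (1/(K+1)) * |f n x| ∂m := by
      apply integral_mono_of_nonneg
      · exact Eventually.of_forall (fun x => abs_nonneg _)
      · exact (hf n).abs.const_mul _
      · apply Eventually.of_forall
        intro x
        show |φ x * f n x - ψ x * f n x| ≤ _
        rw [← sub_mul, abs_mul]
        exact mul_le_mul_of_nonneg_right (happ x) (abs_nonneg _)
    rw [integral_const_mul] at h10
    refine le_trans h10 ?_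
    rw [div_mul_eq_mul_div, one_mul]
    gcongr
    exact hC n
  have h11 := abs_sub_abs_le_abs_sub (∫ x, φ x * f n x ∂m) (∫ x, ψ x * f n x ∂m)
  linarith

/-- main contradiction -/
lemma no_schreier {α : Type*} [MeasurableSpace α] (m : Measure α) [IsFiniteMeasure m]
    (f : ℕ → α → ℝ) (hf : ∀ n, Integrable (f n) m)
    (h1 : ∀ E, MeasurableSet E → Tendsto (fun n => ∫ x in E, f n x ∂m) atTop (𝓝 0))
    (C : ℝ) (hC : ∀ n, ∫ x, |f n x| ∂m ≤ C)
    (hui : ∀ ε : ℝ, 0 < ε → ∃ δ : ℝ, 0 < δ ∧ ∀ n, ∀ E, MeasurableSet E → m.real E < δ →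
      ∫ x in E, |f n x| ∂m ≤ ε)
    (hS : ∀ A : Finset ℕ, (∀ n ∈ A, A.card ≤ n) → ∃ E, MeasurableSet E ∧
      ∀ n ∈ A, ∫ x in E, f n x ∂m = 1) : False := by
  have hC0 : 0 ≤ C := le_trans (integral_nonneg (fun x => abs_nonneg _)) (hC 0)
  -- choose L and M
  obtain ⟨δ, hδ, hδ'⟩ := hui (1/16) (by norm_num)
  obtain ⟨L, hL0, hL⟩ : ∃ L : ℝ, 0 < L ∧ C / L < δ := by
    refine ⟨C/δ + 1, by positivity, ?_⟩
    rw [div_lt_iff₀ (by positivity)]
    field_simp
    nlinarith
  obtain ⟨M, hM0, hM⟩ : ∃ M : ℝ, 0 < M ∧ L * C / (2*M) ≤ 1/8 := by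
    refine ⟨4 * L * C + 1, by positivity, ?_⟩
    rw [div_le_iff₀ (by positivity)]
    nlinarith
  have hρint : ∀ n, Integrable (fun x => min ((f n x)^2/(2*M)) (2*|f n x|)) m := by
    intro n
    apply Integrable.mono' ((hf n).abs.const_mul 2)
    · have h2 := (hf n).aestronglyMeasurable
      exact ((h2.pow 2).mul_const (1/(2*M)) |>.congr (Eventually.of_forall (fun x => by
        simp [div_eq_mul_inv]))).inf ((continuous_abs.comp_aestronglyMeasurable h2).const_mul 2)
    · apply Eventually.of_forall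
      intro x
      rw [Real.norm_eq_abs, abs_of_nonneg (by positivity)]
      exact min_le_right _ _
  have hρ : ∀ n, ∫ x, min ((f n x)^2/(2*M)) (2*|f n x|) ∂m ≤ 1/4 := by
    intro n
    -- replace f n by measurable set
    obtain ⟨g, hgm, hgae⟩ := (hf n).aestronglyMeasurable
    set B : Set α := {x | L < |g x|} with hB
    have hBm : MeasurableSet B := measurableSet_lt measurable_const (hgm.measurable.abs)
    have hBsmall : m.real B < δ := by
      have h3 : L * m.real B ≤ C := by
        have h4 := mul_meas_ge_le_integral_of_nonneg (μ := m) (f := fun x => |g x|)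
          (Eventually.of_forall (fun x => abs_nonneg _)) ((hf n).congr hgae).abs L
        have h5 : ∫ x, |g x| ∂m ≤ C := by
          rw [show ∫ x, |g x| ∂m = ∫ x, |f n x| ∂m from
            integral_congr_ae (by filter_upwards [hgae] with x hx; rw [hx])]
          exact hC n
        have h6 : m.real B ≤ m.real {x | L ≤ |g x|} := by
          apply measureReal_mono
          · intro x hx
            exact (show L < |g x| from hx).le
          · exact measure_ne_top _ _
        calc L * m.real B ≤ L * m.real {x | L ≤ |g x|} := by gcongr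
          _ ≤ C := le_trans h4 h5
      calc m.real B ≤ C / L := by rw [le_div_iff₀ hL0]; linarith
        _ < δ := hL
    have h7 := hδ' n B hBm hBsmall
    have hsplit := integral_add_compl hBm (hρint n)
    rw [← hsplit]
    have h8 : ∫ x in B, min ((f n x)^2/(2*M)) (2*|f n x|) ∂m ≤ 2 * (1/16) := by
      calc ∫ x in B, min ((f n x)^2/(2*M)) (2*|f n x|) ∂m ≤ ∫ x in B, 2 * |f n x| ∂m := by
            apply integral_mono (hρint n).integrableOn ((hf n).abs.const_mul 2).integrableOn
            intro x; exact min_le_right _ _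
        _ = 2 * ∫ x in B, |f n x| ∂m := integral_const_mul _ _
        _ ≤ 2 * (1/16) := by gcongr
    have h9 : ∫ x in Bᶜ, min ((f n x)^2/(2*M)) (2*|f n x|) ∂m ≤ 1/8 := by
      calc ∫ x in Bᶜ, min ((f n x)^2/(2*M)) (2*|f n x|) ∂m
          ≤ ∫ x in Bᶜ, (L/(2*M)) * |f n x| ∂m := by
            apply integral_mono_ae (hρint n).integrableOn ((hf n).abs.const_mul _).integrableOn
            have h10 : ∀ᵐ x ∂(m.restrict Bᶜ), f n x = g x := ae_restrict_of_ae hgae
            filter_upwards [h10, ae_restrict_mem hBm.compl] with x hx hxB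
            refine le_trans (min_le_left _ _) ?_
            have h11 : |f n x| ≤ L := by
              rw [hx]
              by_contra hcon
              exact hxB (not_le.mp hcon)
            rw [← sq_abs, sq, div_mul_eq_mul_div]
            gcongr
        _ = (L/(2*M)) * ∫ x in Bᶜ, |f n x| ∂m := integral_const_mul _ _
        _ ≤ (L/(2*M)) * C := by
            gcongr
            exact le_trans (setIntegral_le_integral (hf n).abs (Eventually.of_forall (fun x => abs_nonneg _))) (hC n)
        _ ≤ 1/8 := by rw [div_mul_eq_mul_div]; exact hM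
    linarith
  -- functional I
  set I : (α → ℝ) → ℝ := fun F => ∫ x, Real.sqrt (M^2 + (F x)^2) ∂m with hI
  have hIint : ∀ F, Integrable F m → Integrable (fun x => Real.sqrt (M^2 + (F x)^2)) m := by
    intro F hF
    apply Integrable.mono' ((integrable_const M).add hF.abs)
    · exact (Real.continuous_sqrt.comp_aestronglyMeasurable
        ((hF.aestronglyMeasurable.pow 2).const_add (M^2)))
    · apply Eventually.of_forall
      intro x
      rw [Real.norm_eq_abs, abs_of_nonneg (Real.sqrt_nonneg _)]
      apply Real.sqrt_le_iff.mpr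
      constructor
      · show 0 ≤ M + |F x|
        positivity
      · show M^2 + (F x)^2 ≤ (M + |F x|)^2
        rw [add_sq, sq_abs]
        have : 0 ≤ 2 * M * |F x| := by positivity
        linarith
  have hstep : ∀ F, Integrable F m → ∀ N : ℕ, ∃ n, N ≤ n ∧ I (fun x => F x + f n x) ≤ I F + 1/2 := by
    intro F hF N
    obtain ⟨G, hGm, hGae⟩ := hF.aestronglyMeasurable
    set φ : α → ℝ := fun x => G x / Real.sqrt (M^2 + (G x)^2) with hφdef
    have hφm : StronglyMeasurable φ := by
      apply StronglyMeasurable.div₀ hGm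
      · exact Real.continuous_sqrt.comp_stronglyMeasurable ((hGm.pow 2).const_add _)
      · intro x
        have : 0 < M^2 + (G x)^2 := by positivity
        exact (Real.sqrt_pos.mpr this).ne'
    have hφb : ∀ x, |φ x| ≤ 1 := by
      intro x
      have : 0 < M^2 + (G x)^2 := by positivity
      show |G x / Real.sqrt (M^2 + (G x)^2)| ≤ 1
      rw [abs_div, abs_of_nonneg (Real.sqrt_nonneg _)]
      apply div_le_one_of_le₀ _ (Real.sqrt_nonneg _)
      apply Real.abs_le_sqrt
      nlinarith [sq_nonneg M]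
    have ht := mult_null m f hf h1 C hC φ hφm hφb
    have hev := ht.eventually (gt_mem_nhds (show (0:ℝ) < 1/4 by norm_num))
    obtain ⟨n, hn1, hn2⟩ := (hev.and (eventually_ge_atTop N)).exists
    refine ⟨n, hn2, ?_⟩
    have hφi : Integrable (fun x => φ x * f n x) m := by
      apply (hf n).bdd_mul (c := 1) hφm.aestronglyMeasurable
      exact Eventually.of_forall hφb
    have h12 : I (fun x => F x + f n x) ≤
        ∫ x, (Real.sqrt (M^2 + (F x)^2) + φ x * f n x + min ((f n x)^2/(2*M)) (2*|f n x|)) ∂m := by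
      apply integral_mono_ae (hIint _ (hF.add (hf n)))
      · exact ((hIint F hF).add hφi).add (hρint n)
      · filter_upwards [hGae] with x hx
        show Real.sqrt (M^2 + (F x + f n x)^2) ≤ _
        have := sqrt_ineq M (F x) (f n x) hM0
        show _ ≤ Real.sqrt (M^2 + (F x)^2) + (G x / Real.sqrt (M^2 + (G x)^2)) * f n x + _
        rw [← hx]
        exact this
    have h12a : ∫ x, (Real.sqrt (M^2 + (F x)^2) + φ x * f n x + min ((f n x)^2/(2*M)) (2*|f n x|)) ∂m
        = ∫ x, (Real.sqrt (M^2 + (F x)^2) + φ x * f n x) ∂m + ∫ x, min ((f n x)^2/(2*M)) (2*|f n x|) ∂m :=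
      integral_add (f := fun x => Real.sqrt (M^2 + (F x)^2) + φ x * f n x)
        ((hIint F hF).add hφi) (hρint n)
    have h12b : ∫ x, (Real.sqrt (M^2 + (F x)^2) + φ x * f n x) ∂m
        = ∫ x, Real.sqrt (M^2 + (F x)^2) ∂m + ∫ x, φ x * f n x ∂m :=
      integral_add (hIint F hF) hφi
    rw [h12a, h12b] at h12
    have h13 := hρ n
    have h14 : I F = ∫ x, Real.sqrt (M^2 + (F x)^2) ∂m := rfl
    rw [h14]
    linarith
  have hind : ∀ k N : ℕ, ∃ A : Finset ℕ, A.card = k ∧ (∀ n ∈ A, N ≤ n) ∧
      I (fun x => ∑ n ∈ A, f n x) ≤ M * m.real Set.univ + k/2 := by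
    intro k
    induction k with
    | zero =>
      intro N
      refine ⟨∅, rfl, by simp, ?_⟩
      simp only [hI, Finset.sum_empty]
      norm_num
      rw [Real.sqrt_sq hM0.le]
      exact (mul_comm _ _).le
    | succ k ih =>
      intro N
      obtain ⟨A, hA1, hA2, hA3⟩ := ih N
      obtain ⟨n, hn1, hn2⟩ := hstep (fun x => ∑ n ∈ A, f n x)
        (integrable_finsetSum _ (fun n _ => hf n)) (max N (A.sup id + 1))
      have hnA : n ∉ A := by
        intro h
        have h15 : n ≤ A.sup id := Finset.le_sup (f := id) h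
        have h16 := le_trans (le_max_right _ _) hn1
        omega
      refine ⟨insert n A, ?_, ?_, ?_⟩
      · rw [Finset.card_insert_of_notMem hnA, hA1]
      · intro j hj
        rcases Finset.mem_insert.mp hj with h | h
        · rw [h]; exact le_trans (le_max_left _ _) hn1
        · exact hA2 j h
      · have h17 : (fun x => ∑ n ∈ insert n A, f n x) = fun x => (∑ n ∈ A, f n x) + f n x := by
          ext x
          rw [Finset.sum_insert hnA, add_comm]
        rw [h17]
        push_cast
        linarith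
  obtain ⟨k, hk⟩ := exists_nat_gt (2 * (M * m.real Set.univ))
  obtain ⟨A, hA1, hA2, hA3⟩ := hind k k
  obtain ⟨E, hEm, hE⟩ := hS A (by intro n hn; rw [hA1]; exact hA2 n hn)
  have h18 : ∫ x in E, ∑ n ∈ A, f n x ∂m = k := by
    rw [integral_finsetSum _ (fun n _ => (hf n).integrableOn)]
    rw [Finset.sum_congr rfl hE]
    simp [hA1]
  have hFi : Integrable (fun x => ∑ n ∈ A, f n x) m := integrable_finsetSum _ (fun n _ => hf n)
  have h19 : ∫ x in E, ∑ n ∈ A, f n x ∂m ≤ I (fun x => ∑ n ∈ A, f n x) := by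
    calc ∫ x in E, ∑ n ∈ A, f n x ∂m ≤ ∫ x in E, Real.sqrt (M^2 + (∑ n ∈ A, f n x)^2) ∂m := by
          apply integral_mono hFi.integrableOn (hIint _ hFi).integrableOn
          intro x
          apply Real.le_sqrt_of_sq_le
          nlinarith [sq_nonneg M]
      _ ≤ I (fun x => ∑ n ∈ A, f n x) :=
          setIntegral_le_integral (hIint _ hFi) (Eventually.of_forall (fun x => Real.sqrt_nonneg _))
  linarith

abbrev C0 := ZeroAtInftyContinuousMap ℕ ℝ

/-- indicator of a finite set as an element of c_0 -/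
noncomputable def eA (A : Finset ℕ) : C0 where
  toFun := fun n => if n ∈ A then 1 else 0
  continuous_toFun := continuous_of_discreteTopology
  zero_at_infty' := by
    apply tendsto_const_nhds.congr'
    rw [cocompact_eq_atTop (α := ℕ)]
    filter_upwards [eventually_gt_atTop (A.sup id)] with n hn
    rw [if_neg]
    intro h
    exact absurd (Finset.le_sup (f := id) h) (not_le.mpr hn)

lemma eA_apply (A : Finset ℕ) (n : ℕ) : eA A n = if n ∈ A then 1 else 0 := rfl

/-- evaluation at n -/
noncomputable def ev (n : ℕ) : C0 →+ ℝ where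
  toFun := fun f => f n
  map_zero' := rfl
  map_add' := fun _ _ => rfl

lemma norm_apply_le (f : C0) (n : ℕ) : |f n| ≤ ‖f‖ := by
  have := f.toBCF.norm_coe_le_norm n
  exact this

lemma norm_le_of (f : C0) (c : ℝ) (hc : 0 ≤ c) (h : ∀ n, |f n| ≤ c) : ‖f‖ ≤ c := by
  have : ‖f.toBCF‖ ≤ c := (BoundedContinuousFunction.norm_le hc).mpr h
  exact this

lemma ev_cont (n : ℕ) : Continuous (ev n) := by
  apply AddMonoidHomClass.continuous_of_bound (ev n) 1
  intro f
  rw [one_mul]
  exact norm_apply_le f n

lemma eA_sum (A : Finset ℕ) : eA A = ∑ n ∈ A, eA {n} := by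
  ext k
  have h : (∑ n ∈ A, eA {n}) k = ∑ n ∈ A, (eA {n}) k := map_sum (ev k) _ _
  rw [h]
  simp [eA_apply]

lemma summable_coef (φ : StrongDual ℝ C0) : Summable (fun n => |φ (eA {n})|) := by
  apply summable_of_sum_le (c := ‖φ‖) (fun _ => abs_nonneg _)
  intro F
  have h1 : ∑ n ∈ F, |φ (eA {n})| = φ (∑ n ∈ F, (SignType.sign (φ (eA {n})) : ℝ) • eA {n}) := by
    rw [map_sum]
    apply Finset.sum_congr rfl
    intro n _
    rw [map_smul, smul_eq_mul]
    exact (sign_mul_self _).symm
  rw [h1]
  refine le_trans (le_abs_self _) ?_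
  refine le_trans (φ.le_opNorm _) ?_
  have h2 : ‖∑ n ∈ F, (SignType.sign (φ (eA {n})) : ℝ) • eA {n}‖ ≤ 1 := by
    apply norm_le_of _ _ zero_le_one
    intro k
    have h3 : (∑ n ∈ F, (SignType.sign (φ (eA {n})) : ℝ) • eA {n}) k
        = ∑ n ∈ F, (SignType.sign (φ (eA {n})) : ℝ) * (if k ∈ ({n} : Finset ℕ) then 1 else 0) :=
      map_sum (ev k) _ _
    rw [h3]
    simp only [Finset.mem_singleton, mul_ite, mul_one, mul_zero]
    rw [Finset.sum_ite_eq]
    split_ifs
    · rcases lt_trichotomy (φ (eA {k})) 0 with h | h | h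
      · simp [h]
      · simp [h]
      · simp [h]
    · simp
  calc ‖φ‖ * _ ≤ ‖φ‖ * 1 := by gcongr
    _ = ‖φ‖ := mul_one _

def SS : Set (ℕ → Bool) := {x | ∀ n, x n = true → ∀ F : Finset ℕ, (∀ i ∈ F, x i = true) → F.card ≤ n}

lemma SS_closed : IsClosed SS := by
  have : SS = ⋂ (n : ℕ) (F : Finset ℕ) (_ : n < F.card),
      ({x : ℕ → Bool | x n = true} ∩ ⋂ i ∈ F, {x : ℕ → Bool | x i = true})ᶜ := by
    ext x
    simp only [SS, Set.mem_ofPred_eq, Set.mem_iInter, Set.mem_compl_iff, Set.mem_inter_iff, not_and]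
    constructor
    · intro h n F hF hx hi
      exact absurd (h n hx F hi) (not_le.mpr hF)
    · intro h n hx F hi
      by_contra hcon
      exact h n F (not_le.mp hcon) hx hi
  rw [this]
  refine isClosed_iInter (fun n => isClosed_iInter (fun F => isClosed_iInter (fun _ => ?_)))
  rw [isClosed_compl_iff]
  have hop : ∀ i : ℕ, IsOpen {x : ℕ → Bool | x i = true} := by
    intro i
    have h : Continuous (fun x : ℕ → Bool => x i) := continuous_apply i
    exact (isOpen_discrete ({true} : Set Bool)).preimage h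
  exact (hop n).inter (isOpen_biInter_finset (fun i _ => hop i))

lemma SS_compact : IsCompact SS := SS_closed.isCompact

lemma SS_fin (x : ℕ → Bool) (hx : x ∈ SS) : {n | x n = true}.Finite := by
  by_contra hcon
  have hinf : {n | x n = true}.Infinite := hcon
  obtain ⟨n, hn⟩ := hinf.nonempty
  obtain ⟨F, hF1, hF2⟩ := hinf.exists_subset_card_eq (n+1)
  have := hx n hn F (fun i hi => hF1 hi)
  omega

noncomputable def Ψ (x : SS) : WeakSpace ℝ C0 := toWeakSpace ℝ C0 (eA (SS_fin x.1 x.2).toFinset)

lemma Ψ_cont : Continuous Ψ := by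
  apply WeakBilin.continuous_of_continuous_eval
  intro φ
  have h1 : ∀ x : SS, φ (eA (SS_fin x.1 x.2).toFinset)
      = ∑' n, (if x.1 n = true then φ (eA {n}) else 0) := by
    intro x
    rw [eA_sum, map_sum]
    rw [tsum_eq_sum (s := (SS_fin x.1 x.2).toFinset)]
    · apply Finset.sum_congr rfl
      intro n hn
      rw [if_pos]
      simpa using hn
    · intro n hn
      rw [if_neg]
      simpa using hn
  show Continuous fun x : SS => φ (eA (SS_fin x.1 x.2).toFinset)
  simp_rw [h1]
  apply continuous_tsum (u := fun n => |φ (eA {n})|)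
  · intro n
    have h2 : Continuous (fun b : Bool => if b = true then φ (eA {n}) else 0) :=
      continuous_of_discreteTopology
    exact h2.comp ((continuous_apply n).comp continuous_subtype_val)
  · exact summable_coef φ
  · intro n x
    split_ifs
    · exact le_refl _
    · simp

def KS : Set C0 := {y | ∃ A : Finset ℕ, (∀ n ∈ A, A.card ≤ n) ∧ y = eA A}

lemma KS_compact : IsCompact ((toWeakSpace ℝ C0) '' KS) := by
  have h1 : (toWeakSpace ℝ C0) '' KS = Set.range Ψ := by
    ext y
    constructor
    · rintro ⟨_, ⟨A, hA, rfl⟩, rfl⟩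
      refine ⟨⟨fun n => decide (n ∈ A), ?_⟩, ?_⟩
      · intro n hn F hF
        have h2 : F ⊆ A := fun i hi => by simpa using hF i hi
        exact le_trans (Finset.card_le_card h2) (hA n (by simpa using hn))
      · unfold Ψ
        congr 2
        ext n
        simp
    · rintro ⟨x, rfl⟩
      refine ⟨_, ⟨(SS_fin x.1 x.2).toFinset, ?_, rfl⟩, rfl⟩
      intro n hn
      apply x.2 n (by simpa using hn)
      intro i hi
      simpa using hi
  rw [h1]
  have : CompactSpace SS := isCompact_iff_compactSpace.mp SS_compact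
  exact isCompact_range Ψ_cont

lemma abs_int_le {α : Type*} [MeasurableSpace α] (m : Measure α) (f : α → ℝ) (hfm : Measurable f)
    (hf : Integrable f m) (E : Set α) (hE : MeasurableSet E) (c : ℝ)
    (h : ∀ E', MeasurableSet E' → E' ⊆ E → |∫ x in E', f x ∂m| ≤ c) :
    ∫ x in E, |f x| ∂m ≤ 2 * c := by
  set P : Set α := {x | 0 ≤ f x} with hP
  have hPm : MeasurableSet P := measurableSet_le measurable_const hfm
  have h1 := integral_inter_add_sdiff (μ := m) (f := fun x => |f x|) (s := E) hPm hf.abs.integrableOn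
  rw [← h1]
  have h2 : ∫ x in E ∩ P, |f x| ∂m = ∫ x in E ∩ P, f x ∂m := by
    apply setIntegral_congr_fun (hE.inter hPm)
    intro x hx
    exact abs_of_nonneg hx.2
  have h3 : ∫ x in E \ P, |f x| ∂m = - ∫ x in E \ P, f x ∂m := by
    rw [← integral_neg]
    apply setIntegral_congr_fun (hE.diff hPm)
    intro x hx
    exact abs_of_nonpos (le_of_lt (not_le.mp hx.2))
  rw [h2, h3]
  have h4 := h (E ∩ P) (hE.inter hPm) Set.inter_subset_left
  have h5 := h (E \ P) (hE.diff hPm) Set.sdiff_subset
  have h6 := (abs_le.mp h4).2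
  have h7 := (abs_le.mp h5).1
  linarith

theorem main {α : Type} [MeasurableSpace α] (ν : VectorMeasure α C0)
    (hK : KS ⊆ Set.range (fun s : Set α => ν s)) : False := by
  set s : ℕ → SignedMeasure α := fun n => ν.mapRange (ev n) (ev_cont n) with hs
  have hsap : ∀ n E, s n E = (ν E) n := fun n E => rfl
  set T : ℕ → ENNReal := fun n => (s n).totalVariation Set.univ with hT
  have hTfin : ∀ n, T n ≠ ⊤ := fun n => measure_ne_top _ _
  set c : ℕ → ENNReal := fun n => (2⁻¹ : ENNReal)^(n+1) / (1 + T n) with hc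
  have hc0 : ∀ n, c n ≠ 0 := by
    intro n
    simp only [hc]
    apply (ENNReal.div_pos _ _).ne'
    · exact pow_ne_zero _ (by simp)
    · exact ENNReal.add_ne_top.mpr ⟨ENNReal.one_ne_top, hTfin n⟩
  set m : Measure α := Measure.sum (fun n => c n • (s n).totalVariation) with hm
  have hmuniv : m Set.univ ≤ 1 := by
    rw [hm, Measure.sum_apply _ MeasurableSet.univ]
    calc ∑' n, (c n • (s n).totalVariation) Set.univ ≤ ∑' n : ℕ, (2⁻¹ : ENNReal)^(n+1) := by
          apply ENNReal.tsum_le_tsum
          intro n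
          rw [Measure.smul_apply, smul_eq_mul]
          show (2⁻¹ : ENNReal)^(n+1) / (1 + T n) * T n ≤ _
          rw [div_eq_mul_inv, mul_assoc]
          calc (2⁻¹ : ENNReal)^(n+1) * ((1 + T n)⁻¹ * T n)
              ≤ (2⁻¹ : ENNReal)^(n+1) * ((1 + T n)⁻¹ * (1 + T n)) := by
                gcongr
                exact le_add_self
            _ ≤ (2⁻¹ : ENNReal)^(n+1) * 1 := by
                gcongr
                exact ENNReal.inv_mul_le_one _
            _ = _ := mul_one _
      _ = 1 := by
          rw [ENNReal.tsum_geometric_add_one, ENNReal.one_sub_inv_two, inv_inv]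
          exact ENNReal.inv_mul_cancel (by simp) (by simp)
  have : IsFiniteMeasure m := ⟨lt_of_le_of_lt hmuniv ENNReal.one_lt_top⟩
  have hmz : ∀ n E, MeasurableSet E → m E = 0 → (s n).totalVariation E = 0 := by
    intro n E hE h0
    rw [hm, Measure.sum_apply _ hE, ENNReal.tsum_eq_zero] at h0
    have h1 := h0 n
    rw [Measure.smul_apply, smul_eq_mul, mul_eq_zero] at h1
    exact h1.resolve_left (hc0 n)
  have hac : ∀ E, MeasurableSet E → m E = 0 → ν E = 0 := by
    intro E hE h0
    ext n
    rw [← hsap n E]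
    exact (s n).null_of_totalVariation_zero (hmz n E hE h0)
  have hsac : ∀ n, s n ≪ᵥ m.toENNRealVectorMeasure := by
    intro n
    rw [SignedMeasure.absolutelyContinuous_ennreal_iff, VectorMeasure.ennrealToMeasure_toENNRealVectorMeasure]
    intro E hE
    obtain ⟨E', hE'1, hE'2, hE'3⟩ := exists_measurable_superset_of_null hE
    exact measure_mono_null hE'1 (hmz n E' hE'2 hE'3)
  set f : ℕ → α → ℝ := fun n => (s n).rnDeriv m with hf
  have hfi : ∀ n, Integrable (f n) m := fun n => SignedMeasure.integrable_rnDeriv _ _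
  have hfm : ∀ n, Measurable (f n) := fun n => SignedMeasure.measurable_rnDeriv _ _
  have hfe : ∀ n E, MeasurableSet E → ∫ x in E, f n x ∂m = (ν E) n := by
    intro n E hE
    rw [← hsap n E, ← withDensityᵥ_apply (hfi n) hE]
    rw [SignedMeasure.withDensityᵥ_rnDeriv_eq _ _ (hsac n)]
  apply no_schreier m f hfi (C := 2 * ν.bound)
  · intro E hE
    simp_rw [hfe _ E hE]
    have := (ν E).zero_at_infty'
    rw [cocompact_eq_atTop (α := ℕ)] at this
    exact this
  · intro n
    have := abs_int_le m (f n) (hfm n) (hfi n) Set.univ MeasurableSet.univ ν.bound (by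
      intro E' hE' _
      rw [hfe n E' hE']
      exact le_trans (norm_apply_le _ n) ν.norm_apply_le_bound)
    rw [setIntegral_univ] at this
    exact this
  · intro ε hε
    obtain ⟨δ, hδ, hδ'⟩ := unif_ac ν m hac (ε/2) (half_pos hε)
    refine ⟨δ, hδ, ?_⟩
    intro n E hE hEs
    have := abs_int_le m (f n) (hfm n) (hfi n) E hE (ε/2) (by
      intro E' hE' hsub
      rw [hfe n E' hE']
      refine le_trans (norm_apply_le _ n) (hδ' E' hE' ?_)
      exact lt_of_le_of_lt (measureReal_mono hsub (measure_ne_top _ _)) hEs)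
    linarith
  · intro A hA
    obtain ⟨E, hE⟩ := hK ⟨A, hA, rfl⟩
    by_cases hEm : MeasurableSet E
    · refine ⟨E, hEm, ?_⟩
      intro n hn
      rw [hfe n E hEm]
      have : ν E = eA A := hE
      rw [this, eA_apply, if_pos hn]
    · have h0 : eA A = 0 := by
        have : ν E = eA A := hE
        rw [← this]
        exact ν.not_measurable hEm
      refine ⟨∅, MeasurableSet.empty, ?_⟩
      intro n hn
      have := DFunLike.congr_fun h0 n
      rw [eA_apply, if_pos hn] at this
      exact absurd this one_ne_zero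

end helpers

/-- The negation of the preceding statement: Every weakly compact subset of the real sequence space c_0 is contained in the range of some countably additive c_0-valued vector measure on some measurable space. -/
theorem result :
    ¬ (∀ K : Set (ZeroAtInftyContinuousMap ℕ ℝ),
      IsCompact ((toWeakSpace ℝ (ZeroAtInftyContinuousMap ℕ ℝ)) '' K) →
      ∃ (α : Type) (_ : MeasurableSpace α)
        (μ : MeasureTheory.VectorMeasure α (ZeroAtInftyContinuousMap ℕ ℝ)),
        K ⊆ Set.range (fun s : Set α => μ s)) := by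
  intro h
  obtain ⟨α, mα, ν, hν⟩ := h KS KS_compact
  exact main ν hν

end Pool.Agent.S03952
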