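import Pool.Statements.S03956

set_option autoImplicit false
open MeasureTheory
open Pool Pool.MP_c09e54_an

namespace Pool.Agent.S03956

/-- There is a compact subset of the line of positive measure with empty interior. -/
theorem exists_fat_cantor :
    ∃ B : Set ℝ, IsClosed B ∧ B ⊆ Set.Icc 0 1 ∧ interior B = ∅ ∧ 0 < volume B := by
  have hQ : volume (Set.range ((↑) : ℚ → ℝ)) = 0 := (Set.countable_range _).measure_zero _
  obtain ⟨U, hU1, hU2, hU3⟩ :=
    Set.exists_isOpen_lt_of_lt (μ := (volume : Measure ℝ)) (Set.range ((↑) : ℚ → ℝ)) 1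
      (by rw [hQ]; exact one_pos)
  refine ⟨Set.Icc 0 1 \ U, isClosed_Icc.sdiff hU2, Set.sdiff_subset, ?_, ?_⟩
  · rw [← Set.not_nonempty_iff_eq_empty]
    rintro ⟨x, hx⟩
    obtain ⟨q, hq⟩ := Rat.denseRange_cast.exists_mem_open isOpen_interior ⟨x, hx⟩
    exact (interior_subset hq).2 (hU1 ⟨q, rfl⟩)
  · have h1 : volume (Set.Icc (0 : ℝ) 1) = 1 := by simp
    have h2 : volume (Set.Icc (0 : ℝ) 1) ≤ volume (Set.Icc (0 : ℝ) 1 \ U) + volume U := by
      refine (measure_mono ?_).trans (measure_union_le _ _)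
      intro x hx
      by_cases hxU : x ∈ U
      · exact Or.inr hxU
      · exact Or.inl ⟨hx, hxU⟩
    by_contra h0
    have h0' : volume (Set.Icc (0 : ℝ) 1 \ U) = 0 := le_antisymm (not_lt.mp h0) bot_le
    rw [h1, h0', zero_add] at h2
    exact absurd h2 (not_le.mpr hU3)

/-- Every isometry of the line is a translation or a reflection. -/
theorem isometry_real (f : ℝ → ℝ) (hf : Isometry f) :
    ∃ (e : ℤˣ) (c : ℝ), ∀ x, f x = ((e : ℤ) : ℝ) * x + c := by
  have key : ∀ x y, (f x - f y) ^ 2 = (x - y) ^ 2 := by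
    intro x y
    have := hf.dist_eq x y
    rw [Real.dist_eq, Real.dist_eq] at this
    rw [← sq_abs (f x - f y), this, sq_abs]
  have h1 : (f 1 - f 0) ^ 2 = 1 := by
    have := key 1 0
    simpa using this
  have h2 : f 1 - f 0 = 1 ∨ f 1 - f 0 = -1 := by
    have : (f 1 - f 0 - 1) * (f 1 - f 0 + 1) = 0 := by nlinarith
    rcases mul_eq_zero.mp this with h | h
    · left; linarith
    · right; linarith
  rcases h2 with h | h
  · refine ⟨1, f 0, fun x => ?_⟩
    have ha := key x 0
    have hb := key x 1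
    have : f 1 = f 0 + 1 := by linarith
    rw [this] at hb
    push_cast
    nlinarith
  · refine ⟨-1, f 0, fun x => ?_⟩
    have ha := key x 0
    have hb := key x 1
    have : f 1 = f 0 - 1 := by linarith
    rw [this] at hb
    push_cast
    nlinarith

/-- The union of all translates of `S` by multiples of `4`. -/
def per (S : Set ℝ) : Set ℝ := {y | ∃ j : ℤ, y + 4 * (j : ℝ) ∈ S}

/-- The word `q` acting on the line: a sign and an integer combination of the `c j`. -/
noncomputable def act {k : ℕ} (c : Fin k → ℝ) (q : ℤˣ × (Fin k → ℤ)) (x : ℝ) : ℝ :=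
  ((q.1 : ℤ) : ℝ) * x + ∑ j, ((q.2 j : ℤ) : ℝ) * c j

/-- The box of words with coefficients bounded by `N`. -/
noncomputable def box (k N : ℕ) : Finset (ℤˣ × (Fin k → ℤ)) :=
  Finset.univ ×ˢ Fintype.piFinset (fun _ => Finset.Icc (-(N : ℤ)) N)

theorem mem_box {k N : ℕ} {q : ℤˣ × (Fin k → ℤ)} :
    q ∈ box k N ↔ ∀ j, -(N : ℤ) ≤ q.2 j ∧ q.2 j ≤ N := by
  unfold box
  rw [Finset.mem_product, Fintype.mem_piFinset]
  constructor
  · rintro ⟨-, h⟩ j
    exact Finset.mem_Icc.mp (h j)
  · intro h
    exact ⟨Finset.mem_univ _, fun j => Finset.mem_Icc.mpr (h j)⟩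

theorem card_box (k N : ℕ) : (box k N).card = 2 * (2 * N + 1) ^ k := by
  have : (Int.toNat ((N : ℤ) + 1 + (N : ℤ))) = 2 * N + 1 := by omega
  simp [box, Finset.card_product, Fintype.card_piFinset, this]

theorem unit_sq (e : ℤˣ) : (((e : ℤ) : ℝ)) * ((e : ℤ) : ℝ) = 1 := by
  rcases Int.units_eq_one_or e with h | h <;> simp [h]

theorem continuous_act {k : ℕ} (c : Fin k → ℝ) (q : ℤˣ × (Fin k → ℤ)) :
    Continuous (act c q) := by
  unfold act
  fun_prop

/-- The homeomorphism given by a word. -/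
noncomputable def actHomeo {k : ℕ} (c : Fin k → ℝ) (q : ℤˣ × (Fin k → ℤ)) : ℝ ≃ₜ ℝ where
  toFun := act c q
  invFun := fun y => ((q.1 : ℤ) : ℝ) * (y - ∑ j, ((q.2 j : ℤ) : ℝ) * c j)
  left_inv := by
    intro x
    have := unit_sq q.1
    simp only [act]
    linear_combination x * this
  right_inv := by
    intro y
    have := unit_sq q.1
    simp only [act]
    linear_combination (y - ∑ j, ((q.2 j : ℤ) : ℝ) * c j) * this
  continuous_toFun := continuous_act c q
  continuous_invFun := by fun_prop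

theorem isOpen_per {S : Set ℝ} (hS : IsOpen S) : IsOpen (per S) := by
  have : per S = ⋃ j : ℤ, (fun y : ℝ => y + 4 * (j : ℝ)) ⁻¹' S := by
    ext y; simp [per]
  rw [this]
  exact isOpen_iUnion fun j => hS.preimage (by fun_prop)

theorem isClosed_per {S : Set ℝ} (hS : IsCompact S) : IsClosed (per S) := by
  have : per S = (fun y : ℝ => (y : AddCircle (4 : ℝ))) ⁻¹'
      ((fun y : ℝ => (y : AddCircle (4 : ℝ))) '' S) := by
    ext y
    simp only [per, Set.mem_ofPred_eq, Set.mem_preimage, Set.mem_image]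
    constructor
    · rintro ⟨j, hj⟩
      refine ⟨_, hj, ?_⟩
      have h4 : ((4 * (j : ℝ) : ℝ) : AddCircle (4 : ℝ)) = 0 := by
        rw [AddCircle.coe_eq_zero_iff]
        exact ⟨j, by simp [mul_comm]⟩
      rw [AddCircle.coe_add, h4, add_zero]
    · rintro ⟨z, hz, hzy⟩
      have h0 : ((z - y : ℝ) : AddCircle (4 : ℝ)) = 0 := by
        rw [AddCircle.coe_sub, hzy, sub_self]
      rw [AddCircle.coe_eq_zero_iff] at h0
      obtain ⟨j, hj⟩ := h0
      refine ⟨j, ?_⟩
      have : y + 4 * (j : ℝ) = z := by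
        simp only [zsmul_eq_mul] at hj
        linarith
      rwa [this]
  rw [this]
  exact (hS.image (AddCircle.continuous_mk' _)).isClosed.preimage (AddCircle.continuous_mk' _)

theorem interior_per_empty {S : Set ℝ} (hS : IsClosed S) (hi : interior S = ∅) :
    Dense (per S)ᶜ := by
  have : (per S)ᶜ = ⋂ j : ℤ, (Homeomorph.addRight (4 * (j : ℝ))) ⁻¹' Sᶜ := by
    ext y; simp [per]
  rw [this]
  apply dense_iInter_of_isOpen
  · intro j
    exact hS.isOpen_compl.preimage (Homeomorph.continuous _)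
  · intro j
    apply Dense.preimage _ (Homeomorph.isOpenMap _)
    rwa [← interior_eq_empty_iff_dense_compl]

/-- The number of words in the box that send `x` into `S`. -/
noncomputable def cnt {k : ℕ} (c : Fin k → ℝ) (N : ℕ) (S : Set ℝ) (x : ℝ) : ℕ := by
  classical exact ((box k N).filter (fun q => act c q x ∈ S)).card

theorem periodic_per (S : Set ℝ) :
    Function.Periodic ((per S).indicator (fun _ => (1 : ℝ))) 4 := by
  intro x
  have : x + 4 ∈ per S ↔ x ∈ per S := by
    constructor
    · rintro ⟨j, hj⟩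
      refine ⟨j + 1, ?_⟩
      have : x + 4 * ((j + 1 : ℤ) : ℝ) = x + 4 + 4 * (j : ℝ) := by push_cast; ring
      rwa [this]
    · rintro ⟨j, hj⟩
      refine ⟨j - 1, ?_⟩
      have : x + 4 + 4 * ((j - 1 : ℤ) : ℝ) = x + 4 * (j : ℝ) := by push_cast; ring
      rwa [this]
  by_cases h : x ∈ per S
  · rw [Set.indicator_of_mem h, Set.indicator_of_mem (this.mpr h)]
  · rw [Set.indicator_of_notMem h, Set.indicator_of_notMem (fun h' => h (this.mp h'))]

/-- Averaging over a period: the mean of the indicator of `per (2, 2+c0)` along a word. -/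
theorem integral_act {k : ℕ} (c : Fin k → ℝ) (q : ℤˣ × (Fin k → ℤ)) (c0 : ℝ) (h0 : 0 < c0)
    (h1 : c0 ≤ 1) :
    ∫ x in (0 : ℝ)..4, (per (Set.Ioo 2 (2 + c0))).indicator (fun _ => (1 : ℝ)) (act c q x) = c0 := by
  set g := (per (Set.Ioo 2 (2 + c0))).indicator (fun _ => (1 : ℝ)) with hg
  have hper : Function.Periodic g 4 := periodic_per _
  have hbase : ∫ x in (0 : ℝ)..4, g x = c0 := by
    have heq : ∫ x in (0 : ℝ)..4, g x =
        ∫ x in (0 : ℝ)..4, (Set.Ioo 2 (2 + c0)).indicator (fun _ => (1 : ℝ)) x := by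
      apply intervalIntegral.integral_congr
      intro x hx
      rw [Set.uIcc_of_le (by norm_num)] at hx
      have hiff : x ∈ per (Set.Ioo 2 (2 + c0)) ↔ x ∈ Set.Ioo 2 (2 + c0) := by
        constructor
        · rintro ⟨j, hj⟩
          have hj1 : (-1 : ℝ) < (j : ℝ) := by linarith [hj.1, hx.2]
          have hj2 : (j : ℝ) < 1 := by linarith [hj.2, hx.1]
          have hj1' : -1 < j := by exact_mod_cast hj1
          have hj2' : j < 1 := by exact_mod_cast hj2
          have : j = 0 := by omega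
          subst this
          simpa using hj
        · intro h
          exact ⟨0, by simpa using h⟩
      by_cases hx' : x ∈ Set.Ioo 2 (2 + c0)
      · simp only [hg]
        rw [Set.indicator_of_mem (hiff.mpr hx'), Set.indicator_of_mem hx']
      · simp only [hg]
        rw [Set.indicator_of_notMem (fun h => hx' (hiff.mp h)), Set.indicator_of_notMem hx']
    rw [heq, intervalIntegral.integral_of_le (by norm_num),
      MeasureTheory.integral_indicator measurableSet_Ioo, Measure.restrict_restrict measurableSet_Ioo]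
    have : Set.Ioo 2 (2 + c0) ∩ Set.Ioc 0 4 = Set.Ioo 2 (2 + c0) := by
      apply Set.inter_eq_left.mpr
      intro y hy
      exact ⟨by linarith [hy.1], by linarith [hy.2]⟩
    rw [this]
    simp [h0.le]
  rcases Int.units_eq_one_or q.1 with h | h
  · have : (fun x => g (act c q x)) = fun x => g (x + ∑ j, ((q.2 j : ℤ) : ℝ) * c j) := by
      funext x; simp [act, h]
    rw [this, intervalIntegral.integral_comp_add_right g]
    have := hper.intervalIntegral_add_eq (0 + ∑ j, ((q.2 j : ℤ) : ℝ) * c j) 0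
    rw [zero_add] at this ⊢
    rw [add_comm (4 : ℝ), this, zero_add, hbase]
  · have : (fun x => g (act c q x)) = fun x => g ((∑ j, ((q.2 j : ℤ) : ℝ) * c j) - x) := by
      funext x; simp [act, h]; congr 1; ring
    rw [this, intervalIntegral.integral_comp_sub_left g]
    have := hper.intervalIntegral_add_eq ((∑ j, ((q.2 j : ℤ) : ℝ) * c j) - 4) 0
    rw [sub_add_cancel, zero_add] at this
    rw [sub_zero, this, hbase]

/-- Some point is sent into `per (2, 2+c0)` by a definite proportion of the box. -/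
theorem exists_many {k : ℕ} (c : Fin k → ℝ) (N : ℕ) (c0 : ℝ) (h0 : 0 < c0) (h1 : c0 ≤ 1) :
    ∃ x, ((box k N).card : ℝ) * c0 ≤ 8 * (cnt c N (per (Set.Ioo 2 (2 + c0))) x : ℝ) := by
  classical
  by_contra hcon
  push Not at hcon
  set S := per (Set.Ioo 2 (2 + c0)) with hS
  have hcnt : ∀ x, (cnt c N S x : ℝ) =
      ∑ q ∈ box k N, S.indicator (fun _ => (1 : ℝ)) (act c q x) := by
    intro x
    unfold cnt
    rw [Finset.card_filter]
    push_cast
    apply Finset.sum_congr rfl
    intro q _
    simp [Set.indicator_apply]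
  have hmeas : ∀ q, Measurable (fun x => S.indicator (fun _ => (1 : ℝ)) (act c q x)) := by
    intro q
    exact (measurable_const.indicator (isOpen_per isOpen_Ioo).measurableSet).comp
      (continuous_act c q).measurable
  have hint : ∀ q, IntervalIntegrable
      (fun x => S.indicator (fun _ => (1 : ℝ)) (act c q x)) volume 0 4 := by
    intro q
    rw [intervalIntegrable_iff]
    apply Measure.integrableOn_of_bounded (M := 1)
    · simp
    · exact (hmeas q).aestronglyMeasurable
    · refine Filter.Eventually.of_forall fun x => ?_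
      by_cases hx : act c q x ∈ S <;> simp [hx]
  have hsum : ∫ x in (0 : ℝ)..4, (cnt c N S x : ℝ) = (box k N).card * c0 := by
    simp_rw [hcnt]
    rw [intervalIntegral.integral_finsetSum (fun q _ => hint q)]
    rw [Finset.sum_congr rfl (fun q _ => integral_act c q c0 h0 h1)]
    simp
  have hle : ∫ x in (0 : ℝ)..4, (cnt c N S x : ℝ) ≤
      ∫ x in (0 : ℝ)..4, ((box k N).card : ℝ) * c0 / 8 := by
    apply intervalIntegral.integral_mono_on (by norm_num)
    · simp_rw [hcnt]
      have h3 := IntervalIntegrable.sum (box k N) (fun q _ => hint q)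
      have h4 : (fun u => ∑ q ∈ box k N, S.indicator (fun _ => (1 : ℝ)) (act c q u)) =
          ∑ i ∈ box k N, fun x => S.indicator (fun _ => (1 : ℝ)) (act c i x) := by
        funext x
        rw [Finset.sum_apply]
      rw [h4]
      exact h3
    · exact intervalIntegrable_const
    · intro x _
      have := hcon x
      linarith
  rw [hsum] at hle
  simp only [intervalIntegral.integral_const, sub_zero, smul_eq_mul] at hle
  have hpos : 0 < ((box k N).card : ℝ) := by
    rw [card_box]; positivity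
  nlinarith [mul_pos hpos h0]

/-- A finite equidecomposition injects hits of `A` by words of size `N` into hits of `B` by
words of size `N + 1`. -/
theorem compare {k : ℕ} (P : Fin k → Set ℝ) (f : Fin k → ℝ → ℝ) (e : Fin k → ℤˣ)
    (c : Fin k → ℝ) (hf : ∀ i x, f i x = ((e i : ℤ) : ℝ) * x + c i) (A B E₁ E₂ : Set ℝ)
    (hB : B ⊆ Set.Ico 0 4)
    (hd : Pairwise (fun i j => Disjoint (f i '' P i) (f j '' P j)))
    (hP : (⋃ i, P i) = A \ E₁) (hPB : (⋃ i, f i '' P i) = B \ E₂)
    (x : ℝ) (hx : ∀ (q : ℤˣ × (Fin k → ℤ)) (j : ℤ), act c q x + 4 * (j : ℝ) ∉ E₁) (N : ℕ) :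
    cnt c N (per A) x ≤ cnt c (N + 1) (per B) x := by
  classical
  have hch : ∀ q ∈ (box k N).filter (fun q => act c q x ∈ per A),
      ∃ (i : Fin k) (j : ℤ), act c q x + 4 * (j : ℝ) ∈ P i := by
    intro q hq
    obtain ⟨j, hj⟩ := (Finset.mem_filter.mp hq).2
    have : act c q x + 4 * (j : ℝ) ∈ ⋃ i, P i := by
      rw [hP]
      exact ⟨hj, hx q j⟩
    obtain ⟨i, hi⟩ := Set.mem_iUnion.mp this
    exact ⟨i, j, hi⟩
  rcases isEmpty_or_nonempty (Fin k) with hk | hk
  · have : (box k N).filter (fun q => act c q x ∈ per A) = ∅ := by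
      rw [Finset.eq_empty_iff_forall_notMem]
      intro q hq
      obtain ⟨i, -⟩ := hch q hq
      exact hk.elim i
    unfold cnt
    rw [this]
    simp
  choose! i j hij using hch
  unfold cnt
  apply Finset.card_le_card_of_injOn
    (fun q => ((e (i q) * q.1, fun l => ((e (i q) : ℤˣ) : ℤ) * q.2 l + if l = i q then 1 else 0) :
      ℤˣ × (Fin k → ℤ)))
  · intro q hq
    have hq' := hij q hq
    have hbox := mem_box.mp (Finset.mem_filter.mp hq).1
    simp only [Finset.coe_filter, Set.mem_ofPred_eq]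
    refine ⟨?_, ?_⟩
    · rw [mem_box]
      intro l
      obtain ⟨h1, h2⟩ := hbox l
      push_cast
      rcases Int.units_eq_one_or (e (i q)) with h | h
      · simp only [h, Units.val_one, one_mul]
        split_ifs <;> constructor <;> omega
      · simp only [h, Units.val_neg, Units.val_one, neg_mul, one_mul]
        split_ifs <;> constructor <;> omega
    · have hmem : f (i q) (act c q x + 4 * (j q : ℝ)) ∈ ⋃ i, f i '' P i :=
        Set.mem_iUnion.mpr ⟨i q, ⟨_, hq', rfl⟩⟩
      rw [hPB] at hmem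
      refine ⟨((e (i q) : ℤˣ) : ℤ) * j q, ?_⟩
      convert hmem.1 using 1
      rw [hf]
      simp only [act]
      push_cast
      simp only [add_mul, ite_mul, one_mul, zero_mul, Finset.sum_add_distrib, Finset.sum_ite_eq',
        Finset.mem_univ, if_true, mul_assoc, ← Finset.mul_sum]
      ring
  · intro q1 hq1 q2 hq2 heq
    have h1 := hij q1 hq1
    have h2 := hij q2 hq2
    simp only [Prod.mk.injEq] at heq
    obtain ⟨heq1, heq2⟩ := heq
    set q'' : ℤˣ × (Fin k → ℤ) :=
      (e (i q1) * q1.1, fun l => ((e (i q1) : ℤˣ) : ℤ) * q1.2 l + if l = i q1 then 1 else 0)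
      with hq''
    have key : ∀ q, f (i q) (act c q x + 4 * (j q : ℝ)) =
        act c (e (i q) * q.1, fun l => ((e (i q) : ℤˣ) : ℤ) * q.2 l + if l = i q then 1 else 0) x
          + 4 * ((((e (i q) : ℤˣ) : ℤ) * j q : ℤ) : ℝ) := by
      intro q
      rw [hf]
      simp only [act]
      push_cast
      simp only [add_mul, ite_mul, one_mul, zero_mul, Finset.sum_add_distrib, Finset.sum_ite_eq',
        Finset.mem_univ, if_true, mul_assoc, ← Finset.mul_sum]
      ring
    have k1 := key q1
    have k2 := key q2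
    have hq2'' : ((e (i q2) * q2.1, fun l => ((e (i q2) : ℤˣ) : ℤ) * q2.2 l +
        if l = i q2 then 1 else 0) : ℤˣ × (Fin k → ℤ)) = q'' := by
      rw [hq'', heq1, heq2]
    rw [hq2''] at k2
    have m1 : f (i q1) (act c q1 x + 4 * (j q1 : ℝ)) ∈ f (i q1) '' P (i q1) := ⟨_, h1, rfl⟩
    have m2 : f (i q2) (act c q2 x + 4 * (j q2 : ℝ)) ∈ f (i q2) '' P (i q2) := ⟨_, h2, rfl⟩
    have b1 : f (i q1) (act c q1 x + 4 * (j q1 : ℝ)) ∈ B := by
      have : f (i q1) (act c q1 x + 4 * (j q1 : ℝ)) ∈ B \ E₂ := by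
        rw [← hPB]; exact Set.mem_iUnion.mpr ⟨_, m1⟩
      exact this.1
    have b2 : f (i q2) (act c q2 x + 4 * (j q2 : ℝ)) ∈ B := by
      have : f (i q2) (act c q2 x + 4 * (j q2 : ℝ)) ∈ B \ E₂ := by
        rw [← hPB]; exact Set.mem_iUnion.mpr ⟨_, m2⟩
      exact this.1
    have c1 := hB b1
    have c2 := hB b2
    rw [k1] at c1
    rw [k2] at c2
    have hJ : ((e (i q1) : ℤˣ) : ℤ) * j q1 = ((e (i q2) : ℤˣ) : ℤ) * j q2 := by
      have l1 : ((((e (i q1) : ℤˣ) : ℤ) * j q1 : ℤ) : ℝ) - ((((e (i q2) : ℤˣ) : ℤ) * j q2 : ℤ) : ℝ) < 1 := by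
        linarith [c1.1, c1.2, c2.1, c2.2]
      have l2 : ((((e (i q2) : ℤˣ) : ℤ) * j q2 : ℤ) : ℝ) - ((((e (i q1) : ℤˣ) : ℤ) * j q1 : ℤ) : ℝ) < 1 := by
        linarith [c1.1, c1.2, c2.1, c2.2]
      have l1' : ((e (i q1) : ℤˣ) : ℤ) * j q1 - ((e (i q2) : ℤˣ) : ℤ) * j q2 < 1 := by
        exact_mod_cast l1
      have l2' : ((e (i q2) : ℤˣ) : ℤ) * j q2 - ((e (i q1) : ℤˣ) : ℤ) * j q1 < 1 := by
        exact_mod_cast l2
      omega
    have hpt : f (i q1) (act c q1 x + 4 * (j q1 : ℝ)) = f (i q2) (act c q2 x + 4 * (j q2 : ℝ)) := by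
      rw [k1, k2, hJ]
    have hi : i q1 = i q2 := by
      by_contra hne
      have := hd hne
      exact Set.disjoint_left.mp this m1 (hpt ▸ m2)
    have hfst : q1.1 = q2.1 := by
      have : e (i q1) * q1.1 = e (i q1) * q2.1 := by rw [heq1, hi]
      exact mul_left_cancel this
    have hsnd : q1.2 = q2.2 := by
      funext l
      have := congrFun heq2 l
      simp only [hi, add_left_inj] at this
      have h0 : (((e (i q2) : ℤˣ) : ℤ)) ≠ 0 := by
        rcases Int.units_eq_one_or (e (i q2)) with h | h <;> simp [h]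
      exact mul_left_cancel₀ h0 this
    exact Prod.ext hfst hsnd

/-- Words pull null sets back to null sets. -/
theorem act_preimage_null {k : ℕ} (c : Fin k → ℝ) (q : ℤˣ × (Fin k → ℤ)) (s : ℝ) (E : Set ℝ)
    (hE : volume E = 0) : volume ((fun x => act c q x + s) ⁻¹' E) = 0 := by
  rcases Int.units_eq_one_or q.1 with h | h
  · have : (fun x => act c q x + s) = fun x => x + (∑ j, ((q.2 j : ℤ) : ℝ) * c j + s) := by
      funext x; simp [act, h]; ring
    rw [this, measure_preimage_add_right]
    exact hE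
  · have : (fun x => act c q x + s) = fun x => ((∑ j, ((q.2 j : ℤ) : ℝ) * c j) + s) - x := by
      funext x; simp [act, h]; ring
    rw [this]
    exact (Measure.measurePreserving_sub_left (volume : Measure ℝ) _).quasiMeasurePreserving.preimage_null hE

theorem cnt_mono {k : ℕ} (c : Fin k → ℝ) {N M : ℕ} (hNM : N ≤ M) {S T : Set ℝ} (x : ℝ)
    (h : ∀ q ∈ box k N, act c q x ∈ S → act c q x ∈ T) : cnt c N S x ≤ cnt c M T x := by
  classical
  unfold cnt
  apply Finset.card_le_card
  intro q hq
  rw [Finset.mem_filter] at hq ⊢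
  refine ⟨?_, h q hq.1 hq.2⟩
  rw [mem_box]
  intro j
  obtain ⟨h1, h2⟩ := mem_box.mp hq.1 j
  constructor <;> omega

/-- The main counting contradiction for two sets with nonempty interior. -/
theorem no_decomposition (C : Set ℝ) (hCc : IsClosed C) (hCsub : C ⊆ Set.Icc 0 1)
    (hCi : interior C = ∅) (c0 : ℝ) (h0 : 0 < c0) (h1 : c0 ≤ 1) (E₁ E₂ : Set ℝ)
    (hE₁ : volume E₁ = 0) {k : ℕ} (P : Fin k → Set ℝ) (f : Fin k → ℝ → ℝ)
    (hf : ∀ i, Isometry (f i)) (hd : Pairwise (fun i j => Disjoint (f i '' P i) (f j '' P j)))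
    (hP : (⋃ i, P i) = Set.Ioc 1 (2 + c0) \ E₁)
    (hPB : (⋃ i, f i '' P i) = (C ∪ Set.Ioc 1 2) \ E₂) : False := by
  classical
  have hCcomp : IsCompact C := isCompact_Icc.of_isClosed_subset hCc hCsub
  choose e c hfe using fun i => isometry_real (f i) (hf i)
  set S := per (Set.Ioo 2 (2 + c0)) with hS
  have hBsub : C ∪ Set.Ioc 1 2 ⊆ Set.Ico (0 : ℝ) 4 := by
    rintro y (hy | hy)
    · exact ⟨(hCsub hy).1, by linarith [(hCsub hy).2]⟩
    · exact ⟨by linarith [hy.1], by linarith [hy.2]⟩
  -- the growth inequality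
  have hgrow : ∀ N : ℕ, ((box k N).card : ℝ) * (1 + c0 / 8) ≤ (box k (N + 1)).card := by
    intro N
    obtain ⟨x0, hx0⟩ := exists_many c N c0 h0 h1
    set F := (box k N).filter (fun q => act c q x0 ∈ S) with hF
    set V : Set ℝ := ⋂ q ∈ F, (act c q) ⁻¹' S with hV
    have hVo : IsOpen V := by
      apply isOpen_biInter_finset
      intro q _
      exact (isOpen_per isOpen_Ioo).preimage (continuous_act c q)
    have hVx : x0 ∈ V := by
      simp only [hV, Set.mem_iInter]
      intro q hq
      exact (Finset.mem_filter.mp hq).2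
    set W : Set ℝ := ⋂ q ∈ box k (N + 1), (act c q) ⁻¹' (per C)ᶜ with hW
    have hWo : IsOpen W := by
      apply isOpen_biInter_finset
      intro q _
      exact (isClosed_per hCcomp).isOpen_compl.preimage (continuous_act c q)
    have hWd : Dense W := by
      rw [hW]
      apply dense_biInter_of_isOpen
      · intro q _
        exact (isClosed_per hCcomp).isOpen_compl.preimage (continuous_act c q)
      · exact (box k (N + 1)).countable_toSet
      · intro q _
        have := (interior_per_empty hCc hCi).preimage (actHomeo c q).isOpenMap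
        exact this
    have hne : (V ∩ W).Nonempty := hWd.inter_open_nonempty V hVo ⟨x0, hVx⟩
    have hpos : 0 < volume (V ∩ W) := (hVo.inter hWo).measure_pos volume hne
    have hbad : volume (⋃ q : ℤˣ × (Fin k → ℤ), ⋃ j : ℤ,
        (fun x => act c q x + 4 * (j : ℝ)) ⁻¹' E₁) = 0 := by
      rw [measure_iUnion_null_iff]
      intro q
      rw [measure_iUnion_null_iff]
      intro j
      exact act_preimage_null c q _ E₁ hE₁
    obtain ⟨x, hxVW, hxE⟩ : ∃ x ∈ V ∩ W, x ∉ (⋃ q : ℤˣ × (Fin k → ℤ), ⋃ j : ℤ,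
        (fun x => act c q x + 4 * (j : ℝ)) ⁻¹' E₁) := by
      by_contra hcon
      push Not at hcon
      have := measure_mono (μ := (volume : Measure ℝ)) (fun x hx => hcon x hx)
      rw [hbad] at this
      exact absurd hpos (not_lt.mpr this)
    obtain ⟨hxV, hxW⟩ := hxVW
    have hgen : ∀ (q : ℤˣ × (Fin k → ℤ)) (j : ℤ), act c q x + 4 * (j : ℝ) ∉ E₁ := by
      intro q j h
      exact hxE (Set.mem_iUnion.mpr ⟨q, Set.mem_iUnion.mpr ⟨j, h⟩⟩)
    have hcmp := compare P f e c hfe (Set.Ioc 1 (2 + c0)) (C ∪ Set.Ioc 1 2) E₁ E₂ hBsub hd hP hPB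
      x hgen N
    -- hits of B are hits of `Ioc 1 2`
    have hB1 : cnt c (N + 1) (per (C ∪ Set.Ioc 1 2)) x ≤ cnt c (N + 1) (per (Set.Ioc 1 2)) x := by
      apply cnt_mono c le_rfl
      intro q hq hh
      obtain ⟨j, hj⟩ := hh
      rcases hj with hj | hj
      · exfalso
        simp only [hW, Set.mem_iInter] at hxW
        exact hxW q hq ⟨j, hj⟩
      · exact ⟨j, hj⟩
    -- hits of A split
    have hA1 : cnt c N (per (Set.Ioc 1 2)) x + cnt c N S x ≤
        cnt c N (per (Set.Ioc 1 (2 + c0))) x := by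
      unfold cnt
      rw [← Finset.card_union_of_disjoint]
      · apply Finset.card_le_card
        intro q hq
        rw [Finset.mem_union, Finset.mem_filter, Finset.mem_filter] at hq
        rw [Finset.mem_filter]
        rcases hq with ⟨hq, j, hj⟩ | ⟨hq, j, hj⟩
        · exact ⟨hq, j, ⟨hj.1, by linarith [hj.2]⟩⟩
        · exact ⟨hq, j, ⟨by linarith [hj.1], hj.2.le⟩⟩
      · rw [Finset.disjoint_left]
        intro q hq hq'
        obtain ⟨-, j, hj⟩ := Finset.mem_filter.mp hq
        obtain ⟨-, l, hl⟩ := Finset.mem_filter.mp hq'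
        have a1 : (j : ℝ) - l < 1 := by linarith [hj.2, hl.1]
        have a2 : (-1 : ℝ) < (j : ℝ) - l := by linarith [hj.1, hl.2]
        have a1' : j - l < 1 := by exact_mod_cast a1
        have a2' : -1 < j - l := by exact_mod_cast a2
        have : j = l := by omega
        subst this
        linarith [hj.2, hl.1]
    have hcomp : cnt c (N + 1) (per (Set.Ioc 1 2)) x + (box k N).card ≤
        cnt c N (per (Set.Ioc 1 2)) x + (box k (N + 1)).card := by
      have hsub : box k N ⊆ box k (N + 1) := by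
        intro q hq
        rw [mem_box] at hq ⊢
        intro j
        obtain ⟨h1, h2⟩ := hq j
        constructor <;> push_cast <;> omega
      unfold cnt
      have e1 : ((box k (N + 1)).filter (fun q => act c q x ∈ per (Set.Ioc 1 2))) ⊆
          ((box k N).filter (fun q => act c q x ∈ per (Set.Ioc 1 2))) ∪
            (box k (N + 1) \ box k N) := by
        intro q hq
        rw [Finset.mem_union, Finset.mem_filter, Finset.mem_sdiff]
        rw [Finset.mem_filter] at hq
        by_cases hqN : q ∈ box k N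
        · exact Or.inl ⟨hqN, hq.2⟩
        · exact Or.inr ⟨hq.1, hqN⟩
      have e2 := (Finset.card_le_card e1).trans (Finset.card_union_le _ _)
      have e3 := Finset.card_sdiff_add_card_eq_card hsub
      omega
    have hcS : cnt c N S x0 ≤ cnt c N S x := by
      unfold cnt
      apply Finset.card_le_card
      intro q hq
      rw [Finset.mem_filter]
      refine ⟨(Finset.mem_filter.mp hq).1, ?_⟩
      simp only [hV, Set.mem_iInter] at hxV
      exact hxV q hq
    have hfinal : cnt c N S x0 + (box k N).card ≤ (box k (N + 1)).card := by omega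
    have hfinal' : (cnt c N S x0 : ℝ) + (box k N).card ≤ (box k (N + 1)).card := by
      exact_mod_cast hfinal
    linarith
  -- polynomial growth contradicts it
  have hlim : Filter.Tendsto (fun N : ℕ => (1 + 2 / (2 * (N : ℝ) + 1)) ^ k)
      Filter.atTop (nhds ((1 + 0) ^ k)) := by
    apply Filter.Tendsto.pow
    apply Filter.Tendsto.add tendsto_const_nhds
    apply Filter.Tendsto.div_atTop tendsto_const_nhds
    apply Filter.tendsto_atTop_add_const_right
    exact Filter.Tendsto.const_mul_atTop (by norm_num) tendsto_natCast_atTop_atTop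
  have hev : ∀ᶠ N : ℕ in Filter.atTop, (1 + 2 / (2 * (N : ℝ) + 1)) ^ k < 1 + c0 / 8 := by
    apply hlim.eventually_lt_const
    simp only [add_zero, one_pow]
    linarith
  obtain ⟨N, hN⟩ := hev.exists
  have hg := hgrow N
  rw [card_box, card_box] at hg
  push_cast at hg
  have hpos : (0 : ℝ) < (2 * (N : ℝ) + 1) := by positivity
  have hratio : (2 * ((N : ℝ) + 1) + 1) = (2 * (N : ℝ) + 1) * (1 + 2 / (2 * (N : ℝ) + 1)) := by
    field_simp
    ring
  rw [hratio, mul_pow] at hg
  have hpp : (0 : ℝ) < (2 * (N : ℝ) + 1) ^ k := by positivity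
  have : (2 * (N : ℝ) + 1) ^ k * (1 + 2 / (2 * (N : ℝ) + 1)) ^ k <
      (2 * (N : ℝ) + 1) ^ k * (1 + c0 / 8) := by
    exact mul_lt_mul_of_pos_left hN hpp
  nlinarith

/-- The negation of the preceding statement: Any two bounded Lebesgue measurable subsets of the reals of equal measure become, after deleting null sets, equidecomposable: finitely many disjoint measurable pieces of one, moved by isometries of the line, exactly tile the other. -/
theorem result :
    ¬ (∀ A B : Set ℝ, NullMeasurableSet A volume → NullMeasurableSet B volume →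
      Bornology.IsBounded A → Bornology.IsBounded B → volume A = volume B →
      ∃ E₁ E₂ : Set ℝ, volume E₁ = 0 ∧ volume E₂ = 0 ∧
        ∃ (n : ℕ) (P : Fin n → Set ℝ) (f : Fin n → ℝ → ℝ),
          (∀ i, NullMeasurableSet (P i) volume) ∧
          (∀ i, Isometry (f i)) ∧
          Pairwise (fun i j => Disjoint (P i) (P j)) ∧
          Pairwise (fun i j => Disjoint (f i '' P i) (f j '' P j)) ∧
          (⋃ i, P i) = A \ E₁ ∧
          (⋃ i, f i '' P i) = B \ E₂) := by
  intro H
  obtain ⟨C, hCc, hCsub, hCi, hCpos⟩ := exists_fat_cantor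
  have hCle : volume C ≤ 1 := by
    have := measure_mono (μ := (volume : Measure ℝ)) hCsub
    simpa using this
  have hCfin : volume C ≠ ⊤ := ne_top_of_le_ne_top ENNReal.one_ne_top hCle
  set c0 : ℝ := (volume C).toReal with hc0
  have h0 : 0 < c0 := ENNReal.toReal_pos hCpos.ne' hCfin
  have h1 : c0 ≤ 1 := by
    have := ENNReal.toReal_mono ENNReal.one_ne_top hCle
    simpa using this
  have hvol : volume (Set.Ioc (1 : ℝ) (2 + c0)) = volume (C ∪ Set.Ioc 1 2) := by
    rw [measure_union _ measurableSet_Ioc]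
    · rw [Real.volume_Ioc, Real.volume_Ioc]
      have : volume C = ENNReal.ofReal c0 := (ENNReal.ofReal_toReal hCfin).symm
      rw [this, ← ENNReal.ofReal_add h0.le (by norm_num)]
      congr 1
      ring
    · rw [Set.disjoint_left]
      intro y hy hy'
      linarith [(hCsub hy).2, hy'.1]
  obtain ⟨E₁, E₂, hE1, -, n, P, f, -, hf, -, hd, hP, hPB⟩ :=
    H (Set.Ioc 1 (2 + c0)) (C ∪ Set.Ioc 1 2) measurableSet_Ioc.nullMeasurableSet
      (hCc.measurableSet.union measurableSet_Ioc).nullMeasurableSet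
      (Metric.isBounded_Ioc 1 (2 + c0))
      (((Metric.isBounded_Icc 0 1).subset hCsub).union (Metric.isBounded_Ioc 1 2)) hvol
  exact no_decomposition C hCc hCsub hCi c0 h0 h1 E₁ E₂ hE1 P f hf hd hP hPB

end Pool.Agent.S03956
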