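import Pool.Statements.S03959

set_option autoImplicit false
open Pool Pool.MP_c173a1_an

section
open ContinuousLinearMap
namespace Pool.Agent.S03959.VNa

variable {H : Type*} [NormedAddCommGroup H] [InnerProductSpace ℂ H] [CompleteSpace H]


theorem mulA (a b : H →L[ℂ] H) (x : H) : (a * b) x = a (b x) := rfl

theorem mem_iff_comm (M : VonNeumannAlgebra H) (x : H →L[ℂ] H) :
    x ∈ M ↔ ∀ y ∈ M.commutant, y * x = x * y := by
  conv_lhs => rw [← M.commutant_commutant]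
  exact VonNeumannAlgebra.mem_commutant_iff

theorem ext_of_inner_self {a b : H →L[ℂ] H} (h : ∀ x, inner ℂ (a x) (x) = inner ℂ (b x) (x)) : a = b := by
  have h1 : ∀ x, inner ℂ ((a - b) x) (x) = 0 := fun x => by
    rw [sub_apply, inner_sub_left, h, sub_self]
  have h2 := (inner_map_self_eq_zero ((a - b : H →L[ℂ] H) : H →ₗ[ℂ] H)).1 h1
  ext x
  have h3 := congrArg (fun f : H →ₗ[ℂ] H => f x) h2
  simpa [sub_eq_zero] using h3

/-- Graph lemma: an isometric relation invariant under the commutant is implemented by an isometric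
isometry of the algebra. -/
theorem exists_pisom (M : VonNeumannAlgebra H) (Γ : Submodule ℂ (H × H))
    (hiso : ∀ z ∈ Γ, ‖z.1‖ = ‖z.2‖)
    (hinv : ∀ y ∈ M.commutant, ∀ z ∈ Γ, ((y z.1, y z.2) : H × H) ∈ Γ) :
    ∃ v ∈ M, (∀ z ∈ Γ, v z.1 = z.2) ∧ (∀ z ∈ Γ, (star v) z.2 = z.1) ∧
      IsStarProjection (star v * v) ∧ v * star v * v = v ∧
      (∀ a : H →L[ℂ] H, (∀ z ∈ Γ, a z.1 = 0) → a * (star v * v) = 0) ∧
      (∀ a : H →L[ℂ] H, (∀ z ∈ Γ, a z.2 = 0) → a * v = 0) := by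
  set Γ' : Submodule ℂ (H × H) := Γ.topologicalClosure with hΓ'
  have hcl : IsClosed (Γ' : Set (H × H)) := Γ.isClosed_topologicalClosure
  have hle : Γ ≤ Γ' := Γ.le_topologicalClosure
  have hiso' : ∀ z ∈ Γ', ‖z.1‖ = ‖z.2‖ := by
    intro z hz
    have hc : IsClosed {z : H × H | ‖z.1‖ = ‖z.2‖} :=
      isClosed_eq (continuous_fst.norm) (continuous_snd.norm)
    have : (Γ' : Set (H × H)) ⊆ {z : H × H | ‖z.1‖ = ‖z.2‖} := by
      rw [hΓ', Submodule.topologicalClosure_coe]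
      exact closure_minimal hiso hc
    exact this hz
  have hinv' : ∀ y ∈ M.commutant, ∀ z ∈ Γ', ((y z.1, y z.2) : H × H) ∈ Γ' := by
    intro y hy z hz
    have hcont : Continuous (fun z : H × H => ((y z.1, y z.2) : H × H)) := by fun_prop
    have h1 : (Γ' : Set (H × H)) ⊆ (fun z : H × H => ((y z.1, y z.2) : H × H)) ⁻¹' Γ' := by
      rw [hΓ', Submodule.topologicalClosure_coe]
      refine closure_minimal (fun w hw => ?_) ((isClosed_closure).preimage hcont)
      exact subset_closure (hinv y hy w hw)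
    exact h1 hz
  have hΓc : CompleteSpace Γ' := hcl.completeSpace_coe
  -- the isometry fst
  have hnorm : ∀ z : Γ', ‖(z : H × H)‖ = ‖(z : H × H).1‖ := by
    intro z
    rw [Prod.norm_def, hiso' z z.2, max_self]
  let f₁ : Γ' →ₗᵢ[ℂ] H :=
    { toLinearMap := (LinearMap.fst ℂ H H).comp Γ'.subtype
      norm_map' := fun z => (hnorm z).symm }
  let f₂ : Γ' →L[ℂ] H := (ContinuousLinearMap.snd ℂ H H).comp Γ'.subtypeL
  have hf₁ : ∀ z : Γ', f₁ z = (z : H × H).1 := fun z => rfl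
  have hf₂ : ∀ z : Γ', f₂ z = (z : H × H).2 := fun z => rfl
  set K : Submodule ℂ H := f₁.toLinearMap.range with hK
  let e : Γ' ≃ₗᵢ[ℂ] K := f₁.equivRange
  have hKc : CompleteSpace K := e.toIsometryEquiv.completeSpace_iff.1 hΓc
  let P : H →L[ℂ] K := K.orthogonalProjectionOnto
  let v : H →L[ℂ] H := f₂.comp ((e.symm.toContinuousLinearEquiv : K →L[ℂ] Γ').comp P)
  have he : ∀ z : Γ', e z = ⟨(z : H × H).1, ⟨z, rfl⟩⟩ := fun z => rfl
  have hv1 : ∀ z ∈ Γ', v z.1 = z.2 := by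
    intro z hz
    have h1 : P z.1 = e ⟨z, hz⟩ := by
      have : P ((e ⟨z, hz⟩ : K) : H) = e ⟨z, hz⟩ :=
        Submodule.orthogonalProjectionOnto_mem_subspace_eq_self _
      exact this
    change f₂ (e.symm (P z.1)) = z.2
    rw [h1, e.symm_apply_apply, hf₂]
  have hv0 : ∀ x ∈ Kᗮ, v x = 0 := by
    intro x hx
    have h1 : P x = 0 := Submodule.orthogonalProjectionOnto_apply_of_mem_orthogonal hx
    change f₂ (e.symm (P x)) = 0
    rw [h1]; simp
  set p : H →L[ℂ] H := K.starProjection with hp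
  have hpstar : IsStarProjection p := isStarProjection_starProjection
  have hdec : ∀ x : H, x - p x ∈ Kᗮ := fun x => K.sub_starProjection_mem_orthogonal x
  have hpK : ∀ x : H, p x ∈ K := fun x => K.starProjection_apply_mem x
  have hvp : ∀ x, v x = v (p x) := by
    intro x
    have h1 : v (x - p x) = 0 := hv0 _ (hdec x)
    rw [map_sub, sub_eq_zero] at h1
    exact h1
  have hKmem : ∀ x ∈ K, ∃ z ∈ Γ', z.1 = x := by
    rintro x ⟨z, rfl⟩
    exact ⟨z, z.2, rfl⟩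
  have hnv : ∀ x, ‖v x‖ = ‖p x‖ := by
    intro x
    obtain ⟨z, hz, hzx⟩ := hKmem (p x) (hpK x)
    rw [hvp x, ← hzx, hv1 z hz, hiso' z hz]
  have hvv : star v * v = p := by
    apply ext_of_inner_self
    intro x
    have h1 : inner ℂ ((star v * v) x) (x) = inner ℂ (v x) (v x) := by
      rw [mulA, star_eq_adjoint, adjoint_inner_left]
    have h2 : inner ℂ (p x) (x) = inner ℂ (p x) (p x) := by
      have h3 : inner ℂ (p x) (x - p x) = 0 := (hdec x) _ (hpK x)
      rw [inner_sub_right, sub_eq_zero] at h3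
      exact h3
    rw [h1, h2, inner_self_eq_norm_sq_to_K, inner_self_eq_norm_sq_to_K, hnv]
  have hvpm : v * p = v := by
    ext x
    rw [mulA, ← hvp x]
  have hinvK : ∀ y ∈ M.commutant, ∀ x ∈ K, y x ∈ K := by
    intro y hy x hx
    obtain ⟨z, hz, rfl⟩ := hKmem x hx
    exact ⟨⟨_, hinv' y hy z hz⟩, rfl⟩
  have hinvK' : ∀ y ∈ M.commutant, ∀ x ∈ Kᗮ, y x ∈ Kᗮ := by
    intro y hy x hx w hw
    have h1 : (star y) w ∈ K := hinvK (star y) (star_mem hy) w hw
    have h2 := hx _ h1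
    rwa [star_eq_adjoint, adjoint_inner_left] at h2
  refine ⟨v, ?_, ?_, ?_, ?_, ?_, ?_, ?_⟩
  · rw [mem_iff_comm]
    intro y hy
    ext x
    rw [mulA, mulA]
    have h1 : v x = v (p x) := hvp x
    have h2 : v (y x) = v (y (p x)) := by
      have h3 : v (y (x - p x)) = 0 := hv0 _ (hinvK' y hy _ (hdec x))
      rw [map_sub, map_sub, sub_eq_zero] at h3
      exact h3
    obtain ⟨z, hz, hzx⟩ := hKmem (p x) (hpK x)
    rw [h1, h2, ← hzx, hv1 z hz]
    exact (hv1 _ (hinv' y hy z hz)).symm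
  · exact fun z hz => hv1 z (hle hz)
  · intro z hz
    have h1 : (star v * v) z.1 = p z.1 := by rw [hvv]
    rw [mulA, hv1 z (hle hz)] at h1
    rw [h1]
    exact (K.starProjection_eq_self_iff).2 ⟨⟨z, hle hz⟩, rfl⟩
  · rw [hvv]; exact hpstar
  · rw [mul_assoc, hvv, hvpm]
  · intro a ha
    rw [hvv]
    ext x
    rw [mulA]
    obtain ⟨z, hz, hzx⟩ := hKmem (p x) (hpK x)
    rw [← hzx]
    have hc : IsClosed {z : H × H | a z.1 = 0} :=
      isClosed_eq (by fun_prop) continuous_const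
    have h1 : (Γ' : Set (H × H)) ⊆ {z : H × H | a z.1 = 0} := by
      rw [hΓ', Submodule.topologicalClosure_coe]
      exact closure_minimal ha hc
    exact h1 hz
  · intro a ha
    ext x
    rw [mulA, hvp x]
    obtain ⟨z, hz, hzx⟩ := hKmem (p x) (hpK x)
    rw [← hzx, hv1 z hz]
    have hc : IsClosed {z : H × H | a z.2 = 0} :=
      isClosed_eq (by fun_prop) continuous_const
    have h1 : (Γ' : Set (H × H)) ⊆ {z : H × H | a z.2 = 0} := by
      rw [hΓ', Submodule.topologicalClosure_coe]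
      exact closure_minimal ha hc
    exact h1 hz

end Pool.Agent.S03959.VNa
end

section
open ContinuousLinearMap
namespace Pool.Agent.S03959.VNb

open Pool.Agent.S03959.VNa

variable {H : Type*} [NormedAddCommGroup H] [InnerProductSpace ℂ H] [CompleteSpace H]


/-- e is a projection of the algebra M. -/
def Pr (M : VonNeumannAlgebra H) (e : H →L[ℂ] H) : Prop := e ∈ M ∧ e * e = e ∧ star e = e

/-- e is equivalent in M to a subprojection of f. -/
def Sub (M : VonNeumannAlgebra H) (e f : H →L[ℂ] H) : Prop :=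
  ∃ v ∈ M, star v * v = e ∧ f * v = v

theorem comm_of_mem {M : VonNeumannAlgebra H} {x y : H →L[ℂ] H} (hx : x ∈ M)
    (hy : y ∈ M.commutant) : y * x = x * y := (mem_iff_comm M x).1 hx y hy

theorem mem_of_commute {M : VonNeumannAlgebra H} {x a : H →L[ℂ] H} (hx : x ∈ M)
    (h : ∀ y, Commute x y → Commute (star x) y → Commute a y) : a ∈ M := by
  rw [mem_iff_comm]
  intro y hy
  have h1 : Commute x y := (comm_of_mem hx hy).symm
  have h2 : Commute (star x) y := (comm_of_mem (star_mem hx) hy).symm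
  exact (h y h1 h2).eq.symm

theorem sqrt_mem {M : VonNeumannAlgebra H} {x : H →L[ℂ] H} (hx : x ∈ M) :
    CFC.sqrt x ∈ M := by
  refine mem_of_commute hx fun y h1 _ => ?_
  rw [CFC.sqrt_eq_cfc]
  exact h1.cfc_nnreal _

theorem pr_zero (M : VonNeumannAlgebra H) : Pr M 0 := ⟨zero_mem M, by simp, by simp⟩

theorem pr_one (M : VonNeumannAlgebra H) : Pr M 1 := ⟨one_mem M, by simp, by simp⟩

theorem smul_mem' {M : VonNeumannAlgebra H} (c : ℂ) {x : H →L[ℂ] H} (hx : x ∈ M) : c • x ∈ M := by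
  rw [mem_iff_comm]
  intro y hy
  rw [mul_smul_comm, smul_mul_assoc, comm_of_mem hx hy]

theorem left_of_right {e f : H →L[ℂ] H} (he : star e = e) (hf : star f = f) (h : f * e = e) :
    e * f = e := by
  have := congrArg star h
  rwa [star_mul, he, hf] at this

theorem pr_sub {M : VonNeumannAlgebra H} {e f : H →L[ℂ] H} (he : Pr M e) (hf : Pr M f)
    (h : f * e = e) : Pr M (f - e) := by
  refine ⟨sub_mem hf.1 he.1, ?_, by rw [star_sub, hf.2.2, he.2.2]⟩
  have h' := left_of_right he.2.2 hf.2.2 h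
  rw [sub_mul, mul_sub, mul_sub, hf.2.1, h, h', he.2.1]; abel

theorem pr_add {M : VonNeumannAlgebra H} {e f : H →L[ℂ] H} (he : Pr M e) (hf : Pr M f)
    (h : e * f = 0) : Pr M (e + f) := by
  refine ⟨add_mem he.1 hf.1, ?_, by rw [star_add, hf.2.2, he.2.2]⟩
  have h' : f * e = 0 := by
    have := congrArg star h
    rwa [star_mul, he.2.2, hf.2.2, star_zero] at this
  rw [add_mul, mul_add, mul_add, hf.2.1, h, h', he.2.1]; abel

theorem star_self_zero {x : H →L[ℂ] H} (h : star x * x = 0) : x = 0 :=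
  (CStarRing.star_mul_self_eq_zero_iff x).1 h

/-- isometry identities -/
theorem pi_mul {v e : H →L[ℂ] H} (he : e * e = e) (h : star v * v = e) : v * e = v := by
  have hs : star e = e := by rw [← h, star_mul, star_star]
  have h1 : star (v - v * e) * (v - v * e) = 0 := by
    rw [star_sub, star_mul, hs, sub_mul, mul_sub, mul_sub, h]
    rw [mul_assoc, mul_assoc, ← mul_assoc (star v) v e, h, he, he]
    simp
  have h2 := star_self_zero h1
  exact (sub_eq_zero.1 h2).symm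

theorem pi_final {v e : H →L[ℂ] H} (he : e * e = e) (h : star v * v = e) :
    (v * star v) * (v * star v) = v * star v ∧ star (v * star v) = v * star v := by
  refine ⟨?_, by rw [star_mul, star_star]⟩
  rw [mul_assoc, ← mul_assoc (star v), h, ← mul_assoc, pi_mul he h]

theorem pi_pr {M : VonNeumannAlgebra H} {v e : H →L[ℂ] H} (hv : v ∈ M) (he : e * e = e)
    (h : star v * v = e) : Pr M (v * star v) :=
  ⟨mul_mem hv (star_mem hv), (pi_final he h).1, (pi_final he h).2⟩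

/-- projection onto the closed span of a submodule invariant under the commutant -/
theorem exists_proj (M : VonNeumannAlgebra H) (K : Submodule ℂ H)
    (hK : ∀ y ∈ M.commutant, ∀ x ∈ K, y x ∈ K) :
    ∃ q, Pr M q ∧ (∀ x ∈ K, q x = x) ∧ ∀ a : H →L[ℂ] H, (∀ x ∈ K, a x = 0) → a * q = 0 := by
  let Γ : Submodule ℂ (H × H) := K.map ((LinearMap.id : H →ₗ[ℂ] H).prod LinearMap.id)
  have hmem : ∀ z, z ∈ Γ ↔ ∃ x ∈ K, ((x, x) : H × H) = z := by
    intro z; exact Iff.rfl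
  obtain ⟨v, hv, h1, h2, h3, h4, h5, h6⟩ := exists_pisom M Γ
    (by intro z hz; obtain ⟨x, hx, rfl⟩ := (hmem z).1 hz; rfl)
    (by
      intro y hy z hz
      obtain ⟨x, hx, rfl⟩ := (hmem z).1 hz
      exact (hmem _).2 ⟨y x, hK y hy x hx, rfl⟩)
  refine ⟨star v * v, ⟨mul_mem (star_mem hv) hv, h3.isIdempotentElem, h3.isSelfAdjoint⟩, ?_, ?_⟩
  · intro x hx
    have hz : ((x, x) : H × H) ∈ Γ := (hmem _).2 ⟨x, hx, rfl⟩
    rw [mulA, h1 _ hz]
    exact h2 _ hz
  · intro a ha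
    apply h5
    intro z hz
    obtain ⟨x, hx, rfl⟩ := (hmem z).1 hz
    exact ha x hx

/-- polar decomposition (supports) -/
theorem exists_polar (M : VonNeumannAlgebra H) {x : H →L[ℂ] H} (hx : x ∈ M) :
    ∃ v ∈ M, Pr M (star v * v) ∧ x * (star v * v) = x ∧
      (∀ a : H →L[ℂ] H, x * a = 0 → v * a = 0) ∧
      (∀ a : H →L[ℂ] H, a * x = 0 → a * v = 0) := by
  set s : H →L[ℂ] H := CFC.sqrt (star x * x) with hs
  have hsM : s ∈ M := sqrt_mem (mul_mem (star_mem hx) hx)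
  have hs0 : 0 ≤ s := CFC.sqrt_nonneg _
  have hss : s * s = star x * x := CFC.sqrt_mul_sqrt_self _ (star_mul_self_nonneg x)
  have hsa : star s = s := (IsSelfAdjoint.of_nonneg hs0).star_eq
  have hn : ∀ ξ, ‖s ξ‖ = ‖x ξ‖ := by
    intro ξ
    have h1 : inner ℂ (s ξ) (s ξ) = inner ℂ (x ξ) (x ξ) := by
      have h2 : inner ℂ ((s * s) ξ) (ξ) = inner ℂ (s ξ) (s ξ) := by
        rw [mulA]
        conv_lhs => rw [← hsa]
        rw [star_eq_adjoint, adjoint_inner_left]
        rw [← star_eq_adjoint, hsa]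
      have h3 : inner ℂ ((star x * x) ξ) (ξ) = inner ℂ (x ξ) (x ξ) := by
        rw [mulA, star_eq_adjoint, adjoint_inner_left]
      rw [← h2, hss, h3]
    rw [inner_self_eq_norm_sq_to_K, inner_self_eq_norm_sq_to_K] at h1
    have h4 : ‖s ξ‖ ^ 2 = ‖x ξ‖ ^ 2 := by exact_mod_cast h1
    nlinarith [norm_nonneg (s ξ), norm_nonneg (x ξ)]
  let L : H →ₗ[ℂ] (H × H) := (s : H →ₗ[ℂ] H).prod (x : H →ₗ[ℂ] H)
  let Γ : Submodule ℂ (H × H) := LinearMap.range L
  obtain ⟨v, hv, h1, h2, h3, h4, h5, h6⟩ := exists_pisom M Γ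
    (by rintro z ⟨ξ, rfl⟩; exact hn ξ)
    (by
      rintro y hy z ⟨ξ, rfl⟩
      refine ⟨y ξ, ?_⟩
      have e1 := comm_of_mem hsM hy
      have e2 := comm_of_mem hx hy
      refine Prod.ext ?_ ?_
      · change s (y ξ) = y (s ξ)
        rw [← mulA, ← mulA, e1]
      · change x (y ξ) = y (x ξ)
        rw [← mulA, ← mulA, e2])
  have hPs : (star v * v) * s = s := by
    ext ξ
    have hz : ((s ξ, x ξ) : H × H) ∈ Γ := ⟨ξ, rfl⟩
    rw [mulA, mulA, h1 _ hz]
    exact h2 _ hz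
  have hvs : v * s = x := by
    ext ξ
    have hz : ((s ξ, x ξ) : H × H) ∈ Γ := ⟨ξ, rfl⟩
    rw [mulA, h1 _ hz]
  have hpr : Pr M (star v * v) := ⟨mul_mem (star_mem hv) hv, h3.isIdempotentElem, h3.isSelfAdjoint⟩
  have hsP : s * (star v * v) = s := by
    have := congrArg star hPs
    rwa [star_mul, hpr.2.2, hsa] at this
  refine ⟨v, hv, hpr, ?_, ?_, ?_⟩
  · rw [← hvs]
    rw [mul_assoc v s, hsP]
  · intro a ha
    have hsa0 : s * a = 0 := by
      ext ξ
      have h7 : ‖s (a ξ)‖ = 0 := by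
        rw [hn, ← mulA, ha]; simp
      rw [mulA]; simpa using h7
    have h8 : star a * s = 0 := by
      have := congrArg star hsa0
      rwa [star_mul, hsa, star_zero] at this
    have h9 : star a * (star v * v) = 0 := by
      apply h5
      rintro z ⟨ξ, rfl⟩
      change (star a) (s ξ) = 0
      rw [← mulA, h8]; simp
    have h10 : (star v * v) * a = 0 := by
      have := congrArg star h9
      rwa [star_mul, hpr.2.2, star_star, star_zero] at this
    have h11 : star (v * a) * (v * a) = 0 := by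
      rw [star_mul, mul_assoc, ← mul_assoc (star v), h10, mul_zero]
    exact star_self_zero h11
  · intro a ha
    apply h6
    rintro z ⟨ξ, rfl⟩
    change a (x ξ) = 0
    rw [← mulA, ha]; simp

end Pool.Agent.S03959.VNb
end

section
open ContinuousLinearMap
namespace Pool.Agent.S03959.VNc

open Pool.Agent.S03959.VNa Pool.Agent.S03959.VNb

variable {H : Type*} [NormedAddCommGroup H] [InnerProductSpace ℂ H] [CompleteSpace H]

/-- M is a factor. -/
def Fac (M : VonNeumannAlgebra H) : Prop :=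
  ∀ z ∈ M, (∀ x ∈ M, z * x = x * z) → ∃ c : ℂ, z = algebraMap ℂ (H →L[ℂ] H) c

/-- M is finite. -/
def Fin' (M : VonNeumannAlgebra H) : Prop :=
  ∀ u ∈ M, star u * u = 1 → u * star u = 1

theorem factor_nonzero {M : VonNeumannAlgebra H} (hM : Fac M) {e f : H →L[ℂ] H}
    (he : Pr M e) (hf : Pr M f) (he0 : e ≠ 0) (hf0 : f ≠ 0) : ∃ m ∈ M, f * m * e ≠ 0 := by
  by_contra hcon
  push Not at hcon
  let K : Submodule ℂ H := Submodule.span ℂ {w | ∃ m ∈ M, ∃ ξ, w = m (e ξ)}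
  have hKy : ∀ y ∈ M.commutant, ∀ x ∈ K, y x ∈ K := by
    intro y hy x hx
    induction hx using Submodule.span_induction with
    | mem x h =>
      obtain ⟨m, hm, ξ, rfl⟩ := h
      refine Submodule.subset_span ⟨m, hm, y ξ, ?_⟩
      have e1 := comm_of_mem (mul_mem hm he.1) hy
      have := congrArg (fun T : H →L[ℂ] H => T ξ) e1
      exact this
    | zero => rw [map_zero]; exact zero_mem _
    | add x y _ _ h1 h2 => rw [map_add]; exact add_mem h1 h2
    | smul c x _ h => rw [map_smul]; exact Submodule.smul_mem _ _ h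
  have hKm : ∀ m' ∈ M, ∀ x ∈ K, m' x ∈ K := by
    intro m' hm' x hx
    induction hx using Submodule.span_induction with
    | mem x h =>
      obtain ⟨m, hm, ξ, rfl⟩ := h
      exact Submodule.subset_span ⟨m' * m, mul_mem hm' hm, ξ, rfl⟩
    | zero => rw [map_zero]; exact zero_mem _
    | add x y _ _ h1 h2 => rw [map_add]; exact add_mem h1 h2
    | smul c x _ h => rw [map_smul]; exact Submodule.smul_mem _ _ h
  obtain ⟨q, hq, hq1, hq2⟩ := exists_proj M K hKy
  have hqm : ∀ m' ∈ M, q * m' * q = m' * q := by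
    intro m' hm'
    have h1 : ((1 - q) * m') * q = 0 := by
      apply hq2
      intro x hx
      rw [mulA]
      have := hq1 _ (hKm m' hm' x hx)
      change m' x - q (m' x) = 0
      rw [this, sub_self]
    rw [sub_mul, one_mul, sub_mul, sub_eq_zero] at h1
    exact h1.symm
  have hcen : ∀ x ∈ M, q * x = x * q := by
    intro x hx
    have h1 := hqm x hx
    have h2 := congrArg star (hqm (star x) (star_mem hx))
    rw [star_mul, star_mul, star_mul, star_star, hq.2.2, ← mul_assoc] at h2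
    rw [← h1, h2]
  obtain ⟨c, hc⟩ := hM q hq.1 hcen
  have hqe : q * e = e := by
    ext ξ
    rw [mulA]
    exact hq1 _ (Submodule.subset_span ⟨1, one_mem M, ξ, rfl⟩)
  have hc1 : c = 1 := by
    have h1 : c • e = e := by
      rw [hc, Algebra.algebraMap_eq_smul_one, smul_mul_assoc, one_mul] at hqe
      exact hqe
    have h2 : (c - 1) • e = 0 := by rw [sub_smul, h1, one_smul, sub_self]
    rcases smul_eq_zero.1 h2 with h3 | h3
    · exact sub_eq_zero.1 h3
    · exact absurd h3 he0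
  have hq1' : q = 1 := by rw [hc, hc1, map_one]
  have hfq : f * q = 0 := by
    apply hq2
    intro x hx
    induction hx using Submodule.span_induction with
    | mem x h =>
      obtain ⟨m, hm, ξ, rfl⟩ := h
      have := congrArg (fun T : H →L[ℂ] H => T ξ) (hcon m hm)
      exact this
    | zero => rw [map_zero]
    | add x y _ _ h1 h2 => rw [map_add, h1, h2, add_zero]
    | smul c x _ h => rw [map_smul, h, smul_zero]
  rw [hq1', mul_one] at hfq
  exact hf0 hfq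

theorem nonzero_sub {M : VonNeumannAlgebra H} (hM : Fac M) {e f : H →L[ℂ] H}
    (he : Pr M e) (hf : Pr M f) (he0 : e ≠ 0) (hf0 : f ≠ 0) :
    ∃ v ∈ M, v ≠ 0 ∧ Pr M (star v * v) ∧ e * (star v * v) = star v * v ∧ f * v = v := by
  obtain ⟨m, hm, hx0⟩ := factor_nonzero hM he hf he0 hf0
  obtain ⟨v, hv, h1, h2, h3, h4⟩ := exists_polar M (mul_mem (mul_mem hf.1 hm) he.1)
  have h5 : v * (1 - e) = 0 := by
    apply h3
    rw [mul_sub, mul_one, mul_assoc (f * m) e e, he.2.1, sub_self]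
  have h6 : (1 - f) * v = 0 := by
    apply h4
    rw [sub_mul, one_mul, ← mul_assoc, ← mul_assoc, hf.2.1, sub_self]
  refine ⟨v, hv, ?_, h1, ?_, ?_⟩
  · rintro rfl
    rw [mul_zero, mul_zero] at h2
    exact hx0 h2.symm
  · have h7 : star v * v * (1 - e) = 0 := by rw [mul_assoc, h5, mul_zero]
    have h8 := congrArg star h7
    rw [star_mul, h1.2.2, star_zero, star_sub, star_one, he.2.2, sub_mul, one_mul,
      sub_eq_zero] at h8
    exact h8.symm
  · rw [sub_mul, one_mul, sub_eq_zero] at h6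
    exact h6.symm

theorem pi_norm {v e : H →L[ℂ] H} (he : e * e = e) (h : star v * v = e) (ξ : H) :
    ‖e ξ‖ = ‖v ξ‖ := by
  have hs : star e = e := by rw [← h, star_mul, star_star]
  have h1 : inner ℂ (e ξ) (e ξ) = inner ℂ (v ξ) (v ξ) := by
    have h2 : inner ℂ ((star e * e) ξ) ξ = inner ℂ (e ξ) (e ξ) := by
      rw [mulA, star_eq_adjoint, adjoint_inner_left]
    have h3 : inner ℂ ((star v * v) ξ) ξ = inner ℂ (v ξ) (v ξ) := by
      rw [mulA, star_eq_adjoint, adjoint_inner_left]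
    rw [← h2, ← h3, h, hs, he]
  rw [inner_self_eq_norm_sq_to_K, inner_self_eq_norm_sq_to_K] at h1
  have h4 : ‖e ξ‖ ^ 2 = ‖v ξ‖ ^ 2 := by exact_mod_cast h1
  nlinarith [norm_nonneg (e ξ), norm_nonneg (v ξ)]

theorem compare {M : VonNeumannAlgebra H} (hM : Fac M) {e f : H →L[ℂ] H}
    (he : Pr M e) (hf : Pr M f) : Sub M e f ∨ Sub M f e := by
  let S : Set (Submodule ℂ (H × H)) := {Γ | (∀ z ∈ Γ, ‖z.1‖ = ‖z.2‖) ∧
    (∀ y ∈ M.commutant, ∀ z ∈ Γ, ((y z.1, y z.2) : H × H) ∈ Γ) ∧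
    ∀ z ∈ Γ, e z.1 = z.1 ∧ f z.2 = z.2}
  have hz : ∃ m, Maximal (· ∈ S) m := by
    apply zorn_le₀
    intro c hcS hc
    rcases c.eq_empty_or_nonempty with rfl | hne
    · refine ⟨⊥, ⟨?_, ?_, ?_⟩, by simp⟩
      · intro z hz
        rw [Submodule.mem_bot] at hz; subst hz; simp
      · intro y hy z hz
        rw [Submodule.mem_bot] at hz; subst hz
        simp [Prod.ext_iff]
      · intro z hz
        rw [Submodule.mem_bot] at hz; subst hz; simp
    · have hmem : ∀ z, z ∈ sSup c ↔ ∃ y ∈ c, z ∈ y := fun z =>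
        Submodule.mem_sSup_of_directed hne hc.directedOn
      refine ⟨sSup c, ⟨?_, ?_, ?_⟩, fun Γ hΓ => le_sSup hΓ⟩
      · intro z hz
        obtain ⟨Γ, hΓ, hz⟩ := (hmem z).1 hz
        exact (hcS hΓ).1 z hz
      · intro y hy z hz
        obtain ⟨Γ, hΓ, hz⟩ := (hmem z).1 hz
        exact (hmem _).2 ⟨Γ, hΓ, (hcS hΓ).2.1 y hy z hz⟩
      · intro z hz
        obtain ⟨Γ, hΓ, hz⟩ := (hmem z).1 hz
        exact (hcS hΓ).2.2 z hz
  obtain ⟨Γ, hΓ, hmax⟩ := hz
  obtain ⟨v, hv, h1, h2, h3, h4, h5, h6⟩ := exists_pisom M Γ hΓ.1 hΓ.2.1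
  set e₁ := star v * v with he₁
  have hpr : Pr M e₁ := ⟨mul_mem (star_mem hv) hv, h3.isIdempotentElem, h3.isSelfAdjoint⟩
  have hee : e * e₁ = e₁ := by
    have := h5 (1 - e) (fun z hz => by
      change z.1 - e z.1 = 0
      rw [(hΓ.2.2 z hz).1, sub_self])
    rw [sub_mul, one_mul, sub_eq_zero] at this
    exact this.symm
  have hfv : f * v = v := by
    have := h6 (1 - f) (fun z hz => by
      change z.2 - f z.2 = 0
      rw [(hΓ.2.2 z hz).2, sub_self])
    rw [sub_mul, one_mul, sub_eq_zero] at this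
    exact this.symm
  have hve : v * e₁ = v := pi_mul hpr.2.1 he₁.symm
  have hf₁ : Pr M (v * star v) := pi_pr hv hpr.2.1 he₁.symm
  have hff : f * (v * star v) = v * star v := by rw [← mul_assoc, hfv]
  by_cases hcase1 : e₁ = e
  · left
    exact ⟨v, hv, by rw [← hcase1], hfv⟩
  by_cases hcase2 : v * star v = f
  · right
    refine ⟨star v, star_mem hv, by rw [star_star, hcase2], ?_⟩
    have h7 := congrArg star hve
    rw [star_mul, hpr.2.2] at h7
    rw [← h7, ← mul_assoc, hee]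
  exfalso
  have hE : Pr M (e - e₁) := pr_sub hpr he hee
  have hF : Pr M (f - v * star v) := pr_sub hf₁ hf hff
  obtain ⟨w, hw, hw0, hw1, hw2, hw3⟩ := nonzero_sub hM hE hF
    (fun h => hcase1 (sub_eq_zero.1 h).symm) (fun h => hcase2 (sub_eq_zero.1 h).symm)
  set ew := star w * w with hew
  have he₁e : e₁ * e = e₁ := left_of_right hpr.2.2 he.2.2 hee
  have h10 : e₁ * ew = 0 := by
    rw [← hw2, ← mul_assoc, mul_sub, hpr.2.1, he₁e, sub_self, zero_mul]
  have h10' : ew * e₁ = 0 := by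
    have := congrArg star h10
    rwa [star_mul, hw1.2.2, hpr.2.2, star_zero] at this
  have hww : w * ew = w := pi_mul hw1.2.1 hew.symm
  have h11 : star v * w = 0 := by
    have h12 : v * star v * f = v * star v := left_of_right hf₁.2.2 hf.2.2 hff
    have h13 : (v * star v) * w = 0 := by
      rw [← hw3, ← mul_assoc, mul_sub, hf₁.2.1, h12, sub_self, zero_mul]
    have h14 : star v * (v * star v) = star v := by
      have h15 := congrArg star hve
      rw [star_mul, hpr.2.2, he₁] at h15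
      rw [← mul_assoc]; exact h15
    rw [← h14, mul_assoc, h13, mul_zero]
  have h11' : star w * v = 0 := by
    have := congrArg star h11
    rwa [star_mul, star_star, star_zero] at this
  have hsum : star (v + w) * (v + w) = e₁ + ew := by
    rw [star_add, add_mul, mul_add, mul_add, h11, h11', ← he₁, ← hew]; abel
  have hsum2 : (e₁ + ew) * (e₁ + ew) = e₁ + ew := (pr_add hpr hw1 h10).2.1
  let L : H →ₗ[ℂ] (H × H) := ((e₁ + ew : H →L[ℂ] H) : H →ₗ[ℂ] H).prod ((v + w : H →L[ℂ] H) : H →ₗ[ℂ] H)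
  have hL : ∀ ξ, L ξ = ((e₁ + ew) ξ, (v + w) ξ) := fun ξ => rfl
  have hmemM1 : e₁ + ew ∈ M := add_mem hpr.1 hw1.1
  have hmemM2 : v + w ∈ M := add_mem hv hw
  have hΓ₂ : LinearMap.range L ∈ S := by
    refine ⟨?_, ?_, ?_⟩
    · rintro z ⟨ξ, rfl⟩
      exact pi_norm hsum2 hsum ξ
    · rintro y hy z ⟨ξ, rfl⟩
      refine ⟨y ξ, ?_⟩
      have e1 := comm_of_mem hmemM1 hy
      have e2 := comm_of_mem hmemM2 hy
      refine Prod.ext ?_ ?_
      · exact (congrArg (fun T : H →L[ℂ] H => T ξ) e1).symm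
      · exact (congrArg (fun T : H →L[ℂ] H => T ξ) e2).symm
    · rintro z ⟨ξ, rfl⟩
      have e1 : e * (e₁ + ew) = e₁ + ew := by
        have h16 : e * ew = ew := by
          rw [← hw2, ← mul_assoc, mul_sub, he.2.1, hee]
        rw [mul_add, hee, h16]
      have e2 : f * (v + w) = v + w := by
        have h17 : f * w = w := by
          rw [← hw3, ← mul_assoc, mul_sub, hf.2.1, hff]
        rw [mul_add, hfv, h17]
      exact ⟨congrArg (fun T : H →L[ℂ] H => T ξ) e1, congrArg (fun T : H →L[ℂ] H => T ξ) e2⟩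
  have hle : Γ ≤ LinearMap.range L := by
    intro z hz
    have e1 : e₁ z.1 = z.1 := by rw [he₁, mulA, h1 z hz, h2 z hz]
    have e2 : ew z.1 = 0 := by
      rw [← e1, ← mulA, h10']; simp
    have e3 : w z.1 = 0 := by
      rw [← hww, mulA, e2, map_zero]
    refine ⟨z.1, ?_⟩
    rw [hL]
    refine Prod.ext ?_ ?_
    · change e₁ z.1 + ew z.1 = z.1
      rw [e1, e2, add_zero]
    · change v z.1 + w z.1 = z.2
      rw [h1 z hz, e3, add_zero]
  have hge := hmax hΓ₂ hle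
  have hew0 : ew = 0 := by
    ext η
    have h18 : L (ew η) ∈ Γ := hge ⟨ew η, rfl⟩
    rw [hL] at h18
    have h19 := h2 _ h18
    rw [← h1 _ h18] at h19
    have h20 : e₁ ((e₁ + ew) (ew η)) = (e₁ + ew) (ew η) := h19
    have h21 : (e₁ + ew) * ew = ew := by rw [add_mul, h10, hw1.2.1, zero_add]
    rw [← mulA (e₁ + ew) ew, h21, ← mulA, h10] at h20
    rw [← h20]
  exact hw0 (star_self_zero hew0)

end Pool.Agent.S03959.VNc
end

section
open ContinuousLinearMap
namespace Pool.Agent.S03959.VNd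

open Pool.Agent.S03959.VNa Pool.Agent.S03959.VNb Pool.Agent.S03959.VNc

variable {H : Type*} [NormedAddCommGroup H] [InnerProductSpace ℂ H] [CompleteSpace H]

theorem pi_full {M : VonNeumannAlgebra H} (hfin : Fin' M) {e v : H →L[ℂ] H} (he : Pr M e)
    (hv : v ∈ M) (h : star v * v = e) (hev : e * v = v) : v * star v = e := by
  have hve : v * e = v := pi_mul he.2.1 h
  have hse : star v * e = star v := by
    have := congrArg star hev
    rwa [star_mul, he.2.2] at this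
  have hes : e * star v = star v := by
    have := congrArg star hve
    rwa [star_mul, he.2.2] at this
  have h1 : star (v + (1 - e)) * (v + (1 - e)) = 1 := by
    rw [star_add, star_sub, star_one, he.2.2, add_mul, mul_add, mul_add, h, mul_sub, mul_one, hse,
      sub_mul, one_mul, hev, mul_sub, mul_one, sub_mul, one_mul, he.2.1]
    abel
  have h2 := hfin _ (add_mem hv (sub_mem (one_mem M) he.1)) h1
  rw [star_add, star_sub, star_one, he.2.2, add_mul, mul_add, mul_add, mul_sub, mul_one, hve,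
      sub_mul, one_mul, hes, mul_sub, mul_one, sub_mul, one_mul, he.2.1] at h2
  have h3 : v * star v + (1 - e) = 1 :=
    calc v * star v + (1 - e)
        = v * star v + (v - v) + (star v - star v + (1 - e - (e - e))) := by abel
      _ = 1 := h2
  have h4 := eq_sub_of_add_eq h3
  rw [h4]; abel

theorem no_inf {M : VonNeumannAlgebra H} (hfin : Fin' M) {e : H →L[ℂ] H}
    (he0 : e ≠ 0) (w : ℕ → H →L[ℂ] H) (hw : ∀ i, w i ∈ M)
    (h : ∀ i j, star (w i) * w j = if i = j then e else 0) : False := by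
  let L : ℕ → H →ₗ[ℂ] (H × H) := fun i => ((w i : H →L[ℂ] H) : H →ₗ[ℂ] H).prod
    ((w (i + 1) : H →L[ℂ] H) : H →ₗ[ℂ] H)
  have hL : ∀ i ξ, L i ξ = (w i ξ, w (i + 1) ξ) := fun i ξ => rfl
  let Γ : Submodule ℂ (H × H) := ⨆ i, LinearMap.range (L i)
  have hmem : ∀ i ξ, ((w i ξ, w (i + 1) ξ) : H × H) ∈ Γ := fun i ξ =>
    (le_iSup (fun i => LinearMap.range (L i)) i) ⟨ξ, rfl⟩
  have hinn : ∀ i j ξ η, inner ℂ (w i ξ) (w j η) = if i = j then inner ℂ ξ (e η) else 0 := by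
    intro i j ξ η
    have h1 : inner ℂ ξ ((star (w i) * w j) η) = inner ℂ (w i ξ) (w j η) := by
      rw [mulA, star_eq_adjoint, adjoint_inner_right]
    rw [← h1, h]
    split_ifs <;> simp
  have hiso : ∀ z ∈ Γ, ‖z.1‖ = ‖z.2‖ := by
    intro z hz
    obtain ⟨f, hf, hfz⟩ := (Submodule.mem_iSup_iff_exists_finsupp _ _).1 hz
    choose ξ hξ using hf
    have hz1 : z.1 = ∑ i ∈ f.support, w i (ξ i) := by
      rw [← hfz, Finsupp.sum, Prod.fst_sum]
      exact Finset.sum_congr rfl fun i _ => by rw [← hξ i, hL]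
    have hz2 : z.2 = ∑ i ∈ f.support, w (i + 1) (ξ i) := by
      rw [← hfz, Finsupp.sum, Prod.snd_sum]
      exact Finset.sum_congr rfl fun i _ => by rw [← hξ i, hL]
    have h1 : inner ℂ z.1 z.1 = inner ℂ z.2 z.2 := by
      rw [hz1, hz2, sum_inner, sum_inner]
      refine Finset.sum_congr rfl fun i _ => ?_
      rw [inner_sum, inner_sum]
      refine Finset.sum_congr rfl fun j _ => ?_
      rw [hinn, hinn]
      simp
    rw [inner_self_eq_norm_sq_to_K, inner_self_eq_norm_sq_to_K] at h1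
    have h4 : ‖z.1‖ ^ 2 = ‖z.2‖ ^ 2 := by exact_mod_cast h1
    nlinarith [norm_nonneg z.1, norm_nonneg z.2]
  have hinv : ∀ y ∈ M.commutant, ∀ z ∈ Γ, ((y z.1, y z.2) : H × H) ∈ Γ := by
    intro y hy z hz
    let Y : (H × H) →ₗ[ℂ] (H × H) := LinearMap.prodMap (y : H →ₗ[ℂ] H) (y : H →ₗ[ℂ] H)
    have h1 : Γ ≤ Γ.comap Y := by
      refine iSup_le fun i => ?_
      rintro _ ⟨ξ, rfl⟩
      rw [Submodule.mem_comap]
      have e1 := comm_of_mem (hw i) hy
      have e2 := comm_of_mem (hw (i + 1)) hy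
      have h2 : Y (L i ξ) = (w i (y ξ), w (i + 1) (y ξ)) := by
        refine Prod.ext ?_ ?_
        · exact congrArg (fun T : H →L[ℂ] H => T ξ) e1
        · exact congrArg (fun T : H →L[ℂ] H => T ξ) e2
      rw [h2]
      exact hmem i _
    exact h1 hz
  obtain ⟨v, hv, h1, h2, h3, h4, h5, h6⟩ := exists_pisom M Γ hiso hinv
  have hpr : Pr M (star v * v) := ⟨mul_mem (star_mem hv) hv, h3.isIdempotentElem, h3.isSelfAdjoint⟩
  have hQ : ∀ i, (star v * v) * w i = w i := by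
    intro i; ext ξ
    rw [mulA, mulA, h1 _ (hmem i ξ)]
    exact h2 _ (hmem i ξ)
  have hQv : (star v * v) * v = v := by
    have h7 : (1 - star v * v) * v = 0 := by
      apply h6
      intro z hz
      have h8 : Γ ≤ LinearMap.ker (((1 - star v * v : H →L[ℂ] H) : H →ₗ[ℂ] H).comp
          (LinearMap.snd ℂ H H)) := by
        refine iSup_le fun i => ?_
        rintro _ ⟨ξ, rfl⟩
        rw [LinearMap.mem_ker]
        change w (i + 1) ξ - (star v * v) (w (i + 1) ξ) = 0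
        rw [← mulA, hQ, sub_self]
      exact h8 hz
    rw [sub_mul, one_mul, sub_eq_zero] at h7
    exact h7.symm
  have h0v : star (w 0) * v = 0 := by
    apply h6
    intro z hz
    have h8 : Γ ≤ LinearMap.ker (((star (w 0) : H →L[ℂ] H) : H →ₗ[ℂ] H).comp
        (LinearMap.snd ℂ H H)) := by
      refine iSup_le fun i => ?_
      rintro _ ⟨ξ, rfl⟩
      rw [LinearMap.mem_ker]
      change (star (w 0)) (w (i + 1) ξ) = 0
      rw [← mulA, h]; simp
    exact h8 hz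
  have hfull := pi_full hfin hpr hv rfl hQv
  have h9 : star (w 0) * (star v * v) = 0 := by
    rw [← hfull, ← mul_assoc, h0v, zero_mul]
  have h10 : star (w 0) * (star v * v) = star (w 0) := by
    have := congrArg star (hQ 0)
    rwa [star_mul, hpr.2.2] at this
  have h11 : e = 0 := by
    have h12 := h 0 0
    rw [if_pos rfl, ← h10, h9, zero_mul] at h12
    exact h12.symm
  exact he0 h11

/-- q is the sum of n orthogonal copies of e and of r. -/
inductive Dec (M : VonNeumannAlgebra H) (e : H →L[ℂ] H) : ℕ → (H →L[ℂ] H) → (H →L[ℂ] H) → Prop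
  | nil (q : H →L[ℂ] H) : Dec M e 0 q q
  | cons {n : ℕ} {q r : H →L[ℂ] H} (w : H →L[ℂ] H) (hw : w ∈ M) (h1 : star w * w = e)
      (h2 : q * w = w) (h3 : Dec M e n (q - w * star w) r) : Dec M e (n + 1) q r

theorem Dec.snoc {M : VonNeumannAlgebra H} {e : H →L[ℂ] H} {n : ℕ} {q r : H →L[ℂ] H}
    (h : Dec M e n q r) {w : H →L[ℂ] H} (hw : w ∈ M) (h1 : star w * w = e)
    (h2 : r * w = w) : Dec M e (n + 1) q (r - w * star w) := by
  induction h with
  | nil q => exact Dec.cons w hw h1 h2 (Dec.nil _)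
  | cons w' hw' h1' h2' _ ih => exact Dec.cons w' hw' h1' h2' (ih h2)

theorem pr_sub_pi {M : VonNeumannAlgebra H} {e q w : H →L[ℂ] H} (he : e * e = e) (hq : Pr M q)
    (hw : w ∈ M) (h1 : star w * w = e) (h2 : q * w = w) : Pr M (q - w * star w) :=
  pr_sub (pi_pr hw he h1) hq (by rw [← mul_assoc, h2])

theorem Dec.pr {M : VonNeumannAlgebra H} {e : H →L[ℂ] H} (he : e * e = e) {n : ℕ}
    {q r : H →L[ℂ] H} (h : Dec M e n q r) (hq : Pr M q) : Pr M r ∧ q * r = r := by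
  induction h with
  | nil q => exact ⟨hq, hq.2.1⟩
  | @cons n q r w hw h1 h2 _ ih =>
    have h3 := ih (pr_sub_pi he hq hw h1 h2)
    refine ⟨h3.1, ?_⟩
    have h4 : q * (q - w * star w) = q - w * star w := by
      rw [mul_sub, hq.2.1, ← mul_assoc, h2]
    rw [← h3.2, ← mul_assoc, h4]

theorem dec_exists {M : VonNeumannAlgebra H} (hM : Fac M) (hfin : Fin' M) {e q : H →L[ℂ] H}
    (he : Pr M e) (he0 : e ≠ 0) (hq : Pr M q) :
    ∃ n r, Dec M e n q r ∧ ¬ Sub M e r ∧ Sub M r e := by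
  by_contra hcon
  have hS : ∀ n r, Dec M e n q r → Sub M e r := by
    intro n r hd
    by_contra hn
    have hr := (hd.pr he.2.1 hq).1
    rcases compare hM he hr with h | h
    · exact hn h
    · exact hcon ⟨n, r, hd, hn, h⟩
  classical
  let g : (H →L[ℂ] H) → (H →L[ℂ] H) := fun r => if h : Sub M e r then h.choose else 0
  have hg : ∀ r, Sub M e r → g r ∈ M ∧ star (g r) * g r = e ∧ r * g r = g r := by
    intro r hr
    simp only [g, dif_pos hr]
    exact ⟨hr.choose_spec.1, hr.choose_spec.2.1, hr.choose_spec.2.2⟩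
  let R : ℕ → (H →L[ℂ] H) := fun n => Nat.rec q (fun _ r => r - g r * star (g r)) n
  have hR0 : R 0 = q := rfl
  have hRs : ∀ n, R (n + 1) = R n - g (R n) * star (g (R n)) := fun n => rfl
  have hD : ∀ n, Dec M e n q (R n) := by
    intro n
    induction n with
    | zero => exact Dec.nil q
    | succ n ih =>
      obtain ⟨h1, h2, h3⟩ := hg _ (hS n _ ih)
      rw [hRs]
      exact ih.snoc h1 h2 h3
  have hP : ∀ n, Pr M (R n) := fun n => ((hD n).pr he.2.1 hq).1
  have hw : ∀ n, g (R n) ∈ M ∧ star (g (R n)) * g (R n) = e ∧ R n * g (R n) = g (R n) :=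
    fun n => hg _ (hS n _ (hD n))
  have hmono : ∀ m k, R m * R (m + k) = R (m + k) := by
    intro m k
    induction k with
    | zero => exact (hP m).2.1
    | succ k ih =>
      rw [← add_assoc, hRs, mul_sub, ih, ← mul_assoc]
      congr 1
      have : R m * g (R (m + k)) = g (R (m + k)) := by
        conv_lhs => rw [← (hw (m + k)).2.2, ← mul_assoc, ih]
        exact (hw (m + k)).2.2
      rw [this]
  have horth : ∀ m n, m < n → star (g (R m)) * g (R n) = 0 := by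
    intro m n hmn
    obtain ⟨k, rfl⟩ := Nat.exists_eq_add_of_lt hmn
    have h1 : R (m + 1) * g (R (m + k + 1)) = g (R (m + k + 1)) := by
      conv_lhs => rw [← (hw (m + k + 1)).2.2, ← mul_assoc]
      have h2 := hmono (m + 1) k
      rw [show m + 1 + k = m + k + 1 by ring] at h2
      rw [h2]
      exact (hw (m + k + 1)).2.2
    have h3 : star (g (R m)) * R (m + 1) = 0 := by
      rw [hRs, mul_sub]
      have h4 : star (g (R m)) * R m = star (g (R m)) := by
        have := congrArg star (hw m).2.2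
        rwa [star_mul, (hP m).2.2] at this
      have h5 : e * star (g (R m)) = star (g (R m)) := by
        have := congrArg star (pi_mul he.2.1 (hw m).2.1)
        rwa [star_mul, he.2.2] at this
      rw [h4, ← mul_assoc, (hw m).2.1, h5, sub_self]
    rw [← h1, ← mul_assoc, h3, zero_mul]
  refine no_inf hfin he0 (fun n => g (R n)) (fun n => (hw n).1) (fun i j => ?_)
  rcases lt_trichotomy i j with hij | hij | hij
  · rw [if_neg hij.ne]; exact horth i j hij
  · subst hij; rw [if_pos rfl]; exact (hw i).2.1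
  · rw [if_neg hij.ne']
    have := congrArg star (horth j i hij)
    rwa [star_mul, star_star, star_zero] at this

end Pool.Agent.S03959.VNd
end

section
open ContinuousLinearMap
namespace Pool.Agent.S03959.VNe

open Pool.Agent.S03959.VNa Pool.Agent.S03959.VNb Pool.Agent.S03959.VNc
open Pool.Agent.S03959.VNd

variable {H : Type*} [NormedAddCommGroup H] [InnerProductSpace ℂ H] [CompleteSpace H]

theorem rsmul_eq (c : ℝ) (x : H →L[ℂ] H) : c • x = (c : ℂ) • x := by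
  ext ξ; simp

theorem rsmul_mem {M : VonNeumannAlgebra H} (c : ℝ) {x : H →L[ℂ] H} (hx : x ∈ M) : c • x ∈ M := by
  rw [rsmul_eq]; exact smul_mem' _ hx

theorem dyadic (M : VonNeumannAlgebra H) {a : H →L[ℂ] H} (ha : a ∈ M) (h0 : 0 ≤ a) {d : ℝ}
    (h1 : 0 ≤ d • (1 : H →L[ℂ] H) - a) :
    ∃ p, Pr M p ∧ (∀ y, star y = y → Commute a y → Commute p y) ∧ 0 ≤ a - (d / 2) • p ∧
      0 ≤ (d / 2) • (1 : H →L[ℂ] H) - (a - (d / 2) • p) := by
  obtain ⟨c, hc⟩ : ∃ c : H →L[ℂ] H, c = a - (d / 2) • 1 := ⟨_, rfl⟩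
  have hasa : IsSelfAdjoint a := IsSelfAdjoint.of_nonneg h0
  have hcsa : IsSelfAdjoint c := by
    rw [hc]
    refine hasa.sub ?_
    rw [isSelfAdjoint_iff, star_smul, star_one, star_trivial]
  have hcM : c ∈ M := by rw [hc]; exact sub_mem ha (rsmul_mem _ (one_mem M))
  have hcpM : c⁺ ∈ M := by
    refine mem_of_commute hcM fun y h1 _ => ?_
    rw [CFC.posPart_def]
    exact h1.cfcₙ_real _
  have hpn := CFC.posPart_mul_negPart c
  have hnp := CFC.negPart_mul_posPart c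
  have hsub := CFC.posPart_sub_negPart c hcsa
  have hp0 := CFC.posPart_nonneg c
  have hn0 := CFC.negPart_nonneg c
  obtain ⟨p, hp, hp1, hp2⟩ := exists_proj M (LinearMap.range ((c⁺ : H →L[ℂ] H) : H →ₗ[ℂ] H))
    (by
      rintro y hy _ ⟨ξ, rfl⟩
      refine ⟨y ξ, ?_⟩
      exact (congrArg (fun T : H →L[ℂ] H => T ξ) (comm_of_mem hcpM hy)).symm)
  have hpc : p * c⁺ = c⁺ := by
    ext ξ; rw [mulA]; exact hp1 _ ⟨ξ, rfl⟩
  have hcp : c⁺ * p = c⁺ := by
    have := congrArg star hpc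
    rwa [star_mul, hp.2.2, (IsSelfAdjoint.of_nonneg hp0).star_eq] at this
  have hnp' : c⁻ * p = 0 := by
    apply hp2
    rintro _ ⟨ξ, rfl⟩
    change c⁻ (c⁺ ξ) = 0
    rw [← mulA, hnp]; simp
  have hpn' : p * c⁻ = 0 := by
    have := congrArg star hnp'
    rwa [star_mul, hp.2.2, (IsSelfAdjoint.of_nonneg hn0).star_eq, star_zero] at this
  have hcomm : ∀ y, star y = y → Commute a y → Commute p y := by
    intro y hy hay
    have hcy : Commute c y := by
      rw [hc]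
      exact hay.sub_left ((Commute.one_left y).smul_left _)
    have hcpy : Commute c⁺ y := by
      rw [CFC.posPart_def]
      exact hcy.cfcₙ_real _
    have h2 : ((1 - p) * y) * p = 0 := by
      apply hp2
      rintro _ ⟨ξ, rfl⟩
      have h3 : ((1 - p) * y) * c⁺ = 0 := by
        rw [mul_assoc, ← hcpy.eq, ← mul_assoc, sub_mul, one_mul, hpc, sub_self, zero_mul]
      exact congrArg (fun T : H →L[ℂ] H => T ξ) h3
    rw [sub_mul, one_mul, sub_mul, sub_eq_zero] at h2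
    have h4 := congrArg star h2
    rw [star_mul, star_mul, star_mul, hp.2.2, hy, ← mul_assoc] at h4
    change p * y = y * p
    rw [h4, ← h2]
  have e1 : a = c + (d / 2) • 1 := by rw [hc]; abel
  have hq : star (1 - p) = 1 - p := by rw [star_sub, star_one, hp.2.2]
  refine ⟨p, hp, hcomm, ?_, ?_⟩
  · have e2 : a - (d / 2) • p = c⁺ + star (1 - p) * a * (1 - p) := by
      have e5 : a = c⁺ - c⁻ + (d / 2) • 1 := by rw [hsub]; exact e1
      have e6 : (1 - p) * a * (1 - p) = - c⁻ + (d / 2) • (1 - p) := by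
        rw [e5]
        simp only [sub_mul, mul_sub, add_mul, mul_add, one_mul, mul_one, hpc, hcp, hnp', hpn',
          smul_mul_assoc, mul_smul_comm, hp.2.1, zero_mul, smul_zero, smul_sub]
        abel
      rw [hq, e6, smul_sub]
      generalize (d / 2) • (1 : H →L[ℂ] H) = D at *
      generalize (d / 2) • p = P at *
      rw [e5]; abel
    rw [e2]
    exact add_nonneg hp0 (star_left_conjugate_nonneg h0 _)
  · have e3 : (d / 2) • (1 : H →L[ℂ] H) - (a - (d / 2) • p) =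
        star p * (d • (1 : H →L[ℂ] H) - a) * p + c⁻ := by
      have e4 : d • (1 : H →L[ℂ] H) - a = (d / 2) • 1 - c := by
        rw [hc, sub_sub_eq_add_sub, ← add_smul, add_halves]
      have e5 : a = c⁺ - c⁻ + (d / 2) • 1 := by rw [hsub]; exact e1
      have e6 : p * ((d / 2) • (1 : H →L[ℂ] H) - c) * p = (d / 2) • p - c⁺ := by
        conv_lhs => rw [← hsub]
        simp only [sub_mul, mul_sub, mul_one, hpc, hcp, hpn',
          smul_mul_assoc, mul_smul_comm, hp.2.1, zero_mul]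
        abel
      rw [hp.2.2, e4, e6]
      generalize (d / 2) • (1 : H →L[ℂ] H) = D at *
      generalize (d / 2) • p = P at *
      rw [e5]; abel
    rw [e3]
    exact add_nonneg (star_left_conjugate_nonneg h1 _) hn0

theorem proj_le_of_le {q p a : H →L[ℂ] H} (hq : star q = q) (hp1 : p * p = p) (hp : star p = p)
    (hqa : q * a = a) {c : ℝ} (hc : 0 < c) (h : 0 ≤ a - c • p) : q * p = p := by
  have hs : star (1 - q) = 1 - q := by rw [star_sub, star_one, hq]
  have h1 := star_left_conjugate_nonneg h (1 - q)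
  have h2 : star (1 - q) * (a - c • p) * (1 - q) = - (c • (star (p * (1 - q)) * (p * (1 - q)))) := by
    have e1 : (1 - q) * a = 0 := by rw [sub_mul, one_mul, hqa, sub_self]
    have e2 : (1 - q) * (a - c • p) = - (c • ((1 - q) * p)) := by
      rw [mul_sub (1 - q) a, e1, zero_sub, mul_smul_comm]
    rw [star_mul, hs, hp, e2, neg_mul, smul_mul_assoc]
    congr 2
    rw [mul_assoc (1 - q) p (p * (1 - q)), ← mul_assoc p p, hp1, mul_assoc]
  rw [h2] at h1
  have h3 : 0 ≤ c • (star (p * (1 - q)) * (p * (1 - q))) :=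
    smul_nonneg hc.le (star_mul_self_nonneg _)
  have h4 : c • (star (p * (1 - q)) * (p * (1 - q))) = 0 :=
    le_antisymm (neg_nonneg.1 h1) h3
  have h5 : star (p * (1 - q)) * (p * (1 - q)) = 0 := by
    rcases smul_eq_zero.1 h4 with h | h
    · exact absurd h hc.ne'
    · exact h
  have h6 := star_self_zero h5
  rw [mul_sub, mul_one, sub_eq_zero] at h6
  have h7 := congrArg star h6
  rw [star_mul, hp, hq] at h7
  exact h7.symm

/-- dyadic expansion of a positive contraction of M into commuting projections -/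
theorem dyadic_seq (M : VonNeumannAlgebra H) {a : H →L[ℂ] H} (ha : a ∈ M) (h0 : 0 ≤ a)
    (h1 : 0 ≤ (1 : H →L[ℂ] H) - a) :
    ∃ p : ℕ → H →L[ℂ] H, (∀ i, Pr M (p i)) ∧ (∀ i j, Commute (p i) (p j)) ∧
      (∀ q, star q = q → q * a = a → ∀ i, q * p i = p i) ∧
      ∀ n, ‖a - ∑ i ∈ Finset.range n, ((1 : ℝ) / 2 ^ (i + 1)) • p i‖ ≤ 1 / 2 ^ n := by
  classical
  have hstep : ∀ (x : H →L[ℂ] H) (n : ℕ), ∃ p, (x ∈ M ∧ 0 ≤ x ∧
      0 ≤ ((1 : ℝ) / 2 ^ n) • (1 : H →L[ℂ] H) - x) → Pr M p ∧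
      (∀ y, star y = y → Commute x y → Commute p y) ∧ 0 ≤ x - ((1 : ℝ) / 2 ^ (n + 1)) • p ∧
      0 ≤ ((1 : ℝ) / 2 ^ (n + 1)) • (1 : H →L[ℂ] H) - (x - ((1 : ℝ) / 2 ^ (n + 1)) • p) := by
    intro x n
    by_cases h : x ∈ M ∧ 0 ≤ x ∧ 0 ≤ ((1 : ℝ) / 2 ^ n) • (1 : H →L[ℂ] H) - x
    · obtain ⟨p, hp⟩ := dyadic M h.1 h.2.1 h.2.2
      refine ⟨p, fun _ => ?_⟩
      have e : (1 : ℝ) / 2 ^ n / 2 = 1 / 2 ^ (n + 1) := by rw [pow_succ]; field_simp
      rw [e] at hp
      exact hp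
    · exact ⟨0, fun h' => absurd h' h⟩
  choose g hg using hstep
  let A : ℕ → (H →L[ℂ] H) := fun n =>
    Nat.rec a (fun k r => r - ((1 : ℝ) / 2 ^ (k + 1)) • g r k) n
  have hA0 : A 0 = a := rfl
  have hAs : ∀ n, A (n + 1) = A n - ((1 : ℝ) / 2 ^ (n + 1)) • g (A n) n := fun n => rfl
  have hA : ∀ n, A n ∈ M ∧ 0 ≤ A n ∧ 0 ≤ ((1 : ℝ) / 2 ^ n) • (1 : H →L[ℂ] H) - A n := by
    intro n
    induction n with
    | zero => exact ⟨ha, h0, by simpa [hA0] using h1⟩
    | succ n ih =>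
      obtain ⟨k1, k2, k3, k4⟩ := hg (A n) n ih
      rw [hAs]
      exact ⟨sub_mem ih.1 (rsmul_mem _ k1.1), k3, k4⟩
  have hP : ∀ n, Pr M (g (A n) n) := fun n => (hg _ _ (hA n)).1
  have hAsa : ∀ n, star (A n) = A n := fun n => (IsSelfAdjoint.of_nonneg (hA n).2.1).star_eq
  have hcA : ∀ m k, Commute (A (m + 1 + k)) (g (A m) m) := by
    intro m k
    induction k with
    | zero =>
      rw [add_zero, hAs]
      have h2 : Commute (g (A m) m) (A m) :=
        (hg _ _ (hA m)).2.1 _ (hAsa m) (Commute.refl _)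
      exact h2.symm.sub_left ((Commute.refl _).smul_left _)
    | succ k ih =>
      rw [← add_assoc, hAs]
      have h2 : Commute (g (A (m + 1 + k)) (m + 1 + k)) (g (A m) m) :=
        (hg _ _ (hA (m + 1 + k))).2.1 _ (hP m).2.2 ih
      exact ih.sub_left (h2.smul_left _)
  have hcomm : ∀ m n, m < n → Commute (g (A n) n) (g (A m) m) := by
    intro m n hmn
    obtain ⟨k, rfl⟩ := Nat.exists_eq_add_of_lt hmn
    have h2 := hcA m k
    rw [show m + 1 + k = m + k + 1 by ring] at h2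
    exact (hg _ _ (hA (m + k + 1))).2.1 _ (hP m).2.2 h2
  have hsum : ∀ n, a - ∑ i ∈ Finset.range n, ((1 : ℝ) / 2 ^ (i + 1)) • g (A i) i = A n := by
    intro n
    induction n with
    | zero => simp [hA0]
    | succ n ih => rw [Finset.sum_range_succ, ← sub_sub, ih, hAs]
  refine ⟨fun n => g (A n) n, hP, ?_, ?_, ?_⟩
  · intro i j
    rcases lt_trichotomy i j with h | h | h
    · exact (hcomm i j h).symm
    · rw [h]
    · exact hcomm j i h
  · intro q hq hqa i
    have hqA : ∀ n, q * A n = A n := by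
      intro n
      induction n with
      | zero => exact hqa
      | succ n ih =>
        have h2 := proj_le_of_le hq (hP n).2.1 (hP n).2.2 ih (by positivity)
          (hg _ _ (hA n)).2.2.1
        rw [hAs, mul_sub, ih, mul_smul_comm, h2]
    exact proj_le_of_le hq (hP i).2.1 (hP i).2.2 (hqA i) (by positivity) (hg _ _ (hA i)).2.2.1
  · intro n
    rw [hsum]
    rw [CStarAlgebra.norm_le_iff_le_algebraMap (A n) (by positivity) (hA n).2.1,
      Algebra.algebraMap_eq_smul_one]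
    exact sub_nonneg.1 (hA n).2.2

end Pool.Agent.S03959.VNe
end

section
open ContinuousLinearMap
namespace Pool.Agent.S03959.VNf

open Pool.Agent.S03959.VNa Pool.Agent.S03959.VNb Pool.Agent.S03959.VNc
open Pool.Agent.S03959.VNd Pool.Agent.S03959.VNe

variable {H : Type*} [NormedAddCommGroup H] [InnerProductSpace ℂ H] [CompleteSpace H]

/-- span of the projections below q -/
def PS (M : VonNeumannAlgebra H) (q : H →L[ℂ] H) : Submodule ℂ (H →L[ℂ] H) :=
  Submodule.span ℂ {p | Pr M p ∧ q * p = p}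

theorem PS_le {M : VonNeumannAlgebra H} {q s : H →L[ℂ] H} (hs : s ∈ PS M q) : s ∈ M := by
  induction hs using Submodule.span_induction with
  | mem x h => exact h.1.1
  | zero => exact zero_mem _
  | add x y _ _ h1 h2 => exact add_mem h1 h2
  | smul c x _ h => exact smul_mem' _ h

theorem dense_pos {M : VonNeumannAlgebra H} {q a : H →L[ℂ] H} (hq : Pr M q) (ha : a ∈ M)
    (h0 : 0 ≤ a) (h1 : 0 ≤ (1 : H →L[ℂ] H) - a) (hqa : q * a = a) :
    a ∈ closure (PS M q : Set (H →L[ℂ] H)) := by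
  obtain ⟨p, hp, -, hpq, hn⟩ := dyadic_seq M ha h0 h1
  rw [Metric.mem_closure_iff]
  intro ε hε
  obtain ⟨n, hn'⟩ := exists_pow_lt_of_lt_one hε (by norm_num : (1 / 2 : ℝ) < 1)
  refine ⟨∑ i ∈ Finset.range n, ((1 : ℝ) / 2 ^ (i + 1)) • p i, ?_, ?_⟩
  · refine Submodule.sum_mem _ fun i _ => ?_
    rw [rsmul_eq]
    exact Submodule.smul_mem _ _ (Submodule.subset_span ⟨hp i, hpq q hq.2.2 hqa i⟩)
  · rw [dist_eq_norm]
    refine lt_of_le_of_lt (hn n) ?_
    rwa [one_div_pow] at hn'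

theorem dense_proj {M : VonNeumannAlgebra H} {q y : H →L[ℂ] H} (hq : Pr M q) (hy : y ∈ M)
    (h1 : q * y = y) (h2 : y * q = y) : y ∈ closure (PS M q : Set (H →L[ℂ] H)) := by
  have hcl : ∀ x : H →L[ℂ] H, x ∈ (PS M q).topologicalClosure ↔
      x ∈ closure (PS M q : Set (H →L[ℂ] H)) := fun x => by
    rw [← SetLike.mem_coe, Submodule.topologicalClosure_coe]
  have hqm : q ∈ (PS M q).topologicalClosure :=
    (PS M q).le_topologicalClosure (Submodule.subset_span ⟨hq, hq.2.1⟩)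
  have hsa : ∀ h ∈ M, star h = h → q * h = h → h ∈ (PS M q).topologicalClosure := by
    intro h hh hs hqh
    have hhq : h * q = h := by
      have := congrArg star hqh
      rwa [star_mul, hq.2.2, hs] at this
    obtain ⟨c, hc⟩ : ∃ c : ℝ, c = ‖h‖ + 1 := ⟨_, rfl⟩
    have hc0 : 0 < c := by rw [hc]; positivity
    have hle : h ≤ c • (1 : H →L[ℂ] H) := by
      have e1 := IsSelfAdjoint.le_algebraMap_norm_self (a := h) hs
      rw [Algebra.algebraMap_eq_smul_one] at e1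
      refine e1.trans ?_
      rw [← sub_nonneg, ← sub_smul]
      refine smul_nonneg (by rw [hc]; linarith) zero_le_one
    have hge : 0 ≤ h + c • (1 : H →L[ℂ] H) := by
      have e1 := IsSelfAdjoint.neg_algebraMap_norm_le_self (a := h) hs
      rw [Algebra.algebraMap_eq_smul_one] at e1
      have e2 : h + c • (1 : H →L[ℂ] H) = (h - -(‖h‖ • (1 : H →L[ℂ] H))) + (1 : ℝ) • 1 := by
        rw [hc, add_smul]; abel
      rw [e2]
      exact add_nonneg (sub_nonneg.2 e1) (smul_nonneg zero_le_one zero_le_one)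
    have hs1 : star (1 - q) = 1 - q := by rw [star_sub, star_one, hq.2.2]
    obtain ⟨a, ha⟩ : ∃ a : H →L[ℂ] H, a = (1 / (2 * c)) • (h + c • q) := ⟨_, rfl⟩
    have ha0 : 0 ≤ a := by
      rw [ha]
      refine smul_nonneg (by positivity) ?_
      have e1 := star_left_conjugate_nonneg hge q
      rw [hq.2.2, mul_add, hqh, add_mul, hhq, mul_smul_comm, mul_one, smul_mul_assoc, hq.2.1] at e1
      exact e1
    have ha1 : 0 ≤ (1 : H →L[ℂ] H) - a := by
      have e1 : (1 : H →L[ℂ] H) - a = (1 / (2 * c)) • ((c • (1 : H →L[ℂ] H) - h) +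
          c • (star (1 - q) * (1 - q))) := by
        have e2 : star (1 - q) * (1 - q) = 1 - q := by
          rw [hs1, sub_mul, one_mul, mul_sub, mul_one, hq.2.1, sub_self, sub_zero]
        have e3 : (1 : H →L[ℂ] H) = (1 / (2 * c)) • ((2 * c) • (1 : H →L[ℂ] H)) := by
          rw [smul_smul]; field_simp; simp
        rw [e2, ha]
        conv_lhs => rw [e3]
        rw [← smul_sub]
        congr 1
        rw [smul_sub, two_mul, add_smul]; abel
      rw [e1]
      refine smul_nonneg (by positivity) (add_nonneg (sub_nonneg.2 hle) ?_)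
      exact smul_nonneg hc0.le (star_mul_self_nonneg _)
    have haM : a ∈ M := by rw [ha]; exact rsmul_mem _ (add_mem hh (rsmul_mem _ hq.1))
    have hqa : q * a = a := by
      have e1 : q * (h + c • q) = h + c • q := by
        rw [mul_add q, hqh, mul_smul_comm, hq.2.1]
      rw [ha, mul_smul_comm, e1]
    have h3 := (hcl _).2 (dense_pos hq haM ha0 ha1 hqa)
    have h4 : h = ((2 * c : ℝ) : ℂ) • a - ((c : ℝ) : ℂ) • q := by
      rw [ha, rsmul_eq, smul_smul, rsmul_eq c q, ← Complex.ofReal_mul]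
      have : 2 * c * (1 / (2 * c)) = 1 := by field_simp
      rw [this]; simp
    rw [h4]
    exact sub_mem (Submodule.smul_mem _ _ h3) (Submodule.smul_mem _ _ hqm)
  have hsy : q * star y = star y := by
    have := congrArg star h2
    rwa [star_mul, hq.2.2] at this
  have e1 := hsa (y + star y) (add_mem hy (star_mem hy)) (by rw [star_add, star_star, add_comm])
    (by rw [mul_add, h1, hsy])
  have e2 := hsa (Complex.I • (y - star y)) (smul_mem' _ (sub_mem hy (star_mem hy)))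
    (by
      rw [star_smul, star_sub, star_star, ← neg_sub y (star y), smul_neg]
      simp)
    (by rw [mul_smul_comm, mul_sub, h1, hsy])
  rw [← hcl]
  have e3 : y = (1 / 2 : ℂ) • (y + star y) - (Complex.I / 2) • (Complex.I • (y - star y)) := by
    rw [smul_smul]
    have : Complex.I / 2 * Complex.I = -(1 / 2 : ℂ) := by
      rw [div_mul_eq_mul_div, Complex.I_mul_I]; ring
    rw [this, neg_smul, sub_neg_eq_add, ← smul_add]
    have e4 : y + star y + (y - star y) = (2 : ℂ) • y := by rw [two_smul]; abel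
    rw [e4, smul_smul]; norm_num
  rw [e3]
  exact sub_mem (Submodule.smul_mem _ _ e1) (Submodule.smul_mem _ _ e2)

theorem lin_zero {M : VonNeumannAlgebra H} {q : H →L[ℂ] H} (hq : Pr M q)
    (f : (H →L[ℂ] H) → ℂ) (hadd : ∀ x ∈ M, ∀ y ∈ M, f (x + y) = f x + f y)
    (hsmul : ∀ c : ℂ, ∀ x ∈ M, f (c • x) = c * f x) (K : ℝ) (hK : ∀ x ∈ M, ‖f x‖ ≤ K * ‖x‖)
    (h0 : ∀ p, Pr M p → q * p = p → f p = 0) {y : H →L[ℂ] H} (hy : y ∈ M) (h1 : q * y = y)
    (h2 : y * q = y) : f y = 0 := by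
  have hzero : f 0 = 0 := by
    have := hsmul 0 0 (zero_mem M)
    simpa using this
  have hs : ∀ s ∈ PS M q, f s = 0 := by
    intro s hs
    induction hs using Submodule.span_induction with
    | mem x h => exact h0 x h.1 h.2
    | zero => exact hzero
    | add x y hx hy h1 h2 => rw [hadd x (PS_le hx) y (PS_le hy), h1, h2, add_zero]
    | smul c x hx h => rw [hsmul c x (PS_le hx), h, mul_zero]
  have hcl := dense_proj hq hy h1 h2
  rw [Metric.mem_closure_iff] at hcl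
  have hle : ∀ ε > 0, ‖f y‖ ≤ (|K| + 1) * ε := by
    intro ε hε
    obtain ⟨s, hsm, hd⟩ := hcl ε hε
    have e1 : f y = f (y - s) := by
      have e2 := hadd (y - s) (sub_mem hy (PS_le hsm)) s (PS_le hsm)
      rw [sub_add_cancel, hs s hsm, add_zero] at e2
      exact e2
    rw [e1]
    refine (hK _ (sub_mem hy (PS_le hsm))).trans ?_
    rw [dist_eq_norm] at hd
    have h5 : K ≤ |K| + 1 := by linarith [le_abs_self K]
    have h6 : 0 ≤ |K| + 1 := by positivity
    nlinarith [norm_nonneg (y - s)]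
  have hpos : 0 < |K| + 1 := by positivity
  by_contra hne
  have h7 : 0 < ‖f y‖ := norm_pos_iff.2 hne
  have h8 := hle (‖f y‖ / (2 * (|K| + 1))) (by positivity)
  have h9 : (|K| + 1) * (‖f y‖ / (2 * (|K| + 1))) = ‖f y‖ / 2 := by field_simp
  rw [h9] at h8
  linarith

theorem dec_list {M : VonNeumannAlgebra H} {e : H →L[ℂ] H} (he : e * e = e) {n : ℕ}
    {q r : H →L[ℂ] H} (h : Dec M e n q r) :
    ∃ L : List (H →L[ℂ] H), (∀ w ∈ L, w ∈ M ∧ w * e = w) ∧
      q - r = (L.map (fun w => w * star w)).sum := by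
  induction h with
  | nil q => exact ⟨[], by simp, by simp⟩
  | @cons n q r w hw h1 h2 _ ih =>
    obtain ⟨L, hL1, hL2⟩ := ih
    refine ⟨w :: L, ?_, ?_⟩
    · intro w' hw'
      rcases List.mem_cons.1 hw' with rfl | h
      · exact ⟨hw, pi_mul he h1⟩
      · exact hL1 w' h
    · rw [List.map_cons, List.sum_cons, ← hL2]; abel

/-- M is infinite dimensional. -/
def Inf (M : VonNeumannAlgebra H) : Prop :=
  ¬ ∃ s : Finset (H →L[ℂ] H), ∀ x ∈ M, x ∈ Submodule.span ℂ (s : Set (H →L[ℂ] H))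

theorem nonmin {M : VonNeumannAlgebra H} (hM : Fac M) (hfin : Fin' M) (hinf : Inf M)
    {e : H →L[ℂ] H} (he : Pr M e) (he0 : e ≠ 0) : ∃ a, Pr M a ∧ e * a = a ∧ a ≠ 0 ∧ a ≠ e := by
  by_contra hcon
  push Not at hcon
  have hmin : ∀ a, Pr M a → e * a = a → a = 0 ∨ a = e := by
    intro a h1 h2
    by_cases h3 : a = 0
    · exact Or.inl h3
    · exact Or.inr (hcon a h1 h2 h3)
  have hsc : ∀ y ∈ M, e * y = y → y * e = y → ∃ c : ℂ, y = c • e := by
    intro y hy h1 h2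
    have h3 := dense_proj he hy h1 h2
    have h4 : PS M e ≤ Submodule.span ℂ {e} := by
      refine Submodule.span_le.2 ?_
      rintro p ⟨hp1, hp2⟩
      rcases hmin p hp1 hp2 with h | h
      · rw [h]; exact zero_mem _
      · rw [h]; exact Submodule.mem_span_singleton_self e
    have hcl : IsClosed (Submodule.span ℂ {e} : Set (H →L[ℂ] H)) :=
      Submodule.closed_of_finiteDimensional _
    have h5 := closure_minimal h4 hcl h3
    obtain ⟨c, hc⟩ := Submodule.mem_span_singleton.1 h5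
    exact ⟨c, hc.symm⟩
  obtain ⟨n, r, hd, hn1, v, hv, hv1, hv2⟩ := dec_exists hM hfin he he0 (pr_one M)
  have hr := (hd.pr he.2.1 (pr_one M)).1
  have hr0 : r = 0 := by
    rcases hmin (v * star v) (pi_pr hv hr.2.1 hv1) (by rw [← mul_assoc, hv2]) with h | h
    · have : star v = 0 := by
        apply star_self_zero
        rw [star_star]; exact h
      rw [← hv1, this, zero_mul]
    · exfalso
      apply hn1
      refine ⟨star v, star_mem hv, by rw [star_star]; exact h, ?_⟩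
      have := congrArg star (pi_mul hr.2.1 hv1)
      rwa [star_mul, hr.2.2] at this
  obtain ⟨L, hL1, hL2⟩ := dec_list he.2.1 hd
  rw [hr0, sub_zero] at hL2
  classical
  apply hinf
  refine ⟨(L.toFinset ×ˢ L.toFinset).image (fun z => z.1 * star z.2), fun x hx => ?_⟩
  set W := Submodule.span ℂ (((L.toFinset ×ˢ L.toFinset).image
    (fun z : (H →L[ℂ] H) × (H →L[ℂ] H) => z.1 * star z.2) : Finset (H →L[ℂ] H)) :
      Set (H →L[ℂ] H)) with hW
  have key : ∀ w ∈ L, ∀ w' ∈ L, w * star w * x * (w' * star w') ∈ W := by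
    intro w hw w' hw'
    obtain ⟨hwM, hwe⟩ := hL1 w hw
    obtain ⟨hwM', hwe'⟩ := hL1 w' hw'
    have hy : star w * x * w' ∈ M := mul_mem (mul_mem (star_mem hwM) hx) hwM'
    have hews : e * star w = star w := by
      have := congrArg star hwe
      rwa [star_mul, he.2.2] at this
    obtain ⟨c, hc⟩ := hsc _ hy (by rw [← mul_assoc, ← mul_assoc, hews])
      (by rw [mul_assoc, hwe'])
    have e1 : w * star w * x * (w' * star w') = c • (w * star w') := by
      calc w * star w * x * (w' * star w') = w * (star w * x * w') * star w' := by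
            simp only [mul_assoc]
        _ = c • (w * star w') := by
            rw [hc, mul_smul_comm, hwe, smul_mul_assoc]
    rw [e1]
    refine Submodule.smul_mem _ _ (Submodule.subset_span ?_)
    rw [Finset.mem_coe, Finset.mem_image]
    exact ⟨(w, w'), by simp [hw, hw'], rfl⟩
  have e2 : x = (L.map (fun w => w * star w)).sum * x * (L.map (fun w => w * star w)).sum := by
    rw [← hL2, one_mul, mul_one]
  rw [e2, ← List.sum_map_mul_right, ← List.sum_map_mul_right]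
  refine list_sum_mem ?_
  intro z hz
  obtain ⟨w, hw, rfl⟩ := List.mem_map.1 hz
  rw [← List.sum_map_mul_left]
  refine list_sum_mem ?_
  intro z hz
  obtain ⟨w', hw', rfl⟩ := List.mem_map.1 hz
  exact key w hw w' hw'

theorem dec_mono {M : VonNeumannAlgebra H} {e e' : H →L[ℂ] H} (he : Pr M e) (he' : Pr M e')
    (hee : e * e' = e') {n : ℕ} {q r : H →L[ℂ] H} (h : Dec M e n q r) :
    Pr M q → ∀ q', Pr M q' → q' * q = q → ∃ r', Dec M e' n q' r' := by
  induction h with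
  | nil q => intro _ q' _ _; exact ⟨q', Dec.nil q'⟩
  | @cons n q r w hw h1 h2 _ ih =>
    intro hq q' hq' hqq
    have hee' : e' * e = e' := left_of_right he'.2.2 he.2.2 hee
    have k1 : star (w * e') * (w * e') = e' := by
      rw [star_mul, he'.2.2, mul_assoc, ← mul_assoc (star w), h1, hee, he'.2.1]
    have k2 : q' * (w * e') = w * e' := by
      rw [← h2, ← mul_assoc, ← mul_assoc, hqq]
    have k3 : Pr M (q' - w * e' * star (w * e')) :=
      pr_sub_pi he'.2.1 hq' (mul_mem hw he'.1) k1 k2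
    have k4 : star (w * e') * q = star (w * e') := by
      have : q * (w * e') = w * e' := by rw [← mul_assoc, h2]
      have := congrArg star this
      rwa [star_mul, hq.2.2] at this
    have k5 : w * e' * star (w * e') * (w * star w) = w * e' * star (w * e') := by
      rw [star_mul, he'.2.2]
      have : e' * star w * (w * star w) = e' * star w := by
        rw [mul_assoc e' (star w), ← mul_assoc (star w) w, h1, ← mul_assoc, hee']
      rw [mul_assoc (w * e'), this]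
    obtain ⟨r', hr'⟩ := ih (pr_sub_pi he.2.1 hq hw h1 h2) (q' - w * e' * star (w * e')) k3 (by
      have k6 : q' * w = w := by rw [← h2, ← mul_assoc, hqq]
      rw [mul_sub, sub_mul, sub_mul, hqq, k5, mul_assoc (w * e') _ q, k4, ← mul_assoc q' w, k6]
      abel)
    exact ⟨r', Dec.cons _ (mul_mem hw he'.1) k1 k2 hr'⟩

theorem div {M : VonNeumannAlgebra H} (hM : Fac M) (hfin : Fin' M) (hinf : Inf M) (k : ℕ) :
    ∀ q, Pr M q → q ≠ 0 → ∃ e, Pr M e ∧ e ≠ 0 ∧ q * e = e ∧ ∃ r, Dec M e k (q - e) r := by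
  induction k with
  | zero => intro q hq hq0; exact ⟨q, hq, hq0, hq.2.1, _, Dec.nil _⟩
  | succ k ih =>
    intro q hq hq0
    obtain ⟨e, he, he0, hqe, r, hd⟩ := ih q hq hq0
    obtain ⟨a, ha, hea, ha0, hae⟩ := nonmin hM hfin hinf he he0
    have hb : Pr M (e - a) := pr_sub ha he hea
    obtain ⟨v, hv, hv0, hv1, hv2, hv3⟩ := nonzero_sub hM ha hb ha0
      (fun h => hae (sub_eq_zero.1 h).symm)
    set e' := star v * v with he'
    have hee' : e * e' = e' := by rw [← hv2, ← mul_assoc, hea]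
    have hae' : a * e = a := left_of_right ha.2.2 he.2.2 hea
    have hqe' : q * e' = e' := by rw [← hee', ← mul_assoc, hqe]
    have hev : e * v = v := by
      rw [← hv3, ← mul_assoc, mul_sub, he.2.1, hea]
    have hav : a * v = 0 := by
      rw [← hv3, ← mul_assoc, mul_sub, hae', ha.2.1, sub_self, zero_mul]
    have he'v : e' * v = 0 := by
      have h1 : e' * a = e' := left_of_right hv1.2.2 ha.2.2 hv2
      rw [← h1, mul_assoc, hav, mul_zero]
    have hqv : q * v = v := by rw [← hev, ← mul_assoc, hqe]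
    have k1 : Pr M (q - e') := pr_sub hv1 hq hqe'
    have k2 : (q - e') * v = v := by rw [sub_mul, hqv, he'v, sub_zero]
    have k3 : Pr M (q - e' - v * star v) := pr_sub_pi hv1.2.1 k1 hv he'.symm k2
    have hve : star v * e = star v := by
      have := congrArg star hev
      rwa [star_mul, he.2.2] at this
    have hve2 : star v * q = star v := by
      have := congrArg star hqv
      rwa [star_mul, hq.2.2] at this
    have he'e : e' * e = e' := left_of_right hv1.2.2 he.2.2 hee'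
    have he'q : e' * q = e' := left_of_right hv1.2.2 hq.2.2 hqe'
    obtain ⟨r', hr'⟩ := dec_mono he hv1 hee' hd (pr_sub he hq hqe) (q - e' - v * star v) k3 (by
      rw [mul_sub, sub_mul, sub_mul, sub_mul, sub_mul, hq.2.1, he'q, mul_assoc v, hve2, hqe, he'e,
        mul_assoc v, hve]
      abel)
    refine ⟨e', hv1, fun h => hv0 (star_self_zero h), hqe', r', ?_⟩
    exact Dec.cons v hv he'.symm k2 hr'

end Pool.Agent.S03959.VNf
end

section
open ContinuousLinearMap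
namespace Pool.Agent.S03959.VNg

open Pool.Agent.S03959.VNa Pool.Agent.S03959.VNb Pool.Agent.S03959.VNc
open Pool.Agent.S03959.VNd Pool.Agent.S03959.VNe Pool.Agent.S03959.VNf

variable {H : Type*} [NormedAddCommGroup H] [InnerProductSpace ℂ H] [CompleteSpace H]

/-- f is linear on M -/
structure Lin (M : VonNeumannAlgebra H) (f : (H →L[ℂ] H) → ℂ) : Prop where
  add : ∀ x ∈ M, ∀ y ∈ M, f (x + y) = f x + f y
  smul : ∀ c : ℂ, ∀ x ∈ M, f (c • x) = c * f x

theorem Lin.zero {M : VonNeumannAlgebra H} {f : (H →L[ℂ] H) → ℂ} (h : Lin M f) : f 0 = 0 := by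
  have := h.smul 0 0 (zero_mem M)
  simpa using this

theorem Lin.neg {M : VonNeumannAlgebra H} {f : (H →L[ℂ] H) → ℂ} (h : Lin M f)
    {x : H →L[ℂ] H} (hx : x ∈ M) : f (-x) = - f x := by
  have := h.smul (-1) x hx
  simpa using this

theorem Lin.sub {M : VonNeumannAlgebra H} {f : (H →L[ℂ] H) → ℂ} (h : Lin M f)
    {x y : H →L[ℂ] H} (hx : x ∈ M) (hy : y ∈ M) : f (x - y) = f x - f y := by
  rw [sub_eq_add_neg, h.add x hx _ (neg_mem hy), h.neg hy, sub_eq_add_neg]

/-- the functional kills the self-commutators of square-zero elements commuting with p -/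
def Kil (M : VonNeumannAlgebra H) (p : H →L[ℂ] H) (f : (H →L[ℂ] H) → ℂ) : Prop :=
  ∀ v ∈ M, v * v = 0 → p * v = v * p → f (v * star v - star v * v) = 0

theorem pr_norm {M : VonNeumannAlgebra H} {e : H →L[ℂ] H} (he : Pr M e) : ‖e‖ ≤ 1 := by
  have h1 : ‖e‖ * ‖e‖ = ‖e‖ := by
    rw [← CStarRing.norm_star_mul_self, he.2.2, he.2.1]
  nlinarith [norm_nonneg e]

theorem copy_psi {M : VonNeumannAlgebra H} {p e Q w : H →L[ℂ] H} {f : (H →L[ℂ] H) → ℂ}
    (hf : Lin M f) (hp : Pr M p) (hk : Kil M p f) (he : Pr M e) (hQ : Pr M Q) (hpe : p * e = e)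
    (hpQ : p * Q = Q) (hQe : Q * e = 0) (hw : w ∈ M) (h1 : star w * w = e) (h2 : Q * w = w) :
    f (w * star w) = f e := by
  have heQ : e * Q = 0 := by
    have := congrArg star hQe
    rwa [star_mul, hQ.2.2, he.2.2, star_zero] at this
  have hwe : w * e = w := pi_mul he.2.1 h1
  have hww : w * w = 0 := by
    calc w * w = (w * e) * (Q * w) := by rw [hwe, h2]
      _ = w * (e * Q) * w := by simp only [mul_assoc]
      _ = 0 := by rw [heQ, mul_zero, zero_mul]
  have hpw : p * w = w := by rw [← h2, ← mul_assoc, hpQ]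
  have hep : e * p = e := left_of_right he.2.2 hp.2.2 hpe
  have hwp : w * p = w := by rw [← hwe, mul_assoc, hep]
  have h3 := hk w hw hww (by rw [hpw, hwp])
  rw [hf.sub (mul_mem hw (star_mem hw)) (mul_mem (star_mem hw) hw), h1, sub_eq_zero] at h3
  exact h3

theorem dec_psi {M : VonNeumannAlgebra H} {p e : H →L[ℂ] H} {f : (H →L[ℂ] H) → ℂ}
    (hf : Lin M f) (hp : Pr M p) (hk : Kil M p f) (he : Pr M e) (hpe : p * e = e)
    {n : ℕ} {Q r : H →L[ℂ] H} (hd : Dec M e n Q r) :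
    Pr M Q → p * Q = Q → Q * e = 0 → f Q = n * f e + f r := by
  induction hd with
  | nil q => intro _ _ _; simp
  | @cons n Q r w hw h1 h2 _ ih =>
    intro hQ hpQ hQe
    have k1 := pr_sub_pi he.2.1 hQ hw h1 h2
    have k2 : p * (Q - w * star w) = Q - w * star w := by
      rw [mul_sub, hpQ, ← mul_assoc]
      congr 2
      rw [← h2, ← mul_assoc, hpQ]
    have k3 : (Q - w * star w) * e = 0 := by
      have heQ : e * Q = 0 := by
        have := congrArg star hQe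
        rwa [star_mul, hQ.2.2, he.2.2, star_zero] at this
      have h5 : e * w = 0 := by rw [← h2, ← mul_assoc, heQ, zero_mul]
      have h6 : star w * e = 0 := by
        have := congrArg star h5
        rwa [star_mul, he.2.2, star_zero] at this
      rw [sub_mul, hQe, mul_assoc, h6, mul_zero, sub_self]
    have h4 := ih k1 k2 k3
    rw [hf.sub hQ.1 (mul_mem hw (star_mem hw)),
      copy_psi hf hp hk he hQ hpe hpQ hQe hw h1 h2] at h4
    push_cast
    linear_combination h4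

theorem dec_small {M : VonNeumannAlgebra H} {p e x : H →L[ℂ] H} {f : (H →L[ℂ] H) → ℂ}
    (hf : Lin M f) (hp : Pr M p) (hk : Kil M p f) (he : Pr M e) (hx : Pr M x) (hpx : p * x = x)
    (hxe : Sub M x e) {n : ℕ} {Q r : H →L[ℂ] H} (hd : Dec M e n Q r) :
    Pr M Q → p * Q = Q → Q * x = 0 → ∃ s, Pr M s ∧ Q * s = s ∧ f s = n * f x := by
  induction hd with
  | nil q => intro _ _ _; exact ⟨0, pr_zero M, by simp, by simp [hf.zero]⟩
  | @cons n Q r w hw h1 h2 _ ih =>
    intro hQ hpQ hQx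
    obtain ⟨v, hv, hv1, hv2⟩ := hxe
    have k1 := pr_sub_pi he.2.1 hQ hw h1 h2
    have k2 : p * (Q - w * star w) = Q - w * star w := by
      rw [mul_sub, hpQ, ← mul_assoc]
      congr 2
      rw [← h2, ← mul_assoc, hpQ]
    have hxQ : x * Q = 0 := by
      have := congrArg star hQx
      rwa [star_mul, hQ.2.2, hx.2.2, star_zero] at this
    have hxw : x * w = 0 := by rw [← h2, ← mul_assoc, hxQ, zero_mul]
    have hwx : star w * x = 0 := by
      have := congrArg star hxw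
      rwa [star_mul, hx.2.2, star_zero] at this
    have k3 : (Q - w * star w) * x = 0 := by
      rw [sub_mul, hQx, mul_assoc, hwx, mul_zero, sub_self]
    obtain ⟨s, hs, hs1, hs2⟩ := ih k1 k2 k3
    have m1 : star (w * v) * (w * v) = x := by
      rw [star_mul, mul_assoc, ← mul_assoc (star w), h1, hv2, hv1]
    have m2 : Q * (w * v) = w * v := by rw [← mul_assoc, h2]
    have m3 : Pr M (w * v * star (w * v)) := pi_pr (mul_mem hw hv) hx.2.1 m1
    have m4 := copy_psi hf hp hk hx hQ hpx hpQ hQx (mul_mem hw hv) m1 m2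
    have m5 : w * v * star (w * v) * s = 0 := by
      have e1 : star w * (Q - w * star w) = 0 := by
        have e2 : star w * Q = star w := by
          have := congrArg star h2
          rwa [star_mul, hQ.2.2] at this
        have e3 : e * star w = star w := by
          have := congrArg star (pi_mul he.2.1 h1)
          rwa [star_mul, he.2.2] at this
        rw [mul_sub, e2, ← mul_assoc, h1, e3, sub_self]
      rw [← hs1, star_mul]
      rw [mul_assoc (w * v), mul_assoc (star v), ← mul_assoc (star w), e1]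
      simp
    refine ⟨w * v * star (w * v) + s, pr_add m3 hs m5, ?_, ?_⟩
    · rw [mul_add, ← mul_assoc, m2]
      congr 1
      have e4 : Q * (Q - w * star w) = Q - w * star w := by
        rw [mul_sub, hQ.2.1, ← mul_assoc, h2]
      rw [← hs1, ← mul_assoc, e4]
    · rw [hf.add _ m3.1 _ hs.1, m4, hs2]
      push_cast; ring

theorem dec_trans {M : VonNeumannAlgebra H} {e : H →L[ℂ] H} {n m : ℕ} {q r s : H →L[ℂ] H}
    (h : Dec M e n q r) (h' : Dec M e m r s) : Dec M e (n + m) q s := by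
  induction h with
  | nil q => simpa using h'
  | cons w hw h1 h2 _ ih =>
    have := Dec.cons w hw h1 h2 (ih h')
    rwa [show ∀ a b : ℕ, a + b + 1 = a + 1 + b from fun a b => by ring] at this

theorem dec_rest {M : VonNeumannAlgebra H} {e : H →L[ℂ] H} (he : Pr M e) {n : ℕ}
    {q r : H →L[ℂ] H} (h : Dec M e n q r) : Pr M q → Dec M e n (q - r) 0 := by
  induction h with
  | nil q => intro _; rw [sub_self]; exact Dec.nil 0
  | @cons n q r w hw h1 h2 h3 ih =>
    intro hq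
    have k1 := pr_sub_pi he.2.1 hq hw h1 h2
    have k2 := h3.pr he.2.1 k1
    have k3 : r * (q - w * star w) = r := left_of_right k2.1.2.2 k1.2.2 k2.2
    have k4 : (q - w * star w) * w = 0 := by
      rw [sub_mul, h2, mul_assoc, h1, pi_mul he.2.1 h1, sub_self]
    have k5 : r * w = 0 := by rw [← k3, mul_assoc, k4, mul_zero]
    refine Dec.cons w hw h1 (by rw [sub_mul, h2, k5, sub_zero]) ?_
    rw [show q - r - w * star w = q - w * star w - r by abel]
    exact ih k1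

theorem small_bound {M : VonNeumannAlgebra H} {p e x : H →L[ℂ] H} {f : (H →L[ℂ] H) → ℂ}
    (hf : Lin M f) (hp : Pr M p) (hk : Kil M p f) (he : Pr M e) (hx : Pr M x) (hpx : p * x = x)
    (hxe : Sub M x e) {n : ℕ} {Q r : H →L[ℂ] H} (hd : Dec M e n Q r)
    (hQ : Pr M Q) (hpQ : p * Q = Q) (hQx : Q * x = 0) {K : ℝ}
    (hK : ∀ y ∈ M, ‖f y‖ ≤ K * ‖y‖) (hK0 : 0 ≤ K) : n * ‖f x‖ ≤ K := by
  obtain ⟨s, hs, -, hs2⟩ := dec_small hf hp hk he hx hpx hxe hd hQ hpQ hQx
  have h1 := hK s hs.1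
  rw [hs2, norm_mul, Complex.norm_natCast] at h1
  have h2 := pr_norm hs
  nlinarith

/-- uniqueness of bounded traces, on projections -/
theorem unique_proj {M : VonNeumannAlgebra H} (hM : Fac M) (hfin : Fin' M) (hinf : Inf M)
    {p q : H →L[ℂ] H} {f t : (H →L[ℂ] H) → ℂ} (hp : Pr M p) (hq : Pr M q) (hpq : p * q = q)
    (hf : Lin M f) (hkf : Kil M p f) (ht : Lin M t) (hkt : Kil M p t) {K : ℝ} (hK0 : 0 ≤ K)
    (hKf : ∀ y ∈ M, ‖f y‖ ≤ K * ‖y‖) (hKt : ∀ y ∈ M, ‖t y‖ ≤ K * ‖y‖) :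
    f q * t p = f p * t q := by
  set q' := p - q with hq'
  have hPq' : Pr M q' := pr_sub hq hp hpq
  have hpq' : p * q' = q' := by rw [hq', mul_sub, hp.2.1, hpq]
  have hfp : f p = f q + f q' := by rw [hq', hf.sub hp.1 hq.1]; ring
  have htp : t p = t q + t q' := by rw [hq', ht.sub hp.1 hq.1]; ring
  suffices h : f q' * t q - f q * t q' = 0 by
    rw [hfp, htp]; linear_combination -h
  by_cases hq0 : q = 0
  · rw [hq0, hf.zero, ht.zero]; ring
  have hqp : q * p = q := left_of_right hq.2.2 hp.2.2 hpq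
  have hqq' : q * q' = 0 := by rw [hq', mul_sub, hqp, hq.2.1, sub_self]
  have hq'q : q' * q = 0 := by
    have := congrArg star hqq'
    rwa [star_mul, hq.2.2, hPq'.2.2, star_zero] at this
  have key : ∀ n : ℕ, n * ‖f q' * t q - f q * t q'‖ ≤ 6 * K * K := by
    intro n
    obtain ⟨e, he, he0, hqe, r₀, hd₀⟩ := div hM hfin hinf n q hq hq0
    have hPqe : Pr M (q - e) := pr_sub he hq hqe
    have hr₀ := hd₀.pr he.2.1 hPqe
    obtain ⟨n', r, hd₁, -, hre⟩ := dec_exists hM hfin he he0 hr₀.1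
    have hd : Dec M e (n + n') (q - e) r := dec_trans hd₀ hd₁
    obtain ⟨m, r', hd', -, hre'⟩ := dec_exists hM hfin he he0 hPq'
    have hr := hd.pr he.2.1 hPqe
    have hr' := hd'.pr he.2.1 hPq'
    have hpe : p * e = e := by rw [← hqe, ← mul_assoc, hpq]
    have hpqe : p * (q - e) = q - e := by rw [mul_sub, hpq, hpe]
    have hqee : (q - e) * e = 0 := by rw [sub_mul, hqe, he.2.1, sub_self]
    have hq'e : q' * e = 0 := by rw [← hqe, ← mul_assoc, hq'q, zero_mul]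
    have hpr : p * r = r := by rw [← hr.2, ← mul_assoc, hpqe]
    have hpr' : p * r' = r' := by rw [← hr'.2, ← mul_assoc, hpq']
    -- rest
    have hdr := dec_rest he hd hPqe
    have hrqe : r * (q - e) = r := left_of_right hr.1.2.2 hPqe.2.2 hr.2
    have hPr2 : Pr M (q - e - r) := pr_sub hr.1 hPqe hr.2
    have hor : (q - e - r) * r = 0 := by rw [sub_mul, hr.2, hr.1.2.1, sub_self]
    have hor' : (q - e) * r' = 0 := by
      have h1 : q * r' = 0 := by rw [← hr'.2, ← mul_assoc, hqq', zero_mul]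
      have h2 : e * r' = 0 := by
        have h3 : e * q = e := left_of_right he.2.2 hq.2.2 hqe
        rw [← h3, mul_assoc, h1, mul_zero]
      rw [sub_mul, h1, h2, sub_zero]
    have hpq2 : p * (q - e - r) = q - e - r := by rw [mul_sub, hpqe, hpr]
    have b1 := small_bound hf hp hkf he hr.1 hpr hre hdr hPr2 hpq2 hor hKf hK0
    have b2 := small_bound hf hp hkf he hr'.1 hpr' hre' hd hPqe hpqe hor' hKf hK0
    have b3 := small_bound ht hp hkt he hr.1 hpr hre hdr hPr2 hpq2 hor hKt hK0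
    have b4 := small_bound ht hp hkt he hr'.1 hpr' hre' hd hPqe hpqe hor' hKt hK0
    have c1 := dec_psi hf hp hkf he hpe hd hPqe hpqe hqee
    have c2 := dec_psi hf hp hkf he hpe hd' hPq' hpq' hq'e
    have c3 := dec_psi ht hp hkt he hpe hd hPqe hpqe hqee
    have c4 := dec_psi ht hp hkt he hpe hd' hPq' hpq' hq'e
    rw [hf.sub hq.1 he.1] at c1
    rw [ht.sub hq.1 he.1] at c3
    have d0 : f q' * t q - f q * t q' =
        f q' * t r + f r' * t q - f r' * t r - f q * t r' - f r * t q' + f r * t r' := by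
      have e1 : f q = ((n + n' : ℕ) + 1) * f e + f r := by linear_combination c1
      have e3 : t q = ((n + n' : ℕ) + 1) * t e + t r := by linear_combination c3
      rw [c2, c4, e1, e3]; ring
    have hnorm : ∀ g : (H →L[ℂ] H) → ℂ, (∀ y ∈ M, ‖g y‖ ≤ K * ‖y‖) → ∀ y, Pr M y → ‖g y‖ ≤ K := by
      intro g hg y hy
      have := hg y hy.1
      nlinarith [pr_norm hy]
    have n1 := hnorm f hKf q hq
    have n2 := hnorm f hKf q' hPq'
    have n3 := hnorm t hKt q hq
    have n4 := hnorm t hKt q' hPq'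
    have n5 := hnorm t hKt r hr.1
    have n6 := hnorm t hKt r' hr'.1
    have hnn : (n : ℝ) ≤ ((n + n' : ℕ) : ℝ) := by exact_mod_cast Nat.le_add_right n n'
    set N : ℝ := ((n + n' : ℕ) : ℝ) with hN
    have hN0 : 0 ≤ N := by rw [hN]; positivity
    have htri : ‖f q' * t q - f q * t q'‖ ≤ ‖f q'‖ * ‖t r‖ + ‖f r'‖ * ‖t q‖ + ‖f r'‖ * ‖t r‖
        + ‖f q‖ * ‖t r'‖ + ‖f r‖ * ‖t q'‖ + ‖f r‖ * ‖t r'‖ := by
      rw [d0]
      refine (norm_add_le _ _).trans ?_
      refine (add_le_add_left (norm_sub_le _ _) _).trans ?_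
      refine (add_le_add_left (add_le_add_left (norm_sub_le _ _) _) _).trans ?_
      refine (add_le_add_left (add_le_add_left (add_le_add_left (norm_sub_le _ _) _) _) _).trans ?_
      refine (add_le_add_left (add_le_add_left (add_le_add_left (add_le_add_left
        (norm_add_le _ _) _) _) _) _).trans ?_
      simp only [norm_mul]; linarith
    have f1 : N * (‖f q'‖ * ‖t r‖) ≤ K * K := by
      nlinarith [norm_nonneg (f q'), norm_nonneg (t r), mul_nonneg hN0 (norm_nonneg (t r))]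
    have f2 : N * (‖f r'‖ * ‖t q‖) ≤ K * K := by
      nlinarith [norm_nonneg (f r'), norm_nonneg (t q), mul_nonneg hN0 (norm_nonneg (f r'))]
    have f3 : N * (‖f r'‖ * ‖t r‖) ≤ K * K := by
      nlinarith [norm_nonneg (f r'), norm_nonneg (t r), mul_nonneg hN0 (norm_nonneg (f r'))]
    have f4 : N * (‖f q‖ * ‖t r'‖) ≤ K * K := by
      nlinarith [norm_nonneg (f q), norm_nonneg (t r'), mul_nonneg hN0 (norm_nonneg (t r'))]
    have f5 : N * (‖f r‖ * ‖t q'‖) ≤ K * K := by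
      nlinarith [norm_nonneg (f r), norm_nonneg (t q'), mul_nonneg hN0 (norm_nonneg (f r))]
    have f6 : N * (‖f r‖ * ‖t r'‖) ≤ K * K := by
      nlinarith [norm_nonneg (f r), norm_nonneg (t r'), mul_nonneg hN0 (norm_nonneg (f r))]
    have g1 : (n : ℝ) * ‖f q' * t q - f q * t q'‖ ≤ N * ‖f q' * t q - f q * t q'‖ :=
      mul_le_mul_of_nonneg_right hnn (norm_nonneg _)
    have g2 := mul_le_mul_of_nonneg_left htri hN0
    linarith
  by_contra hne
  have hpos : 0 < ‖f q' * t q - f q * t q'‖ := norm_pos_iff.2 hne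
  obtain ⟨n, hn⟩ := exists_nat_gt (6 * K * K / ‖f q' * t q - f q * t q'‖)
  have h1 := key n
  rw [div_lt_iff₀ hpos] at hn
  linarith

end Pool.Agent.S03959.VNg
end

section
open scoped ENNReal NNReal ComplexOrder
namespace Pool.Agent.S03959.SB

variable {H : Type*} [NormedAddCommGroup H] [InnerProductSpace ℂ H] [CompleteSpace H]

structure Tr (M : VonNeumannAlgebra H) (t : (H →L[ℂ] H) → ℂ) : Prop where
  add : ∀ x ∈ M, ∀ y ∈ M, t (x + y) = t x + t y
  smul : ∀ c : ℂ, ∀ x ∈ M, t (c • x) = c * t x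
  pos : ∀ x ∈ M, 0 ≤ (t (star x * x)).re ∧ (t (star x * x)).im = 0
  one : t 1 = 1
  tr : ∀ x ∈ M, ∀ y ∈ M, t (x * y) = t (y * x)

variable {M : VonNeumannAlgebra H} {t : (H →L[ℂ] H) → ℂ}

theorem smul_mem' {x : H →L[ℂ] H} (hx : x ∈ M) (c : ℂ) : c • x ∈ M :=
  M.toStarSubalgebra.smul_mem hx c

theorem mem_of_commute {x : H →L[ℂ] H}
    (hx : ∀ y ∈ M.commutant, Commute x y) : x ∈ M := by
  rw [← M.commutant_commutant, VonNeumannAlgebra.mem_commutant_iff]
  intro g hg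
  exact (hx g hg).eq.symm

theorem commute_of_mem {x y : H →L[ℂ] H} (hx : x ∈ M) (hy : y ∈ M.commutant) : Commute x y := by
  rw [VonNeumannAlgebra.mem_commutant_iff] at hy
  exact hy x hx

theorem sqrt_mem {a : H →L[ℂ] H} (ha : a ∈ M) : CFC.sqrt a ∈ M := by
  apply mem_of_commute
  intro y hy
  rw [CFC.sqrt]
  exact Commute.cfcₙ_nnreal (commute_of_mem ha hy) _

theorem isClosed_M (M : VonNeumannAlgebra H) : IsClosed (M : Set (H →L[ℂ] H)) := by
  rw [← M.centralizer_centralizer]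
  exact Set.isClosed_centralizer _

theorem inv_mem {x y : H →L[ℂ] H} (hx : x ∈ M) (h1 : x * y = 1) (h2 : y * x = 1) : y ∈ M := by
  apply mem_of_commute
  intro z hz
  have h := commute_of_mem hx hz
  show y * z = z * y
  calc y * z = y * z * (x * y) := by rw [h1, mul_one]
    _ = y * (z * x) * y := by simp only [mul_assoc]
    _ = y * (x * z) * y := by rw [h.eq]
    _ = (y * x) * z * y := by simp only [mul_assoc]
    _ = z * y := by rw [h2, one_mul]

theorem Tr.zero (h : Tr M t) : t 0 = 0 := by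
  have := h.smul 0 0 (zero_mem M)
  simpa using this

theorem Tr.neg (h : Tr M t) {x : H →L[ℂ] H} (hx : x ∈ M) : t (-x) = - t x := by
  have := h.smul (-1) x hx
  simpa using this

theorem Tr.sub (h : Tr M t) {x y : H →L[ℂ] H} (hx : x ∈ M) (hy : y ∈ M) :
    t (x - y) = t x - t y := by
  rw [sub_eq_add_neg, h.add x hx _ (neg_mem hy), h.neg hy, sub_eq_add_neg]

theorem Tr.map_star (h : Tr M t) {y : H →L[ℂ] H} (hy : y ∈ M) : t (star y) = star (t y) := by
  have hs : star y ∈ M := star_mem hy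
  have h1 := h.pos (1 + y) (add_mem (one_mem M) hy)
  have h2 := h.pos (1 + Complex.I • y) (add_mem (one_mem M) (smul_mem' hy _))
  have h0 := h.pos y hy
  have e1 : star (1 + y) * (1 + y) = 1 + (y + (star y + star y * y)) := by
    simp only [star_add, star_one, add_mul, mul_add, one_mul, mul_one]
    abel
  have e2 : star (1 + Complex.I • y) * (1 + Complex.I • y)
      = 1 + (Complex.I • y + ((-Complex.I) • star y + star y * y)) := by
    have hI : star Complex.I = -Complex.I := Complex.conj_I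
    have hII : Complex.I * (-Complex.I) = 1 := by simp
    simp only [star_add, star_one, star_smul, add_mul, mul_add, one_mul, mul_one, smul_mul_assoc,
      mul_smul_comm, smul_add, hI]
    rw [smul_smul, hII, one_smul]
    abel
  have m1 : star y * y ∈ M := mul_mem hs hy
  rw [e1, h.add _ (one_mem M) _ (add_mem hy (add_mem hs m1)), h.add _ hy _ (add_mem hs m1),
    h.add _ hs _ m1] at h1
  rw [e2, h.add _ (one_mem M) _ (add_mem (smul_mem' hy _) (add_mem (smul_mem' hs _) m1)),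
    h.add _ (smul_mem' hy _) _ (add_mem (smul_mem' hs _) m1),
    h.add _ (smul_mem' hs _) _ m1, h.smul _ _ hy, h.smul _ _ hs] at h2
  have a1 := h1.2
  have a2 := h2.2
  have a0 := h0.2
  rw [h.one] at a1 a2
  simp at a1 a2
  apply Complex.ext
  · simp; linarith
  · simp; linarith

theorem Tr.cauchy (h : Tr M t) {y : H →L[ℂ] H} (hy : y ∈ M) :
    ‖t y‖ ^ 2 ≤ (t (star y * y)).re := by
  have hs : star y ∈ M := star_mem hy
  set c : ℂ := t y with hc
  have h1 := (h.pos (y - c • 1) (sub_mem hy (smul_mem' (one_mem M) _))).1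
  have e1 : star (y - c • (1 : H →L[ℂ] H)) * (y - c • (1 : H →L[ℂ] H))
      = star y * y - (c • star y + ((star c) • y - (star c * c) • (1 : H →L[ℂ] H))) := by
    simp only [star_sub, star_smul, star_one, sub_mul, mul_sub, smul_mul_assoc, one_mul,
      mul_smul_comm, mul_one, smul_sub]
    rw [smul_smul, mul_comm c (star c)]
    abel
  have m1 : star y * y ∈ M := mul_mem hs hy
  rw [e1, h.sub m1 (add_mem (smul_mem' hs _) (sub_mem (smul_mem' hy _) (smul_mem' (one_mem M) _))),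
    h.add _ (smul_mem' hs _) _ (sub_mem (smul_mem' hy _) (smul_mem' (one_mem M) _)),
    h.sub (smul_mem' hy _) (smul_mem' (one_mem M) _), h.smul _ _ hs, h.smul _ _ hy,
    h.smul _ _ (one_mem M), h.one, h.map_star hy, ← hc] at h1
  have e2 : (t (star y * y) - (c * star c + (star c * c - star c * c * 1))).re
      = (t (star y * y)).re - ‖c‖ ^ 2 := by
    have : c * star c = ((‖c‖ ^ 2 : ℝ) : ℂ) := by
      rw [show (star c) = (starRingEnd ℂ) c from rfl, Complex.mul_conj, Complex.normSq_eq_norm_sq]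
    rw [mul_one, sub_self, add_zero, this, Complex.sub_re, Complex.ofReal_re]
  rw [e2] at h1
  linarith

theorem Tr.mono_pos (h : Tr M t) {a : H →L[ℂ] H} (ha : a ∈ M) (h0 : 0 ≤ a) : 0 ≤ (t a).re := by
  have e : star (CFC.sqrt a) * CFC.sqrt a = a := by
    have hs : IsSelfAdjoint (CFC.sqrt a) := IsSelfAdjoint.of_nonneg (CFC.sqrt_nonneg a)
    rw [hs.star_eq, CFC.sqrt_mul_sqrt_self a h0]
  have := (h.pos (CFC.sqrt a) (sqrt_mem ha)).1
  rwa [e] at this

theorem tau_norm (h : Tr M t) {y : H →L[ℂ] H} (hy : y ∈ M) : ‖t y‖ ≤ ‖y‖ := by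
  have hs : star y ∈ M := star_mem hy
  have m1 : star y * y ∈ M := mul_mem hs hy
  have h1 := h.cauchy hy
  have h2 : (0 : H →L[ℂ] H) ≤ ((‖y‖ ^ 2 : ℝ) : ℂ) • (1 : H →L[ℂ] H) - star y * y := by
    rw [sub_nonneg]
    have := CStarAlgebra.star_mul_le_algebraMap_norm_sq (a := y)
    refine this.trans (le_of_eq ?_)
    rw [Algebra.algebraMap_eq_smul_one]
    rfl
  have h3 := h.mono_pos (sub_mem (smul_mem' (one_mem M) _) m1) h2
  rw [h.sub (smul_mem' (one_mem M) _) m1, h.smul _ _ (one_mem M), h.one, mul_one, Complex.sub_re,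
    Complex.ofReal_re] at h3
  have h4 : ‖t y‖ ^ 2 ≤ ‖y‖ ^ 2 := by linarith
  exact (pow_le_pow_iff_left₀ (norm_nonneg _) (norm_nonneg _) two_ne_zero).1 h4

theorem Tr.nontrivial (h : Tr M t) : Nontrivial H := by
  by_contra hn
  rw [not_nontrivial_iff_subsingleton] at hn
  have h1 : (1 : H →L[ℂ] H) = 0 := by
    ext x
    exact Subsingleton.elim _ _
  have := h.one
  rw [h1, h.zero] at this
  exact zero_ne_one this

/-- geometric bound of the norms of powers above the spectral radius -/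
theorem pow_norm_le {b : H →L[ℂ] H} {r : ℝ≥0} (hr : spectralRadius ℂ b < r) :
    ∃ K : ℝ, 0 ≤ K ∧ ∀ n : ℕ, ‖b ^ n‖ ≤ K * (r : ℝ) ^ n := by
  have h1 := spectrum.pow_nnnorm_pow_one_div_tendsto_nhds_spectralRadius b
  have h2 : ∀ᶠ n : ℕ in Filter.atTop, (‖b ^ n‖₊ : ℝ≥0∞) ^ (1 / n : ℝ) < r :=
    h1.eventually (gt_mem_nhds hr)
  obtain ⟨N, hN⟩ := (h2.and (Filter.eventually_ge_atTop 1)).exists_forall_of_atTop
  have hr0 : 0 < (r : ℝ) := by
    have : (0 : ℝ≥0∞) < r := lt_of_le_of_lt zero_le hr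
    exact_mod_cast this
  have h3 : ∀ n ≥ N, ‖b ^ n‖ ≤ (r : ℝ) ^ n := by
    intro n hn
    obtain ⟨h4, h5⟩ := hN n hn
    have hn0 : (n : ℝ) ≠ 0 := by positivity
    have h6 : ((‖b ^ n‖₊ : ℝ≥0∞) ^ (1 / n : ℝ)) ^ (n : ℝ) ≤ (r : ℝ≥0∞) ^ (n : ℝ) :=
      ENNReal.rpow_le_rpow h4.le (by positivity)
    rw [← ENNReal.rpow_mul, one_div, inv_mul_cancel₀ hn0, ENNReal.rpow_one, ENNReal.rpow_natCast] at h6
    have h7 : ‖b ^ n‖₊ ≤ r ^ n := by exact_mod_cast h6
    exact_mod_cast h7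
  refine ⟨1 + ∑ i ∈ Finset.range N, ‖b ^ i‖ / (r : ℝ) ^ i, by positivity, ?_⟩
  intro n
  by_cases hn : N ≤ n
  · refine (h3 n hn).trans ?_
    have : 0 ≤ ∑ i ∈ Finset.range N, ‖b ^ i‖ / (r : ℝ) ^ i := by positivity
    have h8 : 0 ≤ (r : ℝ) ^ n := by positivity
    nlinarith
  · push Not at hn
    have h9 : ‖b ^ n‖ / (r : ℝ) ^ n ≤ ∑ i ∈ Finset.range N, ‖b ^ i‖ / (r : ℝ) ^ i :=
      Finset.single_le_sum (f := fun i => ‖b ^ i‖ / (r : ℝ) ^ i) (fun i _ => by positivity)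
        (Finset.mem_range.2 hn)
    have h8 : 0 < (r : ℝ) ^ n := by positivity
    rw [div_le_iff₀ h8] at h9
    nlinarith

theorem pow_mem' {b : H →L[ℂ] H} (hb : b ∈ M) (n : ℕ) : b ^ n ∈ M := pow_mem hb n

theorem rota (h : Tr M t) {b : H →L[ℂ] H} (hb : b ∈ M) {ρ : ℝ} (hρ0 : 0 < ρ)
    (hρ : spectralRadius ℂ b < ENNReal.ofReal ρ) (k : ℕ) : ‖t (b ^ k)‖ ≤ ρ ^ k := by
  obtain ⟨r, hr1, hr2⟩ := ENNReal.lt_iff_exists_nnreal_btwn.1 hρ
  have hr3 : (r : ℝ) < ρ := by
    rw [← ENNReal.ofReal_coe_nnreal] at hr2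
    exact (ENNReal.ofReal_lt_ofReal_iff hρ0).1 hr2
  obtain ⟨K, hK0, hK⟩ := pow_norm_le hr1
  set c : ℝ := (ρ ^ 2)⁻¹ with hc
  have hc0 : 0 < c := by positivity
  set f : ℕ → (H →L[ℂ] H) := fun n => ((c ^ n : ℝ) : ℂ) • (star (b ^ n) * b ^ n) with hf
  have hfM : ∀ n, f n ∈ M := fun n =>
    smul_mem' (mul_mem (star_mem (pow_mem' hb n)) (pow_mem' hb n)) _
  have hfn : ∀ n, ‖f n‖ ≤ K ^ 2 * (((r : ℝ) / ρ) ^ 2) ^ n := by
    intro n
    have h1 : ‖star (b ^ n) * b ^ n‖ = ‖b ^ n‖ ^ 2 := by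
      rw [CStarRing.norm_star_mul_self, sq]
    have h2 : ‖f n‖ = c ^ n * ‖b ^ n‖ ^ 2 := by
      simp only [hf]
      rw [norm_smul, h1, Complex.norm_real, Real.norm_of_nonneg (by positivity)]
    rw [h2]
    have h3 := hK n
    calc c ^ n * ‖b ^ n‖ ^ 2 ≤ c ^ n * (K * (r : ℝ) ^ n) ^ 2 := by gcongr
      _ = K ^ 2 * (((r : ℝ) / ρ) ^ 2) ^ n := by
          rw [hc, div_pow, div_pow, mul_pow, inv_pow, ← pow_mul, ← pow_mul, ← pow_mul, mul_comm n 2]
          field_simp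
  have hq : ((r : ℝ) / ρ) ^ 2 < 1 := by
    rw [div_pow, div_lt_one (by positivity)]
    exact pow_lt_pow_left₀ hr3 r.2 two_ne_zero
  have hsum : Summable f := by
    refine Summable.of_norm_bounded (g := fun n => K ^ 2 * (((r : ℝ) / ρ) ^ 2) ^ n) ?_ hfn
    exact (summable_geometric_of_lt_one (by positivity) hq).mul_left _
  set hh : H →L[ℂ] H := ∑' n, f n with hhh
  have hhM : hh ∈ M := by
    refine (isClosed_M M).mem_of_tendsto hsum.hasSum.tendsto_sum_nat (Filter.Eventually.of_forall ?_)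
    intro n
    exact sum_mem (fun i _ => hfM i)
  have hfpos : ∀ n, 0 ≤ f n := by
    intro n
    simp only [hf]
    exact smul_nonneg (by exact_mod_cast (pow_nonneg hc0.le n)) (star_mul_self_nonneg _)
  have hsplit : hh = 1 + ∑' n, f (n + 1) := by
    rw [hhh, hsum.tsum_eq_zero_add]
    simp [hf]
  have hcρ : ρ ^ 2 * c = 1 := by
    rw [hc]
    field_simp
  have e1 : ∀ n, star b * f n * b = ((ρ ^ 2 : ℝ) : ℂ) • f (n + 1) := by
    intro n
    simp only [hf]
    rw [mul_smul_comm, smul_mul_assoc, smul_smul, ← Complex.ofReal_mul]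
    have e2 : c ^ n = ρ ^ 2 * c ^ (n + 1) := by
      calc c ^ n = c ^ n * (ρ ^ 2 * c) := by rw [hcρ, mul_one]
        _ = ρ ^ 2 * c ^ (n + 1) := by ring
    rw [← e2, pow_succ b n, star_mul]
    simp only [mul_assoc]
  have hstep : star b * hh * b = ((ρ ^ 2 : ℝ) : ℂ) • (hh - 1) := by
    rw [hsplit, add_sub_cancel_left, ← hsplit, hhh]
    rw [← hsum.tsum_mul_left, ← (hsum.mul_left _).tsum_mul_right, ← tsum_const_smul'']
    exact tsum_congr e1
  have hge : 1 ≤ hh := by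
    rw [hsplit]
    exact le_add_of_nonneg_right (tsum_nonneg (fun n => hfpos (n + 1)))
  have hh0 : 0 ≤ hh := tsum_nonneg hfpos
  have hu : IsUnit hh := CStarAlgebra.isUnit_of_le 1 hge
  have hus : IsUnit (CFC.sqrt hh) := (CFC.isUnit_sqrt_iff hh hh0).2 hu
  set s : H →L[ℂ] H := CFC.sqrt hh with hs
  have hsM : s ∈ M := sqrt_mem hhM
  have hss : s * s = hh := CFC.sqrt_mul_sqrt_self hh hh0
  have hsa : star s = s := (IsSelfAdjoint.of_nonneg (CFC.sqrt_nonneg hh)).star_eq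
  obtain ⟨v, hv⟩ := hus
  set w : H →L[ℂ] H := ((v⁻¹ : (H →L[ℂ] H)ˣ) : H →L[ℂ] H) with hw
  have h1 : s * w = 1 := by rw [← hv, hw, Units.mul_inv]
  have h2 : w * s = 1 := by rw [← hv, hw, Units.inv_mul]
  have hwM : w ∈ M := inv_mem hsM h1 h2
  have hwa : star w = w := by
    have h3 : star w * s = 1 := by
      calc star w * s = star w * star s := by rw [hsa]
        _ = star (s * w) := (star_mul _ _).symm
        _ = 1 := by rw [h1, star_one]
    calc star w = star w * (s * w) := by rw [h1, mul_one]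
      _ = (star w * s) * w := by rw [mul_assoc]
      _ = w := by rw [h3, one_mul]
  set a : H →L[ℂ] H := s * b * w with ha
  have haM : a ∈ M := mul_mem (mul_mem hsM hb) hwM
  have haa : star a * a = ((ρ ^ 2 : ℝ) : ℂ) • (1 - w * w) := by
    have e3 : star a * a = w * (star b * hh * b) * w := by
      rw [ha, star_mul, star_mul, hwa, hsa, ← hss]
      simp only [mul_assoc]
    have e4 : w * hh * w = 1 := by
      rw [← hss, ← mul_assoc, h2, one_mul, h1]
    rw [e3, hstep, mul_smul_comm, smul_mul_assoc, mul_sub, sub_mul, e4, mul_one]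
  have := h.nontrivial
  have hna : ‖a‖ ≤ ρ := by
    have h5 : star a * a ≤ ((ρ ^ 2 : ℝ) : ℂ) • (1 : H →L[ℂ] H) := by
      rw [haa, smul_sub]
      refine sub_le_self _ (smul_nonneg (by exact_mod_cast (sq_nonneg ρ)) ?_)
      have : 0 ≤ star w * w := star_mul_self_nonneg w
      rwa [hwa] at this
    have h6 := CStarAlgebra.norm_le_norm_of_nonneg_of_le (star_mul_self_nonneg a) h5
    rw [CStarRing.norm_star_mul_self, norm_smul, norm_one, mul_one, Complex.norm_real,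
      Real.norm_of_nonneg (sq_nonneg ρ)] at h6
    nlinarith [norm_nonneg a]
  have hak : ∀ n : ℕ, a ^ n = s * b ^ n * w := by
    intro n
    induction n with
    | zero => simp [h1]
    | succ n ih =>
      rw [pow_succ, ih, ha, pow_succ]
      calc s * b ^ n * w * (s * b * w) = s * b ^ n * (w * s) * b * w := by simp only [mul_assoc]
        _ = s * (b ^ n * b) * w := by rw [h2, mul_one]; simp only [mul_assoc]
  have hbk : t (b ^ k) = t (a ^ k) := by
    rw [hak, h.tr _ (mul_mem hsM (pow_mem' hb k)) _ hwM, ← mul_assoc, h2, one_mul]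
  rw [hbk]
  calc ‖t (a ^ k)‖ ≤ ‖a ^ k‖ := tau_norm h (pow_mem' haM k)
    _ ≤ ‖a‖ ^ k := norm_pow_le a k
    _ ≤ ρ ^ k := pow_le_pow_left₀ (norm_nonneg _) hna k

/-- a bounded polynomial function of degree at most four has zero coefficients -/
theorem poly_bdd {a₀ a₁ a₂ a₃ a₄ a₅ a₆ : ℂ} {K : ℝ}
    (hK : ∀ l : ℂ, ‖a₀ + l * a₁ + l ^ 2 * a₂ + l ^ 3 * a₃ + l ^ 4 * a₄ + l ^ 5 * a₅ + l ^ 6 * a₆‖
      ≤ K) : a₁ = 0 := by
  open Polynomial in
  let P : ℂ[X] := C a₀ + X * C a₁ + X ^ 2 * C a₂ + X ^ 3 * C a₃ + X ^ 4 * C a₄ + X ^ 5 * C a₅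
    + X ^ 6 * C a₆
  have hP : ∀ l : ℂ, P.eval l
      = a₀ + l * a₁ + l ^ 2 * a₂ + l ^ 3 * a₃ + l ^ 4 * a₄ + l ^ 5 * a₅ + l ^ 6 * a₆ := by
    intro l
    simp only [P, Polynomial.eval_add, Polynomial.eval_mul, Polynomial.eval_C, Polynomial.eval_X,
      Polynomial.eval_pow]
  have hb : Bornology.IsBounded (Set.range fun l : ℂ => P.eval l) := by
    rw [isBounded_iff_forall_norm_le]
    refine ⟨K, ?_⟩
    rintro _ ⟨l, rfl⟩
    simp only [hP]
    exact hK l
  have hconst : ∀ l : ℂ, P.eval l = P.eval 0 := fun l =>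
    Differentiable.apply_eq_apply_of_bounded P.differentiable hb l 0
  have hPC : P = Polynomial.C (P.eval 0) := by
    apply Polynomial.funext
    intro l
    rw [hconst l, Polynomial.eval_C]
  have hc1 : P.coeff 1 = 0 := by
    rw [hPC, Polynomial.coeff_C]
    simp
  have hc2 : P.coeff 1 = a₁ := by
    simp only [P, Polynomial.coeff_add, Polynomial.coeff_mul_C, Polynomial.coeff_C,
      Polynomial.coeff_X_pow, Polynomial.coeff_X_one]
    simp
  rw [← hc2, hc1]

variable {T : (H →L[ℂ] H) → (H →L[ℂ] H)} {C : ℝ≥0}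

structure SBdd (M : VonNeumannAlgebra H) (T : (H →L[ℂ] H) → (H →L[ℂ] H)) (C : ℝ≥0) : Prop where
  mem : ∀ x ∈ M, T x ∈ M
  add : ∀ x ∈ M, ∀ y ∈ M, T (x + y) = T x + T y
  smul : ∀ c : ℂ, ∀ x ∈ M, T (c • x) = c • T x
  bd : ∀ x ∈ M, spectralRadius ℂ (T x) ≤ (C : ℝ≥0∞) * spectralRadius ℂ x

theorem SBdd.sub (hT : SBdd M T C) {x y : H →L[ℂ] H} (hx : x ∈ M) (hy : y ∈ M) :
    T (x - y) = T x - T y := by
  have h1 : T (-y) = - T y := by
    have := hT.smul (-1) y hy
    simpa using this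
  rw [sub_eq_add_neg, hT.add x hx _ (neg_mem hy), h1, sub_eq_add_neg]

theorem specRad_lt (hn : Nontrivial H) (hT : SBdd M T C) {x : H →L[ℂ] H} (hx : x ∈ M) {ρ : ℝ}
    (hρ : (C : ℝ) * ‖x‖ < ρ) : spectralRadius ℂ (T x) < ENNReal.ofReal ρ := by
  have h1 : spectralRadius ℂ (T x) ≤ ENNReal.ofReal ((C : ℝ) * ‖x‖) := by
    refine (hT.bd x hx).trans ?_
    rw [ENNReal.ofReal_mul C.coe_nonneg, ENNReal.ofReal_coe_nnreal, ofReal_norm]
    gcongr
    exact spectrum.spectralRadius_le_nnnorm x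
  refine h1.trans_lt ?_
  exact (ENNReal.ofReal_lt_ofReal_iff (lt_of_le_of_lt (by positivity) hρ)).2 hρ

omit [CompleteSpace H] in
theorem specRad_conj {x v w : H →L[ℂ] H} (h1 : v * w = 1) (h2 : w * v = 1) :
    spectralRadius ℂ (v * x * w) = spectralRadius ℂ x := by
  let u : (H →L[ℂ] H)ˣ := ⟨v, w, h1, h2⟩
  have : spectrum ℂ (v * x * w) = spectrum ℂ x := spectrum.units_conjugate (u := u)
  simp only [spectralRadius, this]

/-- the moments of the image of the orbit of x are bounded -/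
theorem moment_bdd (h : Tr M t) (hT : SBdd M T C) {u x : H →L[ℂ] H} (hu : u ∈ M)
    (huu : u * u = 0) (hx : x ∈ M) (k : ℕ) (l : ℂ) :
    ‖t ((T x + l • T (u * x - x * u) - (l ^ 2) • T (u * x * u)) ^ k)‖ ≤ ((C : ℝ) * ‖x‖ + 1) ^ k := by
  have hn := h.nontrivial
  set y : H →L[ℂ] H := (1 + l • u) * x * (1 - l • u) with hy
  have m1 : u * x - x * u ∈ M := sub_mem (mul_mem hu hx) (mul_mem hx hu)
  have m2 : u * x * u ∈ M := mul_mem (mul_mem hu hx) hu
  have hyM : y ∈ M := mul_mem (mul_mem (add_mem (one_mem M) (smul_mem' hu l)) hx)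
    (sub_mem (one_mem M) (smul_mem' hu l))
  have hy2 : y = x + l • (u * x - x * u) - (l ^ 2) • (u * x * u) := by
    rw [hy]
    simp only [add_mul, mul_sub, one_mul, mul_one, smul_mul_assoc, mul_smul_comm]
    module
  have hTy : T y = T x + l • T (u * x - x * u) - (l ^ 2) • T (u * x * u) := by
    rw [hy2, hT.sub (add_mem hx (smul_mem' m1 l)) (smul_mem' m2 _),
      hT.add x hx _ (smul_mem' m1 l), hT.smul l _ m1, hT.smul (l ^ 2) _ m2]
  have h1 : (1 + l • u) * (1 - l • u) = 1 := by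
    simp only [add_mul, mul_sub, one_mul, mul_one, smul_mul_assoc, mul_smul_comm, huu, smul_zero]
    module
  have h2 : (1 - l • u) * (1 + l • u) = 1 := by
    simp only [sub_mul, mul_add, one_mul, mul_one, smul_mul_assoc, mul_smul_comm, huu, smul_zero]
    module
  have h3 : spectralRadius ℂ y = spectralRadius ℂ x := specRad_conj h1 h2
  have h4 : spectralRadius ℂ (T y) < ENNReal.ofReal ((C : ℝ) * ‖x‖ + 1) := by
    have h5 : spectralRadius ℂ (T y) ≤ ENNReal.ofReal ((C : ℝ) * ‖x‖) := by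
      refine (hT.bd y hyM).trans ?_
      rw [h3, ENNReal.ofReal_mul C.coe_nonneg, ENNReal.ofReal_coe_nnreal, ofReal_norm]
      gcongr
      exact spectrum.spectralRadius_le_nnnorm x
    refine h5.trans_lt ?_
    exact (ENNReal.ofReal_lt_ofReal_iff (by positivity)).2 (by linarith)
  rw [← hTy]
  exact rota h (hT.mem y hyM) (by positivity) h4 k

theorem Tr.sum7 (h : Tr M t) {p₀ p₁ p₂ p₃ p₄ p₅ p₆ : H →L[ℂ] H} (m₀ : p₀ ∈ M) (m₁ : p₁ ∈ M)
    (m₂ : p₂ ∈ M) (m₃ : p₃ ∈ M) (m₄ : p₄ ∈ M) (m₅ : p₅ ∈ M) (m₆ : p₆ ∈ M) (l : ℂ) :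
    t (p₀ + l • p₁ + l ^ 2 • p₂ + l ^ 3 • p₃ + l ^ 4 • p₄ + l ^ 5 • p₅ + l ^ 6 • p₆)
      = t p₀ + l * t p₁ + l ^ 2 * t p₂ + l ^ 3 * t p₃ + l ^ 4 * t p₄ + l ^ 5 * t p₅
        + l ^ 6 * t p₆ := by
  have n1 := add_mem m₀ (smul_mem' m₁ l)
  have n2 := add_mem n1 (smul_mem' m₂ (l ^ 2))
  have n3 := add_mem n2 (smul_mem' m₃ (l ^ 3))
  have n4 := add_mem n3 (smul_mem' m₄ (l ^ 4))
  have n5 := add_mem n4 (smul_mem' m₅ (l ^ 5))
  rw [h.add _ n5 _ (smul_mem' m₆ _), h.add _ n4 _ (smul_mem' m₅ _), h.add _ n3 _ (smul_mem' m₄ _),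
    h.add _ n2 _ (smul_mem' m₃ _), h.add _ n1 _ (smul_mem' m₂ _), h.add _ m₀ _ (smul_mem' m₁ _),
    h.smul _ _ m₁, h.smul _ _ m₂, h.smul _ _ m₃, h.smul _ _ m₄, h.smul _ _ m₅, h.smul _ _ m₆]

theorem C1' (h : Tr M t) (hT : SBdd M T C) {u x : H →L[ℂ] H} (hu : u ∈ M)
    (huu : u * u = 0) (hx : x ∈ M) : t (T (u * x - x * u)) = 0 := by
  set X := T x with hX
  set Y := T (u * x - x * u) with hY
  set Z := T (u * x * u) with hZ
  have mX : X ∈ M := hT.mem x hx
  have mY : Y ∈ M := hT.mem _ (sub_mem (mul_mem hu hx) (mul_mem hx hu))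
  have mZ : Z ∈ M := hT.mem _ (mul_mem (mul_mem hu hx) hu)
  have z : (0 : H →L[ℂ] H) ∈ M := zero_mem M
  have key := fun l => moment_bdd h hT hu huu hx 1 l
  rw [← hX, ← hY, ← hZ] at key
  have e : ∀ l : ℂ, (X + l • Y - l ^ 2 • Z) ^ 1
      = X + l • Y + l ^ 2 • (-Z) + l ^ 3 • (0 : H →L[ℂ] H) + l ^ 4 • (0 : H →L[ℂ] H)
        + l ^ 5 • (0 : H →L[ℂ] H) + l ^ 6 • (0 : H →L[ℂ] H) := by
    intro l
    rw [pow_one]
    module
  refine poly_bdd (a₀ := t X) (a₂ := t (-Z)) (a₃ := t 0) (a₄ := t 0) (a₅ := t 0) (a₆ := t 0)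
    (K := ((C : ℝ) * ‖x‖ + 1) ^ 1) ?_
  intro l
  rw [← h.sum7 mX mY (neg_mem mZ) z z z z, ← e]
  exact key l

theorem C2' (h : Tr M t) (hT : SBdd M T C) {u x : H →L[ℂ] H} (hu : u ∈ M)
    (huu : u * u = 0) (hx : x ∈ M) : t (T x * T (u * x - x * u)) = 0 := by
  set X := T x with hX
  set Y := T (u * x - x * u) with hY
  set Z := T (u * x * u) with hZ
  have mX : X ∈ M := hT.mem x hx
  have mY : Y ∈ M := hT.mem _ (sub_mem (mul_mem hu hx) (mul_mem hx hu))
  have mZ : Z ∈ M := hT.mem _ (mul_mem (mul_mem hu hx) hu)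
  have z : (0 : H →L[ℂ] H) ∈ M := zero_mem M
  have key := fun l => moment_bdd h hT hu huu hx 2 l
  rw [← hX, ← hY, ← hZ] at key
  have e : ∀ l : ℂ, (X + l • Y - l ^ 2 • Z) ^ 2
      = X * X + l • (X * Y + Y * X) + l ^ 2 • (Y * Y - X * Z - Z * X) + l ^ 3 • (-(Y * Z) - Z * Y)
        + l ^ 4 • (Z * Z) + l ^ 5 • (0 : H →L[ℂ] H) + l ^ 6 • (0 : H →L[ℂ] H) := by
    intro l
    rw [pow_two]
    simp only [add_mul, mul_add, sub_mul, mul_sub, smul_mul_assoc, mul_smul_comm]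
    module
  have h1 : t (X * Y + Y * X) = 0 := by
    refine poly_bdd (a₀ := t (X * X)) (a₂ := t (Y * Y - X * Z - Z * X))
      (a₃ := t (-(Y * Z) - Z * Y)) (a₄ := t (Z * Z)) (a₅ := t 0) (a₆ := t 0)
      (K := ((C : ℝ) * ‖x‖ + 1) ^ 2) ?_
    intro l
    rw [← h.sum7 (mul_mem mX mX) (add_mem (mul_mem mX mY) (mul_mem mY mX))
      (sub_mem (sub_mem (mul_mem mY mY) (mul_mem mX mZ)) (mul_mem mZ mX))
      (sub_mem (neg_mem (mul_mem mY mZ)) (mul_mem mZ mY)) (mul_mem mZ mZ) z z, ← e]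
    exact key l
  rw [h.add _ (mul_mem mX mY) _ (mul_mem mY mX), h.tr Y mY X mX, ← two_mul] at h1
  exact (mul_eq_zero.1 h1).resolve_left two_ne_zero

theorem C3' (h : Tr M t) (hT : SBdd M T C) {u x : H →L[ℂ] H} (hu : u ∈ M)
    (huu : u * u = 0) (hx : x ∈ M) : t (T x * T x * T (u * x - x * u)) = 0 := by
  set X := T x with hX
  set Y := T (u * x - x * u) with hY
  set Z := T (u * x * u) with hZ
  have mX : X ∈ M := hT.mem x hx
  have mY : Y ∈ M := hT.mem _ (sub_mem (mul_mem hu hx) (mul_mem hx hu))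
  have mZ : Z ∈ M := hT.mem _ (mul_mem (mul_mem hu hx) hu)
  have z : (0 : H →L[ℂ] H) ∈ M := zero_mem M
  have key := fun l => moment_bdd h hT hu huu hx 3 l
  rw [← hX, ← hY, ← hZ] at key
  have e : ∀ l : ℂ, (X + l • Y - l ^ 2 • Z) ^ 3
      = X * X * X + l • (X * X * Y + X * Y * X + Y * X * X)
        + l ^ 2 • (X * Y * Y + Y * X * Y + Y * Y * X - (X * X * Z + X * Z * X + Z * X * X))
        + l ^ 3 • (Y * Y * Y - (X * Y * Z + X * Z * Y + Y * X * Z + Y * Z * X + Z * X * Y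
            + Z * Y * X))
        + l ^ 4 • ((X * Z * Z + Z * X * Z + Z * Z * X) - (Y * Y * Z + Y * Z * Y + Z * Y * Y))
        + l ^ 5 • (Y * Z * Z + Z * Y * Z + Z * Z * Y)
        + l ^ 6 • (-(Z * Z * Z)) := by
    intro l
    rw [pow_succ, pow_two]
    simp only [add_mul, mul_add, sub_mul, mul_sub, smul_mul_assoc, mul_smul_comm, mul_assoc]
    module
  have m3 : ∀ {a b c : H →L[ℂ] H}, a ∈ M → b ∈ M → c ∈ M → a * b * c ∈ M :=
    fun ha hb hc => mul_mem (mul_mem ha hb) hc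
  have h1 : t (X * X * Y + X * Y * X + Y * X * X) = 0 := by
    refine poly_bdd (a₀ := t (X * X * X))
      (a₂ := t (X * Y * Y + Y * X * Y + Y * Y * X - (X * X * Z + X * Z * X + Z * X * X)))
      (a₃ := t (Y * Y * Y - (X * Y * Z + X * Z * Y + Y * X * Z + Y * Z * X + Z * X * Y
            + Z * Y * X)))
      (a₄ := t ((X * Z * Z + Z * X * Z + Z * Z * X) - (Y * Y * Z + Y * Z * Y + Z * Y * Y)))
      (a₅ := t (Y * Z * Z + Z * Y * Z + Z * Z * Y)) (a₆ := t (-(Z * Z * Z)))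
      (K := ((C : ℝ) * ‖x‖ + 1) ^ 3) ?_
    intro l
    rw [← h.sum7 (m3 mX mX mX) (add_mem (add_mem (m3 mX mX mY) (m3 mX mY mX)) (m3 mY mX mX))
      (sub_mem (add_mem (add_mem (m3 mX mY mY) (m3 mY mX mY)) (m3 mY mY mX))
        (add_mem (add_mem (m3 mX mX mZ) (m3 mX mZ mX)) (m3 mZ mX mX)))
      (sub_mem (m3 mY mY mY) (add_mem (add_mem (add_mem (add_mem (add_mem (m3 mX mY mZ)
        (m3 mX mZ mY)) (m3 mY mX mZ)) (m3 mY mZ mX)) (m3 mZ mX mY)) (m3 mZ mY mX)))
      (sub_mem (add_mem (add_mem (m3 mX mZ mZ) (m3 mZ mX mZ)) (m3 mZ mZ mX))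
        (add_mem (add_mem (m3 mY mY mZ) (m3 mY mZ mY)) (m3 mZ mY mY)))
      (add_mem (add_mem (m3 mY mZ mZ) (m3 mZ mY mZ)) (m3 mZ mZ mY))
      (neg_mem (m3 mZ mZ mZ)), ← e]
    exact key l
  have e1 : t (X * Y * X) = t (X * X * Y) := by
    rw [h.tr _ (mul_mem mX mY) _ mX, ← mul_assoc]
  have e2 : t (Y * X * X) = t (X * X * Y) := by
    rw [mul_assoc, h.tr _ mY _ (mul_mem mX mX)]
  rw [h.add _ (add_mem (m3 mX mX mY) (m3 mX mY mX)) _ (m3 mY mX mX),
    h.add _ (m3 mX mX mY) _ (m3 mX mY mX), e1, e2] at h1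
  have h2 : (3 : ℂ) * t (X * X * Y) = 0 := by
    linear_combination h1
  exact (mul_eq_zero.1 h2).resolve_left three_ne_zero

theorem moment_norm (h : Tr M t) (hT : SBdd M T C) {x : H →L[ℂ] H} (hx : x ∈ M) {k : ℕ}
    (hk : k ≠ 0) : ‖t (T x ^ k)‖ ≤ ((C : ℝ) + 1) ^ k * ‖x‖ ^ k := by
  have hn := h.nontrivial
  by_cases h0 : x = 0
  · have hT0 : T x = 0 := by
      have := hT.smul 0 x hx
      rw [h0] at this ⊢
      simpa using this
    rw [hT0, zero_pow hk, h.zero, norm_zero]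
    positivity
  · have hx0 : 0 < ‖x‖ := norm_pos_iff.2 h0
    rw [← mul_pow]
    refine rota h (hT.mem x hx) (by positivity) ?_ k
    exact specRad_lt hn hT hx (by nlinarith)

section Final

variable (h : Tr M t) (hT1 : ∀ x ∈ M, T x ∈ M)
  (hadd : ∀ x ∈ M, ∀ y ∈ M, T (x + y) = T x + T y)
  (hsmul : ∀ c : ℂ, ∀ x ∈ M, T (c • x) = c • T x)
  (hr : ∀ x ∈ M, spectralRadius ℂ (T x) ≤ (C : ENNReal) * spectralRadius ℂ x)

include h hT1 hadd hsmul hr

theorem C1 {u : H →L[ℂ] H} (hu : u ∈ M) (huu : u * u = 0) {x : H →L[ℂ] H} (hx : x ∈ M) :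
    t (T (u * x - x * u)) = 0 :=
  C1' h ⟨hT1, hadd, hsmul, hr⟩ hu huu hx

theorem C2 {u : H →L[ℂ] H} (hu : u ∈ M) (huu : u * u = 0) {x : H →L[ℂ] H} (hx : x ∈ M) :
    t (T x * T (u * x - x * u)) = 0 :=
  C2' h ⟨hT1, hadd, hsmul, hr⟩ hu huu hx

theorem C3 {u : H →L[ℂ] H} (hu : u ∈ M) (huu : u * u = 0) {x : H →L[ℂ] H} (hx : x ∈ M) :
    t (T x * T x * T (u * x - x * u)) = 0 :=
  C3' h ⟨hT1, hadd, hsmul, hr⟩ hu huu hx

theorem C4 : ∃ K : ℝ, ∀ x ∈ M, ‖t (T x)‖ ≤ K * ‖x‖ := by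
  refine ⟨((C : ℝ) + 1) ^ 1, fun x hx => ?_⟩
  have := moment_norm h (⟨hT1, hadd, hsmul, hr⟩ : SBdd M T C) hx one_ne_zero
  simpa using this

theorem C5 : ∃ K : ℝ, ∀ x ∈ M, ‖t (T x * T x)‖ ≤ K * ‖x‖ ^ 2 := by
  refine ⟨((C : ℝ) + 1) ^ 2, fun x hx => ?_⟩
  have := moment_norm h (⟨hT1, hadd, hsmul, hr⟩ : SBdd M T C) hx two_ne_zero
  rwa [pow_two (T x)] at this

theorem C6 : ∃ K : ℝ, ∀ x ∈ M, ‖t (T x * T x * T x)‖ ≤ K * ‖x‖ ^ 3 := by
  refine ⟨((C : ℝ) + 1) ^ 3, fun x hx => ?_⟩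
  have := moment_norm h (⟨hT1, hadd, hsmul, hr⟩ : SBdd M T C) hx three_ne_zero
  rwa [pow_succ (T x), pow_two (T x)] at this

end Final

end Pool.Agent.S03959.SB
end

section
open ContinuousLinearMap
namespace Pool.Agent.S03959.VNh

open Pool.Agent.S03959.VNa Pool.Agent.S03959.VNb Pool.Agent.S03959.VNc
open Pool.Agent.S03959.VNd Pool.Agent.S03959.VNe Pool.Agent.S03959.VNf
open Pool.Agent.S03959.VNg
open Pool.Agent.S03959.SB (Tr tau_norm)

variable {H : Type*} [NormedAddCommGroup H] [InnerProductSpace ℂ H] [CompleteSpace H]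
variable {M : VonNeumannAlgebra H} {t : (H →L[ℂ] H) → ℂ}

theorem lin (h : Tr M t) : Lin M t := ⟨h.add, h.smul⟩

theorem kil (h : Tr M t) (p : H →L[ℂ] H) : Kil M p t := by
  intro v hv _ _
  rw [h.sub (mul_mem hv (star_mem hv)) (mul_mem (star_mem hv) hv), h.tr v hv _ (star_mem hv),
    sub_self]

theorem pr_pos (h : Tr M t) {e : H →L[ℂ] H} (he : Pr M e) : 0 ≤ (t e).re ∧ (t e).im = 0 := by
  have := h.pos e he.1
  rwa [he.2.2, he.2.1] at this

theorem pr_mono (h : Tr M t) {e f : H →L[ℂ] H} (he : Pr M e) (hf : Pr M f) (hfe : f * e = e) :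
    (t e).re ≤ (t f).re := by
  have h1 := (pr_pos h (pr_sub he hf hfe)).1
  rw [h.sub hf.1 he.1, Complex.sub_re] at h1
  linarith

theorem tr_copy (h : Tr M t) {w e : H →L[ℂ] H} (hw : w ∈ M) (h1 : star w * w = e) :
    t (w * star w) = t e := by
  rw [h.tr w hw _ (star_mem hw), h1]

theorem dec_tr (h : Tr M t) {e : H →L[ℂ] H} (he : Pr M e) {n : ℕ} {q r : H →L[ℂ] H}
    (hd : Dec M e n q r) : Pr M q → t q = n * t e + t r := by
  induction hd with
  | nil q => intro _; simp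
  | @cons n q r w hw h1 h2 _ ih =>
    intro hq
    have h3 := ih (pr_sub_pi he.2.1 hq hw h1 h2)
    rw [h.sub hq.1 (mul_mem hw (star_mem hw)), tr_copy h hw h1] at h3
    push_cast
    linear_combination h3

theorem sub_tr (h : Tr M t) {e f : H →L[ℂ] H} (he : Pr M e) (hf : Pr M f) (hs : Sub M e f) :
    (t e).re ≤ (t f).re := by
  obtain ⟨v, hv, h1, h2⟩ := hs
  rw [← tr_copy h hv h1]
  refine pr_mono h (pi_pr hv he.2.1 h1) hf ?_
  rw [← mul_assoc, h2]

theorem faith (hM : Fac M) (hfin : Fin' M) (h : Tr M t) {e : H →L[ℂ] H} (he : Pr M e)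
    (h0 : t e = 0) : e = 0 := by
  by_contra hne
  obtain ⟨n, r, hd, -, hre⟩ := dec_exists hM hfin he hne (pr_one M)
  have h1 := dec_tr h he hd (pr_one M)
  have hr := (hd.pr he.2.1 (pr_one M)).1
  have h2 := sub_tr h hr he hre
  rw [h0] at h1 h2
  rw [h.one] at h1
  have h3 := congrArg Complex.re h1
  simp at h3 h2
  linarith

theorem pos_of_ne (hM : Fac M) (hfin : Fin' M) (h : Tr M t) {e : H →L[ℂ] H} (he : Pr M e)
    (h0 : e ≠ 0) : 0 < (t e).re := by
  have h1 := pr_pos h he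
  rcases h1.1.lt_or_eq with h2 | h2
  · exact h2
  · exact absurd (faith hM hfin h he (Complex.ext h2.symm h1.2)) h0

theorem small (hM : Fac M) (hfin : Fin' M) (hinf : Inf M) (h : Tr M t) {p : H →L[ℂ] H}
    (hp : Pr M p) (hp0 : p ≠ 0) {ε : ℝ} (hε : 0 < ε) :
    ∃ q, Pr M q ∧ p * q = q ∧ q ≠ 0 ∧ (t q).re < ε := by
  obtain ⟨n, hn⟩ := exists_nat_gt (1 / ε)
  obtain ⟨e, he, he0, hpe, r, hd⟩ := div hM hfin hinf n p hp hp0
  refine ⟨e, he, hpe, he0, ?_⟩
  have hPe : Pr M (p - e) := pr_sub he hp hpe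
  have h1 := dec_tr h he hd hPe
  have hr := (hd.pr he.2.1 hPe).1
  have h2 := (pr_pos h hr).1
  have h3 := pr_mono h hp (pr_one M) (by rw [one_mul])
  rw [h.one] at h3
  rw [h.sub hp.1 he.1] at h1
  have h4 := congrArg Complex.re h1
  have h5 := (pr_pos h he).1
  simp only [Complex.sub_re, Complex.add_re, Complex.mul_re, Complex.natCast_re,
    Complex.natCast_im, zero_mul, sub_zero, Complex.one_re] at h4 h3
  have hn0 : 0 < (n : ℝ) := lt_trans (by positivity) hn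
  rw [div_lt_iff₀ hε] at hn
  by_contra hcon
  push Not at hcon
  have h6 : (n : ℝ) * ε ≤ n * (t e).re := mul_le_mul_of_nonneg_left hcon hn0.le
  linarith

theorem star_faith (hM : Fac M) (hfin : Fin' M) (h : Tr M t) {z : H →L[ℂ] H} (hz : z ∈ M)
    (h0 : t (star z * z) = 0) : z = 0 := by
  by_contra hne
  have hz0 : 0 < ‖z‖ := norm_pos_iff.2 hne
  -- normalise
  obtain ⟨c, hc⟩ : ∃ c : ℝ, c = (‖z‖ ^ 2)⁻¹ := ⟨_, rfl⟩
  have hc0 : 0 < c := by rw [hc]; positivity
  obtain ⟨a, ha⟩ : ∃ a : H →L[ℂ] H, a = c • (star z * z) := ⟨_, rfl⟩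
  have haM : a ∈ M := by rw [ha]; exact rsmul_mem _ (mul_mem (star_mem hz) hz)
  have ha0 : 0 ≤ a := by rw [ha]; exact smul_nonneg hc0.le (star_mul_self_nonneg z)
  have ha1 : 0 ≤ (1 : H →L[ℂ] H) - a := by
    rw [sub_nonneg, ha]
    have h1 := CStarAlgebra.star_mul_le_algebraMap_norm_sq (a := z)
    have h2 : c • (star z * z) ≤ c • (algebraMap ℝ (H →L[ℂ] H) (‖z‖ ^ 2)) :=
      smul_le_smul_of_nonneg_left h1 hc0.le
    refine h2.trans (le_of_eq ?_)
    rw [Algebra.algebraMap_eq_smul_one, smul_smul, hc, inv_mul_cancel₀ (by positivity), one_smul]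
  have hta : t a = 0 := by
    rw [ha, rsmul_eq, h.smul _ _ (mul_mem (star_mem hz) hz), h0, mul_zero]
  obtain ⟨p, hp, -, -, hn⟩ := dyadic_seq M haM ha0 ha1
  -- trace of the finite sums
  have hsumM : ∀ n, ∑ i ∈ Finset.range n, ((1 : ℝ) / 2 ^ (i + 1)) • p i ∈ M := fun n =>
    sum_mem fun i _ => rsmul_mem _ (hp i).1
  have hts : ∀ n, (t (∑ i ∈ Finset.range n, ((1 : ℝ) / 2 ^ (i + 1)) • p i)).re =
      ∑ i ∈ Finset.range n, ((1 : ℝ) / 2 ^ (i + 1)) * (t (p i)).re := by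
    intro n
    induction n with
    | zero => simp [h.zero]
    | succ n ih =>
      rw [Finset.sum_range_succ, Finset.sum_range_succ, h.add _ (hsumM n) _ (rsmul_mem _ (hp n).1),
        Complex.add_re, ih, rsmul_eq, h.smul _ _ (hp n).1, Complex.re_ofReal_mul]
  have hle : ∀ n, ∑ i ∈ Finset.range n, ((1 : ℝ) / 2 ^ (i + 1)) * (t (p i)).re ≤ 1 / 2 ^ n := by
    intro n
    have h1 := tau_norm h (sub_mem haM (hsumM n))
    rw [h.sub haM (hsumM n), hta, zero_sub, norm_neg] at h1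
    have h2 := (Complex.abs_re_le_norm _).trans (h1.trans (hn n))
    rw [hts] at h2
    exact (le_abs_self _).trans h2
  have hnn : ∀ i, 0 ≤ ((1 : ℝ) / 2 ^ (i + 1)) * (t (p i)).re := fun i =>
    mul_nonneg (by positivity) (pr_pos h (hp i)).1
  have hp0 : ∀ i, p i = 0 := by
    intro i
    by_contra hi
    have h1 : 0 < ((1 : ℝ) / 2 ^ (i + 1)) * (t (p i)).re :=
      mul_pos (by positivity) (pos_of_ne hM hfin h (hp i) hi)
    obtain ⟨n, hn1⟩ := exists_pow_lt_of_lt_one h1 (by norm_num : (1 / 2 : ℝ) < 1)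
    have h2 : ((1 : ℝ) / 2 ^ (i + 1)) * (t (p i)).re ≤
        ∑ j ∈ Finset.range (n + i + 1), ((1 : ℝ) / 2 ^ (j + 1)) * (t (p j)).re :=
      Finset.single_le_sum (f := fun j => ((1 : ℝ) / 2 ^ (j + 1)) * (t (p j)).re)
        (fun j _ => hnn j) (Finset.mem_range.2 (by omega))
    have h3 := h2.trans (hle (n + i + 1))
    have h4 : (1 : ℝ) / 2 ^ (n + i + 1) ≤ (1 / 2) ^ n := by
      rw [div_pow, one_pow]
      apply div_le_div_of_nonneg_left (by norm_num) (by positivity)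
      exact pow_le_pow_right₀ (by norm_num) (by omega)
    linarith
  have ha2 : a = 0 := by
    have h1 : ∀ n : ℕ, ‖a‖ ≤ 1 / 2 ^ n := by
      intro n
      have h2 := hn n
      rw [Finset.sum_eq_zero (fun i _ => by rw [hp0 i, smul_zero]), sub_zero] at h2
      exact h2
    by_contra h3
    obtain ⟨n, hn1⟩ := exists_pow_lt_of_lt_one (norm_pos_iff.2 h3) (by norm_num : (1 / 2 : ℝ) < 1)
    have h4 := h1 n
    rw [div_pow, one_pow] at hn1
    linarith
  rw [ha] at ha2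
  rcases smul_eq_zero.1 ha2 with h5 | h5
  · exact hc0.ne' h5
  · exact hne (star_self_zero h5)

theorem nondeg (hM : Fac M) (hfin : Fin' M) (h : Tr M t) {z : H →L[ℂ] H} (hz : z ∈ M)
    (h0 : ∀ w ∈ M, t (z * w) = 0) : z = 0 := by
  refine star_faith hM hfin h hz ?_
  rw [h.tr _ (star_mem hz) _ hz]
  exact h0 _ (star_mem hz)

theorem connect (hM : Fac M) (hfin : Fin' M) (hinf : Inf M) (h : Tr M t) {p q : H →L[ℂ] H}
    (hp : Pr M p) (hq : Pr M q) (hp0 : p ≠ 0) (hq0 : q ≠ 0) :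
    ∃ p₁ q₁, Pr M p₁ ∧ Pr M q₁ ∧ p * p₁ = p₁ ∧ q * q₁ = q₁ ∧ p₁ * q₁ = 0 ∧ p₁ ≠ 0 ∧ q₁ ≠ 0 := by
  obtain ⟨q₁, hq₁, hqq, hq₁0, hlt⟩ := small hM hfin hinf h hq hq0 (pos_of_ne hM hfin h hp hp0)
  obtain ⟨v, hv, h1, h2, h3, h4⟩ := exists_polar M (mul_mem hq₁.1 hp.1)
  have h5 : v * (1 - p) = 0 := by
    apply h3
    rw [mul_sub, mul_one, mul_assoc, hp.2.1, sub_self]
  have h6 : (1 - q₁) * v = 0 := by
    apply h4
    rw [← mul_assoc, sub_mul, one_mul, hq₁.2.1, sub_self, zero_mul]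
  have h5' : v * p = v := by
    rw [mul_sub, mul_one, sub_eq_zero] at h5; exact h5.symm
  have h6' : q₁ * v = v := by
    rw [sub_mul, one_mul, sub_eq_zero] at h6; exact h6.symm
  set R := star v * v with hR
  have hpR : p * R = R := by
    have h7 : p * star v = star v := by
      have := congrArg star h5'
      rwa [star_mul, hp.2.2] at this
    rw [hR, ← mul_assoc, h7]
  refine ⟨p - R, q₁, pr_sub h1 hp hpR, hq₁, ?_, hqq, ?_, ?_, hq₁0⟩
  · rw [mul_sub, hp.2.1, hpR]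
  · have h8 : q₁ * (p - R) = 0 := by
      rw [mul_sub]
      have : q₁ * R = q₁ * p := by rw [← hpR, ← mul_assoc, h2]
      rw [this, sub_self]
    have h9 := congrArg star h8
    rwa [star_mul, hq₁.2.2, (pr_sub h1 hp hpR).2.2, star_zero] at h9
  · intro h10
    rw [sub_eq_zero] at h10
    have h11 : Sub M R q₁ := ⟨v, hv, rfl, h6'⟩
    have h12 := sub_tr h h1 hq₁ h11
    rw [← h10] at h12
    linarith

end Pool.Agent.S03959.VNh
end

section
open ContinuousLinearMap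
open scoped ENNReal NNReal
namespace Pool.Agent.S03959.VNi

open Pool.Agent.S03959.VNa Pool.Agent.S03959.VNb Pool.Agent.S03959.VNc
open Pool.Agent.S03959.VNd Pool.Agent.S03959.VNe Pool.Agent.S03959.VNf
open Pool.Agent.S03959.VNg Pool.Agent.S03959.VNh
open Pool.Agent.S03959.SB (Tr tau_norm SBdd C1' C2' C3' moment_norm)

variable {H : Type*} [NormedAddCommGroup H] [InnerProductSpace ℂ H] [CompleteSpace H]
variable {M : VonNeumannAlgebra H} {t : (H →L[ℂ] H) → ℂ}
variable {T : (H →L[ℂ] H) → (H →L[ℂ] H)} {C : ℝ≥0}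

/-- a linear functional with bounded values on the unit ball -/
theorem lin_bound {f : (H →L[ℂ] H) → ℂ} (hf : Lin M f) {K : ℝ}
    (hK : ∀ y ∈ M, ‖y‖ ≤ 1 → ‖f y‖ ≤ K) : ∀ y ∈ M, ‖f y‖ ≤ K * ‖y‖ := by
  intro y hy
  by_cases h0 : y = 0
  · rw [h0, hf.zero]; simp
  have hy0 : 0 < ‖y‖ := norm_pos_iff.2 h0
  have h1 := hK (((‖y‖⁻¹ : ℝ) : ℂ) • y) (smul_mem' _ hy) (by
    rw [norm_smul, Complex.norm_real, Real.norm_of_nonneg (by positivity),
      inv_mul_cancel₀ hy0.ne'])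
  rw [hf.smul _ _ hy, norm_mul, Complex.norm_real, Real.norm_of_nonneg (by positivity),
    inv_mul_le_iff₀ hy0] at h1
  linarith

/-- the situation: W is 1, T p or (T p)^2 -/
structure Good (M : VonNeumannAlgebra H) (t : (H →L[ℂ] H) → ℂ) (T : (H →L[ℂ] H) → (H →L[ℂ] H))
    (p W : H →L[ℂ] H) : Prop where
  mem : W ∈ M
  off1 : ∀ u ∈ M, u * u = 0 → t (W * T (u * p - p * u)) = 0
  off2 : ∀ u ∈ M, u * u = 0 → u * p = p * u → ∀ z ∈ M, t (W * T (u * z - z * u)) = 0
  bd : ∃ K : ℝ, ∀ y ∈ M, ‖y‖ ≤ 1 → ‖t (W * T y)‖ ≤ K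

theorem SBdd.zero (hT : SBdd M T C) : T 0 = 0 := by
  have := hT.smul 0 0 (zero_mem M)
  simpa using this

theorem lin_psi (h : Tr M t) (hT : SBdd M T C) {W : H →L[ℂ] H} (hW : W ∈ M) :
    Lin M (fun y => t (W * T y)) := by
  refine ⟨fun x hx y hy => ?_, fun c x hx => ?_⟩
  · show t (W * T (x + y)) = t (W * T x) + t (W * T y)
    rw [hT.add x hx y hy, mul_add, h.add _ (mul_mem hW (hT.mem x hx)) _
      (mul_mem hW (hT.mem y hy))]
  · show t (W * T (c • x)) = c * t (W * T x)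
    rw [hT.smul c x hx, mul_smul_comm, h.smul _ _ (mul_mem hW (hT.mem x hx))]

theorem good1 (h : Tr M t) (hT : SBdd M T C) (p : H →L[ℂ] H) (hp : Pr M p) : Good M t T p 1 := by
  refine ⟨one_mem M, fun u hu huu => ?_, fun u hu huu _ z hz => ?_, ((C : ℝ) + 1), fun y hy hy1 => ?_⟩
  · rw [one_mul]; exact C1' h hT hu huu hp.1
  · rw [one_mul]; exact C1' h hT hu huu hz
  · rw [one_mul]
    have h1 := moment_norm h hT hy one_ne_zero
    rw [pow_one, pow_one, pow_one] at h1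
    refine h1.trans ?_
    have : (0 : ℝ) ≤ (C : ℝ) + 1 := by positivity
    nlinarith

theorem good2 (h : Tr M t) (hT : SBdd M T C) (p : H →L[ℂ] H) (hp : Pr M p) :
    Good M t T p (T p) := by
  have hWM := hT.mem p hp.1
  refine ⟨hWM, fun u hu huu => C2' h hT hu huu hp.1, fun u hu huu hup z hz => ?_, ?_⟩
  · have h1 := C2' h hT hu huu (add_mem hp.1 hz)
    have h2 := C2' h hT hu huu hz
    have e1 : u * (p + z) - (p + z) * u = u * z - z * u := by
      rw [mul_add, add_mul, hup]; abel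
    have m1 : u * z - z * u ∈ M := sub_mem (mul_mem hu hz) (mul_mem hz hu)
    rw [e1, hT.add p hp.1 z hz, add_mul, h.add _ (mul_mem hWM (hT.mem _ m1)) _
      (mul_mem (hT.mem z hz) (hT.mem _ m1)), h2, add_zero] at h1
    exact h1
  · refine ⟨((C : ℝ) + 1) ^ 2 * 3, fun y hy hy1 => ?_⟩
    have mX := hWM
    have mY := hT.mem y hy
    have b1 := moment_norm h hT (add_mem hp.1 hy) (k := 2) two_ne_zero
    have b2 := moment_norm h hT hp.1 (k := 2) two_ne_zero
    have b3 := moment_norm h hT hy (k := 2) two_ne_zero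
    have e1 : t (T (p + y) ^ 2) = t (T p ^ 2) + 2 * t (T p * T y) + t (T y ^ 2) := by
      rw [hT.add p hp.1 y hy, pow_two, pow_two, pow_two, add_mul, mul_add, mul_add,
        h.add _ (add_mem (mul_mem mX mX) (mul_mem mX mY)) _
          (add_mem (mul_mem mY mX) (mul_mem mY mY)),
        h.add _ (mul_mem mX mX) _ (mul_mem mX mY), h.add _ (mul_mem mY mX) _ (mul_mem mY mY),
        h.tr (T y) mY (T p) mX]
      ring
    have hp1 := pr_norm hp
    have hpy : ‖p + y‖ ≤ 2 := (norm_add_le _ _).trans (by linarith)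
    have c1 : ‖p + y‖ ^ 2 ≤ 4 := by nlinarith [norm_nonneg (p + y)]
    have c2 : ‖p‖ ^ 2 ≤ 1 := by nlinarith [norm_nonneg p]
    have c3 : ‖y‖ ^ 2 ≤ 1 := by nlinarith [norm_nonneg y]
    set D : ℝ := ((C : ℝ) + 1) ^ 2 with hD
    have hD0 : 0 ≤ D := by positivity
    have e2 : 2 * t (T p * T y) = t (T (p + y) ^ 2) - t (T p ^ 2) - t (T y ^ 2) := by
      rw [e1]; ring
    have e3 : 2 * ‖t (T p * T y)‖ ≤ ‖t (T (p + y) ^ 2)‖ + ‖t (T p ^ 2)‖ + ‖t (T y ^ 2)‖ := by
      have : 2 * ‖t (T p * T y)‖ = ‖2 * t (T p * T y)‖ := by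
        rw [norm_mul]; norm_num
      rw [this, e2]
      exact (norm_sub_le _ _).trans (add_le_add_left (norm_sub_le _ _) _)
    nlinarith [mul_le_mul_of_nonneg_left c1 hD0, mul_le_mul_of_nonneg_left c2 hD0,
      mul_le_mul_of_nonneg_left c3 hD0]

theorem cube_tr (h : Tr M t) {X Y : H →L[ℂ] H} (mX : X ∈ M) (mY : Y ∈ M) :
    t ((X + Y) ^ 3) = t (X ^ 3) + 3 * t (X * X * Y) + 3 * t (X * Y * Y) + t (Y ^ 3) := by
  have m3 : ∀ {a b c : H →L[ℂ] H}, a ∈ M → b ∈ M → c ∈ M → a * b * c ∈ M :=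
    fun ha hb hc => mul_mem (mul_mem ha hb) hc
  have e0 : (X + Y) ^ 3 = X ^ 3 + (X * X * Y + (X * Y * X + (X * Y * Y + (Y * X * X +
      (Y * X * Y + (Y * Y * X + Y ^ 3)))))) := by
    noncomm_ring
  have r1 : t (X * Y * X) = t (X * X * Y) := by
    rw [h.tr _ (mul_mem mX mY) _ mX, ← mul_assoc]
  have r2 : t (Y * X * X) = t (X * X * Y) := by
    rw [mul_assoc, h.tr _ mY _ (mul_mem mX mX)]
  have r3 : t (Y * X * Y) = t (X * Y * Y) := by
    rw [mul_assoc, h.tr _ mY _ (mul_mem mX mY)]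
  have r4 : t (Y * Y * X) = t (X * Y * Y) := by
    rw [h.tr _ (mul_mem mY mY) _ mX, ← mul_assoc]
  have c8 := pow_mem mY 3
  have c7 := add_mem (m3 mY mY mX) c8
  have c6 := add_mem (m3 mY mX mY) c7
  have c5 := add_mem (m3 mY mX mX) c6
  have c4 := add_mem (m3 mX mY mY) c5
  have c3 := add_mem (m3 mX mY mX) c4
  have c2 := add_mem (m3 mX mX mY) c3
  rw [e0, h.add _ (pow_mem mX 3) _ c2, h.add _ (m3 mX mX mY) _ c3, h.add _ (m3 mX mY mX) _ c4,
    h.add _ (m3 mX mY mY) _ c5, h.add _ (m3 mY mX mX) _ c6, h.add _ (m3 mY mX mY) _ c7,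
    h.add _ (m3 mY mY mX) _ c8, r1, r2, r3, r4]
  ring

theorem good3 (h : Tr M t) (hT : SBdd M T C) (p : H →L[ℂ] H) (hp : Pr M p) :
    Good M t T p (T p * T p) := by
  have mX := hT.mem p hp.1
  have hWM := mul_mem mX mX
  refine ⟨hWM, fun u hu huu => C3' h hT hu huu hp.1, fun u hu huu hup z hz => ?_, ?_⟩
  · have h1 := C3' h hT hu huu (add_mem hp.1 hz)
    have h2 := C3' h hT hu huu (sub_mem hp.1 hz)
    have h3 := C3' h hT hu huu hz
    have e1 : u * (p + z) - (p + z) * u = u * z - z * u := by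
      rw [mul_add, add_mul, hup]; abel
    have e2 : u * (p - z) - (p - z) * u = -(u * z - z * u) := by
      rw [mul_sub, sub_mul, hup]; abel
    have m1 : u * z - z * u ∈ M := sub_mem (mul_mem hu hz) (mul_mem hz hu)
    have mZ := hT.mem z hz
    have mN := hT.mem _ m1
    have hneg : T (-(u * z - z * u)) = - T (u * z - z * u) := by
      have := hT.smul (-1) _ m1
      simpa using this
    rw [e1, hT.add p hp.1 z hz] at h1
    rw [e2, hT.sub hp.1 hz, hneg] at h2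
    set X := T p
    set Z := T z
    set N := T (u * z - z * u)
    have e3 : (X - Z) * (X - Z) * -N = X * Z * N + Z * X * N - X * X * N - Z * Z * N := by
      noncomm_ring
    have e4 : (X + Z) * (X + Z) * N = X * Z * N + Z * X * N + X * X * N + Z * Z * N := by
      noncomm_ring
    have m3 : ∀ {a b c : H →L[ℂ] H}, a ∈ M → b ∈ M → c ∈ M → a * b * c ∈ M :=
      fun ha hb hc => mul_mem (mul_mem ha hb) hc
    rw [e4, h.add _ (add_mem (add_mem (m3 mX mZ mN) (m3 mZ mX mN)) (m3 mX mX mN)) _ (m3 mZ mZ mN),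
      h.add _ (add_mem (m3 mX mZ mN) (m3 mZ mX mN)) _ (m3 mX mX mN),
      h.add _ (m3 mX mZ mN) _ (m3 mZ mX mN)] at h1
    rw [e3, h.sub (sub_mem (add_mem (m3 mX mZ mN) (m3 mZ mX mN)) (m3 mX mX mN)) (m3 mZ mZ mN),
      h.sub (add_mem (m3 mX mZ mN) (m3 mZ mX mN)) (m3 mX mX mN),
      h.add _ (m3 mX mZ mN) _ (m3 mZ mX mN)] at h2
    linear_combination (1 / 2 : ℂ) * h1 - (1 / 2 : ℂ) * h2 - h3
  · refine ⟨((C : ℝ) + 1) ^ 3 * 3, fun y hy hy1 => ?_⟩
    have mY := hT.mem y hy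
    have b1 := moment_norm h hT (add_mem hp.1 hy) (k := 3) three_ne_zero
    have b2 := moment_norm h hT (add_mem hp.1 (neg_mem hy)) (k := 3) three_ne_zero
    have b3 := moment_norm h hT hy (k := 3) three_ne_zero
    have hneg : T (-y) = - T y := by
      have := hT.smul (-1) _ hy
      simpa using this
    rw [hT.add p hp.1 y hy] at b1
    rw [hT.add p hp.1 _ (neg_mem hy), hneg] at b2
    set X := T p
    set Y := T y
    have e1 := cube_tr h mX mY
    have e2 := cube_tr h mX (neg_mem mY)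
    have r1 : t (X * X * -Y) = - t (X * X * Y) := by
      rw [mul_neg, h.neg (mul_mem (mul_mem mX mX) mY)]
    have r2 : t (X * -Y * -Y) = t (X * Y * Y) := by
      rw [show X * -Y * -Y = X * Y * Y by noncomm_ring]
    have r3 : t ((-Y) ^ 3) = - t (Y ^ 3) := by
      rw [show (-Y) ^ 3 = -(Y ^ 3) from Odd.neg_pow ⟨1, rfl⟩ Y, h.neg (pow_mem mY 3)]
    rw [r1, r2, r3] at e2
    have hp1 := pr_norm hp
    have hpy : ‖p + y‖ ≤ 2 := (norm_add_le _ _).trans (by linarith)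
    have hpy' : ‖p + -y‖ ≤ 2 := (norm_add_le _ _).trans (by rw [norm_neg]; linarith)
    have c1 : ‖p + y‖ ^ 3 ≤ 2 ^ 3 := pow_le_pow_left₀ (norm_nonneg _) hpy 3
    have c2 : ‖p + -y‖ ^ 3 ≤ 2 ^ 3 := pow_le_pow_left₀ (norm_nonneg _) hpy' 3
    have c3 : ‖y‖ ^ 3 ≤ 1 := pow_le_one₀ (norm_nonneg _) hy1
    set D : ℝ := ((C : ℝ) + 1) ^ 3 with hD
    have hD0 : 0 ≤ D := by positivity
    have e3 : 6 * t (X * X * Y) = t ((X + Y) ^ 3) - t ((X + -Y) ^ 3) - 2 * t (Y ^ 3) := by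
      rw [e1, e2]; ring
    have e4 : 6 * ‖t (X * X * Y)‖ ≤ ‖t ((X + Y) ^ 3)‖ + ‖t ((X + -Y) ^ 3)‖ + 2 * ‖t (Y ^ 3)‖ := by
      have : 6 * ‖t (X * X * Y)‖ = ‖6 * t (X * X * Y)‖ := by
        rw [norm_mul]; norm_num
      rw [this, e3]
      refine (norm_sub_le _ _).trans ?_
      have : ‖2 * t (Y ^ 3)‖ = 2 * ‖t (Y ^ 3)‖ := by rw [norm_mul]; norm_num
      rw [this]
      exact add_le_add_left (norm_sub_le _ _) _
    nlinarith [mul_le_mul_of_nonneg_left c1 hD0, mul_le_mul_of_nonneg_left c2 hD0,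
      mul_le_mul_of_nonneg_left c3 hD0]

/-- the corner statement -/
theorem corner (hM : Fac M) (hfin : Fin' M) (hinf : Inf M) (h : Tr M t) {p : H →L[ℂ] H}
    (hp : Pr M p) {f : (H →L[ℂ] H) → ℂ} (hf : Lin M f) (hk : Kil M p f) {K : ℝ}
    (hK : ∀ y ∈ M, ‖f y‖ ≤ K * ‖y‖) {y : H →L[ℂ] H} (hy : y ∈ M) (h1 : p * y = y)
    (h2 : y * p = y) : f y * t p = f p * t y := by
  have ht : Lin M t := lin h
  obtain ⟨K', hK'⟩ : ∃ K' : ℝ, K' = max K 1 := ⟨_, rfl⟩
  have hK0 : 0 ≤ K' := by rw [hK']; exact le_trans zero_le_one (le_max_right _ _)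
  have hKf : ∀ y ∈ M, ‖f y‖ ≤ K' * ‖y‖ := fun y hy =>
    (hK y hy).trans (mul_le_mul_of_nonneg_right (by rw [hK']; exact le_max_left _ _) (norm_nonneg _))
  have hKt : ∀ y ∈ M, ‖t y‖ ≤ K' * ‖y‖ := fun y hy => by
    have h3 := tau_norm h hy
    have h4 : (1 : ℝ) ≤ K' := by rw [hK']; exact le_max_right _ _
    nlinarith [norm_nonneg y]
  have hu : ∀ q, Pr M q → p * q = q → f q * t p = f p * t q := fun q hq hpq =>
    unique_proj hM hfin hinf hp hq hpq hf hk ht (kil h p) hK0 hKf hKt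
  have h5 := lin_zero hp (fun y => f y * t p - f p * t y)
    (fun x hx y hy => by
      show f (x + y) * t p - f p * t (x + y) = f x * t p - f p * t x + (f y * t p - f p * t y)
      rw [hf.add x hx y hy, ht.add x hx y hy]; ring)
    (fun c x hx => by
      show f (c • x) * t p - f p * t (c • x) = c * (f x * t p - f p * t x)
      rw [hf.smul c x hx, ht.smul c x hx]; ring)
    (K' * ‖t p‖ + ‖f p‖ * K') (fun x hx => by
      show ‖f x * t p - f p * t x‖ ≤ _
      refine (norm_sub_le _ _).trans ?_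
      rw [norm_mul, norm_mul]
      have a1 := hKf x hx
      have a2 := hKt x hx
      nlinarith [mul_le_mul_of_nonneg_right a1 (norm_nonneg (t p)),
        mul_le_mul_of_nonneg_left a2 (norm_nonneg (f p))])
    (fun q hq hpq => by
      show f q * t p - f p * t q = 0
      rw [hu q hq hpq, sub_self]) hy h1 h2
  exact sub_eq_zero.1 h5

/-- representation of the functionals -/
theorem repr (hM : Fac M) (hfin : Fin' M) (hinf : Inf M) (h : Tr M t) (hT : SBdd M T C)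
    {p W : H →L[ℂ] H} (hp : Pr M p) (hg : Good M t T p W) :
    ∃ A B : ℂ, ∀ y ∈ M, t (W * T y) = A * t (p * y) + B * t y := by
  obtain ⟨K, hK⟩ := hg.bd
  obtain ⟨f, hfd⟩ : ∃ f : (H →L[ℂ] H) → ℂ, f = fun y => t (W * T y) := ⟨_, rfl⟩
  have hf : Lin M f := by rw [hfd]; exact lin_psi h hT hg.mem
  have hKf : ∀ y ∈ M, ‖f y‖ ≤ K * ‖y‖ := lin_bound hf (by rw [hfd]; exact hK)
  have hk : Kil M p f := by
    intro v hv hvv hpv
    rw [hfd]
    exact hg.off2 v hv hvv hpv.symm _ (star_mem hv)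
  have hp' : Pr M (1 - p) := pr_sub hp (pr_one M) (one_mul p)
  have hk' : Kil M (1 - p) f := by
    intro v hv hvv hpv
    refine hk v hv hvv ?_
    rw [sub_mul, mul_sub, one_mul, mul_one] at hpv
    exact sub_right_injective hpv
  have off1 : ∀ y ∈ M, f (p * y * (1 - p)) = 0 := by
    intro y hy
    have hu : p * y * (1 - p) ∈ M := mul_mem (mul_mem hp.1 hy) hp'.1
    have huu : p * y * (1 - p) * (p * y * (1 - p)) = 0 := by
      have : (1 - p) * p = 0 := by rw [sub_mul, one_mul, hp.2.1, sub_self]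
      calc p * y * (1 - p) * (p * y * (1 - p)) = p * y * ((1 - p) * p) * y * (1 - p) := by
            simp only [mul_assoc]
        _ = 0 := by rw [this]; simp
    have h1 := hg.off1 _ hu huu
    have h2 : p * y * (1 - p) * p - p * (p * y * (1 - p)) = -(p * y * (1 - p)) := by
      have e1 : (1 - p) * p = 0 := by rw [sub_mul, one_mul, hp.2.1, sub_self]
      rw [mul_assoc (p * y) (1 - p) p, e1, mul_zero, zero_sub, ← mul_assoc, ← mul_assoc, hp.2.1]
    rw [h2] at h1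
    have h3 : f (-(p * y * (1 - p))) = 0 := by rw [hfd]; exact h1
    rw [hf.neg hu, neg_eq_zero] at h3
    exact h3
  have off2 : ∀ y ∈ M, f ((1 - p) * y * p) = 0 := by
    intro y hy
    have hu : (1 - p) * y * p ∈ M := mul_mem (mul_mem hp'.1 hy) hp.1
    have e1 : p * (1 - p) = 0 := by rw [mul_sub, mul_one, hp.2.1, sub_self]
    have huu : (1 - p) * y * p * ((1 - p) * y * p) = 0 := by
      calc (1 - p) * y * p * ((1 - p) * y * p) = (1 - p) * y * (p * (1 - p)) * y * p := by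
            simp only [mul_assoc]
        _ = 0 := by rw [e1]; simp
    have h1 := hg.off1 _ hu huu
    have h2 : (1 - p) * y * p * p - p * ((1 - p) * y * p) = (1 - p) * y * p := by
      rw [mul_assoc _ p p, hp.2.1, ← mul_assoc, ← mul_assoc, e1, zero_mul, zero_mul, sub_zero]
    rw [h2] at h1
    rw [hfd]; exact h1
  -- decomposition
  have hdec : ∀ y ∈ M, f y = f (p * y * p) + f ((1 - p) * y * (1 - p)) := by
    intro y hy
    have e : y = p * y * p + ((1 - p) * y * (1 - p) + (p * y * (1 - p) + (1 - p) * y * p)) := by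
      noncomm_ring
    have m1 := mul_mem (mul_mem hp.1 hy) hp.1
    have m2 := mul_mem (mul_mem hp'.1 hy) hp'.1
    have m3 := mul_mem (mul_mem hp.1 hy) hp'.1
    have m4 := mul_mem (mul_mem hp'.1 hy) hp.1
    conv_lhs => rw [e]
    rw [hf.add _ m1 _ (add_mem m2 (add_mem m3 m4)), hf.add _ m2 _ (add_mem m3 m4),
      hf.add _ m3 _ m4, off1 y hy, off2 y hy]
    ring
  have hc1 : ∀ y ∈ M, f (p * y * p) * t p = f p * t (p * y) := by
    intro y hy
    have h1 := corner hM hfin hinf h hp hf hk hKf (mul_mem (mul_mem hp.1 hy) hp.1)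
      (by rw [← mul_assoc, ← mul_assoc, hp.2.1]) (by rw [mul_assoc, hp.2.1])
    rw [h1, h.tr _ (mul_mem hp.1 hy) _ hp.1, ← mul_assoc, hp.2.1]
  have hc2 : ∀ y ∈ M, f ((1 - p) * y * (1 - p)) * t (1 - p) = f (1 - p) * (t y - t (p * y)) := by
    intro y hy
    have h1 := corner hM hfin hinf h hp' hf hk' hKf (mul_mem (mul_mem hp'.1 hy) hp'.1)
      (by rw [← mul_assoc, ← mul_assoc, hp'.2.1]) (by rw [mul_assoc, hp'.2.1])
    rw [h1, h.tr _ (mul_mem hp'.1 hy) _ hp'.1, ← mul_assoc, hp'.2.1, sub_mul, one_mul,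
      h.sub hy (mul_mem hp.1 hy)]
  by_cases hp0 : p = 0
  · refine ⟨0, f 1, fun y hy => ?_⟩
    have h1 := hc2 y hy
    have h2 := hdec y hy
    rw [hp0] at h1 h2
    simp only [sub_zero, one_mul, mul_one, zero_mul, h.zero, hf.zero, zero_add, h.one] at h1 h2
    have : f y = t (W * T y) := by rw [hfd]
    rw [← this, h1]; ring
  by_cases hp1 : p = 1
  · refine ⟨0, f 1, fun y hy => ?_⟩
    have h1 := hc1 y hy
    rw [hp1] at h1
    simp only [one_mul, mul_one, h.one] at h1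
    have : f y = t (W * T y) := by rw [hfd]
    rw [← this, h1]; ring
  have ht0 : t p ≠ 0 := fun h0 => hp0 (faith hM hfin h hp h0)
  have ht1 : t (1 - p) ≠ 0 := fun h0 => hp1 (sub_eq_zero.1 (faith hM hfin h hp' h0)).symm
  refine ⟨f p / t p - f (1 - p) / t (1 - p), f (1 - p) / t (1 - p), fun y hy => ?_⟩
  have h1 : f (p * y * p) = f p / t p * t (p * y) := by
    rw [div_mul_eq_mul_div, eq_div_iff ht0]; exact hc1 y hy
  have h2 : f ((1 - p) * y * (1 - p)) = f (1 - p) / t (1 - p) * (t y - t (p * y)) := by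
    rw [div_mul_eq_mul_div, eq_div_iff ht1]; exact hc2 y hy
  have : f y = t (W * T y) := by rw [hfd]
  rw [← this, hdec y hy, h1, h2]
  ring

end Pool.Agent.S03959.VNi
end

section
open ContinuousLinearMap
open scoped ENNReal NNReal
namespace Pool.Agent.S03959.VNj

open Pool.Agent.S03959.VNa Pool.Agent.S03959.VNb Pool.Agent.S03959.VNc
open Pool.Agent.S03959.VNd Pool.Agent.S03959.VNe Pool.Agent.S03959.VNf
open Pool.Agent.S03959.VNg Pool.Agent.S03959.VNh Pool.Agent.S03959.VNi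
open Pool.Agent.S03959.SB (Tr tau_norm SBdd C1' C2' C3' moment_norm isClosed_M)

variable {H : Type*} [NormedAddCommGroup H] [InnerProductSpace ℂ H] [CompleteSpace H]
variable {M : VonNeumannAlgebra H} {t : (H →L[ℂ] H) → ℂ}
variable {T : (H →L[ℂ] H) → (H →L[ℂ] H)} {C : ℝ≥0}

/-- the trace is preserved -/
theorem trT (hM : Fac M) (hfin : Fin' M) (hinf : Inf M) (h : Tr M t) (hT : SBdd M T C)
    (hT1 : T 1 = 1) : ∀ y ∈ M, t (T y) = t y := by
  obtain ⟨A, B, hAB⟩ := repr hM hfin hinf h hT (pr_one M) (good1 h hT 1 (pr_one M))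
  have h1 : ∀ y ∈ M, t (T y) = (A + B) * t y := by
    intro y hy
    have := hAB y hy
    rw [one_mul, one_mul] at this
    rw [this]; ring
  have h2 := h1 1 (one_mem M)
  rw [hT1, h.one, mul_one] at h2
  intro y hy
  rw [h1 y hy, ← h2, one_mul]

theorem form_p (hM : Fac M) (hfin : Fin' M) (hinf : Inf M) (h : Tr M t) (hT : SBdd M T C)
    (hT1 : T 1 = 1) {p : H →L[ℂ] H} (hp : Pr M p) :
    ∃ a : ℂ, ∀ y ∈ M, t (T p * T y) = a * t (p * y) + (1 - a) * (t p * t y) := by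
  obtain ⟨A, B, hAB⟩ := repr hM hfin hinf h hT hp (good2 h hT p hp)
  have h1 := hAB 1 (one_mem M)
  rw [hT1, mul_one, mul_one, h.one, mul_one, trT hM hfin hinf h hT hT1 p hp.1] at h1
  refine ⟨A, fun y hy => ?_⟩
  rw [hAB y hy]
  linear_combination (-t y) * h1

/-- the form on projections with one constant -/
theorem form_const (hM : Fac M) (hfin : Fin' M) (hinf : Inf M) (h : Tr M t) (hT : SBdd M T C)
    (hT1 : T 1 = 1) :
    ∃ a : ℂ, ∀ p, Pr M p → ∀ y ∈ M, t (T p * T y) = a * t (p * y) + (1 - a) * (t p * t y) := by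
  -- comparability
  have key : ∀ p q, Pr M p → Pr M q → ∀ a b : ℂ,
      (∀ y ∈ M, t (T p * T y) = a * t (p * y) + (1 - a) * (t p * t y)) →
      (∀ y ∈ M, t (T q * T y) = b * t (q * y) + (1 - b) * (t q * t y)) →
      t (p * q) - t p * t q ≠ 0 → a = b := by
    intro p q hp hq a b ha hb hne
    have h1 := ha q hq.1
    have h2 := hb p hp.1
    rw [h.tr _ (hT.mem q hq.1) _ (hT.mem p hp.1), h.tr q hq.1 p hp.1, h1] at h2
    have h3 : (a - b) * (t (p * q) - t p * t q) = 0 := by linear_combination h2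
    exact sub_eq_zero.1 ((mul_eq_zero.1 h3).resolve_right hne)
  by_cases hex : ∃ p, Pr M p ∧ p ≠ 0 ∧ p ≠ 1
  swap
  · push Not at hex
    refine ⟨1, fun p hp y hy => ?_⟩
    by_cases hp0 : p = 0
    · rw [hp0, SBdd.zero hT]; simp [h.zero]
    · rw [hex p hp hp0, hT1]
      simp only [one_mul, h.one]
      rw [trT hM hfin hinf h hT hT1 y hy]; ring
  obtain ⟨p₀, hp₀, hp₀0, hp₀1⟩ := hex
  obtain ⟨a, ha⟩ := form_p hM hfin hinf h hT hT1 hp₀
  refine ⟨a, fun p hp => ?_⟩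
  by_cases hp0 : p = 0
  · intro y hy
    rw [hp0, SBdd.zero hT]; simp [h.zero]
  by_cases hp1 : p = 1
  · intro y hy
    rw [hp1, hT1, one_mul, one_mul, h.one, trT hM hfin hinf h hT hT1 y hy]; ring
  obtain ⟨b, hb⟩ := form_p hM hfin hinf h hT hT1 hp
  obtain ⟨p₁, q₁, hp₁, hq₁, hpp, hqq, hpq, hp₁0, hq₁0⟩ := connect hM hfin hinf h hp₀ hp hp₀0 hp0
  obtain ⟨a₁, ha₁⟩ := form_p hM hfin hinf h hT hT1 hp₁
  obtain ⟨b₁, hb₁⟩ := form_p hM hfin hinf h hT hT1 hq₁
  have t1 : t p₁ ≠ 0 := fun h0 => hp₁0 (faith hM hfin h hp₁ h0)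
  have t2 : t q₁ ≠ 0 := fun h0 => hq₁0 (faith hM hfin h hq₁ h0)
  have hlt : ∀ p, Pr M p → p ≠ 1 → 1 - t p ≠ 0 := by
    intro p hp hp1 h0
    have h1 : t (1 - p) = 0 := by rw [h.sub (one_mem M) hp.1, h.one, h0]
    exact hp1 (sub_eq_zero.1 (faith hM hfin h (pr_sub hp (pr_one M) (one_mul p)) h1)).symm
  have e1 : a = a₁ := by
    refine key p₀ p₁ hp₀ hp₁ a a₁ ha ha₁ ?_
    rw [hpp]
    have : t p₁ - t p₀ * t p₁ = t p₁ * (1 - t p₀) := by ring
    rw [this]
    exact mul_ne_zero t1 (hlt p₀ hp₀ hp₀1)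
  have e2 : b = b₁ := by
    refine key p q₁ hp hq₁ b b₁ hb hb₁ ?_
    rw [hqq]
    have : t q₁ - t p * t q₁ = t q₁ * (1 - t p) := by ring
    rw [this]
    exact mul_ne_zero t2 (hlt p hp hp1)
  have e3 : a₁ = b₁ := by
    refine key p₁ q₁ hp₁ hq₁ a₁ b₁ ha₁ hb₁ ?_
    rw [hpq, h.zero, zero_sub]
    exact neg_ne_zero.2 (mul_ne_zero t1 t2)
  have : b = a := by rw [e2, ← e3, e1]
  rw [this] at hb
  exact hb

/-- the form on M -/
theorem form (hM : Fac M) (hfin : Fin' M) (hinf : Inf M) (h : Tr M t) (hT : SBdd M T C)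
    (hT1 : T 1 = 1) :
    ∃ a : ℂ, ∀ x ∈ M, ∀ y ∈ M, t (T x * T y) = a * t (x * y) + (1 - a) * (t x * t y) := by
  obtain ⟨a, ha⟩ := form_const hM hfin hinf h hT hT1
  -- boundedness of the form in the first variable
  have hbd : ∀ y ∈ M, ∃ K : ℝ, ∀ x ∈ M, ‖t (T y * T x)‖ ≤ K * ‖x‖ := by
    intro y hy
    refine ⟨((C : ℝ) + 1) ^ 2 * ((1 + ‖y‖) ^ 2 + ‖y‖ ^ 2 + 1), ?_⟩
    refine lin_bound (lin_psi h hT (hT.mem y hy)) fun x hx hx1 => ?_
    have b1 := moment_norm h hT (add_mem hy hx) (k := 2) two_ne_zero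
    have b2 := moment_norm h hT hy (k := 2) two_ne_zero
    have b3 := moment_norm h hT hx (k := 2) two_ne_zero
    have mX := hT.mem y hy
    have mY := hT.mem x hx
    have e1 : t (T (y + x) ^ 2) = t (T y ^ 2) + 2 * t (T y * T x) + t (T x ^ 2) := by
      rw [hT.add y hy x hx, pow_two, pow_two, pow_two, add_mul, mul_add, mul_add,
        h.add _ (add_mem (mul_mem mX mX) (mul_mem mX mY)) _
          (add_mem (mul_mem mY mX) (mul_mem mY mY)),
        h.add _ (mul_mem mX mX) _ (mul_mem mX mY), h.add _ (mul_mem mY mX) _ (mul_mem mY mY),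
        h.tr (T x) mY (T y) mX]
      ring
    have hpy : ‖y + x‖ ≤ 1 + ‖y‖ := (norm_add_le _ _).trans (by linarith)
    have c1 : ‖y + x‖ ^ 2 ≤ (1 + ‖y‖) ^ 2 := pow_le_pow_left₀ (norm_nonneg _) hpy 2
    have c3 : ‖x‖ ^ 2 ≤ 1 := by nlinarith [norm_nonneg x]
    set D : ℝ := ((C : ℝ) + 1) ^ 2 with hD
    have hD0 : 0 ≤ D := by positivity
    have e2 : 2 * t (T y * T x) = t (T (y + x) ^ 2) - t (T y ^ 2) - t (T x ^ 2) := by
      rw [e1]; ring
    have e3 : 2 * ‖t (T y * T x)‖ ≤ ‖t (T (y + x) ^ 2)‖ + ‖t (T y ^ 2)‖ + ‖t (T x ^ 2)‖ := by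
      have : 2 * ‖t (T y * T x)‖ = ‖2 * t (T y * T x)‖ := by
        rw [norm_mul]; norm_num
      rw [this, e2]
      exact (norm_sub_le _ _).trans (add_le_add_left (norm_sub_le _ _) _)
    show ‖t (T y * T x)‖ ≤ _
    nlinarith [mul_le_mul_of_nonneg_left c1 hD0, mul_le_mul_of_nonneg_left c3 hD0,
      norm_nonneg (t (T y * T x))]
  refine ⟨a, fun x hx y hy => ?_⟩
  obtain ⟨K, hK⟩ := hbd y hy
  have h5 := lin_zero (pr_one M) (fun x => t (T x * T y) - (a * t (x * y) + (1 - a) * (t x * t y)))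
    (fun u hu v hv => by
      show t (T (u + v) * T y) - (a * t ((u + v) * y) + (1 - a) * (t (u + v) * t y)) =
        t (T u * T y) - (a * t (u * y) + (1 - a) * (t u * t y)) +
        (t (T v * T y) - (a * t (v * y) + (1 - a) * (t v * t y)))
      rw [hT.add u hu v hv, add_mul, add_mul, h.add _ (mul_mem (hT.mem u hu) (hT.mem y hy)) _
        (mul_mem (hT.mem v hv) (hT.mem y hy)), h.add _ (mul_mem hu hy) _ (mul_mem hv hy),
        h.add u hu v hv]
      ring)
    (fun c u hu => by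
      show t (T (c • u) * T y) - (a * t ((c • u) * y) + (1 - a) * (t (c • u) * t y)) =
        c * (t (T u * T y) - (a * t (u * y) + (1 - a) * (t u * t y)))
      rw [hT.smul c u hu, smul_mul_assoc, smul_mul_assoc, h.smul _ _
        (mul_mem (hT.mem u hu) (hT.mem y hy)), h.smul _ _ (mul_mem hu hy), h.smul _ _ hu]
      ring)
    (K + ‖a‖ * ‖y‖ + ‖1 - a‖ * ‖t y‖) (fun u hu => by
      show ‖t (T u * T y) - (a * t (u * y) + (1 - a) * (t u * t y))‖ ≤ _
      have a1 := hK u hu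
      rw [h.tr _ (hT.mem y hy) _ (hT.mem u hu)] at a1
      have a2 : ‖a * t (u * y)‖ ≤ ‖a‖ * ‖y‖ * ‖u‖ := by
        rw [norm_mul]
        have := (tau_norm h (mul_mem hu hy)).trans (norm_mul_le u y)
        nlinarith [norm_nonneg a]
      have a3 : ‖(1 - a) * (t u * t y)‖ ≤ ‖1 - a‖ * ‖t y‖ * ‖u‖ := by
        rw [norm_mul, norm_mul]
        have := tau_norm h hu
        nlinarith [norm_nonneg (1 - a), mul_nonneg (norm_nonneg (1 - a)) (norm_nonneg (t y))]
      refine (norm_sub_le _ _).trans ?_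
      have a4 := norm_add_le (a * t (u * y)) ((1 - a) * (t u * t y))
      linarith)
    (fun q hq _ => by
      show t (T q * T y) - (a * t (q * y) + (1 - a) * (t q * t y)) = 0
      rw [ha q hq y hy, sub_self]) hx (one_mul x) (mul_one x)
  exact sub_eq_zero.1 h5

/-- a nontrivial pair of orthogonal projections -/
theorem exists_pair (hM : Fac M) (hfin : Fin' M) (hinf : Inf M) (h : Tr M t) :
    ∃ p q, Pr M p ∧ Pr M q ∧ p * q = 0 ∧ p ≠ 0 ∧ q ≠ 0 ∧ p + q ≠ 1 := by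
  have h10 : (1 : H →L[ℂ] H) ≠ 0 := by
    intro h0
    have := h.one
    rw [h0, h.zero] at this
    exact zero_ne_one this
  obtain ⟨p, hp, -, hp0, hps⟩ := small hM hfin hinf h (pr_one M) h10 (by norm_num : (0 : ℝ) < 1 / 2)
  have hp' : Pr M (1 - p) := pr_sub hp (pr_one M) (one_mul p)
  have hp'0 : 1 - p ≠ 0 := by
    intro h0
    rw [sub_eq_zero] at h0
    rw [← h0, h.one] at hps
    norm_num at hps
  obtain ⟨q, hq, hpq, hq0, hqs⟩ := small hM hfin hinf h hp' hp'0 (by norm_num : (0 : ℝ) < 1 / 2)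
  refine ⟨p, q, hp, hq, ?_, hp0, hq0, ?_⟩
  · rw [← hpq, ← mul_assoc, mul_sub, mul_one, hp.2.1, sub_self, zero_mul]
  · intro h0
    have h1 := congrArg (fun x => (t x).re) h0
    simp only [h.add _ hp.1 _ hq.1, h.one, Complex.add_re, Complex.one_re] at h1
    linarith

/-- everything except the last algebra -/
theorem facts (hM : Fac M) (hfin : Fin' M) (hinf : Inf M) (h : Tr M t) (hT : SBdd M T C)
    (hT1 : T 1 = 1) (hsurj : ∀ y ∈ M, ∃ x ∈ M, T x = y) :
    ∃ a : ℂ, a ≠ 0 ∧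
      (∀ x ∈ M, ∀ y ∈ M, t (T x * T y) = a * t (x * y) + (1 - a) * (t x * t y)) ∧
      (∀ x ∈ M, T x = 0 → x = 0) ∧
      (∀ p, Pr M p → ∃ κ c : ℂ, T p * T p = κ • T p + c • (1 : H →L[ℂ] H)) := by
  obtain ⟨a, ha⟩ := form hM hfin hinf h hT hT1
  have htT := trT hM hfin hinf h hT hT1
  have hnd : ∀ z ∈ M, (∀ w ∈ M, t (z * T w) = 0) → z = 0 := by
    intro z hz h0
    refine nondeg hM hfin h hz fun w hw => ?_
    obtain ⟨x, hx, rfl⟩ := hsurj w hw
    exact h0 x hx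
  have ha0 : a ≠ 0 := by
    intro h0
    rw [h0] at ha
    obtain ⟨p, q, hp, hq, hpq, hp0, hq0, -⟩ := exists_pair hM hfin hinf h
    obtain ⟨x, hx, hxp⟩ := hsurj p hp.1
    have h1 : T x - t x • (1 : H →L[ℂ] H) = 0 := by
      refine hnd _ (sub_mem (hT.mem x hx) (smul_mem' _ (one_mem M))) fun w hw => ?_
      rw [sub_mul, smul_mul_assoc, one_mul, h.sub (mul_mem (hT.mem x hx) (hT.mem w hw))
        (smul_mem' _ (hT.mem w hw)), h.smul _ _ (hT.mem w hw), ha x hx w hw, htT w hw]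
      ring
    rw [hxp, sub_eq_zero] at h1
    have h2 : t x • q = 0 := by
      rw [← hpq, h1, smul_mul_assoc, one_mul]
    rcases smul_eq_zero.1 h2 with h3 | h3
    · rw [h3, zero_smul] at h1; exact hp0 h1
    · exact hq0 h3
  refine ⟨a, ha0, ha, ?_, ?_⟩
  · intro x hx hx0
    have h1 : t x = 0 := by rw [← htT x hx, hx0, h.zero]
    refine nondeg hM hfin h hx fun w hw => ?_
    have h2 := ha x hx w hw
    rw [hx0, zero_mul, h.zero, h1] at h2
    have h3 : a * t (x * w) = 0 := by linear_combination -h2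
    exact (mul_eq_zero.1 h3).resolve_left ha0
  · intro p hp
    obtain ⟨A, B, hAB⟩ := repr hM hfin hinf h hT hp (good3 h hT p hp)
    refine ⟨A / a, B - A / a * ((1 - a) * t p), ?_⟩
    have mP := hT.mem p hp.1
    rw [← sub_eq_zero]
    refine hnd _ (sub_mem (mul_mem mP mP) (add_mem (smul_mem' _ mP) (smul_mem' _ (one_mem M))))
      fun w hw => ?_
    have mW := hT.mem w hw
    rw [sub_mul, add_mul, smul_mul_assoc, smul_mul_assoc, one_mul,
      h.sub (mul_mem (mul_mem mP mP) mW) (add_mem (smul_mem' _ (mul_mem mP mW)) (smul_mem' _ mW)),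
      h.add _ (smul_mem' _ (mul_mem mP mW)) _ (smul_mem' _ mW), h.smul _ _ (mul_mem mP mW),
      h.smul _ _ mW, hAB w hw, ha p hp.1 w hw, htT w hw]
    field_simp
    ring

/-- continuity -/
theorem bounded (h : Tr M t) (hTM : ∀ x ∈ M, T x ∈ M)
    (hadd : ∀ x ∈ M, ∀ y ∈ M, T (x + y) = T x + T y)
    (hsmul : ∀ c : ℂ, ∀ x ∈ M, T (c • x) = c • T x)
    (hnd : ∀ z ∈ M, (∀ w ∈ M, t (z * T w) = 0) → z = 0) (a : ℂ)
    (hform : ∀ x ∈ M, ∀ y ∈ M, t (T x * T y) = a * t (x * y) + (1 - a) * (t x * t y)) :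
    ∃ K : ℝ, ∀ x ∈ M, ‖T x‖ ≤ K * ‖x‖ := by
  obtain ⟨N, hN⟩ : ∃ N : Submodule ℂ (H →L[ℂ] H), ∀ x, x ∈ N ↔ x ∈ M :=
    ⟨M.toStarSubalgebra.toSubalgebra.toSubmodule, fun x => Iff.rfl⟩
  have hNc : IsClosed (N : Set (H →L[ℂ] H)) := by
    have : (N : Set (H →L[ℂ] H)) = (M : Set (H →L[ℂ] H)) := Set.ext fun x => hN x
    rw [this]; exact isClosed_M M
  have : CompleteSpace N := hNc.completeSpace_coe
  let L : N →ₗ[ℂ] N :=
    { toFun := fun x => ⟨T x.1, (hN _).2 (hTM _ ((hN _).1 x.2))⟩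
      map_add' := fun x y => Subtype.ext (hadd _ ((hN _).1 x.2) _ ((hN _).1 y.2))
      map_smul' := fun c x => Subtype.ext (hsmul c _ ((hN _).1 x.2)) }
  have hcont : Continuous L := by
    refine LinearMap.continuous_of_seq_closed_graph L fun u x y hu hLu => ?_
    have hu' : Filter.Tendsto (fun n => ((u n : N) : H →L[ℂ] H)) Filter.atTop (nhds (x : H →L[ℂ] H)) :=
      (continuous_subtype_val.tendsto x).comp hu
    have hLu' : Filter.Tendsto (fun n => T ((u n : N) : H →L[ℂ] H)) Filter.atTop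
        (nhds (y : H →L[ℂ] H)) := (continuous_subtype_val.tendsto y).comp hLu
    have hyM : (y : H →L[ℂ] H) ∈ M := (hN _).1 y.2
    have hxM : (x : H →L[ℂ] H) ∈ M := (hN _).1 x.2
    have huM : ∀ n, ((u n : N) : H →L[ℂ] H) ∈ M := fun n => (hN _).1 (u n).2
    have hlim : ∀ (v : ℕ → H →L[ℂ] H) (v₀ w : H →L[ℂ] H), (∀ n, v n ∈ M) → v₀ ∈ M → w ∈ M →
        Filter.Tendsto v Filter.atTop (nhds v₀) →
        Filter.Tendsto (fun n => t (v n * w)) Filter.atTop (nhds (t (v₀ * w))) := by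
      intro v v₀ w hv hv₀ hw hvt
      rw [tendsto_iff_norm_sub_tendsto_zero]
      have h1 : Filter.Tendsto (fun n => ‖v n - v₀‖ * ‖w‖) Filter.atTop (nhds 0) := by
        have := (tendsto_iff_norm_sub_tendsto_zero.1 hvt).mul_const ‖w‖
        rwa [zero_mul] at this
      refine squeeze_zero (fun n => norm_nonneg _) (fun n => ?_) h1
      rw [← h.sub (mul_mem (hv n) hw) (mul_mem hv₀ hw), ← sub_mul]
      exact (tau_norm h (mul_mem (sub_mem (hv n) hv₀) hw)).trans (norm_mul_le _ _)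
    apply Subtype.ext
    show (y : H →L[ℂ] H) = T (x : H →L[ℂ] H)
    rw [← sub_eq_zero]
    refine hnd _ (sub_mem hyM (hTM _ hxM)) fun w hw => ?_
    rw [sub_mul, h.sub (mul_mem hyM (hTM w hw)) (mul_mem (hTM _ hxM) (hTM w hw)), sub_eq_zero,
      hform _ hxM w hw]
    have l1 := hlim _ _ (T w) (fun n => hTM _ (huM n)) hyM (hTM w hw) hLu'
    have l2 := hlim _ _ w huM hxM hw hu'
    have l3 := hlim _ _ 1 huM hxM (one_mem M) hu'
    simp only [mul_one] at l3
    have l4 : Filter.Tendsto (fun n => a * t ((u n : H →L[ℂ] H) * w) +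
        (1 - a) * (t (u n : H →L[ℂ] H) * t w)) Filter.atTop
        (nhds (a * t ((x : H →L[ℂ] H) * w) + (1 - a) * (t (x : H →L[ℂ] H) * t w))) :=
      (l2.const_mul a).add ((l3.mul_const (t w)).const_mul (1 - a))
    refine tendsto_nhds_unique l1 ?_
    refine l4.congr fun n => ?_
    exact (hform _ (huM n) w hw).symm
  let L' : N →L[ℂ] N := ⟨L, hcont⟩
  refine ⟨‖L'‖, fun x hx => ?_⟩
  exact L'.le_opNorm ⟨x, (hN x).2 hx⟩

end Pool.Agent.S03959.VNj
end

section
open ContinuousLinearMap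
namespace Pool.Agent.S03959.VNk

open Pool.Agent.S03959.VNa Pool.Agent.S03959.VNb Pool.Agent.S03959.VNc
open Pool.Agent.S03959.VNd Pool.Agent.S03959.VNe Pool.Agent.S03959.VNf
open Pool.Agent.S03959.VNg Pool.Agent.S03959.VNh Pool.Agent.S03959.VNi
open Pool.Agent.S03959.VNj
open Pool.Agent.S03959.SB (Tr tau_norm)

variable {H : Type*} [NormedAddCommGroup H] [InnerProductSpace ℂ H] [CompleteSpace H]
variable {M : VonNeumannAlgebra H} {t : (H →L[ℂ] H) → ℂ}

/-- the data -/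
structure Dat (M : VonNeumannAlgebra H) (t : (H →L[ℂ] H) → ℂ) (T : (H →L[ℂ] H) → (H →L[ℂ] H))
    (a : ℂ) : Prop where
  tr : Tr M t
  mem : ∀ x ∈ M, T x ∈ M
  add : ∀ x ∈ M, ∀ y ∈ M, T (x + y) = T x + T y
  smul : ∀ c : ℂ, ∀ x ∈ M, T (c • x) = c • T x
  one : T 1 = 1
  inj : ∀ x ∈ M, T x = 0 → x = 0
  ttr : ∀ x ∈ M, t (T x) = t x
  faith : ∀ p, Pr M p → t p = 0 → p = 0
  ha : a ≠ 0
  form : ∀ x ∈ M, ∀ y ∈ M, t (T x * T y) = a * t (x * y) + (1 - a) * (t x * t y)

variable {T : (H →L[ℂ] H) → (H →L[ℂ] H)} {a : ℂ}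

/-- the constant term -/
theorem Dat.const (D : Dat M t T a) {p : H →L[ℂ] H} (hp : Pr M p) {κ c : ℂ}
    (hκ : T p * T p = κ • T p + c • (1 : H →L[ℂ] H)) :
    c = a * t p + (1 - a) * t p ^ 2 - κ * t p := by
  have h := D.tr
  have h1 := D.form p hp.1 p hp.1
  rw [hκ, hp.2.1, h.add _ (smul_mem' _ (D.mem p hp.1)) _ (smul_mem' _ (one_mem M)),
    h.smul _ _ (D.mem p hp.1), h.smul _ _ (one_mem M), h.one, D.ttr p hp.1] at h1
  linear_combination h1

/-- the fundamental relation -/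
theorem Dat.rel (D : Dat M t T a) {p q : H →L[ℂ] H} (hp : Pr M p) (hq : Pr M q)
    (hpq : p * q = 0) (hp0 : p ≠ 0) {κ c κ' c' κ'' c'' : ℂ}
    (h1 : T p * T p = κ • T p + c • (1 : H →L[ℂ] H))
    (h2 : T q * T q = κ' • T q + c' • (1 : H →L[ℂ] H))
    (h3 : T (p + q) * T (p + q) = κ'' • T (p + q) + c'' • (1 : H →L[ℂ] H)) :
    κ'' * (1 - t p - t q) = κ * (1 - t p - 2 * t q) - κ' * t q + 2 * t q := by
  have h := D.tr
  have e1 := D.const hp h1
  have e2 := D.const hq h2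
  have e3 := D.const (pr_add hp hq hpq) h3
  have hqp : q * p = 0 := by
    have := congrArg star hpq
    rwa [star_mul, hp.2.2, hq.2.2, star_zero] at this
  have mP := D.mem p hp.1
  have mQ := D.mem q hq.1
  have mR := D.mem _ (add_mem hp.1 hq.1)
  have hPP := D.form p hp.1 p hp.1
  have hPQ := D.form p hp.1 q hq.1
  have hQP := D.form q hq.1 p hp.1
  rw [hp.2.1] at hPP
  rw [hpq, h.zero] at hPQ
  rw [hqp, h.zero] at hQP
  have htp := D.ttr p hp.1
  have htq := D.ttr q hq.1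
  have hadd := D.add p hp.1 q hq.1
  have hts : t (p + q) = t p + t q := h.add _ hp.1 _ hq.1
  rw [hts] at e3
  -- first computation
  have f1 : t (T (p + q) * T (p + q) * T p) =
      κ'' * (t (T p * T p) + t (T q * T p)) + c'' * t p := by
    rw [h3, add_mul, smul_mul_assoc, smul_mul_assoc, one_mul,
      h.add _ (smul_mem' _ (mul_mem mR mP)) _ (smul_mem' _ mP), h.smul _ _ (mul_mem mR mP),
      h.smul _ _ mP, hadd, add_mul, h.add _ (mul_mem mP mP) _ (mul_mem mQ mP), htp]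
  -- second computation
  have g1 : t (T p * T p * T p) = κ * t (T p * T p) + c * t p := by
    rw [h1, add_mul, smul_mul_assoc, smul_mul_assoc, one_mul,
      h.add _ (smul_mem' _ (mul_mem mP mP)) _ (smul_mem' _ mP), h.smul _ _ (mul_mem mP mP),
      h.smul _ _ mP, htp]
    rw [← h1]
  have g2 : t (T q * T q * T p) = κ' * t (T q * T p) + c' * t p := by
    rw [h2, add_mul, smul_mul_assoc, smul_mul_assoc, one_mul,
      h.add _ (smul_mem' _ (mul_mem mQ mP)) _ (smul_mem' _ mP), h.smul _ _ (mul_mem mQ mP),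
      h.smul _ _ mP, htp]
  have g3 : t (T p * T p * T q) = κ * t (T p * T q) + c * t q := by
    rw [h1, add_mul, smul_mul_assoc, smul_mul_assoc, one_mul,
      h.add _ (smul_mem' _ (mul_mem mP mQ)) _ (smul_mem' _ mQ), h.smul _ _ (mul_mem mP mQ),
      h.smul _ _ mQ, htq]
  have m3 : ∀ {a b c : H →L[ℂ] H}, a ∈ M → b ∈ M → c ∈ M → a * b * c ∈ M :=
    fun ha hb hc => mul_mem (mul_mem ha hb) hc
  have f2 : t (T (p + q) * T (p + q) * T p) =
      t (T p * T p * T p) + 2 * t (T p * T p * T q) + t (T q * T q * T p) := by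
    have e : T (p + q) * T (p + q) * T p = T p * T p * T p + (T p * T q * T p +
        (T q * T p * T p + T q * T q * T p)) := by
      rw [hadd]; noncomm_ring
    have r1 : t (T p * T q * T p) = t (T p * T p * T q) := by
      rw [h.tr _ (mul_mem mP mQ) _ mP, ← mul_assoc]
    have r2 : t (T q * T p * T p) = t (T p * T p * T q) := by
      rw [mul_assoc, h.tr _ mQ _ (mul_mem mP mP)]
    rw [e, h.add _ (m3 mP mP mP) _ (add_mem (m3 mP mQ mP) (add_mem (m3 mQ mP mP) (m3 mQ mQ mP))),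
      h.add _ (m3 mP mQ mP) _ (add_mem (m3 mQ mP mP) (m3 mQ mQ mP)),
      h.add _ (m3 mQ mP mP) _ (m3 mQ mQ mP), r1, r2]
    ring
  rw [f1, g1, g2, g3, hPP, hPQ, hQP, e1, e2, e3] at f2
  have hs : t p ≠ 0 := fun h0 => hp0 (D.faith p hp h0)
  have hmain : a * t p * (κ'' * (1 - t p - t q) - (κ * (1 - t p - 2 * t q) - κ' * t q + 2 * t q)) = 0 := by
    linear_combination f2
  have := (mul_eq_zero.1 hmain).resolve_left (mul_ne_zero D.ha hs)
  exact sub_eq_zero.1 this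

/-- the predicate -/
def Gp (t : (H →L[ℂ] H) → ℂ) (T : (H →L[ℂ] H) → (H →L[ℂ] H)) (p : H →L[ℂ] H) (g : ℂ) : Prop :=
  ∃ κ c : ℂ, T p * T p = κ • T p + c • (1 : H →L[ℂ] H) ∧ κ - 2 * t p = g * (1 - 2 * t p)

theorem one_g {M : VonNeumannAlgebra H} {t : (H →L[ℂ] H) → ℂ} (h : Tr M t)
    (T : (H →L[ℂ] H) → (H →L[ℂ] H)) (hTM : ∀ x ∈ M, T x ∈ M)
    (hadd : ∀ x ∈ M, ∀ y ∈ M, T (x + y) = T x + T y)
    (hsmul : ∀ c : ℂ, ∀ x ∈ M, T (c • x) = c • T x) (hT1 : T 1 = 1)
    (hinj : ∀ x ∈ M, T x = 0 → x = 0) (htT : ∀ x ∈ M, t (T x) = t x)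
    (hfaith : ∀ p, Pr M p → t p = 0 → p = 0) (a : ℂ) (ha : a ≠ 0)
    (hform : ∀ x ∈ M, ∀ y ∈ M, t (T x * T y) = a * t (x * y) + (1 - a) * (t x * t y))
    (hE3 : ∀ p, Pr M p → ∃ κ c : ℂ, T p * T p = κ • T p + c • (1 : H →L[ℂ] H))
    (hconn : ∀ p q, Pr M p → Pr M q → p ≠ 0 → q ≠ 0 → ∃ p₁ q₁, Pr M p₁ ∧ Pr M q₁ ∧
      p * p₁ = p₁ ∧ q * q₁ = q₁ ∧ p₁ * q₁ = 0 ∧ p₁ ≠ 0 ∧ q₁ ≠ 0)
    (hsmall : ∀ p, Pr M p → p ≠ 0 → ∃ q, Pr M q ∧ p * q = q ∧ q ≠ 0 ∧ (t q).re < 1 / 2) :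
    ∃ g : ℂ, ∀ p, Pr M p → T p * T p = (2 * t p + g * (1 - 2 * t p)) • T p +
      (a * t p + (1 - a) * t p ^ 2 - (2 * t p + g * (1 - 2 * t p)) * t p) • (1 : H →L[ℂ] H) := by
  have D : Dat M t T a := ⟨h, hTM, hadd, hsmul, hT1, hinj, htT, hfaith, ha, hform⟩
  -- (i)
  have step1 : ∀ p q g, Pr M p → Pr M q → p * q = 0 → p ≠ 0 → q ≠ 0 → 1 - 2 * t p ≠ 0 →
      Gp t T p g → Gp t T q g := by
    intro p q g hp hq hpq hp0 hq0 hs hG
    obtain ⟨κ, c, h1, h2⟩ := hG
    obtain ⟨κ', c', h3⟩ := hE3 q hq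
    obtain ⟨κ'', c'', h4⟩ := hE3 (p + q) (pr_add hp hq hpq)
    have hqp : q * p = 0 := by
      have := congrArg star hpq
      rwa [star_mul, hp.2.2, hq.2.2, star_zero] at this
    have r1 := D.rel hp hq hpq hp0 h1 h3 h4
    rw [add_comm p q] at h4
    have r2 := D.rel hq hp hqp hq0 h3 h1 h4
    refine ⟨κ', c', h3, ?_⟩
    have r3 : (1 - 2 * t p) * (κ' - 2 * t q - g * (1 - 2 * t q)) = 0 := by
      linear_combination r1 - r2 + (1 - 2 * t q) * h2
    exact sub_eq_zero.1 ((mul_eq_zero.1 r3).resolve_left hs)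
  -- uniqueness
  have uniq : ∀ p g g', Pr M p → p ≠ 0 → p ≠ 1 → 1 - 2 * t p ≠ 0 → Gp t T p g → Gp t T p g' →
      g = g' := by
    intro p g g' hp hp0 hp1 hs h1 h2
    obtain ⟨κ, c, h3, h4⟩ := h1
    obtain ⟨κ', c', h5, h6⟩ := h2
    have h7 : (κ - κ') • T p = (c' - c) • (1 : H →L[ℂ] H) := by
      rw [h3] at h5
      rw [sub_smul, sub_smul, sub_eq_sub_iff_add_eq_add, h5]
      abel
    have h8 : κ = κ' := by
      by_contra hne
      have hne' : κ - κ' ≠ 0 := sub_ne_zero.2 hne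
      obtain ⟨d, hd⟩ : ∃ d : ℂ, d = (κ - κ')⁻¹ * (c' - c) := ⟨_, rfl⟩
      have h9 : T p = d • (1 : H →L[ℂ] H) := by
        rw [hd, mul_smul, ← h7, smul_smul, inv_mul_cancel₀ hne', one_smul]
      have h10 : T (p - d • 1) = 0 := by
        have hneg : T (-(d • (1 : H →L[ℂ] H))) = -(d • (1 : H →L[ℂ] H)) := by
          have := hsmul (-d) 1 (one_mem M)
          rw [hT1, neg_smul] at this
          exact this
        rw [sub_eq_add_neg, hadd p hp.1 _ (neg_mem (smul_mem' _ (one_mem M))), hneg, h9]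
        abel
      have h11 := hinj _ (sub_mem hp.1 (smul_mem' _ (one_mem M))) h10
      rw [sub_eq_zero] at h11
      have h12 : d • (p - 1) = 0 := by
        have h13 := hp.2.1
        have h14 : d • p = p := by
          calc d • p = (d • (1 : H →L[ℂ] H)) * p := by rw [smul_mul_assoc, one_mul]
            _ = p := by rw [← h11, hp.2.1]
        rw [smul_sub, h14, ← h11, sub_self]
      rcases smul_eq_zero.1 h12 with h13 | h13
      · rw [h13, zero_smul] at h11; exact hp0 h11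
      · exact hp1 (sub_eq_zero.1 h13)
    have h9 : (g - g') * (1 - 2 * t p) = 0 := by
      linear_combination h6 - h4 + h8
    exact sub_eq_zero.1 ((mul_eq_zero.1 h9).resolve_right hs)
  -- existence
  have ex : ∀ p, Pr M p → 1 - 2 * t p ≠ 0 → ∃ g, Gp t T p g := by
    intro p hp hs
    obtain ⟨κ, c, h1⟩ := hE3 p hp
    exact ⟨(κ - 2 * t p) / (1 - 2 * t p), κ, c, h1, by field_simp⟩
  have small_ne : ∀ p, (t p).re < 1 / 2 → 1 - 2 * t p ≠ 0 := by
    intro p hp h0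
    have h1 := congrArg Complex.re h0
    simp at h1
    linarith
  have small_one : ∀ p, (t p).re < 1 / 2 → p ≠ 1 := by
    intro p hp h0
    rw [h0, h.one] at hp
    norm_num at hp
  -- passing to subprojections
  have sub : ∀ p p₁ g, Pr M p → Pr M p₁ → p * p₁ = p₁ → p ≠ 0 → p₁ ≠ 0 → (t p).re < 1 / 2 →
      Gp t T p g → Gp t T p₁ g := by
    intro p p₁ g hp hp₁ hpp hp0 hp₁0 hs hG
    have hp' : Pr M (1 - p) := pr_sub hp (pr_one M) (one_mul p)
    have hp1 := small_one p hs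
    have hp'0 : 1 - p ≠ 0 := fun h0 => hp1 (sub_eq_zero.1 h0).symm
    have h1 := step1 p (1 - p) g hp hp' (by rw [mul_sub, mul_one, hp.2.1, sub_self]) hp0 hp'0
      (small_ne p hs) hG
    refine step1 (1 - p) p₁ g hp' hp₁ ?_ hp'0 hp₁0 ?_ h1
    · rw [sub_mul, one_mul, hpp, sub_self]
    · rw [h.sub (one_mem M) hp.1, h.one]
      intro h0
      exact small_ne p hs (by linear_combination -h0)
  have h10 : (1 : H →L[ℂ] H) ≠ 0 := by
    intro h0
    have := h.one
    rw [h0, h.zero] at this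
    exact zero_ne_one this
  obtain ⟨p₀, hp₀, -, hp₀0, hs₀⟩ := hsmall 1 (pr_one M) h10
  obtain ⟨g, hg⟩ := ex p₀ hp₀ (small_ne p₀ hs₀)
  have hsm : ∀ p, Pr M p → p ≠ 0 → (t p).re < 1 / 2 → Gp t T p g := by
    intro p hp hp0 hs
    obtain ⟨g', hg'⟩ := ex p hp (small_ne p hs)
    obtain ⟨p₁, q₁, hp₁, hq₁, hpp, hqq, hpq, hp₁0, hq₁0⟩ := hconn p₀ p hp₀ hp hp₀0 hp0
    have mono : ∀ e f, Pr M e → Pr M f → f * e = e → (t f).re < 1 / 2 → (t e).re < 1 / 2 :=
      fun e f he hf hfe hf1 => lt_of_le_of_lt (pr_mono h he hf hfe) hf1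
    have s1 := mono p₁ p₀ hp₁ hp₀ hpp hs₀
    have s2 := mono q₁ p hq₁ hp hqq hs
    have k1 := sub p₀ p₁ g hp₀ hp₁ hpp hp₀0 hp₁0 hs₀ hg
    have k2 := step1 p₁ q₁ g hp₁ hq₁ hpq hp₁0 hq₁0 (small_ne p₁ s1) k1
    have k3 := sub p q₁ g' hp hq₁ hqq hp0 hq₁0 hs hg'
    have k4 := uniq q₁ g g' hq₁ hq₁0 (small_one q₁ s2) (small_ne q₁ s2) k2 k3
    rw [k4]; exact hg'
  refine ⟨g, fun p hp => ?_⟩
  by_cases hp0 : p = 0
  · have hT0 : T 0 = 0 := by
      have := hsmul 0 0 (zero_mem M)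
      simpa using this
    rw [hp0, hT0, h.zero]; simp
  by_cases hp1 : p = 1
  · rw [hp1, hT1, h.one, mul_one, ← add_smul]
    rw [show (2 * 1 + g * (1 - 2 * 1) + (a * 1 + (1 - a) * 1 ^ 2 -
      (2 * 1 + g * (1 - 2 * 1)) * 1) : ℂ) = 1 by ring, one_smul]
  have hp' : Pr M (1 - p) := pr_sub hp (pr_one M) (one_mul p)
  have hp'0 : 1 - p ≠ 0 := fun h0 => hp1 (sub_eq_zero.1 h0).symm
  obtain ⟨q, hq, hpq, hq0, hqs⟩ := hsmall _ hp' hp'0
  have k1 := hsm q hq hq0 hqs
  have hqp : q * p = 0 := by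
    have h1 : q * (1 - p) = q := left_of_right hq.2.2 hp'.2.2 hpq
    rw [← h1, mul_assoc, sub_mul, one_mul, hp.2.1, sub_self, mul_zero]
  obtain ⟨κ, c, h1, h2⟩ := step1 q p g hq hp hqp hq0 hp0 (small_ne q hqs) k1
  have h3 := D.const hp h1
  have h4 : κ = 2 * t p + g * (1 - 2 * t p) := by linear_combination h2
  rw [← h4, ← h3]
  exact h1

end Pool.Agent.S03959.VNk
end

section
open ContinuousLinearMap
namespace Pool.Agent.S03959.SBQ

open Pool.Agent.S03959.VNb Pool.Agent.S03959.VNe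

variable {H : Type*} [NormedAddCommGroup H] [InnerProductSpace ℂ H] [CompleteSpace H]

theorem zero_of_le {v : H →L[ℂ] H} {C : ℝ} (h : ∀ n : ℕ, ‖v‖ ≤ C * (1 / 2 ^ n)) : v = 0 := by
  have h1 : Filter.Tendsto (fun n : ℕ => C * ((1 : ℝ) / 2 ^ n)) Filter.atTop (nhds (C * 0)) := by
    refine Filter.Tendsto.const_mul _ ?_
    have := tendsto_pow_atTop_nhds_zero_of_lt_one (by norm_num : (0 : ℝ) ≤ 1 / 2)
      (by norm_num : (1 / 2 : ℝ) < 1)
    simpa [one_div_pow] using this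
  rw [mul_zero] at h1
  exact norm_le_zero_iff.1 (ge_of_tendsto' h1 h)

structure Bil (M : VonNeumannAlgebra H) (B : (H →L[ℂ] H) → (H →L[ℂ] H) → (H →L[ℂ] H)) : Prop where
  add : ∀ x ∈ M, ∀ y ∈ M, ∀ z ∈ M, B (x + y) z = B x z + B y z
  smul : ∀ c : ℂ, ∀ x ∈ M, ∀ y ∈ M, B (c • x) y = c • B x y
  symm : ∀ x ∈ M, ∀ y ∈ M, B x y = B y x

variable {M : VonNeumannAlgebra H} {B : (H →L[ℂ] H) → (H →L[ℂ] H) → (H →L[ℂ] H)}

theorem Bil.add' (h : Bil M B) : ∀ x ∈ M, ∀ y ∈ M, ∀ z ∈ M, B z (x + y) = B z x + B z y := by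
  intro x hx y hy z hz
  rw [h.symm z hz _ (add_mem hx hy), h.add x hx y hy z hz, h.symm x hx z hz, h.symm y hy z hz]

theorem Bil.smul' (h : Bil M B) : ∀ c : ℂ, ∀ x ∈ M, ∀ y ∈ M, B y (c • x) = c • B y x := by
  intro c x hx y hy
  rw [h.symm y hy _ (smul_mem' c hx), h.smul c x hx y hy, h.symm x hx y hy]

theorem Bil.zero (h : Bil M B) {y : H →L[ℂ] H} (hy : y ∈ M) : B 0 y = 0 := by
  have := h.smul 0 0 (zero_mem M) y hy
  simpa using this

theorem Bil.zero' (h : Bil M B) {y : H →L[ℂ] H} (hy : y ∈ M) : B y 0 = 0 := by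
  rw [h.symm y hy 0 (zero_mem M), h.zero hy]

theorem Bil.sub (h : Bil M B) : ∀ x ∈ M, ∀ y ∈ M, ∀ z ∈ M, B (x - y) z = B x z - B y z := by
  intro x hx y hy z hz
  have e : x - y = x + (-1 : ℂ) • y := by module
  rw [e, h.add x hx _ (smul_mem' _ hy) z hz, h.smul _ y hy z hz]
  module

theorem Bil.sub' (h : Bil M B) : ∀ x ∈ M, ∀ y ∈ M, ∀ z ∈ M, B z (x - y) = B z x - B z y := by
  intro x hx y hy z hz
  rw [h.symm z hz _ (sub_mem hx hy), h.sub x hx y hy z hz, h.symm x hx z hz, h.symm y hy z hz]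

theorem Bil.orth (h : Bil M B) (h0 : ∀ p, Pr M p → B p p = 0) {p q : H →L[ℂ] H} (hp : Pr M p)
    (hq : Pr M q) (hpq : p * q = 0) : B p q = 0 := by
  have h1 := h0 _ (pr_add hp hq hpq)
  rw [h.add p hp.1 q hq.1 _ (add_mem hp.1 hq.1), h.add' p hp.1 q hq.1 p hp.1,
    h.add' p hp.1 q hq.1 q hq.1, h0 p hp, h0 q hq, h.symm q hq.1 p hp.1] at h1
  have h2 : (2 : ℂ) • B p q = 0 := by
    rw [two_smul]; simpa using h1
  rcases smul_eq_zero.1 h2 with h3 | h3
  · norm_num at h3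
  · exact h3

theorem Bil.comm (h : Bil M B) (h0 : ∀ p, Pr M p → B p p = 0) {p q : H →L[ℂ] H} (hp : Pr M p)
    (hq : Pr M q) (hpq : Commute p q) : B p q = 0 := by
  have hr : Pr M (p * q) := by
    refine ⟨mul_mem hp.1 hq.1, ?_, ?_⟩
    · rw [mul_assoc, ← mul_assoc q p q, ← hpq.eq, mul_assoc p q q, hq.2.1, ← mul_assoc, hp.2.1]
    · rw [star_mul, hp.2.2, hq.2.2, hpq.eq]
  have hpr : p * (p * q) = p * q := by rw [← mul_assoc, hp.2.1]
  have hqr : q * (p * q) = p * q := by rw [← mul_assoc, ← hpq.eq, mul_assoc, hq.2.1]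
  have hrp : (p * q) * p = p * q := by rw [hpq.eq, mul_assoc, hp.2.1]
  have hrq : (p * q) * q = p * q := by rw [mul_assoc, hq.2.1]
  have hp' := pr_sub hr hp hpr
  have hq' := pr_sub hr hq hqr
  have e1 : p = p * q + (p - p * q) := by abel
  have e2 : q = p * q + (q - p * q) := by abel
  have o1 : (p * q) * (q - p * q) = 0 := by rw [mul_sub, hrq, hr.2.1, sub_self]
  have o2 : (p - p * q) * (p * q) = 0 := by rw [sub_mul, hpr, hr.2.1, sub_self]
  have o3 : (p - p * q) * (q - p * q) = 0 := by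
    rw [mul_sub, o2, sub_zero, sub_mul, hrq, sub_self]
  have k : B (p * q + (p - p * q)) (p * q + (q - p * q)) = 0 := by
    rw [h.add _ hr.1 _ hp'.1 _ (add_mem hr.1 hq'.1), h.add' _ hr.1 _ hq'.1 _ hr.1,
      h.add' _ hr.1 _ hq'.1 _ hp'.1, h0 _ hr, h.orth h0 hr hq' o1, h.orth h0 hp' hr o2,
      h.orth h0 hp' hq' o3]
    simp
  rwa [← e1, ← e2] at k

theorem Bil.pos (h : Bil M B) (h0 : ∀ p, Pr M p → B p p = 0) {K : ℝ}
    (hK0 : 0 ≤ K) (hK : ∀ x ∈ M, ∀ y ∈ M, ‖B x y‖ ≤ K * ‖x‖ * ‖y‖) {a : H →L[ℂ] H} (ha : a ∈ M)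
    (ha0 : 0 ≤ a) (ha1 : 0 ≤ (1 : H →L[ℂ] H) - a) : B a a = 0 ∧ B a 1 = 0 := by
  obtain ⟨p, hp, hpc, -, hn⟩ := dyadic_seq M ha ha0 ha1
  obtain ⟨S, hS⟩ : ∃ S : ℕ → (H →L[ℂ] H),
      S = fun n => ∑ i ∈ Finset.range n, ((1 : ℝ) / 2 ^ (i + 1)) • p i := ⟨_, rfl⟩
  have hS0 : S 0 = 0 := by rw [hS]; simp
  have hSs : ∀ n, S (n + 1) = S n + (((1 : ℝ) / 2 ^ (n + 1) : ℝ) : ℂ) • p n := by
    intro n
    rw [hS]
    simp only [Finset.sum_range_succ]
    rw [rsmul_eq ((1 : ℝ) / 2 ^ (n + 1)) (p n)]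
  have hSM : ∀ n, S n ∈ M := by
    intro n
    induction n with
    | zero => rw [hS0]; exact zero_mem M
    | succ n ih => rw [hSs]; exact add_mem ih (smul_mem' _ (hp n).1)
  have hz : ∀ z, Pr M z → (∀ i, Commute (p i) z) → ∀ n, B (S n) z = 0 := by
    intro z hz hc n
    induction n with
    | zero => rw [hS0]; exact h.zero hz.1
    | succ n ih =>
      rw [hSs, h.add _ (hSM n) _ (smul_mem' _ (hp n).1) _ hz.1, ih,
        h.smul _ _ (hp n).1 _ hz.1, h.comm h0 (hp n) hz (hc n)]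
      simp
  have hSS : ∀ n m, B (S n) (S m) = 0 := by
    intro n m
    induction m with
    | zero => rw [hS0]; exact h.zero' (hSM n)
    | succ m ih =>
      rw [hSs, h.add' _ (hSM m) _ (smul_mem' _ (hp m).1) _ (hSM n), ih,
        h.smul' _ _ (hp m).1 _ (hSM n), hz _ (hp m) (fun i => hpc i m) n]
      simp
  have hn' : ∀ n, ‖a - S n‖ ≤ 1 / 2 ^ n := by
    intro n
    rw [hS]
    exact hn n
  have hpow : ∀ n : ℕ, (0 : ℝ) < 1 / 2 ^ n := fun n => by positivity
  have hpow1 : ∀ n : ℕ, (1 : ℝ) / 2 ^ n ≤ 1 := fun n => by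
    rw [div_le_one (by positivity)]
    exact one_le_pow₀ (by norm_num)
  have hSn : ∀ n, ‖S n‖ ≤ ‖a‖ + 1 := by
    intro n
    have e : S n = a - (a - S n) := by abel
    calc ‖S n‖ = ‖a - (a - S n)‖ := by rw [← e]
      _ ≤ ‖a‖ + ‖a - S n‖ := norm_sub_le _ _
      _ ≤ ‖a‖ + 1 := by linarith [hn' n, hpow1 n]
  constructor
  · refine zero_of_le (C := K * (‖a‖ + (‖a‖ + 1))) fun n => ?_
    have e : B a a = B (a - S n) a + B (S n) (a - S n) := by
      rw [h.sub _ ha _ (hSM n) _ ha, h.sub' _ ha _ (hSM n) _ (hSM n), hSS n n]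
      abel
    rw [e]
    have h1 := hK _ (sub_mem ha (hSM n)) _ ha
    have h2 := hK _ (hSM n) _ (sub_mem ha (hSM n))
    have h3 : K * ‖a - S n‖ * ‖a‖ ≤ K * (1 / 2 ^ n) * ‖a‖ := by
      have := hn' n
      gcongr
    have h4 : K * ‖S n‖ * ‖a - S n‖ ≤ K * (‖a‖ + 1) * (1 / 2 ^ n) := by
      have := hn' n
      have := hSn n
      gcongr
    calc ‖B (a - S n) a + B (S n) (a - S n)‖ ≤ ‖B (a - S n) a‖ + ‖B (S n) (a - S n)‖ :=
          norm_add_le _ _
      _ ≤ K * (1 / 2 ^ n) * ‖a‖ + K * (‖a‖ + 1) * (1 / 2 ^ n) := by linarith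
      _ = K * (‖a‖ + (‖a‖ + 1)) * (1 / 2 ^ n) := by ring
  · refine zero_of_le (C := K * ‖(1 : H →L[ℂ] H)‖) fun n => ?_
    have e : B a 1 = B (a - S n) 1 := by
      rw [h.sub _ ha _ (hSM n) _ (one_mem M), hz 1 (pr_one M) (fun i => Commute.one_right _) n]
      abel
    rw [e]
    have h1 := hK _ (sub_mem ha (hSM n)) _ (one_mem M)
    have h3 : K * ‖a - S n‖ * ‖(1 : H →L[ℂ] H)‖ ≤ K * (1 / 2 ^ n) * ‖(1 : H →L[ℂ] H)‖ := by
      have := hn' n
      gcongr
    calc ‖B (a - S n) 1‖ ≤ K * (1 / 2 ^ n) * ‖(1 : H →L[ℂ] H)‖ := by linarith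
      _ = _ := by ring

theorem Bil.sa (h : Bil M B) (h0 : ∀ p, Pr M p → B p p = 0) {K : ℝ}
    (hK0 : 0 ≤ K) (hK : ∀ x ∈ M, ∀ y ∈ M, ‖B x y‖ ≤ K * ‖x‖ * ‖y‖) {x : H →L[ℂ] H} (hx : x ∈ M)
    (hs : star x = x) : B x x = 0 := by
  obtain ⟨c, hc⟩ : ∃ c : ℝ, c = ‖x‖ + 1 := ⟨_, rfl⟩
  have hc0 : 0 < c := by rw [hc]; positivity
  have hle : 0 ≤ c • (1 : H →L[ℂ] H) - x := by
    have e1 := IsSelfAdjoint.le_algebraMap_norm_self (a := x) hs
    rw [Algebra.algebraMap_eq_smul_one] at e1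
    have e2 : c • (1 : H →L[ℂ] H) - x = (‖x‖ • (1 : H →L[ℂ] H) - x) + (1 : ℝ) • 1 := by
      rw [hc, add_smul]; abel
    rw [e2]
    exact add_nonneg (sub_nonneg.2 e1) (smul_nonneg zero_le_one zero_le_one)
  have hge : 0 ≤ x + c • (1 : H →L[ℂ] H) := by
    have e1 := IsSelfAdjoint.neg_algebraMap_norm_le_self (a := x) hs
    rw [Algebra.algebraMap_eq_smul_one] at e1
    have e2 : x + c • (1 : H →L[ℂ] H) = (x - -(‖x‖ • (1 : H →L[ℂ] H))) + (1 : ℝ) • 1 := by
      rw [hc, add_smul]; abel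
    rw [e2]
    exact add_nonneg (sub_nonneg.2 e1) (smul_nonneg zero_le_one zero_le_one)
  obtain ⟨a, ha⟩ : ∃ a : H →L[ℂ] H, a = (1 / (2 * c)) • (x + c • (1 : H →L[ℂ] H)) := ⟨_, rfl⟩
  have ha0 : 0 ≤ a := by
    rw [ha]
    exact smul_nonneg (by positivity) hge
  have ha1 : 0 ≤ (1 : H →L[ℂ] H) - a := by
    have e1 : (1 : H →L[ℂ] H) - a = (1 / (2 * c)) • (c • (1 : H →L[ℂ] H) - x) := by
      have e : 1 / (2 * c) * c = 1 / 2 := by field_simp
      rw [ha, smul_sub, smul_add, smul_smul, e]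
      module
    rw [e1]
    exact smul_nonneg (by positivity) hle
  have haM : a ∈ M := by rw [ha]; exact rsmul_mem _ (add_mem hx (rsmul_mem _ (one_mem M)))
  obtain ⟨h1, h2⟩ := h.pos h0 hK0 hK haM ha0 ha1
  have h3 := h0 1 (pr_one M)
  have h4 : x = ((2 * c : ℝ) : ℂ) • a - ((c : ℝ) : ℂ) • (1 : H →L[ℂ] H) := by
    rw [ha, rsmul_eq, smul_smul, rsmul_eq c (1 : H →L[ℂ] H), ← Complex.ofReal_mul]
    have : 2 * c * (1 / (2 * c)) = 1 := by field_simp
    rw [this]; simp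
  have m1 := smul_mem' ((2 * c : ℝ) : ℂ) haM
  have m2 := smul_mem' (M := M) ((c : ℝ) : ℂ) (one_mem M)
  have h5 : B 1 a = 0 := by rw [h.symm 1 (one_mem M) a haM, h2]
  rw [h4, h.sub _ m1 _ m2 _ (sub_mem m1 m2), h.sub' _ m1 _ m2 _ m1, h.sub' _ m1 _ m2 _ m2,
    h.smul _ _ haM _ m1, h.smul _ _ haM _ m2, h.smul _ _ (one_mem M) _ m1,
    h.smul _ _ (one_mem M) _ m2, h.smul' _ _ haM _ haM, h.smul' _ _ (one_mem M) _ haM,
    h.smul' _ _ haM _ (one_mem M), h.smul' _ _ (one_mem M) _ (one_mem M), h1, h2, h3, h5]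
  simp

/-- JOB Q: a bounded symmetric bilinear map vanishing on the diagonal at projections is zero. -/
theorem lemQ (M : VonNeumannAlgebra H) (B : (H →L[ℂ] H) → (H →L[ℂ] H) → (H →L[ℂ] H))
    (hadd : ∀ x ∈ M, ∀ y ∈ M, ∀ z ∈ M, B (x + y) z = B x z + B y z)
    (hsmul : ∀ c : ℂ, ∀ x ∈ M, ∀ y ∈ M, B (c • x) y = c • B x y)
    (hsymm : ∀ x ∈ M, ∀ y ∈ M, B x y = B y x)
    (K : ℝ) (hK : ∀ x ∈ M, ∀ y ∈ M, ‖B x y‖ ≤ K * ‖x‖ * ‖y‖)
    (h0 : ∀ p, Pr M p → B p p = 0) : ∀ x ∈ M, ∀ y ∈ M, B x y = 0 := by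
  have h : Bil M B := ⟨hadd, hsmul, hsymm⟩
  have hK' : ∀ x ∈ M, ∀ y ∈ M, ‖B x y‖ ≤ |K| * ‖x‖ * ‖y‖ := by
    intro x hx y hy
    refine (hK x hx y hy).trans ?_
    have := le_abs_self K
    gcongr
  have hsa : ∀ x ∈ M, star x = x → ∀ y ∈ M, star y = y → B x y = 0 := by
    intro x hx hxs y hy hys
    have h1 := h.sa h0 (abs_nonneg K) hK' hx hxs
    have h2 := h.sa h0 (abs_nonneg K) hK' hy hys
    have h3 := h.sa h0 (abs_nonneg K) hK' (add_mem hx hy) (by rw [star_add, hxs, hys])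
    rw [h.add _ hx _ hy _ (add_mem hx hy), h.add' _ hx _ hy _ hx, h.add' _ hx _ hy _ hy, h1, h2,
      h.symm y hy x hx] at h3
    have h4 : (2 : ℂ) • B x y = 0 := by
      rw [two_smul]; simpa using h3
    rcases smul_eq_zero.1 h4 with h5 | h5
    · norm_num at h5
    · exact h5
  have hdec : ∀ y ∈ M, ∃ u ∈ M, ∃ v ∈ M, star u = u ∧ star v = v ∧
      y = (1 / 2 : ℂ) • u - (Complex.I / 2) • v := by
    intro y hy
    refine ⟨y + star y, add_mem hy (star_mem hy), Complex.I • (y - star y),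
      smul_mem' _ (sub_mem hy (star_mem hy)), by rw [star_add, star_star, add_comm], ?_, ?_⟩
    · rw [star_smul, star_sub, star_star, ← neg_sub y (star y), smul_neg]
      simp
    · rw [smul_smul]
      have : Complex.I / 2 * Complex.I = -(1 / 2 : ℂ) := by
        rw [div_mul_eq_mul_div, Complex.I_mul_I]; ring
      rw [this, neg_smul, sub_neg_eq_add, ← smul_add]
      have e4 : y + star y + (y - star y) = (2 : ℂ) • y := by rw [two_smul]; abel
      rw [e4, smul_smul]; norm_num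
  intro x hx y hy
  obtain ⟨u, hu, v, hv, hus, hvs, rfl⟩ := hdec x hx
  obtain ⟨u', hu', v', hv', hus', hvs', rfl⟩ := hdec y hy
  have m1 := smul_mem' (1 / 2 : ℂ) hu
  have m2 := smul_mem' (Complex.I / 2) hv
  have m1' := smul_mem' (1 / 2 : ℂ) hu'
  have m2' := smul_mem' (Complex.I / 2) hv'
  rw [h.sub _ m1 _ m2 _ hy, h.sub' _ m1' _ m2' _ m1, h.sub' _ m1' _ m2' _ m2,
    h.smul _ _ hu _ m1', h.smul _ _ hu _ m2', h.smul _ _ hv _ m1', h.smul _ _ hv _ m2',
    h.smul' _ _ hu' _ hu, h.smul' _ _ hv' _ hu, h.smul' _ _ hu' _ hv, h.smul' _ _ hv' _ hv,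
    hsa u hu hus u' hu' hus', hsa u hu hus v' hv' hvs', hsa v hv hvs u' hu' hus',
    hsa v hv hvs v' hv' hvs']
  simp

end Pool.Agent.S03959.SBQ
end

section
open ContinuousLinearMap
namespace Pool.Agent.S03959.SBQ

open Pool.Agent.S03959.VNb Pool.Agent.S03959.VNe
open Pool.Agent.S03959.SB (Tr tau_norm)

variable {H : Type*} [NormedAddCommGroup H] [InnerProductSpace ℂ H] [CompleteSpace H]
variable {M : VonNeumannAlgebra H} {t : (H →L[ℂ] H) → ℂ}

theorem one_norm_le : ‖(1 : H →L[ℂ] H)‖ ≤ 1 := ContinuousLinearMap.norm_id_le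

/-- the quadratic relation for all elements -/
theorem rel_all (h : Tr M t)
    (T : (H →L[ℂ] H) → (H →L[ℂ] H))
    (hadd : ∀ x ∈ M, ∀ y ∈ M, T (x + y) = T x + T y)
    (hsmul : ∀ c : ℂ, ∀ x ∈ M, T (c • x) = c • T x)
    (K : ℝ) (hK : ∀ x ∈ M, ‖T x‖ ≤ K * ‖x‖) (a g : ℂ)
    (hG : ∀ p, Pr M p → T p * T p = (2 * t p + g * (1 - 2 * t p)) • T p +
      (a * t p + (1 - a) * t p ^ 2 - (2 * t p + g * (1 - 2 * t p)) * t p) • (1 : H →L[ℂ] H)) :
    ∃ D : (H →L[ℂ] H) → (H →L[ℂ] H), (∀ x, D x = T x - t x • (1 : H →L[ℂ] H)) ∧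
      ∀ x ∈ M, D x * D x = g • D (x * x) - (2 * g * t x) • D x +
        (a * (t (x * x) - t x ^ 2)) • (1 : H →L[ℂ] H) := by
  obtain ⟨D, hD⟩ : ∃ D : (H →L[ℂ] H) → (H →L[ℂ] H), ∀ x, D x = T x - t x • (1 : H →L[ℂ] H) :=
    ⟨_, fun _ => rfl⟩
  refine ⟨D, hD, ?_⟩
  have Dadd : ∀ x ∈ M, ∀ y ∈ M, D (x + y) = D x + D y := by
    intro x hx y hy
    rw [hD, hD, hD, hadd x hx y hy, h.add x hx y hy]
    module
  have Dsmul : ∀ c : ℂ, ∀ x ∈ M, D (c • x) = c • D x := by
    intro c x hx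
    rw [hD, hD, hsmul c x hx, h.smul c x hx]
    module
  have hK1 : ∀ x ∈ M, ‖D x‖ ≤ (|K| + 1) * ‖x‖ := by
    intro x hx
    rw [hD]
    have h1 := hK x hx
    have h2 := tau_norm h hx
    have h3 : ‖t x • (1 : H →L[ℂ] H)‖ ≤ ‖x‖ * 1 := by
      rw [norm_smul]
      have := one_norm_le (H := H)
      gcongr
    have h4 : K * ‖x‖ ≤ |K| * ‖x‖ := by
      have := le_abs_self K
      gcongr
    calc ‖T x - t x • (1 : H →L[ℂ] H)‖ ≤ ‖T x‖ + ‖t x • (1 : H →L[ℂ] H)‖ := norm_sub_le _ _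
      _ ≤ (|K| + 1) * ‖x‖ := by linarith
  have hK0 : 0 ≤ |K| + 1 := by positivity
  -- the bilinear map
  obtain ⟨B, hB⟩ : ∃ B : (H →L[ℂ] H) → (H →L[ℂ] H) → (H →L[ℂ] H), ∀ x y, B x y =
      (1 / 2 : ℂ) • (D x * D y + D y * D x) - (g / 2) • D (x * y + y * x) + (g * t x) • D y +
        (g * t y) • D x - (a * (1 / 2 * t (x * y + y * x) - t x * t y)) • (1 : H →L[ℂ] H) :=
    ⟨_, fun _ _ => rfl⟩
  have key := lemQ M B
    (by
      intro x hx y hy z hz
      have m1 := mul_mem hx hz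
      have m2 := mul_mem hy hz
      have m3 := mul_mem hz hx
      have m4 := mul_mem hz hy
      have e : (x + y) * z + z * (x + y) = (x * z + z * x) + (y * z + z * y) := by
        rw [add_mul, mul_add]; abel
      rw [hB, hB, hB, e, Dadd _ (add_mem m1 m3) _ (add_mem m2 m4), h.add _ (add_mem m1 m3) _
        (add_mem m2 m4), Dadd x hx y hy, h.add x hx y hy, add_mul (D x), mul_add (D z)]
      module)
    (by
      intro c x hx y hy
      have m1 := mul_mem hx hy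
      have m2 := mul_mem hy hx
      have e : (c • x) * y + y * (c • x) = c • (x * y + y * x) := by
        rw [smul_mul_assoc, mul_smul_comm, smul_add]
      rw [hB, hB, e, Dsmul _ _ (add_mem m1 m2), h.smul _ _ (add_mem m1 m2), Dsmul c x hx,
        h.smul c x hx, smul_mul_assoc, mul_smul_comm]
      module)
    (by
      intro x hx y hy
      rw [hB, hB, add_comm (x * y), add_comm (D x * D y), mul_comm (t x) (t y)]
      module)
    ((|K| + 1) * (|K| + 1) + 3 * (‖g‖ * (|K| + 1)) + 2 * ‖a‖)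
    (by
      intro x hx y hy
      have m1 := mul_mem hx hy
      have m2 := mul_mem hy hx
      have b1 := hK1 x hx
      have b2 := hK1 y hy
      have b3 := hK1 _ (add_mem m1 m2)
      have b4 := tau_norm h hx
      have b5 := tau_norm h hy
      have b6 := tau_norm h (add_mem m1 m2)
      have nx := norm_nonneg x
      have ny := norm_nonneg y
      have b7 : ‖x * y + y * x‖ ≤ 2 * (‖x‖ * ‖y‖) := by
        have c1 := norm_add_le (x * y) (y * x)
        have c2 := norm_mul_le x y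
        have c3 := norm_mul_le y x
        linarith [mul_comm ‖x‖ ‖y‖]
      have t1 : ‖(1 / 2 : ℂ) • (D x * D y + D y * D x)‖ ≤ (|K| + 1) * (|K| + 1) * (‖x‖ * ‖y‖) := by
        rw [norm_smul]
        have c1 := norm_add_le (D x * D y) (D y * D x)
        have c2 := norm_mul_le (D x) (D y)
        have c3 := norm_mul_le (D y) (D x)
        have c4 : ‖D x‖ * ‖D y‖ ≤ ((|K| + 1) * ‖x‖) * ((|K| + 1) * ‖y‖) := by gcongr
        have c5 : ‖(1 / 2 : ℂ)‖ = 1 / 2 := by norm_num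
        rw [c5]
        nlinarith [mul_comm ‖D x‖ ‖D y‖]
      have t2 : ‖(g / 2) • D (x * y + y * x)‖ ≤ ‖g‖ * (|K| + 1) * (‖x‖ * ‖y‖) := by
        rw [norm_smul]
        have c5 : ‖(g / 2 : ℂ)‖ = ‖g‖ / 2 := by rw [norm_div]; norm_num
        rw [c5]
        have c6 : ‖D (x * y + y * x)‖ ≤ (|K| + 1) * (2 * (‖x‖ * ‖y‖)) := by
          refine b3.trans ?_
          gcongr
        calc ‖g‖ / 2 * ‖D (x * y + y * x)‖ ≤ ‖g‖ / 2 * ((|K| + 1) * (2 * (‖x‖ * ‖y‖))) := by
              gcongr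
          _ = _ := by ring
      have t3 : ‖(g * t x) • D y‖ ≤ ‖g‖ * (|K| + 1) * (‖x‖ * ‖y‖) := by
        rw [norm_smul, norm_mul]
        calc ‖g‖ * ‖t x‖ * ‖D y‖ ≤ ‖g‖ * ‖x‖ * ((|K| + 1) * ‖y‖) := by gcongr
          _ = _ := by ring
      have t4 : ‖(g * t y) • D x‖ ≤ ‖g‖ * (|K| + 1) * (‖x‖ * ‖y‖) := by
        rw [norm_smul, norm_mul]
        calc ‖g‖ * ‖t y‖ * ‖D x‖ ≤ ‖g‖ * ‖y‖ * ((|K| + 1) * ‖x‖) := by gcongr
          _ = _ := by ring
      have t5 : ‖(a * (1 / 2 * t (x * y + y * x) - t x * t y)) • (1 : H →L[ℂ] H)‖ ≤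
          2 * ‖a‖ * (‖x‖ * ‖y‖) := by
        rw [norm_smul, norm_mul]
        have c1 : ‖1 / 2 * t (x * y + y * x) - t x * t y‖ ≤ 2 * (‖x‖ * ‖y‖) := by
          have c2 := norm_sub_le (1 / 2 * t (x * y + y * x)) (t x * t y)
          have c3 : ‖1 / 2 * t (x * y + y * x)‖ ≤ ‖x‖ * ‖y‖ := by
            rw [norm_mul]
            have c5 : ‖(1 / 2 : ℂ)‖ = 1 / 2 := by norm_num
            rw [c5]
            linarith
          have c4 : ‖t x * t y‖ ≤ ‖x‖ * ‖y‖ := by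
            rw [norm_mul]
            gcongr
          linarith
        calc ‖a‖ * ‖1 / 2 * t (x * y + y * x) - t x * t y‖ * ‖(1 : H →L[ℂ] H)‖ ≤
            ‖a‖ * (2 * (‖x‖ * ‖y‖)) * 1 := by
              have := one_norm_le (H := H)
              gcongr
          _ = _ := by ring
      rw [hB]
      have s1 := norm_sub_le ((1 / 2 : ℂ) • (D x * D y + D y * D x) - (g / 2) • D (x * y + y * x) +
        (g * t x) • D y + (g * t y) • D x)
        ((a * (1 / 2 * t (x * y + y * x) - t x * t y)) • (1 : H →L[ℂ] H))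
      have s2 := norm_add_le ((1 / 2 : ℂ) • (D x * D y + D y * D x) -
        (g / 2) • D (x * y + y * x) + (g * t x) • D y) ((g * t y) • D x)
      have s3 := norm_add_le ((1 / 2 : ℂ) • (D x * D y + D y * D x) -
        (g / 2) • D (x * y + y * x)) ((g * t x) • D y)
      have s4 := norm_sub_le ((1 / 2 : ℂ) • (D x * D y + D y * D x))
        ((g / 2) • D (x * y + y * x))
      have e : ((|K| + 1) * (|K| + 1) + 3 * (‖g‖ * (|K| + 1)) + 2 * ‖a‖) * ‖x‖ * ‖y‖ =
        (|K| + 1) * (|K| + 1) * (‖x‖ * ‖y‖) + ‖g‖ * (|K| + 1) * (‖x‖ * ‖y‖) +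
        ‖g‖ * (|K| + 1) * (‖x‖ * ‖y‖) + ‖g‖ * (|K| + 1) * (‖x‖ * ‖y‖) +
        2 * ‖a‖ * (‖x‖ * ‖y‖) := by ring
      rw [e]
      linarith)
    (by
      intro p hp
      have e1 : D (p + p) = (2 : ℂ) • D p := by rw [Dadd _ hp.1 _ hp.1, two_smul]
      have e2 : t (p + p) = 2 * t p := by rw [h.add _ hp.1 _ hp.1, two_mul]
      have e3 : D p * D p = T p * T p - (2 * t p) • T p + (t p ^ 2) • (1 : H →L[ℂ] H) := by
        rw [hD, sub_mul, mul_sub, mul_sub, mul_smul_comm, smul_mul_assoc, smul_mul_assoc,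
          mul_smul_comm, mul_one, one_mul, mul_one, smul_smul]
        module
      rw [hB, hp.2.1, e1, e2, e3, hG p hp, hD]
      module)
  intro x hx
  have h1 := key x hx x hx
  have m1 := mul_mem hx hx
  have e1 : D (x * x + x * x) = (2 : ℂ) • D (x * x) := by rw [Dadd _ m1 _ m1, two_smul]
  have e2 : t (x * x + x * x) = 2 * t (x * x) := by rw [h.add _ m1 _ m1, two_mul]
  rw [hB, e1, e2] at h1
  have h2 : D x * D x - (g • D (x * x) - (2 * g * t x) • D x +
        (a * (t (x * x) - t x ^ 2)) • (1 : H →L[ℂ] H)) = 0 := by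
    rw [← h1]
    module
  exact sub_eq_zero.1 h2

/-- in the degenerate case all traceless squares would be scalar -/
theorem no_scalar_squares (h : Tr M t) (hall : ∀ y ∈ M, t y = 0 → ∃ c : ℂ, y * y = c • (1 : H →L[ℂ] H))
    (hpq : ∃ p q, Pr M p ∧ Pr M q ∧ p * q = 0 ∧ p ≠ 0 ∧ q ≠ 0 ∧ p + q ≠ 1) : False := by
  obtain ⟨p, q, hp, hq, hpq0, hp0, hq0, hne⟩ := hpq
  have hqp : q * p = 0 := by
    have := congrArg star hpq0
    rwa [star_mul, hp.2.2, hq.2.2, star_zero] at this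
  obtain ⟨τ, hτ⟩ : ∃ τ : ℂ, τ = t (p + (2 : ℂ) • q) := ⟨_, rfl⟩
  have hyM : p + (2 : ℂ) • q ∈ M := add_mem hp.1 (smul_mem' _ hq.1)
  have h1M : (1 : H →L[ℂ] H) ∈ M := one_mem M
  obtain ⟨c, hc⟩ := hall (p + (2 : ℂ) • q - τ • (1 : H →L[ℂ] H))
    (sub_mem hyM (smul_mem' _ h1M))
    (by
      rw [sub_eq_add_neg, ← neg_smul, h.add _ hyM _ (smul_mem' _ h1M), h.smul _ _ h1M, h.one, hτ]
      ring)
  have e1 : (p + (2 : ℂ) • q - τ • (1 : H →L[ℂ] H)) * (p + (2 : ℂ) • q - τ • (1 : H →L[ℂ] H)) =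
      (1 - 2 * τ) • p + (4 - 4 * τ) • q + (τ ^ 2) • (1 : H →L[ℂ] H) := by
    simp only [sub_mul, mul_sub, add_mul, mul_add, smul_mul_assoc, mul_smul_comm, hp.2.1, hq.2.1,
      hpq0, hqp, mul_one, one_mul, smul_zero]
    module
  rw [e1] at hc
  -- multiply by the remainder
  have hr0 : (1 : H →L[ℂ] H) - p - q ≠ 0 := by
    intro h0
    apply hne
    have : (1 : H →L[ℂ] H) - (p + q) = 0 := by rw [← h0]; abel
    exact (sub_eq_zero.1 this).symm
  have e2 : (c - τ ^ 2) • ((1 : H →L[ℂ] H) - p - q) = 0 := by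
    have := congrArg (fun z => z * ((1 : H →L[ℂ] H) - p - q)) hc
    simp only [add_mul, mul_sub, mul_one, smul_mul_assoc, hp.2.1, hq.2.1, hpq0, hqp, one_mul] at this
    have h2 : (c - τ ^ 2) • ((1 : H →L[ℂ] H) - p - q) =
      -(((1 - 2 * τ) • p + (4 - 4 * τ) • q + τ ^ 2 • (1 : H →L[ℂ] H) -
          ((1 - 2 * τ) • p + (4 - 4 * τ) • (0 : H →L[ℂ] H) + τ ^ 2 • p) -
          ((1 - 2 * τ) • (0 : H →L[ℂ] H) + (4 - 4 * τ) • q + τ ^ 2 • q)) -
        (c • (1 : H →L[ℂ] H) - c • p - c • q)) := by module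
    rw [h2, this, sub_self, neg_zero]
  have e3 : c - τ ^ 2 = 0 := (smul_eq_zero.1 e2).resolve_right hr0
  have e4 : (1 - 2 * τ - (c - τ ^ 2)) • p = 0 := by
    have := congrArg (fun z => z * p) hc
    simp only [add_mul, smul_mul_assoc, hp.2.1, hqp, one_mul, smul_zero, add_zero] at this
    have h2 : (1 - 2 * τ - (c - τ ^ 2)) • p = ((1 - 2 * τ) • p + τ ^ 2 • p) - c • p := by module
    rw [h2, this, sub_self]
  have e5 : (4 - 4 * τ - (c - τ ^ 2)) • q = 0 := by
    have := congrArg (fun z => z * q) hc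
    simp only [add_mul, smul_mul_assoc, hq.2.1, hpq0, one_mul, smul_zero, zero_add] at this
    have h2 : (4 - 4 * τ - (c - τ ^ 2)) • q = ((4 - 4 * τ) • q + τ ^ 2 • q) - c • q := by module
    rw [h2, this, sub_self]
  have e6 := (smul_eq_zero.1 e4).resolve_right hp0
  have e7 := (smul_eq_zero.1 e5).resolve_right hq0
  rw [e3] at e6 e7
  have e8 : (2 : ℂ) = 0 := by linear_combination e7 - 2 * e6
  norm_num at e8

/-- JOB F: the end of the proof. -/
theorem final {M : VonNeumannAlgebra H} {t : (H →L[ℂ] H) → ℂ} (h : Tr M t)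
    (T : (H →L[ℂ] H) → (H →L[ℂ] H)) (hTM : ∀ x ∈ M, T x ∈ M)
    (hadd : ∀ x ∈ M, ∀ y ∈ M, T (x + y) = T x + T y)
    (hsmul : ∀ c : ℂ, ∀ x ∈ M, T (c • x) = c • T x) (hT1 : T 1 = 1)
    (hsurj : ∀ y ∈ M, ∃ x ∈ M, T x = y) (hinj : ∀ x ∈ M, T x = 0 → x = 0)
    (K : ℝ) (hK : ∀ x ∈ M, ‖T x‖ ≤ K * ‖x‖) (htT : ∀ x ∈ M, t (T x) = t x)
    (hfaith : ∀ p, Pr M p → t p = 0 → p = 0) (a g : ℂ)
    (hG : ∀ p, Pr M p → T p * T p = (2 * t p + g * (1 - 2 * t p)) • T p +
      (a * t p + (1 - a) * t p ^ 2 - (2 * t p + g * (1 - 2 * t p)) * t p) • (1 : H →L[ℂ] H))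
    (hpq : ∃ p q, Pr M p ∧ Pr M q ∧ p * q = 0 ∧ p ≠ 0 ∧ q ≠ 0 ∧ p + q ≠ 1) :
    ∃ S : (H →L[ℂ] H) → (H →L[ℂ] H),
      Set.BijOn S (M : Set (H →L[ℂ] H)) (M : Set (H →L[ℂ] H)) ∧
      (∀ x ∈ M, ∀ y ∈ M, S (x + y) = S x + S y) ∧
      (∀ c : ℂ, ∀ x ∈ M, S (c • x) = c • S x) ∧
      (∀ x ∈ M, S (x * x) = S x * S x) ∧
      ∃ γ : ℂ, γ ≠ 0 ∧
        ∀ x ∈ M, T x = γ • S x + (1 - γ) • algebraMap ℂ (H →L[ℂ] H) (t x) := by
  obtain ⟨D, hD, hrel⟩ := rel_all h T hadd hsmul K hK a g hG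
  have h1M : (1 : H →L[ℂ] H) ∈ M := one_mem M
  have Dadd : ∀ x ∈ M, ∀ y ∈ M, D (x + y) = D x + D y := by
    intro x hx y hy
    rw [hD, hD, hD, hadd x hx y hy, h.add x hx y hy]
    module
  have Dsmul : ∀ c : ℂ, ∀ x ∈ M, D (c • x) = c • D x := by
    intro c x hx
    rw [hD, hD, hsmul c x hx, h.smul c x hx]
    module
  have DM : ∀ x ∈ M, D x ∈ M := by
    intro x hx
    rw [hD]
    exact sub_mem (hTM x hx) (smul_mem' _ h1M)
  have Dt : ∀ x ∈ M, t (D x) = 0 := by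
    intro x hx
    rw [hD, h.sub (hTM x hx) (smul_mem' _ h1M), h.smul _ _ h1M, h.one, htT x hx]
    ring
  -- g is not zero
  have hg0 : g ≠ 0 := by
    rintro rfl
    refine no_scalar_squares h ?_ hpq
    intro y hy hty
    obtain ⟨x, hx, rfl⟩ := hsurj y hy
    have htx : t x = 0 := by rw [← htT x hx, hty]
    have hDx : D x = T x := by rw [hD, htx]; module
    refine ⟨a * (t (x * x) - t x ^ 2), ?_⟩
    rw [← hDx, hrel x hx]
    module
  obtain ⟨S, hS⟩ : ∃ S : (H →L[ℂ] H) → (H →L[ℂ] H), ∀ x, S x = t x • (1 : H →L[ℂ] H) + g⁻¹ • D x :=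
    ⟨_, fun _ => rfl⟩
  have SM : ∀ x ∈ M, S x ∈ M := by
    intro x hx
    rw [hS]
    exact add_mem (smul_mem' _ h1M) (smul_mem' _ (DM x hx))
  have Sadd : ∀ x ∈ M, ∀ y ∈ M, S (x + y) = S x + S y := by
    intro x hx y hy
    rw [hS, hS, hS, h.add x hx y hy, Dadd x hx y hy]
    module
  have Ssmul : ∀ c : ℂ, ∀ x ∈ M, S (c • x) = c • S x := by
    intro c x hx
    rw [hS, hS, h.smul c x hx, Dsmul c x hx]
    module
  have St : ∀ x ∈ M, t (S x) = t x := by
    intro x hx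
    rw [hS, h.add _ (smul_mem' _ h1M) _ (smul_mem' _ (DM x hx)), h.smul _ _ h1M, h.one,
      h.smul _ _ (DM x hx), Dt x hx]
    ring
  have S1 : S 1 = 1 := by
    rw [hS, hD, hT1, h.one]
    module
  have hgg : g * g⁻¹ = 1 := mul_inv_cancel₀ hg0
  have TS : ∀ x ∈ M, T x = g • S x + ((1 - g) * t x) • (1 : H →L[ℂ] H) := by
    intro x hx
    rw [hS, smul_add, smul_smul, smul_smul, hgg, hD]
    module
  have Sinj : ∀ x ∈ M, S x = 0 → x = 0 := by
    intro x hx h0
    have e1 : t x = 0 := by rw [← St x hx, h0, h.zero]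
    apply hinj x hx
    rw [TS x hx, h0, e1]
    module
  obtain ⟨eps, heps⟩ : ∃ eps : ℂ, eps = a * g⁻¹ ^ 2 - 1 := ⟨_, rfl⟩
  have Ssq : ∀ x ∈ M, S x * S x = S (x * x) + (eps * (t (x * x) - t x ^ 2)) • (1 : H →L[ℂ] H) := by
    intro x hx
    have e0 : S x * S x = (t x ^ 2) • (1 : H →L[ℂ] H) + (2 * t x * g⁻¹) • D x +
        (g⁻¹ * g⁻¹) • (D x * D x) := by
      rw [hS]
      simp only [add_mul, mul_add, smul_mul_assoc, mul_smul_comm, one_mul, mul_one]
      module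
    have e1 : g⁻¹ * g⁻¹ * g = g⁻¹ := by
      rw [mul_assoc, mul_comm g⁻¹ g, hgg, mul_one]
    have e2 : g⁻¹ * g⁻¹ * (2 * g * t x) = 2 * t x * g⁻¹ := by
      linear_combination (2 * t x) * e1
    rw [e0, hrel x hx, hS (x * x), smul_add, smul_sub, smul_smul, smul_smul, smul_smul, e1, e2,
      heps]
    module
  have heps0 : eps = 0 := by
    by_contra hne
    obtain ⟨p, q, hp, hq, hpq0, hp0, hq0, hpq1⟩ := hpq
    have hqp : q * p = 0 := by
      have := congrArg star hpq0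
      rwa [star_mul, hp.2.2, hq.2.2, star_zero] at this
    obtain ⟨s, hs⟩ : ∃ s, s = t p := ⟨_, rfl⟩
    obtain ⟨u, hu⟩ : ∃ u, u = t q := ⟨_, rfl⟩
    obtain ⟨P, hP⟩ : ∃ P, P = S p := ⟨_, rfl⟩
    obtain ⟨Q, hQ⟩ : ∃ Q, Q = S q := ⟨_, rfl⟩
    have P2 : P * P = P + (eps * (s - s ^ 2)) • (1 : H →L[ℂ] H) := by
      rw [hP, Ssq p hp.1, hp.2.1, hs]
    have Q2 : Q * Q = Q + (eps * (u - u ^ 2)) • (1 : H →L[ℂ] H) := by
      rw [hQ, Ssq q hq.1, hq.2.1, hu]
    have hpq' := pr_add hp hq hpq0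
    have PQ2 : (P + Q) * (P + Q) = P + Q + (eps * ((s + u) - (s + u) ^ 2)) • (1 : H →L[ℂ] H) := by
      have := Ssq (p + q) hpq'.1
      rw [hpq'.2.1, Sadd p hp.1 q hq.1, h.add p hp.1 q hq.1, ← hP, ← hQ, ← hs, ← hu] at this
      exact this
    have anti : P * Q + Q * P = (-(2 * eps * s * u)) • (1 : H →L[ℂ] H) := by
      have e1 : P * Q + Q * P = (P + Q) * (P + Q) - P * P - Q * Q := by
        rw [add_mul, mul_add, mul_add]; abel
      rw [e1, PQ2, P2, Q2]
      module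
    have hQP : Q * P = (-(2 * eps * s * u)) • (1 : H →L[ℂ] H) - P * Q := by
      rw [← anti]; abel
    have comm : P * Q = Q * P := by
      have e1 : P * P * Q = (-(2 * eps * s * u)) • P - P * Q * P := by
        rw [mul_assoc P Q P, hQP, mul_sub, mul_smul_comm, mul_one, ← mul_assoc]
        abel
      have e2 : Q * (P * P) = (-(2 * eps * s * u)) • P - P * Q * P := by
        rw [← mul_assoc, hQP, sub_mul, smul_mul_assoc, one_mul]
      have e3 : P * P * Q = Q * (P * P) := by rw [e1, e2]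
      rw [P2, add_mul, mul_add, smul_mul_assoc, one_mul, mul_smul_comm, mul_one] at e3
      exact add_right_cancel e3
    have PQ : P * Q = (-(eps * s * u)) • (1 : H →L[ℂ] H) := by
      rw [← comm] at anti
      have e1 : P * Q = (1 / 2 : ℂ) • (P * Q + P * Q) := by module
      rw [e1, anti]
      module
    have e4 : P * (P * Q) = (-(eps * s * u)) • P := by rw [PQ, mul_smul_comm, mul_one]
    have e5 : P * (P * Q) = (-(eps * s * u)) • (1 : H →L[ℂ] H) + (eps * (s - s ^ 2)) • Q := by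
      rw [← mul_assoc, P2, add_mul, PQ, smul_mul_assoc, one_mul]
    have hs0 : s ≠ 0 := by
      rw [hs]
      intro h0
      exact hp0 (hfaith p hp h0)
    have e6 : (eps * s) • (u • P + (1 - s) • Q - u • (1 : H →L[ℂ] H)) = 0 := by
      have e7 : (eps * s) • (u • P + (1 - s) • Q - u • (1 : H →L[ℂ] H)) =
        ((-(eps * s * u)) • (1 : H →L[ℂ] H) + (eps * (s - s ^ 2)) • Q) - (-(eps * s * u)) • P := by
        module
      rw [e7, ← e5, e4, sub_self]
    have e8 : u • P + (1 - s) • Q - u • (1 : H →L[ℂ] H) = 0 :=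
      (smul_eq_zero.1 e6).resolve_left (mul_ne_zero hne hs0)
    have m1 := smul_mem' u hp.1
    have m2 := smul_mem' (1 - s) hq.1
    have m3 := smul_mem' (-u) h1M
    have e9 : S (u • p + (1 - s) • q + (-u) • (1 : H →L[ℂ] H)) = 0 := by
      rw [Sadd _ (add_mem m1 m2) _ m3, Sadd _ m1 _ m2, Ssmul _ _ hp.1, Ssmul _ _ hq.1,
        Ssmul _ _ h1M, S1, ← hP, ← hQ, ← e8]
      module
    have e10 := Sinj _ (add_mem (add_mem m1 m2) m3) e9
    have e11 : (1 - s - u) • q = 0 := by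
      have := congrArg (fun z => z * q) e10
      simp only [add_mul, smul_mul_assoc, hpq0, hq.2.1, one_mul, zero_mul, smul_zero,
        zero_add] at this
      rw [← this]
      module
    have e12 : 1 - s - u = 0 := (smul_eq_zero.1 e11).resolve_right hq0
    have e13 : Pr M (1 - (p + q)) := by
      refine pr_sub hpq' (pr_one M) ?_
      rw [one_mul]
    have e14 : t (1 - (p + q)) = 0 := by
      rw [h.sub h1M hpq'.1, h.add p hp.1 q hq.1, h.one, ← hs, ← hu, ← e12]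
      ring
    have e15 := hfaith _ e13 e14
    exact hpq1 (sub_eq_zero.1 e15).symm
  refine ⟨S, ⟨SM, ?_, ?_⟩, Sadd, Ssmul, ?_, g, hg0, ?_⟩
  · intro x hx y hy hxy
    have m := smul_mem' (-1 : ℂ) hy
    have e1 : S (x + (-1 : ℂ) • y) = 0 := by
      rw [Sadd x hx _ m, Ssmul _ y hy]
      have : S x = S y := hxy
      rw [this]
      module
    have e2 := Sinj _ (add_mem hx m) e1
    have e3 : x - y = 0 := by rw [← e2]; module
    exact sub_eq_zero.1 e3
  · intro y hy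
    have hyM : y ∈ M := hy
    obtain ⟨x, hx, hxy⟩ := hsurj (g • y + ((1 - g) * t y) • (1 : H →L[ℂ] H))
      (add_mem (smul_mem' _ hyM) (smul_mem' _ h1M))
    refine ⟨x, hx, ?_⟩
    have e1 : t x = t y := by
      rw [← htT x hx, hxy, h.add _ (smul_mem' _ hyM) _ (smul_mem' _ h1M), h.smul _ _ hyM,
        h.smul _ _ h1M, h.one]
      ring
    have e2 := TS x hx
    rw [hxy, e1] at e2
    have e3 : g • y = g • S x := add_right_cancel e2
    have e4 := congrArg (fun z => g⁻¹ • z) e3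
    simp only [smul_smul, inv_mul_cancel₀ hg0, one_smul] at e4
    exact e4.symm
  · intro x hx
    rw [Ssq x hx, heps0]
    module
  · intro x hx
    rw [TS x hx, Algebra.algebraMap_eq_smul_one, smul_smul]

end Pool.Agent.S03959.SBQ
end

namespace Pool.Agent.S03959

/-- For every II₁ factor with its tracial state τ, every unital surjective spectrally bounded linear map T has the form T x = γ S x + (1−γ) τ(x)·1 for some Jordan automorphism S and some nonzero complex γ. -/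
theorem result :
    ∀ (H : Type) [NormedAddCommGroup H] [InnerProductSpace ℂ H] [CompleteSpace H]
      (M : VonNeumannAlgebra H),
      (∀ z ∈ M, (∀ x ∈ M, z * x = x * z) → ∃ c : ℂ, z = algebraMap ℂ (H →L[ℂ] H) c) →
      (∀ u ∈ M, star u * u = 1 → u * star u = 1) →
      (¬ ∃ s : Finset (H →L[ℂ] H), ∀ x ∈ M, x ∈ Submodule.span ℂ (s : Set (H →L[ℂ] H))) →
      ∀ τ : (H →L[ℂ] H) → ℂ,
        (∀ x ∈ M, ∀ y ∈ M, τ (x + y) = τ x + τ y) →
        (∀ c : ℂ, ∀ x ∈ M, τ (c • x) = c * τ x) →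
        (∀ x ∈ M, 0 ≤ (τ (star x * x)).re ∧ (τ (star x * x)).im = 0) →
        τ 1 = 1 →
        (∀ x ∈ M, ∀ y ∈ M, τ (x * y) = τ (y * x)) →
      ∀ T : (H →L[ℂ] H) → (H →L[ℂ] H),
        (∀ x ∈ M, T x ∈ M) →
        (∀ x ∈ M, ∀ y ∈ M, T (x + y) = T x + T y) →
        (∀ c : ℂ, ∀ x ∈ M, T (c • x) = c • T x) →
        T 1 = 1 →
        (∀ y ∈ M, ∃ x ∈ M, T x = y) →
        (∃ C : NNReal, ∀ x ∈ M,
            spectralRadius ℂ (T x) ≤ (C : ENNReal) * spectralRadius ℂ x) →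
        ∃ S : (H →L[ℂ] H) → (H →L[ℂ] H),
          Set.BijOn S (M : Set (H →L[ℂ] H)) (M : Set (H →L[ℂ] H)) ∧
          (∀ x ∈ M, ∀ y ∈ M, S (x + y) = S x + S y) ∧
          (∀ c : ℂ, ∀ x ∈ M, S (c • x) = c • S x) ∧
          (∀ x ∈ M, S (x * x) = S x * S x) ∧
          ∃ γ : ℂ, γ ≠ 0 ∧
            ∀ x ∈ M, T x = γ • S x + (1 - γ) • algebraMap ℂ (H →L[ℂ] H) (τ x) := by
  intro H _ _ _ M hM hfin hinf τ h1 h2 h3 h4 h5 T hTM hadd hsmul hT1 hsurj hC
  obtain ⟨C, hC⟩ := hC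
  have h : Pool.Agent.S03959.SB.Tr M τ := ⟨h1, h2, h3, h4, h5⟩
  have hT : Pool.Agent.S03959.SB.SBdd M T C := ⟨hTM, hadd, hsmul, hC⟩
  obtain ⟨a, ha, hform, hinj, hE3⟩ :=
    Pool.Agent.S03959.VNj.facts hM hfin hinf h hT hT1 hsurj
  have htT := Pool.Agent.S03959.VNj.trT hM hfin hinf h hT hT1
  have hnd : ∀ z ∈ M, (∀ w ∈ M, τ (z * T w) = 0) → z = 0 := by
    intro z hz h0
    refine Pool.Agent.S03959.VNh.nondeg hM hfin h hz fun w hw => ?_
    obtain ⟨x, hx, rfl⟩ := hsurj w hw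
    exact h0 x hx
  obtain ⟨K, hK⟩ := Pool.Agent.S03959.VNj.bounded h hTM hadd hsmul hnd a hform
  have hfaith : ∀ p, Pool.Agent.S03959.VNb.Pr M p → τ p = 0 → p = 0 := fun p hp h0 =>
    Pool.Agent.S03959.VNh.faith hM hfin h hp h0
  obtain ⟨g, hg⟩ := Pool.Agent.S03959.VNk.one_g h T hTM hadd hsmul hT1 hinj htT hfaith a ha
    hform hE3 (fun p q hp hq hp0 hq0 =>
      Pool.Agent.S03959.VNh.connect hM hfin hinf h hp hq hp0 hq0)
    (fun p hp hp0 => Pool.Agent.S03959.VNh.small hM hfin hinf h hp hp0 (by norm_num))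
  exact Pool.Agent.S03959.SBQ.final h T hTM hadd hsmul hT1 hsurj hinj K hK htT hfaith a g hg
    (Pool.Agent.S03959.VNj.exists_pair hM hfin hinf h)

end Pool.Agent.S03959
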