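import Pool.Statements.S03966
import Pool.Agent.Helper66.BergI

set_option autoImplicit false
open Pool Pool.MP_c1f8f0_an

namespace Pool.Agent.S03966

/-- The negation of the preceding statement: For all nonnegative subharmonic weights w, σ on the unit disc, f ↦ Bergman projection of fσ is bounded L²(σ)→L²(w) iff f ↦ positive Bergman operator of ∣f∣σ is, both tested on bounded f supported in a smaller disc. -/
theorem result :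
    ¬ (∀ w σ : ℂ → ℝ,
    ((∀ z ∈ Metric.ball (0:ℂ) 1, 0 ≤ w z) ∧ UpperSemicontinuousOn w (Metric.ball (0:ℂ) 1) ∧
      ∀ z : ℂ, ∀ r : ℝ, 0 < r → Metric.closedBall z r ⊆ Metric.ball (0:ℂ) 1 →
        w z ≤ (2 * Real.pi)⁻¹ *
          ∫ θ in (0:ℝ)..2 * Real.pi, w (z + (r:ℂ) * Complex.exp ((θ:ℂ) * Complex.I))) →
    ((∀ z ∈ Metric.ball (0:ℂ) 1, 0 ≤ σ z) ∧ UpperSemicontinuousOn σ (Metric.ball (0:ℂ) 1) ∧
      ∀ z : ℂ, ∀ r : ℝ, 0 < r → Metric.closedBall z r ⊆ Metric.ball (0:ℂ) 1 →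
        σ z ≤ (2 * Real.pi)⁻¹ *
          ∫ θ in (0:ℝ)..2 * Real.pi, σ (z + (r:ℂ) * Complex.exp ((θ:ℂ) * Complex.I))) →
    ((∃ C : NNReal, ∀ f : ℂ → ℂ, Measurable f → (∃ M : ℝ, ∀ z, ‖f z‖ ≤ M) →
        (∃ s : ℝ, s < 1 ∧ ∀ z : ℂ, s < ‖z‖ → f z = 0) →
        ∫⁻ z in Metric.ball (0:ℂ) 1,
            ‖∫ ζ in Metric.ball (0:ℂ) 1,
                f ζ * (σ ζ : ℂ) / (1 - z * starRingEnd ℂ ζ) ^ 2‖ₑ ^ 2 * ENNReal.ofReal (w z)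
          ≤ (C : ENNReal) * ∫⁻ ζ in Metric.ball (0:ℂ) 1, ‖f ζ‖ₑ ^ 2 * ENNReal.ofReal (σ ζ)) ↔
     (∃ C : NNReal, ∀ f : ℂ → ℂ, Measurable f → (∃ M : ℝ, ∀ z, ‖f z‖ ≤ M) →
        (∃ s : ℝ, s < 1 ∧ ∀ z : ℂ, s < ‖z‖ → f z = 0) →
        ∫⁻ z in Metric.ball (0:ℂ) 1,
            (∫⁻ ζ in Metric.ball (0:ℂ) 1,
                ‖f ζ‖ₑ * ENNReal.ofReal (σ ζ) / ‖1 - z * starRingEnd ℂ ζ‖ₑ ^ 2) ^ 2
              * ENNReal.ofReal (w z)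
          ≤ (C : ENNReal) * ∫⁻ ζ in Metric.ball (0:ℂ) 1, ‖f ζ‖ₑ ^ 2 * ENNReal.ofReal (σ ζ)))) := by
  intro h
  have hw : ((∀ z ∈ Metric.ball (0:ℂ) 1, 0 ≤ Pool.Agent.Helper66.Berg.wW z) ∧
      UpperSemicontinuousOn Pool.Agent.Helper66.Berg.wW (Metric.ball (0:ℂ) 1) ∧
      ∀ z : ℂ, ∀ r : ℝ, 0 < r → Metric.closedBall z r ⊆ Metric.ball (0:ℂ) 1 →
        Pool.Agent.Helper66.Berg.wW z ≤ (2 * Real.pi)⁻¹ *
          ∫ θ in (0:ℝ)..2 * Real.pi,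
            Pool.Agent.Helper66.Berg.wW (z + (r:ℂ) * Complex.exp ((θ:ℂ) * Complex.I))) :=
    ⟨fun z hz => (Pool.Agent.Helper66.Berg.wW_pos (by simpa using hz)).le,
      Pool.Agent.Helper66.Berg.wW_cont.upperSemicontinuousOn,
      Pool.Agent.Helper66.Berg.wW_subMean⟩
  have hs : ((∀ z ∈ Metric.ball (0:ℂ) 1, 0 ≤ Pool.Agent.Helper66.Berg.sW z) ∧
      UpperSemicontinuousOn Pool.Agent.Helper66.Berg.sW (Metric.ball (0:ℂ) 1) ∧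
      ∀ z : ℂ, ∀ r : ℝ, 0 < r → Metric.closedBall z r ⊆ Metric.ball (0:ℂ) 1 →
        Pool.Agent.Helper66.Berg.sW z ≤ (2 * Real.pi)⁻¹ *
          ∫ θ in (0:ℝ)..2 * Real.pi,
            Pool.Agent.Helper66.Berg.sW (z + (r:ℂ) * Complex.exp ((θ:ℂ) * Complex.I))) :=
    ⟨fun z hz => (Pool.Agent.Helper66.Berg.sW_pos (by simpa using hz)).le,
      Pool.Agent.Helper66.Berg.sW_cont.upperSemicontinuousOn,
      Pool.Agent.Helper66.Berg.sW_subMean⟩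
  have h1 := h Pool.Agent.Helper66.Berg.wW Pool.Agent.Helper66.Berg.sW hw hs
  refine Pool.Agent.Helper66.Berg.PBplus_unbounded (h1.mp ?_)
  exact ⟨_, fun f hf hb _ => Pool.Agent.Helper66.Berg.PB_bound f hf hb⟩

end Pool.Agent.S03966
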