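import Pool.Statements.S03967
import Pool.Agent.Helper107.CPz
import Pool.Agent.Helper107.CPex
-- import your own Pool.Agent.* helpers here

set_option autoImplicit false
open Filter Topology MeasureTheory
open Pool Pool.MP_c26390_an

namespace Pool.Agent.S03967

/-- For 1<p<∞, every nonnegative weight U satisfying the C_p condition (10) with q=p obeys ∫∣Hf∣^p U ≤ K∫(Mf)^p U for all smooth compactly supported f, with H the principal-value Hilbert transform and M the Hardy–Littlewood maximal function. -/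
theorem result :
    ∀ p : ℝ, 1 < p → ∀ U : ℝ → ℝ, Measurable U → (∀ x, 0 ≤ U x) →
      (∃ C : ℝ, 0 < C ∧ ∃ ε : ℝ, 0 < ε ∧
        ∀ a b : ℝ, a < b → ∀ E : Set ℝ, MeasurableSet E → E ⊆ Set.Ioo a b →
          ∫⁻ x in E, ENNReal.ofReal (U x) ≤
            ENNReal.ofReal C * ENNReal.ofReal (((volume E).toReal / (b - a)) ^ ε) *
              ∫⁻ x, ENNReal.ofReal ((b - a) ^ p / ((b - a) ^ p + |x - (a + b) / 2| ^ p) * U x)) →
      ∃ K : ℝ, 0 < K ∧
        ∀ f : ℝ → ℝ, ContDiff ℝ ((⊤ : ℕ∞) : WithTop ℕ∞) f → HasCompactSupport f →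
          ∀ H : ℝ → ℝ,
            (∀ x, Tendsto (fun δ : ℝ => ∫ y in {y : ℝ | δ < |x - y|}, f y / (x - y))
                (𝓝[>] (0 : ℝ)) (𝓝 (H x))) →
            ∫⁻ x, ENNReal.ofReal (|H x| ^ p * U x) ≤
              ENNReal.ofReal K *
                ∫⁻ x, (⨆ a : ℝ, ⨆ b : ℝ, ⨆ (_ : a < x ∧ x < b),
                    ENNReal.ofReal ((b - a)⁻¹) * ∫⁻ y in Set.Ioo a b, ‖f y‖ₑ) ^ p
                  * ENNReal.ofReal (U x) :=
  Pool.Agent.Helper107.CP.final Pool.Agent.Helper107.CP.excess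

end Pool.Agent.S03967
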