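import Pool.Statements.S03971
import Pool.Agent.Helper139.Bool

set_option autoImplicit false
open Pool Pool.MP_c2be6c_an

namespace Pool.Agent.S03971

open MeasureTheory Filter Topology AddCircle Pool.Agent.Helper139
open scoped InnerProductSpace ENNReal ComplexConjugate

/-- The family of subspaces. -/
def Fam : Set (Submodule ℂ HH) := {M | ∃ E : MS C1, M = N E}

/-- The vector `(0, 1)`. -/
noncomputable def x0 : HH := WithLp.toLp 2 (0, e 0)

lemma N_le_iff (E F : MS C1) : N E ≤ N F ↔ mC ((E : Set C1) \ F) = 0 := by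
  constructor
  · intro h
    have h1 : QQ E x0 ∈ N E := by
      rw [mem_N]
      apply (QQ_eq_zero _ _).2
      constructor
      · change Q Eᶜ (T (Q E 0)) = 0
        rw [map_zero, map_zero, map_zero]
      · change Q Eᶜ (Q E (e 0)) = 0
        rw [Q_Q, compl_inf_eq_bot, Q_bot]
    have h2 := ((QQ_eq_zero _ _).1 (mem_N.1 (h h1))).2
    change Q Fᶜ (Q E (e 0)) = 0 at h2
    rw [Q_Q, Q_eq_zero_iff] at h2
    rw [measure_eq_zero_iff_ae_notMem]
    filter_upwards [h2, coeFn_fourierLp (T := (1 : ℝ)) 2 0] with x hx h0 hxE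
    have h3 : x ∈ ((Fᶜ ⊓ E : MS C1) : Set C1) := Set.mem_inter hxE.2 hxE.1
    have h4 := hx h3
    rw [h0, fourier_zero] at h4
    exact one_ne_zero h4
  · intro h x hx
    rw [mem_N] at hx ⊢
    have h0 : mC ((E ⊓ Fᶜ : MS C1) : Set C1) = 0 := by
      have : ((E ⊓ Fᶜ : MS C1) : Set C1) = (E : Set C1) \ F := by
        ext z; rfl
      rw [this]; exact h
    have h1 : QQ (E ⊓ Fᶜ) (D x) = 0 := QQ_null _ h0 _
    have h2 := (QQ_union _ _ _).2 ⟨hx, h1⟩
    refine QQ_mono ?_ h2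
    intro y hy
    by_cases hyE : y ∈ (E : Set C1)
    · exact Or.inr ⟨hyE, hy⟩
    · exact Or.inl hyE

lemma ess_sup (S : Set (MS C1)) : ∃ F : MS C1, (∀ E ∈ S, mC ((E : Set C1) \ F) = 0) ∧
    ∀ G : MS C1, (∀ E ∈ S, mC ((E : Set C1) \ G) = 0) → mC ((F : Set C1) \ G) = 0 := by
  rcases S.eq_empty_or_nonempty with rfl | hS
  · exact ⟨⊥, by simp, by simp⟩
  let V : Set ℝ≥0∞ := {r | ∃ f : ℕ → MS C1, (∀ i, f i ∈ S) ∧ r = mC (⋃ i, (f i : Set C1))}
  have hVne : V.Nonempty := by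
    obtain ⟨E, hE⟩ := hS
    exact ⟨_, fun _ => E, fun _ => hE, rfl⟩
  obtain ⟨u, -, hu, huV⟩ := exists_seq_tendsto_sSup hVne (OrderTop.bddAbove V)
  choose f hf hfu using huV
  let g : ℕ → MS C1 := fun k => f (Nat.unpair k).1 (Nat.unpair k).2
  have hg : ∀ k, g k ∈ S := fun k => hf _ _
  let F : MS C1 := ⟨⋃ k, (g k : Set C1), MeasurableSet.iUnion fun k => (g k).2⟩
  have hFu : ∀ n, u n ≤ mC (F : Set C1) := by
    intro n
    rw [hfu n]
    apply measure_mono
    intro x hx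
    rw [Set.mem_iUnion] at hx
    obtain ⟨i, hi⟩ := hx
    refine Set.mem_iUnion.2 ⟨Nat.pair n i, ?_⟩
    change x ∈ ((f (Nat.unpair (Nat.pair n i)).1 (Nat.unpair (Nat.pair n i)).2 : MS C1) : Set C1)
    rw [Nat.unpair_pair]
    exact hi
  have hFsup : sSup V ≤ mC (F : Set C1) := le_of_tendsto' hu hFu
  refine ⟨F, fun E hE => ?_, fun G hG => ?_⟩
  · let g' : ℕ → MS C1 := fun k => Nat.casesOn k E g
    have h1 : mC ((E : Set C1) ∪ F) ≤ sSup V := by
      apply le_sSup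
      refine ⟨g', fun i => ?_, ?_⟩
      · cases i with
        | zero => exact hE
        | succ n => exact hg n
      · congr 1
        ext x
        rw [Set.mem_iUnion]
        constructor
        · rintro (hx | hx)
          · exact ⟨0, hx⟩
          · obtain ⟨i, hi⟩ := Set.mem_iUnion.1 hx
            exact ⟨i + 1, hi⟩
        · rintro ⟨i, hi⟩
          cases i with
          | zero => exact Or.inl hi
          | succ n => exact Or.inr (Set.mem_iUnion.2 ⟨n, hi⟩)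
    have h2 : mC ((F : Set C1) ∪ (E : Set C1) \ F) = mC (F : Set C1) + mC ((E : Set C1) \ F) :=
      measure_union Set.disjoint_sdiff_right (E.2.diff F.2)
    have h3 : (F : Set C1) ∪ (E : Set C1) \ F = (E : Set C1) ∪ F := by
      rw [Set.union_sdiff_self, Set.union_comm]
    rw [h3] at h2
    have h4 : mC (F : Set C1) + mC ((E : Set C1) \ F) ≤ mC (F : Set C1) + 0 := by
      rw [← h2, add_zero]; exact h1.trans hFsup
    have h5 := (ENNReal.add_le_add_iff_left (measure_ne_top mC _)).1 h4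
    exact le_antisymm h5 zero_le
  · have : (F : Set C1) \ G = ⋃ k, ((g k : Set C1) \ G) := by
      rw [← Set.iUnion_sdiff]
    rw [this]
    exact measure_iUnion_null fun k => hG _ (hg k)

/-- limits of members of `N (E n)` and of their orthogonal complements -/
lemma N_limit (E : ℕ → MS C1) (F : MS C1)
    (hE : ∀ᵐ x ∂mC, ∀ᶠ n in atTop, (x ∈ (E n : Set C1) ↔ x ∈ (F : Set C1)))
    (y w : ℕ → HH) (y' w' : HH) (hy : Tendsto y atTop (𝓝 y')) (hw : Tendsto w atTop (𝓝 w'))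
    (hyN : ∀ n, y n ∈ N (E n)) (hwN : ∀ n, w n ∈ (N (E n))ᗮ) :
    y' ∈ N F ∧ w' ∈ (N F)ᗮ := by
  constructor
  · let U : ℕ → MS C1 := fun k => ⟨⋃ n, ⋃ (_ : k ≤ n), (E n : Set C1),
      MeasurableSet.iUnion fun n => MeasurableSet.iUnion fun _ => (E n).2⟩
    have hU : ∀ k, y' ∈ N (U k) := by
      intro k
      apply (N_closed (U k)).mem_of_tendsto hy
      filter_upwards [eventually_ge_atTop k] with n hn
      apply N_mono _ (hyN n)
      intro x hx
      exact Set.mem_iUnion₂.2 ⟨n, hn, hx⟩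
    rw [mem_N]
    have h1 : ∀ k, Q (U k)ᶜ (D y').fst = 0 ∧ Q (U k)ᶜ (D y').snd = 0 :=
      fun k => (QQ_eq_zero _ _).1 (hU k)
    have key : ∀ f : L, (∀ k, Q (U k)ᶜ f = 0) → Q Fᶜ f = 0 := by
      intro f hf
      rw [Q_eq_zero_iff]
      have h2 : ∀ k, ∀ᵐ x ∂mC, x ∈ (((U k)ᶜ : MS C1) : Set C1) → f x = 0 :=
        fun k => (Q_eq_zero_iff _ _).1 (hf k)
      filter_upwards [ae_all_iff.2 h2, hE] with x hx hxE hxF
      obtain ⟨k, hk⟩ := eventually_atTop.1 hxE
      apply hx k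
      intro hxU
      obtain ⟨n, hn, hxn⟩ := Set.mem_iUnion₂.1 hxU
      exact hxF ((hk n hn).1 hxn)
    exact (QQ_eq_zero _ _).2 ⟨key _ fun k => (h1 k).1, key _ fun k => (h1 k).2⟩
  · by_cases hF : mC (F : Set C1) = 0
    · rw [N_null hF, Submodule.bot_orthogonal_eq_top]
      trivial
    let G : ℕ → MS C1 := fun k => ⟨⋂ n, ⋂ (_ : k ≤ n), (E n : Set C1),
      MeasurableSet.iInter fun n => MeasurableSet.iInter fun _ => (E n).2⟩
    have hG : ∀ k, w' ∈ (N (G k))ᗮ := by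
      intro k
      apply ((N (G k)).isClosed_orthogonal).mem_of_tendsto hw
      filter_upwards [eventually_ge_atTop k] with n hn
      apply Submodule.orthogonal_le _ (hwN n)
      apply N_mono
      intro x hx
      exact Set.mem_iInter₂.1 hx n hn
    have hGF : ∀ᵐ x ∂mC, x ∈ (F : Set C1) → ∃ k, x ∈ (G k : Set C1) := by
      filter_upwards [hE] with x hxE hxF
      obtain ⟨k, hk⟩ := eventually_atTop.1 hxE
      exact ⟨k, Set.mem_iInter₂.2 fun n hn => (hk n hn).2 hxF⟩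
    obtain ⟨k0, hk0⟩ : ∃ k, mC (G k : Set C1) ≠ 0 := by
      by_contra hcon
      push Not at hcon
      apply hF
      rw [measure_eq_zero_iff_ae_notMem]
      have h2 : ∀ k, ∀ᵐ x ∂mC, x ∉ (G k : Set C1) :=
        fun k => measure_eq_zero_iff_ae_notMem.1 (hcon k)
      filter_upwards [ae_all_iff.2 h2, hGF] with x hx hx2 hxF
      obtain ⟨k, hk⟩ := hx2 hxF
      exact hx k hk
    have hmono : ∀ k, k0 ≤ k → mC (G k : Set C1) ≠ 0 := by
      intro k hk h0
      apply hk0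
      apply measure_mono_null _ h0
      intro x hx
      exact Set.mem_iInter₂.2 fun n hn => Set.mem_iInter₂.1 hx n (hk.trans hn)
    obtain ⟨a, ha, haw⟩ := (N_orth hk0 w').1 (hG k0)
    have hak : ∀ k, QQ (G k) a = 0 := by
      intro k
      rcases le_total k0 k with hk | hk
      · obtain ⟨b, hb, hbw⟩ := (N_orth (hmono k hk) w').1 (hG k)
        have : a = b := D_inj (haw.trans hbw.symm)
        rw [this]; exact hb
      · apply QQ_mono _ ha
        intro x hx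
        exact Set.mem_iInter₂.2 fun n hn => Set.mem_iInter₂.1 hx n (hk.trans hn)
    refine (N_orth hF w').2 ⟨a, ?_, haw⟩
    have key : ∀ f : L, (∀ k, Q (G k) f = 0) → Q F f = 0 := by
      intro f hf
      rw [Q_eq_zero_iff]
      have h2 : ∀ k, ∀ᵐ x ∂mC, x ∈ (G k : Set C1) → f x = 0 :=
        fun k => (Q_eq_zero_iff _ _).1 (hf k)
      filter_upwards [ae_all_iff.2 h2, hGF] with x hx hx2 hxF
      obtain ⟨k, hk⟩ := hx2 hxF
      exact hx k hk
    exact (QQ_eq_zero _ _).2 ⟨key _ fun k => ((QQ_eq_zero _ _).1 (hak k)).1,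
      key _ fun k => ((QQ_eq_zero _ _).1 (hak k)).2⟩

/-- An operator mapping each `L²(E)` into the `T`-preimage of `L²(E)` vanishes. -/
lemma B_zero (B : L →L[ℂ] L) (h : ∀ (E : MS C1) (v : L), Q Eᶜ v = 0 → Q Eᶜ (T (B v)) = 0) :
    B = 0 := by
  set R : L →L[ℂ] L := T ∘L B with hR
  have hcomm : ∀ (E : MS C1) (v : L), R (Q E v) = Q E (R v) := by
    intro E v
    have h1 : Q Eᶜ (R (Q E v)) = 0 := by
      apply h
      rw [Q_Q, compl_inf_eq_bot, Q_bot]
    have h2 : Q E (R (Q Eᶜ v)) = 0 := by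
      have := h Eᶜ (Q Eᶜ v) (by rw [compl_compl, Q_Q, inf_compl_eq_bot, Q_bot])
      rwa [compl_compl] at this
    have h3 : R v = R (Q E v) + R (Q Eᶜ v) := by rw [← map_add, Q_add_compl]
    rw [h3, map_add, h2, add_zero]
    have h4 := Q_add_compl E (R (Q E v))
    rw [h1, add_zero] at h4
    exact h4.symm
  set b : L := R (e 0) with hb
  have hadj : ∀ m : ℤ, (fun x => conj ((ContinuousLinearMap.adjoint R (e m) : L) x)) =ᵐ[mC]
      fun x => conj (e m x) * b x := by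
    intro m
    apply Integrable.ae_eq_of_forall_setIntegral_eq
    · have := L2.integrable_inner (𝕜 := ℂ) (ContinuousLinearMap.adjoint R (e m)) (e 0)
      refine this.congr ?_
      filter_upwards [coeFn_fourierLp (T := (1 : ℝ)) 2 0] with x hx
      rw [hx, fourier_zero, RCLike.inner_apply', mul_one]
    · have := L2.integrable_inner (𝕜 := ℂ) (e m) b
      refine this.congr ?_
      filter_upwards with x
      rw [RCLike.inner_apply']
    · intro s hs _
      let E : MS C1 := ⟨s, hs⟩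
      have h1 : ⟪ContinuousLinearMap.adjoint R (e m), Q E (e 0)⟫_ℂ = ⟪e m, Q E b⟫_ℂ := by
        rw [ContinuousLinearMap.adjoint_inner_left, hcomm]
      rw [L2.inner_def, L2.inner_def] at h1
      rw [← integral_indicator hs, ← integral_indicator hs]
      have h2 : ∫ a, ⟪(ContinuousLinearMap.adjoint R (e m) : L) a, (Q E (e 0)) a⟫_ℂ ∂mC =
          ∫ a, s.indicator (fun x => conj ((ContinuousLinearMap.adjoint R (e m) : L) x)) a ∂mC := by
        apply integral_congr_ae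
        filter_upwards [coeFn_fourierLp (T := (1 : ℝ)) 2 0, Q_coe E (e 0)] with x h3 h4
        rw [h4]
        by_cases hx : x ∈ s
        · rw [Set.indicator_of_mem hx, Set.indicator_of_mem (show x ∈ (E : Set C1) from hx), h3,
            fourier_zero, RCLike.inner_apply', mul_one]
        · rw [Set.indicator_of_notMem hx,
            Set.indicator_of_notMem (show x ∉ (E : Set C1) from hx), inner_zero_right]
      have h3 : ∫ a, ⟪e m a, (Q E b) a⟫_ℂ ∂mC =
          ∫ a, s.indicator (fun x => conj (e m x) * b x) a ∂mC := by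
        apply integral_congr_ae
        filter_upwards [Q_coe E b] with x h4
        rw [h4]
        by_cases hx : x ∈ s
        · rw [Set.indicator_of_mem hx, Set.indicator_of_mem (show x ∈ (E : Set C1) from hx),
            RCLike.inner_apply']
        · rw [Set.indicator_of_notMem hx,
            Set.indicator_of_notMem (show x ∉ (E : Set C1) from hx), inner_zero_right]
      rw [← h2, ← h3, h1]
  have hmn : ∀ m n : ℤ, ⟪e m, R (e n)⟫_ℂ = fc b (m - n) := by
    intro m n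
    rw [← ContinuousLinearMap.adjoint_inner_left, L2.inner_def, fc_eq_inner, L2.inner_def]
    apply integral_congr_ae
    filter_upwards [hadj m, coeFn_fourierLp (T := (1 : ℝ)) 2 m,
      coeFn_fourierLp (T := (1 : ℝ)) 2 n, coeFn_fourierLp (T := (1 : ℝ)) 2 (m - n)]
      with x h1 h2 h3 h4
    rw [RCLike.inner_apply', RCLike.inner_apply', h1, h2, h3, h4, ← fourier_neg, ← fourier_neg]
    have : (fourier (-(m - n)) x : ℂ) = fourier (-m) x * fourier n x := by
      rw [← fourier_add]; congr 2; ring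
    rw [this]; ring
  have hb0 : ∀ j : ℤ, fc b j = 0 := by
    intro j
    have h1 : ∀ k : ℕ, ‖fc b j‖ ≤ ((2 : ℝ) ^ k)⁻¹ * ‖B‖ := by
      intro k
      have h2 := hmn (2 ^ k) (2 ^ k - j)
      rw [sub_sub_cancel] at h2
      rw [← h2]
      have h3 : R (e (2 ^ k - j)) = T (B (e (2 ^ k - j))) := rfl
      rw [h3, ← fc_eq_inner, fc_T, norm_mul, wt_pow, Complex.norm_real, Real.norm_eq_abs,
        abs_of_pos (by positivity)]
      apply mul_le_mul_of_nonneg_left _ (by positivity)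
      rw [fc_eq_inner]
      calc ‖⟪e (2 ^ k), B (e (2 ^ k - j))⟫_ℂ‖ ≤ ‖e (2 ^ k)‖ * ‖B (e (2 ^ k - j))‖ :=
            norm_inner_le_norm _ _
        _ ≤ 1 * (‖B‖ * 1) := by
            rw [orth_e.1]
            have := B.le_opNorm (e (2 ^ k - j))
            rw [orth_e.1] at this
            linarith
        _ = ‖B‖ := by ring
    have h2 : Tendsto (fun k : ℕ => ((2 : ℝ) ^ k)⁻¹ * ‖B‖) atTop (𝓝 (0 * ‖B‖)) := by
      apply Tendsto.mul_const
      have := tendsto_pow_atTop_nhds_zero_of_lt_one (r := (1 / 2 : ℝ)) (by norm_num) (by norm_num)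
      refine this.congr fun k => ?_
      rw [one_div, inv_pow]
    rw [zero_mul] at h2
    have h3 := ge_of_tendsto' h2 h1
    exact norm_le_zero_iff.1 h3
  have hR0 : ∀ v, R v = 0 := by
    intro v
    apply fc_ext
    intro m
    have h1 : ContinuousLinearMap.adjoint R (e m) = 0 := by
      have hb' : b = 0 := by
        apply fc_ext
        intro j
        rw [hb0 j]
        simp [fc]
      apply Lp.ext
      filter_upwards [hadj m, Lp.coeFn_zero ℂ 2 mC] with x h1 h2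
      rw [h2]
      rw [hb', h2] at h1
      simpa using h1
    rw [fc_eq_inner, ← ContinuousLinearMap.adjoint_inner_left, h1, inner_zero_left]
    simp [fc]
  ext1 v
  have h1 : T (B v) = T 0 := by
    rw [map_zero]; exact hR0 v
  exact T_inj h1

lemma Fam_sup (A B : Submodule ℂ HH) (hA : A ∈ Fam) (hB : B ∈ Fam) :
    (A ⊔ B).topologicalClosure ∈ Fam := by
  obtain ⟨E, rfl⟩ := hA
  obtain ⟨F, rfl⟩ := hB
  exact ⟨E ⊔ F, N_sup E F⟩

lemma Fam_complete (S : Set (Submodule ℂ HH)) (hS : S ⊆ Fam) :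
    ∃ M ∈ Fam, (∀ N' ∈ S, N' ≤ M) ∧ ∀ M' ∈ Fam, (∀ N' ∈ S, N' ≤ M') → M ≤ M' := by
  obtain ⟨F, hF1, hF2⟩ := ess_sup {E | N E ∈ S}
  refine ⟨N F, ⟨F, rfl⟩, ?_, ?_⟩
  · intro N' hN'
    obtain ⟨E, rfl⟩ := hS hN'
    exact (N_le_iff E F).2 (hF1 E hN')
  · rintro M' ⟨G, rfl⟩ hG
    exact (N_le_iff F G).2 (hF2 G fun E hE => (N_le_iff E G).1 (hG _ hE))

lemma proj_x0 (E : MS C1) : QQ E x0 ∈ N E ∧ x0 - QQ E x0 ∈ (N E)ᗮ := by
  constructor
  · rw [mem_N]
    apply (QQ_eq_zero _ _).2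
    constructor
    · change Q Eᶜ (T (Q E 0)) = 0
      rw [map_zero, map_zero, map_zero]
    · change Q Eᶜ (Q E (e 0)) = 0
      rw [Q_Q, compl_inf_eq_bot, Q_bot]
  · have h1 : x0 - QQ E x0 = QQ Eᶜ x0 := by
      have := QQ_add_compl E x0
      rw [sub_eq_iff_eq_add, add_comm]
      exact this.symm
    rw [h1, Submodule.mem_orthogonal]
    intro u hu
    have hu2 := ((QQ_eq_zero _ _).1 (mem_N.1 hu)).2
    change Q Eᶜ u.snd = 0 at hu2
    rw [WithLp.prod_inner_apply]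
    change ⟪u.fst, Q Eᶜ 0⟫_ℂ + ⟪u.snd, Q Eᶜ (e 0)⟫_ℂ = 0
    rw [map_zero, inner_zero_right, zero_add, ← Q_symm, hu2, inner_zero_left]

lemma exists_proj (M : Submodule ℂ HH) (hM : IsClosed (M : Set HH)) (x : HH) :
    ∃ y ∈ M, x - y ∈ Mᗮ := by
  have : CompleteSpace M := hM.completeSpace_coe
  obtain ⟨y, hy, hxy⟩ := Submodule.HasOrthogonalProjection.exists_orthogonal (K := M) x
  exact ⟨y, hy, hxy⟩

lemma indicator_limit (v : L) (E : ℕ → MS C1)
    (h : Tendsto (fun n => Q (E n) (e 0)) atTop (𝓝 v)) :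
    ∃ φ : ℕ → ℕ, StrictMono φ ∧
      ∀ᵐ x ∂mC, ∀ᶠ n in atTop, (x ∈ (E (φ n) : Set C1) ↔ v x = 1) := by
  have h1 := tendstoInMeasure_of_tendsto_Lp h
  obtain ⟨φ, hφ, h2⟩ := h1.exists_seq_tendsto_ae
  refine ⟨φ, hφ, ?_⟩
  have h3 : ∀ᵐ x ∂mC, ∀ n, (Q (E n) (e 0) : C1 → ℂ) x = (E n : Set C1).indicator (e 0) x :=
    ae_all_iff.2 fun n => Q_coe (E n) (e 0)
  filter_upwards [h2, h3, coeFn_fourierLp (T := (1 : ℝ)) 2 0] with x hx hx3 hx4
  have h5 : ∀ n, (x ∈ (E n : Set C1) → (Q (E n) (e 0) : C1 → ℂ) x = 1) ∧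
      (x ∉ (E n : Set C1) → (Q (E n) (e 0) : C1 → ℂ) x = 0) := by
    intro n
    constructor
    · intro hn
      rw [hx3, Set.indicator_of_mem hn, hx4, fourier_zero]
    · intro hn
      rw [hx3, Set.indicator_of_notMem hn]
  by_cases hv : v x = 1
  · have h6 : ∀ᶠ n in atTop, dist ((Q (E (φ n)) (e 0) : C1 → ℂ) x) (v x) < 1 :=
      (Metric.tendsto_nhds.1 hx) 1 one_pos
    filter_upwards [h6] with n hn
    constructor
    · intro _; exact hv
    · intro _
      by_contra hcon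
      rw [(h5 _).2 hcon, hv] at hn
      norm_num at hn
  · have h6 : ∀ᶠ n in atTop, dist ((Q (E (φ n)) (e 0) : C1 → ℂ) x) (v x) < dist 1 (v x) :=
      (Metric.tendsto_nhds.1 hx) _ (dist_pos.2 (Ne.symm hv))
    filter_upwards [h6] with n hn
    constructor
    · intro hcon
      rw [(h5 _).1 hcon] at hn
      exact absurd hn (lt_irrefl _)
    · intro hcon
      exact absurd hcon hv

lemma Fam_closed (M : Submodule ℂ HH) (hM : IsClosed (M : Set HH))
    (h : ∀ s : Finset HH, ∀ ε : ℝ, 0 < ε → ∃ N' ∈ Fam, ∀ x ∈ s, ∀ y z : HH,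
        y ∈ N' → x - y ∈ N'.orthogonal → z ∈ M → x - z ∈ M.orthogonal → ‖y - z‖ < ε) :
    M ∈ Fam := by
  classical
  obtain ⟨z0, hz0, hz0'⟩ := exists_proj M hM x0
  have hmeas : AEStronglyMeasurable (z0.snd : C1 → ℂ) mC := Lp.aestronglyMeasurable _
  let F : MS C1 := ⟨{x | (z0.snd : C1 → ℂ) x = 1},
    (Lp.stronglyMeasurable z0.snd).measurable (measurableSet_singleton 1)⟩
  have key : ∀ x z : HH, z ∈ M → x - z ∈ Mᗮ → z ∈ N F ∧ x - z ∈ (N F)ᗮ := by
    intro x z hz hxz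
    have h1 : ∀ n : ℕ, ∃ E : MS C1, ∃ y : HH, y ∈ N E ∧ x - y ∈ (N E)ᗮ ∧
        ‖QQ E x0 - z0‖ < 1 / ((n : ℝ) + 1) ∧ ‖y - z‖ < 1 / ((n : ℝ) + 1) := by
      intro n
      obtain ⟨N', ⟨E, rfl⟩, hE⟩ := h {x0, x} (1 / ((n : ℝ) + 1)) (by positivity)
      obtain ⟨y, hy, hxy⟩ := exists_proj (N E) (N_closed E) x
      refine ⟨E, y, hy, hxy, ?_, ?_⟩
      · exact hE x0 (by simp) _ _ (proj_x0 E).1 (proj_x0 E).2 hz0 hz0'
      · exact hE x (by simp) _ _ hy hxy hz hxz
    choose E y hy hxy hE1 hE2 using h1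
    have hlim : Tendsto (fun n : ℕ => 1 / ((n : ℝ) + 1)) atTop (𝓝 0) :=
      tendsto_one_div_add_atTop_nhds_zero_nat
    have hy' : Tendsto y atTop (𝓝 z) := by
      rw [tendsto_iff_norm_sub_tendsto_zero]
      exact squeeze_zero (fun _ => norm_nonneg _) (fun n => (hE2 n).le) hlim
    have hQ' : Tendsto (fun n => QQ (E n) x0) atTop (𝓝 z0) := by
      rw [tendsto_iff_norm_sub_tendsto_zero]
      exact squeeze_zero (fun _ => norm_nonneg _) (fun n => (hE1 n).le) hlim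
    have hQ2 : Tendsto (fun n => Q (E n) (e 0)) atTop (𝓝 z0.snd) := by
      have := ((WithLp.sndL 2 ℂ L L).continuous.tendsto z0).comp hQ'
      exact this
    obtain ⟨φ, hφ, h4⟩ := indicator_limit z0.snd E hQ2
    exact N_limit (fun n => E (φ n)) F h4 (fun n => y (φ n)) (fun n => x - y (φ n)) z (x - z)
      (hy'.comp hφ.tendsto_atTop) ((tendsto_const_nhds.sub hy').comp hφ.tendsto_atTop)
      (fun n => hy _) (fun n => hxy _)
  refine ⟨F, le_antisymm ?_ ?_⟩
  · intro x hx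
    exact (key x x hx (by rw [sub_self]; exact zero_mem _)).1
  · intro x hx
    obtain ⟨z, hz, hxz⟩ := exists_proj M hM x
    obtain ⟨h1, h2⟩ := key x z hz hxz
    have h3 : x - z ∈ N F ⊓ (N F)ᗮ := ⟨sub_mem hx h1, h2⟩
    rw [Submodule.inf_orthogonal_eq_bot, Submodule.mem_bot, sub_eq_zero] at h3
    rw [h3]; exact hz

/-- The subspace `0 ⊕ L²`. -/
noncomputable def M0 : Submodule ℂ HH := (WithLp.fstL 2 ℂ L L).ker

lemma e_ne_zero : e 0 ≠ 0 := orth_e.ne_zero 0

lemma M0_notMem : M0 ∉ Fam := by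
  rintro ⟨E, hE⟩
  have h1 : x0 ∈ N E := by
    rw [← hE]; rfl
  have h2 : Q Eᶜ (e 0) = 0 := ((QQ_eq_zero _ _).1 (mem_N.1 h1)).2
  have h3 : mC ((Eᶜ : MS C1) : Set C1) = 0 := by
    rw [Q_eq_zero_iff] at h2
    rw [measure_eq_zero_iff_ae_notMem]
    filter_upwards [h2, coeFn_fourierLp (T := (1 : ℝ)) 2 0] with x hx h0 hxE
    have h4 := hx hxE
    rw [h0, fourier_zero] at h4
    exact one_ne_zero h4
  have h4 : (WithLp.toLp 2 (e 0, 0) : HH) ∈ N E := by
    rw [mem_N]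
    exact QQ_null _ h3 _
  rw [← hE] at h4
  exact e_ne_zero h4

lemma M0_inv (A : HH →L[ℂ] HH) (hA : ∀ N' ∈ Fam, ∀ x ∈ N', A x ∈ N') :
    ∀ x ∈ M0, A x ∈ M0 := by
  let inr : L →L[ℂ] HH := (WithLp.prodContinuousLinearEquiv 2 ℂ L L).symm.toContinuousLinearMap ∘L
    ContinuousLinearMap.inr ℂ L L
  have hB : (WithLp.fstL 2 ℂ L L) ∘L A ∘L inr = 0 := by
    apply B_zero
    intro E v hv
    have h1 : inr v ∈ N E := by
      rw [mem_N]
      apply (QQ_eq_zero _ _).2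
      constructor
      · change Q Eᶜ (T 0) = 0
        rw [map_zero, map_zero]
      · exact hv
    exact ((QQ_eq_zero _ _).1 (mem_N.1 (hA _ ⟨E, rfl⟩ _ h1))).1
  intro x hx
  have hx' : x = inr x.snd := by
    apply hh_ext
    · exact hx
    · rfl
  rw [hx']
  have := DFunLike.congr_fun hB x.snd
  exact this

/-- Some complex Hilbert space has a family of closed subspaces with all of the following properties. It is a distributive complemented lattice under intersection and closed span, complete as a lattice, and has a strongly closed set of projections. Yet some closed subspace outside the family is invarian -/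
theorem result :
  ∃ (H : Type) (_ : NormedAddCommGroup H) (_ : InnerProductSpace ℂ H) (_ : CompleteSpace H)
    (E : Set (Submodule ℂ H)),
    (∀ M ∈ E, IsClosed (M : Set H)) ∧
    (⊥ : Submodule ℂ H) ∈ E ∧ (⊤ : Submodule ℂ H) ∈ E ∧
    (∀ A ∈ E, ∀ B ∈ E, A ⊓ B ∈ E) ∧
    (∀ A ∈ E, ∀ B ∈ E, (A ⊔ B).topologicalClosure ∈ E) ∧
    (∀ A ∈ E, ∀ B ∈ E, ∀ C ∈ E,
      A ⊓ (B ⊔ C).topologicalClosure = ((A ⊓ B) ⊔ (A ⊓ C)).topologicalClosure) ∧
    (∀ A ∈ E, ∃ B ∈ E, A ⊓ B = ⊥ ∧ (A ⊔ B).topologicalClosure = ⊤) ∧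
    (∀ S ⊆ E, ∃ M ∈ E, (∀ N ∈ S, N ≤ M) ∧ ∀ M' ∈ E, (∀ N ∈ S, N ≤ M') → M ≤ M') ∧
    (∀ M : Submodule ℂ H, IsClosed (M : Set H) →
      (∀ s : Finset H, ∀ ε : ℝ, 0 < ε → ∃ N ∈ E, ∀ x ∈ s, ∀ y z : H,
        y ∈ N → x - y ∈ N.orthogonal → z ∈ M → x - z ∈ M.orthogonal → ‖y - z‖ < ε) →
      M ∈ E) ∧
    ∃ M : Submodule ℂ H, IsClosed (M : Set H) ∧ M ∉ E ∧
      ∀ T : H →L[ℂ] H, (∀ N ∈ E, ∀ x ∈ N, T x ∈ N) → ∀ x ∈ M, T x ∈ M := by
  refine ⟨HH, inferInstance, inferInstance, inferInstance, Fam, ?_, ⟨⊥, N_bot.symm⟩,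
    ⟨⊤, N_top.symm⟩, ?_, ?_, ?_, ?_, ?_, Fam_closed, M0, ?_, M0_notMem, M0_inv⟩
  · rintro M ⟨E, rfl⟩
    exact N_closed E
  · rintro A ⟨E, rfl⟩ B ⟨F, rfl⟩
    exact ⟨E ⊓ F, N_inf E F⟩
  · intro A hA B hB
    exact Fam_sup A B hA hB
  · rintro A ⟨E, rfl⟩ B ⟨F, rfl⟩ C ⟨G, rfl⟩
    rw [N_sup, N_inf, N_inf, N_inf, N_sup, inf_sup_left]
  · rintro A ⟨E, rfl⟩
    refine ⟨N Eᶜ, ⟨Eᶜ, rfl⟩, ?_, ?_⟩
    · rw [N_inf, inf_compl_eq_bot, N_bot]
    · rw [N_sup, sup_compl_eq_top, N_top]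
  · intro S hS
    exact Fam_complete S hS
  · exact ContinuousLinearMap.isClosed_ker _

end Pool.Agent.S03971
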