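import Pool.Statements.S03990

set_option autoImplicit false
open Metric Filter Topology MeasureTheory
open Pool Pool.MP_c3f068_an

namespace Pool.Agent.S03990

/-- auxiliary scale sequence -/
noncomputable def M : ℕ → ℕ
  | 0 => 2
  | (k+1) => 4 * ((k+4) * M k + 1)

/-- the exponents of the lacunary product -/
noncomputable def N (k : ℕ) : ℕ := (k+4) * M k + 1

lemma M_succ (k : ℕ) : M (k+1) = 4 * N k := by
  simp [M, N]

lemma M_even (k : ℕ) : Even (M k) := by
  cases k with
  | zero => exact ⟨1, rfl⟩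
  | succ k => rw [M_succ]; exact ⟨2 * N k, by ring⟩

lemma N_odd (k : ℕ) : Odd (N k) := by
  unfold N
  exact (Even.mul_left (M_even k) _).add_one

lemma N_pos (k : ℕ) : 0 < N k := by unfold N; omega

lemma M_lt_succ (k : ℕ) : M k < M (k+1) := by
  rw [M_succ]; unfold N; nlinarith [Nat.zero_le (M k), Nat.zero_le k]

lemma M_ge (k : ℕ) : k + 2 ≤ M k := by
  induction k with
  | zero => simp [M]
  | succ k ih => have := M_lt_succ k; omega

/-- radii separating the generations -/
noncomputable def c (k : ℕ) : ℝ := 1 - 1 / (M k : ℝ)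

lemma M_pos (k : ℕ) : (0:ℝ) < (M k : ℝ) := by
  have := M_ge k
  exact_mod_cast (by omega : 0 < M k)

lemma c_mono : Monotone c := by
  apply monotone_nat_of_le_succ
  intro k
  unfold c
  have h1 := M_pos k
  have h2 : (M k : ℝ) ≤ M (k+1) := by exact_mod_cast (M_lt_succ k).le
  have := one_div_le_one_div_of_le h1 h2
  linarith

lemma c_lt_one (k : ℕ) : c k < 1 := by
  unfold c
  have := one_div_pos.mpr (M_pos k)
  linarith

lemma c_pos (k : ℕ) : 0 < c k := by
  unfold c
  have h1 : (2:ℝ) ≤ M k := by exact_mod_cast (by have := M_ge k; omega : 2 ≤ M k)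
  have : 1 / (M k : ℝ) ≤ 1 / 2 := one_div_le_one_div_of_le (by norm_num) h1
  linarith

lemma c_tendsto : Tendsto c atTop (𝓝 1) := by
  unfold c
  have h : Tendsto (fun k => 1 / (M k : ℝ)) atTop (𝓝 0) := by
    apply squeeze_zero (fun k => (one_div_pos.mpr (M_pos k)).le) (g := fun k : ℕ => 1 / ((k:ℝ) + 1))
    · intro k
      apply one_div_le_one_div_of_le
      · positivity
      · have : (k:ℝ) + 1 ≤ M k := by exact_mod_cast (by have := M_ge k; omega : k + 1 ≤ M k)
        exact this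
    · exact tendsto_one_div_add_atTop_nhds_zero_nat
  simpa using h.const_sub 1

lemma exists_lt_c {x : ℝ} (hx : x < 1) : ∃ m, x < c m :=
  ((c_tendsto.eventually (lt_mem_nhds hx))).exists

lemma small {z : ℂ} {m k : ℕ} (hz : ‖z‖ ≤ c m) (h : m ≤ k) :
    4 * ‖z‖ ^ (N k) ≤ (1/2 : ℝ) ^ (k+2) := by
  have h1 : ‖z‖ ≤ Real.exp (-(1 / (M k : ℝ))) := by
    calc ‖z‖ ≤ c k := hz.trans (c_mono h)
      _ = 1 - 1 / (M k : ℝ) := rfl
      _ ≤ Real.exp (-(1 / (M k : ℝ))) := by
        have := Real.add_one_le_exp (-(1 / (M k : ℝ))); linarith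
  have h2 : ‖z‖ ^ (N k) ≤ Real.exp (-(1 / (M k : ℝ))) ^ (N k) :=
    pow_le_pow_left₀ (norm_nonneg _) h1 _
  have h3 : Real.exp (-(1 / (M k : ℝ))) ^ (N k) ≤ (1/2:ℝ) ^ (k+4) := by
    rw [← Real.exp_nat_mul]
    have h4 : ((N k : ℕ) : ℝ) * (-(1 / (M k : ℝ))) ≤ ((k+4 : ℕ) : ℝ) * (-1) := by
      have hM := M_pos k
      have hN : ((N k : ℕ) : ℝ) = ((k:ℝ)+4) * M k + 1 := by unfold N; push_cast; ring
      rw [hN]
      push_cast
      have : ((k:ℝ)+4) * M k + 1 ≥ ((k:ℝ)+4) * M k := by linarith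
      have h5 : (((k:ℝ)+4) * M k + 1) * (1 / (M k : ℝ)) ≥ (((k:ℝ)+4) * M k) * (1 / (M k : ℝ)) :=
        mul_le_mul_of_nonneg_right this (by positivity)
      have h6 : (((k:ℝ)+4) * M k) * (1 / (M k : ℝ)) = (k:ℝ)+4 := by field_simp
      nlinarith
    calc Real.exp (((N k : ℕ) : ℝ) * (-(1 / (M k : ℝ)))) ≤ Real.exp (((k+4 : ℕ) : ℝ) * (-1)) :=
          Real.exp_le_exp.mpr h4
      _ = (Real.exp (-1)) ^ (k+4) := by rw [Real.exp_nat_mul]
      _ ≤ (1/2:ℝ) ^ (k+4) := by
        apply pow_le_pow_left₀ (Real.exp_pos _).le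
        rw [Real.exp_neg]
        have : (2:ℝ) ≤ Real.exp 1 := by have := Real.add_one_le_exp (1:ℝ); linarith
        rw [one_div]
        exact inv_anti₀ (by norm_num) this
  calc 4 * ‖z‖ ^ (N k) ≤ 4 * (1/2:ℝ) ^ (k+4) := by linarith
    _ = (1/2 : ℝ) ^ (k+2) := by ring

lemma big {z : ℂ} {m k : ℕ} (hz : c (m+1) ≤ ‖z‖) (h : k ≤ m) : 3/4 ≤ ‖z‖ ^ (N k) := by
  have h1 : c (k+1) ≤ ‖z‖ := (c_mono (by omega)).trans hz
  have hN : (0:ℝ) < N k := by exact_mod_cast N_pos k
  have h2 : c (k+1) = 1 + (-(1 / (4 * (N k : ℝ)))) := by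
    unfold c; rw [M_succ]; push_cast; ring
  calc (3/4 : ℝ) = 1 + (N k : ℝ) * (-(1 / (4 * (N k : ℝ)))) := by field_simp; norm_num
    _ ≤ (1 + (-(1 / (4 * (N k : ℝ))))) ^ (N k) := by
        apply one_add_mul_le_pow
        have h1 : (1:ℝ) ≤ N k := by exact_mod_cast N_pos k
        have : 1 / (4 * (N k : ℝ)) ≤ 1 / 4 := by
          apply one_div_le_one_div_of_le (by norm_num); linarith
        linarith
    _ ≤ ‖z‖ ^ (N k) := by
        rw [← h2]
        exact pow_le_pow_left₀ (c_pos _).le h1 _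

/-- the factors of the product -/
noncomputable def f (k : ℕ) (z : ℂ) : ℂ := 1 - 4 * z ^ (N k)

lemma abs_log_norm_le {w : ℂ} (hw : ‖w‖ ≤ 1/2) : |Real.log ‖1 - w‖| ≤ 2 * ‖w‖ := by
  have h1 : 1 - ‖w‖ ≤ ‖1 - w‖ := by
    have := norm_sub_norm_le (1:ℂ) w
    simpa using this
  have h2 : ‖1 - w‖ ≤ 1 + ‖w‖ := by
    have := norm_sub_le (1:ℂ) w
    simpa using this
  have h0 : 0 < 1 - ‖w‖ := by linarith
  have hpos : 0 < ‖1 - w‖ := by linarith
  rw [abs_le]
  constructor
  · have h3 : Real.log (1 - ‖w‖) ≤ Real.log ‖1 - w‖ := Real.log_le_log h0 h1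
    have h4 : 1 - (1 - ‖w‖)⁻¹ ≤ Real.log (1 - ‖w‖) := Real.one_sub_inv_le_log_of_pos h0
    have h5 : (1 - ‖w‖)⁻¹ ≤ 1 + 2 * ‖w‖ := by
      rw [inv_le_comm₀ h0 (by positivity)]
      rw [inv_le_iff_one_le_mul₀ (by positivity)]
      nlinarith [norm_nonneg w]
    linarith
  · have h3 : Real.log ‖1 - w‖ ≤ ‖1 - w‖ - 1 := Real.log_le_sub_one_of_pos hpos
    nlinarith [norm_nonneg w]

lemma norm_four_pow (k : ℕ) (z : ℂ) : ‖4 * z ^ (N k)‖ = 4 * ‖z‖ ^ (N k) := by
  rw [norm_mul, norm_pow]; norm_num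

lemma half_pow_le (k : ℕ) : (1/2 : ℝ) ^ (k+2) ≤ 1/4 := by
  calc (1/2 : ℝ) ^ (k+2) ≤ (1/2 : ℝ) ^ 2 := pow_le_pow_of_le_one (by norm_num) (by norm_num) (by omega)
    _ = 1/4 := by norm_num

lemma f_log_small {z : ℂ} {m k : ℕ} (hz : ‖z‖ ≤ c m) (h : m ≤ k) :
    |Real.log ‖f k z‖| ≤ (1/2 : ℝ) ^ (k+1) := by
  have h1 := small hz h
  have h2 := half_pow_le k
  unfold f
  have h3 : ‖4 * z ^ (N k)‖ ≤ 1/2 := by rw [norm_four_pow]; linarith
  calc |Real.log ‖1 - 4 * z ^ (N k)‖| ≤ 2 * ‖4 * z ^ (N k)‖ := abs_log_norm_le h3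
    _ ≤ 2 * (1/2 : ℝ) ^ (k+2) := by rw [norm_four_pow]; linarith
    _ = (1/2 : ℝ) ^ (k+1) := by ring

lemma f_norm_small {z : ℂ} {m k : ℕ} (hz : ‖z‖ ≤ c m) (h : m ≤ k) : 3/4 ≤ ‖f k z‖ := by
  have h1 := small hz h
  have h2 := half_pow_le k
  unfold f
  have := norm_sub_norm_le (1:ℂ) (4 * z ^ (N k))
  rw [norm_four_pow] at this
  simp only [norm_one] at this
  linarith

lemma f_norm_big {z : ℂ} {m k : ℕ} (hz : c (m+1) ≤ ‖z‖) (h : k ≤ m) : 2 ≤ ‖f k z‖ := by
  have h1 := big hz h
  unfold f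
  have := norm_sub_norm_le (4 * z ^ (N k)) (1:ℂ)
  rw [norm_four_pow] at this
  rw [norm_sub_rev]
  simp only [norm_one] at this
  linarith

/-- minus the final subharmonic function, inside the disc -/
noncomputable def L (z : ℂ) : ℝ := ∑' k, Real.log ‖f k z‖

/-- partial sums -/
noncomputable def Ln (n : ℕ) (z : ℂ) : ℝ := ∑ k ∈ Finset.range n, Real.log ‖f k z‖

lemma geo_summable (n : ℕ) : Summable (fun k : ℕ => (1/2 : ℝ) ^ (k + n + 1)) := by
  have : (fun k : ℕ => (1/2 : ℝ) ^ (k + n + 1)) = fun k : ℕ => (1/2:ℝ)^(n+1) * (1/2 : ℝ) ^ k := by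
    funext k; ring
  rw [this]
  exact (summable_geometric_of_lt_one (by norm_num) (by norm_num)).mul_left _

lemma geo_tsum (n : ℕ) : ∑' k : ℕ, (1/2 : ℝ) ^ (k + n + 1) = (1/2:ℝ)^n := by
  have : (fun k : ℕ => (1/2 : ℝ) ^ (k + n + 1)) = fun k : ℕ => (1/2:ℝ)^(n+1) * (1/2 : ℝ) ^ k := by
    funext k; ring
  rw [this, tsum_mul_left, tsum_geometric_of_lt_one (by norm_num) (by norm_num)]
  ring

lemma summ_tail {z : ℂ} {m n : ℕ} (hz : ‖z‖ ≤ c m) (h : m ≤ n) :
    Summable (fun k => Real.log ‖f (k + n) z‖) := by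
  apply Summable.of_norm_bounded (geo_summable n)
  intro k
  rw [Real.norm_eq_abs]
  exact f_log_small hz (by omega)

lemma summ {z : ℂ} (hz : ‖z‖ < 1) : Summable (fun k => Real.log ‖f k z‖) := by
  obtain ⟨m, hm⟩ := exists_lt_c hz
  exact (summable_nat_add_iff m).mp (summ_tail hm.le le_rfl)

lemma L_split {z : ℂ} (hz : ‖z‖ < 1) (n : ℕ) :
    L z = Ln n z + ∑' k, Real.log ‖f (k + n) z‖ := by
  unfold L Ln
  exact ((summ hz).sum_add_tsum_nat_add n).symm

lemma tail_le {z : ℂ} {m n : ℕ} (hz : ‖z‖ ≤ c m) (h : m ≤ n) :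
    |∑' k, Real.log ‖f (k + n) z‖| ≤ (1/2:ℝ)^n := by
  rw [← geo_tsum n, ← Real.norm_eq_abs]
  apply tsum_of_norm_bounded (geo_summable n).hasSum
  intro k
  rw [Real.norm_eq_abs]
  exact f_log_small hz (by omega)

lemma L_approx {z : ℂ} {m n : ℕ} (hz : ‖z‖ ≤ c m) (h : m ≤ n) :
    |L z - Ln n z| ≤ (1/2:ℝ)^n := by
  rw [L_split (hz.trans_lt (c_lt_one m)) n]
  simpa using tail_le hz h

/-- bubble size parameters -/
noncomputable def eps (k : ℕ) : ℝ := (1/8) * (2/3)^k

/-- radii of the bubbles -/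
noncomputable def rad (k : ℕ) : ℝ := eps k / N k

/-- modulus of the zeros of the factor `f k` -/
noncomputable def rho (k : ℕ) : ℝ := (1/4 : ℝ) ^ (1 / (N k : ℝ))

/-- zeros of the factor `f k` -/
noncomputable def cen (k j : ℕ) : ℂ :=
  (rho k : ℂ) * (Complex.exp (2 * Real.pi * Complex.I / (N k : ℂ))) ^ j

lemma eps_pos (k : ℕ) : 0 < eps k := by unfold eps; positivity

lemma eps_le (k : ℕ) : eps k ≤ 1/8 := by
  unfold eps
  have : (2/3 : ℝ)^k ≤ 1 := pow_le_one₀ (by norm_num) (by norm_num)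
  linarith

lemma rad_pos (k : ℕ) : 0 < rad k := by
  unfold rad
  have : (0:ℝ) < N k := by exact_mod_cast N_pos k
  have := eps_pos k
  positivity

lemma rho_pos (k : ℕ) : 0 < rho k := by unfold rho; positivity

lemma rho_pow (k : ℕ) : rho k ^ (N k) = 1/4 := by
  unfold rho
  rw [← Real.rpow_natCast, ← Real.rpow_mul (by norm_num)]
  have : (N k : ℝ) ≠ 0 := by exact_mod_cast (N_pos k).ne'
  rw [one_div_mul_cancel this, Real.rpow_one]

lemma rho_le_one (k : ℕ) : rho k ≤ 1 := by
  by_contra h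
  push Not at h
  have := one_le_pow₀ (n := N k) h.le
  rw [rho_pow] at this
  norm_num at this

lemma prim (k : ℕ) : IsPrimitiveRoot (Complex.exp (2 * Real.pi * Complex.I / (N k : ℂ))) (N k) :=
  Complex.isPrimitiveRoot_exp _ (N_pos k).ne'

lemma norm_root_pow (k j : ℕ) : ‖(Complex.exp (2 * Real.pi * Complex.I / (N k : ℂ))) ^ j‖ = 1 := by
  rw [norm_pow, (prim k).norm'_eq_one (N_pos k).ne', one_pow]

lemma norm_cen (k j : ℕ) : ‖cen k j‖ = rho k := by
  unfold cen
  rw [norm_mul, norm_root_pow, mul_one, Complex.norm_real, Real.norm_eq_abs, abs_of_pos (rho_pos k)]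

lemma cen_pow (k j : ℕ) : (cen k j) ^ (N k) = 1/4 := by
  unfold cen
  rw [mul_pow, ← pow_mul, mul_comm j, pow_mul, (prim k).pow_eq_one, one_pow, mul_one]
  rw [← Complex.ofReal_pow, rho_pow]
  norm_num

lemma near_center {k : ℕ} {z : ℂ} {δ : ℝ} (h : ‖f k z‖ ≤ δ) (hδ : δ ≤ 1/3) :
    ∃ j < N k, ‖z - cen k j‖ ≤ 3 * δ / N k := by
  have hN : (0:ℝ) < N k := by exact_mod_cast N_pos k
  have hN1 : (1:ℝ) ≤ N k := by exact_mod_cast N_pos k
  have hNC : (N k : ℂ) ≠ 0 := by exact_mod_cast (N_pos k).ne'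
  have hδ0 : 0 ≤ δ := (norm_nonneg _).trans h
  set w : ℂ := 4 * z ^ (N k) with hw
  have h1 : ‖w - 1‖ ≤ δ := by rw [norm_sub_rev]; exact h
  have hw0 : w ≠ 0 := by
    intro h0
    rw [h0] at h1
    simp at h1
    linarith
  have h2 : ‖Complex.log w‖ ≤ 3/2 * δ := by
    have := Complex.norm_log_one_add_half_le_self (z := w - 1) (by linarith)
    rw [add_sub_cancel] at this
    linarith
  set ζ : ℂ := Complex.exp (Complex.log w / N k) with hζ
  have hζN : ζ ^ (N k) = w := by
    rw [hζ, ← Complex.exp_nat_mul, mul_div_cancel₀ _ hNC, Complex.exp_log hw0]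
  have hζ0 : ζ ≠ 0 := Complex.exp_ne_zero _
  have hρ0 : (rho k : ℂ) ≠ 0 := by exact_mod_cast (rho_pos k).ne'
  have h3 : (z / ((rho k : ℂ) * ζ)) ^ (N k) = 1 := by
    rw [div_pow, mul_pow, hζN, ← Complex.ofReal_pow, rho_pow, hw]
    have hz0 : z ^ (N k) ≠ 0 := by
      intro h0; apply hw0; rw [hw, h0, mul_zero]
    push_cast
    field_simp
  have : NeZero (N k) := ⟨(N_pos k).ne'⟩
  obtain ⟨j, hj, hj2⟩ := (prim k).eq_pow_of_pow_eq_one h3
  refine ⟨j, hj, ?_⟩
  have h4 : z = cen k j * ζ := by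
    unfold cen
    rw [hj2]
    field_simp
  have h5 : z - cen k j = cen k j * (ζ - 1) := by rw [mul_sub, ← h4, mul_one]
  have h6 : ‖Complex.log w / N k‖ ≤ 3/2 * δ / N k := by
    rw [norm_div, Complex.norm_natCast]
    gcongr
  have h7 : ‖ζ - 1‖ ≤ 2 * ‖Complex.log w / N k‖ := by
    apply Complex.norm_exp_sub_one_le
    apply h6.trans
    rw [div_le_one hN]
    linarith
  rw [h5, norm_mul, norm_cen]
  calc rho k * ‖ζ - 1‖ ≤ 1 * (2 * (3/2 * δ / N k)) := by
        apply mul_le_mul (rho_le_one k) (by linarith) (norm_nonneg _) (by norm_num)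
    _ = 3 * δ / N k := by ring

/-- outside the open bubbles the factor is bounded below -/
lemma f_lower {k : ℕ} {z : ℂ} (h : ∀ j < N k, rad k ≤ ‖z - cen k j‖) : eps k / 4 ≤ ‖f k z‖ := by
  by_contra hc
  push Not at hc
  have he := eps_le k
  have hN : (0:ℝ) < N k := by exact_mod_cast N_pos k
  obtain ⟨j, hj, hj2⟩ := near_center hc.le (by linarith)
  have := h j hj
  unfold rad at this
  have h2 : 3 * (eps k / 4) / N k < eps k / N k := by
    apply div_lt_div_of_pos_right _ hN
    have := eps_pos k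
    linarith
  linarith

lemma norm_pow_sub_pow_le' {a b : ℂ} (ha : ‖a‖ ≤ 1) (hb : ‖b‖ ≤ 1) (n : ℕ) :
    ‖a ^ n - b ^ n‖ ≤ n * ‖a - b‖ := by
  induction n with
  | zero => simp
  | succ n ih =>
    have : a ^ (n+1) - b ^ (n+1) = a * (a ^ n - b ^ n) + (a - b) * b ^ n := by ring
    rw [this]
    calc ‖a * (a ^ n - b ^ n) + (a - b) * b ^ n‖ ≤ ‖a‖ * ‖a ^ n - b ^ n‖ + ‖a - b‖ * ‖b‖ ^ n := by
          refine (norm_add_le _ _).trans ?_
          rw [norm_mul, norm_mul, norm_pow]
      _ ≤ 1 * (n * ‖a - b‖) + ‖a - b‖ * 1 := by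
          gcongr
          exact pow_le_one₀ (norm_nonneg _) hb
      _ = ((n+1 : ℕ) : ℝ) * ‖a - b‖ := by push_cast; ring

/-- inside the closed bubbles the factor is small -/
lemma f_upper {k j : ℕ} {z : ℂ} (hz : ‖z‖ ≤ 1) (h : ‖z - cen k j‖ ≤ rad k) : ‖f k z‖ ≤ 1/2 := by
  have hN : (0:ℝ) < N k := by exact_mod_cast N_pos k
  have h1 : f k z = 4 * (cen k j ^ (N k) - z ^ (N k)) := by
    rw [cen_pow]; unfold f; ring
  rw [h1, norm_mul]
  have h2 := norm_pow_sub_pow_le' (a := cen k j) (b := z) (by rw [norm_cen]; exact rho_le_one k) hz (N k)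
  rw [norm_sub_rev (cen k j) z] at h2
  have h3 : (N k : ℝ) * ‖z - cen k j‖ ≤ eps k := by
    calc (N k : ℝ) * ‖z - cen k j‖ ≤ N k * rad k := by gcongr
      _ = eps k := by unfold rad; field_simp
  have he := eps_le k
  have : ‖(4:ℂ)‖ = 4 := by norm_num
  rw [this]
  linarith

/-- the big open set: the disc minus all closed bubbles -/
def U : Set ℂ := {z | ‖z‖ < 1 ∧ ∀ k, ∀ j < N k, rad k < ‖z - cen k j‖}

/-- the closed set of points outside the open bubbles -/
def A : Set ℂ := {z | ∀ k, ∀ j < N k, rad k ≤ ‖z - cen k j‖}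

lemma isClosed_A : IsClosed A := by
  have : A = ⋂ k, ⋂ j, ⋂ (_ : j < N k), {z : ℂ | rad k ≤ ‖z - cen k j‖} := by
    ext z; simp [A]
  rw [this]
  refine isClosed_iInter fun k => isClosed_iInter fun j => isClosed_iInter fun _ => ?_
  exact isClosed_le continuous_const (by fun_prop)

lemma U_subset_A : U ⊆ A := fun _ hz k j hj => (hz.2 k j hj).le

lemma isOpen_U : IsOpen U := by
  rw [isOpen_iff_mem_nhds]
  intro z hz
  obtain ⟨m, hm⟩ := exists_lt_c hz.1
  have h1 : ∀ᶠ w in 𝓝 z, ‖w‖ < c m := by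
    exact (continuous_norm.tendsto z).eventually (gt_mem_nhds hm)
  have h2 : ∀ᶠ w in 𝓝 z, ∀ k ∈ Finset.range m, ∀ j ∈ Finset.range (N k), rad k < ‖w - cen k j‖ := by
    rw [Filter.eventually_all_finset]
    intro k hk
    rw [Filter.eventually_all_finset]
    intro j hj
    have hc : Continuous (fun w : ℂ => ‖w - cen k j‖) := by fun_prop
    exact (hc.tendsto z).eventually (lt_mem_nhds (hz.2 k j (Finset.mem_range.mp hj)))
  filter_upwards [h1, h2] with w hw1 hw2
  have hw3 : ‖w‖ < 1 := hw1.trans (c_lt_one m)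
  refine ⟨hw3, fun k j hj => ?_⟩
  by_cases hk : k < m
  · exact hw2 k (Finset.mem_range.mpr hk) j (Finset.mem_range.mpr hj)
  · by_contra hcon
    push Not at hcon
    have h3 := f_upper hw3.le hcon
    have h4 := f_norm_small hw1.le (not_lt.mp hk)
    linarith

lemma neg_mem_U {x : ℝ} (h0 : 0 ≤ x) (h1 : x < 1) : ((-x : ℝ) : ℂ) ∈ U := by
  have hn : ‖((-x : ℝ) : ℂ)‖ = x := by
    rw [Complex.norm_real, norm_neg, Real.norm_eq_abs, abs_of_nonneg h0]
  refine ⟨by rw [hn]; exact h1, fun k j hj => ?_⟩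
  by_contra hcon
  push Not at hcon
  have h3 := f_upper (by rw [hn]; exact h1.le) hcon
  have h4 : f k ((-x : ℝ) : ℂ) = ((1 + 4 * x ^ (N k) : ℝ) : ℂ) := by
    unfold f
    rw [← Complex.ofReal_pow, (N_odd k).neg_pow]
    push_cast
    ring
  rw [h4, Complex.norm_real, Real.norm_eq_abs] at h3
  have h5 := le_abs_self (1 + 4 * x ^ (N k))
  have h6 : 0 ≤ x ^ (N k) := by positivity
  linarith

lemma sphere_subset_U (m : ℕ) : sphere (0:ℂ) (c m) ⊆ U := by
  intro z hz
  have hz' : ‖z‖ = c m := by simpa using hz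
  have h1 : ‖z‖ < 1 := by rw [hz']; exact c_lt_one m
  refine ⟨h1, fun k j hj => ?_⟩
  by_contra hcon
  push Not at hcon
  have h3 := f_upper h1.le hcon
  by_cases hk : k < m
  · obtain ⟨m', rfl⟩ : ∃ m', m = m' + 1 := ⟨m - 1, by omega⟩
    have := f_norm_big (z := z) (m := m') (k := k) hz'.ge (by omega)
    linarith
  · have := f_norm_small hz'.le (not_lt.mp hk)
    linarith

/-- the domain of the counterexample -/
def Om : Set ℂ := connectedComponentIn U 0

lemma zero_mem_U : (0:ℂ) ∈ U := by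
  have := neg_mem_U (x := 0) le_rfl one_pos
  simpa using this

lemma isOpen_Om : IsOpen Om := isOpen_U.connectedComponentIn

lemma isConnected_Om : IsConnected Om := isConnected_connectedComponentIn_iff.mpr zero_mem_U

lemma Om_subset_U : Om ⊆ U := connectedComponentIn_subset _ _

lemma zero_mem_Om : (0:ℂ) ∈ Om := mem_connectedComponentIn zero_mem_U

lemma neg_mem_Om {x : ℝ} (h0 : 0 ≤ x) (h1 : x < 1) : ((-x : ℝ) : ℂ) ∈ Om := by
  have hpre : IsPreconnected ((fun x : ℝ => ((-x : ℝ) : ℂ)) '' Set.Ico 0 1) := by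
    apply isPreconnected_Ico.image
    fun_prop
  have hsub : (fun x : ℝ => ((-x : ℝ) : ℂ)) '' Set.Ico 0 1 ⊆ U := by
    rintro _ ⟨y, hy, rfl⟩
    exact neg_mem_U hy.1 hy.2
  have h0mem : (0:ℂ) ∈ (fun x : ℝ => ((-x : ℝ) : ℂ)) '' Set.Ico 0 1 := ⟨0, by simp, by simp⟩
  exact hpre.subset_connectedComponentIn h0mem hsub ⟨x, ⟨h0, h1⟩, rfl⟩

lemma rank_cond : 1 < Module.rank ℝ ℂ := by
  rw [Complex.rank_real_complex]; norm_num

lemma sphere_subset_Om (m : ℕ) : sphere (0:ℂ) (c m) ⊆ Om := by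
  have hpre : IsPreconnected (sphere (0:ℂ) (c m)) := isPreconnected_sphere rank_cond 0 (c m)
  have hmem : ((-(c m) : ℝ) : ℂ) ∈ Om := neg_mem_Om (c_pos m).le (c_lt_one m)
  have hmem2 : ((-(c m) : ℝ) : ℂ) ∈ sphere (0:ℂ) (c m) := by
    rw [mem_sphere_zero_iff_norm, Complex.norm_real, norm_neg, Real.norm_eq_abs, abs_of_pos (c_pos m)]
  have := hpre.subset_connectedComponentIn hmem2 (sphere_subset_U m)
  rwa [← connectedComponentIn_eq hmem] at this

lemma closure_Om_subset_A : closure Om ⊆ A :=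
  closure_minimal (Om_subset_U.trans U_subset_A) isClosed_A

lemma closure_Om_subset_ball : closure Om ⊆ closedBall 0 1 := by
  apply closure_minimal _ isClosed_closedBall
  intro z hz
  have := (Om_subset_U hz).1
  rw [mem_closedBall_zero_iff]
  exact this.le

lemma sphere_subset_closure : sphere (0:ℂ) 1 ⊆ closure Om := by
  intro z hz
  have hz' : ‖z‖ = 1 := by simpa using hz
  apply mem_closure_of_tendsto (f := fun m : ℕ => ((c m : ℝ) : ℂ) * z) (b := atTop)
  · have h1 : Tendsto (fun m : ℕ => ((c m : ℝ) : ℂ)) atTop (𝓝 ((1:ℝ):ℂ)) :=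
      (Complex.continuous_ofReal.tendsto 1).comp c_tendsto
    have := h1.mul_const z
    simpa using this
  · refine Eventually.of_forall fun m => sphere_subset_Om m ?_
    rw [mem_sphere_zero_iff_norm, norm_mul, hz', mul_one, Complex.norm_real, Real.norm_eq_abs,
      abs_of_pos (c_pos m)]

lemma frontier_Om_subset : frontier Om ⊆
    sphere (0:ℂ) 1 ∪ ⋃ k, ⋃ j ∈ Finset.range (N k), sphere (cen k j) (rad k) := by
  intro z hz
  rw [frontier, isOpen_Om.interior_eq] at hz
  obtain ⟨hz1, hz2⟩ := hz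
  have hz3 : ‖z‖ ≤ 1 := by simpa using closure_Om_subset_ball hz1
  rcases hz3.eq_or_lt with h | h
  · left; simpa using h
  · right
    have hzU : z ∉ U := by
      intro hzU
      obtain ⟨r, hr, hball⟩ := Metric.isOpen_iff.mp isOpen_U z hzU
      obtain ⟨w, hw1, hw2⟩ := Metric.mem_closure_iff.mp hz1 r hr
      have hpre : IsPreconnected (ball z r) := isPreconnected_ball
      have hw3 : w ∈ ball z r := by rw [mem_ball, dist_comm]; exact hw2
      have := hpre.subset_connectedComponentIn hw3 hball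
      rw [← connectedComponentIn_eq hw1] at this
      exact hz2 (this (mem_ball_self hr))
    have : ∃ k, ∃ j < N k, ‖z - cen k j‖ ≤ rad k := by
      by_contra hcon
      push Not at hcon
      exact hzU ⟨h, hcon⟩
    obtain ⟨k, j, hj, hle⟩ := this
    have hge := closure_Om_subset_A hz1 k j hj
    simp only [Set.mem_iUnion]
    refine ⟨k, j, Finset.mem_range.mpr hj, ?_⟩
    rw [mem_sphere, dist_eq_norm]
    exact le_antisymm hle hge

lemma hausdorff_sphere_le (x : ℂ) (r : ℝ) (hr : 0 ≤ r) :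
    μH[1] (sphere x r) ≤ ENNReal.ofReal (r * (2 * Real.pi)) := by
  have h1 : sphere x r = circleMap x r '' Set.Ioc 0 (2 * Real.pi) := by
    rw [image_circleMap_Ioc, abs_of_nonneg hr]
  rw [h1]
  have h2 := (lipschitzWith_circleMap x r).hausdorffMeasure_image_le (d := 1) zero_le_one
    (Set.Ioc 0 (2 * Real.pi))
  refine h2.trans ?_
  rw [hausdorffMeasure_real, Real.volume_Ioc, ENNReal.ofReal_mul hr, ENNReal.rpow_one, sub_zero]
  gcongr
  rw [Real.nnabs_of_nonneg hr]
  rfl

lemma rad_mul (k : ℕ) : (N k : ℝ) * rad k = eps k := by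
  have hN : (0:ℝ) < N k := by exact_mod_cast N_pos k
  unfold rad; field_simp

lemma frontier_finite : μH[1] (frontier Om) < ⊤ := by
  have hπ := Real.pi_pos
  refine (measure_mono frontier_Om_subset).trans_lt ?_
  refine (measure_union_le _ _).trans_lt ?_
  apply ENNReal.add_lt_top.mpr
  constructor
  · exact (hausdorff_sphere_le 0 1 zero_le_one).trans_lt ENNReal.ofReal_lt_top
  · refine (measure_iUnion_le _).trans_lt ?_
    have h1 : ∀ k, μH[1] (⋃ j ∈ Finset.range (N k), sphere (cen k j) (rad k)) ≤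
        ENNReal.ofReal (eps k * (2 * Real.pi)) := by
      intro k
      refine (measure_biUnion_finset_le _ _).trans ?_
      calc ∑ j ∈ Finset.range (N k), μH[1] (sphere (cen k j) (rad k))
          ≤ ∑ j ∈ Finset.range (N k), ENNReal.ofReal (rad k * (2 * Real.pi)) := by
            gcongr with j hj
            exact hausdorff_sphere_le _ _ (rad_pos k).le
        _ = ENNReal.ofReal (eps k * (2 * Real.pi)) := by
            rw [Finset.sum_const, Finset.card_range, nsmul_eq_mul, ← ENNReal.ofReal_natCast,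
              ← ENNReal.ofReal_mul (Nat.cast_nonneg _), ← mul_assoc, rad_mul]
    refine (ENNReal.tsum_le_tsum h1).trans_lt ?_
    have h2 : Summable (fun k => eps k * (2 * Real.pi)) := by
      unfold eps
      apply Summable.mul_right
      apply Summable.mul_left
      exact summable_geometric_of_lt_one (by norm_num) (by norm_num)
    rw [← ENNReal.ofReal_tsum_of_nonneg (fun k => by have := eps_pos k; positivity) h2]
    exact ENNReal.ofReal_lt_top

lemma sphere_pos : 0 < μH[1] (sphere (0:ℂ) 1) := by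
  have h1 : LipschitzWith 1 (fun z : ℂ => z.re) := by
    apply LipschitzWith.of_dist_le_mul
    intro x y
    rw [NNReal.coe_one, one_mul, Real.dist_eq, Complex.dist_eq, ← Complex.sub_re]
    exact Complex.abs_re_le_norm _
  have h2 := h1.hausdorffMeasure_image_le (d := 1) zero_le_one (sphere (0:ℂ) 1)
  have h3 : Set.Icc (-1:ℝ) 1 ⊆ (fun z : ℂ => z.re) '' sphere (0:ℂ) 1 := by
    intro x hx
    refine ⟨⟨x, Real.sqrt (1 - x^2)⟩, ?_, rfl⟩
    rw [mem_sphere_zero_iff_norm, Complex.norm_def, Complex.normSq_mk]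
    have h4 : 0 ≤ 1 - x^2 := by nlinarith [hx.1, hx.2]
    rw [← sq √(1 - x^2), Real.sq_sqrt h4]
    have : x * x + (1 - x^2) = 1 := by ring
    rw [this, Real.sqrt_one]
  have h4 : (0:ENNReal) < μH[1] ((fun z : ℂ => z.re) '' sphere (0:ℂ) 1) := by
    refine lt_of_lt_of_le ?_ (measure_mono h3)
    rw [hausdorffMeasure_real, Real.volume_Icc]
    norm_num
  refine h4.trans_le (h2.trans ?_)
  simp

/-- the outer component -/
lemma ext_preconnected : IsPreconnected {w : ℂ | 1 < ‖w‖} := by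
  have h : {w : ℂ | 1 < ‖w‖} = (fun p : ℝ × ℂ => (p.1 : ℂ) * p.2) '' (Set.Ioi 1 ×ˢ sphere (0:ℂ) 1) := by
    ext w
    constructor
    · intro hw
      have hw' : 1 < ‖w‖ := hw
      have hw0 : (‖w‖ : ℂ) ≠ 0 := by
        have : ‖w‖ ≠ 0 := by linarith
        exact_mod_cast this
      refine ⟨(‖w‖, w / ‖w‖), ⟨hw', ?_⟩, ?_⟩
      · rw [mem_sphere_zero_iff_norm, norm_div, Complex.norm_real, norm_norm]
        apply div_self; linarith
      · simp only
        field_simp
    · rintro ⟨⟨r, z⟩, ⟨hr, hz⟩, rfl⟩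
      have hz' : ‖z‖ = 1 := by simpa using hz
      have hr' : 1 < r := hr
      simp only [Set.mem_ofPred_eq, norm_mul, hz', mul_one, Complex.norm_real, Real.norm_eq_abs]
      exact lt_of_lt_of_le hr' (le_abs_self r)
  rw [h]
  apply IsPreconnected.image
  · exact isPreconnected_Ioi.prod (isPreconnected_sphere rank_cond 0 1)
  · fun_prop

lemma outer (z : ℂ) (hz : z ∉ closure Om)
    (hb : ¬ Bornology.IsBounded (connectedComponentIn (closure Om)ᶜ z)) :
    frontier (connectedComponentIn (closure Om)ᶜ z) = sphere (0:ℂ) 1 := by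
  set V := connectedComponentIn (closure Om)ᶜ z with hV
  have hVsub : V ⊆ (closure Om)ᶜ := connectedComponentIn_subset _ _
  have hVpre : IsPreconnected V := isPreconnected_connectedComponentIn
  have hdisj : ∀ w ∈ V, ‖w‖ ≠ 1 := by
    intro w hw h1
    exact hVsub hw (sphere_subset_closure (by simpa using h1))
  have hcover : V ⊆ ball 0 1 ∪ {w : ℂ | 1 < ‖w‖} := by
    intro w hw
    rcases lt_trichotomy ‖w‖ 1 with h | h | h
    · left; simpa using h
    · exact absurd h (hdisj w hw)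
    · right; exact h
  have hopen : IsOpen {w : ℂ | 1 < ‖w‖} := isOpen_lt continuous_const continuous_norm
  have hnb : ¬ V ⊆ ball 0 1 := fun h => hb (isBounded_ball.subset h)
  have hext : V ⊆ {w : ℂ | 1 < ‖w‖} := by
    have hd : Disjoint (ball (0:ℂ) 1) {w : ℂ | 1 < ‖w‖} := by
      rw [Set.disjoint_left]
      intro w hw hw2
      have h1 : ‖w‖ < 1 := by simpa using hw
      have h2 : 1 < ‖w‖ := hw2
      linarith
    rcases hVpre.subset_or_subset isOpen_ball hopen hd hcover with h | h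
    · exact absurd h hnb
    · exact h
  have hzV : z ∈ V := mem_connectedComponentIn hz
  have hext_sub : {w : ℂ | 1 < ‖w‖} ⊆ (closure Om)ᶜ := by
    intro w hw hw2
    have h1 : ‖w‖ ≤ 1 := by simpa using closure_Om_subset_ball hw2
    have h2 : 1 < ‖w‖ := hw
    linarith
  have hVeq : V = {w : ℂ | 1 < ‖w‖} :=
    hext.antisymm (ext_preconnected.subset_connectedComponentIn (hext hzV) hext_sub)
  have hcompl : {w : ℂ | 1 < ‖w‖} = (closedBall (0:ℂ) 1)ᶜ := by
    ext w; simp
  rw [hVeq, hcompl, frontier_compl, frontier_closedBall _ one_ne_zero]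

/-- the subharmonic function of the counterexample -/
noncomputable def u (z : ℂ) : EReal := if ‖z‖ < 1 then ((-L z : ℝ) : EReal) else ⊥

lemma f_ne_zero_of_mem_A {z : ℂ} (hz : z ∈ A) (k : ℕ) : f k z ≠ 0 := by
  have h1 := f_lower (hz k)
  have h2 := eps_pos k
  intro h0
  rw [h0, norm_zero] at h1
  linarith

lemma L_lower {z : ℂ} {m : ℕ} (hA : z ∈ A) (h1 : ‖z‖ < 1) (hm : c m ≤ ‖z‖) :
    (m : ℝ) * Real.log (4/3) - (Real.log 32 + 1) ≤ L z := by
  classical
  have hex : ∃ n, ‖z‖ < c n := exists_lt_c h1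
  obtain ⟨n, hn, hmin⟩ : ∃ n, ‖z‖ < c n ∧ ∀ k < n, ¬ ‖z‖ < c k :=
    ⟨Nat.find hex, Nat.find_spec hex, fun k hk => Nat.find_min hex hk⟩
  have hmn : m < n := by
    by_contra hcon
    have := c_mono (not_lt.mp hcon)
    linarith
  obtain ⟨m', rfl⟩ : ∃ m', n = m' + 1 := ⟨n - 1, by omega⟩
  have hm' : c m' ≤ ‖z‖ := not_lt.mp (hmin m' (by omega))
  have htail : |∑' k, Real.log ‖f (k + (m'+1)) z‖| ≤ (1/2:ℝ)^(m'+1) := tail_le hn.le le_rfl
  have hhalf : (1/2:ℝ)^(m'+1) ≤ 1 := pow_le_one₀ (by norm_num) (by norm_num)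
  have htail2 := neg_abs_le (∑' k, Real.log ‖f (k + (m'+1)) z‖)
  rw [L_split h1 (m'+1)]
  have hLn : Ln (m'+1) z = Ln m' z + Real.log ‖f m' z‖ := by
    unfold Ln; rw [Finset.sum_range_succ]
  have hsum : (m' : ℝ) * Real.log 2 ≤ Ln m' z := by
    unfold Ln
    calc (m' : ℝ) * Real.log 2 = ∑ k ∈ Finset.range m', Real.log 2 := by
          rw [Finset.sum_const, Finset.card_range, nsmul_eq_mul]
      _ ≤ ∑ k ∈ Finset.range m', Real.log ‖f k z‖ := by
          apply Finset.sum_le_sum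
          intro k hk
          have hk' := Finset.mem_range.mp hk
          apply Real.log_le_log (by norm_num)
          obtain ⟨m'', rfl⟩ : ∃ m'', m' = m'' + 1 := ⟨m' - 1, by omega⟩
          exact f_norm_big hm' (by omega)
  have hmid : Real.log (eps m' / 4) ≤ Real.log ‖f m' z‖ :=
    Real.log_le_log (by have := eps_pos m'; positivity) (f_lower (hA m'))
  have heps : Real.log (eps m' / 4) = (m' : ℝ) * Real.log (2/3) - Real.log 32 := by
    unfold eps
    have : (1/8 : ℝ) * (2/3)^m' / 4 = (2/3)^m' / 32 := by ring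
    rw [this, Real.log_div (by positivity) (by norm_num), Real.log_pow]
  have hlog : Real.log 2 + Real.log (2/3) = Real.log (4/3) := by
    rw [← Real.log_mul (by norm_num) (by norm_num)]; norm_num
  have hlogpos : 0 ≤ Real.log (4/3) := Real.log_nonneg (by norm_num)
  have hmm : (m : ℝ) ≤ m' := by exact_mod_cast (by omega : m ≤ m')
  have : (m : ℝ) * Real.log (4/3) ≤ m' * Real.log (4/3) := by gcongr
  have h5 : (m' : ℝ) * Real.log 2 + m' * Real.log (2/3) = m' * Real.log (4/3) := by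
    rw [← mul_add, hlog]
  rw [hLn]
  linarith

lemma L_continuousAt {z : ℂ} (hA : z ∈ A) (h1 : ‖z‖ < 1) : ContinuousAt L z := by
  obtain ⟨m, hm⟩ := exists_lt_c h1
  have h2 : ContinuousOn (fun w => ∑' k, Real.log ‖f (k + m) w‖) (ball 0 (c m)) := by
    apply continuousOn_tsum (u := fun k : ℕ => (1/2 : ℝ) ^ (k + m + 1)) _ (geo_summable m)
    · intro k w hw
      have hw' : ‖w‖ < c m := by simpa using hw
      rw [Real.norm_eq_abs]
      exact f_log_small hw'.le (by omega)
    · intro k w hw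
      have hw' : ‖w‖ < c m := by simpa using hw
      have h3 := f_norm_small (k := k + m) hw'.le (by omega)
      apply ContinuousAt.continuousWithinAt
      apply ContinuousAt.log
      · unfold f; fun_prop
      · intro h0; rw [h0] at h3; norm_num at h3
  have hmem : ball (0:ℂ) (c m) ∈ 𝓝 z := isOpen_ball.mem_nhds (by simpa using hm)
  have h3 : ContinuousAt (fun w => Ln m w + ∑' k, Real.log ‖f (k + m) w‖) z := by
    apply ContinuousAt.add
    · unfold Ln
      apply tendsto_finsetSum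
      intro k _
      apply ContinuousAt.log
      · unfold f; fun_prop
      · exact norm_ne_zero_iff.mpr (f_ne_zero_of_mem_A hA k)
    · exact h2.continuousAt hmem
  apply h3.congr
  filter_upwards [hmem] with w hw
  have hw' : ‖w‖ < c m := by simpa using hw
  exact (L_split (hw'.trans (c_lt_one m)) m).symm

lemma u_eq {z : ℂ} (h1 : ‖z‖ < 1) : u z = ((-L z : ℝ) : EReal) := by
  unfold u; rw [if_pos h1]

lemma u_tendsto {ζ : ℂ} (hζ : ‖ζ‖ = 1) : Tendsto u (𝓝[closure Om] ζ) (𝓝 ⊥) := by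
  rw [EReal.tendsto_nhds_bot_iff_real]
  intro x
  have hlogpos : 0 < Real.log (4/3) := Real.log_pos (by norm_num)
  obtain ⟨m, hm⟩ := exists_nat_gt ((-x + (Real.log 32 + 1)) / Real.log (4/3))
  rw [div_lt_iff₀ hlogpos] at hm
  have h1 : ∀ᶠ w in 𝓝[closure Om] ζ, c m < ‖w‖ := by
    apply eventually_nhdsWithin_of_eventually_nhds
    apply (continuous_norm.tendsto ζ).eventually
    rw [hζ]
    exact lt_mem_nhds (c_lt_one m)
  filter_upwards [h1, self_mem_nhdsWithin] with w hw hw2
  by_cases h : ‖w‖ < 1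
  · rw [u_eq h]
    have := L_lower (closure_Om_subset_A hw2) h hw.le
    exact_mod_cast (by linarith : -L w < x)
  · unfold u
    rw [if_neg h]
    exact EReal.bot_lt_coe x

lemma maxprinc {x : ℂ} {r : ℝ} (hr : 0 < r) (φ : ℂ → ℂ) (F : ℂ → ℝ)
    (hφ : DifferentiableOn ℂ φ (ball x r)) (hF : ContinuousOn F (closedBall x r))
    (heq : ∀ z ∈ ball x r, ‖φ z‖ = Real.exp (F z)) {a : ℝ} (hs : ∀ z ∈ sphere x r, F z ≤ a) :
    ∀ z ∈ closedBall x r, F z ≤ a := by
  obtain ⟨z0, hz0, hmax⟩ := (isCompact_closedBall x r).exists_isMaxOn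
    ⟨x, mem_closedBall_self hr.le⟩ hF
  suffices h : F z0 ≤ a by
    intro z hz
    exact (hmax hz).trans h
  by_cases hz : z0 ∈ sphere x r
  · exact hs z0 hz
  · have hz0b : z0 ∈ ball x r := by
      rw [mem_ball]
      rw [mem_sphere] at hz
      exact lt_of_le_of_ne hz0 hz
    have hmax2 : IsMaxOn (norm ∘ φ) (ball x r) z0 := by
      intro z hz
      simp only [Set.mem_ofPred_eq, Function.comp]
      rw [heq z hz, heq z0 hz0b]
      exact Real.exp_le_exp.mpr (hmax (ball_subset_closedBall hz))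
    have hconst := Complex.norm_eqOn_of_isPreconnected_of_isMaxOn isPreconnected_ball isOpen_ball hφ
      hz0b hmax2
    have hconst2 : Set.EqOn F (fun _ => F z0) (ball x r) := by
      intro z hz
      have := hconst hz
      simp only [Function.comp, Function.const_apply] at this
      rw [heq z hz, heq z0 hz0b] at this
      exact Real.exp_injective this
    have hconst3 : Set.EqOn F (fun _ => F z0) (closedBall x r) :=
      hconst2.of_subset_closure hF continuousOn_const ball_subset_closedBall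
        (closure_ball x hr.ne').ge
    have hp : x + r ∈ sphere x r := by
      rw [mem_sphere, dist_eq_norm, add_sub_cancel_left, Complex.norm_real, Real.norm_eq_abs,
        abs_of_pos hr]
    have := hconst3 (sphere_subset_closedBall hp)
    simp only at this
    rw [← this]
    exact hs _ hp

lemma u_sub (x : ℂ) (r : ℝ) (hr : 0 < r) (hsub : closedBall x r ⊆ Om)
    (h : ℂ → ℝ) (hh : ContinuousOn h (closedBall x r))
    (hg : ∃ g : ℂ → ℂ, DifferentiableOn ℂ g (ball x r) ∧ ∀ z ∈ ball x r, h z = (g z).re)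
    (hs : ∀ z ∈ sphere x r, u z ≤ (h z : EReal)) :
    ∀ z ∈ closedBall x r, u z ≤ (h z : EReal) := by
  obtain ⟨g, hg1, hg2⟩ := hg
  have hlt : ∀ z ∈ closedBall x r, ‖z‖ < 1 := fun z hz => (Om_subset_U (hsub hz)).1
  have hA : ∀ z ∈ closedBall x r, z ∈ A := fun z hz => U_subset_A (Om_subset_U (hsub hz))
  have hs' : ∀ z ∈ sphere x r, -L z ≤ h z := by
    intro z hz
    have := hs z hz
    rw [u_eq (hlt z (sphere_subset_closedBall hz))] at this
    exact_mod_cast this
  obtain ⟨z1, hz1, hmax⟩ := (isCompact_closedBall x r).exists_isMaxOn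
    ⟨x, mem_closedBall_self hr.le⟩ (continuous_norm (E := ℂ)).continuousOn
  obtain ⟨m, hm⟩ := exists_lt_c (hlt z1 hz1)
  have hle : ∀ z ∈ closedBall x r, ‖z‖ ≤ c m := fun z hz => (hmax hz).trans hm.le
  have key : ∀ n, m ≤ n → ∀ z ∈ closedBall x r, -L z - h z ≤ 2 * (1/2:ℝ)^n := by
    intro n hn z hz
    have hF : ∀ z ∈ closedBall x r, -Ln n z - h z ≤ (1/2:ℝ)^n := by
      apply maxprinc hr (fun z => Complex.exp (-g z) / ∏ k ∈ Finset.range n, f k z)
      · apply DifferentiableOn.div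
        · exact (hg1.neg).cexp
        · unfold f
          fun_prop
        · intro w hw
          rw [Finset.prod_ne_zero_iff]
          intro k _
          exact f_ne_zero_of_mem_A (hA w (ball_subset_closedBall hw)) k
      · apply ContinuousOn.sub _ hh
        apply ContinuousOn.neg
        unfold Ln
        apply continuousOn_finsetSum
        intro k _
        apply ContinuousOn.log
        · unfold f; fun_prop
        · intro w hw
          exact norm_ne_zero_iff.mpr (f_ne_zero_of_mem_A (hA w hw) k)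
      · intro w hw
        rw [norm_div, Complex.norm_exp, Real.exp_sub, Real.exp_neg, norm_prod]
        have h1 : Real.exp (Ln n w) = ∏ k ∈ Finset.range n, ‖f k w‖ := by
          unfold Ln
          rw [Real.exp_sum]
          apply Finset.prod_congr rfl
          intro k _
          exact Real.exp_log (norm_pos_iff.mpr (f_ne_zero_of_mem_A (hA w (ball_subset_closedBall hw)) k))
        rw [h1, hg2 w hw, Complex.neg_re, Real.exp_neg]
        rw [div_eq_mul_inv, div_eq_mul_inv, mul_comm]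
      · intro w hw
        have hw' := sphere_subset_closedBall hw
        have h1 := L_approx (hle w hw') hn
        have h2 := hs' w hw
        have h3 := (abs_le.mp h1).2
        linarith
    have h1 := L_approx (hle z hz) hn
    have h2 := hF z hz
    have h3 := (abs_le.mp h1).1
    linarith
  intro z hz
  rw [u_eq (hlt z hz)]
  have hlim : Tendsto (fun n : ℕ => 2 * (1/2:ℝ)^n) atTop (𝓝 0) := by
    have := (tendsto_pow_atTop_nhds_zero_of_lt_one (r := (1/2:ℝ)) (by norm_num) (by norm_num)).const_mul 2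
    simpa using this
  have : -L z - h z ≤ 0 := by
    apply ge_of_tendsto hlim
    filter_upwards [eventually_ge_atTop m] with n hn
    exact key n hn z hz
  exact_mod_cast (by linarith : -L z ≤ h z)

/-- The negation of the preceding statement: Let Ω be a bounded plane domain with finite-length boundary and Jordan-curve outer boundary Γ. If u is subharmonic on Ω, usc on its closure and tends to −∞ at each point of a subset of Γ of positive length, then u is identically −∞ on Ω. -/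
theorem result :
    ¬ (∀ (Ω : Set ℂ) (u : ℂ → EReal) (E : Set ℂ) (γ : Circle → ℂ),
      IsOpen Ω → IsConnected Ω → Bornology.IsBounded Ω →
      μH[1] (frontier Ω) < ⊤ →
      Continuous γ → Function.Injective γ →
      (∀ z, z ∉ closure Ω →
          ¬ Bornology.IsBounded (connectedComponentIn (closure Ω)ᶜ z) →
          frontier (connectedComponentIn (closure Ω)ᶜ z) = Set.range γ) →
      (∀ z ∈ closure Ω, u z ≠ ⊤) →
      UpperSemicontinuousOn u (closure Ω) →
      (∀ (c : ℂ) (r : ℝ), 0 < r → closedBall c r ⊆ Ω →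
        ∀ h : ℂ → ℝ, ContinuousOn h (closedBall c r) →
          (∃ g : ℂ → ℂ, DifferentiableOn ℂ g (ball c r) ∧
              ∀ z ∈ ball c r, h z = (g z).re) →
          (∀ z ∈ sphere c r, u z ≤ (h z : EReal)) →
          ∀ z ∈ closedBall c r, u z ≤ (h z : EReal)) →
      E ⊆ Set.range γ →
      0 < μH[1] E →
      (∀ ζ ∈ E, Tendsto u (𝓝[Ω] ζ) (𝓝 ⊥)) →
      ∀ z ∈ Ω, u z = ⊥) := by
  intro H
  have hrange : Set.range (fun z : Circle => (z : ℂ)) = sphere (0:ℂ) 1 := by
    ext z
    simp only [Set.mem_range, mem_sphere_zero_iff_norm]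
    constructor
    · rintro ⟨w, rfl⟩; exact Circle.norm_coe w
    · intro hz; exact ⟨⟨z, by simpa [Submonoid.unitSphere] using hz⟩, rfl⟩
  have := H Om u (sphere (0:ℂ) 1) (fun z => (z : ℂ)) isOpen_Om isConnected_Om
    (isBounded_closedBall.subset (subset_closure.trans closure_Om_subset_ball))
    frontier_finite (by fun_prop) Circle.coe_injective
    (fun z hz hb => by rw [hrange]; exact outer z hz hb)
    (fun z _ => by
      unfold Pool.Agent.S03990.u
      split_ifs
      · exact EReal.coe_ne_top _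
      · exact bot_ne_top)
    (fun z hz => by
      by_cases h1 : ‖z‖ < 1
      · apply ContinuousWithinAt.upperSemicontinuousWithinAt
        apply ContinuousAt.continuousWithinAt
        have h2 : ContinuousAt (fun w => ((-L w : ℝ) : EReal)) z :=
          (continuous_coe_real_ereal.continuousAt).comp
            (L_continuousAt (closure_Om_subset_A hz) h1).neg
        apply h2.congr
        have h3 : ∀ᶠ w : ℂ in 𝓝 z, ‖w‖ < 1 := (continuous_norm.tendsto z).eventually (gt_mem_nhds h1)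
        filter_upwards [h3] with w hw
        exact (u_eq hw).symm
      · have h2 : ‖z‖ ≤ 1 := by simpa using closure_Om_subset_ball hz
        have h3 : ‖z‖ = 1 := le_antisymm h2 (not_lt.mp h1)
        have h4 := u_tendsto h3
        intro y hy
        have h5 : (⊥ : EReal) < y := lt_of_le_of_lt bot_le hy
        exact h4.eventually (gt_mem_nhds h5))
    u_sub (by rw [hrange]) sphere_pos
    (fun ζ hζ => (u_tendsto (by simpa using hζ)).mono_left (nhdsWithin_mono ζ subset_closure))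
    0 zero_mem_Om
  rw [u_eq (by simp)] at this
  exact EReal.coe_ne_bot _ this

end Pool.Agent.S03990
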