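import Pool.Statements.S03994
-- import your own Pool.Agent.* helpers here

set_option autoImplicit false
open MeasureTheory
open Pool Pool.MP_c46510_an

namespace Pool.Agent.S03994

/-- The Haar function on the line. -/
noncomputable def haar (x : ℝ) : ℝ :=
  if 0 ≤ x ∧ x < 1 / 2 then 1 else if 1 / 2 ≤ x ∧ x < 1 then -1 else 0

lemma haar_eq_zero {x : ℝ} (h : x < 0 ∨ 1 ≤ x) : haar x = 0 := by
  unfold haar
  rcases h with h | h
  · rw [if_neg (by intro h'; linarith [h'.1]), if_neg (by intro h'; linarith [h'.1])]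
  · rw [if_neg (by intro h'; linarith [h'.2]), if_neg (by intro h'; linarith [h'.2])]

lemma haar_left {x : ℝ} (h0 : 0 ≤ x) (h1 : x < 1 / 2) : haar x = 1 := by
  unfold haar; rw [if_pos ⟨h0, h1⟩]

lemma haar_right {x : ℝ} (h0 : 1 / 2 ≤ x) (h1 : x < 1) : haar x = -1 := by
  unfold haar; rw [if_neg (by intro h'; linarith [h'.2]), if_pos ⟨h0, h1⟩]

lemma haar_eq (x : ℝ) : haar x =
    Set.indicator (Set.Ico (0:ℝ) (1/2)) (fun _ => (1:ℝ)) x
      - Set.indicator (Set.Ico (1/2:ℝ) 1) (fun _ => (1:ℝ)) x := by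
  by_cases h1 : 0 ≤ x ∧ x < 1 / 2
  · rw [haar_left h1.1 h1.2, Set.indicator_of_mem (by exact h1), Set.indicator_of_notMem]
    · simp
    · intro h; have := h.1; linarith [h1.2]
  · by_cases h2 : 1 / 2 ≤ x ∧ x < 1
    · rw [haar_right h2.1 h2.2, Set.indicator_of_notMem, Set.indicator_of_mem (by exact h2)]
      · simp
      · intro h; exact h1 h
    · unfold haar
      rw [if_neg h1, if_neg h2, Set.indicator_of_notMem (by exact h1), Set.indicator_of_notMem (by exact h2)]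
      simp

lemma measurable_haar : Measurable haar := by
  have : haar = fun x => Set.indicator (Set.Ico (0:ℝ) (1/2)) (fun _ => (1:ℝ)) x
      - Set.indicator (Set.Ico (1/2:ℝ) 1) (fun _ => (1:ℝ)) x := by
    funext x; exact haar_eq x
  rw [this]
  exact (measurable_const.indicator measurableSet_Ico).sub (measurable_const.indicator measurableSet_Ico)

lemma abs_haar_le (x : ℝ) : |haar x| ≤ 1 := by
  unfold haar; split_ifs <;> simp

lemma haar_sq (x : ℝ) : haar x * haar x = Set.indicator (Set.Ico (0:ℝ) 1) (fun _ => (1:ℝ)) x := by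
  by_cases h : 0 ≤ x ∧ x < 1
  · rw [Set.indicator_of_mem (by exact h)]
    by_cases h2 : x < 1/2
    · rw [haar_left h.1 h2]; simp
    · rw [haar_right (not_lt.1 h2) h.2]; simp
  · rw [Set.indicator_of_notMem (by exact h), haar_eq_zero]; · simp
    by_contra hc
    rw [not_or, not_lt, not_le] at hc
    exact h hc

lemma integral_ind (a b : ℝ) (h : a ≤ b) :
    ∫ x, Set.indicator (Set.Ico a b) (fun _ => (1:ℝ)) x = b - a := by
  rw [integral_indicator measurableSet_Ico]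
  simp [h]

lemma integrable_ind (a b : ℝ) :
    Integrable (fun x => Set.indicator (Set.Ico a b) (fun _ => (1:ℝ)) x) := by
  rw [integrable_indicator_iff measurableSet_Ico]
  exact integrableOn_const (by simp)

lemma integrable_haar : Integrable haar := by
  have : haar = fun x => Set.indicator (Set.Ico (0:ℝ) (1/2)) (fun _ => (1:ℝ)) x - Set.indicator (Set.Ico (1/2:ℝ) 1) (fun _ => (1:ℝ)) x := by
    funext x; exact haar_eq x
  rw [this]
  exact (integrable_ind _ _).sub (integrable_ind _ _)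

lemma integral_haar : ∫ x, haar x = 0 := by
  simp_rw [haar_eq]
  rw [integral_sub (integrable_ind _ _) (integrable_ind _ _), integral_ind _ _ (by norm_num),
    integral_ind _ _ (by norm_num)]
  norm_num

/-- products of a Haar function with a finer one -/
lemma integral_haar_mul (n : ℕ) (m : ℤ) :
    ∫ x, haar x * haar (2 ^ n * x - m) = if n = 0 ∧ m = 0 then 1 else 0 := by
  rcases Nat.eq_zero_or_pos n with hn | hn
  · subst hn
    by_cases hm : m = 0
    · subst hm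
      rw [if_pos ⟨rfl, rfl⟩]
      simp only [pow_zero, one_mul, Int.cast_zero, sub_zero, haar_sq]
      rw [integral_ind _ _ (by norm_num)]; norm_num
    · rw [if_neg (by tauto)]
      have : (fun x : ℝ => haar x * haar (2 ^ 0 * x - m)) = fun _ => 0 := by
        funext x
        by_cases hx : x < 0 ∨ 1 ≤ x
        · rw [haar_eq_zero hx, zero_mul]
        · rw [not_or, not_lt, not_le] at hx
          rw [haar_eq_zero (x := 2 ^ 0 * x - m), mul_zero]
          rcases lt_or_gt_of_ne hm with h | h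
          · right
            have : (m : ℝ) ≤ -1 := by exact_mod_cast (by omega : m ≤ -1)
            simp only [pow_zero, one_mul]; linarith [hx.1]
          · left
            have : (1 : ℝ) ≤ m := by exact_mod_cast (by omega : 1 ≤ m)
            simp only [pow_zero, one_mul]; linarith [hx.2]
      rw [this]; simp
  · obtain ⟨k, rfl⟩ : ∃ k, n = k + 1 := ⟨n - 1, by omega⟩
    rw [if_neg (by omega)]
    have key : ∃ c : ℝ, ∀ x : ℝ, haar x * haar (2 ^ (k + 1) * x - m) =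
        c * haar (2 ^ (k + 1) * x - m) := by
      have h2 : (0 : ℝ) < 2 ^ k := by positivity
      rcases lt_or_ge m 0 with h0 | h0
      · refine ⟨0, fun x => ?_⟩
        by_cases hx : haar (2 ^ (k + 1) * x - m) = 0
        · rw [hx]; ring
        · have hx' : ¬ (2 ^ (k + 1) * x - m < 0 ∨ 1 ≤ 2 ^ (k + 1) * x - m) :=
            fun h => hx (haar_eq_zero h)
          rw [not_or, not_lt, not_le] at hx'
          have hm : (m : ℝ) + 1 ≤ 0 := by exact_mod_cast (by omega : m + 1 ≤ 0)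
          have : x < 0 := by
            by_contra hc
            rw [not_lt] at hc
            have : 0 ≤ 2 ^ (k + 1) * x := by positivity
            linarith [hx'.2]
          rw [haar_eq_zero (Or.inl this)]
      · rcases lt_or_ge m (2 ^ k) with h1 | h1
        · refine ⟨1, fun x => ?_⟩
          by_cases hx : haar (2 ^ (k + 1) * x - m) = 0
          · rw [hx]; ring
          · have hx' : ¬ (2 ^ (k + 1) * x - m < 0 ∨ 1 ≤ 2 ^ (k + 1) * x - m) :=
              fun h => hx (haar_eq_zero h)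
            rw [not_or, not_lt, not_le] at hx'
            have hm0 : (0 : ℝ) ≤ m := by exact_mod_cast h0
            have hm1 : (m : ℝ) + 1 ≤ 2 ^ k := by exact_mod_cast (by omega : m + 1 ≤ 2 ^ k)
            have e : (2 : ℝ) ^ (k + 1) * x = 2 ^ k * (2 * x) := by ring
            rw [e] at hx'
            have hxl : 0 ≤ 2 * x := by
              by_contra hc
              rw [not_le] at hc
              have := mul_neg_of_pos_of_neg h2 hc
              linarith [hx'.1]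
            have hxr : 2 * x < 1 := by
              by_contra hc
              rw [not_lt] at hc
              have := mul_le_mul_of_nonneg_left hc h2.le
              linarith [hx'.2]
            rw [haar_left (by linarith) (by linarith)]
        · rcases lt_or_ge m (2 ^ (k + 1)) with h3 | h3
          · refine ⟨-1, fun x => ?_⟩
            by_cases hx : haar (2 ^ (k + 1) * x - m) = 0
            · rw [hx]; ring
            · have hx' : ¬ (2 ^ (k + 1) * x - m < 0 ∨ 1 ≤ 2 ^ (k + 1) * x - m) :=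
                fun h => hx (haar_eq_zero h)
              rw [not_or, not_lt, not_le] at hx'
              have hm0 : (2 : ℝ) ^ k ≤ m := by exact_mod_cast h1
              have hm1 : (m : ℝ) + 1 ≤ 2 ^ (k + 1) := by
                exact_mod_cast (by omega : m + 1 ≤ 2 ^ (k + 1))
              have e : (2 : ℝ) ^ (k + 1) * x = 2 ^ k * (2 * x) := by ring
              have e2 : (2 : ℝ) ^ (k + 1) = 2 ^ k * 2 := by ring
              rw [e] at hx'
              rw [e2] at hm1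
              have hxl : 1 ≤ 2 * x := by
                by_contra hc
                rw [not_le] at hc
                have := mul_lt_mul_of_pos_left hc h2
                linarith [hx'.1]
              have hxr : 2 * x < 2 := by
                by_contra hc
                rw [not_lt] at hc
                have := mul_le_mul_of_nonneg_left hc h2.le
                linarith [hx'.2]
              rw [haar_right (by linarith) (by linarith)]
          · refine ⟨0, fun x => ?_⟩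
            by_cases hx : haar (2 ^ (k + 1) * x - m) = 0
            · rw [hx]; ring
            · have hx' : ¬ (2 ^ (k + 1) * x - m < 0 ∨ 1 ≤ 2 ^ (k + 1) * x - m) :=
                fun h => hx (haar_eq_zero h)
              rw [not_or, not_lt, not_le] at hx'
              have hm : (2 : ℝ) ^ (k + 1) ≤ m := by exact_mod_cast h3
              have : 1 ≤ x := by
                by_contra hc
                rw [not_le] at hc
                have := mul_lt_mul_of_pos_left hc (by positivity : (0:ℝ) < 2 ^ (k + 1))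
                linarith [hx'.1]
              rw [haar_eq_zero (Or.inr this)]
    obtain ⟨c, hc⟩ := key
    simp_rw [hc]
    rw [integral_const_mul]
    have h1 := Measure.integral_comp_mul_left (fun y => haar (y - m)) ((2:ℝ) ^ (k + 1))
    rw [h1, integral_sub_right_eq_self haar (m : ℝ), integral_haar]
    simp

/-- The Haar system. -/
noncomputable def hwR (i l : ℤ) (x : ℝ) : ℝ := Real.sqrt 2 ^ i * haar (2 ^ i * x - l)

lemma sqrt2_zpow_sq (i : ℤ) : (Real.sqrt 2 ^ i) * (Real.sqrt 2 ^ i) = (2:ℝ) ^ i := by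
  rw [← mul_zpow, Real.mul_self_sqrt (by norm_num)]

lemma integral_hwR_aux (i l l' : ℤ) (n : ℕ) :
    ∫ x, hwR i l x * hwR (i + n) l' x = if n = 0 ∧ l = l' then 1 else 0 := by
  have e : ∀ x, hwR i l x * hwR (i + n) l' x = (Real.sqrt 2 ^ i * Real.sqrt 2 ^ (i + n)) *
      ((fun z => haar (z - l) * haar (2 ^ n * z - l')) (2 ^ i * x)) := by
    intro x
    unfold hwR
    simp only
    have : (2:ℝ) ^ (i + n) * x = 2 ^ n * (2 ^ i * x) := by
      rw [zpow_add₀ (by norm_num), zpow_natCast]; ring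
    rw [this]; ring
  simp_rw [e]
  rw [integral_const_mul]
  rw [Measure.integral_comp_mul_left (fun z => haar (z - l) * haar (2 ^ n * z - l')) ((2:ℝ) ^ i)]
  have e2 : ∫ z, haar (z - l) * haar (2 ^ n * z - l') =
      ∫ z, haar z * haar (2 ^ n * z - ((l' - 2 ^ n * l : ℤ) : ℝ)) := by
    rw [← integral_add_right_eq_self (fun z => haar (z - l) * haar (2 ^ n * z - l')) (l : ℝ)]
    apply integral_congr_ae
    refine Filter.Eventually.of_forall fun z => ?_
    simp only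
    push_cast
    congr 2 <;> ring
  rw [e2, integral_haar_mul]
  by_cases hn : n = 0
  · subst hn
    by_cases hl : l = l'
    · subst hl
      simp only [pow_zero, one_mul, sub_self, and_self, if_true, smul_eq_mul, mul_one,
        CharP.cast_eq_zero, add_zero]
      rw [sqrt2_zpow_sq, abs_of_pos (by positivity)]
      field_simp
    · rw [if_neg (by intro h; apply hl; have := h.2; push_cast at this; omega), if_neg (by tauto)]
      simp
  · rw [if_neg (by tauto), if_neg (by tauto)]; simp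

lemma integral_hwR (i l i' l' : ℤ) :
    ∫ x, hwR i l x * hwR i' l' x = if i = i' ∧ l = l' then 1 else 0 := by
  rcases le_total i i' with h | h
  · obtain ⟨n, hn⟩ := Int.le.dest h
    have := integral_hwR_aux i l l' n
    rw [hn] at this
    rw [this]
    have : (n = 0 ∧ l = l') ↔ (i = i' ∧ l = l') := by
      constructor
      · rintro ⟨a, b⟩; exact ⟨by omega, b⟩
      · rintro ⟨a, b⟩; exact ⟨by omega, b⟩
    simp only [this]
  · obtain ⟨n, hn⟩ := Int.le.dest h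
    have := integral_hwR_aux i' l' l n
    rw [hn] at this
    simp_rw [mul_comm (hwR i l _)]
    rw [this]
    have : (n = 0 ∧ l' = l) ↔ (i = i' ∧ l = l') := by
      constructor
      · rintro ⟨a, b⟩; exact ⟨by omega, b.symm⟩
      · rintro ⟨a, b⟩; exact ⟨by omega, b.symm⟩
    simp only [this]


/-- The Haar system, complex valued. -/
noncomputable def hw (i l : ℤ) (x : ℝ) : ℂ := ((hwR i l x : ℝ) : ℂ)

lemma measurable_hwR (i l : ℤ) : Measurable (hwR i l) := by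
  unfold hwR
  exact measurable_const.mul (measurable_haar.comp (by fun_prop))

lemma measurable_hw (i l : ℤ) : Measurable (hw i l) :=
  Complex.measurable_ofReal.comp (measurable_hwR i l)

lemma memLp_hw (i l : ℤ) : MemLp (hw i l) 2 volume := by
  rw [memLp_two_iff_integrable_sq_norm (measurable_hw i l).aestronglyMeasurable]
  have h := integral_hwR i l i l
  rw [if_pos ⟨rfl, rfl⟩] at h
  have h2 := integrable_of_integral_eq_one h
  refine h2.congr (Filter.Eventually.of_forall fun x => ?_)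
  simp only [hw, Complex.norm_real, Real.norm_eq_abs, sq_abs]
  ring

/-- The Haar system in the Hilbert space. -/
noncomputable def ev (p : ℤ × ℤ) : Lp ℂ 2 (volume : Measure ℝ) := (memLp_hw p.1 p.2).toLp _

lemma inner_ev (p : ℤ × ℤ) (f : ℝ → ℂ) (hf : MemLp f 2 volume) :
    inner ℂ (ev p) (hf.toLp f) = ∫ x, f x * (starRingEnd ℂ) (hw p.1 p.2 x) := by
  rw [L2.inner_def]
  apply integral_congr_ae
  filter_upwards [(memLp_hw p.1 p.2).coeFn_toLp, hf.coeFn_toLp] with x h1 h2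
  rw [show (ev p : ℝ → ℂ) x = hw p.1 p.2 x from h1, h2]
  simp

lemma orthonormal_ev : Orthonormal ℂ ev := by
  rw [orthonormal_iff_ite]
  intro p q
  unfold ev
  have := inner_ev p (hw q.1 q.2) (memLp_hw q.1 q.2)
  unfold ev at this
  rw [this]
  have h : ∀ x, hw q.1 q.2 x * (starRingEnd ℂ) (hw p.1 p.2 x) =
      ((hwR p.1 p.2 x * hwR q.1 q.2 x : ℝ) : ℂ) := by
    intro x
    simp only [hw, Complex.conj_ofReal]
    push_cast; ring
  simp_rw [h]
  rw [integral_complex_ofReal, integral_hwR]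
  by_cases hpq : p = q
  · subst hpq; simp
  · rw [if_neg hpq, if_neg]; · simp
    rintro ⟨a, b⟩; exact hpq (Prod.ext a b)

lemma norm_sq_toLp (f : ℝ → ℂ) (hf : MemLp f 2 volume) :
    ‖hf.toLp f‖ ^ 2 = ∫ x, ‖f x‖ ^ 2 := by
  have h1 : (inner ℂ (hf.toLp f) (hf.toLp f) : ℂ) = ((‖hf.toLp f‖ ^ 2 : ℝ) : ℂ) := by
    rw [inner_self_eq_norm_sq_to_K]; norm_cast
  rw [L2.inner_def] at h1
  have h2 : ∫ a, inner ℂ ((hf.toLp f) a) ((hf.toLp f) a) = ((∫ x, ‖f x‖ ^ 2 : ℝ) : ℂ) := by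
    rw [← integral_complex_ofReal]
    apply integral_congr_ae
    filter_upwards [hf.coeFn_toLp] with x hx
    rw [hx, inner_self_eq_norm_sq_to_K]
    norm_cast
  rw [h2] at h1
  exact_mod_cast h1.symm

lemma bessel (f : ℝ → ℂ) (hf : MemLp f 2 volume) (S : Finset (ℤ × ℤ)) :
    ∑ p ∈ S, ‖∫ x, f x * (starRingEnd ℂ) (hw p.1 p.2 x)‖ ^ 2 ≤ ∫ x, ‖f x‖ ^ 2 := by
  rw [← norm_sq_toLp f hf]
  have := orthonormal_ev.sum_inner_products_le (x := hf.toLp f) (s := S)
  simp_rw [inner_ev] at this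
  exact this

lemma integral_hw_mul (i l i' l' : ℤ) :
    ∫ x, hw i l x * (starRingEnd ℂ) (hw i' l' x) = if i = i' ∧ l = l' then 1 else 0 := by
  have h : ∀ x, hw i l x * (starRingEnd ℂ) (hw i' l' x) = ((hwR i l x * hwR i' l' x : ℝ) : ℂ) := by
    intro x
    simp only [hw, Complex.conj_ofReal]
    push_cast; ring
  simp_rw [h]
  rw [integral_complex_ofReal, integral_hwR]
  split_ifs <;> simp

/-- The counterexample. -/
noncomputable def psi0 (x : ℝ) : ℂ := ((8 / 5 : ℝ) : ℂ) * ((haar (4 * x) : ℝ) : ℂ)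

lemma psi0_eq (j k : ℤ) (x : ℝ) :
    (((Real.sqrt 2 ^ j : ℝ) : ℂ) * psi0 ((2 : ℝ) ^ j * x - (k : ℝ))) =
      ((4 / 5 : ℝ) : ℂ) * hw (j + 2) (4 * k) x := by
  unfold psi0 hw hwR
  rw [← Complex.ofReal_mul, ← Complex.ofReal_mul, ← Complex.ofReal_mul]
  congr 1
  have h2 : Real.sqrt 2 ^ (j + 2) = Real.sqrt 2 ^ j * 2 := by
    rw [zpow_add₀ (by positivity)]
    congr 1
    have := Real.sq_sqrt (show (0:ℝ) ≤ 2 by norm_num)
    exact_mod_cast this
  have h3 : (2:ℝ) ^ (j + 2) = 2 ^ j * 4 := by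
    rw [zpow_add₀ (by norm_num)]; norm_num
  have h4 : 4 * ((2:ℝ) ^ j * x - k) = 2 ^ (j + 2) * x - ((4 * k : ℤ) : ℝ) := by
    rw [h3]; push_cast; ring
  rw [h2, h4]; ring

lemma memLp_psi0 : MemLp psi0 2 volume := by
  have h := psi0_eq 0 0
  have : psi0 = fun x => ((4 / 5 : ℝ) : ℂ) * hw (0 + 2) (4 * 0) x := by
    funext x
    rw [← h x]; simp
  rw [this]
  exact (memLp_hw _ _).const_mul _

lemma psi0_coef (f : ℝ → ℂ) (j k : ℤ) :
    ‖∫ x : ℝ, f x * (starRingEnd ℂ)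
      (((Real.sqrt 2 ^ j : ℝ) : ℂ) * psi0 ((2 : ℝ) ^ j * x - (k : ℝ)))‖ ^ 2 =
      (16 / 25) * ‖∫ x, f x * (starRingEnd ℂ) (hw (j + 2) (4 * k) x)‖ ^ 2 := by
  simp_rw [psi0_eq]
  have : ∀ x, f x * (starRingEnd ℂ) (((4 / 5 : ℝ) : ℂ) * hw (j + 2) (4 * k) x) =
      ((4 / 5 : ℝ) : ℂ) * (f x * (starRingEnd ℂ) (hw (j + 2) (4 * k) x)) := by
    intro x
    rw [map_mul, Complex.conj_ofReal]; ring
  simp_rw [this]
  rw [integral_const_mul, norm_mul, mul_pow]
  congr 1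
  rw [Complex.norm_real]; norm_num

lemma bessel_psi0 (f : ℝ → ℂ) (hf : MemLp f 2 volume) (S : Finset (ℤ × ℤ)) :
    ∑ p ∈ S, ‖∫ x : ℝ, f x * (starRingEnd ℂ)
            (((Real.sqrt 2 ^ p.1 : ℝ) : ℂ) * psi0 ((2 : ℝ) ^ p.1 * x - (p.2 : ℝ)))‖ ^ 2
          ≤ (16 / 25) * ∫ x : ℝ, ‖f x‖ ^ 2 := by
  simp_rw [psi0_coef]
  rw [← Finset.mul_sum]
  refine mul_le_mul_of_nonneg_left ?_ (by norm_num)
  let φ : ℤ × ℤ ↪ ℤ × ℤ := ⟨fun p => (p.1 + 2, 4 * p.2), by
    rintro ⟨a, b⟩ ⟨c, d⟩ h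
    simp only [Prod.mk.injEq] at h
    ext <;> simp <;> omega⟩
  have := bessel f hf (S.map φ)
  rw [Finset.sum_map] at this
  exact this


/-- The wavelet system of a function. -/
noncomputable def wv (ψ : ℝ → ℂ) (j k : ℤ) (x : ℝ) : ℂ :=
  ((Real.sqrt 2 ^ j : ℝ) : ℂ) * ψ ((2 : ℝ) ^ j * x - (k : ℝ))

/-- Squared coefficient. -/
noncomputable def cf (ψ f : ℝ → ℂ) (j k : ℤ) : ENNReal :=
  ENNReal.ofReal (‖∫ x, f x * (starRingEnd ℂ) (wv ψ j k x)‖ ^ 2)

/-- Sum of the squared coefficients at one scale. -/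
noncomputable def lev (ψ f : ℝ → ℂ) (j : ℤ) : ENNReal := ∑' k : ℤ, cf ψ f j k

lemma cf_shift (ψ f : ℝ → ℂ) (n : ℕ) (k : ℤ) :
    cf ψ (fun x => f (x - 1 / 2)) (n + 1) k = cf ψ f (n + 1) (k - 2 ^ n) := by
  unfold cf
  congr 3
  rw [← integral_add_right_eq_self
    (fun x => f (x - 1 / 2) * (starRingEnd ℂ) (wv ψ (n + 1) k x)) (1 / 2 : ℝ)]
  apply integral_congr_ae
  refine Filter.Eventually.of_forall fun x => ?_
  simp only [wv]
  have h1 : x + 1 / 2 - 1 / 2 = x := by ring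
  have h2 : (2:ℝ) ^ ((n:ℤ) + 1) * (x + 1 / 2) - k = 2 ^ ((n:ℤ) + 1) * x - ((k - 2 ^ n : ℤ) : ℝ) := by
    rw [zpow_add₀ (by norm_num), zpow_natCast]; push_cast; ring
  rw [h1, h2]

lemma lev_shift (ψ f : ℝ → ℂ) (n : ℕ) :
    lev ψ (fun x => f (x - 1 / 2)) (n + 1) = lev ψ f (n + 1) := by
  unfold lev
  simp_rw [cf_shift]
  exact (Equiv.subRight ((2:ℤ) ^ n)).tsum_eq (fun k => cf ψ f (n + 1) k)

lemma cf_dil (ψ : ℝ → ℂ) (i l j k : ℤ) :
    cf ψ (hw (i + 1) l) (j + 1) k = cf ψ (hw i l) j k := by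
  unfold cf
  congr 3
  have e : ∀ x, hw (i + 1) l x * (starRingEnd ℂ) (wv ψ (j + 1) k x) =
      2 * ((fun y => hw i l y * (starRingEnd ℂ) (wv ψ j k y)) (2 * x)) := by
    intro x
    simp only [hw, hwR, wv]
    rw [zpow_add₀ (by norm_num : (2:ℝ) ≠ 0), zpow_add₀ (by norm_num : (2:ℝ) ≠ 0),
      zpow_add₀ (by positivity : Real.sqrt 2 ≠ 0), zpow_add₀ (by positivity : Real.sqrt 2 ≠ 0)]
    simp only [zpow_one]
    have h1 : (2:ℝ) ^ i * (2 * x) - l = 2 ^ i * 2 * x - l := by ring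
    have h2 : (2:ℝ) ^ j * (2 * x) - k = 2 ^ j * 2 * x - k := by ring
    have h3 : ((Real.sqrt 2 : ℝ) : ℂ) * ((Real.sqrt 2 : ℝ) : ℂ) = 2 := by
      rw [← Complex.ofReal_mul, Real.mul_self_sqrt (by norm_num)]; norm_num
    rw [h1, h2]
    push_cast
    rw [map_mul, map_mul, map_mul, Complex.conj_ofReal]
    linear_combination ((Real.sqrt 2 : ℂ) ^ i * (haar (2 ^ i * 2 * x - l) : ℂ) *
      ((starRingEnd ℂ) ((Real.sqrt 2 : ℂ) ^ j)) *
      (starRingEnd ℂ) (ψ (2 ^ j * 2 * x - k))) * h3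
  simp_rw [e]
  have h := Measure.integral_comp_mul_left
    (fun y => hw i l y * (starRingEnd ℂ) (wv ψ j k y)) (2 : ℝ)
  rw [integral_const_mul, h]
  simp

lemma lev_dil (ψ : ℝ → ℂ) (i l j : ℤ) :
    lev ψ (hw (i + 1) l) (j + 1) = lev ψ (hw i l) j := by
  unfold lev
  simp_rw [cf_dil]

lemma tsum_split (g : ℤ → ENNReal) :
    ∑' j, g j = (∑' n : ℕ, g (n + 1)) + ∑' n : ℕ, g (-n) := by
  have h1 : HasSum (fun n : ℕ => g (n + 1)) (∑' n : ℕ, g (n + 1)) := ENNReal.summable.hasSum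
  have h2 : HasSum (fun n : ℕ => g (-(n + 1 : ℤ) + 1)) (∑' n : ℕ, g (-n)) := by
    have : (fun n : ℕ => g (-(n + 1 : ℤ) + 1)) = fun n : ℕ => g (-n) := by
      funext n; congr 1; ring
    rw [this]
    exact ENNReal.summable.hasSum
  have h3 := HasSum.of_nat_of_neg_add_one (f := fun j : ℤ => g (j + 1)) h1 h2
  rw [← h3.tsum_eq]
  exact ((Equiv.addRight (1:ℤ)).tsum_eq g).symm

/-- The energy at negative scales. -/
noncomputable def neg (ψ f : ℝ → ℂ) : ENNReal := ∑' n : ℕ, lev ψ f (-(n + 1 : ℤ))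

lemma neg_lower (ψ f' : ℝ → ℂ) (i l l' : ℤ) (hf' : f' = fun x => hw (i + 1) l (x - 1 / 2))
    (hl' : hw (i + 1) l' = f')
    (h1 : ∑' j, lev ψ (hw (i + 1) l') j = 1)
    (h2 : ENNReal.ofReal (16 / 25) + ∑' j, lev ψ (hw (i + 1) l) j ≤ 1) :
    ENNReal.ofReal (16 / 25) ≤ neg ψ (hw i l') := by
  have e : neg ψ (hw i l') = ∑' n : ℕ, lev ψ (hw (i + 1) l') (-n) := by
    unfold neg
    congr 1
    funext n
    rw [← lev_dil]
    congr 1; ring
  rw [e]
  have h3 : ∀ n : ℕ, lev ψ (hw (i + 1) l') (n + 1) = lev ψ (hw (i + 1) l) (n + 1) := by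
    intro n
    rw [hl', hf']
    exact lev_shift ψ _ n
  rw [tsum_split] at h1 h2
  simp_rw [h3] at h1
  set a := ∑' n : ℕ, lev ψ (hw (i + 1) l) (n + 1) with ha
  set b := ∑' n : ℕ, lev ψ (hw (i + 1) l') (-n) with hb
  have hat : a ≠ ⊤ := by
    intro h
    rw [h] at h1; simp at h1
  have h4 : ENNReal.ofReal (16 / 25) + a ≤ b + a := by
    calc ENNReal.ofReal (16 / 25) + a ≤ ENNReal.ofReal (16 / 25) + (a + _) :=
          add_le_add_right (le_self_add) _
      _ ≤ 1 := h2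
      _ = b + a := by rw [← h1, add_comm]
  exact (ENNReal.add_le_add_iff_right hat).1 h4

lemma lint_scale (a : ℝ) (ha : 0 < a) (F : ℝ → ENNReal) :
    ∫⁻ x, F (a * x) = ENNReal.ofReal a⁻¹ * ∫⁻ x, F x := by
  have h := Real.map_volume_mul_left ha.ne'
  have e : MeasurableEmbedding (fun x : ℝ => a * x) :=
    (MeasurableEquiv.mulLeft₀ a ha.ne').measurableEmbedding
  rw [← e.lintegral_map, h, lintegral_smul_measure, abs_of_pos (inv_pos.2 ha)]
  rfl


lemma hw_supp {i l : ℤ} {a b x : ℝ} (ha : (2:ℝ) ^ i * a ≤ l) (hb : (l:ℝ) + 1 ≤ 2 ^ i * b)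
    (hx : x ∉ Set.Ico a b) : hw i l x = 0 := by
  have h2 : (0:ℝ) < 2 ^ i := by positivity
  unfold hw hwR
  rw [haar_eq_zero, mul_zero, Complex.ofReal_zero]
  by_contra hc
  rw [not_or, not_lt, not_le] at hc
  apply hx
  constructor
  · by_contra h
    rw [not_le] at h
    have := mul_lt_mul_of_pos_left h h2
    linarith [hc.1]
  · by_contra h
    rw [not_lt] at h
    have := mul_le_mul_of_nonneg_left h h2.le
    linarith [hc.2]

lemma two_le (u : ℝ → ℂ) (hu : MemLp u 2 volume) :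
    ENNReal.ofReal (‖∫ x, hw 0 1 x * (starRingEnd ℂ) (u x)‖ ^ 2) +
      ENNReal.ofReal (‖∫ x, hw 1 2 x * (starRingEnd ℂ) (u x)‖ ^ 2) ≤
      ∫⁻ x in Set.Ico (1:ℝ) 2, ‖u x‖ₑ ^ 2 := by
  set v : ℝ → ℂ := Set.indicator (Set.Ico (1:ℝ) 2) u with hv
  have hvm : MemLp v 2 volume := hu.indicator measurableSet_Ico
  have hb := bessel v hvm {(0, 1), (1, 2)}
  rw [Finset.sum_pair (by decide)] at hb
  have key : ∀ i l : ℤ, (∀ x, x ∉ Set.Ico (1:ℝ) 2 → hw i l x = 0) →
      ‖∫ x, hw i l x * (starRingEnd ℂ) (u x)‖ = ‖∫ x, v x * (starRingEnd ℂ) (hw i l x)‖ := by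
    intro i l h
    rw [← Complex.norm_conj (∫ x, v x * (starRingEnd ℂ) (hw i l x)), ← integral_conj]
    congr 2
    funext x
    rw [map_mul, Complex.conj_conj, mul_comm]
    by_cases hx : x ∈ Set.Ico (1:ℝ) 2
    · rw [hv, Set.indicator_of_mem hx]
    · rw [h x hx]; simp
  rw [key 0 1 (fun x hx => hw_supp (by norm_num) (by norm_num) hx),
    key 1 2 (fun x hx => hw_supp (by norm_num) (by norm_num) hx),
    ← ENNReal.ofReal_add (by positivity) (by positivity)]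
  refine (ENNReal.ofReal_le_ofReal hb).trans (le_of_eq ?_)
  rw [ofReal_integral_eq_lintegral_ofReal]
  · rw [← lintegral_indicator measurableSet_Ico]
    congr 1
    funext x
    by_cases hx : x ∈ Set.Ico (1:ℝ) 2
    · rw [Set.indicator_of_mem hx, hv, Set.indicator_of_mem hx]
      rw [ENNReal.ofReal_pow (norm_nonneg _), ofReal_norm]
    · rw [Set.indicator_of_notMem hx, hv, Set.indicator_of_notMem hx]
      simp
  · exact (memLp_two_iff_integrable_sq_norm hvm.1).1 hvm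
  · exact Filter.Eventually.of_forall fun x => by positivity

lemma memLp_wv (ψ : ℝ → ℂ) (hψ : MemLp ψ 2 volume) (j k : ℤ) : MemLp (wv ψ j k) 2 volume := by
  have h2 : (2:ℝ) ^ j ≠ 0 := by positivity
  have q1 : Measure.QuasiMeasurePreserving (fun x : ℝ => (2:ℝ) ^ j * x) volume volume :=
    ⟨by fun_prop, by rw [Real.map_volume_mul_left h2]; exact Measure.smul_absolutelyContinuous⟩
  have q2 := (measurePreserving_sub_right (volume : Measure ℝ) (k:ℝ)).quasiMeasurePreserving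
  have m : AEStronglyMeasurable (fun x => ψ ((2 : ℝ) ^ j * x - (k : ℝ))) volume :=
    hψ.1.comp_quasiMeasurePreserving (q2.comp q1)
  unfold wv
  refine MemLp.const_mul ?_ _
  rw [memLp_two_iff_integrable_sq_norm m]
  have i1 := (memLp_two_iff_integrable_sq_norm hψ.1).1 hψ
  have i2 := (i1.comp_sub_right (k:ℝ)).comp_mul_left' h2
  exact i2

lemma lint_wv (ψ : ℝ → ℂ) (n : ℕ) (k : ℤ) :
    ∫⁻ x in Set.Ico (1:ℝ) 2, ‖wv ψ (-(n + 1 : ℤ)) k x‖ₑ ^ 2 =
      ∫⁻ y in Set.Ico ((1 / 2 : ℝ) ^ (n + 1)) ((1 / 2) ^ n), ‖ψ (y - k)‖ₑ ^ 2 := by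
  have hj : (2:ℝ) ^ (-(n + 1 : ℤ)) = (1 / 2) ^ (n + 1) := by
    rw [zpow_neg, one_div, inv_pow]
    norm_cast
  have hp : (0:ℝ) < (1 / 2) ^ (n + 1) := by positivity
  rw [← lintegral_indicator measurableSet_Ico, ← lintegral_indicator measurableSet_Ico]
  have e : ∀ x, (Set.Ico (1:ℝ) 2).indicator (fun x => ‖wv ψ (-(n + 1 : ℤ)) k x‖ₑ ^ 2) x =
      (fun z => ENNReal.ofReal ((1 / 2) ^ (n + 1)) *
        (Set.Ico ((1 / 2 : ℝ) ^ (n + 1)) ((1 / 2) ^ n)).indicator
          (fun y => ‖ψ (y - k)‖ₑ ^ 2) z) ((1 / 2) ^ (n + 1) * x) := by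
    intro x
    simp only
    have hmem : (1 / 2 : ℝ) ^ (n + 1) * x ∈ Set.Ico ((1 / 2 : ℝ) ^ (n + 1)) ((1 / 2) ^ n) ↔
        x ∈ Set.Ico (1:ℝ) 2 := by
      simp only [Set.mem_Ico]
      constructor
      · rintro ⟨h1, h2⟩
        constructor
        · by_contra hc
          rw [not_le] at hc
          have := mul_lt_mul_of_pos_left hc hp
          linarith
        · by_contra hc
          rw [not_lt] at hc
          have := mul_le_mul_of_nonneg_left hc hp.le
          rw [pow_succ] at this h2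
          linarith
      · rintro ⟨h1, h2⟩
        constructor
        · have := mul_le_mul_of_nonneg_left h1 hp.le
          linarith
        · have := mul_lt_mul_of_pos_left h2 hp
          rw [pow_succ] at this ⊢
          linarith
    by_cases hx : x ∈ Set.Ico (1:ℝ) 2
    · rw [Set.indicator_of_mem hx, Set.indicator_of_mem (hmem.2 hx)]
      unfold wv
      rw [hj, enorm_mul, mul_pow]
      congr 1
      rw [← ofReal_norm, ← ENNReal.ofReal_pow (norm_nonneg _), Complex.norm_real]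
      congr 1
      rw [Real.norm_eq_abs, sq_abs, ← hj, ← sqrt2_zpow_sq]
      ring
    · rw [Set.indicator_of_notMem hx, Set.indicator_of_notMem (fun h => hx (hmem.1 h))]
      simp
  simp_rw [e]
  have h := lint_scale _ hp (fun z => ENNReal.ofReal ((1 / 2) ^ (n + 1)) *
        (Set.Ico ((1 / 2 : ℝ) ^ (n + 1)) ((1 / 2) ^ n)).indicator
          (fun y => ‖ψ (y - k)‖ₑ ^ 2) z)
  rw [h, lintegral_const_mul' _ _ ENNReal.ofReal_ne_top, ← mul_assoc, ← ENNReal.ofReal_mul (by positivity),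
    inv_mul_cancel₀ hp.ne']
  simp

lemma union_Ico : (⋃ n : ℕ, Set.Ico ((1 / 2 : ℝ) ^ (n + 1)) ((1 / 2) ^ n)) ⊆ Set.Ico 0 1 := by
  refine Set.iUnion_subset fun n => ?_
  intro x hx
  refine ⟨le_trans (by positivity) hx.1, lt_of_lt_of_le hx.2 (pow_le_one₀ (by norm_num) (by norm_num))⟩

lemma disj_Ico : Pairwise (Function.onFun Disjoint fun n : ℕ =>
    Set.Ico ((1 / 2 : ℝ) ^ (n + 1)) ((1 / 2) ^ n)) := by
  have key : ∀ m n : ℕ, m < n → Disjoint (Set.Ico ((1 / 2 : ℝ) ^ (m + 1)) ((1 / 2) ^ m))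
      (Set.Ico ((1 / 2 : ℝ) ^ (n + 1)) ((1 / 2) ^ n)) := by
    intro m n hmn
    rw [Set.disjoint_left]
    intro x hx hy
    have : (1 / 2 : ℝ) ^ n ≤ (1 / 2) ^ (m + 1) :=
      pow_le_pow_of_le_one (by norm_num) (by norm_num) hmn
    linarith [hx.1, hy.2]
  intro m n hmn
  rcases lt_or_gt_of_ne hmn with h | h
  · exact key m n h
  · exact (key n m h).symm

lemma lint_unit (g : ℝ → ENNReal) : ∑' k : ℤ, ∫⁻ y in Set.Ico (0:ℝ) 1, g (y - k) = ∫⁻ y, g y := by
  have h : ∀ k : ℤ, ∫⁻ y in Set.Ico (0:ℝ) 1, g (y - k) =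
      ∫⁻ y in Set.Ico ((-k : ℤ) : ℝ) ((-k : ℤ) + 1), g y := by
    intro k
    have := (measurePreserving_sub_right (volume : Measure ℝ) (k:ℝ)).setLIntegral_comp_preimage_emb
      (measurableEmbedding_subRight (k:ℝ)) g (Set.Ico ((-k : ℤ) : ℝ) ((-k : ℤ) + 1))
    rw [← this]
    congr 2
    ext y
    simp only [Set.mem_Ico, Set.mem_preimage]
    push_cast
    constructor <;> rintro ⟨h1, h2⟩ <;> constructor <;> linarith
  simp_rw [h]
  have h2 : ∑' k : ℤ, ∫⁻ y in Set.Ico ((-k : ℤ) : ℝ) ((-k : ℤ) + 1), g y =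
      ∑' k : ℤ, ∫⁻ y in Set.Ico (k : ℝ) (k + 1), g y :=
    (Equiv.neg ℤ).tsum_eq (fun k : ℤ => ∫⁻ y in Set.Ico (k : ℝ) (k + 1), g y)
  rw [h2, ← lintegral_iUnion (fun n => measurableSet_Ico) (Set.pairwise_disjoint_Ico_intCast ℝ), iUnion_Ico_intCast]
  simp

lemma neg_upper (ψ : ℝ → ℂ) (hψ : MemLp ψ 2 volume) :
    neg ψ (hw 0 1) + neg ψ (hw 1 2) ≤ ∫⁻ x, ‖ψ x‖ₑ ^ 2 := by
  unfold neg lev
  rw [← ENNReal.tsum_add]
  simp_rw [← ENNReal.tsum_add]
  calc ∑' (n : ℕ) (k : ℤ), (cf ψ (hw 0 1) (-(n + 1 : ℤ)) k + cf ψ (hw 1 2) (-(n + 1 : ℤ)) k)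
      ≤ ∑' (n : ℕ) (k : ℤ), ∫⁻ y in Set.Ico ((1 / 2 : ℝ) ^ (n + 1)) ((1 / 2) ^ n),
          ‖ψ (y - k)‖ₑ ^ 2 := by
        refine ENNReal.tsum_le_tsum fun n => ENNReal.tsum_le_tsum fun k => ?_
        rw [← lint_wv]
        exact two_le _ (memLp_wv ψ hψ _ _)
    _ = ∑' (k : ℤ) (n : ℕ), ∫⁻ y in Set.Ico ((1 / 2 : ℝ) ^ (n + 1)) ((1 / 2) ^ n),
          ‖ψ (y - k)‖ₑ ^ 2 := ENNReal.tsum_comm
    _ = ∑' (k : ℤ), ∫⁻ y in ⋃ n : ℕ, Set.Ico ((1 / 2 : ℝ) ^ (n + 1)) ((1 / 2) ^ n),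
          ‖ψ (y - k)‖ₑ ^ 2 := by
        congr 1
        funext k
        rw [lintegral_iUnion (fun n => measurableSet_Ico) disj_Ico]
    _ ≤ ∑' (k : ℤ), ∫⁻ y in Set.Ico (0:ℝ) 1, ‖ψ (y - k)‖ₑ ^ 2 := by
        refine ENNReal.tsum_le_tsum fun k => ?_
        exact lintegral_mono_set union_Ico
    _ = ∫⁻ x, ‖ψ x‖ₑ ^ 2 := lint_unit (fun x => ‖ψ x‖ₑ ^ 2)


lemma norm_le_one (ψ : ℝ → ℂ) (hψ : MemLp ψ 2 volume)
    (H : ∀ f : ℝ → ℂ, MemLp f 2 volume → HasSum (fun p : ℤ × ℤ =>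
      ‖∫ x : ℝ, f x * (starRingEnd ℂ) (wv psi0 p.1 p.2 x)‖ ^ 2 +
      ‖∫ x : ℝ, f x * (starRingEnd ℂ) (wv ψ p.1 p.2 x)‖ ^ 2) (∫ x : ℝ, ‖f x‖ ^ 2)) :
    ∫⁻ x, ‖ψ x‖ₑ ^ 2 ≤ 1 := by
  have h1 := H ψ hψ
  have h2 := le_hasSum h1 (0, 0) (fun p _ => by positivity)
  have h3 : ∫ x, ψ x * (starRingEnd ℂ) (wv ψ 0 0 x) = ((∫ x, ‖ψ x‖ ^ 2 : ℝ) : ℂ) := by
    rw [← integral_complex_ofReal]
    congr 1
    funext x
    simp only [wv, zpow_zero, one_mul, Int.cast_zero, sub_zero, Complex.ofReal_one]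
    rw [Complex.mul_conj, Complex.normSq_eq_norm_sq]
  simp only at h2
  rw [h3, Complex.norm_real, Real.norm_eq_abs, sq_abs] at h2
  set N := ∫ x, ‖ψ x‖ ^ 2 with hN
  have hN0 : 0 ≤ N := integral_nonneg fun x => by positivity
  have h4 : N ^ 2 ≤ N := le_trans (by nlinarith [sq_nonneg ‖∫ x, ψ x * (starRingEnd ℂ) (wv psi0 0 0 x)‖]) h2
  have h5 : N ≤ 1 := by nlinarith
  have h6 : ∫⁻ x, ‖ψ x‖ₑ ^ 2 = ENNReal.ofReal N := by
    rw [hN, ofReal_integral_eq_lintegral_ofReal]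
    · congr 1
      funext x
      rw [ENNReal.ofReal_pow (norm_nonneg _), ofReal_norm]
    · exact (memLp_two_iff_integrable_sq_norm hψ.1).1 hψ
    · exact Filter.Eventually.of_forall fun x => by positivity
  rw [h6]
  exact ENNReal.ofReal_le_one.2 h5

lemma psi0_coef' (i l j k : ℤ) :
    ‖∫ x : ℝ, hw i l x * (starRingEnd ℂ) (wv psi0 j k x)‖ ^ 2 =
      if i = j + 2 ∧ l = 4 * k then 16 / 25 else 0 := by
  have := psi0_coef (hw i l) j k
  unfold wv
  rw [this, integral_hw_mul]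
  split_ifs <;> simp

lemma norm_hw (i l : ℤ) : ∫ x : ℝ, ‖hw i l x‖ ^ 2 = 1 := by
  have h := integral_hwR i l i l
  rw [if_pos ⟨rfl, rfl⟩] at h
  rw [← h]
  congr 1
  funext x
  simp only [hw, Complex.norm_real, Real.norm_eq_abs, sq_abs]
  ring

lemma parseval (ψ : ℝ → ℂ)
    (H : ∀ f : ℝ → ℂ, MemLp f 2 volume → HasSum (fun p : ℤ × ℤ =>
      ‖∫ x : ℝ, f x * (starRingEnd ℂ) (wv psi0 p.1 p.2 x)‖ ^ 2 +
      ‖∫ x : ℝ, f x * (starRingEnd ℂ) (wv ψ p.1 p.2 x)‖ ^ 2) (∫ x : ℝ, ‖f x‖ ^ 2))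
    (i l : ℤ) :
    (∑' p : ℤ × ℤ, ENNReal.ofReal (if i = p.1 + 2 ∧ l = 4 * p.2 then (16 / 25 : ℝ) else 0)) +
      ∑' j, lev ψ (hw i l) j = 1 := by
  have h1 := H _ (memLp_hw i l)
  rw [norm_hw] at h1
  simp_rw [psi0_coef'] at h1
  have h2 := ENNReal.ofReal_tsum_of_nonneg (fun p => by positivity) h1.summable
  rw [h1.tsum_eq, ENNReal.ofReal_one] at h2
  rw [h2]
  have h3 : ∀ p : ℤ × ℤ, ENNReal.ofReal ((if i = p.1 + 2 ∧ l = 4 * p.2 then (16 / 25 : ℝ) else 0) +
      ‖∫ x : ℝ, hw i l x * (starRingEnd ℂ) (wv ψ p.1 p.2 x)‖ ^ 2) =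
      ENNReal.ofReal (if i = p.1 + 2 ∧ l = 4 * p.2 then (16 / 25 : ℝ) else 0) +
        cf ψ (hw i l) p.1 p.2 := by
    intro p
    rw [ENNReal.ofReal_add (by positivity) (by positivity)]
    rfl
  simp_rw [h3]
  rw [ENNReal.tsum_add]
  congr 1
  exact (ENNReal.tsum_prod (f := fun j k => cf ψ (hw i l) j k)).symm

theorem no_extension (ψ : ℝ → ℂ) (hψ : MemLp ψ 2 volume)
    (H : ∀ f : ℝ → ℂ, MemLp f 2 volume → HasSum (fun p : ℤ × ℤ =>
      ‖∫ x : ℝ, f x * (starRingEnd ℂ) (wv psi0 p.1 p.2 x)‖ ^ 2 +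
      ‖∫ x : ℝ, f x * (starRingEnd ℂ) (wv ψ p.1 p.2 x)‖ ^ 2) (∫ x : ℝ, ‖f x‖ ^ 2)) : False := by
  have a1 : ∀ i l : ℤ, ¬ (4 ∣ l) → ∑' j, lev ψ (hw i l) j = 1 := by
    intro i l hl
    have h := parseval ψ H i l
    have e : ∀ p : ℤ × ℤ, ENNReal.ofReal
        (if i = p.1 + 2 ∧ l = 4 * p.2 then (16 / 25 : ℝ) else 0) = 0 := by
      intro p
      rw [if_neg]; · simp
      rintro ⟨_, h2⟩
      exact hl ⟨_, h2⟩
    simp_rw [e] at h
    simpa using h
  have a2 : ∀ i : ℤ, ENNReal.ofReal (16 / 25) + ∑' j, lev ψ (hw i 0) j ≤ 1 := by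
    intro i
    have h := parseval ψ H i 0
    rw [← h]
    refine add_le_add_left ?_ _
    have := ENNReal.le_tsum (f := fun p : ℤ × ℤ => ENNReal.ofReal
        (if i = p.1 + 2 ∧ (0:ℤ) = 4 * p.2 then (16 / 25 : ℝ) else 0)) (i - 2, 0)
    refine le_trans (le_of_eq ?_) this
    simp
  have b1 : ENNReal.ofReal (16 / 25) ≤ neg ψ (hw 0 1) := by
    refine neg_lower ψ (fun x => hw (0 + 1) 0 (x - 1 / 2)) 0 0 1 rfl ?_ (a1 _ _ (by decide)) (a2 _)
    funext x
    simp only [hw, hwR]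
    congr 3
    push_cast; norm_num; ring
  have b2 : ENNReal.ofReal (16 / 25) ≤ neg ψ (hw 1 2) := by
    refine neg_lower ψ (fun x => hw (1 + 1) 0 (x - 1 / 2)) 1 0 2 rfl ?_ (a1 _ _ (by decide)) (a2 _)
    funext x
    simp only [hw, hwR]
    congr 3
    push_cast; norm_num; ring
  have c := (add_le_add b1 b2).trans ((neg_upper ψ hψ).trans (norm_le_one ψ hψ H))
  rw [← ENNReal.ofReal_add (by norm_num) (by norm_num)] at c
  have := ENNReal.ofReal_le_one.1 c
  norm_num at this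

/-- The negation of the preceding statement: For every square-integrable ψ whose dyadic wavelet system is Bessel with bound below 1, there is a square-integrable ψ' such that the wavelet systems of ψ and ψ' together form a Parseval frame of L²(ℝ). -/
theorem result :
    ¬ (∀ ψ : ℝ → ℂ, MeasureTheory.MemLp ψ 2 MeasureTheory.volume →
    (∃ B : ℝ, B < 1 ∧ ∀ f : ℝ → ℂ, MeasureTheory.MemLp f 2 MeasureTheory.volume →
      ∀ S : Finset (ℤ × ℤ),
        ∑ p ∈ S, ‖∫ x : ℝ, f x * (starRingEnd ℂ)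
            (((Real.sqrt 2 ^ p.1 : ℝ) : ℂ) * ψ ((2 : ℝ) ^ p.1 * x - (p.2 : ℝ)))‖ ^ 2
          ≤ B * ∫ x : ℝ, ‖f x‖ ^ 2) →
    ∃ ψ' : ℝ → ℂ, MeasureTheory.MemLp ψ' 2 MeasureTheory.volume ∧
      ∀ f : ℝ → ℂ, MeasureTheory.MemLp f 2 MeasureTheory.volume →
        HasSum (fun p : ℤ × ℤ =>
            ‖∫ x : ℝ, f x * (starRingEnd ℂ)
              (((Real.sqrt 2 ^ p.1 : ℝ) : ℂ) * ψ ((2 : ℝ) ^ p.1 * x - (p.2 : ℝ)))‖ ^ 2
            + ‖∫ x : ℝ, f x * (starRingEnd ℂ)
              (((Real.sqrt 2 ^ p.1 : ℝ) : ℂ) * ψ' ((2 : ℝ) ^ p.1 * x - (p.2 : ℝ)))‖ ^ 2)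
          (∫ x : ℝ, ‖f x‖ ^ 2)) := by
  intro H
  obtain ⟨ψ, hψ, h⟩ := H psi0 memLp_psi0 ⟨16 / 25, by norm_num, fun f hf S => bessel_psi0 f hf S⟩
  exact no_extension ψ hψ h

end Pool.Agent.S03994
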