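import Pool.Statements.S04004

set_option autoImplicit false
open MeasureTheory
open scoped ENNReal
open Pool Pool.MP_c5a70e_an




namespace Pool.Agent.S04004.LP

instance fact4 : Fact ((1 : ℝ≥0∞) ≤ 4) := ⟨by norm_num⟩

variable {Ω : Type} [MeasurableSpace Ω]

theorem norm4 {μ : Measure Ω} (F : Lp ℝ 4 μ) : ‖F‖ ^ 4 = ∫ x, (F x) ^ 4 ∂μ := by
  rw [Lp.norm_def, (Lp.memLp F).eLpNorm_eq_integral_rpow_norm (by norm_num) (by norm_num)]
  have h0 : 0 ≤ ∫ a, ‖F a‖ ^ (4 : ℝ≥0∞).toReal ∂μ := integral_nonneg fun a => by positivity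
  rw [ENNReal.toReal_ofReal (by positivity)]
  have h4 : (4 : ℝ≥0∞).toReal = 4 := by norm_num
  rw [h4] at h0 ⊢
  rw [← Real.rpow_natCast, ← Real.rpow_mul h0]
  norm_num
  refine integral_congr_ae (Filter.Eventually.of_forall fun x => ?_)
  exact Even.pow_abs (by decide) _

theorem norm2 {μ : Measure Ω} (F : Lp ℝ 2 μ) : ‖F‖ ^ 2 = ∫ x, (F x) ^ 2 ∂μ := by
  rw [← real_inner_self_eq_norm_sq, L2.inner_def]
  refine integral_congr_ae (Filter.Eventually.of_forall fun x => ?_)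
  show inner ℝ (F x) (F x) = F x ^ 2
  rw [real_inner_self_eq_norm_sq, Real.norm_eq_abs, sq_abs]

theorem int4 {μ : Measure Ω} (F : Lp ℝ 4 μ) : Integrable (fun x => (F x) ^ 4) μ := by
  have h := (Lp.memLp F).integrable_norm_pow (p := 4) (by norm_num)
  refine h.congr (Filter.Eventually.of_forall fun x => ?_)
  show ‖F x‖ ^ 4 = F x ^ 4
  rw [Real.norm_eq_abs]
  exact Even.pow_abs (by decide) _

theorem meas {μ : Measure Ω} (F : Lp ℝ 4 μ) : Measurable (F : Ω → ℝ) :=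
  (Lp.stronglyMeasurable F).measurable

theorem int2 {μ : Measure Ω} [IsFiniteMeasure μ] (F : Lp ℝ 4 μ) :
    Integrable (fun x => (F x) ^ 2) μ := by
  refine ((int4 F).add (integrable_const (1 : ℝ))).mono' ((meas F).pow_const 2).aestronglyMeasurable
    (Filter.Eventually.of_forall fun x => ?_)
  show ‖F x ^ 2‖ ≤ F x ^ 4 + 1
  rw [Real.norm_eq_abs, abs_of_nonneg (by positivity)]
  nlinarith [sq_nonneg (F x ^ 2 - 1), sq_nonneg (F x)]

theorem int22 {μ : Measure Ω} (S F : Lp ℝ 4 μ) :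
    Integrable (fun x => (S x) ^ 2 * (F x) ^ 2) μ := by
  refine ((int4 S).add (int4 F)).mono'
    (((meas S).pow_const 2).mul ((meas F).pow_const 2)).aestronglyMeasurable
    (Filter.Eventually.of_forall fun x => ?_)
  show ‖S x ^ 2 * F x ^ 2‖ ≤ S x ^ 4 + F x ^ 4
  rw [Real.norm_eq_abs, abs_of_nonneg (by positivity)]
  nlinarith [sq_nonneg (S x ^ 2 - F x ^ 2), sq_nonneg (S x ^ 2), sq_nonneg (F x ^ 2)]

theorem ptw {s f e : ℝ} (he : 0 < e) :
    (s + f) ^ 4 ≤ (1 + e) * (s ^ 4 + f ^ 4) + (6 + 8 / e) * (s ^ 2 * f ^ 2) := by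
  have h1 : 0 ≤ (1 / e) * (e * s ^ 2 - 2 * (s * f)) ^ 2 := by positivity
  have h2 : 0 ≤ (1 / e) * (e * f ^ 2 - 2 * (s * f)) ^ 2 := by positivity
  have e1 : (1 / e) * (e * s ^ 2 - 2 * (s * f)) ^ 2 =
      e * s ^ 4 - 4 * (s ^ 3 * f) + 4 / e * (s ^ 2 * f ^ 2) := by
    field_simp
    ring
  have e2 : (1 / e) * (e * f ^ 2 - 2 * (s * f)) ^ 2 =
      e * f ^ 4 - 4 * (s * f ^ 3) + 4 / e * (s ^ 2 * f ^ 2) := by
    field_simp
    ring
  rw [e1] at h1
  rw [e2] at h2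
  have e3 : 8 / e = 4 / e + 4 / e := by ring
  rw [e3]
  nlinarith [h1, h2]

theorem add4 {μ : Measure Ω} (S F : Lp ℝ 4 μ) {e : ℝ} (he : 0 < e) :
    ‖S + F‖ ^ 4 ≤ (1 + e) * (‖S‖ ^ 4 + ‖F‖ ^ 4) +
      (6 + 8 / e) * ∫ x, (S x) ^ 2 * (F x) ^ 2 ∂μ := by
  rw [norm4, norm4, norm4]
  have h1 : ∫ x, ((S + F : Lp ℝ 4 μ) x) ^ 4 ∂μ = ∫ x, (S x + F x) ^ 4 ∂μ := by
    refine integral_congr_ae ?_
    filter_upwards [Lp.coeFn_add S F] with x hx
    rw [hx]
    rfl
  have hA : Integrable (fun x => (1 + e) * ((S x) ^ 4 + (F x) ^ 4)) μ :=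
    ((int4 S).add (int4 F)).const_mul _
  have hB : Integrable (fun x => (6 + 8 / e) * ((S x) ^ 2 * (F x) ^ 2)) μ :=
    (int22 S F).const_mul _
  rw [h1, ← integral_add (int4 S) (int4 F), ← integral_const_mul, ← integral_const_mul,
    ← integral_add hA hB]
  refine integral_mono_ae ?_ (hA.add hB) (Filter.Eventually.of_forall fun x => ptw he)
  have h2 := int4 (S + F)
  refine h2.congr ?_
  filter_upwards [Lp.coeFn_add S F] with x hx
  rw [hx]
  rfl

/-- a bounded sequence of `L^4` that is small in `L^2` is small against `s^2` -/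
theorem weaknull {μ : Measure Ω} [IsFiniteMeasure μ] (S : Lp ℝ 4 μ) {C η : ℝ} (hC : 0 ≤ C)
    (hη : 0 < η) : ∃ δ : ℝ, 0 < δ ∧ ∀ F : Lp ℝ 4 μ, ‖F‖ ^ 4 ≤ C → ∫ x, (F x) ^ 2 ∂μ ≤ δ →
      ∫ x, (S x) ^ 2 * (F x) ^ 2 ∂μ ≤ η := by
  obtain ⟨θ, hθ, hθ2⟩ : ∃ θ : ℝ, 0 < θ ∧ θ / 2 * C ≤ η / 3 := by
    refine ⟨2 * (η / 3) / (C + 1), by positivity, ?_⟩
    rw [show 2 * (η / 3) / (C + 1) / 2 * C = (η / 3) * (C / (C + 1)) by field_simp]
    have : C / (C + 1) ≤ 1 := by rw [div_le_one (by linarith)]; linarith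
    nlinarith
  have hm := meas S
  have hlim : Filter.Tendsto
      (fun M : ℕ => ∫ x, Set.indicator {x | (M : ℝ) < (S x) ^ 2} (fun x => (S x) ^ 4) x ∂μ)
      Filter.atTop (nhds (∫ x, (0 : ℝ) ∂μ)) := by
    refine tendsto_integral_of_dominated_convergence (fun x => (S x) ^ 4) ?_ (int4 S) ?_ ?_
    · intro M
      exact ((hm.pow_const 4).indicator
        (measurableSet_lt measurable_const (hm.pow_const 2))).aestronglyMeasurable
    · intro M
      refine Filter.Eventually.of_forall fun x => ?_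
      rw [Real.norm_eq_abs]
      by_cases hx : x ∈ {x | (M : ℝ) < (S x) ^ 2}
      · rw [Set.indicator_of_mem hx, abs_of_nonneg (by positivity)]
      · rw [Set.indicator_of_notMem hx, abs_zero]
        positivity
    · refine Filter.Eventually.of_forall fun x => ?_
      obtain ⟨k, hk⟩ := exists_nat_ge ((S x) ^ 2)
      refine tendsto_const_nhds.congr' ?_
      filter_upwards [Filter.eventually_ge_atTop k] with M hM
      rw [Set.indicator_of_notMem]
      show ¬ ((M : ℝ) < (S x) ^ 2)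
      have : (k : ℝ) ≤ M := by exact_mod_cast hM
      linarith
  rw [integral_zero] at hlim
  obtain ⟨M, hM⟩ := ((hlim.eventually (gt_mem_nhds (show (0 : ℝ) < η / 3 * (2 * θ) by positivity))).and
    (Filter.eventually_ge_atTop 0)).exists
  have hM := hM.1
  refine ⟨η / 3 / (M + 1), by positivity, fun F h4 h2 => ?_⟩
  have hind : Integrable (Set.indicator {x | (M : ℝ) < (S x) ^ 2} (fun x => (S x) ^ 4)) μ :=
    (int4 S).indicator (measurableSet_lt measurable_const (hm.pow_const 2))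
  have hle : ∫ x, (S x) ^ 2 * (F x) ^ 2 ∂μ ≤
      ∫ x, ((M : ℝ) * (F x) ^ 2 + (1 / (2 * θ)) *
        Set.indicator {x | (M : ℝ) < (S x) ^ 2} (fun x => (S x) ^ 4) x + θ / 2 * (F x) ^ 4) ∂μ := by
    refine integral_mono_ae (int22 S F)
      ((((int2 F).const_mul _).add (hind.const_mul _)).add ((int4 F).const_mul _))
      (Filter.Eventually.of_forall fun x => ?_)
    show (S x) ^ 2 * (F x) ^ 2 ≤ (M : ℝ) * (F x) ^ 2 + (1 / (2 * θ)) *
        Set.indicator {x | (M : ℝ) < (S x) ^ 2} (fun x => (S x) ^ 4) x + θ / 2 * (F x) ^ 4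
    by_cases hx : x ∈ {x | (M : ℝ) < (S x) ^ 2}
    · rw [Set.indicator_of_mem hx]
      have h1 : 0 ≤ (1 / (2 * θ)) * ((S x) ^ 2 - θ * (F x) ^ 2) ^ 2 := by positivity
      have e1 : (1 / (2 * θ)) * ((S x) ^ 2 - θ * (F x) ^ 2) ^ 2 =
          (1 / (2 * θ)) * (S x) ^ 4 - (S x) ^ 2 * (F x) ^ 2 + θ / 2 * (F x) ^ 4 := by
        field_simp
        ring
      rw [e1] at h1
      have : 0 ≤ (M : ℝ) * (F x) ^ 2 := by positivity
      linarith
    · rw [Set.indicator_of_notMem hx]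
      have hx' : (S x) ^ 2 ≤ M := not_lt.1 hx
      have h1 : (S x) ^ 2 * (F x) ^ 2 ≤ M * (F x) ^ 2 :=
        mul_le_mul_of_nonneg_right hx' (by positivity)
      have h2 : 0 ≤ θ / 2 * (F x) ^ 4 := by positivity
      linarith
  have hsum : ∫ x, ((M : ℝ) * (F x) ^ 2 + (1 / (2 * θ)) *
        Set.indicator {x | (M : ℝ) < (S x) ^ 2} (fun x => (S x) ^ 4) x + θ / 2 * (F x) ^ 4) ∂μ =
      (M : ℝ) * ∫ x, (F x) ^ 2 ∂μ + (1 / (2 * θ)) *
        ∫ x, Set.indicator {x | (M : ℝ) < (S x) ^ 2} (fun x => (S x) ^ 4) x ∂μ +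
        θ / 2 * ∫ x, (F x) ^ 4 ∂μ := by
    have hA : Integrable (fun x => (M : ℝ) * (F x) ^ 2) μ := (int2 F).const_mul _
    have hB : Integrable (fun x => (1 / (2 * θ)) *
        Set.indicator {x | (M : ℝ) < (S x) ^ 2} (fun x => (S x) ^ 4) x) μ := hind.const_mul _
    have hD : Integrable (fun x => θ / 2 * (F x) ^ 4) μ := (int4 F).const_mul _
    have hAB : Integrable (fun x => (M : ℝ) * (F x) ^ 2 + (1 / (2 * θ)) *
        Set.indicator {x | (M : ℝ) < (S x) ^ 2} (fun x => (S x) ^ 4) x) μ := hA.add hB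
    rw [integral_add hAB hD, integral_add hA hB, integral_const_mul,
      integral_const_mul, integral_const_mul]
  rw [hsum] at hle
  rw [← norm4] at hle
  have t1 : (M : ℝ) * ∫ x, (F x) ^ 2 ∂μ ≤ η / 3 := by
    have h3 : (M : ℝ) * ∫ x, (F x) ^ 2 ∂μ ≤ M * (η / 3 / (M + 1)) :=
      mul_le_mul_of_nonneg_left h2 (by positivity)
    have h4 : (M : ℝ) * (η / 3 / (M + 1)) = η / 3 * (M / (M + 1)) := by ring
    have h5 : (M : ℝ) / (M + 1) ≤ 1 := by rw [div_le_one (by positivity)]; linarith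
    nlinarith
  have t2 : (1 / (2 * θ)) *
        ∫ x, Set.indicator {x | (M : ℝ) < (S x) ^ 2} (fun x => (S x) ^ 4) x ∂μ ≤ η / 3 := by
    have h3 : (1 / (2 * θ)) *
        ∫ x, Set.indicator {x | (M : ℝ) < (S x) ^ 2} (fun x => (S x) ^ 4) x ∂μ ≤
        (1 / (2 * θ)) * (η / 3 * (2 * θ)) := mul_le_mul_of_nonneg_left hM.le (by positivity)
    have h4 : (1 / (2 * θ)) * (η / 3 * (2 * θ)) = η / 3 := by field_simp
    linarith
  have t3 : θ / 2 * ‖F‖ ^ 4 ≤ η / 3 := by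
    have : θ / 2 * ‖F‖ ^ 4 ≤ θ / 2 * C := mul_le_mul_of_nonneg_left h4 (by positivity)
    linarith
  linarith

/-- a sequence with lower `l^2` estimates is bounded below in `L^2` -/
theorem kp {μ : Measure Ω} [IsFiniteMeasure μ] (f : ℕ → Lp ℝ 4 μ) {C c : ℝ} (hc : 0 < c)
    (hC : ∀ n, ‖f n‖ ^ 4 ≤ C) (hlow : ∀ A : Finset ℕ, c * (A.card : ℝ) ^ 2 ≤ ‖∑ n ∈ A, f n‖ ^ 4) :
    ∃ δ : ℝ, 0 < δ ∧ ∀ n, δ ≤ ∫ x, (f n x) ^ 2 ∂μ := by
  by_contra hcon
  push Not at hcon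
  have hC0 : 0 ≤ C := le_trans (by positivity) (hC 0)
  have hpos : ∀ n, 0 < ∫ x, (f n x) ^ 2 ∂μ := by
    intro n
    have h0 : 0 ≤ ∫ x, (f n x) ^ 2 ∂μ := integral_nonneg fun x => sq_nonneg _
    rcases h0.lt_or_eq with h | h
    · exact h
    · exfalso
      have h1 := (integral_eq_zero_iff_of_nonneg (fun x => sq_nonneg (f n x)) (int2 (f n))).1 h.symm
      have h2 : f n = 0 := by
        apply Lp.ext
        filter_upwards [h1, Lp.coeFn_zero ℝ 4 μ] with x hx h0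
        rw [h0]
        have : (f n x) ^ 2 = 0 := hx
        simpa using this
      have h3 := hlow {n}
      rw [Finset.sum_singleton, h2, norm_zero, Finset.card_singleton] at h3
      norm_num at h3
      linarith
  have key : ∀ N : ℕ, ∀ η : ℝ, 0 < η → ∃ A : Finset ℕ, A.card = N ∧
      ‖∑ n ∈ A, f n‖ ^ 4 ≤ N * C + η := by
    intro N
    induction N with
    | zero =>
      intro η hη
      refine ⟨∅, rfl, ?_⟩
      simp
      exact hη.le
    | succ N ih =>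
      intro η hη
      obtain ⟨A, hA, hS⟩ := ih (η / 2) (by positivity)
      obtain ⟨e, he, he2⟩ : ∃ e : ℝ, 0 < e ∧ e * ((N + 1) * C + η / 2) ≤ η / 4 := by
        refine ⟨η / 4 / ((N + 1) * C + η / 2), by positivity, ?_⟩
        rw [div_mul_cancel₀]
        positivity
      obtain ⟨δ1, hδ1, h1⟩ := weaknull (∑ n ∈ A, f n) hC0
        (show 0 < η / 4 / (6 + 8 / e) by positivity)
      obtain ⟨δ2, hδ2, h2⟩ : ∃ δ2 : ℝ, 0 < δ2 ∧ ∀ n ∈ A, δ2 ≤ ∫ x, (f n x) ^ 2 ∂μ := by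
        clear hA hS h1
        induction A using Finset.induction_on with
        | empty => exact ⟨1, one_pos, fun n hn => absurd hn (Finset.notMem_empty n)⟩
        | insert a s ha ihs =>
          obtain ⟨δ, hδ, h⟩ := ihs
          refine ⟨min δ (∫ x, (f a x) ^ 2 ∂μ), lt_min hδ (hpos a), fun n hn => ?_⟩
          rcases Finset.mem_insert.1 hn with rfl | hn
          · exact min_le_right _ _
          · exact le_trans (min_le_left _ _) (h n hn)
      obtain ⟨n, hn⟩ := hcon (min δ1 δ2) (lt_min hδ1 hδ2)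
      have hnA : n ∉ A := fun hmem => by
        have := h2 n hmem
        have h3 := min_le_right δ1 δ2
        linarith
      refine ⟨insert n A, ?_, ?_⟩
      · rw [Finset.card_insert_of_notMem hnA, hA]
      · rw [Finset.sum_insert hnA, add_comm]
        have h3 := add4 (∑ n ∈ A, f n) (f n) he
        have h4 := h1 (f n) (hC n) (le_trans hn.le (min_le_left _ _))
        have h5 : (6 + 8 / e) * ∫ x, ((∑ n ∈ A, f n : Lp ℝ 4 μ) x) ^ 2 * (f n x) ^ 2 ∂μ ≤ η / 4 := by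
          have h6 : (6 + 8 / e) * ∫ x, ((∑ n ∈ A, f n : Lp ℝ 4 μ) x) ^ 2 * (f n x) ^ 2 ∂μ ≤
              (6 + 8 / e) * (η / 4 / (6 + 8 / e)) := mul_le_mul_of_nonneg_left h4 (by positivity)
          rwa [mul_div_cancel₀] at h6
          positivity
        have h7 : (1 + e) * (‖∑ n ∈ A, f n‖ ^ 4 + ‖f n‖ ^ 4) ≤
            (1 + e) * ((N + 1) * C + η / 2) := by
          apply mul_le_mul_of_nonneg_left _ (by positivity)
          have := hC n
          linarith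
        push_cast
        nlinarith
  obtain ⟨N, hN⟩ := exists_nat_gt ((C + 1) / c)
  have hN0 : 0 < (N : ℝ) := lt_of_le_of_lt (by positivity) hN
  obtain ⟨A, hA, hS⟩ := key N 1 one_pos
  have h1 := hlow A
  rw [hA] at h1
  have h2 : C + 1 < N * c := by rwa [div_lt_iff₀ hc] at hN
  have h3 : (1 : ℝ) ≤ N := by exact_mod_cast Nat.one_le_iff_ne_zero.2 (by rintro rfl; simp at hN0)
  nlinarith

end Pool.Agent.S04004.LP

namespace Pool.Agent.S04004.LP

theorem signs {H ι : Type} [NormedAddCommGroup H] [InnerProductSpace ℝ H] [DecidableEq ι]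
    (s : Finset ι) (v : ι → H) : ∃ ε : ι → ℝ, (∀ i, ε i = 1 ∨ ε i = -1) ∧
      ∑ i ∈ s, ‖v i‖ ^ 2 ≤ ‖∑ i ∈ s, ε i • v i‖ ^ 2 := by
  induction s using Finset.induction_on with
  | empty => exact ⟨fun _ => 1, fun _ => Or.inl rfl, by simp⟩
  | insert a s ha ih =>
    obtain ⟨ε, hε, h⟩ := ih
    obtain ⟨σ, hσ, h0⟩ : ∃ σ : ℝ, (σ = 1 ∨ σ = -1) ∧
        0 ≤ σ * inner ℝ (v a) (∑ i ∈ s, ε i • v i) := by
      rcases le_total 0 (inner ℝ (v a) (∑ i ∈ s, ε i • v i)) with h | h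
      · exact ⟨1, Or.inl rfl, by simpa using h⟩
      · exact ⟨-1, Or.inr rfl, by simpa using h⟩
    refine ⟨Function.update ε a σ, fun i => ?_, ?_⟩
    · by_cases hi : i = a
      · subst hi
        simpa using hσ
      · rw [Function.update_of_ne hi]
        exact hε i
    · rw [Finset.sum_insert ha, Finset.sum_insert ha, Function.update_self]
      have h1 : ∑ i ∈ s, Function.update ε a σ i • v i = ∑ i ∈ s, ε i • v i := by
        refine Finset.sum_congr rfl fun i hi => ?_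
        rw [Function.update_of_ne (by rintro rfl; exact ha hi)]
      rw [h1, norm_add_sq_real, inner_smul_left, norm_smul]
      have h2 : ‖σ‖ = 1 := by
        rcases hσ with rfl | rfl <;> simp
      rw [h2, one_mul]
      simp only [conj_trivial]
      linarith

theorem pigeon {Γ : Type} [Uncountable Γ] (d : Γ → ℝ) (hd : ∀ g, 0 < d g) :
    ∃ δ : ℝ, 0 < δ ∧ {g | δ ≤ d g}.Infinite := by
  by_contra h
  push Not at h
  have h1 : (Set.univ : Set Γ) ⊆ ⋃ n : ℕ, {g | 1 / ((n : ℝ) + 1) ≤ d g} := by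
    intro g _
    obtain ⟨n, hn⟩ := exists_nat_one_div_lt (hd g)
    exact Set.mem_iUnion.2 ⟨n, hn.le⟩
  have h2 : (Set.univ : Set Γ).Countable := by
    refine Set.Countable.mono h1 (Set.countable_iUnion fun n => ?_)
    exact (h (1 / ((n : ℝ) + 1)) (by positivity)).countable
  exact Set.not_countable_univ h2

variable {Ω G : Type} [MeasurableSpace Ω] [MeasurableSpace G]

theorem memR {μ : Measure Ω} {m : Measure G} [IsFiniteMeasure m] {i : G → Ω} (hi : Measurable i)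
    (hle : m.map i ≤ μ) (F : Lp ℝ 4 μ) : MemLp (F ∘ i) 2 m :=
  (((Lp.memLp F).mono_measure hle).comp_of_map hi.aemeasurable).mono_exponent (by norm_num)

theorem aeR {μ : Measure Ω} {m : Measure G} {i : G → Ω} (hi : Measurable i)
    (hle : m.map i ≤ μ) {f g : Ω → ℝ} (h : f =ᵐ[μ] g) : f ∘ i =ᵐ[m] g ∘ i :=
  ae_of_ae_map hi.aemeasurable (Measure.ae_le_iff_absolutelyContinuous.2
    (Measure.absolutelyContinuous_of_le hle) h)

/-- composition with `i` from `L^4` to `L^2` -/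
noncomputable def R {μ : Measure Ω} {m : Measure G} [IsFiniteMeasure m] {i : G → Ω}
    (hi : Measurable i) (hle : m.map i ≤ μ) : Lp ℝ 4 μ →L[ℝ] Lp ℝ 2 m :=
  LinearMap.mkContinuous
    { toFun := fun F => (memR hi hle F).toLp (F ∘ i)
      map_add' := fun F H => by
        rw [← MemLp.toLp_add]
        refine (MemLp.toLp_eq_toLp_iff _ _).2 ?_
        exact aeR hi hle (Lp.coeFn_add F H)
      map_smul' := fun c F => by
        rw [RingHom.id_apply, ← MemLp.toLp_const_smul]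
        refine (MemLp.toLp_eq_toLp_iff _ _).2 ?_
        exact aeR hi hle (Lp.coeFn_smul c F) }
    (((m Set.univ) ^ (1 / (2 : ℝ≥0∞).toReal - 1 / (4 : ℝ≥0∞).toReal)).toReal) (fun F => by
      show ‖(memR hi hle F).toLp (F ∘ i)‖ ≤ _
      rw [Lp.norm_toLp, Lp.norm_def, mul_comm, ← ENNReal.toReal_mul]
      have h4 : MemLp (F ∘ i) 4 m := ((Lp.memLp F).mono_measure hle).comp_of_map hi.aemeasurable
      have hfin : (m Set.univ) ^ (1 / (2 : ℝ≥0∞).toReal - 1 / (4 : ℝ≥0∞).toReal) ≠ ⊤ := by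
        apply ENNReal.rpow_ne_top_of_nonneg
        · norm_num
        · exact measure_ne_top _ _
      refine ENNReal.toReal_mono (ENNReal.mul_ne_top (Lp.eLpNorm_ne_top F) hfin) ?_
      refine le_trans (eLpNorm_le_eLpNorm_mul_rpow_measure_univ (show (2 : ℝ≥0∞) ≤ 4 by norm_num)
        h4.aestronglyMeasurable) ?_
      gcongr
      rw [← eLpNorm_map_measure ((Lp.aestronglyMeasurable F).mono_measure hle) hi.aemeasurable]
      exact eLpNorm_mono_measure _ hle)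

theorem R_coe {μ : Measure Ω} {m : Measure G} [IsFiniteMeasure m] {i : G → Ω} (hi : Measurable i)
    (hle : m.map i ≤ μ) (F : Lp ℝ 4 μ) : (R hi hle F : G → ℝ) =ᵐ[m] F ∘ i :=
  MemLp.coeFn_toLp (memR hi hle F)

theorem R_norm {μ : Measure Ω} {m : Measure G} [IsFiniteMeasure m] {i : G → Ω} (hi : Measurable i)
    (hle : m.map i ≤ μ) (F : Lp ℝ 4 μ) : ‖R hi hle F‖ ^ 2 = ∫ x, (F (i x)) ^ 2 ∂m := by
  rw [norm2]
  refine integral_congr_ae ?_
  filter_upwards [R_coe hi hle F] with x hx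
  rw [hx]
  rfl

theorem R_toLp {μ : Measure Ω} {m : Measure G} [IsFiniteMeasure m] {i : G → Ω} (hi : Measurable i)
    (hle : m.map i ≤ μ) {f : Ω → ℝ} (hf : MemLp f 4 μ) {g : G → ℝ} (hg : MemLp g 2 m)
    (h : ∀ x, f (i x) = g x) : R hi hle (hf.toLp f) = hg.toLp g := by
  apply Lp.ext
  filter_upwards [R_coe hi hle (hf.toLp f), MemLp.coeFn_toLp hg,
    aeR hi hle (MemLp.coeFn_toLp hf)] with x h1 h2 h3
  rw [h1, h2, ← h x]
  exact h3

end Pool.Agent.S04004.LP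

namespace Pool.Agent.S04004.LP

/-- the group of sign functions on `J` -/
def GG (J : Type) : Type := J → ℤˣ

variable {J : Type}

noncomputable instance : CommGroup (GG J) := inferInstanceAs (CommGroup (J → ℤˣ))
instance : TopologicalSpace (GG J) := inferInstanceAs (TopologicalSpace (J → ℤˣ))
instance : IsTopologicalGroup (GG J) := inferInstanceAs (IsTopologicalGroup (J → ℤˣ))
instance : CompactSpace (GG J) := inferInstanceAs (CompactSpace (J → ℤˣ))
instance : Nonempty (GG J) := ⟨1⟩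
instance : MeasurableSpace (GG J) := borel _
instance : BorelSpace (GG J) := ⟨rfl⟩

/-- normalised Haar measure -/
noncomputable def mm (J : Type) : Measure (GG J) :=
  Measure.haarMeasure (⊤ : TopologicalSpace.PositiveCompacts (GG J))

instance : (mm J).IsHaarMeasure := by unfold mm; infer_instance

theorem mm_univ : mm J Set.univ = 1 := by
  have := Measure.haarMeasure_self (K₀ := (⊤ : TopologicalSpace.PositiveCompacts (GG J)))
  simpa [mm] using this

instance : IsProbabilityMeasure (mm J) := ⟨mm_univ⟩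

/-- coordinate sign -/
noncomputable def rho (i : J) (x : GG J) : ℝ := (((x i : ℤˣ) : ℤ) : ℝ)

theorem rho_cont (i : J) : Continuous (rho i) := by
  have h1 : Continuous (fun x : GG J => x i) := continuous_apply (A := fun _ => ℤˣ) i
  have h2 : Continuous (fun u : ℤˣ => (((u : ℤˣ) : ℤ) : ℝ)) := continuous_of_discreteTopology
  exact h2.comp h1

theorem rho_sq (i : J) (x : GG J) : rho i x ^ 2 = 1 := by
  unfold rho
  rcases Int.units_eq_one_or (x i) with h | h <;> rw [h] <;> norm_num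

theorem rho_abs (i : J) (x : GG J) : |rho i x| = 1 := by
  unfold rho
  rcases Int.units_eq_one_or (x i) with h | h <;> rw [h] <;> norm_num

open Classical in
/-- change of one sign -/
noncomputable def flip (i : J) : GG J := (Pi.mulSingle i (-1 : ℤˣ) : J → ℤˣ)

theorem rho_flip_self (i : J) (x : GG J) : rho i (flip i * x) = -rho i x := by
  classical
  unfold rho
  have h : (flip i * x) i = (-1 : ℤˣ) * x i := by
    show (Pi.mulSingle i (-1 : ℤˣ) : J → ℤˣ) i * x i = _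
    rw [Pi.mulSingle_eq_same]
  rw [h]
  push_cast
  ring

theorem rho_flip_ne {i j : J} (hij : j ≠ i) (x : GG J) : rho j (flip i * x) = rho j x := by
  classical
  unfold rho
  have h : (flip i * x) j = x j := by
    show (Pi.mulSingle i (-1 : ℤˣ) : J → ℤˣ) j * x j = _
    rw [Pi.mulSingle_eq_of_ne hij, one_mul]
  rw [h]

theorem intc {f : GG J → ℝ} (hf : Continuous f) : Integrable f (mm J) :=
  hf.integrable_of_hasCompactSupport (HasCompactSupport.of_compactSpace f)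

theorem odd {f : GG J → ℝ} {i : J} (h : ∀ x, f (flip i * x) = f x) :
    ∫ x, f x * rho i x ∂(mm J) = 0 := by
  have h1 := integral_mul_left_eq_self (μ := mm J) (fun x => f x * rho i x) (flip i)
  have h2 : ∫ x, f (flip i * x) * rho i (flip i * x) ∂(mm J) = -∫ x, f x * rho i x ∂(mm J) := by
    rw [← integral_neg]
    refine integral_congr_ae (Filter.Eventually.of_forall fun x => ?_)
    show f (flip i * x) * rho i (flip i * x) = -(f x * rho i x)
    rw [h, rho_flip_self]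
    ring
  have h3 : ∫ x, f (flip i * x) * rho i (flip i * x) ∂(mm J) = ∫ x, f x * rho i x ∂(mm J) := h1
  linarith

theorem orth {i j : J} (hij : i ≠ j) : ∫ x, rho i x * rho j x ∂(mm J) = 0 :=
  odd fun x => rho_flip_ne hij x

theorem unit_int (i : J) : ∫ x, rho i x * rho i x ∂(mm J) = 1 := by
  have : ∀ x, rho i x * rho i x = 1 := fun x => by rw [← sq]; exact rho_sq i x
  simp [this]

/-- second and fourth moments of sums of signs -/
theorem moments [DecidableEq J] (A : Finset J) (ε : J → ℝ) (hε : ∀ i, ε i = 1 ∨ ε i = -1) :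
    ∫ x, (∑ i ∈ A, ε i * rho i x) ^ 2 ∂(mm J) = A.card ∧
      ∫ x, (∑ i ∈ A, ε i * rho i x) ^ 4 ∂(mm J) ≤ 3 * (A.card : ℝ) ^ 2 := by
  induction A using Finset.induction_on with
  | empty => simp
  | insert a A ha ih =>
    obtain ⟨h2, h4⟩ := ih
    have hS : Continuous fun x : GG J => ∑ i ∈ A, ε i * rho i x :=
      continuous_finsetSum _ fun i _ => continuous_const.mul (rho_cont i)
    have hinv : ∀ x : GG J, ∑ i ∈ A, ε i * rho i (flip a * x) = ∑ i ∈ A, ε i * rho i x := by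
      intro x
      refine Finset.sum_congr rfl fun i hi => ?_
      rw [rho_flip_ne (by rintro rfl; exact ha hi)]
    have hεa : ε a ^ 2 = 1 := by
      rcases hε a with h | h <;> rw [h] <;> norm_num
    have hr := rho_cont a
    have o1 : ∫ x, (∑ i ∈ A, ε i * rho i x) * rho a x ∂(mm J) = 0 := odd hinv
    have o3 : ∫ x, ((∑ i ∈ A, ε i * rho i x) ^ 3 + (∑ i ∈ A, ε i * rho i x)) * rho a x ∂(mm J) = 0 :=
      odd (fun x => by rw [hinv x])
    constructor
    · have e : ∀ x, (∑ i ∈ insert a A, ε i * rho i x) ^ 2 =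
          (∑ i ∈ A, ε i * rho i x) ^ 2 + 2 * ε a * ((∑ i ∈ A, ε i * rho i x) * rho a x) + 1 := by
        intro x
        rw [Finset.sum_insert ha]
        have := rho_sq a x
        linear_combination (rho a x) ^ 2 * hεa + this
      simp_rw [e]
      have i2 : Integrable (fun x => (∑ i ∈ A, ε i * rho i x) ^ 2) (mm J) := intc (hS.pow 2)
      have i1 : Integrable (fun x => 2 * ε a * ((∑ i ∈ A, ε i * rho i x) * rho a x)) (mm J) :=
        (intc (hS.mul hr)).const_mul _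
      have i21 : Integrable (fun x => (∑ i ∈ A, ε i * rho i x) ^ 2 +
          2 * ε a * ((∑ i ∈ A, ε i * rho i x) * rho a x)) (mm J) := i2.add i1
      rw [integral_add i21 (integrable_const _),
        integral_add i2 i1, integral_const_mul, o1, h2,
        Finset.card_insert_of_notMem ha]
      simp
    · have e : ∀ x, (∑ i ∈ insert a A, ε i * rho i x) ^ 4 =
          (∑ i ∈ A, ε i * rho i x) ^ 4 + 4 * ε a * (((∑ i ∈ A, ε i * rho i x) ^ 3 +
            (∑ i ∈ A, ε i * rho i x)) * rho a x) + 6 * (∑ i ∈ A, ε i * rho i x) ^ 2 + 1 := by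
        intro x
        rw [Finset.sum_insert ha]
        have h1 := rho_sq a x
        have h2 : (ε a * rho a x) ^ 2 = 1 := by rw [mul_pow, hεa, h1, one_mul]
        set S := ∑ i ∈ A, ε i * rho i x
        have e1 : (ε a * rho a x + S) ^ 4 = S ^ 4 + 4 * (ε a * rho a x) * S ^ 3 +
            6 * (ε a * rho a x) ^ 2 * S ^ 2 + 4 * ((ε a * rho a x) ^ 2 * (ε a * rho a x)) * S +
            ((ε a * rho a x) ^ 2) ^ 2 := by ring
        rw [e1, h2]
        ring
      simp_rw [e]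
      have i4 : Integrable (fun x => (∑ i ∈ A, ε i * rho i x) ^ 4) (mm J) := intc (hS.pow 4)
      have i3 : Integrable (fun x => 4 * ε a * (((∑ i ∈ A, ε i * rho i x) ^ 3 +
            (∑ i ∈ A, ε i * rho i x)) * rho a x)) (mm J) :=
        (intc (((hS.pow 3).add hS).mul hr)).const_mul _
      have i2 : Integrable (fun x => 6 * (∑ i ∈ A, ε i * rho i x) ^ 2) (mm J) :=
        (intc (hS.pow 2)).const_mul _
      have i43 : Integrable (fun x => (∑ i ∈ A, ε i * rho i x) ^ 4 +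
          4 * ε a * (((∑ i ∈ A, ε i * rho i x) ^ 3 +
            (∑ i ∈ A, ε i * rho i x)) * rho a x)) (mm J) := i4.add i3
      have i432 : Integrable (fun x => (∑ i ∈ A, ε i * rho i x) ^ 4 +
          4 * ε a * (((∑ i ∈ A, ε i * rho i x) ^ 3 +
            (∑ i ∈ A, ε i * rho i x)) * rho a x) + 6 * (∑ i ∈ A, ε i * rho i x) ^ 2) (mm J) :=
        i43.add i2
      rw [integral_add i432 (integrable_const _), integral_add i43 i2, integral_add i4 i3,
        integral_const_mul, integral_const_mul, o3, h2, Finset.card_insert_of_notMem ha]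
      simp only [integral_const, probReal_univ, smul_eq_mul]
      push_cast
      nlinarith

end Pool.Agent.S04004.LP

namespace Pool.Agent.S04004.LP

/-- slots: one for every element of `Γ` and one more -/
def OO (Γ : Type) : Type := Option Γ

variable {Γ : Type}

instance : MeasurableSpace (OO Γ) := ⊤

/-- the measure on `slots × sign functions`: Haar measure on every slot -/
noncomputable def mu (Γ : Type) : Measure (OO Γ × GG (Γ × ℕ)) :=
  Measure.sum fun j : OO Γ => (mm (Γ × ℕ)).map fun x => (j, x)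

theorem iota_meas (j : OO Γ) : Measurable (fun x : GG (Γ × ℕ) => (j, x)) := measurable_prodMk_left

theorem map_le (j : OO Γ) : (mm (Γ × ℕ)).map (fun x => (j, x)) ≤ mu Γ :=
  Measure.le_sum (fun j : OO Γ => (mm (Γ × ℕ)).map fun x => (j, x)) j

open Classical in
/-- weights -/
noncomputable def w (i : Γ × ℕ) : OO Γ → ℝ
  | none => (1 / 2) ^ i.2
  | some g => if g = i.1 then 1 else 0

/-- generating functions -/
noncomputable def ef (i : Γ × ℕ) (z : OO Γ × GG (Γ × ℕ)) : ℝ := w i z.1 * rho i z.2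

theorem rho_meas {J : Type} (i : J) : Measurable (rho i) := (rho_cont i).measurable

theorem ef_meas (i : Γ × ℕ) : Measurable (ef i) := by
  unfold ef
  exact ((measurable_from_top (f := w i)).comp measurable_fst).mul
    ((rho_meas i).comp measurable_snd)

theorem lint {f : OO Γ × GG (Γ × ℕ) → ℝ} (hf : Measurable f) :
    ∫⁻ z, ENNReal.ofReal (f z ^ 4) ∂(mu Γ) =
      ∑' j : OO Γ, ∫⁻ x, ENNReal.ofReal (f (j, x) ^ 4) ∂(mm (Γ × ℕ)) := by
  unfold mu
  rw [lintegral_sum_measure]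
  refine tsum_congr fun j => ?_
  rw [lintegral_map (hf.pow_const 4).ennreal_ofReal (iota_meas j)]

theorem memLp4 {Ω : Type} [MeasurableSpace Ω] {μ : Measure Ω} {f : Ω → ℝ} (hf : Measurable f)
    (h : ∫⁻ z, ENNReal.ofReal (f z ^ 4) ∂μ < ⊤) : MemLp f 4 μ := by
  refine ⟨hf.aestronglyMeasurable, ?_⟩
  rw [eLpNorm_lt_top_iff_lintegral_rpow_enorm_lt_top (by norm_num) (by norm_num)]
  refine lt_of_eq_of_lt (lintegral_congr fun z => ?_) h
  rw [Real.enorm_eq_ofReal_abs, ENNReal.ofReal_rpow_of_nonneg (abs_nonneg _) (by norm_num)]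
  congr 1
  rw [show (4 : ℝ≥0∞).toReal = ((4 : ℕ) : ℝ) by norm_num, Real.rpow_natCast]
  exact Even.pow_abs (by decide) _

theorem normToLp {Ω : Type} [MeasurableSpace Ω] {μ : Measure Ω} {f : Ω → ℝ} (hf : MemLp f 4 μ)
    (hm : Measurable f) :
    ‖hf.toLp f‖ ^ 4 = (∫⁻ z, ENNReal.ofReal (f z ^ 4) ∂μ).toReal := by
  rw [norm4, ← integral_eq_lintegral_of_nonneg_ae (Filter.Eventually.of_forall fun x => by
    show (0 : ℝ) ≤ f x ^ 4
    positivity) (hm.pow_const 4).aestronglyMeasurable]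
  refine integral_congr_ae ?_
  filter_upwards [MemLp.coeFn_toLp hf] with x hx
  rw [hx]

/-- finite sums in one family -/
noncomputable def fs (n : ℕ) (A : Finset Γ) (ε : Γ → ℝ) (z : OO Γ × GG (Γ × ℕ)) : ℝ :=
  ∑ g ∈ A, ε g * ef (g, n) z

theorem fs_meas (n : ℕ) (A : Finset Γ) (ε : Γ → ℝ) : Measurable (fs n A ε) := by
  unfold fs
  exact Finset.measurable_sum _ fun g _ => (ef_meas (g, n)).const_mul _

theorem fs_none (n : ℕ) (A : Finset Γ) (ε : Γ → ℝ) (hε : ∀ i, ε i = 1 ∨ ε i = -1) :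
    ∫⁻ x, ENNReal.ofReal (fs n A ε ((none : Option Γ), x) ^ 4) ∂(mm (Γ × ℕ)) ≤
      ENNReal.ofReal (3 * (1 / 16) ^ n * (A.card : ℝ) ^ 2) := by
  classical
  have h1 : ∀ x : GG (Γ × ℕ), fs n A ε ((none : Option Γ), x) =
      (1 / 2) ^ n * ∑ i ∈ A.map ⟨fun g => (g, n), fun a b h => (Prod.mk.inj h).1⟩,
        (fun i : Γ × ℕ => ε i.1) i * rho i x := by
    intro x
    unfold fs
    rw [Finset.sum_map, Finset.mul_sum]
    refine Finset.sum_congr rfl fun g _ => ?_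
    show ε g * ((1 / 2) ^ n * rho (g, n) x) = (1 / 2) ^ n * (ε g * rho (g, n) x)
    ring
  have hS : Continuous fun x : GG (Γ × ℕ) =>
      ∑ i ∈ A.map ⟨fun g => (g, n), fun a b h => (Prod.mk.inj h).1⟩,
        (fun i : Γ × ℕ => ε i.1) i * rho i x :=
    continuous_finsetSum _ fun i _ => continuous_const.mul (rho_cont i)
  have h2 := (moments (A.map ⟨fun g => (g, n), fun a b h => (Prod.mk.inj h).1⟩)
    (fun i : Γ × ℕ => ε i.1) (fun i => hε i.1)).2
  rw [Finset.card_map] at h2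
  have hc : Continuous fun x : GG (Γ × ℕ) => fs n A ε ((none : Option Γ), x) ^ 4 := by
    simp_rw [h1]
    exact (continuous_const.mul hS).pow 4
  rw [← ofReal_integral_eq_lintegral_ofReal (intc hc)
    (Filter.Eventually.of_forall fun x => by
      show (0 : ℝ) ≤ fs n A ε ((none : Option Γ), x) ^ 4
      positivity)]
  apply ENNReal.ofReal_le_ofReal
  simp_rw [h1, mul_pow]
  rw [integral_const_mul, ← pow_mul, mul_comm n 4, pow_mul]
  have h3 : (0 : ℝ) ≤ ((1 / 2) ^ 4) ^ n := by positivity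
  have h4 := mul_le_mul_of_nonneg_left h2 h3
  have h5 : (((1 : ℝ) / 2) ^ 4) ^ n = (1 / 16) ^ n := by norm_num
  rw [h5] at h4 ⊢
  linarith

open Classical in
theorem fs_some (n : ℕ) (A : Finset Γ) (ε : Γ → ℝ) (hε : ∀ i, ε i = 1 ∨ ε i = -1) (g : Γ) :
    ∫⁻ x, ENNReal.ofReal (fs n A ε ((some g : Option Γ), x) ^ 4) ∂(mm (Γ × ℕ)) =
      if g ∈ A then 1 else 0 := by
  have h1 : ∀ x : GG (Γ × ℕ), fs n A ε ((some g : Option Γ), x) =
      if g ∈ A then ε g * rho (g, n) x else 0 := by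
    intro x
    unfold fs
    have : ∀ g' ∈ A, ε g' * ef (g', n) ((some g : Option Γ), x) =
        if g = g' then ε g' * rho (g', n) x else 0 := by
      intro g' _
      show ε g' * ((if g = g' then 1 else 0) * rho (g', n) x) = _
      split <;> ring
    rw [Finset.sum_congr rfl this, Finset.sum_ite_eq]
  simp_rw [h1]
  by_cases hg : g ∈ A
  · simp only [hg, if_true]
    have h2 : ∀ x : GG (Γ × ℕ), (ε g * rho (g, n) x) ^ 4 = 1 := by
      intro x
      have e1 : ε g ^ 2 = 1 := by rcases hε g with h | h <;> rw [h] <;> norm_num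
      have e2 := rho_sq (g, n) x
      have : (ε g * rho (g, n) x) ^ 4 = (ε g ^ 2) ^ 2 * (rho (g, n) x ^ 2) ^ 2 := by ring
      rw [this, e1, e2]
      norm_num
    simp_rw [h2]
    simp
  · simp [hg]

theorem fs_lint (n : ℕ) (A : Finset Γ) (ε : Γ → ℝ) (hε : ∀ i, ε i = 1 ∨ ε i = -1) :
    ∫⁻ z, ENNReal.ofReal (fs n A ε z ^ 4) ∂(mu Γ) ≤
      ENNReal.ofReal (A.card + 3 * (1 / 16) ^ n * (A.card : ℝ) ^ 2) := by
  classical
  rw [lint (fs_meas n A ε)]
  let F : Option Γ → ℝ≥0∞ := fun j =>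
    ∫⁻ x, ENNReal.ofReal (fs n A ε ((j : OO Γ), x) ^ 4) ∂(mm (Γ × ℕ))
  have hF : ∀ g, F (some g) = if g ∈ A then 1 else 0 := fun g => fs_some n A ε hε g
  change ∑' j : Option Γ, F j ≤ _
  have h0 : ∀ j : Option Γ, j ∉ Finset.insertNone A → F j = 0 := by
    intro j hj
    rcases j with _ | g
    · exact absurd Finset.none_mem_insertNone hj
    · have hg : g ∉ A := fun h => hj (Finset.some_mem_insertNone.2 h)
      rw [hF, if_neg hg]
  rw [tsum_eq_sum h0, Finset.sum_insertNone]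
  rw [ENNReal.ofReal_add (by positivity) (by positivity), add_comm]
  refine add_le_add ?_ (fs_none n A ε hε)
  rw [Finset.sum_congr rfl (fun g hg => (hF g).trans (if_pos hg))]
  simp

end Pool.Agent.S04004.LP

namespace Pool.Agent.S04004.LP

variable {Γ : Type}

theorem fs_memLp (n : ℕ) (A : Finset Γ) (ε : Γ → ℝ) (hε : ∀ i, ε i = 1 ∨ ε i = -1) :
    MemLp (fs n A ε) 4 (mu Γ) :=
  memLp4 (fs_meas n A ε) (lt_of_le_of_lt (fs_lint n A ε hε) ENNReal.ofReal_lt_top)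

theorem ef_memLp (i : Γ × ℕ) : MemLp (ef i) 4 (mu Γ) := by
  have h := fs_memLp i.2 {i.1} (fun _ => 1) (fun _ => Or.inl rfl)
  have e : fs i.2 {i.1} (fun _ => 1) = ef i := by
    funext z
    unfold fs
    rw [Finset.sum_singleton, one_mul]
  rwa [e] at h

/-- generators -/
noncomputable def E (i : Γ × ℕ) : Lp ℝ 4 (mu Γ) := (ef_memLp i).toLp (ef i)

theorem sumE (n : ℕ) (A : Finset Γ) (ε : Γ → ℝ) (hε : ∀ i, ε i = 1 ∨ ε i = -1) :
    ∑ g ∈ A, ε g • E (g, n) = (fs_memLp n A ε hε).toLp (fs n A ε) := by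
  apply Lp.ext
  have h1 : ∀ᵐ z ∂(mu Γ), ∀ g ∈ A, (ε g • E (g, n) : Lp ℝ 4 (mu Γ)) z = ε g * ef (g, n) z := by
    rw [Filter.eventually_all_finset]
    intro g _
    filter_upwards [Lp.coeFn_smul (ε g) (E (g, n)), MemLp.coeFn_toLp (ef_memLp (g, n))] with z h h'
    rw [h]
    show ε g * (E (g, n)) z = _
    unfold E
    rw [h']
  filter_upwards [h1, Lp.coeFn_fun_finsetSum A (fun g => ε g • E (g, n)),
    MemLp.coeFn_toLp (fs_memLp n A ε hε)] with z h1 h2 h3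
  rw [h2, h3]
  unfold fs
  exact Finset.sum_congr rfl h1

theorem normE (n : ℕ) (A : Finset Γ) (ε : Γ → ℝ) (hε : ∀ i, ε i = 1 ∨ ε i = -1) :
    ‖∑ g ∈ A, ε g • E (g, n)‖ ^ 4 ≤ A.card + 3 * (1 / 16) ^ n * (A.card : ℝ) ^ 2 := by
  rw [sumE n A ε hε, normToLp _ (fs_meas n A ε)]
  exact ENNReal.toReal_le_of_le_ofReal (by positivity) (fs_lint n A ε hε)

theorem rho_memLp {J : Type} (i : J) : MemLp (rho i) 2 (mm J) :=
  MemLp.of_bound (rho_meas i).aestronglyMeasurable 1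
    (Filter.Eventually.of_forall fun x => by rw [Real.norm_eq_abs, rho_abs])

/-- signs as elements of `L^2` -/
noncomputable def rh {J : Type} (i : J) : Lp ℝ 2 (mm J) := (rho_memLp i).toLp (rho i)

theorem rh_inner {J : Type} (i k : J) :
    inner ℝ (rh i) (rh k) = ∫ x, rho i x * rho k x ∂(mm J) := by
  rw [L2.inner_def]
  refine integral_congr_ae ?_
  filter_upwards [MemLp.coeFn_toLp (rho_memLp i), MemLp.coeFn_toLp (rho_memLp k)] with x h1 h2
  unfold rh
  rw [h1, h2]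
  show rho k x * rho i x = rho i x * rho k x
  ring

theorem rh_self {J : Type} (i : J) : inner ℝ (rh i) (rh i) = (1 : ℝ) := by
  rw [rh_inner, unit_int]

theorem rh_ne {J : Type} {i k : J} (h : i ≠ k) : inner ℝ (rh i) (rh k) = (0 : ℝ) := by
  rw [rh_inner, orth h]

/-- the restriction to a slot -/
noncomputable def Rj (j : OO Γ) : Lp ℝ 4 (mu Γ) →L[ℝ] Lp ℝ 2 (mm (Γ × ℕ)) :=
  R (iota_meas j) (map_le j)

theorem Rj_E (j : OO Γ) (i : Γ × ℕ) : Rj j (E i) = w i j • rh i := by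
  unfold Rj E rh
  rw [R_toLp (iota_meas j) (map_le j) (ef_memLp i) ((rho_memLp i).const_smul (w i j))
    (fun x => rfl), ← MemLp.toLp_const_smul]

/-- the subspace -/
noncomputable def X (Γ : Type) : Submodule ℝ (Lp ℝ 4 (mu Γ)) :=
  (Submodule.span ℝ (Set.range (E (Γ := Γ)))).topologicalClosure

theorem E_mem (i : Γ × ℕ) : E i ∈ X Γ :=
  Submodule.le_topologicalClosure _ (Submodule.subset_span ⟨i, rfl⟩)

theorem X_closed : IsClosed (X Γ : Set (Lp ℝ 4 (mu Γ))) :=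
  Submodule.isClosed_topologicalClosure _

/-- continuous linear maps vanishing on the generators vanish on the subspace -/
theorem X_ker {H : Type} [NormedAddCommGroup H] [NormedSpace ℝ H] (Φ : Lp ℝ 4 (mu Γ) →L[ℝ] H)
    (h : ∀ i, Φ (E i) = 0) {F : Lp ℝ 4 (mu Γ)} (hF : F ∈ X Γ) : Φ F = 0 := by
  have h1 : X Γ ≤ LinearMap.ker (Φ : Lp ℝ 4 (mu Γ) →ₗ[ℝ] H) := by
    refine Submodule.topologicalClosure_minimal _ ?_ (ContinuousLinearMap.isClosed_ker Φ)
    rw [Submodule.span_le]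
    rintro _ ⟨i, rfl⟩
    exact h i
  exact h1 hF

theorem coef_ne {g : Γ} {i : Γ × ℕ} (hi : i.1 ≠ g) {F : Lp ℝ 4 (mu Γ)} (hF : F ∈ X Γ) :
    inner ℝ (rh i) (Rj ((some g : Option Γ) : OO Γ) F) = (0 : ℝ) := by
  have := X_ker ((innerSL ℝ (rh i)).comp (Rj ((some g : Option Γ) : OO Γ))) (fun k => by
    show inner ℝ (rh i) (Rj ((some g : Option Γ) : OO Γ) (E k)) = (0 : ℝ)
    rw [Rj_E, inner_smul_right]
    by_cases hik : i = k
    · subst hik
      have : w i ((some g : Option Γ) : OO Γ) = 0 := if_neg (fun h => hi h.symm)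
      rw [this, zero_mul]
    · rw [rh_ne hik, mul_zero]) hF
  exact this

theorem coef_eq (g : Γ) (n : ℕ) {F : Lp ℝ 4 (mu Γ)} (hF : F ∈ X Γ) :
    inner ℝ (rh (g, n)) (Rj ((none : Option Γ) : OO Γ) F) =
      (1 / 2) ^ n * inner ℝ (rh (g, n)) (Rj ((some g : Option Γ) : OO Γ) F) := by
  have := X_ker ((innerSL ℝ (rh (g, n))).comp (Rj ((none : Option Γ) : OO Γ)) -
      ((1 / 2 : ℝ) ^ n) • (innerSL ℝ (rh (g, n))).comp (Rj ((some g : Option Γ) : OO Γ)))
      (fun k => by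
    show inner ℝ (rh (g, n)) (Rj ((none : Option Γ) : OO Γ) (E k)) -
      (1 / 2 : ℝ) ^ n * inner ℝ (rh (g, n)) (Rj ((some g : Option Γ) : OO Γ) (E k)) = (0 : ℝ)
    rw [Rj_E, Rj_E, inner_smul_right, inner_smul_right]
    by_cases hik : (g, n) = k
    · subst hik
      have h1 : w (g, n) ((some g : Option Γ) : OO Γ) = 1 := if_pos rfl
      have h2 : w (g, n) ((none : Option Γ) : OO Γ) = (1 / 2) ^ n := rfl
      rw [h1, h2, rh_self]
      ring
    · rw [rh_ne hik]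
      ring) hF
  have h2 : inner ℝ (rh (g, n)) (Rj ((none : Option Γ) : OO Γ) F) -
      (1 / 2 : ℝ) ^ n * inner ℝ (rh (g, n)) (Rj ((some g : Option Γ) : OO Γ) F) = (0 : ℝ) := this
  linarith

theorem Rj_zero (j : OO Γ) {F : Lp ℝ 4 (mu Γ)} (hF : F ∈ X Γ)
    (h : ∀ i, inner ℝ (rh i) (Rj j F) = (0 : ℝ)) : Rj j F = 0 := by
  have := X_ker ((innerSL ℝ (Rj j F)).comp (Rj j)) (fun k => by
    show inner ℝ (Rj j F) (Rj j (E k)) = (0 : ℝ)
    rw [Rj_E, inner_smul_right, real_inner_comm, h k, mul_zero]) hF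
  exact inner_self_eq_zero.1 this

theorem all_zero {F : Lp ℝ 4 (mu Γ)} (h : ∀ j : OO Γ, Rj j F = 0) : F = 0 := by
  apply Lp.ext
  have h1 : ∀ᵐ z ∂(mu Γ), F z = 0 := by
    have hs : MeasurableSet {z | F z = 0} := measurableSet_eq_fun (meas F) measurable_const
    refine (Measure.ae_sum_iff' (μ := fun j : OO Γ => (mm (Γ × ℕ)).map fun x => (j, x)) hs).2 ?_
    intro j
    rw [ae_map_iff (iota_meas j).aemeasurable hs]
    have h2 := R_coe (iota_meas j) (map_le j) F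
    have h3 : R (iota_meas j) (map_le j) F = 0 := h j
    rw [h3] at h2
    filter_upwards [h2, Lp.coeFn_zero ℝ 2 (mm (Γ × ℕ))] with x h4 h5
    rw [h5] at h4
    exact h4.symm
  filter_upwards [h1, Lp.coeFn_zero ℝ 4 (mu Γ)] with z h2 h3
  rw [h2, h3]
  rfl

/-- the restriction to the last slot is injective on the subspace -/
theorem inj {F : Lp ℝ 4 (mu Γ)} (hF : F ∈ X Γ) (h : Rj ((none : Option Γ) : OO Γ) F = 0) :
    F = 0 := by
  refine all_zero fun j => ?_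
  rcases j with _ | g
  · exact h
  · refine Rj_zero _ hF fun i => ?_
    by_cases hi : i.1 = g
    · obtain ⟨g', n⟩ := i
      have hi' : g' = g := hi
      subst hi'
      have h1 := coef_eq g' n hF
      rw [h, inner_zero_right] at h1
      have h2 : (0 : ℝ) < (1 / 2) ^ n := by positivity
      rcases mul_eq_zero.1 h1.symm with h3 | h3
      · exact absurd h3 h2.ne'
      · exact h3
    · exact coef_ne hi hF

/-- lower `l^2` estimate in a slot -/
theorem low (g : Γ) : ∃ c : ℝ, 0 < c ∧ ∀ A : Finset ℕ,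
    c * (A.card : ℝ) ^ 2 ≤ ‖∑ n ∈ A, E (g, n)‖ ^ 4 := by
  have hK : 0 < ‖Rj ((some g : Option Γ) : OO Γ)‖ + 1 := by positivity
  refine ⟨1 / (‖Rj ((some g : Option Γ) : OO Γ)‖ + 1) ^ 4, by positivity, fun A => ?_⟩
  have h1 : Rj ((some g : Option Γ) : OO Γ) (∑ n ∈ A, E (g, n)) = ∑ n ∈ A, rh (g, n) := by
    rw [map_sum]
    refine Finset.sum_congr rfl fun n _ => ?_
    rw [Rj_E]
    have : w (g, n) ((some g : Option Γ) : OO Γ) = 1 := if_pos rfl
    rw [this, one_smul]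
  have h2 : ‖∑ n ∈ A, rh (g, n)‖ ^ 2 = (A.card : ℝ) := by
    rw [← real_inner_self_eq_norm_sq, sum_inner]
    rw [Finset.sum_congr rfl (g := fun _ => (1 : ℝ))]
    · simp
    · intro n hn
      rw [inner_sum, Finset.sum_eq_single n]
      · exact rh_self _
      · intro k _ hk
        exact rh_ne (fun h => hk (Prod.mk.inj h).2.symm)
      · intro h
        exact absurd hn h
  have h3 := (Rj ((some g : Option Γ) : OO Γ)).le_opNorm (∑ n ∈ A, E (g, n))
  rw [h1] at h3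
  set K := ‖Rj ((some g : Option Γ) : OO Γ)‖ + 1
  have h4 : ‖∑ n ∈ A, rh (g, n)‖ ≤ K * ‖∑ n ∈ A, E (g, n)‖ := by
    refine le_trans h3 (mul_le_mul_of_nonneg_right ?_ (norm_nonneg _))
    linarith
  have h5 : (A.card : ℝ) ^ 2 ≤ K ^ 4 * ‖∑ n ∈ A, E (g, n)‖ ^ 4 := by
    rw [← h2, ← pow_mul, ← mul_pow]
    exact pow_le_pow_left₀ (norm_nonneg _) h4 4
  rw [div_mul_eq_mul_div, one_mul, div_le_iff₀ (by positivity)]
  linarith

end Pool.Agent.S04004.LP

namespace Pool.Agent.S04004.LP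

theorem up {Γ V H : Type} [NormedAddCommGroup V] [NormedSpace ℝ V] [NormedAddCommGroup H]
    [InnerProductSpace ℝ H] (L : V →L[ℝ] H) (v : Γ → V) {a b δ : ℝ} (ha : 0 ≤ a)
    (hδ : 0 < δ) (hinf : {g | δ ≤ ‖L (v g)‖ ^ 2}.Infinite)
    (hup : ∀ (A : Finset Γ) (ε : Γ → ℝ), (∀ i, ε i = 1 ∨ ε i = -1) →
      ‖∑ g ∈ A, ε g • v g‖ ^ 4 ≤ a * A.card + b * (A.card : ℝ) ^ 2) :
    δ ^ 2 ≤ ‖L‖ ^ 4 * b := by
  classical
  by_contra hcon
  push Not at hcon
  obtain ⟨N, hN⟩ := exists_nat_gt (‖L‖ ^ 4 * a / (δ ^ 2 - ‖L‖ ^ 4 * b))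
  have hpos : 0 < δ ^ 2 - ‖L‖ ^ 4 * b := by linarith
  have hN0 : 0 < (N : ℝ) := lt_of_le_of_lt (by positivity) hN
  rw [div_lt_iff₀ hpos] at hN
  obtain ⟨A, hA, hc⟩ := hinf.exists_subset_card_eq N
  obtain ⟨ε, hε, hs⟩ := signs A (fun g => L (v g))
  have h1 : (N : ℝ) * δ ≤ ∑ g ∈ A, ‖L (v g)‖ ^ 2 := by
    rw [← hc, ← nsmul_eq_mul, ← Finset.sum_const]
    exact Finset.sum_le_sum fun g hg => hA hg
  have h2 : ∑ g ∈ A, ε g • L (v g) = L (∑ g ∈ A, ε g • v g) := by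
    rw [map_sum]
    exact Finset.sum_congr rfl fun g _ => (map_smul L _ _).symm
  rw [h2] at hs
  have h3 : ‖L (∑ g ∈ A, ε g • v g)‖ ≤ ‖L‖ * ‖∑ g ∈ A, ε g • v g‖ := L.le_opNorm _
  have h4 : (N : ℝ) * δ ≤ (‖L‖ * ‖∑ g ∈ A, ε g • v g‖) ^ 2 :=
    le_trans (le_trans h1 hs) (pow_le_pow_left₀ (norm_nonneg _) h3 2)
  have h5 : ((N : ℝ) * δ) ^ 2 ≤ ‖L‖ ^ 4 * ‖∑ g ∈ A, ε g • v g‖ ^ 4 := by
    calc ((N : ℝ) * δ) ^ 2 ≤ ((‖L‖ * ‖∑ g ∈ A, ε g • v g‖) ^ 2) ^ 2 :=
          pow_le_pow_left₀ (by positivity) h4 2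
      _ = ‖L‖ ^ 4 * ‖∑ g ∈ A, ε g • v g‖ ^ 4 := by ring
  have h6 := hup A ε hε
  rw [hc] at h6
  have h7 : ‖L‖ ^ 4 * ‖∑ g ∈ A, ε g • v g‖ ^ 4 ≤ ‖L‖ ^ 4 * (a * N + b * (N : ℝ) ^ 2) :=
    mul_le_mul_of_nonneg_left h6 (by positivity)
  have h8 : (N : ℝ) * (N * (δ ^ 2 - ‖L‖ ^ 4 * b)) ≤ N * (‖L‖ ^ 4 * a) := by nlinarith
  have h9 := le_of_mul_le_mul_left h8 hN0
  linarith

theorem lp_signs {I : Type} [DecidableEq I] (A : Finset I) (ε : I → ℝ)
    (hε : ∀ i, ε i = 1 ∨ ε i = -1) :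
    ‖∑ g ∈ A, ε g • (lp.single 4 g (1 : ℝ) : lp (fun _ : I => ℝ) 4)‖ ^ 4 = A.card := by
  have h := lp.norm_sum_single (E := fun _ : I => ℝ) (p := 4) (by norm_num) ε A
  have e4 : (4 : ℝ≥0∞).toReal = ((4 : ℕ) : ℝ) := by norm_num
  rw [e4] at h
  simp_rw [Real.rpow_natCast] at h
  have e : ∑ g ∈ A, ε g • (lp.single 4 g (1 : ℝ) : lp (fun _ : I => ℝ) 4) =
      ∑ i ∈ A, lp.single 4 i (ε i) := by
    refine Finset.sum_congr rfl fun g _ => ?_
    rw [← lp.single_smul, smul_eq_mul, mul_one]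
  rw [e, h]
  rw [Finset.sum_congr rfl (g := fun _ => (1 : ℝ))]
  · simp
  · intro i _
    rcases hε i with h | h <;> rw [h] <;> norm_num

theorem no_copy {Γ I : Type} (hI : Cardinal.mk I = Cardinal.aleph 1)
    (T : lp (fun _ : I => ℝ) 4 →L[ℝ] X Γ) {c : ℝ} (hc : 0 < c) (h : ∀ x, c * ‖x‖ ≤ ‖T x‖) :
    False := by
  classical
  have hu : Uncountable I := by
    rw [← not_countable_iff, ← Cardinal.mk_le_aleph0_iff, hI, not_le]
    exact Cardinal.aleph0_lt_aleph_one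
  let L : lp (fun _ : I => ℝ) 4 →L[ℝ] Lp ℝ 2 (mm (Γ × ℕ)) :=
    (Rj ((none : Option Γ) : OO Γ)).comp ((X Γ).subtypeL.comp T)
  have hpos : ∀ i : I, 0 < ‖L (lp.single 4 i (1 : ℝ))‖ ^ 2 := by
    intro i
    have h0 : 0 ≤ ‖L (lp.single 4 i (1 : ℝ))‖ := norm_nonneg _
    rcases h0.lt_or_eq with h1 | h1
    · positivity
    · exfalso
      have h2 : Rj ((none : Option Γ) : OO Γ) (T (lp.single 4 i (1 : ℝ)) : Lp ℝ 4 (mu Γ)) = 0 :=
        norm_eq_zero.1 h1.symm
      have h3 := inj (T (lp.single 4 i (1 : ℝ))).2 h2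
      have h4 : T (lp.single 4 i (1 : ℝ)) = 0 := Subtype.ext h3
      have h5 := h (lp.single 4 i (1 : ℝ))
      rw [h4, norm_zero, lp.norm_single (by norm_num)] at h5
      norm_num at h5
      linarith
  obtain ⟨δ, hδ, hinf⟩ := pigeon (fun i : I => ‖L (lp.single 4 i (1 : ℝ))‖ ^ 2) hpos
  have := up L (fun i : I => (lp.single 4 i (1 : ℝ) : lp (fun _ : I => ℝ) 4)) (a := 1) (b := 0)
    zero_le_one hδ hinf (fun A ε hε => by
      rw [lp_signs A ε hε]
      simp)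
  rw [mul_zero] at this
  nlinarith [sq_pos_of_pos hδ]

theorem E_norm {Γ : Type} (g : Γ) (n : ℕ) : ‖E (g, n)‖ ^ 4 ≤ 4 := by
  have h := normE n {g} (fun _ => 1) (fun _ => Or.inl rfl)
  rw [Finset.sum_singleton, one_smul, Finset.card_singleton] at h
  have h1 : ((1 : ℝ) / 16) ^ n ≤ 1 := pow_le_one₀ (by norm_num) (by norm_num)
  push_cast at h
  linarith

theorem no_embed {Γ : Type} [Uncountable Γ] {Ω : Type} [MeasurableSpace Ω] (ν : Measure Ω)
    [IsFiniteMeasure ν] (T : X Γ →L[ℝ] Lp ℝ 4 ν) {c : ℝ} (hc : 0 < c)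
    (h : ∀ x, c * ‖x‖ ≤ ‖T x‖) : False := by
  classical
  have hid : ν.map id ≤ ν := le_of_eq Measure.map_id
  let e : Γ → ℕ → X Γ := fun g n => ⟨E (g, n), E_mem (g, n)⟩
  have hkp : ∀ g : Γ, ∃ δ : ℝ, 0 < δ ∧ ∀ n, δ ≤ ‖R measurable_id hid (T (e g n))‖ ^ 2 := by
    intro g
    obtain ⟨c', hc', hl⟩ := low g
    obtain ⟨δ, hδ, h1⟩ := kp (fun n => T (e g n)) (C := ‖T‖ ^ 4 * 4) (c := c ^ 4 * c')
      (by positivity) (fun n => by
        have h1 : ‖T (e g n)‖ ≤ ‖T‖ * ‖e g n‖ := T.le_opNorm _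
        have h2 : ‖e g n‖ ^ 4 ≤ 4 := E_norm g n
        calc ‖T (e g n)‖ ^ 4 ≤ (‖T‖ * ‖e g n‖) ^ 4 := pow_le_pow_left₀ (norm_nonneg _) h1 4
          _ = ‖T‖ ^ 4 * ‖e g n‖ ^ 4 := by ring
          _ ≤ ‖T‖ ^ 4 * 4 := mul_le_mul_of_nonneg_left h2 (by positivity))
      (fun A => by
        have h1 : ∑ n ∈ A, T (e g n) = T (∑ n ∈ A, e g n) := (map_sum T _ _).symm
        have h2 := h (∑ n ∈ A, e g n)
        have h3 : ‖∑ n ∈ A, e g n‖ = ‖∑ n ∈ A, E (g, n)‖ := by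
          show ‖((∑ n ∈ A, e g n : X Γ) : Lp ℝ 4 (mu Γ))‖ = _
          rw [Submodule.coe_sum]
        rw [h1]
        calc c ^ 4 * c' * (A.card : ℝ) ^ 2 = c ^ 4 * (c' * (A.card : ℝ) ^ 2) := by ring
          _ ≤ c ^ 4 * ‖∑ n ∈ A, E (g, n)‖ ^ 4 := mul_le_mul_of_nonneg_left (hl A) (by positivity)
          _ = (c * ‖∑ n ∈ A, e g n‖) ^ 4 := by rw [h3]; ring
          _ ≤ ‖T (∑ n ∈ A, e g n)‖ ^ 4 := pow_le_pow_left₀ (by positivity) h2 4)
    refine ⟨δ, hδ, fun n => ?_⟩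
    rw [R_norm]
    exact h1 n
  choose d hd0 hd using hkp
  obtain ⟨δ, hδ, hinf⟩ := pigeon d hd0
  let L : X Γ →L[ℝ] Lp ℝ 2 ν := (R measurable_id hid).comp T
  have key : ∀ n : ℕ, δ ^ 2 ≤ ‖L‖ ^ 4 * (3 * (1 / 16) ^ n) := by
    intro n
    refine up L (fun g => e g n) (a := 1) zero_le_one hδ
      (hinf.mono fun g hg => le_trans hg (hd g n)) (fun A ε hε => ?_)
    have h1 := normE n A ε hε
    have h2 : ‖∑ g ∈ A, ε g • e g n‖ = ‖∑ g ∈ A, ε g • E (g, n)‖ := by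
      show ‖((∑ g ∈ A, ε g • e g n : X Γ) : Lp ℝ 4 (mu Γ))‖ = _
      rw [Submodule.coe_sum]
      rfl
    rw [h2, one_mul]
    exact h1
  have hlim : Filter.Tendsto (fun n : ℕ => ‖L‖ ^ 4 * (3 * ((1 : ℝ) / 16) ^ n)) Filter.atTop
      (nhds (‖L‖ ^ 4 * (3 * 0))) :=
    ((tendsto_pow_atTop_nhds_zero_of_lt_one (by norm_num) (by norm_num)).const_mul _).const_mul _
  have h0 : δ ^ 2 ≤ ‖L‖ ^ 4 * (3 * 0) := ge_of_tendsto' hlim key
  rw [mul_zero, mul_zero] at h0
  nlinarith [sq_pos_of_pos hδ]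

end Pool.Agent.S04004.LP

namespace Pool.Agent.S04004.LP

theorem main : ¬ (∀ (p : ℝ≥0∞) [Fact (1 ≤ p)], 2 < p → p ≠ ∞ →
  ∀ (Ω : Type) [MeasurableSpace Ω] (μ : Measure Ω) (X : Submodule ℝ (Lp ℝ p μ)),
    IsClosed (X : Set (Lp ℝ p μ)) →
    (¬ ∃ (I : Type), Cardinal.mk I = Cardinal.aleph 1 ∧
        ∃ (T : lp (fun _ : I => ℝ) p →L[ℝ] X), ∃ c : ℝ, 0 < c ∧ ∀ x, c * ‖x‖ ≤ ‖T x‖) →
    ∃ (Ω' : Type) (_ : MeasurableSpace Ω') (ν : Measure Ω'), IsFiniteMeasure ν ∧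
      ∃ (T : X →L[ℝ] Lp ℝ p ν), ∃ c : ℝ, 0 < c ∧ ∀ x, c * ‖x‖ ≤ ‖T x‖) := by
  intro h
  obtain ⟨Ω', _, ν, hν, T, c, hc, hT⟩ := h 4 (by norm_num) (by norm_num) (OO ℝ × GG (ℝ × ℕ)) (mu ℝ)
    (X ℝ) X_closed (by
      rintro ⟨I, hI, T, c, hc, hT⟩
      exact no_copy hI T hc hT)
  exact no_embed ν T hc hT

end Pool.Agent.S04004.LP

namespace Pool.Agent.S04004

/-- The negation of the preceding statement: For 2<p<∞, every closed subspace of a real L^p space (any measure) that has no isomorphic copy of ℓ^p of an index set of size aleph-one embeds isomorphically into L^p of some finite measure. -/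
theorem result :
    ¬ (∀ (p : ℝ≥0∞) [Fact (1 ≤ p)], 2 < p → p ≠ ∞ →
  ∀ (Ω : Type) [MeasurableSpace Ω] (μ : Measure Ω) (X : Submodule ℝ (Lp ℝ p μ)),
    IsClosed (X : Set (Lp ℝ p μ)) →
    (¬ ∃ (I : Type), Cardinal.mk I = Cardinal.aleph 1 ∧
        ∃ (T : lp (fun _ : I => ℝ) p →L[ℝ] X), ∃ c : ℝ, 0 < c ∧ ∀ x, c * ‖x‖ ≤ ‖T x‖) →
    ∃ (Ω' : Type) (_ : MeasurableSpace Ω') (ν : Measure Ω'), IsFiniteMeasure ν ∧
      ∃ (T : X →L[ℝ] Lp ℝ p ν), ∃ c : ℝ, 0 < c ∧ ∀ x, c * ‖x‖ ≤ ‖T x‖) := by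
  exact Pool.Agent.S04004.LP.main

end Pool.Agent.S04004
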