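import Pool.Statements.S04006

set_option autoImplicit false
open scoped ENNReal
open Pool Pool.MP_c5b4b2_an

namespace Pool.Agent.S04006

section

variable (p : ℝ≥0∞) [Fact (1 ≤ p)]

/-- complex two-dimensional `l_p` -/
abbrev L2 : Type := PiLp p (fun _ : Fin 2 => ℂ)

variable {p}

lemma sqrt_cube (t : ℝ) (ht : 0 ≤ t) : t ^ (3 / 2 : ℝ) = (√t) ^ 3 := by
  rw [Real.sqrt_eq_rpow, ← Real.rpow_natCast, ← Real.rpow_mul ht]
  norm_num

/-- For `p = 3/2`, the norm to the power `3/2` is the sum of the cubes of the square roots. -/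
lemma norm_rpow (hp : p.toReal = 3 / 2) (x : L2 p) :
    ‖x‖ ^ (3 / 2 : ℝ) = (√‖x 0‖) ^ 3 + (√‖x 1‖) ^ 3 := by
  rw [PiLp.norm_eq_sum (by rw [hp]; norm_num), Fin.sum_univ_two, hp,
    ← Real.rpow_mul (by positivity), sqrt_cube _ (norm_nonneg _), sqrt_cube _ (norm_nonneg _)]
  norm_num

lemma norm_le_of_cubes (hp : p.toReal = 3 / 2) (x : L2 p) (h : ‖x‖ = 1) :
    (√‖x 0‖) ^ 3 + (√‖x 1‖) ^ 3 = 1 := by
  rw [← norm_rpow hp x, h, Real.one_rpow]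

/-- the coefficients of a functional -/
lemma func_apply (f : L2 p →L[ℂ] ℂ) (x : L2 p) :
    f x = x 0 * f (WithLp.toLp p (Pi.single 0 1)) + x 1 * f (WithLp.toLp p (Pi.single 1 1)) := by
  have hx : x = x 0 • (WithLp.toLp p (Pi.single 0 1) : L2 p) +
      x 1 • (WithLp.toLp p (Pi.single 1 1) : L2 p) := by
    ext i; fin_cases i <;> simp
  conv_lhs => rw [hx]
  simp only [map_add, map_smul, smul_eq_mul]

lemma cubes_le (hp : p.toReal = 3 / 2) (f : L2 p →L[ℂ] ℂ) (hf : ‖f‖ = 1) :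
    ‖f (WithLp.toLp p (Pi.single 0 1))‖ ^ 3 + ‖f (WithLp.toLp p (Pi.single 1 1))‖ ^ 3 ≤ 1 := by
  set a := f (WithLp.toLp p (Pi.single 0 1)) with ha
  set b := f (WithLp.toLp p (Pi.single 1 1)) with hb
  set S : ℝ := ‖a‖ ^ 3 + ‖b‖ ^ 3 with hS
  by_contra hcon
  push Not at hcon
  let y : L2 p := WithLp.toLp p ![(starRingEnd ℂ a) * ‖a‖, (starRingEnd ℂ b) * ‖b‖]
  have hy0 : y 0 = (starRingEnd ℂ a) * ‖a‖ := rfl
  have hy1 : y 1 = (starRingEnd ℂ b) * ‖b‖ := rfl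
  have hny : ‖y‖ ^ (3 / 2 : ℝ) = S := by
    rw [norm_rpow hp, hy0, hy1, norm_mul, norm_mul, Complex.norm_conj, Complex.norm_conj,
      Complex.norm_real, Complex.norm_real, norm_norm, norm_norm,
      Real.sqrt_mul_self (norm_nonneg _), Real.sqrt_mul_self (norm_nonneg _)]
  have hfy : f y = (S : ℂ) := by
    rw [func_apply, ← ha, ← hb, hy0, hy1, hS]
    have e : ∀ z : ℂ, (starRingEnd ℂ z) * ‖z‖ * z = ((‖z‖ ^ 3 : ℝ) : ℂ) := by
      intro z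
      have : (starRingEnd ℂ z) * z = ((‖z‖ ^ 2 : ℝ) : ℂ) := by
        rw [mul_comm, Complex.mul_conj, Complex.normSq_eq_norm_sq]
      calc (starRingEnd ℂ z) * ‖z‖ * z = ((starRingEnd ℂ z) * z) * ‖z‖ := by ring
        _ = _ := by rw [this]; push_cast; ring
    rw [e, e]
    push_cast
    ring
  have h1 : S ≤ ‖y‖ := by
    have := f.le_opNorm y
    rw [hf, one_mul, hfy, Complex.norm_real, Real.norm_of_nonneg (by positivity)] at this
    exact this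
  have h2 : S ^ (3 / 2 : ℝ) ≤ S := by
    calc S ^ (3 / 2 : ℝ) ≤ ‖y‖ ^ (3 / 2 : ℝ) :=
          Real.rpow_le_rpow (by positivity) h1 (by norm_num)
      _ = S := hny
  have h3 : S ^ (1 : ℝ) < S ^ (3 / 2 : ℝ) :=
    Real.rpow_lt_rpow_of_exponent_lt hcon (by norm_num)
  rw [Real.rpow_one] at h3
  linarith

/-- the two cubic inequalities behind the bound on the numerical radius -/
lemma cubic1 (r s : ℝ) (hr : 0 ≤ r) (hs : 0 ≤ s) :
    0.045 * s ^ 3 - 0.0225 * r ^ 3 + s * r ^ 2 ≤ 0.5302 * (r ^ 3 + s ^ 3) := by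
  nlinarith [mul_nonneg hr (sq_nonneg (r - 1.206 * s)), mul_nonneg hs (sq_nonneg (r - 1.206 * s)),
    pow_nonneg hr 3, pow_nonneg hs 3, mul_nonneg hr (sq_nonneg s), mul_nonneg hs (sq_nonneg r)]

lemma cubic2 (r s : ℝ) (hr : 0 ≤ r) (hs : 0 ≤ s) :
    0.0225 * r ^ 3 - 0.045 * s ^ 3 + s * r ^ 2 ≤ 0.5302 * (r ^ 3 + s ^ 3) := by
  nlinarith [mul_nonneg hr (sq_nonneg (r - 1.313 * s)), mul_nonneg hs (sq_nonneg (r - 1.313 * s)),
    pow_nonneg hr 3, pow_nonneg hs 3, mul_nonneg hr (sq_nonneg s), mul_nonneg hs (sq_nonneg r)]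

/-- The perturbed shift `(x, y) ↦ (-0.0225 x, x + 0.045 y)`. -/
noncomputable def T0 : L2 p →ₗ[ℂ] L2 p where
  toFun x := WithLp.toLp p ![-0.0225 * x 0, x 0 + 0.045 * x 1]
  map_add' a b := by
    ext i; fin_cases i <;> simp <;> ring
  map_smul' c a := by
    ext i; fin_cases i <;> simp <;> ring

noncomputable def T : L2 p →L[ℂ] L2 p := LinearMap.toContinuousLinearMap T0

lemma T_zero (x : L2 p) : (T x) 0 = -0.0225 * x 0 := rfl

lemma T_one (x : L2 p) : (T x) 1 = x 0 + 0.045 * x 1 := rfl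

lemma norm_T (hp : p.toReal = 3 / 2) : 1.003375 ≤ ‖(T : L2 p →L[ℂ] L2 p)‖ ^ (3 / 2 : ℝ) := by
  let e : L2 p := WithLp.toLp p (Pi.single 0 1)
  have he : ‖e‖ = 1 := by simp [e]
  have h1 : ‖(T e : L2 p)‖ ≤ ‖(T : L2 p →L[ℂ] L2 p)‖ := by
    have := (T : L2 p →L[ℂ] L2 p).le_opNorm e
    rwa [he, mul_one] at this
  have h2 : ‖(T e : L2 p)‖ ^ (3 / 2 : ℝ) = 1.003375 := by
    rw [norm_rpow hp, T_zero, T_one]
    have e0 : e 0 = 1 := by simp [e]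
    have e1 : e 1 = 0 := by simp [e]
    rw [e0, e1]
    have h3 : ‖(-0.0225 * 1 : ℂ)‖ = 0.15 ^ 2 := by
      rw [show (-0.0225 * 1 : ℂ) = ((-(0.0225) : ℝ) : ℂ) by push_cast; ring, Complex.norm_real,
        Real.norm_eq_abs, abs_neg, abs_of_nonneg (by norm_num)]
      norm_num
    have h4 : ‖(1 + 0.045 * 0 : ℂ)‖ = 1 := by simp
    rw [h3, h4, Real.sqrt_sq (by norm_num), Real.sqrt_one]
    norm_num
  calc (1.003375 : ℝ) = ‖(T e : L2 p)‖ ^ (3 / 2 : ℝ) := h2.symm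
    _ ≤ _ := Real.rpow_le_rpow (norm_nonneg _) h1 (by norm_num)

lemma radius_T (hp : p.toReal = 3 / 2) (x : L2 p) (f : L2 p →L[ℂ] ℂ) (hx : ‖x‖ = 1)
    (hf : ‖f‖ = 1) (hfx : f x = 1) : ‖f (T x)‖ ≤ 0.5302 := by
  have hx3 := norm_le_of_cubes hp x hx
  have hf3 := cubes_le hp f hf
  rw [func_apply] at hfx
  rw [func_apply, T_zero, T_one]
  set a := f (WithLp.toLp p (Pi.single 0 1)) with ha
  set b := f (WithLp.toLp p (Pi.single 1 1)) with hb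
  set r := √‖x 0‖ with hr
  set s := √‖x 1‖ with hs
  have hr0 : 0 ≤ r := Real.sqrt_nonneg _
  have hs0 : 0 ≤ s := Real.sqrt_nonneg _
  have hr2 : ‖x 0‖ = r ^ 2 := (Real.sq_sqrt (norm_nonneg _)).symm
  have hs2 : ‖x 1‖ = s ^ 2 := (Real.sq_sqrt (norm_nonneg _)).symm
  have hA0 := norm_nonneg a
  have hB0 := norm_nonneg b
  -- equality in Young's inequality
  have h1 : 1 ≤ r ^ 2 * ‖a‖ + s ^ 2 * ‖b‖ := by
    have : ‖x 0 * a + x 1 * b‖ = 1 := by rw [hfx]; simp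
    rw [← this, ← hr2, ← hs2, ← norm_mul, ← norm_mul]
    exact norm_add_le _ _
  have ka : 0 ≤ (‖a‖ - r) ^ 2 * (‖a‖ + 2 * r) := by positivity
  have kb : 0 ≤ (‖b‖ - s) ^ 2 * (‖b‖ + 2 * s) := by positivity
  have ksum : (‖a‖ - r) ^ 2 * (‖a‖ + 2 * r) + (‖b‖ - s) ^ 2 * (‖b‖ + 2 * s) ≤ 0 := by
    nlinarith
  have ka0 : (‖a‖ - r) ^ 2 * (‖a‖ + 2 * r) = 0 := by linarith
  have kb0 : (‖b‖ - s) ^ 2 * (‖b‖ + 2 * s) = 0 := by linarith
  have hAr : ‖a‖ = r := by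
    rcases mul_eq_zero.1 ka0 with h | h
    · have := pow_eq_zero_iff (two_ne_zero) |>.1 h
      linarith
    · linarith
  have hBs : ‖b‖ = s := by
    rcases mul_eq_zero.1 kb0 with h | h
    · have := pow_eq_zero_iff (two_ne_zero) |>.1 h
      linarith
    · linarith
  -- the two products are the nonnegative reals `r^3` and `s^3`
  have hprod0 : ‖x 0 * a‖ = r ^ 3 := by rw [norm_mul, hr2, hAr]; ring
  have hprod1 : ‖x 1 * b‖ = s ^ 3 := by rw [norm_mul, hs2, hBs]; ring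
  have hre : (x 0 * a).re + (x 1 * b).re = 1 := by
    rw [← Complex.add_re, hfx]; simp
  have hre0 : (x 0 * a).re ≤ r ^ 3 := hprod0 ▸ Complex.re_le_norm _
  have hre1 : (x 1 * b).re ≤ s ^ 3 := hprod1 ▸ Complex.re_le_norm _
  have hre0' : (x 0 * a).re = r ^ 3 := by linarith
  have hre1' : (x 1 * b).re = s ^ 3 := by linarith
  have im0 : (x 0 * a).im = 0 := by
    have h := Complex.sq_norm (x 0 * a)
    rw [Complex.normSq_apply, hprod0, hre0'] at h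
    nlinarith
  have im1 : (x 1 * b).im = 0 := by
    have h := Complex.sq_norm (x 1 * b)
    rw [Complex.normSq_apply, hprod1, hre1'] at h
    nlinarith
  have hz0 : x 0 * a = ((r ^ 3 : ℝ) : ℂ) := 
    Complex.ext (by rw [hre0', Complex.ofReal_re]) (by rw [im0, Complex.ofReal_im])
  have hz1 : x 1 * b = ((s ^ 3 : ℝ) : ℂ) := 
    Complex.ext (by rw [hre1', Complex.ofReal_re]) (by rw [im1, Complex.ofReal_im])
  have e1 : -0.0225 * x 0 * a + (x 0 + 0.045 * x 1) * b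
      = ((0.045 * s ^ 3 - 0.0225 * r ^ 3 : ℝ) : ℂ) + x 0 * b := by
    have : -0.0225 * x 0 * a + (x 0 + 0.045 * x 1) * b
      = 0.045 * (x 1 * b) - 0.0225 * (x 0 * a) + x 0 * b := by ring
    rw [this, hz0, hz1]
    push_cast
    ring
  rw [e1]
  have hxb : ‖x 0 * b‖ = s * r ^ 2 := by rw [norm_mul, hr2, hBs]; ring
  have c1 := cubic1 r s hr0 hs0
  have c2 := cubic2 r s hr0 hs0
  rw [hx3] at c1 c2
  calc _ ≤ ‖((0.045 * s ^ 3 - 0.0225 * r ^ 3 : ℝ) : ℂ)‖ + ‖x 0 * b‖ := norm_add_le _ _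
    _ = |0.045 * s ^ 3 - 0.0225 * r ^ 3| + s * r ^ 2 := by
        rw [Complex.norm_real, Real.norm_eq_abs, hxb]
    _ ≤ 0.5302 := by
        rcases abs_cases (0.045 * s ^ 3 - 0.0225 * r ^ 3) with ⟨h, -⟩ | ⟨h, -⟩ <;> rw [h] <;>
          linarith

lemma value_gt : 0.5302 < 1.003375 ^ (2 / 3 : ℝ) *
    (1 / ((3 / 2 : ℝ) ^ (1 / (3 / 2) : ℝ) *
            ((3 / 2) / ((3 / 2) - 1)) ^ (((3 / 2) - 1) / (3 / 2) : ℝ))) := by
  have e1 : ((3 / 2 : ℝ) / ((3 / 2) - 1)) = 3 := by norm_num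
  have e2 : (1 / (3 / 2) : ℝ) = 2 / 3 := by norm_num
  have e3 : (((3 / 2 : ℝ) - 1) / (3 / 2) : ℝ) = 1 / 3 := by norm_num
  rw [e1, e2, e3]
  have hA : 0 < (3 / 2 : ℝ) ^ (2 / 3 : ℝ) := by positivity
  have hB : 0 < (3 : ℝ) ^ (1 / 3 : ℝ) := by positivity
  have hC : 0 < (1.003375 : ℝ) ^ (2 / 3 : ℝ) := by positivity
  have hA3 : ((3 / 2 : ℝ) ^ (2 / 3 : ℝ)) ^ 3 = 9 / 4 := by
    rw [← Real.rpow_natCast, ← Real.rpow_mul (by norm_num)]
    norm_num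
  have hB3 : ((3 : ℝ) ^ (1 / 3 : ℝ)) ^ 3 = 3 := by
    rw [← Real.rpow_natCast, ← Real.rpow_mul (by norm_num)]
    norm_num
  have hC3 : ((1.003375 : ℝ) ^ (2 / 3 : ℝ)) ^ 3 = 1.003375 ^ 2 := by
    rw [← Real.rpow_natCast, ← Real.rpow_mul (by norm_num)]
    norm_num
  rw [mul_one_div, lt_div_iff₀ (by positivity)]
  apply lt_of_pow_lt_pow_left₀ 3 hC.le
  rw [hC3, mul_pow, mul_pow, hA3, hB3]
  norm_num

end

/-- The negation of the preceding statement: For every 1<p<∞, the numerical index of complex 2-dimensional l_p (inf over norm-one operators T of the sup of ∣f(Tx)∣ with ‖x‖=‖f‖=f(x)=1) equals 1/(p^(1/p) q^(1/q)), where q=p/(p-1). -/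
theorem result :
    ¬ (∀ (p : ℝ≥0∞) [Fact (1 ≤ p)], 1 < p → p ≠ ⊤ →
      sInf {c : ℝ | ∃ T : PiLp p (fun _ : Fin 2 => ℂ) →L[ℂ] PiLp p (fun _ : Fin 2 => ℂ),
          ‖T‖ = 1 ∧
          c = sSup {s : ℝ | ∃ (x : PiLp p (fun _ : Fin 2 => ℂ))
                (f : PiLp p (fun _ : Fin 2 => ℂ) →L[ℂ] ℂ),
                ‖x‖ = 1 ∧ ‖f‖ = 1 ∧ f x = 1 ∧ s = ‖f (T x)‖}}
        = 1 / (p.toReal ^ (1 / p.toReal) *
            (p.toReal / (p.toReal - 1)) ^ ((p.toReal - 1) / p.toReal))) := by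
  intro h
  have hlt : (1 : ℝ≥0∞) < ENNReal.ofReal (3 / 2) := by
    rw [ENNReal.one_lt_ofReal]; norm_num
  have : Fact (1 ≤ ENNReal.ofReal (3 / 2)) := ⟨hlt.le⟩
  have h := h (ENNReal.ofReal (3 / 2)) hlt ENNReal.ofReal_ne_top
  have hp : (ENNReal.ofReal (3 / 2)).toReal = 3 / 2 := ENNReal.toReal_ofReal (by norm_num)
  generalize ENNReal.ofReal (3 / 2) = p at *
  rw [hp] at h
  have hT := norm_T (p := p) hp
  set N := ‖(T : L2 p →L[ℂ] L2 p)‖ with hN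
  have hN0 : 0 ≤ N := norm_nonneg _
  have hNpos : 0 < N := by
    rcases hN0.lt_or_eq with h' | h'
    · exact h'
    · rw [← h', Real.zero_rpow (by norm_num)] at hT
      norm_num at hT
  have hN2 : (1.003375 : ℝ) ^ (2 / 3 : ℝ) ≤ N := by
    calc (1.003375 : ℝ) ^ (2 / 3 : ℝ) ≤ (N ^ (3 / 2 : ℝ)) ^ (2 / 3 : ℝ) :=
          Real.rpow_le_rpow (by norm_num) hT (by norm_num)
      _ = N := by
          rw [← Real.rpow_mul hN0]; norm_num
  let T' : L2 p →L[ℂ] L2 p := ((N⁻¹ : ℝ) : ℂ) • T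
  have hT' : ‖T'‖ = 1 := by
    simp only [T']
    rw [norm_smul, Complex.norm_real, Real.norm_of_nonneg (inv_nonneg.2 hN0), ← hN,
      inv_mul_cancel₀ hNpos.ne']
  have hmem : sSup {s : ℝ | ∃ (x : L2 p) (f : L2 p →L[ℂ] ℂ),
      ‖x‖ = 1 ∧ ‖f‖ = 1 ∧ f x = 1 ∧ s = ‖f (T' x)‖} ≤ 0.5302 / N := by
    apply Real.sSup_le _ (by positivity)
    rintro s ⟨x, f, hx, hf, hfx, rfl⟩
    have h1 : f (T' x) = ((N⁻¹ : ℝ) : ℂ) * f (T x) := by
      simp only [T', smul_apply, map_smul, smul_eq_mul]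
    rw [h1, norm_mul, Complex.norm_real, Real.norm_of_nonneg (inv_nonneg.2 hN0), inv_mul_eq_div]
    have := radius_T hp x f hx hf hfx
    gcongr
  have hinf : sInf {c : ℝ | ∃ T : L2 p →L[ℂ] L2 p, ‖T‖ = 1 ∧
      c = sSup {s : ℝ | ∃ (x : L2 p) (f : L2 p →L[ℂ] ℂ),
        ‖x‖ = 1 ∧ ‖f‖ = 1 ∧ f x = 1 ∧ s = ‖f (T x)‖}} ≤ 0.5302 / N := by
    refine le_trans (csInf_le ⟨0, ?_⟩ ⟨T', hT', rfl⟩) hmem
    rintro c ⟨S, -, rfl⟩
    apply Real.sSup_nonneg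
    rintro s ⟨x, f, -, -, -, rfl⟩
    exact norm_nonneg _
  have hinf' : (1 / ((3 / 2 : ℝ) ^ (1 / (3 / 2) : ℝ) *
            ((3 / 2) / ((3 / 2) - 1)) ^ (((3 / 2) - 1) / (3 / 2) : ℝ))) ≤ 0.5302 / N := by
    rw [← h]; exact hinf
  have hv := value_gt
  set V := (1 / ((3 / 2 : ℝ) ^ (1 / (3 / 2) : ℝ) *
            ((3 / 2) / ((3 / 2) - 1)) ^ (((3 / 2) - 1) / (3 / 2) : ℝ))) with hV
  have hVpos : 0 ≤ V := by rw [hV]; positivity
  rw [le_div_iff₀ hNpos] at hinf'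
  have : (1.003375 : ℝ) ^ (2 / 3 : ℝ) * V ≤ N * V := by gcongr
  linarith

end Pool.Agent.S04006
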