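import Pool.Agent.helper443_GenoA

set_option autoImplicit false

namespace Pool.Agent.S04011

section main
variable {k : ℕ} {β : ℝ} {t : ℕ → ℝ}

/-- the critical gain -/
noncomputable def pc (k : ℕ) : ℝ := 2 * Real.sin (Real.pi / (2 * (2 * (k:ℝ) + 1)))

/-- the multiplier weight -/
noncomputable def lamk (k : ℕ) : ℝ :=
  1 / ((2 * (k:ℝ) + 1) * Real.sin (Real.pi / (2 * (2 * (k:ℝ) + 1))))

lemma pc_pos (hk : 2 ≤ k) : 0 < pc k := by
  have hk' : (2:ℝ) ≤ k := by exact_mod_cast hk
  have := (facts (show 5 ≤ 2 * (k:ℝ) + 1 by linarith)).2.2.1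
  unfold pc; linarith

lemma lamk_bd (hk : 2 ≤ k) : 0 < lamk k ∧ lamk k ≤ 2 / 3 := by
  have hk' : (2:ℝ) ≤ k := by exact_mod_cast hk
  have h := (facts (show 5 ≤ 2 * (k:ℝ) + 1 by linarith)).2.2.2.2.1
  unfold lamk
  refine ⟨by apply div_pos one_pos; linarith, ?_⟩
  rw [div_le_iff₀ (by linarith)]
  linarith

lemma QFk (hk : 2 ≤ k) (a : ℕ → ℝ) (M : ℕ) :
    0 ≤ (1 - pc k / 2) * rr a 0 M + lamk k / 2 * (rr a (k + 1) M + rr a k M)
      - 2 * (pc k / 2) * ∑ j ∈ Finset.range k, rr a (j + 1) M := by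
  have e : pc k / 2 = Real.sin (Real.pi / (2 * (2 * (k:ℝ) + 1))) := by unfold pc; ring
  rw [e]
  apply QF_of_symbol
  intro s hs hs'
  exact psi_nonneg hk hs hs'

lemma energy (hk : 2 ≤ k) (hβ : 0 < β) (hβp : β ≤ 2 * pc k) (ht : ∀ n, |t n| < 1)
    (hz : ∀ n, Lg (t (n + k + 1)) = Lg (t (n + k)) - β * t n) (m : ℕ) :
    (1 - lamk k) * ∑ n ∈ Finset.range (m + k + 1), β * t n * (Lg (t n) - β * t n / pc k) ≤
      (Lg (t k) ^ 2 - Lg (t (m + k + 1 + k)) ^ 2) / 2
      + (∑ n ∈ Finset.range (m + k + 1), β * t n * (Lg (t n) - Lg (t (n - k + k))))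
      + lamk k / 2 * (Lg (t k) ^ 2 - Lg (t (m + k)) * Lg (t (m + k + 1)))
      + lamk k * ∑ i ∈ Finset.range (k + 1), Pt β (pc k) (t (m + i)) := by
  have hp := pc_pos hk
  refine star (z := fun n => Lg (t n)) (w := fun n => β * t n)
    (v := fun n => Lg (t n) - β * t n / pc k) (P := fun n => Pt β (pc k) (t n))
    hp (lamk_bd hk).1.le hz (fun n => rfl) ?_ ?_ ?_ (QFk hk _) m
  · intro n
    have h1 := Lg_lower (ht n)
    have h2 : β / pc k ≤ 2 := by rw [div_le_iff₀ hp]; exact hβp
    have e : β * t n * (Lg (t n) - β * t n / pc k) =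
        β * (t n * Lg (t n) - (β / pc k) * t n ^ 2) := by ring
    rw [e]
    apply mul_nonneg hβ.le
    nlinarith [sq_nonneg (t n), sq_nonneg (t n ^ 2)]
  · intro n
    exact Pt_nonneg hβ hp hβp (ht n)
  · intro a b
    exact pin2 hβ hp hβp (ht a) (ht b)

lemma wv_lower (hk : 2 ≤ k) (hβ : 0 < β) (hβp : β ≤ 2 * pc k) {s : ℝ} (hs : |s| < 1) :
    β * (2 / 3) * s ^ 4 ≤ β * s * (Lg s - β * s / pc k) := by
  have hp := pc_pos hk
  have h1 := Lg_lower hs
  have h2 : β / pc k ≤ 2 := by rw [div_le_iff₀ hp]; exact hβp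
  have e : β * s * (Lg s - β * s / pc k) = β * (s * Lg s - (β / pc k) * s ^ 2) := by ring
  rw [e]
  have h3 : 2 / 3 * s ^ 4 ≤ s * Lg s - (β / pc k) * s ^ 2 := by
    nlinarith [sq_nonneg s]
  have := mul_le_mul_of_nonneg_left h3 hβ.le
  linarith

lemma step_bd (hβ : 0 < β) (ht : ∀ n, |t n| < 1)
    (hz : ∀ n, Lg (t (n + k + 1)) = Lg (t (n + k)) - β * t n) (d n : ℕ) :
    |Lg (t (n + k + d)) - Lg (t (n + k))| ≤ d * β := by
  induction d with
  | zero => simp
  | succ d ih =>
    have h1 := hz (n + d)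
    have e1 : n + d + k + 1 = n + k + (d + 1) := by omega
    have e2 : n + d + k = n + k + d := by omega
    rw [e1, e2] at h1
    rw [h1]
    have h2 : |β * t (n + d)| ≤ β := by
      rw [abs_mul, abs_of_pos hβ]
      have := (ht (n + d)).le
      nlinarith [abs_nonneg (t (n + d))]
    have e3 : Lg (t (n + k + d)) - β * t (n + d) - Lg (t (n + k)) =
        (Lg (t (n + k + d)) - Lg (t (n + k))) - β * t (n + d) := by ring
    rw [e3]
    have h3 := abs_sub (Lg (t (n + k + d)) - Lg (t (n + k))) (β * t (n + d))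
    push_cast
    linarith

lemma E_eq (m : ℕ) :
    (∑ n ∈ Finset.range (m + k + 1), β * t n * (Lg (t n) - Lg (t (n - k + k))))
      = ∑ n ∈ Finset.range k, β * t n * (Lg (t n) - Lg (t k)) := by
  have e : m + k + 1 = k + (m + 1) := by omega
  rw [e, Finset.sum_range_add]
  have h2 : ∑ x ∈ Finset.range (m + 1), β * t (k + x) * (Lg (t (k + x)) - Lg (t (k + x - k + k))) = 0 := by
    apply Finset.sum_eq_zero
    intro x _
    have : k + x - k + k = k + x := by omega
    rw [this]; ring
  rw [h2, add_zero]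
  apply Finset.sum_congr rfl
  intro n hn
  have := Finset.mem_range.1 hn
  have e2 : n - k + k = k := by omega
  rw [e2]

lemma attract (hk : 2 ≤ k) (hβ : 0 < β) (hβp : β ≤ 2 * pc k) (ht : ∀ n, |t n| < 1)
    (hz : ∀ n, Lg (t (n + k + 1)) = Lg (t (n + k)) - β * t n) :
    Filter.Tendsto t Filter.atTop (nhds 0) := by
  obtain ⟨l0, l1⟩ := lamk_bd hk
  have hp := pc_pos hk
  set E := ∑ n ∈ Finset.range k, β * t n * (Lg (t n) - Lg (t k)) with hE
  set S : ℕ → ℝ := fun M => ∑ n ∈ Finset.range M, β * t n * (Lg (t n) - β * t n / pc k) with hS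
  have hnn : ∀ n, 0 ≤ β * t n * (Lg (t n) - β * t n / pc k) := by
    intro n
    have := wv_lower hk hβ hβp (ht n)
    have h4 : 0 ≤ β * (2 / 3) * t n ^ 4 := by positivity
    linarith
  set B := (2 * (k:ℝ) + 1) * β with hB
  have hB0 : 0 ≤ B := by positivity
  set D := ((k:ℝ) + 1) * β with hD
  have hD0 : 0 ≤ D := by positivity
  -- the bound
  have hbd : ∀ m, k ≤ m → (1 - lamk k) * S (m + k + 1) ≤
      Lg (t k) ^ 2 + E + (B ^ 2 / 2 + D * B + (B + D) ^ 2 / 2) := by
    intro m hm
    have h := energy hk hβ hβp ht hz m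
    rw [E_eq, ← hE] at h
    have hclose : ∀ i, i ≤ 2 * k + 1 → |Lg (t (m + i)) - Lg (t (m + k + 1 + k))| ≤ B := by
      intro i hi
      obtain ⟨m', rfl⟩ := Nat.exists_eq_add_of_le' hm
      have h1 := step_bd hβ ht hz (2 * k + 1 - i) (m' + i)
      have e1 : m' + i + k + (2 * k + 1 - i) = m' + k + k + 1 + k := by omega
      have e2 : m' + i + k = m' + k + i := by omega
      rw [e1, e2] at h1
      rw [abs_sub_comm]
      refine h1.trans ?_
      rw [hB]
      apply mul_le_mul_of_nonneg_right _ hβ.le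
      have : ((2 * k + 1 - i : ℕ) : ℝ) ≤ ((2 * k + 1 : ℕ) : ℝ) := by
        exact_mod_cast Nat.sub_le _ _
      push_cast at this
      exact this
    set Z := Lg (t (m + k + 1 + k)) with hZ
    have c1 := hclose k (by omega)
    have c2 := hclose (k + 1) (by omega)
    have e3 : m + (k + 1) = m + k + 1 := by omega
    rw [e3] at c2
    have hprod : -(2 * B * |Z| + B ^ 2) ≤ Lg (t (m + k)) * Lg (t (m + k + 1)) := by
      set u := Lg (t (m + k)) - Z with hu
      set v := Lg (t (m + k + 1)) - Z with hv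
      have e4 : Lg (t (m + k)) * Lg (t (m + k + 1)) = Z ^ 2 + Z * (u + v) + u * v := by
        rw [hu, hv]; ring
      rw [e4]
      have h1 : |Z * (u + v)| ≤ |Z| * (2 * B) := by
        rw [abs_mul]
        apply mul_le_mul_of_nonneg_left _ (abs_nonneg _)
        have := abs_add_le u v
        linarith
      have h2 : |u * v| ≤ B * B := by
        rw [abs_mul]
        exact mul_le_mul c1 c2 (abs_nonneg _) hB0
      have h3 := (abs_le.1 h1).1
      have h4 := (abs_le.1 h2).1
      nlinarith [sq_nonneg Z]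
    have hPs : ∑ i ∈ Finset.range (k + 1), Pt β (pc k) (t (m + i)) ≤ D * (|Z| + B) := by
      have h1 : ∀ i ∈ Finset.range (k + 1), Pt β (pc k) (t (m + i)) ≤ β * (|Z| + B) := by
        intro i hi
        have hi' := Finset.mem_range.1 hi
        have h2 := Pt_le hβ hp (ht (m + i))
        have h3 := hclose i (by omega)
        have h4 : |Lg (t (m + i))| ≤ |Z| + B := by
          have e5 : Lg (t (m + i)) = Z + (Lg (t (m + i)) - Z) := by ring
          have := abs_add_le Z (Lg (t (m + i)) - Z)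
          rw [← e5] at this
          linarith
        exact h2.trans (mul_le_mul_of_nonneg_left h4 hβ.le)
      have h5 := Finset.sum_le_sum h1
      rw [Finset.sum_const, Finset.card_range, nsmul_eq_mul] at h5
      push_cast at h5
      calc _ ≤ _ := h5
        _ = D * (|Z| + B) := by rw [hD]; ring
    have hPnn : 0 ≤ ∑ i ∈ Finset.range (k + 1), Pt β (pc k) (t (m + i)) :=
      Finset.sum_nonneg (fun i _ => Pt_nonneg hβ hp hβp (ht _))
    have hZ2 : |Z| ^ 2 = Z ^ 2 := sq_abs Z
    have hZn := abs_nonneg Z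
    have g1 : lamk k / 2 * (Lg (t k) ^ 2 - Lg (t (m + k)) * Lg (t (m + k + 1)))
        ≤ Lg (t k) ^ 2 / 2 + (2 * B * |Z| + B ^ 2) / 2 := by
      have h1 : lamk k / 2 * (Lg (t k) ^ 2 - Lg (t (m + k)) * Lg (t (m + k + 1))) ≤
          lamk k / 2 * (Lg (t k) ^ 2 + (2 * B * |Z| + B ^ 2)) :=
        mul_le_mul_of_nonneg_left (by linarith) (by linarith)
      have h2 : 0 ≤ Lg (t k) ^ 2 + (2 * B * |Z| + B ^ 2) := by positivity
      have h3 : lamk k / 2 * (Lg (t k) ^ 2 + (2 * B * |Z| + B ^ 2)) ≤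
          1 / 2 * (Lg (t k) ^ 2 + (2 * B * |Z| + B ^ 2)) :=
        mul_le_mul_of_nonneg_right (by linarith) h2
      linarith
    have g2 : lamk k * ∑ i ∈ Finset.range (k + 1), Pt β (pc k) (t (m + i)) ≤ D * (|Z| + B) := by
      have : lamk k * ∑ i ∈ Finset.range (k + 1), Pt β (pc k) (t (m + i)) ≤
          1 * ∑ i ∈ Finset.range (k + 1), Pt β (pc k) (t (m + i)) :=
        mul_le_mul_of_nonneg_right (by linarith) hPnn
      linarith
    have g3 : (B + D) * |Z| ≤ |Z| ^ 2 / 2 + (B + D) ^ 2 / 2 := by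
      nlinarith [sq_nonneg (|Z| - (B + D))]
    show (1 - lamk k) * ∑ n ∈ Finset.range (m + k + 1), β * t n * (Lg (t n) - β * t n / pc k) ≤ _
    nlinarith
  set C := (Lg (t k) ^ 2 + E + (B ^ 2 / 2 + D * B + (B + D) ^ 2 / 2)) / (1 - lamk k) with hC
  have h1l : 0 < 1 - lamk k := by linarith
  have hsum : ∀ M, S M ≤ C := by
    intro M
    have h1 : S M ≤ S (M + k + k + 1) := by
      apply Finset.sum_le_sum_of_subset_of_nonneg
      · apply Finset.range_mono; omega
      · intro i _ _; exact hnn i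
    have h2 := hbd (M + k) (by omega)
    rw [hC, le_div_iff₀ h1l]
    calc S M * (1 - lamk k) ≤ S (M + k + k + 1) * (1 - lamk k) :=
          mul_le_mul_of_nonneg_right h1 h1l.le
      _ = (1 - lamk k) * S (M + k + k + 1) := by ring
      _ ≤ _ := h2
  have hsummable : Summable (fun n => β * t n * (Lg (t n) - β * t n / pc k)) :=
    summable_of_sum_range_le hnn hsum
  have hlim := hsummable.tendsto_atTop_zero
  have h4 : Filter.Tendsto (fun n => t n ^ 4) Filter.atTop (nhds 0) := by
    have h5 : Filter.Tendsto (fun n => (β * (2 / 3))⁻¹ * (β * t n * (Lg (t n) - β * t n / pc k)))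
        Filter.atTop (nhds 0) := by
      simpa using hlim.const_mul ((β * (2 / 3))⁻¹)
    refine squeeze_zero (fun n => by positivity) (fun n => ?_) h5
    have h6 := wv_lower hk hβ hβp (ht n)
    rw [inv_mul_eq_div, le_div_iff₀ (by positivity)]
    linarith
  rw [tendsto_zero_iff_abs_tendsto_zero]
  have h7 : Filter.Tendsto (fun n => Real.sqrt (Real.sqrt (t n ^ 4))) Filter.atTop (nhds 0) := by
    have := (h4.sqrt).sqrt
    simpa using this
  refine h7.congr (fun n => ?_)
  have e1 : t n ^ 4 = (t n ^ 2) ^ 2 := by ring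
  rw [e1, Real.sqrt_sq (sq_nonneg _), Real.sqrt_sq_eq_abs]
  rfl

lemma Lg_tendsto (h : Filter.Tendsto t Filter.atTop (nhds 0)) :
    Filter.Tendsto (fun n => Lg (t n)) Filter.atTop (nhds 0) := by
  have h1 : Filter.Tendsto (fun n => Real.log (1 + t n)) Filter.atTop (nhds (Real.log (1 + 0))) :=
    (h.const_add 1).log (by norm_num)
  have h2 : Filter.Tendsto (fun n => Real.log (1 - t n)) Filter.atTop (nhds (Real.log (1 - 0))) :=
    (h.const_sub 1).log (by norm_num)
  have := h1.sub h2
  simpa [Lg] using this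

lemma Pt_tendsto (h : Filter.Tendsto t Filter.atTop (nhds 0)) (p : ℝ) :
    Filter.Tendsto (fun n => Pt β p (t n)) Filter.atTop (nhds 0) := by
  have h1 : Filter.Tendsto (fun n => Real.log (1 + t n)) Filter.atTop (nhds (Real.log (1 + 0))) :=
    (h.const_add 1).log (by norm_num)
  have h2 : Filter.Tendsto (fun n => Real.log (1 - t n)) Filter.atTop (nhds (Real.log (1 - 0))) :=
    (h.const_sub 1).log (by norm_num)
  have := ((h1.add h2).const_mul (-β)).sub ((h.pow 2).const_mul (β ^ 2 / (2 * p)))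
  simpa [Pt] using this

lemma stab (hk : 2 ≤ k) (hβ : 0 < β) (hβp : β ≤ 2 * pc k) (ht : ∀ n, |t n| < 1)
    (hz : ∀ n, Lg (t (n + k + 1)) = Lg (t (n + k)) - β * t n) (n : ℕ) :
    (1 - lamk k) * (β * (2 / 3) * t n ^ 4) ≤
      Lg (t k) ^ 2 + ∑ i ∈ Finset.range k, β * t i * (Lg (t i) - Lg (t k)) := by
  obtain ⟨l0, l1⟩ := lamk_bd hk
  have hp := pc_pos hk
  have h1l : 0 < 1 - lamk k := by linarith
  have hlim := attract hk hβ hβp ht hz
  have hL := Lg_tendsto hlim
  have hP := Pt_tendsto (β := β) hlim (pc k)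
  set E := ∑ n ∈ Finset.range k, β * t n * (Lg (t n) - Lg (t k)) with hE
  have hnn : ∀ n, 0 ≤ β * t n * (Lg (t n) - β * t n / pc k) := by
    intro n
    have := wv_lower hk hβ hβp (ht n)
    have h4 : 0 ≤ β * (2 / 3) * t n ^ 4 := by positivity
    linarith
  have hten : Filter.Tendsto (fun m => Lg (t k) ^ 2 + E
      + (-(lamk k / 2 * (Lg (t (m + k)) * Lg (t (m + k + 1))))
      + lamk k * ∑ i ∈ Finset.range (k + 1), Pt β (pc k) (t (m + i)))) Filter.atTop
      (nhds (Lg (t k) ^ 2 + E + (-(lamk k / 2 * (0 * 0)) + lamk k * ∑ i ∈ Finset.range (k + 1), (0:ℝ)))) := by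
    have a1 : Filter.Tendsto (fun m => Lg (t (m + k))) Filter.atTop (nhds 0) :=
      hL.comp (Filter.tendsto_add_atTop_nat k)
    have a2 : Filter.Tendsto (fun m => Lg (t (m + k + 1))) Filter.atTop (nhds 0) :=
      hL.comp (Filter.tendsto_add_atTop_nat (k + 1))
    have a3 : Filter.Tendsto (fun m => ∑ i ∈ Finset.range (k + 1), Pt β (pc k) (t (m + i)))
        Filter.atTop (nhds (∑ i ∈ Finset.range (k + 1), (0:ℝ))) := by
      apply tendsto_finsetSum
      intro i _
      exact hP.comp (Filter.tendsto_add_atTop_nat i)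
    exact (((a1.mul a2).const_mul (lamk k / 2)).neg.add (a3.const_mul (lamk k))).const_add _
  simp only [mul_zero, neg_zero, Finset.sum_const_zero, add_zero] at hten
  refine ge_of_tendsto hten ?_
  filter_upwards [Filter.eventually_ge_atTop n] with m hm
  have h := energy hk hβ hβp ht hz m
  rw [E_eq, ← hE] at h
  have h2 : β * t n * (Lg (t n) - β * t n / pc k) ≤
      ∑ i ∈ Finset.range (m + k + 1), β * t i * (Lg (t i) - β * t i / pc k) :=
    Finset.single_le_sum (f := fun i => β * t i * (Lg (t i) - β * t i / pc k))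
      (fun i _ => hnn i) (Finset.mem_range.2 (by omega))
  have h3 := wv_lower hk hβ hβp (ht n)
  have h4 : (1 - lamk k) * (β * (2 / 3) * t n ^ 4) ≤ (1 - lamk k) *
      ∑ i ∈ Finset.range (m + k + 1), β * t i * (Lg (t i) - β * t i / pc k) :=
    mul_le_mul_of_nonneg_left (h3.trans h2) h1l.le
  have h5 : 0 ≤ Lg (t (m + k + 1 + k)) ^ 2 := sq_nonneg _
  have h6 : lamk k * Lg (t k) ^ 2 ≤ 1 * Lg (t k) ^ 2 :=
    mul_le_mul_of_nonneg_right (by linarith) (sq_nonneg _)
  nlinarith

end main

/-- the map from z to t -/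
noncomputable def TT (x : ℝ) : ℝ := 1 - 2 / (Real.exp x + 1)

lemma TT_zero : TT 0 = 0 := by simp [TT]; norm_num

lemma TT_mono : Monotone TT := by
  intro x y h
  unfold TT
  have h1 := Real.exp_le_exp.2 h
  have h2 := Real.exp_pos x
  have h3 : 2 / (Real.exp y + 1) ≤ 2 / (Real.exp x + 1) :=
    div_le_div_of_nonneg_left (by norm_num) (by linarith) (by linarith)
  linarith

lemma TT_neg (x : ℝ) : TT (-x) = -TT x := by
  unfold TT
  rw [Real.exp_neg]
  have h := Real.exp_pos x
  field_simp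
  ring

lemma TT_lt_one (x : ℝ) : TT x < 1 := by
  unfold TT
  have h := Real.exp_pos x
  have : 0 < 2 / (Real.exp x + 1) := by positivity
  linarith

lemma TT_pos {x : ℝ} (hx : 0 < x) : 0 < TT x := by
  unfold TT
  have h : 1 < Real.exp x := Real.one_lt_exp_iff.2 hx
  have : 2 / (Real.exp x + 1) < 1 := by
    rw [div_lt_one (by linarith)]; linarith
  linarith

lemma TT_lower {x : ℝ} (hx : 0 ≤ x) : x / 2 * (1 - x ^ 2 / 4) ≤ TT x := by
  have h1 : 1 + x + x ^ 2 / 2 ≤ Real.exp x := Real.quadratic_le_exp_of_nonneg hx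
  have h2 : TT (x) ≥ 1 - 2 / (2 + x + x ^ 2 / 2) := by
    unfold TT
    have : 2 / (Real.exp x + 1) ≤ 2 / (2 + x + x ^ 2 / 2) :=
      div_le_div_of_nonneg_left (by norm_num) (by positivity) (by linarith)
    linarith
  have h3 : x / 2 * (1 - x ^ 2 / 4) ≤ 1 - 2 / (2 + x + x ^ 2 / 2) := by
    have hd : 0 < 2 + x + x ^ 2 / 2 := by positivity
    rw [le_sub_iff_add_le, ← le_sub_iff_add_le', div_le_iff₀ hd]
    have : 0 ≤ x ^ 4 := by positivity
    have : 0 ≤ x ^ 5 := by positivity
    nlinarith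
  linarith

/-- the monotone operator -/
noncomputable def Phi (k : ℕ) (β : ℝ) (a : ℕ → ℝ) (i : ℕ) : ℝ :=
  β / 2 * TT (a 0) + ∑ m ∈ Finset.range (k - i), β * TT (a (m + 1))

lemma Phi_mono {k : ℕ} {β : ℝ} (hβ : 0 < β) : Monotone (Phi k β) := by
  intro a b h i
  unfold Phi
  apply add_le_add
  · exact mul_le_mul_of_nonneg_left (TT_mono (h 0)) (by positivity)
  · apply Finset.sum_le_sum
    intro m _
    exact mul_le_mul_of_nonneg_left (TT_mono (h (m + 1))) hβ.le

open Real in
lemma exists_profile {k : ℕ} (hk : 2 ≤ k) {β : ℝ} (h : 2 * pc k < β) :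
    ∃ a : ℕ → ℝ, 0 < a 0 ∧ (∀ i, Phi k β a i = a i) := by
  have hk' : (2:ℝ) ≤ k := by exact_mod_cast hk
  obtain ⟨f1, f2, f3, f4, f5, f6, f7⟩ := facts (show 5 ≤ 2 * (k:ℝ) + 1 by linarith)
  set N := 2 * (k:ℝ) + 1 with hN
  have hN0 : 0 < N := by linarith
  have hp : 0 < pc k := by unfold pc; linarith
  have hβ : 0 < β := by linarith
  have hr : 0 < 1 - 2 * pc k / β := by
    have : 2 * pc k / β < 1 := by rw [div_lt_one hβ]; exact h
    linarith
  set ε := 2 * Real.sqrt (1 - 2 * pc k / β) with hε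
  have hε0 : 0 < ε := by positivity
  have hε2 : β / 2 * (1 - ε ^ 2 / 4) = pc k := by
    have : ε ^ 2 = 4 * (1 - 2 * pc k / β) := by
      rw [hε, mul_pow, Real.sq_sqrt hr.le]; norm_num
    rw [this]; field_simp; ring
  have hf : ∀ x, 0 ≤ x → x ≤ ε → pc k * x ≤ β * TT x := by
    intro x h0 h1
    have h2 := mul_le_mul_of_nonneg_left (TT_lower h0) hβ.le
    have h3 : pc k * x ≤ β * (x / 2 * (1 - x ^ 2 / 4)) := by
      rw [← hε2]
      have h4 : x ^ 2 ≤ ε ^ 2 := pow_le_pow_left₀ h0 h1 2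
      have h5 : 0 ≤ β / 2 * x := by positivity
      nlinarith [mul_nonneg h5 (sub_nonneg.2 h4)]
    linarith
  -- lower solution
  set lo : ℕ → ℝ := fun i => if i ≤ k then ε * cos ((i:ℝ) * (π / N)) else 0 with hlo
  set hi : ℕ → ℝ := fun _ => max (β * (k + 1)) ε with hhi
  have hcos : ∀ i : ℕ, i ≤ k → 0 < cos ((i:ℝ) * (π / N)) := by
    intro i hi
    have hi' : (i:ℝ) ≤ k := by exact_mod_cast hi
    apply cos_pos_of_mem_Ioo
    constructor
    · have : 0 ≤ (i:ℝ) * (π / N) := by positivity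
      linarith [pi_pos]
    · have h1 : (i:ℝ) * (π / N) ≤ k * (π / N) := mul_le_mul_of_nonneg_right hi' (by positivity)
      have h2 : (k:ℝ) * (π / N) < π / 2 := by
        rw [mul_div_assoc', div_lt_div_iff₀ hN0 (by norm_num)]
        have := pi_pos
        nlinarith
      linarith
  have hlo_le : ∀ i, 0 ≤ lo i ∧ lo i ≤ ε := by
    intro i
    simp only [hlo]
    split_ifs with hi
    · refine ⟨(mul_pos hε0 (hcos i hi)).le, ?_⟩
      have := cos_le_one ((i:ℝ) * (π / N))
      nlinarith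
    · exact ⟨le_rfl, hε0.le⟩
  have hlohi : lo ≤ hi := fun i => (hlo_le i).2.trans (le_max_right _ _)
  have hlo0 : lo 0 = ε := by simp [hlo]
  -- summation identity
  have hsum : ∀ j : ℕ, 1 / 2 + ∑ m ∈ Finset.range j, cos (((m:ℝ) + 1) * (π / N)) =
      sin ((2 * j + 1) * (π / (2 * N))) / pc k := by
    intro j
    have hd := dirichlet j (π / (2 * N))
    have e1 : 2 * (π / (2 * N)) = π / N := by field_simp
    rw [e1] at hd
    rw [← hd]
    unfold pc
    rw [← hN]
    generalize ∑ m ∈ Finset.range j, cos (((m:ℝ) + 1) * (π / N)) = S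
    field_simp
  have hPhilo : lo ≤ Phi k β lo := by
    intro i
    have h1 : pc k * ε * (1 / 2 + ∑ m ∈ Finset.range (k - i), cos (((m:ℝ) + 1) * (π / N)))
        ≤ Phi k β lo i := by
      unfold Phi
      rw [mul_add, Finset.mul_sum]
      apply add_le_add
      · rw [hlo0]
        have := hf ε hε0.le le_rfl
        linarith
      · apply Finset.sum_le_sum
        intro m hm
        have hm' := Finset.mem_range.1 hm
        have e1 : lo (m + 1) = ε * cos (((m:ℝ) + 1) * (π / N)) := by
          simp only [hlo]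
          rw [if_pos (by omega)]
          push_cast; rfl
        have h2 := hf (lo (m + 1)) (hlo_le _).1 (hlo_le _).2
        rw [e1] at h2
        rw [e1]
        linarith
    rw [hsum] at h1
    by_cases hik : i ≤ k
    · have e2 : sin ((2 * ((k - i : ℕ) : ℝ) + 1) * (π / (2 * N))) = cos ((i:ℝ) * (π / N)) := by
        rw [← Real.sin_pi_div_two_sub]
        congr 1
        rw [Nat.cast_sub hik]
        have : (2 * ((k:ℝ) - i) + 1) = N - 2 * i := by rw [hN]; ring
        rw [this]
        field_simp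
      rw [e2] at h1
      simp only [hlo]
      rw [if_pos hik]
      have e3 : pc k * ε * (cos ((i:ℝ) * (π / N)) / pc k) = ε * cos ((i:ℝ) * (π / N)) := by
        field_simp
      rw [e3] at h1
      exact h1
    · simp only [hlo]
      rw [if_neg hik]
      unfold Phi
      have e4 : k - i = 0 := by omega
      rw [e4]
      simp only [Finset.range_zero, Finset.sum_empty, add_zero]
      have e5 : (if 0 ≤ k then ε * cos (((0:ℕ):ℝ) * (π / N)) else 0) = ε := by simp
      rw [e5]
      exact (mul_pos (by positivity) (TT_pos hε0)).le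
  have hPhihi : Phi k β hi ≤ hi := by
    intro i
    refine le_trans ?_ (le_max_left _ _)
    unfold Phi
    have h1 : β / 2 * TT (hi 0) ≤ β := by
      have := TT_lt_one (hi 0)
      nlinarith
    have h2 : ∑ m ∈ Finset.range (k - i), β * TT (hi (m + 1)) ≤ ∑ m ∈ Finset.range (k - i), β := by
      apply Finset.sum_le_sum
      intro m _
      have := TT_lt_one (hi (m + 1))
      nlinarith
    rw [Finset.sum_const, Finset.card_range, nsmul_eq_mul] at h2
    have h3 : ((k - i : ℕ) : ℝ) ≤ k := by exact_mod_cast Nat.sub_le _ _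
    have h4 : ((k - i : ℕ) : ℝ) * β ≤ k * β := mul_le_mul_of_nonneg_right h3 hβ.le
    linarith
  have : Fact (lo ≤ hi) := ⟨hlohi⟩
  let F : Set.Icc lo hi →o Set.Icc lo hi :=
    { toFun := fun a => ⟨Phi k β a.1, ⟨hPhilo.trans (Phi_mono hβ a.2.1),
        (Phi_mono hβ a.2.2).trans hPhihi⟩⟩
      monotone' := fun a b hab => Phi_mono hβ hab }
  have hfix := F.map_lfp
  refine ⟨(OrderHom.lfp F).1, ?_, ?_⟩
  · have h1 := (OrderHom.lfp F).2.1 0
    rw [hlo0] at h1
    linarith
  · intro i
    have h2 := congrArg (fun (x : Set.Icc lo hi) => x.1 i) hfix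
    exact h2

/-- one period of the antiperiodic extension of the profile -/
noncomputable def Sx (k : ℕ) (a : ℕ → ℝ) (r : ℕ) : ℝ :=
  if r ≤ k then a r else if r ≤ 2 * k + 1 then -a (2 * k + 1 - r)
    else if r ≤ 3 * k + 1 then -a (r - (2 * k + 1)) else a (4 * k + 2 - r)

lemma profile_rec {k : ℕ} {β : ℝ} {a : ℕ → ℝ} (h : ∀ i, Phi k β a i = a i) :
    a k = β / 2 * TT (a 0) ∧ ∀ i, i < k → a i - a (i + 1) = β * TT (a (k - i)) := by
  constructor
  · have := h k
    unfold Phi at this
    simp only [Nat.sub_self, Finset.range_zero, Finset.sum_empty, add_zero] at this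
    exact this.symm
  · intro i hi
    have h1 := h i
    have h2 := h (i + 1)
    unfold Phi at h1 h2
    have e : k - i = (k - (i + 1)) + 1 := by omega
    rw [e, Finset.sum_range_succ, ← e] at h1
    rw [← h1, ← h2]
    ring

lemma periodic_rec {k : ℕ} (hk : 2 ≤ k) {β : ℝ} {a : ℕ → ℝ} (h : ∀ i, Phi k β a i = a i) (n : ℕ) :
    Sx k a ((n + k + 1) % (4 * k + 2)) =
      Sx k a ((n + k) % (4 * k + 2)) - β * TT (Sx k a (n % (4 * k + 2))) := by
  obtain ⟨hk0, hrec⟩ := profile_rec h
  have hr : n % (4 * k + 2) < 4 * k + 2 := Nat.mod_lt _ (by omega)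
  obtain ⟨q, hq⟩ : ∃ q, n = (4 * k + 2) * q + n % (4 * k + 2) := ⟨_, (Nat.div_add_mod _ _).symm⟩
  generalize n % (4 * k + 2) = r at hr hq
  have m1 : ∀ s, s < 4 * k + 2 → n + k = (4 * k + 2) * q + s → (n + k) % (4 * k + 2) = s := by
    intro s hs e
    rw [e, Nat.mul_add_mod, Nat.mod_eq_of_lt hs]
  have m2 : ∀ s, s < 4 * k + 2 → n + k + 1 = (4 * k + 2) * q + s → (n + k + 1) % (4 * k + 2) = s := by
    intro s hs e
    rw [e, Nat.mul_add_mod, Nat.mod_eq_of_lt hs]
  have m3 : ∀ s, s < 4 * k + 2 → n + k = (4 * k + 2) * (q + 1) + s → (n + k) % (4 * k + 2) = s := by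
    intro s hs e
    rw [e, Nat.mul_add_mod, Nat.mod_eq_of_lt hs]
  have m4 : ∀ s, s < 4 * k + 2 → n + k + 1 = (4 * k + 2) * (q + 1) + s →
      (n + k + 1) % (4 * k + 2) = s := by
    intro s hs e
    rw [e, Nat.mul_add_mod, Nat.mod_eq_of_lt hs]
  rcases Nat.eq_zero_or_pos r with h0 | h0
  · -- A
    rw [m1 k (by omega) (by omega), m2 (k + 1) (by omega) (by omega), h0]
    unfold Sx
    rw [if_neg (by omega), if_pos (by omega), if_pos le_rfl, if_pos (Nat.zero_le _)]
    have e : 2 * k + 1 - (k + 1) = k := by omega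
    rw [e]
    linarith
  rcases Nat.lt_or_ge k r with hA | hA
  swap
  · -- B
    rw [m1 (r + k) (by omega) (by omega), m2 (r + k + 1) (by omega) (by omega)]
    unfold Sx
    rw [if_neg (by omega), if_pos (by omega), if_neg (by omega), if_pos (by omega), if_pos (by omega)]
    have h1 := hrec (k - r) (by omega)
    have e1 : k - (k - r) = r := by omega
    have e2 : 2 * k + 1 - (r + k + 1) = k - r := by omega
    have e3 : 2 * k + 1 - (r + k) = k - r + 1 := by omega
    rw [e1] at h1
    rw [e2, e3]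
    linarith
  rcases Nat.lt_or_ge (2 * k) r with hB | hB
  swap
  · -- C
    rw [m1 (r + k) (by omega) (by omega), m2 (r + k + 1) (by omega) (by omega)]
    have h1 := hrec (r - k - 1) (by omega)
    have e1 : k - (r - k - 1) = 2 * k + 1 - r := by omega
    have e2 : r - k - 1 + 1 = r - k := by omega
    rw [e1, e2] at h1
    have s1 : Sx k a (r + k + 1) = -a (r - k) := by
      unfold Sx
      rw [if_neg (by omega), if_neg (by omega), if_pos (by omega)]
      congr 2; omega
    have s2 : Sx k a (r + k) = -a (r - k - 1) := by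
      unfold Sx
      rw [if_neg (by omega)]
      by_cases h2 : r + k ≤ 2 * k + 1
      · rw [if_pos h2]; congr 2; omega
      · rw [if_neg h2, if_pos (by omega)]; congr 2; omega
    have s3 : Sx k a r = -a (2 * k + 1 - r) := by
      unfold Sx
      rw [if_neg (by omega), if_pos (by omega)]
    rw [s1, s2, s3, TT_neg]
    linarith
  rcases Nat.lt_or_ge (2 * k + 1) r with hC | hC
  swap
  · -- D
    have hr1 : r = 2 * k + 1 := by omega
    rw [m1 (3 * k + 1) (by omega) (by omega), m2 (3 * k + 2) (by omega) (by omega), hr1]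
    have s1 : Sx k a (3 * k + 2) = a k := by
      unfold Sx
      rw [if_neg (by omega), if_neg (by omega), if_neg (by omega)]
      congr 1; omega
    have s2 : Sx k a (3 * k + 1) = -a k := by
      unfold Sx
      rw [if_neg (by omega)]
      by_cases h2 : 3 * k + 1 ≤ 2 * k + 1
      · rw [if_pos h2]; congr 2; omega
      · rw [if_neg h2, if_pos (by omega)]; congr 2; omega
    have s3 : Sx k a (2 * k + 1) = -a 0 := by
      unfold Sx
      rw [if_neg (by omega), if_pos (by omega)]
      congr 2; omega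
    rw [s1, s2, s3, TT_neg]
    linarith
  rcases Nat.lt_or_ge (3 * k + 1) r with hD | hD
  swap
  · -- E
    have h1 := hrec (3 * k + 1 - r) (by omega)
    have e1 : k - (3 * k + 1 - r) = r - (2 * k + 1) := by omega
    have e2 : 3 * k + 1 - r + 1 = 3 * k + 2 - r := by omega
    rw [e1, e2] at h1
    have s2 : Sx k a (r + k) = a (3 * k + 2 - r) := by
      unfold Sx
      rw [if_neg (by omega), if_neg (by omega), if_neg (by omega)]
      congr 1; omega
    have s3 : Sx k a r = -a (r - (2 * k + 1)) := by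
      unfold Sx
      rw [if_neg (by omega), if_neg (by omega), if_pos (by omega)]
    have s1 : Sx k a ((n + k + 1) % (4 * k + 2)) = a (3 * k + 1 - r) := by
      by_cases h2 : r = 3 * k + 1
      · have q4 : n + k + 1 = (4 * k + 2) * (q + 1) + 0 := by
          rw [hq, h2]; ring
        rw [m4 0 (by omega) q4]
        unfold Sx
        rw [if_pos (Nat.zero_le _)]
        congr 1; omega
      · rw [m2 (r + k + 1) (by omega) (by omega)]
        unfold Sx
        rw [if_neg (by omega), if_neg (by omega), if_neg (by omega)]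
        congr 1; omega
    rw [s1, m1 (r + k) (by omega) (by omega), s2, s3, TT_neg]
    linarith
  · -- F
    have h1 := hrec (r - (3 * k + 2)) (by omega)
    have e1 : k - (r - (3 * k + 2)) = 4 * k + 2 - r := by omega
    have e2 : r - (3 * k + 2) + 1 = r - (3 * k + 1) := by omega
    rw [e1, e2] at h1
    have q1 : n + k = (4 * k + 2) * (q + 1) + (r - (3 * k + 2)) := by
      have : r = (r - (3 * k + 2)) + (3 * k + 2) := by omega
      rw [hq, this]
      have e3 : r - (3 * k + 2) + (3 * k + 2) - (3 * k + 2) = r - (3 * k + 2) := by omega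
      rw [e3]; ring
    have q2 : n + k + 1 = (4 * k + 2) * (q + 1) + (r - (3 * k + 1)) := by
      rw [q1, add_assoc]; congr 1
    rw [m3 _ (by omega) q1, m4 _ (by omega) q2]
    have s1 : Sx k a (r - (3 * k + 1)) = a (r - (3 * k + 1)) := by
      unfold Sx; rw [if_pos (by omega)]
    have s2 : Sx k a (r - (3 * k + 2)) = a (r - (3 * k + 2)) := by
      unfold Sx; rw [if_pos (by omega)]
    have s3 : Sx k a r = a (4 * k + 2 - r) := by
      unfold Sx
      rw [if_neg (by omega), if_neg (by omega), if_neg (by omega)]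
    rw [s1, s2, s3]
    linarith

/-- above the critical gain there is a solution that does not converge to 1/2 -/
lemma exists_bad {k : ℕ} (hk : 2 ≤ k) {β : ℝ} (h : 2 * pc k < β) :
    ∃ y : ℕ → ℝ, (∀ i, 0 < y i ∧ y i < 1) ∧
      (∀ n : ℕ, y (n + k + 1) =
                y (n + k) * Real.exp (β * (1 - 2 * y n)) /
                  (1 - y (n + k) + y (n + k) * Real.exp (β * (1 - 2 * y n)))) ∧
      ¬ Filter.Tendsto y Filter.atTop (nhds (1 / 2)) := by
  obtain ⟨a, ha0, ha⟩ := exists_profile hk h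
  set Z : ℕ → ℝ := fun n => Sx k a (n % (4 * k + 2)) with hZ
  have hrec : ∀ n, Z (n + k + 1) = Z (n + k) - β * TT (Z n) := fun n => periodic_rec hk ha n
  refine ⟨fun n => (1 + TT (Z n)) / 2, ?_, ?_, ?_⟩
  · intro i
    have h1 := TT_lt_one (Z i)
    have h2 := TT_lt_one (-Z i)
    rw [TT_neg] at h2
    constructor <;> simp only <;> linarith
  · intro n
    simp only
    have e1 : 1 - 2 * ((1 + TT (Z n)) / 2) = -TT (Z n) := by ring
    rw [e1]
    have e2 : ∀ x, (1 + TT x) / 2 = Real.exp x / (Real.exp x + 1) := by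
      intro x
      unfold TT
      have := Real.exp_pos x
      field_simp
      ring
    rw [e2, e2, hrec]
    have e3 : Z (n + k) - β * TT (Z n) = Z (n + k) + β * (-TT (Z n)) := by ring
    rw [e3, Real.exp_add]
    have p1 := Real.exp_pos (Z (n + k))
    have p2 := Real.exp_pos (β * (-TT (Z n)))
    generalize Real.exp (Z (n + k)) = u at p1
    generalize Real.exp (β * (-TT (Z n))) = v at p2
    have h1 : u + 1 ≠ 0 := by positivity
    have h2 : u * v + 1 ≠ 0 := by positivity
    have h3 : 1 - u / (u + 1) + u / (u + 1) * v = (u * v + 1) / (u + 1) := by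
      field_simp; ring
    rw [h3]
    field_simp
  · intro hT
    have hsub : Filter.Tendsto (fun q : ℕ => (4 * k + 2) * q) Filter.atTop Filter.atTop :=
      Filter.tendsto_id.const_mul_atTop' (by omega)
    have h1 := hT.comp hsub
    have h2 : ((fun n => (1 + TT (Z n)) / 2) ∘ fun q : ℕ => (4 * k + 2) * q) =
        fun _ => (1 + TT (a 0)) / 2 := by
      funext q
      simp only [Function.comp, hZ, Nat.mul_mod_right]
      unfold Sx
      rw [if_pos (Nat.zero_le _)]
    rw [h2] at h1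
    have h3 := tendsto_nhds_unique h1 tendsto_const_nhds
    have h4 := TT_pos ha0
    linarith

end Pool.Agent.S04011
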