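import Pool.Statements.S04011
import Pool.Agent.helper443_GenoB

set_option autoImplicit false
open Pool Pool.MP_c64be7_an

namespace Pool.Agent.S04011

lemma crit_eq (k : ℕ) :
    4 * Real.cos ((k : ℝ) * Real.pi / (2 * (k : ℝ) + 1)) = 2 * pc k := by
  have h : (k : ℝ) * Real.pi / (2 * (k : ℝ) + 1) =
      Real.pi / 2 - Real.pi / (2 * (2 * (k : ℝ) + 1)) := by
    have : (2 * (k : ℝ) + 1) ≠ 0 := by positivity
    field_simp
    ring
  rw [h, Real.cos_pi_div_two_sub]
  unfold pc
  ring

lemma y_range {k : ℕ} {β : ℝ} {y : ℕ → ℝ} (h0 : ∀ i, i ≤ k → 0 < y i ∧ y i < 1)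
    (hr : ∀ n : ℕ, y (n + k + 1) =
                y (n + k) * Real.exp (β * (1 - 2 * y n)) /
                  (1 - y (n + k) + y (n + k) * Real.exp (β * (1 - 2 * y n)))) :
    ∀ n, 0 < y n ∧ y n < 1 := by
  have step : ∀ n, (0 < y (n + k) ∧ y (n + k) < 1) → 0 < y (n + k + 1) ∧ y (n + k + 1) < 1 := by
    intro n hn
    obtain ⟨h1, h2⟩ := hn
    rw [hr n]
    have hE := Real.exp_pos (β * (1 - 2 * y n))
    generalize Real.exp (β * (1 - 2 * y n)) = E at hE
    have hd : 0 < 1 - y (n + k) + y (n + k) * E := by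
      have : 0 < y (n + k) * E := mul_pos h1 hE
      linarith
    refine ⟨div_pos (mul_pos h1 hE) hd, ?_⟩
    rw [div_lt_one hd]
    linarith
  intro n
  rcases Nat.lt_or_ge k n with hn | hn
  · obtain ⟨d, rfl⟩ := Nat.exists_eq_add_of_lt hn
    induction d with
    | zero =>
      have := step 0 (by simpa using h0 k le_rfl)
      simpa using this
    | succ d ih =>
      have h1 := ih (by omega)
      have e1 : k + d + 1 = (d + 1) + k := by omega
      rw [e1] at h1
      have h2 := step (d + 1) h1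
      have e2 : k + (d + 1) + 1 = (d + 1) + k + 1 := by omega
      rw [e2]; exact h2
  · exact h0 n hn

lemma z_rec {k : ℕ} {β : ℝ} {y : ℕ → ℝ} (h0 : ∀ n, 0 < y n ∧ y n < 1)
    (hr : ∀ n : ℕ, y (n + k + 1) =
                y (n + k) * Real.exp (β * (1 - 2 * y n)) /
                  (1 - y (n + k) + y (n + k) * Real.exp (β * (1 - 2 * y n)))) (n : ℕ) :
    Lg (2 * y (n + k + 1) - 1) = Lg (2 * y (n + k) - 1) - β * (2 * y n - 1) := by
  obtain ⟨h1, h2⟩ := h0 (n + k)
  obtain ⟨h3, h4⟩ := h0 (n + k + 1)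
  have hE := Real.exp_pos (β * (1 - 2 * y n))
  have hLE : Real.log (Real.exp (β * (1 - 2 * y n))) = β * (1 - 2 * y n) := Real.log_exp _
  have hr' := hr n
  generalize Real.exp (β * (1 - 2 * y n)) = E at hE hr' hLE
  have hd : 0 < 1 - y (n + k) + y (n + k) * E := by
    have : 0 < y (n + k) * E := mul_pos h1 hE
    linarith
  have e1 : 1 + (2 * y (n + k + 1) - 1) = 2 * y (n + k) * E / (1 - y (n + k) + y (n + k) * E) := by
    rw [hr']; ring
  have e2 : 1 - (2 * y (n + k + 1) - 1) = 2 * (1 - y (n + k)) / (1 - y (n + k) + y (n + k) * E) := by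
    rw [hr']; field_simp; ring
  have e3 : 1 + (2 * y (n + k) - 1) = 2 * y (n + k) := by ring
  have e4 : 1 - (2 * y (n + k) - 1) = 2 * (1 - y (n + k)) := by ring
  unfold Lg
  rw [e1, e2, e3, e4, Real.log_div (by positivity) hd.ne',
    Real.log_div (by apply ne_of_gt; linarith) hd.ne', Real.log_mul (by positivity) hE.ne', hLE]
  ring

/-- For integer delay k≥2 and β>0, the equilibrium 1/2 of y' = y e^{β(1−2y_{delayed})}/(1−y+y e^{β(1−2y_{delayed})}) with initial values in (0,1) is globally asymptotically stable iff β ≤ 4cos(kπ/(2k+1)). -/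
theorem result :
    ∀ k : ℕ, 2 ≤ k → ∀ β : ℝ, 0 < β →
      (((∀ ε : ℝ, 0 < ε → ∃ δ : ℝ, 0 < δ ∧
          ∀ y : ℕ → ℝ, (∀ i, i ≤ k → 0 < y i ∧ y i < 1) →
            (∀ n : ℕ, y (n + k + 1) =
                y (n + k) * Real.exp (β * (1 - 2 * y n)) /
                  (1 - y (n + k) + y (n + k) * Real.exp (β * (1 - 2 * y n)))) →
            (∀ i, i ≤ k → |y i - 1 / 2| < δ) →
            ∀ n : ℕ, |y n - 1 / 2| < ε) ∧
        (∀ y : ℕ → ℝ, (∀ i, i ≤ k → 0 < y i ∧ y i < 1) →
            (∀ n : ℕ, y (n + k + 1) =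
                y (n + k) * Real.exp (β * (1 - 2 * y n)) /
                  (1 - y (n + k) + y (n + k) * Real.exp (β * (1 - 2 * y n)))) →
            Filter.Tendsto y Filter.atTop (nhds (1 / 2))))
        ↔ β ≤ 4 * Real.cos ((k : ℝ) * Real.pi / (2 * (k : ℝ) + 1))) := by
  intro k hk β hβ
  rw [crit_eq]
  constructor
  · rintro ⟨-, h2⟩
    by_contra hcon
    push Not at hcon
    obtain ⟨y, hy, hr, hn⟩ := exists_bad hk hcon
    exact hn (h2 y (fun i _ => hy i) hr)
  · intro hβp
    obtain ⟨l0, l1⟩ := lamk_bd hk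
    have habs : ∀ y : ℝ, 0 < y ∧ y < 1 → |2 * y - 1| < 1 := by
      intro y hy
      rw [abs_lt]; constructor <;> linarith [hy.1, hy.2]
    refine ⟨?_, ?_⟩
    · intro ε hε
      set A : ℝ := 64 + 32 * k * β with hA
      have hA0 : 0 < A := by positivity
      set m : ℝ := min (1 / 16) (β * ε ^ 4 / A) with hm
      have hm0 : 0 < m := lt_min (by norm_num) (by positivity)
      refine ⟨Real.sqrt m, Real.sqrt_pos.2 hm0, ?_⟩
      intro y hy0 hr hd n
      have hy := y_range hy0 hr
      set δ := Real.sqrt m with hδ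
      have hδ0 : 0 < δ := Real.sqrt_pos.2 hm0
      have hδ2 : δ ^ 2 = m := Real.sq_sqrt hm0.le
      have hδ4 : δ ≤ 1 / 4 := by
        have : δ ^ 2 ≤ (1 / 4) ^ 2 := by
          rw [hδ2]
          calc m ≤ 1 / 16 := min_le_left _ _
            _ = (1 / 4) ^ 2 := by norm_num
        exact (abs_le_of_sq_le_sq' this (by norm_num)).2
      have hAm : A * δ ^ 2 ≤ β * ε ^ 4 := by
        rw [hδ2]
        have := min_le_right (1 / 16 : ℝ) (β * ε ^ 4 / A)
        have h1 : A * m ≤ A * (β * ε ^ 4 / A) := mul_le_mul_of_nonneg_left this hA0.le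
        have h2 : A * (β * ε ^ 4 / A) = β * ε ^ 4 := by field_simp
        linarith
      have hst := stab (t := fun n => 2 * y n - 1) hk hβ hβp (fun n => habs _ (hy n))
        (fun n => z_rec hy hr n) n
      have ht : ∀ i, i ≤ k → |2 * y i - 1| ≤ 2 * δ := by
        intro i hi
        have h1 := hd i hi
        have h2 : 2 * y i - 1 = 2 * (y i - 1 / 2) := by ring
        rw [h2, abs_mul, abs_of_pos (by norm_num : (0:ℝ) < 2)]
        linarith
      have hL : ∀ i, i ≤ k → |Lg (2 * y i - 1)| ≤ 8 * δ := by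
        intro i hi
        have h1 := ht i hi
        have h2 := Lg_upper (t := 2 * y i - 1) (by linarith)
        linarith
      have hsum : ∑ i ∈ Finset.range k, β * (2 * y i - 1) * (Lg (2 * y i - 1) - Lg (2 * y k - 1))
          ≤ k * (β * (2 * δ) * (16 * δ)) := by
        have h1 : ∀ i ∈ Finset.range k, β * (2 * y i - 1) * (Lg (2 * y i - 1) - Lg (2 * y k - 1))
            ≤ β * (2 * δ) * (16 * δ) := by
          intro i hi
          have hi' := (Finset.mem_range.1 hi).le
          refine (le_abs_self _).trans ?_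
          rw [abs_mul, abs_mul, abs_of_pos hβ]
          have h2 : |Lg (2 * y i - 1) - Lg (2 * y k - 1)| ≤ 16 * δ := by
            have := abs_sub (Lg (2 * y i - 1)) (Lg (2 * y k - 1))
            have h3 := hL i hi'
            have h4 := hL k le_rfl
            linarith
          exact mul_le_mul (mul_le_mul_of_nonneg_left (ht i hi') hβ.le) h2 (abs_nonneg _)
            (by positivity)
        have h5 := Finset.sum_le_sum h1
        rwa [Finset.sum_const, Finset.card_range, nsmul_eq_mul] at h5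
      have hLk : Lg (2 * y k - 1) ^ 2 ≤ 64 * δ ^ 2 := by
        have h1 := hL k le_rfl
        have h2 : |Lg (2 * y k - 1)| ^ 2 ≤ (8 * δ) ^ 2 := pow_le_pow_left₀ (abs_nonneg _) h1 2
        rw [sq_abs] at h2
        linarith
      have htot : (1 - lamk k) * (β * (2 / 3) * (2 * y n - 1) ^ 4) ≤ A * δ ^ 2 := by
        rw [hA]
        nlinarith
      have h4 : 0 ≤ (2 * y n - 1) ^ 4 := by positivity
      have h5 : 1 / 3 * (β * (2 / 3) * (2 * y n - 1) ^ 4) ≤
          (1 - lamk k) * (β * (2 / 3) * (2 * y n - 1) ^ 4) :=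
        mul_le_mul_of_nonneg_right (by linarith) (by positivity)
      have h6 : β * (2 / 9) * (2 * y n - 1) ^ 4 ≤ β * ε ^ 4 := by linarith
      have h7 : (2 / 9) * (2 * y n - 1) ^ 4 ≤ ε ^ 4 := by
        have e1 : β * (2 / 9) * (2 * y n - 1) ^ 4 = β * ((2 / 9) * (2 * y n - 1) ^ 4) := by ring
        rw [e1] at h6
        exact le_of_mul_le_mul_left h6 hβ
      have h8 : |y n - 1 / 2| ^ 4 < ε ^ 4 := by
        have e1 : |y n - 1 / 2| ^ 4 = (y n - 1 / 2) ^ 4 := by
          have : (4 : ℕ) = 2 * 2 := rfl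
          rw [this, pow_mul, sq_abs, ← pow_mul]
        have e2 : (2 * y n - 1) ^ 4 = 16 * (y n - 1 / 2) ^ 4 := by ring
        rw [e2] at h7
        rw [e1]
        have : 0 ≤ (y n - 1 / 2) ^ 4 := by positivity
        have : 0 < ε ^ 4 := by positivity
        linarith
      exact lt_of_pow_lt_pow_left₀ 4 hε.le h8
    · intro y hy0 hr
      have hy := y_range hy0 hr
      have h := attract (t := fun n => 2 * y n - 1) hk hβ hβp (fun n => habs _ (hy n))
        (fun n => z_rec hy hr n)
      have h2 : Filter.Tendsto (fun n => ((2 * y n - 1) + 1) / 2) Filter.atTop (nhds ((0 + 1) / 2)) :=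
        (h.add_const 1).div_const 2
      have e : (fun n => ((2 * y n - 1) + 1) / 2) = y := by
        funext n; ring
      rw [e] at h2
      simpa using h2

end Pool.Agent.S04011
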