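import Pool.Statements.S04032
import Pool.Agent.Helper139.Tw3
import Pool.Agent.Helper139.Tw7

set_option autoImplicit false
open MeasureTheory Filter Topology
open scoped InnerProductSpace BoundedContinuousFunction
open Pool Pool.MP_c88e0f_an

namespace Pool.Agent.S04032

open Pool.Agent.Helper139 Pool.Agent.Helper139.Tw2 Pool.Agent.Helper139.Tw6 Pool.Agent.Helper139.Tw7

lemma block_of_tower {K : Type*} [NormedAddCommGroup K] [InnerProductSpace ℂ K] [CompleteSpace K]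
    {c0 c1 κ : ℝ} {U : K ≃ₗᵢ[ℂ] K} {e : ℕ → ℤ → K} (h : IsTower c0 c1 U e)
    (hs : c0 ^ 2 + c1 ^ 2 = 1) (h0 : 1 / 2 ≤ c0) (h1 : 0 < c1) (hκ : 1 ≤ κ) (hκc : κ * c1 = 1) :
    Block U (Tw2.P e) κ (c0 * c1) where
  idem := P_idem
  symm := P_symm
  one_le := hκ
  pb := by
    intro m f
    have a1 := P_pow h hs m f
    have a2 : 0 ≤ κ ^ 2 - 1 := by nlinarith
    have a3 := mul_le_mul_of_nonneg_left a1 a2
    have a4 : (κ ^ 2 - 1) * (10 * c1 ^ 2 * ‖f‖ ^ 2) ≤ 10 * ‖f‖ ^ 2 := by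
      have : (κ ^ 2 - 1) * (10 * c1 ^ 2 * ‖f‖ ^ 2) =
          10 * ((κ * c1) ^ 2 - c1 ^ 2) * ‖f‖ ^ 2 := by ring
      rw [this, hκc]
      nlinarith [mul_nonneg (sq_nonneg c1) (sq_nonneg ‖f‖)]
    nlinarith
  tends := fun v => tendsto_Fw fun ε hε => P_tends h v ε hε
  avg := by
    intro v
    have := Tw2.avg_tendsto h v
    rw [Complex.ofReal_mul]
    exact this
  α_pos := mul_pos (by linarith) h1
  α_le := by nlinarith [sq_nonneg (c0 - c1)]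
  bad := by
    refine ⟨e 0 (-1), norm_e h 0 (-1), ?_, h0.trans (P_em1 h)⟩
    rw [h.shift]
    exact P_e00 h

/-- The negation of the preceding statement: If T is a power bounded C_11 Hilbert space operator and its unitary asymptote W (built from any Banach limit, with XT = WX and ‖Xx‖² = L(‖Tⁿx‖²)) has singular spectral measures, then T is similar to W. -/
theorem result :
    ¬ (∀ (H : Type) [NormedAddCommGroup H] [InnerProductSpace ℂ H] [CompleteSpace H]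
    (T : H →L[ℂ] H),
    (∃ C : ℝ, ∀ n : ℕ, ‖T ^ n‖ ≤ C) →
    (∀ x : H, x ≠ 0 → ¬ Tendsto (fun n : ℕ => (T ^ n) x) atTop (𝓝 0)) →
    (∀ x : H, x ≠ 0 →
      ¬ Tendsto (fun n : ℕ => (ContinuousLinearMap.adjoint T ^ n) x) atTop (𝓝 0)) →
    ∀ L : (ℕ →ᵇ ℝ) →L[ℝ] ℝ,
    (∀ f : ℕ →ᵇ ℝ, (∀ n, 0 ≤ f n) → 0 ≤ L f) →
    L (BoundedContinuousFunction.const ℕ (1 : ℝ)) = 1 →
    (∀ f g : ℕ →ᵇ ℝ, (∀ n, g n = f (n + 1)) → L g = L f) →
    ∀ (K : Type) [NormedAddCommGroup K] [InnerProductSpace ℂ K] [CompleteSpace K]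
      (W : K →L[ℂ] K) (X : H →L[ℂ] K),
      W ∈ unitary (K →L[ℂ] K) → DenseRange X → X.comp T = W.comp X →
      (∀ (x : H) (f : ℕ →ᵇ ℝ), (∀ n, f n = ‖(T ^ n) x‖ ^ 2) → ‖X x‖ ^ 2 = L f) →
      (∀ (y : K) (μ : Measure ℂ), IsFiniteMeasure μ →
        μ (Metric.sphere (0 : ℂ) 1)ᶜ = 0 →
        (∀ n : ℕ, ∫ z, z ^ n ∂μ = ⟪y, (W ^ n) y⟫_ℂ) →
        μ ⟂ₘ Measure.map (fun t : ℝ => Complex.exp ((t : ℂ) * Complex.I))
          (volume.restrict (Set.Ioc 0 (2 * Real.pi)))) →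
      ∃ S : H ≃L[ℂ] K, ∀ v : H, S (T v) = W (S v)) := by
  intro hall
  -- parameters
  have hc1 : ∀ j : ℕ, (0 : ℝ) < 1 / ((j : ℝ) + 2) := fun j => by positivity
  have hc1' : ∀ j : ℕ, 1 / ((j : ℝ) + 2) ≤ 1 / 2 := fun j =>
    one_div_le_one_div_of_le (by norm_num) (by linarith [(Nat.cast_nonneg j : (0 : ℝ) ≤ j)])
  have hsq : ∀ j : ℕ, (1 / ((j : ℝ) + 2)) ^ 2 ≤ 1 / 4 := fun j => by
    have := pow_le_pow_left₀ (hc1 j).le (hc1' j) 2
    norm_num at this ⊢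
    exact this
  have hs : ∀ j : ℕ, (Real.sqrt (1 - (1 / ((j : ℝ) + 2)) ^ 2)) ^ 2 + (1 / ((j : ℝ) + 2)) ^ 2 = 1 :=
    fun j => by
      rw [Real.sq_sqrt (by linarith [hsq j])]
      ring
  have hc0 : ∀ j : ℕ, 1 / 2 < Real.sqrt (1 - (1 / ((j : ℝ) + 2)) ^ 2) := fun j => by
    rw [Real.lt_sqrt (by norm_num)]
    have := hsq j
    norm_num at this ⊢
    linarith
  have htower := fun j : ℕ => Tw3.exists_tower (hc1 j) ((hc1' j).trans_lt (hc0 j)) (hs j)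
  choose μ hμ U e hT using htower
  have hB : ∀ j, Block (U j) (Tw2.P (e j)) ((fun j : ℕ => (j : ℝ) + 2) j)
      ((fun j : ℕ => Real.sqrt (1 - (1 / ((j : ℝ) + 2)) ^ 2) * (1 / ((j : ℝ) + 2))) j) := fun j =>
    block_of_tower (hT j) (hs j) (hc0 j).le (hc1 j)
      (by linarith [(Nat.cast_nonneg j : (0 : ℝ) ≤ j)]) (by
        have : (j : ℝ) + 2 ≠ 0 := by positivity
        field_simp)
  obtain ⟨L, hL1, hL2, hL3, hL4⟩ := Tw4.exists_banach_limit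
  obtain ⟨S, hS⟩ := hall (lp (fun j => Lp ℂ 2 (μ j)) 2) (Tw7.T hB) ⟨4, T_pow_norm hB⟩ (C1 hB)
    (C2 hB) L hL1 hL2 hL3 (lp (fun j => Lp ℂ 2 (μ j)) 2) (Tw7.W U) (Tw7.X hB) (W_unitary U)
    (X_dense hB) (X_T hB) (by
      intro x f hf
      refine (hL4 f _ fun ε hε => ?_).symm
      have h1 := of_tendsto_Fw (orbit_tendsto hB x) ε hε
      obtain ⟨k0, hk0⟩ := h1
      refine ⟨k0, fun k hk n hn1 hn2 => ?_⟩
      rw [hf]
      exact hk0 k hk n hn1 hn2) (by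
      intro y μ' hμ' hsp hy
      exact Tw5.singular_of_avg (W_inner U) (Tw7.avg_tendsto hB) (Lam_tendsto hB) y μ' hsp hy)
  exact not_similar hB (tendsto_atTop_add_const_right _ _ tendsto_natCast_atTop_atTop) S hS

end Pool.Agent.S04032
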