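import Pool.Statements.S04036
-- import your own Pool.Agent.* helpers here

set_option autoImplicit false
open MeasureTheory Filter Topology
open scoped ENNReal
open Pool Pool.MP_c92a3e_an

namespace Pool.Agent.S04036

section aux

open Finset
open scoped InnerProductSpace

noncomputable abbrev μ : Measure ℕ := Measure.count
noncomputable abbrev H := Lp ℝ 2 μ

theorem ext_H {f g : H} (h : ∀ n, f n = g n) : f = g :=
  Lp.ext (Filter.Eventually.of_forall h)

theorem add_apply (f g : H) (n : ℕ) : (f + g) n = f n + g n :=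
  Measure.ae_count_iff.mp (Lp.coeFn_add f g) n

theorem sub_apply (f g : H) (n : ℕ) : (f - g) n = f n - g n :=
  Measure.ae_count_iff.mp (Lp.coeFn_sub f g) n

theorem smul_apply (c : ℝ) (f : H) (n : ℕ) : (c • f) n = c * f n :=
  Measure.ae_count_iff.mp (Lp.coeFn_smul c f) n

theorem summable_sq (f : H) : Summable (fun n => f n ^ 2) := by
  have := (Lp.memLp f).integrable_sq
  rw [integrable_count_iff] at this
  simpa using this

theorem summable_mul (f g : H) : Summable (fun n => f n * g n) := by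
  have := (Lp.memLp f).integrable_mul (Lp.memLp g)
  rw [integrable_count_iff] at this
  exact this.of_norm

theorem inner_eq (f g : H) : ⟪f, g⟫_ℝ = ∑' n, f n * g n := by
  rw [L2.inner_def, integral_countable]
  · congr 1
    ext n
    simp [Measure.real, mul_comm]
  · have := (Lp.memLp f).integrable_mul (Lp.memLp g)
    refine this.congr (Filter.Eventually.of_forall ?_)
    intro n
    simp [mul_comm]

theorem norm_sq (f : H) : ‖f‖ ^ 2 = ∑' n, f n ^ 2 := by
  rw [← real_inner_self_eq_norm_sq, inner_eq]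
  congr 1
  ext n
  ring

theorem memLp_of (g : ℕ → ℝ) (hg : Summable (fun n => g n ^ 2)) : MemLp g 2 μ := by
  rw [memLp_two_iff_integrable_sq (Measurable.of_discrete.aestronglyMeasurable), integrable_count_iff]
  simpa using hg

noncomputable def mkH (g : ℕ → ℝ) (hg : Summable (fun n => g n ^ 2)) : H := (memLp_of g hg).toLp g

theorem mkH_apply (g : ℕ → ℝ) (hg : Summable (fun n => g n ^ 2)) (n : ℕ) : mkH g hg n = g n :=
  Measure.ae_count_iff.mp (MemLp.coeFn_toLp (memLp_of g hg)) n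

noncomputable def e (m : ℕ) : H := mkH (fun n => if n = m then 1 else 0) (by
  apply summable_of_ne_finset_zero (s := {m})
  intro n hn
  simp at hn
  simp [hn])

theorem e_apply (m n : ℕ) : e m n = if n = m then 1 else 0 := mkH_apply _ _ _

theorem inner_e (f : H) (m : ℕ) : ⟪f, e m⟫_ℝ = f m := by
  rw [inner_eq, tsum_eq_single m]
  · simp [e_apply]
  · intro n hn
    simp [e_apply, hn]

theorem dense_span : (Submodule.span ℝ (Set.range e)).topologicalClosure = ⊤ := by
  rw [Submodule.topologicalClosure_eq_top_iff, Submodule.eq_bot_iff]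
  intro g hg
  apply ext_H
  intro n
  rw [← inner_e g n, real_inner_comm]
  rw [Submodule.mem_orthogonal] at hg
  rw [hg (e n) (Submodule.subset_span ⟨n, rfl⟩)]
  exact (Measure.ae_count_iff.mp (Lp.coeFn_zero ℝ 2 μ) n).symm

/-- bounded and coordinatewise null implies weakly null -/
theorem weak_null {ι : Type} {l : Filter ι} (u : ι → H) (C : ℝ) (hC : ∀ i, ‖u i‖ ≤ C)
    (hu : ∀ m, Tendsto (fun i => u i m) l (𝓝 0)) (g : H) : Tendsto (fun i => ⟪u i, g⟫_ℝ) l (𝓝 0) := by
  have h1 : ∀ g ∈ Submodule.span ℝ (Set.range e), Tendsto (fun i => ⟪u i, g⟫_ℝ) l (𝓝 0) := by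
    intro g hg
    induction hg using Submodule.span_induction with
    | mem x hx =>
      obtain ⟨m, rfl⟩ := hx
      simp only [inner_e]
      exact hu m
    | zero =>
      simp only [inner_zero_right]
      exact tendsto_const_nhds
    | add x y _ _ hx hy =>
      simp only [inner_add_right]
      simpa using hx.add hy
    | smul c x _ hx =>
      simp only [inner_smul_right]
      simpa using hx.const_mul c
  rw [Metric.tendsto_nhds]
  intro ε hε
  have hg : g ∈ (Submodule.span ℝ (Set.range e)).topologicalClosure := by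
    rw [dense_span]; trivial
  have hg' : g ∈ closure ((Submodule.span ℝ (Set.range e) : Submodule ℝ H) : Set H) := hg
  rw [Metric.mem_closure_iff] at hg'
  have hC1 : 0 < |C| + 1 := by positivity
  obtain ⟨g', hg'1, hg'2⟩ := hg' (ε / (2 * (|C| + 1))) (by positivity)
  have h2 := (Metric.tendsto_nhds.mp (h1 g' hg'1)) (ε / 2) (by positivity)
  filter_upwards [h2] with i hi
  rw [Real.dist_eq, sub_zero] at hi ⊢
  have h3 : ⟪u i, g⟫_ℝ = ⟪u i, g'⟫_ℝ + ⟪u i, g - g'⟫_ℝ := by
    rw [← inner_add_right]; congr 1; abel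
  rw [h3]
  have h4 : |⟪u i, g - g'⟫_ℝ| ≤ ε / 2 := by
    refine (abs_real_inner_le_norm _ _).trans ?_
    rw [dist_eq_norm] at hg'2
    calc ‖u i‖ * ‖g - g'‖ ≤ (|C| + 1) * (ε / (2 * (|C| + 1))) := by
          apply mul_le_mul _ hg'2.le (norm_nonneg _) hC1.le
          have := hC i
          have := le_abs_self C
          linarith
      _ = ε / 2 := by field_simp
  have := abs_add_le ⟪u i, g'⟫_ℝ ⟪u i, g - g'⟫_ℝ
  linarith

/-! kernels -/

noncomputable def a (q : ℝ) (m n : ℕ) : ℝ := ((m + 1).choose (n + 1) : ℝ) * q ^ (n + 1) * (1 - q) ^ (m - n)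
noncomputable def b (q : ℝ) (m n : ℕ) : ℝ := (m.choose n : ℝ) * q ^ (n + 1) * (1 - q) ^ (m - n)
noncomputable def K (q : ℝ) (m n : ℕ) : ℝ :=
  Real.sqrt (((m : ℝ) + 1) / ((n : ℝ) + 1)) * b q m n

theorem K_zero (q : ℝ) {m n : ℕ} (h : m < n) : K q m n = 0 := by
  unfold K b
  rw [Nat.choose_eq_zero_of_lt h]
  simp

theorem b_zero (q : ℝ) {m n : ℕ} (h : m < n) : b q m n = 0 := by
  unfold b
  rw [Nat.choose_eq_zero_of_lt h]
  simp

section

variable {q : ℝ} (hq0 : 0 ≤ q) (hq1 : q ≤ 1)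

include hq0 hq1

theorem a_nonneg (m n : ℕ) : 0 ≤ a q m n := by
  have : 0 ≤ 1 - q := by linarith
  unfold a; positivity

theorem b_nonneg (m n : ℕ) : 0 ≤ b q m n := by
  have : 0 ≤ 1 - q := by linarith
  unfold b; positivity

theorem K_nonneg (m n : ℕ) : 0 ≤ K q m n := by
  have := b_nonneg hq0 hq1 m n
  unfold K; positivity

omit hq0 hq1 in
theorem K_sq (m n : ℕ) : K q m n ^ 2 = a q m n * b q m n := by
  unfold K a b
  have h1 : ((m + 1).choose (n + 1) : ℝ) * ((n : ℝ) + 1) = ((m : ℝ) + 1) * (m.choose n : ℝ) := by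
    have := Nat.add_one_mul_choose_eq m n
    exact_mod_cast this.symm
  have hn : ((n : ℝ) + 1) ≠ 0 := by positivity
  rw [mul_pow, Real.sq_sqrt (by positivity)]
  have h2 : ((m + 1).choose (n + 1) : ℝ) = ((m : ℝ) + 1) * (m.choose n : ℝ) / ((n : ℝ) + 1) := by
    rw [eq_div_iff hn]
    exact h1
  rw [h2]
  field_simp

theorem sum_a (m : ℕ) : ∑ n ∈ range (m + 1), a q m n ≤ 1 := by
  have h := add_pow q (1 - q) (m + 1)
  rw [Finset.sum_range_succ'] at h
  have h0 : 0 ≤ 1 - q := by linarith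
  have h1 : ∑ n ∈ range (m + 1), a q m n = ∑ k ∈ range (m + 1), q ^ (k + 1) * (1 - q) ^ (m + 1 - (k + 1)) * ((m + 1).choose (k + 1) : ℝ) := by
    apply sum_congr rfl
    intro n _
    unfold a
    rw [Nat.add_sub_add_right]
    ring
  rw [h1]
  have h2 : (q + (1 - q)) ^ (m + 1) = 1 := by
    rw [add_sub_cancel, one_pow]
  have h3 : 0 ≤ q ^ 0 * (1 - q) ^ (m + 1 - 0) * ((m + 1).choose 0 : ℝ) := by positivity
  linarith

theorem sum_b (n M : ℕ) : ∑ m ∈ range M, b q m n ≤ 1 := by
  rcases hq0.eq_or_lt with h | hpos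
  · have : ∑ m ∈ range M, b q m n = 0 := by
      apply sum_eq_zero
      intro m _
      unfold b
      rw [← h]
      simp
    rw [this]
    exact zero_le_one
  · have h0 : 0 ≤ 1 - q := by linarith
    have h1 : ‖1 - q‖ < 1 := by
      rw [Real.norm_eq_abs, abs_of_nonneg h0]
      linarith
    have hs := hasSum_choose_mul_geometric_of_norm_lt_one n h1
    have h2 : ∑ m ∈ range M, b q m n ≤ ∑ m ∈ range (n + M), b q m n := by
      apply sum_le_sum_of_subset_of_nonneg
      · intro x hx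
        rw [mem_range] at hx ⊢
        omega
      · intro m _ _
        exact b_nonneg hq0 hq1 m n
    refine h2.trans ?_
    rw [sum_range_add]
    have h3 : ∑ m ∈ range n, b q m n = 0 := by
      apply sum_eq_zero
      intro m hm
      exact b_zero q (mem_range.mp hm)
    rw [h3, zero_add]
    have h4 : ∑ j ∈ range M, b q (n + j) n = q ^ (n + 1) * ∑ j ∈ range M, ((j + n).choose n : ℝ) * (1 - q) ^ j := by
      rw [mul_sum]
      apply sum_congr rfl
      intro j _
      unfold b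
      rw [Nat.add_sub_cancel_left, add_comm n j]
      ring
    rw [h4]
    have h5 : ∑ j ∈ range M, ((j + n).choose n : ℝ) * (1 - q) ^ j ≤ 1 / (1 - (1 - q)) ^ (n + 1) := by
      apply sum_le_hasSum _ _ hs
      intro j _
      positivity
    rw [sub_sub_cancel] at h5
    calc q ^ (n + 1) * ∑ j ∈ range M, ((j + n).choose n : ℝ) * (1 - q) ^ j
        ≤ q ^ (n + 1) * (1 / q ^ (n + 1)) := by gcongr
      _ = 1 := by field_simp

theorem sum_bound (f : H) (M : ℕ) :
    ∑ m ∈ range M, (∑ n ∈ range (m + 1), K q m n * f n) ^ 2 ≤ ‖f‖ ^ 2 := by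
  have h1 : ∀ m ∈ range M, (∑ n ∈ range (m + 1), K q m n * f n) ^ 2 ≤ ∑ n ∈ range M, b q m n * f n ^ 2 := by
    intro m hm
    have h2 := Finset.sum_sq_le_sum_mul_sum_of_sq_le_mul (range (m + 1)) (r := fun n => K q m n * f n)
      (f := fun n => a q m n) (g := fun n => b q m n * f n ^ 2)
      (fun n _ => a_nonneg hq0 hq1 m n)
      (fun n _ => mul_nonneg (b_nonneg hq0 hq1 m n) (sq_nonneg _))
      (fun n _ => le_of_eq (by rw [mul_pow, K_sq]; ring))
    refine h2.trans ?_
    have h3 : 0 ≤ ∑ n ∈ range (m + 1), b q m n * f n ^ 2 :=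
      sum_nonneg (fun n _ => mul_nonneg (b_nonneg hq0 hq1 m n) (sq_nonneg _))
    have h4 : (∑ n ∈ range (m + 1), a q m n) * ∑ n ∈ range (m + 1), b q m n * f n ^ 2
        ≤ 1 * ∑ n ∈ range (m + 1), b q m n * f n ^ 2 :=
      mul_le_mul_of_nonneg_right (sum_a hq0 hq1 m) h3
    rw [one_mul] at h4
    refine h4.trans ?_
    apply sum_le_sum_of_subset_of_nonneg
    · intro x hx
      rw [mem_range] at hx hm ⊢
      omega
    · intro n _ _
      exact mul_nonneg (b_nonneg hq0 hq1 m n) (sq_nonneg _)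
  refine (sum_le_sum h1).trans ?_
  rw [sum_comm]
  have h2 : ∀ n ∈ range M, ∑ m ∈ range M, b q m n * f n ^ 2 ≤ f n ^ 2 := by
    intro n _
    rw [← sum_mul]
    exact mul_le_of_le_one_left (sq_nonneg _) (sum_b hq0 hq1 n M)
  refine (sum_le_sum h2).trans ?_
  rw [norm_sq]
  exact (summable_sq f).sum_le_tsum _ (fun n _ => sq_nonneg _)

theorem summable_K (f : H) : Summable (fun m => (∑ n ∈ range (m + 1), K q m n * f n) ^ 2) :=
  summable_of_sum_range_le (fun _ => sq_nonneg _) (sum_bound hq0 hq1 f)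

end

noncomputable def Op (q : ℝ) (hq0 : 0 ≤ q) (hq1 : q ≤ 1) : H →L[ℝ] H :=
  LinearMap.mkContinuous
    { toFun := fun f => mkH (fun m => ∑ n ∈ range (m + 1), K q m n * f n) (summable_K hq0 hq1 f)
      map_add' := by
        intro f g
        apply ext_H
        intro m
        rw [add_apply, mkH_apply, mkH_apply, mkH_apply, ← sum_add_distrib]
        apply sum_congr rfl
        intro n _
        rw [add_apply]
        ring
      map_smul' := by
        intro c f
        apply ext_H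
        intro m
        rw [RingHom.id_apply, smul_apply, mkH_apply, mkH_apply, mul_sum]
        apply sum_congr rfl
        intro n _
        rw [smul_apply]
        ring } 1 (by
    intro f
    rw [one_mul]
    simp only [LinearMap.coe_mk, AddHom.coe_mk]
    apply le_of_sq_le_sq _ (norm_nonneg _)
    rw [norm_sq]
    simp only [mkH_apply]
    exact Real.tsum_le_of_sum_range_le (fun _ => sq_nonneg _) (sum_bound hq0 hq1 f))

theorem Op_apply (q : ℝ) (hq0 : 0 ≤ q) (hq1 : q ≤ 1) (f : H) (m : ℕ) :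
    Op q hq0 hq1 f m = ∑ n ∈ range (m + 1), K q m n * f n := mkH_apply _ (summable_K hq0 hq1 f) _

theorem norm_Op_le (q : ℝ) (hq0 : 0 ≤ q) (hq1 : q ≤ 1) (f : H) : ‖Op q hq0 hq1 f‖ ≤ ‖f‖ := by
  apply le_of_sq_le_sq _ (norm_nonneg _)
  rw [norm_sq]
  simp only [Op_apply]
  exact Real.tsum_le_of_sum_range_le (fun _ => sq_nonneg _) (sum_bound hq0 hq1 f)

theorem K_one (m n : ℕ) (h : n ≤ m) : K 1 m n = if n = m then 1 else 0 := by
  unfold K b
  split_ifs with hmn
  · subst hmn
    have : ((n : ℝ) + 1) ≠ 0 := by positivity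
    simp [this]
  · have : m - n ≠ 0 := by omega
    simp [this]

theorem Op_one (f : H) : Op 1 zero_le_one le_rfl f = f := by
  apply ext_H
  intro m
  rw [Op_apply, sum_eq_single m]
  · rw [K_one m m le_rfl]; simp
  · intro n hn hne
    rw [mem_range] at hn
    rw [K_one m n (by omega), if_neg hne, zero_mul]
  · intro h
    simp at h

theorem K_comp (q r : ℝ) (l n : ℕ) (h : n ≤ l) :
    ∑ m ∈ range (l + 1), K q l m * K r m n = K (q * r) l n := by
  have h1 : ∀ m ∈ range (l + 1), K q l m * K r m n = Real.sqrt (((l : ℝ) + 1) / ((n : ℝ) + 1)) * (b q l m * b r m n) := by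
    intro m _
    unfold K
    have : Real.sqrt (((l : ℝ) + 1) / ((n : ℝ) + 1)) = Real.sqrt (((l : ℝ) + 1) / ((m : ℝ) + 1)) * Real.sqrt (((m : ℝ) + 1) / ((n : ℝ) + 1)) := by
      rw [← Real.sqrt_mul (by positivity)]
      congr 1
      have : ((m : ℝ) + 1) ≠ 0 := by positivity
      field_simp
    rw [this]
    ring
  rw [sum_congr rfl h1, ← mul_sum]
  unfold K
  congr 1
  obtain ⟨d, rfl⟩ := Nat.exists_eq_add_of_le h
  have h2 : n + d + 1 = n + (d + 1) := by ring
  rw [h2, sum_range_add]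
  have h3 : ∑ m ∈ range n, b q (n + d) m * b r m n = 0 := by
    apply sum_eq_zero
    intro m hm
    rw [b_zero r (mem_range.mp hm), mul_zero]
  rw [h3, zero_add]
  have h4 := add_pow (q * (1 - r)) (1 - q) d
  have h5 : ∀ j ∈ range (d + 1), b q (n + d) (n + j) * b r (n + j) n =
      (((n + d).choose n : ℝ) * (q * r) ^ (n + 1)) * ((q * (1 - r)) ^ j * (1 - q) ^ (d - j) * (d.choose j : ℝ)) := by
    intro j hj
    rw [mem_range] at hj
    unfold b
    have h6 : (n + d).choose (n + j) * (n + j).choose n = (n + d).choose n * d.choose j := by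
      have := Nat.choose_mul (n := n + d) (k := n + j) (s := n) (by omega)
      rw [this]
      congr 2 <;> omega
    have h6' : ((n + d).choose (n + j) : ℝ) * ((n + j).choose n : ℝ) = ((n + d).choose n : ℝ) * (d.choose j : ℝ) := by
      exact_mod_cast h6
    have h7 : n + d - (n + j) = d - j := by omega
    have h8 : n + j - n = j := by omega
    rw [h7, h8]
    calc ((n + d).choose (n + j) : ℝ) * q ^ (n + j + 1) * (1 - q) ^ (d - j) * (((n + j).choose n : ℝ) * r ^ (n + 1) * (1 - r) ^ j)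
        = (((n + d).choose (n + j) : ℝ) * ((n + j).choose n : ℝ)) * (q ^ (n + j + 1) * (1 - q) ^ (d - j) * r ^ (n + 1) * (1 - r) ^ j) := by ring
      _ = _ := by
        rw [h6', mul_pow, mul_pow]
        have h9 : n + j + 1 = (n + 1) + j := by ring
        rw [h9, pow_add]
        ring
  rw [sum_congr rfl h5, ← mul_sum, ← h4]
  unfold b
  rw [Nat.add_sub_cancel_left]
  congr 2
  ring

theorem Op_comp (q r : ℝ) (hq0 : 0 ≤ q) (hq1 : q ≤ 1) (hr0 : 0 ≤ r) (hr1 : r ≤ 1) (f : H) :
    Op q hq0 hq1 (Op r hr0 hr1 f) = Op (q * r) (mul_nonneg hq0 hr0) (mul_le_one₀ hq1 hr0 hr1) f := by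
  apply ext_H
  intro l
  rw [Op_apply, Op_apply]
  have h1 : ∀ m ∈ range (l + 1), K q l m * (Op r hr0 hr1 f) m = ∑ n ∈ range (l + 1), K q l m * K r m n * f n := by
    intro m hm
    rw [mem_range] at hm
    rw [Op_apply, mul_sum]
    rw [← sum_subset (s₁ := range (m + 1)) (s₂ := range (l + 1))]
    · apply sum_congr rfl
      intro n _
      ring
    · intro x hx
      rw [mem_range] at hx ⊢
      omega
    · intro n _ hn
      rw [mem_range] at hn
      rw [K_zero r (by omega)]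
      ring
  rw [sum_congr rfl h1, sum_comm]
  apply sum_congr rfl
  intro n hn
  rw [mem_range] at hn
  rw [← sum_mul, K_comp q r l n (by omega)]


/-! the semigroup -/

theorem q_nonneg (t : ℝ) : 0 ≤ Real.exp (-|t|) := (Real.exp_pos _).le
theorem q_le_one (t : ℝ) : Real.exp (-|t|) ≤ 1 := by
  rw [Real.exp_le_one_iff]
  exact neg_nonpos.mpr (abs_nonneg t)

noncomputable def T (t : ℝ) : H →L[ℝ] H := Op (Real.exp (-|t|)) (q_nonneg t) (q_le_one t)

theorem T_apply (t : ℝ) (f : H) (m : ℕ) :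
    T t f m = ∑ n ∈ range (m + 1), K (Real.exp (-|t|)) m n * f n := Op_apply _ _ _ _ _

theorem norm_T_le (t : ℝ) (f : H) : ‖T t f‖ ≤ ‖f‖ := norm_Op_le _ _ _ _

theorem Op_congr {q r : ℝ} (h : q = r) (hq0 : 0 ≤ q) (hq1 : q ≤ 1) (hr0 : 0 ≤ r) (hr1 : r ≤ 1) :
    Op q hq0 hq1 = Op r hr0 hr1 := by subst h; rfl

theorem T_zero : T 0 = ContinuousLinearMap.id ℝ H := by
  ext1 f
  unfold T
  rw [Op_congr (show Real.exp (-|(0 : ℝ)|) = 1 by simp) (q_nonneg 0) (q_le_one 0) zero_le_one le_rfl, Op_one]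
  rfl

theorem T_add {s t : ℝ} (hs : 0 ≤ s) (ht : 0 ≤ t) : T (s + t) = (T s).comp (T t) := by
  ext1 f
  rw [ContinuousLinearMap.comp_apply]
  unfold T
  rw [Op_comp]
  rw [Op_congr]
  rw [← Real.exp_add, abs_of_nonneg hs, abs_of_nonneg ht, abs_of_nonneg (add_nonneg hs ht)]
  congr 1
  ring

theorem continuous_K (m n : ℕ) : Continuous (fun q : ℝ => K q m n) := by
  unfold K b
  fun_prop

theorem tendsto_coord (f : H) (m : ℕ) : Tendsto (fun h : ℝ => (T h f) m) (𝓝 0) (𝓝 (f m)) := by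
  have h1 : Continuous (fun h : ℝ => (T h f) m) := by
    simp only [T_apply]
    apply continuous_finsetSum
    intro n _
    have : Continuous (fun h : ℝ => Real.exp (-|h|)) := by fun_prop
    exact ((continuous_K m n).comp this).mul continuous_const
  have h2 := h1.tendsto 0
  rwa [T_zero] at h2

theorem norm_diff_sq (h : ℝ) (f : H) : ‖T h f - f‖ ^ 2 ≤ -2 * ⟪T h f - f, f⟫_ℝ := by
  have h1 := norm_sub_sq_real (T h f) f
  have h2 := norm_T_le h f
  have h3 : ‖T h f‖ ^ 2 ≤ ‖f‖ ^ 2 := by gcongr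
  rw [h1, inner_sub_left, real_inner_self_eq_norm_sq]
  linarith

theorem tendsto_zero (f : H) : Tendsto (fun h : ℝ => ‖T h f - f‖) (𝓝 0) (𝓝 0) := by
  have h1 : Tendsto (fun h : ℝ => ⟪T h f - f, f⟫_ℝ) (𝓝 0) (𝓝 0) := by
    apply weak_null _ (‖f‖ + ‖f‖)
    · intro h
      exact (norm_sub_le _ _).trans (add_le_add_left (norm_T_le h f) _)
    · intro m
      have h2 := (tendsto_coord f m).sub_const (f m)
      rw [sub_self] at h2
      refine h2.congr ?_
      intro h
      rw [sub_apply]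
  have h2 : Tendsto (fun h : ℝ => ‖T h f - f‖ ^ 2) (𝓝 0) (𝓝 0) := by
    have h3 := h1.const_mul (-2)
    rw [mul_zero] at h3
    exact squeeze_zero (fun _ => sq_nonneg _) (fun h => norm_diff_sq h f) h3
  have h4 := (Real.continuous_sqrt.tendsto 0).comp h2
  rw [Real.sqrt_zero] at h4
  refine h4.congr ?_
  intro h
  simp [Real.sqrt_sq (norm_nonneg _)]

theorem norm_diff_le (s t : ℝ) (f : H) : ‖T t f - T s f‖ ≤ ‖T (|t| - |s|) f - f‖ := by
  have key : ∀ s t : ℝ, 0 ≤ s → s ≤ t → ‖T t f - T s f‖ ≤ ‖T (t - s) f - f‖ := by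
    intro s t hs hst
    have h1 : T t f = T s (T (t - s) f) := by
      have := T_add hs (sub_nonneg.mpr hst)
      rw [add_sub_cancel] at this
      rw [this]
      rfl
    rw [h1, ← map_sub]
    exact norm_T_le _ _
  have habs : ∀ t, T |t| = T t := by
    intro t
    unfold T
    simp only [abs_abs]
  have hneg : ∀ t, T (-t) = T t := by
    intro t
    unfold T
    simp only [abs_neg]
  rcases le_total |s| |t| with h | h
  · have := key |s| |t| (abs_nonneg s) h
    rwa [habs, habs] at this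
  · have := key |t| |s| (abs_nonneg t) h
    rw [habs, habs, norm_sub_rev] at this
    rwa [← hneg (|s| - |t|), neg_sub] at this

theorem continuous_T (f : H) : Continuous (fun t => T t f) := by
  rw [continuous_iff_continuousAt]
  intro s
  unfold ContinuousAt
  rw [tendsto_iff_norm_sub_tendsto_zero]
  have h1 : Tendsto (fun t : ℝ => |t| - |s|) (𝓝 s) (𝓝 0) := by
    have : Continuous (fun t : ℝ => |t| - |s|) := by fun_prop
    have h2 := this.tendsto s
    rwa [sub_self] at h2
  exact squeeze_zero (fun _ => norm_nonneg _) (fun t => norm_diff_le s t f) ((tendsto_zero f).comp h1)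

theorem tendsto_q : Tendsto (fun t : ℝ => Real.exp (-|t|)) atTop (𝓝 0) := by
  have h1 : Tendsto (fun t : ℝ => |t|) atTop atTop := tendsto_abs_atTop_atTop
  exact Real.tendsto_exp_neg_atTop_nhds_zero.comp h1

theorem K_at_zero (m n : ℕ) : K 0 m n = 0 := by
  unfold K b
  simp

theorem tendsto_coord_atTop (f : H) (m : ℕ) : Tendsto (fun t : ℝ => (T t f) m) atTop (𝓝 0) := by
  simp only [T_apply]
  have h1 : ∀ n ∈ range (m + 1), Tendsto (fun t : ℝ => K (Real.exp (-|t|)) m n * f n) atTop (𝓝 0) := by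
    intro n _
    have h2 := ((continuous_K m n).tendsto 0).comp tendsto_q
    rw [K_at_zero] at h2
    simpa using h2.mul_const (f n)
  have h3 := tendsto_finsetSum (range (m + 1)) h1
  simpa using h3

theorem T_nat (N : ℕ) (f g : H) (hg : ∀ f, ⟪T 1 f - f, g⟫_ℝ = 0) : ⟪T N f, g⟫_ℝ = ⟪f, g⟫_ℝ := by
  induction N with
  | zero => simp [T_zero]
  | succ N ih =>
    have h1 : T ((N + 1 : ℕ) : ℝ) f = T 1 (T N f) := by
      have := T_add (s := 1) (t := N) zero_le_one (Nat.cast_nonneg N)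
      rw [add_comm] at this
      push_cast
      rw [this]
      rfl
    rw [h1]
    have h2 := hg (T N f)
    rw [inner_sub_left] at h2
    linarith

theorem dense_range : (LinearMap.range ((T 1 - ContinuousLinearMap.id ℝ H : H →L[ℝ] H) : H →ₗ[ℝ] H)).topologicalClosure = ⊤ := by
  rw [Submodule.topologicalClosure_eq_top_iff, Submodule.eq_bot_iff]
  intro g hg
  rw [Submodule.mem_orthogonal] at hg
  have hg' : ∀ f, ⟪T 1 f - f, g⟫_ℝ = 0 := by
    intro f
    exact hg _ ⟨f, rfl⟩
  apply ext_H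
  intro n
  have h1 : ∀ N : ℕ, ⟪T N (e n), g⟫_ℝ = ⟪e n, g⟫_ℝ := fun N => T_nat N (e n) g hg'
  have h2 : Tendsto (fun N : ℕ => ⟪T N (e n), g⟫_ℝ) atTop (𝓝 0) := by
    apply weak_null _ ‖e n‖ (fun N => norm_T_le _ _)
    intro m
    exact (tendsto_coord_atTop (e n) m).comp tendsto_natCast_atTop_atTop
  have h3 : ⟪e n, g⟫_ℝ = 0 := by
    refine tendsto_nhds_unique ?_ h2
    simp only [h1]
    exact tendsto_const_nhds
  rw [real_inner_comm, inner_e] at h3
  rw [h3]
  exact (Measure.ae_count_iff.mp (Lp.coeFn_zero ℝ 2 μ) n).symm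

noncomputable def A (s : ℝ) (f : H) : H := s⁻¹ • ∫ t in (0:ℝ)..s, T t f

theorem intervalIntegrable (f : H) (a b : ℝ) : IntervalIntegrable (fun t => T t f) volume a b :=
  (continuous_T f).intervalIntegrable a b

theorem norm_int_le (f : H) (a b : ℝ) : ‖∫ t in a..b, T t f‖ ≤ ‖f‖ * |b - a| :=
  intervalIntegral.norm_integral_le_of_norm_le_const (fun t _ => norm_T_le t f)

theorem norm_A_le (s : ℝ) (f : H) : ‖A s f‖ ≤ ‖f‖ := by
  unfold A
  rw [norm_smul]
  have h1 := norm_int_le f 0 s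
  rw [sub_zero] at h1
  rcases eq_or_ne s 0 with h | h
  · simp [h]
  · calc ‖s⁻¹‖ * ‖∫ t in (0:ℝ)..s, T t f‖ ≤ ‖s⁻¹‖ * (‖f‖ * |s|) := by gcongr
      _ = ‖f‖ := by
        rw [norm_inv, Real.norm_eq_abs]
        have : |s| ≠ 0 := abs_ne_zero.mpr h
        field_simp

theorem A_sub (s : ℝ) (f g : H) : A s (f - g) = A s f - A s g := by
  unfold A
  rw [← smul_sub, ← intervalIntegral.integral_sub (intervalIntegrable f 0 s) (intervalIntegrable g 0 s)]
  simp only [map_sub]

theorem tendsto_A_range (g : H) : Tendsto (fun s => A s (T 1 g - g)) atTop (𝓝 0) := by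
  have h1 : ∀ s : ℝ, 0 < s → ‖A s (T 1 g - g)‖ ≤ 2 * ‖g‖ * s⁻¹ := by
    intro s hs
    unfold A
    rw [norm_smul, norm_inv, Real.norm_eq_abs, abs_of_pos hs]
    have h2 : ∫ t in (0:ℝ)..s, T t (T 1 g - g) = (∫ t in (s)..(s+1), T t g) - ∫ t in (0:ℝ)..1, T t g := by
      have h3 : ∫ t in (0:ℝ)..s, T t (T 1 g - g) = ∫ t in (0:ℝ)..s, (T (t + 1) g - T t g) := by
        apply intervalIntegral.integral_congr
        intro t ht
        rw [Set.uIcc_of_le hs.le] at ht
        simp only [map_sub]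
        rw [T_add ht.1 zero_le_one]
        rfl
      rw [h3]
      have hc : Continuous (fun t : ℝ => T (t + 1) g) := (continuous_T g).comp (continuous_add_const 1)
      rw [intervalIntegral.integral_sub (hc.intervalIntegrable 0 s) (intervalIntegrable g 0 s)]
      rw [intervalIntegral.integral_comp_add_right (fun t => T t g) 1, zero_add]
      have h4 := intervalIntegral.integral_add_adjacent_intervals (intervalIntegrable g 0 1) (intervalIntegrable g 1 (s+1))
      have h5 := intervalIntegral.integral_add_adjacent_intervals (intervalIntegrable g 0 s) (intervalIntegrable g s (s+1))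
      rw [← h5] at h4
      have : ∫ t in (1:ℝ)..(s+1), T t g = ((∫ t in (0:ℝ)..s, T t g) + ∫ t in (s)..(s+1), T t g) - ∫ t in (0:ℝ)..1, T t g := by
        rw [← h4]; abel
      rw [this]
      abel
    rw [h2]
    have h6 := norm_int_le g s (s+1)
    have h7 := norm_int_le g 0 1
    have h8 := norm_sub_le (∫ t in (s)..(s+1), T t g) (∫ t in (0:ℝ)..1, T t g)
    have h9 : |s + 1 - s| = 1 := by rw [add_sub_cancel_left]; simp
    rw [h9, mul_one] at h6
    rw [sub_zero, abs_one, mul_one] at h7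
    have h10 : ‖(∫ t in (s)..(s+1), T t g) - ∫ t in (0:ℝ)..1, T t g‖ ≤ 2 * ‖g‖ := by linarith
    rw [mul_comm]
    gcongr
  apply squeeze_zero_norm' (a := fun s => 2 * ‖g‖ * s⁻¹)
  · filter_upwards [eventually_gt_atTop 0] with s hs
    exact h1 s hs
  · have := tendsto_inv_atTop_zero (𝕜 := ℝ)
    simpa using this.const_mul (2 * ‖g‖)

theorem tendsto_A (f : H) : Tendsto (fun s => A s f) atTop (𝓝 0) := by
  rw [Metric.tendsto_nhds]
  intro ε hε
  have hf : f ∈ (LinearMap.range ((T 1 - ContinuousLinearMap.id ℝ H : H →L[ℝ] H) : H →ₗ[ℝ] H)).topologicalClosure := by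
    rw [dense_range]; trivial
  have hf' : f ∈ closure ((LinearMap.range ((T 1 - ContinuousLinearMap.id ℝ H : H →L[ℝ] H) : H →ₗ[ℝ] H) : Submodule ℝ H) : Set H) := hf
  rw [Metric.mem_closure_iff] at hf'
  obtain ⟨_, ⟨g, rfl⟩, hg⟩ := hf' (ε / 2) (by positivity)
  have hg' : ‖f - (T 1 g - g)‖ < ε / 2 := by
    rw [dist_eq_norm] at hg
    exact hg
  have h1 := Metric.tendsto_nhds.mp (tendsto_A_range g) (ε / 2) (by positivity)
  filter_upwards [h1] with s hs
  rw [dist_zero_right] at hs ⊢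
  have h2 : A s f = A s (T 1 g - g) + A s (f - (T 1 g - g)) := by
    rw [A_sub s f]
    abel
  rw [h2]
  have h3 := norm_add_le (A s (T 1 g - g)) (A s (f - (T 1 g - g)))
  have h4 := norm_A_le s (f - (T 1 g - g))
  linarith

theorem K_col_zero (q : ℝ) (m : ℕ) : K q m 0 ^ 2 = ((m : ℝ) + 1) * q ^ 2 * ((1 - q) ^ 2) ^ m := by
  rw [K_sq]
  unfold a b
  have h : ((1 - q) ^ 2) ^ m = (1 - q) ^ m * (1 - q) ^ m := by rw [← pow_mul, two_mul, pow_add]
  rw [h]
  simp
  ring

theorem norm_T_e0 (t : ℝ) : 1 / 4 ≤ ‖T t (e 0)‖ ^ 2 := by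
  rw [norm_sq]
  set q := Real.exp (-|t|) with hq
  have hq0 : 0 < q := Real.exp_pos _
  have hq1 : q ≤ 1 := q_le_one t
  have h1 : ∀ m, T t (e 0) m = K q m 0 := by
    intro m
    rw [T_apply, sum_eq_single 0]
    · simp [e_apply, hq]
    · intro n _ hn
      simp [e_apply, hn]
    · intro h
      simp at h
  have h2 : (fun m => T t (e 0) m ^ 2) = fun m : ℕ => q ^ 2 * (((m + 1).choose 1 : ℝ) * ((1 - q) ^ 2) ^ m) := by
    funext m
    rw [h1, K_col_zero]
    simp
    ring
  rw [h2, tsum_mul_left]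
  have h3 : ‖(1 - q) ^ 2‖ < 1 := by
    rw [Real.norm_eq_abs, abs_of_nonneg (sq_nonneg _)]
    nlinarith
  have h4 := tsum_choose_mul_geometric_of_norm_lt_one 1 h3
  rw [h4]
  have h5 : 1 - (1 - q) ^ 2 = q * (2 - q) := by ring
  rw [h5]
  have h6 : 0 < 2 - q := by linarith
  have h7 : q ^ 2 * (1 / (q * (2 - q)) ^ (1 + 1)) = 1 / (2 - q) ^ 2 := by
    field_simp
    ring
  rw [h7]
  rw [div_le_div_iff₀ (by norm_num) (by positivity)]
  nlinarith

theorem not_conv : ¬ ∃ g : H, Tendsto (fun t : ℝ => T t (e 0)) atTop (𝓝 g) := by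
  rintro ⟨g, hg⟩
  have h1 : g = 0 := by
    apply ext_H
    intro m
    have h2 : Tendsto (fun t : ℝ => ⟪T t (e 0), e m⟫_ℝ) atTop (𝓝 ⟪g, e m⟫_ℝ) :=
      hg.inner tendsto_const_nhds
    simp only [inner_e] at h2
    have h3 := tendsto_nhds_unique h2 (tendsto_coord_atTop (e 0) m)
    rw [h3]
    exact (Measure.ae_count_iff.mp (Lp.coeFn_zero ℝ 2 μ) m).symm
  have h4 : Tendsto (fun t : ℝ => ‖T t (e 0)‖ ^ 2) atTop (𝓝 (‖g‖ ^ 2)) := hg.norm.pow 2
  have h5 : (1 : ℝ) / 4 ≤ ‖g‖ ^ 2 := ge_of_tendsto' h4 (fun t => norm_T_e0 t)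
  rw [h1] at h5
  norm_num at h5

theorem kernel (t : ℝ) : ∃ k : ℕ × ℕ → ℝ, Measurable k ∧ (∀ z, 0 ≤ k z) ∧
        ∀ f : Lp ℝ 2 μ, ∀ᵐ x ∂μ, Integrable (fun y => k (x, y) * f y) μ ∧
          T t f x = ∫ y, k (x, y) * f y ∂μ := by
  refine ⟨fun z => K (Real.exp (-|t|)) z.1 z.2, Measurable.of_discrete, fun z => K_nonneg (q_nonneg t) (q_le_one t) _ _, ?_⟩
  intro f
  apply Filter.Eventually.of_forall
  intro x
  have hzero : ∀ y ∉ range (x + 1), K (Real.exp (-|t|)) x y * f y = 0 := by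
    intro y hy
    rw [mem_range] at hy
    rw [K_zero _ (by omega), zero_mul]
  have hint : Integrable (fun y => K (Real.exp (-|t|)) x y * f y) μ := by
    rw [integrable_count_iff]
    apply summable_of_ne_finset_zero (s := range (x + 1))
    intro y hy
    rw [hzero y hy, norm_zero]
  refine ⟨hint, ?_⟩
  rw [integral_countable hint, T_apply, tsum_eq_sum (s := range (x + 1))]
  · apply sum_congr rfl
    intro y _
    simp [Measure.real]
  · intro y hy
    rw [hzero y hy, smul_zero]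

end aux


/-- The negation of the preceding statement: On real L^p of a σ-finite measure, 1≤p≤∞, every strongly continuous semigroup whose operators at t>0 are positive kernel operators and whose Cesàro means converge for every f also has T_t f convergent as t→∞ for every f. -/
theorem result :
    ¬ (∀ (Ω : Type) [MeasurableSpace Ω] (μ : Measure Ω) [SigmaFinite μ] (p : ℝ≥0∞) [Fact (1 ≤ p)]
    (T : ℝ → Lp ℝ p μ →L[ℝ] Lp ℝ p μ),
    T 0 = ContinuousLinearMap.id ℝ (Lp ℝ p μ) →
    (∀ s t : ℝ, 0 ≤ s → 0 ≤ t → T (s + t) = (T s).comp (T t)) →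
    (∀ f : Lp ℝ p μ, ContinuousOn (fun t => T t f) (Set.Ici 0)) →
    (∀ t : ℝ, 0 < t → ∃ k : Ω × Ω → ℝ, Measurable k ∧ (∀ z, 0 ≤ k z) ∧
        ∀ f : Lp ℝ p μ, ∀ᵐ x ∂μ, Integrable (fun y => k (x, y) * f y) μ ∧
          T t f x = ∫ y, k (x, y) * f y ∂μ) →
    (∀ f : Lp ℝ p μ, ∃ g : Lp ℝ p μ,
        Tendsto (fun s : ℝ => s⁻¹ • ∫ t in (0:ℝ)..s, T t f) atTop (𝓝 g)) →
    ∀ f : Lp ℝ p μ, ∃ g : Lp ℝ p μ, Tendsto (fun t : ℝ => T t f) atTop (𝓝 g)) := by
  intro H
  have h := H ℕ μ 2 T T_zero (fun s t hs ht => T_add hs ht) (fun f => (continuous_T f).continuousOn)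
    (fun t _ => kernel t) (fun f => ⟨0, tendsto_A f⟩) (e 0)
  exact not_conv h

end Pool.Agent.S04036
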