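import Pool.Statements.S04040
import Pool.Agent.Helper809.CubicB

set_option autoImplicit false
open Pool Pool.MP_c979e5_an

namespace Pool.Agent.S04040

/-- The negation of the preceding statement: For each N ≥ 1, every degree-N complex polynomial z+… univalent on the unit disk covers the disk of radius 1/(4cos²(π/(N+2))). Such a polynomial covers no larger disk exactly when it is a rotation of the stated Chebyshev-coefficient polynomial F. -/
theorem result :
    ¬ (∀ N : ℕ, 1 ≤ N →
    (∀ p : Polynomial ℂ, p.natDegree = N → p.coeff 0 = 0 → p.coeff 1 = 1 →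
        Set.InjOn (fun z => p.eval z) (Metric.ball (0 : ℂ) 1) →
        Metric.ball (0 : ℂ) (1 / (4 * Real.cos (Real.pi / ((N : ℝ) + 2)) ^ 2)) ⊆
          (fun z => p.eval z) '' Metric.ball (0 : ℂ) 1) ∧
    (∀ p : Polynomial ℂ,
      (p.natDegree = N ∧ p.coeff 0 = 0 ∧ p.coeff 1 = 1 ∧
        Set.InjOn (fun z => p.eval z) (Metric.ball (0 : ℂ) 1) ∧
        Metric.ball (0 : ℂ) (1 / (4 * Real.cos (Real.pi / ((N : ℝ) + 2)) ^ 2)) ⊆
          (fun z => p.eval z) '' Metric.ball (0 : ℂ) 1 ∧
        ∀ r : ℝ, 1 / (4 * Real.cos (Real.pi / ((N : ℝ) + 2)) ^ 2) < r →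
          ¬ (Metric.ball (0 : ℂ) r ⊆ (fun z => p.eval z) '' Metric.ball (0 : ℂ) 1))
      ↔
      ∃ α : ℝ, ∀ z : ℂ, p.eval z =
        Complex.exp (-((α : ℂ) * Complex.I)) *
          ∑ j ∈ Finset.Icc 1 N,
            (((Polynomial.derivative (Polynomial.Chebyshev.U ℝ ((N : ℤ) - (j : ℤ) + 1))).eval
                  (Real.cos (Real.pi / ((N : ℝ) + 2))) *
                (Polynomial.Chebyshev.U ℝ ((j : ℤ) - 1)).eval
                  (Real.cos (Real.pi / ((N : ℝ) + 2))) /
                (Polynomial.derivative (Polynomial.Chebyshev.U ℝ (N : ℤ))).eval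
                  (Real.cos (Real.pi / ((N : ℝ) + 2))) : ℝ) : ℂ) *
              (z * Complex.exp ((α : ℂ) * Complex.I)) ^ j)) := by
  intro H
  have h3 := (H 3 (by norm_num)).1
  obtain ⟨p, hp⟩ : ∃ p : Polynomial ℂ, p = Polynomial.X
      + Polynomial.C Helper809.Cubic.a * Polynomial.X ^ 2
      + Polynomial.C Helper809.Cubic.b * Polynomial.X ^ 3 := ⟨_, rfl⟩
  have hb : Helper809.Cubic.b ≠ 0 := by
    intro h
    have := congrArg Complex.re h
    simp only [Helper809.Cubic.b, Complex.zero_re] at this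
    norm_num at this
  have hdeg : p.natDegree = 3 := by
    rw [hp]
    have e : Polynomial.X + Polynomial.C Helper809.Cubic.a * Polynomial.X ^ 2
        + Polynomial.C Helper809.Cubic.b * Polynomial.X ^ 3
        = Polynomial.C Helper809.Cubic.b * Polynomial.X ^ 3
          + Polynomial.C Helper809.Cubic.a * Polynomial.X ^ 2
          + Polynomial.C 1 * Polynomial.X + Polynomial.C 0 := by
      simp only [Polynomial.C_1, Polynomial.C_0]; ring
    rw [e]
    exact Polynomial.natDegree_cubic hb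
  have heval : ∀ z : ℂ, p.eval z = Helper809.Cubic.P z := by
    intro z
    rw [hp]
    unfold Helper809.Cubic.P
    simp
  have hsub := h3 p hdeg (by rw [hp]; simp) (by rw [hp]; simp [Polynomial.coeff_X, Polynomial.coeff_X_pow])
    (by
      intro z hz w hw hzw
      simp only [heval] at hzw
      exact Helper809.Cubic.P_inj (by simpa using hz) (by simpa using hw) hzw)
  have hmem : Helper809.Cubic.P (-1) ∈
      Metric.ball (0 : ℂ) (1 / (4 * Real.cos (Real.pi / (((3 : ℕ) : ℝ) + 2)) ^ 2)) := by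
    have e5 : (((3 : ℕ) : ℝ) + 2) = 5 := by norm_num
    rw [e5, Real.cos_pi_div_five, mem_ball_zero_iff]
    have hn := Helper809.Cubic.norm_P_neg_one
    have hs : (√5 : ℝ) ^ 2 = 5 := Real.sq_sqrt (by norm_num)
    have hs0 : 0 ≤ √(5 : ℝ) := Real.sqrt_nonneg 5
    have hs1 : √(5 : ℝ) < 2237 / 1000 := by
      rw [Real.sqrt_lt' (by norm_num)]; norm_num
    have e : 1 / (4 * ((1 + √5) / 4) ^ 2) = (3 - √5) / 2 := by
      rw [div_eq_div_iff (by positivity) (by norm_num)]
      nlinarith
    rw [e]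
    have h0 := norm_nonneg (Helper809.Cubic.P (-1))
    nlinarith
  obtain ⟨z, hz, hPz⟩ := hsub hmem
  apply Helper809.Cubic.not_mem_image
  exact ⟨z, hz, by rw [← hPz]; exact (heval z).symm⟩

end Pool.Agent.S04040
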