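import Pool.Statements.S04042

set_option autoImplicit false
open Pool Pool.MP_c98abc_an

namespace Pool.Agent.S04042

/-- The substitution `0 ↦ 0011001`, `1 ↦ 01` on two letters. -/
def sub : Fin 2 → List (Fin 2) := ![[0,0,1,1,0,0,1],[0,1]]

/-- Extension of the substitution to words. -/
def ext (w : List (Fin 2)) : List (Fin 2) := w.flatMap sub

/-- Iterate of the substitution on words. -/
def it (n : ℕ) (w : List (Fin 2)) : List (Fin 2) := ext^[n] w

lemma ext_append (u v : List (Fin 2)) : ext (u ++ v) = ext u ++ ext v := by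
  simp [ext]

lemma it_append (n : ℕ) (u v : List (Fin 2)) : it n (u ++ v) = it n u ++ it n v := by
  induction n generalizing u v with
  | zero => rfl
  | succ n ih =>
    unfold it at *
    simp only [Function.iterate_succ, Function.comp]
    rw [ext_append, ih]

lemma it_succ (n : ℕ) (w : List (Fin 2)) : it (n+1) w = it n (ext w) := rfl

/-- Length of the `n`-th iterate of a word. -/
def len (n : ℕ) (w : List (Fin 2)) : ℕ := (it n w).length

lemma len_append (n : ℕ) (u v : List (Fin 2)) : len n (u ++ v) = len n u + len n v := by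
  simp [len, it_append]

def la (n : ℕ) : ℕ := len n [0]
def lb (n : ℕ) : ℕ := len n [1]

lemma len_cons (n : ℕ) (a : Fin 2) (v : List (Fin 2)) : len n (a :: v) = len n [a] + len n v := by
  rw [← len_append]; rfl

lemma it_cons (n : ℕ) (a : Fin 2) (v : List (Fin 2)) : it n (a :: v) = it n [a] ++ it n v := by
  rw [← it_append]; rfl

lemma len_nil (n : ℕ) : len n [] = 0 := by
  have := len_append n [] []
  simp at this
  exact this

/-- The words cut off at one level. -/
def cut (b : Bool) : ℕ → ℕ := fun n => if b then la n else 3 * la n + 2 * lb n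

/-- The address at level `n`. -/
def adr (e : ℕ → Bool) : ℕ → ℕ
  | 0 => 0
  | n+1 => cut (e n) n + adr e n

lemma ext01 (z : List (Fin 2)) : ext (0 :: 1 :: z) = [0,0,1,1,0,0,1,0,1] ++ ext z := by
  simp [ext, sub]

lemma ext10 (z : List (Fin 2)) : ext (1 :: 0 :: z) = [0,1,0,0,1,1,0,0,1] ++ ext z := by
  simp [ext, sub]

lemma ext0 : ext [0] = [0,0,1,1,0,0,1] := by simp [ext, sub]

lemma get_shift (u v : List (Fin 2)) (k i : ℕ) (h : k = u.length) : (u ++ v)[k + i]? = v[i]? := by
  subst h
  rw [List.getElem?_append_right (by omega)]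
  congr 1
  omega

lemma get_shift' (n : ℕ) (u v : List (Fin 2)) (k i : ℕ) (h : k = len n u) :
    (it n (u ++ v))[k + i]? = (it n v)[i]? := by
  rw [it_append]
  exact get_shift _ _ _ _ h

lemma start (e : ℕ → Bool) (j : ℕ) : ∀ z : List (Fin 2),
    (it j (0 :: 1 :: z))[adr e j]? = some 0 ∧ (it j (1 :: 0 :: z))[adr e j]? = some 1 := by
  induction j with
  | zero => intro z; simp [adr, it]
  | succ j ih =>
    intro z
    rw [it_succ, it_succ, ext01, ext10]
    rcases hb : e j with _ | _
    · have hL : adr e (j+1) = (3 * la j + 2 * lb j) + adr e j := by simp [adr, cut, hb]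
      rw [hL]
      constructor
      · have h1 : ([0,0,1,1,0,0,1,0,1] ++ ext z : List (Fin 2)) = [0,0,1,1,0] ++ (0 :: 1 :: ([0,1] ++ ext z)) := by simp
        rw [h1, get_shift' j _ _ _ _ ?_]
        · exact (ih _).1
        · simp only [len_cons j _ (_ :: _), la, lb]; ring
      · have h1 : ([0,1,0,0,1,1,0,0,1] ++ ext z : List (Fin 2)) = [0,1,0,0,1] ++ (1 :: 0 :: ([0,1] ++ ext z)) := by simp
        rw [h1, get_shift' j _ _ _ _ ?_]
        · exact (ih _).2
        · simp only [len_cons j _ (_ :: _), la, lb]; ring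
    · have hL : adr e (j+1) = la j + adr e j := by simp [adr, cut, hb]
      rw [hL]
      constructor
      · have h1 : ([0,0,1,1,0,0,1,0,1] ++ ext z : List (Fin 2)) = [0] ++ (0 :: 1 :: ([1,0,0,1,0,1] ++ ext z)) := by simp
        rw [h1, get_shift' j _ _ _ _ ?_]
        · exact (ih _).1
        · rfl
      · have h1 : ([0,1,0,0,1,1,0,0,1] ++ ext z : List (Fin 2)) = [0] ++ (1 :: 0 :: ([0,1,1,0,0,1] ++ ext z)) := by simp
        rw [h1, get_shift' j _ _ _ _ ?_]
        · exact (ih _).2
        · rfl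

/-- The times. -/
def tm (j : ℕ) : ℕ := la j + lb j

/-- Letter attached to a Boolean. -/
def ltr (b : Bool) : Fin 2 := if b then 1 else 0

lemma step_eq (e : ℕ → Bool) (i : ℕ) (z : List (Fin 2)) (t : ℕ) :
    ∃ z', (it (i+1) (0 :: 1 :: z))[adr e (i+1) + t]? =
      (it i (0 :: 1 :: (if e i then 1 else 0) :: (if e i then 0 else 1) :: z'))[adr e i + t]? := by
  rw [it_succ, ext01]
  rcases hb : e i with _ | _
  · have hL : adr e (i+1) + t = (3 * la i + 2 * lb i) + (adr e i + t) := by simp [adr, cut, hb]; ring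
    refine ⟨ext z, ?_⟩
    have h1 : ([0,0,1,1,0,0,1,0,1] ++ ext z : List (Fin 2)) = [0,0,1,1,0] ++ (0 :: 1 :: ([0,1] ++ ext z)) := by simp
    rw [hL, h1, get_shift' i _ _ _ _ ?_]
    · simp
    · simp only [len_cons i _ (_ :: _), la, lb]; ring
  · have hL : adr e (i+1) + t = la i + (adr e i + t) := by simp [adr, cut, hb]; ring
    refine ⟨[0,1,0,1] ++ ext z, ?_⟩
    have h1 : ([0,0,1,1,0,0,1,0,1] ++ ext z : List (Fin 2)) = [0] ++ (0 :: 1 :: ([1,0,0,1,0,1] ++ ext z)) := by simp
    rw [hL, h1, get_shift' i _ _ _ _ ?_]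
    · simp
    · rfl

lemma key (e : ℕ → Bool) (j : ℕ) : ∀ d : ℕ, ∀ z : List (Fin 2),
    (it (j + 1 + d) (0 :: 1 :: z))[adr e (j + 1 + d) + tm j]? = some (ltr (e j)) := by
  intro d
  induction d with
  | zero =>
    intro z
    obtain ⟨z', hz'⟩ := step_eq e j z (tm j)
    rw [Nat.add_zero, hz']
    have h2 : ∀ w : List (Fin 2), (it j (0 :: 1 :: w))[adr e j + tm j]? = (it j w)[adr e j]? := by
      intro w
      have : (0 :: 1 :: w : List (Fin 2)) = [0,1] ++ w := rfl
      rw [this, add_comm (adr e j), get_shift' j _ _ _ _ ?_]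
      simp only [tm, la, lb, len_cons j _ (_ :: _)]
    rw [h2]
    rcases hb : e j with _ | _
    · simpa [ltr] using (start e j z').1
    · simpa [ltr] using (start e j z').2
  | succ d ih =>
    intro z
    obtain ⟨z', hz'⟩ := step_eq e (j+1+d) z (tm j)
    rw [← add_assoc, hz']
    exact ih _

/-- The word `it n [0]`, placed with the origin at offset `off n`, gives the nested windows of a
two-sided sequence. -/
def off : ℕ → ℕ
  | 0 => 0
  | n+1 => la n + off n

lemma la_succ (n : ℕ) : la (n+1) = 4 * la n + 3 * lb n := by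
  have : la (n+1) = len n [0,0,1,1,0,0,1] := by
    simp only [la, len, it_succ, ext0]
  rw [this]
  simp only [len_cons n _ (_ :: _), la, lb]; ring

lemma la_pos (n : ℕ) : 1 ≤ la n := by
  induction n with
  | zero => simp [la, len, it]
  | succ n ih => rw [la_succ]; omega

lemma le_off (n : ℕ) : n ≤ off n := by
  induction n with
  | zero => simp
  | succ n ih => have := la_pos n; simp only [off]; omega

lemma off_add_le (n : ℕ) : off n + n + 1 ≤ la n := by
  induction n with
  | zero => simp [off, la, len, it]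
  | succ n ih => rw [la_succ, off]; have := la_pos n; omega

lemma word_succ (n : ℕ) : it (n+1) [0] = it n [0] ++ (it n [0] ++ it n [1,1,0,0,1]) := by
  rw [it_succ, ext0, ← it_append, ← it_append]
  rfl

lemma get_word_succ (n i : ℕ) (h : i < la n) :
    (it (n+1) [0])[la n + i]? = (it n [0])[i]? := by
  have hk : la n = (it n [0]).length := rfl
  rw [word_succ, get_shift _ _ _ _ hk, List.getElem?_append_left h]

lemma get_word (n : ℕ) (m : ℤ) (h1 : 0 ≤ (off n : ℤ) + m) (h2 : (off n : ℤ) + m < la n) (d : ℕ) :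
    (it (n+d) [0])[((off (n+d) : ℤ) + m).toNat]? = (it n [0])[((off n : ℤ) + m).toNat]? ∧
    0 ≤ (off (n+d) : ℤ) + m ∧ (off (n+d) : ℤ) + m < la (n+d) := by
  induction d with
  | zero => exact ⟨rfl, h1, h2⟩
  | succ d ih =>
    obtain ⟨ih1, ih2, ih3⟩ := ih
    have h3 : ((off (n+(d+1)) : ℤ) + m).toNat = la (n+d) + ((off (n+d) : ℤ) + m).toNat := by
      have : off (n + (d+1)) = la (n+d) + off (n+d) := rfl
      omega
    have h4 : la (n + (d+1)) = 4 * la (n+d) + 3 * lb (n+d) := la_succ (n+d)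
    have h5 : off (n + (d+1)) = la (n+d) + off (n+d) := rfl
    refine ⟨?_, ?_, ?_⟩
    · rw [h3, ← add_assoc, get_word_succ _ _ (by omega), ih1]
    · omega
    · omega

/-- The two-sided sequence. -/
def X (m : ℤ) : Fin 2 := (it (m.natAbs) [0]).getD ((off m.natAbs : ℤ) + m).toNat 0

lemma X_eq (n : ℕ) (m : ℤ) (h : m.natAbs ≤ n) :
    (it n [0])[((off n : ℤ) + m).toNat]? = some (X m) := by
  obtain ⟨d, rfl⟩ := Nat.exists_eq_add_of_le h
  have ha := le_off m.natAbs
  have hb := off_add_le m.natAbs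
  have hh := get_word m.natAbs m (by omega) (by omega) d
  rw [hh.1, X, List.getD_eq_getElem?_getD]
  have hl : ((off m.natAbs : ℤ) + m).toNat < (it m.natAbs [0]).length := by
    change _ < la m.natAbs
    omega
  rw [List.getElem?_eq_getElem hl]
  rfl

lemma window (m : ℤ) (k : ℕ) : ∃ N : ℕ, ∃ c : Fin 2,
    List.IsInfix (List.ofFn (fun i : Fin k => X (m + ((i : ℕ) : ℤ))))
      ((fun w : List (Fin 2) => w.flatMap sub)^[N] [c]) := by
  set n := m.natAbs + k with hn
  have ha := le_off n
  have hb := off_add_le n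
  refine ⟨n, 0, ?_⟩
  have hlen : (it n [0]).length = la n := rfl
  have heq : List.ofFn (fun i : Fin k => X (m + ((i : ℕ) : ℤ))) =
      ((it n [0]).drop ((off n : ℤ) + m).toNat).take k := by
    apply List.ext_getElem?
    intro i
    rw [List.getElem?_take, List.getElem?_drop, List.getElem?_ofFn]
    split_ifs with h1
    · have h2 := X_eq n (m + (i : ℤ)) (by omega)
      have h3 : ((off n : ℤ) + m).toNat + i = ((off n : ℤ) + (m + (i : ℤ))).toNat := by omega
      rw [h3, h2]
    · rfl
  rw [heq]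
  exact (List.take_prefix _ _).isInfix.trans (List.drop_suffix _ _).isInfix

lemma exists_seq (e : ℕ → Bool) (K : ℕ) : ∃ s : ℤ, ∀ j < K, X ((tm j : ℤ) + s) = ltr (e j) := by
  refine ⟨((la K + adr e K : ℕ) : ℤ) - (off (K+1) : ℤ), ?_⟩
  intro j hj
  obtain ⟨d, rfl⟩ := Nat.exists_eq_add_of_le hj
  set K := j + 1 + d with hK
  have h1 : (it (K+1) [0])[la K + (adr e K + tm j)]? = some (ltr (e j)) := by
    have : (it (K+1) [0]) = it K ([0] ++ (0 :: 1 :: [1,0,0,1])) := by
      rw [it_succ, ext0]; rfl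
    have hk : la K = len K [0] := rfl
    rw [this, get_shift' K _ _ _ _ hk]
    exact key e j d _
  have hlt : la K + (adr e K + tm j) < la (K+1) := by
    by_contra hcon
    rw [List.getElem?_eq_none (by change la (K+1) ≤ _; omega)] at h1
    exact absurd h1 (by simp)
  set m : ℤ := (tm j : ℤ) + (((la K + adr e K : ℕ) : ℤ) - (off (K+1) : ℤ)) with hm
  have h2 := get_word (K+1) m (by omega) (by omega) m.natAbs
  have h3 := X_eq (K + 1 + m.natAbs) m (by omega)
  rw [h2.1] at h3
  have h4 : ((off (K+1) : ℤ) + m).toNat = la K + (adr e K + tm j) := by omega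
  rw [h4, h1] at h3
  exact (Option.some.inj h3).symm

lemma mat_eq : (Matrix.of (fun i j : Fin 2 => (((sub j).count i : ℕ) : ℚ))) = !![4, 1; 3, 1] := by
  ext i j
  fin_cases i <;> fin_cases j <;> simp [sub]

lemma charpoly_eq : (!![4, 1; 3, 1] : Matrix (Fin 2) (Fin 2) ℚ).charpoly =
    Polynomial.X ^ 2 - Polynomial.C 5 * Polynomial.X + Polynomial.C 1 := by
  rw [Matrix.charpoly_fin_two, Matrix.trace_fin_two, Matrix.det_fin_two]
  norm_num

lemma no_root (q : ℚ) : q ^ 2 - 5 * q + 1 ≠ 0 := by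
  intro h
  have h2 : (2 * q - 5) ^ 2 = 21 := by linarith
  have h3 : Irrational (Real.sqrt 21) := by
    have := irrational_sqrt_natCast_iff (n := 21)
    rw [show ((21 : ℕ) : ℝ) = 21 by norm_num] at this
    rw [this]
    rintro ⟨r, hr⟩
    have : r < 5 := by nlinarith
    interval_cases r <;> omega
  apply h3
  refine ⟨|2 * q - 5|, ?_⟩
  have h4 : ((|2 * q - 5| : ℚ) : ℝ) ^ 2 = 21 := by
    have : (|2 * q - 5|) ^ 2 = (21 : ℚ) := by rw [sq_abs]; exact h2
    exact_mod_cast this
  rw [← h4, Real.sqrt_sq (by positivity)]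

lemma irr : Irreducible (!![4, 1; 3, 1] : Matrix (Fin 2) (Fin 2) ℚ).charpoly := by
  have hdeg : (!![4, 1; 3, 1] : Matrix (Fin 2) (Fin 2) ℚ).charpoly.natDegree = 2 := by
    rw [Matrix.charpoly_natDegree_eq_dim]; simp
  rw [Polynomial.irreducible_iff_roots_eq_zero_of_degree_le_three (by omega) (by omega)]
  rw [Multiset.eq_zero_iff_forall_notMem]
  intro q hq
  have hq2 := (Polynomial.mem_roots'.mp hq).2
  rw [charpoly_eq] at hq2
  apply no_root q
  simpa [Polynomial.IsRoot] using hq2

lemma mem_roots_iff (z : ℂ) : z ∈ ((!![4, 1; 3, 1] : Matrix (Fin 2) (Fin 2) ℚ).charpoly.map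
    (algebraMap ℚ ℂ)).roots ↔ z ^ 2 - 5 * z + 1 = 0 := by
  have hne : ((!![4, 1; 3, 1] : Matrix (Fin 2) (Fin 2) ℚ).charpoly.map (algebraMap ℚ ℂ)) ≠ 0 :=
    ((Matrix.charpoly_monic _).map _).ne_zero
  rw [Polynomial.mem_roots hne, charpoly_eq]
  simp [Polynomial.IsRoot]

/-- The negation of the preceding statement: Fix a substitution whose incidence matrix has irreducible char. polynomial with a Pisot root and determinant ±1. Then for every continuous f, the shifts of f restricted to the substitution subshift contain no independent sequence, i.e. the subshift is tame. -/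
theorem result :
    ¬ (∀ (d : ℕ) (σ : Fin d → List (Fin d)),
    Irreducible (Matrix.of (fun i j : Fin d => (((σ j).count i : ℕ) : ℚ))).charpoly →
    (∃ r : ℝ, 1 < r ∧
      (r : ℂ) ∈ ((Matrix.of (fun i j : Fin d => (((σ j).count i : ℕ) : ℚ))).charpoly.map
        (algebraMap ℚ ℂ)).roots ∧
      ∀ z ∈ ((Matrix.of (fun i j : Fin d => (((σ j).count i : ℕ) : ℚ))).charpoly.map
        (algebraMap ℚ ℂ)).roots, z ≠ (r : ℂ) → ‖z‖ < 1) →
    |(Matrix.of (fun i j : Fin d => (((σ j).count i : ℕ) : ℚ))).det| = 1 →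
    ∀ f : (ℤ → Fin d) → ℝ, Continuous f →
      ¬ ∃ (n : ℕ → ℤ) (a b : ℝ), a < b ∧
        ∀ P Q : Finset ℕ, Disjoint P Q →
          ∃ x : ℤ → Fin d,
            (∀ m : ℤ, ∀ k : ℕ, ∃ N : ℕ, ∃ c : Fin d,
              List.IsInfix (List.ofFn (fun i : Fin k => x (m + ((i : ℕ) : ℤ))))
                ((fun w : List (Fin d) => w.flatMap σ)^[N] [c])) ∧
            (∀ j ∈ P, f (fun t => x (t + n j)) < a) ∧
            (∀ j ∈ Q, b < f (fun t => x (t + n j)))) := by
  intro H
  have hcont : Continuous (fun x : ℤ → Fin 2 => (((x 0 : Fin 2) : ℕ) : ℝ)) := by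
    have h1 : Continuous (fun c : Fin 2 => ((c : ℕ) : ℝ)) := continuous_of_discreteTopology
    exact h1.comp (continuous_apply (0 : ℤ))
  refine H 2 sub ?_ ?_ ?_ (fun x => (((x 0 : Fin 2) : ℕ) : ℝ)) hcont ?_
  · rw [mat_eq]; exact irr
  · rw [mat_eq]
    have hs : Real.sqrt 21 ^ 2 = 21 := Real.sq_sqrt (by norm_num)
    have hs4 : 4 < Real.sqrt 21 := by
      rw [Real.lt_sqrt (by norm_num)]; norm_num
    have hs5 : Real.sqrt 21 < 5 := by
      rw [Real.sqrt_lt' (by norm_num)]; norm_num
    refine ⟨(5 + Real.sqrt 21) / 2, by linarith, ?_, ?_⟩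
    · rw [mem_roots_iff]
      have : ((5 + Real.sqrt 21) / 2) ^ 2 - 5 * ((5 + Real.sqrt 21) / 2) + 1 = 0 := by
        ring_nf; rw [hs]; norm_num
      exact_mod_cast congrArg (fun x : ℝ => (x : ℂ)) this
    · intro z hz hne
      rw [mem_roots_iff] at hz
      have hsC : (Real.sqrt 21 : ℂ) ^ 2 = 21 := by exact_mod_cast congrArg (fun x : ℝ => (x : ℂ)) hs
      have hfac : (z - (((5 + Real.sqrt 21) / 2 : ℝ) : ℂ)) * (z - (((5 - Real.sqrt 21) / 2 : ℝ) : ℂ)) = 0 := by
        push_cast
        ring_nf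
        rw [hsC]
        linear_combination hz
      rcases mul_eq_zero.mp hfac with h | h
      · exact absurd (sub_eq_zero.mp h) hne
      · rw [sub_eq_zero.mp h, Complex.norm_real, Real.norm_eq_abs, abs_lt]
        constructor <;> linarith
  · rw [mat_eq, Matrix.det_fin_two]; norm_num
  · refine ⟨fun j => (tm j : ℤ), 1/3, 2/3, by norm_num, ?_⟩
    intro P Q hPQ
    obtain ⟨K, hK⟩ : ∃ K, ∀ j ∈ P ∪ Q, j < K :=
      ⟨(P ∪ Q).sup id + 1, fun j hj => Nat.lt_succ_of_le (Finset.le_sup (f := id) hj)⟩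
    obtain ⟨s, hs⟩ := exists_seq (fun j => decide (j ∈ Q)) K
    refine ⟨fun t => X (t + s), ?_, ?_, ?_⟩
    · intro m k
      have := window (m + s) k
      have h : (fun i : Fin k => X (m + ((i : ℕ) : ℤ) + s)) = (fun i : Fin k => X (m + s + ((i : ℕ) : ℤ))) := by
        funext i; congr 1; ring
      simp only [h]
      exact this
    · intro j hj
      have h1 : j ∉ Q := fun h => Finset.disjoint_left.mp hPQ hj h
      have h2 := hs j (hK j (Finset.mem_union_left _ hj))
      simp only [zero_add]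
      rw [h2]
      simp [ltr, h1]
    · intro j hj
      have h2 := hs j (hK j (Finset.mem_union_right _ hj))
      simp only [zero_add]
      rw [h2]
      simp [ltr, hj]
      norm_num

end Pool.Agent.S04042
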