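import Pool.Statements.S04046
import Pool.Agent.Helper695.PD.Main

set_option autoImplicit false
open Pool Pool.MP_ca1083_an

namespace Pool.Agent.S04046

/-- The negation of the preceding statement: For every real Banach space X, these are equivalent: for every total set G of functionals, the Baire sigma-algebras of the weak topology sigma(X,G) and of the weak topology agree; and every weak*-sequentially closed linear subspace of X* is weak*-closed. -/
theorem result :
    ¬ (∀ (X : Type) [NormedAddCommGroup X] [NormedSpace ℝ X] [CompleteSpace X],
      (∀ Γ : Set (X →L[ℝ] ℝ), (∀ x : X, x ≠ 0 → ∃ φ ∈ Γ, φ x ≠ 0) →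
        MeasurableSpace.generateFrom
            {s : Set X | ∃ f : X → ℝ,
              @Continuous X ℝ
                (⨅ φ ∈ Γ, TopologicalSpace.induced (fun x => φ x) (inferInstance : TopologicalSpace ℝ)) _ f
              ∧ s = f ⁻¹' {0}} =
          MeasurableSpace.generateFrom
            {s : Set X | ∃ f : X → ℝ,
              @Continuous X ℝ
                (⨅ φ : X →L[ℝ] ℝ, TopologicalSpace.induced (fun x => φ x) (inferInstance : TopologicalSpace ℝ)) _ f
              ∧ s = f ⁻¹' {0}})
      ↔
      (∀ M : Submodule ℝ (WeakDual ℝ X),
        IsSeqClosed (M : Set (WeakDual ℝ X)) → IsClosed (M : Set (WeakDual ℝ X)))) := by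
  exact Pool.Agent.Helper695.PD.final

end Pool.Agent.S04046
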