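import Pool.Statements.S04047

set_option autoImplicit false
open scoped Pointwise
open Pool Pool.MP_ca1968_an

namespace Pool.Agent.S04047

open Cardinal

noncomputable section

/-- the Hilbert space of square summable real families indexed by the reals -/
abbrev H : Type := lp (fun _ : ℝ => ℝ) 2

lemma supp_countable (x : H) : {g : ℝ | x g ≠ 0}.Countable := by
  have h := (lp.memℓp x).summable (by norm_num)
  refine h.countable_support.mono ?_
  intro g hg
  simp only [Function.mem_support]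
  simp only [Set.mem_ofPred_eq] at hg
  positivity

lemma card_H : #H ≤ 𝔠 := by
  classical
  have key : ∀ x : H, ∃ f : ℕ → ℝ × ℝ, Set.range f = (fun g => (g, x g)) '' ({g : ℝ | x g ≠ 0} ∪ {0}) := by
    intro x
    have hc : ((fun g => (g, x g)) '' ({g : ℝ | x g ≠ 0} ∪ {0})).Countable :=
      ((supp_countable x).union (Set.countable_singleton 0)).image _
    obtain ⟨f, hf⟩ := hc.exists_eq_range (Set.Nonempty.image _ ⟨0, Or.inr rfl⟩)
    exact ⟨f, hf.symm⟩
  choose F hF using key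
  have hinj : Function.Injective F := by
    intro x y hxy
    have hr : (fun g => (g, x g)) '' ({g : ℝ | x g ≠ 0} ∪ {0}) = (fun g => (g, y g)) '' ({g : ℝ | y g ≠ 0} ∪ {0}) := by
      rw [← hF x, ← hF y, hxy]
    ext g
    by_cases hx : x g = 0
    · by_cases hy : y g = 0
      · rw [hx, hy]
      · have : (g, y g) ∈ (fun g => (g, x g)) '' ({g : ℝ | x g ≠ 0} ∪ {0}) := by
          rw [hr]; exact ⟨g, Or.inl hy, rfl⟩
        obtain ⟨g', _, hg'⟩ := this
        simp only [Prod.mk.injEq] at hg'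
        obtain ⟨h1, h2⟩ := hg'
        subst h1
        exact h2
    · have : (g, x g) ∈ (fun g => (g, y g)) '' ({g : ℝ | y g ≠ 0} ∪ {0}) := by
          rw [← hr]; exact ⟨g, Or.inl hx, rfl⟩
      obtain ⟨g', _, hg'⟩ := this
      simp only [Prod.mk.injEq] at hg'
      obtain ⟨h1, h2⟩ := hg'
      subst h1
      exact h2.symm
  calc #H ≤ #(ℕ → ℝ × ℝ) := mk_le_of_injective hinj
    _ = 𝔠 := by
      rw [← Cardinal.power_def]
      simp [Cardinal.mk_real]

/-- index type -/
abbrev I : Type := (𝔠 : Cardinal.{0}).ord.ToType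

lemma exists_surj : ∃ x : I → H, Function.Surjective x := by
  have h1 : #H ≤ #I := by
    rw [mk_ord_toType]; exact card_H
  obtain ⟨f⟩ := h1
  exact ⟨Function.invFun f, Function.invFun_surjective f.injective⟩

lemma exists_fresh (x : I → H) :
    ∃ γ : I → ℝ, (∀ i, ∀ j ≤ i, x j (γ i) = 0) ∧ (∀ i, ∀ j < i, γ i ≠ γ j) := by
  classical
  have hex : ∀ (i : I) (c : (j : I) → j < i → ℝ),
      ∃ g : ℝ, (∀ j ≤ i, x j g = 0) ∧ (∀ j (h : j < i), g ≠ c j h) := by
    intro i c
    by_contra hcon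
    push Not at hcon
    have hcover : (Set.univ : Set ℝ) ⊆ (⋃ j : Set.Iic i, {g : ℝ | x j g ≠ 0}) ∪
        Set.range (fun j : Set.Iio i => c j.1 j.2) := by
      intro g _
      by_cases h : ∀ j ≤ i, x j g = 0
      · obtain ⟨j, hj, hg⟩ := hcon g h
        exact Or.inr ⟨⟨j, hj⟩, hg.symm⟩
      · push Not at h
        obtain ⟨j, hj, hg⟩ := h
        exact Or.inl (Set.mem_iUnion.2 ⟨⟨j, hj⟩, hg⟩)
    have hIio : #(Set.Iio i) < 𝔠 := Cardinal.mk_Iio_toType_ord_lt i
    have hIic : #(Set.Iic i) < 𝔠 := by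
      have : (Set.Iic i) = insert i (Set.Iio i) := by
        ext j; simp [le_iff_eq_or_lt]
      rw [this]
      refine lt_of_le_of_lt (mk_insert_le) ?_
      exact add_lt_of_lt aleph0_le_continuum hIio (lt_of_lt_of_le one_lt_aleph0 aleph0_le_continuum)
    have h1 : #(⋃ j : Set.Iic i, {g : ℝ | x j g ≠ 0}) < 𝔠 := by
      refine lt_of_le_of_lt (mk_iUnion_le _) ?_
      refine mul_lt_of_lt aleph0_le_continuum hIic ?_
      refine lt_of_le_of_lt (ciSup_le' ?_) aleph0_lt_continuum
      intro j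
      exact (supp_countable (x j)).le_aleph0
    have h2 : #(Set.range (fun j : Set.Iio i => c j.1 j.2)) < 𝔠 :=
      lt_of_le_of_lt mk_range_le hIio
    have h3 : #(Set.univ : Set ℝ) < 𝔠 := by
      refine lt_of_le_of_lt (mk_le_mk_of_subset hcover) ?_
      refine lt_of_le_of_lt (mk_union_le _ _) ?_
      exact add_lt_of_lt aleph0_le_continuum h1 h2
    rw [mk_univ, mk_real] at h3
    exact lt_irrefl _ h3
  have wf : WellFounded (fun a b : I => a < b) := wellFounded_lt
  let γ : I → ℝ := wf.fix (fun i c => (hex i c).choose)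
  have hγ : ∀ i, γ i = (hex i (fun j _ => γ j)).choose := by
    intro i
    exact wf.fix_eq _ i
  refine ⟨γ, ?_, ?_⟩
  · intro i j hj
    rw [hγ i]
    exact (hex i (fun j _ => γ j)).choose_spec.1 j hj
  · intro i j hj
    have := (hex i (fun j _ => γ j)).choose_spec.2 j hj
    rw [← hγ i] at this
    exact this

/-- unit coordinate vector -/
def e (g : ℝ) : H := by
  classical
  exact lp.single 2 g (1 : ℝ)

lemma inner_e (g : ℝ) (v : H) : inner ℝ v (e g) = v g := by
  classical
  unfold e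
  rw [real_inner_comm, lp.inner_single_left]
  simp

lemma norm_e (g : ℝ) : ‖e g‖ = 1 := by
  classical
  unfold e
  rw [lp.norm_single (by norm_num)]
  simp

lemma e_apply_ne (g g' : ℝ) (h : g' ≠ g) : e g g' = 0 := by
  classical
  unfold e
  simp [lp.single_apply, h]

lemma exists_rec (x d : I → H) :
    ∃ P : I → Prop, ∀ i, P i ↔
      ∀ v ∈ Submodule.span ℤ (d '' {j | j < i ∧ P j}), 1 ≤ ‖x i - v‖ := by
  classical
  have wf : WellFounded (fun a b : I => a < b) := wellFounded_lt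
  let P : I → Prop := wf.fix (fun i c => ∀ v ∈ Submodule.span ℤ (d '' {j | ∃ h : j < i, c j h}), 1 ≤ ‖x i - v‖)
  refine ⟨P, ?_⟩
  intro i
  have h : P i = (∀ v ∈ Submodule.span ℤ (d '' {j | ∃ _ : j < i, P j}), 1 ≤ ‖x i - v‖) :=
    wf.fix_eq _ i
  rw [h]
  simp only [exists_prop]

lemma top_decomp (d : I → H) (P : I → Prop) (v : H)
    (hv : v ∈ Submodule.span ℤ (d '' {j | P j})) (hv0 : v ≠ 0) :
    ∃ i, P i ∧ ∃ m : ℤ, m ≠ 0 ∧ ∃ w ∈ Submodule.span ℤ (d '' {j | j < i ∧ P j}), v = m • d i + w := by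
  classical
  rw [Finsupp.mem_span_image_iff_linearCombination] at hv
  obtain ⟨l, hl, hlv⟩ := hv
  have hl0 : l.support.Nonempty := by
    rw [Finsupp.support_nonempty_iff]
    rintro rfl
    apply hv0
    rw [← hlv]; simp
  set i := l.support.max' hl0 with hi
  have hi_mem : i ∈ l.support := Finset.max'_mem _ _
  have hPi : P i := by
    have := (Finsupp.mem_supported ℤ l).1 hl (Finset.mem_coe.2 hi_mem)
    exact this
  refine ⟨i, hPi, l i, Finsupp.mem_support_iff.1 hi_mem, 
    Finsupp.linearCombination ℤ d (l.erase i), ?_, ?_⟩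
  · rw [Finsupp.mem_span_image_iff_linearCombination]
    refine ⟨l.erase i, ?_, rfl⟩
    rw [Finsupp.mem_supported]
    intro j hj
    rw [Finset.mem_coe, Finsupp.support_erase, Finset.mem_erase] at hj
    have hjle : j ≤ i := Finset.le_max' _ _ hj.2
    have := (Finsupp.mem_supported ℤ l).1 hl (Finset.mem_coe.2 hj.2)
    exact ⟨lt_of_le_of_ne hjle hj.1, this⟩
  · rw [← hlv]
    conv_lhs => rw [← Finsupp.single_add_erase i l]
    rw [map_add, Finsupp.linearCombination_single]


/-- finitely many points pairwise far apart in a small ball -/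
lemma finite_close {E : Type} [NormedAddCommGroup E] [InnerProductSpace ℝ E]
    (S : Set E) (x : E) (ρ : ℝ) (hρ : ρ < 1) (hS : ∀ a ∈ S, ‖x - a‖ ≤ ρ)
    (hsep : ∀ a ∈ S, ∀ b ∈ S, a ≠ b → 2 ≤ ‖a - b‖ ^ 2) : S.Finite := by
  classical
  by_contra hinf
  have hinf : S.Infinite := hinf
  have hρ0 : 0 ≤ ρ := by
    obtain ⟨a, ha⟩ := hinf.nonempty
    exact (norm_nonneg _).trans (hS a ha)
  have hgap : 0 < 1 - ρ ^ 2 := by nlinarith
  obtain ⟨N, hN⟩ := exists_nat_gt (1 + ρ ^ 2 / (1 - ρ ^ 2))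
  obtain ⟨t, htS, htc⟩ := hinf.exists_subset_card_eq N
  have hq : 0 ≤ ρ ^ 2 / (1 - ρ ^ 2) := by positivity
  have hN1 : (1 : ℝ) < N := by linarith
  -- the sum of the vectors a - x
  have h0 : 0 ≤ ‖∑ a ∈ t, (a - x)‖ ^ 2 := by positivity
  have hexp : ‖∑ a ∈ t, (a - x)‖ ^ 2 = ∑ a ∈ t, ∑ b ∈ t, inner ℝ (a - x) (b - x) := by
    rw [← real_inner_self_eq_norm_sq, sum_inner]
    refine Finset.sum_congr rfl fun a _ => ?_
    rw [inner_sum]
  have hterm : ∀ a ∈ t, ∀ b ∈ t, inner ℝ (a - x) (b - x) ≤ (ρ ^ 2 - 1) + (if a = b then 1 else 0) := by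
    intro a ha b hb
    have hna : ‖a - x‖ ≤ ρ := by rw [norm_sub_rev]; exact hS a (htS ha)
    have hnb : ‖b - x‖ ≤ ρ := by rw [norm_sub_rev]; exact hS b (htS hb)
    have hna2 : ‖a - x‖ ^ 2 ≤ ρ ^ 2 := by gcongr
    have hnb2 : ‖b - x‖ ^ 2 ≤ ρ ^ 2 := by gcongr
    by_cases hab : a = b
    · subst hab
      rw [real_inner_self_eq_norm_sq]
      simp only [if_true]
      linarith
    · simp only [hab, if_false, add_zero]
      have h1 := hsep a (htS ha) b (htS hb) hab
      have h2 : ‖a - b‖ ^ 2 = ‖a - x‖ ^ 2 - 2 * inner ℝ (a - x) (b - x) + ‖b - x‖ ^ 2 := by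
        rw [← norm_sub_sq_real]; congr 2; abel
      linarith
  have hle : ∑ a ∈ t, ∑ b ∈ t, inner ℝ (a - x) (b - x) ≤ ∑ a ∈ t, ∑ b ∈ t, ((ρ ^ 2 - 1) + (if a = b then 1 else 0)) :=
    Finset.sum_le_sum fun a ha => Finset.sum_le_sum fun b hb => hterm a ha b hb
  have hsum : ∑ a ∈ t, ∑ b ∈ t, ((ρ ^ 2 - 1) + (if a = b then (1:ℝ) else 0)) = N * (N * (ρ ^ 2 - 1)) + N := by
    have : ∀ a ∈ t, ∑ b ∈ t, ((ρ ^ 2 - 1) + (if a = b then (1:ℝ) else 0)) = N * (ρ ^ 2 - 1) + 1 := by
      intro a ha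
      rw [Finset.sum_add_distrib, Finset.sum_const, htc]
      simp [ha]
    rw [Finset.sum_congr rfl this, Finset.sum_const, htc, nsmul_eq_mul]
    ring
  have hfin : 0 ≤ (N : ℝ) * (N * (ρ ^ 2 - 1)) + N := by
    rw [← hsum]; rw [hexp] at h0; exact h0.trans hle
  have : (N : ℝ) * (1 - ρ ^ 2) ≤ 1 := by
    by_contra hc
    push Not at hc
    nlinarith
  have h2 : ρ ^ 2 / (1 - ρ ^ 2) < N - 1 := by linarith
  rw [div_lt_iff₀ hgap] at h2
  nlinarith

lemma voronoi {E : Type} [NormedAddCommGroup E] [InnerProductSpace ℝ E]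
    (D : AddSubgroup E) (hsep : ∀ v ∈ D, v ≠ 0 → 2 ≤ ‖v‖ ^ 2)
    (hnear : ∀ x : E, ∃ d ∈ D, ‖x - d‖ ≤ 1 ∧ ∀ d' ∈ D, ‖x - d‖ ≤ ‖x - d'‖) :
    ∃ (C : Set E) (T : Set E),
        IsClosed C ∧ Convex ℝ C ∧ Bornology.IsBounded C ∧ (interior C).Nonempty ∧
        (⋃ t ∈ T, t +ᵥ C) = Set.univ ∧
        ∀ s ∈ T, ∀ t ∈ T, s ≠ t →
          Disjoint (interior (s +ᵥ C)) (interior (t +ᵥ C)) := by
  have hiff : ∀ v d : E, ‖v‖ ≤ ‖v - d‖ ↔ inner ℝ d v ≤ ‖d‖ ^ 2 / 2 := by
    intro v d
    rw [← sq_le_sq₀ (norm_nonneg _) (norm_nonneg _), norm_sub_sq_real, real_inner_comm]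
    constructor <;> intro h <;> linarith
  set C : Set E := {v | ∀ d ∈ D, ‖v‖ ≤ ‖v - d‖} with hC
  have hmem : ∀ (s z : E), z ∈ s +ᵥ C ↔ ∀ d ∈ D, ‖z - s‖ ≤ ‖z - s - d‖ := by
    intro s z
    rw [Set.mem_vadd_set_iff_neg_vadd_mem]
    simp only [vadd_eq_add, hC, Set.mem_ofPred_eq, neg_add_eq_sub]
  refine ⟨C, D, ?_, ?_, ?_, ?_, ?_, ?_⟩
  · have : C = ⋂ d ∈ D, {v | ‖v‖ ≤ ‖v - d‖} := by
      ext v; simp [hC]
    rw [this]
    refine isClosed_biInter fun d _ => ?_
    exact isClosed_le continuous_norm (continuous_id.sub continuous_const).norm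
  · have : C = ⋂ d ∈ D, {v | inner ℝ d v ≤ ‖d‖ ^ 2 / 2} := by
      ext v; simp [hC, hiff]
    rw [this]
    refine convex_iInter₂ fun d _ => ?_
    exact convex_halfSpace_le (IsLinearMap.mk (fun a b => inner_add_right _ _ _)
      (fun c a => by rw [inner_smul_right]; rfl)) _
  · rw [Metric.isBounded_iff_subset_closedBall 0]
    refine ⟨1, ?_⟩
    intro v hv
    obtain ⟨d, hd, hd1, _⟩ := hnear v
    rw [mem_closedBall_zero_iff]
    exact (hv d hd).trans hd1
  · refine ⟨0, ?_⟩
    rw [mem_interior]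
    refine ⟨Metric.ball 0 (1 / 2), ?_, Metric.isOpen_ball, Metric.mem_ball_self (by norm_num)⟩
    intro v hv d hd
    rw [mem_ball_zero_iff] at hv
    by_cases hd0 : d = 0
    · subst hd0; simp
    · have h1 := hsep d hd hd0
      have h2 : 1 ≤ ‖d‖ := by
        by_contra h
        push Not at h
        have := norm_nonneg d
        nlinarith
      have h3 : ‖d‖ ≤ ‖v - d‖ + ‖v‖ := by
        have := norm_sub_le (v - d) v
        have h4 : ‖v - d - v‖ = ‖d‖ := by
          rw [show v - d - v = -d by abel, norm_neg]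
        rw [h4] at this; exact this
      linarith
  · refine Set.eq_univ_of_forall fun x => ?_
    obtain ⟨d, hd, _, hd2⟩ := hnear x
    refine Set.mem_iUnion₂.2 ⟨d, hd, ?_⟩
    rw [hmem]
    intro d' hd'
    have := hd2 (d + d') (D.add_mem hd hd')
    rwa [← sub_sub] at this
  · intro s hs t ht hst
    rw [Set.disjoint_left]
    intro z hz1 hz2
    have hz : z ∈ interior ((s +ᵥ C) ∩ (t +ᵥ C)) := by
      rw [interior_inter]; exact ⟨hz1, hz2⟩
    rw [mem_interior_iff_mem_nhds, Metric.mem_nhds_iff] at hz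
    obtain ⟨ε, hε, hball⟩ := hz
    have heq : ∀ z' ∈ Metric.ball z ε, ‖z' - s‖ ^ 2 = ‖z' - t‖ ^ 2 := by
      intro z' hz'
      obtain ⟨h1, h2⟩ := hball hz'
      rw [hmem] at h1 h2
      have h3 := h1 (t - s) (D.sub_mem ht hs)
      have h4 := h2 (s - t) (D.sub_mem hs ht)
      have h5 : z' - s - (t - s) = z' - t := by abel
      have h6 : z' - t - (s - t) = z' - s := by abel
      rw [h5] at h3
      rw [h6] at h4
      rw [le_antisymm h3 h4]
    have hw : 0 < ‖t - s‖ := norm_pos_iff.2 (sub_ne_zero.2 (Ne.symm hst))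
    set c : ℝ := ε / (2 * ‖t - s‖) with hc
    have hcpos : 0 < c := by positivity
    have hz0 := heq z (Metric.mem_ball_self hε)
    have hz1' : z + c • (t - s) ∈ Metric.ball z ε := by
      rw [Metric.mem_ball, dist_eq_norm, add_sub_cancel_left, norm_smul, Real.norm_of_nonneg hcpos.le, hc]
      field_simp
      linarith
    have hz2' := heq _ hz1'
    have e1 : z + c • (t - s) - s = (z - s) + c • (t - s) := by abel
    have e2 : z + c • (t - s) - t = (z - t) + c • (t - s) := by abel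
    rw [e1, e2, norm_add_sq_real, norm_add_sq_real, hz0, inner_smul_right, inner_smul_right] at hz2'
    have h7 : inner ℝ (z - s) (t - s) = inner ℝ (z - t) (t - s) := by
      have : c * inner ℝ (z - s) (t - s) = c * inner ℝ (z - t) (t - s) := by linarith
      exact mul_left_cancel₀ hcpos.ne' this
    have h8 : inner ℝ (t - s) (t - s) = (0 : ℝ) := by
      have : t - s = (z - s) - (z - t) := by abel
      conv_lhs => rw [show inner ℝ (t - s) (t - s) = inner ℝ ((z - s) - (z - t)) (t - s) by rw [← this]]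
      rw [inner_sub_left, h7, sub_self]
    rw [real_inner_self_eq_norm_sq] at h8
    have : 0 < ‖t - s‖ ^ 2 := by positivity
    linarith

lemma main_construction : ∃ D : AddSubgroup H, (∀ v ∈ D, v ≠ 0 → 2 ≤ ‖v‖ ^ 2) ∧
    (∀ x : H, ∃ d ∈ D, ‖x - d‖ ≤ 1 ∧ ∀ d' ∈ D, ‖x - d‖ ≤ ‖x - d'‖) := by
  classical
  obtain ⟨x, hx⟩ := exists_surj
  obtain ⟨γ, hγ1, hγ2⟩ := exists_fresh x
  set d : I → H := fun i => x i + e (γ i) with hd
  obtain ⟨P, hP⟩ := exists_rec x d
  have hlow : ∀ i, ∀ w ∈ Submodule.span ℤ (d '' {j | j < i ∧ P j}), w (γ i) = 0 := by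
    intro i w hw
    induction hw using Submodule.span_induction with
    | mem w hw =>
      obtain ⟨j, ⟨hj, _⟩, rfl⟩ := hw
      simp only [hd, lp.coeFn_add, Pi.add_apply]
      rw [hγ1 i j hj.le, e_apply_ne _ _ (hγ2 i j hj), add_zero]
    | zero => simp
    | add a b _ _ ha hb => simp [ha, hb]
    | smul m a _ ha => simp [ha]
  have hsep : ∀ v ∈ Submodule.span ℤ (d '' {j | P j}), v ≠ 0 → 2 ≤ ‖v‖ ^ 2 := by
    intro v hv hv0
    obtain ⟨i, hPi, m, hm, w, hw, rfl⟩ := top_decomp d P v hv hv0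
    have hw0 := hlow i w hw
    have hx0 : x i (γ i) = 0 := hγ1 i i le_rfl
    have hdec : m • d i + w = (m • x i + w) + (m : ℝ) • e (γ i) := by
      simp only [hd, smul_add]
      rw [← Int.cast_smul_eq_zsmul ℝ m (e (γ i))]
      abel
    have hin : inner ℝ (m • x i + w) (e (γ i)) = (0 : ℝ) := by
      rw [← Int.cast_smul_eq_zsmul ℝ m (x i), inner_add_left, real_inner_smul_left, inner_e, inner_e,
        hw0, hx0]
      simp
    have hnorm : ‖m • d i + w‖ ^ 2 = ‖m • x i + w‖ ^ 2 + (m : ℝ) ^ 2 := by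
      rw [hdec, norm_add_sq_real, inner_smul_right, hin, norm_smul, norm_e]
      simp
    rw [hnorm]
    by_cases hm2 : 2 ≤ |m|
    · have h1 : (4 : ℝ) ≤ (m : ℝ) ^ 2 := by
        have : (4 : ℤ) ≤ m ^ 2 := by
          rw [← sq_abs]; nlinarith
        exact_mod_cast this
      have h2 : 0 ≤ ‖m • x i + w‖ ^ 2 := by positivity
      linarith
    · have hm1 : |m| = 1 := by
        have : 0 < |m| := abs_pos.2 hm
        omega
      have h1 : (m : ℝ) ^ 2 = 1 := by
        have : m ^ 2 = 1 := by rw [← sq_abs, hm1]; norm_num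
        exact_mod_cast this
      have h2 : 1 ≤ ‖m • x i + w‖ := by
        have hPi' := (hP i).1 hPi
        rcases (abs_eq (by norm_num : (0:ℤ) ≤ 1)).1 hm1 with h | h
        · have := hPi' (-w) (Submodule.neg_mem _ hw)
          rw [sub_neg_eq_add] at this
          rw [h, one_smul]; exact this
        · have := hPi' w hw
          rw [h, neg_smul, one_smul, neg_add_eq_sub, norm_sub_rev]; exact this
      nlinarith
  refine ⟨(Submodule.span ℤ (d '' {j | P j})).toAddSubgroup, ?_, ?_⟩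
  · intro v hv hv0
    exact hsep v hv hv0
  · intro y
    simp only [Submodule.mem_toAddSubgroup]
    by_cases hc : ∃ v ∈ Submodule.span ℤ (d '' {j | P j}), ‖y - v‖ < 1
    · obtain ⟨v, hv, hv1⟩ := hc
      set S : Set H := {a | a ∈ Submodule.span ℤ (d '' {j | P j}) ∧ ‖y - a‖ ≤ ‖y - v‖} with hS
      have hfin : S.Finite := by
        refine finite_close S y ‖y - v‖ hv1 (fun a ha => ha.2) ?_
        intro a ha b hb hab
        exact hsep _ (Submodule.sub_mem _ ha.1 hb.1) (sub_ne_zero.2 hab)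
      obtain ⟨a, haS, ha⟩ := hfin.exists_minimalFor (fun a => ‖y - a‖) S ⟨v, hv, le_rfl⟩
      refine ⟨a, haS.1, haS.2.trans hv1.le, ?_⟩
      intro d' hd'
      by_contra hcon
      push Not at hcon
      have hd'S : d' ∈ S := ⟨hd', (hcon.le).trans haS.2⟩
      have := ha hd'S hcon.le
      exact absurd this (not_le.2 hcon)
    · push Not at hc
      obtain ⟨i, rfl⟩ := hx y
      have hPi : P i := by
        rw [hP]
        intro v hv
        exact hc v (Submodule.span_mono (Set.image_mono (fun j hj => hj.2)) hv)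
      have hnorm : ‖x i - d i‖ = 1 := by
        simp only [hd]
        rw [sub_add_cancel_left, norm_neg, norm_e]
      refine ⟨d i, Submodule.subset_span ⟨i, hPi, rfl⟩, hnorm.le, ?_⟩
      intro d' hd'
      rw [hnorm]
      exact hc d' hd'

lemma reflexive_H : Function.Surjective (NormedSpace.inclusionInDoubleDual ℝ H) := by
  intro φ
  let ψ : StrongDual ℝ H :=
    { toFun := fun z => φ (InnerProductSpace.toDual ℝ H z)
      map_add' := fun a b => by simp
      map_smul' := fun c a => by simp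
      cont := φ.continuous.comp (InnerProductSpace.toDual ℝ H).continuous }
  refine ⟨(InnerProductSpace.toDual ℝ H).symm ψ, ?_⟩
  ext f
  obtain ⟨z, rfl⟩ := (InnerProductSpace.toDual ℝ H).surjective f
  rw [NormedSpace.dual_def, InnerProductSpace.toDual_apply_apply, real_inner_comm]
  have : inner ℝ ((InnerProductSpace.toDual ℝ H).symm ψ) z = ψ z := InnerProductSpace.toDual_symm_apply
  rw [this]
  rfl

lemma infinite_H : ¬ FiniteDimensional ℝ H := by
  classical
  intro hfd
  have hli : LinearIndependent ℝ e := by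
    have : Orthonormal ℝ e := by
      rw [orthonormal_iff_ite]
      intro i j
      rw [inner_e]
      by_cases h : i = j
      · subst h
        simp [e, lp.single_apply]
      · rw [e_apply_ne _ _ (Ne.symm h)]; simp [h]
    exact this.linearIndependent
  have := hli.finite
  exact not_finite ℝ

/-- Some infinite-dimensional reflexive real Banach space has a closed convex bounded set C with nonempty interior and a set T of vectors so that the translates t+C, t in T, cover the space and distinct translates have disjoint interiors. -/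
theorem result :
    ∃ (X : Type) (_ : NormedAddCommGroup X) (_ : NormedSpace ℝ X),
      CompleteSpace X ∧ ¬ FiniteDimensional ℝ X ∧
      Function.Surjective (NormedSpace.inclusionInDoubleDual ℝ X) ∧
      ∃ (C : Set X) (T : Set X),
        IsClosed C ∧ Convex ℝ C ∧ Bornology.IsBounded C ∧ (interior C).Nonempty ∧
        (⋃ t ∈ T, t +ᵥ C) = Set.univ ∧
        ∀ s ∈ T, ∀ t ∈ T, s ≠ t →
          Disjoint (interior (s +ᵥ C)) (interior (t +ᵥ C)) := by
  obtain ⟨D, h1, h2⟩ := main_construction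
  exact ⟨H, inferInstance, inferInstance, inferInstance, infinite_H, reflexive_H,
    voronoi D h1 h2⟩

end

end Pool.Agent.S04047
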