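import Pool.Statements.S04055
-- import your own Pool.Agent.* helpers here

set_option autoImplicit false
open Pool Pool.MP_cb17ae_an

namespace Pool.Agent.S04055

open Filter Topology MeasureTheory

section BanachPart

variable {B : Type} [NormedCommRing B] [NormedAlgebra ℂ B] [CompleteSpace B]

/-- local structure at a real point of the spectrum -/
theorem local_structure (Y : B)
    (hU : ∀ μ : ℂ, μ.im ≠ 0 → IsUnit (Y - algebraMap ℂ B μ))
    (hD : ∀ b : B, ∃ (a : ℂ) (w : B), b = algebraMap ℂ B a + Y * w)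
    (hY : ¬ IsUnit Y) :
    ∃ (m : ℕ) (a : ℂ) (w : B), a ≠ 0 ∧ Y ^ (m + 1) * (algebraMap ℂ B a + Y * w) = 0 := by
  have hnt : Nontrivial B := by
    by_contra h
    rw [not_nontrivial_iff_subsingleton] at h
    exact hY (isUnit_of_subsingleton Y)
  -- the surjection
  let T : ℂ × B →L[ℂ] B :=
    (Algebra.linearMap ℂ B).toContinuousLinearMap.coprod (ContinuousLinearMap.mul ℂ B Y)
  have hT : ∀ a w, T (a, w) = algebraMap ℂ B a + Y * w := by
    intro a w
    simp [T]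
  have hsurj : Function.Surjective T := by
    intro b
    obtain ⟨a, w, h⟩ := hD b
    exact ⟨(a, w), by rw [hT]; exact h.symm⟩
  obtain ⟨C, hC0, hC⟩ := T.exists_preimage_norm_le hsurj
  choose pre hpre hnorm using hC
  have hpre' : ∀ b, b = algebraMap ℂ B (pre b).1 + Y * (pre b).2 := by
    intro b
    rw [← hT]
    exact (hpre b).symm
  have hsnd : ∀ b, ‖(pre b).2‖ ≤ C * ‖b‖ := fun b => (norm_snd_le _).trans (hnorm b)
  have hunit : ∀ (c : ℂ) (w : B), Y * w = algebraMap ℂ B c → c = 0 := by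
    intro c w h
    by_contra hc
    apply hY
    have : Y * (w * algebraMap ℂ B c⁻¹) = 1 := by
      rw [← mul_assoc, h, ← map_mul, mul_inv_cancel₀ hc, map_one]
    exact IsUnit.of_mul_eq_one _ this
  -- kernel element
  have hker : ∃ k : B, k ≠ 0 ∧ Y * k = 0 := by
    have h1 : 0 < ‖(1 : B)‖ := norm_pos_iff.mpr one_ne_zero
    set K : ℝ := ‖(1 : B)‖ with hK
    obtain ⟨ε, hε0, hε⟩ : ∃ ε : ℝ, 0 < ε ∧ C * (ε * (K * K + 1)) < 1 := by
      refine ⟨1 / (2 * (C * (K * K + 1))), by positivity, ?_⟩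
      have : C * (1 / (2 * (C * (K * K + 1))) * (K * K + 1)) = 1 / 2 := by
        field_simp
      rw [this]; norm_num
    obtain ⟨u, hu⟩ := hU (ε * Complex.I) (by simp [hε0.ne'])
    set r : B := ((u⁻¹ : Bˣ) : B) with hr
    have hr0 : 0 < ‖r‖ := norm_pos_iff.mpr (Units.ne_zero _)
    have hrbig : ‖r‖⁻¹ ≤ ε * K := by
      by_contra hlt
      push Not at hlt
      apply hY
      have hn : ‖algebraMap ℂ B (ε * Complex.I)‖ < ‖((u⁻¹ : Bˣ) : B)‖⁻¹ := by
        rw [norm_algebraMap]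
        simp only [norm_mul, Complex.norm_real, Complex.norm_I, mul_one, Real.norm_eq_abs,
          abs_of_pos hε0]
        exact hlt
      have := (u.add (algebraMap ℂ B (ε * Complex.I)) hn).isUnit
      rw [Units.val_add, hu] at this
      simpa using this
    set v : B := ((‖r‖⁻¹ : ℝ) : ℂ) • r with hv
    have hvn : ‖v‖ = 1 := by
      rw [hv, norm_smul, Complex.norm_real, norm_inv, norm_norm, inv_mul_cancel₀ hr0.ne']
    have hur : (Y - algebraMap ℂ B (ε * Complex.I)) * r = 1 := by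
      rw [← hu]; exact u.mul_inv
    have hYr : Y * r = 1 + algebraMap ℂ B (ε * Complex.I) * r := by
      rw [sub_mul, sub_eq_iff_eq_add] at hur
      exact hur
    have hYv : ‖Y * v‖ ≤ ε * (K * K + 1) := by
      have e1 : Y * v = ((‖r‖⁻¹ : ℝ) : ℂ) • (1 : B) + (ε * Complex.I : ℂ) • v := by
        rw [hv, mul_smul_comm, hYr, smul_add, Algebra.algebraMap_eq_smul_one, smul_mul_assoc,
          one_mul, smul_comm]
      rw [e1]
      calc ‖((‖r‖⁻¹ : ℝ) : ℂ) • (1 : B) + (ε * Complex.I : ℂ) • v‖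
          ≤ ‖((‖r‖⁻¹ : ℝ) : ℂ) • (1 : B)‖ + ‖(ε * Complex.I : ℂ) • v‖ := norm_add_le _ _
        _ = ‖r‖⁻¹ * K + ε := by
            rw [norm_smul, norm_smul, hvn]
            simp [abs_of_pos hε0]
            exact Or.inl hK.symm
        _ ≤ ε * K * K + ε := by gcongr
        _ = ε * (K * K + 1) := by ring
    refine ⟨v - (pre (Y * v)).2, ?_, ?_⟩
    · intro h0
      have h2 : ‖(pre (Y * v)).2‖ < 1 := by
        calc ‖(pre (Y * v)).2‖ ≤ C * ‖Y * v‖ := hsnd _
          _ ≤ C * (ε * (K * K + 1)) := by gcongr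
          _ < 1 := hε
      rw [← sub_eq_zero.mp h0, hvn] at h2
      exact lt_irrefl _ h2
    · have h3 : Y * (v - (pre (Y * v)).2) = algebraMap ℂ B (pre (Y * v)).1 := by
        rw [mul_sub]
        nth_rewrite 1 [hpre' (Y * v)]
        ring
      have h4 := hunit _ _ h3
      rw [h3, h4, map_zero]
  obtain ⟨k, hk0, hYk⟩ := hker
  -- expansion
  let b : ℕ → B := fun n => (fun y => (pre y).2)^[n] k
  have hb0 : b 0 = k := rfl
  have hbs : ∀ n, b (n + 1) = (pre (b n)).2 := fun n => Function.iterate_succ_apply' _ _ _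
  have hbe : ∀ n, b n = algebraMap ℂ B (pre (b n)).1 + Y * b (n + 1) := by
    intro n
    rw [hbs]
    exact hpre' (b n)
  have hbn : ∀ n, ‖b n‖ ≤ C ^ n * ‖k‖ := by
    intro n
    induction n with
    | zero => simp [hb0]
    | succ n ih =>
      rw [hbs]
      calc ‖(pre (b n)).2‖ ≤ C * ‖b n‖ := hsnd _
        _ ≤ C * (C ^ n * ‖k‖) := by gcongr
        _ = C ^ (n + 1) * ‖k‖ := by ring
  have hex : ∃ m, (pre (b m)).1 ≠ 0 := by
    by_contra hall
    push Not at hall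
    have hY1 : ∀ n, Y * b (n + 1) = b n := by
      intro n
      have := hbe n
      rw [hall n, map_zero, zero_add] at this
      exact this.symm
    set μ : ℂ := ((1 / (3 * C) : ℝ) : ℂ) * Complex.I with hμ
    have hμn : ‖μ‖ = 1 / (3 * C) := by
      rw [hμ, norm_mul, Complex.norm_I, mul_one, Complex.norm_real, Real.norm_eq_abs,
        abs_of_pos (by positivity)]
    have hμC : ‖μ‖ * C = 1 / 3 := by
      rw [hμn]; field_simp
    have hFn : ∀ n, ‖μ ^ n • b n‖ ≤ (1 / 3) ^ n * ‖k‖ := by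
      intro n
      rw [norm_smul, norm_pow]
      calc ‖μ‖ ^ n * ‖b n‖ ≤ ‖μ‖ ^ n * (C ^ n * ‖k‖) := by
            gcongr; exact hbn n
        _ = (‖μ‖ * C) ^ n * ‖k‖ := by rw [mul_pow]; ring
        _ = _ := by rw [hμC]
    have hgeo : HasSum (fun n : ℕ => (1 / 3 : ℝ) ^ n * ‖k‖) (3 / 2 * ‖k‖) := by
      have := (hasSum_geometric_of_lt_one (r := (1 / 3 : ℝ)) (by norm_num) (by norm_num)).mul_right
        ‖k‖
      rwa [show ((1 - 1 / 3 : ℝ))⁻¹ = 3 / 2 by norm_num] at this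
    have hS : Summable (fun n => μ ^ n • b n) := Summable.of_norm_bounded hgeo.summable hFn
    set w : B := ∑' n, μ ^ n • b n with hw
    have hw1 : w = k + ∑' n, μ ^ (n + 1) • b (n + 1) := by
      rw [hw, hS.tsum_eq_zero_add]
      simp [hb0]
    have hS1 : Summable (fun n => μ ^ (n + 1) • b (n + 1)) :=
      (summable_nat_add_iff (f := fun n => μ ^ n • b n) 1).mpr hS
    have hYw : Y * w = μ • w := by
      rw [hw1, mul_add, hYk, zero_add, ← hS1.tsum_mul_left Y]
      have : (fun n => Y * μ ^ (n + 1) • b (n + 1)) = fun n => μ • (μ ^ n • b n) := by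
        funext n
        rw [mul_smul_comm, hY1, smul_smul, pow_succ']
      rw [show (∑' n, Y * μ ^ (n + 1) • b (n + 1)) = ∑' n, μ • (μ ^ n • b n) from
        congrArg tsum this]
      rw [hS.tsum_const_smul, ← hw1]
    have hw0 : w = 0 := by
      have hμim : μ.im ≠ 0 := by
        rw [hμ]
        simp
        exact hC0.ne'
      obtain ⟨u, hu⟩ := hU μ hμim
      have h5 : (Y - algebraMap ℂ B μ) * w = 0 := by
        rw [sub_mul, hYw, Algebra.smul_def, sub_self]
      rw [← hu] at h5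
      exact (Units.mul_right_eq_zero u).mp h5
    have hgeo1 : HasSum (fun n : ℕ => (1 / 3 : ℝ) ^ (n + 1) * ‖k‖) (1 / 2 * ‖k‖) := by
      have h6 := (hasSum_nat_add_iff' (f := fun n : ℕ => (1 / 3 : ℝ) ^ n * ‖k‖) 1).mpr hgeo
      rw [Finset.sum_range_one, pow_zero, one_mul,
        show (3 / 2 * ‖k‖ - ‖k‖ : ℝ) = 1 / 2 * ‖k‖ by ring] at h6
      exact h6
    have h7 : ‖∑' n, μ ^ (n + 1) • b (n + 1)‖ ≤ 1 / 2 * ‖k‖ :=
      tsum_of_norm_bounded hgeo1 (fun n => hFn (n + 1))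
    have h8 : ‖k‖ ≤ 1 / 2 * ‖k‖ := by
      have : k = - ∑' n, μ ^ (n + 1) • b (n + 1) := by
        rw [hw0] at hw1
        exact eq_neg_of_add_eq_zero_left hw1.symm
      calc ‖k‖ = ‖- ∑' n, μ ^ (n + 1) • b (n + 1)‖ := by rw [← this]
        _ = ‖∑' n, μ ^ (n + 1) • b (n + 1)‖ := norm_neg _
        _ ≤ _ := h7
    have h9 : 0 < ‖k‖ := norm_pos_iff.mpr hk0
    linarith
  classical
  let m := Nat.find hex
  have hm : (pre (b m)).1 ≠ 0 := Nat.find_spec hex
  have hmin : ∀ j < m, (pre (b j)).1 = 0 := by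
    intro j hj
    by_contra h
    exact Nat.find_min hex hj h
  have hkm : ∀ j ≤ m, k = Y ^ j * b j := by
    intro j
    induction j with
    | zero => intro _; simp [hb0]
    | succ j ih =>
      intro hj
      have h10 := ih (by omega)
      have h11 := hbe j
      rw [hmin j (by omega), map_zero, zero_add] at h11
      rw [h10, h11, pow_succ, mul_assoc]
  refine ⟨m, (pre (b m)).1, b (m + 1), hm, ?_⟩
  rw [← hbe m, pow_succ', mul_assoc, ← hkm m le_rfl, hYk]

/-- the element `X` is algebraic -/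
theorem algebraic_of_structure (X : B)
    (hU : ∀ μ : ℂ, μ.im ≠ 0 → IsUnit (X - algebraMap ℂ B μ))
    (hD : ∀ (t : ℝ) (b : B), ∃ (a : ℂ) (w : B),
      b = algebraMap ℂ B a + (X - algebraMap ℂ B t) * w) :
    ∃ p : Polynomial ℂ, p ≠ 0 ∧ Polynomial.aeval X p = 0 := by
  let I : Ideal B :=
    { carrier := {b | ∃ p : Polynomial ℂ, p ≠ 0 ∧ Polynomial.aeval X p * b = 0}
      zero_mem' := ⟨1, one_ne_zero, by simp⟩
      add_mem' := by
        rintro a b ⟨p, hp, hpa⟩ ⟨q, hq, hqb⟩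
        refine ⟨p * q, mul_ne_zero hp hq, ?_⟩
        rw [map_mul]
        calc Polynomial.aeval X p * Polynomial.aeval X q * (a + b)
            = Polynomial.aeval X q * (Polynomial.aeval X p * a)
              + Polynomial.aeval X p * (Polynomial.aeval X q * b) := by ring
          _ = 0 := by rw [hpa, hqb]; simp
      smul_mem' := by
        rintro c b ⟨p, hp, hpb⟩
        refine ⟨p, hp, ?_⟩
        rw [smul_eq_mul, mul_left_comm, hpb, mul_zero] }
  by_cases hI : I = ⊤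
  · have h1 : (1 : B) ∈ I := by rw [hI]; trivial
    obtain ⟨p, hp, h⟩ := h1
    exact ⟨p, hp, by simpa using h⟩
  · exfalso
    obtain ⟨M, hM, hIM⟩ := I.exists_le_maximal hI
    set χ := M.toCharacterSpace with hχ
    have hχ1 : χ 1 = 1 := map_one χ
    have hχa : ∀ a : ℂ, χ (algebraMap ℂ B a) = a := by
      intro a
      rw [Algebra.algebraMap_eq_smul_one, map_smul, hχ1, smul_eq_mul, mul_one]
    have hnu : ∀ y : B, χ y = 0 → ¬ IsUnit y := by
      intro y hy hu
      have := hu.map χ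
      rw [hy] at this
      exact not_isUnit_zero this
    have him : (χ X).im = 0 := by
      by_contra hne
      refine hnu (X - algebraMap ℂ B (χ X)) ?_ (hU _ hne)
      rw [map_sub, hχa, sub_self]
    set t : ℝ := (χ X).re with ht
    have hXt : χ X = (t : ℂ) := by
      apply Complex.ext
      · simp [ht]
      · simp [him]
    have hYχ : χ (X - algebraMap ℂ B t) = 0 := by
      rw [map_sub, hχa, hXt, sub_self]
    obtain ⟨m, a, w, ha, hmw⟩ := local_structure (X - algebraMap ℂ B t) (by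
        intro μ hμ
        have := hU (t + μ) (by simpa using hμ)
        rw [map_add, ← sub_sub] at this
        exact this) (hD t) (hnu _ hYχ)
    have hmem : algebraMap ℂ B a + (X - algebraMap ℂ B t) * w ∈ I := by
      refine ⟨(Polynomial.X - Polynomial.C (t : ℂ)) ^ (m + 1),
        pow_ne_zero _ (Polynomial.X_sub_C_ne_zero _), ?_⟩
      rw [map_pow, map_sub, Polynomial.aeval_X, Polynomial.aeval_C]
      exact hmw
    have h0 := M.toCharacterSpace_apply_eq_zero_of_mem (hIM hmem)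
    rw [← hχ, map_add, map_mul, hYχ, zero_mul, add_zero, hχa] at h0
    exact ha h0

/-- only roots in the unit interval matter -/
theorem prod_reduction (X : B)
    (hU : ∀ μ : ℂ, (∀ t ∈ Set.Icc (0 : ℝ) 1, (t : ℂ) ≠ μ) → IsUnit (X - algebraMap ℂ B μ))
    (hD : ∀ (t : ℝ) (b : B), ∃ (a : ℂ) (w : B),
      b = algebraMap ℂ B a + (X - algebraMap ℂ B t) * w) :
    ∃ L : List ℝ, (∀ t ∈ L, t ∈ Set.Icc (0 : ℝ) 1) ∧
      (L.map (fun t : ℝ => X - algebraMap ℂ B t)).prod = 0 := by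
  obtain ⟨p, hp, hpX⟩ := algebraic_of_structure X (by
    intro μ hμ
    apply hU
    intro t _ h
    apply hμ
    rw [← h]
    simp) hD
  have key : ∀ s : Multiset ℂ, ∃ L : List ℝ, (∀ t ∈ L, t ∈ Set.Icc (0 : ℝ) 1) ∧
      ∃ u : Bˣ, (s.map (fun z => X - algebraMap ℂ B z)).prod =
        u * (L.map (fun t : ℝ => X - algebraMap ℂ B t)).prod := by
    intro s
    induction s using Multiset.induction_on with
    | empty => exact ⟨[], by simp, 1, by simp⟩
    | cons z s ih =>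
      obtain ⟨L, hL, u, hu⟩ := ih
      by_cases hz : ∃ t ∈ Set.Icc (0 : ℝ) 1, (t : ℂ) = z
      · obtain ⟨t, ht, rfl⟩ := hz
        refine ⟨t :: L, ?_, u, ?_⟩
        · intro t' ht'
          rcases List.mem_cons.mp ht' with rfl | h
          · exact ht
          · exact hL _ h
        · rw [Multiset.map_cons, Multiset.prod_cons, hu, List.map_cons, List.prod_cons]
          ring
      · push Not at hz
        obtain ⟨v, hv⟩ := hU z hz
        refine ⟨L, hL, v * u, ?_⟩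
        rw [Multiset.map_cons, Multiset.prod_cons, hu, ← hv, Units.val_mul, mul_assoc]
  obtain ⟨L, hL, u, hu⟩ := key p.roots
  refine ⟨L, hL, ?_⟩
  have hsplit := (IsAlgClosed.splits p).eq_prod_roots
  rw [hsplit, map_mul, Polynomial.aeval_C, map_multiset_prod, Multiset.map_map] at hpX
  have hlc : IsUnit (algebraMap ℂ B p.leadingCoeff) :=
    (IsUnit.mk0 _ (Polynomial.leadingCoeff_ne_zero.mpr hp)).map _
  have h1 := (hlc.mul_right_eq_zero).mp hpX
  have h2 : (p.roots.map (fun z => X - algebraMap ℂ B z)).prod = 0 := by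
    rw [← h1]
    congr 1
    apply Multiset.map_congr rfl
    intro z _
    simp
  rw [hu] at h2
  exact (Units.mul_right_eq_zero u).mp h2

end BanachPart

section SmoothPart

/-- averaging operator -/
noncomputable def G (k : ℕ) (h : ℝ → ℂ) (t : ℝ) (x : ℝ) : ℂ :=
  ∫ s in (0 : ℝ)..1, ((s ^ k : ℝ) : ℂ) * h (t + s * (x - t))

theorem G_hasDerivAt (k : ℕ) (h : ℝ → ℂ) (t x : ℝ) (hh : ContDiff ℝ (⊤ : ℕ∞) h) :
    HasDerivAt (G k h t) (G (k + 1) (deriv h) t x) x := by
  have hd : Differentiable ℝ h := hh.differentiable (by simp)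
  have hc' : Continuous (deriv h) := hh.continuous_deriv (by simp)
  have hcF' : Continuous (fun p : ℝ × ℝ =>
      ((p.2 ^ (k + 1) : ℝ) : ℂ) * deriv h (t + p.2 * (p.1 - t))) := by
    fun_prop
  obtain ⟨K, hK⟩ := ((isCompact_closedBall x 1).prod (isCompact_Icc (a := (0 : ℝ)) (b := 1))).exists_bound_of_continuousOn
    hcF'.continuousOn
  have := intervalIntegral.hasDerivAt_integral_of_dominated_loc_of_deriv_le
    (μ := volume) (a := (0 : ℝ)) (b := 1) (E := ℂ) (𝕜 := ℝ) (x₀ := x)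
    (s := Metric.closedBall x 1) (bound := fun _ => K)
    (F := fun x s => ((s ^ k : ℝ) : ℂ) * h (t + s * (x - t)))
    (F' := fun x s => ((s ^ (k + 1) : ℝ) : ℂ) * deriv h (t + s * (x - t)))
    (Metric.closedBall_mem_nhds x one_pos) ?_ ?_ ?_ ?_ ?_ ?_
  · exact this.2
  · refine Eventually.of_forall fun y => Continuous.aestronglyMeasurable ?_
    have := hh.continuous
    fun_prop
  · apply Continuous.intervalIntegrable
    have := hh.continuous
    fun_prop
  · apply Continuous.aestronglyMeasurable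
    fun_prop
  · refine Eventually.of_forall fun s hs y hy => ?_
    rw [Set.uIoc_of_le zero_le_one] at hs
    exact hK (y, s) ⟨hy, ⟨hs.1.le, hs.2⟩⟩
  · exact intervalIntegrable_const
  · refine Eventually.of_forall fun s hs y hy => ?_
    have h1 : HasDerivAt (fun x : ℝ => t + s * (x - t)) s y := by
      have := (((hasDerivAt_id y).sub_const t).const_mul s).const_add t
      simpa using this
    have h2 : HasDerivAt (fun x : ℝ => h (t + s * (x - t))) (s • deriv h (t + s * (y - t))) y :=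
      (hd _).hasDerivAt.scomp y h1
    have h3 := h2.const_mul ((s ^ k : ℝ) : ℂ)
    have e : ((s ^ (k + 1) : ℝ) : ℂ) * deriv h (t + s * (y - t))
        = ((s ^ k : ℝ) : ℂ) * s • deriv h (t + s * (y - t)) := by
      rw [Complex.real_smul, ← mul_assoc]
      push_cast
      ring
    rw [e]
    exact h3

theorem iteratedDeriv_G (m k : ℕ) (h : ℝ → ℂ) (t : ℝ) (hh : ContDiff ℝ (⊤ : ℕ∞) h) :
    iteratedDeriv m (G k h t) = G (k + m) (iteratedDeriv m h) t := by
  induction m with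
  | zero => simp
  | succ m ih =>
    rw [iteratedDeriv_succ, ih]
    funext x
    have hs : ContDiff ℝ (⊤ : ℕ∞) (iteratedDeriv m h) := by
      rw [iteratedDeriv_eq_iterate]
      exact ContDiff.iterate_deriv m hh
    rw [(G_hasDerivAt (k + m) (iteratedDeriv m h) t x hs).deriv, iteratedDeriv_succ]
    rfl

theorem G_smooth (k : ℕ) (h : ℝ → ℂ) (t : ℝ) (hh : ContDiff ℝ (⊤ : ℕ∞) h) :
    ContDiff ℝ (⊤ : ℕ∞) (G k h t) := by
  apply contDiff_of_differentiable_iteratedDeriv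
  intro m _
  rw [iteratedDeriv_G m k h t hh]
  have hs : ContDiff ℝ (⊤ : ℕ∞) (iteratedDeriv m h) := by
    rw [iteratedDeriv_eq_iterate]
    exact ContDiff.iterate_deriv m hh
  intro x
  exact (G_hasDerivAt (k + m) (iteratedDeriv m h) t x hs).differentiableAt

theorem hadamard_eq (f : ℝ → ℂ) (t x : ℝ) (hf : ContDiff ℝ (⊤ : ℕ∞) f) :
    f x = f t + ((x : ℂ) - t) * G 0 (deriv f) t x := by
  have hd : Differentiable ℝ f := hf.differentiable (by simp)
  have hc' : Continuous (deriv f) := hf.continuous_deriv (by simp)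
  have h1 : ∀ s ∈ Set.uIcc (0 : ℝ) 1, HasDerivAt (fun s : ℝ => f (t + s * (x - t)))
      (((x : ℂ) - t) * deriv f (t + s * (x - t))) s := by
    intro s _
    have h2 : HasDerivAt (fun s : ℝ => t + s * (x - t)) (x - t) s := by
      have := ((hasDerivAt_id s).mul_const (x - t)).const_add t
      simpa using this
    have h3 : HasDerivAt (fun s : ℝ => f (t + s * (x - t)))
        ((x - t) • deriv f (t + s * (x - t))) s := (hd _).hasDerivAt.scomp s h2
    rw [Complex.real_smul] at h3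
    push_cast at h3
    exact h3
  have h4 := intervalIntegral.integral_eq_sub_of_hasDerivAt h1 (by
    apply Continuous.intervalIntegrable
    fun_prop)
  rw [intervalIntegral.integral_const_mul] at h4
  have h5 : G 0 (deriv f) t x = ∫ s in (0 : ℝ)..1, deriv f (t + s * (x - t)) := by
    unfold G
    simp
  rw [h5, h4]
  simp

/-- seminorms -/
noncomputable def S (k : ℕ) (f : ℝ → ℂ) : ℝ :=
  sSup ((fun x : ℝ => ‖iteratedDeriv k f x‖) '' Set.Icc (0 : ℝ) 1)

theorem S_nonneg (k : ℕ) (f : ℝ → ℂ) : 0 ≤ S k f := by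
  apply Real.sSup_nonneg
  rintro _ ⟨x, _, rfl⟩
  exact norm_nonneg _

theorem le_S (k : ℕ) (f : ℝ → ℂ) (hf : ContDiff ℝ (⊤ : ℕ∞) f) (x : ℝ)
    (hx : x ∈ Set.Icc (0 : ℝ) 1) : ‖iteratedDeriv k f x‖ ≤ S k f := by
  apply le_csSup
  · apply IsCompact.bddAbove
    apply isCompact_Icc.image
    exact (hf.continuous_iteratedDeriv k (by exact_mod_cast le_top)).norm
  · exact ⟨x, hx, rfl⟩

theorem S_le (k : ℕ) (f : ℝ → ℂ) (M : ℝ) (hM : ∀ x ∈ Set.Icc (0 : ℝ) 1, ‖iteratedDeriv k f x‖ ≤ M) :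
    S k f ≤ M := by
  apply csSup_le
  · exact ⟨_, 0, by simp, rfl⟩
  · rintro _ ⟨x, hx, rfl⟩
    exact hM x hx

theorem hadamard (f : ℝ → ℂ) (t : ℝ) (hf : ContDiff ℝ (⊤ : ℕ∞) f) :
    ∃ g : ℝ → ℂ, ContDiff ℝ (⊤ : ℕ∞) g ∧ (∀ x, f x = f t + ((x : ℂ) - t) * g x) ∧
      (t ∈ Set.Icc (0 : ℝ) 1 → ∀ k, S k g ≤ S (k + 1) f) := by
  have hfd : ContDiff ℝ (⊤ : ℕ∞) (deriv f) := (contDiff_infty_iff_deriv.mp hf).2
  refine ⟨G 0 (deriv f) t, G_smooth _ _ _ hfd, fun x => hadamard_eq f t x hf, ?_⟩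
  intro ht k
  apply S_le
  intro x hx
  rw [iteratedDeriv_G k 0 (deriv f) t hfd, ← iteratedDeriv_succ']
  unfold G
  have h1 : ∀ s ∈ Set.uIoc (0 : ℝ) 1,
      ‖((s ^ (0 + k) : ℝ) : ℂ) * iteratedDeriv (k + 1) f (t + s * (x - t))‖ ≤ S (k + 1) f := by
    intro s hs
    rw [Set.uIoc_of_le zero_le_one] at hs
    rw [norm_mul, Complex.norm_real, Real.norm_eq_abs, abs_of_nonneg (by have := hs.1; positivity)]
    have h2 : s ^ (0 + k) ≤ 1 := pow_le_one₀ hs.1.le hs.2
    have h3 : ‖iteratedDeriv (k + 1) f (t + s * (x - t))‖ ≤ S (k + 1) f := by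
      apply le_S _ _ hf
      constructor
      · nlinarith [mul_nonneg hs.1.le hx.1, mul_nonneg (sub_nonneg.mpr hs.2) ht.1]
      · nlinarith [mul_nonneg hs.1.le (sub_nonneg.mpr hx.2), mul_nonneg (sub_nonneg.mpr hs.2) (sub_nonneg.mpr ht.2)]
    calc s ^ (0 + k) * ‖iteratedDeriv (k + 1) f (t + s * (x - t))‖
        ≤ 1 * S (k + 1) f := by
          apply mul_le_mul h2 h3 (norm_nonneg _) zero_le_one
      _ = _ := one_mul _
  have h4 := intervalIntegral.norm_integral_le_of_norm_le_const h1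
  simpa using h4

/-- bump -/
noncomputable def eta (x : ℝ) : ℝ := expNegInvGlue (-x) + expNegInvGlue (x - 1)

theorem inverse_off (μ : ℂ) (hμ : ∀ t ∈ Set.Icc (0 : ℝ) 1, (t : ℂ) ≠ μ) :
    ∃ g : ℝ → ℂ, ContDiff ℝ (⊤ : ℕ∞) g ∧ ∀ x ∈ Set.Icc (0 : ℝ) 1, ((x : ℂ) - μ) * g x = 1 := by
  have hη : ContDiff ℝ (⊤ : ℕ∞) eta := by
    unfold eta
    have := (expNegInvGlue.contDiff (n := (⊤ : ℕ∞)))
    exact (this.comp contDiff_neg).add (this.comp (contDiff_id.sub contDiff_const))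
  have hcast : ContDiff ℝ (⊤ : ℕ∞) (fun x : ℝ => (x : ℂ)) := Complex.ofRealCLM.contDiff
  let D : ℝ → ℂ := fun x => ((x : ℂ) - μ) * ((x : ℂ) - (starRingEnd ℂ) μ) + ((eta x : ℝ) : ℂ)
  have hD : ContDiff ℝ (⊤ : ℕ∞) D :=
    ((hcast.sub contDiff_const).mul (hcast.sub contDiff_const)).add
      (Complex.ofRealCLM.contDiff.comp hη)
  have hDr : ∀ x, D x = ((Complex.normSq ((x : ℂ) - μ) + eta x : ℝ) : ℂ) := by
    intro x
    simp only [D]
    push_cast
    rw [← Complex.mul_conj]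
    simp
  have hη0 : ∀ x ∈ Set.Icc (0 : ℝ) 1, eta x = 0 := by
    intro x hx
    unfold eta
    rw [expNegInvGlue.zero_of_nonpos (by linarith [hx.1]),
      expNegInvGlue.zero_of_nonpos (by linarith [hx.2]), add_zero]
  have hη1 : ∀ x, 0 ≤ eta x := fun x => add_nonneg (expNegInvGlue.nonneg _) (expNegInvGlue.nonneg _)
  have hη2 : ∀ x, x ∉ Set.Icc (0 : ℝ) 1 → 0 < eta x := by
    intro x hx
    rw [Set.mem_Icc, not_and_or] at hx
    rcases hx with h | h
    · exact add_pos_of_pos_of_nonneg (expNegInvGlue.pos_of_pos (by linarith)) (expNegInvGlue.nonneg _)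
    · exact add_pos_of_nonneg_of_pos (expNegInvGlue.nonneg _) (expNegInvGlue.pos_of_pos (by linarith))
  have hD0 : ∀ x, D x ≠ 0 := by
    intro x
    rw [hDr]
    apply Complex.ofReal_ne_zero.mpr
    apply ne_of_gt
    by_cases hx : x ∈ Set.Icc (0 : ℝ) 1
    · have : (0 : ℝ) < Complex.normSq ((x : ℂ) - μ) :=
        Complex.normSq_pos.mpr (sub_ne_zero.mpr (hμ x hx))
      linarith [hη1 x]
    · linarith [hη2 x hx, Complex.normSq_nonneg ((x : ℂ) - μ)]
  refine ⟨fun x => ((x : ℂ) - (starRingEnd ℂ) μ) * (D x)⁻¹,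
    (hcast.sub contDiff_const).mul (hD.inv hD0), ?_⟩
  intro x hx
  have h1 : D x = ((x : ℂ) - μ) * ((x : ℂ) - (starRingEnd ℂ) μ) := by
    simp only [D]
    rw [hη0 x hx]
    simp
  show ((x : ℂ) - μ) * (((x : ℂ) - (starRingEnd ℂ) μ) * (D x)⁻¹) = 1
  rw [← mul_assoc, ← h1, mul_inv_cancel₀ (hD0 x)]

end SmoothPart

section Assembly

variable {B : Type} [NormedCommRing B] [NormedAlgebra ℂ B] [CompleteSpace B]

theorem commutative_case (φ : (ℝ → ℂ) → B)
    (hadd : ∀ f g : ℝ → ℂ, ContDiff ℝ (⊤ : ℕ∞) f → ContDiff ℝ (⊤ : ℕ∞) g →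
          φ (f + g) = φ f + φ g)
    (hmul : ∀ f g : ℝ → ℂ, ContDiff ℝ (⊤ : ℕ∞) f → ContDiff ℝ (⊤ : ℕ∞) g →
          φ (f * g) = φ f * φ g)
    (hsmul : ∀ (c : ℂ) (f : ℝ → ℂ), ContDiff ℝ (⊤ : ℕ∞) f → φ (c • f) = c • φ f)
    (hloc : ∀ f g : ℝ → ℂ, ContDiff ℝ (⊤ : ℕ∞) f → ContDiff ℝ (⊤ : ℕ∞) g →
          Set.EqOn f g (Set.Icc (0 : ℝ) 1) → φ f = φ g)
    (hsurj : ∀ b : B, ∃ f : ℝ → ℂ, ContDiff ℝ (⊤ : ℕ∞) f ∧ φ f = b) :
    ∃ n : ℕ, ∃ C : ℝ, ∀ f : ℝ → ℂ, ContDiff ℝ (⊤ : ℕ∞) f →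
        ‖φ f‖ ≤ C * ∑ k ∈ Finset.range (n + 1), S k f := by
  have hcast : ContDiff ℝ (⊤ : ℕ∞) (fun x : ℝ => (x : ℂ)) := Complex.ofRealCLM.contDiff
  have hconst : ∀ c : ℂ, ContDiff ℝ (⊤ : ℕ∞) (fun _ : ℝ => c) := fun c => contDiff_const
  have h1 : φ (fun _ => 1) = 1 := by
    obtain ⟨e, he, he1⟩ := hsurj 1
    have h2 := hmul (fun _ => 1) e (hconst 1) he
    rw [he1, mul_one] at h2
    rw [← h2]
    have h3 : (fun _ : ℝ => (1 : ℂ)) * e = e := by
      funext x
      simp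
    rw [h3, he1]
  have hc : ∀ c : ℂ, φ (fun _ => c) = algebraMap ℂ B c := by
    intro c
    have h2 := hsmul c (fun _ => 1) (hconst 1)
    rw [h1] at h2
    rw [Algebra.algebraMap_eq_smul_one, ← h2]
    congr 1
    funext x
    simp
  set X : B := φ (fun x : ℝ => (x : ℂ)) with hX
  have hXc : ∀ μ : ℂ, φ (fun x : ℝ => (x : ℂ) - μ) = X - algebraMap ℂ B μ := by
    intro μ
    have h2 := hadd (fun x : ℝ => (x : ℂ)) (fun _ => -μ) hcast (hconst _)
    rw [hc, ← hX, map_neg, ← sub_eq_add_neg] at h2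
    rw [← h2]
    congr 1
  have hdec : ∀ (f g : ℝ → ℂ) (t : ℝ), ContDiff ℝ (⊤ : ℕ∞) g →
      (∀ x, f x = f t + ((x : ℂ) - t) * g x) →
      φ f = algebraMap ℂ B (f t) + (X - algebraMap ℂ B t) * φ g := by
    intro f g t hg h
    have hs : ContDiff ℝ (⊤ : ℕ∞) (fun x : ℝ => (x : ℂ) - t) := hcast.sub contDiff_const
    have h2 := hadd (fun _ => f t) ((fun x : ℝ => (x : ℂ) - t) * g) (hconst _) (hs.mul hg)
    rw [hmul _ _ hs hg, hc, hXc] at h2
    rw [← h2]
    congr 1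
    funext x
    exact h x
  have hD : ∀ (t : ℝ) (b : B), ∃ (a : ℂ) (w : B),
      b = algebraMap ℂ B a + (X - algebraMap ℂ B t) * w := by
    intro t b
    obtain ⟨f, hf, rfl⟩ := hsurj b
    obtain ⟨g, hg, h, _⟩ := hadamard f t hf
    exact ⟨f t, φ g, hdec f g t hg h⟩
  have hU : ∀ μ : ℂ, (∀ t ∈ Set.Icc (0 : ℝ) 1, (t : ℂ) ≠ μ) → IsUnit (X - algebraMap ℂ B μ) := by
    intro μ hμ
    obtain ⟨g, hg, h⟩ := inverse_off μ hμ
    have hs : ContDiff ℝ (⊤ : ℕ∞) (fun x : ℝ => (x : ℂ) - μ) := hcast.sub contDiff_const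
    have h2 : (X - algebraMap ℂ B μ) * φ g = 1 := by
      rw [← hXc, ← hmul _ _ hs hg, ← h1]
      apply hloc _ _ (hs.mul hg) (hconst 1)
      intro x hx
      exact h x hx
    exact IsUnit.of_mul_eq_one _ h2
  obtain ⟨L, hL, hL0⟩ := prod_reduction X hU hD
  have key : ∀ L : List ℝ, (∀ t ∈ L, t ∈ Set.Icc (0 : ℝ) 1) →
      ∃ C : ℝ, 0 ≤ C ∧ ∀ f : ℝ → ℂ, ContDiff ℝ (⊤ : ℕ∞) f → ∃ b : B,
        ‖φ f - (L.map (fun t : ℝ => X - algebraMap ℂ B t)).prod * b‖
          ≤ C * ∑ k ∈ Finset.range L.length, S k f := by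
    intro L
    induction L with
    | nil =>
      intro _
      exact ⟨0, le_rfl, fun f _ => ⟨φ f, by simp⟩⟩
    | cons t L ih =>
      intro hL
      obtain ⟨C, hC0, hC⟩ := ih (fun s hs => hL s (List.mem_cons_of_mem _ hs))
      have ht : t ∈ Set.Icc (0 : ℝ) 1 := hL t List.mem_cons_self
      refine ⟨‖(1 : B)‖ + ‖X - algebraMap ℂ B t‖ * C, by positivity, ?_⟩
      intro f hf
      obtain ⟨g, hg, h, hgS⟩ := hadamard f t hf
      obtain ⟨b, hb⟩ := hC g hg
      refine ⟨b, ?_⟩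
      have e1 : φ f - ((t :: L).map (fun t : ℝ => X - algebraMap ℂ B t)).prod * b
          = algebraMap ℂ B (f t) + (X - algebraMap ℂ B t) *
            (φ g - (L.map (fun t : ℝ => X - algebraMap ℂ B t)).prod * b) := by
        rw [hdec f g t hg h, List.map_cons, List.prod_cons]
        ring
      have hft : ‖f t‖ ≤ S 0 f := by
        have := le_S 0 f hf t ht
        simpa using this
      have hsum : ∑ k ∈ Finset.range L.length, S k g
          ≤ ∑ k ∈ Finset.range L.length, S (k + 1) f :=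
        Finset.sum_le_sum (fun k _ => hgS ht k)
      have hsum0 : 0 ≤ ∑ k ∈ Finset.range L.length, S (k + 1) f :=
        Finset.sum_nonneg (fun k _ => S_nonneg _ _)
      rw [e1, List.length_cons, Finset.sum_range_succ']
      calc ‖algebraMap ℂ B (f t) + (X - algebraMap ℂ B t) *
            (φ g - (L.map (fun t : ℝ => X - algebraMap ℂ B t)).prod * b)‖
          ≤ ‖algebraMap ℂ B (f t)‖ + ‖(X - algebraMap ℂ B t) *
            (φ g - (L.map (fun t : ℝ => X - algebraMap ℂ B t)).prod * b)‖ := norm_add_le _ _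
        _ ≤ ‖f t‖ * ‖(1 : B)‖ + ‖X - algebraMap ℂ B t‖ *
            ‖φ g - (L.map (fun t : ℝ => X - algebraMap ℂ B t)).prod * b‖ := by
            rw [norm_algebraMap]
            gcongr
            exact norm_mul_le _ _
        _ ≤ S 0 f * ‖(1 : B)‖ + ‖X - algebraMap ℂ B t‖ *
            (C * ∑ k ∈ Finset.range L.length, S (k + 1) f) := by
            gcongr
            exact hb.trans (mul_le_mul_of_nonneg_left hsum hC0)
        _ ≤ (‖(1 : B)‖ + ‖X - algebraMap ℂ B t‖ * C) *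
            (∑ k ∈ Finset.range L.length, S (k + 1) f + S 0 f) := by
            have p1 : 0 ≤ ‖(1 : B)‖ * ∑ k ∈ Finset.range L.length, S (k + 1) f :=
              mul_nonneg (norm_nonneg _) hsum0
            have p2 : 0 ≤ ‖X - algebraMap ℂ B t‖ * C * S 0 f :=
              mul_nonneg (mul_nonneg (norm_nonneg _) hC0) (S_nonneg _ _)
            nlinarith [p1, p2]
  obtain ⟨C, hC0, hC⟩ := key L hL
  refine ⟨L.length, C, ?_⟩
  intro f hf
  obtain ⟨b, hb⟩ := hC f hf
  rw [hL0, zero_mul, sub_zero] at hb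
  refine hb.trans ?_
  rw [Finset.sum_range_succ]
  apply mul_le_mul_of_nonneg_left _ hC0
  linarith [S_nonneg L.length f]

end Assembly

/-- Every surjective algebra homomorphism from smooth complex functions on [0,1] onto a complex Banach algebra is continuous: its norm is bounded by a constant times the sum of sup-norms of the first n derivatives on [0,1]. -/
theorem result :
    ∀ (B : Type) [NormedRing B] [NormedAlgebra ℂ B] [CompleteSpace B] (φ : (ℝ → ℂ) → B),
      (∀ f g : ℝ → ℂ, ContDiff ℝ (⊤ : ℕ∞) f → ContDiff ℝ (⊤ : ℕ∞) g →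
          φ (f + g) = φ f + φ g) →
      (∀ f g : ℝ → ℂ, ContDiff ℝ (⊤ : ℕ∞) f → ContDiff ℝ (⊤ : ℕ∞) g →
          φ (f * g) = φ f * φ g) →
      (∀ (c : ℂ) (f : ℝ → ℂ), ContDiff ℝ (⊤ : ℕ∞) f → φ (c • f) = c • φ f) →
      (∀ f g : ℝ → ℂ, ContDiff ℝ (⊤ : ℕ∞) f → ContDiff ℝ (⊤ : ℕ∞) g →
          Set.EqOn f g (Set.Icc (0 : ℝ) 1) → φ f = φ g) →
      (∀ b : B, ∃ f : ℝ → ℂ, ContDiff ℝ (⊤ : ℕ∞) f ∧ φ f = b) →
      ∃ n : ℕ, ∃ C : ℝ, ∀ f : ℝ → ℂ, ContDiff ℝ (⊤ : ℕ∞) f →
        ‖φ f‖ ≤ C * ∑ k ∈ Finset.range (n + 1),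
          sSup ((fun x : ℝ => ‖iteratedDeriv k f x‖) '' Set.Icc (0 : ℝ) 1) := by
  intro B _ _ _ φ hadd hmul hsmul hloc hsurj
  have hcomm : ∀ a b : B, a * b = b * a := by
    intro a b
    obtain ⟨f, hf, rfl⟩ := hsurj a
    obtain ⟨g, hg, rfl⟩ := hsurj b
    rw [← hmul f g hf hg, ← hmul g f hg hf, mul_comm]
  let _ : NormedCommRing B := { (inferInstance : NormedRing B) with mul_comm := hcomm }
  exact commutative_case φ hadd hmul hsmul hloc hsurj

end Pool.Agent.S04055
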