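import Pool.Statements.S04066
import Pool.Agent.Helper919.CE.Julia
import Pool.Agent.Helper919.CE.Constr

set_option autoImplicit false
open MeasureTheory Filter Topology
open Pool Pool.MP_cc1b6d_an

namespace Pool.Agent.S04066

open Pool.Agent.Helper919.CE in
theorem lam_two (k : ℕ) : 2 < lam k := (lam_mem k).1

open Pool.Agent.Helper919.CE in
theorem lam_two' (k : ℕ) : 2 ≤ lam k := (lam_two k).le

open Pool.Agent.Helper919.CE in
/-- The quadratic polynomials. -/
noncomputable def fC (n : ℕ) : Polynomial ℂ :=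
  Polynomial.C ((lam n : ℝ) : ℂ) * Polynomial.X ^ 2 - Polynomial.C (((lam n - 1 : ℝ)) : ℂ)

open Pool.Agent.Helper919.CE in
/-- The compositions. -/
noncomputable def FC : ℕ → ℂ → ℂ
  | 0, z => z
  | (n + 1), z => (fC n).eval (FC n z)

open Pool.Agent.Helper919.CE in
theorem FC_succ (n : ℕ) (z : ℂ) : FC (n + 1) z = (lam n : ℂ) * FC n z ^ 2 - ((lam n : ℂ) - 1) := by
  rw [FC, fC]
  simp

open Pool.Agent.Helper919.CE in
theorem natDegree_fC (n : ℕ) : (fC n).natDegree = 2 := by
  have h := lam_two n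
  have h0 : lam n ≠ 0 := by linarith
  unfold fC
  compute_degree!

open Pool.Agent.Helper919.CE in
theorem leadingCoeff_fC (n : ℕ) : (fC n).leadingCoeff = ((lam n : ℝ) : ℂ) := by
  rw [Polynomial.leadingCoeff, natDegree_fC]
  unfold fC
  rw [Polynomial.coeff_sub, Polynomial.coeff_C_mul, Polynomial.coeff_X_pow, Polynomial.coeff_C]
  simp

open Pool.Agent.Helper919.CE in
theorem norm_lc (n : ℕ) : ‖(fC n).leadingCoeff‖ = lam n := by
  rw [leadingCoeff_fC, Complex.norm_real, Real.norm_eq_abs, abs_of_pos (by linarith [lam_two n])]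

open Pool.Agent.Helper919.CE in
theorem norm_coeff (n j : ℕ) : ‖(fC n).coeff j‖ ≤ 1 * ‖(fC n).leadingCoeff‖ := by
  rw [norm_lc, one_mul]
  have h := lam_two n
  unfold fC
  rw [Polynomial.coeff_sub, Polynomial.coeff_C_mul, Polynomial.coeff_X_pow, Polynomial.coeff_C]
  by_cases h2 : j = 2
  · subst h2
    simp only [if_true, mul_one]
    rw [if_neg (by norm_num), sub_zero, Complex.norm_real, Real.norm_eq_abs, abs_of_pos (by linarith)]
  · rw [if_neg h2, mul_zero, zero_sub, norm_neg]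
    by_cases h0 : j = 0
    · rw [if_pos h0, Complex.norm_real, Real.norm_eq_abs, abs_of_pos (by linarith)]
      linarith
    · rw [if_neg h0, norm_zero]; linarith

open Pool.Agent.Helper919.CE in
theorem log_le (k : ℕ) : Real.log (2 * lam k) ≤ 16 / 3 := by
  have h := lam_mem k
  have := Real.log_le_sub_one_of_pos (show 0 < 2 * lam k by linarith)
  linarith

open Pool.Agent.Helper919.CE in
theorem set_eq : {z : ℂ | ∃ M : ℝ, ∀ n, ‖FC n z‖ ≤ M} = KC lam := by
  ext z
  exact bdd_iff lam_two' (F := fun n => FC n z) (fun n => FC_succ n z)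

open Pool.Agent.Helper919.CE in
/-- The negation of the preceding statement: For a regular polynomial sequence whose Julia set is a totally disconnected subset of the real line, the Jacobi recurrence coefficients of its equilibrium measure converge to a Bohr almost periodic two-sided sequence. -/
theorem result :
    ¬ (∀ (f : ℕ → Polynomial ℂ) (F : ℕ → ℂ → ℂ) (J : Set ℂ),
      (∃ A₁ A₂ A₃ : ℝ, 0 < A₁ ∧ 0 ≤ A₂ ∧ 0 < A₃ ∧
        ∀ n, 2 ≤ (f n).natDegree ∧ A₁ ≤ ‖(f n).leadingCoeff‖ ∧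
          (∀ j, ‖(f n).coeff j‖ ≤ A₂ * ‖(f n).leadingCoeff‖) ∧
          Real.log ‖(f n).leadingCoeff‖ ≤ A₃ * ((f n).natDegree : ℝ)) →
      (∀ z, F 0 z = z) →
      (∀ n z, F (n + 1) z = (f n).eval (F n z)) →
      J = frontier {z : ℂ | ∃ M : ℝ, ∀ n, ‖F n z‖ ≤ M} →
      J ⊆ {z : ℂ | z.im = 0} →
      IsTotallyDisconnected J →
      ∀ μ : Measure ℂ, IsProbabilityMeasure μ → NoAtoms μ → μ Jᶜ = 0 →
      (∫⁻ z, ∫⁻ w, ENNReal.ofReal (Real.log ((Metric.diam J + 1) / ‖z - w‖)) ∂μ ∂μ) < ⊤ →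
      (∀ ν : Measure ℂ, IsProbabilityMeasure ν → NoAtoms ν → ν Jᶜ = 0 →
        (∫⁻ z, ∫⁻ w, ENNReal.ofReal (Real.log ((Metric.diam J + 1) / ‖z - w‖)) ∂μ ∂μ) ≤
          (∫⁻ z, ∫⁻ w, ENNReal.ofReal (Real.log ((Metric.diam J + 1) / ‖z - w‖)) ∂ν ∂ν)) →
      ∀ (a b : ℕ → ℝ) (P : ℕ → Polynomial ℝ),
        (∀ n, 0 < a n) →
        P 0 = 1 →
        P 1 = Polynomial.X - Polynomial.C (b 0) →
        (∀ n, P (n + 2) = (Polynomial.X - Polynomial.C (b (n + 1))) * P (n + 1)
                - Polynomial.C (a n ^ 2) * P n) →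
        (∀ n m, n ≠ m → ∫ z, (P n).eval z.re * (P m).eval z.re ∂μ = 0) →
        ∃ α β : ℤ → ℝ,
          (∀ ε > 0, ∃ L : ℕ, ∀ m : ℤ, ∃ τ : ℤ, m ≤ τ ∧ τ ≤ m + (L : ℤ) ∧
            ∀ k : ℤ, |α (k + τ) - α k| < ε ∧ |β (k + τ) - β k| < ε) ∧
          Tendsto (fun n : ℕ => |a n - α (n : ℤ)| + |b n - β (n : ℤ)|) atTop (𝓝 0)) := by
  intro H
  have hD : 2 ≤ Metric.diam (KC lam) + 1 := by
    have := two_le_diam lam
    linarith
  obtain ⟨α, β, hap, hlim⟩ := H fC FC (KC lam)
    ⟨2, 1, 1, by norm_num, by norm_num, by norm_num, fun n => by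
      refine ⟨(natDegree_fC n).ge, ?_, norm_coeff n, ?_⟩
      · rw [norm_lc]; exact lam_two' n
      · rw [norm_lc, natDegree_fC]
        have h := lam_mem n
        have := Real.log_le_sub_one_of_pos (show 0 < lam n by linarith)
        push_cast
        linarith⟩
    (fun z => rfl) (fun n z => rfl)
    (by rw [set_eq, frontier_KC])
    (fun z hz => hz.1)
    (isTotallyDisconnected_KC lam_two)
    (mu lam) (mu_prob lam_two') (mu_noAtoms lam_two' log_le) (mu_supp lam_two')
    (by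
      rw [energy_mu lam_two' log_le hD]
      exact ENNReal.add_lt_top.2 ⟨ENNReal.ofReal_lt_top, En_lt_top lam_two' log_le⟩)
    (by
      intro ν h1 h2 h3
      have h2' : NullSingletonClass ν := h2
      rw [energy_mu lam_two' log_le hD]
      exact energy_min lam_two' log_le hD ν h3)
    (fun n => Real.sqrt (yv lam (n + 1))) (fun _ => 0) (P lam)
    (fun n => Real.sqrt_pos.2 (yv_pos n lam_two))
    rfl
    (by rw [Polynomial.C_0, sub_zero]; rfl)
    (by
      intro n
      rw [Real.sq_sqrt (yv_pos n lam_two).le, Polynomial.C_0, sub_zero]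
      rfl)
    (by
      intro n m hnm
      have h1 := orth_Q lam_two n m
      rw [if_neg hnm] at h1
      unfold mu
      rw [integral_map (measurable_QC lam_two').aemeasurable]
      · simpa only [Complex.ofReal_re] using h1
      · apply Continuous.aestronglyMeasurable
        exact ((P lam n).continuous.comp Complex.continuous_re).mul
          ((P lam m).continuous.comp Complex.continuous_re))
  apply sqrt_not_ap 1 one_pos α
  · intro ε hε
    obtain ⟨L, hL⟩ := hap ε hε
    refine ⟨L, fun m => ?_⟩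
    obtain ⟨τ, h1, h2, h3⟩ := hL m
    exact ⟨τ, h1, h2, fun n => (h3 n).1⟩
  · rw [tendsto_zero_iff_abs_tendsto_zero]
    refine squeeze_zero (fun n => abs_nonneg _) (fun n => ?_) hlim
    simp only [Function.comp, one_mul]
    exact le_add_of_nonneg_right (abs_nonneg _)

end Pool.Agent.S04066
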