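import Pool.Statements.S04077
import Pool.Agent.Helper864.TilfD

set_option autoImplicit false
open Pool Pool.MP_cd2b7c_an

namespace Pool.Agent.S04077

/-- For every prime p, every complex linear functional on L² of the p-adic integers (Haar measure) that takes the same value on a function and on each of its translates is continuous. -/
theorem result :
    ∀ (p : ℕ) [Fact p.Prime] [MeasurableSpace (PadicInt p)] [BorelSpace (PadicInt p)],
      ∀ φ : MeasureTheory.Lp ℂ 2 (MeasureTheory.Measure.addHaar : MeasureTheory.Measure (PadicInt p)) →ₗ[ℂ] ℂ,
        (∀ (a : PadicInt p)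
            (f g : MeasureTheory.Lp ℂ 2 (MeasureTheory.Measure.addHaar : MeasureTheory.Measure (PadicInt p))),
            (g : PadicInt p → ℂ) =ᵐ[(MeasureTheory.Measure.addHaar : MeasureTheory.Measure (PadicInt p))]
              (fun x => (f : PadicInt p → ℂ) (x + a)) → φ g = φ f) →
        Continuous φ := by
  intro p _ _ _ φ hφ
  exact Pool.Agent.Helper864.Tilf.tilf' _ φ hφ

end Pool.Agent.S04077
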