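import Pool.Statements.S04080
import Pool.Agent.Helper802.JS.Final
-- import your own Pool.Agent.* helpers here

set_option autoImplicit false
open Filter Topology
open Pool Pool.MP_cd3d85_an

namespace Pool.Agent.S04080

/-- The negation of the preceding statement: For any ℓ²-sum of ℓ^{p_n}_{k_n} with k_n→∞, p_n→2, not isomorphic to ℓ², all of whose closed subspaces have an FDD and the UAP, every infinite-dimensional closed subspace has a Schauder basis. -/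
theorem result :
    ¬ (∀ (k : ℕ → ℕ) (p : ℕ → ENNReal) [∀ n, Fact (1 ≤ p n)],
    Tendsto k atTop atTop → Tendsto p atTop (𝓝 2) →
    (¬ Nonempty (lp (fun n : ℕ => PiLp (p n) (fun _ : Fin (k n) => ℝ)) 2 ≃L[ℝ] lp (fun _ : ℕ => ℝ) 2)) →
    (∀ E : Submodule ℝ (lp (fun n : ℕ => PiLp (p n) (fun _ : Fin (k n) => ℝ)) 2),
      IsClosed (E : Set (lp (fun n : ℕ => PiLp (p n) (fun _ : Fin (k n) => ℝ)) 2)) →
      (∃ F : ℕ → Submodule ℝ E, (∀ n, FiniteDimensional ℝ (F n)) ∧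
        ∀ x : E, ∃! y : ℕ → E, (∀ n, y n ∈ F n) ∧
          Tendsto (fun N => ∑ i ∈ Finset.range N, y i) atTop (𝓝 x)) ∧
      (∃ (C : ℝ) (f : ℕ → ℕ), ∀ G : Submodule ℝ E, FiniteDimensional ℝ G →
        ∃ T : E →L[ℝ] E, (∀ x ∈ G, T x = x) ∧ ‖T‖ ≤ C ∧
          FiniteDimensional ℝ (LinearMap.range (T : E →ₗ[ℝ] E)) ∧
          Module.finrank ℝ (LinearMap.range (T : E →ₗ[ℝ] E)) ≤ f (Module.finrank ℝ G))) →
    ∀ E : Submodule ℝ (lp (fun n : ℕ => PiLp (p n) (fun _ : Fin (k n) => ℝ)) 2),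
      IsClosed (E : Set (lp (fun n : ℕ => PiLp (p n) (fun _ : Fin (k n) => ℝ)) 2)) →
      ¬ FiniteDimensional ℝ E →
      ∃ e : ℕ → E, ∀ x : E, ∃! a : ℕ → ℝ,
        Tendsto (fun N => ∑ i ∈ Finset.range N, a i • e i) atTop (𝓝 x)) :=
  Pool.Agent.Helper802.JB.N_final.js_final

end Pool.Agent.S04080
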