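import Pool.Statements.S04083
import Pool.Agent.Helper958.KMain

set_option autoImplicit false
open Pool Pool.MP_ceba03_an

namespace Pool.Agent.S04083

/-- There is a closed convolution subalgebra of L^1 of the circle, not the closed span of its idempotents, such that every finite class of integers on which all Fourier transforms of the algebra agree has at most two elements. -/
theorem result :
    ∃ A : Submodule ℂ (MeasureTheory.Lp ℂ 1
        (AddCircle.haarAddCircle : MeasureTheory.Measure UnitAddCircle)),
      IsClosed (A : Set (MeasureTheory.Lp ℂ 1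
        (AddCircle.haarAddCircle : MeasureTheory.Measure UnitAddCircle))) ∧
      (∀ f ∈ A, ∀ g ∈ A, ∃ h ∈ A, ∀ n : ℤ,
        fourierCoeff (h : UnitAddCircle → ℂ) n =
          fourierCoeff (f : UnitAddCircle → ℂ) n * fourierCoeff (g : UnitAddCircle → ℂ) n) ∧
      ¬ (A ≤ (Submodule.span ℂ
          {e : MeasureTheory.Lp ℂ 1
              (AddCircle.haarAddCircle : MeasureTheory.Measure UnitAddCircle) |
            e ∈ A ∧ ∀ n : ℤ,
              fourierCoeff (e : UnitAddCircle → ℂ) n * fourierCoeff (e : UnitAddCircle → ℂ) n =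
                fourierCoeff (e : UnitAddCircle → ℂ) n}).topologicalClosure) ∧
      ∀ n : ℤ,
        {m : ℤ | ∀ f ∈ A, fourierCoeff (f : UnitAddCircle → ℂ) m =
            fourierCoeff (f : UnitAddCircle → ℂ) n}.Finite →
        {m : ℤ | ∀ f ∈ A, fourierCoeff (f : UnitAddCircle → ℂ) m =
            fourierCoeff (f : UnitAddCircle → ℂ) n}.ncard ≤ 2 := by
  obtain ⟨ι, u, v, hu, hv, huv, Λ, f, hf, hΛf, hΛ⟩ := Pool.Agent.Helper958.Kahane.main
  refine ⟨Pool.Agent.Helper958.Kahane.Alg u v, Pool.Agent.Helper958.Kahane.isClosed_Alg u v,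
    ?_, ?_, ?_⟩
  · intro a ha b hb
    obtain ⟨h, hh⟩ := Pool.Agent.Helper958.Kahane.exists_conv a b
    refine ⟨h, ?_, hh⟩
    intro i
    rw [hh, hh, ha i, hb i]
  · intro hle
    have hmem := hle hf
    have hspan : (Submodule.span ℂ
          {e : MeasureTheory.Lp ℂ 1
              (AddCircle.haarAddCircle : MeasureTheory.Measure UnitAddCircle) |
            e ∈ Pool.Agent.Helper958.Kahane.Alg u v ∧ ∀ n : ℤ,
              fourierCoeff (e : UnitAddCircle → ℂ) n * fourierCoeff (e : UnitAddCircle → ℂ) n =
                fourierCoeff (e : UnitAddCircle → ℂ) n}) ≤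
          LinearMap.ker (Λ : (MeasureTheory.Lp ℂ 1
            (AddCircle.haarAddCircle : MeasureTheory.Measure UnitAddCircle)) →ₗ[ℂ] ℂ) := by
      rw [Submodule.span_le]
      rintro e ⟨he, hid⟩
      exact hΛ e he hid
    have hclosed : IsClosed ((LinearMap.ker (Λ : (MeasureTheory.Lp ℂ 1
            (AddCircle.haarAddCircle : MeasureTheory.Measure UnitAddCircle)) →ₗ[ℂ] ℂ) : Submodule ℂ
            (MeasureTheory.Lp ℂ 1
            (AddCircle.haarAddCircle : MeasureTheory.Measure UnitAddCircle))) : Set
        (MeasureTheory.Lp ℂ 1 (AddCircle.haarAddCircle : MeasureTheory.Measure UnitAddCircle))) :=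
      ContinuousLinearMap.isClosed_ker Λ
    have h0 : Λ f = 0 := Submodule.topologicalClosure_minimal _ hspan hclosed hmem
    rw [hΛf] at h0
    exact one_ne_zero h0
  · intro n _
    exact Pool.Agent.Helper958.Kahane.class_le u v hu hv huv n

end Pool.Agent.S04083
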