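import Pool.Statements.S04087
import Pool.Agent.Helper140.OW12

set_option autoImplicit false
open Pool Pool.MP_cf5e8f_an

namespace Pool.Agent.S04087

/-- There is a power series with absolutely summable coefficients, a0=0, a1=1, injective on the open unit disk, whose values on the unit circle form a set of positive planar Lebesgue measure. -/
theorem result :
    ∃ a : ℕ → ℂ, Summable (fun n => ‖a n‖) ∧ a 0 = 0 ∧ a 1 = 1 ∧
      Set.InjOn (fun z : ℂ => ∑' n, a n * z ^ n) (Metric.ball (0 : ℂ) 1) ∧
      0 < MeasureTheory.volume
        ((fun z : ℂ => ∑' n, a n * z ^ n) '' Metric.sphere (0 : ℂ) 1) := by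
  exact Pool.Agent.Helper140.OW.main

end Pool.Agent.S04087
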