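import Pool.Statements.S04092
import Pool.Agent.Helper268.Cfd10

set_option autoImplicit false
open Pool Pool.MP_cfd281_an

namespace Pool.Agent.S04092

/-- The negation of the preceding statement: For each rational A of degree ≥2 that is not Lattès nor conjugate to z^n or ±Chebyshev, there are a Galois covering P and F with P∘A=F∘P such that, for B of degree ≥2, all ℂ(A^n)∩ℂ(B) hold a non-constant iff B right-divides P∘A^l for some l≥0. -/
theorem result :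
    ¬ (∀ (A : RatFunc ℂ) (φ : RatFunc ℂ →ₐ[ℂ] RatFunc ℂ), φ RatFunc.X = A →
    2 ≤ Module.finrank (IntermediateField.adjoin ℂ ({A} : Set (RatFunc ℂ))) (RatFunc ℂ) →
    ¬ ((∃ W : WeierstrassCurve ℂ, W.IsElliptic ∧
          ∃ (θ : RatFunc ℂ →ₐ[ℂ] W.toAffine.FunctionField)
            (L : W.toAffine.FunctionField →ₐ[ℂ] W.toAffine.FunctionField),
            L.comp θ = θ.comp φ) ∨
       (∃ (σ : RatFunc ℂ ≃ₐ[ℂ] RatFunc ℂ) (ψ : RatFunc ℂ →ₐ[ℂ] RatFunc ℂ),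
          σ.toAlgHom.comp φ = ψ.comp σ.toAlgHom ∧
          ((∃ n : ℤ, ψ RatFunc.X = RatFunc.X ^ n) ∨
           (∃ (n : ℤ) (s : ℂ), s ^ 2 = 1 ∧
              ψ RatFunc.X = algebraMap ℂ (RatFunc ℂ) s *
                algebraMap (Polynomial ℂ) (RatFunc ℂ) (Polynomial.Chebyshev.T ℂ n))))) →
    ∃ (P F : RatFunc ℂ) (ψ : RatFunc ℂ →ₐ[ℂ] RatFunc ℂ), ψ RatFunc.X = P ∧
      IsGalois (IntermediateField.adjoin ℂ ({P} : Set (RatFunc ℂ))) (RatFunc ℂ) ∧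
      φ P = ψ F ∧
      ∀ B : RatFunc ℂ,
        2 ≤ Module.finrank (IntermediateField.adjoin ℂ ({B} : Set (RatFunc ℂ))) (RatFunc ℂ) →
        ((∀ n : ℕ, 1 ≤ n → ∃ g : RatFunc ℂ,
            g ∈ IntermediateField.adjoin ℂ ({(⇑φ)^[n] RatFunc.X} : Set (RatFunc ℂ)) ∧
            g ∈ IntermediateField.adjoin ℂ ({B} : Set (RatFunc ℂ)) ∧
            g ∉ (⊥ : IntermediateField ℂ (RatFunc ℂ))) ↔
         ∃ l : ℕ, (⇑φ)^[l] P ∈ IntermediateField.adjoin ℂ ({B} : Set (RatFunc ℂ)))) := by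
  intro hall
  obtain ⟨φ, hφ⟩ := Pool.Agent.Helper268.Cfd.exists_subst Pool.Agent.Helper268.Cfd.Af
    (Pool.Agent.Helper268.Cfd.trans_of_ne_const Pool.Agent.Helper268.Cfd.Af_ne_const)
  obtain ⟨P, G, ψ, _, hP, _, hB⟩ := hall Pool.Agent.Helper268.Cfd.Af φ hφ
    Pool.Agent.Helper268.Cfd.finrank_A (Pool.Agent.Helper268.Cfd.nonspecial φ hφ)
  obtain ⟨l, hl⟩ := (hB Pool.Agent.Helper268.Cfd.Bf Pool.Agent.Helper268.Cfd.finrank_B).mp
    (fun n _ => Pool.Agent.Helper268.Cfd.cond_i φ hφ n)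
  exact Pool.Agent.Helper268.Cfd.cond_ii_false φ hφ P hP l hl

end Pool.Agent.S04092
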