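import Pool.Statements.S04104
import Pool.Agent.Helper873.Limit

set_option autoImplicit false
open Complex Filter
open Pool Pool.MP_d14b1f_an

namespace Pool.Agent.S04104

/-- The negation of the preceding statement: For 0<p<2, every f that is a pointwise limit on Re s>1/2 of Dirichlet polynomials Cauchy in the H^p mean has, on each bounded interval, integrals of log+∣f(σ+it)∣ bounded uniformly for 1/2<σ<1. -/
theorem result :
    ¬ (∀ p : ℝ, 0 < p → p < 2 → ∀ f : ℂ → ℂ,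
      (∃ P : ℕ → (ℕ →₀ ℂ),
        (∀ ε : ℝ, 0 < ε → ∃ N : ℕ, ∀ k ≥ N, ∀ m ≥ N,
          Filter.limsup
            (fun T : ℝ => (1 / (2 * T)) *
              ∫ t in (-T)..T,
                ‖∑ n ∈ (P k - P m).support,
                    (P k - P m) n * ((n : ℂ) + 1) ^ (-((t : ℂ) * Complex.I))‖ ^ p)
            Filter.atTop < ε) ∧
        (∀ s : ℂ, 1 / 2 < s.re →
          Filter.Tendsto
            (fun k : ℕ => ∑ n ∈ (P k).support, (P k) n * ((n : ℂ) + 1) ^ (-s))
            Filter.atTop (nhds (f s)))) →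
      ∀ a b : ℝ, ∃ C : ℝ, ∀ σ : ℝ, 1 / 2 < σ → σ < 1 →
        ∫ t in a..b, Real.log (max 1 ‖f ((σ : ℂ) + (t : ℂ) * Complex.I)‖) ≤ C) := by
  intro H
  obtain ⟨P, f, h1, h2, h3⟩ := Helper873.Limit.main04
  have hH := H 1 one_pos one_lt_two f ⟨P, by
    intro ε hε
    obtain ⟨N, hN⟩ := h1 ε hε
    refine ⟨N, fun k hk m hm => ?_⟩
    have h4 := Helper873.Mean.mean_value (P k - P m)
    simp_rw [Helper873.Alg.poly_vs] at h4
    simp_rw [Real.rpow_one]
    rw [h4.limsup_eq]
    exact hN k hk m hm, by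
    intro s hs
    have h5 := h2 s hs
    simp_rw [Helper873.Alg.poly_vs] at h5
    exact h5⟩ 0 1
  obtain ⟨C, hC⟩ := hH
  obtain ⟨τ, hτ1, hτ2, hτ3⟩ := h3 C
  exact absurd (hC τ hτ1 hτ2) (not_le.2 hτ3)

end Pool.Agent.S04104
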