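import Pool.Statements.S04105
import Pool.Agent.Helper152.LarFin

set_option autoImplicit false
open MeasureTheory
open Pool Pool.MP_d16bbf_an

namespace Pool.Agent.S04105

/-- For every L² function φ whose dyadic-wavelet frequency system 2^{-j/2}e^{-2πik2^{-j}ξ}φ(2^{-j}ξ) is an orthonormal basis, some measurable W tiling ℝ a.e. by integer translates and by dyadic dilations lies a.e. inside {φ≠0}. -/
theorem result :
    ∀ (φ : ℝ → ℂ) (F : ℤ → ℤ → ℝ → ℂ),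
      MemLp φ 2 volume →
      (∀ (j k : ℤ) (ξ : ℝ), F j k ξ =
        ((Real.sqrt ((2:ℝ) ^ (-j)) : ℝ) : ℂ) *
          Complex.exp (-(2 * (Real.pi : ℂ) * Complex.I * (k : ℂ) * ((((2:ℝ) ^ (-j)) * ξ : ℝ) : ℂ))) *
          φ (((2:ℝ) ^ (-j)) * ξ)) →
      (∀ j k j' k' : ℤ, ∫ ξ, F j k ξ * (starRingEnd ℂ) (F j' k' ξ) =
        if j = j' ∧ k = k' then (1:ℂ) else 0) →
      (∀ g : ℝ → ℂ, MemLp g 2 volume →
        (∀ j k : ℤ, ∫ ξ, g ξ * (starRingEnd ℂ) (F j k ξ) = 0) → g =ᵐ[volume] 0) →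
      ∃ W : Set ℝ, MeasurableSet W ∧
        (∀ᵐ x : ℝ ∂volume, ∃! k : ℤ, x - (k : ℝ) ∈ W) ∧
        (∀ᵐ x : ℝ ∂volume, ∃! j : ℤ, ((2:ℝ) ^ (-j)) * x ∈ W) ∧
        (∀ᵐ ξ : ℝ ∂volume, ξ ∈ W → φ ξ ≠ 0) := by
  intro φ F h1 h2 h3 h4
  exact Pool.Agent.Helper152.Lar.main φ F h1 h2 h3 h4

end Pool.Agent.S04105
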