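import Pool.Statements.S04117

set_option autoImplicit false
open Pool Pool.MP_d2b9e5_an

namespace Pool.Agent.S04117

open Filter Topology

section Aux

variable {W : Type} [LinearOrder W]

/-- the ordinal metric extended by zero on the diagonal -/
def dd (rho : W → W → ℕ) (a b : W) : ℕ := if a < b then rho a b else 0

/-- the set of all e at most a with distance to a less than n -/
def PP (rho : W → W → ℕ) (n : ℕ) (a : W) : W → Bool :=
  fun e => decide (e ≤ a ∧ dd rho e a < n)

/-- the same set with a removed -/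
def QQ (rho : W → W → ℕ) (n : ℕ) (a : W) : W → Bool :=
  fun e => decide (e < a ∧ dd rho e a < n)

/-- the generating family of finite sets -/
def gen (rho : W → W → ℕ) : ℕ × W → W → Bool :=
  fun p : ℕ × W => fun ξ : W => decide (ξ = p.2 ∨ (ξ < p.2 ∧ rho ξ p.2 ≤ p.1))

/-- the compact space -/
def KK (rho : W → W → ℕ) : Set (W → Bool) := closure (Set.range (gen rho))

variable {rho : W → W → ℕ}

theorem dd_self (a : W) : dd rho a a = 0 := by simp [dd]

theorem dd_lt {a b : W} (h : a < b) : dd rho a b = rho a b := by simp [dd, h]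

theorem PP_succ (_hpos : ∀ α β : W, α < β → 0 < rho α β) (n : ℕ) (a : W) :
    PP rho (n + 1) a = gen rho (n, a) := by
  funext e
  simp only [PP, gen]
  congr 1
  apply propext
  constructor
  · rintro ⟨h1, h2⟩
    rcases h1.lt_or_eq with h | h
    · right
      rw [dd_lt h] at h2
      exact ⟨h, Nat.lt_succ_iff.mp h2⟩
    · left
      exact h
  · rintro (h | ⟨h1, h2⟩)
    · subst h
      exact ⟨le_refl _, by rw [dd_self]; exact Nat.succ_pos _⟩
    · exact ⟨h1.le, by rw [dd_lt h1]; exact Nat.lt_succ_iff.mpr h2⟩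

theorem PP_zero (a : W) : PP rho 0 a = fun _ => false := by
  funext e
  simp [PP]

theorem PP_succ_mem (hpos : ∀ α β : W, α < β → 0 < rho α β) (n : ℕ) (a : W) :
    PP rho (n + 1) a ∈ KK rho := by
  rw [PP_succ hpos]
  exact subset_closure ⟨_, rfl⟩

theorem empty_mem [Infinite W] (hpos : ∀ α β : W, α < β → 0 < rho α β) :
    (fun _ => false : W → Bool) ∈ KK rho := by
  let s : ℕ → W := Infinite.natEmbedding W
  have hs : Function.Injective s := (Infinite.natEmbedding W).injective
  have hlim : Tendsto (fun n => gen rho (0, s n)) atTop (𝓝 (fun _ => false : W → Bool)) := by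
    rw [tendsto_pi_nhds]
    intro e
    apply tendsto_const_nhds.congr'
    have : ∀ᶠ n in atTop, s n ≠ e := by
      by_cases h : ∃ n, s n = e
      · obtain ⟨n, hn⟩ := h
        filter_upwards [eventually_gt_atTop n] with m hm hme
        exact absurd (hs (hme.trans hn.symm)) hm.ne'
      · exact Eventually.of_forall fun n hn => h ⟨n, hn⟩
    filter_upwards [this] with n hn
    symm
    simp only [gen, decide_eq_false_iff_not, not_or, not_and, not_le]
    exact ⟨fun h => hn h.symm, fun h => hpos _ _ h⟩
  exact mem_closure_of_tendsto hlim (Eventually.of_forall fun n => ⟨_, rfl⟩)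

/-- hypotheses on the ordinal metric -/
def Good (rho : W → W → ℕ) : Prop :=
  (∀ α β γ : W, α < β → β < γ →
          rho α γ ≤ max (rho α β) (rho β γ) ∧ rho α β ≤ max (rho α γ) (rho β γ) ∧
            rho α γ ≠ rho β γ)

theorem dd_inj (hg : Good rho) (hpos : ∀ α β : W, α < β → 0 < rho α β) {a b c : W}
    (ha : a ≤ c) (hb : b ≤ c) (h : dd rho a c = dd rho b c) : a = b := by
  rcases ha.lt_or_eq with h1 | h1
  · rcases hb.lt_or_eq with h2 | h2
    · rw [dd_lt h1, dd_lt h2] at h
      rcases lt_trichotomy a b with h3 | h3 | h3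
      · exact absurd h (hg a b c h3 h2).2.2
      · exact h3
      · exact absurd h.symm (hg b a c h3 h1).2.2
    · subst h2
      rw [dd_lt h1, dd_self] at h
      exact absurd h (hpos _ _ h1).ne'
  · rcases hb.lt_or_eq with h2 | h2
    · subst h1
      rw [dd_lt h2, dd_self] at h
      exact absurd h.symm (hpos _ _ h2).ne'
    · rw [h1, h2]

/-- coherence -/
theorem coh (hg : Good rho) {n : ℕ} {e b a : W} (hb : b < a) (hn : rho b a < n) (he : e ≤ b) :
    dd rho e a < n ↔ dd rho e b < n := by
  rcases he.lt_or_eq with h | h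
  · rw [dd_lt h, dd_lt (h.trans hb)]
    have := hg e b a h hb
    constructor
    · intro h1
      exact lt_of_le_of_lt this.2.1 (max_lt h1 hn)
    · intro h1
      exact lt_of_le_of_lt this.1 (max_lt h1 hn)
  · subst h
    rw [dd_self, dd_lt hb]
    constructor
    · intro _
      omega
    · intro _
      exact hn

theorem PP_finite (hg : Good rho) (hpos : ∀ α β : W, α < β → 0 < rho α β) (n : ℕ) (a : W) :
    {e : W | e ≤ a ∧ dd rho e a < n}.Finite := by
  apply Set.Finite.of_finite_image (f := fun e => dd rho e a)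
  · apply (Set.finite_Iio n).subset
    rintro _ ⟨e, he, rfl⟩
    exact he.2
  · intro e he e' he' h
    exact dd_inj hg hpos he.1 he'.1 h

/-- removing the top point gives the empty set or an earlier member -/
theorem QQ_cases (hg : Good rho) (hpos : ∀ α β : W, α < β → 0 < rho α β) (n : ℕ) (a : W) :
    QQ rho n a = (fun _ => false) ∨ ∃ b < a, QQ rho n a = PP rho n b := by
  by_cases h : ∃ e, e < a ∧ dd rho e a < n
  · right
    have hfin : {e : W | e < a ∧ dd rho e a < n}.Finite :=
      (PP_finite hg hpos n a).subset (fun e he => ⟨he.1.le, he.2⟩)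
    obtain ⟨b, hb, hmax⟩ := hfin.exists_maximal h
    refine ⟨b, hb.1, ?_⟩
    funext e
    simp only [QQ, PP]
    congr 1
    apply propext
    have hbn : rho b a < n := by rw [← dd_lt (rho := rho) hb.1]; exact hb.2
    constructor
    · intro he
      have heb : e ≤ b := by
        by_contra hcon
        push Not at hcon
        exact absurd (hmax (y := e) he hcon.le) (not_le.mpr hcon)
      exact ⟨heb, (coh hg hb.1 hbn heb).mp he.2⟩
    · intro he
      exact ⟨lt_of_le_of_lt he.1 hb.1, (coh hg hb.1 hbn he.1).mpr he.2⟩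
  · left
    funext e
    simp only [QQ, decide_eq_false_iff_not]
    intro he
    exact h ⟨e, he⟩

theorem PP_mem [Infinite W] (hpos : ∀ α β : W, α < β → 0 < rho α β) (n : ℕ) (a : W) :
    PP rho n a ∈ KK rho := by
  cases n with
  | zero => rw [PP_zero]; exact empty_mem hpos
  | succ n => exact PP_succ_mem hpos n a

theorem QQ_mem [Infinite W] (hg : Good rho) (hpos : ∀ α β : W, α < β → 0 < rho α β)
    (n : ℕ) (a : W) : QQ rho n a ∈ KK rho := by
  rcases QQ_cases hg hpos n a with h | ⟨b, _, h⟩
  · rw [h]; exact empty_mem hpos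
  · rw [h]; exact PP_mem hpos n b

/-- the key closed property of the members of the compact space -/
theorem star (hg : Good rho) (hpos : ∀ α β : W, α < β → 0 < rho α β) {A : W → Bool}
    (hA : A ∈ KK rho) {e t b : W} (he : e ≤ b) (ht : t ≤ b) (h : dd rho e b ≤ dd rho t b)
    (hb : A b = true) (hta : A t = true) : A e = true := by
  have hclosed : IsClosed {A : W → Bool | A b = true → A t = true → A e = true} := by
    have h1 : {A : W → Bool | A b = true → A t = true → A e = true}
        = {A : W → Bool | A b = false} ∪ ({A : W → Bool | A t = false} ∪ {A | A e = true}) := by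
      ext A
      simp only [Set.mem_ofPred_eq, Set.mem_union]
      cases A b <;> cases A t <;> simp
    rw [h1]
    refine IsClosed.union ?_ (IsClosed.union ?_ ?_)
    · exact isClosed_eq (continuous_apply b) continuous_const
    · exact isClosed_eq (continuous_apply t) continuous_const
    · exact isClosed_eq (continuous_apply e) continuous_const
  have hsub : KK rho ⊆ {A : W → Bool | A b = true → A t = true → A e = true} := by
    apply closure_minimal _ hclosed
    rintro _ ⟨⟨n, a⟩, rfl⟩
    rw [← PP_succ hpos]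
    simp only [Set.mem_ofPred_eq, PP, decide_eq_true_eq]
    rintro ⟨hba, hbn⟩ ⟨_, htn⟩
    refine ⟨he.trans hba, ?_⟩
    rcases hba.lt_or_eq with h1 | h1
    · have hbn' : rho b a < n + 1 := by rw [← dd_lt (rho := rho) h1]; exact hbn
      rw [coh hg h1 hbn' he]
      rw [coh hg h1 hbn' ht] at htn
      exact lt_of_le_of_lt h htn
    · subst h1
      exact lt_of_le_of_lt h htn
  exact hsub hA hb hta

end Aux

section Fun

variable {W : Type} [LinearOrder W] {rho : W → W → ℕ}

instance compK (rho : W → W → ℕ) : CompactSpace (KK rho) :=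
  isCompact_iff_compactSpace.mp (isClosed_closure.isCompact)

/-- coordinate functions -/
noncomputable def co (rho : W → W → ℕ) (e : W) : BoundedContinuousFunction (KK rho) ℝ :=
  BoundedContinuousFunction.mkOfCompact
    ⟨fun A => if A.1 e = true then 1 else 0, by
      have h1 : Continuous (fun A : KK rho => A.1 e) := (continuous_apply e).comp continuous_subtype_val
      have h2 : Continuous (fun b : Bool => if b = true then (1 : ℝ) else 0) := continuous_of_discreteTopology
      exact h2.comp h1⟩

theorem co_apply (e : W) (A : KK rho) : co rho e A = if A.1 e = true then 1 else 0 := rfl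

theorem co_sq (e : W) : co rho e * co rho e = co rho e := by
  ext A
  simp only [BoundedContinuousFunction.coe_mul, Pi.mul_apply, co_apply]
  split_ifs <;> simp

theorem mul3 (hg : Good rho) (hpos : ∀ α β : W, α < β → 0 < rho α β) {a b c : W}
    (ha : a ≤ c) (hb : b ≤ c) :
    ∃ t, t ≤ c ∧ co rho a * co rho b * co rho c = co rho t * co rho c := by
  rcases le_total (dd rho a c) (dd rho b c) with h | h
  · refine ⟨b, hb, ?_⟩
    ext A
    simp only [BoundedContinuousFunction.coe_mul, Pi.mul_apply, co_apply]
    by_cases hc : A.1 c = true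
    · by_cases hb' : A.1 b = true
      · have := star hg hpos A.2 ha hb h hc hb'
        simp [hc, hb', this]
      · simp [hb']
    · simp [hc]
  · refine ⟨a, ha, ?_⟩
    ext A
    simp only [BoundedContinuousFunction.coe_mul, Pi.mul_apply, co_apply]
    by_cases hc : A.1 c = true
    · by_cases ha' : A.1 a = true
      · have := star hg hpos A.2 hb ha h hc ha'
        simp [hc, ha', this]
      · simp [ha']
    · simp [hc]

/-- the index set: nothing, or a pair in weakly increasing order -/
abbrev Idx (W : Type) [LinearOrder W] : Type := Option {p : W × W // p.1 ≤ p.2}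

/-- the vectors -/
noncomputable def xx (rho : W → W → ℕ) : Idx W → BoundedContinuousFunction (KK rho) ℝ
  | none => 1
  | some p => co rho p.1.1 * co rho p.1.2

theorem co_mul_xx (hg : Good rho) (hpos : ∀ α β : W, α < β → 0 < rho α β) (e : W) (i : Idx W) :
    ∃ j, co rho e * xx rho i = xx rho j := by
  rcases i with _ | ⟨⟨a, b⟩, hab⟩
  · exact ⟨some ⟨(e, e), le_refl _⟩, by simp [xx, co_sq]⟩
  · simp only [xx]
    rcases le_total e b with h | h
    · obtain ⟨t, ht, h2⟩ := mul3 (rho := rho) hg hpos h hab
      exact ⟨some ⟨(t, b), ht⟩, by simp only [xx]; rw [← h2, mul_assoc]⟩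
    · obtain ⟨t, ht, h2⟩ := mul3 (rho := rho) hg hpos (hab.trans h) h
      exact ⟨some ⟨(t, e), ht⟩, by simp only [xx]; rw [← h2]; ring⟩

/-- the span of the vectors -/
noncomputable def SS (rho : W → W → ℕ) : Submodule ℝ (BoundedContinuousFunction (KK rho) ℝ) :=
  Submodule.span ℝ (Set.range (xx rho))

theorem co_mul_mem (hg : Good rho) (hpos : ∀ α β : W, α < β → 0 < rho α β) (e : W)
    (s : BoundedContinuousFunction (KK rho) ℝ) (hs : s ∈ SS rho) : co rho e * s ∈ SS rho := by
  induction hs using Submodule.span_induction with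
  | mem x hx =>
    obtain ⟨i, rfl⟩ := hx
    obtain ⟨j, hj⟩ := co_mul_xx hg hpos e i
    rw [hj]
    exact Submodule.subset_span ⟨j, rfl⟩
  | zero => rw [mul_zero]; exact (SS rho).zero_mem
  | add x y _ _ hx hy => rw [mul_add]; exact (SS rho).add_mem hx hy
  | smul c x _ hx => rw [mul_smul_comm]; exact (SS rho).smul_mem c hx

theorem SS_mul (hg : Good rho) (hpos : ∀ α β : W, α < β → 0 < rho α β)
    (s t : BoundedContinuousFunction (KK rho) ℝ) (hs : s ∈ SS rho) (ht : t ∈ SS rho) :
    s * t ∈ SS rho := by
  induction hs using Submodule.span_induction with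
  | mem x hx =>
    obtain ⟨i, rfl⟩ := hx
    rcases i with _ | ⟨⟨a, b⟩, hab⟩
    · simpa [xx] using ht
    · simp only [xx]
      rw [mul_assoc]
      exact co_mul_mem hg hpos _ _ (co_mul_mem hg hpos _ _ ht)
  | zero => rw [zero_mul]; exact (SS rho).zero_mem
  | add x y _ _ hx hy => rw [add_mul]; exact (SS rho).add_mem hx hy
  | smul c x _ hx => rw [smul_mul_assoc]; exact (SS rho).smul_mem c hx

/-- the span as a subalgebra -/
noncomputable def SA (hg : Good rho) (hpos : ∀ α β : W, α < β → 0 < rho α β) :
    Subalgebra ℝ (BoundedContinuousFunction (KK rho) ℝ) :=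
  (SS rho).toSubalgebra (Submodule.subset_span ⟨none, rfl⟩) (SS_mul hg hpos)

theorem dense_SS (hg : Good rho) (hpos : ∀ α β : W, α < β → 0 < rho α β) :
    Dense (SS rho : Set (BoundedContinuousFunction (KK rho) ℝ)) := by
  intro y
  rw [Metric.mem_closure_iff]
  intro ε hε
  let A : Subalgebra ℝ C(KK rho, ℝ) :=
    (SA hg hpos).map (BoundedContinuousFunction.toContinuousMapₐ ℝ)
  have hsep : A.SeparatesPoints := by
    intro p q hpq
    have : ∃ e, p.1 e ≠ q.1 e := by
      by_contra hcon
      push Not at hcon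
      exact hpq (Subtype.ext (funext hcon))
    obtain ⟨e, he⟩ := this
    refine ⟨fun A => co rho e A, ⟨(BoundedContinuousFunction.toContinuousMapₐ ℝ) (co rho e), ?_, rfl⟩, ?_⟩
    · refine ⟨co rho e, ?_, rfl⟩
      have : xx rho (some ⟨(e, e), le_refl _⟩) = co rho e := by simp [xx, co_sq]
      exact Submodule.subset_span ⟨_, this⟩
    · simp only [co_apply]
      cases hp : p.1 e <;> cases hq : q.1 e <;> simp [hp, hq] at he ⊢
  obtain ⟨⟨g, hgA⟩, hgy⟩ := ContinuousMap.exists_mem_subalgebra_near_continuous_of_separatesPoints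
    A hsep y y.continuous (ε / 2) (half_pos hε)
  obtain ⟨g', hg', rfl⟩ := hgA
  refine ⟨g', hg', ?_⟩
  rw [dist_comm]
  refine lt_of_le_of_lt ?_ (half_lt_self hε)
  rw [BoundedContinuousFunction.dist_le (half_pos hε).le]
  intro p
  rw [Real.dist_eq]
  exact (hgy p).le

end Fun

section Fnl

variable {W : Type} [LinearOrder W] {rho : W → W → ℕ}

/-- evaluation at a point -/
noncomputable def ev (A : KK rho) : BoundedContinuousFunction (KK rho) ℝ →L[ℝ] ℝ :=
  BoundedContinuousFunction.evalCLM ℝ A

theorem ev_apply (A : KK rho) (y : BoundedContinuousFunction (KK rho) ℝ) : ev A y = y A := rfl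

theorem ev_norm (A : KK rho) : ‖ev A‖ ≤ 1 := by
  refine ContinuousLinearMap.opNorm_le_bound _ zero_le_one ?_
  intro y
  rw [one_mul]
  exact y.norm_coe_le_norm A

variable [Infinite W] (hg : Good rho) (hpos : ∀ α β : W, α < β → 0 < rho α β)

/-- points of the compact space -/
def pP (n : ℕ) (a : W) : KK rho := ⟨PP rho n a, PP_mem hpos n a⟩

/-- points of the compact space -/
def pQ (n : ℕ) (a : W) : KK rho := ⟨QQ rho n a, QQ_mem hg hpos n a⟩

/-- the point given by the empty set -/
def pE : KK rho := ⟨fun _ => false, empty_mem hpos⟩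

/-- the functionals -/
noncomputable def ff : Idx W → (BoundedContinuousFunction (KK rho) ℝ →L[ℝ] ℝ)
  | none => ev (pE hpos)
  | some p => ev (pP hpos (dd rho p.1.1 p.1.2 + 1) p.1.2) - ev (pQ hg hpos (dd rho p.1.1 p.1.2 + 1) p.1.2)
      - ev (pP hpos (dd rho p.1.1 p.1.2) p.1.2) + ev (pQ hg hpos (dd rho p.1.1 p.1.2) p.1.2)

theorem co_P (n : ℕ) (a e : W) :
    co rho e (pP hpos n a) = if (e ≤ a ∧ dd rho e a < n) then 1 else 0 := by
  rw [co_apply]
  simp only [pP, PP, decide_eq_true_eq]

theorem co_Q (n : ℕ) (a e : W) :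
    co rho e (pQ hg hpos n a) = if (e < a ∧ dd rho e a < n) then 1 else 0 := by
  rw [co_apply]
  simp only [pQ, QQ, decide_eq_true_eq]

theorem co_E (e : W) : co rho e (pE hpos) = 0 := by
  rw [co_apply]
  simp [pE]

theorem diff_eq (n : ℕ) (a : W) {z b : W} (hzb : z ≤ b) :
    co rho z (pP hpos n a) * co rho b (pP hpos n a)
      - co rho z (pQ hg hpos n a) * co rho b (pQ hg hpos n a)
      = if (b = a ∧ dd rho z a < n) then 1 else 0 := by
  simp only [co_P, co_Q]
  by_cases hba : b = a
  · subst hba
    simp only [lt_irrefl, false_and, if_false, mul_zero, sub_zero, dd_self, le_refl, true_and, hzb]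
    by_cases h : dd rho z b < n
    · have : 0 < n := lt_of_le_of_lt (Nat.zero_le _) h
      simp [h, this]
    · simp [h]
  · simp only [hba, false_and, if_false]
    rcases lt_or_gt_of_ne hba with h | h
    · have hz : z < a := lt_of_le_of_lt hzb h
      simp [h, h.le, hz, hz.le]
    · simp [not_le.mpr h, not_lt.mpr h.le]

theorem biorth (i j : Idx W) : ff hg hpos i (xx rho j) = if i = j then 1 else 0 := by
  rcases i with _ | ⟨⟨a, b⟩, hab⟩ <;> rcases j with _ | ⟨⟨z, c⟩, hzc⟩
  · simp [ff, xx, ev_apply]
  · simp [ff, xx, ev_apply, co_E]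
  · simp [ff, xx, ev_apply]
  · have h1 := diff_eq hg hpos (dd rho a b + 1) b hzc
    have h2 := diff_eq hg hpos (dd rho a b) b hzc
    have h3 : ff hg hpos (some ⟨(a, b), hab⟩) (xx rho (some ⟨(z, c), hzc⟩))
        = (if (c = b ∧ dd rho z b < dd rho a b + 1) then (1 : ℝ) else 0)
          - (if (c = b ∧ dd rho z b < dd rho a b) then 1 else 0) := by
      rw [← h1, ← h2]
      simp only [ff, xx, add_apply, sub_apply, ev_apply,
        BoundedContinuousFunction.coe_mul, Pi.mul_apply]
      ring
    rw [h3]
    by_cases hcb : c = b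
    · subst hcb
      simp only [true_and]
      by_cases hz : z = a
      · subst hz
        simp
      · have hne : dd rho z c ≠ dd rho a c := fun h => hz (dd_inj hg hpos hzc hab h)
        have : ¬ ((some ⟨(a, c), hab⟩ : Idx W) = some ⟨(z, c), hzc⟩) := by
          intro h
          simp only [Option.some.injEq, Subtype.mk.injEq, Prod.mk.injEq] at h
          exact hz h.1.symm
        rw [if_neg this]
        by_cases hlt : dd rho z c < dd rho a c
        · rw [if_pos hlt, if_pos (by omega)]
          simp
        · rw [if_neg hlt, if_neg (by omega)]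
          simp
    · have : ¬ ((some ⟨(a, b), hab⟩ : Idx W) = some ⟨(z, c), hzc⟩) := by
        intro h
        simp only [Option.some.injEq, Subtype.mk.injEq, Prod.mk.injEq] at h
        exact hcb h.2.symm
      rw [if_neg this]
      simp [hcb]

/-- the span of the functionals -/
noncomputable def TT : Submodule ℝ (BoundedContinuousFunction (KK rho) ℝ →L[ℝ] ℝ) :=
  Submodule.span ℝ (Set.range (ff hg hpos))

theorem evE_mem : ev (pE hpos) ∈ TT hg hpos := Submodule.subset_span ⟨none, rfl⟩

theorem evP_mem [WellFoundedLT W] (a : W) : ∀ n, ev (pP hpos n a) ∈ TT hg hpos := by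
  induction a using WellFoundedLT.induction with
  | _ a ih =>
    have hQ : ∀ n, ev (pQ hg hpos n a) ∈ TT hg hpos := by
      intro n
      rcases QQ_cases hg hpos n a with h | ⟨b, hb, h⟩
      · have : pQ hg hpos n a = pE hpos := Subtype.ext h
        rw [this]
        exact evE_mem hg hpos
      · have : pQ hg hpos n a = pP hpos n b := Subtype.ext h
        rw [this]
        exact ih b hb n
    intro n
    induction n with
    | zero =>
      have : pP hpos 0 a = pE hpos := Subtype.ext (PP_zero a)
      rw [this]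
      exact evE_mem hg hpos
    | succ n ihn =>
      by_cases hx : ∃ e, e ≤ a ∧ dd rho e a = n
      · obtain ⟨e, he, hn⟩ := hx
        have h1 : ff hg hpos (some ⟨(e, a), he⟩) ∈ TT hg hpos := Submodule.subset_span ⟨_, rfl⟩
        have h2 : ev (pP hpos (n + 1) a) = ff hg hpos (some ⟨(e, a), he⟩)
            + ev (pQ hg hpos (n + 1) a) + ev (pP hpos n a) + (-1 : ℝ) • ev (pQ hg hpos n a) := by
          ext y
          simp only [ff, hn, add_apply, sub_apply, smul_apply, smul_eq_mul]
          ring
        rw [h2]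
        have h3 := Submodule.add_mem _ h1 (hQ (n + 1))
        have h4 := Submodule.add_mem _ h3 ihn
        exact Submodule.add_mem _ h4 (Submodule.smul_mem _ _ (hQ n))
      · have : pP hpos (n + 1) a = pP hpos n a := by
          apply Subtype.ext
          funext e
          simp only [pP, PP]
          congr 1
          apply propext
          constructor
          · rintro ⟨h1, h2⟩
            refine ⟨h1, ?_⟩
            have : dd rho e a ≠ n := fun h => hx ⟨e, h1, h⟩
            omega
          · rintro ⟨h1, h2⟩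
            exact ⟨h1, by omega⟩
        rw [this]
        exact ihn

theorem norming [WellFoundedLT W] (y : BoundedContinuousFunction (KK rho) ℝ) (ε : ℝ) (hε : 0 < ε) :
    ∃ g ∈ TT hg hpos, ‖g‖ ≤ 1 ∧ ‖y‖ - ε ≤ |g y| := by
  by_contra hcon
  push Not at hcon
  have h1 : ∀ p : ℕ × W, |y (pP hpos (p.1 + 1) p.2)| < ‖y‖ - ε := by
    intro p
    exact hcon _ (evP_mem hg hpos p.2 (p.1 + 1)) (ev_norm _)
  have hclosed : IsClosed {A : KK rho | |y A| ≤ ‖y‖ - ε} :=
    isClosed_le y.continuous.abs continuous_const
  have hdense : Dense (Set.range (fun p : ℕ × W => pP hpos (p.1 + 1) p.2)) := by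
    rw [Subtype.dense_iff]
    intro A hA
    have : ((fun x : KK rho => (x : W → Bool)) '' Set.range (fun p : ℕ × W => pP hpos (p.1 + 1) p.2))
        = Set.range (gen rho) := by
      rw [← Set.range_comp]
      congr 1
      funext p
      exact PP_succ hpos p.1 p.2
    rw [this]
    exact hA
  have h2 : ∀ A : KK rho, |y A| ≤ ‖y‖ - ε := by
    have : closure (Set.range (fun p : ℕ × W => pP hpos (p.1 + 1) p.2)) ⊆ {A : KK rho | |y A| ≤ ‖y‖ - ε} := by
      apply closure_minimal _ hclosed
      rintro _ ⟨p, rfl⟩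
      exact (h1 p).le
    intro A
    exact this (hdense A)
  have h3 : 0 ≤ ‖y‖ - ε := (abs_nonneg _).trans (h2 (pE hpos))
  have h4 : ‖y‖ ≤ ‖y‖ - ε := (BoundedContinuousFunction.norm_le h3).mpr h2
  linarith

end Fnl

theorem mainThm {W : Type} [LinearOrder W] [WellFoundedLT W] [Infinite W] {rho : W → W → ℕ}
    (hg : Good rho) (hpos : ∀ α β : W, α < β → 0 < rho α β) :
        ∃ (ι : Type)
          (x : ι → BoundedContinuousFunction (KK rho) ℝ)
          (f : ι → (BoundedContinuousFunction (KK rho) ℝ →L[ℝ] ℝ)),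
          (∀ i j : ι, (i = j → f i (x j) = 1) ∧ (i ≠ j → f i (x j) = 0)) ∧
          Dense (Submodule.span ℝ (Set.range x) : Set (BoundedContinuousFunction (KK rho) ℝ)) ∧
          (∀ y : BoundedContinuousFunction (KK rho) ℝ, (∀ i, f i y = 0) → y = 0) ∧
          ∃ c : ℝ, 0 < c ∧ ∀ y : BoundedContinuousFunction (KK rho) ℝ, ∀ ε : ℝ, 0 < ε →
            ∃ g ∈ Submodule.span ℝ (Set.range f), ‖g‖ ≤ 1 ∧ c * ‖y‖ - ε ≤ |g y| := by
  refine ⟨Idx W, xx rho, ff hg hpos, ?_, dense_SS hg hpos, ?_, 1, one_pos, ?_⟩
  · intro i j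
    constructor
    · intro h
      rw [biorth hg hpos, if_pos h]
    · intro h
      rw [biorth hg hpos, if_neg h]
  · intro y hy
    have h1 : ∀ g ∈ TT hg hpos, g y = 0 := by
      intro g hgm
      induction hgm using Submodule.span_induction with
      | mem x hx =>
        obtain ⟨i, rfl⟩ := hx
        exact hy i
      | zero => rfl
      | add a b _ _ ha hb => rw [add_apply, ha, hb, add_zero]
      | smul c a _ ha => rw [smul_apply, ha, smul_zero]
    by_contra hne
    have hpos' : 0 < ‖y‖ := norm_pos_iff.mpr hne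
    obtain ⟨g, hgT, _, hgy⟩ := norming hg hpos y (‖y‖ / 2) (half_pos hpos')
    rw [h1 g hgT, abs_zero] at hgy
    linarith
  · intro y ε hε
    obtain ⟨g, hgT, hgn, hgy⟩ := norming hg hpos y ε hε
    exact ⟨g, hgT, hgn, by rw [one_mul]; exact hgy⟩

/-- For any ω₁-type well-order and any ordinal metric ρ with (ρ1)–(ρ4), the space of continuous real functions on the closure K_ρ of the sets F_n(α) in {0,1}^ω₁ has a norming Markushevich basis. -/
theorem result :
    ∀ (W : Type) [LinearOrder W] [WellFoundedLT W],
      (∀ a : W, (Set.Iio a).Countable) → ¬ Countable W →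
      ∀ rho : W → W → ℕ,
        (∀ α β γ : W, α < β → β < γ →
          rho α γ ≤ max (rho α β) (rho β γ) ∧ rho α β ≤ max (rho α γ) (rho β γ) ∧
            rho α γ ≠ rho β γ) →
        (∀ α β : W, α < β → 0 < rho α β) →
        ∀ K : Set (W → Bool),
          K = closure (Set.range (fun p : ℕ × W => fun ξ : W =>
                decide (ξ = p.2 ∨ (ξ < p.2 ∧ rho ξ p.2 ≤ p.1)))) →
        ∃ (ι : Type)
          (x : ι → BoundedContinuousFunction (↥K) ℝ)
          (f : ι → (BoundedContinuousFunction (↥K) ℝ →L[ℝ] ℝ)),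
          (∀ i j : ι, (i = j → f i (x j) = 1) ∧ (i ≠ j → f i (x j) = 0)) ∧
          Dense (Submodule.span ℝ (Set.range x) : Set (BoundedContinuousFunction (↥K) ℝ)) ∧
          (∀ y : BoundedContinuousFunction (↥K) ℝ, (∀ i, f i y = 0) → y = 0) ∧
          ∃ c : ℝ, 0 < c ∧ ∀ y : BoundedContinuousFunction (↥K) ℝ, ∀ ε : ℝ, 0 < ε →
            ∃ g ∈ Submodule.span ℝ (Set.range f), ‖g‖ ≤ 1 ∧ c * ‖y‖ - ε ≤ |g y| := by
  intro W _ _ _ hunc rho hg hpos K hK
  subst hK
  have hinf : Infinite W := by
    by_contra hcon
    rw [not_infinite_iff_finite] at hcon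
    exact hunc Finite.to_countable
  exact mainThm (rho := rho) hg hpos

end Pool.Agent.S04117
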