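import Pool.Statements.S04124
import Pool.Agent.Helper957.TB.GF
import Pool.Agent.Helper957.TB.TwistAsplund

set_option autoImplicit false
open Pool Pool.MP_d36c66_an

namespace Pool.Agent.S04124

open Pool.Agent.Helper957.TB.Tree in
/-- weighted evaluations -/
noncomputable def wf (d : Dt) : Y →L[ℝ] ℝ := ((1 / 2 : ℝ) ^ Encodable.encode d) • eP (.ct d)

open Pool.Agent.Helper957.TB.Tree in
theorem wf_apply (d : Dt) (x : Y) : wf d x = (1 / 2 : ℝ) ^ Encodable.encode d * eP (.ct d) x := rfl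

open Pool.Agent.Helper957.TB.Tree in
theorem wf_norm (d : Dt) : ‖wf d‖ ≤ 1 := by
  apply ContinuousLinearMap.opNorm_le_bound _ zero_le_one
  intro x
  rw [wf_apply, norm_mul, one_mul, norm_pow, Real.norm_eq_abs, Real.norm_eq_abs]
  have h1 : |(1 / 2 : ℝ)| ^ Encodable.encode d ≤ 1 := by
    apply pow_le_one₀ (abs_nonneg _)
    rw [abs_of_pos (by norm_num)]; norm_num
  have h2 := abs_eP_le (.ct d) x
  have h3 : 0 ≤ |(1 / 2 : ℝ)| ^ Encodable.encode d := by positivity
  nlinarith [abs_nonneg (eP (.ct d) x)]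

open Pool.Agent.Helper957.TB.Tree in
theorem wf_tendsto (x : Y) : Filter.Tendsto (fun d => wf d x) Filter.cofinite (nhds 0) := by
  have h1 : Filter.Tendsto (fun d : Dt => (1 / 2 : ℝ) ^ Encodable.encode d * ‖x‖)
      Filter.cofinite (nhds (0 * ‖x‖)) := by
    apply Filter.Tendsto.mul_const
    have h2 : Filter.Tendsto (fun d : Dt => Encodable.encode d) Filter.cofinite Filter.atTop := by
      rw [← Nat.cofinite_eq_atTop]
      exact Encodable.encode_injective.tendsto_cofinite
    exact (tendsto_pow_atTop_nhds_zero_of_lt_one (by norm_num) (by norm_num)).comp h2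
  rw [zero_mul] at h1
  apply squeeze_zero_norm _ h1
  intro d
  rw [wf_apply, norm_mul, Real.norm_eq_abs, Real.norm_eq_abs, abs_of_pos (by positivity)]
  exact mul_le_mul_of_nonneg_left (abs_eP_le _ _) (by positivity)

/-- The negation of the preceding statement: Every real Banach space all of whose separable subspaces have separable duals, and which injects by a bounded linear map into c_0(Γ) for some index set Γ, has an equivalent norm that is Gâteaux differentiable at every nonzero point. -/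
theorem result :
    ¬ (∀ (X : Type) [NormedAddCommGroup X] [NormedSpace ℝ X] [CompleteSpace X],
      (∀ Y : Submodule ℝ X, TopologicalSpace.SeparableSpace ↥Y →
          TopologicalSpace.SeparableSpace (↥Y →L[ℝ] ℝ)) →
      (∃ (Γ : Type) (f : Γ → (X →L[ℝ] ℝ)),
          (∃ C : ℝ, ∀ γ, ‖f γ‖ ≤ C) ∧
          (∀ x : X, Filter.Tendsto (fun γ => f γ x) Filter.cofinite (nhds 0)) ∧
          (∀ x : X, (∀ γ, f γ x = 0) → x = 0)) →
      ∃ N : X → ℝ,
        (∃ c C : ℝ, 0 < c ∧ ∀ x : X, c * ‖x‖ ≤ N x ∧ N x ≤ C * ‖x‖) ∧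
        (∀ x y : X, N (x + y) ≤ N x + N y) ∧
        (∀ (a : ℝ) (x : X), N (a • x) = |a| * N x) ∧
        ∀ x : X, x ≠ 0 → ∃ φ : X →L[ℝ] ℝ,
          ∀ h : X, HasDerivAt (fun t : ℝ => N (x + t • h)) (φ h) 0) := by
  intro h
  obtain ⟨N, ⟨c, C, hc, hcC⟩, hadd, hsmul, hder⟩ := h Pool.Agent.Helper957.TB.Tree.Y
    (fun Z hZ => Pool.Agent.Helper957.TB.Tree.asplundY Z hZ)
    ⟨Pool.Agent.Helper957.TB.Tree.Dt, wf, ⟨1, wf_norm⟩, wf_tendsto, by
      intro x hx
      apply Pool.Agent.Helper957.TB.Tree.Y_inj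
      intro d
      have h1 := hx d
      rw [wf_apply] at h1
      rcases mul_eq_zero.1 h1 with h2 | h2
      · exact absurd h2 (by positivity)
      · exact h2⟩
  let p : Seminorm ℝ Pool.Agent.Helper957.TB.Tree.Y :=
    Seminorm.of N hadd (fun a x => by rw [hsmul, Real.norm_eq_abs])
  have hp : ∀ x, p x ≤ max C 0 * ‖x‖ := fun x =>
    ((hcC x).2).trans (mul_le_mul_of_nonneg_right (le_max_left _ _) (norm_nonneg x))
  exact Pool.Agent.Helper957.TB.Tree.no_gateaux (p := p) hp (le_max_right _ _) hc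
    (fun x => (hcC x).1) (fun x hx => hder x hx)

end Pool.Agent.S04124
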