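import Pool.Statements.S04127
import Pool.Agent.Helper66.MixE

set_option autoImplicit false
open MeasureTheory
open Pool Pool.MP_d3ee9b_an

namespace Pool.Agent.S04127

/-- For 1<p<∞ and a weight U on ℝ satisfying the interval condition (3.10), there is a constant C' with ∣{x : U(x)(Mf(x))^p > a}∣ ≤ (C'/a)∫∣f∣^p U for all f and a>0, Mf the interval maximal function. -/
theorem result :
    ∀ p : ℝ, 1 < p → ∀ U : ℝ → NNReal, Measurable U →
      (∃ C : NNReal, ∀ a b : ℝ, a < b →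
        (ENNReal.ofReal (b - a))⁻¹
            * (⨆ y : NNReal, (y : ENNReal) * volume ({x : ℝ | (y : ENNReal) < (U x : ENNReal)} ∩ Set.Icc a b))
          * ((ENNReal.ofReal (b - a))⁻¹
              * ∫⁻ x in Set.Icc a b, (U x : ENNReal) ^ (-(1 / (p - 1)))) ^ (p - 1)
          ≤ (C : ENNReal)) →
      ∃ C' : NNReal, ∀ f : ℝ → ℝ, Measurable f → ∀ a : NNReal, 0 < a →
        volume {x : ℝ | (a : ENNReal) <
            (U x : ENNReal) *
              (⨆ (c : ℝ) (d : ℝ) (_ : c < d ∧ c ≤ x ∧ x ≤ d),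
                (ENNReal.ofReal (d - c))⁻¹ * ∫⁻ y in Set.Icc c d, ‖f y‖ₑ) ^ p}
          ≤ (C' : ENNReal) / (a : ENNReal) * ∫⁻ x, ‖f x‖ₑ ^ p * (U x : ENNReal) := by
  rintro p hp U hU ⟨C, hC⟩
  exact Pool.Agent.Helper66.Mix.main hp hU (C := C) hC

end Pool.Agent.S04127
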