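import Pool.Statements.S04134

set_option autoImplicit false
open Filter Topology
open Pool Pool.MP_d4a912_an


open scoped ENNReal

namespace Pool.Agent.S04134.Frame

/-- weights of a family of diagonal Hilbertian seminorms -/
structure Wt (ι Γ : Type) where
  W : ι → Γ → ℝ
  pos : ∀ i γ, 0 < W i γ
  B : ℝ
  le : ∀ i γ, W i γ ≤ B
  i0 : ι

variable {ι Γ : Type} [DecidableEq Γ] (w : Wt ι Γ)

noncomputable abbrev H (Γ : Type) := lp (fun _ : Γ => ℝ) 2
noncomputable abbrev Z (ι Γ : Type) := lp (fun _ : ι => H Γ) ⊤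

/-- unit vector -/
noncomputable def e (γ : Γ) : Z ι Γ :=
  ⟨fun i => lp.single 2 γ (Real.sqrt (w.W i γ)), by
    apply memℓp_infty
    refine ⟨Real.sqrt w.B, ?_⟩
    rintro _ ⟨i, rfl⟩
    change ‖lp.single (E := fun _ : Γ => ℝ) 2 γ (Real.sqrt (w.W i γ))‖ ≤ _
    rw [lp.norm_single (by norm_num)]
    rw [Real.norm_eq_abs, abs_of_nonneg (Real.sqrt_nonneg _)]
    exact Real.sqrt_le_sqrt (w.le i γ)⟩

lemma e_apply (γ : Γ) (i : ι) (γ' : Γ) :
    (e w γ i : H Γ) γ' = if γ' = γ then Real.sqrt (w.W i γ) else 0 := by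
  change (lp.single 2 γ (Real.sqrt (w.W i γ)) : H Γ) γ' = _
  rw [lp.single_apply]
  by_cases h : γ' = γ
  · subst h; simp
  · simp [h]

/-- the closed span of the unit vectors -/
noncomputable def XS : Submodule ℝ (Z ι Γ) :=
  (Submodule.span ℝ (Set.range (e w))).topologicalClosure

/-- the Banach space -/
def X : Type := XS w

noncomputable instance : NormedAddCommGroup (X w) := inferInstanceAs (NormedAddCommGroup (XS w))
noncomputable instance : NormedSpace ℝ (X w) := inferInstanceAs (NormedSpace ℝ (XS w))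

instance : CompleteSpace (X w) :=
  (Submodule.isClosed_topologicalClosure (Submodule.span ℝ (Set.range (e w)))).completeSpace_coe

/-- inclusion in the big space -/
noncomputable def toZ : X w →L[ℝ] Z ι Γ := (XS w).subtypeL

lemma toZ_mem (v : X w) : toZ w v ∈ XS w := Subtype.prop (p := fun x => x ∈ XS w) v

lemma norm_toZ (v : X w) : ‖toZ w v‖ = ‖v‖ := rfl

noncomputable def mkX (v : Z ι Γ) (hv : v ∈ XS w) : X w := (⟨v, hv⟩ : XS w)

lemma toZ_mkX (v : Z ι Γ) (hv : v ∈ XS w) : toZ w (mkX w v hv) = v := rfl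

lemma toZ_inj (u v : X w) (h : toZ w u = toZ w v) : u = v := Subtype.ext h

noncomputable def eX (γ : Γ) : X w :=
  mkX w (e w γ) (Submodule.le_topologicalClosure _ (Submodule.subset_span ⟨γ, rfl⟩))

/-- coordinate functional on the big space -/
noncomputable def coZ (γ : Γ) : Z ι Γ →L[ℝ] ℝ :=
  (1 / Real.sqrt (w.W w.i0 γ)) •
    ((lp.evalCLM ℝ (fun _ : Γ => ℝ) 2 γ).comp (lp.evalCLM ℝ (fun _ : ι => H Γ) ⊤ w.i0))

lemma coZ_apply (γ : Γ) (v : Z ι Γ) :
    coZ w γ v = (1 / Real.sqrt (w.W w.i0 γ)) * (v w.i0 : H Γ) γ := rfl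

noncomputable def co (γ : Γ) : X w →L[ℝ] ℝ := (coZ w γ).comp (toZ w)

lemma co_apply (γ : Γ) (v : X w) : co w γ v = coZ w γ (toZ w v) := rfl

lemma co_eX (γ γ' : Γ) : co w γ' (eX w γ) = if γ' = γ then 1 else 0 := by
  rw [co_apply, coZ_apply]
  change _ * (e w γ w.i0 : H Γ) γ' = _
  rw [e_apply]
  by_cases h : γ' = γ
  · subst h
    have := Real.sqrt_pos.2 (w.pos w.i0 γ')
    simp only [if_true]
    field_simp
  · simp [h]

/-- coordinates in the fibre `i`. -/
lemma apply_eq (v : X w) (i : ι) (γ : Γ) :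
    (toZ w v i : H Γ) γ = Real.sqrt (w.W i γ) * co w γ v := by
  have hv := toZ_mem w v
  rw [co_apply]
  generalize toZ w v = v at hv
  let L : Z ι Γ →L[ℝ] ℝ :=
    ((lp.evalCLM ℝ (fun _ : Γ => ℝ) 2 γ).comp (lp.evalCLM ℝ (fun _ : ι => H Γ) ⊤ i)) -
      (Real.sqrt (w.W i γ)) • coZ w γ
  have hL : ∀ u : Z ι Γ, L u = (u i : H Γ) γ - Real.sqrt (w.W i γ) * coZ w γ u := fun u => rfl
  have hle : XS w ≤ LinearMap.ker (L : Z ι Γ →ₗ[ℝ] ℝ) := by
    apply Submodule.topologicalClosure_minimal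
    · rw [Submodule.span_le]
      rintro _ ⟨γ', rfl⟩
      change L (e w γ') = 0
      rw [hL, coZ_apply, e_apply, e_apply]
      by_cases h : γ = γ'
      · subst h
        have := Real.sqrt_pos.2 (w.pos w.i0 γ)
        simp only [if_true]
        field_simp
        ring
      · simp [h]
    · exact L.isClosed_ker
  have := hle hv
  have h2 : L v = 0 := this
  rw [hL] at h2
  linarith

/-- the `i`-th seminorm -/
noncomputable def hn (i : ι) (v : X w) : ℝ := ‖(toZ w v i : H Γ)‖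

lemma hn_nonneg (i : ι) (v : X w) : 0 ≤ hn w i v := norm_nonneg _

lemma hn_le (i : ι) (v : X w) : hn w i v ≤ ‖v‖ :=
  lp.norm_apply_le_norm (by simp) (toZ w v) i

lemma norm_le_of_hn (v : X w) (C : ℝ) (h : ∀ i, hn w i v ≤ C) : ‖v‖ ≤ C :=
  haveI : Nonempty ι := ⟨w.i0⟩
  lp.norm_le_of_forall_le' (f := toZ w v) C h

lemma exists_hn (v : X w) (c : ℝ) (h : c < ‖v‖) : ∃ i, c < hn w i v := by
  by_contra hcon
  push Not at hcon
  exact absurd (norm_le_of_hn w v c hcon) (not_le.2 h)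

lemma hasSum_hn (i : ι) (v : X w) :
    HasSum (fun γ => w.W i γ * (co w γ v)^2) ((hn w i v)^2) := by
  have h := lp.hasSum_norm (p := 2) (by norm_num) (toZ w v i : H Γ)
  have h2 : (fun γ => ‖((toZ w v i : H Γ)) γ‖ ^ (2 : ℝ≥0∞).toReal)
      = (fun γ => w.W i γ * (co w γ v)^2) := by
    funext γ
    rw [apply_eq]
    simp only [ENNReal.toReal_ofNat, Real.rpow_ofNat, norm_mul, mul_pow, Real.norm_eq_abs, sq_abs]
    rw [Real.sq_sqrt (w.pos i γ).le]
  rw [h2] at h
  simpa [hn] using h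

lemma parallelogram (i : ι) (u v : X w) :
    (hn w i (u + v))^2 + (hn w i (u - v))^2 = 2 * ((hn w i u)^2 + (hn w i v)^2) := by
  have := parallelogram_law_with_norm ℝ ((toZ w u i : H Γ)) ((toZ w v i : H Γ))
  simp only [hn]
  have e1 : (toZ w (u + v) i : H Γ) = (toZ w u i : H Γ) + (toZ w v i : H Γ) := rfl
  have e2 : (toZ w (u - v) i : H Γ) = (toZ w u i : H Γ) - (toZ w v i : H Γ) := rfl
  rw [e1, e2]
  nlinarith [this]

lemma sum_le_hn (i : ι) (v : X w) (S : Finset Γ) :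
    ∑ γ ∈ S, w.W i γ * (co w γ v)^2 ≤ (hn w i v)^2 :=
  sum_le_hasSum S (fun γ _ => mul_nonneg (w.pos i γ).le (sq_nonneg _)) (hasSum_hn w i v)

lemma co_le_hn (i : ι) (v : X w) (γ : Γ) :
    w.W i γ * (co w γ v)^2 ≤ (hn w i v)^2 := by
  simpa using sum_le_hn w i v {γ}

/-- solidness -/
lemma norm_le_of_co (u v : X w) (h : ∀ γ, |co w γ u| ≤ |co w γ v|) : ‖u‖ ≤ ‖v‖ := by
  apply norm_le_of_hn
  intro i
  refine le_trans ?_ (hn_le w i v)
  rw [← abs_of_nonneg (hn_nonneg w i u), ← abs_of_nonneg (hn_nonneg w i v)]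
  apply sq_le_sq.1
  apply hasSum_le _ (hasSum_hn w i u) (hasSum_hn w i v)
  intro γ
  exact mul_le_mul_of_nonneg_left (sq_le_sq.2 (h γ)) (w.pos i γ).le

/-- injectivity of the coordinates -/
lemma ext_co (u v : X w) (h : ∀ γ, co w γ u = co w γ v) : u = v := by
  have : ‖u - v‖ ≤ ‖(0 : X w)‖ := by
    apply norm_le_of_co
    intro γ
    simp [h γ]
  rw [norm_zero] at this
  exact sub_eq_zero.1 (norm_le_zero_iff.1 this)

/-- upper 2-estimate -/
lemma upper (u v : X w) (h : ∀ γ, co w γ u = 0 ∨ co w γ v = 0) :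
    ‖u + v‖^2 ≤ ‖u‖^2 + ‖v‖^2 := by
  have hnn : 0 ≤ ‖u‖^2 + ‖v‖^2 := by positivity
  have : ‖u + v‖ ≤ Real.sqrt (‖u‖^2 + ‖v‖^2) := by
    apply norm_le_of_hn
    intro i
    apply Real.le_sqrt_of_sq_le
    have h1 := hasSum_hn w i (u + v)
    have h2 := (hasSum_hn w i u).add (hasSum_hn w i v)
    have h3 : (hn w i (u+v))^2 ≤ (hn w i u)^2 + (hn w i v)^2 := by
      apply hasSum_le _ h1 h2
      intro γ
      have : co w γ (u + v) = co w γ u + co w γ v := map_add _ _ _
      rw [this]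
      rcases h γ with h | h <;> simp [h]
    have h4 := hn_le w i u
    have h5 := hn_le w i v
    have h6 := hn_nonneg w i u
    have h7 := hn_nonneg w i v
    have h8 : (hn w i u)^2 ≤ ‖u‖^2 := pow_le_pow_left₀ h6 h4 2
    have h9 : (hn w i v)^2 ≤ ‖v‖^2 := pow_le_pow_left₀ h7 h5 2
    linarith
  calc ‖u + v‖^2 ≤ (Real.sqrt (‖u‖^2 + ‖v‖^2))^2 := pow_le_pow_left₀ (norm_nonneg _) this 2
    _ = _ := Real.sq_sqrt hnn

/-- finite partial sums -/
noncomputable def pr (S : Finset Γ) (v : X w) : X w := ∑ γ ∈ S, co w γ v • eX w γ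

lemma co_sum (S : Finset Γ) (a : Γ → ℝ) (γ : Γ) :
    co w γ (∑ γ' ∈ S, a γ' • eX w γ') = if γ ∈ S then a γ else 0 := by
  rw [map_sum]
  simp only [map_smul, co_eX, smul_eq_mul, mul_ite, mul_one, mul_zero]
  rw [Finset.sum_ite_eq]

lemma co_pr (S : Finset Γ) (v : X w) (γ : Γ) :
    co w γ (pr w S v) = if γ ∈ S then co w γ v else 0 := co_sum w S _ γ

lemma hn_sum (i : ι) (S : Finset Γ) (a : Γ → ℝ) :
    (hn w i (∑ γ' ∈ S, a γ' • eX w γ'))^2 = ∑ γ ∈ S, w.W i γ * (a γ)^2 := by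
  have h1 := hasSum_hn w i (∑ γ' ∈ S, a γ' • eX w γ')
  have h2 : HasSum (fun γ => w.W i γ * (co w γ (∑ γ' ∈ S, a γ' • eX w γ'))^2)
      (∑ γ ∈ S, w.W i γ * (co w γ (∑ γ' ∈ S, a γ' • eX w γ'))^2) := by
    apply hasSum_sum_of_ne_finset_zero
    intro γ hγ
    rw [co_sum]; simp [hγ]
  rw [h1.unique h2]
  apply Finset.sum_congr rfl
  intro γ hγ
  rw [co_sum]; simp [hγ]

lemma norm_pr_le (S : Finset Γ) (v : X w) : ‖pr w S v‖ ≤ ‖v‖ := by
  apply norm_le_of_co
  intro γ
  rw [co_pr]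
  split_ifs
  · exact le_rfl
  · simp

lemma norm_sub_pr_le (S : Finset Γ) (v : X w) : ‖v - pr w S v‖ ≤ ‖v‖ := by
  apply norm_le_of_co
  intro γ
  rw [map_sub, co_pr]
  split_ifs
  · simp
  · simp

/-- elements of the span have finite support -/
lemma span_fin (u : X w) (hu : toZ w u ∈ Submodule.span ℝ (Set.range (e w))) :
    ∃ S : Finset Γ, pr w S u = u := by
  rw [Finsupp.mem_span_range_iff_exists_finsupp] at hu
  obtain ⟨c, hc⟩ := hu
  refine ⟨c.support, ?_⟩
  have hu' : u = ∑ γ ∈ c.support, c γ • eX w γ := by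
    apply toZ_inj
    rw [← hc, Finsupp.sum, map_sum]
    rfl
  apply ext_co
  intro γ
  rw [co_pr]
  conv_rhs => rw [hu', co_sum]
  conv_lhs => rw [hu', co_sum]
  split_ifs <;> rfl

lemma exists_pr (v : X w) (δ : ℝ) (hδ : 0 < δ) :
    ∃ S : Finset Γ, ∀ T : Finset Γ, S ⊆ T → ‖v - pr w T v‖ < δ := by
  have hv : toZ w v ∈ closure (Submodule.span ℝ (Set.range (e w)) : Set (Z ι Γ)) := toZ_mem w v
  rw [Metric.mem_closure_iff] at hv
  obtain ⟨u, hu, hd⟩ := hv δ hδ
  have huX : u ∈ XS w := Submodule.le_topologicalClosure _ hu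
  obtain ⟨S, hS⟩ := span_fin w (mkX w u huX) hu
  refine ⟨S, fun T hT => ?_⟩
  have hTu : pr w T (mkX w u huX) = (mkX w u huX) := by
    apply ext_co
    intro γ
    rw [co_pr]
    split_ifs with h
    · rfl
    · rw [← hS, co_pr, if_neg (fun h' => h (hT h'))]
  have e1 : v - pr w T v = (v - (mkX w u huX)) - pr w T (v - (mkX w u huX)) := by
    have : pr w T (v - (mkX w u huX)) = pr w T v - pr w T (mkX w u huX) := by
      apply ext_co
      intro γ
      rw [map_sub, co_pr, co_pr, co_pr]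
      split_ifs <;> simp
    rw [this, hTu]
    abel
  rw [e1]
  refine lt_of_le_of_lt (norm_sub_pr_le w T _) ?_
  rw [dist_eq_norm] at hd
  exact hd

/-- every functional is small off a finite set of coordinates -/
lemma shrink (f : X w →L[ℝ] ℝ) (δ : ℝ) (hδ : 0 < δ) :
    ∃ S : Finset Γ, ∀ v : X w, (∀ γ ∈ S, co w γ v = 0) → |f v| ≤ δ * ‖v‖ := by
  by_contra hcon
  push Not at hcon
  -- build long sums
  have key : ∀ N : ℕ, ∃ (T : Finset Γ) (u : X w), (∀ γ, γ ∉ T → co w γ u = 0) ∧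
      ‖u‖^2 ≤ N ∧ N * (δ/2) ≤ f u := by
    intro N
    induction N with
    | zero => exact ⟨∅, 0, by simp, by simp, by simp⟩
    | succ N ih =>
      obtain ⟨T, u, hT, hu, hfu⟩ := ih
      obtain ⟨v, hv0, hv⟩ := hcon T
      have hvpos : 0 < ‖v‖ := by
        rcases (norm_nonneg v).eq_or_lt with h | h
        · exfalso
          have : v = 0 := norm_eq_zero.1 h.symm
          rw [this] at hv
          simp at hv
        · exact h
      -- normalise with sign
      obtain ⟨s, hs, hfs⟩ : ∃ s : ℝ, |s| = 1 ∧ s * f v = |f v| := by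
        rcases le_total 0 (f v) with h | h
        · exact ⟨1, by simp, by rw [abs_of_nonneg h]; ring⟩
        · exact ⟨-1, by simp, by rw [abs_of_nonpos h]; ring⟩
      set v' : X w := (s * ‖v‖⁻¹) • v with hv'
      have hn' : ‖v'‖ = 1 := by
        rw [hv', norm_smul, Real.norm_eq_abs, abs_mul, hs, one_mul, abs_of_pos (inv_pos.2 hvpos)]
        exact inv_mul_cancel₀ hvpos.ne'
      have hf' : δ < f v' := by
        rw [hv', map_smul, smul_eq_mul]
        have : s * ‖v‖⁻¹ * f v = |f v| / ‖v‖ := by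
          rw [← hfs]; field_simp
        rw [this, lt_div_iff₀ hvpos]
        exact hv
      have hv'0 : ∀ γ ∈ T, co w γ v' = 0 := by
        intro γ hγ
        rw [hv', map_smul, hv0 γ hγ]; simp
      obtain ⟨S, hS⟩ := exists_pr w v' (δ / (2 * (‖f‖ + 1))) (by positivity)
      have hSS := hS S (subset_refl _)
      set v'' := pr w S v' with hv''
      have hf'' : δ / 2 ≤ f v'' := by
        have h1 : |f (v' - v'')| ≤ ‖f‖ * ‖v' - v''‖ := f.le_opNorm _
        have h2 : ‖f‖ * ‖v' - v''‖ ≤ (‖f‖ + 1) * (δ / (2 * (‖f‖ + 1))) := by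
          apply mul_le_mul (by linarith) hSS.le (norm_nonneg _) (by positivity)
        have h3 : (‖f‖ + 1) * (δ / (2 * (‖f‖ + 1))) = δ / 2 := by
          have : ‖f‖ + 1 ≠ 0 := by positivity
          field_simp
        have h4 : f (v' - v'') = f v' - f v'' := map_sub _ _ _
        have h5 := (abs_le.1 (h1.trans (h2.trans h3.le))).2
        linarith
      have hn'' : ‖v''‖ ≤ 1 := (norm_pr_le w S v').trans hn'.le
      refine ⟨T ∪ S, u + v'', ?_, ?_, ?_⟩
      · intro γ hγ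
        rw [Finset.mem_union, not_or] at hγ
        rw [map_add, hT γ hγ.1, hv'', co_pr, if_neg hγ.2]; simp
      · have := upper w u v'' (by
          intro γ
          by_cases h : γ ∈ T
          · right
            rw [hv'', co_pr, hv'0 γ h]; simp
          · left; exact hT γ h)
        push_cast
        have h2 : ‖v''‖^2 ≤ 1 := by
          have := pow_le_pow_left₀ (norm_nonneg _) hn'' 2
          simpa using this
        linarith
      · rw [map_add]; push_cast; linarith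
  -- contradiction
  obtain ⟨N, hN⟩ := exists_nat_gt ((2 * ‖f‖ / δ)^2)
  have hNpos : (0 : ℝ) < N := lt_of_le_of_lt (by positivity) hN
  obtain ⟨T, u, -, hu, hfu⟩ := key N
  have h1 : f u ≤ ‖f‖ * ‖u‖ := (le_abs_self _).trans (f.le_opNorm _)
  have h2 : ‖u‖ ≤ Real.sqrt N := Real.le_sqrt_of_sq_le hu
  have h3 : N * (δ/2) ≤ ‖f‖ * Real.sqrt N :=
    hfu.trans (h1.trans (mul_le_mul_of_nonneg_left h2 (norm_nonneg f)))
  have h4 : (Real.sqrt N) * (Real.sqrt N) = N := Real.mul_self_sqrt hNpos.le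
  have h5 : 0 < Real.sqrt N := Real.sqrt_pos.2 hNpos
  have h6 : Real.sqrt N * (δ/2) ≤ ‖f‖ := by
    have : Real.sqrt N * (Real.sqrt N * (δ/2)) ≤ Real.sqrt N * ‖f‖ := by
      rw [← mul_assoc, h4]; linarith
    exact le_of_mul_le_mul_left this h5
  have h7 : Real.sqrt N ≤ 2 * ‖f‖ / δ := by
    rw [le_div_iff₀ hδ]; linarith
  have h8 : (N : ℝ) ≤ (2 * ‖f‖ / δ)^2 := by
    rw [← Real.sq_sqrt hNpos.le]
    exact pow_le_pow_left₀ h5.le h7 2
  linarith

/-- bounded coordinatewise Cauchy sequences are weakly Cauchy -/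
lemma weakly_cauchy (x : ℕ → X w) (C : ℝ) (hC : ∀ n, ‖x n‖ ≤ C)
    (hco : ∀ γ, CauchySeq (fun n => co w γ (x n))) (f : X w →L[ℝ] ℝ) :
    CauchySeq (fun n => f (x n)) := by
  have hC0 : 0 ≤ C := (norm_nonneg _).trans (hC 0)
  rw [Metric.cauchySeq_iff']
  intro ε hε
  obtain ⟨S, hS⟩ := shrink w f (ε / (4 * (C + 1))) (by positivity)
  have h1 : CauchySeq (fun n => f (pr w S (x n))) := by
    have : (fun n => f (pr w S (x n))) = fun n => ∑ γ ∈ S, co w γ (x n) * f (eX w γ) := by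
      funext n
      simp [pr, map_sum]
    rw [this]
    clear hS
    induction S using Finset.induction_on with
    | empty => simpa using cauchySeq_const (0 : ℝ)
    | insert a S ha ih =>
      simp_rw [Finset.sum_insert ha]
      have ih' := ih (by funext n; simp [pr, map_sum])
      obtain ⟨l, hl⟩ := cauchySeq_tendsto_of_complete (hco a)
      obtain ⟨l', hl'⟩ := cauchySeq_tendsto_of_complete ih'
      exact ((hl.mul_const (f (eX w a))).add hl').cauchySeq
  rw [Metric.cauchySeq_iff'] at h1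
  obtain ⟨N, hN⟩ := h1 (ε/2) (by positivity)
  refine ⟨N, fun n hn => ?_⟩
  have h2 := hN n hn
  have h3 : |f ((x n - x N) - pr w S (x n - x N))| ≤ ε / (4 * (C + 1)) * ‖(x n - x N) - pr w S (x n - x N)‖ := by
    apply hS
    intro γ hγ
    rw [map_sub, co_pr, if_pos hγ]; ring
  have h4 : ‖(x n - x N) - pr w S (x n - x N)‖ ≤ 2 * C := by
    refine (norm_sub_pr_le w S _).trans ?_
    refine (norm_sub_le _ _).trans ?_
    linarith [hC n, hC N]
  have h5 : ε / (4 * (C + 1)) * ‖(x n - x N) - pr w S (x n - x N)‖ < ε / 2 := by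
    have : ε / (4 * (C + 1)) * ‖(x n - x N) - pr w S (x n - x N)‖ ≤ ε / (4 * (C + 1)) * (2 * C) :=
      mul_le_mul_of_nonneg_left h4 (by positivity)
    refine lt_of_le_of_lt this ?_
    rw [div_mul_eq_mul_div, div_lt_div_iff₀ (by positivity) (by positivity)]
    nlinarith
  have h6 : pr w S (x n - x N) = pr w S (x n) - pr w S (x N) := by
    apply ext_co
    intro γ
    rw [map_sub, co_pr, co_pr, co_pr]
    split_ifs <;> simp
  rw [h6] at h3 h5
  have h7 : f ((x n - x N) - (pr w S (x n) - pr w S (x N))) =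
      (f (x n) - f (x N)) - (f (pr w S (x n)) - f (pr w S (x N))) := by
    simp [map_sub]
  rw [h7] at h3
  rw [Real.dist_eq] at h2 ⊢
  have h8 := h3.trans_lt h5
  rw [abs_lt] at h2 h8 ⊢
  constructor <;> linarith [h2.1, h2.2, h8.1, h8.2]

end Pool.Agent.S04134.Frame

namespace Pool.Agent.S04134.Wcr
open Pool.Agent.S04134.Frame

abbrev P := ℕ × ℕ

def nu (p : P) : ℕ := min p.1 p.2

noncomputable def ep (p : P) : ℝ := 1 / ((nu p : ℝ) + 2)

noncomputable def cw (q : P) : ℝ := (1/4 : ℝ)^q.1 * (1/4 : ℝ)^q.2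

def inc (n : ℕ) (p : P) : Prop := p.1 = n ∨ p.2 = n

instance (n : ℕ) (p : P) : Decidable (inc n p) := by unfold inc; infer_instance

def IsM (F : Finset P) : Prop := ∀ p ∈ F, ∀ q ∈ F, ∀ n, inc n p → inc n q → p = q

abbrev Ix := P × {F : Finset P // IsM F}

lemma ep_pos (p : P) : 0 < ep p := by unfold ep; positivity

lemma ep_le (p : P) : ep p ≤ 1/2 := by
  unfold ep
  rw [div_le_div_iff₀ (by positivity) (by norm_num)]
  have : (0:ℝ) ≤ nu p := Nat.cast_nonneg _
  linarith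

lemma cw_pos (q : P) : 0 < cw q := by unfold cw; positivity

lemma cw_le (q : P) : cw q ≤ 1 := by
  unfold cw
  have h1 : (1/4 : ℝ)^q.1 ≤ 1 := pow_le_one₀ (by norm_num) (by norm_num)
  have h2 : (1/4 : ℝ)^q.2 ≤ 1 := pow_le_one₀ (by norm_num) (by norm_num)
  have h3 : (0:ℝ) ≤ (1/4 : ℝ)^q.2 := by positivity
  nlinarith

noncomputable def W (i : Ix) : Option P → ℝ
  | none => ep i.1
  | some q => (if q = i.1 then 1 - ep i.1 else 0) + (if q ∈ i.2.1 then 1 else 0) + cw q

noncomputable def w : Wt Ix (Option P) where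
  W := W
  pos := by
    intro i γ
    cases γ with
    | none => exact ep_pos _
    | some q =>
      have h1 : 0 < 1 - ep i.1 := by linarith [ep_le i.1]
      have h2 := cw_pos q
      simp only [W]
      split_ifs <;> linarith
  B := 3
  le := by
    intro i γ
    cases γ with
    | none => exact (ep_le i.1).trans (by norm_num)
    | some q =>
      have h1 := ep_pos i.1
      have h2 := cw_le q
      simp only [W]
      split_ifs <;> linarith
  i0 := ((0, 0), ⟨∅, by intro p hp; simp at hp⟩)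

noncomputable abbrev XX : Type := X w

noncomputable abbrev tt (v : XX) : ℝ := co w none v
noncomputable abbrev xx (q : P) (v : XX) : ℝ := co w (some q) v

lemma sq_t_le (i : Ix) (v : XX) : ep i.1 * (tt v)^2 ≤ (hn w i v)^2 := co_le_hn w i v none

lemma sq_x_le (i : Ix) (v : XX) : (1 - ep i.1) * (xx i.1 v)^2 ≤ (hn w i v)^2 := by
  refine le_trans ?_ (co_le_hn w i v (some i.1))
  apply mul_le_mul_of_nonneg_right _ (sq_nonneg _)
  change _ ≤ W i (some i.1)
  simp only [W, if_true]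
  have := cw_pos i.1
  split_ifs <;> linarith

lemma sq_c_le (i : Ix) (q : P) (v : XX) : cw q * (xx q v)^2 ≤ (hn w i v)^2 := by
  refine le_trans ?_ (co_le_hn w i v (some q))
  apply mul_le_mul_of_nonneg_right _ (sq_nonneg _)
  change _ ≤ W i (some q)
  simp only [W]
  have := cw_pos q
  have h1 : 0 < 1 - ep i.1 := by linarith [ep_le i.1]
  split_ifs <;> linarith

lemma sum_F_le (i : Ix) (v : XX) : ∑ q ∈ i.2.1, (xx q v)^2 ≤ (hn w i v)^2 := by
  have h := sum_le_hn w i v (i.2.1.map ⟨some, Option.some_injective _⟩)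
  refine le_trans ?_ h
  rw [Finset.sum_map]
  apply Finset.sum_le_sum
  intro q hq
  change (xx q v)^2 ≤ W i (some q) * (xx q v)^2
  simp only [W, if_pos hq]
  have := cw_pos q
  have h1 : 0 < 1 - ep i.1 := by linarith [ep_le i.1]
  have h2 := sq_nonneg (xx q v)
  split_ifs <;> nlinarith

/-- comparison of two indices with the same matching -/
lemma swap (p p' : P) (F : {F : Finset P // IsM F}) (v : XX) :
    (hn w (p', F) v)^2 - ((1 - ep p') * (xx p' v)^2 + ep p' * (tt v)^2)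
      = (hn w (p, F) v)^2 - ((1 - ep p) * (xx p v)^2 + ep p * (tt v)^2) := by
  let g : Option P → ℝ := fun γ => match γ with
      | none => 0
      | some q => ((if q ∈ F.1 then 1 else 0) + cw q) * (xx q v)^2
  have base : ∀ p : P, HasSum g
      ((hn w (p, F) v)^2 - ((1 - ep p) * (xx p v)^2 + ep p * (tt v)^2)) := by
    intro p
    let k : Option P → ℝ := fun γ => match γ with
      | none => ep p * (tt v)^2
      | some q => if q = p then (1 - ep p) * (xx p v)^2 else 0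
    have h := hasSum_hn w (p, F) v
    have h2 : HasSum k ((1 - ep p) * (xx p v)^2 + ep p * (tt v)^2) := by
      have : HasSum k (∑ γ ∈ ({none, some p} : Finset (Option P)), k γ) := by
        apply hasSum_sum_of_ne_finset_zero
        intro γ hγ
        cases γ with
        | none => simp at hγ
        | some q =>
          have : q ≠ p := by
            intro h; apply hγ; simp [h]
          simp [k, this]
      rw [Finset.sum_insert (by simp), Finset.sum_singleton] at this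
      simp only [k, if_true] at this
      rw [add_comm]
      exact this
    have h3 := h.sub h2
    have hgk : g = fun γ => w.W (p, F) γ * (co w γ v)^2 - k γ := by
     funext γ
     cases γ with
     | none =>
      change (0:ℝ) = W (p, F) none * (tt v)^2 - ep p * (tt v)^2
      simp [W]
     | some q =>
      change ((if q ∈ F.1 then 1 else 0) + cw q) * (xx q v)^2 = W (p, F) (some q) * (xx q v)^2 - (if q = p then (1 - ep p) * (xx p v)^2 else 0)
      simp only [W]
      by_cases hq : q = p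
      · subst hq; simp only [if_true]; ring
      · simp only [if_neg hq]; ring
    rw [hgk]
    exact h3
  exact (base p').unique (base p)

/-- first step: good index for a pair -/
lemma good (z : ℕ → XX) (hz : ∀ n, ‖z n‖ = 1)
    (h : Tendsto (fun p : ℕ × ℕ => ‖z p.1 + z p.2‖) atTop (𝓝 2)) (δ : ℝ) (hδ : 0 < δ) :
    ∃ K, ∀ k, K ≤ k → ∀ l, K ≤ l → ∃ i : Ix, (hn w i (z k - z l))^2 ≤ δ ∧
      1 - δ ≤ (hn w i (z k))^2 ∧ 1 - δ ≤ (hn w i (z l))^2 := by
  -- choose c < 2 with c^2 ≥ 4 - δ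
  obtain ⟨c, hc0, hc2, hc⟩ : ∃ c : ℝ, 0 ≤ c ∧ c < 2 ∧ 4 - δ ≤ c^2 := by
    refine ⟨max 0 (2 - δ/4), le_max_left _ _, max_lt (by norm_num) (by linarith), ?_⟩
    rcases le_total 0 (2 - δ/4) with h | h
    · rw [max_eq_right h]; nlinarith [sq_nonneg δ]
    · rw [max_eq_left h]; nlinarith
  have h1 : ∀ᶠ p : ℕ × ℕ in atTop, c < ‖z p.1 + z p.2‖ := h.eventually (lt_mem_nhds hc2)
  rw [eventually_atTop_prod_self'] at h1
  obtain ⟨K, hK⟩ := h1
  refine ⟨K, fun k hk l hl => ?_⟩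
  obtain ⟨i, hi⟩ := exists_hn w _ _ (hK k hk l hl)
  have hpar := parallelogram w i (z k) (z l)
  have hk1 := hn_le w i (z k)
  have hl1 := hn_le w i (z l)
  rw [hz] at hk1 hl1
  have hk0 := hn_nonneg w i (z k)
  have hl0 := hn_nonneg w i (z l)
  have hk2 : (hn w i (z k))^2 ≤ 1 := by nlinarith
  have hl2 : (hn w i (z l))^2 ≤ 1 := by nlinarith
  have hs : c^2 < (hn w i (z k + z l))^2 := by nlinarith
  have hd := sq_nonneg (hn w i (z k - z l))
  refine ⟨i, by linarith, by linarith, by linarith⟩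

/-- coordinates converge -/
lemma coord_cauchy (z : ℕ → XX) (hz : ∀ n, ‖z n‖ = 1)
    (h : Tendsto (fun p : ℕ × ℕ => ‖z p.1 + z p.2‖) atTop (𝓝 2)) (q : P) :
    CauchySeq (fun n => xx q (z n)) := by
  rw [Metric.cauchySeq_iff']
  intro ε hε
  have hc := cw_pos q
  obtain ⟨K, hK⟩ := good z hz h (cw q * (ε^2/2)) (by positivity)
  refine ⟨K, fun n hn => ?_⟩
  obtain ⟨i, hi, -, -⟩ := hK n hn K le_rfl
  have h1 := (sq_c_le i q (z n - z K)).trans hi
  have h2 : (xx q (z n - z K))^2 ≤ ε^2/2 := le_of_mul_le_mul_left h1 hc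
  have h3 : xx q (z n - z K) = xx q (z n) - xx q (z K) := map_sub _ _ _
  rw [Real.dist_eq]
  rw [h3] at h2
  apply abs_lt_of_sq_lt_sq _ hε.le
  nlinarith [sq_nonneg ε, mul_pos hε hε]

/-- large matchings inside a set of pairs going to infinity -/
lemma big_matching (B : P → Prop) (hB : ∀ R : ℕ, ∃ p, R ≤ nu p ∧ B p) (r : ℕ) :
    ∃ F : Finset P, IsM F ∧ F.card = r ∧ ∀ p ∈ F, B p := by
  induction r with
  | zero => exact ⟨∅, by intro p hp; simp at hp, rfl, by simp⟩
  | succ r ih =>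
    obtain ⟨F, hF, hc, hFB⟩ := ih
    obtain ⟨p, hp, hBp⟩ := hB (F.sup (fun q => q.1 + q.2) + 1)
    have hlt : ∀ q ∈ F, ∀ n, inc n q → n < nu p := by
      intro q hq n hn
      have h1 : q.1 + q.2 ≤ F.sup (fun q => q.1 + q.2) := Finset.le_sup (f := fun q : P => q.1 + q.2) hq
      rcases hn with h | h <;> omega
    have hge : ∀ n, inc n p → nu p ≤ n := by
      intro n hn
      unfold nu
      rcases hn with h | h <;> omega
    have hpF : p ∉ F := by
      intro h
      have h1 := hlt p h p.1 (Or.inl rfl)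
      have h2 := hge p.1 (Or.inl rfl)
      omega
    refine ⟨insert p F, ?_, by rw [Finset.card_insert_of_notMem hpF, hc], ?_⟩
    · intro a ha b hb n hna hnb
      rw [Finset.mem_insert] at ha hb
      rcases ha with rfl | ha <;> rcases hb with rfl | hb
      · rfl
      · have h1 := hlt b hb n hnb
        have h2 := hge n hna
        omega
      · have h1 := hlt a ha n hna
        have h2 := hge n hnb
        omega
      · exact hF a ha b hb n hna hnb
    · intro a ha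
      rw [Finset.mem_insert] at ha
      rcases ha with rfl | ha
      · exact hBp
      · exact hFB a ha

/-- the coordinatewise limit is small far out -/
lemma limit_small (z : ℕ → XX) (hz : ∀ n, ‖z n‖ = 1) (y : P → ℝ)
    (hy : ∀ q, Tendsto (fun n => xx q (z n)) atTop (𝓝 (y q))) (η : ℝ) (hη : 0 < η) :
    ∃ R : ℕ, ∀ p, R ≤ nu p → |y p| < η := by
  by_contra hcon
  push Not at hcon
  obtain ⟨r, hr⟩ := exists_nat_gt (1 / η^2)
  obtain ⟨F, hF, hc, hFB⟩ := big_matching (fun p => η ≤ |y p|) hcon r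
  have h1 : Tendsto (fun n => ∑ q ∈ F, (xx q (z n))^2) atTop (𝓝 (∑ q ∈ F, (y q)^2)) :=
    tendsto_finsetSum _ (fun q _ => (hy q).pow 2)
  have h2 : ∑ q ∈ F, (y q)^2 ≤ 1 := by
    apply le_of_tendsto' h1
    intro n
    have h3 := sum_F_le ((0,0), ⟨F, hF⟩) (z n)
    have h4 := hn_le w ((0,0), ⟨F, hF⟩) (z n)
    have h5 := hn_nonneg w ((0,0), ⟨F, hF⟩) (z n)
    rw [hz] at h4
    refine h3.trans ?_
    nlinarith
  have h3 : (r : ℝ) * η^2 ≤ ∑ q ∈ F, (y q)^2 := by
    have : ∑ q ∈ F, η^2 ≤ ∑ q ∈ F, (y q)^2 := by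
      apply Finset.sum_le_sum
      intro q hq
      rw [← sq_abs (y q)]
      exact pow_le_pow_left₀ hη.le (hFB q hq) 2
    rw [Finset.sum_const, hc, nsmul_eq_mul] at this
    exact this
  rw [div_lt_iff₀ (by positivity)] at hr
  linarith

/-- elements of the space vanish at infinity in the pair coordinates -/
lemma finite_big (v : XX) (η : ℝ) (hη : 0 < η) : {q : P | η ≤ |xx q v|}.Finite := by
  obtain ⟨S, hS⟩ := exists_pr w v η hη
  have hS' := hS S (subset_refl _)
  have : {q : P | η ≤ |xx q v|} ⊆ some ⁻¹' (S : Set (Option P)) := by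
    intro q hq
    by_contra hqS
    have hqS' : some q ∉ S := hqS
    have h1 : xx q (v - pr w S v) = xx q v := by
      change co w (some q) (v - pr w S v) = _
      rw [map_sub, co_pr, if_neg hqS', sub_zero]
    have hM : IsM {q} := by
      intro a ha b hb n _ _
      rw [Finset.mem_singleton] at ha hb
      rw [ha, hb]
    have h2 := sum_F_le ((0,0), ⟨{q}, hM⟩) (v - pr w S v)
    rw [Finset.sum_singleton] at h2
    have h3 := hn_le w ((0,0), ⟨{q}, hM⟩) (v - pr w S v)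
    have h4 := hn_nonneg w ((0,0), ⟨{q}, hM⟩) (v - pr w S v)
    rw [h1] at h2
    have h5 : |xx q v| ≤ ‖v - pr w S v‖ := by
      apply abs_le_of_sq_le_sq _ (norm_nonneg _)
      nlinarith
    exact absurd (lt_of_le_of_lt h5 hS') (not_lt.2 hq)
  exact Set.Finite.subset (S.finite_toSet.preimage (Option.some_injective _).injOn) this

/-- the `t`-coordinates converge -/
lemma t_cauchy (z : ℕ → XX) (hz : ∀ n, ‖z n‖ = 1)
    (h : Tendsto (fun p : ℕ × ℕ => ‖z p.1 + z p.2‖) atTop (𝓝 2)) :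
    CauchySeq (fun n => tt (z n)) := by
  by_contra hcon
  -- uniform non-Cauchy
  have hnc : ∃ ε > 0, ∀ k L : ℕ, ∃ l, L ≤ l ∧ ε ≤ |tt (z k) - tt (z l)| := by
    rw [Metric.cauchySeq_iff'] at hcon
    push Not at hcon
    obtain ⟨ε, hε, hcon⟩ := hcon
    refine ⟨ε/2, by positivity, fun k L => ?_⟩
    obtain ⟨l, hl, hd⟩ := hcon L
    rw [Real.dist_eq] at hd
    by_contra hno
    push Not at hno
    have h1 := hno l hl
    have h2 := hno L le_rfl
    have h3 : |tt (z l) - tt (z L)| ≤ |tt (z k) - tt (z l)| + |tt (z k) - tt (z L)| := by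
      have : tt (z l) - tt (z L) = (tt (z k) - tt (z L)) - (tt (z k) - tt (z l)) := by ring
      rw [this]
      exact (abs_sub _ _).trans (by linarith)
    linarith
  obtain ⟨ε, hε, hnc⟩ := hnc
  choose y hy using fun q => cauchySeq_tendsto_of_complete (coord_cauchy z hz h q)
  obtain ⟨R, hR⟩ := limit_small z hz y hy (ε/16) (by positivity)
  -- choice of δ
  set δ : ℝ := min (ε^2/(R+2)/4) (ε^2/1024) with hδ
  have hδ0 : 0 < δ := by rw [hδ]; positivity
  have hδ1 : δ ≤ ε^2/(R+2)/4 := min_le_left _ _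
  have hδ2 : δ ≤ ε^2/1024 := min_le_right _ _
  obtain ⟨K, hK⟩ := good z hz h δ hδ0
  have hfin := finite_big (z K) (ε/16) (by positivity)
  -- eventually small on the finite set
  have hev : ∀ᶠ l in atTop, ∀ p ∈ {q : P | ε/16 ≤ |xx q (z K)|}, R ≤ nu p → |xx p (z l)| < ε/16 := by
    rw [Filter.eventually_all_finite hfin]
    intro p hp
    by_cases hRp : R ≤ nu p
    · have h1 := (hy p).abs
      filter_upwards [h1.eventually (gt_mem_nhds (hR p hRp))] with l hl _
      exact hl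
    · exact Eventually.of_forall (fun l hl => absurd hl hRp)
  obtain ⟨L, hL⟩ := eventually_atTop.1 hev
  obtain ⟨l, hl, hd⟩ := hnc K (max K L)
  obtain ⟨i, hi, hik, hil⟩ := hK K le_rfl l ((le_max_left _ _).trans hl)
  have hLl := hL l ((le_max_right _ _).trans hl)
  obtain ⟨p, F⟩ := i
  have hep := ep_pos p
  have hep2 := ep_le p
  -- ep p small
  have h1 := (sq_t_le (p, F) (z K - z l)).trans hi
  have h2 : tt (z K - z l) = tt (z K) - tt (z l) := map_sub _ _ _
  rw [h2] at h1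
  have h3 : ε^2 ≤ (tt (z K) - tt (z l))^2 := by
    rw [← sq_abs (tt (z K) - tt (z l))]
    exact pow_le_pow_left₀ hε.le hd 2
  have h4 : ep p * ε^2 ≤ δ := (mul_le_mul_of_nonneg_left h3 hep.le).trans h1
  have h5 : ep p ≤ 1/(R+2)/4 := by
    have : ep p * ε^2 ≤ (1/(R+2)/4) * ε^2 := by
      refine h4.trans (hδ1.trans (le_of_eq ?_))
      ring
    exact le_of_mul_le_mul_right this (by positivity)
  have hRp : R ≤ nu p := by
    by_contra hlt
    push Not at hlt
    have h6 : (nu p : ℝ) + 2 ≤ R + 2 := by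
      have : (nu p : ℝ) ≤ R := by exact_mod_cast hlt.le
      linarith
    have h7 : 1/((R:ℝ)+2) ≤ ep p := by
      unfold ep
      exact one_div_le_one_div_of_le (by positivity) h6
    have h8 : (0:ℝ) < 1/((R:ℝ)+2) := by positivity
    linarith
  have h6 : ep p ≤ 1/8 := by
    have : (1:ℝ)/(R+2)/4 ≤ 1/2/4 := by
      apply div_le_div_of_nonneg_right _ (by norm_num)
      apply one_div_le_one_div_of_le (by norm_num)
      have : (0:ℝ) ≤ R := Nat.cast_nonneg _
      linarith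
    linarith
  -- lower bounds
  have low : ∀ v : XX, ‖v‖ = 1 → 1 - δ ≤ (hn w (p, F) v)^2 → (tt v)^2/4 ≤ (xx p v)^2 + δ := by
    intro v hv hvi
    have h7 := swap p (0,0) F v
    have h8 := hn_le w ((0,0), F) v
    have h9 := hn_nonneg w ((0,0), F) v
    rw [hv] at h8
    have h10 : (hn w ((0,0), F) v)^2 ≤ 1 := by nlinarith
    have h11 : ep (0,0) = 1/2 := by norm_num [ep, nu]
    rw [h11] at h7
    have h12 : 0 ≤ (xx (0,0) v)^2 := sq_nonneg _
    have h13 : 0 ≤ (tt v)^2 := sq_nonneg _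
    have h14 : 0 ≤ (xx p v)^2 := sq_nonneg _
    nlinarith
  have lk := low (z K) (hz K) hik
  have ll := low (z l) (hz l) hil
  have hx := (sq_x_le (p, F) (z K - z l)).trans hi
  have h7 : xx p (z K - z l) = xx p (z K) - xx p (z l) := map_sub _ _ _
  rw [h7] at hx
  have hx2 : (xx p (z K) - xx p (z l))^2 ≤ 2 * δ := by
    have : 0 ≤ (xx p (z K) - xx p (z l))^2 := sq_nonneg _
    simp only at hx
    nlinarith
  have hx3 : |xx p (z K) - xx p (z l)| ≤ ε/16 := by
    apply abs_le_of_sq_le_sq _ (by positivity)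
    nlinarith
  -- one of the t's is big
  have hbig : ε/2 ≤ |tt (z K)| ∨ ε/2 ≤ |tt (z l)| := by
    by_contra hno
    push Not at hno
    have := abs_sub (tt (z K)) (tt (z l))
    linarith [hno.1, hno.2]
  have aux : ∀ a b : ℝ, ε/2 ≤ |a| → a^2/4 ≤ b^2 + δ → ε/8 ≤ |b| := by
    intro a b ha hb
    by_contra hlt
    push Not at hlt
    have h8 : (ε/2)^2 ≤ |a|^2 := pow_le_pow_left₀ (by positivity) ha 2
    have h9 : |b|^2 ≤ (ε/8)^2 := pow_le_pow_left₀ (abs_nonneg _) hlt.le 2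
    rw [sq_abs] at h8 h9
    nlinarith [mul_pos hε hε]
  have hxx : ε/8 ≤ |xx p (z K)| ∨ ε/8 ≤ |xx p (z l)| := by
    rcases hbig with hb | hb
    · left
      exact aux _ _ hb lk
    · right
      exact aux _ _ hb ll
  have hboth : ε/16 ≤ |xx p (z K)| ∧ ε/16 ≤ |xx p (z l)| := by
    have h8 := abs_sub_abs_le_abs_sub (xx p (z K)) (xx p (z l))
    have h9 := abs_sub_abs_le_abs_sub (xx p (z l)) (xx p (z K))
    rw [abs_sub_comm (xx p (z l))] at h9
    rcases hxx with hb | hb <;> constructor <;> linarith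
  exact absurd (hLl p hboth.1 hRp) (not_lt.2 hboth.2)

end Pool.Agent.S04134.Wcr

namespace Pool.Agent.S04134.Wcr
open Pool.Agent.S04134.Frame

noncomputable def gw (q : P) : ℝ := (1/2 : ℝ)^q.1 * (1/2 : ℝ)^q.2

lemma gw_nonneg (q : P) : 0 ≤ gw q := by unfold gw; positivity

lemma gw_summable : Summable gw := by
  have h : Summable (fun n : ℕ => (1/2 : ℝ)^n) := summable_geometric_of_lt_one (by norm_num) (by norm_num)
  exact h.mul_of_nonneg h (fun n => by positivity) (fun n => by positivity)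

noncomputable def KK : ℝ := ∑' q : P, gw q

lemma KK_nonneg : 0 ≤ KK := tsum_nonneg gw_nonneg

lemma cw_le_of_inc (n : ℕ) (q : P) (h : inc n q) : cw q ≤ (1/2 : ℝ)^n * gw q := by
  have h1 : cw q = (1/2 : ℝ)^(q.1 + q.2) * gw q := by
    unfold cw gw
    rw [pow_add]
    have : (1/4 : ℝ) = (1/2) * (1/2) := by norm_num
    rw [this, mul_pow, mul_pow]
    ring
  rw [h1]
  apply mul_le_mul_of_nonneg_right _ (gw_nonneg q)
  apply pow_le_pow_of_le_one (by norm_num) (by norm_num)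
  rcases h with h | h <;> omega

lemma star_bound (n : ℕ) (s : ℝ) (hs : |s| ≤ 1) (S : Finset P) (hS : ∀ q ∈ S, inc n q)
    (a : P → ℝ) (ha : ∀ q, |a q| ≤ 1) :
    ‖s • eX w none + ∑ q ∈ S, a q • eX w (some q)‖ ≤ Real.sqrt (2 + KK * (1/2 : ℝ)^n) := by
  apply norm_le_of_hn
  intro i
  apply Real.le_sqrt_of_sq_le
  let b : Option P → ℝ := fun γ => match γ with
    | none => s
    | some q => a q
  have h1 : s • eX w none + ∑ q ∈ S, a q • eX w (some q) =
      ∑ γ ∈ Finset.insertNone S, b γ • eX w γ := by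
    rw [Finset.sum_insertNone]
  rw [h1, hn_sum, Finset.sum_insertNone]
  change ep i.1 * s^2 + ∑ q ∈ S, ((if q = i.1 then 1 - ep i.1 else 0) + (if q ∈ i.2.1 then 1 else 0) + cw q) * (a q)^2 ≤ _
  have hep := ep_pos i.1
  have hep2 := ep_le i.1
  have hs2 : s^2 ≤ 1 := by rw [← sq_abs]; exact pow_le_one₀ (abs_nonneg _) hs
  have ha2 : ∀ q, (a q)^2 ≤ 1 := by intro q; rw [← sq_abs]; exact pow_le_one₀ (abs_nonneg _) (ha q)
  have h2 : ∑ q ∈ S, ((if q = i.1 then 1 - ep i.1 else 0) + (if q ∈ i.2.1 then 1 else 0) + cw q) * (a q)^2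
      ≤ ∑ q ∈ S, ((if q = i.1 then 1 - ep i.1 else 0) + (if q ∈ i.2.1 then 1 else 0) + (1/2 : ℝ)^n * gw q) := by
    apply Finset.sum_le_sum
    intro q hq
    have h3 := cw_le_of_inc n q (hS q hq)
    have h4 := cw_pos q
    have h5 := ha2 q
    have h6 : 0 ≤ ((if q = i.1 then 1 - ep i.1 else 0) + (if q ∈ i.2.1 then 1 else 0) + cw q : ℝ) := by
      split_ifs <;> linarith
    have h7 : ((if q = i.1 then 1 - ep i.1 else 0) + (if q ∈ i.2.1 then 1 else 0) + cw q : ℝ) * (a q)^2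
       ≤ ((if q = i.1 then 1 - ep i.1 else 0) + (if q ∈ i.2.1 then 1 else 0) + cw q : ℝ) :=
      mul_le_of_le_one_right h6 h5
    linarith
  refine le_trans (add_le_add (mul_le_of_le_one_right hep.le hs2) h2) ?_
  rw [Finset.sum_add_distrib, Finset.sum_add_distrib]
  have h3 : ∑ q ∈ S, (if q = i.1 then 1 - ep i.1 else 0 : ℝ) ≤ 1 - ep i.1 := by
    rw [Finset.sum_ite_eq']
    split_ifs <;> linarith
  have h4 : ∑ q ∈ S, (if q ∈ i.2.1 then 1 else 0 : ℝ) ≤ 1 := by
    rw [← Finset.sum_filter, Finset.sum_const, nsmul_eq_mul, mul_one]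
    have : (S.filter (fun q => q ∈ i.2.1)).card ≤ 1 := by
      rw [Finset.card_le_one]
      intro p hp q hq
      rw [Finset.mem_filter] at hp hq
      exact i.2.2 p hp.2 q hq.2 n (hS p hp.1) (hS q hq.1)
    exact_mod_cast this
  have h5 : ∑ q ∈ S, (1/2 : ℝ)^n * gw q ≤ KK * (1/2 : ℝ)^n := by
    rw [← Finset.mul_sum, mul_comm]
    apply mul_le_mul_of_nonneg_right _ (by positivity)
    exact gw_summable.sum_le_tsum _ (fun q _ => gw_nonneg q)
  linarith

noncomputable def term (n : ℕ) (f : XX →L[ℝ] ℝ) (q : P) : ℝ :=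
  if inc n q then f (eX w (some q)) else 0

lemma term_summable (n : ℕ) (f : XX →L[ℝ] ℝ) : Summable (term n f) := by
  apply Summable.of_norm
  apply summable_of_sum_le (c := ‖f‖ * Real.sqrt (2 + KK * (1/2 : ℝ)^n)) (fun q => norm_nonneg _)
  intro S
  have h1 : ∑ q ∈ S, ‖term n f q‖ = ∑ q ∈ S.filter (inc n), |f (eX w (some q))| := by
    rw [Finset.sum_filter]
    apply Finset.sum_congr rfl
    intro q _
    unfold term
    split_ifs <;> simp
  let a : P → ℝ := fun q => if 0 ≤ f (eX w (some q)) then 1 else -1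
  have ha : ∀ q, |a q| ≤ 1 := by
    intro q; simp only [a]; split_ifs <;> simp
  have h2 : ∑ q ∈ S.filter (inc n), |f (eX w (some q))| =
      f ((0:ℝ) • eX w none + ∑ q ∈ S.filter (inc n), a q • eX w (some q)) := by
    rw [zero_smul, zero_add, map_sum]
    apply Finset.sum_congr rfl
    intro q _
    rw [map_smul, smul_eq_mul]
    simp only [a]
    split_ifs with h
    · rw [abs_of_nonneg h, one_mul]
    · rw [abs_of_neg (not_le.1 h)]; ring
  rw [h1, h2]
  refine (le_abs_self _).trans ((f.le_opNorm _).trans ?_)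
  apply mul_le_mul_of_nonneg_left _ (norm_nonneg _)
  apply star_bound n 0 (by simp) _ _ a ha
  intro q hq
  exact (Finset.mem_filter.1 hq).2

noncomputable def Flin (n : ℕ) : (XX →L[ℝ] ℝ) →ₗ[ℝ] ℝ where
  toFun f := (-1)^n * f (eX w none) + ∑' q : P, term n f q
  map_add' f g := by
    have h : term n (f + g) = fun q => term n f q + term n g q := by
      funext q
      unfold term
      split_ifs <;> simp
    rw [h, (term_summable n f).tsum_add (term_summable n g)]
    simp only [add_apply]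
    ring
  map_smul' c f := by
    have h : term n (c • f) = fun q => c * term n f q := by
      funext q
      unfold term
      split_ifs <;> simp
    rw [h, tsum_mul_left]
    simp only [smul_apply, smul_eq_mul, RingHom.id_apply]
    ring

lemma Flin_bound (n : ℕ) (f : XX →L[ℝ] ℝ) :
    ‖Flin n f‖ ≤ Real.sqrt (2 + KK * (1/2 : ℝ)^n) * ‖f‖ := by
  have h1 : Tendsto (fun S : Finset P => ‖(-1)^n * f (eX w none) + ∑ q ∈ S, term n f q‖) atTop
      (𝓝 ‖Flin n f‖) := by
    have := (term_summable n f).hasSum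
    exact ((tendsto_const_nhds (x := (-1)^n * f (eX w none))).add this).norm
  apply le_of_tendsto' h1
  intro S
  have h2 : (-1)^n * f (eX w none) + ∑ q ∈ S, term n f q =
      f (((-1 : ℝ)^n) • eX w none + ∑ q ∈ S.filter (inc n), (1:ℝ) • eX w (some q)) := by
    rw [map_add, map_smul, map_sum, smul_eq_mul, Finset.sum_filter]
    congr 1
    apply Finset.sum_congr rfl
    intro q _
    unfold term
    split_ifs <;> simp
  rw [h2, mul_comm]
  refine (f.le_opNorm _).trans ?_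
  apply mul_le_mul_of_nonneg_left _ (norm_nonneg _)
  apply star_bound n _ (by simp) _ _ _ (by simp)
  intro q hq
  exact (Finset.mem_filter.1 hq).2

noncomputable def FF (n : ℕ) : (XX →L[ℝ] ℝ) →L[ℝ] ℝ :=
  (Flin n).mkContinuous _ (Flin_bound n)

lemma FF_apply (n : ℕ) (f : XX →L[ℝ] ℝ) :
    FF n f = (-1)^n * f (eX w none) + ∑' q : P, term n f q := rfl

lemma FF_norm_le (n : ℕ) : ‖FF n‖ ≤ Real.sqrt (2 + KK * (1/2 : ℝ)^n) :=
  (Flin n).mkContinuous_norm_le (Real.sqrt_nonneg _) _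

lemma FF_none (n : ℕ) : FF n (co w none) = (-1)^n := by
  rw [FF_apply, co_eX]
  have : term n (co w none) = fun _ => 0 := by
    funext q
    unfold term
    rw [co_eX]; simp
  rw [this]
  simp

lemma FF_some (n : ℕ) (p : P) (h : inc n p) : FF n (co w (some p)) = 1 := by
  rw [FF_apply, co_eX, tsum_eq_single p]
  · unfold term
    rw [co_eX]; simp [h]
  · intro q hq
    unfold term
    rw [co_eX]
    have : ¬ (some p = some q) := fun h => hq (Option.some_injective _ h).symm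
    simp [this]

/-- norming functional for pairs -/
noncomputable def gg (p : P) : XX →L[ℝ] ℝ := (Real.sqrt (2 - ep p)) • co w (some p)

lemma gg_norm (p : P) : ‖gg p‖ ≤ 1 := by
  apply ContinuousLinearMap.opNorm_le_bound _ zero_le_one
  intro v
  rw [one_mul]
  have hM : IsM {p} := by
    intro a ha b hb n _ _
    rw [Finset.mem_singleton] at ha hb
    rw [ha, hb]
  have h1 := co_le_hn w (p, ⟨{p}, hM⟩) v (some p)
  have h2 := hn_le w (p, ⟨{p}, hM⟩) v
  have h3 := hn_nonneg w (p, ⟨{p}, hM⟩) v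
  have h4 : w.W (p, ⟨{p}, hM⟩) (some p) = (1 - ep p) + 1 + cw p := by
    change W (p, ⟨{p}, hM⟩) (some p) = _
    simp [W]
  rw [h4] at h1
  have h5 := cw_pos p
  have h6 := ep_le p
  change ‖Real.sqrt (2 - ep p) * co w (some p) v‖ ≤ _
  rw [Real.norm_eq_abs]
  apply abs_le_of_sq_le_sq _ (norm_nonneg _)
  rw [mul_pow, Real.sq_sqrt (by linarith)]
  have h7 := sq_nonneg (co w (some p) v)
  nlinarith

lemma FF_gg (n : ℕ) (p : P) (h : inc n p) : FF n (gg p) = Real.sqrt (2 - ep p) := by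
  unfold gg
  rw [map_smul, FF_some n p h]
  simp


section abs
variable {V : Type} [NormedAddCommGroup V] [NormedSpace ℝ V]
  (F : ℕ → (V →L[ℝ] ℝ)) (φ : V) (g : P → V)

noncomputable def GG (n : ℕ) : V →L[ℝ] ℝ := (‖F n‖)⁻¹ • F n

lemma F_norm_pos (hφ : ∀ n, F n φ = (-1)^n) (n : ℕ) : 0 < ‖F n‖ := by
  rw [norm_pos_iff]
  intro h
  have := hφ n
  rw [h] at this
  simp only [zero_apply] at this
  have h2 : ((-1 : ℝ)^n) ≠ 0 := pow_ne_zero _ (by norm_num)
  exact h2 this.symm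

lemma GG_norm (hφ : ∀ n, F n φ = (-1)^n) (n : ℕ) : ‖GG F n‖ = 1 := by
  unfold GG
  rw [norm_smul, norm_inv, norm_norm]
  exact inv_mul_cancel₀ (F_norm_pos F φ hφ n).ne'

noncomputable def rr (N : ℕ) : ℝ :=
  Real.sqrt (2 - 1/((N:ℝ)+2)) / Real.sqrt (2 + KK * (1/2 : ℝ)^N)

lemma rr_tendsto : Tendsto rr atTop (𝓝 1) := by
  have h1 : Tendsto (fun N : ℕ => (2:ℝ) - 1/((N:ℝ)+2)) atTop (𝓝 (2 - 0)) := by
    apply tendsto_const_nhds.sub
    have : Tendsto (fun N : ℕ => (N:ℝ) + 2) atTop atTop :=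
      tendsto_atTop_add_const_right _ _ tendsto_natCast_atTop_atTop
    exact (tendsto_const_nhds.div_atTop this)
  have h2 : Tendsto (fun N : ℕ => (2:ℝ) + KK * (1/2 : ℝ)^N) atTop (𝓝 (2 + KK * 0)) := by
    apply tendsto_const_nhds.add
    apply tendsto_const_nhds.mul
    exact tendsto_pow_atTop_nhds_zero_of_lt_one (by norm_num) (by norm_num)
  rw [sub_zero] at h1
  rw [mul_zero, add_zero] at h2
  have h3 := (h1.sqrt).div (h2.sqrt) (by positivity)
  have h4 : Real.sqrt 2 / Real.sqrt 2 = 1 := div_self (by positivity)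
  rw [h4] at h3
  exact h3

lemma GG_gg (hφ : ∀ n, F n φ = (-1)^n) (hF : ∀ n, ‖F n‖ ≤ Real.sqrt (2 + KK * (1/2 : ℝ)^n))
    (hFg : ∀ n p, inc n p → F n (g p) = Real.sqrt (2 - ep p))
    (N n : ℕ) (hn : N ≤ n) (p : P) (hp : N ≤ nu p) (h : inc n p) : rr N ≤ GG F n (g p) := by
  change rr N ≤ (‖F n‖)⁻¹ * F n (g p)
  rw [hFg n p h, mul_comm, ← div_eq_mul_inv]
  unfold rr
  apply div_le_div₀ (Real.sqrt_nonneg _)
  · apply Real.sqrt_le_sqrt
    have : ep p ≤ 1/((N:ℝ)+2) := by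
      unfold ep
      apply one_div_le_one_div_of_le (by positivity)
      have : (N:ℝ) ≤ nu p := by exact_mod_cast hp
      linarith
    linarith
  · exact F_norm_pos F φ hφ n
  · refine (hF n).trans (Real.sqrt_le_sqrt ?_)
    have h1 : (1/2:ℝ)^n ≤ (1/2:ℝ)^N := pow_le_pow_of_le_one (by norm_num) (by norm_num) hn
    have := mul_le_mul_of_nonneg_left h1 KK_nonneg
    linarith

lemma GG_pair (hφ : ∀ n, F n φ = (-1)^n) (hF : ∀ n, ‖F n‖ ≤ Real.sqrt (2 + KK * (1/2 : ℝ)^n))
    (hFg : ∀ n p, inc n p → F n (g p) = Real.sqrt (2 - ep p)) (hg : ∀ p, ‖g p‖ ≤ 1)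
    (N k l : ℕ) (hk : N ≤ k) (hl : N ≤ l) : 2 * rr N ≤ ‖GG F k + GG F l‖ := by
  have hp : N ≤ nu (k, l) := by unfold nu; exact le_min hk hl
  have h1 := GG_gg F φ g hφ hF hFg N k hk (k, l) hp (Or.inl rfl)
  have h2 := GG_gg F φ g hφ hF hFg N l hl (k, l) hp (Or.inr rfl)
  have h3 : ‖(GG F k + GG F l) (g (k, l))‖ ≤ ‖GG F k + GG F l‖ * ‖g (k, l)‖ := (GG F k + GG F l).le_opNorm _
  have h4 : ‖GG F k + GG F l‖ * ‖g (k, l)‖ ≤ ‖GG F k + GG F l‖ * 1 :=
    mul_le_mul_of_nonneg_left (hg _) (norm_nonneg (GG F k + GG F l))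
  have h5 : (GG F k + GG F l) (g (k, l)) = GG F k (g (k,l)) + GG F l (g (k,l)) := rfl
  have h6 := le_abs_self ((GG F k + GG F l) (g (k, l)))
  rw [Real.norm_eq_abs] at h3
  linarith

lemma GG_tendsto (hφ : ∀ n, F n φ = (-1)^n) (hF : ∀ n, ‖F n‖ ≤ Real.sqrt (2 + KK * (1/2 : ℝ)^n))
    (hFg : ∀ n p, inc n p → F n (g p) = Real.sqrt (2 - ep p)) (hg : ∀ p, ‖g p‖ ≤ 1) :
    Tendsto (fun p : ℕ × ℕ => ‖GG F p.1 + GG F p.2‖) atTop (𝓝 2) := by
  rw [Metric.tendsto_nhds]
  intro ε hε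
  have h1 : ∀ᶠ N in atTop, 1 - ε/2 < rr N := rr_tendsto.eventually (lt_mem_nhds (by linarith))
  obtain ⟨N, hN⟩ := h1.exists
  filter_upwards [eventually_ge_atTop ((N, N) : ℕ × ℕ)] with p hp
  obtain ⟨k, l⟩ := p
  have hk : N ≤ k := hp.1
  have hl : N ≤ l := hp.2
  have hup : ‖GG F k + GG F l‖ ≤ 2 := by
    refine (norm_add_le _ _).trans ?_
    rw [GG_norm F φ hφ, GG_norm F φ hφ]; norm_num
  have hlow : 2 - ε < ‖GG F k + GG F l‖ := by
    have := GG_pair F φ g hφ hF hFg hg N k l hk hl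
    linarith
  rw [Real.dist_eq, abs_lt]
  constructor
  · linarith
  · change ‖GG F k + GG F l‖ - 2 < ε
    linarith

lemma GG_none (hφ : ∀ n, F n φ = (-1)^n) (n : ℕ) : GG F n φ = (‖F n‖)⁻¹ * (-1)^n := by
  change (‖F n‖)⁻¹ * F n φ = _
  rw [hφ]

lemma GG_not_cauchy (hφ : ∀ n, F n φ = (-1)^n) (hF : ∀ n, ‖F n‖ ≤ Real.sqrt (2 + KK * (1/2 : ℝ)^n)) :
    ¬ CauchySeq (fun n => GG F n φ) := by
  intro h
  rw [Metric.cauchySeq_iff] at h
  have hK : 0 < Real.sqrt (2 + KK) := Real.sqrt_pos.2 (by linarith [KK_nonneg])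
  obtain ⟨N, hN⟩ := h ((Real.sqrt (2 + KK))⁻¹) (inv_pos.2 hK)
  have h1 := hN N le_rfl (N+1) (Nat.le_succ N)
  rw [Real.dist_eq, GG_none F φ hφ, GG_none F φ hφ] at h1
  have hb : ∀ n, (Real.sqrt (2 + KK))⁻¹ ≤ (‖F n‖)⁻¹ := by
    intro n
    apply inv_anti₀ (F_norm_pos F φ hφ n)
    refine (hF n).trans (Real.sqrt_le_sqrt ?_)
    have h1 : (1/2:ℝ)^n ≤ 1 := pow_le_one₀ (by norm_num) (by norm_num)
    have := mul_le_mul_of_nonneg_left h1 KK_nonneg
    linarith
  have h2 : |(‖F N‖)⁻¹ * (-1)^N - (‖F (N+1)‖)⁻¹ * (-1)^(N+1)| = (‖F N‖)⁻¹ + (‖F (N+1)‖)⁻¹ := by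
    have e1 : (‖F N‖)⁻¹ * (-1)^N - (‖F (N+1)‖)⁻¹ * (-1)^(N+1) =
        (-1)^N * ((‖F N‖)⁻¹ + (‖F (N+1)‖)⁻¹) := by
      rw [pow_succ]; ring
    rw [e1, abs_mul, abs_pow, abs_neg, abs_one, one_pow, one_mul]
    apply abs_of_pos
    have := F_norm_pos F φ hφ N
    have := F_norm_pos F φ hφ (N+1)
    positivity
  rw [h2] at h1
  have h3 := hb N
  have h4 := hb (N+1)
  have h5 : 0 < (Real.sqrt (2 + KK))⁻¹ := inv_pos.2 hK
  linarith

end abs

theorem main :
    ¬ (∀ (X : Type) [NormedAddCommGroup X] [NormedSpace ℝ X] [CompleteSpace X],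
      (∀ x : ℕ → X, (∀ n, ‖x n‖ = 1) →
        Tendsto (fun p : ℕ × ℕ => ‖x p.1 + x p.2‖) atTop (𝓝 2) →
        ∀ f : X →L[ℝ] ℝ, CauchySeq (fun n => f (x n))) ↔
      (∀ F : ℕ → ((X →L[ℝ] ℝ) →L[ℝ] ℝ), (∀ n, ‖F n‖ = 1) →
        Tendsto (fun p : ℕ × ℕ => ‖F p.1 + F p.2‖) atTop (𝓝 2) →
        ∀ f : X →L[ℝ] ℝ, CauchySeq (fun n => F n f))) := by
  intro h
  have h1 := (h XX).1 (by
    intro x hx hlim f
    apply weakly_cauchy w x 1 (fun n => (hx n).le)
    intro γ
    cases γ with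
    | none => exact t_cauchy x hx hlim
    | some q => exact coord_cauchy x hx hlim q)
  exact GG_not_cauchy FF (co w none) FF_none FF_norm_le (h1 (GG FF) (GG_norm FF (co w none) FF_none)
    (GG_tendsto FF (co w none) gg FF_none FF_norm_le FF_gg gg_norm) (co w none))

end Pool.Agent.S04134.Wcr

namespace Pool.Agent.S04134

/-- The negation of the preceding statement: For every real Banach space X: unit-sphere sequences with norm of x_n+x_m tending to 2 are always weakly Cauchy in X iff the same holds in the bidual X** with w*-Cauchy (tested on X*) in place of weakly Cauchy. -/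
theorem result :
    ¬ (∀ (X : Type) [NormedAddCommGroup X] [NormedSpace ℝ X] [CompleteSpace X],
      (∀ x : ℕ → X, (∀ n, ‖x n‖ = 1) →
        Tendsto (fun p : ℕ × ℕ => ‖x p.1 + x p.2‖) atTop (𝓝 2) →
        ∀ f : X →L[ℝ] ℝ, CauchySeq (fun n => f (x n))) ↔
      (∀ F : ℕ → ((X →L[ℝ] ℝ) →L[ℝ] ℝ), (∀ n, ‖F n‖ = 1) →
        Tendsto (fun p : ℕ × ℕ => ‖F p.1 + F p.2‖) atTop (𝓝 2) →
        ∀ f : X →L[ℝ] ℝ, CauchySeq (fun n => F n f))) := by
  exact Pool.Agent.S04134.Wcr.main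

end Pool.Agent.S04134
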