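import Pool.Statements.S04135
import Pool.Agent.Helper746.CarFinalA
import Pool.Agent.Helper746.CarE0
import Pool.Agent.Helper746.CarGlue

set_option autoImplicit false
open Pool Pool.MP_d4b492_an

namespace Pool.Agent.S04135

/-- Every map from the standard 1/3 Sierpiński carpet in the unit square into itself that is bi-Lipschitz (distances distorted by at most a bounded factor both ways) agrees on the carpet with some affine map of the plane. -/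
theorem result :
    ∀ S : Set (ℝ × ℝ),
      S = {p : ℝ × ℝ | 0 ≤ p.1 ∧ p.1 ≤ 1 ∧ 0 ≤ p.2 ∧ p.2 ≤ 1 ∧
        ∀ n : ℕ, ∀ i j : ℤ,
          ¬ (((3 * (i : ℝ) + 1) / 3 ^ (n + 1) < p.1 ∧ p.1 < (3 * (i : ℝ) + 2) / 3 ^ (n + 1)) ∧
             ((3 * (j : ℝ) + 1) / 3 ^ (n + 1) < p.2 ∧ p.2 < (3 * (j : ℝ) + 2) / 3 ^ (n + 1)))} →
      ∀ f : ℝ × ℝ → ℝ × ℝ,
        Set.MapsTo f S S →
        (∃ K : ℝ, 0 < K ∧ ∀ p ∈ S, ∀ q ∈ S,
            dist p q ≤ K * dist (f p) (f q) ∧ dist (f p) (f q) ≤ K * dist p q) →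
        ∃ A : AffineMap ℝ (ℝ × ℝ) (ℝ × ℝ), ∀ p ∈ S, f p = A p := by
  intro S hS f hmaps hK
  have hSq : S = Pool.Agent.Helper746.Car.Sq := by
    rw [hS]
    ext p
    exact (Pool.Agent.Helper746.Car.Sq_iff p).symm
  subst hSq
  obtain ⟨C, hC, h⟩ := hK
  obtain ⟨m, L, lam, hl0, hl1, hgood, hext⟩ := Pool.Agent.Helper746.Car.extremal f hmaps hC h
  have hnot := Pool.Agent.Helper746.Car.exact_cell hl0 hl1 hgood hext
  unfold Pool.Agent.Helper746.Car.NE at hnot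
  push Not at hnot
  obtain ⟨n, i, j, hcell, hex⟩ := hnot
  obtain ⟨A, hA, b, hb⟩ := Pool.Agent.Helper746.Car.glue hl0 hl1 hgood n i j hcell hex
  obtain ⟨Al, hAl⟩ := hA.linear
  have h3 : (3 : ℝ) ^ m * (1 / 3) ^ m = 1 := by
    rw [← mul_pow]; norm_num
  refine ⟨((3 : ℝ) ^ m * lam) • Al.toAffineMap + AffineMap.const ℝ (ℝ × ℝ) ((3 : ℝ) ^ m • b), ?_⟩
  intro p hp
  have h1 : f p = (3 : ℝ) ^ m • (((1 / 3 : ℝ) ^ m) • f p) := by
    rw [smul_smul, h3, one_smul]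
  have h2 := hb p hp
  rw [h1, h2, hAl, smul_add, smul_smul]
  simp

end Pool.Agent.S04135
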