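import Pool.Statements.S04138
-- import your own Pool.Agent.* helpers here

set_option autoImplicit false
open Pool Pool.MP_d4c9a2_an

namespace Pool.Agent.S04138

/-- The monomial self-map of `ℂ³` attached to an exponent matrix. -/
def mono (M : Matrix (Fin 3) (Fin 3) ℕ) (v : Fin 3 → ℂ) : Fin 3 → ℂ :=
  fun i => ∏ j, v j ^ M i j

/-- Exponent matrix of the map `(x, y, z) ↦ (y z, x ^ 2 y, y ^ 4 z)`. -/
def A : Matrix (Fin 3) (Fin 3) ℕ := !![0, 1, 1; 2, 1, 0; 0, 4, 1]

theorem mono_comp (M N : Matrix (Fin 3) (Fin 3) ℕ) (v : Fin 3 → ℂ) :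
    mono M (mono N v) = mono (M * N) v := by
  funext i
  simp only [mono, Matrix.mul_apply]
  calc ∏ j, (∏ l, v l ^ N j l) ^ M i j
      = ∏ j, ∏ l, v l ^ (M i j * N j l) := by
        refine Finset.prod_congr rfl fun j _ => ?_
        rw [← Finset.prod_pow]
        refine Finset.prod_congr rfl fun l _ => ?_
        rw [← pow_mul, mul_comm]
    _ = ∏ l, ∏ j, v l ^ (M i j * N j l) := Finset.prod_comm
    _ = ∏ l, v l ^ (∑ j, M i j * N j l) := by
        refine Finset.prod_congr rfl fun l _ => ?_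
        rw [Finset.prod_pow_eq_pow_sum]

theorem mono_iterate (M : Matrix (Fin 3) (Fin 3) ℕ) (k : ℕ) :
    (mono M)^[k] = mono (M ^ k) := by
  induction k with
  | zero =>
    funext v i
    simp only [Function.iterate_zero, id, pow_zero, mono, Matrix.one_apply]
    rw [Finset.prod_eq_single i]
    · simp
    · intro b _ hb
      simp [Ne.symm hb]
    · simp
  | succ k ih =>
    funext v
    rw [Function.iterate_succ_apply', ih, mono_comp, pow_succ']

/-- Row sums of the exponent matrix: the degrees of the components. -/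
def deg (M : Matrix (Fin 3) (Fin 3) ℕ) (i : Fin 3) : ℕ := ∑ j, M i j

theorem contDiff_mono_apply (M : Matrix (Fin 3) (Fin 3) ℕ) (i : Fin 3) {n : WithTop ℕ∞} :
    ContDiff ℂ n (fun v : Fin 3 → ℂ => mono M v i) := by
  unfold mono
  refine contDiff_prod fun j _ => ?_
  exact (contDiff_apply ℂ ℂ j).pow _

theorem contDiff_mono (M : Matrix (Fin 3) (Fin 3) ℕ) {n : WithTop ℕ∞} :
    ContDiff ℂ n (mono M) := by
  rw [contDiff_pi]
  intro i
  exact contDiff_mono_apply M i

theorem mono_smul (M : Matrix (Fin 3) (Fin 3) ℕ) (i : Fin 3) (c : ℂ) (v : Fin 3 → ℂ) :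
    mono M (c • v) i = c ^ deg M i * mono M v i := by
  simp only [mono, deg, Pi.smul_apply, smul_eq_mul, mul_pow, Finset.prod_mul_distrib]
  rw [Finset.prod_pow_eq_pow_sum]

theorem iteratedFDeriv_apply_eq_zero (M : Matrix (Fin 3) (Fin 3) ℕ) (i : Fin 3) (m : ℕ)
    (hm : m ≠ deg M i) : iteratedFDeriv ℂ m (fun v : Fin 3 → ℂ => mono M v i) 0 = 0 := by
  have h1 := congrFun (iteratedFDeriv_comp_const_smul (𝕜 := ℂ) (i := m) (2 : ℂ)
    (contDiff_mono_apply M i)) 0
  have h2 : (fun z : Fin 3 → ℂ => mono M ((2 : ℂ) • z) i)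
      = fun z => (2 : ℂ) ^ deg M i • mono M z i := by
    funext z
    rw [mono_smul, smul_eq_mul]
  rw [h2, iteratedFDeriv_const_smul_apply' (contDiff_mono_apply M i).contDiffAt, smul_zero] at h1
  have h3 : ((2 : ℂ) ^ deg M i - (2 : ℂ) ^ m) •
      iteratedFDeriv ℂ m (fun v : Fin 3 → ℂ => mono M v i) 0 = 0 := by
    rw [sub_smul, h1, sub_self]
  rcases smul_eq_zero.1 h3 with h | h
  · exfalso
    apply hm
    have h4 : ((2 : ℕ) : ℂ) ^ deg M i = ((2 : ℕ) : ℂ) ^ m := by
      simpa using sub_eq_zero.1 h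
    have h5 : (2 : ℕ) ^ deg M i = 2 ^ m := by exact_mod_cast h4
    exact (Nat.pow_right_injective le_rfl h5).symm
  · exact h

theorem iteratedFDeriv_apply_ne_zero (M : Matrix (Fin 3) (Fin 3) ℕ) (i : Fin 3) :
    iteratedFDeriv ℂ (deg M i) (fun v : Fin 3 → ℂ => mono M v i) 0 ≠ 0 := by
  intro h0
  let g : ℂ →L[ℂ] (Fin 3 → ℂ) := ContinuousLinearMap.pi fun _ => ContinuousLinearMap.id ℂ ℂ
  have h1 := ContinuousLinearMap.iteratedFDeriv_comp_right g (contDiff_mono_apply M i) (0 : ℂ)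
    (i := deg M i) (n := deg M i) le_rfl
  have hg : g 0 = 0 := map_zero g
  rw [hg, h0] at h1
  have h2 : ((fun v : Fin 3 → ℂ => mono M v i) ∘ g) = fun t : ℂ => t ^ deg M i := by
    funext t
    simp only [Function.comp_apply, mono, deg]
    rw [← Finset.prod_pow_eq_pow_sum]
    rfl
  rw [h2] at h1
  have h3 : iteratedDeriv (deg M i) (fun t : ℂ => t ^ deg M i) 0 = 0 := by
    rw [iteratedDeriv_eq_iteratedFDeriv, h1]
    rfl
  rw [iteratedDeriv_fun_pow_zero] at h3
  simp at h3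
  exact (Nat.factorial_ne_zero _) (by exact_mod_cast h3)

theorem order_mono (M : Matrix (Fin 3) (Fin 3) ℕ) (m₀ : ℕ) (hle : ∀ i, m₀ ≤ deg M i)
    (hex : ∃ i, deg M i = m₀) :
    sInf {m : ℕ | iteratedFDeriv ℂ m (mono M) 0 ≠ 0} = m₀ := by
  apply le_antisymm
  · apply Nat.sInf_le
    obtain ⟨i, hi⟩ := hex
    rw [Set.mem_ofPred_eq]
    intro h0
    have h1 := ContinuousLinearMap.iteratedFDeriv_comp_left (x := (0 : Fin 3 → ℂ))
      (ContinuousLinearMap.proj (R := ℂ) (φ := fun _ : Fin 3 => ℂ) i)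
      (contDiff_mono M).contDiffAt (i := m₀) (n := m₀) le_rfl
    rw [h0] at h1
    have h2 := iteratedFDeriv_apply_ne_zero M i
    rw [hi] at h2
    apply h2
    have h3 : ((ContinuousLinearMap.proj (R := ℂ) (φ := fun _ : Fin 3 => ℂ) i) ∘ mono M)
        = fun v : Fin 3 → ℂ => mono M v i := rfl
    rw [h3] at h1
    rw [h1]
    ext v
    simp
  · apply le_csInf
    · obtain ⟨i, hi⟩ := hex
      refine ⟨m₀, ?_⟩
      rw [Set.mem_ofPred_eq]
      intro h0
      have h1 := ContinuousLinearMap.iteratedFDeriv_comp_left (x := (0 : Fin 3 → ℂ))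
        (ContinuousLinearMap.proj (R := ℂ) (φ := fun _ : Fin 3 => ℂ) i)
        (contDiff_mono M).contDiffAt (i := m₀) (n := m₀) le_rfl
      rw [h0] at h1
      have h2 := iteratedFDeriv_apply_ne_zero M i
      rw [hi] at h2
      apply h2
      have h3 : ((ContinuousLinearMap.proj (R := ℂ) (φ := fun _ : Fin 3 => ℂ) i) ∘ mono M)
          = fun v : Fin 3 → ℂ => mono M v i := rfl
      rw [h3] at h1
      rw [h1]
      ext v
      simp
    · intro m hm
      rw [Set.mem_ofPred_eq] at hm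
      by_contra hlt
      push Not at hlt
      apply hm
      ext v i
      have h1 := ContinuousLinearMap.iteratedFDeriv_comp_left (x := (0 : Fin 3 → ℂ))
        (ContinuousLinearMap.proj (R := ℂ) (φ := fun _ : Fin 3 => ℂ) i)
        (contDiff_mono M).contDiffAt (i := m) (n := m) le_rfl
      have h3 : ((ContinuousLinearMap.proj (R := ℂ) (φ := fun _ : Fin 3 => ℂ) i) ∘ mono M)
          = fun v : Fin 3 → ℂ => mono M v i := rfl
      rw [h3, iteratedFDeriv_apply_eq_zero M i m (by have := hle i; omega)] at h1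
      have h4 := congrArg (fun T => T v) h1
      simpa using h4.symm


/-- Row sums of the powers of `A`. -/
def rs (k : ℕ) (i : Fin 3) : ℕ := deg (A ^ k) i

theorem rs_zero (i : Fin 3) : rs 0 i = 1 := by
  simp [rs, deg, Matrix.one_apply]

theorem rs_succ (k : ℕ) (i : Fin 3) : rs (k + 1) i = ∑ l, A i l * rs k l := by
  simp only [rs, deg, pow_succ', Matrix.mul_apply]
  rw [Finset.sum_comm]
  refine Finset.sum_congr rfl fun l _ => ?_
  rw [Finset.mul_sum]

theorem rs_succ0 (k : ℕ) : rs (k + 1) 0 = rs k 1 + rs k 2 := by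
  rw [rs_succ]; simp [A, Fin.sum_univ_three]

theorem rs_succ1 (k : ℕ) : rs (k + 1) 1 = 2 * rs k 0 + rs k 1 := by
  rw [rs_succ]; simp [A, Fin.sum_univ_three]

theorem rs_succ2 (k : ℕ) : rs (k + 1) 2 = 4 * rs k 1 + rs k 2 := by
  rw [rs_succ]; simp [A, Fin.sum_univ_three]

theorem rs_le (k : ℕ) : rs k 0 ≤ rs k 2 := by
  cases k with
  | zero => simp [rs_zero]
  | succ k => rw [rs_succ0, rs_succ2]; omega

theorem order_iterate (k : ℕ) :
    sInf {m : ℕ | iteratedFDeriv ℂ m ((mono A)^[k]) 0 ≠ 0} = min (rs k 0) (rs k 1) := by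
  rw [mono_iterate]
  apply order_mono
  · intro i
    have h := rs_le k
    fin_cases i
    · exact min_le_left _ _
    · exact min_le_right _ _
    · exact (min_le_left _ _).trans h
  · rcases le_total (rs k 0) (rs k 1) with h | h
    · exact ⟨0, (min_eq_left h).symm⟩
    · exact ⟨1, (min_eq_right h).symm⟩

/-- The difference of the first two row sums. -/
def D (k : ℕ) : ℤ := (rs k 0 : ℤ) - (rs k 1 : ℤ)

theorem D_rec (k : ℕ) : D (k + 2) = -D (k + 1) - 2 * D k := by
  simp only [D, rs_succ0, rs_succ1, rs_succ2]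
  push_cast
  ring

theorem D_zero : D 0 = 0 := by simp [D, rs_zero]

theorem D_one : D 1 = -1 := by simp [D, rs_succ0, rs_succ1, rs_zero]

/-- The Lucas sequence with `U 0 = 0`, `U 1 = 1`, `U (k+2) = - U (k+1) - 2 U k`. -/
def U (k : ℕ) : ℤ := -D k

theorem U_rec (k : ℕ) : U (k + 2) = -U (k + 1) - 2 * U k := by
  simp only [U, D_rec]; ring

theorem U_zero : U 0 = 0 := by simp [U, D_zero]

theorem U_one : U 1 = 1 := by simp [U, D_one]

theorem D_odd (k : ℕ) : D (k + 1) % 2 = 1 := by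
  induction k with
  | zero => rw [D_one]; rfl
  | succ k ih =>
    have := D_rec k
    have h2 : D (k + 1 + 1) = D (k + 2) := rfl
    rw [h2, this]
    omega

theorem U_ne_zero (k : ℕ) : U (k + 1) ≠ 0 := by
  have := D_odd k
  unfold U
  omega

theorem U_norm (k : ℕ) : U (k + 1) ^ 2 + U (k + 1) * U k + 2 * U k ^ 2 = 2 ^ k := by
  induction k with
  | zero => rw [U_zero, U_one]; norm_num
  | succ k ih =>
    rw [U_rec, pow_succ (2 : ℤ) k, ← ih]
    ring

theorem step (W : ℕ → ℤ) (hW : ∀ k, W (k + 2) = -W (k + 1) - 2 * W k) (P : ℕ) :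
    ∀ k, W (k + P) = U P * W (k + 1) + (U (P + 1) + U P) * W k := by
  induction P with
  | zero => intro k; rw [U_zero, zero_add, U_one]; simp
  | succ P ih =>
    intro k
    have h1 : W (k + (P + 1)) = W ((k + 1) + P) := by congr 1; omega
    rw [h1, ih (k + 1), U_rec, hW k]
    ring

theorem step2 (W : ℕ → ℤ) (hW : ∀ k, W (k + 2) = -W (k + 1) - 2 * W k) (P k : ℕ) :
    W (k + P + P) = (2 * U (P + 1) + U P) * W (k + P) - 2 ^ P * W k := by
  rw [step W hW P (k + P), ← U_norm P]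
  have h1 : W (k + P + 1) = W ((k + 1) + P) := by congr 1; omega
  rw [h1, step W hW P (k + 1), step W hW P k, hW k]
  ring

theorem no_pos (E : ℕ → ℝ) (V N : ℝ) (hV : V ^ 2 < 4 * N)
    (hE : ∀ j, E (j + 2) = V * E (j + 1) - N * E j) (hpos : ∀ j, 0 < E j) : False := by
  set q : ℕ → ℝ := fun j => E (j + 1) / E j with hq
  have hqpos : ∀ j, 0 < q j := fun j => div_pos (hpos _) (hpos _)
  have hqs : ∀ j, q j * q (j + 1) = V * q j - N := by
    intro j
    have h0 := (hpos j).ne'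
    have h1 := (hpos (j + 1)).ne'
    simp only [hq]
    rw [hE j]
    field_simp
  set c : ℝ := N - V ^ 2 / 4 with hc
  have hcpos : 0 < c := by rw [hc]; linarith
  have hdec : ∀ j, q j * (q j - q (j + 1)) ≥ c := by
    intro j
    have := hqs j
    nlinarith [sq_nonneg (q j - V / 2)]
  have hmono : ∀ j, q (j + 1) ≤ q j := by
    intro j
    by_contra h
    push Not at h
    have h1 := hdec j
    have h2 := hqpos j
    nlinarith
  have hle : ∀ j, q j ≤ q 0 := by
    intro j
    induction j with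
    | zero => exact le_rfl
    | succ j ih => exact (hmono j).trans ih
  set δ : ℝ := c / q 0 with hδ
  have hδpos : 0 < δ := div_pos hcpos (hqpos 0)
  have hstep : ∀ j, q (j + 1) ≤ q j - δ := by
    intro j
    have h1 := hdec j
    have h2 := hqpos j
    have h3 := hle j
    have h4 : q 0 * (q j - q (j + 1)) ≥ c := by
      have : 0 ≤ q j - q (j + 1) := sub_nonneg.2 (hmono j)
      nlinarith
    have h5 : δ ≤ q j - q (j + 1) := by
      rw [hδ, div_le_iff₀ (hqpos 0)]
      linarith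
    linarith
  have hlin : ∀ j : ℕ, q j ≤ q 0 - j * δ := by
    intro j
    induction j with
    | zero => simp
    | succ j ih =>
      have := hstep j
      push_cast
      linarith
  obtain ⟨n, hn⟩ := exists_nat_gt (q 0 / δ)
  have h1 := hlin n
  have h2 := hqpos n
  rw [div_lt_iff₀ hδpos] at hn
  linarith


/-- An explicit formula for the map. -/
theorem mono_A (v : Fin 3 → ℂ) :
    mono A v = ![v 1 * v 2, v 0 ^ 2 * v 1, v 1 ^ 4 * v 2] := by
  funext i
  fin_cases i <;> simp [mono, A, Fin.prod_univ_three]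

/-- The Jacobian matrix of the map. -/
def J (v : Fin 3 → ℂ) : Matrix (Fin 3) (Fin 3) ℂ :=
  !![0, v 2, v 1; 2 * v 0 * v 1, v 0 ^ 2, 0; 0, 4 * v 1 ^ 3 * v 2, v 1 ^ 4]

theorem hasFDerivAt_mono_A (v : Fin 3 → ℂ) :
    HasFDerivAt (mono A) (LinearMap.toContinuousLinearMap (Matrix.toLin' (J v))) v := by
  apply hasFDerivAt_pi''
  intro i
  have h0 : HasFDerivAt (fun w : Fin 3 → ℂ => w 0)
      (ContinuousLinearMap.proj (R := ℂ) (φ := fun _ : Fin 3 => ℂ) 0) v := hasFDerivAt_apply 0 v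
  have h1 : HasFDerivAt (fun w : Fin 3 → ℂ => w 1)
      (ContinuousLinearMap.proj (R := ℂ) (φ := fun _ : Fin 3 => ℂ) 1) v := hasFDerivAt_apply 1 v
  have h2 : HasFDerivAt (fun w : Fin 3 → ℂ => w 2)
      (ContinuousLinearMap.proj (R := ℂ) (φ := fun _ : Fin 3 => ℂ) 2) v := hasFDerivAt_apply 2 v
  simp only [mono_A]
  fin_cases i
  · have h := h1.mul h2
    refine (h.congr_fderiv ?_)
    ext w
    simp [J, dotProduct, Fin.sum_univ_three]
    ring
  · have h := (h0.pow 2).mul h1
    refine (h.congr_fderiv ?_)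
    ext w
    simp [J, dotProduct, Fin.sum_univ_three]
    ring
  · have h := (h1.pow 4).mul h2
    refine (h.congr_fderiv ?_)
    ext w
    simp [J, dotProduct, Fin.sum_univ_three]
    ring

theorem det_fderiv (v : Fin 3 → ℂ) :
    (fderiv ℂ (mono A) v).det = 6 * v 0 * v 1 ^ 5 * v 2 := by
  rw [(hasFDerivAt_mono_A v).fderiv]
  change LinearMap.det (Matrix.toLin' (J v)) = _
  rw [LinearMap.det_toLin', Matrix.det_fin_three]
  simp [J]
  ring


/-- The sequence `min (x k) (y k)` satisfies no linear recursion with integer coefficients. -/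
theorem no_recursion (d : ℕ) (a : Fin d → ℤ) (K : ℕ)
    (hrec : ∀ k : ℕ, K ≤ k → ((min (rs (k + d) 0) (rs (k + d) 1) : ℕ) : ℤ) =
      ∑ i : Fin d, a i * ((min (rs (k + (i : ℕ)) 0) (rs (k + (i : ℕ)) 1) : ℕ) : ℤ)) : False := by
  set u : ℕ → ℤ := fun k => ((min (rs k 0) (rs k 1) : ℕ) : ℤ) with hu
  have hrec' : ∀ k : ℕ, K ≤ k → u (k + d) = ∑ i : Fin d, a i * u (k + (i : ℕ)) := hrec
  let st : ℕ → (Fin (d + 1) → ZMod 2) × (Fin 3 → ZMod 2) :=
    fun k => (fun i => ((u (k + (i : ℕ)) : ℤ) : ZMod 2), fun i => ((rs k i : ℕ) : ZMod 2))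
  have hst : ∀ k l, K ≤ k → K ≤ l → st k = st l → st (k + 1) = st (l + 1) := by
    intro k l hk hl h
    have hA : ∀ i : Fin (d + 1), ((u (k + (i : ℕ)) : ℤ) : ZMod 2) = ((u (l + (i : ℕ)) : ℤ) : ZMod 2) :=
      fun i => congrFun (congrArg Prod.fst h) i
    have hB : ∀ i : Fin 3, ((rs k i : ℕ) : ZMod 2) = ((rs l i : ℕ) : ZMod 2) :=
      fun i => congrFun (congrArg Prod.snd h) i
    have hA' : ∀ j : ℕ, j ≤ d → ((u (k + j) : ℤ) : ZMod 2) = ((u (l + j) : ℤ) : ZMod 2) :=
      fun j hj => hA ⟨j, by omega⟩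
    refine Prod.ext ?_ ?_
    · funext i
      change ((u (k + 1 + (i : ℕ)) : ℤ) : ZMod 2) = ((u (l + 1 + (i : ℕ)) : ℤ) : ZMod 2)
      rcases Nat.lt_or_ge (i : ℕ) d with hi | hi
      · have := hA' ((i : ℕ) + 1) (by omega)
        have e1 : k + 1 + (i : ℕ) = k + ((i : ℕ) + 1) := by omega
        have e2 : l + 1 + (i : ℕ) = l + ((i : ℕ) + 1) := by omega
        rw [e1, e2]
        exact this
      · have hid : (i : ℕ) = d := by have := i.2; omega
        rw [hid, hrec' (k + 1) (by omega), hrec' (l + 1) (by omega)]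
        push_cast
        refine Finset.sum_congr rfl fun j _ => ?_
        have := hA' ((j : ℕ) + 1) (by have := j.2; omega)
        have e1 : k + 1 + (j : ℕ) = k + ((j : ℕ) + 1) := by omega
        have e2 : l + 1 + (j : ℕ) = l + ((j : ℕ) + 1) := by omega
        rw [e1, e2, this]
    · funext i
      change ((rs (k + 1) i : ℕ) : ZMod 2) = ((rs (l + 1) i : ℕ) : ZMod 2)
      rw [rs_succ, rs_succ]
      push_cast
      refine Finset.sum_congr rfl fun j _ => ?_
      rw [hB j]
  obtain ⟨j1, j2, hne, heq⟩ := Finite.exists_ne_map_eq_of_infinite (fun j => st (K + j))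
  have key : ∃ k1 P, K ≤ k1 ∧ 0 < P ∧ st k1 = st (k1 + P) := by
    rcases Nat.lt_or_gt_of_ne hne with h | h
    · refine ⟨K + j1, j2 - j1, by omega, by omega, ?_⟩
      have e : K + j1 + (j2 - j1) = K + j2 := by omega
      rw [e]; exact heq
    · refine ⟨K + j2, j1 - j2, by omega, by omega, ?_⟩
      have e : K + j2 + (j1 - j2) = K + j1 := by omega
      rw [e]; exact heq.symm
  obtain ⟨k1, P, hk1, hP, hper⟩ := key
  have hper' : ∀ j, st (k1 + j) = st (k1 + j + P) := by
    intro j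
    induction j with
    | zero => exact hper
    | succ j ih =>
      have := hst (k1 + j) (k1 + j + P) (by omega) (by omega) ih
      have e : k1 + (j + 1) + P = k1 + j + P + 1 := by omega
      rw [e]; exact this
  have hsign : ∀ k, 1 ≤ k → (D k < 0 ↔ ((u k : ℤ) : ZMod 2) = ((rs k 0 : ℕ) : ZMod 2)) := by
    intro k hk
    have hodd : D k % 2 = 1 := by
      obtain ⟨m, rfl⟩ : ∃ m, k = m + 1 := ⟨k - 1, by omega⟩
      exact D_odd m
    have hDk : D k = (rs k 0 : ℤ) - (rs k 1 : ℤ) := rfl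
    constructor
    · intro h
      have : u k = (rs k 0 : ℤ) := by
        simp only [hu]
        rw [min_eq_left (by omega)]
      rw [this]; simp
    · intro h
      by_contra hge
      have h1 : u k = (rs k 1 : ℤ) := by
        simp only [hu]
        rw [min_eq_right (by omega)]
      have h2 : ((D k : ℤ) : ZMod 2) = 0 := by
        rw [hDk, ← h1]; push_cast; rw [h]; simp
      rw [ZMod.intCast_zmod_eq_zero_iff_dvd] at h2
      omega
  have hsignper : ∀ j, 1 ≤ k1 + j → (D (k1 + j) < 0 ↔ D (k1 + j + P) < 0) := by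
    intro j hj
    rw [hsign _ hj, hsign _ (by omega)]
    have hA := congrFun (congrArg Prod.fst (hper' j)) 0
    have hB := congrFun (congrArg Prod.snd (hper' j)) 0
    change ((u (k1 + j + ((0 : Fin (d + 1)) : ℕ)) : ℤ) : ZMod 2) =
      ((u (k1 + j + P + ((0 : Fin (d + 1)) : ℕ)) : ℤ) : ZMod 2) at hA
    change ((rs (k1 + j) 0 : ℕ) : ZMod 2) = ((rs (k1 + j + P) 0 : ℕ) : ZMod 2) at hB
    simp only [Fin.val_zero, add_zero] at hA
    rw [hA, hB]
  have hD0 : ∀ k, 1 ≤ k → D k ≠ 0 := by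
    intro k hk h
    obtain ⟨m, rfl⟩ : ∃ m, k = m + 1 := ⟨k - 1, by omega⟩
    have := D_odd m
    omega
  have hall : ∀ j : ℕ, (D (k1 + 1) < 0 ↔ D (k1 + 1 + j * P) < 0) := by
    intro j
    induction j with
    | zero => simp
    | succ j ih =>
      rw [ih]
      have := hsignper (1 + j * P) (by omega)
      have e1 : k1 + (1 + j * P) = k1 + 1 + j * P := by omega
      have e2 : k1 + 1 + (j + 1) * P = k1 + 1 + j * P + P := by ring
      rw [e1] at this
      rw [e2]; exact this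
  have hrecE : ∀ j : ℕ, D (k1 + 1 + (j + 2) * P) =
      (2 * U (P + 1) + U P) * D (k1 + 1 + (j + 1) * P) - 2 ^ P * D (k1 + 1 + j * P) := by
    intro j
    have := step2 D D_rec P (k1 + 1 + j * P)
    have e1 : k1 + 1 + (j + 2) * P = k1 + 1 + j * P + P + P := by ring
    have e2 : k1 + 1 + (j + 1) * P = k1 + 1 + j * P + P := by ring
    rw [e1, e2]; exact this
  have hUP : U P ≠ 0 := by
    obtain ⟨m, rfl⟩ : ∃ m, P = m + 1 := ⟨P - 1, by omega⟩
    exact U_ne_zero m
  have hVN : ((2 * U (P + 1) + U P : ℤ) : ℝ) ^ 2 < 4 * ((2 ^ P : ℤ) : ℝ) := by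
    have h1 := U_norm P
    have h2 : 0 < U P ^ 2 := by positivity
    have h3 : (2 * U (P + 1) + U P) ^ 2 < 4 * 2 ^ P := by nlinarith
    exact_mod_cast h3
  by_cases hneg : D (k1 + 1) < 0
  · refine no_pos (fun j => -((D (k1 + 1 + j * P) : ℤ) : ℝ)) _ _ hVN ?_ ?_
    · intro j
      have := hrecE j
      have h' : ((D (k1 + 1 + (j + 2) * P) : ℤ) : ℝ) =
        (((2 * U (P + 1) + U P) * D (k1 + 1 + (j + 1) * P) - 2 ^ P * D (k1 + 1 + j * P) : ℤ) : ℝ) := by
        rw [this]
      rw [h']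
      push_cast
      ring
    · intro j
      have h := (hall j).1 hneg
      have h' : ((D (k1 + 1 + j * P) : ℤ) : ℝ) < 0 := by exact_mod_cast h
      linarith
  · refine no_pos (fun j => ((D (k1 + 1 + j * P) : ℤ) : ℝ)) _ _ hVN ?_ ?_
    · intro j
      have := hrecE j
      have h' : ((D (k1 + 1 + (j + 2) * P) : ℤ) : ℝ) =
        (((2 * U (P + 1) + U P) * D (k1 + 1 + (j + 1) * P) - 2 ^ P * D (k1 + 1 + j * P) : ℤ) : ℝ) := by
        rw [this]
      rw [h']
      push_cast
      ring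
    · intro j
      have h : ¬ D (k1 + 1 + j * P) < 0 := fun hh => hneg ((hall j).2 hh)
      have h0 := hD0 (k1 + 1 + j * P) (by omega)
      have h1 : 0 < D (k1 + 1 + j * P) := by omega
      exact_mod_cast h1

/-- The negation of the preceding statement: For every holomorphic germ f of ℂⁿ fixing 0 that is non-invertible and dominant, the orders of vanishing c(f^k) of its iterates at 0 eventually satisfy a linear recursion with integer coefficients. -/
theorem result :
    ¬ (∀ (n : ℕ) (f : (Fin n → ℂ) → (Fin n → ℂ)),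
      AnalyticAt ℂ f 0 → f 0 = 0 →
      (fderiv ℂ f 0).det = 0 →
      (∀ ε : ℝ, 0 < ε → ∃ z : Fin n → ℂ, ‖z‖ < ε ∧ (fderiv ℂ f z).det ≠ 0) →
      ∃ (d : ℕ) (a : Fin d → ℤ) (K : ℕ), ∀ k : ℕ, K ≤ k →
        ((sInf {m : ℕ | iteratedFDeriv ℂ m (f^[k + d]) 0 ≠ 0} : ℕ) : ℤ) =
          ∑ i : Fin d, a i *
            ((sInf {m : ℕ | iteratedFDeriv ℂ m (f^[k + (i : ℕ)]) 0 ≠ 0} : ℕ) : ℤ)) := by
  intro H
  obtain ⟨d, a, K, h⟩ := H 3 (mono A) (contDiff_mono A).contDiffAt.analyticAt
    (by rw [mono_A]; funext i; fin_cases i <;> simp)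
    (by rw [det_fderiv]; simp)
    (by
      intro ε hε
      refine ⟨fun _ => ((ε / 2 : ℝ) : ℂ), ?_, ?_⟩
      · rw [pi_norm_const, Complex.norm_real, Real.norm_eq_abs, abs_of_pos (by linarith)]
        linarith
      · rw [det_fderiv]
        have hne : ((ε / 2 : ℝ) : ℂ) ≠ 0 := by
          exact_mod_cast (by positivity : (ε / 2 : ℝ) ≠ 0)
        exact mul_ne_zero (mul_ne_zero (mul_ne_zero (by norm_num) hne) (pow_ne_zero 5 hne)) hne)
  refine no_recursion d a K fun k hk => ?_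
  have hk' := h k hk
  rw [order_iterate] at hk'
  rw [hk']
  refine Finset.sum_congr rfl fun i _ => ?_
  rw [order_iterate]

end Pool.Agent.S04138
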