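import Pool.Statements.S04140
-- import your own Pool.Agent.* helpers here

set_option autoImplicit false
open Pool Pool.MP_d50981_an

namespace Pool.Agent.S04140

open MeasureTheory Set

/-- There is a non-Borel set of reals, by counting. -/
theorem exists_nonBorel : ∃ V : Set ℝ, ¬ MeasurableSet V := by
  by_contra h
  push Not at h
  have hgen : MeasurableSpace.CountablyGenerated ℝ := inferInstance
  obtain ⟨b, hb, hbe⟩ := hgen.isCountablyGenerated
  have h1 : Cardinal.mk {s : Set ℝ | @MeasurableSet ℝ (MeasurableSpace.generateFrom b) s} ≤ Cardinal.continuum :=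
    MeasurableSpace.cardinal_measurableSet_le_continuum (hb.le_aleph0.trans Cardinal.aleph0_le_continuum)
  have h2 : {s : Set ℝ | @MeasurableSet ℝ (MeasurableSpace.generateFrom b) s} = Set.univ := by
    apply Set.eq_univ_of_forall
    intro s
    have := h s
    rw [← hbe]
    exact this
  rw [h2, Cardinal.mk_univ, Cardinal.mk_set, Cardinal.mk_real] at h1
  exact absurd h1 (not_le.mpr (Cardinal.cantor _))

variable (V : Set ℝ)

abbrev E1 := lp (fun _ : V => ℝ) 1

theorem summable_abs (a : E1 V) : Summable (fun t : V => ‖a t‖) := by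
  have := (lp.memℓp a).summable (p := 1) (by norm_num)
  simpa using this

theorem norm_eq_tsum (a : E1 V) : ‖a‖ = ∑' t : V, ‖a t‖ := by
  have := lp.norm_eq_tsum_rpow (p := 1) (by norm_num) a
  simpa using this

theorem summable_ind (a : E1 V) (q : ℚ) : Summable (fun t : V => if (t : ℝ) ≤ q then a t else 0) := by
  apply Summable.of_norm_bounded (summable_abs V a)
  intro t
  split_ifs
  · exact le_rfl
  · simp

noncomputable def coord (q : ℚ) : E1 V →L[ℝ] ℝ :=
  LinearMap.mkContinuous
    { toFun := fun a => ∑' t : V, if (t : ℝ) ≤ q then a t else 0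
      map_add' := by
        intro a b
        rw [← (summable_ind V a q).tsum_add (summable_ind V b q)]
        congr 1
        ext t
        split_ifs <;> simp
      map_smul' := by
        intro c a
        simp only [RingHom.id_apply, smul_eq_mul]
        rw [← tsum_mul_left]
        congr 1
        ext t
        split_ifs <;> simp } 1 (by
    intro a
    simp only [LinearMap.coe_mk, AddHom.coe_mk, one_mul]
    rw [norm_eq_tsum]
    have hs := summable_ind V a q
    calc ‖∑' t : V, (if (t : ℝ) ≤ q then a t else 0)‖
        ≤ ∑' t : V, ‖(if (t : ℝ) ≤ q then a t else 0)‖ := norm_tsum_le_tsum_norm hs.norm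
      _ ≤ ∑' t : V, ‖a t‖ := by
        apply Summable.tsum_le_tsum _ hs.norm (summable_abs V a)
        intro t
        split_ifs
        · exact le_rfl
        · simp)

theorem coord_apply (q : ℚ) (a : E1 V) : coord V q a = ∑' t : V, if (t : ℝ) ≤ q then a t else 0 := rfl

noncomputable def U : E1 V →L[ℝ] (ℚ → ℝ) := ContinuousLinearMap.pi (coord V)

noncomputable def v (t : ℝ) : ℚ → ℝ := fun q => if t ≤ q then 1 else 0

theorem measurable_v : Measurable v := by
  apply measurable_pi_lambda
  intro q
  exact Measurable.ite measurableSet_Iic measurable_const measurable_const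

theorem preimage_range : v ⁻¹' (Set.range (U V)) = V := by
  ext s
  constructor
  · rintro ⟨a, ha⟩
    by_contra hs
    -- choose a finite set carrying most of the mass
    have hsum := summable_abs V a
    obtain ⟨F, hF⟩ : ∃ F : Finset V, ∀ G : Finset V, Disjoint G F → ‖∑ t ∈ G, ‖a t‖‖ < 1/2 :=
      summable_iff_vanishing_norm.mp hsum (1/2) (by norm_num)
    -- positive distance
    have hpos : ∃ δ > 0, ∀ t ∈ F, δ ≤ |(t : ℝ) - s| := by
      rcases F.eq_empty_or_nonempty with h | h
      · exact ⟨1, one_pos, by simp [h]⟩
      · obtain ⟨t0, ht0, hm⟩ := F.exists_min_image (fun t => |(t : ℝ) - s|) h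
        refine ⟨|(t0 : ℝ) - s|, ?_, hm⟩
        apply abs_pos.mpr; rw [sub_ne_zero]
        rintro rfl
        exact hs t0.2
    obtain ⟨δ, hδ, hFδ⟩ := hpos
    obtain ⟨q1, hq1, hq1'⟩ := exists_rat_btwn (show s - δ < s by linarith)
    obtain ⟨q2, hq2, hq2'⟩ := exists_rat_btwn (show s < s + δ by linarith)
    have e1 : coord V q1 a = 0 := by
      have := congrFun ha q1
      simp only [U, ContinuousLinearMap.coe_pi', v] at this
      rw [this, if_neg (not_le.mpr hq1')]
    have e2 : coord V q2 a = 1 := by
      have := congrFun ha q2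
      simp only [U, ContinuousLinearMap.coe_pi', v] at this
      rw [this, if_pos hq2.le]
    have e3 : coord V q2 a - coord V q1 a
        = ∑' t : V, (if (q1 : ℝ) < t ∧ (t : ℝ) ≤ q2 then a t else 0) := by
      rw [coord_apply, coord_apply, ← (summable_ind V a q2).tsum_sub (summable_ind V a q1)]
      congr 1
      ext t
      have : (q1 : ℝ) < q2 := by linarith
      by_cases h1 : (t : ℝ) ≤ q1
      · have h2 : (t : ℝ) ≤ q2 := by linarith
        simp [h1, h2, not_lt.mpr h1]
      · have h1' := not_le.mp h1
        by_cases h2 : (t : ℝ) ≤ q2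
        · simp [h1, h2, h1']
        · simp [h1, h2]
    have e4 : Summable (fun t : V => ‖(if (q1 : ℝ) < t ∧ (t : ℝ) ≤ q2 then a t else 0)‖) := by
      apply Summable.of_nonneg_of_le (fun _ => norm_nonneg _) _ hsum
      intro t
      split_ifs
      · exact le_rfl
      · simp
    have e5 : ‖∑' t : V, (if (q1 : ℝ) < t ∧ (t : ℝ) ≤ q2 then a t else 0)‖ ≤ 1/2 := by
      refine (norm_tsum_le_tsum_norm e4).trans ?_
      apply e4.tsum_le_of_sum_le
      intro G
      classical
      have : ∑ t ∈ G, ‖(if (q1 : ℝ) < t ∧ (t : ℝ) ≤ q2 then a t else 0)‖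
          ≤ ∑ t ∈ G \ F, ‖a t‖ := by
        rw [← Finset.sum_sdiff (Finset.inter_subset_left : G ∩ F ⊆ G)]
        have hz : ∑ t ∈ G ∩ F, ‖(if (q1 : ℝ) < t ∧ (t : ℝ) ≤ q2 then a t else 0)‖ = 0 := by
          apply Finset.sum_eq_zero
          intro t ht
          have htF : t ∈ F := (Finset.mem_inter.mp ht).2
          have hd := hFδ t htF
          rw [if_neg, norm_zero]
          rintro ⟨h1, h2⟩
          have : |(t : ℝ) - s| < δ := by
            rw [abs_lt]
            constructor <;> linarith
          linarith
        rw [hz, add_zero, Finset.sdiff_inter_self_left]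
        apply Finset.sum_le_sum
        intro t _
        split_ifs
        · exact le_rfl
        · simp
      refine this.trans ?_
      have h3 := hF (G \ F) Finset.sdiff_disjoint
      exact ((le_abs_self _).trans h3.le)
    rw [← e3, e1, e2] at e5
    norm_num at e5
  · intro hs
    refine ⟨lp.single 1 (⟨s, hs⟩ : V) (1 : ℝ), ?_⟩
    ext q
    simp only [U, ContinuousLinearMap.coe_pi', v, coord_apply]
    rw [tsum_eq_single (⟨s, hs⟩ : V)]
    · rw [lp.single_apply_self]
    · intro t ht
      rw [lp.single_apply_ne _ _ _ ht, ite_self]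

/-- The negation of the preceding statement: For any two real F-spaces E, E₁ (complete metrizable topological vector spaces, not necessarily separable) and any continuous linear map U from E to E₁, the range of U is a Borel subset of E₁. -/
theorem result :
    ¬ (∀ (E E₁ : Type) [AddCommGroup E] [Module ℝ E] [UniformSpace E] [IsUniformAddGroup E]
      [ContinuousSMul ℝ E] [CompleteSpace E] [T2Space E] [(uniformity E).IsCountablyGenerated]
      [AddCommGroup E₁] [Module ℝ E₁] [UniformSpace E₁] [IsUniformAddGroup E₁]
      [ContinuousSMul ℝ E₁] [CompleteSpace E₁] [T2Space E₁] [(uniformity E₁).IsCountablyGenerated]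
      (U : E →L[ℝ] E₁), @MeasurableSet E₁ (borel E₁) (Set.range U)) := by
  intro H
  obtain ⟨V, hV⟩ := exists_nonBorel
  apply hV
  have h := H (E1 V) (ℚ → ℝ) (U V)
  rw [← BorelSpace.measurable_eq] at h
  have h2 := measurable_v h
  rwa [preimage_range] at h2

end Pool.Agent.S04140
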