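import Pool.Statements.S04143
import Pool.Agent.Helper362.ApC
import Pool.Agent.Helper362.ApF

set_option autoImplicit false
open scoped ENNReal Topology
open Pool Pool.MP_d55789_an

namespace Pool.Agent.S04143

open Pool.Agent.Helper362.ApNoBap Filter

/-- the matrix relabelled by natural numbers -/
noncomputable def A' (m n : ℕ) : ℝ := A (eG.symm m) (eG.symm n)

noncomputable def r' (m : ℕ) : ℝ := r (eG.symm m)

lemma summable_r' : Summable r' := (Equiv.summable_iff eG.symm).mpr summable_r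

lemma r'_nonneg (g : ℕ) : 0 ≤ r' g := (abs_nonneg _).trans (A_bound (eG.symm g) (eG.symm g))

noncomputable def epsL (l : ℕ) : ℝ := 1 / (4 * (l + 1) * (∑' g, r' g + 1))

lemma tsum_nonneg' : 0 ≤ ∑' g, r' g := tsum_nonneg r'_nonneg

lemma epsL_pos (l : ℕ) : 0 < epsL l := by
  unfold epsL
  have := tsum_nonneg'
  positivity

lemma epsL_le (l : ℕ) : epsL l ≤ 1 := by
  unfold epsL
  have := tsum_nonneg'
  have hl : (0 : ℝ) ≤ l := Nat.cast_nonneg l
  rw [div_le_one (by positivity)]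
  nlinarith [mul_nonneg hl this]

lemma exists_M (l : ℕ) : ∃ M : ℕ, ((l + 1 : ℝ) / epsL l + 1) * (∑' g, r' (g + M)) ≤ 1 / 4 := by
  have ht : Tendsto (fun M : ℕ => ((l + 1 : ℝ) / epsL l + 1) * (∑' g, r' (g + M))) atTop (𝓝 0) := by
    simpa using (tendsto_sum_nat_add r').const_mul ((l + 1 : ℝ) / epsL l + 1)
  obtain ⟨M, hM⟩ := eventually_atTop.mp (ht.eventually_le_const (show (0 : ℝ) < 1 / 4 by norm_num))
  exact ⟨M, hM M le_rfl⟩

noncomputable def ML (l : ℕ) : ℕ := Classical.choose (exists_M l)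

noncomputable def D : Data where
  A := A'
  r := r'
  e := (Denumerable.eqv (ℕ × ℕ × ℕ)).symm
  w := fun l g => if g < ML l then 1 else epsL l
  eps := epsL
  hr := summable_r'
  hA := fun g h => A_bound _ _
  hA0 := fun g => (tendsto_A (eG.symm g)).comp eG.symm.injective.tendsto_cofinite
  hsq := fun g h => by
    have h1 := (Equiv.hasSum_iff eG.symm).mpr (hasSum_sq (eG.symm g) (eG.symm h))
    exact h1.tsum_eq
  htr := by
    have h1 := (Equiv.hasSum_iff eG.symm).mpr hasSum_trace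
    exact h1.tsum_eq
  heps := epsL_pos
  heps1 := epsL_le
  hw := fun l g => by split_ifs <;> [exact epsL_le l; exact le_rfl]
  hw1 := fun l g => by split_ifs <;> [exact le_rfl; exact epsL_le l]

/-- There is a closed subspace of real c₀ (sequences tending to 0, sup norm) where every compact set is uniformly ε-approximated by finite-rank operators, yet no uniform bound on their norms works for all compact sets and ε. -/
theorem result :
    ∃ S : Submodule ℝ (lp (fun _ : ℕ => ℝ) ∞),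
      IsClosed (S : Set (lp (fun _ : ℕ => ℝ) ∞)) ∧
      (∀ x ∈ S, Filter.Tendsto (fun n : ℕ => x n) Filter.atTop (𝓝 0)) ∧
      (∀ K : Set S, IsCompact K → ∀ ε : ℝ, 0 < ε →
        ∃ T : S →L[ℝ] S, FiniteDimensional ℝ (LinearMap.range (T : S →ₗ[ℝ] S)) ∧
          ∀ x ∈ K, ‖T x - x‖ ≤ ε) ∧
      ¬ ∃ C : ℝ, ∀ K : Set S, IsCompact K → ∀ ε : ℝ, 0 < ε →
        ∃ T : S →L[ℝ] S, FiniteDimensional ℝ (LinearMap.range (T : S →ₗ[ℝ] S)) ∧
          ‖T‖ ≤ C ∧ ∀ x ∈ K, ‖T x - x‖ ≤ ε := by
  refine ⟨D.S, D.S_closed, ?_, D.AP, D.not_BAP ?_ ?_⟩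
  · intro x hx
    have h1 := D.S_c0 x hx
    rw [Nat.cofinite_eq_atTop] at h1
    exact h1
  · intro l
    refine ⟨ML l, fun g hg => if_pos hg, ?_⟩
    exact Classical.choose_spec (exists_M l)
  · intro l
    show (l + 1 : ℝ) * epsL l * ∑' g, r' g ≤ 1 / 4
    have h0 := tsum_nonneg'
    have hl : (0 : ℝ) ≤ l := Nat.cast_nonneg l
    have h1 : (l + 1 : ℝ) * epsL l * ∑' g, r' g = (∑' g, r' g) / (4 * (∑' g, r' g + 1)) := by
      unfold epsL
      have h2 : ∑' g, r' g + 1 ≠ 0 := by linarith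
      have h3 : (l + 1 : ℝ) ≠ 0 := by linarith
      field_simp
    rw [h1, div_le_div_iff₀ (by positivity) (by norm_num)]
    linarith

end Pool.Agent.S04143
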