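import Pool.Statements.S04150
import Pool.Agent.Helper405.Fin

set_option autoImplicit false
open Pool Pool.MP_d610ab_an

namespace Pool.Agent.S04150

/-- The negation of the preceding statement: For all f, F_n holomorphic and injective on ∣z∣>1 with f(z)-z bounded for ∣z∣>2 (i.e. class Σ), uniform weighted convergence (∣z∣^2-1)^2∣S_{F_n}-S_f∣→0 on ∣z∣>1 implies (∣z∣^2-1)∣F_n''/F_n' - f''/f'∣→0 uniformly on ∣z∣>1. -/
theorem result :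
    ¬ (∀ (f : ℂ → ℂ) (F : ℕ → ℂ → ℂ),
      (DifferentiableOn ℂ f {z : ℂ | 1 < ‖z‖} ∧ Set.InjOn f {z : ℂ | 1 < ‖z‖} ∧
        ∃ C : ℝ, ∀ z : ℂ, 2 < ‖z‖ → ‖f z - z‖ ≤ C) →
      (∀ n : ℕ, DifferentiableOn ℂ (F n) {z : ℂ | 1 < ‖z‖} ∧
        Set.InjOn (F n) {z : ℂ | 1 < ‖z‖} ∧
        ∃ C : ℝ, ∀ z : ℂ, 2 < ‖z‖ → ‖F n z - z‖ ≤ C) →
      (∀ ε : ℝ, 0 < ε → ∃ N : ℕ, ∀ n : ℕ, N ≤ n → ∀ z : ℂ, 1 < ‖z‖ →
        (‖z‖ ^ 2 - 1) ^ 2 *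
          ‖(deriv (fun w => deriv (deriv (F n)) w / deriv (F n) w) z
              - (1 / 2 : ℂ) * (deriv (deriv (F n)) z / deriv (F n) z) ^ 2)
            - (deriv (fun w => deriv (deriv f) w / deriv f w) z
              - (1 / 2 : ℂ) * (deriv (deriv f) z / deriv f z) ^ 2)‖ ≤ ε) →
      (∀ ε : ℝ, 0 < ε → ∃ N : ℕ, ∀ n : ℕ, N ≤ n → ∀ z : ℂ, 1 < ‖z‖ →
        (‖z‖ ^ 2 - 1) *
          ‖deriv (deriv (F n)) z / deriv (F n) z - deriv (deriv f) z / deriv f z‖ ≤ ε)) := by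
  intro H
  obtain ⟨f, F, hf, hF, hS, hP⟩ := Pool.Agent.Helper405.Fin.main
  obtain ⟨N, hN⟩ := H f F hf hF (by
    intro ε hε
    obtain ⟨N, hN⟩ := exists_pow_lt_of_lt_one hε (by norm_num : (1 / 2 : ℝ) < 1)
    refine ⟨N, fun n hn z hz => (hS n z hz).trans ?_⟩
    have h1 : Pool.Agent.Helper405.Geo.tt n ≤ (1 / 2) ^ n / 1024 := by
      unfold Pool.Agent.Helper405.Geo.tt
      rw [pow_add]
      have : ((1 : ℝ) / 2) ^ 10 = 1 / 1024 := by norm_num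
      rw [this]
      linarith [le_refl ((1 : ℝ) / 2 ^ n)]
    have h2 := Pool.Agent.Helper405.Geo.tt_le n
    have h3 := Pool.Agent.Helper405.Geo.tt_pos n
    have h4 : ((1 : ℝ) / 2) ^ n ≤ (1 / 2) ^ N := pow_le_pow_of_le_one (by norm_num) (by norm_num) hn
    nlinarith) (1 / 200) (by norm_num)
  obtain ⟨z, hz, hz2⟩ := hP N
  exact absurd (hN N le_rfl z hz) (not_le.2 hz2)

end Pool.Agent.S04150
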