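import Pool.Statements.S04161
import Pool.Agent.H312Bourgin

set_option autoImplicit false
open Pool Pool.MP_d71b46_an

namespace Pool.Agent.S04161

/-- There is a real Banach space with a nonempty closed bounded convex set K that is not dentable (some ε works for every point), while the set of continuous linear functionals attaining their maximum on K is not meagre in the dual. -/
theorem result :
    ∃ (X : Type) (_ : NormedAddCommGroup X) (_ : NormedSpace ℝ X) (_ : CompleteSpace X)
      (K : Set X),
      IsClosed K ∧ Bornology.IsBounded K ∧ Convex ℝ K ∧ K.Nonempty ∧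
      (∃ ε > 0, ∀ x ∈ K, x ∈ closure (convexHull ℝ (K \ Metric.ball x ε))) ∧
      ¬ IsMeagre {f : X →L[ℝ] ℝ | ∃ x ∈ K, ∀ y ∈ K, f y ≤ f x} := by
  refine ⟨Pool.Agent.H312Bourgin.Xb, inferInstance, inferInstance, inferInstance,
    Pool.Agent.H312Bourgin.K, Pool.Agent.H312Bourgin.K_closed, Pool.Agent.H312Bourgin.K_bounded,
    Pool.Agent.H312Bourgin.K_convex,
    ⟨_, Pool.Agent.H312Bourgin.x_mem_K ⟨∅, Set.countable_empty⟩⟩,
    ⟨1/2, by norm_num, Pool.Agent.H312Bourgin.not_dentable⟩, Pool.Agent.H312Bourgin.not_meagre⟩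

end Pool.Agent.S04161
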