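import Pool.Statements.S04164

set_option autoImplicit false
universe u v
open Pool Pool.MP_d73b51_an

namespace Pool.Agent.S04164

open Filter Topology Set
open scoped BoundedContinuousFunction OnePoint

/-- the domain: convergent sequences -/
abbrev X0 := C(OnePoint ℕ, ℝ)

/-- the codomain: bounded sequences -/
abbrev Y0 := ℕ →ᵇ ℝ

/-- the functionals -/
noncomputable def phi (z : X0) (j : ℕ) : ℝ :=
  z ((2 * (Nat.unpair j).1 : ℕ) : OnePoint ℕ) +
    (((Nat.unpair j).1 : ℝ) + 1) * (z ((2 * j + 1 : ℕ) : OnePoint ℕ) - z ∞)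

lemma phi_add (z w : X0) (j : ℕ) : phi (z + w) j = phi z j + phi w j := by
  simp only [phi, ContinuousMap.add_apply]
  ring

lemma phi_smul (c : ℝ) (z : X0) (j : ℕ) : phi (c • z) j = c * phi z j := by
  simp only [phi, ContinuousMap.smul_apply, smul_eq_mul]
  ring

lemma phi_bound (z : X0) (j : ℕ) : ‖phi z j / ((j : ℝ) + 1)‖ ≤ 3 * ‖z‖ := by
  have h1 := z.norm_coe_le_norm ((2 * (Nat.unpair j).1 : ℕ) : OnePoint ℕ)
  have h2 := z.norm_coe_le_norm ((2 * j + 1 : ℕ) : OnePoint ℕ)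
  have h3 := z.norm_coe_le_norm ∞
  have hn : ((Nat.unpair j).1 : ℝ) ≤ j := by exact_mod_cast Nat.unpair_left_le j
  have hj : (0 : ℝ) ≤ j := by positivity
  have hn0 : (0 : ℝ) ≤ ((Nat.unpair j).1 : ℝ) := by positivity
  have hz : 0 ≤ ‖z‖ := norm_nonneg _
  rw [norm_div, Real.norm_of_nonneg (by positivity : (0 : ℝ) ≤ (j : ℝ) + 1),
    div_le_iff₀ (by positivity)]
  have h4 : ‖phi z j‖ ≤ ‖z‖ + (((Nat.unpair j).1 : ℝ) + 1) * (‖z‖ + ‖z‖) := by
    unfold phi
    refine (norm_add_le _ _).trans ?_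
    refine add_le_add h1 ?_
    rw [norm_mul, Real.norm_of_nonneg (by positivity : (0 : ℝ) ≤ ((Nat.unpair j).1 : ℝ) + 1)]
    apply mul_le_mul_of_nonneg_left _ (by positivity)
    exact (norm_sub_le _ _).trans (add_le_add h2 h3)
  refine h4.trans ?_
  nlinarith

/-- the operator as a linear map -/
noncomputable def A0lin : X0 →ₗ[ℝ] Y0 where
  toFun z := BoundedContinuousFunction.ofNormedAddCommGroupDiscrete
    (fun j => phi z j / ((j : ℝ) + 1)) (3 * ‖z‖) (phi_bound z)
  map_add' z w := by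
    ext j
    simp only [BoundedContinuousFunction.coe_ofNormedAddCommGroupDiscrete,
      BoundedContinuousFunction.coe_add, Pi.add_apply, phi_add]
    ring
  map_smul' c z := by
    ext j
    simp only [BoundedContinuousFunction.coe_ofNormedAddCommGroupDiscrete,
      BoundedContinuousFunction.coe_smul, phi_smul, RingHom.id_apply, smul_eq_mul]
    ring

/-- the operator -/
noncomputable def A0 : X0 →L[ℝ] Y0 :=
  A0lin.mkContinuous 3 (by
    intro z
    rw [BoundedContinuousFunction.norm_le (by positivity)]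
    intro j
    exact phi_bound z j)

lemma A0_apply (z : X0) (j : ℕ) : A0 z j = phi z j / ((j : ℝ) + 1) := rfl

lemma tendsto_coe (z : X0) : Tendsto (fun i : ℕ => z (i : OnePoint ℕ)) atTop (𝓝 (z ∞)) :=
  (OnePoint.continuous_iff_from_nat _).mp z.continuous

lemma A0_injective : Function.Injective A0 := by
  rw [injective_iff_map_eq_zero]
  intro z hz
  have hphi : ∀ j, phi z j = 0 := by
    intro j
    have h := DFunLike.congr_fun hz j
    rw [A0_apply] at h
    simp only [BoundedContinuousFunction.coe_zero, Pi.zero_apply] at h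
    have hj : ((j : ℝ) + 1) ≠ 0 := by positivity
    rcases div_eq_zero_iff.mp h with h | h
    · exact h
    · exact absurd h hj
  have heven : ∀ n : ℕ, z ((2 * n : ℕ) : OnePoint ℕ) = 0 := by
    intro n
    have h1 : Tendsto (fun k : ℕ => 2 * Nat.pair n k + 1) atTop atTop := by
      apply tendsto_atTop_mono (f := fun k : ℕ => k) _ tendsto_id
      intro k
      have := Nat.right_le_pair n k
      omega
    have h2 := (tendsto_coe z).comp h1
    have h3 : Tendsto (fun k : ℕ => z ((2 * n : ℕ) : OnePoint ℕ) + ((n : ℝ) + 1) *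
        (z ((2 * Nat.pair n k + 1 : ℕ) : OnePoint ℕ) - z ∞)) atTop
        (𝓝 (z ((2 * n : ℕ) : OnePoint ℕ) + ((n : ℝ) + 1) * (z ∞ - z ∞))) := by
      exact ((h2.sub_const _).const_mul _).const_add _
    have h4 : (fun k : ℕ => z ((2 * n : ℕ) : OnePoint ℕ) + ((n : ℝ) + 1) *
        (z ((2 * Nat.pair n k + 1 : ℕ) : OnePoint ℕ) - z ∞)) = fun _ => 0 := by
      funext k
      have := hphi (Nat.pair n k)
      unfold phi at this
      rw [Nat.unpair_pair] at this
      exact this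
    rw [h4] at h3
    have h5 := tendsto_nhds_unique h3 tendsto_const_nhds
    simpa using h5
  have hinf : z ∞ = 0 := by
    have h1 : Tendsto (fun k : ℕ => 2 * k) atTop atTop := by
      apply tendsto_atTop_mono (f := fun k : ℕ => k) _ tendsto_id
      intro k
      show k ≤ 2 * k
      omega
    have h2 := (tendsto_coe z).comp h1
    have h4 : ((fun i : ℕ => z (i : OnePoint ℕ)) ∘ fun k : ℕ => 2 * k) = fun _ => (0 : ℝ) := by
      funext k
      exact heven k
    rw [h4] at h2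
    exact tendsto_nhds_unique h2 tendsto_const_nhds
  ext x
  induction x using OnePoint.rec with
  | infty => simpa using hinf
  | coe i =>
    rcases Nat.even_or_odd' i with ⟨k, hk | hk⟩
    · rw [hk]
      simpa using heven k
    · have h := hphi k
      unfold phi at h
      rw [heven, hinf] at h
      have hne : (((Nat.unpair k).1 : ℝ) + 1) ≠ 0 := by positivity
      rw [hk]
      have : z ((2 * k + 1 : ℕ) : OnePoint ℕ) = 0 := by
        simpa [hne] using h
      simpa using this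

open Classical in
/-- finite approximations -/
noncomputable def yk (ω : ℕ → Bool) (n k : ℕ) : ℝ :=
  if ∀ j, n < j → j ≤ k → ω j = false then 1 else 0

open Classical in
noncomputable def yn (ω : ℕ → Bool) (n : ℕ) : ℝ :=
  if ∀ j, n < j → ω j = false then 1 else 0

open Classical in
noncomputable def yi (ω : ℕ → Bool) : ℝ :=
  if ∃ n, ∀ j, n < j → ω j = false then 1 else 0

lemma yk_eventually (ω : ℕ → Bool) (n : ℕ) : ∃ K, ∀ k, K ≤ k → yk ω n k = yn ω n := by
  classical
  by_cases h : ∀ j, n < j → ω j = false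
  · refine ⟨0, fun k _ => ?_⟩
    unfold yk yn
    rw [if_pos h, if_pos (fun j hj _ => h j hj)]
  · have h' := h
    push Not at h'
    obtain ⟨j, hj, hω⟩ := h'
    refine ⟨j, fun k hk => ?_⟩
    unfold yk yn
    rw [if_neg h, if_neg]
    intro hh
    exact hω (hh j hj hk)

lemma yn_eventually (ω : ℕ → Bool) : ∃ N, ∀ n, N ≤ n → yn ω n = yi ω := by
  classical
  by_cases h : ∃ n, ∀ j, n < j → ω j = false
  · obtain ⟨n, hn⟩ := h
    refine ⟨n, fun k hk => ?_⟩
    unfold yn yi
    have h1 : ∀ j, k < j → ω j = false := fun j hj => hn j (by omega)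
    rw [if_pos h1, if_pos ⟨n, hn⟩]
  · refine ⟨0, fun k _ => ?_⟩
    unfold yn yi
    rw [if_neg h, if_neg]
    intro hh
    exact h ⟨k, hh⟩

lemma yk_mem (ω : ℕ → Bool) (n k : ℕ) : 0 ≤ yk ω n k ∧ yk ω n k ≤ 1 := by
  unfold yk
  split_ifs <;> norm_num

lemma yn_mem (ω : ℕ → Bool) (n : ℕ) : 0 ≤ yn ω n ∧ yn ω n ≤ 1 := by
  unfold yn
  split_ifs <;> norm_num

/-- the sequence -/
noncomputable def sq (ω : ℕ → Bool) (i : ℕ) : ℝ :=
  if i % 2 = 0 then yn ω (i / 2) else
    yi ω + (yk ω (Nat.unpair (i / 2)).1 (Nat.unpair (i / 2)).2 - yn ω (Nat.unpair (i / 2)).1) /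
      (((Nat.unpair (i / 2)).1 : ℝ) + 1)

lemma sq_tendsto (ω : ℕ → Bool) : Tendsto (sq ω) atTop (𝓝 (yi ω)) := by
  rw [Metric.tendsto_atTop]
  intro ε hε
  obtain ⟨N1, hN1⟩ := yn_eventually ω
  obtain ⟨N2, hN2⟩ := exists_nat_one_div_lt hε
  choose K hK using yk_eventually ω
  -- common bound
  obtain ⟨L, hL⟩ : ∃ L, ∀ n, n < N2 → K n ≤ L :=
    ⟨(Finset.range N2).sup K, fun n hn => Finset.le_sup (f := K) (Finset.mem_range.mpr hn)⟩
  refine ⟨2 * N1 + 2 * Nat.pair N2 L + 2, fun i hi => ?_⟩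
  rw [Real.dist_eq]
  unfold sq
  split_ifs with h
  · rw [hN1 (i / 2) (by omega)]
    simpa using hε
  · set j := i / 2 with hj
    have hj2 : Nat.pair N2 L < j := by omega
    rw [add_sub_cancel_left, abs_div,
      abs_of_pos (by positivity : (0 : ℝ) < ((Nat.unpair j).1 : ℝ) + 1)]
    rcases Nat.lt_or_ge (Nat.unpair j).1 N2 with h1 | h1
    · have h2 : L ≤ (Nat.unpair j).2 := by
        by_contra hcon
        push Not at hcon
        have h3 : Nat.pair (Nat.unpair j).1 (Nat.unpair j).2 < Nat.pair N2 L :=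
          (Nat.pair_lt_pair_left _ h1).trans (Nat.pair_lt_pair_right _ hcon)
        rw [Nat.pair_unpair] at h3
        omega
      rw [hK _ _ ((hL _ h1).trans h2)]
      simpa using hε
    · have h2 : |yk ω (Nat.unpair j).1 (Nat.unpair j).2 - yn ω (Nat.unpair j).1| ≤ 1 := by
        have a := yk_mem ω (Nat.unpair j).1 (Nat.unpair j).2
        have b := yn_mem ω (Nat.unpair j).1
        rw [abs_le]
        constructor <;> linarith [a.1, a.2, b.1, b.2]
      refine lt_of_le_of_lt ?_ hN2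
      have h3 : ((N2 : ℝ) + 1) ≤ ((Nat.unpair j).1 : ℝ) + 1 := by
        have : (N2 : ℝ) ≤ ((Nat.unpair j).1 : ℝ) := by exact_mod_cast h1
        linarith
      gcongr

/-- the element of the domain -/
noncomputable def xw (ω : ℕ → Bool) : X0 := OnePoint.continuousMapMkNat (sq ω) (yi ω) (sq_tendsto ω)

lemma xw_infty (ω : ℕ → Bool) : xw ω ∞ = yi ω := rfl

lemma xw_coe (ω : ℕ → Bool) (i : ℕ) : xw ω (i : OnePoint ℕ) = sq ω i := rfl

lemma phi_xw (ω : ℕ → Bool) (j : ℕ) :
    phi (xw ω) j = yk ω (Nat.unpair j).1 (Nat.unpair j).2 := by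
  unfold phi
  rw [xw_infty, xw_coe, xw_coe]
  have e1 : sq ω (2 * (Nat.unpair j).1) = yn ω (Nat.unpair j).1 := by
    unfold sq
    rw [if_pos (by omega)]
    congr 1
    omega
  have e2 : sq ω (2 * j + 1) = yi ω + (yk ω (Nat.unpair j).1 (Nat.unpair j).2 -
      yn ω (Nat.unpair j).1) / (((Nat.unpair j).1 : ℝ) + 1) := by
    unfold sq
    rw [if_neg (by omega)]
    have : (2 * j + 1) / 2 = j := by omega
    rw [this]
  rw [e1, e2]
  have hne : (((Nat.unpair j).1 : ℝ) + 1) ≠ 0 := by positivity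
  field_simp
  ring

/-- two sequences agreeing up to `M` have close images -/
lemma A0_close (ω ω' : ℕ → Bool) (M : ℕ) (h : ∀ j, j ≤ M → ω j = ω' j) :
    ‖A0 (xw ω) - A0 (xw ω')‖ ≤ 1 / ((M : ℝ) + 1) := by
  rw [BoundedContinuousFunction.norm_le (by positivity)]
  intro j
  rw [BoundedContinuousFunction.coe_sub, Pi.sub_apply, A0_apply, A0_apply, phi_xw, phi_xw]
  rcases Nat.lt_or_ge M (Nat.unpair j).2 with hk | hk
  · have hj : M ≤ j := by
      have := Nat.unpair_right_le j
      omega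
    rw [← sub_div, norm_div, Real.norm_of_nonneg (by positivity : (0 : ℝ) ≤ (j : ℝ) + 1)]
    have h2 : ‖yk ω (Nat.unpair j).1 (Nat.unpair j).2 -
        yk ω' (Nat.unpair j).1 (Nat.unpair j).2‖ ≤ 1 := by
      have a := yk_mem ω (Nat.unpair j).1 (Nat.unpair j).2
      have b := yk_mem ω' (Nat.unpair j).1 (Nat.unpair j).2
      rw [Real.norm_eq_abs, abs_le]
      constructor <;> linarith [a.1, a.2, b.1, b.2]
    have h3 : ((M : ℝ) + 1) ≤ (j : ℝ) + 1 := by
      have : (M : ℝ) ≤ j := by exact_mod_cast hj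
      linarith
    gcongr
  · have h2 : yk ω (Nat.unpair j).1 (Nat.unpair j).2 = yk ω' (Nat.unpair j).1 (Nat.unpair j).2 := by
      unfold yk
      have : (∀ i, (Nat.unpair j).1 < i → i ≤ (Nat.unpair j).2 → ω i = false) ↔
          (∀ i, (Nat.unpair j).1 < i → i ≤ (Nat.unpair j).2 → ω' i = false) := by
        constructor
        · intro hh i hi hi2
          rw [← h i (by omega)]
          exact hh i hi hi2
        · intro hh i hi hi2
          rw [h i (by omega)]
          exact hh i hi hi2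
      by_cases hP : ∀ i, (Nat.unpair j).1 < i → i ≤ (Nat.unpair j).2 → ω i = false
      · rw [if_pos hP, if_pos (this.mp hP)]
      · rw [if_neg hP, if_neg (fun hh => hP (this.mpr hh))]
    rw [h2, sub_self, norm_zero]
    positivity

lemma yi_le_norm (ω ω' : ℕ → Bool) : |yi ω - yi ω'| ≤ ‖xw ω - xw ω'‖ := by
  have := (xw ω - xw ω').norm_coe_le_norm ∞
  rw [ContinuousMap.sub_apply, xw_infty, xw_infty] at this
  exact this

/-- main point: no regularization of `A0` -/
lemma not_reg (T : ℝ → Y0 → X0) (hT : ∀ f : X0, ∀ ε : ℝ, 0 < ε → ∃ δ : ℝ, 0 < δ ∧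
        ∀ α : ℝ, 0 < α → α ≤ 1 → α < δ → ∀ g : Y0, ‖g - A0 f‖ ≤ α → ‖f - T α g‖ ≤ ε) : False := by
  classical
  let C : ℕ → Set (ℕ → Bool) := fun m => {ω | ∀ α : ℝ, 0 < α → α ≤ 1 / ((m : ℝ) + 1) →
    ∀ g : Y0, ‖g - A0 (xw ω)‖ ≤ α → ‖xw ω - T α g‖ ≤ 1 / 4}
  have hCmono : ∀ m m', m ≤ m' → C m ⊆ C m' := by
    intro m m' h ω hω α hα hαm g hg
    refine hω α hα (hαm.trans ?_) g hg
    have : (m : ℝ) ≤ m' := by exact_mod_cast h
    gcongr
  have hCcov : ∀ ω, ∃ m, ω ∈ C m := by
    intro ω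
    obtain ⟨δ, hδ, h⟩ := hT (xw ω) (1 / 4) (by norm_num)
    obtain ⟨m, hm⟩ := exists_nat_one_div_lt hδ
    refine ⟨m, fun α hα hαm g hg => h α hα ?_ (lt_of_le_of_lt hαm hm) g hg⟩
    refine hαm.trans ?_
    rw [div_le_one (by positivity)]
    have : (0 : ℝ) ≤ m := by positivity
    linarith
  have hconst : ∀ m ω ω', ω ∈ C m → ω' ∈ C m → (∀ j, j ≤ m → ω j = ω' j) → yi ω = yi ω' := by
    intro m ω ω' hω hω' hag
    have hpos : (0 : ℝ) < 1 / ((m : ℝ) + 1) := by positivity
    have h1 := hω _ hpos le_rfl (A0 (xw ω)) (by rw [sub_self, norm_zero]; exact hpos.le)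
    have h2 := hω' _ hpos le_rfl (A0 (xw ω)) (A0_close ω ω' m hag)
    have h3 : ‖xw ω - xw ω'‖ ≤ 1 / 2 := by
      have : xw ω - xw ω' = (xw ω - T (1 / ((m : ℝ) + 1)) (A0 (xw ω))) -
          (xw ω' - T (1 / ((m : ℝ) + 1)) (A0 (xw ω))) := by abel
      rw [this]
      refine (norm_sub_le _ _).trans ?_
      linarith
    have h4 := (yi_le_norm ω ω').trans h3
    unfold yi at h4 ⊢
    split_ifs at h4 ⊢ <;> first | rfl | (exfalso; norm_num at h4)
  -- Baire
  have hcl : (⋃ m, closure (C m)) = univ := by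
    rw [eq_univ_iff_forall]
    intro ω
    obtain ⟨m, hm⟩ := hCcov ω
    exact mem_iUnion.mpr ⟨m, subset_closure hm⟩
  obtain ⟨m, ω', hω'⟩ := nonempty_interior_of_iUnion_of_closed (fun m => isClosed_closure) hcl
  rw [mem_interior_iff_mem_nhds] at hω'
  -- cylinders
  have hcyl : ∀ (ω : ℕ → Bool) (s : Set (ℕ → Bool)), s ∈ 𝓝 ω → ∃ L, ∀ η : ℕ → Bool,
      (∀ j, j ≤ L → η j = ω j) → η ∈ s := by
    intro ω s hs
    rw [nhds_pi, Filter.mem_pi] at hs
    obtain ⟨I, hI, t, ht, hts⟩ := hs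
    obtain ⟨L, hL⟩ := hI.bddAbove
    refine ⟨L, fun η hη => hts ?_⟩
    intro i hi
    rw [hη i (hL hi)]
    exact mem_of_mem_nhds (ht i)
  have hcylo : ∀ (ω : ℕ → Bool) (L : ℕ), {η : ℕ → Bool | ∀ j, j ≤ L → η j = ω j} ∈ 𝓝 ω := by
    intro ω L
    have : {η : ℕ → Bool | ∀ j, j ≤ L → η j = ω j} = (Set.Iic L).pi (fun j => {ω j}) := by
      ext η
      simp [Set.mem_pi]
    rw [this]
    apply set_pi_mem_nhds (Set.finite_Iic L)
    intro j _
    simp
  obtain ⟨L0, hL0⟩ := hcyl ω' _ hω'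
  -- any point of the cylinder is approximated by points of `C m` with the same value of yi
  have happ : ∀ ω : ℕ → Bool, (∀ j, j ≤ L0 → ω j = ω' j) → ∃ η ∈ C m,
      (∀ j, j ≤ L0 + m → η j = ω j) ∧ yi η = yi ω := by
    intro ω hω
    obtain ⟨m', hm'⟩ := hCcov ω
    have hcl' : ω ∈ closure (C m) := hL0 ω hω
    rw [mem_closure_iff_nhds] at hcl'
    obtain ⟨η, hη1, hη2⟩ := hcl' _ (hcylo ω (L0 + m + m'))
    refine ⟨η, hη2, fun j hj => hη1 j (by omega), ?_⟩
    apply hconst (m + m') η ω (hCmono _ _ (by omega) hη2) (hCmono _ _ (by omega) hm')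
    intro j hj
    exact hη1 j (by omega)
  let ω0 : ℕ → Bool := fun j => if j ≤ L0 + m then ω' j else false
  let ω1 : ℕ → Bool := fun j => if j ≤ L0 + m then ω' j else true
  obtain ⟨η0, h01, h02, h03⟩ := happ ω0 (fun j hj => by
    simp only [ω0]; rw [if_pos (by omega)])
  obtain ⟨η1, h11, h12, h13⟩ := happ ω1 (fun j hj => by
    simp only [ω1]; rw [if_pos (by omega)])
  have heq := hconst m η0 η1 h01 h11 (fun j hj => by
    rw [h02 j (by omega), h12 j (by omega)]
    simp only [ω0, ω1]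
    rw [if_pos (by omega), if_pos (by omega)])
  have hv0 : yi ω0 = 1 := by
    unfold yi
    rw [if_pos]
    refine ⟨L0 + m, fun j hj => ?_⟩
    simp only [ω0]
    rw [if_neg (by omega)]
  have hv1 : yi ω1 = 0 := by
    unfold yi
    rw [if_neg]
    rintro ⟨n, hn⟩
    have := hn (n + L0 + m + 1) (by omega)
    simp only [ω1] at this
    rw [if_neg (by omega)] at this
    exact absurd this (by simp)
  rw [h03, h13, hv0, hv1] at heq
  norm_num at heq

/-- The negation of the preceding statement: For every injective bounded linear operator A from a separable Banach space into a Banach space with nonclosed range, there are maps T_α with sup of ‖f − T_α g‖ over ‖g − Af‖ ≤ α tending to 0 as α→0, for every f. -/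
theorem result :
    ¬ (∀ (X : Type u) (Y : Type v) [NormedAddCommGroup X] [NormedSpace ℝ X] [CompleteSpace X]
      [TopologicalSpace.SeparableSpace X]
      [NormedAddCommGroup Y] [NormedSpace ℝ Y] [CompleteSpace Y]
      (A : X →L[ℝ] Y), Function.Injective A → ¬ IsClosed (Set.range A) →
      ∃ T : ℝ → Y → X, ∀ f : X, ∀ ε : ℝ, 0 < ε → ∃ δ : ℝ, 0 < δ ∧
        ∀ α : ℝ, 0 < α → α ≤ 1 → α < δ → ∀ g : Y, ‖g - A f‖ ≤ α → ‖f - T α g‖ ≤ ε) := by
  intro H
  -- lift to the given universes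
  let eX : ULift.{u} X0 ≃ₗᵢ[ℝ] X0 := LinearIsometryEquiv.ulift ℝ X0
  let eY : ULift.{v} Y0 ≃ₗᵢ[ℝ] Y0 := LinearIsometryEquiv.ulift ℝ Y0
  have hsepX0 : TopologicalSpace.SeparableSpace X0 := inferInstance
  have hsep : TopologicalSpace.SeparableSpace (ULift.{u} X0) :=
    eX.symm.toHomeomorph.surjective.denseRange.separableSpace eX.symm.continuous
  let A : ULift.{u} X0 →L[ℝ] ULift.{v} Y0 :=
    (eY.symm.toContinuousLinearEquiv : Y0 →L[ℝ] ULift.{v} Y0).comp
      (A0.comp (eX.toContinuousLinearEquiv : ULift.{u} X0 →L[ℝ] X0))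
  have hA : ∀ x, A x = eY.symm (A0 (eX x)) := fun x => rfl
  have hinj : Function.Injective A := by
    intro x y hxy
    rw [hA, hA] at hxy
    exact eX.injective (A0_injective (eY.symm.injective hxy))
  -- any regularization of A gives one of A0
  have key : ¬ ∃ T : ℝ → ULift.{v} Y0 → ULift.{u} X0, ∀ f : ULift.{u} X0, ∀ ε : ℝ, 0 < ε →
      ∃ δ : ℝ, 0 < δ ∧ ∀ α : ℝ, 0 < α → α ≤ 1 → α < δ → ∀ g : ULift.{v} Y0, ‖g - A f‖ ≤ α →
        ‖f - T α g‖ ≤ ε := by
    rintro ⟨T, hT⟩
    apply not_reg (fun α g => eX (T α (eY.symm g)))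
    intro f ε hε
    obtain ⟨δ, hδ, h⟩ := hT (eX.symm f) ε hε
    refine ⟨δ, hδ, fun α h1 h2 h3 g hg => ?_⟩
    have h4 := h α h1 h2 h3 (eY.symm g) (by
      rw [hA, eX.apply_symm_apply, ← map_sub, eY.symm.norm_map]
      exact hg)
    rw [← eX.norm_map, map_sub, eX.apply_symm_apply] at h4
    exact h4
  have hncl : ¬ IsClosed (Set.range A) := by
    intro hcl
    apply key
    obtain ⟨c, hc⟩ := A.antilipschitz_of_injective_of_isClosed_range hinj hcl
    classical
    refine ⟨fun α g => if h : ∃ f, ‖g - A f‖ ≤ α then h.choose else 0, fun f ε hε => ?_⟩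
    refine ⟨ε / (2 * (c + 1)), by positivity, fun α h1 _ h3 g hg => ?_⟩
    have hex : ∃ f, ‖g - A f‖ ≤ α := ⟨f, hg⟩
    simp only
    rw [dif_pos hex]
    have hspec := hex.choose_spec
    set f' := hex.choose
    have h5 := hc.le_mul_dist f f'
    rw [dist_eq_norm, dist_eq_norm] at h5
    have h6 : ‖A f - A f'‖ ≤ 2 * α := by
      have : A f - A f' = (g - A f') - (g - A f) := by abel
      rw [this]
      refine (norm_sub_le _ _).trans ?_
      linarith
    have hc0 : (0 : ℝ) ≤ c := c.2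
    have h7 : (c : ℝ) * ‖A f - A f'‖ ≤ c * (2 * α) := by gcongr
    have h8 : (c : ℝ) * (2 * α) ≤ ε := by
      have h9 : α * (2 * (c + 1)) < ε := by
        rwa [lt_div_iff₀ (by positivity)] at h3
      nlinarith
    linarith
  exact key (H (ULift.{u} X0) (ULift.{v} Y0) A hinj hncl)

end Pool.Agent.S04164
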