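import Pool.Statements.S04167
import Pool.Agent.Helper827.W9

set_option autoImplicit false
open Pool Pool.MP_d74bc6_an

namespace Pool.Agent.S04167

/-- Take a real Banach space whose weak*-topologized dual unit ball embeds in some ℝ^Γ with countable supports, and which has a nonzero Lipschitz bounded-support Gâteaux differentiable function. Then it has an equivalent norm that is Gâteaux differentiable away from 0. -/
theorem result :
    ∀ (X : Type) [NormedAddCommGroup X] [NormedSpace ℝ X] [CompleteSpace X],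
      (∃ (Γ : Type) (f : {φ : WeakDual ℝ X // ∀ x : X, |φ x| ≤ ‖x‖} → (Γ → ℝ)),
          Topology.IsEmbedding f ∧ ∀ φ, {γ : Γ | f φ γ ≠ 0}.Countable) →
      (∃ b : X → ℝ, (∃ K, LipschitzWith K b) ∧ (∃ x, b x ≠ 0) ∧
          Bornology.IsBounded (Function.support b) ∧
          ∀ x : X, ∃ L : X →L[ℝ] ℝ, ∀ h : X,
            HasDerivAt (fun t : ℝ => b (x + t • h)) (L h) 0) →
      ∃ N : X → ℝ, (∀ x y : X, N (x + y) ≤ N x + N y) ∧
        (∀ (c : ℝ) (x : X), N (c • x) = |c| * N x) ∧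
        (∃ a c : ℝ, 0 < a ∧ 0 < c ∧ ∀ x : X, a * ‖x‖ ≤ N x ∧ N x ≤ c * ‖x‖) ∧
        ∀ x : X, x ≠ 0 → ∃ L : X →L[ℝ] ℝ, ∀ h : X,
          HasDerivAt (fun t : ℝ => N (x + t • h)) (L h) 0 := by
  intro X _ _ _ H1 H2
  obtain ⟨C⟩ := Pool.Agent.H827.exists_cors H1
  obtain ⟨β⟩ := Pool.Agent.H827.exists_bump H2
  exact Pool.Agent.H827.final C β

end Pool.Agent.S04167
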