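import Pool.Statements.S04169

set_option autoImplicit false
open Filter Topology
open Pool Pool.MP_d75d7a_an

namespace Pool.Agent.S04169

/-- indexed iteration of list-extending steps -/
def iter (f : ℕ → List ℝ → List ℝ) (l : List ℝ) : ℕ → List ℝ
  | 0 => l
  | i+1 => f i (iter f l i)

/-- heights of the zigzag, in units of a third of the leg -/
noncomputable def H (n i : ℕ) : ℝ := if i ≤ 2*n then ((i % 2 : ℕ) : ℝ) else (i : ℝ) - 2*n

def nn (a : ℕ) : ℕ := (a+1)^2

noncomputable def build : ℕ → ℝ → List ℝ → List ℝ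
  | 0, v, l => l ++ [v]
  | r+1, v, l => iter (fun i l' => build r ((H (nn l.length) (i+1) - H (nn l.length) i) * (v/3)) l') l
      (2 * nn l.length + 3)

def Leg (y : ℕ → ℝ) : ℕ → ℕ → ℕ → ℝ → Prop
  | 0, a, b, v => b = a+1 ∧ y a = v
  | r+1, a, b, v => ∃ t : ℕ → ℕ, t 0 = a ∧ t (2 * nn a + 3) = b ∧
      ∀ i < 2 * nn a + 3, Leg y r (t i) (t (i+1)) ((H (nn a) (i+1) - H (nn a) i) * (v/3))

def Ext (y : ℕ → ℝ) (l : List ℝ) : Prop := ∀ m (h : m < l.length), y m = l[m]

lemma Ext.of_prefix {y : ℕ → ℝ} {l l' : List ℝ} (h : Ext y l') (hp : l <+: l') : Ext y l := by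
  intro m hm
  have h1 := h m (lt_of_lt_of_le hm hp.length_le)
  rw [h1]
  exact (hp.getElem hm).symm

lemma iter_prefix (f : ℕ → List ℝ → List ℝ) (hf : ∀ i l, l <+: f i l) (l : List ℝ) :
    ∀ i j, i ≤ j → iter f l i <+: iter f l j := by
  intro i j hij
  induction j, hij using Nat.le_induction with
  | base => exact List.prefix_rfl
  | succ j _ ih => exact ih.trans (hf _ _)

lemma build_prefix : ∀ (r : ℕ) (v : ℝ) (l : List ℝ), l <+: build r v l := by
  intro r
  induction r with
  | zero => intro v l; exact List.prefix_append _ _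
  | succ r ih =>
    intro v l
    exact iter_prefix _ (fun i l' => ih _ l') l 0 _ (Nat.zero_le _)

lemma iter_length (f : ℕ → List ℝ → List ℝ) (hf : ∀ i l, l.length < (f i l).length) (l : List ℝ) :
    ∀ i, l.length + i ≤ (iter f l i).length := by
  intro i
  induction i with
  | zero => simp [iter]
  | succ i ih =>
    have := hf i (iter f l i)
    simp only [iter]
    omega

lemma build_length : ∀ (r : ℕ) (v : ℝ) (l : List ℝ), l.length < (build r v l).length := by
  intro r
  induction r with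
  | zero => intro v l; simp [build]
  | succ r ih =>
    intro v l
    have := iter_length (fun i l' => build r ((H (nn l.length) (i+1) - H (nn l.length) i) * (v/3)) l')
      (fun i l' => ih _ l') l (2 * nn l.length + 3)
    simp only [build]
    omega

lemma leg_of_ext (y : ℕ → ℝ) : ∀ (r : ℕ) (v : ℝ) (l : List ℝ), Ext y (build r v l) →
    Leg y r l.length (build r v l).length v := by
  intro r
  induction r with
  | zero =>
    intro v l h
    refine ⟨by simp [build], ?_⟩
    have := h l.length (by simp [build])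
    rw [this]; simp [build]
  | succ r ih =>
    intro v l h
    set f := (fun (i : ℕ) (l' : List ℝ) => build r ((H (nn l.length) (i+1) - H (nn l.length) i) * (v/3)) l') with hf
    refine ⟨fun i => (iter f l i).length, rfl, rfl, ?_⟩
    intro i hi
    have hp : iter f l (i+1) <+: build (r+1) v l :=
      iter_prefix f (fun i l' => build_prefix _ _ _) l (i+1) _ (by omega)
    exact ih _ _ (h.of_prefix hp)

/-- facts on heights -/
lemma H_zero (n : ℕ) : H n 0 = 0 := by simp [H]

lemma H_last (n : ℕ) : H n (2*n+3) = 3 := by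
  unfold H
  rw [if_neg (by omega)]
  push_cast; ring

lemma H_nonneg (n i : ℕ) : 0 ≤ H n i := by
  unfold H
  split_ifs with h
  · positivity
  · have : (2*n : ℝ) ≤ i := by exact_mod_cast (by omega : 2*n ≤ i)
    linarith

lemma H_le (n i : ℕ) (hi : i ≤ 2*n+3) : H n i ≤ 3 := by
  unfold H
  split_ifs with h
  · have : i % 2 ≤ 1 := by omega
    have : ((i%2 : ℕ) : ℝ) ≤ 1 := by exact_mod_cast this
    linarith
  · have : (i : ℝ) ≤ 2*n+3 := by exact_mod_cast hi
    linarith

lemma H_step (n i : ℕ) : |H n (i+1) - H n i| = 1 := by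
  unfold H
  rcases Nat.lt_trichotomy i (2*n) with h | h | h
  · rw [if_pos (by omega), if_pos (by omega)]
    rcases Nat.mod_two_eq_zero_or_one i with h0 | h0
    · have h1 : (i+1) % 2 = 1 := by omega
      rw [h0, h1]; norm_num
    · have h1 : (i+1) % 2 = 0 := by omega
      rw [h0, h1]; norm_num
  · rw [if_neg (by omega), if_pos (by omega)]
    have : i % 2 = 0 := by omega
    rw [this]
    have h' : (i : ℝ) = 2 * n := by exact_mod_cast h
    push_cast; rw [h']; norm_num
  · rw [if_neg (by omega), if_neg (by omega)]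
    push_cast
    have : (i:ℝ) + 1 - 2 * n - (i - 2 * n) = 1 := by ring
    rw [this]; norm_num

/-- start < end -/
lemma Leg.lt {y : ℕ → ℝ} : ∀ {r a b : ℕ} {v : ℝ}, Leg y r a b v → a < b := by
  intro r
  induction r with
  | zero => intro a b v h; have := h.1; omega
  | succ r ih =>
    intro a b v h
    obtain ⟨t, h0, h1, h2⟩ := h
    have key : ∀ i ≤ 2 * nn a + 3, t 0 + i ≤ t i := by
      intro i
      induction i with
      | zero => intro _; simp
      | succ i ihi =>
        intro hi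
        have h3 := ihi (by omega)
        have h4 := ih (h2 i (by omega))
        omega
    have := key _ le_rfl
    omega

/-- monotonicity of the cut points -/
lemma cuts_mono {y : ℕ → ℝ} {r N : ℕ} {t : ℕ → ℕ} {w : ℕ → ℝ}
    (h : ∀ i < N, Leg y r (t i) (t (i+1)) (w i)) : ∀ i j, i ≤ j → j ≤ N → t i ≤ t j := by
  intro i j hij
  induction j, hij using Nat.le_induction with
  | base => intro _; exact le_rfl
  | succ j _ ih =>
    intro hj
    exact (ih (by omega)).trans (h j (by omega)).lt.le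

/-- every index in `[t 0, t N)` lies in one of the pieces -/
lemma exists_piece {t : ℕ → ℕ} {N m : ℕ} (h0 : t 0 ≤ m) (h1 : m < t N) :
    ∃ i < N, t i ≤ m ∧ m < t (i+1) := by
  induction N with
  | zero => omega
  | succ N ih =>
    by_cases h : m < t N
    · obtain ⟨i, hi, h2⟩ := ih h
      exact ⟨i, by omega, h2⟩
    · exact ⟨N, by omega, by omega, h1⟩

lemma Leg.abs_term {y : ℕ → ℝ} : ∀ {r a b : ℕ} {v : ℝ}, Leg y r a b v →
    ∀ m, a ≤ m → m < b → |y m| = |v| / 3^r := by
  intro r
  induction r with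
  | zero =>
    intro a b v h m h1 h2
    obtain ⟨h3, h4⟩ := h
    have : m = a := by omega
    subst this
    simp [h4]
  | succ r ih =>
    intro a b v h m h1 h2
    obtain ⟨t, h0, h3, h4⟩ := h
    obtain ⟨i, hi, h5, h6⟩ := exists_piece (t := t) (N := 2 * nn a + 3) (m := m) (by omega) (by omega)
    have := ih (h4 i hi) m h5 h6
    rw [this, abs_mul, H_step, one_mul, abs_div, abs_of_pos (by norm_num : (0:ℝ) < 3)]
    rw [pow_succ]; field_simp

/-- prefix sums of `y` -/
noncomputable def PS (y : ℕ → ℝ) (n : ℕ) : ℝ := ∑ j ∈ Finset.range n, y j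

lemma PS_succ (y : ℕ → ℝ) (n : ℕ) : PS y (n+1) = PS y n + y n := by
  unfold PS; rw [Finset.sum_range_succ]

lemma PS_sub (y : ℕ → ℝ) {a b : ℕ} (h : a ≤ b) : PS y b - PS y a = ∑ j ∈ Finset.Ico a b, y j := by
  unfold PS; rw [Finset.sum_Ico_eq_sub _ h]

/-- total sum of a leg and confinement -/
lemma Leg.sum_eq {y : ℕ → ℝ} : ∀ {r a b : ℕ} {v : ℝ}, Leg y r a b v → PS y b - PS y a = v := by
  intro r
  induction r with
  | zero =>
    intro a b v h
    obtain ⟨h3, h4⟩ := h
    subst h3
    rw [PS_succ, h4]; ring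
  | succ r ih =>
    intro a b v h
    obtain ⟨t, h0, h3, h4⟩ := h
    have key : ∀ i ≤ 2 * nn a + 3, PS y (t i) - PS y a = H (nn a) i * (v/3) := by
      intro i
      induction i with
      | zero => intro _; rw [h0, H_zero]; ring
      | succ i ihi =>
        intro hi
        have h5 := ihi (by omega)
        have h6 := ih (h4 i (by omega))
        linarith
    have := key _ le_rfl
    rw [h3, H_last] at this
    linarith

lemma Leg.cut_sum {y : ℕ → ℝ} {r a : ℕ} {v : ℝ} {t : ℕ → ℕ} (h0 : t 0 = a)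
    (h4 : ∀ i < 2 * nn a + 3, Leg y r (t i) (t (i+1)) ((H (nn a) (i+1) - H (nn a) i) * (v/3))) :
    ∀ i ≤ 2 * nn a + 3, PS y (t i) - PS y a = H (nn a) i * (v/3) := by
  intro i
  induction i with
  | zero => intro _; rw [h0, H_zero]; ring
  | succ i ihi =>
    intro hi
    have h5 := ihi (by omega)
    have h6 := (h4 i (by omega)).sum_eq
    linarith

lemma Leg.conf {y : ℕ → ℝ} : ∀ {r a b : ℕ} {v : ℝ}, Leg y r a b v →
    ∀ d, a ≤ d → d ≤ b → ∃ c : ℝ, 0 ≤ c ∧ c ≤ 1 ∧ PS y d - PS y a = c * v := by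
  intro r
  induction r with
  | zero =>
    intro a b v h d h1 h2
    obtain ⟨h3, h4⟩ := h
    rcases Nat.eq_or_lt_of_le h1 with h5 | h5
    · subst h5; exact ⟨0, le_rfl, zero_le_one, by ring⟩
    · have : d = a + 1 := by omega
      subst this
      exact ⟨1, zero_le_one, le_rfl, by rw [PS_succ, h4]; ring⟩
  | succ r ih =>
    intro a b v h d h1 h2
    have hfull := h
    obtain ⟨t, h0, h3, h4⟩ := h
    rcases Nat.eq_or_lt_of_le h2 with h5 | h5
    · refine ⟨1, zero_le_one, le_rfl, ?_⟩
      rw [h5, hfull.sum_eq]; ring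
    · obtain ⟨i, hi, h6, h7⟩ := exists_piece (t := t) (N := 2 * nn a + 3) (m := d) (by omega) (by omega)
      obtain ⟨c, hc0, hc1, hc⟩ := ih (h4 i hi) d h6 h7.le
      have hcut := Leg.cut_sum h0 h4 i (by omega)
      refine ⟨((1-c) * H (nn a) i + c * H (nn a) (i+1)) / 3, ?_, ?_, ?_⟩
      · have := H_nonneg (nn a) i
        have := H_nonneg (nn a) (i+1)
        have : 0 ≤ 1 - c := by linarith
        positivity
      · have e1 := H_le (nn a) i (by omega)
        have e2 := H_le (nn a) (i+1) (by omega)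
        have : 0 ≤ 1 - c := by linarith
        have e3 : (1-c) * H (nn a) i ≤ (1-c)*3 := mul_le_mul_of_nonneg_left e1 this
        have e4 : c * H (nn a) (i+1) ≤ c*3 := mul_le_mul_of_nonneg_left e2 hc0
        linarith
      · have : PS y d - PS y a = (PS y d - PS y (t i)) + (PS y (t i) - PS y a) := by ring
        rw [this, hc, hcut]; ring

/-- all interval sums inside a leg are at most `|v|` -/
lemma Leg.bound {y : ℕ → ℝ} {r a b : ℕ} {v : ℝ} (h : Leg y r a b v) {c d : ℕ}
    (h1 : a ≤ c) (h2 : c ≤ d) (h3 : d ≤ b) : |PS y d - PS y c| ≤ |v| := by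
  obtain ⟨s, hs0, hs1, hs⟩ := h.conf c h1 (h2.trans h3)
  obtain ⟨s', hs0', hs1', hs'⟩ := h.conf d (h1.trans h2) h3
  have : PS y d - PS y c = (s' - s) * v := by linarith
  rw [this, abs_mul]
  have : |s' - s| ≤ 1 := by rw [abs_le]; constructor <;> linarith
  nlinarith [abs_nonneg v]

/-- a leg of depth at least one and of size θ -/
def P (y : ℕ → ℝ) (θ : ℝ) (p q : ℕ) : Prop := ∃ r v, |v| = θ ∧ Leg y (r+1) p q v

lemma Leg.decomp {y : ℕ → ℝ} : ∀ (s : ℕ) {r a b : ℕ} {v : ℝ}, Leg y r a b v → s + 1 ≤ r →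
    Relation.ReflTransGen (P y (|v| / 3^s)) a b := by
  intro s
  induction s with
  | zero =>
    intro r a b v h hs
    obtain ⟨r', rfl⟩ : ∃ r', r = r' + 1 := ⟨r - 1, by omega⟩
    exact Relation.ReflTransGen.single ⟨r', v, by simp, h⟩
  | succ s ih =>
    intro r a b v h hs
    obtain ⟨r', rfl⟩ : ∃ r', r = r' + 1 := ⟨r - 1, by omega⟩
    obtain ⟨t, h0, h3, h4⟩ := h
    have key : ∀ i ≤ 2 * nn a + 3, Relation.ReflTransGen (P y (|v| / 3^(s+1))) (t 0) (t i) := by
      intro i
      induction i with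
      | zero => intro _; exact Relation.ReflTransGen.refl
      | succ i ihi =>
        intro hi
        refine (ihi (by omega)).trans ?_
        have := ih (h4 i (by omega)) (by omega)
        rw [abs_mul, H_step, one_mul, abs_div, abs_of_pos (by norm_num : (0:ℝ) < 3), div_div,
          ← pow_succ'] at this
        exact this
    have := key _ le_rfl
    rwa [h0, h3] at this

lemma P.lt {y : ℕ → ℝ} {θ : ℝ} {p q : ℕ} (h : P y θ p q) : p < q := by
  obtain ⟨r, v, _, h⟩ := h
  exact h.lt

lemma P.bound {y : ℕ → ℝ} {θ : ℝ} {p q : ℕ} (h : P y θ p q) {c d : ℕ}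
    (h1 : p ≤ c) (h2 : c ≤ d) (h3 : d ≤ q) : |PS y d - PS y c| ≤ θ := by
  obtain ⟨r, v, hv, h⟩ := h
  rw [← hv]; exact h.bound h1 h2 h3

lemma RTG_le {y : ℕ → ℝ} {θ : ℝ} {a b : ℕ} (h : Relation.ReflTransGen (P y θ) a b) : a ≤ b := by
  induction h with
  | refl => exact le_rfl
  | tail _ h2 ih => exact ih.trans h2.lt.le

lemma exists_leg_suffix {y : ℕ → ℝ} {θ : ℝ} {a b c : ℕ} (h : Relation.ReflTransGen (P y θ) a b)
    (h1 : a ≤ c) (h2 : c ≤ b) (h3 : θ < |PS y b - PS y c|) (hθ : 0 ≤ θ) :
    ∃ p q, P y θ p q ∧ c ≤ p ∧ q ≤ b := by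
  cases h with
  | refl =>
    have : c = a := by omega
    subst this
    simp at h3
    linarith
  | @tail b' _ h4 h5 =>
    by_cases hc : c ≤ b'
    · exact ⟨b', b, h5, hc, le_rfl⟩
    · have := h5.bound (c := c) (d := b) (by omega) h2 le_rfl
      linarith

lemma exists_leg {y : ℕ → ℝ} {θ : ℝ} {a b c d : ℕ} (h : Relation.ReflTransGen (P y θ) a b)
    (hθ : 0 ≤ θ) (h1 : a ≤ c) (h2 : c ≤ d) (h4 : d ≤ b) (h3 : 2 * θ < |PS y d - PS y c|) :
    ∃ p q, P y θ p q ∧ c ≤ p ∧ q ≤ d := by
  induction h with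
  | refl =>
    have : c = d := by omega
    subst this
    simp at h3
    linarith
  | @tail b' b'' h5 h6 ih =>
    by_cases hd : d ≤ b'
    · exact ih hd
    · push Not at hd
      by_cases hc : c ≤ b'
      · have e1 := h6.bound (c := b') (d := d) le_rfl hd.le h4
        have e2 : θ < |PS y b' - PS y c| := by
          have : |PS y d - PS y c| ≤ |PS y d - PS y b'| + |PS y b' - PS y c| := by
            have := abs_add_le (PS y d - PS y b') (PS y b' - PS y c)
            simpa using this
          linarith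
        obtain ⟨p, q, hpq, hp, hq⟩ := exists_leg_suffix h5 h1 hc e2 hθ
        exact ⟨p, q, hpq, hp, by omega⟩
      · push Not at hc
        have := h6.bound (c := c) (d := d) hc.le h2 h4
        linarith

/-- the epochs -/
noncomputable def EL : ℕ → List ℝ
  | 0 => []
  | k+1 => build k 1 (EL k)

noncomputable def e (k : ℕ) : ℕ := (EL k).length

noncomputable def x (m : ℕ) : ℝ := (EL (m+1)).getD m 0

lemma EL_prefix : ∀ i j, i ≤ j → EL i <+: EL j := by
  intro i j hij
  induction j, hij using Nat.le_induction with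
  | base => exact List.prefix_rfl
  | succ j _ ih => exact ih.trans (build_prefix _ _ _)

lemma e_strictMono : StrictMono e := strictMono_nat_of_lt_succ (fun k => build_length _ _ _)

lemma le_e (k : ℕ) : k ≤ e k := e_strictMono.id_le k

lemma e_zero : e 0 = 0 := rfl

lemma ext_x (k : ℕ) : Ext x (EL k) := by
  intro m hm
  have h1 : m < (EL (m+1)).length := lt_of_lt_of_le (Nat.lt_succ_self m) (le_e (m+1))
  unfold x
  rw [List.getD_eq_getElem _ _ h1]
  rcases le_total (m+1) k with h | h
  · exact (EL_prefix _ _ h).getElem h1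
  · exact ((EL_prefix _ _ h).getElem hm).symm

lemma leg_epoch (k : ℕ) : Leg x k (e k) (e (k+1)) 1 := leg_of_ext x k 1 (EL k) (ext_x (k+1))

lemma epoch_sum (k : ℕ) : PS x (e (k+1)) - PS x (e k) = 1 := (leg_epoch k).sum_eq

lemma exists_epoch (m : ℕ) : ∃ k, e k ≤ m ∧ m < e (k+1) := by
  obtain ⟨i, _, h⟩ := exists_piece (t := e) (N := m+1) (m := m) (by rw [e_zero]; omega)
    (lt_of_lt_of_le (Nat.lt_succ_self m) (le_e (m+1)))
  exact ⟨i, h⟩

lemma x_tendsto : Tendsto x atTop (𝓝 0) := by
  rw [Metric.tendsto_atTop]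
  intro ε hε
  obtain ⟨K, hK⟩ := exists_pow_lt_of_lt_one hε (by norm_num : (1/3 : ℝ) < 1)
  refine ⟨e K, fun m hm => ?_⟩
  obtain ⟨k, h1, h2⟩ := exists_epoch m
  have hk : K ≤ k := by
    by_contra hlt
    have : e (k+1) ≤ e K := e_strictMono.monotone (by omega)
    omega
  rw [dist_zero_right, Real.norm_eq_abs, (leg_epoch k).abs_term m h1 h2]
  calc |(1:ℝ)| / 3^k = (1/3)^k := by rw [abs_one, one_div_pow]
    _ ≤ (1/3)^K := pow_le_pow_of_le_one (by norm_num) (by norm_num) hk
    _ < ε := hK

lemma decomp_epochs (s : ℕ) : ∀ k, s + 1 ≤ k → Relation.ReflTransGen (P x ((1/3)^s)) (e (s+1)) (e k) := by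
  intro k hk
  induction k, hk using Nat.le_induction with
  | base => exact Relation.ReflTransGen.refl
  | succ k hk ih =>
    refine ih.trans ?_
    have := (leg_epoch k).decomp s hk
    rwa [abs_one, ← one_div_pow] at this

/-- the key abundance property -/
lemma Pstar (θ : ℝ) (hθ : 0 < θ) : ∃ θ' > 0, ∀ K : ℕ, ∃ N₀ : ℕ, ∀ c d : ℕ, N₀ ≤ c → c ≤ d →
    θ ≤ |PS x d - PS x c| → ∃ (M : ℕ) (t : ℕ → ℕ), K * (c+1) ≤ M ∧ c ≤ t 0 ∧ t M ≤ d ∧
      (∀ i < M, t i < t (i+1)) ∧ ∀ i < M, θ' ≤ |PS x (t (i+1)) - PS x (t i)| := by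
  obtain ⟨s, hs⟩ := exists_pow_lt_of_lt_one (show (0:ℝ) < θ/2 by positivity) (by norm_num : (1/3 : ℝ) < 1)
  refine ⟨(1/3)^(s+1), by positivity, fun K => ⟨max (e (s+1)) K, ?_⟩⟩
  intro c d hc hcd hsum
  obtain ⟨r, v, hv, t, h0, h3, h4⟩ : ∃ r v, |v| = (1/3:ℝ)^s ∧ ∃ t : ℕ → ℕ, c ≤ t 0 ∧ t (2 * nn (t 0) + 3) ≤ d ∧
      ∀ i < 2 * nn (t 0) + 3, Leg x r (t i) (t (i+1)) ((H (nn (t 0)) (i+1) - H (nn (t 0)) i) * (v/3)) := by
    have hd : d ≤ e (max (s+1) d) := (le_e d).trans (e_strictMono.monotone (le_max_right _ _))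
    obtain ⟨p, q, ⟨r, v, hv, hleg⟩, hp, hq⟩ := exists_leg (decomp_epochs s (max (s+1) d) (le_max_left _ _))
      (by positivity) (le_trans (le_max_left _ _) hc) hcd hd (by linarith)
    obtain ⟨t, h0, h3, h4⟩ := hleg
    subst h0
    exact ⟨r, v, hv, t, hp, h3.le.trans hq, h4⟩
  refine ⟨2 * nn (t 0) + 3, t, ?_, h0, h3, fun i hi => (h4 i hi).lt, ?_⟩
  · have hK : K ≤ c := le_trans (le_max_right _ _) hc
    unfold nn
    have : K * (c+1) ≤ (t 0 + 1)^2 := by
      rw [sq]
      exact Nat.mul_le_mul (by omega) (by omega)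
    omega
  · intro i hi
    rw [(h4 i hi).sum_eq, abs_mul, H_step, one_mul, abs_div, hv, abs_of_pos (by norm_num : (0:ℝ) < 3),
      pow_succ]
    apply le_of_eq; ring

/-- at most `C` places where membership changes -/
def Bd (p : ℕ → Prop) (C : ℕ) : Prop := ∀ t : Finset ℕ, (∀ j ∈ t, ¬ (p j ↔ p (j+1))) → t.card ≤ C

lemma Bd.comb {p q r : ℕ → Prop} {C₁ C₂ : ℕ} (hp : Bd p C₁) (hq : Bd q C₂)
    (h : ∀ j, ¬ (r j ↔ r (j+1)) → ¬ (p j ↔ p (j+1)) ∨ ¬ (q j ↔ q (j+1))) : Bd r (C₁ + C₂) := by
  classical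
  intro t ht
  have h1 := hp (t.filter (fun j => ¬ (p j ↔ p (j+1)))) (fun j hj => (Finset.mem_filter.mp hj).2)
  have h2 := hq (t.filter (fun j => ¬ (q j ↔ q (j+1)))) (fun j hj => (Finset.mem_filter.mp hj).2)
  have h3 : t ⊆ t.filter (fun j => ¬ (p j ↔ p (j+1))) ∪ t.filter (fun j => ¬ (q j ↔ q (j+1))) := by
    intro j hj
    rcases h j (ht j hj) with h4 | h4
    · exact Finset.mem_union_left _ (Finset.mem_filter.mpr ⟨hj, h4⟩)
    · exact Finset.mem_union_right _ (Finset.mem_filter.mpr ⟨hj, h4⟩)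
  calc t.card ≤ _ := Finset.card_le_card h3
    _ ≤ _ := Finset.card_union_le _ _
    _ ≤ _ := by omega

lemma Bd.comp {p : ℕ → Prop} {C : ℕ} (hp : Bd p C) {g : ℕ → ℕ} (hg : StrictMono g) :
    Bd (fun j => p (g j)) C := by
  classical
  intro t ht
  have key : ∀ a b : ℕ, a ≤ b → ¬ (p a ↔ p b) → ∃ c, a ≤ c ∧ c < b ∧ ¬ (p c ↔ p (c+1)) := by
    intro a b hab
    induction b, hab using Nat.le_induction with
    | base => intro h; exact absurd Iff.rfl h
    | succ b hab ih =>
      intro h
      by_cases h1 : (p b ↔ p (b+1))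
      · have h2 : ¬ (p a ↔ p b) := fun h3 => h (h3.trans h1)
        obtain ⟨c, hc1, hc2, hc3⟩ := ih h2
        exact ⟨c, hc1, by omega, hc3⟩
      · exact ⟨b, hab, by omega, h1⟩
  have h1 : ∀ j ∈ t, ∃ c, g j ≤ c ∧ c < g (j+1) ∧ ¬ (p c ↔ p (c+1)) := fun j hj =>
    key _ _ (hg (Nat.lt_succ_self j)).le (ht j hj)
  choose! φ hφ using h1
  have hinj : Set.InjOn φ t := by
    intro i hi j hj hij
    by_contra hne
    rcases Nat.lt_or_gt_of_ne hne with hlt | hlt
    · have h2 : g (i+1) ≤ g j := hg.monotone (by omega)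
      have h3 := (hφ i hi).2.1
      have h4 := (hφ j hj).1
      omega
    · have h2 : g (j+1) ≤ g i := hg.monotone (by omega)
      have h3 := (hφ j hj).2.1
      have h4 := (hφ i hi).1
      omega
  rw [← Finset.card_image_of_injOn hinj]
  apply hp
  intro c hc
  obtain ⟨j, hj, rfl⟩ := Finset.mem_image.mp hc
  exact (hφ j hj).2.2

open Classical in
/-- sum of `y` over the elements below `N` satisfying `p` -/
noncomputable def SS (y : ℕ → ℝ) (p : ℕ → Prop) (N : ℕ) : ℝ := ∑ j ∈ Finset.range N, if p j then y j else 0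

lemma SS_succ (y : ℕ → ℝ) (p : ℕ → Prop) (N : ℕ) [Decidable (p N)] :
    SS y p (N+1) = SS y p N + if p N then y N else 0 := by
  classical
  unfold SS; rw [Finset.sum_range_succ]
  congr 1
  split_ifs <;> rfl

lemma SS_const {y : ℕ → ℝ} {p : ℕ → Prop} {a b : ℕ} (hab : a ≤ b) (h : ∀ j, a ≤ j → j < b → p j) :
    SS y p b = SS y p a + (PS y b - PS y a) := by
  classical
  induction b, hab using Nat.le_induction with
  | base => ring
  | succ b hab ih =>
    rw [SS_succ, PS_succ, if_pos (h b hab (by omega)), ih (fun j h1 h2 => h j h1 (by omega))]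
    ring

lemma exists_run_start (p : ℕ → Prop) : ∀ N, ∃ a ≤ N, (∀ j, a ≤ j → j < N → p j) ∧ (a = 0 ∨ ¬ p (a-1)) := by
  intro N
  induction N with
  | zero => exact ⟨0, le_rfl, fun j _ h => absurd h (Nat.not_lt_zero _), Or.inl rfl⟩
  | succ N ih =>
    by_cases hN : p N
    · obtain ⟨a, ha, h1, h2⟩ := ih
      refine ⟨a, by omega, fun j hj1 hj2 => ?_, h2⟩
      rcases Nat.lt_succ_iff_lt_or_eq.mp hj2 with h3 | h3
      · exact h1 j hj1 h3
      · rw [h3]; exact hN
    · exact ⟨N+1, le_rfl, fun j h1 h2 => absurd h2 (by omega), Or.inr (by simpa using hN)⟩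

lemma runs_bound {y : ℕ → ℝ} {p : ℕ → Prop} {η : ℝ}
    (h : ∀ a b, a < b → (∀ j, a ≤ j → j < b → p j) → |PS y b - PS y a| ≤ η) :
    ∀ N, ¬ p N → ∃ t : Finset ℕ, (∀ j ∈ t, j < N ∧ ¬ (p j ↔ p (j+1))) ∧ |SS y p N| ≤ t.card * η := by
  classical
  intro N
  induction N using Nat.strong_induction_on with
  | _ N ih =>
    intro hN
    obtain ⟨a, ha, h1, h2⟩ := exists_run_start p N
    rcases Nat.eq_or_lt_of_le ha with haN | haN
    · -- no run at the end
      rcases h2 with h2 | h2
      · have : N = 0 := by omega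
        subst this
        exact ⟨∅, by simp, by simp [SS]⟩
      · by_cases hN0 : N = 0
        · subst hN0
          exact ⟨∅, by simp, by simp [SS]⟩
        · obtain ⟨M, rfl⟩ : ∃ M, N = M + 1 := ⟨N-1, by omega⟩
          rw [haN] at h2
          simp at h2
          obtain ⟨t, ht1, ht2⟩ := ih M (by omega) h2
          refine ⟨t, fun j hj => ⟨by have := (ht1 j hj).1; omega, (ht1 j hj).2⟩, ?_⟩
          rw [SS_succ, if_neg h2, add_zero]; exact ht2
    · have hrun := h a N haN h1
      have hS := SS_const (y := y) (p := p) ha h1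
      have hlast : ¬ (p (N-1) ↔ p (N-1+1)) := by
        have e1 : p (N-1) := h1 (N-1) (by omega) (by omega)
        have e2 : N - 1 + 1 = N := by omega
        rw [e2]
        exact fun h3 => hN (h3.mp e1)
      rcases h2 with h2 | h2
      · subst h2
        refine ⟨{N-1}, ?_, ?_⟩
        · intro j hj
          rw [Finset.mem_singleton] at hj
          subst hj
          exact ⟨by omega, hlast⟩
        · rw [hS]
          simpa [SS] using hrun
      · by_cases ha0 : a = 0
        · subst ha0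
          refine ⟨{N-1}, ?_, ?_⟩
          · intro j hj
            rw [Finset.mem_singleton] at hj
            subst hj
            exact ⟨by omega, hlast⟩
          · rw [hS]
            simpa [SS] using hrun
        · obtain ⟨t, ht1, ht2⟩ := ih (a-1) (by omega) h2
          have hnot : N - 1 ∉ t := fun hmem => by have := (ht1 _ hmem).1; omega
          refine ⟨insert (N-1) t, ?_, ?_⟩
          · intro j hj
            rcases Finset.mem_insert.mp hj with h3 | h3
            · subst h3; exact ⟨by omega, hlast⟩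
            · exact ⟨by have := (ht1 j h3).1; omega, (ht1 j h3).2⟩
          · rw [Finset.card_insert_of_notMem hnot, hS]
            have e1 : SS y p a = SS y p (a-1) := by
              obtain ⟨M, rfl⟩ : ∃ M, a = M + 1 := ⟨a-1, by omega⟩
              simp at h2
              simp [SS_succ, h2]
            rw [e1]
            push_cast
            have := abs_add_le (SS y p (a-1)) (PS y N - PS y a)
            linarith

lemma Bd.sum_bound {y : ℕ → ℝ} {p : ℕ → Prop} {η : ℝ} {C : ℕ} (hC : Bd p C) (hη : 0 ≤ η)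
    (h : ∀ a b, a < b → (∀ j, a ≤ j → j < b → p j) → |PS y b - PS y a| ≤ η) {N : ℕ} (hN : ¬ p N) :
    |SS y p N| ≤ C * η := by
  obtain ⟨t, ht1, ht2⟩ := runs_bound h N hN
  have h3 := hC t (fun j hj => (ht1 j hj).2)
  refine ht2.trans (mul_le_mul_of_nonneg_right ?_ hη)
  exact_mod_cast h3

/-- an open interval contains a change -/
lemma open_change {α : ℕ → ℕ} {p q T : ℕ} (h1 : ∃ j, p ≤ j ∧ j < q ∧ α j < T)
    (h2 : ∃ j, p ≤ j ∧ j < q ∧ T ≤ α j) : ∃ c, p ≤ c ∧ c + 1 < q ∧ ¬ (α c < T ↔ α (c+1) < T) := by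
  by_contra hno
  have hno' : ∀ c, p ≤ c → c + 1 < q → (α c < T ↔ α (c+1) < T) := by
    intro c hc1 hc2
    by_contra h
    exact hno ⟨c, hc1, hc2, h⟩
  have key : ∀ j, p ≤ j → j < q → (α p < T ↔ α j < T) := by
    intro j hj
    induction j, hj using Nat.le_induction with
    | base => intro _; exact Iff.rfl
    | succ j hj ih =>
      intro h3
      exact (ih (by omega)).trans (hno' j hj h3)
  obtain ⟨j, hj1, hj2, hj3⟩ := h1
  obtain ⟨i, hi1, hi2, hi3⟩ := h2
  have := (key i hi1 hi2).mp ((key j hj1 hj2).mpr hj3)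
  omega

/-- the time window of an interval -/
lemma exists_window (α : ℕ → ℕ) {p q : ℕ} (h : p < q) : ∃ S E, S < E ∧
    (∀ j, p ≤ j → j < q → S ≤ α j ∧ α j < E) ∧ (∃ j, p ≤ j ∧ j < q ∧ α j = S) ∧
    (∃ j, p ≤ j ∧ j < q ∧ α j + 1 = E) := by
  have hne : (Finset.Ico p q).Nonempty := Finset.nonempty_Ico.mpr h
  obtain ⟨i, hi, hi2⟩ := Finset.exists_min_image (Finset.Ico p q) α hne
  obtain ⟨k, hk, hk2⟩ := Finset.exists_max_image (Finset.Ico p q) α hne
  rw [Finset.mem_Ico] at hi hk
  refine ⟨α i, α k + 1, ?_, ?_, ⟨i, hi.1, hi.2, rfl⟩, ⟨k, hk.1, hk.2, rfl⟩⟩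
  · have := hi2 k (Finset.mem_Ico.mpr hk); omega
  · intro j h1 h2
    have e1 := hi2 j (Finset.mem_Ico.mpr ⟨h1, h2⟩)
    have e2 := hk2 j (Finset.mem_Ico.mpr ⟨h1, h2⟩)
    omega

section rigid

variable {w : Bool → ℕ → ℕ} {C : ℕ} {f : ℕ → ℝ}

/-- Among many disjoint intervals one has a window without activity to the left of `a`. -/
lemma exists_silent (hw : ∀ s j s' j', w s j = w s' j' → s = s' ∧ j = j')
    (hC : ∀ s T, Bd (fun j => w s j < T) C) (s : Bool) {a M : ℕ} {t : ℕ → ℕ}
    (hM : 2 * a * C < M) (ha : a ≤ t 0) (ht : ∀ i < M, t i < t (i+1)) :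
    ∃ i < M, ∃ S E, S < E ∧ (∀ j, t i ≤ j → j < t (i+1) → S ≤ w s j ∧ w s j < E) ∧
      (∃ j, t i ≤ j ∧ j < t (i+1) ∧ w s j = S) ∧ (∃ j, t i ≤ j ∧ j < t (i+1) ∧ w s j + 1 = E) ∧
      (∀ s' j, j < a → ¬ (S ≤ w s' j ∧ w s' j < E)) := by
  classical
  by_contra hcon
  have hmono : ∀ i j, i ≤ j → j ≤ M → t i ≤ t j := by
    intro i j hij
    induction j, hij using Nat.le_induction with
    | base => intro _; exact le_rfl
    | succ j _ ih =>
      intro hj
      exact (ih (by omega)).trans (ht j (by omega)).le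
  have key : ∀ i, i < M → ∃ z : Bool × ℕ, z.2 < a ∧
      ∃ c, t i ≤ c ∧ c + 1 < t (i+1) ∧ ¬ (w s c < w z.1 z.2 ↔ w s (c+1) < w z.1 z.2) := by
    intro i hi
    obtain ⟨S, E, hSE, h1, h2, h3⟩ := exists_window (w s) (ht i hi)
    by_contra hno
    apply hcon
    refine ⟨i, hi, S, E, hSE, h1, h2, h3, ?_⟩
    intro s' j hj hwin
    apply hno
    refine ⟨(s', j), hj, open_change ?_ ?_⟩
    · obtain ⟨j', hj1, hj2, hj3⟩ := h2
      refine ⟨j', hj1, hj2, ?_⟩
      show w s j' < w s' j
      have hne : w s j' ≠ w s' j := by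
        intro heq
        have := (hw _ _ _ _ heq).2
        have := hmono 0 i (Nat.zero_le _) hi.le
        omega
      omega
    · obtain ⟨j', hj1, hj2, hj3⟩ := h3
      refine ⟨j', hj1, hj2, ?_⟩
      show w s' j ≤ w s j'
      omega
  choose! g hg c hc1 hc2 hc3 using key
  have hmaps : ∀ i ∈ Finset.range M, g i ∈ (Finset.univ : Finset Bool) ×ˢ Finset.range a := by
    intro i hi
    rw [Finset.mem_product]
    exact ⟨Finset.mem_univ _, Finset.mem_range.mpr (hg i (Finset.mem_range.mp hi))⟩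
  obtain ⟨z, hz, hcard⟩ := Finset.exists_lt_card_fiber_of_mul_lt_card_of_maps_to (n := C) hmaps (by
    simp only [Finset.card_product, Finset.card_univ, Fintype.card_bool, Finset.card_range]
    exact hM)
  have hinj : Set.InjOn c ((Finset.range M).filter (fun i => g i = z) : Finset ℕ) := by
    intro i hi j hj hij
    rw [Finset.mem_coe, Finset.mem_filter, Finset.mem_range] at hi hj
    by_contra hne
    rcases Nat.lt_or_gt_of_ne hne with hlt | hlt
    · have h2 := hmono (i+1) j (by omega) (by omega)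
      have h3 := hc2 i hi.1
      have h4 := hc1 j hj.1
      omega
    · have h2 := hmono (j+1) i (by omega) (by omega)
      have h3 := hc2 j hj.1
      have h4 := hc1 i hi.1
      omega
  have := hC s (w z.1 z.2) (((Finset.range M).filter (fun i => g i = z)).image c) (by
    intro k hk
    obtain ⟨i, hi, rfl⟩ := Finset.mem_image.mp hk
    rw [Finset.mem_filter, Finset.mem_range] at hi
    have := hc3 i hi.1
    rw [hi.2] at this
    exact this)
  rw [Finset.card_image_of_injOn hinj] at this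
  omega

end rigid

section rigid

/-- `[a,b)` is filled by process `s` during `[S,E)` while the partner process does not touch it -/
def Clean (w : Bool → ℕ → ℕ) (s : Bool) (S E a b : ℕ) : Prop :=
  (∀ j, a ≤ j → j < b → S ≤ w s j ∧ w s j < E) ∧
  (∀ j, a ≤ j → j < b → ¬ (S ≤ w (!s) j ∧ w (!s) j < E))

variable {w : Bool → ℕ → ℕ} {C : ℕ} {f : ℕ → ℝ}

lemma Bd.window {w : Bool → ℕ → ℕ} {C : ℕ} (hC : ∀ s T, Bd (fun j => w s j < T) C) (s : Bool) (S E : ℕ) :
    Bd (fun j => S ≤ w s j ∧ w s j < E) (C + C) := by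
  refine (hC s S).comb (hC s E) (fun j h => ?_)
  by_contra h2
  push Not at h2
  apply h
  obtain ⟨h3, h4⟩ := h2
  constructor
  · rintro ⟨h5, h6⟩; constructor <;> omega
  · rintro ⟨h5, h6⟩; constructor <;> omega

lemma Bd.diff {w : Bool → ℕ → ℕ} {C : ℕ} (hC : ∀ s T, Bd (fun j => w s j < T) C) (s s' : Bool) (S E : ℕ) :
    Bd (fun j => (S ≤ w s j ∧ w s j < E) ∧ ¬ (S ≤ w s' j ∧ w s' j < E)) ((C + C) + (C + C)) := by
  refine (Bd.window hC s S E).comb (Bd.window hC s' S E) (fun j h => ?_)
  by_contra h2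
  push Not at h2
  apply h
  obtain ⟨h3, h4⟩ := h2
  rw [h3, h4]

lemma Bd.remove {p : ℕ → Prop} {K : ℕ} (h : Bd p K) (a b : ℕ) :
    Bd (fun j => p j ∧ ¬ (a ≤ j ∧ j < b)) (K + 2) := by
  have h2 : Bd (fun j => a ≤ j ∧ j < b) 2 := by
    intro t ht
    have : t ⊆ {a - 1, b - 1} := by
      intro j hj
      have := ht j hj
      rw [Finset.mem_insert, Finset.mem_singleton]
      by_contra hne
      push Not at hne
      apply this
      constructor <;> intro _ <;> constructor <;> omega
    exact (Finset.card_le_card this).trans Finset.card_le_two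
  refine h.comb h2 (fun j hj => ?_)
  by_contra h3
  push Not at h3
  apply hj
  obtain ⟨h4, h5⟩ := h3
  rw [h4, h5]

lemma SS_remove {y : ℕ → ℝ} {p : ℕ → Prop} {a b N : ℕ} (hab : a ≤ b) (hbN : b ≤ N)
    (h : ∀ j, a ≤ j → j < b → p j) :
    SS y p N = SS y (fun j => p j ∧ ¬ (a ≤ j ∧ j < b)) N + (PS y b - PS y a) := by
  classical
  have h1 : PS y b - PS y a = SS y (fun j => a ≤ j ∧ j < b) N := by
    rw [PS_sub y hab]
    unfold SS
    rw [← Finset.sum_subset (s₁ := Finset.Ico a b) (s₂ := Finset.range N)]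
    · apply Finset.sum_congr rfl
      intro j hj
      rw [Finset.mem_Ico] at hj
      rw [if_pos hj]
    · intro j hj
      rw [Finset.mem_Ico] at hj
      rw [Finset.mem_range]
      omega
    · intro j _ hj
      rw [Finset.mem_Ico] at hj
      rw [if_neg hj]
  rw [h1]
  unfold SS
  rw [← Finset.sum_add_distrib]
  apply Finset.sum_congr rfl
  intro j _
  by_cases h2 : a ≤ j ∧ j < b
  · have := h j h2.1 h2.2
    simp [h2, this]
  · by_cases h3 : p j <;> simp [h2, h3]

/-- the main step -/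
lemma step (hw : ∀ s j s' j', w s j = w s' j' → s = s' ∧ j = j')
    (hC : ∀ s T, Bd (fun j => w s j < T) C) (hN : ∀ T, ∃ N, ∀ s j, w s j < T → j < N)
    (hf : ∀ T N, (∀ s j, w s j < T → j < N) →
      f T = SS x (fun j => w true j < T) N - SS x (fun j => w false j < T) N) (L : ℝ)
    (θ : ℝ) (hθ : 0 < θ) : ∃ θ₁ > 0, ∃ N₀ : ℕ, ∃ δ > 0, ∀ (s : Bool) (S E a b : ℕ),
      (∀ T, S ≤ T → T ≤ E → |f T - L| ≤ δ) → N₀ ≤ a → a ≤ b → θ ≤ |PS x b - PS x a| →
      Clean w s S E a b →
      ∃ (s' : Bool) (S' E' p q a' b' : ℕ), S ≤ S' ∧ S' < E' ∧ E' ≤ E ∧ a ≤ p ∧ p < q ∧ q ≤ b ∧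
        (∀ T, S' < T → T < E' → ∃ c, p ≤ c ∧ c + 1 < q ∧ ¬ (w s c < T ↔ w s (c+1) < T)) ∧
        a ≤ a' ∧ a' < b' ∧ (b' ≤ p ∨ q ≤ a') ∧ θ₁ ≤ |PS x b' - PS x a'| ∧ Clean w s' S' E' a' b' := by
  obtain ⟨θ', hθ', hP⟩ := Pstar θ hθ
  obtain ⟨N₀, hN₀⟩ := hP (2 * C + 1)
  set D : ℝ := 4 * C + 3 with hD
  have hDpos : 0 < D := by positivity
  refine ⟨θ' / (4 * D), by positivity, N₀, θ'/4, by positivity, ?_⟩
  intro s S E a b htol ha hab hsum hclean
  obtain ⟨M, t, hM, ht0, htM, ht, htθ⟩ := hN₀ a b ha hab hsum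
  obtain ⟨i, hi, S', E', hSE, h1, h2, h3, h4⟩ := exists_silent (M := M) hw hC s (a := a) (t := t)
    (by nlinarith) ht0 ht
  have hmono : ∀ i j, i ≤ j → j ≤ M → t i ≤ t j := by
    intro i j hij
    induction j, hij using Nat.le_induction with
    | base => intro _; exact le_rfl
    | succ j _ ih =>
      intro hj
      exact (ih (by omega)).trans (ht j (by omega)).le
  set p := t i with hp
  set q := t (i+1) with hq
  have hpa : a ≤ p := ht0.trans (hmono 0 i (Nat.zero_le _) hi.le)
  have hqb : q ≤ b := (hmono (i+1) M (by omega) le_rfl).trans htM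
  have hpq : p < q := ht i hi
  have hSS' : S ≤ S' := by
    obtain ⟨j, hj1, hj2, hj3⟩ := h2
    have := (hclean.1 j (by omega) (by omega)).1
    omega
  have hEE' : E' ≤ E := by
    obtain ⟨j, hj1, hj2, hj3⟩ := h3
    have := (hclean.1 j (by omega) (by omega)).2
    omega
  have hopen : ∀ T, S' < T → T < E' → ∃ c, p ≤ c ∧ c + 1 < q ∧ ¬ (w s c < T ↔ w s (c+1) < T) := by
    intro T hT1 hT2
    apply open_change
    · obtain ⟨j, hj1, hj2, hj3⟩ := h2
      exact ⟨j, hj1, hj2, by omega⟩
    · obtain ⟨j, hj1, hj2, hj3⟩ := h3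
      exact ⟨j, hj1, hj2, by omega⟩
  -- the compensating interval
  obtain ⟨N, hNb⟩ := hN E'
  have hqN : q ≤ N := by
    have := hNb s (q-1) (h1 (q-1) (by omega) (by omega)).2
    omega
  set A : ℕ → Prop := fun j => (S' ≤ w s j ∧ w s j < E') ∧ ¬ (S' ≤ w (!s) j ∧ w (!s) j < E') with hA
  set A' : ℕ → Prop := fun j => (S' ≤ w (!s) j ∧ w (!s) j < E') ∧ ¬ (S' ≤ w s j ∧ w s j < E') with hA'
  have hBA : Bd A ((C + C) + (C + C)) := Bd.diff hC s (!s) S' E'
  have hBA' : Bd A' ((C + C) + (C + C)) := Bd.diff hC (!s) s S' E'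
  have hJA : ∀ j, p ≤ j → j < q → A j := by
    intro j hj1 hj2
    refine ⟨h1 j hj1 hj2, ?_⟩
    intro h5
    exact hclean.2 j (by omega) (by omega) ⟨by omega, by omega⟩
  have hNA : ¬ A N := fun h => by
    have := hNb _ _ h.1.2; omega
  have hNA' : ¬ A' N := fun h => by
    have := hNb _ _ h.1.2; omega
  have hdiff : |SS x A N - SS x A' N| ≤ θ'/2 := by
    have e1 := hf E' N hNb
    have e2 := hf S' N (fun s j h => hNb s j (by omega))
    have e3 : |f E' - f S'| ≤ θ'/2 := by
      have e4 := htol E' (by omega) hEE'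
      have e5 := htol S' hSS' (by omega)
      have : f E' - f S' = (f E' - L) - (f S' - L) := by ring
      rw [this]
      have := abs_sub (f E' - L) (f S' - L)
      linarith
    have e6 : f E' - f S' = SS x A N - SS x A' N ∨ f E' - f S' = SS x A' N - SS x A N := by
      classical
      have aux : ∀ T : ℕ, True := fun _ => trivial
      rw [e1, e2]
      cases s with
      | true =>
        left
        unfold SS
        rw [← Finset.sum_sub_distrib, ← Finset.sum_sub_distrib, ← Finset.sum_sub_distrib,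
          ← Finset.sum_sub_distrib]
        apply Finset.sum_congr rfl
        intro j _
        simp only [hA, hA', Bool.not_true]
        by_cases c1 : w true j < E' <;> by_cases c2 : w true j < S' <;>
          by_cases c3 : w false j < E' <;> by_cases c4 : w false j < S' <;>
          first
            | (exfalso; omega)
            | (have d2 : ¬ S' ≤ w true j := by omega
               have d4 : ¬ S' ≤ w false j := by omega
               simp [c1, c2, c3, c4, d2, d4])
            | (have d2 : S' ≤ w true j := by omega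
               have d4 : ¬ S' ≤ w false j := by omega
               simp [c1, c2, c3, c4, d2, d4])
            | (have d2 : ¬ S' ≤ w true j := by omega
               have d4 : S' ≤ w false j := by omega
               simp [c1, c2, c3, c4, d2, d4])
            | (have d2 : S' ≤ w true j := by omega
               have d4 : S' ≤ w false j := by omega
               simp [c1, c2, c3, c4, d2, d4])
      | false =>
        right
        unfold SS
        rw [← Finset.sum_sub_distrib, ← Finset.sum_sub_distrib, ← Finset.sum_sub_distrib,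
          ← Finset.sum_sub_distrib]
        apply Finset.sum_congr rfl
        intro j _
        simp only [hA, hA', Bool.not_false]
        by_cases c1 : w true j < E' <;> by_cases c2 : w true j < S' <;>
          by_cases c3 : w false j < E' <;> by_cases c4 : w false j < S' <;>
          first
            | (exfalso; omega)
            | (have d2 : ¬ S' ≤ w true j := by omega
               have d4 : ¬ S' ≤ w false j := by omega
               simp [c1, c2, c3, c4, d2, d4])
            | (have d2 : S' ≤ w true j := by omega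
               have d4 : ¬ S' ≤ w false j := by omega
               simp [c1, c2, c3, c4, d2, d4])
            | (have d2 : ¬ S' ≤ w true j := by omega
               have d4 : S' ≤ w false j := by omega
               simp [c1, c2, c3, c4, d2, d4])
            | (have d2 : S' ≤ w true j := by omega
               have d4 : S' ≤ w false j := by omega
               simp [c1, c2, c3, c4, d2, d4])
    rcases e6 with e6 | e6
    · rw [← e6]; exact e3
    · rw [abs_sub_comm, ← e6]; exact e3
  have hrem := SS_remove (y := x) (p := A) hpq.le hqN hJA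
  have hJ : θ' ≤ |PS x q - PS x p| := htθ i hi
  have hsplit : θ'/4 ≤ |SS x (fun j => A j ∧ ¬ (p ≤ j ∧ j < q)) N| ∨ θ'/4 ≤ |SS x A' N| := by
    by_contra hno
    rw [not_or, not_le, not_le] at hno
    have e1 : PS x q - PS x p = (SS x A N - SS x A' N) - SS x (fun j => A j ∧ ¬ (p ≤ j ∧ j < q)) N
        + SS x A' N := by rw [hrem]; ring
    have e2 : |PS x q - PS x p| ≤ |SS x A N - SS x A' N| + |SS x (fun j => A j ∧ ¬ (p ≤ j ∧ j < q)) N|
        + |SS x A' N| := by
      rw [e1]
      refine (abs_add_le _ _).trans ?_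
      have := abs_sub (SS x A N - SS x A' N) (SS x (fun j => A j ∧ ¬ (p ≤ j ∧ j < q)) N)
      linarith
    linarith [hno.1, hno.2]
  have hηpos : 0 ≤ θ' / (4 * D) := by positivity
  rcases hsplit with hcase | hcase
  · -- interval inside A minus J
    obtain ⟨a', b', hab', hin, hbig⟩ : ∃ a' b', a' < b' ∧
        (∀ j, a' ≤ j → j < b' → A j ∧ ¬ (p ≤ j ∧ j < q)) ∧ θ' / (4 * D) < |PS x b' - PS x a'| := by
      by_contra hno
      have := Bd.sum_bound (y := x) (hBA.remove p q) hηpos
        (fun a b h1 h2 => by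
          by_contra h3
          exact hno ⟨a, b, h1, h2, not_le.mp h3⟩) (N := N) (fun h => hNA h.1)
      have e1 : ((C + C + (C + C) + 2 : ℕ) : ℝ) * (θ' / (4 * D)) < θ'/4 := by
        push_cast
        rw [mul_div_assoc', div_lt_div_iff₀ (by positivity) (by norm_num)]
        rw [hD]; nlinarith
      linarith
    refine ⟨s, S', E', p, q, a', b', hSS', hSE, hEE', hpa, hpq, hqb, hopen, ?_, hab', ?_, hbig.le, ?_⟩
    · by_contra hlt
      push Not at hlt
      exact h4 s a' hlt (hin a' le_rfl hab').1.1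
    · by_contra hno
      push Not at hno
      have e1 := (hin a' le_rfl hab').2
      have e2 : p ≤ a' ∨ a' < p := le_or_gt p a'
      rcases e2 with e2 | e2
      · exact e1 ⟨e2, hno.2⟩
      · exact (hin p e2.le hno.1).2 ⟨le_rfl, hpq⟩
    · exact ⟨fun j hj1 hj2 => (hin j hj1 hj2).1.1, fun j hj1 hj2 => (hin j hj1 hj2).1.2⟩
  · obtain ⟨a', b', hab', hin, hbig⟩ : ∃ a' b', a' < b' ∧
        (∀ j, a' ≤ j → j < b' → A' j) ∧ θ' / (4 * D) < |PS x b' - PS x a'| := by
      by_contra hno
      have := Bd.sum_bound (y := x) hBA' hηpos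
        (fun a b h1 h2 => by
          by_contra h3
          exact hno ⟨a, b, h1, h2, not_le.mp h3⟩) (N := N) hNA'
      have e1 : ((C + C + (C + C) : ℕ) : ℝ) * (θ' / (4 * D)) < θ'/4 := by
        push_cast
        rw [mul_div_assoc', div_lt_div_iff₀ (by positivity) (by norm_num)]
        rw [hD]; nlinarith
      linarith
    refine ⟨!s, S', E', p, q, a', b', hSS', hSE, hEE', hpa, hpq, hqb, hopen, ?_, hab', ?_, hbig.le, ?_⟩
    · by_contra hlt
      push Not at hlt
      exact h4 (!s) a' hlt (hin a' le_rfl hab').1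
    · by_contra hno
      push Not at hno
      have e2 : p ≤ a' ∨ a' < p := le_or_gt p a'
      rcases e2 with e2 | e2
      · exact (hin a' le_rfl hab').2 (hJA a' e2 hno.2).1
      · exact (hin p e2.le hno.1).2 (hJA p le_rfl hpq).1
    · refine ⟨fun j hj1 hj2 => (hin j hj1 hj2).1, fun j hj1 hj2 => ?_⟩
      rw [Bool.not_not]
      exact (hin j hj1 hj2).2

end rigid

section rigid

variable {w : Bool → ℕ → ℕ} {C : ℕ} {f : ℕ → ℝ}

/-- at time `T` there are at least `l` membership changes strictly to the left of `a` -/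
def HasL (w : Bool → ℕ → ℕ) (T a l : ℕ) : Prop :=
  ∃ t : Finset (Bool × ℕ), l ≤ t.card ∧ ∀ z ∈ t, z.2 + 1 < a ∧ ¬ (w z.1 z.2 < T ↔ w z.1 (z.2+1) < T)

/-- at time `T` there are at least `r` membership changes to the right of `b` -/
def HasR (w : Bool → ℕ → ℕ) (T b r : ℕ) : Prop :=
  ∃ t : Finset (Bool × ℕ), r ≤ t.card ∧ ∀ z ∈ t, b ≤ z.2 ∧ ¬ (w z.1 z.2 < T ↔ w z.1 (z.2+1) < T)

lemma changes_card (hC : ∀ s T, Bd (fun j => w s j < T) C) {T : ℕ} (t : Finset (Bool × ℕ))
    (ht : ∀ z ∈ t, ¬ (w z.1 z.2 < T ↔ w z.1 (z.2+1) < T)) : t.card ≤ 2 * C := by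
  classical
  have key : ∀ s : Bool, (t.filter (fun z => z.1 = s)).card ≤ C := by
    intro s
    have hinj : Set.InjOn Prod.snd ((t.filter (fun z => z.1 = s) : Finset (Bool × ℕ)) : Set (Bool × ℕ)) := by
      intro z hz z' hz' h
      rw [Finset.mem_coe, Finset.mem_filter] at hz hz'
      exact Prod.ext (hz.2.trans hz'.2.symm) h
    rw [← Finset.card_image_of_injOn hinj]
    apply hC s T
    intro j hj
    obtain ⟨z, hz, rfl⟩ := Finset.mem_image.mp hj
    rw [Finset.mem_filter] at hz
    have := ht z hz.1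
    rw [hz.2] at this
    exact this
  have h1 : t ⊆ t.filter (fun z => z.1 = true) ∪ t.filter (fun z => z.1 = false) := by
    intro z hz
    rw [Finset.mem_union, Finset.mem_filter, Finset.mem_filter]
    cases h : z.1
    · right; exact ⟨hz, rfl⟩
    · left; exact ⟨hz, rfl⟩
  calc t.card ≤ _ := Finset.card_le_card h1
    _ ≤ _ := Finset.card_union_le _ _
    _ ≤ _ := by have := key true; have := key false; omega

/-- no clean interval state with the given opens -/
def NoState (w : Bool → ℕ → ℕ) (f : ℕ → ℝ) (L : ℝ) (l r : ℕ) : Prop :=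
  ∀ θ > (0:ℝ), ∃ δ > (0:ℝ), ∃ N : ℕ, ∀ (s : Bool) (S E a b : ℕ),
    (∀ T, S ≤ T → T ≤ E → |f T - L| ≤ δ) → N ≤ a → a ≤ b → θ ≤ |PS x b - PS x a| →
    Clean w s S E a b → (∀ T, S < T → T < E → HasL w T a l) →
    (∀ T, S < T → T < E → HasR w T b r) → False

lemma exists_interior (hw : ∀ s j s' j', w s j = w s' j' → s = s' ∧ j = j') {θ : ℝ} (hθ : 0 < θ) :
    ∃ N : ℕ, ∀ (s : Bool) (S E a b : ℕ), N ≤ a → a ≤ b → θ ≤ |PS x b - PS x a| →
      Clean w s S E a b → ∃ T, S < T ∧ T < E := by
  obtain ⟨N, hN⟩ := (Metric.tendsto_atTop.mp x_tendsto) θ hθ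
  refine ⟨N, fun s S E a b ha hab hsum hcl => ?_⟩
  have h1 : a + 2 ≤ b := by
    by_contra hlt
    have h2 : b = a ∨ b = a + 1 := by omega
    rcases h2 with h2 | h2
    · subst h2; simp at hsum; linarith
    · subst h2
      have h3 := hN a ha
      rw [dist_zero_right, Real.norm_eq_abs] at h3
      rw [PS_succ] at hsum
      simp at hsum
      linarith
  have h2 := hcl.1 a le_rfl (by omega)
  have h3 := hcl.1 (a+1) (by omega) (by omega)
  have hne : w s a ≠ w s (a+1) := fun h => by have := (hw _ _ _ _ h).2; omega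
  rcases Nat.lt_or_gt_of_ne hne with h4 | h4
  · exact ⟨w s (a+1), by omega, by omega⟩
  · exact ⟨w s a, by omega, by omega⟩

lemma noState_inner (hw : ∀ s j s' j', w s j = w s' j' → s = s' ∧ j = j')
    (hC : ∀ s T, Bd (fun j => w s j < T) C) (hN : ∀ T, ∃ N, ∀ s j, w s j < T → j < N)
    (hf : ∀ T N, (∀ s j, w s j < T → j < N) →
      f T = SS x (fun j => w true j < T) N - SS x (fun j => w false j < T) N) (L : ℝ)
    (l : ℕ) (hl : NoState w f L (l+1) 0) : ∀ m r, 2 * C + 1 ≤ r + m → NoState w f L l r := by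
  intro m
  induction m with
  | zero =>
    intro r hr θ hθ
    obtain ⟨N, hN⟩ := exists_interior hw hθ
    refine ⟨1, one_pos, N, fun s S E a b _ ha hab hsum hcl _ hR => ?_⟩
    obtain ⟨T, hT1, hT2⟩ := hN s S E a b ha hab hsum hcl
    obtain ⟨t, ht1, ht2⟩ := hR T hT1 hT2
    have := changes_card hC t (fun z hz => (ht2 z hz).2)
    omega
  | succ m ih =>
    intro r hr θ hθ
    obtain ⟨θ₁, hθ₁, N₀, δ₀, hδ₀, hstep⟩ := step hw hC hN hf L θ hθ
    obtain ⟨δ₁, hδ₁, N₁, h1⟩ := hl θ₁ hθ₁
    obtain ⟨δ₂, hδ₂, N₂, h2⟩ := ih (r+1) (by omega) θ₁ hθ₁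
    refine ⟨min δ₀ (min δ₁ δ₂), lt_min hδ₀ (lt_min hδ₁ hδ₂), max N₀ (max N₁ N₂), ?_⟩
    intro s S E a b htol ha hab hsum hcl hL hR
    have ha0 : N₀ ≤ a := (le_max_left _ _).trans ha
    have ha1 : N₁ ≤ a := (le_max_left _ _).trans ((le_max_right _ _).trans ha)
    have ha2 : N₂ ≤ a := (le_max_right _ _).trans ((le_max_right _ _).trans ha)
    obtain ⟨s', S', E', p, q, a', b', hSS', hSE, hEE', hap, hpq, hqb, hopen, haa', hab', hdisj, hbig, hcl'⟩ :=
      hstep s S E a b (fun T h3 h4 => (htol T h3 h4).trans (min_le_left _ _)) ha0 hab hsum hcl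
    rcases hdisj with hd | hd
    · -- compensation to the left of J : one more right open
      refine h2 s' S' E' a' b' (fun T h3 h4 => (htol T (by omega) (by omega)).trans
        ((min_le_right _ _).trans (min_le_right _ _))) (by omega) hab'.le hbig hcl' ?_ ?_
      · intro T hT1 hT2
        obtain ⟨t, ht1, ht2⟩ := hL T (by omega) (by omega)
        exact ⟨t, ht1, fun z hz => ⟨by have := (ht2 z hz).1; omega, (ht2 z hz).2⟩⟩
      · intro T hT1 hT2
        obtain ⟨t, ht1, ht2⟩ := hR T (by omega) (by omega)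
        obtain ⟨c, hc1, hc2, hc3⟩ := hopen T hT1 hT2
        classical
        have hnot : (s, c) ∉ t := fun hmem => by have := (ht2 _ hmem).1; simp only at this; omega
        refine ⟨insert (s, c) t, by rw [Finset.card_insert_of_notMem hnot]; omega, ?_⟩
        intro z hz
        rcases Finset.mem_insert.mp hz with h5 | h5
        · subst h5; exact ⟨by simp only; omega, hc3⟩
        · exact ⟨by have := (ht2 z h5).1; omega, (ht2 z h5).2⟩
    · -- compensation to the right of J : one more left open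
      refine h1 s' S' E' a' b' (fun T h3 h4 => (htol T (by omega) (by omega)).trans
        ((min_le_right _ _).trans (min_le_left _ _))) (by omega) hab'.le hbig hcl' ?_ ?_
      · intro T hT1 hT2
        obtain ⟨t, ht1, ht2⟩ := hL T (by omega) (by omega)
        obtain ⟨c, hc1, hc2, hc3⟩ := hopen T hT1 hT2
        classical
        have hnot : (s, c) ∉ t := fun hmem => by have := (ht2 _ hmem).1; simp only at this; omega
        refine ⟨insert (s, c) t, by rw [Finset.card_insert_of_notMem hnot]; omega, ?_⟩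
        intro z hz
        rcases Finset.mem_insert.mp hz with h5 | h5
        · subst h5; exact ⟨by simp only; omega, hc3⟩
        · exact ⟨by have := (ht2 z h5).1; omega, (ht2 z h5).2⟩
      · intro T _ _
        exact ⟨∅, by simp, by simp⟩

lemma noState_all (hw : ∀ s j s' j', w s j = w s' j' → s = s' ∧ j = j')
    (hC : ∀ s T, Bd (fun j => w s j < T) C) (hN : ∀ T, ∃ N, ∀ s j, w s j < T → j < N)
    (hf : ∀ T N, (∀ s j, w s j < T → j < N) →
      f T = SS x (fun j => w true j < T) N - SS x (fun j => w false j < T) N) (L : ℝ) :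
    ∀ m l, 2 * C + 1 ≤ l + m → NoState w f L l 0 := by
  intro m
  induction m with
  | zero =>
    intro l hl θ hθ
    obtain ⟨N, hN⟩ := exists_interior hw hθ
    refine ⟨1, one_pos, N, fun s S E a b _ ha hab hsum hcl hL _ => ?_⟩
    obtain ⟨T, hT1, hT2⟩ := hN s S E a b ha hab hsum hcl
    obtain ⟨t, ht1, ht2⟩ := hL T hT1 hT2
    have := changes_card hC t (fun z hz => (ht2 z hz).2)
    omega
  | succ m ih =>
    intro l hl
    exact noState_inner hw hC hN hf L l (ih (l+1) (by omega)) (2*C+1) 0 (by omega)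

/-- the rigidity theorem -/
theorem rigid (hw : ∀ s j s' j', w s j = w s' j' → s = s' ∧ j = j')
    (hC : ∀ s T, Bd (fun j => w s j < T) C) (hN : ∀ T, ∃ N, ∀ s j, w s j < T → j < N)
    (hf : ∀ T N, (∀ s j, w s j < T → j < N) →
      f T = SS x (fun j => w true j < T) N - SS x (fun j => w false j < T) N) (L : ℝ)
    (hL : Tendsto f atTop (𝓝 L)) : L = 0 := by
  classical
  by_contra hL0
  have hLpos : 0 < |L| := abs_pos.mpr hL0
  have hno := noState_all hw hC hN hf L (2*C+1) 0 (by omega)
  set D : ℝ := 2 * C + 1 with hD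
  have hDpos : 0 < D := by positivity
  obtain ⟨δ, hδ, N, hstate⟩ := hno (|L| / (4 * D)) (by positivity)
  rw [Metric.tendsto_atTop] at hL
  obtain ⟨S₀, hS₀⟩ := hL (min δ (|L|/2)) (lt_min hδ (by positivity))
  obtain ⟨N₁, hN₁⟩ := hN S₀
  -- a late time
  obtain ⟨T, hT0, hT⟩ : ∃ T, S₀ ≤ T ∧ ∀ s j, j < max N N₁ → w s j < T := by
    refine ⟨S₀ + ∑ j ∈ Finset.range (max N N₁), (w true j + w false j + 1), by omega, ?_⟩
    intro s j hj
    have h1 : w true j + w false j + 1 ≤ ∑ j ∈ Finset.range (max N N₁), (w true j + w false j + 1) :=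
      Finset.single_le_sum (f := fun j => w true j + w false j + 1) (fun _ _ => Nat.zero_le _)
        (Finset.mem_range.mpr hj)
    cases s <;> omega
  obtain ⟨M, hM⟩ := hN T
  have hfT : |f T - L| < |L|/2 := by
    have := hS₀ T hT0
    rw [Real.dist_eq] at this
    exact this.trans_le (min_le_right _ _)
  have hfT2 : |L|/2 ≤ |f T| := by
    have := abs_sub_abs_le_abs_sub L (f T)
    rw [abs_sub_comm] at hfT
    linarith
  rw [hf T M hM] at hfT2
  set A : Bool → ℕ → Prop := fun s j => w s j < T ∧ ¬ (w (!s) j < T) with hA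
  have hBA : ∀ s, Bd (A s) (C + C) := by
    intro s
    refine (hC s T).comb (hC (!s) T) (fun j h => ?_)
    by_contra h2
    push Not at h2
    apply h
    obtain ⟨h3, h4⟩ := h2
    simp only [hA]
    rw [h3, h4]
  have heq : SS x (fun j => w true j < T) M - SS x (fun j => w false j < T) M =
      SS x (A true) M - SS x (A false) M := by
    unfold SS
    rw [← Finset.sum_sub_distrib, ← Finset.sum_sub_distrib]
    apply Finset.sum_congr rfl
    intro j _
    simp only [hA, Bool.not_true, Bool.not_false]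
    by_cases c1 : w true j < T <;> by_cases c2 : w false j < T <;> simp [c1, c2]
  rw [heq] at hfT2
  have hcase : ∃ s, |L|/4 ≤ |SS x (A s) M| := by
    by_contra hcon
    push Not at hcon
    have h1 := hcon true
    have h2 := hcon false
    have := abs_sub (SS x (A true) M) (SS x (A false) M)
    linarith
  obtain ⟨s, hs⟩ := hcase
  have hnA : ¬ A s M := fun h => by have := hM s M h.1; omega
  obtain ⟨a, b, hab, hin, hbig⟩ : ∃ a b, a < b ∧ (∀ j, a ≤ j → j < b → A s j) ∧
      |L| / (4 * D) < |PS x b - PS x a| := by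
    by_contra hno2
    have := Bd.sum_bound (y := x) (hBA s) (η := |L| / (4 * D)) (by positivity)
      (fun a b h1 h2 => by
        by_contra h3
        exact hno2 ⟨a, b, h1, h2, not_le.mp h3⟩) (N := M) hnA
    have e1 : ((C + C : ℕ) : ℝ) * (|L| / (4 * D)) < |L|/4 := by
      push_cast
      rw [mul_div_assoc', div_lt_div_iff₀ (by positivity) (by norm_num)]
      rw [hD]; nlinarith
    linarith
  have hge : ∀ j, a ≤ j → j < b → max N N₁ ≤ j := by
    intro j h1 h2
    by_contra h3
    push Not at h3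
    exact (hin j h1 h2).2 (hT (!s) j h3)
  have hS0j : ∀ j, a ≤ j → j < b → S₀ ≤ w s j := by
    intro j h1 h2
    by_contra h3
    push Not at h3
    have := hN₁ s j h3
    have := hge j h1 h2
    have := le_max_right N N₁
    omega
  refine hstate s S₀ T a b ?_ ?_ hab.le hbig.le ⟨fun j h1 h2 => ⟨hS0j j h1 h2, (hin j h1 h2).1⟩,
    fun j h1 h2 h3 => (hin j h1 h2).2 h3.2⟩ (fun T _ _ => ⟨∅, by simp, by simp⟩)
    (fun T _ _ => ⟨∅, by simp, by simp⟩)
  · intro T' h1 _
    have := hS₀ T' h1
    rw [Real.dist_eq] at this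
    exact (this.trans_le (min_le_left _ _)).le
  · exact (le_max_left _ _).trans (hge a le_rfl hab)

end rigid

open ZeroAtInfty

noncomputable def ev (m : ℕ) : C₀(ℕ, ℝ) →L[ℝ] ℝ :=
  LinearMap.mkContinuous
    { toFun := fun c => c m
      map_add' := fun _ _ => rfl
      map_smul' := fun _ _ => rfl } 1 (fun c => by
        rw [one_mul, ← ZeroAtInftyContinuousMap.norm_toBCF_eq_norm]
        exact c.toBCF.norm_coe_le_norm m)

lemma ev_apply (m : ℕ) (c : C₀(ℕ, ℝ)) : ev m c = c m := rfl

/-- the difference functional at `m` -/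
noncomputable def dv (m : ℕ) : C₀(ℕ, ℝ) →L[ℝ] ℝ := ev m - if m = 0 then 0 else ev (m-1)

lemma dv_apply (m : ℕ) (c : C₀(ℕ, ℝ)) : dv m c = c m - if m = 0 then 0 else c (m-1) := by
  unfold dv
  split_ifs <;> simp [ev_apply]

lemma sum_dv (c : C₀(ℕ, ℝ)) (n : ℕ) : ∑ m ∈ Finset.range n, dv m c = if n = 0 then 0 else c (n-1) := by
  induction n with
  | zero => simp
  | succ n ih =>
    rw [Finset.sum_range_succ, ih, dv_apply]
    simp

lemma sum_dv_tendsto (c : C₀(ℕ, ℝ)) : Tendsto (fun n => ∑ m ∈ Finset.range n, dv m c) atTop (𝓝 0) := by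
  have h1 : Tendsto (fun n => c n) atTop (𝓝 0) := by
    have := c.zero_at_infty'
    rw [cocompact_eq_cofinite, Nat.cofinite_eq_atTop] at this
    exact this
  rw [← tendsto_add_atTop_iff_nat 1]
  refine h1.congr (fun n => ?_)
  rw [sum_dv]; simp

open Classical in
/-- the signed indicator of a finite set -/
noncomputable def sgnc (t : Finset ℕ) (p : ℕ → Prop) : C₀(ℕ, ℝ) where
  toFun m := if m ∈ t then (if p m then 1 else -1) else 0
  continuous_toFun := continuous_of_discreteTopology
  zero_at_infty' := by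
    rw [cocompact_eq_cofinite]
    apply tendsto_const_nhds.congr'
    have h : ∀ᶠ m in cofinite, m ∉ t := by
      rw [eventually_cofinite]
      exact t.finite_toSet.subset (fun m hm => by simpa using hm)
    filter_upwards [h] with m hm
    rw [if_neg hm]

open Classical in
lemma sgnc_apply (t : Finset ℕ) (p : ℕ → Prop) (m : ℕ) :
    sgnc t p m = if m ∈ t then (if p m then 1 else -1) else 0 := rfl

lemma norm_sgnc (t : Finset ℕ) (p : ℕ → Prop) : ‖sgnc t p‖ ≤ 1 := by
  classical
  rw [← ZeroAtInftyContinuousMap.norm_toBCF_eq_norm]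
  rw [BoundedContinuousFunction.norm_le zero_le_one]
  intro m
  show ‖sgnc t p m‖ ≤ 1
  rw [sgnc_apply]
  split_ifs <;> simp

/-- bounded number of changes for convergence preserving permutations -/
theorem bounded_changes (σ : Equiv.Perm ℕ)
    (hσ : ∀ b : ℕ → ℝ, (∃ M : ℝ, Tendsto (fun n => ∑ i ∈ Finset.range n, b i) atTop (𝓝 M)) →
            ∃ M : ℝ, Tendsto (fun n => ∑ i ∈ Finset.range n, b (σ i)) atTop (𝓝 M)) :
    ∃ C : ℕ, ∀ T, Bd (fun n => σ.symm n < T) C := by
  classical
  set g : ℕ → C₀(ℕ, ℝ) →L[ℝ] ℝ := fun T => ∑ i ∈ Finset.range T, dv (σ i) with hg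
  have hga : ∀ T c, g T c = ∑ i ∈ Finset.range T, dv (σ i) c := by
    intro T c
    simp [hg]
  have hptw : ∀ c, ∃ K, ∀ T, ‖g T c‖ ≤ K := by
    intro c
    obtain ⟨M, hM⟩ := hσ (fun m => dv m c) ⟨0, sum_dv_tendsto c⟩
    obtain ⟨K, hK⟩ := hM.norm.bddAbove_range
    refine ⟨K, fun T => ?_⟩
    rw [hga]
    exact hK ⟨T, rfl⟩
  obtain ⟨K, hK⟩ := banach_steinhaus hptw
  refine ⟨⌊K⌋₊, fun T t ht => ?_⟩
  apply Nat.le_floor
  have h1 : g T (sgnc t (fun n => σ.symm n < T)) = (t.card : ℝ) := by
    rw [hga]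
    -- rewrite as a sum over the image
    set c := sgnc t (fun n => σ.symm n < T) with hc
    obtain ⟨N, hN0, hN1, hN2⟩ : ∃ N, 0 < N ∧ (∀ i < T, σ i < N) ∧ (∀ j ∈ t, j + 1 < N) := by
      refine ⟨(∑ i ∈ Finset.range T, σ i) + (∑ j ∈ t, (j+1)) + 1, by omega, ?_, ?_⟩
      · intro i hi
        have h5 : σ i ≤ ∑ i ∈ Finset.range T, σ i :=
          Finset.single_le_sum (f := fun i => σ i) (fun _ _ => Nat.zero_le _) (Finset.mem_range.mpr hi)
        omega
      · intro j hj
        have h5 : j + 1 ≤ ∑ j ∈ t, (j+1) :=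
          Finset.single_le_sum (f := fun j => j+1) (fun _ _ => Nat.zero_le _) hj
        omega
    have h2 : ∑ i ∈ Finset.range T, dv (σ i) c = ∑ m ∈ Finset.range N, if σ.symm m < T then dv m c else 0 := by
      rw [← Finset.sum_filter]
      refine Finset.sum_bij (fun i _ => σ i) ?_ ?_ ?_ ?_
      · intro i hi
        rw [Finset.mem_range] at hi
        rw [Finset.mem_filter, Finset.mem_range, Equiv.symm_apply_apply]
        exact ⟨hN1 i hi, hi⟩
      · intro i _ j _ h; exact σ.injective h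
      · intro m hm
        rw [Finset.mem_filter] at hm
        exact ⟨σ.symm m, Finset.mem_range.mpr hm.2, by simp⟩
      · intro i _; rfl
    rw [h2]
    -- summation by parts
    have h3 : ∀ n, ∑ m ∈ Finset.range n, (if σ.symm m < T then dv m c else 0) =
        ∑ m ∈ Finset.range (n-1), c m * ((if σ.symm m < T then (1:ℝ) else 0) - (if σ.symm (m+1) < T then 1 else 0))
          + (if n = 0 then 0 else c (n-1) * (if σ.symm (n-1) < T then (1:ℝ) else 0)) := by
      intro n
      induction n with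
      | zero => simp
      | succ n ih =>
        rw [Finset.sum_range_succ, ih, dv_apply]
        rcases Nat.eq_zero_or_pos n with h0 | h0
        · subst h0; simp
        · obtain ⟨k, rfl⟩ : ∃ k, n = k + 1 := ⟨n-1, by omega⟩
          simp only [Nat.add_sub_cancel, Nat.succ_ne_zero, if_false]
          rw [Finset.sum_range_succ]
          by_cases c1 : σ.symm k < T <;> by_cases c2 : σ.symm (k+1) < T <;> simp [c1, c2] <;> ring
    rw [h3 N]
    have hlast : c (N-1) = 0 := by
      rw [hc, sgnc_apply, if_neg]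
      intro hmem
      have := hN2 _ hmem
      omega
    rw [if_neg hN0.ne', hlast, zero_mul, add_zero]
    have h4 : ∀ m ∈ Finset.range (N-1), c m * ((if σ.symm m < T then (1:ℝ) else 0) -
        (if σ.symm (m+1) < T then 1 else 0)) = if m ∈ t then 1 else 0 := by
      intro m _
      rw [hc, sgnc_apply]
      by_cases hm : m ∈ t
      · have h5 := ht m hm
        rw [if_pos hm, if_pos hm]
        by_cases c1 : σ.symm m < T
        · have c2 : ¬ σ.symm (m+1) < T := fun h6 => h5 ⟨fun _ => h6, fun _ => c1⟩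
          simp [c1, c2]
        · have c2 : σ.symm (m+1) < T := by
            by_contra h6
            exact h5 ⟨fun h => absurd h c1, fun h => absurd h h6⟩
          simp [c1, c2]
      · rw [if_neg hm, if_neg hm, zero_mul]
    rw [Finset.sum_congr rfl h4, Finset.sum_ite_mem]
    have h5 : Finset.range (N-1) ∩ t = t := by
      rw [Finset.inter_eq_right]
      intro j hj
      have := hN2 j hj
      rw [Finset.mem_range]; omega
    rw [h5]; simp
  calc (t.card : ℝ) = ‖g T (sgnc t (fun n => σ.symm n < T))‖ := by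
        rw [h1]; simp
    _ ≤ ‖g T‖ * ‖sgnc t (fun n => σ.symm n < T)‖ := (g T).le_opNorm _
    _ ≤ K * 1 := by
        apply mul_le_mul (hK T) (norm_sgnc _ _) (norm_nonneg _)
        exact (norm_nonneg _).trans (hK T)
    _ = K := mul_one K

/-- the epoch of a code -/
noncomputable def kap (j : ℕ) : ℕ := Classical.choose (exists_epoch j)

lemma kap_spec (j : ℕ) : e (kap j) ≤ j ∧ j < e (kap j + 1) := Classical.choose_spec (exists_epoch j)

lemma kap_unique {j k : ℕ} (h1 : e k ≤ j) (h2 : j < e (k+1)) : kap j = k := by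
  obtain ⟨h3, h4⟩ := kap_spec j
  rcases Nat.lt_trichotomy (kap j) k with h | h | h
  · have : e (kap j + 1) ≤ e k := e_strictMono.monotone (by omega)
    omega
  · exact h
  · have : e (k + 1) ≤ e (kap j) := e_strictMono.monotone (by omega)
    omega

lemma kap_mono {i j : ℕ} (h : i ≤ j) : kap i ≤ kap j := by
  by_contra hlt
  have h1 : e (kap j + 1) ≤ e (kap i) := e_strictMono.monotone (by omega)
  have := kap_spec i
  have := kap_spec j
  omega

noncomputable def posU (j : ℕ) : ℕ := e (kap j) + j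
noncomputable def posD (j : ℕ) : ℕ := e (kap j + 1) + j

lemma posU_strictMono : StrictMono posU := by
  intro i j h
  have := e_strictMono.monotone (kap_mono h.le)
  unfold posU; omega

lemma posD_strictMono : StrictMono posD := by
  intro i j h
  have := e_strictMono.monotone (Nat.succ_le_succ (kap_mono h.le))
  unfold posD
  simp only [Nat.succ_eq_add_one] at this
  omega

noncomputable def fwd (m : ℕ) : ℕ := if m % 2 = 0 then posU (m/2) else posD (m/2)

noncomputable def bwd (n : ℕ) : ℕ :=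
  if n < e (kap (n/2)) + e (kap (n/2) + 1) then 2 * (n - e (kap (n/2)))
  else 2 * (n - e (kap (n/2) + 1)) + 1

lemma bwd_fwd (m : ℕ) : bwd (fwd m) = m := by
  obtain ⟨h1, h2⟩ := kap_spec (m/2)
  unfold fwd
  split_ifs with h
  · have h3 : kap (posU (m/2) / 2) = kap (m/2) := by
      apply kap_unique <;> unfold posU <;> omega
    unfold bwd
    rw [h3]
    unfold posU
    rw [if_pos (by omega)]
    omega
  · have h3 : kap (posD (m/2) / 2) = kap (m/2) := by
      apply kap_unique <;> unfold posD <;> omega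
    unfold bwd
    rw [h3]
    unfold posD
    rw [if_neg (by omega)]
    omega

lemma fwd_bwd (n : ℕ) : fwd (bwd n) = n := by
  obtain ⟨h1, h2⟩ := kap_spec (n/2)
  unfold bwd
  split_ifs with h
  · unfold fwd
    rw [if_pos (by omega)]
    have h4 : 2 * (n - e (kap (n/2))) / 2 = n - e (kap (n/2)) := by omega
    rw [h4]
    have h3 : kap (n - e (kap (n/2))) = kap (n/2) := kap_unique (by omega) (by omega)
    unfold posU
    rw [h3]; omega
  · unfold fwd
    rw [if_neg (by omega)]
    have h4 : (2 * (n - e (kap (n/2) + 1)) + 1) / 2 = n - e (kap (n/2) + 1) := by omega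
    rw [h4]
    have h3 : kap (n - e (kap (n/2) + 1)) = kap (n/2) := kap_unique (by omega) (by omega)
    unfold posD
    rw [h3]; omega

noncomputable def tau : Equiv.Perm ℕ where
  toFun := fwd
  invFun := bwd
  left_inv := bwd_fwd
  right_inv := fwd_bwd

lemma tau_even (j : ℕ) : tau (2*j) = posU j := by
  show fwd (2*j) = posU j
  unfold fwd
  rw [if_pos (by omega)]
  congr 1; omega

lemma tau_odd (j : ℕ) : tau (2*j+1) = posD j := by
  show fwd (2*j+1) = posD j
  unfold fwd
  rw [if_neg (by omega)]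
  congr 1; omega

noncomputable def z (m : ℕ) : ℝ := if m % 2 = 0 then x (m/2) else - x (m/2)

lemma z_even (j : ℕ) : z (2*j) = x j := by
  unfold z; rw [if_pos (by omega)]; congr 1; omega

lemma z_odd (j : ℕ) : z (2*j+1) = - x j := by
  unfold z; rw [if_neg (by omega)]; congr 2; omega

/-- the series -/
noncomputable def a (n : ℕ) : ℝ := z (tau.symm n)

lemma a_tau (i : ℕ) : a (tau i) = z i := by unfold a; rw [Equiv.symm_apply_apply]

/-- even rearranged partial sums in terms of ordinary partial sums -/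
lemma even_sum (b : ℕ → ℝ) (j : ℕ) : ∑ i ∈ Finset.range (2*j), b (tau i) =
    PS b (e (kap j) + j) + PS b (e (kap j + 1) + j) - PS b (e (kap j) + e (kap j + 1)) := by
  induction j with
  | zero =>
    have h : kap 0 = 0 := kap_unique (by rw [e_zero]) (lt_of_lt_of_le Nat.zero_lt_one (le_e 1))
    rw [h, e_zero]
    simp [PS]
  | succ j ih =>
    have h1 : 2 * (j+1) = 2*j + 1 + 1 := by ring
    rw [h1, Finset.sum_range_succ, Finset.sum_range_succ, ih, tau_even, tau_odd]
    unfold posU posD
    obtain ⟨h3, h4⟩ := kap_spec j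
    have e1 : PS b (e (kap j) + j) + b (e (kap j) + j) = PS b (e (kap j) + (j+1)) := by
      rw [← add_assoc, PS_succ]
    have e2 : PS b (e (kap j + 1) + j) + b (e (kap j + 1) + j) = PS b (e (kap j + 1) + (j+1)) := by
      rw [← add_assoc, PS_succ]
    rcases Nat.lt_or_ge (j+1) (e (kap j + 1)) with h5 | h5
    · have h6 : kap (j+1) = kap j := kap_unique (by omega) h5
      rw [h6]; linarith
    · have h7 : j + 1 = e (kap j + 1) := by omega
      have h6 : kap (j+1) = kap j + 1 := kap_unique h7.ge (by rw [h7]; exact e_strictMono (Nat.lt_succ_self _))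
      rw [h6]
      have e3 : e (kap j) + (j+1) = e (kap j) + e (kap j + 1) := by omega
      have e4 : e (kap j + 1 + 1) + (j+1) = e (kap j + 1) + e (kap j + 1 + 1) := by omega
      rw [e3] at e1
      rw [e4]; linarith

lemma preserving (b : ℕ → ℝ) (hb : ∃ M : ℝ, Tendsto (fun n => ∑ i ∈ Finset.range n, b i) atTop (𝓝 M)) :
    ∃ M : ℝ, Tendsto (fun n => ∑ i ∈ Finset.range n, b (tau i)) atTop (𝓝 M) := by
  obtain ⟨M, hM⟩ := hb
  have hPS : Tendsto (PS b) atTop (𝓝 M) := hM
  have hge : ∀ (g : ℕ → ℕ), (∀ j, j ≤ g j) → Tendsto (fun j => PS b (g j)) atTop (𝓝 M) :=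
    fun g hg => hPS.comp (tendsto_atTop_mono hg tendsto_id)
  have h1 : Tendsto (fun j => ∑ i ∈ Finset.range (2*j), b (tau i)) atTop (𝓝 M) := by
    have h2 := ((hge (fun j => e (kap j) + j) (fun j => by omega)).add
      (hge (fun j => e (kap j + 1) + j) (fun j => by omega))).sub
      (hge (fun j => e (kap j) + e (kap j + 1)) (fun j => by have := kap_spec j; omega))
    have h3 : M + M - M = M := by ring
    rw [h3] at h2
    exact h2.congr (fun j => (even_sum b j).symm)
  have hb0 : Tendsto b atTop (𝓝 0) := by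
    have h2 := (hPS.comp (tendsto_add_atTop_nat 1)).sub hPS
    rw [sub_self] at h2
    refine h2.congr (fun n => ?_)
    simp only [Function.comp]
    rw [PS_succ]; ring
  have h4 : Tendsto (fun j => b (tau (2*j))) atTop (𝓝 0) := by
    have : Tendsto (fun j => posU j) atTop atTop := posU_strictMono.tendsto_atTop
    refine (hb0.comp this).congr (fun j => ?_)
    simp only [Function.comp]; rw [tau_even]
  have hhalf : Tendsto (fun n : ℕ => n / 2) atTop atTop := Nat.tendsto_div_const_atTop (by norm_num)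
  refine ⟨M, ?_⟩
  have h5 : Tendsto (fun n => ∑ i ∈ Finset.range (2*(n/2)), b (tau i) +
      (if n % 2 = 0 then 0 else b (tau (2*(n/2))))) atTop (𝓝 (M + 0)) := by
    refine (h1.comp hhalf).add ?_
    have h6 := h4.comp hhalf
    rw [tendsto_zero_iff_abs_tendsto_zero] at h6 ⊢
    refine squeeze_zero (fun _ => abs_nonneg _) (fun n => ?_) h6
    simp only [Function.comp]
    split_ifs
    · simp
    · exact le_rfl
  rw [add_zero] at h5
  refine h5.congr (fun n => ?_)
  rcases Nat.mod_two_eq_zero_or_one n with h7 | h7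
  · rw [if_pos h7, add_zero]
    congr 2; omega
  · rw [if_neg (by omega)]
    have h8 : n = 2*(n/2) + 1 := by omega
    conv_rhs => rw [h8]
    rw [Finset.sum_range_succ]

lemma sum_z_even (j : ℕ) : ∑ i ∈ Finset.range (2*j), z i = 0 := by
  induction j with
  | zero => simp
  | succ j ih =>
    have h1 : 2 * (j+1) = 2*j + 1 + 1 := by ring
    rw [h1, Finset.sum_range_succ, Finset.sum_range_succ, ih, z_even, z_odd]; ring

lemma sum_tau : Tendsto (fun n => ∑ i ∈ Finset.range n, a (tau i)) atTop (𝓝 0) := by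
  have hhalf : Tendsto (fun n : ℕ => n / 2) atTop atTop := Nat.tendsto_div_const_atTop (by norm_num)
  have h6 := x_tendsto.comp hhalf
  rw [tendsto_zero_iff_abs_tendsto_zero] at h6 ⊢
  refine squeeze_zero (fun _ => abs_nonneg _) (fun n => ?_) h6
  simp only [Function.comp]
  have h0 : ∑ i ∈ Finset.range n, a (tau i) = ∑ i ∈ Finset.range n, z i :=
    Finset.sum_congr rfl (fun i _ => a_tau i)
  rw [h0]
  rcases Nat.mod_two_eq_zero_or_one n with h7 | h7
  · have h8 : n = 2*(n/2) := by omega
    rw [h8, sum_z_even]; simp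
  · have h8 : n = 2*(n/2) + 1 := by omega
    have h9 : ∑ i ∈ Finset.range n, z i = x (n/2) := by
      rw [h8, Finset.sum_range_succ, sum_z_even, z_even]
      simp only [zero_add]
      congr 1; omega
    rw [h9]

lemma a_posU {k j : ℕ} (h1 : e k ≤ j) (h2 : j < e (k+1)) : a (e k + j) = x j := by
  have : e k + j = tau (2*j) := by rw [tau_even]; unfold posU; rw [kap_unique h1 h2]
  rw [this, a_tau, z_even]

lemma PS_a_start (k : ℕ) : PS a (2 * e k) = 0 := by
  have h1 := even_sum a (e k)
  have h2 : kap (e k) = k := kap_unique le_rfl (e_strictMono (Nat.lt_succ_self k))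
  rw [h2] at h1
  have h0 : ∑ i ∈ Finset.range (2 * e k), a (tau i) = 0 := by
    rw [Finset.sum_congr rfl (fun i _ => a_tau i), sum_z_even]
  rw [h0] at h1
  have h3 : e (k+1) + e k = e k + e (k+1) := by ring
  rw [h3] at h1
  have h4 : 2 * e k = e k + e k := by ring
  rw [h4]; linarith

lemma PS_a_top (k : ℕ) : PS a (e k + e (k+1)) = 1 := by
  have h1 := PS_a_start k
  have h2 : ∀ j, e k ≤ j → j ≤ e (k+1) → PS a (e k + j) - PS a (e k + e k) = PS x j - PS x (e k) := by
    intro j hj
    induction j, hj using Nat.le_induction with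
    | base => intro _; ring
    | succ j hj ih =>
      intro h3
      have h4 := ih (by omega)
      rw [← add_assoc, PS_succ, PS_succ, a_posU hj (by omega)]
      linarith
  have h3 := h2 (e (k+1)) (e_strictMono (Nat.lt_succ_self k)).le le_rfl
  rw [epoch_sum] at h3
  have h4 : 2 * e k = e k + e k := by ring
  rw [h4] at h1
  linarith

lemma a_diverges : ¬ ∃ L : ℝ, Tendsto (fun n => ∑ i ∈ Finset.range n, a i) atTop (𝓝 L) := by
  rintro ⟨L, hL⟩
  have hL' : Tendsto (PS a) atTop (𝓝 L) := hL
  have h1 : Tendsto (fun k => PS a (2 * e k)) atTop (𝓝 L) :=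
    hL'.comp (tendsto_atTop_mono (fun k => by
      have := le_e k
      show k ≤ 2 * e k
      omega) tendsto_id)
  have h2 : Tendsto (fun k => PS a (e k + e (k+1))) atTop (𝓝 L) :=
    hL'.comp (tendsto_atTop_mono (fun k => by
      have := le_e k
      show k ≤ e k + e (k+1)
      omega) tendsto_id)
  have h3 : L = 0 := tendsto_nhds_unique h1 (by simp only [PS_a_start]; exact tendsto_const_nhds)
  have h4 : L = 1 := tendsto_nhds_unique h2 (by simp only [PS_a_top]; exact tendsto_const_nhds)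
  rw [h3] at h4
  exact zero_ne_one h4

lemma sum_two_mul (g : ℕ → ℝ) (N : ℕ) : ∑ m ∈ Finset.range (2*N), g m =
    ∑ j ∈ Finset.range N, (g (2*j) + g (2*j+1)) := by
  induction N with
  | zero => simp
  | succ N ih =>
    have h1 : 2 * (N+1) = 2*N + 1 + 1 := by ring
    rw [h1, Finset.sum_range_succ, Finset.sum_range_succ, ih, Finset.sum_range_succ]; ring

theorem only_zero (σ : Equiv.Perm ℕ)
    (hσ : ∀ b : ℕ → ℝ, (∃ M : ℝ, Tendsto (fun n => ∑ i ∈ Finset.range n, b i) atTop (𝓝 M)) →
            ∃ M : ℝ, Tendsto (fun n => ∑ i ∈ Finset.range n, b (σ i)) atTop (𝓝 M)) (L : ℝ)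
    (hL : Tendsto (fun n => ∑ i ∈ Finset.range n, a (σ i)) atTop (𝓝 L)) : L = 0 := by
  classical
  obtain ⟨C, hC⟩ := bounded_changes σ hσ
  set w : Bool → ℕ → ℕ := fun s j => σ.symm (tau (if s then 2*j else 2*j+1)) with hwdef
  refine rigid (w := w) (C := C) ?_ ?_ ?_ ?_ L hL
  · intro s j s' j' h
    simp only [hwdef] at h
    have h1 := tau.injective (σ.symm.injective h)
    cases s <;> cases s' <;> simp at h1 ⊢ <;> omega
  · intro s T
    cases s with
    | true =>
      have := (hC T).comp posU_strictMono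
      refine this.comb (C₂ := 0) (q := fun _ => True) (fun t ht => ?_) (fun j h => ?_)
      · have : t = ∅ := by
          rw [Finset.eq_empty_iff_forall_notMem]
          intro j hj
          exact ht j hj Iff.rfl
        simp [this]
      · left
        simp only [hwdef, if_true, tau_even] at h
        exact h
    | false =>
      have := (hC T).comp posD_strictMono
      refine this.comb (C₂ := 0) (q := fun _ => True) (fun t ht => ?_) (fun j h => ?_)
      · have : t = ∅ := by
          rw [Finset.eq_empty_iff_forall_notMem]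
          intro j hj
          exact ht j hj Iff.rfl
        simp [this]
      · left
        simp only [hwdef, Bool.false_eq_true, if_false, tau_odd] at h
        exact h
  · intro T
    refine ⟨(∑ i ∈ Finset.range T, tau.symm (σ i)) + 1, fun s j h => ?_⟩
    have h1 : tau.symm (σ (w s j)) ≤ ∑ i ∈ Finset.range T, tau.symm (σ i) :=
      Finset.single_le_sum (f := fun i => tau.symm (σ i)) (fun _ _ => Nat.zero_le _) (Finset.mem_range.mpr h)
    have h2 : tau.symm (σ (w s j)) = if s then 2*j else 2*j+1 := by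
      simp only [hwdef, Equiv.apply_symm_apply, Equiv.symm_apply_apply]
    rw [h2] at h1
    split_ifs at h1 <;> omega
  · intro T N hN
    have h2 : ∑ i ∈ Finset.range T, a (σ i) =
        ∑ m ∈ Finset.range (2*N), if σ.symm (tau m) < T then z m else 0 := by
      rw [← Finset.sum_filter]
      refine Finset.sum_bij (fun i _ => tau.symm (σ i)) ?_ ?_ ?_ ?_
      · intro i hi
        rw [Finset.mem_range] at hi
        rw [Finset.mem_filter, Finset.mem_range, Equiv.apply_symm_apply, Equiv.symm_apply_apply]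
        refine ⟨?_, hi⟩
        rcases Nat.mod_two_eq_zero_or_one (tau.symm (σ i)) with h | h
        · have h3 : w true (tau.symm (σ i) / 2) = i := by
            simp only [hwdef, if_true]
            have : 2 * (tau.symm (σ i) / 2) = tau.symm (σ i) := by omega
            rw [this]; simp
          have := hN true (tau.symm (σ i) / 2) (by rw [h3]; exact hi)
          omega
        · have h3 : w false (tau.symm (σ i) / 2) = i := by
            simp only [hwdef, Bool.false_eq_true, if_false]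
            have : 2 * (tau.symm (σ i) / 2) + 1 = tau.symm (σ i) := by omega
            rw [this]; simp
          have := hN false (tau.symm (σ i) / 2) (by rw [h3]; exact hi)
          omega
      · intro i _ j _ h; exact σ.injective (tau.symm.injective h)
      · intro m hm
        rw [Finset.mem_filter] at hm
        exact ⟨σ.symm (tau m), Finset.mem_range.mpr hm.2, by simp⟩
      · intro i _; rfl
    rw [h2, sum_two_mul]
    unfold SS
    rw [← Finset.sum_sub_distrib]
    apply Finset.sum_congr rfl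
    intro j _
    rw [z_even, z_odd]
    simp only [hwdef, if_true, Bool.false_eq_true, if_false]
    by_cases c1 : σ.symm (tau (2*j)) < T <;> by_cases c2 : σ.symm (tau (2*j+1)) < T <;>
      simp [c1, c2, sub_eq_add_neg]

/-- There is a divergent real series, convergent under some rearrangement, such that some real number is a sum of it under a λ-permutation and some real number is not. -/
theorem result :
    ∃ a : ℕ → ℝ,
      (¬ ∃ L : ℝ, Tendsto (fun n => ∑ i ∈ Finset.range n, a i) atTop (𝓝 L)) ∧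
      (∃ τ : Equiv.Perm ℕ, ∃ L : ℝ,
        Tendsto (fun n => ∑ i ∈ Finset.range n, a (τ i)) atTop (𝓝 L)) ∧
      (∃ L : ℝ, ∃ σ : Equiv.Perm ℕ,
        ((∀ b : ℕ → ℝ,
            (∃ M : ℝ, Tendsto (fun n => ∑ i ∈ Finset.range n, b i) atTop (𝓝 M)) →
            ∃ M : ℝ, Tendsto (fun n => ∑ i ∈ Finset.range n, b (σ i)) atTop (𝓝 M)) ∧
          (∃ b : ℕ → ℝ,
            (¬ ∃ M : ℝ, Tendsto (fun n => ∑ i ∈ Finset.range n, b i) atTop (𝓝 M)) ∧
            ∃ M : ℝ, Tendsto (fun n => ∑ i ∈ Finset.range n, b (σ i)) atTop (𝓝 M))) ∧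
        Tendsto (fun n => ∑ i ∈ Finset.range n, a (σ i)) atTop (𝓝 L)) ∧
      (∃ L : ℝ, ¬ ∃ σ : Equiv.Perm ℕ,
        ((∀ b : ℕ → ℝ,
            (∃ M : ℝ, Tendsto (fun n => ∑ i ∈ Finset.range n, b i) atTop (𝓝 M)) →
            ∃ M : ℝ, Tendsto (fun n => ∑ i ∈ Finset.range n, b (σ i)) atTop (𝓝 M)) ∧
          (∃ b : ℕ → ℝ,
            (¬ ∃ M : ℝ, Tendsto (fun n => ∑ i ∈ Finset.range n, b i) atTop (𝓝 M)) ∧
            ∃ M : ℝ, Tendsto (fun n => ∑ i ∈ Finset.range n, b (σ i)) atTop (𝓝 M))) ∧
        Tendsto (fun n => ∑ i ∈ Finset.range n, a (σ i)) atTop (𝓝 L)) := by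
  refine ⟨a, a_diverges, ⟨tau, 0, sum_tau⟩, ⟨0, tau, ⟨preserving, a, a_diverges, 0, sum_tau⟩, sum_tau⟩, 1, ?_⟩
  rintro ⟨σ, ⟨hσ, _⟩, hL⟩
  exact one_ne_zero (only_zero σ hσ 1 hL)

end Pool.Agent.S04169
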