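import Pool.Statements.S04174
import Pool.Agent.Helper859.Br.Half
import Pool.Agent.Helper859.Br.U1
import Pool.Agent.Helper859.Br.U2
import Pool.Agent.Helper859.Br.U3
import Pool.Agent.Helper859.Br.U4
import Pool.Agent.Helper859.Br.U5
import Pool.Agent.Helper859.Br.U6
import Pool.Agent.Helper859.Br.Z1
import Pool.Agent.Helper859.Br.Z2
import Pool.Agent.Helper859.Br.Z3

set_option autoImplicit false
open Pool Pool.MP_d7a79b_an

namespace Pool.Agent.S04174

/-- The negation of the preceding statement: The least upper bound of ∣a₂∣ = ∣f''(0)∣/2 over normalized univalent maps f of the unit disc whose local inverse at 0 continues to a univalent holomorphic map of the disc equals √2. -/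
theorem result :
    ¬ (IsLUB {r : ℝ | ∃ f : ℂ → ℂ,
      DifferentiableOn ℂ f (Metric.ball (0 : ℂ) 1) ∧
      Set.InjOn f (Metric.ball (0 : ℂ) 1) ∧
      f 0 = 0 ∧ deriv f 0 = 1 ∧
      (∃ g : ℂ → ℂ, DifferentiableOn ℂ g (Metric.ball (0 : ℂ) 1) ∧
        Set.InjOn g (Metric.ball (0 : ℂ) 1) ∧
        ∀ᶠ z in nhds (0 : ℂ), g (f z) = z) ∧
      r = ‖iteratedDeriv 2 f 0‖ / 2} (Real.sqrt 2)) := by
  intro hl
  have key : Real.sqrt 2 ≤ 707 / 500 := by
    apply hl.2
    rintro r ⟨f, df, jf, f0, f1, ⟨g, dg, jg, hgf⟩, rfl⟩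
    refine Helper859.Br.Z3.gen_case ?_ df jf f0 f1 dg jg hgf
    intro f g df jf f0 f1 dg jg hgf bf bg
    exact Helper859.Br.Z3.bdd_case Helper859.Br.Z1.oddT Helper859.Br.Z1.oddT_inv
      (Helper859.Br.U6.unif Helper859.Br.U1.tri_nonempty Helper859.Br.U1.tri_deriv Helper859.Br.U2.tri_max
        Helper859.Br.U3.tri_step Helper859.Br.U4.inter_conn Helper859.Br.U5.zside Helper859.Br.U5.near0
        (fun {F G P Q k C} h iF dF F0 oF hcov hconn => Helper859.Br.U5.oddPQ (G := G) h iF dF F0 oF hcov hconn))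
      Helper859.Br.K1.exY Helper859.Br.Half.half Helper859.Br.Z2.coef_cmp df jf f0 f1 dg jg hgf bf bg
  have h2 : (707 / 500 : ℝ) < Real.sqrt 2 := by
    apply Real.lt_sqrt_of_sq_lt
    norm_num
  linarith

end Pool.Agent.S04174
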