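import Pool.Statements.S04182
import Pool.Agent.Helper871.Geo2

set_option autoImplicit false
open Pool Pool.MP_d85bbb_an

namespace Pool.Agent.S04182

/-- The negation of the preceding statement: In a real reflexive Banach space with Gâteaux differentiable norm, if every operator from a closed subspace E into any C(K) extends to X with norm at most (1+ε) times its own for every ε>0, then each extends with equal norm. -/
theorem result :
    ¬ (∀ (X : Type) [NormedAddCommGroup X] [NormedSpace ℝ X] [CompleteSpace X],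
      Function.Surjective (NormedSpace.inclusionInDoubleDual ℝ X) →
      (∀ x : X, x ≠ 0 → ∃ f : X →L[ℝ] ℝ,
          ∀ v : X, HasLineDerivAt ℝ (fun y : X => ‖y‖) (f v) x v) →
      ∀ E : Subspace ℝ X, IsClosed (E : Set X) →
        (∀ ε : ℝ, 0 < ε →
          ∀ (K : Type) [TopologicalSpace K] [CompactSpace K] [T2Space K]
            (T : ↥E →L[ℝ] C(K, ℝ)),
            ∃ S : X →L[ℝ] C(K, ℝ), (∀ e : ↥E, S (e : X) = T e) ∧ ‖S‖ ≤ (1 + ε) * ‖T‖) →
        ∀ (K : Type) [TopologicalSpace K] [CompactSpace K] [T2Space K]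
          (T : ↥E →L[ℝ] C(K, ℝ)),
          ∃ S : X →L[ℝ] C(K, ℝ), (∀ e : ↥E, S (e : X) = T e) ∧ ‖S‖ ≤ ‖T‖) := by
  intro h
  exact Helper871.Geo2.no_ext (h Helper871.Geo2.X
    (Helper871.Renorm.reflexive_transfer Helper871.Geo2.φ Helper871.Geo2.H_refl)
    Helper871.Geo2.gateaux Helper871.Geo2.E Helper871.Geo2.E_closed
    (fun ε hε K _ _ _ T => Helper871.Geo2.ep_property ε hε T) (OnePoint ℕ) Helper871.Geo2.T1)

end Pool.Agent.S04182
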