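import Pool.Statements.S04187
import Pool.Agent.Helper176.WGInd

set_option autoImplicit false
open Pool Pool.MP_d939a7_an

namespace Pool.Agent.S04187

/-- Every real Banach space that is the dense range of an operator from an Asplund space, is WLD (linearly dense set countably supporting the dual), and has density above aleph_1 contains a weakly compact set with dense span. -/
theorem result :
  ∀ (X : Type) [NormedAddCommGroup X] [NormedSpace ℝ X] [CompleteSpace X],
    (∃ (Y : Type) (_ : NormedAddCommGroup Y) (_ : NormedSpace ℝ Y) (_ : CompleteSpace Y),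
      (∀ S : Submodule ℝ Y, TopologicalSpace.IsSeparable (S : Set Y) →
          TopologicalSpace.SeparableSpace (S →L[ℝ] ℝ)) ∧
      ∃ T : Y →L[ℝ] X, DenseRange T) →
    (∃ M : Set X, Dense (Submodule.span ℝ M : Set X) ∧
      ∀ f : X →L[ℝ] ℝ, {x ∈ M | f x ≠ 0}.Countable) →
    (∀ s : Set X, Dense s → Cardinal.aleph 1 < Cardinal.mk s) →
    ∃ K : Set X, IsCompact (toWeakSpace ℝ X '' K) ∧
      Dense (Submodule.span ℝ K : Set X) := by
  intro X _ _ _ hY hM _
  obtain ⟨Y, _, _, _, hY, T, hT⟩ := hY
  obtain ⟨M, hM1, hM2⟩ := hM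
  obtain ⟨W, hW1, _, hW3⟩ := Pool.Agent.Helper176.WG.main_ind hY _ X T hT M hM1 hM2 rfl
  refine ⟨insert 0 W, ?_, hW1.mono (Submodule.span_mono (Set.subset_insert 0 W))⟩
  have h1 : toWeakSpace ℝ X '' (insert 0 W) =
      insert (toWeakSpace ℝ X 0) (Set.range fun w : W => toWeakSpace ℝ X (w : X)) := by
    rw [Set.image_insert_eq]
    congr 1
    ext x
    simp
  rw [h1]
  refine Filter.Tendsto.isCompact_insert_range_of_cofinite ?_
  have hind : Topology.IsInducing fun (x : WeakSpace ℝ X) (f : StrongDual ℝ X) =>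
      f ((toWeakSpace ℝ X).symm x) := ⟨rfl⟩
  rw [hind.tendsto_nhds_iff, tendsto_pi_nhds]
  intro f
  show Filter.Tendsto (fun w : W => f (w : X)) Filter.cofinite (nhds (f 0))
  rw [map_zero, Metric.tendsto_nhds]
  intro ε hε
  rw [Filter.eventually_cofinite]
  have h2 := hW3 f (ε / 2) (half_pos hε)
  refine Set.Finite.subset (h2.preimage Subtype.val_injective.injOn) ?_
  intro w hw
  rw [Set.mem_ofPred_eq, not_lt, dist_zero_right, Real.norm_eq_abs] at hw
  exact ⟨w.2, lt_of_lt_of_le (half_lt_self hε) hw⟩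

end Pool.Agent.S04187
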