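import Pool.Statements.S04192
import Pool.Agent.Helper234.Exact.Y9

set_option autoImplicit false
open Pool Pool.MP_d99be0_an

namespace Pool.Agent.S04192

/-- The negation of the preceding statement: Every nonseparable C*-algebra that embeds nuclearly into some C*-algebra (i.e. is exact) admits an injective *-homomorphism into a C*-algebra whose identity is approximated by ccp maps through finite-dimensional C*-algebras (i.e. is nuclear). -/
theorem result :
    ¬ (∀ (A : Type) [NonUnitalCStarAlgebra A], ¬ TopologicalSpace.SeparableSpace A →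
    (∃ (B : Type) (_ : NonUnitalCStarAlgebra B) (π : A →⋆ₙₐ[ℂ] B), Function.Injective π ∧
      ∀ (F : Finset A) (ε : ℝ), 0 < ε →
        ∃ (D : Type) (_ : CStarAlgebra D) (_ : FiniteDimensional ℂ D)
          (φ : A →ₗ[ℂ] D) (ψ : D →ₗ[ℂ] B),
          (∀ a, ‖φ a‖ ≤ ‖a‖) ∧ (∀ d, ‖ψ d‖ ≤ ‖d‖) ∧
          (∀ (n : ℕ) (y : Matrix (Fin n) (Fin n) A),
            ∃ z : Matrix (Fin n) (Fin n) D, (star y * y).map φ = star z * z) ∧
          (∀ (n : ℕ) (y : Matrix (Fin n) (Fin n) D),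
            ∃ z : Matrix (Fin n) (Fin n) B, (star y * y).map ψ = star z * z) ∧
          ∀ a ∈ F, ‖ψ (φ a) - π a‖ < ε) →
    ∃ (C : Type) (_ : NonUnitalCStarAlgebra C) (ι : A →⋆ₙₐ[ℂ] C), Function.Injective ι ∧
      ∀ (F : Finset C) (ε : ℝ), 0 < ε →
        ∃ (D : Type) (_ : CStarAlgebra D) (_ : FiniteDimensional ℂ D)
          (φ : C →ₗ[ℂ] D) (ψ : D →ₗ[ℂ] C),
          (∀ c, ‖φ c‖ ≤ ‖c‖) ∧ (∀ d, ‖ψ d‖ ≤ ‖d‖) ∧
          (∀ (n : ℕ) (y : Matrix (Fin n) (Fin n) C),
            ∃ z : Matrix (Fin n) (Fin n) D, (star y * y).map φ = star z * z) ∧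
          (∀ (n : ℕ) (y : Matrix (Fin n) (Fin n) D),
            ∃ z : Matrix (Fin n) (Fin n) C, (star y * y).map ψ = star z * z) ∧
          ∀ c ∈ F, ‖ψ (φ c) - c‖ < ε) := by
  exact Pool.Agent.Helper234.Exact.main

end Pool.Agent.S04192
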