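import Pool.Statements.S04196
import Pool.Agent.Helper917.NussRetr
import Pool.Agent.Helper917.NussQuat
import Pool.Agent.Helper917.NussSteer

set_option autoImplicit false
open Pool Pool.MP_d9f794_an

namespace Pool.Agent.S04196

/-- the bonding data of the inverse limit of unit quaternion spheres -/
theorem kd_kq : Helper917.Nuss.KD Helper917.Nuss.kq 1 where
  cont := Helper917.Nuss.kq_continuous
  norm_le := Helper917.Nuss.kq_norm_le
  norm_eq := fun t _ hx => Helper917.Nuss.kq_norm t hx
  one := Helper917.Nuss.kq_one
  unit := Helper917.Nuss.kq_unit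
  hu := norm_one

/-- The negation of the preceding statement: Take a real Banach space X, a continuous map f, and a compact A. Suppose every compact set is eventually mapped by all further iterates of f into any given neighbourhood of A. Then f has a fixed point in A. -/
theorem result :
    ¬ (∀ (X : Type) [NormedAddCommGroup X] [NormedSpace ℝ X] [CompleteSpace X]
      (f : X → X), Continuous f →
      ∀ A : Set X, IsCompact A →
        (∀ K : Set X, IsCompact K → ∀ U ∈ nhdsSet A,
          ∃ N : ℕ, ∀ n : ℕ, N ≤ n → f^[n] '' K ⊆ U) →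
        ∃ x ∈ A, f x = x) := by
  have : ProperSpace Helper917.Nuss.QQ := FiniteDimensional.proper ℝ Helper917.Nuss.QQ
  obtain ⟨C, hC⟩ := Helper917.Nuss.exists_steer kd_kq
  exact Helper917.Nuss.example_of_steer (Helper917.Nuss.Gc Helper917.Nuss.Lq)
    (Helper917.Nuss.IA_compact kd_kq) ⟨Helper917.Nuss.a0 1, Helper917.Nuss.a0_mem kd_kq⟩
    (Helper917.Nuss.Gc_mem fun x hx => Helper917.Nuss.kq_equiv hx)
    (Helper917.Nuss.Gc_fix fun x hx => Helper917.Nuss.Lq_fix hx) hC

end Pool.Agent.S04196
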