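import Pool.Statements.S04200
import Pool.Agent.Helper746.EpFinal

set_option autoImplicit false
open MeasureTheory
open Pool Pool.MP_da5d20_an

namespace Pool.Agent.S04200

/-- The negation of the preceding statement: For n ≥ 3 and α in [n−2, n(n−2)], every non-constant continuous W^{1,n} map of finite distortion on a domain in ℝⁿ, whose distortion K has K^{n−1}log^α(e+K) integrable, is open and has isolated fibres. -/
theorem result :
    ¬ (∀ (n : ℕ), 3 ≤ n → ∀ (α : ℝ), (n : ℝ) - 2 ≤ α → α ≤ (n : ℝ) * ((n : ℝ) - 2) →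
  ∀ (Ω : Set (EuclideanSpace ℝ (Fin n))), IsOpen Ω → IsConnected Ω →
  ∀ (f : EuclideanSpace ℝ (Fin n) → EuclideanSpace ℝ (Fin n))
    (Df : EuclideanSpace ℝ (Fin n) → (EuclideanSpace ℝ (Fin n) →L[ℝ] EuclideanSpace ℝ (Fin n)))
    (J K : EuclideanSpace ℝ (Fin n) → ℝ),
  ContinuousOn f Ω →
  MemLp f ((n : ℕ) : ENNReal) (volume.restrict Ω) →
  MemLp Df ((n : ℕ) : ENNReal) (volume.restrict Ω) →
  (∀ φ : EuclideanSpace ℝ (Fin n) → ℝ, ContDiff ℝ ((⊤ : ℕ∞) : WithTop ℕ∞) φ →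
      HasCompactSupport φ → tsupport φ ⊆ Ω →
      ∀ v : EuclideanSpace ℝ (Fin n),
        ∫ x in Ω, (fderiv ℝ φ x v) • f x = - ∫ x in Ω, φ x • Df x v) →
  (∀ x, J x = LinearMap.det (Df x).toLinearMap) →
  (∀ x, K x = if 0 < J x then ‖Df x‖ ^ n / J x else 1) →
  (∀ᵐ x ∂(volume.restrict Ω), 0 ≤ J x ∧ (J x = 0 → Df x = 0)) →
  Integrable (fun x => K x ^ (n - 1) * Real.log (Real.exp 1 + K x) ^ α) (volume.restrict Ω) →
  (¬ ∃ c : EuclideanSpace ℝ (Fin n), ∀ x ∈ Ω, f x = c) →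
  (∀ U ⊆ Ω, IsOpen U → IsOpen (f '' U)) ∧
  (∀ x ∈ Ω, ∃ ε > 0, ∀ z ∈ Ω, f z = f x → dist z x < ε → z = x)) := by
  intro H
  open Pool.Agent.Helper746.Ep in
  have h := H 3 le_rfl 1 (by norm_num) (by norm_num) Om Om_open
    ⟨⟨ax (1 / 2), ax_mem (by norm_num) (by norm_num)⟩, Om_convex.isPreconnected⟩
    F (fderiv ℝ F) (fun x => LinearMap.det (fderiv ℝ F x).toLinearMap)
    (fun x => if 0 < LinearMap.det (fderiv ℝ F x).toLinearMap then
      ‖fderiv ℝ F x‖ ^ 3 / LinearMap.det (fderiv ℝ F x).toLinearMap else 1)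
    F_lipOn.continuousOn F_memLp DF_memLp
    (fun φ h1 h2 h3 v => weakF φ (h1.of_le (by exact_mod_cast le_top)) h2 h3 v)
    (fun x => rfl) (fun x => rfl) F_det_ae
    (by
      have := integrable_dist _ _ (fun x => rfl) (fun x => rfl)
      simpa using this) F_nonconst
  exact F_not_discrete h.2

end Pool.Agent.S04200
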