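import Pool.Statements.S04202
import Pool.Agent.Helper546.Final

set_option autoImplicit false
open Pool Pool.MP_dac83a_an

namespace Pool.Agent.S04202

/-- The negation of the preceding statement: For every bounded simply connected open plane domain, every second Dirichlet eigenfunction (smooth in Ω, −Δu = λ₂u, in H¹₀) has a nodal set whose closure meets the boundary in exactly two distinct points. -/
theorem result :
    ¬ (∀ (Ω : Set (EuclideanSpace ℝ (Fin 2))), IsOpen Ω → Bornology.IsBounded Ω →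
      SimplyConnectedSpace Ω →
      ∀ (u : EuclideanSpace ℝ (Fin 2) → ℝ),
        ContDiffOn ℝ ((⊤ : ℕ∞) : WithTop ℕ∞) u Ω →
        (∃ x ∈ Ω, u x ≠ 0) →
        (∀ x ∈ Ω,
          -(∑ i : Fin 2, iteratedFDeriv ℝ 2 u x (fun _ => EuclideanSpace.single i (1 : ℝ))) =
            sInf {m : ℝ | ∃ φ₁ φ₂ : EuclideanSpace ℝ (Fin 2) → ℝ,
              ContDiff ℝ ((⊤ : ℕ∞) : WithTop ℕ∞) φ₁ ∧ HasCompactSupport φ₁ ∧ tsupport φ₁ ⊆ Ω ∧
              ContDiff ℝ ((⊤ : ℕ∞) : WithTop ℕ∞) φ₂ ∧ HasCompactSupport φ₂ ∧ tsupport φ₂ ⊆ Ω ∧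
              LinearIndependent ℝ ![φ₁, φ₂] ∧
              ∀ a b : ℝ,
                ∫ y, ‖fderiv ℝ (fun z => a * φ₁ z + b * φ₂ z) y‖ ^ 2 ≤
                  m * ∫ y, (a * φ₁ y + b * φ₂ y) ^ 2} * u x) →
        (∃ φ : ℕ → EuclideanSpace ℝ (Fin 2) → ℝ,
          (∀ n, ContDiff ℝ ((⊤ : ℕ∞) : WithTop ℕ∞) (φ n) ∧ HasCompactSupport (φ n) ∧
              tsupport (φ n) ⊆ Ω ∧
              MeasureTheory.IntegrableOn
                (fun x => (φ n x - u x) ^ 2 + ‖fderiv ℝ (φ n) x - fderiv ℝ u x‖ ^ 2) Ω) ∧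
          Filter.Tendsto
            (fun n => ∫ x in Ω, ((φ n x - u x) ^ 2 + ‖fderiv ℝ (φ n) x - fderiv ℝ u x‖ ^ 2))
            Filter.atTop (nhds 0)) →
        ∃ p q : EuclideanSpace ℝ (Fin 2), p ≠ q ∧
          closure {x | x ∈ Ω ∧ u x = 0} ∩ frontier Ω = {p, q}) := by
  intro H
  obtain ⟨f, hf, hne, hno⟩ := Pool.Agent.Helper546.main_result
  refine hno (H Pool.Agent.Helper546.Dom Pool.Agent.Helper546.isOpen_Dom
    (Metric.isBounded_ball.subset Pool.Agent.Helper546.Dom_subset_ball)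
    Pool.Agent.Helper546.simplyConnected_Dom f hf.smooth hne ?_ hf.approx)
  intro x hx
  have h1 : ContDiffAt ℝ 2 f x :=
    (hf.smooth.contDiffAt (Pool.Agent.Helper546.isOpen_Dom.mem_nhds hx)).of_le
      Pool.Agent.Helper546.two_le_infty
  have h2 := hf.helm x hx
  rw [Pool.Agent.Helper546.sum_iteratedFDeriv_eq h1, h2, neg_mul, neg_neg]
  rfl

end Pool.Agent.S04202
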