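import Pool.Statements.S04206
import Pool.Agent.Helper280.Crit

set_option autoImplicit false
open Pool Pool.MP_db815c_an

namespace Pool.Agent.S04206

/-- The negation of the preceding statement: For outer H^2 functions g, h (cyclic for the shift), if T_g T_{h-bar}, defined on polynomials, extends to a bounded operator on H^2, then that operator lies in the norm-closed *-algebra generated by Toeplitz operators with bounded symbols. -/
theorem result :
    ¬ (∀ a b : ℕ → ℂ, Memℓp a 2 → Memℓp b 2 →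
      (∀ c : ℕ → ℂ, Memℓp c 2 →
        (∀ k : ℕ, ∑' n : ℕ, a n * starRingEnd ℂ (c (n + k)) = 0) → c = 0) →
      (∀ c : ℕ → ℂ, Memℓp c 2 →
        (∀ k : ℕ, ∑' n : ℕ, b n * starRingEnd ℂ (c (n + k)) = 0) → c = 0) →
      ∀ A : lp (fun _ : ℕ => ℂ) 2 →L[ℂ] lp (fun _ : ℕ => ℂ) 2,
        (∀ j m : ℕ, (A (lp.single 2 j 1) : ℕ → ℂ) m =
          ∑ n ∈ Finset.range (j + 1),
            (if j - n ≤ m then starRingEnd ℂ (b n) * a (m + n - j) else 0)) →
        A ∈ (StarAlgebra.adjoin ℂ
          {T : lp (fun _ : ℕ => ℂ) 2 →L[ℂ] lp (fun _ : ℕ => ℂ) 2 |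
            ∃ φ : AddCircle (1 : ℝ) → ℂ,
              MeasureTheory.MemLp φ ⊤ AddCircle.haarAddCircle ∧
              ∀ i j : ℕ, (T (lp.single 2 j 1) : ℕ → ℂ) i
                = fourierCoeff φ ((i : ℤ) - (j : ℤ))}).topologicalClosure) := by
  intro H
  refine Helper280.AA_not_mem _ ?_ (H (Helper280.gg : Helper280.HH) (Helper280.hh : Helper280.HH)
    Helper280.gg.2 Helper280.hh.2 ?_ ?_ Helper280.AA Helper280.AA_matrix)
  · rintro T ⟨φ, _, hφ⟩
    exact Helper280.toep_of_matrix T (fourierCoeff φ) hφ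
  · intro c hc h
    have h1 := Helper280.gg_cyclic ⟨c, hc⟩ h
    exact congrArg (fun x : Helper280.HH => (x : ℕ → ℂ)) h1
  · intro c hc h
    have h1 := Helper280.hh_cyclic ⟨c, hc⟩ h
    exact congrArg (fun x : Helper280.HH => (x : ℕ → ℂ)) h1

end Pool.Agent.S04206
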