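import Pool.Statements.S04217
import Pool.Agent.Helper930.BL.Final
import Pool.Agent.Helper930.BL.GrowthMain
import Pool.Agent.Helper930.BL.TrB

set_option autoImplicit false
open MeasureTheory
open Pool Pool.MP_dd09c0_an

namespace Pool.Agent.S04217

/-- For n≥3 and λ>0, every A gives r>0 such that any continuous finite-distortion W^{1,1}_loc map f on the unit ball with diam f(B(0,1/2))=1 and ∫exp(λK_f)≤A maps some open U⊆B(0,1) homeomorphically onto a ball of radius r. -/
theorem result :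
    ∀ n : ℕ, 3 ≤ n → ∀ lam : ℝ, 0 < lam → ∀ A : ℝ, ∃ r : ℝ, 0 < r ∧
      ∀ (f : EuclideanSpace ℝ (Fin n) → EuclideanSpace ℝ (Fin n))
        (Df : EuclideanSpace ℝ (Fin n) →
          (EuclideanSpace ℝ (Fin n) →L[ℝ] EuclideanSpace ℝ (Fin n))),
        ContinuousOn f (Metric.ball 0 1) →
        LocallyIntegrableOn f (Metric.ball 0 1) →
        LocallyIntegrableOn Df (Metric.ball 0 1) →
        (∀ φ : EuclideanSpace ℝ (Fin n) → ℝ,
          ContDiff ℝ ((⊤ : ℕ∞) : WithTop ℕ∞) φ → HasCompactSupport φ →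
          tsupport φ ⊆ Metric.ball 0 1 →
          ∀ v : EuclideanSpace ℝ (Fin n),
            ∫ x in Metric.ball (0 : EuclideanSpace ℝ (Fin n)) 1, (fderiv ℝ φ x v) • f x
              = - ∫ x in Metric.ball (0 : EuclideanSpace ℝ (Fin n)) 1, φ x • Df x v) →
        LocallyIntegrableOn
          (fun x => LinearMap.det
            ((Df x : EuclideanSpace ℝ (Fin n) →L[ℝ] EuclideanSpace ℝ (Fin n)) :
              EuclideanSpace ℝ (Fin n) →ₗ[ℝ] EuclideanSpace ℝ (Fin n)))
          (Metric.ball 0 1) →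
        (∀ᵐ x ∂(volume.restrict (Metric.ball (0 : EuclideanSpace ℝ (Fin n)) 1)),
          0 ≤ LinearMap.det
              ((Df x : EuclideanSpace ℝ (Fin n) →L[ℝ] EuclideanSpace ℝ (Fin n)) :
                EuclideanSpace ℝ (Fin n) →ₗ[ℝ] EuclideanSpace ℝ (Fin n)) ∧
          (LinearMap.det
              ((Df x : EuclideanSpace ℝ (Fin n) →L[ℝ] EuclideanSpace ℝ (Fin n)) :
                EuclideanSpace ℝ (Fin n) →ₗ[ℝ] EuclideanSpace ℝ (Fin n)) = 0 → Df x = 0)) →
        (∫⁻ x in Metric.ball (0 : EuclideanSpace ℝ (Fin n)) 1,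
          ENNReal.ofReal (Real.exp (lam *
            (if LinearMap.det
                ((Df x : EuclideanSpace ℝ (Fin n) →L[ℝ] EuclideanSpace ℝ (Fin n)) :
                  EuclideanSpace ℝ (Fin n) →ₗ[ℝ] EuclideanSpace ℝ (Fin n)) = 0
             then 1
             else ‖Df x‖ ^ n / LinearMap.det
                ((Df x : EuclideanSpace ℝ (Fin n) →L[ℝ] EuclideanSpace ℝ (Fin n)) :
                  EuclideanSpace ℝ (Fin n) →ₗ[ℝ] EuclideanSpace ℝ (Fin n))))))
          ≤ ENNReal.ofReal A →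
        Metric.diam (f '' Metric.ball 0 (1 / 2)) = 1 →
        ∃ y : EuclideanSpace ℝ (Fin n), ∃ U ⊆ Metric.ball (0 : EuclideanSpace ℝ (Fin n)) 1,
          IsOpen U ∧ ∃ h : U ≃ₜ Metric.ball y r, ∀ x : U, ((h x : EuclideanSpace ℝ (Fin n))) = f x := by
  intro n hn lam hlam A
  obtain ⟨C, hC⟩ := H930.BL.transfer hn hlam A
  obtain ⟨r, hr, hmain⟩ := H930.BL.growth_main hn C
  refine ⟨r, hr, ?_⟩
  intro f Df hcont hfi hDi hweak hdet hpos hexp hdiam
  obtain ⟨D, hFD, hmom⟩ := hC f Df hcont hfi hDi hweak hdet hpos hexp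
  obtain ⟨y, hy⟩ := hmain _ D hFD hmom (H930.BL.diam_bound hcont hdiam)
  exact H930.BL.final hcont hy

end Pool.Agent.S04217
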