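import Pool.Statements.S04219

set_option autoImplicit false
open Pool Pool.MP_dd1f31_an

namespace Pool.Agent.S04219

section alg
open Polynomial Polynomial.Chebyshev Filter Topology


/-- the perturbed Chebyshev polynomial -/
noncomputable def P (n : ℕ) (L : ℝ) (s : ℕ → ℝ) : ℝ[X] :=
  Polynomial.C L * T ℝ n - ∑ j ∈ Finset.range n, Polynomial.C (s j) * T ℝ j

lemma P_eval_node (n : ℕ) (L : ℝ) (s : ℕ → ℝ) (hs : ∑ j ∈ Finset.range n, |s j| < L)
    (m : ℕ) (hm : m ≤ n) : 0 < (-1 : ℝ) ^ m * (P n L s).eval (node n m) := by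
  have h1 : (T ℝ n).eval (node n m) = (-1) ^ m := eval_T_real_node (Finset.mem_Iic.2 hm)
  have h2 : (P n L s).eval (node n m) = L * (-1) ^ m - ∑ j ∈ Finset.range n, s j * (T ℝ j).eval (node n m) := by
    unfold P
    rw [eval_sub, eval_mul, eval_C, h1, eval_finsetSum]
    congr 1
    refine Finset.sum_congr rfl ?_
    intro j _
    rw [eval_mul, eval_C]
  have h3 : ∑ j ∈ Finset.range n, (-1 : ℝ) ^ m * (s j * (T ℝ j).eval (node n m)) ≤ ∑ j ∈ Finset.range n, |s j| := by
    apply Finset.sum_le_sum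
    intro j _
    have h4 : |(T ℝ j).eval (node n m)| ≤ 1 := by
      apply abs_eval_T_real_le_one
      exact abs_le.2 (node_mem_Icc)
    calc (-1 : ℝ) ^ m * (s j * (T ℝ j).eval (node n m)) ≤ |(-1 : ℝ) ^ m * (s j * (T ℝ j).eval (node n m))| := le_abs_self _
      _ = |s j| * |(T ℝ j).eval (node n m)| := by
          rw [abs_mul, abs_mul, abs_pow]; simp
      _ ≤ |s j| * 1 := mul_le_mul_of_nonneg_left h4 (abs_nonneg _)
      _ = |s j| := mul_one _
  rw [h2, mul_sub, Finset.mul_sum]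
  have h5 : (-1 : ℝ) ^ m * (L * (-1) ^ m) = L := by
    have : ((-1 : ℝ) ^ m) * (-1) ^ m = 1 := by rw [← mul_pow]; simp
    linear_combination L * this
  rw [h5]
  linarith

lemma P_natDegree (n : ℕ) (L : ℝ) (s : ℕ → ℝ) : (P n L s).natDegree ≤ n := by
  unfold P
  apply (natDegree_sub_le _ _).trans
  apply max_le
  · apply (natDegree_C_mul_le _ _).trans
    rw [natDegree_T]; simp
  · apply natDegree_sum_le_of_forall_le
    intro j hj
    apply (natDegree_C_mul_le _ _).trans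
    rw [natDegree_T]
    have := Finset.mem_range.1 hj
    simp; omega

lemma P_root (n : ℕ) (L : ℝ) (s : ℕ → ℝ) (hs : ∑ j ∈ Finset.range n, |s j| < L)
    (z : ℂ) (hz : aeval z (P n L s) = 0) : ∃ c : ℝ, z = c ∧ c ≤ 1 := by
  have hne : P n L s ≠ 0 := by
    intro h
    have := P_eval_node n L s hs 0 (Nat.zero_le _)
    rw [h] at this; simp at this
  -- roots in the gaps
  have hroot : ∀ m : ℕ, m < n → ∃ c : ℝ, node n (m + 1) < c ∧ c < node n m ∧ (P n L s).eval c = 0 := by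
    intro m hm
    have h1 := P_eval_node n L s hs m hm.le
    have h2 := P_eval_node n L s hs (m + 1) hm
    have hlt : node n (m + 1) < node n m := node_lt hm (Nat.lt_succ_self m)
    have hcont : ContinuousOn (fun c => (-1 : ℝ) ^ m * (P n L s).eval c) (Set.Icc (node n (m + 1)) (node n m)) :=
      (continuous_const.mul (P n L s).continuous).continuousOn
    have h3 : (0 : ℝ) ∈ Set.Ioo ((fun c => (-1 : ℝ) ^ m * (P n L s).eval c) (node n (m + 1)))
        ((fun c => (-1 : ℝ) ^ m * (P n L s).eval c) (node n m)) := by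
      refine ⟨?_, h1⟩
      simp only
      rw [pow_succ] at h2
      linarith
    obtain ⟨c, hc, hc0⟩ := intermediate_value_Ioo hlt.le hcont h3
    refine ⟨c, hc.1, hc.2, ?_⟩
    have hp : (-1 : ℝ) ^ m ≠ 0 := by positivity
    exact (mul_eq_zero.1 hc0).resolve_left hp
  choose! c hc1 hc2 hc3 using hroot
  have hanti : ∀ i j : ℕ, i < j → j < n → c j < c i := by
    intro i j hij hj
    have h1 : c j < node n j := hc2 j hj
    have h2 : node n (i + 1) < c i := hc1 i (by omega)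
    have h3 : node n j ≤ node n (i + 1) := by
      rcases Nat.lt_or_ge (i + 1) j with h | h
      · exact (node_lt hj.le h).le
      · have : i + 1 = j := by omega
        rw [this]
    linarith
  have hinj : Set.InjOn c (Finset.range n : Set ℕ) := by
    intro i hi j hj hij
    rcases lt_trichotomy i j with h | h | h
    · have := hanti i j h (Finset.mem_range.1 hj); linarith
    · exact h
    · have := hanti j i h (Finset.mem_range.1 hi); linarith
  have hsub : (Finset.range n).image c ⊆ (P n L s).roots.toFinset := by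
    intro y hy
    obtain ⟨m, hm, rfl⟩ := Finset.mem_image.1 hy
    rw [Multiset.mem_toFinset, mem_roots hne]
    exact hc3 m (Finset.mem_range.1 hm)
  have hcard : n ≤ (P n L s).roots.toFinset.card := by
    have := Finset.card_le_card hsub
    rwa [Finset.card_image_of_injOn hinj, Finset.card_range] at this
  have hcard2 : Multiset.card (P n L s).roots = (P n L s).natDegree := by
    apply le_antisymm (card_roots' _)
    exact (P_natDegree n L s).trans (hcard.trans (Multiset.toFinset_card_le _))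
  have hfac := C_leadingCoeff_mul_prod_multiset_X_sub_C hcard2
  have hcardeq : (P n L s).roots.toFinset.card = n := by
    apply le_antisymm _ hcard
    exact (Multiset.toFinset_card_le _).trans ((card_roots' _).trans (P_natDegree n L s))
  have hroots : (P n L s).roots.toFinset = (Finset.range n).image c := by
    symm
    apply Finset.eq_of_subset_of_card_le hsub
    rw [Finset.card_image_of_injOn hinj, Finset.card_range, hcardeq]
  have h4 : aeval z (P n L s) = ((P n L s).leadingCoeff : ℂ) * (((P n L s).roots.map (fun a : ℝ => z - (a : ℂ))).prod) := by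
    conv_lhs => rw [← hfac]
    rw [map_mul, Polynomial.aeval_C]
    congr 1
    rw [map_multiset_prod, Multiset.map_map]
    congr 1
    refine Multiset.map_congr rfl ?_
    intro a _
    simp
  rw [h4] at hz
  rcases mul_eq_zero.1 hz with h5 | h5
  · exfalso
    have : (P n L s).leadingCoeff = 0 := by exact_mod_cast h5
    exact hne (leadingCoeff_eq_zero.1 this)
  · rw [Multiset.prod_eq_zero_iff] at h5
    obtain ⟨a, ha, ha0⟩ := Multiset.mem_map.1 h5
    refine ⟨a, sub_eq_zero.1 ha0, ?_⟩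
    have : a ∈ (P n L s).roots.toFinset := Multiset.mem_toFinset.2 ha
    rw [hroots] at this
    obtain ⟨m, hm, rfl⟩ := Finset.mem_image.1 this
    have h6 := hc2 m (Finset.mem_range.1 hm)
    have h7 := (node_mem_Icc (n := n) (i := m)).2
    linarith

/-- rescaled polynomial -/
noncomputable def R (n : ℕ) (L : ℝ) (s : ℕ → ℝ) : ℝ[X] :=
  (P n L s).comp (1 + Polynomial.C (2 / (n : ℝ) ^ 2) * X)

lemma R_root (n : ℕ) (hn : 0 < n) (L : ℝ) (s : ℕ → ℝ) (hs : ∑ j ∈ Finset.range n, |s j| < L)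
    (z : ℂ) (hz : aeval z (R n L s) = 0) : z.im = 0 ∧ z.re ≤ 0 := by
  unfold R at hz
  rw [aeval_comp] at hz
  obtain ⟨c, hc, hc1⟩ := P_root n L s hs _ hz
  have hn' : (0 : ℝ) < (n : ℝ) := by exact_mod_cast hn
  have hnc : (n : ℂ) ≠ 0 := by exact_mod_cast hn.ne'
  have h2 : z = (((c - 1) * (n : ℝ) ^ 2 / 2 : ℝ) : ℂ) := by
    simp at hc
    push_cast
    rw [← hc]
    field_simp
    ring
  rw [h2]
  refine ⟨Complex.ofReal_im _, ?_⟩
  rw [Complex.ofReal_re]
  have : (c - 1) * (n : ℝ) ^ 2 ≤ 0 := mul_nonpos_of_nonpos_of_nonneg (by linarith) (by positivity)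
  linarith



/-- `∏_{l<k} (j^2-l^2)` -/
noncomputable def pk (k j : ℕ) : ℝ := ∏ l ∈ Finset.range k, ((j : ℝ) ^ 2 - (l : ℝ) ^ 2)

lemma pk_eq_zero (k j : ℕ) (h : j < k) : pk k j = 0 := by
  unfold pk
  apply Finset.prod_eq_zero (Finset.mem_range.2 h)
  ring

lemma dfact (k : ℕ) : (∏ l ∈ Finset.range k, (2 * l + 1)) * k.factorial * 2 ^ k = (2 * k).factorial := by
  induction k with
  | zero => simp
  | succ k ih =>
    rw [Finset.prod_range_succ, Nat.factorial_succ, show 2 * (k + 1) = (2 * k + 1) + 1 by ring,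
      Nat.factorial_succ, Nat.factorial_succ, ← ih]
    ring

lemma T_expand (j : ℕ) (y : ℂ) :
    (T ℂ (j : ℤ)).eval (1 + y) = ∑ k ∈ Finset.range (j + 1), (pk k j : ℂ) * (2 * y) ^ k / ((2 * k).factorial : ℂ) := by
  have h1 : (T ℂ (j : ℤ)).eval (1 + y) = (taylor 1 (T ℂ (j : ℤ))).eval y := by
    rw [taylor_eval, add_comm]
  have hdeg : (taylor 1 (T ℂ (j : ℤ))).natDegree < j + 1 := by
    rw [natDegree_taylor, natDegree_T]; simp
  rw [h1, eval_eq_sum_range' hdeg]
  refine Finset.sum_congr rfl ?_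
  intro k _
  rw [taylor_coeff]
  have h2 : ((k.factorial : ℕ) : ℂ) * (hasseDeriv k (T ℂ (j : ℤ))).eval 1 = (derivative^[k] (T ℂ (j : ℤ))).eval 1 := by
    rw [← factorial_smul_hasseDeriv]
    simp
  rw [iterate_derivative_T_eval_one_eq_div] at h2
  have h3 : ((∏ l ∈ Finset.range k, ((j : ℤ) ^ 2 - (l : ℤ) ^ 2) : ℤ) : ℂ) = (pk k j : ℂ) := by
    unfold pk; push_cast; rfl
  have h4 : ((∏ l ∈ Finset.range k, (2 * l + 1) : ℕ) : ℂ) * (k.factorial : ℂ) * 2 ^ k = ((2 * k).factorial : ℂ) := by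
    exact_mod_cast dfact k
  have hk : ((k.factorial : ℕ) : ℂ) ≠ 0 := by exact_mod_cast Nat.factorial_ne_zero k
  have hd : ((∏ l ∈ Finset.range k, (2 * l + 1) : ℕ) : ℂ) ≠ 0 := by
    exact_mod_cast (Finset.prod_ne_zero_iff.2 (fun l _ => by omega))
  rw [← h4, ← h3]
  rw [eq_div_iff hd] at h2
  rw [mul_pow, eq_div_iff (mul_ne_zero (mul_ne_zero hd hk) (pow_ne_zero _ two_ne_zero))]
  linear_combination (2 ^ k * y ^ k) * h2

/-- normalised coefficient -/
noncomputable def qk (n k j : ℕ) : ℝ := pk k j / (n : ℝ) ^ (2 * k)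

lemma qk_eq_prod (n k j : ℕ) : qk n k j = ∏ l ∈ Finset.range k, (((j : ℝ) ^ 2 - (l : ℝ) ^ 2) / (n : ℝ) ^ 2) := by
  unfold qk pk
  rw [Finset.prod_div_distrib, Finset.prod_const, Finset.card_range, pow_mul]

lemma qk_eq_zero (n k j : ℕ) (h : j < k) : qk n k j = 0 := by
  unfold qk; rw [pk_eq_zero k j h, zero_div]

lemma qk_bounds (n k j : ℕ) (hj : j ≤ n) : 0 ≤ qk n k j ∧ qk n k j ≤ 1 := by
  rcases Nat.lt_or_ge j k with h | h
  · rw [qk_eq_zero n k j h]; norm_num
  · rw [qk_eq_prod]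
    have hf : ∀ l ∈ Finset.range k, 0 ≤ (((j : ℝ) ^ 2 - (l : ℝ) ^ 2) / (n : ℝ) ^ 2) := by
      intro l hl
      have hl' : (l : ℝ) ≤ j := by
        have := Finset.mem_range.1 hl
        exact_mod_cast (by omega : l ≤ j)
      apply div_nonneg _ (by positivity)
      have : (0:ℝ) ≤ l := Nat.cast_nonneg l
      nlinarith
    constructor
    · exact Finset.prod_nonneg hf
    · apply Finset.prod_le_one hf
      intro l hl
      have hj' : (j : ℝ) ≤ n := by exact_mod_cast hj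
      have h0 : (0:ℝ) ≤ j := Nat.cast_nonneg j
      apply div_le_one_of_le₀ _ (by positivity)
      nlinarith [sq_nonneg (l : ℝ)]

/-- `a^k - ∏ (a - b_l) ≤ ∑ b_l` -/
lemma pow_sub_prod_le (a : ℝ) (ha0 : 0 ≤ a) (ha1 : a ≤ 1) (b : ℕ → ℝ) (k : ℕ)
    (hb : ∀ l < k, 0 ≤ b l ∧ b l ≤ a) :
    0 ≤ a ^ k - ∏ l ∈ Finset.range k, (a - b l) ∧ a ^ k - ∏ l ∈ Finset.range k, (a - b l) ≤ ∑ l ∈ Finset.range k, b l := by
  induction k with
  | zero => simp
  | succ k ih =>
    obtain ⟨ih1, ih2⟩ := ih (fun l hl => hb l (by omega))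
    obtain ⟨hb0, hb1⟩ := hb k (Nat.lt_succ_self k)
    rw [Finset.prod_range_succ, Finset.sum_range_succ, pow_succ]
    set Q := ∏ l ∈ Finset.range k, (a - b l) with hQ
    have hQ0 : 0 ≤ Q := Finset.prod_nonneg (fun l hl => by
      have := hb l (by have := Finset.mem_range.1 hl; omega); linarith [this.2])
    have hak : a ^ k ≤ 1 := pow_le_one₀ ha0 ha1
    have hQ1 : Q ≤ 1 := by linarith
    have e : a ^ k * a - Q * (a - b k) = a * (a ^ k - Q) + Q * b k := by ring
    rw [e]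
    constructor
    · have := mul_nonneg ha0 ih1
      have := mul_nonneg hQ0 hb0
      linarith
    · have h1 : a * (a ^ k - Q) ≤ 1 * (a ^ k - Q) := mul_le_mul_of_nonneg_right ha1 ih1
      have h2 : Q * b k ≤ 1 * b k := mul_le_mul_of_nonneg_right hQ1 hb0
      linarith

lemma qk_approx (n k j : ℕ) (hn : 0 < n) (hj : j ≤ n) :
    |qk n k j - ((j : ℝ) / n) ^ (2 * k)| ≤ (k : ℝ) ^ 3 / (n : ℝ) ^ 2 := by
  have hn' : (0 : ℝ) < n := by exact_mod_cast hn
  have hj' : (j : ℝ) ≤ n := by exact_mod_cast hj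
  have hj0 : (0:ℝ) ≤ j := Nat.cast_nonneg j
  have ha0 : 0 ≤ ((j : ℝ) / n) ^ 2 := by positivity
  have ha1 : ((j : ℝ) / n) ^ 2 ≤ 1 := by
    apply pow_le_one₀ (by positivity)
    exact div_le_one_of_le₀ hj' hn'.le
  rcases Nat.lt_or_ge j k with h | h
  · rw [qk_eq_zero n k j h, zero_sub, abs_neg, abs_of_nonneg (by positivity), pow_mul]
    have hk1 : 1 ≤ k := by omega
    have hk : (1 : ℝ) ≤ k := by exact_mod_cast hk1
    have hjk : (j : ℝ) ≤ k := by exact_mod_cast h.le
    calc (((j : ℝ) / n) ^ 2) ^ k ≤ (((j : ℝ) / n) ^ 2) ^ 1 := pow_le_pow_of_le_one ha0 ha1 hk1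
      _ = (j : ℝ) ^ 2 / n ^ 2 := by rw [pow_one, div_pow]
      _ ≤ (k : ℝ) ^ 3 / (n : ℝ) ^ 2 := by
        apply div_le_div_of_nonneg_right _ (by positivity)
        have : (j : ℝ) ^ 2 ≤ (k : ℝ) ^ 2 := by nlinarith
        nlinarith [sq_nonneg (k : ℝ)]
  · have h1 := pow_sub_prod_le (((j : ℝ) / n) ^ 2) ha0 ha1 (fun l => (l : ℝ) ^ 2 / (n : ℝ) ^ 2) k (by
      intro l hl
      have hl' : (l : ℝ) ≤ j := by exact_mod_cast (by omega : l ≤ j)
      have hl0 : (0:ℝ) ≤ l := Nat.cast_nonneg l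
      refine ⟨by positivity, ?_⟩
      rw [div_pow]
      apply div_le_div_of_nonneg_right _ (by positivity)
      nlinarith)
    have h2 : ∏ l ∈ Finset.range k, (((j : ℝ) / n) ^ 2 - (l : ℝ) ^ 2 / (n : ℝ) ^ 2) = qk n k j := by
      rw [qk_eq_prod]
      refine Finset.prod_congr rfl ?_
      intro l _
      rw [div_pow]; ring
    rw [h2] at h1
    have h3 : ∑ l ∈ Finset.range k, (l : ℝ) ^ 2 / (n : ℝ) ^ 2 ≤ (k : ℝ) ^ 3 / (n : ℝ) ^ 2 := by
      have : ∑ l ∈ Finset.range k, (l : ℝ) ^ 2 / (n : ℝ) ^ 2 ≤ ∑ l ∈ Finset.range k, (k : ℝ) ^ 2 / (n : ℝ) ^ 2 := by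
        apply Finset.sum_le_sum
        intro l hl
        have hl' : (l : ℝ) ≤ k := by exact_mod_cast (Finset.mem_range.1 hl).le
        have hl0 : (0:ℝ) ≤ l := Nat.cast_nonneg l
        apply div_le_div_of_nonneg_right _ (by positivity)
        nlinarith
      refine this.trans ?_
      rw [Finset.sum_const, Finset.card_range, nsmul_eq_mul]
      apply le_of_eq; ring
    rw [abs_sub_comm, pow_mul, abs_of_nonneg h1.1]
    exact h1.2.trans h3

/-- weight -/
noncomputable def w (k : ℕ) : ℝ := 4 ^ k / ((2 * k).factorial : ℝ)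

lemma T_expand' (n j : ℕ) (hn : 0 < n) (hj : j ≤ n) (z : ℂ) :
    (T ℂ (j : ℤ)).eval (1 + (2 / (n : ℂ) ^ 2) * z)
      = ∑ k ∈ Finset.range (n + 1), (qk n k j : ℂ) * ((w k : ℂ) * z ^ k) := by
  rw [T_expand]
  have hnc : (n : ℂ) ≠ 0 := by exact_mod_cast hn.ne'
  have h1 : ∑ k ∈ Finset.range (j + 1), (pk k j : ℂ) * (2 * ((2 / (n : ℂ) ^ 2) * z)) ^ k / ((2 * k).factorial : ℂ)
      = ∑ k ∈ Finset.range (j + 1), (qk n k j : ℂ) * ((w k : ℂ) * z ^ k) := by
    refine Finset.sum_congr rfl ?_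
    intro k _
    unfold qk w
    push_cast
    have hf : (((2 * k).factorial : ℕ) : ℂ) ≠ 0 := by exact_mod_cast Nat.factorial_ne_zero _
    rw [show (2 * ((2 / (n : ℂ) ^ 2) * z)) = 4 * z / (n : ℂ) ^ 2 by ring, div_pow, mul_pow, pow_mul]
    field_simp
  rw [h1]
  apply Finset.sum_subset
  · apply Finset.range_subset_range.2; omega
  · intro k _ hk
    rw [Finset.mem_range] at hk
    rw [qk_eq_zero n k j (by omega)]
    simp

/-- coefficient sequence -/
noncomputable def ecoef (n : ℕ) (L : ℝ) (s : ℕ → ℝ) (k : ℕ) : ℝ :=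
  L * qk n k n - ∑ j ∈ Finset.range n, s j * qk n k j


lemma ecoef_eq_zero (n : ℕ) (L : ℝ) (s : ℕ → ℝ) (k : ℕ) (h : n < k) : ecoef n L s k = 0 := by
  unfold ecoef
  rw [qk_eq_zero n k n h, mul_zero, zero_sub, neg_eq_zero]
  apply Finset.sum_eq_zero
  intro j hj
  rw [qk_eq_zero n k j (by have := Finset.mem_range.1 hj; omega), mul_zero]

lemma R_expand (n : ℕ) (hn : 0 < n) (L : ℝ) (s : ℕ → ℝ) (z : ℂ) :
    aeval z (R n L s) = ∑ k ∈ Finset.range (n + 1), ((ecoef n L s k : ℝ) : ℂ) * ((w k : ℂ) * z ^ k) := by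
  unfold R
  rw [aeval_comp]
  have h0 : aeval z (1 + Polynomial.C (2 / (n : ℝ) ^ 2) * X) = 1 + (2 / (n : ℂ) ^ 2) * z := by
    simp
  rw [h0]
  unfold P
  rw [map_sub, map_mul, map_sum, Polynomial.aeval_C, aeval_T, T_expand' n n hn le_rfl]
  have h1 : ∀ j ∈ Finset.range n, aeval (1 + (2 / (n : ℂ) ^ 2) * z) (Polynomial.C (s j) * T ℝ j)
      = ∑ k ∈ Finset.range (n + 1), (s j : ℂ) * ((qk n k j : ℂ) * ((w k : ℂ) * z ^ k)) := by
    intro j hj
    rw [map_mul, Polynomial.aeval_C, aeval_T, T_expand' n j hn (Finset.mem_range.1 hj).le, Finset.mul_sum]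
    rfl
  rw [Finset.sum_congr rfl h1, Finset.sum_comm, Finset.mul_sum, ← Finset.sum_sub_distrib]
  refine Finset.sum_congr rfl ?_
  intro k _
  unfold ecoef
  push_cast
  rw [sub_mul, Finset.sum_mul]
  congr 1
  · simp only [Complex.coe_algebraMap]; ring
  · refine Finset.sum_congr rfl ?_
    intro j _
    ring

lemma R_tsum (n : ℕ) (hn : 0 < n) (L : ℝ) (s : ℕ → ℝ) (z : ℂ) :
    aeval z (R n L s) = ∑' k : ℕ, ((ecoef n L s k : ℝ) : ℂ) * ((w k : ℂ) * z ^ k) := by
  rw [R_expand n hn, tsum_eq_sum]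
  intro k hk
  rw [Finset.mem_range] at hk
  rw [ecoef_eq_zero n L s k (by omega)]
  simp

lemma w_nonneg (k : ℕ) : 0 ≤ w k := by unfold w; positivity

lemma w_summable (r : ℝ) (hr : 0 ≤ r) : Summable (fun k : ℕ => w k * r ^ k) := by
  have h1 : Summable (fun k : ℕ => (4 * r) ^ k / (k.factorial : ℝ)) := Real.summable_pow_div_factorial _
  refine Summable.of_nonneg_of_le (fun k => mul_nonneg (w_nonneg k) (pow_nonneg hr k)) ?_ h1
  intro k
  unfold w
  rw [mul_pow, div_mul_eq_mul_div]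
  apply div_le_div_of_nonneg_left (by positivity) (by positivity)
  exact_mod_cast Nat.factorial_le (by omega)

lemma ecoef_abs (n : ℕ) (L : ℝ) (s : ℕ → ℝ) (hs : ∑ j ∈ Finset.range n, |s j| < L) (k : ℕ) :
    |ecoef n L s k| ≤ 2 * L := by
  have hL : 0 ≤ L := (Finset.sum_nonneg (fun j _ => abs_nonneg (s j))).trans hs.le
  unfold ecoef
  have h1 : |L * qk n k n| ≤ L := by
    have := qk_bounds n k n le_rfl
    rw [abs_of_nonneg (mul_nonneg hL this.1)]
    nlinarith [this.2]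
  have h2 : |∑ j ∈ Finset.range n, s j * qk n k j| ≤ ∑ j ∈ Finset.range n, |s j| := by
    refine (Finset.abs_sum_le_sum_abs _ _).trans ?_
    apply Finset.sum_le_sum
    intro j hj
    have := qk_bounds n k j (Finset.mem_range.1 hj).le
    rw [abs_mul, abs_of_nonneg this.1]
    have h3 := abs_nonneg (s j)
    nlinarith [this.2]
  have := abs_sub (L * qk n k n) (∑ j ∈ Finset.range n, s j * qk n k j)
  linarith

/-- the value of the coefficient up to the error of replacing Chebyshev coefficients by powers -/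
lemma ecoef_approx (n : ℕ) (hn : 0 < n) (L : ℝ) (s : ℕ → ℝ) (hs : ∑ j ∈ Finset.range n, |s j| < L) (k : ℕ) :
    |ecoef n L s k - (L - ∑ j ∈ Finset.range n, s j * ((j : ℝ) / n) ^ (2 * k))| ≤ 2 * L * ((k : ℝ) ^ 3 / (n : ℝ) ^ 2) := by
  have hL : 0 ≤ L := (Finset.sum_nonneg (fun j _ => abs_nonneg (s j))).trans hs.le
  have hn' : (0 : ℝ) < n := by exact_mod_cast hn
  have hnn : (n : ℝ) / n = 1 := div_self hn'.ne'
  unfold ecoef
  have e : L * qk n k n - ∑ j ∈ Finset.range n, s j * qk n k j - (L - ∑ j ∈ Finset.range n, s j * ((j : ℝ) / n) ^ (2 * k))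
      = L * (qk n k n - ((n : ℝ) / n) ^ (2 * k)) - ∑ j ∈ Finset.range n, s j * (qk n k j - ((j : ℝ) / n) ^ (2 * k)) := by
    simp only [mul_sub, Finset.sum_sub_distrib]
    rw [hnn, one_pow]
    ring
  rw [e]
  have h1 : |L * (qk n k n - ((n : ℝ) / n) ^ (2 * k))| ≤ L * ((k : ℝ) ^ 3 / (n : ℝ) ^ 2) := by
    rw [abs_mul, abs_of_nonneg hL]
    exact mul_le_mul_of_nonneg_left (qk_approx n k n hn le_rfl) hL
  have h2 : |∑ j ∈ Finset.range n, s j * (qk n k j - ((j : ℝ) / n) ^ (2 * k))| ≤ L * ((k : ℝ) ^ 3 / (n : ℝ) ^ 2) := by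
    have hb : 0 ≤ (k : ℝ) ^ 3 / (n : ℝ) ^ 2 := by positivity
    calc |∑ j ∈ Finset.range n, s j * (qk n k j - ((j : ℝ) / n) ^ (2 * k))|
        ≤ ∑ j ∈ Finset.range n, |s j * (qk n k j - ((j : ℝ) / n) ^ (2 * k))| := Finset.abs_sum_le_sum_abs _ _
      _ ≤ ∑ j ∈ Finset.range n, |s j| * ((k : ℝ) ^ 3 / (n : ℝ) ^ 2) := by
          apply Finset.sum_le_sum
          intro j hj
          rw [abs_mul]
          exact mul_le_mul_of_nonneg_left (qk_approx n k j hn (Finset.mem_range.1 hj).le) (abs_nonneg _)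
      _ = (∑ j ∈ Finset.range n, |s j|) * ((k : ℝ) ^ 3 / (n : ℝ) ^ 2) := by rw [Finset.sum_mul]
      _ ≤ L * ((k : ℝ) ^ 3 / (n : ℝ) ^ 2) := mul_le_mul_of_nonneg_right hs.le hb
  have := abs_sub (L * (qk n k n - ((n : ℝ) / n) ^ (2 * k))) (∑ j ∈ Finset.range n, s j * (qk n k j - ((j : ℝ) / n) ^ (2 * k)))
  linarith

/-- coefficientwise limit implies locally uniform convergence -/
theorem toolkit (c : ℕ → ℝ) (M : ℝ) (L : ℕ → ℝ) (s : ℕ → ℕ → ℝ)
    (hs : ∀ n, 0 < n → ∑ j ∈ Finset.range n, |s n j| < L n) (hL : ∀ n, 0 < n → L n ≤ M)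
    (hc : ∀ k : ℕ, Tendsto (fun n : ℕ => L n - ∑ j ∈ Finset.range n, s n j * ((j : ℝ) / n) ^ (2 * k)) atTop (𝓝 (c k))) :
    TendstoLocallyUniformly (fun (n : ℕ) (z : ℂ) => aeval z (R n (L n) (s n)))
      (fun z : ℂ => ∑' k : ℕ, ((c k : ℝ) : ℂ) * ((w k : ℂ) * z ^ k)) atTop := by
  have hM : 0 ≤ M := by
    have h1 := hs 1 one_pos
    have h2 := hL 1 one_pos
    have : 0 ≤ ∑ j ∈ Finset.range 1, |s 1 j| := Finset.sum_nonneg (fun j _ => abs_nonneg _)
    linarith
  -- coefficients converge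
  have hcoef : ∀ k : ℕ, Tendsto (fun n : ℕ => ecoef n (L n) (s n) k) atTop (𝓝 (c k)) := by
    intro k
    have hz : Tendsto (fun n : ℕ => 2 * M * ((k : ℝ) ^ 3 / (n : ℝ) ^ 2)) atTop (𝓝 0) := by
      have h1 : Tendsto (fun n : ℕ => ((n : ℝ) ^ 2)) atTop atTop :=
        (tendsto_pow_atTop two_ne_zero).comp tendsto_natCast_atTop_atTop
      have h2 := (h1.const_div_atTop ((k : ℝ) ^ 3)).const_mul (2 * M)
      simpa using h2
    have hd : Tendsto (fun n : ℕ => ecoef n (L n) (s n) k - (L n - ∑ j ∈ Finset.range n, s n j * ((j : ℝ) / n) ^ (2 * k))) atTop (𝓝 0) := by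
      apply squeeze_zero_norm' _ hz
      filter_upwards [eventually_gt_atTop 0] with n hn
      rw [Real.norm_eq_abs]
      refine (ecoef_approx n hn (L n) (s n) (hs n hn) k).trans ?_
      apply mul_le_mul_of_nonneg_right _ (by positivity)
      linarith [hL n hn]
    have := hd.add (hc k)
    simpa using this
  have hcb : ∀ k, |c k| ≤ 2 * M := by
    intro k
    apply le_of_tendsto (hcoef k).abs
    filter_upwards [eventually_gt_atTop 0] with n hn
    exact (ecoef_abs n (L n) (s n) (hs n hn) k).trans (by linarith [hL n hn])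
  rw [Metric.tendstoLocallyUniformly_iff]
  intro ε hε z0
  set r : ℝ := ‖z0‖ + 1 with hr
  have hr0 : 0 ≤ r := by positivity
  have hdom : Tendsto (fun n : ℕ => ∑' k : ℕ, |ecoef n (L n) (s n) k - c k| * (w k * r ^ k)) atTop (𝓝 0) := by
    have h1 := tendsto_tsum_of_dominated_convergence (𝓕 := atTop)
      (f := fun (n : ℕ) (k : ℕ) => |ecoef n (L n) (s n) k - c k| * (w k * r ^ k)) (g := fun _ => (0 : ℝ))
      (bound := fun k => (4 * M) * (w k * r ^ k)) ((w_summable r hr0).mul_left _) ?_ ?_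
    · simpa using h1
    · intro k
      have h2 : Tendsto (fun n : ℕ => |ecoef n (L n) (s n) k - c k|) atTop (𝓝 0) := by
        have := ((hcoef k).sub_const (c k)).abs
        simpa using this
      have h3 := h2.mul_const (w k * r ^ k)
      simpa using h3
    · filter_upwards [eventually_gt_atTop 0] with n hn k
      have hwk : 0 ≤ w k * r ^ k := mul_nonneg (w_nonneg k) (pow_nonneg hr0 k)
      rw [Real.norm_eq_abs, abs_of_nonneg (mul_nonneg (abs_nonneg _) hwk)]
      apply mul_le_mul_of_nonneg_right _ hwk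
      have h4 := abs_sub (ecoef n (L n) (s n) k) (c k)
      have h5 := (ecoef_abs n (L n) (s n) (hs n hn) k)
      have h6 := hcb k
      have h7 := hL n hn
      linarith
  refine ⟨Metric.ball 0 r, Metric.isOpen_ball.mem_nhds (by simp [hr]), ?_⟩
  have hev := hdom.eventually (gt_mem_nhds hε)
  filter_upwards [hev, eventually_gt_atTop 0] with n hn1 hn z hz
  have hzr : ‖z‖ ≤ r := by
    have := mem_ball_zero_iff.1 hz
    exact this.le
  refine lt_of_le_of_lt ?_ hn1
  rw [R_tsum n hn, dist_comm, dist_eq_norm]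
  have hb : ∀ (u : ℕ → ℝ) (B : ℝ), (∀ k, |u k| ≤ B) → Summable (fun k : ℕ => ‖((u k : ℝ) : ℂ) * ((w k : ℂ) * z ^ k)‖) := by
    intro u B hu
    refine Summable.of_nonneg_of_le (fun k => norm_nonneg _) ?_ ((w_summable r hr0).mul_left B)
    intro k
    rw [norm_mul, norm_mul, norm_pow, Complex.norm_real, Complex.norm_real, Real.norm_eq_abs, Real.norm_eq_abs,
      abs_of_nonneg (w_nonneg k)]
    have hB : 0 ≤ B := (abs_nonneg (u 0)).trans (hu 0)
    have : ‖z‖ ^ k ≤ r ^ k := pow_le_pow_left₀ (norm_nonneg _) hzr k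
    have hw := w_nonneg k
    gcongr
    exact hu k
  have hs1 := hb (fun k => ecoef n (L n) (s n) k) (2 * M) (fun k =>
    (ecoef_abs n (L n) (s n) (hs n hn) k).trans (by linarith [hL n hn]))
  have hs2 := hb c (2 * M) hcb
  rw [← hs1.of_norm.tsum_sub hs2.of_norm]
  have hb2 : ∀ k, ‖((ecoef n (L n) (s n) k : ℝ) : ℂ) * ((w k : ℂ) * z ^ k) - ((c k : ℝ) : ℂ) * ((w k : ℂ) * z ^ k)‖
      ≤ |ecoef n (L n) (s n) k - c k| * (w k * r ^ k) := by
    intro k
    rw [← sub_mul, ← Complex.ofReal_sub, norm_mul, norm_mul, norm_pow, Complex.norm_real, Complex.norm_real,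
      Real.norm_eq_abs, Real.norm_eq_abs, abs_of_nonneg (w_nonneg k)]
    have : ‖z‖ ^ k ≤ r ^ k := pow_le_pow_left₀ (norm_nonneg _) hzr k
    have hw := w_nonneg k
    gcongr
  have hs3 : Summable (fun k : ℕ => |ecoef n (L n) (s n) k - c k| * (w k * r ^ k)) := by
    refine Summable.of_nonneg_of_le (fun k => mul_nonneg (abs_nonneg _) (mul_nonneg (w_nonneg k) (pow_nonneg hr0 k))) ?_
      ((w_summable r hr0).mul_left (4 * M))
    intro k
    apply mul_le_mul_of_nonneg_right _ (mul_nonneg (w_nonneg k) (pow_nonneg hr0 k))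
    have h4 := abs_sub (ecoef n (L n) (s n) k) (c k)
    have h5 := (ecoef_abs n (L n) (s n) (hs n hn) k)
    have h6 := hcb k
    have h7 := hL n hn
    linarith
  exact tsum_of_norm_bounded hs3.hasSum hb2

end alg

section ana
open MeasureTheory Set Filter Topology


noncomputable def gg (v : ℝ) : ℝ := (Real.sqrt (Real.exp v - 1))⁻¹
noncomputable def hh (v : ℝ) : ℝ := (Real.sqrt v)⁻¹

lemma gg_nonneg (v : ℝ) : 0 ≤ gg v := by unfold gg; positivity
lemma hh_nonneg (v : ℝ) : 0 ≤ hh v := by unfold hh; positivity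

lemma gg_meas : Measurable gg := by unfold gg; fun_prop
lemma hh_meas : Measurable hh := by unfold hh; fun_prop

lemma exp_sub_one_pos {v : ℝ} (hv : 0 < v) : 0 < Real.exp v - 1 := by
  have := Real.add_one_lt_exp hv.ne'
  linarith

lemma sqrt_deriv {v : ℝ} (hv : 0 < v) :
    HasDerivAt (fun v : ℝ => Real.sqrt (Real.exp v - 1)) (Real.exp v / (2 * Real.sqrt (Real.exp v - 1))) v := by
  have h1 : HasDerivAt (fun v : ℝ => Real.exp v - 1) (Real.exp v) v := (Real.hasDerivAt_exp v).sub_const 1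
  exact h1.sqrt (exp_sub_one_pos hv).ne'

lemma sqrt_tendsto : Tendsto (fun v : ℝ => Real.sqrt (Real.exp v - 1)) atTop atTop := by
  apply Real.tendsto_sqrt_atTop.comp
  exact tendsto_atTop_add_const_right _ _ Real.tendsto_exp_atTop

lemma arctan_deriv {v : ℝ} (hv : 0 < v) :
    HasDerivAt (fun v : ℝ => 2 * Real.arctan (Real.sqrt (Real.exp v - 1))) (gg v) v := by
  have h1 := (sqrt_deriv hv).arctan.const_mul 2
  refine h1.congr_deriv ?_
  have hp := exp_sub_one_pos hv
  rw [Real.sq_sqrt hp.le]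
  unfold gg
  have h2 : 0 < Real.sqrt (Real.exp v - 1) := Real.sqrt_pos.2 hp
  have h3 := Real.exp_pos v
  field_simp
  ring

lemma arctan_tendsto : Tendsto (fun v : ℝ => 2 * Real.arctan (Real.sqrt (Real.exp v - 1))) atTop (𝓝 Real.pi) := by
  have h1 : Tendsto Real.arctan atTop (𝓝 (Real.pi / 2)) :=
    tendsto_nhds_of_tendsto_nhdsWithin Real.tendsto_arctan_atTop
  have h2 := (h1.comp sqrt_tendsto).const_mul 2
  have e : 2 * (Real.pi / 2) = Real.pi := by ring
  rw [e] at h2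
  exact h2

lemma arctan_cont : Continuous (fun v : ℝ => 2 * Real.arctan (Real.sqrt (Real.exp v - 1))) := by fun_prop

lemma gg_int : IntegrableOn gg (Ioi 0) :=
  integrableOn_Ioi_deriv_of_nonneg arctan_cont.continuousWithinAt (fun _ hx => arctan_deriv hx)
    (fun x _ => gg_nonneg x) arctan_tendsto

lemma gg_integral : ∫ v in Ioi (0:ℝ), gg v = Real.pi := by
  rw [integral_Ioi_of_hasDerivAt_of_nonneg arctan_cont.continuousWithinAt (fun x hx => arctan_deriv hx)
    (fun x _ => gg_nonneg x) arctan_tendsto]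
  simp

lemma egg_int (k : ℝ) (hk : 0 ≤ k) : IntegrableOn (fun v => Real.exp (-k * v) * gg v) (Ioi 0) := by
  refine Integrable.mono' gg_int ?_ ?_
  · exact ((by fun_prop : Measurable (fun v : ℝ => Real.exp (-k * v))).mul gg_meas).aestronglyMeasurable
  · filter_upwards [ae_restrict_mem measurableSet_Ioi] with v hv
    rw [Real.norm_eq_abs, abs_of_nonneg (mul_nonneg (Real.exp_pos _).le (gg_nonneg v))]
    have : Real.exp (-k * v) ≤ 1 := by
      rw [Real.exp_le_one_iff]
      have : 0 ≤ k * v := mul_nonneg hk (le_of_lt hv)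
      linarith
    have h2 := gg_nonneg v
    nlinarith

noncomputable def I1 (k : ℝ) : ℝ := ∫ v in Ioi (0:ℝ), Real.exp (-k * v) * gg v

lemma I1_zero : I1 0 = Real.pi := by
  unfold I1
  rw [← gg_integral]
  congr 1
  ext v
  simp

lemma I1_rec (k : ℝ) (hk : 1 ≤ k) : k * I1 k = (k - 1 / 2) * I1 (k - 1) := by
  have hd : ∀ v ∈ Ioi (0:ℝ), HasDerivAt (fun v => Real.exp (-k * v) * Real.sqrt (Real.exp v - 1))
      (k * (Real.exp (-k * v) * gg v) - (k - 1 / 2) * (Real.exp (-(k - 1) * v) * gg v)) v := by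
    intro v hv
    have hv' : 0 < v := hv
    have h1 : HasDerivAt (fun v : ℝ => Real.exp (-k * v)) (Real.exp (-k * v) * (-k * 1)) v :=
      ((hasDerivAt_id v).const_mul (-k)).exp
    have h2 := h1.mul (sqrt_deriv hv')
    refine h2.congr_deriv ?_
    have hp := exp_sub_one_pos hv'
    have h3 : 0 < Real.sqrt (Real.exp v - 1) := Real.sqrt_pos.2 hp
    have h4 : Real.sqrt (Real.exp v - 1) ^ 2 = Real.exp v - 1 := Real.sq_sqrt hp.le
    have h5 : Real.exp (-(k - 1) * v) = Real.exp (-k * v) * Real.exp v := by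
      rw [← Real.exp_add]; ring_nf
    rw [h5]
    unfold gg
    field_simp
    rw [h4]
    ring
  have hi : IntegrableOn (fun v => k * (Real.exp (-k * v) * gg v) - (k - 1 / 2) * (Real.exp (-(k - 1) * v) * gg v)) (Ioi 0) :=
    ((egg_int k (by linarith)).const_mul k).sub ((egg_int (k - 1) (by linarith)).const_mul _)
  have ht : Tendsto (fun v => Real.exp (-k * v) * Real.sqrt (Real.exp v - 1)) atTop (𝓝 0) := by
    have h1 : Tendsto (fun v : ℝ => Real.exp (-(1/2) * v)) atTop (𝓝 0) := by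
      apply Real.tendsto_exp_atBot.comp
      apply Tendsto.const_mul_atTop_of_neg (by norm_num) tendsto_id
    refine squeeze_zero' ?_ ?_ h1
    · filter_upwards with v
      positivity
    · filter_upwards [eventually_gt_atTop 0] with v hv
      have h2 : Real.sqrt (Real.exp v - 1) ≤ Real.exp (v / 2) := by
        rw [Real.sqrt_le_left (Real.exp_pos _).le, ← Real.exp_nat_mul]
        have : ((2:ℕ) : ℝ) * (v / 2) = v := by push_cast; ring
        rw [this]; linarith
      calc Real.exp (-k * v) * Real.sqrt (Real.exp v - 1) ≤ Real.exp (-k * v) * Real.exp (v / 2) :=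
            mul_le_mul_of_nonneg_left h2 (Real.exp_pos _).le
        _ = Real.exp (-k * v + v / 2) := by rw [Real.exp_add]
        _ ≤ Real.exp (-(1/2) * v) := by
            apply Real.exp_le_exp.2
            nlinarith
  have hc : ContinuousWithinAt (fun v => Real.exp (-k * v) * Real.sqrt (Real.exp v - 1)) (Ici 0) 0 := by
    apply Continuous.continuousWithinAt
    fun_prop
  have h := integral_Ioi_of_hasDerivAt_of_tendsto hc hd hi ht
  rw [integral_sub ((egg_int k (by linarith)).const_mul k) ((egg_int (k - 1) (by linarith)).const_mul _),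
    integral_const_mul, integral_const_mul] at h
  simp at h
  unfold I1
  simp
  linarith

lemma I1_closed (k : ℕ) : I1 k = Real.pi * ((2 * k).factorial : ℝ) / (4 ^ k * (k.factorial : ℝ) ^ 2) := by
  induction k with
  | zero => simp [I1_zero]
  | succ k ih =>
    have h1 := I1_rec ((k + 1 : ℕ) : ℝ) (by push_cast; linarith [Nat.cast_nonneg (α := ℝ) k])
    have h2 : (((k + 1 : ℕ) : ℝ) - 1) = (k : ℝ) := by push_cast; ring
    rw [h2, ih] at h1
    have hk : (0:ℝ) < ((k + 1 : ℕ) : ℝ) := by positivity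
    rw [mul_comm] at h1
    rw [← eq_div_iff hk.ne'] at h1
    rw [h1, show 2 * (k + 1) = (2 * k + 1) + 1 by ring, Nat.factorial_succ, Nat.factorial_succ, Nat.factorial_succ]
    have hf : (0:ℝ) < (k.factorial : ℝ) := by positivity
    push_cast
    field_simp
    ring

lemma ehh_int (k : ℝ) (hk : 0 < k) : IntegrableOn (fun v => Real.exp (-k * v) * hh v) (Ioi 0) := by
  have h := integrableOn_rpow_mul_exp_neg_mul_rpow (s := -(1/2)) (p := 1) (b := k) (by norm_num) one_pos hk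
  refine h.congr_fun ?_ measurableSet_Ioi
  intro v hv
  have hv' : (0:ℝ) < v := hv
  simp only
  unfold hh
  rw [Real.rpow_one, Real.rpow_neg hv'.le, ← Real.sqrt_eq_rpow, mul_comm]

lemma I2 (k : ℝ) (hk : 0 < k) : ∫ v in Ioi (0:ℝ), Real.exp (-k * v) * hh v = Real.sqrt (Real.pi / k) := by
  have h := Real.integral_rpow_mul_exp_neg_mul_Ioi (a := 1/2) (r := k) (by norm_num) hk
  rw [Real.Gamma_one_half_eq, ← Real.sqrt_eq_rpow] at h
  rw [Real.sqrt_div Real.pi_pos.le, div_eq_mul_inv, mul_comm, ← Real.sqrt_inv, inv_eq_one_div k, ← h]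
  apply setIntegral_congr_fun measurableSet_Ioi
  intro v hv
  have hv' : (0:ℝ) < v := hv
  simp only
  unfold hh
  rw [show (1/2 - 1 : ℝ) = -(1/2) by norm_num, Real.rpow_neg hv'.le, ← Real.sqrt_eq_rpow, mul_comm]
  congr 2
  ring

noncomputable def A (s : ℝ) : ℝ := ∫ v in (0:ℝ)..s, gg v * hh (s - v)

lemma A_laplace (k : ℝ) (hk : 0 < k) : ∫ s in Ioi (0:ℝ), Real.exp (-k * s) * A s = I1 k * Real.sqrt (Real.pi / k) := by
  have h := integral_posConvolution (egg_int k hk.le) (ehh_int k hk) (ContinuousLinearMap.mul ℝ ℝ)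
  simp only [ContinuousLinearMap.mul_apply'] at h
  rw [I2 k hk] at h
  unfold I1
  rw [← h]
  congr 1
  ext s
  unfold A
  rw [← intervalIntegral.integral_const_mul]
  congr 1
  ext v
  have : Real.exp (-k * s) = Real.exp (-k * v) * Real.exp (-k * (s - v)) := by
    rw [← Real.exp_add]; ring_nf
  rw [this]; ring

lemma A_laplace_int (k : ℝ) (hk : 0 < k) : IntegrableOn (fun s => Real.exp (-k * s) * A s) (Ioi 0) := by
  have h := integrable_posConvolution (egg_int k hk.le) (ehh_int k hk) (ContinuousLinearMap.mul ℝ ℝ)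
  unfold posConvolution at h
  rw [integrable_indicator_iff measurableSet_Ioi] at h
  refine h.congr_fun ?_ measurableSet_Ioi
  intro s hs
  simp only [ContinuousLinearMap.mul_apply']
  unfold A
  rw [← intervalIntegral.integral_const_mul]
  congr 1
  ext v
  have : Real.exp (-k * s) = Real.exp (-k * v) * Real.exp (-k * (s - v)) := by
    rw [← Real.exp_add]; ring_nf
  rw [this]; ring

noncomputable def K (s u : ℝ) : ℝ := Real.sqrt (s / (Real.exp (s * u) - 1)) * (Real.sqrt (1 - u))⁻¹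

lemma A_eq (s : ℝ) (hs : 0 < s) : A s = ∫ u in (0:ℝ)..1, K s u := by
  have h := intervalIntegral.integral_comp_mul_left (a := 0) (b := 1) (fun v => gg v * hh (s - v)) hs.ne'
  rw [mul_zero, mul_one] at h
  unfold A
  rw [eq_comm, smul_eq_mul, inv_mul_eq_div, eq_comm, eq_div_iff hs.ne'] at h
  rw [← h, mul_comm, ← intervalIntegral.integral_const_mul]
  apply intervalIntegral.integral_congr_ae
  filter_upwards with u hu
  rw [uIoc_of_le zero_le_one] at hu
  unfold K gg hh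
  have h1 : 0 < s * u := mul_pos hs hu.1
  have h2 := exp_sub_one_pos h1
  have h3 : 0 ≤ 1 - u := by linarith [hu.2]
  rw [show s - s * u = s * (1 - u) by ring, Real.sqrt_mul hs.le, Real.sqrt_div hs.le, mul_inv]
  have h4 : Real.sqrt s * Real.sqrt s = s := Real.mul_self_sqrt hs.le
  have h5 : 0 < Real.sqrt s := Real.sqrt_pos.2 hs
  have h6 : s * (Real.sqrt s)⁻¹ = Real.sqrt s := by
    field_simp; exact (sq (Real.sqrt s) ▸ h4.symm)
  calc s * ((Real.sqrt (Real.exp (s * u) - 1))⁻¹ * ((Real.sqrt s)⁻¹ * (Real.sqrt (1 - u))⁻¹))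
      = (s * (Real.sqrt s)⁻¹) * (Real.sqrt (Real.exp (s * u) - 1))⁻¹ * (Real.sqrt (1 - u))⁻¹ := by ring
    _ = _ := by rw [h6, div_eq_mul_inv]

noncomputable def bb (u : ℝ) : ℝ := (Real.sqrt u)⁻¹ * (Real.sqrt (1 - u))⁻¹

lemma bb_int : IntegrableOn bb (Ioc 0 1) := by
  apply intervalIntegral.integrableOn_deriv_of_nonneg (g := fun u => 2 * Real.arcsin (Real.sqrt u))
  · apply Continuous.continuousOn
    have := Real.continuous_arcsin
    fun_prop
  · intro u hu
    have h1 : HasDerivAt (fun u : ℝ => Real.sqrt u) (1 / (2 * Real.sqrt u)) u := Real.hasDerivAt_sqrt hu.1.ne'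
    have hs : 0 < Real.sqrt u := Real.sqrt_pos.2 hu.1
    have hs1 : Real.sqrt u < 1 := by
      rw [Real.sqrt_lt' one_pos]; simpa using hu.2
    have h2 := ((Real.hasDerivAt_arcsin (x := Real.sqrt u) (by linarith) hs1.ne).comp u h1).const_mul 2
    refine h2.congr_deriv ?_
    unfold bb
    rw [Real.sq_sqrt hu.1.le]
    have h3 : 0 < Real.sqrt (1 - u) := Real.sqrt_pos.2 (by linarith [hu.2])
    field_simp
  · intro u _
    unfold bb; positivity

lemma K_nonneg (s u : ℝ) : 0 ≤ K s u := by unfold K; positivity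

lemma K_le (s u : ℝ) (hs : 0 < s) (hu : u ∈ Ioc (0:ℝ) 1) : K s u ≤ bb u := by
  unfold K bb
  apply mul_le_mul_of_nonneg_right _ (by positivity)
  rw [← Real.sqrt_inv]
  apply Real.sqrt_le_sqrt
  have h1 : 0 < s * u := mul_pos hs hu.1
  have h2 : s * u ≤ Real.exp (s * u) - 1 := by linarith [Real.add_one_le_exp (s * u)]
  have h3 := hu.1
  rw [div_le_iff₀ (by linarith)]
  calc s = u⁻¹ * (s * u) := by field_simp
    _ ≤ u⁻¹ * (Real.exp (s * u) - 1) := mul_le_mul_of_nonneg_left h2 (by positivity)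

lemma K_int (s : ℝ) (hs : 0 < s) : IntegrableOn (K s) (Ioc 0 1) := by
  refine Integrable.mono' bb_int ?_ ?_
  · apply Measurable.aestronglyMeasurable
    unfold K
    fun_prop
  · filter_upwards [ae_restrict_mem measurableSet_Ioc] with u hu
    rw [Real.norm_eq_abs, abs_of_nonneg (K_nonneg s u)]
    exact K_le s u hs hu

lemma A_eq' (s : ℝ) (hs : 0 < s) : A s = ∫ u in Ioc (0:ℝ) 1, K s u := by
  rw [A_eq s hs, intervalIntegral.integral_of_le zero_le_one]

lemma K_anti (s s' u : ℝ) (hs : 0 < s) (hss : s ≤ s') (hu : u ∈ Ioc (0:ℝ) 1) : K s' u ≤ K s u := by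
  unfold K
  apply mul_le_mul_of_nonneg_right _ (by positivity)
  apply Real.sqrt_le_sqrt
  have hs' : 0 < s' := by linarith
  have h1 := exp_sub_one_pos (mul_pos hs hu.1)
  have h2 := exp_sub_one_pos (mul_pos hs' hu.1)
  rw [div_le_div_iff₀ h2 h1]
  -- exp (s u) ≤ (s/s') exp (s' u) + (1 - s/s')
  have ha : 0 ≤ s / s' := by positivity
  have hb : 0 ≤ 1 - s / s' := by rw [sub_nonneg]; exact div_le_one_of_le₀ hss hs'.le
  have h3 := convexOn_exp.2 (mem_univ (s' * u)) (mem_univ (0:ℝ)) ha hb (by ring)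
  simp only [smul_eq_mul, mul_zero, add_zero, Real.exp_zero, mul_one] at h3
  have h4 : s / s' * (s' * u) = s * u := by field_simp
  rw [h4] at h3
  have h5 : s' * (s / s' * Real.exp (s' * u) + (1 - s / s')) = s * Real.exp (s' * u) + (s' - s) := by
    field_simp
  have h6 := mul_le_mul_of_nonneg_left h3 hs'.le
  rw [h5] at h6
  linarith

lemma A_anti (s s' : ℝ) (hs : 0 < s) (hss : s ≤ s') : A s' ≤ A s := by
  rw [A_eq' s hs, A_eq' s' (by linarith)]
  exact setIntegral_mono_on (K_int s' (by linarith)) (K_int s hs) measurableSet_Ioc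
    (fun u hu => K_anti s s' u hs hss hu)

noncomputable def CC : ℝ := ∫ u in Ioc (0:ℝ) 1, bb u

lemma A_le (s : ℝ) (hs : 0 < s) : A s ≤ CC := by
  rw [A_eq' s hs]
  exact setIntegral_mono_on (K_int s hs) bb_int measurableSet_Ioc (fun u hu => K_le s u hs hu)

lemma A_nonneg (s : ℝ) (hs : 0 < s) : 0 ≤ A s := by
  rw [A_eq' s hs]
  exact setIntegral_nonneg measurableSet_Ioc (fun u _ => K_nonneg s u)


lemma pow_diff_le (x y : ℝ) (hy : 0 ≤ y) (hyx : y ≤ x) (hx : x ≤ 1) (m : ℕ) :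
    x ^ m - y ^ m ≤ m * (x - y) := by
  induction m with
  | zero => simp
  | succ m ih =>
    have h1 : 0 ≤ x ^ m - y ^ m := by
      have := pow_le_pow_left₀ hy hyx m
      linarith
    have h2 : y ^ m ≤ 1 := pow_le_one₀ hy (hyx.trans hx)
    have h3 : x ^ (m + 1) - y ^ (m + 1) = x * (x ^ m - y ^ m) + y ^ m * (x - y) := by ring
    rw [h3]
    push_cast
    nlinarith

/-- `k e^{-ks}` integrals -/
lemma exp_Ioc (k a b : ℝ) (hab : a ≤ b) :
    ∫ s in Ioc a b, k * Real.exp (-k * s) = Real.exp (-k * a) - Real.exp (-k * b) := by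
  rw [← intervalIntegral.integral_of_le hab]
  have h : ∀ s ∈ uIcc a b, HasDerivAt (fun s => -Real.exp (-k * s)) (k * Real.exp (-k * s)) s := by
    intro s _
    have h1 : HasDerivAt (fun v : ℝ => Real.exp (-k * v)) (Real.exp (-k * s) * (-k * 1)) s :=
      ((hasDerivAt_id s).const_mul (-k)).exp
    refine h1.neg.congr_deriv ?_
    ring
  rw [intervalIntegral.integral_eq_sub_of_hasDerivAt h (Continuous.intervalIntegrable (by fun_prop) _ _)]
  ring

lemma exp_Ioi_int (k b : ℝ) (hk : 0 < k) : IntegrableOn (fun s => k * Real.exp (-k * s)) (Ioi b) := by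
  have := (integrableOn_exp_mul_Ioi (a := -k) (by linarith) b).const_mul k
  exact this

lemma exp_Ioi (k b : ℝ) (hk : 0 < k) :
    ∫ s in Ioi b, k * Real.exp (-k * s) = Real.exp (-k * b) := by
  rw [integral_const_mul, integral_exp_mul_Ioi (by linarith)]
  field_simp

noncomputable def ff (k : ℝ) (s : ℝ) : ℝ := k * Real.exp (-k * s) * A s

lemma ff_int (k : ℝ) (hk : 0 < k) : IntegrableOn (ff k) (Ioi 0) := by
  have h : IntegrableOn (fun s => k * (Real.exp (-k * s) * A s)) (Ioi 0) := (A_laplace_int k hk).const_mul k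
  refine h.congr_fun ?_ measurableSet_Ioi
  intro s _
  unfold ff
  ring

lemma ff_integral (k : ℝ) (hk : 0 < k) : ∫ s in Ioi (0:ℝ), ff k s = k * (I1 k * Real.sqrt (Real.pi / k)) := by
  rw [← A_laplace k hk, ← integral_const_mul]
  congr 1
  ext s
  unfold ff
  ring

/-- the increasing function -/
noncomputable def BB (t : ℝ) : ℝ := if t ≤ 0 then 0 else if t < 1 then A (-2 * Real.log t) else CC

lemma CC_nonneg : 0 ≤ CC := (A_nonneg 1 one_pos).trans (A_le 1 one_pos)

lemma log_pos' {t : ℝ} (h0 : 0 < t) (h1 : t < 1) : 0 < -2 * Real.log t := by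
  have := Real.log_neg h0 h1
  linarith

lemma BB_mono {t t' : ℝ} (h : t ≤ t') : BB t ≤ BB t' := by
  unfold BB
  by_cases h1 : t' ≤ 0
  · rw [if_pos h1, if_pos (h.trans h1)]
  · rw [if_neg h1]
    by_cases h2 : t ≤ 0
    · rw [if_pos h2]
      by_cases h3 : t' < 1
      · rw [if_pos h3]; exact A_nonneg _ (log_pos' (not_le.1 h1) h3)
      · rw [if_neg h3]; exact CC_nonneg
    · rw [if_neg h2]
      by_cases h3 : t' < 1
      · rw [if_pos h3, if_pos (lt_of_le_of_lt h h3)]
        apply A_anti _ _ (log_pos' (not_le.1 h1) h3)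
        have := Real.log_le_log (not_le.1 h2) h
        linarith
      · rw [if_neg h3]
        by_cases h4 : t < 1
        · rw [if_pos h4]; exact A_le _ (log_pos' (not_le.1 h2) h4)
        · rw [if_neg h4]

lemma BB_nonneg (t : ℝ) : 0 ≤ BB t := by
  have h := BB_mono (min_le_left t 0)
  have : BB (min t 0) = 0 := by
    unfold BB; rw [if_pos (min_le_right _ _)]
  rw [this] at h; exact h

lemma BB_le (t : ℝ) : BB t ≤ CC := by
  have h := BB_mono (le_max_left t 1)
  have : BB (max t 1) = CC := by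
    unfold BB
    have h1 : (1:ℝ) ≤ max t 1 := le_max_right _ _
    rw [if_neg (by linarith), if_neg (by linarith)]
  rw [this] at h; exact h

lemma exp_log_pow (k : ℕ) {t : ℝ} (ht : 0 < t) : Real.exp (-(k:ℝ) * (-2 * Real.log t)) = t ^ (2 * k) := by
  have : -(k:ℝ) * (-2 * Real.log t) = ((2 * k : ℕ) : ℝ) * Real.log t := by push_cast; ring
  rw [this, Real.exp_nat_mul, Real.exp_log ht]

/-- partial integral -/
noncomputable def Psi (k : ℕ) (t : ℝ) : ℝ := if t ≤ 0 then 0 else ∫ s in Ioi (-2 * Real.log t), ff k s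

lemma Psi_bound (k : ℕ) (hk : 0 < k) {t t' : ℝ} (h0 : 0 ≤ t) (h : t < t') (h1 : t' ≤ 1) :
    BB t * (t' ^ (2 * k) - t ^ (2 * k)) ≤ Psi k t' - Psi k t ∧
    Psi k t' - Psi k t ≤ BB t' * (t' ^ (2 * k) - t ^ (2 * k)) := by
  have hk' : (0:ℝ) < k := by exact_mod_cast hk
  have ht' : 0 < t' := by linarith
  set a := -2 * Real.log t' with ha
  have ha0 : 0 ≤ a := by
    have := Real.log_nonpos ht'.le h1
    linarith
  have hea : Real.exp (-(k:ℝ) * a) = t' ^ (2 * k) := exp_log_pow k ht'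
  -- upper bound of A on (a, ∞)
  have hup : ∀ s ∈ Ioi a, A s ≤ BB t' := by
    intro s hs
    have hs' : a < s := hs
    unfold BB
    rw [if_neg (not_le.2 ht')]
    by_cases h3 : t' < 1
    · rw [if_pos h3]
      exact A_anti _ _ (log_pos' ht' h3) hs'.le
    · rw [if_neg h3]; exact A_le s (by linarith)
  have hPt' : Psi k t' = ∫ s in Ioi a, ff k s := by
    unfold Psi; rw [if_neg (not_le.2 ht')]
  have hinta : IntegrableOn (ff k) (Ioi a) := (ff_int k hk').mono_set (Ioi_subset_Ioi ha0)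
  rcases h0.eq_or_lt with h2 | h2
  · subst h2
    have hP0 : Psi k 0 = 0 := by unfold Psi; rw [if_pos le_rfl]
    have hB0 : BB 0 = 0 := by unfold BB; rw [if_pos le_rfl]
    rw [hP0, hB0, hPt', zero_pow (by omega), sub_zero, sub_zero, zero_mul]
    constructor
    · apply setIntegral_nonneg measurableSet_Ioi
      intro s hs
      have hs' : a < s := hs
      unfold ff
      have := A_nonneg s (by linarith)
      positivity
    · rw [← hea, ← exp_Ioi k a hk', ← integral_const_mul]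
      apply setIntegral_mono_on hinta ((exp_Ioi_int k a hk').const_mul _) measurableSet_Ioi
      intro s hs
      unfold ff
      rw [mul_comm (BB t')]
      exact mul_le_mul_of_nonneg_left (hup s hs) (by positivity)
  · set b := -2 * Real.log t with hb
    have hab : a < b := by
      have := Real.log_lt_log h2 h
      linarith
    have hb0 : 0 < b := by linarith
    have heb : Real.exp (-(k:ℝ) * b) = t ^ (2 * k) := exp_log_pow k h2
    have hPt : Psi k t = ∫ s in Ioi b, ff k s := by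
      unfold Psi; rw [if_neg (not_le.2 h2)]
    have hBt : BB t = A b := by
      unfold BB; rw [if_neg (not_le.2 h2), if_pos (by linarith)]
    have hintb : IntegrableOn (ff k) (Ioi b) := (ff_int k hk').mono_set (Ioi_subset_Ioi hb0.le)
    have hintab : IntegrableOn (ff k) (Ioc a b) := hinta.mono_set Ioc_subset_Ioi_self
    have hsplit : ∫ s in Ioi a, ff k s = (∫ s in Ioc a b, ff k s) + ∫ s in Ioi b, ff k s := by
      rw [← Ioc_union_Ioi_eq_Ioi hab.le]
      exact setIntegral_union (Ioc_disjoint_Ioi le_rfl) measurableSet_Ioi hintab hintb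
    have hdiff : Psi k t' - Psi k t = ∫ s in Ioc a b, ff k s := by
      rw [hPt', hPt, hsplit]; ring
    have hei : IntegrableOn (fun s => (k:ℝ) * Real.exp (-k * s)) (Ioc a b) :=
      (exp_Ioi_int k a hk').mono_set Ioc_subset_Ioi_self
    rw [hdiff, ← hea, ← heb, ← exp_Ioc k a b hab.le, ← integral_const_mul, ← integral_const_mul]
    constructor
    · apply setIntegral_mono_on (hei.const_mul _) hintab measurableSet_Ioc
      intro s hs
      unfold ff
      rw [mul_comm (BB t), hBt]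
      apply mul_le_mul_of_nonneg_left _ (by positivity)
      exact A_anti s b (by linarith [hs.1]) hs.2
    · apply setIntegral_mono_on hintab (hei.const_mul _) measurableSet_Ioc
      intro s hs
      unfold ff
      rw [mul_comm (BB t')]
      exact mul_le_mul_of_nonneg_left (hup s hs.1) (by positivity)

lemma Psi_one (k : ℕ) : Psi k 1 = ∫ s in Ioi (0:ℝ), ff k s := by
  unfold Psi
  rw [if_neg (by norm_num)]
  simp

lemma riemann (k : ℕ) (hk : 0 < k) (n : ℕ) (hn : 0 < n) :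
    |∑ j ∈ Finset.range n, BB ((j:ℝ) / n) * ((((j+1 : ℕ):ℝ) / n) ^ (2 * k) - ((j:ℝ) / n) ^ (2 * k)) - ∫ s in Ioi (0:ℝ), ff k s|
      ≤ CC * (2 * k / n) := by
  have hn' : (0:ℝ) < n := by exact_mod_cast hn
  have key : ∀ j ∈ Finset.range n,
      BB ((j:ℝ) / n) * ((((j+1 : ℕ):ℝ) / n) ^ (2 * k) - ((j:ℝ) / n) ^ (2 * k)) ≤ Psi k (((j+1 : ℕ):ℝ) / n) - Psi k ((j:ℝ) / n) ∧
      Psi k (((j+1 : ℕ):ℝ) / n) - Psi k ((j:ℝ) / n) ≤ BB (((j+1 : ℕ):ℝ) / n) * ((((j+1 : ℕ):ℝ) / n) ^ (2 * k) - ((j:ℝ) / n) ^ (2 * k)) ∧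
      (BB (((j+1 : ℕ):ℝ) / n) - BB ((j:ℝ) / n)) * ((((j+1 : ℕ):ℝ) / n) ^ (2 * k) - ((j:ℝ) / n) ^ (2 * k)) ≤
        (BB (((j+1 : ℕ):ℝ) / n) - BB ((j:ℝ) / n)) * (2 * k / n) := by
    intro j hj
    have hjn : j + 1 ≤ n := Finset.mem_range.1 hj
    have hjn' : ((j+1 : ℕ):ℝ) ≤ n := by exact_mod_cast hjn
    have h0 : 0 ≤ (j:ℝ) / n := by positivity
    have h1 : (j:ℝ) / n < ((j+1 : ℕ):ℝ) / n := by
      apply div_lt_div_of_pos_right _ hn'
      push_cast; linarith
    have h2 : ((j+1 : ℕ):ℝ) / n ≤ 1 := div_le_one_of_le₀ hjn' hn'.le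
    obtain ⟨a1, a2⟩ := Psi_bound k hk h0 h1 h2
    refine ⟨a1, a2, ?_⟩
    apply mul_le_mul_of_nonneg_left _ (sub_nonneg.2 (BB_mono h1.le))
    have h3 := pow_diff_le _ _ h0 h1.le h2 (2 * k)
    refine h3.trans (le_of_eq ?_)
    push_cast
    field_simp
    ring
  have tel : ∑ j ∈ Finset.range n, (Psi k (((j+1 : ℕ):ℝ) / n) - Psi k ((j:ℝ) / n)) = ∫ s in Ioi (0:ℝ), ff k s := by
    rw [Finset.sum_range_sub (fun j : ℕ => Psi k ((j:ℝ) / n))]
    rw [div_self hn'.ne', Psi_one]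
    have : Psi k (((0:ℕ):ℝ) / n) = 0 := by
      unfold Psi; rw [if_pos (by simp)]
    rw [this, sub_zero]
  have telB : ∑ j ∈ Finset.range n, (BB (((j+1 : ℕ):ℝ) / n) - BB ((j:ℝ) / n)) ≤ CC := by
    rw [Finset.sum_range_sub (fun j : ℕ => BB ((j:ℝ) / n))]
    have h1 := BB_le ((n:ℝ) / n)
    have h2 := BB_nonneg (((0:ℕ):ℝ) / n)
    linarith
  have lo : ∑ j ∈ Finset.range n, BB ((j:ℝ) / n) * ((((j+1 : ℕ):ℝ) / n) ^ (2 * k) - ((j:ℝ) / n) ^ (2 * k)) ≤ ∫ s in Ioi (0:ℝ), ff k s := by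
    rw [← tel]
    exact Finset.sum_le_sum (fun j hj => (key j hj).1)
  have hi : (∫ s in Ioi (0:ℝ), ff k s) - ∑ j ∈ Finset.range n, BB ((j:ℝ) / n) * ((((j+1 : ℕ):ℝ) / n) ^ (2 * k) - ((j:ℝ) / n) ^ (2 * k)) ≤ CC * (2 * k / n) := by
    rw [← tel, ← Finset.sum_sub_distrib]
    calc _ ≤ ∑ j ∈ Finset.range n, (BB (((j+1 : ℕ):ℝ) / n) - BB ((j:ℝ) / n)) * (2 * k / n) := by
          apply Finset.sum_le_sum
          intro j hj
          obtain ⟨_, a2, a3⟩ := key j hj
          linarith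
      _ = (∑ j ∈ Finset.range n, (BB (((j+1 : ℕ):ℝ) / n) - BB ((j:ℝ) / n))) * (2 * k / n) := by rw [Finset.sum_mul]
      _ ≤ CC * (2 * k / n) := mul_le_mul_of_nonneg_right telB (by positivity)
  rw [abs_le]
  constructor <;> linarith

/-- jumps -/
noncomputable def ss (n j : ℕ) : ℝ := BB ((j:ℝ) / n) - BB (((j - 1 : ℕ):ℝ) / n)

noncomputable def LL (n : ℕ) : ℝ := BB (((n - 1 : ℕ):ℝ) / n) + 1 / n

lemma ss_nonneg (n j : ℕ) : 0 ≤ ss n j := by
  unfold ss
  apply sub_nonneg.2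
  apply BB_mono
  apply div_le_div_of_nonneg_right _ (Nat.cast_nonneg n)
  exact_mod_cast Nat.sub_le j 1

lemma ss_sum (n m : ℕ) : ∑ j ∈ Finset.range m, ss n j = BB (((m - 1 : ℕ):ℝ) / n) := by
  have hB0 : BB 0 = 0 := by unfold BB; rw [if_pos le_rfl]
  induction m with
  | zero => simp [hB0]
  | succ m ih =>
    rw [Finset.sum_range_succ, ih]
    unfold ss
    simp

lemma ss_abel (n k m : ℕ) : ∑ j ∈ Finset.range m, ss n j * ((j:ℝ) / n) ^ (2 * k) =
    BB (((m - 1 : ℕ):ℝ) / n) * ((m:ℝ) / n) ^ (2 * k) -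
      ∑ j ∈ Finset.range m, BB ((j:ℝ) / n) * ((((j+1 : ℕ):ℝ) / n) ^ (2 * k) - ((j:ℝ) / n) ^ (2 * k)) := by
  have hB0 : BB 0 = 0 := by unfold BB; rw [if_pos le_rfl]
  induction m with
  | zero => simp [hB0]
  | succ m ih =>
    rw [Finset.sum_range_succ, Finset.sum_range_succ, ih]
    unfold ss
    simp only [Nat.add_sub_cancel]
    ring

lemma LL_bound (n : ℕ) (hn : 0 < n) : ∑ j ∈ Finset.range n, |ss n j| < LL n ∧ LL n ≤ CC + 1 := by
  have hn' : (0:ℝ) < n := by exact_mod_cast hn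
  constructor
  · have : ∑ j ∈ Finset.range n, |ss n j| = ∑ j ∈ Finset.range n, ss n j :=
      Finset.sum_congr rfl (fun j _ => abs_of_nonneg (ss_nonneg n j))
    rw [this, ss_sum]
    unfold LL
    have : (0:ℝ) < 1 / n := by positivity
    linarith
  · unfold LL
    have h1 := BB_le (((n - 1 : ℕ):ℝ) / n)
    have h2 : (1:ℝ) / n ≤ 1 := by
      apply div_le_one_of_le₀ _ hn'.le
      exact_mod_cast hn
    linarith

noncomputable def cc (k : ℕ) : ℝ := Real.pi * Real.sqrt Real.pi * (Real.sqrt k * ((2 * k).factorial : ℝ) / (4 ^ k * (k.factorial : ℝ) ^ 2))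

lemma cc_eq (k : ℕ) (hk : 0 < k) : ∫ s in Ioi (0:ℝ), ff k s = cc k := by
  have hk' : (0:ℝ) < k := by exact_mod_cast hk
  rw [ff_integral k hk', I1_closed, Real.sqrt_div Real.pi_pos.le]
  unfold cc
  have h1 : 0 < Real.sqrt k := Real.sqrt_pos.2 hk'
  have h2 : Real.sqrt k * Real.sqrt k = k := Real.mul_self_sqrt hk'.le
  have h3 : (k:ℝ) / Real.sqrt k = Real.sqrt k := by
    rw [div_eq_iff h1.ne', h2]
  calc (k:ℝ) * (Real.pi * ((2 * k).factorial : ℝ) / (4 ^ k * (k.factorial : ℝ) ^ 2) * (Real.sqrt Real.pi / Real.sqrt k))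
      = Real.pi * Real.sqrt Real.pi * (((k:ℝ) / Real.sqrt k) * ((2 * k).factorial : ℝ) / (4 ^ k * (k.factorial : ℝ) ^ 2)) := by
        field_simp
    _ = _ := by rw [h3]

lemma cc_tendsto (k : ℕ) :
    Tendsto (fun n : ℕ => LL n - ∑ j ∈ Finset.range n, ss n j * ((j:ℝ) / n) ^ (2 * k)) atTop (𝓝 (cc k)) := by
  have h1n : Tendsto (fun n : ℕ => (1:ℝ) / n) atTop (𝓝 0) := tendsto_one_div_atTop_nhds_zero_nat
  have heq : ∀ n : ℕ, 0 < n → LL n - ∑ j ∈ Finset.range n, ss n j * ((j:ℝ) / n) ^ (2 * k) =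
      1 / n + ∑ j ∈ Finset.range n, BB ((j:ℝ) / n) * ((((j+1 : ℕ):ℝ) / n) ^ (2 * k) - ((j:ℝ) / n) ^ (2 * k)) := by
    intro n hn
    have hn' : (0:ℝ) < n := by exact_mod_cast hn
    rw [ss_abel, div_self hn'.ne', one_pow]
    unfold LL
    ring
  rcases Nat.eq_zero_or_pos k with hk | hk
  · subst hk
    have : cc 0 = 0 := by unfold cc; simp
    rw [this]
    refine h1n.congr' ?_
    filter_upwards [eventually_gt_atTop 0] with n hn
    rw [heq n hn]
    simp
  · rw [← cc_eq k hk]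
    have hr : Tendsto (fun n : ℕ => ∑ j ∈ Finset.range n, BB ((j:ℝ) / n) * ((((j+1 : ℕ):ℝ) / n) ^ (2 * k) - ((j:ℝ) / n) ^ (2 * k)) - ∫ s in Ioi (0:ℝ), ff k s) atTop (𝓝 0) := by
      have hz : Tendsto (fun n : ℕ => CC * (2 * k / n)) atTop (𝓝 0) := by
        have := (h1n.const_mul (2 * (k:ℝ))).const_mul CC
        simp only [mul_zero] at this
        refine this.congr (fun n => ?_)
        ring
      apply squeeze_zero_norm' _ hz
      filter_upwards [eventually_gt_atTop 0] with n hn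
      rw [Real.norm_eq_abs]
      exact riemann k hk n hn
    have h2 := (h1n.add hr).add_const (∫ s in Ioi (0:ℝ), ff k s)
    simp only [zero_add, add_zero] at h2
    refine h2.congr' ?_
    filter_upwards [eventually_gt_atTop 0] with n hn
    rw [heq n hn]
    ring

end ana

/-- There is a sequence of real polynomials, each with all complex roots real and non-positive, converging uniformly on compact subsets of ℂ to the sum over k of sqrt(k)/(k!)^2 times z^k. -/
theorem result :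
    ∃ p : ℕ → Polynomial ℝ,
      (∀ n, ∀ z : ℂ, Polynomial.aeval z (p n) = 0 → z.im = 0 ∧ z.re ≤ 0) ∧
      TendstoLocallyUniformly (fun n (z : ℂ) => Polynomial.aeval z (p n))
        (fun z : ℂ => ∑' k : ℕ,
          ((Real.sqrt (k : ℝ) / ((Nat.factorial k : ℝ) ^ 2) : ℝ) : ℂ) * z ^ k)
        Filter.atTop := by
  have htk := toolkit cc (CC + 1) LL ss (fun n hn => (LL_bound n hn).1) (fun n hn => (LL_bound n hn).2) cc_tendsto
  have hpi : 0 < Real.pi * Real.sqrt Real.pi := mul_pos Real.pi_pos (Real.sqrt_pos.2 Real.pi_pos)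
  refine ⟨fun n => Polynomial.C (Real.pi * Real.sqrt Real.pi)⁻¹ * R (n + 1) (LL (n + 1)) (ss (n + 1)), ?_, ?_⟩
  · intro n z hz
    rw [map_mul, Polynomial.aeval_C] at hz
    apply R_root (n + 1) (Nat.succ_pos n) (LL (n + 1)) (ss (n + 1)) (LL_bound (n + 1) (Nat.succ_pos n)).1 z
    rcases mul_eq_zero.1 hz with h | h
    · exfalso
      have h2 : ((Real.pi * Real.sqrt Real.pi)⁻¹ : ℝ) = 0 := by
        simpa using h
      exact (inv_pos.2 hpi).ne' h2
    · exact h
  · rw [Metric.tendstoLocallyUniformly_iff] at htk ⊢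
    intro ε hε z0
    obtain ⟨t, ht, hev⟩ := htk (ε * (Real.pi * Real.sqrt Real.pi)) (mul_pos hε hpi) z0
    refine ⟨t, ht, ?_⟩
    have hev2 := (Filter.tendsto_add_atTop_nat 1).eventually hev
    filter_upwards [hev2] with n hn z hz
    have h1 := hn z hz
    have hfun : (∑' k : ℕ, ((Real.sqrt (k : ℝ) / ((Nat.factorial k : ℝ) ^ 2) : ℝ) : ℂ) * z ^ k)
        = (((Real.pi * Real.sqrt Real.pi)⁻¹ : ℝ) : ℂ) * ∑' k : ℕ, ((cc k : ℝ) : ℂ) * ((w k : ℂ) * z ^ k) := by
      rw [← tsum_mul_left]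
      congr 1
      ext k
      rw [← mul_assoc, ← mul_assoc, ← Complex.ofReal_mul, ← Complex.ofReal_mul]
      congr 2
      unfold cc w
      have hf : (0:ℝ) < ((2 * k).factorial : ℝ) := by positivity
      have hf2 : (0:ℝ) < (k.factorial : ℝ) := by positivity
      have hs : 0 < Real.sqrt Real.pi := Real.sqrt_pos.2 Real.pi_pos
      have hp := Real.pi_pos
      field_simp
    rw [hfun, map_mul, Polynomial.aeval_C]
    have hcoe : (algebraMap ℝ ℂ) (Real.pi * Real.sqrt Real.pi)⁻¹ = (((Real.pi * Real.sqrt Real.pi)⁻¹ : ℝ) : ℂ) := rfl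
    rw [hcoe, dist_eq_norm, ← mul_sub, norm_mul, Complex.norm_real, Real.norm_eq_abs, abs_of_pos (inv_pos.2 hpi)]
    rw [dist_eq_norm] at h1
    rw [inv_mul_lt_iff₀ hpi, mul_comm]
    exact h1

end Pool.Agent.S04219
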