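import Pool.Statements.S04227
import Pool.Agent.Helper19.Maxwell.Main

set_option autoImplicit false
open N62f3cee0
open scoped Gradient
open Pool Pool.MP_de1f29_an

namespace Pool.Agent.S04227

/-- For all nonzero real charges q at injective positions a in R^3, if every non-charge zero of the gradient of sum q_j/∣x-a_j∣ has nonsingular second derivative, then the set of such critical points has extended cardinality ≤ 4. -/
theorem result :
    ∀ (q : Fin 3 → ℝ) (a : Fin 3 → EuclideanSpace ℝ (Fin 3)), Function.Injective a → (∀ j, q j ≠ 0) → (∀ x ∈ equilibria q a, HasNondegenerateHessianAt (potential q a) x) → (equilibria q a).encard ≤ 4 := by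
  intro q a ha hq hnd
  exact Pool.Agent.Helper19.Maxwell.maxwell_three q a ha hq hnd

end Pool.Agent.S04227
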