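import Pool.Statements.S04233
-- import your own Pool.Agent.* helpers here

set_option autoImplicit false
open scoped ENNReal MeasureTheory
open Pool Pool.MP_df1243_an
open MeasureTheory Set Filter Topology

namespace Pool.Agent.S04233

/-- Point of the plane with given coordinates. -/
noncomputable def pt (a b : ℝ) : EuclideanSpace ℝ (Fin 2) := !₂[a, b]

@[simp] lemma pt_zero (a b : ℝ) : pt a b 0 = a := by simp [pt]
@[simp] lemma pt_one (a b : ℝ) : pt a b 1 = b := by simp [pt]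

lemma eq_pt (x : EuclideanSpace ℝ (Fin 2)) : x = pt (x 0) (x 1) := by
  ext i; fin_cases i <;> simp

lemma dist_pt (a b c d : ℝ) : dist (pt a b) (pt c d) = Real.sqrt ((a - c)^2 + (b - d)^2) := by
  rw [EuclideanSpace.dist_eq]; simp [Fin.sum_univ_two, Real.dist_eq, sq_abs]

lemma dist_pt_le (a b c d : ℝ) : dist (pt a b) (pt c d) ≤ |a - c| + |b - d| := by
  rw [dist_pt]
  apply Real.sqrt_le_iff.2
  refine ⟨by positivity, ?_⟩
  nlinarith [sq_abs (a - c), sq_abs (b - d), abs_nonneg (a - c), abs_nonneg (b - d),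
    mul_nonneg (abs_nonneg (a - c)) (abs_nonneg (b - d))]

lemma continuous_pt : Continuous (fun q : ℝ × ℝ => pt q.1 q.2) := by
  unfold pt
  fun_prop

lemma continuous_pt' {X : Type*} [TopologicalSpace X] {f g : X → ℝ} (hf : Continuous f)
    (hg : Continuous g) : Continuous (fun x => pt (f x) (g x)) :=
  continuous_pt.comp (hf.prodMk hg)

lemma mp_pt : MeasurePreserving (fun q : ℝ × ℝ => pt q.1 q.2) volume volume := by
  have h1 := (EuclideanSpace.volume_preserving_symm_measurableEquiv_toLp (Fin 2)).symm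
  have h2 := (volume_preserving_finTwoArrow ℝ).symm
  have h3 := h1.comp h2
  have h4 : (fun q : ℝ × ℝ => pt q.1 q.2) =
      ⇑(MeasurableEquiv.toLp 2 (Fin 2 → ℝ)).symm.symm ∘ ⇑MeasurableEquiv.finTwoArrow.symm := by
    funext q
    ext i
    fin_cases i <;> simp [pt, MeasurableEquiv.finTwoArrow]
  rw [h4]
  exact h3

lemma lintegral_pt (f : EuclideanSpace ℝ (Fin 2) → ℝ≥0∞) (hf : Measurable f) :
    ∫⁻ x, f x = ∫⁻ q : ℝ × ℝ, f (pt q.1 q.2) :=
  (mp_pt.lintegral_comp hf).symm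

/-- The integral over a Lipschitz image against Hausdorff measure. -/
lemma lintegral_image_le {K : NNReal} {g : ℝ → EuclideanSpace ℝ (Fin 2)} {s : Set ℝ}
    (hg : Continuous g) (hL : LipschitzOnWith K g s)
    (ρ : EuclideanSpace ℝ (Fin 2) → ℝ≥0∞) (hρ : Measurable ρ) :
    ∫⁻ x in g '' s, ρ x ∂μH[1] ≤ K * ∫⁻ t in s, ρ (g t) := by
  have h1 : (μH[1] : Measure (EuclideanSpace ℝ (Fin 2))).restrict (g '' s) ≤
      (K : ℝ≥0∞) • ((volume.restrict s).map g) := by
    refine Measure.le_iff.2 fun A hA => ?_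
    rw [Measure.restrict_apply hA, Measure.smul_apply, Measure.map_apply hg.measurable hA,
      Measure.restrict_apply (hg.measurable hA)]
    have h2 : A ∩ g '' s ⊆ g '' (g ⁻¹' A ∩ s) := by
      rintro _ ⟨hx, t, ht, rfl⟩
      exact ⟨t, ⟨hx, ht⟩, rfl⟩
    have h3 := (hL.mono (inter_subset_right (s := g ⁻¹' A) (t := s))).hausdorffMeasure_image_le
      (d := 1) zero_le_one
    calc _ ≤ _ := measure_mono h2
      _ ≤ _ := h3
      _ = _ := by rw [hausdorffMeasure_real]; simp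
  calc ∫⁻ x in g '' s, ρ x ∂μH[1] ≤ ∫⁻ x, ρ x ∂((K : ℝ≥0∞) • ((volume.restrict s).map g)) :=
        lintegral_mono' h1 le_rfl
    _ = K * ∫⁻ t in s, ρ (g t) := by
        rw [lintegral_smul_measure, lintegral_map hρ hg.measurable]; simp

lemma hausdorff_image_lt_top {K : NNReal} {g : ℝ → EuclideanSpace ℝ (Fin 2)} {a b : ℝ}
    (hL : LipschitzOnWith K g (Icc a b)) : μH[1] (g '' Icc a b) < ⊤ := by
  have h3 := hL.hausdorffMeasure_image_le (d := 1) zero_le_one
  refine h3.trans_lt ?_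
  rw [hausdorffMeasure_real]
  simp [ENNReal.mul_lt_top_iff]

/-- AM-GM in the extended reals: `2 a ≤ c⁻¹ + c a^2`. -/
lemma amgm (a : ℝ≥0∞) (c : ℝ) (hc : 0 < c) :
    2 * a ≤ ENNReal.ofReal c⁻¹ + ENNReal.ofReal c * a ^ 2 := by
  rcases eq_or_ne a ⊤ with rfl | ha
  · simp [ENNReal.mul_top, hc]
  · lift a to NNReal using ha
    have h1 : (2 : ℝ) * a ≤ c⁻¹ + c * (a : ℝ) ^ 2 := by
      have h2 : 0 ≤ c⁻¹ * (1 - c * (a : ℝ)) ^ 2 := by positivity
      have h3 : c⁻¹ * (1 - c * (a : ℝ)) ^ 2 = c⁻¹ + c * (a : ℝ) ^ 2 - 2 * a := by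
        field_simp; ring
      linarith
    have h4 : ENNReal.ofReal ((2 : ℝ) * a) ≤ ENNReal.ofReal (c⁻¹ + c * (a : ℝ) ^ 2) :=
      ENNReal.ofReal_le_ofReal h1
    rw [ENNReal.ofReal_add (by positivity) (by positivity), ENNReal.ofReal_mul (by positivity),
      ENNReal.ofReal_mul (by positivity)] at h4
    simpa [ENNReal.ofReal_pow] using h4

/-- The admissibility condition for curves joining `E` to the rest of the line. -/
def Adm (E : Set (EuclideanSpace ℝ (Fin 2))) (ρ : EuclideanSpace ℝ (Fin 2) → ℝ≥0∞) : Prop :=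
  ∀ γ : C(unitInterval, EuclideanSpace ℝ (Fin 2)),
    Function.Injective γ → γ 0 ∈ E → γ 1 ∈ ({x | x 1 = 0} \ E) →
    μH[1] (Set.range γ) < ⊤ → 1 ≤ ∫⁻ x in Set.range γ, ρ x ∂μH[1]

/-- Tent path from `(x,0)` to `(x+h,0)`. -/
noncomputable def tent (x h : ℝ) (s : ℝ) : EuclideanSpace ℝ (Fin 2) := pt (x + s) (min s (h - s))

lemma continuous_tent (x h : ℝ) : Continuous (tent x h) :=
  continuous_pt' (by fun_prop) (by fun_prop)

lemma lipschitz_tent (x h : ℝ) : LipschitzWith 2 (tent x h) := by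
  refine LipschitzWith.of_dist_le_mul fun s t => ?_
  refine (dist_pt_le _ _ _ _).trans ?_
  have h1 : |min s (h - s) - min t (h - t)| ≤ |s - t| := by
    refine (abs_min_sub_min_le_max _ _ _ _).trans ?_
    rw [show h - s - (h - t) = -(s - t) by ring, abs_neg, max_self]
  rw [Real.dist_eq]
  have h2 : |x + s - (x + t)| = |s - t| := by congr 1; ring
  rw [h2]
  push_cast
  linarith

lemma tent_bound {E : Set (EuclideanSpace ℝ (Fin 2))} {ρ : EuclideanSpace ℝ (Fin 2) → ℝ≥0∞}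
    (hρ : Measurable ρ) (hadm : Adm E ρ) {x h : ℝ} (hh : 0 < h) (h0 : pt x 0 ∈ E)
    (h1 : pt (x + h) 0 ∉ E) :
    1 ≤ 2 * ∫⁻ s in Icc 0 h, ρ (tent x h s) := by
  let γ : C(unitInterval, EuclideanSpace ℝ (Fin 2)) :=
    ⟨fun t => tent x h (h * (t : ℝ)), (continuous_tent x h).comp (by fun_prop)⟩
  have hinj : Function.Injective γ := by
    intro s t hst
    have h2 : tent x h (h * (s : ℝ)) = tent x h (h * (t : ℝ)) := hst
    have h3 := congrArg (fun v => v 0) h2
    simp only [tent, pt_zero] at h3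
    have h4 : h * (s : ℝ) = h * (t : ℝ) := by linarith
    exact Subtype.ext (mul_left_cancel₀ hh.ne' h4)
  have hrange : Set.range γ = tent x h '' Icc 0 h := by
    ext y
    constructor
    · rintro ⟨t, rfl⟩
      refine ⟨h * (t : ℝ), ⟨by have := t.2.1; positivity, ?_⟩, rfl⟩
      have := t.2.2
      nlinarith
    · rintro ⟨s, hs, rfl⟩
      refine ⟨⟨s / h, div_nonneg hs.1 hh.le, (div_le_one hh).2 hs.2⟩, ?_⟩
      change tent x h (h * (s / h)) = _
      rw [mul_div_cancel₀ _ hh.ne']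
  have hγ0 : γ 0 ∈ E := by
    change tent x h (h * ((0 : unitInterval) : ℝ)) ∈ E
    simp only [Set.Icc.coe_zero, mul_zero, tent, add_zero, sub_zero]
    rwa [min_eq_left hh.le]
  have hγ1 : γ 1 ∈ ({x | x 1 = 0} \ E : Set (EuclideanSpace ℝ (Fin 2))) := by
    change tent x h (h * ((1 : unitInterval) : ℝ)) ∈ _
    simp only [Set.Icc.coe_one, mul_one, tent, sub_self]
    rw [min_eq_right hh.le]
    exact ⟨by simp, h1⟩
  have hL : LipschitzOnWith 2 (tent x h) (Icc 0 h) := (lipschitz_tent x h).lipschitzOnWith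
  have h5 := hadm γ hinj hγ0 hγ1 (by rw [hrange]; exact hausdorff_image_lt_top hL)
  rw [hrange] at h5
  refine h5.trans ((lintegral_image_le (continuous_tent x h) hL ρ hρ).trans ?_)
  simp


/-- The slice of `E` on the real line. -/
def slice (E : Set (EuclideanSpace ℝ (Fin 2))) : Set ℝ := {t | pt t 0 ∈ E}

/-- Points of the slice leaving `E` after a shift by `h`. -/
def esc (E : Set (EuclideanSpace ℝ (Fin 2))) (h : ℝ) : Set ℝ := {t | pt t 0 ∈ E ∧ pt (t + h) 0 ∉ E}

lemma measurableSet_slice {E : Set (EuclideanSpace ℝ (Fin 2))} (hE : IsCompact E) :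
    MeasurableSet (slice E) :=
  hE.measurableSet.preimage (continuous_pt' continuous_id continuous_const).measurable

lemma measurableSet_esc {E : Set (EuclideanSpace ℝ (Fin 2))} (hE : IsCompact E) (h : ℝ) :
    MeasurableSet (esc E h) :=
  (measurableSet_slice hE).inter
    (hE.measurableSet.preimage (continuous_pt' (f := fun t => t + h) (g := fun _ => 0)
      (by fun_prop) continuous_const).measurable).compl

lemma slice_subset {E : Set (EuclideanSpace ℝ (Fin 2))}
    (hE01 : E ⊆ {x | x 1 = 0 ∧ 0 ≤ x 0 ∧ x 0 ≤ 1}) : slice E ⊆ Icc 0 1 := by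
  intro t ht
  have := hE01 ht
  simp only [mem_ofPred_eq, pt_one, pt_zero, true_and] at this
  exact this

lemma slice_cover {E : Set (EuclideanSpace ℝ (Fin 2))}
    (hE01 : E ⊆ {x | x 1 = 0 ∧ 0 ≤ x 0 ∧ x 0 ≤ 1}) (n : ℕ) (hn : 0 < n) :
    volume (slice E) ≤ n * volume (esc E (2 / n)) := by
  have hsub : slice E ⊆ ⋃ k ∈ Finset.range n, (fun t => t + (k : ℝ) * (2 / n)) ⁻¹' esc E (2 / n) := by
    intro t ht
    have hex : ∃ k : ℕ, pt (t + (k : ℝ) * (2 / n)) 0 ∉ E := by
      refine ⟨n, fun hc => ?_⟩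
      have h1 := (slice_subset hE01 (show t + (n : ℝ) * (2 / n) ∈ slice E from hc)).2
      have h2 := (slice_subset hE01 ht).1
      have h3 : (n : ℝ) * (2 / n) = 2 := by
        have : (n : ℝ) ≠ 0 := by positivity
        field_simp
      linarith
    classical
    let k := Nat.find hex
    have hk : pt (t + (k : ℝ) * (2 / n)) 0 ∉ E := Nat.find_spec hex
    have hk0 : k ≠ 0 := by
      intro h0
      rw [h0] at hk
      simp only [Nat.cast_zero, zero_mul, add_zero] at hk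
      exact hk ht
    obtain ⟨j, hj⟩ := Nat.exists_eq_succ_of_ne_zero hk0
    have hj1 : pt (t + (j : ℝ) * (2 / n)) 0 ∈ E := by
      by_contra hc
      have := Nat.find_min' hex hc
      change k ≤ j at this
      omega
    have hjn : j < n := by
      have hkn : k ≤ n := by
        apply Nat.find_min' hex
        intro hc
        have h1 := (slice_subset hE01 (show t + (n : ℝ) * (2 / n) ∈ slice E from hc)).2
        have h2 := (slice_subset hE01 ht).1
        have h3 : (n : ℝ) * (2 / n) = 2 := by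
          have : (n : ℝ) ≠ 0 := by positivity
          field_simp
        linarith
      omega
    refine mem_iUnion₂.2 ⟨j, Finset.mem_range.2 hjn, hj1, ?_⟩
    have h4 : t + (j : ℝ) * (2 / n) + 2 / n = t + (k : ℝ) * (2 / n) := by
      rw [hj]; push_cast; ring
    rw [h4]
    exact hk
  calc volume (slice E) ≤ _ := measure_mono hsub
    _ ≤ ∑ k ∈ Finset.range n, volume ((fun t => t + (k : ℝ) * (2 / n)) ⁻¹' esc E (2 / n)) :=
        measure_biUnion_finset_le _ _
    _ = ∑ k ∈ Finset.range n, volume (esc E (2 / n)) := by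
        refine Finset.sum_congr rfl fun k _ => ?_
        exact measure_preimage_add_right volume _ _
    _ = n * volume (esc E (2 / n)) := by simp

/-- The key estimate on the escaping set. -/
lemma esc_bound {E : Set (EuclideanSpace ℝ (Fin 2))} (hE : IsCompact E)
    {ρ : EuclideanSpace ℝ (Fin 2) → ℝ≥0∞}
    (hρ : Measurable ρ) (hadm : Adm E ρ) {h : ℝ} (hh : 0 < h) :
    volume (esc E h) ≤ ENNReal.ofReal (8 * h) * ∫⁻ s in Icc 0 h, ∫⁻ x, ρ (pt x s) ^ 2 := by
  -- pointwise bound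
  have hpt : ∀ x ∈ esc E h, 1 ≤ ENNReal.ofReal (4 * h) * ∫⁻ s in Icc 0 h, ρ (tent x h s) ^ 2 := by
    intro x hx
    have h1 := tent_bound hρ hadm hh hx.1 hx.2
    have hm : Measurable fun s => ρ (tent x h s) := hρ.comp (continuous_tent x h).measurable
    have h2 : 2 * ∫⁻ s in Icc 0 h, ρ (tent x h s) ≤
        ∫⁻ s in Icc 0 h, (ENNReal.ofReal (2 * h)⁻¹ + ENNReal.ofReal (2 * h) * ρ (tent x h s) ^ 2) := by
      rw [← lintegral_const_mul _ hm]
      exact lintegral_mono fun s => amgm _ _ (by positivity)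
    rw [lintegral_add_left measurable_const, lintegral_const_mul _ (hm.pow_const 2)] at h2
    simp only [lintegral_const, MeasurableSet.univ, Measure.restrict_apply, univ_inter,
      Real.volume_Icc, sub_zero] at h2
    rw [← ENNReal.ofReal_mul (by positivity)] at h2
    have h3 : (2 * h)⁻¹ * h = 2⁻¹ := by field_simp
    rw [h3] at h2
    have h4 := h1.trans h2
    set I := ∫⁻ s in Icc 0 h, ρ (tent x h s) ^ 2
    rcases eq_or_ne I ⊤ with hI | hI
    · rw [hI, ENNReal.mul_top (by simpa using hh)]; exact le_top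
    · lift I to NNReal using hI with J
      have h5 : (1 : ℝ) ≤ 2⁻¹ + 2 * h * J := by
        have := ENNReal.toReal_mono (by finiteness) h4
        rw [ENNReal.toReal_add (by finiteness) (by finiteness), ENNReal.toReal_mul,
          ENNReal.toReal_ofReal (by positivity), ENNReal.toReal_ofReal (by positivity)] at this
        simpa using this
      have h6 : (1 : ℝ) ≤ 4 * h * J := by linarith
      rw [← ENNReal.ofReal_one]
      refine (ENNReal.ofReal_le_ofReal h6).trans ?_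
      rw [ENNReal.ofReal_mul (by positivity)]
      simp
  have hmeas : Measurable (fun p : ℝ × ℝ => ρ (tent p.1 h p.2) ^ 2) := by
    refine (hρ.comp ?_).pow_const 2
    exact (continuous_pt' (by fun_prop) (by fun_prop)).measurable
  have hG : Measurable fun s => ∫⁻ x, ρ (pt x s) ^ 2 := by
    refine Measurable.lintegral_prod_left' (f := fun p : ℝ × ℝ => ρ (pt p.1 p.2) ^ 2) ?_
    exact (hρ.comp continuous_pt.measurable).pow_const 2
  calc volume (esc E h) = ∫⁻ x in esc E h, 1 := by simp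
    _ ≤ ∫⁻ x in esc E h, ENNReal.ofReal (4 * h) * ∫⁻ s in Icc 0 h, ρ (tent x h s) ^ 2 :=
        setLIntegral_mono' (measurableSet_esc hE h) hpt
    _ ≤ ∫⁻ x, ENNReal.ofReal (4 * h) * ∫⁻ s in Icc 0 h, ρ (tent x h s) ^ 2 :=
        setLIntegral_le_lintegral _ _
    _ = ENNReal.ofReal (4 * h) * ∫⁻ x, ∫⁻ s in Icc 0 h, ρ (tent x h s) ^ 2 := by
        rw [lintegral_const_mul _ (Measurable.lintegral_prod_right' hmeas)]
    _ = ENNReal.ofReal (4 * h) * ∫⁻ s in Icc 0 h, ∫⁻ x, ρ (tent x h s) ^ 2 := by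
        rw [lintegral_lintegral_swap hmeas.aemeasurable]
    _ = ENNReal.ofReal (4 * h) * ∫⁻ s in Icc 0 h, ∫⁻ x, ρ (pt x (min s (h - s))) ^ 2 := by
        congr 1
        refine lintegral_congr fun s => ?_
        exact lintegral_add_right_eq_self (fun x => ρ (pt x (min s (h - s))) ^ 2) s
    _ ≤ ENNReal.ofReal (4 * h) * ∫⁻ s in Icc 0 h,
          ((∫⁻ x, ρ (pt x s) ^ 2) + ∫⁻ x, ρ (pt x (h - s)) ^ 2) := by
        gcongr with s
        rcases min_choice s (h - s) with hc | hc <;> rw [hc]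
        · exact le_self_add
        · exact le_add_self
    _ = ENNReal.ofReal (4 * h) * (2 * ∫⁻ s in Icc 0 h, ∫⁻ x, ρ (pt x s) ^ 2) := by
        rw [lintegral_add_left hG, two_mul]
        congr 2
        have h1 : ∀ f : ℝ → ℝ≥0∞, ∫⁻ s in Icc 0 h, f (h - s) = ∫⁻ s in Icc 0 h, f s := by
          intro f
          rw [← lintegral_indicator measurableSet_Icc, ← lintegral_indicator measurableSet_Icc]
          rw [← lintegral_sub_left_eq_self (fun s => (Icc 0 h).indicator f s) h]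
          refine lintegral_congr fun s => ?_
          by_cases hs : s ∈ Icc 0 h
          · have hs' : h - s ∈ Icc 0 h := ⟨by linarith [hs.2], by linarith [hs.1]⟩
            rw [indicator_of_mem hs, indicator_of_mem hs']
          · have hs' : h - s ∉ Icc 0 h := fun hc => hs ⟨by linarith [hc.2], by linarith [hc.1]⟩
            rw [indicator_of_notMem hs, indicator_of_notMem hs']
        exact h1 (fun s => ∫⁻ x, ρ (pt x s) ^ 2)
    _ = ENNReal.ofReal (8 * h) * ∫⁻ s in Icc 0 h, ∫⁻ x, ρ (pt x s) ^ 2 := by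
        rw [← mul_assoc]
        congr 1
        rw [show (8 : ℝ) * h = 4 * h * 2 by ring, ENNReal.ofReal_mul (q := 2) (by positivity),
          ENNReal.ofReal_ofNat]


lemma lintegral_pt_iter (ρ : EuclideanSpace ℝ (Fin 2) → ℝ≥0∞) (hρ : Measurable ρ) :
    ∫⁻ x, ρ x ^ 2 = ∫⁻ s : ℝ, ∫⁻ x : ℝ, ρ (pt x s) ^ 2 := by
  rw [lintegral_pt _ (hρ.pow_const 2)]
  have hm : Measurable (fun q : ℝ × ℝ => ρ (pt q.1 q.2) ^ 2) :=
    (hρ.comp continuous_pt.measurable).pow_const 2
  rw [Measure.volume_eq_prod, lintegral_prod_symm _ hm.aemeasurable]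

/-- If an admissible function with finite energy exists, the slice is null. -/
lemma slice_null {E : Set (EuclideanSpace ℝ (Fin 2))} (hE : IsCompact E)
    (hE01 : E ⊆ {x | x 1 = 0 ∧ 0 ≤ x 0 ∧ x 0 ≤ 1})
    {ρ : EuclideanSpace ℝ (Fin 2) → ℝ≥0∞}
    (hρ : Measurable ρ) (hadm : Adm E ρ) (hfin : ∫⁻ x, ρ x ^ 2 ≠ ⊤) :
    volume (slice E) = 0 := by
  rw [lintegral_pt_iter ρ hρ] at hfin
  have hlim : Tendsto (fun n : ℕ => ∫⁻ s in Icc (0 : ℝ) (2 / ((n : ℝ) + 1)), ∫⁻ x, ρ (pt x s) ^ 2)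
      atTop (𝓝 0) := by
    refine tendsto_setLIntegral_zero hfin ?_
    have h1 : (volume ∘ fun n : ℕ => Icc (0 : ℝ) (2 / ((n : ℝ) + 1))) =
        fun n : ℕ => ENNReal.ofReal (2 / ((n : ℝ) + 1)) := by
      funext n; simp
    rw [h1, ← ENNReal.ofReal_zero]
    refine ENNReal.tendsto_ofReal ?_
    have h2 := (tendsto_one_div_add_atTop_nhds_zero_nat (𝕜 := ℝ)).const_mul 2
    simpa [div_eq_mul_inv] using h2
  have hbd : ∀ n : ℕ, volume (slice E) ≤
      16 * ∫⁻ s in Icc (0 : ℝ) (2 / ((n : ℝ) + 1)), ∫⁻ x, ρ (pt x s) ^ 2 := by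
    intro n
    have h1 := slice_cover hE01 (n + 1) n.succ_pos
    have h2 := esc_bound hE hρ hadm (h := 2 / ((n + 1 : ℕ) : ℝ)) (by positivity)
    push_cast at h1 h2
    calc volume (slice E) ≤ _ := h1
      _ ≤ ((n : ℝ≥0∞) + 1) * (ENNReal.ofReal (8 * (2 / ((n : ℝ) + 1))) *
            ∫⁻ s in Icc (0 : ℝ) (2 / ((n : ℝ) + 1)), ∫⁻ x, ρ (pt x s) ^ 2) := by gcongr
      _ = _ := by
        rw [← mul_assoc]
        congr 1
        have h3 : ((n : ℝ≥0∞) + 1) = ENNReal.ofReal ((n : ℝ) + 1) := by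
          rw [ENNReal.ofReal_add (by positivity) zero_le_one]; simp
        rw [h3, ← ENNReal.ofReal_mul (by positivity)]
        have h4 : ((n : ℝ) + 1) * (8 * (2 / ((n : ℝ) + 1))) = 16 := by
          field_simp; norm_num
        rw [h4, ENNReal.ofReal_ofNat]
  have hlim2 := ENNReal.Tendsto.const_mul (a := 16) hlim (Or.inr (by norm_num))
  rw [mul_zero] at hlim2
  exact nonpos_iff_eq_zero.1 (ge_of_tendsto' hlim2 hbd)


/-- Circle of radius `r` around `(a,0)`. -/
noncomputable def circ (a r θ : ℝ) : EuclideanSpace ℝ (Fin 2) := pt (a + r * Real.cos θ) (r * Real.sin θ)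

lemma continuous_circ (a r : ℝ) : Continuous (circ a r) :=
  continuous_pt' (by fun_prop) (by fun_prop)

lemma lipschitz_circ (a : ℝ) {r : ℝ} (hr : 0 < r) : LipschitzWith (Real.toNNReal (2 * r)) (circ a r) := by
  refine LipschitzWith.of_dist_le_mul fun s t => ?_
  refine (dist_pt_le _ _ _ _).trans ?_
  have h1 : |a + r * Real.cos s - (a + r * Real.cos t)| ≤ r * |s - t| := by
    rw [show a + r * Real.cos s - (a + r * Real.cos t) = r * (Real.cos s - Real.cos t) by ring,
      abs_mul, abs_of_pos hr]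
    exact mul_le_mul_of_nonneg_left (Real.abs_cos_sub_cos_le s t) hr.le
  have h2 : |r * Real.sin s - r * Real.sin t| ≤ r * |s - t| := by
    rw [show r * Real.sin s - r * Real.sin t = r * (Real.sin s - Real.sin t) by ring,
      abs_mul, abs_of_pos hr]
    exact mul_le_mul_of_nonneg_left (Real.abs_sin_sub_sin_le s t) hr.le
  rw [Real.dist_eq, Real.coe_toNNReal _ (by positivity)]
  linarith

lemma circ_inj {a r : ℝ} (hr : 0 < r) {x y : ℝ} (hxy : |x - y| < 2 * Real.pi)
    (h : circ a r x = circ a r y) : x = y := by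
  have h0 := congrArg (fun v => v 0) h
  have h1 := congrArg (fun v => v 1) h
  simp only [circ, pt_zero, pt_one] at h0 h1
  have hc : Real.cos x = Real.cos y := mul_left_cancel₀ hr.ne' (by linarith)
  have hs : Real.sin x = Real.sin y := mul_left_cancel₀ hr.ne' h1
  have h2 : Real.cos (x - y) = 1 := by
    rw [Real.cos_sub, hc, hs]
    nlinarith [Real.sin_sq_add_cos_sq y]
  rw [abs_lt] at hxy
  have h3 := (Real.cos_eq_one_iff_of_lt_of_lt hxy.1 hxy.2).1 h2
  linarith

lemma dist_circ {a r : ℝ} (hr : 0 < r) (x : ℝ) : dist (circ a r x) (pt a 0) = r := by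
  rw [circ, dist_pt]
  have : (a + r * Real.cos x - a) ^ 2 + (r * Real.sin x - 0) ^ 2 = r ^ 2 := by
    nlinarith [Real.sin_sq_add_cos_sq x]
  rw [this, Real.sqrt_sq hr.le]

lemma exists_circ {a r : ℝ} (y : EuclideanSpace ℝ (Fin 2)) (hy : dist y (pt a 0) = r) :
    ∃ α : ℝ, |α| ≤ Real.pi ∧ y = circ a r α := by
  let z : ℂ := ⟨y 0 - a, y 1⟩
  have hz : ‖z‖ = r := by
    rw [Complex.norm_def, Complex.normSq_apply]
    rw [eq_pt y, dist_pt] at hy
    rw [← hy]
    congr 1
    simp only [z]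
    ring
  refine ⟨z.arg, abs_le.2 ⟨(Complex.neg_pi_lt_arg z).le, Complex.arg_le_pi z⟩, ?_⟩
  have h1 := Complex.norm_mul_cos_arg z
  have h2 := Complex.norm_mul_sin_arg z
  rw [hz] at h1 h2
  rw [circ, h1, h2]
  conv_lhs => rw [eq_pt y]
  simp [z]

lemma trans_injective {X : Type*} [TopologicalSpace X] {x y z : X} (γ₁ : Path x y) (γ₂ : Path y z)
    (h1 : Function.Injective γ₁) (h2 : Function.Injective γ₂)
    (h12 : ∀ s t, γ₁ s = γ₂ t → t = 0) : Function.Injective (γ₁.trans γ₂) := by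
  intro s t hst
  rw [Path.trans_apply, Path.trans_apply] at hst
  split_ifs at hst with hs ht ht
  · have := congrArg Subtype.val (h1 hst)
    simp only at this
    exact Subtype.ext (by linarith)
  · have := congrArg Subtype.val (h12 _ _ hst)
    simp only [Icc.coe_zero] at this
    exfalso; linarith
  · have := congrArg Subtype.val (h12 _ _ hst.symm)
    simp only [Icc.coe_zero] at this
    exfalso; linarith
  · have := congrArg Subtype.val (h2 hst)
    simp only at this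
    exact Subtype.ext (by linarith)

lemma hit {E : Set (EuclideanSpace ℝ (Fin 2))} {ρ : EuclideanSpace ℝ (Fin 2) → ℝ≥0∞}
    (hρ : Measurable ρ) (hadm : Adm E ρ) (γ : C(unitInterval, EuclideanSpace ℝ (Fin 2)))
    (hinj : Function.Injective γ) {a r : ℝ} (hr : 0 < r) (h0 : γ 0 = pt a 0) (haE : pt a 0 ∈ E)
    (hrE : pt (a + r) 0 ∉ E) (h1 : r < dist (γ 1) (γ 0)) (hlen : μH[1] (Set.range γ) < ⊤) :
    1 ≤ ∫⁻ x in Set.range γ ∩ Metric.closedBall (pt a 0) r, ρ x ∂μH[1] +
      ENNReal.ofReal (2 * r) * ∫⁻ θ in Icc (-Real.pi) Real.pi, ρ (circ a r θ) := by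
  let K : Set unitInterval := {t | r ≤ dist (γ t) (γ 0)}
  have hKc : IsClosed K := isClosed_le continuous_const (by fun_prop)
  have hKn : K.Nonempty := ⟨1, h1.le⟩
  let t₀ := sInf K
  have ht₀ : t₀ ∈ K := hKc.isCompact.sInf_mem hKn
  have hlt : ∀ t < t₀, dist (γ t) (γ 0) < r := by
    intro t ht
    by_contra hc
    exact absurd (sInf_le (show t ∈ K from not_lt.1 hc)) (not_le.2 ht)
  have ht₀r : dist (γ t₀) (γ 0) = r := by
    have hiv := intermediate_value_Icc (f := fun t => dist (γ t) (γ 0)) (unitInterval.nonneg' (t := t₀))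
      (by fun_prop : Continuous fun t => dist (γ t) (γ 0)).continuousOn
    have hr' : r ∈ Icc (dist (γ 0) (γ 0)) (dist (γ t₀) (γ 0)) := ⟨by rw [dist_self]; exact hr.le, ht₀⟩
    obtain ⟨t₁, ht₁, ht₁r⟩ := hiv hr'
    simp only at ht₁r
    have h2 : t₀ ≤ t₁ := sInf_le (show t₁ ∈ K from ht₁r.ge)
    rw [le_antisymm h2 ht₁.2]; exact ht₁r
  have ht₀0 : (t₀ : ℝ) ≠ 0 := by
    intro hc
    have : t₀ = 0 := Subtype.ext hc
    rw [this, dist_self] at ht₀r
    exact hr.ne ht₀r
  have hpos : (0 : ℝ) < t₀ := lt_of_le_of_ne t₀.2.1 (Ne.symm ht₀0)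
  -- first piece
  let γ₁ : Path (γ 0) (γ t₀) :=
    { toFun := fun s => γ (s * t₀)
      continuous_toFun := by fun_prop
      source' := by simp
      target' := by simp }
  have hγ₁ : ∀ s, γ₁ s = γ (s * t₀) := fun s => rfl
  have hγ₁inj : Function.Injective γ₁ := by
    intro s t hst
    rw [hγ₁, hγ₁] at hst
    have := congrArg Subtype.val (hinj hst)
    simp only [Icc.coe_mul] at this
    exact Subtype.ext (mul_right_cancel₀ ht₀0 this)
  have hsub1 : Set.range γ₁ ⊆ Set.range γ ∩ Metric.closedBall (pt a 0) r := by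
    rintro _ ⟨s, rfl⟩
    refine ⟨⟨s * t₀, rfl⟩, ?_⟩
    rw [Metric.mem_closedBall, ← h0, hγ₁]
    have : s * t₀ ≤ t₀ := unitInterval.mul_le_right
    rcases this.lt_or_eq with h | h
    · exact (hlt _ h).le
    · rw [h]; exact ht₀r.le
  have hstrict : ∀ s, s ≠ 1 → dist (γ₁ s) (γ 0) < r := by
    intro s hs
    rw [hγ₁]
    apply hlt
    refine Subtype.coe_lt_coe.1 ?_
    rw [Icc.coe_mul]
    have : (s : ℝ) < 1 := lt_of_le_of_ne s.2.2 fun h => hs (Subtype.ext h)
    nlinarith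
  obtain ⟨α, hα, hy⟩ : ∃ α : ℝ, |α| ≤ Real.pi ∧ γ t₀ = circ a r α :=
    exists_circ (r := r) (γ t₀) (by rw [← h0]; exact ht₀r)
  have hlen1 : μH[1] (Set.range γ₁) < ⊤ :=
    (measure_mono (hsub1.trans inter_subset_left)).trans_lt hlen
  rcases eq_or_ne α 0 with hα0 | hα0
  · -- direct case
    have hend : γ t₀ = pt (a + r) 0 := by rw [hy, hα0]; simp [circ]
    have h2 := hadm γ₁.toContinuousMap hγ₁inj (by
      change γ₁ 0 ∈ E; rw [γ₁.source, h0]; exact haE) (by
      change γ₁ 1 ∈ _; rw [γ₁.target, hend]; exact ⟨by simp, hrE⟩) hlen1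
    refine h2.trans (le_trans ?_ le_self_add)
    exact lintegral_mono_set hsub1
  · let γ₂ : Path (γ t₀) (pt (a + r) 0) :=
      { toFun := fun s => circ a r (α * (1 - (s : ℝ)))
        continuous_toFun := (continuous_circ a r).comp (by fun_prop)
        source' := by simp [hy]
        target' := by simp [circ] }
    have hγ₂ : ∀ s, γ₂ s = circ a r (α * (1 - (s : ℝ))) := fun s => rfl
    have hγ₂inj : Function.Injective γ₂ := by
      intro s t hst
      rw [hγ₂, hγ₂] at hst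
      have h3 := circ_inj hr (by
        rw [show α * (1 - (s : ℝ)) - α * (1 - (t : ℝ)) = α * ((t : ℝ) - s) by ring, abs_mul]
        have h4 : |(t : ℝ) - s| ≤ 1 := abs_le.2 ⟨by linarith [s.2.2, t.2.1], by linarith [s.2.1, t.2.2]⟩
        have h5 : |α| * |(t : ℝ) - s| ≤ Real.pi * 1 := by gcongr
        linarith [Real.pi_pos]) hst
      have h6 := mul_left_cancel₀ hα0 h3
      exact Subtype.ext (by linarith)
    have h12 : ∀ s t, γ₁ s = γ₂ t → t = 0 := by
      intro s t hst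
      have h3 : dist (γ₁ s) (γ 0) = r := by rw [hst, h0, hγ₂]; exact dist_circ hr _
      have h4 : s = 1 := by
        by_contra hc
        exact absurd h3 (hstrict s hc).ne
      have h5 : γ₂ 0 = γ₂ t := by rw [← hst, h4, γ₁.target, γ₂.source]
      exact (hγ₂inj h5).symm
    have hsub2 : Set.range γ₂ ⊆ circ a r '' Icc (-Real.pi) Real.pi := by
      rintro _ ⟨s, rfl⟩
      refine ⟨α * (1 - (s : ℝ)), ?_, rfl⟩
      rw [mem_Icc, ← abs_le, abs_mul]
      have h4 : |1 - (s : ℝ)| ≤ 1 := abs_le.2 ⟨by linarith [s.2.2, s.2.1], by linarith [s.2.1]⟩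
      calc |α| * |1 - (s : ℝ)| ≤ Real.pi * 1 := by gcongr
        _ = Real.pi := mul_one _
    have hLc := (lipschitz_circ a hr).lipschitzOnWith (s := Icc (-Real.pi) Real.pi)
    have hlen2 : μH[1] (Set.range γ₂) < ⊤ := (measure_mono hsub2).trans_lt (hausdorff_image_lt_top hLc)
    have h2 := hadm (γ₁.trans γ₂).toContinuousMap (trans_injective γ₁ γ₂ hγ₁inj hγ₂inj h12) (by
      change (γ₁.trans γ₂) 0 ∈ E; rw [(γ₁.trans γ₂).source, h0]; exact haE) (by
      change (γ₁.trans γ₂) 1 ∈ _; rw [(γ₁.trans γ₂).target]; exact ⟨by simp, hrE⟩) (by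
      change μH[1] (Set.range (γ₁.trans γ₂)) < ⊤
      rw [Path.trans_range]
      exact (measure_union_le _ _).trans_lt (ENNReal.add_lt_top.2 ⟨hlen1, hlen2⟩))
    change 1 ≤ ∫⁻ x in Set.range (γ₁.trans γ₂), ρ x ∂μH[1] at h2
    rw [Path.trans_range] at h2
    refine h2.trans ((lintegral_union_le _ _ _).trans ?_)
    refine add_le_add (lintegral_mono_set hsub1) ?_
    refine (lintegral_mono_set hsub2).trans ?_
    exact lintegral_image_le (continuous_circ a r) hLc ρ hρ


lemma arc_bound {E : Set (EuclideanSpace ℝ (Fin 2))} {ρ : EuclideanSpace ℝ (Fin 2) → ℝ≥0∞}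
    (hρ : Measurable ρ) (hadm : Adm E ρ) (γ : C(unitInterval, EuclideanSpace ℝ (Fin 2)))
    (hinj : Function.Injective γ) {a r : ℝ} (hr : 0 < r) (h0 : γ 0 = pt a 0) (haE : pt a 0 ∈ E)
    (hrE : pt (a + r) 0 ∉ E) (h1 : r < dist (γ 1) (γ 0)) (hlen : μH[1] (Set.range γ) < ⊤)
    (hsmall : ∫⁻ x in Set.range γ ∩ Metric.closedBall (pt a 0) r, ρ x ∂μH[1] ≤ 2⁻¹) :
    ENNReal.ofReal (1 / (32 * Real.pi) * r⁻¹) ≤
      ∫⁻ θ in Ioo (-Real.pi) Real.pi, ENNReal.ofReal r * ρ (circ a r θ) ^ 2 := by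
  have hπ := Real.pi_pos
  have hb := hit hρ hadm γ hinj hr h0 haE hrE h1 hlen
  have hm : Measurable fun θ => ρ (circ a r θ) := hρ.comp (continuous_circ a r).measurable
  have h2 : 2 * ∫⁻ θ in Icc (-Real.pi) Real.pi, ρ (circ a r θ) ≤
      ∫⁻ θ in Icc (-Real.pi) Real.pi, (ENNReal.ofReal (8 * Real.pi * r)⁻¹ +
        ENNReal.ofReal (8 * Real.pi * r) * ρ (circ a r θ) ^ 2) := by
    rw [← lintegral_const_mul _ hm]
    exact lintegral_mono fun s => amgm _ _ (by positivity)
  rw [lintegral_add_left measurable_const, lintegral_const_mul _ (hm.pow_const 2)] at h2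
  simp only [lintegral_const, MeasurableSet.univ, Measure.restrict_apply, univ_inter,
    Real.volume_Icc] at h2
  rw [← ENNReal.ofReal_mul (by positivity)] at h2
  have h3 : (8 * Real.pi * r)⁻¹ * (Real.pi - -Real.pi) = (4 * r)⁻¹ := by field_simp; ring
  rw [h3] at h2
  have hIoo : ∫⁻ θ in Ioo (-Real.pi) Real.pi, ENNReal.ofReal r * ρ (circ a r θ) ^ 2 =
      ENNReal.ofReal r * ∫⁻ θ in Icc (-Real.pi) Real.pi, ρ (circ a r θ) ^ 2 := by
    rw [lintegral_const_mul _ (hm.pow_const 2), setLIntegral_congr Ioo_ae_eq_Icc]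
  rw [hIoo]
  set S := ∫⁻ θ in Icc (-Real.pi) Real.pi, ρ (circ a r θ) ^ 2
  set T := ∫⁻ θ in Icc (-Real.pi) Real.pi, ρ (circ a r θ)
  set A := ∫⁻ x in Set.range γ ∩ Metric.closedBall (pt a 0) r, ρ x ∂μH[1]
  rcases eq_or_ne S ⊤ with hS | hS
  · rw [hS, ENNReal.mul_top (by simpa using hr)]; exact le_top
  · lift S to NNReal using hS with S'
    have hT : T ≠ ⊤ := by
      intro hT
      rw [hT] at h2
      have h5 : (2 : ℝ≥0∞) * ⊤ = ⊤ := by simp
      rw [h5, top_le_iff] at h2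
      exact absurd h2 (by finiteness)
    lift T to NNReal using hT with T'
    have hA : A ≠ ⊤ := ne_top_of_le_ne_top (by simp) hsmall
    lift A to NNReal using hA with A'
    have hA' : (A' : ℝ) ≤ 2⁻¹ := by
      have := ENNReal.toReal_mono (by simp) hsmall
      simpa using this
    have hb' : (1 : ℝ) ≤ A' + 2 * r * T' := by
      have := ENNReal.toReal_mono (by finiteness) hb
      rw [ENNReal.toReal_add (by finiteness) (by finiteness), ENNReal.toReal_mul,
        ENNReal.toReal_ofReal (by positivity)] at this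
      simpa using this
    have h2' : (2 : ℝ) * T' ≤ (4 * r)⁻¹ + 8 * Real.pi * r * S' := by
      have := ENNReal.toReal_mono (by finiteness) h2
      rw [ENNReal.toReal_add (by finiteness) (by finiteness), ENNReal.toReal_mul,
        ENNReal.toReal_mul, ENNReal.toReal_ofReal (by positivity),
        ENNReal.toReal_ofReal (by positivity)] at this
      simpa using this
    have h5 : r * (2 * T') ≤ r * ((4 * r)⁻¹ + 8 * Real.pi * r * S') := by gcongr
    have h6 : r * ((4 * r)⁻¹ + 8 * Real.pi * r * S') = 4⁻¹ + 8 * Real.pi * r * r * S' := by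
      field_simp
    have h7 : 4⁻¹ ≤ 8 * Real.pi * r * (r * S') := by nlinarith
    have h8 : 1 / (32 * Real.pi) * r⁻¹ ≤ r * S' := by
      have : 1 / (32 * Real.pi) * r⁻¹ = 4⁻¹ / (8 * Real.pi * r) := by field_simp; norm_num
      rw [this, div_le_iff₀ (by positivity)]
      linarith
    refine (ENNReal.ofReal_le_ofReal h8).trans ?_
    rw [ENNReal.ofReal_mul hr.le]
    simp

lemma lintegral_inv_top {δ c : ℝ} (hδ : 0 < δ) (hc : 0 < c) :
    ∫⁻ r in Ioo 0 δ, ENNReal.ofReal (c * r⁻¹) = ⊤ := by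
  by_contra hne
  have hlt : ∫⁻ r in Ioo 0 δ, ENNReal.ofReal (c * r⁻¹) < ⊤ := lt_top_iff_ne_top.2 hne
  have hint : IntegrableOn (fun r : ℝ => c * r⁻¹) (Ioo 0 δ) := by
    refine ⟨by fun_prop, ?_⟩
    rw [hasFiniteIntegral_iff_ofReal]
    · exact hlt
    · refine (ae_restrict_iff' measurableSet_Ioo).2 (Eventually.of_forall fun r hr => ?_)
      have := hr.1
      simp only [Pi.zero_apply]
      positivity
  have h2 : IntegrableOn (fun r : ℝ => r ^ (-1 : ℝ)) (Ioo 0 δ) := by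
    have h3 : IntegrableOn (fun r : ℝ => c⁻¹ * (c * r⁻¹)) (Ioo 0 δ) := hint.const_mul c⁻¹
    refine h3.congr_fun (fun r hr => ?_) measurableSet_Ioo
    simp only
    rw [Real.rpow_neg_one, ← mul_assoc, inv_mul_cancel₀ hc.ne', one_mul]
  rw [intervalIntegral.integrableOn_Ioo_rpow_iff hδ] at h2
  linarith

lemma polar_bound (a : ℝ) (ρ : EuclideanSpace ℝ (Fin 2) → ℝ≥0∞) (hρ : Measurable ρ) (δ : ℝ) :
    ∫⁻ r in Ioo 0 δ, ∫⁻ θ in Ioo (-Real.pi) Real.pi, ENNReal.ofReal r * ρ (circ a r θ) ^ 2 ≤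
      ∫⁻ x, ρ x ^ 2 := by
  have hcm : Measurable fun q : ℝ × ℝ => circ a q.1 q.2 :=
    (continuous_pt' (f := fun q : ℝ × ℝ => a + q.1 * Real.cos q.2)
      (g := fun q : ℝ × ℝ => q.1 * Real.sin q.2) (by fun_prop) (by fun_prop)).measurable
  have hm : Measurable fun q : ℝ × ℝ => ENNReal.ofReal q.1 * ρ (circ a q.1 q.2) ^ 2 :=
    (ENNReal.measurable_ofReal.comp measurable_fst).mul ((hρ.comp hcm).pow_const 2)
  calc _ ≤ ∫⁻ r in Ioi (0 : ℝ), ∫⁻ θ in Ioo (-Real.pi) Real.pi,
        ENNReal.ofReal r * ρ (circ a r θ) ^ 2 := lintegral_mono_set Ioo_subset_Ioi_self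
    _ = ∫⁻ q in Ioi (0 : ℝ) ×ˢ Ioo (-Real.pi) Real.pi,
        ENNReal.ofReal q.1 * ρ (circ a q.1 q.2) ^ 2 := by
        rw [Measure.volume_eq_prod, ← Measure.prod_restrict, lintegral_prod _ hm.aemeasurable]
    _ = ∫⁻ q : ℝ × ℝ, ρ (pt (a + q.1) q.2) ^ 2 := by
        rw [← lintegral_comp_polarCoord_symm]
        rfl
    _ = ∫⁻ q : ℝ × ℝ, ρ (pt q.1 q.2) ^ 2 := by
        have h := lintegral_add_left_eq_self (μ := (volume : Measure (ℝ × ℝ)))
          (fun q : ℝ × ℝ => ρ (pt q.1 q.2) ^ 2) (a, 0)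
        rw [← h]
        refine lintegral_congr fun q => ?_
        simp
    _ = ∫⁻ x, ρ x ^ 2 := (lintegral_pt _ (hρ.pow_const 2)).symm

lemma length_top {E : Set (EuclideanSpace ℝ (Fin 2))}
    (hE01 : E ⊆ {x | x 1 = 0 ∧ 0 ≤ x 0 ∧ x 0 ≤ 1})
    {ρ : EuclideanSpace ℝ (Fin 2) → ℝ≥0∞}
    (hρ : Measurable ρ) (hadm : Adm E ρ) (hfin : ∫⁻ x, ρ x ^ 2 ≠ ⊤)
    (hnull : volume (slice E) = 0)
    (γ : C(unitInterval, EuclideanSpace ℝ (Fin 2))) (hinj : Function.Injective γ)
    (hγ0 : γ 0 ∈ E) (hγ1 : γ 1 ∈ Metric.sphere (0 : EuclideanSpace ℝ (Fin 2)) 2)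
    (hlen : μH[1] (Set.range γ) < ⊤) :
    ∫⁻ x in Set.range γ, ρ x ∂μH[1] = ⊤ := by
  by_contra hne
  obtain ⟨hy, ha0, ha1⟩ := hE01 hγ0
  set a := γ 0 0 with ha
  have h0 : γ 0 = pt a 0 := by rw [eq_pt (γ 0), hy]
  have hdist : 1 ≤ dist (γ 1) (γ 0) := by
    have h2 : dist (γ 1) 0 = 2 := hγ1
    have h3 : dist (γ 0) 0 ≤ 1 := by
      have h4 : (0 : EuclideanSpace ℝ (Fin 2)) = pt 0 0 := by rw [eq_pt 0]; simp
      rw [h0, h4, dist_pt]
      have : (a - 0) ^ 2 + ((0 : ℝ) - 0) ^ 2 = a ^ 2 := by ring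
      rw [this, Real.sqrt_sq ha0]; exact ha1
    have h5 := dist_triangle (γ 1) (γ 0) 0
    linarith
  -- small balls
  have hball : ∃ δ : ℝ, 0 < δ ∧ δ < 1 ∧
      ∫⁻ x in Set.range γ ∩ Metric.closedBall (pt a 0) δ, ρ x ∂μH[1] ≤ 2⁻¹ := by
    let s : ℕ → Set (EuclideanSpace ℝ (Fin 2)) := fun n => Metric.closedBall (pt a 0) (1 / ((n : ℝ) + 2))
    let μ : Measure (EuclideanSpace ℝ (Fin 2)) := (μH[1]).restrict (Set.range γ)
    have hμfin : IsFiniteMeasure μ := ⟨by simpa [μ] using hlen⟩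
    have hanti : Antitone s := by
      intro m n hmn
      apply Metric.closedBall_subset_closedBall
      gcongr
    have hinter : (⋂ n, s n) = {pt a 0} := by
      apply Subset.antisymm
      · intro x hx
        rw [mem_iInter] at hx
        have h3 : ∀ n : ℕ, dist x (pt a 0) ≤ 1 / ((n : ℝ) + 2) := fun n => hx n
        have h4 : dist x (pt a 0) ≤ 0 := by
          refine le_of_forall_pos_le_add fun ε hε => ?_
          obtain ⟨n, hn⟩ := exists_nat_one_div_lt hε
          have h5 : 1 / ((n : ℝ) + 2) ≤ 1 / ((n : ℝ) + 1) := by gcongr; norm_num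
          linarith [h3 n]
        exact dist_le_zero.1 h4
      · rintro x rfl
        exact mem_iInter.2 fun n => Metric.mem_closedBall_self (by positivity)
    have hlim : Tendsto (μ ∘ s) atTop (𝓝 0) := by
      have h3 := tendsto_measure_iInter_atTop (μ := μ) (s := s)
        (fun n => Metric.isClosed_closedBall.measurableSet.nullMeasurableSet) hanti
        ⟨0, measure_ne_top _ _⟩
      rw [hinter] at h3
      have h4 : μ {pt a 0} = 0 := by
        have hna := Measure.nullSingletonClass_hausdorff (EuclideanSpace ℝ (Fin 2)) (d := 1) zero_lt_one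
        refine le_antisymm ?_ bot_le
        exact (Measure.restrict_apply_le _ _).trans (measure_singleton _).le
      rwa [h4] at h3
    have h5 := tendsto_setLIntegral_zero (μ := μ) hne hlim
    obtain ⟨n, hn⟩ := (h5.eventually_le_const (show (0 : ℝ≥0∞) < 2⁻¹ by simp)).exists
    refine ⟨1 / ((n : ℝ) + 2), by positivity, ?_, ?_⟩
    · rw [div_lt_one (by positivity)]
      have : (0 : ℝ) ≤ n := Nat.cast_nonneg n
      linarith
    · rw [inter_comm, ← Measure.restrict_restrict Metric.isClosed_closedBall.measurableSet]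
      exact hn
  obtain ⟨δ, hδ0, hδ1, hδ⟩ := hball
  have hae : ∀ᵐ r ∂(volume.restrict (Ioo 0 δ)), pt (a + r) 0 ∉ E := by
    refine ae_restrict_of_ae ?_
    rw [ae_iff]
    have h3 : {r : ℝ | ¬ pt (a + r) 0 ∉ E} = (fun r => a + r) ⁻¹' (slice E) := by
      ext r; simp [slice]
    rw [h3, measure_preimage_add]
    exact hnull
  have hkey : ∫⁻ r in Ioo 0 δ, ENNReal.ofReal (1 / (32 * Real.pi) * r⁻¹) ≤
      ∫⁻ r in Ioo 0 δ, ∫⁻ θ in Ioo (-Real.pi) Real.pi, ENNReal.ofReal r * ρ (circ a r θ) ^ 2 := by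
    refine lintegral_mono_ae ?_
    filter_upwards [hae, ae_restrict_mem measurableSet_Ioo] with r hr hr2
    refine arc_bound hρ hadm γ hinj hr2.1 h0 (h0 ▸ hγ0) hr ?_ hlen ?_
    · linarith [hr2.2]
    · refine (lintegral_mono_set ?_).trans hδ
      exact inter_subset_inter_right _ (Metric.closedBall_subset_closedBall hr2.2.le)
  rw [lintegral_inv_top hδ0 (by have := Real.pi_pos; positivity)] at hkey
  have := hkey.trans (polar_bound a ρ hρ δ)
  exact hfin (top_le_iff.1 this)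


/-- For every compact E in [0,1] on the real axis whose 2-modulus of curves to the circle of radius 2 is positive, the 2-modulus of the family of rectifiable curves joining E to the rest of the real axis is infinite. -/
theorem result :
    ∀ E : Set (EuclideanSpace ℝ (Fin 2)), IsCompact E →
      E ⊆ {x | x 1 = 0 ∧ 0 ≤ x 0 ∧ x 0 ≤ 1} →
      0 < (⨅ (ρ : EuclideanSpace ℝ (Fin 2) → ℝ≥0∞) (_ : Measurable ρ)
            (_ : ∀ γ : C(unitInterval, EuclideanSpace ℝ (Fin 2)),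
              Function.Injective γ → γ 0 ∈ E → γ 1 ∈ Metric.sphere (0 : EuclideanSpace ℝ (Fin 2)) 2 →
              μH[1] (Set.range γ) < ⊤ → 1 ≤ ∫⁻ x in Set.range γ, ρ x ∂μH[1]),
            ∫⁻ x, ρ x ^ 2) →
      (⨅ (ρ : EuclideanSpace ℝ (Fin 2) → ℝ≥0∞) (_ : Measurable ρ)
            (_ : ∀ γ : C(unitInterval, EuclideanSpace ℝ (Fin 2)),
              Function.Injective γ → γ 0 ∈ E → γ 1 ∈ ({x | x 1 = 0} \ E) →
              μH[1] (Set.range γ) < ⊤ → 1 ≤ ∫⁻ x in Set.range γ, ρ x ∂μH[1]),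
            ∫⁻ x, ρ x ^ 2) = ⊤ := by
  intro E hE hE01 hpos
  by_contra hne
  have hlt := lt_top_iff_ne_top.2 hne
  simp only [iInf_lt_iff] at hlt
  obtain ⟨ρ, hρ, hadm, hfin⟩ := hlt
  have hnull := slice_null hE hE01 hρ hadm hfin.ne
  have hle : ∀ n : ℕ, (⨅ (ρ : EuclideanSpace ℝ (Fin 2) → ℝ≥0∞) (_ : Measurable ρ)
            (_ : ∀ γ : C(unitInterval, EuclideanSpace ℝ (Fin 2)),
              Function.Injective γ → γ 0 ∈ E → γ 1 ∈ Metric.sphere (0 : EuclideanSpace ℝ (Fin 2)) 2 →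
              μH[1] (Set.range γ) < ⊤ → 1 ≤ ∫⁻ x in Set.range γ, ρ x ∂μH[1]),
            ∫⁻ x, ρ x ^ 2) ≤ ENNReal.ofReal (1 / ((n : ℝ) + 1)) * ∫⁻ x, ρ x ^ 2 := by
    intro n
    have hc : (0 : ℝ) < 1 / ((n : ℝ) + 1) := by positivity
    have hc0 : ENNReal.ofReal (1 / ((n : ℝ) + 1)) ≠ 0 := by
      simpa using hc
    refine (iInf_le _ (fun x => ENNReal.ofReal (1 / ((n : ℝ) + 1)) * ρ x)).trans ?_
    refine (iInf_le _ (hρ.const_mul _)).trans ?_
    refine (iInf_le _ ?_).trans ?_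
    · intro γ hinj hγ0 hγ1 hlen
      rw [lintegral_const_mul _ hρ, length_top hE01 hρ hadm hfin.ne hnull γ hinj hγ0 hγ1 hlen,
        ENNReal.mul_top hc0]
      exact le_top
    · rw [← lintegral_const_mul _ (hρ.pow_const 2)]
      refine lintegral_mono fun x => ?_
      simp only
      rw [mul_pow]
      gcongr
      rw [← ENNReal.ofReal_pow hc.le]
      apply ENNReal.ofReal_le_ofReal
      have h1 : 1 / ((n : ℝ) + 1) ≤ 1 := by
        rw [div_le_one (by positivity)]
        have : (0 : ℝ) ≤ n := Nat.cast_nonneg n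
        linarith
      nlinarith
  have hlim : Tendsto (fun n : ℕ => ENNReal.ofReal (1 / ((n : ℝ) + 1)) * ∫⁻ x, ρ x ^ 2)
      atTop (𝓝 0) := by
    have h1 : Tendsto (fun n : ℕ => ENNReal.ofReal (1 / ((n : ℝ) + 1))) atTop (𝓝 0) := by
      rw [← ENNReal.ofReal_zero]
      exact ENNReal.tendsto_ofReal tendsto_one_div_add_atTop_nhds_zero_nat
    have h2 := ENNReal.Tendsto.mul_const (b := ∫⁻ x, ρ x ^ 2) h1 (Or.inr hfin.ne)
    rwa [zero_mul] at h2
  exact absurd (ge_of_tendsto' hlim hle) (not_le.2 hpos)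

end Pool.Agent.S04233
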