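import Pool.Statements.S04235
import Pool.Agent.Helper871.CB10

set_option autoImplicit false
open Pool Pool.MP_df74ac_an

namespace Pool.Agent.S04235

/-- For every nontrivial weakly compactly generated real Banach space X, X has an equivalent norm Gâteaux differentiable but Fréchet differentiable at no nonzero point iff some nonempty bounded convex weak*-closed set in X* has no point of weak*-to-norm continuity. -/
theorem result :
    ∀ (X : Type) [NormedAddCommGroup X] [NormedSpace ℝ X] [CompleteSpace X] [Nontrivial X],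
      (∃ K : Set X, IsCompact ((toWeakSpace ℝ X : X → WeakSpace ℝ X) '' K) ∧
          Dense ((Submodule.span ℝ K : Submodule ℝ X) : Set X)) →
      ((∃ N : X → ℝ,
          (∀ x y : X, N (x + y) ≤ N x + N y) ∧
          (∀ (c : ℝ) (x : X), N (c • x) = |c| * N x) ∧
          (∃ a b : ℝ, 0 < a ∧ 0 < b ∧ ∀ x : X, a * ‖x‖ ≤ N x ∧ N x ≤ b * ‖x‖) ∧
          (∀ x : X, x ≠ 0 → ∃ L : X →L[ℝ] ℝ, ∀ v : X, HasLineDerivAt ℝ N (L v) x v) ∧
          (∀ x : X, x ≠ 0 → ¬ DifferentiableAt ℝ N x)) ↔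
        ¬ (∀ C : Set (X →L[ℝ] ℝ), C.Nonempty → Convex ℝ C → Bornology.IsBounded C →
            (∀ y : X →L[ℝ] ℝ, y ∉ C → ∃ F : Finset X, ∃ δ : ℝ, 0 < δ ∧
                ∀ z : X →L[ℝ] ℝ, (∀ v ∈ F, |z v - y v| < δ) → z ∉ C) →
            ∃ x ∈ C, ∀ ε : ℝ, 0 < ε → ∃ F : Finset X, ∃ δ : ℝ, 0 < δ ∧
              ∀ y ∈ C, (∀ v ∈ F, |y v - x v| < δ) → ‖y - x‖ < ε)) := by
  intro X _ _ _ _ hWCG
  obtain ⟨K, hKc, hspan⟩ := hWCG
  constructor
  · rintro ⟨N, hadd, hsmul, ⟨a, b, ha, hb, hab⟩, hg, hnf⟩ hP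
    obtain ⟨x, hx, hd⟩ := Pool.Agent.Helper871.CP.partA
      (N := N) (a := a) (b := b)
      ⟨hadd, hsmul, ha, hb, fun x => (hab x).1, fun x => (hab x).2⟩ hg hP
    exact hnf x hx hd
  · intro hC
    have hne : K.Nonempty := by
      by_contra hcon
      rw [Set.not_nonempty_iff_eq_empty] at hcon
      subst hcon
      obtain ⟨x, hx⟩ := exists_ne (0 : X)
      rw [Submodule.span_empty, Submodule.bot_coe] at hspan
      have h1 := hspan x
      rw [closure_singleton] at h1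
      exact hx h1
    exact Pool.Agent.Helper871.CP.partB (Pool.Agent.Helper871.CP.wc_of_compact hKc) hne hspan hC

end Pool.Agent.S04235
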