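import Pool.Statements.S04242
import Pool.Agent.Helper364.EQ.Final

set_option autoImplicit false
open scoped ENNReal
open Pool Pool.MP_dfb345_an

namespace Pool.Agent.S04242

/-- The negation of the preceding statement: For 1<p<∞, every infinite-dimensional real Banach space that is isomorphic to a subspace of ℓ_p and is a bounded linear image (quotient) of ℓ_p is isomorphic to ℓ_p. -/
theorem result :
    ¬ (∀ (p : ℝ≥0∞) [Fact (1 ≤ p)], 1 < p → p ≠ ⊤ →
      ∀ (X : Type) [NormedAddCommGroup X] [NormedSpace ℝ X] [CompleteSpace X],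
        ¬ FiniteDimensional ℝ X →
        (∃ S : Submodule ℝ (lp (fun _ : ℕ => ℝ) p), Nonempty (X ≃L[ℝ] S)) →
        (∃ T : lp (fun _ : ℕ => ℝ) p →L[ℝ] X, Function.Surjective T) →
        Nonempty (X ≃L[ℝ] lp (fun _ : ℕ => ℝ) p)) := by
  exact Pool.EQ.final

end Pool.Agent.S04242
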