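import Pool.Statements.S04246
import Pool.Agent.Helper811.Plich6

set_option autoImplicit false
open Pool Pool.MP_e04c55_an

namespace Pool.Agent.S04246

/-- The negation of the preceding statement: Every real Banach space whose weak* dual unit ball embeds into [-1,1]^Γ with the countably supported points dense has an M-basis whose countably supported dual functionals norm the space up to a constant factor. -/
theorem result :
    ¬ (∀ (X : Type) [NormedAddCommGroup X] [NormedSpace ℝ X] [CompleteSpace X],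
      (∃ (Γ : Type) (h : {φ : WeakDual ℝ X // ∀ x : X, |φ x| ≤ ‖x‖} → (Γ → ℝ)),
          Topology.IsEmbedding h ∧
          (∀ b γ, |h b γ| ≤ 1) ∧
          Dense {b : {φ : WeakDual ℝ X // ∀ x : X, |φ x| ≤ ‖x‖} |
            (Function.support (h b)).Countable}) →
      ∃ (I : Type) (e : I → X) (f : I → (X →L[ℝ] ℝ)),
        (∀ i, f i (e i) = 1) ∧
        (∀ i j, i ≠ j → f i (e j) = 0) ∧
        (Submodule.span ℝ (Set.range e)).topologicalClosure = ⊤ ∧
        (∀ x : X, (∀ i, f i x = 0) → x = 0) ∧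
        ∃ c : ℝ, 0 < c ∧
          ∀ x : X, ∀ r : ℝ, r < c * ‖x‖ →
            ∃ φ : X →L[ℝ] ℝ, {i | φ (e i) ≠ 0}.Countable ∧ ‖φ‖ ≤ 1 ∧ r < |φ x|) := by
  intro hall
  obtain ⟨I, e, f, _, _, hd, _, c, hc, hn⟩ :=
    hall (Pool.Agent.Helper811.Pli.XX Pool.Agent.Helper811.Pli.br)
      (Pool.Agent.Helper811.Pli.valdivia Pool.Agent.Helper811.Pli.br)
  refine Pool.Agent.Helper811.Pli.not_plichko Pool.Agent.Helper811.Pli.br
    Pool.Agent.Helper811.Pli.bool_uncountable Pool.Agent.Helper811.Pli.br_infinite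
    Pool.Agent.Helper811.Pli.br_disj e ?_ hc hn
  unfold Pool.Agent.Helper811.Pli.csp
  rw [Set.image_univ]
  exact hd

end Pool.Agent.S04246
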