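import Pool.Statements.S04247
import Pool.Agent.Helper368.W3
import Pool.Agent.Helper368.BM

set_option autoImplicit false
open Pool Pool.MP_e056c9_an

namespace Pool.Agent.S04247

/-- For a complex polynomial of degree at least 2 whose Julia set is real and totally disconnected, the monic orthogonal polynomials of the equilibrium (energy-minimising) measure on it have Jacobi coefficients b_n and a_n² that are Bohr almost periodic. -/
theorem result :
    ∀ f : Polynomial ℂ, 2 ≤ f.natDegree →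
    ∀ J : Set ℂ,
      J = frontier {z : ℂ | Bornology.IsBounded
            (Set.range (fun n : ℕ => (fun w : ℂ => f.eval w)^[n] z))} →
      J ⊆ Set.range ((↑) : ℝ → ℂ) →
      IsTotallyDisconnected J →
      ∀ μ : MeasureTheory.Measure ℝ, MeasureTheory.IsProbabilityMeasure μ →
        μ {x : ℝ | (x : ℂ) ∉ J} = 0 →
        (∀ ν : MeasureTheory.Measure ℝ, MeasureTheory.IsProbabilityMeasure ν →
          ν {x : ℝ | (x : ℂ) ∉ J} = 0 →
          (∫⁻ x, ∫⁻ y, (if x = y then (⊤ : ENNReal)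
              else ENNReal.ofReal (Real.log ((Metric.diam J + 1) / |x - y|))) ∂μ ∂μ)
            ≤ (∫⁻ x, ∫⁻ y, (if x = y then (⊤ : ENNReal)
              else ENNReal.ofReal (Real.log ((Metric.diam J + 1) / |x - y|))) ∂ν ∂ν)) →
        ∀ P : ℕ → Polynomial ℝ,
          (∀ n : ℕ, (P n).Monic ∧ (P n).natDegree = n ∧
            ∀ k : ℕ, k < n → ∫ x, (P n).eval x * x ^ k ∂μ = 0) →
          (∀ ε : ℝ, 0 < ε → ∃ L : ℕ, ∀ m : ℕ, ∃ τ : ℕ, m ≤ τ ∧ τ ≤ m + L ∧
            ∀ n : ℕ,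
              |(∫ x, x * (P (n + τ)).eval x ^ 2 ∂μ) / (∫ x, (P (n + τ)).eval x ^ 2 ∂μ)
                - (∫ x, x * (P n).eval x ^ 2 ∂μ) / (∫ x, (P n).eval x ^ 2 ∂μ)| ≤ ε) ∧
          (∀ ε : ℝ, 0 < ε → ∃ L : ℕ, ∀ m : ℕ, ∃ τ : ℕ, m ≤ τ ∧ τ ≤ m + L ∧
            ∀ n : ℕ,
              |(∫ x, (P (n + τ + 1)).eval x ^ 2 ∂μ) / (∫ x, (P (n + τ)).eval x ^ 2 ∂μ)
                - (∫ x, (P (n + 1)).eval x ^ 2 ∂μ) / (∫ x, (P n).eval x ^ 2 ∂μ)| ≤ ε) := by
  intro f hd J hJ hreal htd μ hμ hμJ hmin P hP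
  exact Pool.Agent.Helper368.Glue.main_of Pool.Agent.Helper368.BC.Sys.main_lp f hd J hJ hreal htd μ hμ hμJ
    hmin P hP

end Pool.Agent.S04247
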