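import Pool.Statements.S04252
-- import your own Pool.Agent.* helpers here

set_option autoImplicit false
open Pool Pool.MP_e07177_an

namespace Pool.Agent.S04252

open Filter Topology

/-- index set: for each k a root, children (k,n), grandchildren (k,n,m) -/
abbrev I : Type := ℕ × Option (ℕ × Option ℕ)

/-- the space l1 over I -/
abbrev E : Type := lp (fun _ : I => ℝ) 1

/-- small coefficient attached to tree k -/
noncomputable def dl (k : ℕ) : ℝ := 1 / ((k : ℝ) + 1)

lemma dl_pos (k : ℕ) : 0 < dl k := by unfold dl; positivity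

lemma dl_ne (k : ℕ) : dl k ≠ 0 := (dl_pos k).ne'

noncomputable def es (i : I) : E := lp.single 1 i (1 : ℝ)

lemma es_apply (i j : I) : es i j = if j = i then 1 else 0 := by
  unfold es
  rw [lp.coeFn_single]
  by_cases h : j = i
  · subst h; simp
  · simp [h]

lemma es_norm (i : I) : ‖es i‖ = 1 := by
  unfold es
  rw [lp.norm_single (by norm_num)]
  simp

/-- the M-basis vectors -/
noncomputable def X : I → E
  | (k, none) => es (k, none)
  | (k, some (n, none)) => es (k, none) + dl k • es (k, some (n, none))
  | (k, some (n, some m)) =>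
      es (k, none) + dl k • es (k, some (n, none)) + dl k • es (k, some (n, some m))

/-- coefficients of the biorthogonal functionals -/
noncomputable def A : I → I → ℝ
  | (k, none), (k', none) => if k = k' then 1 else 0
  | (k, none), (k', some (_, none)) => if k = k' then -(dl k)⁻¹ else 0
  | (_, none), (_, some (_, some _)) => 0
  | (_, some (_, none)), (_, none) => 0
  | (k, some (n, none)), (k', some (n', none)) => if k = k' ∧ n = n' then (dl k)⁻¹ else 0
  | (k, some (n, none)), (k', some (n', some _)) => if k = k' ∧ n = n' then -(dl k)⁻¹ else 0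
  | (_, some (_, some _)), (_, none) => 0
  | (_, some (_, some _)), (_, some (_, none)) => 0
  | (k, some (n, some m)), (k', some (n', some m')) =>
      if k = k' ∧ n = n' ∧ m = m' then (dl k)⁻¹ else 0

lemma dl_inv (k : ℕ) : (dl k)⁻¹ = (k : ℝ) + 1 := by unfold dl; simp

lemma A_bdd (i j : I) : |A i j| ≤ (i.1 : ℝ) + 1 := by
  have h0 : (0 : ℝ) ≤ i.1 := Nat.cast_nonneg _
  obtain ⟨k, o⟩ := i
  obtain ⟨k', o'⟩ := j
  have h1 : |(dl k)⁻¹| = (k : ℝ) + 1 := by
    rw [dl_inv, abs_of_nonneg (by positivity)]
  rcases o with _ | ⟨n, _ | m⟩ <;> rcases o' with _ | ⟨n', _ | m'⟩ <;> simp only [A] <;>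
    first
      | (split_ifs <;> simp [h1] <;> linarith)
      | (simp; linarith)

/-- functional on l1 attached to a bounded coefficient family -/
lemma summ (v : E) : Summable (fun j => |v j|) := by
  have := (lp.memℓp v).summable (by norm_num)
  simpa using this

lemma norm_eq (v : E) : ‖v‖ = ∑' j, |v j| := by
  have := lp.norm_eq_tsum_rpow (p := 1) (by norm_num) v
  simpa using this

lemma summ_mul (i : I) (v : E) : Summable (fun j => A i j * v j) := by
  apply Summable.of_norm_bounded (g := fun j => ((i.1 : ℝ) + 1) * |v j|) ((summ v).mul_left _)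
  intro j
  rw [norm_mul, Real.norm_eq_abs, Real.norm_eq_abs]
  exact mul_le_mul_of_nonneg_right (A_bdd i j) (abs_nonneg _)

noncomputable def L (i : I) : E →L[ℝ] ℝ :=
  LinearMap.mkContinuous
    { toFun := fun v => ∑' j, A i j * v j
      map_add' := by
        intro v w
        rw [← (summ_mul i v).tsum_add (summ_mul i w)]
        congr 1
        funext j
        rw [lp.coeFn_add, Pi.add_apply]; ring
      map_smul' := by
        intro c v
        rw [RingHom.id_apply, smul_eq_mul, ← tsum_mul_left]
        congr 1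
        funext j
        rw [lp.coeFn_smul, Pi.smul_apply, smul_eq_mul]; ring }
    ((i.1 : ℝ) + 1)
    (by
      intro v
      have h2 : ‖∑' j, A i j * v j‖ ≤ ∑' j, ((i.1 : ℝ) + 1) * |v j| := by
        apply tsum_of_norm_bounded ((summ v).mul_left _).hasSum
        intro j
        rw [norm_mul, Real.norm_eq_abs, Real.norm_eq_abs]
        exact mul_le_mul_of_nonneg_right (A_bdd i j) (abs_nonneg _)
      rw [tsum_mul_left, ← norm_eq] at h2
      exact h2)

lemma L_apply (i : I) (v : E) : L i v = ∑' j, A i j * v j := rfl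

lemma L_es (i j : I) : L i (es j) = A i j := by
  rw [L_apply, tsum_eq_single j]
  · rw [es_apply]; simp
  · intro j' hj'
    rw [es_apply]; simp [hj']

lemma biorth (i j : I) : L i (X j) = if i = j then 1 else 0 := by
  obtain ⟨k, o⟩ := i
  obtain ⟨k', o'⟩ := j
  have hne := dl_ne k'
  rcases o with _ | ⟨n, _ | m⟩ <;> rcases o' with _ | ⟨n', _ | m'⟩ <;>
    simp only [X, map_add, map_smul, L_es, A, smul_eq_mul, Prod.mk.injEq, Option.some.injEq,
      reduceCtorEq, and_false, and_true, if_false] <;>
    (try (by_cases hk : k = k'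
          · subst hk
            (try by_cases hn : n = n') <;> (try by_cases hm : m = m') <;> simp_all
          · simp [hk]))

lemma total (v : E) (h : ∀ i, L i v = 0) : v = 0 := by
  have hg : ∀ k n m, v (k, some (n, some m)) = 0 := by
    intro k n m
    have h1 := h (k, some (n, some m))
    rw [L_apply, tsum_eq_single (k, some (n, some m))] at h1
    · simp only [A, and_self, if_true] at h1
      exact (mul_eq_zero.mp h1).resolve_left (inv_ne_zero (dl_ne k))
    · rintro ⟨k', _ | ⟨n', _ | m'⟩⟩ hj
      · simp [A]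
      · simp [A]
      · have : ¬ (k = k' ∧ n = n' ∧ m = m') := by
          rintro ⟨rfl, rfl, rfl⟩; exact hj rfl
        simp [A, this]
  have hc : ∀ k n, v (k, some (n, none)) = 0 := by
    intro k n
    have h1 := h (k, some (n, none))
    rw [L_apply, tsum_eq_single (k, some (n, none))] at h1
    · simp only [A, and_self, if_true] at h1
      exact (mul_eq_zero.mp h1).resolve_left (inv_ne_zero (dl_ne k))
    · rintro ⟨k', _ | ⟨n', _ | m'⟩⟩ hj
      · simp [A]
      · have : ¬ (k = k' ∧ n = n') := by
          rintro ⟨rfl, rfl⟩; exact hj rfl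
        simp [A, this]
      · rw [hg]; simp
  have hr : ∀ k, v (k, none) = 0 := by
    intro k
    have h1 := h (k, none)
    rw [L_apply, tsum_eq_single (k, none)] at h1
    · simpa [A] using h1
    · rintro ⟨k', _ | ⟨n', _ | m'⟩⟩ hj
      · have : ¬ (k = k') := by
          rintro rfl; exact hj rfl
        simp [A, this]
      · rw [hc]; simp
      · rw [hg]; simp
  ext j
  obtain ⟨k, _ | ⟨n, _ | m⟩⟩ := j
  · exact hr k
  · exact hc k n
  · exact hg k n m

lemma es_mem (i : I) : es i ∈ Submodule.span ℝ (Set.range X) := by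
  have hX : ∀ i, X i ∈ Submodule.span ℝ (Set.range X) := fun i => Submodule.subset_span ⟨i, rfl⟩
  have hr : ∀ k, es (k, none) ∈ Submodule.span ℝ (Set.range X) := fun k => hX (k, none)
  have hc : ∀ k n, es (k, some (n, none)) ∈ Submodule.span ℝ (Set.range X) := by
    intro k n
    have h1 : es (k, some (n, none)) = (dl k)⁻¹ • (X (k, some (n, none)) - X (k, none)) := by
      simp only [X]
      rw [add_sub_cancel_left, smul_smul, inv_mul_cancel₀ (dl_ne k), one_smul]
    rw [h1]
    exact Submodule.smul_mem _ _ (Submodule.sub_mem _ (hX _) (hX _))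
  obtain ⟨k, _ | ⟨n, _ | m⟩⟩ := i
  · exact hr k
  · exact hc k n
  · have h1 : es (k, some (n, some m))
        = (dl k)⁻¹ • (X (k, some (n, some m)) - X (k, some (n, none))) := by
      simp only [X]
      rw [add_sub_cancel_left, smul_smul, inv_mul_cancel₀ (dl_ne k), one_smul]
    rw [h1]
    exact Submodule.smul_mem _ _ (Submodule.sub_mem _ (hX _) (hX _))

lemma dense_span : Dense ((Submodule.span ℝ (Set.range X) : Submodule ℝ E) : Set E) := by
  intro v
  have hs : HasSum (fun i => lp.single 1 i (v i)) v := lp.hasSum_single (by norm_num) v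
  apply mem_closure_of_tendsto hs
  apply Eventually.of_forall
  intro s
  apply Submodule.sum_mem
  intro i _
  have : lp.single (E := fun _ : I => ℝ) 1 i (v i) = (v i) • es i := by
    unfold es
    rw [← lp.single_smul]; simp
  rw [this]
  exact Submodule.smul_mem _ _ (es_mem i)

lemma add_app (v w : E) (j : I) : (v + w) j = v j + w j := rfl

lemma smul_app (c : ℝ) (v : E) (j : I) : (c • v) j = c * v j := rfl

lemma one_le_norm (i : I) : 1 ≤ ‖X i‖ := by
  have h : X i (i.1, none) = 1 := by
    obtain ⟨k, _ | ⟨n, _ | m⟩⟩ := i <;>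
      simp only [X, add_app, smul_app, es_apply] <;> simp
  have h2 := lp.norm_apply_le_norm (p := 1) (by norm_num) (X i) (i.1, none)
  rw [h] at h2
  simpa using h2

/-- a colour class containing a vector approximated by infinitely many other vectors -/
def Bad (C : Set I) (η : ℝ) : Prop :=
  ∃ u ∈ C, ∃ J : Set I, J.Infinite ∧ J ⊆ C ∧ ∀ w ∈ J, ‖X u - X w‖ ≤ η

lemma dist_rc (k n : ℕ) : ‖X (k, none) - X (k, some (n, none))‖ ≤ 2 * dl k := by
  simp only [X]
  rw [sub_add_cancel_left, norm_neg, norm_smul, es_norm, Real.norm_eq_abs,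
    abs_of_pos (dl_pos k)]
  linarith [dl_pos k]

lemma dist_cg (k n m : ℕ) :
    ‖X (k, some (n, none)) - X (k, some (n, some m))‖ ≤ 2 * dl k := by
  simp only [X]
  rw [sub_add_cancel_left, norm_neg, norm_smul, es_norm, Real.norm_eq_abs,
    abs_of_pos (dl_pos k)]
  linarith [dl_pos k]

lemma dist_rg (k n m : ℕ) : ‖X (k, none) - X (k, some (n, some m))‖ ≤ 2 * dl k := by
  simp only [X]
  rw [add_assoc, sub_add_cancel_left, norm_neg]
  refine (norm_add_le _ _).trans ?_
  rw [norm_smul, norm_smul, es_norm, es_norm, Real.norm_eq_abs,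
    abs_of_pos (dl_pos k)]
  linarith [dl_pos k]

lemma bad_aux (C : Set I) (k : ℕ) (hr : (k, none) ∈ C) :
    Bad C (2 * dl k) ∨ Bad Cᶜ (2 * dl k) := by
  by_cases h1 : {n : ℕ | ((k, some (n, none)) : I) ∈ C}.Infinite
  · left
    refine ⟨(k, none), hr, (fun n : ℕ => ((k, some (n, none)) : I)) '' {n : ℕ | ((k, some (n, none)) : I) ∈ C},
      ?_, ?_, ?_⟩
    · apply h1.image
      intro a _ b _ hab
      simpa using hab
    · rintro _ ⟨n, hn, rfl⟩
      exact hn
    · rintro _ ⟨n, _, rfl⟩
      exact dist_rc k n
  · have h2 : ∃ n : ℕ, ((k, some (n, none)) : I) ∉ C := by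
      by_contra hcon
      push Not at hcon
      apply h1
      have : {n : ℕ | ((k, some (n, none)) : I) ∈ C} = Set.univ := by
        ext n; simp [hcon n]
      rw [this]
      exact Set.infinite_univ
    obtain ⟨n, hn⟩ := h2
    by_cases h3 : {m : ℕ | ((k, some (n, some m)) : I) ∈ C}.Infinite
    · left
      refine ⟨(k, none), hr, (fun m : ℕ => ((k, some (n, some m)) : I)) ''
        {m : ℕ | ((k, some (n, some m)) : I) ∈ C}, ?_, ?_, ?_⟩
      · apply h3.image
        intro a _ b _ hab
        simpa using hab
      · rintro _ ⟨m, hm, rfl⟩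
        exact hm
      · rintro _ ⟨m, _, rfl⟩
        exact dist_rg k n m
    · right
      have h4 : {m : ℕ | ((k, some (n, some m)) : I) ∈ Cᶜ}.Infinite := by
        have := (Set.not_infinite.mp h3).infinite_compl
        exact this
      refine ⟨(k, some (n, none)), hn, (fun m : ℕ => ((k, some (n, some m)) : I)) ''
        {m : ℕ | ((k, some (n, some m)) : I) ∈ Cᶜ}, ?_, ?_, ?_⟩
      · apply h4.image
        intro a _ b _ hab
        simpa using hab
      · rintro _ ⟨m, hm, rfl⟩
        exact hm
      · rintro _ ⟨m, _, rfl⟩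
        exact dist_cg k n m

lemma bad_or (C : Set I) (k : ℕ) : Bad C (2 * dl k) ∨ Bad Cᶜ (2 * dl k) := by
  by_cases hr : ((k, none) : I) ∈ C
  · exact bad_aux C k hr
  · have := bad_aux Cᶜ k hr
    rw [compl_compl] at this
    exact this.symm

/-- an enumeration of the index set -/
noncomputable def en : ℕ ≃ I := (Denumerable.eqv I).symm

/-- A sequence c whose subfamily is a basis with parentheses has a uniform bound
that excludes bad pairs. -/
lemma key (c : ℕ → ℕ) (hc : StrictMono c)
    (H : ∃ p : ℕ → ℕ, StrictMono p ∧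
            ∀ v ∈ (Submodule.span ℝ (Set.range (fun i => X (en (c i))))).topologicalClosure,
              ∃! t : ℕ → ℝ,
                Filter.Tendsto
                  (fun k => ∑ i ∈ Finset.range (p k), t i • X (en (c i)))
                  Filter.atTop (nhds v)) :
    ∃ M : ℝ, ∀ η : ℝ, Bad {i : I | ∃ l, c l = en.symm i} η → 1 ≤ M * η := by
  obtain ⟨p, hp, H⟩ := H
  set F := (Submodule.span ℝ (Set.range (fun i => X (en (c i))))).topologicalClosure with hF
  -- partial sum operators
  set S : ℕ → (F →L[ℝ] E) := fun k =>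
    ∑ i ∈ Finset.range (p k), ((L (en (c i))).comp F.subtypeL).smulRight (X (en (c i))) with hS
  have hSapp : ∀ k (v : F), S k v = ∑ i ∈ Finset.range (p k), (L (en (c i)) (v : E)) • X (en (c i)) := by
    intro k v
    simp [hS]
  have hconv : ∀ v : F, Tendsto (fun k => S k v) atTop (nhds (v : E)) := by
    intro v
    obtain ⟨t, ht, _⟩ := H v v.2
    have htj : ∀ j, t j = L (en (c j)) (v : E) := by
      intro j
      have h1 : Tendsto (fun k => L (en (c j)) (∑ i ∈ Finset.range (p k), t i • X (en (c i))))
          atTop (nhds (L (en (c j)) (v : E))) :=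
        ((L (en (c j))).continuous.tendsto _).comp ht
      have h2 : ∀ᶠ k in atTop, L (en (c j)) (∑ i ∈ Finset.range (p k), t i • X (en (c i))) = t j := by
        filter_upwards [eventually_gt_atTop j] with k hk
        have hk' : j < p k := lt_of_lt_of_le hk (hp.id_le k)
        rw [map_sum, Finset.sum_eq_single j]
        · rw [map_smul, biorth]; simp
        · intro i _ hij
          have : ¬ (en (c j) = en (c i)) := by
            intro h
            exact hij (hc.injective (en.injective h)).symm
          rw [map_smul, biorth, if_neg this]; simp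
        · intro h
          exact absurd (Finset.mem_range.mpr hk') h
      have h3 : Tendsto (fun k => L (en (c j)) (∑ i ∈ Finset.range (p k), t i • X (en (c i))))
          atTop (nhds (t j)) := by
        apply Tendsto.congr' _ tendsto_const_nhds
        filter_upwards [h2] with k hk using hk.symm
      exact tendsto_nhds_unique h3 h1
    have : (fun k => S k v) = fun k => ∑ i ∈ Finset.range (p k), t i • X (en (c i)) := by
      funext k
      rw [hSapp]
      apply Finset.sum_congr rfl
      intro i _
      rw [htj]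
    rw [this]
    exact ht
  have : CompleteSpace F :=
    (Submodule.isClosed_topologicalClosure _).completeSpace_coe
  obtain ⟨M, hM⟩ := banach_steinhaus (g := S) (by
    intro v
    obtain ⟨C, hC⟩ := (hconv v).norm.bddAbove_range
    exact ⟨C, fun k => hC ⟨k, rfl⟩⟩)
  refine ⟨M, ?_⟩
  rintro η ⟨u, ⟨l, hl⟩, J, hJinf, hJC, hJ⟩
  -- choose the level
  have hlk : l < p (l + 1) := lt_of_lt_of_le (Nat.lt_succ_self l) (hp.id_le (l + 1))
  have hex : ∃ w ∈ J, ∃ l', c l' = en.symm w ∧ p (l + 1) ≤ l' := by
    by_contra hcon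
    push Not at hcon
    apply hJinf
    have hsub : J ⊆ (fun l' => en (c l')) '' (Set.Iio (p (l + 1))) := by
      intro w hw
      obtain ⟨l', hl'⟩ := hJC hw
      refine ⟨l', hcon w hw l' hl', ?_⟩
      simp [hl']
    exact ((Set.finite_Iio _).image _).subset hsub
  obtain ⟨w, hwJ, l', hl', hle⟩ := hex
  have hu : en (c l) = u := by rw [hl]; simp
  have hw : en (c l') = w := by rw [hl']; simp
  have hmem : ∀ j, X (en (c j)) ∈ F := fun j =>
    Submodule.le_topologicalClosure _ (Submodule.subset_span ⟨j, rfl⟩)
  let z : F := ⟨X (en (c l)) - X (en (c l')), Submodule.sub_mem _ (hmem l) (hmem l')⟩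
  have hz : S (l + 1) z = X u := by
    rw [hSapp, Finset.sum_eq_single l]
    · show (L (en (c l)) (X (en (c l)) - X (en (c l')))) • X (en (c l)) = X u
      have hne : ¬ (en (c l) = en (c l')) := by
        intro h
        have := hc.injective (en.injective h)
        omega
      rw [map_sub, biorth, biorth, if_pos rfl, if_neg hne, sub_zero, one_smul, hu]
    · intro i hi hil
      show (L (en (c i)) (X (en (c l)) - X (en (c l')))) • X (en (c i)) = 0
      have hi' := Finset.mem_range.mp hi
      have hne1 : ¬ (en (c i) = en (c l)) := by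
        intro h
        exact hil (hc.injective (en.injective h))
      have hne2 : ¬ (en (c i) = en (c l')) := by
        intro h
        have := hc.injective (en.injective h)
        omega
      rw [map_sub, biorth, biorth, if_neg hne1, if_neg hne2, sub_zero, zero_smul]
    · intro h
      exact absurd (Finset.mem_range.mpr hlk) h
  have hnz : ‖z‖ ≤ η := by
    have : ‖z‖ = ‖X u - X w‖ := by
      rw [← hu, ← hw]; rfl
    rw [this]
    exact hJ w hwJ
  have hM0 : 0 ≤ M := le_trans (norm_nonneg (S 0)) (hM 0)
  calc (1 : ℝ) ≤ ‖X u‖ := one_le_norm u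
    _ = ‖S (l + 1) z‖ := by rw [hz]
    _ ≤ ‖S (l + 1)‖ * ‖z‖ := (S (l + 1)).le_opNorm z
    _ ≤ M * η := mul_le_mul (hM _) hnz (norm_nonneg _) hM0

/-- The negation of the preceding statement: For every real or complex Banach space and every M-basis (x_n) of it, ℕ splits into two infinite complementary increasing index sequences so that each subsequence is a basis with parentheses of its closed linear span. -/
theorem result :
    ¬ (∀ (𝕜 : Type) [RCLike 𝕜] (E : Type) [NormedAddCommGroup E] [NormedSpace 𝕜 E]
      [CompleteSpace E] (x : ℕ → E),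
      ((∃ f : ℕ → (E →L[𝕜] 𝕜),
          (∀ i j : ℕ, f i (x j) = if i = j then (1 : 𝕜) else 0) ∧
          (∀ v : E, (∀ n : ℕ, f n v = 0) → v = 0)) ∧
        Dense ((Submodule.span 𝕜 (Set.range x) : Submodule 𝕜 E) : Set E)) →
      ∃ a b : ℕ → ℕ, StrictMono a ∧ StrictMono b ∧
        (∀ n : ℕ, (∃ k, a k = n) ↔ ¬ ∃ k, b k = n) ∧
        ∀ c : ℕ → ℕ, (c = a ∨ c = b) →
          ∃ p : ℕ → ℕ, StrictMono p ∧
            ∀ v ∈ (Submodule.span 𝕜 (Set.range (fun i => x (c i)))).topologicalClosure,
              ∃! t : ℕ → 𝕜,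
                Filter.Tendsto
                  (fun k => ∑ i ∈ Finset.range (p k), t i • x (c i))
                  Filter.atTop (nhds v)) := by
  intro H
  have hyp : (∃ f : ℕ → (E →L[ℝ] ℝ),
          (∀ i j : ℕ, f i ((X ∘ en) j) = if i = j then (1 : ℝ) else 0) ∧
          (∀ v : E, (∀ n : ℕ, f n v = 0) → v = 0)) ∧
        Dense ((Submodule.span ℝ (Set.range (X ∘ en)) : Submodule ℝ E) : Set E) := by
    refine ⟨⟨fun i => L (en i), ?_, ?_⟩, ?_⟩
    · intro i j
      rw [Function.comp_apply, biorth]
      by_cases h : i = j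
      · simp [h]
      · have : ¬ (en i = en j) := fun h' => h (en.injective h')
        simp [h, this]
    · intro v hv
      apply total
      intro i
      have := hv (en.symm i)
      simpa using this
    · have : Set.range (X ∘ en) = Set.range X := en.surjective.range_comp X
      rw [this]
      exact dense_span
  obtain ⟨a, b, ha, hb, hab, hc⟩ := H ℝ E (X ∘ en) hyp
  obtain ⟨Ma, hMa⟩ := key a ha (hc a (Or.inl rfl))
  obtain ⟨Mb, hMb⟩ := key b hb (hc b (Or.inr rfl))
  set C : Set I := {i : I | ∃ l, a l = en.symm i} with hC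
  have hCc : Cᶜ = {i : I | ∃ l, b l = en.symm i} := by
    ext i
    have := hab (en.symm i)
    simp only [hC, Set.mem_compl_iff, Set.mem_ofPred_eq]
    tauto
  -- choose k with small dl
  obtain ⟨k, hk⟩ := exists_nat_one_div_lt
    (show (0 : ℝ) < 1 / (2 * (max (max Ma Mb) 1)) by
      have : (0 : ℝ) < max (max Ma Mb) 1 := lt_max_of_lt_right one_pos
      positivity)
  have hk2 : max (max Ma Mb) 1 * (2 * dl k) < 1 := by
    have h0 : (0 : ℝ) < max (max Ma Mb) 1 := lt_max_of_lt_right one_pos
    have h1 : dl k < 1 / (2 * (max (max Ma Mb) 1)) := hk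
    rw [lt_div_iff₀ (by positivity)] at h1
    linarith
  have hd := dl_pos k
  rcases bad_or C k with h | h
  · have h1 := hMa _ h
    have h2 : Ma * (2 * dl k) ≤ max (max Ma Mb) 1 * (2 * dl k) :=
      mul_le_mul_of_nonneg_right ((le_max_left _ _).trans (le_max_left _ _)) (by positivity)
    linarith
  · rw [hCc] at h
    have h1 := hMb _ h
    have h2 : Mb * (2 * dl k) ≤ max (max Ma Mb) 1 * (2 * dl k) :=
      mul_le_mul_of_nonneg_right ((le_max_right _ _).trans (le_max_left _ _)) (by positivity)
    linarith

end Pool.Agent.S04252
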