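/-
Disproof of Forstneric's C^t rationality question for proper holomorphic maps between balls
(MP_e08233_an): for every t there are proper holomorphic maps from the ball of C^2 to balls that are
C^t up to the boundary and are not rational.

Outline.  `P = C x C`, `S` its unit sphere.  Starting from the entire function c*exp(z_1), layers v_j
(families of entire functions, indexed by a fixed finite set) are added one after the other such that
the defect 1 - |c exp z_1|^2 - |v_0 + ... + v_{j-1}|^2 on the sphere is lam^(-2pj) (1 + small), with
controlled differences along the rotations x -> y_1 x + y_2 x^perp.  A layer is a sum of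
sqrt(w) xi (F_k <z, zeta>)^q over an r/sqrt k-separated set of points zeta, F_k(s) = (1 + s + ... + s^(k-1))/k,
k = lam^(j+1); the weights w come from a Neumann series for the averaging operator with kernel
|F_k|^(2q) and a Riemann sum, the (unit) vectors xi are orthogonal to the jets of order 2w' at zeta
of the previous layers, and points that are close together get different colours (components), so that the
cross terms are small.  The limit map together with c*exp(z_1) has norm one on the sphere, is C^t up to
the boundary, and its first component is c*exp(z_1), which is not rational.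
-/
import Pool.Statements.S04254
import Pool.Agent.Helper892.PB.Main

set_option autoImplicit false
open Pool Pool.MP_e08233_an

namespace Pool.Agent.S04254

/-- The negation of the preceding statement: There is a finite t such that for all 1<n<N, every proper holomorphic map from the unit ball of C^n to the unit ball of C^N that is C^t up to the boundary has components p_j/q for polynomials p_j and a nonzero polynomial q. -/
theorem result :
    ¬ (∃ t : ℕ, ∀ n N : ℕ, 1 < n → n < N →
    ∀ f : (Fin n → ℂ) → (Fin N → ℂ),
      Set.MapsTo f {z : Fin n → ℂ | ∑ i, ‖z i‖ ^ 2 < 1} {w : Fin N → ℂ | ∑ j, ‖w j‖ ^ 2 < 1} →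
      DifferentiableOn ℂ f {z : Fin n → ℂ | ∑ i, ‖z i‖ ^ 2 < 1} →
      (∀ K : Set (Fin N → ℂ), K ⊆ {w : Fin N → ℂ | ∑ j, ‖w j‖ ^ 2 < 1} → IsCompact K →
        IsCompact ({z : Fin n → ℂ | ∑ i, ‖z i‖ ^ 2 < 1} ∩ f ⁻¹' K)) →
      ContDiffOn ℝ (t : WithTop ℕ∞) f {z : Fin n → ℂ | ∑ i, ‖z i‖ ^ 2 ≤ 1} →
      ∃ p : Fin N → MvPolynomial (Fin n) ℂ, ∃ q : MvPolynomial (Fin n) ℂ, q ≠ 0 ∧
        ∀ z ∈ {z : Fin n → ℂ | ∑ i, ‖z i‖ ^ 2 < 1}, ∀ j : Fin N,
          f z j * MvPolynomial.eval z q = MvPolynomial.eval z (p j)) := by
  exact Pool.Agent.H892PB.not_main

end Pool.Agent.S04254
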