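import Pool.Statements.S04258

set_option autoImplicit false
open Pool Pool.MP_e12d7b_an

namespace Pool.Agent.S04258

open Polynomial

/-! Integer coefficient lists (lowest degree first) and the polynomials they stand for. -/

def addL : List ℤ → List ℤ → List ℤ
  | [], m => m
  | a :: l, [] => a :: l
  | a :: l, b :: m => (a + b) :: addL l m

def mulL : List ℤ → List ℤ → List ℤ
  | [], _ => []
  | a :: l, m => addL (m.map (fun b => a * b)) (0 :: mulL l m)

noncomputable def toP : List ℤ → ℝ[X]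
  | [] => 0
  | a :: l => C (a : ℝ) + X * toP l

lemma toP_addL : ∀ l m : List ℤ, toP (addL l m) = toP l + toP m
  | [], m => by simp [addL, toP]
  | a :: l, [] => by simp [addL, toP]
  | a :: l, b :: m => by
    simp only [addL, toP, toP_addL l m]
    push_cast
    rw [C_add]; ring

lemma toP_map (a : ℤ) : ∀ m : List ℤ, toP (m.map (fun b => a * b)) = C (a : ℝ) * toP m
  | [] => by simp [toP]
  | b :: m => by
    simp only [List.map_cons, toP, toP_map a m]
    push_cast
    rw [C_mul]; ring

lemma toP_mulL : ∀ l m : List ℤ, toP (mulL l m) = toP l * toP m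
  | [], m => by simp [mulL, toP]
  | a :: l, m => by
    simp only [mulL, toP_addL, toP_map, toP, toP_mulL l m]
    simp
    ring

lemma coeff_toP : ∀ (l : List ℤ) (k : ℕ), (toP l).coeff k = ((l.getD k 0 : ℤ) : ℝ)
  | [], k => by simp [toP]
  | a :: l, 0 => by simp [toP]
  | a :: l, k + 1 => by
    simp only [toP, coeff_add, coeff_C_succ, zero_add, coeff_X_mul, coeff_toP l k]
    simp

/-- Homogeneous evaluation: `b ^ (length - 1)` times the value at `a / b`. -/
def hom : List ℤ → ℤ → ℤ → ℤ
  | [], _, _ => 0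
  | c :: l, a, b => c * b ^ l.length + a * hom l a b

lemma eval_toP (a b : ℤ) (hb : b ≠ 0) : ∀ l : List ℤ,
    (toP l).eval ((a : ℝ) / b) * (b : ℝ) ^ (l.length) = b * (hom l a b : ℝ)
  | [] => by simp [toP, hom]
  | c :: l => by
    have ih := eval_toP a b hb l
    have hb' : (b : ℝ) ≠ 0 := by exact_mod_cast hb
    simp only [toP, eval_add, eval_C, eval_mul, eval_X, hom, List.length_cons]
    push_cast
    have : (a : ℝ) / b * (toP l).eval ((a : ℝ) / b) * (b : ℝ) ^ (l.length + 1)
        = a * ((toP l).eval ((a : ℝ) / b) * (b : ℝ) ^ (l.length)) := by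
      field_simp
      ring
    calc ((c : ℝ) + (a : ℝ) / b * (toP l).eval ((a : ℝ) / b)) * (b : ℝ) ^ (l.length + 1)
        = c * (b : ℝ) ^ (l.length + 1)
          + (a : ℝ) / b * (toP l).eval ((a : ℝ) / b) * (b : ℝ) ^ (l.length + 1) := by ring
      _ = c * (b : ℝ) ^ (l.length + 1) + a * (b * (hom l a b : ℝ)) := by rw [this, ih]
      _ = b * (c * (b : ℝ) ^ l.length + a * (hom l a b : ℝ)) := by ring

lemma eval_pos {l : List ℤ} {a b : ℤ} (hb : 0 < b) (h : 0 < hom l a b) :
    0 < (toP l).eval ((a : ℝ) / b) := by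
  have h1 := eval_toP a b hb.ne' l
  have hb' : (0 : ℝ) < b := by exact_mod_cast hb
  have h2 : (0 : ℝ) < hom l a b := by exact_mod_cast h
  have h3 : 0 < (toP l).eval ((a : ℝ) / b) * (b : ℝ) ^ (l.length) := by rw [h1]; positivity
  exact pos_of_mul_pos_left h3 (by positivity)

lemma eval_neg {l : List ℤ} {a b : ℤ} (hb : 0 < b) (h : hom l a b < 0) :
    (toP l).eval ((a : ℝ) / b) < 0 := by
  have h1 := eval_toP a b hb.ne' l
  have hb' : (0 : ℝ) < b := by exact_mod_cast hb
  have h2 : (hom l a b : ℝ) < 0 := by exact_mod_cast h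
  have h3 : (toP l).eval ((a : ℝ) / b) * (b : ℝ) ^ (l.length) < 0 := by
    rw [h1]; exact mul_neg_of_pos_of_neg hb' h2
  by_contra hcon
  push Not at hcon
  have : 0 ≤ (toP l).eval ((a : ℝ) / b) * (b : ℝ) ^ (l.length) := by positivity
  linarith

/-- A real polynomial changing sign along an increasing chain of `n + 1` points has at least `n`
roots. -/
lemma le_card_roots (p : ℝ[X]) (hp : p ≠ 0) (n : ℕ) (t : ℕ → ℝ)
    (ht : ∀ i < n, t i < t (i + 1))
    (hs : ∀ i < n, p.eval (t i) * p.eval (t (i + 1)) < 0) : n ≤ p.roots.card := by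
  have hroot : ∀ i : ℕ, i < n → ∃ r : ℝ, t i < r ∧ r < t (i + 1) ∧ p.eval r = 0 := by
    intro i hi
    have hc : ContinuousOn (fun x => p.eval x) (Set.Icc (t i) (t (i + 1))) :=
      p.continuous.continuousOn
    rcases mul_neg_iff.mp (hs i hi) with ⟨h1, h2⟩ | ⟨h1, h2⟩
    · obtain ⟨r, hr, hr0⟩ := intermediate_value_Ioo' (ht i hi).le hc ⟨h2, h1⟩
      exact ⟨r, hr.1, hr.2, hr0⟩
    · obtain ⟨r, hr, hr0⟩ := intermediate_value_Ioo (ht i hi).le hc ⟨h1, h2⟩
      exact ⟨r, hr.1, hr.2, hr0⟩
  choose! r hr1 hr2 hr3 using hroot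
  have hmono : ∀ i j : ℕ, i < j → j < n → r i < r j := by
    intro i j hij hj
    induction j with
    | zero => omega
    | succ j ih =>
      rcases Nat.lt_succ_iff_lt_or_eq.mp hij with h | h
      · exact (ih h (by omega)).trans ((hr2 j (by omega)).trans (hr1 (j + 1) hj))
      · subst h; exact (hr2 i (by omega)).trans (hr1 (i + 1) hj)
  have hinj : Function.Injective (fun i : Fin n => r i) := by
    intro i j hij
    by_contra hne
    rcases lt_or_gt_of_ne (fun h => hne (Fin.ext h) : (i : ℕ) ≠ j) with h | h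
    · exact absurd hij (hmono i j h j.2).ne
    · exact absurd hij (hmono j i h i.2).ne'
  have hsub : Finset.univ.image (fun i : Fin n => r i) ⊆ p.roots.toFinset := by
    intro x hx
    obtain ⟨i, -, rfl⟩ := Finset.mem_image.mp hx
    rw [Multiset.mem_toFinset, mem_roots hp]
    exact hr3 i i.2
  calc n = (Finset.univ.image (fun i : Fin n => r i)).card := by
        rw [Finset.card_image_of_injective _ hinj]; simp
    _ ≤ p.roots.toFinset.card := Finset.card_le_card hsub
    _ ≤ p.roots.card := Multiset.toFinset_card_le _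

/-- The reciprocals `1 / γ_k` as a function of the distance `|k - 9|`. -/
noncomputable def ell : ℕ → ℝ
  | 0 => 1
  | d + 1 => 8 ^ ((d + 1) ^ 2) * (33 / 512) ^ d

lemma ell_pos (d : ℕ) : 0 < ell d := by
  cases d with
  | zero => simp [ell]
  | succ d => simp only [ell]; positivity

lemma ell_step (d : ℕ) : 4 * ell (d + 1) ^ 2 < ell d * ell (d + 2) := by
  cases d with
  | zero => simp only [ell]; norm_num
  | succ d =>
    simp only [ell]
    have h : (8 : ℝ) ^ ((d + 1) ^ 2) * (33 / 512) ^ d * (8 ^ ((d + 2 + 1) ^ 2) * (33 / 512) ^ (d + 2))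
        = 64 * (8 ^ ((d + 1 + 1) ^ 2) * (33 / 512) ^ (d + 1)) ^ 2 := by
      have e1 : (d + 1) ^ 2 + (d + 2 + 1) ^ 2 = 2 * (d + 1 + 1) ^ 2 + 2 := by ring
      calc (8 : ℝ) ^ ((d + 1) ^ 2) * (33 / 512) ^ d * (8 ^ ((d + 2 + 1) ^ 2) * (33 / 512) ^ (d + 2))
          = (8 : ℝ) ^ ((d + 1) ^ 2 + (d + 2 + 1) ^ 2) * ((33 / 512) ^ d * (33 / 512) ^ (d + 2)) := by
            rw [pow_add]; ring
        _ = (8 : ℝ) ^ (2 * (d + 1 + 1) ^ 2 + 2) * ((33 / 512) ^ (d + 1)) ^ 2 := by
            rw [e1]; ring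
        _ = 64 * (8 ^ ((d + 1 + 1) ^ 2) * (33 / 512) ^ (d + 1)) ^ 2 := by
            rw [pow_add, pow_mul']; ring
    have hpos : 0 < ((8 : ℝ) ^ ((d + 1 + 1) ^ 2) * (33 / 512) ^ (d + 1)) ^ 2 := by positivity
    have h2 : 4 * ((8 : ℝ) ^ ((d + 1 + 1) ^ 2) * (33 / 512) ^ (d + 1)) ^ 2
        < 64 * (8 ^ ((d + 1 + 1) ^ 2) * (33 / 512) ^ (d + 1)) ^ 2 := by linarith
    exact h2.trans_eq h.symm

/-- The sequence `γ`. -/
noncomputable def gam (k : ℕ) : ℝ := 1 / ell ((k - 9) + (9 - k))

lemma gam_pos (k : ℕ) : 0 < gam k := by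
  unfold gam; exact one_div_pos.mpr (ell_pos _)

lemma aux {x y z : ℝ} (hx : 0 < x) (hy : 0 < y) (hz : 0 < z) (h : 4 * y ^ 2 < x * z) :
    4 * (1 / x) * (1 / z) < (1 / y) ^ 2 := by
  have e : 4 * (1 / x) * (1 / z) = 4 / (x * z) := by field_simp
  have e2 : (1 / y) ^ 2 = 1 / y ^ 2 := by field_simp
  rw [e, e2, div_lt_div_iff₀ (by positivity) (by positivity)]
  linarith

lemma gam_step (k : ℕ) : 4 * gam k * gam (k + 2) < gam (k + 1) ^ 2 := by
  unfold gam
  rcases Nat.lt_or_ge k 8 with h | h
  · -- k + 1 ≤ 8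
    have e0 : (k - 9) + (9 - k) = (7 - k) + 2 := by omega
    have e1 : (k + 1 - 9) + (9 - (k + 1)) = (7 - k) + 1 := by omega
    have e2 : (k + 2 - 9) + (9 - (k + 2)) = 7 - k := by omega
    rw [e0, e1, e2]
    refine aux (ell_pos _) (ell_pos _) (ell_pos _) ?_
    have := ell_step (7 - k)
    linarith
  · rcases Nat.eq_or_lt_of_le h with h8 | h9
    · subst h8
      norm_num [ell]
    · have e0 : (k - 9) + (9 - k) = k - 9 := by omega
      have e1 : (k + 1 - 9) + (9 - (k + 1)) = (k - 9) + 1 := by omega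
      have e2 : (k + 2 - 9) + (9 - (k + 2)) = (k - 9) + 2 := by omega
      rw [e0, e1, e2]
      exact aux (ell_pos _) (ell_pos _) (ell_pos _) (ell_step _)

/-- The linear factors of `q`. -/
def facs : List (List ℤ) :=
  [[2165908875, 1048576], [1048576, 2165908875], [3121858245, 16384], [16384, 3121858245],
   [2238904387, 128], [128, 2238904387], [3251002429, 2], [2, 3251002429],
   [157789740829, 1], [1, 157789740829], [16960850293878, 1], [1, 16960850293878],
   [2394801605226284, 1], [1, 2394801605226284]]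

def quad1 : List ℤ := [9224639156, 1568697799, 67108864]
def quad2 : List ℤ := [67108864, 1568697799, 9224639156]

def prodL : List (List ℤ) → List ℤ
  | [] => [1]
  | f :: l => mulL f (prodL l)

def linL : List ℤ := prodL facs

def qL : List ℤ := mulL linL (mulL quad1 quad2)

def lamL : List ℤ :=
  [4209599484550173238230546496256321192869460236298611732531642368,
   29004609301397213944879657269641147876437628289024, 12790079266237362200133069131583848448,
   360960289447522135172972544, 651966964561870848, 75365351424, 557568, 264, 8, 1, 8, 264,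
   557568, 75365351424, 651966964561870848, 360960289447522135172972544,
   12790079266237362200133069131583848448, 29004609301397213944879657269641147876437628289024,
   4209599484550173238230546496256321192869460236298611732531642368]

def pL : List ℤ := List.zipWith (fun a b => a * b) lamL qL

noncomputable def q : ℝ[X] := toP qL
noncomputable def p : ℝ[X] := toP pL

lemma qL_length : qL.length = 19 := by decide +kernel
lemma pL_length : pL.length = 19 := by decide +kernel

lemma lam_eq (k : ℕ) (hk : k < 19) : ((lamL.getD k 0 : ℤ) : ℝ) = ell ((k - 9) + (9 - k)) := by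
  interval_cases k <;> norm_num [lamL, ell]

lemma pL_getD (k : ℕ) (hk : k < 19) : pL.getD k 0 = lamL.getD k 0 * qL.getD k 0 := by
  revert k hk; decide +kernel

lemma coeff_rel (k : ℕ) : q.coeff k = gam k * p.coeff k := by
  unfold q p
  rw [coeff_toP, coeff_toP]
  rcases Nat.lt_or_ge k 19 with h | h
  · rw [pL_getD k h]
    push_cast
    rw [lam_eq k h, gam, ← mul_assoc, one_div, inv_mul_cancel₀ (ell_pos _).ne', one_mul]
  · rw [List.getD_eq_default _ _ (by rw [qL_length]; exact h),
      List.getD_eq_default _ _ (by rw [pL_length]; exact h)]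
    simp

lemma natDegree_toP_le (l : List ℤ) (n : ℕ) (h : l.length ≤ n + 1) : (toP l).natDegree ≤ n := by
  rw [natDegree_le_iff_coeff_eq_zero]
  intro N hN
  rw [coeff_toP, List.getD_eq_default _ _ (by omega)]
  simp

lemma q_top : q.coeff 18 ≠ 0 := by
  unfold q
  rw [coeff_toP]
  have : qL.getD 18 0 ≠ 0 := by decide +kernel
  exact_mod_cast this

lemma p_top : p.coeff 18 ≠ 0 := by
  unfold p
  rw [coeff_toP]
  have : pL.getD 18 0 ≠ 0 := by decide +kernel
  exact_mod_cast this

lemma q_ne : q ≠ 0 := fun h => q_top (by rw [h]; simp)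
lemma p_ne : p ≠ 0 := fun h => p_top (by rw [h]; simp)

lemma q_natDegree : 18 ≤ q.natDegree := le_natDegree_of_ne_zero q_top
lemma p_natDegree : p.natDegree ≤ 18 := natDegree_toP_le _ _ (by rw [pL_length])

lemma quad_roots (a b c : ℤ) (hc : 0 < c) (h : b ^ 2 < 4 * a * c) : (toP [a, b, c]).roots = 0 := by
  by_contra hne
  obtain ⟨x, hx⟩ := Multiset.exists_mem_of_ne_zero hne
  have hx0 : (toP [a, b, c]).eval x = 0 := (mem_roots'.mp hx).2
  simp only [toP, eval_add, eval_C, eval_mul, eval_X, mul_zero, add_zero] at hx0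
  have hc' : (0 : ℝ) < c := by exact_mod_cast hc
  have h' : (b : ℝ) ^ 2 < 4 * a * c := by exact_mod_cast h
  nlinarith [sq_nonneg (2 * (c : ℝ) * x + b)]

lemma q_roots : q.roots.card ≤ 14 := by
  have hq : q = toP linL * (toP quad1 * toP quad2) := by
    unfold q qL; rw [toP_mulL, toP_mulL]
  have hne : toP linL * (toP quad1 * toP quad2) ≠ 0 := hq ▸ q_ne
  have hne2 : toP quad1 * toP quad2 ≠ 0 := right_ne_zero_of_mul hne
  rw [hq, roots_mul hne, roots_mul hne2, quad1, quad2, quad_roots _ _ _ (by norm_num) (by norm_num),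
    quad_roots _ _ _ (by norm_num) (by norm_num)]
  have hlen : linL.length = 15 := by decide +kernel
  have : (toP linL).natDegree ≤ 14 := natDegree_toP_le _ _ (by rw [hlen])
  simpa using (card_roots' (toP linL)).trans this

/-- The seventeen sample points. -/
def pts : List (ℤ × ℤ) :=
  [(-619, 250), (-2211, 1000), (-987, 500), (-881, 500), (-787, 500), (-281, 200), (-627, 500),
   (-28, 25), (-1, 1), (-25, 28), (-500, 627), (-200, 281), (-500, 787), (-500, 881), (-500, 987),
   (-1000, 2211), (-250, 619)]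

lemma pts_facts : ∀ i < 16, 0 < (pts.getD i (0, 1)).2 ∧ 0 < (pts.getD (i + 1) (0, 1)).2 ∧
    (pts.getD i (0, 1)).1 * (pts.getD (i + 1) (0, 1)).2
      < (pts.getD (i + 1) (0, 1)).1 * (pts.getD i (0, 1)).2 ∧
    ((0 < hom pL (pts.getD i (0, 1)).1 (pts.getD i (0, 1)).2 ∧
      hom pL (pts.getD (i + 1) (0, 1)).1 (pts.getD (i + 1) (0, 1)).2 < 0) ∨
     (hom pL (pts.getD i (0, 1)).1 (pts.getD i (0, 1)).2 < 0 ∧
      0 < hom pL (pts.getD (i + 1) (0, 1)).1 (pts.getD (i + 1) (0, 1)).2)) := by
  decide +kernel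

lemma p_roots : 16 ≤ p.roots.card := by
  refine le_card_roots p p_ne 16
    (fun i => ((pts.getD i (0, 1)).1 : ℝ) / ((pts.getD i (0, 1)).2 : ℝ)) ?_ ?_
  · intro i hi
    obtain ⟨h1, h2, h3, -⟩ := pts_facts i hi
    have h1' : (0 : ℝ) < (pts.getD i (0, 1)).2 := by exact_mod_cast h1
    have h2' : (0 : ℝ) < (pts.getD (i + 1) (0, 1)).2 := by exact_mod_cast h2
    rw [div_lt_div_iff₀ h1' h2']
    exact_mod_cast h3
  · intro i hi
    obtain ⟨h1, h2, -, h4⟩ := pts_facts i hi
    rcases h4 with ⟨h5, h6⟩ | ⟨h5, h6⟩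
    · exact mul_neg_of_pos_of_neg (eval_pos h1 h5) (eval_neg h2 h6)
    · exact mul_neg_of_neg_of_pos (eval_neg h1 h5) (eval_pos h2 h6)

/-- The negation of the preceding statement: For every positive real sequence with γ_{k+1}² > 4γ_kγ_{k+2} for all k, multiplying the coefficients of any real polynomial termwise by γ_k never increases the number of nonreal zeros, counted with multiplicity. -/
theorem result :
    ¬ (∀ γ : ℕ → ℝ, (∀ k, 0 < γ k) →
      (∀ k, 4 * γ k * γ (k + 2) < γ (k + 1) ^ 2) →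
      ∀ p q : Polynomial ℝ, (∀ k, q.coeff k = γ k * p.coeff k) →
        q.natDegree - q.roots.card ≤ p.natDegree - p.roots.card) := by
  intro h
  have h1 := h gam gam_pos gam_step p q coeff_rel
  have h2 := q_natDegree
  have h3 := p_natDegree
  have h4 := q_roots
  have h5 := p_roots
  omega

end Pool.Agent.S04258
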