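import Pool.Statements.S04262
import Pool.Agent.Helper224.Usm7

set_option autoImplicit false
open Pool Pool.MP_e1e1a2_an

namespace Pool.Agent.S04262

/-- The negation of the preceding statement: In a reflexive real Banach space whose spreading models from normalized weakly null sequences form countably many (nonzero) equivalence classes, some normalized weakly null sequence has a spreading model equivalent to the c_0 or some ℓ_p (1≤p<∞) unit vector basis. -/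
theorem result :
    ¬ (∀ (X : Type) [NormedAddCommGroup X] [NormedSpace ℝ X] [CompleteSpace X],
    Function.Surjective (NormedSpace.inclusionInDoubleDual ℝ X) →
    (∃ (y : ℕ → ℕ → X) (T : ℕ → (k : ℕ) → (Fin k → ℝ) → ℝ),
      (∀ j n, ‖y j n‖ = 1) ∧
      (∀ j (f : X →L[ℝ] ℝ), Filter.Tendsto (fun n => f (y j n)) Filter.atTop (nhds 0)) ∧
      (∀ j (k : ℕ) (a : Fin k → ℝ) (ε : ℝ), 0 < ε → ∃ N : ℕ, ∀ n : Fin k → ℕ,
        StrictMono n → (∀ i, N ≤ n i) → |‖∑ i, a i • y j (n i)‖ - T j k a| < ε) ∧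
      (∀ (x : ℕ → X) (S : (k : ℕ) → (Fin k → ℝ) → ℝ),
        (∀ n, ‖x n‖ = 1) →
        (∀ f : X →L[ℝ] ℝ, Filter.Tendsto (fun n => f (x n)) Filter.atTop (nhds 0)) →
        (∀ (k : ℕ) (a : Fin k → ℝ) (ε : ℝ), 0 < ε → ∃ N : ℕ, ∀ n : Fin k → ℕ,
          StrictMono n → (∀ i, N ≤ n i) → |‖∑ i, a i • x (n i)‖ - S k a| < ε) →
        ∃ j : ℕ, ∃ C : ℝ, 0 < C ∧ ∀ (k : ℕ) (a : Fin k → ℝ),
          S k a ≤ C * T j k a ∧ T j k a ≤ C * S k a)) →
    ∃ (x : ℕ → X) (S : (k : ℕ) → (Fin k → ℝ) → ℝ),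
      (∀ n, ‖x n‖ = 1) ∧
      (∀ f : X →L[ℝ] ℝ, Filter.Tendsto (fun n => f (x n)) Filter.atTop (nhds 0)) ∧
      (∀ (k : ℕ) (a : Fin k → ℝ) (ε : ℝ), 0 < ε → ∃ N : ℕ, ∀ n : Fin k → ℕ,
        StrictMono n → (∀ i, N ≤ n i) → |‖∑ i, a i • x (n i)‖ - S k a| < ε) ∧
      ((∃ C : ℝ, 0 < C ∧ ∀ (k : ℕ) (a : Fin k → ℝ),
          S k a ≤ C * (⨆ i, |a i|) ∧ (⨆ i, |a i|) ≤ C * S k a) ∨
       (∃ p : ℝ, 1 ≤ p ∧ ∃ C : ℝ, 0 < C ∧ ∀ (k : ℕ) (a : Fin k → ℝ),
          S k a ≤ C * (∑ i, |a i| ^ p) ^ (1 / p) ∧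
          (∑ i, |a i| ^ p) ^ (1 / p) ≤ C * S k a))) := by
  intro H
  have hec := Helper224.Usm.coord_tendsto Helper224.Usm.e_weakly_null
  obtain ⟨x, S, hx1, hx2, hx3, hx4⟩ := H Helper224.Usm.T Helper224.Usm.T_reflexive
    ⟨fun _ => Helper224.Usm.e, fun _ => Helper224.Usm.Ne, fun _ => Helper224.Usm.norm_e,
      fun _ => Helper224.Usm.e_weakly_null, fun _ => Helper224.Usm.spr_e, by
      intro x S hx1 hx2 hx3
      have hxc := Helper224.Usm.coord_tendsto hx2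
      obtain ⟨C, hC, h1⟩ := Helper224.Usm.spr_equiv hx1 hxc hx3 Helper224.Usm.norm_e hec
        Helper224.Usm.spr_e
      obtain ⟨D, hD, h2⟩ := Helper224.Usm.spr_equiv Helper224.Usm.norm_e hec
        Helper224.Usm.spr_e hx1 hxc hx3
      refine ⟨0, max C D, lt_max_of_lt_left hC, fun k a => ⟨?_, ?_⟩⟩
      · exact (h1 k a).trans (mul_le_mul_of_nonneg_right (le_max_left _ _)
          (Helper224.Usm.spr_nonneg Helper224.Usm.spr_e k a))
      · exact (h2 k a).trans (mul_le_mul_of_nonneg_right (le_max_right _ _)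
          (Helper224.Usm.spr_nonneg hx3 k a))⟩
  have hxc := Helper224.Usm.coord_tendsto hx2
  rcases hx4 with ⟨C, hC, h⟩ | ⟨p, hp, C, hC, h⟩
  · refine Helper224.Usm.not_c0 hx1 hxc hx3 C fun k hk => ?_
    refine (h k (fun _ => 1)).1.trans ?_
    have h1 : (⨆ _i : Fin k, |(1:ℝ)|) ≤ 1 := by
      haveI : Nonempty (Fin k) := ⟨⟨0, hk⟩⟩
      rw [ciSup_const]
      simp
    calc C * (⨆ _i : Fin k, |(1:ℝ)|) ≤ C * 1 := by gcongr
      _ = C := mul_one _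
  · exact Helper224.Usm.not_lp hx1 hxc hx3 p hp C hC fun k a => (h k a).2

end Pool.Agent.S04262
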