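import Pool.Statements.S04268

set_option autoImplicit false
open Pool Pool.MP_e29dfb_an

namespace Pool.Agent.S04268

open Set Filter Topology

/-- The one-step partner property for the distances in `[0, 1]`. -/
def UnitPartner (K : Set ℝ) : Prop :=
  ∀ d : ℝ, 0 ≤ d → d ≤ 1 → ∀ x ∈ K, x + d ∈ K ∨ x - d ∈ K

/-- If a closed set with the unit partner property has a gap just to the right of `u`, then it
contains the whole interval of length one to the left of `u`. -/
theorem gap_left {K : Set ℝ} (hK : IsClosed K) (hp : UnitPartner K) {u z : ℝ} (hu : u ∈ K)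
    (huz : u < z) (hgap : ∀ y, u < y → y < z → y ∉ K) :
    ∀ w, u - 1 < w → w ≤ u → w ∈ K := by
  by_contra hcon
  push Not at hcon
  obtain ⟨w0, hw0a, hw0b, hw0⟩ := hcon
  have hw0u : w0 < u := lt_of_le_of_ne hw0b (fun h => hw0 (h ▸ hu))
  set W : Set ℝ := {w | u - 1 < w ∧ w < u ∧ w ∉ K} with hW
  have hWne : W.Nonempty := ⟨w0, hw0a, hw0u, hw0⟩
  have hWbd : BddAbove W := ⟨u, fun w hw => hw.2.1.le⟩
  set s := sSup W with hs
  have hsu : s ≤ u := csSup_le hWne (fun w hw => hw.2.1.le)
  have hs1 : u - 1 < s := lt_of_lt_of_le hw0a (le_csSup hWbd ⟨hw0a, hw0u, hw0⟩)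
  have hIoo : ∀ y, s < y → y ≤ u → y ∈ K := by
    intro y hy1 hy2
    rcases eq_or_lt_of_le hy2 with h | h
    · rw [h]; exact hu
    · by_contra hyK
      have : y ≤ s := le_csSup hWbd ⟨by linarith, h, hyK⟩
      linarith
  have hsK : s ∈ K := by
    rcases eq_or_lt_of_le hsu with h | h
    · rw [h]; exact hu
    · have hcl : s ∈ closure (Ioc s u) := by
        rw [closure_Ioc h.ne]
        exact ⟨le_refl _, h.le⟩
      have hsub : Ioc s u ⊆ K := fun y hy => hIoo y hy.1 hy.2
      exact hK.closure_subset_iff.mpr hsub hcl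
  rcases eq_or_lt_of_le hsu with h | h
  · -- `s = u`
    have hlt : max (u - (z - u)) (u - 1) < s := by
      rw [h]; apply max_lt <;> linarith
    obtain ⟨w, hwW, hw⟩ := exists_lt_of_lt_csSup hWne hlt
    have hw1 : u - (z - u) < w := lt_of_le_of_lt (le_max_left _ _) hw
    rcases hp (u - w) (by linarith [hwW.2.1]) (by linarith [hwW.1]) u hu with h1 | h1
    · exact hgap (u + (u - w)) (by linarith [hwW.2.1]) (by linarith) h1
    · apply hwW.2.2
      have : u - (u - w) = w := by ring
      rwa [this] at h1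
  · -- `s < u`
    have hlt : max (s - (u - s)) (u - 1) < s := by
      apply max_lt <;> linarith
    obtain ⟨w, hwW, hw⟩ := exists_lt_of_lt_csSup hWne hlt
    have hw1 : s - (u - s) < w := lt_of_le_of_lt (le_max_left _ _) hw
    have hws : w < s := by
      rcases lt_or_eq_of_le (le_csSup hWbd hwW) with h1 | h1
      · exact h1
      · exact absurd (h1 ▸ hsK : w ∈ K) hwW.2.2
    -- a point of the gap close to `u`
    obtain ⟨y, hy1, hy2⟩ : ∃ y, u < y ∧ y < min z (min (u + (u - w)) (u + 1)) := by
      apply exists_between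
      apply lt_min huz
      apply lt_min <;> linarith
    have hyz : y < z := lt_of_lt_of_le hy2 (min_le_left _ _)
    have hyw : y < u + (u - w) :=
      lt_of_lt_of_le hy2 (le_trans (min_le_right _ _) (min_le_left _ _))
    have hy1' : y < u + 1 := lt_of_lt_of_le hy2 (le_trans (min_le_right _ _) (min_le_right _ _))
    have hxK : (w + y) / 2 ∈ K := by
      rcases eq_or_lt_of_le (show s ≤ (w + y) / 2 by linarith) with h1 | h1
      · rw [← h1]; exact hsK
      · exact hIoo _ h1 (by linarith)
    rcases hp ((y - w) / 2) (by linarith) (by linarith [hwW.1]) _ hxK with h1 | h1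
    · apply hgap y hy1 hyz
      have : (w + y) / 2 + (y - w) / 2 = y := by ring
      rwa [this] at h1
    · apply hwW.2.2
      have : (w + y) / 2 - (y - w) / 2 = w := by ring
      rwa [this] at h1

/-- On the right of any real number such a set is locally either full or empty. -/
theorem right_tame {K : Set ℝ} (hK : IsClosed K) (hp : UnitPartner K) (x : ℝ) :
    ∃ η > 0, (∀ y, x < y → y < x + η → y ∈ K) ∨ (∀ y, x < y → y < x + η → y ∉ K) := by
  by_cases hx : x ∈ K
  · by_cases hfull : ∀ y, x < y → y < x + 1 → y ∈ K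
    · exact ⟨1, one_pos, Or.inl hfull⟩
    · push Not at hfull
      obtain ⟨z, hz1, hz2, hzK⟩ := hfull
      set S : Set ℝ := K ∩ Icc x z with hS
      have hSne : S.Nonempty := ⟨x, hx, le_refl _, hz1.le⟩
      have hSbd : BddAbove S := ⟨z, fun w hw => hw.2.2⟩
      have hScl : IsClosed S := hK.inter isClosed_Icc
      set u := sSup S with hu
      have huS : u ∈ S := hScl.csSup_mem hSne hSbd
      have huz : u < z := lt_of_le_of_ne huS.2.2 (fun h => hzK (h ▸ huS.1))
      have hgap : ∀ y, u < y → y < z → y ∉ K := by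
        intro y h1 h2 h3
        have : y ≤ u := le_csSup hSbd ⟨h3, by linarith [huS.2.1], h2.le⟩
        linarith
      rcases eq_or_lt_of_le huS.2.1 with h | h
      · refine ⟨z - x, by linarith, Or.inr ?_⟩
        intro y h1 h2
        exact hgap y (by linarith) (by linarith)
      · refine ⟨u - x, by linarith, Or.inl ?_⟩
        intro y h1 h2
        exact gap_left hK hp huS.1 huz hgap y (by linarith) (by linarith)
  · have : Kᶜ ∈ 𝓝 x := hK.isOpen_compl.mem_nhds hx
    obtain ⟨ε, hε, hball⟩ := Metric.mem_nhds_iff.mp this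
    refine ⟨ε, hε, Or.inr ?_⟩
    intro y h1 h2
    apply hball
    rw [Metric.mem_ball, Real.dist_eq, abs_lt]
    constructor <;> linarith

theorem unitPartner_neg {K : Set ℝ} (hp : UnitPartner K) : UnitPartner {x | -x ∈ K} := by
  intro d h0 h1 x hx
  rcases hp d h0 h1 (-x) hx with h | h
  · right
    show -(x - d) ∈ K
    have : -(x - d) = -x + d := by ring
    rwa [this]
  · left
    show -(x + d) ∈ K
    have : -(x + d) = -x - d := by ring
    rwa [this]

/-- On the left of any real number such a set is locally either full or empty. -/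
theorem left_tame {K : Set ℝ} (hK : IsClosed K) (hp : UnitPartner K) (x : ℝ) :
    ∃ η > 0, (∀ y, x - η < y → y < x → y ∈ K) ∨ (∀ y, x - η < y → y < x → y ∉ K) := by
  have hK' : IsClosed {x | -x ∈ K} := hK.preimage continuous_neg
  obtain ⟨η, hη, h⟩ := right_tame hK' (unitPartner_neg hp) (-x)
  refine ⟨η, hη, ?_⟩
  rcases h with h | h
  · left
    intro y h1 h2
    have := h (-y) (by linarith) (by linarith)
    simpa using this
  · right
    intro y h1 h2 h3
    exact h (-y) (by linarith) (by linarith) (by simpa using h3)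

/-- Such a set is locally conic at every real number. -/
theorem conic {K : Set ℝ} (hK : IsClosed K) (hp : UnitPartner K) (x : ℝ) :
    ∃ η > 0, ∀ s l : ℝ, |s| < η → 0 < l → l ≤ 1 → (x + s ∈ K ↔ x + l * s ∈ K) := by
  obtain ⟨η1, hη1, h1⟩ := right_tame hK hp x
  obtain ⟨η2, hη2, h2⟩ := left_tame hK hp x
  refine ⟨min η1 η2, lt_min hη1 hη2, ?_⟩
  intro s l hs hl0 hl1
  have hs1 : |s| < η1 := lt_of_lt_of_le hs (min_le_left _ _)
  have hs2 : |s| < η2 := lt_of_lt_of_le hs (min_le_right _ _)
  rw [abs_lt] at hs1 hs2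
  rcases lt_trichotomy s 0 with h | h | h
  · have a1 : l * s < 0 := mul_neg_of_pos_of_neg hl0 h
    have a2 : s ≤ l * s := by nlinarith
    rcases h2 with h2 | h2
    · exact iff_of_true (h2 _ (by linarith) (by linarith)) (h2 _ (by linarith) (by linarith))
    · exact iff_of_false (h2 _ (by linarith) (by linarith)) (h2 _ (by linarith) (by linarith))
  · subst h; simp
  · have a1 : 0 < l * s := mul_pos hl0 h
    have a2 : l * s ≤ s := by nlinarith
    rcases h1 with h1 | h1
    · exact iff_of_true (h1 _ (by linarith) (by linarith)) (h1 _ (by linarith) (by linarith))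
    · exact iff_of_false (h1 _ (by linarith) (by linarith)) (h1 _ (by linarith) (by linarith))

/-- `β` is killed by a point of `K`. -/
def Killed (K : Set ℝ) (β : ℝ) : Prop := ∃ x ∈ K, x + β ∉ K ∧ x - β ∉ K

/-- If killed distances accumulate at `α` from the right, then all distances in a right
neighbourhood of `α` are killed. -/
theorem killed_right {K : Set ℝ} (hK : IsCompact K) (hp : UnitPartner K) (α : ℝ)
    (b : ℕ → ℝ) (hb : ∀ n, α < b n) (hlim : Tendsto b atTop (𝓝 α))
    (hkill : ∀ n, Killed K (b n)) :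
    ∃ ε > 0, ∀ β, α < β → β < α + ε → Killed K β := by
  choose x hxK hx1 hx2 using hkill
  obtain ⟨a, haK, φ, hφ, hφlim⟩ := hK.tendsto_subseq hxK
  obtain ⟨η0, hη0, c0⟩ := conic hK.isClosed hp a
  obtain ⟨η1, hη1, c1⟩ := conic hK.isClosed hp (a + α)
  obtain ⟨η2, hη2, c2⟩ := conic hK.isClosed hp (a - α)
  set η := min η0 (min η1 η2) with hη
  have hηpos : 0 < η := lt_min hη0 (lt_min hη1 hη2)
  have e0 : η ≤ η0 := min_le_left _ _
  have e1 : η ≤ η1 := le_trans (min_le_right _ _) (min_le_left _ _)
  have e2 : η ≤ η2 := le_trans (min_le_right _ _) (min_le_right _ _)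
  have hb' : Tendsto (b ∘ φ) atTop (𝓝 α) := hlim.comp hφ.tendsto_atTop
  have ev1 : ∀ᶠ n in atTop, |(x ∘ φ) n - a| < η / 2 := by
    have := (Metric.tendsto_nhds.mp hφlim) (η / 2) (by linarith)
    simpa [Real.dist_eq] using this
  have ev2 : ∀ᶠ n in atTop, |(b ∘ φ) n - α| < η / 2 := by
    have := (Metric.tendsto_nhds.mp hb') (η / 2) (by linarith)
    simpa [Real.dist_eq] using this
  obtain ⟨n, hn1, hn2⟩ := (ev1.and ev2).exists
  simp only [Function.comp] at hn1 hn2
  set m := φ n with hm
  have ht : 0 < b m - α := by linarith [hb m]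
  refine ⟨b m - α, ht, ?_⟩
  intro β hβ1 hβ2
  set l := (β - α) / (b m - α) with hl
  have hl0 : 0 < l := div_pos (by linarith) ht
  have hl1 : l ≤ 1 := by
    rw [hl, div_le_one ht]; linarith
  have hlt : l * (b m - α) = β - α := by
    rw [hl]; field_simp
  rw [abs_lt] at hn1 hn2
  refine ⟨a + l * (x m - a), ?_, ?_, ?_⟩
  · rw [← c0 (x m - a) l (by rw [abs_lt]; constructor <;> linarith) hl0 hl1]
    have : a + (x m - a) = x m := by ring
    rw [this]; exact hxK m
  · have e : a + l * (x m - a) + β = (a + α) + l * ((x m - a) + (b m - α)) := by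
      linear_combination -hlt
    rw [e, ← c1 ((x m - a) + (b m - α)) l (by rw [abs_lt]; constructor <;> linarith) hl0 hl1]
    have : (a + α) + ((x m - a) + (b m - α)) = x m + b m := by ring
    rw [this]; exact hx1 m
  · have e : a + l * (x m - a) - β = (a - α) + l * ((x m - a) - (b m - α)) := by
      linear_combination hlt
    rw [e, ← c2 ((x m - a) - (b m - α)) l (by rw [abs_lt]; constructor <;> linarith) hl0 hl1]
    have : (a - α) + ((x m - a) - (b m - α)) = x m - b m := by ring
    rw [this]; exact hx2 m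

/-- The negation of the preceding statement: For every compact set C of nonnegative reals containing 0, there is a compact K ⊆ ℝ whose center of distances (the α ≥ 0 such that every x in K has some y in K with ∣x−y∣ = α) is exactly C. -/
theorem result :
    ¬ (∀ C : Set ℝ, IsCompact C → (0 : ℝ) ∈ C → C ⊆ Set.Ici (0 : ℝ) →
      ∃ K : Set ℝ, IsCompact K ∧
        {α : ℝ | 0 ≤ α ∧ ∀ x ∈ K, ∃ y ∈ K, |x - y| = α} = C) := by
  intro H
  have hlim0 : Tendsto (fun n : ℕ => (2 : ℝ) + 1 / ((n : ℝ) + 1)) atTop (𝓝 2) := by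
    have := tendsto_one_div_add_atTop_nhds_zero_nat (𝕜 := ℝ)
    simpa using this.const_add (2 : ℝ)
  set C : Set ℝ := Icc 0 1 ∪ insert 2 (range (fun n : ℕ => (2 : ℝ) + 1 / ((n : ℝ) + 1))) with hC
  have hCc : IsCompact C := isCompact_Icc.union hlim0.isCompact_insert_range
  obtain ⟨K, hKc, hK⟩ := H C hCc (Or.inl ⟨le_refl _, zero_le_one⟩) (by
    intro x hx
    rcases hx with hx | hx | ⟨n, rfl⟩
    · exact hx.1
    · rw [hx]; exact (zero_le_two : (0 : ℝ) ≤ 2)
    · show (0 : ℝ) ≤ 2 + 1 / ((n : ℝ) + 1)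
      positivity)
  -- membership in the center of distances
  have hmem : ∀ α ∈ C, ∀ x ∈ K, x + α ∈ K ∨ x - α ∈ K := by
    intro α hα x hx
    rw [← hK] at hα
    obtain ⟨h0, h⟩ := hα
    obtain ⟨y, hy, hxy⟩ := h x hx
    rcases abs_choice (x - y) with h1 | h1
    · right
      have : x - α = y := by rw [← hxy, h1]; ring
      rwa [this]
    · left
      have : x + α = y := by rw [← hxy, h1]; ring
      rwa [this]
  have hnot : ∀ β, 0 ≤ β → β ∉ C → Killed K β := by
    intro β h0 hβ
    by_contra hcon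
    apply hβ
    rw [← hK]
    refine ⟨h0, ?_⟩
    intro x hx
    by_contra hc
    push Not at hc
    apply hcon
    refine ⟨x, hx, ?_, ?_⟩
    · intro h
      apply hc (x + β) h
      rw [show x - (x + β) = -β by ring, abs_neg, abs_of_nonneg h0]
    · intro h
      apply hc (x - β) h
      rw [show x - (x - β) = β by ring, abs_of_nonneg h0]
  have hp : UnitPartner K := fun d h0 h1 x hx => hmem d (Or.inl ⟨h0, h1⟩) x hx
  -- the sequence of killed distances
  have hb : ∀ n : ℕ, (2 : ℝ) < 2 + 1 / ((n : ℝ) + 3 / 2) := by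
    intro n
    have : (0 : ℝ) < 1 / ((n : ℝ) + 3 / 2) := by positivity
    linarith
  have hblim : Tendsto (fun n : ℕ => (2 : ℝ) + 1 / ((n : ℝ) + 3 / 2)) atTop (𝓝 2) := by
    have h1 : Tendsto (fun n : ℕ => (n : ℝ) + 3 / 2) atTop atTop :=
      tendsto_atTop_add_const_right _ _ tendsto_natCast_atTop_atTop
    have h2 : Tendsto (fun n : ℕ => 1 / ((n : ℝ) + 3 / 2)) atTop (𝓝 0) := by
      have h3 := h1.inv_tendsto_atTop
      refine h3.congr (fun n => ?_)
      simp
    simpa using h2.const_add (2 : ℝ)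
  have hbkill : ∀ n : ℕ, Killed K (2 + 1 / ((n : ℝ) + 3 / 2)) := by
    intro n
    apply hnot _ (by positivity)
    intro hmemC
    have hpos : (0 : ℝ) < 1 / ((n : ℝ) + 3 / 2) := by positivity
    rcases hmemC with h | h | ⟨m, h⟩
    · linarith [h.2]
    · linarith [h]
    · have h' : (1 : ℝ) / ((m : ℝ) + 1) = 1 / ((n : ℝ) + 3 / 2) := by
        have h2 : (2 : ℝ) + 1 / ((m : ℝ) + 1) = 2 + 1 / ((n : ℝ) + 3 / 2) := h
        linarith
      have h3 : (m : ℝ) + 1 = (n : ℝ) + 3 / 2 := by
        rw [one_div, one_div] at h'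
        exact inv_injective h'
      have h4 : (2 * m + 2 : ℝ) = 2 * n + 3 := by linarith
      have h5 : 2 * m + 2 = 2 * n + 3 := by exact_mod_cast h4
      omega
  obtain ⟨ε, hε, hall⟩ := killed_right hKc hp 2 _ hb hblim hbkill
  -- but the distances `2 + 1 / (n + 1)` are not killed
  obtain ⟨n, hn⟩ := exists_nat_one_div_lt hε
  have hpos : (0 : ℝ) < 1 / ((n : ℝ) + 1) := by positivity
  obtain ⟨x, hxK, h1, h2⟩ := hall (2 + 1 / ((n : ℝ) + 1)) (by linarith) (by linarith)
  rcases hmem (2 + 1 / ((n : ℝ) + 1)) (Or.inr (Or.inr ⟨n, rfl⟩)) x hxK with h | h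
  · exact h1 h
  · exact h2 h

end Pool.Agent.S04268
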