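import Pool.Statements.S04276
import Pool.Agent.Helper957.Inst

set_option autoImplicit false
open Filter Topology
open Pool Pool.MP_e3abba_an

namespace Pool.Agent.S04276

/-- The negation of the preceding statement: For every real Banach space in which equivalent Fréchet smooth norms are uniformly dense on the unit ball among all equivalent norms, there is an equivalent norm whose dual norm on the dual space is locally uniformly rotund. -/
theorem result :
    ¬ (∀ (X : Type) [NormedAddCommGroup X] [NormedSpace ℝ X] [CompleteSpace X],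
      (∀ p : Seminorm ℝ X, (∃ C : ℝ, 0 < C ∧ ∀ x : X, ‖x‖ ≤ C * p x ∧ p x ≤ C * ‖x‖) →
        ∀ ε : ℝ, 0 < ε → ∃ q : Seminorm ℝ X,
          (∃ C : ℝ, 0 < C ∧ ∀ x : X, ‖x‖ ≤ C * q x ∧ q x ≤ C * ‖x‖) ∧
          (∀ x : X, x ≠ 0 → DifferentiableAt ℝ (fun y : X => q y) x) ∧
          ∀ x : X, ‖x‖ ≤ 1 → |p x - q x| ≤ ε) →
      ∃ p : Seminorm ℝ X, (∃ C : ℝ, 0 < C ∧ ∀ x : X, ‖x‖ ≤ C * p x ∧ p x ≤ C * ‖x‖) ∧
        ∃ N : (X →L[ℝ] ℝ) → ℝ,
          (∀ f : X →L[ℝ] ℝ, N f = ⨆ x : {x : X // p x ≤ 1}, f x.1) ∧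
          ∀ (f : X →L[ℝ] ℝ) (g : ℕ → (X →L[ℝ] ℝ)),
            Tendsto (fun n : ℕ => 2 * N f ^ 2 + 2 * N (g n) ^ 2 - N (f + g n) ^ 2) atTop (𝓝 0) →
            Tendsto (fun n : ℕ => ‖g n - f‖) atTop (𝓝 0)) := by
  intro H
  obtain ⟨p, ⟨C, hC, hpC⟩, N, hN, hlur⟩ := H (Helper957.XX Helper957.Om) (by
    intro p ⟨C, hC, hpC⟩ ε hε
    have hp : Helper957.IsSemi (fun x : Helper957.XX Helper957.Om => p x) :=
      ⟨fun x y => map_add_le_add p x y, fun c x => by
        rw [map_smul_eq_mul, Real.norm_eq_abs]⟩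
    obtain ⟨q, hq1, hq2, hq3, hq4⟩ := Helper957.density_XX hp (c := C⁻¹) (C := C)
      (by positivity) hC (fun x => by
        rw [inv_mul_le_iff₀ hC]
        exact (hpC x).1) (fun x => (hpC x).2) hε
    refine ⟨hq1.toSeminorm, ⟨C + ε, by positivity, fun x => ⟨?_, ?_⟩⟩, fun x hx => ?_,
      fun x hx => ?_⟩
    · rw [Helper957.IsSemi.toSeminorm_apply]
      have h1 := (hpC x).1
      have h2 := hq2 x
      have h3 := hq1.nonneg x
      have h4 : C * p x ≤ C * q x := mul_le_mul_of_nonneg_left h2 hC.le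
      have h5 : 0 ≤ ε * q x := by positivity
      linarith
    · rw [Helper957.IsSemi.toSeminorm_apply]
      have h1 := (hpC x).2
      have h2 := hq3 x
      linarith
    · obtain ⟨l, hl⟩ := hq4 x hx
      exact hl.differentiableAt
    · rw [Helper957.IsSemi.toSeminorm_apply, abs_le]
      have h2 := hq2 x
      have h3 := hq3 x
      have h4 : ε * ‖x‖ ≤ ε * 1 := mul_le_mul_of_nonneg_left hx hε.le
      constructor <;> linarith)
  have hbd : ∀ f : Helper957.XX Helper957.Om →L[ℝ] ℝ,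
      BddAbove (Set.range fun x : {x : Helper957.XX Helper957.Om // p x ≤ 1} => f x.1) := by
    intro f
    refine ⟨‖f‖ * C, ?_⟩
    rintro _ ⟨x, rfl⟩
    have h1 := (le_abs_self _).trans (f.le_opNorm x.1)
    have h2 : ‖x.1‖ ≤ C := by
      have h3 := (hpC x.1).1
      have h4 := mul_le_mul_of_nonneg_left x.2 hC.le
      linarith
    exact h1.trans (mul_le_mul_of_nonneg_left h2 (norm_nonneg f))
  obtain ⟨f, g, hfg, h0⟩ := Helper957.no_dual_lur (p := fun x => p x) (D := N) (M := C)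
    (by rw [map_zero]; exact zero_le_one)
    (fun f x hx => by
      rw [hN f]
      exact le_ciSup (hbd f) ⟨x, hx⟩)
    (fun f r h => by
      rw [hN f]
      have : Nonempty {x : Helper957.XX Helper957.Om // p x ≤ 1} :=
        ⟨⟨0, by rw [map_zero]; exact zero_le_one⟩⟩
      exact ciSup_le fun x => h x.1 x.2)
    (fun x hx => by
      have h3 := (hpC x).1
      have h4 := mul_le_mul_of_nonneg_left hx hC.le
      linarith)
  have h1 := hlur f (fun _ => g) (by
    simp only [h0]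
    exact tendsto_const_nhds)
  have h2 := tendsto_nhds_unique h1 tendsto_const_nhds
  rw [eq_comm, norm_eq_zero, sub_eq_zero] at h2
  exact hfg h2.symm

end Pool.Agent.S04276
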