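import Pool.Statements.S04278

set_option autoImplicit false
open scoped Pointwise
open Pool Pool.MP_e3f633_an

namespace Pool.Agent.S04278



lemma crt {ι : Type*} [Fintype ι] (a : ι → ℕ) (ha : Pairwise (Function.onFun Nat.Coprime a))
    (t : ∀ i, ZMod (a i)) : ∃ F : ℤ, ∀ i, (F : ZMod (a i)) = t i := by
  obtain ⟨F, hF⟩ := ZMod.intCast_surjective ((ZMod.prodEquivPi a ha).symm t)
  refine ⟨F, fun i => ?_⟩
  have h1 : ZMod.prodEquivPi a ha (F : ZMod (∏ i, a i)) = t := by
    rw [hF]; simp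
  rw [map_intCast] at h1
  have := congrFun h1 i
  simpa using this

/-- finite combinatorial core -/
theorem core (h : ℕ) (hh : 0 < h) (r : ℕ) : ∀ ε : ℝ, 0 < ε →
    ∃ (Q : Finset ℕ) (f : ℤ → ℤ),
      (∀ p ∈ Q, p.Prime) ∧ (∑ p ∈ Q, (1 : ℝ) / p < ε) ∧
      (∀ x y : ℤ, x ≡ y [ZMOD ((∏ p ∈ Q, p : ℕ) : ℤ)] → f x = f y) ∧
      (∀ (x : Fin h → ℤ) (δ : Fin h → Bool),
        (Finset.univ.image (fun j => x j % ((∏ p ∈ Q, p : ℕ) : ℤ))).card ≤ r →
        ∃ p ∈ Q, (p : ℤ) ∣ ∑ j, (f (x j) + (if δ j then x j else 0))) := by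
  classical
  induction r with
  | zero =>
    intro ε hε
    refine ⟨∅, fun _ => 0, by simp, by simpa using hε, by simp, ?_⟩
    intro x δ hc
    exfalso
    have : (Finset.univ.image (fun j => x j % ((∏ p ∈ (∅ : Finset ℕ), p : ℕ) : ℤ))).Nonempty := by
      refine ⟨_, Finset.mem_image_of_mem _ (Finset.mem_univ ⟨0, hh⟩)⟩
    have := Finset.card_pos.mpr this
    omega
  | succ r ih =>
    intro ε hε
    obtain ⟨Q, f, hQp, hQs, hfper, hQ⟩ := ih (ε / 2) (by positivity)
    set M : ℕ := ∏ p ∈ Q, p with hM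
    have hMpos : 0 < M := Finset.prod_pos (fun p hp => (hQp p hp).pos)
    have : NeZero M := ⟨hMpos.ne'⟩
    let Φ := ZMod M → Fin (h + 1) × Fin (h + 1)
    let _ : Fintype Φ := inferInstanceAs (Fintype (ZMod M → Fin (h + 1) × Fin (h + 1)))
    -- bound
    obtain ⟨B, hB⟩ : ∃ B : ℕ, (Fintype.card Φ : ℝ) * (2 / ε) < B := exists_nat_gt _
    set B' : ℕ := B + M + h + 1 with hB'
    -- injection to primes
    have hinf : Set.Infinite {p : ℕ | p.Prime ∧ B' < p} := by
      have h1 := Nat.infinite_setOfPred_prime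
      have h2 : {p : ℕ | p.Prime ∧ B' < p} = {p | Nat.Prime p} \ (Set.Iic B') := by
        ext p; simp
      rw [h2]
      exact h1.sdiff (Set.finite_Iic B')
    have : Infinite {p : ℕ | p.Prime ∧ B' < p} := hinf.to_subtype
    obtain ⟨e⟩ : Nonempty (Φ ↪ {p : ℕ | p.Prime ∧ B' < p}) := by
      refine ⟨(Fintype.equivFin Φ).toEmbedding.trans ?_⟩
      exact (Fin.valEmbedding).trans (Infinite.natEmbedding _)
    let n : Φ → ℕ := fun φ => (e φ : ℕ)
    have hnp : ∀ φ, (n φ).Prime := fun φ => (e φ).2.1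
    have hnB : ∀ φ, B' < n φ := fun φ => (e φ).2.2
    have hninj : Function.Injective n := fun φ ψ hφ => e.injective (Subtype.ext hφ)
    let Q' : Finset ℕ := Q ∪ Finset.univ.image n
    have hQle : ∀ p ∈ Q, p ≤ M := fun p hp =>
      Nat.le_of_dvd hMpos (Finset.dvd_prod_of_mem _ hp)
    have hdisj : Disjoint Q (Finset.univ.image n) := by
      rw [Finset.disjoint_left]
      intro p hp hp'
      simp only [Finset.mem_image, Finset.mem_univ, true_and] at hp'
      obtain ⟨φ, rfl⟩ := hp'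
      have := hQle _ hp
      have := hnB φ
      omega
    have hprod : ∏ p ∈ Q', p = M * ∏ φ, n φ := by
      rw [Finset.prod_union hdisj, Finset.prod_image (fun a _ b _ hab => hninj hab)]
    set M' : ℕ := ∏ p ∈ Q', p with hM'
    have hM'pos : 0 < M' := by
      refine Finset.prod_pos (fun p hp => ?_)
      rcases Finset.mem_union.mp hp with hp | hp
      · exact (hQp p hp).pos
      · simp only [Finset.mem_image, Finset.mem_univ, true_and] at hp
        obtain ⟨φ, rfl⟩ := hp
        exact (hnp φ).pos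
    have hMM' : (M : ℤ) ∣ (M' : ℤ) := by
      rw [hprod]; push_cast; exact Dvd.intro _ rfl
    have hnM' : ∀ φ, (n φ : ℤ) ∣ (M' : ℤ) := by
      intro φ
      rw [hprod]; push_cast
      exact (Finset.dvd_prod_of_mem (fun φ => (n φ : ℤ)) (Finset.mem_univ φ)).mul_left _
    -- CRT
    let a : Option Φ → ℕ := fun o => o.elim M n
    have hcop : Pairwise (Function.onFun Nat.Coprime a) := by
      intro i j hij
      rcases i with _ | φ <;> rcases j with _ | ψ
      · exact absurd rfl hij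
      · show Nat.Coprime M (n ψ)
        rw [Nat.coprime_comm, (hnp ψ).coprime_iff_not_dvd]
        intro hd
        have := Nat.le_of_dvd hMpos hd
        have := hnB ψ
        omega
      · show Nat.Coprime (n φ) M
        rw [(hnp φ).coprime_iff_not_dvd]
        intro hd
        have := Nat.le_of_dvd hMpos hd
        have := hnB φ
        omega
      · show Nat.Coprime (n φ) (n ψ)
        rw [Nat.coprime_primes (hnp φ) (hnp ψ)]
        intro hc
        exact hij (congrArg some (hninj hc))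
    have hF : ∀ x : ℤ, ∃ F : ℤ, (F : ZMod M) = (f x : ZMod M) ∧
        ∀ φ : Φ, (F : ZMod (n φ)) = - (((φ (x : ZMod M)).2 : ℕ) : ZMod (n φ)) *
          (((φ (x : ZMod M)).1 : ℕ) : ZMod (n φ))⁻¹ * (x : ZMod (n φ)) := by
      intro x
      let t : ∀ o : Option Φ, ZMod (a o) := fun o => match o with
        | none => (f x : ZMod M)
        | some φ => (- (((φ (x : ZMod M)).2 : ℕ) : ZMod (n φ)) *
          (((φ (x : ZMod M)).1 : ℕ) : ZMod (n φ))⁻¹ * (x : ZMod (n φ)) : ZMod (n φ))
      obtain ⟨F, hF⟩ := crt a hcop t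
      exact ⟨F, hF none, fun φ => hF (some φ)⟩
    choose F hF1 hF2 using hF
    refine ⟨Q', fun x => F (x % M'), ?_, ?_, ?_, ?_⟩
    · intro p hp
      rcases Finset.mem_union.mp hp with hp | hp
      · exact hQp p hp
      · simp only [Finset.mem_image, Finset.mem_univ, true_and] at hp
        obtain ⟨φ, rfl⟩ := hp
        exact hnp φ
    · rw [Finset.sum_union hdisj, Finset.sum_image (fun a _ b _ hab => hninj hab)]
      have h1 : ∑ φ : Φ, (1 : ℝ) / (n φ) ≤ ε / 2 := by
        have hBpos : (0 : ℝ) < B := by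
          refine lt_of_le_of_lt ?_ hB
          positivity
        calc ∑ φ : Φ, (1 : ℝ) / (n φ) ≤ ∑ φ : Φ, (1 : ℝ) / B := by
              refine Finset.sum_le_sum (fun φ _ => ?_)
              have : (B : ℝ) ≤ n φ := by
                have := hnB φ
                exact_mod_cast (by omega : B ≤ n φ)
              exact one_div_le_one_div_of_le hBpos this
          _ = (Fintype.card Φ : ℝ) / B := by
              rw [Finset.sum_const, Finset.card_univ]; simp [div_eq_mul_inv]
          _ ≤ ε / 2 := by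
              rw [div_le_iff₀ hBpos]
              have h2 : (Fintype.card Φ : ℝ) * (2 / ε) * (ε / 2) ≤ B * (ε / 2) :=
                mul_le_mul_of_nonneg_right hB.le (by positivity)
              have h3 : (Fintype.card Φ : ℝ) * (2 / ε) * (ε / 2) = Fintype.card Φ := by
                field_simp
              linarith
      linarith
    · intro x y hxy
      show F (x % M') = F (y % M')
      rw [hxy]
    · intro x δ hc
      rw [← hM'] at hc
      have hxM' : ∀ j, ((x j % (M' : ℤ) : ℤ) : ZMod M) = (x j : ZMod M) := by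
        intro j
        rw [ZMod.intCast_eq_intCast_iff]
        exact (Int.mod_modEq _ _).of_dvd hMM'
      have hxn : ∀ φ j, ((x j % (M' : ℤ) : ℤ) : ZMod (n φ)) = (x j : ZMod (n φ)) := by
        intro φ j
        rw [ZMod.intCast_eq_intCast_iff]
        exact (Int.mod_modEq _ _).of_dvd (hnM' φ)
      by_cases hcase : (Finset.univ.image (fun j => x j % (M : ℤ))).card ≤ r
      · obtain ⟨p, hp, hdvd⟩ := hQ x δ hcase
        refine ⟨p, Finset.mem_union_left _ hp, ?_⟩
        have hpM : (p : ℤ) ∣ (M : ℤ) := by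
          exact_mod_cast Finset.dvd_prod_of_mem _ hp
        have hcong : ∀ j, F (x j % (M' : ℤ)) ≡ f (x j) [ZMOD p] := by
          intro j
          have h1 := hF1 (x j % (M' : ℤ))
          rw [ZMod.intCast_eq_intCast_iff] at h1
          have h2 : f (x j % (M' : ℤ)) = f (x j) := by
            apply hfper
            exact (Int.mod_modEq _ _).of_dvd hMM'
          rw [h2] at h1
          exact h1.of_dvd hpM
        have hsum : (∑ j, (F (x j % (M' : ℤ)) + (if δ j then x j else 0))) ≡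
            ∑ j, (f (x j) + (if δ j then x j else 0)) [ZMOD p] := by
          have : (∑ j, (F (x j % (M' : ℤ)) + (if δ j then x j else 0))) -
            ∑ j, (f (x j) + (if δ j then x j else 0)) = ∑ j, (F (x j % (M' : ℤ)) - f (x j)) := by
            rw [← Finset.sum_sub_distrib]
            refine Finset.sum_congr rfl (fun j _ => by ring)
          apply Int.ModEq.symm
          rw [Int.modEq_iff_dvd, this]
          exact Finset.dvd_sum (fun j _ => (Int.modEq_iff_dvd.mp (hcong j).symm))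
        exact hsum.dvd_iff.mpr hdvd
      · push Not at hcase
        -- injectivity
        have hinj : ∀ i j, x i % (M : ℤ) = x j % (M : ℤ) → x i % (M' : ℤ) = x j % (M' : ℤ) := by
          have himg : (Finset.univ.image (fun j => x j % (M' : ℤ))).image (fun z => z % (M : ℤ)) =
              Finset.univ.image (fun j => x j % (M : ℤ)) := by
            rw [Finset.image_image]
            congr 1
            ext j
            simp only [Function.comp_apply]
            exact (Int.emod_emod_of_dvd _ hMM')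
          have hcard : ((Finset.univ.image (fun j => x j % (M' : ℤ))).image
              (fun z => z % (M : ℤ))).card = (Finset.univ.image (fun j => x j % (M' : ℤ))).card := by
            refine le_antisymm Finset.card_image_le ?_
            rw [himg]
            omega
          have hio := Finset.injOn_of_card_image_eq hcard
          intro i j hij
          apply hio
          · simp
          · simp
          · simp only []
            rw [Int.emod_emod_of_dvd _ hMM', Int.emod_emod_of_dvd _ hMM']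
            exact hij
        -- define φ
        let cnt : ZMod M → Finset (Fin h) := fun u => Finset.univ.filter (fun j => (x j : ZMod M) = u)
        let cntb : ZMod M → Finset (Fin h) :=
          fun u => Finset.univ.filter (fun j => (x j : ZMod M) = u ∧ δ j = true)
        have hc1 : ∀ u, (cnt u).card < h + 1 := by
          intro u
          have := Finset.card_le_univ (cnt u)
          simp at this
          omega
        have hc2 : ∀ u, (cntb u).card < h + 1 := by
          intro u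
          have := Finset.card_le_univ (cntb u)
          simp at this
          omega
        let φ : Φ := fun u => (⟨(cnt u).card, hc1 u⟩, ⟨(cntb u).card, hc2 u⟩)
        refine ⟨n φ, ?_, ?_⟩
        · apply Finset.mem_union_right
          exact Finset.mem_image_of_mem _ (Finset.mem_univ φ)
        have : Fact (n φ).Prime := ⟨hnp φ⟩
        rw [← ZMod.intCast_zmod_eq_zero_iff_dvd]
        push_cast
        -- representatives
        have hX : ∀ i j, (x i : ZMod M) = (x j : ZMod M) →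
            (x i : ZMod (n φ)) = (x j : ZMod (n φ)) := by
          intro i j hij
          rw [ZMod.intCast_eq_intCast_iff] at hij
          have := hinj i j hij
          rw [← hxn φ i, ← hxn φ j, this]
        have hterm : ∀ j, ((F (x j % (M' : ℤ)) : ℤ) : ZMod (n φ)) =
            - ((cntb (x j : ZMod M)).card : ZMod (n φ)) *
              ((cnt (x j : ZMod M)).card : ZMod (n φ))⁻¹ * (x j : ZMod (n φ)) := by
          intro j
          rw [hF2 (x j % (M' : ℤ)) φ, hxM' j, hxn φ j]
        have hgoal : ∑ j, (((F (x j % (M' : ℤ)) : ℤ) : ZMod (n φ)) +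
            (if δ j then (x j : ZMod (n φ)) else 0)) = 0 := by
          rw [← Finset.sum_fiberwise (s := Finset.univ) (g := fun j => (x j : ZMod M))]
          refine Finset.sum_eq_zero (fun u _ => ?_)
          by_cases hne : (Finset.univ.filter (fun j => (x j : ZMod M) = u)).Nonempty
          · obtain ⟨j₀, hj₀⟩ := hne
            have hj₀' : (x j₀ : ZMod M) = u := by simpa using hj₀
            have hcard_ne : ((cnt u).card : ZMod (n φ)) ≠ 0 := by
              intro h0
              rw [ZMod.natCast_eq_zero_iff] at h0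
              have hpos : 0 < (cnt u).card := Finset.card_pos.mpr ⟨j₀, hj₀⟩
              have := Nat.le_of_dvd hpos h0
              have := hc1 u
              have := hnB φ
              omega
            have h1 : ∀ j ∈ Finset.univ.filter (fun j => (x j : ZMod M) = u),
                (((F (x j % (M' : ℤ)) : ℤ) : ZMod (n φ)) + (if δ j then (x j : ZMod (n φ)) else 0)) =
                - ((cntb u).card : ZMod (n φ)) * ((cnt u).card : ZMod (n φ))⁻¹ * (x j₀ : ZMod (n φ))
                + (if δ j then (x j₀ : ZMod (n φ)) else 0) := by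
              intro j hj
              have hj' : (x j : ZMod M) = u := by simpa using hj
              rw [hterm j, hj', hX j j₀ (hj'.trans hj₀'.symm)]
            rw [Finset.sum_congr rfl h1, Finset.sum_add_distrib, Finset.sum_const,
              ← Finset.sum_filter, Finset.sum_const, Finset.filter_filter]
            show (cnt u).card • _ + (cntb u).card • _ = _
            rw [nsmul_eq_mul, nsmul_eq_mul]
            field_simp
            ring
          · rw [Finset.not_nonempty_iff_eq_empty] at hne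
            rw [hne, Finset.sum_empty]
        refine (Finset.sum_congr rfl (fun j _ => ?_)).trans hgoal
        split_ifs <;> simp



open MeasureTheory Filter Topology

lemma card_mult (m p : ℕ) (hm : 0 < m) (hp : 0 < p) (hpm : p ∣ m) :
    (((Finset.Ico (0 : ℤ) (8 * m)).filter (fun s => (p : ℤ) ∣ s)).card : ℝ) = 8 * m / p := by
  obtain ⟨c, rfl⟩ := hpm
  have : (Finset.Ico (0 : ℤ) (8 * ((p * c : ℕ) : ℤ))).filter (fun s => (p : ℤ) ∣ s) =
      (Finset.Ico (0 : ℤ) (8 * c)).image (fun k => (p : ℤ) * k) := by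
    ext s
    simp only [Finset.mem_filter, Finset.mem_Ico, Finset.mem_image]
    have hp' : (0 : ℤ) < p := by exact_mod_cast hp
    constructor
    · rintro ⟨⟨h1, h2⟩, k, rfl⟩
      refine ⟨k, ⟨?_, ?_⟩, rfl⟩
      · exact nonneg_of_mul_nonneg_right h1 hp'
      · have : (p : ℤ) * k < p * (8 * c) := by push_cast at h2; linarith
        exact lt_of_mul_lt_mul_left this hp'.le
    · rintro ⟨k, ⟨h1, h2⟩, rfl⟩
      refine ⟨⟨by positivity, ?_⟩, dvd_mul_right _ _⟩
      push_cast
      have := mul_lt_mul_of_pos_left h2 hp'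
      linarith
  rw [this, Finset.card_image_of_injective]
  · rw [Int.card_Ico]
    have hp' : (p : ℝ) ≠ 0 := by exact_mod_cast hp.ne'
    have : ((8 * (c : ℤ) - 0).toNat) = 8 * c := by omega
    rw [this]
    push_cast
    field_simp
  · intro a b hab
    have hp' : (p : ℤ) ≠ 0 := by exact_mod_cast hp.ne'
    exact mul_left_cancel₀ hp' hab

lemma tw (f : ℤ → ℤ) (M : ℕ) (d : ℤ)
    (h : ∃ x : ℤ, d ≡ f x [ZMOD M] ∨ d ≡ f x + x [ZMOD M]) :
    ∃ (x : ℤ) (δ : Bool), d ≡ f x + (if δ then x else 0) [ZMOD M] := by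
  obtain ⟨x, hx | hx⟩ := h
  · exact ⟨x, false, by simpa using hx⟩
  · exact ⟨x, true, by simpa using hx⟩

lemma four_sum (Q : Finset ℕ) (f : ℤ → ℤ) (hQ' : ∀ (x : Fin 4 → ℤ) (δ : Fin 4 → Bool),
      ∃ p ∈ Q, (p : ℤ) ∣ ∑ j, (f (x j) + (if δ j then x j else 0))) (M : ℕ)
    (hM : ∀ p ∈ Q, (p : ℤ) ∣ (M : ℤ)) (d1 d2 d3 d4 : ℤ)
    (h1 : ∃ x : ℤ, d1 ≡ f x [ZMOD M] ∨ d1 ≡ f x + x [ZMOD M])
    (h2 : ∃ x : ℤ, d2 ≡ f x [ZMOD M] ∨ d2 ≡ f x + x [ZMOD M])
    (h3 : ∃ x : ℤ, d3 ≡ f x [ZMOD M] ∨ d3 ≡ f x + x [ZMOD M])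
    (h4 : ∃ x : ℤ, d4 ≡ f x [ZMOD M] ∨ d4 ≡ f x + x [ZMOD M]) :
    ∃ p ∈ Q, (p : ℤ) ∣ d1 + d2 + d3 + d4 := by
  obtain ⟨x1, δ1, e1⟩ := tw f M d1 h1
  obtain ⟨x2, δ2, e2⟩ := tw f M d2 h2
  obtain ⟨x3, δ3, e3⟩ := tw f M d3 h3
  obtain ⟨x4, δ4, e4⟩ := tw f M d4 h4
  obtain ⟨p, hp, hdvd⟩ := hQ' ![x1, x2, x3, x4] ![δ1, δ2, δ3, δ4]
  refine ⟨p, hp, ?_⟩
  have hcong := (((e1.add e2).add e3).add e4).of_dvd (hM p hp)
  rw [hcong.dvd_iff]
  rw [Fin.sum_univ_four] at hdvd
  exact hdvd

theorem digits : ∃ (m : ℕ) (D : Finset ℤ), 2 ≤ m ∧ D.Nonempty ∧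
    (∀ t : ℤ, 0 ≤ t → t < m → ∃ a ∈ D, ∃ b ∈ D, t = a - b) ∧
    (D + D + D + D).card < m := by
  classical
  obtain ⟨Q, f, hQp, hQs, hfper, hQ⟩ := core 4 (by norm_num) 4 (1 / 8) (by norm_num)
  set M : ℕ := ∏ p ∈ Q, p with hM
  have hMpos : 0 < M := Finset.prod_pos (fun p hp => (hQp p hp).pos)
  have hMZ : (0 : ℤ) < M := by exact_mod_cast hMpos
  have hQ' : ∀ (x : Fin 4 → ℤ) (δ : Fin 4 → Bool),
      ∃ p ∈ Q, (p : ℤ) ∣ ∑ j, (f (x j) + (if δ j then x j else 0)) := by
    intro x δ
    apply hQ x δ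
    refine le_trans Finset.card_image_le ?_
    simp
  have hM2 : 2 ≤ M := by
    obtain ⟨p, hp, -⟩ := hQ' (fun _ => 0) (fun _ => false)
    exact le_trans (hQp p hp).two_le (Nat.le_of_dvd hMpos (Finset.dvd_prod_of_mem _ hp))
  let D : Finset ℤ := (Finset.Ico (0 : ℤ) (2 * M)).filter
    (fun d => ∃ x : ℤ, d ≡ f x [ZMOD M] ∨ d ≡ f x + x [ZMOD M])
  have hdiff : ∀ t : ℤ, 0 ≤ t → t < M → ∃ a ∈ D, ∃ b ∈ D, t = a - b := by
    intro t ht0 htM
    have h1 := Int.emod_nonneg (f t) hMZ.ne'
    have h2 := Int.emod_lt_of_pos (f t) hMZ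
    refine ⟨f t % M + t, ?_, f t % M, ?_, by ring⟩
    · simp only [D, Finset.mem_filter, Finset.mem_Ico]
      exact ⟨⟨by linarith, by linarith⟩, t, Or.inr ((Int.mod_modEq _ _).add_right _)⟩
    · simp only [D, Finset.mem_filter, Finset.mem_Ico]
      exact ⟨⟨by linarith, by linarith⟩, t, Or.inl (Int.mod_modEq _ _)⟩
  refine ⟨M, D, hM2, ?_, hdiff, ?_⟩
  · obtain ⟨a, ha, -⟩ := hdiff 0 le_rfl hMZ
    exact ⟨a, ha⟩
  · have hsub : D + D + D + D ⊆ Q.biUnion
        (fun p => (Finset.Ico (0 : ℤ) (8 * M)).filter (fun s => (p : ℤ) ∣ s)) := by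
      intro s hs
      rw [Finset.mem_add] at hs
      obtain ⟨s3, hs3, d4, hd4, rfl⟩ := hs
      rw [Finset.mem_add] at hs3
      obtain ⟨s2, hs2, d3, hd3, rfl⟩ := hs3
      rw [Finset.mem_add] at hs2
      obtain ⟨d1, hd1, d2, hd2, rfl⟩ := hs2
      simp only [D, Finset.mem_filter, Finset.mem_Ico] at hd1 hd2 hd3 hd4
      obtain ⟨⟨h11, h12⟩, e1⟩ := hd1
      obtain ⟨⟨h21, h22⟩, e2⟩ := hd2
      obtain ⟨⟨h31, h32⟩, e3⟩ := hd3
      obtain ⟨⟨h41, h42⟩, e4⟩ := hd4
      obtain ⟨p, hp, hdvd⟩ := four_sum Q f hQ' M (fun p hp => by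
        exact_mod_cast Finset.dvd_prod_of_mem _ hp) d1 d2 d3 d4 e1 e2 e3 e4
      rw [Finset.mem_biUnion]
      refine ⟨p, hp, ?_⟩
      simp only [Finset.mem_filter, Finset.mem_Ico]
      exact ⟨⟨by linarith, by linarith⟩, hdvd⟩
    have h1 : ((D + D + D + D).card : ℝ) ≤ ∑ p ∈ Q, (8 * M / p : ℝ) := by
      calc ((D + D + D + D).card : ℝ) ≤ ((Q.biUnion
        (fun p => (Finset.Ico (0 : ℤ) (8 * M)).filter (fun s => (p : ℤ) ∣ s))).card : ℝ) := by
            exact_mod_cast Finset.card_le_card hsub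
        _ ≤ ((∑ p ∈ Q, ((Finset.Ico (0 : ℤ) (8 * M)).filter (fun s => (p : ℤ) ∣ s)).card : ℕ) : ℝ) := by
            exact_mod_cast Finset.card_biUnion_le
        _ = ∑ p ∈ Q, (8 * M / p : ℝ) := by
            push_cast
            refine Finset.sum_congr rfl (fun p hp => ?_)
            exact card_mult M p hMpos (hQp p hp).pos (Finset.dvd_prod_of_mem _ hp)
    have h2 : ∑ p ∈ Q, (8 * M / p : ℝ) = 8 * M * ∑ p ∈ Q, (1 : ℝ) / p := by
      rw [Finset.mul_sum]
      refine Finset.sum_congr rfl (fun p _ => by ring)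
    have h3 : (8 * M : ℝ) * ∑ p ∈ Q, (1 : ℝ) / p < 8 * M * (1 / 8) := by
      apply mul_lt_mul_of_pos_left hQs
      have : (0 : ℝ) < M := by exact_mod_cast hMpos
      positivity
    have h4 : ((D + D + D + D).card : ℝ) < M := by
      rw [h2] at h1
      linarith
    exact_mod_cast h4

/-- the real number with digit sequence g in base m -/
noncomputable def T (m : ℕ) (D : Finset ℤ) (g : ℕ → D) : ℝ :=
  ∑' i, ((g i : ℤ) : ℝ) * (1 / (m : ℝ)) ^ (i + 1)

lemma exists_bound (D : Finset ℤ) : ∃ C : ℝ, ∀ d : D, |((d : ℤ) : ℝ)| ≤ C := by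
  obtain ⟨C, hC⟩ := (Set.finite_range (fun d : D => |((d : ℤ) : ℝ)|)).bddAbove
  exact ⟨C, fun d => hC ⟨d, rfl⟩⟩

lemma summable_geo (m : ℕ) (hm : 2 ≤ m) (C : ℝ) :
    Summable (fun i : ℕ => C * (1 / (m : ℝ)) ^ (i + 1)) := by
  have hm' : (2 : ℝ) ≤ m := by exact_mod_cast hm
  have h1 : (1 : ℝ) / m < 1 := by
    rw [div_lt_one (by linarith)]; linarith
  have := (summable_geometric_of_lt_one (by positivity : (0 : ℝ) ≤ 1 / m) h1)
  simp_rw [pow_succ]
  simp_rw [mul_comm _ (1 / (m : ℝ)), ← mul_assoc]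
  exact this.mul_left _

lemma summable_T (m : ℕ) (hm : 2 ≤ m) (D : Finset ℤ) (g : ℕ → D) :
    Summable (fun i : ℕ => ((g i : ℤ) : ℝ) * (1 / (m : ℝ)) ^ (i + 1)) := by
  obtain ⟨C, hC⟩ := exists_bound D
  refine Summable.of_norm_bounded (summable_geo m hm C) (fun i => ?_)
  rw [norm_mul, Real.norm_eq_abs, norm_pow, Real.norm_eq_abs,
    abs_of_nonneg (by positivity : (0 : ℝ) ≤ 1 / m)]
  exact mul_le_mul_of_nonneg_right (hC _) (by positivity)

lemma continuous_T (m : ℕ) (hm : 2 ≤ m) (D : Finset ℤ) : Continuous (T m D) := by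
  obtain ⟨C, hC⟩ := exists_bound D
  refine continuous_tsum (fun i => ?_) (summable_geo m hm C) (fun i g => ?_)
  · refine Continuous.mul ?_ continuous_const
    have h1 : Continuous (fun d : D => ((d : ℤ) : ℝ)) := continuous_of_discreteTopology
    exact h1.comp (continuous_apply i)
  · rw [norm_mul, Real.norm_eq_abs, norm_pow, Real.norm_eq_abs,
      abs_of_nonneg (by positivity : (0 : ℝ) ≤ 1 / m)]
    exact mul_le_mul_of_nonneg_right (hC _) (by positivity)

lemma T_rec (m : ℕ) (hm : 2 ≤ m) (D : Finset ℤ) (g : ℕ → D) :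
    T m D g = (((g 0 : ℤ) : ℝ) + T m D (fun i => g (i + 1))) / m := by
  unfold T
  rw [(summable_T m hm D g).tsum_eq_zero_add]
  have : ∀ i : ℕ, ((g (i + 1) : ℤ) : ℝ) * (1 / (m : ℝ)) ^ (i + 1 + 1) =
      (1 / (m : ℝ)) * (((g (i + 1) : ℤ) : ℝ) * (1 / (m : ℝ)) ^ (i + 1)) := by
    intro i; ring
  simp_rw [this]
  rw [tsum_mul_left]
  ring

theorem compact_example : ∃ A : Set ℝ, IsCompact A ∧ A - A ∈ nhds (0 : ℝ) ∧
    volume (A + A + A + A) = 0 := by
  classical
  obtain ⟨m, D, hm, hDne, hdiff, hcard⟩ := digits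
  have hm0 : (0 : ℝ) < m := by
    have : (2 : ℝ) ≤ m := by exact_mod_cast hm
    linarith
  obtain ⟨d₀, hd₀⟩ := hDne
  set K : Set ℝ := Set.range (T m D) with hK
  have hKc : IsCompact K := isCompact_range (continuous_T m hm D)
  have hKne : K.Nonempty := ⟨_, ⟨fun _ => ⟨d₀, hd₀⟩, rfl⟩⟩
  have hK1 : ∀ x ∈ K, ∃ d ∈ D, ∃ y ∈ K, x = ((d : ℝ) + y) / m := by
    rintro x ⟨g, rfl⟩
    exact ⟨g 0, (g 0).2, _, ⟨fun i => g (i + 1), rfl⟩, T_rec m hm D g⟩
  have hK2 : ∀ d ∈ D, ∀ y ∈ K, ((d : ℝ) + y) / m ∈ K := by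
    rintro d hd y ⟨g, rfl⟩
    refine ⟨fun i => Nat.casesOn i ⟨d, hd⟩ g, ?_⟩
    rw [T_rec m hm D]
    rfl
  have hLc : IsClosed (K - K) := by
    rw [sub_eq_add_neg]
    exact (hKc.add hKc.neg).isClosed
  -- finite expansions
  have hfin : ∀ n : ℕ, ∀ j : ℕ, j < m ^ n → ((j : ℝ) / (m : ℝ) ^ n) ∈ K - K := by
    intro n
    induction n with
    | zero =>
      intro j hj
      obtain ⟨k, hk⟩ := hKne
      have : j = 0 := by simpa using hj
      subst this
      exact ⟨k, hk, k, hk, by simp⟩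
    | succ n ih =>
      intro j hj
      have hmn : 0 < m ^ n := by positivity
      have ht : j / m ^ n < m := by
        rw [Nat.div_lt_iff_lt_mul hmn]
        rwa [pow_succ, mul_comm] at hj
      obtain ⟨a, ha, b, hb, hab⟩ := hdiff ((j / m ^ n : ℕ) : ℤ) (by positivity) (by exact_mod_cast ht)
      obtain ⟨k, hk, k', hk', hkk⟩ := ih (j % m ^ n) (Nat.mod_lt _ hmn)
      refine ⟨_, hK2 a ha k hk, _, hK2 b hb k' hk', ?_⟩
      have h1 : (j : ℝ) = (m : ℝ) ^ n * ((j / m ^ n : ℕ) : ℝ) + ((j % m ^ n : ℕ) : ℝ) := by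
        exact_mod_cast (Nat.div_add_mod j (m ^ n)).symm
      have h2 : ((j / m ^ n : ℕ) : ℝ) = (a : ℝ) - b := by
        rw [← Int.cast_natCast, hab, Int.cast_sub]
      have h3 : k - k' = ((j % m ^ n : ℕ) : ℝ) / (m : ℝ) ^ n := hkk
      have hmn' : (m : ℝ) ^ n ≠ 0 := by positivity
      show (a + k) / (m : ℝ) - (b + k') / m = j / (m : ℝ) ^ (n + 1)
      rw [h1, h2, pow_succ]
      have h4 : (a + k) / (m : ℝ) - (b + k') / m = ((a - b) + (k - k')) / m := by ring
      rw [h4, h3]
      field_simp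
  have hpos : ∀ x : ℝ, 0 ≤ x → x < 1 → x ∈ K - K := by
    intro x hx0 hx1
    have hm1 : (1 : ℝ) < m := by
      have : (2 : ℝ) ≤ m := by exact_mod_cast hm
      linarith
    have htend : Tendsto (fun n : ℕ => ((⌊x * (m : ℝ) ^ n⌋₊ : ℝ) / (m : ℝ) ^ n)) atTop (𝓝 x) :=
      (tendsto_nat_floor_mul_div_atTop hx0).comp (tendsto_pow_atTop_atTop_of_one_lt hm1)
    refine hLc.mem_of_tendsto htend (Eventually.of_forall (fun n => hfin n _ ?_))
    have h1 : x * (m : ℝ) ^ n < (m : ℝ) ^ n := by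
      have : (0 : ℝ) < (m : ℝ) ^ n := by positivity
      nlinarith
    have h2 : (⌊x * (m : ℝ) ^ n⌋₊ : ℝ) ≤ x * (m : ℝ) ^ n := Nat.floor_le (by positivity)
    exact_mod_cast lt_of_le_of_lt h2 h1
  have hsym : ∀ x ∈ K - K, -x ∈ K - K := by
    rintro x ⟨a, ha, b, hb, rfl⟩
    exact ⟨b, hb, a, ha, by simp⟩
  refine ⟨K, hKc, ?_, ?_⟩
  · refine Filter.mem_of_superset (Ioo_mem_nhds (show (-1 : ℝ) < 0 by norm_num)
      (show (0 : ℝ) < 1 by norm_num)) ?_
    rintro x ⟨h1, h2⟩
    rcases le_total 0 x with h | h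
    · exact hpos x h h2
    · have := hsym _ (hpos (-x) (by linarith) (by linarith))
      simpa using this
  · set E : Set ℝ := K + K + K + K with hE
    have hEc : IsCompact E := ((hKc.add hKc).add hKc).add hKc
    have hEfin : volume E < ⊤ := hEc.measure_lt_top
    have hsub : E ⊆ ⋃ s ∈ (D + D + D + D), (fun x : ℝ => (m : ℝ) * x) ⁻¹' ((fun x => x - (s : ℝ)) ⁻¹' E) := by
      intro x hx
      obtain ⟨x3, hx3, y4, hy4, rfl⟩ := hx
      obtain ⟨x2, hx2, y3, hy3, rfl⟩ := hx3
      obtain ⟨y1, hy1, y2, hy2, rfl⟩ := hx2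
      obtain ⟨d1, hd1, z1, hz1, rfl⟩ := hK1 y1 hy1
      obtain ⟨d2, hd2, z2, hz2, rfl⟩ := hK1 y2 hy2
      obtain ⟨d3, hd3, z3, hz3, rfl⟩ := hK1 y3 hy3
      obtain ⟨d4, hd4, z4, hz4, rfl⟩ := hK1 y4 hy4
      simp only [Set.mem_iUnion, Set.mem_preimage]
      refine ⟨d1 + d2 + d3 + d4, ?_, ?_⟩
      · exact Finset.add_mem_add (Finset.add_mem_add (Finset.add_mem_add hd1 hd2) hd3) hd4
      · refine ⟨z1 + z2 + z3, ⟨z1 + z2, ⟨z1, hz1, z2, hz2, rfl⟩, z3, hz3, rfl⟩, z4, hz4, ?_⟩
        push_cast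
        field_simp
        ring
    have hle : volume E ≤ ∑ s ∈ (D + D + D + D), ENNReal.ofReal (1 / m) * volume E := by
      refine (measure_mono hsub).trans ((measure_biUnion_finset_le _ _).trans ?_)
      refine Finset.sum_le_sum (fun s _ => ?_)
      rw [Real.volume_preimage_mul_left hm0.ne']
      simp_rw [sub_eq_add_neg]
      rw [measure_preimage_add_right]
      rw [abs_of_pos (inv_pos.mpr hm0), one_div]
    rw [Finset.sum_const, nsmul_eq_mul, ← mul_assoc] at hle
    by_contra hne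
    have hlt : ((D + D + D + D).card : ENNReal) * ENNReal.ofReal (1 / m) < 1 := by
      have h1 : ((D + D + D + D).card : ENNReal) = ENNReal.ofReal ((D + D + D + D).card : ℝ) := by
        rw [ENNReal.ofReal_natCast]
      rw [h1, ← ENNReal.ofReal_mul (by positivity), ← ENNReal.ofReal_one]
      rw [ENNReal.ofReal_lt_ofReal_iff (by norm_num)]
      rw [mul_one_div, div_lt_one hm0]
      exact_mod_cast hcard
    have h2 : ((D + D + D + D).card : ENNReal) * ENNReal.ofReal (1 / m) * volume E < 1 * volume E := by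
      exact ENNReal.mul_lt_mul_left hne hEfin.ne hlt
    rw [one_mul] at h2
    exact absurd hle (not_le.mpr h2)


/-- The negation of the preceding statement: For every compact set A of reals whose difference set A−A contains a neighbourhood of 0, the sumset A+A+A+A has non-empty interior. -/
theorem result :
    ¬ (∀ A : Set ℝ, IsCompact A → A - A ∈ nhds (0 : ℝ) →
      (interior (A + A + A + A)).Nonempty) := by
  intro h
  obtain ⟨A, hA1, hA2, hA3⟩ := compact_example
  have := h A hA1 hA2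
  rw [MeasureTheory.Measure.interior_eq_empty_of_null hA3] at this
  exact Set.not_nonempty_empty this

end Pool.Agent.S04278
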