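import Pool.Statements.S04279
import Pool.Agent.Helper983.UNS.PartA
import Pool.Agent.Helper983.UNS.Empty
import Pool.Agent.Helper983.UNS.Renorm

set_option autoImplicit false
open Pool Pool.MP_e45c49_an

namespace Pool.Agent.S04279

/-- Every real Banach space with uniform normal structure (Chebyshev radius at most c·diameter, c<1, for all nontrivial convex subsets of the unit ball) admits an equivalent uniformly convex norm, i.e. is superreflexive. -/
theorem result :
    ∀ (X : Type) [NormedAddCommGroup X] [NormedSpace ℝ X] [CompleteSpace X],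
      (∃ c : ℝ, c < 1 ∧
        ∀ C : Set X, C ⊆ Metric.closedBall (0 : X) 1 → Convex ℝ C → C.Nontrivial →
          sInf ((fun x : X => sSup ((fun y : X => ‖x - y‖) '' C)) '' C)
            ≤ c * Metric.diam C) →
      ∃ N : X → ℝ,
        (∀ x y : X, N (x + y) ≤ N x + N y) ∧
        (∀ (t : ℝ) (x : X), N (t • x) = |t| * N x) ∧
        (∃ a b : ℝ, 0 < a ∧ 0 < b ∧ ∀ x : X, a * ‖x‖ ≤ N x ∧ N x ≤ b * ‖x‖) ∧
        (∀ ε : ℝ, 0 < ε → ∃ δ : ℝ, 0 < δ ∧
          ∀ x y : X, N x ≤ 1 → N y ≤ 1 → ε ≤ N (x - y) → N (x + y) ≤ 2 - δ) := by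
  intro X _ _ _
  rintro ⟨c, hc, hU⟩
  obtain ⟨m, q, hm, hq0, hq, hG⟩ := Helper983.UNS.unsGood hc hU
  obtain ⟨M, rfl⟩ : ∃ M, m = M + 1 := ⟨m - 1, by omega⟩
  have hM : 0 < M := by omega
  have hqM : q < M := by
    rw [Nat.cast_add, Nat.cast_one, add_sub_cancel_right] at hq
    exact hq
  exact Helper983.UNS.renorm fun ε hε => Helper983.UNS.exists_empty hM hq0 hqM hG hε

end Pool.Agent.S04279
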