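import Pool.Statements.S04283
import Pool.Agent.HpBall2.FinA

set_option autoImplicit false
open Pool Pool.MP_e4ec2c_an

namespace Pool.Agent.S04283

/-- For every complex space of dimension n≥2 and every 0<p<1, H^p of the unit ball has a sequence e_k such that every element has unique coefficients a_k whose finite partial sums converge to it unconditionally in the p-integral-mean quasi-metric. -/
theorem result :
    ∀ (E : Type) [NormedAddCommGroup E] [InnerProductSpace ℂ E] [FiniteDimensional ℂ E]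
      [MeasurableSpace E] [BorelSpace E],
      2 ≤ Module.finrank ℂ E → ∀ p : ℝ, 0 < p → p < 1 →
        ∃ e : ℕ → (E → ℂ),
          (∀ k, DifferentiableOn ℂ (e k) (Metric.ball (0 : E) 1) ∧
            (⨆ r ∈ Set.Ico (0 : ℝ) 1,
              ∫⁻ ζ in Metric.sphere (0 : E) 1, ‖e k ((r : ℂ) • ζ)‖ₑ ^ p
                ∂(MeasureTheory.Measure.hausdorffMeasure
                    ((2 * Module.finrank ℂ E - 1 : ℕ) : ℝ) : MeasureTheory.Measure E)) < ⊤) ∧
          ∀ f : E → ℂ, DifferentiableOn ℂ f (Metric.ball (0 : E) 1) →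
            (⨆ r ∈ Set.Ico (0 : ℝ) 1,
              ∫⁻ ζ in Metric.sphere (0 : E) 1, ‖f ((r : ℂ) • ζ)‖ₑ ^ p
                ∂(MeasureTheory.Measure.hausdorffMeasure
                    ((2 * Module.finrank ℂ E - 1 : ℕ) : ℝ) : MeasureTheory.Measure E)) < ⊤ →
            ∃! a : ℕ → ℂ, ∀ ε : ENNReal, 0 < ε → ∃ F : Finset ℕ, ∀ G : Finset ℕ, F ⊆ G →
              (⨆ r ∈ Set.Ico (0 : ℝ) 1,
                ∫⁻ ζ in Metric.sphere (0 : E) 1,
                  ‖f ((r : ℂ) • ζ) - ∑ k ∈ G, a k * e k ((r : ℂ) • ζ)‖ₑ ^ p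
                  ∂(MeasureTheory.Measure.hausdorffMeasure
                    ((2 * Module.finrank ℂ E - 1 : ℕ) : ℝ) : MeasureTheory.Measure E)) < ε := by
  exact Pool.Agent.HpBall2.S04283_of

end Pool.Agent.S04283
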