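import Pool.Statements.S04287

set_option autoImplicit false
open Pool Pool.MP_e53853_an

namespace Pool.Agent.S04287

/-
Idea. We build f(z) = z + G(z)/10 with D = C. G is the limit of solutions F_n of the d-bar
equation with right side phi_n, where phi_0 = 1 and phi_{n+1}(z) = phi_n(z) (1 + h_n(N_n t(z))),
t(z) alternating between Re z and Im z, h_n of mean zero and period one, equal to -1 near the
integers and at most 2^{-n-2}. All functions are absolutely convergent double Fourier series, and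
N_n is chosen large depending on the past. For a fast oscillation in the x (resp. y) direction the
z-derivative S of the solution changes by +phi h (resp. -phi h) up to a small error, hence
Re S_n - phi_n stays bounded below. This gives Re((f z - f w) conj(z - w)) >= |z - w|^2 / 2, so f is
a homeomorphism onto its image, holomorphic off a totally disconnected closed set, and not entire
by the Cauchy-Goursat theorem on the unit square.
-/

open Complex Filter Topology Set

noncomputable section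


/-- periodised quadratic -/
def beta (x : ℝ) : ℝ := (Int.fract x)^2 - Int.fract x + 6⁻¹

/-- exponential with integer frequency -/
def ex (n : ℤ) (t : ℝ) : ℂ := exp (2 * Real.pi * I * n * t)

lemma norm_ex (n : ℤ) (t : ℝ) : ‖ex n t‖ = 1 := by
  unfold ex
  have : (2 * Real.pi * I * n * t : ℂ) = ((2 * Real.pi * n * t : ℝ) : ℂ) * I := by
    push_cast; ring
  rw [this, Complex.norm_exp_ofReal_mul_I]

lemma ex_add (n : ℤ) (s t : ℝ) : ex n (s + t) = ex n s * ex n t := by
  unfold ex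
  rw [← Complex.exp_add]
  congr 1
  push_cast; ring

lemma ex_int (n m : ℤ) : ex n (m : ℝ) = 1 := by
  unfold ex
  rw [Complex.exp_eq_one_iff]
  exact ⟨n * m, by push_cast; ring⟩

lemma hasSum_beta (x : ℝ) :
    HasSum (fun n : ℤ => 1 / (n : ℂ)^2 * ex n x) ((2 * Real.pi^2 * beta x : ℝ) : ℂ) := by
  have h := hasSum_one_div_pow_mul_fourier_mul_bernoulliFun (k := 2) le_rfl
    (x := Int.fract x) ⟨Int.fract_nonneg x, (Int.fract_lt_one x).le⟩
  rw [bernoulliFun_two] at h
  convert! h using 1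
  · funext n
    have h1 : ex n x = ex n (Int.fract x) := by
      conv_lhs => rw [← Int.floor_add_fract x]
      rw [ex_add, ex_int, one_mul]
    rw [h1]
    congr 1
    rw [fourier_coe_apply]
    unfold ex
    congr 1
    push_cast; ring
  · unfold beta
    push_cast
    rw [Nat.factorial_two]
    push_cast
    have : Complex.I^2 = -1 := Complex.I_sq
    ring_nf
    rw [this]
    ring

lemma beta_add_int (x : ℝ) (m : ℤ) : beta (x + m) = beta x := by
  unfold beta
  rw [Int.fract_add_intCast]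

lemma beta_mid {t : ℝ} (h0 : 0 ≤ t) (h1 : t ≤ 1) : beta t = t^2 - t + 6⁻¹ := by
  rcases h1.lt_or_eq with h | h
  · unfold beta
    rw [Int.fract_eq_self.2 ⟨h0, h⟩]
  · subst h
    have : beta 1 = beta 0 := by
      have := beta_add_int 0 1
      simpa using this
    rw [this]
    unfold beta
    simp

lemma beta_neg {t : ℝ} (h0 : -1 ≤ t) (h1 : t ≤ 0) : beta t = t^2 - t + 6⁻¹ + 2 * t := by
  have := beta_add_int t 1
  rw [← this, beta_mid (by push_cast; linarith) (by push_cast; linarith)]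
  push_cast; ring

lemma beta_pos {t : ℝ} (h0 : 1 ≤ t) (h1 : t ≤ 2) : beta t = t^2 - t + 6⁻¹ - 2 * t + 2 := by
  have := beta_add_int t (-1)
  rw [← this, beta_mid (by push_cast; linarith) (by push_cast; linarith)]
  push_cast; ring

/-- the second difference producing a trapezoid -/
def dd (a x : ℝ) : ℝ := beta (x + 2 * a) - beta (x + a) - beta (x - a) + beta (x - 2 * a)

lemma dd_add_int (a x : ℝ) (m : ℤ) : dd a (x + m) = dd a x := by
  unfold dd
  rw [show x + (m:ℝ) + 2 * a = (x + 2 * a) + m by ring, show x + (m:ℝ) + a = (x + a) + m by ring,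
    show x + (m:ℝ) - a = (x - a) + m by ring, show x + (m:ℝ) - 2 * a = (x - 2 * a) + m by ring]
  simp only [beta_add_int]

lemma dd_bounds_aux {a u : ℝ} (ha : 0 < a) (ha' : a ≤ 1/8) (h0 : 0 ≤ u) (h1 : u ≤ 1) :
    6 * a^2 - 2 * a ≤ dd a u ∧ dd a u ≤ 6 * a^2 := by
  unfold dd
  rcases le_total u a with h | h
  · rw [beta_mid (t := u + 2 * a) (by linarith) (by linarith),
      beta_mid (t := u + a) (by linarith) (by linarith),
      beta_neg (t := u - a) (by linarith) (by linarith),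
      beta_neg (t := u - 2 * a) (by linarith) (by linarith)]
    constructor <;> nlinarith
  rcases le_total u (2 * a) with h2 | h2
  · rw [beta_mid (t := u + 2 * a) (by linarith) (by linarith),
      beta_mid (t := u + a) (by linarith) (by linarith),
      beta_mid (t := u - a) (by linarith) (by linarith),
      beta_neg (t := u - 2 * a) (by linarith) (by linarith)]
    constructor <;> nlinarith
  rcases le_total u (1 - 2 * a) with h3 | h3
  · rw [beta_mid (t := u + 2 * a) (by linarith) (by linarith),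
      beta_mid (t := u + a) (by linarith) (by linarith),
      beta_mid (t := u - a) (by linarith) (by linarith),
      beta_mid (t := u - 2 * a) (by linarith) (by linarith)]
    constructor <;> nlinarith
  rcases le_total u (1 - a) with h4 | h4
  · rw [beta_pos (t := u + 2 * a) (by linarith) (by linarith),
      beta_mid (t := u + a) (by linarith) (by linarith),
      beta_mid (t := u - a) (by linarith) (by linarith),
      beta_mid (t := u - 2 * a) (by linarith) (by linarith)]
    constructor <;> nlinarith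
  · rw [beta_pos (t := u + 2 * a) (by linarith) (by linarith),
      beta_pos (t := u + a) (by linarith) (by linarith),
      beta_mid (t := u - a) (by linarith) (by linarith),
      beta_mid (t := u - 2 * a) (by linarith) (by linarith)]
    constructor <;> nlinarith

lemma dd_bounds {a : ℝ} (ha : 0 < a) (ha' : a ≤ 1/8) (x : ℝ) :
    6 * a^2 - 2 * a ≤ dd a x ∧ dd a x ≤ 6 * a^2 := by
  have h := dd_bounds_aux ha ha' (Int.fract_nonneg x) (Int.fract_lt_one x).le
  have h2 : dd a x = dd a (Int.fract x) := by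
    conv_lhs => rw [← Int.fract_add_floor x]
    rw [dd_add_int]
  rw [h2]; exact h

lemma dd_gap {a x : ℝ} (ha : 0 < a) (ha' : a ≤ 1/8) (m : ℤ) (h : |x - m| ≤ a) :
    dd a x = 6 * a^2 - 2 * a := by
  obtain ⟨s, rfl⟩ : ∃ s : ℝ, x = s + m := ⟨x - m, by ring⟩
  rw [show s + (m:ℝ) - m = s by ring, abs_le] at h
  rw [dd_add_int]
  unfold dd
  rw [beta_mid (t := s + 2 * a) (by linarith) (by linarith),
      beta_mid (t := s + a) (by linarith) (by linarith),
      beta_neg (t := s - a) (by linarith) (by linarith),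
      beta_neg (t := s - 2 * a) (by linarith) (by linarith)]
  ring

/-- A gap function: mean zero oscillation `h` with absolutely summable Fourier coefficients. -/
lemma exists_gap {ε : ℝ} (hε : 0 < ε) :
    ∃ (a : ℝ) (h : ℝ → ℝ) (d : ℤ → ℂ), 0 < a ∧ d 0 = 0 ∧ Summable (fun n => ‖d n‖) ∧
      (∀ t, HasSum (fun n => d n * ex n t) ((h t : ℝ) : ℂ)) ∧
      (∀ t, -1 ≤ h t) ∧ (∀ t, h t ≤ ε) ∧ (∀ (t : ℝ) (m : ℤ), |t - m| ≤ a → h t = -1) := by
  obtain ⟨a, ha0, ha1, ha2⟩ : ∃ a : ℝ, 0 < a ∧ a ≤ 1/8 ∧ 6 * a ≤ ε :=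
    ⟨min (1/8) (ε/6), by positivity, min_le_left _ _, by
      have := min_le_right (1/8) (ε/6); linarith⟩
  set κ : ℝ := 1 / (2 * a * (1 - 3 * a)) with hκ
  have h13 : 0 < 1 - 3 * a := by linarith
  have hκ0 : 0 < κ := by positivity
  have hk1 : κ * (6 * a^2 - 2 * a) = -1 := by
    have h13' : (1 - 3 * a) ≠ 0 := h13.ne'
    have ha' : a ≠ 0 := ha0.ne'
    rw [hκ, div_mul_eq_mul_div, one_mul, div_eq_iff (by positivity)]
    ring
  have hk2 : κ * (6 * a^2) ≤ ε := by
    have : κ * (6 * a^2) = 3 * a / (1 - 3 * a) := by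
      rw [hκ, div_mul_eq_mul_div, one_mul, div_eq_div_iff (by positivity) h13.ne']
      ring
    rw [this, div_le_iff₀ h13]
    nlinarith
  refine ⟨a, fun t => κ * dd a t, fun n => (κ / (2 * Real.pi^2) : ℝ) * (1 / (n:ℂ)^2) *
    (ex n (2 * a) - ex n a - ex n (-a) + ex n (-(2 * a))), ha0, by simp, ?_, ?_, ?_, ?_, ?_⟩
  · have hs : Summable (fun n : ℤ => κ / (2 * Real.pi^2) * (1 / (n:ℝ)^2) * 4) :=
      ((Real.summable_one_div_int_pow.2 (by norm_num)).mul_left _).mul_right _
    refine Summable.of_nonneg_of_le (fun n => norm_nonneg _) (fun n => ?_) hs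
    rw [norm_mul, norm_mul]
    have h1 : ‖((κ / (2 * Real.pi^2) : ℝ) : ℂ)‖ = κ / (2 * Real.pi^2) := by
      rw [Complex.norm_real, Real.norm_of_nonneg]; positivity
    have h2 : ‖(1 / (n:ℂ)^2)‖ = 1 / (n:ℝ)^2 := by
      rw [norm_div, norm_one, norm_pow, Complex.norm_intCast, sq_abs]
    have h3 : ‖ex n (2 * a) - ex n a - ex n (-a) + ex n (-(2 * a))‖ ≤ 4 := by
      refine (norm_add_le _ _).trans ?_
      have := norm_sub_le (ex n (2 * a) - ex n a) (ex n (-a))
      have := norm_sub_le (ex n (2 * a)) (ex n a)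
      simp only [norm_ex] at *
      linarith
    rw [h1, h2]
    exact mul_le_mul_of_nonneg_left h3 (by positivity)
  · intro t
    have e1 := hasSum_beta (t + 2 * a)
    have e2 := hasSum_beta (t + a)
    have e3 := hasSum_beta (t - a)
    have e4 := hasSum_beta (t - 2 * a)
    have e := (((e1.sub e2).sub e3).add e4).mul_left (((κ / (2 * Real.pi^2) : ℝ)) : ℂ)
    convert! e using 1
    · funext n
      rw [sub_eq_add_neg t a, sub_eq_add_neg t (2 * a), ex_add, ex_add, ex_add, ex_add]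
      ring
    · unfold dd
      have : (Real.pi : ℂ) ≠ 0 := by exact_mod_cast Real.pi_ne_zero
      push_cast
      field_simp
  · intro t
    have := (dd_bounds ha0 ha1 t).1
    calc (-1 : ℝ) = κ * (6 * a^2 - 2 * a) := hk1.symm
      _ ≤ κ * dd a t := mul_le_mul_of_nonneg_left this hκ0.le
  · intro t
    have := (dd_bounds ha0 ha1 t).2
    exact (mul_le_mul_of_nonneg_left this hκ0.le).trans hk2
  · intro t m h
    show κ * dd a t = -1
    rw [dd_gap ha0 ha1 m h, hk1]


lemma ex_add_freq (n m : ℤ) (t : ℝ) : ex (n + m) t = ex n t * ex m t := by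
  unfold ex
  rw [← Complex.exp_add]
  congr 1
  push_cast; ring

lemma ex_mul_freq (N : ℕ) (l : ℤ) (t : ℝ) : ex (N * l) t = ex l (N * t) := by
  unfold ex
  congr 1
  push_cast; ring

lemma ex_zero (t : ℝ) : ex 0 t = 1 := by simp [ex]

/-- plane exponential with integer frequency vector -/
def ew (w : ℤ × ℤ) (z : ℂ) : ℂ := ex w.1 z.re * ex w.2 z.im

def lam (w : ℤ × ℤ) : ℂ := (w.1 : ℂ) + (w.2 : ℂ) * Complex.I

/-- explicit solution of the d-bar equation with right side `ew w` -/
def Ew (w : ℤ × ℤ) (z : ℂ) : ℂ :=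
  if w = 0 then (starRingEnd ℂ) z else ew w z / (Real.pi * Complex.I * lam w)

/-- the multiplier of the z-derivative of `Ew w` -/
def mw (w : ℤ × ℤ) : ℂ := if w = 0 then 0 else (starRingEnd ℂ) (lam w) / lam w

/-- size function -/
def rho (w : ℤ × ℤ) : ℝ := if w = 0 then 1 else 1 / ‖lam w‖

/-- the real-linear map `v ↦ s v + p conj v` -/
def DD (s p : ℂ) : ℂ →L[ℝ] ℂ :=
  s • (1 : ℂ →L[ℝ] ℂ) + p • (Complex.conjCLE : ℂ →L[ℝ] ℂ)

lemma DD_apply (s p v : ℂ) : DD s p v = s * v + p * (starRingEnd ℂ) v := by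
  simp [DD]

lemma norm_ew (w : ℤ × ℤ) (z : ℂ) : ‖ew w z‖ = 1 := by
  unfold ew; rw [norm_mul, norm_ex, norm_ex, one_mul]

lemma lam_re (w : ℤ × ℤ) : (lam w).re = w.1 := by simp [lam]
lemma lam_im (w : ℤ × ℤ) : (lam w).im = w.2 := by simp [lam]

lemma lam_ne_zero {w : ℤ × ℤ} (hw : w ≠ 0) : lam w ≠ 0 := by
  intro h
  apply hw
  have h1 : (w.1 : ℝ) = 0 := by rw [← lam_re, h]; simp
  have h2 : (w.2 : ℝ) = 0 := by rw [← lam_im, h]; simp
  ext
  · exact_mod_cast h1
  · exact_mod_cast h2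

lemma abs_fst_le (w : ℤ × ℤ) : |(w.1 : ℝ)| ≤ ‖lam w‖ := by
  rw [← lam_re]; exact Complex.abs_re_le_norm _

lemma abs_snd_le (w : ℤ × ℤ) : |(w.2 : ℝ)| ≤ ‖lam w‖ := by
  rw [← lam_im]; exact Complex.abs_im_le_norm _

lemma one_le_norm_lam {w : ℤ × ℤ} (hw : w ≠ 0) : 1 ≤ ‖lam w‖ := by
  by_cases h1 : w.1 = 0
  · have h2 : w.2 ≠ 0 := by
      intro h2; apply hw; ext <;> simp [h1, h2]
    have : (1 : ℝ) ≤ |(w.2 : ℝ)| := by exact_mod_cast Int.one_le_abs h2
    exact this.trans (abs_snd_le w)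
  · have : (1 : ℝ) ≤ |(w.1 : ℝ)| := by exact_mod_cast Int.one_le_abs h1
    exact this.trans (abs_fst_le w)

lemma rho_nonneg (w : ℤ × ℤ) : 0 ≤ rho w := by
  unfold rho; split_ifs <;> positivity

lemma rho_le_one (w : ℤ × ℤ) : rho w ≤ 1 := by
  unfold rho
  split_ifs with h
  · exact le_rfl
  · rw [div_le_one (by linarith [one_le_norm_lam h])]
    exact one_le_norm_lam h

lemma norm_Ew_le (w : ℤ × ℤ) (z : ℂ) : ‖Ew w z‖ ≤ rho w * (1 + ‖z‖) := by
  unfold Ew rho
  split_ifs with h
  · rw [RCLike.norm_conj]; linarith [norm_nonneg z]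
  · have h1 := one_le_norm_lam h
    rw [norm_div, norm_ew, norm_mul, norm_mul, Complex.norm_I, mul_one, Complex.norm_real,
      Real.norm_of_nonneg Real.pi_pos.le]
    have h3 : 1 / (Real.pi * ‖lam w‖) ≤ 1 / ‖lam w‖ := by
      apply one_div_le_one_div_of_le (by linarith)
      nlinarith [Real.pi_gt_three]
    refine h3.trans ?_
    have : 0 ≤ 1 / ‖lam w‖ := by positivity
    nlinarith [norm_nonneg z]

lemma norm_mw_le (w : ℤ × ℤ) : ‖mw w‖ ≤ 1 := by
  unfold mw
  split_ifs with h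
  · simp
  · rw [norm_div, RCLike.norm_conj, div_self]
    exact (norm_pos_iff.2 (lam_ne_zero h)).ne'

lemma ew_hasFDerivAt (w : ℤ × ℤ) (z : ℂ) :
    HasFDerivAt (ew w) ((ew w z * (2 * Real.pi * Complex.I)) •
      ((w.1 : ℂ) • (Complex.ofRealCLM.comp Complex.reCLM) +
        (w.2 : ℂ) • (Complex.ofRealCLM.comp Complex.imCLM))) z := by
  have h1 : ew w = fun z => exp ((2 * Real.pi * Complex.I) *
      ((w.1 : ℂ) * z.re + (w.2 : ℂ) * z.im)) := by
    funext z
    unfold ew ex
    rw [← Complex.exp_add]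
    congr 1
    ring
  have h2 : HasFDerivAt (fun z : ℂ => (2 * Real.pi * Complex.I) *
      ((w.1 : ℂ) * z.re + (w.2 : ℂ) * z.im)) ((2 * Real.pi * Complex.I) •
      ((w.1 : ℂ) • (Complex.ofRealCLM.comp Complex.reCLM) +
        (w.2 : ℂ) • (Complex.ofRealCLM.comp Complex.imCLM))) z := by
    have ha : HasFDerivAt (fun z : ℂ => ((z.re : ℝ) : ℂ)) (Complex.ofRealCLM.comp Complex.reCLM) z :=
      (Complex.ofRealCLM.comp Complex.reCLM).hasFDerivAt
    have hb : HasFDerivAt (fun z : ℂ => ((z.im : ℝ) : ℂ)) (Complex.ofRealCLM.comp Complex.imCLM) z :=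
      (Complex.ofRealCLM.comp Complex.imCLM).hasFDerivAt
    exact ((ha.const_mul _).add (hb.const_mul _)).const_mul _
  have h3 := h2.cexp
  rw [h1]
  convert! h3 using 1
  rw [smul_smul]

lemma Ew_hasFDerivAt (w : ℤ × ℤ) (z : ℂ) :
    HasFDerivAt (Ew w) (DD (mw w * ew w z) (ew w z)) z := by
  by_cases hw : w = 0
  · subst hw
    have h1 : Ew 0 = fun z => (starRingEnd ℂ) z := by funext z; simp [Ew]
    have h2 : ew 0 z = 1 := by simp [ew, ex_zero]
    have h3 : mw 0 = 0 := by simp [mw]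
    rw [h1, h2, h3]
    have := (Complex.conjCLE : ℂ →L[ℝ] ℂ).hasFDerivAt (x := z)
    convert! this using 1
    ext <;> simp [DD]
  · have h1 : Ew w = fun z => (1 / (Real.pi * Complex.I * lam w)) * ew w z := by
      funext z; simp only [Ew, if_neg hw]; ring
    rw [h1]
    have h := (ew_hasFDerivAt w z).const_mul (1 / (Real.pi * Complex.I * lam w))
    convert! h using 1
    have hl := lam_ne_zero hw
    have hpi : (Real.pi : ℂ) ≠ 0 := by exact_mod_cast Real.pi_ne_zero
    ext v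
    rw [DD_apply]
    simp only [_root_.smul_apply, _root_.add_apply,
      ContinuousLinearMap.comp_apply, Complex.reCLM_apply, Complex.imCLM_apply,
      Complex.ofRealCLM_apply, smul_eq_mul]
    have hk : (starRingEnd ℂ) (lam w) * v + lam w * (starRingEnd ℂ) v =
        2 * ((w.1 : ℂ) * v.re + (w.2 : ℂ) * v.im) := by
      apply Complex.ext <;> simp [lam] <;> ring
    have hm : mw w = (starRingEnd ℂ) (lam w) / lam w := by simp [mw, hw]
    rw [hm]
    have : (starRingEnd ℂ) (lam w) / lam w * ew w z * v + ew w z * (starRingEnd ℂ) v =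
        ew w z / lam w * ((starRingEnd ℂ) (lam w) * v + lam w * (starRingEnd ℂ) v) := by
      field_simp
    rw [this, hk]
    field_simp

lemma norm_DD_le (s p : ℂ) : ‖DD s p‖ ≤ ‖s‖ + ‖p‖ := by
  apply ContinuousLinearMap.opNorm_le_bound _ (by positivity)
  intro v
  rw [DD_apply]
  refine (norm_add_le _ _).trans ?_
  rw [norm_mul, norm_mul, RCLike.norm_conj]
  ring_nf
  exact le_rfl

/-- `F` is given by an absolutely convergent series solving `dbar F = φ`, `d F = S`. -/
def Wave (φ F S : ℂ → ℂ) : Prop :=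
  ∃ (ι : Type) (c : ι → ℂ) (w : ι → ℤ × ℤ), Summable (fun i => ‖c i‖) ∧
    (∀ z, HasSum (fun i => c i * ew (w i) z) (φ z)) ∧
    (∀ z, HasSum (fun i => c i * Ew (w i) z) (F z)) ∧
    (∀ z, HasSum (fun i => c i * (mw (w i) * ew (w i) z)) (S z))

lemma Wave.hasFDerivAt {φ F S : ℂ → ℂ} (h : Wave φ F S) (z : ℂ) :
    HasFDerivAt F (DD (S z) (φ z)) z := by
  obtain ⟨ι, c, w, hc, h1, h2, h3⟩ := h
  have hF : F = fun z => ∑' i, c i * Ew (w i) z := by
    funext z; exact (h2 z).tsum_eq.symm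
  have hu : Summable (fun i => ‖c i‖ * 2) := hc.mul_right 2
  have key := hasFDerivAt_tsum (𝕜 := ℝ) (f := fun i z => c i * Ew (w i) z)
    (f' := fun i z => c i • DD (mw (w i) * ew (w i) z) (ew (w i) z)) hu
    (fun i z => (Ew_hasFDerivAt (w i) z).const_mul (c i))
    (fun i z => by
      rw [norm_smul]
      refine mul_le_mul_of_nonneg_left ?_ (norm_nonneg _)
      refine (norm_DD_le _ _).trans ?_
      rw [norm_mul, norm_ew, mul_one]
      linarith [norm_mw_le (w i)])
    (x₀ := 0) (h2 0).summable z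
  rw [hF]
  convert! key using 1
  have e1 := ((h3 z).smul_const (1 : ℂ →L[ℝ] ℂ))
  have e2 := ((h1 z).smul_const (Complex.conjCLE : ℂ →L[ℝ] ℂ))
  have e := (e1.add e2).tsum_eq
  rw [DD, ← e]
  congr 1
  funext i
  simp only [DD, smul_add, smul_smul]

lemma ew_add_one (w : ℤ × ℤ) (z : ℂ) : ew w (z + 1) = ew w z := by
  unfold ew
  have h1 : (z + 1).re = z.re + ((1:ℤ) : ℝ) := by simp
  have h2 : (z + 1).im = z.im := by simp
  rw [h1, h2, ex_add, ex_int, mul_one]

lemma ew_add_I (w : ℤ × ℤ) (z : ℂ) : ew w (z + Complex.I) = ew w z := by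
  unfold ew
  have h1 : (z + Complex.I).re = z.re := by simp
  have h2 : (z + Complex.I).im = z.im + ((1:ℤ) : ℝ) := by simp
  rw [h1, h2, ex_add, ex_int, mul_one]

lemma Wave.shift {φ F S : ℂ → ℂ} (h : Wave φ F S) :
    ∃ c0 : ℂ, ∀ z, F (z + 1) = F z + c0 ∧ F (z + Complex.I) = F z - Complex.I * c0 := by
  obtain ⟨ι, c, w, hc, h1, h2, h3⟩ := h
  have hs : Summable (fun i => c i * (if w i = 0 then 1 else 0)) := by
    refine Summable.of_norm_bounded hc (fun i => ?_)
    split_ifs <;> simp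
  refine ⟨∑' i, c i * (if w i = 0 then 1 else 0), fun z => ⟨?_, ?_⟩⟩
  · have e := (h2 z).add hs.hasSum
    refine (h2 (z + 1)).unique ?_
    convert! e using 1
    funext i
    unfold Ew
    rw [ew_add_one]
    split_ifs <;> simp [mul_add]
  · have e := (h2 z).sub (hs.hasSum.mul_left Complex.I)
    refine (h2 (z + Complex.I)).unique ?_
    convert! e using 1
    funext i
    unfold Ew
    rw [ew_add_I]
    split_ifs <;> simp [mul_add]
    ring


/-- general oscillation step -/
lemma Wave.step {φ F S : ℂ → ℂ} (hW : Wave φ F S) {d : ℤ → ℂ} (hd0 : d 0 = 0)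
    (hd : Summable (fun n => ‖d n‖)) {h : ℝ → ℂ} (hh : ∀ t, HasSum (fun n => d n * ex n t) (h t))
    (sh : ℕ → ℤ → ℤ × ℤ → ℤ × ℤ) (t : ℂ → ℝ) (σ : ℂ)
    (h1 : ∀ N l w z, ew (sh N l w) z = ew w z * ex l (N * t z))
    (h2 : ∀ w l, l ≠ 0 → Tendsto (fun N => rho (sh N l w)) atTop (𝓝 0))
    (h3 : ∀ w l, l ≠ 0 → Tendsto (fun N => mw (sh N l w)) atTop (𝓝 σ))
    {δ : ℝ} (hδ : 0 < δ) :
    ∀ᶠ N : ℕ in atTop, ∃ F' S' : ℂ → ℂ, Wave (fun z => φ z * (1 + h (N * t z))) F' S' ∧
      ∀ z, ‖F' z - F z‖ ≤ δ * (1 + ‖z‖) ∧ ‖S' z - S z - σ * (φ z * h (N * t z))‖ ≤ δ := by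
  obtain ⟨ι, c, w, hc, k1, k2, k3⟩ := hW
  obtain ⟨C, hC⟩ : ∃ C : ι × ℤ → ℂ, ∀ p, C p = c p.1 * d p.2 := ⟨_, fun _ => rfl⟩
  have hCs : Summable (fun p => ‖C p‖) := by
    simp only [hC]; exact hc.mul_norm hd
  -- first remainder
  have lim1 : Tendsto (fun N : ℕ => ∑' p : ι × ℤ, ‖C p‖ * rho (sh N p.2 (w p.1))) atTop (𝓝 0) := by
    have := tendsto_tsum_of_dominated_convergence (𝓕 := atTop)
      (f := fun (N : ℕ) (p : ι × ℤ) => ‖C p‖ * rho (sh N p.2 (w p.1))) (g := fun _ => (0:ℝ)) hCs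
      (fun p => by
        by_cases hp : p.2 = 0
        · have : C p = 0 := by simp [hC, hp, hd0]
          simp [this]
        · have := (h2 (w p.1) p.2 hp).const_mul ‖C p‖
          simpa using this)
      (Eventually.of_forall fun N p => by
        rw [norm_mul, norm_norm, Real.norm_of_nonneg (rho_nonneg _)]
        exact mul_le_of_le_one_right (norm_nonneg _) (rho_le_one _))
    simpa using this
  have lim2 : Tendsto (fun N : ℕ => ∑' p : ι × ℤ, ‖C p‖ * ‖mw (sh N p.2 (w p.1)) - σ‖) atTop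
      (𝓝 0) := by
    have := tendsto_tsum_of_dominated_convergence (𝓕 := atTop)
      (f := fun (N : ℕ) (p : ι × ℤ) => ‖C p‖ * ‖mw (sh N p.2 (w p.1)) - σ‖) (g := fun _ => (0:ℝ))
      (hCs.mul_right (1 + ‖σ‖))
      (fun p => by
        by_cases hp : p.2 = 0
        · have : C p = 0 := by simp [hC, hp, hd0]
          simp [this]
        · have h4 := ((h3 (w p.1) p.2 hp).sub_const σ).norm
          rw [sub_self, norm_zero] at h4
          have := h4.const_mul ‖C p‖
          simpa using this)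
      (Eventually.of_forall fun N p => by
        rw [norm_mul, norm_norm, norm_norm]
        refine mul_le_mul_of_nonneg_left ?_ (norm_nonneg _)
        exact (norm_sub_le _ _).trans (by linarith [norm_mw_le (sh N p.2 (w p.1))]))
    simpa using this
  filter_upwards [lim1.eventually_le_const hδ, lim2.eventually_le_const hδ] with N hN1 hN2
  have sG : ∀ z, Summable (fun p : ι × ℤ => C p * Ew (sh N p.2 (w p.1)) z) := fun z => by
    refine Summable.of_norm_bounded (hCs.mul_right (1 + ‖z‖)) (fun p => ?_)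
    rw [norm_mul]
    refine mul_le_mul_of_nonneg_left ?_ (norm_nonneg _)
    refine (norm_Ew_le _ _).trans ?_
    exact mul_le_of_le_one_left (by positivity) (rho_le_one _)
  have sT : ∀ z, Summable (fun p : ι × ℤ => C p * (mw (sh N p.2 (w p.1)) *
      ew (sh N p.2 (w p.1)) z)) := fun z => by
    refine Summable.of_norm_bounded hCs (fun p => ?_)
    rw [norm_mul, norm_mul, norm_ew, mul_one]
    exact mul_le_of_le_one_right (norm_nonneg _) (norm_mw_le _)
  have sP : ∀ z, HasSum (fun p : ι × ℤ => C p * ew (sh N p.2 (w p.1)) z)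
      (φ z * h (N * t z)) := fun z => by
    have hs : Summable (fun p : ι × ℤ => (c p.1 * ew (w p.1) z) * (d p.2 * ex p.2 (N * t z))) := by
      refine Summable.of_norm_bounded hCs (fun p => ?_)
      rw [norm_mul, norm_mul, norm_mul, norm_ew, norm_ex, mul_one, mul_one, ← norm_mul, hC]
    have := (k1 z).mul (hh (N * t z)) hs
    convert! this using 1
    funext p
    rw [h1, hC]
    ring
  refine ⟨fun z => F z + ∑' p : ι × ℤ, C p * Ew (sh N p.2 (w p.1)) z,
    fun z => S z + ∑' p : ι × ℤ, C p * (mw (sh N p.2 (w p.1)) * ew (sh N p.2 (w p.1)) z),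
    ⟨ι ⊕ (ι × ℤ), Sum.elim c C, Sum.elim w (fun p => sh N p.2 (w p.1)), ?_, ?_, ?_, ?_⟩, ?_⟩
  · apply Summable.sum
    · simpa [Function.comp_def] using hc
    · simpa [Function.comp_def] using hCs
  · intro z
    show HasSum _ (φ z * (1 + h (↑N * t z)))
    rw [mul_add, mul_one]
    apply HasSum.sum
    · simpa [Function.comp_def] using k1 z
    · simpa [Function.comp_def] using sP z
  · intro z
    apply HasSum.sum
    · simpa [Function.comp_def] using k2 z
    · simpa [Function.comp_def] using (sG z).hasSum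
  · intro z
    apply HasSum.sum
    · simpa [Function.comp_def] using k3 z
    · simpa [Function.comp_def] using (sT z).hasSum
  · intro z
    constructor
    · rw [add_sub_cancel_left]
      have sR : Summable (fun p : ι × ℤ => ‖C p‖ * rho (sh N p.2 (w p.1)) * (1 + ‖z‖)) := by
        apply Summable.mul_right
        refine Summable.of_nonneg_of_le (fun p => mul_nonneg (norm_nonneg _) (rho_nonneg _))
          (fun p => ?_) hCs
        exact mul_le_of_le_one_right (norm_nonneg _) (rho_le_one _)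
      refine (tsum_of_norm_bounded sR.hasSum (fun p => ?_)).trans ?_
      · rw [norm_mul, mul_assoc]
        exact mul_le_mul_of_nonneg_left (norm_Ew_le _ _) (norm_nonneg _)
      · rw [tsum_mul_right]
        exact mul_le_mul_of_nonneg_right hN1 (by positivity)
    · rw [add_sub_cancel_left, ← (sP z).tsum_eq, ← tsum_mul_left, ← (sT z).tsum_sub
        ((sP z).summable.mul_left σ)]
      have sR : Summable (fun p : ι × ℤ => ‖C p‖ * ‖mw (sh N p.2 (w p.1)) - σ‖) := by
        refine Summable.of_nonneg_of_le (fun p => mul_nonneg (norm_nonneg _) (norm_nonneg _))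
          (fun p => ?_) (hCs.mul_right (1 + ‖σ‖))
        refine mul_le_mul_of_nonneg_left ?_ (norm_nonneg _)
        exact (norm_sub_le _ _).trans (by linarith [norm_mw_le (sh N p.2 (w p.1))])
      refine (tsum_of_norm_bounded sR.hasSum (fun p => ?_)).trans hN2
      have : C p * (mw (sh N p.2 (w p.1)) * ew (sh N p.2 (w p.1)) z) -
          σ * (C p * ew (sh N p.2 (w p.1)) z) =
          C p * ((mw (sh N p.2 (w p.1)) - σ) * ew (sh N p.2 (w p.1)) z) := by ring
      rw [this, norm_mul, norm_mul, norm_ew, mul_one]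

/-- shift in the first frequency -/
def shx (N : ℕ) (l : ℤ) (w : ℤ × ℤ) : ℤ × ℤ := (w.1 + N * l, w.2)
/-- shift in the second frequency -/
def shy (N : ℕ) (l : ℤ) (w : ℤ × ℤ) : ℤ × ℤ := (w.1, w.2 + N * l)

lemma tendsto_abs_shift (a l : ℤ) (hl : l ≠ 0) :
    Tendsto (fun N : ℕ => |((a + N * l : ℤ) : ℝ)|) atTop atTop := by
  have h1 : ∀ N : ℕ, (N : ℝ) - |(a : ℝ)| ≤ |((a + N * l : ℤ) : ℝ)| := by
    intro N
    have h2 : (1 : ℝ) ≤ |(l : ℝ)| := by exact_mod_cast Int.one_le_abs hl
    have h3 : (N : ℝ) ≤ |(N : ℝ) * l| := by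
      rw [abs_mul, Nat.abs_cast]
      exact le_mul_of_one_le_right (by positivity) h2
    have h4 : |(N : ℝ) * l| ≤ |((a + N * l : ℤ) : ℝ)| + |(a : ℝ)| := by
      have : (N : ℝ) * l = ((a + N * l : ℤ) : ℝ) + (-(a : ℝ)) := by push_cast; ring
      rw [this]
      refine (abs_add_le _ _).trans ?_
      rw [abs_neg]
    linarith
  refine tendsto_atTop_mono h1 ?_
  exact tendsto_atTop_add_const_right _ _ tendsto_natCast_atTop_atTop

lemma tendsto_rho_aux {f : ℕ → ℤ × ℤ} {g : ℕ → ℝ} (hg : Tendsto g atTop atTop)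
    (hgl : ∀ N, g N ≤ ‖lam (f N)‖) : Tendsto (fun N => rho (f N)) atTop (𝓝 0) := by
  have h1 : Tendsto (fun N => 1 / ‖lam (f N)‖) atTop (𝓝 0) := by
    have := (tendsto_atTop_mono hgl hg).inv_tendsto_atTop
    simp only [one_div]
    exact this
  refine h1.congr' ?_
  filter_upwards [hg.eventually_gt_atTop 0] with N hN
  unfold rho
  rw [if_neg]
  intro h
  have := hgl N
  rw [h] at this
  simp [lam] at this
  linarith

lemma ew_shx (N : ℕ) (l : ℤ) (w : ℤ × ℤ) (z : ℂ) :
    ew (shx N l w) z = ew w z * ex l (N * z.re) := by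
  unfold ew shx
  simp only
  rw [ex_add_freq, ex_mul_freq]
  ring

lemma ew_shy (N : ℕ) (l : ℤ) (w : ℤ × ℤ) (z : ℂ) :
    ew (shy N l w) z = ew w z * ex l (N * z.im) := by
  unfold ew shy
  simp only
  rw [ex_add_freq, ex_mul_freq]
  ring

lemma rho_shx (w : ℤ × ℤ) (l : ℤ) (hl : l ≠ 0) :
    Tendsto (fun N => rho (shx N l w)) atTop (𝓝 0) :=
  tendsto_rho_aux (tendsto_abs_shift w.1 l hl) (fun N => abs_fst_le (shx N l w))

lemma rho_shy (w : ℤ × ℤ) (l : ℤ) (hl : l ≠ 0) :
    Tendsto (fun N => rho (shy N l w)) atTop (𝓝 0) :=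
  tendsto_rho_aux (tendsto_abs_shift w.2 l hl) (fun N => abs_snd_le (shy N l w))

lemma mw_shx (w : ℤ × ℤ) (l : ℤ) (hl : l ≠ 0) :
    Tendsto (fun N => mw (shx N l w)) atTop (𝓝 1) := by
  rw [tendsto_iff_norm_sub_tendsto_zero]
  have hg := tendsto_abs_shift w.1 l hl
  have h1 : Tendsto (fun N : ℕ => 2 * |(w.2 : ℝ)| * (|((w.1 + N * l : ℤ) : ℝ)|)⁻¹) atTop (𝓝 0) := by
    have := hg.inv_tendsto_atTop.const_mul (2 * |(w.2 : ℝ)|)
    simpa using this
  refine squeeze_zero' (Eventually.of_forall fun N => norm_nonneg _) ?_ h1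
  filter_upwards [hg.eventually_gt_atTop 0] with N hN
  have hne : shx N l w ≠ 0 := by
    intro h
    have : w.1 + N * l = 0 := congrArg Prod.fst h
    rw [this] at hN
    simp at hN
  have hl := lam_ne_zero hne
  have h2 : mw (shx N l w) - 1 = (-(2 * (w.2 : ℂ) * Complex.I)) / lam (shx N l w) := by
    unfold mw
    rw [if_neg hne, div_sub_one hl]
    congr 1
    apply Complex.ext <;> simp [lam, shx] <;> ring
  rw [h2, norm_div]
  have h3 : ‖-(2 * (w.2 : ℂ) * Complex.I)‖ = 2 * |(w.2 : ℝ)| := by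
    rw [norm_neg, norm_mul, norm_mul, Complex.norm_I, Complex.norm_intCast]; simp
  rw [h3, div_eq_mul_inv]
  refine mul_le_mul_of_nonneg_left ?_ (by positivity)
  exact inv_anti₀ hN (abs_fst_le (shx N l w))

lemma mw_shy (w : ℤ × ℤ) (l : ℤ) (hl : l ≠ 0) :
    Tendsto (fun N => mw (shy N l w)) atTop (𝓝 (-1)) := by
  rw [tendsto_iff_norm_sub_tendsto_zero]
  have hg := tendsto_abs_shift w.2 l hl
  have h1 : Tendsto (fun N : ℕ => 2 * |(w.1 : ℝ)| * (|((w.2 + N * l : ℤ) : ℝ)|)⁻¹) atTop (𝓝 0) := by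
    have := hg.inv_tendsto_atTop.const_mul (2 * |(w.1 : ℝ)|)
    simpa using this
  refine squeeze_zero' (Eventually.of_forall fun N => norm_nonneg _) ?_ h1
  filter_upwards [hg.eventually_gt_atTop 0] with N hN
  have hne : shy N l w ≠ 0 := by
    intro h
    have : w.2 + N * l = 0 := congrArg Prod.snd h
    rw [this] at hN
    simp at hN
  have hl := lam_ne_zero hne
  have h2 : mw (shy N l w) - (-1) = (2 * (w.1 : ℂ)) / lam (shy N l w) := by
    unfold mw
    rw [if_neg hne, sub_neg_eq_add, div_add_one hl]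
    congr 1
    apply Complex.ext <;> simp [lam, shy] <;> ring
  rw [h2, norm_div]
  have h3 : ‖(2 * (w.1 : ℂ))‖ = 2 * |(w.1 : ℝ)| := by
    rw [norm_mul, Complex.norm_intCast]; simp
  rw [h3, div_eq_mul_inv]
  refine mul_le_mul_of_nonneg_left ?_ (by positivity)
  exact inv_anti₀ hN (abs_snd_le (shy N l w))


/-- a stage of the construction -/
structure St where
  φ : ℂ → ℝ
  F : ℂ → ℂ
  S : ℂ → ℂ
  K : Set ℂ

def Inv (n : ℕ) (s : St) : Prop :=
  Wave (fun z => (s.φ z : ℂ)) s.F s.S ∧ (∀ z, 0 ≤ s.φ z) ∧ (∀ z, s.φ z ≤ 2 - (1/2 : ℝ)^n) ∧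
    IsClosed s.K ∧ (∀ z, z ∉ s.K → s.φ z = 0) ∧
    (∀ z, -(5 - 4 * (1/2 : ℝ)^n) ≤ (s.S z).re - s.φ z)

def Rel (n : ℕ) (s s' : St) : Prop :=
  s'.K ⊆ s.K ∧ (∀ z, ‖s'.F z - s.F z‖ ≤ (1/100) * (1/2 : ℝ)^n * (1 + ‖z‖)) ∧
  (∃ N : ℕ, n < N ∧ (Even n → ∀ z ∈ s'.K, ∀ m : ℤ, (N : ℝ) * z.re ≠ m) ∧
    (¬ Even n → ∀ z ∈ s'.K, ∀ m : ℤ, (N : ℝ) * z.im ≠ m))

def st0 : St where
  φ := fun _ => 1
  F := fun z => (starRingEnd ℂ) z
  S := fun _ => 0
  K := univ

lemma inv0 : Inv 0 st0 := by
  refine ⟨⟨Unit, fun _ => 1, fun _ => 0, ?_, ?_, ?_, ?_⟩, ?_, ?_, ?_, ?_, ?_⟩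
  · exact (hasSum_fintype _).summable
  · intro z
    have := hasSum_fintype (fun _ : Unit => (1 : ℂ) * ew 0 z)
    simpa [ew, ex_zero, st0] using this
  · intro z
    have := hasSum_fintype (fun _ : Unit => (1 : ℂ) * Ew 0 z)
    simpa [Ew, st0] using this
  · intro z
    have := hasSum_fintype (fun _ : Unit => (1 : ℂ) * (mw 0 * ew 0 z))
    simpa [mw, st0] using this
  · intro z; simp [st0]
  · intro z; simp [st0]; norm_num
  · exact isClosed_univ
  · intro z hz; exact absurd (mem_univ z) hz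
  · intro z; simp [st0]; norm_num

lemma step_gen (n : ℕ) (s : St) (hs : Inv n s) (t : ℂ → ℝ) (ht : Continuous t)
    (sh : ℕ → ℤ → ℤ × ℤ → ℤ × ℤ) (σ : ℝ) (hσ : σ = 1 ∨ σ = -1)
    (h1 : ∀ N l w z, ew (sh N l w) z = ew w z * ex l (N * t z))
    (h2 : ∀ w l, l ≠ 0 → Tendsto (fun N => rho (sh N l w)) atTop (𝓝 0))
    (h3 : ∀ w l, l ≠ 0 → Tendsto (fun N => mw (sh N l w)) atTop (𝓝 (σ : ℂ))) :
    ∃ s' : St, Inv (n+1) s' ∧ s'.K ⊆ s.K ∧
      (∀ z, ‖s'.F z - s.F z‖ ≤ (1/100) * (1/2 : ℝ)^n * (1 + ‖z‖)) ∧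
      ∃ N : ℕ, n < N ∧ ∀ z ∈ s'.K, ∀ m : ℤ, (N : ℝ) * t z ≠ m := by
  obtain ⟨hw, hφ0, hφ1, hK, hφK, hB⟩ := hs
  obtain ⟨q, hq⟩ : ∃ q : ℝ, q = (1/2 : ℝ)^n := ⟨_, rfl⟩
  have hq0 : 0 < q := by rw [hq]; positivity
  have hq1 : q ≤ 1 := by rw [hq]; exact pow_le_one₀ (by norm_num) (by norm_num)
  have hqs : (1/2 : ℝ)^(n+1) = q / 2 := by rw [pow_succ, ← hq]; ring
  rw [← hq] at hφ1 hB ⊢
  obtain ⟨a, h, d, ha, hd0, hd, hh, hhm, hhe, hgap⟩ := exists_gap (ε := q / 4) (by positivity)
  have key := hw.step hd0 hd hh sh t (σ : ℂ) h1 h2 h3 (δ := 1/100 * q) (by positivity)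
  obtain ⟨N, hN, F', S', hW', hFS⟩ := ((eventually_gt_atTop n).and key).exists
  refine ⟨⟨fun z => s.φ z * (1 + h (N * t z)), F', S',
    s.K ∩ {z | ∀ m : ℤ, a ≤ |(N : ℝ) * t z - m|}⟩, ⟨?_, ?_, ?_, ?_, ?_, ?_⟩, ?_, ?_, N, hN, ?_⟩
  · simpa using hW'
  · intro z
    exact mul_nonneg (hφ0 z) (by linarith [hhm (N * t z)])
  · intro z
    show s.φ z * (1 + h (N * t z)) ≤ 2 - (1/2 : ℝ)^(n+1)
    rw [hqs]
    have e1 : s.φ z * (1 + h (N * t z)) ≤ (2 - q) * (1 + q / 4) :=
      mul_le_mul (hφ1 z) (by linarith [hhe (N * t z)]) (by linarith [hhm (N * t z)]) (by linarith)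
    nlinarith
  · apply hK.inter
    rw [Set.ofPred_forall]
    apply isClosed_iInter
    intro m
    exact isClosed_le continuous_const (by fun_prop)
  · intro z hz
    show s.φ z * (1 + h (N * t z)) = 0
    by_cases hz1 : z ∈ s.K
    · have : ∃ m : ℤ, |(N : ℝ) * t z - m| < a := by
        by_contra hcon
        push Not at hcon
        exact hz ⟨hz1, hcon⟩
      obtain ⟨m, hm⟩ := this
      rw [hgap _ m hm.le]; ring
    · rw [hφK z hz1, zero_mul]
  · intro z
    show -(5 - 4 * (1/2 : ℝ)^(n+1)) ≤ (S' z).re - s.φ z * (1 + h (N * t z))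
    rw [hqs]
    have e1 := (hFS z).2
    have e2 : |(S' z - s.S z - σ * (s.φ z * h (N * t z))).re| ≤ 1 / 100 * q :=
      (Complex.abs_re_le_norm _).trans e1
    have e3 : (S' z - s.S z - σ * (s.φ z * h (N * t z))).re =
        (S' z).re - (s.S z).re - σ * (s.φ z * h (N * t z)) := by
      simp [Complex.sub_re, Complex.mul_re]
    rw [e3, abs_le] at e2
    have e4 := hB z
    have e5 : s.φ z * h (N * t z) ≤ 2 * (q / 4) := by
      have i1 : s.φ z * h (N * t z) ≤ s.φ z * (q / 4) :=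
        mul_le_mul_of_nonneg_left (hhe _) (hφ0 z)
      have i2 : s.φ z * (q / 4) ≤ 2 * (q / 4) :=
        mul_le_mul_of_nonneg_right (by linarith [hφ1 z]) (by positivity)
      linarith
    rcases hσ with rfl | rfl
    · nlinarith
    · nlinarith
  · exact inter_subset_left
  · intro z
    exact (hFS z).1
  · intro z hz m hm
    have := hz.2 m
    rw [hm, sub_self, abs_zero] at this
    linarith

lemma step_rel (n : ℕ) (s : St) (hs : Inv n s) : ∃ s' : St, Inv (n+1) s' ∧ Rel n s s' := by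
  by_cases hn : Even n
  · obtain ⟨s', h1, h2, h3, N, hN, h4⟩ := step_gen n s hs Complex.re Complex.continuous_re shx 1
      (Or.inl rfl) ew_shx rho_shx (by simpa using mw_shx)
    exact ⟨s', h1, h2, h3, N, hN, fun _ => h4, fun h => absurd hn h⟩
  · obtain ⟨s', h1, h2, h3, N, hN, h4⟩ := step_gen n s hs Complex.im Complex.continuous_im shy (-1)
      (Or.inr rfl) ew_shy rho_shy (by simpa using mw_shy)
    exact ⟨s', h1, h2, h3, N, hN, fun h => absurd h hn, fun _ => h4⟩

/-- the sequence of stages -/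
lemma exists_seq : ∃ s : ℕ → St, s 0 = st0 ∧ (∀ n, Inv n (s n)) ∧ ∀ n, Rel n (s n) (s (n+1)) := by
  choose g hg1 hg2 using step_rel
  let T : (n : ℕ) → {s : St // Inv n s} := fun n =>
    Nat.rec ⟨st0, inv0⟩ (fun n s => ⟨g n s.1 s.2, hg1 n s.1 s.2⟩) n
  refine ⟨fun n => (T n).1, rfl, fun n => (T n).2, fun n => ?_⟩
  exact hg2 n (T n).1 (T n).2


lemma mono_stage {n : ℕ} {s : St} (hs : Inv n s) (z w : ℂ) :
    -5 * ‖z - w‖^2 ≤ ((s.F z - s.F w) * (starRingEnd ℂ) (z - w)).re := by
  obtain ⟨hW, hφ0, hφ1, hK, hφK, hB⟩ := hs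
  obtain ⟨v, hv⟩ : ∃ v : ℂ, v = z - w := ⟨_, rfl⟩
  rw [← hv]
  have hd : ∀ τ : ℝ, HasDerivAt (fun τ : ℝ => (s.F (w + τ * v) * (starRingEnd ℂ) v).re)
      ((DD (s.S (w + τ * v)) (s.φ (w + τ * v)) v * (starRingEnd ℂ) v).re) τ := by
    intro τ
    have h1 : HasDerivAt (fun τ : ℝ => w + (τ : ℂ) * v) v τ := by
      have := ((hasDerivAt_id τ).ofReal_comp.mul_const v).const_add w
      simpa using this
    have h2 := (hW.hasFDerivAt (w + τ * v)).comp_hasDerivAt τ h1
    have h3 := h2.mul_const ((starRingEnd ℂ) v)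
    exact (Complex.reCLM.hasFDerivAt.comp_hasDerivAt τ h3)
  have hder : ∀ τ : ℝ, -5 * ‖v‖^2 ≤ deriv (fun τ : ℝ => (s.F (w + τ * v) *
      (starRingEnd ℂ) v).re) τ := by
    intro τ
    rw [(hd τ).deriv, DD_apply]
    have e1 : ((s.S (w + τ * v) * v + (s.φ (w + τ * v) : ℂ) * (starRingEnd ℂ) v) *
        (starRingEnd ℂ) v).re = (s.S (w + τ * v)).re * (v.re^2 + v.im^2) +
        s.φ (w + τ * v) * (v.re^2 - v.im^2) := by
      simp only [Complex.mul_re, Complex.add_re, Complex.mul_im, Complex.add_im,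
        Complex.conj_re, Complex.conj_im, Complex.ofReal_re, Complex.ofReal_im]
      ring
    rw [e1]
    have e2 : ‖v‖^2 = v.re^2 + v.im^2 := by
      rw [← Complex.normSq_eq_norm_sq, Complex.normSq_apply]; ring
    rw [e2]
    have e3 := hB (w + τ * v)
    have e4 := hφ0 (w + τ * v)
    have e5 : (0:ℝ) < (1/2 : ℝ)^n := by positivity
    nlinarith [sq_nonneg v.re, sq_nonneg v.im, mul_nonneg e4 (sq_nonneg v.re),
      mul_nonneg e4 (sq_nonneg v.im),
      mul_nonneg (sub_nonneg.2 (show (-5 : ℝ) ≤ (s.S (w + τ * v)).re - s.φ (w + τ * v) by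
        linarith)) (add_nonneg (sq_nonneg v.re) (sq_nonneg v.im))]
  have := mul_sub_le_image_sub_of_le_deriv (fun τ => (hd τ).differentiableAt) hder
    (zero_le_one' ℝ)
  have h0 : w + ((0:ℝ):ℂ) * v = w := by simp
  have h1 : w + ((1:ℝ):ℂ) * v = z := by rw [hv]; simp
  rw [h0, h1] at this
  rw [sub_mul, Complex.sub_re]
  linarith

theorem main :
    ∃ (P : Set ℂ) (f : ℂ → ℂ),
      P.Nonempty ∧ Perfect P ∧ IsTotallyDisconnected P ∧ Continuous f ∧
      (∀ p, AnalyticAt ℂ f p ↔ p ∉ P) ∧ IsEmbedding f := by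
  obtain ⟨s, hs0, hI, hR⟩ := exists_seq
  have hstep : ∀ z n, dist ((s n).F z) ((s (n+1)).F z) ≤ (1/100 * (1 + ‖z‖)) * (1/2 : ℝ)^n := by
    intro z n
    rw [dist_comm, dist_eq_norm]
    refine ((hR n).2.1 z).trans (le_of_eq ?_)
    ring
  have hcau : ∀ z, ∃ g : ℂ, Tendsto (fun n => (s n).F z) atTop (𝓝 g) := fun z =>
    cauchySeq_tendsto_of_complete
      (cauchySeq_of_le_geometric (1/2) (1/100 * (1 + ‖z‖)) (by norm_num) (hstep z))
  choose G hG using hcau
  have hdist : ∀ z n, ‖(s n).F z - G z‖ ≤ (1/50) * (1 + ‖z‖) * (1/2 : ℝ)^n := by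
    intro z n
    have := dist_le_of_le_geometric_of_tendsto (1/2) (1/100 * (1 + ‖z‖)) (by norm_num) (hstep z)
      (hG z) n
    rw [dist_eq_norm] at this
    refine this.trans (le_of_eq ?_)
    ring
  have hTLU : TendstoLocallyUniformly (fun n => (s n).F) G atTop := by
    rw [Metric.tendstoLocallyUniformly_iff]
    intro ε hε x
    refine ⟨Metric.ball x 1, Metric.ball_mem_nhds x one_pos, ?_⟩
    have hlim : Tendsto (fun n : ℕ => (1/50) * (2 + ‖x‖) * (1/2 : ℝ)^n) atTop (𝓝 0) := by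
      have := (tendsto_pow_atTop_nhds_zero_of_lt_one (r := (1/2 : ℝ)) (by norm_num)
        (by norm_num)).const_mul ((1/50) * (2 + ‖x‖))
      simpa using this
    filter_upwards [hlim.eventually_lt_const hε] with n hn y hy
    rw [dist_comm, dist_eq_norm]
    refine (hdist y n).trans_lt (lt_of_le_of_lt ?_ hn)
    have hy' : ‖y‖ ≤ ‖x‖ + 1 := by
      have h1 : ‖y - x‖ < 1 := by rwa [← dist_eq_norm]
      have h2 := norm_sub_norm_le y x
      linarith
    have : (0:ℝ) < (1/2 : ℝ)^n := by positivity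
    apply mul_le_mul_of_nonneg_right _ this.le
    linarith
  have hcontn : ∀ n, Continuous (s n).F := fun n =>
    continuous_iff_continuousAt.2 fun z => ((hI n).1.hasFDerivAt z).continuousAt
  have hGc : Continuous G := hTLU.continuous (Frequently.of_forall hcontn)
  -- monotonicity in the limit
  have hmono : ∀ z w, -5 * ‖z - w‖^2 ≤ ((G z - G w) * (starRingEnd ℂ) (z - w)).re := by
    intro z w
    refine ge_of_tendsto' (((Complex.continuous_re.tendsto _).comp
      (((hG z).sub (hG w)).mul_const _))) (fun n => mono_stage (hI n) z w)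
  obtain ⟨f, hf⟩ : ∃ f : ℂ → ℂ, ∀ z, f z = z + (1/10) * G z := ⟨_, fun _ => rfl⟩
  have hf' : f = fun z => z + (1/10) * G z := funext hf
  have hfc : Continuous f := by rw [hf']; fun_prop
  have hanti : AntilipschitzWith 2 f := by
    apply AntilipschitzWith.of_le_mul_dist
    intro z w
    rw [dist_eq_norm, dist_eq_norm]
    have e1 : ((f z - f w) * (starRingEnd ℂ) (z - w)).re =
        ‖z - w‖^2 + 1/10 * ((G z - G w) * (starRingEnd ℂ) (z - w)).re := by
      rw [hf, hf]
      have : (z + 1/10 * G z - (w + 1/10 * G w)) * (starRingEnd ℂ) (z - w) =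
          (z - w) * (starRingEnd ℂ) (z - w) +
          ((1/10 : ℝ) : ℂ) * ((G z - G w) * (starRingEnd ℂ) (z - w)) := by
        push_cast; ring
      rw [this, Complex.mul_conj, Complex.add_re, Complex.ofReal_re, Complex.re_ofReal_mul,
        Complex.normSq_eq_norm_sq]
    have e2 : ((f z - f w) * (starRingEnd ℂ) (z - w)).re ≤ ‖f z - f w‖ * ‖z - w‖ := by
      refine (Complex.re_le_norm _).trans ?_
      rw [norm_mul, RCLike.norm_conj]
    have e3 := hmono z w
    have e4 : (1/2) * ‖z - w‖^2 ≤ ‖f z - f w‖ * ‖z - w‖ := by linarith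
    push_cast
    rcases (norm_nonneg (z - w)).eq_or_lt with h0 | h0
    · rw [← h0]; positivity
    · nlinarith
  have hemb : IsEmbedding f := hanti.isEmbedding hfc
  -- holomorphy off every K
  have hKanti : ∀ m n, m ≤ n → (s n).K ⊆ (s m).K := by
    intro m n hmn
    induction hmn with
    | refl => exact subset_rfl
    | step _ ih => exact ((hR _).1).trans ih
  have hhol : ∀ m z, z ∉ (s m).K → AnalyticAt ℂ f z := by
    intro m z hz
    have hU : IsOpen ((s m).K)ᶜ := (hI m).2.2.2.1.isOpen_compl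
    have hdn : ∀ n, m ≤ n → DifferentiableOn ℂ (s n).F ((s m).K)ᶜ := by
      intro n hmn y hy
      have hy2 : y ∉ (s n).K := fun h => hy (hKanti m n hmn h)
      have h1 := (hI n).1.hasFDerivAt y
      rw [(hI n).2.2.2.2.1 y hy2] at h1
      have h2 : HasFDerivAt (𝕜 := ℂ) (s n).F ((s n).S y • (1 : ℂ →L[ℂ] ℂ)) y := by
        apply hasFDerivAt_of_restrictScalars ℝ h1
        ext <;> simp [DD]
      exact h2.differentiableAt.differentiableWithinAt
    have hG' : DifferentiableOn ℂ G ((s m).K)ᶜ :=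
      (hTLU.tendstoLocallyUniformlyOn).differentiableOn
        (eventually_atTop.2 ⟨m, fun n hn => hdn n hn⟩) hU
    have hfd : DifferentiableOn ℂ f ((s m).K)ᶜ := by
      rw [hf']
      exact differentiableOn_id.add (hG'.const_mul _)
    exact hfd.analyticAt (hU.mem_nhds hz)
  -- periodicity relation
  have hshift : ∀ z, G (z + 1) = G z + (G 1 - G 0) ∧
      G (z + Complex.I) = G z - Complex.I * (G 1 - G 0) := by
    have hn : ∀ n z, (s n).F (z + 1) = (s n).F z + ((s n).F 1 - (s n).F 0) ∧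
        (s n).F (z + Complex.I) = (s n).F z - Complex.I * ((s n).F 1 - (s n).F 0) := by
      intro n z
      obtain ⟨c0, hc0⟩ := (hI n).1.shift
      have : (s n).F 1 - (s n).F 0 = c0 := by
        have := (hc0 0).1
        rw [zero_add] at this
        rw [this]; ring
      rw [this]
      exact hc0 z
    intro z
    constructor
    · refine tendsto_nhds_unique (hG (z + 1)) ?_
      refine ((hG z).add ((hG 1).sub (hG 0))).congr (fun n => ?_)
      exact ((hn n z).1).symm
    · refine tendsto_nhds_unique (hG (z + Complex.I)) ?_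
      refine ((hG z).sub (((hG 1).sub (hG 0)).const_mul Complex.I)).congr (fun n => ?_)
      exact ((hn n z).2).symm
  have hc : G 1 - G 0 ≠ 0 := by
    intro h
    have h1 := hdist 1 0
    have h2 := hdist 0 0
    rw [hs0] at h1 h2
    simp only [st0, map_one, map_zero, norm_one, norm_zero, pow_zero, mul_one, add_zero,
      zero_sub, norm_neg] at h1 h2
    have h3 : G 1 = G 0 := by linear_combination h
    rw [h3] at h1
    have h4 : ‖(1:ℂ)‖ ≤ ‖1 - G 0‖ + ‖G 0‖ := by
      calc ‖(1:ℂ)‖ = ‖(1 - G 0) + G 0‖ := by ring_nf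
        _ ≤ _ := norm_add_le _ _
    rw [norm_one] at h4
    norm_num at h1 h2
    linarith
  refine ⟨{z | ¬ AnalyticAt ℂ f z}, f, ?_, ⟨?_, ?_⟩, ?_, hfc, fun p => by simp, hemb⟩
  · -- nonempty
    by_contra hcon
    rw [Set.not_nonempty_iff_eq_empty, Set.eq_empty_iff_forall_notMem] at hcon
    have han : Differentiable ℂ f := fun z => by
      have := hcon z
      simp only [Set.mem_ofPred_eq, not_not] at this
      exact this.differentiableAt
    have hrect := Complex.integral_boundary_rect_eq_zero_of_differentiableOn f 0 (1 + Complex.I)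
      han.differentiableOn
    have i1 : ∀ x : ℝ, f (x + ((1 + Complex.I).im : ℂ) * Complex.I) =
        f (x + ((0:ℂ).im : ℂ) * Complex.I) +
        (Complex.I - (1/10) * (Complex.I * (G 1 - G 0))) := by
      intro x
      rw [hf, hf]
      have e1 : (x : ℂ) + ((1 + Complex.I).im : ℂ) * Complex.I = (x : ℂ) + Complex.I := by simp
      have e2 : (x : ℂ) + ((0:ℂ).im : ℂ) * Complex.I = (x : ℂ) := by simp
      rw [e1, e2, (hshift x).2]
      ring
    have i2 : ∀ y : ℝ, f (((1 + Complex.I).re : ℂ) + y * Complex.I) =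
        f (((0:ℂ).re : ℂ) + y * Complex.I) + (1 + (1/10) * (G 1 - G 0)) := by
      intro y
      rw [hf, hf]
      have e1 : ((1 + Complex.I).re : ℂ) + y * Complex.I = (y * Complex.I) + 1 := by simp; ring
      have e2 : ((0:ℂ).re : ℂ) + y * Complex.I = (y * Complex.I) := by simp
      rw [e1, e2, (hshift (y * Complex.I)).1]
      ring
    simp only [i1, i2] at hrect
    rw [intervalIntegral.integral_add, intervalIntegral.integral_add] at hrect
    · simp only [intervalIntegral.integral_const, Complex.add_re, Complex.add_im, Complex.one_re,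
        Complex.one_im, Complex.I_re, Complex.I_im, Complex.zero_re, Complex.zero_im, add_zero,
        zero_add, sub_zero, one_smul, smul_eq_mul] at hrect
      apply hc
      have hI0 : Complex.I ≠ 0 := Complex.I_ne_zero
      have : Complex.I * ((1/5) * (G 1 - G 0)) = 0 := by linear_combination hrect
      have := (mul_eq_zero.1 this).resolve_left hI0
      linear_combination 5 * this
    · apply Continuous.intervalIntegrable; fun_prop
    · apply Continuous.intervalIntegrable; fun_prop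
    · apply Continuous.intervalIntegrable; fun_prop
    · apply Continuous.intervalIntegrable; fun_prop
  · -- closed
    exact (isOpen_analyticAt ℂ f).isClosed_compl
  · -- no isolated points
    intro x hx
    by_contra hacc
    rw [accPt_iff_frequently_nhdsNE, not_frequently] at hacc
    apply hx
    apply Complex.analyticAt_of_differentiable_on_punctured_nhds_of_continuousAt _
      hfc.continuousAt
    filter_upwards [hacc] with y hy
    simp only [Set.mem_ofPred_eq, not_not] at hy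
    exact hy.differentiableAt
  · -- totally disconnected
    intro t ht htc x hx y hy
    have hall : ∀ n, ∀ z ∈ t, z ∈ (s n).K := by
      intro n z hz
      by_contra h
      exact ht hz (hhol n z h)
    have harch : ∀ a b : ℝ, a < b → ∃ k : ℕ, ∀ N : ℕ, k ≤ N → ∃ m : ℤ, a * N ≤ m ∧ (m : ℝ) ≤ b * N := by
      intro a b hab
      obtain ⟨k, hk⟩ := exists_nat_gt (1 / (b - a))
      refine ⟨k, fun N hN => ⟨⌈a * N⌉, Int.le_ceil _, ?_⟩⟩
      have h1 : (⌈a * N⌉ : ℝ) < a * N + 1 := Int.ceil_lt_add_one _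
      have h2 : 1 / (b - a) < N := lt_of_lt_of_le hk (by exact_mod_cast hN)
      rw [div_lt_iff₀ (by linarith)] at h2
      linarith
    have hre : ∀ x ∈ t, ∀ y ∈ t, ¬ x.re < y.re := by
      intro x hx y hy hxy
      obtain ⟨k, hk⟩ := harch _ _ hxy
      obtain ⟨-, -, N, hN, hN2, -⟩ := hR (2 * k)
      obtain ⟨m, hm1, hm2⟩ := hk N (by omega)
      have hN0 : (0 : ℝ) < N := by exact_mod_cast (by omega : 0 < N)
      have hpc : IsPreconnected (Complex.re '' t) := htc.image _ Complex.continuous_re.continuousOn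
      have hmem : (m : ℝ) / N ∈ Complex.re '' t := by
        apply hpc.ordConnected.out ⟨x, hx, rfl⟩ ⟨y, hy, rfl⟩
        exact ⟨by rw [le_div_iff₀ hN0]; exact hm1, by rw [div_le_iff₀ hN0]; exact hm2⟩
      obtain ⟨z, hz, hz2⟩ := hmem
      refine hN2 (even_two_mul k) z (hall _ z hz) m ?_
      rw [hz2]; field_simp
    have him : ∀ x ∈ t, ∀ y ∈ t, ¬ x.im < y.im := by
      intro x hx y hy hxy
      obtain ⟨k, hk⟩ := harch _ _ hxy
      obtain ⟨-, -, N, hN, -, hN2⟩ := hR (2 * k + 1)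
      obtain ⟨m, hm1, hm2⟩ := hk N (by omega)
      have hN0 : (0 : ℝ) < N := by exact_mod_cast (by omega : 0 < N)
      have hpc : IsPreconnected (Complex.im '' t) := htc.image _ Complex.continuous_im.continuousOn
      have hmem : (m : ℝ) / N ∈ Complex.im '' t := by
        apply hpc.ordConnected.out ⟨x, hx, rfl⟩ ⟨y, hy, rfl⟩
        exact ⟨by rw [le_div_iff₀ hN0]; exact hm1, by rw [div_le_iff₀ hN0]; exact hm2⟩
      obtain ⟨z, hz, hz2⟩ := hmem
      refine hN2 (by simp) z (hall _ z hz) m ?_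
      rw [hz2]; field_simp
    apply Complex.ext
    · exact le_antisymm (not_lt.1 (hre y hy x hx)) (not_lt.1 (hre x hx y hy))
    · exact le_antisymm (not_lt.1 (him y hy x hx)) (not_lt.1 (him x hx y hy))

end

/-- There is a domain D, a nonempty perfect totally disconnected set P inside D, and f continuous on D, holomorphic on D minus P, not analytic at any point of P, with f(P) totally disconnected. -/
theorem result :
    ∃ (D P : Set ℂ) (f : ℂ → ℂ),
      IsOpen D ∧ IsConnected D ∧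
      P ⊆ D ∧ P.Nonempty ∧ Perfect P ∧ IsTotallyDisconnected P ∧
      ContinuousOn f D ∧
      DifferentiableOn ℂ f (D \ P) ∧
      (∀ p ∈ P, ¬ AnalyticAt ℂ f p) ∧
      IsTotallyDisconnected (f '' P) := by
  obtain ⟨P, f, hne, hperf, htd, hfc, han, hemb⟩ := main
  refine ⟨Set.univ, P, f, isOpen_univ, isConnected_univ, Set.subset_univ _, hne, hperf, htd,
    hfc.continuousOn, fun z hz => ?_, fun p hp h => (han p).1 h hp,
    hemb.isTotallyDisconnected_image.2 htd⟩
  exact ((han z).2 hz.2).differentiableAt.differentiableWithinAt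

end Pool.Agent.S04287
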