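import Pool.Statements.S04290
import Pool.Agent.Helper311.HardyNull

set_option autoImplicit false
open Pool Pool.MP_e5f19a_an

namespace Pool.Agent.S04290

/-- The negation of the preceding statement: Every domain in ℂ whose complement has positive logarithmic capacity (it contains a compact set carrying a finite-energy probability measure) has a non-constant holomorphic f on it with ∣f∣² bounded by a harmonic function. -/
theorem result :
    ¬ (∀ Ω : Set ℂ, IsOpen Ω → IsConnected Ω →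
      (∃ K : Set ℂ, IsCompact K ∧ K ⊆ Ωᶜ ∧
        ∃ μ : MeasureTheory.Measure ℂ, MeasureTheory.IsProbabilityMeasure μ ∧
          MeasureTheory.NoAtoms μ ∧ μ Kᶜ = 0 ∧
          MeasureTheory.Integrable (fun p : ℂ × ℂ => Real.log ‖p.1 - p.2‖) (μ.prod μ)) →
      ∃ f : ℂ → ℂ, DifferentiableOn ℂ f Ω ∧
        (∃ u : ℂ → ℝ,
          (∀ z ∈ Ω, ∃ r > 0, Metric.ball z r ⊆ Ω ∧
            ∃ g : ℂ → ℂ, DifferentiableOn ℂ g (Metric.ball z r) ∧
              ∀ w ∈ Metric.ball z r, u w = (g w).re) ∧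
          ∀ z ∈ Ω, ‖f z‖ ^ 2 ≤ u z) ∧
        ∃ z ∈ Ω, ∃ w ∈ Ω, f z ≠ f w) := by
  intro H
  obtain ⟨f, hf, ⟨u, hu, hfu⟩, z, hz, w, hw, hne⟩ :=
    H Pool.Agent.Helper311.HardyNull.CEᶜ
      Pool.Agent.Helper311.HardyNull.isCompact_CE.isClosed.isOpen_compl
      Pool.Agent.Helper311.HardyNull.CE_conn
      ⟨Pool.Agent.Helper311.HardyNull.CE, Pool.Agent.Helper311.HardyNull.isCompact_CE,
        by rw [compl_compl], Pool.Agent.Helper311.HardyNull.cmu, inferInstance,
        (inferInstance : MeasureTheory.NullSingletonClass Pool.Agent.Helper311.HardyNull.cmu),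
        Pool.Agent.Helper311.HardyNull.cmu_compl, Pool.Agent.Helper311.HardyNull.integrable_log⟩
  have hu' : ∀ z ∈ Pool.Agent.Helper311.HardyNull.CEᶜ, Pool.Agent.Helper311.HardyNull.LocRe u z := by
    intro z hz
    obtain ⟨r, hr, _, g, hg, hug⟩ := hu z hz
    exact ⟨r, hr, g, hg, hug⟩
  obtain ⟨k, hk⟩ := Pool.Agent.Helper311.HardyNull.constant_of_null
    Pool.Agent.Helper311.HardyNull.isCompact_CE.isClosed
    Pool.Agent.Helper311.HardyNull.CE_real Pool.Agent.Helper311.HardyNull.CE_cover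
    Pool.Agent.Helper311.HardyNull.CE_conn.isPreconnected hf hu' hfu
  exact hne ((hk z hz).trans (hk w hw).symm)

end Pool.Agent.S04290
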