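import Pool.Statements.S04291
import Pool.Agent.Helper957.CZero

set_option autoImplicit false
open Pool Pool.MP_e68b70_an

namespace Pool.Agent.S04291

open Pool.Agent.Helper957 Set Filter Topology

/-- A first smooth norm, the Minkowski functional of `{Phi <= 1}`. -/
theorem exists_base_norm : ∃ (N : Seminorm ℝ C0) (a b : ℝ), 0 < a ∧ 0 < b ∧
    (∀ x, a * ‖x‖ ≤ N x ∧ N x ≤ b * ‖x‖) ∧
      ContDiffOn ℝ 2 (fun x => N x) ({0}ᶜ : Set C0) ∧ (∀ x, N x ≤ 1 ↔ Phi x ≤ 1) :=
  exists_smooth_norm Phi convexOn_Phi Phi_neg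
    (by rw [Phi_eq_zero (fun i => by simp)]; norm_num) contDiff_Phi.continuous
    (fun x _ => contDiff_Phi.contDiffAt) 2 (fun x hx => norm_le_of_Phi hx)

/-- The unit vector. -/
noncomputable def e (k : ℕ) : C0 := fin {k} (fun _ => 1)

theorem e_apply (k i : ℕ) : e k i = if i = k then 1 else 0 := by
  unfold e
  rw [fin_apply]
  simp

/-- Projection killing the `k`-th coordinate. -/
noncomputable def P (k : ℕ) : C0 →L[ℝ] C0 :=
  ContinuousLinearMap.id ℝ C0 - (ev k).smulRight (e k)

theorem P_eq (k : ℕ) (x : C0) : P k x = x - (x k) • e k := rfl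

theorem norm_e (k : ℕ) : ‖e k‖ ≤ 1 := by
  apply norm_le_of_forall zero_le_one
  intro i
  rw [e_apply]
  split_ifs <;> simp

theorem P_apply (k i : ℕ) (x : C0) : P k x i = if i = k then 0 else x i := by
  rw [P_eq]
  show x i - (x k) * (e k i) = _
  rw [e_apply]
  split_ifs with h
  · subst h; simp
  · simp

theorem norm_P_le (k : ℕ) (x : C0) : ‖P k x‖ ≤ ‖x‖ := by
  apply norm_le_of_forall (norm_nonneg x)
  intro i
  rw [P_apply]
  split_ifs
  · simp
  · exact abs_apply_le x i

/-- The small parameters. -/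
noncomputable def ep (k : ℕ) : ℝ := 1 / ((k : ℝ) + 2)

theorem ep_pos (k : ℕ) : 0 < ep k := by unfold ep; positivity

theorem ep_le_half (k : ℕ) : ep k ≤ 1 / 2 := by
  unfold ep
  apply one_div_le_one_div_of_le (by norm_num)
  have : (0:ℝ) ≤ k := Nat.cast_nonneg k
  linarith

theorem tendsto_ep : Tendsto ep atTop (𝓝 0) := by
  unfold ep
  have h : Tendsto (fun k : ℕ => (k : ℝ) + 2) atTop atTop :=
    tendsto_atTop_add_const_right _ _ tendsto_natCast_atTop_atTop
  exact h.const_div_atTop 1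

section

variable (N : Seminorm ℝ C0)

/-- The `k`-th cap function. -/
noncomputable def g (k : ℕ) (x : C0) : ℝ :=
  pc (2 * ((x k) ^ 2 + ep k * pc (N (P k x) - ep k) - 1 / 2))

theorem convexOn_g (k : ℕ) : ConvexOn ℝ univ (g N k) := by
  apply ConvexOn.pc_comp
  have h1 : ConvexOn ℝ univ (fun x => N (P k x)) :=
    (N.convexOn).comp_linearMap (P k).toLinearMap
  have h2 : ConvexOn ℝ univ (fun x => pc (N (P k x) - ep k)) :=
    ConvexOn.pc_comp (h1.add_const (-(ep k)))
  have h3 := (((convexOn_sq_apply k).add (h2.smul (ep_pos k).le)).add_const (-(1/2))).smul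
    (show (0:ℝ) ≤ 2 by norm_num)
  refine h3.congr ?_
  intro x _
  simp only [Pi.add_apply, smul_eq_mul]
  ring

theorem contDiff_g {b : ℝ} (hb : ∀ x, N x ≤ b * ‖x‖)
    (hC : ContDiffOn ℝ 2 (fun x => N x) ({0}ᶜ : Set C0)) (k : ℕ) : ContDiff ℝ 2 (g N k) := by
  have h1 : ContDiff ℝ 2 (fun x => pc (N (P k x) - ep k)) := by
    rw [contDiff_iff_contDiffAt]
    intro x
    rcases eq_or_ne (P k x) 0 with h | h
    · have hcont : Continuous (fun y => b * ‖P k y‖) := by fun_prop
      have h2 : ∀ᶠ y in 𝓝 x, b * ‖P k y‖ < ep k := by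
        apply hcont.continuousAt.eventually (gt_mem_nhds _)
        show b * ‖P k x‖ < ep k
        rw [h]; simpa using ep_pos k
      have h3 : (fun y => pc (N (P k y) - ep k)) =ᶠ[𝓝 x] fun _ => 0 := by
        filter_upwards [h2] with y hy
        apply pc_of_nonpos
        have := hb (P k y)
        linarith
      exact contDiffAt_const.congr_of_eventuallyEq h3
    · have h2 : ContDiffAt ℝ 2 (fun x => N x) (P k x) :=
        hC.contDiffAt (isOpen_compl_singleton.mem_nhds h)
      have h3 : ContDiffAt ℝ 2 (fun x => N (P k x)) x :=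
        ContDiffAt.comp x (g := fun x => N x) (f := fun y => P k y) h2 (P k).contDiff.contDiffAt
      exact ContDiffAt.comp x (g := pc) contDiff_pc.contDiffAt (h3.sub contDiffAt_const)
  have h2 : ContDiff ℝ 2 (fun x : C0 => 2 * ((x k) ^ 2 + ep k * pc (N (P k x) - ep k) - 1 / 2)) :=
    contDiff_const.mul ((((contDiff_apply k).pow 2).add (contDiff_const.mul h1)).sub contDiff_const)
  exact contDiff_pc.comp h2

theorem g_loc {b : ℝ} (hb0 : 0 < b) (hb : ∀ x, N x ≤ b * ‖x‖) : LocZero (g N) := by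
  intro x
  obtain ⟨n, hn⟩ := eventually_small x (1/2) (by norm_num)
  have hlim : Tendsto (fun k => ep k * (b * (‖x‖ + 1)) ^ 3) atTop (𝓝 0) := by
    have := tendsto_ep.mul_const ((b * (‖x‖ + 1)) ^ 3)
    simpa using this
  obtain ⟨m, hm⟩ := eventually_atTop.1 (hlim.eventually (gt_mem_nhds (show (0:ℝ) < 1/4 by norm_num)))
  refine ⟨max n m, ?_⟩
  have hball : ∀ᶠ y in 𝓝 x, ‖y‖ < ‖x‖ + 1 :=
    continuous_norm.continuousAt.eventually (gt_mem_nhds (by linarith))
  filter_upwards [hn, hball] with y hy hy2 k hk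
  apply pc_of_nonpos
  have h1 := hy k (le_trans (le_max_left _ _) hk)
  have h2 := hm k (le_trans (le_max_right _ _) hk)
  have h3 : (y k) ^ 2 ≤ 1 / 4 := by
    rw [← sq_abs]
    have h0 := abs_nonneg (y k)
    nlinarith
  have h4 : N (P k y) ≤ b * (‖x‖ + 1) := by
    refine (hb _).trans ?_
    have := norm_P_le k y
    gcongr
    linarith
  have h5 : pc (N (P k y) - ep k) ≤ (b * (‖x‖ + 1)) ^ 3 := by
    have h6 : N (P k y) - ep k ≤ b * (‖x‖ + 1) := by linarith [ep_pos k]
    refine (pc_mono h6).trans ?_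
    rw [pc_of_nonneg (by positivity)]
  have h7 : ep k * pc (N (P k y) - ep k) ≤ ep k * (b * (‖x‖ + 1)) ^ 3 :=
    mul_le_mul_of_nonneg_left h5 (ep_pos k).le
  linarith

/-- The defining convex function. -/
noncomputable def F (x : C0) : ℝ := Phi x + ∑' k, g N k x

theorem g_nonneg (k : ℕ) (x : C0) : 0 ≤ g N k x := pc_nonneg _

end

/-- There is a norm on c_0, equivalent to the sup norm and twice continuously differentiable away from 0, whose closed unit ball is dentable: for every ε>0 some point of the ball lies outside the closed convex hull of the ball minus the ε-ball around it. -/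
theorem result :
    ∃ (N : Seminorm ℝ (ZeroAtInftyContinuousMap ℕ ℝ)) (a b : ℝ),
      0 < a ∧ 0 < b ∧
      (∀ x : ZeroAtInftyContinuousMap ℕ ℝ, a * ‖x‖ ≤ N x ∧ N x ≤ b * ‖x‖) ∧
      ContDiffOn ℝ 2 (fun x : ZeroAtInftyContinuousMap ℕ ℝ => N x)
        ({0}ᶜ : Set (ZeroAtInftyContinuousMap ℕ ℝ)) ∧
      ∀ ε : ℝ, 0 < ε →
        ∃ x : ZeroAtInftyContinuousMap ℕ ℝ, N x ≤ 1 ∧
          x ∉ closure (convexHull ℝ
            ({y : ZeroAtInftyContinuousMap ℕ ℝ | N y ≤ 1} \ Metric.ball x ε)) := by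
  obtain ⟨N1, a, b, ha, hb, hab, hC, hN1⟩ := exists_base_norm
  have hloc : LocZero (g N1) := g_loc N1 hb (fun x => (hab x).2)
  have hsum_nonneg : ∀ x, 0 ≤ ∑' k, g N1 k x := fun x => tsum_nonneg fun k => g_nonneg N1 k x
  have hFC : ContDiff ℝ 2 (F N1) :=
    contDiff_Phi.add (hloc.contDiff (contDiff_g N1 (fun x => (hab x).2) hC))
  have hFconv : ConvexOn ℝ univ (F N1) := convexOn_Phi.add (hloc.convexOn (convexOn_g N1))
  have hFneg : ∀ x, F N1 (-x) = F N1 x := by
    intro x
    unfold F g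
    rw [Phi_neg]
    congr 1
    apply tsum_congr
    intro k
    rw [map_neg, map_neg_eq_map]
    simp
  have hF0 : F N1 0 < 1 := by
    have h1 : ∀ k, g N1 k 0 = 0 := by
      intro k
      apply pc_of_nonpos
      have h2 : pc (N1 (P k 0) - ep k) = 0 := by
        apply pc_of_nonpos
        rw [map_zero, map_zero]
        linarith [ep_pos k]
      rw [h2]
      simp
    unfold F
    rw [Phi_eq_zero (fun i => by simp)]
    simp [h1]
  have hFco : ∀ x, F N1 x ≤ 1 → ‖x‖ ≤ 2 := by
    intro x hx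
    apply norm_le_of_Phi
    have := hsum_nonneg x
    unfold F at hx
    linarith
  obtain ⟨N, a', b', ha', hb', hab', hC', hN⟩ :=
    exists_smooth_norm (F N1) hFconv hFneg hF0 hFC.continuous (fun x _ => hFC.contDiffAt) 2 hFco
  refine ⟨N, a', b', ha', hb', hab', hC', ?_⟩
  intro ε hε
  -- choose k
  have hlim : Tendsto (fun k => (2 / a + 1) * ep k) atTop (𝓝 0) := by
    have := tendsto_ep.const_mul (2 / a + 1)
    simpa using this
  obtain ⟨k, hk⟩ := (hlim.eventually (gt_mem_nhds hε)).exists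
  have hPhi_e : Phi (e k) = 0 := Phi_eq_zero (fun i => by
    rw [e_apply]; split_ifs <;> simp)
  have hN1e : N1 (e k) ≤ 1 := (hN1 _).2 (by rw [hPhi_e]; norm_num)
  have hgk : g N1 k (e k) = 1 := by
    have h1 : P k (e k) = 0 := by
      ext i
      rw [P_apply, e_apply]
      split_ifs <;> simp
    have h2 : pc (0 - ep k) = 0 := pc_of_nonpos (by linarith [ep_pos k])
    unfold g
    rw [h1, map_zero, h2, e_apply, if_pos rfl]
    norm_num
    exact pc_one
  have hgj : ∀ j, j ≠ k → g N1 j (e k) = 0 := by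
    intro j hj
    have h1 : P j (e k) = e k := by
      ext i
      rw [P_apply, e_apply]
      split_ifs with h2 h3
      · exact absurd (h2.symm.trans h3) hj
      · rfl
      · rfl
      · rfl
    apply pc_of_nonpos
    rw [h1, e_apply, if_neg hj]
    have h2 : pc (N1 (e k) - ep j) ≤ 1 := pc_le_one_iff.2 (by linarith [ep_pos j])
    have h3 : ep j * pc (N1 (e k) - ep j) ≤ 1 / 2 * 1 :=
      mul_le_mul (ep_le_half j) h2 (pc_nonneg _) (by norm_num)
    linarith
  have hFe : F N1 (e k) ≤ 1 := by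
    unfold F
    rw [hPhi_e, tsum_eq_single k hgj, hgk]
    norm_num
  refine ⟨e k, (hN _).2 hFe, ?_⟩
  set δ : ℝ := ep k * (ep k) ^ 3 / 2 with hδ
  have hep := ep_pos k
  have hep2 := ep_le_half k
  have hδpos : 0 < δ := by positivity
  have hδle : δ ≤ ep k := by
    have h3 : (ep k) ^ 3 ≤ 1 := pow_le_one₀ hep.le (by linarith)
    rw [hδ]
    nlinarith
  have hsub : ({y : C0 | N y ≤ 1} \ Metric.ball (e k) ε) ⊆ {y : C0 | ev k y ≤ 1 - δ} := by
    rintro y ⟨hy1, hy2⟩
    by_contra hcon
    have hyk : 1 - δ < y k := not_le.1 hcon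
    apply hy2
    rw [Metric.mem_ball, dist_eq_norm]
    have hFy : F N1 y ≤ 1 := (hN y).1 hy1
    have hgy : g N1 k y ≤ 1 := by
      have h1 : g N1 k y ≤ ∑' j, g N1 j y :=
        (hloc.summable y).le_tsum k (fun j _ => g_nonneg N1 j y)
      have h2 := Phi_nonneg y
      unfold F at hFy
      linarith
    unfold g at hgy
    rw [pc_le_one_iff] at hgy
    have h3 : (y k) ^ 2 + ep k * pc (N1 (P k y) - ep k) ≤ 1 := by linarith
    have h4 : 0 ≤ ep k * pc (N1 (P k y) - ep k) := mul_nonneg hep.le (pc_nonneg _)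
    have hy1' : y k ≤ 1 := by nlinarith
    have h5 : ep k * pc (N1 (P k y) - ep k) ≤ ep k * (ep k) ^ 3 := by
      have : ep k * (ep k) ^ 3 = 2 * δ := by rw [hδ]; ring
      rw [this]
      nlinarith
    have h6 : pc (N1 (P k y) - ep k) ≤ (ep k) ^ 3 := le_of_mul_le_mul_left h5 hep
    have h7 : N1 (P k y) - ep k ≤ ep k := by
      by_contra hc
      push Not at hc
      have h8 : 0 ≤ N1 (P k y) - ep k := by linarith
      rw [pc_of_nonneg h8] at h6
      have h9 : (ep k) ^ 3 < (N1 (P k y) - ep k) ^ 3 := pow_lt_pow_left₀ hc hep.le (by norm_num)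
      linarith
    have h8 : ‖P k y‖ ≤ 2 * ep k / a := by
      rw [le_div_iff₀ ha]
      have := (hab (P k y)).1
      linarith
    have h9 : y - e k = P k y + (y k - 1) • e k := by
      ext i
      show y i - e k i = P k y i + (y k - 1) * e k i
      rw [P_apply, e_apply]
      split_ifs with hi
      · subst hi; ring
      · ring
    rw [h9]
    calc ‖P k y + (y k - 1) • e k‖ ≤ ‖P k y‖ + ‖(y k - 1) • e k‖ := norm_add_le _ _
      _ ≤ 2 * ep k / a + δ := by
          apply add_le_add h8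
          rw [norm_smul, Real.norm_eq_abs, abs_of_nonpos (by linarith)]
          have := norm_e k
          have h0 := norm_nonneg (e k)
          nlinarith
      _ ≤ (2 / a + 1) * ep k := by
          have : 2 * ep k / a = 2 / a * ep k := by ring
          rw [this]
          linarith
      _ < ε := hk
  have hclosed : IsClosed {y : C0 | ev k y ≤ 1 - δ} := isClosed_le (ev k).continuous continuous_const
  have hconv : Convex ℝ {y : C0 | ev k y ≤ 1 - δ} := convex_halfSpace_le (ev k).toLinearMap.isLinear _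
  intro hmem
  have h1 : e k ∈ {y : C0 | ev k y ≤ 1 - δ} :=
    closure_minimal (convexHull_min hsub hconv) hclosed hmem
  have h2 : ev k (e k) = 1 := by
    rw [ev_apply, e_apply, if_pos rfl]
  have h3 : ev k (e k) ≤ 1 - δ := h1
  linarith

end Pool.Agent.S04291
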