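import Pool.Statements.S04307
import Pool.Agent.Helper348.AmThms

set_option autoImplicit false
open scoped TensorProduct
open Pool Pool.MP_e89c3e_an

namespace Pool.Agent.S04307

/-- There is a complex unital commutative Banach algebra that is amenable (has a bounded approximate diagonal) and whose Jacobson radical is nonzero and has a closed complement. -/
theorem result :
    ∃ (A : Type) (_ : NormedCommRing A) (_ : NormedAlgebra ℂ A), CompleteSpace A ∧
      (∃ C : ℝ, ∀ F : Finset A, ∀ ε : ℝ, 0 < ε →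
        ∃ (n : ℕ) (a b : Fin n → A),
          (∑ i, ‖a i‖ * ‖b i‖) ≤ C ∧
          ∀ c ∈ F,
            ‖c * (∑ i, a i * b i) - c‖ < ε ∧
            ∃ (m : ℕ) (x y : Fin m → A),
              (∑ i, ((c * a i) ⊗ₜ[ℂ] b i - a i ⊗ₜ[ℂ] (b i * c))) =
                  ∑ j, x j ⊗ₜ[ℂ] y j ∧
              (∑ j, ‖x j‖ * ‖y j‖) < ε) ∧
      Ideal.jacobson (⊥ : Ideal A) ≠ ⊥ ∧
      (Submodule.restrictScalars ℂ (Ideal.jacobson (⊥ : Ideal A))).ClosedComplemented :=
  Am.complemented_radical

end Pool.Agent.S04307
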