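import Pool.Statements.S04318
import Mathlib

set_option autoImplicit false
open Pool Pool.MP_e9d911_an

namespace Pool.Agent.S04318

open Polynomial in
/-- The polynomial `(z+1)^3 (3-z)/3 = 1 + (8/3) z + 2 z^2 - (1/3) z^4`. -/
noncomputable def P : ℂ[X] := C (-(1/3 : ℂ)) * ((X + C 1) * ((X + C 1) * ((X + C 1) * (X + C (-3)))))

/-- The coefficient sequence of `P`. -/
noncomputable def cf (j : ℕ) : ℂ :=
  if j = 0 then 1 else if j = 1 then 8/3 else if j = 2 then 2 else if j = 4 then -(1/3) else 0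

theorem cf_zero_of_ge (j : ℕ) (hj : j ∉ Finset.range 5) : cf j = 0 := by
  have h : 5 ≤ j := by simpa using hj
  unfold cf
  rw [if_neg (by omega), if_neg (by omega), if_neg (by omega), if_neg (by omega)]

theorem norm_cf (j : ℕ) : ‖cf j‖ =
    if j = 0 then 1 else if j = 1 then 8/3 else if j = 2 then 2 else if j = 4 then 1/3 else 0 := by
  unfold cf
  split_ifs <;> norm_num

theorem summable_cf : Summable (fun j => ‖cf j‖) :=
  summable_of_ne_finset_zero (s := Finset.range 5) (fun j hj => by rw [cf_zero_of_ge j hj, norm_zero])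

theorem tsum_norm_cf : ∑' j, ‖cf j‖ = 6 := by
  rw [tsum_eq_sum (s := Finset.range 5) (fun j hj => by rw [cf_zero_of_ge j hj, norm_zero])]
  simp only [norm_cf]
  norm_num [Finset.sum_range_succ]

open Polynomial in
theorem tsum_cf (z : ℂ) : ∑' j, cf j * z ^ j = eval z P := by
  rw [tsum_eq_sum (s := Finset.range 5) (fun j hj => by rw [cf_zero_of_ge j hj, zero_mul])]
  simp only [cf, P, Finset.sum_range_succ, Finset.sum_range_zero, eval_mul, eval_C, eval_add, eval_X]
  norm_num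
  ring

open Polynomial in
theorem logMahler_P : P.logMahlerMeasure = 0 := by
  rw [logMahlerMeasure_eq_log_MahlerMeasure]
  have h : P.mahlerMeasure = 1 := by
    unfold P
    simp only [mahlerMeasure_mul, mahlerMeasure_const, mahlerMeasure_X_add_C]
    norm_num
  rw [h, Real.log_one]

open Polynomial in
theorem integral_eq :
    (1 / (2 * Real.pi)) *
      (∫ θ in (0:ℝ)..(2 * Real.pi),
        Real.log ‖∑' j, cf j * Complex.exp ((θ : ℂ) * Complex.I) ^ j‖) = 0 := by
  have h := logMahler_P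
  rw [logMahlerMeasure_def, Real.circleAverage_def] at h
  simp only [circleMap, zero_add, Complex.ofReal_one, one_mul, smul_eq_mul] at h
  simp only [tsum_cf]
  rw [one_div]
  exact h

/-- The negation of the preceding statement: For 0<d<1, k≥0 and the n with ∑_{j≤k}C(n,j)/2^n ≤ d < ∑_{j≤k}C(n-1,j)/2^{n-1}, the infimum of J(f) over nonzero f with ∑_{j≤k}∣a_j∣ ≥ d∑∣a_j∣ equals log(ρ/((ρ+1)2^{n-1})), with ρ as defined. -/
theorem result :
    ¬ (∀ (d : ℝ) (k n : ℕ), 0 < d → d < 1 → 0 < n →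
    (∑ j ∈ Finset.range (k+1), (n.choose j : ℝ)) / 2 ^ n ≤ d →
    d < (∑ j ∈ Finset.range (k+1), ((n-1).choose j : ℝ)) / 2 ^ (n-1) →
    IsGLB {x : ℝ | ∃ a : ℕ → ℂ, Summable (fun j => ‖a j‖) ∧ a ≠ 0 ∧
        d * (∑' j, ‖a j‖) ≤ ∑ j ∈ Finset.range (k+1), ‖a j‖ ∧
        x = (1 / (2 * Real.pi)) *
              (∫ θ in (0:ℝ)..(2 * Real.pi),
                Real.log ‖∑' j, a j * Complex.exp ((θ : ℂ) * Complex.I) ^ j‖)
            - Real.log (∑' j, ‖a j‖)}
      (Real.log
        ((((n-1).choose k : ℝ) /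
            ((∑ j ∈ Finset.range (k+1), ((n-1).choose j : ℝ)) - d * 2 ^ (n-1)) - 1) /
          (((((n-1).choose k : ℝ) /
            ((∑ j ∈ Finset.range (k+1), ((n-1).choose j : ℝ)) - d * 2 ^ (n-1)) - 1) + 1)
            * 2 ^ (n-1))))) := by
  intro H
  have h1 := H (11/18) 1 3 (by norm_num) (by norm_num) (by norm_num)
    (by norm_num [Finset.sum_range_succ]) (by norm_num [Finset.sum_range_succ, Nat.choose])
  have hlb := h1.1
  have hmem : (0 - Real.log 6 : ℝ) ∈ {x : ℝ | ∃ a : ℕ → ℂ, Summable (fun j => ‖a j‖) ∧ a ≠ 0 ∧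
        (11/18 : ℝ) * (∑' j, ‖a j‖) ≤ ∑ j ∈ Finset.range (1+1), ‖a j‖ ∧
        x = (1 / (2 * Real.pi)) *
              (∫ θ in (0:ℝ)..(2 * Real.pi),
                Real.log ‖∑' j, a j * Complex.exp ((θ : ℂ) * Complex.I) ^ j‖)
            - Real.log (∑' j, ‖a j‖)} := by
    refine ⟨cf, summable_cf, ?_, ?_, ?_⟩
    · intro h
      have := congrFun h 0
      simp [cf] at this
    · rw [tsum_norm_cf]
      simp only [norm_cf]
      norm_num [Finset.sum_range_succ]
    · rw [integral_eq, tsum_norm_cf]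
  have hle := hlb hmem
  have hval : ((((3-1).choose 1 : ℕ) : ℝ) /
            ((∑ j ∈ Finset.range (1+1), (((3-1).choose j : ℕ) : ℝ)) - (11/18 : ℝ) * 2 ^ (3-1)) - 1) /
          ((((((3-1).choose 1 : ℕ) : ℝ) /
            ((∑ j ∈ Finset.range (1+1), (((3-1).choose j : ℕ) : ℝ)) - (11/18 : ℝ) * 2 ^ (3-1)) - 1) + 1)
            * 2 ^ (3-1)) = (13/72 : ℝ) := by
    norm_num [Finset.sum_range_succ, Nat.choose]
  rw [hval] at hle
  rw [zero_sub, ← Real.log_inv] at hle
  rw [Real.log_le_log_iff (by norm_num) (by norm_num)] at hle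
  norm_num at hle

end Pool.Agent.S04318
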