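import Pool.Statements.S04332
-- import your own Pool.Agent.* helpers here

set_option autoImplicit false
open Pool Pool.MP_ec292c_an

namespace Pool.Agent.S04332

open Filter Topology
open scoped InnerProductSpace ENNReal lp

section inner

variable {V : Type*} [NormedAddCommGroup V] [InnerProductSpace ℝ V]

/-- the metric projection onto the ball of radius `r`. -/
noncomputable def retr (r : ℝ) (v : V) : V := (min 1 (r / ‖v‖)) • v

lemma norm_retr_le {r : ℝ} (hr : 0 ≤ r) (v : V) : ‖retr r v‖ ≤ r := by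
  unfold retr
  have h0 : 0 ≤ min 1 (r / ‖v‖) := le_min zero_le_one (by positivity)
  rw [norm_smul, Real.norm_of_nonneg h0]
  rcases eq_or_lt_of_le (norm_nonneg v) with h | h
  · rw [← h]; simpa using hr
  · calc min 1 (r / ‖v‖) * ‖v‖ ≤ (r / ‖v‖) * ‖v‖ :=
        mul_le_mul_of_nonneg_right (min_le_right _ _) h.le
      _ = r := by field_simp

lemma retr_eq {r : ℝ} {v : V} (hv : ‖v‖ ≤ r) : retr r v = v := by
  unfold retr
  rcases eq_or_lt_of_le (norm_nonneg v) with h | h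
  · have : v = 0 := norm_eq_zero.1 h.symm
    rw [this, smul_zero]
  · rw [min_eq_left, one_smul]
    rw [le_div_iff₀ h]; linarith

lemma retr_lip {r : ℝ} (hr : 0 ≤ r) (u v : V) : ‖retr r u - retr r v‖ ≤ ‖u - v‖ := by
  have key : ∀ w : V, min 1 (r / ‖w‖) * ‖w‖ = min ‖w‖ r := by
    intro w
    rcases eq_or_lt_of_le (norm_nonneg w) with h | h
    · rw [← h]; simp [hr]
    · rw [min_mul_of_nonneg _ _ h.le, one_mul, div_mul_cancel₀ _ h.ne']
  unfold retr
  set s := min 1 (r / ‖u‖) with hs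
  set t := min 1 (r / ‖v‖) with ht
  have hs0 : 0 ≤ s := le_min zero_le_one (by positivity)
  have ht0 : 0 ≤ t := le_min zero_le_one (by positivity)
  have hs1 : s ≤ 1 := min_le_left _ _
  have ht1 : t ≤ 1 := min_le_left _ _
  have h1 : s * ‖u‖ = min ‖u‖ r := key u
  have h2 : t * ‖v‖ = min ‖v‖ r := key v
  have hmin : |min ‖u‖ r - min ‖v‖ r| ≤ |‖u‖ - ‖v‖| := by
    exact abs_min_sub_min_le_max ‖u‖ r ‖v‖ r |>.trans (by simp)
  have h3 : (s * ‖u‖ - t * ‖v‖) ^ 2 ≤ (‖u‖ - ‖v‖) ^ 2 := by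
    rw [h1, h2]; exact sq_le_sq.2 hmin
  have hst : 0 ≤ 1 - s * t := by nlinarith
  have hcs : ⟪u, v⟫_ℝ ≤ ‖u‖ * ‖v‖ := real_inner_le_norm u v
  have h4 : ‖s • u - t • v‖ ^ 2 = s ^ 2 * ‖u‖ ^ 2 - 2 * (s * t) * ⟪u, v⟫_ℝ + t ^ 2 * ‖v‖ ^ 2 := by
    rw [norm_sub_sq_real, norm_smul, norm_smul, real_inner_smul_left, real_inner_smul_right,
      Real.norm_of_nonneg hs0, Real.norm_of_nonneg ht0]
    ring
  have h5 : ‖u - v‖ ^ 2 = ‖u‖ ^ 2 - 2 * ⟪u, v⟫_ℝ + ‖v‖ ^ 2 := norm_sub_sq_real u v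
  have h6 : ‖s • u - t • v‖ ^ 2 ≤ ‖u - v‖ ^ 2 := by
    rw [h4, h5]
    nlinarith [mul_le_mul_of_nonneg_left hcs hst]
  exact le_of_sq_le_sq h6 (norm_nonneg _)

lemma ineq {a b c d : V} (hab : ⟪a, b⟫_ℝ = 0) (hcd : ⟪c, d⟫_ℝ = 0) (had : ⟪a, d⟫_ℝ = 0)
    (hbc : ⟪b, c⟫_ℝ = 0) :
    ‖a‖ * ‖c‖ - ⟪a, c⟫_ℝ ≤ ‖a + b‖ * ‖c + d‖ - ⟪a + b, c + d⟫_ℝ := by
  have h1 : ⟪a + b, c + d⟫_ℝ = ⟪a, c⟫_ℝ + ⟪b, d⟫_ℝ := by
    rw [inner_add_left, inner_add_right, inner_add_right, had, hbc]; ring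
  have h2 : ⟪b, d⟫_ℝ ≤ ‖b‖ * ‖d‖ := real_inner_le_norm b d
  have h3 : ‖a + b‖ ^ 2 = ‖a‖ ^ 2 + ‖b‖ ^ 2 := by rw [norm_add_sq_real, hab]; ring
  have h4 : ‖c + d‖ ^ 2 = ‖c‖ ^ 2 + ‖d‖ ^ 2 := by rw [norm_add_sq_real, hcd]; ring
  have h5 : (‖a‖ * ‖c‖ + ‖b‖ * ‖d‖) ^ 2 ≤ (‖a + b‖ * ‖c + d‖) ^ 2 := by
    rw [mul_pow, h3, h4]
    nlinarith [sq_nonneg (‖a‖ * ‖d‖ - ‖b‖ * ‖c‖)]
  have h6 : ‖a‖ * ‖c‖ + ‖b‖ * ‖d‖ ≤ ‖a + b‖ * ‖c + d‖ :=
    le_of_sq_le_sq h5 (by positivity)
  rw [h1]; linarith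

end inner

abbrev H : Type := lp (fun _ : ℕ => ℝ) 2

noncomputable def e (n : ℕ) : H := lp.single 2 n (1 : ℝ)

lemma inner_e (n : ℕ) (x : H) : ⟪e n, x⟫_ℝ = x n := by
  unfold e
  rw [lp.inner_single_left]
  simp

lemma norm_e (n : ℕ) : ‖e n‖ = 1 := by
  unfold e
  rw [lp.norm_single (by norm_num)]
  simp

lemma e_apply (n m : ℕ) : (e n) m = if m = n then 1 else 0 := by
  unfold e
  rw [lp.single_apply]
  by_cases h : m = n
  · subst h; simp
  · simp [h]

/-- truncation -/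
noncomputable def P (m : ℕ) : H →L[ℝ] H :=
  ∑ i ∈ Finset.range m, (innerSL ℝ (e i)).smulRight (e i)

lemma P_eq (m : ℕ) (x : H) : P m x = ∑ i ∈ Finset.range m, (x i) • e i := by
  unfold P
  simp [inner_e]

lemma P_apply (m : ℕ) (x : H) (i : ℕ) : (P m x) i = if i < m then x i else 0 := by
  rw [P_eq, lp.coeFn_sum, Finset.sum_apply]
  simp only [lp.coeFn_smul, Pi.smul_apply, e_apply, smul_eq_mul, mul_ite, mul_one, mul_zero]
  rw [Finset.sum_ite_eq]
  simp

lemma inner_P (m : ℕ) (x y : H) : ⟪P m x, y⟫_ℝ = ∑ i ∈ Finset.range m, x i * y i := by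
  rw [P_eq, sum_inner]
  apply Finset.sum_congr rfl
  intro i _
  rw [real_inner_smul_left, inner_e]

lemma inner_P_P (m : ℕ) (x y : H) : ⟪P m x, P m y⟫_ℝ = ⟪P m x, y⟫_ℝ := by
  rw [inner_P, inner_P]
  apply Finset.sum_congr rfl
  intro i hi
  rw [P_apply, if_pos (Finset.mem_range.1 hi)]

lemma inner_P_comm (m : ℕ) (x y : H) : ⟪P m x, y⟫_ℝ = ⟪x, P m y⟫_ℝ := by
  rw [real_inner_comm (P m y) x, inner_P, inner_P]
  apply Finset.sum_congr rfl
  intro i _
  ring

lemma inner_P_sub {m n : ℕ} (hmn : m ≤ n) (x y : H) : ⟪P m x, P n y - P m y⟫_ℝ = 0 := by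
  rw [inner_sub_right, inner_P, inner_P, ← Finset.sum_sub_distrib]
  apply Finset.sum_eq_zero
  intro i hi
  have := Finset.mem_range.1 hi
  rw [P_apply, P_apply, if_pos this, if_pos (by omega)]
  ring

lemma norm_P_mono {m n : ℕ} (hmn : m ≤ n) (x : H) : ‖P m x‖ ≤ ‖P n x‖ := by
  have h : ‖P n x‖ ^ 2 = ‖P m x‖ ^ 2 + ‖P n x - P m x‖ ^ 2 := by
    have h1 : P n x = P m x + (P n x - P m x) := by abel
    conv_lhs => rw [h1]
    rw [norm_add_sq_real, inner_P_sub hmn]; ring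
  exact le_of_sq_le_sq (by rw [h]; nlinarith [sq_nonneg ‖P n x - P m x‖]) (norm_nonneg _)

lemma norm_P_le (m : ℕ) (x : H) : ‖P m x‖ ≤ ‖x‖ := by
  have h : ‖P m x‖ ^ 2 = ⟪P m x, x⟫_ℝ := by
    rw [← inner_P_P, real_inner_self_eq_norm_sq]
  have h2 : ⟪P m x, x⟫_ℝ ≤ ‖P m x‖ * ‖x‖ := real_inner_le_norm _ _
  rcases eq_or_lt_of_le (norm_nonneg (P m x)) with h0 | h0
  · rw [← h0]; exact norm_nonneg _
  · have : ‖P m x‖ * ‖P m x‖ ≤ ‖P m x‖ * ‖x‖ := by nlinarith
    exact le_of_mul_le_mul_left this h0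

lemma tendsto_P (x : H) : Tendsto (fun m => P m x) atTop (𝓝 x) := by
  have h := (lp.hasSum_single (E := fun _ : ℕ => ℝ) (p := 2) (by norm_num) x).tendsto_sum_nat
  apply h.congr
  intro m
  rw [P_eq]
  apply Finset.sum_congr rfl
  intro i _
  unfold e
  rw [← lp.single_smul]
  simp

/-- inequality between consecutive levels -/
lemma level {m n : ℕ} (hmn : m ≤ n) {lam mu : ℝ} (hlam : 0 ≤ lam) (hmu : 0 < mu) {v : H}
    (hv : ‖v‖ = 1) (hv2 : lam / mu ≤ ‖P m v‖) (hv3 : 0 < ‖P m v‖) (x : H) :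
    lam * ‖P m x‖ - ⟪(lam / ‖P m v‖) • P m v, x⟫_ℝ
      ≤ mu * ‖P n x‖ - ⟪(mu / ‖P n v‖) • P n v, x⟫_ℝ := by
  have hPn : 0 < ‖P n v‖ := lt_of_lt_of_le hv3 (norm_P_mono hmn v)
  have hPn1 : ‖P n v‖ ≤ 1 := hv ▸ norm_P_le n v
  have h1 := ineq (a := P m v) (b := P n v - P m v) (c := P m x) (d := P n x - P m x)
    (inner_P_sub hmn v v) (inner_P_sub hmn x x) (inner_P_sub hmn v x)
    (by rw [real_inner_comm]; exact inner_P_sub hmn x v)
  rw [add_sub_cancel, add_sub_cancel, inner_P_P, inner_P_P] at h1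
  have h0 : 0 ≤ ‖P m v‖ * ‖P m x‖ - ⟪P m v, x⟫_ℝ := by
    rw [← inner_P_P]
    linarith [real_inner_le_norm (P m v) (P m x)]
  have hle : lam / ‖P m v‖ ≤ mu / ‖P n v‖ := by
    rw [div_le_div_iff₀ hv3 hPn]
    rw [div_le_iff₀ hmu] at hv2
    nlinarith
  have h2 : lam * ‖P m x‖ - ⟪(lam / ‖P m v‖) • P m v, x⟫_ℝ
      = (lam / ‖P m v‖) * (‖P m v‖ * ‖P m x‖ - ⟪P m v, x⟫_ℝ) := by
    rw [real_inner_smul_left]; field_simp
  have h3 : mu * ‖P n x‖ - ⟪(mu / ‖P n v‖) • P n v, x⟫_ℝ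
      = (mu / ‖P n v‖) * (‖P n v‖ * ‖P n x‖ - ⟪P n v, x⟫_ℝ) := by
    rw [real_inner_smul_left]; field_simp
  rw [h2, h3]
  exact mul_le_mul hle h1 h0 (by positivity)


abbrev G : Type := lp (fun _ : H => ℝ) ∞

lemma mkG (w : H → H) {C : ℝ} (hw : ∀ i, ‖w i‖ ≤ C) :
    ∃ L : H →L[ℝ] G, ∀ x i, (L x) i = ⟪w i, x⟫_ℝ := by
  have hC : 0 ≤ C := le_trans (norm_nonneg _) (hw 0)
  have hb : ∀ x i, ‖⟪w i, x⟫_ℝ‖ ≤ C * ‖x‖ := fun x i =>
    (norm_inner_le_norm (w i) x).trans (mul_le_mul_of_nonneg_right (hw i) (norm_nonneg _))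
  let f : H → G := fun x => ⟨fun i => ⟪w i, x⟫_ℝ, memℓp_infty ⟨C * ‖x‖, by
    rintro _ ⟨i, rfl⟩; exact hb x i⟩⟩
  have hf : ∀ x i, (f x) i = ⟪w i, x⟫_ℝ := fun _ _ => rfl
  let l : H →ₗ[ℝ] G :=
    { toFun := f
      map_add' := by
        intro x y
        apply lp.ext
        funext i
        rw [lp.coeFn_add, Pi.add_apply, hf, hf, hf, inner_add_right]
      map_smul' := by
        intro a x
        apply lp.ext
        funext i
        rw [lp.coeFn_smul, Pi.smul_apply, hf, hf, real_inner_smul_right, RingHom.id_apply,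
          smul_eq_mul] }
  refine ⟨l.mkContinuous C ?_, fun x i => rfl⟩
  intro x
  exact lp.norm_le_of_forall_le (by positivity) (fun i => hb x i)

lemma mkL1 {B : Type} [NormedAddCommGroup B] [NormedSpace ℝ B] (L : ℕ → (H →L[ℝ] B))
    (hL : ∀ n x, ∑ j ∈ Finset.range n, ‖L j x‖ ≤ ‖x‖) :
    ∃ T : H →L[ℝ] lp (fun _ : ℕ => B) 1, (∀ x j, (T x) j = L j x) ∧ ∀ x, ‖T x‖ ≤ ‖x‖ := by
  have hsum : ∀ (s : Finset ℕ) x, ∑ j ∈ s, ‖L j x‖ ≤ ‖x‖ := by
    intro s x
    obtain ⟨n, hn⟩ := s.exists_nat_subset_range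
    exact (Finset.sum_le_sum_of_subset_of_nonneg hn (fun _ _ _ => norm_nonneg _)).trans (hL n x)
  let f : H → lp (fun _ : ℕ => B) 1 := fun x => ⟨fun j => L j x, memℓp_gen' (C := ‖x‖) (by
    intro s
    simpa using hsum s x)⟩
  have hf : ∀ x j, (f x) j = L j x := fun _ _ => rfl
  have hn : ∀ x, ‖f x‖ ≤ ‖x‖ := by
    intro x
    apply lp.norm_le_of_forall_sum_le (by norm_num) (norm_nonneg _)
    intro s
    simpa [hf] using hsum s x
  let l : H →ₗ[ℝ] lp (fun _ : ℕ => B) 1 :=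
    { toFun := f
      map_add' := by
        intro x y
        apply lp.ext
        funext i
        rw [lp.coeFn_add, Pi.add_apply, hf, hf, hf, map_add]
      map_smul' := by
        intro a x
        apply lp.ext
        funext i
        rw [lp.coeFn_smul, Pi.smul_apply, hf, hf, map_smul, RingHom.id_apply] }
  refine ⟨l.mkContinuous 1 ?_, fun x i => rfl, ?_⟩
  · intro x
    rw [one_mul]; exact hn x
  · intro x
    exact hn x


/-- the weights -/
noncomputable def lam (j : ℕ) : ℝ := 1 - (1 / 2) ^ (j + 1)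

lemma lam_pos (j : ℕ) : 0 < lam j := by
  unfold lam
  have : ((1 : ℝ) / 2) ^ (j + 1) < 1 := pow_lt_one₀ (by norm_num) (by norm_num) (by omega)
  linarith

lemma lam_lt_one (j : ℕ) : lam j < 1 := by
  unfold lam
  have : (0 : ℝ) < (1 / 2) ^ (j + 1) := by positivity
  linarith

lemma lam_lt (j : ℕ) : lam j < lam (j + 1) := by
  unfold lam
  have : (0 : ℝ) < (1 / 2) ^ (j + 1) := by positivity
  rw [pow_succ (1 / 2 : ℝ) (j + 1)]
  linarith

lemma tendsto_lam : Tendsto lam atTop (𝓝 1) := by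
  have h : Tendsto (fun j : ℕ => ((1 : ℝ) / 2) ^ (j + 1)) atTop (𝓝 0) :=
    (tendsto_pow_atTop_nhds_zero_of_lt_one (by norm_num) (by norm_num)).comp (tendsto_add_atTop_nat 1)
  have h2 := h.const_sub 1
  rw [sub_zero] at h2
  exact h2

theorem exists_L1 {E : Set H} (hE : ∀ v ∈ E, ‖v‖ = 1)
    (hP : ∀ η : ℝ, η < 1 → ∀ᶠ m in atTop, ∀ v ∈ E, η ≤ ‖P m v‖) :
    ∃ T : H →L[ℝ] lp (fun _ : ℕ => G) 1, (∀ x, ‖T x‖ ≤ ‖x‖) ∧ (∀ v ∈ E, 1 ≤ ‖T v‖) ∧
      ∀ j, ∃ F : Submodule ℝ G, FiniteDimensional ℝ F ∧ ∀ x, (T x) j ∈ F := by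
  classical
  obtain ⟨m, hmono, hm⟩ := extraction_forall_of_eventually
    (P := fun j k => ∀ v ∈ E, lam j / lam (j + 1) ≤ ‖P k v‖)
    (fun j => hP _ (by rw [div_lt_one (lam_pos _)]; exact lam_lt j))
  have hpos : ∀ j, ∀ v ∈ E, 0 < ‖P (m j) v‖ := fun j v hv =>
    lt_of_lt_of_le (div_pos (lam_pos _) (lam_pos _)) (hm j v hv)
  -- the vectors
  let u : ℕ → H → H := fun j v => if v ∈ E then (lam j / ‖P (m j) v‖) • P (m j) v else 0
  have hu : ∀ j v, ‖u j v‖ ≤ 1 := by
    intro j v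
    by_cases hv : v ∈ E
    · simp only [u, if_pos hv]
      rw [norm_smul, Real.norm_of_nonneg (div_nonneg (lam_pos j).le (norm_nonneg _)),
        div_mul_cancel₀ _ (hpos j v hv).ne']
      exact (lam_lt_one j).le
    · simp [u, hv]
  let w : ℕ → H → H := fun j v => match j with
    | 0 => u 0 v
    | k + 1 => u (k + 1) v - u k v
  have hw : ∀ j v, ‖w j v‖ ≤ 2 := by
    intro j v
    match j with
    | 0 => exact (hu 0 v).trans (by norm_num)
    | k + 1 =>
      refine (norm_sub_le _ _).trans ?_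
      linarith [hu (k + 1) v, hu k v]
  have hwP : ∀ j v x, ⟪w j v, x⟫_ℝ = ⟪w j v, P (m j) x⟫_ℝ := by
    have huP : ∀ i j, i ≤ j → ∀ v x, ⟪u i v, x⟫_ℝ = ⟪u i v, P (m j) x⟫_ℝ := by
      intro i j hij v x
      by_cases hv : v ∈ E
      · simp only [u, if_pos hv]
        rw [real_inner_smul_left, real_inner_smul_left, inner_P, inner_P]
        congr 1
        apply Finset.sum_congr rfl
        intro t ht
        have : t < m j := lt_of_lt_of_le (Finset.mem_range.1 ht) (hmono.monotone hij)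
        rw [P_apply, if_pos this]
      · simp [u, hv]
    intro j v x
    match j with
    | 0 => exact huP 0 0 le_rfl v x
    | k + 1 =>
      show ⟪u (k + 1) v - u k v, x⟫_ℝ = ⟪u (k + 1) v - u k v, P (m (k + 1)) x⟫_ℝ
      rw [inner_sub_left, inner_sub_left, huP (k + 1) (k + 1) le_rfl v x,
        huP k (k + 1) (by omega) v x]
  choose L hL using fun j => mkG (w j) (hw j)
  -- main estimates
  have hM0 : ∀ x v, |⟪w 0 v, x⟫_ℝ| ≤ lam 0 * ‖P (m 0) x‖ := by
    intro x v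
    rw [hwP 0 v x]
    by_cases hv : v ∈ E
    · have h1 : ‖w 0 v‖ = lam 0 := by
        show ‖u 0 v‖ = lam 0
        simp only [u, if_pos hv]
        rw [norm_smul, Real.norm_of_nonneg (div_nonneg (lam_pos 0).le (norm_nonneg _)),
          div_mul_cancel₀ _ (hpos 0 v hv).ne']
      rw [← h1]
      exact abs_real_inner_le_norm _ _
    · have : w 0 v = 0 := by
        show u 0 v = 0
        simp [u, hv]
      rw [this]
      simp only [inner_zero_left, abs_zero]
      exact mul_nonneg (lam_pos 0).le (norm_nonneg _)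
  have hstep : ∀ j x v, lam j * ‖P (m j) x‖ + ⟪w (j + 1) v, x⟫_ℝ
      ≤ lam (j + 1) * ‖P (m (j + 1)) x‖ := by
    intro j x v
    have hmm : m j ≤ m (j + 1) := hmono.monotone (Nat.le_succ j)
    by_cases hv : v ∈ E
    · have h1 := level hmm (lam_pos j).le (lam_pos (j + 1)) (hE v hv) (hm j v hv) (hpos j v hv) x
      have h2 : w (j + 1) v = (lam (j + 1) / ‖P (m (j + 1)) v‖) • P (m (j + 1)) v
          - (lam j / ‖P (m j) v‖) • P (m j) v := by
        show u (j + 1) v - u j v = _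
        simp only [u, if_pos hv]
      rw [h2, inner_sub_left]
      linarith
    · have : w (j + 1) v = 0 := by
        show u (j + 1) v - u j v = 0
        simp [u, hv]
      rw [this, inner_zero_left, add_zero]
      exact mul_le_mul (lam_lt j).le (norm_P_mono hmm x) (norm_nonneg _) (lam_pos _).le
  have hstep' : ∀ j x v, lam j * ‖P (m j) x‖ + |⟪w (j + 1) v, x⟫_ℝ|
      ≤ lam (j + 1) * ‖P (m (j + 1)) x‖ := by
    intro j x v
    rcases abs_cases (⟪w (j + 1) v, x⟫_ℝ) with h | h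
    · rw [h.1]; exact hstep j x v
    · rw [h.1]
      have := hstep j (-x) v
      rwa [map_neg, norm_neg, map_neg, norm_neg, inner_neg_right] at this
  have hN0 : ∀ x, ‖L 0 x‖ ≤ lam 0 * ‖P (m 0) x‖ := by
    intro x
    apply lp.norm_le_of_forall_le (mul_nonneg (lam_pos 0).le (norm_nonneg _))
    intro v
    rw [hL]
    exact hM0 x v
  have hN : ∀ j x, lam j * ‖P (m j) x‖ + ‖L (j + 1) x‖ ≤ lam (j + 1) * ‖P (m (j + 1)) x‖ := by
    intro j x
    have h0 : 0 ≤ lam (j + 1) * ‖P (m (j + 1)) x‖ - lam j * ‖P (m j) x‖ := by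
      have := hstep' j x 0
      linarith [abs_nonneg (⟪w (j + 1) 0, x⟫_ℝ)]
    have : ‖L (j + 1) x‖ ≤ lam (j + 1) * ‖P (m (j + 1)) x‖ - lam j * ‖P (m j) x‖ := by
      apply lp.norm_le_of_forall_le h0
      intro v
      rw [hL]
      have := hstep' j x v
      rw [Real.norm_eq_abs]
      linarith
    linarith
  have hsum : ∀ n x, ∑ j ∈ Finset.range (n + 1), ‖L j x‖ ≤ lam n * ‖P (m n) x‖ := by
    intro n x
    induction n with
    | zero => simpa using hN0 x
    | succ n ih =>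
      rw [Finset.sum_range_succ]
      linarith [hN n x]
  have hsum' : ∀ n x, ∑ j ∈ Finset.range n, ‖L j x‖ ≤ ‖x‖ := by
    intro n x
    calc ∑ j ∈ Finset.range n, ‖L j x‖ ≤ ∑ j ∈ Finset.range (n + 1), ‖L j x‖ := by
          rw [Finset.sum_range_succ]; linarith [norm_nonneg (L n x)]
      _ ≤ lam n * ‖P (m n) x‖ := hsum n x
      _ ≤ 1 * ‖x‖ := mul_le_mul (lam_lt_one n).le (norm_P_le _ _) (norm_nonneg _) zero_le_one
      _ = ‖x‖ := one_mul _
  obtain ⟨T, hT, hT1⟩ := mkL1 L hsum'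
  refine ⟨T, hT1, ?_, ?_⟩
  · intro v hv
    -- lower bound
    have hlow : ∀ n, lam n * ‖P (m n) v‖ ≤ ‖T v‖ := by
      intro n
      have h1 : ∀ j, ⟪w j v, v⟫_ℝ ≤ ‖L j v‖ := by
        intro j
        have := lp.norm_apply_le_norm (by norm_num) (L j v) v
        rw [hL, Real.norm_eq_abs] at this
        exact (le_abs_self _).trans this
      have h2 : ∀ n, ∑ j ∈ Finset.range (n + 1), ⟪w j v, v⟫_ℝ = ⟪u n v, v⟫_ℝ := by
        intro n
        induction n with
        | zero => simp [w]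
        | succ n ih =>
          rw [Finset.sum_range_succ, ih]
          show ⟪u n v, v⟫_ℝ + ⟪u (n + 1) v - u n v, v⟫_ℝ = _
          rw [inner_sub_left]; ring
      have h3 : ⟪u n v, v⟫_ℝ = lam n * ‖P (m n) v‖ := by
        simp only [u, if_pos hv]
        rw [real_inner_smul_left, ← inner_P_P, real_inner_self_eq_norm_sq]
        have := (hpos n v hv).ne'
        field_simp
      have h4 : ∑ j ∈ Finset.range (n + 1), ‖L j v‖ ≤ ‖T v‖ := by
        have := lp.sum_rpow_le_norm_rpow (by norm_num) (T v) (Finset.range (n + 1))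
        simpa [hT] using this
      rw [← h3, ← h2]
      exact (Finset.sum_le_sum fun j _ => h1 j).trans h4
    have hlim : Tendsto (fun n => lam n * (lam n / lam (n + 1))) atTop (𝓝 (1 * (1 / 1))) :=
      tendsto_lam.mul (tendsto_lam.div (tendsto_lam.comp (tendsto_add_atTop_nat 1)) one_ne_zero)
    rw [div_one, one_mul] at hlim
    apply le_of_tendsto' hlim
    intro n
    exact (mul_le_mul_of_nonneg_left (hm n v hv) (lam_pos n).le).trans (hlow n)
  · intro j
    refine ⟨Submodule.span ℝ (Set.range fun i : Fin (m j) => L j (e i)), ?_, ?_⟩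
    · exact FiniteDimensional.span_of_finite ℝ (Set.finite_range _)
    · intro x
      rw [hT]
      have h1 : L j x = L j (P (m j) x) := by
        apply lp.ext
        funext v
        rw [hL, hL, hwP]
      rw [h1, P_eq, map_sum]
      apply Submodule.sum_mem
      intro i hi
      rw [map_smul]
      exact Submodule.smul_mem _ _ (Submodule.subset_span ⟨⟨i, Finset.mem_range.1 hi⟩, rfl⟩)


lemma tendsto_coord (a : H) : Tendsto (fun n => a n) atTop (𝓝 0) := by
  have h1 : Tendsto (fun n => ‖P (n + 1) a - P n a‖) atTop (𝓝 ‖a - a‖) :=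
    (((tendsto_P a).comp (tendsto_add_atTop_nat 1)).sub (tendsto_P a)).norm
  rw [sub_self, norm_zero] at h1
  rw [tendsto_zero_iff_norm_tendsto_zero]
  apply h1.congr
  intro n
  rw [P_eq, P_eq, Finset.sum_range_succ, add_sub_cancel_left, norm_smul, norm_e, mul_one]

lemma tendsto_dual (ψ : H →L[ℝ] ℝ) : Tendsto (fun n => ψ (e n)) atTop (𝓝 0) := by
  have h := tendsto_coord ((InnerProductSpace.toDual ℝ H).symm ψ)
  apply h.congr
  intro n
  have h1 : ψ (e n) = ⟪(InnerProductSpace.toDual ℝ H).symm ψ, e n⟫_ℝ := by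
    rw [InnerProductSpace.toDual_symm_apply]
  rw [h1, real_inner_comm, inner_e]

lemma tendsto_of_finiteDim {B : Type} [NormedAddCommGroup B] [NormedSpace ℝ B] (S : H →L[ℝ] B)
    (F : Submodule ℝ B) [FiniteDimensional ℝ F] (hS : ∀ x, S x ∈ F) :
    Tendsto (fun n => S (e n)) atTop (𝓝 0) := by
  let S' : H →L[ℝ] F := S.codRestrict F hS
  let b := Module.finBasis ℝ F
  let φ := b.equivFun.toContinuousLinearEquiv
  have h1 : Tendsto (fun n => φ (S' (e n))) atTop (𝓝 0) := by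
    rw [tendsto_pi_nhds]
    intro i
    exact tendsto_dual (((ContinuousLinearMap.proj i).comp
      (φ : F →L[ℝ] (Fin _ → ℝ))).comp S')
  have h2 : Tendsto (fun n => φ.symm (φ (S' (e n)))) atTop (𝓝 (φ.symm 0)) :=
    (φ.symm.continuous.tendsto 0).comp h1
  rw [map_zero] at h2
  have h3 : Tendsto (fun n => S' (e n)) atTop (𝓝 0) := by
    apply h2.congr
    intro n
    simp
  have h4 : Tendsto (fun n => ((S' (e n) : F) : B)) atTop (𝓝 ((0 : F) : B)) :=
    (continuous_subtype_val.tendsto 0).comp h3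
  exact h4

lemma norm_l1 {B : Type} [NormedAddCommGroup B] (y : lp (fun _ : ℕ => B) 1) :
    ‖y‖ = ∑' j, ‖y j‖ := by
  rw [lp.norm_eq_tsum_rpow (by norm_num)]
  simp

lemma summable_l1 {B : Type} [NormedAddCommGroup B] (y : lp (fun _ : ℕ => B) 1) :
    Summable fun j => ‖y j‖ := by
  have := (lp.memℓp y).summable (by norm_num)
  simpa using this

lemma l1_hump {B : Type} [NormedAddCommGroup B] (y z : lp (fun _ : ℕ => B) 1) (J : ℕ) {ε : ℝ}
    (hy : ‖y‖ - ε ≤ ∑ j ∈ Finset.range J, ‖y j‖) (hz : ∑ j ∈ Finset.range J, ‖z j‖ ≤ ε) :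
    ‖y‖ + ‖z‖ - 4 * ε ≤ ‖y + z‖ := by
  have hsy := summable_l1 y
  have hsz := summable_l1 z
  have hsyz := summable_l1 (y + z)
  have ey := hsy.sum_add_tsum_nat_add J
  have ez := hsz.sum_add_tsum_nat_add J
  have eyz := hsyz.sum_add_tsum_nat_add J
  rw [← norm_l1] at ey ez eyz
  have h1 : ∑ j ∈ Finset.range J, ‖y j‖ - ∑ j ∈ Finset.range J, ‖z j‖
      ≤ ∑ j ∈ Finset.range J, ‖(y + z) j‖ := by
    rw [← Finset.sum_sub_distrib]
    apply Finset.sum_le_sum
    intro j _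
    rw [lp.coeFn_add, Pi.add_apply]
    have := norm_sub_le (y j + z j) (z j)
    rw [add_sub_cancel_right] at this
    linarith
  have h2 : ∑' j, ‖z (j + J)‖ - ∑' j, ‖y (j + J)‖ ≤ ∑' j, ‖(y + z) (j + J)‖ := by
    have s1 := (summable_nat_add_iff J).2 hsy
    have s2 := (summable_nat_add_iff J).2 hsz
    have s3 := (summable_nat_add_iff J).2 hsyz
    rw [← s2.tsum_sub s1]
    apply (s2.sub s1).tsum_le_tsum _ s3
    intro j
    rw [lp.coeFn_add, Pi.add_apply]
    have := norm_sub_le (y (j + J) + z (j + J)) (y (j + J))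
    rw [add_sub_cancel_left] at this
    linarith
  linarith

theorem tendsto_l1 {B : Type} [NormedAddCommGroup B] [NormedSpace ℝ B]
    (T : H →L[ℝ] lp (fun _ : ℕ => B) 1)
    (h : ∀ j, Tendsto (fun n => (T (e n)) j) atTop (𝓝 0)) :
    Tendsto (fun n => ‖T (e n)‖) atTop (𝓝 0) := by
  by_contra hcon
  rw [Metric.tendsto_atTop] at hcon
  push Not at hcon
  obtain ⟨δ, hδ, hfreq⟩ := hcon
  have hfreq' : ∀ N, ∃ n, N ≤ n ∧ δ ≤ ‖T (e n)‖ := by
    intro N
    obtain ⟨n, hn, h1⟩ := hfreq N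
    refine ⟨n, hn, ?_⟩
    rw [Real.dist_eq, sub_zero, abs_of_nonneg (norm_nonneg _)] at h1
    exact h1
  have key : ∀ N : ℕ, ∃ (n0 : ℕ) (x : H), (∀ i, n0 ≤ i → x i = 0) ∧ ‖x‖ ^ 2 ≤ N ∧
      N * (δ / 2) ≤ ‖T x‖ := by
    intro N
    induction N with
    | zero => exact ⟨0, 0, by simp, by simp, by simp⟩
    | succ N ih =>
      obtain ⟨n0, x, hx0, hxn, hTx⟩ := ih
      set y := T x with hy
      have hsy := summable_l1 y
      -- choose J
      have hJ : ∃ J, ‖y‖ - δ / 8 ≤ ∑ j ∈ Finset.range J, ‖y j‖ := by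
        have := hsy.hasSum.tendsto_sum_nat
        rw [← norm_l1] at this
        have h2 := this.eventually_const_le (show ‖y‖ - δ / 8 < ‖y‖ by linarith)
        exact h2.exists
      obtain ⟨J, hJ⟩ := hJ
      have hz : ∀ᶠ n in atTop, ∑ j ∈ Finset.range J, ‖(T (e n)) j‖ ≤ δ / 8 := by
        have h3 : Tendsto (fun n => ∑ j ∈ Finset.range J, ‖(T (e n)) j‖) atTop
            (𝓝 (∑ j ∈ Finset.range J, ‖(0 : B)‖)) :=
          tendsto_finsetSum _ fun j _ => (h j).norm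
        simp only [norm_zero, Finset.sum_const_zero] at h3
        exact h3.eventually_le_const (by linarith)
      obtain ⟨M, hM⟩ := eventually_atTop.1 hz
      obtain ⟨n, hn, hδn⟩ := hfreq' (max M n0)
      refine ⟨n + 1, x + e n, ?_, ?_, ?_⟩
      · intro i hi
        rw [lp.coeFn_add, Pi.add_apply, e_apply, if_neg (by omega),
          hx0 i (le_trans (le_trans (le_max_right _ _) hn) (by omega))]
        ring
      · have h4 : ⟪x, e n⟫_ℝ = 0 := by
          rw [real_inner_comm, inner_e, hx0 n (le_trans (le_max_right _ _) hn)]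
        rw [norm_add_sq_real, h4, norm_e]
        push_cast
        linarith
      · have h5 := l1_hump y (T (e n)) J hJ (hM n (le_trans (le_max_left _ _) hn))
        rw [map_add]
        push_cast
        linarith
  -- contradiction
  obtain ⟨N, hN⟩ := exists_nat_gt (4 * ‖T‖ ^ 2 / δ ^ 2)
  obtain ⟨n0, x, _, hx1, hx2⟩ := key N
  have h6 : ‖T x‖ ≤ ‖T‖ * ‖x‖ := T.le_opNorm x
  have h7 : (N * (δ / 2)) ^ 2 ≤ ‖T‖ ^ 2 * N := by
    calc (N * (δ / 2)) ^ 2 ≤ (‖T‖ * ‖x‖) ^ 2 := by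
          apply pow_le_pow_left₀ (by positivity)
          exact hx2.trans h6
      _ = ‖T‖ ^ 2 * ‖x‖ ^ 2 := by ring
      _ ≤ ‖T‖ ^ 2 * N := mul_le_mul_of_nonneg_left hx1 (by positivity)
  rw [div_lt_iff₀ (by positivity)] at hN
  have hNpos : (0 : ℝ) < N := by
    rcases Nat.eq_zero_or_pos N with h0 | h0
    · rw [h0] at hN
      simp only [Nat.cast_zero, zero_mul] at hN
      exact absurd hN (not_lt.2 (by positivity))
    · exact_mod_cast h0
  have h8 : (N : ℝ) * (4 * ‖T‖ ^ 2) < N * (N * δ ^ 2) := mul_lt_mul_of_pos_left hN hNpos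
  nlinarith


theorem no_embed {A B : Type} [NormedAddCommGroup B] [NormedSpace ℝ B]
    (F : A → ℕ → Submodule ℝ B) (hF : ∀ α j, FiniteDimensional ℝ (F α j))
    (Z : Submodule ℝ (lp (fun _ : A => lp (fun _ : ℕ => B) 1) ∞))
    (h1 : ∀ z ∈ Z, ∀ α j, (z α) j ∈ F α j)
    (h2 : ∀ z ∈ Z, Tendsto (fun α => ‖z α‖) cofinite (𝓝 0))
    (T : H →ₗᵢ[ℝ] Z) : False := by
  let S : H →L[ℝ] (lp (fun _ : A => lp (fun _ : ℕ => B) 1) ∞) :=
    Z.subtypeL.comp T.toContinuousLinearMap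
  have hSn : ∀ x, ‖S x‖ = ‖x‖ := fun x => T.norm_map x
  have hSm : ∀ x, S x ∈ Z := fun x => (T x).2
  have hcomp : ∀ α, Tendsto (fun n => ‖(S (e n)) α‖) atTop (𝓝 0) := by
    intro α
    let Sα : H →L[ℝ] lp (fun _ : ℕ => B) 1 := (lp.evalCLM ℝ (fun _ : A => lp (fun _ : ℕ => B) 1) ∞ α).comp S
    have hSα : ∀ x, Sα x = (S x) α := fun x => rfl
    have := tendsto_l1 Sα (fun j => by
      let Sj : H →L[ℝ] B := (lp.evalCLM ℝ (fun _ : ℕ => B) 1 j).comp Sα
      have := hF α j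
      exact tendsto_of_finiteDim Sj (F α j) (fun x => h1 _ (hSm x) α j))
    exact this
  have h0 : Tendsto (fun α => ‖(S (e 0)) α‖) cofinite (𝓝 0) := h2 _ (hSm _)
  have hfin : {α | ¬ ‖(S (e 0)) α‖ < 1 / 10}.Finite := by
    have := h0.eventually_lt_const (show (0 : ℝ) < 1 / 10 by norm_num)
    rwa [eventually_cofinite] at this
  have hev : ∀ᶠ n in atTop, ∀ α ∈ {α | ¬ ‖(S (e 0)) α‖ < 1 / 10}, ‖(S (e n)) α‖ < 1 / 10 := by
    rw [eventually_all_finite hfin]
    intro α _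
    exact (hcomp α).eventually_lt_const (by norm_num)
  obtain ⟨n, hn1, hn2⟩ := (hev.and (eventually_ge_atTop 1)).exists
  have hbound : ‖S (e 0 + e n)‖ ≤ 1 + 1 / 10 := by
    apply lp.norm_le_of_forall_le (by norm_num)
    intro α
    rw [map_add, lp.coeFn_add, Pi.add_apply]
    refine (norm_add_le _ _).trans ?_
    have ha : ‖(S (e 0)) α‖ ≤ 1 := by
      have := lp.norm_apply_le_norm (by norm_num) (S (e 0)) α
      rwa [hSn, norm_e] at this
    have hb : ‖(S (e n)) α‖ ≤ 1 := by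
      have := lp.norm_apply_le_norm (by norm_num) (S (e n)) α
      rwa [hSn, norm_e] at this
    by_cases hα : ‖(S (e 0)) α‖ < 1 / 10
    · linarith
    · linarith [hn1 α hα]
  rw [hSn] at hbound
  have hsq : ‖e 0 + e n‖ ^ 2 = 2 := by
    rw [norm_add_sq_real, norm_e, norm_e, inner_e, e_apply, if_neg (by omega)]
    norm_num
  have h3 : ‖e 0 + e n‖ ^ 2 ≤ (1 + 1 / 10) ^ 2 :=
    pow_le_pow_left₀ (norm_nonneg _) hbound 2
  rw [hsq] at h3
  norm_num at h3

/-- compact sets are uniformly approximated by the truncations -/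
lemma compact_unif {K : Set H} (hK : IsCompact K) {δ η : ℝ} (hδ : 0 < δ) (hη : η < 1) :
    ∀ᶠ m in atTop, ∀ x ∈ K, ∀ y ∈ K, δ ≤ ‖x - y‖ → η * ‖x - y‖ ≤ ‖P m (x - y)‖ := by
  set ρ : ℝ := (1 - η) * δ / 6 with hρ
  have hρpos : 0 < ρ := by
    have : 0 < 1 - η := by linarith
    positivity
  obtain ⟨t, -, htf, hcov⟩ := hK.finite_cover_balls hρpos
  have hev : ∀ᶠ m in atTop, ∀ p ∈ t, ‖P m p - p‖ < ρ := by
    rw [eventually_all_finite htf]
    intro p _
    have := (tendsto_P p).sub_const p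
    rw [sub_self] at this
    have h2 := this.norm
    rw [norm_zero] at h2
    exact h2.eventually_lt_const hρpos
  filter_upwards [hev] with m hm
  have hK3 : ∀ x ∈ K, ‖x - P m x‖ ≤ 3 * ρ := by
    intro x hx
    have h1 := hcov hx
    simp only [Set.mem_iUnion, Metric.mem_ball, dist_eq_norm] at h1
    obtain ⟨p, hp, hxp⟩ := h1
    have h2 : x - P m x = (x - p) - (P m p - p) - P m (x - p) := by
      rw [map_sub]; abel
    rw [h2]
    calc ‖(x - p) - (P m p - p) - P m (x - p)‖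
        ≤ ‖(x - p) - (P m p - p)‖ + ‖P m (x - p)‖ := norm_sub_le _ _
      _ ≤ (‖x - p‖ + ‖P m p - p‖) + ‖x - p‖ := by
          gcongr
          · exact norm_sub_le _ _
          · exact norm_P_le _ _
      _ ≤ 3 * ρ := by linarith [hm p hp]
  intro x hx y hy hxy
  have h1 : ‖x - y‖ ≤ ‖P m (x - y)‖ + ‖x - P m x‖ + ‖y - P m y‖ := by
    have h2 : x - y = P m (x - y) + (x - P m x) - (y - P m y) := by
      rw [map_sub]; abel
    calc ‖x - y‖ = ‖P m (x - y) + (x - P m x) - (y - P m y)‖ := by rw [← h2]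
      _ ≤ ‖P m (x - y) + (x - P m x)‖ + ‖y - P m y‖ := norm_sub_le _ _
      _ ≤ _ := by gcongr; exact norm_add_le _ _
  have h3 := hK3 x hx
  have h4 := hK3 y hy
  have h5 : 6 * ρ = (1 - η) * δ := by rw [hρ]; ring
  have h6 : (1 - η) * δ ≤ (1 - η) * ‖x - y‖ :=
    mul_le_mul_of_nonneg_left hxy (by linarith)
  linarith

lemma separable_H : TopologicalSpace.SeparableSpace H := by
  rw [← TopologicalSpace.isSeparable_univ_iff]
  have h1 : TopologicalSpace.IsSeparable
      (closure ((Submodule.span ℝ (Set.range e) : Submodule ℝ H) : Set H)) := by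
    apply TopologicalSpace.IsSeparable.closure
    apply TopologicalSpace.IsSeparable.span
    exact (Set.countable_range _).isSeparable
  apply h1.mono
  intro x _
  apply mem_closure_of_tendsto (tendsto_P x)
  filter_upwards with m
  rw [P_eq]
  exact Submodule.sum_mem _ fun i _ => Submodule.smul_mem _ _ (Submodule.subset_span ⟨i, rfl⟩)

/-- the closed subspace -/
def Zs {A B : Type} [NormedAddCommGroup B] [NormedSpace ℝ B] (F : A → ℕ → Submodule ℝ B) :
    Submodule ℝ (lp (fun _ : A => lp (fun _ : ℕ => B) 1) ∞) where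
  carrier := {z | (∀ α j, (z α) j ∈ F α j) ∧ Tendsto (fun α => ‖z α‖) cofinite (𝓝 0)}
  add_mem' := by
    rintro a b ⟨ha1, ha2⟩ ⟨hb1, hb2⟩
    refine ⟨fun α j => ?_, ?_⟩
    · exact (F α j).add_mem (ha1 α j) (hb1 α j)
    · have h := ha2.add hb2
      rw [add_zero] at h
      refine squeeze_zero (fun α => norm_nonneg _) (fun α => ?_) h
      exact norm_add_le _ _
  zero_mem' := by
    refine ⟨fun α j => (F α j).zero_mem, ?_⟩
    have : (fun α => ‖((0 : lp (fun _ : A => lp (fun _ : ℕ => B) 1) ∞) α)‖) = fun _ => (0 : ℝ) := by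
      funext α
      rw [lp.coeFn_zero]; simp
    rw [this]
    exact tendsto_const_nhds
  smul_mem' := by
    rintro c a ⟨ha1, ha2⟩
    refine ⟨fun α j => ?_, ?_⟩
    · exact (F α j).smul_mem c (ha1 α j)
    · have h := ha2.const_mul ‖c‖
      rw [mul_zero] at h
      apply h.congr
      intro α
      rw [lp.coeFn_smul, Pi.smul_apply, norm_smul]

lemma isClosed_Zs {A B : Type} [NormedAddCommGroup B] [NormedSpace ℝ B]
    (F : A → ℕ → Submodule ℝ B) (hF : ∀ α j, FiniteDimensional ℝ (F α j)) :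
    IsClosed ((Zs F : Submodule ℝ (lp (fun _ : A => lp (fun _ : ℕ => B) 1) ∞)) :
      Set (lp (fun _ : A => lp (fun _ : ℕ => B) 1) ∞)) := by
  apply isClosed_of_closure_subset
  intro z hz
  refine ⟨fun α j => ?_, ?_⟩
  · have := hF α j
    have hcl : IsClosed ((F α j : Submodule ℝ B) : Set B) := Submodule.closed_of_finiteDimensional _
    let E1 := (lp.evalCLM ℝ (fun _ : ℕ => B) 1 j).comp
      (lp.evalCLM ℝ (fun _ : A => lp (fun _ : ℕ => B) 1) ∞ α)
    have hcl2 : IsClosed (E1 ⁻¹' (F α j : Set B)) := hcl.preimage E1.continuous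
    exact hcl2.closure_subset_iff.2 (fun y hy => hy.1 α j) hz
  · rw [Metric.tendsto_nhds]
    intro ε hε
    rw [Metric.mem_closure_iff] at hz
    obtain ⟨y, hy, hzy⟩ := hz (ε / 2) (by positivity)
    have h1 := hy.2.eventually_lt_const (show (0 : ℝ) < ε / 2 by positivity)
    filter_upwards [h1] with α hα
    rw [dist_zero_right, norm_norm]
    have h2 : ‖(z - y) α‖ ≤ ‖z - y‖ := lp.norm_apply_le_norm (by norm_num) (z - y) α
    rw [dist_eq_norm] at hzy
    have h3 : ‖z α‖ ≤ ‖(z - y) α‖ + ‖y α‖ := by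
      have : z α = (z - y) α + y α := by
        rw [lp.coeFn_sub, Pi.sub_apply, sub_add_cancel]
      calc ‖z α‖ = ‖(z - y) α + y α‖ := by rw [← this]
        _ ≤ _ := norm_add_le _ _
    linarith


theorem main (K : Set H) (hK : IsCompact K) :
    ∃ (Z : Type) (_ : NormedAddCommGroup Z) (_ : NormedSpace ℝ Z) (_ : CompleteSpace Z),
      (∃ f : K → Z, Isometry f) ∧ ((H →ₗᵢ[ℝ] Z) → False) := by
  classical
  obtain ⟨D0, hD0⟩ := (Metric.isBounded_iff).1 hK.isBounded
  set D : ℝ := max D0 1 with hD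
  have hDpos : 0 < D := lt_of_lt_of_le one_pos (le_max_right _ _)
  have hDK : ∀ x ∈ K, ∀ y ∈ K, ‖x - y‖ ≤ D := by
    intro x hx y hy
    rw [← dist_eq_norm]
    exact (hD0 hx hy).trans (le_max_left _ _)
  let δ : ℕ → ℝ := fun k => D * (1 / 2) ^ k
  have hδ : ∀ k, 0 < δ k := fun k => by positivity
  let E : ℕ → Set H := fun k => {v | ∃ x ∈ K, ∃ y ∈ K, δ (k + 1) ≤ ‖x - y‖ ∧
    v = (1 / ‖x - y‖) • (x - y)}
  have hE : ∀ k, ∀ v ∈ E k, ‖v‖ = 1 := by
    rintro k v ⟨x, hx, y, hy, hxy, rfl⟩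
    have hpos : 0 < ‖x - y‖ := lt_of_lt_of_le (hδ _) hxy
    rw [norm_smul, Real.norm_of_nonneg (by positivity)]
    field_simp
  have hP : ∀ k, ∀ η : ℝ, η < 1 → ∀ᶠ m in atTop, ∀ v ∈ E k, η ≤ ‖P m v‖ := by
    intro k η hη
    filter_upwards [compact_unif hK (hδ (k + 1)) hη] with m hm
    rintro v ⟨x, hx, y, hy, hxy, rfl⟩
    have hpos : 0 < ‖x - y‖ := lt_of_lt_of_le (hδ _) hxy
    have h1 := hm x hx y hy hxy
    rw [map_smul, norm_smul, Real.norm_of_nonneg (by positivity), one_div, inv_mul_eq_div,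
      le_div_iff₀ hpos]
    exact h1
  choose T hT1 hT2 hT3 using fun k => exists_L1 (hE k) (hP k)
  choose F hFd hFm using hT3
  choose t htK htf htc using fun k => hK.finite_cover_balls (hδ k)
  -- the embedding
  have hbd : ∀ x : H, ∀ α : ℕ × H,
      ‖(if α.2 ∈ t α.1 then T α.1 (retr (2 * δ α.1) (x - α.2)) else 0 :
        lp (fun _ : ℕ => G) 1)‖ ≤ 2 * δ α.1 := by
    intro x α
    split_ifs
    · exact (hT1 _ _).trans (norm_retr_le (by have := hδ α.1; linarith) _)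
    · rw [norm_zero]; have := hδ α.1; linarith
  have hδD : ∀ k, δ k ≤ D := by
    intro k
    calc D * (1 / 2) ^ k ≤ D * 1 :=
          mul_le_mul_of_nonneg_left (pow_le_one₀ (by norm_num) (by norm_num)) hDpos.le
      _ = D := mul_one D
  let Φ : H → lp (fun _ : ℕ × H => lp (fun _ : ℕ => G) 1) ∞ := fun x =>
    ⟨fun α => if α.2 ∈ t α.1 then T α.1 (retr (2 * δ α.1) (x - α.2)) else 0,
      memℓp_infty ⟨2 * D, by
        rintro _ ⟨α, rfl⟩
        exact (hbd x α).trans (by have := hδD α.1; linarith)⟩⟩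
  have hΦ : ∀ x α, (Φ x) α = if α.2 ∈ t α.1 then T α.1 (retr (2 * δ α.1) (x - α.2)) else 0 :=
    fun _ _ => rfl
  let F' : ℕ × H → ℕ → Submodule ℝ G := fun α j => F α.1 j
  have hF' : ∀ α j, FiniteDimensional ℝ (F' α j) := fun α j => hFd α.1 j
  have hmem : ∀ x, Φ x ∈ Zs F' := by
    intro x
    refine ⟨fun α j => ?_, ?_⟩
    · rw [hΦ]
      split_ifs
      · exact hFm α.1 j _
      · rw [lp.coeFn_zero]; exact (F' α j).zero_mem
    · rw [Metric.tendsto_nhds]
      intro ε hε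
      have hlim : Tendsto (fun k => 2 * δ k) atTop (𝓝 0) := by
        have := ((tendsto_pow_atTop_nhds_zero_of_lt_one (r := (1 / 2 : ℝ)) (by norm_num)
          (by norm_num)).const_mul D).const_mul 2
        simpa [δ] using this
      obtain ⟨N, hN⟩ := eventually_atTop.1 (hlim.eventually_lt_const hε)
      rw [eventually_cofinite]
      have hfin : (⋃ k ∈ Finset.range N, ({k} : Set ℕ) ×ˢ t k).Finite := by
        apply Set.Finite.biUnion (Finset.finite_toSet _)
        intro k _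
        exact (Set.finite_singleton k).prod (htf k)
      apply hfin.subset
      rintro ⟨k, p⟩ hα
      simp only [Set.mem_ofPred_eq, dist_zero_right, norm_norm, not_lt] at hα
      have hk : k < N := by
        by_contra hcon
        have h1 := hN k (not_lt.1 hcon)
        have h2 := hbd x (k, p)
        rw [hΦ] at hα
        simp only at h2 hα
        linarith
      have hp : p ∈ t k := by
        by_contra hcon
        rw [hΦ, if_neg hcon, norm_zero] at hα
        linarith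
      simp only [Set.mem_iUnion, Finset.mem_range]
      exact ⟨k, hk, rfl, hp⟩
  have hcl := isClosed_Zs F' hF'
  refine ⟨Zs F', inferInstance, inferInstance, hcl.completeSpace_coe,
    ⟨fun x => ⟨Φ x, hmem x⟩, ?_⟩, ?_⟩
  · apply Isometry.of_dist_eq
    rintro ⟨x, hx⟩ ⟨y, hy⟩
    show dist (Φ x) (Φ y) = dist x y
    rw [dist_eq_norm, dist_eq_norm]
    apply le_antisymm
    · apply lp.norm_le_of_forall_le (norm_nonneg _)
      intro α
      rw [lp.coeFn_sub, Pi.sub_apply, hΦ, hΦ]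
      split_ifs
      · rw [← map_sub]
        refine (hT1 _ _).trans ((retr_lip (by have := hδ α.1; linarith) _ _).trans ?_)
        rw [sub_sub_sub_cancel_right]
      · rw [sub_zero, norm_zero]; exact norm_nonneg _
    · rcases eq_or_lt_of_le (norm_nonneg (x - y)) with h0 | hpos
      · rw [← h0]; exact norm_nonneg _
      · have hle := hDK x hx y hy
        obtain ⟨k, hk1, hk2⟩ := exists_nat_pow_near_of_lt_one (x := ‖x - y‖ / D) (y := 1 / 2)
          (by positivity) ((div_le_one hDpos).2 hle) (by norm_num) (by norm_num)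
        rw [lt_div_iff₀ hDpos] at hk1
        rw [div_le_iff₀ hDpos] at hk2
        have hk1' : δ (k + 1) ≤ ‖x - y‖ := by
          show D * (1 / 2) ^ (k + 1) ≤ ‖x - y‖
          linarith
        have hk2' : ‖x - y‖ ≤ δ k := by
          show ‖x - y‖ ≤ D * (1 / 2) ^ k
          linarith
        have h1 := htc k hx
        simp only [Set.mem_iUnion, Metric.mem_ball, dist_eq_norm] at h1
        obtain ⟨p, hp, hxp⟩ := h1
        have hx2 : ‖x - p‖ ≤ 2 * δ k := by linarith [hδ k]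
        have hy2 : ‖y - p‖ ≤ 2 * δ k := by
          have : y - p = (x - p) - (x - y) := by abel
          rw [this]
          refine (norm_sub_le _ _).trans ?_
          linarith
        have h2 := lp.norm_apply_le_norm (by norm_num) (Φ x - Φ y) (k, p)
        rw [lp.coeFn_sub, Pi.sub_apply, hΦ, hΦ] at h2
        simp only [if_pos hp] at h2
        rw [retr_eq hx2, retr_eq hy2, ← map_sub, sub_sub_sub_cancel_right] at h2
        have h3 := hT2 k ((1 / ‖x - y‖) • (x - y)) ⟨x, hx, y, hy, hk1', rfl⟩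
        rw [map_smul, norm_smul, Real.norm_of_nonneg (by positivity), one_div, inv_mul_eq_div,
          le_div_iff₀ hpos, one_mul] at h3
        exact h3.trans h2
  · intro T0
    exact no_embed F' hF' (Zs F') (fun z hz => hz.1) (fun z hz => hz.2) T0

/-- The negation of the preceding statement: Every separable real Banach space X has a compact subset K such that any real Banach space Z into which K embeds isometrically (as a metric space) admits a linear isometric embedding of X. -/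
theorem result :
    ¬ (∀ (X : Type) [NormedAddCommGroup X] [NormedSpace ℝ X] [CompleteSpace X]
      [TopologicalSpace.SeparableSpace X],
      ∃ K : Set X, IsCompact K ∧
        ∀ (Z : Type) [NormedAddCommGroup Z] [NormedSpace ℝ Z] [CompleteSpace Z],
          (∃ f : K → Z, Isometry f) → Nonempty (X →ₗᵢ[ℝ] Z)) := by
  intro hall
  have hsep : TopologicalSpace.SeparableSpace H := separable_H
  obtain ⟨K, hK, hZ⟩ := hall H
  obtain ⟨Z, i1, i2, i3, hf, hno⟩ := main K hK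
  obtain ⟨T⟩ := hZ Z hf
  exact hno T

end Pool.Agent.S04332
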