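import Pool.Statements.S04336
import Pool.Agent.Helper540.HC.CubeMain

set_option autoImplicit false
open Pool Pool.MP_ec81d5_an

namespace Pool.Agent.S04336

/-- The negation of the preceding statement: For each real p>1 there is C>0 such that for all n, d and every real function on the n-cube of degree at most d, the p-norm of its Laplacian (multiplying each Walsh coefficient by ∣S∣) is at most C·d times the p-norm of the function. -/
theorem result :
    ¬ (∀ p : ℝ, 1 < p → ∃ C : ℝ, 0 < C ∧
      ∀ n d : ℕ, ∀ c : Finset (Fin n) → ℝ,
        (∀ S : Finset (Fin n), d < S.card → c S = 0) →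
        (∑ x : Fin n → Bool,
            |∑ S : Finset (Fin n), (S.card : ℝ) * c S *
                ∏ i ∈ S, (if x i then (1 : ℝ) else -1)| ^ p)
          ≤ (C * (d : ℝ)) ^ p *
            ∑ x : Fin n → Bool,
              |∑ S : Finset (Fin n), c S *
                  ∏ i ∈ S, (if x i then (1 : ℝ) else -1)| ^ p) := by
  intro h
  obtain ⟨C, hC, hall⟩ := h (3 / 2) (by norm_num)
  obtain ⟨n, d, -, -, c, hc, hlt⟩ := HC.cube_main (3 / 2) (by norm_num) (by norm_num) C hC
  exact absurd (hall n d c hc) (not_le.2 hlt)

end Pool.Agent.S04336
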