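import Pool.Statements.S04342
import Pool.Agent.MP27fa52.Package
import Pool.Agent.MP6c344.Half
import Pool.Agent.MP6c344.Laplace

set_option autoImplicit false
open MeasureTheory
open Pool Pool.MP_ed36af_an

namespace Pool.Agent.S04342

/-- The negation of the preceding statement: For a continuous weight ω on [0,∞) with L^1(ω) semisimple (Laplace transform injective), every closed ideal of L^1(ω) with α(I)=0 and no common Laplace-transform zero on the character half-plane is all of L^1(ω). -/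
theorem result :
    ¬ (∀ ω : ℝ → ℝ,
    ContinuousOn ω (Set.Ici 0) →
    (∀ t : ℝ, 0 ≤ t → 0 < ω t) →
    (∀ s t : ℝ, 0 ≤ s → 0 ≤ t → ω (s + t) ≤ ω s * ω t) →
    (∀ f : ℝ → ℂ,
      Integrable (fun t => (ω t : ℂ) * f t) (volume.restrict (Set.Ioi (0:ℝ))) →
      (∀ z : ℂ, (∃ C : ℝ, ∀ t : ℝ, 0 ≤ t → Real.exp (-z.re * t) ≤ C * ω t) →
          ∫ t in Set.Ioi (0:ℝ), f t * Complex.exp (-(z * (t : ℂ))) = 0) →
      f =ᵐ[volume.restrict (Set.Ioi (0:ℝ))] 0) →
    ∀ I : Set (ℝ → ℂ),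
      (∀ f ∈ I, Integrable (fun t => (ω t : ℂ) * f t) (volume.restrict (Set.Ioi (0:ℝ)))) →
      (0 : ℝ → ℂ) ∈ I →
      (∀ f ∈ I, ∀ g ∈ I, f + g ∈ I) →
      (∀ c : ℂ, ∀ f ∈ I, c • f ∈ I) →
      (∀ f ∈ I, ∀ g : ℝ → ℂ, g =ᵐ[volume.restrict (Set.Ioi (0:ℝ))] f → g ∈ I) →
      (∀ f ∈ I, ∀ g : ℝ → ℂ,
        Integrable (fun t => (ω t : ℂ) * g t) (volume.restrict (Set.Ioi (0:ℝ))) →
        (fun t : ℝ => ∫ s in Set.Ioo (0:ℝ) t, g s * f (t - s)) ∈ I) →
      (∀ f : ℝ → ℂ,
        Integrable (fun t => (ω t : ℂ) * f t) (volume.restrict (Set.Ioi (0:ℝ))) →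
        (∀ ε : ℝ, 0 < ε → ∃ g ∈ I, ∫ t in Set.Ioi (0:ℝ), ‖f t - g t‖ * ω t < ε) →
        f ∈ I) →
      (∀ ε : ℝ, 0 < ε → ∃ f ∈ I, ¬ (f =ᵐ[volume.restrict (Set.Ioo (0:ℝ) ε)] 0)) →
      (∀ z : ℂ, (∃ C : ℝ, ∀ t : ℝ, 0 ≤ t → Real.exp (-z.re * t) ≤ C * ω t) →
        ∃ f ∈ I, ∫ t in Set.Ioi (0:ℝ), f t * Complex.exp (-(z * (t : ℂ))) ≠ 0) →
      ∀ f : ℝ → ℂ,
        Integrable (fun t => (ω t : ℂ) * f t) (volume.restrict (Set.Ioi (0:ℝ))) →
        f ∈ I) := by
  intro H
  obtain ⟨w, f, g, w1, w2, w5, w7, f1, f2, f3, f4, fL, g1, ⟨C, g2⟩, g3, g4⟩ :=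
    MP27fa52.semisimple_package
  have hω : ContinuousOn w (Set.Ici 0) := w1.continuousOn
  have w0 : ∀ t, 0 < w t := fun t => lt_of_lt_of_le one_pos (w2 t)
  have hpos : ∀ t, 0 ≤ t → 0 < w t := fun t _ => w0 t
  have hsub : ∀ s t, 0 ≤ s → 0 ≤ t → w (s + t) ≤ w s * w t := fun s t _ _ => w5 s t
  have hgC : ∀ t, 0 ≤ t → ‖g t‖ ≤ C * w t := fun t _ => g2 t
  have htr : ∀ s > 0, (fun t => f (t - s)) ∈ MP6c344.Ann w g := fun s hs =>
    MP6c344.Ann_translate hω hpos hsub f1 f2 f4 g3 s hs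
  have hxx : Integrable (fun t => (w t : ℂ) * MP6c344.xx t) (volume.restrict (Set.Ioi (0:ℝ))) := by
    refine Integrable.mono' (MP6c344.xx_int w1) ?_ ?_
    · exact ((Complex.measurable_ofReal.comp w1.measurable).mul
        MP6c344.xx_meas).aestronglyMeasurable
    · filter_upwards with t
      rw [norm_mul, Complex.norm_real, Real.norm_of_nonneg (w0 t).le, mul_comm]
  have key := H w hω hpos hsub ?_ (MP6c344.Ann w g) (fun h hh => hh.1) MP6c344.Ann_zero
    (fun a ha b hb => MP6c344.Ann_add hω hpos hsub g1 hgC ha hb)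
    (fun c a ha => MP6c344.Ann_smul c ha)
    (fun a ha b hb => MP6c344.Ann_congr ha hb)
    (fun a ha k hk => MP6c344.Ann_conv hω hpos hsub g1 hgC ha hk) ?_ ?_ ?_ MP6c344.xx hxx
  · have := key.2 0 le_rfl
    simp only [add_zero] at this
    exact g4 this
  · -- semisimplicity
    intro h h1 h2
    have hm := MP6c344.aesm hω hpos h1
    have hi : Integrable h (volume.restrict (Set.Ioi (0:ℝ))) := by
      refine Integrable.mono' h1.norm hm ?_
      filter_upwards with t
      rw [norm_mul, Complex.norm_real, Real.norm_of_nonneg (w0 t).le]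
      nlinarith [w2 t, norm_nonneg (h t)]
    refine MP6c344.laplace_inj h hi fun z hz => h2 z ⟨1, fun t ht => ?_⟩
    rw [one_mul]
    refine le_trans (Real.exp_le_one_iff.2 ?_) (w2 t)
    nlinarith
  · -- closedness
    intro a ha happ
    refine MP6c344.Ann_closed hω hpos hsub g1 hgC ha fun ε hε => ?_
    obtain ⟨b, hb, hlt⟩ := happ ε hε
    refine ⟨b, hb, ?_⟩
    refine lt_of_eq_of_lt ?_ hlt
    congr 1
    ext t
    rw [norm_mul, Complex.norm_real, Real.norm_of_nonneg (w0 t).le, mul_comm]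
  · -- support
    intro ε hε
    have hs : 0 < min ε 1 / 2 := by
      have : 0 < min ε 1 := lt_min hε one_pos
      linarith
    refine ⟨_, htr (min ε 1 / 2) hs, fun hae => ?_⟩
    rw [Filter.EventuallyEq, ae_restrict_iff' measurableSet_Ioo] at hae
    have hsub' : Set.Ioo (min ε 1 / 2) (min ε 1) ⊆
        {t | ¬ (t ∈ Set.Ioo 0 ε → f (t - min ε 1 / 2) = (0 : ℝ → ℂ) t)} := by
      intro t ht
      rw [Set.mem_ofPred_eq]
      intro h1
      have h3 : min ε 1 ≤ 1 := min_le_right _ _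
      have h4 : min ε 1 ≤ ε := min_le_left _ _
      exact f3 (t - min ε 1 / 2) (by linarith [ht.1]) (by linarith [ht.2])
        (h1 ⟨by linarith [ht.1], by linarith [ht.2]⟩)
    have h0 : volume {t | ¬ (t ∈ Set.Ioo 0 ε → f (t - min ε 1 / 2) = (0 : ℝ → ℂ) t)} = 0 := hae
    have h1 := measure_mono_null hsub' h0
    rw [Real.volume_Ioo, ENNReal.ofReal_eq_zero] at h1
    linarith
  · -- hull
    rintro z ⟨D, hD⟩
    have hD0 : 0 < D := by
      have h1 := hD 0 le_rfl
      have h2 : 0 < D * w 0 := lt_of_lt_of_le (Real.exp_pos _) h1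
      exact pos_of_mul_pos_left h2 (w0 0).le
    have hz : 0 ≤ z.re := by
      have h1 : Filter.Tendsto (fun t : ℝ => Real.log D / t + Real.log (w t) / t) Filter.atTop
          (nhds (0 + 0)) := (tendsto_const_nhds.div_atTop Filter.tendsto_id).add w7
      rw [add_zero] at h1
      have h2 : ∀ᶠ t : ℝ in Filter.atTop, -z.re ≤ Real.log D / t + Real.log (w t) / t := by
        filter_upwards [Filter.eventually_gt_atTop 0] with t ht
        have h3 := Real.log_le_log (Real.exp_pos _) (hD t ht.le)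
        rw [Real.log_exp, Real.log_mul hD0.ne' (w0 t).ne'] at h3
        rw [← add_div, le_div_iff₀ ht]
        exact h3
      have := ge_of_tendsto h1 h2
      linarith
    refine ⟨_, htr 1 one_pos, ?_⟩
    have e : ∫ t in Set.Ioi (0:ℝ), f (t - 1) * Complex.exp (-(z * (t : ℂ)))
        = Complex.exp (-z) * ∫ t in Set.Ioi (0:ℝ), f t * Complex.exp (-(z * (t : ℂ))) := by
      rw [← integral_const_mul, ← MP6c344.half_integral (F := fun t : ℝ => f (t - 1) * Complex.exp (-(z * (t : ℂ))))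
        (fun t ht => by simp only [f2 (t - 1) (by linarith), zero_mul]),
        ← MP6c344.half_integral (F := fun t : ℝ => Complex.exp (-z) * (f t * Complex.exp (-(z * (t : ℂ)))))
        (fun t ht => by simp only [f2 t ht, zero_mul, mul_zero]),
        ← integral_sub_right_eq_self (fun t : ℝ => Complex.exp (-z) * (f t * Complex.exp (-(z * (t : ℂ))))) 1]
      congr 1
      ext t
      have : Complex.exp (-(z * (t : ℂ))) = Complex.exp (-z) * Complex.exp (-(z * ((t - 1 : ℝ) : ℂ))) := by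
        rw [← Complex.exp_add]
        congr 1
        push_cast
        ring
      rw [this]
      ring
    rw [e]
    exact mul_ne_zero (Complex.exp_ne_zero _) (fL z hz)

end Pool.Agent.S04342
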