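import Pool.Statements.S04344
import Pool.Agent.Helper983.GC.Final

set_option autoImplicit false
open Pool Pool.MP_ed68f3_an

namespace Pool.Agent.S04344

/-- The negation of the preceding statement: Every separable real Banach space X contains a compact convex set K with 0 in K, whose linear span is dense in X, and which is a Lipschitz retract of X: some Lipschitz map X → X lands in K and fixes K pointwise. -/
theorem result :
    ¬ (∀ (X : Type) [NormedAddCommGroup X] [NormedSpace ℝ X] [CompleteSpace X]
      [TopologicalSpace.SeparableSpace X],
      ∃ K : Set X, IsCompact K ∧ Convex ℝ K ∧ (0 : X) ∈ K ∧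
        Dense ((Submodule.span ℝ K : Submodule ℝ X) : Set X) ∧
        ∃ r : X → X, (∃ C : NNReal, LipschitzWith C r) ∧
          (∀ x, r x ∈ K) ∧ (∀ x ∈ K, r x = x)) := by
  exact Pool.Agent.Helper983.GC.final

end Pool.Agent.S04344
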