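import Pool.Statements.S04345

set_option autoImplicit false
open Complex Filter Topology Metric
open Pool Pool.MP_ed6c6b_an
open Finset (range Ico)

namespace Pool.Agent.S04345

/-- tail polynomials of a finitely supported sequence -/
noncomputable def gtail (N : ℕ) (a : ℕ → ℂ) (k : ℕ) (w : ℂ) : ℂ :=
  ∑ j ∈ range (N + 1), a (k + j) * w ^ j

lemma gtail_step (N : ℕ) (a : ℕ → ℂ) (ha : ∀ m, N < m → a m = 0) (k : ℕ) (w : ℂ) :
    gtail N a k w = a k + w * gtail N a (k + 1) w := by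
  unfold gtail
  rw [Finset.sum_range_succ', Finset.sum_range_succ (n := N)]
  have h1 : a (k + 1 + N) = 0 := ha _ (by omega)
  rw [h1, zero_mul, add_zero, add_zero, pow_zero, mul_one, add_comm, Finset.mul_sum]
  congr 1
  apply Finset.sum_congr rfl
  intro j _
  rw [show k + (j + 1) = k + 1 + j by ring]
  ring

/-- the analytic completion of the harmonic majorant of `|f|^2` -/
noncomputable def Ufun (N : ℕ) (a : ℕ → ℂ) (w : ℂ) : ℂ :=
  ∑ k ∈ range (N + 1), (starRingEnd ℂ) (a k) * (2 * gtail N a k w - a k)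

lemma re_U_ge (N : ℕ) (a : ℕ → ℂ) (ha : ∀ m, N < m → a m = 0) (w : ℂ) (hw : ‖w‖ ≤ 1) :
    ‖gtail N a 0 w‖ ^ 2 ≤ (Ufun N a w).re := by
  have hterm : ∀ k, ((starRingEnd ℂ) (a k) * (2 * gtail N a k w - a k)).re
      = ‖gtail N a k w‖ ^ 2 - ‖w‖ ^ 2 * ‖gtail N a (k + 1) w‖ ^ 2 := by
    intro k
    have h := gtail_step N a ha k w
    have h2 : w * gtail N a (k + 1) w = gtail N a k w - a k := by rw [h]; ring
    have h3 : ‖w‖ ^ 2 * ‖gtail N a (k + 1) w‖ ^ 2 = ‖gtail N a k w - a k‖ ^ 2 := by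
      rw [← h2, norm_mul, mul_pow]
    rw [h3]
    simp only [← Complex.normSq_eq_norm_sq, Complex.normSq_apply, Complex.mul_re, Complex.mul_im,
      Complex.sub_re, Complex.sub_im, Complex.conj_re, Complex.conj_im]
    simp
    ring
  have hsum : ∀ n, (∑ k ∈ range (n + 1), ((starRingEnd ℂ) (a k) * (2 * gtail N a k w - a k)).re)
      ≥ ‖gtail N a 0 w‖ ^ 2 - ‖w‖ ^ 2 * ‖gtail N a (n + 1) w‖ ^ 2 := by
    intro n
    induction n with
    | zero => simp [hterm]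
    | succ n ih =>
      rw [Finset.sum_range_succ, hterm]
      have h0 : 0 ≤ (1 - ‖w‖ ^ 2) * ‖gtail N a (n + 1) w‖ ^ 2 := by
        apply mul_nonneg
        · nlinarith [norm_nonneg w]
        · positivity
      nlinarith
  have hlast : gtail N a (N + 1) w = 0 := by
    unfold gtail
    apply Finset.sum_eq_zero
    intro j _
    rw [ha _ (by omega), zero_mul]
  have := hsum N
  rw [hlast] at this
  unfold Ufun
  rw [Complex.re_sum]
  simpa using this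

/-- coefficients of `Ufun` -/
noncomputable def ucoef (N : ℕ) (a : ℕ → ℂ) (j : ℕ) : ℂ :=
  ∑ k ∈ range (N + 1), (starRingEnd ℂ) (a k) * (2 * a (k + j))

lemma U_eq (N : ℕ) (a : ℕ → ℂ) (w : ℂ) :
    Ufun N a w = (∑ j ∈ range (N + 1), ucoef N a j * w ^ j)
      - ∑ k ∈ range (N + 1), (starRingEnd ℂ) (a k) * a k := by
  unfold Ufun gtail ucoef
  simp_rw [mul_sub, Finset.sum_sub_distrib]
  congr 1
  simp_rw [Finset.mul_sum, Finset.sum_mul]
  rw [Finset.sum_comm]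
  apply Finset.sum_congr rfl
  intro j _
  apply Finset.sum_congr rfl
  intro k _
  ring

lemma ucoef_le (N : ℕ) (a : ℕ → ℂ) (ha : ∀ m, N < m → a m = 0) (j : ℕ) :
    ‖ucoef N a j‖ ≤ 2 * ∑ k ∈ range (N + 1), ‖a k‖ ^ 2 := by
  unfold ucoef
  have h1 : ∑ k ∈ range (N + 1), ‖a (k + j)‖ ^ 2 ≤ ∑ k ∈ range (N + 1), ‖a k‖ ^ 2 := by
    calc ∑ k ∈ range (N + 1), ‖a (k + j)‖ ^ 2
        = ∑ k ∈ Ico j (N + 1 + j), ‖a k‖ ^ 2 := by
          rw [Finset.range_eq_Ico, Finset.sum_Ico_add' (fun k => ‖a k‖ ^ 2) 0 (N + 1) j]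
          simp
      _ ≤ ∑ k ∈ range (N + 1 + j), ‖a k‖ ^ 2 := by
          apply Finset.sum_le_sum_of_subset_of_nonneg
          · intro x hx
            simp at hx ⊢
            omega
          · intros; positivity
      _ = ∑ k ∈ range (N + 1), ‖a k‖ ^ 2 := by
          rw [Finset.sum_range_add]
          simp only [add_eq_left]
          apply Finset.sum_eq_zero
          intro x _
          rw [ha _ (by omega)]
          simp
  calc ‖∑ k ∈ range (N + 1), (starRingEnd ℂ) (a k) * (2 * a (k + j))‖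
      ≤ ∑ k ∈ range (N + 1), ‖(starRingEnd ℂ) (a k) * (2 * a (k + j))‖ := norm_sum_le _ _
    _ ≤ ∑ k ∈ range (N + 1), (‖a k‖ ^ 2 + ‖a (k + j)‖ ^ 2) := by
        apply Finset.sum_le_sum
        intro k _
        rw [norm_mul, norm_mul, RCLike.norm_conj]
        simp
        nlinarith [sq_nonneg (‖a k‖ - ‖a (k + j)‖)]
    _ ≤ 2 * ∑ k ∈ range (N + 1), ‖a k‖ ^ 2 := by
        rw [Finset.sum_add_distrib]
        linarith


/-- first order difference bound -/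
lemma diff1 (w ω : ℂ) (ρ : ℝ) (hρ : 1 / 2 ≤ ρ) (hw : ‖w‖ ≤ ρ) (hω : ‖ω‖ ≤ ρ) (n : ℕ) :
    ‖w ^ n - ω ^ n‖ ≤ 2 * n * ρ ^ n * ‖w - ω‖ := by
  have hρ0 : 0 < ρ := by linarith
  induction n with
  | zero => simp
  | succ n ih =>
    have h1 : w ^ (n + 1) - ω ^ (n + 1) = w * (w ^ n - ω ^ n) + (w - ω) * ω ^ n := by ring
    rw [h1]
    have h2 : ‖w * (w ^ n - ω ^ n)‖ ≤ ρ * (2 * n * ρ ^ n * ‖w - ω‖) := by
      rw [norm_mul]
      exact mul_le_mul hw ih (norm_nonneg _) hρ0.le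
    have h3 : ‖(w - ω) * ω ^ n‖ ≤ ‖w - ω‖ * ρ ^ n := by
      rw [norm_mul, norm_pow]
      exact mul_le_mul_of_nonneg_left (pow_le_pow_left₀ (norm_nonneg _) hω n) (norm_nonneg _)
    have h4 : ‖w - ω‖ * ρ ^ n ≤ 2 * ρ ^ (n + 1) * ‖w - ω‖ := by
      have : ρ ^ n ≤ 2 * ρ ^ (n + 1) := by
        rw [pow_succ]
        nlinarith [pow_pos hρ0 n]
      nlinarith [norm_nonneg (w - ω)]
    calc ‖w * (w ^ n - ω ^ n) + (w - ω) * ω ^ n‖
        ≤ ‖w * (w ^ n - ω ^ n)‖ + ‖(w - ω) * ω ^ n‖ := norm_add_le _ _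
      _ ≤ ρ * (2 * n * ρ ^ n * ‖w - ω‖) + 2 * ρ ^ (n + 1) * ‖w - ω‖ := by linarith
      _ = 2 * ((n + 1 : ℕ) : ℝ) * ρ ^ (n + 1) * ‖w - ω‖ := by
        push_cast
        ring

/-- second order difference -/
noncomputable def E2 (ω : ℂ) (n : ℕ) (w : ℂ) : ℂ := w ^ n - ω ^ n - n * ω ^ (n - 1) * (w - ω)

lemma E2_bound (w ω : ℂ) (ρ : ℝ) (hρ : 1 / 2 ≤ ρ) (hw : ‖w‖ ≤ ρ) (hω : ‖ω‖ ≤ ρ) (n : ℕ) :
    ‖E2 ω n w‖ ≤ 4 * n ^ 2 * ρ ^ n * ‖w - ω‖ ^ 2 := by
  have hρ0 : 0 < ρ := by linarith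
  induction n with
  | zero => simp [E2]
  | succ n ih =>
    have h1 : E2 ω (n + 1) w = w * E2 ω n w + n * ω ^ (n - 1) * (w - ω) ^ 2 := by
      unfold E2
      rcases n with _ | n
      · simp
      · simp only [Nat.add_sub_cancel]
        push_cast
        ring
    rw [h1]
    have h2 : ‖w * E2 ω n w‖ ≤ ρ * (4 * n ^ 2 * ρ ^ n * ‖w - ω‖ ^ 2) := by
      rw [norm_mul]
      exact mul_le_mul hw ih (norm_nonneg _) hρ0.le
    have h3 : ‖(n : ℂ) * ω ^ (n - 1) * (w - ω) ^ 2‖ ≤ n * ρ ^ (n - 1) * ‖w - ω‖ ^ 2 := by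
      rw [norm_mul, norm_mul, norm_pow, norm_pow, Complex.norm_natCast]
      apply mul_le_mul_of_nonneg_right _ (by positivity)
      exact mul_le_mul_of_nonneg_left (pow_le_pow_left₀ (norm_nonneg _) hω _) (by positivity)
    have h4 : (n : ℝ) * ρ ^ (n - 1) * ‖w - ω‖ ^ 2
        ≤ 4 * (2 * n + 1) * ρ ^ (n + 1) * ‖w - ω‖ ^ 2 := by
      apply mul_le_mul_of_nonneg_right _ (by positivity)
      rcases n with _ | n
      · simp; positivity
      · simp only [Nat.add_sub_cancel]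
        push_cast
        have e1 : ρ ^ (n + 1 + 1) = ρ ^ n * ρ ^ 2 := by ring
        rw [e1]
        have e2 : (1 / 4 : ℝ) ≤ ρ ^ 2 := by nlinarith
        have e3 : 0 < ρ ^ n := pow_pos hρ0 n
        have e4 : (0 : ℝ) ≤ n := Nat.cast_nonneg n
        have e5 : ((n : ℝ) + 1) ≤ 4 * (2 * (n + 1) + 1) * ρ ^ 2 := by nlinarith
        nlinarith [mul_le_mul_of_nonneg_left e5 e3.le]
    calc ‖w * E2 ω n w + n * ω ^ (n - 1) * (w - ω) ^ 2‖
        ≤ ‖w * E2 ω n w‖ + ‖(n : ℂ) * ω ^ (n - 1) * (w - ω) ^ 2‖ := norm_add_le _ _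
      _ ≤ ρ * (4 * n ^ 2 * ρ ^ n * ‖w - ω‖ ^ 2) + 4 * (2 * n + 1) * ρ ^ (n + 1) * ‖w - ω‖ ^ 2 := by
        linarith
      _ = 4 * ((n + 1 : ℕ) : ℝ) ^ 2 * ρ ^ (n + 1) * ‖w - ω‖ ^ 2 := by
        push_cast
        ring

lemma summ0 (ρ : ℝ) (h0 : 0 ≤ ρ) (h1 : ρ < 1) (k : ℕ) :
    Summable (fun n : ℕ => (n : ℝ) ^ k * ρ ^ n) := by
  apply summable_pow_mul_geometric_of_norm_lt_one
  rw [Real.norm_of_nonneg h0]
  exact h1

/-- the constants -/
noncomputable def Sk (ρ : ℝ) (k : ℕ) : ℝ := ∑' n : ℕ, (n : ℝ) ^ k * ρ ^ n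

lemma sum_le_Sk (ρ : ℝ) (h0 : 0 ≤ ρ) (h1 : ρ < 1) (k N : ℕ) :
    ∑ n ∈ range (N + 1), (n : ℝ) ^ k * ρ ^ n ≤ Sk ρ k :=
  (summ0 ρ h0 h1 k).sum_le_tsum _ (fun n _ => by positivity)

lemma Sk_nonneg (ρ : ℝ) (h0 : 0 ≤ ρ) (k : ℕ) : 0 ≤ Sk ρ k :=
  tsum_nonneg (fun n => by positivity)

/-- the second-order vanishing analytic function -/
noncomputable def Vfun (ω : ℂ) (N : ℕ) (a : ℕ → ℂ) (w : ℂ) : ℂ :=
  ∑ j ∈ range (N + 1), ucoef N a j * E2 ω j w

lemma V_differentiable (ω : ℂ) (N : ℕ) (a : ℕ → ℂ) : Differentiable ℂ (Vfun ω N a) := by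
  unfold Vfun E2
  fun_prop

lemma V_bound (ω : ℂ) (N : ℕ) (a : ℕ → ℂ) (ha : ∀ m, N < m → a m = 0) (ρ : ℝ)
    (hρ : 1 / 2 ≤ ρ) (hρ1 : ρ < 1) (w : ℂ) (hw : ‖w‖ ≤ ρ) (hω : ‖ω‖ ≤ ρ) :
    ‖Vfun ω N a w‖ ≤ 8 * Sk ρ 2 * (∑ k ∈ range (N + 1), ‖a k‖ ^ 2) * ‖w - ω‖ ^ 2 := by
  set M := ∑ k ∈ range (N + 1), ‖a k‖ ^ 2 with hM
  have hM0 : 0 ≤ M := by positivity
  unfold Vfun
  calc ‖∑ j ∈ range (N + 1), ucoef N a j * E2 ω j w‖
      ≤ ∑ j ∈ range (N + 1), ‖ucoef N a j * E2 ω j w‖ := norm_sum_le _ _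
    _ ≤ ∑ j ∈ range (N + 1), (8 * M * ‖w - ω‖ ^ 2) * ((j : ℝ) ^ 2 * ρ ^ j) := by
        apply Finset.sum_le_sum
        intro j _
        rw [norm_mul]
        have := mul_le_mul (ucoef_le N a ha j) (E2_bound w ω ρ hρ hw hω j) (norm_nonneg _)
          (by positivity)
        calc _ ≤ _ := this
          _ = _ := by ring
    _ = (8 * M * ‖w - ω‖ ^ 2) * ∑ j ∈ range (N + 1), ((j : ℝ) ^ 2 * ρ ^ j) :=
        (Finset.mul_sum _ _ _).symm
    _ ≤ (8 * M * ‖w - ω‖ ^ 2) * Sk ρ 2 := by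
        apply mul_le_mul_of_nonneg_left (sum_le_Sk ρ (by linarith) hρ1 2 N) (by positivity)
    _ = _ := by ring

lemma U_V (ω : ℂ) (N : ℕ) (a : ℕ → ℂ) (w : ℂ) :
    Ufun N a w = Vfun ω N a w + (∑ j ∈ range (N + 1), ucoef N a j * ω ^ j)
      + (∑ j ∈ range (N + 1), ucoef N a j * (j * ω ^ (j - 1))) * (w - ω)
      - ∑ k ∈ range (N + 1), (starRingEnd ℂ) (a k) * a k := by
  rw [U_eq]
  congr 1
  unfold Vfun E2
  rw [Finset.sum_mul, ← Finset.sum_add_distrib, ← Finset.sum_add_distrib]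
  apply Finset.sum_congr rfl
  intro j _
  ring

lemma f_small (ω : ℂ) (N : ℕ) (a : ℕ → ℂ) (ρ : ℝ)
    (hρ : 1 / 2 ≤ ρ) (hρ1 : ρ < 1) (w : ℂ) (hw : ‖w‖ ≤ ρ) (hω : ‖ω‖ ≤ ρ)
    (hf : gtail N a 0 ω = 0) :
    ‖gtail N a 0 w‖ ^ 2 ≤ 4 * Sk ρ 2 * (∑ k ∈ range (N + 1), ‖a k‖ ^ 2) * ‖w - ω‖ ^ 2 := by
  have hρ0 : 0 < ρ := by linarith
  have h1 : gtail N a 0 w = ∑ j ∈ range (N + 1), a j * (w ^ j - ω ^ j) := by
    rw [← sub_zero (gtail N a 0 w), ← hf]
    unfold gtail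
    rw [← Finset.sum_sub_distrib]
    apply Finset.sum_congr rfl
    intro j _
    rw [zero_add]
    ring
  have h2 : ‖gtail N a 0 w‖ ≤ ∑ j ∈ range (N + 1), ‖a j‖ * (2 * j * ρ ^ j * ‖w - ω‖) := by
    rw [h1]
    refine (norm_sum_le _ _).trans (Finset.sum_le_sum ?_)
    intro j _
    rw [norm_mul]
    exact mul_le_mul_of_nonneg_left (diff1 w ω ρ hρ hw hω j) (norm_nonneg _)
  have h3 : (∑ j ∈ range (N + 1), ‖a j‖ * (2 * j * ρ ^ j * ‖w - ω‖)) ^ 2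
      ≤ (∑ j ∈ range (N + 1), ‖a j‖ ^ 2) * ∑ j ∈ range (N + 1), (2 * j * ρ ^ j * ‖w - ω‖) ^ 2 :=
    Finset.sum_mul_sq_le_sq_mul_sq _ _ _
  have h4 : ∑ j ∈ range (N + 1), (2 * j * ρ ^ j * ‖w - ω‖) ^ 2
      ≤ 4 * Sk ρ 2 * ‖w - ω‖ ^ 2 := by
    calc ∑ j ∈ range (N + 1), (2 * j * ρ ^ j * ‖w - ω‖) ^ 2
        ≤ ∑ j ∈ range (N + 1), (4 * ‖w - ω‖ ^ 2) * ((j : ℝ) ^ 2 * ρ ^ j) := by
          apply Finset.sum_le_sum
          intro j _
          have e1 : (ρ ^ j) ^ 2 ≤ ρ ^ j := by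
            have : ρ ^ j ≤ 1 := pow_le_one₀ hρ0.le hρ1.le
            nlinarith [pow_pos hρ0 j]
          calc (2 * j * ρ ^ j * ‖w - ω‖) ^ 2 = (4 * ‖w - ω‖ ^ 2 * (j : ℝ) ^ 2) * (ρ ^ j) ^ 2 := by ring
            _ ≤ (4 * ‖w - ω‖ ^ 2 * (j : ℝ) ^ 2) * ρ ^ j := by
              apply mul_le_mul_of_nonneg_left e1 (by positivity)
            _ = _ := by ring
      _ = (4 * ‖w - ω‖ ^ 2) * ∑ j ∈ range (N + 1), ((j : ℝ) ^ 2 * ρ ^ j) := by
          rw [Finset.mul_sum]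
      _ ≤ (4 * ‖w - ω‖ ^ 2) * Sk ρ 2 :=
          mul_le_mul_of_nonneg_left (sum_le_Sk ρ hρ0.le hρ1 2 N) (by positivity)
      _ = _ := by ring
  calc ‖gtail N a 0 w‖ ^ 2 ≤ (∑ j ∈ range (N + 1), ‖a j‖ * (2 * j * ρ ^ j * ‖w - ω‖)) ^ 2 := by
        apply pow_le_pow_left₀ (norm_nonneg _) h2
    _ ≤ (∑ j ∈ range (N + 1), ‖a j‖ ^ 2) * ∑ j ∈ range (N + 1), (2 * j * ρ ^ j * ‖w - ω‖) ^ 2 := h3
    _ ≤ (∑ j ∈ range (N + 1), ‖a j‖ ^ 2) * (4 * Sk ρ 2 * ‖w - ω‖ ^ 2) :=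
        mul_le_mul_of_nonneg_left h4 (by positivity)
    _ = _ := by ring

/-- the key pointwise inequality -/
lemma key_pointwise (ω : ℂ) (hω : ‖ω‖ < 1) : ∃ K : ℝ, 0 ≤ K ∧ ∀ (N : ℕ) (a : ℕ → ℂ),
    (∀ m, N < m → a m = 0) → gtail N a 0 ω = 0 →
    (∀ w : ℂ, ‖w‖ ≤ 1 → ‖gtail N a 0 w‖ ^ 2
      ≤ K * (∑ k ∈ range (N + 1), ‖a k‖ ^ 2) * ‖w - ω‖ ^ 2 + (Vfun ω N a w).re) ∧
    (∀ w : ℂ, ‖w - ω‖ ≤ (1 - ‖ω‖) / 2 → ‖Vfun ω N a w‖
      ≤ K * (∑ k ∈ range (N + 1), ‖a k‖ ^ 2) * ‖w - ω‖ ^ 2) := by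
  set ρ := (1 + ‖ω‖) / 2 with hρdef
  have hρ : 1 / 2 ≤ ρ := by rw [hρdef]; linarith [norm_nonneg ω]
  have hρ1 : ρ < 1 := by rw [hρdef]; linarith
  have hωρ : ‖ω‖ ≤ ρ := by rw [hρdef]; linarith
  set δ := (1 - ‖ω‖) / 2 with hδdef
  have hδ : 0 < δ := by rw [hδdef]; linarith
  have hρ0 : 0 < ρ := by linarith
  have hS0 := Sk_nonneg ρ hρ0.le 0
  have hS1 := Sk_nonneg ρ hρ0.le 1
  have hS2 := Sk_nonneg ρ hρ0.le 2
  refine ⟨12 * Sk ρ 2 + (2 * Sk ρ 0 / δ ^ 2 + 4 * Sk ρ 1 / δ), by positivity, ?_⟩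
  intro N a ha hf
  set M := ∑ k ∈ range (N + 1), ‖a k‖ ^ 2 with hM
  have hM0 : 0 ≤ M := by positivity
  have hmono : ∀ w : ℂ, ‖w - ω‖ ≤ δ → ‖w‖ ≤ ρ := by
    intro w hw
    calc ‖w‖ = ‖(w - ω) + ω‖ := by ring_nf
      _ ≤ ‖w - ω‖ + ‖ω‖ := norm_add_le _ _
      _ ≤ ρ := by rw [hρdef]; rw [hδdef] at hw; linarith
  constructor
  · intro w hw
    by_cases hcase : ‖w - ω‖ ≤ δ
    · have h1 := f_small ω N a ρ hρ hρ1 w (hmono w hcase) hωρ hf
      have h2 := V_bound ω N a ha ρ hρ hρ1 w (hmono w hcase) hωρ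
      have h3 : -(Vfun ω N a w).re ≤ ‖Vfun ω N a w‖ :=
        (neg_le_abs _).trans (Complex.abs_re_le_norm _)
      have h4 : 0 ≤ (2 * Sk ρ 0 / δ ^ 2 + 4 * Sk ρ 1 / δ) * M * ‖w - ω‖ ^ 2 := by positivity
      nlinarith
    · push Not at hcase
      have h1 := re_U_ge N a ha w hw
      rw [U_V ω N a w] at h1
      simp only [Complex.sub_re, Complex.add_re] at h1
      have hA : (∑ j ∈ range (N + 1), ucoef N a j * ω ^ j).re ≤ 2 * M * Sk ρ 0 := by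
        calc (∑ j ∈ range (N + 1), ucoef N a j * ω ^ j).re
            ≤ ‖∑ j ∈ range (N + 1), ucoef N a j * ω ^ j‖ := Complex.re_le_norm _
          _ ≤ ∑ j ∈ range (N + 1), ‖ucoef N a j * ω ^ j‖ := norm_sum_le _ _
          _ ≤ ∑ j ∈ range (N + 1), (2 * M) * ((j : ℝ) ^ 0 * ρ ^ j) := by
              apply Finset.sum_le_sum
              intro j _
              rw [norm_mul, norm_pow, pow_zero, one_mul]
              exact mul_le_mul (ucoef_le N a ha j) (pow_le_pow_left₀ (norm_nonneg _) hωρ j)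
                (by positivity) (by positivity)
          _ = (2 * M) * ∑ j ∈ range (N + 1), ((j : ℝ) ^ 0 * ρ ^ j) := (Finset.mul_sum _ _ _).symm
          _ ≤ (2 * M) * Sk ρ 0 :=
              mul_le_mul_of_nonneg_left (sum_le_Sk ρ hρ0.le hρ1 0 N) (by positivity)
      have hB : ((∑ j ∈ range (N + 1), ucoef N a j * (j * ω ^ (j - 1))) * (w - ω)).re
          ≤ 4 * M * Sk ρ 1 * ‖w - ω‖ := by
        calc ((∑ j ∈ range (N + 1), ucoef N a j * (j * ω ^ (j - 1))) * (w - ω)).re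
            ≤ ‖(∑ j ∈ range (N + 1), ucoef N a j * (j * ω ^ (j - 1))) * (w - ω)‖ :=
              Complex.re_le_norm _
          _ = ‖∑ j ∈ range (N + 1), ucoef N a j * (j * ω ^ (j - 1))‖ * ‖w - ω‖ := norm_mul _ _
          _ ≤ (4 * M * Sk ρ 1) * ‖w - ω‖ := by
              apply mul_le_mul_of_nonneg_right _ (norm_nonneg _)
              calc ‖∑ j ∈ range (N + 1), ucoef N a j * (j * ω ^ (j - 1))‖
                  ≤ ∑ j ∈ range (N + 1), ‖ucoef N a j * (j * ω ^ (j - 1))‖ := norm_sum_le _ _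
                _ ≤ ∑ j ∈ range (N + 1), (4 * M) * ((j : ℝ) ^ 1 * ρ ^ j) := by
                    apply Finset.sum_le_sum
                    intro j _
                    rw [norm_mul, norm_mul, norm_pow, pow_one, Complex.norm_natCast]
                    have e1 : (j : ℝ) * ‖ω‖ ^ (j - 1) ≤ 2 * (j * ρ ^ j) := by
                      rcases j with _ | j
                      · simp
                      · simp only [Nat.add_sub_cancel]
                        have e2 : ‖ω‖ ^ j ≤ ρ ^ j := pow_le_pow_left₀ (norm_nonneg _) hωρ j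
                        have e3 : ρ ^ j ≤ 2 * ρ ^ (j + 1) := by
                          rw [pow_succ]
                          nlinarith [pow_pos hρ0 j]
                        have e4 : (0 : ℝ) ≤ ((j + 1 : ℕ) : ℝ) := Nat.cast_nonneg _
                        nlinarith [mul_le_mul_of_nonneg_left (e2.trans e3) e4]
                    calc ‖ucoef N a j‖ * (↑j * ‖ω‖ ^ (j - 1))
                        ≤ (2 * M) * (2 * (j * ρ ^ j)) :=
                          mul_le_mul (ucoef_le N a ha j) e1 (by positivity) (by positivity)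
                      _ = _ := by ring
                _ = (4 * M) * ∑ j ∈ range (N + 1), ((j : ℝ) ^ 1 * ρ ^ j) :=
                    (Finset.mul_sum _ _ _).symm
                _ ≤ (4 * M) * Sk ρ 1 :=
                    mul_le_mul_of_nonneg_left (sum_le_Sk ρ hρ0.le hρ1 1 N) (by positivity)
      have hC : 0 ≤ (∑ k ∈ range (N + 1), (starRingEnd ℂ) (a k) * a k).re := by
        rw [Complex.re_sum]
        apply Finset.sum_nonneg
        intro k _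
        simp only [Complex.mul_re, Complex.conj_re, Complex.conj_im]
        nlinarith [sq_nonneg (a k).re, sq_nonneg (a k).im]
      have hd1 : 1 ≤ ‖w - ω‖ / δ := by
        rw [le_div_iff₀ hδ]; linarith
      have hA' : 2 * M * Sk ρ 0 ≤ 2 * M * Sk ρ 0 * (‖w - ω‖ / δ) ^ 2 := by
        have : 1 ≤ (‖w - ω‖ / δ) ^ 2 := one_le_pow₀ hd1
        nlinarith [mul_nonneg hM0 hS0]
      have hB' : 4 * M * Sk ρ 1 * ‖w - ω‖ ≤ 4 * M * Sk ρ 1 * ‖w - ω‖ * (‖w - ω‖ / δ) := by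
        have h5 : 0 ≤ 4 * M * Sk ρ 1 * ‖w - ω‖ := by positivity
        nlinarith
      have hfin : 2 * M * Sk ρ 0 * (‖w - ω‖ / δ) ^ 2 + 4 * M * Sk ρ 1 * ‖w - ω‖ * (‖w - ω‖ / δ)
          = (2 * Sk ρ 0 / δ ^ 2 + 4 * Sk ρ 1 / δ) * M * ‖w - ω‖ ^ 2 := by
        field_simp
      have h6 : 0 ≤ 12 * Sk ρ 2 * M * ‖w - ω‖ ^ 2 := by positivity
      nlinarith
  · intro w hw
    have h2 := V_bound ω N a ha ρ hρ hρ1 w (hmono w hw) hωρ
    have h4 : 0 ≤ (4 * Sk ρ 2 + (2 * Sk ρ 0 / δ ^ 2 + 4 * Sk ρ 1 / δ)) * M * ‖w - ω‖ ^ 2 := by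
      positivity
    nlinarith


/-- mean value property, real part -/
lemma avg_re (Q : ℂ → ℂ) (r : ℝ) (hc : ContinuousOn Q (sphere 0 |r|))
    (hQ : DiffContOnCl ℂ Q (ball 0 |r|)) :
    Real.circleAverage (fun z => (Q z).re) 0 r = (Q 0).re := by
  have hi : CircleIntegrable Q 0 r := hc.circleIntegrable'
  have h1 := hQ.circleAverage
  have h2 := Complex.reCLM.circleAverage_comp_comm hi
  rw [h1] at h2
  exact h2

lemma circ_int_cont (f : ℂ → ℝ) (hf : Continuous f) (r : ℝ) : CircleIntegrable f 0 r :=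
  ContinuousOn.circleIntegrable' hf.continuousOn

lemma avg_add3 (f g : ℂ → ℝ) (hf : Continuous f) (hg : Continuous g) (c r : ℝ) :
    Real.circleAverage (fun z => f z + g z + c) 0 r
      = Real.circleAverage f 0 r + Real.circleAverage g 0 r + c := by
  have h1 := Real.circleAverage_fun_add (circ_int_cont _ (hf.add hg) r)
    (circ_int_cont (fun _ => c) continuous_const r)
  have h2 := Real.circleAverage_fun_add (circ_int_cont _ hf r) (circ_int_cont _ hg r)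
  rw [Real.circleAverage_const] at h1
  simp only [Pi.add_apply] at h1 h2 ⊢
  rw [h1, ← h2]
  rfl

lemma parseval_fin (p : ℕ → ℂ) (r : ℝ) (N : ℕ) :
    Real.circleAverage (fun z => ‖∑ n ∈ range N, p n * z ^ n‖ ^ 2) 0 r
      = ∑ n ∈ range N, ‖p n‖ ^ 2 * (r ^ 2) ^ n := by
  induction N with
  | zero =>
    simp only [Finset.range_zero, Finset.sum_empty, norm_zero]
    rw [Real.circleAverage_const]
    simp
  | succ N ih =>
    rw [Finset.sum_range_succ (n := N) (f := fun n => ‖p n‖ ^ 2 * (r ^ 2) ^ n), ← ih]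
    set Q : ℂ → ℂ := fun z => p N * ∑ n ∈ range N, (starRingEnd ℂ) (p n) * ((r : ℂ) ^ 2) ^ n * z ^ (N - n) with hQ
    have hQd : Differentiable ℂ Q := by
      rw [hQ]
      fun_prop
    have hQ0 : Q 0 = 0 := by
      rw [hQ]
      simp only
      rw [Finset.sum_eq_zero, mul_zero]
      intro n hn
      have : N - n ≠ 0 := by
        have := Finset.mem_range.mp hn
        omega
      rw [zero_pow this, mul_zero]
    have havg : Real.circleAverage (fun z => (Q z).re) 0 r = 0 := by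
      rw [avg_re Q r hQd.continuous.continuousOn hQd.diffContOnCl, hQ0]
      simp
    have hpt : Set.EqOn (fun z : ℂ => ‖∑ n ∈ range (N + 1), p n * z ^ n‖ ^ 2)
        (fun z => (‖∑ n ∈ range N, p n * z ^ n‖ ^ 2 + 2 * (Q z).re) + ‖p N‖ ^ 2 * (r ^ 2) ^ N)
        (sphere 0 |r|) := by
      intro z hz
      have hz1 : ‖z‖ = |r| := by simpa using hz
      have hz2 : (starRingEnd ℂ) z * z = (r : ℂ) ^ 2 := by
        rw [Complex.conj_mul', hz1]
        rw [← Complex.ofReal_pow, sq_abs, Complex.ofReal_pow]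
      simp only
      rw [Finset.sum_range_succ]
      have h1 : (starRingEnd ℂ) (∑ n ∈ range N, p n * z ^ n) * (p N * z ^ N) = Q z := by
        rw [hQ]
        simp only
        rw [map_sum, Finset.sum_mul, Finset.mul_sum]
        apply Finset.sum_congr rfl
        intro n hn
        have hn' : n < N := Finset.mem_range.mp hn
        rw [map_mul, map_pow, ← hz2, mul_pow]
        have : z ^ N = z ^ n * z ^ (N - n) := by
          rw [← pow_add]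
          congr 1
          omega
        rw [this]
        ring
      have h2 : ∀ x y : ℂ, ‖x + y‖ ^ 2 = ‖x‖ ^ 2 + 2 * ((starRingEnd ℂ) x * y).re + ‖y‖ ^ 2 := by
        intro x y
        simp only [← Complex.normSq_eq_norm_sq, Complex.normSq_apply, Complex.mul_re,
          Complex.conj_re, Complex.conj_im, Complex.add_re, Complex.add_im]
        ring
      rw [h2, h1, norm_mul, norm_pow, hz1, mul_pow, ← pow_mul, mul_comm N 2, pow_mul, sq_abs]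
    rw [Real.circleAverage_congr_sphere hpt]
    have hc1 : Continuous (fun z : ℂ => ‖∑ n ∈ range N, p n * z ^ n‖ ^ 2) := by fun_prop
    have hc2 : Continuous (fun z : ℂ => 2 * (Q z).re) := by
      have := hQd.continuous
      fun_prop
    rw [avg_add3 _ _ hc1 hc2]
    have : Real.circleAverage (fun z : ℂ => 2 * (Q z).re) 0 r = 0 := by
      have h := Real.circleAverage_fun_smul (a := (2 : ℝ)) (f := fun z : ℂ => (Q z).re) (c := 0) (R := r)
      simp only [smul_eq_mul] at h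
      rw [h, havg]
      simp
    rw [this]
    ring


noncomputable abbrev HH := lp (fun _ : ℕ => ℂ) 2

noncomputable def ev (a : ℕ → ℂ) (z : ℂ) : ℂ := ∑' n : ℕ, a n * z ^ n

lemma ev_summable_norm (a : ℕ → ℂ) (B : ℝ) (hB : ∀ n, ‖a n‖ ≤ B) (z : ℂ) (hz : ‖z‖ < 1) :
    Summable (fun n : ℕ => ‖a n * z ^ n‖) := by
  have hg : Summable (fun n : ℕ => B * ‖z‖ ^ n) :=
    (summable_geometric_of_lt_one (norm_nonneg z) hz).mul_left B
  apply Summable.of_nonneg_of_le (fun n => norm_nonneg _) _ hg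
  intro n
  rw [norm_mul, norm_pow]
  exact mul_le_mul_of_nonneg_right (hB n) (by positivity)

lemma ev_summable (a : ℕ → ℂ) (B : ℝ) (hB : ∀ n, ‖a n‖ ≤ B) (z : ℂ) (hz : ‖z‖ < 1) :
    Summable (fun n : ℕ => a n * z ^ n) :=
  (ev_summable_norm a B hB z hz).of_norm

lemma ev_bound (a : ℕ → ℂ) (B : ℝ) (hB : ∀ n, ‖a n‖ ≤ B) (z : ℂ) (hz : ‖z‖ < 1) (N : ℕ) :
    ‖∑ n ∈ range N, a n * z ^ n‖ ≤ B * (1 - ‖z‖)⁻¹ := by
  have hB0 : 0 ≤ B := (norm_nonneg _).trans (hB 0)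
  calc ‖∑ n ∈ range N, a n * z ^ n‖ ≤ ∑ n ∈ range N, ‖a n * z ^ n‖ := norm_sum_le _ _
    _ ≤ ∑ n ∈ range N, B * ‖z‖ ^ n := by
        apply Finset.sum_le_sum
        intro n _
        rw [norm_mul, norm_pow]
        exact mul_le_mul_of_nonneg_right (hB n) (by positivity)
    _ = B * ∑ n ∈ range N, ‖z‖ ^ n := (Finset.mul_sum _ _ _).symm
    _ ≤ B * (1 - ‖z‖)⁻¹ := by
        apply mul_le_mul_of_nonneg_left _ hB0
        rw [← tsum_geometric_of_lt_one (norm_nonneg z) hz]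
        exact (summable_geometric_of_lt_one (norm_nonneg z) hz).sum_le_tsum _
          (fun n _ => by positivity)

lemma parseval_inf (a : ℕ → ℂ) (B : ℝ) (hB : ∀ n, ‖a n‖ ≤ B) (r : ℝ) (h0 : 0 ≤ r) (h1 : r < 1) :
    Tendsto (fun N : ℕ => ∑ n ∈ range N, ‖a n‖ ^ 2 * (r ^ 2) ^ n) atTop
      (𝓝 (Real.circleAverage (fun z => ‖ev a z‖ ^ 2) 0 r)) := by
  have hmem : ∀ θ : ℝ, ‖circleMap 0 r θ‖ = r := by
    intro θ
    rw [norm_circleMap_zero, abs_of_nonneg h0]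
  have key : Tendsto (fun N : ℕ => Real.circleAverage (fun z => ‖∑ n ∈ range N, a n * z ^ n‖ ^ 2) 0 r)
      atTop (𝓝 (Real.circleAverage (fun z => ‖ev a z‖ ^ 2) 0 r)) := by
    unfold Real.circleAverage
    apply Tendsto.const_smul
    apply intervalIntegral.tendsto_integral_filter_of_dominated_convergence
      (fun _ => (B * (1 - r)⁻¹) ^ 2)
    · filter_upwards with N
      apply Continuous.aestronglyMeasurable
      fun_prop
    · filter_upwards with N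
      filter_upwards with θ _
      rw [Real.norm_of_nonneg (by positivity)]
      apply pow_le_pow_left₀ (norm_nonneg _)
      have := ev_bound a B hB (circleMap 0 r θ) (by rw [hmem]; exact h1) N
      rwa [hmem] at this
    · exact intervalIntegrable_const
    · filter_upwards with θ _
      have hs := ev_summable a B hB (circleMap 0 r θ) (by rw [hmem]; exact h1)
      exact (hs.hasSum.tendsto_sum_nat.norm).pow 2
  refine key.congr ?_
  intro N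
  exact parseval_fin a r N

lemma norm_sq_eq_tsum (a : HH) : ‖a‖ ^ 2 = ∑' n, ‖a n‖ ^ 2 := by
  have h := lp.norm_rpow_eq_tsum (p := 2) (by norm_num) a
  simpa using h

lemma summable_sq (a : HH) : Summable (fun n => ‖a n‖ ^ 2) := by
  have h := (lp.memℓp a).summable (by norm_num : 0 < (2 : ENNReal).toReal)
  simpa using h

lemma coord_le (a : HH) (n : ℕ) : ‖a n‖ ≤ ‖a‖ := lp.norm_apply_le_norm (by norm_num) a n

lemma avg_le (a : HH) (r : ℝ) (h0 : 0 ≤ r) (h1 : r < 1) :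
    Real.circleAverage (fun z => ‖ev a z‖ ^ 2) 0 r ≤ ‖a‖ ^ 2 := by
  apply le_of_tendsto (parseval_inf a ‖a‖ (coord_le a) r h0 h1)
  filter_upwards with N
  rw [norm_sq_eq_tsum]
  calc ∑ n ∈ range N, ‖a n‖ ^ 2 * (r ^ 2) ^ n ≤ ∑ n ∈ range N, ‖a n‖ ^ 2 := by
        apply Finset.sum_le_sum
        intro n _
        have : (r ^ 2) ^ n ≤ 1 := pow_le_one₀ (by positivity) (by nlinarith)
        nlinarith [sq_nonneg ‖a n‖]
    _ ≤ ∑' n, ‖a n‖ ^ 2 := (summable_sq a).sum_le_tsum _ (fun n _ => by positivity)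

lemma norm_le_of_avg (a : HH) (B : ℝ)
    (hB : ∀ r : ℝ, 0 ≤ r → r < 1 → Real.circleAverage (fun z => ‖ev a z‖ ^ 2) 0 r ≤ B) :
    ‖a‖ ^ 2 ≤ B := by
  rw [norm_sq_eq_tsum]
  apply (summable_sq a).tsum_le_of_sum_range_le
  intro N
  have h1 : ∀ r : ℝ, 0 ≤ r → r < 1 → ∑ n ∈ range N, ‖a n‖ ^ 2 * (r ^ 2) ^ n ≤ B := by
    intro r h0 h1
    refine le_trans ?_ (hB r h0 h1)
    apply ge_of_tendsto (parseval_inf a ‖a‖ (coord_le a) r h0 h1)
    filter_upwards [eventually_ge_atTop N] with m hm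
    apply Finset.sum_le_sum_of_subset_of_nonneg
    · intro x hx
      simp at hx ⊢
      omega
    · intros; positivity
  have h2 : Tendsto (fun r : ℝ => ∑ n ∈ range N, ‖a n‖ ^ 2 * (r ^ 2) ^ n) (𝓝[<] 1)
      (𝓝 (∑ n ∈ range N, ‖a n‖ ^ 2 * ((1 : ℝ) ^ 2) ^ n)) := by
    have : Continuous (fun r : ℝ => ∑ n ∈ range N, ‖a n‖ ^ 2 * (r ^ 2) ^ n) := by fun_prop
    exact (this.tendsto 1).mono_left nhdsWithin_le_nhds
  have h3 : ∑ n ∈ range N, ‖a n‖ ^ 2 * ((1 : ℝ) ^ 2) ^ n ≤ B := by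
    apply le_of_tendsto h2
    have h4 : ∀ᶠ r : ℝ in 𝓝[<] (1 : ℝ), 0 ≤ r ∧ r < 1 := by
      have : Set.Ico (0 : ℝ) 1 ∈ 𝓝[<] (1 : ℝ) := Ico_mem_nhdsLT (by norm_num)
      exact this
    filter_upwards [h4] with r hr
    exact h1 r hr.1 hr.2
  simpa using h3


lemma gtail_eq_ev (N : ℕ) (a : ℕ → ℂ) (ha : ∀ m, N < m → a m = 0) (w : ℂ) :
    gtail N a 0 w = ev a w := by
  unfold gtail ev
  rw [tsum_eq_sum (s := range (N + 1))]
  · apply Finset.sum_congr rfl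
    intro j _
    rw [zero_add]
  · intro m hm
    rw [ha m (by simpa using hm), zero_mul]

lemma ev_sub (a b : HH) (z : ℂ) (hz : ‖z‖ < 1) : ev (a - b : HH) z = ev a z - ev b z := by
  unfold ev
  rw [← (ev_summable a ‖a‖ (coord_le a) z hz).tsum_sub (ev_summable b ‖b‖ (coord_le b) z hz)]
  apply tsum_congr
  intro n
  rw [lp.coeFn_sub, Pi.sub_apply]
  ring

lemma ev_single0 (c : ℂ) (z : ℂ) : ev (lp.single 2 0 c : HH) z = c := by
  unfold ev
  rw [tsum_eq_single 0]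
  · simp
  · intro n hn
    rw [lp.single_apply_ne _ _ _ hn, zero_mul]

lemma ev_single1 (z : ℂ) : ev (lp.single 2 1 (1 : ℂ) : HH) z = z := by
  unfold ev
  rw [tsum_eq_single 1]
  · simp
  · intro n hn
    rw [lp.single_apply_ne _ _ _ hn, zero_mul]

/-- the crucial estimate -/
lemma comp_estimate (ω : ℂ) (K : ℝ) (hK0 : 0 ≤ K) (N : ℕ) (a : HH)
    (ha : ∀ m, N < m → a m = 0)
    (h1 : ∀ w : ℂ, ‖w‖ ≤ 1 → ‖gtail N a 0 w‖ ^ 2
      ≤ K * (∑ k ∈ range (N + 1), ‖a k‖ ^ 2) * ‖w - ω‖ ^ 2 + (Vfun ω N a w).re)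
    (h2 : ∀ w : ℂ, ‖w - ω‖ ≤ (1 - ‖ω‖) / 2 → ‖Vfun ω N a w‖
      ≤ K * (∑ k ∈ range (N + 1), ‖a k‖ ^ 2) * ‖w - ω‖ ^ 2)
    (ψ : ℂ → ℂ) (hψ : DifferentiableOn ℂ ψ (ball (0 : ℂ) 1))
    (hψm : Set.MapsTo ψ (ball (0 : ℂ) 1) (ball (0 : ℂ) 1)) (b c : HH)
    (hb : ∀ z ∈ ball (0 : ℂ) 1, ev b z = ψ z)
    (hc : ∀ z ∈ ball (0 : ℂ) 1, ev c z = ev a (ψ z))
    (hsmall : ‖b - ω • (lp.single 2 0 (1 : ℂ) : HH)‖ ≤ (1 - ‖ω‖) / 2) :
    ‖c‖ ^ 2 ≤ 2 * K * ‖a‖ ^ 2 * ‖b - ω • (lp.single 2 0 (1 : ℂ) : HH)‖ ^ 2 := by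
  set M := ∑ k ∈ range (N + 1), ‖a k‖ ^ 2 with hM
  set β : HH := b - ω • (lp.single 2 0 (1 : ℂ) : HH) with hβ
  have hMa : M = ‖a‖ ^ 2 := by
    rw [norm_sq_eq_tsum, hM]
    symm
    apply tsum_eq_sum
    intro m hm
    rw [ha m (by simpa using hm)]
    simp
  have hβe : ∀ z ∈ ball (0 : ℂ) 1, ev β z = ψ z - ω := by
    intro z hz
    have hz' : ‖z‖ < 1 := by simpa using hz
    rw [hβ, ev_sub _ _ z hz', hb z hz]
    congr 1
    rw [← lp.single_smul]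
    rw [ev_single0]
    simp
  have h00 : (0 : ℂ) ∈ ball (0 : ℂ) 1 := by simp
  have hβ0 : ‖ψ 0 - ω‖ ≤ ‖β‖ := by
    rw [← hβe 0 h00]
    have : ev β 0 = β 0 := by
      unfold ev
      rw [tsum_eq_single 0]
      · simp
      · intro n hn
        rw [zero_pow hn, mul_zero]
    rw [this]
    exact coord_le β 0
  apply norm_le_of_avg
  intro r hr0 hr1
  have hsub : sphere (0 : ℂ) |r| ⊆ ball (0 : ℂ) 1 := by
    intro z hz
    simp only [mem_sphere_iff_norm, sub_zero, abs_of_nonneg hr0] at hz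
    simp [hz, hr1]
  have hsub2 : closedBall (0 : ℂ) |r| ⊆ ball (0 : ℂ) 1 := by
    intro z hz
    simp only [mem_closedBall, dist_zero_right, abs_of_nonneg hr0] at hz
    simp only [mem_ball, dist_zero_right]
    linarith
  have hψc : ContinuousOn ψ (sphere (0 : ℂ) |r|) := hψ.continuousOn.mono hsub
  have hVc : Continuous (Vfun ω N a) := (V_differentiable ω N a).continuous
  have hev : Set.EqOn (fun z => ‖ev c z‖ ^ 2) (fun z => ‖gtail N a 0 (ψ z)‖ ^ 2)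
      (sphere (0 : ℂ) |r|) := by
    intro z hz
    simp only
    rw [hc z (hsub hz), gtail_eq_ev N a ha]
  rw [Real.circleAverage_congr_sphere hev]
  have hg : Continuous (gtail N a 0) := by
    unfold gtail
    fun_prop
  have i1 : CircleIntegrable (fun z => ‖gtail N a 0 (ψ z)‖ ^ 2) 0 r := by
    apply ContinuousOn.circleIntegrable'
    exact ((hg.comp_continuousOn hψc).norm).pow 2
  have i2 : CircleIntegrable (fun z => K * M * ‖ψ z - ω‖ ^ 2) 0 r := by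
    apply ContinuousOn.circleIntegrable'
    exact continuousOn_const.mul (((hψc.sub continuousOn_const).norm).pow 2)
  have i3 : CircleIntegrable (fun z => (Vfun ω N a (ψ z)).re) 0 r := by
    apply ContinuousOn.circleIntegrable'
    exact Complex.continuous_re.comp_continuousOn (hVc.comp_continuousOn hψc)
  have step1 : Real.circleAverage (fun z => ‖gtail N a 0 (ψ z)‖ ^ 2) 0 r
      ≤ Real.circleAverage (fun z => K * M * ‖ψ z - ω‖ ^ 2 + (Vfun ω N a (ψ z)).re) 0 r := by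
    apply Real.circleAverage_mono i1 (CircleIntegrable.add i2 i3)
    intro z hz
    apply h1
    have := hψm (hsub hz)
    simp only [mem_ball, dist_zero_right] at this
    exact this.le
  have step2 : Real.circleAverage (fun z => K * M * ‖ψ z - ω‖ ^ 2 + (Vfun ω N a (ψ z)).re) 0 r
      = K * M * Real.circleAverage (fun z => ‖ψ z - ω‖ ^ 2) 0 r + (Vfun ω N a (ψ 0)).re := by
    rw [Real.circleAverage_fun_add i2 i3]
    congr 1
    · have h := Real.circleAverage_fun_smul (a := (K * M : ℝ)) (f := fun z : ℂ => ‖ψ z - ω‖ ^ 2)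
        (c := 0) (R := r)
      simp only [smul_eq_mul] at h
      exact h
    · apply avg_re (fun z => Vfun ω N a (ψ z)) r
      · exact hVc.comp_continuousOn hψc
      · apply DifferentiableOn.diffContOnCl
        have hcl : closure (ball (0 : ℂ) |r|) ⊆ ball (0 : ℂ) 1 :=
          closure_ball_subset_closedBall.trans hsub2
        exact ((V_differentiable ω N a).comp_differentiableOn hψ).mono hcl
  have step3 : Real.circleAverage (fun z => ‖ψ z - ω‖ ^ 2) 0 r ≤ ‖β‖ ^ 2 := by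
    refine le_trans (le_of_eq ?_) (avg_le β r hr0 hr1)
    apply Real.circleAverage_congr_sphere
    intro z hz
    simp only
    rw [hβe z (hsub hz)]
  have step4 : (Vfun ω N a (ψ 0)).re ≤ K * M * ‖β‖ ^ 2 := by
    refine (Complex.re_le_norm _).trans ((h2 (ψ 0) (hβ0.trans hsmall)).trans ?_)
    apply mul_le_mul_of_nonneg_left (pow_le_pow_left₀ (norm_nonneg _) hβ0 2)
    rw [hMa]
    positivity
  have hKM : 0 ≤ K * M := by rw [hMa]; positivity
  calc Real.circleAverage (fun z => ‖gtail N a 0 (ψ z)‖ ^ 2) 0 r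
      ≤ K * M * Real.circleAverage (fun z => ‖ψ z - ω‖ ^ 2) 0 r + (Vfun ω N a (ψ 0)).re :=
        step1.trans_eq step2
    _ ≤ K * M * ‖β‖ ^ 2 + K * M * ‖β‖ ^ 2 := by
        have := mul_le_mul_of_nonneg_left step3 hKM
        linarith
    _ = 2 * K * ‖a‖ ^ 2 * ‖β‖ ^ 2 := by
        rw [hMa]
        ring


/-- point evaluation as a bounded functional -/
lemma exists_evalCLM (ω : ℂ) (hω : ‖ω‖ < 1) : ∃ L : HH →L[ℂ] ℂ, ∀ a : HH, L a = ev a ω := by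
  let L0 : HH →ₗ[ℂ] ℂ :=
    { toFun := fun a => ev a ω
      map_add' := by
        intro a b
        simp only [ev]
        rw [← (ev_summable a ‖a‖ (coord_le a) ω hω).tsum_add
          (ev_summable b ‖b‖ (coord_le b) ω hω)]
        apply tsum_congr
        intro n
        rw [lp.coeFn_add, Pi.add_apply]
        ring
      map_smul' := by
        intro c a
        simp only [ev, RingHom.id_apply, smul_eq_mul]
        rw [← tsum_mul_left]
        apply tsum_congr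
        intro n
        rw [lp.coeFn_smul, Pi.smul_apply, smul_eq_mul]
        ring }
  refine ⟨L0.mkContinuous ((1 - ‖ω‖)⁻¹) ?_, fun a => rfl⟩
  intro a
  have hs := ev_summable a ‖a‖ (coord_le a) ω hω
  have h1 : Tendsto (fun N => ‖∑ n ∈ range N, a n * ω ^ n‖) atTop (𝓝 ‖ev a ω‖) :=
    hs.hasSum.tendsto_sum_nat.norm
  have h2 : ‖ev a ω‖ ≤ ‖a‖ * (1 - ‖ω‖)⁻¹ := by
    apply le_of_tendsto h1
    filter_upwards with N
    exact ev_bound a ‖a‖ (coord_le a) ω hω N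
  change ‖ev a ω‖ ≤ _
  rw [mul_comm]
  exact h2

lemma iter_mapsTo (φ : ℂ → ℂ) (hm : Set.MapsTo φ (ball (0 : ℂ) 1) (ball (0 : ℂ) 1)) (n : ℕ) :
    Set.MapsTo (φ^[n]) (ball (0 : ℂ) 1) (ball (0 : ℂ) 1) := hm.iterate n

lemma iter_diff (φ : ℂ → ℂ) (hd : DifferentiableOn ℂ φ (ball (0 : ℂ) 1))
    (hm : Set.MapsTo φ (ball (0 : ℂ) 1) (ball (0 : ℂ) 1)) (n : ℕ) :
    DifferentiableOn ℂ (φ^[n]) (ball (0 : ℂ) 1) := hd.iterate hm n

lemma pow_ev (φ : ℂ → ℂ) (hm : Set.MapsTo φ (ball (0 : ℂ) 1) (ball (0 : ℂ) 1))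
    (T : HH →L[ℂ] HH)
    (hT : ∀ a : HH, ∀ z ∈ ball (0 : ℂ) 1, ev (T a) z = ev a (φ z)) (n : ℕ) :
    ∀ a : HH, ∀ z ∈ ball (0 : ℂ) 1, ev ((T ^ n) a) z = ev a (φ^[n] z) := by
  induction n with
  | zero => intro a z _; simp
  | succ n ih =>
    intro a z hz
    rw [pow_succ', mul_apply_eq_comp, hT _ z hz, ih a (φ z) (hm hz)]
    rfl

/-- finite truncation -/
noncomputable def trunc (N : ℕ) (a : HH) : HH := ∑ i ∈ range (N + 1), lp.single 2 i (a i)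

lemma trunc_apply (N : ℕ) (a : HH) (m : ℕ) (hm : N < m) : trunc N a m = 0 := by
  unfold trunc
  rw [lp.coeFn_sum, Finset.sum_apply]
  apply Finset.sum_eq_zero
  intro i hi
  apply lp.single_apply_ne
  have := Finset.mem_range.mp hi
  omega

lemma trunc_tendsto (a : HH) : Tendsto (fun N => trunc N a) atTop (𝓝 a) := by
  have h := (lp.hasSum_single (p := 2) (by norm_num) a).tendsto_sum_nat
  exact h.comp (tendsto_add_atTop_nat 1)

lemma main_bound (φ : ℂ → ℂ) (ω : ℂ) (hd : DifferentiableOn ℂ φ (ball (0 : ℂ) 1))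
    (hm : Set.MapsTo φ (ball (0 : ℂ) 1) (ball (0 : ℂ) 1)) (hω : ‖ω‖ < 1)
    (T : HH →L[ℂ] HH)
    (hT : ∀ a : HH, ∀ z ∈ ball (0 : ℂ) 1, ev (T a) z = ev a (φ z)) :
    ∃ C : ℝ, 0 < C ∧ ∀ n : ℕ,
      ‖(T ^ n) (lp.single 2 1 (1 : ℂ) : HH) - ω • (lp.single 2 0 (1 : ℂ) : HH)‖
        ≤ (1 - ‖ω‖) / 2 →
      (⨅ K : {K : HH →L[ℂ] HH // IsCompactOperator (⇑K)}, ‖T ^ n - K.1‖)
        ≤ C * ‖(T ^ n) (lp.single 2 1 (1 : ℂ) : HH) - ω • (lp.single 2 0 (1 : ℂ) : HH)‖ := by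
  obtain ⟨K, hK0, hK⟩ := key_pointwise ω hω
  obtain ⟨L, hL⟩ := exists_evalCLM ω hω
  refine ⟨Real.sqrt (2 * K) * (1 + ‖L‖) + 1, by positivity, ?_⟩
  intro n hsmall
  set ε := ‖(T ^ n) (lp.single 2 1 (1 : ℂ) : HH) - ω • (lp.single 2 0 (1 : ℂ) : HH)‖ with hε
  set e0 : HH := lp.single 2 0 (1 : ℂ) with he0
  have hε0 : 0 ≤ ε := norm_nonneg _
  let R : HH →L[ℂ] HH := L.smulRight ((T ^ n) e0)
  have hRc : IsCompactOperator (⇑R) := by
    have h1 : IsCompactOperator (⇑(ContinuousLinearMap.toSpanSingleton ℂ ((T ^ n) e0))) :=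
      isCompactOperator_of_locallyCompactSpace_rng _
    have h2 := h1.comp_clm L
    have h3 : (⇑(ContinuousLinearMap.toSpanSingleton ℂ ((T ^ n) e0)) ∘ ⇑L) = ⇑R := by
      ext a
      simp [R]
    rw [h3] at h2
    exact h2
  have hnorm_e0 : ‖e0‖ = 1 := by
    rw [he0, lp.norm_single (by norm_num)]
    simp
  have hfin : ∀ (N : ℕ) (a : HH), (∀ m, N < m → a m = 0) →
      ‖(T ^ n - R) a‖ ≤ (Real.sqrt (2 * K) * (1 + ‖L‖)) * ε * ‖a‖ := by
    intro N a ha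
    set a' : HH := a - (L a) • e0 with ha'
    have ha'0 : ∀ m, N < m → a' m = 0 := by
      intro m hmN
      rw [ha', lp.coeFn_sub, Pi.sub_apply, ha m hmN, lp.coeFn_smul, Pi.smul_apply, he0,
        lp.single_apply_ne _ _ _ (by omega)]
      simp
    have hev : ev a' ω = 0 := by
      rw [ha', ev_sub _ _ ω hω, he0, ← lp.single_smul, ev_single0, ← hL]
      simp
    have hg0 : gtail N a' 0 ω = 0 := by rw [gtail_eq_ev N a' ha'0, hev]
    obtain ⟨h1, h2⟩ := hK N a' ha'0 hg0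
    have hc := comp_estimate ω K hK0 N a' ha'0 h1 h2 (φ^[n]) (iter_diff φ hd hm n)
      (iter_mapsTo φ hm n) ((T ^ n) (lp.single 2 1 (1 : ℂ) : HH)) ((T ^ n) a')
      (by
        intro z hz
        rw [pow_ev φ hm T hT n _ z hz, ev_single1])
      (by
        intro z hz
        rw [pow_ev φ hm T hT n _ z hz])
      hsmall
    have hTR : (T ^ n - R) a = (T ^ n) a' := by
      rw [ha', sub_apply, map_sub, map_smul]
      simp [R]
    rw [hTR]
    have hna' : ‖a'‖ ≤ (1 + ‖L‖) * ‖a‖ := by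
      calc ‖a'‖ ≤ ‖a‖ + ‖(L a) • e0‖ := norm_sub_le _ _
        _ = ‖a‖ + ‖L a‖ := by rw [norm_smul, hnorm_e0, mul_one]
        _ ≤ ‖a‖ + ‖L‖ * ‖a‖ := by
            have := L.le_opNorm a
            linarith
        _ = _ := by ring
    have h3 : ‖(T ^ n) a'‖ ≤ Real.sqrt (2 * K) * ‖a'‖ * ε := by
      refine (sq_le_sq₀ (norm_nonneg _) (by positivity)).mp ?_
      calc ‖(T ^ n) a'‖ ^ 2 ≤ 2 * K * ‖a'‖ ^ 2 * ε ^ 2 := hc
        _ = (Real.sqrt (2 * K) * ‖a'‖ * ε) ^ 2 := by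
            rw [mul_pow, mul_pow, Real.sq_sqrt (by positivity)]
    calc ‖(T ^ n) a'‖ ≤ Real.sqrt (2 * K) * ‖a'‖ * ε := h3
      _ ≤ Real.sqrt (2 * K) * ((1 + ‖L‖) * ‖a‖) * ε := by
          apply mul_le_mul_of_nonneg_right _ hε0
          exact mul_le_mul_of_nonneg_left hna' (Real.sqrt_nonneg _)
      _ = _ := by ring
  have hall : ‖T ^ n - R‖ ≤ (Real.sqrt (2 * K) * (1 + ‖L‖)) * ε := by
    apply ContinuousLinearMap.opNorm_le_bound _ (by positivity)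
    intro a
    have ht1 : Tendsto (fun N => ‖(T ^ n - R) (trunc N a)‖) atTop (𝓝 ‖(T ^ n - R) a‖) :=
      (((T ^ n - R).continuous.tendsto a).comp (trunc_tendsto a)).norm
    have ht2 : Tendsto (fun N => (Real.sqrt (2 * K) * (1 + ‖L‖)) * ε * ‖trunc N a‖) atTop
        (𝓝 ((Real.sqrt (2 * K) * (1 + ‖L‖)) * ε * ‖a‖)) :=
      (trunc_tendsto a).norm.const_mul _
    apply le_of_tendsto_of_tendsto ht1 ht2
    filter_upwards with N
    exact hfin N (trunc N a) (fun m hmN => trunc_apply N a m hmN)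
  have hbdd : BddBelow (Set.range (fun K : {K : HH →L[ℂ] HH // IsCompactOperator (⇑K)} =>
      ‖T ^ n - K.1‖)) := ⟨0, by rintro x ⟨y, rfl⟩; exact norm_nonneg _⟩
  calc (⨅ K : {K : HH →L[ℂ] HH // IsCompactOperator (⇑K)}, ‖T ^ n - K.1‖)
      ≤ ‖T ^ n - R‖ := ciInf_le hbdd ⟨R, hRc⟩
    _ ≤ (Real.sqrt (2 * K) * (1 + ‖L‖)) * ε := hall
    _ ≤ _ := by nlinarith


lemma final_tendsto (ε : ℕ → ℝ) (κ : ℕ → ℝ) (C δ : ℝ) (hC : 0 < C) (hδ : 0 < δ)
    (hε0 : ∀ n, 0 ≤ ε n) (hκ0 : ∀ n, 0 ≤ κ n)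
    (hε : Tendsto (fun n : ℕ => ε n ^ ((n : ℝ)⁻¹)) atTop (𝓝 0))
    (hb : ∀ n, ε n ≤ δ → κ n ≤ C * ε n) :
    Tendsto (fun n : ℕ => κ n ^ ((n : ℝ)⁻¹)) atTop (𝓝 0) := by
  have hinv : Tendsto (fun n : ℕ => ((n : ℝ))⁻¹) atTop (𝓝 0) := tendsto_inv_atTop_nhds_zero_nat
  have hsmall : ∀ᶠ n in atTop, ε n ≤ δ := by
    have h1 : ∀ᶠ n : ℕ in atTop, ε n ^ ((n : ℝ)⁻¹) ≤ 1 / 2 := by
      have := hε.eventually (ge_mem_nhds (by norm_num : (0 : ℝ) < 1 / 2))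
      exact this
    have h2 : ∀ᶠ n : ℕ in atTop, ((1 : ℝ) / 2) ^ n ≤ δ := by
      have := tendsto_pow_atTop_nhds_zero_of_lt_one (by norm_num : (0 : ℝ) ≤ 1 / 2) (by norm_num)
      exact this.eventually (ge_mem_nhds hδ)
    filter_upwards [h1, h2, eventually_gt_atTop 0] with n hn1 hn2 hn3
    have h3 : ε n = (ε n ^ ((n : ℝ)⁻¹)) ^ n := by
      rw [← Real.rpow_natCast, ← Real.rpow_mul (hε0 n), inv_mul_cancel₀ (by positivity),
        Real.rpow_one]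
    rw [h3]
    exact (pow_le_pow_left₀ (Real.rpow_nonneg (hε0 n) _) hn1 n).trans hn2
  have hlim : Tendsto (fun n : ℕ => C ^ ((n : ℝ)⁻¹) * ε n ^ ((n : ℝ)⁻¹)) atTop (𝓝 0) := by
    have h1 : Tendsto (fun n : ℕ => C ^ ((n : ℝ)⁻¹)) atTop (𝓝 (C ^ (0 : ℝ))) :=
      tendsto_const_nhds.rpow hinv (Or.inl hC.ne')
    have := h1.mul hε
    simpa using this
  apply squeeze_zero' _ _ hlim
  · filter_upwards with n
    exact Real.rpow_nonneg (hκ0 n) _
  · filter_upwards [hsmall] with n hn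
    rw [← Real.mul_rpow hC.le (hε0 n)]
    exact Real.rpow_le_rpow (hκ0 n) (hb n hn) (by positivity)

/-- For every non-inner holomorphic selfmap φ of the unit disc fixing ω with ‖φ^[n] − ω‖_{H²}^{1/n} → 0, the composition operator C_φ on H² (coefficient model ℓ²) has essential spectral radius zero. -/
theorem result :
    ∀ (φ : ℂ → ℂ) (ω : ℂ),
      DifferentiableOn ℂ φ (ball (0 : ℂ) 1) →
      Set.MapsTo φ (ball (0 : ℂ) 1) (ball (0 : ℂ) 1) →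
      ω ∈ ball (0 : ℂ) 1 →
      φ ω = ω →
      (¬ ∀ᵐ θ : ℝ, Tendsto (fun r : ℝ => ‖φ ((r : ℂ) * exp ((θ : ℂ) * I))‖) (𝓝[<] (1 : ℝ)) (𝓝 1)) →
      ∀ T : lp (fun _ : ℕ => ℂ) 2 →L[ℂ] lp (fun _ : ℕ => ℂ) 2,
        (∀ a : lp (fun _ : ℕ => ℂ) 2, ∀ z ∈ ball (0 : ℂ) 1,
          ∑' n : ℕ, (T a) n * z ^ n = ∑' n : ℕ, a n * (φ z) ^ n) →
        Tendsto (fun n : ℕ =>
            ‖(T ^ n) (lp.single 2 1 (1 : ℂ) : lp (fun _ : ℕ => ℂ) 2)
              - ω • (lp.single 2 0 (1 : ℂ) : lp (fun _ : ℕ => ℂ) 2)‖ ^ ((n : ℝ)⁻¹))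
          atTop (𝓝 0) →
        Tendsto (fun n : ℕ =>
            (⨅ K : {K : lp (fun _ : ℕ => ℂ) 2 →L[ℂ] lp (fun _ : ℕ => ℂ) 2 // IsCompactOperator (⇑K)},
              ‖T ^ n - K.1‖) ^ ((n : ℝ)⁻¹))
          atTop (𝓝 0) := by
  intro φ ω hd hm hω _ _ T hT hlim
  have hω' : ‖ω‖ < 1 := by simpa using hω
  obtain ⟨C, hC, hCn⟩ := main_bound φ ω hd hm hω' T hT
  exact final_tendsto
    (fun n => ‖(T ^ n) (lp.single 2 1 (1 : ℂ) : HH) - ω • (lp.single 2 0 (1 : ℂ) : HH)‖)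
    (fun n => ⨅ K : {K : HH →L[ℂ] HH // IsCompactOperator (⇑K)}, ‖T ^ n - K.1‖)
    C ((1 - ‖ω‖) / 2) hC (by linarith) (fun n => norm_nonneg _)
    (fun n => Real.iInf_nonneg (fun K => norm_nonneg _)) hlim hCn

end Pool.Agent.S04345
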