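import Pool.Statements.S04354
import Pool.Agent.Helper499.Final

set_option autoImplicit false
open Pool Pool.MP_eebf92_an

namespace Pool.Agent.S04354

/-- The negation of the preceding statement: For every real Banach space with an equivalent norm that is C^k away from 0 (k ≥ 1, possibly ∞), every Lipschitz convex real function is uniformly within any ε > 0 of some C^k convex function. -/
theorem result :
    ¬ (∀ (X : Type) [NormedAddCommGroup X] [NormedSpace ℝ X] [CompleteSpace X] (k : ℕ∞), 1 ≤ k →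
      (∃ N : Seminorm ℝ X,
          (∃ c C : ℝ, 0 < c ∧ 0 < C ∧ ∀ x : X, c * ‖x‖ ≤ N x ∧ N x ≤ C * ‖x‖) ∧
          ContDiffOn ℝ (k : WithTop ℕ∞) (fun x : X => N x) ({0}ᶜ : Set X)) →
      ∀ f : X → ℝ, (∃ L, LipschitzWith L f) → ConvexOn ℝ Set.univ f →
      ∀ ε : ℝ, 0 < ε →
        ∃ φ : X → ℝ, ContDiff ℝ (k : WithTop ℕ∞) φ ∧ ConvexOn ℝ Set.univ φ ∧
          ∀ x : X, |f x - φ x| ≤ ε) := by
  intro h
  obtain ⟨N, hN1, hN2⟩ := Pool.Agent.Helper499.XX_smooth
  obtain ⟨φ, hφ, hconv, hclose⟩ := h Pool.Agent.Helper499.XX 2 (by norm_num)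
    ⟨N, hN1, hN2.of_le (by exact_mod_cast le_top)⟩
    Pool.Agent.Helper499.ff ⟨_, Pool.Agent.Helper499.ff_lip⟩ Pool.Agent.Helper499.ff_convex
    1 one_pos
  exact Pool.Agent.Helper499.ff_no_approx φ (by exact_mod_cast hφ) hconv 1 hclose

end Pool.Agent.S04354
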