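import Pool.Statements.S04359
import Pool.Agent.Helper877.SB.Herst
import Pool.Agent.Helper877.SB.Abs

set_option autoImplicit false
open Pool Pool.MP_eee3e4_an

namespace Pool.Agent.S04359

open Pool.Agent.Helper877.SB

/-- Let A be a finite von Neumann factor on a Hilbert space and B a semisimple complex unital Banach algebra. If T: A → B is linear, surjective and spectrally bounded, then T(1) is a non-zero complex multiple of the identity of B. -/
theorem result :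
    ∀ (H : Type) [NormedAddCommGroup H] [InnerProductSpace ℂ H] [CompleteSpace H]
      (B : Type) [NormedRing B] [NormedAlgebra ℂ B] [CompleteSpace B]
      (A : StarSubalgebra ℂ (H →L[ℂ] H)),
      Set.centralizer (Set.centralizer (A : Set (H →L[ℂ] H))) = (A : Set (H →L[ℂ] H)) →
      (∀ z ∈ A, (∀ a ∈ A, z * a = a * z) → ∃ c : ℂ, z = c • (1 : H →L[ℂ] H)) →
      (∀ u ∈ A, star u * u = 1 → u * star u = 1) →
      (⊥ : Ideal B).jacobson = ⊥ →
      ∀ T : A →ₗ[ℂ] B, Function.Surjective T →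
      (∃ M : NNReal, ∀ x : A,
        spectralRadius ℂ (T x) ≤ (M : ENNReal) * spectralRadius ℂ (x : H →L[ℂ] H)) →
      ∃ c : ℂ, c ≠ 0 ∧ T 1 = c • (1 : B) := by
  intro H _ _ _ B _ _ _ A hA hcenter hfin hB T hs hT
  obtain ⟨M, hM⟩ := hT
  let N : VonNeumannAlgebra H := ⟨A, hA⟩
  have hN : Helper278.HasTrivialCenter N := fun z hz h => hcenter z hz h
  have hfin' : ∀ u ∈ N, star u * u = 1 → u * star u = 1 := hfin
  -- spectral bounds
  have hrad : ∀ a : H →L[ℂ] H, spectralRadius ℂ a ≤ ENNReal.ofReal (‖a‖ * ‖(1 : H →L[ℂ] H)‖) := by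
    intro a
    apply iSup₂_le
    intro μ hμ
    have h1 := spectrum.norm_le_norm_mul_of_mem hμ
    exact ENNReal.coe_le_coe.2 (NNReal.le_toNNReal_of_coe_le h1)
  have hbd : ∀ (a : A) (μ : ℂ), μ ∈ spectrum ℂ (T a) →
      ‖μ‖ ≤ ((M : ENNReal) * spectralRadius ℂ (a : H →L[ℂ] H)).toReal := by
    intro a μ hμ
    have h1 : (‖μ‖₊ : ENNReal) ≤ spectralRadius ℂ (T a) :=
      le_iSup₂_of_le μ hμ le_rfl
    have h2 := h1.trans (hM a)
    have h3 : (M : ENNReal) * spectralRadius ℂ (a : H →L[ℂ] H) ≠ ⊤ :=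
      ENNReal.mul_ne_top ENNReal.coe_ne_top ((hrad _).trans_lt ENNReal.ofReal_lt_top).ne
    have h4 := ENNReal.toReal_mono h3 h2
    simpa using h4
  have horb : OrbitBdd T := by
    intro a
    refine ⟨((M : ENNReal) * spectralRadius ℂ (a : H →L[ℂ] H)).toReal, fun u v huv hvu μ hμ => ?_⟩
    have h1 := hbd (v * a * u) μ hμ
    have huv' : (u : H →L[ℂ] H) * v = 1 := congrArg Subtype.val huv
    have hvu' : (v : H →L[ℂ] H) * u = 1 := congrArg Subtype.val hvu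
    have h2 := spectrum_conj (⟨u, v, huv', hvu'⟩ : (H →L[ℂ] H)ˣ) (a : H →L[ℂ] H)
    have h3 : spectralRadius ℂ (((v * a * u : A)) : H →L[ℂ] H)
        = spectralRadius ℂ (a : H →L[ℂ] H) := by
      unfold spectralRadius
      rw [← h2]
      rfl
    rwa [h3] at h1
  have hC : ∀ a : A, ∀ μ ∈ spectrum ℂ (T a), ‖μ‖ ≤ ((M : ℝ) * ‖(1 : H →L[ℂ] H)‖) * ‖a‖ := by
    intro a μ hμ
    refine (hbd a μ hμ).trans ?_
    rw [ENNReal.toReal_mul]
    have h1 := ENNReal.toReal_mono ENNReal.ofReal_ne_top (hrad (a : H →L[ℂ] H))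
    rw [ENNReal.toReal_ofReal (by positivity)] at h1
    have h2 : ‖(a : H →L[ℂ] H)‖ = ‖a‖ := rfl
    rw [h2] at h1
    calc ((M : ENNReal)).toReal * (spectralRadius ℂ (a : H →L[ℂ] H)).toReal
        ≤ (M : ℝ) * (‖a‖ * ‖(1 : H →L[ℂ] H)‖) := by
          rw [ENNReal.coe_toReal]
          gcongr
      _ = _ := by ring
  -- the kernel as a submodule of the operators
  let K : Submodule ℂ (H →L[ℂ] H) := (LinearMap.ker T).map A.toSubalgebra.toSubmodule.subtype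
  have hKmem : ∀ x : H →L[ℂ] H, x ∈ K ↔ ∃ h : x ∈ A, T ⟨x, h⟩ = 0 := by
    intro x
    constructor
    · rintro ⟨k, hk, rfl⟩
      exact ⟨k.2, hk⟩
    · rintro ⟨h, hk⟩
      exact ⟨⟨x, h⟩, hk, rfl⟩
  have hKc : IsClosed (K : Set (H →L[ℂ] H)) := by
    rw [← closure_subset_iff_isClosed]
    intro a ha
    have haA : a ∈ A := by
      have h1 : (K : Set (H →L[ℂ] H)) ⊆ (N : Set (H →L[ℂ] H)) := fun x hx =>
        ((hKmem x).1 hx).1
      exact closure_minimal h1 (isClosed_vn N) ha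
    refine (hKmem a).2 ⟨haA, ?_⟩
    apply ker_closed hB hs (C := (M : ℝ) * ‖(1 : H →L[ℂ] H)‖) (by positivity) hC
    intro ε hε
    obtain ⟨k, hk, hak⟩ := Metric.mem_closure_iff.1 ha ε hε
    obtain ⟨hkA, hTk⟩ := (hKmem k).1 hk
    refine ⟨⟨k, hkA⟩, hTk, ?_⟩
    rw [dist_eq_norm] at hak
    exact hak
  have hL : ∀ k ∈ K, ∀ x ∈ N, x * x = 0 → k * x - x * k ∈ K := by
    intro k hk x hx hxx
    obtain ⟨hkA, hTk⟩ := (hKmem k).1 hk
    have h1 := (comm_eq_zero hB hs horb (⟨x, hx⟩ : A) ⟨k, hkA⟩ (Subtype.ext hxx) 0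
      (by rw [hTk, zero_smul])).1
    exact (hKmem _).2 ⟨sub_mem (mul_mem hkA hx) (mul_mem hx hkA), h1⟩
  obtain ⟨c0, hc0⟩ := hs 1
  have hc : ∀ x ∈ N, x * x = 0 → (c0 : H →L[ℂ] H) * x - x * c0 ∈ K := by
    intro x hx hxx
    have h1 := (comm_eq_zero hB hs horb (⟨x, hx⟩ : A) c0 (Subtype.ext hxx) 1
      (by rw [hc0, one_smul])).1
    exact (hKmem _).2 ⟨sub_mem (mul_mem c0.2 hx) (mul_mem hx c0.2), h1⟩
  obtain ⟨γ, hγ⟩ := lie_main N hN hfin' K hKc (fun k hk => ((hKmem k).1 hk).1) hL c0.2 hc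
  obtain ⟨h1, h2⟩ := (hKmem _).1 hγ
  have h3 : T (c0 - γ • 1) = 0 := h2
  rw [map_sub, map_smul, hc0, sub_eq_zero] at h3
  by_cases hγ0 : γ = 0
  · rw [hγ0, zero_smul] at h3
    have hsub : Subsingleton B := subsingleton_of_zero_eq_one h3.symm
    exact ⟨1, one_ne_zero, Subsingleton.elim _ _⟩
  · refine ⟨γ⁻¹, inv_ne_zero hγ0, ?_⟩
    rw [h3, smul_smul, inv_mul_cancel₀ hγ0, one_smul]

end Pool.Agent.S04359
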