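import Pool.Statements.S04366
import Pool.Agent.Helper841.SnowC7

set_option autoImplicit false
open Pool Pool.MP_efb015_an

namespace Pool.Agent.S04366

/-- The negation of the preceding statement: For every exponent q with 2 < q < ∞, L_q[0,1] admits a coarse embedding (nondecreasing control functions, lower one tending to infinity) or a uniform embedding into the sequence space ℓ_q. -/
theorem result :
    ¬ (∀ (p : ENNReal) [Fact (1 ≤ p)], 2 < p → p ≠ ⊤ →
      ((∃ (f : MeasureTheory.Lp ℝ p (MeasureTheory.volume.restrict (Set.Icc (0:ℝ) 1)) →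
              lp (fun _ : ℕ => ℝ) p) (ρ₁ ρ₂ : ℝ → ℝ),
          Monotone ρ₁ ∧ Monotone ρ₂ ∧ Filter.Tendsto ρ₁ Filter.atTop Filter.atTop ∧
          ∀ x y, ρ₁ (dist x y) ≤ dist (f x) (f y) ∧ dist (f x) (f y) ≤ ρ₂ (dist x y)) ∨
       (∃ f : MeasureTheory.Lp ℝ p (MeasureTheory.volume.restrict (Set.Icc (0:ℝ) 1)) →
              lp (fun _ : ℕ => ℝ) p,
          IsUniformEmbedding f))) := by
  intro h
  have hf : Fact ((1 : ENNReal) ≤ 3) := ⟨by norm_num⟩
  have h2 : (2 : ENNReal) < 3 := by norm_num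
  have h3 : (3 : ENNReal) ≠ ⊤ := by norm_num
  rcases @h 3 hf h2 h3 with hc | hu
  · exact Pool.Agent.Helper841.Snow.no_coarse h2 h3 hc
  · exact Pool.Agent.Helper841.Snow.no_uniform h2 h3 hu

end Pool.Agent.S04366
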