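import Pool.Statements.S04389
import Pool.Agent.Helper402.ThetaWire

set_option autoImplicit false
open Pool Pool.MP_f310b7_an

namespace Pool.Agent.S04389

/-- In dimension 4, ξ_4 (the least σ ≥ 1 such that some simplex in the cube [0,1]^4, scaled by σ about its centroid, covers the cube) is strictly less than (5/2)(θ_4 − 1) + 1, where θ_4 is the minimal norm of a linear interpolation projector on that cube. -/
theorem result :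
    sInf ((fun v : Fin 5 → (Fin 4 → ℝ) =>
        sInf {σ : ℝ | 1 ≤ σ ∧ Set.Icc (0 : Fin 4 → ℝ) 1 ⊆
          (AffineMap.homothety ((5 : ℝ)⁻¹ • ∑ j, v j) σ) '' convexHull ℝ (Set.range v)}) ''
        {v : Fin 5 → (Fin 4 → ℝ) | AffineIndependent ℝ v ∧ ∀ j, v j ∈ Set.Icc (0 : Fin 4 → ℝ) 1})
    < (5 / 2 : ℝ) *
        (sInf ((fun v : Fin 5 → (Fin 4 → ℝ) =>
            sSup {t : ℝ | ∃ f : (Fin 4 → ℝ) → ℝ, ContinuousOn f (Set.Icc (0 : Fin 4 → ℝ) 1) ∧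
              (∀ y ∈ Set.Icc (0 : Fin 4 → ℝ) 1, |f y| ≤ 1) ∧
              ∃ x ∈ Set.Icc (0 : Fin 4 → ℝ) 1, ∃ l : Fin 5 → ℝ,
                ∑ j, l j = 1 ∧ ∑ j, l j • v j = x ∧ t = |∑ j, f (v j) * l j|}) ''
            {v : Fin 5 → (Fin 4 → ℝ) | AffineIndependent ℝ v ∧ ∀ j, v j ∈ Set.Icc (0 : Fin 4 → ℝ) 1})
          - 1) + 1 := by
  have h1 : sInf ((fun v : Fin 5 → (Fin 4 → ℝ) =>
        sInf {σ : ℝ | 1 ≤ σ ∧ Set.Icc (0 : Fin 4 → ℝ) 1 ⊆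
          (AffineMap.homothety ((5 : ℝ)⁻¹ • ∑ j, v j) σ) '' convexHull ℝ (Set.range v)}) ''
        {v : Fin 5 → (Fin 4 → ℝ) | AffineIndependent ℝ v ∧ ∀ j, v j ∈ Set.Icc (0 : Fin 4 → ℝ) 1})
      ≤ 14393 / 3498 := by
    have hinner : sInf {σ : ℝ | 1 ≤ σ ∧ Set.Icc (0 : Fin 4 → ℝ) 1 ⊆
          (AffineMap.homothety ((5 : ℝ)⁻¹ • ∑ j, Helper402.Theta.S0 j) σ) ''
            convexHull ℝ (Set.range Helper402.Theta.S0)} ≤ 14393 / 3498 := by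
      refine csInf_le ⟨1, fun σ hσ => hσ.1⟩ ⟨by norm_num, Helper402.Theta.S0_absorb⟩
    have hmem : Helper402.Theta.S0 ∈ {v : Fin 5 → (Fin 4 → ℝ) | AffineIndependent ℝ v ∧
        ∀ j, v j ∈ Set.Icc (0 : Fin 4 → ℝ) 1} :=
      ⟨Helper402.Theta.S0_indep, Helper402.Theta.S0_mem⟩
    refine (csInf_le ?_ (Set.mem_image_of_mem _ hmem)).trans hinner
    refine ⟨0, ?_⟩
    rintro _ ⟨v, -, rfl⟩
    refine Real.sInf_nonneg fun σ hσ => ?_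
    linarith [hσ.1]
  have h2 : (2.246 : ℝ) ≤ sInf ((fun v : Fin 5 → (Fin 4 → ℝ) =>
            sSup {t : ℝ | ∃ f : (Fin 4 → ℝ) → ℝ, ContinuousOn f (Set.Icc (0 : Fin 4 → ℝ) 1) ∧
              (∀ y ∈ Set.Icc (0 : Fin 4 → ℝ) 1, |f y| ≤ 1) ∧
              ∃ x ∈ Set.Icc (0 : Fin 4 → ℝ) 1, ∃ l : Fin 5 → ℝ,
                ∑ j, l j = 1 ∧ ∑ j, l j • v j = x ∧ t = |∑ j, f (v j) * l j|}) ''
            {v : Fin 5 → (Fin 4 → ℝ) | AffineIndependent ℝ v ∧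
              ∀ j, v j ∈ Set.Icc (0 : Fin 4 → ℝ) 1}) := by
    have hmem : Helper402.Theta.S0 ∈ {v : Fin 5 → (Fin 4 → ℝ) | AffineIndependent ℝ v ∧
        ∀ j, v j ∈ Set.Icc (0 : Fin 4 → ℝ) 1} :=
      ⟨Helper402.Theta.S0_indep, Helper402.Theta.S0_mem⟩
    refine le_csInf ⟨_, Set.mem_image_of_mem _ hmem⟩ ?_
    rintro _ ⟨v, ⟨hv, hc⟩, rfl⟩
    exact Helper402.Theta.norm_lower v hv hc
  refine lt_of_le_of_lt h1 ?_
  norm_num at h2 ⊢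
  linarith

end Pool.Agent.S04389
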