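import Pool.Statements.S04396
-- import your own Pool.Agent.* helpers here
import Pool.Agent.WT563.Meas

set_option autoImplicit false
open Na99134c6
open MeasureTheory Set ENNReal NNReal
open Pool Pool.MP_f397a6_an

namespace Pool.Agent.S04396

/-- The negation of the preceding statement: For all n≥3 and Ω a union of n ordered, strictly separated nondegenerate open intervals, if some locally finite measure ν satisfies ∫1_Ω(x−t)dν(t)=1_{Ωᶜ}(x) a.e., then some T⊆ℝ makes Σ_{t∈T}δ_t a locally finite measure satisfying the same a.e. identity. -/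
theorem result :
    ¬ (∀ (n : ℕ) (_ : 3 ≤ n) (Ω : Set ℝ) (_ : IsUnionOfNIntervals n Ω) (ν : Measure ℝ) (_ : IsWeakTilingMeasure Ω ν), ∃ T : Set ℝ, IsProperTiling Ω T) := by
  intro h
  obtain ⟨T, hT⟩ := h 60 (by norm_num) WT563.Om WT563.Om_union WT563.nu WT563.nu_weak
  exact WT563.no_proper T hT

end Pool.Agent.S04396
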