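import Pool.Statements.S04403
import Pool.Agent.Helper930.HS.MainR

set_option autoImplicit false
open MeasureTheory
open Pool Pool.MP_f44734_an

namespace Pool.Agent.S04403

/-- For n≥2, every W^{1,n} weak solution on an open Ω⊂ℝⁿ of −div(∣∇u∣^{n−2}∇u)=H(u)Ju (H bounded Lipschitz, Ju the cross product of partials) with k∈{1..n} essentially bounded coordinates is a.e. equal to a continuous map. -/
theorem result :
  ∀ (n : ℕ), 2 ≤ n → ∀ k : ℕ, 1 ≤ k → k ≤ n →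
  ∀ (Ω : Set (Fin n → ℝ)), IsOpen Ω →
  ∀ (H : (Fin (n+1) → ℝ) → ℝ), (∃ M : ℝ, ∀ y, |H y| ≤ M) → (∃ K : NNReal, LipschitzWith K H) →
  ∀ (u : (Fin n → ℝ) → (Fin (n+1) → ℝ))
    (Du : (Fin n → ℝ) → Matrix (Fin (n+1)) (Fin n) ℝ),
  MemLp u (n : ENNReal) (volume.restrict Ω) →
  (∀ i j, MemLp (fun x => Du x i j) (n : ENNReal) (volume.restrict Ω)) →
  (∀ (φ : (Fin n → ℝ) → ℝ), ContDiff ℝ (⊤ : ℕ∞) φ → HasCompactSupport φ → tsupport φ ⊆ Ω →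
     (∀ (i : Fin (n+1)) (j : Fin n),
        ∫ x in Ω, u x i * fderiv ℝ φ x (Pi.single j 1)
          = - ∫ x in Ω, Du x i j * φ x) ∧
     (∀ i : Fin (n+1),
        ∫ x in Ω, Real.sqrt (∑ a, ∑ b, Du x a b ^ 2) ^ (n - 2)
            * ∑ j, Du x i j * fderiv ℝ φ x (Pi.single j 1)
          = ∫ x in Ω, H (u x) * ((-1 : ℝ) ^ (i : ℕ) * ((Du x).submatrix i.succAbove id).det) * φ x)) →
  (∃ S : Finset (Fin (n+1)), S.card = k ∧
     ∀ i ∈ S, ∃ C : ℝ, ∀ᵐ x ∂(volume.restrict Ω), |u x i| ≤ C) →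
  ∃ v : (Fin n → ℝ) → (Fin (n+1) → ℝ), ContinuousOn v Ω ∧ u =ᵐ[volume.restrict Ω] v := by
  intro n hn k _ _ Ω hΩ H hb hL u Du h1 h2 h3 _
  exact H930.HS.main_reg hn hΩ hb hL ⟨h1, h2, h3⟩

end Pool.Agent.S04403
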